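import Pool.Agent.Lib.MP_6947cd_al.ZB.Pre

/-!
Problem MP_6947cd_al (Chollet).  Case B, second entry in [2/5, 17/20]: certificates of the tree, part P129 (generated).
-/

set_option autoImplicit false
set_option linter.all false

namespace Pool.Agent.Lib.MP_6947cd_al
namespace B2

open Ent Fr B1 PkA

noncomputable def p129_k0 : C1.Kn := ⟨[nat_lit 20, nat_lit 60, nat_lit 140], [nat_lit 0, nat_lit 0, nat_lit 4874], [(nat_lit 0, nat_lit 0, nat_lit 0), (nat_lit 0, nat_lit 0, nat_lit 0), (nat_lit 1000, nat_lit 619, nat_lit 951)], (nat_lit 62, nat_lit 100, nat_lit 94)⟩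
noncomputable def p129_k1 : C1.Kn := ⟨[nat_lit 40, nat_lit 80, nat_lit 160], [nat_lit 0, nat_lit 0, nat_lit 4265], [(nat_lit 0, nat_lit 0, nat_lit 0), (nat_lit 0, nat_lit 0, nat_lit 0), (nat_lit 1000, nat_lit 833, nat_lit 833)], (nat_lit 87, nat_lit 95, nat_lit 100)⟩
noncomputable def p129_k2 : C1.Kn := ⟨[nat_lit 20, nat_lit 60, nat_lit 120], [nat_lit 0, nat_lit 698, nat_lit 4166], [(nat_lit 0, nat_lit 0, nat_lit 0), (nat_lit 1000, nat_lit 782, nat_lit 272), (nat_lit 1000, nat_lit 529, nat_lit 902)], (nat_lit 53, nat_lit 100, nat_lit 93)⟩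
noncomputable def p129_k3 : C1.Kn := ⟨[nat_lit 20, nat_lit 60, nat_lit 120], [nat_lit 0, nat_lit 1415, nat_lit 4677], [(nat_lit 0, nat_lit 0, nat_lit 0), (nat_lit 1000, nat_lit 558, nat_lit 551), (nat_lit 1000, nat_lit 439, nat_lit 849)], (nat_lit 44, nat_lit 100, nat_lit 92)⟩
noncomputable def p129_k4 : C1.Kn := ⟨[nat_lit 20, nat_lit 60, nat_lit 120], [nat_lit 0, nat_lit 0, nat_lit 3661], [(nat_lit 0, nat_lit 0, nat_lit 0), (nat_lit 0, nat_lit 0, nat_lit 0), (nat_lit 1000, nat_lit 611, nat_lit 913)], (nat_lit 60, nat_lit 100, nat_lit 87)⟩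
noncomputable def p129_k5 : C1.Kn := ⟨[nat_lit 40, nat_lit 80, nat_lit 140], [nat_lit 0, nat_lit 0, nat_lit 3199], [(nat_lit 0, nat_lit 0, nat_lit 0), (nat_lit 0, nat_lit 0, nat_lit 0), (nat_lit 1000, nat_lit 833, nat_lit 833)], (nat_lit 87, nat_lit 100, nat_lit 94)⟩
noncomputable def p129_k6 : C1.Kn := ⟨[nat_lit 20, nat_lit 60, nat_lit 120], [nat_lit 0, nat_lit 698, nat_lit 4166], [(nat_lit 0, nat_lit 0, nat_lit 0), (nat_lit 1000, nat_lit 782, nat_lit 272), (nat_lit 1000, nat_lit 529, nat_lit 902)], (nat_lit 53, nat_lit 100, nat_lit 87)⟩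
noncomputable def p129_k7 : C1.Kn := ⟨[nat_lit 20, nat_lit 60, nat_lit 100], [nat_lit 0, nat_lit 1415, nat_lit 3591], [(nat_lit 0, nat_lit 0, nat_lit 0), (nat_lit 1000, nat_lit 558, nat_lit 551), (nat_lit 1000, nat_lit 439, nat_lit 849)], (nat_lit 44, nat_lit 100, nat_lit 87)⟩
noncomputable def p129_k8 : C1.Kn := ⟨[nat_lit 20, nat_lit 60, nat_lit 100], [nat_lit 0, nat_lit 2136, nat_lit 4235], [(nat_lit 0, nat_lit 0, nat_lit 0), (nat_lit 1000, nat_lit 343, nat_lit 808), (nat_lit 1000, nat_lit 338, nat_lit 820)], (nat_lit 31, nat_lit 100, nat_lit 92)⟩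
noncomputable def p129_k9 : C1.Kn := ⟨[nat_lit 40, nat_lit 80, nat_lit 160], [nat_lit 0, nat_lit 395, nat_lit 4535], [(nat_lit 0, nat_lit 0, nat_lit 0), (nat_lit 1000, nat_lit 908, nat_lit 154), (nat_lit 1000, nat_lit 776, nat_lit 808)], (nat_lit 83, nat_lit 98, nat_lit 100)⟩
noncomputable def p129_k10 : C1.Kn := ⟨[nat_lit 20, nat_lit 80, nat_lit 140], [nat_lit 0, nat_lit 0, nat_lit 4928], [(nat_lit 0, nat_lit 0, nat_lit 0), (nat_lit 0, nat_lit 0, nat_lit 0), (nat_lit 950, nat_lit 618, nat_lit 1000)], (nat_lit 62, nat_lit 100, nat_lit 94)⟩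
noncomputable def p129_k11 : C1.Kn := ⟨[nat_lit 40, nat_lit 100, nat_lit 160], [nat_lit 0, nat_lit 0, nat_lit 4607], [(nat_lit 0, nat_lit 0, nat_lit 0), (nat_lit 0, nat_lit 0, nat_lit 0), (nat_lit 846, nat_lit 837, nat_lit 1000)], (nat_lit 87, nat_lit 95, nat_lit 100)⟩
noncomputable def p129_l0 : Lf2 := ⟨nat_lit 0, nat_lit 30, [nat_lit 15, nat_lit 5, nat_lit 5, nat_lit 20], false, nat_lit 8, nat_lit 248, nat_lit 0, nat_lit 300, ⟨nat_lit 1000, nat_lit 0, nat_lit 0, nat_lit 0, nat_lit 0, nat_lit 0, nat_lit 0, nat_lit 0, nat_lit 0, nat_lit 0, nat_lit 0, nat_lit 0, nat_lit 0, nat_lit 0, nat_lit 0, nat_lit 0, false, false⟩,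
 nat_lit 0, nat_lit 6797, nat_lit 0, nat_lit 0, nat_lit 5919, nat_lit 9097, nat_lit 420, nat_lit 0, nat_lit 0, nat_lit 512, nat_lit 0, nat_lit 0, nat_lit 0, nat_lit 0, nat_lit 0, nat_lit 0, nat_lit 0, nat_lit 0, [],
 ⟨p129_k0, nat_lit 0, nat_lit 0, nat_lit 453, nat_lit 0, nat_lit 588069, [nat_lit 938000000, nat_lit 3282000000, nat_lit 9842000000], [], [nat_lit 29259160256, nat_lit 30120863089, nat_lit 33745255830, nat_lit 34405426187, nat_lit 27168529400, nat_lit 27573281185, nat_lit 30094783480, nat_lit 30582213350], nat_lit 1271250, nat_lit 1271250, nat_lit 1271250, nat_lit 1271250, nat_lit 43600, nat_lit 1756600, [nat_lit 230000, nat_lit 780000, nat_lit 2090000], [nat_lit 93, nat_lit 40, nat_lit 40, nat_lit 80, nat_lit 63, nat_lit 373, nat_lit 150, nat_lit 10]⟩, ⟨p129_k1, nat_lit 0, nat_lit 0, nat_lit 217, nat_lit 0, nat_lit 0, [nat_lit 2032000000, nat_lit 4688000000, nat_lit 11872000000], [], [nat_lit 32433123928,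 nat_lit 34311152944, nat_lit 37791943352, nat_lit 39154795696, nat_lit 28006270901, nat_lit 29137733059, nat_lit 31711200998, nat_lit 33160896364], nat_lit 0, nat_lit 0, nat_lit 0, nat_lit 0, nat_lit 0, nat_lit 0, [], [nat_lit 75, nat_lit 40, nat_lit 40, nat_lit 80, nat_lit 65, nat_lit 401, nat_lit 175, nat_lit 10]⟩,
 zbF0, [⟨nat_lit 0, nat_lit 73, nat_lit 54, nat_lit 100, nat_lit 303963891⟩, ⟨nat_lit 16, nat_lit 57, nat_lit 100, nat_lit 87, nat_lit 181991440⟩, ⟨nat_lit 7, nat_lit 100, nat_lit 81, nat_lit 92, nat_lit 108320009⟩]⟩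
noncomputable def p129_l1 : Lf2 := ⟨nat_lit 0, nat_lit 30, [nat_lit 15, nat_lit 5, nat_lit 5, nat_lit 20], false, nat_lit 12, nat_lit 232, nat_lit 0, nat_lit 300, ⟨nat_lit 1000, nat_lit 0, nat_lit 0, nat_lit 0, nat_lit 0, nat_lit 0, nat_lit 0, nat_lit 0, nat_lit 0, nat_lit 0, nat_lit 0, nat_lit 0, nat_lit 0, nat_lit 0, nat_lit 0, nat_lit 0, false, false⟩,
 nat_lit 0, nat_lit 4919, nat_lit 0, nat_lit 0, nat_lit 4438, nat_lit 11335, nat_lit 546, nat_lit 0, nat_lit 0, nat_lit 156, nat_lit 0, nat_lit 0, nat_lit 0, nat_lit 0, nat_lit 0, nat_lit 0, nat_lit 0, nat_lit 0, [],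
 ⟨p129_k2, nat_lit 0, nat_lit 0, nat_lit 406, nat_lit 0, nat_lit 629750, [nat_lit 938000000, nat_lit 3282000000, nat_lit 7968000000], [], [nat_lit 25485005933, nat_lit 26531043205, nat_lit 30690473734, nat_lit 31506567409, nat_lit 25207073057, nat_lit 25585004200, nat_lit 28627096720, nat_lit 29257156747], nat_lit 1271250, nat_lit 1271250, nat_lit 1271250, nat_lit 1271250, nat_lit 65850, nat_lit 1644350, [nat_lit 230000, nat_lit 780000, nat_lit 1762500], [nat_lit 54, nat_lit 40, nat_lit 40, nat_lit 80, nat_lit 43, nat_lit 373, nat_lit 150, nat_lit 11]⟩, ⟨p129_k1, nat_lit 0, nat_lit 0, nat_lit 217, nat_lit 0, nat_lit 0, [nat_lit 2032000000, nat_lit 4688000000, nat_lit 11872000000], [], [nat_lit 38970271117, nat_lit 41072743813, nat_lit 44343752860, nat_lit 45899997690, nat_lit 31602751811, nat_lit 32835585283, nat_lit 34164386125, nat_lit 35063563353], nat_lit 0, nat_lit 0, nat_lit 0, nat_lit 0, nat_lit 0, nat_lit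 0, [], [nat_lit 75, nat_lit 40, nat_lit 40, nat_lit 80, nat_lit 65, nat_lit 401, nat_lit 175, nat_lit 10]⟩,
 zbF0, [⟨nat_lit 0, nat_lit 75, nat_lit 46, nat_lit 100, nat_lit 350927840⟩, ⟨nat_lit 4, nat_lit 100, nat_lit 48, nat_lit 87, nat_lit 277349267⟩]⟩
noncomputable def p129_l2 : Lf2 := ⟨nat_lit 0, nat_lit 30, [nat_lit 15, nat_lit 5, nat_lit 5, nat_lit 20], false, nat_lit 20, nat_lit 208, nat_lit 0, nat_lit 300, ⟨nat_lit 1000, nat_lit 0, nat_lit 0, nat_lit 0, nat_lit 0, nat_lit 0, nat_lit 0, nat_lit 0, nat_lit 0, nat_lit 0, nat_lit 0, nat_lit 0, nat_lit 0, nat_lit 0, nat_lit 0, nat_lit 0, false, false⟩,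
 nat_lit 0, nat_lit 4245, nat_lit 0, nat_lit 0, nat_lit 3966, nat_lit 11335, nat_lit 455, nat_lit 0, nat_lit 0, nat_lit 156, nat_lit 0, nat_lit 0, nat_lit 0, nat_lit 0, nat_lit 0, nat_lit 0, nat_lit 0, nat_lit 0, [],
 ⟨p129_k3, nat_lit 0, nat_lit 0, nat_lit 455, nat_lit 0, nat_lit 738285, [nat_lit 938000000, nat_lit 3282000000, nat_lit 7968000000], [], [nat_lit 26518145574, nat_lit 27911247405, nat_lit 30045734604, nat_lit 31575815336, nat_lit 25819625361, nat_lit 26938283472, nat_lit 28375738550, nat_lit 29614940308], nat_lit 1271250, nat_lit 1271250, nat_lit 1271250, nat_lit 1271250, nat_lit 111251, nat_lit 1474250, [nat_lit 230000, nat_lit 780000, nat_lit 1762500], [nat_lit 54, nat_lit 40, nat_lit 40, nat_lit 80, nat_lit 43, nat_lit 373, nat_lit 150, nat_lit 11]⟩, ⟨p129_k1, nat_lit 0, nat_lit 0, nat_lit 217, nat_lit 0, nat_lit 0, [nat_lit 2032000000, nat_lit 4688000000, nat_lit 11872000000], [], [nat_lit 39608214337,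 nat_lit 41610983052, nat_lit 44343752860, nat_lit 45899997690, nat_lit 31797907756, nat_lit 32970263454, nat_lit 34164386125, nat_lit 35063563353], nat_lit 0, nat_lit 0, nat_lit 0, nat_lit 0, nat_lit 0, nat_lit 0, [], [nat_lit 75, nat_lit 40, nat_lit 40, nat_lit 80, nat_lit 65, nat_lit 401, nat_lit 175, nat_lit 10]⟩,
 zbF0, [⟨nat_lit 0, nat_lit 82, nat_lit 34, nat_lit 100, nat_lit 153573739⟩, ⟨nat_lit 0, nat_lit 82, nat_lit 44, nat_lit 100, nat_lit 224991509⟩, ⟨nat_lit 4, nat_lit 100, nat_lit 32, nat_lit 88, nat_lit 420864438⟩]⟩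
noncomputable def p129_l3 : Lf2 := ⟨nat_lit 0, nat_lit 30, [nat_lit 15, nat_lit 5, nat_lit 5, nat_lit 20], false, nat_lit 8, nat_lit 248, nat_lit 0, nat_lit 300, ⟨nat_lit 1000, nat_lit 0, nat_lit 0, nat_lit 0, nat_lit 0, nat_lit 0, nat_lit 0, nat_lit 0, nat_lit 0, nat_lit 0, nat_lit 0, nat_lit 0, nat_lit 0, nat_lit 0, nat_lit 0, nat_lit 0, false, false⟩,
 nat_lit 0, nat_lit 6385, nat_lit 0, nat_lit 0, nat_lit 5561, nat_lit 5977, nat_lit 318, nat_lit 0, nat_lit 0, nat_lit 585, nat_lit 0, nat_lit 0, nat_lit 0, nat_lit 0, nat_lit 0, nat_lit 0, nat_lit 0, nat_lit 0, [],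
 ⟨p129_k0, nat_lit 0, nat_lit 0, nat_lit 467, nat_lit 0, nat_lit 661037, [nat_lit 938000000, nat_lit 3282000000, nat_lit 9842000000], [], [nat_lit 35013410503, nat_lit 36288347632, nat_lit 39366107355, nat_lit 40382836168, nat_lit 32163637283, nat_lit 32790497678, nat_lit 35075936043, nat_lit 35837027354], nat_lit 1271250, nat_lit 1271250, nat_lit 1271250, nat_lit 1271250, nat_lit 43600, nat_lit 1756600, [nat_lit 230000, nat_lit 780000, nat_lit 2090000], [nat_lit 93, nat_lit 40, nat_lit 40, nat_lit 80, nat_lit 63, nat_lit 289, nat_lit 75, nat_lit 7]⟩, ⟨p129_k1, nat_lit 0, nat_lit 0, nat_lit 234, nat_lit 0, nat_lit 0, [nat_lit 2032000000, nat_lit 4688000000, nat_lit 11872000000], [], [nat_lit 34299852307, nat_lit 35390497653, nat_lit 38892618899, nat_lit 39728568505, nat_lit 31663360663, nat_lit 32261273573, nat_lit 34549342417, nat_lit 35088298803], nat_lit 0, nat_lit 0, nat_lit 0, nat_lit 0, nat_lit 0, nat_lit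 0, [], [nat_lit 75, nat_lit 40, nat_lit 40, nat_lit 80, nat_lit 65, nat_lit 289, nat_lit 75, nat_lit 7]⟩,
 zbF0, [⟨nat_lit 16, nat_lit 53, nat_lit 100, nat_lit 87, nat_lit 165767440⟩, ⟨nat_lit 7, nat_lit 100, nat_lit 81, nat_lit 92, nat_lit 138595465⟩]⟩
noncomputable def p129_l4 : Lf2 := ⟨nat_lit 0, nat_lit 30, [nat_lit 15, nat_lit 5, nat_lit 5, nat_lit 20], false, nat_lit 20, nat_lit 208, nat_lit 0, nat_lit 300, ⟨nat_lit 1000, nat_lit 0, nat_lit 0, nat_lit 0, nat_lit 0, nat_lit 0, nat_lit 0, nat_lit 0, nat_lit 0, nat_lit 0, nat_lit 0, nat_lit 0, nat_lit 0, nat_lit 0, nat_lit 0, nat_lit 0, false, false⟩,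
 nat_lit 0, nat_lit 3988, nat_lit 0, nat_lit 0, nat_lit 3726, nat_lit 9923, nat_lit 383, nat_lit 0, nat_lit 0, nat_lit 127, nat_lit 0, nat_lit 0, nat_lit 0, nat_lit 0, nat_lit 0, nat_lit 0, nat_lit 0, nat_lit 0, [],
 ⟨p129_k3, nat_lit 0, nat_lit 0, nat_lit 454, nat_lit 0, nat_lit 738285, [nat_lit 938000000, nat_lit 3282000000, nat_lit 7968000000], [], [nat_lit 30526637871, nat_lit 31656701963, nat_lit 33870115888, nat_lit 35004157924, nat_lit 30598109159, nat_lit 31231097409, nat_lit 32596300075, nat_lit 33172014760], nat_lit 1271250, nat_lit 1271250, nat_lit 1271250, nat_lit 1271250, nat_lit 111251, nat_lit 1474250, [nat_lit 230000, nat_lit 780000, nat_lit 1762500], [nat_lit 54, nat_lit 40, nat_lit 40, nat_lit 80, nat_lit 43, nat_lit 272, nat_lit 60, nat_lit 8]⟩, ⟨p129_k1, nat_lit 0, nat_lit 0, nat_lit 232, nat_lit 0, nat_lit 0, [nat_lit 2032000000, nat_lit 4688000000, nat_lit 11872000000], [], [nat_lit 43590197093,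 nat_lit 45023741947, nat_lit 49045291682, nat_lit 50126694532, nat_lit 35371873850, nat_lit 36218331940, nat_lit 38663180393, nat_lit 39289588087], nat_lit 0, nat_lit 0, nat_lit 0, nat_lit 0, nat_lit 0, nat_lit 0, [], [nat_lit 75, nat_lit 40, nat_lit 40, nat_lit 80, nat_lit 65, nat_lit 289, nat_lit 75, nat_lit 7]⟩,
 zbF0, [⟨nat_lit 4, nat_lit 100, nat_lit 32, nat_lit 88, nat_lit 428932051⟩]⟩
noncomputable def p129_l5 : Lf2 := ⟨nat_lit 0, nat_lit 30, [nat_lit 15, nat_lit 5, nat_lit 5, nat_lit 20], false, nat_lit 8, nat_lit 248, nat_lit 0, nat_lit 300, ⟨nat_lit 1000, nat_lit 0, nat_lit 0, nat_lit 0, nat_lit 0, nat_lit 0, nat_lit 0, nat_lit 0, nat_lit 0, nat_lit 0, nat_lit 0, nat_lit 0, nat_lit 0, nat_lit 0, nat_lit 0, nat_lit 0, false, false⟩,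
 nat_lit 10464, nat_lit 0, nat_lit 0, nat_lit 0, nat_lit 5803, nat_lit 7848, nat_lit 461, nat_lit 0, nat_lit 0, nat_lit 674, nat_lit 0, nat_lit 0, nat_lit 0, nat_lit 0, nat_lit 0, nat_lit 0, nat_lit 0, nat_lit 0, [],
 ⟨p129_k0, nat_lit 0, nat_lit 0, nat_lit 432, nat_lit 0, nat_lit 490862, [nat_lit 938000000, nat_lit 3282000000, nat_lit 9842000000], [], [nat_lit 28567412833, nat_lit 31973340801, nat_lit 29683886393, nat_lit 32839465792, nat_lit 26387845820, nat_lit 28873360866, nat_lit 27145083207, nat_lit 29452623768], nat_lit 1271250, nat_lit 1271250, nat_lit 1271250, nat_lit 1271250, nat_lit 43600, nat_lit 1756600, [nat_lit 230000, nat_lit 780000, nat_lit 2090000], [nat_lit 93, nat_lit 40, nat_lit 40, nat_lit 80, nat_lit 63, nat_lit 345, nat_lit 125, nat_lit 9]⟩, ⟨p129_k1, nat_lit 0, nat_lit 0, nat_lit 520, nat_lit 0, nat_lit 593716, [nat_lit 2032000000, nat_lit 4688000000, nat_lit 11872000000], [], [nat_lit 30380036672,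 nat_lit 31266765446, nat_lit 30759551974, nat_lit 32322712470, nat_lit 27471426454, nat_lit 27623002106, nat_lit 27112808966, nat_lit 28268601352], nat_lit 1271250, nat_lit 1271250, nat_lit 1271250, nat_lit 1271250, nat_lit 0, nat_lit 2118750, [nat_lit 490000, nat_lit 1100000, nat_lit 2470000], [nat_lit 75, nat_lit 40, nat_lit 40, nat_lit 80, nat_lit 65, nat_lit 373, nat_lit 150, nat_lit 9]⟩,
 zbF0, [⟨nat_lit 0, nat_lit 79, nat_lit 45, nat_lit 100, nat_lit 61028275⟩, ⟨nat_lit 0, nat_lit 80, nat_lit 60, nat_lit 100, nat_lit 776904554⟩, ⟨nat_lit 16, nat_lit 44, nat_lit 100, nat_lit 87, nat_lit 261355169⟩, ⟨nat_lit 7, nat_lit 100, nat_lit 81, nat_lit 92, nat_lit 151697164⟩]⟩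
noncomputable def p129_l6 : Lf2 := ⟨nat_lit 0, nat_lit 30, [nat_lit 15, nat_lit 5, nat_lit 5, nat_lit 20], false, nat_lit 8, nat_lit 248, nat_lit 0, nat_lit 300, ⟨nat_lit 1000, nat_lit 0, nat_lit 0, nat_lit 0, nat_lit 0, nat_lit 0, nat_lit 0, nat_lit 0, nat_lit 0, nat_lit 0, nat_lit 0, nat_lit 0, nat_lit 0, nat_lit 0, nat_lit 0, nat_lit 0, false, false⟩,
 nat_lit 8810, nat_lit 0, nat_lit 0, nat_lit 0, nat_lit 5491, nat_lit 6607, nat_lit 405, nat_lit 0, nat_lit 0, nat_lit 652, nat_lit 0, nat_lit 0, nat_lit 0, nat_lit 0, nat_lit 0, nat_lit 0, nat_lit 0, nat_lit 0, [],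
 ⟨p129_k0, nat_lit 0, nat_lit 0, nat_lit 426, nat_lit 0, nat_lit 490862, [nat_lit 938000000, nat_lit 3282000000, nat_lit 9842000000], [], [nat_lit 30350950662, nat_lit 33400647070, nat_lit 33632480865, nat_lit 36165457515, nat_lit 28803100345, nat_lit 30438357678, nat_lit 30554522715, nat_lit 32438798768], nat_lit 1271250, nat_lit 1271250, nat_lit 1271250, nat_lit 1271250, nat_lit 43600, nat_lit 1756600, [nat_lit 230000, nat_lit 780000, nat_lit 2090000], [nat_lit 93, nat_lit 40, nat_lit 40, nat_lit 80, nat_lit 63, nat_lit 373, nat_lit 150, nat_lit 10]⟩, ⟨p129_k1, nat_lit 0, nat_lit 0, nat_lit 513, nat_lit 0, nat_lit 593716, [nat_lit 2032000000, nat_lit 4688000000, nat_lit 11872000000], [], [nat_lit 30761826220, nat_lit 31729062980, nat_lit 33915540012, nat_lit 35060931098, nat_lit 28743631886, nat_lit 29272547580, nat_lit 30302613525, nat_lit 31045901569], nat_lit 1271250, nat_lit 1271250, nat_lit 1271250, nat_lit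 1271250, nat_lit 0, nat_lit 2118750, [nat_lit 490000, nat_lit 1100000, nat_lit 2470000], [nat_lit 75, nat_lit 40, nat_lit 40, nat_lit 80, nat_lit 65, nat_lit 401, nat_lit 175, nat_lit 10]⟩,
 zbF0, [⟨nat_lit 0, nat_lit 79, nat_lit 45, nat_lit 100, nat_lit 499249215⟩, ⟨nat_lit 4, nat_lit 100, nat_lit 44, nat_lit 87, nat_lit 240961413⟩, ⟨nat_lit 19, nat_lit 81, nat_lit 100, nat_lit 92, nat_lit 152511496⟩]⟩
noncomputable def p129_l7 : Lf2 := ⟨nat_lit 0, nat_lit 30, [nat_lit 15, nat_lit 5, nat_lit 5, nat_lit 20], false, nat_lit 8, nat_lit 248, nat_lit 0, nat_lit 300, ⟨nat_lit 1000, nat_lit 0, nat_lit 0, nat_lit 0, nat_lit 0, nat_lit 0, nat_lit 0, nat_lit 0, nat_lit 0, nat_lit 0, nat_lit 0, nat_lit 0, nat_lit 0, nat_lit 0, nat_lit 0, nat_lit 0, false, false⟩,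
 nat_lit 8188, nat_lit 0, nat_lit 0, nat_lit 0, nat_lit 5471, nat_lit 6141, nat_lit 301, nat_lit 0, nat_lit 0, nat_lit 566, nat_lit 0, nat_lit 0, nat_lit 0, nat_lit 0, nat_lit 0, nat_lit 0, nat_lit 0, nat_lit 0, [],
 ⟨p129_k0, nat_lit 0, nat_lit 0, nat_lit 423, nat_lit 0, nat_lit 490862, [nat_lit 938000000, nat_lit 3282000000, nat_lit 9842000000], [], [nat_lit 35200584897, nat_lit 37728733659, nat_lit 39519896393, nat_lit 41530905132, nat_lit 32784288001, nat_lit 34031426118, nat_lit 35363446361, nat_lit 36876676754], nat_lit 1271250, nat_lit 1271250, nat_lit 1271250, nat_lit 1271250, nat_lit 43600, nat_lit 1756600, [nat_lit 230000, nat_lit 780000, nat_lit 2090000], [nat_lit 93, nat_lit 40, nat_lit 40, nat_lit 80, nat_lit 63, nat_lit 289, nat_lit 75, nat_lit 7]⟩, ⟨p129_k1, nat_lit 0, nat_lit 0, nat_lit 506, nat_lit 0, nat_lit 593716, [nat_lit 2032000000, nat_lit 4688000000, nat_lit 11872000000], [], [nat_lit 35266272426,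 nat_lit 35949954026, nat_lit 39340998842, nat_lit 40185522040, nat_lit 32828124436, nat_lit 33255397964, nat_lit 34736459536, nat_lit 35283605731], nat_lit 1271250, nat_lit 1271250, nat_lit 1271250, nat_lit 1271250, nat_lit 0, nat_lit 2118750, [nat_lit 490000, nat_lit 1100000, nat_lit 2470000], [nat_lit 75, nat_lit 40, nat_lit 40, nat_lit 80, nat_lit 65, nat_lit 289, nat_lit 75, nat_lit 7]⟩,
 zbF0, [⟨nat_lit 16, nat_lit 44, nat_lit 100, nat_lit 87, nat_lit 242551161⟩, ⟨nat_lit 7, nat_lit 100, nat_lit 81, nat_lit 92, nat_lit 132613651⟩]⟩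
noncomputable def p129_l8 : Lf2 := ⟨nat_lit 0, nat_lit 30, [nat_lit 15, nat_lit 5, nat_lit 5, nat_lit 20], false, nat_lit 8, nat_lit 248, nat_lit 0, nat_lit 300, ⟨nat_lit 1000, nat_lit 0, nat_lit 0, nat_lit 0, nat_lit 0, nat_lit 0, nat_lit 0, nat_lit 0, nat_lit 0, nat_lit 0, nat_lit 0, nat_lit 0, nat_lit 0, nat_lit 0, nat_lit 0, nat_lit 0, false, false⟩,
 nat_lit 0, nat_lit 6797, nat_lit 0, nat_lit 0, nat_lit 5919, nat_lit 9097, nat_lit 420, nat_lit 0, nat_lit 0, nat_lit 512, nat_lit 0, nat_lit 0, nat_lit 0, nat_lit 0, nat_lit 0, nat_lit 0, nat_lit 0, nat_lit 0, [],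
 ⟨p129_k0, nat_lit 0, nat_lit 0, nat_lit 453, nat_lit 0, nat_lit 588069, [nat_lit 938000000, nat_lit 3282000000, nat_lit 9842000000], [], [nat_lit 29259160256, nat_lit 30120863089, nat_lit 33745255830, nat_lit 34405426187, nat_lit 27168529400, nat_lit 27573281185, nat_lit 30094783480, nat_lit 30582213350], nat_lit 1271250, nat_lit 1271250, nat_lit 1271250, nat_lit 1271250, nat_lit 43600, nat_lit 1756600, [nat_lit 230000, nat_lit 780000, nat_lit 2090000], [nat_lit 93, nat_lit 40, nat_lit 40, nat_lit 80, nat_lit 63, nat_lit 373, nat_lit 150, nat_lit 10]⟩, ⟨p129_k1, nat_lit 0, nat_lit 0, nat_lit 217, nat_lit 0, nat_lit 0, [nat_lit 2032000000, nat_lit 4688000000, nat_lit 11872000000], [], [nat_lit 32433123928, nat_lit 34311152944, nat_lit 37791943352, nat_lit 39154795696, nat_lit 28006270901, nat_lit 29137733059, nat_lit 31711200998, nat_lit 33160896364], nat_lit 0, nat_lit 0, nat_lit 0, nat_lit 0, nat_lit 0, nat_lit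 0, [], [nat_lit 75, nat_lit 40, nat_lit 40, nat_lit 80, nat_lit 65, nat_lit 401, nat_lit 175, nat_lit 10]⟩,
 zbF0, [⟨nat_lit 0, nat_lit 73, nat_lit 54, nat_lit 100, nat_lit 303963891⟩, ⟨nat_lit 16, nat_lit 57, nat_lit 100, nat_lit 87, nat_lit 181991440⟩, ⟨nat_lit 7, nat_lit 100, nat_lit 81, nat_lit 92, nat_lit 108320009⟩]⟩
noncomputable def p129_l9 : Lf2 := ⟨nat_lit 0, nat_lit 30, [nat_lit 15, nat_lit 5, nat_lit 5, nat_lit 20], false, nat_lit 12, nat_lit 232, nat_lit 0, nat_lit 300, ⟨nat_lit 1000, nat_lit 0, nat_lit 0, nat_lit 0, nat_lit 0, nat_lit 0, nat_lit 0, nat_lit 0, nat_lit 0, nat_lit 0, nat_lit 0, nat_lit 0, nat_lit 0, nat_lit 0, nat_lit 0, nat_lit 0, false, false⟩,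
 nat_lit 0, nat_lit 4919, nat_lit 0, nat_lit 0, nat_lit 4438, nat_lit 11335, nat_lit 546, nat_lit 0, nat_lit 0, nat_lit 156, nat_lit 0, nat_lit 0, nat_lit 0, nat_lit 0, nat_lit 0, nat_lit 0, nat_lit 0, nat_lit 0, [],
 ⟨p129_k2, nat_lit 0, nat_lit 0, nat_lit 406, nat_lit 0, nat_lit 629750, [nat_lit 938000000, nat_lit 3282000000, nat_lit 7968000000], [], [nat_lit 25485005933, nat_lit 26531043205, nat_lit 30690473734, nat_lit 31506567409, nat_lit 25207073057, nat_lit 25585004200, nat_lit 28627096720, nat_lit 29257156747], nat_lit 1271250, nat_lit 1271250, nat_lit 1271250, nat_lit 1271250, nat_lit 65850, nat_lit 1644350, [nat_lit 230000, nat_lit 780000, nat_lit 1762500], [nat_lit 54, nat_lit 40, nat_lit 40, nat_lit 80, nat_lit 43, nat_lit 373, nat_lit 150, nat_lit 11]⟩, ⟨p129_k1, nat_lit 0, nat_lit 0, nat_lit 217, nat_lit 0, nat_lit 0, [nat_lit 2032000000, nat_lit 4688000000, nat_lit 11872000000], [], [nat_lit 38970271117,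 nat_lit 41072743813, nat_lit 44343752860, nat_lit 45899997690, nat_lit 31602751811, nat_lit 32835585283, nat_lit 34164386125, nat_lit 35063563353], nat_lit 0, nat_lit 0, nat_lit 0, nat_lit 0, nat_lit 0, nat_lit 0, [], [nat_lit 75, nat_lit 40, nat_lit 40, nat_lit 80, nat_lit 65, nat_lit 401, nat_lit 175, nat_lit 10]⟩,
 zbF0, [⟨nat_lit 0, nat_lit 75, nat_lit 46, nat_lit 100, nat_lit 350927840⟩, ⟨nat_lit 4, nat_lit 100, nat_lit 48, nat_lit 87, nat_lit 277349267⟩]⟩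
noncomputable def p129_l10 : Lf2 := ⟨nat_lit 0, nat_lit 30, [nat_lit 15, nat_lit 5, nat_lit 5, nat_lit 20], false, nat_lit 20, nat_lit 208, nat_lit 0, nat_lit 300, ⟨nat_lit 1000, nat_lit 0, nat_lit 0, nat_lit 0, nat_lit 0, nat_lit 0, nat_lit 0, nat_lit 0, nat_lit 0, nat_lit 0, nat_lit 0, nat_lit 0, nat_lit 0, nat_lit 0, nat_lit 0, nat_lit 0, false, false⟩,
 nat_lit 0, nat_lit 4245, nat_lit 0, nat_lit 0, nat_lit 3966, nat_lit 11335, nat_lit 455, nat_lit 0, nat_lit 0, nat_lit 156, nat_lit 0, nat_lit 0, nat_lit 0, nat_lit 0, nat_lit 0, nat_lit 0, nat_lit 0, nat_lit 0, [],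
 ⟨p129_k3, nat_lit 0, nat_lit 0, nat_lit 455, nat_lit 0, nat_lit 738285, [nat_lit 938000000, nat_lit 3282000000, nat_lit 7968000000], [], [nat_lit 26518145574, nat_lit 27911247405, nat_lit 30045734604, nat_lit 31575815336, nat_lit 25819625361, nat_lit 26938283472, nat_lit 28375738550, nat_lit 29614940308], nat_lit 1271250, nat_lit 1271250, nat_lit 1271250, nat_lit 1271250, nat_lit 111251, nat_lit 1474250, [nat_lit 230000, nat_lit 780000, nat_lit 1762500], [nat_lit 54, nat_lit 40, nat_lit 40, nat_lit 80, nat_lit 43, nat_lit 373, nat_lit 150, nat_lit 11]⟩, ⟨p129_k1, nat_lit 0, nat_lit 0, nat_lit 217, nat_lit 0, nat_lit 0, [nat_lit 2032000000, nat_lit 4688000000, nat_lit 11872000000], [], [nat_lit 39608214337, nat_lit 41610983052, nat_lit 44343752860, nat_lit 45899997690, nat_lit 31797907756, nat_lit 32970263454, nat_lit 34164386125, nat_lit 35063563353], nat_lit 0, nat_lit 0, nat_lit 0, nat_lit 0, nat_lit 0, nat_lit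 0, [], [nat_lit 75, nat_lit 40, nat_lit 40, nat_lit 80, nat_lit 65, nat_lit 401, nat_lit 175, nat_lit 10]⟩,
 zbF0, [⟨nat_lit 0, nat_lit 82, nat_lit 34, nat_lit 100, nat_lit 153573739⟩, ⟨nat_lit 0, nat_lit 82, nat_lit 44, nat_lit 100, nat_lit 224991509⟩, ⟨nat_lit 4, nat_lit 100, nat_lit 32, nat_lit 88, nat_lit 420864438⟩]⟩
noncomputable def p129_l11 : Lf2 := ⟨nat_lit 0, nat_lit 30, [nat_lit 15, nat_lit 5, nat_lit 5, nat_lit 20], false, nat_lit 8, nat_lit 248, nat_lit 0, nat_lit 300, ⟨nat_lit 1000, nat_lit 0, nat_lit 0, nat_lit 0, nat_lit 0, nat_lit 0, nat_lit 0, nat_lit 0, nat_lit 0, nat_lit 0, nat_lit 0, nat_lit 0, nat_lit 0, nat_lit 0, nat_lit 0, nat_lit 0, false, false⟩,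
 nat_lit 0, nat_lit 6385, nat_lit 0, nat_lit 0, nat_lit 5561, nat_lit 5977, nat_lit 318, nat_lit 0, nat_lit 0, nat_lit 585, nat_lit 0, nat_lit 0, nat_lit 0, nat_lit 0, nat_lit 0, nat_lit 0, nat_lit 0, nat_lit 0, [],
 ⟨p129_k0, nat_lit 0, nat_lit 0, nat_lit 467, nat_lit 0, nat_lit 661037, [nat_lit 938000000, nat_lit 3282000000, nat_lit 9842000000], [], [nat_lit 35013410503, nat_lit 36288347632, nat_lit 39366107355, nat_lit 40382836168, nat_lit 32163637283, nat_lit 32790497678, nat_lit 35075936043, nat_lit 35837027354], nat_lit 1271250, nat_lit 1271250, nat_lit 1271250, nat_lit 1271250, nat_lit 43600, nat_lit 1756600, [nat_lit 230000, nat_lit 780000, nat_lit 2090000], [nat_lit 93, nat_lit 40, nat_lit 40, nat_lit 80, nat_lit 63, nat_lit 289, nat_lit 75, nat_lit 7]⟩, ⟨p129_k1, nat_lit 0, nat_lit 0, nat_lit 234, nat_lit 0, nat_lit 0, [nat_lit 2032000000, nat_lit 4688000000, nat_lit 11872000000], [], [nat_lit 34299852307,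 nat_lit 35390497653, nat_lit 38892618899, nat_lit 39728568505, nat_lit 31663360663, nat_lit 32261273573, nat_lit 34549342417, nat_lit 35088298803], nat_lit 0, nat_lit 0, nat_lit 0, nat_lit 0, nat_lit 0, nat_lit 0, [], [nat_lit 75, nat_lit 40, nat_lit 40, nat_lit 80, nat_lit 65, nat_lit 289, nat_lit 75, nat_lit 7]⟩,
 zbF0, [⟨nat_lit 4, nat_lit 100, nat_lit 53, nat_lit 87, nat_lit 165767440⟩, ⟨nat_lit 7, nat_lit 100, nat_lit 81, nat_lit 92, nat_lit 138595465⟩]⟩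
noncomputable def p129_l12 : Lf2 := ⟨nat_lit 0, nat_lit 30, [nat_lit 15, nat_lit 5, nat_lit 5, nat_lit 20], false, nat_lit 20, nat_lit 208, nat_lit 0, nat_lit 300, ⟨nat_lit 1000, nat_lit 0, nat_lit 0, nat_lit 0, nat_lit 0, nat_lit 0, nat_lit 0, nat_lit 0, nat_lit 0, nat_lit 0, nat_lit 0, nat_lit 0, nat_lit 0, nat_lit 0, nat_lit 0, nat_lit 0, false, false⟩,
 nat_lit 0, nat_lit 3988, nat_lit 0, nat_lit 0, nat_lit 3726, nat_lit 9923, nat_lit 383, nat_lit 0, nat_lit 0, nat_lit 127, nat_lit 0, nat_lit 0, nat_lit 0, nat_lit 0, nat_lit 0, nat_lit 0, nat_lit 0, nat_lit 0, [],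
 ⟨p129_k3, nat_lit 0, nat_lit 0, nat_lit 454, nat_lit 0, nat_lit 738285, [nat_lit 938000000, nat_lit 3282000000, nat_lit 7968000000], [], [nat_lit 30526637871, nat_lit 31656701963, nat_lit 33870115888, nat_lit 35004157924, nat_lit 30598109159, nat_lit 31231097409, nat_lit 32596300075, nat_lit 33172014760], nat_lit 1271250, nat_lit 1271250, nat_lit 1271250, nat_lit 1271250, nat_lit 111251, nat_lit 1474250, [nat_lit 230000, nat_lit 780000, nat_lit 1762500], [nat_lit 54, nat_lit 40, nat_lit 40, nat_lit 80, nat_lit 43, nat_lit 272, nat_lit 60, nat_lit 8]⟩, ⟨p129_k1, nat_lit 0, nat_lit 0, nat_lit 232, nat_lit 0, nat_lit 0, [nat_lit 2032000000, nat_lit 4688000000, nat_lit 11872000000], [], [nat_lit 43590197093, nat_lit 45023741947, nat_lit 49045291682, nat_lit 50126694532, nat_lit 35371873850, nat_lit 36218331940, nat_lit 38663180393, nat_lit 39289588087], nat_lit 0, nat_lit 0, nat_lit 0, nat_lit 0, nat_lit 0, nat_lit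 0, [], [nat_lit 75, nat_lit 40, nat_lit 40, nat_lit 80, nat_lit 65, nat_lit 289, nat_lit 75, nat_lit 7]⟩,
 zbF0, [⟨nat_lit 4, nat_lit 100, nat_lit 32, nat_lit 88, nat_lit 428932051⟩]⟩
noncomputable def p129_l13 : Lf2 := ⟨nat_lit 0, nat_lit 30, [nat_lit 15, nat_lit 5, nat_lit 5, nat_lit 20], false, nat_lit 8, nat_lit 248, nat_lit 0, nat_lit 300, ⟨nat_lit 629, nat_lit 371, nat_lit 0, nat_lit 8, nat_lit 293, nat_lit 371, nat_lit 94, nat_lit 0, nat_lit 0, nat_lit 0, nat_lit 0, nat_lit 0, nat_lit 0, nat_lit 0, nat_lit 0, nat_lit 5000000, true, false⟩,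
 nat_lit 5558, nat_lit 0, nat_lit 0, nat_lit 0, nat_lit 4840, nat_lit 4168, nat_lit 255, nat_lit 0, nat_lit 0, nat_lit 408, nat_lit 0, nat_lit 0, nat_lit 0, nat_lit 0, nat_lit 0, nat_lit 148400, nat_lit 0, nat_lit 0, [(nat_lit 26, [(nat_lit 1, nat_lit 371)]), (nat_lit 29, [(nat_lit 1, nat_lit 371)])],
 ⟨p129_k0, nat_lit 0, nat_lit 0, nat_lit 432, nat_lit 0, nat_lit 490862, [nat_lit 905797200, nat_lit 2444133601, nat_lit 6469461600], [], [nat_lit 27774086723, nat_lit 30840612275, nat_lit 32025588706, nat_lit 34404622081, nat_lit 26732992854, nat_lit 28994771507, nat_lit 29818440707, nat_lit 31603175475], nat_lit 1271250, nat_lit 1271250, nat_lit 1271250, nat_lit 1271250, nat_lit 43600, nat_lit 1756600, [nat_lit 230000, nat_lit 780000, nat_lit 2090000], [nat_lit 93, nat_lit 40, nat_lit 40, nat_lit 80, nat_lit 63, nat_lit 373, nat_lit 150, nat_lit 10]⟩, ⟨p129_k1, nat_lit 0, nat_lit 0, nat_lit 520, nat_lit 0, nat_lit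 593716, [nat_lit 1278128000, nat_lit 2948752000, nat_lit 7467488000], [], [nat_lit 18917595204, nat_lit 19499229396, nat_lit 21370818408, nat_lit 22092329296, nat_lit 18579871612, nat_lit 18255000854, nat_lit 19081347954, nat_lit 19538232164], nat_lit 1271250, nat_lit 1271250, nat_lit 1271250, nat_lit 1271250, nat_lit 0, nat_lit 2118750, [nat_lit 490000, nat_lit 1100000, nat_lit 2470000], [nat_lit 75, nat_lit 40, nat_lit 40, nat_lit 80, nat_lit 65, nat_lit 401, nat_lit 175, nat_lit 10]⟩,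
 ⟨nat_lit 0, nat_lit 3163, ⟨.ofNat (nat_lit 625100), .ofNat (nat_lit 815384), .ofNat (nat_lit 645949), .ofNat (nat_lit 836507), .ofNat (nat_lit 642170), .ofNat (nat_lit 799594), .ofNat (nat_lit 665865), .ofNat (nat_lit 823562)⟩, ⟨.ofNat (nat_lit 20000), .ofNat (nat_lit 440207), .ofNat (nat_lit 20000), .ofNat (nat_lit 484518), .ofNat (nat_lit 20000), .ofNat (nat_lit 409993), .ofNat (nat_lit 20000), .ofNat (nat_lit 459993)⟩⟩, [⟨nat_lit 0, nat_lit 79, nat_lit 45, nat_lit 100, nat_lit 250828046⟩, ⟨nat_lit 16, nat_lit 44, nat_lit 100, nat_lit 87, nat_lit 182454925⟩, ⟨nat_lit 19, nat_lit 87, nat_lit 95, nat_lit 100, nat_lit 81561921⟩]⟩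
noncomputable def p129_l14 : Lf2 := ⟨nat_lit 0, nat_lit 30, [nat_lit 15, nat_lit 5, nat_lit 5, nat_lit 20], false, nat_lit 8, nat_lit 248, nat_lit 0, nat_lit 300, ⟨nat_lit 1000, nat_lit 0, nat_lit 0, nat_lit 0, nat_lit 0, nat_lit 0, nat_lit 0, nat_lit 0, nat_lit 0, nat_lit 0, nat_lit 0, nat_lit 0, nat_lit 0, nat_lit 0, nat_lit 0, nat_lit 0, false, false⟩,
 nat_lit 8188, nat_lit 0, nat_lit 0, nat_lit 0, nat_lit 5471, nat_lit 6141, nat_lit 301, nat_lit 0, nat_lit 0, nat_lit 566, nat_lit 0, nat_lit 0, nat_lit 0, nat_lit 0, nat_lit 0, nat_lit 0, nat_lit 0, nat_lit 0, [],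
 ⟨p129_k0, nat_lit 0, nat_lit 0, nat_lit 423, nat_lit 0, nat_lit 490862, [nat_lit 938000000, nat_lit 3282000000, nat_lit 9842000000], [], [nat_lit 35200584897, nat_lit 37728733659, nat_lit 39519896393, nat_lit 41530905132, nat_lit 32784288001, nat_lit 34031426118, nat_lit 35363446361, nat_lit 36876676754], nat_lit 1271250, nat_lit 1271250, nat_lit 1271250, nat_lit 1271250, nat_lit 43600, nat_lit 1756600, [nat_lit 230000, nat_lit 780000, nat_lit 2090000], [nat_lit 93, nat_lit 40, nat_lit 40, nat_lit 80, nat_lit 63, nat_lit 289, nat_lit 75, nat_lit 7]⟩, ⟨p129_k1, nat_lit 0, nat_lit 0, nat_lit 506, nat_lit 0, nat_lit 593716, [nat_lit 2032000000, nat_lit 4688000000, nat_lit 11872000000], [], [nat_lit 35266272426, nat_lit 35949954026, nat_lit 39340998842, nat_lit 40185522040, nat_lit 32828124436, nat_lit 33255397964, nat_lit 34736459536, nat_lit 35283605731], nat_lit 1271250, nat_lit 1271250, nat_lit 1271250, nat_lit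 1271250, nat_lit 0, nat_lit 2118750, [nat_lit 490000, nat_lit 1100000, nat_lit 2470000], [nat_lit 75, nat_lit 40, nat_lit 40, nat_lit 80, nat_lit 65, nat_lit 289, nat_lit 75, nat_lit 7]⟩,
 zbF0, [⟨nat_lit 4, nat_lit 100, nat_lit 44, nat_lit 87, nat_lit 242551161⟩, ⟨nat_lit 7, nat_lit 100, nat_lit 81, nat_lit 92, nat_lit 132613651⟩]⟩
noncomputable def b_V_900_800_20_11 : St := ⟨true, nat_lit 1, nat_lit 2, nat_lit 0, nat_lit 120, nat_lit 360, nat_lit 400, nat_lit 320, nat_lit 340, nat_lit 200, nat_lit 400, nat_lit 80, nat_lit 120, nat_lit 8, nat_lit 248, nat_lit 0, nat_lit 300, nat_lit 80, nat_lit 120, nat_lit 0, nat_lit 0, nat_lit 0, nat_lit 0⟩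
theorem d_V_900_800_20_11 (h : EB TB.env) : Dead b_V_900_800_20_11 := chkB_sound0 h (T :=
(.gv
(.st (nat_lit 1)
(.spl (nat_lit 2) (nat_lit 320)
(.spl (nat_lit 0) (nat_lit 380)
(.spl (nat_lit 0) (nat_lit 370)
(.leaf p129_l0)
(.trZ (nat_lit 0) (nat_lit 80) (nat_lit 53) (nat_lit 100) (nat_lit 216) (.trZ (nat_lit 3) (nat_lit 100) (nat_lit 66) (nat_lit 45) (nat_lit 12) (.trX (nat_lit 16) (nat_lit 53) (nat_lit 100) (nat_lit 93) (nat_lit 232) (.leaf p129_l1)))))
(.trZ (nat_lit 0) (nat_lit 82) (nat_lit 44) (nat_lit 100) (nat_lit 236) (.trZ (nat_lit 3) (nat_lit 100) (nat_lit 54) (nat_lit 57) (nat_lit 20) (.trX (nat_lit 16) (nat_lit 44) (nat_lit 100) (nat_lit 92) (nat_lit 208) (.leaf p129_l2)))))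
(.spl (nat_lit 0) (nat_lit 380)
(.leaf p129_l3)
(.trX (nat_lit 13) (nat_lit 61) (nat_lit 47) (nat_lit 100) (nat_lit 392) (.trZ (nat_lit 3) (nat_lit 100) (nat_lit 54) (nat_lit 57) (nat_lit 20) (.trX (nat_lit 16) (nat_lit 44) (nat_lit 100) (nat_lit 92) (nat_lit 208) (.leaf p129_l4))))))
(.spl (nat_lit 2) (nat_lit 320)
(.spl (nat_lit 2) (nat_lit 240)
(.leaf p129_l5)
(.leaf p129_l6))
(.leaf p129_l7)))
(.st (nat_lit 1)
(.spl (nat_lit 2) (nat_lit 320)
(.spl (nat_lit 0) (nat_lit 380)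
(.spl (nat_lit 0) (nat_lit 370)
(.leaf p129_l8)
(.trZ (nat_lit 0) (nat_lit 80) (nat_lit 53) (nat_lit 100) (nat_lit 216) (.trZ (nat_lit 3) (nat_lit 100) (nat_lit 66) (nat_lit 45) (nat_lit 12) (.trX (nat_lit 16) (nat_lit 53) (nat_lit 100) (nat_lit 93) (nat_lit 232) (.leaf p129_l9)))))
(.trZ (nat_lit 0) (nat_lit 82) (nat_lit 44) (nat_lit 100) (nat_lit 236) (.trZ (nat_lit 3) (nat_lit 100) (nat_lit 54) (nat_lit 57) (nat_lit 20) (.trX (nat_lit 16) (nat_lit 44) (nat_lit 100) (nat_lit 92) (nat_lit 208) (.leaf p129_l10)))))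
(.spl (nat_lit 0) (nat_lit 380)
(.leaf p129_l11)
(.trX (nat_lit 13) (nat_lit 61) (nat_lit 47) (nat_lit 100) (nat_lit 392) (.trZ (nat_lit 3) (nat_lit 100) (nat_lit 54) (nat_lit 57) (nat_lit 20) (.trX (nat_lit 16) (nat_lit 44) (nat_lit 100) (nat_lit 92) (nat_lit 208) (.leaf p129_l12))))))
(.spl (nat_lit 2) (nat_lit 320)
(.leaf p129_l13)
(.leaf p129_l14))))) (by decide +kernel)
noncomputable def p129_l15 : Lf2 := ⟨nat_lit 0, nat_lit 30, [nat_lit 15, nat_lit 5, nat_lit 5, nat_lit 20], false, nat_lit 8, nat_lit 248, nat_lit 0, nat_lit 300, ⟨nat_lit 1000, nat_lit 0, nat_lit 0, nat_lit 0, nat_lit 0, nat_lit 0, nat_lit 0, nat_lit 0, nat_lit 0, nat_lit 0, nat_lit 0, nat_lit 0, nat_lit 0, nat_lit 0, nat_lit 0, nat_lit 0, false, false⟩,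
 nat_lit 0, nat_lit 0, nat_lit 0, nat_lit 7907, nat_lit 5349, nat_lit 9780, nat_lit 515, nat_lit 0, nat_lit 0, nat_lit 0, nat_lit 0, nat_lit 0, nat_lit 0, nat_lit 0, nat_lit 0, nat_lit 0, nat_lit 0, nat_lit 0, [],
 ⟨p129_k0, nat_lit 0, nat_lit 0, nat_lit 227, nat_lit 0, nat_lit 0, [nat_lit 938000000, nat_lit 3282000000, nat_lit 9842000000], [], [nat_lit 28468296534, nat_lit 30727578387, nat_lit 38325566084, nat_lit 41139660941, nat_lit 26292845688, nat_lit 28219248723, nat_lit 33804770026, nat_lit 35936189251], nat_lit 0, nat_lit 0, nat_lit 0, nat_lit 0, nat_lit 0, nat_lit 0, [], [nat_lit 93, nat_lit 40, nat_lit 40, nat_lit 80, nat_lit 63, nat_lit 401, nat_lit 175, nat_lit 11]⟩, ⟨p129_k1, nat_lit 0, nat_lit 0, nat_lit 234, nat_lit 0, nat_lit 0, [nat_lit 2032000000, nat_lit 4688000000, nat_lit 11872000000], [], [nat_lit 39648362720, nat_lit 41619230560, nat_lit 51214807360, nat_lit 52249570200, nat_lit 34432172740,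 nat_lit 35609337160, nat_lit 40813100880, nat_lit 41412593420], nat_lit 0, nat_lit 0, nat_lit 0, nat_lit 0, nat_lit 0, nat_lit 0, [], [nat_lit 75, nat_lit 40, nat_lit 40, nat_lit 80, nat_lit 65, nat_lit 401, nat_lit 175, nat_lit 10]⟩,
 zbF0, [⟨nat_lit 0, nat_lit 79, nat_lit 45, nat_lit 100, nat_lit 134688105⟩, ⟨nat_lit 4, nat_lit 100, nat_lit 44, nat_lit 87, nat_lit 160623410⟩]⟩
noncomputable def p129_l16 : Lf2 := ⟨nat_lit 0, nat_lit 25, [nat_lit 44, nat_lit 5, nat_lit 5, nat_lit 20], false, nat_lit 8, nat_lit 224, nat_lit 0, nat_lit 280, ⟨nat_lit 1000, nat_lit 0, nat_lit 0, nat_lit 0, nat_lit 0, nat_lit 0, nat_lit 0, nat_lit 0, nat_lit 0, nat_lit 0, nat_lit 0, nat_lit 0, nat_lit 0, nat_lit 0, nat_lit 0, nat_lit 0, false, false⟩,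
 nat_lit 0, nat_lit 0, nat_lit 7883, nat_lit 0, nat_lit 6606, nat_lit 5912, nat_lit 394, nat_lit 0, nat_lit 0, nat_lit 645, nat_lit 0, nat_lit 0, nat_lit 0, nat_lit 0, nat_lit 0, nat_lit 0, nat_lit 0, nat_lit 0, [],
 ⟨p129_k4, nat_lit 0, nat_lit 0, nat_lit 193, nat_lit 0, nat_lit 0, [nat_lit 938000000, nat_lit 3282000000, nat_lit 7968000000], [], [nat_lit 27957493655, nat_lit 29218815650, nat_lit 42005127379, nat_lit 42796535254, nat_lit 24749260110, nat_lit 25309053316, nat_lit 35090593751, nat_lit 35710684990], nat_lit 0, nat_lit 0, nat_lit 0, nat_lit 0, nat_lit 0, nat_lit 0, [], [nat_lit 54, nat_lit 40, nat_lit 40, nat_lit 80, nat_lit 43, nat_lit 401, nat_lit 175, nat_lit 12]⟩, ⟨p129_k5, nat_lit 0, nat_lit 0, nat_lit 336, nat_lit 0, nat_lit 303149, [nat_lit 2032000000, nat_lit 4688000000, nat_lit 9842000000], [], [nat_lit 30066566066, nat_lit 30976048002, nat_lit 37814261472, nat_lit 39160467888, nat_lit 30360953465,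 nat_lit 28944362898, nat_lit 33621272096, nat_lit 34431659872], nat_lit 1271250, nat_lit 1271250, nat_lit 1271250, nat_lit 1271250, nat_lit 0, nat_lit 1977500, [nat_lit 490000, nat_lit 1100000, nat_lit 2127500], [nat_lit 27, nat_lit 40, nat_lit 40, nat_lit 80, nat_lit 13, nat_lit 401, nat_lit 175, nat_lit 11]⟩,
 zbF0, [⟨nat_lit 19, nat_lit 79, nat_lit 100, nat_lit 87, nat_lit 132833479⟩]⟩
noncomputable def p129_l17 : Lf2 := ⟨nat_lit 0, nat_lit 25, [nat_lit 44, nat_lit 5, nat_lit 5, nat_lit 20], false, nat_lit 12, nat_lit 208, nat_lit 0, nat_lit 280, ⟨nat_lit 1000, nat_lit 0, nat_lit 0, nat_lit 0, nat_lit 0, nat_lit 0, nat_lit 0, nat_lit 0, nat_lit 0, nat_lit 0, nat_lit 0, nat_lit 0, nat_lit 0, nat_lit 0, nat_lit 0, nat_lit 0, false, false⟩,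
 nat_lit 0, nat_lit 0, nat_lit 7834, nat_lit 0, nat_lit 4109, nat_lit 5875, nat_lit 560, nat_lit 0, nat_lit 0, nat_lit 638, nat_lit 0, nat_lit 0, nat_lit 0, nat_lit 0, nat_lit 0, nat_lit 0, nat_lit 0, nat_lit 0, [],
 ⟨p129_k6, nat_lit 0, nat_lit 0, nat_lit 190, nat_lit 0, nat_lit 0, [nat_lit 938000000, nat_lit 3282000000, nat_lit 7968000000], [], [nat_lit 25078480631, nat_lit 25858672241, nat_lit 34870337425, nat_lit 35494346454, nat_lit 24201935634, nat_lit 24649914052, nat_lit 31926646658, nat_lit 32441051570], nat_lit 0, nat_lit 0, nat_lit 0, nat_lit 0, nat_lit 0, nat_lit 0, [], [nat_lit 54, nat_lit 40, nat_lit 40, nat_lit 80, nat_lit 43, nat_lit 401, nat_lit 175, nat_lit 12]⟩, ⟨p129_k5, nat_lit 0, nat_lit 0, nat_lit 362, nat_lit 0, nat_lit 398476, [nat_lit 2032000000, nat_lit 4688000000, nat_lit 9842000000], [], [nat_lit 30550237801, nat_lit 31429915700, nat_lit 37323643401, nat_lit 38688168776, nat_lit 28726969351,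 nat_lit 29315985450, nat_lit 33545599950, nat_lit 34140094676], nat_lit 1271250, nat_lit 1271250, nat_lit 1271250, nat_lit 1271250, nat_lit 0, nat_lit 1977500, [nat_lit 490000, nat_lit 1100000, nat_lit 2127500], [nat_lit 27, nat_lit 40, nat_lit 40, nat_lit 80, nat_lit 13, nat_lit 401, nat_lit 175, nat_lit 11]⟩,
 zbF0, [⟨nat_lit 0, nat_lit 75, nat_lit 46, nat_lit 100, nat_lit 117203322⟩, ⟨nat_lit 16, nat_lit 49, nat_lit 100, nat_lit 84, nat_lit 202142564⟩, ⟨nat_lit 7, nat_lit 100, nat_lit 79, nat_lit 87, nat_lit 137431338⟩]⟩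
noncomputable def p129_l18 : Lf2 := ⟨nat_lit 1, nat_lit 25, [nat_lit 44, nat_lit 5, nat_lit 5, nat_lit 20], false, nat_lit 8, nat_lit 224, nat_lit 0, nat_lit 280, zbN0,
 nat_lit 0, nat_lit 0, nat_lit 0, nat_lit 0, nat_lit 0, nat_lit 0, nat_lit 0, nat_lit 0, nat_lit 0, nat_lit 0, nat_lit 0, nat_lit 0, nat_lit 0, nat_lit 0, nat_lit 0, nat_lit 0, nat_lit 0, nat_lit 0, [],
 C1.Rw.none, C1.Rw.none,
 zbF0, []⟩
noncomputable def p129_l19 : Lf2 := ⟨nat_lit 0, nat_lit 30, [nat_lit 15, nat_lit 5, nat_lit 5, nat_lit 20], false, nat_lit 16, nat_lit 248, nat_lit 0, nat_lit 160, ⟨nat_lit 1000, nat_lit 0, nat_lit 0, nat_lit 0, nat_lit 0, nat_lit 0, nat_lit 0, nat_lit 0, nat_lit 0, nat_lit 0, nat_lit 0, nat_lit 0, nat_lit 0, nat_lit 0, nat_lit 0, nat_lit 0, false, false⟩,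
 nat_lit 0, nat_lit 0, nat_lit 7499, nat_lit 0, nat_lit 5246, nat_lit 5623, nat_lit 361, nat_lit 0, nat_lit 0, nat_lit 741, nat_lit 0, nat_lit 0, nat_lit 0, nat_lit 0, nat_lit 0, nat_lit 0, nat_lit 0, nat_lit 0, [],
 ⟨p129_k0, nat_lit 0, nat_lit 0, nat_lit 204, nat_lit 0, nat_lit 0, [nat_lit 938000000, nat_lit 3282000000, nat_lit 9842000000], [], [nat_lit 29435410504, nat_lit 31031460909, nat_lit 37978158616, nat_lit 38958355261, nat_lit 28360422274, nat_lit 29424019634, nat_lit 34521019031, nat_lit 35266443943], nat_lit 0, nat_lit 0, nat_lit 0, nat_lit 0, nat_lit 0, nat_lit 0, [], [nat_lit 93, nat_lit 40, nat_lit 40, nat_lit 80, nat_lit 63, nat_lit 401, nat_lit 175, nat_lit 11]⟩, ⟨p129_k1, nat_lit 0, nat_lit 0, nat_lit 399, nat_lit 0, nat_lit 396960, [nat_lit 2032000000, nat_lit 4688000000, nat_lit 11872000000], [], [nat_lit 30469662454, nat_lit 31200186846, nat_lit 37005709988, nat_lit 38317736952, nat_lit 27042213790,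 nat_lit 27663510832, nat_lit 32903491664, nat_lit 33634364622], nat_lit 1271250, nat_lit 1271250, nat_lit 1271250, nat_lit 1271250, nat_lit 0, nat_lit 1100001, [nat_lit 490000, nat_lit 1100000, nat_lit 2470000], [nat_lit 75, nat_lit 40, nat_lit 40, nat_lit 80, nat_lit 65, nat_lit 373, nat_lit 150, nat_lit 9]⟩,
 zbF0, [⟨nat_lit 0, nat_lit 75, nat_lit 46, nat_lit 100, nat_lit 283388976⟩, ⟨nat_lit 4, nat_lit 100, nat_lit 53, nat_lit 90, nat_lit 193423857⟩]⟩
noncomputable def p129_l20 : Lf2 := ⟨nat_lit 0, nat_lit 30, [nat_lit 15, nat_lit 5, nat_lit 5, nat_lit 20], false, nat_lit 16, nat_lit 160, nat_lit 160, nat_lit 300, ⟨nat_lit 1000, nat_lit 0, nat_lit 0, nat_lit 0, nat_lit 0, nat_lit 0, nat_lit 0, nat_lit 0, nat_lit 0, nat_lit 0, nat_lit 0, nat_lit 0, nat_lit 0, nat_lit 0, nat_lit 0, nat_lit 0, false, false⟩,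
 nat_lit 0, nat_lit 0, nat_lit 6965, nat_lit 0, nat_lit 5358, nat_lit 5223, nat_lit 356, nat_lit 0, nat_lit 0, nat_lit 731, nat_lit 0, nat_lit 0, nat_lit 0, nat_lit 0, nat_lit 0, nat_lit 0, nat_lit 0, nat_lit 0, [],
 ⟨p129_k0, nat_lit 0, nat_lit 0, nat_lit 204, nat_lit 0, nat_lit 0, [nat_lit 938000000, nat_lit 3282000000, nat_lit 9842000000], [], [nat_lit 29566957653, nat_lit 31182613524, nat_lit 38175256229, nat_lit 39281367737, nat_lit 26704098016, nat_lit 27954530028, nat_lit 34083564680, nat_lit 34953905752], nat_lit 0, nat_lit 0, nat_lit 0, nat_lit 0, nat_lit 0, nat_lit 0, [], [nat_lit 93, nat_lit 40, nat_lit 40, nat_lit 80, nat_lit 63, nat_lit 373, nat_lit 150, nat_lit 10]⟩, ⟨p129_k1, nat_lit 0, nat_lit 0, nat_lit 313, nat_lit 0, nat_lit 396960, [nat_lit 2032000000, nat_lit 4688000000, nat_lit 11872000000], [], [nat_lit 26716765754, nat_lit 27429168546, nat_lit 32238980341, nat_lit 32952207784, nat_lit 28709036465,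 nat_lit 29456718605, nat_lit 34339689148, nat_lit 34973691408], nat_lit 1271250, nat_lit 1271250, nat_lit 1271250, nat_lit 1271250, nat_lit 1100001, nat_lit 2298750, [nat_lit 490000, nat_lit 1100000, nat_lit 2470000], [nat_lit 75, nat_lit 40, nat_lit 40, nat_lit 80, nat_lit 65, nat_lit 401, nat_lit 175, nat_lit 9]⟩,
 zbF0, [⟨nat_lit 0, nat_lit 75, nat_lit 46, nat_lit 100, nat_lit 233764066⟩, ⟨nat_lit 7, nat_lit 100, nat_lit 82, nat_lit 97, nat_lit 366878947⟩]⟩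
noncomputable def p129_l21 : Lf2 := ⟨nat_lit 0, nat_lit 30, [nat_lit 15, nat_lit 5, nat_lit 5, nat_lit 20], false, nat_lit 160, nat_lit 248, nat_lit 160, nat_lit 300, ⟨nat_lit 1000, nat_lit 0, nat_lit 0, nat_lit 0, nat_lit 0, nat_lit 0, nat_lit 0, nat_lit 0, nat_lit 0, nat_lit 0, nat_lit 0, nat_lit 0, nat_lit 0, nat_lit 0, nat_lit 0, nat_lit 0, false, false⟩,
 nat_lit 0, nat_lit 0, nat_lit 8432, nat_lit 0, nat_lit 10103, nat_lit 6323, nat_lit 0, nat_lit 0, nat_lit 0, nat_lit 653, nat_lit 0, nat_lit 0, nat_lit 0, nat_lit 0, nat_lit 0, nat_lit 0, nat_lit 0, nat_lit 0, [],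
 ⟨p129_k0, nat_lit 0, nat_lit 0, nat_lit 130, nat_lit 0, nat_lit 0, [nat_lit 938000000, nat_lit 3282000000, nat_lit 9842000000], [], [nat_lit 29434095440, nat_lit 30471200728, nat_lit 39801191080, nat_lit 40701357239, nat_lit 30832868853, nat_lit 31700641699, nat_lit 39836046223, nat_lit 40589528939], nat_lit 0, nat_lit 0, nat_lit 0, nat_lit 0, nat_lit 0, nat_lit 0, [], [nat_lit 93, nat_lit 40, nat_lit 40, nat_lit 80, nat_lit 63, nat_lit 401, nat_lit 175, nat_lit 10]⟩, ⟨p129_k1, nat_lit 0, nat_lit 0, nat_lit 235, nat_lit 0, nat_lit 304038, [nat_lit 2032000000, nat_lit 4688000000, nat_lit 11872000000], [], [nat_lit 24947432835, nat_lit 26023838223, nat_lit 32330339059, nat_lit 33071635783, nat_lit 27887518215, nat_lit 28690790505, nat_lit 34604039414, nat_lit 35507240142], nat_lit 1271250, nat_lit 1271250, nat_lit 1271250, nat_lit 1271250, nat_lit 1100001, nat_lit 2298750, [nat_lit 490000, nat_lit 1100000, nat_lit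 2470000], [nat_lit 75, nat_lit 40, nat_lit 40, nat_lit 80, nat_lit 65, nat_lit 401, nat_lit 175, nat_lit 9]⟩,
 zbF0, [⟨nat_lit 16, nat_lit 57, nat_lit 100, nat_lit 90, nat_lit 411152601⟩, ⟨nat_lit 7, nat_lit 100, nat_lit 82, nat_lit 97, nat_lit 385694644⟩]⟩
noncomputable def p129_l22 : Lf2 := ⟨nat_lit 0, nat_lit 30, [nat_lit 15, nat_lit 5, nat_lit 5, nat_lit 20], false, nat_lit 160, nat_lit 232, nat_lit 160, nat_lit 300, ⟨nat_lit 1000, nat_lit 0, nat_lit 0, nat_lit 0, nat_lit 0, nat_lit 0, nat_lit 0, nat_lit 0, nat_lit 0, nat_lit 0, nat_lit 0, nat_lit 0, nat_lit 0, nat_lit 0, nat_lit 0, nat_lit 0, false, false⟩,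
 nat_lit 0, nat_lit 0, nat_lit 7426, nat_lit 0, nat_lit 7745, nat_lit 5569, nat_lit 0, nat_lit 0, nat_lit 0, nat_lit 729, nat_lit 0, nat_lit 0, nat_lit 0, nat_lit 0, nat_lit 0, nat_lit 0, nat_lit 0, nat_lit 0, [],
 ⟨p129_k2, nat_lit 0, nat_lit 0, nat_lit 119, nat_lit 0, nat_lit 0, [nat_lit 938000000, nat_lit 3282000000, nat_lit 7968000000], [], [nat_lit 28418230425, nat_lit 29340366892, nat_lit 36986122537, nat_lit 37557826355, nat_lit 29627512265, nat_lit 30432540399, nat_lit 36973413406, nat_lit 37649673147], nat_lit 0, nat_lit 0, nat_lit 0, nat_lit 0, nat_lit 0, nat_lit 0, [], [nat_lit 54, nat_lit 40, nat_lit 40, nat_lit 80, nat_lit 43, nat_lit 401, nat_lit 175, nat_lit 12]⟩, ⟨p129_k1, nat_lit 0, nat_lit 0, nat_lit 312, nat_lit 0, nat_lit 396960, [nat_lit 2032000000, nat_lit 4688000000, nat_lit 11872000000], [], [nat_lit 26385157835, nat_lit 27091679351, nat_lit 31631407920, nat_lit 32335167839, nat_lit 28363618620,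 nat_lit 29106151288, nat_lit 33696036153, nat_lit 34350144290], nat_lit 1271250, nat_lit 1271250, nat_lit 1271250, nat_lit 1271250, nat_lit 1100001, nat_lit 2298750, [nat_lit 490000, nat_lit 1100000, nat_lit 2470000], [nat_lit 75, nat_lit 40, nat_lit 40, nat_lit 80, nat_lit 65, nat_lit 401, nat_lit 175, nat_lit 9]⟩,
 zbF0, [⟨nat_lit 0, nat_lit 75, nat_lit 46, nat_lit 100, nat_lit 49042837⟩, ⟨nat_lit 4, nat_lit 100, nat_lit 48, nat_lit 89, nat_lit 652842486⟩, ⟨nat_lit 19, nat_lit 82, nat_lit 100, nat_lit 97, nat_lit 366590473⟩]⟩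
noncomputable def p129_l23 : Lf2 := ⟨nat_lit 1, nat_lit 30, [nat_lit 15, nat_lit 5, nat_lit 5, nat_lit 20], false, nat_lit 16, nat_lit 248, nat_lit 0, nat_lit 300, zbN0,
 nat_lit 0, nat_lit 0, nat_lit 0, nat_lit 0, nat_lit 0, nat_lit 0, nat_lit 0, nat_lit 0, nat_lit 0, nat_lit 0, nat_lit 0, nat_lit 0, nat_lit 0, nat_lit 0, nat_lit 0, nat_lit 0, nat_lit 0, nat_lit 0, [],
 C1.Rw.none, C1.Rw.none,
 zbF0, []⟩
noncomputable def p129_l24 : Lf2 := ⟨nat_lit 0, nat_lit 25, [nat_lit 44, nat_lit 5, nat_lit 5, nat_lit 20], false, nat_lit 20, nat_lit 188, nat_lit 0, nat_lit 280, ⟨nat_lit 1000, nat_lit 0, nat_lit 0, nat_lit 0, nat_lit 0, nat_lit 0, nat_lit 0, nat_lit 0, nat_lit 0, nat_lit 0, nat_lit 0, nat_lit 0, nat_lit 0, nat_lit 0, nat_lit 0, nat_lit 0, false, false⟩,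
 nat_lit 0, nat_lit 0, nat_lit 8160, nat_lit 0, nat_lit 2720, nat_lit 6119, nat_lit 462, nat_lit 0, nat_lit 0, nat_lit 555, nat_lit 0, nat_lit 0, nat_lit 0, nat_lit 0, nat_lit 0, nat_lit 0, nat_lit 0, nat_lit 0, [],
 ⟨p129_k7, nat_lit 0, nat_lit 0, nat_lit 176, nat_lit 0, nat_lit 0, [nat_lit 938000000, nat_lit 3282000000, nat_lit 6250000000], [], [nat_lit 26093637525, nat_lit 27093891001, nat_lit 31269720137, nat_lit 32008360349, nat_lit 26651799887, nat_lit 27498100212, nat_lit 31318143219, nat_lit 31989130038], nat_lit 0, nat_lit 0, nat_lit 0, nat_lit 0, nat_lit 0, nat_lit 0, [], [nat_lit 20, nat_lit 40, nat_lit 40, nat_lit 80, nat_lit 16, nat_lit 260, nat_lit 50, nat_lit 9]⟩, ⟨p129_k5, nat_lit 0, nat_lit 0, nat_lit 460, nat_lit 0, nat_lit 607730, [nat_lit 2032000000, nat_lit 4688000000, nat_lit 9842000000], [], [nat_lit 33183451618, nat_lit 33908921870, nat_lit 37599340192, nat_lit 39016970552, nat_lit 30881143546,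 nat_lit 31359089992, nat_lit 33774629888, nat_lit 34177355904], nat_lit 1271250, nat_lit 1271250, nat_lit 1271250, nat_lit 1271250, nat_lit 0, nat_lit 1977500, [nat_lit 490000, nat_lit 1100000, nat_lit 2127500], [nat_lit 27, nat_lit 40, nat_lit 40, nat_lit 80, nat_lit 13, nat_lit 401, nat_lit 175, nat_lit 11]⟩,
 zbF0, [⟨nat_lit 0, nat_lit 82, nat_lit 34, nat_lit 100, nat_lit 523786844⟩, ⟨nat_lit 4, nat_lit 100, nat_lit 32, nat_lit 87, nat_lit 566386425⟩, ⟨nat_lit 7, nat_lit 100, nat_lit 79, nat_lit 87, nat_lit 129823261⟩]⟩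
noncomputable def p129_l25 : Lf2 := ⟨nat_lit 0, nat_lit 30, [nat_lit 15, nat_lit 5, nat_lit 5, nat_lit 20], false, nat_lit 32, nat_lit 208, nat_lit 0, nat_lit 160, ⟨nat_lit 1000, nat_lit 0, nat_lit 0, nat_lit 0, nat_lit 0, nat_lit 0, nat_lit 0, nat_lit 0, nat_lit 0, nat_lit 0, nat_lit 0, nat_lit 0, nat_lit 0, nat_lit 0, nat_lit 0, nat_lit 0, false, false⟩,
 nat_lit 0, nat_lit 0, nat_lit 7912, nat_lit 0, nat_lit 3132, nat_lit 5933, nat_lit 449, nat_lit 0, nat_lit 0, nat_lit 682, nat_lit 0, nat_lit 0, nat_lit 0, nat_lit 0, nat_lit 0, nat_lit 0, nat_lit 0, nat_lit 0, [],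
 ⟨p129_k3, nat_lit 0, nat_lit 0, nat_lit 177, nat_lit 0, nat_lit 0, [nat_lit 938000000, nat_lit 3282000000, nat_lit 7968000000], [], [nat_lit 26029611694, nat_lit 27153968183, nat_lit 31986521942, nat_lit 32866174712, nat_lit 26846453691, nat_lit 27727852151, nat_lit 31449289234, nat_lit 32150569171], nat_lit 0, nat_lit 0, nat_lit 0, nat_lit 0, nat_lit 0, nat_lit 0, [], [nat_lit 54, nat_lit 40, nat_lit 40, nat_lit 80, nat_lit 43, nat_lit 373, nat_lit 150, nat_lit 11]⟩, ⟨p129_k1, nat_lit 0, nat_lit 0, nat_lit 515, nat_lit 0, nat_lit 600683, [nat_lit 2032000000, nat_lit 4688000000, nat_lit 11872000000], [], [nat_lit 32797369083, nat_lit 33385458652, nat_lit 37094092619, nat_lit 38488541502, nat_lit 29287323001, nat_lit 29782634731, nat_lit 33158434655, nat_lit 33804833896], nat_lit 1271250, nat_lit 1271250, nat_lit 1271250, nat_lit 1271250, nat_lit 0, nat_lit 1100001, [nat_lit 490000, nat_lit 1100000, nat_lit 2470000],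 [nat_lit 75, nat_lit 40, nat_lit 40, nat_lit 80, nat_lit 65, nat_lit 373, nat_lit 150, nat_lit 9]⟩,
 zbF0, [⟨nat_lit 0, nat_lit 82, nat_lit 34, nat_lit 100, nat_lit 391566486⟩, ⟨nat_lit 16, nat_lit 32, nat_lit 100, nat_lit 90, nat_lit 505957668⟩]⟩
noncomputable def p129_l26 : Lf2 := ⟨nat_lit 0, nat_lit 30, [nat_lit 15, nat_lit 5, nat_lit 5, nat_lit 20], false, nat_lit 32, nat_lit 208, nat_lit 160, nat_lit 300, ⟨nat_lit 1000, nat_lit 0, nat_lit 0, nat_lit 0, nat_lit 0, nat_lit 0, nat_lit 0, nat_lit 0, nat_lit 0, nat_lit 0, nat_lit 0, nat_lit 0, nat_lit 0, nat_lit 0, nat_lit 0, nat_lit 0, false, false⟩,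
 nat_lit 0, nat_lit 0, nat_lit 8018, nat_lit 0, nat_lit 3465, nat_lit 6013, nat_lit 417, nat_lit 0, nat_lit 0, nat_lit 667, nat_lit 0, nat_lit 0, nat_lit 0, nat_lit 0, nat_lit 0, nat_lit 0, nat_lit 0, nat_lit 0, [],
 ⟨p129_k3, nat_lit 0, nat_lit 0, nat_lit 175, nat_lit 0, nat_lit 0, [nat_lit 938000000, nat_lit 3282000000, nat_lit 7968000000], [], [nat_lit 26525718641, nat_lit 27172186900, nat_lit 32774924065, nat_lit 33229223712, nat_lit 26701299280, nat_lit 27159749808, nat_lit 31827201976, nat_lit 32207947110], nat_lit 0, nat_lit 0, nat_lit 0, nat_lit 0, nat_lit 0, nat_lit 0, [], [nat_lit 54, nat_lit 40, nat_lit 40, nat_lit 80, nat_lit 43, nat_lit 373, nat_lit 150, nat_lit 11]⟩, ⟨p129_k1, nat_lit 0, nat_lit 0, nat_lit 347, nat_lit 0, nat_lit 498457, [nat_lit 2032000000, nat_lit 4688000000, nat_lit 11872000000], [], [nat_lit 27514508452, nat_lit 28211239130, nat_lit 32141410355, nat_lit 32689522784, nat_lit 29547793575,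 nat_lit 30168724261, nat_lit 33732471376, nat_lit 34644587658], nat_lit 1271250, nat_lit 1271250, nat_lit 1271250, nat_lit 1271250, nat_lit 1100001, nat_lit 2298750, [nat_lit 490000, nat_lit 1100000, nat_lit 2470000], [nat_lit 75, nat_lit 40, nat_lit 40, nat_lit 80, nat_lit 65, nat_lit 401, nat_lit 175, nat_lit 9]⟩,
 zbF0, [⟨nat_lit 0, nat_lit 80, nat_lit 35, nat_lit 100, nat_lit 279919091⟩, ⟨nat_lit 4, nat_lit 100, nat_lit 38, nat_lit 90, nat_lit 400527997⟩, ⟨nat_lit 7, nat_lit 100, nat_lit 82, nat_lit 97, nat_lit 364170948⟩]⟩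
noncomputable def p129_l27 : Lf2 := ⟨nat_lit 0, nat_lit 30, [nat_lit 15, nat_lit 5, nat_lit 5, nat_lit 20], false, nat_lit 48, nat_lit 184, nat_lit 160, nat_lit 300, ⟨nat_lit 1000, nat_lit 0, nat_lit 0, nat_lit 0, nat_lit 0, nat_lit 0, nat_lit 0, nat_lit 0, nat_lit 0, nat_lit 0, nat_lit 0, nat_lit 0, nat_lit 0, nat_lit 0, nat_lit 0, nat_lit 0, false, false⟩,
 nat_lit 0, nat_lit 0, nat_lit 7885, nat_lit 0, nat_lit 3280, nat_lit 5913, nat_lit 318, nat_lit 0, nat_lit 0, nat_lit 633, nat_lit 0, nat_lit 0, nat_lit 0, nat_lit 0, nat_lit 0, nat_lit 0, nat_lit 0, nat_lit 0, [],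
 ⟨p129_k8, nat_lit 0, nat_lit 0, nat_lit 149, nat_lit 0, nat_lit 0, [nat_lit 938000000, nat_lit 3282000000, nat_lit 6250000000], [], [nat_lit 26792080583, nat_lit 27425382875, nat_lit 31620372607, nat_lit 32110483041, nat_lit 26949321773, nat_lit 27423841013, nat_lit 31088957640, nat_lit 31512367374], nat_lit 0, nat_lit 0, nat_lit 0, nat_lit 0, nat_lit 0, nat_lit 0, [], [nat_lit 20, nat_lit 40, nat_lit 40, nat_lit 80, nat_lit 16, nat_lit 260, nat_lit 50, nat_lit 8]⟩, ⟨p129_k1, nat_lit 0, nat_lit 0, nat_lit 375, nat_lit 0, nat_lit 600683, [nat_lit 2032000000, nat_lit 4688000000, nat_lit 11872000000], [], [nat_lit 29862927307, nat_lit 30415569843, nat_lit 32404980378, nat_lit 32952112849, nat_lit 30857242051, nat_lit 31283638090, nat_lit 33390095258, nat_lit 33811778822], nat_lit 1271250, nat_lit 1271250, nat_lit 1271250, nat_lit 1271250, nat_lit 1100001, nat_lit 2298750, [nat_lit 490000, nat_lit 1100000, nat_lit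 2470000], [nat_lit 75, nat_lit 40, nat_lit 40, nat_lit 80, nat_lit 65, nat_lit 401, nat_lit 175, nat_lit 9]⟩,
 zbF0, [⟨nat_lit 0, nat_lit 86, nat_lit 25, nat_lit 100, nat_lit 426920827⟩, ⟨nat_lit 4, nat_lit 100, nat_lit 23, nat_lit 92, nat_lit 672150002⟩, ⟨nat_lit 7, nat_lit 100, nat_lit 82, nat_lit 97, nat_lit 314710705⟩]⟩
noncomputable def p129_l28 : Lf2 := ⟨nat_lit 0, nat_lit 30, [nat_lit 15, nat_lit 5, nat_lit 5, nat_lit 20], false, nat_lit 8, nat_lit 248, nat_lit 0, nat_lit 300, ⟨nat_lit 1000, nat_lit 0, nat_lit 0, nat_lit 0, nat_lit 0, nat_lit 0, nat_lit 0, nat_lit 0, nat_lit 0, nat_lit 0, nat_lit 0, nat_lit 0, nat_lit 0, nat_lit 0, nat_lit 0, nat_lit 0, false, false⟩,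
 nat_lit 0, nat_lit 0, nat_lit 0, nat_lit 7907, nat_lit 5349, nat_lit 9780, nat_lit 515, nat_lit 0, nat_lit 0, nat_lit 0, nat_lit 0, nat_lit 0, nat_lit 0, nat_lit 0, nat_lit 0, nat_lit 0, nat_lit 0, nat_lit 0, [],
 ⟨p129_k0, nat_lit 0, nat_lit 0, nat_lit 227, nat_lit 0, nat_lit 0, [nat_lit 938000000, nat_lit 3282000000, nat_lit 9842000000], [], [nat_lit 28468296534, nat_lit 30727578387, nat_lit 38325566084, nat_lit 41139660941, nat_lit 26292845688, nat_lit 28219248723, nat_lit 33804770026, nat_lit 35936189251], nat_lit 0, nat_lit 0, nat_lit 0, nat_lit 0, nat_lit 0, nat_lit 0, [], [nat_lit 93, nat_lit 40, nat_lit 40, nat_lit 80, nat_lit 63, nat_lit 401, nat_lit 175, nat_lit 11]⟩, ⟨p129_k1, nat_lit 0, nat_lit 0, nat_lit 234, nat_lit 0, nat_lit 0, [nat_lit 2032000000, nat_lit 4688000000, nat_lit 11872000000], [], [nat_lit 39648362720, nat_lit 41619230560, nat_lit 51214807360, nat_lit 52249570200, nat_lit 34432172740,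 nat_lit 35609337160, nat_lit 40813100880, nat_lit 41412593420], nat_lit 0, nat_lit 0, nat_lit 0, nat_lit 0, nat_lit 0, nat_lit 0, [], [nat_lit 75, nat_lit 40, nat_lit 40, nat_lit 80, nat_lit 65, nat_lit 401, nat_lit 175, nat_lit 10]⟩,
 zbF0, [⟨nat_lit 0, nat_lit 79, nat_lit 45, nat_lit 100, nat_lit 134688105⟩, ⟨nat_lit 4, nat_lit 100, nat_lit 44, nat_lit 87, nat_lit 160623410⟩]⟩
noncomputable def p129_l29 : Lf2 := ⟨nat_lit 0, nat_lit 25, [nat_lit 44, nat_lit 5, nat_lit 5, nat_lit 20], false, nat_lit 8, nat_lit 160, nat_lit 0, nat_lit 280, ⟨nat_lit 605, nat_lit 395, nat_lit 0, nat_lit 8, nat_lit 317, nat_lit 395, nat_lit 67, nat_lit 0, nat_lit 0, nat_lit 0, nat_lit 0, nat_lit 0, nat_lit 0, nat_lit 0, nat_lit 0, nat_lit 5000000, true, false⟩,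
 nat_lit 0, nat_lit 0, nat_lit 4719, nat_lit 0, nat_lit 3752, nat_lit 3538, nat_lit 217, nat_lit 0, nat_lit 0, nat_lit 348, nat_lit 0, nat_lit 0, nat_lit 0, nat_lit 0, nat_lit 0, nat_lit 265400, nat_lit 0, nat_lit 0, [(nat_lit 26, [(nat_lit 1, nat_lit 216), (nat_lit 2, nat_lit 179)])],
 ⟨p129_k4, nat_lit 0, nat_lit 0, nat_lit 198, nat_lit 0, nat_lit 0, [nat_lit 1013620000, nat_lit 2197109201, nat_lit 3907850800], [], [nat_lit 26013256955, nat_lit 27110694544, nat_lit 33650737613, nat_lit 34834473976, nat_lit 24843802894, nat_lit 25821516793, nat_lit 30879379433, nat_lit 31590658032], nat_lit 0, nat_lit 0, nat_lit 0, nat_lit 0, nat_lit 0, nat_lit 0, [], [nat_lit 54, nat_lit 40, nat_lit 40, nat_lit 80, nat_lit 43, nat_lit 373, nat_lit 150, nat_lit 12]⟩, ⟨p129_k5, nat_lit 0, nat_lit 0, nat_lit 367, nat_lit 0, nat_lit 402066, [nat_lit 1229360000, nat_lit 2836240000, nat_lit 5954410000], [], [nat_lit 19104684784, nat_lit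 19652296218, nat_lit 22769187168, nat_lit 23579057982, nat_lit 18861190420, nat_lit 18467698482, nat_lit 20511409646, nat_lit 20790130627], nat_lit 1271250, nat_lit 1271250, nat_lit 1271250, nat_lit 1271250, nat_lit 0, nat_lit 1977500, [nat_lit 490000, nat_lit 1100000, nat_lit 2127500], [nat_lit 27, nat_lit 40, nat_lit 40, nat_lit 80, nat_lit 13, nat_lit 401, nat_lit 175, nat_lit 11]⟩,
 ⟨nat_lit 2236, nat_lit 3163, ⟨.ofNat (nat_lit 632548), .ofNat (nat_lit 937695), .ofNat (nat_lit 654639), .ofNat (nat_lit 959850), .ofNat (nat_lit 636264), .ofNat (nat_lit 921722), .ofNat (nat_lit 658975), .ofNat (nat_lit 944496)⟩, ⟨.ofNat (nat_lit 20000), .ofNat (nat_lit 306116), .ofNat (nat_lit 20000), .ofNat (nat_lit 328271), .ofNat (nat_lit 20000), .ofNat (nat_lit 306337), .ofNat (nat_lit 20000), .ofNat (nat_lit 329112)⟩⟩, [⟨nat_lit 19, nat_lit 79, nat_lit 100, nat_lit 87, nat_lit 82017753⟩]⟩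
noncomputable def p129_l30 : Lf2 := ⟨nat_lit 0, nat_lit 30, [nat_lit 15, nat_lit 5, nat_lit 5, nat_lit 20], false, nat_lit 16, nat_lit 160, nat_lit 0, nat_lit 300, ⟨nat_lit 611, nat_lit 389, nat_lit 0, nat_lit 8, nat_lit 317, nat_lit 389, nat_lit 76, nat_lit 0, nat_lit 0, nat_lit 0, nat_lit 0, nat_lit 0, nat_lit 0, nat_lit 0, nat_lit 0, nat_lit 5000000, true, false⟩,
 nat_lit 0, nat_lit 0, nat_lit 4718, nat_lit 0, nat_lit 3902, nat_lit 3538, nat_lit 323, nat_lit 0, nat_lit 0, nat_lit 389, nat_lit 0, nat_lit 0, nat_lit 0, nat_lit 0, nat_lit 0, nat_lit 155600, nat_lit 0, nat_lit 0, [(nat_lit 26, [(nat_lit 1, nat_lit 389)])],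
 ⟨p129_k0, nat_lit 0, nat_lit 0, nat_lit 204, nat_lit 0, nat_lit 0, [nat_lit 904234800, nat_lit 2403482400, nat_lit 6305834400], [], [nat_lit 26046730756, nat_lit 27279380050, nat_lit 33771904762, nat_lit 34972347384, nat_lit 24941317554, nat_lit 26010457182, nat_lit 31238613258, nat_lit 31949385618], nat_lit 0, nat_lit 0, nat_lit 0, nat_lit 0, nat_lit 0, nat_lit 0, [], [nat_lit 93, nat_lit 40, nat_lit 40, nat_lit 80, nat_lit 63, nat_lit 373, nat_lit 150, nat_lit 10]⟩, ⟨p129_k1, nat_lit 0, nat_lit 0, nat_lit 399, nat_lit 0, nat_lit 396960, [nat_lit 1241552000, nat_lit 2864368000, nat_lit 7253792000], [], [nat_lit 20145268490, nat_lit 20596255622, nat_lit 23207100979, nat_lit 23711909267, nat_lit 18868828031, nat_lit 19065401902, nat_lit 20958841124, nat_lit 21299155371], nat_lit 1271250, nat_lit 1271250, nat_lit 1271250, nat_lit 1271250, nat_lit 0, nat_lit 2118750, [nat_lit 490000, nat_lit 1100000, nat_lit 2470000],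 [nat_lit 75, nat_lit 40, nat_lit 40, nat_lit 80, nat_lit 65, nat_lit 401, nat_lit 175, nat_lit 10]⟩,
 ⟨nat_lit 2236, nat_lit 3163, ⟨.ofNat (nat_lit 632548), .ofNat (nat_lit 937695), .ofNat (nat_lit 654639), .ofNat (nat_lit 959850), .ofNat (nat_lit 636264), .ofNat (nat_lit 921722), .ofNat (nat_lit 658975), .ofNat (nat_lit 944496)⟩, ⟨.ofNat (nat_lit 40000), .ofNat (nat_lit 328271), .ofNat (nat_lit 40000), .ofNat (nat_lit 350426), .ofNat (nat_lit 40000), .ofNat (nat_lit 329112), .ofNat (nat_lit 40000), .ofNat (nat_lit 351886)⟩⟩, [⟨nat_lit 7, nat_lit 100, nat_lit 82, nat_lit 97, nat_lit 88082509⟩]⟩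
noncomputable def p129_l31 : Lf2 := ⟨nat_lit 1, nat_lit 30, [nat_lit 15, nat_lit 5, nat_lit 5, nat_lit 20], false, nat_lit 16, nat_lit 160, nat_lit 0, nat_lit 300, zbN0,
 nat_lit 0, nat_lit 0, nat_lit 0, nat_lit 0, nat_lit 0, nat_lit 0, nat_lit 0, nat_lit 0, nat_lit 0, nat_lit 0, nat_lit 0, nat_lit 0, nat_lit 0, nat_lit 0, nat_lit 0, nat_lit 0, nat_lit 0, nat_lit 0, [],
 C1.Rw.none, C1.Rw.none,
 zbF0, []⟩
noncomputable def p129_l32 : Lf2 := ⟨nat_lit 0, nat_lit 30, [nat_lit 15, nat_lit 5, nat_lit 5, nat_lit 20], false, nat_lit 20, nat_lit 160, nat_lit 0, nat_lit 300, ⟨nat_lit 393, nat_lit 607, nat_lit 0, nat_lit 8, nat_lit 318, nat_lit 607, nat_lit 75, nat_lit 0, nat_lit 0, nat_lit 0, nat_lit 0, nat_lit 0, nat_lit 0, nat_lit 0, nat_lit 0, nat_lit 5000000, true, false⟩,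
 nat_lit 0, nat_lit 0, nat_lit 3234, nat_lit 0, nat_lit 2885, nat_lit 2425, nat_lit 166, nat_lit 0, nat_lit 0, nat_lit 238, nat_lit 0, nat_lit 0, nat_lit 0, nat_lit 0, nat_lit 0, nat_lit 242800, nat_lit 0, nat_lit 0, [(nat_lit 29, [(nat_lit 1, nat_lit 607)])],
 ⟨p129_k3, nat_lit 0, nat_lit 0, nat_lit 184, nat_lit 0, nat_lit 0, [nat_lit 792562800, nat_lit 1491350001, nat_lit 3164687600], [], [nat_lit 25351846820, nat_lit 26551129512, nat_lit 30962810615, nat_lit 32067552598, nat_lit 25291897719, nat_lit 26194302773, nat_lit 29935430679, nat_lit 30679558534], nat_lit 0, nat_lit 0, nat_lit 0, nat_lit 0, nat_lit 0, nat_lit 0, [], [nat_lit 54, nat_lit 40, nat_lit 40, nat_lit 80, nat_lit 43, nat_lit 373, nat_lit 150, nat_lit 11]⟩, ⟨p129_k1, nat_lit 0, nat_lit 0, nat_lit 548, nat_lit 0, nat_lit 710292, [nat_lit 798576000, nat_lit 1842384000, nat_lit 4665696000], [], [nat_lit 13432314664, nat_lit 13549099430, nat_lit 14881956027,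 nat_lit 15058486636, nat_lit 12275278666, nat_lit 12347349168, nat_lit 13222082658, nat_lit 13310332287], nat_lit 1271250, nat_lit 1271250, nat_lit 1271250, nat_lit 1271250, nat_lit 0, nat_lit 2118750, [nat_lit 490000, nat_lit 1100000, nat_lit 2470000], [nat_lit 75, nat_lit 40, nat_lit 40, nat_lit 80, nat_lit 65, nat_lit 401, nat_lit 175, nat_lit 10]⟩,
 ⟨nat_lit 0, nat_lit 2237, ⟨.ofNat (nat_lit 684059), .ofNat (nat_lit 898913), .ofNat (nat_lit 694982), .ofNat (nat_lit 910301), .ofNat (nat_lit 691099), .ofNat (nat_lit 879996), .ofNat (nat_lit 703135), .ofNat (nat_lit 892497)⟩, ⟨.ofNat (nat_lit 50000), .ofNat (nat_lit 306334), .ofNat (nat_lit 50000), .ofNat (nat_lit 351885), .ofNat (nat_lit 50000), .ofNat (nat_lit 299996), .ofNat (nat_lit 50000), .ofNat (nat_lit 349998)⟩⟩, [⟨nat_lit 13, nat_lit 40, nat_lit 70, nat_lit 100, nat_lit 247134937⟩, ⟨nat_lit 16, nat_lit 32, nat_lit 100, nat_lit 88, nat_lit 139398244⟩, ⟨nat_lit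 19, nat_lit 84, nat_lit 100, nat_lit 93, nat_lit 53490305⟩]⟩
noncomputable def p129_l33 : Lf2 := ⟨nat_lit 0, nat_lit 30, [nat_lit 15, nat_lit 5, nat_lit 5, nat_lit 20], false, nat_lit 20, nat_lit 160, nat_lit 0, nat_lit 288, ⟨nat_lit 464, nat_lit 536, nat_lit 0, nat_lit 8, nat_lit 328, nat_lit 536, nat_lit 75, nat_lit 0, nat_lit 0, nat_lit 0, nat_lit 0, nat_lit 0, nat_lit 0, nat_lit 0, nat_lit 0, nat_lit 5000000, true, false⟩,
 nat_lit 0, nat_lit 0, nat_lit 3327, nat_lit 0, nat_lit 2902, nat_lit 2593, nat_lit 181, nat_lit 0, nat_lit 0, nat_lit 284, nat_lit 0, nat_lit 0, nat_lit 0, nat_lit 0, nat_lit 0, nat_lit 214400, nat_lit 0, nat_lit 0, [(nat_lit 29, [(nat_lit 1, nat_lit 536)])],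
 ⟨p129_k3, nat_lit 0, nat_lit 0, nat_lit 188, nat_lit 0, nat_lit 0, [nat_lit 809574400, nat_lit 1700800000, nat_lit 3726524800], [], [nat_lit 26074191806, nat_lit 27250623847, nat_lit 31677509696, nat_lit 32541148918, nat_lit 26081462033, nat_lit 26958227094, nat_lit 30609702808, nat_lit 31325255176], nat_lit 0, nat_lit 0, nat_lit 0, nat_lit 0, nat_lit 0, nat_lit 0, [], [nat_lit 54, nat_lit 40, nat_lit 40, nat_lit 80, nat_lit 43, nat_lit 249, nat_lit 40, nat_lit 7]⟩, ⟨p129_k9, nat_lit 0, nat_lit 0, nat_lit 552, nat_lit 0, nat_lit 729495, [nat_lit 942848000, nat_lit 2175232000, nat_lit 5508608000], [], [nat_lit 15407811168, nat_lit 15587473003, nat_lit 17403142879, nat_lit 17597969363, nat_lit 14586033624, nat_lit 14686753244, nat_lit 15652504516, nat_lit 15720901477], nat_lit 1271250, nat_lit 1271250, nat_lit 1271250, nat_lit 1271250, nat_lit 0, nat_lit 2034000, [nat_lit 490000, nat_lit 1100000, nat_lit 2470000],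 [nat_lit 75, nat_lit 40, nat_lit 40, nat_lit 80, nat_lit 65, nat_lit 401, nat_lit 175, nat_lit 10]⟩,
 ⟨nat_lit 0, nat_lit 2237, ⟨.ofNat (nat_lit 712639), .ofNat (nat_lit 921704), .ofNat (nat_lit 723563), .ofNat (nat_lit 933091), .ofNat (nat_lit 718688), .ofNat (nat_lit 902497), .ofNat (nat_lit 730725), .ofNat (nat_lit 914997)⟩, ⟨.ofNat (nat_lit 50000), .ofNat (nat_lit 306334), .ofNat (nat_lit 50000), .ofNat (nat_lit 351885), .ofNat (nat_lit 50000), .ofNat (nat_lit 299996), .ofNat (nat_lit 50000), .ofNat (nat_lit 349998)⟩⟩, [⟨nat_lit 13, nat_lit 42, nat_lit 66, nat_lit 100, nat_lit 174663304⟩, ⟨nat_lit 4, nat_lit 100, nat_lit 32, nat_lit 88, nat_lit 187807586⟩, ⟨nat_lit 7, nat_lit 100, nat_lit 77, nat_lit 91, nat_lit 70947872⟩]⟩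
noncomputable def p129_l34 : Lf2 := ⟨nat_lit 0, nat_lit 30, [nat_lit 15, nat_lit 5, nat_lit 5, nat_lit 20], false, nat_lit 160, nat_lit 248, nat_lit 0, nat_lit 300, ⟨nat_lit 401, nat_lit 599, nat_lit 0, nat_lit 8, nat_lit 293, nat_lit 599, nat_lit 155, nat_lit 0, nat_lit 0, nat_lit 0, nat_lit 0, nat_lit 0, nat_lit 0, nat_lit 0, nat_lit 0, nat_lit 5000000, true, false⟩,
 nat_lit 0, nat_lit 0, nat_lit 3421, nat_lit 0, nat_lit 7213, nat_lit 2565, nat_lit 0, nat_lit 0, nat_lit 0, nat_lit 256, nat_lit 0, nat_lit 0, nat_lit 0, nat_lit 0, nat_lit 0, nat_lit 149750, nat_lit 0, nat_lit 0, [(nat_lit 26, [(nat_lit 0, nat_lit 599)]), (nat_lit 29, [(nat_lit 0, nat_lit 599)])],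
 ⟨p129_k0, nat_lit 0, nat_lit 0, nat_lit 92, nat_lit 0, nat_lit 0, [nat_lit 844316400, nat_lit 2173850001, nat_lit 5642750000], [], [nat_lit 26788278240, nat_lit 30105581632, nat_lit 30873871876, nat_lit 33404219112, nat_lit 28365024789, nat_lit 31174014860, nat_lit 31593443510, nat_lit 33974331897], nat_lit 0, nat_lit 0, nat_lit 0, nat_lit 0, nat_lit 0, nat_lit 0, [], [nat_lit 93, nat_lit 40, nat_lit 40, nat_lit 80, nat_lit 63, nat_lit 373, nat_lit 150, nat_lit 10]⟩, ⟨p129_k1, nat_lit 0, nat_lit 0, nat_lit 597, nat_lit 0, nat_lit 770911, [nat_lit 814832000, nat_lit 1879888000, nat_lit 4760672000], [], [nat_lit 12983151496, nat_lit 13242171988, nat_lit 13818978680, nat_lit 14090247166, nat_lit 12030294182, nat_lit 12027887728, nat_lit 12390095450, nat_lit 12562088692], nat_lit 1271250, nat_lit 1271250, nat_lit 1271250, nat_lit 1271250, nat_lit 0, nat_lit 2118750, [nat_lit 490000, nat_lit 1100000, nat_lit 2470000],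 [nat_lit 75, nat_lit 40, nat_lit 40, nat_lit 80, nat_lit 65, nat_lit 401, nat_lit 175, nat_lit 10]⟩,
 ⟨nat_lit 0, nat_lit 3163, ⟨.ofNat (nat_lit 625100), .ofNat (nat_lit 815384), .ofNat (nat_lit 645949), .ofNat (nat_lit 836507), .ofNat (nat_lit 642170), .ofNat (nat_lit 799594), .ofNat (nat_lit 665865), .ofNat (nat_lit 823562)⟩, ⟨.ofNat (nat_lit 306113), .ofNat (nat_lit 440207), .ofNat (nat_lit 350425), .ofNat (nat_lit 484518), .ofNat (nat_lit 299996), .ofNat (nat_lit 409993), .ofNat (nat_lit 349998), .ofNat (nat_lit 459993)⟩⟩, [⟨nat_lit 4, nat_lit 100, nat_lit 44, nat_lit 87, nat_lit 472818624⟩, ⟨nat_lit 19, nat_lit 81, nat_lit 100, nat_lit 92, nat_lit 63013680⟩]⟩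
noncomputable def p129_l35 : Lf2 := ⟨nat_lit 0, nat_lit 30, [nat_lit 15, nat_lit 5, nat_lit 5, nat_lit 20], false, nat_lit 160, nat_lit 248, nat_lit 16, nat_lit 300, ⟨nat_lit 1000, nat_lit 0, nat_lit 0, nat_lit 0, nat_lit 0, nat_lit 0, nat_lit 0, nat_lit 0, nat_lit 0, nat_lit 0, nat_lit 0, nat_lit 0, nat_lit 0, nat_lit 0, nat_lit 0, nat_lit 0, false, false⟩,
 nat_lit 0, nat_lit 0, nat_lit 7723, nat_lit 0, nat_lit 5020, nat_lit 5792, nat_lit 458, nat_lit 0, nat_lit 0, nat_lit 652, nat_lit 0, nat_lit 0, nat_lit 0, nat_lit 0, nat_lit 0, nat_lit 0, nat_lit 0, nat_lit 0, [],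
 ⟨p129_k0, nat_lit 0, nat_lit 0, nat_lit 130, nat_lit 0, nat_lit 0, [nat_lit 938000000, nat_lit 3282000000, nat_lit 9842000000], [], [nat_lit 28940084540, nat_lit 29465010400, nat_lit 32559058700, nat_lit 32988855260, nat_lit 30001772069, nat_lit 30454836495, nat_lit 33387376281, nat_lit 33904962558], nat_lit 0, nat_lit 0, nat_lit 0, nat_lit 0, nat_lit 0, nat_lit 0, [], [nat_lit 93, nat_lit 40, nat_lit 40, nat_lit 80, nat_lit 63, nat_lit 289, nat_lit 75, nat_lit 7]⟩, ⟨p129_k1, nat_lit 0, nat_lit 0, nat_lit 420, nat_lit 0, nat_lit 463416, [nat_lit 2032000000, nat_lit 4688000000, nat_lit 11872000000], [], [nat_lit 34094859957, nat_lit 34652249397, nat_lit 36958845419, nat_lit 37778941947, nat_lit 31879809892, nat_lit 32383881936, nat_lit 34298915008, nat_lit 34855926884], nat_lit 1271250, nat_lit 1271250, nat_lit 1271250, nat_lit 1271250, nat_lit 88400, nat_lit 2136750, [nat_lit 490000, nat_lit 1100000, nat_lit 2470000],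 [nat_lit 75, nat_lit 40, nat_lit 40, nat_lit 80, nat_lit 65, nat_lit 289, nat_lit 75, nat_lit 7]⟩,
 zbF0, [⟨nat_lit 4, nat_lit 100, nat_lit 57, nat_lit 87, nat_lit 530725444⟩, ⟨nat_lit 19, nat_lit 81, nat_lit 100, nat_lit 92, nat_lit 178389642⟩]⟩
noncomputable def p129_l36 : Lf2 := ⟨nat_lit 0, nat_lit 30, [nat_lit 15, nat_lit 5, nat_lit 5, nat_lit 20], false, nat_lit 160, nat_lit 232, nat_lit 16, nat_lit 300, ⟨nat_lit 1000, nat_lit 0, nat_lit 0, nat_lit 0, nat_lit 0, nat_lit 0, nat_lit 0, nat_lit 0, nat_lit 0, nat_lit 0, nat_lit 0, nat_lit 0, nat_lit 0, nat_lit 0, nat_lit 0, nat_lit 0, false, false⟩,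
 nat_lit 0, nat_lit 0, nat_lit 8043, nat_lit 0, nat_lit 6614, nat_lit 6032, nat_lit 135, nat_lit 0, nat_lit 0, nat_lit 597, nat_lit 0, nat_lit 0, nat_lit 0, nat_lit 0, nat_lit 0, nat_lit 0, nat_lit 0, nat_lit 0, [],
 ⟨p129_k2, nat_lit 0, nat_lit 0, nat_lit 119, nat_lit 0, nat_lit 0, [nat_lit 938000000, nat_lit 3282000000, nat_lit 7968000000], [], [nat_lit 31166677508, nat_lit 31824941458, nat_lit 35283187258, nat_lit 35810271656, nat_lit 31838369150, nat_lit 32417381445, nat_lit 35490549749, nat_lit 36110368960], nat_lit 0, nat_lit 0, nat_lit 0, nat_lit 0, nat_lit 0, nat_lit 0, [], [nat_lit 54, nat_lit 40, nat_lit 40, nat_lit 80, nat_lit 43, nat_lit 272, nat_lit 60, nat_lit 7]⟩, ⟨p129_k1, nat_lit 0, nat_lit 0, nat_lit 487, nat_lit 0, nat_lit 561446, [nat_lit 2032000000, nat_lit 4688000000, nat_lit 11872000000], [], [nat_lit 35639759954, nat_lit 36115933803, nat_lit 37736942566, nat_lit 38540389047, nat_lit 32826673247,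 nat_lit 33253248303, nat_lit 34575651233, nat_lit 34910091822], nat_lit 1271250, nat_lit 1271250, nat_lit 1271250, nat_lit 1271250, nat_lit 88400, nat_lit 2136750, [nat_lit 490000, nat_lit 1100000, nat_lit 2470000], [nat_lit 75, nat_lit 40, nat_lit 40, nat_lit 80, nat_lit 65, nat_lit 289, nat_lit 75, nat_lit 7]⟩,
 zbF0, [⟨nat_lit 4, nat_lit 100, nat_lit 48, nat_lit 87, nat_lit 584732229⟩, ⟨nat_lit 7, nat_lit 100, nat_lit 81, nat_lit 92, nat_lit 161814253⟩]⟩
noncomputable def p129_l37 : Lf2 := ⟨nat_lit 0, nat_lit 30, [nat_lit 15, nat_lit 5, nat_lit 5, nat_lit 20], false, nat_lit 160, nat_lit 208, nat_lit 16, nat_lit 300, ⟨nat_lit 735, nat_lit 265, nat_lit 0, nat_lit 8, nat_lit 345, nat_lit 265, nat_lit 144, nat_lit 0, nat_lit 0, nat_lit 0, nat_lit 0, nat_lit 0, nat_lit 0, nat_lit 0, nat_lit 0, nat_lit 5000000, true, true⟩,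
 nat_lit 0, nat_lit 0, nat_lit 6142, nat_lit 0, nat_lit 2829, nat_lit 4606, nat_lit 370, nat_lit 0, nat_lit 0, nat_lit 414, nat_lit 0, nat_lit 0, nat_lit 0, nat_lit 0, nat_lit 0, nat_lit 106000, nat_lit 0, nat_lit 0, [(nat_lit 29, [(nat_lit 1, nat_lit 265)])],
 ⟨p129_k3, nat_lit 0, nat_lit 0, nat_lit 124, nat_lit 0, nat_lit 0, [nat_lit 874506000, nat_lit 2500250001, nat_lit 5871002000], [], [nat_lit 27268847176, nat_lit 28145569842, nat_lit 29939945099, nat_lit 30702273679, nat_lit 28017557834, nat_lit 28839063796, nat_lit 30523577594, nat_lit 31333944141], nat_lit 0, nat_lit 0, nat_lit 0, nat_lit 0, nat_lit 0, nat_lit 0, [], [nat_lit 54, nat_lit 40, nat_lit 40, nat_lit 80, nat_lit 43, nat_lit 272, nat_lit 60, nat_lit 7]⟩, ⟨p129_k1, nat_lit 0, nat_lit 0, nat_lit 548, nat_lit 0, nat_lit 770911, [nat_lit 1493520000, nat_lit 3445680000, nat_lit 8725920000], [], [nat_lit 26351943738, nat_lit 26798218804, nat_lit 28185610543,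 nat_lit 28667830031, nat_lit 24478801124, nat_lit 24739459295, nat_lit 25496321414, nat_lit 25700709396], nat_lit 1271250, nat_lit 1271250, nat_lit 1271250, nat_lit 1271250, nat_lit 88400, nat_lit 2136750, [nat_lit 490000, nat_lit 1100000, nat_lit 2470000], [nat_lit 75, nat_lit 40, nat_lit 40, nat_lit 80, nat_lit 65, nat_lit 289, nat_lit 75, nat_lit 7]⟩,
 ⟨nat_lit 0, nat_lit 2237, ⟨.ofNat (nat_lit 807594), .ofNat (nat_lit 910316), .ofNat (nat_lit 829507), .ofNat (nat_lit 933091), .ofNat (nat_lit 799902), .ofNat (nat_lit 889996), .ofNat (nat_lit 824041), .ofNat (nat_lit 914997)⟩, ⟨.ofNat (nat_lit 306334), .ofNat (nat_lit 374750), .ofNat (nat_lit 351885), .ofNat (nat_lit 420300), .ofNat (nat_lit 299996), .ofNat (nat_lit 359993), .ofNat (nat_lit 349998), .ofNat (nat_lit 409994)⟩⟩, [⟨nat_lit 16, nat_lit 32, nat_lit 100, nat_lit 88, nat_lit 542296126⟩, ⟨nat_lit 16, nat_lit 44, nat_lit 100, nat_lit 92, nat_lit 458437502⟩,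 ⟨nat_lit 19, nat_lit 81, nat_lit 100, nat_lit 92, nat_lit 111686841⟩]⟩
noncomputable def b_V_900_800_20_12 : St := ⟨true, nat_lit 0, nat_lit 2, nat_lit 0, nat_lit 120, nat_lit 360, nat_lit 400, nat_lit 320, nat_lit 340, nat_lit 200, nat_lit 400, nat_lit 80, nat_lit 120, nat_lit 8, nat_lit 248, nat_lit 0, nat_lit 300, nat_lit 120, nat_lit 160, nat_lit 0, nat_lit 0, nat_lit 0, nat_lit 0⟩
theorem d_V_900_800_20_12 (h : EB TB.env) : Dead b_V_900_800_20_12 := chkB_sound0 h (T :=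
(.gv
(.st (nat_lit 1)
(.leaf p129_l15)
(.spl (nat_lit 0) (nat_lit 380)
(.spl (nat_lit 3) (nat_lit 100)
(.trX (nat_lit 16) (nat_lit 60) (nat_lit 100) (nat_lit 87) (nat_lit 224) (.trX (nat_lit 19) (nat_lit 87) (nat_lit 100) (nat_lit 94) (nat_lit 280) (.spl (nat_lit 6) (nat_lit 152)
(.spl (nat_lit 0) (nat_lit 370)
(.leaf p129_l16)
(.trZ (nat_lit 0) (nat_lit 80) (nat_lit 53) (nat_lit 100) (nat_lit 216) (.trX (nat_lit 13) (nat_lit 74) (nat_lit 33) (nat_lit 100) (nat_lit 396) (.trZ (nat_lit 3) (nat_lit 100) (nat_lit 66) (nat_lit 45) (nat_lit 12) (.trX (nat_lit 16) (nat_lit 53) (nat_lit 100) (nat_lit 87) (nat_lit 208) (.leaf p129_l17))))))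
(.leaf p129_l18))))
(.trZ (nat_lit 3) (nat_lit 100) (nat_lit 69) (nat_lit 45) (nat_lit 16) (.spl (nat_lit 6) (nat_lit 152)
(.spl (nat_lit 5) (nat_lit 160)
(.leaf p129_l19)
(.spl (nat_lit 4) (nat_lit 160)
(.leaf p129_l20)
(.spl (nat_lit 0) (nat_lit 370)
(.leaf p129_l21)
(.trZ (nat_lit 0) (nat_lit 80) (nat_lit 53) (nat_lit 100) (nat_lit 216) (.trX (nat_lit 13) (nat_lit 74) (nat_lit 33) (nat_lit 100) (nat_lit 396) (.trX (nat_lit 16) (nat_lit 53) (nat_lit 100) (nat_lit 93) (nat_lit 232) (.leaf p129_l22)))))))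
(.leaf p129_l23))))
(.trZ (nat_lit 0) (nat_lit 82) (nat_lit 44) (nat_lit 100) (nat_lit 236) (.trX (nat_lit 13) (nat_lit 61) (nat_lit 47) (nat_lit 100) (nat_lit 392) (.trZ (nat_lit 3) (nat_lit 100) (nat_lit 54) (nat_lit 57) (nat_lit 20) (.trX (nat_lit 16) (nat_lit 44) (nat_lit 100) (nat_lit 92) (nat_lit 208) (.spl (nat_lit 3) (nat_lit 100)
(.trX (nat_lit 16) (nat_lit 44) (nat_lit 100) (nat_lit 87) (nat_lit 188) (.trX (nat_lit 19) (nat_lit 87) (nat_lit 100) (nat_lit 94) (nat_lit 280) (.leaf p129_l24)))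
(.trZ (nat_lit 3) (nat_lit 100) (nat_lit 50) (nat_lit 65) (nat_lit 32) (.spl (nat_lit 5) (nat_lit 160)
(.leaf p129_l25)
(.spl (nat_lit 0) (nat_lit 390)
(.leaf p129_l26)
(.trZ (nat_lit 0) (nat_lit 84) (nat_lit 33) (nat_lit 100) (nat_lit 264) (.trX (nat_lit 13) (nat_lit 44) (nat_lit 64) (nat_lit 100) (nat_lit 380) (.trZ (nat_lit 3) (nat_lit 100) (nat_lit 36) (nat_lit 77) (nat_lit 48) (.trX (nat_lit 16) (nat_lit 31) (nat_lit 100) (nat_lit 92) (nat_lit 184) (.leaf p129_l27)))))))))))))))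
(.st (nat_lit 1)
(.leaf p129_l28)
(.spl (nat_lit 4) (nat_lit 160)
(.spl (nat_lit 0) (nat_lit 380)
(.spl (nat_lit 3) (nat_lit 100)
(.trX (nat_lit 19) (nat_lit 87) (nat_lit 100) (nat_lit 94) (nat_lit 280) (.leaf p129_l29))
(.trZ (nat_lit 3) (nat_lit 100) (nat_lit 69) (nat_lit 45) (nat_lit 16) (.spl (nat_lit 6) (nat_lit 152)
(.leaf p129_l30)
(.leaf p129_l31))))
(.trZ (nat_lit 0) (nat_lit 82) (nat_lit 44) (nat_lit 100) (nat_lit 236) (.trX (nat_lit 13) (nat_lit 61) (nat_lit 47) (nat_lit 100) (nat_lit 392) (.trZ (nat_lit 3) (nat_lit 100) (nat_lit 54) (nat_lit 57) (nat_lit 20) (.spl (nat_lit 1) (nat_lit 330)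
(.trX (nat_lit 13) (nat_lit 57) (nat_lit 53) (nat_lit 100) (nat_lit 384) (.leaf p129_l32))
(.trZ (nat_lit 0) (nat_lit 79) (nat_lit 45) (nat_lit 100) (nat_lit 248) (.trX (nat_lit 19) (nat_lit 83) (nat_lit 98) (nat_lit 100) (nat_lit 288) (.leaf p129_l33))))))))
(.spl (nat_lit 2) (nat_lit 320)
(.leaf p129_l34)
(.trZ (nat_lit 9) (nat_lit 100) (nat_lit 82) (nat_lit 44) (nat_lit 16) (.spl (nat_lit 0) (nat_lit 380)
(.spl (nat_lit 0) (nat_lit 370)
(.leaf p129_l35)
(.trX (nat_lit 13) (nat_lit 74) (nat_lit 33) (nat_lit 100) (nat_lit 396) (.trX (nat_lit 16) (nat_lit 53) (nat_lit 100) (nat_lit 93) (nat_lit 232) (.leaf p129_l36))))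
(.trX (nat_lit 13) (nat_lit 61) (nat_lit 47) (nat_lit 100) (nat_lit 392) (.trX (nat_lit 16) (nat_lit 44) (nat_lit 100) (nat_lit 92) (nat_lit 208) (.leaf p129_l37)))))))))) (by decide +kernel)
noncomputable def p129_l38 : Lf2 := ⟨nat_lit 0, nat_lit 30, [nat_lit 15, nat_lit 5, nat_lit 5, nat_lit 20], false, nat_lit 8, nat_lit 248, nat_lit 0, nat_lit 160, ⟨nat_lit 1000, nat_lit 0, nat_lit 0, nat_lit 0, nat_lit 0, nat_lit 0, nat_lit 0, nat_lit 0, nat_lit 0, nat_lit 0, nat_lit 0, nat_lit 0, nat_lit 0, nat_lit 0, nat_lit 0, nat_lit 0, false, false⟩,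
 nat_lit 0, nat_lit 5189, nat_lit 0, nat_lit 0, nat_lit 4519, nat_lit 6430, nat_lit 524, nat_lit 0, nat_lit 0, nat_lit 221, nat_lit 0, nat_lit 0, nat_lit 0, nat_lit 0, nat_lit 0, nat_lit 0, nat_lit 0, nat_lit 0, [],
 ⟨p129_k0, nat_lit 0, nat_lit 0, nat_lit 457, nat_lit 0, nat_lit 585037, [nat_lit 938000000, nat_lit 3282000000, nat_lit 9842000000], [], [nat_lit 31931218192, nat_lit 33445444151, nat_lit 36768643159, nat_lit 38477917673, nat_lit 31139608045, nat_lit 32589461822, nat_lit 35804470769, nat_lit 37051832210], nat_lit 1271250, nat_lit 1271250, nat_lit 1271250, nat_lit 1271250, nat_lit 43600, nat_lit 1756600, [nat_lit 230000, nat_lit 780000, nat_lit 2090000], [nat_lit 93, nat_lit 40, nat_lit 40, nat_lit 80, nat_lit 63, nat_lit 401, nat_lit 175, nat_lit 11]⟩, ⟨p129_k1, nat_lit 0, nat_lit 0, nat_lit 234, nat_lit 0, nat_lit 0, [nat_lit 2032000000, nat_lit 4688000000, nat_lit 11872000000], [], [nat_lit 34783886695,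 nat_lit 36299395735, nat_lit 44283086535, nat_lit 45142718075, nat_lit 30526708975, nat_lit 31612226055, nat_lit 38072756815, nat_lit 38818353655], nat_lit 0, nat_lit 0, nat_lit 0, nat_lit 0, nat_lit 0, nat_lit 0, [], [nat_lit 75, nat_lit 40, nat_lit 40, nat_lit 80, nat_lit 65, nat_lit 373, nat_lit 150, nat_lit 9]⟩,
 zbF0, [⟨nat_lit 0, nat_lit 79, nat_lit 45, nat_lit 100, nat_lit 149290462⟩, ⟨nat_lit 4, nat_lit 100, nat_lit 44, nat_lit 87, nat_lit 366114295⟩]⟩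
noncomputable def p129_l39 : Lf2 := ⟨nat_lit 0, nat_lit 30, [nat_lit 15, nat_lit 5, nat_lit 5, nat_lit 20], false, nat_lit 8, nat_lit 248, nat_lit 160, nat_lit 300, ⟨nat_lit 1000, nat_lit 0, nat_lit 0, nat_lit 0, nat_lit 0, nat_lit 0, nat_lit 0, nat_lit 0, nat_lit 0, nat_lit 0, nat_lit 0, nat_lit 0, nat_lit 0, nat_lit 0, nat_lit 0, nat_lit 0, false, false⟩,
 nat_lit 0, nat_lit 6270, nat_lit 0, nat_lit 0, nat_lit 5460, nat_lit 12223, nat_lit 505, nat_lit 0, nat_lit 0, nat_lit 0, nat_lit 0, nat_lit 0, nat_lit 0, nat_lit 0, nat_lit 0, nat_lit 0, nat_lit 0, nat_lit 0, [],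
 ⟨p129_k0, nat_lit 0, nat_lit 0, nat_lit 395, nat_lit 0, nat_lit 435379, [nat_lit 938000000, nat_lit 3282000000, nat_lit 9842000000], [], [nat_lit 28848329444, nat_lit 29821001805, nat_lit 38650491544, nat_lit 40073060280, nat_lit 27013977868, nat_lit 27693438190, nat_lit 33945592841, nat_lit 35021605228], nat_lit 1271250, nat_lit 1271250, nat_lit 1271250, nat_lit 1271250, nat_lit 43600, nat_lit 1756600, [nat_lit 230000, nat_lit 780000, nat_lit 2090000], [nat_lit 93, nat_lit 40, nat_lit 40, nat_lit 80, nat_lit 63, nat_lit 401, nat_lit 175, nat_lit 11]⟩, ⟨p129_k1, nat_lit 0, nat_lit 0, nat_lit 100, nat_lit 0, nat_lit 0, [nat_lit 2032000000, nat_lit 4688000000, nat_lit 11872000000], [], [nat_lit 29308233260, nat_lit 31225509270, nat_lit 40188181884, nat_lit 41166587808, nat_lit 33008228659, nat_lit 34348863981, nat_lit 41508325614, nat_lit 42756927092], nat_lit 0, nat_lit 0, nat_lit 0, nat_lit 0, nat_lit 0, nat_lit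 0, [], [nat_lit 75, nat_lit 40, nat_lit 40, nat_lit 80, nat_lit 65, nat_lit 401, nat_lit 175, nat_lit 9]⟩,
 zbF0, [⟨nat_lit 4, nat_lit 100, nat_lit 53, nat_lit 87, nat_lit 140146651⟩, ⟨nat_lit 7, nat_lit 100, nat_lit 81, nat_lit 92, nat_lit 370999904⟩]⟩
noncomputable def p129_l40 : Lf2 := ⟨nat_lit 0, nat_lit 30, [nat_lit 15, nat_lit 5, nat_lit 5, nat_lit 20], false, nat_lit 20, nat_lit 208, nat_lit 160, nat_lit 300, ⟨nat_lit 1000, nat_lit 0, nat_lit 0, nat_lit 0, nat_lit 0, nat_lit 0, nat_lit 0, nat_lit 0, nat_lit 0, nat_lit 0, nat_lit 0, nat_lit 0, nat_lit 0, nat_lit 0, nat_lit 0, nat_lit 0, false, false⟩,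
 nat_lit 0, nat_lit 4147, nat_lit 0, nat_lit 0, nat_lit 3874, nat_lit 5472, nat_lit 406, nat_lit 0, nat_lit 0, nat_lit 0, nat_lit 0, nat_lit 0, nat_lit 0, nat_lit 0, nat_lit 0, nat_lit 0, nat_lit 0, nat_lit 0, [],
 ⟨p129_k3, nat_lit 0, nat_lit 0, nat_lit 382, nat_lit 0, nat_lit 531353, [nat_lit 938000000, nat_lit 3282000000, nat_lit 7968000000], [], [nat_lit 27184362094, nat_lit 28560968679, nat_lit 34220712251, nat_lit 35446543037, nat_lit 26914842450, nat_lit 27695236119, nat_lit 31924075421, nat_lit 32911751017], nat_lit 1271250, nat_lit 1271250, nat_lit 1271250, nat_lit 1271250, nat_lit 111251, nat_lit 1474250, [nat_lit 230000, nat_lit 780000, nat_lit 1762500], [nat_lit 54, nat_lit 40, nat_lit 40, nat_lit 80, nat_lit 43, nat_lit 373, nat_lit 150, nat_lit 11]⟩, ⟨p129_k1, nat_lit 0, nat_lit 0, nat_lit 79, nat_lit 0, nat_lit 0, [nat_lit 2032000000, nat_lit 4688000000, nat_lit 11872000000], [], [nat_lit 21204189572,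 nat_lit 22762203788, nat_lit 30356660096, nat_lit 31370850775, nat_lit 26259206613, nat_lit 27420048642, nat_lit 33123789138, nat_lit 34002247646], nat_lit 0, nat_lit 0, nat_lit 0, nat_lit 0, nat_lit 0, nat_lit 0, [], [nat_lit 75, nat_lit 40, nat_lit 40, nat_lit 80, nat_lit 65, nat_lit 401, nat_lit 175, nat_lit 9]⟩,
 zbF0, [⟨nat_lit 4, nat_lit 100, nat_lit 32, nat_lit 88, nat_lit 339610754⟩, ⟨nat_lit 19, nat_lit 87, nat_lit 95, nat_lit 100, nat_lit 366060423⟩]⟩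
noncomputable def p129_l41 : Lf2 := ⟨nat_lit 0, nat_lit 30, [nat_lit 15, nat_lit 5, nat_lit 5, nat_lit 20], false, nat_lit 8, nat_lit 160, nat_lit 0, nat_lit 300, ⟨nat_lit 1000, nat_lit 0, nat_lit 0, nat_lit 0, nat_lit 0, nat_lit 0, nat_lit 0, nat_lit 0, nat_lit 0, nat_lit 0, nat_lit 0, nat_lit 0, nat_lit 0, nat_lit 0, nat_lit 0, nat_lit 0, false, false⟩,
 nat_lit 8213, nat_lit 0, nat_lit 0, nat_lit 0, nat_lit 5817, nat_lit 6159, nat_lit 528, nat_lit 0, nat_lit 0, nat_lit 601, nat_lit 0, nat_lit 0, nat_lit 0, nat_lit 0, nat_lit 0, nat_lit 0, nat_lit 0, nat_lit 0, [],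
 ⟨p129_k0, nat_lit 0, nat_lit 0, nat_lit 322, nat_lit 0, nat_lit 270720, [nat_lit 938000000, nat_lit 3282000000, nat_lit 9842000000], [], [nat_lit 27770239829, nat_lit 29260468498, nat_lit 39695522079, nat_lit 41168010696, nat_lit 24168430908, nat_lit 25160362866, nat_lit 33550660120, nat_lit 34845647322], nat_lit 1271250, nat_lit 1271250, nat_lit 1271250, nat_lit 1271250, nat_lit 43600, nat_lit 1100001, [nat_lit 230000, nat_lit 780000, nat_lit 2090000], [nat_lit 93, nat_lit 40, nat_lit 40, nat_lit 80, nat_lit 63, nat_lit 373, nat_lit 150, nat_lit 10]⟩, ⟨p129_k1, nat_lit 0, nat_lit 0, nat_lit 381, nat_lit 0, nat_lit 328532, [nat_lit 2032000000, nat_lit 4688000000, nat_lit 11872000000], [], [nat_lit 33305692782, nat_lit 34060500118, nat_lit 38895932883, nat_lit 39880725816, nat_lit 30835500257, nat_lit 31084015168, nat_lit 34412123662, nat_lit 35305723420], nat_lit 1271250, nat_lit 1271250, nat_lit 1271250, nat_lit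 1271250, nat_lit 0, nat_lit 2118750, [nat_lit 490000, nat_lit 1100000, nat_lit 2470000], [nat_lit 75, nat_lit 40, nat_lit 40, nat_lit 80, nat_lit 65, nat_lit 401, nat_lit 175, nat_lit 10]⟩,
 zbF0, [⟨nat_lit 7, nat_lit 100, nat_lit 81, nat_lit 92, nat_lit 140044120⟩]⟩
noncomputable def p129_l42 : Lf2 := ⟨nat_lit 0, nat_lit 30, [nat_lit 15, nat_lit 5, nat_lit 5, nat_lit 20], false, nat_lit 20, nat_lit 160, nat_lit 0, nat_lit 300, ⟨nat_lit 1000, nat_lit 0, nat_lit 0, nat_lit 0, nat_lit 0, nat_lit 0, nat_lit 0, nat_lit 0, nat_lit 0, nat_lit 0, nat_lit 0, nat_lit 0, nat_lit 0, nat_lit 0, nat_lit 0, nat_lit 0, false, false⟩,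
 nat_lit 7787, nat_lit 0, nat_lit 0, nat_lit 0, nat_lit 3791, nat_lit 5840, nat_lit 409, nat_lit 0, nat_lit 0, nat_lit 653, nat_lit 0, nat_lit 0, nat_lit 0, nat_lit 0, nat_lit 0, nat_lit 0, nat_lit 0, nat_lit 0, [],
 ⟨p129_k3, nat_lit 0, nat_lit 0, nat_lit 298, nat_lit 0, nat_lit 332771, [nat_lit 938000000, nat_lit 3282000000, nat_lit 7968000000], [], [nat_lit 27095452440, nat_lit 28457177445, nat_lit 33984662393, nat_lit 35198448683, nat_lit 25871981094, nat_lit 26893217034, nat_lit 31441518449, nat_lit 32285798194], nat_lit 1271250, nat_lit 1271250, nat_lit 1271250, nat_lit 1271250, nat_lit 111251, nat_lit 1100001, [nat_lit 230000, nat_lit 780000, nat_lit 1762500], [nat_lit 54, nat_lit 40, nat_lit 40, nat_lit 80, nat_lit 43, nat_lit 373, nat_lit 150, nat_lit 11]⟩, ⟨p129_k1, nat_lit 0, nat_lit 0, nat_lit 428, nat_lit 0, nat_lit 441462, [nat_lit 2032000000, nat_lit 4688000000, nat_lit 11872000000], [], [nat_lit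 32873788239, nat_lit 33563834750, nat_lit 37346711655, nat_lit 38224326977, nat_lit 30306774166, nat_lit 30828080629, nat_lit 33867699065, nat_lit 34440675984], nat_lit 1271250, nat_lit 1271250, nat_lit 1271250, nat_lit 1271250, nat_lit 0, nat_lit 2118750, [nat_lit 490000, nat_lit 1100000, nat_lit 2470000], [nat_lit 75, nat_lit 40, nat_lit 40, nat_lit 80, nat_lit 65, nat_lit 401, nat_lit 175, nat_lit 10]⟩,
 zbF0, [⟨nat_lit 0, nat_lit 82, nat_lit 34, nat_lit 100, nat_lit 329484362⟩, ⟨nat_lit 4, nat_lit 100, nat_lit 32, nat_lit 88, nat_lit 168108269⟩, ⟨nat_lit 7, nat_lit 100, nat_lit 81, nat_lit 92, nat_lit 157713101⟩]⟩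
noncomputable def p129_l43 : Lf2 := ⟨nat_lit 0, nat_lit 30, [nat_lit 15, nat_lit 5, nat_lit 5, nat_lit 20], false, nat_lit 160, nat_lit 248, nat_lit 0, nat_lit 300, ⟨nat_lit 1000, nat_lit 0, nat_lit 0, nat_lit 0, nat_lit 0, nat_lit 0, nat_lit 0, nat_lit 0, nat_lit 0, nat_lit 0, nat_lit 0, nat_lit 0, nat_lit 0, nat_lit 0, nat_lit 0, nat_lit 0, false, false⟩,
 nat_lit 10028, nat_lit 0, nat_lit 0, nat_lit 0, nat_lit 6680, nat_lit 7521, nat_lit 269, nat_lit 0, nat_lit 0, nat_lit 472, nat_lit 0, nat_lit 0, nat_lit 0, nat_lit 0, nat_lit 0, nat_lit 0, nat_lit 0, nat_lit 0, [],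
 ⟨p129_k10, nat_lit 0, nat_lit 0, nat_lit 211, nat_lit 0, nat_lit 270720, [nat_lit 938000000, nat_lit 4688000000, nat_lit 9842000000], [], [nat_lit 27379279840, nat_lit 28713936160, nat_lit 35249544800, nat_lit 36207909920, nat_lit 28740996368, nat_lit 30084436041, nat_lit 35493375121, nat_lit 36682625224], nat_lit 1271250, nat_lit 1271250, nat_lit 1271250, nat_lit 1271250, nat_lit 1100001, nat_lit 1853500, [nat_lit 230000, nat_lit 1100000, nat_lit 2127500], [nat_lit 81, nat_lit 40, nat_lit 40, nat_lit 80, nat_lit 13, nat_lit 401, nat_lit 175, nat_lit 10]⟩, ⟨p129_k11, nat_lit 0, nat_lit 0, nat_lit 387, nat_lit 0, nat_lit 328532, [nat_lit 2032000000, nat_lit 6250000000, nat_lit 11872000000], [], [nat_lit 34971261044, nat_lit 35737087226, nat_lit 42315850876, nat_lit 43852350504, nat_lit 30323547294, nat_lit 30773433050, nat_lit 36005960578, nat_lit 36979295221], nat_lit 1271250, nat_lit 1271250, nat_lit 1271250,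 nat_lit 1271250, nat_lit 0, nat_lit 2118750, [nat_lit 490000, nat_lit 1427500, nat_lit 1271250], [nat_lit 72, nat_lit 40, nat_lit 40, nat_lit 80, nat_lit 12, nat_lit 401, nat_lit 175, nat_lit 10]⟩,
 zbF0, [⟨nat_lit 0, nat_lit 75, nat_lit 46, nat_lit 100, nat_lit 146583017⟩, ⟨nat_lit 16, nat_lit 53, nat_lit 100, nat_lit 87, nat_lit 617751728⟩, ⟨nat_lit 19, nat_lit 81, nat_lit 100, nat_lit 92, nat_lit 88662659⟩]⟩
noncomputable def p129_l44 : Lf2 := ⟨nat_lit 0, nat_lit 30, [nat_lit 15, nat_lit 5, nat_lit 5, nat_lit 20], false, nat_lit 160, nat_lit 208, nat_lit 0, nat_lit 300, ⟨nat_lit 1000, nat_lit 0, nat_lit 0, nat_lit 0, nat_lit 0, nat_lit 0, nat_lit 0, nat_lit 0, nat_lit 0, nat_lit 0, nat_lit 0, nat_lit 0, nat_lit 0, nat_lit 0, nat_lit 0, nat_lit 0, false, false⟩,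
 nat_lit 8642, nat_lit 0, nat_lit 0, nat_lit 0, nat_lit 5399, nat_lit 6481, nat_lit 241, nat_lit 0, nat_lit 0, nat_lit 643, nat_lit 0, nat_lit 0, nat_lit 0, nat_lit 0, nat_lit 0, nat_lit 0, nat_lit 0, nat_lit 0, [],
 ⟨p129_k3, nat_lit 0, nat_lit 0, nat_lit 232, nat_lit 0, nat_lit 332771, [nat_lit 938000000, nat_lit 3282000000, nat_lit 7968000000], [], [nat_lit 27416329102, nat_lit 28839488773, nat_lit 33855157961, nat_lit 34934189631, nat_lit 28198846180, nat_lit 29510692261, nat_lit 34097401454, nat_lit 35214292153], nat_lit 1271250, nat_lit 1271250, nat_lit 1271250, nat_lit 1271250, nat_lit 1100001, nat_lit 1511000, [nat_lit 230000, nat_lit 780000, nat_lit 1762500], [nat_lit 54, nat_lit 40, nat_lit 40, nat_lit 80, nat_lit 43, nat_lit 373, nat_lit 150, nat_lit 11]⟩, ⟨p129_k1, nat_lit 0, nat_lit 0, nat_lit 428, nat_lit 0, nat_lit 441462, [nat_lit 2032000000, nat_lit 4688000000, nat_lit 11872000000], [], [nat_lit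 32267832300, nat_lit 33109103717, nat_lit 38582671489, nat_lit 40045418489, nat_lit 28680870582, nat_lit 29209680732, nat_lit 34259020890, nat_lit 35200253324], nat_lit 1271250, nat_lit 1271250, nat_lit 1271250, nat_lit 1271250, nat_lit 0, nat_lit 2118750, [nat_lit 490000, nat_lit 1100000, nat_lit 2470000], [nat_lit 75, nat_lit 40, nat_lit 40, nat_lit 80, nat_lit 65, nat_lit 401, nat_lit 175, nat_lit 10]⟩,
 zbF0, [⟨nat_lit 4, nat_lit 100, nat_lit 32, nat_lit 88, nat_lit 865988997⟩, ⟨nat_lit 7, nat_lit 100, nat_lit 81, nat_lit 92, nat_lit 134014210⟩]⟩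
noncomputable def p129_l45 : Lf2 := ⟨nat_lit 0, nat_lit 30, [nat_lit 15, nat_lit 5, nat_lit 5, nat_lit 20], false, nat_lit 8, nat_lit 248, nat_lit 0, nat_lit 160, ⟨nat_lit 1000, nat_lit 0, nat_lit 0, nat_lit 0, nat_lit 0, nat_lit 0, nat_lit 0, nat_lit 0, nat_lit 0, nat_lit 0, nat_lit 0, nat_lit 0, nat_lit 0, nat_lit 0, nat_lit 0, nat_lit 0, false, false⟩,
 nat_lit 0, nat_lit 5189, nat_lit 0, nat_lit 0, nat_lit 4519, nat_lit 6430, nat_lit 524, nat_lit 0, nat_lit 0, nat_lit 221, nat_lit 0, nat_lit 0, nat_lit 0, nat_lit 0, nat_lit 0, nat_lit 0, nat_lit 0, nat_lit 0, [],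
 ⟨p129_k0, nat_lit 0, nat_lit 0, nat_lit 457, nat_lit 0, nat_lit 585037, [nat_lit 938000000, nat_lit 3282000000, nat_lit 9842000000], [], [nat_lit 31931218192, nat_lit 33445444151, nat_lit 36768643159, nat_lit 38477917673, nat_lit 31139608045, nat_lit 32589461822, nat_lit 35804470769, nat_lit 37051832210], nat_lit 1271250, nat_lit 1271250, nat_lit 1271250, nat_lit 1271250, nat_lit 43600, nat_lit 1756600, [nat_lit 230000, nat_lit 780000, nat_lit 2090000], [nat_lit 93, nat_lit 40, nat_lit 40, nat_lit 80, nat_lit 63, nat_lit 401, nat_lit 175, nat_lit 11]⟩, ⟨p129_k1, nat_lit 0, nat_lit 0, nat_lit 234, nat_lit 0, nat_lit 0, [nat_lit 2032000000, nat_lit 4688000000, nat_lit 11872000000], [], [nat_lit 34783886695, nat_lit 36299395735, nat_lit 44283086535, nat_lit 45142718075, nat_lit 30526708975, nat_lit 31612226055, nat_lit 38072756815, nat_lit 38818353655], nat_lit 0, nat_lit 0, nat_lit 0, nat_lit 0, nat_lit 0, nat_lit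 0, [], [nat_lit 75, nat_lit 40, nat_lit 40, nat_lit 80, nat_lit 65, nat_lit 373, nat_lit 150, nat_lit 9]⟩,
 zbF0, [⟨nat_lit 0, nat_lit 79, nat_lit 45, nat_lit 100, nat_lit 149290462⟩, ⟨nat_lit 16, nat_lit 44, nat_lit 100, nat_lit 87, nat_lit 366114295⟩]⟩
noncomputable def p129_l46 : Lf2 := ⟨nat_lit 0, nat_lit 30, [nat_lit 15, nat_lit 5, nat_lit 5, nat_lit 20], false, nat_lit 8, nat_lit 248, nat_lit 160, nat_lit 300, ⟨nat_lit 1000, nat_lit 0, nat_lit 0, nat_lit 0, nat_lit 0, nat_lit 0, nat_lit 0, nat_lit 0, nat_lit 0, nat_lit 0, nat_lit 0, nat_lit 0, nat_lit 0, nat_lit 0, nat_lit 0, nat_lit 0, false, false⟩,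
 nat_lit 0, nat_lit 6270, nat_lit 0, nat_lit 0, nat_lit 5460, nat_lit 12223, nat_lit 505, nat_lit 0, nat_lit 0, nat_lit 0, nat_lit 0, nat_lit 0, nat_lit 0, nat_lit 0, nat_lit 0, nat_lit 0, nat_lit 0, nat_lit 0, [],
 ⟨p129_k0, nat_lit 0, nat_lit 0, nat_lit 395, nat_lit 0, nat_lit 435379, [nat_lit 938000000, nat_lit 3282000000, nat_lit 9842000000], [], [nat_lit 28848329444, nat_lit 29821001805, nat_lit 38650491544, nat_lit 40073060280, nat_lit 27013977868, nat_lit 27693438190, nat_lit 33945592841, nat_lit 35021605228], nat_lit 1271250, nat_lit 1271250, nat_lit 1271250, nat_lit 1271250, nat_lit 43600, nat_lit 1756600, [nat_lit 230000, nat_lit 780000, nat_lit 2090000], [nat_lit 93, nat_lit 40, nat_lit 40, nat_lit 80, nat_lit 63, nat_lit 401, nat_lit 175, nat_lit 11]⟩, ⟨p129_k1, nat_lit 0, nat_lit 0, nat_lit 100, nat_lit 0, nat_lit 0, [nat_lit 2032000000, nat_lit 4688000000, nat_lit 11872000000], [], [nat_lit 29308233260,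 nat_lit 31225509270, nat_lit 40188181884, nat_lit 41166587808, nat_lit 33008228659, nat_lit 34348863981, nat_lit 41508325614, nat_lit 42756927092], nat_lit 0, nat_lit 0, nat_lit 0, nat_lit 0, nat_lit 0, nat_lit 0, [], [nat_lit 75, nat_lit 40, nat_lit 40, nat_lit 80, nat_lit 65, nat_lit 401, nat_lit 175, nat_lit 9]⟩,
 zbF0, [⟨nat_lit 16, nat_lit 53, nat_lit 100, nat_lit 87, nat_lit 140146651⟩, ⟨nat_lit 7, nat_lit 100, nat_lit 81, nat_lit 92, nat_lit 370999904⟩]⟩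
noncomputable def p129_l47 : Lf2 := ⟨nat_lit 0, nat_lit 30, [nat_lit 15, nat_lit 5, nat_lit 5, nat_lit 20], false, nat_lit 20, nat_lit 208, nat_lit 160, nat_lit 300, ⟨nat_lit 1000, nat_lit 0, nat_lit 0, nat_lit 0, nat_lit 0, nat_lit 0, nat_lit 0, nat_lit 0, nat_lit 0, nat_lit 0, nat_lit 0, nat_lit 0, nat_lit 0, nat_lit 0, nat_lit 0, nat_lit 0, false, false⟩,
 nat_lit 0, nat_lit 4147, nat_lit 0, nat_lit 0, nat_lit 3874, nat_lit 5472, nat_lit 406, nat_lit 0, nat_lit 0, nat_lit 0, nat_lit 0, nat_lit 0, nat_lit 0, nat_lit 0, nat_lit 0, nat_lit 0, nat_lit 0, nat_lit 0, [],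
 ⟨p129_k3, nat_lit 0, nat_lit 0, nat_lit 382, nat_lit 0, nat_lit 531353, [nat_lit 938000000, nat_lit 3282000000, nat_lit 7968000000], [], [nat_lit 27184362094, nat_lit 28560968679, nat_lit 34220712251, nat_lit 35446543037, nat_lit 26914842450, nat_lit 27695236119, nat_lit 31924075421, nat_lit 32911751017], nat_lit 1271250, nat_lit 1271250, nat_lit 1271250, nat_lit 1271250, nat_lit 111251, nat_lit 1474250, [nat_lit 230000, nat_lit 780000, nat_lit 1762500], [nat_lit 54, nat_lit 40, nat_lit 40, nat_lit 80, nat_lit 43, nat_lit 373, nat_lit 150, nat_lit 11]⟩, ⟨p129_k1, nat_lit 0, nat_lit 0, nat_lit 79, nat_lit 0, nat_lit 0, [nat_lit 2032000000, nat_lit 4688000000, nat_lit 11872000000], [], [nat_lit 21204189572, nat_lit 22762203788, nat_lit 30356660096, nat_lit 31370850775, nat_lit 26259206613, nat_lit 27420048642, nat_lit 33123789138, nat_lit 34002247646], nat_lit 0, nat_lit 0, nat_lit 0, nat_lit 0, nat_lit 0, nat_lit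 0, [], [nat_lit 75, nat_lit 40, nat_lit 40, nat_lit 80, nat_lit 65, nat_lit 401, nat_lit 175, nat_lit 9]⟩,
 zbF0, [⟨nat_lit 4, nat_lit 100, nat_lit 32, nat_lit 88, nat_lit 339610754⟩, ⟨nat_lit 19, nat_lit 87, nat_lit 95, nat_lit 100, nat_lit 366060423⟩]⟩
noncomputable def p129_l48 : Lf2 := ⟨nat_lit 0, nat_lit 30, [nat_lit 15, nat_lit 5, nat_lit 5, nat_lit 20], false, nat_lit 8, nat_lit 248, nat_lit 0, nat_lit 300, ⟨nat_lit 609, nat_lit 391, nat_lit 0, nat_lit 8, nat_lit 294, nat_lit 391, nat_lit 96, nat_lit 0, nat_lit 0, nat_lit 0, nat_lit 0, nat_lit 0, nat_lit 0, nat_lit 0, nat_lit 0, nat_lit 5000000, true, false⟩,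
 nat_lit 6155, nat_lit 0, nat_lit 0, nat_lit 0, nat_lit 5360, nat_lit 4616, nat_lit 342, nat_lit 0, nat_lit 0, nat_lit 341, nat_lit 0, nat_lit 0, nat_lit 0, nat_lit 0, nat_lit 0, nat_lit 97750, nat_lit 0, nat_lit 0, [(nat_lit 26, [(nat_lit 0, nat_lit 391)])],
 ⟨p129_k0, nat_lit 0, nat_lit 0, nat_lit 314, nat_lit 0, nat_lit 270720, [nat_lit 870591600, nat_lit 2558650000, nat_lit 7068246000], [], [nat_lit 28183701705, nat_lit 29293171065, nat_lit 32159331648, nat_lit 33981775185, nat_lit 25995265864, nat_lit 26883803181, nat_lit 29207681040, nat_lit 30554240368], nat_lit 1271250, nat_lit 1271250, nat_lit 1271250, nat_lit 1271250, nat_lit 43600, nat_lit 1756600, [nat_lit 230000, nat_lit 780000, nat_lit 2090000], [nat_lit 93, nat_lit 40, nat_lit 40, nat_lit 80, nat_lit 63, nat_lit 373, nat_lit 150, nat_lit 10]⟩, ⟨p129_k1, nat_lit 0, nat_lit 0, nat_lit 379, nat_lit 0, nat_lit 328532, [nat_lit 1237488000, nat_lit 2854992000,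 nat_lit 7230048000], [], [nat_lit 20341140494, nat_lit 20933316116, nat_lit 21880107551, nat_lit 22629123623, nat_lit 17887321251, nat_lit 17833881598, nat_lit 18857173409, nat_lit 19410082438], nat_lit 1271250, nat_lit 1271250, nat_lit 1271250, nat_lit 1271250, nat_lit 0, nat_lit 2118750, [nat_lit 490000, nat_lit 1100000, nat_lit 2470000], [nat_lit 75, nat_lit 40, nat_lit 40, nat_lit 80, nat_lit 65, nat_lit 401, nat_lit 175, nat_lit 10]⟩,
 ⟨nat_lit 2236, nat_lit 3163, ⟨.ofNat (nat_lit 632548), .ofNat (nat_lit 815720), .ofNat (nat_lit 654639), .ofNat (nat_lit 837812), .ofNat (nat_lit 636264), .ofNat (nat_lit 807623), .ofNat (nat_lit 658975), .ofNat (nat_lit 830334)⟩, ⟨.ofNat (nat_lit 20000), .ofNat (nat_lit 440213), .ofNat (nat_lit 20000), .ofNat (nat_lit 484523), .ofNat (nat_lit 20000), .ofNat (nat_lit 431772), .ofNat (nat_lit 20000), .ofNat (nat_lit 477320)⟩⟩, [⟨nat_lit 0, nat_lit 77, nat_lit 53, nat_lit 100,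 nat_lit 47564892⟩, ⟨nat_lit 4, nat_lit 100, nat_lit 53, nat_lit 87, nat_lit 120002553⟩, ⟨nat_lit 7, nat_lit 100, nat_lit 81, nat_lit 92, nat_lit 75555431⟩]⟩
noncomputable def p129_l49 : Lf2 := ⟨nat_lit 0, nat_lit 30, [nat_lit 15, nat_lit 5, nat_lit 5, nat_lit 20], false, nat_lit 20, nat_lit 208, nat_lit 0, nat_lit 300, ⟨nat_lit 1000, nat_lit 0, nat_lit 0, nat_lit 0, nat_lit 0, nat_lit 0, nat_lit 0, nat_lit 0, nat_lit 0, nat_lit 0, nat_lit 0, nat_lit 0, nat_lit 0, nat_lit 0, nat_lit 0, nat_lit 0, false, false⟩,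
 nat_lit 8743, nat_lit 0, nat_lit 0, nat_lit 0, nat_lit 4216, nat_lit 6556, nat_lit 375, nat_lit 0, nat_lit 0, nat_lit 656, nat_lit 0, nat_lit 0, nat_lit 0, nat_lit 0, nat_lit 0, nat_lit 0, nat_lit 0, nat_lit 0, [],
 ⟨p129_k3, nat_lit 0, nat_lit 0, nat_lit 288, nat_lit 0, nat_lit 332771, [nat_lit 938000000, nat_lit 3282000000, nat_lit 7968000000], [], [nat_lit 27823126836, nat_lit 29261052705, nat_lit 31013890661, nat_lit 32210541833, nat_lit 26854316133, nat_lit 28010650192, nat_lit 29446006750, nat_lit 30419644107], nat_lit 1271250, nat_lit 1271250, nat_lit 1271250, nat_lit 1271250, nat_lit 111251, nat_lit 1474250, [nat_lit 230000, nat_lit 780000, nat_lit 1762500], [nat_lit 54, nat_lit 40, nat_lit 40, nat_lit 80, nat_lit 43, nat_lit 373, nat_lit 150, nat_lit 11]⟩, ⟨p129_k1, nat_lit 0, nat_lit 0, nat_lit 427, nat_lit 0, nat_lit 441462, [nat_lit 2032000000, nat_lit 4688000000, nat_lit 11872000000], [], [nat_lit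 31876622170, nat_lit 32721840492, nat_lit 33900544896, nat_lit 34962008584, nat_lit 28194079289, nat_lit 28993853445, nat_lit 30278953700, nat_lit 31002582398], nat_lit 1271250, nat_lit 1271250, nat_lit 1271250, nat_lit 1271250, nat_lit 0, nat_lit 2118750, [nat_lit 490000, nat_lit 1100000, nat_lit 2470000], [nat_lit 75, nat_lit 40, nat_lit 40, nat_lit 80, nat_lit 65, nat_lit 401, nat_lit 175, nat_lit 10]⟩,
 zbF0, [⟨nat_lit 0, nat_lit 82, nat_lit 34, nat_lit 100, nat_lit 467578279⟩, ⟨nat_lit 4, nat_lit 100, nat_lit 32, nat_lit 88, nat_lit 409949566⟩, ⟨nat_lit 7, nat_lit 100, nat_lit 81, nat_lit 92, nat_lit 153735338⟩]⟩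
noncomputable def p129_l50 : Lf2 := ⟨nat_lit 0, nat_lit 30, [nat_lit 15, nat_lit 5, nat_lit 5, nat_lit 20], false, nat_lit 8, nat_lit 248, nat_lit 0, nat_lit 300, ⟨nat_lit 1000, nat_lit 0, nat_lit 0, nat_lit 0, nat_lit 0, nat_lit 0, nat_lit 0, nat_lit 0, nat_lit 0, nat_lit 0, nat_lit 0, nat_lit 0, nat_lit 0, nat_lit 0, nat_lit 0, nat_lit 0, false, false⟩,
 nat_lit 8127, nat_lit 0, nat_lit 0, nat_lit 0, nat_lit 5341, nat_lit 6094, nat_lit 417, nat_lit 0, nat_lit 0, nat_lit 599, nat_lit 0, nat_lit 0, nat_lit 0, nat_lit 0, nat_lit 0, nat_lit 0, nat_lit 0, nat_lit 0, [],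
 ⟨p129_k0, nat_lit 0, nat_lit 0, nat_lit 322, nat_lit 0, nat_lit 270720, [nat_lit 938000000, nat_lit 3282000000, nat_lit 9842000000], [], [nat_lit 34289114095, nat_lit 35156999989, nat_lit 38302148033, nat_lit 39708076808, nat_lit 31321710266, nat_lit 31910346665, nat_lit 33794620634, nat_lit 34859587704], nat_lit 1271250, nat_lit 1271250, nat_lit 1271250, nat_lit 1271250, nat_lit 43600, nat_lit 1756600, [nat_lit 230000, nat_lit 780000, nat_lit 2090000], [nat_lit 93, nat_lit 40, nat_lit 40, nat_lit 80, nat_lit 63, nat_lit 289, nat_lit 75, nat_lit 7]⟩, ⟨p129_k1, nat_lit 0, nat_lit 0, nat_lit 381, nat_lit 0, nat_lit 328532, [nat_lit 2032000000, nat_lit 4688000000, nat_lit 11872000000], [], [nat_lit 35685593754, nat_lit 36352231950, nat_lit 38845244853, nat_lit 39691184256, nat_lit 31895184408, nat_lit 32252353327, nat_lit 34336059492, nat_lit 35225853987], nat_lit 1271250, nat_lit 1271250, nat_lit 1271250, nat_lit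 1271250, nat_lit 0, nat_lit 2118750, [nat_lit 490000, nat_lit 1100000, nat_lit 2470000], [nat_lit 75, nat_lit 40, nat_lit 40, nat_lit 80, nat_lit 65, nat_lit 289, nat_lit 75, nat_lit 7]⟩,
 zbF0, [⟨nat_lit 4, nat_lit 100, nat_lit 53, nat_lit 87, nat_lit 149388318⟩, ⟨nat_lit 7, nat_lit 100, nat_lit 81, nat_lit 92, nat_lit 142480229⟩]⟩
noncomputable def p129_l51 : Lf2 := ⟨nat_lit 0, nat_lit 30, [nat_lit 15, nat_lit 5, nat_lit 5, nat_lit 20], false, nat_lit 20, nat_lit 208, nat_lit 0, nat_lit 300, ⟨nat_lit 1000, nat_lit 0, nat_lit 0, nat_lit 0, nat_lit 0, nat_lit 0, nat_lit 0, nat_lit 0, nat_lit 0, nat_lit 0, nat_lit 0, nat_lit 0, nat_lit 0, nat_lit 0, nat_lit 0, nat_lit 0, false, false⟩,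
 nat_lit 3904, nat_lit 0, nat_lit 3948, nat_lit 0, nat_lit 3647, nat_lit 5889, nat_lit 379, nat_lit 0, nat_lit 0, nat_lit 633, nat_lit 0, nat_lit 0, nat_lit 0, nat_lit 0, nat_lit 0, nat_lit 0, nat_lit 0, nat_lit 0, [],
 ⟨p129_k3, nat_lit 0, nat_lit 0, nat_lit 298, nat_lit 0, nat_lit 332771, [nat_lit 938000000, nat_lit 3282000000, nat_lit 7968000000], [], [nat_lit 30525394462, nat_lit 31644723086, nat_lit 33841957645, nat_lit 34774176921, nat_lit 29804140136, nat_lit 30534709036, nat_lit 32354161706, nat_lit 33128467541], nat_lit 1271250, nat_lit 1271250, nat_lit 1271250, nat_lit 1271250, nat_lit 111251, nat_lit 1474250, [nat_lit 230000, nat_lit 780000, nat_lit 1762500], [nat_lit 54, nat_lit 40, nat_lit 40, nat_lit 80, nat_lit 43, nat_lit 272, nat_lit 60, nat_lit 8]⟩, ⟨p129_k1, nat_lit 0, nat_lit 0, nat_lit 428, nat_lit 0, nat_lit 441462, [nat_lit 2032000000, nat_lit 4688000000, nat_lit 11872000000], [], [nat_lit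 35025501550, nat_lit 35590916862, nat_lit 37669534583, nat_lit 38526062911, nat_lit 31862407089, nat_lit 32367983312, nat_lit 33804917715, nat_lit 34497360003], nat_lit 1271250, nat_lit 1271250, nat_lit 1271250, nat_lit 1271250, nat_lit 0, nat_lit 2118750, [nat_lit 490000, nat_lit 1100000, nat_lit 2470000], [nat_lit 75, nat_lit 40, nat_lit 40, nat_lit 80, nat_lit 65, nat_lit 289, nat_lit 75, nat_lit 7]⟩,
 zbF0, [⟨nat_lit 4, nat_lit 100, nat_lit 32, nat_lit 88, nat_lit 473726100⟩, ⟨nat_lit 19, nat_lit 81, nat_lit 100, nat_lit 92, nat_lit 152211966⟩]⟩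
noncomputable def b_V_900_800_20_13 : St := ⟨true, nat_lit 1, nat_lit 2, nat_lit 0, nat_lit 120, nat_lit 360, nat_lit 400, nat_lit 320, nat_lit 340, nat_lit 200, nat_lit 400, nat_lit 80, nat_lit 120, nat_lit 8, nat_lit 248, nat_lit 0, nat_lit 300, nat_lit 120, nat_lit 160, nat_lit 0, nat_lit 0, nat_lit 0, nat_lit 0⟩
theorem d_V_900_800_20_13 (h : EB TB.env) : Dead b_V_900_800_20_13 := chkB_sound0 h (T :=
(.gv
(.st (nat_lit 1)
(.spl (nat_lit 5) (nat_lit 160)
(.leaf p129_l38)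
(.spl (nat_lit 0) (nat_lit 380)
(.leaf p129_l39)
(.trZ (nat_lit 0) (nat_lit 82) (nat_lit 44) (nat_lit 100) (nat_lit 236) (.trX (nat_lit 13) (nat_lit 61) (nat_lit 47) (nat_lit 100) (nat_lit 392) (.trZ (nat_lit 3) (nat_lit 100) (nat_lit 54) (nat_lit 57) (nat_lit 20) (.trX (nat_lit 16) (nat_lit 44) (nat_lit 100) (nat_lit 92) (nat_lit 208) (.leaf p129_l40)))))))
(.spl (nat_lit 4) (nat_lit 160)
(.spl (nat_lit 0) (nat_lit 380)
(.leaf p129_l41)
(.trZ (nat_lit 0) (nat_lit 82) (nat_lit 44) (nat_lit 100) (nat_lit 236) (.trX (nat_lit 13) (nat_lit 61) (nat_lit 47) (nat_lit 100) (nat_lit 392) (.trZ (nat_lit 3) (nat_lit 100) (nat_lit 54) (nat_lit 57) (nat_lit 20) (.leaf p129_l42)))))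
(.spl (nat_lit 0) (nat_lit 380)
(.leaf p129_l43)
(.trZ (nat_lit 0) (nat_lit 82) (nat_lit 44) (nat_lit 100) (nat_lit 236) (.trX (nat_lit 13) (nat_lit 61) (nat_lit 47) (nat_lit 100) (nat_lit 392) (.trX (nat_lit 16) (nat_lit 44) (nat_lit 100) (nat_lit 92) (nat_lit 208) (.leaf p129_l44)))))))
(.st (nat_lit 1)
(.spl (nat_lit 5) (nat_lit 160)
(.leaf p129_l45)
(.spl (nat_lit 0) (nat_lit 380)
(.leaf p129_l46)
(.trZ (nat_lit 0) (nat_lit 82) (nat_lit 44) (nat_lit 100) (nat_lit 236) (.trX (nat_lit 13) (nat_lit 61) (nat_lit 47) (nat_lit 100) (nat_lit 392) (.trZ (nat_lit 3) (nat_lit 100) (nat_lit 54) (nat_lit 57) (nat_lit 20) (.trX (nat_lit 16) (nat_lit 44) (nat_lit 100) (nat_lit 92) (nat_lit 208) (.leaf p129_l47)))))))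
(.spl (nat_lit 2) (nat_lit 320)
(.spl (nat_lit 0) (nat_lit 380)
(.leaf p129_l48)
(.trZ (nat_lit 0) (nat_lit 82) (nat_lit 44) (nat_lit 100) (nat_lit 236) (.trZ (nat_lit 3) (nat_lit 100) (nat_lit 54) (nat_lit 57) (nat_lit 20) (.trX (nat_lit 16) (nat_lit 44) (nat_lit 100) (nat_lit 92) (nat_lit 208) (.leaf p129_l49)))))
(.spl (nat_lit 0) (nat_lit 380)
(.leaf p129_l50)
(.trX (nat_lit 13) (nat_lit 61) (nat_lit 47) (nat_lit 100) (nat_lit 392) (.trZ (nat_lit 3) (nat_lit 100) (nat_lit 54) (nat_lit 57) (nat_lit 20) (.trX (nat_lit 16) (nat_lit 44) (nat_lit 100) (nat_lit 92) (nat_lit 208) (.leaf p129_l51))))))))) (by decide +kernel)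
noncomputable def p129_l52 : Lf2 := ⟨nat_lit 0, nat_lit 30, [nat_lit 15, nat_lit 5, nat_lit 5, nat_lit 20], false, nat_lit 8, nat_lit 248, nat_lit 0, nat_lit 300, ⟨nat_lit 1000, nat_lit 0, nat_lit 0, nat_lit 0, nat_lit 0, nat_lit 0, nat_lit 0, nat_lit 0, nat_lit 0, nat_lit 0, nat_lit 0, nat_lit 0, nat_lit 0, nat_lit 0, nat_lit 0, nat_lit 0, false, false⟩,
 nat_lit 0, nat_lit 0, nat_lit 0, nat_lit 9801, nat_lit 6288, nat_lit 9780, nat_lit 0, nat_lit 0, nat_lit 0, nat_lit 0, nat_lit 0, nat_lit 0, nat_lit 0, nat_lit 0, nat_lit 0, nat_lit 0, nat_lit 0, nat_lit 0, [],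
 ⟨p129_k10, nat_lit 0, nat_lit 0, nat_lit 219, nat_lit 0, nat_lit 0, [nat_lit 938000000, nat_lit 4688000000, nat_lit 9842000000], [], [nat_lit 35870261271, nat_lit 39447123997, nat_lit 45058960279, nat_lit 47199195757, nat_lit 33511575165, nat_lit 35715876740, nat_lit 39688618183, nat_lit 41283114913], nat_lit 0, nat_lit 0, nat_lit 0, nat_lit 0, nat_lit 0, nat_lit 0, [], [nat_lit 81, nat_lit 40, nat_lit 40, nat_lit 80, nat_lit 13, nat_lit 401, nat_lit 175, nat_lit 11]⟩, ⟨p129_k11, nat_lit 0, nat_lit 0, nat_lit 244, nat_lit 0, nat_lit 0, [nat_lit 2032000000, nat_lit 6250000000, nat_lit 11872000000], [], [nat_lit 39648362720, nat_lit 41619230560, nat_lit 51214807360, nat_lit 52249570200, nat_lit 34432172740, nat_lit 35609337160, nat_lit 40813100880, nat_lit 41412593420], nat_lit 0, nat_lit 0, nat_lit 0, nat_lit 0, nat_lit 0, nat_lit 0, [], [nat_lit 72, nat_lit 40, nat_lit 40, nat_lit 80, nat_lit 12, nat_lit 401, nat_lit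 175, nat_lit 10]⟩,
 zbF0, [⟨nat_lit 0, nat_lit 79, nat_lit 45, nat_lit 100, nat_lit 285608223⟩, ⟨nat_lit 4, nat_lit 100, nat_lit 44, nat_lit 87, nat_lit 121834023⟩]⟩
noncomputable def p129_l53 : Lf2 := ⟨nat_lit 0, nat_lit 30, [nat_lit 15, nat_lit 5, nat_lit 5, nat_lit 20], false, nat_lit 8, nat_lit 248, nat_lit 0, nat_lit 300, ⟨nat_lit 1000, nat_lit 0, nat_lit 0, nat_lit 0, nat_lit 0, nat_lit 0, nat_lit 0, nat_lit 0, nat_lit 0, nat_lit 0, nat_lit 0, nat_lit 0, nat_lit 0, nat_lit 0, nat_lit 0, nat_lit 0, false, false⟩,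
 nat_lit 0, nat_lit 0, nat_lit 10197, nat_lit 4207, nat_lit 6464, nat_lit 7647, nat_lit 0, nat_lit 0, nat_lit 0, nat_lit 0, nat_lit 0, nat_lit 0, nat_lit 0, nat_lit 0, nat_lit 0, nat_lit 0, nat_lit 0, nat_lit 0, [],
 ⟨p129_k10, nat_lit 0, nat_lit 0, nat_lit 215, nat_lit 0, nat_lit 0, [nat_lit 938000000, nat_lit 4688000000, nat_lit 9842000000], [], [nat_lit 35972320292, nat_lit 37791766621, nat_lit 45264571716, nat_lit 46349182773, nat_lit 33214568055, nat_lit 34332703056, nat_lit 39632730228, nat_lit 40438731882], nat_lit 0, nat_lit 0, nat_lit 0, nat_lit 0, nat_lit 0, nat_lit 0, [], [nat_lit 81, nat_lit 40, nat_lit 40, nat_lit 80, nat_lit 13, nat_lit 401, nat_lit 175, nat_lit 11]⟩, ⟨p129_k11, nat_lit 0, nat_lit 0, nat_lit 255, nat_lit 0, nat_lit 41609, [nat_lit 2032000000, nat_lit 6250000000, nat_lit 11872000000], [], [nat_lit 38794847276, nat_lit 40112179520, nat_lit 48676725064, nat_lit 49599978930, nat_lit 35903888596,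 nat_lit 36710649078, nat_lit 41673028362, nat_lit 42238567808], nat_lit 1271250, nat_lit 1271250, nat_lit 1271250, nat_lit 1271250, nat_lit 0, nat_lit 2118750, [nat_lit 490000, nat_lit 1427500, nat_lit 1271250], [nat_lit 72, nat_lit 40, nat_lit 40, nat_lit 80, nat_lit 12, nat_lit 401, nat_lit 175, nat_lit 10]⟩,
 zbF0, [⟨nat_lit 0, nat_lit 75, nat_lit 46, nat_lit 100, nat_lit 119577997⟩, ⟨nat_lit 4, nat_lit 100, nat_lit 53, nat_lit 87, nat_lit 212084008⟩, ⟨nat_lit 19, nat_lit 81, nat_lit 100, nat_lit 92, nat_lit 77720811⟩]⟩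
noncomputable def p129_l54 : Lf2 := ⟨nat_lit 0, nat_lit 30, [nat_lit 15, nat_lit 5, nat_lit 5, nat_lit 20], false, nat_lit 20, nat_lit 208, nat_lit 0, nat_lit 300, ⟨nat_lit 1000, nat_lit 0, nat_lit 0, nat_lit 0, nat_lit 0, nat_lit 0, nat_lit 0, nat_lit 0, nat_lit 0, nat_lit 0, nat_lit 0, nat_lit 0, nat_lit 0, nat_lit 0, nat_lit 0, nat_lit 0, false, false⟩,
 nat_lit 0, nat_lit 0, nat_lit 8068, nat_lit 0, nat_lit 5223, nat_lit 6051, nat_lit 0, nat_lit 0, nat_lit 0, nat_lit 617, nat_lit 0, nat_lit 0, nat_lit 0, nat_lit 0, nat_lit 0, nat_lit 0, nat_lit 0, nat_lit 0, [],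
 ⟨p129_k3, nat_lit 0, nat_lit 0, nat_lit 188, nat_lit 0, nat_lit 0, [nat_lit 938000000, nat_lit 3282000000, nat_lit 7968000000], [], [nat_lit 33850711737, nat_lit 35469188828, nat_lit 41109308518, nat_lit 42196316997, nat_lit 31942222313, nat_lit 33101498416, nat_lit 37647263714, nat_lit 38532543904], nat_lit 0, nat_lit 0, nat_lit 0, nat_lit 0, nat_lit 0, nat_lit 0, [], [nat_lit 54, nat_lit 40, nat_lit 40, nat_lit 80, nat_lit 43, nat_lit 373, nat_lit 150, nat_lit 11]⟩, ⟨p129_k1, nat_lit 0, nat_lit 0, nat_lit 351, nat_lit 0, nat_lit 218580, [nat_lit 2032000000, nat_lit 4688000000, nat_lit 11872000000], [], [nat_lit 33217053712, nat_lit 34035696207, nat_lit 38068788447, nat_lit 38934347432, nat_lit 30206798534, nat_lit 30731286699, nat_lit 33775225396, nat_lit 34689705810], nat_lit 1271250, nat_lit 1271250, nat_lit 1271250, nat_lit 1271250, nat_lit 0, nat_lit 2118750, [nat_lit 490000, nat_lit 1100000, nat_lit 2470000],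 [nat_lit 75, nat_lit 40, nat_lit 40, nat_lit 80, nat_lit 65, nat_lit 401, nat_lit 175, nat_lit 10]⟩,
 zbF0, [⟨nat_lit 0, nat_lit 82, nat_lit 34, nat_lit 100, nat_lit 135862655⟩, ⟨nat_lit 4, nat_lit 100, nat_lit 32, nat_lit 88, nat_lit 355437222⟩, ⟨nat_lit 19, nat_lit 81, nat_lit 100, nat_lit 92, nat_lit 147328211⟩]⟩
noncomputable def p129_l55 : Lf2 := ⟨nat_lit 0, nat_lit 30, [nat_lit 15, nat_lit 5, nat_lit 5, nat_lit 20], false, nat_lit 8, nat_lit 248, nat_lit 0, nat_lit 300, ⟨nat_lit 1000, nat_lit 0, nat_lit 0, nat_lit 0, nat_lit 0, nat_lit 0, nat_lit 0, nat_lit 0, nat_lit 0, nat_lit 0, nat_lit 0, nat_lit 0, nat_lit 0, nat_lit 0, nat_lit 0, nat_lit 0, false, false⟩,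
 nat_lit 0, nat_lit 0, nat_lit 0, nat_lit 9801, nat_lit 6288, nat_lit 9780, nat_lit 0, nat_lit 0, nat_lit 0, nat_lit 0, nat_lit 0, nat_lit 0, nat_lit 0, nat_lit 0, nat_lit 0, nat_lit 0, nat_lit 0, nat_lit 0, [],
 ⟨p129_k10, nat_lit 0, nat_lit 0, nat_lit 219, nat_lit 0, nat_lit 0, [nat_lit 938000000, nat_lit 4688000000, nat_lit 9842000000], [], [nat_lit 35870261271, nat_lit 39447123997, nat_lit 45058960279, nat_lit 47199195757, nat_lit 33511575165, nat_lit 35715876740, nat_lit 39688618183, nat_lit 41283114913], nat_lit 0, nat_lit 0, nat_lit 0, nat_lit 0, nat_lit 0, nat_lit 0, [], [nat_lit 81, nat_lit 40, nat_lit 40, nat_lit 80, nat_lit 13, nat_lit 401, nat_lit 175, nat_lit 11]⟩, ⟨p129_k11, nat_lit 0, nat_lit 0, nat_lit 244, nat_lit 0, nat_lit 0, [nat_lit 2032000000, nat_lit 6250000000, nat_lit 11872000000], [], [nat_lit 39648362720, nat_lit 41619230560, nat_lit 51214807360, nat_lit 52249570200, nat_lit 34432172740,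 nat_lit 35609337160, nat_lit 40813100880, nat_lit 41412593420], nat_lit 0, nat_lit 0, nat_lit 0, nat_lit 0, nat_lit 0, nat_lit 0, [], [nat_lit 72, nat_lit 40, nat_lit 40, nat_lit 80, nat_lit 12, nat_lit 401, nat_lit 175, nat_lit 10]⟩,
 zbF0, [⟨nat_lit 0, nat_lit 79, nat_lit 45, nat_lit 100, nat_lit 285608223⟩, ⟨nat_lit 16, nat_lit 44, nat_lit 100, nat_lit 87, nat_lit 121834023⟩]⟩
noncomputable def p129_l56 : Lf2 := ⟨nat_lit 0, nat_lit 30, [nat_lit 15, nat_lit 5, nat_lit 5, nat_lit 20], false, nat_lit 8, nat_lit 248, nat_lit 0, nat_lit 300, ⟨nat_lit 1000, nat_lit 0, nat_lit 0, nat_lit 0, nat_lit 0, nat_lit 0, nat_lit 0, nat_lit 0, nat_lit 0, nat_lit 0, nat_lit 0, nat_lit 0, nat_lit 0, nat_lit 0, nat_lit 0, nat_lit 0, false, false⟩,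
 nat_lit 0, nat_lit 0, nat_lit 10197, nat_lit 4207, nat_lit 6464, nat_lit 7647, nat_lit 0, nat_lit 0, nat_lit 0, nat_lit 0, nat_lit 0, nat_lit 0, nat_lit 0, nat_lit 0, nat_lit 0, nat_lit 0, nat_lit 0, nat_lit 0, [],
 ⟨p129_k10, nat_lit 0, nat_lit 0, nat_lit 215, nat_lit 0, nat_lit 0, [nat_lit 938000000, nat_lit 4688000000, nat_lit 9842000000], [], [nat_lit 35972320292, nat_lit 37791766621, nat_lit 45264571716, nat_lit 46349182773, nat_lit 33214568055, nat_lit 34332703056, nat_lit 39632730228, nat_lit 40438731882], nat_lit 0, nat_lit 0, nat_lit 0, nat_lit 0, nat_lit 0, nat_lit 0, [], [nat_lit 81, nat_lit 40, nat_lit 40, nat_lit 80, nat_lit 13, nat_lit 401, nat_lit 175, nat_lit 11]⟩, ⟨p129_k11, nat_lit 0, nat_lit 0, nat_lit 255, nat_lit 0, nat_lit 41609, [nat_lit 2032000000, nat_lit 6250000000, nat_lit 11872000000], [], [nat_lit 38794847276, nat_lit 40112179520, nat_lit 48676725064, nat_lit 49599978930, nat_lit 35903888596,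 nat_lit 36710649078, nat_lit 41673028362, nat_lit 42238567808], nat_lit 1271250, nat_lit 1271250, nat_lit 1271250, nat_lit 1271250, nat_lit 0, nat_lit 2118750, [nat_lit 490000, nat_lit 1427500, nat_lit 1271250], [nat_lit 72, nat_lit 40, nat_lit 40, nat_lit 80, nat_lit 12, nat_lit 401, nat_lit 175, nat_lit 10]⟩,
 zbF0, [⟨nat_lit 0, nat_lit 75, nat_lit 46, nat_lit 100, nat_lit 119577997⟩, ⟨nat_lit 4, nat_lit 100, nat_lit 53, nat_lit 87, nat_lit 212084008⟩, ⟨nat_lit 19, nat_lit 81, nat_lit 100, nat_lit 92, nat_lit 77720811⟩]⟩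
noncomputable def p129_l57 : Lf2 := ⟨nat_lit 0, nat_lit 30, [nat_lit 15, nat_lit 5, nat_lit 5, nat_lit 20], false, nat_lit 20, nat_lit 208, nat_lit 0, nat_lit 300, ⟨nat_lit 1000, nat_lit 0, nat_lit 0, nat_lit 0, nat_lit 0, nat_lit 0, nat_lit 0, nat_lit 0, nat_lit 0, nat_lit 0, nat_lit 0, nat_lit 0, nat_lit 0, nat_lit 0, nat_lit 0, nat_lit 0, false, false⟩,
 nat_lit 0, nat_lit 0, nat_lit 8068, nat_lit 0, nat_lit 5223, nat_lit 6051, nat_lit 0, nat_lit 0, nat_lit 0, nat_lit 617, nat_lit 0, nat_lit 0, nat_lit 0, nat_lit 0, nat_lit 0, nat_lit 0, nat_lit 0, nat_lit 0, [],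
 ⟨p129_k3, nat_lit 0, nat_lit 0, nat_lit 188, nat_lit 0, nat_lit 0, [nat_lit 938000000, nat_lit 3282000000, nat_lit 7968000000], [], [nat_lit 33850711737, nat_lit 35469188828, nat_lit 41109308518, nat_lit 42196316997, nat_lit 31942222313, nat_lit 33101498416, nat_lit 37647263714, nat_lit 38532543904], nat_lit 0, nat_lit 0, nat_lit 0, nat_lit 0, nat_lit 0, nat_lit 0, [], [nat_lit 54, nat_lit 40, nat_lit 40, nat_lit 80, nat_lit 43, nat_lit 373, nat_lit 150, nat_lit 11]⟩, ⟨p129_k1, nat_lit 0, nat_lit 0, nat_lit 351, nat_lit 0, nat_lit 218580, [nat_lit 2032000000, nat_lit 4688000000, nat_lit 11872000000], [], [nat_lit 33217053712, nat_lit 34035696207, nat_lit 38068788447, nat_lit 38934347432, nat_lit 30206798534, nat_lit 30731286699, nat_lit 33775225396, nat_lit 34689705810], nat_lit 1271250, nat_lit 1271250, nat_lit 1271250, nat_lit 1271250, nat_lit 0, nat_lit 2118750, [nat_lit 490000, nat_lit 1100000, nat_lit 2470000],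 [nat_lit 75, nat_lit 40, nat_lit 40, nat_lit 80, nat_lit 65, nat_lit 401, nat_lit 175, nat_lit 10]⟩,
 zbF0, [⟨nat_lit 0, nat_lit 82, nat_lit 34, nat_lit 100, nat_lit 135862655⟩, ⟨nat_lit 4, nat_lit 100, nat_lit 32, nat_lit 88, nat_lit 355437222⟩, ⟨nat_lit 7, nat_lit 100, nat_lit 81, nat_lit 92, nat_lit 147328211⟩]⟩
noncomputable def p129_l58 : Lf2 := ⟨nat_lit 0, nat_lit 30, [nat_lit 15, nat_lit 5, nat_lit 5, nat_lit 20], false, nat_lit 8, nat_lit 248, nat_lit 0, nat_lit 300, ⟨nat_lit 1000, nat_lit 0, nat_lit 0, nat_lit 0, nat_lit 0, nat_lit 0, nat_lit 0, nat_lit 0, nat_lit 0, nat_lit 0, nat_lit 0, nat_lit 0, nat_lit 0, nat_lit 0, nat_lit 0, nat_lit 0, false, false⟩,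
 nat_lit 0, nat_lit 5703, nat_lit 0, nat_lit 2827, nat_lit 4967, nat_lit 9780, nat_lit 512, nat_lit 0, nat_lit 0, nat_lit 0, nat_lit 0, nat_lit 0, nat_lit 0, nat_lit 0, nat_lit 0, nat_lit 0, nat_lit 0, nat_lit 0, [],
 ⟨p129_k0, nat_lit 0, nat_lit 0, nat_lit 299, nat_lit 0, nat_lit 165993, [nat_lit 938000000, nat_lit 3282000000, nat_lit 9842000000], [], [nat_lit 29140209928, nat_lit 31074569345, nat_lit 37207354139, nat_lit 39914617654, nat_lit 27674958914, nat_lit 29121238410, nat_lit 33320136558, nat_lit 35380642984], nat_lit 1271250, nat_lit 1271250, nat_lit 1271250, nat_lit 1271250, nat_lit 43600, nat_lit 1756600, [nat_lit 230000, nat_lit 780000, nat_lit 2090000], [nat_lit 93, nat_lit 40, nat_lit 40, nat_lit 80, nat_lit 63, nat_lit 401, nat_lit 175, nat_lit 11]⟩, ⟨p129_k1, nat_lit 0, nat_lit 0, nat_lit 234, nat_lit 0, nat_lit 0, [nat_lit 2032000000, nat_lit 4688000000, nat_lit 11872000000], [], [nat_lit 39648362720,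 nat_lit 41619230560, nat_lit 51214807360, nat_lit 52249570200, nat_lit 34432172740, nat_lit 35609337160, nat_lit 40813100880, nat_lit 41412593420], nat_lit 0, nat_lit 0, nat_lit 0, nat_lit 0, nat_lit 0, nat_lit 0, [], [nat_lit 75, nat_lit 40, nat_lit 40, nat_lit 80, nat_lit 65, nat_lit 401, nat_lit 175, nat_lit 10]⟩,
 zbF0, [⟨nat_lit 0, nat_lit 79, nat_lit 45, nat_lit 100, nat_lit 236928775⟩, ⟨nat_lit 4, nat_lit 100, nat_lit 44, nat_lit 87, nat_lit 197053709⟩]⟩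
noncomputable def p129_l59 : Lf2 := ⟨nat_lit 0, nat_lit 30, [nat_lit 15, nat_lit 5, nat_lit 5, nat_lit 20], false, nat_lit 8, nat_lit 248, nat_lit 0, nat_lit 300, ⟨nat_lit 1000, nat_lit 0, nat_lit 0, nat_lit 0, nat_lit 0, nat_lit 0, nat_lit 0, nat_lit 0, nat_lit 0, nat_lit 0, nat_lit 0, nat_lit 0, nat_lit 0, nat_lit 0, nat_lit 0, nat_lit 0, false, false⟩,
 nat_lit 7423, nat_lit 0, nat_lit 5618, nat_lit 0, nat_lit 6464, nat_lit 9780, nat_lit 0, nat_lit 0, nat_lit 0, nat_lit 0, nat_lit 0, nat_lit 0, nat_lit 0, nat_lit 0, nat_lit 0, nat_lit 0, nat_lit 0, nat_lit 0, [],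
 ⟨p129_k10, nat_lit 0, nat_lit 0, nat_lit 219, nat_lit 0, nat_lit 17693, [nat_lit 938000000, nat_lit 4688000000, nat_lit 9842000000], [], [nat_lit 35972320292, nat_lit 37791766621, nat_lit 45264571716, nat_lit 46349182773, nat_lit 33214568055, nat_lit 34332703056, nat_lit 39632730228, nat_lit 40438731882], nat_lit 1271250, nat_lit 1271250, nat_lit 1271250, nat_lit 1271250, nat_lit 43600, nat_lit 1756600, [nat_lit 230000, nat_lit 1100000, nat_lit 2127500], [nat_lit 81, nat_lit 40, nat_lit 40, nat_lit 80, nat_lit 13, nat_lit 401, nat_lit 175, nat_lit 11]⟩, ⟨p129_k11, nat_lit 0, nat_lit 0, nat_lit 250, nat_lit 0, nat_lit 21817, [nat_lit 2032000000, nat_lit 6250000000, nat_lit 11872000000], [], [nat_lit 39648362720, nat_lit 41619230560, nat_lit 51214807360, nat_lit 52249570200, nat_lit 34432172740, nat_lit 35609337160, nat_lit 40813100880, nat_lit 41412593420], nat_lit 1271250, nat_lit 1271250, nat_lit 1271250, nat_lit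 1271250, nat_lit 0, nat_lit 2118750, [nat_lit 490000, nat_lit 1427500, nat_lit 1271250], [nat_lit 72, nat_lit 40, nat_lit 40, nat_lit 80, nat_lit 12, nat_lit 401, nat_lit 175, nat_lit 10]⟩,
 zbF0, [⟨nat_lit 0, nat_lit 75, nat_lit 46, nat_lit 100, nat_lit 99685761⟩, ⟨nat_lit 4, nat_lit 100, nat_lit 53, nat_lit 87, nat_lit 212084008⟩]⟩
noncomputable def p129_l60 : Lf2 := ⟨nat_lit 0, nat_lit 30, [nat_lit 15, nat_lit 5, nat_lit 5, nat_lit 20], false, nat_lit 20, nat_lit 208, nat_lit 0, nat_lit 300, ⟨nat_lit 1000, nat_lit 0, nat_lit 0, nat_lit 0, nat_lit 0, nat_lit 0, nat_lit 0, nat_lit 0, nat_lit 0, nat_lit 0, nat_lit 0, nat_lit 0, nat_lit 0, nat_lit 0, nat_lit 0, nat_lit 0, false, false⟩,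
 nat_lit 11110, nat_lit 0, nat_lit 0, nat_lit 0, nat_lit 3863, nat_lit 8332, nat_lit 353, nat_lit 0, nat_lit 0, nat_lit 345, nat_lit 0, nat_lit 0, nat_lit 0, nat_lit 0, nat_lit 0, nat_lit 0, nat_lit 0, nat_lit 0, [],
 ⟨p129_k3, nat_lit 0, nat_lit 0, nat_lit 241, nat_lit 0, nat_lit 95372, [nat_lit 938000000, nat_lit 3282000000, nat_lit 7968000000], [], [nat_lit 27953018044, nat_lit 29327652371, nat_lit 34458800357, nat_lit 35413663062, nat_lit 27385367943, nat_lit 28468993133, nat_lit 32700422086, nat_lit 33489937604], nat_lit 1271250, nat_lit 1271250, nat_lit 1271250, nat_lit 1271250, nat_lit 111251, nat_lit 1474250, [nat_lit 230000, nat_lit 780000, nat_lit 1762500], [nat_lit 54, nat_lit 40, nat_lit 40, nat_lit 80, nat_lit 43, nat_lit 373, nat_lit 150, nat_lit 11]⟩, ⟨p129_k1, nat_lit 0, nat_lit 0, nat_lit 326, nat_lit 0, nat_lit 126740, [nat_lit 2032000000, nat_lit 4688000000, nat_lit 11872000000], [], [nat_lit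 39108720042, nat_lit 40047401074, nat_lit 44313018779, nat_lit 45305731653, nat_lit 33039237846, nat_lit 33593861181, nat_lit 36432032040, nat_lit 37397982274], nat_lit 1271250, nat_lit 1271250, nat_lit 1271250, nat_lit 1271250, nat_lit 0, nat_lit 2118750, [nat_lit 490000, nat_lit 1100000, nat_lit 2470000], [nat_lit 75, nat_lit 40, nat_lit 40, nat_lit 80, nat_lit 65, nat_lit 401, nat_lit 175, nat_lit 10]⟩,
 zbF0, [⟨nat_lit 0, nat_lit 82, nat_lit 34, nat_lit 100, nat_lit 226502710⟩, ⟨nat_lit 4, nat_lit 100, nat_lit 32, nat_lit 88, nat_lit 497958599⟩, ⟨nat_lit 19, nat_lit 81, nat_lit 100, nat_lit 92, nat_lit 65549079⟩]⟩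
noncomputable def p129_l61 : Lf2 := ⟨nat_lit 0, nat_lit 30, [nat_lit 15, nat_lit 5, nat_lit 5, nat_lit 20], false, nat_lit 8, nat_lit 248, nat_lit 0, nat_lit 300, ⟨nat_lit 1000, nat_lit 0, nat_lit 0, nat_lit 0, nat_lit 0, nat_lit 0, nat_lit 0, nat_lit 0, nat_lit 0, nat_lit 0, nat_lit 0, nat_lit 0, nat_lit 0, nat_lit 0, nat_lit 0, nat_lit 0, false, false⟩,
 nat_lit 0, nat_lit 5703, nat_lit 0, nat_lit 2827, nat_lit 4967, nat_lit 9780, nat_lit 512, nat_lit 0, nat_lit 0, nat_lit 0, nat_lit 0, nat_lit 0, nat_lit 0, nat_lit 0, nat_lit 0, nat_lit 0, nat_lit 0, nat_lit 0, [],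
 ⟨p129_k0, nat_lit 0, nat_lit 0, nat_lit 299, nat_lit 0, nat_lit 165993, [nat_lit 938000000, nat_lit 3282000000, nat_lit 9842000000], [], [nat_lit 29140209928, nat_lit 31074569345, nat_lit 37207354139, nat_lit 39914617654, nat_lit 27674958914, nat_lit 29121238410, nat_lit 33320136558, nat_lit 35380642984], nat_lit 1271250, nat_lit 1271250, nat_lit 1271250, nat_lit 1271250, nat_lit 43600, nat_lit 1756600, [nat_lit 230000, nat_lit 780000, nat_lit 2090000], [nat_lit 93, nat_lit 40, nat_lit 40, nat_lit 80, nat_lit 63, nat_lit 401, nat_lit 175, nat_lit 11]⟩, ⟨p129_k1, nat_lit 0, nat_lit 0, nat_lit 234, nat_lit 0, nat_lit 0, [nat_lit 2032000000, nat_lit 4688000000, nat_lit 11872000000], [], [nat_lit 39648362720, nat_lit 41619230560, nat_lit 51214807360, nat_lit 52249570200, nat_lit 34432172740, nat_lit 35609337160, nat_lit 40813100880, nat_lit 41412593420], nat_lit 0, nat_lit 0, nat_lit 0, nat_lit 0, nat_lit 0, nat_lit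 0, [], [nat_lit 75, nat_lit 40, nat_lit 40, nat_lit 80, nat_lit 65, nat_lit 401, nat_lit 175, nat_lit 10]⟩,
 zbF0, [⟨nat_lit 0, nat_lit 79, nat_lit 45, nat_lit 100, nat_lit 236928775⟩, ⟨nat_lit 4, nat_lit 100, nat_lit 44, nat_lit 87, nat_lit 197053709⟩]⟩
noncomputable def p129_l62 : Lf2 := ⟨nat_lit 0, nat_lit 30, [nat_lit 15, nat_lit 5, nat_lit 5, nat_lit 20], false, nat_lit 8, nat_lit 248, nat_lit 0, nat_lit 300, ⟨nat_lit 1000, nat_lit 0, nat_lit 0, nat_lit 0, nat_lit 0, nat_lit 0, nat_lit 0, nat_lit 0, nat_lit 0, nat_lit 0, nat_lit 0, nat_lit 0, nat_lit 0, nat_lit 0, nat_lit 0, nat_lit 0, false, false⟩,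
 nat_lit 13040, nat_lit 0, nat_lit 0, nat_lit 0, nat_lit 6464, nat_lit 9780, nat_lit 0, nat_lit 0, nat_lit 0, nat_lit 0, nat_lit 0, nat_lit 0, nat_lit 0, nat_lit 0, nat_lit 0, nat_lit 0, nat_lit 0, nat_lit 0, [],
 ⟨p129_k10, nat_lit 0, nat_lit 0, nat_lit 219, nat_lit 0, nat_lit 17693, [nat_lit 938000000, nat_lit 4688000000, nat_lit 9842000000], [], [nat_lit 35972320292, nat_lit 37791766621, nat_lit 45264571716, nat_lit 46349182773, nat_lit 33214568055, nat_lit 34332703056, nat_lit 39632730228, nat_lit 40438731882], nat_lit 1271250, nat_lit 1271250, nat_lit 1271250, nat_lit 1271250, nat_lit 43600, nat_lit 1756600, [nat_lit 230000, nat_lit 1100000, nat_lit 2127500], [nat_lit 81, nat_lit 40, nat_lit 40, nat_lit 80, nat_lit 13, nat_lit 401, nat_lit 175, nat_lit 11]⟩, ⟨p129_k11, nat_lit 0, nat_lit 0, nat_lit 250, nat_lit 0, nat_lit 21817, [nat_lit 2032000000, nat_lit 6250000000, nat_lit 11872000000], [], [nat_lit 39648362720,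 nat_lit 41619230560, nat_lit 51214807360, nat_lit 52249570200, nat_lit 34432172740, nat_lit 35609337160, nat_lit 40813100880, nat_lit 41412593420], nat_lit 1271250, nat_lit 1271250, nat_lit 1271250, nat_lit 1271250, nat_lit 0, nat_lit 2118750, [nat_lit 490000, nat_lit 1427500, nat_lit 1271250], [nat_lit 72, nat_lit 40, nat_lit 40, nat_lit 80, nat_lit 12, nat_lit 401, nat_lit 175, nat_lit 10]⟩,
 zbF0, [⟨nat_lit 0, nat_lit 75, nat_lit 46, nat_lit 100, nat_lit 99685761⟩, ⟨nat_lit 16, nat_lit 53, nat_lit 100, nat_lit 87, nat_lit 212084008⟩]⟩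
noncomputable def p129_l63 : Lf2 := ⟨nat_lit 0, nat_lit 30, [nat_lit 15, nat_lit 5, nat_lit 5, nat_lit 20], false, nat_lit 20, nat_lit 208, nat_lit 0, nat_lit 300, ⟨nat_lit 1000, nat_lit 0, nat_lit 0, nat_lit 0, nat_lit 0, nat_lit 0, nat_lit 0, nat_lit 0, nat_lit 0, nat_lit 0, nat_lit 0, nat_lit 0, nat_lit 0, nat_lit 0, nat_lit 0, nat_lit 0, false, false⟩,
 nat_lit 11110, nat_lit 0, nat_lit 0, nat_lit 0, nat_lit 3863, nat_lit 8332, nat_lit 353, nat_lit 0, nat_lit 0, nat_lit 345, nat_lit 0, nat_lit 0, nat_lit 0, nat_lit 0, nat_lit 0, nat_lit 0, nat_lit 0, nat_lit 0, [],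
 ⟨p129_k3, nat_lit 0, nat_lit 0, nat_lit 241, nat_lit 0, nat_lit 95372, [nat_lit 938000000, nat_lit 3282000000, nat_lit 7968000000], [], [nat_lit 27953018044, nat_lit 29327652371, nat_lit 34458800357, nat_lit 35413663062, nat_lit 27385367943, nat_lit 28468993133, nat_lit 32700422086, nat_lit 33489937604], nat_lit 1271250, nat_lit 1271250, nat_lit 1271250, nat_lit 1271250, nat_lit 111251, nat_lit 1474250, [nat_lit 230000, nat_lit 780000, nat_lit 1762500], [nat_lit 54, nat_lit 40, nat_lit 40, nat_lit 80, nat_lit 43, nat_lit 373, nat_lit 150, nat_lit 11]⟩, ⟨p129_k1, nat_lit 0, nat_lit 0, nat_lit 326, nat_lit 0, nat_lit 126740, [nat_lit 2032000000, nat_lit 4688000000, nat_lit 11872000000], [], [nat_lit 39108720042, nat_lit 40047401074, nat_lit 44313018779, nat_lit 45305731653, nat_lit 33039237846, nat_lit 33593861181, nat_lit 36432032040, nat_lit 37397982274], nat_lit 1271250, nat_lit 1271250, nat_lit 1271250, nat_lit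 1271250, nat_lit 0, nat_lit 2118750, [nat_lit 490000, nat_lit 1100000, nat_lit 2470000], [nat_lit 75, nat_lit 40, nat_lit 40, nat_lit 80, nat_lit 65, nat_lit 401, nat_lit 175, nat_lit 10]⟩,
 zbF0, [⟨nat_lit 0, nat_lit 82, nat_lit 34, nat_lit 100, nat_lit 226502710⟩, ⟨nat_lit 16, nat_lit 32, nat_lit 100, nat_lit 88, nat_lit 497958599⟩, ⟨nat_lit 7, nat_lit 100, nat_lit 81, nat_lit 92, nat_lit 65549079⟩]⟩
noncomputable def b_V_900_800_20_14 : St := ⟨true, nat_lit 2, nat_lit 2, nat_lit 0, nat_lit 120, nat_lit 360, nat_lit 400, nat_lit 320, nat_lit 340, nat_lit 200, nat_lit 400, nat_lit 80, nat_lit 120, nat_lit 8, nat_lit 248, nat_lit 0, nat_lit 300, nat_lit 160, nat_lit 176, nat_lit 0, nat_lit 0, nat_lit 0, nat_lit 0⟩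
theorem d_V_900_800_20_14 (h : EB TB.env) : Dead b_V_900_800_20_14 := chkB_sound0 h (T :=
(.st (nat_lit 0)
(.gv
(.st (nat_lit 1)
(.leaf p129_l52)
(.spl (nat_lit 0) (nat_lit 380)
(.leaf p129_l53)
(.trZ (nat_lit 0) (nat_lit 82) (nat_lit 44) (nat_lit 100) (nat_lit 236) (.trX (nat_lit 13) (nat_lit 61) (nat_lit 47) (nat_lit 100) (nat_lit 392) (.trZ (nat_lit 3) (nat_lit 100) (nat_lit 54) (nat_lit 57) (nat_lit 20) (.trX (nat_lit 16) (nat_lit 44) (nat_lit 100) (nat_lit 92) (nat_lit 208) (.leaf p129_l54)))))))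
(.st (nat_lit 1)
(.leaf p129_l55)
(.spl (nat_lit 0) (nat_lit 380)
(.leaf p129_l56)
(.trZ (nat_lit 0) (nat_lit 82) (nat_lit 44) (nat_lit 100) (nat_lit 236) (.trX (nat_lit 13) (nat_lit 61) (nat_lit 47) (nat_lit 100) (nat_lit 392) (.trZ (nat_lit 3) (nat_lit 100) (nat_lit 54) (nat_lit 57) (nat_lit 20) (.trX (nat_lit 16) (nat_lit 44) (nat_lit 100) (nat_lit 92) (nat_lit 208) (.leaf p129_l57))))))))
(.gv
(.st (nat_lit 1)
(.leaf p129_l58)
(.spl (nat_lit 0) (nat_lit 380)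
(.leaf p129_l59)
(.trZ (nat_lit 0) (nat_lit 82) (nat_lit 44) (nat_lit 100) (nat_lit 236) (.trX (nat_lit 13) (nat_lit 61) (nat_lit 47) (nat_lit 100) (nat_lit 392) (.trZ (nat_lit 3) (nat_lit 100) (nat_lit 54) (nat_lit 57) (nat_lit 20) (.trX (nat_lit 16) (nat_lit 44) (nat_lit 100) (nat_lit 92) (nat_lit 208) (.leaf p129_l60)))))))
(.st (nat_lit 1)
(.leaf p129_l61)
(.spl (nat_lit 0) (nat_lit 380)
(.leaf p129_l62)
(.trZ (nat_lit 0) (nat_lit 82) (nat_lit 44) (nat_lit 100) (nat_lit 236) (.trX (nat_lit 13) (nat_lit 61) (nat_lit 47) (nat_lit 100) (nat_lit 392) (.trZ (nat_lit 3) (nat_lit 100) (nat_lit 54) (nat_lit 57) (nat_lit 20) (.trX (nat_lit 16) (nat_lit 44) (nat_lit 100) (nat_lit 92) (nat_lit 208) (.leaf p129_l63)))))))))) (by decide +kernel)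

end B2
end Pool.Agent.Lib.MP_6947cd_al
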