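import Pool.Agent.Lib.MP_6947cd_al.ZB.P110
import Pool.Agent.Lib.MP_6947cd_al.ZB.P111
import Pool.Agent.Lib.MP_6947cd_al.ZB.P112
import Pool.Agent.Lib.MP_6947cd_al.ZB.P113
import Pool.Agent.Lib.MP_6947cd_al.ZB.P114
import Pool.Agent.Lib.MP_6947cd_al.ZB.P115
import Pool.Agent.Lib.MP_6947cd_al.ZB.P116
import Pool.Agent.Lib.MP_6947cd_al.ZB.P117
import Pool.Agent.Lib.MP_6947cd_al.ZB.P118
import Pool.Agent.Lib.MP_6947cd_al.ZB.P119
import Pool.Agent.Lib.MP_6947cd_al.ZB.P120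
import Pool.Agent.Lib.MP_6947cd_al.ZB.P121
import Pool.Agent.Lib.MP_6947cd_al.ZB.P122
import Pool.Agent.Lib.MP_6947cd_al.ZB.P123
import Pool.Agent.Lib.MP_6947cd_al.ZB.P124
import Pool.Agent.Lib.MP_6947cd_al.ZB.P125
import Pool.Agent.Lib.MP_6947cd_al.ZB.P126
import Pool.Agent.Lib.MP_6947cd_al.ZB.P127
import Pool.Agent.Lib.MP_6947cd_al.ZB.P128
import Pool.Agent.Lib.MP_6947cd_al.ZB.P129

/-!
Problem MP_6947cd_al (Chollet).  Case B, second entry in [2/5, 17/20]: certificates of the tree, part T08 (generated).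
-/

set_option autoImplicit false
set_option linter.all false

namespace Pool.Agent.Lib.MP_6947cd_al
namespace B2

open Ent Fr B1 PkA

noncomputable def t08_k0 : C1.Kn := ⟨[nat_lit 20, nat_lit 60, nat_lit 80], [nat_lit 0, nat_lit 0, nat_lit 1613], [(nat_lit 0, nat_lit 0, nat_lit 0), (nat_lit 0, nat_lit 0, nat_lit 0), (nat_lit 1000, nat_lit 614, nat_lit 668)], (nat_lit 63, nat_lit 100, nat_lit 62)⟩
noncomputable def t08_k1 : C1.Kn := ⟨[nat_lit 20, nat_lit 60, nat_lit 100], [nat_lit 0, nat_lit 0, nat_lit 2559], [(nat_lit 0, nat_lit 0, nat_lit 0), (nat_lit 0, nat_lit 0, nat_lit 0), (nat_lit 1000, nat_lit 600, nat_lit 787)], (nat_lit 60, nat_lit 100, nat_lit 80)⟩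
noncomputable def t08_k2 : C1.Kn := ⟨[nat_lit 80, nat_lit 120, nat_lit 160], [nat_lit 0, nat_lit 528, nat_lit 2577], [(nat_lit 0, nat_lit 0, nat_lit 0), (nat_lit 1000, nat_lit 959, nat_lit 206), (nat_lit 929, nat_lit 1000, nat_lit 742)], (nat_lit 100, nat_lit 85, nat_lit 84)⟩
noncomputable def t08_k3 : C1.Kn := ⟨[nat_lit 20, nat_lit 60, nat_lit 100], [nat_lit 0, nat_lit 2136, nat_lit 4235], [(nat_lit 0, nat_lit 0, nat_lit 0), (nat_lit 1000, nat_lit 343, nat_lit 808), (nat_lit 1000, nat_lit 338, nat_lit 820)], (nat_lit 31, nat_lit 100, nat_lit 92)⟩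
noncomputable def t08_k4 : C1.Kn := ⟨[nat_lit 80, nat_lit 120, nat_lit 180], [nat_lit 0, nat_lit 528, nat_lit 3600], [(nat_lit 0, nat_lit 0, nat_lit 0), (nat_lit 1000, nat_lit 959, nat_lit 206), (nat_lit 929, nat_lit 1000, nat_lit 742)], (nat_lit 100, nat_lit 69, nat_lit 96)⟩
noncomputable def t08_k5 : C1.Kn := ⟨[nat_lit 20, nat_lit 100], [nat_lit 0, nat_lit 0], [(nat_lit 0, nat_lit 0, nat_lit 0), (nat_lit 0, nat_lit 0, nat_lit 0)], (nat_lit 60, nat_lit 100, nat_lit 80)⟩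
noncomputable def t08_k6 : C1.Kn := ⟨[nat_lit 60, nat_lit 160], [nat_lit 0, nat_lit 0], [(nat_lit 0, nat_lit 0, nat_lit 0), (nat_lit 0, nat_lit 0, nat_lit 0)], (nat_lit 100, nat_lit 95, nat_lit 87)⟩
noncomputable def t08_k7 : C1.Kn := ⟨[nat_lit 60, nat_lit 100, nat_lit 160], [nat_lit 0, nat_lit 0, nat_lit 3069], [(nat_lit 0, nat_lit 0, nat_lit 0), (nat_lit 0, nat_lit 0, nat_lit 0), (nat_lit 1000, nat_lit 999, nat_lit 798)], (nat_lit 100, nat_lit 95, nat_lit 87)⟩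
noncomputable def t08_k8 : C1.Kn := ⟨[nat_lit 20, nat_lit 80], [nat_lit 0, nat_lit 0], [(nat_lit 0, nat_lit 0, nat_lit 0), (nat_lit 0, nat_lit 0, nat_lit 0)], (nat_lit 63, nat_lit 100, nat_lit 62)⟩
noncomputable def t08_k9 : C1.Kn := ⟨[nat_lit 60, nat_lit 140], [nat_lit 0, nat_lit 0], [(nat_lit 0, nat_lit 0, nat_lit 0), (nat_lit 0, nat_lit 0, nat_lit 0)], (nat_lit 94, nat_lit 100, nat_lit 62)⟩
noncomputable def t08_k10 : C1.Kn := ⟨[nat_lit 20, nat_lit 80, nat_lit 120], [nat_lit 0, nat_lit 2121, nat_lit 4818], [(nat_lit 0, nat_lit 0, nat_lit 0), (nat_lit 1000, nat_lit 558, nat_lit 551), (nat_lit 1000, nat_lit 443, nat_lit 981)], (nat_lit 44, nat_lit 100, nat_lit 92)⟩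
noncomputable def t08_k11 : C1.Kn := ⟨[nat_lit 40, nat_lit 140], [nat_lit 0, nat_lit 0], [(nat_lit 0, nat_lit 0, nat_lit 0), (nat_lit 0, nat_lit 0, nat_lit 0)], (nat_lit 83, nat_lit 100, nat_lit 83)⟩
noncomputable def t08_k12 : C1.Kn := ⟨[nat_lit 40, nat_lit 100], [nat_lit 0, nat_lit 0], [(nat_lit 0, nat_lit 0, nat_lit 0), (nat_lit 0, nat_lit 0, nat_lit 0)], (nat_lit 80, nat_lit 100, nat_lit 60)⟩
theorem t_V_900_600_20 (h : EB TB.env) : RC.Tail ⟨true, 120, 360, 400, 240, 280, 80, 120, [156]⟩ := RC.tail_chk h (b := ⟨nat_lit 60, nat_lit 78, nat_lit 5, nat_lit 5, nat_lit 20, nat_lit 238, nat_lit 30, nat_lit 12, nat_lit 15⟩) (by decide +kernel)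
noncomputable def t08_l0 : Lf2 := ⟨nat_lit 0, nat_lit 10, [nat_lit 0, nat_lit 5, nat_lit 5, nat_lit 20], true, nat_lit 8, nat_lit 248, nat_lit 0, nat_lit 364, ⟨nat_lit 0, nat_lit 1000, nat_lit 0, nat_lit 6, nat_lit 251, nat_lit 1000, nat_lit 94, nat_lit 0, nat_lit 0, nat_lit 0, nat_lit 0, nat_lit 0, nat_lit 0, nat_lit 0, nat_lit 0, nat_lit 5000000, false, false⟩,
 nat_lit 0, nat_lit 0, nat_lit 0, nat_lit 0, nat_lit 3098, nat_lit 0, nat_lit 0, nat_lit 0, nat_lit 0, nat_lit 0, nat_lit 0, nat_lit 0, nat_lit 0, nat_lit 0, nat_lit 0, nat_lit 269800, nat_lit 0, nat_lit 0, [(nat_lit 24, [(nat_lit 0, nat_lit 868), (nat_lit 1, nat_lit 132)]), (nat_lit 27, [(nat_lit 0, nat_lit 868), (nat_lit 1, nat_lit 132)])],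
 ⟨t08_k0, nat_lit 0, nat_lit 0, nat_lit 167, nat_lit 0, nat_lit 0, [nat_lit 789670400, nat_lit 1318377600, nat_lit 1606441600], [], [nat_lit 20419343531, nat_lit 23976310704, nat_lit 30263736606, nat_lit 32610141125, nat_lit 23315040961, nat_lit 25456716709, nat_lit 29810799966, nat_lit 31634406248], nat_lit 0, nat_lit 0, nat_lit 0, nat_lit 0, nat_lit 0, nat_lit 0, [], [nat_lit 35, nat_lit 40, nat_lit 40, nat_lit 80, nat_lit 22, nat_lit 401, nat_lit 175, nat_lit 19]⟩, C1.Rw.none,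
 ⟨nat_lit 0, nat_lit 3163, ⟨.ofNat (nat_lit 401957), .ofNat (nat_lit 812499), .ofNat (nat_lit 443658), .ofNat (nat_lit 856810), .ofNat (nat_lit 431745), .ofNat (nat_lit 769995), .ofNat (nat_lit 479136), .ofNat (nat_lit 819996)⟩, ⟨.ofNat (nat_lit 20000), .ofNat (nat_lit 440207), .ofNat (nat_lit 20000), .ofNat (nat_lit 484518), .ofNat (nat_lit 20000), .ofNat (nat_lit 409993), .ofNat (nat_lit 20000), .ofNat (nat_lit 459993)⟩⟩, [⟨nat_lit 13, nat_lit 65, nat_lit 54, nat_lit 100, nat_lit 356879719⟩, ⟨nat_lit 16, nat_lit 62, nat_lit 100, nat_lit 94, nat_lit 71627381⟩]⟩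
noncomputable def t08_l1 : Lf2 := ⟨nat_lit 0, nat_lit 20, [nat_lit 5, nat_lit 5, nat_lit 5, nat_lit 20], false, nat_lit 160, nat_lit 248, nat_lit 240, nat_lit 352, ⟨nat_lit 119, nat_lit 881, nat_lit 0, nat_lit 8, nat_lit 319, nat_lit 881, nat_lit 157, nat_lit 0, nat_lit 0, nat_lit 0, nat_lit 0, nat_lit 0, nat_lit 35948643, nat_lit 23505709, nat_lit 7545648, nat_lit 5078233, true, true⟩,
 nat_lit 0, nat_lit 0, nat_lit 1566, nat_lit 0, nat_lit 188, nat_lit 911, nat_lit 0, nat_lit 0, nat_lit 287, nat_lit 86, nat_lit 0, nat_lit 0, nat_lit 0, nat_lit 0, nat_lit 0, nat_lit 220250, nat_lit 0, nat_lit 0, [(nat_lit 25, [(nat_lit 0, nat_lit 881)])],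
 ⟨t08_k1, nat_lit 0, nat_lit 0, nat_lit 0, nat_lit 0, nat_lit 0, [nat_lit 784706000, nat_lit 1596470801, nat_lit 2609708000], [], [nat_lit 22949335792, nat_lit 23558990840, nat_lit 24569098996, nat_lit 25193281543, nat_lit 24868266229, nat_lit 25488186268, nat_lit 26515428234, nat_lit 27120956652], nat_lit 0, nat_lit 0, nat_lit 0, nat_lit 0, nat_lit 0, nat_lit 0, [], [nat_lit 20, nat_lit 40, nat_lit 40, nat_lit 80]⟩, ⟨t08_k2, nat_lit 0, nat_lit 0, nat_lit 651, nat_lit 0, nat_lit 1204723, [nat_lit 557872000, nat_lit 948192000, nat_lit 1412768000], [], [nat_lit 3893783334, nat_lit 3905861694, nat_lit 4037582820, nat_lit 4050813717, nat_lit 4055534704, nat_lit 4063519566, nat_lit 4186883746, nat_lit 4215104985], nat_lit 1271250, nat_lit 1271250, nat_lit 1271250, nat_lit 1271250, nat_lit 1271250, nat_lit 1271250, [nat_lit 1100000, nat_lit 1785000, nat_lit 1271250], [nat_lit 21, nat_lit 40,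 nat_lit 40, nat_lit 80, nat_lit 14, nat_lit 401, nat_lit 175, nat_lit 9]⟩,
 ⟨nat_lit 2236, nat_lit 3163, ⟨.ofNat (nat_lit 749323), .ofNat (nat_lit 834658), .ofNat (nat_lit 771478), .ofNat (nat_lit 856813), .ofNat (nat_lit 739368), .ofNat (nat_lit 819190), .ofNat (nat_lit 762142), .ofNat (nat_lit 841964)⟩, ⟨.ofNat (nat_lit 306116), .ofNat (nat_lit 440213), .ofNat (nat_lit 350426), .ofNat (nat_lit 484523), .ofNat (nat_lit 306337), .ofNat (nat_lit 431772), .ofNat (nat_lit 351886), .ofNat (nat_lit 477320)⟩⟩, [⟨nat_lit 13, nat_lit 56, nat_lit 65, nat_lit 100, nat_lit 168622694⟩, ⟨nat_lit 13, nat_lit 46, nat_lit 76, nat_lit 100, nat_lit 41886386⟩, ⟨nat_lit 4, nat_lit 100, nat_lit 53, nat_lit 87, nat_lit 7564447⟩, ⟨nat_lit 19, nat_lit 100, nat_lit 82, nat_lit 92, nat_lit 40394590⟩]⟩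
noncomputable def t08_l2 : Lf2 := ⟨nat_lit 0, nat_lit 20, [nat_lit 5, nat_lit 5, nat_lit 5, nat_lit 20], true, nat_lit 160, nat_lit 248, nat_lit 240, nat_lit 352, ⟨nat_lit 0, nat_lit 1000, nat_lit 0, nat_lit 8, nat_lit 319, nat_lit 1000, nat_lit 157, nat_lit 0, nat_lit 0, nat_lit 0, nat_lit 0, nat_lit 0, nat_lit 35948643, nat_lit 23505709, nat_lit 7545648, nat_lit 5078233, true, true⟩,
 nat_lit 0, nat_lit 0, nat_lit 0, nat_lit 96515, nat_lit 100000, nat_lit 0, nat_lit 7625, nat_lit 11084, nat_lit 0, nat_lit 0, nat_lit 0, nat_lit 0, nat_lit 0, nat_lit 0, nat_lit 0, nat_lit 250000, nat_lit 0, nat_lit 0, [(nat_lit 25, [(nat_lit 0, nat_lit 1000)])],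
 ⟨t08_k1, nat_lit 0, nat_lit 0, nat_lit 0, nat_lit 0, nat_lit 0, [nat_lit 45100000000, nat_lit 134376800000, nat_lit 223798000000], [], [nat_lit 149276744125, nat_lit 162365274125, nat_lit 177294750525, nat_lit 187700448525, nat_lit 141316190526, nat_lit 151516816726, nat_lit 162510866206, nat_lit 172339666520], nat_lit 0, nat_lit 0, nat_lit 0, nat_lit 0, nat_lit 0, nat_lit 0, [], [nat_lit 20, nat_lit 40, nat_lit 40, nat_lit 80]⟩, C1.Rw.none,
 ⟨nat_lit 2236, nat_lit 3163, ⟨.ofNat (nat_lit 749323), .ofNat (nat_lit 834658), .ofNat (nat_lit 771478), .ofNat (nat_lit 856813), .ofNat (nat_lit 739368), .ofNat (nat_lit 819190), .ofNat (nat_lit 762142), .ofNat (nat_lit 841964)⟩, ⟨.ofNat (nat_lit 306116), .ofNat (nat_lit 440213), .ofNat (nat_lit 350426), .ofNat (nat_lit 484523), .ofNat (nat_lit 306337), .ofNat (nat_lit 431772), .ofNat (nat_lit 351886), .ofNat (nat_lit 477320)⟩⟩, [⟨nat_lit 13, nat_lit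 65, nat_lit 54, nat_lit 100, nat_lit 2888869724⟩, ⟨nat_lit 16, nat_lit 62, nat_lit 100, nat_lit 94, nat_lit 8087979010⟩]⟩
noncomputable def t08_l3 : Lf2 := ⟨nat_lit 2, nat_lit 20, [nat_lit 5, nat_lit 5, nat_lit 5, nat_lit 20], true, nat_lit 160, nat_lit 248, nat_lit 240, nat_lit 352, zbN0,
 nat_lit 0, nat_lit 0, nat_lit 0, nat_lit 0, nat_lit 0, nat_lit 0, nat_lit 0, nat_lit 0, nat_lit 0, nat_lit 0, nat_lit 0, nat_lit 0, nat_lit 0, nat_lit 0, nat_lit 0, nat_lit 0, nat_lit 0, nat_lit 0, [],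
 ⟨t08_k1, nat_lit 0, nat_lit 0, nat_lit 96, nat_lit 0, nat_lit 0, [], [], [], nat_lit 0, nat_lit 0, nat_lit 0, nat_lit 0, nat_lit 0, nat_lit 0, [], [nat_lit 20, nat_lit 40, nat_lit 40, nat_lit 80, nat_lit 16, nat_lit 289, nat_lit 75, nat_lit 9]⟩, C1.Rw.none,
 zbF0, []⟩
noncomputable def t08_l4 : Lf2 := ⟨nat_lit 0, nat_lit 30, [nat_lit 15, nat_lit 5, nat_lit 5, nat_lit 20], false, nat_lit 80, nat_lit 160, nat_lit 0, nat_lit 160, ⟨nat_lit 677, nat_lit 323, nat_lit 0, nat_lit 7, nat_lit 286, nat_lit 323, nat_lit 108, nat_lit 0, nat_lit 0, nat_lit 0, nat_lit 0, nat_lit 0, nat_lit 40871132, nat_lit 21529468, nat_lit 4599400, nat_lit 4507145, true, true⟩,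
 nat_lit 0, nat_lit 0, nat_lit 8551, nat_lit 0, nat_lit 3056, nat_lit 4977, nat_lit 291, nat_lit 0, nat_lit 0, nat_lit 675, nat_lit 0, nat_lit 0, nat_lit 0, nat_lit 0, nat_lit 0, nat_lit 80750, nat_lit 0, nat_lit 0, [(nat_lit 29, [(nat_lit 0, nat_lit 323)])],
 ⟨t08_k3, nat_lit 0, nat_lit 0, nat_lit 116, nat_lit 0, nat_lit 0, [nat_lit 887482801, nat_lit 2559772000, nat_lit 4808257200], [], [nat_lit 25548335635, nat_lit 26129921339, nat_lit 27075048347, nat_lit 27614456896, nat_lit 25950718181, nat_lit 26459074525, nat_lit 27330684851, nat_lit 27819633723], nat_lit 0, nat_lit 0, nat_lit 0, nat_lit 0, nat_lit 0, nat_lit 0, [], [nat_lit 20, nat_lit 40, nat_lit 40, nat_lit 80, nat_lit 16, nat_lit 249, nat_lit 40, nat_lit 8]⟩, ⟨t08_k4, nat_lit 0, nat_lit 0, nat_lit 595, nat_lit 0, nat_lit 636554, [nat_lit 3173776000, nat_lit 5394336000, nat_lit 9517266000], [], [nat_lit 22961330096, nat_lit 23211352500,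 nat_lit 23685745834, nat_lit 23892614504, nat_lit 19774528472, nat_lit 20037010672, nat_lit 20492011462, nat_lit 20714406692], nat_lit 1271250, nat_lit 1271250, nat_lit 1271250, nat_lit 1271250, nat_lit 0, nat_lit 1100001, [nat_lit 1100000, nat_lit 1785000, nat_lit 1271250], [nat_lit 37, nat_lit 40, nat_lit 40, nat_lit 80, nat_lit 28, nat_lit 428, nat_lit 200, nat_lit 10]⟩,
 ⟨nat_lit 0, nat_lit 1582, ⟨.ofNat (nat_lit 679215), .ofNat (nat_lit 733849), .ofNat (nat_lit 702515), .ofNat (nat_lit 757165), .ofNat (nat_lit 674999), .ofNat (nat_lit 724997), .ofNat (nat_lit 699984), .ofNat (nat_lit 749998)⟩, ⟨.ofNat (nat_lit 200000), .ofNat (nat_lit 328785), .ofNat (nat_lit 200000), .ofNat (nat_lit 352101), .ofNat (nat_lit 200000), .ofNat (nat_lit 324996), .ofNat (nat_lit 200000), .ofNat (nat_lit 349997)⟩⟩, [⟨nat_lit 4, nat_lit 100, nat_lit 23, nat_lit 92, nat_lit 601661221⟩]⟩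
theorem r_V_900_600_20 (h : EB TB.env) : Dead (RC.box ⟨true, 120, 360, 400, 240, 280, 80, 120, [156]⟩ 0 156) := chkB_sound h (refs := [b_V_900_600_20_0, b_V_900_600_20_1, b_V_900_600_20_2, b_V_900_600_20_3, b_V_900_600_20_4, b_V_900_600_20_5, b_V_900_600_20_6, b_V_900_600_20_7, b_V_900_600_20_8, b_V_900_600_20_9, b_V_900_600_20_10, b_V_900_600_20_11, b_V_900_600_20_12, b_V_900_600_20_13, b_V_900_600_20_14, b_V_900_600_20_15, b_V_900_600_20_16, b_V_900_600_20_17, b_V_900_600_20_18, b_V_900_600_20_19, b_V_900_600_20_20, b_V_900_600_20_21, b_V_900_600_20_22, b_V_900_600_20_23, b_V_900_600_20_24, b_V_900_600_20_25, b_V_900_600_20_26, b_V_900_600_20_27, b_V_900_600_20_28, b_V_900_600_20_29, b_V_900_600_20_30, b_V_900_600_20_31, b_V_900_600_20_32, b_V_900_600_20_33, b_V_900_600_20_34, b_V_900_600_20_35, b_V_900_600_20_36, b_V_900_600_20_37, b_V_900_600_20_38, b_V_900_600_20_39, b_V_900_600_20_40,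 b_V_900_600_20_41, b_V_900_600_20_42, b_V_900_600_20_43, b_V_900_600_20_44, b_V_900_600_20_45, b_V_900_600_20_46, b_V_900_600_20_47, b_V_900_600_20_48, b_V_900_600_20_49, b_V_900_600_20_50, b_V_900_600_20_51, b_V_900_600_20_52, b_V_900_600_20_53, b_V_900_600_20_54, b_V_900_600_20_55, b_V_900_600_20_56, b_V_900_600_20_57, b_V_900_600_20_58, b_V_900_600_20_59, b_V_900_600_20_60, b_V_900_600_20_61, b_V_900_600_20_62, b_V_900_600_20_63, b_V_900_600_20_64, b_V_900_600_20_65, b_V_900_600_20_66, b_V_900_600_20_67, b_V_900_600_20_68, b_V_900_600_20_69, b_V_900_600_20_70, b_V_900_600_20_71, b_V_900_600_20_72, b_V_900_600_20_73, b_V_900_600_20_74, b_V_900_600_20_75, b_V_900_600_20_76, b_V_900_600_20_77, b_V_900_600_20_78, b_V_900_600_20_79, b_V_900_600_20_80, b_V_900_600_20_81, b_V_900_600_20_82, b_V_900_600_20_83, b_V_900_600_20_84, b_V_900_600_20_85, b_V_900_600_20_86, b_V_900_600_20_87, b_V_900_600_20_88])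 (refs_cons (d_V_900_600_20_0 h) (refs_cons (d_V_900_600_20_1 h) (refs_cons (d_V_900_600_20_2 h) (refs_cons (d_V_900_600_20_3 h) (refs_cons (d_V_900_600_20_4 h) (refs_cons (d_V_900_600_20_5 h) (refs_cons (d_V_900_600_20_6 h) (refs_cons (d_V_900_600_20_7 h) (refs_cons (d_V_900_600_20_8 h) (refs_cons (d_V_900_600_20_9 h) (refs_cons (d_V_900_600_20_10 h) (refs_cons (d_V_900_600_20_11 h) (refs_cons (d_V_900_600_20_12 h) (refs_cons (d_V_900_600_20_13 h) (refs_cons (d_V_900_600_20_14 h) (refs_cons (d_V_900_600_20_15 h) (refs_cons (d_V_900_600_20_16 h) (refs_cons (d_V_900_600_20_17 h) (refs_cons (d_V_900_600_20_18 h) (refs_cons (d_V_900_600_20_19 h) (refs_cons (d_V_900_600_20_20 h) (refs_cons (d_V_900_600_20_21 h) (refs_cons (d_V_900_600_20_22 h) (refs_cons (d_V_900_600_20_23 h) (refs_cons (d_V_900_600_20_24 h) (refs_cons (d_V_900_600_20_25 h) (refs_cons (d_V_900_600_20_26 h) (refs_cons (d_V_900_600_20_27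 h) (refs_cons (d_V_900_600_20_28 h) (refs_cons (d_V_900_600_20_29 h) (refs_cons (d_V_900_600_20_30 h) (refs_cons (d_V_900_600_20_31 h) (refs_cons (d_V_900_600_20_32 h) (refs_cons (d_V_900_600_20_33 h) (refs_cons (d_V_900_600_20_34 h) (refs_cons (d_V_900_600_20_35 h) (refs_cons (d_V_900_600_20_36 h) (refs_cons (d_V_900_600_20_37 h) (refs_cons (d_V_900_600_20_38 h) (refs_cons (d_V_900_600_20_39 h) (refs_cons (d_V_900_600_20_40 h) (refs_cons (d_V_900_600_20_41 h) (refs_cons (d_V_900_600_20_42 h) (refs_cons (d_V_900_600_20_43 h) (refs_cons (d_V_900_600_20_44 h) (refs_cons (d_V_900_600_20_45 h) (refs_cons (d_V_900_600_20_46 h) (refs_cons (d_V_900_600_20_47 h) (refs_cons (d_V_900_600_20_48 h) (refs_cons (d_V_900_600_20_49 h) (refs_cons (d_V_900_600_20_50 h) (refs_cons (d_V_900_600_20_51 h) (refs_cons (d_V_900_600_20_52 h) (refs_cons (d_V_900_600_20_53 h) (refs_cons (d_V_900_600_20_54 h) (refs_cons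 (d_V_900_600_20_55 h) (refs_cons (d_V_900_600_20_56 h) (refs_cons (d_V_900_600_20_57 h) (refs_cons (d_V_900_600_20_58 h) (refs_cons (d_V_900_600_20_59 h) (refs_cons (d_V_900_600_20_60 h) (refs_cons (d_V_900_600_20_61 h) (refs_cons (d_V_900_600_20_62 h) (refs_cons (d_V_900_600_20_63 h) (refs_cons (d_V_900_600_20_64 h) (refs_cons (d_V_900_600_20_65 h) (refs_cons (d_V_900_600_20_66 h) (refs_cons (d_V_900_600_20_67 h) (refs_cons (d_V_900_600_20_68 h) (refs_cons (d_V_900_600_20_69 h) (refs_cons (d_V_900_600_20_70 h) (refs_cons (d_V_900_600_20_71 h) (refs_cons (d_V_900_600_20_72 h) (refs_cons (d_V_900_600_20_73 h) (refs_cons (d_V_900_600_20_74 h) (refs_cons (d_V_900_600_20_75 h) (refs_cons (d_V_900_600_20_76 h) (refs_cons (d_V_900_600_20_77 h) (refs_cons (d_V_900_600_20_78 h) (refs_cons (d_V_900_600_20_79 h) (refs_cons (d_V_900_600_20_80 h) (refs_cons (d_V_900_600_20_81 h) (refs_cons (d_V_900_600_20_82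 h) (refs_cons (d_V_900_600_20_83 h) (refs_cons (d_V_900_600_20_84 h) (refs_cons (d_V_900_600_20_85 h) (refs_cons (d_V_900_600_20_86 h) (refs_cons (d_V_900_600_20_87 h) (refs_cons (d_V_900_600_20_88 h) (refs_nil)))))))))))))))))))))))))))))))))))))))))))))))))))))))))))))))))))))))))))))))))))))))))) (T :=
(.trZ (nat_lit 0) (nat_lit 100) (nat_lit 61) (nat_lit 92) (nat_lit 112) (.trX (nat_lit 13) (nat_lit 65) (nat_lit 54) (nat_lit 100) (nat_lit 376) (.trZ (nat_lit 3) (nat_lit 100) (nat_lit 75) (nat_lit 35) (nat_lit 8) (.trX (nat_lit 16) (nat_lit 62) (nat_lit 100) (nat_lit 94) (nat_lit 248) (.trX (nat_lit 19) (nat_lit 100) (nat_lit 59) (nat_lit 94) (nat_lit 364) (.spl (nat_lit 6) (nat_lit 40)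
(.st (nat_lit 0)
(.gv
(.st (nat_lit 1)
(.ref (nat_lit 0))
(.spl (nat_lit 2) (nat_lit 240)
(.ref (nat_lit 1))
(.spl (nat_lit 4) (nat_lit 160)
(.ref (nat_lit 2))
(.ref (nat_lit 3)))))
(.leaf t08_l0))
(.gv
(.st (nat_lit 1)
(.ref (nat_lit 4))
(.spl (nat_lit 2) (nat_lit 240)
(.ref (nat_lit 5))
(.ref (nat_lit 6))))
(.ref (nat_lit 7))))
(.spl (nat_lit 6) (nat_lit 80)
(.st (nat_lit 0)
(.gv
(.st (nat_lit 1)
(.ref (nat_lit 8))
(.spl (nat_lit 2) (nat_lit 240)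
(.ref (nat_lit 9))
(.spl (nat_lit 4) (nat_lit 160)
(.spl (nat_lit 4) (nat_lit 80)
(.trX (nat_lit 22) (nat_lit 100) (nat_lit 76) (nat_lit 82) (nat_lit 336) (.spl (nat_lit 2) (nat_lit 320)
(.ref (nat_lit 10))
(.ref (nat_lit 11))))
(.ref (nat_lit 12)))
(.spl (nat_lit 2) (nat_lit 320)
(.ref (nat_lit 13))
(.trZ (nat_lit 9) (nat_lit 100) (nat_lit 82) (nat_lit 44) (nat_lit 16) (.spl (nat_lit 0) (nat_lit 380)
(.spl (nat_lit 1) (nat_lit 260)
(.ref (nat_lit 14))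
(.trX (nat_lit 19) (nat_lit 100) (nat_lit 69) (nat_lit 96) (nat_lit 352) (.spl (nat_lit 5) (nat_lit 160)
(.ref (nat_lit 15))
(.spl (nat_lit 5) (nat_lit 240)
(.ref (nat_lit 16))
(.spl (nat_lit 7) (nat_lit 600)
(.spl (nat_lit 7) (nat_lit 300)
(.leaf t08_l1)
(.spl (nat_lit 7) (nat_lit 460)
(.spl (nat_lit 1) (nat_lit 270)
(.ref (nat_lit 17))
(.ref (nat_lit 18)))
(.leaf t08_l2)))
(.leaf t08_l3))))))
(.ref (nat_lit 19))))))))
(.ref (nat_lit 20)))
(.gv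
(.st (nat_lit 1)
(.ref (nat_lit 21))
(.spl (nat_lit 2) (nat_lit 240)
(.ref (nat_lit 22))
(.spl (nat_lit 4) (nat_lit 160)
(.ref (nat_lit 23))
(.ref (nat_lit 24)))))
(.ref (nat_lit 25))))
(.spl (nat_lit 6) (nat_lit 120)
(.st (nat_lit 0)
(.gv
(.st (nat_lit 1)
(.ref (nat_lit 26))
(.spl (nat_lit 2) (nat_lit 240)
(.spl (nat_lit 4) (nat_lit 160)
(.spl (nat_lit 4) (nat_lit 80)
(.spl (nat_lit 0) (nat_lit 380)
(.ref (nat_lit 27))
(.ref (nat_lit 28)))
(.ref (nat_lit 29)))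
(.ref (nat_lit 30)))
(.spl (nat_lit 4) (nat_lit 160)
(.spl (nat_lit 0) (nat_lit 380)
(.spl (nat_lit 4) (nat_lit 80)
(.trX (nat_lit 22) (nat_lit 100) (nat_lit 76) (nat_lit 82) (nat_lit 336) (.spl (nat_lit 1) (nat_lit 260)
(.ref (nat_lit 31))
(.ref (nat_lit 32))))
(.spl (nat_lit 2) (nat_lit 320)
(.spl (nat_lit 3) (nat_lit 100)
(.ref (nat_lit 33))
(.ref (nat_lit 34)))
(.trX (nat_lit 22) (nat_lit 82) (nat_lit 76) (nat_lit 100) (nat_lit 336) (.spl (nat_lit 1) (nat_lit 260)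
(.ref (nat_lit 35))
(.ref (nat_lit 36))))))
(.trX (nat_lit 13) (nat_lit 48) (nat_lit 71) (nat_lit 100) (nat_lit 352) (.trZ (nat_lit 3) (nat_lit 100) (nat_lit 54) (nat_lit 57) (nat_lit 20) (.spl (nat_lit 4) (nat_lit 80)
(.trX (nat_lit 22) (nat_lit 100) (nat_lit 76) (nat_lit 82) (nat_lit 336) (.spl (nat_lit 2) (nat_lit 320)
(.spl (nat_lit 2) (nat_lit 280)
(.ref (nat_lit 37))
(.ref (nat_lit 38)))
(.ref (nat_lit 39))))
(.spl (nat_lit 2) (nat_lit 320)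
(.spl (nat_lit 2) (nat_lit 280)
(.spl (nat_lit 3) (nat_lit 100)
(.ref (nat_lit 40))
(.spl (nat_lit 6) (nat_lit 100)
(.ref (nat_lit 41))
(.ref (nat_lit 42))))
(.spl (nat_lit 0) (nat_lit 390)
(.spl (nat_lit 3) (nat_lit 100)
(.ref (nat_lit 43))
(.ref (nat_lit 44)))
(.spl (nat_lit 3) (nat_lit 100)
(.ref (nat_lit 45))
(.spl (nat_lit 1) (nat_lit 260)
(.ref (nat_lit 46))
(.trX (nat_lit 19) (nat_lit 100) (nat_lit 69) (nat_lit 96) (nat_lit 352) (.spl (nat_lit 6) (nat_lit 100)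
(.ref (nat_lit 47))
(.spl (nat_lit 5) (nat_lit 160)
(.leaf t08_l4)
(.ref (nat_lit 48)))))))))
(.trX (nat_lit 22) (nat_lit 82) (nat_lit 76) (nat_lit 100) (nat_lit 336) (.spl (nat_lit 1) (nat_lit 260)
(.ref (nat_lit 49))
(.spl (nat_lit 3) (nat_lit 100)
(.ref (nat_lit 50))
(.ref (nat_lit 51))))))))))
(.spl (nat_lit 2) (nat_lit 320)
(.spl (nat_lit 2) (nat_lit 280)
(.ref (nat_lit 52))
(.ref (nat_lit 53)))
(.trZ (nat_lit 9) (nat_lit 100) (nat_lit 82) (nat_lit 44) (nat_lit 16) (.spl (nat_lit 0) (nat_lit 380)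
(.spl (nat_lit 2) (nat_lit 360)
(.ref (nat_lit 54))
(.ref (nat_lit 55)))
(.ref (nat_lit 56))))))))
(.ref (nat_lit 57)))
(.gv
(.st (nat_lit 1)
(.spl (nat_lit 2) (nat_lit 240)
(.spl (nat_lit 0) (nat_lit 380)
(.ref (nat_lit 58))
(.ref (nat_lit 59)))
(.ref (nat_lit 60)))
(.spl (nat_lit 2) (nat_lit 240)
(.spl (nat_lit 4) (nat_lit 160)
(.spl (nat_lit 4) (nat_lit 80)
(.ref (nat_lit 61))
(.ref (nat_lit 62)))
(.ref (nat_lit 63)))
(.spl (nat_lit 0) (nat_lit 380)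
(.spl (nat_lit 4) (nat_lit 160)
(.ref (nat_lit 64))
(.ref (nat_lit 65)))
(.trX (nat_lit 13) (nat_lit 48) (nat_lit 71) (nat_lit 100) (nat_lit 352) (.trZ (nat_lit 3) (nat_lit 100) (nat_lit 54) (nat_lit 57) (nat_lit 20) (.trX (nat_lit 16) (nat_lit 44) (nat_lit 100) (nat_lit 92) (nat_lit 208) (.spl (nat_lit 4) (nat_lit 80)
(.ref (nat_lit 66))
(.spl (nat_lit 1) (nat_lit 260)
(.trX (nat_lit 13) (nat_lit 46) (nat_lit 76) (nat_lit 100) (nat_lit 340) (.spl (nat_lit 2) (nat_lit 280)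
(.ref (nat_lit 67))
(.ref (nat_lit 68))))
(.ref (nat_lit 69))))))))))
(.ref (nat_lit 70))))
(.st (nat_lit 0)
(.gv
(.st (nat_lit 1)
(.ref (nat_lit 71))
(.spl (nat_lit 2) (nat_lit 240)
(.spl (nat_lit 4) (nat_lit 160)
(.ref (nat_lit 72))
(.ref (nat_lit 73)))
(.spl (nat_lit 4) (nat_lit 160)
(.spl (nat_lit 0) (nat_lit 380)
(.ref (nat_lit 74))
(.trX (nat_lit 13) (nat_lit 48) (nat_lit 71) (nat_lit 100) (nat_lit 352) (.trZ (nat_lit 3) (nat_lit 100) (nat_lit 54) (nat_lit 57) (nat_lit 20) (.spl (nat_lit 4) (nat_lit 80)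
(.ref (nat_lit 75))
(.spl (nat_lit 2) (nat_lit 320)
(.spl (nat_lit 2) (nat_lit 280)
(.ref (nat_lit 76))
(.spl (nat_lit 0) (nat_lit 390)
(.ref (nat_lit 77))
(.ref (nat_lit 78))))
(.ref (nat_lit 79)))))))
(.ref (nat_lit 80)))))
(.ref (nat_lit 81)))
(.gv
(.st (nat_lit 1)
(.ref (nat_lit 82))
(.spl (nat_lit 2) (nat_lit 240)
(.spl (nat_lit 4) (nat_lit 160)
(.ref (nat_lit 83))
(.ref (nat_lit 84)))
(.spl (nat_lit 0) (nat_lit 380)
(.ref (nat_lit 85))
(.trX (nat_lit 13) (nat_lit 48) (nat_lit 71) (nat_lit 100) (nat_lit 352) (.trZ (nat_lit 3) (nat_lit 100) (nat_lit 54) (nat_lit 57) (nat_lit 20) (.trX (nat_lit 16) (nat_lit 44) (nat_lit 100) (nat_lit 92) (nat_lit 208) (.spl (nat_lit 4) (nat_lit 80)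
(.ref (nat_lit 86))
(.ref (nat_lit 87)))))))))
(.ref (nat_lit 88))))))))))))) (by decide +kernel)
theorem done_V_900_600_20 (h : EB TB.env) : RC.Done ⟨true, 120, 360, 400, 240, 280, 80, 120, [156]⟩ := RC.done1 (r_V_900_600_20 h) (t_V_900_600_20 h)
theorem t_V_900_700_10 (h : EB TB.env) : RC.Tail ⟨true, 80, 360, 400, 280, 320, 40, 80, [184]⟩ := RC.tail_chk h (b := ⟨nat_lit 40, nat_lit 92, nat_lit 5, nat_lit 5, nat_lit 20, nat_lit 226, nat_lit 20, nat_lit 16, nat_lit 5⟩) (by decide +kernel)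
noncomputable def t08_l5 : Lf2 := ⟨nat_lit 0, nat_lit 20, [nat_lit 5, nat_lit 5, nat_lit 5, nat_lit 20], false, nat_lit 0, nat_lit 200, nat_lit 0, nat_lit 300, ⟨nat_lit 1000, nat_lit 0, nat_lit 0, nat_lit 0, nat_lit 0, nat_lit 0, nat_lit 0, nat_lit 0, nat_lit 0, nat_lit 0, nat_lit 0, nat_lit 0, nat_lit 0, nat_lit 0, nat_lit 0, nat_lit 0, false, false⟩,
 nat_lit 0, nat_lit 0, nat_lit 0, nat_lit 0, nat_lit 6325, nat_lit 13591, nat_lit 0, nat_lit 0, nat_lit 0, nat_lit 0, nat_lit 0, nat_lit 0, nat_lit 0, nat_lit 0, nat_lit 0, nat_lit 0, nat_lit 0, nat_lit 0, [],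
 ⟨t08_k5, nat_lit 0, nat_lit 0, nat_lit 200, nat_lit 0, nat_lit 0, [nat_lit 938000000, nat_lit 6250000000], [], [nat_lit 31139038580, nat_lit 34808012381, nat_lit 41045524401, nat_lit 44238475940, nat_lit 28354735450, nat_lit 31228825221, nat_lit 35529115510, nat_lit 37220388591], nat_lit 0, nat_lit 0, nat_lit 0, nat_lit 0, nat_lit 0, nat_lit 0, [], [nat_lit 88, nat_lit 40, nat_lit 40, nat_lit 80, nat_lit 89, nat_lit 373, nat_lit 150, nat_lit 14]⟩, ⟨t08_k6, nat_lit 0, nat_lit 0, nat_lit 223, nat_lit 0, nat_lit 0, [nat_lit 3282000000, nat_lit 11872000000], [], [nat_lit 43432468912, nat_lit 45871192698, nat_lit 53989621535, nat_lit 57896167417, nat_lit 32595697627, nat_lit 33787580063, nat_lit 40086375452, nat_lit 42258523128], nat_lit 0, nat_lit 0, nat_lit 0, nat_lit 0, nat_lit 0, nat_lit 0, [], [nat_lit 135, nat_lit 40, nat_lit 40, nat_lit 80, nat_lit 134, nat_lit 538, nat_lit 300, nat_lit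 14]⟩,
 zbF0, [⟨nat_lit 0, nat_lit 87, nat_lit 44, nat_lit 100, nat_lit 53832541⟩]⟩
noncomputable def t08_l6 : Lf2 := ⟨nat_lit 0, nat_lit 20, [nat_lit 5, nat_lit 5, nat_lit 5, nat_lit 20], false, nat_lit 0, nat_lit 200, nat_lit 0, nat_lit 300, ⟨nat_lit 1000, nat_lit 0, nat_lit 0, nat_lit 0, nat_lit 0, nat_lit 0, nat_lit 0, nat_lit 0, nat_lit 0, nat_lit 0, nat_lit 0, nat_lit 0, nat_lit 0, nat_lit 0, nat_lit 0, nat_lit 0, false, false⟩,
 nat_lit 0, nat_lit 0, nat_lit 0, nat_lit 0, nat_lit 7066, nat_lit 11711, nat_lit 0, nat_lit 0, nat_lit 0, nat_lit 0, nat_lit 0, nat_lit 0, nat_lit 0, nat_lit 0, nat_lit 0, nat_lit 0, nat_lit 0, nat_lit 0, [],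
 ⟨t08_k1, nat_lit 0, nat_lit 0, nat_lit 200, nat_lit 0, nat_lit 0, [nat_lit 938000000, nat_lit 3282000000, nat_lit 6250000000], [], [nat_lit 30656435951, nat_lit 34698618764, nat_lit 43243069568, nat_lit 46653335068, nat_lit 27106323844, nat_lit 30178073586, nat_lit 34955618497, nat_lit 37722653973], nat_lit 0, nat_lit 0, nat_lit 0, nat_lit 0, nat_lit 0, nat_lit 0, [], [nat_lit 20, nat_lit 40, nat_lit 40, nat_lit 80, nat_lit 16, nat_lit 373, nat_lit 150, nat_lit 14]⟩, ⟨t08_k7, nat_lit 0, nat_lit 0, nat_lit 239, nat_lit 0, nat_lit 0, [nat_lit 3282000000, nat_lit 6250000000, nat_lit 11872000000], [], [nat_lit 36170194068, nat_lit 40503493481, nat_lit 50938606821, nat_lit 52790895093, nat_lit 31370809319, nat_lit 33794084751, nat_lit 38682935197, nat_lit 40143324224], nat_lit 0, nat_lit 0, nat_lit 0, nat_lit 0, nat_lit 0, nat_lit 0, [], [nat_lit 23, nat_lit 40, nat_lit 40, nat_lit 80, nat_lit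 12, nat_lit 538, nat_lit 300, nat_lit 14]⟩,
 zbF0, [⟨nat_lit 0, nat_lit 87, nat_lit 44, nat_lit 100, nat_lit 24685882⟩, ⟨nat_lit 4, nat_lit 100, nat_lit 46, nat_lit 75, nat_lit 62534087⟩]⟩
theorem r_V_900_700_10 (h : EB TB.env) : Dead (RC.box ⟨true, 80, 360, 400, 280, 320, 40, 80, [184]⟩ 0 184) := chkB_sound h (refs := [b_V_900_700_10_0, b_V_900_700_10_1, b_V_900_700_10_2, b_V_900_700_10_3, b_V_900_700_10_4, b_V_900_700_10_5, b_V_900_700_10_6, b_V_900_700_10_7, b_V_900_700_10_8, b_V_900_700_10_9, b_V_900_700_10_10, b_V_900_700_10_11, b_V_900_700_10_12, b_V_900_700_10_13, b_V_900_700_10_14, b_V_900_700_10_15, b_V_900_700_10_16, b_V_900_700_10_17, b_V_900_700_10_18, b_V_900_700_10_19, b_V_900_700_10_20, b_V_900_700_10_21, b_V_900_700_10_22, b_V_900_700_10_23, b_V_900_700_10_24, b_V_900_700_10_25, b_V_900_700_10_26, b_V_900_700_10_27]) (refs_cons (d_V_900_700_10_0 h) (refs_cons (d_V_900_700_10_1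 h) (refs_cons (d_V_900_700_10_2 h) (refs_cons (d_V_900_700_10_3 h) (refs_cons (d_V_900_700_10_4 h) (refs_cons (d_V_900_700_10_5 h) (refs_cons (d_V_900_700_10_6 h) (refs_cons (d_V_900_700_10_7 h) (refs_cons (d_V_900_700_10_8 h) (refs_cons (d_V_900_700_10_9 h) (refs_cons (d_V_900_700_10_10 h) (refs_cons (d_V_900_700_10_11 h) (refs_cons (d_V_900_700_10_12 h) (refs_cons (d_V_900_700_10_13 h) (refs_cons (d_V_900_700_10_14 h) (refs_cons (d_V_900_700_10_15 h) (refs_cons (d_V_900_700_10_16 h) (refs_cons (d_V_900_700_10_17 h) (refs_cons (d_V_900_700_10_18 h) (refs_cons (d_V_900_700_10_19 h) (refs_cons (d_V_900_700_10_20 h) (refs_cons (d_V_900_700_10_21 h) (refs_cons (d_V_900_700_10_22 h) (refs_cons (d_V_900_700_10_23 h) (refs_cons (d_V_900_700_10_24 h) (refs_cons (d_V_900_700_10_25 h) (refs_cons (d_V_900_700_10_26 h) (refs_cons (d_V_900_700_10_27 h) (refs_nil))))))))))))))))))))))))))))) (T :=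
(.trZ (nat_lit 0) (nat_lit 94) (nat_lit 62) (nat_lit 100) (nat_lit 152) (.trX (nat_lit 13) (nat_lit 75) (nat_lit 35) (nat_lit 100) (nat_lit 392) (.trX (nat_lit 16) (nat_lit 60) (nat_lit 100) (nat_lit 80) (nat_lit 200) (.trX (nat_lit 19) (nat_lit 100) (nat_lit 95) (nat_lit 87) (nat_lit 300) (.spl (nat_lit 6) (nat_lit 40)
(.st (nat_lit 0)
(.ref (nat_lit 0))
(.ref (nat_lit 1)))
(.spl (nat_lit 6) (nat_lit 80)
(.st (nat_lit 0)
(.gv
(.st (nat_lit 1)
(.leaf t08_l5)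
(.spl (nat_lit 2) (nat_lit 240)
(.ref (nat_lit 2))
(.spl (nat_lit 4) (nat_lit 80)
(.spl (nat_lit 2) (nat_lit 320)
(.ref (nat_lit 3))
(.trX (nat_lit 22) (nat_lit 83) (nat_lit 100) (nat_lit 83) (nat_lit 260) (.spl (nat_lit 1) (nat_lit 300)
(.trX (nat_lit 13) (nat_lit 69) (nat_lit 45) (nat_lit 100) (nat_lit 384) (.spl (nat_lit 0) (nat_lit 380)
(.ref (nat_lit 4))
(.ref (nat_lit 5))))
(.ref (nat_lit 6)))))
(.spl (nat_lit 2) (nat_lit 320)
(.ref (nat_lit 7))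
(.spl (nat_lit 2) (nat_lit 360)
(.spl (nat_lit 0) (nat_lit 380)
(.ref (nat_lit 8))
(.ref (nat_lit 9)))
(.ref (nat_lit 10)))))))
(.ref (nat_lit 11)))
(.ref (nat_lit 12)))
(.spl (nat_lit 6) (nat_lit 120)
(.st (nat_lit 0)
(.gv
(.st (nat_lit 1)
(.leaf t08_l6)
(.spl (nat_lit 2) (nat_lit 240)
(.ref (nat_lit 13))
(.spl (nat_lit 4) (nat_lit 80)
(.spl (nat_lit 2) (nat_lit 320)
(.spl (nat_lit 0) (nat_lit 380)
(.ref (nat_lit 14))
(.ref (nat_lit 15)))
(.trX (nat_lit 22) (nat_lit 83) (nat_lit 100) (nat_lit 83) (nat_lit 260) (.spl (nat_lit 1) (nat_lit 300)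
(.ref (nat_lit 16))
(.ref (nat_lit 17)))))
(.spl (nat_lit 2) (nat_lit 320)
(.ref (nat_lit 18))
(.spl (nat_lit 1) (nat_lit 300)
(.trX (nat_lit 13) (nat_lit 69) (nat_lit 45) (nat_lit 100) (nat_lit 384) (.spl (nat_lit 0) (nat_lit 380)
(.ref (nat_lit 19))
(.ref (nat_lit 20))))
(.ref (nat_lit 21)))))))
(.ref (nat_lit 22)))
(.ref (nat_lit 23)))
(.spl (nat_lit 6) (nat_lit 160)
(.st (nat_lit 0)
(.gv
(.ref (nat_lit 24))
(.ref (nat_lit 25)))
(.ref (nat_lit 26)))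
(.ref (nat_lit 27))))))))))) (by decide +kernel)
theorem done_V_900_700_10 (h : EB TB.env) : RC.Done ⟨true, 80, 360, 400, 280, 320, 40, 80, [184]⟩ := RC.done1 (r_V_900_700_10 h) (t_V_900_700_10 h)
theorem t_V_900_700_20 (h : EB TB.env) : RC.Tail ⟨true, 120, 360, 400, 280, 320, 80, 120, [168]⟩ := RC.tail_chk h (b := ⟨nat_lit 60, nat_lit 84, nat_lit 5, nat_lit 5, nat_lit 20, nat_lit 238, nat_lit 30, nat_lit 11, nat_lit 15⟩) (by decide +kernel)
noncomputable def t08_l7 : Lf2 := ⟨nat_lit 0, nat_lit 10, [nat_lit 0, nat_lit 5, nat_lit 5, nat_lit 20], false, nat_lit 8, nat_lit 248, nat_lit 0, nat_lit 336, ⟨nat_lit 1000, nat_lit 0, nat_lit 0, nat_lit 0, nat_lit 0, nat_lit 0, nat_lit 0, nat_lit 0, nat_lit 0, nat_lit 0, nat_lit 0, nat_lit 0, nat_lit 0, nat_lit 0, nat_lit 0, nat_lit 0, false, false⟩,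
 nat_lit 0, nat_lit 0, nat_lit 0, nat_lit 0, nat_lit 6285, nat_lit 12269, nat_lit 0, nat_lit 0, nat_lit 0, nat_lit 0, nat_lit 0, nat_lit 0, nat_lit 0, nat_lit 0, nat_lit 0, nat_lit 0, nat_lit 0, nat_lit 0, [],
 ⟨t08_k8, nat_lit 0, nat_lit 0, nat_lit 168, nat_lit 0, nat_lit 0, [nat_lit 938000000, nat_lit 4688000000], [], [nat_lit 26181154183, nat_lit 32102219030, nat_lit 40356872066, nat_lit 43526165764, nat_lit 25322631818, nat_lit 28380618710, nat_lit 34467764754, nat_lit 36836388207], nat_lit 0, nat_lit 0, nat_lit 0, nat_lit 0, nat_lit 0, nat_lit 0, [], [nat_lit 86, nat_lit 40, nat_lit 40, nat_lit 80, nat_lit 87, nat_lit 401, nat_lit 175, nat_lit 18]⟩, ⟨t08_k9, nat_lit 0, nat_lit 0, nat_lit 198, nat_lit 0, nat_lit 0, [nat_lit 3282000000, nat_lit 9842000000], [], [nat_lit 29168366740, nat_lit 34358637229, nat_lit 50654905090, nat_lit 54305106712, nat_lit 29056335006, nat_lit 31564687139,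 nat_lit 40874855125, nat_lit 42619097375], nat_lit 0, nat_lit 0, nat_lit 0, nat_lit 0, nat_lit 0, nat_lit 0, [], [nat_lit 82, nat_lit 40, nat_lit 40, nat_lit 80, nat_lit 63, nat_lit 428, nat_lit 200, nat_lit 12]⟩,
 zbF0, [⟨nat_lit 16, nat_lit 44, nat_lit 100, nat_lit 87, nat_lit 79675644⟩, ⟨nat_lit 19, nat_lit 100, nat_lit 80, nat_lit 100, nat_lit 15483337⟩]⟩
noncomputable def t08_l8 : Lf2 := ⟨nat_lit 0, nat_lit 20, [nat_lit 5, nat_lit 5, nat_lit 5, nat_lit 20], false, nat_lit 8, nat_lit 248, nat_lit 0, nat_lit 336, ⟨nat_lit 1000, nat_lit 0, nat_lit 0, nat_lit 0, nat_lit 0, nat_lit 0, nat_lit 0, nat_lit 0, nat_lit 0, nat_lit 0, nat_lit 0, nat_lit 0, nat_lit 0, nat_lit 0, nat_lit 0, nat_lit 0, false, false⟩,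
 nat_lit 0, nat_lit 0, nat_lit 0, nat_lit 0, nat_lit 7104, nat_lit 14317, nat_lit 0, nat_lit 0, nat_lit 0, nat_lit 0, nat_lit 0, nat_lit 0, nat_lit 0, nat_lit 0, nat_lit 0, nat_lit 0, nat_lit 0, nat_lit 0, [],
 ⟨t08_k5, nat_lit 0, nat_lit 0, nat_lit 194, nat_lit 0, nat_lit 0, [nat_lit 938000000, nat_lit 6250000000], [], [nat_lit 30233062130, nat_lit 34162171705, nat_lit 42698337963, nat_lit 46106824084, nat_lit 28133985305, nat_lit 30940913569, nat_lit 35469566799, nat_lit 37997060658], nat_lit 0, nat_lit 0, nat_lit 0, nat_lit 0, nat_lit 0, nat_lit 0, [], [nat_lit 88, nat_lit 40, nat_lit 40, nat_lit 80, nat_lit 89, nat_lit 401, nat_lit 175, nat_lit 15]⟩, ⟨t08_k6, nat_lit 0, nat_lit 0, nat_lit 223, nat_lit 0, nat_lit 0, [nat_lit 3282000000, nat_lit 11872000000], [], [nat_lit 43055262545, nat_lit 45568939732, nat_lit 55820940853, nat_lit 59868262782, nat_lit 32681514241, nat_lit 35016459955,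 nat_lit 43209752400, nat_lit 45076134093], nat_lit 0, nat_lit 0, nat_lit 0, nat_lit 0, nat_lit 0, nat_lit 0, [], [nat_lit 135, nat_lit 40, nat_lit 40, nat_lit 80, nat_lit 134, nat_lit 538, nat_lit 300, nat_lit 14]⟩,
 zbF0, [⟨nat_lit 0, nat_lit 87, nat_lit 44, nat_lit 100, nat_lit 36015961⟩, ⟨nat_lit 4, nat_lit 100, nat_lit 44, nat_lit 87, nat_lit 2452751⟩]⟩
noncomputable def t08_l9 : Lf2 := ⟨nat_lit 0, nat_lit 20, [nat_lit 5, nat_lit 5, nat_lit 5, nat_lit 20], false, nat_lit 160, nat_lit 248, nat_lit 16, nat_lit 160, ⟨nat_lit 232, nat_lit 768, nat_lit 0, nat_lit 8, nat_lit 327, nat_lit 768, nat_lit 157, nat_lit 0, nat_lit 0, nat_lit 0, nat_lit 0, nat_lit 0, nat_lit 35353294, nat_lit 24193604, nat_lit 7453102, nat_lit 5087403, true, true⟩,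
 nat_lit 0, nat_lit 0, nat_lit 2864, nat_lit 0, nat_lit 2837, nat_lit 1822, nat_lit 166, nat_lit 0, nat_lit 0, nat_lit 164, nat_lit 0, nat_lit 0, nat_lit 0, nat_lit 0, nat_lit 0, nat_lit 307200, nat_lit 0, nat_lit 0, [(nat_lit 25, [(nat_lit 1, nat_lit 768)])],
 ⟨t08_k1, nat_lit 0, nat_lit 0, nat_lit 99, nat_lit 0, nat_lit 0, [nat_lit 866422401, nat_lit 1531062400, nat_lit 2152873600], [], [nat_lit 25871388559, nat_lit 26803813661, nat_lit 28331354721, nat_lit 29154516568, nat_lit 27526588969, nat_lit 28348614892, nat_lit 29784531446, nat_lit 30574517806], nat_lit 0, nat_lit 0, nat_lit 0, nat_lit 0, nat_lit 0, nat_lit 0, [], [nat_lit 20, nat_lit 40, nat_lit 40, nat_lit 80, nat_lit 16, nat_lit 289, nat_lit 75, nat_lit 9]⟩, ⟨t08_k7, nat_lit 0, nat_lit 0, nat_lit 717, nat_lit 0, nat_lit 1119789, [nat_lit 761424000, nat_lit 1450000000, nat_lit 2754304000], [], [nat_lit 8132850576, nat_lit 8172184577,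 nat_lit 8507278003, nat_lit 8560438670, nat_lit 7144023700, nat_lit 7174905754, nat_lit 7534009548, nat_lit 7570098177], nat_lit 1271250, nat_lit 1271250, nat_lit 1271250, nat_lit 1271250, nat_lit 88400, nat_lit 1100001, [nat_lit 780000, nat_lit 1435000, nat_lit 1271250], [nat_lit 23, nat_lit 40, nat_lit 40, nat_lit 80, nat_lit 12, nat_lit 345, nat_lit 125, nat_lit 8]⟩,
 ⟨nat_lit 2236, nat_lit 3163, ⟨.ofNat (nat_lit 771478), .ofNat (nat_lit 862908), .ofNat (nat_lit 782556), .ofNat (nat_lit 873986), .ofNat (nat_lit 762142), .ofNat (nat_lit 847666), .ofNat (nat_lit 773529), .ofNat (nat_lit 859053)⟩, ⟨.ofNat (nat_lit 306116), .ofNat (nat_lit 440213), .ofNat (nat_lit 350426), .ofNat (nat_lit 484523), .ofNat (nat_lit 306337), .ofNat (nat_lit 431772), .ofNat (nat_lit 351886), .ofNat (nat_lit 477320)⟩⟩, [⟨nat_lit 13, nat_lit 58, nat_lit 60, nat_lit 100, nat_lit 191216565⟩, ⟨nat_lit 13, nat_lit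 48, nat_lit 71, nat_lit 100, nat_lit 56429810⟩, ⟨nat_lit 4, nat_lit 100, nat_lit 53, nat_lit 87, nat_lit 329313322⟩]⟩
noncomputable def t08_l10 : Lf2 := ⟨nat_lit 0, nat_lit 20, [nat_lit 5, nat_lit 5, nat_lit 5, nat_lit 20], false, nat_lit 160, nat_lit 248, nat_lit 240, nat_lit 336, ⟨nat_lit 131, nat_lit 869, nat_lit 0, nat_lit 8, nat_lit 327, nat_lit 869, nat_lit 157, nat_lit 0, nat_lit 0, nat_lit 0, nat_lit 0, nat_lit 0, nat_lit 35353294, nat_lit 24193604, nat_lit 7453102, nat_lit 5087403, true, true⟩,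
 nat_lit 0, nat_lit 0, nat_lit 1644, nat_lit 0, nat_lit 111, nat_lit 1046, nat_lit 0, nat_lit 0, nat_lit 297, nat_lit 93, nat_lit 0, nat_lit 0, nat_lit 0, nat_lit 0, nat_lit 0, nat_lit 217250, nat_lit 0, nat_lit 0, [(nat_lit 25, [(nat_lit 0, nat_lit 869)])],
 ⟨t08_k1, nat_lit 0, nat_lit 0, nat_lit 0, nat_lit 0, nat_lit 0, [nat_lit 786794001, nat_lit 1619429200, nat_lit 2659292000], [], [nat_lit 22826797825, nat_lit 23427070731, nat_lit 24599162403, nat_lit 25211729582, nat_lit 24802793247, nat_lit 25412993822, nat_lit 26550113001, nat_lit 27144549296], nat_lit 0, nat_lit 0, nat_lit 0, nat_lit 0, nat_lit 0, nat_lit 0, [], [nat_lit 20, nat_lit 40, nat_lit 40, nat_lit 80]⟩, ⟨t08_k7, nat_lit 0, nat_lit 0, nat_lit 580, nat_lit 0, nat_lit 1119789, [nat_lit 429942000, nat_lit 818750000, nat_lit 1555232000], [], [nat_lit 3799503023, nat_lit 3819357231, nat_lit 4027367296, nat_lit 4050449921, nat_lit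 4005163934, nat_lit 4026150771, nat_lit 4244216203, nat_lit 4263938387], nat_lit 1271250, nat_lit 1271250, nat_lit 1271250, nat_lit 1271250, nat_lit 1271250, nat_lit 1271250, [nat_lit 780000, nat_lit 1435000, nat_lit 1271250], [nat_lit 23, nat_lit 40, nat_lit 40, nat_lit 80, nat_lit 12, nat_lit 401, nat_lit 175, nat_lit 9]⟩,
 ⟨nat_lit 2236, nat_lit 3163, ⟨.ofNat (nat_lit 771478), .ofNat (nat_lit 862908), .ofNat (nat_lit 782556), .ofNat (nat_lit 873986), .ofNat (nat_lit 762142), .ofNat (nat_lit 847666), .ofNat (nat_lit 773529), .ofNat (nat_lit 859053)⟩, ⟨.ofNat (nat_lit 306116), .ofNat (nat_lit 440213), .ofNat (nat_lit 350426), .ofNat (nat_lit 484523), .ofNat (nat_lit 306337), .ofNat (nat_lit 431772), .ofNat (nat_lit 351886), .ofNat (nat_lit 477320)⟩⟩, [⟨nat_lit 13, nat_lit 48, nat_lit 71, nat_lit 100, nat_lit 233344890⟩, ⟨nat_lit 4, nat_lit 100, nat_lit 53, nat_lit 87, nat_lit 13903201⟩,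 ⟨nat_lit 7, nat_lit 91, nat_lit 100, nat_lit 96, nat_lit 45233946⟩]⟩
noncomputable def t08_l11 : Lf2 := ⟨nat_lit 0, nat_lit 20, [nat_lit 5, nat_lit 5, nat_lit 5, nat_lit 20], true, nat_lit 160, nat_lit 248, nat_lit 240, nat_lit 336, ⟨nat_lit 0, nat_lit 1000, nat_lit 0, nat_lit 8, nat_lit 327, nat_lit 1000, nat_lit 157, nat_lit 0, nat_lit 0, nat_lit 0, nat_lit 0, nat_lit 0, nat_lit 35353294, nat_lit 24193604, nat_lit 7453102, nat_lit 5087403, true, true⟩,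
 nat_lit 0, nat_lit 0, nat_lit 0, nat_lit 0, nat_lit 100000, nat_lit 0, nat_lit 0, nat_lit 11093, nat_lit 0, nat_lit 0, nat_lit 0, nat_lit 0, nat_lit 0, nat_lit 0, nat_lit 0, nat_lit 250000, nat_lit 0, nat_lit 0, [(nat_lit 25, [(nat_lit 0, nat_lit 1000)])],
 ⟨t08_k1, nat_lit 0, nat_lit 0, nat_lit 0, nat_lit 0, nat_lit 0, [nat_lit 45136000000, nat_lit 134484800001, nat_lit 223978000000], [], [nat_lit 210432916000, nat_lit 223521446000, nat_lit 240684618000, nat_lit 250899621000, nat_lit 202508362401, nat_lit 212708988601, nat_lit 225433969601, nat_lit 233471912901], nat_lit 0, nat_lit 0, nat_lit 0, nat_lit 0, nat_lit 0, nat_lit 0, [], [nat_lit 20, nat_lit 40, nat_lit 40, nat_lit 80]⟩, C1.Rw.none,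
 ⟨nat_lit 2236, nat_lit 3163, ⟨.ofNat (nat_lit 771478), .ofNat (nat_lit 862908), .ofNat (nat_lit 782556), .ofNat (nat_lit 873986), .ofNat (nat_lit 762142), .ofNat (nat_lit 847666), .ofNat (nat_lit 773529), .ofNat (nat_lit 859053)⟩, ⟨.ofNat (nat_lit 306116), .ofNat (nat_lit 440213), .ofNat (nat_lit 350426), .ofNat (nat_lit 484523), .ofNat (nat_lit 306337), .ofNat (nat_lit 431772), .ofNat (nat_lit 351886), .ofNat (nat_lit 477320)⟩⟩, [⟨nat_lit 13, nat_lit 67, nat_lit 50, nat_lit 100, nat_lit 2825089625⟩, ⟨nat_lit 16, nat_lit 62, nat_lit 100, nat_lit 94, nat_lit 8052457460⟩]⟩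
noncomputable def t08_l12 : Lf2 := ⟨nat_lit 2, nat_lit 20, [nat_lit 5, nat_lit 5, nat_lit 5, nat_lit 20], true, nat_lit 160, nat_lit 248, nat_lit 240, nat_lit 336, zbN0,
 nat_lit 0, nat_lit 0, nat_lit 0, nat_lit 0, nat_lit 0, nat_lit 0, nat_lit 0, nat_lit 0, nat_lit 0, nat_lit 0, nat_lit 0, nat_lit 0, nat_lit 0, nat_lit 0, nat_lit 0, nat_lit 0, nat_lit 0, nat_lit 0, [],
 ⟨t08_k1, nat_lit 0, nat_lit 0, nat_lit 99, nat_lit 0, nat_lit 0, [], [], [], nat_lit 0, nat_lit 0, nat_lit 0, nat_lit 0, nat_lit 0, nat_lit 0, [], [nat_lit 20, nat_lit 40, nat_lit 40, nat_lit 80, nat_lit 16, nat_lit 289, nat_lit 75, nat_lit 9]⟩, C1.Rw.none,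
 zbF0, []⟩
noncomputable def t08_l13 : Lf2 := ⟨nat_lit 2, nat_lit 30, [nat_lit 15, nat_lit 5, nat_lit 5, nat_lit 20], true, nat_lit 80, nat_lit 160, nat_lit 0, nat_lit 336, zbN0,
 nat_lit 0, nat_lit 0, nat_lit 0, nat_lit 0, nat_lit 0, nat_lit 0, nat_lit 0, nat_lit 0, nat_lit 0, nat_lit 0, nat_lit 0, nat_lit 0, nat_lit 0, nat_lit 0, nat_lit 0, nat_lit 0, nat_lit 0, nat_lit 0, [],
 ⟨t08_k10, nat_lit 0, nat_lit 0, nat_lit 136, nat_lit 0, nat_lit 0, [], [], [], nat_lit 0, nat_lit 0, nat_lit 0, nat_lit 0, nat_lit 0, nat_lit 0, [], [nat_lit 57, nat_lit 40, nat_lit 40, nat_lit 80, nat_lit 7, nat_lit 249, nat_lit 40, nat_lit 7]⟩, C1.Rw.none,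
 zbF0, []⟩
theorem r_V_900_700_20 (h : EB TB.env) : Dead (RC.box ⟨true, 120, 360, 400, 280, 320, 80, 120, [168]⟩ 0 168) := chkB_sound h (refs := [b_V_900_700_20_0, b_V_900_700_20_1, b_V_900_700_20_2, b_V_900_700_20_3, b_V_900_700_20_4, b_V_900_700_20_5, b_V_900_700_20_6, b_V_900_700_20_7, b_V_900_700_20_8, b_V_900_700_20_9, b_V_900_700_20_10, b_V_900_700_20_11, b_V_900_700_20_12, b_V_900_700_20_13, b_V_900_700_20_14, b_V_900_700_20_15, b_V_900_700_20_16, b_V_900_700_20_17, b_V_900_700_20_18, b_V_900_700_20_19, b_V_900_700_20_20, b_V_900_700_20_21, b_V_900_700_20_22, b_V_900_700_20_23, b_V_900_700_20_24, b_V_900_700_20_25, b_V_900_700_20_26, b_V_900_700_20_27, b_V_900_700_20_28, b_V_900_700_20_29, b_V_900_700_20_30, b_V_900_700_20_31, b_V_900_700_20_32, b_V_900_700_20_33, b_V_900_700_20_34, b_V_900_700_20_35, b_V_900_700_20_36, b_V_900_700_20_37, b_V_900_700_20_38, b_V_900_700_20_39, b_V_900_700_20_40,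 b_V_900_700_20_41, b_V_900_700_20_42, b_V_900_700_20_43, b_V_900_700_20_44, b_V_900_700_20_45, b_V_900_700_20_46, b_V_900_700_20_47, b_V_900_700_20_48, b_V_900_700_20_49, b_V_900_700_20_50, b_V_900_700_20_51, b_V_900_700_20_52, b_V_900_700_20_53, b_V_900_700_20_54, b_V_900_700_20_55, b_V_900_700_20_56, b_V_900_700_20_57, b_V_900_700_20_58, b_V_900_700_20_59, b_V_900_700_20_60, b_V_900_700_20_61, b_V_900_700_20_62]) (refs_cons (d_V_900_700_20_0 h) (refs_cons (d_V_900_700_20_1 h) (refs_cons (d_V_900_700_20_2 h) (refs_cons (d_V_900_700_20_3 h) (refs_cons (d_V_900_700_20_4 h) (refs_cons (d_V_900_700_20_5 h) (refs_cons (d_V_900_700_20_6 h) (refs_cons (d_V_900_700_20_7 h) (refs_cons (d_V_900_700_20_8 h) (refs_cons (d_V_900_700_20_9 h) (refs_cons (d_V_900_700_20_10 h) (refs_cons (d_V_900_700_20_11 h) (refs_cons (d_V_900_700_20_12 h) (refs_cons (d_V_900_700_20_13 h) (refs_cons (d_V_900_700_20_14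 h) (refs_cons (d_V_900_700_20_15 h) (refs_cons (d_V_900_700_20_16 h) (refs_cons (d_V_900_700_20_17 h) (refs_cons (d_V_900_700_20_18 h) (refs_cons (d_V_900_700_20_19 h) (refs_cons (d_V_900_700_20_20 h) (refs_cons (d_V_900_700_20_21 h) (refs_cons (d_V_900_700_20_22 h) (refs_cons (d_V_900_700_20_23 h) (refs_cons (d_V_900_700_20_24 h) (refs_cons (d_V_900_700_20_25 h) (refs_cons (d_V_900_700_20_26 h) (refs_cons (d_V_900_700_20_27 h) (refs_cons (d_V_900_700_20_28 h) (refs_cons (d_V_900_700_20_29 h) (refs_cons (d_V_900_700_20_30 h) (refs_cons (d_V_900_700_20_31 h) (refs_cons (d_V_900_700_20_32 h) (refs_cons (d_V_900_700_20_33 h) (refs_cons (d_V_900_700_20_34 h) (refs_cons (d_V_900_700_20_35 h) (refs_cons (d_V_900_700_20_36 h) (refs_cons (d_V_900_700_20_37 h) (refs_cons (d_V_900_700_20_38 h) (refs_cons (d_V_900_700_20_39 h) (refs_cons (d_V_900_700_20_40 h) (refs_cons (d_V_900_700_20_41 h) (refs_cons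 (d_V_900_700_20_42 h) (refs_cons (d_V_900_700_20_43 h) (refs_cons (d_V_900_700_20_44 h) (refs_cons (d_V_900_700_20_45 h) (refs_cons (d_V_900_700_20_46 h) (refs_cons (d_V_900_700_20_47 h) (refs_cons (d_V_900_700_20_48 h) (refs_cons (d_V_900_700_20_49 h) (refs_cons (d_V_900_700_20_50 h) (refs_cons (d_V_900_700_20_51 h) (refs_cons (d_V_900_700_20_52 h) (refs_cons (d_V_900_700_20_53 h) (refs_cons (d_V_900_700_20_54 h) (refs_cons (d_V_900_700_20_55 h) (refs_cons (d_V_900_700_20_56 h) (refs_cons (d_V_900_700_20_57 h) (refs_cons (d_V_900_700_20_58 h) (refs_cons (d_V_900_700_20_59 h) (refs_cons (d_V_900_700_20_60 h) (refs_cons (d_V_900_700_20_61 h) (refs_cons (d_V_900_700_20_62 h) (refs_nil)))))))))))))))))))))))))))))))))))))))))))))))))))))))))))))))) (T :=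
(.trZ (nat_lit 0) (nat_lit 94) (nat_lit 62) (nat_lit 100) (nat_lit 152) (.trX (nat_lit 13) (nat_lit 75) (nat_lit 35) (nat_lit 100) (nat_lit 392) (.trZ (nat_lit 3) (nat_lit 100) (nat_lit 75) (nat_lit 35) (nat_lit 8) (.trX (nat_lit 16) (nat_lit 62) (nat_lit 100) (nat_lit 94) (nat_lit 248) (.trX (nat_lit 19) (nat_lit 100) (nat_lit 80) (nat_lit 100) (nat_lit 336) (.spl (nat_lit 6) (nat_lit 40)
(.st (nat_lit 0)
(.gv
(.st (nat_lit 1)
(.leaf t08_l7)
(.spl (nat_lit 2) (nat_lit 240)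
(.ref (nat_lit 0))
(.spl (nat_lit 4) (nat_lit 160)
(.spl (nat_lit 4) (nat_lit 80)
(.ref (nat_lit 1))
(.ref (nat_lit 2)))
(.spl (nat_lit 2) (nat_lit 320)
(.ref (nat_lit 3))
(.trZ (nat_lit 9) (nat_lit 100) (nat_lit 82) (nat_lit 44) (nat_lit 16) (.spl (nat_lit 2) (nat_lit 360)
(.ref (nat_lit 4))
(.ref (nat_lit 5))))))))
(.ref (nat_lit 6)))
(.gv
(.ref (nat_lit 7))
(.ref (nat_lit 8))))
(.spl (nat_lit 6) (nat_lit 80)
(.st (nat_lit 0)
(.gv
(.st (nat_lit 1)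
(.leaf t08_l8)
(.spl (nat_lit 2) (nat_lit 240)
(.ref (nat_lit 9))
(.spl (nat_lit 4) (nat_lit 160)
(.spl (nat_lit 4) (nat_lit 80)
(.spl (nat_lit 2) (nat_lit 320)
(.ref (nat_lit 10))
(.ref (nat_lit 11)))
(.spl (nat_lit 2) (nat_lit 320)
(.ref (nat_lit 12))
(.spl (nat_lit 1) (nat_lit 300)
(.ref (nat_lit 13))
(.ref (nat_lit 14)))))
(.spl (nat_lit 1) (nat_lit 300)
(.trX (nat_lit 13) (nat_lit 69) (nat_lit 45) (nat_lit 100) (nat_lit 384) (.spl (nat_lit 2) (nat_lit 320)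
(.ref (nat_lit 15))
(.trZ (nat_lit 9) (nat_lit 100) (nat_lit 82) (nat_lit 44) (nat_lit 16) (.spl (nat_lit 8) (nat_lit 800)
(.ref (nat_lit 16))
(.spl (nat_lit 0) (nat_lit 380)
(.spl (nat_lit 1) (nat_lit 290)
(.trX (nat_lit 13) (nat_lit 67) (nat_lit 50) (nat_lit 100) (nat_lit 380) (.spl (nat_lit 5) (nat_lit 160)
(.leaf t08_l9)
(.spl (nat_lit 5) (nat_lit 240)
(.ref (nat_lit 17))
(.spl (nat_lit 7) (nat_lit 600)
(.spl (nat_lit 7) (nat_lit 300)
(.leaf t08_l10)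
(.spl (nat_lit 7) (nat_lit 460)
(.spl (nat_lit 2) (nat_lit 360)
(.ref (nat_lit 18))
(.ref (nat_lit 19)))
(.leaf t08_l11)))
(.leaf t08_l12)))))
(.ref (nat_lit 20)))
(.ref (nat_lit 21)))))))
(.ref (nat_lit 22))))))
(.ref (nat_lit 23)))
(.ref (nat_lit 24)))
(.spl (nat_lit 6) (nat_lit 120)
(.st (nat_lit 0)
(.gv
(.st (nat_lit 1)
(.ref (nat_lit 25))
(.spl (nat_lit 2) (nat_lit 240)
(.spl (nat_lit 4) (nat_lit 160)
(.spl (nat_lit 1) (nat_lit 300)
(.ref (nat_lit 26))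
(.ref (nat_lit 27)))
(.ref (nat_lit 28)))
(.spl (nat_lit 4) (nat_lit 160)
(.spl (nat_lit 4) (nat_lit 80)
(.spl (nat_lit 0) (nat_lit 380)
(.ref (nat_lit 29))
(.trX (nat_lit 13) (nat_lit 54) (nat_lit 57) (nat_lit 100) (nat_lit 380) (.trZ (nat_lit 3) (nat_lit 100) (nat_lit 54) (nat_lit 57) (nat_lit 20) (.spl (nat_lit 1) (nat_lit 300)
(.ref (nat_lit 30))
(.ref (nat_lit 31))))))
(.spl (nat_lit 2) (nat_lit 320)
(.spl (nat_lit 0) (nat_lit 380)
(.ref (nat_lit 32))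
(.spl (nat_lit 7) (nat_lit 600)
(.spl (nat_lit 6) (nat_lit 100)
(.ref (nat_lit 33))
(.spl (nat_lit 3) (nat_lit 100)
(.ref (nat_lit 34))
(.spl (nat_lit 2) (nat_lit 280)
(.ref (nat_lit 35))
(.spl (nat_lit 1) (nat_lit 300)
(.ref (nat_lit 36))
(.ref (nat_lit 37))))))
(.leaf t08_l13)))
(.spl (nat_lit 1) (nat_lit 300)
(.trX (nat_lit 13) (nat_lit 69) (nat_lit 45) (nat_lit 100) (nat_lit 384) (.spl (nat_lit 0) (nat_lit 380)
(.ref (nat_lit 38))
(.trX (nat_lit 13) (nat_lit 50) (nat_lit 65) (nat_lit 100) (nat_lit 368) (.spl (nat_lit 3) (nat_lit 100)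
(.ref (nat_lit 39))
(.ref (nat_lit 40))))))
(.ref (nat_lit 41)))))
(.spl (nat_lit 1) (nat_lit 300)
(.trX (nat_lit 13) (nat_lit 69) (nat_lit 45) (nat_lit 100) (nat_lit 384) (.spl (nat_lit 0) (nat_lit 380)
(.ref (nat_lit 42))
(.trX (nat_lit 13) (nat_lit 50) (nat_lit 65) (nat_lit 100) (nat_lit 368) (.trX (nat_lit 16) (nat_lit 44) (nat_lit 100) (nat_lit 92) (nat_lit 208) (.spl (nat_lit 5) (nat_lit 160)
(.ref (nat_lit 43))
(.ref (nat_lit 44)))))))
(.ref (nat_lit 45))))))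
(.ref (nat_lit 46)))
(.gv
(.st (nat_lit 1)
(.ref (nat_lit 47))
(.spl (nat_lit 2) (nat_lit 240)
(.ref (nat_lit 48))
(.ref (nat_lit 49))))
(.ref (nat_lit 50))))
(.spl (nat_lit 6) (nat_lit 160)
(.st (nat_lit 0)
(.gv
(.st (nat_lit 1)
(.ref (nat_lit 51))
(.spl (nat_lit 2) (nat_lit 240)
(.ref (nat_lit 52))
(.spl (nat_lit 4) (nat_lit 160)
(.spl (nat_lit 0) (nat_lit 380)
(.ref (nat_lit 53))
(.trX (nat_lit 13) (nat_lit 54) (nat_lit 57) (nat_lit 100) (nat_lit 380) (.trZ (nat_lit 3) (nat_lit 100) (nat_lit 54) (nat_lit 57) (nat_lit 20) (.spl (nat_lit 1) (nat_lit 300)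
(.trX (nat_lit 13) (nat_lit 50) (nat_lit 65) (nat_lit 100) (nat_lit 368) (.spl (nat_lit 3) (nat_lit 100)
(.ref (nat_lit 54))
(.ref (nat_lit 55))))
(.ref (nat_lit 56))))))
(.ref (nat_lit 57)))))
(.ref (nat_lit 58)))
(.gv
(.st (nat_lit 1)
(.ref (nat_lit 59))
(.ref (nat_lit 60)))
(.ref (nat_lit 61))))
(.ref (nat_lit 62)))))))))))) (by decide +kernel)
theorem done_V_900_700_20 (h : EB TB.env) : RC.Done ⟨true, 120, 360, 400, 280, 320, 80, 120, [168]⟩ := RC.done1 (r_V_900_700_20 h) (t_V_900_700_20 h)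
theorem t_V_900_800_10 (h : EB TB.env) : RC.Tail ⟨true, 80, 360, 400, 320, 340, 40, 80, [192]⟩ := RC.tail_chk h (b := ⟨nat_lit 40, nat_lit 96, nat_lit 5, nat_lit 5, nat_lit 20, nat_lit 226, nat_lit 20, nat_lit 15, nat_lit 5⟩) (by decide +kernel)
noncomputable def t08_l14 : Lf2 := ⟨nat_lit 0, nat_lit 20, [nat_lit 5, nat_lit 5, nat_lit 5, nat_lit 20], false, nat_lit 0, nat_lit 200, nat_lit 0, nat_lit 260, ⟨nat_lit 1000, nat_lit 0, nat_lit 0, nat_lit 0, nat_lit 0, nat_lit 0, nat_lit 0, nat_lit 0, nat_lit 0, nat_lit 0, nat_lit 0, nat_lit 0, nat_lit 0, nat_lit 0, nat_lit 0, nat_lit 0, false, false⟩,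
 nat_lit 0, nat_lit 0, nat_lit 0, nat_lit 0, nat_lit 5966, nat_lit 9999, nat_lit 0, nat_lit 0, nat_lit 0, nat_lit 0, nat_lit 0, nat_lit 0, nat_lit 0, nat_lit 0, nat_lit 0, nat_lit 0, nat_lit 0, nat_lit 0, [],
 ⟨t08_k5, nat_lit 0, nat_lit 0, nat_lit 202, nat_lit 0, nat_lit 0, [nat_lit 938000000, nat_lit 6250000000], [], [nat_lit 32159396680, nat_lit 35421905024, nat_lit 40917819736, nat_lit 43668023416, nat_lit 29525566504, nat_lit 32095585564, nat_lit 36405719780, nat_lit 38016782204], nat_lit 0, nat_lit 0, nat_lit 0, nat_lit 0, nat_lit 0, nat_lit 0, [], [nat_lit 88, nat_lit 40, nat_lit 40, nat_lit 80, nat_lit 89, nat_lit 260, nat_lit 50, nat_lit 9]⟩, ⟨t08_k11, nat_lit 0, nat_lit 0, nat_lit 225, nat_lit 0, nat_lit 0, [nat_lit 2032000000, nat_lit 9842000000], [], [nat_lit 38927210864, nat_lit 40359012956, nat_lit 49248690244, nat_lit 51078257976, nat_lit 31863759030, nat_lit 32806159253,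 nat_lit 37510486170, nat_lit 38773271599], nat_lit 0, nat_lit 0, nat_lit 0, nat_lit 0, nat_lit 0, nat_lit 0, [], [nat_lit 94, nat_lit 40, nat_lit 40, nat_lit 80, nat_lit 95, nat_lit 401, nat_lit 175, nat_lit 11]⟩,
 zbF0, [⟨nat_lit 4, nat_lit 100, nat_lit 46, nat_lit 75, nat_lit 64562320⟩]⟩
noncomputable def t08_l15 : Lf2 := ⟨nat_lit 0, nat_lit 20, [nat_lit 5, nat_lit 5, nat_lit 5, nat_lit 20], false, nat_lit 0, nat_lit 200, nat_lit 0, nat_lit 260, ⟨nat_lit 1000, nat_lit 0, nat_lit 0, nat_lit 0, nat_lit 0, nat_lit 0, nat_lit 0, nat_lit 0, nat_lit 0, nat_lit 0, nat_lit 0, nat_lit 0, nat_lit 0, nat_lit 0, nat_lit 0, nat_lit 0, false, false⟩,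
 nat_lit 0, nat_lit 0, nat_lit 0, nat_lit 0, nat_lit 5976, nat_lit 10001, nat_lit 0, nat_lit 0, nat_lit 0, nat_lit 0, nat_lit 0, nat_lit 0, nat_lit 0, nat_lit 0, nat_lit 0, nat_lit 0, nat_lit 0, nat_lit 0, [],
 ⟨t08_k5, nat_lit 0, nat_lit 0, nat_lit 202, nat_lit 0, nat_lit 0, [nat_lit 938000000, nat_lit 6250000000], [], [nat_lit 32152316480, nat_lit 35418117664, nat_lit 40916545696, nat_lit 43701174176, nat_lit 29507946944, nat_lit 32080355104, nat_lit 36391638080, nat_lit 38003792144], nat_lit 0, nat_lit 0, nat_lit 0, nat_lit 0, nat_lit 0, nat_lit 0, [], [nat_lit 88, nat_lit 40, nat_lit 40, nat_lit 80, nat_lit 89, nat_lit 260, nat_lit 50, nat_lit 9]⟩, ⟨t08_k11, nat_lit 0, nat_lit 0, nat_lit 225, nat_lit 0, nat_lit 0, [nat_lit 2032000000, nat_lit 9842000000], [], [nat_lit 38925717136, nat_lit 40357695044, nat_lit 49254285756, nat_lit 51084090024, nat_lit 31859920970, nat_lit 32802414748,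 nat_lit 37512747830, nat_lit 38775675402], nat_lit 0, nat_lit 0, nat_lit 0, nat_lit 0, nat_lit 0, nat_lit 0, [], [nat_lit 94, nat_lit 40, nat_lit 40, nat_lit 80, nat_lit 95, nat_lit 401, nat_lit 175, nat_lit 11]⟩,
 zbF0, [⟨nat_lit 16, nat_lit 46, nat_lit 100, nat_lit 75, nat_lit 61136128⟩]⟩
theorem r_V_900_800_10 (h : EB TB.env) : Dead (RC.box ⟨true, 80, 360, 400, 320, 340, 40, 80, [192]⟩ 0 192) := chkB_sound h (refs := [b_V_900_800_10_0, b_V_900_800_10_1, b_V_900_800_10_2, b_V_900_800_10_3, b_V_900_800_10_4, b_V_900_800_10_5, b_V_900_800_10_6, b_V_900_800_10_7, b_V_900_800_10_8, b_V_900_800_10_9, b_V_900_800_10_10, b_V_900_800_10_11]) (refs_cons (d_V_900_800_10_0 h) (refs_cons (d_V_900_800_10_1 h) (refs_cons (d_V_900_800_10_2 h) (refs_cons (d_V_900_800_10_3 h) (refs_cons (d_V_900_800_10_4 h) (refs_cons (d_V_900_800_10_5 h) (refs_cons (d_V_900_800_10_6 h) (refs_cons (d_V_900_800_10_7 h)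 (refs_cons (d_V_900_800_10_8 h) (refs_cons (d_V_900_800_10_9 h) (refs_cons (d_V_900_800_10_10 h) (refs_cons (d_V_900_800_10_11 h) (refs_nil))))))))))))) (T :=
(.trZ (nat_lit 0) (nat_lit 80) (nat_lit 60) (nat_lit 100) (nat_lit 200) (.trX (nat_lit 16) (nat_lit 60) (nat_lit 100) (nat_lit 80) (nat_lit 200) (.trX (nat_lit 19) (nat_lit 83) (nat_lit 100) (nat_lit 83) (nat_lit 260) (.spl (nat_lit 6) (nat_lit 40)
(.st (nat_lit 0)
(.ref (nat_lit 0))
(.ref (nat_lit 1)))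
(.spl (nat_lit 6) (nat_lit 80)
(.st (nat_lit 0)
(.gv
(.st (nat_lit 1)
(.leaf t08_l14)
(.spl (nat_lit 4) (nat_lit 80)
(.spl (nat_lit 2) (nat_lit 320)
(.ref (nat_lit 2))
(.ref (nat_lit 3)))
(.ref (nat_lit 4))))
(.ref (nat_lit 5)))
(.ref (nat_lit 6)))
(.spl (nat_lit 6) (nat_lit 120)
(.st (nat_lit 0)
(.gv
(.st (nat_lit 1)
(.leaf t08_l15)
(.spl (nat_lit 4) (nat_lit 80)
(.ref (nat_lit 7))
(.ref (nat_lit 8))))
(.ref (nat_lit 9)))
(.ref (nat_lit 10)))
(.ref (nat_lit 11))))))))) (by decide +kernel)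
theorem done_V_900_800_10 (h : EB TB.env) : RC.Done ⟨true, 80, 360, 400, 320, 340, 40, 80, [192]⟩ := RC.done1 (r_V_900_800_10 h) (t_V_900_800_10 h)
theorem t_V_900_800_20 (h : EB TB.env) : RC.Tail ⟨true, 120, 360, 400, 320, 340, 80, 120, [176]⟩ := RC.tail_chk h (b := ⟨nat_lit 60, nat_lit 88, nat_lit 5, nat_lit 5, nat_lit 20, nat_lit 238, nat_lit 30, nat_lit 11, nat_lit 15⟩) (by decide +kernel)
noncomputable def t08_l16 : Lf2 := ⟨nat_lit 0, nat_lit 10, [nat_lit 0, nat_lit 5, nat_lit 5, nat_lit 20], false, nat_lit 8, nat_lit 248, nat_lit 0, nat_lit 300, ⟨nat_lit 1000, nat_lit 0, nat_lit 0, nat_lit 0, nat_lit 0, nat_lit 0, nat_lit 0, nat_lit 0, nat_lit 0, nat_lit 0, nat_lit 0, nat_lit 0, nat_lit 0, nat_lit 0, nat_lit 0, nat_lit 0, false, false⟩,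
 nat_lit 0, nat_lit 0, nat_lit 0, nat_lit 0, nat_lit 5590, nat_lit 7753, nat_lit 0, nat_lit 0, nat_lit 0, nat_lit 0, nat_lit 0, nat_lit 0, nat_lit 0, nat_lit 0, nat_lit 0, nat_lit 0, nat_lit 0, nat_lit 0, [],
 ⟨t08_k8, nat_lit 0, nat_lit 0, nat_lit 170, nat_lit 0, nat_lit 0, [nat_lit 938000000, nat_lit 4688000000], [], [nat_lit 27424191540, nat_lit 31022679525, nat_lit 39031034876, nat_lit 41912528564, nat_lit 27058292973, nat_lit 29644110836, nat_lit 34111140048, nat_lit 36286677864], nat_lit 0, nat_lit 0, nat_lit 0, nat_lit 0, nat_lit 0, nat_lit 0, [], [nat_lit 86, nat_lit 40, nat_lit 40, nat_lit 80, nat_lit 87, nat_lit 289, nat_lit 75, nat_lit 12]⟩, ⟨t08_k12, nat_lit 0, nat_lit 0, nat_lit 180, nat_lit 0, nat_lit 0, [nat_lit 2032000000, nat_lit 6250000000], [], [nat_lit 27305987852, nat_lit 29100076396, nat_lit 42964930268, nat_lit 44528868072, nat_lit 26947850658, nat_lit 28039753523,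 nat_lit 36277451154, nat_lit 37264367657], nat_lit 0, nat_lit 0, nat_lit 0, nat_lit 0, nat_lit 0, nat_lit 0, [], [nat_lit 69, nat_lit 40, nat_lit 40, nat_lit 80, nat_lit 64, nat_lit 289, nat_lit 75, nat_lit 10]⟩,
 zbF0, [⟨nat_lit 16, nat_lit 62, nat_lit 100, nat_lit 94, nat_lit 92612656⟩, ⟨nat_lit 19, nat_lit 87, nat_lit 95, nat_lit 100, nat_lit 70253271⟩]⟩
noncomputable def t08_l17 : Lf2 := ⟨nat_lit 0, nat_lit 20, [nat_lit 5, nat_lit 5, nat_lit 5, nat_lit 20], false, nat_lit 8, nat_lit 248, nat_lit 0, nat_lit 300, ⟨nat_lit 1000, nat_lit 0, nat_lit 0, nat_lit 0, nat_lit 0, nat_lit 0, nat_lit 0, nat_lit 0, nat_lit 0, nat_lit 0, nat_lit 0, nat_lit 0, nat_lit 0, nat_lit 0, nat_lit 0, nat_lit 0, false, false⟩,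
 nat_lit 0, nat_lit 0, nat_lit 0, nat_lit 0, nat_lit 6625, nat_lit 10679, nat_lit 0, nat_lit 0, nat_lit 0, nat_lit 0, nat_lit 0, nat_lit 0, nat_lit 0, nat_lit 0, nat_lit 0, nat_lit 0, nat_lit 0, nat_lit 0, [],
 ⟨t08_k5, nat_lit 0, nat_lit 0, nat_lit 196, nat_lit 0, nat_lit 0, [nat_lit 938000000, nat_lit 6250000000], [], [nat_lit 31329312450, nat_lit 34787119950, nat_lit 42060745250, nat_lit 45231690350, nat_lit 29324101350, nat_lit 31813822700, nat_lit 35694792001, nat_lit 37791888300], nat_lit 0, nat_lit 0, nat_lit 0, nat_lit 0, nat_lit 0, nat_lit 0, [], [nat_lit 88, nat_lit 40, nat_lit 40, nat_lit 80, nat_lit 89, nat_lit 289, nat_lit 75, nat_lit 10]⟩, ⟨t08_k11, nat_lit 0, nat_lit 0, nat_lit 225, nat_lit 0, nat_lit 0, [nat_lit 2032000000, nat_lit 9842000000], [], [nat_lit 38419343344, nat_lit 39910922876, nat_lit 51151164324, nat_lit 53061154296, nat_lit 31642002834, nat_lit 32504571314,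 nat_lit 39701509022, nat_lit 40859720880], nat_lit 0, nat_lit 0, nat_lit 0, nat_lit 0, nat_lit 0, nat_lit 0, [], [nat_lit 94, nat_lit 40, nat_lit 40, nat_lit 80, nat_lit 95, nat_lit 401, nat_lit 175, nat_lit 11]⟩,
 zbF0, [⟨nat_lit 16, nat_lit 44, nat_lit 100, nat_lit 87, nat_lit 38931465⟩]⟩
theorem r_V_900_800_20 (h : EB TB.env) : Dead (RC.box ⟨true, 120, 360, 400, 320, 340, 80, 120, [176]⟩ 0 176) := chkB_sound h (refs := [b_V_900_800_20_0, b_V_900_800_20_1, b_V_900_800_20_2, b_V_900_800_20_3, b_V_900_800_20_4, b_V_900_800_20_5, b_V_900_800_20_6, b_V_900_800_20_7, b_V_900_800_20_8, b_V_900_800_20_9, b_V_900_800_20_10, b_V_900_800_20_11, b_V_900_800_20_12, b_V_900_800_20_13, b_V_900_800_20_14]) (refs_cons (d_V_900_800_20_0 h) (refs_cons (d_V_900_800_20_1 h) (refs_cons (d_V_900_800_20_2 h) (refs_cons (d_V_900_800_20_3 h) (refs_cons (d_V_900_800_20_4 h) (refs_cons (d_V_900_800_20_5 h) (refs_cons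 (d_V_900_800_20_6 h) (refs_cons (d_V_900_800_20_7 h) (refs_cons (d_V_900_800_20_8 h) (refs_cons (d_V_900_800_20_9 h) (refs_cons (d_V_900_800_20_10 h) (refs_cons (d_V_900_800_20_11 h) (refs_cons (d_V_900_800_20_12 h) (refs_cons (d_V_900_800_20_13 h) (refs_cons (d_V_900_800_20_14 h) (refs_nil)))))))))))))))) (T :=
(.trZ (nat_lit 0) (nat_lit 80) (nat_lit 60) (nat_lit 100) (nat_lit 200) (.trZ (nat_lit 3) (nat_lit 100) (nat_lit 75) (nat_lit 35) (nat_lit 8) (.trX (nat_lit 16) (nat_lit 62) (nat_lit 100) (nat_lit 94) (nat_lit 248) (.trX (nat_lit 19) (nat_lit 87) (nat_lit 95) (nat_lit 100) (nat_lit 300) (.spl (nat_lit 6) (nat_lit 40)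
(.st (nat_lit 0)
(.gv
(.st (nat_lit 1)
(.leaf t08_l16)
(.spl (nat_lit 4) (nat_lit 160)
(.ref (nat_lit 0))
(.ref (nat_lit 1))))
(.ref (nat_lit 2)))
(.ref (nat_lit 3)))
(.spl (nat_lit 6) (nat_lit 80)
(.st (nat_lit 0)
(.gv
(.st (nat_lit 1)
(.leaf t08_l17)
(.spl (nat_lit 4) (nat_lit 160)
(.spl (nat_lit 0) (nat_lit 380)
(.ref (nat_lit 4))
(.ref (nat_lit 5)))
(.ref (nat_lit 6))))
(.ref (nat_lit 7)))
(.ref (nat_lit 8)))
(.spl (nat_lit 6) (nat_lit 120)
(.st (nat_lit 0)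
(.gv
(.ref (nat_lit 9))
(.ref (nat_lit 10)))
(.ref (nat_lit 11)))
(.spl (nat_lit 6) (nat_lit 160)
(.st (nat_lit 0)
(.ref (nat_lit 12))
(.ref (nat_lit 13)))
(.ref (nat_lit 14))))))))))) (by decide +kernel)
theorem done_V_900_800_20 (h : EB TB.env) : RC.Done ⟨true, 120, 360, 400, 320, 340, 80, 120, [176]⟩ := RC.done1 (r_V_900_800_20 h) (t_V_900_800_20 h)

end B2
end Pool.Agent.Lib.MP_6947cd_al
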