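import Pool.Agent.Lib.MP_6947cd_al.ZB.T00
import Pool.Agent.Lib.MP_6947cd_al.ZB.T01
import Pool.Agent.Lib.MP_6947cd_al.ZB.T02
import Pool.Agent.Lib.MP_6947cd_al.ZB.T03
import Pool.Agent.Lib.MP_6947cd_al.ZB.T04
import Pool.Agent.Lib.MP_6947cd_al.ZB.T05
import Pool.Agent.Lib.MP_6947cd_al.ZB.T06
import Pool.Agent.Lib.MP_6947cd_al.ZB.T07
import Pool.Agent.Lib.MP_6947cd_al.ZB.T08

/-!
Problem MP_6947cd_al (Chollet).  CASE B, SECOND ENTRY IN [2/5, 17/20]: all root cells.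
-/

set_option autoImplicit false
set_option linter.all false

namespace Pool.Agent.Lib.MP_6947cd_al
namespace B2

open Ent Fr B1 PkA

/-- the root cells -/
def cellsZ : List RC :=
  [⟨false, 20, 160, 180, 160, 180, 0, 0, []⟩,
   ⟨false, 20, 180, 200, 160, 180, 0, 0, []⟩,
   ⟨false, 20, 180, 200, 180, 200, 0, 0, [8]⟩,
   ⟨false, 20, 200, 220, 160, 180, 0, 0, [8]⟩,
   ⟨false, 20, 200, 220, 180, 200, 0, 0, [16]⟩,
   ⟨false, 20, 200, 220, 200, 220, 0, 0, [20]⟩,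
   ⟨false, 20, 220, 240, 160, 180, 0, 0, [20]⟩,
   ⟨false, 20, 220, 240, 180, 200, 0, 0, [24]⟩,
   ⟨false, 20, 220, 240, 200, 220, 0, 0, [36]⟩,
   ⟨false, 20, 220, 240, 220, 240, 0, 0, [44]⟩,
   ⟨false, 20, 240, 260, 160, 180, 0, 0, [32]⟩,
   ⟨false, 20, 240, 260, 180, 200, 0, 0, [40]⟩,
   ⟨false, 20, 240, 260, 200, 220, 0, 0, [48]⟩,
   ⟨false, 20, 240, 260, 220, 240, 0, 0, [56]⟩,
   ⟨false, 20, 240, 260, 240, 260, 0, 0, [64]⟩,
   ⟨false, 20, 260, 280, 160, 180, 0, 0, [48]⟩,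
   ⟨false, 20, 260, 280, 180, 200, 0, 0, [52]⟩,
   ⟨false, 20, 260, 280, 200, 220, 0, 0, [60]⟩,
   ⟨false, 20, 260, 280, 220, 240, 0, 0, [68]⟩,
   ⟨false, 20, 260, 280, 240, 260, 0, 0, [80]⟩,
   ⟨false, 20, 260, 280, 260, 280, 0, 0, [92]⟩,
   ⟨false, 40, 280, 320, 160, 200, 0, 0, [88]⟩,
   ⟨false, 40, 280, 320, 200, 240, 0, 0, [100]⟩,
   ⟨false, 40, 280, 320, 240, 280, 0, 0, [120]⟩,
   ⟨false, 40, 280, 320, 280, 320, 0, 0, [140]⟩,
   ⟨false, 40, 320, 360, 160, 200, 0, 0, [128]⟩,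
   ⟨false, 40, 320, 360, 200, 240, 0, 0, [136]⟩,
   ⟨false, 40, 320, 360, 240, 280, 0, 0, [148]⟩,
   ⟨false, 40, 320, 360, 280, 320, 0, 0, [168]⟩,
   ⟨false, 40, 320, 360, 320, 340, 0, 0, [180]⟩,
   ⟨false, 40, 360, 400, 160, 200, 0, 0, [172]⟩,
   ⟨false, 40, 360, 400, 200, 240, 0, 0, [176]⟩,
   ⟨false, 40, 360, 400, 240, 280, 0, 0, [184]⟩,
   ⟨false, 40, 360, 400, 280, 320, 0, 0, [200]⟩,
   ⟨false, 40, 360, 400, 320, 340, 0, 0, [208]⟩,
   ⟨true, 40, 200, 240, 160, 200, 20, 40, [4]⟩,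
   ⟨true, 40, 200, 240, 200, 240, 20, 40, [20]⟩,
   ⟨true, 40, 240, 280, 160, 200, 20, 40, [32]⟩,
   ⟨true, 40, 240, 280, 200, 240, 20, 40, [48]⟩,
   ⟨true, 40, 240, 280, 240, 280, 20, 40, [68]⟩,
   ⟨true, 80, 160, 200, 160, 200, 40, 80, []⟩,
   ⟨true, 120, 160, 200, 160, 200, 80, 120, []⟩,
   ⟨true, 40, 160, 200, 160, 200, 20, 40, []⟩,
   ⟨true, 80, 200, 240, 160, 200, 40, 80, []⟩,
   ⟨true, 120, 200, 240, 160, 200, 80, 120, []⟩,
   ⟨true, 80, 200, 240, 200, 240, 40, 80, [4]⟩,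
   ⟨true, 120, 200, 240, 200, 240, 80, 120, []⟩,
   ⟨true, 80, 240, 280, 160, 200, 40, 80, [16]⟩,
   ⟨true, 120, 240, 280, 160, 200, 80, 120, []⟩,
   ⟨true, 80, 240, 280, 200, 240, 40, 80, [32]⟩,
   ⟨true, 120, 240, 280, 200, 240, 80, 120, [8]⟩,
   ⟨true, 80, 240, 280, 240, 280, 40, 80, [60]⟩,
   ⟨true, 120, 240, 280, 240, 280, 80, 120, [32]⟩,
   ⟨true, 80, 280, 320, 160, 200, 40, 80, [52]⟩,
   ⟨true, 120, 280, 320, 160, 200, 80, 120, [28]⟩,
   ⟨true, 80, 280, 320, 200, 240, 40, 80, [72]⟩,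
   ⟨true, 120, 280, 320, 200, 240, 80, 120, [40]⟩,
   ⟨true, 80, 280, 320, 240, 280, 40, 80, [92]⟩,
   ⟨true, 120, 280, 320, 240, 280, 80, 120, [60]⟩,
   ⟨true, 80, 280, 320, 280, 320, 40, 80, [116]⟩,
   ⟨true, 120, 280, 320, 280, 320, 80, 120, [104]⟩,
   ⟨true, 80, 320, 360, 160, 200, 40, 80, [104]⟩,
   ⟨true, 120, 320, 360, 160, 200, 80, 120, [76]⟩,
   ⟨true, 80, 320, 360, 200, 240, 40, 80, [112]⟩,
   ⟨true, 120, 320, 360, 200, 240, 80, 120, [92]⟩,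
   ⟨true, 80, 320, 360, 240, 280, 40, 80, [124]⟩,
   ⟨true, 120, 320, 360, 240, 280, 80, 120, [120]⟩,
   ⟨true, 80, 320, 360, 280, 320, 40, 80, [152]⟩,
   ⟨true, 120, 320, 360, 280, 320, 80, 120, [140]⟩,
   ⟨true, 80, 320, 360, 320, 340, 40, 80, [168]⟩,
   ⟨true, 120, 320, 360, 320, 340, 80, 120, [152]⟩,
   ⟨true, 80, 360, 400, 160, 200, 40, 80, [160]⟩,
   ⟨true, 120, 360, 400, 160, 200, 80, 120, [144]⟩,
   ⟨true, 80, 360, 400, 200, 240, 40, 80, [160]⟩,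
   ⟨true, 120, 360, 400, 200, 240, 80, 120, [148]⟩,
   ⟨true, 80, 360, 400, 240, 280, 40, 80, [172]⟩,
   ⟨true, 120, 360, 400, 240, 280, 80, 120, [156]⟩,
   ⟨true, 80, 360, 400, 280, 320, 40, 80, [184]⟩,
   ⟨true, 120, 360, 400, 280, 320, 80, 120, [168]⟩,
   ⟨true, 80, 360, 400, 320, 340, 40, 80, [192]⟩,
   ⟨true, 120, 360, 400, 320, 340, 80, 120, [176]⟩]

theorem doneZ (h : EB TB.env) : ∀ c ∈ cellsZ, RC.Done c :=
  done_cons (done_NL_400_400_0 h) <|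
  done_cons (done_NL_450_400_0 h) <|
  done_cons (done_NL_450_450_0 h) <|
  done_cons (done_NL_500_400_0 h) <|
  done_cons (done_NL_500_450_0 h) <|
  done_cons (done_NL_500_500_0 h) <|
  done_cons (done_NL_550_400_0 h) <|
  done_cons (done_NL_550_450_0 h) <|
  done_cons (done_NL_550_500_0 h) <|
  done_cons (done_NL_550_550_0 h) <|
  done_cons (done_NL_600_400_0 h) <|
  done_cons (done_NL_600_450_0 h) <|
  done_cons (done_NL_600_500_0 h) <|
  done_cons (done_NL_600_550_0 h) <|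
  done_cons (done_NL_600_600_0 h) <|
  done_cons (done_NL_650_400_0 h) <|
  done_cons (done_NL_650_450_0 h) <|
  done_cons (done_NL_650_500_0 h) <|
  done_cons (done_NL_650_550_0 h) <|
  done_cons (done_NL_650_600_0 h) <|
  done_cons (done_NL_650_650_0 h) <|
  done_cons (done_N_700_400_0 h) <|
  done_cons (done_N_700_500_0 h) <|
  done_cons (done_N_700_600_0 h) <|
  done_cons (done_N_700_700_0 h) <|
  done_cons (done_N_800_400_0 h) <|
  done_cons (done_N_800_500_0 h) <|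
  done_cons (done_N_800_600_0 h) <|
  done_cons (done_N_800_700_0 h) <|
  done_cons (done_N_800_800_0 h) <|
  done_cons (done_N_900_400_0 h) <|
  done_cons (done_N_900_500_0 h) <|
  done_cons (done_N_900_600_0 h) <|
  done_cons (done_N_900_700_0 h) <|
  done_cons (done_N_900_800_0 h) <|
  done_cons (done_VL_500_400_5 h) <|
  done_cons (done_VL_500_500_5 h) <|
  done_cons (done_VL_600_400_5 h) <|
  done_cons (done_VL_600_500_5 h) <|
  done_cons (done_VL_600_600_5 h) <|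
  done_cons (done_V_400_400_10 h) <|
  done_cons (done_V_400_400_20 h) <|
  done_cons (done_V_400_400_5 h) <|
  done_cons (done_V_500_400_10 h) <|
  done_cons (done_V_500_400_20 h) <|
  done_cons (done_V_500_500_10 h) <|
  done_cons (done_V_500_500_20 h) <|
  done_cons (done_V_600_400_10 h) <|
  done_cons (done_V_600_400_20 h) <|
  done_cons (done_V_600_500_10 h) <|
  done_cons (done_V_600_500_20 h) <|
  done_cons (done_V_600_600_10 h) <|
  done_cons (done_V_600_600_20 h) <|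
  done_cons (done_V_700_400_10 h) <|
  done_cons (done_V_700_400_20 h) <|
  done_cons (done_V_700_500_10 h) <|
  done_cons (done_V_700_500_20 h) <|
  done_cons (done_V_700_600_10 h) <|
  done_cons (done_V_700_600_20 h) <|
  done_cons (done_V_700_700_10 h) <|
  done_cons (done_V_700_700_20 h) <|
  done_cons (done_V_800_400_10 h) <|
  done_cons (done_V_800_400_20 h) <|
  done_cons (done_V_800_500_10 h) <|
  done_cons (done_V_800_500_20 h) <|
  done_cons (done_V_800_600_10 h) <|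
  done_cons (done_V_800_600_20 h) <|
  done_cons (done_V_800_700_10 h) <|
  done_cons (done_V_800_700_20 h) <|
  done_cons (done_V_800_800_10 h) <|
  done_cons (done_V_800_800_20 h) <|
  done_cons (done_V_900_400_10 h) <|
  done_cons (done_V_900_400_20 h) <|
  done_cons (done_V_900_500_10 h) <|
  done_cons (done_V_900_500_20 h) <|
  done_cons (done_V_900_600_10 h) <|
  done_cons (done_V_900_600_20 h) <|
  done_cons (done_V_900_700_10 h) <|
  done_cons (done_V_900_700_20 h) <|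
  done_cons (done_V_900_800_10 h) <|
  done_cons (done_V_900_800_20 h) <|
  done_nil

theorem covZ : covB2 cellsZ xbZ 8 17 = true := by decide +kernel

/-- **CASE B, SECOND ENTRY IN `[2/5, 17/20]`**, from the tables. -/
theorem specB2Z (h : EB TB.env) : LL.SpecBI What (2 / 5) (17 / 20) := specB2_done covZ (doneZ h)

end B2
end Pool.Agent.Lib.MP_6947cd_al
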