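import Pool.Agent.Lib.MP_6947cd_al.ZB.Pre

/-!
Problem MP_6947cd_al (Chollet).  Case B, second entry in [2/5, 17/20]: certificates of the tree, part P000 (generated).
-/

set_option autoImplicit false
set_option linter.all false

namespace Pool.Agent.Lib.MP_6947cd_al
namespace B2

open Ent Fr B1 PkA

noncomputable def p000_k0 : C1.Kn := ⟨[nat_lit 60, nat_lit 120, nat_lit 140], [nat_lit 0, nat_lit 0, nat_lit 399], [(nat_lit 0, nat_lit 0, nat_lit 0), (nat_lit 0, nat_lit 0, nat_lit 0), (nat_lit 942, nat_lit 1000, nat_lit 293)], (nat_lit 100, nat_lit 97, nat_lit 20)⟩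
noncomputable def p000_k1 : C1.Kn := ⟨[nat_lit 60, nat_lit 120, nat_lit 140], [nat_lit 0, nat_lit 0, nat_lit 266], [(nat_lit 0, nat_lit 0, nat_lit 0), (nat_lit 0, nat_lit 0, nat_lit 0), (nat_lit 960, nat_lit 1000, nat_lit 200)], (nat_lit 100, nat_lit 96, nat_lit 20)⟩
noncomputable def p000_k2 : C1.Kn := ⟨[nat_lit 120, nat_lit 140], [nat_lit 0, nat_lit 266], [(nat_lit 0, nat_lit 0, nat_lit 0), (nat_lit 960, nat_lit 1000, nat_lit 200)], (nat_lit 100, nat_lit 96, nat_lit 20)⟩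
noncomputable def p000_k3 : C1.Kn := ⟨[nat_lit 120, nat_lit 140], [nat_lit 0, nat_lit 399], [(nat_lit 0, nat_lit 0, nat_lit 0), (nat_lit 942, nat_lit 1000, nat_lit 293)], (nat_lit 100, nat_lit 97, nat_lit 20)⟩
noncomputable def p000_k4 : C1.Kn := ⟨[nat_lit 60, nat_lit 120, nat_lit 140], [nat_lit 0, nat_lit 0, nat_lit 399], [(nat_lit 0, nat_lit 0, nat_lit 0), (nat_lit 0, nat_lit 0, nat_lit 0), (nat_lit 942, nat_lit 1000, nat_lit 293)], (nat_lit 100, nat_lit 95, nat_lit 28)⟩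
noncomputable def p000_k5 : C1.Kn := ⟨[nat_lit 60, nat_lit 120, nat_lit 140], [nat_lit 0, nat_lit 0, nat_lit 466], [(nat_lit 0, nat_lit 0, nat_lit 0), (nat_lit 0, nat_lit 0, nat_lit 0), (nat_lit 933, nat_lit 1000, nat_lit 338)], (nat_lit 100, nat_lit 95, nat_lit 28)⟩
noncomputable def p000_k6 : C1.Kn := ⟨[nat_lit 120, nat_lit 140], [nat_lit 0, nat_lit 399], [(nat_lit 0, nat_lit 0, nat_lit 0), (nat_lit 942, nat_lit 1000, nat_lit 293)], (nat_lit 100, nat_lit 95, nat_lit 28)⟩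
noncomputable def p000_k7 : C1.Kn := ⟨[nat_lit 120, nat_lit 140], [nat_lit 0, nat_lit 266], [(nat_lit 0, nat_lit 0, nat_lit 0), (nat_lit 960, nat_lit 1000, nat_lit 200)], (nat_lit 100, nat_lit 93, nat_lit 28)⟩
noncomputable def p000_k8 : C1.Kn := ⟨[nat_lit 60, nat_lit 110, nat_lit 130], [nat_lit 0, nat_lit 0, nat_lit 129], [(nat_lit 0, nat_lit 0, nat_lit 0), (nat_lit 0, nat_lit 0, nat_lit 0), (nat_lit 990, nat_lit 1000, nat_lit 100)], (nat_lit 100, nat_lit 97, nat_lit 20)⟩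
noncomputable def p000_k9 : C1.Kn := ⟨[nat_lit 60, nat_lit 110, nat_lit 130], [nat_lit 0, nat_lit 0, nat_lit 103], [(nat_lit 0, nat_lit 0, nat_lit 0), (nat_lit 0, nat_lit 0, nat_lit 0), (nat_lit 992, nat_lit 1000, nat_lit 80)], (nat_lit 100, nat_lit 97, nat_lit 20)⟩
noncomputable def p000_k10 : C1.Kn := ⟨[nat_lit 60, nat_lit 110, nat_lit 130], [nat_lit 0, nat_lit 0, nat_lit 193], [(nat_lit 0, nat_lit 0, nat_lit 0), (nat_lit 0, nat_lit 0, nat_lit 0), (nat_lit 985, nat_lit 1000, nat_lit 149)], (nat_lit 100, nat_lit 98, nat_lit 20)⟩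
noncomputable def p000_k11 : C1.Kn := ⟨[nat_lit 60, nat_lit 110, nat_lit 130], [nat_lit 0, nat_lit 0, nat_lit 0], [(nat_lit 0, nat_lit 0, nat_lit 0), (nat_lit 0, nat_lit 0, nat_lit 0), (nat_lit 0, nat_lit 0, nat_lit 0)], (nat_lit 100, nat_lit 96, nat_lit 20)⟩
noncomputable def p000_k12 : C1.Kn := ⟨[nat_lit 60, nat_lit 90, nat_lit 120, nat_lit 140], [nat_lit 0, nat_lit 0, nat_lit 0, nat_lit 466], [(nat_lit 0, nat_lit 0, nat_lit 0), (nat_lit 0, nat_lit 0, nat_lit 0), (nat_lit 0, nat_lit 0, nat_lit 0), (nat_lit 933, nat_lit 1000, nat_lit 338)], (nat_lit 100, nat_lit 98, nat_lit 20)⟩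
noncomputable def p000_k13 : C1.Kn := ⟨[nat_lit 60, nat_lit 90, nat_lit 120, nat_lit 140], [nat_lit 0, nat_lit 0, nat_lit 0, nat_lit 266], [(nat_lit 0, nat_lit 0, nat_lit 0), (nat_lit 0, nat_lit 0, nat_lit 0), (nat_lit 0, nat_lit 0, nat_lit 0), (nat_lit 960, nat_lit 1000, nat_lit 200)], (nat_lit 100, nat_lit 96, nat_lit 20)⟩
noncomputable def p000_k14 : C1.Kn := ⟨[nat_lit 60, nat_lit 90, nat_lit 120, nat_lit 140], [nat_lit 0, nat_lit 0, nat_lit 0, nat_lit 399], [(nat_lit 0, nat_lit 0, nat_lit 0), (nat_lit 0, nat_lit 0, nat_lit 0), (nat_lit 0, nat_lit 0, nat_lit 0), (nat_lit 942, nat_lit 1000, nat_lit 293)], (nat_lit 100, nat_lit 97, nat_lit 20)⟩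
noncomputable def p000_k15 : C1.Kn := ⟨[nat_lit 60, nat_lit 90, nat_lit 120, nat_lit 140], [nat_lit 0, nat_lit 0, nat_lit 0, nat_lit 332], [(nat_lit 0, nat_lit 0, nat_lit 0), (nat_lit 0, nat_lit 0, nat_lit 0), (nat_lit 0, nat_lit 0, nat_lit 0), (nat_lit 951, nat_lit 1000, nat_lit 247)], (nat_lit 100, nat_lit 97, nat_lit 20)⟩
noncomputable def p000_k16 : C1.Kn := ⟨[nat_lit 110, nat_lit 130], [nat_lit 0, nat_lit 193], [(nat_lit 0, nat_lit 0, nat_lit 0), (nat_lit 985, nat_lit 1000, nat_lit 149)], (nat_lit 100, nat_lit 98, nat_lit 20)⟩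
noncomputable def p000_k17 : C1.Kn := ⟨[nat_lit 110, nat_lit 130], [nat_lit 0, nat_lit 63], [(nat_lit 0, nat_lit 0, nat_lit 0), (nat_lit 995, nat_lit 1000, nat_lit 49)], (nat_lit 100, nat_lit 97, nat_lit 20)⟩
noncomputable def p000_k18 : C1.Kn := ⟨[nat_lit 110, nat_lit 120, nat_lit 130], [nat_lit 0, nat_lit 96, nat_lit 231], [(nat_lit 0, nat_lit 0, nat_lit 0), (nat_lit 986, nat_lit 1000, nat_lit 147), (nat_lit 974, nat_lit 1000, nat_lit 205)], (nat_lit 100, nat_lit 98, nat_lit 20)⟩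
noncomputable def p000_k19 : C1.Kn := ⟨[nat_lit 110, nat_lit 120, nat_lit 130], [nat_lit 0, nat_lit 31, nat_lit 165], [(nat_lit 0, nat_lit 0, nat_lit 0), (nat_lit 995, nat_lit 1000, nat_lit 49), (nat_lit 965, nat_lit 1000, nat_lit 199)], (nat_lit 100, nat_lit 97, nat_lit 20)⟩
noncomputable def p000_k20 : C1.Kn := ⟨[nat_lit 60, nat_lit 110, nat_lit 130], [nat_lit 0, nat_lit 0, nat_lit 219], [(nat_lit 0, nat_lit 0, nat_lit 0), (nat_lit 0, nat_lit 0, nat_lit 0), (nat_lit 983, nat_lit 1000, nat_lit 168)], (nat_lit 100, nat_lit 98, nat_lit 20)⟩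
noncomputable def p000_k21 : C1.Kn := ⟨[nat_lit 60, nat_lit 110, nat_lit 130], [nat_lit 0, nat_lit 0, nat_lit 232], [(nat_lit 0, nat_lit 0, nat_lit 0), (nat_lit 0, nat_lit 0, nat_lit 0), (nat_lit 982, nat_lit 1000, nat_lit 178)], (nat_lit 100, nat_lit 98, nat_lit 20)⟩
noncomputable def p000_k22 : C1.Kn := ⟨[nat_lit 60, nat_lit 110, nat_lit 130], [nat_lit 0, nat_lit 0, nat_lit 244], [(nat_lit 0, nat_lit 0, nat_lit 0), (nat_lit 0, nat_lit 0, nat_lit 0), (nat_lit 981, nat_lit 1000, nat_lit 187)], (nat_lit 100, nat_lit 98, nat_lit 20)⟩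
noncomputable def p000_k23 : C1.Kn := ⟨[nat_lit 60, nat_lit 110, nat_lit 130], [nat_lit 0, nat_lit 0, nat_lit 63], [(nat_lit 0, nat_lit 0, nat_lit 0), (nat_lit 0, nat_lit 0, nat_lit 0), (nat_lit 995, nat_lit 1000, nat_lit 49)], (nat_lit 100, nat_lit 97, nat_lit 20)⟩
noncomputable def p000_k24 : C1.Kn := ⟨[nat_lit 60, nat_lit 90, nat_lit 120, nat_lit 140], [nat_lit 0, nat_lit 0, nat_lit 0, nat_lit 439], [(nat_lit 0, nat_lit 0, nat_lit 0), (nat_lit 0, nat_lit 0, nat_lit 0), (nat_lit 0, nat_lit 0, nat_lit 0), (nat_lit 936, nat_lit 1000, nat_lit 321)], (nat_lit 100, nat_lit 97, nat_lit 20)⟩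
noncomputable def p000_k25 : C1.Kn := ⟨[nat_lit 60, nat_lit 90, nat_lit 120, nat_lit 140], [nat_lit 0, nat_lit 0, nat_lit 0, nat_lit 452], [(nat_lit 0, nat_lit 0, nat_lit 0), (nat_lit 0, nat_lit 0, nat_lit 0), (nat_lit 0, nat_lit 0, nat_lit 0), (nat_lit 935, nat_lit 1000, nat_lit 327)], (nat_lit 100, nat_lit 97, nat_lit 20)⟩
noncomputable def p000_k26 : C1.Kn := ⟨[nat_lit 60, nat_lit 90, nat_lit 120, nat_lit 140], [nat_lit 0, nat_lit 0, nat_lit 0, nat_lit 506], [(nat_lit 0, nat_lit 0, nat_lit 0), (nat_lit 0, nat_lit 0, nat_lit 0), (nat_lit 0, nat_lit 0, nat_lit 0), (nat_lit 928, nat_lit 1000, nat_lit 365)], (nat_lit 100, nat_lit 98, nat_lit 20)⟩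
noncomputable def p000_k27 : C1.Kn := ⟨[nat_lit 60, nat_lit 110, nat_lit 130], [nat_lit 0, nat_lit 0, nat_lit 180], [(nat_lit 0, nat_lit 0, nat_lit 0), (nat_lit 0, nat_lit 0, nat_lit 0), (nat_lit 986, nat_lit 1000, nat_lit 139)], (nat_lit 100, nat_lit 97, nat_lit 20)⟩
noncomputable def p000_k28 : C1.Kn := ⟨[nat_lit 60, nat_lit 90, nat_lit 120, nat_lit 140], [nat_lit 0, nat_lit 0, nat_lit 0, nat_lit 519], [(nat_lit 0, nat_lit 0, nat_lit 0), (nat_lit 0, nat_lit 0, nat_lit 0), (nat_lit 0, nat_lit 0, nat_lit 0), (nat_lit 927, nat_lit 1000, nat_lit 371)], (nat_lit 100, nat_lit 98, nat_lit 20)⟩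
noncomputable def p000_k29 : C1.Kn := ⟨[nat_lit 60, nat_lit 90, nat_lit 120, nat_lit 140], [nat_lit 0, nat_lit 0, nat_lit 0, nat_lit 466], [(nat_lit 0, nat_lit 0, nat_lit 0), (nat_lit 0, nat_lit 0, nat_lit 0), (nat_lit 0, nat_lit 0, nat_lit 0), (nat_lit 933, nat_lit 1000, nat_lit 338)], (nat_lit 100, nat_lit 95, nat_lit 28)⟩
noncomputable def p000_k30 : C1.Kn := ⟨[nat_lit 60, nat_lit 90, nat_lit 120, nat_lit 140], [nat_lit 0, nat_lit 0, nat_lit 0, nat_lit 399], [(nat_lit 0, nat_lit 0, nat_lit 0), (nat_lit 0, nat_lit 0, nat_lit 0), (nat_lit 0, nat_lit 0, nat_lit 0), (nat_lit 942, nat_lit 1000, nat_lit 293)], (nat_lit 100, nat_lit 95, nat_lit 28)⟩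
noncomputable def p000_k31 : C1.Kn := ⟨[nat_lit 60, nat_lit 90, nat_lit 120, nat_lit 140], [nat_lit 0, nat_lit 0, nat_lit 0, nat_lit 266], [(nat_lit 0, nat_lit 0, nat_lit 0), (nat_lit 0, nat_lit 0, nat_lit 0), (nat_lit 0, nat_lit 0, nat_lit 0), (nat_lit 960, nat_lit 1000, nat_lit 200)], (nat_lit 100, nat_lit 93, nat_lit 28)⟩
noncomputable def p000_k32 : C1.Kn := ⟨[nat_lit 100, nat_lit 120, nat_lit 140], [nat_lit 0, nat_lit 0, nat_lit 399], [(nat_lit 0, nat_lit 0, nat_lit 0), (nat_lit 0, nat_lit 0, nat_lit 0), (nat_lit 942, nat_lit 1000, nat_lit 293)], (nat_lit 100, nat_lit 95, nat_lit 28)⟩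
noncomputable def p000_k33 : C1.Kn := ⟨[nat_lit 50, nat_lit 110, nat_lit 130, nat_lit 140], [nat_lit 0, nat_lit 0, nat_lit 0, nat_lit 307], [(nat_lit 0, nat_lit 0, nat_lit 0), (nat_lit 0, nat_lit 0, nat_lit 0), (nat_lit 0, nat_lit 0, nat_lit 0), (nat_lit 926, nat_lit 1000, nat_lit 295)], (nat_lit 100, nat_lit 93, nat_lit 28)⟩
noncomputable def p000_k34 : C1.Kn := ⟨[nat_lit 110, nat_lit 130, nat_lit 140], [nat_lit 0, nat_lit 129, nat_lit 413], [(nat_lit 0, nat_lit 0, nat_lit 0), (nat_lit 990, nat_lit 1000, nat_lit 100), (nat_lit 922, nat_lit 1000, nat_lit 344)], (nat_lit 100, nat_lit 95, nat_lit 28)⟩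
noncomputable def p000_k35 : C1.Kn := ⟨[nat_lit 60, nat_lit 110, nat_lit 130, nat_lit 140], [nat_lit 0, nat_lit 0, nat_lit 0, nat_lit 307], [(nat_lit 0, nat_lit 0, nat_lit 0), (nat_lit 0, nat_lit 0, nat_lit 0), (nat_lit 0, nat_lit 0, nat_lit 0), (nat_lit 926, nat_lit 1000, nat_lit 295)], (nat_lit 100, nat_lit 93, nat_lit 28)⟩
noncomputable def p000_k36 : C1.Kn := ⟨[nat_lit 110, nat_lit 130], [nat_lit 0, nat_lit 232], [(nat_lit 0, nat_lit 0, nat_lit 0), (nat_lit 982, nat_lit 1000, nat_lit 178)], (nat_lit 100, nat_lit 98, nat_lit 20)⟩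
noncomputable def p000_k37 : C1.Kn := ⟨[nat_lit 110, nat_lit 130], [nat_lit 0, nat_lit 0], [(nat_lit 0, nat_lit 0, nat_lit 0), (nat_lit 0, nat_lit 0, nat_lit 0)], (nat_lit 100, nat_lit 96, nat_lit 20)⟩
noncomputable def p000_k38 : C1.Kn := ⟨[nat_lit 110, nat_lit 120, nat_lit 140], [nat_lit 0, nat_lit 64, nat_lit 329], [(nat_lit 0, nat_lit 0, nat_lit 0), (nat_lit 990, nat_lit 1000, nat_lit 100), (nat_lit 970, nat_lit 1000, nat_lit 201)], (nat_lit 100, nat_lit 95, nat_lit 28)⟩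
noncomputable def p000_k39 : C1.Kn := ⟨[nat_lit 110, nat_lit 120, nat_lit 140], [nat_lit 0, nat_lit 0, nat_lit 266], [(nat_lit 0, nat_lit 0, nat_lit 0), (nat_lit 0, nat_lit 0, nat_lit 0), (nat_lit 960, nat_lit 1000, nat_lit 200)], (nat_lit 100, nat_lit 93, nat_lit 28)⟩
noncomputable def p000_k40 : C1.Kn := ⟨[nat_lit 50, nat_lit 100, nat_lit 120, nat_lit 130], [nat_lit 0, nat_lit 0, nat_lit 0, nat_lit 248], [(nat_lit 0, nat_lit 0, nat_lit 0), (nat_lit 0, nat_lit 0, nat_lit 0), (nat_lit 0, nat_lit 0, nat_lit 0), (nat_lit 958, nat_lit 1000, nat_lit 264)], (nat_lit 100, nat_lit 98, nat_lit 20)⟩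
noncomputable def p000_k41 : C1.Kn := ⟨[nat_lit 50, nat_lit 100, nat_lit 120, nat_lit 140], [nat_lit 0, nat_lit 0, nat_lit 0, nat_lit 399], [(nat_lit 0, nat_lit 0, nat_lit 0), (nat_lit 0, nat_lit 0, nat_lit 0), (nat_lit 0, nat_lit 0, nat_lit 0), (nat_lit 942, nat_lit 1000, nat_lit 293)], (nat_lit 100, nat_lit 95, nat_lit 28)⟩
noncomputable def p000_k42 : C1.Kn := ⟨[nat_lit 60, nat_lit 110, nat_lit 130, nat_lit 140], [nat_lit 0, nat_lit 0, nat_lit 129, nat_lit 413], [(nat_lit 0, nat_lit 0, nat_lit 0), (nat_lit 0, nat_lit 0, nat_lit 0), (nat_lit 990, nat_lit 1000, nat_lit 100), (nat_lit 922, nat_lit 1000, nat_lit 344)], (nat_lit 100, nat_lit 95, nat_lit 28)⟩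
noncomputable def p000_k43 : C1.Kn := ⟨[nat_lit 60, nat_lit 120, nat_lit 140], [nat_lit 0, nat_lit 0, nat_lit 266], [(nat_lit 0, nat_lit 0, nat_lit 0), (nat_lit 0, nat_lit 0, nat_lit 0), (nat_lit 960, nat_lit 1000, nat_lit 200)], (nat_lit 100, nat_lit 93, nat_lit 28)⟩
noncomputable def p000_k44 : C1.Kn := ⟨[nat_lit 100, nat_lit 120, nat_lit 130], [nat_lit 0, nat_lit 0, nat_lit 206], [(nat_lit 0, nat_lit 0, nat_lit 0), (nat_lit 0, nat_lit 0, nat_lit 0), (nat_lit 958, nat_lit 1000, nat_lit 242)], (nat_lit 100, nat_lit 97, nat_lit 20)⟩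
noncomputable def p000_k45 : C1.Kn := ⟨[nat_lit 90, nat_lit 110, nat_lit 120, nat_lit 130], [nat_lit 0, nat_lit 0, nat_lit 0, nat_lit 133], [(nat_lit 0, nat_lit 0, nat_lit 0), (nat_lit 0, nat_lit 0, nat_lit 0), (nat_lit 0, nat_lit 0, nat_lit 0), (nat_lit 961, nat_lit 1000, nat_lit 195)], (nat_lit 100, nat_lit 96, nat_lit 20)⟩
noncomputable def p000_k46 : C1.Kn := ⟨[nat_lit 50, nat_lit 110, nat_lit 130], [nat_lit 0, nat_lit 0, nat_lit 0], [(nat_lit 0, nat_lit 0, nat_lit 0), (nat_lit 0, nat_lit 0, nat_lit 0), (nat_lit 0, nat_lit 0, nat_lit 0)], (nat_lit 100, nat_lit 96, nat_lit 20)⟩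
noncomputable def p000_k47 : C1.Kn := ⟨[nat_lit 110, nat_lit 120, nat_lit 130], [nat_lit 0, nat_lit 64, nat_lit 197], [(nat_lit 0, nat_lit 0, nat_lit 0), (nat_lit 990, nat_lit 1000, nat_lit 100), (nat_lit 970, nat_lit 1000, nat_lit 201)], (nat_lit 100, nat_lit 97, nat_lit 20)⟩
noncomputable def p000_k48 : C1.Kn := ⟨[nat_lit 110, nat_lit 120, nat_lit 130], [nat_lit 0, nat_lit 0, nat_lit 133], [(nat_lit 0, nat_lit 0, nat_lit 0), (nat_lit 0, nat_lit 0, nat_lit 0), (nat_lit 961, nat_lit 1000, nat_lit 195)], (nat_lit 100, nat_lit 96, nat_lit 20)⟩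
noncomputable def p000_k49 : C1.Kn := ⟨[nat_lit 110, nat_lit 130], [nat_lit 0, nat_lit 129], [(nat_lit 0, nat_lit 0, nat_lit 0), (nat_lit 990, nat_lit 1000, nat_lit 100)], (nat_lit 100, nat_lit 97, nat_lit 20)⟩
noncomputable def p000_k50 : C1.Kn := ⟨[nat_lit 50, nat_lit 100, nat_lit 120, nat_lit 130], [nat_lit 0, nat_lit 0, nat_lit 0, nat_lit 206], [(nat_lit 0, nat_lit 0, nat_lit 0), (nat_lit 0, nat_lit 0, nat_lit 0), (nat_lit 0, nat_lit 0, nat_lit 0), (nat_lit 958, nat_lit 1000, nat_lit 242)], (nat_lit 100, nat_lit 97, nat_lit 20)⟩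
noncomputable def p000_k51 : C1.Kn := ⟨[nat_lit 100, nat_lit 120, nat_lit 130], [nat_lit 0, nat_lit 0, nat_lit 248], [(nat_lit 0, nat_lit 0, nat_lit 0), (nat_lit 0, nat_lit 0, nat_lit 0), (nat_lit 958, nat_lit 1000, nat_lit 264)], (nat_lit 100, nat_lit 98, nat_lit 20)⟩
noncomputable def p000_k52 : C1.Kn := ⟨[nat_lit 90, nat_lit 120, nat_lit 140], [nat_lit 0, nat_lit 0, nat_lit 266], [(nat_lit 0, nat_lit 0, nat_lit 0), (nat_lit 0, nat_lit 0, nat_lit 0), (nat_lit 960, nat_lit 1000, nat_lit 200)], (nat_lit 100, nat_lit 96, nat_lit 20)⟩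
noncomputable def p000_k53 : C1.Kn := ⟨[nat_lit 120, nat_lit 140], [nat_lit 0, nat_lit 506], [(nat_lit 0, nat_lit 0, nat_lit 0), (nat_lit 928, nat_lit 1000, nat_lit 365)], (nat_lit 100, nat_lit 96, nat_lit 28)⟩
noncomputable def p000_k54 : C1.Kn := ⟨[nat_lit 90, nat_lit 120, nat_lit 140], [nat_lit 0, nat_lit 0, nat_lit 266], [(nat_lit 0, nat_lit 0, nat_lit 0), (nat_lit 0, nat_lit 0, nat_lit 0), (nat_lit 960, nat_lit 1000, nat_lit 200)], (nat_lit 100, nat_lit 93, nat_lit 28)⟩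
noncomputable def p000_l0 : Lf2 := ⟨nat_lit 1, nat_lit 2, [nat_lit 10, nat_lit 5, nat_lit 5, nat_lit 20], false, nat_lit 0, nat_lit 0, nat_lit 0, nat_lit 0, zbN0,
 nat_lit 0, nat_lit 0, nat_lit 0, nat_lit 0, nat_lit 0, nat_lit 0, nat_lit 0, nat_lit 0, nat_lit 0, nat_lit 0, nat_lit 0, nat_lit 0, nat_lit 0, nat_lit 0, nat_lit 0, nat_lit 0, nat_lit 0, nat_lit 0, [],
 C1.Rw.none, C1.Rw.none,
 zbF0, []⟩
noncomputable def p000_l1 : Lf2 := ⟨nat_lit 0, nat_lit 1, [nat_lit 19, nat_lit 5, nat_lit 5, nat_lit 20], false, nat_lit 0, nat_lit 0, nat_lit 0, nat_lit 0, ⟨nat_lit 1000, nat_lit 0, nat_lit 0, nat_lit 0, nat_lit 0, nat_lit 0, nat_lit 0, nat_lit 0, nat_lit 0, nat_lit 0, nat_lit 0, nat_lit 0, nat_lit 0, nat_lit 0, nat_lit 0, nat_lit 0, false, false⟩,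
 nat_lit 0, nat_lit 0, nat_lit 0, nat_lit 48991, nat_lit 5154, nat_lit 5166, nat_lit 4518, nat_lit 0, nat_lit 0, nat_lit 6878, nat_lit 0, nat_lit 0, nat_lit 0, nat_lit 0, nat_lit 0, nat_lit 0, nat_lit 0, nat_lit 0, [],
 ⟨p000_k0, nat_lit 0, nat_lit 0, nat_lit 0, nat_lit 0, nat_lit 0, [nat_lit 3282000000, nat_lit 7968000001, nat_lit 9842000000], [], [nat_lit 20636986324, nat_lit 21077359913, nat_lit 18000757145, nat_lit 18496473073], nat_lit 0, nat_lit 0, nat_lit 0, nat_lit 0, nat_lit 0, nat_lit 0, [], [nat_lit 99, nat_lit 40, nat_lit 20, nat_lit 80]⟩, ⟨p000_k1, nat_lit 0, nat_lit 0, nat_lit 0, nat_lit 0, nat_lit 0, [nat_lit 3282000000, nat_lit 7968000000, nat_lit 9842000000], [], [nat_lit 20122758928, nat_lit 20563060318, nat_lit 17486512064, nat_lit 17982654376], nat_lit 0, nat_lit 0, nat_lit 0, nat_lit 0, nat_lit 0, nat_lit 0, [], [nat_lit 99, nat_lit 40, nat_lit 20, nat_lit 80]⟩,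
 zbF0, []⟩
noncomputable def p000_l2 : Lf2 := ⟨nat_lit 3, nat_lit 1, [nat_lit 19, nat_lit 5, nat_lit 5, nat_lit 20], false, nat_lit 0, nat_lit 0, nat_lit 0, nat_lit 0, zbN0,
 nat_lit 0, nat_lit 0, nat_lit 0, nat_lit 0, nat_lit 0, nat_lit 0, nat_lit 0, nat_lit 0, nat_lit 0, nat_lit 0, nat_lit 0, nat_lit 0, nat_lit 0, nat_lit 0, nat_lit 0, nat_lit 0, nat_lit 0, nat_lit 0, [],
 C1.Rw.none, ⟨p000_k2, nat_lit 0, nat_lit 0, nat_lit 289, nat_lit 0, nat_lit 0, [], [], [], nat_lit 0, nat_lit 0, nat_lit 0, nat_lit 0, nat_lit 0, nat_lit 0, [], [nat_lit 77, nat_lit 40, nat_lit 20, nat_lit 80, nat_lit 17, nat_lit 289, nat_lit 75, nat_lit 9]⟩,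
 zbF0, []⟩
noncomputable def p000_l3 : Lf2 := ⟨nat_lit 2, nat_lit 1, [nat_lit 19, nat_lit 5, nat_lit 5, nat_lit 20], true, nat_lit 0, nat_lit 0, nat_lit 0, nat_lit 0, zbN0,
 nat_lit 0, nat_lit 0, nat_lit 0, nat_lit 0, nat_lit 0, nat_lit 0, nat_lit 0, nat_lit 0, nat_lit 0, nat_lit 0, nat_lit 0, nat_lit 0, nat_lit 0, nat_lit 0, nat_lit 0, nat_lit 0, nat_lit 0, nat_lit 0, [],
 ⟨p000_k3, nat_lit 0, nat_lit 0, nat_lit 289, nat_lit 0, nat_lit 0, [], [], [], nat_lit 0, nat_lit 0, nat_lit 0, nat_lit 0, nat_lit 0, nat_lit 0, [], [nat_lit 77, nat_lit 40, nat_lit 20, nat_lit 80, nat_lit 17, nat_lit 289, nat_lit 75, nat_lit 9]⟩, C1.Rw.none,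
 zbF0, []⟩
noncomputable def p000_l4 : Lf2 := ⟨nat_lit 0, nat_lit 1, [nat_lit 19, nat_lit 5, nat_lit 5, nat_lit 20], false, nat_lit 0, nat_lit 0, nat_lit 0, nat_lit 0, ⟨nat_lit 1000, nat_lit 0, nat_lit 0, nat_lit 0, nat_lit 0, nat_lit 0, nat_lit 0, nat_lit 0, nat_lit 0, nat_lit 0, nat_lit 0, nat_lit 0, nat_lit 0, nat_lit 0, nat_lit 0, nat_lit 0, false, false⟩,
 nat_lit 0, nat_lit 0, nat_lit 0, nat_lit 1187, nat_lit 22862, nat_lit 23534, nat_lit 0, nat_lit 0, nat_lit 0, nat_lit 0, nat_lit 0, nat_lit 0, nat_lit 0, nat_lit 0, nat_lit 0, nat_lit 0, nat_lit 0, nat_lit 0, [],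
 ⟨p000_k3, nat_lit 0, nat_lit 0, nat_lit 19, nat_lit 0, nat_lit 0, [nat_lit 7968000001, nat_lit 9842000000], [], [nat_lit 6667996605, nat_lit 7948851968, nat_lit 5470741621, nat_lit 6499688185], nat_lit 0, nat_lit 0, nat_lit 0, nat_lit 0, nat_lit 0, nat_lit 0, [], [nat_lit 77, nat_lit 40, nat_lit 20, nat_lit 80, nat_lit 17, nat_lit 317, nat_lit 100, nat_lit 10]⟩, ⟨p000_k2, nat_lit 0, nat_lit 0, nat_lit 9, nat_lit 0, nat_lit 0, [nat_lit 7968000000, nat_lit 9842000000], [], [nat_lit 5053877608, nat_lit 6390602620, nat_lit 3930193392, nat_lit 4980188340], nat_lit 0, nat_lit 0, nat_lit 0, nat_lit 0, nat_lit 0, nat_lit 0, [], [nat_lit 77, nat_lit 40, nat_lit 20, nat_lit 80, nat_lit 17, nat_lit 317, nat_lit 100, nat_lit 10]⟩,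
 zbF0, []⟩
noncomputable def p000_l5 : Lf2 := ⟨nat_lit 0, nat_lit 1, [nat_lit 19, nat_lit 5, nat_lit 5, nat_lit 20], false, nat_lit 0, nat_lit 0, nat_lit 0, nat_lit 0, ⟨nat_lit 1000, nat_lit 0, nat_lit 0, nat_lit 0, nat_lit 0, nat_lit 0, nat_lit 0, nat_lit 0, nat_lit 0, nat_lit 0, nat_lit 0, nat_lit 0, nat_lit 0, nat_lit 0, nat_lit 0, nat_lit 0, false, false⟩,
 nat_lit 0, nat_lit 0, nat_lit 0, nat_lit 5290, nat_lit 17078, nat_lit 17579, nat_lit 0, nat_lit 0, nat_lit 0, nat_lit 0, nat_lit 0, nat_lit 0, nat_lit 0, nat_lit 0, nat_lit 0, nat_lit 0, nat_lit 0, nat_lit 0, [],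
 ⟨p000_k3, nat_lit 0, nat_lit 0, nat_lit 61, nat_lit 0, nat_lit 0, [nat_lit 7968000001, nat_lit 9842000000], [], [nat_lit 9693003781, nat_lit 10540783897, nat_lit 17403765903, nat_lit 17999244593], nat_lit 0, nat_lit 0, nat_lit 0, nat_lit 0, nat_lit 0, nat_lit 0, [], [nat_lit 77, nat_lit 40, nat_lit 20, nat_lit 80, nat_lit 17, nat_lit 345, nat_lit 125, nat_lit 10]⟩, ⟨p000_k2, nat_lit 0, nat_lit 0, nat_lit 57, nat_lit 0, nat_lit 0, [nat_lit 7968000000, nat_lit 9842000000], [], [nat_lit 8463806352, nat_lit 9327278790, nat_lit 16586120766, nat_lit 17245514719], nat_lit 0, nat_lit 0, nat_lit 0, nat_lit 0, nat_lit 0, nat_lit 0, [], [nat_lit 77, nat_lit 40, nat_lit 20, nat_lit 80, nat_lit 17, nat_lit 345, nat_lit 125, nat_lit 10]⟩,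
 zbF0, []⟩
noncomputable def p000_l6 : Lf2 := ⟨nat_lit 1, nat_lit 2, [nat_lit 10, nat_lit 5, nat_lit 5, nat_lit 20], false, nat_lit 0, nat_lit 0, nat_lit 0, nat_lit 0, zbN0,
 nat_lit 0, nat_lit 0, nat_lit 0, nat_lit 0, nat_lit 0, nat_lit 0, nat_lit 0, nat_lit 0, nat_lit 0, nat_lit 0, nat_lit 0, nat_lit 0, nat_lit 0, nat_lit 0, nat_lit 0, nat_lit 0, nat_lit 0, nat_lit 0, [],
 C1.Rw.none, C1.Rw.none,
 zbF0, []⟩
noncomputable def p000_l7 : Lf2 := ⟨nat_lit 0, nat_lit 2, [nat_lit 10, nat_lit 5, nat_lit 5, nat_lit 20], false, nat_lit 0, nat_lit 0, nat_lit 0, nat_lit 0, ⟨nat_lit 1000, nat_lit 0, nat_lit 0, nat_lit 0, nat_lit 0, nat_lit 0, nat_lit 0, nat_lit 0, nat_lit 0, nat_lit 0, nat_lit 0, nat_lit 0, nat_lit 0, nat_lit 0, nat_lit 0, nat_lit 0, false, false⟩,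
 nat_lit 0, nat_lit 0, nat_lit 0, nat_lit 42501, nat_lit 5154, nat_lit 5160, nat_lit 4518, nat_lit 0, nat_lit 0, nat_lit 4552, nat_lit 0, nat_lit 0, nat_lit 0, nat_lit 0, nat_lit 0, nat_lit 0, nat_lit 0, nat_lit 0, [],
 ⟨p000_k4, nat_lit 0, nat_lit 0, nat_lit 0, nat_lit 0, nat_lit 0, [nat_lit 3282000000, nat_lit 7968000001, nat_lit 9842000000], [], [nat_lit 20636986324, nat_lit 21077359913, nat_lit 18000757145, nat_lit 18496473073], nat_lit 0, nat_lit 0, nat_lit 0, nat_lit 0, nat_lit 0, nat_lit 0, [], [nat_lit 99, nat_lit 40, nat_lit 20, nat_lit 80]⟩, ⟨p000_k4, nat_lit 0, nat_lit 0, nat_lit 0, nat_lit 0, nat_lit 0, [nat_lit 3282000000, nat_lit 7968000000, nat_lit 9842000000], [], [nat_lit 20599423960, nat_lit 20820317080, nat_lit 17991705760, nat_lit 18239670320], nat_lit 0, nat_lit 0, nat_lit 0, nat_lit 0, nat_lit 0, nat_lit 0, [], [nat_lit 99, nat_lit 40, nat_lit 20, nat_lit 80]⟩,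
 zbF0, []⟩
noncomputable def p000_l8 : Lf2 := ⟨nat_lit 0, nat_lit 2, [nat_lit 10, nat_lit 5, nat_lit 5, nat_lit 20], false, nat_lit 0, nat_lit 0, nat_lit 0, nat_lit 0, ⟨nat_lit 1000, nat_lit 0, nat_lit 0, nat_lit 0, nat_lit 0, nat_lit 0, nat_lit 0, nat_lit 0, nat_lit 0, nat_lit 0, nat_lit 0, nat_lit 0, nat_lit 0, nat_lit 0, nat_lit 0, nat_lit 0, false, false⟩,
 nat_lit 0, nat_lit 0, nat_lit 0, nat_lit 36523, nat_lit 5154, nat_lit 5154, nat_lit 3868, nat_lit 0, nat_lit 0, nat_lit 3868, nat_lit 0, nat_lit 0, nat_lit 0, nat_lit 0, nat_lit 0, nat_lit 0, nat_lit 0, nat_lit 0, [],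
 ⟨p000_k5, nat_lit 0, nat_lit 0, nat_lit 0, nat_lit 0, nat_lit 0, [nat_lit 3282000000, nat_lit 7968000001, nat_lit 9842000000], [], [nat_lit 20857419295, nat_lit 21077359913, nat_lit 18248615109, nat_lit 18496473073], nat_lit 0, nat_lit 0, nat_lit 0, nat_lit 0, nat_lit 0, nat_lit 0, [], [nat_lit 99, nat_lit 40, nat_lit 20, nat_lit 80]⟩, ⟨p000_k5, nat_lit 0, nat_lit 0, nat_lit 0, nat_lit 0, nat_lit 0, [nat_lit 3282000000, nat_lit 7968000000, nat_lit 9842000000], [], [nat_lit 20857419295, nat_lit 21077359912, nat_lit 18248615108, nat_lit 18496473072], nat_lit 0, nat_lit 0, nat_lit 0, nat_lit 0, nat_lit 0, nat_lit 0, [], [nat_lit 99, nat_lit 40, nat_lit 20, nat_lit 80]⟩,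
 zbF0, []⟩
noncomputable def p000_l9 : Lf2 := ⟨nat_lit 3, nat_lit 2, [nat_lit 10, nat_lit 5, nat_lit 5, nat_lit 20], false, nat_lit 0, nat_lit 0, nat_lit 0, nat_lit 0, zbN0,
 nat_lit 0, nat_lit 0, nat_lit 0, nat_lit 0, nat_lit 0, nat_lit 0, nat_lit 0, nat_lit 0, nat_lit 0, nat_lit 0, nat_lit 0, nat_lit 0, nat_lit 0, nat_lit 0, nat_lit 0, nat_lit 0, nat_lit 0, nat_lit 0, [],
 C1.Rw.none, ⟨p000_k6, nat_lit 0, nat_lit 0, nat_lit 289, nat_lit 0, nat_lit 0, [], [], [], nat_lit 0, nat_lit 0, nat_lit 0, nat_lit 0, nat_lit 0, nat_lit 0, [], [nat_lit 77, nat_lit 40, nat_lit 20, nat_lit 80, nat_lit 17, nat_lit 289, nat_lit 75, nat_lit 9]⟩,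
 zbF0, []⟩
noncomputable def p000_l10 : Lf2 := ⟨nat_lit 2, nat_lit 2, [nat_lit 10, nat_lit 5, nat_lit 5, nat_lit 20], true, nat_lit 0, nat_lit 0, nat_lit 0, nat_lit 0, zbN0,
 nat_lit 0, nat_lit 0, nat_lit 0, nat_lit 0, nat_lit 0, nat_lit 0, nat_lit 0, nat_lit 0, nat_lit 0, nat_lit 0, nat_lit 0, nat_lit 0, nat_lit 0, nat_lit 0, nat_lit 0, nat_lit 0, nat_lit 0, nat_lit 0, [],
 ⟨p000_k6, nat_lit 0, nat_lit 0, nat_lit 289, nat_lit 0, nat_lit 0, [], [], [], nat_lit 0, nat_lit 0, nat_lit 0, nat_lit 0, nat_lit 0, nat_lit 0, [], [nat_lit 77, nat_lit 40, nat_lit 20, nat_lit 80, nat_lit 17, nat_lit 289, nat_lit 75, nat_lit 9]⟩, C1.Rw.none,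
 zbF0, []⟩
noncomputable def p000_l11 : Lf2 := ⟨nat_lit 0, nat_lit 2, [nat_lit 10, nat_lit 5, nat_lit 5, nat_lit 20], false, nat_lit 0, nat_lit 0, nat_lit 0, nat_lit 0, ⟨nat_lit 1000, nat_lit 0, nat_lit 0, nat_lit 0, nat_lit 0, nat_lit 0, nat_lit 0, nat_lit 0, nat_lit 0, nat_lit 0, nat_lit 0, nat_lit 0, nat_lit 0, nat_lit 0, nat_lit 0, nat_lit 0, false, false⟩,
 nat_lit 0, nat_lit 0, nat_lit 0, nat_lit 1371, nat_lit 22730, nat_lit 22918, nat_lit 0, nat_lit 0, nat_lit 0, nat_lit 0, nat_lit 0, nat_lit 0, nat_lit 0, nat_lit 1579215638857, nat_lit 0, nat_lit 0, nat_lit 0, nat_lit 0, [],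
 ⟨p000_k6, nat_lit 0, nat_lit 0, nat_lit 19, nat_lit 0, nat_lit 0, [nat_lit 7968000001, nat_lit 9842000000], [], [nat_lit 6745118661, nat_lit 7936120561, nat_lit 5567100301, nat_lit 6591912361], nat_lit 0, nat_lit 0, nat_lit 0, nat_lit 0, nat_lit 0, nat_lit 0, [], [nat_lit 77, nat_lit 40, nat_lit 20, nat_lit 80, nat_lit 17, nat_lit 317, nat_lit 100, nat_lit 10]⟩, ⟨p000_k6, nat_lit 0, nat_lit 0, nat_lit 19, nat_lit 0, nat_lit 0, [nat_lit 7968000000, nat_lit 9842000000], [], [nat_lit 6635278156, nat_lit 7954253952, nat_lit 5429862180, nat_lit 6460562776], nat_lit 0, nat_lit 0, nat_lit 0, nat_lit 0, nat_lit 0, nat_lit 0, [], [nat_lit 77, nat_lit 40, nat_lit 20, nat_lit 80, nat_lit 17, nat_lit 317, nat_lit 100, nat_lit 10]⟩,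
 zbF0, []⟩
noncomputable def p000_l12 : Lf2 := ⟨nat_lit 0, nat_lit 2, [nat_lit 10, nat_lit 5, nat_lit 5, nat_lit 20], false, nat_lit 0, nat_lit 0, nat_lit 0, nat_lit 0, ⟨nat_lit 1000, nat_lit 0, nat_lit 0, nat_lit 0, nat_lit 0, nat_lit 0, nat_lit 0, nat_lit 0, nat_lit 0, nat_lit 0, nat_lit 0, nat_lit 0, nat_lit 0, nat_lit 0, nat_lit 0, nat_lit 0, false, false⟩,
 nat_lit 0, nat_lit 0, nat_lit 0, nat_lit 1371, nat_lit 17342, nat_lit 17358, nat_lit 0, nat_lit 0, nat_lit 0, nat_lit 0, nat_lit 0, nat_lit 0, nat_lit 0, nat_lit 0, nat_lit 0, nat_lit 0, nat_lit 0, nat_lit 0, [],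
 ⟨p000_k6, nat_lit 0, nat_lit 0, nat_lit 61, nat_lit 0, nat_lit 0, [nat_lit 7968000001, nat_lit 9842000000], [], [nat_lit 9500286421, nat_lit 10356335545, nat_lit 17291409879, nat_lit 18106775152], nat_lit 0, nat_lit 0, nat_lit 0, nat_lit 0, nat_lit 0, nat_lit 0, [], [nat_lit 77, nat_lit 40, nat_lit 20, nat_lit 80, nat_lit 17, nat_lit 345, nat_lit 125, nat_lit 10]⟩, ⟨p000_k6, nat_lit 0, nat_lit 0, nat_lit 61, nat_lit 0, nat_lit 0, [nat_lit 7968000000, nat_lit 9842000000], [], [nat_lit 9488606580, nat_lit 10345156856, nat_lit 17284600422, nat_lit 18113336048], nat_lit 0, nat_lit 0, nat_lit 0, nat_lit 0, nat_lit 0, nat_lit 0, [], [nat_lit 77, nat_lit 40, nat_lit 20, nat_lit 80, nat_lit 17, nat_lit 345, nat_lit 125, nat_lit 10]⟩,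
 zbF0, []⟩
noncomputable def p000_l13 : Lf2 := ⟨nat_lit 0, nat_lit 2, [nat_lit 10, nat_lit 5, nat_lit 5, nat_lit 20], false, nat_lit 0, nat_lit 0, nat_lit 0, nat_lit 0, ⟨nat_lit 1000, nat_lit 0, nat_lit 0, nat_lit 0, nat_lit 0, nat_lit 0, nat_lit 0, nat_lit 0, nat_lit 0, nat_lit 0, nat_lit 0, nat_lit 0, nat_lit 0, nat_lit 0, nat_lit 0, nat_lit 0, false, false⟩,
 nat_lit 0, nat_lit 0, nat_lit 0, nat_lit 29501, nat_lit 8789, nat_lit 8789, nat_lit 2476, nat_lit 0, nat_lit 0, nat_lit 3715, nat_lit 0, nat_lit 0, nat_lit 0, nat_lit 18261911649890, nat_lit 0, nat_lit 0, nat_lit 0, nat_lit 0, [],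
 ⟨p000_k6, nat_lit 0, nat_lit 0, nat_lit 230, nat_lit 0, nat_lit 0, [nat_lit 7968000001, nat_lit 9842000000], [], [nat_lit 28295570854, nat_lit 28511570129, nat_lit 39437538249, nat_lit 39424990157], nat_lit 0, nat_lit 0, nat_lit 0, nat_lit 0, nat_lit 0, nat_lit 0, [], [nat_lit 77, nat_lit 40, nat_lit 20, nat_lit 80, nat_lit 17, nat_lit 373, nat_lit 150, nat_lit 11]⟩, ⟨p000_k7, nat_lit 0, nat_lit 0, nat_lit 232, nat_lit 0, nat_lit 0, [nat_lit 7968000000, nat_lit 9842000000], [], [nat_lit 28078740328, nat_lit 28510738878, nat_lit 39449255090, nat_lit 39424528500], nat_lit 0, nat_lit 0, nat_lit 0, nat_lit 0, nat_lit 0, nat_lit 0, [], [nat_lit 77, nat_lit 40, nat_lit 20, nat_lit 80, nat_lit 17, nat_lit 373, nat_lit 150, nat_lit 11]⟩,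
 zbF0, []⟩
noncomputable def b_NL_450_450_0_0 : St := ⟨false, nat_lit 0, nat_lit 0, nat_lit 1, nat_lit 20, nat_lit 180, nat_lit 200, nat_lit 180, nat_lit 200, nat_lit 0, nat_lit 400, nat_lit 0, nat_lit 0, nat_lit 0, nat_lit 0, nat_lit 0, nat_lit 0, nat_lit 0, nat_lit 8, nat_lit 0, nat_lit 0, nat_lit 0, nat_lit 0⟩
theorem d_NL_450_450_0_0 (h : EB TB.env) : Dead b_NL_450_450_0_0 := chkB_sound0 h (T :=
(.spl (nat_lit 0) (nat_lit 190)
(.ord (.leaf p000_l0))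
(.spl (nat_lit 2) (nat_lit 240)
(.spl (nat_lit 1) (nat_lit 190)
(.spl (nat_lit 6) (nat_lit 4)
(.spl (nat_lit 2) (nat_lit 160)
(.spl (nat_lit 2) (nat_lit 80)
(.spl (nat_lit 7) (nat_lit 600)
(.spl (nat_lit 8) (nat_lit 800)
(.leaf p000_l1)
(.leaf p000_l2))
(.leaf p000_l3))
(.leaf p000_l4))
(.leaf p000_l5))
(.leaf p000_l6))
(.spl (nat_lit 2) (nat_lit 160)
(.spl (nat_lit 2) (nat_lit 80)
(.spl (nat_lit 7) (nat_lit 600)
(.spl (nat_lit 8) (nat_lit 800)
(.spl (nat_lit 1) (nat_lit 195)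
(.leaf p000_l7)
(.ord (.leaf p000_l8)))
(.leaf p000_l9))
(.leaf p000_l10))
(.leaf p000_l11))
(.leaf p000_l12)))
(.leaf p000_l13)))) (by decide +kernel)
noncomputable def p000_l14 : Lf2 := ⟨nat_lit 1, nat_lit 1, [nat_lit 19, nat_lit 5, nat_lit 5, nat_lit 20], false, nat_lit 0, nat_lit 0, nat_lit 0, nat_lit 0, zbN0,
 nat_lit 0, nat_lit 0, nat_lit 0, nat_lit 0, nat_lit 0, nat_lit 0, nat_lit 0, nat_lit 0, nat_lit 0, nat_lit 0, nat_lit 0, nat_lit 0, nat_lit 0, nat_lit 0, nat_lit 0, nat_lit 0, nat_lit 0, nat_lit 0, [],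
 C1.Rw.none, C1.Rw.none,
 zbF0, []⟩
noncomputable def p000_l15 : Lf2 := ⟨nat_lit 1, nat_lit 1, [nat_lit 19, nat_lit 5, nat_lit 5, nat_lit 20], false, nat_lit 0, nat_lit 0, nat_lit 0, nat_lit 0, zbN0,
 nat_lit 0, nat_lit 0, nat_lit 0, nat_lit 0, nat_lit 0, nat_lit 0, nat_lit 0, nat_lit 0, nat_lit 0, nat_lit 0, nat_lit 0, nat_lit 0, nat_lit 0, nat_lit 0, nat_lit 0, nat_lit 0, nat_lit 0, nat_lit 0, [],
 C1.Rw.none, C1.Rw.none,
 zbF0, []⟩
noncomputable def p000_l16 : Lf2 := ⟨nat_lit 0, nat_lit 1, [nat_lit 19, nat_lit 5, nat_lit 5, nat_lit 20], false, nat_lit 0, nat_lit 0, nat_lit 0, nat_lit 0, ⟨nat_lit 1000, nat_lit 0, nat_lit 0, nat_lit 0, nat_lit 0, nat_lit 0, nat_lit 0, nat_lit 0, nat_lit 0, nat_lit 0, nat_lit 0, nat_lit 0, nat_lit 0, nat_lit 0, nat_lit 0, nat_lit 0, false, false⟩,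
 nat_lit 0, nat_lit 0, nat_lit 20684, nat_lit 120956, nat_lit 5277, nat_lit 8261, nat_lit 13267, nat_lit 0, nat_lit 0, nat_lit 20263, nat_lit 0, nat_lit 0, nat_lit 0, nat_lit 0, nat_lit 0, nat_lit 0, nat_lit 0, nat_lit 0, [],
 ⟨p000_k8, nat_lit 0, nat_lit 0, nat_lit 0, nat_lit 0, nat_lit 0, [nat_lit 3282000000, nat_lit 7089500001, nat_lit 8885500000], [], [nat_lit 18049574031, nat_lit 18292351781, nat_lit 15895219609, nat_lit 16167987951], nat_lit 0, nat_lit 0, nat_lit 0, nat_lit 0, nat_lit 0, nat_lit 0, [], [nat_lit 115, nat_lit 40, nat_lit 20, nat_lit 40]⟩, ⟨p000_k9, nat_lit 0, nat_lit 0, nat_lit 0, nat_lit 0, nat_lit 3749, [nat_lit 3282000000, nat_lit 7089500000, nat_lit 8885500000], [], [nat_lit 19079461285, nat_lit 18602756975, nat_lit 18174038724, nat_lit 17705084884], nat_lit 1271250, nat_lit 1271250, nat_lit 0, nat_lit 230001, nat_lit 0, nat_lit 0, [nat_lit 780000, nat_lit 1598750,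 nat_lit 1271250], [nat_lit 115, nat_lit 40, nat_lit 20, nat_lit 40]⟩,
 zbF0, []⟩
noncomputable def p000_l17 : Lf2 := ⟨nat_lit 0, nat_lit 1, [nat_lit 19, nat_lit 5, nat_lit 5, nat_lit 20], false, nat_lit 0, nat_lit 0, nat_lit 0, nat_lit 0, ⟨nat_lit 1000, nat_lit 0, nat_lit 0, nat_lit 0, nat_lit 0, nat_lit 0, nat_lit 0, nat_lit 0, nat_lit 0, nat_lit 0, nat_lit 0, nat_lit 0, nat_lit 0, nat_lit 0, nat_lit 0, nat_lit 0, false, false⟩,
 nat_lit 0, nat_lit 0, nat_lit 0, nat_lit 38110, nat_lit 5270, nat_lit 0, nat_lit 8802, nat_lit 0, nat_lit 0, nat_lit 0, nat_lit 0, nat_lit 585, nat_lit 0, nat_lit 0, nat_lit 0, nat_lit 0, nat_lit 0, nat_lit 0, [],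
 ⟨p000_k10, nat_lit 0, nat_lit 0, nat_lit 0, nat_lit 0, nat_lit 0, [nat_lit 3282000000, nat_lit 7089500001, nat_lit 8885500000], [], [nat_lit 18327036580, nat_lit 18570231521, nat_lit 16909697991, nat_lit 17183089401], nat_lit 0, nat_lit 0, nat_lit 0, nat_lit 0, nat_lit 0, nat_lit 0, [], [nat_lit 115, nat_lit 40, nat_lit 20, nat_lit 40]⟩, ⟨p000_k11, nat_lit 0, nat_lit 0, nat_lit 0, nat_lit 0, nat_lit 24839, [nat_lit 3282000000, nat_lit 7089500000, nat_lit 8885500000], [], [nat_lit 3779512000, nat_lit 4099972000, nat_lit 4224516000, nat_lit 4322822000], nat_lit 1271250, nat_lit 1271250, nat_lit 0, nat_lit 111251, nat_lit 0, nat_lit 0, [nat_lit 780000, nat_lit 1598750, nat_lit 1271250], [nat_lit 115, nat_lit 40, nat_lit 20, nat_lit 40]⟩,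
 zbF0, []⟩
noncomputable def p000_l18 : Lf2 := ⟨nat_lit 0, nat_lit 1, [nat_lit 19, nat_lit 5, nat_lit 5, nat_lit 20], false, nat_lit 0, nat_lit 0, nat_lit 0, nat_lit 0, ⟨nat_lit 1000, nat_lit 0, nat_lit 0, nat_lit 0, nat_lit 0, nat_lit 0, nat_lit 0, nat_lit 0, nat_lit 0, nat_lit 0, nat_lit 0, nat_lit 0, nat_lit 0, nat_lit 0, nat_lit 0, nat_lit 0, false, false⟩,
 nat_lit 0, nat_lit 0, nat_lit 176, nat_lit 27613, nat_lit 0, nat_lit 66, nat_lit 0, nat_lit 0, nat_lit 584, nat_lit 0, nat_lit 0, nat_lit 561, nat_lit 0, nat_lit 0, nat_lit 0, nat_lit 0, nat_lit 0, nat_lit 0, [],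
 ⟨p000_k10, nat_lit 0, nat_lit 0, nat_lit 0, nat_lit 0, nat_lit 0, [nat_lit 3282000000, nat_lit 7089500001, nat_lit 8885500000], [], [nat_lit 4293988001, nat_lit 4466004001, nat_lit 4516375001, nat_lit 4687928001], nat_lit 0, nat_lit 0, nat_lit 0, nat_lit 0, nat_lit 0, nat_lit 0, [], [nat_lit 115, nat_lit 40, nat_lit 20, nat_lit 40]⟩, ⟨p000_k11, nat_lit 0, nat_lit 0, nat_lit 0, nat_lit 0, nat_lit 24839, [nat_lit 3282000000, nat_lit 7089500000, nat_lit 8885500000], [], [nat_lit 5467515816, nat_lit 5797384548, nat_lit 5901006952, nat_lit 5987429570], nat_lit 1271250, nat_lit 1271250, nat_lit 0, nat_lit 111251, nat_lit 0, nat_lit 0, [nat_lit 780000, nat_lit 1598750, nat_lit 1271250], [nat_lit 115, nat_lit 40, nat_lit 20, nat_lit 40]⟩,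
 zbF0, []⟩
noncomputable def p000_l19 : Lf2 := ⟨nat_lit 0, nat_lit 1, [nat_lit 19, nat_lit 5, nat_lit 5, nat_lit 20], false, nat_lit 0, nat_lit 0, nat_lit 0, nat_lit 0, ⟨nat_lit 1000, nat_lit 0, nat_lit 0, nat_lit 0, nat_lit 0, nat_lit 0, nat_lit 0, nat_lit 0, nat_lit 0, nat_lit 0, nat_lit 0, nat_lit 0, nat_lit 0, nat_lit 0, nat_lit 0, nat_lit 0, false, false⟩,
 nat_lit 0, nat_lit 0, nat_lit 0, nat_lit 38110, nat_lit 5270, nat_lit 0, nat_lit 8802, nat_lit 0, nat_lit 0, nat_lit 0, nat_lit 0, nat_lit 470, nat_lit 0, nat_lit 0, nat_lit 0, nat_lit 0, nat_lit 0, nat_lit 0, [],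
 ⟨p000_k10, nat_lit 0, nat_lit 0, nat_lit 0, nat_lit 0, nat_lit 0, [nat_lit 3282000000, nat_lit 7089500001, nat_lit 8885500000], [], [nat_lit 18327036580, nat_lit 18570231521, nat_lit 16909697991, nat_lit 17183089401], nat_lit 0, nat_lit 0, nat_lit 0, nat_lit 0, nat_lit 0, nat_lit 0, [], [nat_lit 115, nat_lit 40, nat_lit 20, nat_lit 40]⟩, ⟨p000_k11, nat_lit 0, nat_lit 0, nat_lit 0, nat_lit 0, nat_lit 24839, [nat_lit 3282000000, nat_lit 7089500000, nat_lit 8885500000], [], [nat_lit 7808664000, nat_lit 8125205000, nat_lit 8059912000, nat_lit 8372644000], nat_lit 1271250, nat_lit 1271250, nat_lit 0, nat_lit 111251, nat_lit 0, nat_lit 0, [nat_lit 780000, nat_lit 1598750, nat_lit 1271250], [nat_lit 115, nat_lit 40, nat_lit 20, nat_lit 40]⟩,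
 zbF0, []⟩
noncomputable def p000_l20 : Lf2 := ⟨nat_lit 0, nat_lit 1, [nat_lit 19, nat_lit 5, nat_lit 5, nat_lit 20], false, nat_lit 0, nat_lit 0, nat_lit 0, nat_lit 0, ⟨nat_lit 1000, nat_lit 0, nat_lit 0, nat_lit 0, nat_lit 0, nat_lit 0, nat_lit 0, nat_lit 0, nat_lit 0, nat_lit 0, nat_lit 0, nat_lit 0, nat_lit 0, nat_lit 0, nat_lit 0, nat_lit 0, false, false⟩,
 nat_lit 0, nat_lit 0, nat_lit 159182, nat_lit 109925, nat_lit 5154, nat_lit 60534, nat_lit 3868, nat_lit 0, nat_lit 0, nat_lit 60000, nat_lit 5079, nat_lit 0, nat_lit 0, nat_lit 0, nat_lit 0, nat_lit 0, nat_lit 0, nat_lit 0, [],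
 ⟨p000_k12, nat_lit 0, nat_lit 0, nat_lit 0, nat_lit 0, nat_lit 0, [nat_lit 3282000000, nat_lit 5449500000, nat_lit 7968000001, nat_lit 9842000000], [], [nat_lit 20857419295, nat_lit 21077359913, nat_lit 20553494116, nat_lit 20806605765], nat_lit 0, nat_lit 0, nat_lit 0, nat_lit 0, nat_lit 0, nat_lit 0, [], [nat_lit 52, nat_lit 40, nat_lit 20, nat_lit 80]⟩, ⟨p000_k13, nat_lit 0, nat_lit 0, nat_lit 0, nat_lit 0, nat_lit 24839, [nat_lit 64230000000, nat_lit 96871500000, nat_lit 129864000000, nat_lit 152054000000], [], [nat_lit 161467010172, nat_lit 163203077974, nat_lit 156971368128, nat_lit 159462100498], nat_lit 1271250, nat_lit 1271250, nat_lit 0, nat_lit 21650, nat_lit 0, nat_lit 0, [nat_lit 780000, nat_lit 1271250, nat_lit 1271250, nat_lit 1271250], [nat_lit 52, nat_lit 40, nat_lit 20, nat_lit 80]⟩,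
 zbF0, []⟩
noncomputable def p000_l21 : Lf2 := ⟨nat_lit 0, nat_lit 1, [nat_lit 19, nat_lit 5, nat_lit 5, nat_lit 20], false, nat_lit 0, nat_lit 0, nat_lit 0, nat_lit 0, ⟨nat_lit 1000, nat_lit 0, nat_lit 0, nat_lit 0, nat_lit 0, nat_lit 0, nat_lit 0, nat_lit 0, nat_lit 0, nat_lit 0, nat_lit 0, nat_lit 0, nat_lit 0, nat_lit 0, nat_lit 0, nat_lit 0, false, false⟩,
 nat_lit 0, nat_lit 0, nat_lit 165755, nat_lit 103352, nat_lit 5154, nat_lit 63033, nat_lit 3868, nat_lit 0, nat_lit 0, nat_lit 60000, nat_lit 5558, nat_lit 0, nat_lit 0, nat_lit 0, nat_lit 0, nat_lit 0, nat_lit 0, nat_lit 0, [],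
 ⟨p000_k12, nat_lit 0, nat_lit 0, nat_lit 0, nat_lit 0, nat_lit 0, [nat_lit 3282000000, nat_lit 5449500000, nat_lit 7968000001, nat_lit 9842000000], [], [nat_lit 20857419295, nat_lit 21077359913, nat_lit 20553494116, nat_lit 20806605765], nat_lit 0, nat_lit 0, nat_lit 0, nat_lit 0, nat_lit 0, nat_lit 0, [], [nat_lit 52, nat_lit 40, nat_lit 20, nat_lit 80]⟩, ⟨p000_k13, nat_lit 0, nat_lit 0, nat_lit 0, nat_lit 0, nat_lit 24839, [nat_lit 69978000000, nat_lit 105493500000, nat_lit 141360000000, nat_lit 165466000000], [], [nat_lit 176832873314, nat_lit 178626482509, nat_lit 172849831088, nat_lit 174734955272], nat_lit 1271250, nat_lit 1271250, nat_lit 0, nat_lit 21650, nat_lit 0, nat_lit 0, [nat_lit 780000, nat_lit 1271250, nat_lit 1271250, nat_lit 1271250], [nat_lit 52, nat_lit 40, nat_lit 20, nat_lit 80]⟩,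
 zbF0, []⟩
noncomputable def p000_l22 : Lf2 := ⟨nat_lit 0, nat_lit 1, [nat_lit 19, nat_lit 5, nat_lit 5, nat_lit 20], false, nat_lit 0, nat_lit 0, nat_lit 0, nat_lit 0, ⟨nat_lit 1000, nat_lit 0, nat_lit 0, nat_lit 0, nat_lit 0, nat_lit 0, nat_lit 0, nat_lit 0, nat_lit 0, nat_lit 0, nat_lit 0, nat_lit 0, nat_lit 0, nat_lit 0, nat_lit 0, nat_lit 0, false, false⟩,
 nat_lit 0, nat_lit 0, nat_lit 160021, nat_lit 109165, nat_lit 5221, nat_lit 60853, nat_lit 3887, nat_lit 0, nat_lit 0, nat_lit 60000, nat_lit 5043, nat_lit 0, nat_lit 0, nat_lit 0, nat_lit 0, nat_lit 0, nat_lit 0, nat_lit 0, [],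
 ⟨p000_k12, nat_lit 0, nat_lit 0, nat_lit 0, nat_lit 0, nat_lit 0, [nat_lit 3282000000, nat_lit 5449500000, nat_lit 7968000001, nat_lit 9842000000], [], [nat_lit 20534263894, nat_lit 20756158838, nat_lit 20226588762, nat_lit 20481226087], nat_lit 0, nat_lit 0, nat_lit 0, nat_lit 0, nat_lit 0, nat_lit 0, [], [nat_lit 52, nat_lit 40, nat_lit 20, nat_lit 80]⟩, ⟨p000_k13, nat_lit 0, nat_lit 0, nat_lit 0, nat_lit 0, nat_lit 24839, [nat_lit 63798000000, nat_lit 96223500000, nat_lit 129000000000, nat_lit 151046000000], [], [nat_lit 156149856780, nat_lit 157914481720, nat_lit 151646511699, nat_lit 154159306070], nat_lit 1271250, nat_lit 1271250, nat_lit 21650, nat_lit 43600, nat_lit 0, nat_lit 0, [nat_lit 780000, nat_lit 1271250, nat_lit 1271250, nat_lit 1271250], [nat_lit 52, nat_lit 40, nat_lit 20, nat_lit 80]⟩,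
 zbF0, []⟩
noncomputable def p000_l23 : Lf2 := ⟨nat_lit 0, nat_lit 1, [nat_lit 19, nat_lit 5, nat_lit 5, nat_lit 20], false, nat_lit 0, nat_lit 0, nat_lit 0, nat_lit 0, ⟨nat_lit 1000, nat_lit 0, nat_lit 0, nat_lit 0, nat_lit 0, nat_lit 0, nat_lit 0, nat_lit 0, nat_lit 0, nat_lit 0, nat_lit 0, nat_lit 0, nat_lit 0, nat_lit 0, nat_lit 0, nat_lit 0, false, false⟩,
 nat_lit 0, nat_lit 0, nat_lit 165755, nat_lit 103352, nat_lit 5154, nat_lit 63033, nat_lit 3868, nat_lit 0, nat_lit 0, nat_lit 60000, nat_lit 5558, nat_lit 0, nat_lit 0, nat_lit 0, nat_lit 0, nat_lit 0, nat_lit 0, nat_lit 0, [],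
 ⟨p000_k12, nat_lit 0, nat_lit 0, nat_lit 0, nat_lit 0, nat_lit 0, [nat_lit 3282000000, nat_lit 5449500000, nat_lit 7968000001, nat_lit 9842000000], [], [nat_lit 20857419295, nat_lit 21077359913, nat_lit 20282420753, nat_lit 20535851616], nat_lit 0, nat_lit 0, nat_lit 0, nat_lit 0, nat_lit 0, nat_lit 0, [], [nat_lit 52, nat_lit 40, nat_lit 20, nat_lit 80]⟩, ⟨p000_k13, nat_lit 0, nat_lit 0, nat_lit 0, nat_lit 0, nat_lit 24839, [nat_lit 69978000000, nat_lit 105493500000, nat_lit 141360000000, nat_lit 165466000000], [], [nat_lit 176832873314, nat_lit 178626482509, nat_lit 168929079495, nat_lit 170843428034], nat_lit 1271250, nat_lit 1271250, nat_lit 0, nat_lit 43600, nat_lit 0, nat_lit 0, [nat_lit 780000, nat_lit 1271250, nat_lit 1271250, nat_lit 1271250], [nat_lit 52, nat_lit 40, nat_lit 20, nat_lit 80]⟩,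
 zbF0, []⟩
noncomputable def p000_l24 : Lf2 := ⟨nat_lit 0, nat_lit 1, [nat_lit 19, nat_lit 5, nat_lit 5, nat_lit 20], false, nat_lit 0, nat_lit 0, nat_lit 0, nat_lit 0, ⟨nat_lit 1000, nat_lit 0, nat_lit 0, nat_lit 0, nat_lit 0, nat_lit 0, nat_lit 0, nat_lit 0, nat_lit 0, nat_lit 0, nat_lit 0, nat_lit 0, nat_lit 0, nat_lit 0, nat_lit 0, nat_lit 0, false, false⟩,
 nat_lit 0, nat_lit 0, nat_lit 160869, nat_lit 108398, nat_lit 5290, nat_lit 61175, nat_lit 3906, nat_lit 0, nat_lit 0, nat_lit 60000, nat_lit 5005, nat_lit 0, nat_lit 0, nat_lit 0, nat_lit 0, nat_lit 0, nat_lit 0, nat_lit 0, [],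
 ⟨p000_k12, nat_lit 0, nat_lit 0, nat_lit 0, nat_lit 0, nat_lit 0, [nat_lit 3282000000, nat_lit 5449500000, nat_lit 7968000001, nat_lit 9842000000], [], [nat_lit 20202376263, nat_lit 20425347972, nat_lit 19330387641, nat_lit 19587261681], nat_lit 0, nat_lit 0, nat_lit 0, nat_lit 0, nat_lit 0, nat_lit 0, [], [nat_lit 52, nat_lit 40, nat_lit 20, nat_lit 80]⟩, ⟨p000_k13, nat_lit 0, nat_lit 0, nat_lit 0, nat_lit 0, nat_lit 24839, [nat_lit 63342000000, nat_lit 95539500000, nat_lit 128088000000, nat_lit 149982000000], [], [nat_lit 150730359470, nat_lit 152520360936, nat_lit 138634777400, nat_lit 141191234000], nat_lit 1271250, nat_lit 1271250, nat_lit 43600, nat_lit 111251, nat_lit 0, nat_lit 0, [nat_lit 780000, nat_lit 1271250, nat_lit 1271250, nat_lit 1271250], [nat_lit 52, nat_lit 40, nat_lit 20, nat_lit 80]⟩,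
 zbF0, []⟩
noncomputable def p000_l25 : Lf2 := ⟨nat_lit 0, nat_lit 1, [nat_lit 19, nat_lit 5, nat_lit 5, nat_lit 20], false, nat_lit 0, nat_lit 0, nat_lit 0, nat_lit 0, ⟨nat_lit 1000, nat_lit 0, nat_lit 0, nat_lit 0, nat_lit 0, nat_lit 0, nat_lit 0, nat_lit 0, nat_lit 0, nat_lit 0, nat_lit 0, nat_lit 0, nat_lit 0, nat_lit 0, nat_lit 0, nat_lit 0, false, false⟩,
 nat_lit 0, nat_lit 0, nat_lit 3152, nat_lit 249729, nat_lit 49198, nat_lit 1198, nat_lit 60000, nat_lit 4128, nat_lit 0, nat_lit 0, nat_lit 0, nat_lit 509, nat_lit 0, nat_lit 0, nat_lit 0, nat_lit 0, nat_lit 0, nat_lit 0, [],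
 ⟨p000_k10, nat_lit 0, nat_lit 0, nat_lit 0, nat_lit 0, nat_lit 0, [nat_lit 52818000001, nat_lit 97905500001, nat_lit 116213500000], [], [nat_lit 120837802742, nat_lit 121732424497, nat_lit 105688835848, nat_lit 106632201562], nat_lit 0, nat_lit 0, nat_lit 0, nat_lit 0, nat_lit 0, nat_lit 0, [], [nat_lit 115, nat_lit 40, nat_lit 20, nat_lit 40]⟩, ⟨p000_k11, nat_lit 0, nat_lit 0, nat_lit 0, nat_lit 0, nat_lit 24839, [nat_lit 3282000000, nat_lit 7089500000, nat_lit 8885500000], [], [nat_lit 8115994196, nat_lit 7804221644, nat_lit 8463167120, nat_lit 8148855048], nat_lit 1271250, nat_lit 1271250, nat_lit 0, nat_lit 111251, nat_lit 0, nat_lit 0, [nat_lit 780000, nat_lit 1598750, nat_lit 1271250], [nat_lit 115, nat_lit 40, nat_lit 20, nat_lit 40]⟩,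
 zbF0, []⟩
noncomputable def p000_l26 : Lf2 := ⟨nat_lit 0, nat_lit 1, [nat_lit 19, nat_lit 5, nat_lit 5, nat_lit 20], false, nat_lit 0, nat_lit 0, nat_lit 0, nat_lit 0, ⟨nat_lit 1000, nat_lit 0, nat_lit 0, nat_lit 0, nat_lit 0, nat_lit 0, nat_lit 0, nat_lit 0, nat_lit 0, nat_lit 0, nat_lit 0, nat_lit 0, nat_lit 0, nat_lit 0, nat_lit 0, nat_lit 0, false, false⟩,
 nat_lit 0, nat_lit 0, nat_lit 11981, nat_lit 44196, nat_lit 12246, nat_lit 4556, nat_lit 13109, nat_lit 0, nat_lit 0, nat_lit 0, nat_lit 0, nat_lit 475, nat_lit 0, nat_lit 0, nat_lit 0, nat_lit 0, nat_lit 0, nat_lit 0, [],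
 ⟨p000_k10, nat_lit 0, nat_lit 0, nat_lit 0, nat_lit 0, nat_lit 0, [nat_lit 3282000000, nat_lit 7089500001, nat_lit 8885500000], [], [nat_lit 15477744990, nat_lit 15832509401, nat_lit 12634889746, nat_lit 13037558793], nat_lit 0, nat_lit 0, nat_lit 0, nat_lit 0, nat_lit 0, nat_lit 0, [], [nat_lit 115, nat_lit 40, nat_lit 20, nat_lit 40]⟩, ⟨p000_k11, nat_lit 0, nat_lit 0, nat_lit 0, nat_lit 0, nat_lit 24839, [nat_lit 3282000000, nat_lit 7089500000, nat_lit 8885500000], [], [nat_lit 10328348640, nat_lit 9133018256, nat_lit 10585344040, nat_lit 9399011756], nat_lit 1271250, nat_lit 1271250, nat_lit 111251, nat_lit 230001, nat_lit 0, nat_lit 0, [nat_lit 780000, nat_lit 1598750, nat_lit 1271250], [nat_lit 115, nat_lit 40, nat_lit 20, nat_lit 40]⟩,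
 zbF0, []⟩
noncomputable def b_NL_450_450_0_1 : St := ⟨false, nat_lit 0, nat_lit 1, nat_lit 1, nat_lit 20, nat_lit 190, nat_lit 200, nat_lit 180, nat_lit 190, nat_lit 0, nat_lit 40, nat_lit 0, nat_lit 0, nat_lit 0, nat_lit 0, nat_lit 0, nat_lit 0, nat_lit 0, nat_lit 4, nat_lit 0, nat_lit 600, nat_lit 0, nat_lit 400⟩
theorem d_NL_450_450_0_1 (h : EB TB.env) : Dead b_NL_450_450_0_1 := chkB_sound0 h (T :=
(.spl (nat_lit 0) (nat_lit 195)
(.spl (nat_lit 1) (nat_lit 185)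
(.leaf p000_l14)
(.spl (nat_lit 1) (nat_lit 188)
(.leaf p000_l15)
(.leaf p000_l16)))
(.spl (nat_lit 2) (nat_lit 20)
(.spl (nat_lit 8) (nat_lit 200)
(.leaf p000_l17)
(.spl (nat_lit 7) (nat_lit 300)
(.spl (nat_lit 7) (nat_lit 160)
(.leaf p000_l18)
(.spl (nat_lit 8) (nat_lit 300)
(.leaf p000_l19)
(.spl (nat_lit 2) (nat_lit 8)
(.spl (nat_lit 8) (nat_lit 360)
(.spl (nat_lit 2) (nat_lit 4)
(.spl (nat_lit 8) (nat_lit 340)
(.leaf p000_l20)
(.leaf p000_l21))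
(.leaf p000_l22))
(.leaf p000_l23))
(.leaf p000_l24))))
(.leaf p000_l25)))
(.leaf p000_l26)))) (by decide +kernel)
noncomputable def p000_l27 : Lf2 := ⟨nat_lit 0, nat_lit 1, [nat_lit 19, nat_lit 5, nat_lit 5, nat_lit 20], false, nat_lit 0, nat_lit 0, nat_lit 0, nat_lit 0, ⟨nat_lit 1000, nat_lit 0, nat_lit 0, nat_lit 0, nat_lit 0, nat_lit 0, nat_lit 0, nat_lit 0, nat_lit 0, nat_lit 0, nat_lit 0, nat_lit 0, nat_lit 0, nat_lit 0, nat_lit 0, nat_lit 0, false, false⟩,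
 nat_lit 0, nat_lit 0, nat_lit 300000, nat_lit 0, nat_lit 3727, nat_lit 114084, nat_lit 11343, nat_lit 0, nat_lit 0, nat_lit 60000, nat_lit 20000, nat_lit 0, nat_lit 0, nat_lit 0, nat_lit 0, nat_lit 0, nat_lit 0, nat_lit 0, [],
 ⟨p000_k14, nat_lit 0, nat_lit 0, nat_lit 0, nat_lit 0, nat_lit 0, [nat_lit 3282000000, nat_lit 5449500000, nat_lit 7968000001, nat_lit 9842000000], [], [nat_lit 9201993790, nat_lit 9729966120, nat_lit 7895287105, nat_lit 8477697340], nat_lit 0, nat_lit 0, nat_lit 0, nat_lit 0, nat_lit 0, nat_lit 0, [], [nat_lit 52, nat_lit 40, nat_lit 20, nat_lit 80]⟩, ⟨p000_k13, nat_lit 0, nat_lit 0, nat_lit 0, nat_lit 0, nat_lit 7592, [nat_lit 243282000000, nat_lit 365449500000, nat_lit 487968000000, nat_lit 569842000000], [], [nat_lit 735763874640, nat_lit 737319142584, nat_lit 700083748368, nat_lit 701693816636], nat_lit 1271250, nat_lit 1271250, nat_lit 0, nat_lit 111251, nat_lit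 0, nat_lit 0, [nat_lit 780000, nat_lit 1271250, nat_lit 1271250, nat_lit 1271250], [nat_lit 52, nat_lit 40, nat_lit 20, nat_lit 80]⟩,
 zbF0, []⟩
noncomputable def p000_l28 : Lf2 := ⟨nat_lit 0, nat_lit 1, [nat_lit 19, nat_lit 5, nat_lit 5, nat_lit 20], false, nat_lit 0, nat_lit 0, nat_lit 0, nat_lit 0, ⟨nat_lit 1000, nat_lit 0, nat_lit 0, nat_lit 0, nat_lit 0, nat_lit 0, nat_lit 0, nat_lit 0, nat_lit 0, nat_lit 0, nat_lit 0, nat_lit 0, nat_lit 0, nat_lit 0, nat_lit 0, nat_lit 0, false, false⟩,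
 nat_lit 0, nat_lit 0, nat_lit 300000, nat_lit 0, nat_lit 3727, nat_lit 117667, nat_lit 11233, nat_lit 0, nat_lit 0, nat_lit 60000, nat_lit 20000, nat_lit 0, nat_lit 0, nat_lit 0, nat_lit 0, nat_lit 0, nat_lit 0, nat_lit 0, [],
 ⟨p000_k14, nat_lit 0, nat_lit 0, nat_lit 0, nat_lit 0, nat_lit 0, [nat_lit 3282000000, nat_lit 5449500000, nat_lit 7968000001, nat_lit 9842000000], [], [nat_lit 9201993790, nat_lit 9729966120, nat_lit 7895287105, nat_lit 8477697340], nat_lit 0, nat_lit 0, nat_lit 0, nat_lit 0, nat_lit 0, nat_lit 0, [], [nat_lit 52, nat_lit 40, nat_lit 20, nat_lit 80]⟩, ⟨p000_k15, nat_lit 0, nat_lit 0, nat_lit 0, nat_lit 0, nat_lit 24068, [nat_lit 243282000000, nat_lit 365449500000, nat_lit 487968000000, nat_lit 569842000000], [], [nat_lit 723676659917, nat_lit 725275966514, nat_lit 686924759943, nat_lit 688580608202], nat_lit 1271250, nat_lit 1271250, nat_lit 0, nat_lit 111251, nat_lit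 0, nat_lit 0, [nat_lit 780000, nat_lit 1271250, nat_lit 1271250, nat_lit 1271250], [nat_lit 52, nat_lit 40, nat_lit 20, nat_lit 80]⟩,
 zbF0, []⟩
noncomputable def p000_l29 : Lf2 := ⟨nat_lit 0, nat_lit 1, [nat_lit 19, nat_lit 5, nat_lit 5, nat_lit 20], false, nat_lit 0, nat_lit 0, nat_lit 0, nat_lit 0, ⟨nat_lit 1000, nat_lit 0, nat_lit 0, nat_lit 0, nat_lit 0, nat_lit 0, nat_lit 0, nat_lit 0, nat_lit 0, nat_lit 0, nat_lit 0, nat_lit 0, nat_lit 0, nat_lit 0, nat_lit 0, nat_lit 0, false, false⟩,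
 nat_lit 0, nat_lit 0, nat_lit 300000, nat_lit 0, nat_lit 5160, nat_lit 114084, nat_lit 11334, nat_lit 0, nat_lit 0, nat_lit 60000, nat_lit 20000, nat_lit 0, nat_lit 0, nat_lit 0, nat_lit 0, nat_lit 0, nat_lit 0, nat_lit 0, [],
 ⟨p000_k14, nat_lit 0, nat_lit 0, nat_lit 0, nat_lit 0, nat_lit 0, [nat_lit 3282000000, nat_lit 5449500000, nat_lit 7968000001, nat_lit 9842000000], [], [nat_lit 20567417681, nat_lit 20820317081, nat_lit 20023881969, nat_lit 20277420873], nat_lit 0, nat_lit 0, nat_lit 0, nat_lit 0, nat_lit 0, nat_lit 0, [], [nat_lit 52, nat_lit 40, nat_lit 20, nat_lit 80]⟩, ⟨p000_k13, nat_lit 0, nat_lit 0, nat_lit 0, nat_lit 0, nat_lit 3963, [nat_lit 243282000000, nat_lit 365449500000, nat_lit 487968000000, nat_lit 569842000000], [], [nat_lit 735763874640, nat_lit 738874410528, nat_lit 721491824132, nat_lit 724646200279], nat_lit 1271250, nat_lit 1271250, nat_lit 0, nat_lit 43600,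 nat_lit 0, nat_lit 0, [nat_lit 780000, nat_lit 1271250, nat_lit 1271250, nat_lit 1271250], [nat_lit 52, nat_lit 40, nat_lit 20, nat_lit 80]⟩,
 zbF0, []⟩
noncomputable def p000_l30 : Lf2 := ⟨nat_lit 0, nat_lit 1, [nat_lit 19, nat_lit 5, nat_lit 5, nat_lit 20], false, nat_lit 0, nat_lit 0, nat_lit 0, nat_lit 0, ⟨nat_lit 1000, nat_lit 0, nat_lit 0, nat_lit 0, nat_lit 0, nat_lit 0, nat_lit 0, nat_lit 0, nat_lit 0, nat_lit 0, nat_lit 0, nat_lit 0, nat_lit 0, nat_lit 0, nat_lit 0, nat_lit 0, false, false⟩,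
 nat_lit 0, nat_lit 0, nat_lit 300000, nat_lit 0, nat_lit 5154, nat_lit 114084, nat_lit 11233, nat_lit 0, nat_lit 0, nat_lit 60000, nat_lit 20000, nat_lit 0, nat_lit 0, nat_lit 0, nat_lit 0, nat_lit 0, nat_lit 0, nat_lit 0, [],
 ⟨p000_k12, nat_lit 0, nat_lit 0, nat_lit 0, nat_lit 0, nat_lit 0, [nat_lit 3282000000, nat_lit 5449500000, nat_lit 7968000001, nat_lit 9842000000], [], [nat_lit 20824567478, nat_lit 21077359913, nat_lit 20282420753, nat_lit 20535851616], nat_lit 0, nat_lit 0, nat_lit 0, nat_lit 0, nat_lit 0, nat_lit 0, [], [nat_lit 52, nat_lit 40, nat_lit 20, nat_lit 80]⟩, ⟨p000_k13, nat_lit 0, nat_lit 0, nat_lit 0, nat_lit 0, nat_lit 24839, [nat_lit 243282000000, nat_lit 365449500000, nat_lit 487968000000, nat_lit 569842000000], [], [nat_lit 735763874640, nat_lit 738874410528, nat_lit 721491824132, nat_lit 724646200279], nat_lit 1271250, nat_lit 1271250, nat_lit 0, nat_lit 43600,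 nat_lit 0, nat_lit 0, [nat_lit 780000, nat_lit 1271250, nat_lit 1271250, nat_lit 1271250], [nat_lit 52, nat_lit 40, nat_lit 20, nat_lit 80]⟩,
 zbF0, []⟩
noncomputable def p000_l31 : Lf2 := ⟨nat_lit 0, nat_lit 1, [nat_lit 19, nat_lit 5, nat_lit 5, nat_lit 20], false, nat_lit 0, nat_lit 0, nat_lit 0, nat_lit 0, ⟨nat_lit 1000, nat_lit 0, nat_lit 0, nat_lit 0, nat_lit 0, nat_lit 0, nat_lit 0, nat_lit 0, nat_lit 0, nat_lit 0, nat_lit 0, nat_lit 0, nat_lit 0, nat_lit 0, nat_lit 0, nat_lit 0, false, false⟩,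
 nat_lit 0, nat_lit 0, nat_lit 300000, nat_lit 300000, nat_lit 5154, nat_lit 114084, nat_lit 60000, nat_lit 0, nat_lit 0, nat_lit 60000, nat_lit 0, nat_lit 7303, nat_lit 0, nat_lit 0, nat_lit 0, nat_lit 0, nat_lit 0, nat_lit 400211579093, [],
 ⟨p000_k12, nat_lit 0, nat_lit 0, nat_lit 0, nat_lit 0, nat_lit 0, [nat_lit 3282000000, nat_lit 5449500000, nat_lit 7968000001, nat_lit 9842000000], [], [nat_lit 20824567478, nat_lit 21077359913, nat_lit 20282420753, nat_lit 20535851616], nat_lit 0, nat_lit 0, nat_lit 0, nat_lit 0, nat_lit 0, nat_lit 0, [], [nat_lit 52, nat_lit 40, nat_lit 20, nat_lit 80]⟩, ⟨p000_k13, nat_lit 0, nat_lit 0, nat_lit 0, nat_lit 0, nat_lit 24839, [nat_lit 3282000000, nat_lit 5449500000, nat_lit 7968000000, nat_lit 9842000000], [], [nat_lit 34454588909, nat_lit 4062040889, nat_lit 30299638010, nat_lit 0], nat_lit 1271250, nat_lit 1271250, nat_lit 0, nat_lit 43600, nat_lit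 0, nat_lit 0, [nat_lit 780000, nat_lit 1271250, nat_lit 1271250, nat_lit 1271250], [nat_lit 52, nat_lit 40, nat_lit 20, nat_lit 80]⟩,
 zbF0, []⟩
noncomputable def p000_l32 : Lf2 := ⟨nat_lit 3, nat_lit 1, [nat_lit 19, nat_lit 5, nat_lit 5, nat_lit 20], false, nat_lit 0, nat_lit 0, nat_lit 0, nat_lit 0, zbN0,
 nat_lit 0, nat_lit 0, nat_lit 0, nat_lit 0, nat_lit 0, nat_lit 0, nat_lit 0, nat_lit 0, nat_lit 0, nat_lit 0, nat_lit 0, nat_lit 0, nat_lit 0, nat_lit 0, nat_lit 0, nat_lit 0, nat_lit 0, nat_lit 0, [],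
 C1.Rw.none, ⟨p000_k13, nat_lit 0, nat_lit 0, nat_lit 0, nat_lit 0, nat_lit 3963, [], [], [], nat_lit 1271250, nat_lit 1271250, nat_lit 0, nat_lit 43600, nat_lit 0, nat_lit 0, [nat_lit 780000, nat_lit 1271250, nat_lit 1271250, nat_lit 1271250], [nat_lit 52, nat_lit 40, nat_lit 20, nat_lit 80]⟩,
 zbF0, []⟩
noncomputable def p000_l33 : Lf2 := ⟨nat_lit 3, nat_lit 1, [nat_lit 19, nat_lit 5, nat_lit 5, nat_lit 20], false, nat_lit 0, nat_lit 0, nat_lit 0, nat_lit 0, zbN0,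
 nat_lit 0, nat_lit 0, nat_lit 0, nat_lit 0, nat_lit 0, nat_lit 0, nat_lit 0, nat_lit 0, nat_lit 0, nat_lit 0, nat_lit 0, nat_lit 0, nat_lit 0, nat_lit 0, nat_lit 0, nat_lit 0, nat_lit 0, nat_lit 0, [],
 C1.Rw.none, ⟨p000_k13, nat_lit 0, nat_lit 0, nat_lit 0, nat_lit 0, nat_lit 7592, [], [], [], nat_lit 1271250, nat_lit 1271250, nat_lit 0, nat_lit 43600, nat_lit 0, nat_lit 0, [nat_lit 780000, nat_lit 1271250, nat_lit 1271250, nat_lit 1271250], [nat_lit 52, nat_lit 40, nat_lit 20, nat_lit 80]⟩,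
 zbF0, []⟩
noncomputable def p000_l34 : Lf2 := ⟨nat_lit 3, nat_lit 1, [nat_lit 19, nat_lit 5, nat_lit 5, nat_lit 20], false, nat_lit 0, nat_lit 0, nat_lit 0, nat_lit 0, zbN0,
 nat_lit 0, nat_lit 0, nat_lit 0, nat_lit 0, nat_lit 0, nat_lit 0, nat_lit 0, nat_lit 0, nat_lit 0, nat_lit 0, nat_lit 0, nat_lit 0, nat_lit 0, nat_lit 0, nat_lit 0, nat_lit 0, nat_lit 0, nat_lit 0, [],
 C1.Rw.none, ⟨p000_k15, nat_lit 0, nat_lit 0, nat_lit 0, nat_lit 0, nat_lit 24068, [], [], [], nat_lit 1271250, nat_lit 1271250, nat_lit 0, nat_lit 43600, nat_lit 0, nat_lit 0, [nat_lit 780000, nat_lit 1271250, nat_lit 1271250, nat_lit 1271250], [nat_lit 52, nat_lit 40, nat_lit 20, nat_lit 80]⟩,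
 zbF0, []⟩
noncomputable def p000_l35 : Lf2 := ⟨nat_lit 3, nat_lit 1, [nat_lit 19, nat_lit 5, nat_lit 5, nat_lit 20], false, nat_lit 0, nat_lit 0, nat_lit 0, nat_lit 0, zbN0,
 nat_lit 0, nat_lit 0, nat_lit 0, nat_lit 0, nat_lit 0, nat_lit 0, nat_lit 0, nat_lit 0, nat_lit 0, nat_lit 0, nat_lit 0, nat_lit 0, nat_lit 0, nat_lit 0, nat_lit 0, nat_lit 0, nat_lit 0, nat_lit 0, [],
 C1.Rw.none, ⟨p000_k13, nat_lit 0, nat_lit 0, nat_lit 0, nat_lit 0, nat_lit 7592, [], [], [], nat_lit 1271250, nat_lit 1271250, nat_lit 0, nat_lit 43600, nat_lit 0, nat_lit 0, [nat_lit 780000, nat_lit 1271250, nat_lit 1271250, nat_lit 1271250], [nat_lit 52, nat_lit 40, nat_lit 20, nat_lit 80]⟩,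
 zbF0, []⟩
noncomputable def p000_l36 : Lf2 := ⟨nat_lit 3, nat_lit 1, [nat_lit 19, nat_lit 5, nat_lit 5, nat_lit 20], false, nat_lit 0, nat_lit 0, nat_lit 0, nat_lit 0, zbN0,
 nat_lit 0, nat_lit 0, nat_lit 0, nat_lit 0, nat_lit 0, nat_lit 0, nat_lit 0, nat_lit 0, nat_lit 0, nat_lit 0, nat_lit 0, nat_lit 0, nat_lit 0, nat_lit 0, nat_lit 0, nat_lit 0, nat_lit 0, nat_lit 0, [],
 C1.Rw.none, ⟨p000_k15, nat_lit 0, nat_lit 0, nat_lit 0, nat_lit 0, nat_lit 24068, [], [], [], nat_lit 1271250, nat_lit 1271250, nat_lit 0, nat_lit 43600, nat_lit 0, nat_lit 0, [nat_lit 780000, nat_lit 1271250, nat_lit 1271250, nat_lit 1271250], [nat_lit 52, nat_lit 40, nat_lit 20, nat_lit 80]⟩,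
 zbF0, []⟩
noncomputable def p000_l37 : Lf2 := ⟨nat_lit 1, nat_lit 1, [nat_lit 19, nat_lit 5, nat_lit 5, nat_lit 20], false, nat_lit 0, nat_lit 0, nat_lit 0, nat_lit 0, zbN0,
 nat_lit 0, nat_lit 0, nat_lit 0, nat_lit 0, nat_lit 0, nat_lit 0, nat_lit 0, nat_lit 0, nat_lit 0, nat_lit 0, nat_lit 0, nat_lit 0, nat_lit 0, nat_lit 0, nat_lit 0, nat_lit 0, nat_lit 0, nat_lit 0, [],
 C1.Rw.none, C1.Rw.none,
 zbF0, []⟩
noncomputable def p000_l38 : Lf2 := ⟨nat_lit 3, nat_lit 1, [nat_lit 19, nat_lit 5, nat_lit 5, nat_lit 20], false, nat_lit 0, nat_lit 0, nat_lit 0, nat_lit 0, zbN0,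
 nat_lit 0, nat_lit 0, nat_lit 0, nat_lit 0, nat_lit 0, nat_lit 0, nat_lit 0, nat_lit 0, nat_lit 0, nat_lit 0, nat_lit 0, nat_lit 0, nat_lit 0, nat_lit 0, nat_lit 0, nat_lit 0, nat_lit 0, nat_lit 0, [],
 C1.Rw.none, ⟨p000_k15, nat_lit 0, nat_lit 0, nat_lit 0, nat_lit 0, nat_lit 15971, [], [], [], nat_lit 1271250, nat_lit 1271250, nat_lit 0, nat_lit 21650, nat_lit 0, nat_lit 0, [nat_lit 780000, nat_lit 1271250, nat_lit 1271250, nat_lit 1271250], [nat_lit 52, nat_lit 40, nat_lit 20, nat_lit 80]⟩,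
 zbF0, []⟩
noncomputable def p000_l39 : Lf2 := ⟨nat_lit 3, nat_lit 1, [nat_lit 19, nat_lit 5, nat_lit 5, nat_lit 20], false, nat_lit 0, nat_lit 0, nat_lit 0, nat_lit 0, zbN0,
 nat_lit 0, nat_lit 0, nat_lit 0, nat_lit 0, nat_lit 0, nat_lit 0, nat_lit 0, nat_lit 0, nat_lit 0, nat_lit 0, nat_lit 0, nat_lit 0, nat_lit 0, nat_lit 0, nat_lit 0, nat_lit 0, nat_lit 0, nat_lit 0, [],
 C1.Rw.none, ⟨p000_k13, nat_lit 0, nat_lit 0, nat_lit 0, nat_lit 0, nat_lit 7592, [], [], [], nat_lit 1271250, nat_lit 1271250, nat_lit 0, nat_lit 21650, nat_lit 0, nat_lit 0, [nat_lit 780000, nat_lit 1271250, nat_lit 1271250, nat_lit 1271250], [nat_lit 52, nat_lit 40, nat_lit 20, nat_lit 80]⟩,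
 zbF0, []⟩
noncomputable def p000_l40 : Lf2 := ⟨nat_lit 3, nat_lit 1, [nat_lit 19, nat_lit 5, nat_lit 5, nat_lit 20], false, nat_lit 0, nat_lit 0, nat_lit 0, nat_lit 0, zbN0,
 nat_lit 0, nat_lit 0, nat_lit 0, nat_lit 0, nat_lit 0, nat_lit 0, nat_lit 0, nat_lit 0, nat_lit 0, nat_lit 0, nat_lit 0, nat_lit 0, nat_lit 0, nat_lit 0, nat_lit 0, nat_lit 0, nat_lit 0, nat_lit 0, [],
 C1.Rw.none, ⟨p000_k15, nat_lit 0, nat_lit 0, nat_lit 0, nat_lit 0, nat_lit 24068, [], [], [], nat_lit 1271250, nat_lit 1271250, nat_lit 0, nat_lit 21650, nat_lit 0, nat_lit 0, [nat_lit 780000, nat_lit 1271250, nat_lit 1271250, nat_lit 1271250], [nat_lit 52, nat_lit 40, nat_lit 20, nat_lit 80]⟩,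
 zbF0, []⟩
noncomputable def p000_l41 : Lf2 := ⟨nat_lit 3, nat_lit 1, [nat_lit 19, nat_lit 5, nat_lit 5, nat_lit 20], false, nat_lit 0, nat_lit 0, nat_lit 0, nat_lit 0, zbN0,
 nat_lit 0, nat_lit 0, nat_lit 0, nat_lit 0, nat_lit 0, nat_lit 0, nat_lit 0, nat_lit 0, nat_lit 0, nat_lit 0, nat_lit 0, nat_lit 0, nat_lit 0, nat_lit 0, nat_lit 0, nat_lit 0, nat_lit 0, nat_lit 0, [],
 C1.Rw.none, ⟨p000_k13, nat_lit 0, nat_lit 0, nat_lit 0, nat_lit 0, nat_lit 7592, [], [], [], nat_lit 1271250, nat_lit 1271250, nat_lit 0, nat_lit 21650, nat_lit 0, nat_lit 0, [nat_lit 780000, nat_lit 1271250, nat_lit 1271250, nat_lit 1271250], [nat_lit 52, nat_lit 40, nat_lit 20, nat_lit 80]⟩,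
 zbF0, []⟩
noncomputable def p000_l42 : Lf2 := ⟨nat_lit 3, nat_lit 1, [nat_lit 19, nat_lit 5, nat_lit 5, nat_lit 20], false, nat_lit 0, nat_lit 0, nat_lit 0, nat_lit 0, zbN0,
 nat_lit 0, nat_lit 0, nat_lit 0, nat_lit 0, nat_lit 0, nat_lit 0, nat_lit 0, nat_lit 0, nat_lit 0, nat_lit 0, nat_lit 0, nat_lit 0, nat_lit 0, nat_lit 0, nat_lit 0, nat_lit 0, nat_lit 0, nat_lit 0, [],
 C1.Rw.none, ⟨p000_k15, nat_lit 0, nat_lit 0, nat_lit 0, nat_lit 0, nat_lit 24068, [], [], [], nat_lit 1271250, nat_lit 1271250, nat_lit 0, nat_lit 21650, nat_lit 0, nat_lit 0, [nat_lit 780000, nat_lit 1271250, nat_lit 1271250, nat_lit 1271250], [nat_lit 52, nat_lit 40, nat_lit 20, nat_lit 80]⟩,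
 zbF0, []⟩
noncomputable def p000_l43 : Lf2 := ⟨nat_lit 3, nat_lit 1, [nat_lit 19, nat_lit 5, nat_lit 5, nat_lit 20], false, nat_lit 0, nat_lit 0, nat_lit 0, nat_lit 0, zbN0,
 nat_lit 0, nat_lit 0, nat_lit 0, nat_lit 0, nat_lit 0, nat_lit 0, nat_lit 0, nat_lit 0, nat_lit 0, nat_lit 0, nat_lit 0, nat_lit 0, nat_lit 0, nat_lit 0, nat_lit 0, nat_lit 0, nat_lit 0, nat_lit 0, [],
 C1.Rw.none, ⟨p000_k13, nat_lit 0, nat_lit 0, nat_lit 0, nat_lit 0, nat_lit 16489, [], [], [], nat_lit 1271250, nat_lit 1271250, nat_lit 21650, nat_lit 43600, nat_lit 0, nat_lit 0, [nat_lit 780000, nat_lit 1271250, nat_lit 1271250, nat_lit 1271250], [nat_lit 52, nat_lit 40, nat_lit 20, nat_lit 80]⟩,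
 zbF0, []⟩
noncomputable def p000_l44 : Lf2 := ⟨nat_lit 3, nat_lit 1, [nat_lit 19, nat_lit 5, nat_lit 5, nat_lit 20], false, nat_lit 0, nat_lit 0, nat_lit 0, nat_lit 0, zbN0,
 nat_lit 0, nat_lit 0, nat_lit 0, nat_lit 0, nat_lit 0, nat_lit 0, nat_lit 0, nat_lit 0, nat_lit 0, nat_lit 0, nat_lit 0, nat_lit 0, nat_lit 0, nat_lit 0, nat_lit 0, nat_lit 0, nat_lit 0, nat_lit 0, [],
 C1.Rw.none, ⟨p000_k13, nat_lit 0, nat_lit 0, nat_lit 0, nat_lit 0, nat_lit 7592, [], [], [], nat_lit 1271250, nat_lit 1271250, nat_lit 21650, nat_lit 43600, nat_lit 0, nat_lit 0, [nat_lit 780000, nat_lit 1271250, nat_lit 1271250, nat_lit 1271250], [nat_lit 52, nat_lit 40, nat_lit 20, nat_lit 80]⟩,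
 zbF0, []⟩
noncomputable def p000_l45 : Lf2 := ⟨nat_lit 3, nat_lit 1, [nat_lit 19, nat_lit 5, nat_lit 5, nat_lit 20], false, nat_lit 0, nat_lit 0, nat_lit 0, nat_lit 0, zbN0,
 nat_lit 0, nat_lit 0, nat_lit 0, nat_lit 0, nat_lit 0, nat_lit 0, nat_lit 0, nat_lit 0, nat_lit 0, nat_lit 0, nat_lit 0, nat_lit 0, nat_lit 0, nat_lit 0, nat_lit 0, nat_lit 0, nat_lit 0, nat_lit 0, [],
 C1.Rw.none, ⟨p000_k15, nat_lit 0, nat_lit 0, nat_lit 0, nat_lit 0, nat_lit 24068, [], [], [], nat_lit 1271250, nat_lit 1271250, nat_lit 21650, nat_lit 43600, nat_lit 0, nat_lit 0, [nat_lit 780000, nat_lit 1271250, nat_lit 1271250, nat_lit 1271250], [nat_lit 52, nat_lit 40, nat_lit 20, nat_lit 80]⟩,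
 zbF0, []⟩
noncomputable def p000_l46 : Lf2 := ⟨nat_lit 3, nat_lit 1, [nat_lit 19, nat_lit 5, nat_lit 5, nat_lit 20], false, nat_lit 0, nat_lit 0, nat_lit 0, nat_lit 0, zbN0,
 nat_lit 0, nat_lit 0, nat_lit 0, nat_lit 0, nat_lit 0, nat_lit 0, nat_lit 0, nat_lit 0, nat_lit 0, nat_lit 0, nat_lit 0, nat_lit 0, nat_lit 0, nat_lit 0, nat_lit 0, nat_lit 0, nat_lit 0, nat_lit 0, [],
 C1.Rw.none, ⟨p000_k13, nat_lit 0, nat_lit 0, nat_lit 0, nat_lit 0, nat_lit 7592, [], [], [], nat_lit 1271250, nat_lit 1271250, nat_lit 21650, nat_lit 43600, nat_lit 0, nat_lit 0, [nat_lit 780000, nat_lit 1271250, nat_lit 1271250, nat_lit 1271250], [nat_lit 52, nat_lit 40, nat_lit 20, nat_lit 80]⟩,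
 zbF0, []⟩
noncomputable def p000_l47 : Lf2 := ⟨nat_lit 3, nat_lit 1, [nat_lit 19, nat_lit 5, nat_lit 5, nat_lit 20], false, nat_lit 0, nat_lit 0, nat_lit 0, nat_lit 0, zbN0,
 nat_lit 0, nat_lit 0, nat_lit 0, nat_lit 0, nat_lit 0, nat_lit 0, nat_lit 0, nat_lit 0, nat_lit 0, nat_lit 0, nat_lit 0, nat_lit 0, nat_lit 0, nat_lit 0, nat_lit 0, nat_lit 0, nat_lit 0, nat_lit 0, [],
 C1.Rw.none, ⟨p000_k15, nat_lit 0, nat_lit 0, nat_lit 0, nat_lit 0, nat_lit 24068, [], [], [], nat_lit 1271250, nat_lit 1271250, nat_lit 21650, nat_lit 43600, nat_lit 0, nat_lit 0, [nat_lit 780000, nat_lit 1271250, nat_lit 1271250, nat_lit 1271250], [nat_lit 52, nat_lit 40, nat_lit 20, nat_lit 80]⟩,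
 zbF0, []⟩
noncomputable def p000_l48 : Lf2 := ⟨nat_lit 3, nat_lit 1, [nat_lit 19, nat_lit 5, nat_lit 5, nat_lit 20], false, nat_lit 0, nat_lit 0, nat_lit 0, nat_lit 0, zbN0,
 nat_lit 0, nat_lit 0, nat_lit 0, nat_lit 0, nat_lit 0, nat_lit 0, nat_lit 0, nat_lit 0, nat_lit 0, nat_lit 0, nat_lit 0, nat_lit 0, nat_lit 0, nat_lit 0, nat_lit 0, nat_lit 0, nat_lit 0, nat_lit 0, [],
 C1.Rw.none, ⟨p000_k13, nat_lit 0, nat_lit 0, nat_lit 0, nat_lit 0, nat_lit 3963, [], [], [], nat_lit 1271250, nat_lit 1271250, nat_lit 0, nat_lit 43600, nat_lit 0, nat_lit 0, [nat_lit 780000, nat_lit 1271250, nat_lit 1271250, nat_lit 1271250], [nat_lit 52, nat_lit 40, nat_lit 20, nat_lit 80]⟩,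
 zbF0, []⟩
noncomputable def p000_l49 : Lf2 := ⟨nat_lit 1, nat_lit 1, [nat_lit 19, nat_lit 5, nat_lit 5, nat_lit 20], false, nat_lit 0, nat_lit 0, nat_lit 0, nat_lit 0, zbN0,
 nat_lit 0, nat_lit 0, nat_lit 0, nat_lit 0, nat_lit 0, nat_lit 0, nat_lit 0, nat_lit 0, nat_lit 0, nat_lit 0, nat_lit 0, nat_lit 0, nat_lit 0, nat_lit 0, nat_lit 0, nat_lit 0, nat_lit 0, nat_lit 0, [],
 C1.Rw.none, C1.Rw.none,
 zbF0, []⟩
noncomputable def p000_l50 : Lf2 := ⟨nat_lit 3, nat_lit 1, [nat_lit 19, nat_lit 5, nat_lit 5, nat_lit 20], false, nat_lit 0, nat_lit 0, nat_lit 0, nat_lit 0, zbN0,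
 nat_lit 0, nat_lit 0, nat_lit 0, nat_lit 0, nat_lit 0, nat_lit 0, nat_lit 0, nat_lit 0, nat_lit 0, nat_lit 0, nat_lit 0, nat_lit 0, nat_lit 0, nat_lit 0, nat_lit 0, nat_lit 0, nat_lit 0, nat_lit 0, [],
 C1.Rw.none, ⟨p000_k15, nat_lit 0, nat_lit 0, nat_lit 0, nat_lit 0, nat_lit 15971, [], [], [], nat_lit 1271250, nat_lit 1271250, nat_lit 0, nat_lit 21650, nat_lit 0, nat_lit 0, [nat_lit 780000, nat_lit 1271250, nat_lit 1271250, nat_lit 1271250], [nat_lit 52, nat_lit 40, nat_lit 20, nat_lit 80]⟩,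
 zbF0, []⟩
noncomputable def p000_l51 : Lf2 := ⟨nat_lit 3, nat_lit 1, [nat_lit 19, nat_lit 5, nat_lit 5, nat_lit 20], false, nat_lit 0, nat_lit 0, nat_lit 0, nat_lit 0, zbN0,
 nat_lit 0, nat_lit 0, nat_lit 0, nat_lit 0, nat_lit 0, nat_lit 0, nat_lit 0, nat_lit 0, nat_lit 0, nat_lit 0, nat_lit 0, nat_lit 0, nat_lit 0, nat_lit 0, nat_lit 0, nat_lit 0, nat_lit 0, nat_lit 0, [],
 C1.Rw.none, ⟨p000_k13, nat_lit 0, nat_lit 0, nat_lit 0, nat_lit 0, nat_lit 7592, [], [], [], nat_lit 1271250, nat_lit 1271250, nat_lit 0, nat_lit 21650, nat_lit 0, nat_lit 0, [nat_lit 780000, nat_lit 1271250, nat_lit 1271250, nat_lit 1271250], [nat_lit 52, nat_lit 40, nat_lit 20, nat_lit 80]⟩,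
 zbF0, []⟩
noncomputable def p000_l52 : Lf2 := ⟨nat_lit 3, nat_lit 1, [nat_lit 19, nat_lit 5, nat_lit 5, nat_lit 20], false, nat_lit 0, nat_lit 0, nat_lit 0, nat_lit 0, zbN0,
 nat_lit 0, nat_lit 0, nat_lit 0, nat_lit 0, nat_lit 0, nat_lit 0, nat_lit 0, nat_lit 0, nat_lit 0, nat_lit 0, nat_lit 0, nat_lit 0, nat_lit 0, nat_lit 0, nat_lit 0, nat_lit 0, nat_lit 0, nat_lit 0, [],
 C1.Rw.none, ⟨p000_k15, nat_lit 0, nat_lit 0, nat_lit 0, nat_lit 0, nat_lit 24068, [], [], [], nat_lit 1271250, nat_lit 1271250, nat_lit 0, nat_lit 21650, nat_lit 0, nat_lit 0, [nat_lit 780000, nat_lit 1271250, nat_lit 1271250, nat_lit 1271250], [nat_lit 52, nat_lit 40, nat_lit 20, nat_lit 80]⟩,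
 zbF0, []⟩
noncomputable def p000_l53 : Lf2 := ⟨nat_lit 3, nat_lit 1, [nat_lit 19, nat_lit 5, nat_lit 5, nat_lit 20], false, nat_lit 0, nat_lit 0, nat_lit 0, nat_lit 0, zbN0,
 nat_lit 0, nat_lit 0, nat_lit 0, nat_lit 0, nat_lit 0, nat_lit 0, nat_lit 0, nat_lit 0, nat_lit 0, nat_lit 0, nat_lit 0, nat_lit 0, nat_lit 0, nat_lit 0, nat_lit 0, nat_lit 0, nat_lit 0, nat_lit 0, [],
 C1.Rw.none, ⟨p000_k13, nat_lit 0, nat_lit 0, nat_lit 0, nat_lit 0, nat_lit 16489, [], [], [], nat_lit 1271250, nat_lit 1271250, nat_lit 21650, nat_lit 43600, nat_lit 0, nat_lit 0, [nat_lit 780000, nat_lit 1271250, nat_lit 1271250, nat_lit 1271250], [nat_lit 52, nat_lit 40, nat_lit 20, nat_lit 80]⟩,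
 zbF0, []⟩
noncomputable def p000_l54 : Lf2 := ⟨nat_lit 3, nat_lit 1, [nat_lit 19, nat_lit 5, nat_lit 5, nat_lit 20], false, nat_lit 0, nat_lit 0, nat_lit 0, nat_lit 0, zbN0,
 nat_lit 0, nat_lit 0, nat_lit 0, nat_lit 0, nat_lit 0, nat_lit 0, nat_lit 0, nat_lit 0, nat_lit 0, nat_lit 0, nat_lit 0, nat_lit 0, nat_lit 0, nat_lit 0, nat_lit 0, nat_lit 0, nat_lit 0, nat_lit 0, [],
 C1.Rw.none, ⟨p000_k13, nat_lit 0, nat_lit 0, nat_lit 0, nat_lit 0, nat_lit 7592, [], [], [], nat_lit 1271250, nat_lit 1271250, nat_lit 21650, nat_lit 43600, nat_lit 0, nat_lit 0, [nat_lit 780000, nat_lit 1271250, nat_lit 1271250, nat_lit 1271250], [nat_lit 52, nat_lit 40, nat_lit 20, nat_lit 80]⟩,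
 zbF0, []⟩
noncomputable def p000_l55 : Lf2 := ⟨nat_lit 3, nat_lit 1, [nat_lit 19, nat_lit 5, nat_lit 5, nat_lit 20], false, nat_lit 0, nat_lit 0, nat_lit 0, nat_lit 0, zbN0,
 nat_lit 0, nat_lit 0, nat_lit 0, nat_lit 0, nat_lit 0, nat_lit 0, nat_lit 0, nat_lit 0, nat_lit 0, nat_lit 0, nat_lit 0, nat_lit 0, nat_lit 0, nat_lit 0, nat_lit 0, nat_lit 0, nat_lit 0, nat_lit 0, [],
 C1.Rw.none, ⟨p000_k15, nat_lit 0, nat_lit 0, nat_lit 0, nat_lit 0, nat_lit 24068, [], [], [], nat_lit 1271250, nat_lit 1271250, nat_lit 21650, nat_lit 43600, nat_lit 0, nat_lit 0, [nat_lit 780000, nat_lit 1271250, nat_lit 1271250, nat_lit 1271250], [nat_lit 52, nat_lit 40, nat_lit 20, nat_lit 80]⟩,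
 zbF0, []⟩
noncomputable def p000_l56 : Lf2 := ⟨nat_lit 0, nat_lit 1, [nat_lit 19, nat_lit 5, nat_lit 5, nat_lit 20], false, nat_lit 0, nat_lit 0, nat_lit 0, nat_lit 0, ⟨nat_lit 1000, nat_lit 0, nat_lit 0, nat_lit 0, nat_lit 0, nat_lit 0, nat_lit 0, nat_lit 0, nat_lit 0, nat_lit 0, nat_lit 0, nat_lit 0, nat_lit 0, nat_lit 0, nat_lit 0, nat_lit 0, false, false⟩,
 nat_lit 0, nat_lit 0, nat_lit 300000, nat_lit 300000, nat_lit 5270, nat_lit 114084, nat_lit 60000, nat_lit 0, nat_lit 0, nat_lit 60000, nat_lit 15500, nat_lit 0, nat_lit 0, nat_lit 0, nat_lit 0, nat_lit 0, nat_lit 0, nat_lit 0, [],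
 ⟨p000_k8, nat_lit 0, nat_lit 0, nat_lit 0, nat_lit 0, nat_lit 0, [nat_lit 3282000000, nat_lit 7089500001, nat_lit 8885500000], [], [nat_lit 18026609571, nat_lit 18570231521, nat_lit 17470488376, nat_lit 18015374673], nat_lit 0, nat_lit 0, nat_lit 0, nat_lit 0, nat_lit 0, nat_lit 0, [], [nat_lit 115, nat_lit 40, nat_lit 20, nat_lit 40]⟩, ⟨p000_k11, nat_lit 0, nat_lit 0, nat_lit 0, nat_lit 0, nat_lit 24839, [nat_lit 189282000000, nat_lit 348089500000, nat_lit 411885500000], [], [nat_lit 1106992006752, nat_lit 1078649601084, nat_lit 1104078289773, nat_lit 1075323508840], nat_lit 1271250, nat_lit 1271250, nat_lit 0, nat_lit 43600, nat_lit 0, nat_lit 0, [nat_lit 780000, nat_lit 1598750, nat_lit 1271250], [nat_lit 115, nat_lit 40, nat_lit 20, nat_lit 40]⟩,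
 zbF0, []⟩
noncomputable def p000_l57 : Lf2 := ⟨nat_lit 0, nat_lit 1, [nat_lit 19, nat_lit 5, nat_lit 5, nat_lit 20], false, nat_lit 0, nat_lit 0, nat_lit 0, nat_lit 0, ⟨nat_lit 1000, nat_lit 0, nat_lit 0, nat_lit 0, nat_lit 0, nat_lit 0, nat_lit 0, nat_lit 0, nat_lit 0, nat_lit 0, nat_lit 0, nat_lit 0, nat_lit 0, nat_lit 0, nat_lit 0, nat_lit 0, false, false⟩,
 nat_lit 0, nat_lit 0, nat_lit 300000, nat_lit 0, nat_lit 5296, nat_lit 114084, nat_lit 11334, nat_lit 0, nat_lit 0, nat_lit 60000, nat_lit 20000, nat_lit 0, nat_lit 0, nat_lit 0, nat_lit 0, nat_lit 0, nat_lit 0, nat_lit 0, [],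
 ⟨p000_k14, nat_lit 0, nat_lit 0, nat_lit 0, nat_lit 0, nat_lit 0, [nat_lit 3282000000, nat_lit 5449500000, nat_lit 7968000001, nat_lit 9842000000], [], [nat_lit 19908102422, nat_lit 20164090265, nat_lit 19347554035, nat_lit 19604205780], nat_lit 0, nat_lit 0, nat_lit 0, nat_lit 0, nat_lit 0, nat_lit 0, [], [nat_lit 52, nat_lit 40, nat_lit 20, nat_lit 80]⟩, ⟨p000_k13, nat_lit 0, nat_lit 0, nat_lit 0, nat_lit 0, nat_lit 3963, [nat_lit 243282000000, nat_lit 365449500000, nat_lit 487968000000, nat_lit 569842000000], [], [nat_lit 721491824132, nat_lit 724646200279, nat_lit 707219773623, nat_lit 710417990029], nat_lit 1271250, nat_lit 1271250, nat_lit 43600, nat_lit 88400, nat_lit 0, nat_lit 0, [nat_lit 780000, nat_lit 1271250, nat_lit 1271250, nat_lit 1271250], [nat_lit 52, nat_lit 40, nat_lit 20, nat_lit 80]⟩,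
 zbF0, []⟩
noncomputable def p000_l58 : Lf2 := ⟨nat_lit 0, nat_lit 1, [nat_lit 19, nat_lit 5, nat_lit 5, nat_lit 20], false, nat_lit 0, nat_lit 0, nat_lit 0, nat_lit 0, ⟨nat_lit 1000, nat_lit 0, nat_lit 0, nat_lit 0, nat_lit 0, nat_lit 0, nat_lit 0, nat_lit 0, nat_lit 0, nat_lit 0, nat_lit 0, nat_lit 0, nat_lit 0, nat_lit 0, nat_lit 0, nat_lit 0, false, false⟩,
 nat_lit 0, nat_lit 0, nat_lit 300000, nat_lit 0, nat_lit 5290, nat_lit 114084, nat_lit 11233, nat_lit 0, nat_lit 0, nat_lit 60000, nat_lit 20000, nat_lit 0, nat_lit 0, nat_lit 0, nat_lit 0, nat_lit 0, nat_lit 0, nat_lit 0, [],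
 ⟨p000_k12, nat_lit 0, nat_lit 0, nat_lit 0, nat_lit 0, nat_lit 0, [nat_lit 3282000000, nat_lit 5449500000, nat_lit 7968000001, nat_lit 9842000000], [], [nat_lit 20169090144, nat_lit 20424969946, nat_lit 19609955142, nat_lit 19866497769], nat_lit 0, nat_lit 0, nat_lit 0, nat_lit 0, nat_lit 0, nat_lit 0, [], [nat_lit 52, nat_lit 40, nat_lit 20, nat_lit 80]⟩, ⟨p000_k13, nat_lit 0, nat_lit 0, nat_lit 0, nat_lit 0, nat_lit 24839, [nat_lit 243282000000, nat_lit 365449500000, nat_lit 487968000000, nat_lit 569842000000], [], [nat_lit 721491824132, nat_lit 724646200279, nat_lit 707219773623, nat_lit 710417990029], nat_lit 1271250, nat_lit 1271250, nat_lit 43600, nat_lit 88400, nat_lit 0, nat_lit 0, [nat_lit 780000, nat_lit 1271250, nat_lit 1271250, nat_lit 1271250], [nat_lit 52, nat_lit 40, nat_lit 20, nat_lit 80]⟩,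
 zbF0, []⟩
noncomputable def p000_l59 : Lf2 := ⟨nat_lit 0, nat_lit 1, [nat_lit 19, nat_lit 5, nat_lit 5, nat_lit 20], false, nat_lit 0, nat_lit 0, nat_lit 0, nat_lit 0, ⟨nat_lit 1000, nat_lit 0, nat_lit 0, nat_lit 0, nat_lit 0, nat_lit 0, nat_lit 0, nat_lit 0, nat_lit 0, nat_lit 0, nat_lit 0, nat_lit 0, nat_lit 0, nat_lit 0, nat_lit 0, nat_lit 0, false, false⟩,
 nat_lit 0, nat_lit 0, nat_lit 300000, nat_lit 300000, nat_lit 5290, nat_lit 114084, nat_lit 60000, nat_lit 0, nat_lit 0, nat_lit 60000, nat_lit 0, nat_lit 7397, nat_lit 0, nat_lit 0, nat_lit 0, nat_lit 0, nat_lit 0, nat_lit 408797216783, [],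
 ⟨p000_k12, nat_lit 0, nat_lit 0, nat_lit 0, nat_lit 0, nat_lit 0, [nat_lit 3282000000, nat_lit 5449500000, nat_lit 7968000001, nat_lit 9842000000], [], [nat_lit 20169090144, nat_lit 20424969946, nat_lit 19609955142, nat_lit 19866497769], nat_lit 0, nat_lit 0, nat_lit 0, nat_lit 0, nat_lit 0, nat_lit 0, [], [nat_lit 52, nat_lit 40, nat_lit 20, nat_lit 80]⟩, ⟨p000_k13, nat_lit 0, nat_lit 0, nat_lit 0, nat_lit 0, nat_lit 24839, [nat_lit 3282000000, nat_lit 5449500000, nat_lit 7968000000, nat_lit 9842000000], [], [nat_lit 33810716271, nat_lit 3509637690, nat_lit 30206728001, nat_lit 0], nat_lit 1271250, nat_lit 1271250, nat_lit 43600, nat_lit 88400, nat_lit 0, nat_lit 0, [nat_lit 780000, nat_lit 1271250, nat_lit 1271250, nat_lit 1271250], [nat_lit 52, nat_lit 40, nat_lit 20, nat_lit 80]⟩,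
 zbF0, []⟩
noncomputable def p000_l60 : Lf2 := ⟨nat_lit 3, nat_lit 1, [nat_lit 19, nat_lit 5, nat_lit 5, nat_lit 20], false, nat_lit 0, nat_lit 0, nat_lit 0, nat_lit 0, zbN0,
 nat_lit 0, nat_lit 0, nat_lit 0, nat_lit 0, nat_lit 0, nat_lit 0, nat_lit 0, nat_lit 0, nat_lit 0, nat_lit 0, nat_lit 0, nat_lit 0, nat_lit 0, nat_lit 0, nat_lit 0, nat_lit 0, nat_lit 0, nat_lit 0, [],
 C1.Rw.none, ⟨p000_k13, nat_lit 0, nat_lit 0, nat_lit 0, nat_lit 0, nat_lit 7592, [], [], [], nat_lit 1271250, nat_lit 1271250, nat_lit 43600, nat_lit 88400, nat_lit 0, nat_lit 0, [nat_lit 780000, nat_lit 1271250, nat_lit 1271250, nat_lit 1271250], [nat_lit 52, nat_lit 40, nat_lit 20, nat_lit 80]⟩,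
 zbF0, []⟩
noncomputable def p000_l61 : Lf2 := ⟨nat_lit 0, nat_lit 1, [nat_lit 19, nat_lit 5, nat_lit 5, nat_lit 20], false, nat_lit 0, nat_lit 0, nat_lit 0, nat_lit 0, ⟨nat_lit 1000, nat_lit 0, nat_lit 0, nat_lit 0, nat_lit 0, nat_lit 0, nat_lit 0, nat_lit 0, nat_lit 0, nat_lit 0, nat_lit 0, nat_lit 0, nat_lit 0, nat_lit 0, nat_lit 0, nat_lit 0, false, false⟩,
 nat_lit 0, nat_lit 0, nat_lit 300000, nat_lit 0, nat_lit 0, nat_lit 117667, nat_lit 1779, nat_lit 0, nat_lit 571, nat_lit 0, nat_lit 0, nat_lit 2754, nat_lit 0, nat_lit 0, nat_lit 0, nat_lit 0, nat_lit 0, nat_lit 149501263241, [],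
 ⟨p000_k16, nat_lit 0, nat_lit 0, nat_lit 0, nat_lit 0, nat_lit 0, [nat_lit 7089500001, nat_lit 8885500000], [], [nat_lit 4685746103, nat_lit 4840773601, nat_lit 4784075702, nat_lit 4934933602], nat_lit 0, nat_lit 0, nat_lit 0, nat_lit 0, nat_lit 0, nat_lit 0, [], [nat_lit 162, nat_lit 40, nat_lit 20, nat_lit 40]⟩, ⟨p000_k17, nat_lit 0, nat_lit 0, nat_lit 0, nat_lit 0, nat_lit 24068, [nat_lit 7089500000, nat_lit 8885500000], [], [nat_lit 17472003137, nat_lit 2534295154, nat_lit 14893935859, nat_lit 0], nat_lit 1271250, nat_lit 1271250, nat_lit 43600, nat_lit 88400, nat_lit 0, nat_lit 0, [nat_lit 1553750, nat_lit 1271250], [nat_lit 162, nat_lit 40, nat_lit 20, nat_lit 40]⟩,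
 zbF0, []⟩
noncomputable def p000_l62 : Lf2 := ⟨nat_lit 3, nat_lit 1, [nat_lit 19, nat_lit 5, nat_lit 5, nat_lit 20], false, nat_lit 0, nat_lit 0, nat_lit 0, nat_lit 0, zbN0,
 nat_lit 0, nat_lit 0, nat_lit 0, nat_lit 0, nat_lit 0, nat_lit 0, nat_lit 0, nat_lit 0, nat_lit 0, nat_lit 0, nat_lit 0, nat_lit 0, nat_lit 0, nat_lit 0, nat_lit 0, nat_lit 0, nat_lit 0, nat_lit 0, [],
 C1.Rw.none, ⟨p000_k13, nat_lit 0, nat_lit 0, nat_lit 0, nat_lit 0, nat_lit 7592, [], [], [], nat_lit 1271250, nat_lit 1271250, nat_lit 43600, nat_lit 88400, nat_lit 0, nat_lit 0, [nat_lit 780000, nat_lit 1271250, nat_lit 1271250, nat_lit 1271250], [nat_lit 52, nat_lit 40, nat_lit 20, nat_lit 80]⟩,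
 zbF0, []⟩
noncomputable def p000_l63 : Lf2 := ⟨nat_lit 0, nat_lit 1, [nat_lit 19, nat_lit 5, nat_lit 5, nat_lit 20], false, nat_lit 0, nat_lit 0, nat_lit 0, nat_lit 0, ⟨nat_lit 1000, nat_lit 0, nat_lit 0, nat_lit 0, nat_lit 0, nat_lit 0, nat_lit 0, nat_lit 0, nat_lit 0, nat_lit 0, nat_lit 0, nat_lit 0, nat_lit 0, nat_lit 0, nat_lit 0, nat_lit 0, false, false⟩,
 nat_lit 0, nat_lit 0, nat_lit 300000, nat_lit 0, nat_lit 15023, nat_lit 117667, nat_lit 14130, nat_lit 0, nat_lit 0, nat_lit 57213, nat_lit 0, nat_lit 2754, nat_lit 0, nat_lit 0, nat_lit 0, nat_lit 0, nat_lit 0, nat_lit 149501263241, [],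
 ⟨p000_k18, nat_lit 0, nat_lit 0, nat_lit 0, nat_lit 0, nat_lit 0, [nat_lit 7089500001, nat_lit 7968000001, nat_lit 8885500000], [], [nat_lit 18367359471, nat_lit 18714634947, nat_lit 16646578038, nat_lit 16995882256], nat_lit 0, nat_lit 0, nat_lit 0, nat_lit 0, nat_lit 0, nat_lit 0, [], [nat_lit 171, nat_lit 40, nat_lit 20, nat_lit 40]⟩, ⟨p000_k19, nat_lit 0, nat_lit 0, nat_lit 0, nat_lit 0, nat_lit 24068, [nat_lit 7089500000, nat_lit 7968000000, nat_lit 8885500000], [], [nat_lit 17472003137, nat_lit 2534295154, nat_lit 14893935859, nat_lit 0], nat_lit 1271250, nat_lit 1271250, nat_lit 43600, nat_lit 88400, nat_lit 0, nat_lit 0, [nat_lit 1553750, nat_lit 1271250, nat_lit 1271250], [nat_lit 171, nat_lit 40, nat_lit 20, nat_lit 40]⟩,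
 zbF0, []⟩
noncomputable def p000_l64 : Lf2 := ⟨nat_lit 3, nat_lit 1, [nat_lit 19, nat_lit 5, nat_lit 5, nat_lit 20], false, nat_lit 0, nat_lit 0, nat_lit 0, nat_lit 0, zbN0,
 nat_lit 0, nat_lit 0, nat_lit 0, nat_lit 0, nat_lit 0, nat_lit 0, nat_lit 0, nat_lit 0, nat_lit 0, nat_lit 0, nat_lit 0, nat_lit 0, nat_lit 0, nat_lit 0, nat_lit 0, nat_lit 0, nat_lit 0, nat_lit 0, [],
 C1.Rw.none, ⟨p000_k13, nat_lit 0, nat_lit 0, nat_lit 0, nat_lit 0, nat_lit 16489, [], [], [], nat_lit 1271250, nat_lit 1271250, nat_lit 43600, nat_lit 65850, nat_lit 0, nat_lit 0, [nat_lit 780000, nat_lit 1271250, nat_lit 1271250, nat_lit 1271250], [nat_lit 52, nat_lit 40, nat_lit 20, nat_lit 80]⟩,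
 zbF0, []⟩
noncomputable def p000_l65 : Lf2 := ⟨nat_lit 3, nat_lit 1, [nat_lit 19, nat_lit 5, nat_lit 5, nat_lit 20], false, nat_lit 0, nat_lit 0, nat_lit 0, nat_lit 0, zbN0,
 nat_lit 0, nat_lit 0, nat_lit 0, nat_lit 0, nat_lit 0, nat_lit 0, nat_lit 0, nat_lit 0, nat_lit 0, nat_lit 0, nat_lit 0, nat_lit 0, nat_lit 0, nat_lit 0, nat_lit 0, nat_lit 0, nat_lit 0, nat_lit 0, [],
 C1.Rw.none, ⟨p000_k13, nat_lit 0, nat_lit 0, nat_lit 0, nat_lit 0, nat_lit 7592, [], [], [], nat_lit 1271250, nat_lit 1271250, nat_lit 43600, nat_lit 65850, nat_lit 0, nat_lit 0, [nat_lit 780000, nat_lit 1271250, nat_lit 1271250, nat_lit 1271250], [nat_lit 52, nat_lit 40, nat_lit 20, nat_lit 80]⟩,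
 zbF0, []⟩
noncomputable def p000_l66 : Lf2 := ⟨nat_lit 3, nat_lit 1, [nat_lit 19, nat_lit 5, nat_lit 5, nat_lit 20], false, nat_lit 0, nat_lit 0, nat_lit 0, nat_lit 0, zbN0,
 nat_lit 0, nat_lit 0, nat_lit 0, nat_lit 0, nat_lit 0, nat_lit 0, nat_lit 0, nat_lit 0, nat_lit 0, nat_lit 0, nat_lit 0, nat_lit 0, nat_lit 0, nat_lit 0, nat_lit 0, nat_lit 0, nat_lit 0, nat_lit 0, [],
 C1.Rw.none, ⟨p000_k15, nat_lit 0, nat_lit 0, nat_lit 0, nat_lit 0, nat_lit 24068, [], [], [], nat_lit 1271250, nat_lit 1271250, nat_lit 43600, nat_lit 65850, nat_lit 0, nat_lit 0, [nat_lit 780000, nat_lit 1271250, nat_lit 1271250, nat_lit 1271250], [nat_lit 52, nat_lit 40, nat_lit 20, nat_lit 80]⟩,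
 zbF0, []⟩
noncomputable def p000_l67 : Lf2 := ⟨nat_lit 3, nat_lit 1, [nat_lit 19, nat_lit 5, nat_lit 5, nat_lit 20], false, nat_lit 0, nat_lit 0, nat_lit 0, nat_lit 0, zbN0,
 nat_lit 0, nat_lit 0, nat_lit 0, nat_lit 0, nat_lit 0, nat_lit 0, nat_lit 0, nat_lit 0, nat_lit 0, nat_lit 0, nat_lit 0, nat_lit 0, nat_lit 0, nat_lit 0, nat_lit 0, nat_lit 0, nat_lit 0, nat_lit 0, [],
 C1.Rw.none, ⟨p000_k13, nat_lit 0, nat_lit 0, nat_lit 0, nat_lit 0, nat_lit 7592, [], [], [], nat_lit 1271250, nat_lit 1271250, nat_lit 43600, nat_lit 65850, nat_lit 0, nat_lit 0, [nat_lit 780000, nat_lit 1271250, nat_lit 1271250, nat_lit 1271250], [nat_lit 52, nat_lit 40, nat_lit 20, nat_lit 80]⟩,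
 zbF0, []⟩
noncomputable def p000_l68 : Lf2 := ⟨nat_lit 3, nat_lit 1, [nat_lit 19, nat_lit 5, nat_lit 5, nat_lit 20], false, nat_lit 0, nat_lit 0, nat_lit 0, nat_lit 0, zbN0,
 nat_lit 0, nat_lit 0, nat_lit 0, nat_lit 0, nat_lit 0, nat_lit 0, nat_lit 0, nat_lit 0, nat_lit 0, nat_lit 0, nat_lit 0, nat_lit 0, nat_lit 0, nat_lit 0, nat_lit 0, nat_lit 0, nat_lit 0, nat_lit 0, [],
 C1.Rw.none, ⟨p000_k15, nat_lit 0, nat_lit 0, nat_lit 0, nat_lit 0, nat_lit 24068, [], [], [], nat_lit 1271250, nat_lit 1271250, nat_lit 43600, nat_lit 65850, nat_lit 0, nat_lit 0, [nat_lit 780000, nat_lit 1271250, nat_lit 1271250, nat_lit 1271250], [nat_lit 52, nat_lit 40, nat_lit 20, nat_lit 80]⟩,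
 zbF0, []⟩
noncomputable def p000_l69 : Lf2 := ⟨nat_lit 3, nat_lit 1, [nat_lit 19, nat_lit 5, nat_lit 5, nat_lit 20], false, nat_lit 0, nat_lit 0, nat_lit 0, nat_lit 0, zbN0,
 nat_lit 0, nat_lit 0, nat_lit 0, nat_lit 0, nat_lit 0, nat_lit 0, nat_lit 0, nat_lit 0, nat_lit 0, nat_lit 0, nat_lit 0, nat_lit 0, nat_lit 0, nat_lit 0, nat_lit 0, nat_lit 0, nat_lit 0, nat_lit 0, [],
 C1.Rw.none, ⟨p000_k13, nat_lit 0, nat_lit 0, nat_lit 0, nat_lit 0, nat_lit 24839, [], [], [], nat_lit 1271250, nat_lit 1271250, nat_lit 65850, nat_lit 88400, nat_lit 0, nat_lit 0, [nat_lit 780000, nat_lit 1271250, nat_lit 1271250, nat_lit 1271250], [nat_lit 52, nat_lit 40, nat_lit 20, nat_lit 80]⟩,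
 zbF0, []⟩
noncomputable def p000_l70 : Lf2 := ⟨nat_lit 3, nat_lit 1, [nat_lit 19, nat_lit 5, nat_lit 5, nat_lit 20], false, nat_lit 0, nat_lit 0, nat_lit 0, nat_lit 0, zbN0,
 nat_lit 0, nat_lit 0, nat_lit 0, nat_lit 0, nat_lit 0, nat_lit 0, nat_lit 0, nat_lit 0, nat_lit 0, nat_lit 0, nat_lit 0, nat_lit 0, nat_lit 0, nat_lit 0, nat_lit 0, nat_lit 0, nat_lit 0, nat_lit 0, [],
 C1.Rw.none, ⟨p000_k13, nat_lit 0, nat_lit 0, nat_lit 0, nat_lit 0, nat_lit 16489, [], [], [], nat_lit 1271250, nat_lit 1271250, nat_lit 43600, nat_lit 65850, nat_lit 0, nat_lit 0, [nat_lit 780000, nat_lit 1271250, nat_lit 1271250, nat_lit 1271250], [nat_lit 52, nat_lit 40, nat_lit 20, nat_lit 80]⟩,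
 zbF0, []⟩
noncomputable def p000_l71 : Lf2 := ⟨nat_lit 3, nat_lit 1, [nat_lit 19, nat_lit 5, nat_lit 5, nat_lit 20], false, nat_lit 0, nat_lit 0, nat_lit 0, nat_lit 0, zbN0,
 nat_lit 0, nat_lit 0, nat_lit 0, nat_lit 0, nat_lit 0, nat_lit 0, nat_lit 0, nat_lit 0, nat_lit 0, nat_lit 0, nat_lit 0, nat_lit 0, nat_lit 0, nat_lit 0, nat_lit 0, nat_lit 0, nat_lit 0, nat_lit 0, [],
 C1.Rw.none, ⟨p000_k13, nat_lit 0, nat_lit 0, nat_lit 0, nat_lit 0, nat_lit 7592, [], [], [], nat_lit 1271250, nat_lit 1271250, nat_lit 43600, nat_lit 65850, nat_lit 0, nat_lit 0, [nat_lit 780000, nat_lit 1271250, nat_lit 1271250, nat_lit 1271250], [nat_lit 52, nat_lit 40, nat_lit 20, nat_lit 80]⟩,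
 zbF0, []⟩
noncomputable def p000_l72 : Lf2 := ⟨nat_lit 3, nat_lit 1, [nat_lit 19, nat_lit 5, nat_lit 5, nat_lit 20], false, nat_lit 0, nat_lit 0, nat_lit 0, nat_lit 0, zbN0,
 nat_lit 0, nat_lit 0, nat_lit 0, nat_lit 0, nat_lit 0, nat_lit 0, nat_lit 0, nat_lit 0, nat_lit 0, nat_lit 0, nat_lit 0, nat_lit 0, nat_lit 0, nat_lit 0, nat_lit 0, nat_lit 0, nat_lit 0, nat_lit 0, [],
 C1.Rw.none, ⟨p000_k15, nat_lit 0, nat_lit 0, nat_lit 0, nat_lit 0, nat_lit 24068, [], [], [], nat_lit 1271250, nat_lit 1271250, nat_lit 43600, nat_lit 65850, nat_lit 0, nat_lit 0, [nat_lit 780000, nat_lit 1271250, nat_lit 1271250, nat_lit 1271250], [nat_lit 52, nat_lit 40, nat_lit 20, nat_lit 80]⟩,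
 zbF0, []⟩
noncomputable def p000_l73 : Lf2 := ⟨nat_lit 3, nat_lit 1, [nat_lit 19, nat_lit 5, nat_lit 5, nat_lit 20], false, nat_lit 0, nat_lit 0, nat_lit 0, nat_lit 0, zbN0,
 nat_lit 0, nat_lit 0, nat_lit 0, nat_lit 0, nat_lit 0, nat_lit 0, nat_lit 0, nat_lit 0, nat_lit 0, nat_lit 0, nat_lit 0, nat_lit 0, nat_lit 0, nat_lit 0, nat_lit 0, nat_lit 0, nat_lit 0, nat_lit 0, [],
 C1.Rw.none, ⟨p000_k13, nat_lit 0, nat_lit 0, nat_lit 0, nat_lit 0, nat_lit 24839, [], [], [], nat_lit 1271250, nat_lit 1271250, nat_lit 65850, nat_lit 88400, nat_lit 0, nat_lit 0, [nat_lit 780000, nat_lit 1271250, nat_lit 1271250, nat_lit 1271250], [nat_lit 52, nat_lit 40, nat_lit 20, nat_lit 80]⟩,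
 zbF0, []⟩
noncomputable def p000_l74 : Lf2 := ⟨nat_lit 0, nat_lit 1, [nat_lit 19, nat_lit 5, nat_lit 5, nat_lit 20], false, nat_lit 0, nat_lit 0, nat_lit 0, nat_lit 0, ⟨nat_lit 1000, nat_lit 0, nat_lit 0, nat_lit 0, nat_lit 0, nat_lit 0, nat_lit 0, nat_lit 0, nat_lit 0, nat_lit 0, nat_lit 0, nat_lit 0, nat_lit 0, nat_lit 0, nat_lit 0, nat_lit 0, false, false⟩,
 nat_lit 0, nat_lit 0, nat_lit 300000, nat_lit 300000, nat_lit 5414, nat_lit 114084, nat_lit 60000, nat_lit 0, nat_lit 0, nat_lit 60000, nat_lit 16022, nat_lit 0, nat_lit 0, nat_lit 0, nat_lit 0, nat_lit 0, nat_lit 0, nat_lit 0, [],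
 ⟨p000_k10, nat_lit 0, nat_lit 0, nat_lit 0, nat_lit 0, nat_lit 0, [nat_lit 3282000000, nat_lit 7089500001, nat_lit 8885500000], [], [nat_lit 17600082790, nat_lit 17875480632, nat_lit 17026588210, nat_lit 17302643598], nat_lit 0, nat_lit 0, nat_lit 0, nat_lit 0, nat_lit 0, nat_lit 0, [], [nat_lit 115, nat_lit 40, nat_lit 20, nat_lit 40]⟩, ⟨p000_k11, nat_lit 0, nat_lit 0, nat_lit 0, nat_lit 0, nat_lit 24839, [nat_lit 195546000000, nat_lit 359573500000, nat_lit 425457500000], [], [nat_lit 1139574289773, nat_lit 1111191904766, nat_lit 1137212975994, nat_lit 1108541795816], nat_lit 1271250, nat_lit 1271250, nat_lit 43600, nat_lit 88400, nat_lit 0, nat_lit 0, [nat_lit 780000, nat_lit 1598750, nat_lit 1271250], [nat_lit 115, nat_lit 40, nat_lit 20, nat_lit 40]⟩,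
 zbF0, []⟩
noncomputable def p000_l75 : Lf2 := ⟨nat_lit 0, nat_lit 1, [nat_lit 19, nat_lit 5, nat_lit 5, nat_lit 20], false, nat_lit 0, nat_lit 0, nat_lit 0, nat_lit 0, ⟨nat_lit 1000, nat_lit 0, nat_lit 0, nat_lit 0, nat_lit 0, nat_lit 0, nat_lit 0, nat_lit 0, nat_lit 0, nat_lit 0, nat_lit 0, nat_lit 0, nat_lit 0, nat_lit 0, nat_lit 0, nat_lit 0, false, false⟩,
 nat_lit 0, nat_lit 0, nat_lit 300000, nat_lit 0, nat_lit 5432, nat_lit 114084, nat_lit 11233, nat_lit 0, nat_lit 0, nat_lit 60000, nat_lit 20000, nat_lit 0, nat_lit 0, nat_lit 0, nat_lit 0, nat_lit 0, nat_lit 0, nat_lit 0, [],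
 ⟨p000_k14, nat_lit 0, nat_lit 0, nat_lit 0, nat_lit 0, nat_lit 0, [nat_lit 3282000000, nat_lit 5449500000, nat_lit 7968000001, nat_lit 9842000000], [], [nat_lit 19214761813, nat_lit 19733011976, nat_lit 18925981281, nat_lit 19444919745], nat_lit 0, nat_lit 0, nat_lit 0, nat_lit 0, nat_lit 0, nat_lit 0, [], [nat_lit 52, nat_lit 40, nat_lit 20, nat_lit 80]⟩, ⟨p000_k13, nat_lit 0, nat_lit 0, nat_lit 0, nat_lit 0, nat_lit 24839, [nat_lit 243282000000, nat_lit 365449500000, nat_lit 487968000000, nat_lit 569842000000], [], [nat_lit 707219773623, nat_lit 710417990029, nat_lit 700083748368, nat_lit 703303884904], nat_lit 1271250, nat_lit 1271250, nat_lit 88400, nat_lit 111251, nat_lit 0, nat_lit 0, [nat_lit 780000, nat_lit 1271250, nat_lit 1271250, nat_lit 1271250], [nat_lit 52, nat_lit 40, nat_lit 20, nat_lit 80]⟩,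
 zbF0, []⟩
noncomputable def p000_l76 : Lf2 := ⟨nat_lit 0, nat_lit 1, [nat_lit 19, nat_lit 5, nat_lit 5, nat_lit 20], false, nat_lit 0, nat_lit 0, nat_lit 0, nat_lit 0, ⟨nat_lit 1000, nat_lit 0, nat_lit 0, nat_lit 0, nat_lit 0, nat_lit 0, nat_lit 0, nat_lit 0, nat_lit 0, nat_lit 0, nat_lit 0, nat_lit 0, nat_lit 0, nat_lit 0, nat_lit 0, nat_lit 0, false, false⟩,
 nat_lit 0, nat_lit 0, nat_lit 300000, nat_lit 203857, nat_lit 92512, nat_lit 114084, nat_lit 60000, nat_lit 8013, nat_lit 0, nat_lit 60000, nat_lit 20000, nat_lit 0, nat_lit 0, nat_lit 0, nat_lit 0, nat_lit 0, nat_lit 0, nat_lit 0, [],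
 ⟨p000_k14, nat_lit 0, nat_lit 0, nat_lit 0, nat_lit 0, nat_lit 0, [nat_lit 99438000001, nat_lit 149683500000, nat_lit 200280000001, nat_lit 234206000000], [], [nat_lit 246165237272, nat_lit 247408203958, nat_lit 216921344482, nat_lit 218772287794], nat_lit 0, nat_lit 0, nat_lit 0, nat_lit 0, nat_lit 0, nat_lit 0, [], [nat_lit 52, nat_lit 40, nat_lit 20, nat_lit 80]⟩, ⟨p000_k13, nat_lit 0, nat_lit 0, nat_lit 0, nat_lit 0, nat_lit 3963, [nat_lit 243282000000, nat_lit 365449500000, nat_lit 487968000000, nat_lit 569842000000], [], [nat_lit 735763874640, nat_lit 738874410528, nat_lit 700083748368, nat_lit 703303884904], nat_lit 1271250, nat_lit 1271250, nat_lit 0, nat_lit 111251, nat_lit 0, nat_lit 0, [nat_lit 780000, nat_lit 1271250, nat_lit 1271250, nat_lit 1271250], [nat_lit 52, nat_lit 40, nat_lit 20, nat_lit 80]⟩,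
 zbF0, []⟩
noncomputable def p000_l77 : Lf2 := ⟨nat_lit 0, nat_lit 1, [nat_lit 19, nat_lit 5, nat_lit 5, nat_lit 20], false, nat_lit 0, nat_lit 0, nat_lit 0, nat_lit 0, ⟨nat_lit 1000, nat_lit 0, nat_lit 0, nat_lit 0, nat_lit 0, nat_lit 0, nat_lit 0, nat_lit 0, nat_lit 0, nat_lit 0, nat_lit 0, nat_lit 0, nat_lit 0, nat_lit 0, nat_lit 0, nat_lit 0, false, false⟩,
 nat_lit 0, nat_lit 0, nat_lit 16085, nat_lit 236359, nat_lit 48972, nat_lit 6116, nat_lit 60000, nat_lit 4107, nat_lit 0, nat_lit 0, nat_lit 0, nat_lit 0, nat_lit 0, nat_lit 0, nat_lit 0, nat_lit 0, nat_lit 0, nat_lit 0, [],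
 ⟨p000_k10, nat_lit 0, nat_lit 0, nat_lit 0, nat_lit 0, nat_lit 0, [nat_lit 52566000000, nat_lit 97443500000, nat_lit 115667500000], [], [nat_lit 120157721688, nat_lit 120513238517, nat_lit 105080907158, nat_lit 105471095795], nat_lit 0, nat_lit 0, nat_lit 0, nat_lit 0, nat_lit 0, nat_lit 0, [], [nat_lit 115, nat_lit 40, nat_lit 20, nat_lit 40]⟩, ⟨p000_k11, nat_lit 0, nat_lit 0, nat_lit 0, nat_lit 0, nat_lit 12313, [nat_lit 3282000000, nat_lit 7089500000, nat_lit 8885500000], [], [nat_lit 43547055832, nat_lit 41930988136, nat_lit 43563193360, nat_lit 42028383160], nat_lit 1271250, nat_lit 1271250, nat_lit 0, nat_lit 111251, nat_lit 0, nat_lit 0, [nat_lit 780000, nat_lit 1598750, nat_lit 1271250], [nat_lit 115, nat_lit 40, nat_lit 20, nat_lit 40]⟩,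
 zbF0, []⟩
noncomputable def p000_l78 : Lf2 := ⟨nat_lit 0, nat_lit 1, [nat_lit 19, nat_lit 5, nat_lit 5, nat_lit 20], false, nat_lit 0, nat_lit 0, nat_lit 0, nat_lit 0, ⟨nat_lit 1000, nat_lit 0, nat_lit 0, nat_lit 0, nat_lit 0, nat_lit 0, nat_lit 0, nat_lit 0, nat_lit 0, nat_lit 0, nat_lit 0, nat_lit 0, nat_lit 0, nat_lit 0, nat_lit 0, nat_lit 0, false, false⟩,
 nat_lit 0, nat_lit 0, nat_lit 16085, nat_lit 236322, nat_lit 55919, nat_lit 6116, nat_lit 60000, nat_lit 4756, nat_lit 0, nat_lit 0, nat_lit 0, nat_lit 0, nat_lit 0, nat_lit 0, nat_lit 0, nat_lit 0, nat_lit 0, nat_lit 0, [],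
 ⟨p000_k20, nat_lit 0, nat_lit 0, nat_lit 0, nat_lit 0, nat_lit 0, [nat_lit 60354000000, nat_lit 111721500000, nat_lit 132541500000], [], [nat_lit 136674876749, nat_lit 136873199673, nat_lit 119436697210, nat_lit 119665629350], nat_lit 0, nat_lit 0, nat_lit 0, nat_lit 0, nat_lit 0, nat_lit 0, [], [nat_lit 115, nat_lit 40, nat_lit 20, nat_lit 40]⟩, ⟨p000_k11, nat_lit 0, nat_lit 0, nat_lit 0, nat_lit 0, nat_lit 16489, [nat_lit 3282000000, nat_lit 7089500000, nat_lit 8885500000], [], [nat_lit 43547055832, nat_lit 41930988136, nat_lit 43563193360, nat_lit 42028383160], nat_lit 1271250, nat_lit 1271250, nat_lit 0, nat_lit 111251, nat_lit 0, nat_lit 0, [nat_lit 780000, nat_lit 1598750, nat_lit 1271250], [nat_lit 115, nat_lit 40, nat_lit 20, nat_lit 40]⟩,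
 zbF0, []⟩
noncomputable def p000_l79 : Lf2 := ⟨nat_lit 0, nat_lit 1, [nat_lit 19, nat_lit 5, nat_lit 5, nat_lit 20], false, nat_lit 0, nat_lit 0, nat_lit 0, nat_lit 0, ⟨nat_lit 1000, nat_lit 0, nat_lit 0, nat_lit 0, nat_lit 0, nat_lit 0, nat_lit 0, nat_lit 0, nat_lit 0, nat_lit 0, nat_lit 0, nat_lit 0, nat_lit 0, nat_lit 0, nat_lit 0, nat_lit 0, false, false⟩,
 nat_lit 0, nat_lit 0, nat_lit 16085, nat_lit 236559, nat_lit 59446, nat_lit 6116, nat_lit 60000, nat_lit 5085, nat_lit 0, nat_lit 0, nat_lit 0, nat_lit 0, nat_lit 0, nat_lit 0, nat_lit 0, nat_lit 0, nat_lit 0, nat_lit 0, [],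
 ⟨p000_k21, nat_lit 0, nat_lit 0, nat_lit 0, nat_lit 0, nat_lit 0, [nat_lit 64302000000, nat_lit 118959500001, nat_lit 141095500000], [], [nat_lit 145113516582, nat_lit 145322280131, nat_lit 126773600675, nat_lit 127015157878], nat_lit 0, nat_lit 0, nat_lit 0, nat_lit 0, nat_lit 0, nat_lit 0, [], [nat_lit 115, nat_lit 40, nat_lit 20, nat_lit 40]⟩, ⟨p000_k11, nat_lit 0, nat_lit 0, nat_lit 0, nat_lit 0, nat_lit 20664, [nat_lit 3282000000, nat_lit 7089500000, nat_lit 8885500000], [], [nat_lit 43547055832, nat_lit 41930988136, nat_lit 43563193360, nat_lit 42028383160], nat_lit 1271250, nat_lit 1271250, nat_lit 0, nat_lit 111251, nat_lit 0, nat_lit 0, [nat_lit 780000, nat_lit 1598750, nat_lit 1271250], [nat_lit 115, nat_lit 40, nat_lit 20, nat_lit 40]⟩,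
 zbF0, []⟩
noncomputable def p000_l80 : Lf2 := ⟨nat_lit 0, nat_lit 1, [nat_lit 19, nat_lit 5, nat_lit 5, nat_lit 20], false, nat_lit 0, nat_lit 0, nat_lit 0, nat_lit 0, ⟨nat_lit 1000, nat_lit 0, nat_lit 0, nat_lit 0, nat_lit 0, nat_lit 0, nat_lit 0, nat_lit 0, nat_lit 0, nat_lit 0, nat_lit 0, nat_lit 0, nat_lit 0, nat_lit 0, nat_lit 0, nat_lit 0, false, false⟩,
 nat_lit 0, nat_lit 0, nat_lit 16085, nat_lit 236796, nat_lit 62718, nat_lit 6116, nat_lit 60000, nat_lit 5391, nat_lit 0, nat_lit 0, nat_lit 0, nat_lit 0, nat_lit 0, nat_lit 0, nat_lit 0, nat_lit 0, nat_lit 0, nat_lit 0, [],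
 ⟨p000_k22, nat_lit 0, nat_lit 0, nat_lit 0, nat_lit 0, nat_lit 0, [nat_lit 67974000001, nat_lit 125691500000, nat_lit 149051500000], [], [nat_lit 153008232117, nat_lit 153227515537, nat_lit 133657285784, nat_lit 133907495961], nat_lit 0, nat_lit 0, nat_lit 0, nat_lit 0, nat_lit 0, nat_lit 0, [], [nat_lit 115, nat_lit 40, nat_lit 20, nat_lit 40]⟩, ⟨p000_k11, nat_lit 0, nat_lit 0, nat_lit 0, nat_lit 0, nat_lit 24839, [nat_lit 3282000000, nat_lit 7089500000, nat_lit 8885500000], [], [nat_lit 43547055832, nat_lit 41930988136, nat_lit 43563193360, nat_lit 42028383160], nat_lit 1271250, nat_lit 1271250, nat_lit 0, nat_lit 111251, nat_lit 0, nat_lit 0, [nat_lit 780000, nat_lit 1598750, nat_lit 1271250], [nat_lit 115, nat_lit 40, nat_lit 20, nat_lit 40]⟩,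
 zbF0, []⟩
noncomputable def p000_l81 : Lf2 := ⟨nat_lit 1, nat_lit 1, [nat_lit 19, nat_lit 5, nat_lit 5, nat_lit 20], false, nat_lit 0, nat_lit 0, nat_lit 0, nat_lit 0, zbN0,
 nat_lit 0, nat_lit 0, nat_lit 0, nat_lit 0, nat_lit 0, nat_lit 0, nat_lit 0, nat_lit 0, nat_lit 0, nat_lit 0, nat_lit 0, nat_lit 0, nat_lit 0, nat_lit 0, nat_lit 0, nat_lit 0, nat_lit 0, nat_lit 0, [],
 C1.Rw.none, C1.Rw.none,
 zbF0, []⟩
noncomputable def p000_l82 : Lf2 := ⟨nat_lit 0, nat_lit 1, [nat_lit 19, nat_lit 5, nat_lit 5, nat_lit 20], false, nat_lit 0, nat_lit 0, nat_lit 0, nat_lit 0, ⟨nat_lit 1000, nat_lit 0, nat_lit 0, nat_lit 0, nat_lit 0, nat_lit 0, nat_lit 0, nat_lit 0, nat_lit 0, nat_lit 0, nat_lit 0, nat_lit 0, nat_lit 0, nat_lit 0, nat_lit 0, nat_lit 0, false, false⟩,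
 nat_lit 0, nat_lit 0, nat_lit 10453, nat_lit 40187, nat_lit 4024, nat_lit 4099, nat_lit 0, nat_lit 0, nat_lit 0, nat_lit 11806, nat_lit 0, nat_lit 0, nat_lit 0, nat_lit 0, nat_lit 0, nat_lit 0, nat_lit 0, nat_lit 0, [],
 ⟨p000_k8, nat_lit 0, nat_lit 0, nat_lit 0, nat_lit 0, nat_lit 0, [nat_lit 3282000000, nat_lit 7089500001, nat_lit 8885500000], [], [nat_lit 7753466056, nat_lit 8030869420, nat_lit 7285987932, nat_lit 7587295464], nat_lit 0, nat_lit 0, nat_lit 0, nat_lit 0, nat_lit 0, nat_lit 0, [], [nat_lit 115, nat_lit 40, nat_lit 20, nat_lit 40]⟩, ⟨p000_k23, nat_lit 0, nat_lit 0, nat_lit 0, nat_lit 0, nat_lit 3827, [nat_lit 3282000000, nat_lit 7089500000, nat_lit 8885500000], [], [nat_lit 38843416146, nat_lit 38308260518, nat_lit 37976760696, nat_lit 38102702991], nat_lit 1271250, nat_lit 1271250, nat_lit 111251, nat_lit 181601, nat_lit 0, nat_lit 0, [nat_lit 780000, nat_lit 1598750, nat_lit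 1271250], [nat_lit 115, nat_lit 40, nat_lit 20, nat_lit 40]⟩,
 zbF0, []⟩
noncomputable def p000_l83 : Lf2 := ⟨nat_lit 0, nat_lit 1, [nat_lit 19, nat_lit 5, nat_lit 5, nat_lit 20], false, nat_lit 0, nat_lit 0, nat_lit 0, nat_lit 0, ⟨nat_lit 1000, nat_lit 0, nat_lit 0, nat_lit 0, nat_lit 0, nat_lit 0, nat_lit 0, nat_lit 0, nat_lit 0, nat_lit 0, nat_lit 0, nat_lit 0, nat_lit 0, nat_lit 0, nat_lit 0, nat_lit 0, false, false⟩,
 nat_lit 0, nat_lit 0, nat_lit 300000, nat_lit 0, nat_lit 4041, nat_lit 114084, nat_lit 11233, nat_lit 0, nat_lit 0, nat_lit 60000, nat_lit 20000, nat_lit 0, nat_lit 0, nat_lit 0, nat_lit 0, nat_lit 0, nat_lit 0, nat_lit 0, [],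
 ⟨p000_k12, nat_lit 0, nat_lit 0, nat_lit 0, nat_lit 0, nat_lit 0, [nat_lit 3282000000, nat_lit 5449500000, nat_lit 7968000001, nat_lit 9842000000], [], [nat_lit 8044982192, nat_lit 8322085220, nat_lit 7575625504, nat_lit 7877424217], nat_lit 0, nat_lit 0, nat_lit 0, nat_lit 0, nat_lit 0, nat_lit 0, [], [nat_lit 52, nat_lit 40, nat_lit 20, nat_lit 80]⟩, ⟨p000_k13, nat_lit 0, nat_lit 0, nat_lit 0, nat_lit 0, nat_lit 24839, [nat_lit 243282000000, nat_lit 365449500000, nat_lit 487968000000, nat_lit 569842000000], [], [nat_lit 700083748368, nat_lit 703303884904, nat_lit 685571500167, nat_lit 688811705527], nat_lit 1271250, nat_lit 1271250, nat_lit 111251, nat_lit 181601, nat_lit 0, nat_lit 0, [nat_lit 780000, nat_lit 1271250, nat_lit 1271250, nat_lit 1271250], [nat_lit 52, nat_lit 40, nat_lit 20, nat_lit 80]⟩,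
 zbF0, []⟩
noncomputable def p000_l84 : Lf2 := ⟨nat_lit 3, nat_lit 1, [nat_lit 19, nat_lit 5, nat_lit 5, nat_lit 20], false, nat_lit 0, nat_lit 0, nat_lit 0, nat_lit 0, zbN0,
 nat_lit 0, nat_lit 0, nat_lit 0, nat_lit 0, nat_lit 0, nat_lit 0, nat_lit 0, nat_lit 0, nat_lit 0, nat_lit 0, nat_lit 0, nat_lit 0, nat_lit 0, nat_lit 0, nat_lit 0, nat_lit 0, nat_lit 0, nat_lit 0, [],
 C1.Rw.none, ⟨p000_k13, nat_lit 0, nat_lit 0, nat_lit 0, nat_lit 0, nat_lit 24839, [], [], [], nat_lit 1271250, nat_lit 1271250, nat_lit 111251, nat_lit 181601, nat_lit 0, nat_lit 0, [nat_lit 780000, nat_lit 1271250, nat_lit 1271250, nat_lit 1271250], [nat_lit 52, nat_lit 40, nat_lit 20, nat_lit 80]⟩,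
 zbF0, []⟩
noncomputable def p000_l85 : Lf2 := ⟨nat_lit 0, nat_lit 1, [nat_lit 19, nat_lit 5, nat_lit 5, nat_lit 20], false, nat_lit 0, nat_lit 0, nat_lit 0, nat_lit 0, ⟨nat_lit 1000, nat_lit 0, nat_lit 0, nat_lit 0, nat_lit 0, nat_lit 0, nat_lit 0, nat_lit 0, nat_lit 0, nat_lit 0, nat_lit 0, nat_lit 0, nat_lit 0, nat_lit 0, nat_lit 0, nat_lit 0, false, false⟩,
 nat_lit 0, nat_lit 0, nat_lit 35475, nat_lit 64403, nat_lit 174138, nat_lit 13490, nat_lit 0, nat_lit 20000, nat_lit 0, nat_lit 23526, nat_lit 0, nat_lit 0, nat_lit 0, nat_lit 0, nat_lit 0, nat_lit 0, nat_lit 0, nat_lit 0, [],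
 ⟨p000_k10, nat_lit 0, nat_lit 0, nat_lit 0, nat_lit 0, nat_lit 0, [nat_lit 243282000000, nat_lit 447089500000, nat_lit 528885500000], [], [nat_lit 159977663756, nat_lit 164025413960, nat_lit 130809444089, nat_lit 136025855423], nat_lit 0, nat_lit 0, nat_lit 0, nat_lit 0, nat_lit 0, nat_lit 0, [], [nat_lit 115, nat_lit 40, nat_lit 20, nat_lit 40]⟩, ⟨p000_k11, nat_lit 0, nat_lit 0, nat_lit 0, nat_lit 0, nat_lit 24839, [nat_lit 3282000000, nat_lit 7089500000, nat_lit 8885500000], [], [nat_lit 43780431400, nat_lit 40395115900, nat_lit 43809476668, nat_lit 40438787026], nat_lit 1271250, nat_lit 1271250, nat_lit 111251, nat_lit 181601, nat_lit 0, nat_lit 0, [nat_lit 780000, nat_lit 1598750, nat_lit 1271250], [nat_lit 115, nat_lit 40, nat_lit 20, nat_lit 40]⟩,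
 zbF0, []⟩
noncomputable def p000_l86 : Lf2 := ⟨nat_lit 0, nat_lit 1, [nat_lit 19, nat_lit 5, nat_lit 5, nat_lit 20], false, nat_lit 0, nat_lit 0, nat_lit 0, nat_lit 0, ⟨nat_lit 1000, nat_lit 0, nat_lit 0, nat_lit 0, nat_lit 0, nat_lit 0, nat_lit 0, nat_lit 0, nat_lit 0, nat_lit 0, nat_lit 0, nat_lit 0, nat_lit 0, nat_lit 0, nat_lit 0, nat_lit 0, false, false⟩,
 nat_lit 0, nat_lit 0, nat_lit 300000, nat_lit 0, nat_lit 5506, nat_lit 114084, nat_lit 11233, nat_lit 0, nat_lit 0, nat_lit 60000, nat_lit 20000, nat_lit 0, nat_lit 0, nat_lit 0, nat_lit 0, nat_lit 0, nat_lit 0, nat_lit 0, [],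
 ⟨p000_k14, nat_lit 0, nat_lit 0, nat_lit 0, nat_lit 0, nat_lit 0, [nat_lit 3282000000, nat_lit 5449500000, nat_lit 7968000001, nat_lit 9842000000], [], [nat_lit 18849098241, nat_lit 19370741553, nat_lit 18370379722, nat_lit 18891301838], nat_lit 0, nat_lit 0, nat_lit 0, nat_lit 0, nat_lit 0, nat_lit 0, [], [nat_lit 52, nat_lit 40, nat_lit 20, nat_lit 80]⟩, ⟨p000_k13, nat_lit 0, nat_lit 0, nat_lit 0, nat_lit 0, nat_lit 24839, [nat_lit 243282000000, nat_lit 365449500000, nat_lit 487968000000, nat_lit 569842000000], [], [nat_lit 700083748368, nat_lit 703303884904, nat_lit 685571500167, nat_lit 688811705527], nat_lit 1271250, nat_lit 1271250, nat_lit 111251, nat_lit 181601, nat_lit 0, nat_lit 0, [nat_lit 780000, nat_lit 1271250, nat_lit 1271250, nat_lit 1271250], [nat_lit 52, nat_lit 40, nat_lit 20, nat_lit 80]⟩,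
 zbF0, []⟩
noncomputable def p000_l87 : Lf2 := ⟨nat_lit 0, nat_lit 1, [nat_lit 19, nat_lit 5, nat_lit 5, nat_lit 20], false, nat_lit 0, nat_lit 0, nat_lit 0, nat_lit 0, ⟨nat_lit 1000, nat_lit 0, nat_lit 0, nat_lit 0, nat_lit 0, nat_lit 0, nat_lit 0, nat_lit 0, nat_lit 0, nat_lit 0, nat_lit 0, nat_lit 0, nat_lit 0, nat_lit 0, nat_lit 0, nat_lit 0, false, false⟩,
 nat_lit 0, nat_lit 0, nat_lit 36422, nat_lit 216459, nat_lit 232127, nat_lit 13850, nat_lit 60000, nat_lit 20000, nat_lit 0, nat_lit 0, nat_lit 0, nat_lit 0, nat_lit 0, nat_lit 0, nat_lit 0, nat_lit 0, nat_lit 0, nat_lit 0, [],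
 ⟨p000_k8, nat_lit 0, nat_lit 0, nat_lit 0, nat_lit 0, nat_lit 0, [nat_lit 243282000000, nat_lit 447089500000, nat_lit 528885500000], [], [nat_lit 563200745387, nat_lit 570753750644, nat_lit 533951740335, nat_lit 541535560518], nat_lit 0, nat_lit 0, nat_lit 0, nat_lit 0, nat_lit 0, nat_lit 0, [], [nat_lit 115, nat_lit 40, nat_lit 20, nat_lit 40]⟩, ⟨p000_k11, nat_lit 0, nat_lit 0, nat_lit 0, nat_lit 0, nat_lit 24839, [nat_lit 3282000000, nat_lit 7089500000, nat_lit 8885500000], [], [nat_lit 43948850600, nat_lit 40315379500, nat_lit 43813347820, nat_lit 40352706490], nat_lit 1271250, nat_lit 1271250, nat_lit 111251, nat_lit 181601, nat_lit 0, nat_lit 0, [nat_lit 780000, nat_lit 1598750, nat_lit 1271250], [nat_lit 115, nat_lit 40, nat_lit 20, nat_lit 40]⟩,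
 zbF0, []⟩
noncomputable def p000_l88 : Lf2 := ⟨nat_lit 0, nat_lit 1, [nat_lit 19, nat_lit 5, nat_lit 5, nat_lit 20], false, nat_lit 0, nat_lit 0, nat_lit 0, nat_lit 0, ⟨nat_lit 1000, nat_lit 0, nat_lit 0, nat_lit 0, nat_lit 0, nat_lit 0, nat_lit 0, nat_lit 0, nat_lit 0, nat_lit 0, nat_lit 0, nat_lit 0, nat_lit 0, nat_lit 0, nat_lit 0, nat_lit 0, false, false⟩,
 nat_lit 0, nat_lit 0, nat_lit 300000, nat_lit 0, nat_lit 17797, nat_lit 114084, nat_lit 11233, nat_lit 0, nat_lit 0, nat_lit 60000, nat_lit 20000, nat_lit 0, nat_lit 0, nat_lit 0, nat_lit 0, nat_lit 0, nat_lit 0, nat_lit 0, [],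
 ⟨p000_k14, nat_lit 0, nat_lit 0, nat_lit 0, nat_lit 0, nat_lit 0, [nat_lit 3282000000, nat_lit 5449500000, nat_lit 7968000001, nat_lit 9842000000], [], [nat_lit 16245598526, nat_lit 17248248195, nat_lit 14543943967, nat_lit 15552429425], nat_lit 0, nat_lit 0, nat_lit 0, nat_lit 0, nat_lit 0, nat_lit 0, [], [nat_lit 52, nat_lit 40, nat_lit 20, nat_lit 80]⟩, ⟨p000_k13, nat_lit 0, nat_lit 0, nat_lit 0, nat_lit 0, nat_lit 24839, [nat_lit 243282000000, nat_lit 365449500000, nat_lit 487968000000, nat_lit 569842000000], [], [nat_lit 685571500167, nat_lit 688811705527, nat_lit 675896668032, nat_lit 679150252608], nat_lit 1271250, nat_lit 1271250, nat_lit 181601, nat_lit 230001, nat_lit 0, nat_lit 0, [nat_lit 780000, nat_lit 1271250, nat_lit 1271250, nat_lit 1271250], [nat_lit 52, nat_lit 40, nat_lit 20, nat_lit 80]⟩,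
 zbF0, []⟩
noncomputable def b_NL_450_450_0_2 : St := ⟨false, nat_lit 0, nat_lit 1, nat_lit 1, nat_lit 20, nat_lit 190, nat_lit 200, nat_lit 180, nat_lit 190, nat_lit 0, nat_lit 40, nat_lit 0, nat_lit 0, nat_lit 0, nat_lit 0, nat_lit 0, nat_lit 0, nat_lit 0, nat_lit 4, nat_lit 0, nat_lit 600, nat_lit 400, nat_lit 800⟩
theorem d_NL_450_450_0_2 (h : EB TB.env) : Dead b_NL_450_450_0_2 := chkB_sound0 h (T :=
(.spl (nat_lit 2) (nat_lit 20)
(.spl (nat_lit 7) (nat_lit 300)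
(.spl (nat_lit 7) (nat_lit 160)
(.spl (nat_lit 1) (nat_lit 185)
(.leaf p000_l27)
(.leaf p000_l28))
(.spl (nat_lit 2) (nat_lit 8)
(.spl (nat_lit 8) (nat_lit 600)
(.spl (nat_lit 8) (nat_lit 500)
(.spl (nat_lit 0) (nat_lit 195)
(.leaf p000_l29)
(.spl (nat_lit 8) (nat_lit 460)
(.leaf p000_l30)
(.leaf p000_l31)))
(.spl (nat_lit 0) (nat_lit 195)
(.leaf p000_l32)
(.spl (nat_lit 8) (nat_lit 560)
(.spl (nat_lit 7) (nat_lit 240)
(.spl (nat_lit 1) (nat_lit 185)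
(.leaf p000_l33)
(.leaf p000_l34))
(.spl (nat_lit 1) (nat_lit 185)
(.leaf p000_l35)
(.leaf p000_l36)))
(.spl (nat_lit 2) (nat_lit 4)
(.spl (nat_lit 0) (nat_lit 198)
(.spl (nat_lit 1) (nat_lit 185)
(.leaf p000_l37)
(.leaf p000_l38))
(.spl (nat_lit 8) (nat_lit 580)
(.spl (nat_lit 1) (nat_lit 185)
(.leaf p000_l39)
(.leaf p000_l40))
(.spl (nat_lit 1) (nat_lit 185)
(.leaf p000_l41)
(.leaf p000_l42))))
(.spl (nat_lit 0) (nat_lit 198)
(.leaf p000_l43)
(.spl (nat_lit 8) (nat_lit 580)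
(.spl (nat_lit 1) (nat_lit 185)
(.leaf p000_l44)
(.leaf p000_l45))
(.spl (nat_lit 1) (nat_lit 185)
(.leaf p000_l46)
(.leaf p000_l47))))))))
(.spl (nat_lit 8) (nat_lit 700)
(.spl (nat_lit 0) (nat_lit 195)
(.leaf p000_l48)
(.spl (nat_lit 2) (nat_lit 4)
(.spl (nat_lit 0) (nat_lit 198)
(.spl (nat_lit 1) (nat_lit 185)
(.leaf p000_l49)
(.leaf p000_l50))
(.spl (nat_lit 1) (nat_lit 185)
(.leaf p000_l51)
(.leaf p000_l52)))
(.spl (nat_lit 0) (nat_lit 198)
(.leaf p000_l53)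
(.spl (nat_lit 1) (nat_lit 185)
(.leaf p000_l54)
(.leaf p000_l55)))))
(.leaf p000_l56)))
(.spl (nat_lit 2) (nat_lit 16)
(.spl (nat_lit 0) (nat_lit 195)
(.leaf p000_l57)
(.spl (nat_lit 8) (nat_lit 600)
(.spl (nat_lit 8) (nat_lit 500)
(.spl (nat_lit 8) (nat_lit 460)
(.leaf p000_l58)
(.leaf p000_l59))
(.spl (nat_lit 8) (nat_lit 560)
(.spl (nat_lit 7) (nat_lit 240)
(.spl (nat_lit 1) (nat_lit 185)
(.leaf p000_l60)
(.leaf p000_l61))
(.spl (nat_lit 1) (nat_lit 185)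
(.leaf p000_l62)
(.leaf p000_l63)))
(.spl (nat_lit 2) (nat_lit 12)
(.spl (nat_lit 0) (nat_lit 198)
(.leaf p000_l64)
(.spl (nat_lit 8) (nat_lit 580)
(.spl (nat_lit 1) (nat_lit 185)
(.leaf p000_l65)
(.leaf p000_l66))
(.spl (nat_lit 1) (nat_lit 185)
(.leaf p000_l67)
(.leaf p000_l68))))
(.leaf p000_l69))))
(.spl (nat_lit 8) (nat_lit 700)
(.spl (nat_lit 2) (nat_lit 12)
(.spl (nat_lit 0) (nat_lit 198)
(.leaf p000_l70)
(.spl (nat_lit 1) (nat_lit 185)
(.leaf p000_l71)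
(.leaf p000_l72)))
(.leaf p000_l73))
(.leaf p000_l74))))
(.leaf p000_l75))))
(.spl (nat_lit 0) (nat_lit 195)
(.leaf p000_l76)
(.spl (nat_lit 0) (nat_lit 198)
(.spl (nat_lit 0) (nat_lit 197)
(.leaf p000_l77)
(.leaf p000_l78))
(.spl (nat_lit 0) (nat_lit 199)
(.leaf p000_l79)
(.leaf p000_l80)))))
(.spl (nat_lit 2) (nat_lit 32)
(.spl (nat_lit 7) (nat_lit 300)
(.spl (nat_lit 7) (nat_lit 160)
(.spl (nat_lit 0) (nat_lit 195)
(.spl (nat_lit 1) (nat_lit 185)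
(.leaf p000_l81)
(.leaf p000_l82))
(.spl (nat_lit 7) (nat_lit 80)
(.spl (nat_lit 8) (nat_lit 600)
(.leaf p000_l83)
(.leaf p000_l84))
(.leaf p000_l85)))
(.leaf p000_l86))
(.leaf p000_l87))
(.leaf p000_l88)))) (by decide +kernel)
noncomputable def p000_l89 : Lf2 := ⟨nat_lit 0, nat_lit 1, [nat_lit 19, nat_lit 5, nat_lit 5, nat_lit 20], false, nat_lit 0, nat_lit 0, nat_lit 0, nat_lit 0, ⟨nat_lit 1000, nat_lit 0, nat_lit 0, nat_lit 0, nat_lit 0, nat_lit 0, nat_lit 0, nat_lit 0, nat_lit 0, nat_lit 0, nat_lit 0, nat_lit 0, nat_lit 0, nat_lit 0, nat_lit 0, nat_lit 0, false, false⟩,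
 nat_lit 0, nat_lit 0, nat_lit 12765, nat_lit 26612, nat_lit 5160, nat_lit 5160, nat_lit 4552, nat_lit 0, nat_lit 0, nat_lit 4552, nat_lit 0, nat_lit 0, nat_lit 0, nat_lit 0, nat_lit 0, nat_lit 0, nat_lit 0, nat_lit 0, [],
 ⟨p000_k14, nat_lit 0, nat_lit 0, nat_lit 0, nat_lit 0, nat_lit 0, [nat_lit 3282000000, nat_lit 5449500000, nat_lit 7968000001, nat_lit 9842000000], [], [nat_lit 20599423960, nat_lit 20820317081, nat_lit 17991705761, nat_lit 18239670321], nat_lit 0, nat_lit 0, nat_lit 0, nat_lit 0, nat_lit 0, nat_lit 0, [], [nat_lit 52, nat_lit 40, nat_lit 20, nat_lit 80]⟩, ⟨p000_k14, nat_lit 0, nat_lit 0, nat_lit 0, nat_lit 0, nat_lit 21643, [nat_lit 3282000000, nat_lit 5449500000, nat_lit 7968000000, nat_lit 9842000000], [], [nat_lit 20599423960, nat_lit 20820317080, nat_lit 17991705760, nat_lit 18239670320], nat_lit 1271250, nat_lit 1271250, nat_lit 0, nat_lit 490000, nat_lit 0, nat_lit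 0, [nat_lit 780000, nat_lit 1271250, nat_lit 1271250, nat_lit 1271250], [nat_lit 52, nat_lit 40, nat_lit 20, nat_lit 80]⟩,
 zbF0, []⟩
noncomputable def p000_l90 : Lf2 := ⟨nat_lit 0, nat_lit 1, [nat_lit 19, nat_lit 5, nat_lit 5, nat_lit 20], false, nat_lit 0, nat_lit 0, nat_lit 0, nat_lit 0, ⟨nat_lit 1000, nat_lit 0, nat_lit 0, nat_lit 0, nat_lit 0, nat_lit 0, nat_lit 0, nat_lit 0, nat_lit 0, nat_lit 0, nat_lit 0, nat_lit 0, nat_lit 0, nat_lit 0, nat_lit 0, nat_lit 0, false, false⟩,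
 nat_lit 0, nat_lit 0, nat_lit 12750, nat_lit 7848, nat_lit 5154, nat_lit 5154, nat_lit 3868, nat_lit 0, nat_lit 0, nat_lit 4518, nat_lit 0, nat_lit 0, nat_lit 0, nat_lit 0, nat_lit 0, nat_lit 0, nat_lit 0, nat_lit 0, [],
 ⟨p000_k12, nat_lit 0, nat_lit 0, nat_lit 0, nat_lit 0, nat_lit 0, [nat_lit 3282000000, nat_lit 5449500000, nat_lit 7968000001, nat_lit 9842000000], [], [nat_lit 20857419295, nat_lit 21077359913, nat_lit 20282420753, nat_lit 20535851616], nat_lit 0, nat_lit 0, nat_lit 0, nat_lit 0, nat_lit 0, nat_lit 0, [], [nat_lit 52, nat_lit 40, nat_lit 20, nat_lit 80]⟩, ⟨p000_k14, nat_lit 0, nat_lit 0, nat_lit 0, nat_lit 0, nat_lit 60577, [nat_lit 3282000000, nat_lit 5449500000, nat_lit 7968000000, nat_lit 9842000000], [], [nat_lit 20636986324, nat_lit 21077359912, nat_lit 20028989890, nat_lit 20535851615], nat_lit 1271250, nat_lit 1271250, nat_lit 0, nat_lit 43600, nat_lit 0, nat_lit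 0, [nat_lit 780000, nat_lit 1271250, nat_lit 1271250, nat_lit 1271250], [nat_lit 52, nat_lit 40, nat_lit 20, nat_lit 80]⟩,
 zbF0, []⟩
noncomputable def p000_l91 : Lf2 := ⟨nat_lit 0, nat_lit 1, [nat_lit 19, nat_lit 5, nat_lit 5, nat_lit 20], false, nat_lit 0, nat_lit 0, nat_lit 0, nat_lit 0, ⟨nat_lit 1000, nat_lit 0, nat_lit 0, nat_lit 0, nat_lit 0, nat_lit 0, nat_lit 0, nat_lit 0, nat_lit 0, nat_lit 0, nat_lit 0, nat_lit 0, nat_lit 0, nat_lit 0, nat_lit 0, nat_lit 0, false, false⟩,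
 nat_lit 0, nat_lit 0, nat_lit 300000, nat_lit 0, nat_lit 5154, nat_lit 121276, nat_lit 11352, nat_lit 0, nat_lit 0, nat_lit 60000, nat_lit 20000, nat_lit 0, nat_lit 0, nat_lit 0, nat_lit 0, nat_lit 0, nat_lit 0, nat_lit 0, [],
 ⟨p000_k12, nat_lit 0, nat_lit 0, nat_lit 0, nat_lit 0, nat_lit 0, [nat_lit 3282000000, nat_lit 5449500000, nat_lit 7968000001, nat_lit 9842000000], [], [nat_lit 20824567478, nat_lit 21077359913, nat_lit 20282420753, nat_lit 20535851616], nat_lit 0, nat_lit 0, nat_lit 0, nat_lit 0, nat_lit 0, nat_lit 0, [], [nat_lit 52, nat_lit 40, nat_lit 20, nat_lit 80]⟩, ⟨p000_k14, nat_lit 0, nat_lit 0, nat_lit 0, nat_lit 0, nat_lit 34038, [nat_lit 243282000000, nat_lit 365449500000, nat_lit 487968000000, nat_lit 569842000000], [], [nat_lit 711481144592, nat_lit 712467343482, nat_lit 696349803258, nat_lit 697349993100], nat_lit 1271250, nat_lit 1271250, nat_lit 0, nat_lit 43600,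 nat_lit 0, nat_lit 0, [nat_lit 780000, nat_lit 1271250, nat_lit 1271250, nat_lit 1271250], [nat_lit 52, nat_lit 40, nat_lit 20, nat_lit 80]⟩,
 zbF0, []⟩
noncomputable def p000_l92 : Lf2 := ⟨nat_lit 0, nat_lit 1, [nat_lit 19, nat_lit 5, nat_lit 5, nat_lit 20], false, nat_lit 0, nat_lit 0, nat_lit 0, nat_lit 0, ⟨nat_lit 1000, nat_lit 0, nat_lit 0, nat_lit 0, nat_lit 0, nat_lit 0, nat_lit 0, nat_lit 0, nat_lit 0, nat_lit 0, nat_lit 0, nat_lit 0, nat_lit 0, nat_lit 0, nat_lit 0, nat_lit 0, false, false⟩,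
 nat_lit 0, nat_lit 0, nat_lit 300000, nat_lit 0, nat_lit 5154, nat_lit 123454, nat_lit 11459, nat_lit 0, nat_lit 0, nat_lit 60000, nat_lit 20000, nat_lit 0, nat_lit 0, nat_lit 0, nat_lit 0, nat_lit 0, nat_lit 0, nat_lit 0, [],
 ⟨p000_k12, nat_lit 0, nat_lit 0, nat_lit 0, nat_lit 0, nat_lit 0, [nat_lit 3282000000, nat_lit 5449500000, nat_lit 7968000001, nat_lit 9842000000], [], [nat_lit 20824567478, nat_lit 21077359913, nat_lit 20282420753, nat_lit 20535851616], nat_lit 0, nat_lit 0, nat_lit 0, nat_lit 0, nat_lit 0, nat_lit 0, [], [nat_lit 52, nat_lit 40, nat_lit 20, nat_lit 80]⟩, ⟨p000_k24, nat_lit 0, nat_lit 0, nat_lit 0, nat_lit 0, nat_lit 36988, [nat_lit 243282000000, nat_lit 365449500000, nat_lit 487968000000, nat_lit 569842000000], [], [nat_lit 704239709837, nat_lit 704573796760, nat_lit 688849112454, nat_lit 689187947708], nat_lit 1271250, nat_lit 1271250, nat_lit 0, nat_lit 43600,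 nat_lit 0, nat_lit 0, [nat_lit 780000, nat_lit 1271250, nat_lit 1271250, nat_lit 1271250], [nat_lit 52, nat_lit 40, nat_lit 20, nat_lit 80]⟩,
 zbF0, []⟩
noncomputable def p000_l93 : Lf2 := ⟨nat_lit 0, nat_lit 1, [nat_lit 19, nat_lit 5, nat_lit 5, nat_lit 20], false, nat_lit 0, nat_lit 0, nat_lit 0, nat_lit 0, ⟨nat_lit 1000, nat_lit 0, nat_lit 0, nat_lit 0, nat_lit 0, nat_lit 0, nat_lit 0, nat_lit 0, nat_lit 0, nat_lit 0, nat_lit 0, nat_lit 0, nat_lit 0, nat_lit 0, nat_lit 0, nat_lit 0, false, false⟩,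
 nat_lit 0, nat_lit 0, nat_lit 300000, nat_lit 0, nat_lit 5156, nat_lit 124182, nat_lit 3880, nat_lit 0, nat_lit 0, nat_lit 60000, nat_lit 20000, nat_lit 0, nat_lit 0, nat_lit 0, nat_lit 0, nat_lit 0, nat_lit 0, nat_lit 0, [],
 ⟨p000_k12, nat_lit 0, nat_lit 0, nat_lit 0, nat_lit 0, nat_lit 0, [nat_lit 3282000000, nat_lit 5449500000, nat_lit 7968000001, nat_lit 9842000000], [], [nat_lit 20841578130, nat_lit 20974847533, nat_lit 20280754127, nat_lit 20432834253], nat_lit 0, nat_lit 0, nat_lit 0, nat_lit 0, nat_lit 0, nat_lit 0, [], [nat_lit 52, nat_lit 40, nat_lit 20, nat_lit 80]⟩, ⟨p000_k25, nat_lit 0, nat_lit 0, nat_lit 0, nat_lit 0, nat_lit 32550, [nat_lit 243282000000, nat_lit 365449500000, nat_lit 487968000000, nat_lit 569842000000], [], [nat_lit 701894873614, nat_lit 702230750106, nat_lit 686417719618, nat_lit 686758372746], nat_lit 1271250, nat_lit 1271250, nat_lit 0, nat_lit 43600,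 nat_lit 0, nat_lit 0, [nat_lit 780000, nat_lit 1271250, nat_lit 1271250, nat_lit 1271250], [nat_lit 52, nat_lit 40, nat_lit 20, nat_lit 80]⟩,
 zbF0, []⟩
noncomputable def p000_l94 : Lf2 := ⟨nat_lit 0, nat_lit 1, [nat_lit 19, nat_lit 5, nat_lit 5, nat_lit 20], false, nat_lit 0, nat_lit 0, nat_lit 0, nat_lit 0, ⟨nat_lit 1000, nat_lit 0, nat_lit 0, nat_lit 0, nat_lit 0, nat_lit 0, nat_lit 0, nat_lit 0, nat_lit 0, nat_lit 0, nat_lit 0, nat_lit 0, nat_lit 0, nat_lit 0, nat_lit 0, nat_lit 0, false, false⟩,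
 nat_lit 0, nat_lit 0, nat_lit 300000, nat_lit 0, nat_lit 5155, nat_lit 124182, nat_lit 3568, nat_lit 0, nat_lit 0, nat_lit 60000, nat_lit 20000, nat_lit 0, nat_lit 0, nat_lit 0, nat_lit 0, nat_lit 0, nat_lit 0, nat_lit 0, [],
 ⟨p000_k26, nat_lit 0, nat_lit 0, nat_lit 0, nat_lit 0, nat_lit 0, [nat_lit 3282000000, nat_lit 5449500000, nat_lit 7968000001, nat_lit 9842000000], [], [nat_lit 20981014257, nat_lit 21026107289, nat_lit 20433656762, nat_lit 20484346536], nat_lit 0, nat_lit 0, nat_lit 0, nat_lit 0, nat_lit 0, nat_lit 0, [], [nat_lit 52, nat_lit 40, nat_lit 20, nat_lit 80]⟩, ⟨p000_k25, nat_lit 0, nat_lit 0, nat_lit 0, nat_lit 0, nat_lit 36429, [nat_lit 243282000000, nat_lit 365449500000, nat_lit 487968000000, nat_lit 569842000000], [], [nat_lit 701894873614, nat_lit 702230750106, nat_lit 686417719618, nat_lit 686758372746], nat_lit 1271250, nat_lit 1271250, nat_lit 0, nat_lit 43600,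 nat_lit 0, nat_lit 0, [nat_lit 780000, nat_lit 1271250, nat_lit 1271250, nat_lit 1271250], [nat_lit 52, nat_lit 40, nat_lit 20, nat_lit 80]⟩,
 zbF0, []⟩
noncomputable def p000_l95 : Lf2 := ⟨nat_lit 3, nat_lit 1, [nat_lit 19, nat_lit 5, nat_lit 5, nat_lit 20], false, nat_lit 0, nat_lit 0, nat_lit 0, nat_lit 0, zbN0,
 nat_lit 0, nat_lit 0, nat_lit 0, nat_lit 0, nat_lit 0, nat_lit 0, nat_lit 0, nat_lit 0, nat_lit 0, nat_lit 0, nat_lit 0, nat_lit 0, nat_lit 0, nat_lit 0, nat_lit 0, nat_lit 0, nat_lit 0, nat_lit 0, [],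
 C1.Rw.none, ⟨p000_k27, nat_lit 0, nat_lit 0, nat_lit 0, nat_lit 0, nat_lit 40307, [], [], [], nat_lit 1271250, nat_lit 1271250, nat_lit 0, nat_lit 21650, nat_lit 0, nat_lit 0, [nat_lit 780000, nat_lit 1598750, nat_lit 1271250], [nat_lit 115, nat_lit 40, nat_lit 20, nat_lit 40]⟩,
 zbF0, []⟩
noncomputable def p000_l96 : Lf2 := ⟨nat_lit 0, nat_lit 1, [nat_lit 19, nat_lit 5, nat_lit 5, nat_lit 20], false, nat_lit 0, nat_lit 0, nat_lit 0, nat_lit 0, ⟨nat_lit 1000, nat_lit 0, nat_lit 0, nat_lit 0, nat_lit 0, nat_lit 0, nat_lit 0, nat_lit 0, nat_lit 0, nat_lit 0, nat_lit 0, nat_lit 0, nat_lit 0, nat_lit 0, nat_lit 0, nat_lit 0, false, false⟩,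
 nat_lit 0, nat_lit 0, nat_lit 300000, nat_lit 0, nat_lit 5154, nat_lit 124182, nat_lit 3473, nat_lit 0, nat_lit 0, nat_lit 51575, nat_lit 9124, nat_lit 0, nat_lit 0, nat_lit 0, nat_lit 0, nat_lit 0, nat_lit 0, nat_lit 0, [],
 ⟨p000_k28, nat_lit 0, nat_lit 0, nat_lit 0, nat_lit 0, nat_lit 0, [nat_lit 3282000000, nat_lit 5449500000, nat_lit 7968000001, nat_lit 9842000000], [], [nat_lit 21033283797, nat_lit 21077359913, nat_lit 20755983435, nat_lit 20806605765], nat_lit 0, nat_lit 0, nat_lit 0, nat_lit 0, nat_lit 0, nat_lit 0, [], [nat_lit 52, nat_lit 40, nat_lit 20, nat_lit 80]⟩, ⟨p000_k25, nat_lit 0, nat_lit 0, nat_lit 0, nat_lit 0, nat_lit 40307, [nat_lit 112770000000, nat_lit 169681500000, nat_lit 226944000000, nat_lit 265314000000], [], [nat_lit 418772550776, nat_lit 418995177743, nat_lit 412347544337, nat_lit 412570305445], nat_lit 1271250, nat_lit 1271250, nat_lit 0, nat_lit 21650, nat_lit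 0, nat_lit 0, [nat_lit 780000, nat_lit 1271250, nat_lit 1271250, nat_lit 1271250], [nat_lit 52, nat_lit 40, nat_lit 20, nat_lit 80]⟩,
 zbF0, []⟩
noncomputable def p000_l97 : Lf2 := ⟨nat_lit 0, nat_lit 1, [nat_lit 19, nat_lit 5, nat_lit 5, nat_lit 20], false, nat_lit 0, nat_lit 0, nat_lit 0, nat_lit 0, ⟨nat_lit 1000, nat_lit 0, nat_lit 0, nat_lit 0, nat_lit 0, nat_lit 0, nat_lit 0, nat_lit 0, nat_lit 0, nat_lit 0, nat_lit 0, nat_lit 0, nat_lit 0, nat_lit 0, nat_lit 0, nat_lit 0, false, false⟩,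
 nat_lit 0, nat_lit 0, nat_lit 300000, nat_lit 0, nat_lit 5154, nat_lit 124182, nat_lit 3477, nat_lit 0, nat_lit 0, nat_lit 60000, nat_lit 9124, nat_lit 0, nat_lit 0, nat_lit 0, nat_lit 0, nat_lit 0, nat_lit 0, nat_lit 0, [],
 ⟨p000_k28, nat_lit 0, nat_lit 0, nat_lit 0, nat_lit 0, nat_lit 0, [nat_lit 3282000000, nat_lit 5449500000, nat_lit 7968000001, nat_lit 9842000000], [], [nat_lit 21026801427, nat_lit 21077359913, nat_lit 20755983435, nat_lit 20806605765], nat_lit 0, nat_lit 0, nat_lit 0, nat_lit 0, nat_lit 0, nat_lit 0, [], [nat_lit 52, nat_lit 40, nat_lit 20, nat_lit 80]⟩, ⟨p000_k25, nat_lit 0, nat_lit 0, nat_lit 0, nat_lit 0, nat_lit 40307, [nat_lit 112770000000, nat_lit 169681500000, nat_lit 226944000000, nat_lit 265314000000], [], [nat_lit 418770522692, nat_lit 418995177743, nat_lit 412347544337, nat_lit 412570305445], nat_lit 1271250, nat_lit 1271250, nat_lit 0, nat_lit 21650, nat_lit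 0, nat_lit 0, [nat_lit 780000, nat_lit 1271250, nat_lit 1271250, nat_lit 1271250], [nat_lit 52, nat_lit 40, nat_lit 20, nat_lit 80]⟩,
 zbF0, []⟩
noncomputable def p000_l98 : Lf2 := ⟨nat_lit 0, nat_lit 1, [nat_lit 19, nat_lit 5, nat_lit 5, nat_lit 20], false, nat_lit 0, nat_lit 0, nat_lit 0, nat_lit 0, ⟨nat_lit 1000, nat_lit 0, nat_lit 0, nat_lit 0, nat_lit 0, nat_lit 0, nat_lit 0, nat_lit 0, nat_lit 0, nat_lit 0, nat_lit 0, nat_lit 0, nat_lit 0, nat_lit 0, nat_lit 0, nat_lit 0, false, false⟩,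
 nat_lit 0, nat_lit 0, nat_lit 300000, nat_lit 0, nat_lit 5221, nat_lit 124182, nat_lit 3490, nat_lit 0, nat_lit 0, nat_lit 60000, nat_lit 20000, nat_lit 0, nat_lit 0, nat_lit 0, nat_lit 0, nat_lit 0, nat_lit 0, nat_lit 0, [],
 ⟨p000_k28, nat_lit 0, nat_lit 0, nat_lit 0, nat_lit 0, nat_lit 0, [nat_lit 3282000000, nat_lit 5449500000, nat_lit 7968000001, nat_lit 9842000000], [], [nat_lit 20711464930, nat_lit 20756158838, nat_lit 20430298622, nat_lit 20481226087], nat_lit 0, nat_lit 0, nat_lit 0, nat_lit 0, nat_lit 0, nat_lit 0, [], [nat_lit 52, nat_lit 40, nat_lit 20, nat_lit 80]⟩, ⟨p000_k25, nat_lit 0, nat_lit 0, nat_lit 0, nat_lit 0, nat_lit 40307, [nat_lit 243282000000, nat_lit 365449500000, nat_lit 487968000000, nat_lit 569842000000], [], [nat_lit 694156296616, nat_lit 694494561427, nat_lit 686417719618, nat_lit 686758372746], nat_lit 1271250, nat_lit 1271250, nat_lit 21650, nat_lit 43600,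 nat_lit 0, nat_lit 0, [nat_lit 780000, nat_lit 1271250, nat_lit 1271250, nat_lit 1271250], [nat_lit 52, nat_lit 40, nat_lit 20, nat_lit 80]⟩,
 zbF0, []⟩
noncomputable def p000_l99 : Lf2 := ⟨nat_lit 0, nat_lit 1, [nat_lit 19, nat_lit 5, nat_lit 5, nat_lit 20], false, nat_lit 0, nat_lit 0, nat_lit 0, nat_lit 0, ⟨nat_lit 1000, nat_lit 0, nat_lit 0, nat_lit 0, nat_lit 0, nat_lit 0, nat_lit 0, nat_lit 0, nat_lit 0, nat_lit 0, nat_lit 0, nat_lit 0, nat_lit 0, nat_lit 0, nat_lit 0, nat_lit 0, false, false⟩,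
 nat_lit 0, nat_lit 0, nat_lit 300000, nat_lit 0, nat_lit 5270, nat_lit 124911, nat_lit 11566, nat_lit 0, nat_lit 0, nat_lit 60000, nat_lit 0, nat_lit 0, nat_lit 0, nat_lit 0, nat_lit 0, nat_lit 0, nat_lit 0, nat_lit 19790791951, [],
 ⟨p000_k10, nat_lit 0, nat_lit 0, nat_lit 0, nat_lit 0, nat_lit 0, [nat_lit 3282000000, nat_lit 7089500001, nat_lit 8885500000], [], [nat_lit 18298420546, nat_lit 18570231521, nat_lit 17742931525, nat_lit 18015374673], nat_lit 0, nat_lit 0, nat_lit 0, nat_lit 0, nat_lit 0, nat_lit 0, [], [nat_lit 115, nat_lit 40, nat_lit 20, nat_lit 40]⟩, ⟨p000_k10, nat_lit 0, nat_lit 0, nat_lit 0, nat_lit 0, nat_lit 58784, [nat_lit 3282000000, nat_lit 7089500000, nat_lit 8885500000], [], [nat_lit 22697453637, nat_lit 5394032451, nat_lit 17248610239, nat_lit 0], nat_lit 1271250, nat_lit 1271250, nat_lit 0, nat_lit 43600, nat_lit 0, nat_lit 0, [nat_lit 780000, nat_lit 1598750,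 nat_lit 1271250], [nat_lit 115, nat_lit 40, nat_lit 20, nat_lit 40]⟩,
 zbF0, []⟩
noncomputable def p000_l100 : Lf2 := ⟨nat_lit 0, nat_lit 1, [nat_lit 19, nat_lit 5, nat_lit 5, nat_lit 20], false, nat_lit 0, nat_lit 0, nat_lit 0, nat_lit 0, ⟨nat_lit 1000, nat_lit 0, nat_lit 0, nat_lit 0, nat_lit 0, nat_lit 0, nat_lit 0, nat_lit 0, nat_lit 0, nat_lit 0, nat_lit 0, nat_lit 0, nat_lit 0, nat_lit 0, nat_lit 0, nat_lit 0, false, false⟩,
 nat_lit 0, nat_lit 0, nat_lit 300000, nat_lit 0, nat_lit 5154, nat_lit 124911, nat_lit 3868, nat_lit 0, nat_lit 0, nat_lit 49930, nat_lit 9193, nat_lit 0, nat_lit 0, nat_lit 0, nat_lit 0, nat_lit 0, nat_lit 0, nat_lit 0, [],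
 ⟨p000_k12, nat_lit 0, nat_lit 0, nat_lit 0, nat_lit 0, nat_lit 0, [nat_lit 3282000000, nat_lit 5449500000, nat_lit 7968000001, nat_lit 9842000000], [], [nat_lit 20857419295, nat_lit 21077359913, nat_lit 20282420753, nat_lit 20535851616], nat_lit 0, nat_lit 0, nat_lit 0, nat_lit 0, nat_lit 0, nat_lit 0, [], [nat_lit 52, nat_lit 40, nat_lit 20, nat_lit 80]⟩, ⟨p000_k12, nat_lit 0, nat_lit 0, nat_lit 0, nat_lit 0, nat_lit 58784, [nat_lit 113598000000, nat_lit 170923500000, nat_lit 228600000000, nat_lit 267246000000], [], [nat_lit 422535324160, nat_lit 423267413324, nat_lit 409233395174, nat_lit 410358275707], nat_lit 1271250, nat_lit 1271250, nat_lit 0, nat_lit 43600, nat_lit 0, nat_lit 0, [nat_lit 780000, nat_lit 1271250, nat_lit 1271250, nat_lit 1271250], [nat_lit 52, nat_lit 40, nat_lit 20, nat_lit 80]⟩,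
 zbF0, []⟩
noncomputable def p000_l101 : Lf2 := ⟨nat_lit 0, nat_lit 1, [nat_lit 19, nat_lit 5, nat_lit 5, nat_lit 20], false, nat_lit 0, nat_lit 0, nat_lit 0, nat_lit 0, ⟨nat_lit 1000, nat_lit 0, nat_lit 0, nat_lit 0, nat_lit 0, nat_lit 0, nat_lit 0, nat_lit 0, nat_lit 0, nat_lit 0, nat_lit 0, nat_lit 0, nat_lit 0, nat_lit 0, nat_lit 0, nat_lit 0, false, false⟩,
 nat_lit 0, nat_lit 0, nat_lit 300000, nat_lit 0, nat_lit 5154, nat_lit 124911, nat_lit 11847, nat_lit 0, nat_lit 0, nat_lit 60000, nat_lit 9193, nat_lit 0, nat_lit 0, nat_lit 0, nat_lit 0, nat_lit 0, nat_lit 0, nat_lit 0, [],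
 ⟨p000_k12, nat_lit 0, nat_lit 0, nat_lit 0, nat_lit 0, nat_lit 0, [nat_lit 3282000000, nat_lit 5449500000, nat_lit 7968000001, nat_lit 9842000000], [], [nat_lit 20824567478, nat_lit 21077359913, nat_lit 20282420753, nat_lit 20535851616], nat_lit 0, nat_lit 0, nat_lit 0, nat_lit 0, nat_lit 0, nat_lit 0, [], [nat_lit 52, nat_lit 40, nat_lit 20, nat_lit 80]⟩, ⟨p000_k12, nat_lit 0, nat_lit 0, nat_lit 0, nat_lit 0, nat_lit 58784, [nat_lit 113598000000, nat_lit 170923500000, nat_lit 228600000000, nat_lit 267246000000], [], [nat_lit 422153224359, nat_lit 423267413324, nat_lit 409233395174, nat_lit 410358275707], nat_lit 1271250, nat_lit 1271250, nat_lit 0, nat_lit 43600, nat_lit 0, nat_lit 0, [nat_lit 780000, nat_lit 1271250, nat_lit 1271250, nat_lit 1271250], [nat_lit 52, nat_lit 40, nat_lit 20, nat_lit 80]⟩,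
 zbF0, []⟩
noncomputable def p000_l102 : Lf2 := ⟨nat_lit 0, nat_lit 1, [nat_lit 19, nat_lit 5, nat_lit 5, nat_lit 20], false, nat_lit 0, nat_lit 0, nat_lit 0, nat_lit 0, ⟨nat_lit 1000, nat_lit 0, nat_lit 0, nat_lit 0, nat_lit 0, nat_lit 0, nat_lit 0, nat_lit 0, nat_lit 0, nat_lit 0, nat_lit 0, nat_lit 0, nat_lit 0, nat_lit 0, nat_lit 0, nat_lit 0, false, false⟩,
 nat_lit 0, nat_lit 0, nat_lit 13086, nat_lit 6729, nat_lit 5290, nat_lit 5290, nat_lit 3906, nat_lit 0, nat_lit 0, nat_lit 4562, nat_lit 0, nat_lit 0, nat_lit 0, nat_lit 0, nat_lit 0, nat_lit 0, nat_lit 0, nat_lit 0, [],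
 ⟨p000_k12, nat_lit 0, nat_lit 0, nat_lit 0, nat_lit 0, nat_lit 0, [nat_lit 3282000000, nat_lit 5449500000, nat_lit 7968000001, nat_lit 9842000000], [], [nat_lit 20202376263, nat_lit 20425347972, nat_lit 19330387641, nat_lit 19587261681], nat_lit 0, nat_lit 0, nat_lit 0, nat_lit 0, nat_lit 0, nat_lit 0, [], [nat_lit 52, nat_lit 40, nat_lit 20, nat_lit 80]⟩, ⟨p000_k14, nat_lit 0, nat_lit 0, nat_lit 0, nat_lit 0, nat_lit 60577, [nat_lit 3282000000, nat_lit 5449500000, nat_lit 7968000000, nat_lit 9842000000], [], [nat_lit 19979273304, nat_lit 20425216722, nat_lit 19073513600, nat_lit 19587261680], nat_lit 1271250, nat_lit 1271250, nat_lit 43600, nat_lit 111251, nat_lit 0, nat_lit 0, [nat_lit 780000, nat_lit 1271250, nat_lit 1271250, nat_lit 1271250], [nat_lit 52, nat_lit 40, nat_lit 20, nat_lit 80]⟩,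
 zbF0, []⟩
noncomputable def p000_l103 : Lf2 := ⟨nat_lit 0, nat_lit 1, [nat_lit 19, nat_lit 5, nat_lit 5, nat_lit 20], false, nat_lit 0, nat_lit 0, nat_lit 0, nat_lit 0, ⟨nat_lit 1000, nat_lit 0, nat_lit 0, nat_lit 0, nat_lit 0, nat_lit 0, nat_lit 0, nat_lit 0, nat_lit 0, nat_lit 0, nat_lit 0, nat_lit 0, nat_lit 0, nat_lit 0, nat_lit 0, nat_lit 0, false, false⟩,
 nat_lit 0, nat_lit 0, nat_lit 13620, nat_lit 5058, nat_lit 5506, nat_lit 5505, nat_lit 3967, nat_lit 0, nat_lit 0, nat_lit 4633, nat_lit 0, nat_lit 0, nat_lit 0, nat_lit 0, nat_lit 0, nat_lit 0, nat_lit 0, nat_lit 0, [],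
 ⟨p000_k12, nat_lit 0, nat_lit 0, nat_lit 0, nat_lit 0, nat_lit 0, [nat_lit 3282000000, nat_lit 5449500000, nat_lit 7968000001, nat_lit 9842000000], [], [nat_lit 19142664013, nat_lit 19370741553, nat_lit 18311454701, nat_lit 18571675361], nat_lit 0, nat_lit 0, nat_lit 0, nat_lit 0, nat_lit 0, nat_lit 0, [], [nat_lit 52, nat_lit 40, nat_lit 20, nat_lit 80]⟩, ⟨p000_k14, nat_lit 0, nat_lit 0, nat_lit 0, nat_lit 0, nat_lit 60577, [nat_lit 3282000000, nat_lit 5449500000, nat_lit 7968000000, nat_lit 9842000000], [], [nat_lit 18914401800, nat_lit 19371743960, nat_lit 18052482200, nat_lit 18572886800], nat_lit 1271250, nat_lit 1271250, nat_lit 111251, nat_lit 230001, nat_lit 0, nat_lit 0, [nat_lit 780000, nat_lit 1271250, nat_lit 1271250, nat_lit 1271250], [nat_lit 52, nat_lit 40, nat_lit 20, nat_lit 80]⟩,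
 zbF0, []⟩
noncomputable def p000_l104 : Lf2 := ⟨nat_lit 0, nat_lit 1, [nat_lit 19, nat_lit 5, nat_lit 5, nat_lit 20], false, nat_lit 0, nat_lit 0, nat_lit 0, nat_lit 0, ⟨nat_lit 1000, nat_lit 0, nat_lit 0, nat_lit 0, nat_lit 0, nat_lit 0, nat_lit 0, nat_lit 0, nat_lit 0, nat_lit 0, nat_lit 0, nat_lit 0, nat_lit 0, nat_lit 0, nat_lit 0, nat_lit 0, false, false⟩,
 nat_lit 0, nat_lit 0, nat_lit 46401, nat_lit 0, nat_lit 18757, nat_lit 18757, nat_lit 7725, nat_lit 0, nat_lit 0, nat_lit 9022, nat_lit 0, nat_lit 0, nat_lit 0, nat_lit 0, nat_lit 0, nat_lit 0, nat_lit 0, nat_lit 0, [],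
 ⟨p000_k12, nat_lit 0, nat_lit 0, nat_lit 0, nat_lit 0, nat_lit 0, [nat_lit 3282000000, nat_lit 5449500000, nat_lit 7968000001, nat_lit 9842000000], [], [nat_lit 14935553680, nat_lit 15338725745, nat_lit 9586528700, nat_lit 10106681705], nat_lit 0, nat_lit 0, nat_lit 0, nat_lit 0, nat_lit 0, nat_lit 0, [], [nat_lit 52, nat_lit 40, nat_lit 20, nat_lit 80]⟩, ⟨p000_k14, nat_lit 0, nat_lit 0, nat_lit 0, nat_lit 0, nat_lit 60577, [nat_lit 3282000000, nat_lit 5449500000, nat_lit 7968000000, nat_lit 9842000000], [], [nat_lit 14533594722, nat_lit 15338725744, nat_lit 9066375694, nat_lit 10106681704], nat_lit 1271250, nat_lit 1271250, nat_lit 230001, nat_lit 490000, nat_lit 0, nat_lit 0, [nat_lit 780000, nat_lit 1271250, nat_lit 1271250, nat_lit 1271250], [nat_lit 52, nat_lit 40, nat_lit 20, nat_lit 80]⟩,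
 zbF0, []⟩
noncomputable def p000_l105 : Lf2 := ⟨nat_lit 1, nat_lit 2, [nat_lit 10, nat_lit 5, nat_lit 5, nat_lit 20], false, nat_lit 0, nat_lit 0, nat_lit 0, nat_lit 0, zbN0,
 nat_lit 0, nat_lit 0, nat_lit 0, nat_lit 0, nat_lit 0, nat_lit 0, nat_lit 0, nat_lit 0, nat_lit 0, nat_lit 0, nat_lit 0, nat_lit 0, nat_lit 0, nat_lit 0, nat_lit 0, nat_lit 0, nat_lit 0, nat_lit 0, [],
 C1.Rw.none, C1.Rw.none,
 zbF0, []⟩
noncomputable def p000_l106 : Lf2 := ⟨nat_lit 0, nat_lit 2, [nat_lit 10, nat_lit 5, nat_lit 5, nat_lit 20], false, nat_lit 0, nat_lit 0, nat_lit 0, nat_lit 0, ⟨nat_lit 1000, nat_lit 0, nat_lit 0, nat_lit 0, nat_lit 0, nat_lit 0, nat_lit 0, nat_lit 0, nat_lit 0, nat_lit 0, nat_lit 0, nat_lit 0, nat_lit 0, nat_lit 0, nat_lit 0, nat_lit 0, false, false⟩,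
 nat_lit 0, nat_lit 0, nat_lit 12750, nat_lit 30143, nat_lit 5154, nat_lit 5154, nat_lit 3868, nat_lit 0, nat_lit 0, nat_lit 4518, nat_lit 0, nat_lit 0, nat_lit 0, nat_lit 0, nat_lit 0, nat_lit 0, nat_lit 0, nat_lit 0, [],
 ⟨p000_k29, nat_lit 0, nat_lit 0, nat_lit 0, nat_lit 0, nat_lit 0, [nat_lit 3282000000, nat_lit 5449500000, nat_lit 7968000001, nat_lit 9842000000], [], [nat_lit 20857419295, nat_lit 21077359913, nat_lit 18248615109, nat_lit 18496473073], nat_lit 0, nat_lit 0, nat_lit 0, nat_lit 0, nat_lit 0, nat_lit 0, [], [nat_lit 52, nat_lit 40, nat_lit 20, nat_lit 80]⟩, ⟨p000_k30, nat_lit 0, nat_lit 0, nat_lit 0, nat_lit 0, nat_lit 1675, [nat_lit 3282000000, nat_lit 5449500000, nat_lit 7968000000, nat_lit 9842000000], [], [nat_lit 20636986324, nat_lit 21077359912, nat_lit 18000757144, nat_lit 18496473072], nat_lit 1271250, nat_lit 1271250, nat_lit 0, nat_lit 490000, nat_lit 0, nat_lit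 0, [nat_lit 780000, nat_lit 1271250, nat_lit 1271250, nat_lit 1271250], [nat_lit 52, nat_lit 40, nat_lit 20, nat_lit 80]⟩,
 zbF0, []⟩
noncomputable def p000_l107 : Lf2 := ⟨nat_lit 0, nat_lit 2, [nat_lit 10, nat_lit 5, nat_lit 5, nat_lit 20], false, nat_lit 0, nat_lit 0, nat_lit 0, nat_lit 0, ⟨nat_lit 1000, nat_lit 0, nat_lit 0, nat_lit 0, nat_lit 0, nat_lit 0, nat_lit 0, nat_lit 0, nat_lit 0, nat_lit 0, nat_lit 0, nat_lit 0, nat_lit 0, nat_lit 0, nat_lit 0, nat_lit 0, false, false⟩,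
 nat_lit 0, nat_lit 0, nat_lit 10992, nat_lit 3382, nat_lit 22730, nat_lit 4443, nat_lit 0, nat_lit 0, nat_lit 0, nat_lit 2874, nat_lit 0, nat_lit 0, nat_lit 0, nat_lit 0, nat_lit 0, nat_lit 0, nat_lit 0, nat_lit 0, [],
 ⟨p000_k6, nat_lit 0, nat_lit 0, nat_lit 0, nat_lit 0, nat_lit 0, [nat_lit 7968000001, nat_lit 9842000000], [], [nat_lit 6745118661, nat_lit 7936120561, nat_lit 5567100301, nat_lit 6591912361], nat_lit 0, nat_lit 0, nat_lit 0, nat_lit 0, nat_lit 0, nat_lit 0, [], [nat_lit 77, nat_lit 40, nat_lit 20, nat_lit 80]⟩, ⟨p000_k6, nat_lit 0, nat_lit 0, nat_lit 0, nat_lit 0, nat_lit 132659, [nat_lit 7968000000, nat_lit 9842000000], [], [nat_lit 39182658719, nat_lit 38899317000, nat_lit 39293625909, nat_lit 39518478984], nat_lit 1271250, nat_lit 1271250, nat_lit 490000, nat_lit 1100001, nat_lit 0, nat_lit 0, [nat_lit 1695000, nat_lit 1271250], [nat_lit 77, nat_lit 40, nat_lit 20, nat_lit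 80]⟩,
 zbF0, []⟩
noncomputable def p000_l108 : Lf2 := ⟨nat_lit 3, nat_lit 2, [nat_lit 10, nat_lit 5, nat_lit 5, nat_lit 20], false, nat_lit 0, nat_lit 0, nat_lit 0, nat_lit 0, zbN0,
 nat_lit 0, nat_lit 0, nat_lit 0, nat_lit 0, nat_lit 0, nat_lit 0, nat_lit 0, nat_lit 0, nat_lit 0, nat_lit 0, nat_lit 0, nat_lit 0, nat_lit 0, nat_lit 0, nat_lit 0, nat_lit 0, nat_lit 0, nat_lit 0, [],
 C1.Rw.none, ⟨p000_k6, nat_lit 0, nat_lit 0, nat_lit 350, nat_lit 0, nat_lit 132659, [], [], [], nat_lit 1271250, nat_lit 1271250, nat_lit 0, nat_lit 1100001, nat_lit 0, nat_lit 0, [nat_lit 1695000, nat_lit 1271250], [nat_lit 77, nat_lit 40, nat_lit 20, nat_lit 80, nat_lit 17, nat_lit 317, nat_lit 100, nat_lit 10]⟩,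
 zbF0, []⟩
noncomputable def b_NL_450_450_0_3 : St := ⟨false, nat_lit 0, nat_lit 1, nat_lit 1, nat_lit 20, nat_lit 190, nat_lit 200, nat_lit 190, nat_lit 200, nat_lit 0, nat_lit 160, nat_lit 0, nat_lit 0, nat_lit 0, nat_lit 0, nat_lit 0, nat_lit 0, nat_lit 0, nat_lit 8, nat_lit 0, nat_lit 600, nat_lit 0, nat_lit 0⟩
theorem d_NL_450_450_0_3 (h : EB TB.env) : Dead b_NL_450_450_0_3 := chkB_sound0 h (T :=
(.spl (nat_lit 8) (nat_lit 800)
(.spl (nat_lit 2) (nat_lit 80)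
(.spl (nat_lit 6) (nat_lit 4)
(.spl (nat_lit 0) (nat_lit 195)
(.ord (.leaf p000_l89))
(.spl (nat_lit 2) (nat_lit 40)
(.spl (nat_lit 2) (nat_lit 20)
(.spl (nat_lit 2) (nat_lit 8)
(.spl (nat_lit 8) (nat_lit 400)
(.leaf p000_l90)
(.spl (nat_lit 1) (nat_lit 195)
(.spl (nat_lit 1) (nat_lit 193)
(.leaf p000_l91)
(.spl (nat_lit 1) (nat_lit 194)
(.leaf p000_l92)
(.spl (nat_lit 0) (nat_lit 198)
(.leaf p000_l93)
(.spl (nat_lit 0) (nat_lit 199)
(.leaf p000_l94)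
(.spl (nat_lit 2) (nat_lit 4)
(.spl (nat_lit 8) (nat_lit 600)
(.spl (nat_lit 8) (nat_lit 500)
(.leaf p000_l95)
(.leaf p000_l96))
(.leaf p000_l97))
(.leaf p000_l98))))))
(.spl (nat_lit 8) (nat_lit 600)
(.spl (nat_lit 8) (nat_lit 500)
(.leaf p000_l99)
(.leaf p000_l100))
(.leaf p000_l101))))
(.leaf p000_l102))
(.leaf p000_l103))
(.leaf p000_l104)))
(.spl (nat_lit 0) (nat_lit 195)
(.ord (.leaf p000_l105))
(.leaf p000_l106)))
(.leaf p000_l107))
(.leaf p000_l108))) (by decide +kernel)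
noncomputable def p000_l109 : Lf2 := ⟨nat_lit 1, nat_lit 2, [nat_lit 10, nat_lit 5, nat_lit 5, nat_lit 20], false, nat_lit 0, nat_lit 0, nat_lit 0, nat_lit 0, zbN0,
 nat_lit 0, nat_lit 0, nat_lit 0, nat_lit 0, nat_lit 0, nat_lit 0, nat_lit 0, nat_lit 0, nat_lit 0, nat_lit 0, nat_lit 0, nat_lit 0, nat_lit 0, nat_lit 0, nat_lit 0, nat_lit 0, nat_lit 0, nat_lit 0, [],
 C1.Rw.none, C1.Rw.none,
 zbF0, []⟩
noncomputable def p000_l110 : Lf2 := ⟨nat_lit 0, nat_lit 1, [nat_lit 19, nat_lit 5, nat_lit 5, nat_lit 20], false, nat_lit 0, nat_lit 0, nat_lit 0, nat_lit 0, ⟨nat_lit 1000, nat_lit 0, nat_lit 0, nat_lit 0, nat_lit 0, nat_lit 0, nat_lit 0, nat_lit 0, nat_lit 0, nat_lit 0, nat_lit 0, nat_lit 0, nat_lit 0, nat_lit 0, nat_lit 0, nat_lit 0, false, false⟩,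
 nat_lit 0, nat_lit 0, nat_lit 0, nat_lit 48991, nat_lit 5154, nat_lit 5166, nat_lit 4518, nat_lit 0, nat_lit 0, nat_lit 6878, nat_lit 0, nat_lit 0, nat_lit 0, nat_lit 0, nat_lit 0, nat_lit 0, nat_lit 0, nat_lit 0, [],
 ⟨p000_k0, nat_lit 0, nat_lit 0, nat_lit 0, nat_lit 0, nat_lit 0, [nat_lit 3282000000, nat_lit 7968000001, nat_lit 9842000000], [], [nat_lit 20636986324, nat_lit 21077359913, nat_lit 18000757145, nat_lit 18496473073], nat_lit 0, nat_lit 0, nat_lit 0, nat_lit 0, nat_lit 0, nat_lit 0, [], [nat_lit 99, nat_lit 40, nat_lit 20, nat_lit 80]⟩, ⟨p000_k1, nat_lit 0, nat_lit 0, nat_lit 0, nat_lit 0, nat_lit 0, [nat_lit 3282000000, nat_lit 7968000000, nat_lit 9842000000], [], [nat_lit 20122758928, nat_lit 20563060318, nat_lit 17486512064, nat_lit 17982654376], nat_lit 0, nat_lit 0, nat_lit 0, nat_lit 0, nat_lit 0, nat_lit 0, [], [nat_lit 99, nat_lit 40, nat_lit 20, nat_lit 80]⟩,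
 zbF0, []⟩
noncomputable def p000_l111 : Lf2 := ⟨nat_lit 3, nat_lit 1, [nat_lit 19, nat_lit 5, nat_lit 5, nat_lit 20], false, nat_lit 0, nat_lit 0, nat_lit 0, nat_lit 0, zbN0,
 nat_lit 0, nat_lit 0, nat_lit 0, nat_lit 0, nat_lit 0, nat_lit 0, nat_lit 0, nat_lit 0, nat_lit 0, nat_lit 0, nat_lit 0, nat_lit 0, nat_lit 0, nat_lit 0, nat_lit 0, nat_lit 0, nat_lit 0, nat_lit 0, [],
 C1.Rw.none, ⟨p000_k2, nat_lit 0, nat_lit 0, nat_lit 289, nat_lit 0, nat_lit 0, [], [], [], nat_lit 0, nat_lit 0, nat_lit 0, nat_lit 0, nat_lit 0, nat_lit 0, [], [nat_lit 77, nat_lit 40, nat_lit 20, nat_lit 80, nat_lit 17, nat_lit 289, nat_lit 75, nat_lit 9]⟩,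
 zbF0, []⟩
noncomputable def p000_l112 : Lf2 := ⟨nat_lit 2, nat_lit 1, [nat_lit 19, nat_lit 5, nat_lit 5, nat_lit 20], true, nat_lit 0, nat_lit 0, nat_lit 0, nat_lit 0, zbN0,
 nat_lit 0, nat_lit 0, nat_lit 0, nat_lit 0, nat_lit 0, nat_lit 0, nat_lit 0, nat_lit 0, nat_lit 0, nat_lit 0, nat_lit 0, nat_lit 0, nat_lit 0, nat_lit 0, nat_lit 0, nat_lit 0, nat_lit 0, nat_lit 0, [],
 ⟨p000_k3, nat_lit 0, nat_lit 0, nat_lit 289, nat_lit 0, nat_lit 0, [], [], [], nat_lit 0, nat_lit 0, nat_lit 0, nat_lit 0, nat_lit 0, nat_lit 0, [], [nat_lit 77, nat_lit 40, nat_lit 20, nat_lit 80, nat_lit 17, nat_lit 289, nat_lit 75, nat_lit 9]⟩, C1.Rw.none,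
 zbF0, []⟩
noncomputable def p000_l113 : Lf2 := ⟨nat_lit 0, nat_lit 1, [nat_lit 19, nat_lit 5, nat_lit 5, nat_lit 20], false, nat_lit 0, nat_lit 0, nat_lit 0, nat_lit 0, ⟨nat_lit 1000, nat_lit 0, nat_lit 0, nat_lit 0, nat_lit 0, nat_lit 0, nat_lit 0, nat_lit 0, nat_lit 0, nat_lit 0, nat_lit 0, nat_lit 0, nat_lit 0, nat_lit 0, nat_lit 0, nat_lit 0, false, false⟩,
 nat_lit 0, nat_lit 0, nat_lit 0, nat_lit 1187, nat_lit 22862, nat_lit 23534, nat_lit 0, nat_lit 0, nat_lit 0, nat_lit 0, nat_lit 0, nat_lit 0, nat_lit 0, nat_lit 0, nat_lit 0, nat_lit 0, nat_lit 0, nat_lit 0, [],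
 ⟨p000_k3, nat_lit 0, nat_lit 0, nat_lit 19, nat_lit 0, nat_lit 0, [nat_lit 7968000001, nat_lit 9842000000], [], [nat_lit 6667996605, nat_lit 7948851968, nat_lit 5470741621, nat_lit 6499688185], nat_lit 0, nat_lit 0, nat_lit 0, nat_lit 0, nat_lit 0, nat_lit 0, [], [nat_lit 77, nat_lit 40, nat_lit 20, nat_lit 80, nat_lit 17, nat_lit 317, nat_lit 100, nat_lit 10]⟩, ⟨p000_k2, nat_lit 0, nat_lit 0, nat_lit 9, nat_lit 0, nat_lit 0, [nat_lit 7968000000, nat_lit 9842000000], [], [nat_lit 5053877608, nat_lit 6390602620, nat_lit 3930193392, nat_lit 4980188340], nat_lit 0, nat_lit 0, nat_lit 0, nat_lit 0, nat_lit 0, nat_lit 0, [], [nat_lit 77, nat_lit 40, nat_lit 20, nat_lit 80, nat_lit 17, nat_lit 317, nat_lit 100, nat_lit 10]⟩,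
 zbF0, []⟩
noncomputable def p000_l114 : Lf2 := ⟨nat_lit 0, nat_lit 1, [nat_lit 19, nat_lit 5, nat_lit 5, nat_lit 20], false, nat_lit 0, nat_lit 0, nat_lit 0, nat_lit 0, ⟨nat_lit 1000, nat_lit 0, nat_lit 0, nat_lit 0, nat_lit 0, nat_lit 0, nat_lit 0, nat_lit 0, nat_lit 0, nat_lit 0, nat_lit 0, nat_lit 0, nat_lit 0, nat_lit 0, nat_lit 0, nat_lit 0, false, false⟩,
 nat_lit 0, nat_lit 0, nat_lit 0, nat_lit 5290, nat_lit 17078, nat_lit 17579, nat_lit 0, nat_lit 0, nat_lit 0, nat_lit 0, nat_lit 0, nat_lit 0, nat_lit 0, nat_lit 0, nat_lit 0, nat_lit 0, nat_lit 0, nat_lit 0, [],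
 ⟨p000_k3, nat_lit 0, nat_lit 0, nat_lit 61, nat_lit 0, nat_lit 0, [nat_lit 7968000001, nat_lit 9842000000], [], [nat_lit 9693003781, nat_lit 10540783897, nat_lit 17403765903, nat_lit 17999244593], nat_lit 0, nat_lit 0, nat_lit 0, nat_lit 0, nat_lit 0, nat_lit 0, [], [nat_lit 77, nat_lit 40, nat_lit 20, nat_lit 80, nat_lit 17, nat_lit 345, nat_lit 125, nat_lit 10]⟩, ⟨p000_k2, nat_lit 0, nat_lit 0, nat_lit 57, nat_lit 0, nat_lit 0, [nat_lit 7968000000, nat_lit 9842000000], [], [nat_lit 8463806352, nat_lit 9327278790, nat_lit 16586120766, nat_lit 17245514719], nat_lit 0, nat_lit 0, nat_lit 0, nat_lit 0, nat_lit 0, nat_lit 0, [], [nat_lit 77, nat_lit 40, nat_lit 20, nat_lit 80, nat_lit 17, nat_lit 345, nat_lit 125, nat_lit 10]⟩,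
 zbF0, []⟩
noncomputable def p000_l115 : Lf2 := ⟨nat_lit 1, nat_lit 2, [nat_lit 10, nat_lit 5, nat_lit 5, nat_lit 20], false, nat_lit 0, nat_lit 0, nat_lit 0, nat_lit 0, zbN0,
 nat_lit 0, nat_lit 0, nat_lit 0, nat_lit 0, nat_lit 0, nat_lit 0, nat_lit 0, nat_lit 0, nat_lit 0, nat_lit 0, nat_lit 0, nat_lit 0, nat_lit 0, nat_lit 0, nat_lit 0, nat_lit 0, nat_lit 0, nat_lit 0, [],
 C1.Rw.none, C1.Rw.none,
 zbF0, []⟩
noncomputable def p000_l116 : Lf2 := ⟨nat_lit 0, nat_lit 2, [nat_lit 10, nat_lit 5, nat_lit 5, nat_lit 20], false, nat_lit 0, nat_lit 0, nat_lit 0, nat_lit 0, ⟨nat_lit 1000, nat_lit 0, nat_lit 0, nat_lit 0, nat_lit 0, nat_lit 0, nat_lit 0, nat_lit 0, nat_lit 0, nat_lit 0, nat_lit 0, nat_lit 0, nat_lit 0, nat_lit 0, nat_lit 0, nat_lit 0, false, false⟩,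
 nat_lit 0, nat_lit 0, nat_lit 0, nat_lit 42501, nat_lit 5154, nat_lit 5160, nat_lit 4518, nat_lit 0, nat_lit 0, nat_lit 4552, nat_lit 0, nat_lit 0, nat_lit 0, nat_lit 0, nat_lit 0, nat_lit 0, nat_lit 0, nat_lit 0, [],
 ⟨p000_k4, nat_lit 0, nat_lit 0, nat_lit 0, nat_lit 0, nat_lit 0, [nat_lit 3282000000, nat_lit 7968000001, nat_lit 9842000000], [], [nat_lit 20636986324, nat_lit 21077359913, nat_lit 18000757145, nat_lit 18496473073], nat_lit 0, nat_lit 0, nat_lit 0, nat_lit 0, nat_lit 0, nat_lit 0, [], [nat_lit 99, nat_lit 40, nat_lit 20, nat_lit 80]⟩, ⟨p000_k4, nat_lit 0, nat_lit 0, nat_lit 0, nat_lit 0, nat_lit 0, [nat_lit 3282000000, nat_lit 7968000000, nat_lit 9842000000], [], [nat_lit 20599423960, nat_lit 20820317080, nat_lit 17991705760, nat_lit 18239670320], nat_lit 0, nat_lit 0, nat_lit 0, nat_lit 0, nat_lit 0, nat_lit 0, [], [nat_lit 99, nat_lit 40, nat_lit 20, nat_lit 80]⟩,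
 zbF0, []⟩
noncomputable def p000_l117 : Lf2 := ⟨nat_lit 0, nat_lit 2, [nat_lit 10, nat_lit 5, nat_lit 5, nat_lit 20], false, nat_lit 0, nat_lit 0, nat_lit 0, nat_lit 0, ⟨nat_lit 1000, nat_lit 0, nat_lit 0, nat_lit 0, nat_lit 0, nat_lit 0, nat_lit 0, nat_lit 0, nat_lit 0, nat_lit 0, nat_lit 0, nat_lit 0, nat_lit 0, nat_lit 0, nat_lit 0, nat_lit 0, false, false⟩,
 nat_lit 0, nat_lit 0, nat_lit 0, nat_lit 36523, nat_lit 5154, nat_lit 5154, nat_lit 3868, nat_lit 0, nat_lit 0, nat_lit 3868, nat_lit 0, nat_lit 0, nat_lit 0, nat_lit 0, nat_lit 0, nat_lit 0, nat_lit 0, nat_lit 0, [],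
 ⟨p000_k5, nat_lit 0, nat_lit 0, nat_lit 0, nat_lit 0, nat_lit 0, [nat_lit 3282000000, nat_lit 7968000001, nat_lit 9842000000], [], [nat_lit 20857419295, nat_lit 21077359913, nat_lit 18248615109, nat_lit 18496473073], nat_lit 0, nat_lit 0, nat_lit 0, nat_lit 0, nat_lit 0, nat_lit 0, [], [nat_lit 99, nat_lit 40, nat_lit 20, nat_lit 80]⟩, ⟨p000_k5, nat_lit 0, nat_lit 0, nat_lit 0, nat_lit 0, nat_lit 0, [nat_lit 3282000000, nat_lit 7968000000, nat_lit 9842000000], [], [nat_lit 20857419295, nat_lit 21077359912, nat_lit 18248615108, nat_lit 18496473072], nat_lit 0, nat_lit 0, nat_lit 0, nat_lit 0, nat_lit 0, nat_lit 0, [], [nat_lit 99, nat_lit 40, nat_lit 20, nat_lit 80]⟩,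
 zbF0, []⟩
noncomputable def p000_l118 : Lf2 := ⟨nat_lit 3, nat_lit 2, [nat_lit 10, nat_lit 5, nat_lit 5, nat_lit 20], false, nat_lit 0, nat_lit 0, nat_lit 0, nat_lit 0, zbN0,
 nat_lit 0, nat_lit 0, nat_lit 0, nat_lit 0, nat_lit 0, nat_lit 0, nat_lit 0, nat_lit 0, nat_lit 0, nat_lit 0, nat_lit 0, nat_lit 0, nat_lit 0, nat_lit 0, nat_lit 0, nat_lit 0, nat_lit 0, nat_lit 0, [],
 C1.Rw.none, ⟨p000_k6, nat_lit 0, nat_lit 0, nat_lit 289, nat_lit 0, nat_lit 0, [], [], [], nat_lit 0, nat_lit 0, nat_lit 0, nat_lit 0, nat_lit 0, nat_lit 0, [], [nat_lit 77, nat_lit 40, nat_lit 20, nat_lit 80, nat_lit 17, nat_lit 289, nat_lit 75, nat_lit 9]⟩,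
 zbF0, []⟩
noncomputable def p000_l119 : Lf2 := ⟨nat_lit 2, nat_lit 2, [nat_lit 10, nat_lit 5, nat_lit 5, nat_lit 20], true, nat_lit 0, nat_lit 0, nat_lit 0, nat_lit 0, zbN0,
 nat_lit 0, nat_lit 0, nat_lit 0, nat_lit 0, nat_lit 0, nat_lit 0, nat_lit 0, nat_lit 0, nat_lit 0, nat_lit 0, nat_lit 0, nat_lit 0, nat_lit 0, nat_lit 0, nat_lit 0, nat_lit 0, nat_lit 0, nat_lit 0, [],
 ⟨p000_k6, nat_lit 0, nat_lit 0, nat_lit 289, nat_lit 0, nat_lit 0, [], [], [], nat_lit 0, nat_lit 0, nat_lit 0, nat_lit 0, nat_lit 0, nat_lit 0, [], [nat_lit 77, nat_lit 40, nat_lit 20, nat_lit 80, nat_lit 17, nat_lit 289, nat_lit 75, nat_lit 9]⟩, C1.Rw.none,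
 zbF0, []⟩
noncomputable def p000_l120 : Lf2 := ⟨nat_lit 0, nat_lit 2, [nat_lit 10, nat_lit 5, nat_lit 5, nat_lit 20], false, nat_lit 0, nat_lit 0, nat_lit 0, nat_lit 0, ⟨nat_lit 1000, nat_lit 0, nat_lit 0, nat_lit 0, nat_lit 0, nat_lit 0, nat_lit 0, nat_lit 0, nat_lit 0, nat_lit 0, nat_lit 0, nat_lit 0, nat_lit 0, nat_lit 0, nat_lit 0, nat_lit 0, false, false⟩,
 nat_lit 0, nat_lit 0, nat_lit 0, nat_lit 1371, nat_lit 22730, nat_lit 22918, nat_lit 0, nat_lit 0, nat_lit 0, nat_lit 0, nat_lit 0, nat_lit 0, nat_lit 0, nat_lit 1579215638857, nat_lit 0, nat_lit 0, nat_lit 0, nat_lit 0, [],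
 ⟨p000_k6, nat_lit 0, nat_lit 0, nat_lit 19, nat_lit 0, nat_lit 0, [nat_lit 7968000001, nat_lit 9842000000], [], [nat_lit 6745118661, nat_lit 7936120561, nat_lit 5567100301, nat_lit 6591912361], nat_lit 0, nat_lit 0, nat_lit 0, nat_lit 0, nat_lit 0, nat_lit 0, [], [nat_lit 77, nat_lit 40, nat_lit 20, nat_lit 80, nat_lit 17, nat_lit 317, nat_lit 100, nat_lit 10]⟩, ⟨p000_k6, nat_lit 0, nat_lit 0, nat_lit 19, nat_lit 0, nat_lit 0, [nat_lit 7968000000, nat_lit 9842000000], [], [nat_lit 6635278156, nat_lit 7954253952, nat_lit 5429862180, nat_lit 6460562776], nat_lit 0, nat_lit 0, nat_lit 0, nat_lit 0, nat_lit 0, nat_lit 0, [], [nat_lit 77, nat_lit 40, nat_lit 20, nat_lit 80, nat_lit 17, nat_lit 317, nat_lit 100, nat_lit 10]⟩,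
 zbF0, []⟩
noncomputable def p000_l121 : Lf2 := ⟨nat_lit 0, nat_lit 2, [nat_lit 10, nat_lit 5, nat_lit 5, nat_lit 20], false, nat_lit 0, nat_lit 0, nat_lit 0, nat_lit 0, ⟨nat_lit 1000, nat_lit 0, nat_lit 0, nat_lit 0, nat_lit 0, nat_lit 0, nat_lit 0, nat_lit 0, nat_lit 0, nat_lit 0, nat_lit 0, nat_lit 0, nat_lit 0, nat_lit 0, nat_lit 0, nat_lit 0, false, false⟩,
 nat_lit 0, nat_lit 0, nat_lit 0, nat_lit 1371, nat_lit 17342, nat_lit 17358, nat_lit 0, nat_lit 0, nat_lit 0, nat_lit 0, nat_lit 0, nat_lit 0, nat_lit 0, nat_lit 0, nat_lit 0, nat_lit 0, nat_lit 0, nat_lit 0, [],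
 ⟨p000_k6, nat_lit 0, nat_lit 0, nat_lit 61, nat_lit 0, nat_lit 0, [nat_lit 7968000001, nat_lit 9842000000], [], [nat_lit 9500286421, nat_lit 10356335545, nat_lit 17291409879, nat_lit 18106775152], nat_lit 0, nat_lit 0, nat_lit 0, nat_lit 0, nat_lit 0, nat_lit 0, [], [nat_lit 77, nat_lit 40, nat_lit 20, nat_lit 80, nat_lit 17, nat_lit 345, nat_lit 125, nat_lit 10]⟩, ⟨p000_k6, nat_lit 0, nat_lit 0, nat_lit 61, nat_lit 0, nat_lit 0, [nat_lit 7968000000, nat_lit 9842000000], [], [nat_lit 9488606580, nat_lit 10345156856, nat_lit 17284600422, nat_lit 18113336048], nat_lit 0, nat_lit 0, nat_lit 0, nat_lit 0, nat_lit 0, nat_lit 0, [], [nat_lit 77, nat_lit 40, nat_lit 20, nat_lit 80, nat_lit 17, nat_lit 345, nat_lit 125, nat_lit 10]⟩,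
 zbF0, []⟩
noncomputable def p000_l122 : Lf2 := ⟨nat_lit 0, nat_lit 2, [nat_lit 10, nat_lit 5, nat_lit 5, nat_lit 20], false, nat_lit 0, nat_lit 0, nat_lit 0, nat_lit 0, ⟨nat_lit 1000, nat_lit 0, nat_lit 0, nat_lit 0, nat_lit 0, nat_lit 0, nat_lit 0, nat_lit 0, nat_lit 0, nat_lit 0, nat_lit 0, nat_lit 0, nat_lit 0, nat_lit 0, nat_lit 0, nat_lit 0, false, false⟩,
 nat_lit 0, nat_lit 0, nat_lit 0, nat_lit 29501, nat_lit 8789, nat_lit 8789, nat_lit 2476, nat_lit 0, nat_lit 0, nat_lit 3715, nat_lit 0, nat_lit 0, nat_lit 0, nat_lit 18261911649890, nat_lit 0, nat_lit 0, nat_lit 0, nat_lit 0, [],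
 ⟨p000_k6, nat_lit 0, nat_lit 0, nat_lit 230, nat_lit 0, nat_lit 0, [nat_lit 7968000001, nat_lit 9842000000], [], [nat_lit 28295570854, nat_lit 28511570129, nat_lit 39437538249, nat_lit 39424990157], nat_lit 0, nat_lit 0, nat_lit 0, nat_lit 0, nat_lit 0, nat_lit 0, [], [nat_lit 77, nat_lit 40, nat_lit 20, nat_lit 80, nat_lit 17, nat_lit 373, nat_lit 150, nat_lit 11]⟩, ⟨p000_k7, nat_lit 0, nat_lit 0, nat_lit 232, nat_lit 0, nat_lit 0, [nat_lit 7968000000, nat_lit 9842000000], [], [nat_lit 28078740328, nat_lit 28510738878, nat_lit 39449255090, nat_lit 39424528500], nat_lit 0, nat_lit 0, nat_lit 0, nat_lit 0, nat_lit 0, nat_lit 0, [], [nat_lit 77, nat_lit 40, nat_lit 20, nat_lit 80, nat_lit 17, nat_lit 373, nat_lit 150, nat_lit 11]⟩,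
 zbF0, []⟩
noncomputable def b_NL_450_450_0_4 : St := ⟨false, nat_lit 0, nat_lit 0, nat_lit 2, nat_lit 20, nat_lit 180, nat_lit 200, nat_lit 180, nat_lit 200, nat_lit 0, nat_lit 400, nat_lit 0, nat_lit 0, nat_lit 0, nat_lit 0, nat_lit 0, nat_lit 0, nat_lit 0, nat_lit 8, nat_lit 0, nat_lit 0, nat_lit 0, nat_lit 0⟩
theorem d_NL_450_450_0_4 (h : EB TB.env) : Dead b_NL_450_450_0_4 := chkB_sound0 h (T :=
(.spl (nat_lit 0) (nat_lit 190)
(.ord (.leaf p000_l109))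
(.spl (nat_lit 2) (nat_lit 240)
(.spl (nat_lit 1) (nat_lit 190)
(.spl (nat_lit 6) (nat_lit 4)
(.spl (nat_lit 2) (nat_lit 160)
(.spl (nat_lit 2) (nat_lit 80)
(.spl (nat_lit 7) (nat_lit 600)
(.spl (nat_lit 8) (nat_lit 800)
(.leaf p000_l110)
(.leaf p000_l111))
(.leaf p000_l112))
(.leaf p000_l113))
(.leaf p000_l114))
(.leaf p000_l115))
(.spl (nat_lit 2) (nat_lit 160)
(.spl (nat_lit 2) (nat_lit 80)
(.spl (nat_lit 7) (nat_lit 600)
(.spl (nat_lit 8) (nat_lit 800)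
(.spl (nat_lit 1) (nat_lit 195)
(.leaf p000_l116)
(.ord (.leaf p000_l117)))
(.leaf p000_l118))
(.leaf p000_l119))
(.leaf p000_l120))
(.leaf p000_l121)))
(.leaf p000_l122)))) (by decide +kernel)
noncomputable def p000_l123 : Lf2 := ⟨nat_lit 0, nat_lit 1, [nat_lit 19, nat_lit 5, nat_lit 5, nat_lit 20], false, nat_lit 0, nat_lit 0, nat_lit 0, nat_lit 0, ⟨nat_lit 1000, nat_lit 0, nat_lit 0, nat_lit 0, nat_lit 0, nat_lit 0, nat_lit 0, nat_lit 0, nat_lit 0, nat_lit 0, nat_lit 0, nat_lit 0, nat_lit 0, nat_lit 0, nat_lit 0, nat_lit 0, false, false⟩,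
 nat_lit 0, nat_lit 0, nat_lit 13585, nat_lit 35406, nat_lit 5154, nat_lit 5166, nat_lit 4518, nat_lit 0, nat_lit 0, nat_lit 6878, nat_lit 0, nat_lit 0, nat_lit 0, nat_lit 0, nat_lit 0, nat_lit 0, nat_lit 0, nat_lit 0, [],
 ⟨p000_k14, nat_lit 0, nat_lit 0, nat_lit 0, nat_lit 0, nat_lit 0, [nat_lit 3282000000, nat_lit 5449500000, nat_lit 7968000001, nat_lit 9842000000], [], [nat_lit 20636986324, nat_lit 21077359913, nat_lit 18490586361, nat_lit 18998102241], nat_lit 0, nat_lit 0, nat_lit 0, nat_lit 0, nat_lit 0, nat_lit 0, [], [nat_lit 52, nat_lit 40, nat_lit 20, nat_lit 80]⟩, ⟨p000_k13, nat_lit 0, nat_lit 0, nat_lit 0, nat_lit 0, nat_lit 24839, [nat_lit 3282000000, nat_lit 5449500000, nat_lit 7968000000, nat_lit 9842000000], [], [nat_lit 20122758928, nat_lit 20563060318, nat_lit 17967651920, nat_lit 18475608440], nat_lit 1271250, nat_lit 1271250, nat_lit 0, nat_lit 230001, nat_lit 0, nat_lit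 0, [nat_lit 780000, nat_lit 1271250, nat_lit 1271250, nat_lit 1271250], [nat_lit 52, nat_lit 40, nat_lit 20, nat_lit 80]⟩,
 zbF0, []⟩
noncomputable def p000_l124 : Lf2 := ⟨nat_lit 0, nat_lit 1, [nat_lit 19, nat_lit 5, nat_lit 5, nat_lit 20], false, nat_lit 0, nat_lit 0, nat_lit 0, nat_lit 0, ⟨nat_lit 1000, nat_lit 0, nat_lit 0, nat_lit 0, nat_lit 0, nat_lit 0, nat_lit 0, nat_lit 0, nat_lit 0, nat_lit 0, nat_lit 0, nat_lit 0, nat_lit 0, nat_lit 0, nat_lit 0, nat_lit 0, false, false⟩,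
 nat_lit 0, nat_lit 0, nat_lit 300000, nat_lit 0, nat_lit 3727, nat_lit 114084, nat_lit 11343, nat_lit 0, nat_lit 0, nat_lit 60000, nat_lit 20000, nat_lit 0, nat_lit 0, nat_lit 0, nat_lit 0, nat_lit 0, nat_lit 0, nat_lit 0, [],
 ⟨p000_k14, nat_lit 0, nat_lit 0, nat_lit 0, nat_lit 0, nat_lit 0, [nat_lit 3282000000, nat_lit 5449500000, nat_lit 7968000001, nat_lit 9842000000], [], [nat_lit 9201993790, nat_lit 9729966120, nat_lit 7895287105, nat_lit 8477697340], nat_lit 0, nat_lit 0, nat_lit 0, nat_lit 0, nat_lit 0, nat_lit 0, [], [nat_lit 52, nat_lit 40, nat_lit 20, nat_lit 80]⟩, ⟨p000_k13, nat_lit 0, nat_lit 0, nat_lit 0, nat_lit 0, nat_lit 7592, [nat_lit 243282000000, nat_lit 365449500000, nat_lit 487968000000, nat_lit 569842000000], [], [nat_lit 735763874640, nat_lit 737319142584, nat_lit 700083748368, nat_lit 701693816636], nat_lit 1271250, nat_lit 1271250, nat_lit 0, nat_lit 111251, nat_lit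 0, nat_lit 0, [nat_lit 780000, nat_lit 1271250, nat_lit 1271250, nat_lit 1271250], [nat_lit 52, nat_lit 40, nat_lit 20, nat_lit 80]⟩,
 zbF0, []⟩
noncomputable def p000_l125 : Lf2 := ⟨nat_lit 0, nat_lit 1, [nat_lit 19, nat_lit 5, nat_lit 5, nat_lit 20], false, nat_lit 0, nat_lit 0, nat_lit 0, nat_lit 0, ⟨nat_lit 1000, nat_lit 0, nat_lit 0, nat_lit 0, nat_lit 0, nat_lit 0, nat_lit 0, nat_lit 0, nat_lit 0, nat_lit 0, nat_lit 0, nat_lit 0, nat_lit 0, nat_lit 0, nat_lit 0, nat_lit 0, false, false⟩,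
 nat_lit 0, nat_lit 0, nat_lit 300000, nat_lit 0, nat_lit 3727, nat_lit 117667, nat_lit 11233, nat_lit 0, nat_lit 0, nat_lit 60000, nat_lit 20000, nat_lit 0, nat_lit 0, nat_lit 0, nat_lit 0, nat_lit 0, nat_lit 0, nat_lit 0, [],
 ⟨p000_k14, nat_lit 0, nat_lit 0, nat_lit 0, nat_lit 0, nat_lit 0, [nat_lit 3282000000, nat_lit 5449500000, nat_lit 7968000001, nat_lit 9842000000], [], [nat_lit 9201993790, nat_lit 9729966120, nat_lit 7895287105, nat_lit 8477697340], nat_lit 0, nat_lit 0, nat_lit 0, nat_lit 0, nat_lit 0, nat_lit 0, [], [nat_lit 52, nat_lit 40, nat_lit 20, nat_lit 80]⟩, ⟨p000_k15, nat_lit 0, nat_lit 0, nat_lit 0, nat_lit 0, nat_lit 24068, [nat_lit 243282000000, nat_lit 365449500000, nat_lit 487968000000, nat_lit 569842000000], [], [nat_lit 723676659917, nat_lit 725275966514, nat_lit 686924759943, nat_lit 688580608202], nat_lit 1271250, nat_lit 1271250, nat_lit 0, nat_lit 111251, nat_lit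 0, nat_lit 0, [nat_lit 780000, nat_lit 1271250, nat_lit 1271250, nat_lit 1271250], [nat_lit 52, nat_lit 40, nat_lit 20, nat_lit 80]⟩,
 zbF0, []⟩
noncomputable def p000_l126 : Lf2 := ⟨nat_lit 0, nat_lit 1, [nat_lit 19, nat_lit 5, nat_lit 5, nat_lit 20], false, nat_lit 0, nat_lit 0, nat_lit 0, nat_lit 0, ⟨nat_lit 1000, nat_lit 0, nat_lit 0, nat_lit 0, nat_lit 0, nat_lit 0, nat_lit 0, nat_lit 0, nat_lit 0, nat_lit 0, nat_lit 0, nat_lit 0, nat_lit 0, nat_lit 0, nat_lit 0, nat_lit 0, false, false⟩,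
 nat_lit 0, nat_lit 0, nat_lit 300000, nat_lit 0, nat_lit 5160, nat_lit 114084, nat_lit 11334, nat_lit 0, nat_lit 0, nat_lit 60000, nat_lit 20000, nat_lit 0, nat_lit 0, nat_lit 0, nat_lit 0, nat_lit 0, nat_lit 0, nat_lit 0, [],
 ⟨p000_k14, nat_lit 0, nat_lit 0, nat_lit 0, nat_lit 0, nat_lit 0, [nat_lit 3282000000, nat_lit 5449500000, nat_lit 7968000001, nat_lit 9842000000], [], [nat_lit 20567417681, nat_lit 20820317081, nat_lit 20023881969, nat_lit 20277420873], nat_lit 0, nat_lit 0, nat_lit 0, nat_lit 0, nat_lit 0, nat_lit 0, [], [nat_lit 52, nat_lit 40, nat_lit 20, nat_lit 80]⟩, ⟨p000_k13, nat_lit 0, nat_lit 0, nat_lit 0, nat_lit 0, nat_lit 3963, [nat_lit 243282000000, nat_lit 365449500000, nat_lit 487968000000, nat_lit 569842000000], [], [nat_lit 735763874640, nat_lit 738874410528, nat_lit 721491824132, nat_lit 724646200279], nat_lit 1271250, nat_lit 1271250, nat_lit 0, nat_lit 43600,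 nat_lit 0, nat_lit 0, [nat_lit 780000, nat_lit 1271250, nat_lit 1271250, nat_lit 1271250], [nat_lit 52, nat_lit 40, nat_lit 20, nat_lit 80]⟩,
 zbF0, []⟩
noncomputable def p000_l127 : Lf2 := ⟨nat_lit 0, nat_lit 1, [nat_lit 19, nat_lit 5, nat_lit 5, nat_lit 20], false, nat_lit 0, nat_lit 0, nat_lit 0, nat_lit 0, ⟨nat_lit 1000, nat_lit 0, nat_lit 0, nat_lit 0, nat_lit 0, nat_lit 0, nat_lit 0, nat_lit 0, nat_lit 0, nat_lit 0, nat_lit 0, nat_lit 0, nat_lit 0, nat_lit 0, nat_lit 0, nat_lit 0, false, false⟩,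
 nat_lit 0, nat_lit 0, nat_lit 300000, nat_lit 0, nat_lit 5154, nat_lit 114084, nat_lit 11233, nat_lit 0, nat_lit 0, nat_lit 60000, nat_lit 20000, nat_lit 0, nat_lit 0, nat_lit 0, nat_lit 0, nat_lit 0, nat_lit 0, nat_lit 0, [],
 ⟨p000_k12, nat_lit 0, nat_lit 0, nat_lit 0, nat_lit 0, nat_lit 0, [nat_lit 3282000000, nat_lit 5449500000, nat_lit 7968000001, nat_lit 9842000000], [], [nat_lit 20824567478, nat_lit 21077359913, nat_lit 20282420753, nat_lit 20535851616], nat_lit 0, nat_lit 0, nat_lit 0, nat_lit 0, nat_lit 0, nat_lit 0, [], [nat_lit 52, nat_lit 40, nat_lit 20, nat_lit 80]⟩, ⟨p000_k13, nat_lit 0, nat_lit 0, nat_lit 0, nat_lit 0, nat_lit 24839, [nat_lit 243282000000, nat_lit 365449500000, nat_lit 487968000000, nat_lit 569842000000], [], [nat_lit 735763874640, nat_lit 738874410528, nat_lit 721491824132, nat_lit 724646200279], nat_lit 1271250, nat_lit 1271250, nat_lit 0, nat_lit 43600,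 nat_lit 0, nat_lit 0, [nat_lit 780000, nat_lit 1271250, nat_lit 1271250, nat_lit 1271250], [nat_lit 52, nat_lit 40, nat_lit 20, nat_lit 80]⟩,
 zbF0, []⟩
noncomputable def p000_l128 : Lf2 := ⟨nat_lit 0, nat_lit 1, [nat_lit 19, nat_lit 5, nat_lit 5, nat_lit 20], false, nat_lit 0, nat_lit 0, nat_lit 0, nat_lit 0, ⟨nat_lit 1000, nat_lit 0, nat_lit 0, nat_lit 0, nat_lit 0, nat_lit 0, nat_lit 0, nat_lit 0, nat_lit 0, nat_lit 0, nat_lit 0, nat_lit 0, nat_lit 0, nat_lit 0, nat_lit 0, nat_lit 0, false, false⟩,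
 nat_lit 0, nat_lit 0, nat_lit 300000, nat_lit 300000, nat_lit 5154, nat_lit 114084, nat_lit 60000, nat_lit 0, nat_lit 0, nat_lit 60000, nat_lit 0, nat_lit 7303, nat_lit 0, nat_lit 0, nat_lit 0, nat_lit 0, nat_lit 0, nat_lit 400211579093, [],
 ⟨p000_k12, nat_lit 0, nat_lit 0, nat_lit 0, nat_lit 0, nat_lit 0, [nat_lit 3282000000, nat_lit 5449500000, nat_lit 7968000001, nat_lit 9842000000], [], [nat_lit 20824567478, nat_lit 21077359913, nat_lit 20282420753, nat_lit 20535851616], nat_lit 0, nat_lit 0, nat_lit 0, nat_lit 0, nat_lit 0, nat_lit 0, [], [nat_lit 52, nat_lit 40, nat_lit 20, nat_lit 80]⟩, ⟨p000_k13, nat_lit 0, nat_lit 0, nat_lit 0, nat_lit 0, nat_lit 24839, [nat_lit 3282000000, nat_lit 5449500000, nat_lit 7968000000, nat_lit 9842000000], [], [nat_lit 34454588909, nat_lit 4062040889, nat_lit 30299638010, nat_lit 0], nat_lit 1271250, nat_lit 1271250, nat_lit 0, nat_lit 43600, nat_lit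 0, nat_lit 0, [nat_lit 780000, nat_lit 1271250, nat_lit 1271250, nat_lit 1271250], [nat_lit 52, nat_lit 40, nat_lit 20, nat_lit 80]⟩,
 zbF0, []⟩
noncomputable def p000_l129 : Lf2 := ⟨nat_lit 3, nat_lit 1, [nat_lit 19, nat_lit 5, nat_lit 5, nat_lit 20], false, nat_lit 0, nat_lit 0, nat_lit 0, nat_lit 0, zbN0,
 nat_lit 0, nat_lit 0, nat_lit 0, nat_lit 0, nat_lit 0, nat_lit 0, nat_lit 0, nat_lit 0, nat_lit 0, nat_lit 0, nat_lit 0, nat_lit 0, nat_lit 0, nat_lit 0, nat_lit 0, nat_lit 0, nat_lit 0, nat_lit 0, [],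
 C1.Rw.none, ⟨p000_k13, nat_lit 0, nat_lit 0, nat_lit 0, nat_lit 0, nat_lit 3963, [], [], [], nat_lit 1271250, nat_lit 1271250, nat_lit 0, nat_lit 43600, nat_lit 0, nat_lit 0, [nat_lit 780000, nat_lit 1271250, nat_lit 1271250, nat_lit 1271250], [nat_lit 52, nat_lit 40, nat_lit 20, nat_lit 80]⟩,
 zbF0, []⟩
noncomputable def p000_l130 : Lf2 := ⟨nat_lit 3, nat_lit 1, [nat_lit 19, nat_lit 5, nat_lit 5, nat_lit 20], false, nat_lit 0, nat_lit 0, nat_lit 0, nat_lit 0, zbN0,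
 nat_lit 0, nat_lit 0, nat_lit 0, nat_lit 0, nat_lit 0, nat_lit 0, nat_lit 0, nat_lit 0, nat_lit 0, nat_lit 0, nat_lit 0, nat_lit 0, nat_lit 0, nat_lit 0, nat_lit 0, nat_lit 0, nat_lit 0, nat_lit 0, [],
 C1.Rw.none, ⟨p000_k13, nat_lit 0, nat_lit 0, nat_lit 0, nat_lit 0, nat_lit 7592, [], [], [], nat_lit 1271250, nat_lit 1271250, nat_lit 0, nat_lit 43600, nat_lit 0, nat_lit 0, [nat_lit 780000, nat_lit 1271250, nat_lit 1271250, nat_lit 1271250], [nat_lit 52, nat_lit 40, nat_lit 20, nat_lit 80]⟩,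
 zbF0, []⟩
noncomputable def p000_l131 : Lf2 := ⟨nat_lit 3, nat_lit 1, [nat_lit 19, nat_lit 5, nat_lit 5, nat_lit 20], false, nat_lit 0, nat_lit 0, nat_lit 0, nat_lit 0, zbN0,
 nat_lit 0, nat_lit 0, nat_lit 0, nat_lit 0, nat_lit 0, nat_lit 0, nat_lit 0, nat_lit 0, nat_lit 0, nat_lit 0, nat_lit 0, nat_lit 0, nat_lit 0, nat_lit 0, nat_lit 0, nat_lit 0, nat_lit 0, nat_lit 0, [],
 C1.Rw.none, ⟨p000_k15, nat_lit 0, nat_lit 0, nat_lit 0, nat_lit 0, nat_lit 24068, [], [], [], nat_lit 1271250, nat_lit 1271250, nat_lit 0, nat_lit 43600, nat_lit 0, nat_lit 0, [nat_lit 780000, nat_lit 1271250, nat_lit 1271250, nat_lit 1271250], [nat_lit 52, nat_lit 40, nat_lit 20, nat_lit 80]⟩,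
 zbF0, []⟩
noncomputable def p000_l132 : Lf2 := ⟨nat_lit 3, nat_lit 1, [nat_lit 19, nat_lit 5, nat_lit 5, nat_lit 20], false, nat_lit 0, nat_lit 0, nat_lit 0, nat_lit 0, zbN0,
 nat_lit 0, nat_lit 0, nat_lit 0, nat_lit 0, nat_lit 0, nat_lit 0, nat_lit 0, nat_lit 0, nat_lit 0, nat_lit 0, nat_lit 0, nat_lit 0, nat_lit 0, nat_lit 0, nat_lit 0, nat_lit 0, nat_lit 0, nat_lit 0, [],
 C1.Rw.none, ⟨p000_k13, nat_lit 0, nat_lit 0, nat_lit 0, nat_lit 0, nat_lit 7592, [], [], [], nat_lit 1271250, nat_lit 1271250, nat_lit 0, nat_lit 43600, nat_lit 0, nat_lit 0, [nat_lit 780000, nat_lit 1271250, nat_lit 1271250, nat_lit 1271250], [nat_lit 52, nat_lit 40, nat_lit 20, nat_lit 80]⟩,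
 zbF0, []⟩
noncomputable def p000_l133 : Lf2 := ⟨nat_lit 3, nat_lit 1, [nat_lit 19, nat_lit 5, nat_lit 5, nat_lit 20], false, nat_lit 0, nat_lit 0, nat_lit 0, nat_lit 0, zbN0,
 nat_lit 0, nat_lit 0, nat_lit 0, nat_lit 0, nat_lit 0, nat_lit 0, nat_lit 0, nat_lit 0, nat_lit 0, nat_lit 0, nat_lit 0, nat_lit 0, nat_lit 0, nat_lit 0, nat_lit 0, nat_lit 0, nat_lit 0, nat_lit 0, [],
 C1.Rw.none, ⟨p000_k15, nat_lit 0, nat_lit 0, nat_lit 0, nat_lit 0, nat_lit 24068, [], [], [], nat_lit 1271250, nat_lit 1271250, nat_lit 0, nat_lit 43600, nat_lit 0, nat_lit 0, [nat_lit 780000, nat_lit 1271250, nat_lit 1271250, nat_lit 1271250], [nat_lit 52, nat_lit 40, nat_lit 20, nat_lit 80]⟩,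
 zbF0, []⟩
noncomputable def p000_l134 : Lf2 := ⟨nat_lit 1, nat_lit 1, [nat_lit 19, nat_lit 5, nat_lit 5, nat_lit 20], false, nat_lit 0, nat_lit 0, nat_lit 0, nat_lit 0, zbN0,
 nat_lit 0, nat_lit 0, nat_lit 0, nat_lit 0, nat_lit 0, nat_lit 0, nat_lit 0, nat_lit 0, nat_lit 0, nat_lit 0, nat_lit 0, nat_lit 0, nat_lit 0, nat_lit 0, nat_lit 0, nat_lit 0, nat_lit 0, nat_lit 0, [],
 C1.Rw.none, C1.Rw.none,
 zbF0, []⟩
noncomputable def p000_l135 : Lf2 := ⟨nat_lit 3, nat_lit 1, [nat_lit 19, nat_lit 5, nat_lit 5, nat_lit 20], false, nat_lit 0, nat_lit 0, nat_lit 0, nat_lit 0, zbN0,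
 nat_lit 0, nat_lit 0, nat_lit 0, nat_lit 0, nat_lit 0, nat_lit 0, nat_lit 0, nat_lit 0, nat_lit 0, nat_lit 0, nat_lit 0, nat_lit 0, nat_lit 0, nat_lit 0, nat_lit 0, nat_lit 0, nat_lit 0, nat_lit 0, [],
 C1.Rw.none, ⟨p000_k15, nat_lit 0, nat_lit 0, nat_lit 0, nat_lit 0, nat_lit 15971, [], [], [], nat_lit 1271250, nat_lit 1271250, nat_lit 0, nat_lit 21650, nat_lit 0, nat_lit 0, [nat_lit 780000, nat_lit 1271250, nat_lit 1271250, nat_lit 1271250], [nat_lit 52, nat_lit 40, nat_lit 20, nat_lit 80]⟩,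
 zbF0, []⟩
noncomputable def p000_l136 : Lf2 := ⟨nat_lit 3, nat_lit 1, [nat_lit 19, nat_lit 5, nat_lit 5, nat_lit 20], false, nat_lit 0, nat_lit 0, nat_lit 0, nat_lit 0, zbN0,
 nat_lit 0, nat_lit 0, nat_lit 0, nat_lit 0, nat_lit 0, nat_lit 0, nat_lit 0, nat_lit 0, nat_lit 0, nat_lit 0, nat_lit 0, nat_lit 0, nat_lit 0, nat_lit 0, nat_lit 0, nat_lit 0, nat_lit 0, nat_lit 0, [],
 C1.Rw.none, ⟨p000_k13, nat_lit 0, nat_lit 0, nat_lit 0, nat_lit 0, nat_lit 7592, [], [], [], nat_lit 1271250, nat_lit 1271250, nat_lit 0, nat_lit 21650, nat_lit 0, nat_lit 0, [nat_lit 780000, nat_lit 1271250, nat_lit 1271250, nat_lit 1271250], [nat_lit 52, nat_lit 40, nat_lit 20, nat_lit 80]⟩,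
 zbF0, []⟩
noncomputable def p000_l137 : Lf2 := ⟨nat_lit 3, nat_lit 1, [nat_lit 19, nat_lit 5, nat_lit 5, nat_lit 20], false, nat_lit 0, nat_lit 0, nat_lit 0, nat_lit 0, zbN0,
 nat_lit 0, nat_lit 0, nat_lit 0, nat_lit 0, nat_lit 0, nat_lit 0, nat_lit 0, nat_lit 0, nat_lit 0, nat_lit 0, nat_lit 0, nat_lit 0, nat_lit 0, nat_lit 0, nat_lit 0, nat_lit 0, nat_lit 0, nat_lit 0, [],
 C1.Rw.none, ⟨p000_k15, nat_lit 0, nat_lit 0, nat_lit 0, nat_lit 0, nat_lit 24068, [], [], [], nat_lit 1271250, nat_lit 1271250, nat_lit 0, nat_lit 21650, nat_lit 0, nat_lit 0, [nat_lit 780000, nat_lit 1271250, nat_lit 1271250, nat_lit 1271250], [nat_lit 52, nat_lit 40, nat_lit 20, nat_lit 80]⟩,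
 zbF0, []⟩
noncomputable def p000_l138 : Lf2 := ⟨nat_lit 3, nat_lit 1, [nat_lit 19, nat_lit 5, nat_lit 5, nat_lit 20], false, nat_lit 0, nat_lit 0, nat_lit 0, nat_lit 0, zbN0,
 nat_lit 0, nat_lit 0, nat_lit 0, nat_lit 0, nat_lit 0, nat_lit 0, nat_lit 0, nat_lit 0, nat_lit 0, nat_lit 0, nat_lit 0, nat_lit 0, nat_lit 0, nat_lit 0, nat_lit 0, nat_lit 0, nat_lit 0, nat_lit 0, [],
 C1.Rw.none, ⟨p000_k13, nat_lit 0, nat_lit 0, nat_lit 0, nat_lit 0, nat_lit 7592, [], [], [], nat_lit 1271250, nat_lit 1271250, nat_lit 0, nat_lit 21650, nat_lit 0, nat_lit 0, [nat_lit 780000, nat_lit 1271250, nat_lit 1271250, nat_lit 1271250], [nat_lit 52, nat_lit 40, nat_lit 20, nat_lit 80]⟩,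
 zbF0, []⟩
noncomputable def p000_l139 : Lf2 := ⟨nat_lit 3, nat_lit 1, [nat_lit 19, nat_lit 5, nat_lit 5, nat_lit 20], false, nat_lit 0, nat_lit 0, nat_lit 0, nat_lit 0, zbN0,
 nat_lit 0, nat_lit 0, nat_lit 0, nat_lit 0, nat_lit 0, nat_lit 0, nat_lit 0, nat_lit 0, nat_lit 0, nat_lit 0, nat_lit 0, nat_lit 0, nat_lit 0, nat_lit 0, nat_lit 0, nat_lit 0, nat_lit 0, nat_lit 0, [],
 C1.Rw.none, ⟨p000_k15, nat_lit 0, nat_lit 0, nat_lit 0, nat_lit 0, nat_lit 24068, [], [], [], nat_lit 1271250, nat_lit 1271250, nat_lit 0, nat_lit 21650, nat_lit 0, nat_lit 0, [nat_lit 780000, nat_lit 1271250, nat_lit 1271250, nat_lit 1271250], [nat_lit 52, nat_lit 40, nat_lit 20, nat_lit 80]⟩,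
 zbF0, []⟩
noncomputable def p000_l140 : Lf2 := ⟨nat_lit 3, nat_lit 1, [nat_lit 19, nat_lit 5, nat_lit 5, nat_lit 20], false, nat_lit 0, nat_lit 0, nat_lit 0, nat_lit 0, zbN0,
 nat_lit 0, nat_lit 0, nat_lit 0, nat_lit 0, nat_lit 0, nat_lit 0, nat_lit 0, nat_lit 0, nat_lit 0, nat_lit 0, nat_lit 0, nat_lit 0, nat_lit 0, nat_lit 0, nat_lit 0, nat_lit 0, nat_lit 0, nat_lit 0, [],
 C1.Rw.none, ⟨p000_k13, nat_lit 0, nat_lit 0, nat_lit 0, nat_lit 0, nat_lit 16489, [], [], [], nat_lit 1271250, nat_lit 1271250, nat_lit 21650, nat_lit 43600, nat_lit 0, nat_lit 0, [nat_lit 780000, nat_lit 1271250, nat_lit 1271250, nat_lit 1271250], [nat_lit 52, nat_lit 40, nat_lit 20, nat_lit 80]⟩,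
 zbF0, []⟩
noncomputable def p000_l141 : Lf2 := ⟨nat_lit 3, nat_lit 1, [nat_lit 19, nat_lit 5, nat_lit 5, nat_lit 20], false, nat_lit 0, nat_lit 0, nat_lit 0, nat_lit 0, zbN0,
 nat_lit 0, nat_lit 0, nat_lit 0, nat_lit 0, nat_lit 0, nat_lit 0, nat_lit 0, nat_lit 0, nat_lit 0, nat_lit 0, nat_lit 0, nat_lit 0, nat_lit 0, nat_lit 0, nat_lit 0, nat_lit 0, nat_lit 0, nat_lit 0, [],
 C1.Rw.none, ⟨p000_k13, nat_lit 0, nat_lit 0, nat_lit 0, nat_lit 0, nat_lit 7592, [], [], [], nat_lit 1271250, nat_lit 1271250, nat_lit 21650, nat_lit 43600, nat_lit 0, nat_lit 0, [nat_lit 780000, nat_lit 1271250, nat_lit 1271250, nat_lit 1271250], [nat_lit 52, nat_lit 40, nat_lit 20, nat_lit 80]⟩,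
 zbF0, []⟩
noncomputable def p000_l142 : Lf2 := ⟨nat_lit 3, nat_lit 1, [nat_lit 19, nat_lit 5, nat_lit 5, nat_lit 20], false, nat_lit 0, nat_lit 0, nat_lit 0, nat_lit 0, zbN0,
 nat_lit 0, nat_lit 0, nat_lit 0, nat_lit 0, nat_lit 0, nat_lit 0, nat_lit 0, nat_lit 0, nat_lit 0, nat_lit 0, nat_lit 0, nat_lit 0, nat_lit 0, nat_lit 0, nat_lit 0, nat_lit 0, nat_lit 0, nat_lit 0, [],
 C1.Rw.none, ⟨p000_k15, nat_lit 0, nat_lit 0, nat_lit 0, nat_lit 0, nat_lit 24068, [], [], [], nat_lit 1271250, nat_lit 1271250, nat_lit 21650, nat_lit 43600, nat_lit 0, nat_lit 0, [nat_lit 780000, nat_lit 1271250, nat_lit 1271250, nat_lit 1271250], [nat_lit 52, nat_lit 40, nat_lit 20, nat_lit 80]⟩,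
 zbF0, []⟩
noncomputable def p000_l143 : Lf2 := ⟨nat_lit 3, nat_lit 1, [nat_lit 19, nat_lit 5, nat_lit 5, nat_lit 20], false, nat_lit 0, nat_lit 0, nat_lit 0, nat_lit 0, zbN0,
 nat_lit 0, nat_lit 0, nat_lit 0, nat_lit 0, nat_lit 0, nat_lit 0, nat_lit 0, nat_lit 0, nat_lit 0, nat_lit 0, nat_lit 0, nat_lit 0, nat_lit 0, nat_lit 0, nat_lit 0, nat_lit 0, nat_lit 0, nat_lit 0, [],
 C1.Rw.none, ⟨p000_k13, nat_lit 0, nat_lit 0, nat_lit 0, nat_lit 0, nat_lit 7592, [], [], [], nat_lit 1271250, nat_lit 1271250, nat_lit 21650, nat_lit 43600, nat_lit 0, nat_lit 0, [nat_lit 780000, nat_lit 1271250, nat_lit 1271250, nat_lit 1271250], [nat_lit 52, nat_lit 40, nat_lit 20, nat_lit 80]⟩,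
 zbF0, []⟩
noncomputable def p000_l144 : Lf2 := ⟨nat_lit 3, nat_lit 1, [nat_lit 19, nat_lit 5, nat_lit 5, nat_lit 20], false, nat_lit 0, nat_lit 0, nat_lit 0, nat_lit 0, zbN0,
 nat_lit 0, nat_lit 0, nat_lit 0, nat_lit 0, nat_lit 0, nat_lit 0, nat_lit 0, nat_lit 0, nat_lit 0, nat_lit 0, nat_lit 0, nat_lit 0, nat_lit 0, nat_lit 0, nat_lit 0, nat_lit 0, nat_lit 0, nat_lit 0, [],
 C1.Rw.none, ⟨p000_k15, nat_lit 0, nat_lit 0, nat_lit 0, nat_lit 0, nat_lit 24068, [], [], [], nat_lit 1271250, nat_lit 1271250, nat_lit 21650, nat_lit 43600, nat_lit 0, nat_lit 0, [nat_lit 780000, nat_lit 1271250, nat_lit 1271250, nat_lit 1271250], [nat_lit 52, nat_lit 40, nat_lit 20, nat_lit 80]⟩,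
 zbF0, []⟩
noncomputable def p000_l145 : Lf2 := ⟨nat_lit 3, nat_lit 1, [nat_lit 19, nat_lit 5, nat_lit 5, nat_lit 20], false, nat_lit 0, nat_lit 0, nat_lit 0, nat_lit 0, zbN0,
 nat_lit 0, nat_lit 0, nat_lit 0, nat_lit 0, nat_lit 0, nat_lit 0, nat_lit 0, nat_lit 0, nat_lit 0, nat_lit 0, nat_lit 0, nat_lit 0, nat_lit 0, nat_lit 0, nat_lit 0, nat_lit 0, nat_lit 0, nat_lit 0, [],
 C1.Rw.none, ⟨p000_k13, nat_lit 0, nat_lit 0, nat_lit 0, nat_lit 0, nat_lit 3963, [], [], [], nat_lit 1271250, nat_lit 1271250, nat_lit 0, nat_lit 43600, nat_lit 0, nat_lit 0, [nat_lit 780000, nat_lit 1271250, nat_lit 1271250, nat_lit 1271250], [nat_lit 52, nat_lit 40, nat_lit 20, nat_lit 80]⟩,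
 zbF0, []⟩
noncomputable def p000_l146 : Lf2 := ⟨nat_lit 1, nat_lit 1, [nat_lit 19, nat_lit 5, nat_lit 5, nat_lit 20], false, nat_lit 0, nat_lit 0, nat_lit 0, nat_lit 0, zbN0,
 nat_lit 0, nat_lit 0, nat_lit 0, nat_lit 0, nat_lit 0, nat_lit 0, nat_lit 0, nat_lit 0, nat_lit 0, nat_lit 0, nat_lit 0, nat_lit 0, nat_lit 0, nat_lit 0, nat_lit 0, nat_lit 0, nat_lit 0, nat_lit 0, [],
 C1.Rw.none, C1.Rw.none,
 zbF0, []⟩
noncomputable def p000_l147 : Lf2 := ⟨nat_lit 3, nat_lit 1, [nat_lit 19, nat_lit 5, nat_lit 5, nat_lit 20], false, nat_lit 0, nat_lit 0, nat_lit 0, nat_lit 0, zbN0,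
 nat_lit 0, nat_lit 0, nat_lit 0, nat_lit 0, nat_lit 0, nat_lit 0, nat_lit 0, nat_lit 0, nat_lit 0, nat_lit 0, nat_lit 0, nat_lit 0, nat_lit 0, nat_lit 0, nat_lit 0, nat_lit 0, nat_lit 0, nat_lit 0, [],
 C1.Rw.none, ⟨p000_k15, nat_lit 0, nat_lit 0, nat_lit 0, nat_lit 0, nat_lit 15971, [], [], [], nat_lit 1271250, nat_lit 1271250, nat_lit 0, nat_lit 21650, nat_lit 0, nat_lit 0, [nat_lit 780000, nat_lit 1271250, nat_lit 1271250, nat_lit 1271250], [nat_lit 52, nat_lit 40, nat_lit 20, nat_lit 80]⟩,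
 zbF0, []⟩
noncomputable def p000_l148 : Lf2 := ⟨nat_lit 3, nat_lit 1, [nat_lit 19, nat_lit 5, nat_lit 5, nat_lit 20], false, nat_lit 0, nat_lit 0, nat_lit 0, nat_lit 0, zbN0,
 nat_lit 0, nat_lit 0, nat_lit 0, nat_lit 0, nat_lit 0, nat_lit 0, nat_lit 0, nat_lit 0, nat_lit 0, nat_lit 0, nat_lit 0, nat_lit 0, nat_lit 0, nat_lit 0, nat_lit 0, nat_lit 0, nat_lit 0, nat_lit 0, [],
 C1.Rw.none, ⟨p000_k13, nat_lit 0, nat_lit 0, nat_lit 0, nat_lit 0, nat_lit 7592, [], [], [], nat_lit 1271250, nat_lit 1271250, nat_lit 0, nat_lit 21650, nat_lit 0, nat_lit 0, [nat_lit 780000, nat_lit 1271250, nat_lit 1271250, nat_lit 1271250], [nat_lit 52, nat_lit 40, nat_lit 20, nat_lit 80]⟩,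
 zbF0, []⟩
noncomputable def p000_l149 : Lf2 := ⟨nat_lit 3, nat_lit 1, [nat_lit 19, nat_lit 5, nat_lit 5, nat_lit 20], false, nat_lit 0, nat_lit 0, nat_lit 0, nat_lit 0, zbN0,
 nat_lit 0, nat_lit 0, nat_lit 0, nat_lit 0, nat_lit 0, nat_lit 0, nat_lit 0, nat_lit 0, nat_lit 0, nat_lit 0, nat_lit 0, nat_lit 0, nat_lit 0, nat_lit 0, nat_lit 0, nat_lit 0, nat_lit 0, nat_lit 0, [],
 C1.Rw.none, ⟨p000_k15, nat_lit 0, nat_lit 0, nat_lit 0, nat_lit 0, nat_lit 24068, [], [], [], nat_lit 1271250, nat_lit 1271250, nat_lit 0, nat_lit 21650, nat_lit 0, nat_lit 0, [nat_lit 780000, nat_lit 1271250, nat_lit 1271250, nat_lit 1271250], [nat_lit 52, nat_lit 40, nat_lit 20, nat_lit 80]⟩,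
 zbF0, []⟩
noncomputable def p000_l150 : Lf2 := ⟨nat_lit 3, nat_lit 1, [nat_lit 19, nat_lit 5, nat_lit 5, nat_lit 20], false, nat_lit 0, nat_lit 0, nat_lit 0, nat_lit 0, zbN0,
 nat_lit 0, nat_lit 0, nat_lit 0, nat_lit 0, nat_lit 0, nat_lit 0, nat_lit 0, nat_lit 0, nat_lit 0, nat_lit 0, nat_lit 0, nat_lit 0, nat_lit 0, nat_lit 0, nat_lit 0, nat_lit 0, nat_lit 0, nat_lit 0, [],
 C1.Rw.none, ⟨p000_k13, nat_lit 0, nat_lit 0, nat_lit 0, nat_lit 0, nat_lit 16489, [], [], [], nat_lit 1271250, nat_lit 1271250, nat_lit 21650, nat_lit 43600, nat_lit 0, nat_lit 0, [nat_lit 780000, nat_lit 1271250, nat_lit 1271250, nat_lit 1271250], [nat_lit 52, nat_lit 40, nat_lit 20, nat_lit 80]⟩,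
 zbF0, []⟩
noncomputable def p000_l151 : Lf2 := ⟨nat_lit 3, nat_lit 1, [nat_lit 19, nat_lit 5, nat_lit 5, nat_lit 20], false, nat_lit 0, nat_lit 0, nat_lit 0, nat_lit 0, zbN0,
 nat_lit 0, nat_lit 0, nat_lit 0, nat_lit 0, nat_lit 0, nat_lit 0, nat_lit 0, nat_lit 0, nat_lit 0, nat_lit 0, nat_lit 0, nat_lit 0, nat_lit 0, nat_lit 0, nat_lit 0, nat_lit 0, nat_lit 0, nat_lit 0, [],
 C1.Rw.none, ⟨p000_k13, nat_lit 0, nat_lit 0, nat_lit 0, nat_lit 0, nat_lit 7592, [], [], [], nat_lit 1271250, nat_lit 1271250, nat_lit 21650, nat_lit 43600, nat_lit 0, nat_lit 0, [nat_lit 780000, nat_lit 1271250, nat_lit 1271250, nat_lit 1271250], [nat_lit 52, nat_lit 40, nat_lit 20, nat_lit 80]⟩,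
 zbF0, []⟩
noncomputable def p000_l152 : Lf2 := ⟨nat_lit 3, nat_lit 1, [nat_lit 19, nat_lit 5, nat_lit 5, nat_lit 20], false, nat_lit 0, nat_lit 0, nat_lit 0, nat_lit 0, zbN0,
 nat_lit 0, nat_lit 0, nat_lit 0, nat_lit 0, nat_lit 0, nat_lit 0, nat_lit 0, nat_lit 0, nat_lit 0, nat_lit 0, nat_lit 0, nat_lit 0, nat_lit 0, nat_lit 0, nat_lit 0, nat_lit 0, nat_lit 0, nat_lit 0, [],
 C1.Rw.none, ⟨p000_k15, nat_lit 0, nat_lit 0, nat_lit 0, nat_lit 0, nat_lit 24068, [], [], [], nat_lit 1271250, nat_lit 1271250, nat_lit 21650, nat_lit 43600, nat_lit 0, nat_lit 0, [nat_lit 780000, nat_lit 1271250, nat_lit 1271250, nat_lit 1271250], [nat_lit 52, nat_lit 40, nat_lit 20, nat_lit 80]⟩,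
 zbF0, []⟩
noncomputable def p000_l153 : Lf2 := ⟨nat_lit 0, nat_lit 1, [nat_lit 19, nat_lit 5, nat_lit 5, nat_lit 20], false, nat_lit 0, nat_lit 0, nat_lit 0, nat_lit 0, ⟨nat_lit 1000, nat_lit 0, nat_lit 0, nat_lit 0, nat_lit 0, nat_lit 0, nat_lit 0, nat_lit 0, nat_lit 0, nat_lit 0, nat_lit 0, nat_lit 0, nat_lit 0, nat_lit 0, nat_lit 0, nat_lit 0, false, false⟩,
 nat_lit 0, nat_lit 0, nat_lit 300000, nat_lit 300000, nat_lit 5270, nat_lit 114084, nat_lit 60000, nat_lit 0, nat_lit 0, nat_lit 60000, nat_lit 15500, nat_lit 0, nat_lit 0, nat_lit 0, nat_lit 0, nat_lit 0, nat_lit 0, nat_lit 0, [],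
 ⟨p000_k8, nat_lit 0, nat_lit 0, nat_lit 0, nat_lit 0, nat_lit 0, [nat_lit 3282000000, nat_lit 7089500001, nat_lit 8885500000], [], [nat_lit 18026609571, nat_lit 18570231521, nat_lit 17470488376, nat_lit 18015374673], nat_lit 0, nat_lit 0, nat_lit 0, nat_lit 0, nat_lit 0, nat_lit 0, [], [nat_lit 115, nat_lit 40, nat_lit 20, nat_lit 40]⟩, ⟨p000_k11, nat_lit 0, nat_lit 0, nat_lit 0, nat_lit 0, nat_lit 24839, [nat_lit 189282000000, nat_lit 348089500000, nat_lit 411885500000], [], [nat_lit 1106992006752, nat_lit 1078649601084, nat_lit 1104078289773, nat_lit 1075323508840], nat_lit 1271250, nat_lit 1271250, nat_lit 0, nat_lit 43600, nat_lit 0, nat_lit 0, [nat_lit 780000, nat_lit 1598750, nat_lit 1271250], [nat_lit 115, nat_lit 40, nat_lit 20, nat_lit 40]⟩,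
 zbF0, []⟩
noncomputable def p000_l154 : Lf2 := ⟨nat_lit 0, nat_lit 1, [nat_lit 19, nat_lit 5, nat_lit 5, nat_lit 20], false, nat_lit 0, nat_lit 0, nat_lit 0, nat_lit 0, ⟨nat_lit 1000, nat_lit 0, nat_lit 0, nat_lit 0, nat_lit 0, nat_lit 0, nat_lit 0, nat_lit 0, nat_lit 0, nat_lit 0, nat_lit 0, nat_lit 0, nat_lit 0, nat_lit 0, nat_lit 0, nat_lit 0, false, false⟩,
 nat_lit 0, nat_lit 0, nat_lit 300000, nat_lit 0, nat_lit 5296, nat_lit 114084, nat_lit 11334, nat_lit 0, nat_lit 0, nat_lit 60000, nat_lit 20000, nat_lit 0, nat_lit 0, nat_lit 0, nat_lit 0, nat_lit 0, nat_lit 0, nat_lit 0, [],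
 ⟨p000_k14, nat_lit 0, nat_lit 0, nat_lit 0, nat_lit 0, nat_lit 0, [nat_lit 3282000000, nat_lit 5449500000, nat_lit 7968000001, nat_lit 9842000000], [], [nat_lit 19908102422, nat_lit 20164090265, nat_lit 19347554035, nat_lit 19604205780], nat_lit 0, nat_lit 0, nat_lit 0, nat_lit 0, nat_lit 0, nat_lit 0, [], [nat_lit 52, nat_lit 40, nat_lit 20, nat_lit 80]⟩, ⟨p000_k13, nat_lit 0, nat_lit 0, nat_lit 0, nat_lit 0, nat_lit 3963, [nat_lit 243282000000, nat_lit 365449500000, nat_lit 487968000000, nat_lit 569842000000], [], [nat_lit 721491824132, nat_lit 724646200279, nat_lit 707219773623, nat_lit 710417990029], nat_lit 1271250, nat_lit 1271250, nat_lit 43600, nat_lit 88400, nat_lit 0, nat_lit 0, [nat_lit 780000, nat_lit 1271250, nat_lit 1271250, nat_lit 1271250], [nat_lit 52, nat_lit 40, nat_lit 20, nat_lit 80]⟩,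
 zbF0, []⟩
noncomputable def p000_l155 : Lf2 := ⟨nat_lit 0, nat_lit 1, [nat_lit 19, nat_lit 5, nat_lit 5, nat_lit 20], false, nat_lit 0, nat_lit 0, nat_lit 0, nat_lit 0, ⟨nat_lit 1000, nat_lit 0, nat_lit 0, nat_lit 0, nat_lit 0, nat_lit 0, nat_lit 0, nat_lit 0, nat_lit 0, nat_lit 0, nat_lit 0, nat_lit 0, nat_lit 0, nat_lit 0, nat_lit 0, nat_lit 0, false, false⟩,
 nat_lit 0, nat_lit 0, nat_lit 300000, nat_lit 0, nat_lit 5290, nat_lit 114084, nat_lit 11233, nat_lit 0, nat_lit 0, nat_lit 60000, nat_lit 20000, nat_lit 0, nat_lit 0, nat_lit 0, nat_lit 0, nat_lit 0, nat_lit 0, nat_lit 0, [],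
 ⟨p000_k12, nat_lit 0, nat_lit 0, nat_lit 0, nat_lit 0, nat_lit 0, [nat_lit 3282000000, nat_lit 5449500000, nat_lit 7968000001, nat_lit 9842000000], [], [nat_lit 20169090144, nat_lit 20424969946, nat_lit 19609955142, nat_lit 19866497769], nat_lit 0, nat_lit 0, nat_lit 0, nat_lit 0, nat_lit 0, nat_lit 0, [], [nat_lit 52, nat_lit 40, nat_lit 20, nat_lit 80]⟩, ⟨p000_k13, nat_lit 0, nat_lit 0, nat_lit 0, nat_lit 0, nat_lit 24839, [nat_lit 243282000000, nat_lit 365449500000, nat_lit 487968000000, nat_lit 569842000000], [], [nat_lit 721491824132, nat_lit 724646200279, nat_lit 707219773623, nat_lit 710417990029], nat_lit 1271250, nat_lit 1271250, nat_lit 43600, nat_lit 88400, nat_lit 0, nat_lit 0, [nat_lit 780000, nat_lit 1271250, nat_lit 1271250, nat_lit 1271250], [nat_lit 52, nat_lit 40, nat_lit 20, nat_lit 80]⟩,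
 zbF0, []⟩
noncomputable def p000_l156 : Lf2 := ⟨nat_lit 0, nat_lit 1, [nat_lit 19, nat_lit 5, nat_lit 5, nat_lit 20], false, nat_lit 0, nat_lit 0, nat_lit 0, nat_lit 0, ⟨nat_lit 1000, nat_lit 0, nat_lit 0, nat_lit 0, nat_lit 0, nat_lit 0, nat_lit 0, nat_lit 0, nat_lit 0, nat_lit 0, nat_lit 0, nat_lit 0, nat_lit 0, nat_lit 0, nat_lit 0, nat_lit 0, false, false⟩,
 nat_lit 0, nat_lit 0, nat_lit 300000, nat_lit 300000, nat_lit 5290, nat_lit 114084, nat_lit 60000, nat_lit 0, nat_lit 0, nat_lit 60000, nat_lit 0, nat_lit 7397, nat_lit 0, nat_lit 0, nat_lit 0, nat_lit 0, nat_lit 0, nat_lit 408797216783, [],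
 ⟨p000_k12, nat_lit 0, nat_lit 0, nat_lit 0, nat_lit 0, nat_lit 0, [nat_lit 3282000000, nat_lit 5449500000, nat_lit 7968000001, nat_lit 9842000000], [], [nat_lit 20169090144, nat_lit 20424969946, nat_lit 19609955142, nat_lit 19866497769], nat_lit 0, nat_lit 0, nat_lit 0, nat_lit 0, nat_lit 0, nat_lit 0, [], [nat_lit 52, nat_lit 40, nat_lit 20, nat_lit 80]⟩, ⟨p000_k13, nat_lit 0, nat_lit 0, nat_lit 0, nat_lit 0, nat_lit 24839, [nat_lit 3282000000, nat_lit 5449500000, nat_lit 7968000000, nat_lit 9842000000], [], [nat_lit 33810716271, nat_lit 3509637690, nat_lit 30206728001, nat_lit 0], nat_lit 1271250, nat_lit 1271250, nat_lit 43600, nat_lit 88400, nat_lit 0, nat_lit 0, [nat_lit 780000, nat_lit 1271250, nat_lit 1271250, nat_lit 1271250], [nat_lit 52, nat_lit 40, nat_lit 20, nat_lit 80]⟩,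
 zbF0, []⟩
noncomputable def p000_l157 : Lf2 := ⟨nat_lit 3, nat_lit 1, [nat_lit 19, nat_lit 5, nat_lit 5, nat_lit 20], false, nat_lit 0, nat_lit 0, nat_lit 0, nat_lit 0, zbN0,
 nat_lit 0, nat_lit 0, nat_lit 0, nat_lit 0, nat_lit 0, nat_lit 0, nat_lit 0, nat_lit 0, nat_lit 0, nat_lit 0, nat_lit 0, nat_lit 0, nat_lit 0, nat_lit 0, nat_lit 0, nat_lit 0, nat_lit 0, nat_lit 0, [],
 C1.Rw.none, ⟨p000_k13, nat_lit 0, nat_lit 0, nat_lit 0, nat_lit 0, nat_lit 7592, [], [], [], nat_lit 1271250, nat_lit 1271250, nat_lit 43600, nat_lit 88400, nat_lit 0, nat_lit 0, [nat_lit 780000, nat_lit 1271250, nat_lit 1271250, nat_lit 1271250], [nat_lit 52, nat_lit 40, nat_lit 20, nat_lit 80]⟩,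
 zbF0, []⟩
noncomputable def p000_l158 : Lf2 := ⟨nat_lit 0, nat_lit 1, [nat_lit 19, nat_lit 5, nat_lit 5, nat_lit 20], false, nat_lit 0, nat_lit 0, nat_lit 0, nat_lit 0, ⟨nat_lit 1000, nat_lit 0, nat_lit 0, nat_lit 0, nat_lit 0, nat_lit 0, nat_lit 0, nat_lit 0, nat_lit 0, nat_lit 0, nat_lit 0, nat_lit 0, nat_lit 0, nat_lit 0, nat_lit 0, nat_lit 0, false, false⟩,
 nat_lit 0, nat_lit 0, nat_lit 300000, nat_lit 0, nat_lit 0, nat_lit 117667, nat_lit 1779, nat_lit 0, nat_lit 571, nat_lit 0, nat_lit 0, nat_lit 2754, nat_lit 0, nat_lit 0, nat_lit 0, nat_lit 0, nat_lit 0, nat_lit 149501263241, [],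
 ⟨p000_k16, nat_lit 0, nat_lit 0, nat_lit 0, nat_lit 0, nat_lit 0, [nat_lit 7089500001, nat_lit 8885500000], [], [nat_lit 4685746103, nat_lit 4840773601, nat_lit 4784075702, nat_lit 4934933602], nat_lit 0, nat_lit 0, nat_lit 0, nat_lit 0, nat_lit 0, nat_lit 0, [], [nat_lit 162, nat_lit 40, nat_lit 20, nat_lit 40]⟩, ⟨p000_k17, nat_lit 0, nat_lit 0, nat_lit 0, nat_lit 0, nat_lit 24068, [nat_lit 7089500000, nat_lit 8885500000], [], [nat_lit 17472003137, nat_lit 2534295154, nat_lit 14893935859, nat_lit 0], nat_lit 1271250, nat_lit 1271250, nat_lit 43600, nat_lit 88400, nat_lit 0, nat_lit 0, [nat_lit 1553750, nat_lit 1271250], [nat_lit 162, nat_lit 40, nat_lit 20, nat_lit 40]⟩,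
 zbF0, []⟩
noncomputable def p000_l159 : Lf2 := ⟨nat_lit 3, nat_lit 1, [nat_lit 19, nat_lit 5, nat_lit 5, nat_lit 20], false, nat_lit 0, nat_lit 0, nat_lit 0, nat_lit 0, zbN0,
 nat_lit 0, nat_lit 0, nat_lit 0, nat_lit 0, nat_lit 0, nat_lit 0, nat_lit 0, nat_lit 0, nat_lit 0, nat_lit 0, nat_lit 0, nat_lit 0, nat_lit 0, nat_lit 0, nat_lit 0, nat_lit 0, nat_lit 0, nat_lit 0, [],
 C1.Rw.none, ⟨p000_k13, nat_lit 0, nat_lit 0, nat_lit 0, nat_lit 0, nat_lit 7592, [], [], [], nat_lit 1271250, nat_lit 1271250, nat_lit 43600, nat_lit 88400, nat_lit 0, nat_lit 0, [nat_lit 780000, nat_lit 1271250, nat_lit 1271250, nat_lit 1271250], [nat_lit 52, nat_lit 40, nat_lit 20, nat_lit 80]⟩,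
 zbF0, []⟩
noncomputable def p000_l160 : Lf2 := ⟨nat_lit 0, nat_lit 1, [nat_lit 19, nat_lit 5, nat_lit 5, nat_lit 20], false, nat_lit 0, nat_lit 0, nat_lit 0, nat_lit 0, ⟨nat_lit 1000, nat_lit 0, nat_lit 0, nat_lit 0, nat_lit 0, nat_lit 0, nat_lit 0, nat_lit 0, nat_lit 0, nat_lit 0, nat_lit 0, nat_lit 0, nat_lit 0, nat_lit 0, nat_lit 0, nat_lit 0, false, false⟩,
 nat_lit 0, nat_lit 0, nat_lit 300000, nat_lit 0, nat_lit 15023, nat_lit 117667, nat_lit 14130, nat_lit 0, nat_lit 0, nat_lit 57213, nat_lit 0, nat_lit 2754, nat_lit 0, nat_lit 0, nat_lit 0, nat_lit 0, nat_lit 0, nat_lit 149501263241, [],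
 ⟨p000_k18, nat_lit 0, nat_lit 0, nat_lit 0, nat_lit 0, nat_lit 0, [nat_lit 7089500001, nat_lit 7968000001, nat_lit 8885500000], [], [nat_lit 18367359471, nat_lit 18714634947, nat_lit 16646578038, nat_lit 16995882256], nat_lit 0, nat_lit 0, nat_lit 0, nat_lit 0, nat_lit 0, nat_lit 0, [], [nat_lit 171, nat_lit 40, nat_lit 20, nat_lit 40]⟩, ⟨p000_k19, nat_lit 0, nat_lit 0, nat_lit 0, nat_lit 0, nat_lit 24068, [nat_lit 7089500000, nat_lit 7968000000, nat_lit 8885500000], [], [nat_lit 17472003137, nat_lit 2534295154, nat_lit 14893935859, nat_lit 0], nat_lit 1271250, nat_lit 1271250, nat_lit 43600, nat_lit 88400, nat_lit 0, nat_lit 0, [nat_lit 1553750, nat_lit 1271250, nat_lit 1271250], [nat_lit 171, nat_lit 40, nat_lit 20, nat_lit 40]⟩,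
 zbF0, []⟩
noncomputable def p000_l161 : Lf2 := ⟨nat_lit 3, nat_lit 1, [nat_lit 19, nat_lit 5, nat_lit 5, nat_lit 20], false, nat_lit 0, nat_lit 0, nat_lit 0, nat_lit 0, zbN0,
 nat_lit 0, nat_lit 0, nat_lit 0, nat_lit 0, nat_lit 0, nat_lit 0, nat_lit 0, nat_lit 0, nat_lit 0, nat_lit 0, nat_lit 0, nat_lit 0, nat_lit 0, nat_lit 0, nat_lit 0, nat_lit 0, nat_lit 0, nat_lit 0, [],
 C1.Rw.none, ⟨p000_k13, nat_lit 0, nat_lit 0, nat_lit 0, nat_lit 0, nat_lit 16489, [], [], [], nat_lit 1271250, nat_lit 1271250, nat_lit 43600, nat_lit 65850, nat_lit 0, nat_lit 0, [nat_lit 780000, nat_lit 1271250, nat_lit 1271250, nat_lit 1271250], [nat_lit 52, nat_lit 40, nat_lit 20, nat_lit 80]⟩,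
 zbF0, []⟩
noncomputable def p000_l162 : Lf2 := ⟨nat_lit 3, nat_lit 1, [nat_lit 19, nat_lit 5, nat_lit 5, nat_lit 20], false, nat_lit 0, nat_lit 0, nat_lit 0, nat_lit 0, zbN0,
 nat_lit 0, nat_lit 0, nat_lit 0, nat_lit 0, nat_lit 0, nat_lit 0, nat_lit 0, nat_lit 0, nat_lit 0, nat_lit 0, nat_lit 0, nat_lit 0, nat_lit 0, nat_lit 0, nat_lit 0, nat_lit 0, nat_lit 0, nat_lit 0, [],
 C1.Rw.none, ⟨p000_k13, nat_lit 0, nat_lit 0, nat_lit 0, nat_lit 0, nat_lit 7592, [], [], [], nat_lit 1271250, nat_lit 1271250, nat_lit 43600, nat_lit 65850, nat_lit 0, nat_lit 0, [nat_lit 780000, nat_lit 1271250, nat_lit 1271250, nat_lit 1271250], [nat_lit 52, nat_lit 40, nat_lit 20, nat_lit 80]⟩,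
 zbF0, []⟩
noncomputable def p000_l163 : Lf2 := ⟨nat_lit 3, nat_lit 1, [nat_lit 19, nat_lit 5, nat_lit 5, nat_lit 20], false, nat_lit 0, nat_lit 0, nat_lit 0, nat_lit 0, zbN0,
 nat_lit 0, nat_lit 0, nat_lit 0, nat_lit 0, nat_lit 0, nat_lit 0, nat_lit 0, nat_lit 0, nat_lit 0, nat_lit 0, nat_lit 0, nat_lit 0, nat_lit 0, nat_lit 0, nat_lit 0, nat_lit 0, nat_lit 0, nat_lit 0, [],
 C1.Rw.none, ⟨p000_k15, nat_lit 0, nat_lit 0, nat_lit 0, nat_lit 0, nat_lit 24068, [], [], [], nat_lit 1271250, nat_lit 1271250, nat_lit 43600, nat_lit 65850, nat_lit 0, nat_lit 0, [nat_lit 780000, nat_lit 1271250, nat_lit 1271250, nat_lit 1271250], [nat_lit 52, nat_lit 40, nat_lit 20, nat_lit 80]⟩,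
 zbF0, []⟩
noncomputable def p000_l164 : Lf2 := ⟨nat_lit 3, nat_lit 1, [nat_lit 19, nat_lit 5, nat_lit 5, nat_lit 20], false, nat_lit 0, nat_lit 0, nat_lit 0, nat_lit 0, zbN0,
 nat_lit 0, nat_lit 0, nat_lit 0, nat_lit 0, nat_lit 0, nat_lit 0, nat_lit 0, nat_lit 0, nat_lit 0, nat_lit 0, nat_lit 0, nat_lit 0, nat_lit 0, nat_lit 0, nat_lit 0, nat_lit 0, nat_lit 0, nat_lit 0, [],
 C1.Rw.none, ⟨p000_k13, nat_lit 0, nat_lit 0, nat_lit 0, nat_lit 0, nat_lit 7592, [], [], [], nat_lit 1271250, nat_lit 1271250, nat_lit 43600, nat_lit 65850, nat_lit 0, nat_lit 0, [nat_lit 780000, nat_lit 1271250, nat_lit 1271250, nat_lit 1271250], [nat_lit 52, nat_lit 40, nat_lit 20, nat_lit 80]⟩,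
 zbF0, []⟩
noncomputable def p000_l165 : Lf2 := ⟨nat_lit 3, nat_lit 1, [nat_lit 19, nat_lit 5, nat_lit 5, nat_lit 20], false, nat_lit 0, nat_lit 0, nat_lit 0, nat_lit 0, zbN0,
 nat_lit 0, nat_lit 0, nat_lit 0, nat_lit 0, nat_lit 0, nat_lit 0, nat_lit 0, nat_lit 0, nat_lit 0, nat_lit 0, nat_lit 0, nat_lit 0, nat_lit 0, nat_lit 0, nat_lit 0, nat_lit 0, nat_lit 0, nat_lit 0, [],
 C1.Rw.none, ⟨p000_k15, nat_lit 0, nat_lit 0, nat_lit 0, nat_lit 0, nat_lit 24068, [], [], [], nat_lit 1271250, nat_lit 1271250, nat_lit 43600, nat_lit 65850, nat_lit 0, nat_lit 0, [nat_lit 780000, nat_lit 1271250, nat_lit 1271250, nat_lit 1271250], [nat_lit 52, nat_lit 40, nat_lit 20, nat_lit 80]⟩,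
 zbF0, []⟩
noncomputable def p000_l166 : Lf2 := ⟨nat_lit 3, nat_lit 1, [nat_lit 19, nat_lit 5, nat_lit 5, nat_lit 20], false, nat_lit 0, nat_lit 0, nat_lit 0, nat_lit 0, zbN0,
 nat_lit 0, nat_lit 0, nat_lit 0, nat_lit 0, nat_lit 0, nat_lit 0, nat_lit 0, nat_lit 0, nat_lit 0, nat_lit 0, nat_lit 0, nat_lit 0, nat_lit 0, nat_lit 0, nat_lit 0, nat_lit 0, nat_lit 0, nat_lit 0, [],
 C1.Rw.none, ⟨p000_k13, nat_lit 0, nat_lit 0, nat_lit 0, nat_lit 0, nat_lit 24839, [], [], [], nat_lit 1271250, nat_lit 1271250, nat_lit 65850, nat_lit 88400, nat_lit 0, nat_lit 0, [nat_lit 780000, nat_lit 1271250, nat_lit 1271250, nat_lit 1271250], [nat_lit 52, nat_lit 40, nat_lit 20, nat_lit 80]⟩,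
 zbF0, []⟩
noncomputable def p000_l167 : Lf2 := ⟨nat_lit 3, nat_lit 1, [nat_lit 19, nat_lit 5, nat_lit 5, nat_lit 20], false, nat_lit 0, nat_lit 0, nat_lit 0, nat_lit 0, zbN0,
 nat_lit 0, nat_lit 0, nat_lit 0, nat_lit 0, nat_lit 0, nat_lit 0, nat_lit 0, nat_lit 0, nat_lit 0, nat_lit 0, nat_lit 0, nat_lit 0, nat_lit 0, nat_lit 0, nat_lit 0, nat_lit 0, nat_lit 0, nat_lit 0, [],
 C1.Rw.none, ⟨p000_k13, nat_lit 0, nat_lit 0, nat_lit 0, nat_lit 0, nat_lit 16489, [], [], [], nat_lit 1271250, nat_lit 1271250, nat_lit 43600, nat_lit 65850, nat_lit 0, nat_lit 0, [nat_lit 780000, nat_lit 1271250, nat_lit 1271250, nat_lit 1271250], [nat_lit 52, nat_lit 40, nat_lit 20, nat_lit 80]⟩,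
 zbF0, []⟩
noncomputable def p000_l168 : Lf2 := ⟨nat_lit 3, nat_lit 1, [nat_lit 19, nat_lit 5, nat_lit 5, nat_lit 20], false, nat_lit 0, nat_lit 0, nat_lit 0, nat_lit 0, zbN0,
 nat_lit 0, nat_lit 0, nat_lit 0, nat_lit 0, nat_lit 0, nat_lit 0, nat_lit 0, nat_lit 0, nat_lit 0, nat_lit 0, nat_lit 0, nat_lit 0, nat_lit 0, nat_lit 0, nat_lit 0, nat_lit 0, nat_lit 0, nat_lit 0, [],
 C1.Rw.none, ⟨p000_k13, nat_lit 0, nat_lit 0, nat_lit 0, nat_lit 0, nat_lit 7592, [], [], [], nat_lit 1271250, nat_lit 1271250, nat_lit 43600, nat_lit 65850, nat_lit 0, nat_lit 0, [nat_lit 780000, nat_lit 1271250, nat_lit 1271250, nat_lit 1271250], [nat_lit 52, nat_lit 40, nat_lit 20, nat_lit 80]⟩,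
 zbF0, []⟩
noncomputable def p000_l169 : Lf2 := ⟨nat_lit 3, nat_lit 1, [nat_lit 19, nat_lit 5, nat_lit 5, nat_lit 20], false, nat_lit 0, nat_lit 0, nat_lit 0, nat_lit 0, zbN0,
 nat_lit 0, nat_lit 0, nat_lit 0, nat_lit 0, nat_lit 0, nat_lit 0, nat_lit 0, nat_lit 0, nat_lit 0, nat_lit 0, nat_lit 0, nat_lit 0, nat_lit 0, nat_lit 0, nat_lit 0, nat_lit 0, nat_lit 0, nat_lit 0, [],
 C1.Rw.none, ⟨p000_k15, nat_lit 0, nat_lit 0, nat_lit 0, nat_lit 0, nat_lit 24068, [], [], [], nat_lit 1271250, nat_lit 1271250, nat_lit 43600, nat_lit 65850, nat_lit 0, nat_lit 0, [nat_lit 780000, nat_lit 1271250, nat_lit 1271250, nat_lit 1271250], [nat_lit 52, nat_lit 40, nat_lit 20, nat_lit 80]⟩,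
 zbF0, []⟩
noncomputable def p000_l170 : Lf2 := ⟨nat_lit 3, nat_lit 1, [nat_lit 19, nat_lit 5, nat_lit 5, nat_lit 20], false, nat_lit 0, nat_lit 0, nat_lit 0, nat_lit 0, zbN0,
 nat_lit 0, nat_lit 0, nat_lit 0, nat_lit 0, nat_lit 0, nat_lit 0, nat_lit 0, nat_lit 0, nat_lit 0, nat_lit 0, nat_lit 0, nat_lit 0, nat_lit 0, nat_lit 0, nat_lit 0, nat_lit 0, nat_lit 0, nat_lit 0, [],
 C1.Rw.none, ⟨p000_k13, nat_lit 0, nat_lit 0, nat_lit 0, nat_lit 0, nat_lit 24839, [], [], [], nat_lit 1271250, nat_lit 1271250, nat_lit 65850, nat_lit 88400, nat_lit 0, nat_lit 0, [nat_lit 780000, nat_lit 1271250, nat_lit 1271250, nat_lit 1271250], [nat_lit 52, nat_lit 40, nat_lit 20, nat_lit 80]⟩,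
 zbF0, []⟩
noncomputable def p000_l171 : Lf2 := ⟨nat_lit 0, nat_lit 1, [nat_lit 19, nat_lit 5, nat_lit 5, nat_lit 20], false, nat_lit 0, nat_lit 0, nat_lit 0, nat_lit 0, ⟨nat_lit 1000, nat_lit 0, nat_lit 0, nat_lit 0, nat_lit 0, nat_lit 0, nat_lit 0, nat_lit 0, nat_lit 0, nat_lit 0, nat_lit 0, nat_lit 0, nat_lit 0, nat_lit 0, nat_lit 0, nat_lit 0, false, false⟩,
 nat_lit 0, nat_lit 0, nat_lit 300000, nat_lit 300000, nat_lit 5414, nat_lit 114084, nat_lit 60000, nat_lit 0, nat_lit 0, nat_lit 60000, nat_lit 16022, nat_lit 0, nat_lit 0, nat_lit 0, nat_lit 0, nat_lit 0, nat_lit 0, nat_lit 0, [],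
 ⟨p000_k10, nat_lit 0, nat_lit 0, nat_lit 0, nat_lit 0, nat_lit 0, [nat_lit 3282000000, nat_lit 7089500001, nat_lit 8885500000], [], [nat_lit 17600082790, nat_lit 17875480632, nat_lit 17026588210, nat_lit 17302643598], nat_lit 0, nat_lit 0, nat_lit 0, nat_lit 0, nat_lit 0, nat_lit 0, [], [nat_lit 115, nat_lit 40, nat_lit 20, nat_lit 40]⟩, ⟨p000_k11, nat_lit 0, nat_lit 0, nat_lit 0, nat_lit 0, nat_lit 24839, [nat_lit 195546000000, nat_lit 359573500000, nat_lit 425457500000], [], [nat_lit 1139574289773, nat_lit 1111191904766, nat_lit 1137212975994, nat_lit 1108541795816], nat_lit 1271250, nat_lit 1271250, nat_lit 43600, nat_lit 88400, nat_lit 0, nat_lit 0, [nat_lit 780000, nat_lit 1598750, nat_lit 1271250], [nat_lit 115, nat_lit 40, nat_lit 20, nat_lit 40]⟩,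
 zbF0, []⟩
noncomputable def p000_l172 : Lf2 := ⟨nat_lit 0, nat_lit 1, [nat_lit 19, nat_lit 5, nat_lit 5, nat_lit 20], false, nat_lit 0, nat_lit 0, nat_lit 0, nat_lit 0, ⟨nat_lit 1000, nat_lit 0, nat_lit 0, nat_lit 0, nat_lit 0, nat_lit 0, nat_lit 0, nat_lit 0, nat_lit 0, nat_lit 0, nat_lit 0, nat_lit 0, nat_lit 0, nat_lit 0, nat_lit 0, nat_lit 0, false, false⟩,
 nat_lit 0, nat_lit 0, nat_lit 300000, nat_lit 0, nat_lit 5432, nat_lit 114084, nat_lit 11233, nat_lit 0, nat_lit 0, nat_lit 60000, nat_lit 20000, nat_lit 0, nat_lit 0, nat_lit 0, nat_lit 0, nat_lit 0, nat_lit 0, nat_lit 0, [],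
 ⟨p000_k14, nat_lit 0, nat_lit 0, nat_lit 0, nat_lit 0, nat_lit 0, [nat_lit 3282000000, nat_lit 5449500000, nat_lit 7968000001, nat_lit 9842000000], [], [nat_lit 19214761813, nat_lit 19733011976, nat_lit 18925981281, nat_lit 19444919745], nat_lit 0, nat_lit 0, nat_lit 0, nat_lit 0, nat_lit 0, nat_lit 0, [], [nat_lit 52, nat_lit 40, nat_lit 20, nat_lit 80]⟩, ⟨p000_k13, nat_lit 0, nat_lit 0, nat_lit 0, nat_lit 0, nat_lit 24839, [nat_lit 243282000000, nat_lit 365449500000, nat_lit 487968000000, nat_lit 569842000000], [], [nat_lit 707219773623, nat_lit 710417990029, nat_lit 700083748368, nat_lit 703303884904], nat_lit 1271250, nat_lit 1271250, nat_lit 88400, nat_lit 111251, nat_lit 0, nat_lit 0, [nat_lit 780000, nat_lit 1271250, nat_lit 1271250, nat_lit 1271250], [nat_lit 52, nat_lit 40, nat_lit 20, nat_lit 80]⟩,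
 zbF0, []⟩
noncomputable def p000_l173 : Lf2 := ⟨nat_lit 0, nat_lit 1, [nat_lit 19, nat_lit 5, nat_lit 5, nat_lit 20], false, nat_lit 0, nat_lit 0, nat_lit 0, nat_lit 0, ⟨nat_lit 1000, nat_lit 0, nat_lit 0, nat_lit 0, nat_lit 0, nat_lit 0, nat_lit 0, nat_lit 0, nat_lit 0, nat_lit 0, nat_lit 0, nat_lit 0, nat_lit 0, nat_lit 0, nat_lit 0, nat_lit 0, false, false⟩,
 nat_lit 0, nat_lit 0, nat_lit 300000, nat_lit 203857, nat_lit 92512, nat_lit 114084, nat_lit 60000, nat_lit 8013, nat_lit 0, nat_lit 60000, nat_lit 20000, nat_lit 0, nat_lit 0, nat_lit 0, nat_lit 0, nat_lit 0, nat_lit 0, nat_lit 0, [],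
 ⟨p000_k14, nat_lit 0, nat_lit 0, nat_lit 0, nat_lit 0, nat_lit 0, [nat_lit 99438000001, nat_lit 149683500000, nat_lit 200280000001, nat_lit 234206000000], [], [nat_lit 246165237272, nat_lit 247408203958, nat_lit 216921344482, nat_lit 218772287794], nat_lit 0, nat_lit 0, nat_lit 0, nat_lit 0, nat_lit 0, nat_lit 0, [], [nat_lit 52, nat_lit 40, nat_lit 20, nat_lit 80]⟩, ⟨p000_k13, nat_lit 0, nat_lit 0, nat_lit 0, nat_lit 0, nat_lit 3963, [nat_lit 243282000000, nat_lit 365449500000, nat_lit 487968000000, nat_lit 569842000000], [], [nat_lit 735763874640, nat_lit 738874410528, nat_lit 700083748368, nat_lit 703303884904], nat_lit 1271250, nat_lit 1271250, nat_lit 0, nat_lit 111251, nat_lit 0, nat_lit 0, [nat_lit 780000, nat_lit 1271250, nat_lit 1271250, nat_lit 1271250], [nat_lit 52, nat_lit 40, nat_lit 20, nat_lit 80]⟩,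
 zbF0, []⟩
noncomputable def p000_l174 : Lf2 := ⟨nat_lit 0, nat_lit 1, [nat_lit 19, nat_lit 5, nat_lit 5, nat_lit 20], false, nat_lit 0, nat_lit 0, nat_lit 0, nat_lit 0, ⟨nat_lit 1000, nat_lit 0, nat_lit 0, nat_lit 0, nat_lit 0, nat_lit 0, nat_lit 0, nat_lit 0, nat_lit 0, nat_lit 0, nat_lit 0, nat_lit 0, nat_lit 0, nat_lit 0, nat_lit 0, nat_lit 0, false, false⟩,
 nat_lit 0, nat_lit 0, nat_lit 16085, nat_lit 236359, nat_lit 48972, nat_lit 6116, nat_lit 60000, nat_lit 4107, nat_lit 0, nat_lit 0, nat_lit 0, nat_lit 0, nat_lit 0, nat_lit 0, nat_lit 0, nat_lit 0, nat_lit 0, nat_lit 0, [],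
 ⟨p000_k10, nat_lit 0, nat_lit 0, nat_lit 0, nat_lit 0, nat_lit 0, [nat_lit 52566000000, nat_lit 97443500000, nat_lit 115667500000], [], [nat_lit 120157721688, nat_lit 120513238517, nat_lit 105080907158, nat_lit 105471095795], nat_lit 0, nat_lit 0, nat_lit 0, nat_lit 0, nat_lit 0, nat_lit 0, [], [nat_lit 115, nat_lit 40, nat_lit 20, nat_lit 40]⟩, ⟨p000_k11, nat_lit 0, nat_lit 0, nat_lit 0, nat_lit 0, nat_lit 12313, [nat_lit 3282000000, nat_lit 7089500000, nat_lit 8885500000], [], [nat_lit 43547055832, nat_lit 41930988136, nat_lit 43563193360, nat_lit 42028383160], nat_lit 1271250, nat_lit 1271250, nat_lit 0, nat_lit 111251, nat_lit 0, nat_lit 0, [nat_lit 780000, nat_lit 1598750, nat_lit 1271250], [nat_lit 115, nat_lit 40, nat_lit 20, nat_lit 40]⟩,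
 zbF0, []⟩
noncomputable def p000_l175 : Lf2 := ⟨nat_lit 0, nat_lit 1, [nat_lit 19, nat_lit 5, nat_lit 5, nat_lit 20], false, nat_lit 0, nat_lit 0, nat_lit 0, nat_lit 0, ⟨nat_lit 1000, nat_lit 0, nat_lit 0, nat_lit 0, nat_lit 0, nat_lit 0, nat_lit 0, nat_lit 0, nat_lit 0, nat_lit 0, nat_lit 0, nat_lit 0, nat_lit 0, nat_lit 0, nat_lit 0, nat_lit 0, false, false⟩,
 nat_lit 0, nat_lit 0, nat_lit 16085, nat_lit 236322, nat_lit 55919, nat_lit 6116, nat_lit 60000, nat_lit 4756, nat_lit 0, nat_lit 0, nat_lit 0, nat_lit 0, nat_lit 0, nat_lit 0, nat_lit 0, nat_lit 0, nat_lit 0, nat_lit 0, [],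
 ⟨p000_k20, nat_lit 0, nat_lit 0, nat_lit 0, nat_lit 0, nat_lit 0, [nat_lit 60354000000, nat_lit 111721500000, nat_lit 132541500000], [], [nat_lit 136674876749, nat_lit 136873199673, nat_lit 119436697210, nat_lit 119665629350], nat_lit 0, nat_lit 0, nat_lit 0, nat_lit 0, nat_lit 0, nat_lit 0, [], [nat_lit 115, nat_lit 40, nat_lit 20, nat_lit 40]⟩, ⟨p000_k11, nat_lit 0, nat_lit 0, nat_lit 0, nat_lit 0, nat_lit 16489, [nat_lit 3282000000, nat_lit 7089500000, nat_lit 8885500000], [], [nat_lit 43547055832, nat_lit 41930988136, nat_lit 43563193360, nat_lit 42028383160], nat_lit 1271250, nat_lit 1271250, nat_lit 0, nat_lit 111251, nat_lit 0, nat_lit 0, [nat_lit 780000, nat_lit 1598750, nat_lit 1271250], [nat_lit 115, nat_lit 40, nat_lit 20, nat_lit 40]⟩,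
 zbF0, []⟩
noncomputable def p000_l176 : Lf2 := ⟨nat_lit 0, nat_lit 1, [nat_lit 19, nat_lit 5, nat_lit 5, nat_lit 20], false, nat_lit 0, nat_lit 0, nat_lit 0, nat_lit 0, ⟨nat_lit 1000, nat_lit 0, nat_lit 0, nat_lit 0, nat_lit 0, nat_lit 0, nat_lit 0, nat_lit 0, nat_lit 0, nat_lit 0, nat_lit 0, nat_lit 0, nat_lit 0, nat_lit 0, nat_lit 0, nat_lit 0, false, false⟩,
 nat_lit 0, nat_lit 0, nat_lit 16085, nat_lit 236559, nat_lit 59446, nat_lit 6116, nat_lit 60000, nat_lit 5085, nat_lit 0, nat_lit 0, nat_lit 0, nat_lit 0, nat_lit 0, nat_lit 0, nat_lit 0, nat_lit 0, nat_lit 0, nat_lit 0, [],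
 ⟨p000_k21, nat_lit 0, nat_lit 0, nat_lit 0, nat_lit 0, nat_lit 0, [nat_lit 64302000000, nat_lit 118959500001, nat_lit 141095500000], [], [nat_lit 145113516582, nat_lit 145322280131, nat_lit 126773600675, nat_lit 127015157878], nat_lit 0, nat_lit 0, nat_lit 0, nat_lit 0, nat_lit 0, nat_lit 0, [], [nat_lit 115, nat_lit 40, nat_lit 20, nat_lit 40]⟩, ⟨p000_k11, nat_lit 0, nat_lit 0, nat_lit 0, nat_lit 0, nat_lit 20664, [nat_lit 3282000000, nat_lit 7089500000, nat_lit 8885500000], [], [nat_lit 43547055832, nat_lit 41930988136, nat_lit 43563193360, nat_lit 42028383160], nat_lit 1271250, nat_lit 1271250, nat_lit 0, nat_lit 111251, nat_lit 0, nat_lit 0, [nat_lit 780000, nat_lit 1598750, nat_lit 1271250], [nat_lit 115, nat_lit 40, nat_lit 20, nat_lit 40]⟩,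
 zbF0, []⟩
noncomputable def p000_l177 : Lf2 := ⟨nat_lit 0, nat_lit 1, [nat_lit 19, nat_lit 5, nat_lit 5, nat_lit 20], false, nat_lit 0, nat_lit 0, nat_lit 0, nat_lit 0, ⟨nat_lit 1000, nat_lit 0, nat_lit 0, nat_lit 0, nat_lit 0, nat_lit 0, nat_lit 0, nat_lit 0, nat_lit 0, nat_lit 0, nat_lit 0, nat_lit 0, nat_lit 0, nat_lit 0, nat_lit 0, nat_lit 0, false, false⟩,
 nat_lit 0, nat_lit 0, nat_lit 16085, nat_lit 236796, nat_lit 62718, nat_lit 6116, nat_lit 60000, nat_lit 5391, nat_lit 0, nat_lit 0, nat_lit 0, nat_lit 0, nat_lit 0, nat_lit 0, nat_lit 0, nat_lit 0, nat_lit 0, nat_lit 0, [],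
 ⟨p000_k22, nat_lit 0, nat_lit 0, nat_lit 0, nat_lit 0, nat_lit 0, [nat_lit 67974000001, nat_lit 125691500000, nat_lit 149051500000], [], [nat_lit 153008232117, nat_lit 153227515537, nat_lit 133657285784, nat_lit 133907495961], nat_lit 0, nat_lit 0, nat_lit 0, nat_lit 0, nat_lit 0, nat_lit 0, [], [nat_lit 115, nat_lit 40, nat_lit 20, nat_lit 40]⟩, ⟨p000_k11, nat_lit 0, nat_lit 0, nat_lit 0, nat_lit 0, nat_lit 24839, [nat_lit 3282000000, nat_lit 7089500000, nat_lit 8885500000], [], [nat_lit 43547055832, nat_lit 41930988136, nat_lit 43563193360, nat_lit 42028383160], nat_lit 1271250, nat_lit 1271250, nat_lit 0, nat_lit 111251, nat_lit 0, nat_lit 0, [nat_lit 780000, nat_lit 1598750, nat_lit 1271250], [nat_lit 115, nat_lit 40, nat_lit 20, nat_lit 40]⟩,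
 zbF0, []⟩
noncomputable def p000_l178 : Lf2 := ⟨nat_lit 0, nat_lit 1, [nat_lit 19, nat_lit 5, nat_lit 5, nat_lit 20], false, nat_lit 0, nat_lit 0, nat_lit 0, nat_lit 0, ⟨nat_lit 1000, nat_lit 0, nat_lit 0, nat_lit 0, nat_lit 0, nat_lit 0, nat_lit 0, nat_lit 0, nat_lit 0, nat_lit 0, nat_lit 0, nat_lit 0, nat_lit 0, nat_lit 0, nat_lit 0, nat_lit 0, false, false⟩,
 nat_lit 0, nat_lit 0, nat_lit 300000, nat_lit 0, nat_lit 5506, nat_lit 114084, nat_lit 11233, nat_lit 0, nat_lit 0, nat_lit 60000, nat_lit 20000, nat_lit 0, nat_lit 0, nat_lit 0, nat_lit 0, nat_lit 0, nat_lit 0, nat_lit 0, [],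
 ⟨p000_k14, nat_lit 0, nat_lit 0, nat_lit 0, nat_lit 0, nat_lit 0, [nat_lit 3282000000, nat_lit 5449500000, nat_lit 7968000001, nat_lit 9842000000], [], [nat_lit 18849098241, nat_lit 19370741553, nat_lit 18051234041, nat_lit 18571675361], nat_lit 0, nat_lit 0, nat_lit 0, nat_lit 0, nat_lit 0, nat_lit 0, [], [nat_lit 52, nat_lit 40, nat_lit 20, nat_lit 80]⟩, ⟨p000_k13, nat_lit 0, nat_lit 0, nat_lit 0, nat_lit 0, nat_lit 24839, [nat_lit 243282000000, nat_lit 365449500000, nat_lit 487968000000, nat_lit 569842000000], [], [nat_lit 700083748368, nat_lit 703303884904, nat_lit 675896668032, nat_lit 679150252608], nat_lit 1271250, nat_lit 1271250, nat_lit 111251, nat_lit 230001, nat_lit 0, nat_lit 0, [nat_lit 780000, nat_lit 1271250, nat_lit 1271250, nat_lit 1271250], [nat_lit 52, nat_lit 40, nat_lit 20, nat_lit 80]⟩,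
 zbF0, []⟩
noncomputable def p000_l179 : Lf2 := ⟨nat_lit 0, nat_lit 1, [nat_lit 19, nat_lit 5, nat_lit 5, nat_lit 20], false, nat_lit 0, nat_lit 0, nat_lit 0, nat_lit 0, ⟨nat_lit 1000, nat_lit 0, nat_lit 0, nat_lit 0, nat_lit 0, nat_lit 0, nat_lit 0, nat_lit 0, nat_lit 0, nat_lit 0, nat_lit 0, nat_lit 0, nat_lit 0, nat_lit 0, nat_lit 0, nat_lit 0, false, false⟩,
 nat_lit 0, nat_lit 0, nat_lit 50099, nat_lit 47548, nat_lit 18757, nat_lit 19051, nat_lit 9022, nat_lit 0, nat_lit 0, nat_lit 13973, nat_lit 0, nat_lit 0, nat_lit 0, nat_lit 0, nat_lit 0, nat_lit 0, nat_lit 0, nat_lit 0, [],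
 ⟨p000_k14, nat_lit 0, nat_lit 0, nat_lit 0, nat_lit 0, nat_lit 0, [nat_lit 3282000000, nat_lit 5449500000, nat_lit 7968000001, nat_lit 9842000000], [], [nat_lit 14533594722, nat_lit 15338725745, nat_lit 9066375695, nat_lit 10106681705], nat_lit 0, nat_lit 0, nat_lit 0, nat_lit 0, nat_lit 0, nat_lit 0, [], [nat_lit 52, nat_lit 40, nat_lit 20, nat_lit 80]⟩, ⟨p000_k13, nat_lit 0, nat_lit 0, nat_lit 0, nat_lit 0, nat_lit 24839, [nat_lit 3282000000, nat_lit 5449500000, nat_lit 7968000000, nat_lit 9842000000], [], [nat_lit 13404933158, nat_lit 14217249378, nat_lit 7843146412, nat_lit 8894603842], nat_lit 1271250, nat_lit 1271250, nat_lit 230001, nat_lit 490000, nat_lit 0, nat_lit 0, [nat_lit 780000, nat_lit 1271250, nat_lit 1271250, nat_lit 1271250], [nat_lit 52, nat_lit 40, nat_lit 20, nat_lit 80]⟩,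
 zbF0, []⟩
noncomputable def p000_l180 : Lf2 := ⟨nat_lit 0, nat_lit 1, [nat_lit 19, nat_lit 5, nat_lit 5, nat_lit 20], false, nat_lit 0, nat_lit 0, nat_lit 0, nat_lit 0, ⟨nat_lit 1000, nat_lit 0, nat_lit 0, nat_lit 0, nat_lit 0, nat_lit 0, nat_lit 0, nat_lit 0, nat_lit 0, nat_lit 0, nat_lit 0, nat_lit 0, nat_lit 0, nat_lit 0, nat_lit 0, nat_lit 0, false, false⟩,
 nat_lit 0, nat_lit 0, nat_lit 9925, nat_lit 12265, nat_lit 22730, nat_lit 3774, nat_lit 0, nat_lit 0, nat_lit 0, nat_lit 4268, nat_lit 0, nat_lit 0, nat_lit 0, nat_lit 0, nat_lit 0, nat_lit 0, nat_lit 0, nat_lit 0, [],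
 ⟨p000_k3, nat_lit 0, nat_lit 0, nat_lit 0, nat_lit 0, nat_lit 0, [nat_lit 7968000001, nat_lit 9842000000], [], [nat_lit 6745118661, nat_lit 7936120561, nat_lit 5567100301, nat_lit 6591912361], nat_lit 0, nat_lit 0, nat_lit 0, nat_lit 0, nat_lit 0, nat_lit 0, [], [nat_lit 77, nat_lit 40, nat_lit 20, nat_lit 80]⟩, ⟨p000_k2, nat_lit 0, nat_lit 0, nat_lit 0, nat_lit 0, nat_lit 57761, [nat_lit 7968000000, nat_lit 9842000000], [], [nat_lit 39691890424, nat_lit 39944868212, nat_lit 40521815412, nat_lit 40747989762], nat_lit 1271250, nat_lit 1271250, nat_lit 490000, nat_lit 1100001, nat_lit 0, nat_lit 0, [nat_lit 1695000, nat_lit 1271250], [nat_lit 77, nat_lit 40, nat_lit 20, nat_lit 80]⟩,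
 zbF0, []⟩
noncomputable def p000_l181 : Lf2 := ⟨nat_lit 3, nat_lit 1, [nat_lit 19, nat_lit 5, nat_lit 5, nat_lit 20], false, nat_lit 0, nat_lit 0, nat_lit 0, nat_lit 0, zbN0,
 nat_lit 0, nat_lit 0, nat_lit 0, nat_lit 0, nat_lit 0, nat_lit 0, nat_lit 0, nat_lit 0, nat_lit 0, nat_lit 0, nat_lit 0, nat_lit 0, nat_lit 0, nat_lit 0, nat_lit 0, nat_lit 0, nat_lit 0, nat_lit 0, [],
 C1.Rw.none, ⟨p000_k2, nat_lit 0, nat_lit 0, nat_lit 315, nat_lit 0, nat_lit 57761, [], [], [], nat_lit 1271250, nat_lit 1271250, nat_lit 0, nat_lit 1100001, nat_lit 0, nat_lit 0, [nat_lit 1695000, nat_lit 1271250], [nat_lit 77, nat_lit 40, nat_lit 20, nat_lit 80, nat_lit 17, nat_lit 317, nat_lit 100, nat_lit 10]⟩,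
 zbF0, []⟩
noncomputable def p000_l182 : Lf2 := ⟨nat_lit 1, nat_lit 2, [nat_lit 10, nat_lit 5, nat_lit 5, nat_lit 20], false, nat_lit 0, nat_lit 0, nat_lit 0, nat_lit 0, zbN0,
 nat_lit 0, nat_lit 0, nat_lit 0, nat_lit 0, nat_lit 0, nat_lit 0, nat_lit 0, nat_lit 0, nat_lit 0, nat_lit 0, nat_lit 0, nat_lit 0, nat_lit 0, nat_lit 0, nat_lit 0, nat_lit 0, nat_lit 0, nat_lit 0, [],
 C1.Rw.none, C1.Rw.none,
 zbF0, []⟩
noncomputable def b_NL_450_450_0_5 : St := ⟨false, nat_lit 0, nat_lit 1, nat_lit 2, nat_lit 20, nat_lit 190, nat_lit 200, nat_lit 180, nat_lit 190, nat_lit 0, nat_lit 160, nat_lit 0, nat_lit 0, nat_lit 0, nat_lit 0, nat_lit 0, nat_lit 0, nat_lit 0, nat_lit 8, nat_lit 0, nat_lit 600, nat_lit 0, nat_lit 0⟩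
theorem d_NL_450_450_0_5 (h : EB TB.env) : Dead b_NL_450_450_0_5 := chkB_sound0 h (T :=
(.spl (nat_lit 6) (nat_lit 4)
(.spl (nat_lit 8) (nat_lit 800)
(.spl (nat_lit 2) (nat_lit 80)
(.spl (nat_lit 2) (nat_lit 40)
(.spl (nat_lit 8) (nat_lit 400)
(.leaf p000_l123)
(.spl (nat_lit 2) (nat_lit 20)
(.spl (nat_lit 7) (nat_lit 300)
(.spl (nat_lit 7) (nat_lit 160)
(.spl (nat_lit 1) (nat_lit 185)
(.leaf p000_l124)
(.leaf p000_l125))
(.spl (nat_lit 2) (nat_lit 8)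
(.spl (nat_lit 8) (nat_lit 600)
(.spl (nat_lit 8) (nat_lit 500)
(.spl (nat_lit 0) (nat_lit 195)
(.leaf p000_l126)
(.spl (nat_lit 8) (nat_lit 460)
(.leaf p000_l127)
(.leaf p000_l128)))
(.spl (nat_lit 0) (nat_lit 195)
(.leaf p000_l129)
(.spl (nat_lit 8) (nat_lit 560)
(.spl (nat_lit 7) (nat_lit 240)
(.spl (nat_lit 1) (nat_lit 185)
(.leaf p000_l130)
(.leaf p000_l131))
(.spl (nat_lit 1) (nat_lit 185)
(.leaf p000_l132)
(.leaf p000_l133)))
(.spl (nat_lit 2) (nat_lit 4)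
(.spl (nat_lit 0) (nat_lit 198)
(.spl (nat_lit 1) (nat_lit 185)
(.leaf p000_l134)
(.leaf p000_l135))
(.spl (nat_lit 8) (nat_lit 580)
(.spl (nat_lit 1) (nat_lit 185)
(.leaf p000_l136)
(.leaf p000_l137))
(.spl (nat_lit 1) (nat_lit 185)
(.leaf p000_l138)
(.leaf p000_l139))))
(.spl (nat_lit 0) (nat_lit 198)
(.leaf p000_l140)
(.spl (nat_lit 8) (nat_lit 580)
(.spl (nat_lit 1) (nat_lit 185)
(.leaf p000_l141)
(.leaf p000_l142))
(.spl (nat_lit 1) (nat_lit 185)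
(.leaf p000_l143)
(.leaf p000_l144))))))))
(.spl (nat_lit 8) (nat_lit 700)
(.spl (nat_lit 0) (nat_lit 195)
(.leaf p000_l145)
(.spl (nat_lit 2) (nat_lit 4)
(.spl (nat_lit 0) (nat_lit 198)
(.spl (nat_lit 1) (nat_lit 185)
(.leaf p000_l146)
(.leaf p000_l147))
(.spl (nat_lit 1) (nat_lit 185)
(.leaf p000_l148)
(.leaf p000_l149)))
(.spl (nat_lit 0) (nat_lit 198)
(.leaf p000_l150)
(.spl (nat_lit 1) (nat_lit 185)
(.leaf p000_l151)
(.leaf p000_l152)))))
(.leaf p000_l153)))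
(.spl (nat_lit 2) (nat_lit 16)
(.spl (nat_lit 0) (nat_lit 195)
(.leaf p000_l154)
(.spl (nat_lit 8) (nat_lit 600)
(.spl (nat_lit 8) (nat_lit 500)
(.spl (nat_lit 8) (nat_lit 460)
(.leaf p000_l155)
(.leaf p000_l156))
(.spl (nat_lit 8) (nat_lit 560)
(.spl (nat_lit 7) (nat_lit 240)
(.spl (nat_lit 1) (nat_lit 185)
(.leaf p000_l157)
(.leaf p000_l158))
(.spl (nat_lit 1) (nat_lit 185)
(.leaf p000_l159)
(.leaf p000_l160)))
(.spl (nat_lit 2) (nat_lit 12)
(.spl (nat_lit 0) (nat_lit 198)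
(.leaf p000_l161)
(.spl (nat_lit 8) (nat_lit 580)
(.spl (nat_lit 1) (nat_lit 185)
(.leaf p000_l162)
(.leaf p000_l163))
(.spl (nat_lit 1) (nat_lit 185)
(.leaf p000_l164)
(.leaf p000_l165))))
(.leaf p000_l166))))
(.spl (nat_lit 8) (nat_lit 700)
(.spl (nat_lit 2) (nat_lit 12)
(.spl (nat_lit 0) (nat_lit 198)
(.leaf p000_l167)
(.spl (nat_lit 1) (nat_lit 185)
(.leaf p000_l168)
(.leaf p000_l169)))
(.leaf p000_l170))
(.leaf p000_l171))))
(.leaf p000_l172))))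
(.spl (nat_lit 0) (nat_lit 195)
(.leaf p000_l173)
(.spl (nat_lit 0) (nat_lit 198)
(.spl (nat_lit 0) (nat_lit 197)
(.leaf p000_l174)
(.leaf p000_l175))
(.spl (nat_lit 0) (nat_lit 199)
(.leaf p000_l176)
(.leaf p000_l177)))))
(.leaf p000_l178)))
(.leaf p000_l179))
(.leaf p000_l180))
(.leaf p000_l181))
(.leaf p000_l182))) (by decide +kernel)
noncomputable def p000_l183 : Lf2 := ⟨nat_lit 0, nat_lit 1, [nat_lit 19, nat_lit 5, nat_lit 5, nat_lit 20], false, nat_lit 0, nat_lit 0, nat_lit 0, nat_lit 0, ⟨nat_lit 1000, nat_lit 0, nat_lit 0, nat_lit 0, nat_lit 0, nat_lit 0, nat_lit 0, nat_lit 0, nat_lit 0, nat_lit 0, nat_lit 0, nat_lit 0, nat_lit 0, nat_lit 0, nat_lit 0, nat_lit 0, false, false⟩,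
 nat_lit 0, nat_lit 0, nat_lit 12765, nat_lit 26612, nat_lit 5160, nat_lit 5160, nat_lit 4552, nat_lit 0, nat_lit 0, nat_lit 4552, nat_lit 0, nat_lit 0, nat_lit 0, nat_lit 0, nat_lit 0, nat_lit 0, nat_lit 0, nat_lit 0, [],
 ⟨p000_k14, nat_lit 0, nat_lit 0, nat_lit 0, nat_lit 0, nat_lit 0, [nat_lit 3282000000, nat_lit 5449500000, nat_lit 7968000001, nat_lit 9842000000], [], [nat_lit 20599423960, nat_lit 20820317081, nat_lit 17991705761, nat_lit 18239670321], nat_lit 0, nat_lit 0, nat_lit 0, nat_lit 0, nat_lit 0, nat_lit 0, [], [nat_lit 52, nat_lit 40, nat_lit 20, nat_lit 80]⟩, ⟨p000_k14, nat_lit 0, nat_lit 0, nat_lit 0, nat_lit 0, nat_lit 21643, [nat_lit 3282000000, nat_lit 5449500000, nat_lit 7968000000, nat_lit 9842000000], [], [nat_lit 20599423960, nat_lit 20820317080, nat_lit 17991705760, nat_lit 18239670320], nat_lit 1271250, nat_lit 1271250, nat_lit 0, nat_lit 490000, nat_lit 0, nat_lit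 0, [nat_lit 780000, nat_lit 1271250, nat_lit 1271250, nat_lit 1271250], [nat_lit 52, nat_lit 40, nat_lit 20, nat_lit 80]⟩,
 zbF0, []⟩
noncomputable def p000_l184 : Lf2 := ⟨nat_lit 0, nat_lit 1, [nat_lit 19, nat_lit 5, nat_lit 5, nat_lit 20], false, nat_lit 0, nat_lit 0, nat_lit 0, nat_lit 0, ⟨nat_lit 1000, nat_lit 0, nat_lit 0, nat_lit 0, nat_lit 0, nat_lit 0, nat_lit 0, nat_lit 0, nat_lit 0, nat_lit 0, nat_lit 0, nat_lit 0, nat_lit 0, nat_lit 0, nat_lit 0, nat_lit 0, false, false⟩,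
 nat_lit 0, nat_lit 0, nat_lit 12750, nat_lit 7848, nat_lit 5154, nat_lit 5154, nat_lit 3868, nat_lit 0, nat_lit 0, nat_lit 4518, nat_lit 0, nat_lit 0, nat_lit 0, nat_lit 0, nat_lit 0, nat_lit 0, nat_lit 0, nat_lit 0, [],
 ⟨p000_k12, nat_lit 0, nat_lit 0, nat_lit 0, nat_lit 0, nat_lit 0, [nat_lit 3282000000, nat_lit 5449500000, nat_lit 7968000001, nat_lit 9842000000], [], [nat_lit 20857419295, nat_lit 21077359913, nat_lit 20282420753, nat_lit 20535851616], nat_lit 0, nat_lit 0, nat_lit 0, nat_lit 0, nat_lit 0, nat_lit 0, [], [nat_lit 52, nat_lit 40, nat_lit 20, nat_lit 80]⟩, ⟨p000_k14, nat_lit 0, nat_lit 0, nat_lit 0, nat_lit 0, nat_lit 60577, [nat_lit 3282000000, nat_lit 5449500000, nat_lit 7968000000, nat_lit 9842000000], [], [nat_lit 20636986324, nat_lit 21077359912, nat_lit 20028989890, nat_lit 20535851615], nat_lit 1271250, nat_lit 1271250, nat_lit 0, nat_lit 43600, nat_lit 0, nat_lit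 0, [nat_lit 780000, nat_lit 1271250, nat_lit 1271250, nat_lit 1271250], [nat_lit 52, nat_lit 40, nat_lit 20, nat_lit 80]⟩,
 zbF0, []⟩
noncomputable def p000_l185 : Lf2 := ⟨nat_lit 0, nat_lit 1, [nat_lit 19, nat_lit 5, nat_lit 5, nat_lit 20], false, nat_lit 0, nat_lit 0, nat_lit 0, nat_lit 0, ⟨nat_lit 1000, nat_lit 0, nat_lit 0, nat_lit 0, nat_lit 0, nat_lit 0, nat_lit 0, nat_lit 0, nat_lit 0, nat_lit 0, nat_lit 0, nat_lit 0, nat_lit 0, nat_lit 0, nat_lit 0, nat_lit 0, false, false⟩,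
 nat_lit 0, nat_lit 0, nat_lit 300000, nat_lit 0, nat_lit 5154, nat_lit 121276, nat_lit 11352, nat_lit 0, nat_lit 0, nat_lit 60000, nat_lit 20000, nat_lit 0, nat_lit 0, nat_lit 0, nat_lit 0, nat_lit 0, nat_lit 0, nat_lit 0, [],
 ⟨p000_k12, nat_lit 0, nat_lit 0, nat_lit 0, nat_lit 0, nat_lit 0, [nat_lit 3282000000, nat_lit 5449500000, nat_lit 7968000001, nat_lit 9842000000], [], [nat_lit 20824567478, nat_lit 21077359913, nat_lit 20282420753, nat_lit 20535851616], nat_lit 0, nat_lit 0, nat_lit 0, nat_lit 0, nat_lit 0, nat_lit 0, [], [nat_lit 52, nat_lit 40, nat_lit 20, nat_lit 80]⟩, ⟨p000_k14, nat_lit 0, nat_lit 0, nat_lit 0, nat_lit 0, nat_lit 34038, [nat_lit 243282000000, nat_lit 365449500000, nat_lit 487968000000, nat_lit 569842000000], [], [nat_lit 711481144592, nat_lit 712467343482, nat_lit 696349803258, nat_lit 697349993100], nat_lit 1271250, nat_lit 1271250, nat_lit 0, nat_lit 43600,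 nat_lit 0, nat_lit 0, [nat_lit 780000, nat_lit 1271250, nat_lit 1271250, nat_lit 1271250], [nat_lit 52, nat_lit 40, nat_lit 20, nat_lit 80]⟩,
 zbF0, []⟩
noncomputable def p000_l186 : Lf2 := ⟨nat_lit 0, nat_lit 1, [nat_lit 19, nat_lit 5, nat_lit 5, nat_lit 20], false, nat_lit 0, nat_lit 0, nat_lit 0, nat_lit 0, ⟨nat_lit 1000, nat_lit 0, nat_lit 0, nat_lit 0, nat_lit 0, nat_lit 0, nat_lit 0, nat_lit 0, nat_lit 0, nat_lit 0, nat_lit 0, nat_lit 0, nat_lit 0, nat_lit 0, nat_lit 0, nat_lit 0, false, false⟩,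
 nat_lit 0, nat_lit 0, nat_lit 300000, nat_lit 0, nat_lit 5154, nat_lit 123454, nat_lit 11459, nat_lit 0, nat_lit 0, nat_lit 60000, nat_lit 20000, nat_lit 0, nat_lit 0, nat_lit 0, nat_lit 0, nat_lit 0, nat_lit 0, nat_lit 0, [],
 ⟨p000_k12, nat_lit 0, nat_lit 0, nat_lit 0, nat_lit 0, nat_lit 0, [nat_lit 3282000000, nat_lit 5449500000, nat_lit 7968000001, nat_lit 9842000000], [], [nat_lit 20824567478, nat_lit 21077359913, nat_lit 20282420753, nat_lit 20535851616], nat_lit 0, nat_lit 0, nat_lit 0, nat_lit 0, nat_lit 0, nat_lit 0, [], [nat_lit 52, nat_lit 40, nat_lit 20, nat_lit 80]⟩, ⟨p000_k24, nat_lit 0, nat_lit 0, nat_lit 0, nat_lit 0, nat_lit 36988, [nat_lit 243282000000, nat_lit 365449500000, nat_lit 487968000000, nat_lit 569842000000], [], [nat_lit 704239709837, nat_lit 704573796760, nat_lit 688849112454, nat_lit 689187947708], nat_lit 1271250, nat_lit 1271250, nat_lit 0, nat_lit 43600,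 nat_lit 0, nat_lit 0, [nat_lit 780000, nat_lit 1271250, nat_lit 1271250, nat_lit 1271250], [nat_lit 52, nat_lit 40, nat_lit 20, nat_lit 80]⟩,
 zbF0, []⟩
noncomputable def p000_l187 : Lf2 := ⟨nat_lit 0, nat_lit 1, [nat_lit 19, nat_lit 5, nat_lit 5, nat_lit 20], false, nat_lit 0, nat_lit 0, nat_lit 0, nat_lit 0, ⟨nat_lit 1000, nat_lit 0, nat_lit 0, nat_lit 0, nat_lit 0, nat_lit 0, nat_lit 0, nat_lit 0, nat_lit 0, nat_lit 0, nat_lit 0, nat_lit 0, nat_lit 0, nat_lit 0, nat_lit 0, nat_lit 0, false, false⟩,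
 nat_lit 0, nat_lit 0, nat_lit 300000, nat_lit 0, nat_lit 5156, nat_lit 124182, nat_lit 3880, nat_lit 0, nat_lit 0, nat_lit 60000, nat_lit 20000, nat_lit 0, nat_lit 0, nat_lit 0, nat_lit 0, nat_lit 0, nat_lit 0, nat_lit 0, [],
 ⟨p000_k12, nat_lit 0, nat_lit 0, nat_lit 0, nat_lit 0, nat_lit 0, [nat_lit 3282000000, nat_lit 5449500000, nat_lit 7968000001, nat_lit 9842000000], [], [nat_lit 20841578130, nat_lit 20974847533, nat_lit 20280754127, nat_lit 20432834253], nat_lit 0, nat_lit 0, nat_lit 0, nat_lit 0, nat_lit 0, nat_lit 0, [], [nat_lit 52, nat_lit 40, nat_lit 20, nat_lit 80]⟩, ⟨p000_k25, nat_lit 0, nat_lit 0, nat_lit 0, nat_lit 0, nat_lit 32550, [nat_lit 243282000000, nat_lit 365449500000, nat_lit 487968000000, nat_lit 569842000000], [], [nat_lit 701894873614, nat_lit 702230750106, nat_lit 686417719618, nat_lit 686758372746], nat_lit 1271250, nat_lit 1271250, nat_lit 0, nat_lit 43600,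 nat_lit 0, nat_lit 0, [nat_lit 780000, nat_lit 1271250, nat_lit 1271250, nat_lit 1271250], [nat_lit 52, nat_lit 40, nat_lit 20, nat_lit 80]⟩,
 zbF0, []⟩
noncomputable def p000_l188 : Lf2 := ⟨nat_lit 0, nat_lit 1, [nat_lit 19, nat_lit 5, nat_lit 5, nat_lit 20], false, nat_lit 0, nat_lit 0, nat_lit 0, nat_lit 0, ⟨nat_lit 1000, nat_lit 0, nat_lit 0, nat_lit 0, nat_lit 0, nat_lit 0, nat_lit 0, nat_lit 0, nat_lit 0, nat_lit 0, nat_lit 0, nat_lit 0, nat_lit 0, nat_lit 0, nat_lit 0, nat_lit 0, false, false⟩,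
 nat_lit 0, nat_lit 0, nat_lit 300000, nat_lit 0, nat_lit 5155, nat_lit 124182, nat_lit 3568, nat_lit 0, nat_lit 0, nat_lit 60000, nat_lit 20000, nat_lit 0, nat_lit 0, nat_lit 0, nat_lit 0, nat_lit 0, nat_lit 0, nat_lit 0, [],
 ⟨p000_k26, nat_lit 0, nat_lit 0, nat_lit 0, nat_lit 0, nat_lit 0, [nat_lit 3282000000, nat_lit 5449500000, nat_lit 7968000001, nat_lit 9842000000], [], [nat_lit 20981014257, nat_lit 21026107289, nat_lit 20433656762, nat_lit 20484346536], nat_lit 0, nat_lit 0, nat_lit 0, nat_lit 0, nat_lit 0, nat_lit 0, [], [nat_lit 52, nat_lit 40, nat_lit 20, nat_lit 80]⟩, ⟨p000_k25, nat_lit 0, nat_lit 0, nat_lit 0, nat_lit 0, nat_lit 36429, [nat_lit 243282000000, nat_lit 365449500000, nat_lit 487968000000, nat_lit 569842000000], [], [nat_lit 701894873614, nat_lit 702230750106, nat_lit 686417719618, nat_lit 686758372746], nat_lit 1271250, nat_lit 1271250, nat_lit 0, nat_lit 43600,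 nat_lit 0, nat_lit 0, [nat_lit 780000, nat_lit 1271250, nat_lit 1271250, nat_lit 1271250], [nat_lit 52, nat_lit 40, nat_lit 20, nat_lit 80]⟩,
 zbF0, []⟩
noncomputable def p000_l189 : Lf2 := ⟨nat_lit 3, nat_lit 1, [nat_lit 19, nat_lit 5, nat_lit 5, nat_lit 20], false, nat_lit 0, nat_lit 0, nat_lit 0, nat_lit 0, zbN0,
 nat_lit 0, nat_lit 0, nat_lit 0, nat_lit 0, nat_lit 0, nat_lit 0, nat_lit 0, nat_lit 0, nat_lit 0, nat_lit 0, nat_lit 0, nat_lit 0, nat_lit 0, nat_lit 0, nat_lit 0, nat_lit 0, nat_lit 0, nat_lit 0, [],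
 C1.Rw.none, ⟨p000_k27, nat_lit 0, nat_lit 0, nat_lit 0, nat_lit 0, nat_lit 40307, [], [], [], nat_lit 1271250, nat_lit 1271250, nat_lit 0, nat_lit 21650, nat_lit 0, nat_lit 0, [nat_lit 780000, nat_lit 1598750, nat_lit 1271250], [nat_lit 115, nat_lit 40, nat_lit 20, nat_lit 40]⟩,
 zbF0, []⟩
noncomputable def p000_l190 : Lf2 := ⟨nat_lit 0, nat_lit 1, [nat_lit 19, nat_lit 5, nat_lit 5, nat_lit 20], false, nat_lit 0, nat_lit 0, nat_lit 0, nat_lit 0, ⟨nat_lit 1000, nat_lit 0, nat_lit 0, nat_lit 0, nat_lit 0, nat_lit 0, nat_lit 0, nat_lit 0, nat_lit 0, nat_lit 0, nat_lit 0, nat_lit 0, nat_lit 0, nat_lit 0, nat_lit 0, nat_lit 0, false, false⟩,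
 nat_lit 0, nat_lit 0, nat_lit 300000, nat_lit 0, nat_lit 5154, nat_lit 124182, nat_lit 3473, nat_lit 0, nat_lit 0, nat_lit 51575, nat_lit 9124, nat_lit 0, nat_lit 0, nat_lit 0, nat_lit 0, nat_lit 0, nat_lit 0, nat_lit 0, [],
 ⟨p000_k28, nat_lit 0, nat_lit 0, nat_lit 0, nat_lit 0, nat_lit 0, [nat_lit 3282000000, nat_lit 5449500000, nat_lit 7968000001, nat_lit 9842000000], [], [nat_lit 21033283797, nat_lit 21077359913, nat_lit 20755983435, nat_lit 20806605765], nat_lit 0, nat_lit 0, nat_lit 0, nat_lit 0, nat_lit 0, nat_lit 0, [], [nat_lit 52, nat_lit 40, nat_lit 20, nat_lit 80]⟩, ⟨p000_k25, nat_lit 0, nat_lit 0, nat_lit 0, nat_lit 0, nat_lit 40307, [nat_lit 112770000000, nat_lit 169681500000, nat_lit 226944000000, nat_lit 265314000000], [], [nat_lit 418772550776, nat_lit 418995177743, nat_lit 412347544337, nat_lit 412570305445], nat_lit 1271250, nat_lit 1271250, nat_lit 0, nat_lit 21650, nat_lit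 0, nat_lit 0, [nat_lit 780000, nat_lit 1271250, nat_lit 1271250, nat_lit 1271250], [nat_lit 52, nat_lit 40, nat_lit 20, nat_lit 80]⟩,
 zbF0, []⟩
noncomputable def p000_l191 : Lf2 := ⟨nat_lit 0, nat_lit 1, [nat_lit 19, nat_lit 5, nat_lit 5, nat_lit 20], false, nat_lit 0, nat_lit 0, nat_lit 0, nat_lit 0, ⟨nat_lit 1000, nat_lit 0, nat_lit 0, nat_lit 0, nat_lit 0, nat_lit 0, nat_lit 0, nat_lit 0, nat_lit 0, nat_lit 0, nat_lit 0, nat_lit 0, nat_lit 0, nat_lit 0, nat_lit 0, nat_lit 0, false, false⟩,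
 nat_lit 0, nat_lit 0, nat_lit 300000, nat_lit 0, nat_lit 5154, nat_lit 124182, nat_lit 3477, nat_lit 0, nat_lit 0, nat_lit 60000, nat_lit 9124, nat_lit 0, nat_lit 0, nat_lit 0, nat_lit 0, nat_lit 0, nat_lit 0, nat_lit 0, [],
 ⟨p000_k28, nat_lit 0, nat_lit 0, nat_lit 0, nat_lit 0, nat_lit 0, [nat_lit 3282000000, nat_lit 5449500000, nat_lit 7968000001, nat_lit 9842000000], [], [nat_lit 21026801427, nat_lit 21077359913, nat_lit 20755983435, nat_lit 20806605765], nat_lit 0, nat_lit 0, nat_lit 0, nat_lit 0, nat_lit 0, nat_lit 0, [], [nat_lit 52, nat_lit 40, nat_lit 20, nat_lit 80]⟩, ⟨p000_k25, nat_lit 0, nat_lit 0, nat_lit 0, nat_lit 0, nat_lit 40307, [nat_lit 112770000000, nat_lit 169681500000, nat_lit 226944000000, nat_lit 265314000000], [], [nat_lit 418770522692, nat_lit 418995177743, nat_lit 412347544337, nat_lit 412570305445], nat_lit 1271250, nat_lit 1271250, nat_lit 0, nat_lit 21650, nat_lit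 0, nat_lit 0, [nat_lit 780000, nat_lit 1271250, nat_lit 1271250, nat_lit 1271250], [nat_lit 52, nat_lit 40, nat_lit 20, nat_lit 80]⟩,
 zbF0, []⟩
noncomputable def p000_l192 : Lf2 := ⟨nat_lit 0, nat_lit 1, [nat_lit 19, nat_lit 5, nat_lit 5, nat_lit 20], false, nat_lit 0, nat_lit 0, nat_lit 0, nat_lit 0, ⟨nat_lit 1000, nat_lit 0, nat_lit 0, nat_lit 0, nat_lit 0, nat_lit 0, nat_lit 0, nat_lit 0, nat_lit 0, nat_lit 0, nat_lit 0, nat_lit 0, nat_lit 0, nat_lit 0, nat_lit 0, nat_lit 0, false, false⟩,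
 nat_lit 0, nat_lit 0, nat_lit 300000, nat_lit 0, nat_lit 5221, nat_lit 124182, nat_lit 3490, nat_lit 0, nat_lit 0, nat_lit 60000, nat_lit 20000, nat_lit 0, nat_lit 0, nat_lit 0, nat_lit 0, nat_lit 0, nat_lit 0, nat_lit 0, [],
 ⟨p000_k28, nat_lit 0, nat_lit 0, nat_lit 0, nat_lit 0, nat_lit 0, [nat_lit 3282000000, nat_lit 5449500000, nat_lit 7968000001, nat_lit 9842000000], [], [nat_lit 20711464930, nat_lit 20756158838, nat_lit 20430298622, nat_lit 20481226087], nat_lit 0, nat_lit 0, nat_lit 0, nat_lit 0, nat_lit 0, nat_lit 0, [], [nat_lit 52, nat_lit 40, nat_lit 20, nat_lit 80]⟩, ⟨p000_k25, nat_lit 0, nat_lit 0, nat_lit 0, nat_lit 0, nat_lit 40307, [nat_lit 243282000000, nat_lit 365449500000, nat_lit 487968000000, nat_lit 569842000000], [], [nat_lit 694156296616, nat_lit 694494561427, nat_lit 686417719618, nat_lit 686758372746], nat_lit 1271250, nat_lit 1271250, nat_lit 21650, nat_lit 43600,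 nat_lit 0, nat_lit 0, [nat_lit 780000, nat_lit 1271250, nat_lit 1271250, nat_lit 1271250], [nat_lit 52, nat_lit 40, nat_lit 20, nat_lit 80]⟩,
 zbF0, []⟩
noncomputable def p000_l193 : Lf2 := ⟨nat_lit 0, nat_lit 1, [nat_lit 19, nat_lit 5, nat_lit 5, nat_lit 20], false, nat_lit 0, nat_lit 0, nat_lit 0, nat_lit 0, ⟨nat_lit 1000, nat_lit 0, nat_lit 0, nat_lit 0, nat_lit 0, nat_lit 0, nat_lit 0, nat_lit 0, nat_lit 0, nat_lit 0, nat_lit 0, nat_lit 0, nat_lit 0, nat_lit 0, nat_lit 0, nat_lit 0, false, false⟩,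
 nat_lit 0, nat_lit 0, nat_lit 300000, nat_lit 0, nat_lit 5270, nat_lit 124911, nat_lit 11566, nat_lit 0, nat_lit 0, nat_lit 60000, nat_lit 0, nat_lit 0, nat_lit 0, nat_lit 0, nat_lit 0, nat_lit 0, nat_lit 0, nat_lit 19790791951, [],
 ⟨p000_k10, nat_lit 0, nat_lit 0, nat_lit 0, nat_lit 0, nat_lit 0, [nat_lit 3282000000, nat_lit 7089500001, nat_lit 8885500000], [], [nat_lit 18298420546, nat_lit 18570231521, nat_lit 17742931525, nat_lit 18015374673], nat_lit 0, nat_lit 0, nat_lit 0, nat_lit 0, nat_lit 0, nat_lit 0, [], [nat_lit 115, nat_lit 40, nat_lit 20, nat_lit 40]⟩, ⟨p000_k10, nat_lit 0, nat_lit 0, nat_lit 0, nat_lit 0, nat_lit 58784, [nat_lit 3282000000, nat_lit 7089500000, nat_lit 8885500000], [], [nat_lit 22697453637, nat_lit 5394032451, nat_lit 17248610239, nat_lit 0], nat_lit 1271250, nat_lit 1271250, nat_lit 0, nat_lit 43600, nat_lit 0, nat_lit 0, [nat_lit 780000, nat_lit 1598750,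 nat_lit 1271250], [nat_lit 115, nat_lit 40, nat_lit 20, nat_lit 40]⟩,
 zbF0, []⟩
noncomputable def p000_l194 : Lf2 := ⟨nat_lit 0, nat_lit 1, [nat_lit 19, nat_lit 5, nat_lit 5, nat_lit 20], false, nat_lit 0, nat_lit 0, nat_lit 0, nat_lit 0, ⟨nat_lit 1000, nat_lit 0, nat_lit 0, nat_lit 0, nat_lit 0, nat_lit 0, nat_lit 0, nat_lit 0, nat_lit 0, nat_lit 0, nat_lit 0, nat_lit 0, nat_lit 0, nat_lit 0, nat_lit 0, nat_lit 0, false, false⟩,
 nat_lit 0, nat_lit 0, nat_lit 300000, nat_lit 0, nat_lit 5154, nat_lit 124911, nat_lit 3868, nat_lit 0, nat_lit 0, nat_lit 49930, nat_lit 9193, nat_lit 0, nat_lit 0, nat_lit 0, nat_lit 0, nat_lit 0, nat_lit 0, nat_lit 0, [],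
 ⟨p000_k12, nat_lit 0, nat_lit 0, nat_lit 0, nat_lit 0, nat_lit 0, [nat_lit 3282000000, nat_lit 5449500000, nat_lit 7968000001, nat_lit 9842000000], [], [nat_lit 20857419295, nat_lit 21077359913, nat_lit 20282420753, nat_lit 20535851616], nat_lit 0, nat_lit 0, nat_lit 0, nat_lit 0, nat_lit 0, nat_lit 0, [], [nat_lit 52, nat_lit 40, nat_lit 20, nat_lit 80]⟩, ⟨p000_k12, nat_lit 0, nat_lit 0, nat_lit 0, nat_lit 0, nat_lit 58784, [nat_lit 113598000000, nat_lit 170923500000, nat_lit 228600000000, nat_lit 267246000000], [], [nat_lit 422535324160, nat_lit 423267413324, nat_lit 409233395174, nat_lit 410358275707], nat_lit 1271250, nat_lit 1271250, nat_lit 0, nat_lit 43600, nat_lit 0, nat_lit 0, [nat_lit 780000, nat_lit 1271250, nat_lit 1271250, nat_lit 1271250], [nat_lit 52, nat_lit 40, nat_lit 20, nat_lit 80]⟩,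
 zbF0, []⟩
noncomputable def p000_l195 : Lf2 := ⟨nat_lit 0, nat_lit 1, [nat_lit 19, nat_lit 5, nat_lit 5, nat_lit 20], false, nat_lit 0, nat_lit 0, nat_lit 0, nat_lit 0, ⟨nat_lit 1000, nat_lit 0, nat_lit 0, nat_lit 0, nat_lit 0, nat_lit 0, nat_lit 0, nat_lit 0, nat_lit 0, nat_lit 0, nat_lit 0, nat_lit 0, nat_lit 0, nat_lit 0, nat_lit 0, nat_lit 0, false, false⟩,
 nat_lit 0, nat_lit 0, nat_lit 300000, nat_lit 0, nat_lit 5154, nat_lit 124911, nat_lit 11847, nat_lit 0, nat_lit 0, nat_lit 60000, nat_lit 9193, nat_lit 0, nat_lit 0, nat_lit 0, nat_lit 0, nat_lit 0, nat_lit 0, nat_lit 0, [],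
 ⟨p000_k12, nat_lit 0, nat_lit 0, nat_lit 0, nat_lit 0, nat_lit 0, [nat_lit 3282000000, nat_lit 5449500000, nat_lit 7968000001, nat_lit 9842000000], [], [nat_lit 20824567478, nat_lit 21077359913, nat_lit 20282420753, nat_lit 20535851616], nat_lit 0, nat_lit 0, nat_lit 0, nat_lit 0, nat_lit 0, nat_lit 0, [], [nat_lit 52, nat_lit 40, nat_lit 20, nat_lit 80]⟩, ⟨p000_k12, nat_lit 0, nat_lit 0, nat_lit 0, nat_lit 0, nat_lit 58784, [nat_lit 113598000000, nat_lit 170923500000, nat_lit 228600000000, nat_lit 267246000000], [], [nat_lit 422153224359, nat_lit 423267413324, nat_lit 409233395174, nat_lit 410358275707], nat_lit 1271250, nat_lit 1271250, nat_lit 0, nat_lit 43600, nat_lit 0, nat_lit 0, [nat_lit 780000, nat_lit 1271250, nat_lit 1271250, nat_lit 1271250], [nat_lit 52, nat_lit 40, nat_lit 20, nat_lit 80]⟩,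
 zbF0, []⟩
noncomputable def p000_l196 : Lf2 := ⟨nat_lit 0, nat_lit 1, [nat_lit 19, nat_lit 5, nat_lit 5, nat_lit 20], false, nat_lit 0, nat_lit 0, nat_lit 0, nat_lit 0, ⟨nat_lit 1000, nat_lit 0, nat_lit 0, nat_lit 0, nat_lit 0, nat_lit 0, nat_lit 0, nat_lit 0, nat_lit 0, nat_lit 0, nat_lit 0, nat_lit 0, nat_lit 0, nat_lit 0, nat_lit 0, nat_lit 0, false, false⟩,
 nat_lit 0, nat_lit 0, nat_lit 13086, nat_lit 6729, nat_lit 5290, nat_lit 5290, nat_lit 3906, nat_lit 0, nat_lit 0, nat_lit 4562, nat_lit 0, nat_lit 0, nat_lit 0, nat_lit 0, nat_lit 0, nat_lit 0, nat_lit 0, nat_lit 0, [],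
 ⟨p000_k12, nat_lit 0, nat_lit 0, nat_lit 0, nat_lit 0, nat_lit 0, [nat_lit 3282000000, nat_lit 5449500000, nat_lit 7968000001, nat_lit 9842000000], [], [nat_lit 20202376263, nat_lit 20425347972, nat_lit 19330387641, nat_lit 19587261681], nat_lit 0, nat_lit 0, nat_lit 0, nat_lit 0, nat_lit 0, nat_lit 0, [], [nat_lit 52, nat_lit 40, nat_lit 20, nat_lit 80]⟩, ⟨p000_k14, nat_lit 0, nat_lit 0, nat_lit 0, nat_lit 0, nat_lit 60577, [nat_lit 3282000000, nat_lit 5449500000, nat_lit 7968000000, nat_lit 9842000000], [], [nat_lit 19979273304, nat_lit 20425216722, nat_lit 19073513600, nat_lit 19587261680], nat_lit 1271250, nat_lit 1271250, nat_lit 43600, nat_lit 111251, nat_lit 0, nat_lit 0, [nat_lit 780000, nat_lit 1271250, nat_lit 1271250, nat_lit 1271250], [nat_lit 52, nat_lit 40, nat_lit 20, nat_lit 80]⟩,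
 zbF0, []⟩
noncomputable def p000_l197 : Lf2 := ⟨nat_lit 0, nat_lit 1, [nat_lit 19, nat_lit 5, nat_lit 5, nat_lit 20], false, nat_lit 0, nat_lit 0, nat_lit 0, nat_lit 0, ⟨nat_lit 1000, nat_lit 0, nat_lit 0, nat_lit 0, nat_lit 0, nat_lit 0, nat_lit 0, nat_lit 0, nat_lit 0, nat_lit 0, nat_lit 0, nat_lit 0, nat_lit 0, nat_lit 0, nat_lit 0, nat_lit 0, false, false⟩,
 nat_lit 0, nat_lit 0, nat_lit 13620, nat_lit 5058, nat_lit 5506, nat_lit 5505, nat_lit 3967, nat_lit 0, nat_lit 0, nat_lit 4633, nat_lit 0, nat_lit 0, nat_lit 0, nat_lit 0, nat_lit 0, nat_lit 0, nat_lit 0, nat_lit 0, [],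
 ⟨p000_k12, nat_lit 0, nat_lit 0, nat_lit 0, nat_lit 0, nat_lit 0, [nat_lit 3282000000, nat_lit 5449500000, nat_lit 7968000001, nat_lit 9842000000], [], [nat_lit 19142664013, nat_lit 19370741553, nat_lit 18311454701, nat_lit 18571675361], nat_lit 0, nat_lit 0, nat_lit 0, nat_lit 0, nat_lit 0, nat_lit 0, [], [nat_lit 52, nat_lit 40, nat_lit 20, nat_lit 80]⟩, ⟨p000_k14, nat_lit 0, nat_lit 0, nat_lit 0, nat_lit 0, nat_lit 60577, [nat_lit 3282000000, nat_lit 5449500000, nat_lit 7968000000, nat_lit 9842000000], [], [nat_lit 18914401800, nat_lit 19371743960, nat_lit 18052482200, nat_lit 18572886800], nat_lit 1271250, nat_lit 1271250, nat_lit 111251, nat_lit 230001, nat_lit 0, nat_lit 0, [nat_lit 780000, nat_lit 1271250, nat_lit 1271250, nat_lit 1271250], [nat_lit 52, nat_lit 40, nat_lit 20, nat_lit 80]⟩,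
 zbF0, []⟩
noncomputable def p000_l198 : Lf2 := ⟨nat_lit 0, nat_lit 1, [nat_lit 19, nat_lit 5, nat_lit 5, nat_lit 20], false, nat_lit 0, nat_lit 0, nat_lit 0, nat_lit 0, ⟨nat_lit 1000, nat_lit 0, nat_lit 0, nat_lit 0, nat_lit 0, nat_lit 0, nat_lit 0, nat_lit 0, nat_lit 0, nat_lit 0, nat_lit 0, nat_lit 0, nat_lit 0, nat_lit 0, nat_lit 0, nat_lit 0, false, false⟩,
 nat_lit 0, nat_lit 0, nat_lit 46401, nat_lit 0, nat_lit 18757, nat_lit 18757, nat_lit 7725, nat_lit 0, nat_lit 0, nat_lit 9022, nat_lit 0, nat_lit 0, nat_lit 0, nat_lit 0, nat_lit 0, nat_lit 0, nat_lit 0, nat_lit 0, [],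
 ⟨p000_k12, nat_lit 0, nat_lit 0, nat_lit 0, nat_lit 0, nat_lit 0, [nat_lit 3282000000, nat_lit 5449500000, nat_lit 7968000001, nat_lit 9842000000], [], [nat_lit 14935553680, nat_lit 15338725745, nat_lit 9586528700, nat_lit 10106681705], nat_lit 0, nat_lit 0, nat_lit 0, nat_lit 0, nat_lit 0, nat_lit 0, [], [nat_lit 52, nat_lit 40, nat_lit 20, nat_lit 80]⟩, ⟨p000_k14, nat_lit 0, nat_lit 0, nat_lit 0, nat_lit 0, nat_lit 60577, [nat_lit 3282000000, nat_lit 5449500000, nat_lit 7968000000, nat_lit 9842000000], [], [nat_lit 14533594722, nat_lit 15338725744, nat_lit 9066375694, nat_lit 10106681704], nat_lit 1271250, nat_lit 1271250, nat_lit 230001, nat_lit 490000, nat_lit 0, nat_lit 0, [nat_lit 780000, nat_lit 1271250, nat_lit 1271250, nat_lit 1271250], [nat_lit 52, nat_lit 40, nat_lit 20, nat_lit 80]⟩,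
 zbF0, []⟩
noncomputable def p000_l199 : Lf2 := ⟨nat_lit 1, nat_lit 2, [nat_lit 10, nat_lit 5, nat_lit 5, nat_lit 20], false, nat_lit 0, nat_lit 0, nat_lit 0, nat_lit 0, zbN0,
 nat_lit 0, nat_lit 0, nat_lit 0, nat_lit 0, nat_lit 0, nat_lit 0, nat_lit 0, nat_lit 0, nat_lit 0, nat_lit 0, nat_lit 0, nat_lit 0, nat_lit 0, nat_lit 0, nat_lit 0, nat_lit 0, nat_lit 0, nat_lit 0, [],
 C1.Rw.none, C1.Rw.none,
 zbF0, []⟩
noncomputable def p000_l200 : Lf2 := ⟨nat_lit 0, nat_lit 2, [nat_lit 10, nat_lit 5, nat_lit 5, nat_lit 20], false, nat_lit 0, nat_lit 0, nat_lit 0, nat_lit 0, ⟨nat_lit 1000, nat_lit 0, nat_lit 0, nat_lit 0, nat_lit 0, nat_lit 0, nat_lit 0, nat_lit 0, nat_lit 0, nat_lit 0, nat_lit 0, nat_lit 0, nat_lit 0, nat_lit 0, nat_lit 0, nat_lit 0, false, false⟩,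
 nat_lit 0, nat_lit 0, nat_lit 12750, nat_lit 30143, nat_lit 5154, nat_lit 5154, nat_lit 3868, nat_lit 0, nat_lit 0, nat_lit 4518, nat_lit 0, nat_lit 0, nat_lit 0, nat_lit 0, nat_lit 0, nat_lit 0, nat_lit 0, nat_lit 0, [],
 ⟨p000_k29, nat_lit 0, nat_lit 0, nat_lit 0, nat_lit 0, nat_lit 0, [nat_lit 3282000000, nat_lit 5449500000, nat_lit 7968000001, nat_lit 9842000000], [], [nat_lit 20857419295, nat_lit 21077359913, nat_lit 18248615109, nat_lit 18496473073], nat_lit 0, nat_lit 0, nat_lit 0, nat_lit 0, nat_lit 0, nat_lit 0, [], [nat_lit 52, nat_lit 40, nat_lit 20, nat_lit 80]⟩, ⟨p000_k30, nat_lit 0, nat_lit 0, nat_lit 0, nat_lit 0, nat_lit 1675, [nat_lit 3282000000, nat_lit 5449500000, nat_lit 7968000000, nat_lit 9842000000], [], [nat_lit 20636986324, nat_lit 21077359912, nat_lit 18000757144, nat_lit 18496473072], nat_lit 1271250, nat_lit 1271250, nat_lit 0, nat_lit 490000, nat_lit 0, nat_lit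 0, [nat_lit 780000, nat_lit 1271250, nat_lit 1271250, nat_lit 1271250], [nat_lit 52, nat_lit 40, nat_lit 20, nat_lit 80]⟩,
 zbF0, []⟩
noncomputable def p000_l201 : Lf2 := ⟨nat_lit 0, nat_lit 2, [nat_lit 10, nat_lit 5, nat_lit 5, nat_lit 20], false, nat_lit 0, nat_lit 0, nat_lit 0, nat_lit 0, ⟨nat_lit 1000, nat_lit 0, nat_lit 0, nat_lit 0, nat_lit 0, nat_lit 0, nat_lit 0, nat_lit 0, nat_lit 0, nat_lit 0, nat_lit 0, nat_lit 0, nat_lit 0, nat_lit 0, nat_lit 0, nat_lit 0, false, false⟩,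
 nat_lit 0, nat_lit 0, nat_lit 10992, nat_lit 3382, nat_lit 22730, nat_lit 4443, nat_lit 0, nat_lit 0, nat_lit 0, nat_lit 2874, nat_lit 0, nat_lit 0, nat_lit 0, nat_lit 0, nat_lit 0, nat_lit 0, nat_lit 0, nat_lit 0, [],
 ⟨p000_k6, nat_lit 0, nat_lit 0, nat_lit 0, nat_lit 0, nat_lit 0, [nat_lit 7968000001, nat_lit 9842000000], [], [nat_lit 6745118661, nat_lit 7936120561, nat_lit 5567100301, nat_lit 6591912361], nat_lit 0, nat_lit 0, nat_lit 0, nat_lit 0, nat_lit 0, nat_lit 0, [], [nat_lit 77, nat_lit 40, nat_lit 20, nat_lit 80]⟩, ⟨p000_k6, nat_lit 0, nat_lit 0, nat_lit 0, nat_lit 0, nat_lit 132659, [nat_lit 7968000000, nat_lit 9842000000], [], [nat_lit 39182658719, nat_lit 38899317000, nat_lit 39293625909, nat_lit 39518478984], nat_lit 1271250, nat_lit 1271250, nat_lit 490000, nat_lit 1100001, nat_lit 0, nat_lit 0, [nat_lit 1695000, nat_lit 1271250], [nat_lit 77, nat_lit 40, nat_lit 20, nat_lit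 80]⟩,
 zbF0, []⟩
noncomputable def p000_l202 : Lf2 := ⟨nat_lit 3, nat_lit 2, [nat_lit 10, nat_lit 5, nat_lit 5, nat_lit 20], false, nat_lit 0, nat_lit 0, nat_lit 0, nat_lit 0, zbN0,
 nat_lit 0, nat_lit 0, nat_lit 0, nat_lit 0, nat_lit 0, nat_lit 0, nat_lit 0, nat_lit 0, nat_lit 0, nat_lit 0, nat_lit 0, nat_lit 0, nat_lit 0, nat_lit 0, nat_lit 0, nat_lit 0, nat_lit 0, nat_lit 0, [],
 C1.Rw.none, ⟨p000_k6, nat_lit 0, nat_lit 0, nat_lit 350, nat_lit 0, nat_lit 132659, [], [], [], nat_lit 1271250, nat_lit 1271250, nat_lit 0, nat_lit 1100001, nat_lit 0, nat_lit 0, [nat_lit 1695000, nat_lit 1271250], [nat_lit 77, nat_lit 40, nat_lit 20, nat_lit 80, nat_lit 17, nat_lit 317, nat_lit 100, nat_lit 10]⟩,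
 zbF0, []⟩
noncomputable def b_NL_450_450_0_6 : St := ⟨false, nat_lit 0, nat_lit 1, nat_lit 2, nat_lit 20, nat_lit 190, nat_lit 200, nat_lit 190, nat_lit 200, nat_lit 0, nat_lit 160, nat_lit 0, nat_lit 0, nat_lit 0, nat_lit 0, nat_lit 0, nat_lit 0, nat_lit 0, nat_lit 8, nat_lit 0, nat_lit 600, nat_lit 0, nat_lit 0⟩
theorem d_NL_450_450_0_6 (h : EB TB.env) : Dead b_NL_450_450_0_6 := chkB_sound0 h (T :=
(.spl (nat_lit 8) (nat_lit 800)
(.spl (nat_lit 2) (nat_lit 80)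
(.spl (nat_lit 6) (nat_lit 4)
(.spl (nat_lit 0) (nat_lit 195)
(.ord (.leaf p000_l183))
(.spl (nat_lit 2) (nat_lit 40)
(.spl (nat_lit 2) (nat_lit 20)
(.spl (nat_lit 2) (nat_lit 8)
(.spl (nat_lit 8) (nat_lit 400)
(.leaf p000_l184)
(.spl (nat_lit 1) (nat_lit 195)
(.spl (nat_lit 1) (nat_lit 193)
(.leaf p000_l185)
(.spl (nat_lit 1) (nat_lit 194)
(.leaf p000_l186)
(.spl (nat_lit 0) (nat_lit 198)
(.leaf p000_l187)
(.spl (nat_lit 0) (nat_lit 199)
(.leaf p000_l188)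
(.spl (nat_lit 2) (nat_lit 4)
(.spl (nat_lit 8) (nat_lit 600)
(.spl (nat_lit 8) (nat_lit 500)
(.leaf p000_l189)
(.leaf p000_l190))
(.leaf p000_l191))
(.leaf p000_l192))))))
(.spl (nat_lit 8) (nat_lit 600)
(.spl (nat_lit 8) (nat_lit 500)
(.leaf p000_l193)
(.leaf p000_l194))
(.leaf p000_l195))))
(.leaf p000_l196))
(.leaf p000_l197))
(.leaf p000_l198)))
(.spl (nat_lit 0) (nat_lit 195)
(.ord (.leaf p000_l199))
(.leaf p000_l200)))
(.leaf p000_l201))
(.leaf p000_l202))) (by decide +kernel)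
noncomputable def p000_l203 : Lf2 := ⟨nat_lit 1, nat_lit 2, [nat_lit 10, nat_lit 5, nat_lit 5, nat_lit 20], false, nat_lit 0, nat_lit 0, nat_lit 0, nat_lit 0, zbN0,
 nat_lit 0, nat_lit 0, nat_lit 0, nat_lit 0, nat_lit 0, nat_lit 0, nat_lit 0, nat_lit 0, nat_lit 0, nat_lit 0, nat_lit 0, nat_lit 0, nat_lit 0, nat_lit 0, nat_lit 0, nat_lit 0, nat_lit 0, nat_lit 0, [],
 C1.Rw.none, C1.Rw.none,
 zbF0, []⟩
noncomputable def p000_l204 : Lf2 := ⟨nat_lit 0, nat_lit 2, [nat_lit 10, nat_lit 5, nat_lit 5, nat_lit 20], false, nat_lit 0, nat_lit 0, nat_lit 0, nat_lit 0, ⟨nat_lit 1000, nat_lit 0, nat_lit 0, nat_lit 0, nat_lit 0, nat_lit 0, nat_lit 0, nat_lit 0, nat_lit 0, nat_lit 0, nat_lit 0, nat_lit 0, nat_lit 0, nat_lit 0, nat_lit 0, nat_lit 0, false, false⟩,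
 nat_lit 0, nat_lit 38679, nat_lit 0, nat_lit 0, nat_lit 15636, nat_lit 0, nat_lit 7090, nat_lit 0, nat_lit 0, nat_lit 0, nat_lit 0, nat_lit 469, nat_lit 0, nat_lit 0, nat_lit 0, nat_lit 0, nat_lit 0, nat_lit 0, [],
 ⟨p000_k30, nat_lit 0, nat_lit 0, nat_lit 0, nat_lit 0, nat_lit 61990, [nat_lit 3282000000, nat_lit 5449500000, nat_lit 7968000001, nat_lit 9842000000], [], [nat_lit 25985468126, nat_lit 26555199906, nat_lit 15105247902, nat_lit 15667750658], nat_lit 1271250, nat_lit 1271250, nat_lit 0, nat_lit 490000, nat_lit 0, nat_lit 0, [nat_lit 780000, nat_lit 1271250, nat_lit 1271250, nat_lit 1271250], [nat_lit 52, nat_lit 40, nat_lit 20, nat_lit 80]⟩, ⟨p000_k31, nat_lit 0, nat_lit 0, nat_lit 0, nat_lit 0, nat_lit 0, [nat_lit 3282000000, nat_lit 5449500000, nat_lit 7968000000, nat_lit 9842000000], [], [nat_lit 3726516000, nat_lit 4468852000, nat_lit 5212780000, nat_lit 5944040000], nat_lit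 0, nat_lit 0, nat_lit 0, nat_lit 0, nat_lit 0, nat_lit 0, [], [nat_lit 52, nat_lit 40, nat_lit 20, nat_lit 80]⟩,
 zbF0, []⟩
noncomputable def p000_l205 : Lf2 := ⟨nat_lit 0, nat_lit 2, [nat_lit 10, nat_lit 5, nat_lit 5, nat_lit 20], false, nat_lit 0, nat_lit 0, nat_lit 0, nat_lit 0, ⟨nat_lit 1000, nat_lit 0, nat_lit 0, nat_lit 0, nat_lit 0, nat_lit 0, nat_lit 0, nat_lit 0, nat_lit 0, nat_lit 0, nat_lit 0, nat_lit 0, nat_lit 0, nat_lit 0, nat_lit 0, nat_lit 0, false, false⟩,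
 nat_lit 0, nat_lit 5877, nat_lit 0, nat_lit 6372, nat_lit 2375, nat_lit 4903, nat_lit 0, nat_lit 0, nat_lit 0, nat_lit 0, nat_lit 0, nat_lit 0, nat_lit 0, nat_lit 0, nat_lit 0, nat_lit 0, nat_lit 0, nat_lit 0, [],
 ⟨p000_k30, nat_lit 0, nat_lit 0, nat_lit 0, nat_lit 0, nat_lit 132659, [nat_lit 3282000000, nat_lit 5449500000, nat_lit 7968000001, nat_lit 9842000000], [], [nat_lit 37550353251, nat_lit 37836805501, nat_lit 40557278125, nat_lit 39973952000], nat_lit 1271250, nat_lit 1271250, nat_lit 490000, nat_lit 1100001, nat_lit 0, nat_lit 0, [nat_lit 780000, nat_lit 1271250, nat_lit 1271250, nat_lit 1271250], [nat_lit 52, nat_lit 40, nat_lit 20, nat_lit 80]⟩, ⟨p000_k31, nat_lit 0, nat_lit 0, nat_lit 0, nat_lit 0, nat_lit 0, [nat_lit 3282000000, nat_lit 5449500000, nat_lit 7968000000, nat_lit 9842000000], [], [nat_lit 4946461588, nat_lit 6217336416, nat_lit 6987697482, nat_lit 8203075880],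 nat_lit 0, nat_lit 0, nat_lit 0, nat_lit 0, nat_lit 0, nat_lit 0, [], [nat_lit 52, nat_lit 40, nat_lit 20, nat_lit 80]⟩,
 zbF0, []⟩
noncomputable def p000_l206 : Lf2 := ⟨nat_lit 0, nat_lit 2, [nat_lit 10, nat_lit 5, nat_lit 5, nat_lit 20], false, nat_lit 0, nat_lit 0, nat_lit 0, nat_lit 0, ⟨nat_lit 1000, nat_lit 0, nat_lit 0, nat_lit 0, nat_lit 0, nat_lit 0, nat_lit 0, nat_lit 0, nat_lit 0, nat_lit 0, nat_lit 0, nat_lit 0, nat_lit 0, nat_lit 0, nat_lit 0, nat_lit 0, false, false⟩,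
 nat_lit 0, nat_lit 300000, nat_lit 0, nat_lit 0, nat_lit 121276, nat_lit 0, nat_lit 6589, nat_lit 3400, nat_lit 0, nat_lit 60000, nat_lit 0, nat_lit 584, nat_lit 0, nat_lit 305346643848378, nat_lit 0, nat_lit 0, nat_lit 0, nat_lit 0, [],
 ⟨p000_k32, nat_lit 0, nat_lit 0, nat_lit 0, nat_lit 0, nat_lit 61990, [nat_lit 74250000000, nat_lit 89568000000, nat_lit 105042000000], [], [nat_lit 218633703372, nat_lit 187054767008, nat_lit 210303313496, nat_lit 179646923664], nat_lit 1271250, nat_lit 1271250, nat_lit 0, nat_lit 490000, nat_lit 0, nat_lit 0, [nat_lit 1412500, nat_lit 1271250, nat_lit 1271250], [nat_lit 25, nat_lit 40, nat_lit 20, nat_lit 40]⟩, ⟨p000_k33, nat_lit 0, nat_lit 0, nat_lit 0, nat_lit 0, nat_lit 0, [nat_lit 2637500000, nat_lit 7089500000, nat_lit 8885500000, nat_lit 9842000000], [], [nat_lit 3777940000, nat_lit 4466004000, nat_lit 5208666000, nat_lit 5881644000], nat_lit 0,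 nat_lit 0, nat_lit 0, nat_lit 0, nat_lit 0, nat_lit 0, [], [nat_lit 216, nat_lit 40, nat_lit 20, nat_lit 40]⟩,
 zbF0, []⟩
noncomputable def p000_l207 : Lf2 := ⟨nat_lit 0, nat_lit 2, [nat_lit 10, nat_lit 5, nat_lit 5, nat_lit 20], false, nat_lit 0, nat_lit 0, nat_lit 0, nat_lit 0, ⟨nat_lit 1000, nat_lit 0, nat_lit 0, nat_lit 0, nat_lit 0, nat_lit 0, nat_lit 0, nat_lit 0, nat_lit 0, nat_lit 0, nat_lit 0, nat_lit 0, nat_lit 0, nat_lit 0, nat_lit 0, nat_lit 0, false, false⟩,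
 nat_lit 0, nat_lit 300000, nat_lit 0, nat_lit 0, nat_lit 121276, nat_lit 4903, nat_lit 60000, nat_lit 16777, nat_lit 0, nat_lit 31526, nat_lit 0, nat_lit 0, nat_lit 0, nat_lit 318143080175283, nat_lit 0, nat_lit 0, nat_lit 0, nat_lit 0, [],
 ⟨p000_k34, nat_lit 0, nat_lit 0, nat_lit 0, nat_lit 0, nat_lit 132659, [nat_lit 376183500000, nat_lit 445087500001, nat_lit 479598000000], [], [nat_lit 989731078284, nat_lit 957185847553, nat_lit 931456701297, nat_lit 931691224225], nat_lit 1271250, nat_lit 1271250, nat_lit 490000, nat_lit 1100001, nat_lit 0, nat_lit 0, [nat_lit 1553750, nat_lit 1271250, nat_lit 1271250], [nat_lit 221, nat_lit 40, nat_lit 20, nat_lit 40]⟩, ⟨p000_k35, nat_lit 0, nat_lit 0, nat_lit 0, nat_lit 0, nat_lit 0, [nat_lit 3282000000, nat_lit 7089500000, nat_lit 8885500000, nat_lit 9842000000], [], [nat_lit 4946461588, nat_lit 6217336416, nat_lit 6987697482, nat_lit 8203075880],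 nat_lit 0, nat_lit 0, nat_lit 0, nat_lit 0, nat_lit 0, nat_lit 0, [], [nat_lit 218, nat_lit 40, nat_lit 20, nat_lit 40]⟩,
 zbF0, []⟩
noncomputable def p000_l208 : Lf2 := ⟨nat_lit 2, nat_lit 2, [nat_lit 10, nat_lit 5, nat_lit 5, nat_lit 20], true, nat_lit 0, nat_lit 0, nat_lit 0, nat_lit 0, zbN0,
 nat_lit 0, nat_lit 0, nat_lit 0, nat_lit 0, nat_lit 0, nat_lit 0, nat_lit 0, nat_lit 0, nat_lit 0, nat_lit 0, nat_lit 0, nat_lit 0, nat_lit 0, nat_lit 0, nat_lit 0, nat_lit 0, nat_lit 0, nat_lit 0, [],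
 ⟨p000_k6, nat_lit 0, nat_lit 0, nat_lit 350, nat_lit 0, nat_lit 132659, [], [], [], nat_lit 1271250, nat_lit 1271250, nat_lit 0, nat_lit 1100001, nat_lit 0, nat_lit 0, [nat_lit 1695000, nat_lit 1271250], [nat_lit 77, nat_lit 40, nat_lit 20, nat_lit 80, nat_lit 17, nat_lit 317, nat_lit 100, nat_lit 10]⟩, C1.Rw.none,
 zbF0, []⟩
noncomputable def p000_l209 : Lf2 := ⟨nat_lit 0, nat_lit 2, [nat_lit 10, nat_lit 5, nat_lit 5, nat_lit 20], false, nat_lit 0, nat_lit 0, nat_lit 0, nat_lit 0, ⟨nat_lit 1000, nat_lit 0, nat_lit 0, nat_lit 0, nat_lit 0, nat_lit 0, nat_lit 0, nat_lit 0, nat_lit 0, nat_lit 0, nat_lit 0, nat_lit 0, nat_lit 0, nat_lit 0, nat_lit 0, nat_lit 0, false, false⟩,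
 nat_lit 0, nat_lit 38679, nat_lit 0, nat_lit 0, nat_lit 15636, nat_lit 3727, nat_lit 7090, nat_lit 0, nat_lit 0, nat_lit 0, nat_lit 0, nat_lit 0, nat_lit 0, nat_lit 0, nat_lit 0, nat_lit 0, nat_lit 0, nat_lit 0, [],
 ⟨p000_k30, nat_lit 0, nat_lit 0, nat_lit 0, nat_lit 0, nat_lit 61990, [nat_lit 3282000000, nat_lit 5449500000, nat_lit 7968000001, nat_lit 9842000000], [], [nat_lit 25985468126, nat_lit 26555199906, nat_lit 15105247902, nat_lit 15667750658], nat_lit 1271250, nat_lit 1271250, nat_lit 0, nat_lit 490000, nat_lit 0, nat_lit 0, [nat_lit 780000, nat_lit 1271250, nat_lit 1271250, nat_lit 1271250], [nat_lit 52, nat_lit 40, nat_lit 20, nat_lit 80]⟩, ⟨p000_k31, nat_lit 0, nat_lit 0, nat_lit 0, nat_lit 0, nat_lit 0, [nat_lit 3282000000, nat_lit 5449500000, nat_lit 7968000000, nat_lit 9842000000], [], [nat_lit 8675159820, nat_lit 9729966120, nat_lit 6325817660, nat_lit 7501678944], nat_lit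 0, nat_lit 0, nat_lit 0, nat_lit 0, nat_lit 0, nat_lit 0, [], [nat_lit 52, nat_lit 40, nat_lit 20, nat_lit 80]⟩,
 zbF0, []⟩
noncomputable def p000_l210 : Lf2 := ⟨nat_lit 0, nat_lit 2, [nat_lit 10, nat_lit 5, nat_lit 5, nat_lit 20], false, nat_lit 0, nat_lit 0, nat_lit 0, nat_lit 0, ⟨nat_lit 1000, nat_lit 0, nat_lit 0, nat_lit 0, nat_lit 0, nat_lit 0, nat_lit 0, nat_lit 0, nat_lit 0, nat_lit 0, nat_lit 0, nat_lit 0, nat_lit 0, nat_lit 0, nat_lit 0, nat_lit 0, false, false⟩,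
 nat_lit 0, nat_lit 12765, nat_lit 0, nat_lit 12941, nat_lit 5160, nat_lit 0, nat_lit 4552, nat_lit 0, nat_lit 0, nat_lit 0, nat_lit 0, nat_lit 800, nat_lit 0, nat_lit 0, nat_lit 0, nat_lit 0, nat_lit 0, nat_lit 906284000, [],
 ⟨p000_k30, nat_lit 0, nat_lit 0, nat_lit 0, nat_lit 0, nat_lit 22234, [nat_lit 3282000000, nat_lit 5449500000, nat_lit 7968000001, nat_lit 9842000000], [], [nat_lit 20599423960, nat_lit 20820317081, nat_lit 17991705761, nat_lit 18239670321], nat_lit 1271250, nat_lit 1271250, nat_lit 0, nat_lit 490000, nat_lit 0, nat_lit 0, [nat_lit 780000, nat_lit 1271250, nat_lit 1271250, nat_lit 1271250], [nat_lit 52, nat_lit 40, nat_lit 20, nat_lit 80]⟩, ⟨p000_k31, nat_lit 0, nat_lit 0, nat_lit 0, nat_lit 0, nat_lit 0, [nat_lit 3282000000, nat_lit 5449500000, nat_lit 7968000000, nat_lit 9842000000], [], [nat_lit 0, nat_lit 536379000, nat_lit 1469506000, nat_lit 1994828500], nat_lit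 0, nat_lit 0, nat_lit 0, nat_lit 0, nat_lit 0, nat_lit 0, [], [nat_lit 52, nat_lit 40, nat_lit 20, nat_lit 80]⟩,
 zbF0, []⟩
noncomputable def p000_l211 : Lf2 := ⟨nat_lit 0, nat_lit 1, [nat_lit 19, nat_lit 5, nat_lit 5, nat_lit 20], false, nat_lit 0, nat_lit 0, nat_lit 0, nat_lit 0, ⟨nat_lit 1000, nat_lit 0, nat_lit 0, nat_lit 0, nat_lit 0, nat_lit 0, nat_lit 0, nat_lit 0, nat_lit 0, nat_lit 0, nat_lit 0, nat_lit 0, nat_lit 0, nat_lit 0, nat_lit 0, nat_lit 0, false, false⟩,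
 nat_lit 0, nat_lit 37672, nat_lit 0, nat_lit 0, nat_lit 15685, nat_lit 0, nat_lit 6097, nat_lit 0, nat_lit 0, nat_lit 0, nat_lit 0, nat_lit 793, nat_lit 0, nat_lit 0, nat_lit 0, nat_lit 0, nat_lit 0, nat_lit 740886000, [],
 ⟨p000_k12, nat_lit 0, nat_lit 0, nat_lit 0, nat_lit 0, nat_lit 43721, [nat_lit 3282000000, nat_lit 5449500000, nat_lit 7968000001, nat_lit 9842000000], [], [nat_lit 26249917505, nat_lit 26421099508, nat_lit 15327735320, nat_lit 15496749585], nat_lit 1271250, nat_lit 1271250, nat_lit 0, nat_lit 490000, nat_lit 0, nat_lit 0, [nat_lit 780000, nat_lit 1271250, nat_lit 1271250, nat_lit 1271250], [nat_lit 52, nat_lit 40, nat_lit 20, nat_lit 80]⟩, ⟨p000_k13, nat_lit 0, nat_lit 0, nat_lit 0, nat_lit 0, nat_lit 0, [nat_lit 3282000000, nat_lit 5449500000, nat_lit 7968000000, nat_lit 9842000000], [], [nat_lit 0, nat_lit 605223000, nat_lit 1430108000, nat_lit 2060495000], nat_lit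 0, nat_lit 0, nat_lit 0, nat_lit 0, nat_lit 0, nat_lit 0, [], [nat_lit 52, nat_lit 40, nat_lit 20, nat_lit 80]⟩,
 zbF0, []⟩
noncomputable def p000_l212 : Lf2 := ⟨nat_lit 0, nat_lit 1, [nat_lit 19, nat_lit 5, nat_lit 5, nat_lit 20], false, nat_lit 0, nat_lit 0, nat_lit 0, nat_lit 0, ⟨nat_lit 1000, nat_lit 0, nat_lit 0, nat_lit 0, nat_lit 0, nat_lit 0, nat_lit 0, nat_lit 0, nat_lit 0, nat_lit 0, nat_lit 0, nat_lit 0, nat_lit 0, nat_lit 0, nat_lit 0, nat_lit 0, false, false⟩,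
 nat_lit 0, nat_lit 29380, nat_lit 0, nat_lit 0, nat_lit 12447, nat_lit 0, nat_lit 8589, nat_lit 0, nat_lit 0, nat_lit 0, nat_lit 0, nat_lit 584, nat_lit 0, nat_lit 0, nat_lit 0, nat_lit 0, nat_lit 0, nat_lit 0, [],
 ⟨p000_k36, nat_lit 0, nat_lit 0, nat_lit 0, nat_lit 0, nat_lit 57753, [nat_lit 7089500001, nat_lit 8885500000], [], [nat_lit 21949161492, nat_lit 22050361781, nat_lit 20936660211, nat_lit 20268333482], nat_lit 1271250, nat_lit 1271250, nat_lit 0, nat_lit 490000, nat_lit 0, nat_lit 0, [nat_lit 1553750, nat_lit 1271250], [nat_lit 162, nat_lit 40, nat_lit 20, nat_lit 40]⟩, ⟨p000_k37, nat_lit 0, nat_lit 0, nat_lit 0, nat_lit 0, nat_lit 0, [nat_lit 7089500000, nat_lit 8885500000], [], [nat_lit 3777940000, nat_lit 4466004000, nat_lit 5208666000, nat_lit 5881644000], nat_lit 0, nat_lit 0, nat_lit 0, nat_lit 0, nat_lit 0, nat_lit 0, [], [nat_lit 162, nat_lit 40, nat_lit 20, nat_lit 40]⟩,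
 zbF0, []⟩
noncomputable def p000_l213 : Lf2 := ⟨nat_lit 0, nat_lit 2, [nat_lit 10, nat_lit 5, nat_lit 5, nat_lit 20], false, nat_lit 0, nat_lit 0, nat_lit 0, nat_lit 0, ⟨nat_lit 1000, nat_lit 0, nat_lit 0, nat_lit 0, nat_lit 0, nat_lit 0, nat_lit 0, nat_lit 0, nat_lit 0, nat_lit 0, nat_lit 0, nat_lit 0, nat_lit 0, nat_lit 0, nat_lit 0, nat_lit 0, false, false⟩,
 nat_lit 0, nat_lit 12379, nat_lit 0, nat_lit 12285, nat_lit 5154, nat_lit 0, nat_lit 3868, nat_lit 0, nat_lit 0, nat_lit 0, nat_lit 0, nat_lit 792, nat_lit 0, nat_lit 0, nat_lit 0, nat_lit 0, nat_lit 0, nat_lit 716886000, [],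
 ⟨p000_k29, nat_lit 0, nat_lit 0, nat_lit 0, nat_lit 0, nat_lit 1601, [nat_lit 3282000000, nat_lit 5449500000, nat_lit 7968000001, nat_lit 9842000000], [], [nat_lit 20857419295, nat_lit 21077359913, nat_lit 18248615109, nat_lit 18496473073], nat_lit 1271250, nat_lit 1271250, nat_lit 0, nat_lit 490000, nat_lit 0, nat_lit 0, [nat_lit 780000, nat_lit 1271250, nat_lit 1271250, nat_lit 1271250], [nat_lit 52, nat_lit 40, nat_lit 20, nat_lit 80]⟩, ⟨p000_k31, nat_lit 0, nat_lit 0, nat_lit 0, nat_lit 0, nat_lit 0, [nat_lit 3282000000, nat_lit 5449500000, nat_lit 7968000000, nat_lit 9842000000], [], [nat_lit 0, nat_lit 672470000, nat_lit 1424108000, nat_lit 2124538000], nat_lit 0, nat_lit 0, nat_lit 0, nat_lit 0, nat_lit 0, nat_lit 0, [], [nat_lit 52, nat_lit 40, nat_lit 20, nat_lit 80]⟩,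
 zbF0, []⟩
noncomputable def p000_l214 : Lf2 := ⟨nat_lit 0, nat_lit 2, [nat_lit 10, nat_lit 5, nat_lit 5, nat_lit 20], false, nat_lit 0, nat_lit 0, nat_lit 0, nat_lit 0, ⟨nat_lit 1000, nat_lit 0, nat_lit 0, nat_lit 0, nat_lit 0, nat_lit 0, nat_lit 0, nat_lit 0, nat_lit 0, nat_lit 0, nat_lit 0, nat_lit 0, nat_lit 0, nat_lit 0, nat_lit 0, nat_lit 0, false, false⟩,
 nat_lit 0, nat_lit 6338, nat_lit 0, nat_lit 0, nat_lit 2562, nat_lit 206823, nat_lit 0, nat_lit 0, nat_lit 0, nat_lit 0, nat_lit 20000, nat_lit 0, nat_lit 0, nat_lit 24059618352081, nat_lit 0, nat_lit 0, nat_lit 0, nat_lit 8583658038, [],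
 ⟨p000_k30, nat_lit 0, nat_lit 0, nat_lit 0, nat_lit 0, nat_lit 132659, [nat_lit 3282000000, nat_lit 5449500000, nat_lit 7968000001, nat_lit 9842000000], [], [nat_lit 37981309262, nat_lit 37289802825, nat_lit 40487931606, nat_lit 39858676224], nat_lit 1271250, nat_lit 1271250, nat_lit 490000, nat_lit 1100001, nat_lit 0, nat_lit 0, [nat_lit 780000, nat_lit 1271250, nat_lit 1271250, nat_lit 1271250], [nat_lit 52, nat_lit 40, nat_lit 20, nat_lit 80]⟩, ⟨p000_k31, nat_lit 0, nat_lit 0, nat_lit 0, nat_lit 0, nat_lit 0, [nat_lit 243282000000, nat_lit 365449500000, nat_lit 487968000000, nat_lit 569842000000], [], [nat_lit 11590879946, nat_lit 34278508694, nat_lit 0, nat_lit 22551457118], nat_lit 0, nat_lit 0, nat_lit 0, nat_lit 0, nat_lit 0, nat_lit 0, [], [nat_lit 52, nat_lit 40, nat_lit 20, nat_lit 80]⟩,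
 zbF0, []⟩
noncomputable def p000_l215 : Lf2 := ⟨nat_lit 0, nat_lit 2, [nat_lit 10, nat_lit 5, nat_lit 5, nat_lit 20], false, nat_lit 0, nat_lit 0, nat_lit 0, nat_lit 0, ⟨nat_lit 1000, nat_lit 0, nat_lit 0, nat_lit 0, nat_lit 0, nat_lit 0, nat_lit 0, nat_lit 0, nat_lit 0, nat_lit 0, nat_lit 0, nat_lit 0, nat_lit 0, nat_lit 0, nat_lit 0, nat_lit 0, false, false⟩,
 nat_lit 0, nat_lit 300000, nat_lit 0, nat_lit 0, nat_lit 121276, nat_lit 0, nat_lit 0, nat_lit 4427, nat_lit 0, nat_lit 60000, nat_lit 0, nat_lit 584, nat_lit 0, nat_lit 308016012285030, nat_lit 0, nat_lit 0, nat_lit 0, nat_lit 0, [],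
 ⟨p000_k32, nat_lit 0, nat_lit 0, nat_lit 0, nat_lit 0, nat_lit 61990, [nat_lit 94790000001, nat_lit 114216000000, nat_lit 133798000000], [], [nat_lit 280253703375, nat_lit 248674767011, nat_lit 271923313499, nat_lit 241266923667], nat_lit 1271250, nat_lit 1271250, nat_lit 0, nat_lit 490000, nat_lit 0, nat_lit 0, [nat_lit 1412500, nat_lit 1271250, nat_lit 1271250], [nat_lit 25, nat_lit 40, nat_lit 20, nat_lit 40]⟩, ⟨p000_k33, nat_lit 0, nat_lit 0, nat_lit 0, nat_lit 0, nat_lit 0, [nat_lit 2637500000, nat_lit 7089500000, nat_lit 8885500000, nat_lit 9842000000], [], [nat_lit 3777940000, nat_lit 4466004000, nat_lit 5208666000, nat_lit 5881644000], nat_lit 0, nat_lit 0, nat_lit 0, nat_lit 0, nat_lit 0, nat_lit 0, [], [nat_lit 216, nat_lit 40, nat_lit 20, nat_lit 40]⟩,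
 zbF0, []⟩
noncomputable def p000_l216 : Lf2 := ⟨nat_lit 0, nat_lit 2, [nat_lit 10, nat_lit 5, nat_lit 5, nat_lit 20], false, nat_lit 0, nat_lit 0, nat_lit 0, nat_lit 0, ⟨nat_lit 1000, nat_lit 0, nat_lit 0, nat_lit 0, nat_lit 0, nat_lit 0, nat_lit 0, nat_lit 0, nat_lit 0, nat_lit 0, nat_lit 0, nat_lit 0, nat_lit 0, nat_lit 0, nat_lit 0, nat_lit 0, false, false⟩,
 nat_lit 0, nat_lit 300000, nat_lit 0, nat_lit 0, nat_lit 121276, nat_lit 300000, nat_lit 60000, nat_lit 18116, nat_lit 0, nat_lit 31656, nat_lit 10445, nat_lit 0, nat_lit 0, nat_lit 400000000000000, nat_lit 0, nat_lit 0, nat_lit 0, nat_lit 23733548000, [],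
 ⟨p000_k38, nat_lit 0, nat_lit 0, nat_lit 0, nat_lit 0, nat_lit 132659, [nat_lit 405641500001, nat_lit 442752000000, nat_lit 517090000000], [], [nat_lit 1048647078286, nat_lit 1016089787458, nat_lit 991921487122, nat_lit 992469933954], nat_lit 1271250, nat_lit 1271250, nat_lit 490000, nat_lit 1100001, nat_lit 0, nat_lit 0, [nat_lit 1553750, nat_lit 1271250, nat_lit 1271250], [nat_lit 220, nat_lit 40, nat_lit 20, nat_lit 40]⟩, ⟨p000_k39, nat_lit 0, nat_lit 0, nat_lit 0, nat_lit 0, nat_lit 0, [nat_lit 236879500000, nat_lit 258648000000, nat_lit 302302000000], [], [nat_lit 31855614000, nat_lit 58416240000, nat_lit 0, nat_lit 22272180000], nat_lit 0, nat_lit 0, nat_lit 0, nat_lit 0, nat_lit 0, nat_lit 0, [], [nat_lit 220, nat_lit 40, nat_lit 20, nat_lit 40]⟩,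
 zbF0, []⟩
noncomputable def p000_l217 : Lf2 := ⟨nat_lit 2, nat_lit 2, [nat_lit 10, nat_lit 5, nat_lit 5, nat_lit 20], true, nat_lit 0, nat_lit 0, nat_lit 0, nat_lit 0, zbN0,
 nat_lit 0, nat_lit 0, nat_lit 0, nat_lit 0, nat_lit 0, nat_lit 0, nat_lit 0, nat_lit 0, nat_lit 0, nat_lit 0, nat_lit 0, nat_lit 0, nat_lit 0, nat_lit 0, nat_lit 0, nat_lit 0, nat_lit 0, nat_lit 0, [],
 ⟨p000_k6, nat_lit 0, nat_lit 0, nat_lit 350, nat_lit 0, nat_lit 132659, [], [], [], nat_lit 1271250, nat_lit 1271250, nat_lit 0, nat_lit 1100001, nat_lit 0, nat_lit 0, [nat_lit 1695000, nat_lit 1271250], [nat_lit 77, nat_lit 40, nat_lit 20, nat_lit 80, nat_lit 17, nat_lit 317, nat_lit 100, nat_lit 10]⟩, C1.Rw.none,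
 zbF0, []⟩
noncomputable def p000_l218 : Lf2 := ⟨nat_lit 0, nat_lit 1, [nat_lit 19, nat_lit 5, nat_lit 5, nat_lit 20], false, nat_lit 0, nat_lit 0, nat_lit 0, nat_lit 0, ⟨nat_lit 1000, nat_lit 0, nat_lit 0, nat_lit 0, nat_lit 0, nat_lit 0, nat_lit 0, nat_lit 0, nat_lit 0, nat_lit 0, nat_lit 0, nat_lit 0, nat_lit 0, nat_lit 0, nat_lit 0, nat_lit 0, false, false⟩,
 nat_lit 0, nat_lit 12750, nat_lit 0, nat_lit 36241, nat_lit 5154, nat_lit 5166, nat_lit 4518, nat_lit 0, nat_lit 0, nat_lit 6878, nat_lit 0, nat_lit 0, nat_lit 0, nat_lit 0, nat_lit 0, nat_lit 0, nat_lit 0, nat_lit 0, [],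
 ⟨p000_k14, nat_lit 0, nat_lit 0, nat_lit 0, nat_lit 0, nat_lit 23338, [nat_lit 3282000000, nat_lit 5449500000, nat_lit 7968000001, nat_lit 9842000000], [], [nat_lit 20636986324, nat_lit 21077359913, nat_lit 18000757145, nat_lit 18496473073], nat_lit 1271250, nat_lit 1271250, nat_lit 0, nat_lit 490000, nat_lit 0, nat_lit 0, [nat_lit 780000, nat_lit 1271250, nat_lit 1271250, nat_lit 1271250], [nat_lit 52, nat_lit 40, nat_lit 20, nat_lit 80]⟩, ⟨p000_k13, nat_lit 0, nat_lit 0, nat_lit 0, nat_lit 0, nat_lit 0, [nat_lit 3282000000, nat_lit 5449500000, nat_lit 7968000000, nat_lit 9842000000], [], [nat_lit 20122758928, nat_lit 20563060318, nat_lit 17486512064, nat_lit 17982654376], nat_lit 0, nat_lit 0, nat_lit 0, nat_lit 0, nat_lit 0, nat_lit 0, [], [nat_lit 52, nat_lit 40, nat_lit 20, nat_lit 80]⟩,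
 zbF0, []⟩
noncomputable def p000_l219 : Lf2 := ⟨nat_lit 3, nat_lit 1, [nat_lit 19, nat_lit 5, nat_lit 5, nat_lit 20], false, nat_lit 0, nat_lit 0, nat_lit 0, nat_lit 0, zbN0,
 nat_lit 0, nat_lit 0, nat_lit 0, nat_lit 0, nat_lit 0, nat_lit 0, nat_lit 0, nat_lit 0, nat_lit 0, nat_lit 0, nat_lit 0, nat_lit 0, nat_lit 0, nat_lit 0, nat_lit 0, nat_lit 0, nat_lit 0, nat_lit 0, [],
 C1.Rw.none, ⟨p000_k13, nat_lit 0, nat_lit 0, nat_lit 0, nat_lit 0, nat_lit 0, [], [], [], nat_lit 0, nat_lit 0, nat_lit 0, nat_lit 0, nat_lit 0, nat_lit 0, [], [nat_lit 52, nat_lit 40, nat_lit 20, nat_lit 80]⟩,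
 zbF0, []⟩
noncomputable def p000_l220 : Lf2 := ⟨nat_lit 2, nat_lit 1, [nat_lit 19, nat_lit 5, nat_lit 5, nat_lit 20], true, nat_lit 0, nat_lit 0, nat_lit 0, nat_lit 0, zbN0,
 nat_lit 0, nat_lit 0, nat_lit 0, nat_lit 0, nat_lit 0, nat_lit 0, nat_lit 0, nat_lit 0, nat_lit 0, nat_lit 0, nat_lit 0, nat_lit 0, nat_lit 0, nat_lit 0, nat_lit 0, nat_lit 0, nat_lit 0, nat_lit 0, [],
 ⟨p000_k14, nat_lit 0, nat_lit 0, nat_lit 0, nat_lit 0, nat_lit 23338, [], [], [], nat_lit 1271250, nat_lit 1271250, nat_lit 0, nat_lit 490000, nat_lit 0, nat_lit 0, [nat_lit 780000, nat_lit 1271250, nat_lit 1271250, nat_lit 1271250], [nat_lit 52, nat_lit 40, nat_lit 20, nat_lit 80]⟩, C1.Rw.none,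
 zbF0, []⟩
noncomputable def p000_l221 : Lf2 := ⟨nat_lit 3, nat_lit 1, [nat_lit 19, nat_lit 5, nat_lit 5, nat_lit 20], false, nat_lit 0, nat_lit 0, nat_lit 0, nat_lit 0, zbN0,
 nat_lit 0, nat_lit 0, nat_lit 0, nat_lit 0, nat_lit 0, nat_lit 0, nat_lit 0, nat_lit 0, nat_lit 0, nat_lit 0, nat_lit 0, nat_lit 0, nat_lit 0, nat_lit 0, nat_lit 0, nat_lit 0, nat_lit 0, nat_lit 0, [],
 C1.Rw.none, ⟨p000_k13, nat_lit 0, nat_lit 0, nat_lit 0, nat_lit 0, nat_lit 0, [], [], [], nat_lit 0, nat_lit 0, nat_lit 0, nat_lit 0, nat_lit 0, nat_lit 0, [], [nat_lit 52, nat_lit 40, nat_lit 20, nat_lit 80]⟩,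
 zbF0, []⟩
noncomputable def p000_l222 : Lf2 := ⟨nat_lit 0, nat_lit 1, [nat_lit 19, nat_lit 5, nat_lit 5, nat_lit 20], false, nat_lit 0, nat_lit 0, nat_lit 0, nat_lit 0, ⟨nat_lit 1000, nat_lit 0, nat_lit 0, nat_lit 0, nat_lit 0, nat_lit 0, nat_lit 0, nat_lit 0, nat_lit 0, nat_lit 0, nat_lit 0, nat_lit 0, nat_lit 0, nat_lit 0, nat_lit 0, nat_lit 0, false, false⟩,
 nat_lit 0, nat_lit 300000, nat_lit 0, nat_lit 0, nat_lit 121276, nat_lit 5166, nat_lit 60000, nat_lit 20000, nat_lit 0, nat_lit 11233, nat_lit 0, nat_lit 0, nat_lit 0, nat_lit 0, nat_lit 0, nat_lit 0, nat_lit 0, nat_lit 0, [],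
 ⟨p000_k3, nat_lit 0, nat_lit 0, nat_lit 0, nat_lit 0, nat_lit 51408, [nat_lit 487968000000, nat_lit 569842000000], [], [nat_lit 1360743802652, nat_lit 1360619528752, nat_lit 1247374223436, nat_lit 1246792194000], nat_lit 1271250, nat_lit 1271250, nat_lit 0, nat_lit 1100001, nat_lit 0, nat_lit 0, [nat_lit 1695000, nat_lit 1271250], [nat_lit 77, nat_lit 40, nat_lit 20, nat_lit 80]⟩, ⟨p000_k1, nat_lit 0, nat_lit 0, nat_lit 0, nat_lit 0, nat_lit 0, [nat_lit 3282000000, nat_lit 7968000000, nat_lit 9842000000], [], [nat_lit 20057047588, nat_lit 20563060318, nat_lit 19044622500, nat_lit 19486288274], nat_lit 0, nat_lit 0, nat_lit 0, nat_lit 0, nat_lit 0, nat_lit 0, [], [nat_lit 99, nat_lit 40, nat_lit 20, nat_lit 80]⟩,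
 zbF0, []⟩
noncomputable def p000_l223 : Lf2 := ⟨nat_lit 2, nat_lit 1, [nat_lit 19, nat_lit 5, nat_lit 5, nat_lit 20], true, nat_lit 0, nat_lit 0, nat_lit 0, nat_lit 0, zbN0,
 nat_lit 0, nat_lit 0, nat_lit 0, nat_lit 0, nat_lit 0, nat_lit 0, nat_lit 0, nat_lit 0, nat_lit 0, nat_lit 0, nat_lit 0, nat_lit 0, nat_lit 0, nat_lit 0, nat_lit 0, nat_lit 0, nat_lit 0, nat_lit 0, [],
 ⟨p000_k3, nat_lit 0, nat_lit 0, nat_lit 312, nat_lit 0, nat_lit 51408, [], [], [], nat_lit 1271250, nat_lit 1271250, nat_lit 0, nat_lit 1100001, nat_lit 0, nat_lit 0, [nat_lit 1695000, nat_lit 1271250], [nat_lit 77, nat_lit 40, nat_lit 20, nat_lit 80, nat_lit 17, nat_lit 317, nat_lit 100, nat_lit 10]⟩, C1.Rw.none,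
 zbF0, []⟩
noncomputable def p000_l224 : Lf2 := ⟨nat_lit 1, nat_lit 2, [nat_lit 10, nat_lit 5, nat_lit 5, nat_lit 20], false, nat_lit 0, nat_lit 0, nat_lit 0, nat_lit 0, zbN0,
 nat_lit 0, nat_lit 0, nat_lit 0, nat_lit 0, nat_lit 0, nat_lit 0, nat_lit 0, nat_lit 0, nat_lit 0, nat_lit 0, nat_lit 0, nat_lit 0, nat_lit 0, nat_lit 0, nat_lit 0, nat_lit 0, nat_lit 0, nat_lit 0, [],
 C1.Rw.none, C1.Rw.none,
 zbF0, []⟩
noncomputable def p000_l225 : Lf2 := ⟨nat_lit 0, nat_lit 1, [nat_lit 19, nat_lit 5, nat_lit 5, nat_lit 20], false, nat_lit 0, nat_lit 0, nat_lit 0, nat_lit 0, ⟨nat_lit 1000, nat_lit 0, nat_lit 0, nat_lit 0, nat_lit 0, nat_lit 0, nat_lit 0, nat_lit 0, nat_lit 0, nat_lit 0, nat_lit 0, nat_lit 0, nat_lit 0, nat_lit 0, nat_lit 0, nat_lit 0, false, false⟩,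
 nat_lit 0, nat_lit 12765, nat_lit 0, nat_lit 26612, nat_lit 5160, nat_lit 5160, nat_lit 4552, nat_lit 0, nat_lit 0, nat_lit 4552, nat_lit 0, nat_lit 0, nat_lit 0, nat_lit 0, nat_lit 0, nat_lit 0, nat_lit 0, nat_lit 0, [],
 ⟨p000_k14, nat_lit 0, nat_lit 0, nat_lit 0, nat_lit 0, nat_lit 21643, [nat_lit 3282000000, nat_lit 5449500000, nat_lit 7968000001, nat_lit 9842000000], [], [nat_lit 20599423960, nat_lit 20820317081, nat_lit 17991705761, nat_lit 18239670321], nat_lit 1271250, nat_lit 1271250, nat_lit 0, nat_lit 490000, nat_lit 0, nat_lit 0, [nat_lit 780000, nat_lit 1271250, nat_lit 1271250, nat_lit 1271250], [nat_lit 52, nat_lit 40, nat_lit 20, nat_lit 80]⟩, ⟨p000_k14, nat_lit 0, nat_lit 0, nat_lit 0, nat_lit 0, nat_lit 0, [nat_lit 3282000000, nat_lit 5449500000, nat_lit 7968000000, nat_lit 9842000000], [], [nat_lit 20599423960, nat_lit 20820317080, nat_lit 17991705760, nat_lit 18239670320],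 nat_lit 0, nat_lit 0, nat_lit 0, nat_lit 0, nat_lit 0, nat_lit 0, [], [nat_lit 52, nat_lit 40, nat_lit 20, nat_lit 80]⟩,
 zbF0, []⟩
noncomputable def p000_l226 : Lf2 := ⟨nat_lit 0, nat_lit 1, [nat_lit 19, nat_lit 5, nat_lit 5, nat_lit 20], false, nat_lit 0, nat_lit 0, nat_lit 0, nat_lit 0, ⟨nat_lit 1000, nat_lit 0, nat_lit 0, nat_lit 0, nat_lit 0, nat_lit 0, nat_lit 0, nat_lit 0, nat_lit 0, nat_lit 0, nat_lit 0, nat_lit 0, nat_lit 0, nat_lit 0, nat_lit 0, nat_lit 0, false, false⟩,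
 nat_lit 0, nat_lit 0, nat_lit 0, nat_lit 21103, nat_lit 0, nat_lit 5154, nat_lit 1088, nat_lit 0, nat_lit 473, nat_lit 4518, nat_lit 0, nat_lit 0, nat_lit 0, nat_lit 577939268102, nat_lit 0, nat_lit 0, nat_lit 0, nat_lit 0, [],
 ⟨p000_k12, nat_lit 0, nat_lit 0, nat_lit 0, nat_lit 0, nat_lit 58784, [nat_lit 3282000000, nat_lit 5449500000, nat_lit 7968000001, nat_lit 9842000000], [], [nat_lit 7451401500, nat_lit 7611584001, nat_lit 7549317501, nat_lit 7709940801], nat_lit 1271250, nat_lit 1271250, nat_lit 0, nat_lit 43600, nat_lit 0, nat_lit 0, [nat_lit 780000, nat_lit 1271250, nat_lit 1271250, nat_lit 1271250], [nat_lit 52, nat_lit 40, nat_lit 20, nat_lit 80]⟩, ⟨p000_k14, nat_lit 0, nat_lit 0, nat_lit 0, nat_lit 0, nat_lit 0, [nat_lit 3282000000, nat_lit 5449500000, nat_lit 7968000000, nat_lit 9842000000], [], [nat_lit 20636986324, nat_lit 21077359912, nat_lit 20028989890, nat_lit 20535851615],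 nat_lit 0, nat_lit 0, nat_lit 0, nat_lit 0, nat_lit 0, nat_lit 0, [], [nat_lit 52, nat_lit 40, nat_lit 20, nat_lit 80]⟩,
 zbF0, []⟩
noncomputable def p000_l227 : Lf2 := ⟨nat_lit 0, nat_lit 1, [nat_lit 19, nat_lit 5, nat_lit 5, nat_lit 20], false, nat_lit 0, nat_lit 0, nat_lit 0, nat_lit 0, ⟨nat_lit 1000, nat_lit 0, nat_lit 0, nat_lit 0, nat_lit 0, nat_lit 0, nat_lit 0, nat_lit 0, nat_lit 0, nat_lit 0, nat_lit 0, nat_lit 0, nat_lit 0, nat_lit 0, nat_lit 0, nat_lit 0, false, false⟩,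
 nat_lit 0, nat_lit 12379, nat_lit 0, nat_lit 8219, nat_lit 5154, nat_lit 5154, nat_lit 3868, nat_lit 0, nat_lit 0, nat_lit 4518, nat_lit 0, nat_lit 0, nat_lit 0, nat_lit 0, nat_lit 0, nat_lit 0, nat_lit 0, nat_lit 0, [],
 ⟨p000_k12, nat_lit 0, nat_lit 0, nat_lit 0, nat_lit 0, nat_lit 58784, [nat_lit 3282000000, nat_lit 5449500000, nat_lit 7968000001, nat_lit 9842000000], [], [nat_lit 20857419295, nat_lit 21077359913, nat_lit 20282420753, nat_lit 20535851616], nat_lit 1271250, nat_lit 1271250, nat_lit 0, nat_lit 43600, nat_lit 0, nat_lit 0, [nat_lit 780000, nat_lit 1271250, nat_lit 1271250, nat_lit 1271250], [nat_lit 52, nat_lit 40, nat_lit 20, nat_lit 80]⟩, ⟨p000_k14, nat_lit 0, nat_lit 0, nat_lit 0, nat_lit 0, nat_lit 0, [nat_lit 3282000000, nat_lit 5449500000, nat_lit 7968000000, nat_lit 9842000000], [], [nat_lit 20636986324, nat_lit 21077359912, nat_lit 20028989890, nat_lit 20535851615],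 nat_lit 0, nat_lit 0, nat_lit 0, nat_lit 0, nat_lit 0, nat_lit 0, [], [nat_lit 52, nat_lit 40, nat_lit 20, nat_lit 80]⟩,
 zbF0, []⟩
noncomputable def p000_l228 : Lf2 := ⟨nat_lit 2, nat_lit 1, [nat_lit 19, nat_lit 5, nat_lit 5, nat_lit 20], true, nat_lit 0, nat_lit 0, nat_lit 0, nat_lit 0, zbN0,
 nat_lit 0, nat_lit 0, nat_lit 0, nat_lit 0, nat_lit 0, nat_lit 0, nat_lit 0, nat_lit 0, nat_lit 0, nat_lit 0, nat_lit 0, nat_lit 0, nat_lit 0, nat_lit 0, nat_lit 0, nat_lit 0, nat_lit 0, nat_lit 0, [],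
 ⟨p000_k40, nat_lit 0, nat_lit 0, nat_lit 0, nat_lit 0, nat_lit 58784, [], [], [], nat_lit 1271250, nat_lit 1271250, nat_lit 0, nat_lit 43600, nat_lit 0, nat_lit 0, [nat_lit 631250, nat_lit 1431250, nat_lit 1271250, nat_lit 1271250], [nat_lit 151, nat_lit 40, nat_lit 20, nat_lit 40]⟩, C1.Rw.none,
 zbF0, []⟩
noncomputable def p000_l229 : Lf2 := ⟨nat_lit 0, nat_lit 1, [nat_lit 19, nat_lit 5, nat_lit 5, nat_lit 20], false, nat_lit 0, nat_lit 0, nat_lit 0, nat_lit 0, ⟨nat_lit 1000, nat_lit 0, nat_lit 0, nat_lit 0, nat_lit 0, nat_lit 0, nat_lit 0, nat_lit 0, nat_lit 0, nat_lit 0, nat_lit 0, nat_lit 0, nat_lit 0, nat_lit 0, nat_lit 0, nat_lit 0, false, false⟩,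
 nat_lit 0, nat_lit 300000, nat_lit 0, nat_lit 0, nat_lit 124911, nat_lit 5154, nat_lit 24680, nat_lit 0, nat_lit 0, nat_lit 47167, nat_lit 0, nat_lit 0, nat_lit 0, nat_lit 0, nat_lit 0, nat_lit 0, nat_lit 33750594376, nat_lit 0, [],
 ⟨p000_k12, nat_lit 0, nat_lit 0, nat_lit 0, nat_lit 0, nat_lit 58784, [nat_lit 3282000000, nat_lit 5449500000, nat_lit 7968000001, nat_lit 9842000000], [], [nat_lit 15020231037, nat_lit 15750442882, nat_lit 0, nat_lit 770673287], nat_lit 1271250, nat_lit 1271250, nat_lit 0, nat_lit 43600, nat_lit 0, nat_lit 0, [nat_lit 780000, nat_lit 1271250, nat_lit 1271250, nat_lit 1271250], [nat_lit 52, nat_lit 40, nat_lit 20, nat_lit 80]⟩, ⟨p000_k14, nat_lit 0, nat_lit 0, nat_lit 0, nat_lit 0, nat_lit 0, [nat_lit 3282000000, nat_lit 5449500000, nat_lit 7968000000, nat_lit 9842000000], [], [nat_lit 20571775042, nat_lit 21077359912, nat_lit 20028989890, nat_lit 20535851615],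 nat_lit 0, nat_lit 0, nat_lit 0, nat_lit 0, nat_lit 0, nat_lit 0, [], [nat_lit 52, nat_lit 40, nat_lit 20, nat_lit 80]⟩,
 zbF0, []⟩
noncomputable def p000_l230 : Lf2 := ⟨nat_lit 0, nat_lit 1, [nat_lit 19, nat_lit 5, nat_lit 5, nat_lit 20], false, nat_lit 0, nat_lit 0, nat_lit 0, nat_lit 0, ⟨nat_lit 1000, nat_lit 0, nat_lit 0, nat_lit 0, nat_lit 0, nat_lit 0, nat_lit 0, nat_lit 0, nat_lit 0, nat_lit 0, nat_lit 0, nat_lit 0, nat_lit 0, nat_lit 0, nat_lit 0, nat_lit 0, false, false⟩,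
 nat_lit 0, nat_lit 12705, nat_lit 0, nat_lit 7110, nat_lit 5289, nat_lit 5290, nat_lit 3906, nat_lit 0, nat_lit 0, nat_lit 4562, nat_lit 0, nat_lit 0, nat_lit 0, nat_lit 0, nat_lit 0, nat_lit 0, nat_lit 0, nat_lit 0, [],
 ⟨p000_k12, nat_lit 0, nat_lit 0, nat_lit 0, nat_lit 0, nat_lit 58784, [nat_lit 3282000000, nat_lit 5449500000, nat_lit 7968000001, nat_lit 9842000000], [], [nat_lit 20201709579, nat_lit 20425785252, nat_lit 19331408325, nat_lit 19588264089], nat_lit 1271250, nat_lit 1271250, nat_lit 43600, nat_lit 111251, nat_lit 0, nat_lit 0, [nat_lit 780000, nat_lit 1271250, nat_lit 1271250, nat_lit 1271250], [nat_lit 52, nat_lit 40, nat_lit 20, nat_lit 80]⟩, ⟨p000_k14, nat_lit 0, nat_lit 0, nat_lit 0, nat_lit 0, nat_lit 0, [nat_lit 3282000000, nat_lit 5449500000, nat_lit 7968000000, nat_lit 9842000000], [], [nat_lit 19979273304, nat_lit 20425216722, nat_lit 19073513600, nat_lit 19587261680],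 nat_lit 0, nat_lit 0, nat_lit 0, nat_lit 0, nat_lit 0, nat_lit 0, [], [nat_lit 52, nat_lit 40, nat_lit 20, nat_lit 80]⟩,
 zbF0, []⟩
noncomputable def p000_l231 : Lf2 := ⟨nat_lit 0, nat_lit 1, [nat_lit 19, nat_lit 5, nat_lit 5, nat_lit 20], false, nat_lit 0, nat_lit 0, nat_lit 0, nat_lit 0, ⟨nat_lit 1000, nat_lit 0, nat_lit 0, nat_lit 0, nat_lit 0, nat_lit 0, nat_lit 0, nat_lit 0, nat_lit 0, nat_lit 0, nat_lit 0, nat_lit 0, nat_lit 0, nat_lit 0, nat_lit 0, nat_lit 0, false, false⟩,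
 nat_lit 0, nat_lit 13224, nat_lit 0, nat_lit 5454, nat_lit 5506, nat_lit 5506, nat_lit 3967, nat_lit 0, nat_lit 0, nat_lit 4633, nat_lit 0, nat_lit 0, nat_lit 0, nat_lit 0, nat_lit 0, nat_lit 0, nat_lit 0, nat_lit 0, [],
 ⟨p000_k12, nat_lit 0, nat_lit 0, nat_lit 0, nat_lit 0, nat_lit 58784, [nat_lit 3282000000, nat_lit 5449500000, nat_lit 7968000001, nat_lit 9842000000], [], [nat_lit 19142664013, nat_lit 19370741553, nat_lit 18311454701, nat_lit 18571675361], nat_lit 1271250, nat_lit 1271250, nat_lit 111251, nat_lit 230001, nat_lit 0, nat_lit 0, [nat_lit 780000, nat_lit 1271250, nat_lit 1271250, nat_lit 1271250], [nat_lit 52, nat_lit 40, nat_lit 20, nat_lit 80]⟩, ⟨p000_k14, nat_lit 0, nat_lit 0, nat_lit 0, nat_lit 0, nat_lit 0, [nat_lit 3282000000, nat_lit 5449500000, nat_lit 7968000000, nat_lit 9842000000], [], [nat_lit 18914830635, nat_lit 19370841141, nat_lit 18051234040, nat_lit 18571675360],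 nat_lit 0, nat_lit 0, nat_lit 0, nat_lit 0, nat_lit 0, nat_lit 0, [], [nat_lit 52, nat_lit 40, nat_lit 20, nat_lit 80]⟩,
 zbF0, []⟩
noncomputable def p000_l232 : Lf2 := ⟨nat_lit 0, nat_lit 1, [nat_lit 19, nat_lit 5, nat_lit 5, nat_lit 20], false, nat_lit 0, nat_lit 0, nat_lit 0, nat_lit 0, ⟨nat_lit 1000, nat_lit 0, nat_lit 0, nat_lit 0, nat_lit 0, nat_lit 0, nat_lit 0, nat_lit 0, nat_lit 0, nat_lit 0, nat_lit 0, nat_lit 0, nat_lit 0, nat_lit 0, nat_lit 0, nat_lit 0, false, false⟩,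
 nat_lit 0, nat_lit 45051, nat_lit 0, nat_lit 0, nat_lit 18757, nat_lit 171704, nat_lit 7725, nat_lit 0, nat_lit 0, nat_lit 60000, nat_lit 0, nat_lit 0, nat_lit 0, nat_lit 119550111399359, nat_lit 0, nat_lit 0, nat_lit 0, nat_lit 80294132632, [],
 ⟨p000_k12, nat_lit 0, nat_lit 0, nat_lit 0, nat_lit 0, nat_lit 58784, [nat_lit 3282000000, nat_lit 5449500000, nat_lit 7968000001, nat_lit 9842000000], [], [nat_lit 14935553680, nat_lit 15338725745, nat_lit 9586528700, nat_lit 10106681705], nat_lit 1271250, nat_lit 1271250, nat_lit 230001, nat_lit 490000, nat_lit 0, nat_lit 0, [nat_lit 780000, nat_lit 1271250, nat_lit 1271250, nat_lit 1271250], [nat_lit 52, nat_lit 40, nat_lit 20, nat_lit 80]⟩, ⟨p000_k14, nat_lit 0, nat_lit 0, nat_lit 0, nat_lit 0, nat_lit 0, [nat_lit 3282000000, nat_lit 5449500000, nat_lit 7968000000, nat_lit 9842000000], [], [nat_lit 56806070816, nat_lit 61585632600, nat_lit 0,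 nat_lit 6841585720], nat_lit 0, nat_lit 0, nat_lit 0, nat_lit 0, nat_lit 0, nat_lit 0, [], [nat_lit 52, nat_lit 40, nat_lit 20, nat_lit 80]⟩,
 zbF0, []⟩
noncomputable def p000_l233 : Lf2 := ⟨nat_lit 1, nat_lit 2, [nat_lit 10, nat_lit 5, nat_lit 5, nat_lit 20], false, nat_lit 0, nat_lit 0, nat_lit 0, nat_lit 0, zbN0,
 nat_lit 0, nat_lit 0, nat_lit 0, nat_lit 0, nat_lit 0, nat_lit 0, nat_lit 0, nat_lit 0, nat_lit 0, nat_lit 0, nat_lit 0, nat_lit 0, nat_lit 0, nat_lit 0, nat_lit 0, nat_lit 0, nat_lit 0, nat_lit 0, [],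
 C1.Rw.none, C1.Rw.none,
 zbF0, []⟩
noncomputable def p000_l234 : Lf2 := ⟨nat_lit 0, nat_lit 2, [nat_lit 10, nat_lit 5, nat_lit 5, nat_lit 20], false, nat_lit 0, nat_lit 0, nat_lit 0, nat_lit 0, ⟨nat_lit 1000, nat_lit 0, nat_lit 0, nat_lit 0, nat_lit 0, nat_lit 0, nat_lit 0, nat_lit 0, nat_lit 0, nat_lit 0, nat_lit 0, nat_lit 0, nat_lit 0, nat_lit 0, nat_lit 0, nat_lit 0, false, false⟩,
 nat_lit 0, nat_lit 12379, nat_lit 0, nat_lit 30514, nat_lit 5154, nat_lit 5154, nat_lit 3868, nat_lit 0, nat_lit 0, nat_lit 4518, nat_lit 0, nat_lit 0, nat_lit 0, nat_lit 0, nat_lit 0, nat_lit 0, nat_lit 0, nat_lit 0, [],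
 ⟨p000_k29, nat_lit 0, nat_lit 0, nat_lit 0, nat_lit 0, nat_lit 1601, [nat_lit 3282000000, nat_lit 5449500000, nat_lit 7968000001, nat_lit 9842000000], [], [nat_lit 20857419295, nat_lit 21077359913, nat_lit 18248615109, nat_lit 18496473073], nat_lit 1271250, nat_lit 1271250, nat_lit 0, nat_lit 490000, nat_lit 0, nat_lit 0, [nat_lit 780000, nat_lit 1271250, nat_lit 1271250, nat_lit 1271250], [nat_lit 52, nat_lit 40, nat_lit 20, nat_lit 80]⟩, ⟨p000_k30, nat_lit 0, nat_lit 0, nat_lit 0, nat_lit 0, nat_lit 0, [nat_lit 3282000000, nat_lit 5449500000, nat_lit 7968000000, nat_lit 9842000000], [], [nat_lit 20636986324, nat_lit 21077359912, nat_lit 18000757144, nat_lit 18496473072], nat_lit 0, nat_lit 0, nat_lit 0, nat_lit 0, nat_lit 0, nat_lit 0, [], [nat_lit 52, nat_lit 40, nat_lit 20, nat_lit 80]⟩,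
 zbF0, []⟩
noncomputable def p000_l235 : Lf2 := ⟨nat_lit 3, nat_lit 2, [nat_lit 10, nat_lit 5, nat_lit 5, nat_lit 20], false, nat_lit 0, nat_lit 0, nat_lit 0, nat_lit 0, zbN0,
 nat_lit 0, nat_lit 0, nat_lit 0, nat_lit 0, nat_lit 0, nat_lit 0, nat_lit 0, nat_lit 0, nat_lit 0, nat_lit 0, nat_lit 0, nat_lit 0, nat_lit 0, nat_lit 0, nat_lit 0, nat_lit 0, nat_lit 0, nat_lit 0, [],
 C1.Rw.none, ⟨p000_k30, nat_lit 0, nat_lit 0, nat_lit 0, nat_lit 0, nat_lit 0, [], [], [], nat_lit 0, nat_lit 0, nat_lit 0, nat_lit 0, nat_lit 0, nat_lit 0, [], [nat_lit 52, nat_lit 40, nat_lit 20, nat_lit 80]⟩,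
 zbF0, []⟩
noncomputable def p000_l236 : Lf2 := ⟨nat_lit 0, nat_lit 2, [nat_lit 10, nat_lit 5, nat_lit 5, nat_lit 20], false, nat_lit 0, nat_lit 0, nat_lit 0, nat_lit 0, ⟨nat_lit 1000, nat_lit 0, nat_lit 0, nat_lit 0, nat_lit 0, nat_lit 0, nat_lit 0, nat_lit 0, nat_lit 0, nat_lit 0, nat_lit 0, nat_lit 0, nat_lit 0, nat_lit 0, nat_lit 0, nat_lit 0, false, false⟩,
 nat_lit 0, nat_lit 300000, nat_lit 0, nat_lit 0, nat_lit 121276, nat_lit 4306, nat_lit 0, nat_lit 4427, nat_lit 0, nat_lit 4233, nat_lit 0, nat_lit 0, nat_lit 0, nat_lit 295549746975066, nat_lit 0, nat_lit 0, nat_lit 0, nat_lit 0, [],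
 ⟨p000_k32, nat_lit 0, nat_lit 0, nat_lit 0, nat_lit 0, nat_lit 61990, [nat_lit 94790000001, nat_lit 114216000000, nat_lit 133798000000], [], [nat_lit 280253703375, nat_lit 248674767011, nat_lit 271923313499, nat_lit 241266923667], nat_lit 1271250, nat_lit 1271250, nat_lit 0, nat_lit 490000, nat_lit 0, nat_lit 0, [nat_lit 1412500, nat_lit 1271250, nat_lit 1271250], [nat_lit 25, nat_lit 40, nat_lit 20, nat_lit 40]⟩, ⟨p000_k41, nat_lit 0, nat_lit 0, nat_lit 0, nat_lit 0, nat_lit 0, [nat_lit 2637500000, nat_lit 6250000000, nat_lit 7968000000, nat_lit 9842000000], [], [nat_lit 20309509811, nat_lit 20730052672, nat_lit 18292772740, nat_lit 18769404104], nat_lit 0, nat_lit 0, nat_lit 0, nat_lit 0, nat_lit 0, nat_lit 0, [], [nat_lit 130, nat_lit 40, nat_lit 20, nat_lit 40]⟩,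
 zbF0, []⟩
noncomputable def p000_l237 : Lf2 := ⟨nat_lit 3, nat_lit 2, [nat_lit 10, nat_lit 5, nat_lit 5, nat_lit 20], false, nat_lit 0, nat_lit 0, nat_lit 0, nat_lit 0, zbN0,
 nat_lit 0, nat_lit 0, nat_lit 0, nat_lit 0, nat_lit 0, nat_lit 0, nat_lit 0, nat_lit 0, nat_lit 0, nat_lit 0, nat_lit 0, nat_lit 0, nat_lit 0, nat_lit 0, nat_lit 0, nat_lit 0, nat_lit 0, nat_lit 0, [],
 C1.Rw.none, ⟨p000_k42, nat_lit 0, nat_lit 0, nat_lit 0, nat_lit 0, nat_lit 0, [], [], [], nat_lit 0, nat_lit 0, nat_lit 0, nat_lit 0, nat_lit 0, nat_lit 0, [], [nat_lit 218, nat_lit 40, nat_lit 20, nat_lit 40]⟩,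
 zbF0, []⟩
noncomputable def p000_l238 : Lf2 := ⟨nat_lit 2, nat_lit 2, [nat_lit 10, nat_lit 5, nat_lit 5, nat_lit 20], true, nat_lit 0, nat_lit 0, nat_lit 0, nat_lit 0, zbN0,
 nat_lit 0, nat_lit 0, nat_lit 0, nat_lit 0, nat_lit 0, nat_lit 0, nat_lit 0, nat_lit 0, nat_lit 0, nat_lit 0, nat_lit 0, nat_lit 0, nat_lit 0, nat_lit 0, nat_lit 0, nat_lit 0, nat_lit 0, nat_lit 0, [],
 ⟨p000_k6, nat_lit 0, nat_lit 0, nat_lit 350, nat_lit 0, nat_lit 132659, [], [], [], nat_lit 1271250, nat_lit 1271250, nat_lit 0, nat_lit 1100001, nat_lit 0, nat_lit 0, [nat_lit 1695000, nat_lit 1271250], [nat_lit 77, nat_lit 40, nat_lit 20, nat_lit 80, nat_lit 17, nat_lit 317, nat_lit 100, nat_lit 10]⟩, C1.Rw.none,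
 zbF0, []⟩
noncomputable def p000_l239 : Lf2 := ⟨nat_lit 0, nat_lit 2, [nat_lit 10, nat_lit 5, nat_lit 5, nat_lit 20], false, nat_lit 0, nat_lit 0, nat_lit 0, nat_lit 0, ⟨nat_lit 1000, nat_lit 0, nat_lit 0, nat_lit 0, nat_lit 0, nat_lit 0, nat_lit 0, nat_lit 0, nat_lit 0, nat_lit 0, nat_lit 0, nat_lit 0, nat_lit 0, nat_lit 0, nat_lit 0, nat_lit 0, false, false⟩,
 nat_lit 0, nat_lit 6628, nat_lit 0, nat_lit 277199, nat_lit 2679, nat_lit 214382, nat_lit 2737, nat_lit 0, nat_lit 0, nat_lit 60000, nat_lit 20000, nat_lit 0, nat_lit 0, nat_lit 386150090116319, nat_lit 0, nat_lit 0, nat_lit 0, nat_lit 0, [],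
 ⟨p000_k6, nat_lit 0, nat_lit 0, nat_lit 350, nat_lit 0, nat_lit 132659, [nat_lit 7968000001, nat_lit 9842000000], [], [nat_lit 43625845750, nat_lit 42896814035, nat_lit 43128450780, nat_lit 43356787755], nat_lit 1271250, nat_lit 1271250, nat_lit 0, nat_lit 1100001, nat_lit 0, nat_lit 0, [nat_lit 1695000, nat_lit 1271250], [nat_lit 77, nat_lit 40, nat_lit 20, nat_lit 80, nat_lit 17, nat_lit 317, nat_lit 100, nat_lit 10]⟩, ⟨p000_k43, nat_lit 0, nat_lit 0, nat_lit 0, nat_lit 0, nat_lit 0, [nat_lit 243282000000, nat_lit 487968000000, nat_lit 569842000000], [], [nat_lit 699542299756, nat_lit 710202917368, nat_lit 495637328848, nat_lit 504323875480], nat_lit 0, nat_lit 0, nat_lit 0, nat_lit 0, nat_lit 0, nat_lit 0, [], [nat_lit 99, nat_lit 40, nat_lit 20, nat_lit 80]⟩,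
 zbF0, []⟩
noncomputable def p000_l240 : Lf2 := ⟨nat_lit 3, nat_lit 2, [nat_lit 10, nat_lit 5, nat_lit 5, nat_lit 20], false, nat_lit 0, nat_lit 0, nat_lit 0, nat_lit 0, zbN0,
 nat_lit 0, nat_lit 0, nat_lit 0, nat_lit 0, nat_lit 0, nat_lit 0, nat_lit 0, nat_lit 0, nat_lit 0, nat_lit 0, nat_lit 0, nat_lit 0, nat_lit 0, nat_lit 0, nat_lit 0, nat_lit 0, nat_lit 0, nat_lit 0, [],
 C1.Rw.none, ⟨p000_k7, nat_lit 0, nat_lit 0, nat_lit 289, nat_lit 0, nat_lit 0, [], [], [], nat_lit 0, nat_lit 0, nat_lit 0, nat_lit 0, nat_lit 0, nat_lit 0, [], [nat_lit 77, nat_lit 40, nat_lit 20, nat_lit 80, nat_lit 17, nat_lit 317, nat_lit 100, nat_lit 10]⟩,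
 zbF0, []⟩
noncomputable def p000_l241 : Lf2 := ⟨nat_lit 0, nat_lit 2, [nat_lit 10, nat_lit 5, nat_lit 5, nat_lit 20], false, nat_lit 0, nat_lit 0, nat_lit 0, nat_lit 0, ⟨nat_lit 1000, nat_lit 0, nat_lit 0, nat_lit 0, nat_lit 0, nat_lit 0, nat_lit 0, nat_lit 0, nat_lit 0, nat_lit 0, nat_lit 0, nat_lit 0, nat_lit 0, nat_lit 0, nat_lit 0, nat_lit 0, false, false⟩,
 nat_lit 0, nat_lit 0, nat_lit 0, nat_lit 8635, nat_lit 0, nat_lit 17936, nat_lit 1599, nat_lit 0, nat_lit 0, nat_lit 0, nat_lit 0, nat_lit 0, nat_lit 0, nat_lit 7767279533699, nat_lit 0, nat_lit 0, nat_lit 0, nat_lit 0, [],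
 ⟨p000_k6, nat_lit 0, nat_lit 0, nat_lit 225, nat_lit 0, nat_lit 132659, [nat_lit 7968000001, nat_lit 9842000000], [], [nat_lit 37061016002, nat_lit 37250374876, nat_lit 39801012002, nat_lit 39801012002], nat_lit 1271250, nat_lit 1271250, nat_lit 1100001, nat_lit 1785000, nat_lit 0, nat_lit 0, [nat_lit 1695000, nat_lit 1271250], [nat_lit 77, nat_lit 40, nat_lit 20, nat_lit 80, nat_lit 17, nat_lit 345, nat_lit 125, nat_lit 10]⟩, ⟨p000_k7, nat_lit 0, nat_lit 0, nat_lit 61, nat_lit 0, nat_lit 0, [nat_lit 7968000000, nat_lit 9842000000], [], [nat_lit 8192017968, nat_lit 9941326752, nat_lit 16427810544, nat_lit 18350348416], nat_lit 0, nat_lit 0, nat_lit 0, nat_lit 0, nat_lit 0, nat_lit 0, [], [nat_lit 77, nat_lit 40, nat_lit 20, nat_lit 80, nat_lit 17, nat_lit 345, nat_lit 125, nat_lit 10]⟩,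
 zbF0, []⟩
noncomputable def p000_l242 : Lf2 := ⟨nat_lit 0, nat_lit 2, [nat_lit 10, nat_lit 5, nat_lit 5, nat_lit 20], false, nat_lit 0, nat_lit 0, nat_lit 0, nat_lit 0, ⟨nat_lit 1000, nat_lit 0, nat_lit 0, nat_lit 0, nat_lit 0, nat_lit 0, nat_lit 0, nat_lit 0, nat_lit 0, nat_lit 0, nat_lit 0, nat_lit 0, nat_lit 0, nat_lit 0, nat_lit 0, nat_lit 0, false, false⟩,
 nat_lit 0, nat_lit 22366, nat_lit 0, nat_lit 0, nat_lit 9041, nat_lit 8789, nat_lit 2123, nat_lit 0, nat_lit 0, nat_lit 3715, nat_lit 0, nat_lit 0, nat_lit 0, nat_lit 0, nat_lit 0, nat_lit 0, nat_lit 0, nat_lit 0, [],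
 ⟨p000_k6, nat_lit 0, nat_lit 0, nat_lit 298, nat_lit 0, nat_lit 132659, [nat_lit 7968000001, nat_lit 9842000000], [], [nat_lit 32245183836, nat_lit 32345924721, nat_lit 40103801517, nat_lit 40049902847], nat_lit 1271250, nat_lit 1271250, nat_lit 1271250, nat_lit 1271250, nat_lit 0, nat_lit 0, [nat_lit 1695000, nat_lit 1271250], [nat_lit 77, nat_lit 40, nat_lit 20, nat_lit 80, nat_lit 17, nat_lit 373, nat_lit 150, nat_lit 11]⟩, ⟨p000_k7, nat_lit 0, nat_lit 0, nat_lit 232, nat_lit 0, nat_lit 0, [nat_lit 7968000000, nat_lit 9842000000], [], [nat_lit 28078740328, nat_lit 28510738878, nat_lit 39449255090, nat_lit 39424528500], nat_lit 0, nat_lit 0, nat_lit 0, nat_lit 0, nat_lit 0, nat_lit 0, [], [nat_lit 77, nat_lit 40, nat_lit 20, nat_lit 80, nat_lit 17, nat_lit 373, nat_lit 150, nat_lit 11]⟩,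
 zbF0, []⟩
noncomputable def b_NL_450_450_0_7 : St := ⟨false, nat_lit 1, nat_lit 0, nat_lit 1, nat_lit 20, nat_lit 180, nat_lit 200, nat_lit 180, nat_lit 200, nat_lit 0, nat_lit 400, nat_lit 0, nat_lit 0, nat_lit 0, nat_lit 0, nat_lit 0, nat_lit 0, nat_lit 0, nat_lit 8, nat_lit 0, nat_lit 0, nat_lit 0, nat_lit 0⟩
theorem d_NL_450_450_0_7 (h : EB TB.env) : Dead b_NL_450_450_0_7 := chkB_sound0 h (T :=
(.spl (nat_lit 0) (nat_lit 190)
(.ord (.leaf p000_l203))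
(.spl (nat_lit 2) (nat_lit 240)
(.spl (nat_lit 2) (nat_lit 160)
(.spl (nat_lit 8) (nat_lit 800)
(.spl (nat_lit 8) (nat_lit 400)
(.spl (nat_lit 8) (nat_lit 200)
(.spl (nat_lit 8) (nat_lit 100)
(.spl (nat_lit 7) (nat_lit 600)
(.spl (nat_lit 2) (nat_lit 80)
(.leaf p000_l204)
(.leaf p000_l205))
(.spl (nat_lit 7) (nat_lit 900)
(.spl (nat_lit 2) (nat_lit 80)
(.leaf p000_l206)
(.leaf p000_l207))
(.leaf p000_l208)))
(.spl (nat_lit 7) (nat_lit 600)
(.spl (nat_lit 2) (nat_lit 80)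
(.spl (nat_lit 8) (nat_lit 160)
(.leaf p000_l209)
(.spl (nat_lit 0) (nat_lit 195)
(.ord (.leaf p000_l210))
(.spl (nat_lit 6) (nat_lit 4)
(.spl (nat_lit 0) (nat_lit 198)
(.ord (.leaf p000_l211))
(.leaf p000_l212))
(.leaf p000_l213))))
(.leaf p000_l214))
(.spl (nat_lit 7) (nat_lit 900)
(.spl (nat_lit 2) (nat_lit 80)
(.leaf p000_l215)
(.leaf p000_l216))
(.leaf p000_l217))))
(.spl (nat_lit 1) (nat_lit 190)
(.spl (nat_lit 6) (nat_lit 4)
(.spl (nat_lit 7) (nat_lit 600)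
(.spl (nat_lit 2) (nat_lit 80)
(.leaf p000_l218)
(.leaf p000_l219))
(.spl (nat_lit 7) (nat_lit 900)
(.spl (nat_lit 7) (nat_lit 760)
(.spl (nat_lit 2) (nat_lit 80)
(.leaf p000_l220)
(.leaf p000_l221))
(.leaf p000_l222))
(.leaf p000_l223)))
(.leaf p000_l224))
(.spl (nat_lit 7) (nat_lit 600)
(.spl (nat_lit 2) (nat_lit 80)
(.spl (nat_lit 6) (nat_lit 4)
(.spl (nat_lit 0) (nat_lit 195)
(.ord (.leaf p000_l225))
(.spl (nat_lit 2) (nat_lit 40)
(.spl (nat_lit 2) (nat_lit 20)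
(.spl (nat_lit 2) (nat_lit 8)
(.spl (nat_lit 7) (nat_lit 300)
(.leaf p000_l226)
(.spl (nat_lit 7) (nat_lit 460)
(.spl (nat_lit 7) (nat_lit 380)
(.leaf p000_l227)
(.leaf p000_l228))
(.leaf p000_l229)))
(.leaf p000_l230))
(.leaf p000_l231))
(.leaf p000_l232)))
(.spl (nat_lit 0) (nat_lit 195)
(.ord (.leaf p000_l233))
(.leaf p000_l234)))
(.leaf p000_l235))
(.spl (nat_lit 7) (nat_lit 900)
(.spl (nat_lit 2) (nat_lit 80)
(.leaf p000_l236)
(.leaf p000_l237))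
(.leaf p000_l238)))))
(.leaf p000_l239))
(.leaf p000_l240))
(.leaf p000_l241))
(.leaf p000_l242)))) (by decide +kernel)
noncomputable def p000_l243 : Lf2 := ⟨nat_lit 0, nat_lit 1, [nat_lit 19, nat_lit 5, nat_lit 5, nat_lit 20], false, nat_lit 0, nat_lit 0, nat_lit 0, nat_lit 0, ⟨nat_lit 1000, nat_lit 0, nat_lit 0, nat_lit 0, nat_lit 0, nat_lit 0, nat_lit 0, nat_lit 0, nat_lit 0, nat_lit 0, nat_lit 0, nat_lit 0, nat_lit 0, nat_lit 0, nat_lit 0, nat_lit 0, false, false⟩,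
 nat_lit 0, nat_lit 12750, nat_lit 0, nat_lit 18456, nat_lit 5154, nat_lit 0, nat_lit 4571, nat_lit 0, nat_lit 0, nat_lit 0, nat_lit 0, nat_lit 470, nat_lit 0, nat_lit 0, nat_lit 0, nat_lit 0, nat_lit 0, nat_lit 0, [],
 ⟨p000_k14, nat_lit 0, nat_lit 0, nat_lit 0, nat_lit 0, nat_lit 23338, [nat_lit 3282000000, nat_lit 5449500000, nat_lit 7968000001, nat_lit 9842000000], [], [nat_lit 20571775043, nat_lit 21077359913, nat_lit 18000757145, nat_lit 18496473073], nat_lit 1271250, nat_lit 1271250, nat_lit 0, nat_lit 490000, nat_lit 0, nat_lit 0, [nat_lit 780000, nat_lit 1271250, nat_lit 1271250, nat_lit 1271250], [nat_lit 52, nat_lit 40, nat_lit 20, nat_lit 80]⟩, ⟨p000_k13, nat_lit 0, nat_lit 0, nat_lit 0, nat_lit 0, nat_lit 24839, [nat_lit 3282000000, nat_lit 5449500000, nat_lit 7968000000, nat_lit 9842000000], [], [nat_lit 3927012000, nat_lit 4089407000, nat_lit 5887012000, nat_lit 5887012000],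 nat_lit 1271250, nat_lit 1271250, nat_lit 0, nat_lit 490000, nat_lit 0, nat_lit 0, [nat_lit 780000, nat_lit 1271250, nat_lit 1271250, nat_lit 1271250], [nat_lit 52, nat_lit 40, nat_lit 20, nat_lit 80]⟩,
 zbF0, []⟩
noncomputable def p000_l244 : Lf2 := ⟨nat_lit 0, nat_lit 1, [nat_lit 19, nat_lit 5, nat_lit 5, nat_lit 20], false, nat_lit 0, nat_lit 0, nat_lit 0, nat_lit 0, ⟨nat_lit 1000, nat_lit 0, nat_lit 0, nat_lit 0, nat_lit 0, nat_lit 0, nat_lit 0, nat_lit 0, nat_lit 0, nat_lit 0, nat_lit 0, nat_lit 0, nat_lit 0, nat_lit 0, nat_lit 0, nat_lit 0, false, false⟩,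
 nat_lit 26018, nat_lit 0, nat_lit 0, nat_lit 11845, nat_lit 3126, nat_lit 9894, nat_lit 0, nat_lit 0, nat_lit 0, nat_lit 0, nat_lit 0, nat_lit 0, nat_lit 0, nat_lit 0, nat_lit 0, nat_lit 0, nat_lit 0, nat_lit 0, [],
 ⟨p000_k14, nat_lit 0, nat_lit 0, nat_lit 0, nat_lit 0, nat_lit 23338, [nat_lit 3282000000, nat_lit 5449500000, nat_lit 7968000001, nat_lit 9842000000], [], [nat_lit 36465283358, nat_lit 35640019353, nat_lit 36612353657, nat_lit 36879050193], nat_lit 1271250, nat_lit 1271250, nat_lit 490000, nat_lit 1100001, nat_lit 0, nat_lit 0, [nat_lit 780000, nat_lit 1271250, nat_lit 1271250, nat_lit 1271250], [nat_lit 52, nat_lit 40, nat_lit 20, nat_lit 80]⟩, ⟨p000_k13, nat_lit 0, nat_lit 0, nat_lit 0, nat_lit 0, nat_lit 24839, [nat_lit 3282000000, nat_lit 5449500000, nat_lit 7968000000, nat_lit 9842000000], [], [nat_lit 6330801928, nat_lit 5798217420, nat_lit 9097743264, nat_lit 6354497212],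 nat_lit 1271250, nat_lit 1271250, nat_lit 490000, nat_lit 1100001, nat_lit 0, nat_lit 0, [nat_lit 780000, nat_lit 1271250, nat_lit 1271250, nat_lit 1271250], [nat_lit 52, nat_lit 40, nat_lit 20, nat_lit 80]⟩,
 zbF0, []⟩
noncomputable def p000_l245 : Lf2 := ⟨nat_lit 0, nat_lit 1, [nat_lit 19, nat_lit 5, nat_lit 5, nat_lit 20], false, nat_lit 0, nat_lit 0, nat_lit 0, nat_lit 0, ⟨nat_lit 1000, nat_lit 0, nat_lit 0, nat_lit 0, nat_lit 0, nat_lit 0, nat_lit 0, nat_lit 0, nat_lit 0, nat_lit 0, nat_lit 0, nat_lit 0, nat_lit 0, nat_lit 0, nat_lit 0, nat_lit 0, false, false⟩,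
 nat_lit 78243, nat_lit 300000, nat_lit 0, nat_lit 253045, nat_lit 152906, nat_lit 24076, nat_lit 60000, nat_lit 20000, nat_lit 0, nat_lit 60000, nat_lit 0, nat_lit 0, nat_lit 0, nat_lit 0, nat_lit 0, nat_lit 0, nat_lit 0, nat_lit 0, [],
 ⟨p000_k44, nat_lit 0, nat_lit 0, nat_lit 0, nat_lit 0, nat_lit 23338, [nat_lit 406250000000, nat_lit 487968000000, nat_lit 528885500000], [], [nat_lit 1208313934482, nat_lit 1168498894048, nat_lit 1269131053678, nat_lit 1231575658112], nat_lit 1271250, nat_lit 1271250, nat_lit 0, nat_lit 1100001, nat_lit 0, nat_lit 0, [nat_lit 1412500, nat_lit 1271250, nat_lit 1271250], [nat_lit 156, nat_lit 40, nat_lit 20, nat_lit 40]⟩, ⟨p000_k45, nat_lit 0, nat_lit 0, nat_lit 0, nat_lit 0, nat_lit 24839, [nat_lit 5449500000, nat_lit 7089500000, nat_lit 7968000000, nat_lit 8885500000], [], [nat_lit 35752760160, nat_lit 37116141520, nat_lit 11358380456, nat_lit 4411804404],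 nat_lit 1271250, nat_lit 1271250, nat_lit 0, nat_lit 1100001, nat_lit 0, nat_lit 0, [nat_lit 1271250, nat_lit 1271250, nat_lit 1271250, nat_lit 1271250], [nat_lit 278, nat_lit 40, nat_lit 20, nat_lit 40]⟩,
 zbF0, []⟩
noncomputable def p000_l246 : Lf2 := ⟨nat_lit 2, nat_lit 1, [nat_lit 19, nat_lit 5, nat_lit 5, nat_lit 20], true, nat_lit 0, nat_lit 0, nat_lit 0, nat_lit 0, zbN0,
 nat_lit 0, nat_lit 0, nat_lit 0, nat_lit 0, nat_lit 0, nat_lit 0, nat_lit 0, nat_lit 0, nat_lit 0, nat_lit 0, nat_lit 0, nat_lit 0, nat_lit 0, nat_lit 0, nat_lit 0, nat_lit 0, nat_lit 0, nat_lit 0, [],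
 ⟨p000_k3, nat_lit 0, nat_lit 0, nat_lit 312, nat_lit 0, nat_lit 51408, [], [], [], nat_lit 1271250, nat_lit 1271250, nat_lit 0, nat_lit 1100001, nat_lit 0, nat_lit 0, [nat_lit 1695000, nat_lit 1271250], [nat_lit 77, nat_lit 40, nat_lit 20, nat_lit 80, nat_lit 17, nat_lit 317, nat_lit 100, nat_lit 10]⟩, C1.Rw.none,
 zbF0, []⟩
noncomputable def p000_l247 : Lf2 := ⟨nat_lit 0, nat_lit 1, [nat_lit 19, nat_lit 5, nat_lit 5, nat_lit 20], false, nat_lit 0, nat_lit 0, nat_lit 0, nat_lit 0, ⟨nat_lit 1000, nat_lit 0, nat_lit 0, nat_lit 0, nat_lit 0, nat_lit 0, nat_lit 0, nat_lit 0, nat_lit 0, nat_lit 0, nat_lit 0, nat_lit 0, nat_lit 0, nat_lit 0, nat_lit 0, nat_lit 0, false, false⟩,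
 nat_lit 0, nat_lit 12750, nat_lit 0, nat_lit 14913, nat_lit 5154, nat_lit 0, nat_lit 4571, nat_lit 0, nat_lit 0, nat_lit 0, nat_lit 0, nat_lit 606, nat_lit 0, nat_lit 0, nat_lit 0, nat_lit 0, nat_lit 0, nat_lit 0, [],
 ⟨p000_k14, nat_lit 0, nat_lit 0, nat_lit 0, nat_lit 0, nat_lit 23338, [nat_lit 3282000000, nat_lit 5449500000, nat_lit 7968000001, nat_lit 9842000000], [], [nat_lit 20571775043, nat_lit 21077359913, nat_lit 18000757145, nat_lit 18496473073], nat_lit 1271250, nat_lit 1271250, nat_lit 0, nat_lit 490000, nat_lit 0, nat_lit 0, [nat_lit 780000, nat_lit 1271250, nat_lit 1271250, nat_lit 1271250], [nat_lit 52, nat_lit 40, nat_lit 20, nat_lit 80]⟩, ⟨p000_k13, nat_lit 0, nat_lit 0, nat_lit 0, nat_lit 0, nat_lit 24839, [nat_lit 3282000000, nat_lit 5449500000, nat_lit 7968000000, nat_lit 9842000000], [], [nat_lit 3747114000, nat_lit 4089407000, nat_lit 5152450000, nat_lit 5481303000],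 nat_lit 1271250, nat_lit 1271250, nat_lit 0, nat_lit 490000, nat_lit 0, nat_lit 0, [nat_lit 780000, nat_lit 1271250, nat_lit 1271250, nat_lit 1271250], [nat_lit 52, nat_lit 40, nat_lit 20, nat_lit 80]⟩,
 zbF0, []⟩
noncomputable def p000_l248 : Lf2 := ⟨nat_lit 0, nat_lit 1, [nat_lit 19, nat_lit 5, nat_lit 5, nat_lit 20], false, nat_lit 0, nat_lit 0, nat_lit 0, nat_lit 0, ⟨nat_lit 1000, nat_lit 0, nat_lit 0, nat_lit 0, nat_lit 0, nat_lit 0, nat_lit 0, nat_lit 0, nat_lit 0, nat_lit 0, nat_lit 0, nat_lit 0, nat_lit 0, nat_lit 0, nat_lit 0, nat_lit 0, false, false⟩,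
 nat_lit 300000, nat_lit 300000, nat_lit 300000, nat_lit 300000, nat_lit 3126, nat_lit 228169, nat_lit 60000, nat_lit 0, nat_lit 0, nat_lit 60000, nat_lit 15196, nat_lit 0, nat_lit 0, nat_lit 0, nat_lit 0, nat_lit 0, nat_lit 0, nat_lit 0, [],
 ⟨p000_k14, nat_lit 0, nat_lit 0, nat_lit 0, nat_lit 0, nat_lit 23338, [nat_lit 3282000000, nat_lit 5449500000, nat_lit 7968000001, nat_lit 9842000000], [], [nat_lit 36465283358, nat_lit 35640019353, nat_lit 36612353657, nat_lit 36879050193], nat_lit 1271250, nat_lit 1271250, nat_lit 490000, nat_lit 1100001, nat_lit 0, nat_lit 0, [nat_lit 780000, nat_lit 1271250, nat_lit 1271250, nat_lit 1271250], [nat_lit 52, nat_lit 40, nat_lit 20, nat_lit 80]⟩, ⟨p000_k13, nat_lit 0, nat_lit 0, nat_lit 0, nat_lit 0, nat_lit 24839, [nat_lit 185634000000, nat_lit 278977500000, nat_lit 372672000000, nat_lit 435330000000], [], [nat_lit 74047391228, nat_lit 15277900670,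 nat_lit 84027011664, nat_lit 16530970760], nat_lit 1271250, nat_lit 1271250, nat_lit 490000, nat_lit 1100001, nat_lit 0, nat_lit 0, [nat_lit 780000, nat_lit 1271250, nat_lit 1271250, nat_lit 1271250], [nat_lit 52, nat_lit 40, nat_lit 20, nat_lit 80]⟩,
 zbF0, []⟩
noncomputable def p000_l249 : Lf2 := ⟨nat_lit 0, nat_lit 1, [nat_lit 19, nat_lit 5, nat_lit 5, nat_lit 20], false, nat_lit 0, nat_lit 0, nat_lit 0, nat_lit 0, ⟨nat_lit 1000, nat_lit 0, nat_lit 0, nat_lit 0, nat_lit 0, nat_lit 0, nat_lit 0, nat_lit 0, nat_lit 0, nat_lit 0, nat_lit 0, nat_lit 0, nat_lit 0, nat_lit 0, nat_lit 0, nat_lit 0, false, false⟩,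
 nat_lit 300000, nat_lit 300000, nat_lit 85130, nat_lit 300000, nat_lit 241125, nat_lit 45650, nat_lit 0, nat_lit 20000, nat_lit 0, nat_lit 60000, nat_lit 0, nat_lit 0, nat_lit 0, nat_lit 0, nat_lit 0, nat_lit 0, nat_lit 0, nat_lit 0, [],
 ⟨p000_k44, nat_lit 0, nat_lit 0, nat_lit 0, nat_lit 0, nat_lit 23338, [nat_lit 406250000000, nat_lit 487968000000, nat_lit 528885500000], [], [nat_lit 1190687513625, nat_lit 1127901216000, nat_lit 1284054444375, nat_lit 1224831492000], nat_lit 1271250, nat_lit 1271250, nat_lit 0, nat_lit 1100001, nat_lit 0, nat_lit 0, [nat_lit 1412500, nat_lit 1271250, nat_lit 1271250], [nat_lit 156, nat_lit 40, nat_lit 20, nat_lit 40]⟩, ⟨p000_k46, nat_lit 0, nat_lit 0, nat_lit 0, nat_lit 0, nat_lit 24839, [nat_lit 2637500000, nat_lit 7089500000, nat_lit 8885500000], [], [nat_lit 64460419000, nat_lit 66710707500, nat_lit 14413048000, nat_lit 1455934600], nat_lit 1271250,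 nat_lit 1271250, nat_lit 0, nat_lit 1100001, nat_lit 0, nat_lit 0, [nat_lit 631250, nat_lit 1591250, nat_lit 1271250], [nat_lit 227, nat_lit 40, nat_lit 20, nat_lit 40]⟩,
 zbF0, []⟩
noncomputable def p000_l250 : Lf2 := ⟨nat_lit 2, nat_lit 1, [nat_lit 19, nat_lit 5, nat_lit 5, nat_lit 20], true, nat_lit 0, nat_lit 0, nat_lit 0, nat_lit 0, zbN0,
 nat_lit 0, nat_lit 0, nat_lit 0, nat_lit 0, nat_lit 0, nat_lit 0, nat_lit 0, nat_lit 0, nat_lit 0, nat_lit 0, nat_lit 0, nat_lit 0, nat_lit 0, nat_lit 0, nat_lit 0, nat_lit 0, nat_lit 0, nat_lit 0, [],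
 ⟨p000_k3, nat_lit 0, nat_lit 0, nat_lit 312, nat_lit 0, nat_lit 51408, [], [], [], nat_lit 1271250, nat_lit 1271250, nat_lit 0, nat_lit 1100001, nat_lit 0, nat_lit 0, [nat_lit 1695000, nat_lit 1271250], [nat_lit 77, nat_lit 40, nat_lit 20, nat_lit 80, nat_lit 17, nat_lit 317, nat_lit 100, nat_lit 10]⟩, C1.Rw.none,
 zbF0, []⟩
noncomputable def p000_l251 : Lf2 := ⟨nat_lit 0, nat_lit 1, [nat_lit 19, nat_lit 5, nat_lit 5, nat_lit 20], false, nat_lit 0, nat_lit 0, nat_lit 0, nat_lit 0, ⟨nat_lit 1000, nat_lit 0, nat_lit 0, nat_lit 0, nat_lit 0, nat_lit 0, nat_lit 0, nat_lit 0, nat_lit 0, nat_lit 0, nat_lit 0, nat_lit 0, nat_lit 0, nat_lit 0, nat_lit 0, nat_lit 0, false, false⟩,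
 nat_lit 13585, nat_lit 0, nat_lit 0, nat_lit 35406, nat_lit 5154, nat_lit 5166, nat_lit 4518, nat_lit 0, nat_lit 0, nat_lit 6878, nat_lit 0, nat_lit 0, nat_lit 0, nat_lit 0, nat_lit 0, nat_lit 0, nat_lit 0, nat_lit 0, [],
 ⟨p000_k14, nat_lit 0, nat_lit 0, nat_lit 0, nat_lit 0, nat_lit 23338, [nat_lit 3282000000, nat_lit 5449500000, nat_lit 7968000001, nat_lit 9842000000], [], [nat_lit 20636986324, nat_lit 21077359913, nat_lit 18000757145, nat_lit 18496473073], nat_lit 1271250, nat_lit 1271250, nat_lit 0, nat_lit 490000, nat_lit 0, nat_lit 0, [nat_lit 780000, nat_lit 1271250, nat_lit 1271250, nat_lit 1271250], [nat_lit 52, nat_lit 40, nat_lit 20, nat_lit 80]⟩, ⟨p000_k13, nat_lit 0, nat_lit 0, nat_lit 0, nat_lit 0, nat_lit 24839, [nat_lit 3282000000, nat_lit 5449500000, nat_lit 7968000000, nat_lit 9842000000], [], [nat_lit 20122758928, nat_lit 20563060318, nat_lit 18214267816, nat_lit 17982654376],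 nat_lit 1271250, nat_lit 1271250, nat_lit 0, nat_lit 490000, nat_lit 0, nat_lit 0, [nat_lit 780000, nat_lit 1271250, nat_lit 1271250, nat_lit 1271250], [nat_lit 52, nat_lit 40, nat_lit 20, nat_lit 80]⟩,
 zbF0, []⟩
noncomputable def p000_l252 : Lf2 := ⟨nat_lit 3, nat_lit 1, [nat_lit 19, nat_lit 5, nat_lit 5, nat_lit 20], false, nat_lit 0, nat_lit 0, nat_lit 0, nat_lit 0, zbN0,
 nat_lit 0, nat_lit 0, nat_lit 0, nat_lit 0, nat_lit 0, nat_lit 0, nat_lit 0, nat_lit 0, nat_lit 0, nat_lit 0, nat_lit 0, nat_lit 0, nat_lit 0, nat_lit 0, nat_lit 0, nat_lit 0, nat_lit 0, nat_lit 0, [],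
 C1.Rw.none, ⟨p000_k13, nat_lit 0, nat_lit 0, nat_lit 0, nat_lit 0, nat_lit 24839, [], [], [], nat_lit 1271250, nat_lit 1271250, nat_lit 490000, nat_lit 1100001, nat_lit 0, nat_lit 0, [nat_lit 780000, nat_lit 1271250, nat_lit 1271250, nat_lit 1271250], [nat_lit 52, nat_lit 40, nat_lit 20, nat_lit 80]⟩,
 zbF0, []⟩
noncomputable def p000_l253 : Lf2 := ⟨nat_lit 0, nat_lit 1, [nat_lit 19, nat_lit 5, nat_lit 5, nat_lit 20], false, nat_lit 0, nat_lit 0, nat_lit 0, nat_lit 0, ⟨nat_lit 1000, nat_lit 0, nat_lit 0, nat_lit 0, nat_lit 0, nat_lit 0, nat_lit 0, nat_lit 0, nat_lit 0, nat_lit 0, nat_lit 0, nat_lit 0, nat_lit 0, nat_lit 0, nat_lit 0, nat_lit 0, false, false⟩,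
 nat_lit 300000, nat_lit 300000, nat_lit 136591, nat_lit 300000, nat_lit 242553, nat_lit 13730, nat_lit 60000, nat_lit 0, nat_lit 0, nat_lit 60000, nat_lit 0, nat_lit 0, nat_lit 0, nat_lit 0, nat_lit 0, nat_lit 0, nat_lit 35464828697, nat_lit 0, [],
 ⟨p000_k47, nat_lit 0, nat_lit 0, nat_lit 0, nat_lit 0, nat_lit 23338, [nat_lit 7089500001, nat_lit 7968000001, nat_lit 8885500000], [], [nat_lit 67870523594, nat_lit 6106342568, nat_lit 59998880292, nat_lit 0], nat_lit 1271250, nat_lit 1271250, nat_lit 0, nat_lit 490000, nat_lit 0, nat_lit 0, [nat_lit 1553750, nat_lit 1271250, nat_lit 1271250], [nat_lit 171, nat_lit 40, nat_lit 20, nat_lit 40]⟩, ⟨p000_k48, nat_lit 0, nat_lit 0, nat_lit 0, nat_lit 0, nat_lit 24839, [nat_lit 7089500000, nat_lit 7968000000, nat_lit 8885500000], [], [nat_lit 27544314920, nat_lit 23771642870, nat_lit 26458643940, nat_lit 22772564570], nat_lit 1271250, nat_lit 1271250,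 nat_lit 0, nat_lit 490000, nat_lit 0, nat_lit 0, [nat_lit 1553750, nat_lit 1271250, nat_lit 1271250], [nat_lit 171, nat_lit 40, nat_lit 20, nat_lit 40]⟩,
 zbF0, []⟩
noncomputable def p000_l254 : Lf2 := ⟨nat_lit 0, nat_lit 1, [nat_lit 19, nat_lit 5, nat_lit 5, nat_lit 20], false, nat_lit 0, nat_lit 0, nat_lit 0, nat_lit 0, ⟨nat_lit 1000, nat_lit 0, nat_lit 0, nat_lit 0, nat_lit 0, nat_lit 0, nat_lit 0, nat_lit 0, nat_lit 0, nat_lit 0, nat_lit 0, nat_lit 0, nat_lit 0, nat_lit 0, nat_lit 0, nat_lit 0, false, false⟩,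
 nat_lit 300000, nat_lit 55544, nat_lit 296716, nat_lit 0, nat_lit 143730, nat_lit 226920, nat_lit 60000, nat_lit 20000, nat_lit 0, nat_lit 0, nat_lit 2318, nat_lit 0, nat_lit 0, nat_lit 0, nat_lit 0, nat_lit 0, nat_lit 0, nat_lit 0, [],
 ⟨p000_k47, nat_lit 0, nat_lit 0, nat_lit 0, nat_lit 0, nat_lit 23338, [nat_lit 447089500000, nat_lit 487968000000, nat_lit 528885500000], [], [nat_lit 1171787584570, nat_lit 1133200535200, nat_lit 1069278914600, nat_lit 1069884214960], nat_lit 1271250, nat_lit 1271250, nat_lit 490000, nat_lit 1100001, nat_lit 0, nat_lit 0, [nat_lit 1553750, nat_lit 1271250, nat_lit 1271250], [nat_lit 171, nat_lit 40, nat_lit 20, nat_lit 40]⟩, ⟨p000_k48, nat_lit 0, nat_lit 0, nat_lit 0, nat_lit 0, nat_lit 24839, [nat_lit 58085500000, nat_lit 63600000000, nat_lit 69153500000], [], [nat_lit 46538355760, nat_lit 15223656600, nat_lit 122684698800, nat_lit 63597226920], nat_lit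 1271250, nat_lit 1271250, nat_lit 490000, nat_lit 1100001, nat_lit 0, nat_lit 0, [nat_lit 1553750, nat_lit 1271250, nat_lit 1271250], [nat_lit 171, nat_lit 40, nat_lit 20, nat_lit 40]⟩,
 zbF0, []⟩
noncomputable def p000_l255 : Lf2 := ⟨nat_lit 2, nat_lit 1, [nat_lit 19, nat_lit 5, nat_lit 5, nat_lit 20], true, nat_lit 0, nat_lit 0, nat_lit 0, nat_lit 0, zbN0,
 nat_lit 0, nat_lit 0, nat_lit 0, nat_lit 0, nat_lit 0, nat_lit 0, nat_lit 0, nat_lit 0, nat_lit 0, nat_lit 0, nat_lit 0, nat_lit 0, nat_lit 0, nat_lit 0, nat_lit 0, nat_lit 0, nat_lit 0, nat_lit 0, [],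
 ⟨p000_k3, nat_lit 0, nat_lit 0, nat_lit 312, nat_lit 0, nat_lit 51408, [], [], [], nat_lit 1271250, nat_lit 1271250, nat_lit 0, nat_lit 1100001, nat_lit 0, nat_lit 0, [nat_lit 1695000, nat_lit 1271250], [nat_lit 77, nat_lit 40, nat_lit 20, nat_lit 80, nat_lit 17, nat_lit 317, nat_lit 100, nat_lit 10]⟩, C1.Rw.none,
 zbF0, []⟩
noncomputable def p000_l256 : Lf2 := ⟨nat_lit 1, nat_lit 2, [nat_lit 10, nat_lit 5, nat_lit 5, nat_lit 20], false, nat_lit 0, nat_lit 0, nat_lit 0, nat_lit 0, zbN0,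
 nat_lit 0, nat_lit 0, nat_lit 0, nat_lit 0, nat_lit 0, nat_lit 0, nat_lit 0, nat_lit 0, nat_lit 0, nat_lit 0, nat_lit 0, nat_lit 0, nat_lit 0, nat_lit 0, nat_lit 0, nat_lit 0, nat_lit 0, nat_lit 0, [],
 C1.Rw.none, C1.Rw.none,
 zbF0, []⟩
noncomputable def p000_l257 : Lf2 := ⟨nat_lit 0, nat_lit 2, [nat_lit 10, nat_lit 5, nat_lit 5, nat_lit 20], false, nat_lit 0, nat_lit 0, nat_lit 0, nat_lit 0, ⟨nat_lit 1000, nat_lit 0, nat_lit 0, nat_lit 0, nat_lit 0, nat_lit 0, nat_lit 0, nat_lit 0, nat_lit 0, nat_lit 0, nat_lit 0, nat_lit 0, nat_lit 0, nat_lit 0, nat_lit 0, nat_lit 0, false, false⟩,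
 nat_lit 38679, nat_lit 0, nat_lit 0, nat_lit 0, nat_lit 15636, nat_lit 0, nat_lit 7090, nat_lit 0, nat_lit 0, nat_lit 0, nat_lit 0, nat_lit 469, nat_lit 0, nat_lit 0, nat_lit 0, nat_lit 0, nat_lit 0, nat_lit 0, [],
 ⟨p000_k30, nat_lit 0, nat_lit 0, nat_lit 0, nat_lit 0, nat_lit 61990, [nat_lit 3282000000, nat_lit 5449500000, nat_lit 7968000001, nat_lit 9842000000], [], [nat_lit 25985468126, nat_lit 26555199906, nat_lit 15105247902, nat_lit 15667750658], nat_lit 1271250, nat_lit 1271250, nat_lit 0, nat_lit 490000, nat_lit 0, nat_lit 0, [nat_lit 780000, nat_lit 1271250, nat_lit 1271250, nat_lit 1271250], [nat_lit 52, nat_lit 40, nat_lit 20, nat_lit 80]⟩, ⟨p000_k30, nat_lit 0, nat_lit 0, nat_lit 0, nat_lit 0, nat_lit 61990, [nat_lit 3282000000, nat_lit 5449500000, nat_lit 7968000000, nat_lit 9842000000], [], [nat_lit 4097684000, nat_lit 4468852000, nat_lit 5899012000, nat_lit 5944040000], nat_lit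 1271250, nat_lit 1271250, nat_lit 0, nat_lit 490000, nat_lit 0, nat_lit 0, [nat_lit 780000, nat_lit 1271250, nat_lit 1271250, nat_lit 1271250], [nat_lit 52, nat_lit 40, nat_lit 20, nat_lit 80]⟩,
 zbF0, []⟩
noncomputable def p000_l258 : Lf2 := ⟨nat_lit 0, nat_lit 2, [nat_lit 10, nat_lit 5, nat_lit 5, nat_lit 20], false, nat_lit 0, nat_lit 0, nat_lit 0, nat_lit 0, ⟨nat_lit 1000, nat_lit 0, nat_lit 0, nat_lit 0, nat_lit 0, nat_lit 0, nat_lit 0, nat_lit 0, nat_lit 0, nat_lit 0, nat_lit 0, nat_lit 0, nat_lit 0, nat_lit 0, nat_lit 0, nat_lit 0, false, false⟩,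
 nat_lit 17418, nat_lit 0, nat_lit 0, nat_lit 5117, nat_lit 3126, nat_lit 7041, nat_lit 0, nat_lit 0, nat_lit 0, nat_lit 0, nat_lit 0, nat_lit 0, nat_lit 0, nat_lit 16009645065623, nat_lit 0, nat_lit 0, nat_lit 0, nat_lit 0, [],
 ⟨p000_k30, nat_lit 0, nat_lit 0, nat_lit 0, nat_lit 0, nat_lit 61990, [nat_lit 3282000000, nat_lit 5449500000, nat_lit 7968000001, nat_lit 9842000000], [], [nat_lit 36465283358, nat_lit 35640019353, nat_lit 36612353657, nat_lit 36879050193], nat_lit 1271250, nat_lit 1271250, nat_lit 490000, nat_lit 1100001, nat_lit 0, nat_lit 0, [nat_lit 780000, nat_lit 1271250, nat_lit 1271250, nat_lit 1271250], [nat_lit 52, nat_lit 40, nat_lit 20, nat_lit 80]⟩, ⟨p000_k30, nat_lit 0, nat_lit 0, nat_lit 0, nat_lit 0, nat_lit 61990, [nat_lit 3282000000, nat_lit 5449500000, nat_lit 7968000000, nat_lit 9842000000], [], [nat_lit 5674729948, nat_lit 6422695024, nat_lit 8418989640, nat_lit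 7473717752], nat_lit 1271250, nat_lit 1271250, nat_lit 490000, nat_lit 1100001, nat_lit 0, nat_lit 0, [nat_lit 780000, nat_lit 1271250, nat_lit 1271250, nat_lit 1271250], [nat_lit 52, nat_lit 40, nat_lit 20, nat_lit 80]⟩,
 zbF0, []⟩
noncomputable def p000_l259 : Lf2 := ⟨nat_lit 0, nat_lit 2, [nat_lit 10, nat_lit 5, nat_lit 5, nat_lit 20], false, nat_lit 0, nat_lit 0, nat_lit 0, nat_lit 0, ⟨nat_lit 1000, nat_lit 0, nat_lit 0, nat_lit 0, nat_lit 0, nat_lit 0, nat_lit 0, nat_lit 0, nat_lit 0, nat_lit 0, nat_lit 0, nat_lit 0, nat_lit 0, nat_lit 0, nat_lit 0, nat_lit 0, false, false⟩,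
 nat_lit 126893, nat_lit 0, nat_lit 0, nat_lit 0, nat_lit 51297, nat_lit 0, nat_lit 0, nat_lit 2456, nat_lit 0, nat_lit 0, nat_lit 0, nat_lit 573, nat_lit 0, nat_lit 128649548612291, nat_lit 0, nat_lit 0, nat_lit 0, nat_lit 0, [],
 ⟨p000_k32, nat_lit 0, nat_lit 0, nat_lit 0, nat_lit 0, nat_lit 61990, [nat_lit 55370000001, nat_lit 66912000000, nat_lit 78610000000], [], [nat_lit 175975717512, nat_lit 163186134509, nat_lit 199302570414, nat_lit 186703462947], nat_lit 1271250, nat_lit 1271250, nat_lit 0, nat_lit 1100001, nat_lit 0, nat_lit 0, [nat_lit 1412500, nat_lit 1271250, nat_lit 1271250], [nat_lit 25, nat_lit 40, nat_lit 20, nat_lit 40]⟩, ⟨p000_k41, nat_lit 0, nat_lit 0, nat_lit 0, nat_lit 0, nat_lit 61990, [nat_lit 2637500000, nat_lit 6250000000, nat_lit 7968000000, nat_lit 9842000000], [], [nat_lit 4089407000, nat_lit 4463024000, nat_lit 8080016000, nat_lit 8080016000], nat_lit 1271250,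 nat_lit 1271250, nat_lit 0, nat_lit 1100001, nat_lit 0, nat_lit 0, [nat_lit 631250, nat_lit 1431250, nat_lit 1271250, nat_lit 1271250], [nat_lit 130, nat_lit 40, nat_lit 20, nat_lit 40]⟩,
 zbF0, []⟩
noncomputable def p000_l260 : Lf2 := ⟨nat_lit 2, nat_lit 2, [nat_lit 10, nat_lit 5, nat_lit 5, nat_lit 20], true, nat_lit 0, nat_lit 0, nat_lit 0, nat_lit 0, zbN0,
 nat_lit 0, nat_lit 0, nat_lit 0, nat_lit 0, nat_lit 0, nat_lit 0, nat_lit 0, nat_lit 0, nat_lit 0, nat_lit 0, nat_lit 0, nat_lit 0, nat_lit 0, nat_lit 0, nat_lit 0, nat_lit 0, nat_lit 0, nat_lit 0, [],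
 ⟨p000_k6, nat_lit 0, nat_lit 0, nat_lit 350, nat_lit 0, nat_lit 132659, [], [], [], nat_lit 1271250, nat_lit 1271250, nat_lit 0, nat_lit 1100001, nat_lit 0, nat_lit 0, [nat_lit 1695000, nat_lit 1271250], [nat_lit 77, nat_lit 40, nat_lit 20, nat_lit 80, nat_lit 17, nat_lit 317, nat_lit 100, nat_lit 10]⟩, C1.Rw.none,
 zbF0, []⟩
noncomputable def p000_l261 : Lf2 := ⟨nat_lit 0, nat_lit 2, [nat_lit 10, nat_lit 5, nat_lit 5, nat_lit 20], false, nat_lit 0, nat_lit 0, nat_lit 0, nat_lit 0, ⟨nat_lit 1000, nat_lit 0, nat_lit 0, nat_lit 0, nat_lit 0, nat_lit 0, nat_lit 0, nat_lit 0, nat_lit 0, nat_lit 0, nat_lit 0, nat_lit 0, nat_lit 0, nat_lit 0, nat_lit 0, nat_lit 0, false, false⟩,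
 nat_lit 38679, nat_lit 0, nat_lit 0, nat_lit 0, nat_lit 15636, nat_lit 0, nat_lit 7090, nat_lit 0, nat_lit 0, nat_lit 0, nat_lit 0, nat_lit 541, nat_lit 0, nat_lit 0, nat_lit 0, nat_lit 0, nat_lit 0, nat_lit 0, [],
 ⟨p000_k30, nat_lit 0, nat_lit 0, nat_lit 0, nat_lit 0, nat_lit 61990, [nat_lit 3282000000, nat_lit 5449500000, nat_lit 7968000001, nat_lit 9842000000], [], [nat_lit 25985468126, nat_lit 26555199906, nat_lit 15105247902, nat_lit 15667750658], nat_lit 1271250, nat_lit 1271250, nat_lit 0, nat_lit 490000, nat_lit 0, nat_lit 0, [nat_lit 780000, nat_lit 1271250, nat_lit 1271250, nat_lit 1271250], [nat_lit 52, nat_lit 40, nat_lit 20, nat_lit 80]⟩, ⟨p000_k30, nat_lit 0, nat_lit 0, nat_lit 0, nat_lit 0, nat_lit 61990, [nat_lit 3282000000, nat_lit 5449500000, nat_lit 7968000000, nat_lit 9842000000], [], [nat_lit 4113302000, nat_lit 4470888000, nat_lit 5921512000, nat_lit 5925652000], nat_lit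 1271250, nat_lit 1271250, nat_lit 0, nat_lit 490000, nat_lit 0, nat_lit 0, [nat_lit 780000, nat_lit 1271250, nat_lit 1271250, nat_lit 1271250], [nat_lit 52, nat_lit 40, nat_lit 20, nat_lit 80]⟩,
 zbF0, []⟩
noncomputable def p000_l262 : Lf2 := ⟨nat_lit 0, nat_lit 2, [nat_lit 10, nat_lit 5, nat_lit 5, nat_lit 20], false, nat_lit 0, nat_lit 0, nat_lit 0, nat_lit 0, ⟨nat_lit 1000, nat_lit 0, nat_lit 0, nat_lit 0, nat_lit 0, nat_lit 0, nat_lit 0, nat_lit 0, nat_lit 0, nat_lit 0, nat_lit 0, nat_lit 0, nat_lit 0, nat_lit 0, nat_lit 0, nat_lit 0, false, false⟩,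
 nat_lit 12765, nat_lit 0, nat_lit 0, nat_lit 9164, nat_lit 5160, nat_lit 0, nat_lit 4552, nat_lit 0, nat_lit 0, nat_lit 0, nat_lit 0, nat_lit 742, nat_lit 0, nat_lit 0, nat_lit 0, nat_lit 0, nat_lit 0, nat_lit 0, [],
 ⟨p000_k30, nat_lit 0, nat_lit 0, nat_lit 0, nat_lit 0, nat_lit 22234, [nat_lit 3282000000, nat_lit 5449500000, nat_lit 7968000001, nat_lit 9842000000], [], [nat_lit 20599423960, nat_lit 20820317081, nat_lit 17991705761, nat_lit 18239670321], nat_lit 1271250, nat_lit 1271250, nat_lit 0, nat_lit 490000, nat_lit 0, nat_lit 0, [nat_lit 780000, nat_lit 1271250, nat_lit 1271250, nat_lit 1271250], [nat_lit 52, nat_lit 40, nat_lit 20, nat_lit 80]⟩, ⟨p000_k30, nat_lit 0, nat_lit 0, nat_lit 0, nat_lit 0, nat_lit 22234, [nat_lit 3282000000, nat_lit 5449500000, nat_lit 7968000000, nat_lit 9842000000], [], [nat_lit 821684000, nat_lit 1007268000, nat_lit 2623012000, nat_lit 2623012000],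 nat_lit 1271250, nat_lit 1271250, nat_lit 0, nat_lit 490000, nat_lit 0, nat_lit 0, [nat_lit 780000, nat_lit 1271250, nat_lit 1271250, nat_lit 1271250], [nat_lit 52, nat_lit 40, nat_lit 20, nat_lit 80]⟩,
 zbF0, []⟩
noncomputable def p000_l263 : Lf2 := ⟨nat_lit 0, nat_lit 1, [nat_lit 19, nat_lit 5, nat_lit 5, nat_lit 20], false, nat_lit 0, nat_lit 0, nat_lit 0, nat_lit 0, ⟨nat_lit 1000, nat_lit 0, nat_lit 0, nat_lit 0, nat_lit 0, nat_lit 0, nat_lit 0, nat_lit 0, nat_lit 0, nat_lit 0, nat_lit 0, nat_lit 0, nat_lit 0, nat_lit 0, nat_lit 0, nat_lit 0, false, false⟩,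
 nat_lit 0, nat_lit 37672, nat_lit 0, nat_lit 0, nat_lit 15685, nat_lit 0, nat_lit 6097, nat_lit 0, nat_lit 0, nat_lit 0, nat_lit 0, nat_lit 739, nat_lit 0, nat_lit 0, nat_lit 0, nat_lit 0, nat_lit 0, nat_lit 0, [],
 ⟨p000_k12, nat_lit 0, nat_lit 0, nat_lit 0, nat_lit 0, nat_lit 43721, [nat_lit 3282000000, nat_lit 5449500000, nat_lit 7968000001, nat_lit 9842000000], [], [nat_lit 26249917505, nat_lit 26421099508, nat_lit 15327735320, nat_lit 15496749585], nat_lit 1271250, nat_lit 1271250, nat_lit 0, nat_lit 490000, nat_lit 0, nat_lit 0, [nat_lit 780000, nat_lit 1271250, nat_lit 1271250, nat_lit 1271250], [nat_lit 52, nat_lit 40, nat_lit 20, nat_lit 80]⟩, ⟨p000_k14, nat_lit 0, nat_lit 0, nat_lit 0, nat_lit 0, nat_lit 45055, [nat_lit 3282000000, nat_lit 5449500000, nat_lit 7968000000, nat_lit 9842000000], [], [nat_lit 891349000, nat_lit 1160337000, nat_lit 2659012000, nat_lit 2659012000], nat_lit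 1271250, nat_lit 1271250, nat_lit 0, nat_lit 490000, nat_lit 0, nat_lit 0, [nat_lit 780000, nat_lit 1271250, nat_lit 1271250, nat_lit 1271250], [nat_lit 52, nat_lit 40, nat_lit 20, nat_lit 80]⟩,
 zbF0, []⟩
noncomputable def p000_l264 : Lf2 := ⟨nat_lit 0, nat_lit 1, [nat_lit 19, nat_lit 5, nat_lit 5, nat_lit 20], false, nat_lit 0, nat_lit 0, nat_lit 0, nat_lit 0, ⟨nat_lit 1000, nat_lit 0, nat_lit 0, nat_lit 0, nat_lit 0, nat_lit 0, nat_lit 0, nat_lit 0, nat_lit 0, nat_lit 0, nat_lit 0, nat_lit 0, nat_lit 0, nat_lit 0, nat_lit 0, nat_lit 0, false, false⟩,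
 nat_lit 0, nat_lit 29380, nat_lit 0, nat_lit 0, nat_lit 12447, nat_lit 0, nat_lit 8589, nat_lit 0, nat_lit 0, nat_lit 0, nat_lit 0, nat_lit 584, nat_lit 0, nat_lit 0, nat_lit 0, nat_lit 0, nat_lit 0, nat_lit 0, [],
 ⟨p000_k36, nat_lit 0, nat_lit 0, nat_lit 0, nat_lit 0, nat_lit 57753, [nat_lit 7089500001, nat_lit 8885500000], [], [nat_lit 21949161492, nat_lit 22050361781, nat_lit 20936660211, nat_lit 20268333482], nat_lit 1271250, nat_lit 1271250, nat_lit 0, nat_lit 490000, nat_lit 0, nat_lit 0, [nat_lit 1553750, nat_lit 1271250], [nat_lit 162, nat_lit 40, nat_lit 20, nat_lit 40]⟩, ⟨p000_k49, nat_lit 0, nat_lit 0, nat_lit 0, nat_lit 0, nat_lit 60577, [nat_lit 7089500000, nat_lit 8885500000], [], [nat_lit 4121972000, nat_lit 4466004000, nat_lit 5581512000, nat_lit 5881644000], nat_lit 1271250, nat_lit 1271250, nat_lit 0, nat_lit 490000, nat_lit 0, nat_lit 0, [nat_lit 1553750, nat_lit 1271250],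 [nat_lit 162, nat_lit 40, nat_lit 20, nat_lit 40]⟩,
 zbF0, []⟩
noncomputable def p000_l265 : Lf2 := ⟨nat_lit 0, nat_lit 2, [nat_lit 10, nat_lit 5, nat_lit 5, nat_lit 20], false, nat_lit 0, nat_lit 0, nat_lit 0, nat_lit 0, ⟨nat_lit 1000, nat_lit 0, nat_lit 0, nat_lit 0, nat_lit 0, nat_lit 0, nat_lit 0, nat_lit 0, nat_lit 0, nat_lit 0, nat_lit 0, nat_lit 0, nat_lit 0, nat_lit 0, nat_lit 0, nat_lit 0, false, false⟩,
 nat_lit 0, nat_lit 12379, nat_lit 0, nat_lit 9961, nat_lit 5154, nat_lit 0, nat_lit 3868, nat_lit 0, nat_lit 0, nat_lit 0, nat_lit 0, nat_lit 792, nat_lit 0, nat_lit 0, nat_lit 0, nat_lit 0, nat_lit 0, nat_lit 380651000, [],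
 ⟨p000_k29, nat_lit 0, nat_lit 0, nat_lit 0, nat_lit 0, nat_lit 1601, [nat_lit 3282000000, nat_lit 5449500000, nat_lit 7968000001, nat_lit 9842000000], [], [nat_lit 20857419295, nat_lit 21077359913, nat_lit 18248615109, nat_lit 18496473073], nat_lit 1271250, nat_lit 1271250, nat_lit 0, nat_lit 490000, nat_lit 0, nat_lit 0, [nat_lit 780000, nat_lit 1271250, nat_lit 1271250, nat_lit 1271250], [nat_lit 52, nat_lit 40, nat_lit 20, nat_lit 80]⟩, ⟨p000_k30, nat_lit 0, nat_lit 0, nat_lit 0, nat_lit 0, nat_lit 1675, [nat_lit 3282000000, nat_lit 5449500000, nat_lit 7968000000, nat_lit 9842000000], [], [nat_lit 0, nat_lit 336235000, nat_lit 1784163000, nat_lit 1788303000], nat_lit 1271250, nat_lit 1271250, nat_lit 0, nat_lit 490000, nat_lit 0, nat_lit 0, [nat_lit 780000, nat_lit 1271250, nat_lit 1271250, nat_lit 1271250], [nat_lit 52, nat_lit 40, nat_lit 20, nat_lit 80]⟩,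
 zbF0, []⟩
noncomputable def p000_l266 : Lf2 := ⟨nat_lit 0, nat_lit 2, [nat_lit 10, nat_lit 5, nat_lit 5, nat_lit 20], false, nat_lit 0, nat_lit 0, nat_lit 0, nat_lit 0, ⟨nat_lit 1000, nat_lit 0, nat_lit 0, nat_lit 0, nat_lit 0, nat_lit 0, nat_lit 0, nat_lit 0, nat_lit 0, nat_lit 0, nat_lit 0, nat_lit 0, nat_lit 0, nat_lit 0, nat_lit 0, nat_lit 0, false, false⟩,
 nat_lit 266042, nat_lit 0, nat_lit 300000, nat_lit 0, nat_lit 3405, nat_lit 228825, nat_lit 60000, nat_lit 0, nat_lit 0, nat_lit 60000, nat_lit 20000, nat_lit 0, nat_lit 0, nat_lit 0, nat_lit 0, nat_lit 0, nat_lit 0, nat_lit 0, [],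
 ⟨p000_k30, nat_lit 0, nat_lit 0, nat_lit 0, nat_lit 0, nat_lit 61990, [nat_lit 3282000000, nat_lit 5449500000, nat_lit 7968000001, nat_lit 9842000000], [], [nat_lit 36669157865, nat_lit 35768981420, nat_lit 35749589681, nat_lit 36018388761], nat_lit 1271250, nat_lit 1271250, nat_lit 490000, nat_lit 1100001, nat_lit 0, nat_lit 0, [nat_lit 780000, nat_lit 1271250, nat_lit 1271250, nat_lit 1271250], [nat_lit 52, nat_lit 40, nat_lit 20, nat_lit 80]⟩, ⟨p000_k30, nat_lit 0, nat_lit 0, nat_lit 0, nat_lit 0, nat_lit 61990, [nat_lit 243282000000, nat_lit 365449500000, nat_lit 487968000000, nat_lit 569842000000], [], [nat_lit 61334079100, nat_lit 27816866800, nat_lit 73662069000, nat_lit 5971972800], nat_lit 1271250, nat_lit 1271250, nat_lit 490000, nat_lit 1100001, nat_lit 0, nat_lit 0, [nat_lit 780000, nat_lit 1271250, nat_lit 1271250, nat_lit 1271250], [nat_lit 52, nat_lit 40, nat_lit 20, nat_lit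 80]⟩,
 zbF0, []⟩
noncomputable def p000_l267 : Lf2 := ⟨nat_lit 0, nat_lit 2, [nat_lit 10, nat_lit 5, nat_lit 5, nat_lit 20], false, nat_lit 0, nat_lit 0, nat_lit 0, nat_lit 0, ⟨nat_lit 1000, nat_lit 0, nat_lit 0, nat_lit 0, nat_lit 0, nat_lit 0, nat_lit 0, nat_lit 0, nat_lit 0, nat_lit 0, nat_lit 0, nat_lit 0, nat_lit 0, nat_lit 0, nat_lit 0, nat_lit 0, false, false⟩,
 nat_lit 225878, nat_lit 0, nat_lit 0, nat_lit 0, nat_lit 91312, nat_lit 14459, nat_lit 0, nat_lit 3249, nat_lit 0, nat_lit 0, nat_lit 0, nat_lit 0, nat_lit 0, nat_lit 230742038587260, nat_lit 0, nat_lit 0, nat_lit 0, nat_lit 0, [],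
 ⟨p000_k32, nat_lit 0, nat_lit 0, nat_lit 0, nat_lit 0, nat_lit 61990, [nat_lit 71230000001, nat_lit 85944000000, nat_lit 100814000000], [], [nat_lit 215560600467, nat_lit 191783960099, nat_lit 253651627859, nat_lit 231224396227], nat_lit 1271250, nat_lit 1271250, nat_lit 0, nat_lit 1100001, nat_lit 0, nat_lit 0, [nat_lit 1412500, nat_lit 1271250, nat_lit 1271250], [nat_lit 25, nat_lit 40, nat_lit 20, nat_lit 40]⟩, ⟨p000_k41, nat_lit 0, nat_lit 0, nat_lit 0, nat_lit 0, nat_lit 61990, [nat_lit 2637500000, nat_lit 6250000000, nat_lit 7968000000, nat_lit 9842000000], [], [nat_lit 24044572399, nat_lit 24892583704, nat_lit 13582301526, nat_lit 12370595388], nat_lit 1271250, nat_lit 1271250, nat_lit 0, nat_lit 1100001, nat_lit 0, nat_lit 0, [nat_lit 631250, nat_lit 1431250, nat_lit 1271250, nat_lit 1271250], [nat_lit 130, nat_lit 40, nat_lit 20, nat_lit 40]⟩,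
 zbF0, []⟩
noncomputable def p000_l268 : Lf2 := ⟨nat_lit 2, nat_lit 2, [nat_lit 10, nat_lit 5, nat_lit 5, nat_lit 20], true, nat_lit 0, nat_lit 0, nat_lit 0, nat_lit 0, zbN0,
 nat_lit 0, nat_lit 0, nat_lit 0, nat_lit 0, nat_lit 0, nat_lit 0, nat_lit 0, nat_lit 0, nat_lit 0, nat_lit 0, nat_lit 0, nat_lit 0, nat_lit 0, nat_lit 0, nat_lit 0, nat_lit 0, nat_lit 0, nat_lit 0, [],
 ⟨p000_k6, nat_lit 0, nat_lit 0, nat_lit 350, nat_lit 0, nat_lit 132659, [], [], [], nat_lit 1271250, nat_lit 1271250, nat_lit 0, nat_lit 1100001, nat_lit 0, nat_lit 0, [nat_lit 1695000, nat_lit 1271250], [nat_lit 77, nat_lit 40, nat_lit 20, nat_lit 80, nat_lit 17, nat_lit 317, nat_lit 100, nat_lit 10]⟩, C1.Rw.none,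
 zbF0, []⟩
noncomputable def p000_l269 : Lf2 := ⟨nat_lit 0, nat_lit 1, [nat_lit 19, nat_lit 5, nat_lit 5, nat_lit 20], false, nat_lit 0, nat_lit 0, nat_lit 0, nat_lit 0, ⟨nat_lit 1000, nat_lit 0, nat_lit 0, nat_lit 0, nat_lit 0, nat_lit 0, nat_lit 0, nat_lit 0, nat_lit 0, nat_lit 0, nat_lit 0, nat_lit 0, nat_lit 0, nat_lit 0, nat_lit 0, nat_lit 0, false, false⟩,
 nat_lit 12765, nat_lit 0, nat_lit 0, nat_lit 26612, nat_lit 5160, nat_lit 5160, nat_lit 4552, nat_lit 0, nat_lit 0, nat_lit 4552, nat_lit 0, nat_lit 0, nat_lit 0, nat_lit 0, nat_lit 0, nat_lit 0, nat_lit 0, nat_lit 0, [],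
 ⟨p000_k14, nat_lit 0, nat_lit 0, nat_lit 0, nat_lit 0, nat_lit 21643, [nat_lit 3282000000, nat_lit 5449500000, nat_lit 7968000001, nat_lit 9842000000], [], [nat_lit 20599423960, nat_lit 20820317081, nat_lit 17991705761, nat_lit 18239670321], nat_lit 1271250, nat_lit 1271250, nat_lit 0, nat_lit 490000, nat_lit 0, nat_lit 0, [nat_lit 780000, nat_lit 1271250, nat_lit 1271250, nat_lit 1271250], [nat_lit 52, nat_lit 40, nat_lit 20, nat_lit 80]⟩, ⟨p000_k14, nat_lit 0, nat_lit 0, nat_lit 0, nat_lit 0, nat_lit 21643, [nat_lit 3282000000, nat_lit 5449500000, nat_lit 7968000000, nat_lit 9842000000], [], [nat_lit 20599423960, nat_lit 20820317080, nat_lit 17991705760, nat_lit 18239670320], nat_lit 1271250, nat_lit 1271250, nat_lit 0, nat_lit 490000, nat_lit 0, nat_lit 0, [nat_lit 780000, nat_lit 1271250, nat_lit 1271250, nat_lit 1271250], [nat_lit 52, nat_lit 40, nat_lit 20, nat_lit 80]⟩,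
 zbF0, []⟩
noncomputable def p000_l270 : Lf2 := ⟨nat_lit 0, nat_lit 1, [nat_lit 19, nat_lit 5, nat_lit 5, nat_lit 20], false, nat_lit 0, nat_lit 0, nat_lit 0, nat_lit 0, ⟨nat_lit 1000, nat_lit 0, nat_lit 0, nat_lit 0, nat_lit 0, nat_lit 0, nat_lit 0, nat_lit 0, nat_lit 0, nat_lit 0, nat_lit 0, nat_lit 0, nat_lit 0, nat_lit 0, nat_lit 0, nat_lit 0, false, false⟩,
 nat_lit 12750, nat_lit 0, nat_lit 0, nat_lit 8353, nat_lit 0, nat_lit 5154, nat_lit 1088, nat_lit 0, nat_lit 473, nat_lit 4518, nat_lit 0, nat_lit 0, nat_lit 0, nat_lit 577939268102, nat_lit 0, nat_lit 0, nat_lit 0, nat_lit 0, [],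
 ⟨p000_k12, nat_lit 0, nat_lit 0, nat_lit 0, nat_lit 0, nat_lit 58784, [nat_lit 3282000000, nat_lit 5449500000, nat_lit 7968000001, nat_lit 9842000000], [], [nat_lit 7451401500, nat_lit 7611584001, nat_lit 7549317501, nat_lit 7709940801], nat_lit 1271250, nat_lit 1271250, nat_lit 0, nat_lit 43600, nat_lit 0, nat_lit 0, [nat_lit 780000, nat_lit 1271250, nat_lit 1271250, nat_lit 1271250], [nat_lit 52, nat_lit 40, nat_lit 20, nat_lit 80]⟩, ⟨p000_k14, nat_lit 0, nat_lit 0, nat_lit 0, nat_lit 0, nat_lit 60577, [nat_lit 3282000000, nat_lit 5449500000, nat_lit 7968000000, nat_lit 9842000000], [], [nat_lit 20636986324, nat_lit 21077359912, nat_lit 20028989890, nat_lit 20535851615], nat_lit 1271250, nat_lit 1271250, nat_lit 0, nat_lit 43600, nat_lit 0, nat_lit 0, [nat_lit 780000, nat_lit 1271250, nat_lit 1271250, nat_lit 1271250], [nat_lit 52, nat_lit 40, nat_lit 20, nat_lit 80]⟩,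
 zbF0, []⟩
noncomputable def p000_l271 : Lf2 := ⟨nat_lit 0, nat_lit 1, [nat_lit 19, nat_lit 5, nat_lit 5, nat_lit 20], false, nat_lit 0, nat_lit 0, nat_lit 0, nat_lit 0, ⟨nat_lit 1000, nat_lit 0, nat_lit 0, nat_lit 0, nat_lit 0, nat_lit 0, nat_lit 0, nat_lit 0, nat_lit 0, nat_lit 0, nat_lit 0, nat_lit 0, nat_lit 0, nat_lit 0, nat_lit 0, nat_lit 0, false, false⟩,
 nat_lit 10653, nat_lit 236229, nat_lit 0, nat_lit 0, nat_lit 102794, nat_lit 4306, nat_lit 55096, nat_lit 10317, nat_lit 0, nat_lit 3980, nat_lit 0, nat_lit 0, nat_lit 0, nat_lit 0, nat_lit 0, nat_lit 0, nat_lit 0, nat_lit 0, [],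
 ⟨p000_k40, nat_lit 0, nat_lit 0, nat_lit 0, nat_lit 0, nat_lit 58784, [nat_lit 105807500001, nat_lit 212590000001, nat_lit 255576000001, nat_lit 277127500000], [], [nat_lit 307037284026, nat_lit 308723134530, nat_lit 293731191736, nat_lit 295818815910], nat_lit 1271250, nat_lit 1271250, nat_lit 0, nat_lit 43600, nat_lit 0, nat_lit 0, [nat_lit 631250, nat_lit 1431250, nat_lit 1271250, nat_lit 1271250], [nat_lit 151, nat_lit 40, nat_lit 20, nat_lit 40]⟩, ⟨p000_k50, nat_lit 0, nat_lit 0, nat_lit 0, nat_lit 0, nat_lit 60577, [nat_lit 2637500000, nat_lit 6250000000, nat_lit 7968000000, nat_lit 8885500000], [], [nat_lit 20274006268, nat_lit 20730052672, nat_lit 19800429760, nat_lit 20286750973], nat_lit 1271250, nat_lit 1271250, nat_lit 0, nat_lit 43600, nat_lit 0, nat_lit 0, [nat_lit 631250, nat_lit 1431250, nat_lit 1271250, nat_lit 1271250], [nat_lit 151, nat_lit 40, nat_lit 20, nat_lit 40]⟩,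
 zbF0, []⟩
noncomputable def p000_l272 : Lf2 := ⟨nat_lit 0, nat_lit 1, [nat_lit 19, nat_lit 5, nat_lit 5, nat_lit 20], false, nat_lit 0, nat_lit 0, nat_lit 0, nat_lit 0, ⟨nat_lit 1000, nat_lit 0, nat_lit 0, nat_lit 0, nat_lit 0, nat_lit 0, nat_lit 0, nat_lit 0, nat_lit 0, nat_lit 0, nat_lit 0, nat_lit 0, nat_lit 0, nat_lit 0, nat_lit 0, nat_lit 0, false, false⟩,
 nat_lit 300000, nat_lit 300000, nat_lit 0, nat_lit 0, nat_lit 249822, nat_lit 5154, nat_lit 60000, nat_lit 0, nat_lit 0, nat_lit 60000, nat_lit 0, nat_lit 0, nat_lit 0, nat_lit 400000000000000, nat_lit 0, nat_lit 0, nat_lit 101400960220, nat_lit 0, [],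
 ⟨p000_k12, nat_lit 0, nat_lit 0, nat_lit 0, nat_lit 0, nat_lit 58784, [nat_lit 3282000000, nat_lit 5449500000, nat_lit 7968000001, nat_lit 9842000000], [], [nat_lit 30094535825, nat_lit 32470097230, nat_lit 0, nat_lit 2415668440], nat_lit 1271250, nat_lit 1271250, nat_lit 0, nat_lit 43600, nat_lit 0, nat_lit 0, [nat_lit 780000, nat_lit 1271250, nat_lit 1271250, nat_lit 1271250], [nat_lit 52, nat_lit 40, nat_lit 20, nat_lit 80]⟩, ⟨p000_k14, nat_lit 0, nat_lit 0, nat_lit 0, nat_lit 0, nat_lit 60577, [nat_lit 3282000000, nat_lit 5449500000, nat_lit 7968000000, nat_lit 9842000000], [], [nat_lit 20571775042, nat_lit 21077359912, nat_lit 20028989890, nat_lit 20535851615], nat_lit 1271250, nat_lit 1271250, nat_lit 0, nat_lit 43600, nat_lit 0, nat_lit 0, [nat_lit 780000, nat_lit 1271250, nat_lit 1271250, nat_lit 1271250], [nat_lit 52, nat_lit 40, nat_lit 20, nat_lit 80]⟩,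
 zbF0, []⟩
noncomputable def p000_l273 : Lf2 := ⟨nat_lit 0, nat_lit 1, [nat_lit 19, nat_lit 5, nat_lit 5, nat_lit 20], false, nat_lit 0, nat_lit 0, nat_lit 0, nat_lit 0, ⟨nat_lit 1000, nat_lit 0, nat_lit 0, nat_lit 0, nat_lit 0, nat_lit 0, nat_lit 0, nat_lit 0, nat_lit 0, nat_lit 0, nat_lit 0, nat_lit 0, nat_lit 0, nat_lit 0, nat_lit 0, nat_lit 0, false, false⟩,
 nat_lit 13086, nat_lit 0, nat_lit 0, nat_lit 6729, nat_lit 5290, nat_lit 5290, nat_lit 3906, nat_lit 0, nat_lit 0, nat_lit 4562, nat_lit 0, nat_lit 0, nat_lit 0, nat_lit 0, nat_lit 0, nat_lit 0, nat_lit 0, nat_lit 0, [],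
 ⟨p000_k12, nat_lit 0, nat_lit 0, nat_lit 0, nat_lit 0, nat_lit 58784, [nat_lit 3282000000, nat_lit 5449500000, nat_lit 7968000001, nat_lit 9842000000], [], [nat_lit 20202376263, nat_lit 20425347972, nat_lit 19330387641, nat_lit 19587261681], nat_lit 1271250, nat_lit 1271250, nat_lit 43600, nat_lit 111251, nat_lit 0, nat_lit 0, [nat_lit 780000, nat_lit 1271250, nat_lit 1271250, nat_lit 1271250], [nat_lit 52, nat_lit 40, nat_lit 20, nat_lit 80]⟩, ⟨p000_k14, nat_lit 0, nat_lit 0, nat_lit 0, nat_lit 0, nat_lit 60577, [nat_lit 3282000000, nat_lit 5449500000, nat_lit 7968000000, nat_lit 9842000000], [], [nat_lit 19979273304, nat_lit 20425216722, nat_lit 19073513600, nat_lit 19587261680], nat_lit 1271250, nat_lit 1271250, nat_lit 43600, nat_lit 111251, nat_lit 0, nat_lit 0, [nat_lit 780000, nat_lit 1271250, nat_lit 1271250, nat_lit 1271250], [nat_lit 52, nat_lit 40, nat_lit 20, nat_lit 80]⟩,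
 zbF0, []⟩
noncomputable def p000_l274 : Lf2 := ⟨nat_lit 0, nat_lit 1, [nat_lit 19, nat_lit 5, nat_lit 5, nat_lit 20], false, nat_lit 0, nat_lit 0, nat_lit 0, nat_lit 0, ⟨nat_lit 1000, nat_lit 0, nat_lit 0, nat_lit 0, nat_lit 0, nat_lit 0, nat_lit 0, nat_lit 0, nat_lit 0, nat_lit 0, nat_lit 0, nat_lit 0, nat_lit 0, nat_lit 0, nat_lit 0, nat_lit 0, false, false⟩,
 nat_lit 13620, nat_lit 0, nat_lit 0, nat_lit 5058, nat_lit 5506, nat_lit 5505, nat_lit 3967, nat_lit 0, nat_lit 0, nat_lit 4633, nat_lit 0, nat_lit 0, nat_lit 0, nat_lit 0, nat_lit 0, nat_lit 0, nat_lit 0, nat_lit 0, [],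
 ⟨p000_k12, nat_lit 0, nat_lit 0, nat_lit 0, nat_lit 0, nat_lit 58784, [nat_lit 3282000000, nat_lit 5449500000, nat_lit 7968000001, nat_lit 9842000000], [], [nat_lit 19142664013, nat_lit 19370741553, nat_lit 18311454701, nat_lit 18571675361], nat_lit 1271250, nat_lit 1271250, nat_lit 111251, nat_lit 230001, nat_lit 0, nat_lit 0, [nat_lit 780000, nat_lit 1271250, nat_lit 1271250, nat_lit 1271250], [nat_lit 52, nat_lit 40, nat_lit 20, nat_lit 80]⟩, ⟨p000_k14, nat_lit 0, nat_lit 0, nat_lit 0, nat_lit 0, nat_lit 60577, [nat_lit 3282000000, nat_lit 5449500000, nat_lit 7968000000, nat_lit 9842000000], [], [nat_lit 18914401800, nat_lit 19371743960, nat_lit 18052482200, nat_lit 18572886800], nat_lit 1271250, nat_lit 1271250, nat_lit 111251, nat_lit 230001, nat_lit 0, nat_lit 0, [nat_lit 780000, nat_lit 1271250, nat_lit 1271250, nat_lit 1271250], [nat_lit 52, nat_lit 40, nat_lit 20, nat_lit 80]⟩,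
 zbF0, []⟩
noncomputable def p000_l275 : Lf2 := ⟨nat_lit 0, nat_lit 1, [nat_lit 19, nat_lit 5, nat_lit 5, nat_lit 20], false, nat_lit 0, nat_lit 0, nat_lit 0, nat_lit 0, ⟨nat_lit 1000, nat_lit 0, nat_lit 0, nat_lit 0, nat_lit 0, nat_lit 0, nat_lit 0, nat_lit 0, nat_lit 0, nat_lit 0, nat_lit 0, nat_lit 0, nat_lit 0, nat_lit 0, nat_lit 0, nat_lit 0, false, false⟩,
 nat_lit 101895, nat_lit 0, nat_lit 0, nat_lit 0, nat_lit 18757, nat_lit 41191, nat_lit 7725, nat_lit 0, nat_lit 0, nat_lit 16499, nat_lit 0, nat_lit 0, nat_lit 0, nat_lit 0, nat_lit 0, nat_lit 0, nat_lit 0, nat_lit 4040868278, [],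
 ⟨p000_k12, nat_lit 0, nat_lit 0, nat_lit 0, nat_lit 0, nat_lit 58784, [nat_lit 3282000000, nat_lit 5449500000, nat_lit 7968000001, nat_lit 9842000000], [], [nat_lit 14935553680, nat_lit 15338725745, nat_lit 9586528700, nat_lit 10106681705], nat_lit 1271250, nat_lit 1271250, nat_lit 230001, nat_lit 490000, nat_lit 0, nat_lit 0, [nat_lit 780000, nat_lit 1271250, nat_lit 1271250, nat_lit 1271250], [nat_lit 52, nat_lit 40, nat_lit 20, nat_lit 80]⟩, ⟨p000_k14, nat_lit 0, nat_lit 0, nat_lit 0, nat_lit 0, nat_lit 60577, [nat_lit 3282000000, nat_lit 5449500000, nat_lit 7968000000, nat_lit 9842000000], [], [nat_lit 12997966889, nat_lit 14385606150, nat_lit 0, nat_lit 1891227630], nat_lit 1271250, nat_lit 1271250, nat_lit 230001, nat_lit 490000, nat_lit 0, nat_lit 0, [nat_lit 780000, nat_lit 1271250, nat_lit 1271250, nat_lit 1271250], [nat_lit 52, nat_lit 40, nat_lit 20, nat_lit 80]⟩,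
 zbF0, []⟩
noncomputable def p000_l276 : Lf2 := ⟨nat_lit 1, nat_lit 2, [nat_lit 10, nat_lit 5, nat_lit 5, nat_lit 20], false, nat_lit 0, nat_lit 0, nat_lit 0, nat_lit 0, zbN0,
 nat_lit 0, nat_lit 0, nat_lit 0, nat_lit 0, nat_lit 0, nat_lit 0, nat_lit 0, nat_lit 0, nat_lit 0, nat_lit 0, nat_lit 0, nat_lit 0, nat_lit 0, nat_lit 0, nat_lit 0, nat_lit 0, nat_lit 0, nat_lit 0, [],
 C1.Rw.none, C1.Rw.none,
 zbF0, []⟩
noncomputable def p000_l277 : Lf2 := ⟨nat_lit 0, nat_lit 2, [nat_lit 10, nat_lit 5, nat_lit 5, nat_lit 20], false, nat_lit 0, nat_lit 0, nat_lit 0, nat_lit 0, ⟨nat_lit 1000, nat_lit 0, nat_lit 0, nat_lit 0, nat_lit 0, nat_lit 0, nat_lit 0, nat_lit 0, nat_lit 0, nat_lit 0, nat_lit 0, nat_lit 0, nat_lit 0, nat_lit 0, nat_lit 0, nat_lit 0, false, false⟩,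
 nat_lit 12750, nat_lit 0, nat_lit 0, nat_lit 30143, nat_lit 5154, nat_lit 5154, nat_lit 3868, nat_lit 0, nat_lit 0, nat_lit 4518, nat_lit 0, nat_lit 0, nat_lit 0, nat_lit 26471988409136, nat_lit 0, nat_lit 0, nat_lit 0, nat_lit 0, [],
 ⟨p000_k29, nat_lit 0, nat_lit 0, nat_lit 0, nat_lit 0, nat_lit 1601, [nat_lit 3282000000, nat_lit 5449500000, nat_lit 7968000001, nat_lit 9842000000], [], [nat_lit 20857419295, nat_lit 21077359913, nat_lit 18248615109, nat_lit 18496473073], nat_lit 1271250, nat_lit 1271250, nat_lit 0, nat_lit 490000, nat_lit 0, nat_lit 0, [nat_lit 780000, nat_lit 1271250, nat_lit 1271250, nat_lit 1271250], [nat_lit 52, nat_lit 40, nat_lit 20, nat_lit 80]⟩, ⟨p000_k30, nat_lit 0, nat_lit 0, nat_lit 0, nat_lit 0, nat_lit 1675, [nat_lit 3282000000, nat_lit 5449500000, nat_lit 7968000000, nat_lit 9842000000], [], [nat_lit 20636986324, nat_lit 21077359912, nat_lit 18000757144, nat_lit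 18496473072], nat_lit 1271250, nat_lit 1271250, nat_lit 0, nat_lit 490000, nat_lit 0, nat_lit 0, [nat_lit 780000, nat_lit 1271250, nat_lit 1271250, nat_lit 1271250], [nat_lit 52, nat_lit 40, nat_lit 20, nat_lit 80]⟩,
 zbF0, []⟩
noncomputable def p000_l278 : Lf2 := ⟨nat_lit 0, nat_lit 2, [nat_lit 10, nat_lit 5, nat_lit 5, nat_lit 20], false, nat_lit 0, nat_lit 0, nat_lit 0, nat_lit 0, ⟨nat_lit 1000, nat_lit 0, nat_lit 0, nat_lit 0, nat_lit 0, nat_lit 0, nat_lit 0, nat_lit 0, nat_lit 0, nat_lit 0, nat_lit 0, nat_lit 0, nat_lit 0, nat_lit 0, nat_lit 0, nat_lit 0, false, false⟩,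
 nat_lit 142583, nat_lit 0, nat_lit 300000, nat_lit 0, nat_lit 3126, nat_lit 178916, nat_lit 0, nat_lit 0, nat_lit 0, nat_lit 60000, nat_lit 0, nat_lit 0, nat_lit 0, nat_lit 0, nat_lit 0, nat_lit 0, nat_lit 0, nat_lit 108447117840, [],
 ⟨p000_k30, nat_lit 0, nat_lit 0, nat_lit 0, nat_lit 0, nat_lit 61990, [nat_lit 3282000000, nat_lit 5449500000, nat_lit 7968000001, nat_lit 9842000000], [], [nat_lit 36465283358, nat_lit 35640019353, nat_lit 36612353657, nat_lit 36879050193], nat_lit 1271250, nat_lit 1271250, nat_lit 490000, nat_lit 1100001, nat_lit 0, nat_lit 0, [nat_lit 780000, nat_lit 1271250, nat_lit 1271250, nat_lit 1271250], [nat_lit 52, nat_lit 40, nat_lit 20, nat_lit 80]⟩, ⟨p000_k30, nat_lit 0, nat_lit 0, nat_lit 0, nat_lit 0, nat_lit 61990, [nat_lit 3282000000, nat_lit 5449500000, nat_lit 7968000000, nat_lit 9842000000], [], [nat_lit 26032556996, nat_lit 31054453392, nat_lit 0, nat_lit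 5916869952], nat_lit 1271250, nat_lit 1271250, nat_lit 490000, nat_lit 1100001, nat_lit 0, nat_lit 0, [nat_lit 780000, nat_lit 1271250, nat_lit 1271250, nat_lit 1271250], [nat_lit 52, nat_lit 40, nat_lit 20, nat_lit 80]⟩,
 zbF0, []⟩
noncomputable def p000_l279 : Lf2 := ⟨nat_lit 0, nat_lit 2, [nat_lit 10, nat_lit 5, nat_lit 5, nat_lit 20], false, nat_lit 0, nat_lit 0, nat_lit 0, nat_lit 0, ⟨nat_lit 1000, nat_lit 0, nat_lit 0, nat_lit 0, nat_lit 0, nat_lit 0, nat_lit 0, nat_lit 0, nat_lit 0, nat_lit 0, nat_lit 0, nat_lit 0, nat_lit 0, nat_lit 0, nat_lit 0, nat_lit 0, false, false⟩,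
 nat_lit 201328, nat_lit 300000, nat_lit 0, nat_lit 0, nat_lit 202664, nat_lit 49772, nat_lit 50456, nat_lit 391, nat_lit 0, nat_lit 60000, nat_lit 0, nat_lit 0, nat_lit 0, nat_lit 400000000000000, nat_lit 0, nat_lit 0, nat_lit 30934848704, nat_lit 12301467696, [],
 ⟨p000_k32, nat_lit 0, nat_lit 0, nat_lit 0, nat_lit 0, nat_lit 61990, [nat_lit 14070000000, nat_lit 17352000000, nat_lit 20790000000], [], [nat_lit 52766985512, nat_lit 0, nat_lit 131943114936, nat_lit 82166607232], nat_lit 1271250, nat_lit 1271250, nat_lit 0, nat_lit 1100001, nat_lit 0, nat_lit 0, [nat_lit 1412500, nat_lit 1271250, nat_lit 1271250], [nat_lit 25, nat_lit 40, nat_lit 20, nat_lit 40]⟩, ⟨p000_k41, nat_lit 0, nat_lit 0, nat_lit 0, nat_lit 0, nat_lit 61990, [nat_lit 2637500000, nat_lit 6250000000, nat_lit 7968000000, nat_lit 9842000000], [], [nat_lit 49576443988, nat_lit 51674358928, nat_lit 6907702576, nat_lit 0],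 nat_lit 1271250, nat_lit 1271250, nat_lit 0, nat_lit 1100001, nat_lit 0, nat_lit 0, [nat_lit 631250, nat_lit 1431250, nat_lit 1271250, nat_lit 1271250], [nat_lit 130, nat_lit 40, nat_lit 20, nat_lit 40]⟩,
 zbF0, []⟩
noncomputable def p000_l280 : Lf2 := ⟨nat_lit 2, nat_lit 2, [nat_lit 10, nat_lit 5, nat_lit 5, nat_lit 20], true, nat_lit 0, nat_lit 0, nat_lit 0, nat_lit 0, zbN0,
 nat_lit 0, nat_lit 0, nat_lit 0, nat_lit 0, nat_lit 0, nat_lit 0, nat_lit 0, nat_lit 0, nat_lit 0, nat_lit 0, nat_lit 0, nat_lit 0, nat_lit 0, nat_lit 0, nat_lit 0, nat_lit 0, nat_lit 0, nat_lit 0, [],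
 ⟨p000_k6, nat_lit 0, nat_lit 0, nat_lit 350, nat_lit 0, nat_lit 132659, [], [], [], nat_lit 1271250, nat_lit 1271250, nat_lit 0, nat_lit 1100001, nat_lit 0, nat_lit 0, [nat_lit 1695000, nat_lit 1271250], [nat_lit 77, nat_lit 40, nat_lit 20, nat_lit 80, nat_lit 17, nat_lit 317, nat_lit 100, nat_lit 10]⟩, C1.Rw.none,
 zbF0, []⟩
noncomputable def b_NL_450_450_0_8 : St := ⟨false, nat_lit 1, nat_lit 1, nat_lit 1, nat_lit 20, nat_lit 190, nat_lit 200, nat_lit 180, nat_lit 200, nat_lit 0, nat_lit 160, nat_lit 0, nat_lit 0, nat_lit 0, nat_lit 0, nat_lit 0, nat_lit 0, nat_lit 0, nat_lit 8, nat_lit 0, nat_lit 0, nat_lit 0, nat_lit 400⟩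
theorem d_NL_450_450_0_8 (h : EB TB.env) : Dead b_NL_450_450_0_8 := chkB_sound0 h (T :=
(.spl (nat_lit 1) (nat_lit 190)
(.spl (nat_lit 6) (nat_lit 4)
(.spl (nat_lit 8) (nat_lit 200)
(.spl (nat_lit 8) (nat_lit 100)
(.spl (nat_lit 7) (nat_lit 600)
(.spl (nat_lit 2) (nat_lit 80)
(.leaf p000_l243)
(.leaf p000_l244))
(.spl (nat_lit 7) (nat_lit 900)
(.leaf p000_l245)
(.leaf p000_l246)))
(.spl (nat_lit 7) (nat_lit 600)
(.spl (nat_lit 2) (nat_lit 80)
(.leaf p000_l247)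
(.leaf p000_l248))
(.spl (nat_lit 7) (nat_lit 900)
(.leaf p000_l249)
(.leaf p000_l250))))
(.spl (nat_lit 7) (nat_lit 600)
(.spl (nat_lit 2) (nat_lit 80)
(.leaf p000_l251)
(.leaf p000_l252))
(.spl (nat_lit 7) (nat_lit 900)
(.spl (nat_lit 2) (nat_lit 80)
(.leaf p000_l253)
(.leaf p000_l254))
(.leaf p000_l255))))
(.leaf p000_l256))
(.spl (nat_lit 8) (nat_lit 200)
(.spl (nat_lit 8) (nat_lit 100)
(.spl (nat_lit 7) (nat_lit 600)
(.spl (nat_lit 2) (nat_lit 80)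
(.leaf p000_l257)
(.leaf p000_l258))
(.spl (nat_lit 7) (nat_lit 900)
(.leaf p000_l259)
(.leaf p000_l260)))
(.spl (nat_lit 7) (nat_lit 600)
(.spl (nat_lit 2) (nat_lit 80)
(.spl (nat_lit 8) (nat_lit 160)
(.leaf p000_l261)
(.spl (nat_lit 0) (nat_lit 195)
(.ord (.leaf p000_l262))
(.spl (nat_lit 6) (nat_lit 4)
(.spl (nat_lit 0) (nat_lit 198)
(.ord (.leaf p000_l263))
(.leaf p000_l264))
(.leaf p000_l265))))
(.leaf p000_l266))
(.spl (nat_lit 7) (nat_lit 900)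
(.leaf p000_l267)
(.leaf p000_l268))))
(.spl (nat_lit 7) (nat_lit 600)
(.spl (nat_lit 2) (nat_lit 80)
(.spl (nat_lit 6) (nat_lit 4)
(.spl (nat_lit 0) (nat_lit 195)
(.ord (.leaf p000_l269))
(.spl (nat_lit 2) (nat_lit 40)
(.spl (nat_lit 2) (nat_lit 20)
(.spl (nat_lit 2) (nat_lit 8)
(.spl (nat_lit 7) (nat_lit 300)
(.leaf p000_l270)
(.spl (nat_lit 7) (nat_lit 460)
(.leaf p000_l271)
(.leaf p000_l272)))
(.leaf p000_l273))
(.leaf p000_l274))
(.leaf p000_l275)))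
(.spl (nat_lit 0) (nat_lit 195)
(.ord (.leaf p000_l276))
(.leaf p000_l277)))
(.leaf p000_l278))
(.spl (nat_lit 7) (nat_lit 900)
(.leaf p000_l279)
(.leaf p000_l280)))))) (by decide +kernel)
noncomputable def p000_l281 : Lf2 := ⟨nat_lit 0, nat_lit 1, [nat_lit 19, nat_lit 5, nat_lit 5, nat_lit 20], false, nat_lit 0, nat_lit 0, nat_lit 0, nat_lit 0, ⟨nat_lit 1000, nat_lit 0, nat_lit 0, nat_lit 0, nat_lit 0, nat_lit 0, nat_lit 0, nat_lit 0, nat_lit 0, nat_lit 0, nat_lit 0, nat_lit 0, nat_lit 0, nat_lit 0, nat_lit 0, nat_lit 0, false, false⟩,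
 nat_lit 262901, nat_lit 0, nat_lit 300000, nat_lit 0, nat_lit 5154, nat_lit 214060, nat_lit 60000, nat_lit 0, nat_lit 0, nat_lit 60000, nat_lit 20000, nat_lit 0, nat_lit 0, nat_lit 0, nat_lit 0, nat_lit 0, nat_lit 0, nat_lit 0, [],
 ⟨p000_k14, nat_lit 0, nat_lit 0, nat_lit 0, nat_lit 0, nat_lit 7113, [nat_lit 3282000000, nat_lit 5449500000, nat_lit 7968000001, nat_lit 9842000000], [], [nat_lit 20571775043, nat_lit 21077359913, nat_lit 18000757145, nat_lit 18496473073], nat_lit 1271250, nat_lit 1271250, nat_lit 0, nat_lit 490000, nat_lit 0, nat_lit 0, [nat_lit 780000, nat_lit 1271250, nat_lit 1271250, nat_lit 1271250], [nat_lit 52, nat_lit 40, nat_lit 20, nat_lit 80]⟩, ⟨p000_k13, nat_lit 0, nat_lit 0, nat_lit 0, nat_lit 0, nat_lit 7592, [nat_lit 243282000000, nat_lit 365449500000, nat_lit 487968000000, nat_lit 569842000000], [], [nat_lit 699290541480, nat_lit 701952732560, nat_lit 527733424120,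 nat_lit 530568022410], nat_lit 1271250, nat_lit 1271250, nat_lit 0, nat_lit 490000, nat_lit 0, nat_lit 0, [nat_lit 780000, nat_lit 1271250, nat_lit 1271250, nat_lit 1271250], [nat_lit 52, nat_lit 40, nat_lit 20, nat_lit 80]⟩,
 zbF0, []⟩
noncomputable def p000_l282 : Lf2 := ⟨nat_lit 0, nat_lit 1, [nat_lit 19, nat_lit 5, nat_lit 5, nat_lit 20], false, nat_lit 0, nat_lit 0, nat_lit 0, nat_lit 0, ⟨nat_lit 1000, nat_lit 0, nat_lit 0, nat_lit 0, nat_lit 0, nat_lit 0, nat_lit 0, nat_lit 0, nat_lit 0, nat_lit 0, nat_lit 0, nat_lit 0, nat_lit 0, nat_lit 0, nat_lit 0, nat_lit 0, false, false⟩,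
 nat_lit 246032, nat_lit 0, nat_lit 300000, nat_lit 0, nat_lit 5154, nat_lit 214168, nat_lit 60000, nat_lit 0, nat_lit 0, nat_lit 60000, nat_lit 20000, nat_lit 0, nat_lit 0, nat_lit 0, nat_lit 0, nat_lit 0, nat_lit 0, nat_lit 0, [],
 ⟨p000_k14, nat_lit 0, nat_lit 0, nat_lit 0, nat_lit 0, nat_lit 23338, [nat_lit 3282000000, nat_lit 5449500000, nat_lit 7968000001, nat_lit 9842000000], [], [nat_lit 20571775043, nat_lit 21077359913, nat_lit 18000757145, nat_lit 18496473073], nat_lit 1271250, nat_lit 1271250, nat_lit 0, nat_lit 490000, nat_lit 0, nat_lit 0, [nat_lit 780000, nat_lit 1271250, nat_lit 1271250, nat_lit 1271250], [nat_lit 52, nat_lit 40, nat_lit 20, nat_lit 80]⟩, ⟨p000_k15, nat_lit 0, nat_lit 0, nat_lit 0, nat_lit 0, nat_lit 24068, [nat_lit 243282000000, nat_lit 365449500000, nat_lit 487968000000, nat_lit 569842000000], [], [nat_lit 689662450976, nat_lit 692324928056, nat_lit 518067639648,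 nat_lit 520903592960], nat_lit 1271250, nat_lit 1271250, nat_lit 0, nat_lit 490000, nat_lit 0, nat_lit 0, [nat_lit 780000, nat_lit 1271250, nat_lit 1271250, nat_lit 1271250], [nat_lit 52, nat_lit 40, nat_lit 20, nat_lit 80]⟩,
 zbF0, []⟩
noncomputable def p000_l283 : Lf2 := ⟨nat_lit 0, nat_lit 1, [nat_lit 19, nat_lit 5, nat_lit 5, nat_lit 20], false, nat_lit 0, nat_lit 0, nat_lit 0, nat_lit 0, ⟨nat_lit 1000, nat_lit 0, nat_lit 0, nat_lit 0, nat_lit 0, nat_lit 0, nat_lit 0, nat_lit 0, nat_lit 0, nat_lit 0, nat_lit 0, nat_lit 0, nat_lit 0, nat_lit 0, nat_lit 0, nat_lit 0, false, false⟩,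
 nat_lit 300000, nat_lit 0, nat_lit 230049, nat_lit 0, nat_lit 5160, nat_lit 214275, nat_lit 60000, nat_lit 0, nat_lit 0, nat_lit 60000, nat_lit 20000, nat_lit 0, nat_lit 0, nat_lit 400000000000000, nat_lit 0, nat_lit 0, nat_lit 0, nat_lit 0, [],
 ⟨p000_k14, nat_lit 0, nat_lit 0, nat_lit 0, nat_lit 0, nat_lit 21643, [nat_lit 3282000000, nat_lit 5449500000, nat_lit 7968000001, nat_lit 9842000000], [], [nat_lit 20567417681, nat_lit 20820317081, nat_lit 17991705761, nat_lit 18239670321], nat_lit 1271250, nat_lit 1271250, nat_lit 0, nat_lit 490000, nat_lit 0, nat_lit 0, [nat_lit 780000, nat_lit 1271250, nat_lit 1271250, nat_lit 1271250], [nat_lit 52, nat_lit 40, nat_lit 20, nat_lit 80]⟩, ⟨p000_k14, nat_lit 0, nat_lit 0, nat_lit 0, nat_lit 0, nat_lit 21643, [nat_lit 243282000000, nat_lit 365449500000, nat_lit 487968000000, nat_lit 569842000000], [], [nat_lit 679848579525, nat_lit 682512607575,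 nat_lit 508218213625, nat_lit 511055509413], nat_lit 1271250, nat_lit 1271250, nat_lit 0, nat_lit 490000, nat_lit 0, nat_lit 0, [nat_lit 780000, nat_lit 1271250, nat_lit 1271250, nat_lit 1271250], [nat_lit 52, nat_lit 40, nat_lit 20, nat_lit 80]⟩,
 zbF0, []⟩
noncomputable def p000_l284 : Lf2 := ⟨nat_lit 3, nat_lit 1, [nat_lit 19, nat_lit 5, nat_lit 5, nat_lit 20], false, nat_lit 0, nat_lit 0, nat_lit 0, nat_lit 0, zbN0,
 nat_lit 0, nat_lit 0, nat_lit 0, nat_lit 0, nat_lit 0, nat_lit 0, nat_lit 0, nat_lit 0, nat_lit 0, nat_lit 0, nat_lit 0, nat_lit 0, nat_lit 0, nat_lit 0, nat_lit 0, nat_lit 0, nat_lit 0, nat_lit 0, [],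
 C1.Rw.none, ⟨p000_k50, nat_lit 0, nat_lit 0, nat_lit 0, nat_lit 0, nat_lit 60577, [], [], [], nat_lit 1271250, nat_lit 1271250, nat_lit 0, nat_lit 43600, nat_lit 0, nat_lit 0, [nat_lit 631250, nat_lit 1431250, nat_lit 1271250, nat_lit 1271250], [nat_lit 151, nat_lit 40, nat_lit 20, nat_lit 40]⟩,
 zbF0, []⟩
noncomputable def p000_l285 : Lf2 := ⟨nat_lit 0, nat_lit 1, [nat_lit 19, nat_lit 5, nat_lit 5, nat_lit 20], false, nat_lit 0, nat_lit 0, nat_lit 0, nat_lit 0, ⟨nat_lit 1000, nat_lit 0, nat_lit 0, nat_lit 0, nat_lit 0, nat_lit 0, nat_lit 0, nat_lit 0, nat_lit 0, nat_lit 0, nat_lit 0, nat_lit 0, nat_lit 0, nat_lit 0, nat_lit 0, nat_lit 0, false, false⟩,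
 nat_lit 300000, nat_lit 0, nat_lit 300000, nat_lit 0, nat_lit 15636, nat_lit 242553, nat_lit 60000, nat_lit 0, nat_lit 0, nat_lit 60000, nat_lit 0, nat_lit 0, nat_lit 0, nat_lit 400000000000000, nat_lit 0, nat_lit 0, nat_lit 0, nat_lit 99843412162, [],
 ⟨p000_k12, nat_lit 0, nat_lit 0, nat_lit 0, nat_lit 0, nat_lit 58784, [nat_lit 3282000000, nat_lit 5449500000, nat_lit 7968000001, nat_lit 9842000000], [], [nat_lit 26270334016, nat_lit 26555199906, nat_lit 24475958524, nat_lit 24763086991], nat_lit 1271250, nat_lit 1271250, nat_lit 0, nat_lit 43600, nat_lit 0, nat_lit 0, [nat_lit 780000, nat_lit 1271250, nat_lit 1271250, nat_lit 1271250], [nat_lit 52, nat_lit 40, nat_lit 20, nat_lit 80]⟩, ⟨p000_k14, nat_lit 0, nat_lit 0, nat_lit 0, nat_lit 0, nat_lit 60577, [nat_lit 3282000000, nat_lit 5449500000, nat_lit 7968000000, nat_lit 9842000000], [], [nat_lit 29255047339, nat_lit 33876382154, nat_lit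 0, nat_lit 4699199545], nat_lit 1271250, nat_lit 1271250, nat_lit 0, nat_lit 43600, nat_lit 0, nat_lit 0, [nat_lit 780000, nat_lit 1271250, nat_lit 1271250, nat_lit 1271250], [nat_lit 52, nat_lit 40, nat_lit 20, nat_lit 80]⟩,
 zbF0, []⟩
noncomputable def p000_l286 : Lf2 := ⟨nat_lit 0, nat_lit 1, [nat_lit 19, nat_lit 5, nat_lit 5, nat_lit 20], false, nat_lit 0, nat_lit 0, nat_lit 0, nat_lit 0, ⟨nat_lit 1000, nat_lit 0, nat_lit 0, nat_lit 0, nat_lit 0, nat_lit 0, nat_lit 0, nat_lit 0, nat_lit 0, nat_lit 0, nat_lit 0, nat_lit 0, nat_lit 0, nat_lit 0, nat_lit 0, nat_lit 0, false, false⟩,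
 nat_lit 300000, nat_lit 0, nat_lit 300000, nat_lit 0, nat_lit 15636, nat_lit 242553, nat_lit 60000, nat_lit 0, nat_lit 0, nat_lit 60000, nat_lit 2012, nat_lit 0, nat_lit 0, nat_lit 400000000000000, nat_lit 0, nat_lit 0, nat_lit 0, nat_lit 1258019541, [],
 ⟨p000_k12, nat_lit 0, nat_lit 0, nat_lit 0, nat_lit 0, nat_lit 58784, [nat_lit 3282000000, nat_lit 5449500000, nat_lit 7968000001, nat_lit 9842000000], [], [nat_lit 26270334016, nat_lit 26555199906, nat_lit 24475958524, nat_lit 24763086991], nat_lit 1271250, nat_lit 1271250, nat_lit 0, nat_lit 43600, nat_lit 0, nat_lit 0, [nat_lit 780000, nat_lit 1271250, nat_lit 1271250, nat_lit 1271250], [nat_lit 52, nat_lit 40, nat_lit 20, nat_lit 80]⟩, ⟨p000_k14, nat_lit 0, nat_lit 0, nat_lit 0, nat_lit 0, nat_lit 60577, [nat_lit 27426000000, nat_lit 41665500000, nat_lit 56256000000, nat_lit 66178000000], [], [nat_lit 29294616425, nat_lit 31868071017,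 nat_lit 0, nat_lit 2689806924], nat_lit 1271250, nat_lit 1271250, nat_lit 0, nat_lit 43600, nat_lit 0, nat_lit 0, [nat_lit 780000, nat_lit 1271250, nat_lit 1271250, nat_lit 1271250], [nat_lit 52, nat_lit 40, nat_lit 20, nat_lit 80]⟩,
 zbF0, []⟩
noncomputable def p000_l287 : Lf2 := ⟨nat_lit 0, nat_lit 1, [nat_lit 19, nat_lit 5, nat_lit 5, nat_lit 20], false, nat_lit 0, nat_lit 0, nat_lit 0, nat_lit 0, ⟨nat_lit 1000, nat_lit 0, nat_lit 0, nat_lit 0, nat_lit 0, nat_lit 0, nat_lit 0, nat_lit 0, nat_lit 0, nat_lit 0, nat_lit 0, nat_lit 0, nat_lit 0, nat_lit 0, nat_lit 0, nat_lit 0, false, false⟩,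
 nat_lit 300000, nat_lit 0, nat_lit 300000, nat_lit 0, nat_lit 15636, nat_lit 242553, nat_lit 60000, nat_lit 0, nat_lit 0, nat_lit 60000, nat_lit 19008, nat_lit 0, nat_lit 0, nat_lit 400000000000000, nat_lit 0, nat_lit 0, nat_lit 0, nat_lit 0, [],
 ⟨p000_k12, nat_lit 0, nat_lit 0, nat_lit 0, nat_lit 0, nat_lit 58784, [nat_lit 3282000000, nat_lit 5449500000, nat_lit 7968000001, nat_lit 9842000000], [], [nat_lit 26270334016, nat_lit 26555199906, nat_lit 24475958524, nat_lit 24763086991], nat_lit 1271250, nat_lit 1271250, nat_lit 0, nat_lit 43600, nat_lit 0, nat_lit 0, [nat_lit 780000, nat_lit 1271250, nat_lit 1271250, nat_lit 1271250], [nat_lit 52, nat_lit 40, nat_lit 20, nat_lit 80]⟩, ⟨p000_k14, nat_lit 0, nat_lit 0, nat_lit 0, nat_lit 0, nat_lit 60577, [nat_lit 231378000000, nat_lit 347593500000, nat_lit 464160000000, nat_lit 542066000000], [], [nat_lit 912149208909, nat_lit 914402051476,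 nat_lit 886809741418, nat_lit 889108876577], nat_lit 1271250, nat_lit 1271250, nat_lit 0, nat_lit 43600, nat_lit 0, nat_lit 0, [nat_lit 780000, nat_lit 1271250, nat_lit 1271250, nat_lit 1271250], [nat_lit 52, nat_lit 40, nat_lit 20, nat_lit 80]⟩,
 zbF0, []⟩
noncomputable def p000_l288 : Lf2 := ⟨nat_lit 0, nat_lit 1, [nat_lit 19, nat_lit 5, nat_lit 5, nat_lit 20], false, nat_lit 0, nat_lit 0, nat_lit 0, nat_lit 0, ⟨nat_lit 1000, nat_lit 0, nat_lit 0, nat_lit 0, nat_lit 0, nat_lit 0, nat_lit 0, nat_lit 0, nat_lit 0, nat_lit 0, nat_lit 0, nat_lit 0, nat_lit 0, nat_lit 0, nat_lit 0, nat_lit 0, false, false⟩,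
 nat_lit 242043, nat_lit 0, nat_lit 300000, nat_lit 0, nat_lit 5290, nat_lit 219123, nat_lit 60000, nat_lit 0, nat_lit 0, nat_lit 60000, nat_lit 20000, nat_lit 0, nat_lit 0, nat_lit 400000000000000, nat_lit 0, nat_lit 0, nat_lit 0, nat_lit 0, [],
 ⟨p000_k12, nat_lit 0, nat_lit 0, nat_lit 0, nat_lit 0, nat_lit 58784, [nat_lit 3282000000, nat_lit 5449500000, nat_lit 7968000001, nat_lit 9842000000], [], [nat_lit 20169090144, nat_lit 20424969946, nat_lit 19330387641, nat_lit 19587261681], nat_lit 1271250, nat_lit 1271250, nat_lit 43600, nat_lit 111251, nat_lit 0, nat_lit 0, [nat_lit 780000, nat_lit 1271250, nat_lit 1271250, nat_lit 1271250], [nat_lit 52, nat_lit 40, nat_lit 20, nat_lit 80]⟩, ⟨p000_k14, nat_lit 0, nat_lit 0, nat_lit 0, nat_lit 0, nat_lit 60577, [nat_lit 243282000000, nat_lit 365449500000, nat_lit 487968000000, nat_lit 569842000000], [], [nat_lit 650845623130, nat_lit 656429368024,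 nat_lit 609524454538, nat_lit 615428757680], nat_lit 1271250, nat_lit 1271250, nat_lit 43600, nat_lit 111251, nat_lit 0, nat_lit 0, [nat_lit 780000, nat_lit 1271250, nat_lit 1271250, nat_lit 1271250], [nat_lit 52, nat_lit 40, nat_lit 20, nat_lit 80]⟩,
 zbF0, []⟩
noncomputable def p000_l289 : Lf2 := ⟨nat_lit 0, nat_lit 1, [nat_lit 19, nat_lit 5, nat_lit 5, nat_lit 20], false, nat_lit 0, nat_lit 0, nat_lit 0, nat_lit 0, ⟨nat_lit 1000, nat_lit 0, nat_lit 0, nat_lit 0, nat_lit 0, nat_lit 0, nat_lit 0, nat_lit 0, nat_lit 0, nat_lit 0, nat_lit 0, nat_lit 0, nat_lit 0, nat_lit 0, nat_lit 0, nat_lit 0, false, false⟩,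
 nat_lit 300000, nat_lit 0, nat_lit 260637, nat_lit 0, nat_lit 5506, nat_lit 226640, nat_lit 60000, nat_lit 0, nat_lit 0, nat_lit 60000, nat_lit 20000, nat_lit 0, nat_lit 0, nat_lit 400000000000000, nat_lit 0, nat_lit 0, nat_lit 0, nat_lit 0, [],
 ⟨p000_k12, nat_lit 0, nat_lit 0, nat_lit 0, nat_lit 0, nat_lit 58784, [nat_lit 3282000000, nat_lit 5449500000, nat_lit 7968000001, nat_lit 9842000000], [], [nat_lit 19109919897, nat_lit 19370741553, nat_lit 18311454701, nat_lit 18571675361], nat_lit 1271250, nat_lit 1271250, nat_lit 111251, nat_lit 230001, nat_lit 0, nat_lit 0, [nat_lit 780000, nat_lit 1271250, nat_lit 1271250, nat_lit 1271250], [nat_lit 52, nat_lit 40, nat_lit 20, nat_lit 80]⟩, ⟨p000_k14, nat_lit 0, nat_lit 0, nat_lit 0, nat_lit 0, nat_lit 60577, [nat_lit 243282000000, nat_lit 365449500000, nat_lit 487968000000, nat_lit 569842000000], [], [nat_lit 604709101400, nat_lit 610694250400,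 nat_lit 556279127680, nat_lit 562443860640], nat_lit 1271250, nat_lit 1271250, nat_lit 111251, nat_lit 230001, nat_lit 0, nat_lit 0, [nat_lit 780000, nat_lit 1271250, nat_lit 1271250, nat_lit 1271250], [nat_lit 52, nat_lit 40, nat_lit 20, nat_lit 80]⟩,
 zbF0, []⟩
noncomputable def p000_l290 : Lf2 := ⟨nat_lit 0, nat_lit 1, [nat_lit 19, nat_lit 5, nat_lit 5, nat_lit 20], false, nat_lit 0, nat_lit 0, nat_lit 0, nat_lit 0, ⟨nat_lit 1000, nat_lit 0, nat_lit 0, nat_lit 0, nat_lit 0, nat_lit 0, nat_lit 0, nat_lit 0, nat_lit 0, nat_lit 0, nat_lit 0, nat_lit 0, nat_lit 0, nat_lit 0, nat_lit 0, nat_lit 0, false, false⟩,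
 nat_lit 285799, nat_lit 0, nat_lit 300000, nat_lit 282532, nat_lit 18757, nat_lit 236812, nat_lit 60000, nat_lit 0, nat_lit 0, nat_lit 60000, nat_lit 20000, nat_lit 0, nat_lit 0, nat_lit 400000000000000, nat_lit 0, nat_lit 0, nat_lit 0, nat_lit 0, [],
 ⟨p000_k12, nat_lit 0, nat_lit 0, nat_lit 0, nat_lit 0, nat_lit 58784, [nat_lit 3282000000, nat_lit 5449500000, nat_lit 7968000001, nat_lit 9842000000], [], [nat_lit 14816284296, nat_lit 15338725745, nat_lit 9586528700, nat_lit 10106681705], nat_lit 1271250, nat_lit 1271250, nat_lit 230001, nat_lit 490000, nat_lit 0, nat_lit 0, [nat_lit 780000, nat_lit 1271250, nat_lit 1271250, nat_lit 1271250], [nat_lit 52, nat_lit 40, nat_lit 20, nat_lit 80]⟩, ⟨p000_k14, nat_lit 0, nat_lit 0, nat_lit 0, nat_lit 0, nat_lit 60577, [nat_lit 243282000000, nat_lit 365449500000, nat_lit 487968000000, nat_lit 569842000000], [], [nat_lit 547428592544, nat_lit 553856414112,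 nat_lit 482336610140, nat_lit 488576722656], nat_lit 1271250, nat_lit 1271250, nat_lit 230001, nat_lit 490000, nat_lit 0, nat_lit 0, [nat_lit 780000, nat_lit 1271250, nat_lit 1271250, nat_lit 1271250], [nat_lit 52, nat_lit 40, nat_lit 20, nat_lit 80]⟩,
 zbF0, []⟩
noncomputable def p000_l291 : Lf2 := ⟨nat_lit 2, nat_lit 1, [nat_lit 19, nat_lit 5, nat_lit 5, nat_lit 20], true, nat_lit 0, nat_lit 0, nat_lit 0, nat_lit 0, zbN0,
 nat_lit 0, nat_lit 0, nat_lit 0, nat_lit 0, nat_lit 0, nat_lit 0, nat_lit 0, nat_lit 0, nat_lit 0, nat_lit 0, nat_lit 0, nat_lit 0, nat_lit 0, nat_lit 0, nat_lit 0, nat_lit 0, nat_lit 0, nat_lit 0, [],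
 ⟨p000_k44, nat_lit 0, nat_lit 0, nat_lit 0, nat_lit 0, nat_lit 23338, [], [], [], nat_lit 1271250, nat_lit 1271250, nat_lit 0, nat_lit 490000, nat_lit 0, nat_lit 0, [nat_lit 1412500, nat_lit 1271250, nat_lit 1271250], [nat_lit 156, nat_lit 40, nat_lit 20, nat_lit 40]⟩, C1.Rw.none,
 zbF0, []⟩
noncomputable def p000_l292 : Lf2 := ⟨nat_lit 2, nat_lit 1, [nat_lit 19, nat_lit 5, nat_lit 5, nat_lit 20], true, nat_lit 0, nat_lit 0, nat_lit 0, nat_lit 0, zbN0,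
 nat_lit 0, nat_lit 0, nat_lit 0, nat_lit 0, nat_lit 0, nat_lit 0, nat_lit 0, nat_lit 0, nat_lit 0, nat_lit 0, nat_lit 0, nat_lit 0, nat_lit 0, nat_lit 0, nat_lit 0, nat_lit 0, nat_lit 0, nat_lit 0, [],
 ⟨p000_k44, nat_lit 0, nat_lit 0, nat_lit 0, nat_lit 0, nat_lit 41290, [], [], [], nat_lit 1271250, nat_lit 1271250, nat_lit 0, nat_lit 490000, nat_lit 0, nat_lit 0, [nat_lit 1412500, nat_lit 1271250, nat_lit 1271250], [nat_lit 156, nat_lit 40, nat_lit 20, nat_lit 40]⟩, C1.Rw.none,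
 zbF0, []⟩
noncomputable def p000_l293 : Lf2 := ⟨nat_lit 2, nat_lit 1, [nat_lit 19, nat_lit 5, nat_lit 5, nat_lit 20], true, nat_lit 0, nat_lit 0, nat_lit 0, nat_lit 0, zbN0,
 nat_lit 0, nat_lit 0, nat_lit 0, nat_lit 0, nat_lit 0, nat_lit 0, nat_lit 0, nat_lit 0, nat_lit 0, nat_lit 0, nat_lit 0, nat_lit 0, nat_lit 0, nat_lit 0, nat_lit 0, nat_lit 0, nat_lit 0, nat_lit 0, [],
 ⟨p000_k51, nat_lit 0, nat_lit 0, nat_lit 0, nat_lit 0, nat_lit 58784, [], [], [], nat_lit 1271250, nat_lit 1271250, nat_lit 0, nat_lit 490000, nat_lit 0, nat_lit 0, [nat_lit 1412500, nat_lit 1271250, nat_lit 1271250], [nat_lit 156, nat_lit 40, nat_lit 20, nat_lit 40]⟩, C1.Rw.none,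
 zbF0, []⟩
noncomputable def p000_l294 : Lf2 := ⟨nat_lit 2, nat_lit 1, [nat_lit 19, nat_lit 5, nat_lit 5, nat_lit 20], true, nat_lit 0, nat_lit 0, nat_lit 0, nat_lit 0, zbN0,
 nat_lit 0, nat_lit 0, nat_lit 0, nat_lit 0, nat_lit 0, nat_lit 0, nat_lit 0, nat_lit 0, nat_lit 0, nat_lit 0, nat_lit 0, nat_lit 0, nat_lit 0, nat_lit 0, nat_lit 0, nat_lit 0, nat_lit 0, nat_lit 0, [],
 ⟨p000_k3, nat_lit 0, nat_lit 0, nat_lit 316, nat_lit 0, nat_lit 60577, [], [], [], nat_lit 1271250, nat_lit 1271250, nat_lit 0, nat_lit 490000, nat_lit 0, nat_lit 0, [nat_lit 1695000, nat_lit 1271250], [nat_lit 77, nat_lit 40, nat_lit 20, nat_lit 80, nat_lit 17, nat_lit 289, nat_lit 75, nat_lit 9]⟩, C1.Rw.none,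
 zbF0, []⟩
noncomputable def p000_l295 : Lf2 := ⟨nat_lit 0, nat_lit 1, [nat_lit 19, nat_lit 5, nat_lit 5, nat_lit 20], false, nat_lit 0, nat_lit 0, nat_lit 0, nat_lit 0, ⟨nat_lit 1000, nat_lit 0, nat_lit 0, nat_lit 0, nat_lit 0, nat_lit 0, nat_lit 0, nat_lit 0, nat_lit 0, nat_lit 0, nat_lit 0, nat_lit 0, nat_lit 0, nat_lit 0, nat_lit 0, nat_lit 0, false, false⟩,
 nat_lit 212462, nat_lit 0, nat_lit 300000, nat_lit 0, nat_lit 19748, nat_lit 194879, nat_lit 0, nat_lit 0, nat_lit 0, nat_lit 60000, nat_lit 0, nat_lit 0, nat_lit 0, nat_lit 0, nat_lit 0, nat_lit 0, nat_lit 0, nat_lit 72928262076, [],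
 ⟨p000_k3, nat_lit 0, nat_lit 0, nat_lit 259, nat_lit 0, nat_lit 60577, [nat_lit 7968000001, nat_lit 9842000000], [], [nat_lit 50366527286, nat_lit 45145768274, nat_lit 29719282358, nat_lit 24577120386], nat_lit 1271250, nat_lit 1271250, nat_lit 490000, nat_lit 780000, nat_lit 0, nat_lit 0, [nat_lit 1695000, nat_lit 1271250], [nat_lit 77, nat_lit 40, nat_lit 20, nat_lit 80, nat_lit 17, nat_lit 317, nat_lit 100, nat_lit 10]⟩, ⟨p000_k52, nat_lit 0, nat_lit 0, nat_lit 0, nat_lit 0, nat_lit 64468, [nat_lit 5449500000, nat_lit 7968000000, nat_lit 9842000000], [], [nat_lit 72009269340, nat_lit 18121775924, nat_lit 99248756636, nat_lit 0], nat_lit 1271250, nat_lit 1271250, nat_lit 490000, nat_lit 780000, nat_lit 0, nat_lit 0, [nat_lit 1271250, nat_lit 1271250, nat_lit 1271250], [nat_lit 200, nat_lit 40, nat_lit 20, nat_lit 80]⟩,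
 zbF0, []⟩
noncomputable def p000_l296 : Lf2 := ⟨nat_lit 0, nat_lit 1, [nat_lit 19, nat_lit 5, nat_lit 5, nat_lit 20], false, nat_lit 0, nat_lit 0, nat_lit 0, nat_lit 0, ⟨nat_lit 1000, nat_lit 0, nat_lit 0, nat_lit 0, nat_lit 0, nat_lit 0, nat_lit 0, nat_lit 0, nat_lit 0, nat_lit 0, nat_lit 0, nat_lit 0, nat_lit 0, nat_lit 0, nat_lit 0, nat_lit 0, false, false⟩,
 nat_lit 300000, nat_lit 238654, nat_lit 0, nat_lit 0, nat_lit 217753, nat_lit 114084, nat_lit 60000, nat_lit 0, nat_lit 0, nat_lit 60000, nat_lit 0, nat_lit 0, nat_lit 0, nat_lit 0, nat_lit 0, nat_lit 0, nat_lit 26881670626, nat_lit 26984670096, [],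
 ⟨p000_k3, nat_lit 0, nat_lit 0, nat_lit 239, nat_lit 0, nat_lit 60577, [nat_lit 7968000001, nat_lit 9842000000], [], [nat_lit 0, nat_lit 12260917306, nat_lit 16086021053, nat_lit 16417897242], nat_lit 1271250, nat_lit 1271250, nat_lit 780000, nat_lit 1100001, nat_lit 0, nat_lit 0, [nat_lit 1695000, nat_lit 1271250], [nat_lit 77, nat_lit 40, nat_lit 20, nat_lit 80, nat_lit 17, nat_lit 317, nat_lit 100, nat_lit 9]⟩, ⟨p000_k52, nat_lit 0, nat_lit 0, nat_lit 0, nat_lit 0, nat_lit 64468, [nat_lit 5449500000, nat_lit 7968000000, nat_lit 9842000000], [], [nat_lit 58101155856, nat_lit 0, nat_lit 90049220736, nat_lit 32790461136], nat_lit 1271250, nat_lit 1271250, nat_lit 780000, nat_lit 1100001, nat_lit 0, nat_lit 0, [nat_lit 1271250, nat_lit 1271250, nat_lit 1271250], [nat_lit 200, nat_lit 40, nat_lit 20, nat_lit 80]⟩,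
 zbF0, []⟩
noncomputable def p000_l297 : Lf2 := ⟨nat_lit 1, nat_lit 2, [nat_lit 10, nat_lit 5, nat_lit 5, nat_lit 20], false, nat_lit 0, nat_lit 0, nat_lit 0, nat_lit 0, zbN0,
 nat_lit 0, nat_lit 0, nat_lit 0, nat_lit 0, nat_lit 0, nat_lit 0, nat_lit 0, nat_lit 0, nat_lit 0, nat_lit 0, nat_lit 0, nat_lit 0, nat_lit 0, nat_lit 0, nat_lit 0, nat_lit 0, nat_lit 0, nat_lit 0, [],
 C1.Rw.none, C1.Rw.none,
 zbF0, []⟩
noncomputable def p000_l298 : Lf2 := ⟨nat_lit 1, nat_lit 2, [nat_lit 10, nat_lit 5, nat_lit 5, nat_lit 20], false, nat_lit 0, nat_lit 0, nat_lit 0, nat_lit 0, zbN0,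
 nat_lit 0, nat_lit 0, nat_lit 0, nat_lit 0, nat_lit 0, nat_lit 0, nat_lit 0, nat_lit 0, nat_lit 0, nat_lit 0, nat_lit 0, nat_lit 0, nat_lit 0, nat_lit 0, nat_lit 0, nat_lit 0, nat_lit 0, nat_lit 0, [],
 C1.Rw.none, C1.Rw.none,
 zbF0, []⟩
noncomputable def p000_l299 : Lf2 := ⟨nat_lit 0, nat_lit 2, [nat_lit 10, nat_lit 5, nat_lit 5, nat_lit 20], false, nat_lit 0, nat_lit 0, nat_lit 0, nat_lit 0, ⟨nat_lit 1000, nat_lit 0, nat_lit 0, nat_lit 0, nat_lit 0, nat_lit 0, nat_lit 0, nat_lit 0, nat_lit 0, nat_lit 0, nat_lit 0, nat_lit 0, nat_lit 0, nat_lit 0, nat_lit 0, nat_lit 0, false, false⟩,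
 nat_lit 263747, nat_lit 0, nat_lit 300000, nat_lit 0, nat_lit 15636, nat_lit 214382, nat_lit 5591, nat_lit 0, nat_lit 0, nat_lit 60000, nat_lit 20000, nat_lit 0, nat_lit 0, nat_lit 400000000000000, nat_lit 0, nat_lit 0, nat_lit 0, nat_lit 0, [],
 ⟨p000_k53, nat_lit 0, nat_lit 0, nat_lit 291, nat_lit 0, nat_lit 1559, [nat_lit 7968000001, nat_lit 9842000000], [], [nat_lit 26441253550, nat_lit 26555199906, nat_lit 22178474243, nat_lit 21351739506], nat_lit 1271250, nat_lit 1271250, nat_lit 0, nat_lit 490000, nat_lit 0, nat_lit 0, [nat_lit 1695000, nat_lit 1271250], [nat_lit 77, nat_lit 40, nat_lit 20, nat_lit 80, nat_lit 17, nat_lit 289, nat_lit 75, nat_lit 9]⟩, ⟨p000_k31, nat_lit 0, nat_lit 0, nat_lit 0, nat_lit 0, nat_lit 1841, [nat_lit 243282000000, nat_lit 365449500000, nat_lit 487968000000, nat_lit 569842000000], [], [nat_lit 699542299756, nat_lit 710202917368, nat_lit 527355557764, nat_lit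 538710110816], nat_lit 1271250, nat_lit 1271250, nat_lit 0, nat_lit 490000, nat_lit 0, nat_lit 0, [nat_lit 780000, nat_lit 1271250, nat_lit 1271250, nat_lit 1271250], [nat_lit 52, nat_lit 40, nat_lit 20, nat_lit 80]⟩,
 zbF0, []⟩
noncomputable def p000_l300 : Lf2 := ⟨nat_lit 0, nat_lit 2, [nat_lit 10, nat_lit 5, nat_lit 5, nat_lit 20], false, nat_lit 0, nat_lit 0, nat_lit 0, nat_lit 0, ⟨nat_lit 1000, nat_lit 0, nat_lit 0, nat_lit 0, nat_lit 0, nat_lit 0, nat_lit 0, nat_lit 0, nat_lit 0, nat_lit 0, nat_lit 0, nat_lit 0, nat_lit 0, nat_lit 0, nat_lit 0, nat_lit 0, false, false⟩,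
 nat_lit 300000, nat_lit 196713, nat_lit 300000, nat_lit 300000, nat_lit 104329, nat_lit 228169, nat_lit 0, nat_lit 0, nat_lit 0, nat_lit 0, nat_lit 0, nat_lit 0, nat_lit 0, nat_lit 0, nat_lit 0, nat_lit 0, nat_lit 1963229421, nat_lit 125288818844, [],
 ⟨p000_k53, nat_lit 0, nat_lit 0, nat_lit 251, nat_lit 0, nat_lit 1559, [nat_lit 7968000001, nat_lit 9842000000], [], [nat_lit 92070801860, nat_lit 86554531179, nat_lit 0, nat_lit 1155014309], nat_lit 1271250, nat_lit 1271250, nat_lit 490000, nat_lit 1100001, nat_lit 0, nat_lit 0, [nat_lit 1695000, nat_lit 1271250], [nat_lit 77, nat_lit 40, nat_lit 20, nat_lit 80, nat_lit 17, nat_lit 317, nat_lit 100, nat_lit 10]⟩, ⟨p000_k54, nat_lit 0, nat_lit 0, nat_lit 0, nat_lit 0, nat_lit 1841, [nat_lit 5449500000, nat_lit 7968000000, nat_lit 9842000000], [], [nat_lit 117938730748, nat_lit 0, nat_lit 212249613584, nat_lit 97731592484], nat_lit 1271250,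 nat_lit 1271250, nat_lit 490000, nat_lit 1100001, nat_lit 0, nat_lit 0, [nat_lit 1271250, nat_lit 1271250, nat_lit 1271250], [nat_lit 200, nat_lit 40, nat_lit 20, nat_lit 80]⟩,
 zbF0, []⟩
noncomputable def b_NL_450_450_0_9 : St := ⟨false, nat_lit 1, nat_lit 1, nat_lit 1, nat_lit 20, nat_lit 190, nat_lit 200, nat_lit 180, nat_lit 200, nat_lit 0, nat_lit 160, nat_lit 0, nat_lit 0, nat_lit 0, nat_lit 0, nat_lit 0, nat_lit 0, nat_lit 0, nat_lit 8, nat_lit 0, nat_lit 0, nat_lit 400, nat_lit 800⟩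
theorem d_NL_450_450_0_9 (h : EB TB.env) : Dead b_NL_450_450_0_9 := chkB_sound0 h (T :=
(.spl (nat_lit 6) (nat_lit 4)
(.spl (nat_lit 2) (nat_lit 120)
(.spl (nat_lit 2) (nat_lit 80)
(.spl (nat_lit 7) (nat_lit 600)
(.spl (nat_lit 1) (nat_lit 190)
(.spl (nat_lit 1) (nat_lit 185)
(.leaf p000_l281)
(.leaf p000_l282))
(.spl (nat_lit 0) (nat_lit 195)
(.ord (.leaf p000_l283))
(.spl (nat_lit 2) (nat_lit 40)
(.spl (nat_lit 2) (nat_lit 20)
(.spl (nat_lit 2) (nat_lit 8)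
(.spl (nat_lit 8) (nat_lit 600)
(.spl (nat_lit 8) (nat_lit 500)
(.spl (nat_lit 8) (nat_lit 460)
(.leaf p000_l284)
(.leaf p000_l285))
(.leaf p000_l286))
(.leaf p000_l287))
(.leaf p000_l288))
(.leaf p000_l289))
(.leaf p000_l290))))
(.spl (nat_lit 7) (nat_lit 900)
(.spl (nat_lit 1) (nat_lit 190)
(.leaf p000_l291)
(.spl (nat_lit 1) (nat_lit 195)
(.leaf p000_l292)
(.ord (.leaf p000_l293))))
(.leaf p000_l294)))
(.leaf p000_l295))
(.leaf p000_l296))
(.spl (nat_lit 0) (nat_lit 195)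
(.ord (.leaf p000_l297))
(.spl (nat_lit 0) (nat_lit 198)
(.ord (.leaf p000_l298))
(.spl (nat_lit 2) (nat_lit 80)
(.leaf p000_l299)
(.leaf p000_l300)))))) (by decide +kernel)

end B2
end Pool.Agent.Lib.MP_6947cd_al
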