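import Pool.Agent.Lib.MP_6947cd_al.ZB.Pre

/-!
Problem MP_6947cd_al (Chollet).  Case B, second entry in [2/5, 17/20]: certificates of the tree, part P001 (generated).
-/

set_option autoImplicit false
set_option linter.all false

namespace Pool.Agent.Lib.MP_6947cd_al
namespace B2

open Ent Fr B1 PkA

noncomputable def p001_k0 : C1.Kn := ⟨[nat_lit 60, nat_lit 90, nat_lit 120, nat_lit 140], [nat_lit 0, nat_lit 0, nat_lit 0, nat_lit 399], [(nat_lit 0, nat_lit 0, nat_lit 0), (nat_lit 0, nat_lit 0, nat_lit 0), (nat_lit 0, nat_lit 0, nat_lit 0), (nat_lit 942, nat_lit 1000, nat_lit 293)], (nat_lit 100, nat_lit 95, nat_lit 28)⟩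
noncomputable def p001_k1 : C1.Kn := ⟨[nat_lit 60, nat_lit 90, nat_lit 120, nat_lit 140], [nat_lit 0, nat_lit 0, nat_lit 0, nat_lit 266], [(nat_lit 0, nat_lit 0, nat_lit 0), (nat_lit 0, nat_lit 0, nat_lit 0), (nat_lit 0, nat_lit 0, nat_lit 0), (nat_lit 960, nat_lit 1000, nat_lit 200)], (nat_lit 100, nat_lit 93, nat_lit 28)⟩
noncomputable def p001_k2 : C1.Kn := ⟨[nat_lit 100, nat_lit 120, nat_lit 140], [nat_lit 0, nat_lit 0, nat_lit 399], [(nat_lit 0, nat_lit 0, nat_lit 0), (nat_lit 0, nat_lit 0, nat_lit 0), (nat_lit 942, nat_lit 1000, nat_lit 293)], (nat_lit 100, nat_lit 95, nat_lit 28)⟩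
noncomputable def p001_k3 : C1.Kn := ⟨[nat_lit 50, nat_lit 110, nat_lit 130, nat_lit 140], [nat_lit 0, nat_lit 0, nat_lit 0, nat_lit 307], [(nat_lit 0, nat_lit 0, nat_lit 0), (nat_lit 0, nat_lit 0, nat_lit 0), (nat_lit 0, nat_lit 0, nat_lit 0), (nat_lit 926, nat_lit 1000, nat_lit 295)], (nat_lit 100, nat_lit 93, nat_lit 28)⟩
noncomputable def p001_k4 : C1.Kn := ⟨[nat_lit 110, nat_lit 130, nat_lit 140], [nat_lit 0, nat_lit 129, nat_lit 413], [(nat_lit 0, nat_lit 0, nat_lit 0), (nat_lit 990, nat_lit 1000, nat_lit 100), (nat_lit 922, nat_lit 1000, nat_lit 344)], (nat_lit 100, nat_lit 95, nat_lit 28)⟩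
noncomputable def p001_k5 : C1.Kn := ⟨[nat_lit 60, nat_lit 110, nat_lit 130, nat_lit 140], [nat_lit 0, nat_lit 0, nat_lit 0, nat_lit 307], [(nat_lit 0, nat_lit 0, nat_lit 0), (nat_lit 0, nat_lit 0, nat_lit 0), (nat_lit 0, nat_lit 0, nat_lit 0), (nat_lit 926, nat_lit 1000, nat_lit 295)], (nat_lit 100, nat_lit 93, nat_lit 28)⟩
noncomputable def p001_k6 : C1.Kn := ⟨[nat_lit 120, nat_lit 140], [nat_lit 0, nat_lit 399], [(nat_lit 0, nat_lit 0, nat_lit 0), (nat_lit 942, nat_lit 1000, nat_lit 293)], (nat_lit 100, nat_lit 95, nat_lit 28)⟩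
noncomputable def p001_k7 : C1.Kn := ⟨[nat_lit 60, nat_lit 90, nat_lit 120, nat_lit 140], [nat_lit 0, nat_lit 0, nat_lit 0, nat_lit 466], [(nat_lit 0, nat_lit 0, nat_lit 0), (nat_lit 0, nat_lit 0, nat_lit 0), (nat_lit 0, nat_lit 0, nat_lit 0), (nat_lit 933, nat_lit 1000, nat_lit 338)], (nat_lit 100, nat_lit 98, nat_lit 20)⟩
noncomputable def p001_k8 : C1.Kn := ⟨[nat_lit 60, nat_lit 90, nat_lit 120, nat_lit 140], [nat_lit 0, nat_lit 0, nat_lit 0, nat_lit 266], [(nat_lit 0, nat_lit 0, nat_lit 0), (nat_lit 0, nat_lit 0, nat_lit 0), (nat_lit 0, nat_lit 0, nat_lit 0), (nat_lit 960, nat_lit 1000, nat_lit 200)], (nat_lit 100, nat_lit 96, nat_lit 20)⟩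
noncomputable def p001_k9 : C1.Kn := ⟨[nat_lit 110, nat_lit 130], [nat_lit 0, nat_lit 232], [(nat_lit 0, nat_lit 0, nat_lit 0), (nat_lit 982, nat_lit 1000, nat_lit 178)], (nat_lit 100, nat_lit 98, nat_lit 20)⟩
noncomputable def p001_k10 : C1.Kn := ⟨[nat_lit 110, nat_lit 130], [nat_lit 0, nat_lit 0], [(nat_lit 0, nat_lit 0, nat_lit 0), (nat_lit 0, nat_lit 0, nat_lit 0)], (nat_lit 100, nat_lit 96, nat_lit 20)⟩
noncomputable def p001_k11 : C1.Kn := ⟨[nat_lit 60, nat_lit 90, nat_lit 120, nat_lit 140], [nat_lit 0, nat_lit 0, nat_lit 0, nat_lit 466], [(nat_lit 0, nat_lit 0, nat_lit 0), (nat_lit 0, nat_lit 0, nat_lit 0), (nat_lit 0, nat_lit 0, nat_lit 0), (nat_lit 933, nat_lit 1000, nat_lit 338)], (nat_lit 100, nat_lit 95, nat_lit 28)⟩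
noncomputable def p001_k12 : C1.Kn := ⟨[nat_lit 110, nat_lit 120, nat_lit 140], [nat_lit 0, nat_lit 64, nat_lit 329], [(nat_lit 0, nat_lit 0, nat_lit 0), (nat_lit 990, nat_lit 1000, nat_lit 100), (nat_lit 970, nat_lit 1000, nat_lit 201)], (nat_lit 100, nat_lit 95, nat_lit 28)⟩
noncomputable def p001_k13 : C1.Kn := ⟨[nat_lit 110, nat_lit 120, nat_lit 140], [nat_lit 0, nat_lit 0, nat_lit 266], [(nat_lit 0, nat_lit 0, nat_lit 0), (nat_lit 0, nat_lit 0, nat_lit 0), (nat_lit 960, nat_lit 1000, nat_lit 200)], (nat_lit 100, nat_lit 93, nat_lit 28)⟩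
noncomputable def p001_k14 : C1.Kn := ⟨[nat_lit 60, nat_lit 90, nat_lit 120, nat_lit 140], [nat_lit 0, nat_lit 0, nat_lit 0, nat_lit 399], [(nat_lit 0, nat_lit 0, nat_lit 0), (nat_lit 0, nat_lit 0, nat_lit 0), (nat_lit 0, nat_lit 0, nat_lit 0), (nat_lit 942, nat_lit 1000, nat_lit 293)], (nat_lit 100, nat_lit 97, nat_lit 20)⟩
noncomputable def p001_k15 : C1.Kn := ⟨[nat_lit 120, nat_lit 140], [nat_lit 0, nat_lit 399], [(nat_lit 0, nat_lit 0, nat_lit 0), (nat_lit 942, nat_lit 1000, nat_lit 293)], (nat_lit 100, nat_lit 97, nat_lit 20)⟩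
noncomputable def p001_k16 : C1.Kn := ⟨[nat_lit 60, nat_lit 120, nat_lit 140], [nat_lit 0, nat_lit 0, nat_lit 266], [(nat_lit 0, nat_lit 0, nat_lit 0), (nat_lit 0, nat_lit 0, nat_lit 0), (nat_lit 960, nat_lit 1000, nat_lit 200)], (nat_lit 100, nat_lit 96, nat_lit 20)⟩
noncomputable def p001_k17 : C1.Kn := ⟨[nat_lit 50, nat_lit 100, nat_lit 120, nat_lit 130], [nat_lit 0, nat_lit 0, nat_lit 0, nat_lit 248], [(nat_lit 0, nat_lit 0, nat_lit 0), (nat_lit 0, nat_lit 0, nat_lit 0), (nat_lit 0, nat_lit 0, nat_lit 0), (nat_lit 958, nat_lit 1000, nat_lit 264)], (nat_lit 100, nat_lit 98, nat_lit 20)⟩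
noncomputable def p001_k18 : C1.Kn := ⟨[nat_lit 50, nat_lit 100, nat_lit 120, nat_lit 130], [nat_lit 0, nat_lit 0, nat_lit 0, nat_lit 206], [(nat_lit 0, nat_lit 0, nat_lit 0), (nat_lit 0, nat_lit 0, nat_lit 0), (nat_lit 0, nat_lit 0, nat_lit 0), (nat_lit 958, nat_lit 1000, nat_lit 242)], (nat_lit 100, nat_lit 97, nat_lit 20)⟩
noncomputable def p001_k19 : C1.Kn := ⟨[nat_lit 50, nat_lit 100, nat_lit 120, nat_lit 140], [nat_lit 0, nat_lit 0, nat_lit 0, nat_lit 399], [(nat_lit 0, nat_lit 0, nat_lit 0), (nat_lit 0, nat_lit 0, nat_lit 0), (nat_lit 0, nat_lit 0, nat_lit 0), (nat_lit 942, nat_lit 1000, nat_lit 293)], (nat_lit 100, nat_lit 95, nat_lit 28)⟩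
noncomputable def p001_k20 : C1.Kn := ⟨[nat_lit 60, nat_lit 110, nat_lit 130, nat_lit 140], [nat_lit 0, nat_lit 0, nat_lit 129, nat_lit 413], [(nat_lit 0, nat_lit 0, nat_lit 0), (nat_lit 0, nat_lit 0, nat_lit 0), (nat_lit 990, nat_lit 1000, nat_lit 100), (nat_lit 922, nat_lit 1000, nat_lit 344)], (nat_lit 100, nat_lit 95, nat_lit 28)⟩
noncomputable def p001_k21 : C1.Kn := ⟨[nat_lit 60, nat_lit 120, nat_lit 140], [nat_lit 0, nat_lit 0, nat_lit 266], [(nat_lit 0, nat_lit 0, nat_lit 0), (nat_lit 0, nat_lit 0, nat_lit 0), (nat_lit 960, nat_lit 1000, nat_lit 200)], (nat_lit 100, nat_lit 93, nat_lit 28)⟩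
noncomputable def p001_k22 : C1.Kn := ⟨[nat_lit 120, nat_lit 140], [nat_lit 0, nat_lit 266], [(nat_lit 0, nat_lit 0, nat_lit 0), (nat_lit 960, nat_lit 1000, nat_lit 200)], (nat_lit 100, nat_lit 93, nat_lit 28)⟩
noncomputable def p001_k23 : C1.Kn := ⟨[nat_lit 100, nat_lit 120, nat_lit 130], [nat_lit 0, nat_lit 0, nat_lit 206], [(nat_lit 0, nat_lit 0, nat_lit 0), (nat_lit 0, nat_lit 0, nat_lit 0), (nat_lit 958, nat_lit 1000, nat_lit 242)], (nat_lit 100, nat_lit 97, nat_lit 20)⟩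
noncomputable def p001_k24 : C1.Kn := ⟨[nat_lit 50, nat_lit 110, nat_lit 130], [nat_lit 0, nat_lit 0, nat_lit 0], [(nat_lit 0, nat_lit 0, nat_lit 0), (nat_lit 0, nat_lit 0, nat_lit 0), (nat_lit 0, nat_lit 0, nat_lit 0)], (nat_lit 100, nat_lit 96, nat_lit 20)⟩
noncomputable def p001_k25 : C1.Kn := ⟨[nat_lit 110, nat_lit 120, nat_lit 130], [nat_lit 0, nat_lit 64, nat_lit 197], [(nat_lit 0, nat_lit 0, nat_lit 0), (nat_lit 990, nat_lit 1000, nat_lit 100), (nat_lit 970, nat_lit 1000, nat_lit 201)], (nat_lit 100, nat_lit 97, nat_lit 20)⟩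
noncomputable def p001_k26 : C1.Kn := ⟨[nat_lit 110, nat_lit 120, nat_lit 130], [nat_lit 0, nat_lit 0, nat_lit 133], [(nat_lit 0, nat_lit 0, nat_lit 0), (nat_lit 0, nat_lit 0, nat_lit 0), (nat_lit 961, nat_lit 1000, nat_lit 195)], (nat_lit 100, nat_lit 96, nat_lit 20)⟩
noncomputable def p001_k27 : C1.Kn := ⟨[nat_lit 110, nat_lit 130], [nat_lit 0, nat_lit 129], [(nat_lit 0, nat_lit 0, nat_lit 0), (nat_lit 990, nat_lit 1000, nat_lit 100)], (nat_lit 100, nat_lit 97, nat_lit 20)⟩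
noncomputable def p001_k28 : C1.Kn := ⟨[nat_lit 60, nat_lit 90, nat_lit 120, nat_lit 140], [nat_lit 0, nat_lit 0, nat_lit 0, nat_lit 332], [(nat_lit 0, nat_lit 0, nat_lit 0), (nat_lit 0, nat_lit 0, nat_lit 0), (nat_lit 0, nat_lit 0, nat_lit 0), (nat_lit 951, nat_lit 1000, nat_lit 247)], (nat_lit 100, nat_lit 97, nat_lit 20)⟩
noncomputable def p001_k29 : C1.Kn := ⟨[nat_lit 100, nat_lit 120, nat_lit 130], [nat_lit 0, nat_lit 0, nat_lit 248], [(nat_lit 0, nat_lit 0, nat_lit 0), (nat_lit 0, nat_lit 0, nat_lit 0), (nat_lit 958, nat_lit 1000, nat_lit 264)], (nat_lit 100, nat_lit 98, nat_lit 20)⟩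
noncomputable def p001_k30 : C1.Kn := ⟨[nat_lit 90, nat_lit 120, nat_lit 140], [nat_lit 0, nat_lit 0, nat_lit 266], [(nat_lit 0, nat_lit 0, nat_lit 0), (nat_lit 0, nat_lit 0, nat_lit 0), (nat_lit 960, nat_lit 1000, nat_lit 200)], (nat_lit 100, nat_lit 96, nat_lit 20)⟩
noncomputable def p001_k31 : C1.Kn := ⟨[nat_lit 120, nat_lit 140], [nat_lit 0, nat_lit 506], [(nat_lit 0, nat_lit 0, nat_lit 0), (nat_lit 928, nat_lit 1000, nat_lit 365)], (nat_lit 100, nat_lit 96, nat_lit 28)⟩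
noncomputable def p001_k32 : C1.Kn := ⟨[nat_lit 90, nat_lit 120, nat_lit 140], [nat_lit 0, nat_lit 0, nat_lit 266], [(nat_lit 0, nat_lit 0, nat_lit 0), (nat_lit 0, nat_lit 0, nat_lit 0), (nat_lit 960, nat_lit 1000, nat_lit 200)], (nat_lit 100, nat_lit 93, nat_lit 28)⟩
noncomputable def p001_k33 : C1.Kn := ⟨[nat_lit 100, nat_lit 120, nat_lit 140], [nat_lit 0, nat_lit 0, nat_lit 533], [(nat_lit 0, nat_lit 0, nat_lit 0), (nat_lit 0, nat_lit 0, nat_lit 0), (nat_lit 924, nat_lit 1000, nat_lit 383)], (nat_lit 100, nat_lit 96, nat_lit 28)⟩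
noncomputable def p001_k34 : C1.Kn := ⟨[nat_lit 120, nat_lit 140, nat_lit 160], [nat_lit 0, nat_lit 0, nat_lit 609], [(nat_lit 0, nat_lit 0, nat_lit 0), (nat_lit 0, nat_lit 0, nat_lit 0), (nat_lit 840, nat_lit 1000, nat_lit 400)], (nat_lit 100, nat_lit 90, nat_lit 29)⟩
noncomputable def p001_k35 : C1.Kn := ⟨[nat_lit 100, nat_lit 140], [nat_lit 0, nat_lit 0], [(nat_lit 0, nat_lit 0, nat_lit 0), (nat_lit 0, nat_lit 0, nat_lit 0)], (nat_lit 100, nat_lit 96, nat_lit 28)⟩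
noncomputable def p001_k36 : C1.Kn := ⟨[nat_lit 100, nat_lit 120], [nat_lit 0, nat_lit 0], [(nat_lit 0, nat_lit 0, nat_lit 0), (nat_lit 0, nat_lit 0, nat_lit 0)], (nat_lit 100, nat_lit 98, nat_lit 20)⟩
noncomputable def p001_k37 : C1.Kn := ⟨[nat_lit 120, nat_lit 140], [nat_lit 0, nat_lit 0], [(nat_lit 0, nat_lit 0, nat_lit 0), (nat_lit 0, nat_lit 0, nat_lit 0)], (nat_lit 100, nat_lit 94, nat_lit 20)⟩
noncomputable def p001_k38 : C1.Kn := ⟨[nat_lit 120, nat_lit 160], [nat_lit 0, nat_lit 0], [(nat_lit 0, nat_lit 0, nat_lit 0), (nat_lit 0, nat_lit 0, nat_lit 0)], (nat_lit 100, nat_lit 90, nat_lit 29)⟩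
noncomputable def p001_k39 : C1.Kn := ⟨[nat_lit 100, nat_lit 120, nat_lit 130], [nat_lit 0, nat_lit 0, nat_lit 294], [(nat_lit 0, nat_lit 0, nat_lit 0), (nat_lit 0, nat_lit 0, nat_lit 0), (nat_lit 958, nat_lit 1000, nat_lit 288)], (nat_lit 100, nat_lit 96, nat_lit 28)⟩
noncomputable def p001_k40 : C1.Kn := ⟨[nat_lit 100, nat_lit 110, nat_lit 120], [nat_lit 0, nat_lit 0, nat_lit 129], [(nat_lit 0, nat_lit 0, nat_lit 0), (nat_lit 0, nat_lit 0, nat_lit 0), (nat_lit 981, nat_lit 1000, nat_lit 192)], (nat_lit 100, nat_lit 98, nat_lit 20)⟩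
noncomputable def p001_k41 : C1.Kn := ⟨[nat_lit 120, nat_lit 130, nat_lit 140], [nat_lit 0, nat_lit 0, nat_lit 140], [(nat_lit 0, nat_lit 0, nat_lit 0), (nat_lit 0, nat_lit 0, nat_lit 0), (nat_lit 942, nat_lit 1000, nat_lit 198)], (nat_lit 100, nat_lit 94, nat_lit 20)⟩
noncomputable def p001_k42 : C1.Kn := ⟨[nat_lit 120, nat_lit 130, nat_lit 140], [nat_lit 0, nat_lit 66, nat_lit 206], [(nat_lit 0, nat_lit 0, nat_lit 0), (nat_lit 980, nat_lit 1000, nat_lit 101), (nat_lit 948, nat_lit 1000, nat_lit 208)], (nat_lit 100, nat_lit 95, nat_lit 20)⟩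
noncomputable def p001_k43 : C1.Kn := ⟨[nat_lit 100, nat_lit 120], [nat_lit 0, nat_lit 62], [(nat_lit 0, nat_lit 0, nat_lit 0), (nat_lit 1000, nat_lit 1000, nat_lit 49)], (nat_lit 100, nat_lit 98, nat_lit 20)⟩
noncomputable def p001_k44 : C1.Kn := ⟨[nat_lit 100, nat_lit 110, nat_lit 120], [nat_lit 0, nat_lit 31, nat_lit 161], [(nat_lit 0, nat_lit 0, nat_lit 0), (nat_lit 1000, nat_lit 1000, nat_lit 49), (nat_lit 985, nat_lit 1000, nat_lit 199)], (nat_lit 100, nat_lit 98, nat_lit 20)⟩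
noncomputable def p001_k45 : C1.Kn := ⟨[nat_lit 100, nat_lit 120], [nat_lit 0, nat_lit 128], [(nat_lit 0, nat_lit 0, nat_lit 0), (nat_lit 1000, nat_lit 1000, nat_lit 100)], (nat_lit 100, nat_lit 99, nat_lit 20)⟩
noncomputable def p001_k46 : C1.Kn := ⟨[nat_lit 100, nat_lit 110, nat_lit 120], [nat_lit 0, nat_lit 64, nat_lit 192], [(nat_lit 0, nat_lit 0, nat_lit 0), (nat_lit 1000, nat_lit 1000, nat_lit 100), (nat_lit 990, nat_lit 1000, nat_lit 199)], (nat_lit 100, nat_lit 99, nat_lit 20)⟩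
noncomputable def p001_k47 : C1.Kn := ⟨[nat_lit 100, nat_lit 110, nat_lit 130], [nat_lit 0, nat_lit 0, nat_lit 257], [(nat_lit 0, nat_lit 0, nat_lit 0), (nat_lit 0, nat_lit 0, nat_lit 0), (nat_lit 980, nat_lit 1000, nat_lit 197)], (nat_lit 100, nat_lit 96, nat_lit 28)⟩
noncomputable def p001_k48 : C1.Kn := ⟨[nat_lit 120, nat_lit 130, nat_lit 150], [nat_lit 0, nat_lit 0, nat_lit 281], [(nat_lit 0, nat_lit 0, nat_lit 0), (nat_lit 0, nat_lit 0, nat_lit 0), (nat_lit 938, nat_lit 1000, nat_lit 206)], (nat_lit 100, nat_lit 90, nat_lit 29)⟩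
noncomputable def p001_k49 : C1.Kn := ⟨[nat_lit 120, nat_lit 140, nat_lit 150], [nat_lit 0, nat_lit 0, nat_lit 329], [(nat_lit 0, nat_lit 0, nat_lit 0), (nat_lit 0, nat_lit 0, nat_lit 0), (nat_lit 889, nat_lit 1000, nat_lit 314)], (nat_lit 100, nat_lit 90, nat_lit 29)⟩
noncomputable def p001_k50 : C1.Kn := ⟨[nat_lit 70, nat_lit 90, nat_lit 110, nat_lit 120], [nat_lit 0, nat_lit 0, nat_lit 0, nat_lit 163], [(nat_lit 0, nat_lit 0, nat_lit 0), (nat_lit 0, nat_lit 0, nat_lit 0), (nat_lit 0, nat_lit 0, nat_lit 0), (nat_lit 982, nat_lit 1000, nat_lit 217)], (nat_lit 100, nat_lit 98, nat_lit 20)⟩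
noncomputable def p001_k51 : C1.Kn := ⟨[nat_lit 60, nat_lit 100, nat_lit 120], [nat_lit 0, nat_lit 0, nat_lit 0], [(nat_lit 0, nat_lit 0, nat_lit 0), (nat_lit 0, nat_lit 0, nat_lit 0), (nat_lit 0, nat_lit 0, nat_lit 0)], (nat_lit 100, nat_lit 98, nat_lit 20)⟩
noncomputable def p001_k52 : C1.Kn := ⟨[nat_lit 120, nat_lit 130, nat_lit 140], [nat_lit 0, nat_lit 99, nat_lit 241], [(nat_lit 0, nat_lit 0, nat_lit 0), (nat_lit 971, nat_lit 1000, nat_lit 148), (nat_lit 951, nat_lit 1000, nat_lit 212)], (nat_lit 100, nat_lit 95, nat_lit 20)⟩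
noncomputable def p001_k53 : C1.Kn := ⟨[nat_lit 120, nat_lit 140], [nat_lit 0, nat_lit 132], [(nat_lit 0, nat_lit 0, nat_lit 0), (nat_lit 980, nat_lit 1000, nat_lit 101)], (nat_lit 100, nat_lit 95, nat_lit 20)⟩
noncomputable def p001_k54 : C1.Kn := ⟨[nat_lit 70, nat_lit 90, nat_lit 110, nat_lit 120, nat_lit 130], [nat_lit 0, nat_lit 0, nat_lit 0, nat_lit 201, nat_lit 366], [(nat_lit 0, nat_lit 0, nat_lit 0), (nat_lit 0, nat_lit 0, nat_lit 0), (nat_lit 0, nat_lit 0, nat_lit 0), (nat_lit 982, nat_lit 1000, nat_lit 243), (nat_lit 980, nat_lit 1000, nat_lit 254)], (nat_lit 100, nat_lit 97, nat_lit 28)⟩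
noncomputable def p001_k55 : C1.Kn := ⟨[nat_lit 100, nat_lit 120, nat_lit 140], [nat_lit 0, nat_lit 0, nat_lit 533], [(nat_lit 0, nat_lit 0, nat_lit 0), (nat_lit 0, nat_lit 0, nat_lit 0), (nat_lit 924, nat_lit 1000, nat_lit 383)], (nat_lit 100, nat_lit 92, nat_lit 39)⟩
noncomputable def p001_k56 : C1.Kn := ⟨[nat_lit 120, nat_lit 140, nat_lit 160], [nat_lit 0, nat_lit 266, nat_lit 862], [(nat_lit 0, nat_lit 0, nat_lit 0), (nat_lit 960, nat_lit 1000, nat_lit 200), (nat_lit 874, nat_lit 1000, nat_lit 406)], (nat_lit 100, nat_lit 88, nat_lit 39)⟩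
noncomputable def p001_k57 : C1.Kn := ⟨[nat_lit 100, nat_lit 140], [nat_lit 0, nat_lit 0], [(nat_lit 0, nat_lit 0, nat_lit 0), (nat_lit 0, nat_lit 0, nat_lit 0)], (nat_lit 100, nat_lit 92, nat_lit 39)⟩
noncomputable def p001_k58 : C1.Kn := ⟨[nat_lit 100, nat_lit 120, nat_lit 140], [nat_lit 0, nat_lit 128, nat_lit 655], [(nat_lit 0, nat_lit 0, nat_lit 0), (nat_lit 1000, nat_lit 1000, nat_lit 100), (nat_lit 941, nat_lit 1000, nat_lit 388)], (nat_lit 100, nat_lit 97, nat_lit 28)⟩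
noncomputable def p001_k59 : C1.Kn := ⟨[nat_lit 100, nat_lit 120], [nat_lit 0, nat_lit 192], [(nat_lit 0, nat_lit 0, nat_lit 0), (nat_lit 1000, nat_lit 1000, nat_lit 150)], (nat_lit 100, nat_lit 99, nat_lit 20)⟩
noncomputable def p001_k60 : C1.Kn := ⟨[nat_lit 100, nat_lit 120], [nat_lit 0, nat_lit 230], [(nat_lit 0, nat_lit 0, nat_lit 0), (nat_lit 1000, nat_lit 1000, nat_lit 180)], (nat_lit 100, nat_lit 100, nat_lit 20)⟩
noncomputable def p001_k61 : C1.Kn := ⟨[nat_lit 100, nat_lit 120], [nat_lit 0, nat_lit 242], [(nat_lit 0, nat_lit 0, nat_lit 0), (nat_lit 1000, nat_lit 1000, nat_lit 189)], (nat_lit 100, nat_lit 100, nat_lit 20)⟩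
noncomputable def p001_k62 : C1.Kn := ⟨[nat_lit 100, nat_lit 110, nat_lit 120], [nat_lit 0, nat_lit 121, nat_lit 254], [(nat_lit 0, nat_lit 0, nat_lit 0), (nat_lit 1000, nat_lit 999, nat_lit 181), (nat_lit 998, nat_lit 1000, nat_lit 208)], (nat_lit 100, nat_lit 100, nat_lit 20)⟩
noncomputable def p001_k63 : C1.Kn := ⟨[nat_lit 100, nat_lit 120, nat_lit 140], [nat_lit 0, nat_lit 192, nat_lit 716], [(nat_lit 0, nat_lit 0, nat_lit 0), (nat_lit 1000, nat_lit 1000, nat_lit 150), (nat_lit 951, nat_lit 1000, nat_lit 389)], (nat_lit 100, nat_lit 98, nat_lit 28)⟩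
noncomputable def p001_k64 : C1.Kn := ⟨[nat_lit 100, nat_lit 140], [nat_lit 0, nat_lit 256], [(nat_lit 0, nat_lit 0, nat_lit 0), (nat_lit 1000, nat_lit 1000, nat_lit 100)], (nat_lit 100, nat_lit 97, nat_lit 28)⟩
noncomputable def p001_k65 : C1.Kn := ⟨[nat_lit 100, nat_lit 140], [nat_lit 0, nat_lit 256], [(nat_lit 0, nat_lit 0, nat_lit 0), (nat_lit 1000, nat_lit 1000, nat_lit 100)], (nat_lit 100, nat_lit 94, nat_lit 39)⟩
noncomputable def p001_k66 : C1.Kn := ⟨[nat_lit 100, nat_lit 120, nat_lit 140], [nat_lit 0, nat_lit 128, nat_lit 655], [(nat_lit 0, nat_lit 0, nat_lit 0), (nat_lit 1000, nat_lit 1000, nat_lit 100), (nat_lit 941, nat_lit 1000, nat_lit 388)], (nat_lit 100, nat_lit 94, nat_lit 39)⟩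
noncomputable def p001_k67 : C1.Kn := ⟨[nat_lit 120, nat_lit 140], [nat_lit 0, nat_lit 519], [(nat_lit 0, nat_lit 0, nat_lit 0), (nat_lit 927, nat_lit 1000, nat_lit 371)], (nat_lit 100, nat_lit 98, nat_lit 20)⟩
noncomputable def p001_k68 : C1.Kn := ⟨[nat_lit 100, nat_lit 120], [nat_lit 0, nat_lit 230], [(nat_lit 0, nat_lit 0, nat_lit 0), (nat_lit 1000, nat_lit 1000, nat_lit 180)], (nat_lit 100, nat_lit 99, nat_lit 28)⟩
noncomputable def p001_k69 : C1.Kn := ⟨[nat_lit 100, nat_lit 120, nat_lit 140], [nat_lit 0, nat_lit 192, nat_lit 716], [(nat_lit 0, nat_lit 0, nat_lit 0), (nat_lit 1000, nat_lit 1000, nat_lit 150), (nat_lit 951, nat_lit 1000, nat_lit 389)], (nat_lit 100, nat_lit 95, nat_lit 39)⟩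
noncomputable def p001_k70 : C1.Kn := ⟨[nat_lit 100, nat_lit 120, nat_lit 140], [nat_lit 0, nat_lit 62, nat_lit 594], [(nat_lit 0, nat_lit 0, nat_lit 0), (nat_lit 1000, nat_lit 1000, nat_lit 49), (nat_lit 932, nat_lit 1000, nat_lit 385)], (nat_lit 100, nat_lit 97, nat_lit 28)⟩
noncomputable def p001_k71 : C1.Kn := ⟨[nat_lit 50, nat_lit 100, nat_lit 120, nat_lit 130], [nat_lit 0, nat_lit 0, nat_lit 0, nat_lit 294], [(nat_lit 0, nat_lit 0, nat_lit 0), (nat_lit 0, nat_lit 0, nat_lit 0), (nat_lit 0, nat_lit 0, nat_lit 0), (nat_lit 958, nat_lit 1000, nat_lit 288)], (nat_lit 100, nat_lit 96, nat_lit 28)⟩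
noncomputable def p001_k72 : C1.Kn := ⟨[nat_lit 50, nat_lit 100, nat_lit 120], [nat_lit 0, nat_lit 0, nat_lit 0], [(nat_lit 0, nat_lit 0, nat_lit 0), (nat_lit 0, nat_lit 0, nat_lit 0), (nat_lit 0, nat_lit 0, nat_lit 0)], (nat_lit 100, nat_lit 98, nat_lit 20)⟩
noncomputable def p001_k73 : C1.Kn := ⟨[nat_lit 120, nat_lit 140], [nat_lit 0, nat_lit 266], [(nat_lit 0, nat_lit 0, nat_lit 0), (nat_lit 960, nat_lit 1000, nat_lit 200)], (nat_lit 100, nat_lit 96, nat_lit 20)⟩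
noncomputable def p001_k74 : C1.Kn := ⟨[nat_lit 50, nat_lit 100, nat_lit 120], [nat_lit 0, nat_lit 0, nat_lit 128], [(nat_lit 0, nat_lit 0, nat_lit 0), (nat_lit 0, nat_lit 0, nat_lit 0), (nat_lit 1000, nat_lit 1000, nat_lit 100)], (nat_lit 100, nat_lit 99, nat_lit 20)⟩
noncomputable def p001_k75 : C1.Kn := ⟨[nat_lit 120, nat_lit 140, nat_lit 160], [nat_lit 0, nat_lit 399, nat_lit 991], [(nat_lit 0, nat_lit 0, nat_lit 0), (nat_lit 942, nat_lit 1000, nat_lit 293), (nat_lit 891, nat_lit 1000, nat_lit 412)], (nat_lit 100, nat_lit 90, nat_lit 39)⟩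
noncomputable def p001_k76 : C1.Kn := ⟨[nat_lit 100, nat_lit 120, nat_lit 140], [nat_lit 0, nat_lit 0, nat_lit 533], [(nat_lit 0, nat_lit 0, nat_lit 0), (nat_lit 0, nat_lit 0, nat_lit 0), (nat_lit 924, nat_lit 1000, nat_lit 383)], (nat_lit 100, nat_lit 94, nat_lit 34)⟩
noncomputable def p001_k77 : C1.Kn := ⟨[nat_lit 100, nat_lit 120, nat_lit 140], [nat_lit 0, nat_lit 128, nat_lit 655], [(nat_lit 0, nat_lit 0, nat_lit 0), (nat_lit 1000, nat_lit 1000, nat_lit 100), (nat_lit 941, nat_lit 1000, nat_lit 388)], (nat_lit 100, nat_lit 92, nat_lit 44)⟩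
noncomputable def p001_k78 : C1.Kn := ⟨[nat_lit 100, nat_lit 120, nat_lit 140], [nat_lit 0, nat_lit 192, nat_lit 716], [(nat_lit 0, nat_lit 0, nat_lit 0), (nat_lit 1000, nat_lit 1000, nat_lit 150), (nat_lit 951, nat_lit 1000, nat_lit 389)], (nat_lit 100, nat_lit 93, nat_lit 44)⟩
noncomputable def p001_k79 : C1.Kn := ⟨[nat_lit 100, nat_lit 120, nat_lit 140], [nat_lit 0, nat_lit 230, nat_lit 754], [(nat_lit 0, nat_lit 0, nat_lit 0), (nat_lit 1000, nat_lit 1000, nat_lit 180), (nat_lit 956, nat_lit 1000, nat_lit 391)], (nat_lit 100, nat_lit 94, nat_lit 44)⟩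
noncomputable def p001_k80 : C1.Kn := ⟨[nat_lit 100, nat_lit 120, nat_lit 140], [nat_lit 0, nat_lit 242, nat_lit 767], [(nat_lit 0, nat_lit 0, nat_lit 0), (nat_lit 1000, nat_lit 1000, nat_lit 189), (nat_lit 958, nat_lit 1000, nat_lit 393)], (nat_lit 100, nat_lit 94, nat_lit 44)⟩
noncomputable def p001_k81 : C1.Kn := ⟨[nat_lit 100, nat_lit 120, nat_lit 160], [nat_lit 0, nat_lit 0, nat_lit 1063], [(nat_lit 0, nat_lit 0, nat_lit 0), (nat_lit 0, nat_lit 0, nat_lit 0), (nat_lit 924, nat_lit 1000, nat_lit 383)], (nat_lit 100, nat_lit 90, nat_lit 44)⟩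
noncomputable def p001_k82 : C1.Kn := ⟨[nat_lit 100, nat_lit 140], [nat_lit 0, nat_lit 460], [(nat_lit 0, nat_lit 0, nat_lit 0), (nat_lit 1000, nat_lit 1000, nat_lit 180)], (nat_lit 100, nat_lit 94, nat_lit 44)⟩
noncomputable def p001_k83 : C1.Kn := ⟨[nat_lit 100, nat_lit 140], [nat_lit 0, nat_lit 256], [(nat_lit 0, nat_lit 0, nat_lit 0), (nat_lit 1000, nat_lit 1000, nat_lit 100)], (nat_lit 100, nat_lit 92, nat_lit 44)⟩
noncomputable def p001_k84 : C1.Kn := ⟨[nat_lit 100, nat_lit 110, nat_lit 130], [nat_lit 0, nat_lit 31, nat_lit 290], [(nat_lit 0, nat_lit 0, nat_lit 0), (nat_lit 1000, nat_lit 1000, nat_lit 49), (nat_lit 985, nat_lit 1000, nat_lit 199)], (nat_lit 100, nat_lit 97, nat_lit 28)⟩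
noncomputable def p001_k85 : C1.Kn := ⟨[nat_lit 50, nat_lit 100, nat_lit 120, nat_lit 130], [nat_lit 0, nat_lit 0, nat_lit 192, nat_lit 455], [(nat_lit 0, nat_lit 0, nat_lit 0), (nat_lit 0, nat_lit 0, nat_lit 0), (nat_lit 1000, nat_lit 1000, nat_lit 150), (nat_lit 961, nat_lit 1000, nat_lit 357)], (nat_lit 100, nat_lit 98, nat_lit 28)⟩
noncomputable def p001_k86 : C1.Kn := ⟨[nat_lit 100, nat_lit 110, nat_lit 120], [nat_lit 0, nat_lit 96, nat_lit 224], [(nat_lit 0, nat_lit 0, nat_lit 0), (nat_lit 1000, nat_lit 1000, nat_lit 150), (nat_lit 995, nat_lit 1000, nat_lit 199)], (nat_lit 100, nat_lit 99, nat_lit 20)⟩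
noncomputable def p001_k87 : C1.Kn := ⟨[nat_lit 100, nat_lit 110, nat_lit 120], [nat_lit 0, nat_lit 115, nat_lit 244], [(nat_lit 0, nat_lit 0, nat_lit 0), (nat_lit 1000, nat_lit 1000, nat_lit 180), (nat_lit 998, nat_lit 1000, nat_lit 201)], (nat_lit 100, nat_lit 100, nat_lit 20)⟩
noncomputable def p001_k88 : C1.Kn := ⟨[nat_lit 100, nat_lit 120, nat_lit 130], [nat_lit 0, nat_lit 128, nat_lit 398], [(nat_lit 0, nat_lit 0, nat_lit 0), (nat_lit 1000, nat_lit 1000, nat_lit 100), (nat_lit 958, nat_lit 1000, nat_lit 339)], (nat_lit 100, nat_lit 97, nat_lit 28)⟩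
noncomputable def p001_k89 : C1.Kn := ⟨[nat_lit 100, nat_lit 110, nat_lit 130], [nat_lit 0, nat_lit 64, nat_lit 321], [(nat_lit 0, nat_lit 0, nat_lit 0), (nat_lit 1000, nat_lit 1000, nat_lit 100), (nat_lit 990, nat_lit 1000, nat_lit 199)], (nat_lit 100, nat_lit 97, nat_lit 28)⟩
noncomputable def p001_k90 : C1.Kn := ⟨[nat_lit 100, nat_lit 120, nat_lit 140], [nat_lit 0, nat_lit 204, nat_lit 729], [(nat_lit 0, nat_lit 0, nat_lit 0), (nat_lit 1000, nat_lit 1000, nat_lit 159), (nat_lit 952, nat_lit 1000, nat_lit 390)], (nat_lit 100, nat_lit 95, nat_lit 39)⟩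
noncomputable def p001_k91 : C1.Kn := ⟨[nat_lit 100, nat_lit 120, nat_lit 140], [nat_lit 0, nat_lit 204, nat_lit 729], [(nat_lit 0, nat_lit 0, nat_lit 0), (nat_lit 1000, nat_lit 1000, nat_lit 159), (nat_lit 952, nat_lit 1000, nat_lit 390)], (nat_lit 100, nat_lit 97, nat_lit 34)⟩
noncomputable def p001_k92 : C1.Kn := ⟨[nat_lit 100, nat_lit 120, nat_lit 130], [nat_lit 0, nat_lit 204, nat_lit 467], [(nat_lit 0, nat_lit 0, nat_lit 0), (nat_lit 1000, nat_lit 1000, nat_lit 159), (nat_lit 962, nat_lit 1000, nat_lit 361)], (nat_lit 100, nat_lit 97, nat_lit 34)⟩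
noncomputable def p001_k93 : C1.Kn := ⟨[nat_lit 60, nat_lit 100, nat_lit 120, nat_lit 140], [nat_lit 0, nat_lit 0, nat_lit 204, nat_lit 729], [(nat_lit 0, nat_lit 0, nat_lit 0), (nat_lit 0, nat_lit 0, nat_lit 0), (nat_lit 1000, nat_lit 1000, nat_lit 159), (nat_lit 952, nat_lit 1000, nat_lit 390)], (nat_lit 100, nat_lit 95, nat_lit 39)⟩
noncomputable def p001_k94 : C1.Kn := ⟨[nat_lit 100, nat_lit 120, nat_lit 140], [nat_lit 0, nat_lit 216, nat_lit 742], [(nat_lit 0, nat_lit 0, nat_lit 0), (nat_lit 1000, nat_lit 1000, nat_lit 168), (nat_lit 954, nat_lit 1000, nat_lit 392)], (nat_lit 100, nat_lit 95, nat_lit 39)⟩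
noncomputable def p001_k95 : C1.Kn := ⟨[nat_lit 100, nat_lit 120, nat_lit 130], [nat_lit 0, nat_lit 216, nat_lit 480], [(nat_lit 0, nat_lit 0, nat_lit 0), (nat_lit 1000, nat_lit 1000, nat_lit 168), (nat_lit 958, nat_lit 1000, nat_lit 379)], (nat_lit 100, nat_lit 97, nat_lit 34)⟩
noncomputable def p001_k96 : C1.Kn := ⟨[nat_lit 100, nat_lit 120, nat_lit 140], [nat_lit 0, nat_lit 216, nat_lit 742], [(nat_lit 0, nat_lit 0, nat_lit 0), (nat_lit 1000, nat_lit 1000, nat_lit 168), (nat_lit 954, nat_lit 1000, nat_lit 392)], (nat_lit 100, nat_lit 97, nat_lit 34)⟩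
noncomputable def p001_k97 : C1.Kn := ⟨[nat_lit 60, nat_lit 100, nat_lit 120, nat_lit 140], [nat_lit 0, nat_lit 0, nat_lit 216, nat_lit 742], [(nat_lit 0, nat_lit 0, nat_lit 0), (nat_lit 0, nat_lit 0, nat_lit 0), (nat_lit 1000, nat_lit 1000, nat_lit 168), (nat_lit 954, nat_lit 1000, nat_lit 392)], (nat_lit 100, nat_lit 95, nat_lit 39)⟩
noncomputable def p001_l0 : Lf2 := ⟨nat_lit 1, nat_lit 2, [nat_lit 10, nat_lit 5, nat_lit 5, nat_lit 20], false, nat_lit 0, nat_lit 0, nat_lit 0, nat_lit 0, zbN0,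
 nat_lit 0, nat_lit 0, nat_lit 0, nat_lit 0, nat_lit 0, nat_lit 0, nat_lit 0, nat_lit 0, nat_lit 0, nat_lit 0, nat_lit 0, nat_lit 0, nat_lit 0, nat_lit 0, nat_lit 0, nat_lit 0, nat_lit 0, nat_lit 0, [],
 C1.Rw.none, C1.Rw.none,
 zbF0, []⟩
noncomputable def p001_l1 : Lf2 := ⟨nat_lit 0, nat_lit 2, [nat_lit 10, nat_lit 5, nat_lit 5, nat_lit 20], false, nat_lit 0, nat_lit 0, nat_lit 0, nat_lit 0, ⟨nat_lit 1000, nat_lit 0, nat_lit 0, nat_lit 0, nat_lit 0, nat_lit 0, nat_lit 0, nat_lit 0, nat_lit 0, nat_lit 0, nat_lit 0, nat_lit 0, nat_lit 0, nat_lit 0, nat_lit 0, nat_lit 0, false, false⟩,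
 nat_lit 0, nat_lit 38679, nat_lit 0, nat_lit 0, nat_lit 15636, nat_lit 0, nat_lit 7090, nat_lit 0, nat_lit 0, nat_lit 0, nat_lit 0, nat_lit 469, nat_lit 0, nat_lit 0, nat_lit 0, nat_lit 0, nat_lit 0, nat_lit 0, [],
 ⟨p001_k0, nat_lit 0, nat_lit 0, nat_lit 0, nat_lit 0, nat_lit 61990, [nat_lit 3282000000, nat_lit 5449500000, nat_lit 7968000001, nat_lit 9842000000], [], [nat_lit 25985468126, nat_lit 26555199906, nat_lit 15105247902, nat_lit 15667750658], nat_lit 1271250, nat_lit 1271250, nat_lit 0, nat_lit 490000, nat_lit 0, nat_lit 0, [nat_lit 780000, nat_lit 1271250, nat_lit 1271250, nat_lit 1271250], [nat_lit 52, nat_lit 40, nat_lit 20, nat_lit 80]⟩, ⟨p001_k1, nat_lit 0, nat_lit 0, nat_lit 0, nat_lit 0, nat_lit 0, [nat_lit 3282000000, nat_lit 5449500000, nat_lit 7968000000, nat_lit 9842000000], [], [nat_lit 3726516000, nat_lit 4468852000, nat_lit 5212780000, nat_lit 5944040000], nat_lit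 0, nat_lit 0, nat_lit 0, nat_lit 0, nat_lit 0, nat_lit 0, [], [nat_lit 52, nat_lit 40, nat_lit 20, nat_lit 80]⟩,
 zbF0, []⟩
noncomputable def p001_l2 : Lf2 := ⟨nat_lit 0, nat_lit 2, [nat_lit 10, nat_lit 5, nat_lit 5, nat_lit 20], false, nat_lit 0, nat_lit 0, nat_lit 0, nat_lit 0, ⟨nat_lit 1000, nat_lit 0, nat_lit 0, nat_lit 0, nat_lit 0, nat_lit 0, nat_lit 0, nat_lit 0, nat_lit 0, nat_lit 0, nat_lit 0, nat_lit 0, nat_lit 0, nat_lit 0, nat_lit 0, nat_lit 0, false, false⟩,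
 nat_lit 0, nat_lit 5877, nat_lit 0, nat_lit 6372, nat_lit 2375, nat_lit 4903, nat_lit 0, nat_lit 0, nat_lit 0, nat_lit 0, nat_lit 0, nat_lit 0, nat_lit 0, nat_lit 0, nat_lit 0, nat_lit 0, nat_lit 0, nat_lit 0, [],
 ⟨p001_k0, nat_lit 0, nat_lit 0, nat_lit 0, nat_lit 0, nat_lit 132659, [nat_lit 3282000000, nat_lit 5449500000, nat_lit 7968000001, nat_lit 9842000000], [], [nat_lit 37550353251, nat_lit 37836805501, nat_lit 40557278125, nat_lit 39973952000], nat_lit 1271250, nat_lit 1271250, nat_lit 490000, nat_lit 1100001, nat_lit 0, nat_lit 0, [nat_lit 780000, nat_lit 1271250, nat_lit 1271250, nat_lit 1271250], [nat_lit 52, nat_lit 40, nat_lit 20, nat_lit 80]⟩, ⟨p001_k1, nat_lit 0, nat_lit 0, nat_lit 0, nat_lit 0, nat_lit 0, [nat_lit 3282000000, nat_lit 5449500000, nat_lit 7968000000, nat_lit 9842000000], [], [nat_lit 4946461588, nat_lit 6217336416, nat_lit 6987697482, nat_lit 8203075880],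 nat_lit 0, nat_lit 0, nat_lit 0, nat_lit 0, nat_lit 0, nat_lit 0, [], [nat_lit 52, nat_lit 40, nat_lit 20, nat_lit 80]⟩,
 zbF0, []⟩
noncomputable def p001_l3 : Lf2 := ⟨nat_lit 0, nat_lit 2, [nat_lit 10, nat_lit 5, nat_lit 5, nat_lit 20], false, nat_lit 0, nat_lit 0, nat_lit 0, nat_lit 0, ⟨nat_lit 1000, nat_lit 0, nat_lit 0, nat_lit 0, nat_lit 0, nat_lit 0, nat_lit 0, nat_lit 0, nat_lit 0, nat_lit 0, nat_lit 0, nat_lit 0, nat_lit 0, nat_lit 0, nat_lit 0, nat_lit 0, false, false⟩,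
 nat_lit 0, nat_lit 300000, nat_lit 0, nat_lit 0, nat_lit 121276, nat_lit 0, nat_lit 6589, nat_lit 3400, nat_lit 0, nat_lit 60000, nat_lit 0, nat_lit 584, nat_lit 0, nat_lit 305346643848378, nat_lit 0, nat_lit 0, nat_lit 0, nat_lit 0, [],
 ⟨p001_k2, nat_lit 0, nat_lit 0, nat_lit 0, nat_lit 0, nat_lit 61990, [nat_lit 74250000000, nat_lit 89568000000, nat_lit 105042000000], [], [nat_lit 218633703372, nat_lit 187054767008, nat_lit 210303313496, nat_lit 179646923664], nat_lit 1271250, nat_lit 1271250, nat_lit 0, nat_lit 490000, nat_lit 0, nat_lit 0, [nat_lit 1412500, nat_lit 1271250, nat_lit 1271250], [nat_lit 25, nat_lit 40, nat_lit 20, nat_lit 40]⟩, ⟨p001_k3, nat_lit 0, nat_lit 0, nat_lit 0, nat_lit 0, nat_lit 0, [nat_lit 2637500000, nat_lit 7089500000, nat_lit 8885500000, nat_lit 9842000000], [], [nat_lit 3777940000, nat_lit 4466004000, nat_lit 5208666000, nat_lit 5881644000], nat_lit 0,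 nat_lit 0, nat_lit 0, nat_lit 0, nat_lit 0, nat_lit 0, [], [nat_lit 216, nat_lit 40, nat_lit 20, nat_lit 40]⟩,
 zbF0, []⟩
noncomputable def p001_l4 : Lf2 := ⟨nat_lit 0, nat_lit 2, [nat_lit 10, nat_lit 5, nat_lit 5, nat_lit 20], false, nat_lit 0, nat_lit 0, nat_lit 0, nat_lit 0, ⟨nat_lit 1000, nat_lit 0, nat_lit 0, nat_lit 0, nat_lit 0, nat_lit 0, nat_lit 0, nat_lit 0, nat_lit 0, nat_lit 0, nat_lit 0, nat_lit 0, nat_lit 0, nat_lit 0, nat_lit 0, nat_lit 0, false, false⟩,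
 nat_lit 0, nat_lit 300000, nat_lit 0, nat_lit 0, nat_lit 121276, nat_lit 4903, nat_lit 60000, nat_lit 16777, nat_lit 0, nat_lit 31526, nat_lit 0, nat_lit 0, nat_lit 0, nat_lit 318143080175283, nat_lit 0, nat_lit 0, nat_lit 0, nat_lit 0, [],
 ⟨p001_k4, nat_lit 0, nat_lit 0, nat_lit 0, nat_lit 0, nat_lit 132659, [nat_lit 376183500000, nat_lit 445087500001, nat_lit 479598000000], [], [nat_lit 989731078284, nat_lit 957185847553, nat_lit 931456701297, nat_lit 931691224225], nat_lit 1271250, nat_lit 1271250, nat_lit 490000, nat_lit 1100001, nat_lit 0, nat_lit 0, [nat_lit 1553750, nat_lit 1271250, nat_lit 1271250], [nat_lit 221, nat_lit 40, nat_lit 20, nat_lit 40]⟩, ⟨p001_k5, nat_lit 0, nat_lit 0, nat_lit 0, nat_lit 0, nat_lit 0, [nat_lit 3282000000, nat_lit 7089500000, nat_lit 8885500000, nat_lit 9842000000], [], [nat_lit 4946461588, nat_lit 6217336416, nat_lit 6987697482, nat_lit 8203075880],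 nat_lit 0, nat_lit 0, nat_lit 0, nat_lit 0, nat_lit 0, nat_lit 0, [], [nat_lit 218, nat_lit 40, nat_lit 20, nat_lit 40]⟩,
 zbF0, []⟩
noncomputable def p001_l5 : Lf2 := ⟨nat_lit 2, nat_lit 2, [nat_lit 10, nat_lit 5, nat_lit 5, nat_lit 20], true, nat_lit 0, nat_lit 0, nat_lit 0, nat_lit 0, zbN0,
 nat_lit 0, nat_lit 0, nat_lit 0, nat_lit 0, nat_lit 0, nat_lit 0, nat_lit 0, nat_lit 0, nat_lit 0, nat_lit 0, nat_lit 0, nat_lit 0, nat_lit 0, nat_lit 0, nat_lit 0, nat_lit 0, nat_lit 0, nat_lit 0, [],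
 ⟨p001_k6, nat_lit 0, nat_lit 0, nat_lit 350, nat_lit 0, nat_lit 132659, [], [], [], nat_lit 1271250, nat_lit 1271250, nat_lit 0, nat_lit 1100001, nat_lit 0, nat_lit 0, [nat_lit 1695000, nat_lit 1271250], [nat_lit 77, nat_lit 40, nat_lit 20, nat_lit 80, nat_lit 17, nat_lit 317, nat_lit 100, nat_lit 10]⟩, C1.Rw.none,
 zbF0, []⟩
noncomputable def p001_l6 : Lf2 := ⟨nat_lit 0, nat_lit 2, [nat_lit 10, nat_lit 5, nat_lit 5, nat_lit 20], false, nat_lit 0, nat_lit 0, nat_lit 0, nat_lit 0, ⟨nat_lit 1000, nat_lit 0, nat_lit 0, nat_lit 0, nat_lit 0, nat_lit 0, nat_lit 0, nat_lit 0, nat_lit 0, nat_lit 0, nat_lit 0, nat_lit 0, nat_lit 0, nat_lit 0, nat_lit 0, nat_lit 0, false, false⟩,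
 nat_lit 0, nat_lit 38679, nat_lit 0, nat_lit 0, nat_lit 15636, nat_lit 3727, nat_lit 7090, nat_lit 0, nat_lit 0, nat_lit 0, nat_lit 0, nat_lit 0, nat_lit 0, nat_lit 0, nat_lit 0, nat_lit 0, nat_lit 0, nat_lit 0, [],
 ⟨p001_k0, nat_lit 0, nat_lit 0, nat_lit 0, nat_lit 0, nat_lit 61990, [nat_lit 3282000000, nat_lit 5449500000, nat_lit 7968000001, nat_lit 9842000000], [], [nat_lit 25985468126, nat_lit 26555199906, nat_lit 15105247902, nat_lit 15667750658], nat_lit 1271250, nat_lit 1271250, nat_lit 0, nat_lit 490000, nat_lit 0, nat_lit 0, [nat_lit 780000, nat_lit 1271250, nat_lit 1271250, nat_lit 1271250], [nat_lit 52, nat_lit 40, nat_lit 20, nat_lit 80]⟩, ⟨p001_k1, nat_lit 0, nat_lit 0, nat_lit 0, nat_lit 0, nat_lit 0, [nat_lit 3282000000, nat_lit 5449500000, nat_lit 7968000000, nat_lit 9842000000], [], [nat_lit 8675159820, nat_lit 9729966120, nat_lit 6325817660, nat_lit 7501678944], nat_lit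 0, nat_lit 0, nat_lit 0, nat_lit 0, nat_lit 0, nat_lit 0, [], [nat_lit 52, nat_lit 40, nat_lit 20, nat_lit 80]⟩,
 zbF0, []⟩
noncomputable def p001_l7 : Lf2 := ⟨nat_lit 0, nat_lit 2, [nat_lit 10, nat_lit 5, nat_lit 5, nat_lit 20], false, nat_lit 0, nat_lit 0, nat_lit 0, nat_lit 0, ⟨nat_lit 1000, nat_lit 0, nat_lit 0, nat_lit 0, nat_lit 0, nat_lit 0, nat_lit 0, nat_lit 0, nat_lit 0, nat_lit 0, nat_lit 0, nat_lit 0, nat_lit 0, nat_lit 0, nat_lit 0, nat_lit 0, false, false⟩,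
 nat_lit 0, nat_lit 12765, nat_lit 0, nat_lit 12941, nat_lit 5160, nat_lit 0, nat_lit 4552, nat_lit 0, nat_lit 0, nat_lit 0, nat_lit 0, nat_lit 800, nat_lit 0, nat_lit 0, nat_lit 0, nat_lit 0, nat_lit 0, nat_lit 906284000, [],
 ⟨p001_k0, nat_lit 0, nat_lit 0, nat_lit 0, nat_lit 0, nat_lit 22234, [nat_lit 3282000000, nat_lit 5449500000, nat_lit 7968000001, nat_lit 9842000000], [], [nat_lit 20599423960, nat_lit 20820317081, nat_lit 17991705761, nat_lit 18239670321], nat_lit 1271250, nat_lit 1271250, nat_lit 0, nat_lit 490000, nat_lit 0, nat_lit 0, [nat_lit 780000, nat_lit 1271250, nat_lit 1271250, nat_lit 1271250], [nat_lit 52, nat_lit 40, nat_lit 20, nat_lit 80]⟩, ⟨p001_k1, nat_lit 0, nat_lit 0, nat_lit 0, nat_lit 0, nat_lit 0, [nat_lit 3282000000, nat_lit 5449500000, nat_lit 7968000000, nat_lit 9842000000], [], [nat_lit 0, nat_lit 536379000, nat_lit 1469506000, nat_lit 1994828500], nat_lit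 0, nat_lit 0, nat_lit 0, nat_lit 0, nat_lit 0, nat_lit 0, [], [nat_lit 52, nat_lit 40, nat_lit 20, nat_lit 80]⟩,
 zbF0, []⟩
noncomputable def p001_l8 : Lf2 := ⟨nat_lit 0, nat_lit 1, [nat_lit 19, nat_lit 5, nat_lit 5, nat_lit 20], false, nat_lit 0, nat_lit 0, nat_lit 0, nat_lit 0, ⟨nat_lit 1000, nat_lit 0, nat_lit 0, nat_lit 0, nat_lit 0, nat_lit 0, nat_lit 0, nat_lit 0, nat_lit 0, nat_lit 0, nat_lit 0, nat_lit 0, nat_lit 0, nat_lit 0, nat_lit 0, nat_lit 0, false, false⟩,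
 nat_lit 0, nat_lit 37672, nat_lit 0, nat_lit 0, nat_lit 15685, nat_lit 0, nat_lit 6097, nat_lit 0, nat_lit 0, nat_lit 0, nat_lit 0, nat_lit 793, nat_lit 0, nat_lit 0, nat_lit 0, nat_lit 0, nat_lit 0, nat_lit 740886000, [],
 ⟨p001_k7, nat_lit 0, nat_lit 0, nat_lit 0, nat_lit 0, nat_lit 43721, [nat_lit 3282000000, nat_lit 5449500000, nat_lit 7968000001, nat_lit 9842000000], [], [nat_lit 26249917505, nat_lit 26421099508, nat_lit 15327735320, nat_lit 15496749585], nat_lit 1271250, nat_lit 1271250, nat_lit 0, nat_lit 490000, nat_lit 0, nat_lit 0, [nat_lit 780000, nat_lit 1271250, nat_lit 1271250, nat_lit 1271250], [nat_lit 52, nat_lit 40, nat_lit 20, nat_lit 80]⟩, ⟨p001_k8, nat_lit 0, nat_lit 0, nat_lit 0, nat_lit 0, nat_lit 0, [nat_lit 3282000000, nat_lit 5449500000, nat_lit 7968000000, nat_lit 9842000000], [], [nat_lit 0, nat_lit 605223000, nat_lit 1430108000, nat_lit 2060495000], nat_lit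 0, nat_lit 0, nat_lit 0, nat_lit 0, nat_lit 0, nat_lit 0, [], [nat_lit 52, nat_lit 40, nat_lit 20, nat_lit 80]⟩,
 zbF0, []⟩
noncomputable def p001_l9 : Lf2 := ⟨nat_lit 0, nat_lit 1, [nat_lit 19, nat_lit 5, nat_lit 5, nat_lit 20], false, nat_lit 0, nat_lit 0, nat_lit 0, nat_lit 0, ⟨nat_lit 1000, nat_lit 0, nat_lit 0, nat_lit 0, nat_lit 0, nat_lit 0, nat_lit 0, nat_lit 0, nat_lit 0, nat_lit 0, nat_lit 0, nat_lit 0, nat_lit 0, nat_lit 0, nat_lit 0, nat_lit 0, false, false⟩,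
 nat_lit 0, nat_lit 29380, nat_lit 0, nat_lit 0, nat_lit 12447, nat_lit 0, nat_lit 8589, nat_lit 0, nat_lit 0, nat_lit 0, nat_lit 0, nat_lit 584, nat_lit 0, nat_lit 0, nat_lit 0, nat_lit 0, nat_lit 0, nat_lit 0, [],
 ⟨p001_k9, nat_lit 0, nat_lit 0, nat_lit 0, nat_lit 0, nat_lit 57753, [nat_lit 7089500001, nat_lit 8885500000], [], [nat_lit 21949161492, nat_lit 22050361781, nat_lit 20936660211, nat_lit 20268333482], nat_lit 1271250, nat_lit 1271250, nat_lit 0, nat_lit 490000, nat_lit 0, nat_lit 0, [nat_lit 1553750, nat_lit 1271250], [nat_lit 162, nat_lit 40, nat_lit 20, nat_lit 40]⟩, ⟨p001_k10, nat_lit 0, nat_lit 0, nat_lit 0, nat_lit 0, nat_lit 0, [nat_lit 7089500000, nat_lit 8885500000], [], [nat_lit 3777940000, nat_lit 4466004000, nat_lit 5208666000, nat_lit 5881644000], nat_lit 0, nat_lit 0, nat_lit 0, nat_lit 0, nat_lit 0, nat_lit 0, [], [nat_lit 162, nat_lit 40, nat_lit 20, nat_lit 40]⟩,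
 zbF0, []⟩
noncomputable def p001_l10 : Lf2 := ⟨nat_lit 0, nat_lit 2, [nat_lit 10, nat_lit 5, nat_lit 5, nat_lit 20], false, nat_lit 0, nat_lit 0, nat_lit 0, nat_lit 0, ⟨nat_lit 1000, nat_lit 0, nat_lit 0, nat_lit 0, nat_lit 0, nat_lit 0, nat_lit 0, nat_lit 0, nat_lit 0, nat_lit 0, nat_lit 0, nat_lit 0, nat_lit 0, nat_lit 0, nat_lit 0, nat_lit 0, false, false⟩,
 nat_lit 0, nat_lit 12379, nat_lit 0, nat_lit 12285, nat_lit 5154, nat_lit 0, nat_lit 3868, nat_lit 0, nat_lit 0, nat_lit 0, nat_lit 0, nat_lit 792, nat_lit 0, nat_lit 0, nat_lit 0, nat_lit 0, nat_lit 0, nat_lit 716886000, [],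
 ⟨p001_k11, nat_lit 0, nat_lit 0, nat_lit 0, nat_lit 0, nat_lit 1601, [nat_lit 3282000000, nat_lit 5449500000, nat_lit 7968000001, nat_lit 9842000000], [], [nat_lit 20857419295, nat_lit 21077359913, nat_lit 18248615109, nat_lit 18496473073], nat_lit 1271250, nat_lit 1271250, nat_lit 0, nat_lit 490000, nat_lit 0, nat_lit 0, [nat_lit 780000, nat_lit 1271250, nat_lit 1271250, nat_lit 1271250], [nat_lit 52, nat_lit 40, nat_lit 20, nat_lit 80]⟩, ⟨p001_k1, nat_lit 0, nat_lit 0, nat_lit 0, nat_lit 0, nat_lit 0, [nat_lit 3282000000, nat_lit 5449500000, nat_lit 7968000000, nat_lit 9842000000], [], [nat_lit 0, nat_lit 672470000, nat_lit 1424108000, nat_lit 2124538000], nat_lit 0, nat_lit 0, nat_lit 0, nat_lit 0, nat_lit 0, nat_lit 0, [], [nat_lit 52, nat_lit 40, nat_lit 20, nat_lit 80]⟩,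
 zbF0, []⟩
noncomputable def p001_l11 : Lf2 := ⟨nat_lit 0, nat_lit 2, [nat_lit 10, nat_lit 5, nat_lit 5, nat_lit 20], false, nat_lit 0, nat_lit 0, nat_lit 0, nat_lit 0, ⟨nat_lit 1000, nat_lit 0, nat_lit 0, nat_lit 0, nat_lit 0, nat_lit 0, nat_lit 0, nat_lit 0, nat_lit 0, nat_lit 0, nat_lit 0, nat_lit 0, nat_lit 0, nat_lit 0, nat_lit 0, nat_lit 0, false, false⟩,
 nat_lit 0, nat_lit 6338, nat_lit 0, nat_lit 0, nat_lit 2562, nat_lit 206823, nat_lit 0, nat_lit 0, nat_lit 0, nat_lit 0, nat_lit 20000, nat_lit 0, nat_lit 0, nat_lit 24059618352081, nat_lit 0, nat_lit 0, nat_lit 0, nat_lit 8583658038, [],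
 ⟨p001_k0, nat_lit 0, nat_lit 0, nat_lit 0, nat_lit 0, nat_lit 132659, [nat_lit 3282000000, nat_lit 5449500000, nat_lit 7968000001, nat_lit 9842000000], [], [nat_lit 37981309262, nat_lit 37289802825, nat_lit 40487931606, nat_lit 39858676224], nat_lit 1271250, nat_lit 1271250, nat_lit 490000, nat_lit 1100001, nat_lit 0, nat_lit 0, [nat_lit 780000, nat_lit 1271250, nat_lit 1271250, nat_lit 1271250], [nat_lit 52, nat_lit 40, nat_lit 20, nat_lit 80]⟩, ⟨p001_k1, nat_lit 0, nat_lit 0, nat_lit 0, nat_lit 0, nat_lit 0, [nat_lit 243282000000, nat_lit 365449500000, nat_lit 487968000000, nat_lit 569842000000], [], [nat_lit 11590879946, nat_lit 34278508694, nat_lit 0, nat_lit 22551457118], nat_lit 0, nat_lit 0, nat_lit 0, nat_lit 0, nat_lit 0, nat_lit 0, [], [nat_lit 52, nat_lit 40, nat_lit 20, nat_lit 80]⟩,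
 zbF0, []⟩
noncomputable def p001_l12 : Lf2 := ⟨nat_lit 0, nat_lit 2, [nat_lit 10, nat_lit 5, nat_lit 5, nat_lit 20], false, nat_lit 0, nat_lit 0, nat_lit 0, nat_lit 0, ⟨nat_lit 1000, nat_lit 0, nat_lit 0, nat_lit 0, nat_lit 0, nat_lit 0, nat_lit 0, nat_lit 0, nat_lit 0, nat_lit 0, nat_lit 0, nat_lit 0, nat_lit 0, nat_lit 0, nat_lit 0, nat_lit 0, false, false⟩,
 nat_lit 0, nat_lit 300000, nat_lit 0, nat_lit 0, nat_lit 121276, nat_lit 0, nat_lit 0, nat_lit 4427, nat_lit 0, nat_lit 60000, nat_lit 0, nat_lit 584, nat_lit 0, nat_lit 308016012285030, nat_lit 0, nat_lit 0, nat_lit 0, nat_lit 0, [],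
 ⟨p001_k2, nat_lit 0, nat_lit 0, nat_lit 0, nat_lit 0, nat_lit 61990, [nat_lit 94790000001, nat_lit 114216000000, nat_lit 133798000000], [], [nat_lit 280253703375, nat_lit 248674767011, nat_lit 271923313499, nat_lit 241266923667], nat_lit 1271250, nat_lit 1271250, nat_lit 0, nat_lit 490000, nat_lit 0, nat_lit 0, [nat_lit 1412500, nat_lit 1271250, nat_lit 1271250], [nat_lit 25, nat_lit 40, nat_lit 20, nat_lit 40]⟩, ⟨p001_k3, nat_lit 0, nat_lit 0, nat_lit 0, nat_lit 0, nat_lit 0, [nat_lit 2637500000, nat_lit 7089500000, nat_lit 8885500000, nat_lit 9842000000], [], [nat_lit 3777940000, nat_lit 4466004000, nat_lit 5208666000, nat_lit 5881644000], nat_lit 0, nat_lit 0, nat_lit 0, nat_lit 0, nat_lit 0, nat_lit 0, [], [nat_lit 216, nat_lit 40, nat_lit 20, nat_lit 40]⟩,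
 zbF0, []⟩
noncomputable def p001_l13 : Lf2 := ⟨nat_lit 0, nat_lit 2, [nat_lit 10, nat_lit 5, nat_lit 5, nat_lit 20], false, nat_lit 0, nat_lit 0, nat_lit 0, nat_lit 0, ⟨nat_lit 1000, nat_lit 0, nat_lit 0, nat_lit 0, nat_lit 0, nat_lit 0, nat_lit 0, nat_lit 0, nat_lit 0, nat_lit 0, nat_lit 0, nat_lit 0, nat_lit 0, nat_lit 0, nat_lit 0, nat_lit 0, false, false⟩,
 nat_lit 0, nat_lit 300000, nat_lit 0, nat_lit 0, nat_lit 121276, nat_lit 300000, nat_lit 60000, nat_lit 18116, nat_lit 0, nat_lit 31656, nat_lit 10445, nat_lit 0, nat_lit 0, nat_lit 400000000000000, nat_lit 0, nat_lit 0, nat_lit 0, nat_lit 23733548000, [],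
 ⟨p001_k12, nat_lit 0, nat_lit 0, nat_lit 0, nat_lit 0, nat_lit 132659, [nat_lit 405641500001, nat_lit 442752000000, nat_lit 517090000000], [], [nat_lit 1048647078286, nat_lit 1016089787458, nat_lit 991921487122, nat_lit 992469933954], nat_lit 1271250, nat_lit 1271250, nat_lit 490000, nat_lit 1100001, nat_lit 0, nat_lit 0, [nat_lit 1553750, nat_lit 1271250, nat_lit 1271250], [nat_lit 220, nat_lit 40, nat_lit 20, nat_lit 40]⟩, ⟨p001_k13, nat_lit 0, nat_lit 0, nat_lit 0, nat_lit 0, nat_lit 0, [nat_lit 236879500000, nat_lit 258648000000, nat_lit 302302000000], [], [nat_lit 31855614000, nat_lit 58416240000, nat_lit 0, nat_lit 22272180000], nat_lit 0, nat_lit 0, nat_lit 0, nat_lit 0, nat_lit 0, nat_lit 0, [], [nat_lit 220, nat_lit 40, nat_lit 20, nat_lit 40]⟩,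
 zbF0, []⟩
noncomputable def p001_l14 : Lf2 := ⟨nat_lit 2, nat_lit 2, [nat_lit 10, nat_lit 5, nat_lit 5, nat_lit 20], true, nat_lit 0, nat_lit 0, nat_lit 0, nat_lit 0, zbN0,
 nat_lit 0, nat_lit 0, nat_lit 0, nat_lit 0, nat_lit 0, nat_lit 0, nat_lit 0, nat_lit 0, nat_lit 0, nat_lit 0, nat_lit 0, nat_lit 0, nat_lit 0, nat_lit 0, nat_lit 0, nat_lit 0, nat_lit 0, nat_lit 0, [],
 ⟨p001_k6, nat_lit 0, nat_lit 0, nat_lit 350, nat_lit 0, nat_lit 132659, [], [], [], nat_lit 1271250, nat_lit 1271250, nat_lit 0, nat_lit 1100001, nat_lit 0, nat_lit 0, [nat_lit 1695000, nat_lit 1271250], [nat_lit 77, nat_lit 40, nat_lit 20, nat_lit 80, nat_lit 17, nat_lit 317, nat_lit 100, nat_lit 10]⟩, C1.Rw.none,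
 zbF0, []⟩
noncomputable def p001_l15 : Lf2 := ⟨nat_lit 0, nat_lit 1, [nat_lit 19, nat_lit 5, nat_lit 5, nat_lit 20], false, nat_lit 0, nat_lit 0, nat_lit 0, nat_lit 0, ⟨nat_lit 1000, nat_lit 0, nat_lit 0, nat_lit 0, nat_lit 0, nat_lit 0, nat_lit 0, nat_lit 0, nat_lit 0, nat_lit 0, nat_lit 0, nat_lit 0, nat_lit 0, nat_lit 0, nat_lit 0, nat_lit 0, false, false⟩,
 nat_lit 0, nat_lit 12750, nat_lit 0, nat_lit 36241, nat_lit 5154, nat_lit 5166, nat_lit 4518, nat_lit 0, nat_lit 0, nat_lit 6878, nat_lit 0, nat_lit 0, nat_lit 0, nat_lit 0, nat_lit 0, nat_lit 0, nat_lit 0, nat_lit 0, [],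
 ⟨p001_k14, nat_lit 0, nat_lit 0, nat_lit 0, nat_lit 0, nat_lit 23338, [nat_lit 3282000000, nat_lit 5449500000, nat_lit 7968000001, nat_lit 9842000000], [], [nat_lit 20636986324, nat_lit 21077359913, nat_lit 18000757145, nat_lit 18496473073], nat_lit 1271250, nat_lit 1271250, nat_lit 0, nat_lit 490000, nat_lit 0, nat_lit 0, [nat_lit 780000, nat_lit 1271250, nat_lit 1271250, nat_lit 1271250], [nat_lit 52, nat_lit 40, nat_lit 20, nat_lit 80]⟩, ⟨p001_k8, nat_lit 0, nat_lit 0, nat_lit 0, nat_lit 0, nat_lit 0, [nat_lit 3282000000, nat_lit 5449500000, nat_lit 7968000000, nat_lit 9842000000], [], [nat_lit 20122758928, nat_lit 20563060318, nat_lit 17486512064, nat_lit 17982654376], nat_lit 0, nat_lit 0, nat_lit 0, nat_lit 0, nat_lit 0, nat_lit 0, [], [nat_lit 52, nat_lit 40, nat_lit 20, nat_lit 80]⟩,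
 zbF0, []⟩
noncomputable def p001_l16 : Lf2 := ⟨nat_lit 3, nat_lit 1, [nat_lit 19, nat_lit 5, nat_lit 5, nat_lit 20], false, nat_lit 0, nat_lit 0, nat_lit 0, nat_lit 0, zbN0,
 nat_lit 0, nat_lit 0, nat_lit 0, nat_lit 0, nat_lit 0, nat_lit 0, nat_lit 0, nat_lit 0, nat_lit 0, nat_lit 0, nat_lit 0, nat_lit 0, nat_lit 0, nat_lit 0, nat_lit 0, nat_lit 0, nat_lit 0, nat_lit 0, [],
 C1.Rw.none, ⟨p001_k8, nat_lit 0, nat_lit 0, nat_lit 0, nat_lit 0, nat_lit 0, [], [], [], nat_lit 0, nat_lit 0, nat_lit 0, nat_lit 0, nat_lit 0, nat_lit 0, [], [nat_lit 52, nat_lit 40, nat_lit 20, nat_lit 80]⟩,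
 zbF0, []⟩
noncomputable def p001_l17 : Lf2 := ⟨nat_lit 2, nat_lit 1, [nat_lit 19, nat_lit 5, nat_lit 5, nat_lit 20], true, nat_lit 0, nat_lit 0, nat_lit 0, nat_lit 0, zbN0,
 nat_lit 0, nat_lit 0, nat_lit 0, nat_lit 0, nat_lit 0, nat_lit 0, nat_lit 0, nat_lit 0, nat_lit 0, nat_lit 0, nat_lit 0, nat_lit 0, nat_lit 0, nat_lit 0, nat_lit 0, nat_lit 0, nat_lit 0, nat_lit 0, [],
 ⟨p001_k14, nat_lit 0, nat_lit 0, nat_lit 0, nat_lit 0, nat_lit 23338, [], [], [], nat_lit 1271250, nat_lit 1271250, nat_lit 0, nat_lit 490000, nat_lit 0, nat_lit 0, [nat_lit 780000, nat_lit 1271250, nat_lit 1271250, nat_lit 1271250], [nat_lit 52, nat_lit 40, nat_lit 20, nat_lit 80]⟩, C1.Rw.none,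
 zbF0, []⟩
noncomputable def p001_l18 : Lf2 := ⟨nat_lit 3, nat_lit 1, [nat_lit 19, nat_lit 5, nat_lit 5, nat_lit 20], false, nat_lit 0, nat_lit 0, nat_lit 0, nat_lit 0, zbN0,
 nat_lit 0, nat_lit 0, nat_lit 0, nat_lit 0, nat_lit 0, nat_lit 0, nat_lit 0, nat_lit 0, nat_lit 0, nat_lit 0, nat_lit 0, nat_lit 0, nat_lit 0, nat_lit 0, nat_lit 0, nat_lit 0, nat_lit 0, nat_lit 0, [],
 C1.Rw.none, ⟨p001_k8, nat_lit 0, nat_lit 0, nat_lit 0, nat_lit 0, nat_lit 0, [], [], [], nat_lit 0, nat_lit 0, nat_lit 0, nat_lit 0, nat_lit 0, nat_lit 0, [], [nat_lit 52, nat_lit 40, nat_lit 20, nat_lit 80]⟩,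
 zbF0, []⟩
noncomputable def p001_l19 : Lf2 := ⟨nat_lit 0, nat_lit 1, [nat_lit 19, nat_lit 5, nat_lit 5, nat_lit 20], false, nat_lit 0, nat_lit 0, nat_lit 0, nat_lit 0, ⟨nat_lit 1000, nat_lit 0, nat_lit 0, nat_lit 0, nat_lit 0, nat_lit 0, nat_lit 0, nat_lit 0, nat_lit 0, nat_lit 0, nat_lit 0, nat_lit 0, nat_lit 0, nat_lit 0, nat_lit 0, nat_lit 0, false, false⟩,
 nat_lit 0, nat_lit 300000, nat_lit 0, nat_lit 0, nat_lit 121276, nat_lit 5166, nat_lit 60000, nat_lit 20000, nat_lit 0, nat_lit 11233, nat_lit 0, nat_lit 0, nat_lit 0, nat_lit 0, nat_lit 0, nat_lit 0, nat_lit 0, nat_lit 0, [],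
 ⟨p001_k15, nat_lit 0, nat_lit 0, nat_lit 0, nat_lit 0, nat_lit 51408, [nat_lit 487968000000, nat_lit 569842000000], [], [nat_lit 1360743802652, nat_lit 1360619528752, nat_lit 1247374223436, nat_lit 1246792194000], nat_lit 1271250, nat_lit 1271250, nat_lit 0, nat_lit 1100001, nat_lit 0, nat_lit 0, [nat_lit 1695000, nat_lit 1271250], [nat_lit 77, nat_lit 40, nat_lit 20, nat_lit 80]⟩, ⟨p001_k16, nat_lit 0, nat_lit 0, nat_lit 0, nat_lit 0, nat_lit 0, [nat_lit 3282000000, nat_lit 7968000000, nat_lit 9842000000], [], [nat_lit 20057047588, nat_lit 20563060318, nat_lit 19044622500, nat_lit 19486288274], nat_lit 0, nat_lit 0, nat_lit 0, nat_lit 0, nat_lit 0, nat_lit 0, [], [nat_lit 99, nat_lit 40, nat_lit 20, nat_lit 80]⟩,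
 zbF0, []⟩
noncomputable def p001_l20 : Lf2 := ⟨nat_lit 2, nat_lit 1, [nat_lit 19, nat_lit 5, nat_lit 5, nat_lit 20], true, nat_lit 0, nat_lit 0, nat_lit 0, nat_lit 0, zbN0,
 nat_lit 0, nat_lit 0, nat_lit 0, nat_lit 0, nat_lit 0, nat_lit 0, nat_lit 0, nat_lit 0, nat_lit 0, nat_lit 0, nat_lit 0, nat_lit 0, nat_lit 0, nat_lit 0, nat_lit 0, nat_lit 0, nat_lit 0, nat_lit 0, [],
 ⟨p001_k15, nat_lit 0, nat_lit 0, nat_lit 312, nat_lit 0, nat_lit 51408, [], [], [], nat_lit 1271250, nat_lit 1271250, nat_lit 0, nat_lit 1100001, nat_lit 0, nat_lit 0, [nat_lit 1695000, nat_lit 1271250], [nat_lit 77, nat_lit 40, nat_lit 20, nat_lit 80, nat_lit 17, nat_lit 317, nat_lit 100, nat_lit 10]⟩, C1.Rw.none,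
 zbF0, []⟩
noncomputable def p001_l21 : Lf2 := ⟨nat_lit 1, nat_lit 2, [nat_lit 10, nat_lit 5, nat_lit 5, nat_lit 20], false, nat_lit 0, nat_lit 0, nat_lit 0, nat_lit 0, zbN0,
 nat_lit 0, nat_lit 0, nat_lit 0, nat_lit 0, nat_lit 0, nat_lit 0, nat_lit 0, nat_lit 0, nat_lit 0, nat_lit 0, nat_lit 0, nat_lit 0, nat_lit 0, nat_lit 0, nat_lit 0, nat_lit 0, nat_lit 0, nat_lit 0, [],
 C1.Rw.none, C1.Rw.none,
 zbF0, []⟩
noncomputable def p001_l22 : Lf2 := ⟨nat_lit 0, nat_lit 1, [nat_lit 19, nat_lit 5, nat_lit 5, nat_lit 20], false, nat_lit 0, nat_lit 0, nat_lit 0, nat_lit 0, ⟨nat_lit 1000, nat_lit 0, nat_lit 0, nat_lit 0, nat_lit 0, nat_lit 0, nat_lit 0, nat_lit 0, nat_lit 0, nat_lit 0, nat_lit 0, nat_lit 0, nat_lit 0, nat_lit 0, nat_lit 0, nat_lit 0, false, false⟩,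
 nat_lit 0, nat_lit 12765, nat_lit 0, nat_lit 26612, nat_lit 5160, nat_lit 5160, nat_lit 4552, nat_lit 0, nat_lit 0, nat_lit 4552, nat_lit 0, nat_lit 0, nat_lit 0, nat_lit 0, nat_lit 0, nat_lit 0, nat_lit 0, nat_lit 0, [],
 ⟨p001_k14, nat_lit 0, nat_lit 0, nat_lit 0, nat_lit 0, nat_lit 21643, [nat_lit 3282000000, nat_lit 5449500000, nat_lit 7968000001, nat_lit 9842000000], [], [nat_lit 20599423960, nat_lit 20820317081, nat_lit 17991705761, nat_lit 18239670321], nat_lit 1271250, nat_lit 1271250, nat_lit 0, nat_lit 490000, nat_lit 0, nat_lit 0, [nat_lit 780000, nat_lit 1271250, nat_lit 1271250, nat_lit 1271250], [nat_lit 52, nat_lit 40, nat_lit 20, nat_lit 80]⟩, ⟨p001_k14, nat_lit 0, nat_lit 0, nat_lit 0, nat_lit 0, nat_lit 0, [nat_lit 3282000000, nat_lit 5449500000, nat_lit 7968000000, nat_lit 9842000000], [], [nat_lit 20599423960, nat_lit 20820317080, nat_lit 17991705760, nat_lit 18239670320],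 nat_lit 0, nat_lit 0, nat_lit 0, nat_lit 0, nat_lit 0, nat_lit 0, [], [nat_lit 52, nat_lit 40, nat_lit 20, nat_lit 80]⟩,
 zbF0, []⟩
noncomputable def p001_l23 : Lf2 := ⟨nat_lit 0, nat_lit 1, [nat_lit 19, nat_lit 5, nat_lit 5, nat_lit 20], false, nat_lit 0, nat_lit 0, nat_lit 0, nat_lit 0, ⟨nat_lit 1000, nat_lit 0, nat_lit 0, nat_lit 0, nat_lit 0, nat_lit 0, nat_lit 0, nat_lit 0, nat_lit 0, nat_lit 0, nat_lit 0, nat_lit 0, nat_lit 0, nat_lit 0, nat_lit 0, nat_lit 0, false, false⟩,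
 nat_lit 0, nat_lit 0, nat_lit 0, nat_lit 21103, nat_lit 0, nat_lit 5154, nat_lit 1088, nat_lit 0, nat_lit 473, nat_lit 4518, nat_lit 0, nat_lit 0, nat_lit 0, nat_lit 577939268102, nat_lit 0, nat_lit 0, nat_lit 0, nat_lit 0, [],
 ⟨p001_k7, nat_lit 0, nat_lit 0, nat_lit 0, nat_lit 0, nat_lit 58784, [nat_lit 3282000000, nat_lit 5449500000, nat_lit 7968000001, nat_lit 9842000000], [], [nat_lit 7451401500, nat_lit 7611584001, nat_lit 7549317501, nat_lit 7709940801], nat_lit 1271250, nat_lit 1271250, nat_lit 0, nat_lit 43600, nat_lit 0, nat_lit 0, [nat_lit 780000, nat_lit 1271250, nat_lit 1271250, nat_lit 1271250], [nat_lit 52, nat_lit 40, nat_lit 20, nat_lit 80]⟩, ⟨p001_k14, nat_lit 0, nat_lit 0, nat_lit 0, nat_lit 0, nat_lit 0, [nat_lit 3282000000, nat_lit 5449500000, nat_lit 7968000000, nat_lit 9842000000], [], [nat_lit 20636986324, nat_lit 21077359912, nat_lit 20028989890, nat_lit 20535851615],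 nat_lit 0, nat_lit 0, nat_lit 0, nat_lit 0, nat_lit 0, nat_lit 0, [], [nat_lit 52, nat_lit 40, nat_lit 20, nat_lit 80]⟩,
 zbF0, []⟩
noncomputable def p001_l24 : Lf2 := ⟨nat_lit 0, nat_lit 1, [nat_lit 19, nat_lit 5, nat_lit 5, nat_lit 20], false, nat_lit 0, nat_lit 0, nat_lit 0, nat_lit 0, ⟨nat_lit 1000, nat_lit 0, nat_lit 0, nat_lit 0, nat_lit 0, nat_lit 0, nat_lit 0, nat_lit 0, nat_lit 0, nat_lit 0, nat_lit 0, nat_lit 0, nat_lit 0, nat_lit 0, nat_lit 0, nat_lit 0, false, false⟩,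
 nat_lit 0, nat_lit 246919, nat_lit 0, nat_lit 0, nat_lit 102809, nat_lit 4306, nat_lit 55104, nat_lit 10319, nat_lit 0, nat_lit 3980, nat_lit 0, nat_lit 0, nat_lit 0, nat_lit 0, nat_lit 0, nat_lit 0, nat_lit 0, nat_lit 0, [],
 ⟨p001_k17, nat_lit 0, nat_lit 0, nat_lit 0, nat_lit 0, nat_lit 58784, [nat_lit 105827500001, nat_lit 212630000001, nat_lit 255624000000, nat_lit 277179500000], [], [nat_lit 307091983211, nat_lit 308781572209, nat_lit 293787450650, nat_lit 295875355741], nat_lit 1271250, nat_lit 1271250, nat_lit 0, nat_lit 43600, nat_lit 0, nat_lit 0, [nat_lit 631250, nat_lit 1431250, nat_lit 1271250, nat_lit 1271250], [nat_lit 151, nat_lit 40, nat_lit 20, nat_lit 40]⟩, ⟨p001_k18, nat_lit 0, nat_lit 0, nat_lit 0, nat_lit 0, nat_lit 0, [nat_lit 2637500000, nat_lit 6250000000, nat_lit 7968000000, nat_lit 8885500000], [], [nat_lit 20274006268, nat_lit 20730052672, nat_lit 19800429760,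 nat_lit 20286750973], nat_lit 0, nat_lit 0, nat_lit 0, nat_lit 0, nat_lit 0, nat_lit 0, [], [nat_lit 151, nat_lit 40, nat_lit 20, nat_lit 40]⟩,
 zbF0, []⟩
noncomputable def p001_l25 : Lf2 := ⟨nat_lit 0, nat_lit 1, [nat_lit 19, nat_lit 5, nat_lit 5, nat_lit 20], false, nat_lit 0, nat_lit 0, nat_lit 0, nat_lit 0, ⟨nat_lit 1000, nat_lit 0, nat_lit 0, nat_lit 0, nat_lit 0, nat_lit 0, nat_lit 0, nat_lit 0, nat_lit 0, nat_lit 0, nat_lit 0, nat_lit 0, nat_lit 0, nat_lit 0, nat_lit 0, nat_lit 0, false, false⟩,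
 nat_lit 0, nat_lit 300000, nat_lit 0, nat_lit 0, nat_lit 124911, nat_lit 5154, nat_lit 24680, nat_lit 0, nat_lit 0, nat_lit 47167, nat_lit 0, nat_lit 0, nat_lit 0, nat_lit 0, nat_lit 0, nat_lit 0, nat_lit 33750594376, nat_lit 0, [],
 ⟨p001_k7, nat_lit 0, nat_lit 0, nat_lit 0, nat_lit 0, nat_lit 58784, [nat_lit 3282000000, nat_lit 5449500000, nat_lit 7968000001, nat_lit 9842000000], [], [nat_lit 15020231037, nat_lit 15750442882, nat_lit 0, nat_lit 770673287], nat_lit 1271250, nat_lit 1271250, nat_lit 0, nat_lit 43600, nat_lit 0, nat_lit 0, [nat_lit 780000, nat_lit 1271250, nat_lit 1271250, nat_lit 1271250], [nat_lit 52, nat_lit 40, nat_lit 20, nat_lit 80]⟩, ⟨p001_k14, nat_lit 0, nat_lit 0, nat_lit 0, nat_lit 0, nat_lit 0, [nat_lit 3282000000, nat_lit 5449500000, nat_lit 7968000000, nat_lit 9842000000], [], [nat_lit 20571775042, nat_lit 21077359912, nat_lit 20028989890, nat_lit 20535851615],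 nat_lit 0, nat_lit 0, nat_lit 0, nat_lit 0, nat_lit 0, nat_lit 0, [], [nat_lit 52, nat_lit 40, nat_lit 20, nat_lit 80]⟩,
 zbF0, []⟩
noncomputable def p001_l26 : Lf2 := ⟨nat_lit 0, nat_lit 1, [nat_lit 19, nat_lit 5, nat_lit 5, nat_lit 20], false, nat_lit 0, nat_lit 0, nat_lit 0, nat_lit 0, ⟨nat_lit 1000, nat_lit 0, nat_lit 0, nat_lit 0, nat_lit 0, nat_lit 0, nat_lit 0, nat_lit 0, nat_lit 0, nat_lit 0, nat_lit 0, nat_lit 0, nat_lit 0, nat_lit 0, nat_lit 0, nat_lit 0, false, false⟩,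
 nat_lit 0, nat_lit 12705, nat_lit 0, nat_lit 7110, nat_lit 5289, nat_lit 5290, nat_lit 3906, nat_lit 0, nat_lit 0, nat_lit 4562, nat_lit 0, nat_lit 0, nat_lit 0, nat_lit 0, nat_lit 0, nat_lit 0, nat_lit 0, nat_lit 0, [],
 ⟨p001_k7, nat_lit 0, nat_lit 0, nat_lit 0, nat_lit 0, nat_lit 58784, [nat_lit 3282000000, nat_lit 5449500000, nat_lit 7968000001, nat_lit 9842000000], [], [nat_lit 20201709579, nat_lit 20425785252, nat_lit 19331408325, nat_lit 19588264089], nat_lit 1271250, nat_lit 1271250, nat_lit 43600, nat_lit 111251, nat_lit 0, nat_lit 0, [nat_lit 780000, nat_lit 1271250, nat_lit 1271250, nat_lit 1271250], [nat_lit 52, nat_lit 40, nat_lit 20, nat_lit 80]⟩, ⟨p001_k14, nat_lit 0, nat_lit 0, nat_lit 0, nat_lit 0, nat_lit 0, [nat_lit 3282000000, nat_lit 5449500000, nat_lit 7968000000, nat_lit 9842000000], [], [nat_lit 19979273304, nat_lit 20425216722, nat_lit 19073513600, nat_lit 19587261680],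 nat_lit 0, nat_lit 0, nat_lit 0, nat_lit 0, nat_lit 0, nat_lit 0, [], [nat_lit 52, nat_lit 40, nat_lit 20, nat_lit 80]⟩,
 zbF0, []⟩
noncomputable def p001_l27 : Lf2 := ⟨nat_lit 0, nat_lit 1, [nat_lit 19, nat_lit 5, nat_lit 5, nat_lit 20], false, nat_lit 0, nat_lit 0, nat_lit 0, nat_lit 0, ⟨nat_lit 1000, nat_lit 0, nat_lit 0, nat_lit 0, nat_lit 0, nat_lit 0, nat_lit 0, nat_lit 0, nat_lit 0, nat_lit 0, nat_lit 0, nat_lit 0, nat_lit 0, nat_lit 0, nat_lit 0, nat_lit 0, false, false⟩,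
 nat_lit 0, nat_lit 13224, nat_lit 0, nat_lit 5454, nat_lit 5506, nat_lit 5506, nat_lit 3967, nat_lit 0, nat_lit 0, nat_lit 4633, nat_lit 0, nat_lit 0, nat_lit 0, nat_lit 0, nat_lit 0, nat_lit 0, nat_lit 0, nat_lit 0, [],
 ⟨p001_k7, nat_lit 0, nat_lit 0, nat_lit 0, nat_lit 0, nat_lit 58784, [nat_lit 3282000000, nat_lit 5449500000, nat_lit 7968000001, nat_lit 9842000000], [], [nat_lit 19142664013, nat_lit 19370741553, nat_lit 18311454701, nat_lit 18571675361], nat_lit 1271250, nat_lit 1271250, nat_lit 111251, nat_lit 230001, nat_lit 0, nat_lit 0, [nat_lit 780000, nat_lit 1271250, nat_lit 1271250, nat_lit 1271250], [nat_lit 52, nat_lit 40, nat_lit 20, nat_lit 80]⟩, ⟨p001_k14, nat_lit 0, nat_lit 0, nat_lit 0, nat_lit 0, nat_lit 0, [nat_lit 3282000000, nat_lit 5449500000, nat_lit 7968000000, nat_lit 9842000000], [], [nat_lit 18914830635, nat_lit 19370841141, nat_lit 18051234040, nat_lit 18571675360],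 nat_lit 0, nat_lit 0, nat_lit 0, nat_lit 0, nat_lit 0, nat_lit 0, [], [nat_lit 52, nat_lit 40, nat_lit 20, nat_lit 80]⟩,
 zbF0, []⟩
noncomputable def p001_l28 : Lf2 := ⟨nat_lit 0, nat_lit 1, [nat_lit 19, nat_lit 5, nat_lit 5, nat_lit 20], false, nat_lit 0, nat_lit 0, nat_lit 0, nat_lit 0, ⟨nat_lit 1000, nat_lit 0, nat_lit 0, nat_lit 0, nat_lit 0, nat_lit 0, nat_lit 0, nat_lit 0, nat_lit 0, nat_lit 0, nat_lit 0, nat_lit 0, nat_lit 0, nat_lit 0, nat_lit 0, nat_lit 0, false, false⟩,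
 nat_lit 0, nat_lit 45051, nat_lit 0, nat_lit 0, nat_lit 18757, nat_lit 171704, nat_lit 7725, nat_lit 0, nat_lit 0, nat_lit 60000, nat_lit 0, nat_lit 0, nat_lit 0, nat_lit 119550111399359, nat_lit 0, nat_lit 0, nat_lit 0, nat_lit 80294132632, [],
 ⟨p001_k7, nat_lit 0, nat_lit 0, nat_lit 0, nat_lit 0, nat_lit 58784, [nat_lit 3282000000, nat_lit 5449500000, nat_lit 7968000001, nat_lit 9842000000], [], [nat_lit 14935553680, nat_lit 15338725745, nat_lit 9586528700, nat_lit 10106681705], nat_lit 1271250, nat_lit 1271250, nat_lit 230001, nat_lit 490000, nat_lit 0, nat_lit 0, [nat_lit 780000, nat_lit 1271250, nat_lit 1271250, nat_lit 1271250], [nat_lit 52, nat_lit 40, nat_lit 20, nat_lit 80]⟩, ⟨p001_k14, nat_lit 0, nat_lit 0, nat_lit 0, nat_lit 0, nat_lit 0, [nat_lit 3282000000, nat_lit 5449500000, nat_lit 7968000000, nat_lit 9842000000], [], [nat_lit 56806070816, nat_lit 61585632600, nat_lit 0,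 nat_lit 6841585720], nat_lit 0, nat_lit 0, nat_lit 0, nat_lit 0, nat_lit 0, nat_lit 0, [], [nat_lit 52, nat_lit 40, nat_lit 20, nat_lit 80]⟩,
 zbF0, []⟩
noncomputable def p001_l29 : Lf2 := ⟨nat_lit 1, nat_lit 2, [nat_lit 10, nat_lit 5, nat_lit 5, nat_lit 20], false, nat_lit 0, nat_lit 0, nat_lit 0, nat_lit 0, zbN0,
 nat_lit 0, nat_lit 0, nat_lit 0, nat_lit 0, nat_lit 0, nat_lit 0, nat_lit 0, nat_lit 0, nat_lit 0, nat_lit 0, nat_lit 0, nat_lit 0, nat_lit 0, nat_lit 0, nat_lit 0, nat_lit 0, nat_lit 0, nat_lit 0, [],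
 C1.Rw.none, C1.Rw.none,
 zbF0, []⟩
noncomputable def p001_l30 : Lf2 := ⟨nat_lit 0, nat_lit 2, [nat_lit 10, nat_lit 5, nat_lit 5, nat_lit 20], false, nat_lit 0, nat_lit 0, nat_lit 0, nat_lit 0, ⟨nat_lit 1000, nat_lit 0, nat_lit 0, nat_lit 0, nat_lit 0, nat_lit 0, nat_lit 0, nat_lit 0, nat_lit 0, nat_lit 0, nat_lit 0, nat_lit 0, nat_lit 0, nat_lit 0, nat_lit 0, nat_lit 0, false, false⟩,
 nat_lit 0, nat_lit 12379, nat_lit 0, nat_lit 30514, nat_lit 5154, nat_lit 5154, nat_lit 3868, nat_lit 0, nat_lit 0, nat_lit 4518, nat_lit 0, nat_lit 0, nat_lit 0, nat_lit 0, nat_lit 0, nat_lit 0, nat_lit 0, nat_lit 0, [],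
 ⟨p001_k11, nat_lit 0, nat_lit 0, nat_lit 0, nat_lit 0, nat_lit 1601, [nat_lit 3282000000, nat_lit 5449500000, nat_lit 7968000001, nat_lit 9842000000], [], [nat_lit 20857419295, nat_lit 21077359913, nat_lit 18248615109, nat_lit 18496473073], nat_lit 1271250, nat_lit 1271250, nat_lit 0, nat_lit 490000, nat_lit 0, nat_lit 0, [nat_lit 780000, nat_lit 1271250, nat_lit 1271250, nat_lit 1271250], [nat_lit 52, nat_lit 40, nat_lit 20, nat_lit 80]⟩, ⟨p001_k0, nat_lit 0, nat_lit 0, nat_lit 0, nat_lit 0, nat_lit 0, [nat_lit 3282000000, nat_lit 5449500000, nat_lit 7968000000, nat_lit 9842000000], [], [nat_lit 20636986324, nat_lit 21077359912, nat_lit 18000757144, nat_lit 18496473072], nat_lit 0, nat_lit 0, nat_lit 0, nat_lit 0, nat_lit 0, nat_lit 0, [], [nat_lit 52, nat_lit 40, nat_lit 20, nat_lit 80]⟩,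
 zbF0, []⟩
noncomputable def p001_l31 : Lf2 := ⟨nat_lit 3, nat_lit 2, [nat_lit 10, nat_lit 5, nat_lit 5, nat_lit 20], false, nat_lit 0, nat_lit 0, nat_lit 0, nat_lit 0, zbN0,
 nat_lit 0, nat_lit 0, nat_lit 0, nat_lit 0, nat_lit 0, nat_lit 0, nat_lit 0, nat_lit 0, nat_lit 0, nat_lit 0, nat_lit 0, nat_lit 0, nat_lit 0, nat_lit 0, nat_lit 0, nat_lit 0, nat_lit 0, nat_lit 0, [],
 C1.Rw.none, ⟨p001_k0, nat_lit 0, nat_lit 0, nat_lit 0, nat_lit 0, nat_lit 0, [], [], [], nat_lit 0, nat_lit 0, nat_lit 0, nat_lit 0, nat_lit 0, nat_lit 0, [], [nat_lit 52, nat_lit 40, nat_lit 20, nat_lit 80]⟩,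
 zbF0, []⟩
noncomputable def p001_l32 : Lf2 := ⟨nat_lit 0, nat_lit 2, [nat_lit 10, nat_lit 5, nat_lit 5, nat_lit 20], false, nat_lit 0, nat_lit 0, nat_lit 0, nat_lit 0, ⟨nat_lit 1000, nat_lit 0, nat_lit 0, nat_lit 0, nat_lit 0, nat_lit 0, nat_lit 0, nat_lit 0, nat_lit 0, nat_lit 0, nat_lit 0, nat_lit 0, nat_lit 0, nat_lit 0, nat_lit 0, nat_lit 0, false, false⟩,
 nat_lit 0, nat_lit 300000, nat_lit 0, nat_lit 0, nat_lit 121276, nat_lit 4306, nat_lit 0, nat_lit 4427, nat_lit 0, nat_lit 4233, nat_lit 0, nat_lit 0, nat_lit 0, nat_lit 295549746975066, nat_lit 0, nat_lit 0, nat_lit 0, nat_lit 0, [],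
 ⟨p001_k2, nat_lit 0, nat_lit 0, nat_lit 0, nat_lit 0, nat_lit 61990, [nat_lit 94790000001, nat_lit 114216000000, nat_lit 133798000000], [], [nat_lit 280253703375, nat_lit 248674767011, nat_lit 271923313499, nat_lit 241266923667], nat_lit 1271250, nat_lit 1271250, nat_lit 0, nat_lit 490000, nat_lit 0, nat_lit 0, [nat_lit 1412500, nat_lit 1271250, nat_lit 1271250], [nat_lit 25, nat_lit 40, nat_lit 20, nat_lit 40]⟩, ⟨p001_k19, nat_lit 0, nat_lit 0, nat_lit 0, nat_lit 0, nat_lit 0, [nat_lit 2637500000, nat_lit 6250000000, nat_lit 7968000000, nat_lit 9842000000], [], [nat_lit 20309509811, nat_lit 20730052672, nat_lit 18292772740, nat_lit 18769404104], nat_lit 0, nat_lit 0, nat_lit 0, nat_lit 0, nat_lit 0, nat_lit 0, [], [nat_lit 130, nat_lit 40, nat_lit 20, nat_lit 40]⟩,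
 zbF0, []⟩
noncomputable def p001_l33 : Lf2 := ⟨nat_lit 3, nat_lit 2, [nat_lit 10, nat_lit 5, nat_lit 5, nat_lit 20], false, nat_lit 0, nat_lit 0, nat_lit 0, nat_lit 0, zbN0,
 nat_lit 0, nat_lit 0, nat_lit 0, nat_lit 0, nat_lit 0, nat_lit 0, nat_lit 0, nat_lit 0, nat_lit 0, nat_lit 0, nat_lit 0, nat_lit 0, nat_lit 0, nat_lit 0, nat_lit 0, nat_lit 0, nat_lit 0, nat_lit 0, [],
 C1.Rw.none, ⟨p001_k20, nat_lit 0, nat_lit 0, nat_lit 0, nat_lit 0, nat_lit 0, [], [], [], nat_lit 0, nat_lit 0, nat_lit 0, nat_lit 0, nat_lit 0, nat_lit 0, [], [nat_lit 218, nat_lit 40, nat_lit 20, nat_lit 40]⟩,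
 zbF0, []⟩
noncomputable def p001_l34 : Lf2 := ⟨nat_lit 2, nat_lit 2, [nat_lit 10, nat_lit 5, nat_lit 5, nat_lit 20], true, nat_lit 0, nat_lit 0, nat_lit 0, nat_lit 0, zbN0,
 nat_lit 0, nat_lit 0, nat_lit 0, nat_lit 0, nat_lit 0, nat_lit 0, nat_lit 0, nat_lit 0, nat_lit 0, nat_lit 0, nat_lit 0, nat_lit 0, nat_lit 0, nat_lit 0, nat_lit 0, nat_lit 0, nat_lit 0, nat_lit 0, [],
 ⟨p001_k6, nat_lit 0, nat_lit 0, nat_lit 350, nat_lit 0, nat_lit 132659, [], [], [], nat_lit 1271250, nat_lit 1271250, nat_lit 0, nat_lit 1100001, nat_lit 0, nat_lit 0, [nat_lit 1695000, nat_lit 1271250], [nat_lit 77, nat_lit 40, nat_lit 20, nat_lit 80, nat_lit 17, nat_lit 317, nat_lit 100, nat_lit 10]⟩, C1.Rw.none,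
 zbF0, []⟩
noncomputable def p001_l35 : Lf2 := ⟨nat_lit 0, nat_lit 2, [nat_lit 10, nat_lit 5, nat_lit 5, nat_lit 20], false, nat_lit 0, nat_lit 0, nat_lit 0, nat_lit 0, ⟨nat_lit 1000, nat_lit 0, nat_lit 0, nat_lit 0, nat_lit 0, nat_lit 0, nat_lit 0, nat_lit 0, nat_lit 0, nat_lit 0, nat_lit 0, nat_lit 0, nat_lit 0, nat_lit 0, nat_lit 0, nat_lit 0, false, false⟩,
 nat_lit 0, nat_lit 6628, nat_lit 0, nat_lit 277199, nat_lit 2679, nat_lit 214382, nat_lit 2737, nat_lit 0, nat_lit 0, nat_lit 60000, nat_lit 20000, nat_lit 0, nat_lit 0, nat_lit 386150090116319, nat_lit 0, nat_lit 0, nat_lit 0, nat_lit 0, [],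
 ⟨p001_k6, nat_lit 0, nat_lit 0, nat_lit 350, nat_lit 0, nat_lit 132659, [nat_lit 7968000001, nat_lit 9842000000], [], [nat_lit 43625845750, nat_lit 42896814035, nat_lit 43128450780, nat_lit 43356787755], nat_lit 1271250, nat_lit 1271250, nat_lit 0, nat_lit 1100001, nat_lit 0, nat_lit 0, [nat_lit 1695000, nat_lit 1271250], [nat_lit 77, nat_lit 40, nat_lit 20, nat_lit 80, nat_lit 17, nat_lit 317, nat_lit 100, nat_lit 10]⟩, ⟨p001_k21, nat_lit 0, nat_lit 0, nat_lit 0, nat_lit 0, nat_lit 0, [nat_lit 243282000000, nat_lit 487968000000, nat_lit 569842000000], [], [nat_lit 699542299756, nat_lit 710202917368, nat_lit 495637328848, nat_lit 504323875480], nat_lit 0, nat_lit 0, nat_lit 0, nat_lit 0, nat_lit 0, nat_lit 0, [], [nat_lit 99, nat_lit 40, nat_lit 20, nat_lit 80]⟩,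
 zbF0, []⟩
noncomputable def p001_l36 : Lf2 := ⟨nat_lit 3, nat_lit 2, [nat_lit 10, nat_lit 5, nat_lit 5, nat_lit 20], false, nat_lit 0, nat_lit 0, nat_lit 0, nat_lit 0, zbN0,
 nat_lit 0, nat_lit 0, nat_lit 0, nat_lit 0, nat_lit 0, nat_lit 0, nat_lit 0, nat_lit 0, nat_lit 0, nat_lit 0, nat_lit 0, nat_lit 0, nat_lit 0, nat_lit 0, nat_lit 0, nat_lit 0, nat_lit 0, nat_lit 0, [],
 C1.Rw.none, ⟨p001_k22, nat_lit 0, nat_lit 0, nat_lit 289, nat_lit 0, nat_lit 0, [], [], [], nat_lit 0, nat_lit 0, nat_lit 0, nat_lit 0, nat_lit 0, nat_lit 0, [], [nat_lit 77, nat_lit 40, nat_lit 20, nat_lit 80, nat_lit 17, nat_lit 317, nat_lit 100, nat_lit 10]⟩,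
 zbF0, []⟩
noncomputable def p001_l37 : Lf2 := ⟨nat_lit 0, nat_lit 2, [nat_lit 10, nat_lit 5, nat_lit 5, nat_lit 20], false, nat_lit 0, nat_lit 0, nat_lit 0, nat_lit 0, ⟨nat_lit 1000, nat_lit 0, nat_lit 0, nat_lit 0, nat_lit 0, nat_lit 0, nat_lit 0, nat_lit 0, nat_lit 0, nat_lit 0, nat_lit 0, nat_lit 0, nat_lit 0, nat_lit 0, nat_lit 0, nat_lit 0, false, false⟩,
 nat_lit 0, nat_lit 0, nat_lit 0, nat_lit 8635, nat_lit 0, nat_lit 17936, nat_lit 1599, nat_lit 0, nat_lit 0, nat_lit 0, nat_lit 0, nat_lit 0, nat_lit 0, nat_lit 7767279533699, nat_lit 0, nat_lit 0, nat_lit 0, nat_lit 0, [],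
 ⟨p001_k6, nat_lit 0, nat_lit 0, nat_lit 225, nat_lit 0, nat_lit 132659, [nat_lit 7968000001, nat_lit 9842000000], [], [nat_lit 37061016002, nat_lit 37250374876, nat_lit 39801012002, nat_lit 39801012002], nat_lit 1271250, nat_lit 1271250, nat_lit 1100001, nat_lit 1785000, nat_lit 0, nat_lit 0, [nat_lit 1695000, nat_lit 1271250], [nat_lit 77, nat_lit 40, nat_lit 20, nat_lit 80, nat_lit 17, nat_lit 345, nat_lit 125, nat_lit 10]⟩, ⟨p001_k22, nat_lit 0, nat_lit 0, nat_lit 61, nat_lit 0, nat_lit 0, [nat_lit 7968000000, nat_lit 9842000000], [], [nat_lit 8192017968, nat_lit 9941326752, nat_lit 16427810544, nat_lit 18350348416], nat_lit 0, nat_lit 0, nat_lit 0, nat_lit 0, nat_lit 0, nat_lit 0, [], [nat_lit 77, nat_lit 40, nat_lit 20, nat_lit 80, nat_lit 17, nat_lit 345, nat_lit 125, nat_lit 10]⟩,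
 zbF0, []⟩
noncomputable def p001_l38 : Lf2 := ⟨nat_lit 0, nat_lit 2, [nat_lit 10, nat_lit 5, nat_lit 5, nat_lit 20], false, nat_lit 0, nat_lit 0, nat_lit 0, nat_lit 0, ⟨nat_lit 1000, nat_lit 0, nat_lit 0, nat_lit 0, nat_lit 0, nat_lit 0, nat_lit 0, nat_lit 0, nat_lit 0, nat_lit 0, nat_lit 0, nat_lit 0, nat_lit 0, nat_lit 0, nat_lit 0, nat_lit 0, false, false⟩,
 nat_lit 0, nat_lit 22366, nat_lit 0, nat_lit 0, nat_lit 9041, nat_lit 8789, nat_lit 2123, nat_lit 0, nat_lit 0, nat_lit 3715, nat_lit 0, nat_lit 0, nat_lit 0, nat_lit 0, nat_lit 0, nat_lit 0, nat_lit 0, nat_lit 0, [],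
 ⟨p001_k6, nat_lit 0, nat_lit 0, nat_lit 298, nat_lit 0, nat_lit 132659, [nat_lit 7968000001, nat_lit 9842000000], [], [nat_lit 32245183836, nat_lit 32345924721, nat_lit 40103801517, nat_lit 40049902847], nat_lit 1271250, nat_lit 1271250, nat_lit 1271250, nat_lit 1271250, nat_lit 0, nat_lit 0, [nat_lit 1695000, nat_lit 1271250], [nat_lit 77, nat_lit 40, nat_lit 20, nat_lit 80, nat_lit 17, nat_lit 373, nat_lit 150, nat_lit 11]⟩, ⟨p001_k22, nat_lit 0, nat_lit 0, nat_lit 232, nat_lit 0, nat_lit 0, [nat_lit 7968000000, nat_lit 9842000000], [], [nat_lit 28078740328, nat_lit 28510738878, nat_lit 39449255090, nat_lit 39424528500], nat_lit 0, nat_lit 0, nat_lit 0, nat_lit 0, nat_lit 0, nat_lit 0, [], [nat_lit 77, nat_lit 40, nat_lit 20, nat_lit 80, nat_lit 17, nat_lit 373, nat_lit 150, nat_lit 11]⟩,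
 zbF0, []⟩
noncomputable def b_NL_450_450_0_10 : St := ⟨false, nat_lit 1, nat_lit 0, nat_lit 2, nat_lit 20, nat_lit 180, nat_lit 200, nat_lit 180, nat_lit 200, nat_lit 0, nat_lit 400, nat_lit 0, nat_lit 0, nat_lit 0, nat_lit 0, nat_lit 0, nat_lit 0, nat_lit 0, nat_lit 8, nat_lit 0, nat_lit 0, nat_lit 0, nat_lit 0⟩
theorem d_NL_450_450_0_10 (h : EB TB.env) : Dead b_NL_450_450_0_10 := chkB_sound0 h (T :=
(.spl (nat_lit 0) (nat_lit 190)
(.ord (.leaf p001_l0))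
(.spl (nat_lit 2) (nat_lit 240)
(.spl (nat_lit 2) (nat_lit 160)
(.spl (nat_lit 8) (nat_lit 800)
(.spl (nat_lit 8) (nat_lit 400)
(.spl (nat_lit 8) (nat_lit 200)
(.spl (nat_lit 8) (nat_lit 100)
(.spl (nat_lit 7) (nat_lit 600)
(.spl (nat_lit 2) (nat_lit 80)
(.leaf p001_l1)
(.leaf p001_l2))
(.spl (nat_lit 7) (nat_lit 900)
(.spl (nat_lit 2) (nat_lit 80)
(.leaf p001_l3)
(.leaf p001_l4))
(.leaf p001_l5)))
(.spl (nat_lit 7) (nat_lit 600)
(.spl (nat_lit 2) (nat_lit 80)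
(.spl (nat_lit 8) (nat_lit 160)
(.leaf p001_l6)
(.spl (nat_lit 0) (nat_lit 195)
(.ord (.leaf p001_l7))
(.spl (nat_lit 6) (nat_lit 4)
(.spl (nat_lit 0) (nat_lit 198)
(.ord (.leaf p001_l8))
(.leaf p001_l9))
(.leaf p001_l10))))
(.leaf p001_l11))
(.spl (nat_lit 7) (nat_lit 900)
(.spl (nat_lit 2) (nat_lit 80)
(.leaf p001_l12)
(.leaf p001_l13))
(.leaf p001_l14))))
(.spl (nat_lit 1) (nat_lit 190)
(.spl (nat_lit 6) (nat_lit 4)
(.spl (nat_lit 7) (nat_lit 600)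
(.spl (nat_lit 2) (nat_lit 80)
(.leaf p001_l15)
(.leaf p001_l16))
(.spl (nat_lit 7) (nat_lit 900)
(.spl (nat_lit 7) (nat_lit 760)
(.spl (nat_lit 2) (nat_lit 80)
(.leaf p001_l17)
(.leaf p001_l18))
(.leaf p001_l19))
(.leaf p001_l20)))
(.leaf p001_l21))
(.spl (nat_lit 7) (nat_lit 600)
(.spl (nat_lit 2) (nat_lit 80)
(.spl (nat_lit 6) (nat_lit 4)
(.spl (nat_lit 0) (nat_lit 195)
(.ord (.leaf p001_l22))
(.spl (nat_lit 2) (nat_lit 40)
(.spl (nat_lit 2) (nat_lit 20)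
(.spl (nat_lit 2) (nat_lit 8)
(.spl (nat_lit 7) (nat_lit 300)
(.leaf p001_l23)
(.spl (nat_lit 7) (nat_lit 460)
(.leaf p001_l24)
(.leaf p001_l25)))
(.leaf p001_l26))
(.leaf p001_l27))
(.leaf p001_l28)))
(.spl (nat_lit 0) (nat_lit 195)
(.ord (.leaf p001_l29))
(.leaf p001_l30)))
(.leaf p001_l31))
(.spl (nat_lit 7) (nat_lit 900)
(.spl (nat_lit 2) (nat_lit 80)
(.leaf p001_l32)
(.leaf p001_l33))
(.leaf p001_l34)))))
(.leaf p001_l35))
(.leaf p001_l36))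
(.leaf p001_l37))
(.leaf p001_l38)))) (by decide +kernel)
noncomputable def p001_l39 : Lf2 := ⟨nat_lit 0, nat_lit 1, [nat_lit 19, nat_lit 5, nat_lit 5, nat_lit 20], false, nat_lit 0, nat_lit 0, nat_lit 0, nat_lit 0, ⟨nat_lit 1000, nat_lit 0, nat_lit 0, nat_lit 0, nat_lit 0, nat_lit 0, nat_lit 0, nat_lit 0, nat_lit 0, nat_lit 0, nat_lit 0, nat_lit 0, nat_lit 0, nat_lit 0, nat_lit 0, nat_lit 0, false, false⟩,
 nat_lit 0, nat_lit 12750, nat_lit 0, nat_lit 18456, nat_lit 5154, nat_lit 0, nat_lit 4571, nat_lit 0, nat_lit 0, nat_lit 0, nat_lit 0, nat_lit 470, nat_lit 0, nat_lit 0, nat_lit 0, nat_lit 0, nat_lit 0, nat_lit 0, [],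
 ⟨p001_k14, nat_lit 0, nat_lit 0, nat_lit 0, nat_lit 0, nat_lit 23338, [nat_lit 3282000000, nat_lit 5449500000, nat_lit 7968000001, nat_lit 9842000000], [], [nat_lit 20571775043, nat_lit 21077359913, nat_lit 18000757145, nat_lit 18496473073], nat_lit 1271250, nat_lit 1271250, nat_lit 0, nat_lit 490000, nat_lit 0, nat_lit 0, [nat_lit 780000, nat_lit 1271250, nat_lit 1271250, nat_lit 1271250], [nat_lit 52, nat_lit 40, nat_lit 20, nat_lit 80]⟩, ⟨p001_k8, nat_lit 0, nat_lit 0, nat_lit 0, nat_lit 0, nat_lit 24839, [nat_lit 3282000000, nat_lit 5449500000, nat_lit 7968000000, nat_lit 9842000000], [], [nat_lit 3927012000, nat_lit 4089407000, nat_lit 5887012000, nat_lit 5887012000], nat_lit 1271250, nat_lit 1271250, nat_lit 0, nat_lit 490000, nat_lit 0, nat_lit 0, [nat_lit 780000, nat_lit 1271250, nat_lit 1271250, nat_lit 1271250], [nat_lit 52, nat_lit 40, nat_lit 20, nat_lit 80]⟩,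
 zbF0, []⟩
noncomputable def p001_l40 : Lf2 := ⟨nat_lit 0, nat_lit 1, [nat_lit 19, nat_lit 5, nat_lit 5, nat_lit 20], false, nat_lit 0, nat_lit 0, nat_lit 0, nat_lit 0, ⟨nat_lit 1000, nat_lit 0, nat_lit 0, nat_lit 0, nat_lit 0, nat_lit 0, nat_lit 0, nat_lit 0, nat_lit 0, nat_lit 0, nat_lit 0, nat_lit 0, nat_lit 0, nat_lit 0, nat_lit 0, nat_lit 0, false, false⟩,
 nat_lit 26018, nat_lit 0, nat_lit 0, nat_lit 11845, nat_lit 3126, nat_lit 9894, nat_lit 0, nat_lit 0, nat_lit 0, nat_lit 0, nat_lit 0, nat_lit 0, nat_lit 0, nat_lit 0, nat_lit 0, nat_lit 0, nat_lit 0, nat_lit 0, [],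
 ⟨p001_k14, nat_lit 0, nat_lit 0, nat_lit 0, nat_lit 0, nat_lit 23338, [nat_lit 3282000000, nat_lit 5449500000, nat_lit 7968000001, nat_lit 9842000000], [], [nat_lit 36465283358, nat_lit 35640019353, nat_lit 36612353657, nat_lit 36879050193], nat_lit 1271250, nat_lit 1271250, nat_lit 490000, nat_lit 1100001, nat_lit 0, nat_lit 0, [nat_lit 780000, nat_lit 1271250, nat_lit 1271250, nat_lit 1271250], [nat_lit 52, nat_lit 40, nat_lit 20, nat_lit 80]⟩, ⟨p001_k8, nat_lit 0, nat_lit 0, nat_lit 0, nat_lit 0, nat_lit 24839, [nat_lit 3282000000, nat_lit 5449500000, nat_lit 7968000000, nat_lit 9842000000], [], [nat_lit 6330801928, nat_lit 5798217420, nat_lit 9097743264, nat_lit 6354497212], nat_lit 1271250, nat_lit 1271250, nat_lit 490000, nat_lit 1100001, nat_lit 0, nat_lit 0, [nat_lit 780000, nat_lit 1271250, nat_lit 1271250, nat_lit 1271250], [nat_lit 52, nat_lit 40, nat_lit 20, nat_lit 80]⟩,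
 zbF0, []⟩
noncomputable def p001_l41 : Lf2 := ⟨nat_lit 0, nat_lit 1, [nat_lit 19, nat_lit 5, nat_lit 5, nat_lit 20], false, nat_lit 0, nat_lit 0, nat_lit 0, nat_lit 0, ⟨nat_lit 1000, nat_lit 0, nat_lit 0, nat_lit 0, nat_lit 0, nat_lit 0, nat_lit 0, nat_lit 0, nat_lit 0, nat_lit 0, nat_lit 0, nat_lit 0, nat_lit 0, nat_lit 0, nat_lit 0, nat_lit 0, false, false⟩,
 nat_lit 0, nat_lit 134699, nat_lit 0, nat_lit 101694, nat_lit 54452, nat_lit 0, nat_lit 0, nat_lit 13717, nat_lit 0, nat_lit 56070, nat_lit 0, nat_lit 605, nat_lit 0, nat_lit 0, nat_lit 0, nat_lit 0, nat_lit 0, nat_lit 0, [],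
 ⟨p001_k23, nat_lit 0, nat_lit 0, nat_lit 0, nat_lit 0, nat_lit 23338, [nat_lit 280590000001, nat_lit 337176000000, nat_lit 365527500000], [], [nat_lit 851005339047, nat_lit 838240812914, nat_lit 875496279679, nat_lit 862122269507], nat_lit 1271250, nat_lit 1271250, nat_lit 0, nat_lit 1100001, nat_lit 0, nat_lit 0, [nat_lit 1412500, nat_lit 1271250, nat_lit 1271250], [nat_lit 156, nat_lit 40, nat_lit 20, nat_lit 40]⟩, ⟨p001_k24, nat_lit 0, nat_lit 0, nat_lit 0, nat_lit 0, nat_lit 24839, [nat_lit 2637500000, nat_lit 7089500000, nat_lit 8885500000], [], [nat_lit 3715790000, nat_lit 4089407000, nat_lit 7709516000, nat_lit 7709995000], nat_lit 1271250, nat_lit 1271250, nat_lit 0, nat_lit 1100001, nat_lit 0, nat_lit 0, [nat_lit 631250, nat_lit 1591250, nat_lit 1271250], [nat_lit 227, nat_lit 40, nat_lit 20, nat_lit 40]⟩,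
 zbF0, []⟩
noncomputable def p001_l42 : Lf2 := ⟨nat_lit 2, nat_lit 1, [nat_lit 19, nat_lit 5, nat_lit 5, nat_lit 20], true, nat_lit 0, nat_lit 0, nat_lit 0, nat_lit 0, zbN0,
 nat_lit 0, nat_lit 0, nat_lit 0, nat_lit 0, nat_lit 0, nat_lit 0, nat_lit 0, nat_lit 0, nat_lit 0, nat_lit 0, nat_lit 0, nat_lit 0, nat_lit 0, nat_lit 0, nat_lit 0, nat_lit 0, nat_lit 0, nat_lit 0, [],
 ⟨p001_k15, nat_lit 0, nat_lit 0, nat_lit 312, nat_lit 0, nat_lit 51408, [], [], [], nat_lit 1271250, nat_lit 1271250, nat_lit 0, nat_lit 1100001, nat_lit 0, nat_lit 0, [nat_lit 1695000, nat_lit 1271250], [nat_lit 77, nat_lit 40, nat_lit 20, nat_lit 80, nat_lit 17, nat_lit 317, nat_lit 100, nat_lit 10]⟩, C1.Rw.none,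
 zbF0, []⟩
noncomputable def p001_l43 : Lf2 := ⟨nat_lit 0, nat_lit 1, [nat_lit 19, nat_lit 5, nat_lit 5, nat_lit 20], false, nat_lit 0, nat_lit 0, nat_lit 0, nat_lit 0, ⟨nat_lit 1000, nat_lit 0, nat_lit 0, nat_lit 0, nat_lit 0, nat_lit 0, nat_lit 0, nat_lit 0, nat_lit 0, nat_lit 0, nat_lit 0, nat_lit 0, nat_lit 0, nat_lit 0, nat_lit 0, nat_lit 0, false, false⟩,
 nat_lit 0, nat_lit 12750, nat_lit 0, nat_lit 14913, nat_lit 5154, nat_lit 0, nat_lit 4571, nat_lit 0, nat_lit 0, nat_lit 0, nat_lit 0, nat_lit 606, nat_lit 0, nat_lit 0, nat_lit 0, nat_lit 0, nat_lit 0, nat_lit 0, [],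
 ⟨p001_k14, nat_lit 0, nat_lit 0, nat_lit 0, nat_lit 0, nat_lit 23338, [nat_lit 3282000000, nat_lit 5449500000, nat_lit 7968000001, nat_lit 9842000000], [], [nat_lit 20571775043, nat_lit 21077359913, nat_lit 18000757145, nat_lit 18496473073], nat_lit 1271250, nat_lit 1271250, nat_lit 0, nat_lit 490000, nat_lit 0, nat_lit 0, [nat_lit 780000, nat_lit 1271250, nat_lit 1271250, nat_lit 1271250], [nat_lit 52, nat_lit 40, nat_lit 20, nat_lit 80]⟩, ⟨p001_k8, nat_lit 0, nat_lit 0, nat_lit 0, nat_lit 0, nat_lit 24839, [nat_lit 3282000000, nat_lit 5449500000, nat_lit 7968000000, nat_lit 9842000000], [], [nat_lit 3747114000, nat_lit 4089407000, nat_lit 5152450000, nat_lit 5481303000], nat_lit 1271250, nat_lit 1271250, nat_lit 0, nat_lit 490000, nat_lit 0, nat_lit 0, [nat_lit 780000, nat_lit 1271250, nat_lit 1271250, nat_lit 1271250], [nat_lit 52, nat_lit 40, nat_lit 20, nat_lit 80]⟩,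
 zbF0, []⟩
noncomputable def p001_l44 : Lf2 := ⟨nat_lit 0, nat_lit 1, [nat_lit 19, nat_lit 5, nat_lit 5, nat_lit 20], false, nat_lit 0, nat_lit 0, nat_lit 0, nat_lit 0, ⟨nat_lit 1000, nat_lit 0, nat_lit 0, nat_lit 0, nat_lit 0, nat_lit 0, nat_lit 0, nat_lit 0, nat_lit 0, nat_lit 0, nat_lit 0, nat_lit 0, nat_lit 0, nat_lit 0, nat_lit 0, nat_lit 0, false, false⟩,
 nat_lit 300000, nat_lit 300000, nat_lit 300000, nat_lit 300000, nat_lit 3126, nat_lit 228169, nat_lit 60000, nat_lit 0, nat_lit 0, nat_lit 60000, nat_lit 15196, nat_lit 0, nat_lit 0, nat_lit 0, nat_lit 0, nat_lit 0, nat_lit 0, nat_lit 0, [],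
 ⟨p001_k14, nat_lit 0, nat_lit 0, nat_lit 0, nat_lit 0, nat_lit 23338, [nat_lit 3282000000, nat_lit 5449500000, nat_lit 7968000001, nat_lit 9842000000], [], [nat_lit 36465283358, nat_lit 35640019353, nat_lit 36612353657, nat_lit 36879050193], nat_lit 1271250, nat_lit 1271250, nat_lit 490000, nat_lit 1100001, nat_lit 0, nat_lit 0, [nat_lit 780000, nat_lit 1271250, nat_lit 1271250, nat_lit 1271250], [nat_lit 52, nat_lit 40, nat_lit 20, nat_lit 80]⟩, ⟨p001_k8, nat_lit 0, nat_lit 0, nat_lit 0, nat_lit 0, nat_lit 24839, [nat_lit 185634000000, nat_lit 278977500000, nat_lit 372672000000, nat_lit 435330000000], [], [nat_lit 74047391228, nat_lit 15277900670, nat_lit 84027011664, nat_lit 16530970760], nat_lit 1271250, nat_lit 1271250, nat_lit 490000, nat_lit 1100001, nat_lit 0, nat_lit 0, [nat_lit 780000, nat_lit 1271250, nat_lit 1271250, nat_lit 1271250], [nat_lit 52, nat_lit 40, nat_lit 20, nat_lit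 80]⟩,
 zbF0, []⟩
noncomputable def p001_l45 : Lf2 := ⟨nat_lit 0, nat_lit 1, [nat_lit 19, nat_lit 5, nat_lit 5, nat_lit 20], false, nat_lit 0, nat_lit 0, nat_lit 0, nat_lit 0, ⟨nat_lit 1000, nat_lit 0, nat_lit 0, nat_lit 0, nat_lit 0, nat_lit 0, nat_lit 0, nat_lit 0, nat_lit 0, nat_lit 0, nat_lit 0, nat_lit 0, nat_lit 0, nat_lit 0, nat_lit 0, nat_lit 0, false, false⟩,
 nat_lit 300000, nat_lit 300000, nat_lit 85130, nat_lit 300000, nat_lit 241125, nat_lit 45650, nat_lit 0, nat_lit 20000, nat_lit 0, nat_lit 60000, nat_lit 0, nat_lit 0, nat_lit 0, nat_lit 0, nat_lit 0, nat_lit 0, nat_lit 0, nat_lit 0, [],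
 ⟨p001_k23, nat_lit 0, nat_lit 0, nat_lit 0, nat_lit 0, nat_lit 23338, [nat_lit 406250000000, nat_lit 487968000000, nat_lit 528885500000], [], [nat_lit 1190687513625, nat_lit 1127901216000, nat_lit 1284054444375, nat_lit 1224831492000], nat_lit 1271250, nat_lit 1271250, nat_lit 0, nat_lit 1100001, nat_lit 0, nat_lit 0, [nat_lit 1412500, nat_lit 1271250, nat_lit 1271250], [nat_lit 156, nat_lit 40, nat_lit 20, nat_lit 40]⟩, ⟨p001_k24, nat_lit 0, nat_lit 0, nat_lit 0, nat_lit 0, nat_lit 24839, [nat_lit 2637500000, nat_lit 7089500000, nat_lit 8885500000], [], [nat_lit 64460419000, nat_lit 66710707500, nat_lit 14413048000, nat_lit 1455934600], nat_lit 1271250, nat_lit 1271250, nat_lit 0, nat_lit 1100001, nat_lit 0, nat_lit 0, [nat_lit 631250, nat_lit 1591250, nat_lit 1271250], [nat_lit 227, nat_lit 40, nat_lit 20, nat_lit 40]⟩,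
 zbF0, []⟩
noncomputable def p001_l46 : Lf2 := ⟨nat_lit 2, nat_lit 1, [nat_lit 19, nat_lit 5, nat_lit 5, nat_lit 20], true, nat_lit 0, nat_lit 0, nat_lit 0, nat_lit 0, zbN0,
 nat_lit 0, nat_lit 0, nat_lit 0, nat_lit 0, nat_lit 0, nat_lit 0, nat_lit 0, nat_lit 0, nat_lit 0, nat_lit 0, nat_lit 0, nat_lit 0, nat_lit 0, nat_lit 0, nat_lit 0, nat_lit 0, nat_lit 0, nat_lit 0, [],
 ⟨p001_k15, nat_lit 0, nat_lit 0, nat_lit 312, nat_lit 0, nat_lit 51408, [], [], [], nat_lit 1271250, nat_lit 1271250, nat_lit 0, nat_lit 1100001, nat_lit 0, nat_lit 0, [nat_lit 1695000, nat_lit 1271250], [nat_lit 77, nat_lit 40, nat_lit 20, nat_lit 80, nat_lit 17, nat_lit 317, nat_lit 100, nat_lit 10]⟩, C1.Rw.none,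
 zbF0, []⟩
noncomputable def p001_l47 : Lf2 := ⟨nat_lit 0, nat_lit 1, [nat_lit 19, nat_lit 5, nat_lit 5, nat_lit 20], false, nat_lit 0, nat_lit 0, nat_lit 0, nat_lit 0, ⟨nat_lit 1000, nat_lit 0, nat_lit 0, nat_lit 0, nat_lit 0, nat_lit 0, nat_lit 0, nat_lit 0, nat_lit 0, nat_lit 0, nat_lit 0, nat_lit 0, nat_lit 0, nat_lit 0, nat_lit 0, nat_lit 0, false, false⟩,
 nat_lit 13585, nat_lit 0, nat_lit 0, nat_lit 35406, nat_lit 5154, nat_lit 5166, nat_lit 4518, nat_lit 0, nat_lit 0, nat_lit 6878, nat_lit 0, nat_lit 0, nat_lit 0, nat_lit 0, nat_lit 0, nat_lit 0, nat_lit 0, nat_lit 0, [],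
 ⟨p001_k14, nat_lit 0, nat_lit 0, nat_lit 0, nat_lit 0, nat_lit 23338, [nat_lit 3282000000, nat_lit 5449500000, nat_lit 7968000001, nat_lit 9842000000], [], [nat_lit 20636986324, nat_lit 21077359913, nat_lit 18000757145, nat_lit 18496473073], nat_lit 1271250, nat_lit 1271250, nat_lit 0, nat_lit 490000, nat_lit 0, nat_lit 0, [nat_lit 780000, nat_lit 1271250, nat_lit 1271250, nat_lit 1271250], [nat_lit 52, nat_lit 40, nat_lit 20, nat_lit 80]⟩, ⟨p001_k8, nat_lit 0, nat_lit 0, nat_lit 0, nat_lit 0, nat_lit 24839, [nat_lit 3282000000, nat_lit 5449500000, nat_lit 7968000000, nat_lit 9842000000], [], [nat_lit 20122758928, nat_lit 20563060318, nat_lit 18214267816, nat_lit 17982654376], nat_lit 1271250, nat_lit 1271250, nat_lit 0, nat_lit 490000, nat_lit 0, nat_lit 0, [nat_lit 780000, nat_lit 1271250, nat_lit 1271250, nat_lit 1271250], [nat_lit 52, nat_lit 40, nat_lit 20, nat_lit 80]⟩,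
 zbF0, []⟩
noncomputable def p001_l48 : Lf2 := ⟨nat_lit 3, nat_lit 1, [nat_lit 19, nat_lit 5, nat_lit 5, nat_lit 20], false, nat_lit 0, nat_lit 0, nat_lit 0, nat_lit 0, zbN0,
 nat_lit 0, nat_lit 0, nat_lit 0, nat_lit 0, nat_lit 0, nat_lit 0, nat_lit 0, nat_lit 0, nat_lit 0, nat_lit 0, nat_lit 0, nat_lit 0, nat_lit 0, nat_lit 0, nat_lit 0, nat_lit 0, nat_lit 0, nat_lit 0, [],
 C1.Rw.none, ⟨p001_k8, nat_lit 0, nat_lit 0, nat_lit 0, nat_lit 0, nat_lit 24839, [], [], [], nat_lit 1271250, nat_lit 1271250, nat_lit 490000, nat_lit 1100001, nat_lit 0, nat_lit 0, [nat_lit 780000, nat_lit 1271250, nat_lit 1271250, nat_lit 1271250], [nat_lit 52, nat_lit 40, nat_lit 20, nat_lit 80]⟩,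
 zbF0, []⟩
noncomputable def p001_l49 : Lf2 := ⟨nat_lit 0, nat_lit 1, [nat_lit 19, nat_lit 5, nat_lit 5, nat_lit 20], false, nat_lit 0, nat_lit 0, nat_lit 0, nat_lit 0, ⟨nat_lit 1000, nat_lit 0, nat_lit 0, nat_lit 0, nat_lit 0, nat_lit 0, nat_lit 0, nat_lit 0, nat_lit 0, nat_lit 0, nat_lit 0, nat_lit 0, nat_lit 0, nat_lit 0, nat_lit 0, nat_lit 0, false, false⟩,
 nat_lit 300000, nat_lit 300000, nat_lit 136591, nat_lit 300000, nat_lit 242553, nat_lit 13730, nat_lit 60000, nat_lit 0, nat_lit 0, nat_lit 60000, nat_lit 0, nat_lit 0, nat_lit 0, nat_lit 0, nat_lit 0, nat_lit 0, nat_lit 35464828697, nat_lit 0, [],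
 ⟨p001_k25, nat_lit 0, nat_lit 0, nat_lit 0, nat_lit 0, nat_lit 23338, [nat_lit 7089500001, nat_lit 7968000001, nat_lit 8885500000], [], [nat_lit 67870523594, nat_lit 6106342568, nat_lit 59998880292, nat_lit 0], nat_lit 1271250, nat_lit 1271250, nat_lit 0, nat_lit 490000, nat_lit 0, nat_lit 0, [nat_lit 1553750, nat_lit 1271250, nat_lit 1271250], [nat_lit 171, nat_lit 40, nat_lit 20, nat_lit 40]⟩, ⟨p001_k26, nat_lit 0, nat_lit 0, nat_lit 0, nat_lit 0, nat_lit 24839, [nat_lit 7089500000, nat_lit 7968000000, nat_lit 8885500000], [], [nat_lit 27544314920, nat_lit 23771642870, nat_lit 26458643940, nat_lit 22772564570], nat_lit 1271250, nat_lit 1271250, nat_lit 0, nat_lit 490000, nat_lit 0, nat_lit 0, [nat_lit 1553750, nat_lit 1271250, nat_lit 1271250], [nat_lit 171, nat_lit 40, nat_lit 20, nat_lit 40]⟩,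
 zbF0, []⟩
noncomputable def p001_l50 : Lf2 := ⟨nat_lit 0, nat_lit 1, [nat_lit 19, nat_lit 5, nat_lit 5, nat_lit 20], false, nat_lit 0, nat_lit 0, nat_lit 0, nat_lit 0, ⟨nat_lit 1000, nat_lit 0, nat_lit 0, nat_lit 0, nat_lit 0, nat_lit 0, nat_lit 0, nat_lit 0, nat_lit 0, nat_lit 0, nat_lit 0, nat_lit 0, nat_lit 0, nat_lit 0, nat_lit 0, nat_lit 0, false, false⟩,
 nat_lit 300000, nat_lit 55544, nat_lit 296716, nat_lit 0, nat_lit 143730, nat_lit 226920, nat_lit 60000, nat_lit 20000, nat_lit 0, nat_lit 0, nat_lit 2318, nat_lit 0, nat_lit 0, nat_lit 0, nat_lit 0, nat_lit 0, nat_lit 0, nat_lit 0, [],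
 ⟨p001_k25, nat_lit 0, nat_lit 0, nat_lit 0, nat_lit 0, nat_lit 23338, [nat_lit 447089500000, nat_lit 487968000000, nat_lit 528885500000], [], [nat_lit 1171787584570, nat_lit 1133200535200, nat_lit 1069278914600, nat_lit 1069884214960], nat_lit 1271250, nat_lit 1271250, nat_lit 490000, nat_lit 1100001, nat_lit 0, nat_lit 0, [nat_lit 1553750, nat_lit 1271250, nat_lit 1271250], [nat_lit 171, nat_lit 40, nat_lit 20, nat_lit 40]⟩, ⟨p001_k26, nat_lit 0, nat_lit 0, nat_lit 0, nat_lit 0, nat_lit 24839, [nat_lit 58085500000, nat_lit 63600000000, nat_lit 69153500000], [], [nat_lit 46538355760, nat_lit 15223656600, nat_lit 122684698800, nat_lit 63597226920], nat_lit 1271250, nat_lit 1271250, nat_lit 490000, nat_lit 1100001, nat_lit 0, nat_lit 0, [nat_lit 1553750, nat_lit 1271250, nat_lit 1271250], [nat_lit 171, nat_lit 40, nat_lit 20, nat_lit 40]⟩,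
 zbF0, []⟩
noncomputable def p001_l51 : Lf2 := ⟨nat_lit 2, nat_lit 1, [nat_lit 19, nat_lit 5, nat_lit 5, nat_lit 20], true, nat_lit 0, nat_lit 0, nat_lit 0, nat_lit 0, zbN0,
 nat_lit 0, nat_lit 0, nat_lit 0, nat_lit 0, nat_lit 0, nat_lit 0, nat_lit 0, nat_lit 0, nat_lit 0, nat_lit 0, nat_lit 0, nat_lit 0, nat_lit 0, nat_lit 0, nat_lit 0, nat_lit 0, nat_lit 0, nat_lit 0, [],
 ⟨p001_k15, nat_lit 0, nat_lit 0, nat_lit 312, nat_lit 0, nat_lit 51408, [], [], [], nat_lit 1271250, nat_lit 1271250, nat_lit 0, nat_lit 1100001, nat_lit 0, nat_lit 0, [nat_lit 1695000, nat_lit 1271250], [nat_lit 77, nat_lit 40, nat_lit 20, nat_lit 80, nat_lit 17, nat_lit 317, nat_lit 100, nat_lit 10]⟩, C1.Rw.none,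
 zbF0, []⟩
noncomputable def p001_l52 : Lf2 := ⟨nat_lit 1, nat_lit 2, [nat_lit 10, nat_lit 5, nat_lit 5, nat_lit 20], false, nat_lit 0, nat_lit 0, nat_lit 0, nat_lit 0, zbN0,
 nat_lit 0, nat_lit 0, nat_lit 0, nat_lit 0, nat_lit 0, nat_lit 0, nat_lit 0, nat_lit 0, nat_lit 0, nat_lit 0, nat_lit 0, nat_lit 0, nat_lit 0, nat_lit 0, nat_lit 0, nat_lit 0, nat_lit 0, nat_lit 0, [],
 C1.Rw.none, C1.Rw.none,
 zbF0, []⟩
noncomputable def p001_l53 : Lf2 := ⟨nat_lit 0, nat_lit 2, [nat_lit 10, nat_lit 5, nat_lit 5, nat_lit 20], false, nat_lit 0, nat_lit 0, nat_lit 0, nat_lit 0, ⟨nat_lit 1000, nat_lit 0, nat_lit 0, nat_lit 0, nat_lit 0, nat_lit 0, nat_lit 0, nat_lit 0, nat_lit 0, nat_lit 0, nat_lit 0, nat_lit 0, nat_lit 0, nat_lit 0, nat_lit 0, nat_lit 0, false, false⟩,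
 nat_lit 38679, nat_lit 0, nat_lit 0, nat_lit 0, nat_lit 15636, nat_lit 0, nat_lit 7090, nat_lit 0, nat_lit 0, nat_lit 0, nat_lit 0, nat_lit 469, nat_lit 0, nat_lit 0, nat_lit 0, nat_lit 0, nat_lit 0, nat_lit 0, [],
 ⟨p001_k0, nat_lit 0, nat_lit 0, nat_lit 0, nat_lit 0, nat_lit 61990, [nat_lit 3282000000, nat_lit 5449500000, nat_lit 7968000001, nat_lit 9842000000], [], [nat_lit 25985468126, nat_lit 26555199906, nat_lit 15105247902, nat_lit 15667750658], nat_lit 1271250, nat_lit 1271250, nat_lit 0, nat_lit 490000, nat_lit 0, nat_lit 0, [nat_lit 780000, nat_lit 1271250, nat_lit 1271250, nat_lit 1271250], [nat_lit 52, nat_lit 40, nat_lit 20, nat_lit 80]⟩, ⟨p001_k0, nat_lit 0, nat_lit 0, nat_lit 0, nat_lit 0, nat_lit 61990, [nat_lit 3282000000, nat_lit 5449500000, nat_lit 7968000000, nat_lit 9842000000], [], [nat_lit 4097684000, nat_lit 4468852000, nat_lit 5899012000, nat_lit 5944040000], nat_lit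 1271250, nat_lit 1271250, nat_lit 0, nat_lit 490000, nat_lit 0, nat_lit 0, [nat_lit 780000, nat_lit 1271250, nat_lit 1271250, nat_lit 1271250], [nat_lit 52, nat_lit 40, nat_lit 20, nat_lit 80]⟩,
 zbF0, []⟩
noncomputable def p001_l54 : Lf2 := ⟨nat_lit 0, nat_lit 2, [nat_lit 10, nat_lit 5, nat_lit 5, nat_lit 20], false, nat_lit 0, nat_lit 0, nat_lit 0, nat_lit 0, ⟨nat_lit 1000, nat_lit 0, nat_lit 0, nat_lit 0, nat_lit 0, nat_lit 0, nat_lit 0, nat_lit 0, nat_lit 0, nat_lit 0, nat_lit 0, nat_lit 0, nat_lit 0, nat_lit 0, nat_lit 0, nat_lit 0, false, false⟩,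
 nat_lit 17418, nat_lit 0, nat_lit 0, nat_lit 5117, nat_lit 3126, nat_lit 7041, nat_lit 0, nat_lit 0, nat_lit 0, nat_lit 0, nat_lit 0, nat_lit 0, nat_lit 0, nat_lit 16009645065623, nat_lit 0, nat_lit 0, nat_lit 0, nat_lit 0, [],
 ⟨p001_k0, nat_lit 0, nat_lit 0, nat_lit 0, nat_lit 0, nat_lit 61990, [nat_lit 3282000000, nat_lit 5449500000, nat_lit 7968000001, nat_lit 9842000000], [], [nat_lit 36465283358, nat_lit 35640019353, nat_lit 36612353657, nat_lit 36879050193], nat_lit 1271250, nat_lit 1271250, nat_lit 490000, nat_lit 1100001, nat_lit 0, nat_lit 0, [nat_lit 780000, nat_lit 1271250, nat_lit 1271250, nat_lit 1271250], [nat_lit 52, nat_lit 40, nat_lit 20, nat_lit 80]⟩, ⟨p001_k0, nat_lit 0, nat_lit 0, nat_lit 0, nat_lit 0, nat_lit 61990, [nat_lit 3282000000, nat_lit 5449500000, nat_lit 7968000000, nat_lit 9842000000], [], [nat_lit 5674729948, nat_lit 6422695024, nat_lit 8418989640, nat_lit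 7473717752], nat_lit 1271250, nat_lit 1271250, nat_lit 490000, nat_lit 1100001, nat_lit 0, nat_lit 0, [nat_lit 780000, nat_lit 1271250, nat_lit 1271250, nat_lit 1271250], [nat_lit 52, nat_lit 40, nat_lit 20, nat_lit 80]⟩,
 zbF0, []⟩
noncomputable def p001_l55 : Lf2 := ⟨nat_lit 0, nat_lit 2, [nat_lit 10, nat_lit 5, nat_lit 5, nat_lit 20], false, nat_lit 0, nat_lit 0, nat_lit 0, nat_lit 0, ⟨nat_lit 1000, nat_lit 0, nat_lit 0, nat_lit 0, nat_lit 0, nat_lit 0, nat_lit 0, nat_lit 0, nat_lit 0, nat_lit 0, nat_lit 0, nat_lit 0, nat_lit 0, nat_lit 0, nat_lit 0, nat_lit 0, false, false⟩,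
 nat_lit 126893, nat_lit 0, nat_lit 0, nat_lit 0, nat_lit 51297, nat_lit 0, nat_lit 0, nat_lit 2456, nat_lit 0, nat_lit 0, nat_lit 0, nat_lit 573, nat_lit 0, nat_lit 128649548612291, nat_lit 0, nat_lit 0, nat_lit 0, nat_lit 0, [],
 ⟨p001_k2, nat_lit 0, nat_lit 0, nat_lit 0, nat_lit 0, nat_lit 61990, [nat_lit 55370000001, nat_lit 66912000000, nat_lit 78610000000], [], [nat_lit 175975717512, nat_lit 163186134509, nat_lit 199302570414, nat_lit 186703462947], nat_lit 1271250, nat_lit 1271250, nat_lit 0, nat_lit 1100001, nat_lit 0, nat_lit 0, [nat_lit 1412500, nat_lit 1271250, nat_lit 1271250], [nat_lit 25, nat_lit 40, nat_lit 20, nat_lit 40]⟩, ⟨p001_k19, nat_lit 0, nat_lit 0, nat_lit 0, nat_lit 0, nat_lit 61990, [nat_lit 2637500000, nat_lit 6250000000, nat_lit 7968000000, nat_lit 9842000000], [], [nat_lit 4089407000, nat_lit 4463024000, nat_lit 8080016000, nat_lit 8080016000], nat_lit 1271250,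 nat_lit 1271250, nat_lit 0, nat_lit 1100001, nat_lit 0, nat_lit 0, [nat_lit 631250, nat_lit 1431250, nat_lit 1271250, nat_lit 1271250], [nat_lit 130, nat_lit 40, nat_lit 20, nat_lit 40]⟩,
 zbF0, []⟩
noncomputable def p001_l56 : Lf2 := ⟨nat_lit 2, nat_lit 2, [nat_lit 10, nat_lit 5, nat_lit 5, nat_lit 20], true, nat_lit 0, nat_lit 0, nat_lit 0, nat_lit 0, zbN0,
 nat_lit 0, nat_lit 0, nat_lit 0, nat_lit 0, nat_lit 0, nat_lit 0, nat_lit 0, nat_lit 0, nat_lit 0, nat_lit 0, nat_lit 0, nat_lit 0, nat_lit 0, nat_lit 0, nat_lit 0, nat_lit 0, nat_lit 0, nat_lit 0, [],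
 ⟨p001_k6, nat_lit 0, nat_lit 0, nat_lit 350, nat_lit 0, nat_lit 132659, [], [], [], nat_lit 1271250, nat_lit 1271250, nat_lit 0, nat_lit 1100001, nat_lit 0, nat_lit 0, [nat_lit 1695000, nat_lit 1271250], [nat_lit 77, nat_lit 40, nat_lit 20, nat_lit 80, nat_lit 17, nat_lit 317, nat_lit 100, nat_lit 10]⟩, C1.Rw.none,
 zbF0, []⟩
noncomputable def p001_l57 : Lf2 := ⟨nat_lit 0, nat_lit 2, [nat_lit 10, nat_lit 5, nat_lit 5, nat_lit 20], false, nat_lit 0, nat_lit 0, nat_lit 0, nat_lit 0, ⟨nat_lit 1000, nat_lit 0, nat_lit 0, nat_lit 0, nat_lit 0, nat_lit 0, nat_lit 0, nat_lit 0, nat_lit 0, nat_lit 0, nat_lit 0, nat_lit 0, nat_lit 0, nat_lit 0, nat_lit 0, nat_lit 0, false, false⟩,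
 nat_lit 38679, nat_lit 0, nat_lit 0, nat_lit 0, nat_lit 15636, nat_lit 0, nat_lit 7090, nat_lit 0, nat_lit 0, nat_lit 0, nat_lit 0, nat_lit 541, nat_lit 0, nat_lit 0, nat_lit 0, nat_lit 0, nat_lit 0, nat_lit 0, [],
 ⟨p001_k0, nat_lit 0, nat_lit 0, nat_lit 0, nat_lit 0, nat_lit 61990, [nat_lit 3282000000, nat_lit 5449500000, nat_lit 7968000001, nat_lit 9842000000], [], [nat_lit 25985468126, nat_lit 26555199906, nat_lit 15105247902, nat_lit 15667750658], nat_lit 1271250, nat_lit 1271250, nat_lit 0, nat_lit 490000, nat_lit 0, nat_lit 0, [nat_lit 780000, nat_lit 1271250, nat_lit 1271250, nat_lit 1271250], [nat_lit 52, nat_lit 40, nat_lit 20, nat_lit 80]⟩, ⟨p001_k0, nat_lit 0, nat_lit 0, nat_lit 0, nat_lit 0, nat_lit 61990, [nat_lit 3282000000, nat_lit 5449500000, nat_lit 7968000000, nat_lit 9842000000], [], [nat_lit 4113302000, nat_lit 4470888000, nat_lit 5921512000, nat_lit 5925652000], nat_lit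 1271250, nat_lit 1271250, nat_lit 0, nat_lit 490000, nat_lit 0, nat_lit 0, [nat_lit 780000, nat_lit 1271250, nat_lit 1271250, nat_lit 1271250], [nat_lit 52, nat_lit 40, nat_lit 20, nat_lit 80]⟩,
 zbF0, []⟩
noncomputable def p001_l58 : Lf2 := ⟨nat_lit 0, nat_lit 2, [nat_lit 10, nat_lit 5, nat_lit 5, nat_lit 20], false, nat_lit 0, nat_lit 0, nat_lit 0, nat_lit 0, ⟨nat_lit 1000, nat_lit 0, nat_lit 0, nat_lit 0, nat_lit 0, nat_lit 0, nat_lit 0, nat_lit 0, nat_lit 0, nat_lit 0, nat_lit 0, nat_lit 0, nat_lit 0, nat_lit 0, nat_lit 0, nat_lit 0, false, false⟩,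
 nat_lit 12765, nat_lit 0, nat_lit 0, nat_lit 9164, nat_lit 5160, nat_lit 0, nat_lit 4552, nat_lit 0, nat_lit 0, nat_lit 0, nat_lit 0, nat_lit 742, nat_lit 0, nat_lit 0, nat_lit 0, nat_lit 0, nat_lit 0, nat_lit 0, [],
 ⟨p001_k0, nat_lit 0, nat_lit 0, nat_lit 0, nat_lit 0, nat_lit 22234, [nat_lit 3282000000, nat_lit 5449500000, nat_lit 7968000001, nat_lit 9842000000], [], [nat_lit 20599423960, nat_lit 20820317081, nat_lit 17991705761, nat_lit 18239670321], nat_lit 1271250, nat_lit 1271250, nat_lit 0, nat_lit 490000, nat_lit 0, nat_lit 0, [nat_lit 780000, nat_lit 1271250, nat_lit 1271250, nat_lit 1271250], [nat_lit 52, nat_lit 40, nat_lit 20, nat_lit 80]⟩, ⟨p001_k0, nat_lit 0, nat_lit 0, nat_lit 0, nat_lit 0, nat_lit 22234, [nat_lit 3282000000, nat_lit 5449500000, nat_lit 7968000000, nat_lit 9842000000], [], [nat_lit 821684000, nat_lit 1007268000, nat_lit 2623012000, nat_lit 2623012000], nat_lit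 1271250, nat_lit 1271250, nat_lit 0, nat_lit 490000, nat_lit 0, nat_lit 0, [nat_lit 780000, nat_lit 1271250, nat_lit 1271250, nat_lit 1271250], [nat_lit 52, nat_lit 40, nat_lit 20, nat_lit 80]⟩,
 zbF0, []⟩
noncomputable def p001_l59 : Lf2 := ⟨nat_lit 0, nat_lit 1, [nat_lit 19, nat_lit 5, nat_lit 5, nat_lit 20], false, nat_lit 0, nat_lit 0, nat_lit 0, nat_lit 0, ⟨nat_lit 1000, nat_lit 0, nat_lit 0, nat_lit 0, nat_lit 0, nat_lit 0, nat_lit 0, nat_lit 0, nat_lit 0, nat_lit 0, nat_lit 0, nat_lit 0, nat_lit 0, nat_lit 0, nat_lit 0, nat_lit 0, false, false⟩,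
 nat_lit 0, nat_lit 37672, nat_lit 0, nat_lit 0, nat_lit 15685, nat_lit 0, nat_lit 6097, nat_lit 0, nat_lit 0, nat_lit 0, nat_lit 0, nat_lit 739, nat_lit 0, nat_lit 0, nat_lit 0, nat_lit 0, nat_lit 0, nat_lit 0, [],
 ⟨p001_k7, nat_lit 0, nat_lit 0, nat_lit 0, nat_lit 0, nat_lit 43721, [nat_lit 3282000000, nat_lit 5449500000, nat_lit 7968000001, nat_lit 9842000000], [], [nat_lit 26249917505, nat_lit 26421099508, nat_lit 15327735320, nat_lit 15496749585], nat_lit 1271250, nat_lit 1271250, nat_lit 0, nat_lit 490000, nat_lit 0, nat_lit 0, [nat_lit 780000, nat_lit 1271250, nat_lit 1271250, nat_lit 1271250], [nat_lit 52, nat_lit 40, nat_lit 20, nat_lit 80]⟩, ⟨p001_k14, nat_lit 0, nat_lit 0, nat_lit 0, nat_lit 0, nat_lit 45055, [nat_lit 3282000000, nat_lit 5449500000, nat_lit 7968000000, nat_lit 9842000000], [], [nat_lit 891349000, nat_lit 1160337000, nat_lit 2659012000, nat_lit 2659012000], nat_lit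 1271250, nat_lit 1271250, nat_lit 0, nat_lit 490000, nat_lit 0, nat_lit 0, [nat_lit 780000, nat_lit 1271250, nat_lit 1271250, nat_lit 1271250], [nat_lit 52, nat_lit 40, nat_lit 20, nat_lit 80]⟩,
 zbF0, []⟩
noncomputable def p001_l60 : Lf2 := ⟨nat_lit 0, nat_lit 1, [nat_lit 19, nat_lit 5, nat_lit 5, nat_lit 20], false, nat_lit 0, nat_lit 0, nat_lit 0, nat_lit 0, ⟨nat_lit 1000, nat_lit 0, nat_lit 0, nat_lit 0, nat_lit 0, nat_lit 0, nat_lit 0, nat_lit 0, nat_lit 0, nat_lit 0, nat_lit 0, nat_lit 0, nat_lit 0, nat_lit 0, nat_lit 0, nat_lit 0, false, false⟩,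
 nat_lit 0, nat_lit 29380, nat_lit 0, nat_lit 0, nat_lit 12447, nat_lit 0, nat_lit 8589, nat_lit 0, nat_lit 0, nat_lit 0, nat_lit 0, nat_lit 584, nat_lit 0, nat_lit 0, nat_lit 0, nat_lit 0, nat_lit 0, nat_lit 0, [],
 ⟨p001_k9, nat_lit 0, nat_lit 0, nat_lit 0, nat_lit 0, nat_lit 57753, [nat_lit 7089500001, nat_lit 8885500000], [], [nat_lit 21949161492, nat_lit 22050361781, nat_lit 20936660211, nat_lit 20268333482], nat_lit 1271250, nat_lit 1271250, nat_lit 0, nat_lit 490000, nat_lit 0, nat_lit 0, [nat_lit 1553750, nat_lit 1271250], [nat_lit 162, nat_lit 40, nat_lit 20, nat_lit 40]⟩, ⟨p001_k27, nat_lit 0, nat_lit 0, nat_lit 0, nat_lit 0, nat_lit 60577, [nat_lit 7089500000, nat_lit 8885500000], [], [nat_lit 4121972000, nat_lit 4466004000, nat_lit 5581512000, nat_lit 5881644000], nat_lit 1271250, nat_lit 1271250, nat_lit 0, nat_lit 490000, nat_lit 0, nat_lit 0, [nat_lit 1553750, nat_lit 1271250],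 [nat_lit 162, nat_lit 40, nat_lit 20, nat_lit 40]⟩,
 zbF0, []⟩
noncomputable def p001_l61 : Lf2 := ⟨nat_lit 0, nat_lit 2, [nat_lit 10, nat_lit 5, nat_lit 5, nat_lit 20], false, nat_lit 0, nat_lit 0, nat_lit 0, nat_lit 0, ⟨nat_lit 1000, nat_lit 0, nat_lit 0, nat_lit 0, nat_lit 0, nat_lit 0, nat_lit 0, nat_lit 0, nat_lit 0, nat_lit 0, nat_lit 0, nat_lit 0, nat_lit 0, nat_lit 0, nat_lit 0, nat_lit 0, false, false⟩,
 nat_lit 0, nat_lit 12379, nat_lit 0, nat_lit 9961, nat_lit 5154, nat_lit 0, nat_lit 3868, nat_lit 0, nat_lit 0, nat_lit 0, nat_lit 0, nat_lit 792, nat_lit 0, nat_lit 0, nat_lit 0, nat_lit 0, nat_lit 0, nat_lit 380651000, [],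
 ⟨p001_k11, nat_lit 0, nat_lit 0, nat_lit 0, nat_lit 0, nat_lit 1601, [nat_lit 3282000000, nat_lit 5449500000, nat_lit 7968000001, nat_lit 9842000000], [], [nat_lit 20857419295, nat_lit 21077359913, nat_lit 18248615109, nat_lit 18496473073], nat_lit 1271250, nat_lit 1271250, nat_lit 0, nat_lit 490000, nat_lit 0, nat_lit 0, [nat_lit 780000, nat_lit 1271250, nat_lit 1271250, nat_lit 1271250], [nat_lit 52, nat_lit 40, nat_lit 20, nat_lit 80]⟩, ⟨p001_k0, nat_lit 0, nat_lit 0, nat_lit 0, nat_lit 0, nat_lit 1675, [nat_lit 3282000000, nat_lit 5449500000, nat_lit 7968000000, nat_lit 9842000000], [], [nat_lit 0, nat_lit 336235000, nat_lit 1784163000, nat_lit 1788303000], nat_lit 1271250, nat_lit 1271250, nat_lit 0, nat_lit 490000, nat_lit 0, nat_lit 0, [nat_lit 780000, nat_lit 1271250, nat_lit 1271250, nat_lit 1271250], [nat_lit 52, nat_lit 40, nat_lit 20, nat_lit 80]⟩,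
 zbF0, []⟩
noncomputable def p001_l62 : Lf2 := ⟨nat_lit 0, nat_lit 2, [nat_lit 10, nat_lit 5, nat_lit 5, nat_lit 20], false, nat_lit 0, nat_lit 0, nat_lit 0, nat_lit 0, ⟨nat_lit 1000, nat_lit 0, nat_lit 0, nat_lit 0, nat_lit 0, nat_lit 0, nat_lit 0, nat_lit 0, nat_lit 0, nat_lit 0, nat_lit 0, nat_lit 0, nat_lit 0, nat_lit 0, nat_lit 0, nat_lit 0, false, false⟩,
 nat_lit 266042, nat_lit 0, nat_lit 300000, nat_lit 0, nat_lit 3405, nat_lit 228825, nat_lit 60000, nat_lit 0, nat_lit 0, nat_lit 60000, nat_lit 20000, nat_lit 0, nat_lit 0, nat_lit 0, nat_lit 0, nat_lit 0, nat_lit 0, nat_lit 0, [],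
 ⟨p001_k0, nat_lit 0, nat_lit 0, nat_lit 0, nat_lit 0, nat_lit 61990, [nat_lit 3282000000, nat_lit 5449500000, nat_lit 7968000001, nat_lit 9842000000], [], [nat_lit 36669157865, nat_lit 35768981420, nat_lit 35749589681, nat_lit 36018388761], nat_lit 1271250, nat_lit 1271250, nat_lit 490000, nat_lit 1100001, nat_lit 0, nat_lit 0, [nat_lit 780000, nat_lit 1271250, nat_lit 1271250, nat_lit 1271250], [nat_lit 52, nat_lit 40, nat_lit 20, nat_lit 80]⟩, ⟨p001_k0, nat_lit 0, nat_lit 0, nat_lit 0, nat_lit 0, nat_lit 61990, [nat_lit 243282000000, nat_lit 365449500000, nat_lit 487968000000, nat_lit 569842000000], [], [nat_lit 61334079100, nat_lit 27816866800, nat_lit 73662069000, nat_lit 5971972800], nat_lit 1271250, nat_lit 1271250, nat_lit 490000, nat_lit 1100001, nat_lit 0, nat_lit 0, [nat_lit 780000, nat_lit 1271250, nat_lit 1271250, nat_lit 1271250], [nat_lit 52, nat_lit 40, nat_lit 20, nat_lit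 80]⟩,
 zbF0, []⟩
noncomputable def p001_l63 : Lf2 := ⟨nat_lit 0, nat_lit 2, [nat_lit 10, nat_lit 5, nat_lit 5, nat_lit 20], false, nat_lit 0, nat_lit 0, nat_lit 0, nat_lit 0, ⟨nat_lit 1000, nat_lit 0, nat_lit 0, nat_lit 0, nat_lit 0, nat_lit 0, nat_lit 0, nat_lit 0, nat_lit 0, nat_lit 0, nat_lit 0, nat_lit 0, nat_lit 0, nat_lit 0, nat_lit 0, nat_lit 0, false, false⟩,
 nat_lit 225878, nat_lit 0, nat_lit 0, nat_lit 0, nat_lit 91312, nat_lit 14459, nat_lit 0, nat_lit 3249, nat_lit 0, nat_lit 0, nat_lit 0, nat_lit 0, nat_lit 0, nat_lit 230742038587260, nat_lit 0, nat_lit 0, nat_lit 0, nat_lit 0, [],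
 ⟨p001_k2, nat_lit 0, nat_lit 0, nat_lit 0, nat_lit 0, nat_lit 61990, [nat_lit 71230000001, nat_lit 85944000000, nat_lit 100814000000], [], [nat_lit 215560600467, nat_lit 191783960099, nat_lit 253651627859, nat_lit 231224396227], nat_lit 1271250, nat_lit 1271250, nat_lit 0, nat_lit 1100001, nat_lit 0, nat_lit 0, [nat_lit 1412500, nat_lit 1271250, nat_lit 1271250], [nat_lit 25, nat_lit 40, nat_lit 20, nat_lit 40]⟩, ⟨p001_k19, nat_lit 0, nat_lit 0, nat_lit 0, nat_lit 0, nat_lit 61990, [nat_lit 2637500000, nat_lit 6250000000, nat_lit 7968000000, nat_lit 9842000000], [], [nat_lit 24044572399, nat_lit 24892583704, nat_lit 13582301526, nat_lit 12370595388], nat_lit 1271250, nat_lit 1271250, nat_lit 0, nat_lit 1100001, nat_lit 0, nat_lit 0, [nat_lit 631250, nat_lit 1431250, nat_lit 1271250, nat_lit 1271250], [nat_lit 130, nat_lit 40, nat_lit 20, nat_lit 40]⟩,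
 zbF0, []⟩
noncomputable def p001_l64 : Lf2 := ⟨nat_lit 2, nat_lit 2, [nat_lit 10, nat_lit 5, nat_lit 5, nat_lit 20], true, nat_lit 0, nat_lit 0, nat_lit 0, nat_lit 0, zbN0,
 nat_lit 0, nat_lit 0, nat_lit 0, nat_lit 0, nat_lit 0, nat_lit 0, nat_lit 0, nat_lit 0, nat_lit 0, nat_lit 0, nat_lit 0, nat_lit 0, nat_lit 0, nat_lit 0, nat_lit 0, nat_lit 0, nat_lit 0, nat_lit 0, [],
 ⟨p001_k6, nat_lit 0, nat_lit 0, nat_lit 350, nat_lit 0, nat_lit 132659, [], [], [], nat_lit 1271250, nat_lit 1271250, nat_lit 0, nat_lit 1100001, nat_lit 0, nat_lit 0, [nat_lit 1695000, nat_lit 1271250], [nat_lit 77, nat_lit 40, nat_lit 20, nat_lit 80, nat_lit 17, nat_lit 317, nat_lit 100, nat_lit 10]⟩, C1.Rw.none,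
 zbF0, []⟩
noncomputable def p001_l65 : Lf2 := ⟨nat_lit 0, nat_lit 1, [nat_lit 19, nat_lit 5, nat_lit 5, nat_lit 20], false, nat_lit 0, nat_lit 0, nat_lit 0, nat_lit 0, ⟨nat_lit 1000, nat_lit 0, nat_lit 0, nat_lit 0, nat_lit 0, nat_lit 0, nat_lit 0, nat_lit 0, nat_lit 0, nat_lit 0, nat_lit 0, nat_lit 0, nat_lit 0, nat_lit 0, nat_lit 0, nat_lit 0, false, false⟩,
 nat_lit 12765, nat_lit 0, nat_lit 0, nat_lit 26612, nat_lit 5160, nat_lit 5160, nat_lit 4552, nat_lit 0, nat_lit 0, nat_lit 4552, nat_lit 0, nat_lit 0, nat_lit 0, nat_lit 0, nat_lit 0, nat_lit 0, nat_lit 0, nat_lit 0, [],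
 ⟨p001_k14, nat_lit 0, nat_lit 0, nat_lit 0, nat_lit 0, nat_lit 21643, [nat_lit 3282000000, nat_lit 5449500000, nat_lit 7968000001, nat_lit 9842000000], [], [nat_lit 20599423960, nat_lit 20820317081, nat_lit 17991705761, nat_lit 18239670321], nat_lit 1271250, nat_lit 1271250, nat_lit 0, nat_lit 490000, nat_lit 0, nat_lit 0, [nat_lit 780000, nat_lit 1271250, nat_lit 1271250, nat_lit 1271250], [nat_lit 52, nat_lit 40, nat_lit 20, nat_lit 80]⟩, ⟨p001_k14, nat_lit 0, nat_lit 0, nat_lit 0, nat_lit 0, nat_lit 21643, [nat_lit 3282000000, nat_lit 5449500000, nat_lit 7968000000, nat_lit 9842000000], [], [nat_lit 20599423960, nat_lit 20820317080, nat_lit 17991705760, nat_lit 18239670320], nat_lit 1271250, nat_lit 1271250, nat_lit 0, nat_lit 490000, nat_lit 0, nat_lit 0, [nat_lit 780000, nat_lit 1271250, nat_lit 1271250, nat_lit 1271250], [nat_lit 52, nat_lit 40, nat_lit 20, nat_lit 80]⟩,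
 zbF0, []⟩
noncomputable def p001_l66 : Lf2 := ⟨nat_lit 0, nat_lit 1, [nat_lit 19, nat_lit 5, nat_lit 5, nat_lit 20], false, nat_lit 0, nat_lit 0, nat_lit 0, nat_lit 0, ⟨nat_lit 1000, nat_lit 0, nat_lit 0, nat_lit 0, nat_lit 0, nat_lit 0, nat_lit 0, nat_lit 0, nat_lit 0, nat_lit 0, nat_lit 0, nat_lit 0, nat_lit 0, nat_lit 0, nat_lit 0, nat_lit 0, false, false⟩,
 nat_lit 12750, nat_lit 0, nat_lit 0, nat_lit 8353, nat_lit 0, nat_lit 5154, nat_lit 1088, nat_lit 0, nat_lit 473, nat_lit 4518, nat_lit 0, nat_lit 0, nat_lit 0, nat_lit 577939268102, nat_lit 0, nat_lit 0, nat_lit 0, nat_lit 0, [],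
 ⟨p001_k7, nat_lit 0, nat_lit 0, nat_lit 0, nat_lit 0, nat_lit 58784, [nat_lit 3282000000, nat_lit 5449500000, nat_lit 7968000001, nat_lit 9842000000], [], [nat_lit 7451401500, nat_lit 7611584001, nat_lit 7549317501, nat_lit 7709940801], nat_lit 1271250, nat_lit 1271250, nat_lit 0, nat_lit 43600, nat_lit 0, nat_lit 0, [nat_lit 780000, nat_lit 1271250, nat_lit 1271250, nat_lit 1271250], [nat_lit 52, nat_lit 40, nat_lit 20, nat_lit 80]⟩, ⟨p001_k14, nat_lit 0, nat_lit 0, nat_lit 0, nat_lit 0, nat_lit 60577, [nat_lit 3282000000, nat_lit 5449500000, nat_lit 7968000000, nat_lit 9842000000], [], [nat_lit 20636986324, nat_lit 21077359912, nat_lit 20028989890, nat_lit 20535851615], nat_lit 1271250, nat_lit 1271250, nat_lit 0, nat_lit 43600, nat_lit 0, nat_lit 0, [nat_lit 780000, nat_lit 1271250, nat_lit 1271250, nat_lit 1271250], [nat_lit 52, nat_lit 40, nat_lit 20, nat_lit 80]⟩,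
 zbF0, []⟩
noncomputable def p001_l67 : Lf2 := ⟨nat_lit 0, nat_lit 1, [nat_lit 19, nat_lit 5, nat_lit 5, nat_lit 20], false, nat_lit 0, nat_lit 0, nat_lit 0, nat_lit 0, ⟨nat_lit 1000, nat_lit 0, nat_lit 0, nat_lit 0, nat_lit 0, nat_lit 0, nat_lit 0, nat_lit 0, nat_lit 0, nat_lit 0, nat_lit 0, nat_lit 0, nat_lit 0, nat_lit 0, nat_lit 0, nat_lit 0, false, false⟩,
 nat_lit 10653, nat_lit 236229, nat_lit 0, nat_lit 0, nat_lit 102794, nat_lit 4306, nat_lit 55096, nat_lit 10317, nat_lit 0, nat_lit 3980, nat_lit 0, nat_lit 0, nat_lit 0, nat_lit 0, nat_lit 0, nat_lit 0, nat_lit 0, nat_lit 0, [],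
 ⟨p001_k17, nat_lit 0, nat_lit 0, nat_lit 0, nat_lit 0, nat_lit 58784, [nat_lit 105807500001, nat_lit 212590000001, nat_lit 255576000001, nat_lit 277127500000], [], [nat_lit 307037284026, nat_lit 308723134530, nat_lit 293731191736, nat_lit 295818815910], nat_lit 1271250, nat_lit 1271250, nat_lit 0, nat_lit 43600, nat_lit 0, nat_lit 0, [nat_lit 631250, nat_lit 1431250, nat_lit 1271250, nat_lit 1271250], [nat_lit 151, nat_lit 40, nat_lit 20, nat_lit 40]⟩, ⟨p001_k18, nat_lit 0, nat_lit 0, nat_lit 0, nat_lit 0, nat_lit 60577, [nat_lit 2637500000, nat_lit 6250000000, nat_lit 7968000000, nat_lit 8885500000], [], [nat_lit 20274006268, nat_lit 20730052672, nat_lit 19800429760, nat_lit 20286750973], nat_lit 1271250, nat_lit 1271250, nat_lit 0, nat_lit 43600, nat_lit 0, nat_lit 0, [nat_lit 631250, nat_lit 1431250, nat_lit 1271250, nat_lit 1271250], [nat_lit 151, nat_lit 40, nat_lit 20, nat_lit 40]⟩,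
 zbF0, []⟩
noncomputable def p001_l68 : Lf2 := ⟨nat_lit 0, nat_lit 1, [nat_lit 19, nat_lit 5, nat_lit 5, nat_lit 20], false, nat_lit 0, nat_lit 0, nat_lit 0, nat_lit 0, ⟨nat_lit 1000, nat_lit 0, nat_lit 0, nat_lit 0, nat_lit 0, nat_lit 0, nat_lit 0, nat_lit 0, nat_lit 0, nat_lit 0, nat_lit 0, nat_lit 0, nat_lit 0, nat_lit 0, nat_lit 0, nat_lit 0, false, false⟩,
 nat_lit 300000, nat_lit 300000, nat_lit 0, nat_lit 0, nat_lit 249822, nat_lit 5154, nat_lit 60000, nat_lit 0, nat_lit 0, nat_lit 60000, nat_lit 0, nat_lit 0, nat_lit 0, nat_lit 400000000000000, nat_lit 0, nat_lit 0, nat_lit 101400960220, nat_lit 0, [],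
 ⟨p001_k7, nat_lit 0, nat_lit 0, nat_lit 0, nat_lit 0, nat_lit 58784, [nat_lit 3282000000, nat_lit 5449500000, nat_lit 7968000001, nat_lit 9842000000], [], [nat_lit 30094535825, nat_lit 32470097230, nat_lit 0, nat_lit 2415668440], nat_lit 1271250, nat_lit 1271250, nat_lit 0, nat_lit 43600, nat_lit 0, nat_lit 0, [nat_lit 780000, nat_lit 1271250, nat_lit 1271250, nat_lit 1271250], [nat_lit 52, nat_lit 40, nat_lit 20, nat_lit 80]⟩, ⟨p001_k14, nat_lit 0, nat_lit 0, nat_lit 0, nat_lit 0, nat_lit 60577, [nat_lit 3282000000, nat_lit 5449500000, nat_lit 7968000000, nat_lit 9842000000], [], [nat_lit 20571775042, nat_lit 21077359912, nat_lit 20028989890, nat_lit 20535851615], nat_lit 1271250, nat_lit 1271250, nat_lit 0, nat_lit 43600, nat_lit 0, nat_lit 0, [nat_lit 780000, nat_lit 1271250, nat_lit 1271250, nat_lit 1271250], [nat_lit 52, nat_lit 40, nat_lit 20, nat_lit 80]⟩,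
 zbF0, []⟩
noncomputable def p001_l69 : Lf2 := ⟨nat_lit 0, nat_lit 1, [nat_lit 19, nat_lit 5, nat_lit 5, nat_lit 20], false, nat_lit 0, nat_lit 0, nat_lit 0, nat_lit 0, ⟨nat_lit 1000, nat_lit 0, nat_lit 0, nat_lit 0, nat_lit 0, nat_lit 0, nat_lit 0, nat_lit 0, nat_lit 0, nat_lit 0, nat_lit 0, nat_lit 0, nat_lit 0, nat_lit 0, nat_lit 0, nat_lit 0, false, false⟩,
 nat_lit 13086, nat_lit 0, nat_lit 0, nat_lit 6729, nat_lit 5290, nat_lit 5290, nat_lit 3906, nat_lit 0, nat_lit 0, nat_lit 4562, nat_lit 0, nat_lit 0, nat_lit 0, nat_lit 0, nat_lit 0, nat_lit 0, nat_lit 0, nat_lit 0, [],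
 ⟨p001_k7, nat_lit 0, nat_lit 0, nat_lit 0, nat_lit 0, nat_lit 58784, [nat_lit 3282000000, nat_lit 5449500000, nat_lit 7968000001, nat_lit 9842000000], [], [nat_lit 20202376263, nat_lit 20425347972, nat_lit 19330387641, nat_lit 19587261681], nat_lit 1271250, nat_lit 1271250, nat_lit 43600, nat_lit 111251, nat_lit 0, nat_lit 0, [nat_lit 780000, nat_lit 1271250, nat_lit 1271250, nat_lit 1271250], [nat_lit 52, nat_lit 40, nat_lit 20, nat_lit 80]⟩, ⟨p001_k14, nat_lit 0, nat_lit 0, nat_lit 0, nat_lit 0, nat_lit 60577, [nat_lit 3282000000, nat_lit 5449500000, nat_lit 7968000000, nat_lit 9842000000], [], [nat_lit 19979273304, nat_lit 20425216722, nat_lit 19073513600, nat_lit 19587261680], nat_lit 1271250, nat_lit 1271250, nat_lit 43600, nat_lit 111251, nat_lit 0, nat_lit 0, [nat_lit 780000, nat_lit 1271250, nat_lit 1271250, nat_lit 1271250], [nat_lit 52, nat_lit 40, nat_lit 20, nat_lit 80]⟩,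
 zbF0, []⟩
noncomputable def p001_l70 : Lf2 := ⟨nat_lit 0, nat_lit 1, [nat_lit 19, nat_lit 5, nat_lit 5, nat_lit 20], false, nat_lit 0, nat_lit 0, nat_lit 0, nat_lit 0, ⟨nat_lit 1000, nat_lit 0, nat_lit 0, nat_lit 0, nat_lit 0, nat_lit 0, nat_lit 0, nat_lit 0, nat_lit 0, nat_lit 0, nat_lit 0, nat_lit 0, nat_lit 0, nat_lit 0, nat_lit 0, nat_lit 0, false, false⟩,
 nat_lit 13620, nat_lit 0, nat_lit 0, nat_lit 5058, nat_lit 5506, nat_lit 5505, nat_lit 3967, nat_lit 0, nat_lit 0, nat_lit 4633, nat_lit 0, nat_lit 0, nat_lit 0, nat_lit 0, nat_lit 0, nat_lit 0, nat_lit 0, nat_lit 0, [],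
 ⟨p001_k7, nat_lit 0, nat_lit 0, nat_lit 0, nat_lit 0, nat_lit 58784, [nat_lit 3282000000, nat_lit 5449500000, nat_lit 7968000001, nat_lit 9842000000], [], [nat_lit 19142664013, nat_lit 19370741553, nat_lit 18311454701, nat_lit 18571675361], nat_lit 1271250, nat_lit 1271250, nat_lit 111251, nat_lit 230001, nat_lit 0, nat_lit 0, [nat_lit 780000, nat_lit 1271250, nat_lit 1271250, nat_lit 1271250], [nat_lit 52, nat_lit 40, nat_lit 20, nat_lit 80]⟩, ⟨p001_k14, nat_lit 0, nat_lit 0, nat_lit 0, nat_lit 0, nat_lit 60577, [nat_lit 3282000000, nat_lit 5449500000, nat_lit 7968000000, nat_lit 9842000000], [], [nat_lit 18914401800, nat_lit 19371743960, nat_lit 18052482200, nat_lit 18572886800], nat_lit 1271250, nat_lit 1271250, nat_lit 111251, nat_lit 230001, nat_lit 0, nat_lit 0, [nat_lit 780000, nat_lit 1271250, nat_lit 1271250, nat_lit 1271250], [nat_lit 52, nat_lit 40, nat_lit 20, nat_lit 80]⟩,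
 zbF0, []⟩
noncomputable def p001_l71 : Lf2 := ⟨nat_lit 0, nat_lit 1, [nat_lit 19, nat_lit 5, nat_lit 5, nat_lit 20], false, nat_lit 0, nat_lit 0, nat_lit 0, nat_lit 0, ⟨nat_lit 1000, nat_lit 0, nat_lit 0, nat_lit 0, nat_lit 0, nat_lit 0, nat_lit 0, nat_lit 0, nat_lit 0, nat_lit 0, nat_lit 0, nat_lit 0, nat_lit 0, nat_lit 0, nat_lit 0, nat_lit 0, false, false⟩,
 nat_lit 101895, nat_lit 0, nat_lit 0, nat_lit 0, nat_lit 18757, nat_lit 41191, nat_lit 7725, nat_lit 0, nat_lit 0, nat_lit 16499, nat_lit 0, nat_lit 0, nat_lit 0, nat_lit 0, nat_lit 0, nat_lit 0, nat_lit 0, nat_lit 4040868278, [],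
 ⟨p001_k7, nat_lit 0, nat_lit 0, nat_lit 0, nat_lit 0, nat_lit 58784, [nat_lit 3282000000, nat_lit 5449500000, nat_lit 7968000001, nat_lit 9842000000], [], [nat_lit 14935553680, nat_lit 15338725745, nat_lit 9586528700, nat_lit 10106681705], nat_lit 1271250, nat_lit 1271250, nat_lit 230001, nat_lit 490000, nat_lit 0, nat_lit 0, [nat_lit 780000, nat_lit 1271250, nat_lit 1271250, nat_lit 1271250], [nat_lit 52, nat_lit 40, nat_lit 20, nat_lit 80]⟩, ⟨p001_k14, nat_lit 0, nat_lit 0, nat_lit 0, nat_lit 0, nat_lit 60577, [nat_lit 3282000000, nat_lit 5449500000, nat_lit 7968000000, nat_lit 9842000000], [], [nat_lit 12997966889, nat_lit 14385606150, nat_lit 0, nat_lit 1891227630], nat_lit 1271250, nat_lit 1271250, nat_lit 230001, nat_lit 490000, nat_lit 0, nat_lit 0, [nat_lit 780000, nat_lit 1271250, nat_lit 1271250, nat_lit 1271250], [nat_lit 52, nat_lit 40, nat_lit 20, nat_lit 80]⟩,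
 zbF0, []⟩
noncomputable def p001_l72 : Lf2 := ⟨nat_lit 1, nat_lit 2, [nat_lit 10, nat_lit 5, nat_lit 5, nat_lit 20], false, nat_lit 0, nat_lit 0, nat_lit 0, nat_lit 0, zbN0,
 nat_lit 0, nat_lit 0, nat_lit 0, nat_lit 0, nat_lit 0, nat_lit 0, nat_lit 0, nat_lit 0, nat_lit 0, nat_lit 0, nat_lit 0, nat_lit 0, nat_lit 0, nat_lit 0, nat_lit 0, nat_lit 0, nat_lit 0, nat_lit 0, [],
 C1.Rw.none, C1.Rw.none,
 zbF0, []⟩
noncomputable def p001_l73 : Lf2 := ⟨nat_lit 0, nat_lit 2, [nat_lit 10, nat_lit 5, nat_lit 5, nat_lit 20], false, nat_lit 0, nat_lit 0, nat_lit 0, nat_lit 0, ⟨nat_lit 1000, nat_lit 0, nat_lit 0, nat_lit 0, nat_lit 0, nat_lit 0, nat_lit 0, nat_lit 0, nat_lit 0, nat_lit 0, nat_lit 0, nat_lit 0, nat_lit 0, nat_lit 0, nat_lit 0, nat_lit 0, false, false⟩,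
 nat_lit 12750, nat_lit 0, nat_lit 0, nat_lit 30143, nat_lit 5154, nat_lit 5154, nat_lit 3868, nat_lit 0, nat_lit 0, nat_lit 4518, nat_lit 0, nat_lit 0, nat_lit 0, nat_lit 26471988409136, nat_lit 0, nat_lit 0, nat_lit 0, nat_lit 0, [],
 ⟨p001_k11, nat_lit 0, nat_lit 0, nat_lit 0, nat_lit 0, nat_lit 1601, [nat_lit 3282000000, nat_lit 5449500000, nat_lit 7968000001, nat_lit 9842000000], [], [nat_lit 20857419295, nat_lit 21077359913, nat_lit 18248615109, nat_lit 18496473073], nat_lit 1271250, nat_lit 1271250, nat_lit 0, nat_lit 490000, nat_lit 0, nat_lit 0, [nat_lit 780000, nat_lit 1271250, nat_lit 1271250, nat_lit 1271250], [nat_lit 52, nat_lit 40, nat_lit 20, nat_lit 80]⟩, ⟨p001_k0, nat_lit 0, nat_lit 0, nat_lit 0, nat_lit 0, nat_lit 1675, [nat_lit 3282000000, nat_lit 5449500000, nat_lit 7968000000, nat_lit 9842000000], [], [nat_lit 20636986324, nat_lit 21077359912, nat_lit 18000757144, nat_lit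 18496473072], nat_lit 1271250, nat_lit 1271250, nat_lit 0, nat_lit 490000, nat_lit 0, nat_lit 0, [nat_lit 780000, nat_lit 1271250, nat_lit 1271250, nat_lit 1271250], [nat_lit 52, nat_lit 40, nat_lit 20, nat_lit 80]⟩,
 zbF0, []⟩
noncomputable def p001_l74 : Lf2 := ⟨nat_lit 0, nat_lit 2, [nat_lit 10, nat_lit 5, nat_lit 5, nat_lit 20], false, nat_lit 0, nat_lit 0, nat_lit 0, nat_lit 0, ⟨nat_lit 1000, nat_lit 0, nat_lit 0, nat_lit 0, nat_lit 0, nat_lit 0, nat_lit 0, nat_lit 0, nat_lit 0, nat_lit 0, nat_lit 0, nat_lit 0, nat_lit 0, nat_lit 0, nat_lit 0, nat_lit 0, false, false⟩,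
 nat_lit 142583, nat_lit 0, nat_lit 300000, nat_lit 0, nat_lit 3126, nat_lit 178916, nat_lit 0, nat_lit 0, nat_lit 0, nat_lit 60000, nat_lit 0, nat_lit 0, nat_lit 0, nat_lit 0, nat_lit 0, nat_lit 0, nat_lit 0, nat_lit 108447117840, [],
 ⟨p001_k0, nat_lit 0, nat_lit 0, nat_lit 0, nat_lit 0, nat_lit 61990, [nat_lit 3282000000, nat_lit 5449500000, nat_lit 7968000001, nat_lit 9842000000], [], [nat_lit 36465283358, nat_lit 35640019353, nat_lit 36612353657, nat_lit 36879050193], nat_lit 1271250, nat_lit 1271250, nat_lit 490000, nat_lit 1100001, nat_lit 0, nat_lit 0, [nat_lit 780000, nat_lit 1271250, nat_lit 1271250, nat_lit 1271250], [nat_lit 52, nat_lit 40, nat_lit 20, nat_lit 80]⟩, ⟨p001_k0, nat_lit 0, nat_lit 0, nat_lit 0, nat_lit 0, nat_lit 61990, [nat_lit 3282000000, nat_lit 5449500000, nat_lit 7968000000, nat_lit 9842000000], [], [nat_lit 26032556996, nat_lit 31054453392, nat_lit 0, nat_lit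 5916869952], nat_lit 1271250, nat_lit 1271250, nat_lit 490000, nat_lit 1100001, nat_lit 0, nat_lit 0, [nat_lit 780000, nat_lit 1271250, nat_lit 1271250, nat_lit 1271250], [nat_lit 52, nat_lit 40, nat_lit 20, nat_lit 80]⟩,
 zbF0, []⟩
noncomputable def p001_l75 : Lf2 := ⟨nat_lit 0, nat_lit 2, [nat_lit 10, nat_lit 5, nat_lit 5, nat_lit 20], false, nat_lit 0, nat_lit 0, nat_lit 0, nat_lit 0, ⟨nat_lit 1000, nat_lit 0, nat_lit 0, nat_lit 0, nat_lit 0, nat_lit 0, nat_lit 0, nat_lit 0, nat_lit 0, nat_lit 0, nat_lit 0, nat_lit 0, nat_lit 0, nat_lit 0, nat_lit 0, nat_lit 0, false, false⟩,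
 nat_lit 201328, nat_lit 300000, nat_lit 0, nat_lit 0, nat_lit 202664, nat_lit 49772, nat_lit 50456, nat_lit 391, nat_lit 0, nat_lit 60000, nat_lit 0, nat_lit 0, nat_lit 0, nat_lit 400000000000000, nat_lit 0, nat_lit 0, nat_lit 30934848704, nat_lit 12301467696, [],
 ⟨p001_k2, nat_lit 0, nat_lit 0, nat_lit 0, nat_lit 0, nat_lit 61990, [nat_lit 14070000000, nat_lit 17352000000, nat_lit 20790000000], [], [nat_lit 52766985512, nat_lit 0, nat_lit 131943114936, nat_lit 82166607232], nat_lit 1271250, nat_lit 1271250, nat_lit 0, nat_lit 1100001, nat_lit 0, nat_lit 0, [nat_lit 1412500, nat_lit 1271250, nat_lit 1271250], [nat_lit 25, nat_lit 40, nat_lit 20, nat_lit 40]⟩, ⟨p001_k19, nat_lit 0, nat_lit 0, nat_lit 0, nat_lit 0, nat_lit 61990, [nat_lit 2637500000, nat_lit 6250000000, nat_lit 7968000000, nat_lit 9842000000], [], [nat_lit 49576443988, nat_lit 51674358928, nat_lit 6907702576, nat_lit 0],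 nat_lit 1271250, nat_lit 1271250, nat_lit 0, nat_lit 1100001, nat_lit 0, nat_lit 0, [nat_lit 631250, nat_lit 1431250, nat_lit 1271250, nat_lit 1271250], [nat_lit 130, nat_lit 40, nat_lit 20, nat_lit 40]⟩,
 zbF0, []⟩
noncomputable def p001_l76 : Lf2 := ⟨nat_lit 2, nat_lit 2, [nat_lit 10, nat_lit 5, nat_lit 5, nat_lit 20], true, nat_lit 0, nat_lit 0, nat_lit 0, nat_lit 0, zbN0,
 nat_lit 0, nat_lit 0, nat_lit 0, nat_lit 0, nat_lit 0, nat_lit 0, nat_lit 0, nat_lit 0, nat_lit 0, nat_lit 0, nat_lit 0, nat_lit 0, nat_lit 0, nat_lit 0, nat_lit 0, nat_lit 0, nat_lit 0, nat_lit 0, [],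
 ⟨p001_k6, nat_lit 0, nat_lit 0, nat_lit 350, nat_lit 0, nat_lit 132659, [], [], [], nat_lit 1271250, nat_lit 1271250, nat_lit 0, nat_lit 1100001, nat_lit 0, nat_lit 0, [nat_lit 1695000, nat_lit 1271250], [nat_lit 77, nat_lit 40, nat_lit 20, nat_lit 80, nat_lit 17, nat_lit 317, nat_lit 100, nat_lit 10]⟩, C1.Rw.none,
 zbF0, []⟩
noncomputable def b_NL_450_450_0_11 : St := ⟨false, nat_lit 1, nat_lit 1, nat_lit 2, nat_lit 20, nat_lit 190, nat_lit 200, nat_lit 180, nat_lit 200, nat_lit 0, nat_lit 160, nat_lit 0, nat_lit 0, nat_lit 0, nat_lit 0, nat_lit 0, nat_lit 0, nat_lit 0, nat_lit 8, nat_lit 0, nat_lit 0, nat_lit 0, nat_lit 400⟩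
theorem d_NL_450_450_0_11 (h : EB TB.env) : Dead b_NL_450_450_0_11 := chkB_sound0 h (T :=
(.spl (nat_lit 1) (nat_lit 190)
(.spl (nat_lit 6) (nat_lit 4)
(.spl (nat_lit 8) (nat_lit 200)
(.spl (nat_lit 8) (nat_lit 100)
(.spl (nat_lit 7) (nat_lit 600)
(.spl (nat_lit 2) (nat_lit 80)
(.leaf p001_l39)
(.leaf p001_l40))
(.spl (nat_lit 7) (nat_lit 900)
(.leaf p001_l41)
(.leaf p001_l42)))
(.spl (nat_lit 7) (nat_lit 600)
(.spl (nat_lit 2) (nat_lit 80)
(.leaf p001_l43)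
(.leaf p001_l44))
(.spl (nat_lit 7) (nat_lit 900)
(.leaf p001_l45)
(.leaf p001_l46))))
(.spl (nat_lit 7) (nat_lit 600)
(.spl (nat_lit 2) (nat_lit 80)
(.leaf p001_l47)
(.leaf p001_l48))
(.spl (nat_lit 7) (nat_lit 900)
(.spl (nat_lit 2) (nat_lit 80)
(.leaf p001_l49)
(.leaf p001_l50))
(.leaf p001_l51))))
(.leaf p001_l52))
(.spl (nat_lit 8) (nat_lit 200)
(.spl (nat_lit 8) (nat_lit 100)
(.spl (nat_lit 7) (nat_lit 600)
(.spl (nat_lit 2) (nat_lit 80)
(.leaf p001_l53)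
(.leaf p001_l54))
(.spl (nat_lit 7) (nat_lit 900)
(.leaf p001_l55)
(.leaf p001_l56)))
(.spl (nat_lit 7) (nat_lit 600)
(.spl (nat_lit 2) (nat_lit 80)
(.spl (nat_lit 8) (nat_lit 160)
(.leaf p001_l57)
(.spl (nat_lit 0) (nat_lit 195)
(.ord (.leaf p001_l58))
(.spl (nat_lit 6) (nat_lit 4)
(.spl (nat_lit 0) (nat_lit 198)
(.ord (.leaf p001_l59))
(.leaf p001_l60))
(.leaf p001_l61))))
(.leaf p001_l62))
(.spl (nat_lit 7) (nat_lit 900)
(.leaf p001_l63)
(.leaf p001_l64))))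
(.spl (nat_lit 7) (nat_lit 600)
(.spl (nat_lit 2) (nat_lit 80)
(.spl (nat_lit 6) (nat_lit 4)
(.spl (nat_lit 0) (nat_lit 195)
(.ord (.leaf p001_l65))
(.spl (nat_lit 2) (nat_lit 40)
(.spl (nat_lit 2) (nat_lit 20)
(.spl (nat_lit 2) (nat_lit 8)
(.spl (nat_lit 7) (nat_lit 300)
(.leaf p001_l66)
(.spl (nat_lit 7) (nat_lit 460)
(.leaf p001_l67)
(.leaf p001_l68)))
(.leaf p001_l69))
(.leaf p001_l70))
(.leaf p001_l71)))
(.spl (nat_lit 0) (nat_lit 195)
(.ord (.leaf p001_l72))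
(.leaf p001_l73)))
(.leaf p001_l74))
(.spl (nat_lit 7) (nat_lit 900)
(.leaf p001_l75)
(.leaf p001_l76)))))) (by decide +kernel)
noncomputable def p001_l77 : Lf2 := ⟨nat_lit 0, nat_lit 1, [nat_lit 19, nat_lit 5, nat_lit 5, nat_lit 20], false, nat_lit 0, nat_lit 0, nat_lit 0, nat_lit 0, ⟨nat_lit 1000, nat_lit 0, nat_lit 0, nat_lit 0, nat_lit 0, nat_lit 0, nat_lit 0, nat_lit 0, nat_lit 0, nat_lit 0, nat_lit 0, nat_lit 0, nat_lit 0, nat_lit 0, nat_lit 0, nat_lit 0, false, false⟩,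
 nat_lit 262901, nat_lit 0, nat_lit 300000, nat_lit 0, nat_lit 5154, nat_lit 214060, nat_lit 60000, nat_lit 0, nat_lit 0, nat_lit 60000, nat_lit 20000, nat_lit 0, nat_lit 0, nat_lit 0, nat_lit 0, nat_lit 0, nat_lit 0, nat_lit 0, [],
 ⟨p001_k14, nat_lit 0, nat_lit 0, nat_lit 0, nat_lit 0, nat_lit 7113, [nat_lit 3282000000, nat_lit 5449500000, nat_lit 7968000001, nat_lit 9842000000], [], [nat_lit 20571775043, nat_lit 21077359913, nat_lit 18000757145, nat_lit 18496473073], nat_lit 1271250, nat_lit 1271250, nat_lit 0, nat_lit 490000, nat_lit 0, nat_lit 0, [nat_lit 780000, nat_lit 1271250, nat_lit 1271250, nat_lit 1271250], [nat_lit 52, nat_lit 40, nat_lit 20, nat_lit 80]⟩, ⟨p001_k8, nat_lit 0, nat_lit 0, nat_lit 0, nat_lit 0, nat_lit 7592, [nat_lit 243282000000, nat_lit 365449500000, nat_lit 487968000000, nat_lit 569842000000], [], [nat_lit 699290541480, nat_lit 701952732560, nat_lit 527733424120,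 nat_lit 530568022410], nat_lit 1271250, nat_lit 1271250, nat_lit 0, nat_lit 490000, nat_lit 0, nat_lit 0, [nat_lit 780000, nat_lit 1271250, nat_lit 1271250, nat_lit 1271250], [nat_lit 52, nat_lit 40, nat_lit 20, nat_lit 80]⟩,
 zbF0, []⟩
noncomputable def p001_l78 : Lf2 := ⟨nat_lit 0, nat_lit 1, [nat_lit 19, nat_lit 5, nat_lit 5, nat_lit 20], false, nat_lit 0, nat_lit 0, nat_lit 0, nat_lit 0, ⟨nat_lit 1000, nat_lit 0, nat_lit 0, nat_lit 0, nat_lit 0, nat_lit 0, nat_lit 0, nat_lit 0, nat_lit 0, nat_lit 0, nat_lit 0, nat_lit 0, nat_lit 0, nat_lit 0, nat_lit 0, nat_lit 0, false, false⟩,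
 nat_lit 246032, nat_lit 0, nat_lit 300000, nat_lit 0, nat_lit 5154, nat_lit 214168, nat_lit 60000, nat_lit 0, nat_lit 0, nat_lit 60000, nat_lit 20000, nat_lit 0, nat_lit 0, nat_lit 0, nat_lit 0, nat_lit 0, nat_lit 0, nat_lit 0, [],
 ⟨p001_k14, nat_lit 0, nat_lit 0, nat_lit 0, nat_lit 0, nat_lit 23338, [nat_lit 3282000000, nat_lit 5449500000, nat_lit 7968000001, nat_lit 9842000000], [], [nat_lit 20571775043, nat_lit 21077359913, nat_lit 18000757145, nat_lit 18496473073], nat_lit 1271250, nat_lit 1271250, nat_lit 0, nat_lit 490000, nat_lit 0, nat_lit 0, [nat_lit 780000, nat_lit 1271250, nat_lit 1271250, nat_lit 1271250], [nat_lit 52, nat_lit 40, nat_lit 20, nat_lit 80]⟩, ⟨p001_k28, nat_lit 0, nat_lit 0, nat_lit 0, nat_lit 0, nat_lit 24068, [nat_lit 243282000000, nat_lit 365449500000, nat_lit 487968000000, nat_lit 569842000000], [], [nat_lit 689662450976, nat_lit 692324928056, nat_lit 518067639648,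 nat_lit 520903592960], nat_lit 1271250, nat_lit 1271250, nat_lit 0, nat_lit 490000, nat_lit 0, nat_lit 0, [nat_lit 780000, nat_lit 1271250, nat_lit 1271250, nat_lit 1271250], [nat_lit 52, nat_lit 40, nat_lit 20, nat_lit 80]⟩,
 zbF0, []⟩
noncomputable def p001_l79 : Lf2 := ⟨nat_lit 0, nat_lit 1, [nat_lit 19, nat_lit 5, nat_lit 5, nat_lit 20], false, nat_lit 0, nat_lit 0, nat_lit 0, nat_lit 0, ⟨nat_lit 1000, nat_lit 0, nat_lit 0, nat_lit 0, nat_lit 0, nat_lit 0, nat_lit 0, nat_lit 0, nat_lit 0, nat_lit 0, nat_lit 0, nat_lit 0, nat_lit 0, nat_lit 0, nat_lit 0, nat_lit 0, false, false⟩,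
 nat_lit 300000, nat_lit 0, nat_lit 230049, nat_lit 0, nat_lit 5160, nat_lit 214275, nat_lit 60000, nat_lit 0, nat_lit 0, nat_lit 60000, nat_lit 20000, nat_lit 0, nat_lit 0, nat_lit 400000000000000, nat_lit 0, nat_lit 0, nat_lit 0, nat_lit 0, [],
 ⟨p001_k14, nat_lit 0, nat_lit 0, nat_lit 0, nat_lit 0, nat_lit 21643, [nat_lit 3282000000, nat_lit 5449500000, nat_lit 7968000001, nat_lit 9842000000], [], [nat_lit 20567417681, nat_lit 20820317081, nat_lit 17991705761, nat_lit 18239670321], nat_lit 1271250, nat_lit 1271250, nat_lit 0, nat_lit 490000, nat_lit 0, nat_lit 0, [nat_lit 780000, nat_lit 1271250, nat_lit 1271250, nat_lit 1271250], [nat_lit 52, nat_lit 40, nat_lit 20, nat_lit 80]⟩, ⟨p001_k14, nat_lit 0, nat_lit 0, nat_lit 0, nat_lit 0, nat_lit 21643, [nat_lit 243282000000, nat_lit 365449500000, nat_lit 487968000000, nat_lit 569842000000], [], [nat_lit 679848579525, nat_lit 682512607575,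 nat_lit 508218213625, nat_lit 511055509413], nat_lit 1271250, nat_lit 1271250, nat_lit 0, nat_lit 490000, nat_lit 0, nat_lit 0, [nat_lit 780000, nat_lit 1271250, nat_lit 1271250, nat_lit 1271250], [nat_lit 52, nat_lit 40, nat_lit 20, nat_lit 80]⟩,
 zbF0, []⟩
noncomputable def p001_l80 : Lf2 := ⟨nat_lit 3, nat_lit 1, [nat_lit 19, nat_lit 5, nat_lit 5, nat_lit 20], false, nat_lit 0, nat_lit 0, nat_lit 0, nat_lit 0, zbN0,
 nat_lit 0, nat_lit 0, nat_lit 0, nat_lit 0, nat_lit 0, nat_lit 0, nat_lit 0, nat_lit 0, nat_lit 0, nat_lit 0, nat_lit 0, nat_lit 0, nat_lit 0, nat_lit 0, nat_lit 0, nat_lit 0, nat_lit 0, nat_lit 0, [],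
 C1.Rw.none, ⟨p001_k18, nat_lit 0, nat_lit 0, nat_lit 0, nat_lit 0, nat_lit 60577, [], [], [], nat_lit 1271250, nat_lit 1271250, nat_lit 0, nat_lit 43600, nat_lit 0, nat_lit 0, [nat_lit 631250, nat_lit 1431250, nat_lit 1271250, nat_lit 1271250], [nat_lit 151, nat_lit 40, nat_lit 20, nat_lit 40]⟩,
 zbF0, []⟩
noncomputable def p001_l81 : Lf2 := ⟨nat_lit 0, nat_lit 1, [nat_lit 19, nat_lit 5, nat_lit 5, nat_lit 20], false, nat_lit 0, nat_lit 0, nat_lit 0, nat_lit 0, ⟨nat_lit 1000, nat_lit 0, nat_lit 0, nat_lit 0, nat_lit 0, nat_lit 0, nat_lit 0, nat_lit 0, nat_lit 0, nat_lit 0, nat_lit 0, nat_lit 0, nat_lit 0, nat_lit 0, nat_lit 0, nat_lit 0, false, false⟩,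
 nat_lit 300000, nat_lit 0, nat_lit 300000, nat_lit 0, nat_lit 15636, nat_lit 242553, nat_lit 60000, nat_lit 0, nat_lit 0, nat_lit 60000, nat_lit 0, nat_lit 0, nat_lit 0, nat_lit 400000000000000, nat_lit 0, nat_lit 0, nat_lit 0, nat_lit 99843412162, [],
 ⟨p001_k7, nat_lit 0, nat_lit 0, nat_lit 0, nat_lit 0, nat_lit 58784, [nat_lit 3282000000, nat_lit 5449500000, nat_lit 7968000001, nat_lit 9842000000], [], [nat_lit 26270334016, nat_lit 26555199906, nat_lit 24475958524, nat_lit 24763086991], nat_lit 1271250, nat_lit 1271250, nat_lit 0, nat_lit 43600, nat_lit 0, nat_lit 0, [nat_lit 780000, nat_lit 1271250, nat_lit 1271250, nat_lit 1271250], [nat_lit 52, nat_lit 40, nat_lit 20, nat_lit 80]⟩, ⟨p001_k14, nat_lit 0, nat_lit 0, nat_lit 0, nat_lit 0, nat_lit 60577, [nat_lit 3282000000, nat_lit 5449500000, nat_lit 7968000000, nat_lit 9842000000], [], [nat_lit 29255047339, nat_lit 33876382154, nat_lit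 0, nat_lit 4699199545], nat_lit 1271250, nat_lit 1271250, nat_lit 0, nat_lit 43600, nat_lit 0, nat_lit 0, [nat_lit 780000, nat_lit 1271250, nat_lit 1271250, nat_lit 1271250], [nat_lit 52, nat_lit 40, nat_lit 20, nat_lit 80]⟩,
 zbF0, []⟩
noncomputable def p001_l82 : Lf2 := ⟨nat_lit 0, nat_lit 1, [nat_lit 19, nat_lit 5, nat_lit 5, nat_lit 20], false, nat_lit 0, nat_lit 0, nat_lit 0, nat_lit 0, ⟨nat_lit 1000, nat_lit 0, nat_lit 0, nat_lit 0, nat_lit 0, nat_lit 0, nat_lit 0, nat_lit 0, nat_lit 0, nat_lit 0, nat_lit 0, nat_lit 0, nat_lit 0, nat_lit 0, nat_lit 0, nat_lit 0, false, false⟩,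
 nat_lit 300000, nat_lit 0, nat_lit 300000, nat_lit 0, nat_lit 15636, nat_lit 242553, nat_lit 60000, nat_lit 0, nat_lit 0, nat_lit 60000, nat_lit 2012, nat_lit 0, nat_lit 0, nat_lit 400000000000000, nat_lit 0, nat_lit 0, nat_lit 0, nat_lit 1258019541, [],
 ⟨p001_k7, nat_lit 0, nat_lit 0, nat_lit 0, nat_lit 0, nat_lit 58784, [nat_lit 3282000000, nat_lit 5449500000, nat_lit 7968000001, nat_lit 9842000000], [], [nat_lit 26270334016, nat_lit 26555199906, nat_lit 24475958524, nat_lit 24763086991], nat_lit 1271250, nat_lit 1271250, nat_lit 0, nat_lit 43600, nat_lit 0, nat_lit 0, [nat_lit 780000, nat_lit 1271250, nat_lit 1271250, nat_lit 1271250], [nat_lit 52, nat_lit 40, nat_lit 20, nat_lit 80]⟩, ⟨p001_k14, nat_lit 0, nat_lit 0, nat_lit 0, nat_lit 0, nat_lit 60577, [nat_lit 27426000000, nat_lit 41665500000, nat_lit 56256000000, nat_lit 66178000000], [], [nat_lit 29294616425, nat_lit 31868071017,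 nat_lit 0, nat_lit 2689806924], nat_lit 1271250, nat_lit 1271250, nat_lit 0, nat_lit 43600, nat_lit 0, nat_lit 0, [nat_lit 780000, nat_lit 1271250, nat_lit 1271250, nat_lit 1271250], [nat_lit 52, nat_lit 40, nat_lit 20, nat_lit 80]⟩,
 zbF0, []⟩
noncomputable def p001_l83 : Lf2 := ⟨nat_lit 0, nat_lit 1, [nat_lit 19, nat_lit 5, nat_lit 5, nat_lit 20], false, nat_lit 0, nat_lit 0, nat_lit 0, nat_lit 0, ⟨nat_lit 1000, nat_lit 0, nat_lit 0, nat_lit 0, nat_lit 0, nat_lit 0, nat_lit 0, nat_lit 0, nat_lit 0, nat_lit 0, nat_lit 0, nat_lit 0, nat_lit 0, nat_lit 0, nat_lit 0, nat_lit 0, false, false⟩,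
 nat_lit 300000, nat_lit 0, nat_lit 300000, nat_lit 0, nat_lit 15636, nat_lit 242553, nat_lit 60000, nat_lit 0, nat_lit 0, nat_lit 60000, nat_lit 19008, nat_lit 0, nat_lit 0, nat_lit 400000000000000, nat_lit 0, nat_lit 0, nat_lit 0, nat_lit 0, [],
 ⟨p001_k7, nat_lit 0, nat_lit 0, nat_lit 0, nat_lit 0, nat_lit 58784, [nat_lit 3282000000, nat_lit 5449500000, nat_lit 7968000001, nat_lit 9842000000], [], [nat_lit 26270334016, nat_lit 26555199906, nat_lit 24475958524, nat_lit 24763086991], nat_lit 1271250, nat_lit 1271250, nat_lit 0, nat_lit 43600, nat_lit 0, nat_lit 0, [nat_lit 780000, nat_lit 1271250, nat_lit 1271250, nat_lit 1271250], [nat_lit 52, nat_lit 40, nat_lit 20, nat_lit 80]⟩, ⟨p001_k14, nat_lit 0, nat_lit 0, nat_lit 0, nat_lit 0, nat_lit 60577, [nat_lit 231378000000, nat_lit 347593500000, nat_lit 464160000000, nat_lit 542066000000], [], [nat_lit 912149208909, nat_lit 914402051476,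 nat_lit 886809741418, nat_lit 889108876577], nat_lit 1271250, nat_lit 1271250, nat_lit 0, nat_lit 43600, nat_lit 0, nat_lit 0, [nat_lit 780000, nat_lit 1271250, nat_lit 1271250, nat_lit 1271250], [nat_lit 52, nat_lit 40, nat_lit 20, nat_lit 80]⟩,
 zbF0, []⟩
noncomputable def p001_l84 : Lf2 := ⟨nat_lit 0, nat_lit 1, [nat_lit 19, nat_lit 5, nat_lit 5, nat_lit 20], false, nat_lit 0, nat_lit 0, nat_lit 0, nat_lit 0, ⟨nat_lit 1000, nat_lit 0, nat_lit 0, nat_lit 0, nat_lit 0, nat_lit 0, nat_lit 0, nat_lit 0, nat_lit 0, nat_lit 0, nat_lit 0, nat_lit 0, nat_lit 0, nat_lit 0, nat_lit 0, nat_lit 0, false, false⟩,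
 nat_lit 242043, nat_lit 0, nat_lit 300000, nat_lit 0, nat_lit 5290, nat_lit 219123, nat_lit 60000, nat_lit 0, nat_lit 0, nat_lit 60000, nat_lit 20000, nat_lit 0, nat_lit 0, nat_lit 400000000000000, nat_lit 0, nat_lit 0, nat_lit 0, nat_lit 0, [],
 ⟨p001_k7, nat_lit 0, nat_lit 0, nat_lit 0, nat_lit 0, nat_lit 58784, [nat_lit 3282000000, nat_lit 5449500000, nat_lit 7968000001, nat_lit 9842000000], [], [nat_lit 20169090144, nat_lit 20424969946, nat_lit 19330387641, nat_lit 19587261681], nat_lit 1271250, nat_lit 1271250, nat_lit 43600, nat_lit 111251, nat_lit 0, nat_lit 0, [nat_lit 780000, nat_lit 1271250, nat_lit 1271250, nat_lit 1271250], [nat_lit 52, nat_lit 40, nat_lit 20, nat_lit 80]⟩, ⟨p001_k14, nat_lit 0, nat_lit 0, nat_lit 0, nat_lit 0, nat_lit 60577, [nat_lit 243282000000, nat_lit 365449500000, nat_lit 487968000000, nat_lit 569842000000], [], [nat_lit 650845623130, nat_lit 656429368024,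 nat_lit 609524454538, nat_lit 615428757680], nat_lit 1271250, nat_lit 1271250, nat_lit 43600, nat_lit 111251, nat_lit 0, nat_lit 0, [nat_lit 780000, nat_lit 1271250, nat_lit 1271250, nat_lit 1271250], [nat_lit 52, nat_lit 40, nat_lit 20, nat_lit 80]⟩,
 zbF0, []⟩
noncomputable def p001_l85 : Lf2 := ⟨nat_lit 0, nat_lit 1, [nat_lit 19, nat_lit 5, nat_lit 5, nat_lit 20], false, nat_lit 0, nat_lit 0, nat_lit 0, nat_lit 0, ⟨nat_lit 1000, nat_lit 0, nat_lit 0, nat_lit 0, nat_lit 0, nat_lit 0, nat_lit 0, nat_lit 0, nat_lit 0, nat_lit 0, nat_lit 0, nat_lit 0, nat_lit 0, nat_lit 0, nat_lit 0, nat_lit 0, false, false⟩,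
 nat_lit 300000, nat_lit 0, nat_lit 260637, nat_lit 0, nat_lit 5506, nat_lit 226640, nat_lit 60000, nat_lit 0, nat_lit 0, nat_lit 60000, nat_lit 20000, nat_lit 0, nat_lit 0, nat_lit 400000000000000, nat_lit 0, nat_lit 0, nat_lit 0, nat_lit 0, [],
 ⟨p001_k7, nat_lit 0, nat_lit 0, nat_lit 0, nat_lit 0, nat_lit 58784, [nat_lit 3282000000, nat_lit 5449500000, nat_lit 7968000001, nat_lit 9842000000], [], [nat_lit 19109919897, nat_lit 19370741553, nat_lit 18311454701, nat_lit 18571675361], nat_lit 1271250, nat_lit 1271250, nat_lit 111251, nat_lit 230001, nat_lit 0, nat_lit 0, [nat_lit 780000, nat_lit 1271250, nat_lit 1271250, nat_lit 1271250], [nat_lit 52, nat_lit 40, nat_lit 20, nat_lit 80]⟩, ⟨p001_k14, nat_lit 0, nat_lit 0, nat_lit 0, nat_lit 0, nat_lit 60577, [nat_lit 243282000000, nat_lit 365449500000, nat_lit 487968000000, nat_lit 569842000000], [], [nat_lit 604709101400, nat_lit 610694250400,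 nat_lit 556279127680, nat_lit 562443860640], nat_lit 1271250, nat_lit 1271250, nat_lit 111251, nat_lit 230001, nat_lit 0, nat_lit 0, [nat_lit 780000, nat_lit 1271250, nat_lit 1271250, nat_lit 1271250], [nat_lit 52, nat_lit 40, nat_lit 20, nat_lit 80]⟩,
 zbF0, []⟩
noncomputable def p001_l86 : Lf2 := ⟨nat_lit 0, nat_lit 1, [nat_lit 19, nat_lit 5, nat_lit 5, nat_lit 20], false, nat_lit 0, nat_lit 0, nat_lit 0, nat_lit 0, ⟨nat_lit 1000, nat_lit 0, nat_lit 0, nat_lit 0, nat_lit 0, nat_lit 0, nat_lit 0, nat_lit 0, nat_lit 0, nat_lit 0, nat_lit 0, nat_lit 0, nat_lit 0, nat_lit 0, nat_lit 0, nat_lit 0, false, false⟩,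
 nat_lit 285799, nat_lit 0, nat_lit 300000, nat_lit 282532, nat_lit 18757, nat_lit 236812, nat_lit 60000, nat_lit 0, nat_lit 0, nat_lit 60000, nat_lit 20000, nat_lit 0, nat_lit 0, nat_lit 400000000000000, nat_lit 0, nat_lit 0, nat_lit 0, nat_lit 0, [],
 ⟨p001_k7, nat_lit 0, nat_lit 0, nat_lit 0, nat_lit 0, nat_lit 58784, [nat_lit 3282000000, nat_lit 5449500000, nat_lit 7968000001, nat_lit 9842000000], [], [nat_lit 14816284296, nat_lit 15338725745, nat_lit 9586528700, nat_lit 10106681705], nat_lit 1271250, nat_lit 1271250, nat_lit 230001, nat_lit 490000, nat_lit 0, nat_lit 0, [nat_lit 780000, nat_lit 1271250, nat_lit 1271250, nat_lit 1271250], [nat_lit 52, nat_lit 40, nat_lit 20, nat_lit 80]⟩, ⟨p001_k14, nat_lit 0, nat_lit 0, nat_lit 0, nat_lit 0, nat_lit 60577, [nat_lit 243282000000, nat_lit 365449500000, nat_lit 487968000000, nat_lit 569842000000], [], [nat_lit 547428592544, nat_lit 553856414112,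 nat_lit 482336610140, nat_lit 488576722656], nat_lit 1271250, nat_lit 1271250, nat_lit 230001, nat_lit 490000, nat_lit 0, nat_lit 0, [nat_lit 780000, nat_lit 1271250, nat_lit 1271250, nat_lit 1271250], [nat_lit 52, nat_lit 40, nat_lit 20, nat_lit 80]⟩,
 zbF0, []⟩
noncomputable def p001_l87 : Lf2 := ⟨nat_lit 2, nat_lit 1, [nat_lit 19, nat_lit 5, nat_lit 5, nat_lit 20], true, nat_lit 0, nat_lit 0, nat_lit 0, nat_lit 0, zbN0,
 nat_lit 0, nat_lit 0, nat_lit 0, nat_lit 0, nat_lit 0, nat_lit 0, nat_lit 0, nat_lit 0, nat_lit 0, nat_lit 0, nat_lit 0, nat_lit 0, nat_lit 0, nat_lit 0, nat_lit 0, nat_lit 0, nat_lit 0, nat_lit 0, [],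
 ⟨p001_k23, nat_lit 0, nat_lit 0, nat_lit 0, nat_lit 0, nat_lit 23338, [], [], [], nat_lit 1271250, nat_lit 1271250, nat_lit 0, nat_lit 490000, nat_lit 0, nat_lit 0, [nat_lit 1412500, nat_lit 1271250, nat_lit 1271250], [nat_lit 156, nat_lit 40, nat_lit 20, nat_lit 40]⟩, C1.Rw.none,
 zbF0, []⟩
noncomputable def p001_l88 : Lf2 := ⟨nat_lit 2, nat_lit 1, [nat_lit 19, nat_lit 5, nat_lit 5, nat_lit 20], true, nat_lit 0, nat_lit 0, nat_lit 0, nat_lit 0, zbN0,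
 nat_lit 0, nat_lit 0, nat_lit 0, nat_lit 0, nat_lit 0, nat_lit 0, nat_lit 0, nat_lit 0, nat_lit 0, nat_lit 0, nat_lit 0, nat_lit 0, nat_lit 0, nat_lit 0, nat_lit 0, nat_lit 0, nat_lit 0, nat_lit 0, [],
 ⟨p001_k23, nat_lit 0, nat_lit 0, nat_lit 0, nat_lit 0, nat_lit 41290, [], [], [], nat_lit 1271250, nat_lit 1271250, nat_lit 0, nat_lit 490000, nat_lit 0, nat_lit 0, [nat_lit 1412500, nat_lit 1271250, nat_lit 1271250], [nat_lit 156, nat_lit 40, nat_lit 20, nat_lit 40]⟩, C1.Rw.none,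
 zbF0, []⟩
noncomputable def p001_l89 : Lf2 := ⟨nat_lit 2, nat_lit 1, [nat_lit 19, nat_lit 5, nat_lit 5, nat_lit 20], true, nat_lit 0, nat_lit 0, nat_lit 0, nat_lit 0, zbN0,
 nat_lit 0, nat_lit 0, nat_lit 0, nat_lit 0, nat_lit 0, nat_lit 0, nat_lit 0, nat_lit 0, nat_lit 0, nat_lit 0, nat_lit 0, nat_lit 0, nat_lit 0, nat_lit 0, nat_lit 0, nat_lit 0, nat_lit 0, nat_lit 0, [],
 ⟨p001_k29, nat_lit 0, nat_lit 0, nat_lit 0, nat_lit 0, nat_lit 58784, [], [], [], nat_lit 1271250, nat_lit 1271250, nat_lit 0, nat_lit 490000, nat_lit 0, nat_lit 0, [nat_lit 1412500, nat_lit 1271250, nat_lit 1271250], [nat_lit 156, nat_lit 40, nat_lit 20, nat_lit 40]⟩, C1.Rw.none,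
 zbF0, []⟩
noncomputable def p001_l90 : Lf2 := ⟨nat_lit 2, nat_lit 1, [nat_lit 19, nat_lit 5, nat_lit 5, nat_lit 20], true, nat_lit 0, nat_lit 0, nat_lit 0, nat_lit 0, zbN0,
 nat_lit 0, nat_lit 0, nat_lit 0, nat_lit 0, nat_lit 0, nat_lit 0, nat_lit 0, nat_lit 0, nat_lit 0, nat_lit 0, nat_lit 0, nat_lit 0, nat_lit 0, nat_lit 0, nat_lit 0, nat_lit 0, nat_lit 0, nat_lit 0, [],
 ⟨p001_k15, nat_lit 0, nat_lit 0, nat_lit 316, nat_lit 0, nat_lit 60577, [], [], [], nat_lit 1271250, nat_lit 1271250, nat_lit 0, nat_lit 490000, nat_lit 0, nat_lit 0, [nat_lit 1695000, nat_lit 1271250], [nat_lit 77, nat_lit 40, nat_lit 20, nat_lit 80, nat_lit 17, nat_lit 289, nat_lit 75, nat_lit 9]⟩, C1.Rw.none,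
 zbF0, []⟩
noncomputable def p001_l91 : Lf2 := ⟨nat_lit 0, nat_lit 1, [nat_lit 19, nat_lit 5, nat_lit 5, nat_lit 20], false, nat_lit 0, nat_lit 0, nat_lit 0, nat_lit 0, ⟨nat_lit 1000, nat_lit 0, nat_lit 0, nat_lit 0, nat_lit 0, nat_lit 0, nat_lit 0, nat_lit 0, nat_lit 0, nat_lit 0, nat_lit 0, nat_lit 0, nat_lit 0, nat_lit 0, nat_lit 0, nat_lit 0, false, false⟩,
 nat_lit 212462, nat_lit 0, nat_lit 300000, nat_lit 0, nat_lit 19748, nat_lit 194879, nat_lit 0, nat_lit 0, nat_lit 0, nat_lit 60000, nat_lit 0, nat_lit 0, nat_lit 0, nat_lit 0, nat_lit 0, nat_lit 0, nat_lit 0, nat_lit 72928262076, [],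
 ⟨p001_k15, nat_lit 0, nat_lit 0, nat_lit 259, nat_lit 0, nat_lit 60577, [nat_lit 7968000001, nat_lit 9842000000], [], [nat_lit 50366527286, nat_lit 45145768274, nat_lit 29719282358, nat_lit 24577120386], nat_lit 1271250, nat_lit 1271250, nat_lit 490000, nat_lit 780000, nat_lit 0, nat_lit 0, [nat_lit 1695000, nat_lit 1271250], [nat_lit 77, nat_lit 40, nat_lit 20, nat_lit 80, nat_lit 17, nat_lit 317, nat_lit 100, nat_lit 10]⟩, ⟨p001_k30, nat_lit 0, nat_lit 0, nat_lit 0, nat_lit 0, nat_lit 64468, [nat_lit 5449500000, nat_lit 7968000000, nat_lit 9842000000], [], [nat_lit 72009269340, nat_lit 18121775924, nat_lit 99248756636, nat_lit 0], nat_lit 1271250, nat_lit 1271250, nat_lit 490000, nat_lit 780000, nat_lit 0, nat_lit 0, [nat_lit 1271250, nat_lit 1271250, nat_lit 1271250], [nat_lit 200, nat_lit 40, nat_lit 20, nat_lit 80]⟩,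
 zbF0, []⟩
noncomputable def p001_l92 : Lf2 := ⟨nat_lit 0, nat_lit 1, [nat_lit 19, nat_lit 5, nat_lit 5, nat_lit 20], false, nat_lit 0, nat_lit 0, nat_lit 0, nat_lit 0, ⟨nat_lit 1000, nat_lit 0, nat_lit 0, nat_lit 0, nat_lit 0, nat_lit 0, nat_lit 0, nat_lit 0, nat_lit 0, nat_lit 0, nat_lit 0, nat_lit 0, nat_lit 0, nat_lit 0, nat_lit 0, nat_lit 0, false, false⟩,
 nat_lit 300000, nat_lit 238654, nat_lit 0, nat_lit 0, nat_lit 217753, nat_lit 114084, nat_lit 60000, nat_lit 0, nat_lit 0, nat_lit 60000, nat_lit 0, nat_lit 0, nat_lit 0, nat_lit 0, nat_lit 0, nat_lit 0, nat_lit 26881670626, nat_lit 26984670096, [],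
 ⟨p001_k15, nat_lit 0, nat_lit 0, nat_lit 239, nat_lit 0, nat_lit 60577, [nat_lit 7968000001, nat_lit 9842000000], [], [nat_lit 0, nat_lit 12260917306, nat_lit 16086021053, nat_lit 16417897242], nat_lit 1271250, nat_lit 1271250, nat_lit 780000, nat_lit 1100001, nat_lit 0, nat_lit 0, [nat_lit 1695000, nat_lit 1271250], [nat_lit 77, nat_lit 40, nat_lit 20, nat_lit 80, nat_lit 17, nat_lit 317, nat_lit 100, nat_lit 9]⟩, ⟨p001_k30, nat_lit 0, nat_lit 0, nat_lit 0, nat_lit 0, nat_lit 64468, [nat_lit 5449500000, nat_lit 7968000000, nat_lit 9842000000], [], [nat_lit 58101155856, nat_lit 0, nat_lit 90049220736, nat_lit 32790461136], nat_lit 1271250, nat_lit 1271250, nat_lit 780000, nat_lit 1100001, nat_lit 0, nat_lit 0, [nat_lit 1271250, nat_lit 1271250, nat_lit 1271250], [nat_lit 200, nat_lit 40, nat_lit 20, nat_lit 80]⟩,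
 zbF0, []⟩
noncomputable def p001_l93 : Lf2 := ⟨nat_lit 1, nat_lit 2, [nat_lit 10, nat_lit 5, nat_lit 5, nat_lit 20], false, nat_lit 0, nat_lit 0, nat_lit 0, nat_lit 0, zbN0,
 nat_lit 0, nat_lit 0, nat_lit 0, nat_lit 0, nat_lit 0, nat_lit 0, nat_lit 0, nat_lit 0, nat_lit 0, nat_lit 0, nat_lit 0, nat_lit 0, nat_lit 0, nat_lit 0, nat_lit 0, nat_lit 0, nat_lit 0, nat_lit 0, [],
 C1.Rw.none, C1.Rw.none,
 zbF0, []⟩
noncomputable def p001_l94 : Lf2 := ⟨nat_lit 1, nat_lit 2, [nat_lit 10, nat_lit 5, nat_lit 5, nat_lit 20], false, nat_lit 0, nat_lit 0, nat_lit 0, nat_lit 0, zbN0,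
 nat_lit 0, nat_lit 0, nat_lit 0, nat_lit 0, nat_lit 0, nat_lit 0, nat_lit 0, nat_lit 0, nat_lit 0, nat_lit 0, nat_lit 0, nat_lit 0, nat_lit 0, nat_lit 0, nat_lit 0, nat_lit 0, nat_lit 0, nat_lit 0, [],
 C1.Rw.none, C1.Rw.none,
 zbF0, []⟩
noncomputable def p001_l95 : Lf2 := ⟨nat_lit 0, nat_lit 2, [nat_lit 10, nat_lit 5, nat_lit 5, nat_lit 20], false, nat_lit 0, nat_lit 0, nat_lit 0, nat_lit 0, ⟨nat_lit 1000, nat_lit 0, nat_lit 0, nat_lit 0, nat_lit 0, nat_lit 0, nat_lit 0, nat_lit 0, nat_lit 0, nat_lit 0, nat_lit 0, nat_lit 0, nat_lit 0, nat_lit 0, nat_lit 0, nat_lit 0, false, false⟩,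
 nat_lit 263747, nat_lit 0, nat_lit 300000, nat_lit 0, nat_lit 15636, nat_lit 214382, nat_lit 5591, nat_lit 0, nat_lit 0, nat_lit 60000, nat_lit 20000, nat_lit 0, nat_lit 0, nat_lit 400000000000000, nat_lit 0, nat_lit 0, nat_lit 0, nat_lit 0, [],
 ⟨p001_k31, nat_lit 0, nat_lit 0, nat_lit 291, nat_lit 0, nat_lit 1559, [nat_lit 7968000001, nat_lit 9842000000], [], [nat_lit 26441253550, nat_lit 26555199906, nat_lit 22178474243, nat_lit 21351739506], nat_lit 1271250, nat_lit 1271250, nat_lit 0, nat_lit 490000, nat_lit 0, nat_lit 0, [nat_lit 1695000, nat_lit 1271250], [nat_lit 77, nat_lit 40, nat_lit 20, nat_lit 80, nat_lit 17, nat_lit 289, nat_lit 75, nat_lit 9]⟩, ⟨p001_k1, nat_lit 0, nat_lit 0, nat_lit 0, nat_lit 0, nat_lit 1841, [nat_lit 243282000000, nat_lit 365449500000, nat_lit 487968000000, nat_lit 569842000000], [], [nat_lit 699542299756, nat_lit 710202917368, nat_lit 527355557764, nat_lit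 538710110816], nat_lit 1271250, nat_lit 1271250, nat_lit 0, nat_lit 490000, nat_lit 0, nat_lit 0, [nat_lit 780000, nat_lit 1271250, nat_lit 1271250, nat_lit 1271250], [nat_lit 52, nat_lit 40, nat_lit 20, nat_lit 80]⟩,
 zbF0, []⟩
noncomputable def p001_l96 : Lf2 := ⟨nat_lit 0, nat_lit 2, [nat_lit 10, nat_lit 5, nat_lit 5, nat_lit 20], false, nat_lit 0, nat_lit 0, nat_lit 0, nat_lit 0, ⟨nat_lit 1000, nat_lit 0, nat_lit 0, nat_lit 0, nat_lit 0, nat_lit 0, nat_lit 0, nat_lit 0, nat_lit 0, nat_lit 0, nat_lit 0, nat_lit 0, nat_lit 0, nat_lit 0, nat_lit 0, nat_lit 0, false, false⟩,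
 nat_lit 300000, nat_lit 196713, nat_lit 300000, nat_lit 300000, nat_lit 104329, nat_lit 228169, nat_lit 0, nat_lit 0, nat_lit 0, nat_lit 0, nat_lit 0, nat_lit 0, nat_lit 0, nat_lit 0, nat_lit 0, nat_lit 0, nat_lit 1963229421, nat_lit 125288818844, [],
 ⟨p001_k31, nat_lit 0, nat_lit 0, nat_lit 251, nat_lit 0, nat_lit 1559, [nat_lit 7968000001, nat_lit 9842000000], [], [nat_lit 92070801860, nat_lit 86554531179, nat_lit 0, nat_lit 1155014309], nat_lit 1271250, nat_lit 1271250, nat_lit 490000, nat_lit 1100001, nat_lit 0, nat_lit 0, [nat_lit 1695000, nat_lit 1271250], [nat_lit 77, nat_lit 40, nat_lit 20, nat_lit 80, nat_lit 17, nat_lit 317, nat_lit 100, nat_lit 10]⟩, ⟨p001_k32, nat_lit 0, nat_lit 0, nat_lit 0, nat_lit 0, nat_lit 1841, [nat_lit 5449500000, nat_lit 7968000000, nat_lit 9842000000], [], [nat_lit 117938730748, nat_lit 0, nat_lit 212249613584, nat_lit 97731592484], nat_lit 1271250,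 nat_lit 1271250, nat_lit 490000, nat_lit 1100001, nat_lit 0, nat_lit 0, [nat_lit 1271250, nat_lit 1271250, nat_lit 1271250], [nat_lit 200, nat_lit 40, nat_lit 20, nat_lit 80]⟩,
 zbF0, []⟩
noncomputable def b_NL_450_450_0_12 : St := ⟨false, nat_lit 1, nat_lit 1, nat_lit 2, nat_lit 20, nat_lit 190, nat_lit 200, nat_lit 180, nat_lit 200, nat_lit 0, nat_lit 160, nat_lit 0, nat_lit 0, nat_lit 0, nat_lit 0, nat_lit 0, nat_lit 0, nat_lit 0, nat_lit 8, nat_lit 0, nat_lit 0, nat_lit 400, nat_lit 800⟩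
theorem d_NL_450_450_0_12 (h : EB TB.env) : Dead b_NL_450_450_0_12 := chkB_sound0 h (T :=
(.spl (nat_lit 6) (nat_lit 4)
(.spl (nat_lit 2) (nat_lit 120)
(.spl (nat_lit 2) (nat_lit 80)
(.spl (nat_lit 7) (nat_lit 600)
(.spl (nat_lit 1) (nat_lit 190)
(.spl (nat_lit 1) (nat_lit 185)
(.leaf p001_l77)
(.leaf p001_l78))
(.spl (nat_lit 0) (nat_lit 195)
(.ord (.leaf p001_l79))
(.spl (nat_lit 2) (nat_lit 40)
(.spl (nat_lit 2) (nat_lit 20)
(.spl (nat_lit 2) (nat_lit 8)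
(.spl (nat_lit 8) (nat_lit 600)
(.spl (nat_lit 8) (nat_lit 500)
(.spl (nat_lit 8) (nat_lit 460)
(.leaf p001_l80)
(.leaf p001_l81))
(.leaf p001_l82))
(.leaf p001_l83))
(.leaf p001_l84))
(.leaf p001_l85))
(.leaf p001_l86))))
(.spl (nat_lit 7) (nat_lit 900)
(.spl (nat_lit 1) (nat_lit 190)
(.leaf p001_l87)
(.spl (nat_lit 1) (nat_lit 195)
(.leaf p001_l88)
(.ord (.leaf p001_l89))))
(.leaf p001_l90)))
(.leaf p001_l91))
(.leaf p001_l92))
(.spl (nat_lit 0) (nat_lit 195)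
(.ord (.leaf p001_l93))
(.spl (nat_lit 0) (nat_lit 198)
(.ord (.leaf p001_l94))
(.spl (nat_lit 2) (nat_lit 80)
(.leaf p001_l95)
(.leaf p001_l96)))))) (by decide +kernel)
noncomputable def p001_l97 : Lf2 := ⟨nat_lit 0, nat_lit 2, [nat_lit 10, nat_lit 5, nat_lit 5, nat_lit 20], true, nat_lit 0, nat_lit 0, nat_lit 0, nat_lit 0, ⟨nat_lit 0, nat_lit 0, nat_lit 1000, nat_lit 4, nat_lit 117, nat_lit 0, nat_lit 0, nat_lit 0, nat_lit 0, nat_lit 215, nat_lit 2549, nat_lit 224, nat_lit 61757575, nat_lit 0, nat_lit 0, nat_lit 1372307, false, false⟩,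
 nat_lit 0, nat_lit 0, nat_lit 0, nat_lit 8080, nat_lit 4690, nat_lit 0, nat_lit 698, nat_lit 0, nat_lit 0, nat_lit 0, nat_lit 0, nat_lit 0, nat_lit 0, nat_lit 0, nat_lit 90, nat_lit 1000000, nat_lit 0, nat_lit 0, [(nat_lit 0, [(nat_lit 6, nat_lit 1000)])],
 ⟨p001_k33, nat_lit 0, nat_lit 0, nat_lit 293, nat_lit 0, nat_lit 0, [nat_lit 2618000001, nat_lit 1352800000, nat_lit 26400000], [], [nat_lit 12921922481, nat_lit 14007500321, nat_lit 14933759241, nat_lit 15706815341], nat_lit 0, nat_lit 0, nat_lit 0, nat_lit 0, nat_lit 0, nat_lit 0, [], [nat_lit 25, nat_lit 40, nat_lit 20, nat_lit 80, nat_lit 17, nat_lit 345, nat_lit 125, nat_lit 11]⟩, C1.Rw.none,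
 ⟨nat_lit 6708, nat_lit 7072, ⟨.ofNat (nat_lit 5717), .ofNat (nat_lit 547119), .ofNat (nat_lit 27265), .ofNat (nat_lit 568660), .ofNat (nat_lit 26343), .ofNat (nat_lit 543257), .ofNat (nat_lit 47782), .ofNat (nat_lit 564689)⟩, ⟨.ofNat (nat_lit 0), .ofNat (nat_lit 0), .ofNat (nat_lit 0), .ofNat (nat_lit 0), .ofNat (nat_lit 0), .ofNat (nat_lit 0), .ofNat (nat_lit 0), .ofNat (nat_lit 0)⟩⟩, []⟩
noncomputable def p001_l98 : Lf2 := ⟨nat_lit 0, nat_lit 2, [nat_lit 10, nat_lit 5, nat_lit 5, nat_lit 20], false, nat_lit 0, nat_lit 0, nat_lit 0, nat_lit 0, ⟨nat_lit 1000, nat_lit 0, nat_lit 0, nat_lit 0, nat_lit 0, nat_lit 0, nat_lit 0, nat_lit 0, nat_lit 0, nat_lit 0, nat_lit 0, nat_lit 0, nat_lit 0, nat_lit 0, nat_lit 0, nat_lit 0, false, false⟩,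
 nat_lit 0, nat_lit 0, nat_lit 0, nat_lit 7284, nat_lit 9350, nat_lit 8464, nat_lit 0, nat_lit 0, nat_lit 0, nat_lit 0, nat_lit 0, nat_lit 0, nat_lit 0, nat_lit 0, nat_lit 0, nat_lit 0, nat_lit 0, nat_lit 0, [],
 ⟨p001_k33, nat_lit 0, nat_lit 0, nat_lit 228, nat_lit 0, nat_lit 0, [nat_lit 6250000000, nat_lit 7968000001, nat_lit 9842000000], [], [nat_lit 27566307400, nat_lit 28414024800, nat_lit 43011323800, nat_lit 43404909200], nat_lit 0, nat_lit 0, nat_lit 0, nat_lit 0, nat_lit 0, nat_lit 0, [], [nat_lit 25, nat_lit 40, nat_lit 20, nat_lit 80, nat_lit 17, nat_lit 401, nat_lit 175, nat_lit 11]⟩, ⟨p001_k34, nat_lit 0, nat_lit 0, nat_lit 282, nat_lit 0, nat_lit 0, [nat_lit 7968000000, nat_lit 9842000000, nat_lit 11872000000], [], [nat_lit 36197367584, nat_lit 36508988656, nat_lit 46417043808, nat_lit 46402318176], nat_lit 0, nat_lit 0, nat_lit 0, nat_lit 0, nat_lit 0, nat_lit 0, [], [nat_lit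 106, nat_lit 40, nat_lit 20, nat_lit 80, nat_lit 41, nat_lit 373, nat_lit 150, nat_lit 10]⟩,
 zbF0, [⟨nat_lit 13, nat_lit 100, nat_lit 20, nat_lit 99, nat_lit 216131828⟩]⟩
noncomputable def p001_l99 : Lf2 := ⟨nat_lit 0, nat_lit 2, [nat_lit 10, nat_lit 5, nat_lit 5, nat_lit 20], true, nat_lit 0, nat_lit 0, nat_lit 0, nat_lit 0, ⟨nat_lit 0, nat_lit 0, nat_lit 1000, nat_lit 4, nat_lit 117, nat_lit 0, nat_lit 0, nat_lit 0, nat_lit 0, nat_lit 215, nat_lit 2549, nat_lit 224, nat_lit 61757575, nat_lit 0, nat_lit 0, nat_lit 1372307, false, false⟩,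
 nat_lit 0, nat_lit 0, nat_lit 0, nat_lit 8080, nat_lit 4690, nat_lit 0, nat_lit 698, nat_lit 0, nat_lit 0, nat_lit 0, nat_lit 0, nat_lit 0, nat_lit 0, nat_lit 0, nat_lit 90, nat_lit 1000000, nat_lit 0, nat_lit 0, [(nat_lit 0, [(nat_lit 6, nat_lit 1000)])],
 ⟨p001_k33, nat_lit 0, nat_lit 0, nat_lit 293, nat_lit 0, nat_lit 0, [nat_lit 2618000001, nat_lit 1352800000, nat_lit 26400000], [], [nat_lit 12921922481, nat_lit 14007500321, nat_lit 14933759241, nat_lit 15706815341], nat_lit 0, nat_lit 0, nat_lit 0, nat_lit 0, nat_lit 0, nat_lit 0, [], [nat_lit 25, nat_lit 40, nat_lit 20, nat_lit 80, nat_lit 17, nat_lit 345, nat_lit 125, nat_lit 11]⟩, C1.Rw.none,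
 ⟨nat_lit 6708, nat_lit 7072, ⟨.ofNat (nat_lit 5717), .ofNat (nat_lit 547119), .ofNat (nat_lit 27265), .ofNat (nat_lit 568660), .ofNat (nat_lit 26343), .ofNat (nat_lit 543257), .ofNat (nat_lit 47782), .ofNat (nat_lit 564689)⟩, ⟨.ofNat (nat_lit 0), .ofNat (nat_lit 0), .ofNat (nat_lit 0), .ofNat (nat_lit 0), .ofNat (nat_lit 0), .ofNat (nat_lit 0), .ofNat (nat_lit 0), .ofNat (nat_lit 0)⟩⟩, []⟩
noncomputable def p001_l100 : Lf2 := ⟨nat_lit 0, nat_lit 2, [nat_lit 10, nat_lit 5, nat_lit 5, nat_lit 20], false, nat_lit 0, nat_lit 0, nat_lit 0, nat_lit 0, ⟨nat_lit 1000, nat_lit 0, nat_lit 0, nat_lit 0, nat_lit 0, nat_lit 0, nat_lit 0, nat_lit 0, nat_lit 0, nat_lit 0, nat_lit 0, nat_lit 0, nat_lit 0, nat_lit 0, nat_lit 0, nat_lit 0, false, false⟩,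
 nat_lit 0, nat_lit 0, nat_lit 26976, nat_lit 0, nat_lit 7331, nat_lit 8992, nat_lit 2545, nat_lit 0, nat_lit 0, nat_lit 2050, nat_lit 0, nat_lit 0, nat_lit 0, nat_lit 0, nat_lit 0, nat_lit 0, nat_lit 0, nat_lit 0, [],
 ⟨p001_k33, nat_lit 0, nat_lit 0, nat_lit 228, nat_lit 0, nat_lit 0, [nat_lit 6250000000, nat_lit 7968000001, nat_lit 9842000000], [], [nat_lit 25694440059, nat_lit 26472615023, nat_lit 37523221813, nat_lit 37910484657], nat_lit 0, nat_lit 0, nat_lit 0, nat_lit 0, nat_lit 0, nat_lit 0, [], [nat_lit 25, nat_lit 40, nat_lit 20, nat_lit 80, nat_lit 17, nat_lit 401, nat_lit 175, nat_lit 11]⟩, ⟨p001_k34, nat_lit 0, nat_lit 0, nat_lit 410, nat_lit 0, nat_lit 269057, [nat_lit 7968000000, nat_lit 9842000000, nat_lit 11872000000], [], [nat_lit 38233898998, nat_lit 38279189424, nat_lit 45618273280, nat_lit 45443461712], nat_lit 1100001, nat_lit 1271250, nat_lit 1271250, nat_lit 1271250,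 nat_lit 0, nat_lit 0, [nat_lit 1695000, nat_lit 1271250, nat_lit 1271250], [nat_lit 106, nat_lit 40, nat_lit 20, nat_lit 80, nat_lit 41, nat_lit 373, nat_lit 150, nat_lit 10]⟩,
 zbF0, [⟨nat_lit 13, nat_lit 100, nat_lit 20, nat_lit 99, nat_lit 23710458⟩]⟩
noncomputable def p001_l101 : Lf2 := ⟨nat_lit 0, nat_lit 2, [nat_lit 10, nat_lit 5, nat_lit 5, nat_lit 20], true, nat_lit 0, nat_lit 0, nat_lit 0, nat_lit 0, ⟨nat_lit 0, nat_lit 1000, nat_lit 0, nat_lit 4, nat_lit 187, nat_lit 0, nat_lit 0, nat_lit 0, nat_lit 0, nat_lit 0, nat_lit 0, nat_lit 0, nat_lit 0, nat_lit 0, nat_lit 0, nat_lit 5000000, false, true⟩,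
 nat_lit 0, nat_lit 0, nat_lit 0, nat_lit 7534, nat_lit 5999, nat_lit 0, nat_lit 0, nat_lit 0, nat_lit 0, nat_lit 0, nat_lit 0, nat_lit 0, nat_lit 0, nat_lit 0, nat_lit 0, nat_lit 1000000, nat_lit 0, nat_lit 0, [(nat_lit 0, [(nat_lit 2, nat_lit 1000)])],
 ⟨p001_k35, nat_lit 0, nat_lit 0, nat_lit 291, nat_lit 0, nat_lit 0, [nat_lit 3596666667, nat_lit 2997733333], [], [nat_lit 27002679325, nat_lit 27642163161, nat_lit 32749535182, nat_lit 33178282948], nat_lit 0, nat_lit 0, nat_lit 0, nat_lit 0, nat_lit 0, nat_lit 0, [], [nat_lit 51, nat_lit 40, nat_lit 20, nat_lit 80, nat_lit 1, nat_lit 401, nat_lit 175, nat_lit 12]⟩, C1.Rw.none,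
 ⟨nat_lit 6708, nat_lit 7072, ⟨.ofNat (nat_lit 5717), .ofNat (nat_lit 907929), .ofNat (nat_lit 27265), .ofNat (nat_lit 929471), .ofNat (nat_lit 26343), .ofNat (nat_lit 887742), .ofNat (nat_lit 47782), .ofNat (nat_lit 909174)⟩, ⟨.ofNat (nat_lit 0), .ofNat (nat_lit 0), .ofNat (nat_lit 0), .ofNat (nat_lit 0), .ofNat (nat_lit 0), .ofNat (nat_lit 0), .ofNat (nat_lit 0), .ofNat (nat_lit 0)⟩⟩, [⟨nat_lit 13, nat_lit 100, nat_lit 10, nat_lit 99, nat_lit 94697785⟩]⟩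
noncomputable def p001_l102 : Lf2 := ⟨nat_lit 0, nat_lit 2, [nat_lit 10, nat_lit 5, nat_lit 5, nat_lit 20], true, nat_lit 0, nat_lit 0, nat_lit 0, nat_lit 0, ⟨nat_lit 0, nat_lit 0, nat_lit 1000, nat_lit 4, nat_lit 46, nat_lit 0, nat_lit 0, nat_lit 0, nat_lit 0, nat_lit 215, nat_lit 19267, nat_lit 249, nat_lit 66125890, nat_lit 0, nat_lit 0, nat_lit 347737, false, false⟩,
 nat_lit 0, nat_lit 12026, nat_lit 0, nat_lit 0, nat_lit 5153, nat_lit 0, nat_lit 785, nat_lit 0, nat_lit 0, nat_lit 0, nat_lit 0, nat_lit 0, nat_lit 0, nat_lit 0, nat_lit 90, nat_lit 1000000, nat_lit 0, nat_lit 0, [(nat_lit 0, [(nat_lit 6, nat_lit 1000)])],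
 ⟨p001_k33, nat_lit 0, nat_lit 0, nat_lit 331, nat_lit 0, nat_lit 84710, [nat_lit 2618000001, nat_lit 1352800000, nat_lit 26400000], [], [nat_lit 13500859189, nat_lit 14296273559, nat_lit 13025067550, nat_lit 12099975472], nat_lit 1271250, nat_lit 1271250, nat_lit 0, nat_lit 490000, nat_lit 0, nat_lit 0, [nat_lit 1412500, nat_lit 1271250, nat_lit 1271250], [nat_lit 25, nat_lit 40, nat_lit 20, nat_lit 80, nat_lit 17, nat_lit 289, nat_lit 75, nat_lit 9]⟩, C1.Rw.none,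
 ⟨nat_lit 6708, nat_lit 7072, ⟨.ofNat (nat_lit 5717), .ofNat (nat_lit 186191), .ofNat (nat_lit 27265), .ofNat (nat_lit 207740), .ofNat (nat_lit 26343), .ofNat (nat_lit 198655), .ofNat (nat_lit 47782), .ofNat (nat_lit 220094)⟩, ⟨.ofNat (nat_lit 0), .ofNat (nat_lit 0), .ofNat (nat_lit 0), .ofNat (nat_lit 0), .ofNat (nat_lit 0), .ofNat (nat_lit 0), .ofNat (nat_lit 0), .ofNat (nat_lit 0)⟩⟩, []⟩
noncomputable def p001_l103 : Lf2 := ⟨nat_lit 0, nat_lit 2, [nat_lit 10, nat_lit 5, nat_lit 5, nat_lit 20], false, nat_lit 0, nat_lit 0, nat_lit 0, nat_lit 0, ⟨nat_lit 1000, nat_lit 0, nat_lit 0, nat_lit 0, nat_lit 0, nat_lit 0, nat_lit 0, nat_lit 0, nat_lit 0, nat_lit 0, nat_lit 0, nat_lit 0, nat_lit 0, nat_lit 0, nat_lit 0, nat_lit 0, false, false⟩,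
 nat_lit 0, nat_lit 65053, nat_lit 0, nat_lit 100000, nat_lit 27879, nat_lit 100000, nat_lit 5097, nat_lit 0, nat_lit 0, nat_lit 39612, nat_lit 0, nat_lit 0, nat_lit 0, nat_lit 0, nat_lit 0, nat_lit 0, nat_lit 0, nat_lit 18016464000, [],
 ⟨p001_k33, nat_lit 0, nat_lit 0, nat_lit 262, nat_lit 0, nat_lit 168031, [nat_lit 6250000000, nat_lit 7968000001, nat_lit 9842000000], [], [nat_lit 25841833756, nat_lit 14740147534, nat_lit 31558042968, nat_lit 17863264830], nat_lit 1271250, nat_lit 1271250, nat_lit 490000, nat_lit 780000, nat_lit 0, nat_lit 0, [nat_lit 1412500, nat_lit 1271250, nat_lit 1271250], [nat_lit 25, nat_lit 40, nat_lit 20, nat_lit 80, nat_lit 17, nat_lit 317, nat_lit 100, nat_lit 10]⟩, ⟨p001_k34, nat_lit 0, nat_lit 0, nat_lit 214, nat_lit 0, nat_lit 0, [nat_lit 7968000000, nat_lit 9842000000, nat_lit 11872000000], [], [nat_lit 15281176000, nat_lit 21170346000, nat_lit 0, nat_lit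 5528646000], nat_lit 0, nat_lit 0, nat_lit 0, nat_lit 0, nat_lit 0, nat_lit 0, [], [nat_lit 106, nat_lit 40, nat_lit 20, nat_lit 80, nat_lit 41, nat_lit 289, nat_lit 75, nat_lit 8]⟩,
 zbF0, []⟩
noncomputable def p001_l104 : Lf2 := ⟨nat_lit 0, nat_lit 1, [nat_lit 19, nat_lit 5, nat_lit 5, nat_lit 20], false, nat_lit 0, nat_lit 0, nat_lit 0, nat_lit 0, ⟨nat_lit 1000, nat_lit 0, nat_lit 0, nat_lit 0, nat_lit 0, nat_lit 0, nat_lit 0, nat_lit 0, nat_lit 0, nat_lit 0, nat_lit 0, nat_lit 0, nat_lit 0, nat_lit 0, nat_lit 0, nat_lit 0, false, false⟩,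
 nat_lit 0, nat_lit 8459, nat_lit 0, nat_lit 3015, nat_lit 3625, nat_lit 12888, nat_lit 0, nat_lit 0, nat_lit 0, nat_lit 0, nat_lit 0, nat_lit 0, nat_lit 0, nat_lit 0, nat_lit 0, nat_lit 0, nat_lit 0, nat_lit 0, [],
 ⟨p001_k36, nat_lit 0, nat_lit 0, nat_lit 262, nat_lit 0, nat_lit 166179, [nat_lit 6250000000, nat_lit 7968000000], [], [nat_lit 38023932000, nat_lit 38353896000, nat_lit 46703694000, nat_lit 47025307750], nat_lit 1271250, nat_lit 1271250, nat_lit 780000, nat_lit 3072500, nat_lit 0, nat_lit 0, [nat_lit 1412500, nat_lit 1271250], [nat_lit 26, nat_lit 40, nat_lit 20, nat_lit 80, nat_lit 2, nat_lit 401, nat_lit 175, nat_lit 14]⟩, ⟨p001_k37, nat_lit 0, nat_lit 0, nat_lit 0, nat_lit 0, nat_lit 0, [nat_lit 7968000000, nat_lit 9842000000], [], [nat_lit 22534885152, nat_lit 23275234160, nat_lit 49436210208, nat_lit 49501379632], nat_lit 0, nat_lit 0, nat_lit 0, nat_lit 0, nat_lit 0,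 nat_lit 0, [], [nat_lit 77, nat_lit 40, nat_lit 20, nat_lit 80]⟩,
 zbF0, []⟩
noncomputable def p001_l105 : Lf2 := ⟨nat_lit 0, nat_lit 2, [nat_lit 10, nat_lit 5, nat_lit 5, nat_lit 20], false, nat_lit 0, nat_lit 0, nat_lit 0, nat_lit 0, ⟨nat_lit 1000, nat_lit 0, nat_lit 0, nat_lit 0, nat_lit 0, nat_lit 0, nat_lit 0, nat_lit 0, nat_lit 0, nat_lit 0, nat_lit 0, nat_lit 0, nat_lit 0, nat_lit 0, nat_lit 0, nat_lit 0, false, false⟩,
 nat_lit 0, nat_lit 10791, nat_lit 0, nat_lit 20408, nat_lit 4624, nat_lit 12874, nat_lit 1631, nat_lit 0, nat_lit 0, nat_lit 3739, nat_lit 0, nat_lit 0, nat_lit 0, nat_lit 0, nat_lit 0, nat_lit 0, nat_lit 0, nat_lit 0, [],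
 ⟨p001_k33, nat_lit 0, nat_lit 0, nat_lit 246, nat_lit 0, nat_lit 53119, [nat_lit 6250000000, nat_lit 7968000001, nat_lit 9842000000], [], [nat_lit 39546248160, nat_lit 37102880186, nat_lit 45127157338, nat_lit 45387129570], nat_lit 1271250, nat_lit 1271250, nat_lit 780000, nat_lit 3072500, nat_lit 0, nat_lit 0, [nat_lit 1412500, nat_lit 1271250, nat_lit 1271250], [nat_lit 25, nat_lit 40, nat_lit 20, nat_lit 80, nat_lit 17, nat_lit 401, nat_lit 175, nat_lit 12]⟩, ⟨p001_k34, nat_lit 0, nat_lit 0, nat_lit 0, nat_lit 0, nat_lit 0, [nat_lit 7968000000, nat_lit 9842000000, nat_lit 11872000000], [], [nat_lit 22779037865, nat_lit 23291594361, nat_lit 49400565984, nat_lit 49466237336], nat_lit 0, nat_lit 0, nat_lit 0, nat_lit 0, nat_lit 0, nat_lit 0, [], [nat_lit 106, nat_lit 40, nat_lit 20, nat_lit 80]⟩,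
 zbF0, []⟩
noncomputable def p001_l106 : Lf2 := ⟨nat_lit 3, nat_lit 2, [nat_lit 10, nat_lit 5, nat_lit 5, nat_lit 20], false, nat_lit 0, nat_lit 0, nat_lit 0, nat_lit 0, zbN0,
 nat_lit 0, nat_lit 0, nat_lit 0, nat_lit 0, nat_lit 0, nat_lit 0, nat_lit 0, nat_lit 0, nat_lit 0, nat_lit 0, nat_lit 0, nat_lit 0, nat_lit 0, nat_lit 0, nat_lit 0, nat_lit 0, nat_lit 0, nat_lit 0, [],
 C1.Rw.none, ⟨p001_k38, nat_lit 0, nat_lit 0, nat_lit 265, nat_lit 0, nat_lit 0, [], [], [], nat_lit 0, nat_lit 0, nat_lit 0, nat_lit 0, nat_lit 0, nat_lit 0, [], [nat_lit 143, nat_lit 40, nat_lit 20, nat_lit 80, nat_lit 14, nat_lit 373, nat_lit 150, nat_lit 10]⟩,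
 zbF0, []⟩
noncomputable def p001_l107 : Lf2 := ⟨nat_lit 0, nat_lit 2, [nat_lit 10, nat_lit 5, nat_lit 5, nat_lit 20], false, nat_lit 0, nat_lit 0, nat_lit 0, nat_lit 0, ⟨nat_lit 0, nat_lit 0, nat_lit 1000, nat_lit 4, nat_lit 64, nat_lit 0, nat_lit 0, nat_lit 0, nat_lit 0, nat_lit 215, nat_lit 38400, nat_lit 263, nat_lit 65346492, nat_lit 0, nat_lit 0, nat_lit 578612, false, false⟩,
 nat_lit 0, nat_lit 12026, nat_lit 0, nat_lit 0, nat_lit 5153, nat_lit 0, nat_lit 785, nat_lit 0, nat_lit 0, nat_lit 0, nat_lit 0, nat_lit 0, nat_lit 0, nat_lit 0, nat_lit 90, nat_lit 1000000, nat_lit 0, nat_lit 0, [(nat_lit 0, [(nat_lit 6, nat_lit 1000)])],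
 ⟨p001_k33, nat_lit 0, nat_lit 0, nat_lit 331, nat_lit 0, nat_lit 84710, [nat_lit 2618000001, nat_lit 1352800000, nat_lit 26400000], [], [nat_lit 13500859189, nat_lit 14296273559, nat_lit 14628864522, nat_lit 12228619634], nat_lit 1271250, nat_lit 1271250, nat_lit 0, nat_lit 780000, nat_lit 0, nat_lit 0, [nat_lit 1412500, nat_lit 1271250, nat_lit 1271250], [nat_lit 25, nat_lit 40, nat_lit 20, nat_lit 80, nat_lit 17, nat_lit 317, nat_lit 100, nat_lit 10]⟩, ⟨p001_k34, nat_lit 0, nat_lit 0, nat_lit 447, nat_lit 0, nat_lit 109938, [nat_lit 0, nat_lit 0, nat_lit 0], [], [nat_lit 0, nat_lit 0, nat_lit 0, nat_lit 0], nat_lit 1100001, nat_lit 1271250, nat_lit 0, nat_lit 780000, nat_lit 0, nat_lit 0, [nat_lit 1695000, nat_lit 1271250, nat_lit 1271250], [nat_lit 106, nat_lit 40, nat_lit 20, nat_lit 80, nat_lit 41, nat_lit 289, nat_lit 75, nat_lit 8]⟩,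
 ⟨nat_lit 6708, nat_lit 7072, ⟨.ofNat (nat_lit 5717), .ofNat (nat_lit 276428), .ofNat (nat_lit 27265), .ofNat (nat_lit 297976), .ofNat (nat_lit 26343), .ofNat (nat_lit 284811), .ofNat (nat_lit 47782), .ofNat (nat_lit 306249)⟩, ⟨.ofNat (nat_lit 0), .ofNat (nat_lit 0), .ofNat (nat_lit 0), .ofNat (nat_lit 0), .ofNat (nat_lit 0), .ofNat (nat_lit 0), .ofNat (nat_lit 0), .ofNat (nat_lit 0)⟩⟩, []⟩
noncomputable def p001_l108 : Lf2 := ⟨nat_lit 0, nat_lit 2, [nat_lit 10, nat_lit 5, nat_lit 5, nat_lit 20], true, nat_lit 0, nat_lit 0, nat_lit 0, nat_lit 0, ⟨nat_lit 0, nat_lit 0, nat_lit 1000, nat_lit 4, nat_lit 169, nat_lit 0, nat_lit 0, nat_lit 0, nat_lit 0, nat_lit 215, nat_lit 2549, nat_lit 224, nat_lit 56804782, nat_lit 0, nat_lit 0, nat_lit 2132250, false, true⟩,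
 nat_lit 0, nat_lit 0, nat_lit 0, nat_lit 6841, nat_lit 0, nat_lit 0, nat_lit 0, nat_lit 0, nat_lit 304, nat_lit 0, nat_lit 0, nat_lit 0, nat_lit 0, nat_lit 0, nat_lit 67, nat_lit 1000000, nat_lit 0, nat_lit 0, [(nat_lit 0, [(nat_lit 6, nat_lit 1000)])],
 ⟨p001_k39, nat_lit 0, nat_lit 0, nat_lit 0, nat_lit 0, nat_lit 168031, [nat_lit 2158000000, nat_lit 800800000, nat_lit 4400000], [], [nat_lit 7061012000, nat_lit 7627522000, nat_lit 10995584000, nat_lit 11719940000], nat_lit 1271250, nat_lit 1271250, nat_lit 780000, nat_lit 1762500, nat_lit 0, nat_lit 0, [nat_lit 1412500, nat_lit 1271250, nat_lit 1271250], [nat_lit 156, nat_lit 40, nat_lit 20, nat_lit 40]⟩, C1.Rw.none,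
 ⟨nat_lit 6708, nat_lit 7072, ⟨.ofNat (nat_lit 276428), .ofNat (nat_lit 547119), .ofNat (nat_lit 297976), .ofNat (nat_lit 568660), .ofNat (nat_lit 284811), .ofNat (nat_lit 543257), .ofNat (nat_lit 306249), .ofNat (nat_lit 564689)⟩, ⟨.ofNat (nat_lit 0), .ofNat (nat_lit 0), .ofNat (nat_lit 0), .ofNat (nat_lit 0), .ofNat (nat_lit 0), .ofNat (nat_lit 0), .ofNat (nat_lit 0), .ofNat (nat_lit 0)⟩⟩, []⟩
noncomputable def p001_l109 : Lf2 := ⟨nat_lit 0, nat_lit 1, [nat_lit 19, nat_lit 5, nat_lit 5, nat_lit 20], false, nat_lit 0, nat_lit 0, nat_lit 0, nat_lit 0, ⟨nat_lit 1000, nat_lit 0, nat_lit 0, nat_lit 0, nat_lit 0, nat_lit 0, nat_lit 0, nat_lit 0, nat_lit 0, nat_lit 0, nat_lit 0, nat_lit 0, nat_lit 0, nat_lit 0, nat_lit 0, nat_lit 0, false, false⟩,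
 nat_lit 5956, nat_lit 0, nat_lit 29684, nat_lit 0, nat_lit 2552, nat_lit 11879, nat_lit 0, nat_lit 0, nat_lit 0, nat_lit 0, nat_lit 0, nat_lit 548, nat_lit 0, nat_lit 0, nat_lit 0, nat_lit 0, nat_lit 0, nat_lit 0, [],
 ⟨p001_k40, nat_lit 0, nat_lit 0, nat_lit 0, nat_lit 0, nat_lit 12220, [nat_lit 6250000000, nat_lit 7089500001, nat_lit 7968000000], [], [nat_lit 36388851680, nat_lit 35716656089, nat_lit 38464132897, nat_lit 38749699073], nat_lit 1271250, nat_lit 1271250, nat_lit 780000, nat_lit 1762500, nat_lit 0, nat_lit 0, [nat_lit 1412500, nat_lit 1271250, nat_lit 1271250], [nat_lit 153, nat_lit 40, nat_lit 20, nat_lit 40]⟩, ⟨p001_k41, nat_lit 0, nat_lit 0, nat_lit 0, nat_lit 0, nat_lit 15859, [nat_lit 7968000000, nat_lit 8885500000, nat_lit 9842000000], [], [nat_lit 5041560452, nat_lit 5643808430, nat_lit 18395046272, nat_lit 19798212067], nat_lit 1100001, nat_lit 1184688, nat_lit 780000,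 nat_lit 1762500, nat_lit 0, nat_lit 0, [nat_lit 1695000, nat_lit 1271250, nat_lit 1271250], [nat_lit 201, nat_lit 40, nat_lit 20, nat_lit 40]⟩,
 zbF0, []⟩
noncomputable def p001_l110 : Lf2 := ⟨nat_lit 2, nat_lit 1, [nat_lit 19, nat_lit 5, nat_lit 5, nat_lit 20], false, nat_lit 0, nat_lit 0, nat_lit 0, nat_lit 0, zbN0,
 nat_lit 0, nat_lit 0, nat_lit 0, nat_lit 0, nat_lit 0, nat_lit 0, nat_lit 0, nat_lit 0, nat_lit 0, nat_lit 0, nat_lit 0, nat_lit 0, nat_lit 0, nat_lit 0, nat_lit 0, nat_lit 0, nat_lit 0, nat_lit 0, [],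
 ⟨p001_k36, nat_lit 0, nat_lit 0, nat_lit 0, nat_lit 0, nat_lit 13125, [], [], [], nat_lit 1271250, nat_lit 1271250, nat_lit 780000, nat_lit 1100001, nat_lit 0, nat_lit 0, [nat_lit 1412500, nat_lit 1271250], [nat_lit 26, nat_lit 40, nat_lit 20, nat_lit 80]⟩, C1.Rw.none,
 zbF0, []⟩
noncomputable def p001_l111 : Lf2 := ⟨nat_lit 0, nat_lit 1, [nat_lit 19, nat_lit 5, nat_lit 5, nat_lit 20], false, nat_lit 0, nat_lit 0, nat_lit 0, nat_lit 0, ⟨nat_lit 1000, nat_lit 0, nat_lit 0, nat_lit 0, nat_lit 0, nat_lit 0, nat_lit 0, nat_lit 0, nat_lit 0, nat_lit 0, nat_lit 0, nat_lit 0, nat_lit 0, nat_lit 0, nat_lit 0, nat_lit 0, false, false⟩,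
 nat_lit 0, nat_lit 8538, nat_lit 0, nat_lit 20842, nat_lit 3659, nat_lit 0, nat_lit 0, nat_lit 0, nat_lit 0, nat_lit 0, nat_lit 0, nat_lit 615, nat_lit 0, nat_lit 0, nat_lit 0, nat_lit 0, nat_lit 0, nat_lit 0, [],
 ⟨p001_k40, nat_lit 0, nat_lit 0, nat_lit 0, nat_lit 0, nat_lit 13125, [nat_lit 6250000000, nat_lit 7089500001, nat_lit 7968000000], [], [nat_lit 34206437876, nat_lit 33730103447, nat_lit 35935465933, nat_lit 36086281967], nat_lit 1271250, nat_lit 1271250, nat_lit 1100001, nat_lit 1785000, nat_lit 0, nat_lit 0, [nat_lit 1412500, nat_lit 1271250, nat_lit 1271250], [nat_lit 153, nat_lit 40, nat_lit 20, nat_lit 40]⟩, ⟨p001_k42, nat_lit 0, nat_lit 0, nat_lit 0, nat_lit 0, nat_lit 15870, [nat_lit 7968000000, nat_lit 8885500000, nat_lit 9842000000], [], [nat_lit 7218768000, nat_lit 7565016000, nat_lit 9986879000, nat_lit 10323114000], nat_lit 1184688, nat_lit 1271250, nat_lit 1100001,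 nat_lit 1785000, nat_lit 0, nat_lit 0, [nat_lit 1695000, nat_lit 1271250, nat_lit 1271250], [nat_lit 201, nat_lit 40, nat_lit 20, nat_lit 40]⟩,
 zbF0, []⟩
noncomputable def p001_l112 : Lf2 := ⟨nat_lit 2, nat_lit 1, [nat_lit 19, nat_lit 5, nat_lit 5, nat_lit 20], false, nat_lit 0, nat_lit 0, nat_lit 0, nat_lit 0, zbN0,
 nat_lit 0, nat_lit 0, nat_lit 0, nat_lit 0, nat_lit 0, nat_lit 0, nat_lit 0, nat_lit 0, nat_lit 0, nat_lit 0, nat_lit 0, nat_lit 0, nat_lit 0, nat_lit 0, nat_lit 0, nat_lit 0, nat_lit 0, nat_lit 0, [],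
 ⟨p001_k43, nat_lit 0, nat_lit 0, nat_lit 0, nat_lit 0, nat_lit 34033, [], [], [], nat_lit 1271250, nat_lit 1271250, nat_lit 780000, nat_lit 1100001, nat_lit 0, nat_lit 0, [nat_lit 1412500, nat_lit 1271250], [nat_lit 26, nat_lit 40, nat_lit 20, nat_lit 80]⟩, C1.Rw.none,
 zbF0, []⟩
noncomputable def p001_l113 : Lf2 := ⟨nat_lit 0, nat_lit 1, [nat_lit 19, nat_lit 5, nat_lit 5, nat_lit 20], false, nat_lit 0, nat_lit 0, nat_lit 0, nat_lit 0, ⟨nat_lit 1000, nat_lit 0, nat_lit 0, nat_lit 0, nat_lit 0, nat_lit 0, nat_lit 0, nat_lit 0, nat_lit 0, nat_lit 0, nat_lit 0, nat_lit 0, nat_lit 0, nat_lit 0, nat_lit 0, nat_lit 0, false, false⟩,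
 nat_lit 11000, nat_lit 0, nat_lit 0, nat_lit 0, nat_lit 3593, nat_lit 3923, nat_lit 2344, nat_lit 0, nat_lit 0, nat_lit 0, nat_lit 0, nat_lit 611, nat_lit 0, nat_lit 0, nat_lit 0, nat_lit 0, nat_lit 0, nat_lit 0, [],
 ⟨p001_k44, nat_lit 0, nat_lit 0, nat_lit 0, nat_lit 0, nat_lit 34033, [nat_lit 6250000000, nat_lit 7089500001, nat_lit 7968000000], [], [nat_lit 33707869014, nat_lit 33835418738, nat_lit 36009488670, nat_lit 36159825774], nat_lit 1271250, nat_lit 1271250, nat_lit 1100001, nat_lit 1785000, nat_lit 0, nat_lit 0, [nat_lit 1412500, nat_lit 1271250, nat_lit 1271250], [nat_lit 153, nat_lit 40, nat_lit 20, nat_lit 40]⟩, ⟨p001_k42, nat_lit 0, nat_lit 0, nat_lit 0, nat_lit 0, nat_lit 42232, [nat_lit 7968000000, nat_lit 8885500000, nat_lit 9842000000], [], [nat_lit 7196175443, nat_lit 7877201942, nat_lit 12704853679, nat_lit 13432044594], nat_lit 1184688, nat_lit 1271250, nat_lit 1100001,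 nat_lit 1785000, nat_lit 0, nat_lit 0, [nat_lit 1695000, nat_lit 1271250, nat_lit 1271250], [nat_lit 201, nat_lit 40, nat_lit 20, nat_lit 40]⟩,
 zbF0, []⟩
noncomputable def p001_l114 : Lf2 := ⟨nat_lit 2, nat_lit 1, [nat_lit 19, nat_lit 5, nat_lit 5, nat_lit 20], false, nat_lit 0, nat_lit 0, nat_lit 0, nat_lit 0, zbN0,
 nat_lit 0, nat_lit 0, nat_lit 0, nat_lit 0, nat_lit 0, nat_lit 0, nat_lit 0, nat_lit 0, nat_lit 0, nat_lit 0, nat_lit 0, nat_lit 0, nat_lit 0, nat_lit 0, nat_lit 0, nat_lit 0, nat_lit 0, nat_lit 0, [],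
 ⟨p001_k45, nat_lit 0, nat_lit 0, nat_lit 0, nat_lit 0, nat_lit 78278, [], [], [], nat_lit 1271250, nat_lit 1271250, nat_lit 780000, nat_lit 1100001, nat_lit 0, nat_lit 0, [nat_lit 1412500, nat_lit 1271250], [nat_lit 26, nat_lit 40, nat_lit 20, nat_lit 80]⟩, C1.Rw.none,
 zbF0, []⟩
noncomputable def p001_l115 : Lf2 := ⟨nat_lit 0, nat_lit 1, [nat_lit 19, nat_lit 5, nat_lit 5, nat_lit 20], false, nat_lit 0, nat_lit 0, nat_lit 0, nat_lit 0, ⟨nat_lit 1000, nat_lit 0, nat_lit 0, nat_lit 0, nat_lit 0, nat_lit 0, nat_lit 0, nat_lit 0, nat_lit 0, nat_lit 0, nat_lit 0, nat_lit 0, nat_lit 0, nat_lit 0, nat_lit 0, nat_lit 0, false, false⟩,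
 nat_lit 12734, nat_lit 0, nat_lit 0, nat_lit 0, nat_lit 3833, nat_lit 4244, nat_lit 2771, nat_lit 0, nat_lit 0, nat_lit 0, nat_lit 0, nat_lit 605, nat_lit 0, nat_lit 0, nat_lit 0, nat_lit 0, nat_lit 0, nat_lit 0, [],
 ⟨p001_k46, nat_lit 0, nat_lit 0, nat_lit 0, nat_lit 0, nat_lit 78278, [nat_lit 6250000000, nat_lit 7089500001, nat_lit 7968000000], [], [nat_lit 33289514175, nat_lit 33298916675, nat_lit 35287963414, nat_lit 35592120743], nat_lit 1271250, nat_lit 1271250, nat_lit 1100001, nat_lit 1785000, nat_lit 0, nat_lit 0, [nat_lit 1412500, nat_lit 1271250, nat_lit 1271250], [nat_lit 153, nat_lit 40, nat_lit 20, nat_lit 40]⟩, ⟨p001_k41, nat_lit 0, nat_lit 0, nat_lit 0, nat_lit 0, nat_lit 107045, [nat_lit 7968000000, nat_lit 8885500000, nat_lit 9842000000], [], [nat_lit 6762299104, nat_lit 8176999976, nat_lit 12484774592, nat_lit 13962167832], nat_lit 1100001, nat_lit 1271250, nat_lit 1100001,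 nat_lit 1785000, nat_lit 0, nat_lit 0, [nat_lit 1695000, nat_lit 1271250, nat_lit 1271250], [nat_lit 201, nat_lit 40, nat_lit 20, nat_lit 40]⟩,
 zbF0, []⟩
noncomputable def p001_l116 : Lf2 := ⟨nat_lit 0, nat_lit 2, [nat_lit 10, nat_lit 5, nat_lit 5, nat_lit 20], false, nat_lit 0, nat_lit 0, nat_lit 0, nat_lit 0, ⟨nat_lit 1000, nat_lit 0, nat_lit 0, nat_lit 0, nat_lit 0, nat_lit 0, nat_lit 0, nat_lit 0, nat_lit 0, nat_lit 0, nat_lit 0, nat_lit 0, nat_lit 0, nat_lit 0, nat_lit 0, nat_lit 0, false, false⟩,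
 nat_lit 6681, nat_lit 0, nat_lit 26616, nat_lit 0, nat_lit 2863, nat_lit 11098, nat_lit 0, nat_lit 0, nat_lit 0, nat_lit 0, nat_lit 0, nat_lit 507, nat_lit 0, nat_lit 0, nat_lit 0, nat_lit 0, nat_lit 0, nat_lit 0, [],
 ⟨p001_k47, nat_lit 0, nat_lit 0, nat_lit 0, nat_lit 0, nat_lit 26779, [nat_lit 6250000000, nat_lit 7089500001, nat_lit 8885500000], [], [nat_lit 36862765920, nat_lit 35349673421, nat_lit 37753730525, nat_lit 38333889963], nat_lit 1271250, nat_lit 1271250, nat_lit 780000, nat_lit 1762500, nat_lit 0, nat_lit 0, [nat_lit 1412500, nat_lit 1271250, nat_lit 1271250], [nat_lit 163, nat_lit 40, nat_lit 20, nat_lit 40]⟩, ⟨p001_k48, nat_lit 0, nat_lit 0, nat_lit 0, nat_lit 0, nat_lit 34755, [nat_lit 7968000000, nat_lit 8885500000, nat_lit 10837500000], [], [nat_lit 8107850224, nat_lit 9120935428, nat_lit 19990065664, nat_lit 22747169244], nat_lit 1100001, nat_lit 1271250, nat_lit 780000,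 nat_lit 1762500, nat_lit 0, nat_lit 0, [nat_lit 1695000, nat_lit 1271250, nat_lit 1271250], [nat_lit 280, nat_lit 40, nat_lit 20, nat_lit 40]⟩,
 zbF0, []⟩
noncomputable def p001_l117 : Lf2 := ⟨nat_lit 2, nat_lit 1, [nat_lit 19, nat_lit 5, nat_lit 5, nat_lit 20], false, nat_lit 0, nat_lit 0, nat_lit 0, nat_lit 0, zbN0,
 nat_lit 0, nat_lit 0, nat_lit 0, nat_lit 0, nat_lit 0, nat_lit 0, nat_lit 0, nat_lit 0, nat_lit 0, nat_lit 0, nat_lit 0, nat_lit 0, nat_lit 0, nat_lit 0, nat_lit 0, nat_lit 0, nat_lit 0, nat_lit 0, [],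
 ⟨p001_k36, nat_lit 0, nat_lit 0, nat_lit 0, nat_lit 0, nat_lit 12220, [], [], [], nat_lit 1271250, nat_lit 1271250, nat_lit 780000, nat_lit 1100001, nat_lit 0, nat_lit 0, [nat_lit 1412500, nat_lit 1271250], [nat_lit 26, nat_lit 40, nat_lit 20, nat_lit 80]⟩, C1.Rw.none,
 zbF0, []⟩
noncomputable def p001_l118 : Lf2 := ⟨nat_lit 0, nat_lit 1, [nat_lit 19, nat_lit 5, nat_lit 5, nat_lit 20], false, nat_lit 0, nat_lit 0, nat_lit 0, nat_lit 0, ⟨nat_lit 1000, nat_lit 0, nat_lit 0, nat_lit 0, nat_lit 0, nat_lit 0, nat_lit 0, nat_lit 0, nat_lit 0, nat_lit 0, nat_lit 0, nat_lit 0, nat_lit 0, nat_lit 0, nat_lit 0, nat_lit 0, false, false⟩,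
 nat_lit 25449, nat_lit 0, nat_lit 0, nat_lit 5607, nat_lit 4568, nat_lit 8483, nat_lit 0, nat_lit 0, nat_lit 0, nat_lit 0, nat_lit 0, nat_lit 0, nat_lit 0, nat_lit 0, nat_lit 0, nat_lit 0, nat_lit 0, nat_lit 0, [],
 ⟨p001_k36, nat_lit 0, nat_lit 0, nat_lit 0, nat_lit 0, nat_lit 12220, [nat_lit 6250000000, nat_lit 7968000000], [], [nat_lit 34630362752, nat_lit 33441403264, nat_lit 35429661056, nat_lit 35729239864], nat_lit 1271250, nat_lit 1271250, nat_lit 1100001, nat_lit 1785000, nat_lit 0, nat_lit 0, [nat_lit 1412500, nat_lit 1271250], [nat_lit 26, nat_lit 40, nat_lit 20, nat_lit 40]⟩, ⟨p001_k37, nat_lit 0, nat_lit 0, nat_lit 0, nat_lit 0, nat_lit 15859, [nat_lit 7968000000, nat_lit 9842000000], [], [nat_lit 35229254128, nat_lit 36265465905, nat_lit 43930695344, nat_lit 45029562559], nat_lit 1100001, nat_lit 1184688, nat_lit 1100001, nat_lit 1785000, nat_lit 0, nat_lit 0, [nat_lit 1695000,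 nat_lit 1271250], [nat_lit 77, nat_lit 40, nat_lit 20, nat_lit 40]⟩,
 zbF0, []⟩
noncomputable def p001_l119 : Lf2 := ⟨nat_lit 2, nat_lit 1, [nat_lit 19, nat_lit 5, nat_lit 5, nat_lit 20], false, nat_lit 0, nat_lit 0, nat_lit 0, nat_lit 0, zbN0,
 nat_lit 0, nat_lit 0, nat_lit 0, nat_lit 0, nat_lit 0, nat_lit 0, nat_lit 0, nat_lit 0, nat_lit 0, nat_lit 0, nat_lit 0, nat_lit 0, nat_lit 0, nat_lit 0, nat_lit 0, nat_lit 0, nat_lit 0, nat_lit 0, [],
 ⟨p001_k45, nat_lit 0, nat_lit 0, nat_lit 0, nat_lit 0, nat_lit 57801, [], [], [], nat_lit 1271250, nat_lit 1271250, nat_lit 780000, nat_lit 1100001, nat_lit 0, nat_lit 0, [nat_lit 1412500, nat_lit 1271250], [nat_lit 26, nat_lit 40, nat_lit 20, nat_lit 80]⟩, C1.Rw.none,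
 zbF0, []⟩
noncomputable def p001_l120 : Lf2 := ⟨nat_lit 0, nat_lit 1, [nat_lit 19, nat_lit 5, nat_lit 5, nat_lit 20], false, nat_lit 0, nat_lit 0, nat_lit 0, nat_lit 0, ⟨nat_lit 1000, nat_lit 0, nat_lit 0, nat_lit 0, nat_lit 0, nat_lit 0, nat_lit 0, nat_lit 0, nat_lit 0, nat_lit 0, nat_lit 0, nat_lit 0, nat_lit 0, nat_lit 0, nat_lit 0, nat_lit 0, false, false⟩,
 nat_lit 14544, nat_lit 0, nat_lit 0, nat_lit 0, nat_lit 4254, nat_lit 4847, nat_lit 3205, nat_lit 0, nat_lit 0, nat_lit 0, nat_lit 0, nat_lit 0, nat_lit 0, nat_lit 0, nat_lit 0, nat_lit 0, nat_lit 0, nat_lit 0, [],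
 ⟨p001_k45, nat_lit 0, nat_lit 0, nat_lit 0, nat_lit 0, nat_lit 57801, [nat_lit 6250000000, nat_lit 7968000000], [], [nat_lit 33376229650, nat_lit 33232979040, nat_lit 35148166992, nat_lit 35443960216], nat_lit 1271250, nat_lit 1271250, nat_lit 1100001, nat_lit 1785000, nat_lit 0, nat_lit 0, [nat_lit 1412500, nat_lit 1271250], [nat_lit 26, nat_lit 40, nat_lit 20, nat_lit 40]⟩, ⟨p001_k37, nat_lit 0, nat_lit 0, nat_lit 0, nat_lit 0, nat_lit 79043, [nat_lit 7968000000, nat_lit 9842000000], [], [nat_lit 35720783152, nat_lit 36458046645, nat_lit 41867018096, nat_lit 42640081531], nat_lit 1100001, nat_lit 1184688, nat_lit 1100001, nat_lit 1785000, nat_lit 0, nat_lit 0, [nat_lit 1695000, nat_lit 1271250], [nat_lit 77, nat_lit 40, nat_lit 20, nat_lit 40]⟩,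
 zbF0, []⟩
noncomputable def p001_l121 : Lf2 := ⟨nat_lit 2, nat_lit 2, [nat_lit 10, nat_lit 5, nat_lit 5, nat_lit 20], false, nat_lit 0, nat_lit 0, nat_lit 0, nat_lit 0, zbN0,
 nat_lit 0, nat_lit 0, nat_lit 0, nat_lit 0, nat_lit 0, nat_lit 0, nat_lit 0, nat_lit 0, nat_lit 0, nat_lit 0, nat_lit 0, nat_lit 0, nat_lit 0, nat_lit 0, nat_lit 0, nat_lit 0, nat_lit 0, nat_lit 0, [],
 ⟨p001_k35, nat_lit 0, nat_lit 0, nat_lit 0, nat_lit 0, nat_lit 5178, [], [], [], nat_lit 1271250, nat_lit 1271250, nat_lit 780000, nat_lit 1100001, nat_lit 0, nat_lit 0, [nat_lit 1412500, nat_lit 1271250], [nat_lit 51, nat_lit 40, nat_lit 20, nat_lit 80]⟩, C1.Rw.none,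
 zbF0, []⟩
noncomputable def p001_l122 : Lf2 := ⟨nat_lit 0, nat_lit 2, [nat_lit 10, nat_lit 5, nat_lit 5, nat_lit 20], false, nat_lit 0, nat_lit 0, nat_lit 0, nat_lit 0, ⟨nat_lit 1000, nat_lit 0, nat_lit 0, nat_lit 0, nat_lit 0, nat_lit 0, nat_lit 0, nat_lit 0, nat_lit 0, nat_lit 0, nat_lit 0, nat_lit 0, nat_lit 0, nat_lit 0, nat_lit 0, nat_lit 0, false, false⟩,
 nat_lit 100000, nat_lit 100000, nat_lit 63297, nat_lit 34256, nat_lit 85714, nat_lit 54432, nat_lit 0, nat_lit 0, nat_lit 0, nat_lit 0, nat_lit 0, nat_lit 0, nat_lit 0, nat_lit 0, nat_lit 0, nat_lit 0, nat_lit 2694338331, nat_lit 0, [],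
 ⟨p001_k39, nat_lit 0, nat_lit 0, nat_lit 0, nat_lit 0, nat_lit 5178, [nat_lit 6250000000, nat_lit 7968000001, nat_lit 8885500000], [], [nat_lit 75168274227, nat_lit 30530308735, nat_lit 37115806419, nat_lit 0], nat_lit 1271250, nat_lit 1271250, nat_lit 1100001, nat_lit 1785000, nat_lit 0, nat_lit 0, [nat_lit 1412500, nat_lit 1271250, nat_lit 1271250], [nat_lit 156, nat_lit 40, nat_lit 20, nat_lit 40]⟩, ⟨p001_k49, nat_lit 0, nat_lit 0, nat_lit 0, nat_lit 0, nat_lit 6952, [nat_lit 7968000000, nat_lit 9842000000, nat_lit 10837500000], [], [nat_lit 29017684512, nat_lit 33831777120, nat_lit 70009877376, nat_lit 75226004736], nat_lit 1100001, nat_lit 1184688, nat_lit 1100001, nat_lit 1785000, nat_lit 0, nat_lit 0, [nat_lit 1695000, nat_lit 1271250, nat_lit 1271250], [nat_lit 256, nat_lit 40, nat_lit 20, nat_lit 40]⟩,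
 zbF0, []⟩
noncomputable def p001_l123 : Lf2 := ⟨nat_lit 2, nat_lit 1, [nat_lit 19, nat_lit 5, nat_lit 5, nat_lit 20], false, nat_lit 0, nat_lit 0, nat_lit 0, nat_lit 0, zbN0,
 nat_lit 0, nat_lit 0, nat_lit 0, nat_lit 0, nat_lit 0, nat_lit 0, nat_lit 0, nat_lit 0, nat_lit 0, nat_lit 0, nat_lit 0, nat_lit 0, nat_lit 0, nat_lit 0, nat_lit 0, nat_lit 0, nat_lit 0, nat_lit 0, [],
 ⟨p001_k36, nat_lit 0, nat_lit 0, nat_lit 0, nat_lit 0, nat_lit 864, [], [], [], nat_lit 1271250, nat_lit 1271250, nat_lit 780000, nat_lit 1100001, nat_lit 0, nat_lit 0, [nat_lit 1412500, nat_lit 1271250], [nat_lit 26, nat_lit 40, nat_lit 20, nat_lit 80]⟩, C1.Rw.none,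
 zbF0, []⟩
noncomputable def p001_l124 : Lf2 := ⟨nat_lit 0, nat_lit 1, [nat_lit 19, nat_lit 5, nat_lit 5, nat_lit 20], false, nat_lit 0, nat_lit 0, nat_lit 0, nat_lit 0, ⟨nat_lit 1000, nat_lit 0, nat_lit 0, nat_lit 0, nat_lit 0, nat_lit 0, nat_lit 0, nat_lit 0, nat_lit 0, nat_lit 0, nat_lit 0, nat_lit 0, nat_lit 0, nat_lit 0, nat_lit 0, nat_lit 0, false, false⟩,
 nat_lit 23395, nat_lit 0, nat_lit 0, nat_lit 5625, nat_lit 3659, nat_lit 8343, nat_lit 0, nat_lit 0, nat_lit 0, nat_lit 6673, nat_lit 0, nat_lit 0, nat_lit 0, nat_lit 0, nat_lit 0, nat_lit 0, nat_lit 0, nat_lit 0, [],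
 ⟨p001_k40, nat_lit 0, nat_lit 0, nat_lit 0, nat_lit 0, nat_lit 864, [nat_lit 6250000000, nat_lit 7089500001, nat_lit 7968000000], [], [nat_lit 34206437876, nat_lit 33730103447, nat_lit 35935465933, nat_lit 36086281967], nat_lit 1271250, nat_lit 1271250, nat_lit 1100001, nat_lit 1785000, nat_lit 0, nat_lit 0, [nat_lit 1412500, nat_lit 1271250, nat_lit 1271250], [nat_lit 153, nat_lit 40, nat_lit 20, nat_lit 40]⟩, ⟨p001_k42, nat_lit 0, nat_lit 0, nat_lit 0, nat_lit 0, nat_lit 1135, [nat_lit 7968000000, nat_lit 8885500000, nat_lit 9842000000], [], [nat_lit 36272881005, nat_lit 36811522766, nat_lit 44937558339, nat_lit 45507010799], nat_lit 1184688, nat_lit 1227735, nat_lit 1100001, nat_lit 1785000, nat_lit 0, nat_lit 0, [nat_lit 1695000, nat_lit 1271250, nat_lit 1271250], [nat_lit 201, nat_lit 40, nat_lit 20, nat_lit 40]⟩,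
 zbF0, []⟩
noncomputable def p001_l125 : Lf2 := ⟨nat_lit 2, nat_lit 1, [nat_lit 19, nat_lit 5, nat_lit 5, nat_lit 20], false, nat_lit 0, nat_lit 0, nat_lit 0, nat_lit 0, zbN0,
 nat_lit 0, nat_lit 0, nat_lit 0, nat_lit 0, nat_lit 0, nat_lit 0, nat_lit 0, nat_lit 0, nat_lit 0, nat_lit 0, nat_lit 0, nat_lit 0, nat_lit 0, nat_lit 0, nat_lit 0, nat_lit 0, nat_lit 0, nat_lit 0, [],
 ⟨p001_k50, nat_lit 0, nat_lit 0, nat_lit 0, nat_lit 0, nat_lit 22139, [], [], [], nat_lit 1271250, nat_lit 1271250, nat_lit 780000, nat_lit 1762500, nat_lit 0, nat_lit 0, [nat_lit 936250, nat_lit 1271250, nat_lit 1271250, nat_lit 1271250], [nat_lit 197, nat_lit 40, nat_lit 20, nat_lit 40]⟩, C1.Rw.none,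
 zbF0, []⟩
noncomputable def p001_l126 : Lf2 := ⟨nat_lit 2, nat_lit 1, [nat_lit 19, nat_lit 5, nat_lit 5, nat_lit 20], false, nat_lit 0, nat_lit 0, nat_lit 0, nat_lit 0, zbN0,
 nat_lit 0, nat_lit 0, nat_lit 0, nat_lit 0, nat_lit 0, nat_lit 0, nat_lit 0, nat_lit 0, nat_lit 0, nat_lit 0, nat_lit 0, nat_lit 0, nat_lit 0, nat_lit 0, nat_lit 0, nat_lit 0, nat_lit 0, nat_lit 0, [],
 ⟨p001_k36, nat_lit 0, nat_lit 0, nat_lit 0, nat_lit 0, nat_lit 13125, [], [], [], nat_lit 1271250, nat_lit 1271250, nat_lit 780000, nat_lit 1100001, nat_lit 0, nat_lit 0, [nat_lit 1412500, nat_lit 1271250], [nat_lit 26, nat_lit 40, nat_lit 20, nat_lit 80]⟩, C1.Rw.none,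
 zbF0, []⟩
noncomputable def p001_l127 : Lf2 := ⟨nat_lit 2, nat_lit 1, [nat_lit 19, nat_lit 5, nat_lit 5, nat_lit 20], false, nat_lit 0, nat_lit 0, nat_lit 0, nat_lit 0, zbN0,
 nat_lit 0, nat_lit 0, nat_lit 0, nat_lit 0, nat_lit 0, nat_lit 0, nat_lit 0, nat_lit 0, nat_lit 0, nat_lit 0, nat_lit 0, nat_lit 0, nat_lit 0, nat_lit 0, nat_lit 0, nat_lit 0, nat_lit 0, nat_lit 0, [],
 ⟨p001_k51, nat_lit 0, nat_lit 0, nat_lit 0, nat_lit 0, nat_lit 13125, [], [], [], nat_lit 1271250, nat_lit 1271250, nat_lit 1100001, nat_lit 1442500, nat_lit 0, nat_lit 0, [nat_lit 780000, nat_lit 1435000, nat_lit 1271250], [nat_lit 18, nat_lit 40, nat_lit 20, nat_lit 80]⟩, C1.Rw.none,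
 zbF0, []⟩
noncomputable def p001_l128 : Lf2 := ⟨nat_lit 2, nat_lit 1, [nat_lit 19, nat_lit 5, nat_lit 5, nat_lit 20], true, nat_lit 0, nat_lit 0, nat_lit 0, nat_lit 0, zbN0,
 nat_lit 0, nat_lit 0, nat_lit 0, nat_lit 0, nat_lit 0, nat_lit 0, nat_lit 0, nat_lit 0, nat_lit 0, nat_lit 0, nat_lit 0, nat_lit 0, nat_lit 0, nat_lit 0, nat_lit 0, nat_lit 0, nat_lit 0, nat_lit 0, [],
 ⟨p001_k36, nat_lit 0, nat_lit 0, nat_lit 0, nat_lit 0, nat_lit 37125, [], [], [], nat_lit 1271250, nat_lit 1271250, nat_lit 1271250, nat_lit 1271250, nat_lit 0, nat_lit 0, [nat_lit 1412500, nat_lit 1271250], [nat_lit 26, nat_lit 40, nat_lit 20, nat_lit 80]⟩, C1.Rw.none,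
 zbF0, []⟩
noncomputable def p001_l129 : Lf2 := ⟨nat_lit 2, nat_lit 1, [nat_lit 19, nat_lit 5, nat_lit 5, nat_lit 20], false, nat_lit 0, nat_lit 0, nat_lit 0, nat_lit 0, zbN0,
 nat_lit 0, nat_lit 0, nat_lit 0, nat_lit 0, nat_lit 0, nat_lit 0, nat_lit 0, nat_lit 0, nat_lit 0, nat_lit 0, nat_lit 0, nat_lit 0, nat_lit 0, nat_lit 0, nat_lit 0, nat_lit 0, nat_lit 0, nat_lit 0, [],
 ⟨p001_k43, nat_lit 0, nat_lit 0, nat_lit 0, nat_lit 0, nat_lit 34033, [], [], [], nat_lit 1271250, nat_lit 1271250, nat_lit 780000, nat_lit 1100001, nat_lit 0, nat_lit 0, [nat_lit 1412500, nat_lit 1271250], [nat_lit 26, nat_lit 40, nat_lit 20, nat_lit 80]⟩, C1.Rw.none,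
 zbF0, []⟩
noncomputable def p001_l130 : Lf2 := ⟨nat_lit 0, nat_lit 1, [nat_lit 19, nat_lit 5, nat_lit 5, nat_lit 20], false, nat_lit 0, nat_lit 0, nat_lit 0, nat_lit 0, ⟨nat_lit 1000, nat_lit 0, nat_lit 0, nat_lit 0, nat_lit 0, nat_lit 0, nat_lit 0, nat_lit 0, nat_lit 0, nat_lit 0, nat_lit 0, nat_lit 0, nat_lit 0, nat_lit 0, nat_lit 0, nat_lit 0, false, false⟩,
 nat_lit 9878, nat_lit 0, nat_lit 0, nat_lit 0, nat_lit 3584, nat_lit 3639, nat_lit 2077, nat_lit 0, nat_lit 0, nat_lit 0, nat_lit 0, nat_lit 0, nat_lit 0, nat_lit 0, nat_lit 0, nat_lit 0, nat_lit 0, nat_lit 0, [],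
 ⟨p001_k44, nat_lit 0, nat_lit 0, nat_lit 0, nat_lit 0, nat_lit 34033, [nat_lit 6250000000, nat_lit 7089500001, nat_lit 7968000000], [], [nat_lit 33706889734, nat_lit 33882535082, nat_lit 36055847254, nat_lit 36206119050], nat_lit 1271250, nat_lit 1271250, nat_lit 1100001, nat_lit 1785000, nat_lit 0, nat_lit 0, [nat_lit 1412500, nat_lit 1271250, nat_lit 1271250], [nat_lit 153, nat_lit 40, nat_lit 20, nat_lit 40]⟩, ⟨p001_k52, nat_lit 0, nat_lit 0, nat_lit 0, nat_lit 0, nat_lit 40856, [nat_lit 7968000000, nat_lit 8885500000, nat_lit 9842000000], [], [nat_lit 36854053982, nat_lit 37194763806, nat_lit 42191680991, nat_lit 42545829642], nat_lit 1227735, nat_lit 1271250, nat_lit 1100001, nat_lit 1785000, nat_lit 0, nat_lit 0, [nat_lit 1695000, nat_lit 1271250, nat_lit 1271250], [nat_lit 201, nat_lit 40, nat_lit 20, nat_lit 40]⟩,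
 zbF0, []⟩
noncomputable def p001_l131 : Lf2 := ⟨nat_lit 2, nat_lit 1, [nat_lit 19, nat_lit 5, nat_lit 5, nat_lit 20], false, nat_lit 0, nat_lit 0, nat_lit 0, nat_lit 0, zbN0,
 nat_lit 0, nat_lit 0, nat_lit 0, nat_lit 0, nat_lit 0, nat_lit 0, nat_lit 0, nat_lit 0, nat_lit 0, nat_lit 0, nat_lit 0, nat_lit 0, nat_lit 0, nat_lit 0, nat_lit 0, nat_lit 0, nat_lit 0, nat_lit 0, [],
 ⟨p001_k45, nat_lit 0, nat_lit 0, nat_lit 0, nat_lit 0, nat_lit 78278, [], [], [], nat_lit 1271250, nat_lit 1271250, nat_lit 780000, nat_lit 1100001, nat_lit 0, nat_lit 0, [nat_lit 1412500, nat_lit 1271250], [nat_lit 26, nat_lit 40, nat_lit 20, nat_lit 80]⟩, C1.Rw.none,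
 zbF0, []⟩
noncomputable def p001_l132 : Lf2 := ⟨nat_lit 0, nat_lit 1, [nat_lit 19, nat_lit 5, nat_lit 5, nat_lit 20], false, nat_lit 0, nat_lit 0, nat_lit 0, nat_lit 0, ⟨nat_lit 1000, nat_lit 0, nat_lit 0, nat_lit 0, nat_lit 0, nat_lit 0, nat_lit 0, nat_lit 0, nat_lit 0, nat_lit 0, nat_lit 0, nat_lit 0, nat_lit 0, nat_lit 0, nat_lit 0, nat_lit 0, false, false⟩,
 nat_lit 9440, nat_lit 0, nat_lit 0, nat_lit 0, nat_lit 4278, nat_lit 3366, nat_lit 1981, nat_lit 0, nat_lit 0, nat_lit 0, nat_lit 0, nat_lit 0, nat_lit 0, nat_lit 0, nat_lit 0, nat_lit 0, nat_lit 0, nat_lit 0, [],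
 ⟨p001_k45, nat_lit 0, nat_lit 0, nat_lit 0, nat_lit 0, nat_lit 78278, [nat_lit 6250000000, nat_lit 7968000000], [], [nat_lit 33381173050, nat_lit 33667805280, nat_lit 35584192944, nat_lit 35880275512], nat_lit 1271250, nat_lit 1271250, nat_lit 1100001, nat_lit 1785000, nat_lit 0, nat_lit 0, [nat_lit 1412500, nat_lit 1271250], [nat_lit 26, nat_lit 40, nat_lit 20, nat_lit 40]⟩, ⟨p001_k53, nat_lit 0, nat_lit 0, nat_lit 0, nat_lit 0, nat_lit 99907, [nat_lit 7968000000, nat_lit 9842000000], [], [nat_lit 36536487810, nat_lit 37184729964, nat_lit 41666808318, nat_lit 42339911748], nat_lit 1184688, nat_lit 1271250, nat_lit 1100001, nat_lit 1785000, nat_lit 0, nat_lit 0, [nat_lit 1695000, nat_lit 1271250], [nat_lit 77, nat_lit 40, nat_lit 20, nat_lit 40]⟩,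
 zbF0, []⟩
noncomputable def p001_l133 : Lf2 := ⟨nat_lit 1, nat_lit 2, [nat_lit 10, nat_lit 5, nat_lit 5, nat_lit 20], false, nat_lit 0, nat_lit 0, nat_lit 0, nat_lit 0, zbN0,
 nat_lit 0, nat_lit 0, nat_lit 0, nat_lit 0, nat_lit 0, nat_lit 0, nat_lit 0, nat_lit 0, nat_lit 0, nat_lit 0, nat_lit 0, nat_lit 0, nat_lit 0, nat_lit 0, nat_lit 0, nat_lit 0, nat_lit 0, nat_lit 0, [],
 C1.Rw.none, C1.Rw.none,
 zbF0, []⟩
noncomputable def p001_l134 : Lf2 := ⟨nat_lit 2, nat_lit 2, [nat_lit 10, nat_lit 5, nat_lit 5, nat_lit 20], true, nat_lit 0, nat_lit 0, nat_lit 0, nat_lit 0, zbN0,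
 nat_lit 0, nat_lit 0, nat_lit 0, nat_lit 0, nat_lit 0, nat_lit 0, nat_lit 0, nat_lit 0, nat_lit 0, nat_lit 0, nat_lit 0, nat_lit 0, nat_lit 0, nat_lit 0, nat_lit 0, nat_lit 0, nat_lit 0, nat_lit 0, [],
 ⟨p001_k54, nat_lit 0, nat_lit 0, nat_lit 0, nat_lit 0, nat_lit 49168, [], [], [], nat_lit 1271250, nat_lit 1271250, nat_lit 780000, nat_lit 1762500, nat_lit 0, nat_lit 0, [nat_lit 936250, nat_lit 1271250, nat_lit 1271250, nat_lit 1271250, nat_lit 1271250], [nat_lit 231, nat_lit 40, nat_lit 20, nat_lit 40]⟩, C1.Rw.none,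
 zbF0, []⟩
noncomputable def p001_l135 : Lf2 := ⟨nat_lit 0, nat_lit 2, [nat_lit 10, nat_lit 5, nat_lit 5, nat_lit 20], false, nat_lit 0, nat_lit 0, nat_lit 0, nat_lit 0, ⟨nat_lit 0, nat_lit 0, nat_lit 1000, nat_lit 4, nat_lit 169, nat_lit 0, nat_lit 0, nat_lit 0, nat_lit 0, nat_lit 215, nat_lit 2549, nat_lit 224, nat_lit 56804782, nat_lit 0, nat_lit 0, nat_lit 2132250, false, true⟩,
 nat_lit 100000, nat_lit 0, nat_lit 100000, nat_lit 0, nat_lit 0, nat_lit 66666, nat_lit 0, nat_lit 0, nat_lit 295, nat_lit 43717, nat_lit 5220, nat_lit 0, nat_lit 0, nat_lit 0, nat_lit 67, nat_lit 1000000, nat_lit 0, nat_lit 0, [(nat_lit 0, [(nat_lit 6, nat_lit 1000)])],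
 ⟨p001_k39, nat_lit 0, nat_lit 0, nat_lit 0, nat_lit 0, nat_lit 84710, [nat_lit 2158000000, nat_lit 800800000, nat_lit 4400000], [], [nat_lit 9836012000, nat_lit 9836012000, nat_lit 11351012000, nat_lit 11351012000], nat_lit 1271250, nat_lit 1271250, nat_lit 780000, nat_lit 1762500, nat_lit 0, nat_lit 0, [nat_lit 1412500, nat_lit 1271250, nat_lit 1271250], [nat_lit 156, nat_lit 40, nat_lit 20, nat_lit 40]⟩, ⟨p001_k49, nat_lit 0, nat_lit 0, nat_lit 0, nat_lit 0, nat_lit 109938, [nat_lit 125280000000, nat_lit 146160000000, nat_lit 156600000000], [], [nat_lit 281650622424, nat_lit 266011707096, nat_lit 260657627304, nat_lit 258988977324], nat_lit 1100001, nat_lit 1271250, nat_lit 780000, nat_lit 1762500, nat_lit 0, nat_lit 0, [nat_lit 1695000, nat_lit 1271250, nat_lit 1271250], [nat_lit 256, nat_lit 40, nat_lit 20, nat_lit 40]⟩,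
 ⟨nat_lit 6708, nat_lit 7072, ⟨.ofNat (nat_lit 276428), .ofNat (nat_lit 547119), .ofNat (nat_lit 297976), .ofNat (nat_lit 568660), .ofNat (nat_lit 284811), .ofNat (nat_lit 543257), .ofNat (nat_lit 306249), .ofNat (nat_lit 564689)⟩, ⟨.ofNat (nat_lit 0), .ofNat (nat_lit 0), .ofNat (nat_lit 0), .ofNat (nat_lit 0), .ofNat (nat_lit 0), .ofNat (nat_lit 0), .ofNat (nat_lit 0), .ofNat (nat_lit 0)⟩⟩, []⟩
noncomputable def p001_l136 : Lf2 := ⟨nat_lit 3, nat_lit 2, [nat_lit 10, nat_lit 5, nat_lit 5, nat_lit 20], false, nat_lit 0, nat_lit 0, nat_lit 0, nat_lit 0, zbN0,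
 nat_lit 0, nat_lit 0, nat_lit 0, nat_lit 0, nat_lit 0, nat_lit 0, nat_lit 0, nat_lit 0, nat_lit 0, nat_lit 0, nat_lit 0, nat_lit 0, nat_lit 0, nat_lit 0, nat_lit 0, nat_lit 0, nat_lit 0, nat_lit 0, [],
 C1.Rw.none, ⟨p001_k34, nat_lit 0, nat_lit 0, nat_lit 258, nat_lit 0, nat_lit 109938, [], [], [], nat_lit 1100001, nat_lit 1271250, nat_lit 780000, nat_lit 1762500, nat_lit 0, nat_lit 0, [nat_lit 1695000, nat_lit 1271250, nat_lit 1271250], [nat_lit 106, nat_lit 40, nat_lit 20, nat_lit 80, nat_lit 41, nat_lit 345, nat_lit 125, nat_lit 9]⟩,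
 zbF0, []⟩
noncomputable def p001_l137 : Lf2 := ⟨nat_lit 0, nat_lit 2, [nat_lit 10, nat_lit 5, nat_lit 5, nat_lit 20], true, nat_lit 0, nat_lit 0, nat_lit 0, nat_lit 0, ⟨nat_lit 0, nat_lit 0, nat_lit 1000, nat_lit 4, nat_lit 169, nat_lit 0, nat_lit 0, nat_lit 0, nat_lit 0, nat_lit 215, nat_lit 2549, nat_lit 224, nat_lit 56804782, nat_lit 0, nat_lit 0, nat_lit 2132250, false, true⟩,
 nat_lit 0, nat_lit 100000, nat_lit 0, nat_lit 100000, nat_lit 42857, nat_lit 0, nat_lit 60000, nat_lit 8922, nat_lit 0, nat_lit 0, nat_lit 0, nat_lit 0, nat_lit 0, nat_lit 0, nat_lit 0, nat_lit 1000000, nat_lit 0, nat_lit 0, [(nat_lit 0, [(nat_lit 6, nat_lit 1000)])],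
 ⟨p001_k33, nat_lit 0, nat_lit 0, nat_lit 242, nat_lit 0, nat_lit 168031, [nat_lit 179258000001, nat_lit 213320800000, nat_lit 247322400000], [], [nat_lit 496759547514, nat_lit 499433597810, nat_lit 500866152046, nat_lit 502388534030], nat_lit 1271250, nat_lit 1271250, nat_lit 780000, nat_lit 1762500, nat_lit 0, nat_lit 0, [nat_lit 1412500, nat_lit 1271250, nat_lit 1271250], [nat_lit 25, nat_lit 40, nat_lit 20, nat_lit 80, nat_lit 17, nat_lit 345, nat_lit 125, nat_lit 10]⟩, C1.Rw.none,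
 ⟨nat_lit 6708, nat_lit 7072, ⟨.ofNat (nat_lit 276428), .ofNat (nat_lit 547119), .ofNat (nat_lit 297976), .ofNat (nat_lit 568660), .ofNat (nat_lit 284811), .ofNat (nat_lit 543257), .ofNat (nat_lit 306249), .ofNat (nat_lit 564689)⟩, ⟨.ofNat (nat_lit 0), .ofNat (nat_lit 0), .ofNat (nat_lit 0), .ofNat (nat_lit 0), .ofNat (nat_lit 0), .ofNat (nat_lit 0), .ofNat (nat_lit 0), .ofNat (nat_lit 0)⟩⟩, []⟩
noncomputable def p001_l138 : Lf2 := ⟨nat_lit 0, nat_lit 2, [nat_lit 10, nat_lit 5, nat_lit 5, nat_lit 20], false, nat_lit 0, nat_lit 0, nat_lit 0, nat_lit 0, ⟨nat_lit 1000, nat_lit 0, nat_lit 0, nat_lit 0, nat_lit 0, nat_lit 0, nat_lit 0, nat_lit 0, nat_lit 0, nat_lit 0, nat_lit 0, nat_lit 0, nat_lit 0, nat_lit 0, nat_lit 0, nat_lit 0, false, false⟩,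
 nat_lit 29344, nat_lit 0, nat_lit 0, nat_lit 0, nat_lit 7082, nat_lit 9781, nat_lit 0, nat_lit 0, nat_lit 0, nat_lit 0, nat_lit 0, nat_lit 0, nat_lit 0, nat_lit 0, nat_lit 0, nat_lit 0, nat_lit 0, nat_lit 0, [],
 ⟨p001_k35, nat_lit 0, nat_lit 0, nat_lit 240, nat_lit 0, nat_lit 84710, [nat_lit 6250000000, nat_lit 9842000000], [], [nat_lit 30225392248, nat_lit 30994990656, nat_lit 40794523248, nat_lit 41115727288], nat_lit 1271250, nat_lit 1271250, nat_lit 1271250, nat_lit 1271250, nat_lit 0, nat_lit 0, [nat_lit 1412500, nat_lit 1271250], [nat_lit 51, nat_lit 40, nat_lit 20, nat_lit 80, nat_lit 1, nat_lit 401, nat_lit 175, nat_lit 11]⟩, ⟨p001_k38, nat_lit 0, nat_lit 0, nat_lit 346, nat_lit 0, nat_lit 109938, [nat_lit 7968000000, nat_lit 11872000000], [], [nat_lit 44466147504, nat_lit 44401707980, nat_lit 52410100948, nat_lit 52131216218], nat_lit 1100001, nat_lit 1271250, nat_lit 1271250,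 nat_lit 1271250, nat_lit 0, nat_lit 0, [nat_lit 1695000, nat_lit 1271250], [nat_lit 143, nat_lit 40, nat_lit 20, nat_lit 80, nat_lit 14, nat_lit 373, nat_lit 150, nat_lit 10]⟩,
 zbF0, []⟩
noncomputable def p001_l139 : Lf2 := ⟨nat_lit 0, nat_lit 2, [nat_lit 10, nat_lit 5, nat_lit 5, nat_lit 20], true, nat_lit 0, nat_lit 0, nat_lit 0, nat_lit 0, ⟨nat_lit 0, nat_lit 1000, nat_lit 0, nat_lit 4, nat_lit 64, nat_lit 0, nat_lit 0, nat_lit 0, nat_lit 0, nat_lit 0, nat_lit 0, nat_lit 0, nat_lit 0, nat_lit 0, nat_lit 0, nat_lit 5000000, false, false⟩,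
 nat_lit 0, nat_lit 27056, nat_lit 0, nat_lit 0, nat_lit 11595, nat_lit 0, nat_lit 1702, nat_lit 0, nat_lit 0, nat_lit 0, nat_lit 0, nat_lit 0, nat_lit 0, nat_lit 0, nat_lit 0, nat_lit 1000000, nat_lit 0, nat_lit 0, [(nat_lit 0, [(nat_lit 2, nat_lit 1000)])],
 ⟨p001_k33, nat_lit 0, nat_lit 0, nat_lit 368, nat_lit 0, nat_lit 168031, [nat_lit 3255555556, nat_lit 3535600001, nat_lit 2605200000], [], [nat_lit 24545752428, nat_lit 23878930930, nat_lit 28665055908, nat_lit 22969336818], nat_lit 1271250, nat_lit 1271250, nat_lit 0, nat_lit 780000, nat_lit 0, nat_lit 0, [nat_lit 1412500, nat_lit 1271250, nat_lit 1271250], [nat_lit 25, nat_lit 40, nat_lit 20, nat_lit 80, nat_lit 17, nat_lit 317, nat_lit 100, nat_lit 10]⟩, C1.Rw.none,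
 ⟨nat_lit 6708, nat_lit 7072, ⟨.ofNat (nat_lit 5717), .ofNat (nat_lit 276428), .ofNat (nat_lit 27265), .ofNat (nat_lit 297976), .ofNat (nat_lit 26343), .ofNat (nat_lit 284811), .ofNat (nat_lit 47782), .ofNat (nat_lit 306249)⟩, ⟨.ofNat (nat_lit 0), .ofNat (nat_lit 0), .ofNat (nat_lit 0), .ofNat (nat_lit 0), .ofNat (nat_lit 0), .ofNat (nat_lit 0), .ofNat (nat_lit 0), .ofNat (nat_lit 0)⟩⟩, []⟩
noncomputable def p001_l140 : Lf2 := ⟨nat_lit 0, nat_lit 2, [nat_lit 10, nat_lit 5, nat_lit 5, nat_lit 20], false, nat_lit 0, nat_lit 0, nat_lit 0, nat_lit 0, ⟨nat_lit 454, nat_lit 546, nat_lit 0, nat_lit 4, nat_lit 240, nat_lit 0, nat_lit 0, nat_lit 0, nat_lit 0, nat_lit 0, nat_lit 0, nat_lit 0, nat_lit 0, nat_lit 0, nat_lit 0, nat_lit 5000000, false, true⟩,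
 nat_lit 0, nat_lit 7422, nat_lit 0, nat_lit 5484, nat_lit 3180, nat_lit 4041, nat_lit 715, nat_lit 0, nat_lit 0, nat_lit 1419, nat_lit 0, nat_lit 0, nat_lit 0, nat_lit 0, nat_lit 0, nat_lit 546000, nat_lit 0, nat_lit 0, [(nat_lit 0, [(nat_lit 2, nat_lit 546)])],
 ⟨p001_k33, nat_lit 0, nat_lit 0, nat_lit 308, nat_lit 0, nat_lit 168031, [nat_lit 4615033334, nat_lit 5547909601, nat_lit 5890707200], [], [nat_lit 34075889868, nat_lit 33504914460, nat_lit 40976720100, nat_lit 41280316380], nat_lit 1271250, nat_lit 1271250, nat_lit 780000, nat_lit 3072500, nat_lit 0, nat_lit 0, [nat_lit 1412500, nat_lit 1271250, nat_lit 1271250], [nat_lit 25, nat_lit 40, nat_lit 20, nat_lit 80, nat_lit 17, nat_lit 401, nat_lit 175, nat_lit 12]⟩, ⟨p001_k34, nat_lit 0, nat_lit 0, nat_lit 282, nat_lit 0, nat_lit 0, [nat_lit 3617472000, nat_lit 4468268000, nat_lit 5389888000], [], [nat_lit 12372906105, nat_lit 12604697641,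 nat_lit 19309311392, nat_lit 19295375180], nat_lit 0, nat_lit 0, nat_lit 0, nat_lit 0, nat_lit 0, nat_lit 0, [], [nat_lit 106, nat_lit 40, nat_lit 20, nat_lit 80, nat_lit 41, nat_lit 373, nat_lit 150, nat_lit 10]⟩,
 ⟨nat_lit 6708, nat_lit 7072, ⟨.ofNat (nat_lit 276428), .ofNat (nat_lit 907929), .ofNat (nat_lit 297976), .ofNat (nat_lit 929471), .ofNat (nat_lit 284811), .ofNat (nat_lit 887742), .ofNat (nat_lit 306249), .ofNat (nat_lit 909174)⟩, ⟨.ofNat (nat_lit 0), .ofNat (nat_lit 0), .ofNat (nat_lit 0), .ofNat (nat_lit 0), .ofNat (nat_lit 0), .ofNat (nat_lit 0), .ofNat (nat_lit 0), .ofNat (nat_lit 0)⟩⟩, []⟩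
noncomputable def p001_l141 : Lf2 := ⟨nat_lit 0, nat_lit 2, [nat_lit 10, nat_lit 5, nat_lit 5, nat_lit 20], true, nat_lit 0, nat_lit 0, nat_lit 0, nat_lit 0, ⟨nat_lit 0, nat_lit 1000, nat_lit 0, nat_lit 4, nat_lit 64, nat_lit 0, nat_lit 0, nat_lit 0, nat_lit 0, nat_lit 0, nat_lit 0, nat_lit 0, nat_lit 0, nat_lit 0, nat_lit 0, nat_lit 5000000, false, false⟩,
 nat_lit 0, nat_lit 27056, nat_lit 0, nat_lit 0, nat_lit 11595, nat_lit 0, nat_lit 1702, nat_lit 0, nat_lit 0, nat_lit 0, nat_lit 0, nat_lit 0, nat_lit 0, nat_lit 0, nat_lit 0, nat_lit 1000000, nat_lit 0, nat_lit 0, [(nat_lit 0, [(nat_lit 2, nat_lit 1000)])],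
 ⟨p001_k33, nat_lit 0, nat_lit 0, nat_lit 368, nat_lit 0, nat_lit 168031, [nat_lit 3255555556, nat_lit 3535600001, nat_lit 2605200000], [], [nat_lit 24545752428, nat_lit 23878930930, nat_lit 28665055908, nat_lit 22969336818], nat_lit 1271250, nat_lit 1271250, nat_lit 0, nat_lit 780000, nat_lit 0, nat_lit 0, [nat_lit 1412500, nat_lit 1271250, nat_lit 1271250], [nat_lit 25, nat_lit 40, nat_lit 20, nat_lit 80, nat_lit 17, nat_lit 317, nat_lit 100, nat_lit 10]⟩, C1.Rw.none,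
 ⟨nat_lit 6708, nat_lit 7072, ⟨.ofNat (nat_lit 5717), .ofNat (nat_lit 276428), .ofNat (nat_lit 27265), .ofNat (nat_lit 297976), .ofNat (nat_lit 26343), .ofNat (nat_lit 284811), .ofNat (nat_lit 47782), .ofNat (nat_lit 306249)⟩, ⟨.ofNat (nat_lit 0), .ofNat (nat_lit 0), .ofNat (nat_lit 0), .ofNat (nat_lit 0), .ofNat (nat_lit 0), .ofNat (nat_lit 0), .ofNat (nat_lit 0), .ofNat (nat_lit 0)⟩⟩, []⟩
noncomputable def p001_l142 : Lf2 := ⟨nat_lit 0, nat_lit 2, [nat_lit 10, nat_lit 5, nat_lit 5, nat_lit 20], false, nat_lit 0, nat_lit 0, nat_lit 0, nat_lit 0, ⟨nat_lit 240, nat_lit 760, nat_lit 0, nat_lit 4, nat_lit 240, nat_lit 0, nat_lit 0, nat_lit 0, nat_lit 0, nat_lit 0, nat_lit 0, nat_lit 0, nat_lit 0, nat_lit 0, nat_lit 0, nat_lit 5000000, false, true⟩,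
 nat_lit 2994, nat_lit 4394, nat_lit 0, nat_lit 0, nat_lit 3166, nat_lit 998, nat_lit 356, nat_lit 0, nat_lit 0, nat_lit 388, nat_lit 0, nat_lit 0, nat_lit 0, nat_lit 0, nat_lit 0, nat_lit 760000, nat_lit 0, nat_lit 0, [(nat_lit 0, [(nat_lit 2, nat_lit 760)])],
 ⟨p001_k33, nat_lit 0, nat_lit 0, nat_lit 257, nat_lit 0, nat_lit 84710, [nat_lit 3974222223, nat_lit 4599376001, nat_lit 4342032000], [], [nat_lit 32772933886, nat_lit 31098949378, nat_lit 38486294558, nat_lit 38764958437], nat_lit 1271250, nat_lit 1271250, nat_lit 780000, nat_lit 3072500, nat_lit 0, nat_lit 0, [nat_lit 1412500, nat_lit 1271250, nat_lit 1271250], [nat_lit 25, nat_lit 40, nat_lit 20, nat_lit 80, nat_lit 17, nat_lit 401, nat_lit 175, nat_lit 12]⟩, ⟨p001_k34, nat_lit 0, nat_lit 0, nat_lit 349, nat_lit 0, nat_lit 109938, [nat_lit 1912320000, nat_lit 2362080000, nat_lit 2849280000], [], [nat_lit 11125697940, nat_lit 11201683940,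 nat_lit 12777437320, nat_lit 12812436380], nat_lit 1100001, nat_lit 1271250, nat_lit 780000, nat_lit 3072500, nat_lit 0, nat_lit 0, [nat_lit 1695000, nat_lit 1271250, nat_lit 1271250], [nat_lit 106, nat_lit 40, nat_lit 20, nat_lit 80, nat_lit 41, nat_lit 373, nat_lit 150, nat_lit 10]⟩,
 ⟨nat_lit 6708, nat_lit 7072, ⟨.ofNat (nat_lit 276428), .ofNat (nat_lit 907929), .ofNat (nat_lit 297976), .ofNat (nat_lit 929471), .ofNat (nat_lit 284811), .ofNat (nat_lit 887742), .ofNat (nat_lit 306249), .ofNat (nat_lit 909174)⟩, ⟨.ofNat (nat_lit 0), .ofNat (nat_lit 0), .ofNat (nat_lit 0), .ofNat (nat_lit 0), .ofNat (nat_lit 0), .ofNat (nat_lit 0), .ofNat (nat_lit 0), .ofNat (nat_lit 0)⟩⟩, []⟩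
noncomputable def b_NL_500_400_0_0 : St := ⟨false, nat_lit 2, nat_lit 2, nat_lit 0, nat_lit 20, nat_lit 200, nat_lit 220, nat_lit 160, nat_lit 180, nat_lit 0, nat_lit 400, nat_lit 0, nat_lit 0, nat_lit 0, nat_lit 0, nat_lit 0, nat_lit 0, nat_lit 0, nat_lit 8, nat_lit 0, nat_lit 0, nat_lit 0, nat_lit 0⟩
theorem d_NL_500_400_0_0 (h : EB TB.env) : Dead b_NL_500_400_0_0 := chkB_sound0 h (T :=
(.st (nat_lit 0)
(.gv
(.st (nat_lit 1)
(.spl (nat_lit 2) (nat_lit 240)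
(.leaf p001_l97)
(.leaf p001_l98))
(.spl (nat_lit 2) (nat_lit 240)
(.leaf p001_l99)
(.leaf p001_l100)))
(.leaf p001_l101))
(.gv
(.st (nat_lit 1)
(.spl (nat_lit 2) (nat_lit 120)
(.spl (nat_lit 2) (nat_lit 80)
(.leaf p001_l102)
(.leaf p001_l103))
(.spl (nat_lit 8) (nat_lit 800)
(.spl (nat_lit 6) (nat_lit 4)
(.leaf p001_l104)
(.leaf p001_l105))
(.leaf p001_l106)))
(.spl (nat_lit 2) (nat_lit 240)
(.spl (nat_lit 2) (nat_lit 120)
(.leaf p001_l107)
(.spl (nat_lit 7) (nat_lit 600)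
(.spl (nat_lit 7) (nat_lit 300)
(.leaf p001_l108)
(.spl (nat_lit 8) (nat_lit 800)
(.spl (nat_lit 8) (nat_lit 400)
(.spl (nat_lit 6) (nat_lit 4)
(.spl (nat_lit 0) (nat_lit 210)
(.spl (nat_lit 1) (nat_lit 170)
(.leaf p001_l109)
(.spl (nat_lit 0) (nat_lit 205)
(.spl (nat_lit 2) (nat_lit 160)
(.leaf p001_l110)
(.leaf p001_l111))
(.spl (nat_lit 2) (nat_lit 160)
(.leaf p001_l112)
(.leaf p001_l113))))
(.spl (nat_lit 2) (nat_lit 160)
(.leaf p001_l114)
(.leaf p001_l115)))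
(.leaf p001_l116))
(.spl (nat_lit 8) (nat_lit 600)
(.spl (nat_lit 1) (nat_lit 170)
(.spl (nat_lit 6) (nat_lit 4)
(.spl (nat_lit 0) (nat_lit 210)
(.spl (nat_lit 2) (nat_lit 160)
(.leaf p001_l117)
(.leaf p001_l118))
(.spl (nat_lit 2) (nat_lit 160)
(.leaf p001_l119)
(.leaf p001_l120)))
(.spl (nat_lit 2) (nat_lit 160)
(.leaf p001_l121)
(.leaf p001_l122)))
(.spl (nat_lit 6) (nat_lit 4)
(.spl (nat_lit 0) (nat_lit 210)
(.spl (nat_lit 1) (nat_lit 175)
(.spl (nat_lit 0) (nat_lit 205)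
(.spl (nat_lit 2) (nat_lit 160)
(.leaf p001_l123)
(.leaf p001_l124))
(.leaf p001_l125))
(.spl (nat_lit 0) (nat_lit 205)
(.spl (nat_lit 2) (nat_lit 160)
(.leaf p001_l126)
(.spl (nat_lit 2) (nat_lit 200)
(.leaf p001_l127)
(.leaf p001_l128)))
(.spl (nat_lit 2) (nat_lit 160)
(.leaf p001_l129)
(.leaf p001_l130))))
(.spl (nat_lit 2) (nat_lit 160)
(.leaf p001_l131)
(.leaf p001_l132)))
(.spl (nat_lit 0) (nat_lit 210)
(.leaf p001_l133)
(.leaf p001_l134))))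
(.leaf p001_l135)))
(.leaf p001_l136)))
(.leaf p001_l137)))
(.leaf p001_l138)))
(.st (nat_lit 1)
(.spl (nat_lit 2) (nat_lit 120)
(.leaf p001_l139)
(.leaf p001_l140))
(.spl (nat_lit 2) (nat_lit 120)
(.leaf p001_l141)
(.leaf p001_l142)))))) (by decide +kernel)
noncomputable def p001_l143 : Lf2 := ⟨nat_lit 0, nat_lit 4, [nat_lit 38, nat_lit 5, nat_lit 5, nat_lit 20], true, nat_lit 0, nat_lit 0, nat_lit 0, nat_lit 0, ⟨nat_lit 0, nat_lit 0, nat_lit 1000, nat_lit 4, nat_lit 125, nat_lit 0, nat_lit 0, nat_lit 0, nat_lit 0, nat_lit 215, nat_lit 0, nat_lit 215, nat_lit 61027173, nat_lit 0, nat_lit 0, nat_lit 1502792, false, false⟩,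
 nat_lit 0, nat_lit 0, nat_lit 0, nat_lit 8957, nat_lit 4646, nat_lit 0, nat_lit 660, nat_lit 0, nat_lit 0, nat_lit 0, nat_lit 0, nat_lit 0, nat_lit 0, nat_lit 0, nat_lit 90, nat_lit 1000000, nat_lit 0, nat_lit 0, [(nat_lit 0, [(nat_lit 6, nat_lit 1000)])],
 ⟨p001_k55, nat_lit 0, nat_lit 0, nat_lit 293, nat_lit 0, nat_lit 0, [nat_lit 2618000001, nat_lit 1352800000, nat_lit 26400000], [], [nat_lit 12968182189, nat_lit 14029617889, nat_lit 14993221017, nat_lit 15767773498], nat_lit 0, nat_lit 0, nat_lit 0, nat_lit 0, nat_lit 0, nat_lit 0, [], [nat_lit 25, nat_lit 40, nat_lit 20, nat_lit 80, nat_lit 17, nat_lit 345, nat_lit 125, nat_lit 11]⟩, C1.Rw.none,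
 ⟨nat_lit 6708, nat_lit 7072, ⟨.ofNat (nat_lit 27265), .ofNat (nat_lit 568660), .ofNat (nat_lit 48814), .ofNat (nat_lit 590203), .ofNat (nat_lit 47782), .ofNat (nat_lit 564689), .ofNat (nat_lit 69221), .ofNat (nat_lit 586121)⟩, ⟨.ofNat (nat_lit 0), .ofNat (nat_lit 0), .ofNat (nat_lit 0), .ofNat (nat_lit 0), .ofNat (nat_lit 0), .ofNat (nat_lit 0), .ofNat (nat_lit 0), .ofNat (nat_lit 0)⟩⟩, [⟨nat_lit 0, nat_lit 100, nat_lit 99, nat_lit 10, nat_lit 27588585⟩]⟩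
noncomputable def p001_l144 : Lf2 := ⟨nat_lit 0, nat_lit 4, [nat_lit 38, nat_lit 5, nat_lit 5, nat_lit 20], false, nat_lit 0, nat_lit 0, nat_lit 0, nat_lit 0, ⟨nat_lit 1000, nat_lit 0, nat_lit 0, nat_lit 0, nat_lit 0, nat_lit 0, nat_lit 0, nat_lit 0, nat_lit 0, nat_lit 0, nat_lit 0, nat_lit 0, nat_lit 0, nat_lit 0, nat_lit 0, nat_lit 0, false, false⟩,
 nat_lit 0, nat_lit 0, nat_lit 0, nat_lit 36151, nat_lit 10624, nat_lit 8789, nat_lit 0, nat_lit 0, nat_lit 0, nat_lit 6790, nat_lit 0, nat_lit 0, nat_lit 0, nat_lit 0, nat_lit 0, nat_lit 0, nat_lit 0, nat_lit 0, [],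
 ⟨p001_k55, nat_lit 0, nat_lit 0, nat_lit 228, nat_lit 0, nat_lit 0, [nat_lit 6250000000, nat_lit 7968000001, nat_lit 9842000000], [], [nat_lit 26624462208, nat_lit 27842247680, nat_lit 44310788512, nat_lit 44691486128], nat_lit 0, nat_lit 0, nat_lit 0, nat_lit 0, nat_lit 0, nat_lit 0, [], [nat_lit 25, nat_lit 40, nat_lit 20, nat_lit 80, nat_lit 17, nat_lit 401, nat_lit 175, nat_lit 11]⟩, ⟨p001_k56, nat_lit 0, nat_lit 0, nat_lit 276, nat_lit 0, nat_lit 0, [nat_lit 7968000000, nat_lit 9842000000, nat_lit 11872000000], [], [nat_lit 26710910292, nat_lit 27261547864, nat_lit 39383412004, nat_lit 39424528500], nat_lit 0, nat_lit 0, nat_lit 0, nat_lit 0, nat_lit 0, nat_lit 0, [], [nat_lit 106, nat_lit 40, nat_lit 20, nat_lit 80, nat_lit 41, nat_lit 373, nat_lit 150, nat_lit 10]⟩,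
 zbF0, [⟨nat_lit 13, nat_lit 100, nat_lit 10, nat_lit 100, nat_lit 364003263⟩]⟩
noncomputable def p001_l145 : Lf2 := ⟨nat_lit 0, nat_lit 4, [nat_lit 38, nat_lit 5, nat_lit 5, nat_lit 20], true, nat_lit 0, nat_lit 0, nat_lit 0, nat_lit 0, ⟨nat_lit 0, nat_lit 0, nat_lit 1000, nat_lit 4, nat_lit 125, nat_lit 0, nat_lit 0, nat_lit 0, nat_lit 0, nat_lit 215, nat_lit 0, nat_lit 215, nat_lit 61027173, nat_lit 0, nat_lit 0, nat_lit 1502792, false, false⟩,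
 nat_lit 0, nat_lit 0, nat_lit 0, nat_lit 8957, nat_lit 4646, nat_lit 0, nat_lit 660, nat_lit 0, nat_lit 0, nat_lit 0, nat_lit 0, nat_lit 0, nat_lit 0, nat_lit 0, nat_lit 90, nat_lit 1000000, nat_lit 0, nat_lit 0, [(nat_lit 0, [(nat_lit 6, nat_lit 1000)])],
 ⟨p001_k55, nat_lit 0, nat_lit 0, nat_lit 293, nat_lit 0, nat_lit 0, [nat_lit 2618000001, nat_lit 1352800000, nat_lit 26400000], [], [nat_lit 12968182189, nat_lit 14029617889, nat_lit 14993221017, nat_lit 15767773498], nat_lit 0, nat_lit 0, nat_lit 0, nat_lit 0, nat_lit 0, nat_lit 0, [], [nat_lit 25, nat_lit 40, nat_lit 20, nat_lit 80, nat_lit 17, nat_lit 345, nat_lit 125, nat_lit 11]⟩, C1.Rw.none,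
 ⟨nat_lit 6708, nat_lit 7072, ⟨.ofNat (nat_lit 27265), .ofNat (nat_lit 568660), .ofNat (nat_lit 48814), .ofNat (nat_lit 590203), .ofNat (nat_lit 47782), .ofNat (nat_lit 564689), .ofNat (nat_lit 69221), .ofNat (nat_lit 586121)⟩, ⟨.ofNat (nat_lit 0), .ofNat (nat_lit 0), .ofNat (nat_lit 0), .ofNat (nat_lit 0), .ofNat (nat_lit 0), .ofNat (nat_lit 0), .ofNat (nat_lit 0), .ofNat (nat_lit 0)⟩⟩, [⟨nat_lit 0, nat_lit 100, nat_lit 99, nat_lit 10, nat_lit 27588585⟩]⟩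
noncomputable def p001_l146 : Lf2 := ⟨nat_lit 0, nat_lit 4, [nat_lit 38, nat_lit 5, nat_lit 5, nat_lit 20], false, nat_lit 0, nat_lit 0, nat_lit 0, nat_lit 0, ⟨nat_lit 1000, nat_lit 0, nat_lit 0, nat_lit 0, nat_lit 0, nat_lit 0, nat_lit 0, nat_lit 0, nat_lit 0, nat_lit 0, nat_lit 0, nat_lit 0, nat_lit 0, nat_lit 0, nat_lit 0, nat_lit 0, false, false⟩,
 nat_lit 0, nat_lit 0, nat_lit 23776, nat_lit 0, nat_lit 8057, nat_lit 9041, nat_lit 2617, nat_lit 0, nat_lit 0, nat_lit 3185, nat_lit 0, nat_lit 0, nat_lit 0, nat_lit 0, nat_lit 0, nat_lit 0, nat_lit 0, nat_lit 0, [],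
 ⟨p001_k55, nat_lit 0, nat_lit 0, nat_lit 228, nat_lit 0, nat_lit 0, [nat_lit 6250000000, nat_lit 7968000001, nat_lit 9842000000], [], [nat_lit 24723326523, nat_lit 25526507831, nat_lit 38092572877, nat_lit 38592775133], nat_lit 0, nat_lit 0, nat_lit 0, nat_lit 0, nat_lit 0, nat_lit 0, [], [nat_lit 25, nat_lit 40, nat_lit 20, nat_lit 80, nat_lit 17, nat_lit 401, nat_lit 175, nat_lit 11]⟩, ⟨p001_k56, nat_lit 0, nat_lit 0, nat_lit 449, nat_lit 0, nat_lit 387917, [nat_lit 7968000000, nat_lit 9842000000, nat_lit 11872000000], [], [nat_lit 32885897702, nat_lit 33011003324, nat_lit 40168894250, nat_lit 40049902844], nat_lit 1271250, nat_lit 1271250, nat_lit 1271250, nat_lit 1271250, nat_lit 0, nat_lit 0, [nat_lit 1695000, nat_lit 1271250, nat_lit 1271250], [nat_lit 106, nat_lit 40, nat_lit 20, nat_lit 80, nat_lit 41, nat_lit 373, nat_lit 150, nat_lit 10]⟩,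
 zbF0, [⟨nat_lit 13, nat_lit 100, nat_lit 10, nat_lit 100, nat_lit 85695463⟩]⟩
noncomputable def p001_l147 : Lf2 := ⟨nat_lit 0, nat_lit 4, [nat_lit 38, nat_lit 5, nat_lit 5, nat_lit 20], true, nat_lit 0, nat_lit 0, nat_lit 0, nat_lit 0, ⟨nat_lit 0, nat_lit 1000, nat_lit 0, nat_lit 4, nat_lit 196, nat_lit 0, nat_lit 0, nat_lit 0, nat_lit 0, nat_lit 0, nat_lit 0, nat_lit 0, nat_lit 0, nat_lit 0, nat_lit 0, nat_lit 5000000, false, true⟩,
 nat_lit 0, nat_lit 0, nat_lit 0, nat_lit 5578, nat_lit 5999, nat_lit 0, nat_lit 0, nat_lit 0, nat_lit 0, nat_lit 0, nat_lit 0, nat_lit 0, nat_lit 0, nat_lit 0, nat_lit 0, nat_lit 1000000, nat_lit 0, nat_lit 0, [(nat_lit 0, [(nat_lit 2, nat_lit 1000)])],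
 ⟨p001_k57, nat_lit 0, nat_lit 0, nat_lit 291, nat_lit 0, nat_lit 0, [nat_lit 3596666667, nat_lit 2997733333], [], [nat_lit 27002679325, nat_lit 27642163161, nat_lit 32749535182, nat_lit 33178282948], nat_lit 0, nat_lit 0, nat_lit 0, nat_lit 0, nat_lit 0, nat_lit 0, [], [nat_lit 51, nat_lit 40, nat_lit 20, nat_lit 80, nat_lit 1, nat_lit 401, nat_lit 175, nat_lit 12]⟩, C1.Rw.none,
 ⟨nat_lit 6708, nat_lit 7072, ⟨.ofNat (nat_lit 27265), .ofNat (nat_lit 929471), .ofNat (nat_lit 48814), .ofNat (nat_lit 951013), .ofNat (nat_lit 47782), .ofNat (nat_lit 909174), .ofNat (nat_lit 69221), .ofNat (nat_lit 930606)⟩, ⟨.ofNat (nat_lit 0), .ofNat (nat_lit 0), .ofNat (nat_lit 0), .ofNat (nat_lit 0), .ofNat (nat_lit 0), .ofNat (nat_lit 0), .ofNat (nat_lit 0), .ofNat (nat_lit 0)⟩⟩, []⟩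
noncomputable def b_NL_500_450_0_0 : St := ⟨false, nat_lit 0, nat_lit 2, nat_lit 0, nat_lit 20, nat_lit 200, nat_lit 220, nat_lit 180, nat_lit 200, nat_lit 0, nat_lit 400, nat_lit 0, nat_lit 0, nat_lit 0, nat_lit 0, nat_lit 0, nat_lit 0, nat_lit 0, nat_lit 16, nat_lit 0, nat_lit 0, nat_lit 0, nat_lit 0⟩
theorem d_NL_500_450_0_0 (h : EB TB.env) : Dead b_NL_500_450_0_0 := chkB_sound0 h (T :=
(.gv
(.st (nat_lit 1)
(.spl (nat_lit 2) (nat_lit 240)
(.leaf p001_l143)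
(.leaf p001_l144))
(.spl (nat_lit 2) (nat_lit 240)
(.leaf p001_l145)
(.leaf p001_l146)))
(.leaf p001_l147))) (by decide +kernel)
noncomputable def p001_l148 : Lf2 := ⟨nat_lit 0, nat_lit 4, [nat_lit 38, nat_lit 5, nat_lit 5, nat_lit 20], true, nat_lit 0, nat_lit 0, nat_lit 0, nat_lit 0, ⟨nat_lit 0, nat_lit 0, nat_lit 1000, nat_lit 4, nat_lit 53, nat_lit 0, nat_lit 0, nat_lit 0, nat_lit 0, nat_lit 215, nat_lit 26667, nat_lit 255, nat_lit 65845320, nat_lit 0, nat_lit 0, nat_lit 435276, false, false⟩,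
 nat_lit 0, nat_lit 12295, nat_lit 0, nat_lit 0, nat_lit 5269, nat_lit 0, nat_lit 808, nat_lit 0, nat_lit 0, nat_lit 0, nat_lit 0, nat_lit 0, nat_lit 0, nat_lit 0, nat_lit 90, nat_lit 1000000, nat_lit 0, nat_lit 0, [(nat_lit 0, [(nat_lit 6, nat_lit 1000)])],
 ⟨p001_k55, nat_lit 0, nat_lit 0, nat_lit 338, nat_lit 0, nat_lit 103798, [nat_lit 2618000001, nat_lit 1352800000, nat_lit 26400000], [], [nat_lit 13344096325, nat_lit 13744604330, nat_lit 12911702606, nat_lit 11497139445], nat_lit 1271250, nat_lit 1271250, nat_lit 0, nat_lit 490000, nat_lit 0, nat_lit 0, [nat_lit 1412500, nat_lit 1271250, nat_lit 1271250], [nat_lit 25, nat_lit 40, nat_lit 20, nat_lit 80, nat_lit 17, nat_lit 289, nat_lit 75, nat_lit 9]⟩, C1.Rw.none,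
 ⟨nat_lit 6892, nat_lit 7072, ⟨.ofNat (nat_lit 27266), .ofNat (nat_lit 207740), .ofNat (nat_lit 48814), .ofNat (nat_lit 229288), .ofNat (nat_lit 37657), .ofNat (nat_lit 213998), .ofNat (nat_lit 59146), .ofNat (nat_lit 235487)⟩, ⟨.ofNat (nat_lit 0), .ofNat (nat_lit 0), .ofNat (nat_lit 0), .ofNat (nat_lit 0), .ofNat (nat_lit 0), .ofNat (nat_lit 0), .ofNat (nat_lit 0), .ofNat (nat_lit 0)⟩⟩, [⟨nat_lit 0, nat_lit 100, nat_lit 100, nat_lit 5, nat_lit 147506185⟩]⟩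
noncomputable def p001_l149 : Lf2 := ⟨nat_lit 0, nat_lit 2, [nat_lit 10, nat_lit 5, nat_lit 5, nat_lit 20], true, nat_lit 0, nat_lit 0, nat_lit 0, nat_lit 0, ⟨nat_lit 0, nat_lit 0, nat_lit 1000, nat_lit 4, nat_lit 38, nat_lit 0, nat_lit 0, nat_lit 0, nat_lit 0, nat_lit 215, nat_lit 13067, nat_lit 243, nat_lit 66403554, nat_lit 0, nat_lit 0, nat_lit 254200, false, false⟩,
 nat_lit 0, nat_lit 11588, nat_lit 0, nat_lit 0, nat_lit 5252, nat_lit 0, nat_lit 1557, nat_lit 0, nat_lit 0, nat_lit 0, nat_lit 0, nat_lit 0, nat_lit 0, nat_lit 0, nat_lit 90, nat_lit 1000000, nat_lit 0, nat_lit 0, [(nat_lit 0, [(nat_lit 6, nat_lit 1000)])],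
 ⟨p001_k58, nat_lit 0, nat_lit 0, nat_lit 343, nat_lit 0, nat_lit 114935, [nat_lit 2618000001, nat_lit 1352800000, nat_lit 26400000], [], [nat_lit 13037940834, nat_lit 13259885276, nat_lit 11348898470, nat_lit 11567403144], nat_lit 1271250, nat_lit 1271250, nat_lit 0, nat_lit 230001, nat_lit 0, nat_lit 0, [nat_lit 1412500, nat_lit 1271250, nat_lit 1271250], [nat_lit 25, nat_lit 40, nat_lit 20, nat_lit 80, nat_lit 17, nat_lit 289, nat_lit 75, nat_lit 9]⟩, C1.Rw.none,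
 ⟨nat_lit 6800, nat_lit 6893, ⟨.ofNat (nat_lit 37657), .ofNat (nat_lit 125828), .ofNat (nat_lit 59146), .ofNat (nat_lit 147316), .ofNat (nat_lit 42752), .ofNat (nat_lit 129909), .ofNat (nat_lit 64214), .ofNat (nat_lit 151371)⟩, ⟨.ofNat (nat_lit 0), .ofNat (nat_lit 0), .ofNat (nat_lit 0), .ofNat (nat_lit 0), .ofNat (nat_lit 0), .ofNat (nat_lit 0), .ofNat (nat_lit 0), .ofNat (nat_lit 0)⟩⟩, [⟨nat_lit 0, nat_lit 100, nat_lit 100, nat_lit 7, nat_lit 312293801⟩]⟩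
noncomputable def p001_l150 : Lf2 := ⟨nat_lit 0, nat_lit 1, [nat_lit 19, nat_lit 5, nat_lit 5, nat_lit 20], true, nat_lit 0, nat_lit 0, nat_lit 0, nat_lit 0, ⟨nat_lit 0, nat_lit 0, nat_lit 1000, nat_lit 4, nat_lit 39, nat_lit 0, nat_lit 0, nat_lit 0, nat_lit 0, nat_lit 215, nat_lit 15000, nat_lit 245, nat_lit 66357226, nat_lit 0, nat_lit 0, nat_lit 270400, false, false⟩,
 nat_lit 0, nat_lit 10609, nat_lit 0, nat_lit 0, nat_lit 4940, nat_lit 0, nat_lit 1214, nat_lit 0, nat_lit 0, nat_lit 0, nat_lit 0, nat_lit 0, nat_lit 0, nat_lit 0, nat_lit 34, nat_lit 1000000, nat_lit 0, nat_lit 0, [(nat_lit 0, [(nat_lit 6, nat_lit 1000)])],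
 ⟨p001_k59, nat_lit 0, nat_lit 0, nat_lit 291, nat_lit 0, nat_lit 122131, [nat_lit 1498000001, nat_lit 8800000], [], [nat_lit 12876104361, nat_lit 13042872702, nat_lit 10949824472, nat_lit 11132489127], nat_lit 1271250, nat_lit 1271250, nat_lit 0, nat_lit 230001, nat_lit 0, nat_lit 0, [nat_lit 1412500, nat_lit 1271250], [nat_lit 26, nat_lit 40, nat_lit 20, nat_lit 80, nat_lit 2, nat_lit 289, nat_lit 75, nat_lit 10]⟩, C1.Rw.none,
 ⟨nat_lit 6745, nat_lit 6801, ⟨.ofNat (nat_lit 42752), .ofNat (nat_lit 129909), .ofNat (nat_lit 64214), .ofNat (nat_lit 151371), .ofNat (nat_lit 45778), .ofNat (nat_lit 132333), .ofNat (nat_lit 67226), .ofNat (nat_lit 153780)⟩, ⟨.ofNat (nat_lit 0), .ofNat (nat_lit 0), .ofNat (nat_lit 0), .ofNat (nat_lit 0), .ofNat (nat_lit 0), .ofNat (nat_lit 0), .ofNat (nat_lit 0), .ofNat (nat_lit 0)⟩⟩, [⟨nat_lit 0, nat_lit 100, nat_lit 100, nat_lit 9, nat_lit 339370822⟩]⟩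
noncomputable def p001_l151 : Lf2 := ⟨nat_lit 0, nat_lit 1, [nat_lit 19, nat_lit 5, nat_lit 5, nat_lit 20], true, nat_lit 0, nat_lit 0, nat_lit 0, nat_lit 0, ⟨nat_lit 0, nat_lit 0, nat_lit 1000, nat_lit 4, nat_lit 40, nat_lit 0, nat_lit 0, nat_lit 0, nat_lit 0, nat_lit 215, nat_lit 15000, nat_lit 245, nat_lit 66333612, nat_lit 0, nat_lit 0, nat_lit 278555, false, false⟩,
 nat_lit 0, nat_lit 10415, nat_lit 0, nat_lit 0, nat_lit 4928, nat_lit 0, nat_lit 1001, nat_lit 0, nat_lit 0, nat_lit 0, nat_lit 0, nat_lit 0, nat_lit 0, nat_lit 0, nat_lit 34, nat_lit 1000000, nat_lit 0, nat_lit 0, [(nat_lit 0, [(nat_lit 6, nat_lit 1000)])],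
 ⟨p001_k60, nat_lit 0, nat_lit 0, nat_lit 290, nat_lit 0, nat_lit 124334, [nat_lit 1498000001, nat_lit 8800000], [], [nat_lit 13057578375, nat_lit 13113065270, nat_lit 11147248471, nat_lit 11208068773], nat_lit 1271250, nat_lit 1271250, nat_lit 0, nat_lit 230001, nat_lit 0, nat_lit 0, [nat_lit 1412500, nat_lit 1271250], [nat_lit 26, nat_lit 40, nat_lit 20, nat_lit 80, nat_lit 2, nat_lit 289, nat_lit 75, nat_lit 10]⟩, C1.Rw.none,
 ⟨nat_lit 6726, nat_lit 6746, ⟨.ofNat (nat_lit 45778), .ofNat (nat_lit 132333), .ofNat (nat_lit 67226), .ofNat (nat_lit 153780), .ofNat (nat_lit 46782), .ofNat (nat_lit 133136), .ofNat (nat_lit 68224), .ofNat (nat_lit 154579)⟩, ⟨.ofNat (nat_lit 0), .ofNat (nat_lit 0), .ofNat (nat_lit 0), .ofNat (nat_lit 0), .ofNat (nat_lit 0), .ofNat (nat_lit 0), .ofNat (nat_lit 0), .ofNat (nat_lit 0)⟩⟩, [⟨nat_lit 0, nat_lit 100, nat_lit 100, nat_lit 9, nat_lit 338636119⟩]⟩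
noncomputable def p001_l152 : Lf2 := ⟨nat_lit 0, nat_lit 1, [nat_lit 19, nat_lit 5, nat_lit 5, nat_lit 20], true, nat_lit 0, nat_lit 0, nat_lit 0, nat_lit 0, ⟨nat_lit 0, nat_lit 0, nat_lit 1000, nat_lit 4, nat_lit 23, nat_lit 0, nat_lit 0, nat_lit 0, nat_lit 0, nat_lit 215, nat_lit 4817, nat_lit 232, nat_lit 66783363, nat_lit 0, nat_lit 0, nat_lit 106842, false, false⟩,
 nat_lit 0, nat_lit 10336, nat_lit 0, nat_lit 0, nat_lit 4917, nat_lit 0, nat_lit 940, nat_lit 0, nat_lit 0, nat_lit 0, nat_lit 0, nat_lit 0, nat_lit 0, nat_lit 0, nat_lit 34, nat_lit 1000000, nat_lit 0, nat_lit 0, [(nat_lit 0, [(nat_lit 6, nat_lit 1000)])],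
 ⟨p001_k61, nat_lit 0, nat_lit 0, nat_lit 288, nat_lit 0, nat_lit 98908, [nat_lit 1498000001, nat_lit 8800000], [], [nat_lit 13127162362, nat_lit 13182518777, nat_lit 12878088460, nat_lit 12933879658], nat_lit 1271250, nat_lit 1271250, nat_lit 0, nat_lit 21650, nat_lit 0, nat_lit 0, [nat_lit 1412500, nat_lit 1271250], [nat_lit 26, nat_lit 40, nat_lit 20, nat_lit 80, nat_lit 2, nat_lit 272, nat_lit 60, nat_lit 10]⟩, C1.Rw.none,
 ⟨nat_lit 6708, nat_lit 6727, ⟨.ofNat (nat_lit 46782), .ofNat (nat_lit 55417), .ofNat (nat_lit 57503), .ofNat (nat_lit 66138), .ofNat (nat_lit 47783), .ofNat (nat_lit 56398), .ofNat (nat_lit 58502), .ofNat (nat_lit 67117)⟩, ⟨.ofNat (nat_lit 0), .ofNat (nat_lit 0), .ofNat (nat_lit 0), .ofNat (nat_lit 0), .ofNat (nat_lit 0), .ofNat (nat_lit 0), .ofNat (nat_lit 0), .ofNat (nat_lit 0)⟩⟩, [⟨nat_lit 0, nat_lit 100, nat_lit 100, nat_lit 5, nat_lit 404626555⟩]⟩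
noncomputable def p001_l153 : Lf2 := ⟨nat_lit 0, nat_lit 1, [nat_lit 19, nat_lit 5, nat_lit 5, nat_lit 20], true, nat_lit 0, nat_lit 0, nat_lit 0, nat_lit 0, ⟨nat_lit 0, nat_lit 0, nat_lit 1000, nat_lit 4, nat_lit 26, nat_lit 0, nat_lit 0, nat_lit 0, nat_lit 0, nat_lit 215, nat_lit 6017, nat_lit 234, nat_lit 66718158, nat_lit 0, nat_lit 0, nat_lit 134880, false, false⟩,
 nat_lit 0, nat_lit 10336, nat_lit 0, nat_lit 0, nat_lit 4917, nat_lit 0, nat_lit 940, nat_lit 0, nat_lit 0, nat_lit 0, nat_lit 0, nat_lit 0, nat_lit 0, nat_lit 0, nat_lit 34, nat_lit 1000000, nat_lit 0, nat_lit 0, [(nat_lit 0, [(nat_lit 6, nat_lit 1000)])],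
 ⟨p001_k61, nat_lit 0, nat_lit 0, nat_lit 289, nat_lit 0, nat_lit 112785, [nat_lit 1498000001, nat_lit 8800000], [], [nat_lit 13127162362, nat_lit 13182518777, nat_lit 12878088460, nat_lit 12933879658], nat_lit 1271250, nat_lit 1271250, nat_lit 0, nat_lit 21650, nat_lit 0, nat_lit 0, [nat_lit 1412500, nat_lit 1271250], [nat_lit 26, nat_lit 40, nat_lit 20, nat_lit 80, nat_lit 2, nat_lit 272, nat_lit 60, nat_lit 10]⟩, C1.Rw.none,
 ⟨nat_lit 6708, nat_lit 6727, ⟨.ofNat (nat_lit 57503), .ofNat (nat_lit 66138), .ofNat (nat_lit 62864), .ofNat (nat_lit 71499), .ofNat (nat_lit 58502), .ofNat (nat_lit 67117), .ofNat (nat_lit 63861), .ofNat (nat_lit 72477)⟩, ⟨.ofNat (nat_lit 0), .ofNat (nat_lit 0), .ofNat (nat_lit 0), .ofNat (nat_lit 0), .ofNat (nat_lit 0), .ofNat (nat_lit 0), .ofNat (nat_lit 0), .ofNat (nat_lit 0)⟩⟩, [⟨nat_lit 0, nat_lit 100, nat_lit 100, nat_lit 8, nat_lit 406771716⟩]⟩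
noncomputable def p001_l154 : Lf2 := ⟨nat_lit 0, nat_lit 1, [nat_lit 19, nat_lit 5, nat_lit 5, nat_lit 20], true, nat_lit 0, nat_lit 0, nat_lit 0, nat_lit 0, ⟨nat_lit 0, nat_lit 0, nat_lit 1000, nat_lit 4, nat_lit 28, nat_lit 0, nat_lit 0, nat_lit 0, nat_lit 0, nat_lit 215, nat_lit 7350, nat_lit 236, nat_lit 66669992, nat_lit 0, nat_lit 0, nat_lit 154562, false, false⟩,
 nat_lit 0, nat_lit 10688, nat_lit 0, nat_lit 0, nat_lit 5084, nat_lit 0, nat_lit 1511, nat_lit 0, nat_lit 0, nat_lit 0, nat_lit 0, nat_lit 0, nat_lit 0, nat_lit 0, nat_lit 34, nat_lit 1000000, nat_lit 0, nat_lit 0, [(nat_lit 0, [(nat_lit 6, nat_lit 1000)])],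
 ⟨p001_k62, nat_lit 0, nat_lit 0, nat_lit 0, nat_lit 0, nat_lit 127817, [nat_lit 1498000001, nat_lit 592400000, nat_lit 8800000], [], [nat_lit 13405306825, nat_lit 13451588039, nat_lit 13196192031, nat_lit 13242436532], nat_lit 1271250, nat_lit 1271250, nat_lit 0, nat_lit 21650, nat_lit 0, nat_lit 0, [nat_lit 1412500, nat_lit 1271250, nat_lit 1271250], [nat_lit 153, nat_lit 40, nat_lit 20, nat_lit 40]⟩, C1.Rw.none,
 ⟨nat_lit 6708, nat_lit 6727, ⟨.ofNat (nat_lit 62864), .ofNat (nat_lit 71499), .ofNat (nat_lit 68224), .ofNat (nat_lit 76860), .ofNat (nat_lit 63861), .ofNat (nat_lit 72477), .ofNat (nat_lit 69221), .ofNat (nat_lit 77837)⟩, ⟨.ofNat (nat_lit 0), .ofNat (nat_lit 0), .ofNat (nat_lit 0), .ofNat (nat_lit 0), .ofNat (nat_lit 0), .ofNat (nat_lit 0), .ofNat (nat_lit 0), .ofNat (nat_lit 0)⟩⟩, [⟨nat_lit 0, nat_lit 100, nat_lit 99, nat_lit 10, nat_lit 362911747⟩]⟩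
noncomputable def p001_l155 : Lf2 := ⟨nat_lit 0, nat_lit 1, [nat_lit 19, nat_lit 5, nat_lit 5, nat_lit 20], true, nat_lit 0, nat_lit 0, nat_lit 0, nat_lit 0, ⟨nat_lit 0, nat_lit 0, nat_lit 1000, nat_lit 4, nat_lit 28, nat_lit 0, nat_lit 0, nat_lit 0, nat_lit 0, nat_lit 215, nat_lit 7350, nat_lit 236, nat_lit 66669992, nat_lit 0, nat_lit 0, nat_lit 154562, false, false⟩,
 nat_lit 0, nat_lit 100000, nat_lit 0, nat_lit 0, nat_lit 47574, nat_lit 0, nat_lit 0, nat_lit 5917, nat_lit 0, nat_lit 0, nat_lit 0, nat_lit 0, nat_lit 0, nat_lit 0, nat_lit 0, nat_lit 1000000, nat_lit 0, nat_lit 0, [(nat_lit 0, [(nat_lit 6, nat_lit 1000)])],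
 ⟨p001_k61, nat_lit 0, nat_lit 0, nat_lit 290, nat_lit 0, nat_lit 127817, [nat_lit 119158000001, nat_lit 141200800000], [], [nat_lit 332838022882, nat_lit 333011743226, nat_lit 331849631097, nat_lit 330632328046], nat_lit 1271250, nat_lit 1271250, nat_lit 0, nat_lit 21650, nat_lit 0, nat_lit 0, [nat_lit 1412500, nat_lit 1271250], [nat_lit 26, nat_lit 40, nat_lit 20, nat_lit 80, nat_lit 2, nat_lit 272, nat_lit 60, nat_lit 10]⟩, C1.Rw.none,
 ⟨nat_lit 6708, nat_lit 6727, ⟨.ofNat (nat_lit 62864), .ofNat (nat_lit 71499), .ofNat (nat_lit 68224), .ofNat (nat_lit 76860), .ofNat (nat_lit 63861), .ofNat (nat_lit 72477), .ofNat (nat_lit 69221), .ofNat (nat_lit 77837)⟩, ⟨.ofNat (nat_lit 0), .ofNat (nat_lit 0), .ofNat (nat_lit 0), .ofNat (nat_lit 0), .ofNat (nat_lit 0), .ofNat (nat_lit 0), .ofNat (nat_lit 0), .ofNat (nat_lit 0)⟩⟩, [⟨nat_lit 13, nat_lit 100, nat_lit 10, nat_lit 100, nat_lit 70307128⟩]⟩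
noncomputable def p001_l156 : Lf2 := ⟨nat_lit 0, nat_lit 1, [nat_lit 19, nat_lit 5, nat_lit 5, nat_lit 20], true, nat_lit 0, nat_lit 0, nat_lit 0, nat_lit 0, ⟨nat_lit 0, nat_lit 0, nat_lit 1000, nat_lit 4, nat_lit 28, nat_lit 0, nat_lit 0, nat_lit 0, nat_lit 0, nat_lit 215, nat_lit 7350, nat_lit 236, nat_lit 66664506, nat_lit 0, nat_lit 0, nat_lit 156730, false, false⟩,
 nat_lit 0, nat_lit 10525, nat_lit 0, nat_lit 0, nat_lit 5007, nat_lit 0, nat_lit 964, nat_lit 0, nat_lit 0, nat_lit 0, nat_lit 0, nat_lit 0, nat_lit 0, nat_lit 0, nat_lit 34, nat_lit 1000000, nat_lit 0, nat_lit 0, [(nat_lit 0, [(nat_lit 6, nat_lit 1000)])],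
 ⟨p001_k61, nat_lit 0, nat_lit 0, nat_lit 288, nat_lit 0, nat_lit 127817, [nat_lit 1498000001, nat_lit 8800000], [], [nat_lit 12808829175, nat_lit 12864604703, nat_lit 12554313680, nat_lit 12610381084], nat_lit 1271250, nat_lit 1271250, nat_lit 21650, nat_lit 43600, nat_lit 0, nat_lit 0, [nat_lit 1412500, nat_lit 1271250], [nat_lit 26, nat_lit 40, nat_lit 20, nat_lit 80, nat_lit 2, nat_lit 272, nat_lit 60, nat_lit 10]⟩, C1.Rw.none,
 ⟨nat_lit 6708, nat_lit 6727, ⟨.ofNat (nat_lit 55417), .ofNat (nat_lit 64052), .ofNat (nat_lit 76860), .ofNat (nat_lit 85495), .ofNat (nat_lit 56398), .ofNat (nat_lit 65014), .ofNat (nat_lit 77837), .ofNat (nat_lit 86452)⟩, ⟨.ofNat (nat_lit 0), .ofNat (nat_lit 0), .ofNat (nat_lit 0), .ofNat (nat_lit 0), .ofNat (nat_lit 0), .ofNat (nat_lit 0), .ofNat (nat_lit 0), .ofNat (nat_lit 0)⟩⟩, []⟩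
noncomputable def p001_l157 : Lf2 := ⟨nat_lit 0, nat_lit 1, [nat_lit 19, nat_lit 5, nat_lit 5, nat_lit 20], true, nat_lit 0, nat_lit 0, nat_lit 0, nat_lit 0, ⟨nat_lit 0, nat_lit 0, nat_lit 1000, nat_lit 4, nat_lit 35, nat_lit 0, nat_lit 0, nat_lit 0, nat_lit 0, nat_lit 215, nat_lit 11267, nat_lit 241, nat_lit 66482912, nat_lit 0, nat_lit 0, nat_lit 225793, false, false⟩,
 nat_lit 0, nat_lit 10721, nat_lit 0, nat_lit 0, nat_lit 5100, nat_lit 0, nat_lit 989, nat_lit 0, nat_lit 0, nat_lit 0, nat_lit 0, nat_lit 0, nat_lit 0, nat_lit 0, nat_lit 34, nat_lit 1000000, nat_lit 0, nat_lit 0, [(nat_lit 0, [(nat_lit 6, nat_lit 1000)])],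
 ⟨p001_k61, nat_lit 0, nat_lit 0, nat_lit 286, nat_lit 0, nat_lit 127817, [nat_lit 1498000001, nat_lit 8800000], [], [nat_lit 12476971523, nat_lit 12533181471, nat_lit 11696556102, nat_lit 11754024602], nat_lit 1271250, nat_lit 1271250, nat_lit 43600, nat_lit 111251, nat_lit 0, nat_lit 0, [nat_lit 1412500, nat_lit 1271250], [nat_lit 26, nat_lit 40, nat_lit 20, nat_lit 80, nat_lit 2, nat_lit 272, nat_lit 60, nat_lit 10]⟩, C1.Rw.none,
 ⟨nat_lit 6708, nat_lit 6727, ⟨.ofNat (nat_lit 64052), .ofNat (nat_lit 89959), .ofNat (nat_lit 85495), .ofNat (nat_lit 111402), .ofNat (nat_lit 65014), .ofNat (nat_lit 90860), .ofNat (nat_lit 86452), .ofNat (nat_lit 112299)⟩, ⟨.ofNat (nat_lit 0), .ofNat (nat_lit 0), .ofNat (nat_lit 0), .ofNat (nat_lit 0), .ofNat (nat_lit 0), .ofNat (nat_lit 0), .ofNat (nat_lit 0), .ofNat (nat_lit 0)⟩⟩, []⟩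
noncomputable def p001_l158 : Lf2 := ⟨nat_lit 0, nat_lit 1, [nat_lit 19, nat_lit 5, nat_lit 5, nat_lit 20], true, nat_lit 0, nat_lit 0, nat_lit 0, nat_lit 0, ⟨nat_lit 0, nat_lit 0, nat_lit 1000, nat_lit 4, nat_lit 49, nat_lit 0, nat_lit 0, nat_lit 0, nat_lit 0, nat_lit 215, nat_lit 22817, nat_lit 252, nat_lit 66006356, nat_lit 0, nat_lit 0, nat_lit 385765, false, false⟩,
 nat_lit 0, nat_lit 11350, nat_lit 0, nat_lit 0, nat_lit 5399, nat_lit 0, nat_lit 1071, nat_lit 0, nat_lit 0, nat_lit 0, nat_lit 0, nat_lit 0, nat_lit 0, nat_lit 0, nat_lit 34, nat_lit 1000000, nat_lit 0, nat_lit 0, [(nat_lit 0, [(nat_lit 6, nat_lit 1000)])],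
 ⟨p001_k61, nat_lit 0, nat_lit 0, nat_lit 280, nat_lit 0, nat_lit 127817, [nat_lit 1498000001, nat_lit 8800000], [], [nat_lit 11392434481, nat_lit 11450553356, nat_lit 10631430208, nat_lit 10694916228], nat_lit 1271250, nat_lit 1271250, nat_lit 111251, nat_lit 230001, nat_lit 0, nat_lit 0, [nat_lit 1412500, nat_lit 1271250], [nat_lit 26, nat_lit 40, nat_lit 20, nat_lit 80, nat_lit 2, nat_lit 289, nat_lit 75, nat_lit 10]⟩, C1.Rw.none,
 ⟨nat_lit 6708, nat_lit 6727, ⟨.ofNat (nat_lit 89959), .ofNat (nat_lit 133136), .ofNat (nat_lit 111402), .ofNat (nat_lit 154579), .ofNat (nat_lit 90860), .ofNat (nat_lit 133938), .ofNat (nat_lit 112299), .ofNat (nat_lit 155377)⟩, ⟨.ofNat (nat_lit 0), .ofNat (nat_lit 0), .ofNat (nat_lit 0), .ofNat (nat_lit 0), .ofNat (nat_lit 0), .ofNat (nat_lit 0), .ofNat (nat_lit 0), .ofNat (nat_lit 0)⟩⟩, []⟩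
noncomputable def p001_l159 : Lf2 := ⟨nat_lit 0, nat_lit 2, [nat_lit 10, nat_lit 5, nat_lit 5, nat_lit 20], true, nat_lit 0, nat_lit 0, nat_lit 0, nat_lit 0, ⟨nat_lit 0, nat_lit 0, nat_lit 1000, nat_lit 4, nat_lit 40, nat_lit 0, nat_lit 0, nat_lit 0, nat_lit 0, nat_lit 215, nat_lit 15000, nat_lit 245, nat_lit 66345529, nat_lit 0, nat_lit 0, nat_lit 274445, false, false⟩,
 nat_lit 0, nat_lit 11169, nat_lit 0, nat_lit 0, nat_lit 5201, nat_lit 0, nat_lit 898, nat_lit 0, nat_lit 0, nat_lit 0, nat_lit 0, nat_lit 0, nat_lit 0, nat_lit 0, nat_lit 90, nat_lit 1000000, nat_lit 0, nat_lit 0, [(nat_lit 0, [(nat_lit 6, nat_lit 1000)])],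
 ⟨p001_k63, nat_lit 0, nat_lit 0, nat_lit 329, nat_lit 0, nat_lit 80507, [nat_lit 2618000001, nat_lit 1352800000, nat_lit 26400000], [], [nat_lit 13416680398, nat_lit 13637822678, nat_lit 11746230836, nat_lit 11963969260], nat_lit 1271250, nat_lit 1271250, nat_lit 0, nat_lit 230001, nat_lit 0, nat_lit 0, [nat_lit 1412500, nat_lit 1271250, nat_lit 1271250], [nat_lit 25, nat_lit 40, nat_lit 20, nat_lit 80, nat_lit 17, nat_lit 289, nat_lit 75, nat_lit 9]⟩, C1.Rw.none,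
 ⟨nat_lit 6708, nat_lit 6801, ⟨.ofNat (nat_lit 42752), .ofNat (nat_lit 129909), .ofNat (nat_lit 64214), .ofNat (nat_lit 151371), .ofNat (nat_lit 47783), .ofNat (nat_lit 133938), .ofNat (nat_lit 69221), .ofNat (nat_lit 155377)⟩, ⟨.ofNat (nat_lit 0), .ofNat (nat_lit 0), .ofNat (nat_lit 0), .ofNat (nat_lit 0), .ofNat (nat_lit 0), .ofNat (nat_lit 0), .ofNat (nat_lit 0), .ofNat (nat_lit 0)⟩⟩, [⟨nat_lit 0, nat_lit 100, nat_lit 99, nat_lit 10, nat_lit 312331529⟩]⟩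
noncomputable def p001_l160 : Lf2 := ⟨nat_lit 3, nat_lit 2, [nat_lit 10, nat_lit 5, nat_lit 5, nat_lit 20], false, nat_lit 0, nat_lit 0, nat_lit 0, nat_lit 0, zbN0,
 nat_lit 0, nat_lit 0, nat_lit 0, nat_lit 0, nat_lit 0, nat_lit 0, nat_lit 0, nat_lit 0, nat_lit 0, nat_lit 0, nat_lit 0, nat_lit 0, nat_lit 0, nat_lit 0, nat_lit 0, nat_lit 0, nat_lit 0, nat_lit 0, [],
 C1.Rw.none, ⟨p001_k22, nat_lit 0, nat_lit 0, nat_lit 289, nat_lit 0, nat_lit 0, [], [], [], nat_lit 0, nat_lit 0, nat_lit 0, nat_lit 0, nat_lit 0, nat_lit 0, [], [nat_lit 77, nat_lit 40, nat_lit 20, nat_lit 80, nat_lit 17, nat_lit 272, nat_lit 60, nat_lit 9]⟩,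
 zbF0, []⟩
noncomputable def p001_l161 : Lf2 := ⟨nat_lit 0, nat_lit 2, [nat_lit 10, nat_lit 5, nat_lit 5, nat_lit 20], true, nat_lit 0, nat_lit 0, nat_lit 0, nat_lit 0, ⟨nat_lit 0, nat_lit 0, nat_lit 1000, nat_lit 4, nat_lit 74, nat_lit 0, nat_lit 0, nat_lit 0, nat_lit 0, nat_lit 215, nat_lit 50417, nat_lit 270, nat_lit 64801401, nat_lit 0, nat_lit 0, nat_lit 721954, false, false⟩,
 nat_lit 0, nat_lit 11599, nat_lit 0, nat_lit 0, nat_lit 5257, nat_lit 0, nat_lit 1565, nat_lit 0, nat_lit 0, nat_lit 0, nat_lit 0, nat_lit 0, nat_lit 0, nat_lit 0, nat_lit 90, nat_lit 1000000, nat_lit 0, nat_lit 0, [(nat_lit 0, [(nat_lit 6, nat_lit 1000)])],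
 ⟨p001_k64, nat_lit 0, nat_lit 0, nat_lit 295, nat_lit 0, nat_lit 137144, [nat_lit 2618000001, nat_lit 87599999], [], [nat_lit 11310958196, nat_lit 11697996167, nat_lit 11512088481, nat_lit 11096486803], nat_lit 1271250, nat_lit 1271250, nat_lit 230001, nat_lit 490000, nat_lit 0, nat_lit 0, [nat_lit 1412500, nat_lit 1271250], [nat_lit 51, nat_lit 40, nat_lit 20, nat_lit 80, nat_lit 1, nat_lit 289, nat_lit 75, nat_lit 9]⟩, C1.Rw.none,
 ⟨nat_lit 6708, nat_lit 6893, ⟨.ofNat (nat_lit 125828), .ofNat (nat_lit 213998), .ofNat (nat_lit 147316), .ofNat (nat_lit 235487), .ofNat (nat_lit 133938), .ofNat (nat_lit 220094), .ofNat (nat_lit 155377), .ofNat (nat_lit 241532)⟩, ⟨.ofNat (nat_lit 0), .ofNat (nat_lit 0), .ofNat (nat_lit 0), .ofNat (nat_lit 0), .ofNat (nat_lit 0), .ofNat (nat_lit 0), .ofNat (nat_lit 0), .ofNat (nat_lit 0)⟩⟩, []⟩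
noncomputable def p001_l162 : Lf2 := ⟨nat_lit 0, nat_lit 4, [nat_lit 38, nat_lit 5, nat_lit 5, nat_lit 20], true, nat_lit 0, nat_lit 0, nat_lit 0, nat_lit 0, ⟨nat_lit 0, nat_lit 0, nat_lit 1000, nat_lit 4, nat_lit 56, nat_lit 0, nat_lit 0, nat_lit 0, nat_lit 0, nat_lit 215, nat_lit 29400, nat_lit 257, nat_lit 65700928, nat_lit 0, nat_lit 0, nat_lit 478204, false, false⟩,
 nat_lit 0, nat_lit 10504, nat_lit 0, nat_lit 0, nat_lit 4760, nat_lit 0, nat_lit 735, nat_lit 0, nat_lit 0, nat_lit 0, nat_lit 0, nat_lit 0, nat_lit 0, nat_lit 0, nat_lit 90, nat_lit 1000000, nat_lit 0, nat_lit 0, [(nat_lit 0, [(nat_lit 6, nat_lit 1000)])],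
 ⟨p001_k65, nat_lit 0, nat_lit 0, nat_lit 304, nat_lit 0, nat_lit 37969, [nat_lit 2618000001, nat_lit 87599999], [], [nat_lit 14328714201, nat_lit 14709605681, nat_lit 12345662201, nat_lit 12708173361], nat_lit 1271250, nat_lit 1271250, nat_lit 0, nat_lit 490000, nat_lit 0, nat_lit 0, [nat_lit 1412500, nat_lit 1271250], [nat_lit 51, nat_lit 40, nat_lit 20, nat_lit 80, nat_lit 1, nat_lit 289, nat_lit 75, nat_lit 9]⟩, C1.Rw.none,
 ⟨nat_lit 6708, nat_lit 6893, ⟨.ofNat (nat_lit 37657), .ofNat (nat_lit 213998), .ofNat (nat_lit 59146), .ofNat (nat_lit 235487), .ofNat (nat_lit 47783), .ofNat (nat_lit 220094), .ofNat (nat_lit 69221), .ofNat (nat_lit 241532)⟩, ⟨.ofNat (nat_lit 0), .ofNat (nat_lit 0), .ofNat (nat_lit 0), .ofNat (nat_lit 0), .ofNat (nat_lit 0), .ofNat (nat_lit 0), .ofNat (nat_lit 0), .ofNat (nat_lit 0)⟩⟩, [⟨nat_lit 0, nat_lit 100, nat_lit 99, nat_lit 10, nat_lit 231798022⟩]⟩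
noncomputable def p001_l163 : Lf2 := ⟨nat_lit 0, nat_lit 4, [nat_lit 38, nat_lit 5, nat_lit 5, nat_lit 20], false, nat_lit 0, nat_lit 0, nat_lit 0, nat_lit 0, ⟨nat_lit 1000, nat_lit 0, nat_lit 0, nat_lit 0, nat_lit 0, nat_lit 0, nat_lit 0, nat_lit 0, nat_lit 0, nat_lit 0, nat_lit 0, nat_lit 0, nat_lit 0, nat_lit 0, nat_lit 0, nat_lit 0, false, false⟩,
 nat_lit 0, nat_lit 38530, nat_lit 0, nat_lit 4062, nat_lit 16512, nat_lit 36200, nat_lit 0, nat_lit 0, nat_lit 0, nat_lit 11073, nat_lit 0, nat_lit 0, nat_lit 0, nat_lit 0, nat_lit 0, nat_lit 0, nat_lit 0, nat_lit 0, [],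
 ⟨p001_k55, nat_lit 0, nat_lit 0, nat_lit 347, nat_lit 0, nat_lit 310441, [nat_lit 6250000000, nat_lit 7968000001, nat_lit 9842000000], [], [nat_lit 31950868768, nat_lit 23723170336, nat_lit 35809391904, nat_lit 27698334240], nat_lit 1271250, nat_lit 1271250, nat_lit 490000, nat_lit 780000, nat_lit 0, nat_lit 0, [nat_lit 1412500, nat_lit 1271250, nat_lit 1271250], [nat_lit 25, nat_lit 40, nat_lit 20, nat_lit 80, nat_lit 17, nat_lit 317, nat_lit 100, nat_lit 10]⟩, ⟨p001_k56, nat_lit 0, nat_lit 0, nat_lit 216, nat_lit 0, nat_lit 0, [nat_lit 7968000000, nat_lit 9842000000, nat_lit 11872000000], [], [nat_lit 7654459450, nat_lit 9235595150, nat_lit 1661102750, nat_lit 4053085550], nat_lit 0, nat_lit 0, nat_lit 0, nat_lit 0, nat_lit 0, nat_lit 0, [], [nat_lit 106, nat_lit 40, nat_lit 20, nat_lit 80, nat_lit 41, nat_lit 317, nat_lit 100, nat_lit 9]⟩,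
 zbF0, []⟩
noncomputable def p001_l164 : Lf2 := ⟨nat_lit 0, nat_lit 4, [nat_lit 38, nat_lit 5, nat_lit 5, nat_lit 20], false, nat_lit 0, nat_lit 0, nat_lit 0, nat_lit 0, ⟨nat_lit 1000, nat_lit 0, nat_lit 0, nat_lit 0, nat_lit 0, nat_lit 0, nat_lit 0, nat_lit 0, nat_lit 0, nat_lit 0, nat_lit 0, nat_lit 0, nat_lit 0, nat_lit 0, nat_lit 0, nat_lit 0, false, false⟩,
 nat_lit 0, nat_lit 9631, nat_lit 0, nat_lit 10959, nat_lit 4127, nat_lit 11992, nat_lit 1632, nat_lit 0, nat_lit 0, nat_lit 3568, nat_lit 0, nat_lit 0, nat_lit 0, nat_lit 0, nat_lit 0, nat_lit 0, nat_lit 0, nat_lit 0, [],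
 ⟨p001_k55, nat_lit 0, nat_lit 0, nat_lit 360, nat_lit 0, nat_lit 310441, [nat_lit 6250000000, nat_lit 7968000001, nat_lit 9842000000], [], [nat_lit 38788899680, nat_lit 38093380631, nat_lit 45927506577, nat_lit 46202357619], nat_lit 1271250, nat_lit 1271250, nat_lit 780000, nat_lit 3072500, nat_lit 0, nat_lit 0, [nat_lit 1412500, nat_lit 1271250, nat_lit 1271250], [nat_lit 25, nat_lit 40, nat_lit 20, nat_lit 80, nat_lit 17, nat_lit 401, nat_lit 175, nat_lit 12]⟩, ⟨p001_k56, nat_lit 0, nat_lit 0, nat_lit 276, nat_lit 0, nat_lit 0, [nat_lit 7968000000, nat_lit 9842000000, nat_lit 11872000000], [], [nat_lit 21529669888, nat_lit 22042956512, nat_lit 47252272688, nat_lit 47349565504], nat_lit 0, nat_lit 0, nat_lit 0, nat_lit 0, nat_lit 0, nat_lit 0, [], [nat_lit 106, nat_lit 40, nat_lit 20, nat_lit 80, nat_lit 41, nat_lit 373, nat_lit 150, nat_lit 10]⟩,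
 zbF0, []⟩
noncomputable def b_NL_500_450_0_1 : St := ⟨false, nat_lit 1, nat_lit 0, nat_lit 1, nat_lit 20, nat_lit 200, nat_lit 220, nat_lit 180, nat_lit 200, nat_lit 0, nat_lit 400, nat_lit 0, nat_lit 0, nat_lit 0, nat_lit 0, nat_lit 0, nat_lit 0, nat_lit 0, nat_lit 16, nat_lit 0, nat_lit 0, nat_lit 0, nat_lit 0⟩
theorem d_NL_500_450_0_1 (h : EB TB.env) : Dead b_NL_500_450_0_1 := chkB_sound0 h (T :=
(.spl (nat_lit 2) (nat_lit 120)
(.spl (nat_lit 2) (nat_lit 80)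
(.spl (nat_lit 0) (nat_lit 210)
(.leaf p001_l148)
(.spl (nat_lit 6) (nat_lit 8)
(.spl (nat_lit 2) (nat_lit 40)
(.spl (nat_lit 8) (nat_lit 800)
(.spl (nat_lit 0) (nat_lit 215)
(.leaf p001_l149)
(.spl (nat_lit 6) (nat_lit 4)
(.spl (nat_lit 0) (nat_lit 218)
(.leaf p001_l150)
(.spl (nat_lit 0) (nat_lit 219)
(.leaf p001_l151)
(.spl (nat_lit 2) (nat_lit 20)
(.spl (nat_lit 2) (nat_lit 8)
(.spl (nat_lit 2) (nat_lit 4)
(.spl (nat_lit 1) (nat_lit 190)
(.leaf p001_l152)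
(.spl (nat_lit 1) (nat_lit 195)
(.leaf p001_l153)
(.spl (nat_lit 7) (nat_lit 600)
(.leaf p001_l154)
(.leaf p001_l155))))
(.leaf p001_l156))
(.leaf p001_l157))
(.leaf p001_l158))))
(.leaf p001_l159)))
(.leaf p001_l160))
(.leaf p001_l161))
(.leaf p001_l162)))
(.leaf p001_l163))
(.leaf p001_l164))) (by decide +kernel)
noncomputable def p001_l165 : Lf2 := ⟨nat_lit 0, nat_lit 4, [nat_lit 38, nat_lit 5, nat_lit 5, nat_lit 20], true, nat_lit 0, nat_lit 0, nat_lit 0, nat_lit 0, ⟨nat_lit 0, nat_lit 0, nat_lit 1000, nat_lit 4, nat_lit 53, nat_lit 0, nat_lit 0, nat_lit 0, nat_lit 0, nat_lit 215, nat_lit 26667, nat_lit 255, nat_lit 65845320, nat_lit 0, nat_lit 0, nat_lit 435276, false, false⟩,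
 nat_lit 0, nat_lit 12295, nat_lit 0, nat_lit 0, nat_lit 5269, nat_lit 0, nat_lit 808, nat_lit 0, nat_lit 0, nat_lit 0, nat_lit 0, nat_lit 0, nat_lit 0, nat_lit 0, nat_lit 90, nat_lit 1000000, nat_lit 0, nat_lit 0, [(nat_lit 0, [(nat_lit 6, nat_lit 1000)])],
 ⟨p001_k55, nat_lit 0, nat_lit 0, nat_lit 338, nat_lit 0, nat_lit 103798, [nat_lit 2618000001, nat_lit 1352800000, nat_lit 26400000], [], [nat_lit 13344096325, nat_lit 13744604330, nat_lit 12911702606, nat_lit 11497139445], nat_lit 1271250, nat_lit 1271250, nat_lit 0, nat_lit 490000, nat_lit 0, nat_lit 0, [nat_lit 1412500, nat_lit 1271250, nat_lit 1271250], [nat_lit 25, nat_lit 40, nat_lit 20, nat_lit 80, nat_lit 17, nat_lit 289, nat_lit 75, nat_lit 9]⟩, C1.Rw.none,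
 ⟨nat_lit 6892, nat_lit 7072, ⟨.ofNat (nat_lit 27266), .ofNat (nat_lit 207740), .ofNat (nat_lit 48814), .ofNat (nat_lit 229288), .ofNat (nat_lit 37657), .ofNat (nat_lit 213998), .ofNat (nat_lit 59146), .ofNat (nat_lit 235487)⟩, ⟨.ofNat (nat_lit 0), .ofNat (nat_lit 0), .ofNat (nat_lit 0), .ofNat (nat_lit 0), .ofNat (nat_lit 0), .ofNat (nat_lit 0), .ofNat (nat_lit 0), .ofNat (nat_lit 0)⟩⟩, [⟨nat_lit 0, nat_lit 100, nat_lit 100, nat_lit 5, nat_lit 147506185⟩]⟩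
noncomputable def p001_l166 : Lf2 := ⟨nat_lit 0, nat_lit 4, [nat_lit 38, nat_lit 5, nat_lit 5, nat_lit 20], true, nat_lit 0, nat_lit 0, nat_lit 0, nat_lit 0, ⟨nat_lit 0, nat_lit 0, nat_lit 1000, nat_lit 4, nat_lit 55, nat_lit 0, nat_lit 0, nat_lit 0, nat_lit 0, nat_lit 215, nat_lit 29400, nat_lit 257, nat_lit 65737084, nat_lit 0, nat_lit 0, nat_lit 467575, false, false⟩,
 nat_lit 0, nat_lit 11664, nat_lit 0, nat_lit 0, nat_lit 5286, nat_lit 0, nat_lit 1298, nat_lit 0, nat_lit 0, nat_lit 0, nat_lit 0, nat_lit 0, nat_lit 0, nat_lit 0, nat_lit 90, nat_lit 1000000, nat_lit 0, nat_lit 0, [(nat_lit 0, [(nat_lit 6, nat_lit 1000)])],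
 ⟨p001_k66, nat_lit 0, nat_lit 0, nat_lit 346, nat_lit 0, nat_lit 119763, [nat_lit 2618000001, nat_lit 1352800000, nat_lit 26400000], [], [nat_lit 13092475978, nat_lit 13314917058, nat_lit 11475961644, nat_lit 11092731931], nat_lit 1271250, nat_lit 1271250, nat_lit 0, nat_lit 490000, nat_lit 0, nat_lit 0, [nat_lit 1412500, nat_lit 1271250, nat_lit 1271250], [nat_lit 25, nat_lit 40, nat_lit 20, nat_lit 80, nat_lit 17, nat_lit 289, nat_lit 75, nat_lit 9]⟩, C1.Rw.none,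
 ⟨nat_lit 6800, nat_lit 6893, ⟨.ofNat (nat_lit 37657), .ofNat (nat_lit 213998), .ofNat (nat_lit 59146), .ofNat (nat_lit 235487), .ofNat (nat_lit 42752), .ofNat (nat_lit 217066), .ofNat (nat_lit 64214), .ofNat (nat_lit 238528)⟩, ⟨.ofNat (nat_lit 0), .ofNat (nat_lit 0), .ofNat (nat_lit 0), .ofNat (nat_lit 0), .ofNat (nat_lit 0), .ofNat (nat_lit 0), .ofNat (nat_lit 0), .ofNat (nat_lit 0)⟩⟩, [⟨nat_lit 0, nat_lit 100, nat_lit 100, nat_lit 7, nat_lit 214415657⟩]⟩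
noncomputable def p001_l167 : Lf2 := ⟨nat_lit 0, nat_lit 2, [nat_lit 10, nat_lit 5, nat_lit 5, nat_lit 20], true, nat_lit 0, nat_lit 0, nat_lit 0, nat_lit 0, ⟨nat_lit 0, nat_lit 0, nat_lit 1000, nat_lit 4, nat_lit 57, nat_lit 0, nat_lit 0, nat_lit 0, nat_lit 0, nat_lit 215, nat_lit 30817, nat_lit 258, nat_lit 65678488, nat_lit 0, nat_lit 0, nat_lit 484761, false, false⟩,
 nat_lit 0, nat_lit 11008, nat_lit 0, nat_lit 0, nat_lit 5126, nat_lit 0, nat_lit 1430, nat_lit 0, nat_lit 0, nat_lit 0, nat_lit 0, nat_lit 0, nat_lit 0, nat_lit 0, nat_lit 90, nat_lit 1000000, nat_lit 0, nat_lit 0, [(nat_lit 0, [(nat_lit 6, nat_lit 1000)])],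
 ⟨p001_k63, nat_lit 0, nat_lit 0, nat_lit 348, nat_lit 0, nat_lit 124701, [nat_lit 2618000001, nat_lit 1352800000, nat_lit 26400000], [], [nat_lit 13204565698, nat_lit 13336563467, nat_lit 11089771691, nat_lit 11214871122], nat_lit 1271250, nat_lit 1271250, nat_lit 0, nat_lit 490000, nat_lit 0, nat_lit 0, [nat_lit 1412500, nat_lit 1271250, nat_lit 1271250], [nat_lit 25, nat_lit 40, nat_lit 20, nat_lit 80, nat_lit 17, nat_lit 289, nat_lit 75, nat_lit 9]⟩, C1.Rw.none,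
 ⟨nat_lit 6745, nat_lit 6801, ⟨.ofNat (nat_lit 42752), .ofNat (nat_lit 217066), .ofNat (nat_lit 64214), .ofNat (nat_lit 238528), .ofNat (nat_lit 45778), .ofNat (nat_lit 218887), .ofNat (nat_lit 67226), .ofNat (nat_lit 240335)⟩, ⟨.ofNat (nat_lit 0), .ofNat (nat_lit 0), .ofNat (nat_lit 0), .ofNat (nat_lit 0), .ofNat (nat_lit 0), .ofNat (nat_lit 0), .ofNat (nat_lit 0), .ofNat (nat_lit 0)⟩⟩, [⟨nat_lit 0, nat_lit 100, nat_lit 100, nat_lit 9, nat_lit 238871603⟩]⟩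
noncomputable def p001_l168 : Lf2 := ⟨nat_lit 0, nat_lit 1, [nat_lit 19, nat_lit 5, nat_lit 5, nat_lit 20], true, nat_lit 0, nat_lit 0, nat_lit 0, nat_lit 0, ⟨nat_lit 0, nat_lit 0, nat_lit 1000, nat_lit 4, nat_lit 40, nat_lit 0, nat_lit 0, nat_lit 0, nat_lit 0, nat_lit 215, nat_lit 15000, nat_lit 245, nat_lit 66333612, nat_lit 0, nat_lit 0, nat_lit 278555, false, false⟩,
 nat_lit 0, nat_lit 10415, nat_lit 0, nat_lit 0, nat_lit 4928, nat_lit 0, nat_lit 1001, nat_lit 0, nat_lit 0, nat_lit 0, nat_lit 0, nat_lit 0, nat_lit 0, nat_lit 0, nat_lit 34, nat_lit 1000000, nat_lit 0, nat_lit 0, [(nat_lit 0, [(nat_lit 6, nat_lit 1000)])],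
 ⟨p001_k60, nat_lit 0, nat_lit 0, nat_lit 290, nat_lit 0, nat_lit 124334, [nat_lit 1498000001, nat_lit 8800000], [], [nat_lit 13057578375, nat_lit 13113065270, nat_lit 11147248471, nat_lit 11208068773], nat_lit 1271250, nat_lit 1271250, nat_lit 0, nat_lit 230001, nat_lit 0, nat_lit 0, [nat_lit 1412500, nat_lit 1271250], [nat_lit 26, nat_lit 40, nat_lit 20, nat_lit 80, nat_lit 2, nat_lit 289, nat_lit 75, nat_lit 10]⟩, C1.Rw.none,
 ⟨nat_lit 6726, nat_lit 6746, ⟨.ofNat (nat_lit 45778), .ofNat (nat_lit 132333), .ofNat (nat_lit 67226), .ofNat (nat_lit 153780), .ofNat (nat_lit 46782), .ofNat (nat_lit 133136), .ofNat (nat_lit 68224), .ofNat (nat_lit 154579)⟩, ⟨.ofNat (nat_lit 0), .ofNat (nat_lit 0), .ofNat (nat_lit 0), .ofNat (nat_lit 0), .ofNat (nat_lit 0), .ofNat (nat_lit 0), .ofNat (nat_lit 0), .ofNat (nat_lit 0)⟩⟩, [⟨nat_lit 0, nat_lit 100, nat_lit 100, nat_lit 9, nat_lit 338636119⟩]⟩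
noncomputable def p001_l169 : Lf2 := ⟨nat_lit 0, nat_lit 1, [nat_lit 19, nat_lit 5, nat_lit 5, nat_lit 20], true, nat_lit 0, nat_lit 0, nat_lit 0, nat_lit 0, ⟨nat_lit 0, nat_lit 0, nat_lit 1000, nat_lit 4, nat_lit 23, nat_lit 0, nat_lit 0, nat_lit 0, nat_lit 0, nat_lit 215, nat_lit 4817, nat_lit 232, nat_lit 66783363, nat_lit 0, nat_lit 0, nat_lit 106842, false, false⟩,
 nat_lit 0, nat_lit 10336, nat_lit 0, nat_lit 0, nat_lit 4917, nat_lit 0, nat_lit 940, nat_lit 0, nat_lit 0, nat_lit 0, nat_lit 0, nat_lit 0, nat_lit 0, nat_lit 0, nat_lit 34, nat_lit 1000000, nat_lit 0, nat_lit 0, [(nat_lit 0, [(nat_lit 6, nat_lit 1000)])],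
 ⟨p001_k61, nat_lit 0, nat_lit 0, nat_lit 288, nat_lit 0, nat_lit 98908, [nat_lit 1498000001, nat_lit 8800000], [], [nat_lit 13127162362, nat_lit 13182518777, nat_lit 12878088460, nat_lit 12933879658], nat_lit 1271250, nat_lit 1271250, nat_lit 0, nat_lit 21650, nat_lit 0, nat_lit 0, [nat_lit 1412500, nat_lit 1271250], [nat_lit 26, nat_lit 40, nat_lit 20, nat_lit 80, nat_lit 2, nat_lit 272, nat_lit 60, nat_lit 10]⟩, C1.Rw.none,
 ⟨nat_lit 6708, nat_lit 6727, ⟨.ofNat (nat_lit 46782), .ofNat (nat_lit 55417), .ofNat (nat_lit 57503), .ofNat (nat_lit 66138), .ofNat (nat_lit 47783), .ofNat (nat_lit 56398), .ofNat (nat_lit 58502), .ofNat (nat_lit 67117)⟩, ⟨.ofNat (nat_lit 0), .ofNat (nat_lit 0), .ofNat (nat_lit 0), .ofNat (nat_lit 0), .ofNat (nat_lit 0), .ofNat (nat_lit 0), .ofNat (nat_lit 0), .ofNat (nat_lit 0)⟩⟩, [⟨nat_lit 0, nat_lit 100, nat_lit 100, nat_lit 5, nat_lit 404626555⟩]⟩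
noncomputable def p001_l170 : Lf2 := ⟨nat_lit 0, nat_lit 1, [nat_lit 19, nat_lit 5, nat_lit 5, nat_lit 20], true, nat_lit 0, nat_lit 0, nat_lit 0, nat_lit 0, ⟨nat_lit 0, nat_lit 0, nat_lit 1000, nat_lit 4, nat_lit 26, nat_lit 0, nat_lit 0, nat_lit 0, nat_lit 0, nat_lit 215, nat_lit 6017, nat_lit 234, nat_lit 66718158, nat_lit 0, nat_lit 0, nat_lit 134880, false, false⟩,
 nat_lit 0, nat_lit 10336, nat_lit 0, nat_lit 0, nat_lit 4917, nat_lit 0, nat_lit 940, nat_lit 0, nat_lit 0, nat_lit 0, nat_lit 0, nat_lit 0, nat_lit 0, nat_lit 0, nat_lit 34, nat_lit 1000000, nat_lit 0, nat_lit 0, [(nat_lit 0, [(nat_lit 6, nat_lit 1000)])],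
 ⟨p001_k61, nat_lit 0, nat_lit 0, nat_lit 289, nat_lit 0, nat_lit 112785, [nat_lit 1498000001, nat_lit 8800000], [], [nat_lit 13127162362, nat_lit 13182518777, nat_lit 12878088460, nat_lit 12933879658], nat_lit 1271250, nat_lit 1271250, nat_lit 0, nat_lit 21650, nat_lit 0, nat_lit 0, [nat_lit 1412500, nat_lit 1271250], [nat_lit 26, nat_lit 40, nat_lit 20, nat_lit 80, nat_lit 2, nat_lit 272, nat_lit 60, nat_lit 10]⟩, C1.Rw.none,
 ⟨nat_lit 6708, nat_lit 6727, ⟨.ofNat (nat_lit 57503), .ofNat (nat_lit 66138), .ofNat (nat_lit 62864), .ofNat (nat_lit 71499), .ofNat (nat_lit 58502), .ofNat (nat_lit 67117), .ofNat (nat_lit 63861), .ofNat (nat_lit 72477)⟩, ⟨.ofNat (nat_lit 0), .ofNat (nat_lit 0), .ofNat (nat_lit 0), .ofNat (nat_lit 0), .ofNat (nat_lit 0), .ofNat (nat_lit 0), .ofNat (nat_lit 0), .ofNat (nat_lit 0)⟩⟩, [⟨nat_lit 0, nat_lit 100, nat_lit 100, nat_lit 8, nat_lit 406771716⟩]⟩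
noncomputable def p001_l171 : Lf2 := ⟨nat_lit 0, nat_lit 1, [nat_lit 19, nat_lit 5, nat_lit 5, nat_lit 20], true, nat_lit 0, nat_lit 0, nat_lit 0, nat_lit 0, ⟨nat_lit 0, nat_lit 0, nat_lit 1000, nat_lit 4, nat_lit 28, nat_lit 0, nat_lit 0, nat_lit 0, nat_lit 0, nat_lit 215, nat_lit 7350, nat_lit 236, nat_lit 66679924, nat_lit 0, nat_lit 0, nat_lit 150571, false, false⟩,
 nat_lit 0, nat_lit 10336, nat_lit 0, nat_lit 0, nat_lit 4917, nat_lit 0, nat_lit 940, nat_lit 0, nat_lit 0, nat_lit 0, nat_lit 0, nat_lit 0, nat_lit 0, nat_lit 0, nat_lit 34, nat_lit 1000000, nat_lit 0, nat_lit 0, [(nat_lit 0, [(nat_lit 6, nat_lit 1000)])],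
 ⟨p001_k61, nat_lit 0, nat_lit 0, nat_lit 289, nat_lit 0, nat_lit 121782, [nat_lit 1498000001, nat_lit 8800000], [], [nat_lit 13127162362, nat_lit 13182518777, nat_lit 12878088460, nat_lit 12933879658], nat_lit 1271250, nat_lit 1271250, nat_lit 0, nat_lit 21650, nat_lit 0, nat_lit 0, [nat_lit 1412500, nat_lit 1271250], [nat_lit 26, nat_lit 40, nat_lit 20, nat_lit 80, nat_lit 2, nat_lit 272, nat_lit 60, nat_lit 10]⟩, C1.Rw.none,
 ⟨nat_lit 6708, nat_lit 6727, ⟨.ofNat (nat_lit 62864), .ofNat (nat_lit 71499), .ofNat (nat_lit 66080), .ofNat (nat_lit 74716), .ofNat (nat_lit 63861), .ofNat (nat_lit 72477), .ofNat (nat_lit 67077), .ofNat (nat_lit 75693)⟩, ⟨.ofNat (nat_lit 0), .ofNat (nat_lit 0), .ofNat (nat_lit 0), .ofNat (nat_lit 0), .ofNat (nat_lit 0), .ofNat (nat_lit 0), .ofNat (nat_lit 0), .ofNat (nat_lit 0)⟩⟩, [⟨nat_lit 0, nat_lit 100, nat_lit 100, nat_lit 9, nat_lit 408473376⟩]⟩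
noncomputable def p001_l172 : Lf2 := ⟨nat_lit 0, nat_lit 1, [nat_lit 19, nat_lit 5, nat_lit 5, nat_lit 20], true, nat_lit 0, nat_lit 0, nat_lit 0, nat_lit 0, ⟨nat_lit 0, nat_lit 0, nat_lit 1000, nat_lit 4, nat_lit 29, nat_lit 0, nat_lit 0, nat_lit 0, nat_lit 0, nat_lit 215, nat_lit 7350, nat_lit 236, nat_lit 66659909, nat_lit 0, nat_lit 0, nat_lit 158586, false, false⟩,
 nat_lit 0, nat_lit 10336, nat_lit 0, nat_lit 0, nat_lit 4917, nat_lit 0, nat_lit 947, nat_lit 0, nat_lit 0, nat_lit 0, nat_lit 0, nat_lit 0, nat_lit 0, nat_lit 0, nat_lit 34, nat_lit 1000000, nat_lit 0, nat_lit 0, [(nat_lit 0, [(nat_lit 6, nat_lit 1000)])],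
 ⟨p001_k61, nat_lit 0, nat_lit 0, nat_lit 290, nat_lit 0, nat_lit 124800, [nat_lit 1498000001, nat_lit 8800000], [], [nat_lit 13121868612, nat_lit 13182409276, nat_lit 12872794710, nat_lit 12933879658], nat_lit 1271250, nat_lit 1271250, nat_lit 0, nat_lit 21650, nat_lit 0, nat_lit 0, [nat_lit 1412500, nat_lit 1271250], [nat_lit 26, nat_lit 40, nat_lit 20, nat_lit 80, nat_lit 2, nat_lit 272, nat_lit 60, nat_lit 10]⟩, C1.Rw.none,
 ⟨nat_lit 6708, nat_lit 6727, ⟨.ofNat (nat_lit 66080), .ofNat (nat_lit 74716), .ofNat (nat_lit 67152), .ofNat (nat_lit 75788), .ofNat (nat_lit 67077), .ofNat (nat_lit 75693), .ofNat (nat_lit 68149), .ofNat (nat_lit 76765)⟩, ⟨.ofNat (nat_lit 0), .ofNat (nat_lit 0), .ofNat (nat_lit 0), .ofNat (nat_lit 0), .ofNat (nat_lit 0), .ofNat (nat_lit 0), .ofNat (nat_lit 0), .ofNat (nat_lit 0)⟩⟩, [⟨nat_lit 0, nat_lit 100, nat_lit 99, nat_lit 10, nat_lit 413023642⟩]⟩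
noncomputable def p001_l173 : Lf2 := ⟨nat_lit 0, nat_lit 1, [nat_lit 19, nat_lit 5, nat_lit 5, nat_lit 20], true, nat_lit 0, nat_lit 0, nat_lit 0, nat_lit 0, ⟨nat_lit 0, nat_lit 0, nat_lit 1000, nat_lit 4, nat_lit 29, nat_lit 0, nat_lit 0, nat_lit 0, nat_lit 0, nat_lit 215, nat_lit 8067, nat_lit 237, nat_lit 66649677, nat_lit 0, nat_lit 0, nat_lit 162642, false, false⟩,
 nat_lit 0, nat_lit 10688, nat_lit 0, nat_lit 0, nat_lit 5084, nat_lit 0, nat_lit 1511, nat_lit 0, nat_lit 0, nat_lit 0, nat_lit 0, nat_lit 0, nat_lit 0, nat_lit 0, nat_lit 34, nat_lit 1000000, nat_lit 0, nat_lit 0, [(nat_lit 0, [(nat_lit 6, nat_lit 1000)])],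
 ⟨p001_k62, nat_lit 0, nat_lit 0, nat_lit 0, nat_lit 0, nat_lit 127817, [nat_lit 1498000001, nat_lit 592400000, nat_lit 8800000], [], [nat_lit 13405306825, nat_lit 13451588039, nat_lit 13196192031, nat_lit 13242436532], nat_lit 1271250, nat_lit 1271250, nat_lit 0, nat_lit 21650, nat_lit 0, nat_lit 0, [nat_lit 1412500, nat_lit 1271250, nat_lit 1271250], [nat_lit 153, nat_lit 40, nat_lit 20, nat_lit 40]⟩, C1.Rw.none,
 ⟨nat_lit 6708, nat_lit 6727, ⟨.ofNat (nat_lit 67152), .ofNat (nat_lit 75788), .ofNat (nat_lit 68224), .ofNat (nat_lit 76860), .ofNat (nat_lit 68149), .ofNat (nat_lit 76765), .ofNat (nat_lit 69221), .ofNat (nat_lit 77837)⟩, ⟨.ofNat (nat_lit 0), .ofNat (nat_lit 0), .ofNat (nat_lit 0), .ofNat (nat_lit 0), .ofNat (nat_lit 0), .ofNat (nat_lit 0), .ofNat (nat_lit 0), .ofNat (nat_lit 0)⟩⟩, [⟨nat_lit 0, nat_lit 100, nat_lit 99, nat_lit 10, nat_lit 363771171⟩]⟩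
noncomputable def p001_l174 : Lf2 := ⟨nat_lit 0, nat_lit 1, [nat_lit 19, nat_lit 5, nat_lit 5, nat_lit 20], true, nat_lit 0, nat_lit 0, nat_lit 0, nat_lit 0, ⟨nat_lit 0, nat_lit 0, nat_lit 1000, nat_lit 4, nat_lit 29, nat_lit 0, nat_lit 0, nat_lit 0, nat_lit 0, nat_lit 215, nat_lit 8067, nat_lit 237, nat_lit 66649677, nat_lit 0, nat_lit 0, nat_lit 162642, false, false⟩,
 nat_lit 0, nat_lit 100000, nat_lit 0, nat_lit 0, nat_lit 47574, nat_lit 0, nat_lit 0, nat_lit 5917, nat_lit 0, nat_lit 0, nat_lit 0, nat_lit 0, nat_lit 0, nat_lit 0, nat_lit 0, nat_lit 1000000, nat_lit 0, nat_lit 0, [(nat_lit 0, [(nat_lit 6, nat_lit 1000)])],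
 ⟨p001_k61, nat_lit 0, nat_lit 0, nat_lit 290, nat_lit 0, nat_lit 127817, [nat_lit 119158000001, nat_lit 141200800000], [], [nat_lit 332838022882, nat_lit 333011743226, nat_lit 331849631097, nat_lit 330632328046], nat_lit 1271250, nat_lit 1271250, nat_lit 0, nat_lit 21650, nat_lit 0, nat_lit 0, [nat_lit 1412500, nat_lit 1271250], [nat_lit 26, nat_lit 40, nat_lit 20, nat_lit 80, nat_lit 2, nat_lit 272, nat_lit 60, nat_lit 10]⟩, C1.Rw.none,
 ⟨nat_lit 6708, nat_lit 6727, ⟨.ofNat (nat_lit 67152), .ofNat (nat_lit 75788), .ofNat (nat_lit 68224), .ofNat (nat_lit 76860), .ofNat (nat_lit 68149), .ofNat (nat_lit 76765), .ofNat (nat_lit 69221), .ofNat (nat_lit 77837)⟩, ⟨.ofNat (nat_lit 0), .ofNat (nat_lit 0), .ofNat (nat_lit 0), .ofNat (nat_lit 0), .ofNat (nat_lit 0), .ofNat (nat_lit 0), .ofNat (nat_lit 0), .ofNat (nat_lit 0)⟩⟩, [⟨nat_lit 13, nat_lit 100, nat_lit 10, nat_lit 100, nat_lit 70304894⟩]⟩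
noncomputable def p001_l175 : Lf2 := ⟨nat_lit 3, nat_lit 1, [nat_lit 19, nat_lit 5, nat_lit 5, nat_lit 20], false, nat_lit 0, nat_lit 0, nat_lit 0, nat_lit 0, zbN0,
 nat_lit 0, nat_lit 0, nat_lit 0, nat_lit 0, nat_lit 0, nat_lit 0, nat_lit 0, nat_lit 0, nat_lit 0, nat_lit 0, nat_lit 0, nat_lit 0, nat_lit 0, nat_lit 0, nat_lit 0, nat_lit 0, nat_lit 0, nat_lit 0, [],
 C1.Rw.none, ⟨p001_k67, nat_lit 0, nat_lit 0, nat_lit 354, nat_lit 0, nat_lit 142950, [], [], [], nat_lit 1271250, nat_lit 1271250, nat_lit 0, nat_lit 21650, nat_lit 0, nat_lit 0, [nat_lit 1695000, nat_lit 1271250], [nat_lit 77, nat_lit 40, nat_lit 20, nat_lit 80, nat_lit 17, nat_lit 272, nat_lit 60, nat_lit 9]⟩,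
 zbF0, []⟩
noncomputable def p001_l176 : Lf2 := ⟨nat_lit 0, nat_lit 1, [nat_lit 19, nat_lit 5, nat_lit 5, nat_lit 20], true, nat_lit 0, nat_lit 0, nat_lit 0, nat_lit 0, ⟨nat_lit 0, nat_lit 0, nat_lit 1000, nat_lit 4, nat_lit 28, nat_lit 0, nat_lit 0, nat_lit 0, nat_lit 0, nat_lit 215, nat_lit 7350, nat_lit 236, nat_lit 66664506, nat_lit 0, nat_lit 0, nat_lit 156730, false, false⟩,
 nat_lit 0, nat_lit 10525, nat_lit 0, nat_lit 0, nat_lit 5007, nat_lit 0, nat_lit 964, nat_lit 0, nat_lit 0, nat_lit 0, nat_lit 0, nat_lit 0, nat_lit 0, nat_lit 0, nat_lit 34, nat_lit 1000000, nat_lit 0, nat_lit 0, [(nat_lit 0, [(nat_lit 6, nat_lit 1000)])],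
 ⟨p001_k61, nat_lit 0, nat_lit 0, nat_lit 288, nat_lit 0, nat_lit 127817, [nat_lit 1498000001, nat_lit 8800000], [], [nat_lit 12808829175, nat_lit 12864604703, nat_lit 12554313680, nat_lit 12610381084], nat_lit 1271250, nat_lit 1271250, nat_lit 21650, nat_lit 43600, nat_lit 0, nat_lit 0, [nat_lit 1412500, nat_lit 1271250], [nat_lit 26, nat_lit 40, nat_lit 20, nat_lit 80, nat_lit 2, nat_lit 272, nat_lit 60, nat_lit 10]⟩, C1.Rw.none,
 ⟨nat_lit 6708, nat_lit 6727, ⟨.ofNat (nat_lit 55417), .ofNat (nat_lit 64052), .ofNat (nat_lit 76860), .ofNat (nat_lit 85495), .ofNat (nat_lit 56398), .ofNat (nat_lit 65014), .ofNat (nat_lit 77837), .ofNat (nat_lit 86452)⟩, ⟨.ofNat (nat_lit 0), .ofNat (nat_lit 0), .ofNat (nat_lit 0), .ofNat (nat_lit 0), .ofNat (nat_lit 0), .ofNat (nat_lit 0), .ofNat (nat_lit 0), .ofNat (nat_lit 0)⟩⟩, []⟩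
noncomputable def p001_l177 : Lf2 := ⟨nat_lit 0, nat_lit 1, [nat_lit 19, nat_lit 5, nat_lit 5, nat_lit 20], true, nat_lit 0, nat_lit 0, nat_lit 0, nat_lit 0, ⟨nat_lit 0, nat_lit 0, nat_lit 1000, nat_lit 4, nat_lit 35, nat_lit 0, nat_lit 0, nat_lit 0, nat_lit 0, nat_lit 215, nat_lit 11267, nat_lit 241, nat_lit 66482912, nat_lit 0, nat_lit 0, nat_lit 225793, false, false⟩,
 nat_lit 0, nat_lit 10721, nat_lit 0, nat_lit 0, nat_lit 5100, nat_lit 0, nat_lit 998, nat_lit 0, nat_lit 0, nat_lit 0, nat_lit 0, nat_lit 0, nat_lit 0, nat_lit 0, nat_lit 34, nat_lit 1000000, nat_lit 0, nat_lit 0, [(nat_lit 0, [(nat_lit 6, nat_lit 1000)])],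
 ⟨p001_k61, nat_lit 0, nat_lit 0, nat_lit 286, nat_lit 0, nat_lit 127817, [nat_lit 1498000001, nat_lit 8800000], [], [nat_lit 12470453132, nat_lit 12532913162, nat_lit 11691619353, nat_lit 11754024602], nat_lit 1271250, nat_lit 1271250, nat_lit 43600, nat_lit 111251, nat_lit 0, nat_lit 0, [nat_lit 1412500, nat_lit 1271250], [nat_lit 26, nat_lit 40, nat_lit 20, nat_lit 80, nat_lit 2, nat_lit 272, nat_lit 60, nat_lit 10]⟩, C1.Rw.none,
 ⟨nat_lit 6708, nat_lit 6727, ⟨.ofNat (nat_lit 64052), .ofNat (nat_lit 89959), .ofNat (nat_lit 85495), .ofNat (nat_lit 111402), .ofNat (nat_lit 65014), .ofNat (nat_lit 90860), .ofNat (nat_lit 86452), .ofNat (nat_lit 112299)⟩, ⟨.ofNat (nat_lit 0), .ofNat (nat_lit 0), .ofNat (nat_lit 0), .ofNat (nat_lit 0), .ofNat (nat_lit 0), .ofNat (nat_lit 0), .ofNat (nat_lit 0), .ofNat (nat_lit 0)⟩⟩, []⟩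
noncomputable def p001_l178 : Lf2 := ⟨nat_lit 0, nat_lit 1, [nat_lit 19, nat_lit 5, nat_lit 5, nat_lit 20], true, nat_lit 0, nat_lit 0, nat_lit 0, nat_lit 0, ⟨nat_lit 0, nat_lit 0, nat_lit 1000, nat_lit 4, nat_lit 49, nat_lit 0, nat_lit 0, nat_lit 0, nat_lit 0, nat_lit 215, nat_lit 22817, nat_lit 252, nat_lit 66006356, nat_lit 0, nat_lit 0, nat_lit 385765, false, false⟩,
 nat_lit 0, nat_lit 11350, nat_lit 0, nat_lit 0, nat_lit 5399, nat_lit 0, nat_lit 1071, nat_lit 0, nat_lit 0, nat_lit 0, nat_lit 0, nat_lit 0, nat_lit 0, nat_lit 0, nat_lit 34, nat_lit 1000000, nat_lit 0, nat_lit 0, [(nat_lit 0, [(nat_lit 6, nat_lit 1000)])],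
 ⟨p001_k61, nat_lit 0, nat_lit 0, nat_lit 280, nat_lit 0, nat_lit 127817, [nat_lit 1498000001, nat_lit 8800000], [], [nat_lit 11392434481, nat_lit 11450553356, nat_lit 10631430208, nat_lit 10694916228], nat_lit 1271250, nat_lit 1271250, nat_lit 111251, nat_lit 230001, nat_lit 0, nat_lit 0, [nat_lit 1412500, nat_lit 1271250], [nat_lit 26, nat_lit 40, nat_lit 20, nat_lit 80, nat_lit 2, nat_lit 289, nat_lit 75, nat_lit 10]⟩, C1.Rw.none,
 ⟨nat_lit 6708, nat_lit 6727, ⟨.ofNat (nat_lit 89959), .ofNat (nat_lit 133136), .ofNat (nat_lit 111402), .ofNat (nat_lit 154579), .ofNat (nat_lit 90860), .ofNat (nat_lit 133938), .ofNat (nat_lit 112299), .ofNat (nat_lit 155377)⟩, ⟨.ofNat (nat_lit 0), .ofNat (nat_lit 0), .ofNat (nat_lit 0), .ofNat (nat_lit 0), .ofNat (nat_lit 0), .ofNat (nat_lit 0), .ofNat (nat_lit 0), .ofNat (nat_lit 0)⟩⟩, []⟩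
noncomputable def p001_l179 : Lf2 := ⟨nat_lit 0, nat_lit 2, [nat_lit 10, nat_lit 5, nat_lit 5, nat_lit 20], true, nat_lit 0, nat_lit 0, nat_lit 0, nat_lit 0, ⟨nat_lit 0, nat_lit 0, nat_lit 1000, nat_lit 4, nat_lit 40, nat_lit 0, nat_lit 0, nat_lit 0, nat_lit 0, nat_lit 215, nat_lit 15000, nat_lit 245, nat_lit 66327679, nat_lit 0, nat_lit 0, nat_lit 280595, false, false⟩,
 nat_lit 0, nat_lit 10391, nat_lit 0, nat_lit 0, nat_lit 4917, nat_lit 0, nat_lit 989, nat_lit 0, nat_lit 0, nat_lit 0, nat_lit 0, nat_lit 0, nat_lit 0, nat_lit 0, nat_lit 34, nat_lit 1000000, nat_lit 0, nat_lit 0, [(nat_lit 0, [(nat_lit 6, nat_lit 1000)])],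
 ⟨p001_k68, nat_lit 0, nat_lit 0, nat_lit 287, nat_lit 0, nat_lit 79189, [nat_lit 1498000001, nat_lit 8800000], [], [nat_lit 13071837196, nat_lit 13182550027, nat_lit 11160777871, nat_lit 11282293960], nat_lit 1271250, nat_lit 1271250, nat_lit 0, nat_lit 230001, nat_lit 0, nat_lit 0, [nat_lit 1412500, nat_lit 1271250], [nat_lit 26, nat_lit 40, nat_lit 20, nat_lit 80, nat_lit 2, nat_lit 289, nat_lit 75, nat_lit 10]⟩, C1.Rw.none,
 ⟨nat_lit 6708, nat_lit 6746, ⟨.ofNat (nat_lit 45778), .ofNat (nat_lit 132333), .ofNat (nat_lit 67226), .ofNat (nat_lit 153780), .ofNat (nat_lit 47783), .ofNat (nat_lit 133938), .ofNat (nat_lit 69221), .ofNat (nat_lit 155377)⟩, ⟨.ofNat (nat_lit 0), .ofNat (nat_lit 0), .ofNat (nat_lit 0), .ofNat (nat_lit 0), .ofNat (nat_lit 0), .ofNat (nat_lit 0), .ofNat (nat_lit 0), .ofNat (nat_lit 0)⟩⟩, [⟨nat_lit 0, nat_lit 100, nat_lit 99, nat_lit 10, nat_lit 340890659⟩]⟩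
noncomputable def p001_l180 : Lf2 := ⟨nat_lit 0, nat_lit 2, [nat_lit 10, nat_lit 5, nat_lit 5, nat_lit 20], true, nat_lit 0, nat_lit 0, nat_lit 0, nat_lit 0, ⟨nat_lit 0, nat_lit 0, nat_lit 1000, nat_lit 4, nat_lit 75, nat_lit 0, nat_lit 0, nat_lit 0, nat_lit 0, nat_lit 215, nat_lit 52267, nat_lit 271, nat_lit 64735431, nat_lit 0, nat_lit 0, nat_lit 738537, false, false⟩,
 nat_lit 0, nat_lit 12357, nat_lit 0, nat_lit 0, nat_lit 5847, nat_lit 0, nat_lit 1735, nat_lit 0, nat_lit 0, nat_lit 0, nat_lit 0, nat_lit 0, nat_lit 0, nat_lit 0, nat_lit 34, nat_lit 1000000, nat_lit 0, nat_lit 0, [(nat_lit 0, [(nat_lit 6, nat_lit 1000)])],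
 ⟨p001_k68, nat_lit 0, nat_lit 0, nat_lit 271, nat_lit 0, nat_lit 131179, [nat_lit 1498000001, nat_lit 8800000], [], [nat_lit 10016928649, nat_lit 10148971780, nat_lit 9521303617, nat_lit 9458695644], nat_lit 1271250, nat_lit 1271250, nat_lit 230001, nat_lit 490000, nat_lit 0, nat_lit 0, [nat_lit 1412500, nat_lit 1271250], [nat_lit 26, nat_lit 40, nat_lit 20, nat_lit 80, nat_lit 2, nat_lit 289, nat_lit 75, nat_lit 10]⟩, C1.Rw.none,
 ⟨nat_lit 6708, nat_lit 6746, ⟨.ofNat (nat_lit 132333), .ofNat (nat_lit 218887), .ofNat (nat_lit 153780), .ofNat (nat_lit 240335), .ofNat (nat_lit 133938), .ofNat (nat_lit 220094), .ofNat (nat_lit 155377), .ofNat (nat_lit 241532)⟩, ⟨.ofNat (nat_lit 0), .ofNat (nat_lit 0), .ofNat (nat_lit 0), .ofNat (nat_lit 0), .ofNat (nat_lit 0), .ofNat (nat_lit 0), .ofNat (nat_lit 0), .ofNat (nat_lit 0)⟩⟩, []⟩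
noncomputable def p001_l181 : Lf2 := ⟨nat_lit 0, nat_lit 4, [nat_lit 38, nat_lit 5, nat_lit 5, nat_lit 20], true, nat_lit 0, nat_lit 0, nat_lit 0, nat_lit 0, ⟨nat_lit 0, nat_lit 0, nat_lit 1000, nat_lit 4, nat_lit 57, nat_lit 0, nat_lit 0, nat_lit 0, nat_lit 0, nat_lit 215, nat_lit 30817, nat_lit 258, nat_lit 65663829, nat_lit 0, nat_lit 0, nat_lit 489029, false, false⟩,
 nat_lit 0, nat_lit 11169, nat_lit 0, nat_lit 222, nat_lit 5201, nat_lit 0, nat_lit 898, nat_lit 0, nat_lit 0, nat_lit 0, nat_lit 0, nat_lit 0, nat_lit 0, nat_lit 0, nat_lit 90, nat_lit 1000000, nat_lit 0, nat_lit 0, [(nat_lit 0, [(nat_lit 6, nat_lit 1000)])],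
 ⟨p001_k69, nat_lit 0, nat_lit 0, nat_lit 310, nat_lit 0, nat_lit 36893, [nat_lit 2618000001, nat_lit 1352800000, nat_lit 26400000], [], [nat_lit 13416680398, nat_lit 13637822678, nat_lit 11251546804, nat_lit 11461094992], nat_lit 1271250, nat_lit 1271250, nat_lit 0, nat_lit 490000, nat_lit 0, nat_lit 0, [nat_lit 1412500, nat_lit 1271250, nat_lit 1271250], [nat_lit 25, nat_lit 40, nat_lit 20, nat_lit 80, nat_lit 17, nat_lit 289, nat_lit 75, nat_lit 9]⟩, C1.Rw.none,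
 ⟨nat_lit 6708, nat_lit 6801, ⟨.ofNat (nat_lit 42752), .ofNat (nat_lit 217066), .ofNat (nat_lit 64214), .ofNat (nat_lit 238528), .ofNat (nat_lit 47783), .ofNat (nat_lit 220094), .ofNat (nat_lit 69221), .ofNat (nat_lit 241532)⟩, ⟨.ofNat (nat_lit 0), .ofNat (nat_lit 0), .ofNat (nat_lit 0), .ofNat (nat_lit 0), .ofNat (nat_lit 0), .ofNat (nat_lit 0), .ofNat (nat_lit 0), .ofNat (nat_lit 0)⟩⟩, [⟨nat_lit 0, nat_lit 100, nat_lit 99, nat_lit 10, nat_lit 243694122⟩]⟩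
noncomputable def p001_l182 : Lf2 := ⟨nat_lit 0, nat_lit 2, [nat_lit 10, nat_lit 5, nat_lit 5, nat_lit 20], false, nat_lit 0, nat_lit 0, nat_lit 0, nat_lit 0, ⟨nat_lit 0, nat_lit 0, nat_lit 1000, nat_lit 4, nat_lit 106, nat_lit 0, nat_lit 0, nat_lit 0, nat_lit 0, nat_lit 215, nat_lit 104017, nat_lit 294, nat_lit 62605530, nat_lit 0, nat_lit 0, nat_lit 1210379, false, false⟩,
 nat_lit 0, nat_lit 20537, nat_lit 0, nat_lit 0, nat_lit 8801, nat_lit 0, nat_lit 2023, nat_lit 0, nat_lit 0, nat_lit 0, nat_lit 0, nat_lit 0, nat_lit 0, nat_lit 0, nat_lit 90, nat_lit 1000000, nat_lit 0, nat_lit 0, [(nat_lit 0, [(nat_lit 6, nat_lit 1000)])],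
 ⟨p001_k33, nat_lit 0, nat_lit 0, nat_lit 255, nat_lit 0, nat_lit 78324, [nat_lit 2618000001, nat_lit 1352800000, nat_lit 26400000], [], [nat_lit 6770723272, nat_lit 7232563195, nat_lit 6501643828, nat_lit 6940590151], nat_lit 1271250, nat_lit 1271250, nat_lit 490000, nat_lit 780000, nat_lit 0, nat_lit 0, [nat_lit 1412500, nat_lit 1271250, nat_lit 1271250], [nat_lit 25, nat_lit 40, nat_lit 20, nat_lit 80, nat_lit 17, nat_lit 317, nat_lit 100, nat_lit 10]⟩, ⟨p001_k22, nat_lit 0, nat_lit 0, nat_lit 266, nat_lit 0, nat_lit 88639, [nat_lit 0, nat_lit 0], [], [nat_lit 0, nat_lit 0, nat_lit 0, nat_lit 0], nat_lit 1271250, nat_lit 1271250, nat_lit 490000, nat_lit 780000, nat_lit 0, nat_lit 0, [nat_lit 1695000, nat_lit 1271250], [nat_lit 77, nat_lit 40, nat_lit 20, nat_lit 80, nat_lit 17, nat_lit 317, nat_lit 100, nat_lit 10]⟩,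
 ⟨nat_lit 6982, nat_lit 7072, ⟨.ofNat (nat_lit 207740), .ofNat (nat_lit 297976), .ofNat (nat_lit 229288), .ofNat (nat_lit 319525), .ofNat (nat_lit 210890), .ofNat (nat_lit 300087), .ofNat (nat_lit 232407), .ofNat (nat_lit 321604)⟩, ⟨.ofNat (nat_lit 0), .ofNat (nat_lit 0), .ofNat (nat_lit 0), .ofNat (nat_lit 0), .ofNat (nat_lit 0), .ofNat (nat_lit 0), .ofNat (nat_lit 0), .ofNat (nat_lit 0)⟩⟩, []⟩
noncomputable def p001_l183 : Lf2 := ⟨nat_lit 0, nat_lit 2, [nat_lit 10, nat_lit 5, nat_lit 5, nat_lit 20], false, nat_lit 0, nat_lit 0, nat_lit 0, nat_lit 0, ⟨nat_lit 0, nat_lit 0, nat_lit 1000, nat_lit 4, nat_lit 107, nat_lit 0, nat_lit 0, nat_lit 0, nat_lit 0, nat_lit 215, nat_lit 106667, nat_lit 295, nat_lit 62524716, nat_lit 0, nat_lit 0, nat_lit 1226341, false, false⟩,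
 nat_lit 0, nat_lit 17498, nat_lit 0, nat_lit 0, nat_lit 7714, nat_lit 0, nat_lit 2876, nat_lit 0, nat_lit 0, nat_lit 0, nat_lit 0, nat_lit 0, nat_lit 0, nat_lit 0, nat_lit 90, nat_lit 1000000, nat_lit 0, nat_lit 0, [(nat_lit 0, [(nat_lit 6, nat_lit 1000)])],
 ⟨p001_k70, nat_lit 0, nat_lit 0, nat_lit 254, nat_lit 0, nat_lit 96590, [nat_lit 2618000001, nat_lit 1352800000, nat_lit 26400000], [], [nat_lit 7233844230, nat_lit 7660331652, nat_lit 7100947114, nat_lit 7506823636], nat_lit 1271250, nat_lit 1271250, nat_lit 490000, nat_lit 780000, nat_lit 0, nat_lit 0, [nat_lit 1412500, nat_lit 1271250, nat_lit 1271250], [nat_lit 25, nat_lit 40, nat_lit 20, nat_lit 80, nat_lit 17, nat_lit 317, nat_lit 100, nat_lit 10]⟩, ⟨p001_k22, nat_lit 0, nat_lit 0, nat_lit 268, nat_lit 0, nat_lit 112547, [nat_lit 0, nat_lit 0], [], [nat_lit 0, nat_lit 0, nat_lit 0, nat_lit 0], nat_lit 1271250, nat_lit 1271250,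 nat_lit 490000, nat_lit 780000, nat_lit 0, nat_lit 0, [nat_lit 1695000, nat_lit 1271250], [nat_lit 77, nat_lit 40, nat_lit 20, nat_lit 80, nat_lit 17, nat_lit 317, nat_lit 100, nat_lit 10]⟩,
 ⟨nat_lit 6892, nat_lit 6983, ⟨.ofNat (nat_lit 210890), .ofNat (nat_lit 300087), .ofNat (nat_lit 232407), .ofNat (nat_lit 321604), .ofNat (nat_lit 213998), .ofNat (nat_lit 302169), .ofNat (nat_lit 235487), .ofNat (nat_lit 323657)⟩, ⟨.ofNat (nat_lit 0), .ofNat (nat_lit 0), .ofNat (nat_lit 0), .ofNat (nat_lit 0), .ofNat (nat_lit 0), .ofNat (nat_lit 0), .ofNat (nat_lit 0), .ofNat (nat_lit 0)⟩⟩, []⟩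
noncomputable def p001_l184 : Lf2 := ⟨nat_lit 1, nat_lit 4, [nat_lit 38, nat_lit 5, nat_lit 5, nat_lit 20], false, nat_lit 0, nat_lit 0, nat_lit 0, nat_lit 0, zbN0,
 nat_lit 0, nat_lit 0, nat_lit 0, nat_lit 0, nat_lit 0, nat_lit 0, nat_lit 0, nat_lit 0, nat_lit 0, nat_lit 0, nat_lit 0, nat_lit 0, nat_lit 0, nat_lit 0, nat_lit 0, nat_lit 0, nat_lit 0, nat_lit 0, [],
 C1.Rw.none, C1.Rw.none,
 zbF0, []⟩
noncomputable def p001_l185 : Lf2 := ⟨nat_lit 0, nat_lit 4, [nat_lit 38, nat_lit 5, nat_lit 5, nat_lit 20], false, nat_lit 0, nat_lit 0, nat_lit 0, nat_lit 0, ⟨nat_lit 76, nat_lit 0, nat_lit 924, nat_lit 4, nat_lit 109, nat_lit 0, nat_lit 0, nat_lit 0, nat_lit 0, nat_lit 215, nat_lit 109350, nat_lit 296, nat_lit 62404772, nat_lit 0, nat_lit 0, nat_lit 1249817, false, false⟩,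
 nat_lit 1422, nat_lit 15769, nat_lit 0, nat_lit 0, nat_lit 7791, nat_lit 540, nat_lit 2116, nat_lit 0, nat_lit 0, nat_lit 350, nat_lit 0, nat_lit 0, nat_lit 0, nat_lit 0, nat_lit 56, nat_lit 924000, nat_lit 0, nat_lit 0, [(nat_lit 0, [(nat_lit 6, nat_lit 924)])],
 ⟨p001_k66, nat_lit 0, nat_lit 0, nat_lit 255, nat_lit 0, nat_lit 142905, [nat_lit 2350832000, nat_lit 1203715200, nat_lit 11905600], [], [nat_lit 9181014377, nat_lit 8858996524, nat_lit 11043949561, nat_lit 8984250682], nat_lit 1271250, nat_lit 1271250, nat_lit 490000, nat_lit 780000, nat_lit 0, nat_lit 0, [nat_lit 1412500, nat_lit 1271250, nat_lit 1271250], [nat_lit 25, nat_lit 40, nat_lit 20, nat_lit 80, nat_lit 17, nat_lit 317, nat_lit 100, nat_lit 10]⟩, ⟨p001_k56, nat_lit 0, nat_lit 0, nat_lit 377, nat_lit 0, nat_lit 172272, [nat_lit 605568000, nat_lit 747992000, nat_lit 902272000], [], [nat_lit 3268491992, nat_lit 2982973472,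 nat_lit 2701753352, nat_lit 2541670724], nat_lit 1271250, nat_lit 1271250, nat_lit 490000, nat_lit 780000, nat_lit 0, nat_lit 0, [nat_lit 1695000, nat_lit 1271250, nat_lit 1271250], [nat_lit 106, nat_lit 40, nat_lit 20, nat_lit 80, nat_lit 41, nat_lit 317, nat_lit 100, nat_lit 9]⟩,
 ⟨nat_lit 6708, nat_lit 6893, ⟨.ofNat (nat_lit 213998), .ofNat (nat_lit 302169), .ofNat (nat_lit 235487), .ofNat (nat_lit 323657), .ofNat (nat_lit 220094), .ofNat (nat_lit 306249), .ofNat (nat_lit 241532), .ofNat (nat_lit 327688)⟩, ⟨.ofNat (nat_lit 0), .ofNat (nat_lit 0), .ofNat (nat_lit 0), .ofNat (nat_lit 0), .ofNat (nat_lit 0), .ofNat (nat_lit 0), .ofNat (nat_lit 0), .ofNat (nat_lit 0)⟩⟩, []⟩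
noncomputable def p001_l186 : Lf2 := ⟨nat_lit 0, nat_lit 2, [nat_lit 10, nat_lit 5, nat_lit 5, nat_lit 20], false, nat_lit 0, nat_lit 0, nat_lit 0, nat_lit 0, ⟨nat_lit 1000, nat_lit 0, nat_lit 0, nat_lit 0, nat_lit 0, nat_lit 0, nat_lit 0, nat_lit 0, nat_lit 0, nat_lit 0, nat_lit 0, nat_lit 0, nat_lit 0, nat_lit 0, nat_lit 0, nat_lit 0, false, false⟩,
 nat_lit 17255, nat_lit 0, nat_lit 0, nat_lit 0, nat_lit 7395, nat_lit 6561, nat_lit 687, nat_lit 0, nat_lit 452, nat_lit 2839, nat_lit 0, nat_lit 0, nat_lit 0, nat_lit 0, nat_lit 0, nat_lit 0, nat_lit 0, nat_lit 0, [],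
 ⟨p001_k71, nat_lit 0, nat_lit 0, nat_lit 0, nat_lit 0, nat_lit 145296, [nat_lit 2637500000, nat_lit 6250000000, nat_lit 7968000001, nat_lit 8885500000], [], [nat_lit 6837688790, nat_lit 8315937830, nat_lit 17379011500, nat_lit 15733798100], nat_lit 1271250, nat_lit 1271250, nat_lit 780000, nat_lit 1762500, nat_lit 0, nat_lit 0, [nat_lit 631250, nat_lit 1431250, nat_lit 1271250, nat_lit 1271250], [nat_lit 151, nat_lit 40, nat_lit 20, nat_lit 40]⟩, ⟨p001_k22, nat_lit 0, nat_lit 0, nat_lit 252, nat_lit 0, nat_lit 164430, [nat_lit 7968000000, nat_lit 9842000000], [], [nat_lit 35580413966, nat_lit 35983268526, nat_lit 44069339958, nat_lit 40800085512], nat_lit 1271250, nat_lit 1271250, nat_lit 780000, nat_lit 1762500, nat_lit 0, nat_lit 0, [nat_lit 1695000, nat_lit 1271250], [nat_lit 77, nat_lit 40, nat_lit 20, nat_lit 80, nat_lit 17, nat_lit 345, nat_lit 125, nat_lit 10]⟩,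
 zbF0, []⟩
noncomputable def p001_l187 : Lf2 := ⟨nat_lit 2, nat_lit 1, [nat_lit 19, nat_lit 5, nat_lit 5, nat_lit 20], false, nat_lit 0, nat_lit 0, nat_lit 0, nat_lit 0, zbN0,
 nat_lit 0, nat_lit 0, nat_lit 0, nat_lit 0, nat_lit 0, nat_lit 0, nat_lit 0, nat_lit 0, nat_lit 0, nat_lit 0, nat_lit 0, nat_lit 0, nat_lit 0, nat_lit 0, nat_lit 0, nat_lit 0, nat_lit 0, nat_lit 0, [],
 ⟨p001_k72, nat_lit 0, nat_lit 0, nat_lit 0, nat_lit 0, nat_lit 109976, [], [], [], nat_lit 1271250, nat_lit 1271250, nat_lit 780000, nat_lit 1100001, nat_lit 0, nat_lit 0, [nat_lit 631250, nat_lit 1431250, nat_lit 1271250], [nat_lit 194, nat_lit 40, nat_lit 20, nat_lit 40]⟩, C1.Rw.none,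
 zbF0, []⟩
noncomputable def p001_l188 : Lf2 := ⟨nat_lit 0, nat_lit 1, [nat_lit 19, nat_lit 5, nat_lit 5, nat_lit 20], false, nat_lit 0, nat_lit 0, nat_lit 0, nat_lit 0, ⟨nat_lit 1000, nat_lit 0, nat_lit 0, nat_lit 0, nat_lit 0, nat_lit 0, nat_lit 0, nat_lit 0, nat_lit 0, nat_lit 0, nat_lit 0, nat_lit 0, nat_lit 0, nat_lit 0, nat_lit 0, nat_lit 0, false, false⟩,
 nat_lit 21989, nat_lit 0, nat_lit 0, nat_lit 0, nat_lit 4721, nat_lit 8362, nat_lit 0, nat_lit 0, nat_lit 0, nat_lit 0, nat_lit 0, nat_lit 0, nat_lit 0, nat_lit 0, nat_lit 0, nat_lit 0, nat_lit 0, nat_lit 0, [],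
 ⟨p001_k36, nat_lit 0, nat_lit 0, nat_lit 0, nat_lit 0, nat_lit 109976, [nat_lit 6250000000, nat_lit 7968000000], [], [nat_lit 34701716444, nat_lit 33449172960, nat_lit 35086281932, nat_lit 35689128684], nat_lit 1271250, nat_lit 1271250, nat_lit 1100001, nat_lit 1785000, nat_lit 0, nat_lit 0, [nat_lit 1412500, nat_lit 1271250], [nat_lit 26, nat_lit 40, nat_lit 20, nat_lit 40]⟩, ⟨p001_k10, nat_lit 0, nat_lit 0, nat_lit 0, nat_lit 0, nat_lit 124206, [nat_lit 7089500000, nat_lit 8885500000], [], [nat_lit 33724002132, nat_lit 31546629314, nat_lit 42166418336, nat_lit 40052655252], nat_lit 1271250, nat_lit 1271250, nat_lit 1100001, nat_lit 1785000, nat_lit 0, nat_lit 0, [nat_lit 1553750, nat_lit 1271250], [nat_lit 162, nat_lit 40, nat_lit 20, nat_lit 40]⟩,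
 zbF0, []⟩
noncomputable def p001_l189 : Lf2 := ⟨nat_lit 3, nat_lit 1, [nat_lit 19, nat_lit 5, nat_lit 5, nat_lit 20], false, nat_lit 0, nat_lit 0, nat_lit 0, nat_lit 0, zbN0,
 nat_lit 0, nat_lit 0, nat_lit 0, nat_lit 0, nat_lit 0, nat_lit 0, nat_lit 0, nat_lit 0, nat_lit 0, nat_lit 0, nat_lit 0, nat_lit 0, nat_lit 0, nat_lit 0, nat_lit 0, nat_lit 0, nat_lit 0, nat_lit 0, [],
 C1.Rw.none, ⟨p001_k73, nat_lit 0, nat_lit 0, nat_lit 229, nat_lit 0, nat_lit 124206, [], [], [], nat_lit 1271250, nat_lit 1271250, nat_lit 1100001, nat_lit 1785000, nat_lit 0, nat_lit 0, [nat_lit 1695000, nat_lit 1271250], [nat_lit 77, nat_lit 40, nat_lit 20, nat_lit 80, nat_lit 17, nat_lit 345, nat_lit 125, nat_lit 10]⟩,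
 zbF0, []⟩
noncomputable def p001_l190 : Lf2 := ⟨nat_lit 2, nat_lit 1, [nat_lit 19, nat_lit 5, nat_lit 5, nat_lit 20], false, nat_lit 0, nat_lit 0, nat_lit 0, nat_lit 0, zbN0,
 nat_lit 0, nat_lit 0, nat_lit 0, nat_lit 0, nat_lit 0, nat_lit 0, nat_lit 0, nat_lit 0, nat_lit 0, nat_lit 0, nat_lit 0, nat_lit 0, nat_lit 0, nat_lit 0, nat_lit 0, nat_lit 0, nat_lit 0, nat_lit 0, [],
 ⟨p001_k72, nat_lit 0, nat_lit 0, nat_lit 0, nat_lit 0, nat_lit 97277, [], [], [], nat_lit 1271250, nat_lit 1271250, nat_lit 780000, nat_lit 1100001, nat_lit 0, nat_lit 0, [nat_lit 631250, nat_lit 1431250, nat_lit 1271250], [nat_lit 194, nat_lit 40, nat_lit 20, nat_lit 40]⟩, C1.Rw.none,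
 zbF0, []⟩
noncomputable def p001_l191 : Lf2 := ⟨nat_lit 0, nat_lit 1, [nat_lit 19, nat_lit 5, nat_lit 5, nat_lit 20], false, nat_lit 0, nat_lit 0, nat_lit 0, nat_lit 0, ⟨nat_lit 1000, nat_lit 0, nat_lit 0, nat_lit 0, nat_lit 0, nat_lit 0, nat_lit 0, nat_lit 0, nat_lit 0, nat_lit 0, nat_lit 0, nat_lit 0, nat_lit 0, nat_lit 0, nat_lit 0, nat_lit 0, false, false⟩,
 nat_lit 8088, nat_lit 1330, nat_lit 0, nat_lit 0, nat_lit 4036, nat_lit 3269, nat_lit 0, nat_lit 0, nat_lit 0, nat_lit 0, nat_lit 0, nat_lit 0, nat_lit 0, nat_lit 0, nat_lit 0, nat_lit 0, nat_lit 0, nat_lit 0, [],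
 ⟨p001_k72, nat_lit 0, nat_lit 0, nat_lit 0, nat_lit 0, nat_lit 97277, [nat_lit 2637500000, nat_lit 6250000000, nat_lit 7968000000], [], [nat_lit 34382484960, nat_lit 33369650760, nat_lit 40136323600, nat_lit 39152011812], nat_lit 1271250, nat_lit 1271250, nat_lit 1100001, nat_lit 1785000, nat_lit 0, nat_lit 0, [nat_lit 631250, nat_lit 1431250, nat_lit 1271250], [nat_lit 194, nat_lit 40, nat_lit 20, nat_lit 40]⟩, ⟨p001_k15, nat_lit 0, nat_lit 0, nat_lit 222, nat_lit 0, nat_lit 103232, [nat_lit 7968000000, nat_lit 9842000000], [], [nat_lit 36342571525, nat_lit 35503978224, nat_lit 41452298315, nat_lit 40637849848], nat_lit 1271250, nat_lit 1271250, nat_lit 1100001, nat_lit 1785000, nat_lit 0, nat_lit 0, [nat_lit 1695000, nat_lit 1271250], [nat_lit 77, nat_lit 40, nat_lit 20, nat_lit 80, nat_lit 17, nat_lit 345, nat_lit 125, nat_lit 10]⟩,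
 zbF0, []⟩
noncomputable def p001_l192 : Lf2 := ⟨nat_lit 2, nat_lit 1, [nat_lit 19, nat_lit 5, nat_lit 5, nat_lit 20], false, nat_lit 0, nat_lit 0, nat_lit 0, nat_lit 0, zbN0,
 nat_lit 0, nat_lit 0, nat_lit 0, nat_lit 0, nat_lit 0, nat_lit 0, nat_lit 0, nat_lit 0, nat_lit 0, nat_lit 0, nat_lit 0, nat_lit 0, nat_lit 0, nat_lit 0, nat_lit 0, nat_lit 0, nat_lit 0, nat_lit 0, [],
 ⟨p001_k74, nat_lit 0, nat_lit 0, nat_lit 0, nat_lit 0, nat_lit 134264, [], [], [], nat_lit 1271250, nat_lit 1271250, nat_lit 780000, nat_lit 1100001, nat_lit 0, nat_lit 0, [nat_lit 631250, nat_lit 1431250, nat_lit 1271250], [nat_lit 194, nat_lit 40, nat_lit 20, nat_lit 40]⟩, C1.Rw.none,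
 zbF0, []⟩
noncomputable def p001_l193 : Lf2 := ⟨nat_lit 0, nat_lit 1, [nat_lit 19, nat_lit 5, nat_lit 5, nat_lit 20], false, nat_lit 0, nat_lit 0, nat_lit 0, nat_lit 0, ⟨nat_lit 1000, nat_lit 0, nat_lit 0, nat_lit 0, nat_lit 0, nat_lit 0, nat_lit 0, nat_lit 0, nat_lit 0, nat_lit 0, nat_lit 0, nat_lit 0, nat_lit 0, nat_lit 0, nat_lit 0, nat_lit 0, false, false⟩,
 nat_lit 7275, nat_lit 1712, nat_lit 0, nat_lit 0, nat_lit 4073, nat_lit 2940, nat_lit 0, nat_lit 0, nat_lit 0, nat_lit 0, nat_lit 0, nat_lit 0, nat_lit 0, nat_lit 0, nat_lit 0, nat_lit 0, nat_lit 0, nat_lit 0, [],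
 ⟨p001_k74, nat_lit 0, nat_lit 0, nat_lit 0, nat_lit 0, nat_lit 134264, [nat_lit 2637500000, nat_lit 6250000000, nat_lit 7968000000], [], [nat_lit 33339325930, nat_lit 32317206580, nat_lit 39149577841, nat_lit 38156242382], nat_lit 1271250, nat_lit 1271250, nat_lit 1100001, nat_lit 1785000, nat_lit 0, nat_lit 0, [nat_lit 631250, nat_lit 1431250, nat_lit 1271250], [nat_lit 194, nat_lit 40, nat_lit 20, nat_lit 40]⟩, ⟨p001_k15, nat_lit 0, nat_lit 0, nat_lit 226, nat_lit 0, nat_lit 150821, [nat_lit 7968000000, nat_lit 9842000000], [], [nat_lit 36414877500, nat_lit 35779867200, nat_lit 41286108900, nat_lit 40553628480], nat_lit 1271250, nat_lit 1271250, nat_lit 1100001, nat_lit 1785000, nat_lit 0, nat_lit 0, [nat_lit 1695000, nat_lit 1271250], [nat_lit 77, nat_lit 40, nat_lit 20, nat_lit 80, nat_lit 17, nat_lit 345, nat_lit 125, nat_lit 10]⟩,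
 zbF0, []⟩
noncomputable def p001_l194 : Lf2 := ⟨nat_lit 2, nat_lit 2, [nat_lit 10, nat_lit 5, nat_lit 5, nat_lit 20], false, nat_lit 0, nat_lit 0, nat_lit 0, nat_lit 0, zbN0,
 nat_lit 0, nat_lit 0, nat_lit 0, nat_lit 0, nat_lit 0, nat_lit 0, nat_lit 0, nat_lit 0, nat_lit 0, nat_lit 0, nat_lit 0, nat_lit 0, nat_lit 0, nat_lit 0, nat_lit 0, nat_lit 0, nat_lit 0, nat_lit 0, [],
 ⟨p001_k71, nat_lit 0, nat_lit 0, nat_lit 0, nat_lit 0, nat_lit 87711, [], [], [], nat_lit 1271250, nat_lit 1271250, nat_lit 780000, nat_lit 1100001, nat_lit 0, nat_lit 0, [nat_lit 631250, nat_lit 1431250, nat_lit 1271250, nat_lit 1271250], [nat_lit 151, nat_lit 40, nat_lit 20, nat_lit 40]⟩, C1.Rw.none,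
 zbF0, []⟩
noncomputable def p001_l195 : Lf2 := ⟨nat_lit 0, nat_lit 2, [nat_lit 10, nat_lit 5, nat_lit 5, nat_lit 20], false, nat_lit 0, nat_lit 0, nat_lit 0, nat_lit 0, ⟨nat_lit 1000, nat_lit 0, nat_lit 0, nat_lit 0, nat_lit 0, nat_lit 0, nat_lit 0, nat_lit 0, nat_lit 0, nat_lit 0, nat_lit 0, nat_lit 0, nat_lit 0, nat_lit 0, nat_lit 0, nat_lit 0, false, false⟩,
 nat_lit 6649, nat_lit 2944, nat_lit 0, nat_lit 18412, nat_lit 4111, nat_lit 2528, nat_lit 0, nat_lit 0, nat_lit 0, nat_lit 0, nat_lit 0, nat_lit 0, nat_lit 0, nat_lit 0, nat_lit 0, nat_lit 0, nat_lit 0, nat_lit 0, [],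
 ⟨p001_k71, nat_lit 0, nat_lit 0, nat_lit 0, nat_lit 0, nat_lit 87711, [nat_lit 2637500000, nat_lit 6250000000, nat_lit 7968000001, nat_lit 8885500000], [], [nat_lit 34417234404, nat_lit 32276526060, nat_lit 40149681100, nat_lit 38144475074], nat_lit 1271250, nat_lit 1271250, nat_lit 1100001, nat_lit 1785000, nat_lit 0, nat_lit 0, [nat_lit 631250, nat_lit 1431250, nat_lit 1271250, nat_lit 1271250], [nat_lit 151, nat_lit 40, nat_lit 20, nat_lit 40]⟩, ⟨p001_k22, nat_lit 0, nat_lit 0, nat_lit 227, nat_lit 0, nat_lit 99262, [nat_lit 7968000000, nat_lit 9842000000], [], [nat_lit 37153930112, nat_lit 36265335040, nat_lit 41707826784, nat_lit 40448159776], nat_lit 1271250, nat_lit 1271250, nat_lit 1100001, nat_lit 1785000, nat_lit 0, nat_lit 0, [nat_lit 1695000, nat_lit 1271250], [nat_lit 77, nat_lit 40, nat_lit 20, nat_lit 80, nat_lit 17, nat_lit 345, nat_lit 125, nat_lit 10]⟩,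
 zbF0, []⟩
noncomputable def p001_l196 : Lf2 := ⟨nat_lit 0, nat_lit 2, [nat_lit 10, nat_lit 5, nat_lit 5, nat_lit 20], false, nat_lit 0, nat_lit 0, nat_lit 0, nat_lit 0, ⟨nat_lit 1000, nat_lit 0, nat_lit 0, nat_lit 0, nat_lit 0, nat_lit 0, nat_lit 0, nat_lit 0, nat_lit 0, nat_lit 0, nat_lit 0, nat_lit 0, nat_lit 0, nat_lit 0, nat_lit 0, nat_lit 0, false, false⟩,
 nat_lit 100000, nat_lit 100000, nat_lit 100000, nat_lit 100000, nat_lit 85714, nat_lit 76056, nat_lit 60000, nat_lit 11153, nat_lit 0, nat_lit 60000, nat_lit 0, nat_lit 0, nat_lit 0, nat_lit 0, nat_lit 0, nat_lit 0, nat_lit 0, nat_lit 672100640, [],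
 ⟨p001_k33, nat_lit 0, nat_lit 0, nat_lit 241, nat_lit 0, nat_lit 145296, [nat_lit 229310000000, nat_lit 275640000001, nat_lit 322126000000], [], [nat_lit 609234433760, nat_lit 566600429617, nat_lit 567105044089, nat_lit 569660794057], nat_lit 1271250, nat_lit 1271250, nat_lit 780000, nat_lit 1762500, nat_lit 0, nat_lit 0, [nat_lit 1412500, nat_lit 1271250, nat_lit 1271250], [nat_lit 25, nat_lit 40, nat_lit 20, nat_lit 80, nat_lit 17, nat_lit 345, nat_lit 125, nat_lit 10]⟩, ⟨p001_k22, nat_lit 0, nat_lit 0, nat_lit 252, nat_lit 0, nat_lit 164430, [nat_lit 7968000000, nat_lit 9842000000], [], [nat_lit 32469601456, nat_lit 0, nat_lit 90905440208, nat_lit 53007800192], nat_lit 1271250, nat_lit 1271250, nat_lit 780000, nat_lit 1762500, nat_lit 0, nat_lit 0, [nat_lit 1695000, nat_lit 1271250], [nat_lit 77, nat_lit 40, nat_lit 20, nat_lit 80, nat_lit 17, nat_lit 345, nat_lit 125, nat_lit 10]⟩,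
 zbF0, []⟩
noncomputable def p001_l197 : Lf2 := ⟨nat_lit 0, nat_lit 4, [nat_lit 38, nat_lit 5, nat_lit 5, nat_lit 20], false, nat_lit 0, nat_lit 0, nat_lit 0, nat_lit 0, ⟨nat_lit 1000, nat_lit 0, nat_lit 0, nat_lit 0, nat_lit 0, nat_lit 0, nat_lit 0, nat_lit 0, nat_lit 0, nat_lit 0, nat_lit 0, nat_lit 0, nat_lit 0, nat_lit 0, nat_lit 0, nat_lit 0, false, false⟩,
 nat_lit 37271, nat_lit 0, nat_lit 0, nat_lit 68120, nat_lit 4296, nat_lit 14173, nat_lit 0, nat_lit 0, nat_lit 0, nat_lit 171, nat_lit 0, nat_lit 0, nat_lit 0, nat_lit 0, nat_lit 0, nat_lit 0, nat_lit 0, nat_lit 0, [],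
 ⟨p001_k55, nat_lit 0, nat_lit 0, nat_lit 230, nat_lit 0, nat_lit 7235, [nat_lit 6250000000, nat_lit 7968000001, nat_lit 9842000000], [], [nat_lit 39046428640, nat_lit 36774970192, nat_lit 36040112833, nat_lit 36632711985], nat_lit 1271250, nat_lit 1271250, nat_lit 780000, nat_lit 1762500, nat_lit 0, nat_lit 0, [nat_lit 1412500, nat_lit 1271250, nat_lit 1271250], [nat_lit 25, nat_lit 40, nat_lit 20, nat_lit 80, nat_lit 17, nat_lit 345, nat_lit 125, nat_lit 10]⟩, ⟨p001_k56, nat_lit 0, nat_lit 0, nat_lit 240, nat_lit 0, nat_lit 8383, [nat_lit 7968000000, nat_lit 9842000000, nat_lit 11872000000], [], [nat_lit 32812987378, nat_lit 29122928018, nat_lit 49125824094, nat_lit 45594720355], nat_lit 1271250, nat_lit 1271250, nat_lit 780000, nat_lit 1762500, nat_lit 0, nat_lit 0, [nat_lit 1695000, nat_lit 1271250, nat_lit 1271250], [nat_lit 106, nat_lit 40, nat_lit 20, nat_lit 80, nat_lit 41, nat_lit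 345, nat_lit 125, nat_lit 9]⟩,
 zbF0, []⟩
noncomputable def p001_l198 : Lf2 := ⟨nat_lit 0, nat_lit 4, [nat_lit 38, nat_lit 5, nat_lit 5, nat_lit 20], false, nat_lit 0, nat_lit 0, nat_lit 0, nat_lit 0, ⟨nat_lit 1000, nat_lit 0, nat_lit 0, nat_lit 0, nat_lit 0, nat_lit 0, nat_lit 0, nat_lit 0, nat_lit 0, nat_lit 0, nat_lit 0, nat_lit 0, nat_lit 0, nat_lit 0, nat_lit 0, nat_lit 0, false, false⟩,
 nat_lit 34511, nat_lit 0, nat_lit 0, nat_lit 0, nat_lit 4235, nat_lit 13951, nat_lit 0, nat_lit 0, nat_lit 0, nat_lit 522, nat_lit 0, nat_lit 0, nat_lit 0, nat_lit 0, nat_lit 0, nat_lit 0, nat_lit 0, nat_lit 0, [],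
 ⟨p001_k55, nat_lit 0, nat_lit 0, nat_lit 233, nat_lit 0, nat_lit 40291, [nat_lit 6250000000, nat_lit 7968000001, nat_lit 9842000000], [], [nat_lit 38953474400, nat_lit 36714268970, nat_lit 36177015621, nat_lit 36768143941], nat_lit 1271250, nat_lit 1271250, nat_lit 780000, nat_lit 1762500, nat_lit 0, nat_lit 0, [nat_lit 1412500, nat_lit 1271250, nat_lit 1271250], [nat_lit 25, nat_lit 40, nat_lit 20, nat_lit 80, nat_lit 17, nat_lit 345, nat_lit 125, nat_lit 10]⟩, ⟨p001_k75, nat_lit 0, nat_lit 0, nat_lit 238, nat_lit 0, nat_lit 42876, [nat_lit 7968000000, nat_lit 9842000000, nat_lit 11872000000], [], [nat_lit 29226790347, nat_lit 28408129618, nat_lit 45502560385, nat_lit 42026766392], nat_lit 1271250, nat_lit 1271250, nat_lit 780000, nat_lit 1762500, nat_lit 0, nat_lit 0, [nat_lit 1695000, nat_lit 1271250, nat_lit 1271250], [nat_lit 106, nat_lit 40, nat_lit 20, nat_lit 80, nat_lit 41, nat_lit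 345, nat_lit 125, nat_lit 9]⟩,
 zbF0, []⟩
noncomputable def p001_l199 : Lf2 := ⟨nat_lit 0, nat_lit 4, [nat_lit 38, nat_lit 5, nat_lit 5, nat_lit 20], false, nat_lit 0, nat_lit 0, nat_lit 0, nat_lit 0, ⟨nat_lit 1000, nat_lit 0, nat_lit 0, nat_lit 0, nat_lit 0, nat_lit 0, nat_lit 0, nat_lit 0, nat_lit 0, nat_lit 0, nat_lit 0, nat_lit 0, nat_lit 0, nat_lit 0, nat_lit 0, nat_lit 0, false, false⟩,
 nat_lit 26563, nat_lit 0, nat_lit 0, nat_lit 0, nat_lit 10742, nat_lit 10101, nat_lit 0, nat_lit 0, nat_lit 0, nat_lit 2080, nat_lit 0, nat_lit 0, nat_lit 0, nat_lit 0, nat_lit 0, nat_lit 0, nat_lit 0, nat_lit 0, [],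
 ⟨p001_k55, nat_lit 0, nat_lit 0, nat_lit 285, nat_lit 0, nat_lit 103798, [nat_lit 6250000000, nat_lit 7968000001, nat_lit 9842000000], [], [nat_lit 29443603385, nat_lit 29828107167, nat_lit 44431147096, nat_lit 44620899060], nat_lit 1271250, nat_lit 1271250, nat_lit 1271250, nat_lit 1271250, nat_lit 0, nat_lit 0, [nat_lit 1412500, nat_lit 1271250, nat_lit 1271250], [nat_lit 25, nat_lit 40, nat_lit 20, nat_lit 80, nat_lit 17, nat_lit 401, nat_lit 175, nat_lit 11]⟩, ⟨p001_k56, nat_lit 0, nat_lit 0, nat_lit 345, nat_lit 0, nat_lit 117914, [nat_lit 7968000000, nat_lit 9842000000, nat_lit 11872000000], [], [nat_lit 32734419498, nat_lit 32735655252, nat_lit 42774578034, nat_lit 42672188924], nat_lit 1271250, nat_lit 1271250, nat_lit 1271250, nat_lit 1271250, nat_lit 0, nat_lit 0, [nat_lit 1695000, nat_lit 1271250, nat_lit 1271250], [nat_lit 106, nat_lit 40, nat_lit 20, nat_lit 80, nat_lit 41,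 nat_lit 373, nat_lit 150, nat_lit 10]⟩,
 zbF0, [⟨nat_lit 13, nat_lit 100, nat_lit 7, nat_lit 100, nat_lit 167375428⟩]⟩
noncomputable def p001_l200 : Lf2 := ⟨nat_lit 0, nat_lit 4, [nat_lit 38, nat_lit 5, nat_lit 5, nat_lit 20], false, nat_lit 0, nat_lit 0, nat_lit 0, nat_lit 0, ⟨nat_lit 882, nat_lit 0, nat_lit 118, nat_lit 6, nat_lit 300, nat_lit 0, nat_lit 0, nat_lit 0, nat_lit 0, nat_lit 215, nat_lit 610372, nat_lit 200, nat_lit 42849838, nat_lit 0, nat_lit 0, nat_lit 3268383, true, true⟩,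
 nat_lit 20981, nat_lit 0, nat_lit 0, nat_lit 0, nat_lit 8420, nat_lit 7978, nat_lit 649, nat_lit 0, nat_lit 0, nat_lit 3418, nat_lit 0, nat_lit 0, nat_lit 0, nat_lit 0, nat_lit 0, nat_lit 23600, nat_lit 0, nat_lit 0, [(nat_lit 0, [(nat_lit 3, nat_lit 118)])],
 ⟨p001_k66, nat_lit 0, nat_lit 0, nat_lit 298, nat_lit 0, nat_lit 142905, [nat_lit 8747116000, nat_lit 6967784800, nat_lit 8542772800], [], [nat_lit 33321504285, nat_lit 33615737565, nat_lit 42077684445, nat_lit 42189158720], nat_lit 1271250, nat_lit 1271250, nat_lit 1271250, nat_lit 1271250, nat_lit 0, nat_lit 0, [nat_lit 1412500, nat_lit 1271250, nat_lit 1271250], [nat_lit 25, nat_lit 40, nat_lit 20, nat_lit 80, nat_lit 17, nat_lit 401, nat_lit 175, nat_lit 11]⟩, ⟨p001_k56, nat_lit 0, nat_lit 0, nat_lit 366, nat_lit 0, nat_lit 172272, [nat_lit 7027776000, nat_lit 8680644000, nat_lit 10471104000], [], [nat_lit 27985487944, nat_lit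 28095708064, nat_lit 35388209692, nat_lit 35331718448], nat_lit 1271250, nat_lit 1271250, nat_lit 1271250, nat_lit 1271250, nat_lit 0, nat_lit 0, [nat_lit 1695000, nat_lit 1271250, nat_lit 1271250], [nat_lit 106, nat_lit 40, nat_lit 20, nat_lit 80, nat_lit 41, nat_lit 373, nat_lit 150, nat_lit 10]⟩,
 ⟨nat_lit 6708, nat_lit 6893, ⟨.ofNat (nat_lit 566675), .ofNat (nat_lit 919324), .ofNat (nat_lit 588162), .ofNat (nat_lit 940811), .ofNat (nat_lit 564710), .ofNat (nat_lit 909299), .ofNat (nat_lit 586147), .ofNat (nat_lit 930735)⟩, ⟨.ofNat (nat_lit 0), .ofNat (nat_lit 0), .ofNat (nat_lit 0), .ofNat (nat_lit 0), .ofNat (nat_lit 0), .ofNat (nat_lit 0), .ofNat (nat_lit 0), .ofNat (nat_lit 0)⟩⟩, []⟩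
noncomputable def b_NL_500_450_0_2 : St := ⟨false, nat_lit 1, nat_lit 1, nat_lit 1, nat_lit 20, nat_lit 200, nat_lit 220, nat_lit 180, nat_lit 200, nat_lit 0, nat_lit 400, nat_lit 0, nat_lit 0, nat_lit 0, nat_lit 0, nat_lit 0, nat_lit 0, nat_lit 0, nat_lit 16, nat_lit 0, nat_lit 0, nat_lit 0, nat_lit 0⟩
theorem d_NL_500_450_0_2 (h : EB TB.env) : Dead b_NL_500_450_0_2 := chkB_sound0 h (T :=
(.spl (nat_lit 2) (nat_lit 120)
(.spl (nat_lit 2) (nat_lit 80)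
(.spl (nat_lit 0) (nat_lit 210)
(.leaf p001_l165)
(.spl (nat_lit 0) (nat_lit 215)
(.leaf p001_l166)
(.spl (nat_lit 6) (nat_lit 8)
(.spl (nat_lit 0) (nat_lit 218)
(.leaf p001_l167)
(.spl (nat_lit 2) (nat_lit 40)
(.spl (nat_lit 6) (nat_lit 4)
(.spl (nat_lit 0) (nat_lit 219)
(.leaf p001_l168)
(.spl (nat_lit 2) (nat_lit 20)
(.spl (nat_lit 2) (nat_lit 8)
(.spl (nat_lit 2) (nat_lit 4)
(.spl (nat_lit 1) (nat_lit 190)
(.leaf p001_l169)
(.spl (nat_lit 1) (nat_lit 195)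
(.leaf p001_l170)
(.spl (nat_lit 1) (nat_lit 198)
(.leaf p001_l171)
(.spl (nat_lit 1) (nat_lit 199)
(.leaf p001_l172)
(.spl (nat_lit 8) (nat_lit 800)
(.spl (nat_lit 7) (nat_lit 600)
(.leaf p001_l173)
(.leaf p001_l174))
(.leaf p001_l175))))))
(.leaf p001_l176))
(.leaf p001_l177))
(.leaf p001_l178)))
(.leaf p001_l179))
(.leaf p001_l180)))
(.leaf p001_l181))))
(.spl (nat_lit 0) (nat_lit 210)
(.spl (nat_lit 6) (nat_lit 8)
(.spl (nat_lit 0) (nat_lit 205)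
(.leaf p001_l182)
(.leaf p001_l183))
(.leaf p001_l184))
(.leaf p001_l185)))
(.spl (nat_lit 2) (nat_lit 240)
(.spl (nat_lit 6) (nat_lit 8)
(.spl (nat_lit 7) (nat_lit 600)
(.spl (nat_lit 7) (nat_lit 300)
(.leaf p001_l186)
(.spl (nat_lit 6) (nat_lit 4)
(.spl (nat_lit 1) (nat_lit 190)
(.spl (nat_lit 2) (nat_lit 160)
(.leaf p001_l187)
(.spl (nat_lit 8) (nat_lit 800)
(.leaf p001_l188)
(.leaf p001_l189)))
(.spl (nat_lit 0) (nat_lit 210)
(.spl (nat_lit 2) (nat_lit 160)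
(.leaf p001_l190)
(.leaf p001_l191))
(.spl (nat_lit 2) (nat_lit 160)
(.leaf p001_l192)
(.leaf p001_l193))))
(.spl (nat_lit 2) (nat_lit 160)
(.leaf p001_l194)
(.leaf p001_l195))))
(.leaf p001_l196))
(.spl (nat_lit 1) (nat_lit 190)
(.leaf p001_l197)
(.leaf p001_l198)))
(.spl (nat_lit 0) (nat_lit 210)
(.leaf p001_l199)
(.leaf p001_l200))))) (by decide +kernel)
noncomputable def p001_l201 : Lf2 := ⟨nat_lit 0, nat_lit 4, [nat_lit 38, nat_lit 5, nat_lit 5, nat_lit 20], true, nat_lit 0, nat_lit 0, nat_lit 0, nat_lit 0, ⟨nat_lit 0, nat_lit 1000, nat_lit 0, nat_lit 4, nat_lit 72, nat_lit 0, nat_lit 0, nat_lit 0, nat_lit 0, nat_lit 0, nat_lit 0, nat_lit 0, nat_lit 0, nat_lit 0, nat_lit 0, nat_lit 5000000, false, false⟩,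
 nat_lit 0, nat_lit 11814, nat_lit 0, nat_lit 0, nat_lit 5063, nat_lit 0, nat_lit 293, nat_lit 0, nat_lit 0, nat_lit 0, nat_lit 0, nat_lit 0, nat_lit 0, nat_lit 0, nat_lit 0, nat_lit 1000000, nat_lit 0, nat_lit 0, [(nat_lit 0, [(nat_lit 2, nat_lit 1000)])],
 ⟨p001_k55, nat_lit 0, nat_lit 0, nat_lit 459, nat_lit 0, nat_lit 310441, [nat_lit 3255555556, nat_lit 3535600001, nat_lit 2605200000], [], [nat_lit 28999118213, nat_lit 29488073819, nat_lit 31108076164, nat_lit 28621019178], nat_lit 1271250, nat_lit 1271250, nat_lit 0, nat_lit 780000, nat_lit 0, nat_lit 0, [nat_lit 1412500, nat_lit 1271250, nat_lit 1271250], [nat_lit 25, nat_lit 40, nat_lit 20, nat_lit 80, nat_lit 17, nat_lit 317, nat_lit 100, nat_lit 10]⟩, C1.Rw.none,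
 ⟨nat_lit 6708, nat_lit 7072, ⟨.ofNat (nat_lit 27265), .ofNat (nat_lit 297976), .ofNat (nat_lit 48814), .ofNat (nat_lit 319525), .ofNat (nat_lit 47782), .ofNat (nat_lit 306249), .ofNat (nat_lit 69221), .ofNat (nat_lit 327688)⟩, ⟨.ofNat (nat_lit 0), .ofNat (nat_lit 0), .ofNat (nat_lit 0), .ofNat (nat_lit 0), .ofNat (nat_lit 0), .ofNat (nat_lit 0), .ofNat (nat_lit 0), .ofNat (nat_lit 0)⟩⟩, []⟩
noncomputable def p001_l202 : Lf2 := ⟨nat_lit 0, nat_lit 4, [nat_lit 38, nat_lit 5, nat_lit 5, nat_lit 20], false, nat_lit 0, nat_lit 0, nat_lit 0, nat_lit 0, ⟨nat_lit 458, nat_lit 542, nat_lit 0, nat_lit 4, nat_lit 249, nat_lit 0, nat_lit 0, nat_lit 0, nat_lit 0, nat_lit 0, nat_lit 0, nat_lit 0, nat_lit 0, nat_lit 0, nat_lit 0, nat_lit 5000000, false, true⟩,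
 nat_lit 0, nat_lit 6677, nat_lit 0, nat_lit 3302, nat_lit 2861, nat_lit 4157, nat_lit 723, nat_lit 0, nat_lit 0, nat_lit 1436, nat_lit 0, nat_lit 0, nat_lit 0, nat_lit 0, nat_lit 0, nat_lit 542000, nat_lit 0, nat_lit 0, [(nat_lit 0, [(nat_lit 2, nat_lit 542)])],
 ⟨p001_k55, nat_lit 0, nat_lit 0, nat_lit 360, nat_lit 0, nat_lit 310441, [nat_lit 4627011112, nat_lit 5565639201, nat_lit 5919654400], [], [nat_lit 33613740464, nat_lit 34187066928, nat_lit 41536823806, nat_lit 41850418216], nat_lit 1271250, nat_lit 1271250, nat_lit 780000, nat_lit 3072500, nat_lit 0, nat_lit 0, [nat_lit 1412500, nat_lit 1271250, nat_lit 1271250], [nat_lit 25, nat_lit 40, nat_lit 20, nat_lit 80, nat_lit 17, nat_lit 401, nat_lit 175, nat_lit 12]⟩, ⟨p001_k56, nat_lit 0, nat_lit 0, nat_lit 276, nat_lit 0, nat_lit 0, [nat_lit 3649344000, nat_lit 4507636000, nat_lit 5437376000], [], [nat_lit 11504986232, nat_lit 11740686700,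 nat_lit 18353141242, nat_lit 18382063112], nat_lit 0, nat_lit 0, nat_lit 0, nat_lit 0, nat_lit 0, nat_lit 0, [], [nat_lit 106, nat_lit 40, nat_lit 20, nat_lit 80, nat_lit 41, nat_lit 373, nat_lit 150, nat_lit 10]⟩,
 ⟨nat_lit 6708, nat_lit 7072, ⟨.ofNat (nat_lit 297976), .ofNat (nat_lit 929471), .ofNat (nat_lit 319525), .ofNat (nat_lit 951013), .ofNat (nat_lit 306249), .ofNat (nat_lit 909174), .ofNat (nat_lit 327688), .ofNat (nat_lit 930606)⟩, ⟨.ofNat (nat_lit 0), .ofNat (nat_lit 0), .ofNat (nat_lit 0), .ofNat (nat_lit 0), .ofNat (nat_lit 0), .ofNat (nat_lit 0), .ofNat (nat_lit 0), .ofNat (nat_lit 0)⟩⟩, []⟩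
noncomputable def p001_l203 : Lf2 := ⟨nat_lit 0, nat_lit 4, [nat_lit 38, nat_lit 5, nat_lit 5, nat_lit 20], true, nat_lit 0, nat_lit 0, nat_lit 0, nat_lit 0, ⟨nat_lit 0, nat_lit 1000, nat_lit 0, nat_lit 4, nat_lit 72, nat_lit 0, nat_lit 0, nat_lit 0, nat_lit 0, nat_lit 0, nat_lit 0, nat_lit 0, nat_lit 0, nat_lit 0, nat_lit 0, nat_lit 5000000, false, false⟩,
 nat_lit 0, nat_lit 14849, nat_lit 0, nat_lit 0, nat_lit 6363, nat_lit 0, nat_lit 0, nat_lit 0, nat_lit 0, nat_lit 0, nat_lit 0, nat_lit 0, nat_lit 0, nat_lit 0, nat_lit 0, nat_lit 1000000, nat_lit 0, nat_lit 0, [(nat_lit 0, [(nat_lit 2, nat_lit 1000)])],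
 ⟨p001_k57, nat_lit 0, nat_lit 0, nat_lit 453, nat_lit 0, nat_lit 310441, [nat_lit 3596666667, nat_lit 2997733333], [], [nat_lit 29113997026, nat_lit 29480638028, nat_lit 31645199097, nat_lit 28519553511], nat_lit 1271250, nat_lit 1271250, nat_lit 0, nat_lit 780000, nat_lit 0, nat_lit 0, [nat_lit 1412500, nat_lit 1271250], [nat_lit 51, nat_lit 40, nat_lit 20, nat_lit 80, nat_lit 1, nat_lit 317, nat_lit 100, nat_lit 10]⟩, C1.Rw.none,
 ⟨nat_lit 6708, nat_lit 7072, ⟨.ofNat (nat_lit 27265), .ofNat (nat_lit 297976), .ofNat (nat_lit 48814), .ofNat (nat_lit 319525), .ofNat (nat_lit 47782), .ofNat (nat_lit 306249), .ofNat (nat_lit 69221), .ofNat (nat_lit 327688)⟩, ⟨.ofNat (nat_lit 0), .ofNat (nat_lit 0), .ofNat (nat_lit 0), .ofNat (nat_lit 0), .ofNat (nat_lit 0), .ofNat (nat_lit 0), .ofNat (nat_lit 0), .ofNat (nat_lit 0)⟩⟩, [⟨nat_lit 0, nat_lit 100, nat_lit 99, nat_lit 10, nat_lit 17444632⟩]⟩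
noncomputable def p001_l204 : Lf2 := ⟨nat_lit 0, nat_lit 4, [nat_lit 38, nat_lit 5, nat_lit 5, nat_lit 20], true, nat_lit 0, nat_lit 0, nat_lit 0, nat_lit 0, ⟨nat_lit 0, nat_lit 1000, nat_lit 0, nat_lit 4, nat_lit 178, nat_lit 0, nat_lit 0, nat_lit 0, nat_lit 0, nat_lit 0, nat_lit 0, nat_lit 0, nat_lit 0, nat_lit 0, nat_lit 0, nat_lit 5000000, false, false⟩,
 nat_lit 0, nat_lit 11426, nat_lit 0, nat_lit 0, nat_lit 4896, nat_lit 0, nat_lit 0, nat_lit 0, nat_lit 0, nat_lit 0, nat_lit 0, nat_lit 0, nat_lit 0, nat_lit 0, nat_lit 0, nat_lit 1000000, nat_lit 0, nat_lit 0, [(nat_lit 0, [(nat_lit 2, nat_lit 1000)])],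
 ⟨p001_k55, nat_lit 0, nat_lit 0, nat_lit 324, nat_lit 0, nat_lit 310441, [nat_lit 3255555556, nat_lit 3535600001, nat_lit 2605200000], [], [nat_lit 33971843752, nat_lit 31383142504, nat_lit 32446170537, nat_lit 30170010345], nat_lit 1271250, nat_lit 1271250, nat_lit 780000, nat_lit 1762500, nat_lit 0, nat_lit 0, [nat_lit 1412500, nat_lit 1271250, nat_lit 1271250], [nat_lit 25, nat_lit 40, nat_lit 20, nat_lit 80, nat_lit 17, nat_lit 345, nat_lit 125, nat_lit 10]⟩, C1.Rw.none,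
 ⟨nat_lit 6708, nat_lit 7072, ⟨.ofNat (nat_lit 297976), .ofNat (nat_lit 568660), .ofNat (nat_lit 319525), .ofNat (nat_lit 590203), .ofNat (nat_lit 306249), .ofNat (nat_lit 564689), .ofNat (nat_lit 327688), .ofNat (nat_lit 586121)⟩, ⟨.ofNat (nat_lit 0), .ofNat (nat_lit 0), .ofNat (nat_lit 0), .ofNat (nat_lit 0), .ofNat (nat_lit 0), .ofNat (nat_lit 0), .ofNat (nat_lit 0), .ofNat (nat_lit 0)⟩⟩, []⟩
noncomputable def p001_l205 : Lf2 := ⟨nat_lit 0, nat_lit 4, [nat_lit 38, nat_lit 5, nat_lit 5, nat_lit 20], false, nat_lit 0, nat_lit 0, nat_lit 0, nat_lit 0, ⟨nat_lit 1000, nat_lit 0, nat_lit 0, nat_lit 0, nat_lit 0, nat_lit 0, nat_lit 0, nat_lit 0, nat_lit 0, nat_lit 0, nat_lit 0, nat_lit 0, nat_lit 0, nat_lit 0, nat_lit 0, nat_lit 0, false, false⟩,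
 nat_lit 25019, nat_lit 0, nat_lit 0, nat_lit 21380, nat_lit 8654, nat_lit 9514, nat_lit 6750, nat_lit 0, nat_lit 0, nat_lit 2368, nat_lit 0, nat_lit 0, nat_lit 0, nat_lit 0, nat_lit 0, nat_lit 0, nat_lit 0, nat_lit 0, [],
 ⟨p001_k55, nat_lit 0, nat_lit 0, nat_lit 302, nat_lit 0, nat_lit 151648, [nat_lit 6250000000, nat_lit 7968000001, nat_lit 9842000000], [], [nat_lit 29372777066, nat_lit 29980027586, nat_lit 39479271002, nat_lit 39787044498], nat_lit 1271250, nat_lit 1271250, nat_lit 1271250, nat_lit 1271250, nat_lit 0, nat_lit 0, [nat_lit 1412500, nat_lit 1271250, nat_lit 1271250], [nat_lit 25, nat_lit 40, nat_lit 20, nat_lit 80, nat_lit 17, nat_lit 401, nat_lit 175, nat_lit 11]⟩, ⟨p001_k56, nat_lit 0, nat_lit 0, nat_lit 366, nat_lit 0, nat_lit 172272, [nat_lit 7968000000, nat_lit 9842000000, nat_lit 11872000000], [], [nat_lit 33295947508, nat_lit 33405889696, nat_lit 41345275476, nat_lit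 41219994776], nat_lit 1271250, nat_lit 1271250, nat_lit 1271250, nat_lit 1271250, nat_lit 0, nat_lit 0, [nat_lit 1695000, nat_lit 1271250, nat_lit 1271250], [nat_lit 106, nat_lit 40, nat_lit 20, nat_lit 80, nat_lit 41, nat_lit 373, nat_lit 150, nat_lit 10]⟩,
 zbF0, []⟩
noncomputable def b_NL_500_450_0_3 : St := ⟨false, nat_lit 1, nat_lit 2, nat_lit 2, nat_lit 20, nat_lit 200, nat_lit 220, nat_lit 180, nat_lit 200, nat_lit 0, nat_lit 400, nat_lit 0, nat_lit 0, nat_lit 0, nat_lit 0, nat_lit 0, nat_lit 0, nat_lit 0, nat_lit 16, nat_lit 0, nat_lit 0, nat_lit 0, nat_lit 0⟩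
theorem d_NL_500_450_0_3 (h : EB TB.env) : Dead b_NL_500_450_0_3 := chkB_sound0 h (T :=
(.st (nat_lit 1)
(.spl (nat_lit 2) (nat_lit 120)
(.leaf p001_l201)
(.leaf p001_l202))
(.spl (nat_lit 2) (nat_lit 120)
(.leaf p001_l203)
(.spl (nat_lit 2) (nat_lit 240)
(.leaf p001_l204)
(.leaf p001_l205))))) (by decide +kernel)
noncomputable def p001_l206 : Lf2 := ⟨nat_lit 0, nat_lit 3, [nat_lit 45, nat_lit 5, nat_lit 5, nat_lit 20], true, nat_lit 0, nat_lit 0, nat_lit 0, nat_lit 0, ⟨nat_lit 0, nat_lit 0, nat_lit 1000, nat_lit 5, nat_lit 77, nat_lit 0, nat_lit 0, nat_lit 0, nat_lit 0, nat_lit 215, nat_lit 56067, nat_lit 273, nat_lit 64589970, nat_lit 0, nat_lit 0, nat_lit 774582, false, false⟩,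
 nat_lit 0, nat_lit 0, nat_lit 0, nat_lit 8368, nat_lit 4649, nat_lit 0, nat_lit 635, nat_lit 0, nat_lit 0, nat_lit 0, nat_lit 0, nat_lit 0, nat_lit 0, nat_lit 4179631037649, nat_lit 90, nat_lit 1000000, nat_lit 0, nat_lit 0, [(nat_lit 0, [(nat_lit 6, nat_lit 1000)])],
 ⟨p001_k76, nat_lit 0, nat_lit 0, nat_lit 291, nat_lit 0, nat_lit 0, [nat_lit 2618000001, nat_lit 1352800000, nat_lit 26400000], [], [nat_lit 13008941198, nat_lit 13487267141, nat_lit 11072846065, nat_lit 11565617978], nat_lit 0, nat_lit 0, nat_lit 0, nat_lit 0, nat_lit 0, nat_lit 0, [], [nat_lit 25, nat_lit 40, nat_lit 20, nat_lit 80, nat_lit 17, nat_lit 317, nat_lit 100, nat_lit 10]⟩, C1.Rw.none,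
 ⟨nat_lit 6892, nat_lit 7072, ⟨.ofNat (nat_lit 48814), .ofNat (nat_lit 319525), .ofNat (nat_lit 59588), .ofNat (nat_lit 330299), .ofNat (nat_lit 59146), .ofNat (nat_lit 323657), .ofNat (nat_lit 69890), .ofNat (nat_lit 334402)⟩, ⟨.ofNat (nat_lit 0), .ofNat (nat_lit 0), .ofNat (nat_lit 0), .ofNat (nat_lit 0), .ofNat (nat_lit 0), .ofNat (nat_lit 0), .ofNat (nat_lit 0), .ofNat (nat_lit 0)⟩⟩, [⟨nat_lit 0, nat_lit 100, nat_lit 100, nat_lit 10, nat_lit 198336289⟩]⟩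
noncomputable def p001_l207 : Lf2 := ⟨nat_lit 1, nat_lit 5, [nat_lit 4, nat_lit 5, nat_lit 5, nat_lit 20], false, nat_lit 0, nat_lit 0, nat_lit 0, nat_lit 0, zbN0,
 nat_lit 0, nat_lit 0, nat_lit 0, nat_lit 0, nat_lit 0, nat_lit 0, nat_lit 0, nat_lit 0, nat_lit 0, nat_lit 0, nat_lit 0, nat_lit 0, nat_lit 0, nat_lit 0, nat_lit 0, nat_lit 0, nat_lit 0, nat_lit 0, [],
 C1.Rw.none, C1.Rw.none,
 zbF0, []⟩
noncomputable def p001_l208 : Lf2 := ⟨nat_lit 0, nat_lit 5, [nat_lit 4, nat_lit 5, nat_lit 5, nat_lit 20], true, nat_lit 0, nat_lit 0, nat_lit 0, nat_lit 0, ⟨nat_lit 0, nat_lit 0, nat_lit 1000, nat_lit 5, nat_lit 45, nat_lit 0, nat_lit 0, nat_lit 0, nat_lit 0, nat_lit 215, nat_lit 19267, nat_lit 249, nat_lit 66146901, nat_lit 0, nat_lit 0, nat_lit 340930, false, false⟩,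
 nat_lit 0, nat_lit 0, nat_lit 0, nat_lit 9173, nat_lit 4602, nat_lit 0, nat_lit 614, nat_lit 0, nat_lit 0, nat_lit 0, nat_lit 0, nat_lit 0, nat_lit 0, nat_lit 21303901290218, nat_lit 90, nat_lit 1000000, nat_lit 0, nat_lit 0, [(nat_lit 0, [(nat_lit 6, nat_lit 1000)])],
 ⟨p001_k77, nat_lit 0, nat_lit 0, nat_lit 292, nat_lit 0, nat_lit 0, [nat_lit 2618000001, nat_lit 1352800000, nat_lit 26400000], [], [nat_lit 13299616489, nat_lit 13537602830, nat_lit 11508018233, nat_lit 11774594381], nat_lit 0, nat_lit 0, nat_lit 0, nat_lit 0, nat_lit 0, nat_lit 0, [], [nat_lit 25, nat_lit 40, nat_lit 20, nat_lit 80, nat_lit 17, nat_lit 289, nat_lit 75, nat_lit 9]⟩, C1.Rw.none,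
 ⟨nat_lit 6800, nat_lit 6893, ⟨.ofNat (nat_lit 59146), .ofNat (nat_lit 147316), .ofNat (nat_lit 75262), .ofNat (nat_lit 163433), .ofNat (nat_lit 64214), .ofNat (nat_lit 151371), .ofNat (nat_lit 80311), .ofNat (nat_lit 167468)⟩, ⟨.ofNat (nat_lit 0), .ofNat (nat_lit 0), .ofNat (nat_lit 0), .ofNat (nat_lit 0), .ofNat (nat_lit 0), .ofNat (nat_lit 0), .ofNat (nat_lit 0), .ofNat (nat_lit 0)⟩⟩, [⟨nat_lit 0, nat_lit 100, nat_lit 100, nat_lit 15, nat_lit 326607177⟩]⟩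
noncomputable def p001_l209 : Lf2 := ⟨nat_lit 0, nat_lit 5, [nat_lit 4, nat_lit 5, nat_lit 5, nat_lit 20], true, nat_lit 0, nat_lit 0, nat_lit 0, nat_lit 0, ⟨nat_lit 0, nat_lit 0, nat_lit 1000, nat_lit 5, nat_lit 48, nat_lit 0, nat_lit 0, nat_lit 0, nat_lit 0, nat_lit 215, nat_lit 21600, nat_lit 251, nat_lit 66067523, nat_lit 0, nat_lit 0, nat_lit 366451, false, false⟩,
 nat_lit 0, nat_lit 0, nat_lit 0, nat_lit 9112, nat_lit 4573, nat_lit 0, nat_lit 602, nat_lit 0, nat_lit 0, nat_lit 0, nat_lit 0, nat_lit 0, nat_lit 0, nat_lit 20891662193188, nat_lit 90, nat_lit 1000000, nat_lit 0, nat_lit 0, [(nat_lit 0, [(nat_lit 6, nat_lit 1000)])],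
 ⟨p001_k78, nat_lit 0, nat_lit 0, nat_lit 293, nat_lit 0, nat_lit 0, [nat_lit 2618000001, nat_lit 1352800000, nat_lit 26400000], [], [nat_lit 13454320085, nat_lit 13597665913, nat_lit 11688996621, nat_lit 11848531253], nat_lit 0, nat_lit 0, nat_lit 0, nat_lit 0, nat_lit 0, nat_lit 0, [], [nat_lit 25, nat_lit 40, nat_lit 20, nat_lit 80, nat_lit 17, nat_lit 289, nat_lit 75, nat_lit 9]⟩, C1.Rw.none,
 ⟨nat_lit 6745, nat_lit 6801, ⟨.ofNat (nat_lit 64214), .ofNat (nat_lit 151371), .ofNat (nat_lit 83530), .ofNat (nat_lit 170687), .ofNat (nat_lit 67226), .ofNat (nat_lit 153780), .ofNat (nat_lit 86528), .ofNat (nat_lit 173083)⟩, ⟨.ofNat (nat_lit 0), .ofNat (nat_lit 0), .ofNat (nat_lit 0), .ofNat (nat_lit 0), .ofNat (nat_lit 0), .ofNat (nat_lit 0), .ofNat (nat_lit 0), .ofNat (nat_lit 0)⟩⟩, [⟨nat_lit 0, nat_lit 100, nat_lit 100, nat_lit 18, nat_lit 325610472⟩]⟩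
noncomputable def p001_l210 : Lf2 := ⟨nat_lit 0, nat_lit 5, [nat_lit 4, nat_lit 5, nat_lit 5, nat_lit 20], true, nat_lit 0, nat_lit 0, nat_lit 0, nat_lit 0, ⟨nat_lit 0, nat_lit 0, nat_lit 1000, nat_lit 5, nat_lit 40, nat_lit 0, nat_lit 0, nat_lit 0, nat_lit 0, nat_lit 215, nat_lit 15000, nat_lit 245, nat_lit 66342856, nat_lit 0, nat_lit 0, nat_lit 275371, false, false⟩,
 nat_lit 0, nat_lit 0, nat_lit 0, nat_lit 9089, nat_lit 4564, nat_lit 0, nat_lit 596, nat_lit 0, nat_lit 0, nat_lit 0, nat_lit 0, nat_lit 0, nat_lit 0, nat_lit 20380435698891, nat_lit 90, nat_lit 1000000, nat_lit 0, nat_lit 0, [(nat_lit 0, [(nat_lit 6, nat_lit 1000)])],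
 ⟨p001_k79, nat_lit 0, nat_lit 0, nat_lit 293, nat_lit 0, nat_lit 0, [nat_lit 2618000001, nat_lit 1352800000, nat_lit 26400000], [], [nat_lit 13541484417, nat_lit 13588940929, nat_lit 12396499781, nat_lit 12450127364], nat_lit 0, nat_lit 0, nat_lit 0, nat_lit 0, nat_lit 0, nat_lit 0, [], [nat_lit 25, nat_lit 40, nat_lit 20, nat_lit 80, nat_lit 17, nat_lit 272, nat_lit 60, nat_lit 8]⟩, C1.Rw.none,
 ⟨nat_lit 6726, nat_lit 6746, ⟨.ofNat (nat_lit 67226), .ofNat (nat_lit 110503), .ofNat (nat_lit 87601), .ofNat (nat_lit 130878), .ofNat (nat_lit 68224), .ofNat (nat_lit 111402), .ofNat (nat_lit 88595), .ofNat (nat_lit 131773)⟩, ⟨.ofNat (nat_lit 0), .ofNat (nat_lit 0), .ofNat (nat_lit 0), .ofNat (nat_lit 0), .ofNat (nat_lit 0), .ofNat (nat_lit 0), .ofNat (nat_lit 0), .ofNat (nat_lit 0)⟩⟩, [⟨nat_lit 0, nat_lit 100, nat_lit 100, nat_lit 19, nat_lit 388889771⟩]⟩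
noncomputable def p001_l211 : Lf2 := ⟨nat_lit 0, nat_lit 5, [nat_lit 4, nat_lit 5, nat_lit 5, nat_lit 20], true, nat_lit 0, nat_lit 0, nat_lit 0, nat_lit 0, ⟨nat_lit 0, nat_lit 0, nat_lit 1000, nat_lit 5, nat_lit 40, nat_lit 0, nat_lit 0, nat_lit 0, nat_lit 0, nat_lit 215, nat_lit 15000, nat_lit 245, nat_lit 66323345, nat_lit 0, nat_lit 0, nat_lit 282080, false, false⟩,
 nat_lit 0, nat_lit 0, nat_lit 0, nat_lit 9060, nat_lit 4554, nat_lit 0, nat_lit 590, nat_lit 0, nat_lit 0, nat_lit 0, nat_lit 0, nat_lit 0, nat_lit 0, nat_lit 20199555026252, nat_lit 90, nat_lit 1000000, nat_lit 0, nat_lit 0, [(nat_lit 0, [(nat_lit 6, nat_lit 1000)])],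
 ⟨p001_k80, nat_lit 0, nat_lit 0, nat_lit 293, nat_lit 0, nat_lit 0, [nat_lit 2618000001, nat_lit 1352800000, nat_lit 26400000], [], [nat_lit 13581344620, nat_lit 13629676213, nat_lit 12440412159, nat_lit 12493991985], nat_lit 0, nat_lit 0, nat_lit 0, nat_lit 0, nat_lit 0, nat_lit 0, [], [nat_lit 25, nat_lit 40, nat_lit 20, nat_lit 80, nat_lit 17, nat_lit 272, nat_lit 60, nat_lit 8]⟩, C1.Rw.none,
 ⟨nat_lit 6708, nat_lit 6727, ⟨.ofNat (nat_lit 68224), .ofNat (nat_lit 111402), .ofNat (nat_lit 89667), .ofNat (nat_lit 132845), .ofNat (nat_lit 69221), .ofNat (nat_lit 112299), .ofNat (nat_lit 90659), .ofNat (nat_lit 133737)⟩, ⟨.ofNat (nat_lit 0), .ofNat (nat_lit 0), .ofNat (nat_lit 0), .ofNat (nat_lit 0), .ofNat (nat_lit 0), .ofNat (nat_lit 0), .ofNat (nat_lit 0), .ofNat (nat_lit 0)⟩⟩, [⟨nat_lit 0, nat_lit 100, nat_lit 100, nat_lit 20, nat_lit 387694422⟩]⟩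
noncomputable def p001_l212 : Lf2 := ⟨nat_lit 0, nat_lit 5, [nat_lit 4, nat_lit 5, nat_lit 5, nat_lit 20], true, nat_lit 0, nat_lit 0, nat_lit 0, nat_lit 0, ⟨nat_lit 0, nat_lit 0, nat_lit 1000, nat_lit 5, nat_lit 57, nat_lit 0, nat_lit 0, nat_lit 0, nat_lit 0, nat_lit 215, nat_lit 30817, nat_lit 258, nat_lit 65644257, nat_lit 0, nat_lit 0, nat_lit 494708, false, false⟩,
 nat_lit 0, nat_lit 0, nat_lit 0, nat_lit 9250, nat_lit 5070, nat_lit 0, nat_lit 846, nat_lit 0, nat_lit 0, nat_lit 0, nat_lit 0, nat_lit 0, nat_lit 0, nat_lit 23297215721323, nat_lit 76, nat_lit 778600, nat_lit 0, nat_lit 0, [(nat_lit 0, [(nat_lit 5, nat_lit 369), (nat_lit 6, nat_lit 631)])],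
 ⟨p001_k79, nat_lit 0, nat_lit 0, nat_lit 211, nat_lit 0, nat_lit 0, [nat_lit 2552758000, nat_lit 1099308400, nat_lit 1628800], [], [nat_lit 12116113643, nat_lit 12214843160, nat_lit 11402112223, nat_lit 11525360180], nat_lit 0, nat_lit 0, nat_lit 0, nat_lit 0, nat_lit 0, nat_lit 0, [], [nat_lit 25, nat_lit 40, nat_lit 20, nat_lit 80, nat_lit 17, nat_lit 289, nat_lit 75, nat_lit 9]⟩, C1.Rw.none,
 ⟨nat_lit 6708, nat_lit 6746, ⟨.ofNat (nat_lit 110503), .ofNat (nat_lit 153780), .ofNat (nat_lit 131950), .ofNat (nat_lit 175228), .ofNat (nat_lit 112299), .ofNat (nat_lit 155377), .ofNat (nat_lit 133737), .ofNat (nat_lit 176815)⟩, ⟨.ofNat (nat_lit 0), .ofNat (nat_lit 0), .ofNat (nat_lit 0), .ofNat (nat_lit 0), .ofNat (nat_lit 0), .ofNat (nat_lit 0), .ofNat (nat_lit 0), .ofNat (nat_lit 0)⟩⟩, []⟩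
noncomputable def p001_l213 : Lf2 := ⟨nat_lit 0, nat_lit 5, [nat_lit 4, nat_lit 5, nat_lit 5, nat_lit 20], true, nat_lit 0, nat_lit 0, nat_lit 0, nat_lit 0, ⟨nat_lit 0, nat_lit 0, nat_lit 1000, nat_lit 5, nat_lit 82, nat_lit 0, nat_lit 0, nat_lit 0, nat_lit 0, nat_lit 215, nat_lit 64067, nat_lit 277, nat_lit 64281171, nat_lit 0, nat_lit 0, nat_lit 848894, false, false⟩,
 nat_lit 0, nat_lit 0, nat_lit 0, nat_lit 9223, nat_lit 5681, nat_lit 0, nat_lit 1220, nat_lit 0, nat_lit 0, nat_lit 0, nat_lit 0, nat_lit 0, nat_lit 0, nat_lit 0, nat_lit 54, nat_lit 400000, nat_lit 0, nat_lit 0, [(nat_lit 0, [(nat_lit 5, nat_lit 1000)])],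
 ⟨p001_k77, nat_lit 0, nat_lit 0, nat_lit 181, nat_lit 0, nat_lit 0, [nat_lit 2480000000, nat_lit 712400000, nat_lit 13600000], [], [nat_lit 11001505478, nat_lit 11513806388, nat_lit 10216950050, nat_lit 10781175692], nat_lit 0, nat_lit 0, nat_lit 0, nat_lit 0, nat_lit 0, nat_lit 0, [], [nat_lit 25, nat_lit 40, nat_lit 20, nat_lit 80, nat_lit 17, nat_lit 289, nat_lit 75, nat_lit 9]⟩, C1.Rw.none,
 ⟨nat_lit 6708, nat_lit 6893, ⟨.ofNat (nat_lit 147316), .ofNat (nat_lit 235487), .ofNat (nat_lit 168805), .ofNat (nat_lit 256975), .ofNat (nat_lit 155377), .ofNat (nat_lit 241532), .ofNat (nat_lit 176815), .ofNat (nat_lit 262970)⟩, ⟨.ofNat (nat_lit 0), .ofNat (nat_lit 0), .ofNat (nat_lit 0), .ofNat (nat_lit 0), .ofNat (nat_lit 0), .ofNat (nat_lit 0), .ofNat (nat_lit 0), .ofNat (nat_lit 0)⟩⟩, []⟩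
noncomputable def p001_l214 : Lf2 := ⟨nat_lit 0, nat_lit 5, [nat_lit 4, nat_lit 5, nat_lit 5, nat_lit 20], true, nat_lit 0, nat_lit 0, nat_lit 0, nat_lit 0, ⟨nat_lit 0, nat_lit 1000, nat_lit 0, nat_lit 5, nat_lit 117, nat_lit 0, nat_lit 0, nat_lit 0, nat_lit 0, nat_lit 0, nat_lit 0, nat_lit 0, nat_lit 61708776, nat_lit 5291224, nat_lit 0, nat_lit 1381271, false, false⟩,
 nat_lit 0, nat_lit 0, nat_lit 0, nat_lit 1917, nat_lit 8912, nat_lit 0, nat_lit 0, nat_lit 0, nat_lit 0, nat_lit 0, nat_lit 0, nat_lit 0, nat_lit 0, nat_lit 0, nat_lit 0, nat_lit 250000, nat_lit 0, nat_lit 0, [(nat_lit 0, [(nat_lit 0, nat_lit 1000)])],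
 ⟨p001_k77, nat_lit 0, nat_lit 0, nat_lit 50, nat_lit 0, nat_lit 0, [nat_lit 3772000000, nat_lit 3631200000, nat_lit 3838400000], [], [nat_lit 8131686832, nat_lit 9184218176, nat_lit 8002000360, nat_lit 9002730352], nat_lit 0, nat_lit 0, nat_lit 0, nat_lit 0, nat_lit 0, nat_lit 0, [], [nat_lit 25, nat_lit 40, nat_lit 20, nat_lit 80, nat_lit 17, nat_lit 317, nat_lit 100, nat_lit 10]⟩, C1.Rw.none,
 ⟨nat_lit 6708, nat_lit 6893, ⟨.ofNat (nat_lit 235487), .ofNat (nat_lit 323657), .ofNat (nat_lit 256975), .ofNat (nat_lit 345146), .ofNat (nat_lit 241532), .ofNat (nat_lit 327688), .ofNat (nat_lit 262970), .ofNat (nat_lit 349126)⟩, ⟨.ofNat (nat_lit 0), .ofNat (nat_lit 0), .ofNat (nat_lit 0), .ofNat (nat_lit 0), .ofNat (nat_lit 0), .ofNat (nat_lit 0), .ofNat (nat_lit 0), .ofNat (nat_lit 0)⟩⟩, []⟩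
noncomputable def p001_l215 : Lf2 := ⟨nat_lit 0, nat_lit 5, [nat_lit 4, nat_lit 5, nat_lit 5, nat_lit 20], false, nat_lit 0, nat_lit 0, nat_lit 0, nat_lit 0, ⟨nat_lit 1000, nat_lit 0, nat_lit 0, nat_lit 0, nat_lit 0, nat_lit 0, nat_lit 0, nat_lit 0, nat_lit 0, nat_lit 0, nat_lit 0, nat_lit 0, nat_lit 0, nat_lit 0, nat_lit 0, nat_lit 0, false, false⟩,
 nat_lit 0, nat_lit 0, nat_lit 0, nat_lit 42536, nat_lit 8245, nat_lit 8487, nat_lit 2308, nat_lit 0, nat_lit 0, nat_lit 3338, nat_lit 0, nat_lit 0, nat_lit 0, nat_lit 0, nat_lit 0, nat_lit 0, nat_lit 0, nat_lit 0, [],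
 ⟨p001_k81, nat_lit 0, nat_lit 0, nat_lit 255, nat_lit 0, nat_lit 0, [nat_lit 6250000000, nat_lit 7968000001, nat_lit 11872000000], [], [nat_lit 23536610300, nat_lit 24459715480, nat_lit 38469216880, nat_lit 38769584621], nat_lit 0, nat_lit 0, nat_lit 0, nat_lit 0, nat_lit 0, nat_lit 0, [], [nat_lit 53, nat_lit 40, nat_lit 20, nat_lit 80, nat_lit 14, nat_lit 401, nat_lit 175, nat_lit 11]⟩, ⟨p001_k81, nat_lit 0, nat_lit 0, nat_lit 255, nat_lit 0, nat_lit 0, [nat_lit 6250000000, nat_lit 7968000000, nat_lit 11872000000], [], [nat_lit 19892061530, nat_lit 20826096398, nat_lit 38677101944, nat_lit 39371044324], nat_lit 0, nat_lit 0, nat_lit 0, nat_lit 0, nat_lit 0, nat_lit 0, [], [nat_lit 53, nat_lit 40, nat_lit 20, nat_lit 80, nat_lit 14, nat_lit 401, nat_lit 175, nat_lit 11]⟩,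
 zbF0, []⟩
noncomputable def p001_l216 : Lf2 := ⟨nat_lit 0, nat_lit 3, [nat_lit 45, nat_lit 5, nat_lit 5, nat_lit 20], true, nat_lit 0, nat_lit 0, nat_lit 0, nat_lit 0, ⟨nat_lit 0, nat_lit 0, nat_lit 1000, nat_lit 5, nat_lit 77, nat_lit 0, nat_lit 0, nat_lit 0, nat_lit 0, nat_lit 215, nat_lit 56067, nat_lit 273, nat_lit 64589970, nat_lit 0, nat_lit 0, nat_lit 774582, false, false⟩,
 nat_lit 0, nat_lit 0, nat_lit 0, nat_lit 8368, nat_lit 4649, nat_lit 0, nat_lit 635, nat_lit 0, nat_lit 0, nat_lit 0, nat_lit 0, nat_lit 0, nat_lit 0, nat_lit 4179631037649, nat_lit 90, nat_lit 1000000, nat_lit 0, nat_lit 0, [(nat_lit 0, [(nat_lit 6, nat_lit 1000)])],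
 ⟨p001_k76, nat_lit 0, nat_lit 0, nat_lit 291, nat_lit 0, nat_lit 0, [nat_lit 2618000001, nat_lit 1352800000, nat_lit 26400000], [], [nat_lit 13008941198, nat_lit 13487267141, nat_lit 11072846065, nat_lit 11565617978], nat_lit 0, nat_lit 0, nat_lit 0, nat_lit 0, nat_lit 0, nat_lit 0, [], [nat_lit 25, nat_lit 40, nat_lit 20, nat_lit 80, nat_lit 17, nat_lit 317, nat_lit 100, nat_lit 10]⟩, C1.Rw.none,
 ⟨nat_lit 6892, nat_lit 7072, ⟨.ofNat (nat_lit 48814), .ofNat (nat_lit 319525), .ofNat (nat_lit 59588), .ofNat (nat_lit 330299), .ofNat (nat_lit 59146), .ofNat (nat_lit 323657), .ofNat (nat_lit 69890), .ofNat (nat_lit 334402)⟩, ⟨.ofNat (nat_lit 0), .ofNat (nat_lit 0), .ofNat (nat_lit 0), .ofNat (nat_lit 0), .ofNat (nat_lit 0), .ofNat (nat_lit 0), .ofNat (nat_lit 0), .ofNat (nat_lit 0)⟩⟩, [⟨nat_lit 0, nat_lit 100, nat_lit 100, nat_lit 10, nat_lit 198336289⟩]⟩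
noncomputable def p001_l217 : Lf2 := ⟨nat_lit 1, nat_lit 5, [nat_lit 4, nat_lit 5, nat_lit 5, nat_lit 20], false, nat_lit 0, nat_lit 0, nat_lit 0, nat_lit 0, zbN0,
 nat_lit 0, nat_lit 0, nat_lit 0, nat_lit 0, nat_lit 0, nat_lit 0, nat_lit 0, nat_lit 0, nat_lit 0, nat_lit 0, nat_lit 0, nat_lit 0, nat_lit 0, nat_lit 0, nat_lit 0, nat_lit 0, nat_lit 0, nat_lit 0, [],
 C1.Rw.none, C1.Rw.none,
 zbF0, []⟩
noncomputable def p001_l218 : Lf2 := ⟨nat_lit 0, nat_lit 5, [nat_lit 4, nat_lit 5, nat_lit 5, nat_lit 20], true, nat_lit 0, nat_lit 0, nat_lit 0, nat_lit 0, ⟨nat_lit 0, nat_lit 0, nat_lit 1000, nat_lit 5, nat_lit 45, nat_lit 0, nat_lit 0, nat_lit 0, nat_lit 0, nat_lit 215, nat_lit 19267, nat_lit 249, nat_lit 66146901, nat_lit 0, nat_lit 0, nat_lit 340930, false, false⟩,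
 nat_lit 0, nat_lit 0, nat_lit 0, nat_lit 9173, nat_lit 4602, nat_lit 0, nat_lit 614, nat_lit 0, nat_lit 0, nat_lit 0, nat_lit 0, nat_lit 0, nat_lit 0, nat_lit 21303901290218, nat_lit 90, nat_lit 1000000, nat_lit 0, nat_lit 0, [(nat_lit 0, [(nat_lit 6, nat_lit 1000)])],
 ⟨p001_k77, nat_lit 0, nat_lit 0, nat_lit 292, nat_lit 0, nat_lit 0, [nat_lit 2618000001, nat_lit 1352800000, nat_lit 26400000], [], [nat_lit 13299616489, nat_lit 13537602830, nat_lit 11508018233, nat_lit 11774594381], nat_lit 0, nat_lit 0, nat_lit 0, nat_lit 0, nat_lit 0, nat_lit 0, [], [nat_lit 25, nat_lit 40, nat_lit 20, nat_lit 80, nat_lit 17, nat_lit 289, nat_lit 75, nat_lit 9]⟩, C1.Rw.none,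
 ⟨nat_lit 6800, nat_lit 6893, ⟨.ofNat (nat_lit 59146), .ofNat (nat_lit 147316), .ofNat (nat_lit 75262), .ofNat (nat_lit 163433), .ofNat (nat_lit 64214), .ofNat (nat_lit 151371), .ofNat (nat_lit 80311), .ofNat (nat_lit 167468)⟩, ⟨.ofNat (nat_lit 0), .ofNat (nat_lit 0), .ofNat (nat_lit 0), .ofNat (nat_lit 0), .ofNat (nat_lit 0), .ofNat (nat_lit 0), .ofNat (nat_lit 0), .ofNat (nat_lit 0)⟩⟩, [⟨nat_lit 0, nat_lit 100, nat_lit 100, nat_lit 15, nat_lit 326607177⟩]⟩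
noncomputable def p001_l219 : Lf2 := ⟨nat_lit 0, nat_lit 5, [nat_lit 4, nat_lit 5, nat_lit 5, nat_lit 20], true, nat_lit 0, nat_lit 0, nat_lit 0, nat_lit 0, ⟨nat_lit 0, nat_lit 0, nat_lit 1000, nat_lit 5, nat_lit 48, nat_lit 0, nat_lit 0, nat_lit 0, nat_lit 0, nat_lit 215, nat_lit 21600, nat_lit 251, nat_lit 66067523, nat_lit 0, nat_lit 0, nat_lit 366451, false, false⟩,
 nat_lit 0, nat_lit 0, nat_lit 0, nat_lit 9112, nat_lit 4573, nat_lit 0, nat_lit 602, nat_lit 0, nat_lit 0, nat_lit 0, nat_lit 0, nat_lit 0, nat_lit 0, nat_lit 20891662193188, nat_lit 90, nat_lit 1000000, nat_lit 0, nat_lit 0, [(nat_lit 0, [(nat_lit 6, nat_lit 1000)])],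
 ⟨p001_k78, nat_lit 0, nat_lit 0, nat_lit 293, nat_lit 0, nat_lit 0, [nat_lit 2618000001, nat_lit 1352800000, nat_lit 26400000], [], [nat_lit 13454320085, nat_lit 13597665913, nat_lit 11688996621, nat_lit 11848531253], nat_lit 0, nat_lit 0, nat_lit 0, nat_lit 0, nat_lit 0, nat_lit 0, [], [nat_lit 25, nat_lit 40, nat_lit 20, nat_lit 80, nat_lit 17, nat_lit 289, nat_lit 75, nat_lit 9]⟩, C1.Rw.none,
 ⟨nat_lit 6745, nat_lit 6801, ⟨.ofNat (nat_lit 64214), .ofNat (nat_lit 151371), .ofNat (nat_lit 83530), .ofNat (nat_lit 170687), .ofNat (nat_lit 67226), .ofNat (nat_lit 153780), .ofNat (nat_lit 86528), .ofNat (nat_lit 173083)⟩, ⟨.ofNat (nat_lit 0), .ofNat (nat_lit 0), .ofNat (nat_lit 0), .ofNat (nat_lit 0), .ofNat (nat_lit 0), .ofNat (nat_lit 0), .ofNat (nat_lit 0), .ofNat (nat_lit 0)⟩⟩, [⟨nat_lit 0, nat_lit 100, nat_lit 100, nat_lit 18, nat_lit 325610472⟩]⟩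
noncomputable def p001_l220 : Lf2 := ⟨nat_lit 0, nat_lit 5, [nat_lit 4, nat_lit 5, nat_lit 5, nat_lit 20], true, nat_lit 0, nat_lit 0, nat_lit 0, nat_lit 0, ⟨nat_lit 0, nat_lit 0, nat_lit 1000, nat_lit 5, nat_lit 40, nat_lit 0, nat_lit 0, nat_lit 0, nat_lit 0, nat_lit 215, nat_lit 15000, nat_lit 245, nat_lit 66342856, nat_lit 0, nat_lit 0, nat_lit 275371, false, false⟩,
 nat_lit 0, nat_lit 0, nat_lit 0, nat_lit 9089, nat_lit 4564, nat_lit 0, nat_lit 596, nat_lit 0, nat_lit 0, nat_lit 0, nat_lit 0, nat_lit 0, nat_lit 0, nat_lit 20380435698891, nat_lit 90, nat_lit 1000000, nat_lit 0, nat_lit 0, [(nat_lit 0, [(nat_lit 6, nat_lit 1000)])],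
 ⟨p001_k79, nat_lit 0, nat_lit 0, nat_lit 293, nat_lit 0, nat_lit 0, [nat_lit 2618000001, nat_lit 1352800000, nat_lit 26400000], [], [nat_lit 13541484417, nat_lit 13588940929, nat_lit 12396499781, nat_lit 12450127364], nat_lit 0, nat_lit 0, nat_lit 0, nat_lit 0, nat_lit 0, nat_lit 0, [], [nat_lit 25, nat_lit 40, nat_lit 20, nat_lit 80, nat_lit 17, nat_lit 272, nat_lit 60, nat_lit 8]⟩, C1.Rw.none,
 ⟨nat_lit 6726, nat_lit 6746, ⟨.ofNat (nat_lit 67226), .ofNat (nat_lit 110503), .ofNat (nat_lit 87601), .ofNat (nat_lit 130878), .ofNat (nat_lit 68224), .ofNat (nat_lit 111402), .ofNat (nat_lit 88595), .ofNat (nat_lit 131773)⟩, ⟨.ofNat (nat_lit 0), .ofNat (nat_lit 0), .ofNat (nat_lit 0), .ofNat (nat_lit 0), .ofNat (nat_lit 0), .ofNat (nat_lit 0), .ofNat (nat_lit 0), .ofNat (nat_lit 0)⟩⟩, [⟨nat_lit 0, nat_lit 100, nat_lit 100, nat_lit 19, nat_lit 388889771⟩]⟩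
noncomputable def p001_l221 : Lf2 := ⟨nat_lit 0, nat_lit 5, [nat_lit 4, nat_lit 5, nat_lit 5, nat_lit 20], true, nat_lit 0, nat_lit 0, nat_lit 0, nat_lit 0, ⟨nat_lit 0, nat_lit 0, nat_lit 1000, nat_lit 5, nat_lit 40, nat_lit 0, nat_lit 0, nat_lit 0, nat_lit 0, nat_lit 215, nat_lit 15000, nat_lit 245, nat_lit 66323345, nat_lit 0, nat_lit 0, nat_lit 282080, false, false⟩,
 nat_lit 0, nat_lit 0, nat_lit 0, nat_lit 9060, nat_lit 4554, nat_lit 0, nat_lit 590, nat_lit 0, nat_lit 0, nat_lit 0, nat_lit 0, nat_lit 0, nat_lit 0, nat_lit 20199555026252, nat_lit 90, nat_lit 1000000, nat_lit 0, nat_lit 0, [(nat_lit 0, [(nat_lit 6, nat_lit 1000)])],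
 ⟨p001_k80, nat_lit 0, nat_lit 0, nat_lit 293, nat_lit 0, nat_lit 0, [nat_lit 2618000001, nat_lit 1352800000, nat_lit 26400000], [], [nat_lit 13581344620, nat_lit 13629676213, nat_lit 12440412159, nat_lit 12493991985], nat_lit 0, nat_lit 0, nat_lit 0, nat_lit 0, nat_lit 0, nat_lit 0, [], [nat_lit 25, nat_lit 40, nat_lit 20, nat_lit 80, nat_lit 17, nat_lit 272, nat_lit 60, nat_lit 8]⟩, C1.Rw.none,
 ⟨nat_lit 6708, nat_lit 6727, ⟨.ofNat (nat_lit 68224), .ofNat (nat_lit 111402), .ofNat (nat_lit 89667), .ofNat (nat_lit 132845), .ofNat (nat_lit 69221), .ofNat (nat_lit 112299), .ofNat (nat_lit 90659), .ofNat (nat_lit 133737)⟩, ⟨.ofNat (nat_lit 0), .ofNat (nat_lit 0), .ofNat (nat_lit 0), .ofNat (nat_lit 0), .ofNat (nat_lit 0), .ofNat (nat_lit 0), .ofNat (nat_lit 0), .ofNat (nat_lit 0)⟩⟩, [⟨nat_lit 0, nat_lit 100, nat_lit 100, nat_lit 20, nat_lit 387694422⟩]⟩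
noncomputable def p001_l222 : Lf2 := ⟨nat_lit 0, nat_lit 5, [nat_lit 4, nat_lit 5, nat_lit 5, nat_lit 20], true, nat_lit 0, nat_lit 0, nat_lit 0, nat_lit 0, ⟨nat_lit 0, nat_lit 0, nat_lit 1000, nat_lit 5, nat_lit 57, nat_lit 0, nat_lit 0, nat_lit 0, nat_lit 0, nat_lit 215, nat_lit 30817, nat_lit 258, nat_lit 65644257, nat_lit 0, nat_lit 0, nat_lit 494708, false, false⟩,
 nat_lit 0, nat_lit 0, nat_lit 0, nat_lit 5916, nat_lit 4872, nat_lit 0, nat_lit 0, nat_lit 0, nat_lit 0, nat_lit 0, nat_lit 0, nat_lit 0, nat_lit 0, nat_lit 18924559916356, nat_lit 90, nat_lit 1000000, nat_lit 0, nat_lit 0, [(nat_lit 0, [(nat_lit 6, nat_lit 1000)])],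
 ⟨p001_k82, nat_lit 0, nat_lit 0, nat_lit 192, nat_lit 0, nat_lit 0, [nat_lit 2618000001, nat_lit 87599999], [], [nat_lit 13693672044, nat_lit 13790919056, nat_lit 12991334472, nat_lit 13087790256], nat_lit 0, nat_lit 0, nat_lit 0, nat_lit 0, nat_lit 0, nat_lit 0, [], [nat_lit 51, nat_lit 40, nat_lit 20, nat_lit 80, nat_lit 1, nat_lit 289, nat_lit 75, nat_lit 9]⟩, C1.Rw.none,
 ⟨nat_lit 6708, nat_lit 6746, ⟨.ofNat (nat_lit 110503), .ofNat (nat_lit 153780), .ofNat (nat_lit 131950), .ofNat (nat_lit 175228), .ofNat (nat_lit 112299), .ofNat (nat_lit 155377), .ofNat (nat_lit 133737), .ofNat (nat_lit 176815)⟩, ⟨.ofNat (nat_lit 0), .ofNat (nat_lit 0), .ofNat (nat_lit 0), .ofNat (nat_lit 0), .ofNat (nat_lit 0), .ofNat (nat_lit 0), .ofNat (nat_lit 0), .ofNat (nat_lit 0)⟩⟩, []⟩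
noncomputable def p001_l223 : Lf2 := ⟨nat_lit 0, nat_lit 5, [nat_lit 4, nat_lit 5, nat_lit 5, nat_lit 20], true, nat_lit 0, nat_lit 0, nat_lit 0, nat_lit 0, ⟨nat_lit 0, nat_lit 0, nat_lit 1000, nat_lit 5, nat_lit 82, nat_lit 0, nat_lit 0, nat_lit 0, nat_lit 0, nat_lit 215, nat_lit 64067, nat_lit 277, nat_lit 64281171, nat_lit 0, nat_lit 0, nat_lit 848894, false, false⟩,
 nat_lit 0, nat_lit 0, nat_lit 0, nat_lit 9223, nat_lit 5681, nat_lit 0, nat_lit 1220, nat_lit 0, nat_lit 0, nat_lit 0, nat_lit 0, nat_lit 0, nat_lit 0, nat_lit 0, nat_lit 54, nat_lit 400000, nat_lit 0, nat_lit 0, [(nat_lit 0, [(nat_lit 5, nat_lit 1000)])],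
 ⟨p001_k77, nat_lit 0, nat_lit 0, nat_lit 181, nat_lit 0, nat_lit 0, [nat_lit 2480000000, nat_lit 712400000, nat_lit 13600000], [], [nat_lit 11001505478, nat_lit 11513806388, nat_lit 10216950050, nat_lit 10781175692], nat_lit 0, nat_lit 0, nat_lit 0, nat_lit 0, nat_lit 0, nat_lit 0, [], [nat_lit 25, nat_lit 40, nat_lit 20, nat_lit 80, nat_lit 17, nat_lit 289, nat_lit 75, nat_lit 9]⟩, C1.Rw.none,
 ⟨nat_lit 6708, nat_lit 6893, ⟨.ofNat (nat_lit 147316), .ofNat (nat_lit 235487), .ofNat (nat_lit 168805), .ofNat (nat_lit 256975), .ofNat (nat_lit 155377), .ofNat (nat_lit 241532), .ofNat (nat_lit 176815), .ofNat (nat_lit 262970)⟩, ⟨.ofNat (nat_lit 0), .ofNat (nat_lit 0), .ofNat (nat_lit 0), .ofNat (nat_lit 0), .ofNat (nat_lit 0), .ofNat (nat_lit 0), .ofNat (nat_lit 0), .ofNat (nat_lit 0)⟩⟩, []⟩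
noncomputable def p001_l224 : Lf2 := ⟨nat_lit 0, nat_lit 5, [nat_lit 4, nat_lit 5, nat_lit 5, nat_lit 20], true, nat_lit 0, nat_lit 0, nat_lit 0, nat_lit 0, ⟨nat_lit 0, nat_lit 1000, nat_lit 0, nat_lit 5, nat_lit 117, nat_lit 0, nat_lit 0, nat_lit 0, nat_lit 0, nat_lit 0, nat_lit 0, nat_lit 0, nat_lit 61708776, nat_lit 5291224, nat_lit 0, nat_lit 1381271, false, false⟩,
 nat_lit 0, nat_lit 0, nat_lit 0, nat_lit 1917, nat_lit 8912, nat_lit 0, nat_lit 0, nat_lit 0, nat_lit 0, nat_lit 0, nat_lit 0, nat_lit 0, nat_lit 0, nat_lit 0, nat_lit 0, nat_lit 250000, nat_lit 0, nat_lit 0, [(nat_lit 0, [(nat_lit 0, nat_lit 1000)])],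
 ⟨p001_k83, nat_lit 0, nat_lit 0, nat_lit 30, nat_lit 0, nat_lit 0, [nat_lit 3772000000, nat_lit 3838400000], [], [nat_lit 8131686832, nat_lit 9184218176, nat_lit 8002000360, nat_lit 9002730352], nat_lit 0, nat_lit 0, nat_lit 0, nat_lit 0, nat_lit 0, nat_lit 0, [], [nat_lit 51, nat_lit 40, nat_lit 20, nat_lit 80, nat_lit 1, nat_lit 317, nat_lit 100, nat_lit 10]⟩, C1.Rw.none,
 ⟨nat_lit 6708, nat_lit 6893, ⟨.ofNat (nat_lit 235487), .ofNat (nat_lit 323657), .ofNat (nat_lit 256975), .ofNat (nat_lit 345146), .ofNat (nat_lit 241532), .ofNat (nat_lit 327688), .ofNat (nat_lit 262970), .ofNat (nat_lit 349126)⟩, ⟨.ofNat (nat_lit 0), .ofNat (nat_lit 0), .ofNat (nat_lit 0), .ofNat (nat_lit 0), .ofNat (nat_lit 0), .ofNat (nat_lit 0), .ofNat (nat_lit 0), .ofNat (nat_lit 0)⟩⟩, []⟩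
noncomputable def p001_l225 : Lf2 := ⟨nat_lit 0, nat_lit 5, [nat_lit 4, nat_lit 5, nat_lit 5, nat_lit 20], false, nat_lit 0, nat_lit 0, nat_lit 0, nat_lit 0, ⟨nat_lit 1000, nat_lit 0, nat_lit 0, nat_lit 0, nat_lit 0, nat_lit 0, nat_lit 0, nat_lit 0, nat_lit 0, nat_lit 0, nat_lit 0, nat_lit 0, nat_lit 0, nat_lit 0, nat_lit 0, nat_lit 0, false, false⟩,
 nat_lit 0, nat_lit 0, nat_lit 8870, nat_lit 18201, nat_lit 9917, nat_lit 3801, nat_lit 3643, nat_lit 0, nat_lit 0, nat_lit 2221, nat_lit 0, nat_lit 0, nat_lit 0, nat_lit 0, nat_lit 0, nat_lit 0, nat_lit 0, nat_lit 0, [],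
 ⟨p001_k81, nat_lit 0, nat_lit 0, nat_lit 255, nat_lit 0, nat_lit 0, [nat_lit 6250000000, nat_lit 7968000001, nat_lit 11872000000], [], [nat_lit 17561058855, nat_lit 18089297742, nat_lit 42215368104, nat_lit 42572878394], nat_lit 0, nat_lit 0, nat_lit 0, nat_lit 0, nat_lit 0, nat_lit 0, [], [nat_lit 53, nat_lit 40, nat_lit 20, nat_lit 80, nat_lit 14, nat_lit 401, nat_lit 175, nat_lit 11]⟩, ⟨p001_k81, nat_lit 0, nat_lit 0, nat_lit 401, nat_lit 0, nat_lit 307404, [nat_lit 6250000000, nat_lit 7968000000, nat_lit 11872000000], [], [nat_lit 38292127840, nat_lit 37646608212, nat_lit 46419432880, nat_lit 46578066331], nat_lit 1271250, nat_lit 1271250, nat_lit 780000, nat_lit 3072500, nat_lit 0, nat_lit 0, [nat_lit 1412500, nat_lit 1271250, nat_lit 1271250], [nat_lit 53, nat_lit 40, nat_lit 20, nat_lit 80, nat_lit 14, nat_lit 401, nat_lit 175, nat_lit 11]⟩,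
 zbF0, []⟩
noncomputable def p001_l226 : Lf2 := ⟨nat_lit 0, nat_lit 5, [nat_lit 4, nat_lit 5, nat_lit 5, nat_lit 20], false, nat_lit 0, nat_lit 0, nat_lit 0, nat_lit 0, ⟨nat_lit 1000, nat_lit 0, nat_lit 0, nat_lit 0, nat_lit 0, nat_lit 0, nat_lit 0, nat_lit 0, nat_lit 0, nat_lit 0, nat_lit 0, nat_lit 0, nat_lit 0, nat_lit 0, nat_lit 0, nat_lit 0, false, false⟩,
 nat_lit 0, nat_lit 0, nat_lit 13682, nat_lit 0, nat_lit 10071, nat_lit 5863, nat_lit 3411, nat_lit 0, nat_lit 0, nat_lit 1911, nat_lit 0, nat_lit 0, nat_lit 0, nat_lit 0, nat_lit 0, nat_lit 0, nat_lit 0, nat_lit 0, [],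
 ⟨p001_k77, nat_lit 0, nat_lit 0, nat_lit 227, nat_lit 0, nat_lit 0, [nat_lit 6250000000, nat_lit 7968000001, nat_lit 9842000000], [], [nat_lit 16604254403, nat_lit 17216101311, nat_lit 42955057422, nat_lit 43313702692], nat_lit 0, nat_lit 0, nat_lit 0, nat_lit 0, nat_lit 0, nat_lit 0, [], [nat_lit 25, nat_lit 40, nat_lit 20, nat_lit 80, nat_lit 17, nat_lit 401, nat_lit 175, nat_lit 12]⟩, ⟨p001_k81, nat_lit 0, nat_lit 0, nat_lit 533, nat_lit 0, nat_lit 510915, [nat_lit 6250000000, nat_lit 7968000000, nat_lit 11872000000], [], [nat_lit 41434285920, nat_lit 41794495017, nat_lit 47973839668, nat_lit 48132450024], nat_lit 1271250, nat_lit 1271250, nat_lit 780000, nat_lit 3072500, nat_lit 0, nat_lit 0, [nat_lit 1412500, nat_lit 1271250, nat_lit 1271250], [nat_lit 53, nat_lit 40, nat_lit 20, nat_lit 80, nat_lit 14, nat_lit 401, nat_lit 175, nat_lit 11]⟩,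
 zbF0, []⟩
noncomputable def p001_l227 : Lf2 := ⟨nat_lit 0, nat_lit 5, [nat_lit 4, nat_lit 5, nat_lit 5, nat_lit 20], false, nat_lit 0, nat_lit 0, nat_lit 0, nat_lit 0, ⟨nat_lit 149, nat_lit 851, nat_lit 0, nat_lit 5, nat_lit 204, nat_lit 0, nat_lit 0, nat_lit 0, nat_lit 0, nat_lit 0, nat_lit 0, nat_lit 0, nat_lit 0, nat_lit 0, nat_lit 0, nat_lit 5000000, false, true⟩,
 nat_lit 0, nat_lit 0, nat_lit 0, nat_lit 9692, nat_lit 6156, nat_lit 1292, nat_lit 1015, nat_lit 0, nat_lit 0, nat_lit 320, nat_lit 0, nat_lit 0, nat_lit 0, nat_lit 4446910928517, nat_lit 0, nat_lit 340400, nat_lit 0, nat_lit 0, [(nat_lit 0, [(nat_lit 1, nat_lit 851)])],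
 ⟨p001_k81, nat_lit 0, nat_lit 0, nat_lit 376, nat_lit 0, nat_lit 0, [nat_lit 3752193429, nat_lit 4331393334, nat_lit 4715106666], [], [nat_lit 27246216272, nat_lit 27873064544, nat_lit 33218996668, nat_lit 33569064112], nat_lit 0, nat_lit 0, nat_lit 0, nat_lit 0, nat_lit 0, nat_lit 0, [], [nat_lit 53, nat_lit 40, nat_lit 20, nat_lit 80, nat_lit 14, nat_lit 401, nat_lit 175, nat_lit 11]⟩, ⟨p001_k81, nat_lit 0, nat_lit 0, nat_lit 376, nat_lit 0, nat_lit 0, [nat_lit 931250000, nat_lit 1187232000, nat_lit 1768928000], [], [nat_lit 5124816084, nat_lit 5225678618, nat_lit 5884459064, nat_lit 5934577724], nat_lit 0, nat_lit 0, nat_lit 0, nat_lit 0, nat_lit 0, nat_lit 0, [], [nat_lit 53, nat_lit 40, nat_lit 20, nat_lit 80, nat_lit 14, nat_lit 401, nat_lit 175, nat_lit 11]⟩,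
 ⟨nat_lit 6708, nat_lit 7072, ⟨.ofNat (nat_lit 48814), .ofNat (nat_lit 951013), .ofNat (nat_lit 70362), .ofNat (nat_lit 972555), .ofNat (nat_lit 69221), .ofNat (nat_lit 930606), .ofNat (nat_lit 90659), .ofNat (nat_lit 952038)⟩, ⟨.ofNat (nat_lit 0), .ofNat (nat_lit 0), .ofNat (nat_lit 0), .ofNat (nat_lit 0), .ofNat (nat_lit 0), .ofNat (nat_lit 0), .ofNat (nat_lit 0), .ofNat (nat_lit 0)⟩⟩, []⟩
noncomputable def p001_l228 : Lf2 := ⟨nat_lit 0, nat_lit 5, [nat_lit 4, nat_lit 5, nat_lit 5, nat_lit 20], false, nat_lit 0, nat_lit 0, nat_lit 0, nat_lit 0, ⟨nat_lit 123, nat_lit 877, nat_lit 0, nat_lit 5, nat_lit 204, nat_lit 0, nat_lit 0, nat_lit 0, nat_lit 0, nat_lit 0, nat_lit 0, nat_lit 0, nat_lit 0, nat_lit 0, nat_lit 0, nat_lit 5000000, false, true⟩,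
 nat_lit 0, nat_lit 0, nat_lit 1856, nat_lit 2860, nat_lit 5728, nat_lit 795, nat_lit 816, nat_lit 0, nat_lit 0, nat_lit 0, nat_lit 0, nat_lit 0, nat_lit 0, nat_lit 11003061989621, nat_lit 0, nat_lit 350800, nat_lit 0, nat_lit 0, [(nat_lit 0, [(nat_lit 1, nat_lit 877)])],
 ⟨p001_k81, nat_lit 0, nat_lit 0, nat_lit 376, nat_lit 0, nat_lit 0, [nat_lit 3675879715, nat_lit 4220286667, nat_lit 4501213333], [], [nat_lit 27911002899, nat_lit 28529328835, nat_lit 33262457456, nat_lit 33525734406], nat_lit 0, nat_lit 0, nat_lit 0, nat_lit 0, nat_lit 0, nat_lit 0, [], [nat_lit 53, nat_lit 40, nat_lit 20, nat_lit 80, nat_lit 14, nat_lit 401, nat_lit 175, nat_lit 11]⟩, ⟨p001_k81, nat_lit 0, nat_lit 0, nat_lit 657, nat_lit 0, nat_lit 510915, [nat_lit 768750000, nat_lit 980064000, nat_lit 1460256000], [], [nat_lit 6756657408, nat_lit 6788217048, nat_lit 7127540076, nat_lit 6775587744], nat_lit 1271250,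 nat_lit 1271250, nat_lit 0, nat_lit 2825000, nat_lit 0, nat_lit 0, [nat_lit 1412500, nat_lit 1271250, nat_lit 1271250], [nat_lit 53, nat_lit 40, nat_lit 20, nat_lit 80, nat_lit 14, nat_lit 401, nat_lit 175, nat_lit 11]⟩,
 ⟨nat_lit 6708, nat_lit 7072, ⟨.ofNat (nat_lit 48814), .ofNat (nat_lit 951013), .ofNat (nat_lit 70362), .ofNat (nat_lit 972555), .ofNat (nat_lit 69221), .ofNat (nat_lit 930606), .ofNat (nat_lit 90659), .ofNat (nat_lit 952038)⟩, ⟨.ofNat (nat_lit 0), .ofNat (nat_lit 0), .ofNat (nat_lit 0), .ofNat (nat_lit 0), .ofNat (nat_lit 0), .ofNat (nat_lit 0), .ofNat (nat_lit 0), .ofNat (nat_lit 0)⟩⟩, []⟩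
noncomputable def b_NL_500_500_0_0 : St := ⟨false, nat_lit 0, nat_lit 2, nat_lit 0, nat_lit 20, nat_lit 200, nat_lit 220, nat_lit 200, nat_lit 220, nat_lit 0, nat_lit 400, nat_lit 0, nat_lit 0, nat_lit 0, nat_lit 0, nat_lit 0, nat_lit 0, nat_lit 0, nat_lit 20, nat_lit 0, nat_lit 0, nat_lit 0, nat_lit 0⟩
theorem d_NL_500_500_0_0 (h : EB TB.env) : Dead b_NL_500_500_0_0 := chkB_sound0 h (T :=
(.gv
(.st (nat_lit 1)
(.spl (nat_lit 2) (nat_lit 120)
(.spl (nat_lit 0) (nat_lit 210)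
(.ord (.spl (nat_lit 6) (nat_lit 12)
(.leaf p001_l206)
(.leaf p001_l207)))
(.spl (nat_lit 2) (nat_lit 80)
(.spl (nat_lit 2) (nat_lit 40)
(.spl (nat_lit 0) (nat_lit 215)
(.ord (.leaf p001_l208))
(.spl (nat_lit 0) (nat_lit 218)
(.ord (.leaf p001_l209))
(.spl (nat_lit 2) (nat_lit 20)
(.spl (nat_lit 0) (nat_lit 219)
(.ord (.leaf p001_l210))
(.leaf p001_l211))
(.leaf p001_l212))))
(.leaf p001_l213))
(.leaf p001_l214)))
(.leaf p001_l215))
(.spl (nat_lit 2) (nat_lit 120)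
(.spl (nat_lit 0) (nat_lit 210)
(.ord (.spl (nat_lit 6) (nat_lit 12)
(.leaf p001_l216)
(.leaf p001_l217)))
(.spl (nat_lit 2) (nat_lit 80)
(.spl (nat_lit 2) (nat_lit 40)
(.spl (nat_lit 0) (nat_lit 215)
(.ord (.leaf p001_l218))
(.spl (nat_lit 0) (nat_lit 218)
(.ord (.leaf p001_l219))
(.spl (nat_lit 2) (nat_lit 20)
(.spl (nat_lit 0) (nat_lit 219)
(.ord (.leaf p001_l220))
(.leaf p001_l221))
(.leaf p001_l222))))
(.leaf p001_l223))
(.leaf p001_l224)))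
(.spl (nat_lit 0) (nat_lit 210)
(.ord (.leaf p001_l225))
(.leaf p001_l226))))
(.st (nat_lit 1)
(.leaf p001_l227)
(.leaf p001_l228)))) (by decide +kernel)
noncomputable def p001_l229 : Lf2 := ⟨nat_lit 0, nat_lit 2, [nat_lit 10, nat_lit 5, nat_lit 5, nat_lit 20], true, nat_lit 0, nat_lit 0, nat_lit 0, nat_lit 0, ⟨nat_lit 0, nat_lit 0, nat_lit 1000, nat_lit 5, nat_lit 46, nat_lit 0, nat_lit 0, nat_lit 0, nat_lit 0, nat_lit 215, nat_lit 19267, nat_lit 249, nat_lit 66142488, nat_lit 0, nat_lit 0, nat_lit 342362, false, false⟩,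
 nat_lit 0, nat_lit 1930, nat_lit 0, nat_lit 0, nat_lit 826, nat_lit 0, nat_lit 0, nat_lit 0, nat_lit 237, nat_lit 0, nat_lit 0, nat_lit 0, nat_lit 0, nat_lit 14183674115614, nat_lit 90, nat_lit 1000000, nat_lit 0, nat_lit 0, [(nat_lit 0, [(nat_lit 6, nat_lit 1000)])],
 ⟨p001_k33, nat_lit 0, nat_lit 0, nat_lit 0, nat_lit 0, nat_lit 225295, [nat_lit 2618000001, nat_lit 1352800000, nat_lit 26400000], [], [nat_lit 6011182810, nat_lit 6629460024, nat_lit 6775730306, nat_lit 6787692926], nat_lit 1271250, nat_lit 1271250, nat_lit 0, nat_lit 230001, nat_lit 0, nat_lit 0, [nat_lit 1412500, nat_lit 1271250, nat_lit 1271250], [nat_lit 25, nat_lit 40, nat_lit 20, nat_lit 80]⟩, C1.Rw.none,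
 ⟨nat_lit 6708, nat_lit 7072, ⟨.ofNat (nat_lit 48814), .ofNat (nat_lit 139051), .ofNat (nat_lit 70362), .ofNat (nat_lit 160599), .ofNat (nat_lit 69221), .ofNat (nat_lit 155377), .ofNat (nat_lit 90659), .ofNat (nat_lit 176815)⟩, ⟨.ofNat (nat_lit 0), .ofNat (nat_lit 0), .ofNat (nat_lit 0), .ofNat (nat_lit 0), .ofNat (nat_lit 0), .ofNat (nat_lit 0), .ofNat (nat_lit 0), .ofNat (nat_lit 0)⟩⟩, [⟨nat_lit 0, nat_lit 100, nat_lit 100, nat_lit 10, nat_lit 19039964⟩]⟩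
noncomputable def p001_l230 : Lf2 := ⟨nat_lit 0, nat_lit 2, [nat_lit 10, nat_lit 5, nat_lit 5, nat_lit 20], true, nat_lit 0, nat_lit 0, nat_lit 0, nat_lit 0, ⟨nat_lit 0, nat_lit 0, nat_lit 1000, nat_lit 5, nat_lit 31, nat_lit 0, nat_lit 0, nat_lit 0, nat_lit 0, nat_lit 215, nat_lit 8817, nat_lit 238, nat_lit 66609832, nat_lit 0, nat_lit 0, nat_lit 178240, false, false⟩,
 nat_lit 0, nat_lit 13015, nat_lit 0, nat_lit 0, nat_lit 5577, nat_lit 0, nat_lit 1861, nat_lit 0, nat_lit 0, nat_lit 0, nat_lit 0, nat_lit 0, nat_lit 0, nat_lit 27720185109871, nat_lit 67, nat_lit 1000000, nat_lit 0, nat_lit 0, [(nat_lit 0, [(nat_lit 6, nat_lit 1000)])],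
 ⟨p001_k47, nat_lit 0, nat_lit 0, nat_lit 0, nat_lit 0, nat_lit 97828, [nat_lit 2158000000, nat_lit 1318400001, nat_lit 283199999], [], [nat_lit 12441408149, nat_lit 12569518389, nat_lit 12517058593, nat_lit 11812175986], nat_lit 1271250, nat_lit 1271250, nat_lit 0, nat_lit 111251, nat_lit 0, nat_lit 0, [nat_lit 1412500, nat_lit 1271250, nat_lit 1271250], [nat_lit 163, nat_lit 40, nat_lit 20, nat_lit 40]⟩, C1.Rw.none,
 ⟨nat_lit 6982, nat_lit 7072, ⟨.ofNat (nat_lit 48814), .ofNat (nat_lit 93932), .ofNat (nat_lit 54201), .ofNat (nat_lit 99320), .ofNat (nat_lit 54013), .ofNat (nat_lit 98612), .ofNat (nat_lit 59392), .ofNat (nat_lit 103991)⟩, ⟨.ofNat (nat_lit 0), .ofNat (nat_lit 0), .ofNat (nat_lit 0), .ofNat (nat_lit 0), .ofNat (nat_lit 0), .ofNat (nat_lit 0), .ofNat (nat_lit 0), .ofNat (nat_lit 0)⟩⟩, [⟨nat_lit 0, nat_lit 100, nat_lit 100, nat_lit 5, nat_lit 249785269⟩]⟩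
noncomputable def p001_l231 : Lf2 := ⟨nat_lit 0, nat_lit 2, [nat_lit 10, nat_lit 5, nat_lit 5, nat_lit 20], true, nat_lit 0, nat_lit 0, nat_lit 0, nat_lit 0, ⟨nat_lit 0, nat_lit 0, nat_lit 1000, nat_lit 5, nat_lit 34, nat_lit 0, nat_lit 0, nat_lit 0, nat_lit 0, nat_lit 215, nat_lit 10417, nat_lit 240, nat_lit 66529160, nat_lit 0, nat_lit 0, nat_lit 208795, false, false⟩,
 nat_lit 0, nat_lit 12479, nat_lit 0, nat_lit 0, nat_lit 5501, nat_lit 0, nat_lit 1768, nat_lit 0, nat_lit 0, nat_lit 0, nat_lit 0, nat_lit 0, nat_lit 0, nat_lit 26285982307526, nat_lit 67, nat_lit 1000000, nat_lit 0, nat_lit 0, [(nat_lit 0, [(nat_lit 6, nat_lit 1000)])],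
 ⟨p001_k84, nat_lit 0, nat_lit 0, nat_lit 0, nat_lit 0, nat_lit 134906, [nat_lit 2158000000, nat_lit 1318400001, nat_lit 283199999], [], [nat_lit 12515280045, nat_lit 12753820153, nat_lit 11772585806, nat_lit 11603434845], nat_lit 1271250, nat_lit 1271250, nat_lit 0, nat_lit 111251, nat_lit 0, nat_lit 0, [nat_lit 1412500, nat_lit 1271250, nat_lit 1271250], [nat_lit 163, nat_lit 40, nat_lit 20, nat_lit 40]⟩, C1.Rw.none,
 ⟨nat_lit 6892, nat_lit 6983, ⟨.ofNat (nat_lit 54013), .ofNat (nat_lit 98612), .ofNat (nat_lit 64772), .ofNat (nat_lit 109370), .ofNat (nat_lit 59146), .ofNat (nat_lit 103231), .ofNat (nat_lit 69890), .ofNat (nat_lit 113975)⟩, ⟨.ofNat (nat_lit 0), .ofNat (nat_lit 0), .ofNat (nat_lit 0), .ofNat (nat_lit 0), .ofNat (nat_lit 0), .ofNat (nat_lit 0), .ofNat (nat_lit 0), .ofNat (nat_lit 0)⟩⟩, [⟨nat_lit 0, nat_lit 100, nat_lit 100, nat_lit 10, nat_lit 391590089⟩]⟩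
noncomputable def p001_l232 : Lf2 := ⟨nat_lit 0, nat_lit 2, [nat_lit 10, nat_lit 5, nat_lit 5, nat_lit 20], true, nat_lit 0, nat_lit 0, nat_lit 0, nat_lit 0, ⟨nat_lit 0, nat_lit 0, nat_lit 1000, nat_lit 5, nat_lit 37, nat_lit 0, nat_lit 0, nat_lit 0, nat_lit 0, nat_lit 215, nat_lit 12150, nat_lit 242, nat_lit 66441917, nat_lit 0, nat_lit 0, nat_lit 240581, false, false⟩,
 nat_lit 0, nat_lit 8973, nat_lit 0, nat_lit 0, nat_lit 4066, nat_lit 0, nat_lit 959, nat_lit 0, nat_lit 0, nat_lit 0, nat_lit 0, nat_lit 0, nat_lit 0, nat_lit 21543577119090, nat_lit 67, nat_lit 1000000, nat_lit 0, nat_lit 0, [(nat_lit 0, [(nat_lit 6, nat_lit 1000)])],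
 ⟨p001_k54, nat_lit 0, nat_lit 0, nat_lit 0, nat_lit 0, nat_lit 171257, [nat_lit 1761200000, nat_lit 1920000000, nat_lit 1318400001, nat_lit 800800000, nat_lit 4400000], [], [nat_lit 13336298462, nat_lit 13594174736, nat_lit 12382151246, nat_lit 12609724544], nat_lit 1271250, nat_lit 1271250, nat_lit 0, nat_lit 111251, nat_lit 0, nat_lit 0, [nat_lit 936250, nat_lit 1271250, nat_lit 1271250, nat_lit 1271250, nat_lit 1271250], [nat_lit 231, nat_lit 40, nat_lit 20, nat_lit 40]⟩, C1.Rw.none,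
 ⟨nat_lit 6800, nat_lit 6893, ⟨.ofNat (nat_lit 59146), .ofNat (nat_lit 103231), .ofNat (nat_lit 75262), .ofNat (nat_lit 119347), .ofNat (nat_lit 64214), .ofNat (nat_lit 107793), .ofNat (nat_lit 80311), .ofNat (nat_lit 123889)⟩, ⟨.ofNat (nat_lit 0), .ofNat (nat_lit 0), .ofNat (nat_lit 0), .ofNat (nat_lit 0), .ofNat (nat_lit 0), .ofNat (nat_lit 0), .ofNat (nat_lit 0), .ofNat (nat_lit 0)⟩⟩, [⟨nat_lit 0, nat_lit 100, nat_lit 100, nat_lit 15, nat_lit 350015793⟩]⟩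
noncomputable def p001_l233 : Lf2 := ⟨nat_lit 0, nat_lit 2, [nat_lit 10, nat_lit 5, nat_lit 5, nat_lit 20], true, nat_lit 0, nat_lit 0, nat_lit 0, nat_lit 0, ⟨nat_lit 0, nat_lit 0, nat_lit 1000, nat_lit 5, nat_lit 40, nat_lit 0, nat_lit 0, nat_lit 0, nat_lit 0, nat_lit 215, nat_lit 15000, nat_lit 245, nat_lit 66348317, nat_lit 0, nat_lit 0, nat_lit 273484, false, false⟩,
 nat_lit 0, nat_lit 10599, nat_lit 0, nat_lit 0, nat_lit 4935, nat_lit 0, nat_lit 1924, nat_lit 0, nat_lit 0, nat_lit 0, nat_lit 0, nat_lit 0, nat_lit 0, nat_lit 25372423955668, nat_lit 47, nat_lit 400000, nat_lit 0, nat_lit 0, [(nat_lit 0, [(nat_lit 5, nat_lit 1000)])],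
 ⟨p001_k85, nat_lit 0, nat_lit 0, nat_lit 0, nat_lit 0, nat_lit 206791, [nat_lit 1602266667, nat_lit 1324488889, nat_lit 544400001, nat_lit 22800000], [], [nat_lit 13115192473, nat_lit 12660559301, nat_lit 13131414063, nat_lit 12479083555], nat_lit 1271250, nat_lit 1271250, nat_lit 0, nat_lit 111251, nat_lit 0, nat_lit 0, [nat_lit 631250, nat_lit 1431250, nat_lit 1271250, nat_lit 1271250], [nat_lit 151, nat_lit 40, nat_lit 20, nat_lit 40]⟩, C1.Rw.none,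
 ⟨nat_lit 6708, nat_lit 6801, ⟨.ofNat (nat_lit 64214), .ofNat (nat_lit 107793), .ofNat (nat_lit 85676), .ofNat (nat_lit 129255), .ofNat (nat_lit 69221), .ofNat (nat_lit 112299), .ofNat (nat_lit 90659), .ofNat (nat_lit 133737)⟩, ⟨.ofNat (nat_lit 0), .ofNat (nat_lit 0), .ofNat (nat_lit 0), .ofNat (nat_lit 0), .ofNat (nat_lit 0), .ofNat (nat_lit 0), .ofNat (nat_lit 0), .ofNat (nat_lit 0)⟩⟩, [⟨nat_lit 0, nat_lit 100, nat_lit 100, nat_lit 14, nat_lit 102171907⟩]⟩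
noncomputable def p001_l234 : Lf2 := ⟨nat_lit 0, nat_lit 1, [nat_lit 19, nat_lit 5, nat_lit 5, nat_lit 20], true, nat_lit 0, nat_lit 0, nat_lit 0, nat_lit 0, ⟨nat_lit 0, nat_lit 0, nat_lit 1000, nat_lit 5, nat_lit 37, nat_lit 0, nat_lit 0, nat_lit 0, nat_lit 0, nat_lit 215, nat_lit 12150, nat_lit 242, nat_lit 66441917, nat_lit 0, nat_lit 0, nat_lit 240581, false, false⟩,
 nat_lit 0, nat_lit 100000, nat_lit 0, nat_lit 0, nat_lit 45323, nat_lit 0, nat_lit 22939, nat_lit 0, nat_lit 0, nat_lit 0, nat_lit 0, nat_lit 0, nat_lit 0, nat_lit 140198995087995, nat_lit 34, nat_lit 1000000, nat_lit 18322146302, nat_lit 0, [(nat_lit 0, [(nat_lit 6, nat_lit 1000)])],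
 ⟨p001_k46, nat_lit 0, nat_lit 0, nat_lit 0, nat_lit 0, nat_lit 167660, [nat_lit 1498000001, nat_lit 592400000, nat_lit 8800000], [], [nat_lit 8407212422, nat_lit 2593880489, nat_lit 5770569683, nat_lit 0], nat_lit 1271250, nat_lit 1271250, nat_lit 0, nat_lit 111251, nat_lit 0, nat_lit 0, [nat_lit 1412500, nat_lit 1271250, nat_lit 1271250], [nat_lit 153, nat_lit 40, nat_lit 20, nat_lit 40]⟩, C1.Rw.none,
 ⟨nat_lit 6800, nat_lit 6893, ⟨.ofNat (nat_lit 59146), .ofNat (nat_lit 103231), .ofNat (nat_lit 75262), .ofNat (nat_lit 119347), .ofNat (nat_lit 64214), .ofNat (nat_lit 107793), .ofNat (nat_lit 80311), .ofNat (nat_lit 123889)⟩, ⟨.ofNat (nat_lit 0), .ofNat (nat_lit 0), .ofNat (nat_lit 0), .ofNat (nat_lit 0), .ofNat (nat_lit 0), .ofNat (nat_lit 0), .ofNat (nat_lit 0), .ofNat (nat_lit 0)⟩⟩, [⟨nat_lit 0, nat_lit 100, nat_lit 100, nat_lit 15, nat_lit 752104767⟩]⟩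
noncomputable def p001_l235 : Lf2 := ⟨nat_lit 0, nat_lit 1, [nat_lit 19, nat_lit 5, nat_lit 5, nat_lit 20], true, nat_lit 0, nat_lit 0, nat_lit 0, nat_lit 0, ⟨nat_lit 0, nat_lit 0, nat_lit 1000, nat_lit 5, nat_lit 39, nat_lit 0, nat_lit 0, nat_lit 0, nat_lit 0, nat_lit 215, nat_lit 14017, nat_lit 244, nat_lit 66374342, nat_lit 0, nat_lit 0, nat_lit 264447, false, false⟩,
 nat_lit 0, nat_lit 100000, nat_lit 0, nat_lit 0, nat_lit 46570, nat_lit 0, nat_lit 14805, nat_lit 165, nat_lit 0, nat_lit 0, nat_lit 0, nat_lit 0, nat_lit 0, nat_lit 139867163624261, nat_lit 0, nat_lit 1000000, nat_lit 13117057329, nat_lit 0, [(nat_lit 0, [(nat_lit 6, nat_lit 1000)])],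
 ⟨p001_k86, nat_lit 0, nat_lit 0, nat_lit 0, nat_lit 0, nat_lit 186855, [nat_lit 4118000001, nat_lit 3474400001, nat_lit 3152800000], [], [nat_lit 6235094597, nat_lit 2657901481, nat_lit 3557603382, nat_lit 0], nat_lit 1271250, nat_lit 1271250, nat_lit 0, nat_lit 111251, nat_lit 0, nat_lit 0, [nat_lit 1412500, nat_lit 1271250, nat_lit 1271250], [nat_lit 153, nat_lit 40, nat_lit 20, nat_lit 40]⟩, C1.Rw.none,
 ⟨nat_lit 6745, nat_lit 6801, ⟨.ofNat (nat_lit 64214), .ofNat (nat_lit 107793), .ofNat (nat_lit 83530), .ofNat (nat_lit 127109), .ofNat (nat_lit 67226), .ofNat (nat_lit 110503), .ofNat (nat_lit 86528), .ofNat (nat_lit 129806)⟩, ⟨.ofNat (nat_lit 0), .ofNat (nat_lit 0), .ofNat (nat_lit 0), .ofNat (nat_lit 0), .ofNat (nat_lit 0), .ofNat (nat_lit 0), .ofNat (nat_lit 0), .ofNat (nat_lit 0)⟩⟩, [⟨nat_lit 0, nat_lit 100, nat_lit 100, nat_lit 18, nat_lit 766641065⟩]⟩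
noncomputable def p001_l236 : Lf2 := ⟨nat_lit 0, nat_lit 1, [nat_lit 19, nat_lit 5, nat_lit 5, nat_lit 20], false, nat_lit 0, nat_lit 0, nat_lit 0, nat_lit 0, ⟨nat_lit 885, nat_lit 0, nat_lit 115, nat_lit 5, nat_lit 40, nat_lit 0, nat_lit 0, nat_lit 0, nat_lit 0, nat_lit 215, nat_lit 15000, nat_lit 245, nat_lit 66342856, nat_lit 0, nat_lit 0, nat_lit 275371, false, false⟩,
 nat_lit 0, nat_lit 100000, nat_lit 0, nat_lit 0, nat_lit 47322, nat_lit 9482, nat_lit 16497, nat_lit 0, nat_lit 0, nat_lit 6739, nat_lit 0, nat_lit 0, nat_lit 0, nat_lit 108150114377876, nat_lit 0, nat_lit 115000, nat_lit 10543411759, nat_lit 0, [(nat_lit 0, [(nat_lit 6, nat_lit 115)])],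
 ⟨p001_k87, nat_lit 0, nat_lit 0, nat_lit 0, nat_lit 0, nat_lit 191574, [nat_lit 5625320000, nat_lit 6256313501, nat_lit 6958852000], [], [nat_lit 3906140327, nat_lit 2858764406, nat_lit 1205016872, nat_lit 0], nat_lit 1271250, nat_lit 1271250, nat_lit 0, nat_lit 111251, nat_lit 0, nat_lit 0, [nat_lit 1412500, nat_lit 1271250, nat_lit 1271250], [nat_lit 153, nat_lit 40, nat_lit 20, nat_lit 40]⟩, ⟨p001_k40, nat_lit 0, nat_lit 0, nat_lit 0, nat_lit 0, nat_lit 0, [nat_lit 5531250000, nat_lit 6274207500, nat_lit 7051680000], [], [nat_lit 18266629080, nat_lit 19760567079, nat_lit 15611570244, nat_lit 17106698678], nat_lit 0, nat_lit 0, nat_lit 0, nat_lit 0, nat_lit 0, nat_lit 0, [], [nat_lit 153, nat_lit 40, nat_lit 20, nat_lit 40]⟩,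
 ⟨nat_lit 6726, nat_lit 6746, ⟨.ofNat (nat_lit 67226), .ofNat (nat_lit 110503), .ofNat (nat_lit 87601), .ofNat (nat_lit 130878), .ofNat (nat_lit 68224), .ofNat (nat_lit 111402), .ofNat (nat_lit 88595), .ofNat (nat_lit 131773)⟩, ⟨.ofNat (nat_lit 0), .ofNat (nat_lit 0), .ofNat (nat_lit 0), .ofNat (nat_lit 0), .ofNat (nat_lit 0), .ofNat (nat_lit 0), .ofNat (nat_lit 0), .ofNat (nat_lit 0)⟩⟩, [⟨nat_lit 0, nat_lit 100, nat_lit 100, nat_lit 19, nat_lit 2142890898⟩]⟩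
noncomputable def p001_l237 : Lf2 := ⟨nat_lit 0, nat_lit 1, [nat_lit 19, nat_lit 5, nat_lit 5, nat_lit 20], false, nat_lit 0, nat_lit 0, nat_lit 0, nat_lit 0, ⟨nat_lit 941, nat_lit 0, nat_lit 59, nat_lit 5, nat_lit 40, nat_lit 0, nat_lit 0, nat_lit 0, nat_lit 0, nat_lit 215, nat_lit 15000, nat_lit 245, nat_lit 66323345, nat_lit 0, nat_lit 0, nat_lit 282080, false, false⟩,
 nat_lit 0, nat_lit 100000, nat_lit 0, nat_lit 0, nat_lit 47574, nat_lit 10064, nat_lit 16406, nat_lit 62, nat_lit 0, nat_lit 7145, nat_lit 0, nat_lit 0, nat_lit 0, nat_lit 105327344419982, nat_lit 0, nat_lit 59000, nat_lit 7377770344, nat_lit 0, [(nat_lit 0, [(nat_lit 6, nat_lit 59)])],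
 ⟨p001_k62, nat_lit 0, nat_lit 0, nat_lit 0, nat_lit 0, nat_lit 198192, [nat_lit 7169512000, nat_lit 8026039101, nat_lit 8938263200], [], [nat_lit 3920333909, nat_lit 2905155172, nat_lit 1211433851, nat_lit 0], nat_lit 1271250, nat_lit 1271250, nat_lit 0, nat_lit 111251, nat_lit 0, nat_lit 0, [nat_lit 1412500, nat_lit 1271250, nat_lit 1271250], [nat_lit 153, nat_lit 40, nat_lit 20, nat_lit 40]⟩, ⟨p001_k40, nat_lit 0, nat_lit 0, nat_lit 0, nat_lit 0, nat_lit 0, [nat_lit 5881250000, nat_lit 6671219500, nat_lit 7497888000], [], [nat_lit 19435474848, nat_lit 21113106612, nat_lit 16617867652, nat_lit 18289379784], nat_lit 0, nat_lit 0, nat_lit 0, nat_lit 0, nat_lit 0, nat_lit 0, [], [nat_lit 153, nat_lit 40, nat_lit 20, nat_lit 40]⟩,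
 ⟨nat_lit 6708, nat_lit 6727, ⟨.ofNat (nat_lit 68224), .ofNat (nat_lit 111402), .ofNat (nat_lit 89667), .ofNat (nat_lit 132845), .ofNat (nat_lit 69221), .ofNat (nat_lit 112299), .ofNat (nat_lit 90659), .ofNat (nat_lit 133737)⟩, ⟨.ofNat (nat_lit 0), .ofNat (nat_lit 0), .ofNat (nat_lit 0), .ofNat (nat_lit 0), .ofNat (nat_lit 0), .ofNat (nat_lit 0), .ofNat (nat_lit 0), .ofNat (nat_lit 0)⟩⟩, [⟨nat_lit 0, nat_lit 100, nat_lit 100, nat_lit 20, nat_lit 2226219465⟩]⟩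
noncomputable def p001_l238 : Lf2 := ⟨nat_lit 0, nat_lit 2, [nat_lit 10, nat_lit 5, nat_lit 5, nat_lit 20], true, nat_lit 0, nat_lit 0, nat_lit 0, nat_lit 0, ⟨nat_lit 0, nat_lit 0, nat_lit 1000, nat_lit 5, nat_lit 37, nat_lit 0, nat_lit 0, nat_lit 0, nat_lit 0, nat_lit 215, nat_lit 12150, nat_lit 242, nat_lit 66441917, nat_lit 0, nat_lit 0, nat_lit 240581, false, false⟩,
 nat_lit 0, nat_lit 100000, nat_lit 0, nat_lit 0, nat_lit 45323, nat_lit 0, nat_lit 20565, nat_lit 1741, nat_lit 0, nat_lit 0, nat_lit 0, nat_lit 0, nat_lit 0, nat_lit 127137658250024, nat_lit 0, nat_lit 302950, nat_lit 0, nat_lit 0, [(nat_lit 0, [(nat_lit 4, nat_lit 647), (nat_lit 5, nat_lit 353)])],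
 ⟨p001_k88, nat_lit 0, nat_lit 0, nat_lit 0, nat_lit 0, nat_lit 117160, [nat_lit 37462240000, nat_lit 41236890801, nat_lit 44153498000], [], [nat_lit 66609226401, nat_lit 67646297278, nat_lit 53544688875, nat_lit 54230245704], nat_lit 1271250, nat_lit 1271250, nat_lit 0, nat_lit 111251, nat_lit 0, nat_lit 0, [nat_lit 1412500, nat_lit 1271250, nat_lit 1271250], [nat_lit 156, nat_lit 40, nat_lit 20, nat_lit 40]⟩, C1.Rw.none,
 ⟨nat_lit 6800, nat_lit 6893, ⟨.ofNat (nat_lit 59146), .ofNat (nat_lit 103231), .ofNat (nat_lit 75262), .ofNat (nat_lit 119347), .ofNat (nat_lit 64214), .ofNat (nat_lit 107793), .ofNat (nat_lit 80311), .ofNat (nat_lit 123889)⟩, ⟨.ofNat (nat_lit 0), .ofNat (nat_lit 0), .ofNat (nat_lit 0), .ofNat (nat_lit 0), .ofNat (nat_lit 0), .ofNat (nat_lit 0), .ofNat (nat_lit 0), .ofNat (nat_lit 0)⟩⟩, [⟨nat_lit 0, nat_lit 100, nat_lit 100, nat_lit 15, nat_lit 3457609303⟩]⟩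
noncomputable def p001_l239 : Lf2 := ⟨nat_lit 0, nat_lit 2, [nat_lit 10, nat_lit 5, nat_lit 5, nat_lit 20], true, nat_lit 0, nat_lit 0, nat_lit 0, nat_lit 0, ⟨nat_lit 0, nat_lit 0, nat_lit 1000, nat_lit 5, nat_lit 40, nat_lit 0, nat_lit 0, nat_lit 0, nat_lit 0, nat_lit 215, nat_lit 15000, nat_lit 245, nat_lit 66348317, nat_lit 0, nat_lit 0, nat_lit 273484, false, false⟩,
 nat_lit 0, nat_lit 100000, nat_lit 0, nat_lit 0, nat_lit 46570, nat_lit 0, nat_lit 24962, nat_lit 1660, nat_lit 0, nat_lit 0, nat_lit 0, nat_lit 0, nat_lit 0, nat_lit 120996116251999, nat_lit 0, nat_lit 400000, nat_lit 0, nat_lit 0, [(nat_lit 0, [(nat_lit 5, nat_lit 1000)])],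
 ⟨p001_k85, nat_lit 0, nat_lit 0, nat_lit 0, nat_lit 0, nat_lit 154421, [nat_lit 17732266667, nat_lit 33584488889, nat_lit 39256400000, nat_lit 41960800000], [], [nat_lit 49746603875, nat_lit 50808485849, nat_lit 42517629030, nat_lit 37023284060], nat_lit 1271250, nat_lit 1271250, nat_lit 0, nat_lit 111251, nat_lit 0, nat_lit 0, [nat_lit 631250, nat_lit 1431250, nat_lit 1271250, nat_lit 1271250], [nat_lit 151, nat_lit 40, nat_lit 20, nat_lit 40]⟩, C1.Rw.none,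
 ⟨nat_lit 6708, nat_lit 6801, ⟨.ofNat (nat_lit 64214), .ofNat (nat_lit 107793), .ofNat (nat_lit 85676), .ofNat (nat_lit 129255), .ofNat (nat_lit 69221), .ofNat (nat_lit 112299), .ofNat (nat_lit 90659), .ofNat (nat_lit 133737)⟩, ⟨.ofNat (nat_lit 0), .ofNat (nat_lit 0), .ofNat (nat_lit 0), .ofNat (nat_lit 0), .ofNat (nat_lit 0), .ofNat (nat_lit 0), .ofNat (nat_lit 0), .ofNat (nat_lit 0)⟩⟩, [⟨nat_lit 0, nat_lit 100, nat_lit 100, nat_lit 20, nat_lit 3549728174⟩]⟩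
noncomputable def p001_l240 : Lf2 := ⟨nat_lit 0, nat_lit 1, [nat_lit 19, nat_lit 5, nat_lit 5, nat_lit 20], false, nat_lit 0, nat_lit 0, nat_lit 0, nat_lit 0, ⟨nat_lit 1000, nat_lit 0, nat_lit 0, nat_lit 0, nat_lit 0, nat_lit 0, nat_lit 0, nat_lit 0, nat_lit 0, nat_lit 0, nat_lit 0, nat_lit 0, nat_lit 0, nat_lit 0, nat_lit 0, nat_lit 0, false, false⟩,
 nat_lit 0, nat_lit 58345, nat_lit 0, nat_lit 0, nat_lit 25004, nat_lit 12153, nat_lit 5316, nat_lit 0, nat_lit 0, nat_lit 8520, nat_lit 0, nat_lit 0, nat_lit 0, nat_lit 72955181008654, nat_lit 0, nat_lit 0, nat_lit 0, nat_lit 0, [],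
 ⟨p001_k40, nat_lit 0, nat_lit 0, nat_lit 0, nat_lit 0, nat_lit 135865, [nat_lit 6250000000, nat_lit 7089500001, nat_lit 7968000000], [], [nat_lit 26056095712, nat_lit 19937651556, nat_lit 25625150784, nat_lit 19304589656], nat_lit 1271250, nat_lit 1271250, nat_lit 111251, nat_lit 230001, nat_lit 0, nat_lit 0, [nat_lit 1412500, nat_lit 1271250, nat_lit 1271250], [nat_lit 153, nat_lit 40, nat_lit 20, nat_lit 40]⟩, ⟨p001_k40, nat_lit 0, nat_lit 0, nat_lit 0, nat_lit 0, nat_lit 0, [nat_lit 6250000000, nat_lit 7089500000, nat_lit 7968000000], [], [nat_lit 16164872816, nat_lit 17341482642, nat_lit 14039525992, nat_lit 14994588265], nat_lit 0, nat_lit 0, nat_lit 0, nat_lit 0, nat_lit 0, nat_lit 0, [], [nat_lit 153, nat_lit 40, nat_lit 20, nat_lit 40]⟩,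
 zbF0, []⟩
noncomputable def p001_l241 : Lf2 := ⟨nat_lit 0, nat_lit 1, [nat_lit 19, nat_lit 5, nat_lit 5, nat_lit 20], false, nat_lit 0, nat_lit 0, nat_lit 0, nat_lit 0, ⟨nat_lit 1000, nat_lit 0, nat_lit 0, nat_lit 0, nat_lit 0, nat_lit 0, nat_lit 0, nat_lit 0, nat_lit 0, nat_lit 0, nat_lit 0, nat_lit 0, nat_lit 0, nat_lit 0, nat_lit 0, nat_lit 0, false, false⟩,
 nat_lit 0, nat_lit 37255, nat_lit 0, nat_lit 0, nat_lit 16885, nat_lit 11945, nat_lit 689, nat_lit 0, nat_lit 0, nat_lit 7973, nat_lit 0, nat_lit 0, nat_lit 0, nat_lit 46442214712344, nat_lit 0, nat_lit 0, nat_lit 0, nat_lit 0, [],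
 ⟨p001_k46, nat_lit 0, nat_lit 0, nat_lit 0, nat_lit 0, nat_lit 208188, [nat_lit 6250000000, nat_lit 7089500001, nat_lit 7968000000], [], [nat_lit 26060120110, nat_lit 22338834440, nat_lit 25954748890, nat_lit 21686524820], nat_lit 1271250, nat_lit 1271250, nat_lit 111251, nat_lit 230001, nat_lit 0, nat_lit 0, [nat_lit 1412500, nat_lit 1271250, nat_lit 1271250], [nat_lit 153, nat_lit 40, nat_lit 20, nat_lit 40]⟩, ⟨p001_k40, nat_lit 0, nat_lit 0, nat_lit 0, nat_lit 0, nat_lit 0, [nat_lit 6250000000, nat_lit 7089500000, nat_lit 7968000000], [], [nat_lit 16378141040, nat_lit 18704523455, nat_lit 14295061480, nat_lit 16183536970], nat_lit 0, nat_lit 0, nat_lit 0, nat_lit 0, nat_lit 0, nat_lit 0, [], [nat_lit 153, nat_lit 40, nat_lit 20, nat_lit 40]⟩,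
 zbF0, []⟩
noncomputable def p001_l242 : Lf2 := ⟨nat_lit 0, nat_lit 2, [nat_lit 10, nat_lit 5, nat_lit 5, nat_lit 20], true, nat_lit 0, nat_lit 0, nat_lit 0, nat_lit 0, ⟨nat_lit 0, nat_lit 0, nat_lit 1000, nat_lit 5, nat_lit 51, nat_lit 0, nat_lit 0, nat_lit 0, nat_lit 0, nat_lit 215, nat_lit 24067, nat_lit 253, nat_lit 65948639, nat_lit 0, nat_lit 0, nat_lit 403724, false, false⟩,
 nat_lit 0, nat_lit 12549, nat_lit 0, nat_lit 0, nat_lit 5378, nat_lit 0, nat_lit 1780, nat_lit 0, nat_lit 0, nat_lit 0, nat_lit 0, nat_lit 0, nat_lit 0, nat_lit 27692879507395, nat_lit 67, nat_lit 1000000, nat_lit 0, nat_lit 0, [(nat_lit 0, [(nat_lit 6, nat_lit 1000)])],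
 ⟨p001_k47, nat_lit 0, nat_lit 0, nat_lit 0, nat_lit 0, nat_lit 81328, [nat_lit 2158000000, nat_lit 1318400001, nat_lit 283199999], [], [nat_lit 11977340464, nat_lit 11042714645, nat_lit 12038320512, nat_lit 10571761424], nat_lit 1271250, nat_lit 1271250, nat_lit 111251, nat_lit 230001, nat_lit 0, nat_lit 0, [nat_lit 1412500, nat_lit 1271250, nat_lit 1271250], [nat_lit 163, nat_lit 40, nat_lit 20, nat_lit 40]⟩, C1.Rw.none,
 ⟨nat_lit 6892, nat_lit 7072, ⟨.ofNat (nat_lit 93932), .ofNat (nat_lit 139051), .ofNat (nat_lit 104707), .ofNat (nat_lit 149825), .ofNat (nat_lit 103231), .ofNat (nat_lit 147316), .ofNat (nat_lit 113975), .ofNat (nat_lit 158060)⟩, ⟨.ofNat (nat_lit 0), .ofNat (nat_lit 0), .ofNat (nat_lit 0), .ofNat (nat_lit 0), .ofNat (nat_lit 0), .ofNat (nat_lit 0), .ofNat (nat_lit 0), .ofNat (nat_lit 0)⟩⟩, []⟩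
noncomputable def p001_l243 : Lf2 := ⟨nat_lit 0, nat_lit 2, [nat_lit 10, nat_lit 5, nat_lit 5, nat_lit 20], true, nat_lit 0, nat_lit 0, nat_lit 0, nat_lit 0, ⟨nat_lit 0, nat_lit 0, nat_lit 1000, nat_lit 5, nat_lit 56, nat_lit 0, nat_lit 0, nat_lit 0, nat_lit 0, nat_lit 215, nat_lit 29400, nat_lit 257, nat_lit 65706853, nat_lit 0, nat_lit 0, nat_lit 476467, false, false⟩,
 nat_lit 0, nat_lit 12415, nat_lit 0, nat_lit 0, nat_lit 5626, nat_lit 0, nat_lit 1502, nat_lit 0, nat_lit 0, nat_lit 0, nat_lit 0, nat_lit 0, nat_lit 0, nat_lit 28287618668489, nat_lit 67, nat_lit 1000000, nat_lit 0, nat_lit 0, [(nat_lit 0, [(nat_lit 6, nat_lit 1000)])],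
 ⟨p001_k89, nat_lit 0, nat_lit 0, nat_lit 0, nat_lit 0, nat_lit 158800, [nat_lit 2158000000, nat_lit 1318400001, nat_lit 283199999], [], [nat_lit 11252040345, nat_lit 11731564065, nat_lit 11019182661, nat_lit 11075964357], nat_lit 1271250, nat_lit 1271250, nat_lit 111251, nat_lit 230001, nat_lit 0, nat_lit 0, [nat_lit 1412500, nat_lit 1271250, nat_lit 1271250], [nat_lit 163, nat_lit 40, nat_lit 20, nat_lit 40]⟩, C1.Rw.none,
 ⟨nat_lit 6708, nat_lit 6893, ⟨.ofNat (nat_lit 103231), .ofNat (nat_lit 147316), .ofNat (nat_lit 124719), .ofNat (nat_lit 168805), .ofNat (nat_lit 112299), .ofNat (nat_lit 155377), .ofNat (nat_lit 133737), .ofNat (nat_lit 176815)⟩, ⟨.ofNat (nat_lit 0), .ofNat (nat_lit 0), .ofNat (nat_lit 0), .ofNat (nat_lit 0), .ofNat (nat_lit 0), .ofNat (nat_lit 0), .ofNat (nat_lit 0), .ofNat (nat_lit 0)⟩⟩, []⟩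
noncomputable def p001_l244 : Lf2 := ⟨nat_lit 0, nat_lit 2, [nat_lit 10, nat_lit 5, nat_lit 5, nat_lit 20], true, nat_lit 0, nat_lit 0, nat_lit 0, nat_lit 0, ⟨nat_lit 0, nat_lit 0, nat_lit 1000, nat_lit 5, nat_lit 42, nat_lit 0, nat_lit 0, nat_lit 0, nat_lit 0, nat_lit 215, nat_lit 16017, nat_lit 246, nat_lit 66283611, nat_lit 0, nat_lit 0, nat_lit 295612, false, false⟩,
 nat_lit 0, nat_lit 100000, nat_lit 0, nat_lit 0, nat_lit 42857, nat_lit 0, nat_lit 21553, nat_lit 669, nat_lit 0, nat_lit 0, nat_lit 0, nat_lit 0, nat_lit 0, nat_lit 144405826971291, nat_lit 0, nat_lit 1000000, nat_lit 0, nat_lit 0, [(nat_lit 0, [(nat_lit 6, nat_lit 1000)])],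
 ⟨p001_k33, nat_lit 0, nat_lit 0, nat_lit 353, nat_lit 0, nat_lit 138901, [nat_lit 14198000001, nat_lit 15248800001, nat_lit 16238400000], [], [nat_lit 42986563459, nat_lit 31994473543, nat_lit 39358925475, nat_lit 28525447301], nat_lit 1271250, nat_lit 1271250, nat_lit 0, nat_lit 230001, nat_lit 0, nat_lit 0, [nat_lit 1412500, nat_lit 1271250, nat_lit 1271250], [nat_lit 25, nat_lit 40, nat_lit 20, nat_lit 80, nat_lit 17, nat_lit 289, nat_lit 75, nat_lit 9]⟩, C1.Rw.none,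
 ⟨nat_lit 6892, nat_lit 7072, ⟨.ofNat (nat_lit 48814), .ofNat (nat_lit 139051), .ofNat (nat_lit 59588), .ofNat (nat_lit 149825), .ofNat (nat_lit 59146), .ofNat (nat_lit 147316), .ofNat (nat_lit 69890), .ofNat (nat_lit 158060)⟩, ⟨.ofNat (nat_lit 0), .ofNat (nat_lit 0), .ofNat (nat_lit 0), .ofNat (nat_lit 0), .ofNat (nat_lit 0), .ofNat (nat_lit 0), .ofNat (nat_lit 0), .ofNat (nat_lit 0)⟩⟩, [⟨nat_lit 0, nat_lit 100, nat_lit 100, nat_lit 10, nat_lit 539668087⟩]⟩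
noncomputable def p001_l245 : Lf2 := ⟨nat_lit 0, nat_lit 2, [nat_lit 10, nat_lit 5, nat_lit 5, nat_lit 20], true, nat_lit 0, nat_lit 0, nat_lit 0, nat_lit 0, ⟨nat_lit 0, nat_lit 0, nat_lit 1000, nat_lit 5, nat_lit 47, nat_lit 0, nat_lit 0, nat_lit 0, nat_lit 0, nat_lit 215, nat_lit 21600, nat_lit 251, nat_lit 66072250, nat_lit 0, nat_lit 0, nat_lit 364947, false, false⟩,
 nat_lit 0, nat_lit 100000, nat_lit 0, nat_lit 0, nat_lit 45323, nat_lit 0, nat_lit 6589, nat_lit 2140, nat_lit 0, nat_lit 0, nat_lit 0, nat_lit 0, nat_lit 0, nat_lit 114966261656807, nat_lit 0, nat_lit 1000000, nat_lit 0, nat_lit 0, [(nat_lit 0, [(nat_lit 6, nat_lit 1000)])],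
 ⟨p001_k58, nat_lit 0, nat_lit 0, nat_lit 387, nat_lit 0, nat_lit 212655, [nat_lit 43618000001, nat_lit 50552800001, nat_lit 57426400000], [], [nat_lit 118485066120, nat_lit 106859779211, nat_lit 114765581225, nat_lit 103308742639], nat_lit 1271250, nat_lit 1271250, nat_lit 0, nat_lit 230001, nat_lit 0, nat_lit 0, [nat_lit 1412500, nat_lit 1271250, nat_lit 1271250], [nat_lit 25, nat_lit 40, nat_lit 20, nat_lit 80, nat_lit 17, nat_lit 289, nat_lit 75, nat_lit 9]⟩, C1.Rw.none,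
 ⟨nat_lit 6708, nat_lit 6893, ⟨.ofNat (nat_lit 59146), .ofNat (nat_lit 147316), .ofNat (nat_lit 80634), .ofNat (nat_lit 168805), .ofNat (nat_lit 69221), .ofNat (nat_lit 155377), .ofNat (nat_lit 90659), .ofNat (nat_lit 176815)⟩, ⟨.ofNat (nat_lit 0), .ofNat (nat_lit 0), .ofNat (nat_lit 0), .ofNat (nat_lit 0), .ofNat (nat_lit 0), .ofNat (nat_lit 0), .ofNat (nat_lit 0), .ofNat (nat_lit 0)⟩⟩, [⟨nat_lit 0, nat_lit 100, nat_lit 100, nat_lit 20, nat_lit 549200561⟩]⟩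
noncomputable def p001_l246 : Lf2 := ⟨nat_lit 0, nat_lit 2, [nat_lit 10, nat_lit 5, nat_lit 5, nat_lit 20], false, nat_lit 0, nat_lit 0, nat_lit 0, nat_lit 0, ⟨nat_lit 0, nat_lit 0, nat_lit 1000, nat_lit 5, nat_lit 46, nat_lit 0, nat_lit 0, nat_lit 0, nat_lit 0, nat_lit 215, nat_lit 19267, nat_lit 249, nat_lit 66142488, nat_lit 0, nat_lit 0, nat_lit 342362, false, false⟩,
 nat_lit 0, nat_lit 14413, nat_lit 0, nat_lit 0, nat_lit 6177, nat_lit 100000, nat_lit 0, nat_lit 0, nat_lit 0, nat_lit 31834, nat_lit 5662, nat_lit 0, nat_lit 0, nat_lit 80511325758435, nat_lit 90, nat_lit 1000000, nat_lit 0, nat_lit 0, [(nat_lit 0, [(nat_lit 6, nat_lit 1000)])],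
 ⟨p001_k33, nat_lit 0, nat_lit 0, nat_lit 422, nat_lit 0, nat_lit 225295, [nat_lit 2618000001, nat_lit 1352800000, nat_lit 26400000], [], [nat_lit 19726406019, nat_lit 16557246753, nat_lit 19990956195, nat_lit 16868087367], nat_lit 1271250, nat_lit 1271250, nat_lit 0, nat_lit 230001, nat_lit 0, nat_lit 0, [nat_lit 1412500, nat_lit 1271250, nat_lit 1271250], [nat_lit 25, nat_lit 40, nat_lit 20, nat_lit 80, nat_lit 17, nat_lit 289, nat_lit 75, nat_lit 9]⟩, ⟨p001_k33, nat_lit 0, nat_lit 0, nat_lit 0, nat_lit 0, nat_lit 0, [nat_lit 113240000000, nat_lit 135888000000, nat_lit 158536000000], [], [nat_lit 189367200000, nat_lit 198866893750, nat_lit 138584800000, nat_lit 148034400000], nat_lit 0, nat_lit 0, nat_lit 0, nat_lit 0, nat_lit 0, nat_lit 0, [], [nat_lit 25, nat_lit 40, nat_lit 20, nat_lit 80]⟩,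
 ⟨nat_lit 6708, nat_lit 7072, ⟨.ofNat (nat_lit 48814), .ofNat (nat_lit 139051), .ofNat (nat_lit 70362), .ofNat (nat_lit 160599), .ofNat (nat_lit 69221), .ofNat (nat_lit 155377), .ofNat (nat_lit 90659), .ofNat (nat_lit 176815)⟩, ⟨.ofNat (nat_lit 0), .ofNat (nat_lit 0), .ofNat (nat_lit 0), .ofNat (nat_lit 0), .ofNat (nat_lit 0), .ofNat (nat_lit 0), .ofNat (nat_lit 0), .ofNat (nat_lit 0)⟩⟩, [⟨nat_lit 0, nat_lit 100, nat_lit 100, nat_lit 10, nat_lit 1403518076⟩, ⟨nat_lit 0, nat_lit 100, nat_lit 100, nat_lit 20, nat_lit 5009630307⟩]⟩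
noncomputable def b_NL_500_500_0_1 : St := ⟨false, nat_lit 1, nat_lit 0, nat_lit 1, nat_lit 20, nat_lit 200, nat_lit 220, nat_lit 200, nat_lit 220, nat_lit 0, nat_lit 40, nat_lit 0, nat_lit 0, nat_lit 0, nat_lit 0, nat_lit 0, nat_lit 0, nat_lit 0, nat_lit 8, nat_lit 0, nat_lit 0, nat_lit 0, nat_lit 800⟩
theorem d_NL_500_500_0_1 (h : EB TB.env) : Dead b_NL_500_500_0_1 := chkB_sound0 h (T :=
(.spl (nat_lit 8) (nat_lit 400)
(.spl (nat_lit 7) (nat_lit 600)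
(.spl (nat_lit 7) (nat_lit 300)
(.leaf p001_l229)
(.spl (nat_lit 2) (nat_lit 20)
(.spl (nat_lit 0) (nat_lit 210)
(.ord (.spl (nat_lit 0) (nat_lit 205)
(.ord (.leaf p001_l230))
(.leaf p001_l231)))
(.spl (nat_lit 7) (nat_lit 460)
(.spl (nat_lit 0) (nat_lit 215)
(.ord (.leaf p001_l232))
(.leaf p001_l233))
(.spl (nat_lit 6) (nat_lit 4)
(.spl (nat_lit 0) (nat_lit 215)
(.ord (.leaf p001_l234))
(.spl (nat_lit 0) (nat_lit 218)
(.ord (.leaf p001_l235))
(.spl (nat_lit 0) (nat_lit 219)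
(.ord (.leaf p001_l236))
(.leaf p001_l237))))
(.spl (nat_lit 0) (nat_lit 215)
(.ord (.leaf p001_l238))
(.leaf p001_l239)))))
(.spl (nat_lit 6) (nat_lit 4)
(.spl (nat_lit 0) (nat_lit 210)
(.ord (.leaf p001_l240))
(.leaf p001_l241))
(.spl (nat_lit 0) (nat_lit 210)
(.ord (.leaf p001_l242))
(.leaf p001_l243)))))
(.spl (nat_lit 0) (nat_lit 210)
(.ord (.leaf p001_l244))
(.leaf p001_l245)))
(.leaf p001_l246))) (by decide +kernel)
noncomputable def p001_l247 : Lf2 := ⟨nat_lit 0, nat_lit 4, [nat_lit 38, nat_lit 5, nat_lit 5, nat_lit 20], true, nat_lit 0, nat_lit 0, nat_lit 0, nat_lit 0, ⟨nat_lit 0, nat_lit 0, nat_lit 1000, nat_lit 5, nat_lit 36, nat_lit 0, nat_lit 0, nat_lit 0, nat_lit 0, nat_lit 215, nat_lit 12150, nat_lit 242, nat_lit 66461020, nat_lit 0, nat_lit 0, nat_lit 233714, false, false⟩,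
 nat_lit 0, nat_lit 11288, nat_lit 0, nat_lit 0, nat_lit 5256, nat_lit 0, nat_lit 935, nat_lit 0, nat_lit 0, nat_lit 0, nat_lit 0, nat_lit 0, nat_lit 0, nat_lit 26998844973534, nat_lit 90, nat_lit 1000000, nat_lit 0, nat_lit 0, [(nat_lit 0, [(nat_lit 6, nat_lit 1000)])],
 ⟨p001_k69, nat_lit 0, nat_lit 0, nat_lit 328, nat_lit 0, nat_lit 80241, [nat_lit 2618000001, nat_lit 1352800000, nat_lit 26400000], [], [nat_lit 13315951178, nat_lit 13360347714, nat_lit 12878876113, nat_lit 12923210880], nat_lit 1271250, nat_lit 1271250, nat_lit 0, nat_lit 43600, nat_lit 0, nat_lit 0, [nat_lit 1412500, nat_lit 1271250, nat_lit 1271250], [nat_lit 25, nat_lit 40, nat_lit 20, nat_lit 80, nat_lit 17, nat_lit 272, nat_lit 60, nat_lit 9]⟩, C1.Rw.none,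
 ⟨nat_lit 6782, nat_lit 6801, ⟨.ofNat (nat_lit 80311), .ofNat (nat_lit 97742), .ofNat (nat_lit 81384), .ofNat (nat_lit 98815), .ofNat (nat_lit 81313), .ofNat (nat_lit 98704), .ofNat (nat_lit 82386), .ofNat (nat_lit 99777)⟩, ⟨.ofNat (nat_lit 0), .ofNat (nat_lit 0), .ofNat (nat_lit 0), .ofNat (nat_lit 0), .ofNat (nat_lit 0), .ofNat (nat_lit 0), .ofNat (nat_lit 0), .ofNat (nat_lit 0)⟩⟩, [⟨nat_lit 0, nat_lit 100, nat_lit 100, nat_lit 16, nat_lit 378220872⟩]⟩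
noncomputable def p001_l248 : Lf2 := ⟨nat_lit 0, nat_lit 4, [nat_lit 38, nat_lit 5, nat_lit 5, nat_lit 20], true, nat_lit 0, nat_lit 0, nat_lit 0, nat_lit 0, ⟨nat_lit 0, nat_lit 0, nat_lit 1000, nat_lit 5, nat_lit 35, nat_lit 0, nat_lit 0, nat_lit 0, nat_lit 0, nat_lit 215, nat_lit 11267, nat_lit 241, nat_lit 66500212, nat_lit 0, nat_lit 0, nat_lit 219478, false, false⟩,
 nat_lit 0, nat_lit 11280, nat_lit 0, nat_lit 0, nat_lit 5281, nat_lit 0, nat_lit 898, nat_lit 0, nat_lit 0, nat_lit 0, nat_lit 0, nat_lit 0, nat_lit 0, nat_lit 0, nat_lit 90, nat_lit 1000000, nat_lit 0, nat_lit 0, [(nat_lit 0, [(nat_lit 6, nat_lit 1000)])],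
 ⟨p001_k90, nat_lit 0, nat_lit 0, nat_lit 330, nat_lit 0, nat_lit 84035, [nat_lit 2618000001, nat_lit 1352800000, nat_lit 26400000], [], [nat_lit 13426676786, nat_lit 13489035870, nat_lit 13093409025, nat_lit 13137851100], nat_lit 1271250, nat_lit 1271250, nat_lit 0, nat_lit 21650, nat_lit 0, nat_lit 0, [nat_lit 1412500, nat_lit 1271250, nat_lit 1271250], [nat_lit 25, nat_lit 40, nat_lit 20, nat_lit 80, nat_lit 17, nat_lit 272, nat_lit 60, nat_lit 8]⟩, C1.Rw.none,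
 ⟨nat_lit 6763, nat_lit 6783, ⟨.ofNat (nat_lit 81313), .ofNat (nat_lit 90009), .ofNat (nat_lit 82386), .ofNat (nat_lit 91082), .ofNat (nat_lit 82313), .ofNat (nat_lit 90989), .ofNat (nat_lit 83386), .ofNat (nat_lit 92062)⟩, ⟨.ofNat (nat_lit 0), .ofNat (nat_lit 0), .ofNat (nat_lit 0), .ofNat (nat_lit 0), .ofNat (nat_lit 0), .ofNat (nat_lit 0), .ofNat (nat_lit 0), .ofNat (nat_lit 0)⟩⟩, [⟨nat_lit 0, nat_lit 100, nat_lit 100, nat_lit 16, nat_lit 545319925⟩]⟩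
noncomputable def p001_l249 : Lf2 := ⟨nat_lit 0, nat_lit 3, [nat_lit 45, nat_lit 5, nat_lit 5, nat_lit 20], false, nat_lit 0, nat_lit 0, nat_lit 0, nat_lit 0, ⟨nat_lit 1000, nat_lit 0, nat_lit 0, nat_lit 0, nat_lit 0, nat_lit 0, nat_lit 0, nat_lit 0, nat_lit 0, nat_lit 0, nat_lit 0, nat_lit 0, nat_lit 0, nat_lit 0, nat_lit 0, nat_lit 0, false, false⟩,
 nat_lit 0, nat_lit 24982, nat_lit 0, nat_lit 0, nat_lit 11696, nat_lit 0, nat_lit 4608, nat_lit 0, nat_lit 0, nat_lit 0, nat_lit 0, nat_lit 600, nat_lit 0, nat_lit 0, nat_lit 0, nat_lit 0, nat_lit 0, nat_lit 0, [],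
 ⟨p001_k91, nat_lit 0, nat_lit 0, nat_lit 331, nat_lit 0, nat_lit 87500, [nat_lit 6250000000, nat_lit 7968000001, nat_lit 9842000000], [], [nat_lit 23507224553, nat_lit 23583521103, nat_lit 22849683597, nat_lit 22926028247], nat_lit 1271250, nat_lit 1271250, nat_lit 0, nat_lit 21650, nat_lit 0, nat_lit 0, [nat_lit 1412500, nat_lit 1271250, nat_lit 1271250], [nat_lit 25, nat_lit 40, nat_lit 20, nat_lit 80, nat_lit 17, nat_lit 272, nat_lit 60, nat_lit 8]⟩, ⟨p001_k91, nat_lit 0, nat_lit 0, nat_lit 0, nat_lit 0, nat_lit 0, [nat_lit 6250000000, nat_lit 7968000000, nat_lit 9842000000], [], [nat_lit 5143068800, nat_lit 5179924200, nat_lit 5186206721, nat_lit 5222392640], nat_lit 0, nat_lit 0, nat_lit 0, nat_lit 0, nat_lit 0, nat_lit 0, [], [nat_lit 25, nat_lit 40, nat_lit 20, nat_lit 80]⟩,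
 zbF0, [⟨nat_lit 0, nat_lit 100, nat_lit 100, nat_lit 17, nat_lit 1685481815⟩]⟩
noncomputable def p001_l250 : Lf2 := ⟨nat_lit 0, nat_lit 3, [nat_lit 45, nat_lit 5, nat_lit 5, nat_lit 20], true, nat_lit 0, nat_lit 0, nat_lit 0, nat_lit 0, ⟨nat_lit 0, nat_lit 0, nat_lit 1000, nat_lit 5, nat_lit 35, nat_lit 0, nat_lit 0, nat_lit 0, nat_lit 0, nat_lit 215, nat_lit 11267, nat_lit 241, nat_lit 66487860, nat_lit 0, nat_lit 0, nat_lit 223987, false, false⟩,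
 nat_lit 0, nat_lit 11425, nat_lit 0, nat_lit 0, nat_lit 5349, nat_lit 0, nat_lit 581, nat_lit 0, nat_lit 0, nat_lit 0, nat_lit 0, nat_lit 0, nat_lit 0, nat_lit 0, nat_lit 67, nat_lit 1000000, nat_lit 0, nat_lit 0, [(nat_lit 0, [(nat_lit 6, nat_lit 1000)])],
 ⟨p001_k92, nat_lit 0, nat_lit 0, nat_lit 0, nat_lit 0, nat_lit 87500, [nat_lit 2158000000, nat_lit 800800000, nat_lit 4400000], [], [nat_lit 13529316442, nat_lit 13596477280, nat_lit 13195141383, nat_lit 13239791328], nat_lit 1271250, nat_lit 1271250, nat_lit 0, nat_lit 21650, nat_lit 0, nat_lit 0, [nat_lit 1412500, nat_lit 1271250, nat_lit 1271250], [nat_lit 156, nat_lit 40, nat_lit 20, nat_lit 40]⟩, C1.Rw.none,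
 ⟨nat_lit 6763, nat_lit 6783, ⟨.ofNat (nat_lit 82386), .ofNat (nat_lit 91082), .ofNat (nat_lit 83459), .ofNat (nat_lit 92155), .ofNat (nat_lit 83386), .ofNat (nat_lit 92062), .ofNat (nat_lit 84459), .ofNat (nat_lit 93134)⟩, ⟨.ofNat (nat_lit 0), .ofNat (nat_lit 0), .ofNat (nat_lit 0), .ofNat (nat_lit 0), .ofNat (nat_lit 0), .ofNat (nat_lit 0), .ofNat (nat_lit 0), .ofNat (nat_lit 0)⟩⟩, [⟨nat_lit 0, nat_lit 100, nat_lit 100, nat_lit 17, nat_lit 551217148⟩]⟩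
noncomputable def p001_l251 : Lf2 := ⟨nat_lit 0, nat_lit 3, [nat_lit 45, nat_lit 5, nat_lit 5, nat_lit 20], true, nat_lit 0, nat_lit 0, nat_lit 0, nat_lit 0, ⟨nat_lit 0, nat_lit 0, nat_lit 1000, nat_lit 5, nat_lit 35, nat_lit 0, nat_lit 0, nat_lit 0, nat_lit 0, nat_lit 215, nat_lit 11267, nat_lit 241, nat_lit 66487860, nat_lit 0, nat_lit 0, nat_lit 223987, false, false⟩,
 nat_lit 0, nat_lit 100000, nat_lit 0, nat_lit 100000, nat_lit 46820, nat_lit 0, nat_lit 37180, nat_lit 1838, nat_lit 0, nat_lit 0, nat_lit 0, nat_lit 0, nat_lit 0, nat_lit 400000000000000, nat_lit 0, nat_lit 1000000, nat_lit 0, nat_lit 0, [(nat_lit 0, [(nat_lit 6, nat_lit 1000)])],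
 ⟨p001_k91, nat_lit 0, nat_lit 0, nat_lit 331, nat_lit 0, nat_lit 87500, [nat_lit 37578000000, nat_lit 43304800000, nat_lit 48970400000], [], [nat_lit 48982632656, nat_lit 49236894232, nat_lit 46291925879, nat_lit 46463349353], nat_lit 1271250, nat_lit 1271250, nat_lit 0, nat_lit 21650, nat_lit 0, nat_lit 0, [nat_lit 1412500, nat_lit 1271250, nat_lit 1271250], [nat_lit 25, nat_lit 40, nat_lit 20, nat_lit 80, nat_lit 17, nat_lit 272, nat_lit 60, nat_lit 8]⟩, C1.Rw.none,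
 ⟨nat_lit 6763, nat_lit 6783, ⟨.ofNat (nat_lit 82386), .ofNat (nat_lit 91082), .ofNat (nat_lit 83459), .ofNat (nat_lit 92155), .ofNat (nat_lit 83386), .ofNat (nat_lit 92062), .ofNat (nat_lit 84459), .ofNat (nat_lit 93134)⟩, ⟨.ofNat (nat_lit 0), .ofNat (nat_lit 0), .ofNat (nat_lit 0), .ofNat (nat_lit 0), .ofNat (nat_lit 0), .ofNat (nat_lit 0), .ofNat (nat_lit 0), .ofNat (nat_lit 0)⟩⟩, [⟨nat_lit 0, nat_lit 100, nat_lit 100, nat_lit 16, nat_lit 10000000000⟩, ⟨nat_lit 0, nat_lit 100, nat_lit 100, nat_lit 17, nat_lit 10000000000⟩, ⟨nat_lit 0, nat_lit 100, nat_lit 100, nat_lit 16, nat_lit 10000000000⟩]⟩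
noncomputable def p001_l252 : Lf2 := ⟨nat_lit 0, nat_lit 3, [nat_lit 45, nat_lit 5, nat_lit 5, nat_lit 20], false, nat_lit 0, nat_lit 0, nat_lit 0, nat_lit 0, ⟨nat_lit 0, nat_lit 0, nat_lit 1000, nat_lit 5, nat_lit 35, nat_lit 0, nat_lit 0, nat_lit 0, nat_lit 0, nat_lit 215, nat_lit 11267, nat_lit 241, nat_lit 66487860, nat_lit 0, nat_lit 0, nat_lit 223987, false, false⟩,
 nat_lit 0, nat_lit 10232, nat_lit 0, nat_lit 0, nat_lit 4790, nat_lit 100000, nat_lit 0, nat_lit 0, nat_lit 0, nat_lit 33957, nat_lit 5485, nat_lit 0, nat_lit 0, nat_lit 0, nat_lit 90, nat_lit 1000000, nat_lit 0, nat_lit 0, [(nat_lit 0, [(nat_lit 6, nat_lit 1000)])],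
 ⟨p001_k91, nat_lit 0, nat_lit 0, nat_lit 331, nat_lit 0, nat_lit 87500, [nat_lit 2618000001, nat_lit 1352800000, nat_lit 26400000], [], [nat_lit 15047229154, nat_lit 15085386922, nat_lit 14849753054, nat_lit 14887891916], nat_lit 1271250, nat_lit 1271250, nat_lit 0, nat_lit 21650, nat_lit 0, nat_lit 0, [nat_lit 1412500, nat_lit 1271250, nat_lit 1271250], [nat_lit 25, nat_lit 40, nat_lit 20, nat_lit 80, nat_lit 17, nat_lit 272, nat_lit 60, nat_lit 8]⟩, ⟨p001_k91, nat_lit 0, nat_lit 0, nat_lit 0, nat_lit 0, nat_lit 0, [nat_lit 109700000000, nat_lit 131640000000, nat_lit 153580000000], [], [nat_lit 167526492500, nat_lit 168002009375, nat_lit 161478556500, nat_lit 161953810500], nat_lit 0, nat_lit 0, nat_lit 0, nat_lit 0, nat_lit 0, nat_lit 0, [], [nat_lit 25, nat_lit 40, nat_lit 20, nat_lit 80]⟩,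
 ⟨nat_lit 6763, nat_lit 6783, ⟨.ofNat (nat_lit 82386), .ofNat (nat_lit 91082), .ofNat (nat_lit 83459), .ofNat (nat_lit 92155), .ofNat (nat_lit 83386), .ofNat (nat_lit 92062), .ofNat (nat_lit 84459), .ofNat (nat_lit 93134)⟩, ⟨.ofNat (nat_lit 0), .ofNat (nat_lit 0), .ofNat (nat_lit 0), .ofNat (nat_lit 0), .ofNat (nat_lit 0), .ofNat (nat_lit 0), .ofNat (nat_lit 0), .ofNat (nat_lit 0)⟩⟩, []⟩
noncomputable def p001_l253 : Lf2 := ⟨nat_lit 0, nat_lit 4, [nat_lit 38, nat_lit 5, nat_lit 5, nat_lit 20], false, nat_lit 0, nat_lit 0, nat_lit 0, nat_lit 0, ⟨nat_lit 1000, nat_lit 0, nat_lit 0, nat_lit 0, nat_lit 0, nat_lit 0, nat_lit 0, nat_lit 0, nat_lit 0, nat_lit 0, nat_lit 0, nat_lit 0, nat_lit 0, nat_lit 0, nat_lit 0, nat_lit 0, false, false⟩,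
 nat_lit 0, nat_lit 24832, nat_lit 0, nat_lit 0, nat_lit 11626, nat_lit 0, nat_lit 4199, nat_lit 0, nat_lit 0, nat_lit 0, nat_lit 0, nat_lit 600, nat_lit 0, nat_lit 0, nat_lit 0, nat_lit 0, nat_lit 0, nat_lit 0, [],
 ⟨p001_k90, nat_lit 0, nat_lit 0, nat_lit 314, nat_lit 0, nat_lit 47756, [nat_lit 6250000000, nat_lit 7968000001, nat_lit 9842000000], [], [nat_lit 24052878785, nat_lit 24128902692, nat_lit 23399553856, nat_lit 23475625370], nat_lit 1271250, nat_lit 1271250, nat_lit 0, nat_lit 21650, nat_lit 0, nat_lit 0, [nat_lit 1412500, nat_lit 1271250, nat_lit 1271250], [nat_lit 25, nat_lit 40, nat_lit 20, nat_lit 80, nat_lit 17, nat_lit 272, nat_lit 60, nat_lit 8]⟩, ⟨p001_k90, nat_lit 0, nat_lit 0, nat_lit 0, nat_lit 0, nat_lit 0, [nat_lit 6250000000, nat_lit 7968000000, nat_lit 9842000000], [], [nat_lit 5143068800, nat_lit 5179924200, nat_lit 5186206721, nat_lit 5222392640], nat_lit 0,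 nat_lit 0, nat_lit 0, nat_lit 0, nat_lit 0, nat_lit 0, [], [nat_lit 25, nat_lit 40, nat_lit 20, nat_lit 80]⟩,
 zbF0, [⟨nat_lit 0, nat_lit 100, nat_lit 100, nat_lit 17, nat_lit 1680210221⟩]⟩
noncomputable def p001_l254 : Lf2 := ⟨nat_lit 0, nat_lit 4, [nat_lit 38, nat_lit 5, nat_lit 5, nat_lit 20], true, nat_lit 0, nat_lit 0, nat_lit 0, nat_lit 0, ⟨nat_lit 0, nat_lit 0, nat_lit 1000, nat_lit 5, nat_lit 35, nat_lit 0, nat_lit 0, nat_lit 0, nat_lit 0, nat_lit 215, nat_lit 11267, nat_lit 241, nat_lit 66487860, nat_lit 0, nat_lit 0, nat_lit 223987, false, false⟩,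
 nat_lit 0, nat_lit 10240, nat_lit 0, nat_lit 0, nat_lit 4794, nat_lit 0, nat_lit 1370, nat_lit 0, nat_lit 0, nat_lit 0, nat_lit 0, nat_lit 0, nat_lit 0, nat_lit 1165634601155, nat_lit 53, nat_lit 383600, nat_lit 0, nat_lit 0, [(nat_lit 0, [(nat_lit 3, nat_lit 82), (nat_lit 5, nat_lit 918)])],
 ⟨p001_k93, nat_lit 0, nat_lit 0, nat_lit 0, nat_lit 0, nat_lit 47756, [nat_lit 2864236801, nat_lit 1456515200, nat_lit 700109601, nat_lit 12660000], [], [nat_lit 12939966028, nat_lit 12989379979, nat_lit 12699833626, nat_lit 12747538814], nat_lit 1271250, nat_lit 1271250, nat_lit 0, nat_lit 21650, nat_lit 0, nat_lit 0, [nat_lit 780000, nat_lit 1435000, nat_lit 1271250, nat_lit 1271250], [nat_lit 140, nat_lit 40, nat_lit 20, nat_lit 80]⟩, C1.Rw.none,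
 ⟨nat_lit 6763, nat_lit 6783, ⟨.ofNat (nat_lit 82386), .ofNat (nat_lit 91082), .ofNat (nat_lit 83459), .ofNat (nat_lit 92155), .ofNat (nat_lit 83386), .ofNat (nat_lit 92062), .ofNat (nat_lit 84459), .ofNat (nat_lit 93134)⟩, ⟨.ofNat (nat_lit 0), .ofNat (nat_lit 0), .ofNat (nat_lit 0), .ofNat (nat_lit 0), .ofNat (nat_lit 0), .ofNat (nat_lit 0), .ofNat (nat_lit 0), .ofNat (nat_lit 0)⟩⟩, [⟨nat_lit 0, nat_lit 100, nat_lit 100, nat_lit 17, nat_lit 406664007⟩]⟩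
noncomputable def p001_l255 : Lf2 := ⟨nat_lit 0, nat_lit 4, [nat_lit 38, nat_lit 5, nat_lit 5, nat_lit 20], true, nat_lit 0, nat_lit 0, nat_lit 0, nat_lit 0, ⟨nat_lit 0, nat_lit 0, nat_lit 1000, nat_lit 5, nat_lit 35, nat_lit 0, nat_lit 0, nat_lit 0, nat_lit 0, nat_lit 215, nat_lit 11267, nat_lit 241, nat_lit 66487860, nat_lit 0, nat_lit 0, nat_lit 223987, false, false⟩,
 nat_lit 0, nat_lit 100000, nat_lit 0, nat_lit 100000, nat_lit 46820, nat_lit 0, nat_lit 9779, nat_lit 2188, nat_lit 0, nat_lit 0, nat_lit 0, nat_lit 0, nat_lit 0, nat_lit 400000000000000, nat_lit 0, nat_lit 1000000, nat_lit 0, nat_lit 0, [(nat_lit 0, [(nat_lit 6, nat_lit 1000)])],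
 ⟨p001_k90, nat_lit 0, nat_lit 0, nat_lit 314, nat_lit 0, nat_lit 47756, [nat_lit 44578000001, nat_lit 51704800000, nat_lit 58770400000], [], [nat_lit 96162448133, nat_lit 96330618732, nat_lit 93447244253, nat_lit 93554820635], nat_lit 1271250, nat_lit 1271250, nat_lit 0, nat_lit 21650, nat_lit 0, nat_lit 0, [nat_lit 1412500, nat_lit 1271250, nat_lit 1271250], [nat_lit 25, nat_lit 40, nat_lit 20, nat_lit 80, nat_lit 17, nat_lit 272, nat_lit 60, nat_lit 8]⟩, C1.Rw.none,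
 ⟨nat_lit 6763, nat_lit 6783, ⟨.ofNat (nat_lit 82386), .ofNat (nat_lit 91082), .ofNat (nat_lit 83459), .ofNat (nat_lit 92155), .ofNat (nat_lit 83386), .ofNat (nat_lit 92062), .ofNat (nat_lit 84459), .ofNat (nat_lit 93134)⟩, ⟨.ofNat (nat_lit 0), .ofNat (nat_lit 0), .ofNat (nat_lit 0), .ofNat (nat_lit 0), .ofNat (nat_lit 0), .ofNat (nat_lit 0), .ofNat (nat_lit 0), .ofNat (nat_lit 0)⟩⟩, [⟨nat_lit 0, nat_lit 100, nat_lit 100, nat_lit 16, nat_lit 10000000000⟩, ⟨nat_lit 0, nat_lit 100, nat_lit 100, nat_lit 17, nat_lit 10000000000⟩, ⟨nat_lit 0, nat_lit 100, nat_lit 100, nat_lit 16, nat_lit 10000000000⟩, ⟨nat_lit 13, nat_lit 100, nat_lit 1, nat_lit 100, nat_lit 76766903⟩]⟩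
noncomputable def p001_l256 : Lf2 := ⟨nat_lit 0, nat_lit 4, [nat_lit 38, nat_lit 5, nat_lit 5, nat_lit 20], false, nat_lit 0, nat_lit 0, nat_lit 0, nat_lit 0, ⟨nat_lit 0, nat_lit 0, nat_lit 1000, nat_lit 5, nat_lit 35, nat_lit 0, nat_lit 0, nat_lit 0, nat_lit 0, nat_lit 215, nat_lit 11267, nat_lit 241, nat_lit 66487860, nat_lit 0, nat_lit 0, nat_lit 223987, false, false⟩,
 nat_lit 0, nat_lit 11293, nat_lit 0, nat_lit 0, nat_lit 5287, nat_lit 100000, nat_lit 896, nat_lit 0, nat_lit 0, nat_lit 31341, nat_lit 5681, nat_lit 0, nat_lit 0, nat_lit 58462951884230, nat_lit 90, nat_lit 1000000, nat_lit 0, nat_lit 0, [(nat_lit 0, [(nat_lit 6, nat_lit 1000)])],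
 ⟨p001_k90, nat_lit 0, nat_lit 0, nat_lit 314, nat_lit 0, nat_lit 47756, [nat_lit 2618000001, nat_lit 1352800000, nat_lit 26400000], [], [nat_lit 13436708373, nat_lit 13498788561, nat_lit 13085829160, nat_lit 13145621240], nat_lit 1271250, nat_lit 1271250, nat_lit 0, nat_lit 21650, nat_lit 0, nat_lit 0, [nat_lit 1412500, nat_lit 1271250, nat_lit 1271250], [nat_lit 25, nat_lit 40, nat_lit 20, nat_lit 80, nat_lit 17, nat_lit 272, nat_lit 60, nat_lit 8]⟩, ⟨p001_k90, nat_lit 0, nat_lit 0, nat_lit 0, nat_lit 0, nat_lit 0, [nat_lit 113620000000, nat_lit 136344000000, nat_lit 159068000000], [], [nat_lit 178924884375, nat_lit 179449584375, nat_lit 171770256500, nat_lit 172245510500], nat_lit 0, nat_lit 0, nat_lit 0, nat_lit 0, nat_lit 0, nat_lit 0, [], [nat_lit 25, nat_lit 40, nat_lit 20, nat_lit 80]⟩,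
 ⟨nat_lit 6763, nat_lit 6783, ⟨.ofNat (nat_lit 82386), .ofNat (nat_lit 91082), .ofNat (nat_lit 83459), .ofNat (nat_lit 92155), .ofNat (nat_lit 83386), .ofNat (nat_lit 92062), .ofNat (nat_lit 84459), .ofNat (nat_lit 93134)⟩, ⟨.ofNat (nat_lit 0), .ofNat (nat_lit 0), .ofNat (nat_lit 0), .ofNat (nat_lit 0), .ofNat (nat_lit 0), .ofNat (nat_lit 0), .ofNat (nat_lit 0), .ofNat (nat_lit 0)⟩⟩, [⟨nat_lit 0, nat_lit 100, nat_lit 100, nat_lit 17, nat_lit 9547141053⟩]⟩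
noncomputable def p001_l257 : Lf2 := ⟨nat_lit 0, nat_lit 4, [nat_lit 38, nat_lit 5, nat_lit 5, nat_lit 20], true, nat_lit 0, nat_lit 0, nat_lit 0, nat_lit 0, ⟨nat_lit 0, nat_lit 0, nat_lit 1000, nat_lit 5, nat_lit 38, nat_lit 0, nat_lit 0, nat_lit 0, nat_lit 0, nat_lit 215, nat_lit 14017, nat_lit 244, nat_lit 66389248, nat_lit 0, nat_lit 0, nat_lit 259232, false, false⟩,
 nat_lit 0, nat_lit 11357, nat_lit 0, nat_lit 0, nat_lit 5317, nat_lit 0, nat_lit 948, nat_lit 0, nat_lit 0, nat_lit 0, nat_lit 0, nat_lit 0, nat_lit 0, nat_lit 29633280836971, nat_lit 90, nat_lit 1000000, nat_lit 0, nat_lit 0, [(nat_lit 0, [(nat_lit 6, nat_lit 1000)])],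
 ⟨p001_k90, nat_lit 0, nat_lit 0, nat_lit 326, nat_lit 0, nat_lit 88258, [nat_lit 2618000001, nat_lit 1352800000, nat_lit 26400000], [], [nat_lit 13008404834, nat_lit 13052956957, nat_lit 12786721581, nat_lit 12831242876], nat_lit 1271250, nat_lit 1271250, nat_lit 21650, nat_lit 43600, nat_lit 0, nat_lit 0, [nat_lit 1412500, nat_lit 1271250, nat_lit 1271250], [nat_lit 25, nat_lit 40, nat_lit 20, nat_lit 80, nat_lit 17, nat_lit 272, nat_lit 60, nat_lit 8]⟩, C1.Rw.none,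
 ⟨nat_lit 6763, nat_lit 6783, ⟨.ofNat (nat_lit 90009), .ofNat (nat_lit 98704), .ofNat (nat_lit 92155), .ofNat (nat_lit 100850), .ofNat (nat_lit 90989), .ofNat (nat_lit 99664), .ofNat (nat_lit 93134), .ofNat (nat_lit 101810)⟩, ⟨.ofNat (nat_lit 0), .ofNat (nat_lit 0), .ofNat (nat_lit 0), .ofNat (nat_lit 0), .ofNat (nat_lit 0), .ofNat (nat_lit 0), .ofNat (nat_lit 0), .ofNat (nat_lit 0)⟩⟩, []⟩
noncomputable def p001_l258 : Lf2 := ⟨nat_lit 0, nat_lit 4, [nat_lit 38, nat_lit 5, nat_lit 5, nat_lit 20], true, nat_lit 0, nat_lit 0, nat_lit 0, nat_lit 0, ⟨nat_lit 0, nat_lit 0, nat_lit 1000, nat_lit 5, nat_lit 35, nat_lit 0, nat_lit 0, nat_lit 0, nat_lit 0, nat_lit 215, nat_lit 11267, nat_lit 241, nat_lit 66488832, nat_lit 0, nat_lit 0, nat_lit 223634, false, false⟩,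
 nat_lit 0, nat_lit 11173, nat_lit 0, nat_lit 0, nat_lit 5259, nat_lit 0, nat_lit 875, nat_lit 0, nat_lit 0, nat_lit 0, nat_lit 0, nat_lit 0, nat_lit 0, nat_lit 0, nat_lit 90, nat_lit 1000000, nat_lit 0, nat_lit 0, [(nat_lit 0, [(nat_lit 6, nat_lit 1000)])],
 ⟨p001_k94, nat_lit 0, nat_lit 0, nat_lit 332, nat_lit 0, nat_lit 87785, [nat_lit 2618000001, nat_lit 1352800000, nat_lit 26400000], [], [nat_lit 13485383827, nat_lit 13547317101, nat_lit 13152101687, nat_lit 13196476509], nat_lit 1271250, nat_lit 1271250, nat_lit 0, nat_lit 21650, nat_lit 0, nat_lit 0, [nat_lit 1412500, nat_lit 1271250, nat_lit 1271250], [nat_lit 25, nat_lit 40, nat_lit 20, nat_lit 80, nat_lit 17, nat_lit 272, nat_lit 60, nat_lit 8]⟩, C1.Rw.none,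
 ⟨nat_lit 6745, nat_lit 6764, ⟨.ofNat (nat_lit 82313), .ofNat (nat_lit 90989), .ofNat (nat_lit 83386), .ofNat (nat_lit 92062), .ofNat (nat_lit 83311), .ofNat (nat_lit 91967), .ofNat (nat_lit 84384), .ofNat (nat_lit 93039)⟩, ⟨.ofNat (nat_lit 0), .ofNat (nat_lit 0), .ofNat (nat_lit 0), .ofNat (nat_lit 0), .ofNat (nat_lit 0), .ofNat (nat_lit 0), .ofNat (nat_lit 0), .ofNat (nat_lit 0)⟩⟩, [⟨nat_lit 0, nat_lit 100, nat_lit 100, nat_lit 17, nat_lit 542639660⟩]⟩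
noncomputable def p001_l259 : Lf2 := ⟨nat_lit 0, nat_lit 3, [nat_lit 45, nat_lit 5, nat_lit 5, nat_lit 20], true, nat_lit 0, nat_lit 0, nat_lit 0, nat_lit 0, ⟨nat_lit 0, nat_lit 0, nat_lit 1000, nat_lit 5, nat_lit 36, nat_lit 0, nat_lit 0, nat_lit 0, nat_lit 0, nat_lit 215, nat_lit 12150, nat_lit 242, nat_lit 66476349, nat_lit 0, nat_lit 0, nat_lit 228168, false, false⟩,
 nat_lit 0, nat_lit 11325, nat_lit 0, nat_lit 0, nat_lit 5330, nat_lit 0, nat_lit 559, nat_lit 0, nat_lit 0, nat_lit 0, nat_lit 0, nat_lit 0, nat_lit 0, nat_lit 0, nat_lit 67, nat_lit 1000000, nat_lit 0, nat_lit 0, [(nat_lit 0, [(nat_lit 6, nat_lit 1000)])],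
 ⟨p001_k95, nat_lit 0, nat_lit 0, nat_lit 0, nat_lit 0, nat_lit 91130, [nat_lit 2158000000, nat_lit 800800000, nat_lit 4400000], [], [nat_lit 13592396298, nat_lit 13659443938, nat_lit 13260836154, nat_lit 13305428017], nat_lit 1271250, nat_lit 1271250, nat_lit 0, nat_lit 21650, nat_lit 0, nat_lit 0, [nat_lit 1412500, nat_lit 1271250, nat_lit 1271250], [nat_lit 156, nat_lit 40, nat_lit 20, nat_lit 40]⟩, C1.Rw.none,
 ⟨nat_lit 6745, nat_lit 6764, ⟨.ofNat (nat_lit 83386), .ofNat (nat_lit 92062), .ofNat (nat_lit 84459), .ofNat (nat_lit 93134), .ofNat (nat_lit 84384), .ofNat (nat_lit 93039), .ofNat (nat_lit 85456), .ofNat (nat_lit 94111)⟩, ⟨.ofNat (nat_lit 0), .ofNat (nat_lit 0), .ofNat (nat_lit 0), .ofNat (nat_lit 0), .ofNat (nat_lit 0), .ofNat (nat_lit 0), .ofNat (nat_lit 0), .ofNat (nat_lit 0)⟩⟩, [⟨nat_lit 0, nat_lit 100, nat_lit 100, nat_lit 17, nat_lit 549773645⟩]⟩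
noncomputable def p001_l260 : Lf2 := ⟨nat_lit 0, nat_lit 3, [nat_lit 45, nat_lit 5, nat_lit 5, nat_lit 20], true, nat_lit 0, nat_lit 0, nat_lit 0, nat_lit 0, ⟨nat_lit 0, nat_lit 0, nat_lit 1000, nat_lit 5, nat_lit 36, nat_lit 0, nat_lit 0, nat_lit 0, nat_lit 0, nat_lit 215, nat_lit 12150, nat_lit 242, nat_lit 66476349, nat_lit 0, nat_lit 0, nat_lit 228168, false, false⟩,
 nat_lit 0, nat_lit 100000, nat_lit 0, nat_lit 100000, nat_lit 47071, nat_lit 0, nat_lit 42178, nat_lit 1853, nat_lit 0, nat_lit 0, nat_lit 0, nat_lit 0, nat_lit 0, nat_lit 0, nat_lit 0, nat_lit 1000000, nat_lit 0, nat_lit 0, [(nat_lit 0, [(nat_lit 6, nat_lit 1000)])],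
 ⟨p001_k96, nat_lit 0, nat_lit 0, nat_lit 333, nat_lit 0, nat_lit 91130, [nat_lit 37878000000, nat_lit 43664800000, nat_lit 49390400000], [], [nat_lit 44999249220, nat_lit 45254702243, nat_lit 42285788109, nat_lit 42457978871], nat_lit 1271250, nat_lit 1271250, nat_lit 0, nat_lit 21650, nat_lit 0, nat_lit 0, [nat_lit 1412500, nat_lit 1271250, nat_lit 1271250], [nat_lit 25, nat_lit 40, nat_lit 20, nat_lit 80, nat_lit 17, nat_lit 272, nat_lit 60, nat_lit 8]⟩, C1.Rw.none,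
 ⟨nat_lit 6745, nat_lit 6764, ⟨.ofNat (nat_lit 83386), .ofNat (nat_lit 92062), .ofNat (nat_lit 84459), .ofNat (nat_lit 93134), .ofNat (nat_lit 84384), .ofNat (nat_lit 93039), .ofNat (nat_lit 85456), .ofNat (nat_lit 94111)⟩, ⟨.ofNat (nat_lit 0), .ofNat (nat_lit 0), .ofNat (nat_lit 0), .ofNat (nat_lit 0), .ofNat (nat_lit 0), .ofNat (nat_lit 0), .ofNat (nat_lit 0), .ofNat (nat_lit 0)⟩⟩, [⟨nat_lit 0, nat_lit 100, nat_lit 100, nat_lit 17, nat_lit 10000000000⟩, ⟨nat_lit 0, nat_lit 100, nat_lit 100, nat_lit 17, nat_lit 10000000000⟩, ⟨nat_lit 0, nat_lit 100, nat_lit 100, nat_lit 16, nat_lit 10000000000⟩]⟩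
noncomputable def p001_l261 : Lf2 := ⟨nat_lit 0, nat_lit 4, [nat_lit 38, nat_lit 5, nat_lit 5, nat_lit 20], true, nat_lit 0, nat_lit 0, nat_lit 0, nat_lit 0, ⟨nat_lit 0, nat_lit 0, nat_lit 1000, nat_lit 5, nat_lit 36, nat_lit 0, nat_lit 0, nat_lit 0, nat_lit 0, nat_lit 215, nat_lit 12150, nat_lit 242, nat_lit 66476349, nat_lit 0, nat_lit 0, nat_lit 228168, false, false⟩,
 nat_lit 0, nat_lit 10322, nat_lit 0, nat_lit 0, nat_lit 4858, nat_lit 0, nat_lit 1431, nat_lit 0, nat_lit 0, nat_lit 0, nat_lit 0, nat_lit 0, nat_lit 0, nat_lit 0, nat_lit 53, nat_lit 383000, nat_lit 0, nat_lit 0, [(nat_lit 0, [(nat_lit 3, nat_lit 85), (nat_lit 5, nat_lit 915)])],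
 ⟨p001_k97, nat_lit 0, nat_lit 0, nat_lit 0, nat_lit 0, nat_lit 51665, [nat_lit 2910704001, nat_lit 1456056000, nat_lit 700538001, nat_lit 13650000], [], [nat_lit 12851369825, nat_lit 12911529577, nat_lit 12537583959, nat_lit 12590111409], nat_lit 1271250, nat_lit 1271250, nat_lit 0, nat_lit 21650, nat_lit 0, nat_lit 0, [nat_lit 780000, nat_lit 1435000, nat_lit 1271250, nat_lit 1271250], [nat_lit 140, nat_lit 40, nat_lit 20, nat_lit 80]⟩, C1.Rw.none,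
 ⟨nat_lit 6745, nat_lit 6764, ⟨.ofNat (nat_lit 83386), .ofNat (nat_lit 92062), .ofNat (nat_lit 84459), .ofNat (nat_lit 93134), .ofNat (nat_lit 84384), .ofNat (nat_lit 93039), .ofNat (nat_lit 85456), .ofNat (nat_lit 94111)⟩, ⟨.ofNat (nat_lit 0), .ofNat (nat_lit 0), .ofNat (nat_lit 0), .ofNat (nat_lit 0), .ofNat (nat_lit 0), .ofNat (nat_lit 0), .ofNat (nat_lit 0), .ofNat (nat_lit 0)⟩⟩, [⟨nat_lit 0, nat_lit 100, nat_lit 100, nat_lit 17, nat_lit 506120253⟩]⟩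
noncomputable def p001_l262 : Lf2 := ⟨nat_lit 0, nat_lit 4, [nat_lit 38, nat_lit 5, nat_lit 5, nat_lit 20], true, nat_lit 0, nat_lit 0, nat_lit 0, nat_lit 0, ⟨nat_lit 0, nat_lit 0, nat_lit 1000, nat_lit 5, nat_lit 36, nat_lit 0, nat_lit 0, nat_lit 0, nat_lit 0, nat_lit 215, nat_lit 12150, nat_lit 242, nat_lit 66476349, nat_lit 0, nat_lit 0, nat_lit 228168, false, false⟩,
 nat_lit 0, nat_lit 100000, nat_lit 0, nat_lit 100000, nat_lit 47071, nat_lit 0, nat_lit 9805, nat_lit 2204, nat_lit 0, nat_lit 0, nat_lit 0, nat_lit 0, nat_lit 0, nat_lit 0, nat_lit 0, nat_lit 1000000, nat_lit 0, nat_lit 0, [(nat_lit 0, [(nat_lit 6, nat_lit 1000)])],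
 ⟨p001_k94, nat_lit 0, nat_lit 0, nat_lit 316, nat_lit 0, nat_lit 51665, [nat_lit 44898000001, nat_lit 52088800000, nat_lit 59218400000], [], [nat_lit 96296871110, nat_lit 96465785647, nat_lit 93564722084, nat_lit 93675253948], nat_lit 1271250, nat_lit 1271250, nat_lit 0, nat_lit 21650, nat_lit 0, nat_lit 0, [nat_lit 1412500, nat_lit 1271250, nat_lit 1271250], [nat_lit 25, nat_lit 40, nat_lit 20, nat_lit 80, nat_lit 17, nat_lit 272, nat_lit 60, nat_lit 8]⟩, C1.Rw.none,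
 ⟨nat_lit 6745, nat_lit 6764, ⟨.ofNat (nat_lit 83386), .ofNat (nat_lit 92062), .ofNat (nat_lit 84459), .ofNat (nat_lit 93134), .ofNat (nat_lit 84384), .ofNat (nat_lit 93039), .ofNat (nat_lit 85456), .ofNat (nat_lit 94111)⟩, ⟨.ofNat (nat_lit 0), .ofNat (nat_lit 0), .ofNat (nat_lit 0), .ofNat (nat_lit 0), .ofNat (nat_lit 0), .ofNat (nat_lit 0), .ofNat (nat_lit 0), .ofNat (nat_lit 0)⟩⟩, [⟨nat_lit 0, nat_lit 100, nat_lit 100, nat_lit 17, nat_lit 10000000000⟩, ⟨nat_lit 0, nat_lit 100, nat_lit 100, nat_lit 17, nat_lit 10000000000⟩, ⟨nat_lit 0, nat_lit 100, nat_lit 100, nat_lit 16, nat_lit 10000000000⟩, ⟨nat_lit 13, nat_lit 100, nat_lit 1, nat_lit 100, nat_lit 100018795⟩]⟩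
noncomputable def p001_l263 : Lf2 := ⟨nat_lit 0, nat_lit 4, [nat_lit 38, nat_lit 5, nat_lit 5, nat_lit 20], true, nat_lit 0, nat_lit 0, nat_lit 0, nat_lit 0, ⟨nat_lit 0, nat_lit 0, nat_lit 1000, nat_lit 5, nat_lit 36, nat_lit 0, nat_lit 0, nat_lit 0, nat_lit 0, nat_lit 215, nat_lit 12150, nat_lit 242, nat_lit 66463721, nat_lit 0, nat_lit 0, nat_lit 232744, false, false⟩,
 nat_lit 0, nat_lit 10314, nat_lit 0, nat_lit 0, nat_lit 4854, nat_lit 0, nat_lit 1432, nat_lit 0, nat_lit 0, nat_lit 0, nat_lit 0, nat_lit 0, nat_lit 0, nat_lit 23076945936381, nat_lit 53, nat_lit 383000, nat_lit 0, nat_lit 0, [(nat_lit 0, [(nat_lit 3, nat_lit 85), (nat_lit 5, nat_lit 915)])],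
 ⟨p001_k97, nat_lit 0, nat_lit 0, nat_lit 0, nat_lit 0, nat_lit 96135, [nat_lit 2910704001, nat_lit 1456056000, nat_lit 700538001, nat_lit 13650000], [], [nat_lit 12845379862, nat_lit 12905198219, nat_lit 12538391413, nat_lit 12588471296], nat_lit 1271250, nat_lit 1271250, nat_lit 0, nat_lit 21650, nat_lit 0, nat_lit 0, [nat_lit 780000, nat_lit 1435000, nat_lit 1271250, nat_lit 1271250], [nat_lit 140, nat_lit 40, nat_lit 20, nat_lit 80]⟩, C1.Rw.none,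
 ⟨nat_lit 6745, nat_lit 6764, ⟨.ofNat (nat_lit 84459), .ofNat (nat_lit 93134), .ofNat (nat_lit 85531), .ofNat (nat_lit 94207), .ofNat (nat_lit 85456), .ofNat (nat_lit 94111), .ofNat (nat_lit 86528), .ofNat (nat_lit 95184)⟩, ⟨.ofNat (nat_lit 0), .ofNat (nat_lit 0), .ofNat (nat_lit 0), .ofNat (nat_lit 0), .ofNat (nat_lit 0), .ofNat (nat_lit 0), .ofNat (nat_lit 0), .ofNat (nat_lit 0)⟩⟩, [⟨nat_lit 0, nat_lit 100, nat_lit 100, nat_lit 18, nat_lit 503500960⟩]⟩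
noncomputable def p001_l264 : Lf2 := ⟨nat_lit 0, nat_lit 4, [nat_lit 38, nat_lit 5, nat_lit 5, nat_lit 20], true, nat_lit 0, nat_lit 0, nat_lit 0, nat_lit 0, ⟨nat_lit 0, nat_lit 0, nat_lit 1000, nat_lit 5, nat_lit 36, nat_lit 0, nat_lit 0, nat_lit 0, nat_lit 0, nat_lit 215, nat_lit 12150, nat_lit 242, nat_lit 66463721, nat_lit 0, nat_lit 0, nat_lit 232744, false, false⟩,
 nat_lit 0, nat_lit 100000, nat_lit 0, nat_lit 100000, nat_lit 47071, nat_lit 0, nat_lit 35030, nat_lit 1796, nat_lit 0, nat_lit 0, nat_lit 0, nat_lit 0, nat_lit 0, nat_lit 400000000000000, nat_lit 0, nat_lit 1000000, nat_lit 0, nat_lit 0, [(nat_lit 0, [(nat_lit 6, nat_lit 1000)])],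
 ⟨p001_k94, nat_lit 0, nat_lit 0, nat_lit 335, nat_lit 0, nat_lit 96135, [nat_lit 36738000000, nat_lit 42296800000, nat_lit 47794400000], [], [nat_lit 47316149220, nat_lit 47571602243, nat_lit 44517887573, nat_lit 44773573943], nat_lit 1271250, nat_lit 1271250, nat_lit 0, nat_lit 21650, nat_lit 0, nat_lit 0, [nat_lit 1412500, nat_lit 1271250, nat_lit 1271250], [nat_lit 25, nat_lit 40, nat_lit 20, nat_lit 80, nat_lit 17, nat_lit 272, nat_lit 60, nat_lit 8]⟩, C1.Rw.none,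
 ⟨nat_lit 6745, nat_lit 6764, ⟨.ofNat (nat_lit 84459), .ofNat (nat_lit 93134), .ofNat (nat_lit 85531), .ofNat (nat_lit 94207), .ofNat (nat_lit 85456), .ofNat (nat_lit 94111), .ofNat (nat_lit 86528), .ofNat (nat_lit 95184)⟩, ⟨.ofNat (nat_lit 0), .ofNat (nat_lit 0), .ofNat (nat_lit 0), .ofNat (nat_lit 0), .ofNat (nat_lit 0), .ofNat (nat_lit 0), .ofNat (nat_lit 0), .ofNat (nat_lit 0)⟩⟩, [⟨nat_lit 0, nat_lit 100, nat_lit 100, nat_lit 18, nat_lit 10000000000⟩, ⟨nat_lit 0, nat_lit 100, nat_lit 100, nat_lit 18, nat_lit 10000000000⟩, ⟨nat_lit 0, nat_lit 100, nat_lit 100, nat_lit 17, nat_lit 10000000000⟩]⟩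
noncomputable def p001_l265 : Lf2 := ⟨nat_lit 0, nat_lit 4, [nat_lit 38, nat_lit 5, nat_lit 5, nat_lit 20], true, nat_lit 0, nat_lit 0, nat_lit 0, nat_lit 0, ⟨nat_lit 0, nat_lit 0, nat_lit 1000, nat_lit 5, nat_lit 39, nat_lit 0, nat_lit 0, nat_lit 0, nat_lit 0, nat_lit 215, nat_lit 14017, nat_lit 244, nat_lit 66376965, nat_lit 0, nat_lit 0, nat_lit 263533, false, false⟩,
 nat_lit 0, nat_lit 11247, nat_lit 0, nat_lit 0, nat_lit 5294, nat_lit 0, nat_lit 925, nat_lit 0, nat_lit 0, nat_lit 0, nat_lit 0, nat_lit 0, nat_lit 0, nat_lit 0, nat_lit 90, nat_lit 1000000, nat_lit 0, nat_lit 0, [(nat_lit 0, [(nat_lit 6, nat_lit 1000)])],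
 ⟨p001_k94, nat_lit 0, nat_lit 0, nat_lit 327, nat_lit 0, nat_lit 91960, [nat_lit 2618000001, nat_lit 1352800000, nat_lit 26400000], [], [nat_lit 13066805298, nat_lit 13111287113, nat_lit 12846265642, nat_lit 12890716607], nat_lit 1271250, nat_lit 1271250, nat_lit 21650, nat_lit 43600, nat_lit 0, nat_lit 0, [nat_lit 1412500, nat_lit 1271250, nat_lit 1271250], [nat_lit 25, nat_lit 40, nat_lit 20, nat_lit 80, nat_lit 17, nat_lit 272, nat_lit 60, nat_lit 8]⟩, C1.Rw.none,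
 ⟨nat_lit 6745, nat_lit 6764, ⟨.ofNat (nat_lit 90989), .ofNat (nat_lit 99664), .ofNat (nat_lit 93134), .ofNat (nat_lit 101810), .ofNat (nat_lit 91967), .ofNat (nat_lit 100622), .ofNat (nat_lit 94111), .ofNat (nat_lit 102767)⟩, ⟨.ofNat (nat_lit 0), .ofNat (nat_lit 0), .ofNat (nat_lit 0), .ofNat (nat_lit 0), .ofNat (nat_lit 0), .ofNat (nat_lit 0), .ofNat (nat_lit 0), .ofNat (nat_lit 0)⟩⟩, []⟩
noncomputable def p001_l266 : Lf2 := ⟨nat_lit 0, nat_lit 3, [nat_lit 45, nat_lit 5, nat_lit 5, nat_lit 20], true, nat_lit 0, nat_lit 0, nat_lit 0, nat_lit 0, ⟨nat_lit 0, nat_lit 0, nat_lit 1000, nat_lit 5, nat_lit 39, nat_lit 0, nat_lit 0, nat_lit 0, nat_lit 0, nat_lit 215, nat_lit 15000, nat_lit 245, nat_lit 66356302, nat_lit 0, nat_lit 0, nat_lit 270719, false, false⟩,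
 nat_lit 0, nat_lit 11388, nat_lit 0, nat_lit 0, nat_lit 5360, nat_lit 0, nat_lit 635, nat_lit 0, nat_lit 0, nat_lit 0, nat_lit 0, nat_lit 0, nat_lit 0, nat_lit 0, nat_lit 67, nat_lit 1000000, nat_lit 0, nat_lit 0, [(nat_lit 0, [(nat_lit 6, nat_lit 1000)])],
 ⟨p001_k95, nat_lit 0, nat_lit 0, nat_lit 0, nat_lit 0, nat_lit 95221, [nat_lit 2158000000, nat_lit 800800000, nat_lit 4400000], [], [nat_lit 13165353535, nat_lit 13210037106, nat_lit 12941443789, nat_lit 12986096572], nat_lit 1271250, nat_lit 1271250, nat_lit 21650, nat_lit 43600, nat_lit 0, nat_lit 0, [nat_lit 1412500, nat_lit 1271250, nat_lit 1271250], [nat_lit 156, nat_lit 40, nat_lit 20, nat_lit 40]⟩, C1.Rw.none,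
 ⟨nat_lit 6745, nat_lit 6764, ⟨.ofNat (nat_lit 93134), .ofNat (nat_lit 101810), .ofNat (nat_lit 94207), .ofNat (nat_lit 102882), .ofNat (nat_lit 94111), .ofNat (nat_lit 102767), .ofNat (nat_lit 95184), .ofNat (nat_lit 103839)⟩, ⟨.ofNat (nat_lit 0), .ofNat (nat_lit 0), .ofNat (nat_lit 0), .ofNat (nat_lit 0), .ofNat (nat_lit 0), .ofNat (nat_lit 0), .ofNat (nat_lit 0), .ofNat (nat_lit 0)⟩⟩, []⟩
noncomputable def p001_l267 : Lf2 := ⟨nat_lit 0, nat_lit 3, [nat_lit 45, nat_lit 5, nat_lit 5, nat_lit 20], true, nat_lit 0, nat_lit 0, nat_lit 0, nat_lit 0, ⟨nat_lit 0, nat_lit 0, nat_lit 1000, nat_lit 5, nat_lit 39, nat_lit 0, nat_lit 0, nat_lit 0, nat_lit 0, nat_lit 215, nat_lit 15000, nat_lit 245, nat_lit 66356302, nat_lit 0, nat_lit 0, nat_lit 270719, false, false⟩,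
 nat_lit 0, nat_lit 100000, nat_lit 0, nat_lit 100000, nat_lit 47071, nat_lit 0, nat_lit 28440, nat_lit 1831, nat_lit 0, nat_lit 0, nat_lit 0, nat_lit 0, nat_lit 0, nat_lit 400000000000000, nat_lit 0, nat_lit 1000000, nat_lit 0, nat_lit 0, [(nat_lit 0, [(nat_lit 6, nat_lit 1000)])],
 ⟨p001_k96, nat_lit 0, nat_lit 0, nat_lit 329, nat_lit 0, nat_lit 95221, [nat_lit 37438000000, nat_lit 43136800000, nat_lit 48774400000], [], [nat_lit 50506137573, nat_lit 50761823943, nat_lit 47797182950, nat_lit 47969381297], nat_lit 1271250, nat_lit 1271250, nat_lit 21650, nat_lit 43600, nat_lit 0, nat_lit 0, [nat_lit 1412500, nat_lit 1271250, nat_lit 1271250], [nat_lit 25, nat_lit 40, nat_lit 20, nat_lit 80, nat_lit 17, nat_lit 272, nat_lit 60, nat_lit 8]⟩, C1.Rw.none,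
 ⟨nat_lit 6745, nat_lit 6764, ⟨.ofNat (nat_lit 93134), .ofNat (nat_lit 101810), .ofNat (nat_lit 94207), .ofNat (nat_lit 102882), .ofNat (nat_lit 94111), .ofNat (nat_lit 102767), .ofNat (nat_lit 95184), .ofNat (nat_lit 103839)⟩, ⟨.ofNat (nat_lit 0), .ofNat (nat_lit 0), .ofNat (nat_lit 0), .ofNat (nat_lit 0), .ofNat (nat_lit 0), .ofNat (nat_lit 0), .ofNat (nat_lit 0), .ofNat (nat_lit 0)⟩⟩, [⟨nat_lit 0, nat_lit 100, nat_lit 100, nat_lit 17, nat_lit 10000000000⟩]⟩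
noncomputable def p001_l268 : Lf2 := ⟨nat_lit 0, nat_lit 4, [nat_lit 38, nat_lit 5, nat_lit 5, nat_lit 20], true, nat_lit 0, nat_lit 0, nat_lit 0, nat_lit 0, ⟨nat_lit 0, nat_lit 0, nat_lit 1000, nat_lit 5, nat_lit 39, nat_lit 0, nat_lit 0, nat_lit 0, nat_lit 0, nat_lit 215, nat_lit 15000, nat_lit 245, nat_lit 66356302, nat_lit 0, nat_lit 0, nat_lit 270719, false, false⟩,
 nat_lit 0, nat_lit 10391, nat_lit 0, nat_lit 0, nat_lit 4891, nat_lit 0, nat_lit 1477, nat_lit 0, nat_lit 0, nat_lit 0, nat_lit 0, nat_lit 0, nat_lit 0, nat_lit 0, nat_lit 53, nat_lit 382800, nat_lit 0, nat_lit 0, [(nat_lit 0, [(nat_lit 3, nat_lit 86), (nat_lit 5, nat_lit 914)])],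
 ⟨p001_k97, nat_lit 0, nat_lit 0, nat_lit 0, nat_lit 0, nat_lit 55819, [nat_lit 2926193067, nat_lit 1455902934, nat_lit 700680801, nat_lit 13980000], [], [nat_lit 12468668428, nat_lit 12518900507, nat_lit 12265771663, nat_lit 12315963115], nat_lit 1271250, nat_lit 1271250, nat_lit 21650, nat_lit 43600, nat_lit 0, nat_lit 0, [nat_lit 780000, nat_lit 1435000, nat_lit 1271250, nat_lit 1271250], [nat_lit 140, nat_lit 40, nat_lit 20, nat_lit 80]⟩, C1.Rw.none,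
 ⟨nat_lit 6745, nat_lit 6764, ⟨.ofNat (nat_lit 93134), .ofNat (nat_lit 101810), .ofNat (nat_lit 94207), .ofNat (nat_lit 102882), .ofNat (nat_lit 94111), .ofNat (nat_lit 102767), .ofNat (nat_lit 95184), .ofNat (nat_lit 103839)⟩, ⟨.ofNat (nat_lit 0), .ofNat (nat_lit 0), .ofNat (nat_lit 0), .ofNat (nat_lit 0), .ofNat (nat_lit 0), .ofNat (nat_lit 0), .ofNat (nat_lit 0), .ofNat (nat_lit 0)⟩⟩, []⟩
noncomputable def p001_l269 : Lf2 := ⟨nat_lit 0, nat_lit 4, [nat_lit 38, nat_lit 5, nat_lit 5, nat_lit 20], true, nat_lit 0, nat_lit 0, nat_lit 0, nat_lit 0, ⟨nat_lit 0, nat_lit 0, nat_lit 1000, nat_lit 5, nat_lit 39, nat_lit 0, nat_lit 0, nat_lit 0, nat_lit 0, nat_lit 215, nat_lit 15000, nat_lit 245, nat_lit 66356302, nat_lit 0, nat_lit 0, nat_lit 270719, false, false⟩,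
 nat_lit 0, nat_lit 100000, nat_lit 0, nat_lit 100000, nat_lit 47071, nat_lit 0, nat_lit 42108, nat_lit 1853, nat_lit 0, nat_lit 0, nat_lit 0, nat_lit 0, nat_lit 0, nat_lit 400000000000000, nat_lit 0, nat_lit 1000000, nat_lit 0, nat_lit 0, [(nat_lit 0, [(nat_lit 6, nat_lit 1000)])],
 ⟨p001_k94, nat_lit 0, nat_lit 0, nat_lit 311, nat_lit 0, nat_lit 55819, [nat_lit 37878000000, nat_lit 43664800000, nat_lit 49390400000], [], [nat_lit 42333038109, nat_lit 42505228871, nat_lit 39979282950, nat_lit 40151481297], nat_lit 1271250, nat_lit 1271250, nat_lit 21650, nat_lit 43600, nat_lit 0, nat_lit 0, [nat_lit 1412500, nat_lit 1271250, nat_lit 1271250], [nat_lit 25, nat_lit 40, nat_lit 20, nat_lit 80, nat_lit 17, nat_lit 272, nat_lit 60, nat_lit 8]⟩, C1.Rw.none,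
 ⟨nat_lit 6745, nat_lit 6764, ⟨.ofNat (nat_lit 93134), .ofNat (nat_lit 101810), .ofNat (nat_lit 94207), .ofNat (nat_lit 102882), .ofNat (nat_lit 94111), .ofNat (nat_lit 102767), .ofNat (nat_lit 95184), .ofNat (nat_lit 103839)⟩, ⟨.ofNat (nat_lit 0), .ofNat (nat_lit 0), .ofNat (nat_lit 0), .ofNat (nat_lit 0), .ofNat (nat_lit 0), .ofNat (nat_lit 0), .ofNat (nat_lit 0), .ofNat (nat_lit 0)⟩⟩, []⟩
noncomputable def p001_l270 : Lf2 := ⟨nat_lit 0, nat_lit 4, [nat_lit 38, nat_lit 5, nat_lit 5, nat_lit 20], false, nat_lit 0, nat_lit 0, nat_lit 0, nat_lit 0, ⟨nat_lit 0, nat_lit 0, nat_lit 1000, nat_lit 5, nat_lit 39, nat_lit 0, nat_lit 0, nat_lit 0, nat_lit 0, nat_lit 215, nat_lit 15000, nat_lit 245, nat_lit 66356302, nat_lit 0, nat_lit 0, nat_lit 270719, false, false⟩,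
 nat_lit 0, nat_lit 11247, nat_lit 0, nat_lit 0, nat_lit 5294, nat_lit 100000, nat_lit 925, nat_lit 0, nat_lit 0, nat_lit 31154, nat_lit 5681, nat_lit 0, nat_lit 0, nat_lit 0, nat_lit 90, nat_lit 1000000, nat_lit 0, nat_lit 0, [(nat_lit 0, [(nat_lit 6, nat_lit 1000)])],
 ⟨p001_k94, nat_lit 0, nat_lit 0, nat_lit 311, nat_lit 0, nat_lit 55819, [nat_lit 2618000001, nat_lit 1352800000, nat_lit 26400000], [], [nat_lit 13066805298, nat_lit 13111287113, nat_lit 12846265642, nat_lit 12890716607], nat_lit 1271250, nat_lit 1271250, nat_lit 21650, nat_lit 43600, nat_lit 0, nat_lit 0, [nat_lit 1412500, nat_lit 1271250, nat_lit 1271250], [nat_lit 25, nat_lit 40, nat_lit 20, nat_lit 80, nat_lit 17, nat_lit 272, nat_lit 60, nat_lit 8]⟩, ⟨p001_k94, nat_lit 0, nat_lit 0, nat_lit 0, nat_lit 0, nat_lit 0, [nat_lit 113620000000, nat_lit 136344000000, nat_lit 159068000000], [], [nat_lit 171300816500, nat_lit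 171673790501, nat_lit 165242200500, nat_lit 165624914001], nat_lit 0, nat_lit 0, nat_lit 0, nat_lit 0, nat_lit 0, nat_lit 0, [], [nat_lit 25, nat_lit 40, nat_lit 20, nat_lit 80]⟩,
 ⟨nat_lit 6745, nat_lit 6764, ⟨.ofNat (nat_lit 93134), .ofNat (nat_lit 101810), .ofNat (nat_lit 94207), .ofNat (nat_lit 102882), .ofNat (nat_lit 94111), .ofNat (nat_lit 102767), .ofNat (nat_lit 95184), .ofNat (nat_lit 103839)⟩, ⟨.ofNat (nat_lit 0), .ofNat (nat_lit 0), .ofNat (nat_lit 0), .ofNat (nat_lit 0), .ofNat (nat_lit 0), .ofNat (nat_lit 0), .ofNat (nat_lit 0), .ofNat (nat_lit 0)⟩⟩, []⟩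
noncomputable def p001_l271 : Lf2 := ⟨nat_lit 0, nat_lit 4, [nat_lit 38, nat_lit 5, nat_lit 5, nat_lit 20], true, nat_lit 0, nat_lit 0, nat_lit 0, nat_lit 0, ⟨nat_lit 0, nat_lit 0, nat_lit 1000, nat_lit 5, nat_lit 46, nat_lit 0, nat_lit 0, nat_lit 0, nat_lit 0, nat_lit 215, nat_lit 19267, nat_lit 249, nat_lit 66143120, nat_lit 0, nat_lit 0, nat_lit 342157, false, false⟩,
 nat_lit 0, nat_lit 11590, nat_lit 0, nat_lit 0, nat_lit 5397, nat_lit 0, nat_lit 992, nat_lit 0, nat_lit 0, nat_lit 0, nat_lit 0, nat_lit 0, nat_lit 0, nat_lit 0, nat_lit 90, nat_lit 1000000, nat_lit 0, nat_lit 0, [(nat_lit 0, [(nat_lit 6, nat_lit 1000)])],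
 ⟨p001_k69, nat_lit 0, nat_lit 0, nat_lit 323, nat_lit 0, nat_lit 97229, [nat_lit 2618000001, nat_lit 1352800000, nat_lit 26400000], [], [nat_lit 12628955757, nat_lit 12763253525, nat_lit 11951743171, nat_lit 12085764146], nat_lit 1271250, nat_lit 1271250, nat_lit 43600, nat_lit 111251, nat_lit 0, nat_lit 0, [nat_lit 1412500, nat_lit 1271250, nat_lit 1271250], [nat_lit 25, nat_lit 40, nat_lit 20, nat_lit 80, nat_lit 17, nat_lit 272, nat_lit 60, nat_lit 8]⟩, C1.Rw.none,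
 ⟨nat_lit 6745, nat_lit 6801, ⟨.ofNat (nat_lit 97742), .ofNat (nat_lit 123889), .ofNat (nat_lit 100962), .ofNat (nat_lit 127109), .ofNat (nat_lit 100622), .ofNat (nat_lit 126589), .ofNat (nat_lit 103839), .ofNat (nat_lit 129806)⟩, ⟨.ofNat (nat_lit 0), .ofNat (nat_lit 0), .ofNat (nat_lit 0), .ofNat (nat_lit 0), .ofNat (nat_lit 0), .ofNat (nat_lit 0), .ofNat (nat_lit 0), .ofNat (nat_lit 0)⟩⟩, []⟩
noncomputable def p001_l272 : Lf2 := ⟨nat_lit 0, nat_lit 5, [nat_lit 4, nat_lit 5, nat_lit 5, nat_lit 20], true, nat_lit 0, nat_lit 0, nat_lit 0, nat_lit 0, ⟨nat_lit 0, nat_lit 0, nat_lit 1000, nat_lit 5, nat_lit 42, nat_lit 0, nat_lit 0, nat_lit 0, nat_lit 0, nat_lit 215, nat_lit 17067, nat_lit 247, nat_lit 66267533, nat_lit 0, nat_lit 0, nat_lit 301039, false, false⟩,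
 nat_lit 0, nat_lit 9821, nat_lit 0, nat_lit 732, nat_lit 4573, nat_lit 0, nat_lit 602, nat_lit 0, nat_lit 0, nat_lit 0, nat_lit 0, nat_lit 0, nat_lit 0, nat_lit 24021836468719, nat_lit 90, nat_lit 1000000, nat_lit 0, nat_lit 0, [(nat_lit 0, [(nat_lit 6, nat_lit 1000)])],
 ⟨p001_k78, nat_lit 0, nat_lit 0, nat_lit 301, nat_lit 0, nat_lit 18865, [nat_lit 2618000001, nat_lit 1352800000, nat_lit 26400000], [], [nat_lit 13454320085, nat_lit 13597665913, nat_lit 12301481355, nat_lit 12456344237], nat_lit 1271250, nat_lit 1271250, nat_lit 0, nat_lit 111251, nat_lit 0, nat_lit 0, [nat_lit 1412500, nat_lit 1271250, nat_lit 1271250], [nat_lit 25, nat_lit 40, nat_lit 20, nat_lit 80, nat_lit 17, nat_lit 272, nat_lit 60, nat_lit 9]⟩, C1.Rw.none,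
 ⟨nat_lit 6745, nat_lit 6801, ⟨.ofNat (nat_lit 80311), .ofNat (nat_lit 123889), .ofNat (nat_lit 83530), .ofNat (nat_lit 127109), .ofNat (nat_lit 83311), .ofNat (nat_lit 126589), .ofNat (nat_lit 86528), .ofNat (nat_lit 129806)⟩, ⟨.ofNat (nat_lit 0), .ofNat (nat_lit 0), .ofNat (nat_lit 0), .ofNat (nat_lit 0), .ofNat (nat_lit 0), .ofNat (nat_lit 0), .ofNat (nat_lit 0), .ofNat (nat_lit 0)⟩⟩, [⟨nat_lit 0, nat_lit 100, nat_lit 100, nat_lit 18, nat_lit 391796639⟩]⟩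
noncomputable def b_NL_500_500_0_2 : St := ⟨false, nat_lit 1, nat_lit 0, nat_lit 1, nat_lit 20, nat_lit 215, nat_lit 218, nat_lit 215, nat_lit 220, nat_lit 0, nat_lit 20, nat_lit 0, nat_lit 0, nat_lit 0, nat_lit 0, nat_lit 0, nat_lit 0, nat_lit 8, nat_lit 20, nat_lit 0, nat_lit 0, nat_lit 0, nat_lit 800⟩
theorem d_NL_500_500_0_2 (h : EB TB.env) : Dead b_NL_500_500_0_2 := chkB_sound0 h (T :=
(.ord (.spl (nat_lit 6) (nat_lit 16)
(.spl (nat_lit 2) (nat_lit 8)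
(.spl (nat_lit 0) (nat_lit 217)
(.ord (.spl (nat_lit 0) (nat_lit 216)
(.ord (.leaf p001_l247))
(.spl (nat_lit 2) (nat_lit 4)
(.spl (nat_lit 1) (nat_lit 216)
(.leaf p001_l248)
(.spl (nat_lit 6) (nat_lit 12)
(.spl (nat_lit 8) (nat_lit 400)
(.spl (nat_lit 8) (nat_lit 200)
(.leaf p001_l249)
(.spl (nat_lit 7) (nat_lit 600)
(.leaf p001_l250)
(.leaf p001_l251)))
(.leaf p001_l252))
(.spl (nat_lit 8) (nat_lit 400)
(.spl (nat_lit 8) (nat_lit 200)
(.leaf p001_l253)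
(.spl (nat_lit 7) (nat_lit 600)
(.leaf p001_l254)
(.leaf p001_l255)))
(.leaf p001_l256))))
(.leaf p001_l257))))
(.spl (nat_lit 2) (nat_lit 4)
(.spl (nat_lit 1) (nat_lit 217)
(.spl (nat_lit 1) (nat_lit 216)
(.leaf p001_l258)
(.spl (nat_lit 6) (nat_lit 12)
(.spl (nat_lit 7) (nat_lit 600)
(.leaf p001_l259)
(.leaf p001_l260))
(.spl (nat_lit 7) (nat_lit 600)
(.leaf p001_l261)
(.leaf p001_l262))))
(.spl (nat_lit 7) (nat_lit 600)
(.leaf p001_l263)
(.leaf p001_l264)))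
(.spl (nat_lit 1) (nat_lit 217)
(.leaf p001_l265)
(.spl (nat_lit 6) (nat_lit 12)
(.spl (nat_lit 7) (nat_lit 600)
(.leaf p001_l266)
(.leaf p001_l267))
(.spl (nat_lit 8) (nat_lit 400)
(.spl (nat_lit 7) (nat_lit 600)
(.leaf p001_l268)
(.leaf p001_l269))
(.leaf p001_l270))))))
(.leaf p001_l271))
(.leaf p001_l272)))) (by decide +kernel)

end B2
end Pool.Agent.Lib.MP_6947cd_al
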