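import Pool.Agent.Lib.MP_6947cd_al.ZB.Pre

/-!
Problem MP_6947cd_al (Chollet).  Case B, second entry in [2/5, 17/20]: certificates of the tree, part P002 (generated).
-/

set_option autoImplicit false
set_option linter.all false

namespace Pool.Agent.Lib.MP_6947cd_al
namespace B2

open Ent Fr B1 PkA

noncomputable def p002_k0 : C1.Kn := ⟨[nat_lit 100, nat_lit 120, nat_lit 140], [nat_lit 0, nat_lit 230, nat_lit 754], [(nat_lit 0, nat_lit 0, nat_lit 0), (nat_lit 1000, nat_lit 1000, nat_lit 180), (nat_lit 956, nat_lit 1000, nat_lit 391)], (nat_lit 100, nat_lit 96, nat_lit 39)⟩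
noncomputable def p002_k1 : C1.Kn := ⟨[nat_lit 100, nat_lit 120, nat_lit 140], [nat_lit 0, nat_lit 230, nat_lit 754], [(nat_lit 0, nat_lit 0, nat_lit 0), (nat_lit 1000, nat_lit 1000, nat_lit 180), (nat_lit 956, nat_lit 1000, nat_lit 391)], (nat_lit 100, nat_lit 97, nat_lit 34)⟩
noncomputable def p002_k2 : C1.Kn := ⟨[nat_lit 60, nat_lit 100, nat_lit 120, nat_lit 140], [nat_lit 0, nat_lit 0, nat_lit 230, nat_lit 754], [(nat_lit 0, nat_lit 0, nat_lit 0), (nat_lit 0, nat_lit 0, nat_lit 0), (nat_lit 1000, nat_lit 1000, nat_lit 180), (nat_lit 956, nat_lit 1000, nat_lit 391)], (nat_lit 100, nat_lit 96, nat_lit 39)⟩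
noncomputable def p002_k3 : C1.Kn := ⟨[nat_lit 100, nat_lit 120, nat_lit 140], [nat_lit 0, nat_lit 216, nat_lit 742], [(nat_lit 0, nat_lit 0, nat_lit 0), (nat_lit 1000, nat_lit 1000, nat_lit 168), (nat_lit 954, nat_lit 1000, nat_lit 392)], (nat_lit 100, nat_lit 95, nat_lit 39)⟩
noncomputable def p002_k4 : C1.Kn := ⟨[nat_lit 100, nat_lit 120, nat_lit 140], [nat_lit 0, nat_lit 242, nat_lit 767], [(nat_lit 0, nat_lit 0, nat_lit 0), (nat_lit 1000, nat_lit 1000, nat_lit 189), (nat_lit 958, nat_lit 1000, nat_lit 393)], (nat_lit 100, nat_lit 96, nat_lit 39)⟩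
noncomputable def p002_k5 : C1.Kn := ⟨[nat_lit 60, nat_lit 100, nat_lit 120, nat_lit 140], [nat_lit 0, nat_lit 0, nat_lit 242, nat_lit 767], [(nat_lit 0, nat_lit 0, nat_lit 0), (nat_lit 0, nat_lit 0, nat_lit 0), (nat_lit 1000, nat_lit 1000, nat_lit 189), (nat_lit 958, nat_lit 1000, nat_lit 393)], (nat_lit 100, nat_lit 96, nat_lit 39)⟩
noncomputable def p002_k6 : C1.Kn := ⟨[nat_lit 100, nat_lit 120, nat_lit 140], [nat_lit 0, nat_lit 230, nat_lit 754], [(nat_lit 0, nat_lit 0, nat_lit 0), (nat_lit 1000, nat_lit 1000, nat_lit 180), (nat_lit 956, nat_lit 1000, nat_lit 391)], (nat_lit 100, nat_lit 94, nat_lit 44)⟩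
noncomputable def p002_k7 : C1.Kn := ⟨[nat_lit 100, nat_lit 120, nat_lit 140], [nat_lit 0, nat_lit 242, nat_lit 767], [(nat_lit 0, nat_lit 0, nat_lit 0), (nat_lit 1000, nat_lit 1000, nat_lit 189), (nat_lit 958, nat_lit 1000, nat_lit 393)], (nat_lit 100, nat_lit 94, nat_lit 44)⟩
noncomputable def p002_k8 : C1.Kn := ⟨[nat_lit 60, nat_lit 100, nat_lit 120, nat_lit 140], [nat_lit 0, nat_lit 0, nat_lit 242, nat_lit 767], [(nat_lit 0, nat_lit 0, nat_lit 0), (nat_lit 0, nat_lit 0, nat_lit 0), (nat_lit 1000, nat_lit 1000, nat_lit 189), (nat_lit 958, nat_lit 1000, nat_lit 393)], (nat_lit 100, nat_lit 94, nat_lit 44)⟩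
noncomputable def p002_k9 : C1.Kn := ⟨[nat_lit 50, nat_lit 100, nat_lit 120, nat_lit 140], [nat_lit 0, nat_lit 0, nat_lit 242, nat_lit 767], [(nat_lit 0, nat_lit 0, nat_lit 0), (nat_lit 0, nat_lit 0, nat_lit 0), (nat_lit 1000, nat_lit 1000, nat_lit 189), (nat_lit 958, nat_lit 1000, nat_lit 393)], (nat_lit 100, nat_lit 94, nat_lit 44)⟩
noncomputable def p002_k10 : C1.Kn := ⟨[nat_lit 60, nat_lit 100, nat_lit 120, nat_lit 140], [nat_lit 0, nat_lit 0, nat_lit 230, nat_lit 754], [(nat_lit 0, nat_lit 0, nat_lit 0), (nat_lit 0, nat_lit 0, nat_lit 0), (nat_lit 1000, nat_lit 1000, nat_lit 180), (nat_lit 956, nat_lit 1000, nat_lit 391)], (nat_lit 100, nat_lit 94, nat_lit 44)⟩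
noncomputable def p002_k11 : C1.Kn := ⟨[nat_lit 50, nat_lit 100, nat_lit 120, nat_lit 140], [nat_lit 0, nat_lit 0, nat_lit 230, nat_lit 754], [(nat_lit 0, nat_lit 0, nat_lit 0), (nat_lit 0, nat_lit 0, nat_lit 0), (nat_lit 1000, nat_lit 1000, nat_lit 180), (nat_lit 956, nat_lit 1000, nat_lit 391)], (nat_lit 100, nat_lit 94, nat_lit 44)⟩
noncomputable def p002_k12 : C1.Kn := ⟨[nat_lit 60, nat_lit 100, nat_lit 120, nat_lit 140], [nat_lit 0, nat_lit 0, nat_lit 230, nat_lit 754], [(nat_lit 0, nat_lit 0, nat_lit 0), (nat_lit 0, nat_lit 0, nat_lit 0), (nat_lit 1000, nat_lit 1000, nat_lit 180), (nat_lit 956, nat_lit 1000, nat_lit 391)], (nat_lit 100, nat_lit 97, nat_lit 34)⟩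
noncomputable def p002_k13 : C1.Kn := ⟨[nat_lit 100, nat_lit 120, nat_lit 130], [nat_lit 0, nat_lit 242, nat_lit 504], [(nat_lit 0, nat_lit 0, nat_lit 0), (nat_lit 1000, nat_lit 1000, nat_lit 189), (nat_lit 963, nat_lit 1000, nat_lit 377)], (nat_lit 100, nat_lit 97, nat_lit 34)⟩
noncomputable def p002_k14 : C1.Kn := ⟨[nat_lit 100, nat_lit 120, nat_lit 140], [nat_lit 0, nat_lit 242, nat_lit 767], [(nat_lit 0, nat_lit 0, nat_lit 0), (nat_lit 1000, nat_lit 1000, nat_lit 189), (nat_lit 958, nat_lit 1000, nat_lit 393)], (nat_lit 100, nat_lit 97, nat_lit 34)⟩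
noncomputable def p002_k15 : C1.Kn := ⟨[nat_lit 60, nat_lit 100, nat_lit 120, nat_lit 140], [nat_lit 0, nat_lit 0, nat_lit 242, nat_lit 767], [(nat_lit 0, nat_lit 0, nat_lit 0), (nat_lit 0, nat_lit 0, nat_lit 0), (nat_lit 1000, nat_lit 1000, nat_lit 189), (nat_lit 958, nat_lit 1000, nat_lit 393)], (nat_lit 100, nat_lit 97, nat_lit 34)⟩
noncomputable def p002_k16 : C1.Kn := ⟨[nat_lit 100, nat_lit 120, nat_lit 140], [nat_lit 0, nat_lit 0, nat_lit 533], [(nat_lit 0, nat_lit 0, nat_lit 0), (nat_lit 0, nat_lit 0, nat_lit 0), (nat_lit 924, nat_lit 1000, nat_lit 383)], (nat_lit 100, nat_lit 96, nat_lit 28)⟩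
noncomputable def p002_k17 : C1.Kn := ⟨[nat_lit 100, nat_lit 110, nat_lit 130], [nat_lit 0, nat_lit 0, nat_lit 257], [(nat_lit 0, nat_lit 0, nat_lit 0), (nat_lit 0, nat_lit 0, nat_lit 0), (nat_lit 980, nat_lit 1000, nat_lit 197)], (nat_lit 100, nat_lit 96, nat_lit 28)⟩
noncomputable def p002_k18 : C1.Kn := ⟨[nat_lit 100, nat_lit 110, nat_lit 130], [nat_lit 0, nat_lit 31, nat_lit 290], [(nat_lit 0, nat_lit 0, nat_lit 0), (nat_lit 1000, nat_lit 1000, nat_lit 49), (nat_lit 985, nat_lit 1000, nat_lit 199)], (nat_lit 100, nat_lit 97, nat_lit 28)⟩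
noncomputable def p002_k19 : C1.Kn := ⟨[nat_lit 100, nat_lit 110, nat_lit 130], [nat_lit 0, nat_lit 64, nat_lit 321], [(nat_lit 0, nat_lit 0, nat_lit 0), (nat_lit 1000, nat_lit 1000, nat_lit 100), (nat_lit 990, nat_lit 1000, nat_lit 199)], (nat_lit 100, nat_lit 97, nat_lit 28)⟩
noncomputable def p002_k20 : C1.Kn := ⟨[nat_lit 70, nat_lit 90, nat_lit 110, nat_lit 120, nat_lit 130], [nat_lit 0, nat_lit 0, nat_lit 0, nat_lit 225, nat_lit 406], [(nat_lit 0, nat_lit 0, nat_lit 0), (nat_lit 0, nat_lit 0, nat_lit 0), (nat_lit 0, nat_lit 0, nat_lit 0), (nat_lit 985, nat_lit 1000, nat_lit 249), (nat_lit 979, nat_lit 1000, nat_lit 278)], (nat_lit 100, nat_lit 98, nat_lit 28)⟩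
noncomputable def p002_k21 : C1.Kn := ⟨[nat_lit 50, nat_lit 100, nat_lit 120, nat_lit 130], [nat_lit 0, nat_lit 0, nat_lit 192, nat_lit 455], [(nat_lit 0, nat_lit 0, nat_lit 0), (nat_lit 0, nat_lit 0, nat_lit 0), (nat_lit 1000, nat_lit 1000, nat_lit 150), (nat_lit 961, nat_lit 1000, nat_lit 357)], (nat_lit 100, nat_lit 98, nat_lit 28)⟩
noncomputable def p002_k22 : C1.Kn := ⟨[nat_lit 50, nat_lit 100, nat_lit 120], [nat_lit 0, nat_lit 0, nat_lit 230], [(nat_lit 0, nat_lit 0, nat_lit 0), (nat_lit 0, nat_lit 0, nat_lit 0), (nat_lit 1000, nat_lit 1000, nat_lit 180)], (nat_lit 100, nat_lit 99, nat_lit 28)⟩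
noncomputable def p002_k23 : C1.Kn := ⟨[nat_lit 100, nat_lit 110, nat_lit 120], [nat_lit 0, nat_lit 64, nat_lit 192], [(nat_lit 0, nat_lit 0, nat_lit 0), (nat_lit 1000, nat_lit 1000, nat_lit 100), (nat_lit 990, nat_lit 1000, nat_lit 199)], (nat_lit 100, nat_lit 99, nat_lit 20)⟩
noncomputable def p002_k24 : C1.Kn := ⟨[nat_lit 100, nat_lit 110, nat_lit 120], [nat_lit 0, nat_lit 96, nat_lit 224], [(nat_lit 0, nat_lit 0, nat_lit 0), (nat_lit 1000, nat_lit 1000, nat_lit 150), (nat_lit 995, nat_lit 1000, nat_lit 199)], (nat_lit 100, nat_lit 99, nat_lit 20)⟩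
noncomputable def p002_k25 : C1.Kn := ⟨[nat_lit 100, nat_lit 110, nat_lit 120], [nat_lit 0, nat_lit 115, nat_lit 244], [(nat_lit 0, nat_lit 0, nat_lit 0), (nat_lit 1000, nat_lit 1000, nat_lit 180), (nat_lit 998, nat_lit 1000, nat_lit 201)], (nat_lit 100, nat_lit 100, nat_lit 20)⟩
noncomputable def p002_k26 : C1.Kn := ⟨[nat_lit 100, nat_lit 110, nat_lit 120], [nat_lit 0, nat_lit 0, nat_lit 129], [(nat_lit 0, nat_lit 0, nat_lit 0), (nat_lit 0, nat_lit 0, nat_lit 0), (nat_lit 981, nat_lit 1000, nat_lit 192)], (nat_lit 100, nat_lit 98, nat_lit 20)⟩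
noncomputable def p002_k27 : C1.Kn := ⟨[nat_lit 100, nat_lit 110, nat_lit 120], [nat_lit 0, nat_lit 121, nat_lit 254], [(nat_lit 0, nat_lit 0, nat_lit 0), (nat_lit 1000, nat_lit 999, nat_lit 181), (nat_lit 998, nat_lit 1000, nat_lit 208)], (nat_lit 100, nat_lit 100, nat_lit 20)⟩
noncomputable def p002_k28 : C1.Kn := ⟨[nat_lit 100, nat_lit 120, nat_lit 130], [nat_lit 0, nat_lit 128, nat_lit 398], [(nat_lit 0, nat_lit 0, nat_lit 0), (nat_lit 1000, nat_lit 1000, nat_lit 100), (nat_lit 958, nat_lit 1000, nat_lit 339)], (nat_lit 100, nat_lit 97, nat_lit 28)⟩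
noncomputable def p002_k29 : C1.Kn := ⟨[nat_lit 100, nat_lit 110, nat_lit 130], [nat_lit 0, nat_lit 96, nat_lit 352], [(nat_lit 0, nat_lit 0, nat_lit 0), (nat_lit 1000, nat_lit 1000, nat_lit 150), (nat_lit 995, nat_lit 1000, nat_lit 199)], (nat_lit 100, nat_lit 98, nat_lit 28)⟩
noncomputable def p002_k30 : C1.Kn := ⟨[nat_lit 100, nat_lit 120], [nat_lit 0, nat_lit 230], [(nat_lit 0, nat_lit 0, nat_lit 0), (nat_lit 1000, nat_lit 1000, nat_lit 180)], (nat_lit 100, nat_lit 99, nat_lit 28)⟩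
noncomputable def p002_k31 : C1.Kn := ⟨[nat_lit 100, nat_lit 120, nat_lit 130], [nat_lit 0, nat_lit 192, nat_lit 455], [(nat_lit 0, nat_lit 0, nat_lit 0), (nat_lit 1000, nat_lit 1000, nat_lit 150), (nat_lit 961, nat_lit 1000, nat_lit 357)], (nat_lit 100, nat_lit 98, nat_lit 28)⟩
noncomputable def p002_k32 : C1.Kn := ⟨[nat_lit 100, nat_lit 120, nat_lit 140], [nat_lit 0, nat_lit 128, nat_lit 655], [(nat_lit 0, nat_lit 0, nat_lit 0), (nat_lit 1000, nat_lit 1000, nat_lit 100), (nat_lit 941, nat_lit 1000, nat_lit 388)], (nat_lit 100, nat_lit 97, nat_lit 28)⟩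
noncomputable def p002_k33 : C1.Kn := ⟨[nat_lit 100, nat_lit 120, nat_lit 140], [nat_lit 0, nat_lit 192, nat_lit 716], [(nat_lit 0, nat_lit 0, nat_lit 0), (nat_lit 1000, nat_lit 1000, nat_lit 150), (nat_lit 951, nat_lit 1000, nat_lit 389)], (nat_lit 100, nat_lit 95, nat_lit 39)⟩
noncomputable def p002_k34 : C1.Kn := ⟨[nat_lit 100, nat_lit 120, nat_lit 140], [nat_lit 0, nat_lit 204, nat_lit 729], [(nat_lit 0, nat_lit 0, nat_lit 0), (nat_lit 1000, nat_lit 1000, nat_lit 159), (nat_lit 952, nat_lit 1000, nat_lit 390)], (nat_lit 100, nat_lit 95, nat_lit 39)⟩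
noncomputable def p002_k35 : C1.Kn := ⟨[nat_lit 100, nat_lit 120, nat_lit 130], [nat_lit 0, nat_lit 204, nat_lit 467], [(nat_lit 0, nat_lit 0, nat_lit 0), (nat_lit 1000, nat_lit 1000, nat_lit 159), (nat_lit 962, nat_lit 1000, nat_lit 361)], (nat_lit 100, nat_lit 97, nat_lit 34)⟩
noncomputable def p002_k36 : C1.Kn := ⟨[nat_lit 100, nat_lit 120, nat_lit 140], [nat_lit 0, nat_lit 204, nat_lit 729], [(nat_lit 0, nat_lit 0, nat_lit 0), (nat_lit 1000, nat_lit 1000, nat_lit 159), (nat_lit 952, nat_lit 1000, nat_lit 390)], (nat_lit 100, nat_lit 97, nat_lit 34)⟩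
noncomputable def p002_k37 : C1.Kn := ⟨[nat_lit 50, nat_lit 100, nat_lit 120, nat_lit 140], [nat_lit 0, nat_lit 0, nat_lit 204, nat_lit 729], [(nat_lit 0, nat_lit 0, nat_lit 0), (nat_lit 0, nat_lit 0, nat_lit 0), (nat_lit 1000, nat_lit 1000, nat_lit 159), (nat_lit 952, nat_lit 1000, nat_lit 390)], (nat_lit 100, nat_lit 95, nat_lit 39)⟩
noncomputable def p002_k38 : C1.Kn := ⟨[nat_lit 50, nat_lit 100, nat_lit 120, nat_lit 140], [nat_lit 0, nat_lit 0, nat_lit 216, nat_lit 742], [(nat_lit 0, nat_lit 0, nat_lit 0), (nat_lit 0, nat_lit 0, nat_lit 0), (nat_lit 1000, nat_lit 1000, nat_lit 168), (nat_lit 954, nat_lit 1000, nat_lit 392)], (nat_lit 100, nat_lit 95, nat_lit 39)⟩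
noncomputable def p002_k39 : C1.Kn := ⟨[nat_lit 50, nat_lit 100, nat_lit 120, nat_lit 130], [nat_lit 0, nat_lit 0, nat_lit 216, nat_lit 480], [(nat_lit 0, nat_lit 0, nat_lit 0), (nat_lit 0, nat_lit 0, nat_lit 0), (nat_lit 1000, nat_lit 1000, nat_lit 168), (nat_lit 958, nat_lit 1000, nat_lit 379)], (nat_lit 100, nat_lit 97, nat_lit 34)⟩
noncomputable def p002_k40 : C1.Kn := ⟨[nat_lit 100, nat_lit 120, nat_lit 140], [nat_lit 0, nat_lit 216, nat_lit 742], [(nat_lit 0, nat_lit 0, nat_lit 0), (nat_lit 1000, nat_lit 1000, nat_lit 168), (nat_lit 954, nat_lit 1000, nat_lit 392)], (nat_lit 100, nat_lit 97, nat_lit 34)⟩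
noncomputable def p002_k41 : C1.Kn := ⟨[nat_lit 100, nat_lit 120, nat_lit 140], [nat_lit 0, nat_lit 192, nat_lit 716], [(nat_lit 0, nat_lit 0, nat_lit 0), (nat_lit 1000, nat_lit 1000, nat_lit 150), (nat_lit 951, nat_lit 1000, nat_lit 389)], (nat_lit 100, nat_lit 93, nat_lit 44)⟩
noncomputable def p002_k42 : C1.Kn := ⟨[nat_lit 100, nat_lit 120, nat_lit 130], [nat_lit 0, nat_lit 230, nat_lit 492], [(nat_lit 0, nat_lit 0, nat_lit 0), (nat_lit 1000, nat_lit 1000, nat_lit 180), (nat_lit 960, nat_lit 1000, nat_lit 378)], (nat_lit 100, nat_lit 97, nat_lit 34)⟩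
noncomputable def p002_k43 : C1.Kn := ⟨[nat_lit 100, nat_lit 110, nat_lit 130], [nat_lit 0, nat_lit 108, nat_lit 372], [(nat_lit 0, nat_lit 0, nat_lit 0), (nat_lit 1000, nat_lit 1000, nat_lit 165), (nat_lit 996, nat_lit 1000, nat_lit 206)], (nat_lit 100, nat_lit 97, nat_lit 34)⟩
noncomputable def p002_k44 : C1.Kn := ⟨[nat_lit 50, nat_lit 100, nat_lit 120, nat_lit 140], [nat_lit 0, nat_lit 0, nat_lit 230, nat_lit 754], [(nat_lit 0, nat_lit 0, nat_lit 0), (nat_lit 0, nat_lit 0, nat_lit 0), (nat_lit 1000, nat_lit 1000, nat_lit 180), (nat_lit 956, nat_lit 1000, nat_lit 391)], (nat_lit 100, nat_lit 96, nat_lit 39)⟩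
noncomputable def p002_k45 : C1.Kn := ⟨[nat_lit 50, nat_lit 100, nat_lit 120, nat_lit 140], [nat_lit 0, nat_lit 0, nat_lit 242, nat_lit 767], [(nat_lit 0, nat_lit 0, nat_lit 0), (nat_lit 0, nat_lit 0, nat_lit 0), (nat_lit 1000, nat_lit 1000, nat_lit 189), (nat_lit 958, nat_lit 1000, nat_lit 393)], (nat_lit 100, nat_lit 96, nat_lit 39)⟩
noncomputable def p002_k46 : C1.Kn := ⟨[nat_lit 50, nat_lit 100, nat_lit 120, nat_lit 130], [nat_lit 0, nat_lit 0, nat_lit 230, nat_lit 492], [(nat_lit 0, nat_lit 0, nat_lit 0), (nat_lit 0, nat_lit 0, nat_lit 0), (nat_lit 1000, nat_lit 1000, nat_lit 180), (nat_lit 960, nat_lit 1000, nat_lit 378)], (nat_lit 100, nat_lit 97, nat_lit 34)⟩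
noncomputable def p002_k47 : C1.Kn := ⟨[nat_lit 100, nat_lit 140], [nat_lit 0, nat_lit 460], [(nat_lit 0, nat_lit 0, nat_lit 0), (nat_lit 1000, nat_lit 1000, nat_lit 180)], (nat_lit 100, nat_lit 97, nat_lit 34)⟩
noncomputable def p002_k48 : C1.Kn := ⟨[nat_lit 100, nat_lit 140], [nat_lit 0, nat_lit 460], [(nat_lit 0, nat_lit 0, nat_lit 0), (nat_lit 1000, nat_lit 1000, nat_lit 180)], (nat_lit 100, nat_lit 96, nat_lit 39)⟩
noncomputable def p002_k49 : C1.Kn := ⟨[nat_lit 100, nat_lit 110, nat_lit 130], [nat_lit 0, nat_lit 115, nat_lit 372], [(nat_lit 0, nat_lit 0, nat_lit 0), (nat_lit 1000, nat_lit 1000, nat_lit 180), (nat_lit 998, nat_lit 1000, nat_lit 201)], (nat_lit 100, nat_lit 97, nat_lit 34)⟩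
noncomputable def p002_k50 : C1.Kn := ⟨[nat_lit 100, nat_lit 140], [nat_lit 0, nat_lit 484], [(nat_lit 0, nat_lit 0, nat_lit 0), (nat_lit 1000, nat_lit 1000, nat_lit 189)], (nat_lit 100, nat_lit 96, nat_lit 39)⟩
noncomputable def p002_k51 : C1.Kn := ⟨[nat_lit 100, nat_lit 110, nat_lit 130], [nat_lit 0, nat_lit 121, nat_lit 387], [(nat_lit 0, nat_lit 0, nat_lit 0), (nat_lit 1000, nat_lit 999, nat_lit 181), (nat_lit 998, nat_lit 1000, nat_lit 208)], (nat_lit 100, nat_lit 97, nat_lit 34)⟩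
noncomputable def p002_k52 : C1.Kn := ⟨[nat_lit 100, nat_lit 120, nat_lit 160], [nat_lit 0, nat_lit 0, nat_lit 1063], [(nat_lit 0, nat_lit 0, nat_lit 0), (nat_lit 0, nat_lit 0, nat_lit 0), (nat_lit 924, nat_lit 1000, nat_lit 383)], (nat_lit 100, nat_lit 90, nat_lit 44)⟩
noncomputable def p002_k53 : C1.Kn := ⟨[nat_lit 50, nat_lit 100, nat_lit 120, nat_lit 130], [nat_lit 0, nat_lit 0, nat_lit 0, nat_lit 294], [(nat_lit 0, nat_lit 0, nat_lit 0), (nat_lit 0, nat_lit 0, nat_lit 0), (nat_lit 0, nat_lit 0, nat_lit 0), (nat_lit 958, nat_lit 1000, nat_lit 288)], (nat_lit 100, nat_lit 96, nat_lit 28)⟩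
noncomputable def p002_k54 : C1.Kn := ⟨[nat_lit 50, nat_lit 100, nat_lit 120, nat_lit 130], [nat_lit 0, nat_lit 0, nat_lit 62, nat_lit 344], [(nat_lit 0, nat_lit 0, nat_lit 0), (nat_lit 0, nat_lit 0, nat_lit 0), (nat_lit 1000, nat_lit 1000, nat_lit 49), (nat_lit 958, nat_lit 1000, nat_lit 312)], (nat_lit 100, nat_lit 97, nat_lit 28)⟩
noncomputable def p002_k55 : C1.Kn := ⟨[nat_lit 100, nat_lit 120, nat_lit 140], [nat_lit 0, nat_lit 62, nat_lit 594], [(nat_lit 0, nat_lit 0, nat_lit 0), (nat_lit 1000, nat_lit 1000, nat_lit 49), (nat_lit 932, nat_lit 1000, nat_lit 385)], (nat_lit 100, nat_lit 97, nat_lit 28)⟩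
noncomputable def p002_k56 : C1.Kn := ⟨[nat_lit 50, nat_lit 100, nat_lit 120, nat_lit 130], [nat_lit 0, nat_lit 0, nat_lit 128, nat_lit 398], [(nat_lit 0, nat_lit 0, nat_lit 0), (nat_lit 0, nat_lit 0, nat_lit 0), (nat_lit 1000, nat_lit 1000, nat_lit 100), (nat_lit 958, nat_lit 1000, nat_lit 339)], (nat_lit 100, nat_lit 97, nat_lit 28)⟩
noncomputable def p002_k57 : C1.Kn := ⟨[nat_lit 60, nat_lit 100, nat_lit 120, nat_lit 160], [nat_lit 0, nat_lit 0, nat_lit 0, nat_lit 1063], [(nat_lit 0, nat_lit 0, nat_lit 0), (nat_lit 0, nat_lit 0, nat_lit 0), (nat_lit 0, nat_lit 0, nat_lit 0), (nat_lit 924, nat_lit 1000, nat_lit 383)], (nat_lit 100, nat_lit 90, nat_lit 44)⟩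
noncomputable def p002_k58 : C1.Kn := ⟨[nat_lit 50, nat_lit 100, nat_lit 120, nat_lit 150], [nat_lit 0, nat_lit 0, nat_lit 0, nat_lit 798], [(nat_lit 0, nat_lit 0, nat_lit 0), (nat_lit 0, nat_lit 0, nat_lit 0), (nat_lit 0, nat_lit 0, nat_lit 0), (nat_lit 924, nat_lit 1000, nat_lit 383)], (nat_lit 100, nat_lit 90, nat_lit 44)⟩
noncomputable def p002_k59 : C1.Kn := ⟨[nat_lit 100, nat_lit 120, nat_lit 140], [nat_lit 0, nat_lit 128, nat_lit 655], [(nat_lit 0, nat_lit 0, nat_lit 0), (nat_lit 1000, nat_lit 1000, nat_lit 100), (nat_lit 941, nat_lit 1000, nat_lit 388)], (nat_lit 100, nat_lit 92, nat_lit 44)⟩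
noncomputable def p002_k60 : C1.Kn := ⟨[nat_lit 50, nat_lit 100, nat_lit 120, nat_lit 140], [nat_lit 0, nat_lit 0, nat_lit 128, nat_lit 655], [(nat_lit 0, nat_lit 0, nat_lit 0), (nat_lit 0, nat_lit 0, nat_lit 0), (nat_lit 1000, nat_lit 1000, nat_lit 100), (nat_lit 941, nat_lit 1000, nat_lit 388)], (nat_lit 100, nat_lit 92, nat_lit 44)⟩
noncomputable def p002_k61 : C1.Kn := ⟨[nat_lit 50, nat_lit 100, nat_lit 120, nat_lit 130], [nat_lit 0, nat_lit 0, nat_lit 166, nat_lit 432], [(nat_lit 0, nat_lit 0, nat_lit 0), (nat_lit 0, nat_lit 0, nat_lit 0), (nat_lit 1000, nat_lit 1000, nat_lit 130), (nat_lit 959, nat_lit 1000, nat_lit 351)], (nat_lit 100, nat_lit 98, nat_lit 28)⟩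
noncomputable def p002_k62 : C1.Kn := ⟨[nat_lit 100, nat_lit 120, nat_lit 140], [nat_lit 0, nat_lit 166, nat_lit 692], [(nat_lit 0, nat_lit 0, nat_lit 0), (nat_lit 1000, nat_lit 1000, nat_lit 130), (nat_lit 947, nat_lit 1000, nat_lit 388)], (nat_lit 100, nat_lit 98, nat_lit 28)⟩
noncomputable def p002_k63 : C1.Kn := ⟨[nat_lit 50, nat_lit 100, nat_lit 120, nat_lit 140], [nat_lit 0, nat_lit 0, nat_lit 192, nat_lit 716], [(nat_lit 0, nat_lit 0, nat_lit 0), (nat_lit 0, nat_lit 0, nat_lit 0), (nat_lit 1000, nat_lit 1000, nat_lit 150), (nat_lit 951, nat_lit 1000, nat_lit 389)], (nat_lit 100, nat_lit 93, nat_lit 44)⟩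
noncomputable def p002_l0 : Lf2 := ⟨nat_lit 0, nat_lit 4, [nat_lit 38, nat_lit 5, nat_lit 5, nat_lit 20], true, nat_lit 0, nat_lit 0, nat_lit 0, nat_lit 0, ⟨nat_lit 0, nat_lit 0, nat_lit 1000, nat_lit 5, nat_lit 36, nat_lit 0, nat_lit 0, nat_lit 0, nat_lit 0, nat_lit 215, nat_lit 12150, nat_lit 242, nat_lit 66465270, nat_lit 0, nat_lit 0, nat_lit 232186, false, false⟩,
 nat_lit 0, nat_lit 11619, nat_lit 0, nat_lit 0, nat_lit 5498, nat_lit 0, nat_lit 1237, nat_lit 0, nat_lit 0, nat_lit 0, nat_lit 0, nat_lit 0, nat_lit 0, nat_lit 0, nat_lit 90, nat_lit 1000000, nat_lit 0, nat_lit 0, [(nat_lit 0, [(nat_lit 6, nat_lit 1000)])],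
 ⟨p002_k0, nat_lit 0, nat_lit 0, nat_lit 0, nat_lit 0, nat_lit 99796, [nat_lit 2618000001, nat_lit 1352800000, nat_lit 26400000], [], [nat_lit 12882151050, nat_lit 13008525662, nat_lit 12546750167, nat_lit 12639841603], nat_lit 1271250, nat_lit 1271250, nat_lit 0, nat_lit 21650, nat_lit 0, nat_lit 0, [nat_lit 1412500, nat_lit 1271250, nat_lit 1271250], [nat_lit 25, nat_lit 40, nat_lit 20, nat_lit 80]⟩, C1.Rw.none,
 ⟨nat_lit 6708, nat_lit 6746, ⟨.ofNat (nat_lit 83311), .ofNat (nat_lit 91967), .ofNat (nat_lit 85456), .ofNat (nat_lit 94111), .ofNat (nat_lit 85300), .ofNat (nat_lit 93915), .ofNat (nat_lit 87444), .ofNat (nat_lit 96059)⟩, ⟨.ofNat (nat_lit 0), .ofNat (nat_lit 0), .ofNat (nat_lit 0), .ofNat (nat_lit 0), .ofNat (nat_lit 0), .ofNat (nat_lit 0), .ofNat (nat_lit 0), .ofNat (nat_lit 0)⟩⟩, [⟨nat_lit 0, nat_lit 100, nat_lit 100, nat_lit 18, nat_lit 564613275⟩]⟩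
noncomputable def p002_l1 : Lf2 := ⟨nat_lit 0, nat_lit 3, [nat_lit 45, nat_lit 5, nat_lit 5, nat_lit 20], true, nat_lit 0, nat_lit 0, nat_lit 0, nat_lit 0, ⟨nat_lit 0, nat_lit 0, nat_lit 1000, nat_lit 5, nat_lit 37, nat_lit 0, nat_lit 0, nat_lit 0, nat_lit 0, nat_lit 215, nat_lit 12150, nat_lit 242, nat_lit 66446082, nat_lit 0, nat_lit 0, nat_lit 239086, false, false⟩,
 nat_lit 0, nat_lit 11615, nat_lit 0, nat_lit 0, nat_lit 5496, nat_lit 0, nat_lit 1237, nat_lit 0, nat_lit 0, nat_lit 0, nat_lit 0, nat_lit 0, nat_lit 0, nat_lit 0, nat_lit 90, nat_lit 1000000, nat_lit 0, nat_lit 0, [(nat_lit 0, [(nat_lit 6, nat_lit 1000)])],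
 ⟨p002_k1, nat_lit 0, nat_lit 0, nat_lit 0, nat_lit 0, nat_lit 102832, [nat_lit 2618000001, nat_lit 1352800000, nat_lit 26400000], [], [nat_lit 12880304950, nat_lit 13006765130, nat_lit 12549689561, nat_lit 12639888185], nat_lit 1271250, nat_lit 1271250, nat_lit 0, nat_lit 21650, nat_lit 0, nat_lit 0, [nat_lit 1412500, nat_lit 1271250, nat_lit 1271250], [nat_lit 25, nat_lit 40, nat_lit 20, nat_lit 80]⟩, C1.Rw.none,
 ⟨nat_lit 6708, nat_lit 6746, ⟨.ofNat (nat_lit 85456), .ofNat (nat_lit 94111), .ofNat (nat_lit 86528), .ofNat (nat_lit 95184), .ofNat (nat_lit 87444), .ofNat (nat_lit 96059), .ofNat (nat_lit 88516), .ofNat (nat_lit 97131)⟩, ⟨.ofNat (nat_lit 0), .ofNat (nat_lit 0), .ofNat (nat_lit 0), .ofNat (nat_lit 0), .ofNat (nat_lit 0), .ofNat (nat_lit 0), .ofNat (nat_lit 0), .ofNat (nat_lit 0)⟩⟩, [⟨nat_lit 0, nat_lit 100, nat_lit 100, nat_lit 19, nat_lit 564871175⟩]⟩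
noncomputable def p002_l2 : Lf2 := ⟨nat_lit 0, nat_lit 4, [nat_lit 38, nat_lit 5, nat_lit 5, nat_lit 20], true, nat_lit 0, nat_lit 0, nat_lit 0, nat_lit 0, ⟨nat_lit 0, nat_lit 0, nat_lit 1000, nat_lit 5, nat_lit 36, nat_lit 0, nat_lit 0, nat_lit 0, nat_lit 0, nat_lit 215, nat_lit 12150, nat_lit 242, nat_lit 66451980, nat_lit 0, nat_lit 0, nat_lit 236966, false, false⟩,
 nat_lit 0, nat_lit 9780, nat_lit 0, nat_lit 0, nat_lit 4628, nat_lit 0, nat_lit 608, nat_lit 0, nat_lit 0, nat_lit 0, nat_lit 0, nat_lit 0, nat_lit 0, nat_lit 0, nat_lit 90, nat_lit 1000000, nat_lit 0, nat_lit 0, [(nat_lit 0, [(nat_lit 6, nat_lit 1000)])],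
 ⟨p002_k0, nat_lit 0, nat_lit 0, nat_lit 0, nat_lit 0, nat_lit 59693, [nat_lit 2618000001, nat_lit 1352800000, nat_lit 26400000], [], [nat_lit 13561178800, nat_lit 13619801216, nat_lit 13264777757, nat_lit 13316081051], nat_lit 1271250, nat_lit 1271250, nat_lit 0, nat_lit 21650, nat_lit 0, nat_lit 0, [nat_lit 1412500, nat_lit 1271250, nat_lit 1271250], [nat_lit 25, nat_lit 40, nat_lit 20, nat_lit 80]⟩, C1.Rw.none,
 ⟨nat_lit 6726, nat_lit 6746, ⟨.ofNat (nat_lit 85456), .ofNat (nat_lit 94111), .ofNat (nat_lit 86528), .ofNat (nat_lit 95184), .ofNat (nat_lit 86451), .ofNat (nat_lit 95086), .ofNat (nat_lit 87523), .ofNat (nat_lit 96159)⟩, ⟨.ofNat (nat_lit 0), .ofNat (nat_lit 0), .ofNat (nat_lit 0), .ofNat (nat_lit 0), .ofNat (nat_lit 0), .ofNat (nat_lit 0), .ofNat (nat_lit 0), .ofNat (nat_lit 0)⟩⟩, [⟨nat_lit 0, nat_lit 100, nat_lit 100, nat_lit 18, nat_lit 484097194⟩]⟩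
noncomputable def p002_l3 : Lf2 := ⟨nat_lit 0, nat_lit 4, [nat_lit 38, nat_lit 5, nat_lit 5, nat_lit 20], true, nat_lit 0, nat_lit 0, nat_lit 0, nat_lit 0, ⟨nat_lit 0, nat_lit 0, nat_lit 1000, nat_lit 5, nat_lit 36, nat_lit 0, nat_lit 0, nat_lit 0, nat_lit 0, nat_lit 215, nat_lit 12150, nat_lit 242, nat_lit 66451980, nat_lit 0, nat_lit 0, nat_lit 236966, false, false⟩,
 nat_lit 0, nat_lit 100000, nat_lit 0, nat_lit 0, nat_lit 47322, nat_lit 0, nat_lit 8342, nat_lit 0, nat_lit 507, nat_lit 0, nat_lit 0, nat_lit 0, nat_lit 0, nat_lit 0, nat_lit 54, nat_lit 400000, nat_lit 38726795422, nat_lit 0, [(nat_lit 0, [(nat_lit 5, nat_lit 1000)])],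
 ⟨p002_k2, nat_lit 0, nat_lit 0, nat_lit 0, nat_lit 0, nat_lit 59693, [nat_lit 1606133334, nat_lit 1489066667, nat_lit 712400000, nat_lit 13600000], [], [nat_lit 2857986650, nat_lit 3119990731, nat_lit 0, nat_lit 215355164], nat_lit 1271250, nat_lit 1271250, nat_lit 0, nat_lit 21650, nat_lit 0, nat_lit 0, [nat_lit 780000, nat_lit 1435000, nat_lit 1271250, nat_lit 1271250], [nat_lit 140, nat_lit 40, nat_lit 20, nat_lit 80]⟩, C1.Rw.none,
 ⟨nat_lit 6726, nat_lit 6746, ⟨.ofNat (nat_lit 85456), .ofNat (nat_lit 94111), .ofNat (nat_lit 86528), .ofNat (nat_lit 95184), .ofNat (nat_lit 86451), .ofNat (nat_lit 95086), .ofNat (nat_lit 87523), .ofNat (nat_lit 96159)⟩, ⟨.ofNat (nat_lit 0), .ofNat (nat_lit 0), .ofNat (nat_lit 0), .ofNat (nat_lit 0), .ofNat (nat_lit 0), .ofNat (nat_lit 0), .ofNat (nat_lit 0), .ofNat (nat_lit 0)⟩⟩, [⟨nat_lit 0, nat_lit 100, nat_lit 100, nat_lit 18, nat_lit 10000000000⟩]⟩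
noncomputable def p002_l4 : Lf2 := ⟨nat_lit 0, nat_lit 4, [nat_lit 38, nat_lit 5, nat_lit 5, nat_lit 20], false, nat_lit 0, nat_lit 0, nat_lit 0, nat_lit 0, ⟨nat_lit 0, nat_lit 0, nat_lit 1000, nat_lit 5, nat_lit 36, nat_lit 0, nat_lit 0, nat_lit 0, nat_lit 0, nat_lit 215, nat_lit 12150, nat_lit 242, nat_lit 66451980, nat_lit 0, nat_lit 0, nat_lit 236966, false, false⟩,
 nat_lit 0, nat_lit 50862, nat_lit 0, nat_lit 0, nat_lit 24069, nat_lit 100000, nat_lit 8038, nat_lit 881, nat_lit 0, nat_lit 31154, nat_lit 5681, nat_lit 0, nat_lit 0, nat_lit 0, nat_lit 0, nat_lit 752200, nat_lit 0, nat_lit 0, [(nat_lit 0, [(nat_lit 5, nat_lit 413), (nat_lit 6, nat_lit 587)])],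
 ⟨p002_k0, nat_lit 0, nat_lit 0, nat_lit 0, nat_lit 0, nat_lit 59693, [nat_lit 18678366000, nat_lit 20429146800, nat_lit 22585417600], [], [nat_lit 39078273950, nat_lit 39240001623, nat_lit 37323878189, nat_lit 37484939934], nat_lit 1271250, nat_lit 1271250, nat_lit 0, nat_lit 21650, nat_lit 0, nat_lit 0, [nat_lit 1412500, nat_lit 1271250, nat_lit 1271250], [nat_lit 25, nat_lit 40, nat_lit 20, nat_lit 80]⟩, ⟨p002_k3, nat_lit 0, nat_lit 0, nat_lit 0, nat_lit 0, nat_lit 0, [nat_lit 113620000000, nat_lit 136344000000, nat_lit 159068000000], [], [nat_lit 178609962500, nat_lit 179134662501, nat_lit 171300816500, nat_lit 171673790501], nat_lit 0, nat_lit 0, nat_lit 0, nat_lit 0, nat_lit 0, nat_lit 0, [], [nat_lit 25, nat_lit 40, nat_lit 20, nat_lit 80]⟩,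
 ⟨nat_lit 6726, nat_lit 6746, ⟨.ofNat (nat_lit 85456), .ofNat (nat_lit 94111), .ofNat (nat_lit 86528), .ofNat (nat_lit 95184), .ofNat (nat_lit 86451), .ofNat (nat_lit 95086), .ofNat (nat_lit 87523), .ofNat (nat_lit 96159)⟩, ⟨.ofNat (nat_lit 0), .ofNat (nat_lit 0), .ofNat (nat_lit 0), .ofNat (nat_lit 0), .ofNat (nat_lit 0), .ofNat (nat_lit 0), .ofNat (nat_lit 0), .ofNat (nat_lit 0)⟩⟩, [⟨nat_lit 0, nat_lit 100, nat_lit 100, nat_lit 18, nat_lit 1622830199⟩, ⟨nat_lit 0, nat_lit 100, nat_lit 100, nat_lit 18, nat_lit 10000000000⟩]⟩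
noncomputable def p002_l5 : Lf2 := ⟨nat_lit 0, nat_lit 4, [nat_lit 38, nat_lit 5, nat_lit 5, nat_lit 20], true, nat_lit 0, nat_lit 0, nat_lit 0, nat_lit 0, ⟨nat_lit 0, nat_lit 0, nat_lit 1000, nat_lit 5, nat_lit 36, nat_lit 0, nat_lit 0, nat_lit 0, nat_lit 0, nat_lit 215, nat_lit 12150, nat_lit 242, nat_lit 66451980, nat_lit 0, nat_lit 0, nat_lit 236966, false, false⟩,
 nat_lit 0, nat_lit 100000, nat_lit 0, nat_lit 0, nat_lit 47322, nat_lit 0, nat_lit 17406, nat_lit 1986, nat_lit 0, nat_lit 0, nat_lit 0, nat_lit 0, nat_lit 0, nat_lit 0, nat_lit 0, nat_lit 400000, nat_lit 0, nat_lit 0, [(nat_lit 0, [(nat_lit 5, nat_lit 1000)])],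
 ⟨p002_k0, nat_lit 0, nat_lit 0, nat_lit 0, nat_lit 0, nat_lit 59693, [nat_lit 41120000000, nat_lit 47080400001, nat_lit 54109600000], [], [nat_lit 71274700549, nat_lit 71624956605, nat_lit 67948272415, nat_lit 68127151057], nat_lit 1271250, nat_lit 1271250, nat_lit 0, nat_lit 21650, nat_lit 0, nat_lit 0, [nat_lit 1412500, nat_lit 1271250, nat_lit 1271250], [nat_lit 25, nat_lit 40, nat_lit 20, nat_lit 80]⟩, C1.Rw.none,
 ⟨nat_lit 6726, nat_lit 6746, ⟨.ofNat (nat_lit 85456), .ofNat (nat_lit 94111), .ofNat (nat_lit 86528), .ofNat (nat_lit 95184), .ofNat (nat_lit 86451), .ofNat (nat_lit 95086), .ofNat (nat_lit 87523), .ofNat (nat_lit 96159)⟩, ⟨.ofNat (nat_lit 0), .ofNat (nat_lit 0), .ofNat (nat_lit 0), .ofNat (nat_lit 0), .ofNat (nat_lit 0), .ofNat (nat_lit 0), .ofNat (nat_lit 0), .ofNat (nat_lit 0)⟩⟩, [⟨nat_lit 0, nat_lit 100, nat_lit 100, nat_lit 18, nat_lit 4476563123⟩]⟩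
noncomputable def p002_l6 : Lf2 := ⟨nat_lit 0, nat_lit 4, [nat_lit 38, nat_lit 5, nat_lit 5, nat_lit 20], true, nat_lit 0, nat_lit 0, nat_lit 0, nat_lit 0, ⟨nat_lit 0, nat_lit 0, nat_lit 1000, nat_lit 5, nat_lit 37, nat_lit 0, nat_lit 0, nat_lit 0, nat_lit 0, nat_lit 215, nat_lit 13067, nat_lit 243, nat_lit 66440140, nat_lit 0, nat_lit 0, nat_lit 241215, false, false⟩,
 nat_lit 0, nat_lit 9711, nat_lit 0, nat_lit 0, nat_lit 4619, nat_lit 0, nat_lit 603, nat_lit 0, nat_lit 0, nat_lit 0, nat_lit 0, nat_lit 0, nat_lit 0, nat_lit 0, nat_lit 90, nat_lit 1000000, nat_lit 0, nat_lit 0, [(nat_lit 0, [(nat_lit 6, nat_lit 1000)])],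
 ⟨p002_k4, nat_lit 0, nat_lit 0, nat_lit 0, nat_lit 0, nat_lit 63524, [nat_lit 2618000001, nat_lit 1352800000, nat_lit 26400000], [], [nat_lit 13598730919, nat_lit 13657306111, nat_lit 13302315581, nat_lit 13356104772], nat_lit 1271250, nat_lit 1271250, nat_lit 0, nat_lit 21650, nat_lit 0, nat_lit 0, [nat_lit 1412500, nat_lit 1271250, nat_lit 1271250], [nat_lit 25, nat_lit 40, nat_lit 20, nat_lit 80]⟩, C1.Rw.none,
 ⟨nat_lit 6708, nat_lit 6727, ⟨.ofNat (nat_lit 86451), .ofNat (nat_lit 95086), .ofNat (nat_lit 87523), .ofNat (nat_lit 96159), .ofNat (nat_lit 87444), .ofNat (nat_lit 96059), .ofNat (nat_lit 88516), .ofNat (nat_lit 97131)⟩, ⟨.ofNat (nat_lit 0), .ofNat (nat_lit 0), .ofNat (nat_lit 0), .ofNat (nat_lit 0), .ofNat (nat_lit 0), .ofNat (nat_lit 0), .ofNat (nat_lit 0), .ofNat (nat_lit 0)⟩⟩, [⟨nat_lit 0, nat_lit 100, nat_lit 100, nat_lit 19, nat_lit 483569439⟩]⟩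
noncomputable def p002_l7 : Lf2 := ⟨nat_lit 0, nat_lit 4, [nat_lit 38, nat_lit 5, nat_lit 5, nat_lit 20], true, nat_lit 0, nat_lit 0, nat_lit 0, nat_lit 0, ⟨nat_lit 0, nat_lit 0, nat_lit 1000, nat_lit 5, nat_lit 37, nat_lit 0, nat_lit 0, nat_lit 0, nat_lit 0, nat_lit 215, nat_lit 13067, nat_lit 243, nat_lit 66440140, nat_lit 0, nat_lit 0, nat_lit 241215, false, false⟩,
 nat_lit 0, nat_lit 100000, nat_lit 0, nat_lit 0, nat_lit 47574, nat_lit 0, nat_lit 8301, nat_lit 0, nat_lit 458, nat_lit 0, nat_lit 0, nat_lit 0, nat_lit 0, nat_lit 0, nat_lit 54, nat_lit 400000, nat_lit 36822350824, nat_lit 0, [(nat_lit 0, [(nat_lit 5, nat_lit 1000)])],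
 ⟨p002_k5, nat_lit 0, nat_lit 0, nat_lit 0, nat_lit 0, nat_lit 63524, [nat_lit 1606133334, nat_lit 1489066667, nat_lit 712400000, nat_lit 13600000], [], [nat_lit 2878287082, nat_lit 3141513035, nat_lit 0, nat_lit 219560852], nat_lit 1271250, nat_lit 1271250, nat_lit 0, nat_lit 21650, nat_lit 0, nat_lit 0, [nat_lit 780000, nat_lit 1435000, nat_lit 1271250, nat_lit 1271250], [nat_lit 140, nat_lit 40, nat_lit 20, nat_lit 80]⟩, C1.Rw.none,
 ⟨nat_lit 6708, nat_lit 6727, ⟨.ofNat (nat_lit 86451), .ofNat (nat_lit 95086), .ofNat (nat_lit 87523), .ofNat (nat_lit 96159), .ofNat (nat_lit 87444), .ofNat (nat_lit 96059), .ofNat (nat_lit 88516), .ofNat (nat_lit 97131)⟩, ⟨.ofNat (nat_lit 0), .ofNat (nat_lit 0), .ofNat (nat_lit 0), .ofNat (nat_lit 0), .ofNat (nat_lit 0), .ofNat (nat_lit 0), .ofNat (nat_lit 0), .ofNat (nat_lit 0)⟩⟩, [⟨nat_lit 0, nat_lit 100, nat_lit 100, nat_lit 19, nat_lit 10000000000⟩]⟩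
noncomputable def p002_l8 : Lf2 := ⟨nat_lit 0, nat_lit 4, [nat_lit 38, nat_lit 5, nat_lit 5, nat_lit 20], false, nat_lit 0, nat_lit 0, nat_lit 0, nat_lit 0, ⟨nat_lit 0, nat_lit 0, nat_lit 1000, nat_lit 5, nat_lit 37, nat_lit 0, nat_lit 0, nat_lit 0, nat_lit 0, nat_lit 215, nat_lit 13067, nat_lit 243, nat_lit 66440140, nat_lit 0, nat_lit 0, nat_lit 241215, false, false⟩,
 nat_lit 0, nat_lit 57037, nat_lit 0, nat_lit 0, nat_lit 27134, nat_lit 100000, nat_lit 8990, nat_lit 1040, nat_lit 0, nat_lit 31154, nat_lit 5681, nat_lit 0, nat_lit 0, nat_lit 0, nat_lit 0, nat_lit 917200, nat_lit 0, nat_lit 0, [(nat_lit 0, [(nat_lit 5, nat_lit 138), (nat_lit 6, nat_lit 862)])],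
 ⟨p002_k4, nat_lit 0, nat_lit 0, nat_lit 0, nat_lit 0, nat_lit 63524, [nat_lit 21698316001, nat_lit 24183656801, nat_lit 26763737600], [], [nat_lit 43654084848, nat_lit 43832701821, nat_lit 41706199003, nat_lit 41848707013], nat_lit 1271250, nat_lit 1271250, nat_lit 0, nat_lit 21650, nat_lit 0, nat_lit 0, [nat_lit 1412500, nat_lit 1271250, nat_lit 1271250], [nat_lit 25, nat_lit 40, nat_lit 20, nat_lit 80]⟩, ⟨p002_k3, nat_lit 0, nat_lit 0, nat_lit 0, nat_lit 0, nat_lit 0, [nat_lit 113620000000, nat_lit 136344000000, nat_lit 159068000000], [], [nat_lit 178609962500, nat_lit 179134662501, nat_lit 171300816500, nat_lit 171673790501], nat_lit 0, nat_lit 0, nat_lit 0, nat_lit 0, nat_lit 0, nat_lit 0, [], [nat_lit 25, nat_lit 40, nat_lit 20, nat_lit 80]⟩,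
 ⟨nat_lit 6708, nat_lit 6727, ⟨.ofNat (nat_lit 86451), .ofNat (nat_lit 95086), .ofNat (nat_lit 87523), .ofNat (nat_lit 96159), .ofNat (nat_lit 87444), .ofNat (nat_lit 96059), .ofNat (nat_lit 88516), .ofNat (nat_lit 97131)⟩, ⟨.ofNat (nat_lit 0), .ofNat (nat_lit 0), .ofNat (nat_lit 0), .ofNat (nat_lit 0), .ofNat (nat_lit 0), .ofNat (nat_lit 0), .ofNat (nat_lit 0), .ofNat (nat_lit 0)⟩⟩, [⟨nat_lit 0, nat_lit 100, nat_lit 100, nat_lit 19, nat_lit 10000000000⟩, ⟨nat_lit 0, nat_lit 100, nat_lit 100, nat_lit 18, nat_lit 1908340442⟩]⟩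
noncomputable def p002_l9 : Lf2 := ⟨nat_lit 0, nat_lit 4, [nat_lit 38, nat_lit 5, nat_lit 5, nat_lit 20], true, nat_lit 0, nat_lit 0, nat_lit 0, nat_lit 0, ⟨nat_lit 0, nat_lit 0, nat_lit 1000, nat_lit 5, nat_lit 37, nat_lit 0, nat_lit 0, nat_lit 0, nat_lit 0, nat_lit 215, nat_lit 13067, nat_lit 243, nat_lit 66440140, nat_lit 0, nat_lit 0, nat_lit 241215, false, false⟩,
 nat_lit 0, nat_lit 100000, nat_lit 0, nat_lit 0, nat_lit 47574, nat_lit 0, nat_lit 16611, nat_lit 2003, nat_lit 0, nat_lit 0, nat_lit 0, nat_lit 0, nat_lit 0, nat_lit 0, nat_lit 0, nat_lit 406600, nat_lit 0, nat_lit 0, [(nat_lit 0, [(nat_lit 5, nat_lit 989), (nat_lit 6, nat_lit 11)])],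
 ⟨p002_k4, nat_lit 0, nat_lit 0, nat_lit 0, nat_lit 0, nat_lit 63524, [nat_lit 41453598001, nat_lit 47485940401, nat_lit 54574652800], [], [nat_lit 72172806353, nat_lit 72466027371, nat_lit 68772867305, nat_lit 68950458222], nat_lit 1271250, nat_lit 1271250, nat_lit 0, nat_lit 21650, nat_lit 0, nat_lit 0, [nat_lit 1412500, nat_lit 1271250, nat_lit 1271250], [nat_lit 25, nat_lit 40, nat_lit 20, nat_lit 80]⟩, C1.Rw.none,
 ⟨nat_lit 6708, nat_lit 6727, ⟨.ofNat (nat_lit 86451), .ofNat (nat_lit 95086), .ofNat (nat_lit 87523), .ofNat (nat_lit 96159), .ofNat (nat_lit 87444), .ofNat (nat_lit 96059), .ofNat (nat_lit 88516), .ofNat (nat_lit 97131)⟩, ⟨.ofNat (nat_lit 0), .ofNat (nat_lit 0), .ofNat (nat_lit 0), .ofNat (nat_lit 0), .ofNat (nat_lit 0), .ofNat (nat_lit 0), .ofNat (nat_lit 0), .ofNat (nat_lit 0)⟩⟩, [⟨nat_lit 0, nat_lit 100, nat_lit 100, nat_lit 19, nat_lit 4499427693⟩]⟩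
noncomputable def p002_l10 : Lf2 := ⟨nat_lit 0, nat_lit 4, [nat_lit 38, nat_lit 5, nat_lit 5, nat_lit 20], true, nat_lit 0, nat_lit 0, nat_lit 0, nat_lit 0, ⟨nat_lit 0, nat_lit 0, nat_lit 1000, nat_lit 5, nat_lit 39, nat_lit 0, nat_lit 0, nat_lit 0, nat_lit 0, nat_lit 215, nat_lit 15000, nat_lit 245, nat_lit 66357676, nat_lit 0, nat_lit 0, nat_lit 270244, false, false⟩,
 nat_lit 0, nat_lit 11646, nat_lit 0, nat_lit 0, nat_lit 5510, nat_lit 0, nat_lit 1246, nat_lit 0, nat_lit 0, nat_lit 0, nat_lit 0, nat_lit 0, nat_lit 0, nat_lit 0, nat_lit 90, nat_lit 1000000, nat_lit 0, nat_lit 0, [(nat_lit 0, [(nat_lit 6, nat_lit 1000)])],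
 ⟨p002_k0, nat_lit 0, nat_lit 0, nat_lit 0, nat_lit 0, nat_lit 99747, [nat_lit 2618000001, nat_lit 1352800000, nat_lit 26400000], [], [nat_lit 12522645052, nat_lit 12567787161, nat_lit 12291045362, nat_lit 12336156820], nat_lit 1271250, nat_lit 1271250, nat_lit 21650, nat_lit 43600, nat_lit 0, nat_lit 0, [nat_lit 1412500, nat_lit 1271250, nat_lit 1271250], [nat_lit 25, nat_lit 40, nat_lit 20, nat_lit 80]⟩, C1.Rw.none,
 ⟨nat_lit 6726, nat_lit 6746, ⟨.ofNat (nat_lit 91967), .ofNat (nat_lit 100622), .ofNat (nat_lit 95184), .ofNat (nat_lit 103839), .ofNat (nat_lit 92942), .ofNat (nat_lit 101578), .ofNat (nat_lit 96159), .ofNat (nat_lit 104794)⟩, ⟨.ofNat (nat_lit 0), .ofNat (nat_lit 0), .ofNat (nat_lit 0), .ofNat (nat_lit 0), .ofNat (nat_lit 0), .ofNat (nat_lit 0), .ofNat (nat_lit 0), .ofNat (nat_lit 0)⟩⟩, []⟩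
noncomputable def p002_l11 : Lf2 := ⟨nat_lit 0, nat_lit 4, [nat_lit 38, nat_lit 5, nat_lit 5, nat_lit 20], true, nat_lit 0, nat_lit 0, nat_lit 0, nat_lit 0, ⟨nat_lit 0, nat_lit 0, nat_lit 1000, nat_lit 5, nat_lit 40, nat_lit 0, nat_lit 0, nat_lit 0, nat_lit 0, nat_lit 215, nat_lit 15000, nat_lit 245, nat_lit 66345150, nat_lit 0, nat_lit 0, nat_lit 274575, false, false⟩,
 nat_lit 0, nat_lit 11554, nat_lit 0, nat_lit 0, nat_lit 5496, nat_lit 0, nat_lit 1234, nat_lit 0, nat_lit 0, nat_lit 0, nat_lit 0, nat_lit 0, nat_lit 0, nat_lit 0, nat_lit 90, nat_lit 1000000, nat_lit 0, nat_lit 0, [(nat_lit 0, [(nat_lit 6, nat_lit 1000)])],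
 ⟨p002_k4, nat_lit 0, nat_lit 0, nat_lit 0, nat_lit 0, nat_lit 103318, [nat_lit 2618000001, nat_lit 1352800000, nat_lit 26400000], [], [nat_lit 12550670123, nat_lit 12595769435, nat_lit 12319754623, nat_lit 12364823272], nat_lit 1271250, nat_lit 1271250, nat_lit 21650, nat_lit 43600, nat_lit 0, nat_lit 0, [nat_lit 1412500, nat_lit 1271250, nat_lit 1271250], [nat_lit 25, nat_lit 40, nat_lit 20, nat_lit 80]⟩, C1.Rw.none,
 ⟨nat_lit 6708, nat_lit 6727, ⟨.ofNat (nat_lit 92942), .ofNat (nat_lit 101578), .ofNat (nat_lit 96159), .ofNat (nat_lit 104794), .ofNat (nat_lit 93915), .ofNat (nat_lit 102531), .ofNat (nat_lit 97131), .ofNat (nat_lit 105747)⟩, ⟨.ofNat (nat_lit 0), .ofNat (nat_lit 0), .ofNat (nat_lit 0), .ofNat (nat_lit 0), .ofNat (nat_lit 0), .ofNat (nat_lit 0), .ofNat (nat_lit 0), .ofNat (nat_lit 0)⟩⟩, []⟩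
noncomputable def p002_l12 : Lf2 := ⟨nat_lit 0, nat_lit 5, [nat_lit 4, nat_lit 5, nat_lit 5, nat_lit 20], true, nat_lit 0, nat_lit 0, nat_lit 0, nat_lit 0, ⟨nat_lit 0, nat_lit 0, nat_lit 1000, nat_lit 5, nat_lit 36, nat_lit 0, nat_lit 0, nat_lit 0, nat_lit 0, nat_lit 215, nat_lit 12150, nat_lit 242, nat_lit 66471068, nat_lit 0, nat_lit 0, nat_lit 230087, false, false⟩,
 nat_lit 0, nat_lit 9781, nat_lit 0, nat_lit 814, nat_lit 4628, nat_lit 0, nat_lit 609, nat_lit 0, nat_lit 0, nat_lit 0, nat_lit 0, nat_lit 0, nat_lit 0, nat_lit 0, nat_lit 90, nat_lit 1000000, nat_lit 0, nat_lit 0, [(nat_lit 0, [(nat_lit 6, nat_lit 1000)])],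
 ⟨p002_k6, nat_lit 0, nat_lit 0, nat_lit 0, nat_lit 0, nat_lit 18561, [nat_lit 2618000001, nat_lit 1352800000, nat_lit 26400000], [], [nat_lit 13558822550, nat_lit 13617444966, nat_lit 13262421507, nat_lit 13315362301], nat_lit 1271250, nat_lit 1271250, nat_lit 0, nat_lit 21650, nat_lit 0, nat_lit 0, [nat_lit 1412500, nat_lit 1271250, nat_lit 1271250], [nat_lit 25, nat_lit 40, nat_lit 20, nat_lit 80]⟩, C1.Rw.none,
 ⟨nat_lit 6726, nat_lit 6746, ⟨.ofNat (nat_lit 83311), .ofNat (nat_lit 91967), .ofNat (nat_lit 85456), .ofNat (nat_lit 94111), .ofNat (nat_lit 84307), .ofNat (nat_lit 92942), .ofNat (nat_lit 86451), .ofNat (nat_lit 95086)⟩, ⟨.ofNat (nat_lit 0), .ofNat (nat_lit 0), .ofNat (nat_lit 0), .ofNat (nat_lit 0), .ofNat (nat_lit 0), .ofNat (nat_lit 0), .ofNat (nat_lit 0), .ofNat (nat_lit 0)⟩⟩, [⟨nat_lit 0, nat_lit 100, nat_lit 100, nat_lit 18, nat_lit 484117314⟩]⟩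
noncomputable def p002_l13 : Lf2 := ⟨nat_lit 0, nat_lit 5, [nat_lit 4, nat_lit 5, nat_lit 5, nat_lit 20], true, nat_lit 0, nat_lit 0, nat_lit 0, nat_lit 0, ⟨nat_lit 0, nat_lit 0, nat_lit 1000, nat_lit 5, nat_lit 36, nat_lit 0, nat_lit 0, nat_lit 0, nat_lit 0, nat_lit 215, nat_lit 12150, nat_lit 242, nat_lit 66465783, nat_lit 0, nat_lit 0, nat_lit 232001, false, false⟩,
 nat_lit 0, nat_lit 9708, nat_lit 0, nat_lit 844, nat_lit 4618, nat_lit 0, nat_lit 602, nat_lit 0, nat_lit 0, nat_lit 0, nat_lit 0, nat_lit 0, nat_lit 0, nat_lit 0, nat_lit 90, nat_lit 1000000, nat_lit 0, nat_lit 0, [(nat_lit 0, [(nat_lit 6, nat_lit 1000)])],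
 ⟨p002_k7, nat_lit 0, nat_lit 0, nat_lit 0, nat_lit 0, nat_lit 18522, [nat_lit 2618000001, nat_lit 1352800000, nat_lit 26400000], [], [nat_lit 13600199496, nat_lit 13658769442, nat_lit 13304996520, nat_lit 13357424150], nat_lit 1271250, nat_lit 1271250, nat_lit 0, nat_lit 21650, nat_lit 0, nat_lit 0, [nat_lit 1412500, nat_lit 1271250, nat_lit 1271250], [nat_lit 25, nat_lit 40, nat_lit 20, nat_lit 80]⟩, C1.Rw.none,
 ⟨nat_lit 6708, nat_lit 6727, ⟨.ofNat (nat_lit 84307), .ofNat (nat_lit 92942), .ofNat (nat_lit 85379), .ofNat (nat_lit 94014), .ofNat (nat_lit 85300), .ofNat (nat_lit 93915), .ofNat (nat_lit 86372), .ofNat (nat_lit 94987)⟩, ⟨.ofNat (nat_lit 0), .ofNat (nat_lit 0), .ofNat (nat_lit 0), .ofNat (nat_lit 0), .ofNat (nat_lit 0), .ofNat (nat_lit 0), .ofNat (nat_lit 0), .ofNat (nat_lit 0)⟩⟩, [⟨nat_lit 0, nat_lit 100, nat_lit 100, nat_lit 18, nat_lit 482614431⟩]⟩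
noncomputable def p002_l14 : Lf2 := ⟨nat_lit 0, nat_lit 5, [nat_lit 4, nat_lit 5, nat_lit 5, nat_lit 20], true, nat_lit 0, nat_lit 0, nat_lit 0, nat_lit 0, ⟨nat_lit 0, nat_lit 0, nat_lit 1000, nat_lit 5, nat_lit 36, nat_lit 0, nat_lit 0, nat_lit 0, nat_lit 0, nat_lit 215, nat_lit 12150, nat_lit 242, nat_lit 66453035, nat_lit 0, nat_lit 0, nat_lit 236589, false, false⟩,
 nat_lit 0, nat_lit 9708, nat_lit 0, nat_lit 853, nat_lit 4618, nat_lit 0, nat_lit 602, nat_lit 0, nat_lit 0, nat_lit 0, nat_lit 0, nat_lit 0, nat_lit 0, nat_lit 0, nat_lit 90, nat_lit 1000000, nat_lit 0, nat_lit 0, [(nat_lit 0, [(nat_lit 6, nat_lit 1000)])],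
 ⟨p002_k7, nat_lit 0, nat_lit 0, nat_lit 0, nat_lit 0, nat_lit 22296, [nat_lit 2618000001, nat_lit 1352800000, nat_lit 26400000], [], [nat_lit 13600199496, nat_lit 13658769442, nat_lit 13304996520, nat_lit 13357424150], nat_lit 1271250, nat_lit 1271250, nat_lit 0, nat_lit 21650, nat_lit 0, nat_lit 0, [nat_lit 1412500, nat_lit 1271250, nat_lit 1271250], [nat_lit 25, nat_lit 40, nat_lit 20, nat_lit 80]⟩, C1.Rw.none,
 ⟨nat_lit 6708, nat_lit 6727, ⟨.ofNat (nat_lit 85379), .ofNat (nat_lit 94014), .ofNat (nat_lit 86451), .ofNat (nat_lit 95086), .ofNat (nat_lit 86372), .ofNat (nat_lit 94987), .ofNat (nat_lit 87444), .ofNat (nat_lit 96059)⟩, ⟨.ofNat (nat_lit 0), .ofNat (nat_lit 0), .ofNat (nat_lit 0), .ofNat (nat_lit 0), .ofNat (nat_lit 0), .ofNat (nat_lit 0), .ofNat (nat_lit 0), .ofNat (nat_lit 0)⟩⟩, [⟨nat_lit 0, nat_lit 100, nat_lit 100, nat_lit 18, nat_lit 482611945⟩]⟩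
noncomputable def p002_l15 : Lf2 := ⟨nat_lit 0, nat_lit 5, [nat_lit 4, nat_lit 5, nat_lit 5, nat_lit 20], true, nat_lit 0, nat_lit 0, nat_lit 0, nat_lit 0, ⟨nat_lit 0, nat_lit 0, nat_lit 1000, nat_lit 5, nat_lit 36, nat_lit 0, nat_lit 0, nat_lit 0, nat_lit 0, nat_lit 215, nat_lit 12150, nat_lit 242, nat_lit 66453035, nat_lit 0, nat_lit 0, nat_lit 236589, false, false⟩,
 nat_lit 0, nat_lit 100000, nat_lit 0, nat_lit 100000, nat_lit 47574, nat_lit 0, nat_lit 6113, nat_lit 0, nat_lit 957, nat_lit 0, nat_lit 0, nat_lit 0, nat_lit 0, nat_lit 0, nat_lit 54, nat_lit 400000, nat_lit 57456186165, nat_lit 0, [(nat_lit 0, [(nat_lit 5, nat_lit 1000)])],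
 ⟨p002_k8, nat_lit 0, nat_lit 0, nat_lit 0, nat_lit 0, nat_lit 22296, [nat_lit 1606133334, nat_lit 1489066667, nat_lit 712400000, nat_lit 13600000], [], [nat_lit 2835140644, nat_lit 3041910497, nat_lit 0, nat_lit 207523794], nat_lit 1271250, nat_lit 1271250, nat_lit 0, nat_lit 21650, nat_lit 0, nat_lit 0, [nat_lit 780000, nat_lit 1435000, nat_lit 1271250, nat_lit 1271250], [nat_lit 140, nat_lit 40, nat_lit 20, nat_lit 80]⟩, C1.Rw.none,
 ⟨nat_lit 6708, nat_lit 6727, ⟨.ofNat (nat_lit 85379), .ofNat (nat_lit 94014), .ofNat (nat_lit 86451), .ofNat (nat_lit 95086), .ofNat (nat_lit 86372), .ofNat (nat_lit 94987), .ofNat (nat_lit 87444), .ofNat (nat_lit 96059)⟩, ⟨.ofNat (nat_lit 0), .ofNat (nat_lit 0), .ofNat (nat_lit 0), .ofNat (nat_lit 0), .ofNat (nat_lit 0), .ofNat (nat_lit 0), .ofNat (nat_lit 0), .ofNat (nat_lit 0)⟩⟩, [⟨nat_lit 0, nat_lit 100, nat_lit 100, nat_lit 18, nat_lit 10000000000⟩,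 ⟨nat_lit 0, nat_lit 100, nat_lit 100, nat_lit 18, nat_lit 10000000000⟩, ⟨nat_lit 0, nat_lit 100, nat_lit 100, nat_lit 17, nat_lit 10000000000⟩]⟩
noncomputable def p002_l16 : Lf2 := ⟨nat_lit 0, nat_lit 5, [nat_lit 4, nat_lit 5, nat_lit 5, nat_lit 20], true, nat_lit 0, nat_lit 0, nat_lit 0, nat_lit 0, ⟨nat_lit 0, nat_lit 0, nat_lit 1000, nat_lit 5, nat_lit 36, nat_lit 0, nat_lit 0, nat_lit 0, nat_lit 0, nat_lit 215, nat_lit 12150, nat_lit 242, nat_lit 66453035, nat_lit 0, nat_lit 0, nat_lit 236589, false, false⟩,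
 nat_lit 0, nat_lit 100000, nat_lit 0, nat_lit 100000, nat_lit 47574, nat_lit 0, nat_lit 6085, nat_lit 0, nat_lit 956, nat_lit 0, nat_lit 0, nat_lit 0, nat_lit 0, nat_lit 0, nat_lit 54, nat_lit 400000, nat_lit 57365651443, nat_lit 0, [(nat_lit 0, [(nat_lit 5, nat_lit 1000)])],
 ⟨p002_k9, nat_lit 0, nat_lit 0, nat_lit 0, nat_lit 0, nat_lit 22296, [nat_lit 1672266667, nat_lit 1464488889, nat_lit 712400000, nat_lit 13600000], [], [nat_lit 2835140644, nat_lit 3041910497, nat_lit 0, nat_lit 207339072], nat_lit 1271250, nat_lit 1271250, nat_lit 0, nat_lit 21650, nat_lit 0, nat_lit 0, [nat_lit 631250, nat_lit 1431250, nat_lit 1271250, nat_lit 1271250], [nat_lit 130, nat_lit 40, nat_lit 20, nat_lit 40]⟩, C1.Rw.none,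
 ⟨nat_lit 6708, nat_lit 6727, ⟨.ofNat (nat_lit 85379), .ofNat (nat_lit 94014), .ofNat (nat_lit 86451), .ofNat (nat_lit 95086), .ofNat (nat_lit 86372), .ofNat (nat_lit 94987), .ofNat (nat_lit 87444), .ofNat (nat_lit 96059)⟩, ⟨.ofNat (nat_lit 0), .ofNat (nat_lit 0), .ofNat (nat_lit 0), .ofNat (nat_lit 0), .ofNat (nat_lit 0), .ofNat (nat_lit 0), .ofNat (nat_lit 0), .ofNat (nat_lit 0)⟩⟩, [⟨nat_lit 0, nat_lit 100, nat_lit 100, nat_lit 18, nat_lit 10000000000⟩, ⟨nat_lit 0, nat_lit 100, nat_lit 100, nat_lit 18, nat_lit 10000000000⟩, ⟨nat_lit 0, nat_lit 100, nat_lit 100, nat_lit 17, nat_lit 10000000000⟩]⟩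
noncomputable def p002_l17 : Lf2 := ⟨nat_lit 0, nat_lit 5, [nat_lit 4, nat_lit 5, nat_lit 5, nat_lit 20], true, nat_lit 0, nat_lit 0, nat_lit 0, nat_lit 0, ⟨nat_lit 0, nat_lit 0, nat_lit 1000, nat_lit 5, nat_lit 36, nat_lit 0, nat_lit 0, nat_lit 0, nat_lit 0, nat_lit 215, nat_lit 12150, nat_lit 242, nat_lit 66453035, nat_lit 0, nat_lit 0, nat_lit 236589, false, false⟩,
 nat_lit 0, nat_lit 100000, nat_lit 0, nat_lit 3036, nat_lit 47574, nat_lit 0, nat_lit 16383, nat_lit 2013, nat_lit 0, nat_lit 0, nat_lit 0, nat_lit 0, nat_lit 0, nat_lit 0, nat_lit 0, nat_lit 400000, nat_lit 0, nat_lit 0, [(nat_lit 0, [(nat_lit 5, nat_lit 1000)])],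
 ⟨p002_k7, nat_lit 0, nat_lit 0, nat_lit 0, nat_lit 0, nat_lit 22296, [nat_lit 41660000000, nat_lit 47728400001, nat_lit 54865600000], [], [nat_lit 73010241053, nat_lit 73294201131, nat_lit 69630764830, nat_lit 69787892922], nat_lit 1271250, nat_lit 1271250, nat_lit 0, nat_lit 21650, nat_lit 0, nat_lit 0, [nat_lit 1412500, nat_lit 1271250, nat_lit 1271250], [nat_lit 25, nat_lit 40, nat_lit 20, nat_lit 80]⟩, C1.Rw.none,
 ⟨nat_lit 6708, nat_lit 6727, ⟨.ofNat (nat_lit 85379), .ofNat (nat_lit 94014), .ofNat (nat_lit 86451), .ofNat (nat_lit 95086), .ofNat (nat_lit 86372), .ofNat (nat_lit 94987), .ofNat (nat_lit 87444), .ofNat (nat_lit 96059)⟩, ⟨.ofNat (nat_lit 0), .ofNat (nat_lit 0), .ofNat (nat_lit 0), .ofNat (nat_lit 0), .ofNat (nat_lit 0), .ofNat (nat_lit 0), .ofNat (nat_lit 0), .ofNat (nat_lit 0)⟩⟩, [⟨nat_lit 0, nat_lit 100, nat_lit 100, nat_lit 18, nat_lit 4486627992⟩]⟩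
noncomputable def p002_l18 : Lf2 := ⟨nat_lit 0, nat_lit 5, [nat_lit 4, nat_lit 5, nat_lit 5, nat_lit 20], true, nat_lit 0, nat_lit 0, nat_lit 0, nat_lit 0, ⟨nat_lit 0, nat_lit 0, nat_lit 1000, nat_lit 5, nat_lit 36, nat_lit 0, nat_lit 0, nat_lit 0, nat_lit 0, nat_lit 215, nat_lit 12150, nat_lit 242, nat_lit 66451980, nat_lit 0, nat_lit 0, nat_lit 236966, false, false⟩,
 nat_lit 0, nat_lit 9781, nat_lit 0, nat_lit 823, nat_lit 4628, nat_lit 0, nat_lit 609, nat_lit 0, nat_lit 0, nat_lit 0, nat_lit 0, nat_lit 0, nat_lit 0, nat_lit 0, nat_lit 90, nat_lit 1000000, nat_lit 0, nat_lit 0, [(nat_lit 0, [(nat_lit 6, nat_lit 1000)])],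
 ⟨p002_k6, nat_lit 0, nat_lit 0, nat_lit 0, nat_lit 0, nat_lit 22378, [nat_lit 2618000001, nat_lit 1352800000, nat_lit 26400000], [], [nat_lit 13558822550, nat_lit 13617444966, nat_lit 13262421507, nat_lit 13315362301], nat_lit 1271250, nat_lit 1271250, nat_lit 0, nat_lit 21650, nat_lit 0, nat_lit 0, [nat_lit 1412500, nat_lit 1271250, nat_lit 1271250], [nat_lit 25, nat_lit 40, nat_lit 20, nat_lit 80]⟩, C1.Rw.none,
 ⟨nat_lit 6726, nat_lit 6746, ⟨.ofNat (nat_lit 85456), .ofNat (nat_lit 94111), .ofNat (nat_lit 86528), .ofNat (nat_lit 95184), .ofNat (nat_lit 86451), .ofNat (nat_lit 95086), .ofNat (nat_lit 87523), .ofNat (nat_lit 96159)⟩, ⟨.ofNat (nat_lit 0), .ofNat (nat_lit 0), .ofNat (nat_lit 0), .ofNat (nat_lit 0), .ofNat (nat_lit 0), .ofNat (nat_lit 0), .ofNat (nat_lit 0), .ofNat (nat_lit 0)⟩⟩, [⟨nat_lit 0, nat_lit 100, nat_lit 100, nat_lit 18, nat_lit 484139007⟩]⟩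
noncomputable def p002_l19 : Lf2 := ⟨nat_lit 0, nat_lit 5, [nat_lit 4, nat_lit 5, nat_lit 5, nat_lit 20], true, nat_lit 0, nat_lit 0, nat_lit 0, nat_lit 0, ⟨nat_lit 0, nat_lit 0, nat_lit 1000, nat_lit 5, nat_lit 36, nat_lit 0, nat_lit 0, nat_lit 0, nat_lit 0, nat_lit 215, nat_lit 12150, nat_lit 242, nat_lit 66451980, nat_lit 0, nat_lit 0, nat_lit 236966, false, false⟩,
 nat_lit 0, nat_lit 100000, nat_lit 0, nat_lit 100000, nat_lit 47322, nat_lit 0, nat_lit 5859, nat_lit 0, nat_lit 1072, nat_lit 0, nat_lit 0, nat_lit 0, nat_lit 0, nat_lit 0, nat_lit 54, nat_lit 400000, nat_lit 62263951656, nat_lit 0, [(nat_lit 0, [(nat_lit 5, nat_lit 1000)])],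
 ⟨p002_k10, nat_lit 0, nat_lit 0, nat_lit 0, nat_lit 0, nat_lit 22378, [nat_lit 1606133334, nat_lit 1489066667, nat_lit 712400000, nat_lit 13600000], [], [nat_lit 2820218353, nat_lit 3026054773, nat_lit 0, nat_lit 207434271], nat_lit 1271250, nat_lit 1271250, nat_lit 0, nat_lit 21650, nat_lit 0, nat_lit 0, [nat_lit 780000, nat_lit 1435000, nat_lit 1271250, nat_lit 1271250], [nat_lit 140, nat_lit 40, nat_lit 20, nat_lit 80]⟩, C1.Rw.none,
 ⟨nat_lit 6726, nat_lit 6746, ⟨.ofNat (nat_lit 85456), .ofNat (nat_lit 94111), .ofNat (nat_lit 86528), .ofNat (nat_lit 95184), .ofNat (nat_lit 86451), .ofNat (nat_lit 95086), .ofNat (nat_lit 87523), .ofNat (nat_lit 96159)⟩, ⟨.ofNat (nat_lit 0), .ofNat (nat_lit 0), .ofNat (nat_lit 0), .ofNat (nat_lit 0), .ofNat (nat_lit 0), .ofNat (nat_lit 0), .ofNat (nat_lit 0), .ofNat (nat_lit 0)⟩⟩, [⟨nat_lit 0, nat_lit 100, nat_lit 100, nat_lit 18, nat_lit 10000000000⟩,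 ⟨nat_lit 0, nat_lit 100, nat_lit 100, nat_lit 18, nat_lit 10000000000⟩, ⟨nat_lit 0, nat_lit 100, nat_lit 100, nat_lit 17, nat_lit 10000000000⟩]⟩
noncomputable def p002_l20 : Lf2 := ⟨nat_lit 0, nat_lit 5, [nat_lit 4, nat_lit 5, nat_lit 5, nat_lit 20], true, nat_lit 0, nat_lit 0, nat_lit 0, nat_lit 0, ⟨nat_lit 0, nat_lit 0, nat_lit 1000, nat_lit 5, nat_lit 36, nat_lit 0, nat_lit 0, nat_lit 0, nat_lit 0, nat_lit 215, nat_lit 12150, nat_lit 242, nat_lit 66451980, nat_lit 0, nat_lit 0, nat_lit 236966, false, false⟩,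
 nat_lit 0, nat_lit 100000, nat_lit 0, nat_lit 100000, nat_lit 47322, nat_lit 0, nat_lit 5837, nat_lit 0, nat_lit 1070, nat_lit 0, nat_lit 0, nat_lit 0, nat_lit 0, nat_lit 0, nat_lit 54, nat_lit 400000, nat_lit 62140691934, nat_lit 0, [(nat_lit 0, [(nat_lit 5, nat_lit 1000)])],
 ⟨p002_k11, nat_lit 0, nat_lit 0, nat_lit 0, nat_lit 0, nat_lit 22378, [nat_lit 1672266667, nat_lit 1464488889, nat_lit 712400000, nat_lit 13600000], [], [nat_lit 2820218353, nat_lit 3026054773, nat_lit 0, nat_lit 206189176], nat_lit 1271250, nat_lit 1271250, nat_lit 0, nat_lit 21650, nat_lit 0, nat_lit 0, [nat_lit 631250, nat_lit 1431250, nat_lit 1271250, nat_lit 1271250], [nat_lit 130, nat_lit 40, nat_lit 20, nat_lit 40]⟩, C1.Rw.none,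
 ⟨nat_lit 6726, nat_lit 6746, ⟨.ofNat (nat_lit 85456), .ofNat (nat_lit 94111), .ofNat (nat_lit 86528), .ofNat (nat_lit 95184), .ofNat (nat_lit 86451), .ofNat (nat_lit 95086), .ofNat (nat_lit 87523), .ofNat (nat_lit 96159)⟩, ⟨.ofNat (nat_lit 0), .ofNat (nat_lit 0), .ofNat (nat_lit 0), .ofNat (nat_lit 0), .ofNat (nat_lit 0), .ofNat (nat_lit 0), .ofNat (nat_lit 0), .ofNat (nat_lit 0)⟩⟩, [⟨nat_lit 0, nat_lit 100, nat_lit 100, nat_lit 18, nat_lit 10000000000⟩, ⟨nat_lit 0, nat_lit 100, nat_lit 100, nat_lit 18, nat_lit 10000000000⟩, ⟨nat_lit 0, nat_lit 100, nat_lit 100, nat_lit 17, nat_lit 10000000000⟩]⟩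
noncomputable def p002_l21 : Lf2 := ⟨nat_lit 0, nat_lit 5, [nat_lit 4, nat_lit 5, nat_lit 5, nat_lit 20], true, nat_lit 0, nat_lit 0, nat_lit 0, nat_lit 0, ⟨nat_lit 0, nat_lit 0, nat_lit 1000, nat_lit 5, nat_lit 36, nat_lit 0, nat_lit 0, nat_lit 0, nat_lit 0, nat_lit 215, nat_lit 12150, nat_lit 242, nat_lit 66451980, nat_lit 0, nat_lit 0, nat_lit 236966, false, false⟩,
 nat_lit 0, nat_lit 100000, nat_lit 0, nat_lit 0, nat_lit 47322, nat_lit 0, nat_lit 15898, nat_lit 1989, nat_lit 0, nat_lit 0, nat_lit 0, nat_lit 0, nat_lit 0, nat_lit 0, nat_lit 0, nat_lit 386950, nat_lit 0, nat_lit 0, [(nat_lit 0, [(nat_lit 4, nat_lit 87), (nat_lit 5, nat_lit 913)])],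
 ⟨p002_k6, nat_lit 0, nat_lit 0, nat_lit 0, nat_lit 0, nat_lit 22378, [nat_lit 41347040000, nat_lit 47157306800, nat_lit 54215245600], [], [nat_lit 73651658600, nat_lit 73934296435, nat_lit 70301713112, nat_lit 70445902036], nat_lit 1271250, nat_lit 1271250, nat_lit 0, nat_lit 21650, nat_lit 0, nat_lit 0, [nat_lit 1412500, nat_lit 1271250, nat_lit 1271250], [nat_lit 25, nat_lit 40, nat_lit 20, nat_lit 80]⟩, C1.Rw.none,
 ⟨nat_lit 6726, nat_lit 6746, ⟨.ofNat (nat_lit 85456), .ofNat (nat_lit 94111), .ofNat (nat_lit 86528), .ofNat (nat_lit 95184), .ofNat (nat_lit 86451), .ofNat (nat_lit 95086), .ofNat (nat_lit 87523), .ofNat (nat_lit 96159)⟩, ⟨.ofNat (nat_lit 0), .ofNat (nat_lit 0), .ofNat (nat_lit 0), .ofNat (nat_lit 0), .ofNat (nat_lit 0), .ofNat (nat_lit 0), .ofNat (nat_lit 0), .ofNat (nat_lit 0)⟩⟩, [⟨nat_lit 0, nat_lit 100, nat_lit 100, nat_lit 18, nat_lit 4464798974⟩]⟩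
noncomputable def p002_l22 : Lf2 := ⟨nat_lit 0, nat_lit 5, [nat_lit 4, nat_lit 5, nat_lit 5, nat_lit 20], true, nat_lit 0, nat_lit 0, nat_lit 0, nat_lit 0, ⟨nat_lit 0, nat_lit 0, nat_lit 1000, nat_lit 5, nat_lit 37, nat_lit 0, nat_lit 0, nat_lit 0, nat_lit 0, nat_lit 215, nat_lit 13067, nat_lit 243, nat_lit 66440140, nat_lit 0, nat_lit 0, nat_lit 241215, false, false⟩,
 nat_lit 0, nat_lit 9711, nat_lit 0, nat_lit 782, nat_lit 4619, nat_lit 0, nat_lit 603, nat_lit 0, nat_lit 0, nat_lit 0, nat_lit 0, nat_lit 0, nat_lit 0, nat_lit 0, nat_lit 90, nat_lit 1000000, nat_lit 0, nat_lit 0, [(nat_lit 0, [(nat_lit 6, nat_lit 1000)])],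
 ⟨p002_k7, nat_lit 0, nat_lit 0, nat_lit 0, nat_lit 0, nat_lit 26369, [nat_lit 2618000001, nat_lit 1352800000, nat_lit 26400000], [], [nat_lit 13598730919, nat_lit 13657306111, nat_lit 13302315581, nat_lit 13356104772], nat_lit 1271250, nat_lit 1271250, nat_lit 0, nat_lit 21650, nat_lit 0, nat_lit 0, [nat_lit 1412500, nat_lit 1271250, nat_lit 1271250], [nat_lit 25, nat_lit 40, nat_lit 20, nat_lit 80]⟩, C1.Rw.none,
 ⟨nat_lit 6708, nat_lit 6727, ⟨.ofNat (nat_lit 86451), .ofNat (nat_lit 95086), .ofNat (nat_lit 87523), .ofNat (nat_lit 96159), .ofNat (nat_lit 87444), .ofNat (nat_lit 96059), .ofNat (nat_lit 88516), .ofNat (nat_lit 97131)⟩, ⟨.ofNat (nat_lit 0), .ofNat (nat_lit 0), .ofNat (nat_lit 0), .ofNat (nat_lit 0), .ofNat (nat_lit 0), .ofNat (nat_lit 0), .ofNat (nat_lit 0), .ofNat (nat_lit 0)⟩⟩, [⟨nat_lit 0, nat_lit 100, nat_lit 100, nat_lit 19, nat_lit 483581491⟩]⟩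
noncomputable def p002_l23 : Lf2 := ⟨nat_lit 0, nat_lit 5, [nat_lit 4, nat_lit 5, nat_lit 5, nat_lit 20], true, nat_lit 0, nat_lit 0, nat_lit 0, nat_lit 0, ⟨nat_lit 0, nat_lit 0, nat_lit 1000, nat_lit 5, nat_lit 37, nat_lit 0, nat_lit 0, nat_lit 0, nat_lit 0, nat_lit 215, nat_lit 13067, nat_lit 243, nat_lit 66440140, nat_lit 0, nat_lit 0, nat_lit 241215, false, false⟩,
 nat_lit 0, nat_lit 100000, nat_lit 0, nat_lit 100000, nat_lit 47574, nat_lit 0, nat_lit 5679, nat_lit 0, nat_lit 1146, nat_lit 0, nat_lit 0, nat_lit 0, nat_lit 0, nat_lit 0, nat_lit 54, nat_lit 400000, nat_lit 65487942415, nat_lit 0, [(nat_lit 0, [(nat_lit 5, nat_lit 1000)])],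
 ⟨p002_k8, nat_lit 0, nat_lit 0, nat_lit 0, nat_lit 0, nat_lit 26369, [nat_lit 1606133334, nat_lit 1489066667, nat_lit 712400000, nat_lit 13600000], [], [nat_lit 2835140644, nat_lit 3041910497, nat_lit 0, nat_lit 207113280], nat_lit 1271250, nat_lit 1271250, nat_lit 0, nat_lit 21650, nat_lit 0, nat_lit 0, [nat_lit 780000, nat_lit 1435000, nat_lit 1271250, nat_lit 1271250], [nat_lit 140, nat_lit 40, nat_lit 20, nat_lit 80]⟩, C1.Rw.none,
 ⟨nat_lit 6708, nat_lit 6727, ⟨.ofNat (nat_lit 86451), .ofNat (nat_lit 95086), .ofNat (nat_lit 87523), .ofNat (nat_lit 96159), .ofNat (nat_lit 87444), .ofNat (nat_lit 96059), .ofNat (nat_lit 88516), .ofNat (nat_lit 97131)⟩, ⟨.ofNat (nat_lit 0), .ofNat (nat_lit 0), .ofNat (nat_lit 0), .ofNat (nat_lit 0), .ofNat (nat_lit 0), .ofNat (nat_lit 0), .ofNat (nat_lit 0), .ofNat (nat_lit 0)⟩⟩, [⟨nat_lit 0, nat_lit 100, nat_lit 100, nat_lit 18, nat_lit 10000000000⟩,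 ⟨nat_lit 0, nat_lit 100, nat_lit 100, nat_lit 19, nat_lit 10000000000⟩, ⟨nat_lit 0, nat_lit 100, nat_lit 100, nat_lit 18, nat_lit 10000000000⟩]⟩
noncomputable def p002_l24 : Lf2 := ⟨nat_lit 0, nat_lit 5, [nat_lit 4, nat_lit 5, nat_lit 5, nat_lit 20], true, nat_lit 0, nat_lit 0, nat_lit 0, nat_lit 0, ⟨nat_lit 0, nat_lit 0, nat_lit 1000, nat_lit 5, nat_lit 37, nat_lit 0, nat_lit 0, nat_lit 0, nat_lit 0, nat_lit 215, nat_lit 13067, nat_lit 243, nat_lit 66440140, nat_lit 0, nat_lit 0, nat_lit 241215, false, false⟩,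
 nat_lit 0, nat_lit 100000, nat_lit 0, nat_lit 100000, nat_lit 47574, nat_lit 0, nat_lit 5708, nat_lit 0, nat_lit 1134, nat_lit 0, nat_lit 0, nat_lit 0, nat_lit 0, nat_lit 0, nat_lit 54, nat_lit 400000, nat_lit 65006029568, nat_lit 0, [(nat_lit 0, [(nat_lit 5, nat_lit 1000)])],
 ⟨p002_k9, nat_lit 0, nat_lit 0, nat_lit 0, nat_lit 0, nat_lit 26369, [nat_lit 1672266667, nat_lit 1464488889, nat_lit 712400000, nat_lit 13600000], [], [nat_lit 2835140644, nat_lit 3041910497, nat_lit 0, nat_lit 207113280], nat_lit 1271250, nat_lit 1271250, nat_lit 0, nat_lit 21650, nat_lit 0, nat_lit 0, [nat_lit 631250, nat_lit 1431250, nat_lit 1271250, nat_lit 1271250], [nat_lit 130, nat_lit 40, nat_lit 20, nat_lit 40]⟩, C1.Rw.none,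
 ⟨nat_lit 6708, nat_lit 6727, ⟨.ofNat (nat_lit 86451), .ofNat (nat_lit 95086), .ofNat (nat_lit 87523), .ofNat (nat_lit 96159), .ofNat (nat_lit 87444), .ofNat (nat_lit 96059), .ofNat (nat_lit 88516), .ofNat (nat_lit 97131)⟩, ⟨.ofNat (nat_lit 0), .ofNat (nat_lit 0), .ofNat (nat_lit 0), .ofNat (nat_lit 0), .ofNat (nat_lit 0), .ofNat (nat_lit 0), .ofNat (nat_lit 0), .ofNat (nat_lit 0)⟩⟩, [⟨nat_lit 0, nat_lit 100, nat_lit 100, nat_lit 18, nat_lit 10000000000⟩, ⟨nat_lit 0, nat_lit 100, nat_lit 100, nat_lit 19, nat_lit 10000000000⟩, ⟨nat_lit 0, nat_lit 100, nat_lit 100, nat_lit 18, nat_lit 10000000000⟩]⟩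
noncomputable def p002_l25 : Lf2 := ⟨nat_lit 0, nat_lit 5, [nat_lit 4, nat_lit 5, nat_lit 5, nat_lit 20], true, nat_lit 0, nat_lit 0, nat_lit 0, nat_lit 0, ⟨nat_lit 0, nat_lit 0, nat_lit 1000, nat_lit 5, nat_lit 37, nat_lit 0, nat_lit 0, nat_lit 0, nat_lit 0, nat_lit 215, nat_lit 13067, nat_lit 243, nat_lit 66440140, nat_lit 0, nat_lit 0, nat_lit 241215, false, false⟩,
 nat_lit 0, nat_lit 100000, nat_lit 0, nat_lit 2263, nat_lit 47574, nat_lit 0, nat_lit 16383, nat_lit 2013, nat_lit 0, nat_lit 0, nat_lit 0, nat_lit 0, nat_lit 0, nat_lit 0, nat_lit 0, nat_lit 400000, nat_lit 0, nat_lit 0, [(nat_lit 0, [(nat_lit 5, nat_lit 1000)])],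
 ⟨p002_k7, nat_lit 0, nat_lit 0, nat_lit 0, nat_lit 0, nat_lit 26369, [nat_lit 41660000000, nat_lit 47728400001, nat_lit 54865600000], [], [nat_lit 73010241053, nat_lit 73294201131, nat_lit 69630764830, nat_lit 69787892922], nat_lit 1271250, nat_lit 1271250, nat_lit 0, nat_lit 21650, nat_lit 0, nat_lit 0, [nat_lit 1412500, nat_lit 1271250, nat_lit 1271250], [nat_lit 25, nat_lit 40, nat_lit 20, nat_lit 80]⟩, C1.Rw.none,
 ⟨nat_lit 6708, nat_lit 6727, ⟨.ofNat (nat_lit 86451), .ofNat (nat_lit 95086), .ofNat (nat_lit 87523), .ofNat (nat_lit 96159), .ofNat (nat_lit 87444), .ofNat (nat_lit 96059), .ofNat (nat_lit 88516), .ofNat (nat_lit 97131)⟩, ⟨.ofNat (nat_lit 0), .ofNat (nat_lit 0), .ofNat (nat_lit 0), .ofNat (nat_lit 0), .ofNat (nat_lit 0), .ofNat (nat_lit 0), .ofNat (nat_lit 0), .ofNat (nat_lit 0)⟩⟩, [⟨nat_lit 0, nat_lit 100, nat_lit 100, nat_lit 19, nat_lit 4487478723⟩]⟩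
noncomputable def p002_l26 : Lf2 := ⟨nat_lit 0, nat_lit 5, [nat_lit 4, nat_lit 5, nat_lit 5, nat_lit 20], true, nat_lit 0, nat_lit 0, nat_lit 0, nat_lit 0, ⟨nat_lit 0, nat_lit 0, nat_lit 1000, nat_lit 5, nat_lit 40, nat_lit 0, nat_lit 0, nat_lit 0, nat_lit 0, nat_lit 215, nat_lit 15000, nat_lit 245, nat_lit 66351436, nat_lit 0, nat_lit 0, nat_lit 272407, false, false⟩,
 nat_lit 0, nat_lit 9753, nat_lit 0, nat_lit 722, nat_lit 4615, nat_lit 0, nat_lit 600, nat_lit 0, nat_lit 0, nat_lit 0, nat_lit 0, nat_lit 0, nat_lit 0, nat_lit 0, nat_lit 90, nat_lit 1000000, nat_lit 0, nat_lit 0, [(nat_lit 0, [(nat_lit 6, nat_lit 1000)])],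
 ⟨p002_k6, nat_lit 0, nat_lit 0, nat_lit 0, nat_lit 0, nat_lit 26519, [nat_lit 2618000001, nat_lit 1352800000, nat_lit 26400000], [], [nat_lit 13287368851, nat_lit 13383126035, nat_lit 13054265393, nat_lit 13152301349], nat_lit 1271250, nat_lit 1271250, nat_lit 21650, nat_lit 43600, nat_lit 0, nat_lit 0, [nat_lit 1412500, nat_lit 1271250, nat_lit 1271250], [nat_lit 25, nat_lit 40, nat_lit 20, nat_lit 80]⟩, C1.Rw.none,
 ⟨nat_lit 6708, nat_lit 6746, ⟨.ofNat (nat_lit 91967), .ofNat (nat_lit 100622), .ofNat (nat_lit 95184), .ofNat (nat_lit 103839), .ofNat (nat_lit 93915), .ofNat (nat_lit 102531), .ofNat (nat_lit 97131), .ofNat (nat_lit 105747)⟩, ⟨.ofNat (nat_lit 0), .ofNat (nat_lit 0), .ofNat (nat_lit 0), .ofNat (nat_lit 0), .ofNat (nat_lit 0), .ofNat (nat_lit 0), .ofNat (nat_lit 0), .ofNat (nat_lit 0)⟩⟩, []⟩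
noncomputable def b_NL_500_500_0_3 : St := ⟨false, nat_lit 1, nat_lit 0, nat_lit 1, nat_lit 20, nat_lit 218, nat_lit 220, nat_lit 215, nat_lit 218, nat_lit 0, nat_lit 8, nat_lit 0, nat_lit 0, nat_lit 0, nat_lit 0, nat_lit 0, nat_lit 0, nat_lit 8, nat_lit 20, nat_lit 380, nat_lit 460, nat_lit 0, nat_lit 800⟩
theorem d_NL_500_500_0_3 (h : EB TB.env) : Dead b_NL_500_500_0_3 := chkB_sound0 h (T :=
(.spl (nat_lit 6) (nat_lit 16)
(.spl (nat_lit 2) (nat_lit 4)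
(.spl (nat_lit 1) (nat_lit 217)
(.leaf p002_l0)
(.spl (nat_lit 6) (nat_lit 12)
(.leaf p002_l1)
(.spl (nat_lit 0) (nat_lit 219)
(.spl (nat_lit 7) (nat_lit 420)
(.leaf p002_l2)
(.spl (nat_lit 7) (nat_lit 440)
(.spl (nat_lit 8) (nat_lit 400)
(.leaf p002_l3)
(.leaf p002_l4))
(.leaf p002_l5)))
(.spl (nat_lit 7) (nat_lit 420)
(.leaf p002_l6)
(.spl (nat_lit 7) (nat_lit 440)
(.spl (nat_lit 8) (nat_lit 400)
(.leaf p002_l7)
(.leaf p002_l8))
(.leaf p002_l9))))))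
(.spl (nat_lit 0) (nat_lit 219)
(.leaf p002_l10)
(.leaf p002_l11)))
(.spl (nat_lit 2) (nat_lit 4)
(.spl (nat_lit 1) (nat_lit 217)
(.spl (nat_lit 0) (nat_lit 219)
(.leaf p002_l12)
(.spl (nat_lit 1) (nat_lit 216)
(.leaf p002_l13)
(.spl (nat_lit 7) (nat_lit 420)
(.leaf p002_l14)
(.spl (nat_lit 7) (nat_lit 440)
(.spl (nat_lit 8) (nat_lit 400)
(.leaf p002_l15)
(.leaf p002_l16))
(.leaf p002_l17)))))
(.spl (nat_lit 0) (nat_lit 219)
(.spl (nat_lit 7) (nat_lit 420)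
(.leaf p002_l18)
(.spl (nat_lit 7) (nat_lit 440)
(.spl (nat_lit 8) (nat_lit 400)
(.leaf p002_l19)
(.leaf p002_l20))
(.leaf p002_l21)))
(.spl (nat_lit 7) (nat_lit 420)
(.leaf p002_l22)
(.spl (nat_lit 7) (nat_lit 440)
(.spl (nat_lit 8) (nat_lit 400)
(.leaf p002_l23)
(.leaf p002_l24))
(.leaf p002_l25)))))
(.leaf p002_l26)))) (by decide +kernel)
noncomputable def p002_l27 : Lf2 := ⟨nat_lit 0, nat_lit 3, [nat_lit 45, nat_lit 5, nat_lit 5, nat_lit 20], true, nat_lit 0, nat_lit 0, nat_lit 0, nat_lit 0, ⟨nat_lit 0, nat_lit 0, nat_lit 1000, nat_lit 5, nat_lit 37, nat_lit 0, nat_lit 0, nat_lit 0, nat_lit 0, nat_lit 215, nat_lit 13067, nat_lit 243, nat_lit 66439069, nat_lit 0, nat_lit 0, nat_lit 241597, false, false⟩,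
 nat_lit 0, nat_lit 10781, nat_lit 0, nat_lit 0, nat_lit 5101, nat_lit 0, nat_lit 1019, nat_lit 0, nat_lit 0, nat_lit 0, nat_lit 0, nat_lit 0, nat_lit 0, nat_lit 0, nat_lit 90, nat_lit 1000000, nat_lit 0, nat_lit 0, [(nat_lit 0, [(nat_lit 6, nat_lit 1000)])],
 ⟨p002_k1, nat_lit 0, nat_lit 0, nat_lit 0, nat_lit 0, nat_lit 102808, [nat_lit 2618000001, nat_lit 1352800000, nat_lit 26400000], [], [nat_lit 13029362700, nat_lit 13090466948, nat_lit 12695844850, nat_lit 12752067117], nat_lit 1271250, nat_lit 1271250, nat_lit 0, nat_lit 21650, nat_lit 0, nat_lit 0, [nat_lit 1412500, nat_lit 1271250, nat_lit 1271250], [nat_lit 25, nat_lit 40, nat_lit 20, nat_lit 80]⟩, C1.Rw.none,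
 ⟨nat_lit 6726, nat_lit 6746, ⟨.ofNat (nat_lit 86528), .ofNat (nat_lit 95184), .ofNat (nat_lit 87601), .ofNat (nat_lit 96256), .ofNat (nat_lit 87523), .ofNat (nat_lit 96159), .ofNat (nat_lit 88595), .ofNat (nat_lit 97231)⟩, ⟨.ofNat (nat_lit 0), .ofNat (nat_lit 0), .ofNat (nat_lit 0), .ofNat (nat_lit 0), .ofNat (nat_lit 0), .ofNat (nat_lit 0), .ofNat (nat_lit 0), .ofNat (nat_lit 0)⟩⟩, [⟨nat_lit 0, nat_lit 100, nat_lit 100, nat_lit 19, nat_lit 529088487⟩]⟩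
noncomputable def p002_l28 : Lf2 := ⟨nat_lit 0, nat_lit 3, [nat_lit 45, nat_lit 5, nat_lit 5, nat_lit 20], true, nat_lit 0, nat_lit 0, nat_lit 0, nat_lit 0, ⟨nat_lit 0, nat_lit 0, nat_lit 1000, nat_lit 5, nat_lit 37, nat_lit 0, nat_lit 0, nat_lit 0, nat_lit 0, nat_lit 215, nat_lit 13067, nat_lit 243, nat_lit 66439069, nat_lit 0, nat_lit 0, nat_lit 241597, false, false⟩,
 nat_lit 0, nat_lit 100000, nat_lit 0, nat_lit 0, nat_lit 47322, nat_lit 0, nat_lit 9607, nat_lit 0, nat_lit 468, nat_lit 0, nat_lit 0, nat_lit 0, nat_lit 0, nat_lit 0, nat_lit 45, nat_lit 250000, nat_lit 38406832920, nat_lit 0, [(nat_lit 0, [(nat_lit 4, nat_lit 1000)])],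
 ⟨p002_k12, nat_lit 0, nat_lit 0, nat_lit 0, nat_lit 0, nat_lit 102808, [nat_lit 2532000000, nat_lit 1157600001, nat_lit 629600001, nat_lit 10400000], [], [nat_lit 2802660071, nat_lit 3027144819, nat_lit 0, nat_lit 215355164], nat_lit 1271250, nat_lit 1271250, nat_lit 0, nat_lit 21650, nat_lit 0, nat_lit 0, [nat_lit 780000, nat_lit 1435000, nat_lit 1271250, nat_lit 1271250], [nat_lit 140, nat_lit 40, nat_lit 20, nat_lit 80]⟩, C1.Rw.none,
 ⟨nat_lit 6726, nat_lit 6746, ⟨.ofNat (nat_lit 86528), .ofNat (nat_lit 95184), .ofNat (nat_lit 87601), .ofNat (nat_lit 96256), .ofNat (nat_lit 87523), .ofNat (nat_lit 96159), .ofNat (nat_lit 88595), .ofNat (nat_lit 97231)⟩, ⟨.ofNat (nat_lit 0), .ofNat (nat_lit 0), .ofNat (nat_lit 0), .ofNat (nat_lit 0), .ofNat (nat_lit 0), .ofNat (nat_lit 0), .ofNat (nat_lit 0), .ofNat (nat_lit 0)⟩⟩, [⟨nat_lit 0, nat_lit 100, nat_lit 100, nat_lit 19, nat_lit 3621359741⟩]⟩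
noncomputable def p002_l29 : Lf2 := ⟨nat_lit 0, nat_lit 3, [nat_lit 45, nat_lit 5, nat_lit 5, nat_lit 20], false, nat_lit 0, nat_lit 0, nat_lit 0, nat_lit 0, ⟨nat_lit 0, nat_lit 0, nat_lit 1000, nat_lit 5, nat_lit 37, nat_lit 0, nat_lit 0, nat_lit 0, nat_lit 0, nat_lit 215, nat_lit 13067, nat_lit 243, nat_lit 66439069, nat_lit 0, nat_lit 0, nat_lit 241597, false, false⟩,
 nat_lit 0, nat_lit 100000, nat_lit 0, nat_lit 0, nat_lit 47322, nat_lit 100000, nat_lit 16069, nat_lit 1955, nat_lit 0, nat_lit 28236, nat_lit 5681, nat_lit 0, nat_lit 0, nat_lit 400000000000000, nat_lit 0, nat_lit 964000, nat_lit 0, nat_lit 0, [(nat_lit 0, [(nat_lit 3, nat_lit 45), (nat_lit 6, nat_lit 955)])],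
 ⟨p002_k1, nat_lit 0, nat_lit 0, nat_lit 0, nat_lit 0, nat_lit 102808, [nat_lit 41114730000, nat_lit 46126246000, nat_lit 52306034000], [], [nat_lit 71339528250, nat_lit 71631771354, nat_lit 67944547164, nat_lit 68136689242], nat_lit 1271250, nat_lit 1271250, nat_lit 0, nat_lit 21650, nat_lit 0, nat_lit 0, [nat_lit 1412500, nat_lit 1271250, nat_lit 1271250], [nat_lit 25, nat_lit 40, nat_lit 20, nat_lit 80]⟩, ⟨p002_k1, nat_lit 0, nat_lit 0, nat_lit 0, nat_lit 0, nat_lit 0, [nat_lit 113620000000, nat_lit 136344000000, nat_lit 159068000000], [], [nat_lit 184841925001, nat_lit 185366625001, nat_lit 177381053001, nat_lit 177907669001], nat_lit 0, nat_lit 0, nat_lit 0, nat_lit 0, nat_lit 0, nat_lit 0, [], [nat_lit 25, nat_lit 40, nat_lit 20, nat_lit 80]⟩,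
 ⟨nat_lit 6726, nat_lit 6746, ⟨.ofNat (nat_lit 86528), .ofNat (nat_lit 95184), .ofNat (nat_lit 87601), .ofNat (nat_lit 96256), .ofNat (nat_lit 87523), .ofNat (nat_lit 96159), .ofNat (nat_lit 88595), .ofNat (nat_lit 97231)⟩, ⟨.ofNat (nat_lit 0), .ofNat (nat_lit 0), .ofNat (nat_lit 0), .ofNat (nat_lit 0), .ofNat (nat_lit 0), .ofNat (nat_lit 0), .ofNat (nat_lit 0), .ofNat (nat_lit 0)⟩⟩, [⟨nat_lit 0, nat_lit 100, nat_lit 100, nat_lit 18, nat_lit 10000000000⟩, ⟨nat_lit 0, nat_lit 100, nat_lit 100, nat_lit 19, nat_lit 10000000000⟩, ⟨nat_lit 0, nat_lit 100, nat_lit 100, nat_lit 18, nat_lit 10000000000⟩]⟩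
noncomputable def p002_l30 : Lf2 := ⟨nat_lit 0, nat_lit 3, [nat_lit 45, nat_lit 5, nat_lit 5, nat_lit 20], true, nat_lit 0, nat_lit 0, nat_lit 0, nat_lit 0, ⟨nat_lit 0, nat_lit 0, nat_lit 1000, nat_lit 5, nat_lit 37, nat_lit 0, nat_lit 0, nat_lit 0, nat_lit 0, nat_lit 215, nat_lit 13067, nat_lit 243, nat_lit 66439069, nat_lit 0, nat_lit 0, nat_lit 241597, false, false⟩,
 nat_lit 0, nat_lit 100000, nat_lit 0, nat_lit 0, nat_lit 47322, nat_lit 0, nat_lit 18066, nat_lit 2015, nat_lit 0, nat_lit 0, nat_lit 0, nat_lit 0, nat_lit 0, nat_lit 0, nat_lit 0, nat_lit 1000000, nat_lit 0, nat_lit 0, [(nat_lit 0, [(nat_lit 6, nat_lit 1000)])],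
 ⟨p002_k1, nat_lit 0, nat_lit 0, nat_lit 0, nat_lit 0, nat_lit 102808, [nat_lit 41118000001, nat_lit 47552800000, nat_lit 53926400000], [], [nat_lit 71272725548, nat_lit 71622981604, nat_lit 67942297416, nat_lit 68125176056], nat_lit 1271250, nat_lit 1271250, nat_lit 0, nat_lit 21650, nat_lit 0, nat_lit 0, [nat_lit 1412500, nat_lit 1271250, nat_lit 1271250], [nat_lit 25, nat_lit 40, nat_lit 20, nat_lit 80]⟩, C1.Rw.none,
 ⟨nat_lit 6726, nat_lit 6746, ⟨.ofNat (nat_lit 86528), .ofNat (nat_lit 95184), .ofNat (nat_lit 87601), .ofNat (nat_lit 96256), .ofNat (nat_lit 87523), .ofNat (nat_lit 96159), .ofNat (nat_lit 88595), .ofNat (nat_lit 97231)⟩, ⟨.ofNat (nat_lit 0), .ofNat (nat_lit 0), .ofNat (nat_lit 0), .ofNat (nat_lit 0), .ofNat (nat_lit 0), .ofNat (nat_lit 0), .ofNat (nat_lit 0), .ofNat (nat_lit 0)⟩⟩, [⟨nat_lit 0, nat_lit 100, nat_lit 100, nat_lit 19, nat_lit 4477415928⟩]⟩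
noncomputable def p002_l31 : Lf2 := ⟨nat_lit 0, nat_lit 4, [nat_lit 38, nat_lit 5, nat_lit 5, nat_lit 20], true, nat_lit 0, nat_lit 0, nat_lit 0, nat_lit 0, ⟨nat_lit 0, nat_lit 0, nat_lit 1000, nat_lit 5, nat_lit 37, nat_lit 0, nat_lit 0, nat_lit 0, nat_lit 0, nat_lit 215, nat_lit 13067, nat_lit 243, nat_lit 66439069, nat_lit 0, nat_lit 0, nat_lit 241597, false, false⟩,
 nat_lit 0, nat_lit 9773, nat_lit 0, nat_lit 0, nat_lit 4624, nat_lit 0, nat_lit 605, nat_lit 0, nat_lit 0, nat_lit 0, nat_lit 0, nat_lit 0, nat_lit 0, nat_lit 23433049037088, nat_lit 90, nat_lit 1000000, nat_lit 0, nat_lit 0, [(nat_lit 0, [(nat_lit 6, nat_lit 1000)])],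
 ⟨p002_k0, nat_lit 0, nat_lit 0, nat_lit 0, nat_lit 0, nat_lit 63857, [nat_lit 2618000001, nat_lit 1352800000, nat_lit 26400000], [], [nat_lit 13564555351, nat_lit 13623156779, nat_lit 13272997613, nat_lit 13320679633], nat_lit 1271250, nat_lit 1271250, nat_lit 0, nat_lit 21650, nat_lit 0, nat_lit 0, [nat_lit 1412500, nat_lit 1271250, nat_lit 1271250], [nat_lit 25, nat_lit 40, nat_lit 20, nat_lit 80]⟩, C1.Rw.none,
 ⟨nat_lit 6726, nat_lit 6746, ⟨.ofNat (nat_lit 86528), .ofNat (nat_lit 95184), .ofNat (nat_lit 87601), .ofNat (nat_lit 96256), .ofNat (nat_lit 87523), .ofNat (nat_lit 96159), .ofNat (nat_lit 88595), .ofNat (nat_lit 97231)⟩, ⟨.ofNat (nat_lit 0), .ofNat (nat_lit 0), .ofNat (nat_lit 0), .ofNat (nat_lit 0), .ofNat (nat_lit 0), .ofNat (nat_lit 0), .ofNat (nat_lit 0), .ofNat (nat_lit 0)⟩⟩, [⟨nat_lit 0, nat_lit 100, nat_lit 100, nat_lit 19, nat_lit 484642797⟩]⟩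
noncomputable def p002_l32 : Lf2 := ⟨nat_lit 0, nat_lit 4, [nat_lit 38, nat_lit 5, nat_lit 5, nat_lit 20], true, nat_lit 0, nat_lit 0, nat_lit 0, nat_lit 0, ⟨nat_lit 0, nat_lit 0, nat_lit 1000, nat_lit 5, nat_lit 37, nat_lit 0, nat_lit 0, nat_lit 0, nat_lit 0, nat_lit 215, nat_lit 13067, nat_lit 243, nat_lit 66439069, nat_lit 0, nat_lit 0, nat_lit 241597, false, false⟩,
 nat_lit 0, nat_lit 100000, nat_lit 0, nat_lit 0, nat_lit 47322, nat_lit 0, nat_lit 8740, nat_lit 0, nat_lit 553, nat_lit 0, nat_lit 0, nat_lit 0, nat_lit 0, nat_lit 0, nat_lit 54, nat_lit 400000, nat_lit 41506920422, nat_lit 0, [(nat_lit 0, [(nat_lit 5, nat_lit 1000)])],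
 ⟨p002_k2, nat_lit 0, nat_lit 0, nat_lit 0, nat_lit 0, nat_lit 63857, [nat_lit 1606133334, nat_lit 1489066667, nat_lit 712400000, nat_lit 13600000], [], [nat_lit 2860324150, nat_lit 3122328231, nat_lit 0, nat_lit 215750409], nat_lit 1271250, nat_lit 1271250, nat_lit 0, nat_lit 21650, nat_lit 0, nat_lit 0, [nat_lit 780000, nat_lit 1435000, nat_lit 1271250, nat_lit 1271250], [nat_lit 140, nat_lit 40, nat_lit 20, nat_lit 80]⟩, C1.Rw.none,
 ⟨nat_lit 6726, nat_lit 6746, ⟨.ofNat (nat_lit 86528), .ofNat (nat_lit 95184), .ofNat (nat_lit 87601), .ofNat (nat_lit 96256), .ofNat (nat_lit 87523), .ofNat (nat_lit 96159), .ofNat (nat_lit 88595), .ofNat (nat_lit 97231)⟩, ⟨.ofNat (nat_lit 0), .ofNat (nat_lit 0), .ofNat (nat_lit 0), .ofNat (nat_lit 0), .ofNat (nat_lit 0), .ofNat (nat_lit 0), .ofNat (nat_lit 0), .ofNat (nat_lit 0)⟩⟩, [⟨nat_lit 0, nat_lit 100, nat_lit 100, nat_lit 18, nat_lit 7393191926⟩]⟩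
noncomputable def p002_l33 : Lf2 := ⟨nat_lit 0, nat_lit 4, [nat_lit 38, nat_lit 5, nat_lit 5, nat_lit 20], false, nat_lit 0, nat_lit 0, nat_lit 0, nat_lit 0, ⟨nat_lit 0, nat_lit 0, nat_lit 1000, nat_lit 5, nat_lit 37, nat_lit 0, nat_lit 0, nat_lit 0, nat_lit 0, nat_lit 215, nat_lit 13067, nat_lit 243, nat_lit 66439069, nat_lit 0, nat_lit 0, nat_lit 241597, false, false⟩,
 nat_lit 0, nat_lit 18527, nat_lit 0, nat_lit 0, nat_lit 8767, nat_lit 100000, nat_lit 2408, nat_lit 156, nat_lit 0, nat_lit 31280, nat_lit 5684, nat_lit 0, nat_lit 0, nat_lit 56404420263731, nat_lit 0, nat_lit 1000000, nat_lit 0, nat_lit 0, [(nat_lit 0, [(nat_lit 6, nat_lit 1000)])],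
 ⟨p002_k0, nat_lit 0, nat_lit 0, nat_lit 0, nat_lit 0, nat_lit 63857, [nat_lit 3938000001, nat_lit 2936800001, nat_lit 1874400000], [], [nat_lit 17508432750, nat_lit 17590144896, nat_lit 16895699622, nat_lit 16977200259], nat_lit 1271250, nat_lit 1271250, nat_lit 0, nat_lit 21650, nat_lit 0, nat_lit 0, [nat_lit 1412500, nat_lit 1271250, nat_lit 1271250], [nat_lit 25, nat_lit 40, nat_lit 20, nat_lit 80]⟩, ⟨p002_k0, nat_lit 0, nat_lit 0, nat_lit 0, nat_lit 0, nat_lit 0, [nat_lit 113680000000, nat_lit 136416000000, nat_lit 159152000000], [], [nat_lit 177753500001, nat_lit 178278200001, nat_lit 170350856000, nat_lit 170825406001], nat_lit 0, nat_lit 0, nat_lit 0, nat_lit 0, nat_lit 0, nat_lit 0, [], [nat_lit 25, nat_lit 40, nat_lit 20, nat_lit 80]⟩,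
 ⟨nat_lit 6726, nat_lit 6746, ⟨.ofNat (nat_lit 86528), .ofNat (nat_lit 95184), .ofNat (nat_lit 87601), .ofNat (nat_lit 96256), .ofNat (nat_lit 87523), .ofNat (nat_lit 96159), .ofNat (nat_lit 88595), .ofNat (nat_lit 97231)⟩, ⟨.ofNat (nat_lit 0), .ofNat (nat_lit 0), .ofNat (nat_lit 0), .ofNat (nat_lit 0), .ofNat (nat_lit 0), .ofNat (nat_lit 0), .ofNat (nat_lit 0), .ofNat (nat_lit 0)⟩⟩, [⟨nat_lit 0, nat_lit 100, nat_lit 100, nat_lit 19, nat_lit 10000000000⟩, ⟨nat_lit 0, nat_lit 100, nat_lit 100, nat_lit 18, nat_lit 194561609⟩]⟩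
noncomputable def p002_l34 : Lf2 := ⟨nat_lit 3, nat_lit 4, [nat_lit 38, nat_lit 5, nat_lit 5, nat_lit 20], false, nat_lit 0, nat_lit 0, nat_lit 0, nat_lit 0, zbN0,
 nat_lit 0, nat_lit 0, nat_lit 0, nat_lit 0, nat_lit 0, nat_lit 0, nat_lit 0, nat_lit 0, nat_lit 0, nat_lit 0, nat_lit 0, nat_lit 0, nat_lit 0, nat_lit 0, nat_lit 0, nat_lit 0, nat_lit 0, nat_lit 0, [],
 C1.Rw.none, ⟨p002_k2, nat_lit 0, nat_lit 0, nat_lit 0, nat_lit 0, nat_lit 0, [], [], [], nat_lit 0, nat_lit 0, nat_lit 0, nat_lit 0, nat_lit 0, nat_lit 0, [], [nat_lit 140, nat_lit 40, nat_lit 20, nat_lit 80]⟩,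
 zbF0, []⟩
noncomputable def p002_l35 : Lf2 := ⟨nat_lit 0, nat_lit 4, [nat_lit 38, nat_lit 5, nat_lit 5, nat_lit 20], true, nat_lit 0, nat_lit 0, nat_lit 0, nat_lit 0, ⟨nat_lit 0, nat_lit 0, nat_lit 1000, nat_lit 5, nat_lit 37, nat_lit 0, nat_lit 0, nat_lit 0, nat_lit 0, nat_lit 215, nat_lit 13067, nat_lit 243, nat_lit 66439069, nat_lit 0, nat_lit 0, nat_lit 241597, false, false⟩,
 nat_lit 0, nat_lit 100000, nat_lit 0, nat_lit 0, nat_lit 47322, nat_lit 0, nat_lit 17406, nat_lit 1986, nat_lit 0, nat_lit 0, nat_lit 0, nat_lit 0, nat_lit 0, nat_lit 0, nat_lit 0, nat_lit 400000, nat_lit 0, nat_lit 0, [(nat_lit 0, [(nat_lit 5, nat_lit 1000)])],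
 ⟨p002_k0, nat_lit 0, nat_lit 0, nat_lit 0, nat_lit 0, nat_lit 63857, [nat_lit 41120000000, nat_lit 47080400001, nat_lit 54109600000], [], [nat_lit 71274700549, nat_lit 71624956605, nat_lit 67948272415, nat_lit 68127151057], nat_lit 1271250, nat_lit 1271250, nat_lit 0, nat_lit 21650, nat_lit 0, nat_lit 0, [nat_lit 1412500, nat_lit 1271250, nat_lit 1271250], [nat_lit 25, nat_lit 40, nat_lit 20, nat_lit 80]⟩, C1.Rw.none,
 ⟨nat_lit 6726, nat_lit 6746, ⟨.ofNat (nat_lit 86528), .ofNat (nat_lit 95184), .ofNat (nat_lit 87601), .ofNat (nat_lit 96256), .ofNat (nat_lit 87523), .ofNat (nat_lit 96159), .ofNat (nat_lit 88595), .ofNat (nat_lit 97231)⟩, ⟨.ofNat (nat_lit 0), .ofNat (nat_lit 0), .ofNat (nat_lit 0), .ofNat (nat_lit 0), .ofNat (nat_lit 0), .ofNat (nat_lit 0), .ofNat (nat_lit 0), .ofNat (nat_lit 0)⟩⟩, [⟨nat_lit 0, nat_lit 100, nat_lit 100, nat_lit 19, nat_lit 4477415928⟩]⟩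
noncomputable def p002_l36 : Lf2 := ⟨nat_lit 0, nat_lit 3, [nat_lit 45, nat_lit 5, nat_lit 5, nat_lit 20], true, nat_lit 0, nat_lit 0, nat_lit 0, nat_lit 0, ⟨nat_lit 0, nat_lit 0, nat_lit 1000, nat_lit 5, nat_lit 40, nat_lit 0, nat_lit 0, nat_lit 0, nat_lit 0, nat_lit 215, nat_lit 15000, nat_lit 245, nat_lit 66329652, nat_lit 0, nat_lit 0, nat_lit 279914, false, false⟩,
 nat_lit 0, nat_lit 11646, nat_lit 0, nat_lit 0, nat_lit 5510, nat_lit 0, nat_lit 1246, nat_lit 0, nat_lit 0, nat_lit 0, nat_lit 0, nat_lit 0, nat_lit 0, nat_lit 0, nat_lit 90, nat_lit 1000000, nat_lit 0, nat_lit 0, [(nat_lit 0, [(nat_lit 6, nat_lit 1000)])],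
 ⟨p002_k1, nat_lit 0, nat_lit 0, nat_lit 0, nat_lit 0, nat_lit 102808, [nat_lit 2618000001, nat_lit 1352800000, nat_lit 26400000], [], [nat_lit 12522645052, nat_lit 12567787161, nat_lit 12291045362, nat_lit 12336156820], nat_lit 1271250, nat_lit 1271250, nat_lit 21650, nat_lit 43600, nat_lit 0, nat_lit 0, [nat_lit 1412500, nat_lit 1271250, nat_lit 1271250], [nat_lit 25, nat_lit 40, nat_lit 20, nat_lit 80]⟩, C1.Rw.none,
 ⟨nat_lit 6726, nat_lit 6746, ⟨.ofNat (nat_lit 95184), .ofNat (nat_lit 103839), .ofNat (nat_lit 96256), .ofNat (nat_lit 104912), .ofNat (nat_lit 96159), .ofNat (nat_lit 104794), .ofNat (nat_lit 97231), .ofNat (nat_lit 105866)⟩, ⟨.ofNat (nat_lit 0), .ofNat (nat_lit 0), .ofNat (nat_lit 0), .ofNat (nat_lit 0), .ofNat (nat_lit 0), .ofNat (nat_lit 0), .ofNat (nat_lit 0), .ofNat (nat_lit 0)⟩⟩, []⟩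
noncomputable def p002_l37 : Lf2 := ⟨nat_lit 0, nat_lit 4, [nat_lit 38, nat_lit 5, nat_lit 5, nat_lit 20], true, nat_lit 0, nat_lit 0, nat_lit 0, nat_lit 0, ⟨nat_lit 0, nat_lit 0, nat_lit 1000, nat_lit 5, nat_lit 40, nat_lit 0, nat_lit 0, nat_lit 0, nat_lit 0, nat_lit 215, nat_lit 15000, nat_lit 245, nat_lit 66329652, nat_lit 0, nat_lit 0, nat_lit 279914, false, false⟩,
 nat_lit 0, nat_lit 9773, nat_lit 0, nat_lit 0, nat_lit 4624, nat_lit 0, nat_lit 605, nat_lit 0, nat_lit 0, nat_lit 0, nat_lit 0, nat_lit 0, nat_lit 0, nat_lit 0, nat_lit 90, nat_lit 1000000, nat_lit 0, nat_lit 0, [(nat_lit 0, [(nat_lit 6, nat_lit 1000)])],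
 ⟨p002_k0, nat_lit 0, nat_lit 0, nat_lit 0, nat_lit 0, nat_lit 63857, [nat_lit 2618000001, nat_lit 1352800000, nat_lit 26400000], [], [nat_lit 13272997613, nat_lit 13320679633, nat_lit 13039348951, nat_lit 13089150330], nat_lit 1271250, nat_lit 1271250, nat_lit 21650, nat_lit 43600, nat_lit 0, nat_lit 0, [nat_lit 1412500, nat_lit 1271250, nat_lit 1271250], [nat_lit 25, nat_lit 40, nat_lit 20, nat_lit 80]⟩, C1.Rw.none,
 ⟨nat_lit 6726, nat_lit 6746, ⟨.ofNat (nat_lit 95184), .ofNat (nat_lit 103839), .ofNat (nat_lit 96256), .ofNat (nat_lit 104912), .ofNat (nat_lit 96159), .ofNat (nat_lit 104794), .ofNat (nat_lit 97231), .ofNat (nat_lit 105866)⟩, ⟨.ofNat (nat_lit 0), .ofNat (nat_lit 0), .ofNat (nat_lit 0), .ofNat (nat_lit 0), .ofNat (nat_lit 0), .ofNat (nat_lit 0), .ofNat (nat_lit 0), .ofNat (nat_lit 0)⟩⟩, []⟩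
noncomputable def p002_l38 : Lf2 := ⟨nat_lit 0, nat_lit 4, [nat_lit 38, nat_lit 5, nat_lit 5, nat_lit 20], true, nat_lit 0, nat_lit 0, nat_lit 0, nat_lit 0, ⟨nat_lit 0, nat_lit 0, nat_lit 1000, nat_lit 5, nat_lit 40, nat_lit 0, nat_lit 0, nat_lit 0, nat_lit 0, nat_lit 215, nat_lit 15000, nat_lit 245, nat_lit 66329652, nat_lit 0, nat_lit 0, nat_lit 279914, false, false⟩,
 nat_lit 0, nat_lit 100000, nat_lit 0, nat_lit 0, nat_lit 47322, nat_lit 0, nat_lit 0, nat_lit 0, nat_lit 2539, nat_lit 0, nat_lit 0, nat_lit 0, nat_lit 0, nat_lit 400000000000000, nat_lit 45, nat_lit 250000, nat_lit 121597567925, nat_lit 0, [(nat_lit 0, [(nat_lit 4, nat_lit 1000)])],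
 ⟨p002_k2, nat_lit 0, nat_lit 0, nat_lit 0, nat_lit 0, nat_lit 63857, [nat_lit 2532000000, nat_lit 1157600001, nat_lit 629600001, nat_lit 10400000], [], [nat_lit 2820218353, nat_lit 3026396203, nat_lit 0, nat_lit 206519280], nat_lit 1271250, nat_lit 1271250, nat_lit 21650, nat_lit 43600, nat_lit 0, nat_lit 0, [nat_lit 780000, nat_lit 1435000, nat_lit 1271250, nat_lit 1271250], [nat_lit 140, nat_lit 40, nat_lit 20, nat_lit 80]⟩, C1.Rw.none,
 ⟨nat_lit 6726, nat_lit 6746, ⟨.ofNat (nat_lit 95184), .ofNat (nat_lit 103839), .ofNat (nat_lit 96256), .ofNat (nat_lit 104912), .ofNat (nat_lit 96159), .ofNat (nat_lit 104794), .ofNat (nat_lit 97231), .ofNat (nat_lit 105866)⟩, ⟨.ofNat (nat_lit 0), .ofNat (nat_lit 0), .ofNat (nat_lit 0), .ofNat (nat_lit 0), .ofNat (nat_lit 0), .ofNat (nat_lit 0), .ofNat (nat_lit 0), .ofNat (nat_lit 0)⟩⟩, []⟩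
noncomputable def p002_l39 : Lf2 := ⟨nat_lit 0, nat_lit 4, [nat_lit 38, nat_lit 5, nat_lit 5, nat_lit 20], false, nat_lit 0, nat_lit 0, nat_lit 0, nat_lit 0, ⟨nat_lit 0, nat_lit 0, nat_lit 1000, nat_lit 5, nat_lit 40, nat_lit 0, nat_lit 0, nat_lit 0, nat_lit 0, nat_lit 215, nat_lit 15000, nat_lit 245, nat_lit 66329652, nat_lit 0, nat_lit 0, nat_lit 279914, false, false⟩,
 nat_lit 0, nat_lit 11646, nat_lit 0, nat_lit 0, nat_lit 5510, nat_lit 100000, nat_lit 1246, nat_lit 0, nat_lit 0, nat_lit 31229, nat_lit 5689, nat_lit 0, nat_lit 0, nat_lit 0, nat_lit 90, nat_lit 1000000, nat_lit 0, nat_lit 0, [(nat_lit 0, [(nat_lit 6, nat_lit 1000)])],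
 ⟨p002_k0, nat_lit 0, nat_lit 0, nat_lit 0, nat_lit 0, nat_lit 63857, [nat_lit 2618000001, nat_lit 1352800000, nat_lit 26400000], [], [nat_lit 12522645052, nat_lit 12567787161, nat_lit 12291045362, nat_lit 12336156820], nat_lit 1271250, nat_lit 1271250, nat_lit 21650, nat_lit 43600, nat_lit 0, nat_lit 0, [nat_lit 1412500, nat_lit 1271250, nat_lit 1271250], [nat_lit 25, nat_lit 40, nat_lit 20, nat_lit 80]⟩, ⟨p002_k0, nat_lit 0, nat_lit 0, nat_lit 0, nat_lit 0, nat_lit 0, [nat_lit 113780000000, nat_lit 136536000000, nat_lit 159292000000], [], [nat_lit 170711024750, nat_lit 171082226751, nat_lit 164653200750, nat_lit 165035848250], nat_lit 0, nat_lit 0, nat_lit 0, nat_lit 0, nat_lit 0, nat_lit 0, [], [nat_lit 25, nat_lit 40, nat_lit 20, nat_lit 80]⟩,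
 ⟨nat_lit 6726, nat_lit 6746, ⟨.ofNat (nat_lit 95184), .ofNat (nat_lit 103839), .ofNat (nat_lit 96256), .ofNat (nat_lit 104912), .ofNat (nat_lit 96159), .ofNat (nat_lit 104794), .ofNat (nat_lit 97231), .ofNat (nat_lit 105866)⟩, ⟨.ofNat (nat_lit 0), .ofNat (nat_lit 0), .ofNat (nat_lit 0), .ofNat (nat_lit 0), .ofNat (nat_lit 0), .ofNat (nat_lit 0), .ofNat (nat_lit 0), .ofNat (nat_lit 0)⟩⟩, []⟩
noncomputable def p002_l40 : Lf2 := ⟨nat_lit 0, nat_lit 4, [nat_lit 38, nat_lit 5, nat_lit 5, nat_lit 20], true, nat_lit 0, nat_lit 0, nat_lit 0, nat_lit 0, ⟨nat_lit 0, nat_lit 0, nat_lit 1000, nat_lit 5, nat_lit 40, nat_lit 0, nat_lit 0, nat_lit 0, nat_lit 0, nat_lit 215, nat_lit 15000, nat_lit 245, nat_lit 66329652, nat_lit 0, nat_lit 0, nat_lit 279914, false, false⟩,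
 nat_lit 0, nat_lit 100000, nat_lit 0, nat_lit 0, nat_lit 47322, nat_lit 0, nat_lit 17406, nat_lit 1986, nat_lit 0, nat_lit 0, nat_lit 0, nat_lit 0, nat_lit 0, nat_lit 0, nat_lit 0, nat_lit 400000, nat_lit 0, nat_lit 0, [(nat_lit 0, [(nat_lit 5, nat_lit 1000)])],
 ⟨p002_k0, nat_lit 0, nat_lit 0, nat_lit 0, nat_lit 0, nat_lit 63857, [nat_lit 41120000000, nat_lit 47080400001, nat_lit 54109600000], [], [nat_lit 67948272415, nat_lit 68127151057, nat_lit 65581708520, nat_lit 65754674384], nat_lit 1271250, nat_lit 1271250, nat_lit 21650, nat_lit 43600, nat_lit 0, nat_lit 0, [nat_lit 1412500, nat_lit 1271250, nat_lit 1271250], [nat_lit 25, nat_lit 40, nat_lit 20, nat_lit 80]⟩, C1.Rw.none,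
 ⟨nat_lit 6726, nat_lit 6746, ⟨.ofNat (nat_lit 95184), .ofNat (nat_lit 103839), .ofNat (nat_lit 96256), .ofNat (nat_lit 104912), .ofNat (nat_lit 96159), .ofNat (nat_lit 104794), .ofNat (nat_lit 97231), .ofNat (nat_lit 105866)⟩, ⟨.ofNat (nat_lit 0), .ofNat (nat_lit 0), .ofNat (nat_lit 0), .ofNat (nat_lit 0), .ofNat (nat_lit 0), .ofNat (nat_lit 0), .ofNat (nat_lit 0), .ofNat (nat_lit 0)⟩⟩, []⟩
noncomputable def p002_l41 : Lf2 := ⟨nat_lit 0, nat_lit 3, [nat_lit 45, nat_lit 5, nat_lit 5, nat_lit 20], true, nat_lit 0, nat_lit 0, nat_lit 0, nat_lit 0, ⟨nat_lit 0, nat_lit 0, nat_lit 1000, nat_lit 5, nat_lit 37, nat_lit 0, nat_lit 0, nat_lit 0, nat_lit 0, nat_lit 215, nat_lit 13067, nat_lit 243, nat_lit 66427100, nat_lit 0, nat_lit 0, nat_lit 245859, false, false⟩,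
 nat_lit 0, nat_lit 11554, nat_lit 0, nat_lit 0, nat_lit 5496, nat_lit 0, nat_lit 1047, nat_lit 0, nat_lit 0, nat_lit 0, nat_lit 0, nat_lit 0, nat_lit 0, nat_lit 0, nat_lit 67, nat_lit 1000000, nat_lit 0, nat_lit 0, [(nat_lit 0, [(nat_lit 6, nat_lit 1000)])],
 ⟨p002_k13, nat_lit 0, nat_lit 0, nat_lit 0, nat_lit 0, nat_lit 106264, [nat_lit 2158000000, nat_lit 800800000, nat_lit 4400000], [], [nat_lit 13035698445, nat_lit 13104065130, nat_lit 12692088871, nat_lit 12737188183], nat_lit 1271250, nat_lit 1271250, nat_lit 0, nat_lit 21650, nat_lit 0, nat_lit 0, [nat_lit 1412500, nat_lit 1271250, nat_lit 1271250], [nat_lit 156, nat_lit 40, nat_lit 20, nat_lit 40]⟩, C1.Rw.none,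
 ⟨nat_lit 6708, nat_lit 6727, ⟨.ofNat (nat_lit 87523), .ofNat (nat_lit 96159), .ofNat (nat_lit 88595), .ofNat (nat_lit 97231), .ofNat (nat_lit 88516), .ofNat (nat_lit 97131), .ofNat (nat_lit 89587), .ofNat (nat_lit 98203)⟩, ⟨.ofNat (nat_lit 0), .ofNat (nat_lit 0), .ofNat (nat_lit 0), .ofNat (nat_lit 0), .ofNat (nat_lit 0), .ofNat (nat_lit 0), .ofNat (nat_lit 0), .ofNat (nat_lit 0)⟩⟩, [⟨nat_lit 0, nat_lit 100, nat_lit 100, nat_lit 19, nat_lit 564968666⟩]⟩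
noncomputable def p002_l42 : Lf2 := ⟨nat_lit 0, nat_lit 3, [nat_lit 45, nat_lit 5, nat_lit 5, nat_lit 20], true, nat_lit 0, nat_lit 0, nat_lit 0, nat_lit 0, ⟨nat_lit 0, nat_lit 0, nat_lit 1000, nat_lit 5, nat_lit 38, nat_lit 0, nat_lit 0, nat_lit 0, nat_lit 0, nat_lit 215, nat_lit 13067, nat_lit 243, nat_lit 66413916, nat_lit 0, nat_lit 0, nat_lit 250541, false, false⟩,
 nat_lit 0, nat_lit 10618, nat_lit 0, nat_lit 0, nat_lit 5051, nat_lit 0, nat_lit 977, nat_lit 0, nat_lit 0, nat_lit 0, nat_lit 0, nat_lit 0, nat_lit 0, nat_lit 23689026847380, nat_lit 90, nat_lit 1000000, nat_lit 0, nat_lit 0, [(nat_lit 0, [(nat_lit 6, nat_lit 1000)])],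
 ⟨p002_k14, nat_lit 0, nat_lit 0, nat_lit 0, nat_lit 0, nat_lit 110263, [nat_lit 2618000001, nat_lit 1352800000, nat_lit 26400000], [], [nat_lit 13103323973, nat_lit 13164165869, nat_lit 12774011164, nat_lit 12830387009], nat_lit 1271250, nat_lit 1271250, nat_lit 0, nat_lit 21650, nat_lit 0, nat_lit 0, [nat_lit 1412500, nat_lit 1271250, nat_lit 1271250], [nat_lit 25, nat_lit 40, nat_lit 20, nat_lit 80]⟩, C1.Rw.none,
 ⟨nat_lit 6708, nat_lit 6727, ⟨.ofNat (nat_lit 88595), .ofNat (nat_lit 97231), .ofNat (nat_lit 89667), .ofNat (nat_lit 98303), .ofNat (nat_lit 89587), .ofNat (nat_lit 98203), .ofNat (nat_lit 90659), .ofNat (nat_lit 99275)⟩, ⟨.ofNat (nat_lit 0), .ofNat (nat_lit 0), .ofNat (nat_lit 0), .ofNat (nat_lit 0), .ofNat (nat_lit 0), .ofNat (nat_lit 0), .ofNat (nat_lit 0), .ofNat (nat_lit 0)⟩⟩, [⟨nat_lit 0, nat_lit 100, nat_lit 100, nat_lit 20, nat_lit 524238398⟩]⟩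
noncomputable def p002_l43 : Lf2 := ⟨nat_lit 0, nat_lit 3, [nat_lit 45, nat_lit 5, nat_lit 5, nat_lit 20], true, nat_lit 0, nat_lit 0, nat_lit 0, nat_lit 0, ⟨nat_lit 0, nat_lit 0, nat_lit 1000, nat_lit 5, nat_lit 38, nat_lit 0, nat_lit 0, nat_lit 0, nat_lit 0, nat_lit 215, nat_lit 13067, nat_lit 243, nat_lit 66413916, nat_lit 0, nat_lit 0, nat_lit 250541, false, false⟩,
 nat_lit 0, nat_lit 100000, nat_lit 0, nat_lit 0, nat_lit 47574, nat_lit 0, nat_lit 9286, nat_lit 0, nat_lit 439, nat_lit 0, nat_lit 0, nat_lit 0, nat_lit 0, nat_lit 0, nat_lit 45, nat_lit 250000, nat_lit 37133763322, nat_lit 0, [(nat_lit 0, [(nat_lit 4, nat_lit 1000)])],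
 ⟨p002_k15, nat_lit 0, nat_lit 0, nat_lit 0, nat_lit 0, nat_lit 110263, [nat_lit 2532000000, nat_lit 1157600001, nat_lit 629600001, nat_lit 10400000], [], [nat_lit 2871444371, nat_lit 3134670324, nat_lit 0, nat_lit 216338453], nat_lit 1271250, nat_lit 1271250, nat_lit 0, nat_lit 21650, nat_lit 0, nat_lit 0, [nat_lit 780000, nat_lit 1435000, nat_lit 1271250, nat_lit 1271250], [nat_lit 140, nat_lit 40, nat_lit 20, nat_lit 80]⟩, C1.Rw.none,
 ⟨nat_lit 6708, nat_lit 6727, ⟨.ofNat (nat_lit 88595), .ofNat (nat_lit 97231), .ofNat (nat_lit 89667), .ofNat (nat_lit 98303), .ofNat (nat_lit 89587), .ofNat (nat_lit 98203), .ofNat (nat_lit 90659), .ofNat (nat_lit 99275)⟩, ⟨.ofNat (nat_lit 0), .ofNat (nat_lit 0), .ofNat (nat_lit 0), .ofNat (nat_lit 0), .ofNat (nat_lit 0), .ofNat (nat_lit 0), .ofNat (nat_lit 0), .ofNat (nat_lit 0)⟩⟩, [⟨nat_lit 0, nat_lit 100, nat_lit 100, nat_lit 20, nat_lit 10000000000⟩]⟩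
noncomputable def p002_l44 : Lf2 := ⟨nat_lit 0, nat_lit 3, [nat_lit 45, nat_lit 5, nat_lit 5, nat_lit 20], false, nat_lit 0, nat_lit 0, nat_lit 0, nat_lit 0, ⟨nat_lit 0, nat_lit 0, nat_lit 1000, nat_lit 5, nat_lit 38, nat_lit 0, nat_lit 0, nat_lit 0, nat_lit 0, nat_lit 215, nat_lit 13067, nat_lit 243, nat_lit 66413916, nat_lit 0, nat_lit 0, nat_lit 250541, false, false⟩,
 nat_lit 0, nat_lit 100000, nat_lit 0, nat_lit 0, nat_lit 47574, nat_lit 100000, nat_lit 16132, nat_lit 1997, nat_lit 0, nat_lit 26280, nat_lit 5689, nat_lit 0, nat_lit 0, nat_lit 400000000000000, nat_lit 0, nat_lit 1000000, nat_lit 0, nat_lit 0, [(nat_lit 0, [(nat_lit 6, nat_lit 1000)])],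
 ⟨p002_k14, nat_lit 0, nat_lit 0, nat_lit 0, nat_lit 0, nat_lit 110263, [nat_lit 40758000000, nat_lit 47120800000, nat_lit 53422400000], [], [nat_lit 72168656678, nat_lit 72463130720, nat_lit 68726061676, nat_lit 68947263388], nat_lit 1271250, nat_lit 1271250, nat_lit 0, nat_lit 21650, nat_lit 0, nat_lit 0, [nat_lit 1412500, nat_lit 1271250, nat_lit 1271250], [nat_lit 25, nat_lit 40, nat_lit 20, nat_lit 80]⟩, ⟨p002_k14, nat_lit 0, nat_lit 0, nat_lit 0, nat_lit 0, nat_lit 0, [nat_lit 113780000000, nat_lit 136536000000, nat_lit 159292000000], [], [nat_lit 189131825001, nat_lit 189656525000, nat_lit 181675683001, nat_lit 182199485000], nat_lit 0, nat_lit 0, nat_lit 0, nat_lit 0, nat_lit 0, nat_lit 0, [], [nat_lit 25, nat_lit 40, nat_lit 20, nat_lit 80]⟩,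
 ⟨nat_lit 6708, nat_lit 6727, ⟨.ofNat (nat_lit 88595), .ofNat (nat_lit 97231), .ofNat (nat_lit 89667), .ofNat (nat_lit 98303), .ofNat (nat_lit 89587), .ofNat (nat_lit 98203), .ofNat (nat_lit 90659), .ofNat (nat_lit 99275)⟩, ⟨.ofNat (nat_lit 0), .ofNat (nat_lit 0), .ofNat (nat_lit 0), .ofNat (nat_lit 0), .ofNat (nat_lit 0), .ofNat (nat_lit 0), .ofNat (nat_lit 0), .ofNat (nat_lit 0)⟩⟩, [⟨nat_lit 0, nat_lit 100, nat_lit 100, nat_lit 19, nat_lit 10000000000⟩, ⟨nat_lit 0, nat_lit 100, nat_lit 100, nat_lit 20, nat_lit 10000000000⟩, ⟨nat_lit 0, nat_lit 100, nat_lit 100, nat_lit 19, nat_lit 10000000000⟩]⟩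
noncomputable def p002_l45 : Lf2 := ⟨nat_lit 0, nat_lit 3, [nat_lit 45, nat_lit 5, nat_lit 5, nat_lit 20], true, nat_lit 0, nat_lit 0, nat_lit 0, nat_lit 0, ⟨nat_lit 0, nat_lit 0, nat_lit 1000, nat_lit 5, nat_lit 38, nat_lit 0, nat_lit 0, nat_lit 0, nat_lit 0, nat_lit 215, nat_lit 13067, nat_lit 243, nat_lit 66413916, nat_lit 0, nat_lit 0, nat_lit 250541, false, false⟩,
 nat_lit 0, nat_lit 100000, nat_lit 0, nat_lit 0, nat_lit 47574, nat_lit 0, nat_lit 17232, nat_lit 2032, nat_lit 0, nat_lit 0, nat_lit 0, nat_lit 0, nat_lit 0, nat_lit 127928834095244, nat_lit 0, nat_lit 1000000, nat_lit 0, nat_lit 0, [(nat_lit 0, [(nat_lit 6, nat_lit 1000)])],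
 ⟨p002_k14, nat_lit 0, nat_lit 0, nat_lit 0, nat_lit 0, nat_lit 110263, [nat_lit 41458000000, nat_lit 47960800000, nat_lit 54402400000], [], [nat_lit 72119327342, nat_lit 72471255720, nat_lit 68786899652, nat_lit 68960628044], nat_lit 1271250, nat_lit 1271250, nat_lit 0, nat_lit 21650, nat_lit 0, nat_lit 0, [nat_lit 1412500, nat_lit 1271250, nat_lit 1271250], [nat_lit 25, nat_lit 40, nat_lit 20, nat_lit 80]⟩, C1.Rw.none,
 ⟨nat_lit 6708, nat_lit 6727, ⟨.ofNat (nat_lit 88595), .ofNat (nat_lit 97231), .ofNat (nat_lit 89667), .ofNat (nat_lit 98303), .ofNat (nat_lit 89587), .ofNat (nat_lit 98203), .ofNat (nat_lit 90659), .ofNat (nat_lit 99275)⟩, ⟨.ofNat (nat_lit 0), .ofNat (nat_lit 0), .ofNat (nat_lit 0), .ofNat (nat_lit 0), .ofNat (nat_lit 0), .ofNat (nat_lit 0), .ofNat (nat_lit 0), .ofNat (nat_lit 0)⟩⟩, [⟨nat_lit 0, nat_lit 100, nat_lit 100, nat_lit 20, nat_lit 4499872426⟩]⟩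
noncomputable def p002_l46 : Lf2 := ⟨nat_lit 0, nat_lit 3, [nat_lit 45, nat_lit 5, nat_lit 5, nat_lit 20], true, nat_lit 0, nat_lit 0, nat_lit 0, nat_lit 0, ⟨nat_lit 0, nat_lit 0, nat_lit 1000, nat_lit 5, nat_lit 41, nat_lit 0, nat_lit 0, nat_lit 0, nat_lit 0, nat_lit 215, nat_lit 15000, nat_lit 245, nat_lit 66316871, nat_lit 0, nat_lit 0, nat_lit 284297, false, false⟩,
 nat_lit 0, nat_lit 11554, nat_lit 0, nat_lit 0, nat_lit 5496, nat_lit 0, nat_lit 1234, nat_lit 0, nat_lit 0, nat_lit 0, nat_lit 0, nat_lit 0, nat_lit 0, nat_lit 0, nat_lit 90, nat_lit 1000000, nat_lit 0, nat_lit 0, [(nat_lit 0, [(nat_lit 6, nat_lit 1000)])],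
 ⟨p002_k14, nat_lit 0, nat_lit 0, nat_lit 0, nat_lit 0, nat_lit 106264, [nat_lit 2618000001, nat_lit 1352800000, nat_lit 26400000], [], [nat_lit 12550670123, nat_lit 12595769435, nat_lit 12319754623, nat_lit 12364823272], nat_lit 1271250, nat_lit 1271250, nat_lit 21650, nat_lit 43600, nat_lit 0, nat_lit 0, [nat_lit 1412500, nat_lit 1271250, nat_lit 1271250], [nat_lit 25, nat_lit 40, nat_lit 20, nat_lit 80]⟩, C1.Rw.none,
 ⟨nat_lit 6708, nat_lit 6727, ⟨.ofNat (nat_lit 96159), .ofNat (nat_lit 104794), .ofNat (nat_lit 97231), .ofNat (nat_lit 105866), .ofNat (nat_lit 97131), .ofNat (nat_lit 105747), .ofNat (nat_lit 98203), .ofNat (nat_lit 106819)⟩, ⟨.ofNat (nat_lit 0), .ofNat (nat_lit 0), .ofNat (nat_lit 0), .ofNat (nat_lit 0), .ofNat (nat_lit 0), .ofNat (nat_lit 0), .ofNat (nat_lit 0), .ofNat (nat_lit 0)⟩⟩, []⟩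
noncomputable def p002_l47 : Lf2 := ⟨nat_lit 0, nat_lit 3, [nat_lit 45, nat_lit 5, nat_lit 5, nat_lit 20], true, nat_lit 0, nat_lit 0, nat_lit 0, nat_lit 0, ⟨nat_lit 0, nat_lit 0, nat_lit 1000, nat_lit 5, nat_lit 41, nat_lit 0, nat_lit 0, nat_lit 0, nat_lit 0, nat_lit 215, nat_lit 16017, nat_lit 246, nat_lit 66302517, nat_lit 0, nat_lit 0, nat_lit 289196, false, false⟩,
 nat_lit 0, nat_lit 10618, nat_lit 0, nat_lit 0, nat_lit 5051, nat_lit 0, nat_lit 977, nat_lit 0, nat_lit 0, nat_lit 0, nat_lit 0, nat_lit 0, nat_lit 0, nat_lit 27832121234757, nat_lit 90, nat_lit 1000000, nat_lit 0, nat_lit 0, [(nat_lit 0, [(nat_lit 6, nat_lit 1000)])],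
 ⟨p002_k14, nat_lit 0, nat_lit 0, nat_lit 0, nat_lit 0, nat_lit 110263, [nat_lit 2618000001, nat_lit 1352800000, nat_lit 26400000], [], [nat_lit 12774011164, nat_lit 12830387009, nat_lit 12516835334, nat_lit 12573729594], nat_lit 1271250, nat_lit 1271250, nat_lit 21650, nat_lit 43600, nat_lit 0, nat_lit 0, [nat_lit 1412500, nat_lit 1271250, nat_lit 1271250], [nat_lit 25, nat_lit 40, nat_lit 20, nat_lit 80]⟩, C1.Rw.none,
 ⟨nat_lit 6708, nat_lit 6727, ⟨.ofNat (nat_lit 97231), .ofNat (nat_lit 105866), .ofNat (nat_lit 98303), .ofNat (nat_lit 106938), .ofNat (nat_lit 98203), .ofNat (nat_lit 106819), .ofNat (nat_lit 99275), .ofNat (nat_lit 107890)⟩, ⟨.ofNat (nat_lit 0), .ofNat (nat_lit 0), .ofNat (nat_lit 0), .ofNat (nat_lit 0), .ofNat (nat_lit 0), .ofNat (nat_lit 0), .ofNat (nat_lit 0), .ofNat (nat_lit 0)⟩⟩, []⟩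
noncomputable def p002_l48 : Lf2 := ⟨nat_lit 0, nat_lit 3, [nat_lit 45, nat_lit 5, nat_lit 5, nat_lit 20], true, nat_lit 0, nat_lit 0, nat_lit 0, nat_lit 0, ⟨nat_lit 0, nat_lit 0, nat_lit 1000, nat_lit 5, nat_lit 41, nat_lit 0, nat_lit 0, nat_lit 0, nat_lit 0, nat_lit 215, nat_lit 16017, nat_lit 246, nat_lit 66302517, nat_lit 0, nat_lit 0, nat_lit 289196, false, false⟩,
 nat_lit 0, nat_lit 100000, nat_lit 0, nat_lit 0, nat_lit 47574, nat_lit 0, nat_lit 9286, nat_lit 0, nat_lit 439, nat_lit 0, nat_lit 0, nat_lit 0, nat_lit 0, nat_lit 0, nat_lit 45, nat_lit 250000, nat_lit 39951296862, nat_lit 0, [(nat_lit 0, [(nat_lit 4, nat_lit 1000)])],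
 ⟨p002_k15, nat_lit 0, nat_lit 0, nat_lit 0, nat_lit 0, nat_lit 110263, [nat_lit 2532000000, nat_lit 1157600001, nat_lit 629600001, nat_lit 10400000], [], [nat_lit 2817533540, nat_lit 3033871993, nat_lit 0, nat_lit 216639134], nat_lit 1271250, nat_lit 1271250, nat_lit 21650, nat_lit 43600, nat_lit 0, nat_lit 0, [nat_lit 780000, nat_lit 1435000, nat_lit 1271250, nat_lit 1271250], [nat_lit 140, nat_lit 40, nat_lit 20, nat_lit 80]⟩, C1.Rw.none,
 ⟨nat_lit 6708, nat_lit 6727, ⟨.ofNat (nat_lit 97231), .ofNat (nat_lit 105866), .ofNat (nat_lit 98303), .ofNat (nat_lit 106938), .ofNat (nat_lit 98203), .ofNat (nat_lit 106819), .ofNat (nat_lit 99275), .ofNat (nat_lit 107890)⟩, ⟨.ofNat (nat_lit 0), .ofNat (nat_lit 0), .ofNat (nat_lit 0), .ofNat (nat_lit 0), .ofNat (nat_lit 0), .ofNat (nat_lit 0), .ofNat (nat_lit 0), .ofNat (nat_lit 0)⟩⟩, []⟩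
noncomputable def p002_l49 : Lf2 := ⟨nat_lit 0, nat_lit 3, [nat_lit 45, nat_lit 5, nat_lit 5, nat_lit 20], false, nat_lit 0, nat_lit 0, nat_lit 0, nat_lit 0, ⟨nat_lit 0, nat_lit 0, nat_lit 1000, nat_lit 5, nat_lit 41, nat_lit 0, nat_lit 0, nat_lit 0, nat_lit 0, nat_lit 215, nat_lit 16017, nat_lit 246, nat_lit 66302517, nat_lit 0, nat_lit 0, nat_lit 289196, false, false⟩,
 nat_lit 0, nat_lit 100000, nat_lit 0, nat_lit 59411, nat_lit 47574, nat_lit 100000, nat_lit 16143, nat_lit 1997, nat_lit 0, nat_lit 36396, nat_lit 5153, nat_lit 0, nat_lit 0, nat_lit 400000000000000, nat_lit 0, nat_lit 986400, nat_lit 0, nat_lit 0, [(nat_lit 0, [(nat_lit 3, nat_lit 17), (nat_lit 6, nat_lit 983)])],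
 ⟨p002_k14, nat_lit 0, nat_lit 0, nat_lit 0, nat_lit 0, nat_lit 110263, [nat_lit 41210098001, nat_lit 47125879601, nat_lit 53444928400], [], [nat_lit 68719583378, nat_lit 68944024239, nat_lit 65960996017, nat_lit 66118688972], nat_lit 1271250, nat_lit 1271250, nat_lit 21650, nat_lit 43600, nat_lit 0, nat_lit 0, [nat_lit 1412500, nat_lit 1271250, nat_lit 1271250], [nat_lit 25, nat_lit 40, nat_lit 20, nat_lit 80]⟩, ⟨p002_k14, nat_lit 0, nat_lit 0, nat_lit 0, nat_lit 0, nat_lit 0, [nat_lit 103060000000, nat_lit 123672000000, nat_lit 144284000000], [], [nat_lit 142419431001, nat_lit 142944805000, nat_lit 136373217000, nat_lit 136849045000], nat_lit 0, nat_lit 0, nat_lit 0, nat_lit 0, nat_lit 0, nat_lit 0, [], [nat_lit 25, nat_lit 40, nat_lit 20, nat_lit 80]⟩,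
 ⟨nat_lit 6708, nat_lit 6727, ⟨.ofNat (nat_lit 97231), .ofNat (nat_lit 105866), .ofNat (nat_lit 98303), .ofNat (nat_lit 106938), .ofNat (nat_lit 98203), .ofNat (nat_lit 106819), .ofNat (nat_lit 99275), .ofNat (nat_lit 107890)⟩, ⟨.ofNat (nat_lit 0), .ofNat (nat_lit 0), .ofNat (nat_lit 0), .ofNat (nat_lit 0), .ofNat (nat_lit 0), .ofNat (nat_lit 0), .ofNat (nat_lit 0), .ofNat (nat_lit 0)⟩⟩, []⟩
noncomputable def p002_l50 : Lf2 := ⟨nat_lit 0, nat_lit 3, [nat_lit 45, nat_lit 5, nat_lit 5, nat_lit 20], true, nat_lit 0, nat_lit 0, nat_lit 0, nat_lit 0, ⟨nat_lit 0, nat_lit 0, nat_lit 1000, nat_lit 5, nat_lit 41, nat_lit 0, nat_lit 0, nat_lit 0, nat_lit 0, nat_lit 215, nat_lit 16017, nat_lit 246, nat_lit 66302517, nat_lit 0, nat_lit 0, nat_lit 289196, false, false⟩,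
 nat_lit 0, nat_lit 100000, nat_lit 0, nat_lit 0, nat_lit 47574, nat_lit 0, nat_lit 17232, nat_lit 2032, nat_lit 0, nat_lit 0, nat_lit 0, nat_lit 0, nat_lit 0, nat_lit 0, nat_lit 0, nat_lit 1000000, nat_lit 0, nat_lit 0, [(nat_lit 0, [(nat_lit 6, nat_lit 1000)])],
 ⟨p002_k14, nat_lit 0, nat_lit 0, nat_lit 0, nat_lit 0, nat_lit 110263, [nat_lit 41458000000, nat_lit 47960800000, nat_lit 54402400000], [], [nat_lit 68786899652, nat_lit 68960628044, nat_lit 66407476423, nat_lit 66581212863], nat_lit 1271250, nat_lit 1271250, nat_lit 21650, nat_lit 43600, nat_lit 0, nat_lit 0, [nat_lit 1412500, nat_lit 1271250, nat_lit 1271250], [nat_lit 25, nat_lit 40, nat_lit 20, nat_lit 80]⟩, C1.Rw.none,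
 ⟨nat_lit 6708, nat_lit 6727, ⟨.ofNat (nat_lit 97231), .ofNat (nat_lit 105866), .ofNat (nat_lit 98303), .ofNat (nat_lit 106938), .ofNat (nat_lit 98203), .ofNat (nat_lit 106819), .ofNat (nat_lit 99275), .ofNat (nat_lit 107890)⟩, ⟨.ofNat (nat_lit 0), .ofNat (nat_lit 0), .ofNat (nat_lit 0), .ofNat (nat_lit 0), .ofNat (nat_lit 0), .ofNat (nat_lit 0), .ofNat (nat_lit 0), .ofNat (nat_lit 0)⟩⟩, []⟩
noncomputable def p002_l51 : Lf2 := ⟨nat_lit 0, nat_lit 4, [nat_lit 38, nat_lit 5, nat_lit 5, nat_lit 20], true, nat_lit 0, nat_lit 0, nat_lit 0, nat_lit 0, ⟨nat_lit 0, nat_lit 0, nat_lit 1000, nat_lit 5, nat_lit 37, nat_lit 0, nat_lit 0, nat_lit 0, nat_lit 0, nat_lit 215, nat_lit 13067, nat_lit 243, nat_lit 66427100, nat_lit 0, nat_lit 0, nat_lit 245859, false, false⟩,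
 nat_lit 0, nat_lit 9712, nat_lit 0, nat_lit 0, nat_lit 4620, nat_lit 0, nat_lit 603, nat_lit 0, nat_lit 0, nat_lit 0, nat_lit 0, nat_lit 0, nat_lit 0, nat_lit 0, nat_lit 90, nat_lit 1000000, nat_lit 0, nat_lit 0, [(nat_lit 0, [(nat_lit 6, nat_lit 1000)])],
 ⟨p002_k4, nat_lit 0, nat_lit 0, nat_lit 0, nat_lit 0, nat_lit 67640, [nat_lit 2618000001, nat_lit 1352800000, nat_lit 26400000], [], [nat_lit 13599659215, nat_lit 13658239655, nat_lit 13302031516, nat_lit 13355541643], nat_lit 1271250, nat_lit 1271250, nat_lit 0, nat_lit 21650, nat_lit 0, nat_lit 0, [nat_lit 1412500, nat_lit 1271250, nat_lit 1271250], [nat_lit 25, nat_lit 40, nat_lit 20, nat_lit 80]⟩, C1.Rw.none,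
 ⟨nat_lit 6708, nat_lit 6727, ⟨.ofNat (nat_lit 87523), .ofNat (nat_lit 96159), .ofNat (nat_lit 88595), .ofNat (nat_lit 97231), .ofNat (nat_lit 88516), .ofNat (nat_lit 97131), .ofNat (nat_lit 89587), .ofNat (nat_lit 98203)⟩, ⟨.ofNat (nat_lit 0), .ofNat (nat_lit 0), .ofNat (nat_lit 0), .ofNat (nat_lit 0), .ofNat (nat_lit 0), .ofNat (nat_lit 0), .ofNat (nat_lit 0), .ofNat (nat_lit 0)⟩⟩, [⟨nat_lit 0, nat_lit 100, nat_lit 100, nat_lit 19, nat_lit 483633739⟩]⟩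
noncomputable def p002_l52 : Lf2 := ⟨nat_lit 0, nat_lit 4, [nat_lit 38, nat_lit 5, nat_lit 5, nat_lit 20], true, nat_lit 0, nat_lit 0, nat_lit 0, nat_lit 0, ⟨nat_lit 0, nat_lit 0, nat_lit 1000, nat_lit 5, nat_lit 37, nat_lit 0, nat_lit 0, nat_lit 0, nat_lit 0, nat_lit 215, nat_lit 13067, nat_lit 243, nat_lit 66427100, nat_lit 0, nat_lit 0, nat_lit 245859, false, false⟩,
 nat_lit 0, nat_lit 100000, nat_lit 0, nat_lit 0, nat_lit 47574, nat_lit 0, nat_lit 8624, nat_lit 0, nat_lit 493, nat_lit 0, nat_lit 0, nat_lit 0, nat_lit 0, nat_lit 0, nat_lit 54, nat_lit 400000, nat_lit 38990888324, nat_lit 0, [(nat_lit 0, [(nat_lit 5, nat_lit 1000)])],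
 ⟨p002_k5, nat_lit 0, nat_lit 0, nat_lit 0, nat_lit 0, nat_lit 67640, [nat_lit 1606133334, nat_lit 1489066667, nat_lit 712400000, nat_lit 13600000], [], [nat_lit 2872633957, nat_lit 3135859910, nat_lit 0, nat_lit 216338453], nat_lit 1271250, nat_lit 1271250, nat_lit 0, nat_lit 21650, nat_lit 0, nat_lit 0, [nat_lit 780000, nat_lit 1435000, nat_lit 1271250, nat_lit 1271250], [nat_lit 140, nat_lit 40, nat_lit 20, nat_lit 80]⟩, C1.Rw.none,
 ⟨nat_lit 6708, nat_lit 6727, ⟨.ofNat (nat_lit 87523), .ofNat (nat_lit 96159), .ofNat (nat_lit 88595), .ofNat (nat_lit 97231), .ofNat (nat_lit 88516), .ofNat (nat_lit 97131), .ofNat (nat_lit 89587), .ofNat (nat_lit 98203)⟩, ⟨.ofNat (nat_lit 0), .ofNat (nat_lit 0), .ofNat (nat_lit 0), .ofNat (nat_lit 0), .ofNat (nat_lit 0), .ofNat (nat_lit 0), .ofNat (nat_lit 0), .ofNat (nat_lit 0)⟩⟩, [⟨nat_lit 0, nat_lit 100, nat_lit 100, nat_lit 19, nat_lit 4561037255⟩]⟩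
noncomputable def p002_l53 : Lf2 := ⟨nat_lit 0, nat_lit 4, [nat_lit 38, nat_lit 5, nat_lit 5, nat_lit 20], false, nat_lit 0, nat_lit 0, nat_lit 0, nat_lit 0, ⟨nat_lit 0, nat_lit 0, nat_lit 1000, nat_lit 5, nat_lit 37, nat_lit 0, nat_lit 0, nat_lit 0, nat_lit 0, nat_lit 215, nat_lit 13067, nat_lit 243, nat_lit 66427100, nat_lit 0, nat_lit 0, nat_lit 245859, false, false⟩,
 nat_lit 0, nat_lit 48764, nat_lit 0, nat_lit 0, nat_lit 23199, nat_lit 100000, nat_lit 7539, nat_lit 853, nat_lit 0, nat_lit 31229, nat_lit 5689, nat_lit 0, nat_lit 0, nat_lit 0, nat_lit 0, nat_lit 1000000, nat_lit 0, nat_lit 0, [(nat_lit 0, [(nat_lit 6, nat_lit 1000)])],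
 ⟨p002_k4, nat_lit 0, nat_lit 0, nat_lit 0, nat_lit 0, nat_lit 67640, [nat_lit 17878000001, nat_lit 19664800001, nat_lit 21390400000], [], [nat_lit 38105764178, nat_lit 38275324471, nat_lit 36416693736, nat_lit 36582882639], nat_lit 1271250, nat_lit 1271250, nat_lit 0, nat_lit 21650, nat_lit 0, nat_lit 0, [nat_lit 1412500, nat_lit 1271250, nat_lit 1271250], [nat_lit 25, nat_lit 40, nat_lit 20, nat_lit 80]⟩, ⟨p002_k0, nat_lit 0, nat_lit 0, nat_lit 0, nat_lit 0, nat_lit 0, [nat_lit 113780000000, nat_lit 136536000000, nat_lit 159292000000], [], [nat_lit 178013668751, nat_lit 178538368751, nat_lit 170711024750, nat_lit 171082226751], nat_lit 0, nat_lit 0, nat_lit 0, nat_lit 0, nat_lit 0, nat_lit 0, [], [nat_lit 25, nat_lit 40, nat_lit 20, nat_lit 80]⟩,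
 ⟨nat_lit 6708, nat_lit 6727, ⟨.ofNat (nat_lit 87523), .ofNat (nat_lit 96159), .ofNat (nat_lit 88595), .ofNat (nat_lit 97231), .ofNat (nat_lit 88516), .ofNat (nat_lit 97131), .ofNat (nat_lit 89587), .ofNat (nat_lit 98203)⟩, ⟨.ofNat (nat_lit 0), .ofNat (nat_lit 0), .ofNat (nat_lit 0), .ofNat (nat_lit 0), .ofNat (nat_lit 0), .ofNat (nat_lit 0), .ofNat (nat_lit 0), .ofNat (nat_lit 0)⟩⟩, [⟨nat_lit 0, nat_lit 100, nat_lit 100, nat_lit 19, nat_lit 1540147318⟩, ⟨nat_lit 0, nat_lit 100, nat_lit 100, nat_lit 19, nat_lit 10000000000⟩]⟩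
noncomputable def p002_l54 : Lf2 := ⟨nat_lit 0, nat_lit 4, [nat_lit 38, nat_lit 5, nat_lit 5, nat_lit 20], true, nat_lit 0, nat_lit 0, nat_lit 0, nat_lit 0, ⟨nat_lit 0, nat_lit 0, nat_lit 1000, nat_lit 5, nat_lit 37, nat_lit 0, nat_lit 0, nat_lit 0, nat_lit 0, nat_lit 215, nat_lit 13067, nat_lit 243, nat_lit 66427100, nat_lit 0, nat_lit 0, nat_lit 245859, false, false⟩,
 nat_lit 0, nat_lit 100000, nat_lit 0, nat_lit 0, nat_lit 47574, nat_lit 0, nat_lit 16611, nat_lit 2003, nat_lit 0, nat_lit 0, nat_lit 0, nat_lit 0, nat_lit 0, nat_lit 0, nat_lit 0, nat_lit 406600, nat_lit 0, nat_lit 0, [(nat_lit 0, [(nat_lit 5, nat_lit 989), (nat_lit 6, nat_lit 11)])],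
 ⟨p002_k4, nat_lit 0, nat_lit 0, nat_lit 0, nat_lit 0, nat_lit 67640, [nat_lit 41453598001, nat_lit 47485940401, nat_lit 54574652800], [], [nat_lit 72172806353, nat_lit 72466027371, nat_lit 68772867305, nat_lit 68950458222], nat_lit 1271250, nat_lit 1271250, nat_lit 0, nat_lit 21650, nat_lit 0, nat_lit 0, [nat_lit 1412500, nat_lit 1271250, nat_lit 1271250], [nat_lit 25, nat_lit 40, nat_lit 20, nat_lit 80]⟩, C1.Rw.none,
 ⟨nat_lit 6708, nat_lit 6727, ⟨.ofNat (nat_lit 87523), .ofNat (nat_lit 96159), .ofNat (nat_lit 88595), .ofNat (nat_lit 97231), .ofNat (nat_lit 88516), .ofNat (nat_lit 97131), .ofNat (nat_lit 89587), .ofNat (nat_lit 98203)⟩, ⟨.ofNat (nat_lit 0), .ofNat (nat_lit 0), .ofNat (nat_lit 0), .ofNat (nat_lit 0), .ofNat (nat_lit 0), .ofNat (nat_lit 0), .ofNat (nat_lit 0), .ofNat (nat_lit 0)⟩⟩, [⟨nat_lit 0, nat_lit 100, nat_lit 100, nat_lit 19, nat_lit 4499452396⟩]⟩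
noncomputable def p002_l55 : Lf2 := ⟨nat_lit 0, nat_lit 4, [nat_lit 38, nat_lit 5, nat_lit 5, nat_lit 20], true, nat_lit 0, nat_lit 0, nat_lit 0, nat_lit 0, ⟨nat_lit 0, nat_lit 0, nat_lit 1000, nat_lit 5, nat_lit 41, nat_lit 0, nat_lit 0, nat_lit 0, nat_lit 0, nat_lit 215, nat_lit 15000, nat_lit 245, nat_lit 66316871, nat_lit 0, nat_lit 0, nat_lit 284297, false, false⟩,
 nat_lit 0, nat_lit 9701, nat_lit 0, nat_lit 0, nat_lit 4615, nat_lit 0, nat_lit 599, nat_lit 0, nat_lit 0, nat_lit 0, nat_lit 0, nat_lit 0, nat_lit 0, nat_lit 0, nat_lit 90, nat_lit 1000000, nat_lit 0, nat_lit 0, [(nat_lit 0, [(nat_lit 6, nat_lit 1000)])],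
 ⟨p002_k4, nat_lit 0, nat_lit 0, nat_lit 0, nat_lit 0, nat_lit 67640, [nat_lit 2618000001, nat_lit 1352800000, nat_lit 26400000], [], [nat_lit 13313039338, nat_lit 13361382285, nat_lit 13079939071, nat_lit 13130557599], nat_lit 1271250, nat_lit 1271250, nat_lit 21650, nat_lit 43600, nat_lit 0, nat_lit 0, [nat_lit 1412500, nat_lit 1271250, nat_lit 1271250], [nat_lit 25, nat_lit 40, nat_lit 20, nat_lit 80]⟩, C1.Rw.none,
 ⟨nat_lit 6708, nat_lit 6727, ⟨.ofNat (nat_lit 96159), .ofNat (nat_lit 104794), .ofNat (nat_lit 97231), .ofNat (nat_lit 105866), .ofNat (nat_lit 97131), .ofNat (nat_lit 105747), .ofNat (nat_lit 98203), .ofNat (nat_lit 106819)⟩, ⟨.ofNat (nat_lit 0), .ofNat (nat_lit 0), .ofNat (nat_lit 0), .ofNat (nat_lit 0), .ofNat (nat_lit 0), .ofNat (nat_lit 0), .ofNat (nat_lit 0), .ofNat (nat_lit 0)⟩⟩, []⟩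
noncomputable def p002_l56 : Lf2 := ⟨nat_lit 0, nat_lit 4, [nat_lit 38, nat_lit 5, nat_lit 5, nat_lit 20], true, nat_lit 0, nat_lit 0, nat_lit 0, nat_lit 0, ⟨nat_lit 0, nat_lit 0, nat_lit 1000, nat_lit 5, nat_lit 41, nat_lit 0, nat_lit 0, nat_lit 0, nat_lit 0, nat_lit 215, nat_lit 15000, nat_lit 245, nat_lit 66316871, nat_lit 0, nat_lit 0, nat_lit 284297, false, false⟩,
 nat_lit 0, nat_lit 100000, nat_lit 0, nat_lit 0, nat_lit 47574, nat_lit 0, nat_lit 0, nat_lit 0, nat_lit 2452, nat_lit 0, nat_lit 0, nat_lit 0, nat_lit 0, nat_lit 0, nat_lit 45, nat_lit 250000, nat_lit 117301896599, nat_lit 0, [(nat_lit 0, [(nat_lit 4, nat_lit 1000)])],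
 ⟨p002_k5, nat_lit 0, nat_lit 0, nat_lit 0, nat_lit 0, nat_lit 67640, [nat_lit 2532000000, nat_lit 1157600001, nat_lit 629600001, nat_lit 10400000], [], [nat_lit 2835140643, nat_lit 3042253923, nat_lit 0, nat_lit 207456705], nat_lit 1271250, nat_lit 1271250, nat_lit 21650, nat_lit 43600, nat_lit 0, nat_lit 0, [nat_lit 780000, nat_lit 1435000, nat_lit 1271250, nat_lit 1271250], [nat_lit 140, nat_lit 40, nat_lit 20, nat_lit 80]⟩, C1.Rw.none,
 ⟨nat_lit 6708, nat_lit 6727, ⟨.ofNat (nat_lit 96159), .ofNat (nat_lit 104794), .ofNat (nat_lit 97231), .ofNat (nat_lit 105866), .ofNat (nat_lit 97131), .ofNat (nat_lit 105747), .ofNat (nat_lit 98203), .ofNat (nat_lit 106819)⟩, ⟨.ofNat (nat_lit 0), .ofNat (nat_lit 0), .ofNat (nat_lit 0), .ofNat (nat_lit 0), .ofNat (nat_lit 0), .ofNat (nat_lit 0), .ofNat (nat_lit 0), .ofNat (nat_lit 0)⟩⟩, []⟩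
noncomputable def p002_l57 : Lf2 := ⟨nat_lit 0, nat_lit 4, [nat_lit 38, nat_lit 5, nat_lit 5, nat_lit 20], false, nat_lit 0, nat_lit 0, nat_lit 0, nat_lit 0, ⟨nat_lit 0, nat_lit 0, nat_lit 1000, nat_lit 5, nat_lit 41, nat_lit 0, nat_lit 0, nat_lit 0, nat_lit 0, nat_lit 215, nat_lit 15000, nat_lit 245, nat_lit 66316871, nat_lit 0, nat_lit 0, nat_lit 284297, false, false⟩,
 nat_lit 0, nat_lit 11554, nat_lit 0, nat_lit 0, nat_lit 5496, nat_lit 100000, nat_lit 1234, nat_lit 0, nat_lit 0, nat_lit 31229, nat_lit 5689, nat_lit 0, nat_lit 0, nat_lit 0, nat_lit 90, nat_lit 1000000, nat_lit 0, nat_lit 0, [(nat_lit 0, [(nat_lit 6, nat_lit 1000)])],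
 ⟨p002_k4, nat_lit 0, nat_lit 0, nat_lit 0, nat_lit 0, nat_lit 67640, [nat_lit 2618000001, nat_lit 1352800000, nat_lit 26400000], [], [nat_lit 12550670123, nat_lit 12595769435, nat_lit 12319754623, nat_lit 12364823272], nat_lit 1271250, nat_lit 1271250, nat_lit 21650, nat_lit 43600, nat_lit 0, nat_lit 0, [nat_lit 1412500, nat_lit 1271250, nat_lit 1271250], [nat_lit 25, nat_lit 40, nat_lit 20, nat_lit 80]⟩, ⟨p002_k0, nat_lit 0, nat_lit 0, nat_lit 0, nat_lit 0, nat_lit 0, [nat_lit 113780000000, nat_lit 136536000000, nat_lit 159292000000], [], [nat_lit 170711024750, nat_lit 171082226751, nat_lit 164653200750, nat_lit 165035848250], nat_lit 0, nat_lit 0, nat_lit 0, nat_lit 0, nat_lit 0, nat_lit 0, [], [nat_lit 25, nat_lit 40, nat_lit 20, nat_lit 80]⟩,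
 ⟨nat_lit 6708, nat_lit 6727, ⟨.ofNat (nat_lit 96159), .ofNat (nat_lit 104794), .ofNat (nat_lit 97231), .ofNat (nat_lit 105866), .ofNat (nat_lit 97131), .ofNat (nat_lit 105747), .ofNat (nat_lit 98203), .ofNat (nat_lit 106819)⟩, ⟨.ofNat (nat_lit 0), .ofNat (nat_lit 0), .ofNat (nat_lit 0), .ofNat (nat_lit 0), .ofNat (nat_lit 0), .ofNat (nat_lit 0), .ofNat (nat_lit 0), .ofNat (nat_lit 0)⟩⟩, []⟩
noncomputable def p002_l58 : Lf2 := ⟨nat_lit 0, nat_lit 4, [nat_lit 38, nat_lit 5, nat_lit 5, nat_lit 20], true, nat_lit 0, nat_lit 0, nat_lit 0, nat_lit 0, ⟨nat_lit 0, nat_lit 0, nat_lit 1000, nat_lit 5, nat_lit 41, nat_lit 0, nat_lit 0, nat_lit 0, nat_lit 0, nat_lit 215, nat_lit 15000, nat_lit 245, nat_lit 66316871, nat_lit 0, nat_lit 0, nat_lit 284297, false, false⟩,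
 nat_lit 0, nat_lit 100000, nat_lit 0, nat_lit 0, nat_lit 47574, nat_lit 0, nat_lit 16611, nat_lit 2003, nat_lit 0, nat_lit 0, nat_lit 0, nat_lit 0, nat_lit 0, nat_lit 0, nat_lit 0, nat_lit 406600, nat_lit 0, nat_lit 0, [(nat_lit 0, [(nat_lit 5, nat_lit 989), (nat_lit 6, nat_lit 11)])],
 ⟨p002_k4, nat_lit 0, nat_lit 0, nat_lit 0, nat_lit 0, nat_lit 67640, [nat_lit 41453598001, nat_lit 47485940401, nat_lit 54574652800], [], [nat_lit 68772867305, nat_lit 68950458222, nat_lit 66393444076, nat_lit 66567180516], nat_lit 1271250, nat_lit 1271250, nat_lit 21650, nat_lit 43600, nat_lit 0, nat_lit 0, [nat_lit 1412500, nat_lit 1271250, nat_lit 1271250], [nat_lit 25, nat_lit 40, nat_lit 20, nat_lit 80]⟩, C1.Rw.none,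
 ⟨nat_lit 6708, nat_lit 6727, ⟨.ofNat (nat_lit 96159), .ofNat (nat_lit 104794), .ofNat (nat_lit 97231), .ofNat (nat_lit 105866), .ofNat (nat_lit 97131), .ofNat (nat_lit 105747), .ofNat (nat_lit 98203), .ofNat (nat_lit 106819)⟩, ⟨.ofNat (nat_lit 0), .ofNat (nat_lit 0), .ofNat (nat_lit 0), .ofNat (nat_lit 0), .ofNat (nat_lit 0), .ofNat (nat_lit 0), .ofNat (nat_lit 0), .ofNat (nat_lit 0)⟩⟩, []⟩
noncomputable def p002_l59 : Lf2 := ⟨nat_lit 0, nat_lit 4, [nat_lit 38, nat_lit 5, nat_lit 5, nat_lit 20], true, nat_lit 0, nat_lit 0, nat_lit 0, nat_lit 0, ⟨nat_lit 0, nat_lit 0, nat_lit 1000, nat_lit 5, nat_lit 38, nat_lit 0, nat_lit 0, nat_lit 0, nat_lit 0, nat_lit 215, nat_lit 13067, nat_lit 243, nat_lit 66413916, nat_lit 0, nat_lit 0, nat_lit 250541, false, false⟩,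
 nat_lit 0, nat_lit 9701, nat_lit 0, nat_lit 0, nat_lit 4615, nat_lit 0, nat_lit 599, nat_lit 0, nat_lit 0, nat_lit 0, nat_lit 0, nat_lit 0, nat_lit 0, nat_lit 23042798712892, nat_lit 90, nat_lit 1000000, nat_lit 0, nat_lit 0, [(nat_lit 0, [(nat_lit 6, nat_lit 1000)])],
 ⟨p002_k4, nat_lit 0, nat_lit 0, nat_lit 0, nat_lit 0, nat_lit 71756, [nat_lit 2618000001, nat_lit 1352800000, nat_lit 26400000], [], [nat_lit 13604605230, nat_lit 13663159435, nat_lit 13313039338, nat_lit 13361382285], nat_lit 1271250, nat_lit 1271250, nat_lit 0, nat_lit 21650, nat_lit 0, nat_lit 0, [nat_lit 1412500, nat_lit 1271250, nat_lit 1271250], [nat_lit 25, nat_lit 40, nat_lit 20, nat_lit 80]⟩, C1.Rw.none,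
 ⟨nat_lit 6708, nat_lit 6727, ⟨.ofNat (nat_lit 88595), .ofNat (nat_lit 97231), .ofNat (nat_lit 89667), .ofNat (nat_lit 98303), .ofNat (nat_lit 89587), .ofNat (nat_lit 98203), .ofNat (nat_lit 90659), .ofNat (nat_lit 99275)⟩, ⟨.ofNat (nat_lit 0), .ofNat (nat_lit 0), .ofNat (nat_lit 0), .ofNat (nat_lit 0), .ofNat (nat_lit 0), .ofNat (nat_lit 0), .ofNat (nat_lit 0), .ofNat (nat_lit 0)⟩⟩, [⟨nat_lit 0, nat_lit 100, nat_lit 100, nat_lit 20, nat_lit 483595555⟩]⟩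
noncomputable def p002_l60 : Lf2 := ⟨nat_lit 0, nat_lit 4, [nat_lit 38, nat_lit 5, nat_lit 5, nat_lit 20], true, nat_lit 0, nat_lit 0, nat_lit 0, nat_lit 0, ⟨nat_lit 0, nat_lit 0, nat_lit 1000, nat_lit 5, nat_lit 38, nat_lit 0, nat_lit 0, nat_lit 0, nat_lit 0, nat_lit 215, nat_lit 13067, nat_lit 243, nat_lit 66413916, nat_lit 0, nat_lit 0, nat_lit 250541, false, false⟩,
 nat_lit 0, nat_lit 100000, nat_lit 0, nat_lit 0, nat_lit 47574, nat_lit 0, nat_lit 8624, nat_lit 0, nat_lit 493, nat_lit 0, nat_lit 0, nat_lit 0, nat_lit 0, nat_lit 0, nat_lit 54, nat_lit 400000, nat_lit 38990888324, nat_lit 0, [(nat_lit 0, [(nat_lit 5, nat_lit 1000)])],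
 ⟨p002_k5, nat_lit 0, nat_lit 0, nat_lit 0, nat_lit 0, nat_lit 71756, [nat_lit 1606133334, nat_lit 1489066667, nat_lit 712400000, nat_lit 13600000], [], [nat_lit 2872633957, nat_lit 3135859910, nat_lit 0, nat_lit 216338453], nat_lit 1271250, nat_lit 1271250, nat_lit 0, nat_lit 21650, nat_lit 0, nat_lit 0, [nat_lit 780000, nat_lit 1435000, nat_lit 1271250, nat_lit 1271250], [nat_lit 140, nat_lit 40, nat_lit 20, nat_lit 80]⟩, C1.Rw.none,
 ⟨nat_lit 6708, nat_lit 6727, ⟨.ofNat (nat_lit 88595), .ofNat (nat_lit 97231), .ofNat (nat_lit 89667), .ofNat (nat_lit 98303), .ofNat (nat_lit 89587), .ofNat (nat_lit 98203), .ofNat (nat_lit 90659), .ofNat (nat_lit 99275)⟩, ⟨.ofNat (nat_lit 0), .ofNat (nat_lit 0), .ofNat (nat_lit 0), .ofNat (nat_lit 0), .ofNat (nat_lit 0), .ofNat (nat_lit 0), .ofNat (nat_lit 0), .ofNat (nat_lit 0)⟩⟩, [⟨nat_lit 0, nat_lit 100, nat_lit 100, nat_lit 20, nat_lit 3757475060⟩]⟩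
noncomputable def p002_l61 : Lf2 := ⟨nat_lit 0, nat_lit 4, [nat_lit 38, nat_lit 5, nat_lit 5, nat_lit 20], false, nat_lit 0, nat_lit 0, nat_lit 0, nat_lit 0, ⟨nat_lit 0, nat_lit 0, nat_lit 1000, nat_lit 5, nat_lit 38, nat_lit 0, nat_lit 0, nat_lit 0, nat_lit 0, nat_lit 215, nat_lit 13067, nat_lit 243, nat_lit 66413916, nat_lit 0, nat_lit 0, nat_lit 250541, false, false⟩,
 nat_lit 0, nat_lit 13106, nat_lit 0, nat_lit 0, nat_lit 6235, nat_lit 100000, nat_lit 1502, nat_lit 35, nat_lit 0, nat_lit 31169, nat_lit 5689, nat_lit 0, nat_lit 0, nat_lit 61900229337424, nat_lit 55, nat_lit 1000000, nat_lit 0, nat_lit 0, [(nat_lit 0, [(nat_lit 6, nat_lit 1000)])],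
 ⟨p002_k4, nat_lit 0, nat_lit 0, nat_lit 0, nat_lit 0, nat_lit 71756, [nat_lit 2618000001, nat_lit 1352800000, nat_lit 26400000], [], [nat_lit 13924068246, nat_lit 14001085800, nat_lit 13504148074, nat_lit 13577673308], nat_lit 1271250, nat_lit 1271250, nat_lit 0, nat_lit 21650, nat_lit 0, nat_lit 0, [nat_lit 1412500, nat_lit 1271250, nat_lit 1271250], [nat_lit 25, nat_lit 40, nat_lit 20, nat_lit 80]⟩, ⟨p002_k4, nat_lit 0, nat_lit 0, nat_lit 0, nat_lit 0, nat_lit 0, [nat_lit 113780000000, nat_lit 136536000000, nat_lit 159292000000], [], [nat_lit 177413503126, nat_lit 177938203125, nat_lit 169957361126, nat_lit 170481163125], nat_lit 0, nat_lit 0, nat_lit 0, nat_lit 0, nat_lit 0, nat_lit 0, [], [nat_lit 25, nat_lit 40, nat_lit 20, nat_lit 80]⟩,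
 ⟨nat_lit 6708, nat_lit 6727, ⟨.ofNat (nat_lit 88595), .ofNat (nat_lit 97231), .ofNat (nat_lit 89667), .ofNat (nat_lit 98303), .ofNat (nat_lit 89587), .ofNat (nat_lit 98203), .ofNat (nat_lit 90659), .ofNat (nat_lit 99275)⟩, ⟨.ofNat (nat_lit 0), .ofNat (nat_lit 0), .ofNat (nat_lit 0), .ofNat (nat_lit 0), .ofNat (nat_lit 0), .ofNat (nat_lit 0), .ofNat (nat_lit 0), .ofNat (nat_lit 0)⟩⟩, [⟨nat_lit 0, nat_lit 100, nat_lit 100, nat_lit 19, nat_lit 9958878485⟩]⟩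
noncomputable def p002_l62 : Lf2 := ⟨nat_lit 0, nat_lit 4, [nat_lit 38, nat_lit 5, nat_lit 5, nat_lit 20], true, nat_lit 0, nat_lit 0, nat_lit 0, nat_lit 0, ⟨nat_lit 0, nat_lit 0, nat_lit 1000, nat_lit 5, nat_lit 38, nat_lit 0, nat_lit 0, nat_lit 0, nat_lit 0, nat_lit 215, nat_lit 13067, nat_lit 243, nat_lit 66413916, nat_lit 0, nat_lit 0, nat_lit 250541, false, false⟩,
 nat_lit 0, nat_lit 100000, nat_lit 0, nat_lit 0, nat_lit 47574, nat_lit 0, nat_lit 16611, nat_lit 2003, nat_lit 0, nat_lit 0, nat_lit 0, nat_lit 0, nat_lit 0, nat_lit 132360476929041, nat_lit 0, nat_lit 406600, nat_lit 0, nat_lit 0, [(nat_lit 0, [(nat_lit 5, nat_lit 989), (nat_lit 6, nat_lit 11)])],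
 ⟨p002_k4, nat_lit 0, nat_lit 0, nat_lit 0, nat_lit 0, nat_lit 71756, [nat_lit 41453598001, nat_lit 47485940401, nat_lit 54574652800], [], [nat_lit 72172806353, nat_lit 72466027371, nat_lit 68772867305, nat_lit 68950458222], nat_lit 1271250, nat_lit 1271250, nat_lit 0, nat_lit 21650, nat_lit 0, nat_lit 0, [nat_lit 1412500, nat_lit 1271250, nat_lit 1271250], [nat_lit 25, nat_lit 40, nat_lit 20, nat_lit 80]⟩, C1.Rw.none,
 ⟨nat_lit 6708, nat_lit 6727, ⟨.ofNat (nat_lit 88595), .ofNat (nat_lit 97231), .ofNat (nat_lit 89667), .ofNat (nat_lit 98303), .ofNat (nat_lit 89587), .ofNat (nat_lit 98203), .ofNat (nat_lit 90659), .ofNat (nat_lit 99275)⟩, ⟨.ofNat (nat_lit 0), .ofNat (nat_lit 0), .ofNat (nat_lit 0), .ofNat (nat_lit 0), .ofNat (nat_lit 0), .ofNat (nat_lit 0), .ofNat (nat_lit 0), .ofNat (nat_lit 0)⟩⟩, [⟨nat_lit 0, nat_lit 100, nat_lit 100, nat_lit 20, nat_lit 4499872426⟩]⟩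
noncomputable def p002_l63 : Lf2 := ⟨nat_lit 0, nat_lit 4, [nat_lit 38, nat_lit 5, nat_lit 5, nat_lit 20], true, nat_lit 0, nat_lit 0, nat_lit 0, nat_lit 0, ⟨nat_lit 0, nat_lit 0, nat_lit 1000, nat_lit 5, nat_lit 41, nat_lit 0, nat_lit 0, nat_lit 0, nat_lit 0, nat_lit 215, nat_lit 16017, nat_lit 246, nat_lit 66302517, nat_lit 0, nat_lit 0, nat_lit 289196, false, false⟩,
 nat_lit 0, nat_lit 9701, nat_lit 0, nat_lit 0, nat_lit 4615, nat_lit 0, nat_lit 599, nat_lit 0, nat_lit 0, nat_lit 0, nat_lit 0, nat_lit 0, nat_lit 0, nat_lit 0, nat_lit 90, nat_lit 1000000, nat_lit 0, nat_lit 0, [(nat_lit 0, [(nat_lit 6, nat_lit 1000)])],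
 ⟨p002_k4, nat_lit 0, nat_lit 0, nat_lit 0, nat_lit 0, nat_lit 71756, [nat_lit 2618000001, nat_lit 1352800000, nat_lit 26400000], [], [nat_lit 13313039338, nat_lit 13361382285, nat_lit 13079939071, nat_lit 13130557599], nat_lit 1271250, nat_lit 1271250, nat_lit 21650, nat_lit 43600, nat_lit 0, nat_lit 0, [nat_lit 1412500, nat_lit 1271250, nat_lit 1271250], [nat_lit 25, nat_lit 40, nat_lit 20, nat_lit 80]⟩, C1.Rw.none,
 ⟨nat_lit 6708, nat_lit 6727, ⟨.ofNat (nat_lit 97231), .ofNat (nat_lit 105866), .ofNat (nat_lit 98303), .ofNat (nat_lit 106938), .ofNat (nat_lit 98203), .ofNat (nat_lit 106819), .ofNat (nat_lit 99275), .ofNat (nat_lit 107890)⟩, ⟨.ofNat (nat_lit 0), .ofNat (nat_lit 0), .ofNat (nat_lit 0), .ofNat (nat_lit 0), .ofNat (nat_lit 0), .ofNat (nat_lit 0), .ofNat (nat_lit 0), .ofNat (nat_lit 0)⟩⟩, []⟩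
noncomputable def p002_l64 : Lf2 := ⟨nat_lit 0, nat_lit 4, [nat_lit 38, nat_lit 5, nat_lit 5, nat_lit 20], true, nat_lit 0, nat_lit 0, nat_lit 0, nat_lit 0, ⟨nat_lit 0, nat_lit 0, nat_lit 1000, nat_lit 5, nat_lit 41, nat_lit 0, nat_lit 0, nat_lit 0, nat_lit 0, nat_lit 215, nat_lit 16017, nat_lit 246, nat_lit 66302517, nat_lit 0, nat_lit 0, nat_lit 289196, false, false⟩,
 nat_lit 0, nat_lit 100000, nat_lit 0, nat_lit 0, nat_lit 47574, nat_lit 0, nat_lit 8624, nat_lit 0, nat_lit 493, nat_lit 0, nat_lit 0, nat_lit 0, nat_lit 0, nat_lit 0, nat_lit 54, nat_lit 400000, nat_lit 41808421864, nat_lit 0, [(nat_lit 0, [(nat_lit 5, nat_lit 1000)])],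
 ⟨p002_k5, nat_lit 0, nat_lit 0, nat_lit 0, nat_lit 0, nat_lit 71756, [nat_lit 1606133334, nat_lit 1489066667, nat_lit 712400000, nat_lit 13600000], [], [nat_lit 2817533540, nat_lit 3033871993, nat_lit 0, nat_lit 216639134], nat_lit 1271250, nat_lit 1271250, nat_lit 21650, nat_lit 43600, nat_lit 0, nat_lit 0, [nat_lit 780000, nat_lit 1435000, nat_lit 1271250, nat_lit 1271250], [nat_lit 140, nat_lit 40, nat_lit 20, nat_lit 80]⟩, C1.Rw.none,
 ⟨nat_lit 6708, nat_lit 6727, ⟨.ofNat (nat_lit 97231), .ofNat (nat_lit 105866), .ofNat (nat_lit 98303), .ofNat (nat_lit 106938), .ofNat (nat_lit 98203), .ofNat (nat_lit 106819), .ofNat (nat_lit 99275), .ofNat (nat_lit 107890)⟩, ⟨.ofNat (nat_lit 0), .ofNat (nat_lit 0), .ofNat (nat_lit 0), .ofNat (nat_lit 0), .ofNat (nat_lit 0), .ofNat (nat_lit 0), .ofNat (nat_lit 0), .ofNat (nat_lit 0)⟩⟩, []⟩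
noncomputable def p002_l65 : Lf2 := ⟨nat_lit 0, nat_lit 4, [nat_lit 38, nat_lit 5, nat_lit 5, nat_lit 20], false, nat_lit 0, nat_lit 0, nat_lit 0, nat_lit 0, ⟨nat_lit 0, nat_lit 0, nat_lit 1000, nat_lit 5, nat_lit 41, nat_lit 0, nat_lit 0, nat_lit 0, nat_lit 0, nat_lit 215, nat_lit 16017, nat_lit 246, nat_lit 66302517, nat_lit 0, nat_lit 0, nat_lit 289196, false, false⟩,
 nat_lit 0, nat_lit 11554, nat_lit 0, nat_lit 0, nat_lit 5496, nat_lit 100000, nat_lit 1234, nat_lit 0, nat_lit 0, nat_lit 31125, nat_lit 5697, nat_lit 0, nat_lit 0, nat_lit 0, nat_lit 90, nat_lit 1000000, nat_lit 0, nat_lit 0, [(nat_lit 0, [(nat_lit 6, nat_lit 1000)])],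
 ⟨p002_k4, nat_lit 0, nat_lit 0, nat_lit 0, nat_lit 0, nat_lit 71756, [nat_lit 2618000001, nat_lit 1352800000, nat_lit 26400000], [], [nat_lit 12550670123, nat_lit 12595769435, nat_lit 12319754623, nat_lit 12364823272], nat_lit 1271250, nat_lit 1271250, nat_lit 21650, nat_lit 43600, nat_lit 0, nat_lit 0, [nat_lit 1412500, nat_lit 1271250, nat_lit 1271250], [nat_lit 25, nat_lit 40, nat_lit 20, nat_lit 80]⟩, ⟨p002_k4, nat_lit 0, nat_lit 0, nat_lit 0, nat_lit 0, nat_lit 0, [nat_lit 113940000000, nat_lit 136728000000, nat_lit 159516000000], [], [nat_lit 170446823626, nat_lit 170818025626, nat_lit 164389791626, nat_lit 164771238750], nat_lit 0, nat_lit 0, nat_lit 0, nat_lit 0, nat_lit 0, nat_lit 0, [], [nat_lit 25, nat_lit 40, nat_lit 20, nat_lit 80]⟩,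
 ⟨nat_lit 6708, nat_lit 6727, ⟨.ofNat (nat_lit 97231), .ofNat (nat_lit 105866), .ofNat (nat_lit 98303), .ofNat (nat_lit 106938), .ofNat (nat_lit 98203), .ofNat (nat_lit 106819), .ofNat (nat_lit 99275), .ofNat (nat_lit 107890)⟩, ⟨.ofNat (nat_lit 0), .ofNat (nat_lit 0), .ofNat (nat_lit 0), .ofNat (nat_lit 0), .ofNat (nat_lit 0), .ofNat (nat_lit 0), .ofNat (nat_lit 0), .ofNat (nat_lit 0)⟩⟩, []⟩
noncomputable def p002_l66 : Lf2 := ⟨nat_lit 0, nat_lit 4, [nat_lit 38, nat_lit 5, nat_lit 5, nat_lit 20], true, nat_lit 0, nat_lit 0, nat_lit 0, nat_lit 0, ⟨nat_lit 0, nat_lit 0, nat_lit 1000, nat_lit 5, nat_lit 41, nat_lit 0, nat_lit 0, nat_lit 0, nat_lit 0, nat_lit 215, nat_lit 16017, nat_lit 246, nat_lit 66302517, nat_lit 0, nat_lit 0, nat_lit 289196, false, false⟩,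
 nat_lit 0, nat_lit 100000, nat_lit 0, nat_lit 0, nat_lit 47574, nat_lit 0, nat_lit 16611, nat_lit 2003, nat_lit 0, nat_lit 0, nat_lit 0, nat_lit 0, nat_lit 0, nat_lit 0, nat_lit 0, nat_lit 406600, nat_lit 0, nat_lit 0, [(nat_lit 0, [(nat_lit 5, nat_lit 989), (nat_lit 6, nat_lit 11)])],
 ⟨p002_k4, nat_lit 0, nat_lit 0, nat_lit 0, nat_lit 0, nat_lit 71756, [nat_lit 41453598001, nat_lit 47485940401, nat_lit 54574652800], [], [nat_lit 68772867305, nat_lit 68950458222, nat_lit 66393444076, nat_lit 66567180516], nat_lit 1271250, nat_lit 1271250, nat_lit 21650, nat_lit 43600, nat_lit 0, nat_lit 0, [nat_lit 1412500, nat_lit 1271250, nat_lit 1271250], [nat_lit 25, nat_lit 40, nat_lit 20, nat_lit 80]⟩, C1.Rw.none,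
 ⟨nat_lit 6708, nat_lit 6727, ⟨.ofNat (nat_lit 97231), .ofNat (nat_lit 105866), .ofNat (nat_lit 98303), .ofNat (nat_lit 106938), .ofNat (nat_lit 98203), .ofNat (nat_lit 106819), .ofNat (nat_lit 99275), .ofNat (nat_lit 107890)⟩, ⟨.ofNat (nat_lit 0), .ofNat (nat_lit 0), .ofNat (nat_lit 0), .ofNat (nat_lit 0), .ofNat (nat_lit 0), .ofNat (nat_lit 0), .ofNat (nat_lit 0), .ofNat (nat_lit 0)⟩⟩, []⟩
noncomputable def b_NL_500_500_0_4 : St := ⟨false, nat_lit 1, nat_lit 0, nat_lit 1, nat_lit 20, nat_lit 218, nat_lit 220, nat_lit 218, nat_lit 220, nat_lit 0, nat_lit 8, nat_lit 0, nat_lit 0, nat_lit 0, nat_lit 0, nat_lit 0, nat_lit 0, nat_lit 8, nat_lit 16, nat_lit 380, nat_lit 460, nat_lit 0, nat_lit 800⟩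
theorem d_NL_500_500_0_4 (h : EB TB.env) : Dead b_NL_500_500_0_4 := chkB_sound0 h (T :=
(.spl (nat_lit 0) (nat_lit 219)
(.ord (.spl (nat_lit 2) (nat_lit 4)
(.spl (nat_lit 6) (nat_lit 12)
(.spl (nat_lit 7) (nat_lit 420)
(.leaf p002_l27)
(.spl (nat_lit 7) (nat_lit 440)
(.spl (nat_lit 8) (nat_lit 400)
(.leaf p002_l28)
(.leaf p002_l29))
(.leaf p002_l30)))
(.spl (nat_lit 7) (nat_lit 420)
(.leaf p002_l31)
(.spl (nat_lit 7) (nat_lit 440)
(.spl (nat_lit 8) (nat_lit 400)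
(.leaf p002_l32)
(.spl (nat_lit 8) (nat_lit 600)
(.leaf p002_l33)
(.leaf p002_l34)))
(.leaf p002_l35))))
(.spl (nat_lit 6) (nat_lit 12)
(.leaf p002_l36)
(.spl (nat_lit 7) (nat_lit 420)
(.leaf p002_l37)
(.spl (nat_lit 7) (nat_lit 440)
(.spl (nat_lit 8) (nat_lit 400)
(.leaf p002_l38)
(.leaf p002_l39))
(.leaf p002_l40))))))
(.spl (nat_lit 6) (nat_lit 12)
(.spl (nat_lit 2) (nat_lit 4)
(.spl (nat_lit 1) (nat_lit 219)
(.leaf p002_l41)
(.spl (nat_lit 7) (nat_lit 420)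
(.leaf p002_l42)
(.spl (nat_lit 7) (nat_lit 440)
(.spl (nat_lit 8) (nat_lit 400)
(.leaf p002_l43)
(.leaf p002_l44))
(.leaf p002_l45))))
(.spl (nat_lit 1) (nat_lit 219)
(.leaf p002_l46)
(.spl (nat_lit 7) (nat_lit 420)
(.leaf p002_l47)
(.spl (nat_lit 7) (nat_lit 440)
(.spl (nat_lit 8) (nat_lit 400)
(.leaf p002_l48)
(.leaf p002_l49))
(.leaf p002_l50)))))
(.spl (nat_lit 1) (nat_lit 219)
(.spl (nat_lit 2) (nat_lit 4)
(.spl (nat_lit 7) (nat_lit 420)
(.leaf p002_l51)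
(.spl (nat_lit 7) (nat_lit 440)
(.spl (nat_lit 8) (nat_lit 400)
(.leaf p002_l52)
(.leaf p002_l53))
(.leaf p002_l54)))
(.spl (nat_lit 7) (nat_lit 420)
(.leaf p002_l55)
(.spl (nat_lit 7) (nat_lit 440)
(.spl (nat_lit 8) (nat_lit 400)
(.leaf p002_l56)
(.leaf p002_l57))
(.leaf p002_l58))))
(.spl (nat_lit 2) (nat_lit 4)
(.spl (nat_lit 7) (nat_lit 420)
(.leaf p002_l59)
(.spl (nat_lit 7) (nat_lit 440)
(.spl (nat_lit 8) (nat_lit 400)
(.leaf p002_l60)
(.leaf p002_l61))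
(.leaf p002_l62)))
(.spl (nat_lit 7) (nat_lit 420)
(.leaf p002_l63)
(.spl (nat_lit 7) (nat_lit 440)
(.spl (nat_lit 8) (nat_lit 400)
(.leaf p002_l64)
(.leaf p002_l65))
(.leaf p002_l66)))))))) (by decide +kernel)
noncomputable def p002_l67 : Lf2 := ⟨nat_lit 0, nat_lit 5, [nat_lit 4, nat_lit 5, nat_lit 5, nat_lit 20], true, nat_lit 0, nat_lit 0, nat_lit 0, nat_lit 0, ⟨nat_lit 0, nat_lit 0, nat_lit 1000, nat_lit 5, nat_lit 37, nat_lit 0, nat_lit 0, nat_lit 0, nat_lit 0, nat_lit 215, nat_lit 13067, nat_lit 243, nat_lit 66439069, nat_lit 0, nat_lit 0, nat_lit 241597, false, false⟩,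
 nat_lit 0, nat_lit 9773, nat_lit 0, nat_lit 736, nat_lit 4624, nat_lit 0, nat_lit 605, nat_lit 0, nat_lit 0, nat_lit 0, nat_lit 0, nat_lit 0, nat_lit 0, nat_lit 1185340554840, nat_lit 90, nat_lit 1000000, nat_lit 0, nat_lit 0, [(nat_lit 0, [(nat_lit 6, nat_lit 1000)])],
 ⟨p002_k6, nat_lit 0, nat_lit 0, nat_lit 0, nat_lit 0, nat_lit 26494, [nat_lit 2618000001, nat_lit 1352800000, nat_lit 26400000], [], [nat_lit 13564555351, nat_lit 13623156779, nat_lit 13272997613, nat_lit 13320679633], nat_lit 1271250, nat_lit 1271250, nat_lit 0, nat_lit 21650, nat_lit 0, nat_lit 0, [nat_lit 1412500, nat_lit 1271250, nat_lit 1271250], [nat_lit 25, nat_lit 40, nat_lit 20, nat_lit 80]⟩, C1.Rw.none,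
 ⟨nat_lit 6726, nat_lit 6746, ⟨.ofNat (nat_lit 86528), .ofNat (nat_lit 95184), .ofNat (nat_lit 87601), .ofNat (nat_lit 96256), .ofNat (nat_lit 87523), .ofNat (nat_lit 96159), .ofNat (nat_lit 88595), .ofNat (nat_lit 97231)⟩, ⟨.ofNat (nat_lit 0), .ofNat (nat_lit 0), .ofNat (nat_lit 0), .ofNat (nat_lit 0), .ofNat (nat_lit 0), .ofNat (nat_lit 0), .ofNat (nat_lit 0), .ofNat (nat_lit 0)⟩⟩, [⟨nat_lit 0, nat_lit 100, nat_lit 100, nat_lit 19, nat_lit 484642797⟩]⟩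
noncomputable def p002_l68 : Lf2 := ⟨nat_lit 0, nat_lit 5, [nat_lit 4, nat_lit 5, nat_lit 5, nat_lit 20], true, nat_lit 0, nat_lit 0, nat_lit 0, nat_lit 0, ⟨nat_lit 0, nat_lit 0, nat_lit 1000, nat_lit 5, nat_lit 37, nat_lit 0, nat_lit 0, nat_lit 0, nat_lit 0, nat_lit 215, nat_lit 13067, nat_lit 243, nat_lit 66439069, nat_lit 0, nat_lit 0, nat_lit 241597, false, false⟩,
 nat_lit 0, nat_lit 100000, nat_lit 0, nat_lit 100000, nat_lit 47322, nat_lit 0, nat_lit 3636, nat_lit 0, nat_lit 1982, nat_lit 0, nat_lit 0, nat_lit 0, nat_lit 0, nat_lit 400000000000000, nat_lit 54, nat_lit 400000, nat_lit 100706007906, nat_lit 0, [(nat_lit 0, [(nat_lit 5, nat_lit 1000)])],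
 ⟨p002_k10, nat_lit 0, nat_lit 0, nat_lit 0, nat_lit 0, nat_lit 26494, [nat_lit 1606133334, nat_lit 1489066667, nat_lit 712400000, nat_lit 13600000], [], [nat_lit 2820218353, nat_lit 3026054773, nat_lit 0, nat_lit 207271771], nat_lit 1271250, nat_lit 1271250, nat_lit 0, nat_lit 21650, nat_lit 0, nat_lit 0, [nat_lit 780000, nat_lit 1435000, nat_lit 1271250, nat_lit 1271250], [nat_lit 140, nat_lit 40, nat_lit 20, nat_lit 80]⟩, C1.Rw.none,
 ⟨nat_lit 6726, nat_lit 6746, ⟨.ofNat (nat_lit 86528), .ofNat (nat_lit 95184), .ofNat (nat_lit 87601), .ofNat (nat_lit 96256), .ofNat (nat_lit 87523), .ofNat (nat_lit 96159), .ofNat (nat_lit 88595), .ofNat (nat_lit 97231)⟩, ⟨.ofNat (nat_lit 0), .ofNat (nat_lit 0), .ofNat (nat_lit 0), .ofNat (nat_lit 0), .ofNat (nat_lit 0), .ofNat (nat_lit 0), .ofNat (nat_lit 0), .ofNat (nat_lit 0)⟩⟩, [⟨nat_lit 0, nat_lit 100, nat_lit 100, nat_lit 18, nat_lit 10000000000⟩,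 ⟨nat_lit 0, nat_lit 100, nat_lit 100, nat_lit 19, nat_lit 10000000000⟩, ⟨nat_lit 0, nat_lit 100, nat_lit 100, nat_lit 18, nat_lit 10000000000⟩]⟩
noncomputable def p002_l69 : Lf2 := ⟨nat_lit 0, nat_lit 5, [nat_lit 4, nat_lit 5, nat_lit 5, nat_lit 20], true, nat_lit 0, nat_lit 0, nat_lit 0, nat_lit 0, ⟨nat_lit 0, nat_lit 0, nat_lit 1000, nat_lit 5, nat_lit 37, nat_lit 0, nat_lit 0, nat_lit 0, nat_lit 0, nat_lit 215, nat_lit 13067, nat_lit 243, nat_lit 66439069, nat_lit 0, nat_lit 0, nat_lit 241597, false, false⟩,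
 nat_lit 0, nat_lit 100000, nat_lit 0, nat_lit 100000, nat_lit 47322, nat_lit 0, nat_lit 3664, nat_lit 0, nat_lit 1970, nat_lit 0, nat_lit 0, nat_lit 0, nat_lit 0, nat_lit 400000000000000, nat_lit 54, nat_lit 400000, nat_lit 100220560684, nat_lit 0, [(nat_lit 0, [(nat_lit 5, nat_lit 1000)])],
 ⟨p002_k11, nat_lit 0, nat_lit 0, nat_lit 0, nat_lit 0, nat_lit 26494, [nat_lit 1672266667, nat_lit 1464488889, nat_lit 712400000, nat_lit 13600000], [], [nat_lit 2820218353, nat_lit 3026054773, nat_lit 0, nat_lit 206177850], nat_lit 1271250, nat_lit 1271250, nat_lit 0, nat_lit 21650, nat_lit 0, nat_lit 0, [nat_lit 631250, nat_lit 1431250, nat_lit 1271250, nat_lit 1271250], [nat_lit 130, nat_lit 40, nat_lit 20, nat_lit 40]⟩, C1.Rw.none,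
 ⟨nat_lit 6726, nat_lit 6746, ⟨.ofNat (nat_lit 86528), .ofNat (nat_lit 95184), .ofNat (nat_lit 87601), .ofNat (nat_lit 96256), .ofNat (nat_lit 87523), .ofNat (nat_lit 96159), .ofNat (nat_lit 88595), .ofNat (nat_lit 97231)⟩, ⟨.ofNat (nat_lit 0), .ofNat (nat_lit 0), .ofNat (nat_lit 0), .ofNat (nat_lit 0), .ofNat (nat_lit 0), .ofNat (nat_lit 0), .ofNat (nat_lit 0), .ofNat (nat_lit 0)⟩⟩, [⟨nat_lit 0, nat_lit 100, nat_lit 100, nat_lit 18, nat_lit 10000000000⟩, ⟨nat_lit 0, nat_lit 100, nat_lit 100, nat_lit 19, nat_lit 10000000000⟩, ⟨nat_lit 0, nat_lit 100, nat_lit 100, nat_lit 18, nat_lit 10000000000⟩]⟩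
noncomputable def p002_l70 : Lf2 := ⟨nat_lit 0, nat_lit 5, [nat_lit 4, nat_lit 5, nat_lit 5, nat_lit 20], true, nat_lit 0, nat_lit 0, nat_lit 0, nat_lit 0, ⟨nat_lit 0, nat_lit 0, nat_lit 1000, nat_lit 5, nat_lit 37, nat_lit 0, nat_lit 0, nat_lit 0, nat_lit 0, nat_lit 215, nat_lit 13067, nat_lit 243, nat_lit 66439069, nat_lit 0, nat_lit 0, nat_lit 241597, false, false⟩,
 nat_lit 0, nat_lit 100000, nat_lit 0, nat_lit 0, nat_lit 47322, nat_lit 0, nat_lit 16034, nat_lit 1983, nat_lit 0, nat_lit 0, nat_lit 0, nat_lit 0, nat_lit 0, nat_lit 0, nat_lit 0, nat_lit 377800, nat_lit 0, nat_lit 0, [(nat_lit 0, [(nat_lit 4, nat_lit 148), (nat_lit 5, nat_lit 852)])],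
 ⟨p002_k6, nat_lit 0, nat_lit 0, nat_lit 0, nat_lit 0, nat_lit 26494, [nat_lit 41344160000, nat_lit 47016747200, nat_lit 54062422400], [], [nat_lit 73178385400, nat_lit 73461023235, nat_lit 69822213912, nat_lit 69972628836], nat_lit 1271250, nat_lit 1271250, nat_lit 0, nat_lit 21650, nat_lit 0, nat_lit 0, [nat_lit 1412500, nat_lit 1271250, nat_lit 1271250], [nat_lit 25, nat_lit 40, nat_lit 20, nat_lit 80]⟩, C1.Rw.none,
 ⟨nat_lit 6726, nat_lit 6746, ⟨.ofNat (nat_lit 86528), .ofNat (nat_lit 95184), .ofNat (nat_lit 87601), .ofNat (nat_lit 96256), .ofNat (nat_lit 87523), .ofNat (nat_lit 96159), .ofNat (nat_lit 88595), .ofNat (nat_lit 97231)⟩, ⟨.ofNat (nat_lit 0), .ofNat (nat_lit 0), .ofNat (nat_lit 0), .ofNat (nat_lit 0), .ofNat (nat_lit 0), .ofNat (nat_lit 0), .ofNat (nat_lit 0), .ofNat (nat_lit 0)⟩⟩, [⟨nat_lit 0, nat_lit 100, nat_lit 100, nat_lit 19, nat_lit 4465651779⟩]⟩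
noncomputable def p002_l71 : Lf2 := ⟨nat_lit 0, nat_lit 5, [nat_lit 4, nat_lit 5, nat_lit 5, nat_lit 20], true, nat_lit 0, nat_lit 0, nat_lit 0, nat_lit 0, ⟨nat_lit 0, nat_lit 0, nat_lit 1000, nat_lit 5, nat_lit 37, nat_lit 0, nat_lit 0, nat_lit 0, nat_lit 0, nat_lit 215, nat_lit 13067, nat_lit 243, nat_lit 66420525, nat_lit 0, nat_lit 0, nat_lit 248198, false, false⟩,
 nat_lit 0, nat_lit 9701, nat_lit 0, nat_lit 560, nat_lit 4615, nat_lit 0, nat_lit 599, nat_lit 0, nat_lit 0, nat_lit 0, nat_lit 0, nat_lit 0, nat_lit 0, nat_lit 22695468095179, nat_lit 90, nat_lit 1000000, nat_lit 0, nat_lit 0, [(nat_lit 0, [(nat_lit 6, nat_lit 1000)])],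
 ⟨p002_k7, nat_lit 0, nat_lit 0, nat_lit 0, nat_lit 0, nat_lit 34716, [nat_lit 2618000001, nat_lit 1352800000, nat_lit 26400000], [], [nat_lit 13604605230, nat_lit 13663159435, nat_lit 13313039338, nat_lit 13361382285], nat_lit 1271250, nat_lit 1271250, nat_lit 0, nat_lit 21650, nat_lit 0, nat_lit 0, [nat_lit 1412500, nat_lit 1271250, nat_lit 1271250], [nat_lit 25, nat_lit 40, nat_lit 20, nat_lit 80]⟩, C1.Rw.none,
 ⟨nat_lit 6708, nat_lit 6727, ⟨.ofNat (nat_lit 87523), .ofNat (nat_lit 96159), .ofNat (nat_lit 89667), .ofNat (nat_lit 98303), .ofNat (nat_lit 88516), .ofNat (nat_lit 97131), .ofNat (nat_lit 90659), .ofNat (nat_lit 99275)⟩, ⟨.ofNat (nat_lit 0), .ofNat (nat_lit 0), .ofNat (nat_lit 0), .ofNat (nat_lit 0), .ofNat (nat_lit 0), .ofNat (nat_lit 0), .ofNat (nat_lit 0), .ofNat (nat_lit 0)⟩⟩, [⟨nat_lit 0, nat_lit 100, nat_lit 100, nat_lit 20, nat_lit 483175525⟩]⟩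
noncomputable def p002_l72 : Lf2 := ⟨nat_lit 0, nat_lit 5, [nat_lit 4, nat_lit 5, nat_lit 5, nat_lit 20], true, nat_lit 0, nat_lit 0, nat_lit 0, nat_lit 0, ⟨nat_lit 0, nat_lit 0, nat_lit 1000, nat_lit 5, nat_lit 37, nat_lit 0, nat_lit 0, nat_lit 0, nat_lit 0, nat_lit 215, nat_lit 13067, nat_lit 243, nat_lit 66427100, nat_lit 0, nat_lit 0, nat_lit 245859, false, false⟩,
 nat_lit 0, nat_lit 100000, nat_lit 0, nat_lit 100000, nat_lit 47574, nat_lit 0, nat_lit 5168, nat_lit 0, nat_lit 20000, nat_lit 0, nat_lit 0, nat_lit 0, nat_lit 0, nat_lit 0, nat_lit 54, nat_lit 400000, nat_lit 894728767132, nat_lit 0, [(nat_lit 0, [(nat_lit 5, nat_lit 1000)])],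
 ⟨p002_k8, nat_lit 0, nat_lit 0, nat_lit 0, nat_lit 0, nat_lit 30542, [nat_lit 1606133334, nat_lit 1489066667, nat_lit 712400000, nat_lit 13600000], [], [nat_lit 2828207408, nat_lit 3086048071, nat_lit 0, nat_lit 258076898], nat_lit 1271250, nat_lit 1271250, nat_lit 0, nat_lit 21650, nat_lit 0, nat_lit 0, [nat_lit 780000, nat_lit 1435000, nat_lit 1271250, nat_lit 1271250], [nat_lit 140, nat_lit 40, nat_lit 20, nat_lit 80]⟩, C1.Rw.none,
 ⟨nat_lit 6708, nat_lit 6727, ⟨.ofNat (nat_lit 87523), .ofNat (nat_lit 96159), .ofNat (nat_lit 88595), .ofNat (nat_lit 97231), .ofNat (nat_lit 88516), .ofNat (nat_lit 97131), .ofNat (nat_lit 89587), .ofNat (nat_lit 98203)⟩, ⟨.ofNat (nat_lit 0), .ofNat (nat_lit 0), .ofNat (nat_lit 0), .ofNat (nat_lit 0), .ofNat (nat_lit 0), .ofNat (nat_lit 0), .ofNat (nat_lit 0), .ofNat (nat_lit 0)⟩⟩, [⟨nat_lit 0, nat_lit 100, nat_lit 100, nat_lit 19, nat_lit 10000000000⟩,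 ⟨nat_lit 0, nat_lit 100, nat_lit 100, nat_lit 19, nat_lit 10000000000⟩, ⟨nat_lit 0, nat_lit 100, nat_lit 100, nat_lit 18, nat_lit 10000000000⟩]⟩
noncomputable def p002_l73 : Lf2 := ⟨nat_lit 0, nat_lit 5, [nat_lit 4, nat_lit 5, nat_lit 5, nat_lit 20], true, nat_lit 0, nat_lit 0, nat_lit 0, nat_lit 0, ⟨nat_lit 0, nat_lit 0, nat_lit 1000, nat_lit 5, nat_lit 37, nat_lit 0, nat_lit 0, nat_lit 0, nat_lit 0, nat_lit 215, nat_lit 13067, nat_lit 243, nat_lit 66427100, nat_lit 0, nat_lit 0, nat_lit 245859, false, false⟩,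
 nat_lit 0, nat_lit 100000, nat_lit 0, nat_lit 100000, nat_lit 47574, nat_lit 0, nat_lit 5197, nat_lit 0, nat_lit 1344, nat_lit 0, nat_lit 0, nat_lit 0, nat_lit 0, nat_lit 0, nat_lit 54, nat_lit 400000, nat_lit 73861226443, nat_lit 0, [(nat_lit 0, [(nat_lit 5, nat_lit 1000)])],
 ⟨p002_k9, nat_lit 0, nat_lit 0, nat_lit 0, nat_lit 0, nat_lit 30542, [nat_lit 1672266667, nat_lit 1464488889, nat_lit 712400000, nat_lit 13600000], [], [nat_lit 2835140644, nat_lit 3041910497, nat_lit 0, nat_lit 208027181], nat_lit 1271250, nat_lit 1271250, nat_lit 0, nat_lit 21650, nat_lit 0, nat_lit 0, [nat_lit 631250, nat_lit 1431250, nat_lit 1271250, nat_lit 1271250], [nat_lit 130, nat_lit 40, nat_lit 20, nat_lit 40]⟩, C1.Rw.none,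
 ⟨nat_lit 6708, nat_lit 6727, ⟨.ofNat (nat_lit 87523), .ofNat (nat_lit 96159), .ofNat (nat_lit 88595), .ofNat (nat_lit 97231), .ofNat (nat_lit 88516), .ofNat (nat_lit 97131), .ofNat (nat_lit 89587), .ofNat (nat_lit 98203)⟩, ⟨.ofNat (nat_lit 0), .ofNat (nat_lit 0), .ofNat (nat_lit 0), .ofNat (nat_lit 0), .ofNat (nat_lit 0), .ofNat (nat_lit 0), .ofNat (nat_lit 0), .ofNat (nat_lit 0)⟩⟩, [⟨nat_lit 0, nat_lit 100, nat_lit 100, nat_lit 19, nat_lit 10000000000⟩, ⟨nat_lit 0, nat_lit 100, nat_lit 100, nat_lit 19, nat_lit 10000000000⟩, ⟨nat_lit 0, nat_lit 100, nat_lit 100, nat_lit 18, nat_lit 10000000000⟩]⟩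
noncomputable def p002_l74 : Lf2 := ⟨nat_lit 0, nat_lit 5, [nat_lit 4, nat_lit 5, nat_lit 5, nat_lit 20], true, nat_lit 0, nat_lit 0, nat_lit 0, nat_lit 0, ⟨nat_lit 0, nat_lit 0, nat_lit 1000, nat_lit 5, nat_lit 38, nat_lit 0, nat_lit 0, nat_lit 0, nat_lit 0, nat_lit 215, nat_lit 13067, nat_lit 243, nat_lit 66413916, nat_lit 0, nat_lit 0, nat_lit 250541, false, false⟩,
 nat_lit 0, nat_lit 100000, nat_lit 0, nat_lit 100000, nat_lit 47574, nat_lit 0, nat_lit 2845, nat_lit 0, nat_lit 20000, nat_lit 0, nat_lit 0, nat_lit 0, nat_lit 0, nat_lit 400000000000000, nat_lit 54, nat_lit 400000, nat_lit 892971998382, nat_lit 0, [(nat_lit 0, [(nat_lit 5, nat_lit 1000)])],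
 ⟨p002_k8, nat_lit 0, nat_lit 0, nat_lit 0, nat_lit 0, nat_lit 34716, [nat_lit 1606133334, nat_lit 1489066667, nat_lit 712400000, nat_lit 13600000], [], [nat_lit 2828207408, nat_lit 3086048071, nat_lit 0, nat_lit 258076898], nat_lit 1271250, nat_lit 1271250, nat_lit 0, nat_lit 21650, nat_lit 0, nat_lit 0, [nat_lit 780000, nat_lit 1435000, nat_lit 1271250, nat_lit 1271250], [nat_lit 140, nat_lit 40, nat_lit 20, nat_lit 80]⟩, C1.Rw.none,
 ⟨nat_lit 6708, nat_lit 6727, ⟨.ofNat (nat_lit 88595), .ofNat (nat_lit 97231), .ofNat (nat_lit 89667), .ofNat (nat_lit 98303), .ofNat (nat_lit 89587), .ofNat (nat_lit 98203), .ofNat (nat_lit 90659), .ofNat (nat_lit 99275)⟩, ⟨.ofNat (nat_lit 0), .ofNat (nat_lit 0), .ofNat (nat_lit 0), .ofNat (nat_lit 0), .ofNat (nat_lit 0), .ofNat (nat_lit 0), .ofNat (nat_lit 0), .ofNat (nat_lit 0)⟩⟩, [⟨nat_lit 0, nat_lit 100, nat_lit 100, nat_lit 19, nat_lit 10000000000⟩,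 ⟨nat_lit 0, nat_lit 100, nat_lit 100, nat_lit 20, nat_lit 10000000000⟩, ⟨nat_lit 0, nat_lit 100, nat_lit 100, nat_lit 19, nat_lit 10000000000⟩]⟩
noncomputable def p002_l75 : Lf2 := ⟨nat_lit 0, nat_lit 5, [nat_lit 4, nat_lit 5, nat_lit 5, nat_lit 20], true, nat_lit 0, nat_lit 0, nat_lit 0, nat_lit 0, ⟨nat_lit 0, nat_lit 0, nat_lit 1000, nat_lit 5, nat_lit 38, nat_lit 0, nat_lit 0, nat_lit 0, nat_lit 0, nat_lit 215, nat_lit 13067, nat_lit 243, nat_lit 66413916, nat_lit 0, nat_lit 0, nat_lit 250541, false, false⟩,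
 nat_lit 0, nat_lit 100000, nat_lit 0, nat_lit 100000, nat_lit 47574, nat_lit 0, nat_lit 2875, nat_lit 0, nat_lit 2296, nat_lit 0, nat_lit 0, nat_lit 0, nat_lit 0, nat_lit 400000000000000, nat_lit 54, nat_lit 400000, nat_lit 113991682693, nat_lit 0, [(nat_lit 0, [(nat_lit 5, nat_lit 1000)])],
 ⟨p002_k9, nat_lit 0, nat_lit 0, nat_lit 0, nat_lit 0, nat_lit 34716, [nat_lit 1672266667, nat_lit 1464488889, nat_lit 712400000, nat_lit 13600000], [], [nat_lit 2835140644, nat_lit 3041910497, nat_lit 0, nat_lit 207113280], nat_lit 1271250, nat_lit 1271250, nat_lit 0, nat_lit 21650, nat_lit 0, nat_lit 0, [nat_lit 631250, nat_lit 1431250, nat_lit 1271250, nat_lit 1271250], [nat_lit 130, nat_lit 40, nat_lit 20, nat_lit 40]⟩, C1.Rw.none,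
 ⟨nat_lit 6708, nat_lit 6727, ⟨.ofNat (nat_lit 88595), .ofNat (nat_lit 97231), .ofNat (nat_lit 89667), .ofNat (nat_lit 98303), .ofNat (nat_lit 89587), .ofNat (nat_lit 98203), .ofNat (nat_lit 90659), .ofNat (nat_lit 99275)⟩, ⟨.ofNat (nat_lit 0), .ofNat (nat_lit 0), .ofNat (nat_lit 0), .ofNat (nat_lit 0), .ofNat (nat_lit 0), .ofNat (nat_lit 0), .ofNat (nat_lit 0), .ofNat (nat_lit 0)⟩⟩, [⟨nat_lit 0, nat_lit 100, nat_lit 100, nat_lit 19, nat_lit 10000000000⟩, ⟨nat_lit 0, nat_lit 100, nat_lit 100, nat_lit 20, nat_lit 10000000000⟩, ⟨nat_lit 0, nat_lit 100, nat_lit 100, nat_lit 19, nat_lit 10000000000⟩]⟩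
noncomputable def p002_l76 : Lf2 := ⟨nat_lit 0, nat_lit 5, [nat_lit 4, nat_lit 5, nat_lit 5, nat_lit 20], true, nat_lit 0, nat_lit 0, nat_lit 0, nat_lit 0, ⟨nat_lit 0, nat_lit 0, nat_lit 1000, nat_lit 5, nat_lit 37, nat_lit 0, nat_lit 0, nat_lit 0, nat_lit 0, nat_lit 215, nat_lit 13067, nat_lit 243, nat_lit 66420525, nat_lit 0, nat_lit 0, nat_lit 248198, false, false⟩,
 nat_lit 0, nat_lit 100000, nat_lit 0, nat_lit 128, nat_lit 47574, nat_lit 0, nat_lit 16383, nat_lit 2013, nat_lit 0, nat_lit 0, nat_lit 0, nat_lit 0, nat_lit 0, nat_lit 0, nat_lit 0, nat_lit 400000, nat_lit 0, nat_lit 0, [(nat_lit 0, [(nat_lit 5, nat_lit 1000)])],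
 ⟨p002_k7, nat_lit 0, nat_lit 0, nat_lit 0, nat_lit 0, nat_lit 34716, [nat_lit 41660000000, nat_lit 47728400001, nat_lit 54865600000], [], [nat_lit 73010241053, nat_lit 73294201131, nat_lit 69630764830, nat_lit 69787892922], nat_lit 1271250, nat_lit 1271250, nat_lit 0, nat_lit 21650, nat_lit 0, nat_lit 0, [nat_lit 1412500, nat_lit 1271250, nat_lit 1271250], [nat_lit 25, nat_lit 40, nat_lit 20, nat_lit 80]⟩, C1.Rw.none,
 ⟨nat_lit 6708, nat_lit 6727, ⟨.ofNat (nat_lit 87523), .ofNat (nat_lit 96159), .ofNat (nat_lit 89667), .ofNat (nat_lit 98303), .ofNat (nat_lit 88516), .ofNat (nat_lit 97131), .ofNat (nat_lit 90659), .ofNat (nat_lit 99275)⟩, ⟨.ofNat (nat_lit 0), .ofNat (nat_lit 0), .ofNat (nat_lit 0), .ofNat (nat_lit 0), .ofNat (nat_lit 0), .ofNat (nat_lit 0), .ofNat (nat_lit 0), .ofNat (nat_lit 0)⟩⟩, [⟨nat_lit 0, nat_lit 100, nat_lit 100, nat_lit 20, nat_lit 4487503427⟩]⟩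
noncomputable def p002_l77 : Lf2 := ⟨nat_lit 0, nat_lit 5, [nat_lit 4, nat_lit 5, nat_lit 5, nat_lit 20], true, nat_lit 0, nat_lit 0, nat_lit 0, nat_lit 0, ⟨nat_lit 0, nat_lit 0, nat_lit 1000, nat_lit 5, nat_lit 40, nat_lit 0, nat_lit 0, nat_lit 0, nat_lit 0, nat_lit 215, nat_lit 15000, nat_lit 245, nat_lit 66329652, nat_lit 0, nat_lit 0, nat_lit 279914, false, false⟩,
 nat_lit 0, nat_lit 9773, nat_lit 0, nat_lit 736, nat_lit 4624, nat_lit 0, nat_lit 605, nat_lit 0, nat_lit 0, nat_lit 0, nat_lit 0, nat_lit 0, nat_lit 0, nat_lit 0, nat_lit 90, nat_lit 1000000, nat_lit 0, nat_lit 0, [(nat_lit 0, [(nat_lit 6, nat_lit 1000)])],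
 ⟨p002_k6, nat_lit 0, nat_lit 0, nat_lit 0, nat_lit 0, nat_lit 26494, [nat_lit 2618000001, nat_lit 1352800000, nat_lit 26400000], [], [nat_lit 13272997613, nat_lit 13320679633, nat_lit 13039348951, nat_lit 13089150330], nat_lit 1271250, nat_lit 1271250, nat_lit 21650, nat_lit 43600, nat_lit 0, nat_lit 0, [nat_lit 1412500, nat_lit 1271250, nat_lit 1271250], [nat_lit 25, nat_lit 40, nat_lit 20, nat_lit 80]⟩, C1.Rw.none,
 ⟨nat_lit 6726, nat_lit 6746, ⟨.ofNat (nat_lit 95184), .ofNat (nat_lit 103839), .ofNat (nat_lit 96256), .ofNat (nat_lit 104912), .ofNat (nat_lit 96159), .ofNat (nat_lit 104794), .ofNat (nat_lit 97231), .ofNat (nat_lit 105866)⟩, ⟨.ofNat (nat_lit 0), .ofNat (nat_lit 0), .ofNat (nat_lit 0), .ofNat (nat_lit 0), .ofNat (nat_lit 0), .ofNat (nat_lit 0), .ofNat (nat_lit 0), .ofNat (nat_lit 0)⟩⟩, []⟩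
noncomputable def p002_l78 : Lf2 := ⟨nat_lit 0, nat_lit 5, [nat_lit 4, nat_lit 5, nat_lit 5, nat_lit 20], true, nat_lit 0, nat_lit 0, nat_lit 0, nat_lit 0, ⟨nat_lit 0, nat_lit 0, nat_lit 1000, nat_lit 5, nat_lit 41, nat_lit 0, nat_lit 0, nat_lit 0, nat_lit 0, nat_lit 215, nat_lit 16017, nat_lit 246, nat_lit 66309713, nat_lit 0, nat_lit 0, nat_lit 286743, false, false⟩,
 nat_lit 0, nat_lit 9701, nat_lit 0, nat_lit 560, nat_lit 4615, nat_lit 0, nat_lit 599, nat_lit 0, nat_lit 0, nat_lit 0, nat_lit 0, nat_lit 0, nat_lit 0, nat_lit 26501697892666, nat_lit 90, nat_lit 1000000, nat_lit 0, nat_lit 0, [(nat_lit 0, [(nat_lit 6, nat_lit 1000)])],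
 ⟨p002_k7, nat_lit 0, nat_lit 0, nat_lit 0, nat_lit 0, nat_lit 34716, [nat_lit 2618000001, nat_lit 1352800000, nat_lit 26400000], [], [nat_lit 13313039338, nat_lit 13361382285, nat_lit 13079939071, nat_lit 13130557599], nat_lit 1271250, nat_lit 1271250, nat_lit 21650, nat_lit 43600, nat_lit 0, nat_lit 0, [nat_lit 1412500, nat_lit 1271250, nat_lit 1271250], [nat_lit 25, nat_lit 40, nat_lit 20, nat_lit 80]⟩, C1.Rw.none,
 ⟨nat_lit 6708, nat_lit 6727, ⟨.ofNat (nat_lit 96159), .ofNat (nat_lit 104794), .ofNat (nat_lit 98303), .ofNat (nat_lit 106938), .ofNat (nat_lit 97131), .ofNat (nat_lit 105747), .ofNat (nat_lit 99275), .ofNat (nat_lit 107890)⟩, ⟨.ofNat (nat_lit 0), .ofNat (nat_lit 0), .ofNat (nat_lit 0), .ofNat (nat_lit 0), .ofNat (nat_lit 0), .ofNat (nat_lit 0), .ofNat (nat_lit 0), .ofNat (nat_lit 0)⟩⟩, []⟩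
noncomputable def b_NL_500_500_0_5 : St := ⟨false, nat_lit 1, nat_lit 0, nat_lit 1, nat_lit 20, nat_lit 218, nat_lit 220, nat_lit 218, nat_lit 220, nat_lit 0, nat_lit 8, nat_lit 0, nat_lit 0, nat_lit 0, nat_lit 0, nat_lit 0, nat_lit 0, nat_lit 16, nat_lit 20, nat_lit 380, nat_lit 460, nat_lit 0, nat_lit 800⟩
theorem d_NL_500_500_0_5 (h : EB TB.env) : Dead b_NL_500_500_0_5 := chkB_sound0 h (T :=
(.spl (nat_lit 2) (nat_lit 4)
(.spl (nat_lit 0) (nat_lit 219)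
(.ord (.spl (nat_lit 7) (nat_lit 420)
(.leaf p002_l67)
(.spl (nat_lit 7) (nat_lit 440)
(.spl (nat_lit 8) (nat_lit 400)
(.leaf p002_l68)
(.leaf p002_l69))
(.leaf p002_l70))))
(.spl (nat_lit 7) (nat_lit 420)
(.leaf p002_l71)
(.spl (nat_lit 7) (nat_lit 440)
(.spl (nat_lit 1) (nat_lit 219)
(.spl (nat_lit 8) (nat_lit 400)
(.leaf p002_l72)
(.leaf p002_l73))
(.spl (nat_lit 8) (nat_lit 400)
(.leaf p002_l74)
(.leaf p002_l75)))
(.leaf p002_l76))))
(.spl (nat_lit 0) (nat_lit 219)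
(.ord (.leaf p002_l77))
(.leaf p002_l78)))) (by decide +kernel)
noncomputable def p002_l79 : Lf2 := ⟨nat_lit 0, nat_lit 2, [nat_lit 10, nat_lit 5, nat_lit 5, nat_lit 20], true, nat_lit 0, nat_lit 0, nat_lit 0, nat_lit 0, ⟨nat_lit 0, nat_lit 0, nat_lit 1000, nat_lit 5, nat_lit 63, nat_lit 0, nat_lit 0, nat_lit 0, nat_lit 0, nat_lit 215, nat_lit 36817, nat_lit 262, nat_lit 65368951, nat_lit 0, nat_lit 0, nat_lit 572437, false, false⟩,
 nat_lit 0, nat_lit 2074, nat_lit 0, nat_lit 0, nat_lit 888, nat_lit 0, nat_lit 0, nat_lit 0, nat_lit 233, nat_lit 0, nat_lit 0, nat_lit 0, nat_lit 0, nat_lit 14168706286009, nat_lit 90, nat_lit 1000000, nat_lit 0, nat_lit 0, [(nat_lit 0, [(nat_lit 6, nat_lit 1000)])],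
 ⟨p002_k16, nat_lit 0, nat_lit 0, nat_lit 0, nat_lit 0, nat_lit 225295, [nat_lit 2618000001, nat_lit 1352800000, nat_lit 26400000], [], [nat_lit 6125408706, nat_lit 6729759938, nat_lit 7873183810, nat_lit 7465687570], nat_lit 1271250, nat_lit 1271250, nat_lit 0, nat_lit 490000, nat_lit 0, nat_lit 0, [nat_lit 1412500, nat_lit 1271250, nat_lit 1271250], [nat_lit 25, nat_lit 40, nat_lit 20, nat_lit 80]⟩, C1.Rw.none,
 ⟨nat_lit 6708, nat_lit 7072, ⟨.ofNat (nat_lit 48814), .ofNat (nat_lit 229288), .ofNat (nat_lit 70362), .ofNat (nat_lit 250836), .ofNat (nat_lit 69221), .ofNat (nat_lit 241532), .ofNat (nat_lit 90659), .ofNat (nat_lit 262970)⟩, ⟨.ofNat (nat_lit 0), .ofNat (nat_lit 0), .ofNat (nat_lit 0), .ofNat (nat_lit 0), .ofNat (nat_lit 0), .ofNat (nat_lit 0), .ofNat (nat_lit 0), .ofNat (nat_lit 0)⟩⟩, [⟨nat_lit 0, nat_lit 100, nat_lit 100, nat_lit 10, nat_lit 11204350⟩]⟩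
noncomputable def p002_l80 : Lf2 := ⟨nat_lit 0, nat_lit 2, [nat_lit 10, nat_lit 5, nat_lit 5, nat_lit 20], true, nat_lit 0, nat_lit 0, nat_lit 0, nat_lit 0, ⟨nat_lit 0, nat_lit 0, nat_lit 1000, nat_lit 5, nat_lit 40, nat_lit 0, nat_lit 0, nat_lit 0, nat_lit 0, nat_lit 215, nat_lit 15000, nat_lit 245, nat_lit 66350181, nat_lit 0, nat_lit 0, nat_lit 272840, false, false⟩,
 nat_lit 0, nat_lit 13015, nat_lit 0, nat_lit 0, nat_lit 5577, nat_lit 0, nat_lit 1861, nat_lit 0, nat_lit 0, nat_lit 0, nat_lit 0, nat_lit 0, nat_lit 0, nat_lit 27793411795364, nat_lit 67, nat_lit 1000000, nat_lit 0, nat_lit 0, [(nat_lit 0, [(nat_lit 6, nat_lit 1000)])],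
 ⟨p002_k17, nat_lit 0, nat_lit 0, nat_lit 0, nat_lit 0, nat_lit 97828, [nat_lit 2158000000, nat_lit 1318400001, nat_lit 283199999], [], [nat_lit 12441408149, nat_lit 12569518389, nat_lit 12811720721, nat_lit 12111946646], nat_lit 1271250, nat_lit 1271250, nat_lit 0, nat_lit 230001, nat_lit 0, nat_lit 0, [nat_lit 1412500, nat_lit 1271250, nat_lit 1271250], [nat_lit 163, nat_lit 40, nat_lit 20, nat_lit 40]⟩, C1.Rw.none,
 ⟨nat_lit 6982, nat_lit 7072, ⟨.ofNat (nat_lit 48814), .ofNat (nat_lit 139051), .ofNat (nat_lit 54201), .ofNat (nat_lit 144438), .ofNat (nat_lit 54013), .ofNat (nat_lit 143210), .ofNat (nat_lit 59392), .ofNat (nat_lit 148589)⟩, ⟨.ofNat (nat_lit 0), .ofNat (nat_lit 0), .ofNat (nat_lit 0), .ofNat (nat_lit 0), .ofNat (nat_lit 0), .ofNat (nat_lit 0), .ofNat (nat_lit 0), .ofNat (nat_lit 0)⟩⟩, [⟨nat_lit 0, nat_lit 100, nat_lit 100, nat_lit 5, nat_lit 145288947⟩]⟩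
noncomputable def p002_l81 : Lf2 := ⟨nat_lit 0, nat_lit 2, [nat_lit 10, nat_lit 5, nat_lit 5, nat_lit 20], true, nat_lit 0, nat_lit 0, nat_lit 0, nat_lit 0, ⟨nat_lit 0, nat_lit 0, nat_lit 1000, nat_lit 5, nat_lit 43, nat_lit 0, nat_lit 0, nat_lit 0, nat_lit 0, nat_lit 215, nat_lit 17067, nat_lit 247, nat_lit 66251422, nat_lit 0, nat_lit 0, nat_lit 306450, false, false⟩,
 nat_lit 0, nat_lit 12479, nat_lit 0, nat_lit 0, nat_lit 5501, nat_lit 0, nat_lit 1768, nat_lit 0, nat_lit 0, nat_lit 0, nat_lit 0, nat_lit 0, nat_lit 0, nat_lit 26692624371367, nat_lit 67, nat_lit 1000000, nat_lit 0, nat_lit 0, [(nat_lit 0, [(nat_lit 6, nat_lit 1000)])],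
 ⟨p002_k18, nat_lit 0, nat_lit 0, nat_lit 0, nat_lit 0, nat_lit 134906, [nat_lit 2158000000, nat_lit 1318400001, nat_lit 283199999], [], [nat_lit 12515280045, nat_lit 12753820153, nat_lit 12074744386, nat_lit 11384506411], nat_lit 1271250, nat_lit 1271250, nat_lit 0, nat_lit 230001, nat_lit 0, nat_lit 0, [nat_lit 1412500, nat_lit 1271250, nat_lit 1271250], [nat_lit 163, nat_lit 40, nat_lit 20, nat_lit 40]⟩, C1.Rw.none,
 ⟨nat_lit 6892, nat_lit 6983, ⟨.ofNat (nat_lit 54013), .ofNat (nat_lit 143210), .ofNat (nat_lit 64772), .ofNat (nat_lit 153969), .ofNat (nat_lit 59146), .ofNat (nat_lit 147316), .ofNat (nat_lit 69890), .ofNat (nat_lit 158060)⟩, ⟨.ofNat (nat_lit 0), .ofNat (nat_lit 0), .ofNat (nat_lit 0), .ofNat (nat_lit 0), .ofNat (nat_lit 0), .ofNat (nat_lit 0), .ofNat (nat_lit 0), .ofNat (nat_lit 0)⟩⟩, [⟨nat_lit 0, nat_lit 100, nat_lit 100, nat_lit 10, nat_lit 256032253⟩]⟩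
noncomputable def p002_l82 : Lf2 := ⟨nat_lit 0, nat_lit 2, [nat_lit 10, nat_lit 5, nat_lit 5, nat_lit 20], true, nat_lit 0, nat_lit 0, nat_lit 0, nat_lit 0, ⟨nat_lit 0, nat_lit 0, nat_lit 1000, nat_lit 5, nat_lit 45, nat_lit 0, nat_lit 0, nat_lit 0, nat_lit 0, nat_lit 215, nat_lit 18150, nat_lit 248, nat_lit 66176045, nat_lit 0, nat_lit 0, nat_lit 331419, false, false⟩,
 nat_lit 0, nat_lit 11966, nat_lit 0, nat_lit 0, nat_lit 5423, nat_lit 0, nat_lit 1643, nat_lit 0, nat_lit 0, nat_lit 0, nat_lit 0, nat_lit 0, nat_lit 0, nat_lit 25763454436888, nat_lit 67, nat_lit 1000000, nat_lit 0, nat_lit 0, [(nat_lit 0, [(nat_lit 6, nat_lit 1000)])],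
 ⟨p002_k19, nat_lit 0, nat_lit 0, nat_lit 0, nat_lit 0, nat_lit 155247, [nat_lit 2158000000, nat_lit 1318400001, nat_lit 283199999], [], [nat_lit 12715277297, nat_lit 12857600708, nat_lit 11374569431, nat_lit 11110588360], nat_lit 1271250, nat_lit 1271250, nat_lit 0, nat_lit 230001, nat_lit 0, nat_lit 0, [nat_lit 1412500, nat_lit 1271250, nat_lit 1271250], [nat_lit 163, nat_lit 40, nat_lit 20, nat_lit 40]⟩, C1.Rw.none,
 ⟨nat_lit 6837, nat_lit 6893, ⟨.ofNat (nat_lit 59146), .ofNat (nat_lit 147316), .ofNat (nat_lit 73113), .ofNat (nat_lit 161284), .ofNat (nat_lit 62194), .ofNat (nat_lit 149755), .ofNat (nat_lit 76151), .ofNat (nat_lit 163712)⟩, ⟨.ofNat (nat_lit 0), .ofNat (nat_lit 0), .ofNat (nat_lit 0), .ofNat (nat_lit 0), .ofNat (nat_lit 0), .ofNat (nat_lit 0), .ofNat (nat_lit 0), .ofNat (nat_lit 0)⟩⟩, [⟨nat_lit 0, nat_lit 100, nat_lit 100, nat_lit 13, nat_lit 325307459⟩]⟩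
noncomputable def p002_l83 : Lf2 := ⟨nat_lit 0, nat_lit 2, [nat_lit 10, nat_lit 5, nat_lit 5, nat_lit 20], true, nat_lit 0, nat_lit 0, nat_lit 0, nat_lit 0, ⟨nat_lit 0, nat_lit 0, nat_lit 1000, nat_lit 5, nat_lit 46, nat_lit 0, nat_lit 0, nat_lit 0, nat_lit 0, nat_lit 215, nat_lit 19267, nat_lit 249, nat_lit 66126483, nat_lit 0, nat_lit 0, nat_lit 347546, false, false⟩,
 nat_lit 0, nat_lit 8378, nat_lit 0, nat_lit 0, nat_lit 3859, nat_lit 0, nat_lit 595, nat_lit 0, nat_lit 0, nat_lit 0, nat_lit 0, nat_lit 0, nat_lit 0, nat_lit 21242604319501, nat_lit 67, nat_lit 1000000, nat_lit 0, nat_lit 0, [(nat_lit 0, [(nat_lit 6, nat_lit 1000)])],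
 ⟨p002_k20, nat_lit 0, nat_lit 0, nat_lit 0, nat_lit 0, nat_lit 168396, [nat_lit 1761200000, nat_lit 1920000000, nat_lit 1318400001, nat_lit 800800000, nat_lit 4400000], [], [nat_lit 13620223957, nat_lit 13710032983, nat_lit 12542734847, nat_lit 12631102813], nat_lit 1271250, nat_lit 1271250, nat_lit 0, nat_lit 230001, nat_lit 0, nat_lit 0, [nat_lit 936250, nat_lit 1271250, nat_lit 1271250, nat_lit 1271250, nat_lit 1271250], [nat_lit 231, nat_lit 40, nat_lit 20, nat_lit 40]⟩, C1.Rw.none,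
 ⟨nat_lit 6800, nat_lit 6838, ⟨.ofNat (nat_lit 62194), .ofNat (nat_lit 149755), .ofNat (nat_lit 78299), .ofNat (nat_lit 165859), .ofNat (nat_lit 64214), .ofNat (nat_lit 151371), .ofNat (nat_lit 80311), .ofNat (nat_lit 167468)⟩, ⟨.ofNat (nat_lit 0), .ofNat (nat_lit 0), .ofNat (nat_lit 0), .ofNat (nat_lit 0), .ofNat (nat_lit 0), .ofNat (nat_lit 0), .ofNat (nat_lit 0), .ofNat (nat_lit 0)⟩⟩, [⟨nat_lit 0, nat_lit 100, nat_lit 100, nat_lit 15, nat_lit 241663451⟩]⟩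
noncomputable def p002_l84 : Lf2 := ⟨nat_lit 0, nat_lit 2, [nat_lit 10, nat_lit 5, nat_lit 5, nat_lit 20], true, nat_lit 0, nat_lit 0, nat_lit 0, nat_lit 0, ⟨nat_lit 0, nat_lit 0, nat_lit 1000, nat_lit 5, nat_lit 48, nat_lit 0, nat_lit 0, nat_lit 0, nat_lit 0, nat_lit 215, nat_lit 21600, nat_lit 251, nat_lit 66067523, nat_lit 0, nat_lit 0, nat_lit 366451, false, false⟩,
 nat_lit 0, nat_lit 11051, nat_lit 0, nat_lit 0, nat_lit 5146, nat_lit 0, nat_lit 2028, nat_lit 0, nat_lit 0, nat_lit 0, nat_lit 0, nat_lit 0, nat_lit 0, nat_lit 25821973017205, nat_lit 47, nat_lit 400000, nat_lit 0, nat_lit 0, [(nat_lit 0, [(nat_lit 5, nat_lit 1000)])],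
 ⟨p002_k21, nat_lit 0, nat_lit 0, nat_lit 0, nat_lit 0, nat_lit 190787, [nat_lit 1602266667, nat_lit 1324488889, nat_lit 544400001, nat_lit 22800000], [], [nat_lit 12861818714, nat_lit 12571950511, nat_lit 13063675257, nat_lit 12658637714], nat_lit 1271250, nat_lit 1271250, nat_lit 0, nat_lit 230001, nat_lit 0, nat_lit 0, [nat_lit 631250, nat_lit 1431250, nat_lit 1271250, nat_lit 1271250], [nat_lit 151, nat_lit 40, nat_lit 20, nat_lit 40]⟩, C1.Rw.none,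
 ⟨nat_lit 6745, nat_lit 6801, ⟨.ofNat (nat_lit 64214), .ofNat (nat_lit 151371), .ofNat (nat_lit 83530), .ofNat (nat_lit 170687), .ofNat (nat_lit 67226), .ofNat (nat_lit 153780), .ofNat (nat_lit 86528), .ofNat (nat_lit 173083)⟩, ⟨.ofNat (nat_lit 0), .ofNat (nat_lit 0), .ofNat (nat_lit 0), .ofNat (nat_lit 0), .ofNat (nat_lit 0), .ofNat (nat_lit 0), .ofNat (nat_lit 0), .ofNat (nat_lit 0)⟩⟩, [⟨nat_lit 0, nat_lit 100, nat_lit 100, nat_lit 18, nat_lit 83245333⟩]⟩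
noncomputable def p002_l85 : Lf2 := ⟨nat_lit 0, nat_lit 2, [nat_lit 10, nat_lit 5, nat_lit 5, nat_lit 20], true, nat_lit 0, nat_lit 0, nat_lit 0, nat_lit 0, ⟨nat_lit 0, nat_lit 0, nat_lit 1000, nat_lit 5, nat_lit 49, nat_lit 0, nat_lit 0, nat_lit 0, nat_lit 0, nat_lit 215, nat_lit 22817, nat_lit 252, nat_lit 66015454, nat_lit 0, nat_lit 0, nat_lit 382911, false, false⟩,
 nat_lit 0, nat_lit 10546, nat_lit 0, nat_lit 0, nat_lit 4990, nat_lit 0, nat_lit 1909, nat_lit 0, nat_lit 0, nat_lit 0, nat_lit 0, nat_lit 0, nat_lit 0, nat_lit 25080717682044, nat_lit 25, nat_lit 400000, nat_lit 0, nat_lit 0, [(nat_lit 0, [(nat_lit 5, nat_lit 1000)])],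
 ⟨p002_k22, nat_lit 0, nat_lit 0, nat_lit 0, nat_lit 0, nat_lit 203406, [nat_lit 1382266667, nat_lit 884488889, nat_lit 16400000], [], [nat_lit 12650338895, nat_lit 12472718450, nat_lit 12880015317, nat_lit 12618176045], nat_lit 1271250, nat_lit 1271250, nat_lit 0, nat_lit 230001, nat_lit 0, nat_lit 0, [nat_lit 631250, nat_lit 1431250, nat_lit 1271250], [nat_lit 194, nat_lit 40, nat_lit 20, nat_lit 40]⟩, C1.Rw.none,
 ⟨nat_lit 6708, nat_lit 6746, ⟨.ofNat (nat_lit 67226), .ofNat (nat_lit 153780), .ofNat (nat_lit 88673), .ofNat (nat_lit 175228), .ofNat (nat_lit 69221), .ofNat (nat_lit 155377), .ofNat (nat_lit 90659), .ofNat (nat_lit 176815)⟩, ⟨.ofNat (nat_lit 0), .ofNat (nat_lit 0), .ofNat (nat_lit 0), .ofNat (nat_lit 0), .ofNat (nat_lit 0), .ofNat (nat_lit 0), .ofNat (nat_lit 0), .ofNat (nat_lit 0)⟩⟩, [⟨nat_lit 0, nat_lit 100, nat_lit 100, nat_lit 20, nat_lit 79081217⟩]⟩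
noncomputable def p002_l86 : Lf2 := ⟨nat_lit 0, nat_lit 1, [nat_lit 19, nat_lit 5, nat_lit 5, nat_lit 20], true, nat_lit 0, nat_lit 0, nat_lit 0, nat_lit 0, ⟨nat_lit 0, nat_lit 0, nat_lit 1000, nat_lit 5, nat_lit 45, nat_lit 0, nat_lit 0, nat_lit 0, nat_lit 0, nat_lit 215, nat_lit 19267, nat_lit 249, nat_lit 66146901, nat_lit 0, nat_lit 0, nat_lit 340930, false, false⟩,
 nat_lit 0, nat_lit 100000, nat_lit 0, nat_lit 0, nat_lit 45323, nat_lit 0, nat_lit 15990, nat_lit 0, nat_lit 0, nat_lit 0, nat_lit 0, nat_lit 0, nat_lit 0, nat_lit 141220633820777, nat_lit 34, nat_lit 1000000, nat_lit 19362838068, nat_lit 0, [(nat_lit 0, [(nat_lit 6, nat_lit 1000)])],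
 ⟨p002_k23, nat_lit 0, nat_lit 0, nat_lit 0, nat_lit 0, nat_lit 167660, [nat_lit 1498000001, nat_lit 592400000, nat_lit 8800000], [], [nat_lit 9447904188, nat_lit 3634572255, nat_lit 5728419293, nat_lit 0], nat_lit 1271250, nat_lit 1271250, nat_lit 0, nat_lit 230001, nat_lit 0, nat_lit 0, [nat_lit 1412500, nat_lit 1271250, nat_lit 1271250], [nat_lit 153, nat_lit 40, nat_lit 20, nat_lit 40]⟩, C1.Rw.none,
 ⟨nat_lit 6800, nat_lit 6893, ⟨.ofNat (nat_lit 59146), .ofNat (nat_lit 147316), .ofNat (nat_lit 75262), .ofNat (nat_lit 163433), .ofNat (nat_lit 64214), .ofNat (nat_lit 151371), .ofNat (nat_lit 80311), .ofNat (nat_lit 167468)⟩, ⟨.ofNat (nat_lit 0), .ofNat (nat_lit 0), .ofNat (nat_lit 0), .ofNat (nat_lit 0), .ofNat (nat_lit 0), .ofNat (nat_lit 0), .ofNat (nat_lit 0), .ofNat (nat_lit 0)⟩⟩, [⟨nat_lit 0, nat_lit 100, nat_lit 100, nat_lit 15, nat_lit 560655148⟩]⟩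
noncomputable def p002_l87 : Lf2 := ⟨nat_lit 0, nat_lit 1, [nat_lit 19, nat_lit 5, nat_lit 5, nat_lit 20], true, nat_lit 0, nat_lit 0, nat_lit 0, nat_lit 0, ⟨nat_lit 0, nat_lit 0, nat_lit 1000, nat_lit 5, nat_lit 48, nat_lit 0, nat_lit 0, nat_lit 0, nat_lit 0, nat_lit 215, nat_lit 21600, nat_lit 251, nat_lit 66067523, nat_lit 0, nat_lit 0, nat_lit 366451, false, false⟩,
 nat_lit 0, nat_lit 100000, nat_lit 0, nat_lit 0, nat_lit 46570, nat_lit 0, nat_lit 14805, nat_lit 165, nat_lit 0, nat_lit 0, nat_lit 0, nat_lit 0, nat_lit 0, nat_lit 141144951517377, nat_lit 0, nat_lit 1000000, nat_lit 14173465209, nat_lit 0, [(nat_lit 0, [(nat_lit 6, nat_lit 1000)])],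
 ⟨p002_k24, nat_lit 0, nat_lit 0, nat_lit 0, nat_lit 0, nat_lit 186855, [nat_lit 4118000001, nat_lit 3474400001, nat_lit 3152800000], [], [nat_lit 7291502477, nat_lit 3714309361, nat_lit 3531617322, nat_lit 0], nat_lit 1271250, nat_lit 1271250, nat_lit 0, nat_lit 230001, nat_lit 0, nat_lit 0, [nat_lit 1412500, nat_lit 1271250, nat_lit 1271250], [nat_lit 153, nat_lit 40, nat_lit 20, nat_lit 40]⟩, C1.Rw.none,
 ⟨nat_lit 6745, nat_lit 6801, ⟨.ofNat (nat_lit 64214), .ofNat (nat_lit 151371), .ofNat (nat_lit 83530), .ofNat (nat_lit 170687), .ofNat (nat_lit 67226), .ofNat (nat_lit 153780), .ofNat (nat_lit 86528), .ofNat (nat_lit 173083)⟩, ⟨.ofNat (nat_lit 0), .ofNat (nat_lit 0), .ofNat (nat_lit 0), .ofNat (nat_lit 0), .ofNat (nat_lit 0), .ofNat (nat_lit 0), .ofNat (nat_lit 0), .ofNat (nat_lit 0)⟩⟩, [⟨nat_lit 0, nat_lit 100, nat_lit 100, nat_lit 18, nat_lit 570373931⟩]⟩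
noncomputable def p002_l88 : Lf2 := ⟨nat_lit 0, nat_lit 1, [nat_lit 19, nat_lit 5, nat_lit 5, nat_lit 20], false, nat_lit 0, nat_lit 0, nat_lit 0, nat_lit 0, ⟨nat_lit 0, nat_lit 0, nat_lit 1000, nat_lit 5, nat_lit 48, nat_lit 0, nat_lit 0, nat_lit 0, nat_lit 0, nat_lit 215, nat_lit 21600, nat_lit 251, nat_lit 66031021, nat_lit 0, nat_lit 0, nat_lit 378013, false, false⟩,
 nat_lit 100000, nat_lit 100000, nat_lit 0, nat_lit 0, nat_lit 94645, nat_lit 0, nat_lit 29810, nat_lit 793, nat_lit 0, nat_lit 0, nat_lit 0, nat_lit 0, nat_lit 0, nat_lit 270627339357110, nat_lit 0, nat_lit 1000000, nat_lit 27985475618, nat_lit 0, [(nat_lit 0, [(nat_lit 6, nat_lit 1000)])],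
 ⟨p002_k25, nat_lit 0, nat_lit 0, nat_lit 0, nat_lit 0, nat_lit 191574, [nat_lit 16678000001, nat_lit 17290400001, nat_lit 18224800000], [], [nat_lit 10877078812, nat_lit 8457224853, nat_lit 2392455239, nat_lit 0], nat_lit 1271250, nat_lit 1271250, nat_lit 0, nat_lit 230001, nat_lit 0, nat_lit 0, [nat_lit 1412500, nat_lit 1271250, nat_lit 1271250], [nat_lit 153, nat_lit 40, nat_lit 20, nat_lit 40]⟩, ⟨p002_k26, nat_lit 0, nat_lit 0, nat_lit 0, nat_lit 0, nat_lit 211869, [nat_lit 0, nat_lit 0, nat_lit 0], [], [nat_lit 0, nat_lit 0, nat_lit 0, nat_lit 0], nat_lit 1271250, nat_lit 1271250, nat_lit 0, nat_lit 230001, nat_lit 0, nat_lit 0, [nat_lit 1412500, nat_lit 1271250, nat_lit 1271250], [nat_lit 153, nat_lit 40, nat_lit 20, nat_lit 40]⟩,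
 ⟨nat_lit 6726, nat_lit 6746, ⟨.ofNat (nat_lit 67226), .ofNat (nat_lit 153780), .ofNat (nat_lit 87601), .ofNat (nat_lit 174155), .ofNat (nat_lit 68224), .ofNat (nat_lit 154579), .ofNat (nat_lit 88595), .ofNat (nat_lit 174950)⟩, ⟨.ofNat (nat_lit 0), .ofNat (nat_lit 0), .ofNat (nat_lit 0), .ofNat (nat_lit 0), .ofNat (nat_lit 0), .ofNat (nat_lit 0), .ofNat (nat_lit 0), .ofNat (nat_lit 0)⟩⟩, [⟨nat_lit 0, nat_lit 100, nat_lit 100, nat_lit 19, nat_lit 1162564693⟩]⟩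
noncomputable def p002_l89 : Lf2 := ⟨nat_lit 0, nat_lit 1, [nat_lit 19, nat_lit 5, nat_lit 5, nat_lit 20], false, nat_lit 0, nat_lit 0, nat_lit 0, nat_lit 0, ⟨nat_lit 0, nat_lit 0, nat_lit 1000, nat_lit 5, nat_lit 35, nat_lit 0, nat_lit 0, nat_lit 0, nat_lit 0, nat_lit 215, nat_lit 11267, nat_lit 241, nat_lit 66484346, nat_lit 0, nat_lit 0, nat_lit 225262, false, false⟩,
 nat_lit 100000, nat_lit 100000, nat_lit 0, nat_lit 0, nat_lit 95148, nat_lit 0, nat_lit 27210, nat_lit 498, nat_lit 0, nat_lit 0, nat_lit 0, nat_lit 0, nat_lit 0, nat_lit 221528334492750, nat_lit 0, nat_lit 1000000, nat_lit 42556026283, nat_lit 0, [(nat_lit 0, [(nat_lit 6, nat_lit 1000)])],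
 ⟨p002_k27, nat_lit 0, nat_lit 0, nat_lit 0, nat_lit 0, nat_lit 198192, [nat_lit 10778000000, nat_lit 10800400000, nat_lit 11144800000], [], [nat_lit 10923220401, nat_lit 11443017939, nat_lit 2151661130, nat_lit 0], nat_lit 1271250, nat_lit 1271250, nat_lit 0, nat_lit 43600, nat_lit 0, nat_lit 0, [nat_lit 1412500, nat_lit 1271250, nat_lit 1271250], [nat_lit 153, nat_lit 40, nat_lit 20, nat_lit 40]⟩, ⟨p002_k26, nat_lit 0, nat_lit 0, nat_lit 0, nat_lit 0, nat_lit 220371, [nat_lit 0, nat_lit 0, nat_lit 0], [], [nat_lit 0, nat_lit 0, nat_lit 0, nat_lit 0], nat_lit 1271250, nat_lit 1271250, nat_lit 0, nat_lit 43600, nat_lit 0, nat_lit 0, [nat_lit 1412500, nat_lit 1271250, nat_lit 1271250], [nat_lit 153, nat_lit 40, nat_lit 20, nat_lit 40]⟩,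
 ⟨nat_lit 6708, nat_lit 6727, ⟨.ofNat (nat_lit 68224), .ofNat (nat_lit 85495), .ofNat (nat_lit 89667), .ofNat (nat_lit 106938), .ofNat (nat_lit 69221), .ofNat (nat_lit 86452), .ofNat (nat_lit 90659), .ofNat (nat_lit 107890)⟩, ⟨.ofNat (nat_lit 0), .ofNat (nat_lit 0), .ofNat (nat_lit 0), .ofNat (nat_lit 0), .ofNat (nat_lit 0), .ofNat (nat_lit 0), .ofNat (nat_lit 0), .ofNat (nat_lit 0)⟩⟩, [⟨nat_lit 0, nat_lit 100, nat_lit 100, nat_lit 20, nat_lit 7254053409⟩]⟩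
noncomputable def p002_l90 : Lf2 := ⟨nat_lit 0, nat_lit 1, [nat_lit 19, nat_lit 5, nat_lit 5, nat_lit 20], true, nat_lit 0, nat_lit 0, nat_lit 0, nat_lit 0, ⟨nat_lit 0, nat_lit 0, nat_lit 1000, nat_lit 5, nat_lit 44, nat_lit 0, nat_lit 0, nat_lit 0, nat_lit 0, nat_lit 215, nat_lit 18150, nat_lit 248, nat_lit 66204276, nat_lit 0, nat_lit 0, nat_lit 322133, false, false⟩,
 nat_lit 0, nat_lit 100000, nat_lit 0, nat_lit 0, nat_lit 47574, nat_lit 0, nat_lit 12687, nat_lit 107, nat_lit 0, nat_lit 0, nat_lit 0, nat_lit 0, nat_lit 0, nat_lit 145281865085201, nat_lit 0, nat_lit 1000000, nat_lit 20012306344, nat_lit 0, [(nat_lit 0, [(nat_lit 6, nat_lit 1000)])],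
 ⟨p002_k27, nat_lit 0, nat_lit 0, nat_lit 0, nat_lit 0, nat_lit 198192, [nat_lit 2958000000, nat_lit 2198400000, nat_lit 1760800000], [], [nat_lit 2661829768, nat_lit 1445009588, nat_lit 1211433851, nat_lit 0], nat_lit 1271250, nat_lit 1271250, nat_lit 43600, nat_lit 111251, nat_lit 0, nat_lit 0, [nat_lit 1412500, nat_lit 1271250, nat_lit 1271250], [nat_lit 153, nat_lit 40, nat_lit 20, nat_lit 40]⟩, C1.Rw.none,
 ⟨nat_lit 6708, nat_lit 6727, ⟨.ofNat (nat_lit 85495), .ofNat (nat_lit 111402), .ofNat (nat_lit 106938), .ofNat (nat_lit 132845), .ofNat (nat_lit 86452), .ofNat (nat_lit 112299), .ofNat (nat_lit 107890), .ofNat (nat_lit 133737)⟩, ⟨.ofNat (nat_lit 0), .ofNat (nat_lit 0), .ofNat (nat_lit 0), .ofNat (nat_lit 0), .ofNat (nat_lit 0), .ofNat (nat_lit 0), .ofNat (nat_lit 0), .ofNat (nat_lit 0)⟩⟩, []⟩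
noncomputable def p002_l91 : Lf2 := ⟨nat_lit 0, nat_lit 1, [nat_lit 19, nat_lit 5, nat_lit 5, nat_lit 20], true, nat_lit 0, nat_lit 0, nat_lit 0, nat_lit 0, ⟨nat_lit 0, nat_lit 0, nat_lit 1000, nat_lit 5, nat_lit 58, nat_lit 0, nat_lit 0, nat_lit 0, nat_lit 0, nat_lit 215, nat_lit 30817, nat_lit 258, nat_lit 65636420, nat_lit 0, nat_lit 0, nat_lit 496976, false, false⟩,
 nat_lit 0, nat_lit 100000, nat_lit 0, nat_lit 40821, nat_lit 47574, nat_lit 0, nat_lit 60000, nat_lit 1698, nat_lit 0, nat_lit 0, nat_lit 0, nat_lit 0, nat_lit 0, nat_lit 0, nat_lit 0, nat_lit 1000000, nat_lit 0, nat_lit 0, [(nat_lit 0, [(nat_lit 6, nat_lit 1000)])],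
 ⟨p002_k27, nat_lit 0, nat_lit 0, nat_lit 0, nat_lit 0, nat_lit 198192, [nat_lit 34778000000, nat_lit 37200400001, nat_lit 39944800000], [], [nat_lit 21274338309, nat_lit 21465836737, nat_lit 13282819492, nat_lit 13471098845], nat_lit 1271250, nat_lit 1271250, nat_lit 111251, nat_lit 230001, nat_lit 0, nat_lit 0, [nat_lit 1412500, nat_lit 1271250, nat_lit 1271250], [nat_lit 153, nat_lit 40, nat_lit 20, nat_lit 40]⟩, C1.Rw.none,
 ⟨nat_lit 6708, nat_lit 6727, ⟨.ofNat (nat_lit 111402), .ofNat (nat_lit 154579), .ofNat (nat_lit 132845), .ofNat (nat_lit 176022), .ofNat (nat_lit 112299), .ofNat (nat_lit 155377), .ofNat (nat_lit 133737), .ofNat (nat_lit 176815)⟩, ⟨.ofNat (nat_lit 0), .ofNat (nat_lit 0), .ofNat (nat_lit 0), .ofNat (nat_lit 0), .ofNat (nat_lit 0), .ofNat (nat_lit 0), .ofNat (nat_lit 0), .ofNat (nat_lit 0)⟩⟩, []⟩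
noncomputable def p002_l92 : Lf2 := ⟨nat_lit 0, nat_lit 2, [nat_lit 10, nat_lit 5, nat_lit 5, nat_lit 20], true, nat_lit 0, nat_lit 0, nat_lit 0, nat_lit 0, ⟨nat_lit 0, nat_lit 0, nat_lit 1000, nat_lit 5, nat_lit 45, nat_lit 0, nat_lit 0, nat_lit 0, nat_lit 0, nat_lit 215, nat_lit 19267, nat_lit 249, nat_lit 66146901, nat_lit 0, nat_lit 0, nat_lit 340930, false, false⟩,
 nat_lit 0, nat_lit 100000, nat_lit 0, nat_lit 0, nat_lit 45323, nat_lit 0, nat_lit 20393, nat_lit 1741, nat_lit 0, nat_lit 0, nat_lit 0, nat_lit 0, nat_lit 0, nat_lit 0, nat_lit 0, nat_lit 475000, nat_lit 0, nat_lit 0, [(nat_lit 0, [(nat_lit 5, nat_lit 875), (nat_lit 6, nat_lit 125)])],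
 ⟨p002_k28, nat_lit 0, nat_lit 0, nat_lit 0, nat_lit 0, nat_lit 117160, [nat_lit 36147250001, nat_lit 41172450001, nat_lit 43999500000], [], [nat_lit 66617944801, nat_lit 67654296565, nat_lit 44483704175, nat_lit 45157938667], nat_lit 1271250, nat_lit 1271250, nat_lit 0, nat_lit 230001, nat_lit 0, nat_lit 0, [nat_lit 1412500, nat_lit 1271250, nat_lit 1271250], [nat_lit 156, nat_lit 40, nat_lit 20, nat_lit 40]⟩, C1.Rw.none,
 ⟨nat_lit 6800, nat_lit 6893, ⟨.ofNat (nat_lit 59146), .ofNat (nat_lit 147316), .ofNat (nat_lit 75262), .ofNat (nat_lit 163433), .ofNat (nat_lit 64214), .ofNat (nat_lit 151371), .ofNat (nat_lit 80311), .ofNat (nat_lit 167468)⟩, ⟨.ofNat (nat_lit 0), .ofNat (nat_lit 0), .ofNat (nat_lit 0), .ofNat (nat_lit 0), .ofNat (nat_lit 0), .ofNat (nat_lit 0), .ofNat (nat_lit 0), .ofNat (nat_lit 0)⟩⟩, [⟨nat_lit 0, nat_lit 100, nat_lit 100, nat_lit 15, nat_lit 2918796600⟩]⟩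
noncomputable def p002_l93 : Lf2 := ⟨nat_lit 0, nat_lit 2, [nat_lit 10, nat_lit 5, nat_lit 5, nat_lit 20], true, nat_lit 0, nat_lit 0, nat_lit 0, nat_lit 0, ⟨nat_lit 0, nat_lit 0, nat_lit 1000, nat_lit 5, nat_lit 48, nat_lit 0, nat_lit 0, nat_lit 0, nat_lit 0, nat_lit 215, nat_lit 21600, nat_lit 251, nat_lit 66067523, nat_lit 0, nat_lit 0, nat_lit 366451, false, false⟩,
 nat_lit 0, nat_lit 100000, nat_lit 0, nat_lit 0, nat_lit 46570, nat_lit 0, nat_lit 21073, nat_lit 2098, nat_lit 0, nat_lit 0, nat_lit 0, nat_lit 0, nat_lit 0, nat_lit 0, nat_lit 0, nat_lit 1000000, nat_lit 0, nat_lit 0, [(nat_lit 0, [(nat_lit 6, nat_lit 1000)])],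
 ⟨p002_k29, nat_lit 0, nat_lit 0, nat_lit 0, nat_lit 0, nat_lit 138234, [nat_lit 42778000001, nat_lit 46000400001, nat_lit 53089199999], [], [nat_lit 75126386953, nat_lit 75644183001, nat_lit 55642563343, nat_lit 56193455593], nat_lit 1271250, nat_lit 1271250, nat_lit 0, nat_lit 230001, nat_lit 0, nat_lit 0, [nat_lit 1412500, nat_lit 1271250, nat_lit 1271250], [nat_lit 163, nat_lit 40, nat_lit 20, nat_lit 40]⟩, C1.Rw.none,
 ⟨nat_lit 6745, nat_lit 6801, ⟨.ofNat (nat_lit 64214), .ofNat (nat_lit 151371), .ofNat (nat_lit 83530), .ofNat (nat_lit 170687), .ofNat (nat_lit 67226), .ofNat (nat_lit 153780), .ofNat (nat_lit 86528), .ofNat (nat_lit 173083)⟩, ⟨.ofNat (nat_lit 0), .ofNat (nat_lit 0), .ofNat (nat_lit 0), .ofNat (nat_lit 0), .ofNat (nat_lit 0), .ofNat (nat_lit 0), .ofNat (nat_lit 0), .ofNat (nat_lit 0)⟩⟩, [⟨nat_lit 0, nat_lit 100, nat_lit 100, nat_lit 18, nat_lit 2538164966⟩]⟩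
noncomputable def p002_l94 : Lf2 := ⟨nat_lit 0, nat_lit 2, [nat_lit 10, nat_lit 5, nat_lit 5, nat_lit 20], true, nat_lit 0, nat_lit 0, nat_lit 0, nat_lit 0, ⟨nat_lit 0, nat_lit 0, nat_lit 1000, nat_lit 5, nat_lit 49, nat_lit 0, nat_lit 0, nat_lit 0, nat_lit 0, nat_lit 215, nat_lit 22817, nat_lit 252, nat_lit 66015454, nat_lit 0, nat_lit 0, nat_lit 382911, false, false⟩,
 nat_lit 0, nat_lit 100000, nat_lit 0, nat_lit 0, nat_lit 47322, nat_lit 0, nat_lit 15127, nat_lit 325, nat_lit 0, nat_lit 0, nat_lit 0, nat_lit 0, nat_lit 0, nat_lit 144302936594775, nat_lit 0, nat_lit 1000000, nat_lit 7733921496, nat_lit 0, [(nat_lit 0, [(nat_lit 6, nat_lit 1000)])],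
 ⟨p002_k30, nat_lit 0, nat_lit 0, nat_lit 0, nat_lit 0, nat_lit 151894, [nat_lit 7318000000, nat_lit 6992800000], [], [nat_lit 6174690064, nat_lit 3746796996, nat_lit 2392429961, nat_lit 0], nat_lit 1271250, nat_lit 1271250, nat_lit 0, nat_lit 230001, nat_lit 0, nat_lit 0, [nat_lit 1412500, nat_lit 1271250], [nat_lit 26, nat_lit 40, nat_lit 20, nat_lit 40]⟩, C1.Rw.none,
 ⟨nat_lit 6708, nat_lit 6746, ⟨.ofNat (nat_lit 67226), .ofNat (nat_lit 153780), .ofNat (nat_lit 88673), .ofNat (nat_lit 175228), .ofNat (nat_lit 69221), .ofNat (nat_lit 155377), .ofNat (nat_lit 90659), .ofNat (nat_lit 176815)⟩, ⟨.ofNat (nat_lit 0), .ofNat (nat_lit 0), .ofNat (nat_lit 0), .ofNat (nat_lit 0), .ofNat (nat_lit 0), .ofNat (nat_lit 0), .ofNat (nat_lit 0), .ofNat (nat_lit 0)⟩⟩, [⟨nat_lit 0, nat_lit 100, nat_lit 100, nat_lit 20, nat_lit 575113284⟩]⟩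
noncomputable def p002_l95 : Lf2 := ⟨nat_lit 0, nat_lit 2, [nat_lit 10, nat_lit 5, nat_lit 5, nat_lit 20], false, nat_lit 0, nat_lit 0, nat_lit 0, nat_lit 0, ⟨nat_lit 1000, nat_lit 0, nat_lit 0, nat_lit 0, nat_lit 0, nat_lit 0, nat_lit 0, nat_lit 0, nat_lit 0, nat_lit 0, nat_lit 0, nat_lit 0, nat_lit 0, nat_lit 0, nat_lit 0, nat_lit 0, false, false⟩,
 nat_lit 100000, nat_lit 9938, nat_lit 0, nat_lit 0, nat_lit 47116, nat_lit 26234, nat_lit 24584, nat_lit 0, nat_lit 0, nat_lit 0, nat_lit 0, nat_lit 0, nat_lit 0, nat_lit 71878435009755, nat_lit 0, nat_lit 0, nat_lit 0, nat_lit 0, [],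
 ⟨p002_k17, nat_lit 0, nat_lit 0, nat_lit 0, nat_lit 0, nat_lit 138901, [nat_lit 6250000000, nat_lit 7089500001, nat_lit 8885500000], [], [nat_lit 13103036736, nat_lit 3466007564, nat_lit 15503177424, nat_lit 3764555836], nat_lit 1271250, nat_lit 1271250, nat_lit 230001, nat_lit 490000, nat_lit 0, nat_lit 0, [nat_lit 1412500, nat_lit 1271250, nat_lit 1271250], [nat_lit 163, nat_lit 40, nat_lit 20, nat_lit 40]⟩, ⟨p002_k17, nat_lit 0, nat_lit 0, nat_lit 0, nat_lit 0, nat_lit 138901, [nat_lit 6250000000, nat_lit 7089500000, nat_lit 8885500000], [], [nat_lit 24928596864, nat_lit 22479601086, nat_lit 26725915976, nat_lit 20189898514], nat_lit 1271250, nat_lit 1271250, nat_lit 230001, nat_lit 490000, nat_lit 0, nat_lit 0, [nat_lit 1412500, nat_lit 1271250, nat_lit 1271250], [nat_lit 163, nat_lit 40, nat_lit 20, nat_lit 40]⟩,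
 zbF0, []⟩
noncomputable def p002_l96 : Lf2 := ⟨nat_lit 0, nat_lit 2, [nat_lit 10, nat_lit 5, nat_lit 5, nat_lit 20], true, nat_lit 0, nat_lit 0, nat_lit 0, nat_lit 0, ⟨nat_lit 0, nat_lit 0, nat_lit 1000, nat_lit 5, nat_lit 80, nat_lit 0, nat_lit 0, nat_lit 0, nat_lit 0, nat_lit 215, nat_lit 60000, nat_lit 275, nat_lit 64392549, nat_lit 0, nat_lit 0, nat_lit 822422, false, false⟩,
 nat_lit 0, nat_lit 13309, nat_lit 0, nat_lit 0, nat_lit 6032, nat_lit 0, nat_lit 1946, nat_lit 0, nat_lit 0, nat_lit 0, nat_lit 0, nat_lit 0, nat_lit 0, nat_lit 28903251035309, nat_lit 67, nat_lit 1000000, nat_lit 0, nat_lit 0, [(nat_lit 0, [(nat_lit 6, nat_lit 1000)])],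
 ⟨p002_k28, nat_lit 0, nat_lit 0, nat_lit 0, nat_lit 0, nat_lit 171257, [nat_lit 2158000000, nat_lit 800800000, nat_lit 4400000], [], [nat_lit 9787489856, nat_lit 9762373580, nat_lit 10546629904, nat_lit 9736927400], nat_lit 1271250, nat_lit 1271250, nat_lit 230001, nat_lit 490000, nat_lit 0, nat_lit 0, [nat_lit 1412500, nat_lit 1271250, nat_lit 1271250], [nat_lit 156, nat_lit 40, nat_lit 20, nat_lit 40]⟩, C1.Rw.none,
 ⟨nat_lit 6800, nat_lit 6893, ⟨.ofNat (nat_lit 147316), .ofNat (nat_lit 235487), .ofNat (nat_lit 163433), .ofNat (nat_lit 251603), .ofNat (nat_lit 151371), .ofNat (nat_lit 238528), .ofNat (nat_lit 167468), .ofNat (nat_lit 254625)⟩, ⟨.ofNat (nat_lit 0), .ofNat (nat_lit 0), .ofNat (nat_lit 0), .ofNat (nat_lit 0), .ofNat (nat_lit 0), .ofNat (nat_lit 0), .ofNat (nat_lit 0), .ofNat (nat_lit 0)⟩⟩, []⟩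
noncomputable def p002_l97 : Lf2 := ⟨nat_lit 0, nat_lit 2, [nat_lit 10, nat_lit 5, nat_lit 5, nat_lit 20], true, nat_lit 0, nat_lit 0, nat_lit 0, nat_lit 0, ⟨nat_lit 0, nat_lit 0, nat_lit 1000, nat_lit 5, nat_lit 83, nat_lit 0, nat_lit 0, nat_lit 0, nat_lit 0, nat_lit 215, nat_lit 64067, nat_lit 277, nat_lit 64236177, nat_lit 0, nat_lit 0, nat_lit 859487, false, false⟩,
 nat_lit 0, nat_lit 13243, nat_lit 0, nat_lit 0, nat_lit 6167, nat_lit 0, nat_lit 1919, nat_lit 0, nat_lit 0, nat_lit 0, nat_lit 0, nat_lit 0, nat_lit 0, nat_lit 28899951003950, nat_lit 67, nat_lit 1000000, nat_lit 0, nat_lit 0, [(nat_lit 0, [(nat_lit 6, nat_lit 1000)])],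
 ⟨p002_k31, nat_lit 0, nat_lit 0, nat_lit 0, nat_lit 0, nat_lit 206791, [nat_lit 2158000000, nat_lit 800800000, nat_lit 4400000], [], [nat_lit 9419848109, nat_lit 9759011458, nat_lit 9550629088, nat_lit 8985891162], nat_lit 1271250, nat_lit 1271250, nat_lit 230001, nat_lit 490000, nat_lit 0, nat_lit 0, [nat_lit 1412500, nat_lit 1271250, nat_lit 1271250], [nat_lit 156, nat_lit 40, nat_lit 20, nat_lit 40]⟩, C1.Rw.none,
 ⟨nat_lit 6708, nat_lit 6801, ⟨.ofNat (nat_lit 151371), .ofNat (nat_lit 238528), .ofNat (nat_lit 172833), .ofNat (nat_lit 259990), .ofNat (nat_lit 155377), .ofNat (nat_lit 241532), .ofNat (nat_lit 176815), .ofNat (nat_lit 262970)⟩, ⟨.ofNat (nat_lit 0), .ofNat (nat_lit 0), .ofNat (nat_lit 0), .ofNat (nat_lit 0), .ofNat (nat_lit 0), .ofNat (nat_lit 0), .ofNat (nat_lit 0), .ofNat (nat_lit 0)⟩⟩, []⟩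
noncomputable def p002_l98 : Lf2 := ⟨nat_lit 0, nat_lit 2, [nat_lit 10, nat_lit 5, nat_lit 5, nat_lit 20], true, nat_lit 0, nat_lit 0, nat_lit 0, nat_lit 0, ⟨nat_lit 0, nat_lit 0, nat_lit 1000, nat_lit 5, nat_lit 59, nat_lit 0, nat_lit 0, nat_lit 0, nat_lit 0, nat_lit 215, nat_lit 33750, nat_lit 260, nat_lit 65553173, nat_lit 0, nat_lit 0, nat_lit 520859, false, false⟩,
 nat_lit 0, nat_lit 100000, nat_lit 0, nat_lit 0, nat_lit 42857, nat_lit 0, nat_lit 1585, nat_lit 1982, nat_lit 0, nat_lit 0, nat_lit 0, nat_lit 0, nat_lit 0, nat_lit 108843919655227, nat_lit 0, nat_lit 1000000, nat_lit 0, nat_lit 0, [(nat_lit 0, [(nat_lit 6, nat_lit 1000)])],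
 ⟨p002_k16, nat_lit 0, nat_lit 0, nat_lit 353, nat_lit 0, nat_lit 138901, [nat_lit 40458000000, nat_lit 46760800000, nat_lit 53002400000], [], [nat_lit 121766563456, nat_lit 110773287242, nat_lit 120416117348, nat_lit 109738595797], nat_lit 1271250, nat_lit 1271250, nat_lit 0, nat_lit 490000, nat_lit 0, nat_lit 0, [nat_lit 1412500, nat_lit 1271250, nat_lit 1271250], [nat_lit 25, nat_lit 40, nat_lit 20, nat_lit 80, nat_lit 17, nat_lit 289, nat_lit 75, nat_lit 9]⟩, C1.Rw.none,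
 ⟨nat_lit 6892, nat_lit 7072, ⟨.ofNat (nat_lit 48814), .ofNat (nat_lit 229288), .ofNat (nat_lit 59588), .ofNat (nat_lit 240062), .ofNat (nat_lit 59146), .ofNat (nat_lit 235487), .ofNat (nat_lit 69890), .ofNat (nat_lit 246231)⟩, ⟨.ofNat (nat_lit 0), .ofNat (nat_lit 0), .ofNat (nat_lit 0), .ofNat (nat_lit 0), .ofNat (nat_lit 0), .ofNat (nat_lit 0), .ofNat (nat_lit 0), .ofNat (nat_lit 0)⟩⟩, [⟨nat_lit 0, nat_lit 100, nat_lit 100, nat_lit 10, nat_lit 176884621⟩]⟩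
noncomputable def p002_l99 : Lf2 := ⟨nat_lit 0, nat_lit 2, [nat_lit 10, nat_lit 5, nat_lit 5, nat_lit 20], false, nat_lit 0, nat_lit 0, nat_lit 0, nat_lit 0, ⟨nat_lit 0, nat_lit 0, nat_lit 1000, nat_lit 5, nat_lit 65, nat_lit 0, nat_lit 0, nat_lit 0, nat_lit 0, nat_lit 215, nat_lit 40017, nat_lit 264, nat_lit 65285010, nat_lit 0, nat_lit 0, nat_lit 595398, false, false⟩,
 nat_lit 100000, nat_lit 100000, nat_lit 0, nat_lit 0, nat_lit 90647, nat_lit 0, nat_lit 44304, nat_lit 5509, nat_lit 0, nat_lit 0, nat_lit 0, nat_lit 0, nat_lit 0, nat_lit 282345338511123, nat_lit 0, nat_lit 1000000, nat_lit 0, nat_lit 0, [(nat_lit 0, [(nat_lit 6, nat_lit 1000)])],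
 ⟨p002_k32, nat_lit 0, nat_lit 0, nat_lit 387, nat_lit 0, nat_lit 212655, [nat_lit 110998000000, nat_lit 131408800001, nat_lit 151758400000], [], [nat_lit 288140403513, nat_lit 264892063533, nat_lit 283767985387, nat_lit 261183919866], nat_lit 1271250, nat_lit 1271250, nat_lit 0, nat_lit 490000, nat_lit 0, nat_lit 0, [nat_lit 1412500, nat_lit 1271250, nat_lit 1271250], [nat_lit 25, nat_lit 40, nat_lit 20, nat_lit 80, nat_lit 17, nat_lit 289, nat_lit 75, nat_lit 9]⟩, ⟨p002_k16, nat_lit 0, nat_lit 0, nat_lit 0, nat_lit 0, nat_lit 225295, [nat_lit 0, nat_lit 0, nat_lit 0], [], [nat_lit 0, nat_lit 0, nat_lit 0, nat_lit 0], nat_lit 1271250, nat_lit 1271250, nat_lit 0, nat_lit 490000, nat_lit 0, nat_lit 0, [nat_lit 1412500, nat_lit 1271250, nat_lit 1271250], [nat_lit 25, nat_lit 40, nat_lit 20, nat_lit 80]⟩,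
 ⟨nat_lit 6708, nat_lit 6893, ⟨.ofNat (nat_lit 59146), .ofNat (nat_lit 235487), .ofNat (nat_lit 80634), .ofNat (nat_lit 256975), .ofNat (nat_lit 69221), .ofNat (nat_lit 241532), .ofNat (nat_lit 90659), .ofNat (nat_lit 262970)⟩, ⟨.ofNat (nat_lit 0), .ofNat (nat_lit 0), .ofNat (nat_lit 0), .ofNat (nat_lit 0), .ofNat (nat_lit 0), .ofNat (nat_lit 0), .ofNat (nat_lit 0), .ofNat (nat_lit 0)⟩⟩, [⟨nat_lit 0, nat_lit 100, nat_lit 100, nat_lit 20, nat_lit 342576040⟩]⟩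
noncomputable def b_NL_500_500_0_6 : St := ⟨false, nat_lit 1, nat_lit 1, nat_lit 1, nat_lit 20, nat_lit 200, nat_lit 220, nat_lit 200, nat_lit 220, nat_lit 0, nat_lit 80, nat_lit 0, nat_lit 0, nat_lit 0, nat_lit 0, nat_lit 0, nat_lit 0, nat_lit 0, nat_lit 8, nat_lit 0, nat_lit 0, nat_lit 0, nat_lit 800⟩
theorem d_NL_500_500_0_6 (h : EB TB.env) : Dead b_NL_500_500_0_6 := chkB_sound0 h (T :=
(.spl (nat_lit 7) (nat_lit 600)
(.spl (nat_lit 7) (nat_lit 300)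
(.leaf p002_l79)
(.spl (nat_lit 2) (nat_lit 40)
(.spl (nat_lit 0) (nat_lit 210)
(.ord (.spl (nat_lit 0) (nat_lit 205)
(.ord (.leaf p002_l80))
(.leaf p002_l81)))
(.spl (nat_lit 7) (nat_lit 460)
(.spl (nat_lit 0) (nat_lit 215)
(.ord (.spl (nat_lit 0) (nat_lit 213)
(.ord (.leaf p002_l82))
(.leaf p002_l83)))
(.spl (nat_lit 0) (nat_lit 218)
(.ord (.leaf p002_l84))
(.leaf p002_l85)))
(.spl (nat_lit 6) (nat_lit 4)
(.spl (nat_lit 0) (nat_lit 215)
(.ord (.leaf p002_l86))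
(.spl (nat_lit 0) (nat_lit 218)
(.ord (.leaf p002_l87))
(.spl (nat_lit 0) (nat_lit 219)
(.ord (.leaf p002_l88))
(.spl (nat_lit 2) (nat_lit 20)
(.spl (nat_lit 2) (nat_lit 8)
(.leaf p002_l89)
(.leaf p002_l90))
(.leaf p002_l91)))))
(.spl (nat_lit 0) (nat_lit 215)
(.ord (.leaf p002_l92))
(.spl (nat_lit 0) (nat_lit 218)
(.ord (.leaf p002_l93))
(.leaf p002_l94))))))
(.spl (nat_lit 0) (nat_lit 210)
(.ord (.leaf p002_l95))
(.spl (nat_lit 0) (nat_lit 215)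
(.ord (.leaf p002_l96))
(.leaf p002_l97)))))
(.spl (nat_lit 0) (nat_lit 210)
(.ord (.leaf p002_l98))
(.leaf p002_l99)))) (by decide +kernel)
noncomputable def p002_l100 : Lf2 := ⟨nat_lit 0, nat_lit 4, [nat_lit 38, nat_lit 5, nat_lit 5, nat_lit 20], true, nat_lit 0, nat_lit 0, nat_lit 0, nat_lit 0, ⟨nat_lit 0, nat_lit 0, nat_lit 1000, nat_lit 5, nat_lit 36, nat_lit 0, nat_lit 0, nat_lit 0, nat_lit 0, nat_lit 215, nat_lit 12150, nat_lit 242, nat_lit 66461020, nat_lit 0, nat_lit 0, nat_lit 233714, false, false⟩,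
 nat_lit 0, nat_lit 11288, nat_lit 0, nat_lit 0, nat_lit 5256, nat_lit 0, nat_lit 935, nat_lit 0, nat_lit 0, nat_lit 0, nat_lit 0, nat_lit 0, nat_lit 0, nat_lit 26998844973534, nat_lit 90, nat_lit 1000000, nat_lit 0, nat_lit 0, [(nat_lit 0, [(nat_lit 6, nat_lit 1000)])],
 ⟨p002_k33, nat_lit 0, nat_lit 0, nat_lit 328, nat_lit 0, nat_lit 80241, [nat_lit 2618000001, nat_lit 1352800000, nat_lit 26400000], [], [nat_lit 13315951178, nat_lit 13360347714, nat_lit 12878876113, nat_lit 12923210880], nat_lit 1271250, nat_lit 1271250, nat_lit 0, nat_lit 43600, nat_lit 0, nat_lit 0, [nat_lit 1412500, nat_lit 1271250, nat_lit 1271250], [nat_lit 25, nat_lit 40, nat_lit 20, nat_lit 80, nat_lit 17, nat_lit 272, nat_lit 60, nat_lit 9]⟩, C1.Rw.none,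
 ⟨nat_lit 6782, nat_lit 6801, ⟨.ofNat (nat_lit 80311), .ofNat (nat_lit 97742), .ofNat (nat_lit 81384), .ofNat (nat_lit 98815), .ofNat (nat_lit 81313), .ofNat (nat_lit 98704), .ofNat (nat_lit 82386), .ofNat (nat_lit 99777)⟩, ⟨.ofNat (nat_lit 0), .ofNat (nat_lit 0), .ofNat (nat_lit 0), .ofNat (nat_lit 0), .ofNat (nat_lit 0), .ofNat (nat_lit 0), .ofNat (nat_lit 0), .ofNat (nat_lit 0)⟩⟩, [⟨nat_lit 0, nat_lit 100, nat_lit 100, nat_lit 16, nat_lit 378220872⟩]⟩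
noncomputable def p002_l101 : Lf2 := ⟨nat_lit 0, nat_lit 4, [nat_lit 38, nat_lit 5, nat_lit 5, nat_lit 20], true, nat_lit 0, nat_lit 0, nat_lit 0, nat_lit 0, ⟨nat_lit 0, nat_lit 0, nat_lit 1000, nat_lit 5, nat_lit 35, nat_lit 0, nat_lit 0, nat_lit 0, nat_lit 0, nat_lit 215, nat_lit 11267, nat_lit 241, nat_lit 66500212, nat_lit 0, nat_lit 0, nat_lit 219478, false, false⟩,
 nat_lit 0, nat_lit 11280, nat_lit 0, nat_lit 0, nat_lit 5281, nat_lit 0, nat_lit 898, nat_lit 0, nat_lit 0, nat_lit 0, nat_lit 0, nat_lit 0, nat_lit 0, nat_lit 0, nat_lit 90, nat_lit 1000000, nat_lit 0, nat_lit 0, [(nat_lit 0, [(nat_lit 6, nat_lit 1000)])],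
 ⟨p002_k34, nat_lit 0, nat_lit 0, nat_lit 330, nat_lit 0, nat_lit 84035, [nat_lit 2618000001, nat_lit 1352800000, nat_lit 26400000], [], [nat_lit 13426676786, nat_lit 13489035870, nat_lit 13093409025, nat_lit 13137851100], nat_lit 1271250, nat_lit 1271250, nat_lit 0, nat_lit 21650, nat_lit 0, nat_lit 0, [nat_lit 1412500, nat_lit 1271250, nat_lit 1271250], [nat_lit 25, nat_lit 40, nat_lit 20, nat_lit 80, nat_lit 17, nat_lit 272, nat_lit 60, nat_lit 8]⟩, C1.Rw.none,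
 ⟨nat_lit 6763, nat_lit 6783, ⟨.ofNat (nat_lit 81313), .ofNat (nat_lit 90009), .ofNat (nat_lit 82386), .ofNat (nat_lit 91082), .ofNat (nat_lit 82313), .ofNat (nat_lit 90989), .ofNat (nat_lit 83386), .ofNat (nat_lit 92062)⟩, ⟨.ofNat (nat_lit 0), .ofNat (nat_lit 0), .ofNat (nat_lit 0), .ofNat (nat_lit 0), .ofNat (nat_lit 0), .ofNat (nat_lit 0), .ofNat (nat_lit 0), .ofNat (nat_lit 0)⟩⟩, [⟨nat_lit 0, nat_lit 100, nat_lit 100, nat_lit 16, nat_lit 545319925⟩]⟩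
noncomputable def p002_l102 : Lf2 := ⟨nat_lit 0, nat_lit 3, [nat_lit 45, nat_lit 5, nat_lit 5, nat_lit 20], true, nat_lit 0, nat_lit 0, nat_lit 0, nat_lit 0, ⟨nat_lit 0, nat_lit 0, nat_lit 1000, nat_lit 5, nat_lit 35, nat_lit 0, nat_lit 0, nat_lit 0, nat_lit 0, nat_lit 215, nat_lit 11267, nat_lit 241, nat_lit 66487860, nat_lit 0, nat_lit 0, nat_lit 223987, false, false⟩,
 nat_lit 0, nat_lit 11425, nat_lit 0, nat_lit 0, nat_lit 5349, nat_lit 0, nat_lit 581, nat_lit 0, nat_lit 0, nat_lit 0, nat_lit 0, nat_lit 0, nat_lit 0, nat_lit 0, nat_lit 67, nat_lit 1000000, nat_lit 0, nat_lit 0, [(nat_lit 0, [(nat_lit 6, nat_lit 1000)])],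
 ⟨p002_k35, nat_lit 0, nat_lit 0, nat_lit 0, nat_lit 0, nat_lit 87500, [nat_lit 2158000000, nat_lit 800800000, nat_lit 4400000], [], [nat_lit 13529316442, nat_lit 13596477280, nat_lit 13195141383, nat_lit 13239791328], nat_lit 1271250, nat_lit 1271250, nat_lit 0, nat_lit 21650, nat_lit 0, nat_lit 0, [nat_lit 1412500, nat_lit 1271250, nat_lit 1271250], [nat_lit 156, nat_lit 40, nat_lit 20, nat_lit 40]⟩, C1.Rw.none,
 ⟨nat_lit 6763, nat_lit 6783, ⟨.ofNat (nat_lit 82386), .ofNat (nat_lit 91082), .ofNat (nat_lit 83459), .ofNat (nat_lit 92155), .ofNat (nat_lit 83386), .ofNat (nat_lit 92062), .ofNat (nat_lit 84459), .ofNat (nat_lit 93134)⟩, ⟨.ofNat (nat_lit 0), .ofNat (nat_lit 0), .ofNat (nat_lit 0), .ofNat (nat_lit 0), .ofNat (nat_lit 0), .ofNat (nat_lit 0), .ofNat (nat_lit 0), .ofNat (nat_lit 0)⟩⟩, [⟨nat_lit 0, nat_lit 100, nat_lit 100, nat_lit 17, nat_lit 551217148⟩]⟩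
noncomputable def p002_l103 : Lf2 := ⟨nat_lit 0, nat_lit 3, [nat_lit 45, nat_lit 5, nat_lit 5, nat_lit 20], true, nat_lit 0, nat_lit 0, nat_lit 0, nat_lit 0, ⟨nat_lit 0, nat_lit 0, nat_lit 1000, nat_lit 5, nat_lit 35, nat_lit 0, nat_lit 0, nat_lit 0, nat_lit 0, nat_lit 215, nat_lit 11267, nat_lit 241, nat_lit 66487860, nat_lit 0, nat_lit 0, nat_lit 223987, false, false⟩,
 nat_lit 0, nat_lit 100000, nat_lit 0, nat_lit 100000, nat_lit 46820, nat_lit 0, nat_lit 37180, nat_lit 1838, nat_lit 0, nat_lit 0, nat_lit 0, nat_lit 0, nat_lit 0, nat_lit 400000000000000, nat_lit 0, nat_lit 1000000, nat_lit 0, nat_lit 0, [(nat_lit 0, [(nat_lit 6, nat_lit 1000)])],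
 ⟨p002_k36, nat_lit 0, nat_lit 0, nat_lit 331, nat_lit 0, nat_lit 87500, [nat_lit 37578000000, nat_lit 43304800000, nat_lit 48970400000], [], [nat_lit 48982632656, nat_lit 49236894232, nat_lit 46291925879, nat_lit 46463349353], nat_lit 1271250, nat_lit 1271250, nat_lit 0, nat_lit 21650, nat_lit 0, nat_lit 0, [nat_lit 1412500, nat_lit 1271250, nat_lit 1271250], [nat_lit 25, nat_lit 40, nat_lit 20, nat_lit 80, nat_lit 17, nat_lit 272, nat_lit 60, nat_lit 8]⟩, C1.Rw.none,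
 ⟨nat_lit 6763, nat_lit 6783, ⟨.ofNat (nat_lit 82386), .ofNat (nat_lit 91082), .ofNat (nat_lit 83459), .ofNat (nat_lit 92155), .ofNat (nat_lit 83386), .ofNat (nat_lit 92062), .ofNat (nat_lit 84459), .ofNat (nat_lit 93134)⟩, ⟨.ofNat (nat_lit 0), .ofNat (nat_lit 0), .ofNat (nat_lit 0), .ofNat (nat_lit 0), .ofNat (nat_lit 0), .ofNat (nat_lit 0), .ofNat (nat_lit 0), .ofNat (nat_lit 0)⟩⟩, [⟨nat_lit 0, nat_lit 100, nat_lit 100, nat_lit 16, nat_lit 10000000000⟩, ⟨nat_lit 0, nat_lit 100, nat_lit 100, nat_lit 17, nat_lit 10000000000⟩, ⟨nat_lit 0, nat_lit 100, nat_lit 100, nat_lit 16, nat_lit 10000000000⟩]⟩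
noncomputable def p002_l104 : Lf2 := ⟨nat_lit 0, nat_lit 4, [nat_lit 38, nat_lit 5, nat_lit 5, nat_lit 20], true, nat_lit 0, nat_lit 0, nat_lit 0, nat_lit 0, ⟨nat_lit 0, nat_lit 0, nat_lit 1000, nat_lit 5, nat_lit 35, nat_lit 0, nat_lit 0, nat_lit 0, nat_lit 0, nat_lit 215, nat_lit 11267, nat_lit 241, nat_lit 66487860, nat_lit 0, nat_lit 0, nat_lit 223987, false, false⟩,
 nat_lit 0, nat_lit 10247, nat_lit 0, nat_lit 0, nat_lit 4797, nat_lit 0, nat_lit 1375, nat_lit 0, nat_lit 0, nat_lit 0, nat_lit 0, nat_lit 0, nat_lit 0, nat_lit 23931789105862, nat_lit 53, nat_lit 380000, nat_lit 0, nat_lit 0, [(nat_lit 0, [(nat_lit 3, nat_lit 100), (nat_lit 5, nat_lit 900)])],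
 ⟨p002_k37, nat_lit 0, nat_lit 0, nat_lit 0, nat_lit 0, nat_lit 47756, [nat_lit 2919640001, nat_lit 1431640001, nat_lit 702680001, nat_lit 18600000], [], [nat_lit 12937695575, nat_lit 12987121211, nat_lit 12695674214, nat_lit 12745099380], nat_lit 1271250, nat_lit 1271250, nat_lit 0, nat_lit 21650, nat_lit 0, nat_lit 0, [nat_lit 631250, nat_lit 1431250, nat_lit 1271250, nat_lit 1271250], [nat_lit 130, nat_lit 40, nat_lit 20, nat_lit 40]⟩, C1.Rw.none,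
 ⟨nat_lit 6763, nat_lit 6783, ⟨.ofNat (nat_lit 82386), .ofNat (nat_lit 91082), .ofNat (nat_lit 83459), .ofNat (nat_lit 92155), .ofNat (nat_lit 83386), .ofNat (nat_lit 92062), .ofNat (nat_lit 84459), .ofNat (nat_lit 93134)⟩, ⟨.ofNat (nat_lit 0), .ofNat (nat_lit 0), .ofNat (nat_lit 0), .ofNat (nat_lit 0), .ofNat (nat_lit 0), .ofNat (nat_lit 0), .ofNat (nat_lit 0), .ofNat (nat_lit 0)⟩⟩, [⟨nat_lit 0, nat_lit 100, nat_lit 100, nat_lit 17, nat_lit 406909904⟩]⟩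
noncomputable def p002_l105 : Lf2 := ⟨nat_lit 0, nat_lit 4, [nat_lit 38, nat_lit 5, nat_lit 5, nat_lit 20], true, nat_lit 0, nat_lit 0, nat_lit 0, nat_lit 0, ⟨nat_lit 0, nat_lit 0, nat_lit 1000, nat_lit 5, nat_lit 35, nat_lit 0, nat_lit 0, nat_lit 0, nat_lit 0, nat_lit 215, nat_lit 11267, nat_lit 241, nat_lit 66487860, nat_lit 0, nat_lit 0, nat_lit 223987, false, false⟩,
 nat_lit 0, nat_lit 100000, nat_lit 0, nat_lit 100000, nat_lit 46820, nat_lit 0, nat_lit 9779, nat_lit 2188, nat_lit 0, nat_lit 0, nat_lit 0, nat_lit 0, nat_lit 0, nat_lit 400000000000000, nat_lit 0, nat_lit 1000000, nat_lit 0, nat_lit 0, [(nat_lit 0, [(nat_lit 6, nat_lit 1000)])],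
 ⟨p002_k34, nat_lit 0, nat_lit 0, nat_lit 314, nat_lit 0, nat_lit 47756, [nat_lit 44578000001, nat_lit 51704800000, nat_lit 58770400000], [], [nat_lit 96162448133, nat_lit 96330618732, nat_lit 93447244253, nat_lit 93554820635], nat_lit 1271250, nat_lit 1271250, nat_lit 0, nat_lit 21650, nat_lit 0, nat_lit 0, [nat_lit 1412500, nat_lit 1271250, nat_lit 1271250], [nat_lit 25, nat_lit 40, nat_lit 20, nat_lit 80, nat_lit 17, nat_lit 272, nat_lit 60, nat_lit 8]⟩, C1.Rw.none,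
 ⟨nat_lit 6763, nat_lit 6783, ⟨.ofNat (nat_lit 82386), .ofNat (nat_lit 91082), .ofNat (nat_lit 83459), .ofNat (nat_lit 92155), .ofNat (nat_lit 83386), .ofNat (nat_lit 92062), .ofNat (nat_lit 84459), .ofNat (nat_lit 93134)⟩, ⟨.ofNat (nat_lit 0), .ofNat (nat_lit 0), .ofNat (nat_lit 0), .ofNat (nat_lit 0), .ofNat (nat_lit 0), .ofNat (nat_lit 0), .ofNat (nat_lit 0), .ofNat (nat_lit 0)⟩⟩, [⟨nat_lit 0, nat_lit 100, nat_lit 100, nat_lit 16, nat_lit 10000000000⟩, ⟨nat_lit 0, nat_lit 100, nat_lit 100, nat_lit 17, nat_lit 10000000000⟩, ⟨nat_lit 0, nat_lit 100, nat_lit 100, nat_lit 16, nat_lit 10000000000⟩, ⟨nat_lit 13, nat_lit 100, nat_lit 1, nat_lit 100, nat_lit 76766903⟩]⟩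
noncomputable def p002_l106 : Lf2 := ⟨nat_lit 0, nat_lit 4, [nat_lit 38, nat_lit 5, nat_lit 5, nat_lit 20], true, nat_lit 0, nat_lit 0, nat_lit 0, nat_lit 0, ⟨nat_lit 0, nat_lit 0, nat_lit 1000, nat_lit 5, nat_lit 38, nat_lit 0, nat_lit 0, nat_lit 0, nat_lit 0, nat_lit 215, nat_lit 14017, nat_lit 244, nat_lit 66389248, nat_lit 0, nat_lit 0, nat_lit 259232, false, false⟩,
 nat_lit 0, nat_lit 11357, nat_lit 0, nat_lit 0, nat_lit 5317, nat_lit 0, nat_lit 948, nat_lit 0, nat_lit 0, nat_lit 0, nat_lit 0, nat_lit 0, nat_lit 0, nat_lit 29633280836971, nat_lit 90, nat_lit 1000000, nat_lit 0, nat_lit 0, [(nat_lit 0, [(nat_lit 6, nat_lit 1000)])],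
 ⟨p002_k34, nat_lit 0, nat_lit 0, nat_lit 326, nat_lit 0, nat_lit 88258, [nat_lit 2618000001, nat_lit 1352800000, nat_lit 26400000], [], [nat_lit 13008404834, nat_lit 13052956957, nat_lit 12786721581, nat_lit 12831242876], nat_lit 1271250, nat_lit 1271250, nat_lit 21650, nat_lit 43600, nat_lit 0, nat_lit 0, [nat_lit 1412500, nat_lit 1271250, nat_lit 1271250], [nat_lit 25, nat_lit 40, nat_lit 20, nat_lit 80, nat_lit 17, nat_lit 272, nat_lit 60, nat_lit 8]⟩, C1.Rw.none,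
 ⟨nat_lit 6763, nat_lit 6783, ⟨.ofNat (nat_lit 90009), .ofNat (nat_lit 98704), .ofNat (nat_lit 92155), .ofNat (nat_lit 100850), .ofNat (nat_lit 90989), .ofNat (nat_lit 99664), .ofNat (nat_lit 93134), .ofNat (nat_lit 101810)⟩, ⟨.ofNat (nat_lit 0), .ofNat (nat_lit 0), .ofNat (nat_lit 0), .ofNat (nat_lit 0), .ofNat (nat_lit 0), .ofNat (nat_lit 0), .ofNat (nat_lit 0), .ofNat (nat_lit 0)⟩⟩, []⟩
noncomputable def p002_l107 : Lf2 := ⟨nat_lit 0, nat_lit 4, [nat_lit 38, nat_lit 5, nat_lit 5, nat_lit 20], true, nat_lit 0, nat_lit 0, nat_lit 0, nat_lit 0, ⟨nat_lit 0, nat_lit 0, nat_lit 1000, nat_lit 5, nat_lit 36, nat_lit 0, nat_lit 0, nat_lit 0, nat_lit 0, nat_lit 215, nat_lit 12150, nat_lit 242, nat_lit 66476351, nat_lit 0, nat_lit 0, nat_lit 228168, false, false⟩,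
 nat_lit 0, nat_lit 10310, nat_lit 0, nat_lit 0, nat_lit 4853, nat_lit 0, nat_lit 1435, nat_lit 0, nat_lit 0, nat_lit 0, nat_lit 0, nat_lit 0, nat_lit 0, nat_lit 23095587572981, nat_lit 53, nat_lit 379200, nat_lit 0, nat_lit 0, [(nat_lit 0, [(nat_lit 3, nat_lit 104), (nat_lit 5, nat_lit 896)])],
 ⟨p002_k38, nat_lit 0, nat_lit 0, nat_lit 0, nat_lit 0, nat_lit 96135, [nat_lit 2969934934, nat_lit 1431126045, nat_lit 703251201, nat_lit 19920000], [], [nat_lit 12843775810, nat_lit 12903615379, nat_lit 12539619082, nat_lit 12589262756], nat_lit 1271250, nat_lit 1271250, nat_lit 0, nat_lit 21650, nat_lit 0, nat_lit 0, [nat_lit 631250, nat_lit 1431250, nat_lit 1271250, nat_lit 1271250], [nat_lit 130, nat_lit 40, nat_lit 20, nat_lit 40]⟩, C1.Rw.none,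
 ⟨nat_lit 6745, nat_lit 6764, ⟨.ofNat (nat_lit 82313), .ofNat (nat_lit 90989), .ofNat (nat_lit 85531), .ofNat (nat_lit 94207), .ofNat (nat_lit 83311), .ofNat (nat_lit 91967), .ofNat (nat_lit 86528), .ofNat (nat_lit 95184)⟩, ⟨.ofNat (nat_lit 0), .ofNat (nat_lit 0), .ofNat (nat_lit 0), .ofNat (nat_lit 0), .ofNat (nat_lit 0), .ofNat (nat_lit 0), .ofNat (nat_lit 0), .ofNat (nat_lit 0)⟩⟩, [⟨nat_lit 0, nat_lit 100, nat_lit 100, nat_lit 18, nat_lit 497971003⟩]⟩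
noncomputable def p002_l108 : Lf2 := ⟨nat_lit 0, nat_lit 4, [nat_lit 38, nat_lit 5, nat_lit 5, nat_lit 20], true, nat_lit 0, nat_lit 0, nat_lit 0, nat_lit 0, ⟨nat_lit 0, nat_lit 0, nat_lit 1000, nat_lit 5, nat_lit 36, nat_lit 0, nat_lit 0, nat_lit 0, nat_lit 0, nat_lit 215, nat_lit 12150, nat_lit 242, nat_lit 66476351, nat_lit 0, nat_lit 0, nat_lit 228168, false, false⟩,
 nat_lit 0, nat_lit 100000, nat_lit 0, nat_lit 100000, nat_lit 47071, nat_lit 0, nat_lit 22623, nat_lit 1853, nat_lit 0, nat_lit 0, nat_lit 0, nat_lit 0, nat_lit 0, nat_lit 367704836634540, nat_lit 0, nat_lit 1000000, nat_lit 0, nat_lit 0, [(nat_lit 0, [(nat_lit 6, nat_lit 1000)])],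
 ⟨p002_k3, nat_lit 0, nat_lit 0, nat_lit 335, nat_lit 0, nat_lit 96135, [nat_lit 37878000000, nat_lit 43664800000, nat_lit 49390400000], [], [nat_lit 58229905589, nat_lit 58454327243, nat_lit 55485413109, nat_lit 55657603871], nat_lit 1271250, nat_lit 1271250, nat_lit 0, nat_lit 21650, nat_lit 0, nat_lit 0, [nat_lit 1412500, nat_lit 1271250, nat_lit 1271250], [nat_lit 25, nat_lit 40, nat_lit 20, nat_lit 80, nat_lit 17, nat_lit 272, nat_lit 60, nat_lit 8]⟩, C1.Rw.none,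
 ⟨nat_lit 6745, nat_lit 6764, ⟨.ofNat (nat_lit 82313), .ofNat (nat_lit 90989), .ofNat (nat_lit 85531), .ofNat (nat_lit 94207), .ofNat (nat_lit 83311), .ofNat (nat_lit 91967), .ofNat (nat_lit 86528), .ofNat (nat_lit 95184)⟩, ⟨.ofNat (nat_lit 0), .ofNat (nat_lit 0), .ofNat (nat_lit 0), .ofNat (nat_lit 0), .ofNat (nat_lit 0), .ofNat (nat_lit 0), .ofNat (nat_lit 0), .ofNat (nat_lit 0)⟩⟩, [⟨nat_lit 0, nat_lit 100, nat_lit 100, nat_lit 17, nat_lit 10000000000⟩, ⟨nat_lit 0, nat_lit 100, nat_lit 100, nat_lit 18, nat_lit 10000000000⟩, ⟨nat_lit 0, nat_lit 100, nat_lit 100, nat_lit 16, nat_lit 10000000000⟩]⟩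
noncomputable def p002_l109 : Lf2 := ⟨nat_lit 0, nat_lit 4, [nat_lit 38, nat_lit 5, nat_lit 5, nat_lit 20], true, nat_lit 0, nat_lit 0, nat_lit 0, nat_lit 0, ⟨nat_lit 0, nat_lit 0, nat_lit 1000, nat_lit 5, nat_lit 39, nat_lit 0, nat_lit 0, nat_lit 0, nat_lit 0, nat_lit 215, nat_lit 14017, nat_lit 244, nat_lit 66376965, nat_lit 0, nat_lit 0, nat_lit 263533, false, false⟩,
 nat_lit 0, nat_lit 11247, nat_lit 0, nat_lit 0, nat_lit 5294, nat_lit 0, nat_lit 925, nat_lit 0, nat_lit 0, nat_lit 0, nat_lit 0, nat_lit 0, nat_lit 0, nat_lit 0, nat_lit 90, nat_lit 1000000, nat_lit 0, nat_lit 0, [(nat_lit 0, [(nat_lit 6, nat_lit 1000)])],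
 ⟨p002_k3, nat_lit 0, nat_lit 0, nat_lit 327, nat_lit 0, nat_lit 91960, [nat_lit 2618000001, nat_lit 1352800000, nat_lit 26400000], [], [nat_lit 13066805298, nat_lit 13111287113, nat_lit 12846265642, nat_lit 12890716607], nat_lit 1271250, nat_lit 1271250, nat_lit 21650, nat_lit 43600, nat_lit 0, nat_lit 0, [nat_lit 1412500, nat_lit 1271250, nat_lit 1271250], [nat_lit 25, nat_lit 40, nat_lit 20, nat_lit 80, nat_lit 17, nat_lit 272, nat_lit 60, nat_lit 8]⟩, C1.Rw.none,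
 ⟨nat_lit 6745, nat_lit 6764, ⟨.ofNat (nat_lit 90989), .ofNat (nat_lit 99664), .ofNat (nat_lit 93134), .ofNat (nat_lit 101810), .ofNat (nat_lit 91967), .ofNat (nat_lit 100622), .ofNat (nat_lit 94111), .ofNat (nat_lit 102767)⟩, ⟨.ofNat (nat_lit 0), .ofNat (nat_lit 0), .ofNat (nat_lit 0), .ofNat (nat_lit 0), .ofNat (nat_lit 0), .ofNat (nat_lit 0), .ofNat (nat_lit 0), .ofNat (nat_lit 0)⟩⟩, []⟩
noncomputable def p002_l110 : Lf2 := ⟨nat_lit 0, nat_lit 3, [nat_lit 45, nat_lit 5, nat_lit 5, nat_lit 20], true, nat_lit 0, nat_lit 0, nat_lit 0, nat_lit 0, ⟨nat_lit 0, nat_lit 0, nat_lit 1000, nat_lit 5, nat_lit 39, nat_lit 0, nat_lit 0, nat_lit 0, nat_lit 0, nat_lit 215, nat_lit 15000, nat_lit 245, nat_lit 66356302, nat_lit 0, nat_lit 0, nat_lit 270719, false, false⟩,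
 nat_lit 0, nat_lit 10089, nat_lit 0, nat_lit 0, nat_lit 4748, nat_lit 0, nat_lit 1657, nat_lit 0, nat_lit 0, nat_lit 0, nat_lit 0, nat_lit 0, nat_lit 0, nat_lit 0, nat_lit 47, nat_lit 400000, nat_lit 0, nat_lit 0, [(nat_lit 0, [(nat_lit 5, nat_lit 1000)])],
 ⟨p002_k39, nat_lit 0, nat_lit 0, nat_lit 0, nat_lit 0, nat_lit 95221, [nat_lit 1602266667, nat_lit 1324488889, nat_lit 544400001, nat_lit 22800000], [], [nat_lit 12252399867, nat_lit 12302004607, nat_lit 12013328911, nat_lit 12063158393], nat_lit 1271250, nat_lit 1271250, nat_lit 21650, nat_lit 43600, nat_lit 0, nat_lit 0, [nat_lit 631250, nat_lit 1431250, nat_lit 1271250, nat_lit 1271250], [nat_lit 151, nat_lit 40, nat_lit 20, nat_lit 40]⟩, C1.Rw.none,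
 ⟨nat_lit 6745, nat_lit 6764, ⟨.ofNat (nat_lit 93134), .ofNat (nat_lit 101810), .ofNat (nat_lit 94207), .ofNat (nat_lit 102882), .ofNat (nat_lit 94111), .ofNat (nat_lit 102767), .ofNat (nat_lit 95184), .ofNat (nat_lit 103839)⟩, ⟨.ofNat (nat_lit 0), .ofNat (nat_lit 0), .ofNat (nat_lit 0), .ofNat (nat_lit 0), .ofNat (nat_lit 0), .ofNat (nat_lit 0), .ofNat (nat_lit 0), .ofNat (nat_lit 0)⟩⟩, []⟩
noncomputable def p002_l111 : Lf2 := ⟨nat_lit 0, nat_lit 3, [nat_lit 45, nat_lit 5, nat_lit 5, nat_lit 20], true, nat_lit 0, nat_lit 0, nat_lit 0, nat_lit 0, ⟨nat_lit 0, nat_lit 0, nat_lit 1000, nat_lit 5, nat_lit 39, nat_lit 0, nat_lit 0, nat_lit 0, nat_lit 0, nat_lit 215, nat_lit 15000, nat_lit 245, nat_lit 66356302, nat_lit 0, nat_lit 0, nat_lit 270719, false, false⟩,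
 nat_lit 0, nat_lit 100000, nat_lit 0, nat_lit 100000, nat_lit 47071, nat_lit 0, nat_lit 28440, nat_lit 1831, nat_lit 0, nat_lit 0, nat_lit 0, nat_lit 0, nat_lit 0, nat_lit 400000000000000, nat_lit 0, nat_lit 1000000, nat_lit 0, nat_lit 0, [(nat_lit 0, [(nat_lit 6, nat_lit 1000)])],
 ⟨p002_k40, nat_lit 0, nat_lit 0, nat_lit 329, nat_lit 0, nat_lit 95221, [nat_lit 37438000000, nat_lit 43136800000, nat_lit 48774400000], [], [nat_lit 50506137573, nat_lit 50761823943, nat_lit 47797182950, nat_lit 47969381297], nat_lit 1271250, nat_lit 1271250, nat_lit 21650, nat_lit 43600, nat_lit 0, nat_lit 0, [nat_lit 1412500, nat_lit 1271250, nat_lit 1271250], [nat_lit 25, nat_lit 40, nat_lit 20, nat_lit 80, nat_lit 17, nat_lit 272, nat_lit 60, nat_lit 8]⟩, C1.Rw.none,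
 ⟨nat_lit 6745, nat_lit 6764, ⟨.ofNat (nat_lit 93134), .ofNat (nat_lit 101810), .ofNat (nat_lit 94207), .ofNat (nat_lit 102882), .ofNat (nat_lit 94111), .ofNat (nat_lit 102767), .ofNat (nat_lit 95184), .ofNat (nat_lit 103839)⟩, ⟨.ofNat (nat_lit 0), .ofNat (nat_lit 0), .ofNat (nat_lit 0), .ofNat (nat_lit 0), .ofNat (nat_lit 0), .ofNat (nat_lit 0), .ofNat (nat_lit 0), .ofNat (nat_lit 0)⟩⟩, [⟨nat_lit 0, nat_lit 100, nat_lit 100, nat_lit 17, nat_lit 10000000000⟩]⟩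
noncomputable def p002_l112 : Lf2 := ⟨nat_lit 0, nat_lit 3, [nat_lit 45, nat_lit 5, nat_lit 5, nat_lit 20], false, nat_lit 0, nat_lit 0, nat_lit 0, nat_lit 0, ⟨nat_lit 0, nat_lit 0, nat_lit 1000, nat_lit 5, nat_lit 39, nat_lit 0, nat_lit 0, nat_lit 0, nat_lit 0, nat_lit 215, nat_lit 15000, nat_lit 245, nat_lit 66356302, nat_lit 0, nat_lit 0, nat_lit 270719, false, false⟩,
 nat_lit 11247, nat_lit 0, nat_lit 0, nat_lit 0, nat_lit 5294, nat_lit 5294, nat_lit 925, nat_lit 0, nat_lit 0, nat_lit 1853, nat_lit 240, nat_lit 0, nat_lit 0, nat_lit 0, nat_lit 90, nat_lit 1000000, nat_lit 0, nat_lit 0, [(nat_lit 0, [(nat_lit 6, nat_lit 1000)])],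
 ⟨p002_k40, nat_lit 0, nat_lit 0, nat_lit 329, nat_lit 0, nat_lit 95221, [nat_lit 2618000001, nat_lit 1352800000, nat_lit 26400000], [], [nat_lit 13066805298, nat_lit 13111287113, nat_lit 12846265642, nat_lit 12890716607], nat_lit 1271250, nat_lit 1271250, nat_lit 21650, nat_lit 43600, nat_lit 0, nat_lit 0, [nat_lit 1412500, nat_lit 1271250, nat_lit 1271250], [nat_lit 25, nat_lit 40, nat_lit 20, nat_lit 80, nat_lit 17, nat_lit 272, nat_lit 60, nat_lit 8]⟩, ⟨p002_k40, nat_lit 0, nat_lit 0, nat_lit 0, nat_lit 0, nat_lit 95221, [nat_lit 4800000000, nat_lit 5760000000, nat_lit 6720000000], [], [nat_lit 6891613982, nat_lit 6916225110, nat_lit 6572799138, nat_lit 6593493278], nat_lit 1271250, nat_lit 1271250, nat_lit 21650, nat_lit 43600, nat_lit 0, nat_lit 0, [nat_lit 1412500, nat_lit 1271250, nat_lit 1271250], [nat_lit 25, nat_lit 40, nat_lit 20, nat_lit 80]⟩,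
 ⟨nat_lit 6745, nat_lit 6764, ⟨.ofNat (nat_lit 93134), .ofNat (nat_lit 101810), .ofNat (nat_lit 94207), .ofNat (nat_lit 102882), .ofNat (nat_lit 94111), .ofNat (nat_lit 102767), .ofNat (nat_lit 95184), .ofNat (nat_lit 103839)⟩, ⟨.ofNat (nat_lit 0), .ofNat (nat_lit 0), .ofNat (nat_lit 0), .ofNat (nat_lit 0), .ofNat (nat_lit 0), .ofNat (nat_lit 0), .ofNat (nat_lit 0), .ofNat (nat_lit 0)⟩⟩, []⟩
noncomputable def p002_l113 : Lf2 := ⟨nat_lit 0, nat_lit 4, [nat_lit 38, nat_lit 5, nat_lit 5, nat_lit 20], true, nat_lit 0, nat_lit 0, nat_lit 0, nat_lit 0, ⟨nat_lit 0, nat_lit 0, nat_lit 1000, nat_lit 5, nat_lit 39, nat_lit 0, nat_lit 0, nat_lit 0, nat_lit 0, nat_lit 215, nat_lit 15000, nat_lit 245, nat_lit 66356302, nat_lit 0, nat_lit 0, nat_lit 270719, false, false⟩,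
 nat_lit 0, nat_lit 10394, nat_lit 0, nat_lit 0, nat_lit 4892, nat_lit 0, nat_lit 1479, nat_lit 0, nat_lit 0, nat_lit 0, nat_lit 0, nat_lit 0, nat_lit 0, nat_lit 26767577755814, nat_lit 53, nat_lit 378600, nat_lit 0, nat_lit 0, [(nat_lit 0, [(nat_lit 3, nat_lit 107), (nat_lit 5, nat_lit 893)])],
 ⟨p002_k38, nat_lit 0, nat_lit 0, nat_lit 0, nat_lit 0, nat_lit 55819, [nat_lit 3007656134, nat_lit 1430740578, nat_lit 703679601, nat_lit 20910000], [], [nat_lit 12467655185, nat_lit 12515203692, nat_lit 12260828618, nat_lit 12307460463], nat_lit 1271250, nat_lit 1271250, nat_lit 21650, nat_lit 43600, nat_lit 0, nat_lit 0, [nat_lit 631250, nat_lit 1431250, nat_lit 1271250, nat_lit 1271250], [nat_lit 130, nat_lit 40, nat_lit 20, nat_lit 40]⟩, C1.Rw.none,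
 ⟨nat_lit 6745, nat_lit 6764, ⟨.ofNat (nat_lit 93134), .ofNat (nat_lit 101810), .ofNat (nat_lit 94207), .ofNat (nat_lit 102882), .ofNat (nat_lit 94111), .ofNat (nat_lit 102767), .ofNat (nat_lit 95184), .ofNat (nat_lit 103839)⟩, ⟨.ofNat (nat_lit 0), .ofNat (nat_lit 0), .ofNat (nat_lit 0), .ofNat (nat_lit 0), .ofNat (nat_lit 0), .ofNat (nat_lit 0), .ofNat (nat_lit 0), .ofNat (nat_lit 0)⟩⟩, []⟩
noncomputable def p002_l114 : Lf2 := ⟨nat_lit 0, nat_lit 4, [nat_lit 38, nat_lit 5, nat_lit 5, nat_lit 20], true, nat_lit 0, nat_lit 0, nat_lit 0, nat_lit 0, ⟨nat_lit 0, nat_lit 0, nat_lit 1000, nat_lit 5, nat_lit 39, nat_lit 0, nat_lit 0, nat_lit 0, nat_lit 0, nat_lit 215, nat_lit 15000, nat_lit 245, nat_lit 66356302, nat_lit 0, nat_lit 0, nat_lit 270719, false, false⟩,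
 nat_lit 0, nat_lit 100000, nat_lit 0, nat_lit 100000, nat_lit 47071, nat_lit 0, nat_lit 42108, nat_lit 1853, nat_lit 0, nat_lit 0, nat_lit 0, nat_lit 0, nat_lit 0, nat_lit 400000000000000, nat_lit 0, nat_lit 1000000, nat_lit 0, nat_lit 0, [(nat_lit 0, [(nat_lit 6, nat_lit 1000)])],
 ⟨p002_k3, nat_lit 0, nat_lit 0, nat_lit 311, nat_lit 0, nat_lit 55819, [nat_lit 37878000000, nat_lit 43664800000, nat_lit 49390400000], [], [nat_lit 42333038109, nat_lit 42505228871, nat_lit 39979282950, nat_lit 40151481297], nat_lit 1271250, nat_lit 1271250, nat_lit 21650, nat_lit 43600, nat_lit 0, nat_lit 0, [nat_lit 1412500, nat_lit 1271250, nat_lit 1271250], [nat_lit 25, nat_lit 40, nat_lit 20, nat_lit 80, nat_lit 17, nat_lit 272, nat_lit 60, nat_lit 8]⟩, C1.Rw.none,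
 ⟨nat_lit 6745, nat_lit 6764, ⟨.ofNat (nat_lit 93134), .ofNat (nat_lit 101810), .ofNat (nat_lit 94207), .ofNat (nat_lit 102882), .ofNat (nat_lit 94111), .ofNat (nat_lit 102767), .ofNat (nat_lit 95184), .ofNat (nat_lit 103839)⟩, ⟨.ofNat (nat_lit 0), .ofNat (nat_lit 0), .ofNat (nat_lit 0), .ofNat (nat_lit 0), .ofNat (nat_lit 0), .ofNat (nat_lit 0), .ofNat (nat_lit 0), .ofNat (nat_lit 0)⟩⟩, []⟩
noncomputable def p002_l115 : Lf2 := ⟨nat_lit 0, nat_lit 4, [nat_lit 38, nat_lit 5, nat_lit 5, nat_lit 20], true, nat_lit 0, nat_lit 0, nat_lit 0, nat_lit 0, ⟨nat_lit 0, nat_lit 0, nat_lit 1000, nat_lit 5, nat_lit 46, nat_lit 0, nat_lit 0, nat_lit 0, nat_lit 0, nat_lit 215, nat_lit 19267, nat_lit 249, nat_lit 66143120, nat_lit 0, nat_lit 0, nat_lit 342157, false, false⟩,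
 nat_lit 0, nat_lit 11590, nat_lit 0, nat_lit 0, nat_lit 5397, nat_lit 0, nat_lit 992, nat_lit 0, nat_lit 0, nat_lit 0, nat_lit 0, nat_lit 0, nat_lit 0, nat_lit 0, nat_lit 90, nat_lit 1000000, nat_lit 0, nat_lit 0, [(nat_lit 0, [(nat_lit 6, nat_lit 1000)])],
 ⟨p002_k33, nat_lit 0, nat_lit 0, nat_lit 323, nat_lit 0, nat_lit 97229, [nat_lit 2618000001, nat_lit 1352800000, nat_lit 26400000], [], [nat_lit 12628955757, nat_lit 12763253525, nat_lit 11951743171, nat_lit 12085764146], nat_lit 1271250, nat_lit 1271250, nat_lit 43600, nat_lit 111251, nat_lit 0, nat_lit 0, [nat_lit 1412500, nat_lit 1271250, nat_lit 1271250], [nat_lit 25, nat_lit 40, nat_lit 20, nat_lit 80, nat_lit 17, nat_lit 272, nat_lit 60, nat_lit 8]⟩, C1.Rw.none,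
 ⟨nat_lit 6745, nat_lit 6801, ⟨.ofNat (nat_lit 97742), .ofNat (nat_lit 123889), .ofNat (nat_lit 100962), .ofNat (nat_lit 127109), .ofNat (nat_lit 100622), .ofNat (nat_lit 126589), .ofNat (nat_lit 103839), .ofNat (nat_lit 129806)⟩, ⟨.ofNat (nat_lit 0), .ofNat (nat_lit 0), .ofNat (nat_lit 0), .ofNat (nat_lit 0), .ofNat (nat_lit 0), .ofNat (nat_lit 0), .ofNat (nat_lit 0), .ofNat (nat_lit 0)⟩⟩, []⟩
noncomputable def p002_l116 : Lf2 := ⟨nat_lit 0, nat_lit 5, [nat_lit 4, nat_lit 5, nat_lit 5, nat_lit 20], true, nat_lit 0, nat_lit 0, nat_lit 0, nat_lit 0, ⟨nat_lit 0, nat_lit 0, nat_lit 1000, nat_lit 5, nat_lit 42, nat_lit 0, nat_lit 0, nat_lit 0, nat_lit 0, nat_lit 215, nat_lit 17067, nat_lit 247, nat_lit 66267533, nat_lit 0, nat_lit 0, nat_lit 301039, false, false⟩,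
 nat_lit 0, nat_lit 9821, nat_lit 0, nat_lit 732, nat_lit 4573, nat_lit 0, nat_lit 602, nat_lit 0, nat_lit 0, nat_lit 0, nat_lit 0, nat_lit 0, nat_lit 0, nat_lit 24021836468719, nat_lit 90, nat_lit 1000000, nat_lit 0, nat_lit 0, [(nat_lit 0, [(nat_lit 6, nat_lit 1000)])],
 ⟨p002_k41, nat_lit 0, nat_lit 0, nat_lit 301, nat_lit 0, nat_lit 18865, [nat_lit 2618000001, nat_lit 1352800000, nat_lit 26400000], [], [nat_lit 13454320085, nat_lit 13597665913, nat_lit 12301481355, nat_lit 12456344237], nat_lit 1271250, nat_lit 1271250, nat_lit 0, nat_lit 111251, nat_lit 0, nat_lit 0, [nat_lit 1412500, nat_lit 1271250, nat_lit 1271250], [nat_lit 25, nat_lit 40, nat_lit 20, nat_lit 80, nat_lit 17, nat_lit 272, nat_lit 60, nat_lit 9]⟩, C1.Rw.none,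
 ⟨nat_lit 6745, nat_lit 6801, ⟨.ofNat (nat_lit 80311), .ofNat (nat_lit 123889), .ofNat (nat_lit 83530), .ofNat (nat_lit 127109), .ofNat (nat_lit 83311), .ofNat (nat_lit 126589), .ofNat (nat_lit 86528), .ofNat (nat_lit 129806)⟩, ⟨.ofNat (nat_lit 0), .ofNat (nat_lit 0), .ofNat (nat_lit 0), .ofNat (nat_lit 0), .ofNat (nat_lit 0), .ofNat (nat_lit 0), .ofNat (nat_lit 0), .ofNat (nat_lit 0)⟩⟩, [⟨nat_lit 0, nat_lit 100, nat_lit 100, nat_lit 18, nat_lit 391796639⟩]⟩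
noncomputable def b_NL_500_500_0_7 : St := ⟨false, nat_lit 1, nat_lit 1, nat_lit 1, nat_lit 20, nat_lit 215, nat_lit 218, nat_lit 215, nat_lit 220, nat_lit 0, nat_lit 20, nat_lit 0, nat_lit 0, nat_lit 0, nat_lit 0, nat_lit 0, nat_lit 0, nat_lit 8, nat_lit 20, nat_lit 0, nat_lit 0, nat_lit 0, nat_lit 800⟩
theorem d_NL_500_500_0_7 (h : EB TB.env) : Dead b_NL_500_500_0_7 := chkB_sound0 h (T :=
(.ord (.spl (nat_lit 6) (nat_lit 16)
(.spl (nat_lit 2) (nat_lit 8)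
(.spl (nat_lit 0) (nat_lit 217)
(.ord (.spl (nat_lit 0) (nat_lit 216)
(.ord (.leaf p002_l100))
(.spl (nat_lit 2) (nat_lit 4)
(.spl (nat_lit 1) (nat_lit 216)
(.leaf p002_l101)
(.spl (nat_lit 6) (nat_lit 12)
(.spl (nat_lit 7) (nat_lit 600)
(.leaf p002_l102)
(.leaf p002_l103))
(.spl (nat_lit 7) (nat_lit 600)
(.leaf p002_l104)
(.leaf p002_l105))))
(.leaf p002_l106))))
(.spl (nat_lit 2) (nat_lit 4)
(.spl (nat_lit 7) (nat_lit 600)
(.leaf p002_l107)
(.leaf p002_l108))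
(.spl (nat_lit 1) (nat_lit 217)
(.leaf p002_l109)
(.spl (nat_lit 6) (nat_lit 12)
(.spl (nat_lit 8) (nat_lit 400)
(.spl (nat_lit 7) (nat_lit 600)
(.leaf p002_l110)
(.leaf p002_l111))
(.leaf p002_l112))
(.spl (nat_lit 7) (nat_lit 600)
(.leaf p002_l113)
(.leaf p002_l114))))))
(.leaf p002_l115))
(.leaf p002_l116)))) (by decide +kernel)
noncomputable def p002_l117 : Lf2 := ⟨nat_lit 0, nat_lit 3, [nat_lit 45, nat_lit 5, nat_lit 5, nat_lit 20], true, nat_lit 0, nat_lit 0, nat_lit 0, nat_lit 0, ⟨nat_lit 0, nat_lit 0, nat_lit 1000, nat_lit 5, nat_lit 35, nat_lit 0, nat_lit 0, nat_lit 0, nat_lit 0, nat_lit 215, nat_lit 12150, nat_lit 242, nat_lit 66477356, nat_lit 0, nat_lit 0, nat_lit 227805, false, false⟩,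
 nat_lit 0, nat_lit 11073, nat_lit 0, nat_lit 0, nat_lit 5240, nat_lit 0, nat_lit 862, nat_lit 0, nat_lit 0, nat_lit 0, nat_lit 0, nat_lit 0, nat_lit 0, nat_lit 0, nat_lit 90, nat_lit 1000000, nat_lit 0, nat_lit 0, [(nat_lit 0, [(nat_lit 6, nat_lit 1000)])],
 ⟨p002_k1, nat_lit 0, nat_lit 0, nat_lit 333, nat_lit 0, nat_lit 90673, [nat_lit 2618000001, nat_lit 1352800000, nat_lit 26400000], [], [nat_lit 13527597901, nat_lit 13607822033, nat_lit 13195463253, nat_lit 13239914946], nat_lit 1271250, nat_lit 1271250, nat_lit 0, nat_lit 21650, nat_lit 0, nat_lit 0, [nat_lit 1412500, nat_lit 1271250, nat_lit 1271250], [nat_lit 25, nat_lit 40, nat_lit 20, nat_lit 80, nat_lit 17, nat_lit 272, nat_lit 60, nat_lit 8]⟩, C1.Rw.none,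
 ⟨nat_lit 6726, nat_lit 6746, ⟨.ofNat (nat_lit 83311), .ofNat (nat_lit 91967), .ofNat (nat_lit 84384), .ofNat (nat_lit 93039), .ofNat (nat_lit 84307), .ofNat (nat_lit 92942), .ofNat (nat_lit 85379), .ofNat (nat_lit 94014)⟩, ⟨.ofNat (nat_lit 0), .ofNat (nat_lit 0), .ofNat (nat_lit 0), .ofNat (nat_lit 0), .ofNat (nat_lit 0), .ofNat (nat_lit 0), .ofNat (nat_lit 0), .ofNat (nat_lit 0)⟩⟩, [⟨nat_lit 0, nat_lit 100, nat_lit 100, nat_lit 17, nat_lit 565268052⟩]⟩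
noncomputable def p002_l118 : Lf2 := ⟨nat_lit 0, nat_lit 3, [nat_lit 45, nat_lit 5, nat_lit 5, nat_lit 20], true, nat_lit 0, nat_lit 0, nat_lit 0, nat_lit 0, ⟨nat_lit 0, nat_lit 0, nat_lit 1000, nat_lit 5, nat_lit 36, nat_lit 0, nat_lit 0, nat_lit 0, nat_lit 0, nat_lit 215, nat_lit 12150, nat_lit 242, nat_lit 66464742, nat_lit 0, nat_lit 0, nat_lit 232376, false, false⟩,
 nat_lit 0, nat_lit 11223, nat_lit 0, nat_lit 0, nat_lit 5311, nat_lit 0, nat_lit 540, nat_lit 0, nat_lit 0, nat_lit 0, nat_lit 0, nat_lit 0, nat_lit 0, nat_lit 0, nat_lit 67, nat_lit 1000000, nat_lit 0, nat_lit 0, [(nat_lit 0, [(nat_lit 6, nat_lit 1000)])],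
 ⟨p002_k42, nat_lit 0, nat_lit 0, nat_lit 0, nat_lit 0, nat_lit 94718, [nat_lit 2158000000, nat_lit 800800000, nat_lit 4400000], [], [nat_lit 13654102885, nat_lit 13721037330, nat_lit 13322552261, nat_lit 13367086043], nat_lit 1271250, nat_lit 1271250, nat_lit 0, nat_lit 21650, nat_lit 0, nat_lit 0, [nat_lit 1412500, nat_lit 1271250, nat_lit 1271250], [nat_lit 156, nat_lit 40, nat_lit 20, nat_lit 40]⟩, C1.Rw.none,
 ⟨nat_lit 6726, nat_lit 6746, ⟨.ofNat (nat_lit 84384), .ofNat (nat_lit 93039), .ofNat (nat_lit 85456), .ofNat (nat_lit 94111), .ofNat (nat_lit 85379), .ofNat (nat_lit 94014), .ofNat (nat_lit 86451), .ofNat (nat_lit 95086)⟩, ⟨.ofNat (nat_lit 0), .ofNat (nat_lit 0), .ofNat (nat_lit 0), .ofNat (nat_lit 0), .ofNat (nat_lit 0), .ofNat (nat_lit 0), .ofNat (nat_lit 0), .ofNat (nat_lit 0)⟩⟩, [⟨nat_lit 0, nat_lit 100, nat_lit 100, nat_lit 18, nat_lit 547360300⟩]⟩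
noncomputable def p002_l119 : Lf2 := ⟨nat_lit 0, nat_lit 3, [nat_lit 45, nat_lit 5, nat_lit 5, nat_lit 20], true, nat_lit 0, nat_lit 0, nat_lit 0, nat_lit 0, ⟨nat_lit 0, nat_lit 0, nat_lit 1000, nat_lit 5, nat_lit 36, nat_lit 0, nat_lit 0, nat_lit 0, nat_lit 0, nat_lit 215, nat_lit 12150, nat_lit 242, nat_lit 66464742, nat_lit 0, nat_lit 0, nat_lit 232376, false, false⟩,
 nat_lit 0, nat_lit 100000, nat_lit 0, nat_lit 100000, nat_lit 47322, nat_lit 0, nat_lit 45662, nat_lit 1868, nat_lit 0, nat_lit 0, nat_lit 0, nat_lit 0, nat_lit 0, nat_lit 0, nat_lit 0, nat_lit 1000000, nat_lit 0, nat_lit 0, [(nat_lit 0, [(nat_lit 6, nat_lit 1000)])],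
 ⟨p002_k1, nat_lit 0, nat_lit 0, nat_lit 335, nat_lit 0, nat_lit 94718, [nat_lit 38178000001, nat_lit 44024800000, nat_lit 49810400000], [], [nat_lit 41436736178, nat_lit 41693380648, nat_lit 38699672416, nat_lit 38880409699], nat_lit 1271250, nat_lit 1271250, nat_lit 0, nat_lit 21650, nat_lit 0, nat_lit 0, [nat_lit 1412500, nat_lit 1271250, nat_lit 1271250], [nat_lit 25, nat_lit 40, nat_lit 20, nat_lit 80, nat_lit 17, nat_lit 272, nat_lit 60, nat_lit 8]⟩, C1.Rw.none,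
 ⟨nat_lit 6726, nat_lit 6746, ⟨.ofNat (nat_lit 84384), .ofNat (nat_lit 93039), .ofNat (nat_lit 85456), .ofNat (nat_lit 94111), .ofNat (nat_lit 85379), .ofNat (nat_lit 94014), .ofNat (nat_lit 86451), .ofNat (nat_lit 95086)⟩, ⟨.ofNat (nat_lit 0), .ofNat (nat_lit 0), .ofNat (nat_lit 0), .ofNat (nat_lit 0), .ofNat (nat_lit 0), .ofNat (nat_lit 0), .ofNat (nat_lit 0), .ofNat (nat_lit 0)⟩⟩, [⟨nat_lit 0, nat_lit 100, nat_lit 100, nat_lit 17, nat_lit 10000000000⟩, ⟨nat_lit 0, nat_lit 100, nat_lit 100, nat_lit 18, nat_lit 10000000000⟩, ⟨nat_lit 0, nat_lit 100, nat_lit 100, nat_lit 17, nat_lit 10000000000⟩]⟩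
noncomputable def p002_l120 : Lf2 := ⟨nat_lit 0, nat_lit 3, [nat_lit 45, nat_lit 5, nat_lit 5, nat_lit 20], true, nat_lit 0, nat_lit 0, nat_lit 0, nat_lit 0, ⟨nat_lit 0, nat_lit 0, nat_lit 1000, nat_lit 5, nat_lit 36, nat_lit 0, nat_lit 0, nat_lit 0, nat_lit 0, nat_lit 215, nat_lit 12150, nat_lit 242, nat_lit 66459427, nat_lit 0, nat_lit 0, nat_lit 234286, false, false⟩,
 nat_lit 0, nat_lit 11036, nat_lit 0, nat_lit 0, nat_lit 5250, nat_lit 0, nat_lit 881, nat_lit 0, nat_lit 0, nat_lit 0, nat_lit 0, nat_lit 0, nat_lit 0, nat_lit 0, nat_lit 90, nat_lit 1000000, nat_lit 0, nat_lit 0, [(nat_lit 0, [(nat_lit 6, nat_lit 1000)])],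
 ⟨p002_k14, nat_lit 0, nat_lit 0, nat_lit 337, nat_lit 0, nat_lit 98266, [nat_lit 2618000001, nat_lit 1352800000, nat_lit 26400000], [], [nat_lit 13623744851, nat_lit 13715487000, nat_lit 13178419842, nat_lit 13229850525], nat_lit 1271250, nat_lit 1271250, nat_lit 0, nat_lit 21650, nat_lit 0, nat_lit 0, [nat_lit 1412500, nat_lit 1271250, nat_lit 1271250], [nat_lit 25, nat_lit 40, nat_lit 20, nat_lit 80, nat_lit 17, nat_lit 272, nat_lit 60, nat_lit 8]⟩, C1.Rw.none,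
 ⟨nat_lit 6708, nat_lit 6727, ⟨.ofNat (nat_lit 84307), .ofNat (nat_lit 92942), .ofNat (nat_lit 86451), .ofNat (nat_lit 95086), .ofNat (nat_lit 85300), .ofNat (nat_lit 93915), .ofNat (nat_lit 87444), .ofNat (nat_lit 96059)⟩, ⟨.ofNat (nat_lit 0), .ofNat (nat_lit 0), .ofNat (nat_lit 0), .ofNat (nat_lit 0), .ofNat (nat_lit 0), .ofNat (nat_lit 0), .ofNat (nat_lit 0), .ofNat (nat_lit 0)⟩⟩, [⟨nat_lit 0, nat_lit 100, nat_lit 100, nat_lit 18, nat_lit 711708130⟩]⟩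
noncomputable def p002_l121 : Lf2 := ⟨nat_lit 0, nat_lit 4, [nat_lit 38, nat_lit 5, nat_lit 5, nat_lit 20], true, nat_lit 0, nat_lit 0, nat_lit 0, nat_lit 0, ⟨nat_lit 0, nat_lit 0, nat_lit 1000, nat_lit 5, nat_lit 36, nat_lit 0, nat_lit 0, nat_lit 0, nat_lit 0, nat_lit 215, nat_lit 12150, nat_lit 242, nat_lit 66471068, nat_lit 0, nat_lit 0, nat_lit 230087, false, false⟩,
 nat_lit 0, nat_lit 11063, nat_lit 0, nat_lit 0, nat_lit 5235, nat_lit 0, nat_lit 856, nat_lit 0, nat_lit 0, nat_lit 0, nat_lit 0, nat_lit 0, nat_lit 0, nat_lit 0, nat_lit 90, nat_lit 1000000, nat_lit 0, nat_lit 0, [(nat_lit 0, [(nat_lit 6, nat_lit 1000)])],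
 ⟨p002_k0, nat_lit 0, nat_lit 0, nat_lit 318, nat_lit 0, nat_lit 55530, [nat_lit 2618000001, nat_lit 1352800000, nat_lit 26400000], [], [nat_lit 13537120151, nat_lit 13599860624, nat_lit 13207124238, nat_lit 13251425694], nat_lit 1271250, nat_lit 1271250, nat_lit 0, nat_lit 21650, nat_lit 0, nat_lit 0, [nat_lit 1412500, nat_lit 1271250, nat_lit 1271250], [nat_lit 25, nat_lit 40, nat_lit 20, nat_lit 80, nat_lit 17, nat_lit 272, nat_lit 60, nat_lit 8]⟩, C1.Rw.none,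
 ⟨nat_lit 6726, nat_lit 6746, ⟨.ofNat (nat_lit 83311), .ofNat (nat_lit 91967), .ofNat (nat_lit 85456), .ofNat (nat_lit 94111), .ofNat (nat_lit 84307), .ofNat (nat_lit 92942), .ofNat (nat_lit 86451), .ofNat (nat_lit 95086)⟩, ⟨.ofNat (nat_lit 0), .ofNat (nat_lit 0), .ofNat (nat_lit 0), .ofNat (nat_lit 0), .ofNat (nat_lit 0), .ofNat (nat_lit 0), .ofNat (nat_lit 0), .ofNat (nat_lit 0)⟩⟩, [⟨nat_lit 0, nat_lit 100, nat_lit 100, nat_lit 18, nat_lit 540676950⟩]⟩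
noncomputable def p002_l122 : Lf2 := ⟨nat_lit 0, nat_lit 4, [nat_lit 38, nat_lit 5, nat_lit 5, nat_lit 20], true, nat_lit 0, nat_lit 0, nat_lit 0, nat_lit 0, ⟨nat_lit 0, nat_lit 0, nat_lit 1000, nat_lit 5, nat_lit 36, nat_lit 0, nat_lit 0, nat_lit 0, nat_lit 0, nat_lit 215, nat_lit 12150, nat_lit 242, nat_lit 66459427, nat_lit 0, nat_lit 0, nat_lit 234286, false, false⟩,
 nat_lit 0, nat_lit 10960, nat_lit 0, nat_lit 0, nat_lit 5214, nat_lit 0, nat_lit 834, nat_lit 0, nat_lit 0, nat_lit 0, nat_lit 0, nat_lit 0, nat_lit 0, nat_lit 0, nat_lit 90, nat_lit 1000000, nat_lit 0, nat_lit 0, [(nat_lit 0, [(nat_lit 6, nat_lit 1000)])],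
 ⟨p002_k4, nat_lit 0, nat_lit 0, nat_lit 320, nat_lit 0, nat_lit 59408, [nat_lit 2618000001, nat_lit 1352800000, nat_lit 26400000], [], [nat_lit 13597389509, nat_lit 13659086666, nat_lit 13266762637, nat_lit 13311580601], nat_lit 1271250, nat_lit 1271250, nat_lit 0, nat_lit 21650, nat_lit 0, nat_lit 0, [nat_lit 1412500, nat_lit 1271250, nat_lit 1271250], [nat_lit 25, nat_lit 40, nat_lit 20, nat_lit 80, nat_lit 17, nat_lit 272, nat_lit 60, nat_lit 8]⟩, C1.Rw.none,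
 ⟨nat_lit 6708, nat_lit 6727, ⟨.ofNat (nat_lit 84307), .ofNat (nat_lit 92942), .ofNat (nat_lit 86451), .ofNat (nat_lit 95086), .ofNat (nat_lit 85300), .ofNat (nat_lit 93915), .ofNat (nat_lit 87444), .ofNat (nat_lit 96059)⟩, ⟨.ofNat (nat_lit 0), .ofNat (nat_lit 0), .ofNat (nat_lit 0), .ofNat (nat_lit 0), .ofNat (nat_lit 0), .ofNat (nat_lit 0), .ofNat (nat_lit 0), .ofNat (nat_lit 0)⟩⟩, [⟨nat_lit 0, nat_lit 100, nat_lit 100, nat_lit 18, nat_lit 538114143⟩]⟩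
noncomputable def p002_l123 : Lf2 := ⟨nat_lit 0, nat_lit 3, [nat_lit 45, nat_lit 5, nat_lit 5, nat_lit 20], false, nat_lit 0, nat_lit 0, nat_lit 0, nat_lit 0, ⟨nat_lit 1000, nat_lit 0, nat_lit 0, nat_lit 0, nat_lit 0, nat_lit 0, nat_lit 0, nat_lit 0, nat_lit 0, nat_lit 0, nat_lit 0, nat_lit 0, nat_lit 0, nat_lit 0, nat_lit 0, nat_lit 0, false, false⟩,
 nat_lit 0, nat_lit 22948, nat_lit 0, nat_lit 0, nat_lit 10859, nat_lit 0, nat_lit 5260, nat_lit 0, nat_lit 0, nat_lit 0, nat_lit 0, nat_lit 600, nat_lit 0, nat_lit 0, nat_lit 0, nat_lit 0, nat_lit 0, nat_lit 0, [],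
 ⟨p002_k1, nat_lit 0, nat_lit 0, nat_lit 337, nat_lit 0, nat_lit 98763, [nat_lit 6250000000, nat_lit 7968000001, nat_lit 9842000000], [], [nat_lit 22410150017, nat_lit 22554853467, nat_lit 21669314372, nat_lit 21722853686], nat_lit 1271250, nat_lit 1271250, nat_lit 0, nat_lit 21650, nat_lit 0, nat_lit 0, [nat_lit 1412500, nat_lit 1271250, nat_lit 1271250], [nat_lit 25, nat_lit 40, nat_lit 20, nat_lit 80, nat_lit 17, nat_lit 272, nat_lit 60, nat_lit 8]⟩, ⟨p002_k40, nat_lit 0, nat_lit 0, nat_lit 0, nat_lit 0, nat_lit 99313, [nat_lit 6250000000, nat_lit 7968000000, nat_lit 9842000000], [], [nat_lit 5179924200, nat_lit 5222094800, nat_lit 5222392640, nat_lit 5258578561], nat_lit 1271250, nat_lit 1271250, nat_lit 0, nat_lit 21650, nat_lit 0, nat_lit 0, [nat_lit 1412500, nat_lit 1271250, nat_lit 1271250], [nat_lit 25, nat_lit 40, nat_lit 20, nat_lit 80]⟩,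
 zbF0, [⟨nat_lit 0, nat_lit 100, nat_lit 100, nat_lit 18, nat_lit 1913459805⟩]⟩
noncomputable def p002_l124 : Lf2 := ⟨nat_lit 0, nat_lit 3, [nat_lit 45, nat_lit 5, nat_lit 5, nat_lit 20], true, nat_lit 0, nat_lit 0, nat_lit 0, nat_lit 0, ⟨nat_lit 0, nat_lit 0, nat_lit 1000, nat_lit 5, nat_lit 36, nat_lit 0, nat_lit 0, nat_lit 0, nat_lit 0, nat_lit 215, nat_lit 12150, nat_lit 242, nat_lit 66451980, nat_lit 0, nat_lit 0, nat_lit 236966, false, false⟩,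
 nat_lit 0, nat_lit 9854, nat_lit 0, nat_lit 0, nat_lit 4663, nat_lit 0, nat_lit 1520, nat_lit 0, nat_lit 0, nat_lit 0, nat_lit 0, nat_lit 0, nat_lit 0, nat_lit 0, nat_lit 53, nat_lit 387400, nat_lit 0, nat_lit 0, [(nat_lit 0, [(nat_lit 3, nat_lit 63), (nat_lit 5, nat_lit 937)])],
 ⟨p002_k12, nat_lit 0, nat_lit 0, nat_lit 0, nat_lit 0, nat_lit 98763, [nat_lit 2569944534, nat_lit 1459423467, nat_lit 697396401, nat_lit 6390000], [], [nat_lit 12639346771, nat_lit 12689075434, nat_lit 12405393266, nat_lit 12454725085], nat_lit 1271250, nat_lit 1271250, nat_lit 0, nat_lit 21650, nat_lit 0, nat_lit 0, [nat_lit 780000, nat_lit 1435000, nat_lit 1271250, nat_lit 1271250], [nat_lit 140, nat_lit 40, nat_lit 20, nat_lit 80]⟩, C1.Rw.none,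
 ⟨nat_lit 6726, nat_lit 6746, ⟨.ofNat (nat_lit 85456), .ofNat (nat_lit 94111), .ofNat (nat_lit 86528), .ofNat (nat_lit 95184), .ofNat (nat_lit 86451), .ofNat (nat_lit 95086), .ofNat (nat_lit 87523), .ofNat (nat_lit 96159)⟩, ⟨.ofNat (nat_lit 0), .ofNat (nat_lit 0), .ofNat (nat_lit 0), .ofNat (nat_lit 0), .ofNat (nat_lit 0), .ofNat (nat_lit 0), .ofNat (nat_lit 0), .ofNat (nat_lit 0)⟩⟩, [⟨nat_lit 0, nat_lit 100, nat_lit 100, nat_lit 18, nat_lit 397174885⟩]⟩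
noncomputable def p002_l125 : Lf2 := ⟨nat_lit 0, nat_lit 3, [nat_lit 45, nat_lit 5, nat_lit 5, nat_lit 20], true, nat_lit 0, nat_lit 0, nat_lit 0, nat_lit 0, ⟨nat_lit 0, nat_lit 0, nat_lit 1000, nat_lit 5, nat_lit 36, nat_lit 0, nat_lit 0, nat_lit 0, nat_lit 0, nat_lit 215, nat_lit 12150, nat_lit 242, nat_lit 66451980, nat_lit 0, nat_lit 0, nat_lit 236966, false, false⟩,
 nat_lit 0, nat_lit 100000, nat_lit 0, nat_lit 100000, nat_lit 47322, nat_lit 0, nat_lit 44669, nat_lit 1868, nat_lit 0, nat_lit 0, nat_lit 0, nat_lit 0, nat_lit 0, nat_lit 0, nat_lit 0, nat_lit 1000000, nat_lit 0, nat_lit 0, [(nat_lit 0, [(nat_lit 6, nat_lit 1000)])],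
 ⟨p002_k1, nat_lit 0, nat_lit 0, nat_lit 337, nat_lit 0, nat_lit 98763, [nat_lit 38178000001, nat_lit 44024800000, nat_lit 49810400000], [], [nat_lit 42150454928, nat_lit 42407099398, nat_lit 39413391166, nat_lit 39594128449], nat_lit 1271250, nat_lit 1271250, nat_lit 0, nat_lit 21650, nat_lit 0, nat_lit 0, [nat_lit 1412500, nat_lit 1271250, nat_lit 1271250], [nat_lit 25, nat_lit 40, nat_lit 20, nat_lit 80, nat_lit 17, nat_lit 272, nat_lit 60, nat_lit 8]⟩, C1.Rw.none,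
 ⟨nat_lit 6726, nat_lit 6746, ⟨.ofNat (nat_lit 85456), .ofNat (nat_lit 94111), .ofNat (nat_lit 86528), .ofNat (nat_lit 95184), .ofNat (nat_lit 86451), .ofNat (nat_lit 95086), .ofNat (nat_lit 87523), .ofNat (nat_lit 96159)⟩, ⟨.ofNat (nat_lit 0), .ofNat (nat_lit 0), .ofNat (nat_lit 0), .ofNat (nat_lit 0), .ofNat (nat_lit 0), .ofNat (nat_lit 0), .ofNat (nat_lit 0), .ofNat (nat_lit 0)⟩⟩, [⟨nat_lit 0, nat_lit 100, nat_lit 100, nat_lit 18, nat_lit 10000000000⟩, ⟨nat_lit 0, nat_lit 100, nat_lit 100, nat_lit 18, nat_lit 10000000000⟩, ⟨nat_lit 0, nat_lit 100, nat_lit 100, nat_lit 17, nat_lit 10000000000⟩]⟩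
noncomputable def p002_l126 : Lf2 := ⟨nat_lit 0, nat_lit 3, [nat_lit 45, nat_lit 5, nat_lit 5, nat_lit 20], false, nat_lit 0, nat_lit 0, nat_lit 0, nat_lit 0, ⟨nat_lit 0, nat_lit 0, nat_lit 1000, nat_lit 5, nat_lit 36, nat_lit 0, nat_lit 0, nat_lit 0, nat_lit 0, nat_lit 215, nat_lit 12150, nat_lit 242, nat_lit 66451980, nat_lit 0, nat_lit 0, nat_lit 236966, false, false⟩,
 nat_lit 11077, nat_lit 0, nat_lit 0, nat_lit 0, nat_lit 5241, nat_lit 5214, nat_lit 854, nat_lit 0, nat_lit 0, nat_lit 2188, nat_lit 263, nat_lit 0, nat_lit 0, nat_lit 0, nat_lit 90, nat_lit 1000000, nat_lit 0, nat_lit 0, [(nat_lit 0, [(nat_lit 6, nat_lit 1000)])],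
 ⟨p002_k1, nat_lit 0, nat_lit 0, nat_lit 337, nat_lit 0, nat_lit 98763, [nat_lit 2618000001, nat_lit 1352800000, nat_lit 26400000], [], [nat_lit 13547370950, nat_lit 13609414314, nat_lit 13199743556, nat_lit 13259618654], nat_lit 1271250, nat_lit 1271250, nat_lit 0, nat_lit 21650, nat_lit 0, nat_lit 0, [nat_lit 1412500, nat_lit 1271250, nat_lit 1271250], [nat_lit 25, nat_lit 40, nat_lit 20, nat_lit 80, nat_lit 17, nat_lit 272, nat_lit 60, nat_lit 8]⟩, ⟨p002_k43, nat_lit 0, nat_lit 0, nat_lit 0, nat_lit 0, nat_lit 99313, [nat_lit 5260000000, nat_lit 5786000000, nat_lit 6838000000], [], [nat_lit 7993057733, nat_lit 8024121181, nat_lit 7614734451, nat_lit 7634546117], nat_lit 1271250, nat_lit 1271250, nat_lit 0, nat_lit 21650, nat_lit 0, nat_lit 0, [nat_lit 1412500, nat_lit 1271250, nat_lit 1271250], [nat_lit 163, nat_lit 40, nat_lit 20, nat_lit 40]⟩,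
 ⟨nat_lit 6726, nat_lit 6746, ⟨.ofNat (nat_lit 85456), .ofNat (nat_lit 94111), .ofNat (nat_lit 86528), .ofNat (nat_lit 95184), .ofNat (nat_lit 86451), .ofNat (nat_lit 95086), .ofNat (nat_lit 87523), .ofNat (nat_lit 96159)⟩, ⟨.ofNat (nat_lit 0), .ofNat (nat_lit 0), .ofNat (nat_lit 0), .ofNat (nat_lit 0), .ofNat (nat_lit 0), .ofNat (nat_lit 0), .ofNat (nat_lit 0), .ofNat (nat_lit 0)⟩⟩, [⟨nat_lit 0, nat_lit 100, nat_lit 100, nat_lit 18, nat_lit 1028875651⟩]⟩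
noncomputable def p002_l127 : Lf2 := ⟨nat_lit 0, nat_lit 3, [nat_lit 45, nat_lit 5, nat_lit 5, nat_lit 20], false, nat_lit 0, nat_lit 0, nat_lit 0, nat_lit 0, ⟨nat_lit 1000, nat_lit 0, nat_lit 0, nat_lit 0, nat_lit 0, nat_lit 0, nat_lit 0, nat_lit 0, nat_lit 0, nat_lit 0, nat_lit 0, nat_lit 0, nat_lit 0, nat_lit 0, nat_lit 0, nat_lit 0, false, false⟩,
 nat_lit 0, nat_lit 22784, nat_lit 0, nat_lit 0, nat_lit 10839, nat_lit 0, nat_lit 5114, nat_lit 0, nat_lit 0, nat_lit 0, nat_lit 0, nat_lit 600, nat_lit 0, nat_lit 0, nat_lit 0, nat_lit 0, nat_lit 0, nat_lit 0, [],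
 ⟨p002_k14, nat_lit 0, nat_lit 0, nat_lit 339, nat_lit 0, nat_lit 102265, [nat_lit 6250000000, nat_lit 7968000001, nat_lit 9842000000], [], [nat_lit 22523007831, nat_lit 22667522436, nat_lit 21576309205, nat_lit 21629800184], nat_lit 1271250, nat_lit 1271250, nat_lit 0, nat_lit 21650, nat_lit 0, nat_lit 0, [nat_lit 1412500, nat_lit 1271250, nat_lit 1271250], [nat_lit 25, nat_lit 40, nat_lit 20, nat_lit 80, nat_lit 17, nat_lit 272, nat_lit 60, nat_lit 8]⟩, ⟨p002_k40, nat_lit 0, nat_lit 0, nat_lit 0, nat_lit 0, nat_lit 103405, [nat_lit 6250000000, nat_lit 7968000000, nat_lit 9842000000], [], [nat_lit 5179924200, nat_lit 5222094800, nat_lit 5222392640, nat_lit 5258578561], nat_lit 1271250, nat_lit 1271250, nat_lit 0, nat_lit 21650, nat_lit 0, nat_lit 0, [nat_lit 1412500, nat_lit 1271250, nat_lit 1271250], [nat_lit 25, nat_lit 40, nat_lit 20, nat_lit 80]⟩,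
 zbF0, [⟨nat_lit 0, nat_lit 100, nat_lit 100, nat_lit 19, nat_lit 2168895281⟩]⟩
noncomputable def p002_l128 : Lf2 := ⟨nat_lit 0, nat_lit 3, [nat_lit 45, nat_lit 5, nat_lit 5, nat_lit 20], true, nat_lit 0, nat_lit 0, nat_lit 0, nat_lit 0, ⟨nat_lit 0, nat_lit 0, nat_lit 1000, nat_lit 5, nat_lit 37, nat_lit 0, nat_lit 0, nat_lit 0, nat_lit 0, nat_lit 215, nat_lit 13067, nat_lit 243, nat_lit 66440140, nat_lit 0, nat_lit 0, nat_lit 241215, false, false⟩,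
 nat_lit 0, nat_lit 9776, nat_lit 0, nat_lit 0, nat_lit 4650, nat_lit 0, nat_lit 1436, nat_lit 0, nat_lit 0, nat_lit 0, nat_lit 0, nat_lit 0, nat_lit 0, nat_lit 0, nat_lit 53, nat_lit 387400, nat_lit 0, nat_lit 0, [(nat_lit 0, [(nat_lit 3, nat_lit 63), (nat_lit 5, nat_lit 937)])],
 ⟨p002_k15, nat_lit 0, nat_lit 0, nat_lit 0, nat_lit 0, nat_lit 102265, [nat_lit 2569944534, nat_lit 1459423467, nat_lit 697396401, nat_lit 6390000], [], [nat_lit 12705639017, nat_lit 12755652068, nat_lit 12479252533, nat_lit 12528493283], nat_lit 1271250, nat_lit 1271250, nat_lit 0, nat_lit 21650, nat_lit 0, nat_lit 0, [nat_lit 780000, nat_lit 1435000, nat_lit 1271250, nat_lit 1271250], [nat_lit 140, nat_lit 40, nat_lit 20, nat_lit 80]⟩, C1.Rw.none,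
 ⟨nat_lit 6708, nat_lit 6727, ⟨.ofNat (nat_lit 86451), .ofNat (nat_lit 95086), .ofNat (nat_lit 87523), .ofNat (nat_lit 96159), .ofNat (nat_lit 87444), .ofNat (nat_lit 96059), .ofNat (nat_lit 88516), .ofNat (nat_lit 97131)⟩, ⟨.ofNat (nat_lit 0), .ofNat (nat_lit 0), .ofNat (nat_lit 0), .ofNat (nat_lit 0), .ofNat (nat_lit 0), .ofNat (nat_lit 0), .ofNat (nat_lit 0), .ofNat (nat_lit 0)⟩⟩, [⟨nat_lit 0, nat_lit 100, nat_lit 100, nat_lit 19, nat_lit 396615213⟩]⟩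
noncomputable def p002_l129 : Lf2 := ⟨nat_lit 0, nat_lit 3, [nat_lit 45, nat_lit 5, nat_lit 5, nat_lit 20], true, nat_lit 0, nat_lit 0, nat_lit 0, nat_lit 0, ⟨nat_lit 0, nat_lit 0, nat_lit 1000, nat_lit 5, nat_lit 37, nat_lit 0, nat_lit 0, nat_lit 0, nat_lit 0, nat_lit 215, nat_lit 13067, nat_lit 243, nat_lit 66440140, nat_lit 0, nat_lit 0, nat_lit 241215, false, false⟩,
 nat_lit 0, nat_lit 100000, nat_lit 0, nat_lit 100000, nat_lit 47574, nat_lit 0, nat_lit 48171, nat_lit 1884, nat_lit 0, nat_lit 0, nat_lit 0, nat_lit 0, nat_lit 0, nat_lit 0, nat_lit 0, nat_lit 1000000, nat_lit 0, nat_lit 0, [(nat_lit 0, [(nat_lit 6, nat_lit 1000)])],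
 ⟨p002_k14, nat_lit 0, nat_lit 0, nat_lit 339, nat_lit 0, nat_lit 102265, [nat_lit 38498000001, nat_lit 44408800000, nat_lit 50258400000], [], [nat_lit 38659754860, nat_lit 38917595523, nat_lit 35917280904, nat_lit 36091009296], nat_lit 1271250, nat_lit 1271250, nat_lit 0, nat_lit 21650, nat_lit 0, nat_lit 0, [nat_lit 1412500, nat_lit 1271250, nat_lit 1271250], [nat_lit 25, nat_lit 40, nat_lit 20, nat_lit 80, nat_lit 17, nat_lit 272, nat_lit 60, nat_lit 8]⟩, C1.Rw.none,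
 ⟨nat_lit 6708, nat_lit 6727, ⟨.ofNat (nat_lit 86451), .ofNat (nat_lit 95086), .ofNat (nat_lit 87523), .ofNat (nat_lit 96159), .ofNat (nat_lit 87444), .ofNat (nat_lit 96059), .ofNat (nat_lit 88516), .ofNat (nat_lit 97131)⟩, ⟨.ofNat (nat_lit 0), .ofNat (nat_lit 0), .ofNat (nat_lit 0), .ofNat (nat_lit 0), .ofNat (nat_lit 0), .ofNat (nat_lit 0), .ofNat (nat_lit 0), .ofNat (nat_lit 0)⟩⟩, [⟨nat_lit 0, nat_lit 100, nat_lit 100, nat_lit 18, nat_lit 10000000000⟩, ⟨nat_lit 0, nat_lit 100, nat_lit 100, nat_lit 19, nat_lit 10000000000⟩, ⟨nat_lit 0, nat_lit 100, nat_lit 100, nat_lit 18, nat_lit 10000000000⟩]⟩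
noncomputable def p002_l130 : Lf2 := ⟨nat_lit 0, nat_lit 3, [nat_lit 45, nat_lit 5, nat_lit 5, nat_lit 20], false, nat_lit 0, nat_lit 0, nat_lit 0, nat_lit 0, ⟨nat_lit 0, nat_lit 0, nat_lit 1000, nat_lit 5, nat_lit 37, nat_lit 0, nat_lit 0, nat_lit 0, nat_lit 0, nat_lit 215, nat_lit 13067, nat_lit 243, nat_lit 66440140, nat_lit 0, nat_lit 0, nat_lit 241215, false, false⟩,
 nat_lit 11049, nat_lit 0, nat_lit 0, nat_lit 0, nat_lit 5256, nat_lit 5200, nat_lit 883, nat_lit 0, nat_lit 0, nat_lit 1820, nat_lit 236, nat_lit 0, nat_lit 0, nat_lit 0, nat_lit 90, nat_lit 1000000, nat_lit 0, nat_lit 0, [(nat_lit 0, [(nat_lit 6, nat_lit 1000)])],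
 ⟨p002_k14, nat_lit 0, nat_lit 0, nat_lit 339, nat_lit 0, nat_lit 102265, [nat_lit 2618000001, nat_lit 1352800000, nat_lit 26400000], [], [nat_lit 13633298541, nat_lit 13725097344, nat_lit 13168221140, nat_lit 13238132084], nat_lit 1271250, nat_lit 1271250, nat_lit 0, nat_lit 21650, nat_lit 0, nat_lit 0, [nat_lit 1412500, nat_lit 1271250, nat_lit 1271250], [nat_lit 25, nat_lit 40, nat_lit 20, nat_lit 80, nat_lit 17, nat_lit 272, nat_lit 60, nat_lit 8]⟩, ⟨p002_k40, nat_lit 0, nat_lit 0, nat_lit 0, nat_lit 0, nat_lit 103405, [nat_lit 4720000000, nat_lit 5664000000, nat_lit 6608000000], [], [nat_lit 7160450600, nat_lit 7188939520, nat_lit 6781927977, nat_lit 6802218064], nat_lit 1271250, nat_lit 1271250, nat_lit 0, nat_lit 21650, nat_lit 0, nat_lit 0, [nat_lit 1412500, nat_lit 1271250, nat_lit 1271250], [nat_lit 25, nat_lit 40, nat_lit 20, nat_lit 80]⟩,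
 ⟨nat_lit 6708, nat_lit 6727, ⟨.ofNat (nat_lit 86451), .ofNat (nat_lit 95086), .ofNat (nat_lit 87523), .ofNat (nat_lit 96159), .ofNat (nat_lit 87444), .ofNat (nat_lit 96059), .ofNat (nat_lit 88516), .ofNat (nat_lit 97131)⟩, ⟨.ofNat (nat_lit 0), .ofNat (nat_lit 0), .ofNat (nat_lit 0), .ofNat (nat_lit 0), .ofNat (nat_lit 0), .ofNat (nat_lit 0), .ofNat (nat_lit 0), .ofNat (nat_lit 0)⟩⟩, [⟨nat_lit 0, nat_lit 100, nat_lit 100, nat_lit 19, nat_lit 1199847366⟩]⟩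
noncomputable def p002_l131 : Lf2 := ⟨nat_lit 0, nat_lit 4, [nat_lit 38, nat_lit 5, nat_lit 5, nat_lit 20], true, nat_lit 0, nat_lit 0, nat_lit 0, nat_lit 0, ⟨nat_lit 0, nat_lit 0, nat_lit 1000, nat_lit 5, nat_lit 36, nat_lit 0, nat_lit 0, nat_lit 0, nat_lit 0, nat_lit 215, nat_lit 12150, nat_lit 242, nat_lit 66451980, nat_lit 0, nat_lit 0, nat_lit 236966, false, false⟩,
 nat_lit 0, nat_lit 10113, nat_lit 0, nat_lit 0, nat_lit 4785, nat_lit 0, nat_lit 1419, nat_lit 0, nat_lit 0, nat_lit 0, nat_lit 0, nat_lit 0, nat_lit 0, nat_lit 0, nat_lit 53, nat_lit 380000, nat_lit 0, nat_lit 0, [(nat_lit 0, [(nat_lit 3, nat_lit 100), (nat_lit 5, nat_lit 900)])],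
 ⟨p002_k44, nat_lit 0, nat_lit 0, nat_lit 0, nat_lit 0, nat_lit 59693, [nat_lit 2919640001, nat_lit 1431640001, nat_lit 702680001, nat_lit 18600000], [], [nat_lit 12823378901, nat_lit 12883333814, nat_lit 12518657145, nat_lit 12569822452], nat_lit 1271250, nat_lit 1271250, nat_lit 0, nat_lit 21650, nat_lit 0, nat_lit 0, [nat_lit 631250, nat_lit 1431250, nat_lit 1271250, nat_lit 1271250], [nat_lit 130, nat_lit 40, nat_lit 20, nat_lit 40]⟩, C1.Rw.none,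
 ⟨nat_lit 6726, nat_lit 6746, ⟨.ofNat (nat_lit 85456), .ofNat (nat_lit 94111), .ofNat (nat_lit 86528), .ofNat (nat_lit 95184), .ofNat (nat_lit 86451), .ofNat (nat_lit 95086), .ofNat (nat_lit 87523), .ofNat (nat_lit 96159)⟩, ⟨.ofNat (nat_lit 0), .ofNat (nat_lit 0), .ofNat (nat_lit 0), .ofNat (nat_lit 0), .ofNat (nat_lit 0), .ofNat (nat_lit 0), .ofNat (nat_lit 0), .ofNat (nat_lit 0)⟩⟩, [⟨nat_lit 0, nat_lit 100, nat_lit 100, nat_lit 18, nat_lit 498782832⟩]⟩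
noncomputable def p002_l132 : Lf2 := ⟨nat_lit 0, nat_lit 4, [nat_lit 38, nat_lit 5, nat_lit 5, nat_lit 20], true, nat_lit 0, nat_lit 0, nat_lit 0, nat_lit 0, ⟨nat_lit 0, nat_lit 0, nat_lit 1000, nat_lit 5, nat_lit 36, nat_lit 0, nat_lit 0, nat_lit 0, nat_lit 0, nat_lit 215, nat_lit 12150, nat_lit 242, nat_lit 66451980, nat_lit 0, nat_lit 0, nat_lit 236966, false, false⟩,
 nat_lit 0, nat_lit 100000, nat_lit 0, nat_lit 100000, nat_lit 47322, nat_lit 0, nat_lit 9887, nat_lit 2220, nat_lit 0, nat_lit 0, nat_lit 0, nat_lit 0, nat_lit 0, nat_lit 0, nat_lit 0, nat_lit 1000000, nat_lit 0, nat_lit 0, [(nat_lit 0, [(nat_lit 6, nat_lit 1000)])],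
 ⟨p002_k0, nat_lit 0, nat_lit 0, nat_lit 319, nat_lit 0, nat_lit 59693, [nat_lit 45218000001, nat_lit 52472800000, nat_lit 59666400000], [], [nat_lit 96225797589, nat_lit 96395456065, nat_lit 93476082052, nat_lit 93590195252], nat_lit 1271250, nat_lit 1271250, nat_lit 0, nat_lit 21650, nat_lit 0, nat_lit 0, [nat_lit 1412500, nat_lit 1271250, nat_lit 1271250], [nat_lit 25, nat_lit 40, nat_lit 20, nat_lit 80, nat_lit 17, nat_lit 272, nat_lit 60, nat_lit 8]⟩, C1.Rw.none,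
 ⟨nat_lit 6726, nat_lit 6746, ⟨.ofNat (nat_lit 85456), .ofNat (nat_lit 94111), .ofNat (nat_lit 86528), .ofNat (nat_lit 95184), .ofNat (nat_lit 86451), .ofNat (nat_lit 95086), .ofNat (nat_lit 87523), .ofNat (nat_lit 96159)⟩, ⟨.ofNat (nat_lit 0), .ofNat (nat_lit 0), .ofNat (nat_lit 0), .ofNat (nat_lit 0), .ofNat (nat_lit 0), .ofNat (nat_lit 0), .ofNat (nat_lit 0), .ofNat (nat_lit 0)⟩⟩, [⟨nat_lit 0, nat_lit 100, nat_lit 100, nat_lit 18, nat_lit 10000000000⟩, ⟨nat_lit 0, nat_lit 100, nat_lit 100, nat_lit 18, nat_lit 10000000000⟩, ⟨nat_lit 0, nat_lit 100, nat_lit 100, nat_lit 17, nat_lit 10000000000⟩, ⟨nat_lit 13, nat_lit 100, nat_lit 1, nat_lit 100, nat_lit 101758437⟩]⟩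
noncomputable def p002_l133 : Lf2 := ⟨nat_lit 0, nat_lit 4, [nat_lit 38, nat_lit 5, nat_lit 5, nat_lit 20], true, nat_lit 0, nat_lit 0, nat_lit 0, nat_lit 0, ⟨nat_lit 0, nat_lit 0, nat_lit 1000, nat_lit 5, nat_lit 37, nat_lit 0, nat_lit 0, nat_lit 0, nat_lit 0, nat_lit 215, nat_lit 13067, nat_lit 243, nat_lit 66440140, nat_lit 0, nat_lit 0, nat_lit 241215, false, false⟩,
 nat_lit 0, nat_lit 9932, nat_lit 0, nat_lit 0, nat_lit 4725, nat_lit 0, nat_lit 1399, nat_lit 0, nat_lit 0, nat_lit 0, nat_lit 0, nat_lit 0, nat_lit 0, nat_lit 0, nat_lit 53, nat_lit 381800, nat_lit 0, nat_lit 0, [(nat_lit 0, [(nat_lit 3, nat_lit 91), (nat_lit 5, nat_lit 909)])],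
 ⟨p002_k45, nat_lit 0, nat_lit 0, nat_lit 0, nat_lit 0, nat_lit 63524, [nat_lit 2806476401, nat_lit 1432796401, nat_lit 701394801, nat_lit 15630000], [], [nat_lit 12814447900, nat_lit 12874581900, nat_lit 12506880546, nat_lit 12562538135], nat_lit 1271250, nat_lit 1271250, nat_lit 0, nat_lit 21650, nat_lit 0, nat_lit 0, [nat_lit 631250, nat_lit 1431250, nat_lit 1271250, nat_lit 1271250], [nat_lit 130, nat_lit 40, nat_lit 20, nat_lit 40]⟩, C1.Rw.none,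
 ⟨nat_lit 6708, nat_lit 6727, ⟨.ofNat (nat_lit 86451), .ofNat (nat_lit 95086), .ofNat (nat_lit 87523), .ofNat (nat_lit 96159), .ofNat (nat_lit 87444), .ofNat (nat_lit 96059), .ofNat (nat_lit 88516), .ofNat (nat_lit 97131)⟩, ⟨.ofNat (nat_lit 0), .ofNat (nat_lit 0), .ofNat (nat_lit 0), .ofNat (nat_lit 0), .ofNat (nat_lit 0), .ofNat (nat_lit 0), .ofNat (nat_lit 0), .ofNat (nat_lit 0)⟩⟩, [⟨nat_lit 0, nat_lit 100, nat_lit 100, nat_lit 19, nat_lit 493398545⟩]⟩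
noncomputable def p002_l134 : Lf2 := ⟨nat_lit 0, nat_lit 4, [nat_lit 38, nat_lit 5, nat_lit 5, nat_lit 20], true, nat_lit 0, nat_lit 0, nat_lit 0, nat_lit 0, ⟨nat_lit 0, nat_lit 0, nat_lit 1000, nat_lit 5, nat_lit 37, nat_lit 0, nat_lit 0, nat_lit 0, nat_lit 0, nat_lit 215, nat_lit 13067, nat_lit 243, nat_lit 66440140, nat_lit 0, nat_lit 0, nat_lit 241215, false, false⟩,
 nat_lit 0, nat_lit 100000, nat_lit 0, nat_lit 100000, nat_lit 47574, nat_lit 0, nat_lit 9912, nat_lit 2237, nat_lit 0, nat_lit 0, nat_lit 0, nat_lit 0, nat_lit 0, nat_lit 0, nat_lit 0, nat_lit 1000000, nat_lit 0, nat_lit 0, [(nat_lit 0, [(nat_lit 6, nat_lit 1000)])],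
 ⟨p002_k4, nat_lit 0, nat_lit 0, nat_lit 321, nat_lit 0, nat_lit 63524, [nat_lit 45558000001, nat_lit 52880800000, nat_lit 60142400000], [], [nat_lit 96405678802, nat_lit 96576084180, nat_lit 93656673933, nat_lit 93765045025], nat_lit 1271250, nat_lit 1271250, nat_lit 0, nat_lit 21650, nat_lit 0, nat_lit 0, [nat_lit 1412500, nat_lit 1271250, nat_lit 1271250], [nat_lit 25, nat_lit 40, nat_lit 20, nat_lit 80, nat_lit 17, nat_lit 272, nat_lit 60, nat_lit 8]⟩, C1.Rw.none,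
 ⟨nat_lit 6708, nat_lit 6727, ⟨.ofNat (nat_lit 86451), .ofNat (nat_lit 95086), .ofNat (nat_lit 87523), .ofNat (nat_lit 96159), .ofNat (nat_lit 87444), .ofNat (nat_lit 96059), .ofNat (nat_lit 88516), .ofNat (nat_lit 97131)⟩, ⟨.ofNat (nat_lit 0), .ofNat (nat_lit 0), .ofNat (nat_lit 0), .ofNat (nat_lit 0), .ofNat (nat_lit 0), .ofNat (nat_lit 0), .ofNat (nat_lit 0), .ofNat (nat_lit 0)⟩⟩, [⟨nat_lit 0, nat_lit 100, nat_lit 100, nat_lit 18, nat_lit 10000000000⟩, ⟨nat_lit 0, nat_lit 100, nat_lit 100, nat_lit 19, nat_lit 10000000000⟩, ⟨nat_lit 0, nat_lit 100, nat_lit 100, nat_lit 18, nat_lit 10000000000⟩, ⟨nat_lit 13, nat_lit 100, nat_lit 1, nat_lit 100, nat_lit 108714705⟩]⟩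
noncomputable def p002_l135 : Lf2 := ⟨nat_lit 0, nat_lit 4, [nat_lit 38, nat_lit 5, nat_lit 5, nat_lit 20], true, nat_lit 0, nat_lit 0, nat_lit 0, nat_lit 0, ⟨nat_lit 0, nat_lit 0, nat_lit 1000, nat_lit 5, nat_lit 39, nat_lit 0, nat_lit 0, nat_lit 0, nat_lit 0, nat_lit 215, nat_lit 15000, nat_lit 245, nat_lit 66358383, nat_lit 0, nat_lit 0, nat_lit 269999, false, false⟩,
 nat_lit 0, nat_lit 11106, nat_lit 0, nat_lit 0, nat_lit 5255, nat_lit 0, nat_lit 895, nat_lit 0, nat_lit 0, nat_lit 0, nat_lit 0, nat_lit 0, nat_lit 0, nat_lit 0, nat_lit 90, nat_lit 1000000, nat_lit 0, nat_lit 0, [(nat_lit 0, [(nat_lit 6, nat_lit 1000)])],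
 ⟨p002_k0, nat_lit 0, nat_lit 0, nat_lit 331, nat_lit 0, nat_lit 99796, [nat_lit 2618000001, nat_lit 1352800000, nat_lit 26400000], [], [nat_lit 13149699047, nat_lit 13238424236, nat_lit 12931119922, nat_lit 13019783340], nat_lit 1271250, nat_lit 1271250, nat_lit 21650, nat_lit 43600, nat_lit 0, nat_lit 0, [nat_lit 1412500, nat_lit 1271250, nat_lit 1271250], [nat_lit 25, nat_lit 40, nat_lit 20, nat_lit 80, nat_lit 17, nat_lit 272, nat_lit 60, nat_lit 8]⟩, C1.Rw.none,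
 ⟨nat_lit 6708, nat_lit 6746, ⟨.ofNat (nat_lit 91967), .ofNat (nat_lit 100622), .ofNat (nat_lit 94111), .ofNat (nat_lit 102767), .ofNat (nat_lit 93915), .ofNat (nat_lit 102531), .ofNat (nat_lit 96059), .ofNat (nat_lit 104675)⟩, ⟨.ofNat (nat_lit 0), .ofNat (nat_lit 0), .ofNat (nat_lit 0), .ofNat (nat_lit 0), .ofNat (nat_lit 0), .ofNat (nat_lit 0), .ofNat (nat_lit 0), .ofNat (nat_lit 0)⟩⟩, []⟩
noncomputable def p002_l136 : Lf2 := ⟨nat_lit 0, nat_lit 3, [nat_lit 45, nat_lit 5, nat_lit 5, nat_lit 20], true, nat_lit 0, nat_lit 0, nat_lit 0, nat_lit 0, ⟨nat_lit 0, nat_lit 0, nat_lit 1000, nat_lit 5, nat_lit 40, nat_lit 0, nat_lit 0, nat_lit 0, nat_lit 0, nat_lit 215, nat_lit 15000, nat_lit 245, nat_lit 66343738, nat_lit 0, nat_lit 0, nat_lit 275067, false, false⟩,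
 nat_lit 0, nat_lit 9989, nat_lit 0, nat_lit 0, nat_lit 4726, nat_lit 0, nat_lit 1575, nat_lit 0, nat_lit 0, nat_lit 0, nat_lit 0, nat_lit 0, nat_lit 0, nat_lit 0, nat_lit 46, nat_lit 383000, nat_lit 0, nat_lit 0, [(nat_lit 0, [(nat_lit 3, nat_lit 85), (nat_lit 5, nat_lit 915)])],
 ⟨p002_k46, nat_lit 0, nat_lit 0, nat_lit 0, nat_lit 0, nat_lit 98763, [nat_lit 2661034001, nat_lit 1293567334, nat_lit 532538000, nat_lit 11998000], [], [nat_lit 12307549875, nat_lit 12356702802, nat_lit 12105020813, nat_lit 12155891171], nat_lit 1271250, nat_lit 1271250, nat_lit 21650, nat_lit 43600, nat_lit 0, nat_lit 0, [nat_lit 631250, nat_lit 1431250, nat_lit 1271250, nat_lit 1271250], [nat_lit 151, nat_lit 40, nat_lit 20, nat_lit 40]⟩, C1.Rw.none,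
 ⟨nat_lit 6726, nat_lit 6746, ⟨.ofNat (nat_lit 94111), .ofNat (nat_lit 102767), .ofNat (nat_lit 95184), .ofNat (nat_lit 103839), .ofNat (nat_lit 95086), .ofNat (nat_lit 103722), .ofNat (nat_lit 96159), .ofNat (nat_lit 104794)⟩, ⟨.ofNat (nat_lit 0), .ofNat (nat_lit 0), .ofNat (nat_lit 0), .ofNat (nat_lit 0), .ofNat (nat_lit 0), .ofNat (nat_lit 0), .ofNat (nat_lit 0), .ofNat (nat_lit 0)⟩⟩, []⟩
noncomputable def p002_l137 : Lf2 := ⟨nat_lit 0, nat_lit 3, [nat_lit 45, nat_lit 5, nat_lit 5, nat_lit 20], true, nat_lit 0, nat_lit 0, nat_lit 0, nat_lit 0, ⟨nat_lit 0, nat_lit 0, nat_lit 1000, nat_lit 5, nat_lit 40, nat_lit 0, nat_lit 0, nat_lit 0, nat_lit 0, nat_lit 215, nat_lit 15000, nat_lit 245, nat_lit 66343738, nat_lit 0, nat_lit 0, nat_lit 275067, false, false⟩,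
 nat_lit 0, nat_lit 100000, nat_lit 0, nat_lit 100000, nat_lit 47322, nat_lit 0, nat_lit 37301, nat_lit 1846, nat_lit 0, nat_lit 0, nat_lit 0, nat_lit 0, nat_lit 0, nat_lit 0, nat_lit 0, nat_lit 1000000, nat_lit 0, nat_lit 0, [(nat_lit 0, [(nat_lit 6, nat_lit 1000)])],
 ⟨p002_k1, nat_lit 0, nat_lit 0, nat_lit 331, nat_lit 0, nat_lit 98763, [nat_lit 37738000000, nat_lit 43496800000, nat_lit 49194400000], [], [nat_lit 43664999190, nat_lit 43921878448, nat_lit 40934577269, nat_lit 41108907499], nat_lit 1271250, nat_lit 1271250, nat_lit 21650, nat_lit 43600, nat_lit 0, nat_lit 0, [nat_lit 1412500, nat_lit 1271250, nat_lit 1271250], [nat_lit 25, nat_lit 40, nat_lit 20, nat_lit 80, nat_lit 17, nat_lit 272, nat_lit 60, nat_lit 8]⟩, C1.Rw.none,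
 ⟨nat_lit 6726, nat_lit 6746, ⟨.ofNat (nat_lit 94111), .ofNat (nat_lit 102767), .ofNat (nat_lit 95184), .ofNat (nat_lit 103839), .ofNat (nat_lit 95086), .ofNat (nat_lit 103722), .ofNat (nat_lit 96159), .ofNat (nat_lit 104794)⟩, ⟨.ofNat (nat_lit 0), .ofNat (nat_lit 0), .ofNat (nat_lit 0), .ofNat (nat_lit 0), .ofNat (nat_lit 0), .ofNat (nat_lit 0), .ofNat (nat_lit 0), .ofNat (nat_lit 0)⟩⟩, [⟨nat_lit 13, nat_lit 100, nat_lit 1, nat_lit 100, nat_lit 84707852⟩]⟩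
noncomputable def p002_l138 : Lf2 := ⟨nat_lit 0, nat_lit 3, [nat_lit 45, nat_lit 5, nat_lit 5, nat_lit 20], false, nat_lit 0, nat_lit 0, nat_lit 0, nat_lit 0, ⟨nat_lit 0, nat_lit 0, nat_lit 1000, nat_lit 5, nat_lit 40, nat_lit 0, nat_lit 0, nat_lit 0, nat_lit 0, nat_lit 215, nat_lit 15000, nat_lit 245, nat_lit 66343738, nat_lit 0, nat_lit 0, nat_lit 275067, false, false⟩,
 nat_lit 11135, nat_lit 0, nat_lit 0, nat_lit 0, nat_lit 5269, nat_lit 5241, nat_lit 904, nat_lit 0, nat_lit 0, nat_lit 1834, nat_lit 238, nat_lit 0, nat_lit 0, nat_lit 0, nat_lit 90, nat_lit 1000000, nat_lit 0, nat_lit 0, [(nat_lit 0, [(nat_lit 6, nat_lit 1000)])],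
 ⟨p002_k1, nat_lit 0, nat_lit 0, nat_lit 331, nat_lit 0, nat_lit 98763, [nat_lit 2618000001, nat_lit 1352800000, nat_lit 26400000], [], [nat_lit 13122654539, nat_lit 13167059930, nat_lit 12903360559, nat_lit 12947735078], nat_lit 1271250, nat_lit 1271250, nat_lit 21650, nat_lit 43600, nat_lit 0, nat_lit 0, [nat_lit 1412500, nat_lit 1271250, nat_lit 1271250], [nat_lit 25, nat_lit 40, nat_lit 20, nat_lit 80, nat_lit 17, nat_lit 272, nat_lit 60, nat_lit 8]⟩, ⟨p002_k40, nat_lit 0, nat_lit 0, nat_lit 0, nat_lit 0, nat_lit 99313, [nat_lit 4760000000, nat_lit 5712000000, nat_lit 6664000000], [], [nat_lit 6842556447, nat_lit 6863006515, nat_lit 6526933364, nat_lit 6547420329], nat_lit 1271250, nat_lit 1271250, nat_lit 21650, nat_lit 43600, nat_lit 0, nat_lit 0, [nat_lit 1412500, nat_lit 1271250, nat_lit 1271250], [nat_lit 25, nat_lit 40, nat_lit 20, nat_lit 80]⟩,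
 ⟨nat_lit 6726, nat_lit 6746, ⟨.ofNat (nat_lit 94111), .ofNat (nat_lit 102767), .ofNat (nat_lit 95184), .ofNat (nat_lit 103839), .ofNat (nat_lit 95086), .ofNat (nat_lit 103722), .ofNat (nat_lit 96159), .ofNat (nat_lit 104794)⟩, ⟨.ofNat (nat_lit 0), .ofNat (nat_lit 0), .ofNat (nat_lit 0), .ofNat (nat_lit 0), .ofNat (nat_lit 0), .ofNat (nat_lit 0), .ofNat (nat_lit 0), .ofNat (nat_lit 0)⟩⟩, []⟩
noncomputable def p002_l139 : Lf2 := ⟨nat_lit 0, nat_lit 4, [nat_lit 38, nat_lit 5, nat_lit 5, nat_lit 20], true, nat_lit 0, nat_lit 0, nat_lit 0, nat_lit 0, ⟨nat_lit 0, nat_lit 0, nat_lit 1000, nat_lit 5, nat_lit 40, nat_lit 0, nat_lit 0, nat_lit 0, nat_lit 0, nat_lit 215, nat_lit 15000, nat_lit 245, nat_lit 66343738, nat_lit 0, nat_lit 0, nat_lit 275067, false, false⟩,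
 nat_lit 0, nat_lit 10172, nat_lit 0, nat_lit 0, nat_lit 4813, nat_lit 0, nat_lit 1464, nat_lit 0, nat_lit 0, nat_lit 0, nat_lit 0, nat_lit 0, nat_lit 0, nat_lit 0, nat_lit 53, nat_lit 380200, nat_lit 0, nat_lit 0, [(nat_lit 0, [(nat_lit 3, nat_lit 99), (nat_lit 5, nat_lit 901)])],
 ⟨p002_k44, nat_lit 0, nat_lit 0, nat_lit 0, nat_lit 0, nat_lit 59693, [nat_lit 2907066267, nat_lit 1431768489, nat_lit 702537201, nat_lit 18270000], [], [nat_lit 12436498464, nat_lit 12485986061, nat_lit 12232578433, nat_lit 12283824276], nat_lit 1271250, nat_lit 1271250, nat_lit 21650, nat_lit 43600, nat_lit 0, nat_lit 0, [nat_lit 631250, nat_lit 1431250, nat_lit 1271250, nat_lit 1271250], [nat_lit 130, nat_lit 40, nat_lit 20, nat_lit 40]⟩, C1.Rw.none,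
 ⟨nat_lit 6726, nat_lit 6746, ⟨.ofNat (nat_lit 94111), .ofNat (nat_lit 102767), .ofNat (nat_lit 95184), .ofNat (nat_lit 103839), .ofNat (nat_lit 95086), .ofNat (nat_lit 103722), .ofNat (nat_lit 96159), .ofNat (nat_lit 104794)⟩, ⟨.ofNat (nat_lit 0), .ofNat (nat_lit 0), .ofNat (nat_lit 0), .ofNat (nat_lit 0), .ofNat (nat_lit 0), .ofNat (nat_lit 0), .ofNat (nat_lit 0), .ofNat (nat_lit 0)⟩⟩, []⟩
noncomputable def p002_l140 : Lf2 := ⟨nat_lit 0, nat_lit 4, [nat_lit 38, nat_lit 5, nat_lit 5, nat_lit 20], true, nat_lit 0, nat_lit 0, nat_lit 0, nat_lit 0, ⟨nat_lit 0, nat_lit 0, nat_lit 1000, nat_lit 5, nat_lit 40, nat_lit 0, nat_lit 0, nat_lit 0, nat_lit 0, nat_lit 215, nat_lit 15000, nat_lit 245, nat_lit 66343738, nat_lit 0, nat_lit 0, nat_lit 275067, false, false⟩,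
 nat_lit 0, nat_lit 100000, nat_lit 0, nat_lit 100000, nat_lit 47322, nat_lit 0, nat_lit 42978, nat_lit 1846, nat_lit 0, nat_lit 0, nat_lit 0, nat_lit 0, nat_lit 0, nat_lit 0, nat_lit 0, nat_lit 1000000, nat_lit 0, nat_lit 0, [(nat_lit 0, [(nat_lit 6, nat_lit 1000)])],
 ⟨p002_k0, nat_lit 0, nat_lit 0, nat_lit 313, nat_lit 0, nat_lit 59693, [nat_lit 37738000000, nat_lit 43496800000, nat_lit 49194400000], [], [nat_lit 39584655440, nat_lit 39841534698, nat_lit 36854233519, nat_lit 37028563749], nat_lit 1271250, nat_lit 1271250, nat_lit 21650, nat_lit 43600, nat_lit 0, nat_lit 0, [nat_lit 1412500, nat_lit 1271250, nat_lit 1271250], [nat_lit 25, nat_lit 40, nat_lit 20, nat_lit 80, nat_lit 17, nat_lit 272, nat_lit 60, nat_lit 8]⟩, C1.Rw.none,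
 ⟨nat_lit 6726, nat_lit 6746, ⟨.ofNat (nat_lit 94111), .ofNat (nat_lit 102767), .ofNat (nat_lit 95184), .ofNat (nat_lit 103839), .ofNat (nat_lit 95086), .ofNat (nat_lit 103722), .ofNat (nat_lit 96159), .ofNat (nat_lit 104794)⟩, ⟨.ofNat (nat_lit 0), .ofNat (nat_lit 0), .ofNat (nat_lit 0), .ofNat (nat_lit 0), .ofNat (nat_lit 0), .ofNat (nat_lit 0), .ofNat (nat_lit 0), .ofNat (nat_lit 0)⟩⟩, []⟩
noncomputable def p002_l141 : Lf2 := ⟨nat_lit 0, nat_lit 3, [nat_lit 45, nat_lit 5, nat_lit 5, nat_lit 20], true, nat_lit 0, nat_lit 0, nat_lit 0, nat_lit 0, ⟨nat_lit 0, nat_lit 0, nat_lit 1000, nat_lit 5, nat_lit 40, nat_lit 0, nat_lit 0, nat_lit 0, nat_lit 0, nat_lit 215, nat_lit 15000, nat_lit 245, nat_lit 66331084, nat_lit 0, nat_lit 0, nat_lit 279423, false, false⟩,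
 nat_lit 0, nat_lit 11185, nat_lit 0, nat_lit 0, nat_lit 5321, nat_lit 0, nat_lit 593, nat_lit 0, nat_lit 0, nat_lit 0, nat_lit 0, nat_lit 0, nat_lit 0, nat_lit 0, nat_lit 67, nat_lit 1000000, nat_lit 0, nat_lit 0, [(nat_lit 0, [(nat_lit 6, nat_lit 1000)])],
 ⟨p002_k13, nat_lit 0, nat_lit 0, nat_lit 0, nat_lit 0, nat_lit 102265, [nat_lit 2158000000, nat_lit 800800000, nat_lit 4400000], [], [nat_lit 13292088392, nat_lit 13336652743, nat_lit 13070108413, nat_lit 13114641940], nat_lit 1271250, nat_lit 1271250, nat_lit 21650, nat_lit 43600, nat_lit 0, nat_lit 0, [nat_lit 1412500, nat_lit 1271250, nat_lit 1271250], [nat_lit 156, nat_lit 40, nat_lit 20, nat_lit 40]⟩, C1.Rw.none,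
 ⟨nat_lit 6708, nat_lit 6727, ⟨.ofNat (nat_lit 95086), .ofNat (nat_lit 103722), .ofNat (nat_lit 96159), .ofNat (nat_lit 104794), .ofNat (nat_lit 96059), .ofNat (nat_lit 104675), .ofNat (nat_lit 97131), .ofNat (nat_lit 105747)⟩, ⟨.ofNat (nat_lit 0), .ofNat (nat_lit 0), .ofNat (nat_lit 0), .ofNat (nat_lit 0), .ofNat (nat_lit 0), .ofNat (nat_lit 0), .ofNat (nat_lit 0), .ofNat (nat_lit 0)⟩⟩, []⟩
noncomputable def p002_l142 : Lf2 := ⟨nat_lit 0, nat_lit 3, [nat_lit 45, nat_lit 5, nat_lit 5, nat_lit 20], true, nat_lit 0, nat_lit 0, nat_lit 0, nat_lit 0, ⟨nat_lit 0, nat_lit 0, nat_lit 1000, nat_lit 5, nat_lit 40, nat_lit 0, nat_lit 0, nat_lit 0, nat_lit 0, nat_lit 215, nat_lit 15000, nat_lit 245, nat_lit 66331084, nat_lit 0, nat_lit 0, nat_lit 279423, false, false⟩,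
 nat_lit 0, nat_lit 100000, nat_lit 0, nat_lit 100000, nat_lit 47574, nat_lit 0, nat_lit 15123, nat_lit 2020, nat_lit 0, nat_lit 0, nat_lit 0, nat_lit 0, nat_lit 0, nat_lit 0, nat_lit 0, nat_lit 1000000, nat_lit 0, nat_lit 0, [(nat_lit 0, [(nat_lit 6, nat_lit 1000)])],
 ⟨p002_k14, nat_lit 0, nat_lit 0, nat_lit 332, nat_lit 0, nat_lit 102265, [nat_lit 41218000001, nat_lit 47672800001, nat_lit 54066400000], [], [nat_lit 71356174178, nat_lit 71572512631, nat_lit 68605488817, nat_lit 68755279772], nat_lit 1271250, nat_lit 1271250, nat_lit 21650, nat_lit 43600, nat_lit 0, nat_lit 0, [nat_lit 1412500, nat_lit 1271250, nat_lit 1271250], [nat_lit 25, nat_lit 40, nat_lit 20, nat_lit 80, nat_lit 17, nat_lit 272, nat_lit 60, nat_lit 8]⟩, C1.Rw.none,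
 ⟨nat_lit 6708, nat_lit 6727, ⟨.ofNat (nat_lit 95086), .ofNat (nat_lit 103722), .ofNat (nat_lit 96159), .ofNat (nat_lit 104794), .ofNat (nat_lit 96059), .ofNat (nat_lit 104675), .ofNat (nat_lit 97131), .ofNat (nat_lit 105747)⟩, ⟨.ofNat (nat_lit 0), .ofNat (nat_lit 0), .ofNat (nat_lit 0), .ofNat (nat_lit 0), .ofNat (nat_lit 0), .ofNat (nat_lit 0), .ofNat (nat_lit 0), .ofNat (nat_lit 0)⟩⟩, [⟨nat_lit 0, nat_lit 100, nat_lit 100, nat_lit 19, nat_lit 10000000000⟩]⟩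
noncomputable def p002_l143 : Lf2 := ⟨nat_lit 0, nat_lit 4, [nat_lit 38, nat_lit 5, nat_lit 5, nat_lit 20], true, nat_lit 0, nat_lit 0, nat_lit 0, nat_lit 0, ⟨nat_lit 0, nat_lit 0, nat_lit 1000, nat_lit 5, nat_lit 40, nat_lit 0, nat_lit 0, nat_lit 0, nat_lit 0, nat_lit 215, nat_lit 15000, nat_lit 245, nat_lit 66331084, nat_lit 0, nat_lit 0, nat_lit 279423, false, false⟩,
 nat_lit 0, nat_lit 9987, nat_lit 0, nat_lit 0, nat_lit 4751, nat_lit 0, nat_lit 1443, nat_lit 0, nat_lit 0, nat_lit 0, nat_lit 0, nat_lit 0, nat_lit 0, nat_lit 0, nat_lit 53, nat_lit 381800, nat_lit 0, nat_lit 0, [(nat_lit 0, [(nat_lit 3, nat_lit 91), (nat_lit 5, nat_lit 909)])],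
 ⟨p002_k45, nat_lit 0, nat_lit 0, nat_lit 0, nat_lit 0, nat_lit 63524, [nat_lit 2806476401, nat_lit 1432796401, nat_lit 701394801, nat_lit 15630000], [], [nat_lit 12433432744, nat_lit 12484451305, nat_lit 12235377121, nat_lit 12286355377], nat_lit 1271250, nat_lit 1271250, nat_lit 21650, nat_lit 43600, nat_lit 0, nat_lit 0, [nat_lit 631250, nat_lit 1431250, nat_lit 1271250, nat_lit 1271250], [nat_lit 130, nat_lit 40, nat_lit 20, nat_lit 40]⟩, C1.Rw.none,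
 ⟨nat_lit 6708, nat_lit 6727, ⟨.ofNat (nat_lit 95086), .ofNat (nat_lit 103722), .ofNat (nat_lit 96159), .ofNat (nat_lit 104794), .ofNat (nat_lit 96059), .ofNat (nat_lit 104675), .ofNat (nat_lit 97131), .ofNat (nat_lit 105747)⟩, ⟨.ofNat (nat_lit 0), .ofNat (nat_lit 0), .ofNat (nat_lit 0), .ofNat (nat_lit 0), .ofNat (nat_lit 0), .ofNat (nat_lit 0), .ofNat (nat_lit 0), .ofNat (nat_lit 0)⟩⟩, []⟩
noncomputable def p002_l144 : Lf2 := ⟨nat_lit 0, nat_lit 4, [nat_lit 38, nat_lit 5, nat_lit 5, nat_lit 20], true, nat_lit 0, nat_lit 0, nat_lit 0, nat_lit 0, ⟨nat_lit 0, nat_lit 0, nat_lit 1000, nat_lit 5, nat_lit 40, nat_lit 0, nat_lit 0, nat_lit 0, nat_lit 0, nat_lit 215, nat_lit 15000, nat_lit 245, nat_lit 66331084, nat_lit 0, nat_lit 0, nat_lit 279423, false, false⟩,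
 nat_lit 0, nat_lit 100000, nat_lit 0, nat_lit 100000, nat_lit 47574, nat_lit 0, nat_lit 36112, nat_lit 1832, nat_lit 0, nat_lit 0, nat_lit 0, nat_lit 0, nat_lit 0, nat_lit 0, nat_lit 0, nat_lit 400000, nat_lit 0, nat_lit 0, [(nat_lit 0, [(nat_lit 5, nat_lit 1000)])],
 ⟨p002_k4, nat_lit 0, nat_lit 0, nat_lit 315, nat_lit 0, nat_lit 63524, [nat_lit 38040000001, nat_lit 43384400000, nat_lit 49797600000], [], [nat_lit 43468766202, nat_lit 43726843100, nat_lit 40717076425, nat_lit 40898871926], nat_lit 1271250, nat_lit 1271250, nat_lit 21650, nat_lit 43600, nat_lit 0, nat_lit 0, [nat_lit 1412500, nat_lit 1271250, nat_lit 1271250], [nat_lit 25, nat_lit 40, nat_lit 20, nat_lit 80, nat_lit 17, nat_lit 272, nat_lit 60, nat_lit 8]⟩, C1.Rw.none,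
 ⟨nat_lit 6708, nat_lit 6727, ⟨.ofNat (nat_lit 95086), .ofNat (nat_lit 103722), .ofNat (nat_lit 96159), .ofNat (nat_lit 104794), .ofNat (nat_lit 96059), .ofNat (nat_lit 104675), .ofNat (nat_lit 97131), .ofNat (nat_lit 105747)⟩, ⟨.ofNat (nat_lit 0), .ofNat (nat_lit 0), .ofNat (nat_lit 0), .ofNat (nat_lit 0), .ofNat (nat_lit 0), .ofNat (nat_lit 0), .ofNat (nat_lit 0), .ofNat (nat_lit 0)⟩⟩, [⟨nat_lit 0, nat_lit 100, nat_lit 100, nat_lit 19, nat_lit 10000000000⟩]⟩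
noncomputable def p002_l145 : Lf2 := ⟨nat_lit 0, nat_lit 5, [nat_lit 4, nat_lit 5, nat_lit 5, nat_lit 20], true, nat_lit 0, nat_lit 0, nat_lit 0, nat_lit 0, ⟨nat_lit 0, nat_lit 0, nat_lit 1000, nat_lit 5, nat_lit 36, nat_lit 0, nat_lit 0, nat_lit 0, nat_lit 0, nat_lit 215, nat_lit 12150, nat_lit 242, nat_lit 66471068, nat_lit 0, nat_lit 0, nat_lit 230087, false, false⟩,
 nat_lit 0, nat_lit 9781, nat_lit 0, nat_lit 814, nat_lit 4628, nat_lit 0, nat_lit 609, nat_lit 0, nat_lit 0, nat_lit 0, nat_lit 0, nat_lit 0, nat_lit 0, nat_lit 0, nat_lit 90, nat_lit 1000000, nat_lit 0, nat_lit 0, [(nat_lit 0, [(nat_lit 6, nat_lit 1000)])],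
 ⟨p002_k6, nat_lit 0, nat_lit 0, nat_lit 301, nat_lit 0, nat_lit 18561, [nat_lit 2618000001, nat_lit 1352800000, nat_lit 26400000], [], [nat_lit 13558822550, nat_lit 13617444966, nat_lit 13262421507, nat_lit 13315362301], nat_lit 1271250, nat_lit 1271250, nat_lit 0, nat_lit 21650, nat_lit 0, nat_lit 0, [nat_lit 1412500, nat_lit 1271250, nat_lit 1271250], [nat_lit 25, nat_lit 40, nat_lit 20, nat_lit 80, nat_lit 17, nat_lit 272, nat_lit 60, nat_lit 8]⟩, C1.Rw.none,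
 ⟨nat_lit 6726, nat_lit 6746, ⟨.ofNat (nat_lit 83311), .ofNat (nat_lit 91967), .ofNat (nat_lit 85456), .ofNat (nat_lit 94111), .ofNat (nat_lit 84307), .ofNat (nat_lit 92942), .ofNat (nat_lit 86451), .ofNat (nat_lit 95086)⟩, ⟨.ofNat (nat_lit 0), .ofNat (nat_lit 0), .ofNat (nat_lit 0), .ofNat (nat_lit 0), .ofNat (nat_lit 0), .ofNat (nat_lit 0), .ofNat (nat_lit 0), .ofNat (nat_lit 0)⟩⟩, [⟨nat_lit 0, nat_lit 100, nat_lit 100, nat_lit 18, nat_lit 484117312⟩]⟩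
noncomputable def p002_l146 : Lf2 := ⟨nat_lit 0, nat_lit 5, [nat_lit 4, nat_lit 5, nat_lit 5, nat_lit 20], true, nat_lit 0, nat_lit 0, nat_lit 0, nat_lit 0, ⟨nat_lit 0, nat_lit 0, nat_lit 1000, nat_lit 5, nat_lit 36, nat_lit 0, nat_lit 0, nat_lit 0, nat_lit 0, nat_lit 215, nat_lit 12150, nat_lit 242, nat_lit 66465783, nat_lit 0, nat_lit 0, nat_lit 232001, false, false⟩,
 nat_lit 0, nat_lit 9708, nat_lit 0, nat_lit 844, nat_lit 4618, nat_lit 0, nat_lit 602, nat_lit 0, nat_lit 0, nat_lit 0, nat_lit 0, nat_lit 0, nat_lit 0, nat_lit 0, nat_lit 90, nat_lit 1000000, nat_lit 0, nat_lit 0, [(nat_lit 0, [(nat_lit 6, nat_lit 1000)])],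
 ⟨p002_k7, nat_lit 0, nat_lit 0, nat_lit 301, nat_lit 0, nat_lit 18522, [nat_lit 2618000001, nat_lit 1352800000, nat_lit 26400000], [], [nat_lit 13600199496, nat_lit 13658769442, nat_lit 13304996520, nat_lit 13357424150], nat_lit 1271250, nat_lit 1271250, nat_lit 0, nat_lit 21650, nat_lit 0, nat_lit 0, [nat_lit 1412500, nat_lit 1271250, nat_lit 1271250], [nat_lit 25, nat_lit 40, nat_lit 20, nat_lit 80, nat_lit 17, nat_lit 272, nat_lit 60, nat_lit 8]⟩, C1.Rw.none,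
 ⟨nat_lit 6708, nat_lit 6727, ⟨.ofNat (nat_lit 84307), .ofNat (nat_lit 92942), .ofNat (nat_lit 85379), .ofNat (nat_lit 94014), .ofNat (nat_lit 85300), .ofNat (nat_lit 93915), .ofNat (nat_lit 86372), .ofNat (nat_lit 94987)⟩, ⟨.ofNat (nat_lit 0), .ofNat (nat_lit 0), .ofNat (nat_lit 0), .ofNat (nat_lit 0), .ofNat (nat_lit 0), .ofNat (nat_lit 0), .ofNat (nat_lit 0), .ofNat (nat_lit 0)⟩⟩, [⟨nat_lit 0, nat_lit 100, nat_lit 100, nat_lit 18, nat_lit 482614430⟩]⟩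
noncomputable def p002_l147 : Lf2 := ⟨nat_lit 0, nat_lit 5, [nat_lit 4, nat_lit 5, nat_lit 5, nat_lit 20], true, nat_lit 0, nat_lit 0, nat_lit 0, nat_lit 0, ⟨nat_lit 0, nat_lit 0, nat_lit 1000, nat_lit 5, nat_lit 36, nat_lit 0, nat_lit 0, nat_lit 0, nat_lit 0, nat_lit 215, nat_lit 12150, nat_lit 242, nat_lit 66453035, nat_lit 0, nat_lit 0, nat_lit 236589, false, false⟩,
 nat_lit 0, nat_lit 9688, nat_lit 0, nat_lit 0, nat_lit 4608, nat_lit 0, nat_lit 1212, nat_lit 0, nat_lit 0, nat_lit 0, nat_lit 0, nat_lit 0, nat_lit 0, nat_lit 0, nat_lit 45, nat_lit 247600, nat_lit 0, nat_lit 0, [(nat_lit 0, [(nat_lit 3, nat_lit 48), (nat_lit 4, nat_lit 952)])],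
 ⟨p002_k9, nat_lit 0, nat_lit 0, nat_lit 0, nat_lit 0, nat_lit 22296, [nat_lit 2688208001, nat_lit 1157523201, nat_lit 630060801, nat_lit 14297600], [], [nat_lit 13376720376, nat_lit 13435237852, nat_lit 13080108134, nat_lit 13132921449], nat_lit 1271250, nat_lit 1271250, nat_lit 0, nat_lit 21650, nat_lit 0, nat_lit 0, [nat_lit 631250, nat_lit 1431250, nat_lit 1271250, nat_lit 1271250], [nat_lit 130, nat_lit 40, nat_lit 20, nat_lit 40]⟩, C1.Rw.none,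
 ⟨nat_lit 6708, nat_lit 6727, ⟨.ofNat (nat_lit 85379), .ofNat (nat_lit 94014), .ofNat (nat_lit 86451), .ofNat (nat_lit 95086), .ofNat (nat_lit 86372), .ofNat (nat_lit 94987), .ofNat (nat_lit 87444), .ofNat (nat_lit 96059)⟩, ⟨.ofNat (nat_lit 0), .ofNat (nat_lit 0), .ofNat (nat_lit 0), .ofNat (nat_lit 0), .ofNat (nat_lit 0), .ofNat (nat_lit 0), .ofNat (nat_lit 0), .ofNat (nat_lit 0)⟩⟩, [⟨nat_lit 0, nat_lit 100, nat_lit 100, nat_lit 18, nat_lit 481726042⟩]⟩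
noncomputable def p002_l148 : Lf2 := ⟨nat_lit 0, nat_lit 5, [nat_lit 4, nat_lit 5, nat_lit 5, nat_lit 20], true, nat_lit 0, nat_lit 0, nat_lit 0, nat_lit 0, ⟨nat_lit 0, nat_lit 0, nat_lit 1000, nat_lit 5, nat_lit 36, nat_lit 0, nat_lit 0, nat_lit 0, nat_lit 0, nat_lit 215, nat_lit 12150, nat_lit 242, nat_lit 66453035, nat_lit 0, nat_lit 0, nat_lit 236589, false, false⟩,
 nat_lit 0, nat_lit 100000, nat_lit 0, nat_lit 100000, nat_lit 47574, nat_lit 0, nat_lit 7737, nat_lit 374, nat_lit 0, nat_lit 0, nat_lit 0, nat_lit 0, nat_lit 0, nat_lit 0, nat_lit 0, nat_lit 1000000, nat_lit 0, nat_lit 0, [(nat_lit 0, [(nat_lit 6, nat_lit 1000)])],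
 ⟨p002_k7, nat_lit 0, nat_lit 0, nat_lit 303, nat_lit 0, nat_lit 22296, [nat_lit 8298000000, nat_lit 8168800001, nat_lit 7978400000], [], [nat_lit 6387725678, nat_lit 6558131056, nat_lit 3567285862, nat_lit 3738085392], nat_lit 1271250, nat_lit 1271250, nat_lit 0, nat_lit 21650, nat_lit 0, nat_lit 0, [nat_lit 1412500, nat_lit 1271250, nat_lit 1271250], [nat_lit 25, nat_lit 40, nat_lit 20, nat_lit 80, nat_lit 17, nat_lit 272, nat_lit 60, nat_lit 8]⟩, C1.Rw.none,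
 ⟨nat_lit 6708, nat_lit 6727, ⟨.ofNat (nat_lit 85379), .ofNat (nat_lit 94014), .ofNat (nat_lit 86451), .ofNat (nat_lit 95086), .ofNat (nat_lit 86372), .ofNat (nat_lit 94987), .ofNat (nat_lit 87444), .ofNat (nat_lit 96059)⟩, ⟨.ofNat (nat_lit 0), .ofNat (nat_lit 0), .ofNat (nat_lit 0), .ofNat (nat_lit 0), .ofNat (nat_lit 0), .ofNat (nat_lit 0), .ofNat (nat_lit 0), .ofNat (nat_lit 0)⟩⟩, [⟨nat_lit 0, nat_lit 100, nat_lit 100, nat_lit 18, nat_lit 10000000000⟩, ⟨nat_lit 0, nat_lit 100, nat_lit 100, nat_lit 18, nat_lit 10000000000⟩, ⟨nat_lit 0, nat_lit 100, nat_lit 100, nat_lit 17, nat_lit 10000000000⟩]⟩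
noncomputable def p002_l149 : Lf2 := ⟨nat_lit 0, nat_lit 5, [nat_lit 4, nat_lit 5, nat_lit 5, nat_lit 20], true, nat_lit 0, nat_lit 0, nat_lit 0, nat_lit 0, ⟨nat_lit 0, nat_lit 0, nat_lit 1000, nat_lit 5, nat_lit 36, nat_lit 0, nat_lit 0, nat_lit 0, nat_lit 0, nat_lit 215, nat_lit 12150, nat_lit 242, nat_lit 66451980, nat_lit 0, nat_lit 0, nat_lit 236966, false, false⟩,
 nat_lit 0, nat_lit 9551, nat_lit 0, nat_lit 0, nat_lit 4519, nat_lit 0, nat_lit 1053, nat_lit 0, nat_lit 0, nat_lit 0, nat_lit 0, nat_lit 0, nat_lit 0, nat_lit 0, nat_lit 53, nat_lit 383800, nat_lit 0, nat_lit 0, [(nat_lit 0, [(nat_lit 3, nat_lit 81), (nat_lit 5, nat_lit 919)])],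
 ⟨p002_k11, nat_lit 0, nat_lit 0, nat_lit 0, nat_lit 0, nat_lit 22378, [nat_lit 2680739067, nat_lit 1434081289, nat_lit 699966801, nat_lit 12330000], [], [nat_lit 13433965101, nat_lit 13492015594, nat_lit 13139135912, nat_lit 13196278132], nat_lit 1271250, nat_lit 1271250, nat_lit 0, nat_lit 21650, nat_lit 0, nat_lit 0, [nat_lit 631250, nat_lit 1431250, nat_lit 1271250, nat_lit 1271250], [nat_lit 130, nat_lit 40, nat_lit 20, nat_lit 40]⟩, C1.Rw.none,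
 ⟨nat_lit 6726, nat_lit 6746, ⟨.ofNat (nat_lit 85456), .ofNat (nat_lit 94111), .ofNat (nat_lit 86528), .ofNat (nat_lit 95184), .ofNat (nat_lit 86451), .ofNat (nat_lit 95086), .ofNat (nat_lit 87523), .ofNat (nat_lit 96159)⟩, ⟨.ofNat (nat_lit 0), .ofNat (nat_lit 0), .ofNat (nat_lit 0), .ofNat (nat_lit 0), .ofNat (nat_lit 0), .ofNat (nat_lit 0), .ofNat (nat_lit 0), .ofNat (nat_lit 0)⟩⟩, [⟨nat_lit 0, nat_lit 100, nat_lit 100, nat_lit 18, nat_lit 474567373⟩]⟩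
noncomputable def p002_l150 : Lf2 := ⟨nat_lit 0, nat_lit 5, [nat_lit 4, nat_lit 5, nat_lit 5, nat_lit 20], true, nat_lit 0, nat_lit 0, nat_lit 0, nat_lit 0, ⟨nat_lit 0, nat_lit 0, nat_lit 1000, nat_lit 5, nat_lit 36, nat_lit 0, nat_lit 0, nat_lit 0, nat_lit 0, nat_lit 215, nat_lit 12150, nat_lit 242, nat_lit 66451980, nat_lit 0, nat_lit 0, nat_lit 236966, false, false⟩,
 nat_lit 0, nat_lit 100000, nat_lit 0, nat_lit 100000, nat_lit 47322, nat_lit 0, nat_lit 7873, nat_lit 427, nat_lit 0, nat_lit 0, nat_lit 0, nat_lit 0, nat_lit 0, nat_lit 0, nat_lit 0, nat_lit 1000000, nat_lit 0, nat_lit 0, [(nat_lit 0, [(nat_lit 6, nat_lit 1000)])],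
 ⟨p002_k6, nat_lit 0, nat_lit 0, nat_lit 303, nat_lit 0, nat_lit 22378, [nat_lit 9358000000, nat_lit 9440800001, nat_lit 9462400000], [], [nat_lit 9182847590, nat_lit 9352506066, nat_lit 6377194878, nat_lit 6547547244], nat_lit 1271250, nat_lit 1271250, nat_lit 0, nat_lit 21650, nat_lit 0, nat_lit 0, [nat_lit 1412500, nat_lit 1271250, nat_lit 1271250], [nat_lit 25, nat_lit 40, nat_lit 20, nat_lit 80, nat_lit 17, nat_lit 272, nat_lit 60, nat_lit 8]⟩, C1.Rw.none,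
 ⟨nat_lit 6726, nat_lit 6746, ⟨.ofNat (nat_lit 85456), .ofNat (nat_lit 94111), .ofNat (nat_lit 86528), .ofNat (nat_lit 95184), .ofNat (nat_lit 86451), .ofNat (nat_lit 95086), .ofNat (nat_lit 87523), .ofNat (nat_lit 96159)⟩, ⟨.ofNat (nat_lit 0), .ofNat (nat_lit 0), .ofNat (nat_lit 0), .ofNat (nat_lit 0), .ofNat (nat_lit 0), .ofNat (nat_lit 0), .ofNat (nat_lit 0), .ofNat (nat_lit 0)⟩⟩, [⟨nat_lit 0, nat_lit 100, nat_lit 100, nat_lit 18, nat_lit 10000000000⟩, ⟨nat_lit 0, nat_lit 100, nat_lit 100, nat_lit 18, nat_lit 10000000000⟩, ⟨nat_lit 0, nat_lit 100, nat_lit 100, nat_lit 17, nat_lit 10000000000⟩]⟩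
noncomputable def p002_l151 : Lf2 := ⟨nat_lit 0, nat_lit 5, [nat_lit 4, nat_lit 5, nat_lit 5, nat_lit 20], true, nat_lit 0, nat_lit 0, nat_lit 0, nat_lit 0, ⟨nat_lit 0, nat_lit 0, nat_lit 1000, nat_lit 5, nat_lit 37, nat_lit 0, nat_lit 0, nat_lit 0, nat_lit 0, nat_lit 215, nat_lit 13067, nat_lit 243, nat_lit 66440140, nat_lit 0, nat_lit 0, nat_lit 241215, false, false⟩,
 nat_lit 0, nat_lit 9678, nat_lit 0, nat_lit 0, nat_lit 4604, nat_lit 0, nat_lit 1209, nat_lit 0, nat_lit 0, nat_lit 0, nat_lit 0, nat_lit 0, nat_lit 0, nat_lit 0, nat_lit 45, nat_lit 247650, nat_lit 0, nat_lit 0, [(nat_lit 0, [(nat_lit 3, nat_lit 47), (nat_lit 4, nat_lit 953)])],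
 ⟨p002_k9, nat_lit 0, nat_lit 0, nat_lit 0, nat_lit 0, nat_lit 26369, [nat_lit 2676162001, nat_lit 1157524801, nat_lit 630051201, nat_lit 14216400], [], [nat_lit 13380116614, nat_lit 13438613101, nat_lit 13083235176, nat_lit 13136594980], nat_lit 1271250, nat_lit 1271250, nat_lit 0, nat_lit 21650, nat_lit 0, nat_lit 0, [nat_lit 631250, nat_lit 1431250, nat_lit 1271250, nat_lit 1271250], [nat_lit 130, nat_lit 40, nat_lit 20, nat_lit 40]⟩, C1.Rw.none,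
 ⟨nat_lit 6708, nat_lit 6727, ⟨.ofNat (nat_lit 86451), .ofNat (nat_lit 95086), .ofNat (nat_lit 87523), .ofNat (nat_lit 96159), .ofNat (nat_lit 87444), .ofNat (nat_lit 96059), .ofNat (nat_lit 88516), .ofNat (nat_lit 97131)⟩, ⟨.ofNat (nat_lit 0), .ofNat (nat_lit 0), .ofNat (nat_lit 0), .ofNat (nat_lit 0), .ofNat (nat_lit 0), .ofNat (nat_lit 0), .ofNat (nat_lit 0), .ofNat (nat_lit 0)⟩⟩, [⟨nat_lit 0, nat_lit 100, nat_lit 100, nat_lit 19, nat_lit 482123984⟩]⟩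
noncomputable def p002_l152 : Lf2 := ⟨nat_lit 0, nat_lit 5, [nat_lit 4, nat_lit 5, nat_lit 5, nat_lit 20], true, nat_lit 0, nat_lit 0, nat_lit 0, nat_lit 0, ⟨nat_lit 0, nat_lit 0, nat_lit 1000, nat_lit 5, nat_lit 37, nat_lit 0, nat_lit 0, nat_lit 0, nat_lit 0, nat_lit 215, nat_lit 13067, nat_lit 243, nat_lit 66440140, nat_lit 0, nat_lit 0, nat_lit 241215, false, false⟩,
 nat_lit 0, nat_lit 100000, nat_lit 0, nat_lit 100000, nat_lit 47574, nat_lit 0, nat_lit 7822, nat_lit 408, nat_lit 0, nat_lit 0, nat_lit 0, nat_lit 0, nat_lit 0, nat_lit 0, nat_lit 0, nat_lit 1000000, nat_lit 0, nat_lit 0, [(nat_lit 0, [(nat_lit 6, nat_lit 1000)])],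
 ⟨p002_k7, nat_lit 0, nat_lit 0, nat_lit 305, nat_lit 0, nat_lit 26369, [nat_lit 8978000000, nat_lit 8984800000, nat_lit 8930400000], [], [nat_lit 7887710052, nat_lit 8058115430, nat_lit 5067270236, nat_lit 5239275129], nat_lit 1271250, nat_lit 1271250, nat_lit 0, nat_lit 21650, nat_lit 0, nat_lit 0, [nat_lit 1412500, nat_lit 1271250, nat_lit 1271250], [nat_lit 25, nat_lit 40, nat_lit 20, nat_lit 80, nat_lit 17, nat_lit 272, nat_lit 60, nat_lit 8]⟩, C1.Rw.none,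
 ⟨nat_lit 6708, nat_lit 6727, ⟨.ofNat (nat_lit 86451), .ofNat (nat_lit 95086), .ofNat (nat_lit 87523), .ofNat (nat_lit 96159), .ofNat (nat_lit 87444), .ofNat (nat_lit 96059), .ofNat (nat_lit 88516), .ofNat (nat_lit 97131)⟩, ⟨.ofNat (nat_lit 0), .ofNat (nat_lit 0), .ofNat (nat_lit 0), .ofNat (nat_lit 0), .ofNat (nat_lit 0), .ofNat (nat_lit 0), .ofNat (nat_lit 0), .ofNat (nat_lit 0)⟩⟩, [⟨nat_lit 0, nat_lit 100, nat_lit 100, nat_lit 18, nat_lit 10000000000⟩, ⟨nat_lit 0, nat_lit 100, nat_lit 100, nat_lit 19, nat_lit 10000000000⟩, ⟨nat_lit 0, nat_lit 100, nat_lit 100, nat_lit 18, nat_lit 10000000000⟩]⟩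
noncomputable def p002_l153 : Lf2 := ⟨nat_lit 0, nat_lit 5, [nat_lit 4, nat_lit 5, nat_lit 5, nat_lit 20], true, nat_lit 0, nat_lit 0, nat_lit 0, nat_lit 0, ⟨nat_lit 0, nat_lit 0, nat_lit 1000, nat_lit 5, nat_lit 40, nat_lit 0, nat_lit 0, nat_lit 0, nat_lit 0, nat_lit 215, nat_lit 15000, nat_lit 245, nat_lit 66351436, nat_lit 0, nat_lit 0, nat_lit 272407, false, false⟩,
 nat_lit 0, nat_lit 9753, nat_lit 0, nat_lit 722, nat_lit 4615, nat_lit 0, nat_lit 600, nat_lit 0, nat_lit 0, nat_lit 0, nat_lit 0, nat_lit 0, nat_lit 0, nat_lit 0, nat_lit 90, nat_lit 1000000, nat_lit 0, nat_lit 0, [(nat_lit 0, [(nat_lit 6, nat_lit 1000)])],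
 ⟨p002_k6, nat_lit 0, nat_lit 0, nat_lit 298, nat_lit 0, nat_lit 26519, [nat_lit 2618000001, nat_lit 1352800000, nat_lit 26400000], [], [nat_lit 13287368851, nat_lit 13383126035, nat_lit 13054265393, nat_lit 13152301349], nat_lit 1271250, nat_lit 1271250, nat_lit 21650, nat_lit 43600, nat_lit 0, nat_lit 0, [nat_lit 1412500, nat_lit 1271250, nat_lit 1271250], [nat_lit 25, nat_lit 40, nat_lit 20, nat_lit 80, nat_lit 17, nat_lit 272, nat_lit 60, nat_lit 8]⟩, C1.Rw.none,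
 ⟨nat_lit 6708, nat_lit 6746, ⟨.ofNat (nat_lit 91967), .ofNat (nat_lit 100622), .ofNat (nat_lit 95184), .ofNat (nat_lit 103839), .ofNat (nat_lit 93915), .ofNat (nat_lit 102531), .ofNat (nat_lit 97131), .ofNat (nat_lit 105747)⟩, ⟨.ofNat (nat_lit 0), .ofNat (nat_lit 0), .ofNat (nat_lit 0), .ofNat (nat_lit 0), .ofNat (nat_lit 0), .ofNat (nat_lit 0), .ofNat (nat_lit 0), .ofNat (nat_lit 0)⟩⟩, []⟩
noncomputable def b_NL_500_500_0_8 : St := ⟨false, nat_lit 1, nat_lit 1, nat_lit 1, nat_lit 20, nat_lit 218, nat_lit 220, nat_lit 215, nat_lit 218, nat_lit 0, nat_lit 8, nat_lit 0, nat_lit 0, nat_lit 0, nat_lit 0, nat_lit 0, nat_lit 0, nat_lit 8, nat_lit 20, nat_lit 0, nat_lit 0, nat_lit 0, nat_lit 800⟩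
theorem d_NL_500_500_0_8 (h : EB TB.env) : Dead b_NL_500_500_0_8 := chkB_sound0 h (T :=
(.spl (nat_lit 6) (nat_lit 16)
(.spl (nat_lit 2) (nat_lit 4)
(.spl (nat_lit 1) (nat_lit 217)
(.spl (nat_lit 6) (nat_lit 12)
(.spl (nat_lit 0) (nat_lit 219)
(.spl (nat_lit 1) (nat_lit 216)
(.leaf p002_l117)
(.spl (nat_lit 7) (nat_lit 600)
(.leaf p002_l118)
(.leaf p002_l119)))
(.leaf p002_l120))
(.spl (nat_lit 0) (nat_lit 219)
(.leaf p002_l121)
(.leaf p002_l122)))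
(.spl (nat_lit 6) (nat_lit 12)
(.spl (nat_lit 0) (nat_lit 219)
(.spl (nat_lit 8) (nat_lit 400)
(.spl (nat_lit 8) (nat_lit 200)
(.leaf p002_l123)
(.spl (nat_lit 7) (nat_lit 600)
(.leaf p002_l124)
(.leaf p002_l125)))
(.leaf p002_l126))
(.spl (nat_lit 8) (nat_lit 400)
(.spl (nat_lit 8) (nat_lit 200)
(.leaf p002_l127)
(.spl (nat_lit 7) (nat_lit 600)
(.leaf p002_l128)
(.leaf p002_l129)))
(.leaf p002_l130)))
(.spl (nat_lit 0) (nat_lit 219)
(.spl (nat_lit 7) (nat_lit 600)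
(.leaf p002_l131)
(.leaf p002_l132))
(.spl (nat_lit 7) (nat_lit 600)
(.leaf p002_l133)
(.leaf p002_l134)))))
(.spl (nat_lit 1) (nat_lit 217)
(.leaf p002_l135)
(.spl (nat_lit 0) (nat_lit 219)
(.spl (nat_lit 6) (nat_lit 12)
(.spl (nat_lit 8) (nat_lit 400)
(.spl (nat_lit 7) (nat_lit 600)
(.leaf p002_l136)
(.leaf p002_l137))
(.leaf p002_l138))
(.spl (nat_lit 7) (nat_lit 600)
(.leaf p002_l139)
(.leaf p002_l140)))
(.spl (nat_lit 6) (nat_lit 12)
(.spl (nat_lit 7) (nat_lit 600)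
(.leaf p002_l141)
(.leaf p002_l142))
(.spl (nat_lit 7) (nat_lit 600)
(.leaf p002_l143)
(.leaf p002_l144))))))
(.spl (nat_lit 2) (nat_lit 4)
(.spl (nat_lit 1) (nat_lit 217)
(.spl (nat_lit 0) (nat_lit 219)
(.leaf p002_l145)
(.spl (nat_lit 1) (nat_lit 216)
(.leaf p002_l146)
(.spl (nat_lit 7) (nat_lit 600)
(.leaf p002_l147)
(.leaf p002_l148))))
(.spl (nat_lit 0) (nat_lit 219)
(.spl (nat_lit 7) (nat_lit 600)
(.leaf p002_l149)
(.leaf p002_l150))
(.spl (nat_lit 7) (nat_lit 600)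
(.leaf p002_l151)
(.leaf p002_l152))))
(.leaf p002_l153)))) (by decide +kernel)
noncomputable def p002_l154 : Lf2 := ⟨nat_lit 0, nat_lit 3, [nat_lit 45, nat_lit 5, nat_lit 5, nat_lit 20], true, nat_lit 0, nat_lit 0, nat_lit 0, nat_lit 0, ⟨nat_lit 0, nat_lit 0, nat_lit 1000, nat_lit 5, nat_lit 37, nat_lit 0, nat_lit 0, nat_lit 0, nat_lit 0, nat_lit 215, nat_lit 13067, nat_lit 243, nat_lit 66439069, nat_lit 0, nat_lit 0, nat_lit 241597, false, false⟩,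
 nat_lit 0, nat_lit 717, nat_lit 0, nat_lit 0, nat_lit 339, nat_lit 0, nat_lit 0, nat_lit 0, nat_lit 266, nat_lit 0, nat_lit 0, nat_lit 0, nat_lit 0, nat_lit 12059738049583, nat_lit 90, nat_lit 1000000, nat_lit 0, nat_lit 0, [(nat_lit 0, [(nat_lit 6, nat_lit 1000)])],
 ⟨p002_k1, nat_lit 0, nat_lit 0, nat_lit 0, nat_lit 0, nat_lit 102808, [nat_lit 2618000001, nat_lit 1352800000, nat_lit 26400000], [], [nat_lit 5758677425, nat_lit 5804048931, nat_lit 5759013187, nat_lit 5802275702], nat_lit 1271250, nat_lit 1271250, nat_lit 0, nat_lit 21650, nat_lit 0, nat_lit 0, [nat_lit 1412500, nat_lit 1271250, nat_lit 1271250], [nat_lit 25, nat_lit 40, nat_lit 20, nat_lit 80]⟩, C1.Rw.none,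
 ⟨nat_lit 6726, nat_lit 6746, ⟨.ofNat (nat_lit 86528), .ofNat (nat_lit 95184), .ofNat (nat_lit 87601), .ofNat (nat_lit 96256), .ofNat (nat_lit 87523), .ofNat (nat_lit 96159), .ofNat (nat_lit 88595), .ofNat (nat_lit 97231)⟩, ⟨.ofNat (nat_lit 0), .ofNat (nat_lit 0), .ofNat (nat_lit 0), .ofNat (nat_lit 0), .ofNat (nat_lit 0), .ofNat (nat_lit 0), .ofNat (nat_lit 0), .ofNat (nat_lit 0)⟩⟩, [⟨nat_lit 0, nat_lit 100, nat_lit 100, nat_lit 18, nat_lit 107842370⟩]⟩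
noncomputable def p002_l155 : Lf2 := ⟨nat_lit 0, nat_lit 3, [nat_lit 45, nat_lit 5, nat_lit 5, nat_lit 20], true, nat_lit 0, nat_lit 0, nat_lit 0, nat_lit 0, ⟨nat_lit 0, nat_lit 0, nat_lit 1000, nat_lit 5, nat_lit 37, nat_lit 0, nat_lit 0, nat_lit 0, nat_lit 0, nat_lit 215, nat_lit 13067, nat_lit 243, nat_lit 66439069, nat_lit 0, nat_lit 0, nat_lit 241597, false, false⟩,
 nat_lit 0, nat_lit 6108, nat_lit 0, nat_lit 0, nat_lit 2890, nat_lit 0, nat_lit 0, nat_lit 0, nat_lit 99, nat_lit 0, nat_lit 0, nat_lit 0, nat_lit 0, nat_lit 7178059530835, nat_lit 90, nat_lit 1000000, nat_lit 0, nat_lit 0, [(nat_lit 0, [(nat_lit 6, nat_lit 1000)])],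
 ⟨p002_k1, nat_lit 0, nat_lit 0, nat_lit 0, nat_lit 0, nat_lit 102808, [nat_lit 2618000001, nat_lit 1352800000, nat_lit 26400000], [], [nat_lit 10617517901, nat_lit 10667021031, nat_lit 10445533210, nat_lit 10492789962], nat_lit 1271250, nat_lit 1271250, nat_lit 0, nat_lit 21650, nat_lit 0, nat_lit 0, [nat_lit 1412500, nat_lit 1271250, nat_lit 1271250], [nat_lit 25, nat_lit 40, nat_lit 20, nat_lit 80]⟩, C1.Rw.none,
 ⟨nat_lit 6726, nat_lit 6746, ⟨.ofNat (nat_lit 86528), .ofNat (nat_lit 95184), .ofNat (nat_lit 87601), .ofNat (nat_lit 96256), .ofNat (nat_lit 87523), .ofNat (nat_lit 96159), .ofNat (nat_lit 88595), .ofNat (nat_lit 97231)⟩, ⟨.ofNat (nat_lit 0), .ofNat (nat_lit 0), .ofNat (nat_lit 0), .ofNat (nat_lit 0), .ofNat (nat_lit 0), .ofNat (nat_lit 0), .ofNat (nat_lit 0), .ofNat (nat_lit 0)⟩⟩, [⟨nat_lit 0, nat_lit 100, nat_lit 100, nat_lit 19, nat_lit 322914966⟩]⟩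
noncomputable def p002_l156 : Lf2 := ⟨nat_lit 0, nat_lit 3, [nat_lit 45, nat_lit 5, nat_lit 5, nat_lit 20], true, nat_lit 0, nat_lit 0, nat_lit 0, nat_lit 0, ⟨nat_lit 0, nat_lit 0, nat_lit 1000, nat_lit 5, nat_lit 37, nat_lit 0, nat_lit 0, nat_lit 0, nat_lit 0, nat_lit 215, nat_lit 13067, nat_lit 243, nat_lit 66439069, nat_lit 0, nat_lit 0, nat_lit 241597, false, false⟩,
 nat_lit 0, nat_lit 10781, nat_lit 0, nat_lit 0, nat_lit 5101, nat_lit 0, nat_lit 1019, nat_lit 0, nat_lit 0, nat_lit 0, nat_lit 0, nat_lit 0, nat_lit 0, nat_lit 0, nat_lit 90, nat_lit 1000000, nat_lit 0, nat_lit 0, [(nat_lit 0, [(nat_lit 6, nat_lit 1000)])],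
 ⟨p002_k1, nat_lit 0, nat_lit 0, nat_lit 0, nat_lit 0, nat_lit 102808, [nat_lit 2618000001, nat_lit 1352800000, nat_lit 26400000], [], [nat_lit 13029362700, nat_lit 13090466948, nat_lit 12695844850, nat_lit 12752067117], nat_lit 1271250, nat_lit 1271250, nat_lit 0, nat_lit 21650, nat_lit 0, nat_lit 0, [nat_lit 1412500, nat_lit 1271250, nat_lit 1271250], [nat_lit 25, nat_lit 40, nat_lit 20, nat_lit 80]⟩, C1.Rw.none,
 ⟨nat_lit 6726, nat_lit 6746, ⟨.ofNat (nat_lit 86528), .ofNat (nat_lit 95184), .ofNat (nat_lit 87601), .ofNat (nat_lit 96256), .ofNat (nat_lit 87523), .ofNat (nat_lit 96159), .ofNat (nat_lit 88595), .ofNat (nat_lit 97231)⟩, ⟨.ofNat (nat_lit 0), .ofNat (nat_lit 0), .ofNat (nat_lit 0), .ofNat (nat_lit 0), .ofNat (nat_lit 0), .ofNat (nat_lit 0), .ofNat (nat_lit 0), .ofNat (nat_lit 0)⟩⟩, [⟨nat_lit 0, nat_lit 100, nat_lit 100, nat_lit 19, nat_lit 529088487⟩]⟩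
noncomputable def p002_l157 : Lf2 := ⟨nat_lit 0, nat_lit 3, [nat_lit 45, nat_lit 5, nat_lit 5, nat_lit 20], true, nat_lit 0, nat_lit 0, nat_lit 0, nat_lit 0, ⟨nat_lit 0, nat_lit 0, nat_lit 1000, nat_lit 5, nat_lit 37, nat_lit 0, nat_lit 0, nat_lit 0, nat_lit 0, nat_lit 215, nat_lit 13067, nat_lit 243, nat_lit 66439069, nat_lit 0, nat_lit 0, nat_lit 241597, false, false⟩,
 nat_lit 0, nat_lit 100000, nat_lit 0, nat_lit 0, nat_lit 47322, nat_lit 0, nat_lit 9607, nat_lit 0, nat_lit 468, nat_lit 0, nat_lit 0, nat_lit 0, nat_lit 0, nat_lit 0, nat_lit 45, nat_lit 250000, nat_lit 38406832920, nat_lit 0, [(nat_lit 0, [(nat_lit 4, nat_lit 1000)])],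
 ⟨p002_k12, nat_lit 0, nat_lit 0, nat_lit 0, nat_lit 0, nat_lit 102808, [nat_lit 2532000000, nat_lit 1157600001, nat_lit 629600001, nat_lit 10400000], [], [nat_lit 2802660071, nat_lit 3027144819, nat_lit 0, nat_lit 215355164], nat_lit 1271250, nat_lit 1271250, nat_lit 0, nat_lit 21650, nat_lit 0, nat_lit 0, [nat_lit 780000, nat_lit 1435000, nat_lit 1271250, nat_lit 1271250], [nat_lit 140, nat_lit 40, nat_lit 20, nat_lit 80]⟩, C1.Rw.none,
 ⟨nat_lit 6726, nat_lit 6746, ⟨.ofNat (nat_lit 86528), .ofNat (nat_lit 95184), .ofNat (nat_lit 87601), .ofNat (nat_lit 96256), .ofNat (nat_lit 87523), .ofNat (nat_lit 96159), .ofNat (nat_lit 88595), .ofNat (nat_lit 97231)⟩, ⟨.ofNat (nat_lit 0), .ofNat (nat_lit 0), .ofNat (nat_lit 0), .ofNat (nat_lit 0), .ofNat (nat_lit 0), .ofNat (nat_lit 0), .ofNat (nat_lit 0), .ofNat (nat_lit 0)⟩⟩, [⟨nat_lit 0, nat_lit 100, nat_lit 100, nat_lit 19, nat_lit 3621359741⟩]⟩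
noncomputable def p002_l158 : Lf2 := ⟨nat_lit 0, nat_lit 3, [nat_lit 45, nat_lit 5, nat_lit 5, nat_lit 20], false, nat_lit 0, nat_lit 0, nat_lit 0, nat_lit 0, ⟨nat_lit 0, nat_lit 0, nat_lit 1000, nat_lit 5, nat_lit 37, nat_lit 0, nat_lit 0, nat_lit 0, nat_lit 0, nat_lit 215, nat_lit 13067, nat_lit 243, nat_lit 66439069, nat_lit 0, nat_lit 0, nat_lit 241597, false, false⟩,
 nat_lit 100000, nat_lit 0, nat_lit 0, nat_lit 0, nat_lit 47322, nat_lit 47322, nat_lit 17406, nat_lit 1986, nat_lit 0, nat_lit 16679, nat_lit 2186, nat_lit 0, nat_lit 0, nat_lit 0, nat_lit 0, nat_lit 400000, nat_lit 0, nat_lit 0, [(nat_lit 0, [(nat_lit 5, nat_lit 1000)])],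
 ⟨p002_k1, nat_lit 0, nat_lit 0, nat_lit 0, nat_lit 0, nat_lit 102808, [nat_lit 41120000000, nat_lit 47080400001, nat_lit 54109600000], [], [nat_lit 71274700549, nat_lit 71624956605, nat_lit 67948272415, nat_lit 68127151057], nat_lit 1271250, nat_lit 1271250, nat_lit 0, nat_lit 21650, nat_lit 0, nat_lit 0, [nat_lit 1412500, nat_lit 1271250, nat_lit 1271250], [nat_lit 25, nat_lit 40, nat_lit 20, nat_lit 80]⟩, ⟨p002_k1, nat_lit 0, nat_lit 0, nat_lit 0, nat_lit 0, nat_lit 102808, [nat_lit 43720000000, nat_lit 52464000000, nat_lit 61208000000], [], [nat_lit 65588678350, nat_lit 65847365654, nat_lit 62125226198, nat_lit 62309873802], nat_lit 1271250, nat_lit 1271250, nat_lit 0, nat_lit 21650, nat_lit 0, nat_lit 0, [nat_lit 1412500, nat_lit 1271250, nat_lit 1271250], [nat_lit 25, nat_lit 40, nat_lit 20, nat_lit 80]⟩,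
 ⟨nat_lit 6726, nat_lit 6746, ⟨.ofNat (nat_lit 86528), .ofNat (nat_lit 95184), .ofNat (nat_lit 87601), .ofNat (nat_lit 96256), .ofNat (nat_lit 87523), .ofNat (nat_lit 96159), .ofNat (nat_lit 88595), .ofNat (nat_lit 97231)⟩, ⟨.ofNat (nat_lit 0), .ofNat (nat_lit 0), .ofNat (nat_lit 0), .ofNat (nat_lit 0), .ofNat (nat_lit 0), .ofNat (nat_lit 0), .ofNat (nat_lit 0), .ofNat (nat_lit 0)⟩⟩, [⟨nat_lit 0, nat_lit 100, nat_lit 100, nat_lit 19, nat_lit 8903543120⟩]⟩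
noncomputable def p002_l159 : Lf2 := ⟨nat_lit 0, nat_lit 3, [nat_lit 45, nat_lit 5, nat_lit 5, nat_lit 20], true, nat_lit 0, nat_lit 0, nat_lit 0, nat_lit 0, ⟨nat_lit 0, nat_lit 0, nat_lit 1000, nat_lit 5, nat_lit 37, nat_lit 0, nat_lit 0, nat_lit 0, nat_lit 0, nat_lit 215, nat_lit 13067, nat_lit 243, nat_lit 66439069, nat_lit 0, nat_lit 0, nat_lit 241597, false, false⟩,
 nat_lit 0, nat_lit 100000, nat_lit 0, nat_lit 0, nat_lit 47322, nat_lit 0, nat_lit 18066, nat_lit 2015, nat_lit 0, nat_lit 0, nat_lit 0, nat_lit 0, nat_lit 0, nat_lit 0, nat_lit 0, nat_lit 1000000, nat_lit 0, nat_lit 0, [(nat_lit 0, [(nat_lit 6, nat_lit 1000)])],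
 ⟨p002_k1, nat_lit 0, nat_lit 0, nat_lit 0, nat_lit 0, nat_lit 102808, [nat_lit 41118000001, nat_lit 47552800000, nat_lit 53926400000], [], [nat_lit 71272725548, nat_lit 71622981604, nat_lit 67942297416, nat_lit 68125176056], nat_lit 1271250, nat_lit 1271250, nat_lit 0, nat_lit 21650, nat_lit 0, nat_lit 0, [nat_lit 1412500, nat_lit 1271250, nat_lit 1271250], [nat_lit 25, nat_lit 40, nat_lit 20, nat_lit 80]⟩, C1.Rw.none,
 ⟨nat_lit 6726, nat_lit 6746, ⟨.ofNat (nat_lit 86528), .ofNat (nat_lit 95184), .ofNat (nat_lit 87601), .ofNat (nat_lit 96256), .ofNat (nat_lit 87523), .ofNat (nat_lit 96159), .ofNat (nat_lit 88595), .ofNat (nat_lit 97231)⟩, ⟨.ofNat (nat_lit 0), .ofNat (nat_lit 0), .ofNat (nat_lit 0), .ofNat (nat_lit 0), .ofNat (nat_lit 0), .ofNat (nat_lit 0), .ofNat (nat_lit 0), .ofNat (nat_lit 0)⟩⟩, [⟨nat_lit 0, nat_lit 100, nat_lit 100, nat_lit 19, nat_lit 4477415928⟩]⟩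
noncomputable def p002_l160 : Lf2 := ⟨nat_lit 0, nat_lit 3, [nat_lit 45, nat_lit 5, nat_lit 5, nat_lit 20], true, nat_lit 0, nat_lit 0, nat_lit 0, nat_lit 0, ⟨nat_lit 0, nat_lit 0, nat_lit 1000, nat_lit 5, nat_lit 37, nat_lit 0, nat_lit 0, nat_lit 0, nat_lit 0, nat_lit 215, nat_lit 13067, nat_lit 243, nat_lit 66439069, nat_lit 0, nat_lit 0, nat_lit 241597, false, false⟩,
 nat_lit 0, nat_lit 100000, nat_lit 0, nat_lit 0, nat_lit 47322, nat_lit 0, nat_lit 18066, nat_lit 2015, nat_lit 0, nat_lit 0, nat_lit 0, nat_lit 0, nat_lit 0, nat_lit 0, nat_lit 0, nat_lit 1000000, nat_lit 0, nat_lit 0, [(nat_lit 0, [(nat_lit 6, nat_lit 1000)])],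
 ⟨p002_k1, nat_lit 0, nat_lit 0, nat_lit 0, nat_lit 0, nat_lit 102808, [nat_lit 41118000001, nat_lit 47552800000, nat_lit 53926400000], [], [nat_lit 71272725548, nat_lit 71622981604, nat_lit 67942297416, nat_lit 68125176056], nat_lit 1271250, nat_lit 1271250, nat_lit 0, nat_lit 21650, nat_lit 0, nat_lit 0, [nat_lit 1412500, nat_lit 1271250, nat_lit 1271250], [nat_lit 25, nat_lit 40, nat_lit 20, nat_lit 80]⟩, C1.Rw.none,
 ⟨nat_lit 6726, nat_lit 6746, ⟨.ofNat (nat_lit 86528), .ofNat (nat_lit 95184), .ofNat (nat_lit 87601), .ofNat (nat_lit 96256), .ofNat (nat_lit 87523), .ofNat (nat_lit 96159), .ofNat (nat_lit 88595), .ofNat (nat_lit 97231)⟩, ⟨.ofNat (nat_lit 0), .ofNat (nat_lit 0), .ofNat (nat_lit 0), .ofNat (nat_lit 0), .ofNat (nat_lit 0), .ofNat (nat_lit 0), .ofNat (nat_lit 0), .ofNat (nat_lit 0)⟩⟩, [⟨nat_lit 0, nat_lit 100, nat_lit 100, nat_lit 19, nat_lit 4477415928⟩]⟩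
noncomputable def p002_l161 : Lf2 := ⟨nat_lit 0, nat_lit 3, [nat_lit 45, nat_lit 5, nat_lit 5, nat_lit 20], true, nat_lit 0, nat_lit 0, nat_lit 0, nat_lit 0, ⟨nat_lit 0, nat_lit 0, nat_lit 1000, nat_lit 5, nat_lit 37, nat_lit 0, nat_lit 0, nat_lit 0, nat_lit 0, nat_lit 215, nat_lit 13067, nat_lit 243, nat_lit 66439069, nat_lit 0, nat_lit 0, nat_lit 241597, false, false⟩,
 nat_lit 0, nat_lit 100000, nat_lit 0, nat_lit 23819, nat_lit 47322, nat_lit 0, nat_lit 0, nat_lit 2087, nat_lit 0, nat_lit 0, nat_lit 0, nat_lit 0, nat_lit 0, nat_lit 400000000000000, nat_lit 0, nat_lit 1000000, nat_lit 0, nat_lit 0, [(nat_lit 0, [(nat_lit 6, nat_lit 1000)])],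
 ⟨p002_k47, nat_lit 0, nat_lit 0, nat_lit 327, nat_lit 0, nat_lit 102808, [nat_lit 42558000001, nat_lit 56003599999], [], [nat_lit 105468468780, nat_lit 105674305200, nat_lit 103504532423, nat_lit 102854428277], nat_lit 1271250, nat_lit 1271250, nat_lit 0, nat_lit 21650, nat_lit 0, nat_lit 0, [nat_lit 1412500, nat_lit 1271250], [nat_lit 51, nat_lit 40, nat_lit 20, nat_lit 80, nat_lit 1, nat_lit 272, nat_lit 60, nat_lit 8]⟩, C1.Rw.none,
 ⟨nat_lit 6726, nat_lit 6746, ⟨.ofNat (nat_lit 86528), .ofNat (nat_lit 95184), .ofNat (nat_lit 87601), .ofNat (nat_lit 96256), .ofNat (nat_lit 87523), .ofNat (nat_lit 96159), .ofNat (nat_lit 88595), .ofNat (nat_lit 97231)⟩, ⟨.ofNat (nat_lit 0), .ofNat (nat_lit 0), .ofNat (nat_lit 0), .ofNat (nat_lit 0), .ofNat (nat_lit 0), .ofNat (nat_lit 0), .ofNat (nat_lit 0), .ofNat (nat_lit 0)⟩⟩, [⟨nat_lit 0, nat_lit 100, nat_lit 100, nat_lit 18, nat_lit 10000000000⟩,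 ⟨nat_lit 0, nat_lit 100, nat_lit 100, nat_lit 19, nat_lit 10000000000⟩, ⟨nat_lit 0, nat_lit 100, nat_lit 100, nat_lit 18, nat_lit 10000000000⟩]⟩
noncomputable def p002_l162 : Lf2 := ⟨nat_lit 0, nat_lit 4, [nat_lit 38, nat_lit 5, nat_lit 5, nat_lit 20], true, nat_lit 0, nat_lit 0, nat_lit 0, nat_lit 0, ⟨nat_lit 0, nat_lit 0, nat_lit 1000, nat_lit 5, nat_lit 37, nat_lit 0, nat_lit 0, nat_lit 0, nat_lit 0, nat_lit 215, nat_lit 13067, nat_lit 243, nat_lit 66439069, nat_lit 0, nat_lit 0, nat_lit 241597, false, false⟩,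
 nat_lit 0, nat_lit 10104, nat_lit 0, nat_lit 0, nat_lit 4781, nat_lit 0, nat_lit 1420, nat_lit 0, nat_lit 0, nat_lit 0, nat_lit 0, nat_lit 0, nat_lit 0, nat_lit 1350072460402, nat_lit 53, nat_lit 380200, nat_lit 0, nat_lit 0, [(nat_lit 0, [(nat_lit 3, nat_lit 99), (nat_lit 5, nat_lit 901)])],
 ⟨p002_k44, nat_lit 0, nat_lit 0, nat_lit 0, nat_lit 0, nat_lit 63857, [nat_lit 2907066267, nat_lit 1431768489, nat_lit 702537201, nat_lit 18270000], [], [nat_lit 12817000450, nat_lit 12876964686, nat_lit 12512479429, nat_lit 12562193914], nat_lit 1271250, nat_lit 1271250, nat_lit 0, nat_lit 21650, nat_lit 0, nat_lit 0, [nat_lit 631250, nat_lit 1431250, nat_lit 1271250, nat_lit 1271250], [nat_lit 130, nat_lit 40, nat_lit 20, nat_lit 40]⟩, C1.Rw.none,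
 ⟨nat_lit 6726, nat_lit 6746, ⟨.ofNat (nat_lit 86528), .ofNat (nat_lit 95184), .ofNat (nat_lit 87601), .ofNat (nat_lit 96256), .ofNat (nat_lit 87523), .ofNat (nat_lit 96159), .ofNat (nat_lit 88595), .ofNat (nat_lit 97231)⟩, ⟨.ofNat (nat_lit 0), .ofNat (nat_lit 0), .ofNat (nat_lit 0), .ofNat (nat_lit 0), .ofNat (nat_lit 0), .ofNat (nat_lit 0), .ofNat (nat_lit 0), .ofNat (nat_lit 0)⟩⟩, [⟨nat_lit 0, nat_lit 100, nat_lit 100, nat_lit 19, nat_lit 499221676⟩]⟩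
noncomputable def p002_l163 : Lf2 := ⟨nat_lit 0, nat_lit 4, [nat_lit 38, nat_lit 5, nat_lit 5, nat_lit 20], true, nat_lit 0, nat_lit 0, nat_lit 0, nat_lit 0, ⟨nat_lit 0, nat_lit 0, nat_lit 1000, nat_lit 5, nat_lit 37, nat_lit 0, nat_lit 0, nat_lit 0, nat_lit 0, nat_lit 215, nat_lit 13067, nat_lit 243, nat_lit 66439069, nat_lit 0, nat_lit 0, nat_lit 241597, false, false⟩,
 nat_lit 0, nat_lit 100000, nat_lit 0, nat_lit 0, nat_lit 47322, nat_lit 0, nat_lit 10399, nat_lit 2387, nat_lit 0, nat_lit 0, nat_lit 0, nat_lit 0, nat_lit 0, nat_lit 0, nat_lit 0, nat_lit 1000000, nat_lit 0, nat_lit 0, [(nat_lit 0, [(nat_lit 6, nat_lit 1000)])],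
 ⟨p002_k48, nat_lit 0, nat_lit 0, nat_lit 313, nat_lit 0, nat_lit 63857, [nat_lit 48558000001, nat_lit 64403599999], [], [nat_lit 124255647677, nat_lit 124385545052, nat_lit 121504532423, nat_lit 121582269962], nat_lit 1271250, nat_lit 1271250, nat_lit 0, nat_lit 21650, nat_lit 0, nat_lit 0, [nat_lit 1412500, nat_lit 1271250], [nat_lit 51, nat_lit 40, nat_lit 20, nat_lit 80, nat_lit 1, nat_lit 272, nat_lit 60, nat_lit 8]⟩, C1.Rw.none,
 ⟨nat_lit 6726, nat_lit 6746, ⟨.ofNat (nat_lit 86528), .ofNat (nat_lit 95184), .ofNat (nat_lit 87601), .ofNat (nat_lit 96256), .ofNat (nat_lit 87523), .ofNat (nat_lit 96159), .ofNat (nat_lit 88595), .ofNat (nat_lit 97231)⟩, ⟨.ofNat (nat_lit 0), .ofNat (nat_lit 0), .ofNat (nat_lit 0), .ofNat (nat_lit 0), .ofNat (nat_lit 0), .ofNat (nat_lit 0), .ofNat (nat_lit 0), .ofNat (nat_lit 0)⟩⟩, [⟨nat_lit 0, nat_lit 100, nat_lit 100, nat_lit 18, nat_lit 10000000000⟩,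 ⟨nat_lit 0, nat_lit 100, nat_lit 100, nat_lit 19, nat_lit 3456697572⟩, ⟨nat_lit 0, nat_lit 100, nat_lit 100, nat_lit 18, nat_lit 10000000000⟩]⟩
noncomputable def p002_l164 : Lf2 := ⟨nat_lit 0, nat_lit 3, [nat_lit 45, nat_lit 5, nat_lit 5, nat_lit 20], true, nat_lit 0, nat_lit 0, nat_lit 0, nat_lit 0, ⟨nat_lit 0, nat_lit 0, nat_lit 1000, nat_lit 5, nat_lit 40, nat_lit 0, nat_lit 0, nat_lit 0, nat_lit 0, nat_lit 215, nat_lit 15000, nat_lit 245, nat_lit 66329652, nat_lit 0, nat_lit 0, nat_lit 279914, false, false⟩,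
 nat_lit 0, nat_lit 9989, nat_lit 0, nat_lit 0, nat_lit 4726, nat_lit 0, nat_lit 1575, nat_lit 0, nat_lit 0, nat_lit 0, nat_lit 0, nat_lit 0, nat_lit 0, nat_lit 0, nat_lit 46, nat_lit 383000, nat_lit 0, nat_lit 0, [(nat_lit 0, [(nat_lit 3, nat_lit 85), (nat_lit 5, nat_lit 915)])],
 ⟨p002_k46, nat_lit 0, nat_lit 0, nat_lit 0, nat_lit 0, nat_lit 102808, [nat_lit 2661034001, nat_lit 1293567334, nat_lit 532538000, nat_lit 11998000], [], [nat_lit 12307549875, nat_lit 12356702802, nat_lit 12105020813, nat_lit 12155891171], nat_lit 1271250, nat_lit 1271250, nat_lit 21650, nat_lit 43600, nat_lit 0, nat_lit 0, [nat_lit 631250, nat_lit 1431250, nat_lit 1271250, nat_lit 1271250], [nat_lit 151, nat_lit 40, nat_lit 20, nat_lit 40]⟩, C1.Rw.none,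
 ⟨nat_lit 6726, nat_lit 6746, ⟨.ofNat (nat_lit 95184), .ofNat (nat_lit 103839), .ofNat (nat_lit 96256), .ofNat (nat_lit 104912), .ofNat (nat_lit 96159), .ofNat (nat_lit 104794), .ofNat (nat_lit 97231), .ofNat (nat_lit 105866)⟩, ⟨.ofNat (nat_lit 0), .ofNat (nat_lit 0), .ofNat (nat_lit 0), .ofNat (nat_lit 0), .ofNat (nat_lit 0), .ofNat (nat_lit 0), .ofNat (nat_lit 0), .ofNat (nat_lit 0)⟩⟩, []⟩
noncomputable def p002_l165 : Lf2 := ⟨nat_lit 0, nat_lit 3, [nat_lit 45, nat_lit 5, nat_lit 5, nat_lit 20], true, nat_lit 0, nat_lit 0, nat_lit 0, nat_lit 0, ⟨nat_lit 0, nat_lit 0, nat_lit 1000, nat_lit 5, nat_lit 40, nat_lit 0, nat_lit 0, nat_lit 0, nat_lit 0, nat_lit 215, nat_lit 15000, nat_lit 245, nat_lit 66329652, nat_lit 0, nat_lit 0, nat_lit 279914, false, false⟩,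
 nat_lit 0, nat_lit 100000, nat_lit 0, nat_lit 100000, nat_lit 47322, nat_lit 0, nat_lit 21226, nat_lit 1846, nat_lit 0, nat_lit 0, nat_lit 0, nat_lit 0, nat_lit 0, nat_lit 400000000000000, nat_lit 0, nat_lit 1000000, nat_lit 0, nat_lit 0, [(nat_lit 0, [(nat_lit 6, nat_lit 1000)])],
 ⟨p002_k1, nat_lit 0, nat_lit 0, nat_lit 332, nat_lit 0, nat_lit 102808, [nat_lit 37738000000, nat_lit 43496800000, nat_lit 49194400000], [], [nat_lit 55249254578, nat_lit 55475784698, nat_lit 52488483519, nat_lit 52662813749], nat_lit 1271250, nat_lit 1271250, nat_lit 21650, nat_lit 43600, nat_lit 0, nat_lit 0, [nat_lit 1412500, nat_lit 1271250, nat_lit 1271250], [nat_lit 25, nat_lit 40, nat_lit 20, nat_lit 80, nat_lit 17, nat_lit 272, nat_lit 60, nat_lit 8]⟩, C1.Rw.none,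
 ⟨nat_lit 6726, nat_lit 6746, ⟨.ofNat (nat_lit 95184), .ofNat (nat_lit 103839), .ofNat (nat_lit 96256), .ofNat (nat_lit 104912), .ofNat (nat_lit 96159), .ofNat (nat_lit 104794), .ofNat (nat_lit 97231), .ofNat (nat_lit 105866)⟩, ⟨.ofNat (nat_lit 0), .ofNat (nat_lit 0), .ofNat (nat_lit 0), .ofNat (nat_lit 0), .ofNat (nat_lit 0), .ofNat (nat_lit 0), .ofNat (nat_lit 0), .ofNat (nat_lit 0)⟩⟩, [⟨nat_lit 0, nat_lit 100, nat_lit 100, nat_lit 18, nat_lit 9745010117⟩]⟩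
noncomputable def p002_l166 : Lf2 := ⟨nat_lit 0, nat_lit 3, [nat_lit 45, nat_lit 5, nat_lit 5, nat_lit 20], false, nat_lit 0, nat_lit 0, nat_lit 0, nat_lit 0, ⟨nat_lit 0, nat_lit 0, nat_lit 1000, nat_lit 5, nat_lit 40, nat_lit 0, nat_lit 0, nat_lit 0, nat_lit 0, nat_lit 215, nat_lit 15000, nat_lit 245, nat_lit 66329652, nat_lit 0, nat_lit 0, nat_lit 279914, false, false⟩,
 nat_lit 11135, nat_lit 0, nat_lit 0, nat_lit 0, nat_lit 5269, nat_lit 5269, nat_lit 904, nat_lit 0, nat_lit 0, nat_lit 1857, nat_lit 243, nat_lit 0, nat_lit 0, nat_lit 0, nat_lit 90, nat_lit 1000000, nat_lit 0, nat_lit 0, [(nat_lit 0, [(nat_lit 6, nat_lit 1000)])],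
 ⟨p002_k1, nat_lit 0, nat_lit 0, nat_lit 332, nat_lit 0, nat_lit 102808, [nat_lit 2618000001, nat_lit 1352800000, nat_lit 26400000], [], [nat_lit 13122654539, nat_lit 13167059930, nat_lit 12903360559, nat_lit 12947735078], nat_lit 1271250, nat_lit 1271250, nat_lit 21650, nat_lit 43600, nat_lit 0, nat_lit 0, [nat_lit 1412500, nat_lit 1271250, nat_lit 1271250], [nat_lit 25, nat_lit 40, nat_lit 20, nat_lit 80, nat_lit 17, nat_lit 272, nat_lit 60, nat_lit 8]⟩, ⟨p002_k1, nat_lit 0, nat_lit 0, nat_lit 0, nat_lit 0, nat_lit 102808, [nat_lit 4860000000, nat_lit 5832000000, nat_lit 6804000000], [], [nat_lit 6898880855, nat_lit 6927972326, nat_lit 6581057217, nat_lit 6601653632], nat_lit 1271250, nat_lit 1271250, nat_lit 21650, nat_lit 43600, nat_lit 0, nat_lit 0, [nat_lit 1412500, nat_lit 1271250, nat_lit 1271250], [nat_lit 25, nat_lit 40, nat_lit 20, nat_lit 80]⟩,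
 ⟨nat_lit 6726, nat_lit 6746, ⟨.ofNat (nat_lit 95184), .ofNat (nat_lit 103839), .ofNat (nat_lit 96256), .ofNat (nat_lit 104912), .ofNat (nat_lit 96159), .ofNat (nat_lit 104794), .ofNat (nat_lit 97231), .ofNat (nat_lit 105866)⟩, ⟨.ofNat (nat_lit 0), .ofNat (nat_lit 0), .ofNat (nat_lit 0), .ofNat (nat_lit 0), .ofNat (nat_lit 0), .ofNat (nat_lit 0), .ofNat (nat_lit 0), .ofNat (nat_lit 0)⟩⟩, []⟩
noncomputable def p002_l167 : Lf2 := ⟨nat_lit 0, nat_lit 4, [nat_lit 38, nat_lit 5, nat_lit 5, nat_lit 20], true, nat_lit 0, nat_lit 0, nat_lit 0, nat_lit 0, ⟨nat_lit 0, nat_lit 0, nat_lit 1000, nat_lit 5, nat_lit 40, nat_lit 0, nat_lit 0, nat_lit 0, nat_lit 0, nat_lit 215, nat_lit 15000, nat_lit 245, nat_lit 66329652, nat_lit 0, nat_lit 0, nat_lit 279914, false, false⟩,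
 nat_lit 0, nat_lit 10172, nat_lit 0, nat_lit 0, nat_lit 4813, nat_lit 0, nat_lit 1464, nat_lit 0, nat_lit 0, nat_lit 0, nat_lit 0, nat_lit 0, nat_lit 0, nat_lit 0, nat_lit 53, nat_lit 380200, nat_lit 0, nat_lit 0, [(nat_lit 0, [(nat_lit 3, nat_lit 99), (nat_lit 5, nat_lit 901)])],
 ⟨p002_k44, nat_lit 0, nat_lit 0, nat_lit 0, nat_lit 0, nat_lit 63857, [nat_lit 2907066267, nat_lit 1431768489, nat_lit 702537201, nat_lit 18270000], [], [nat_lit 12436498464, nat_lit 12485986061, nat_lit 12232578433, nat_lit 12283824276], nat_lit 1271250, nat_lit 1271250, nat_lit 21650, nat_lit 43600, nat_lit 0, nat_lit 0, [nat_lit 631250, nat_lit 1431250, nat_lit 1271250, nat_lit 1271250], [nat_lit 130, nat_lit 40, nat_lit 20, nat_lit 40]⟩, C1.Rw.none,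
 ⟨nat_lit 6726, nat_lit 6746, ⟨.ofNat (nat_lit 95184), .ofNat (nat_lit 103839), .ofNat (nat_lit 96256), .ofNat (nat_lit 104912), .ofNat (nat_lit 96159), .ofNat (nat_lit 104794), .ofNat (nat_lit 97231), .ofNat (nat_lit 105866)⟩, ⟨.ofNat (nat_lit 0), .ofNat (nat_lit 0), .ofNat (nat_lit 0), .ofNat (nat_lit 0), .ofNat (nat_lit 0), .ofNat (nat_lit 0), .ofNat (nat_lit 0), .ofNat (nat_lit 0)⟩⟩, []⟩
noncomputable def p002_l168 : Lf2 := ⟨nat_lit 0, nat_lit 4, [nat_lit 38, nat_lit 5, nat_lit 5, nat_lit 20], true, nat_lit 0, nat_lit 0, nat_lit 0, nat_lit 0, ⟨nat_lit 0, nat_lit 0, nat_lit 1000, nat_lit 5, nat_lit 40, nat_lit 0, nat_lit 0, nat_lit 0, nat_lit 0, nat_lit 215, nat_lit 15000, nat_lit 245, nat_lit 66329652, nat_lit 0, nat_lit 0, nat_lit 279914, false, false⟩,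
 nat_lit 0, nat_lit 100000, nat_lit 0, nat_lit 100000, nat_lit 47322, nat_lit 0, nat_lit 41113, nat_lit 1868, nat_lit 0, nat_lit 0, nat_lit 0, nat_lit 0, nat_lit 0, nat_lit 400000000000000, nat_lit 0, nat_lit 1000000, nat_lit 0, nat_lit 0, [(nat_lit 0, [(nat_lit 6, nat_lit 1000)])],
 ⟨p002_k0, nat_lit 0, nat_lit 0, nat_lit 315, nat_lit 0, nat_lit 63857, [nat_lit 38178000001, nat_lit 44024800000, nat_lit 49810400000], [], [nat_lit 41969266166, nat_lit 42150003449, nat_lit 39602702271, nat_lit 39775668135], nat_lit 1271250, nat_lit 1271250, nat_lit 21650, nat_lit 43600, nat_lit 0, nat_lit 0, [nat_lit 1412500, nat_lit 1271250, nat_lit 1271250], [nat_lit 25, nat_lit 40, nat_lit 20, nat_lit 80, nat_lit 17, nat_lit 272, nat_lit 60, nat_lit 8]⟩, C1.Rw.none,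
 ⟨nat_lit 6726, nat_lit 6746, ⟨.ofNat (nat_lit 95184), .ofNat (nat_lit 103839), .ofNat (nat_lit 96256), .ofNat (nat_lit 104912), .ofNat (nat_lit 96159), .ofNat (nat_lit 104794), .ofNat (nat_lit 97231), .ofNat (nat_lit 105866)⟩, ⟨.ofNat (nat_lit 0), .ofNat (nat_lit 0), .ofNat (nat_lit 0), .ofNat (nat_lit 0), .ofNat (nat_lit 0), .ofNat (nat_lit 0), .ofNat (nat_lit 0), .ofNat (nat_lit 0)⟩⟩, []⟩
noncomputable def p002_l169 : Lf2 := ⟨nat_lit 0, nat_lit 3, [nat_lit 45, nat_lit 5, nat_lit 5, nat_lit 20], true, nat_lit 0, nat_lit 0, nat_lit 0, nat_lit 0, ⟨nat_lit 0, nat_lit 0, nat_lit 1000, nat_lit 5, nat_lit 37, nat_lit 0, nat_lit 0, nat_lit 0, nat_lit 0, nat_lit 215, nat_lit 13067, nat_lit 243, nat_lit 66427100, nat_lit 0, nat_lit 0, nat_lit 245859, false, false⟩,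
 nat_lit 0, nat_lit 9950, nat_lit 0, nat_lit 0, nat_lit 4733, nat_lit 0, nat_lit 1472, nat_lit 0, nat_lit 0, nat_lit 0, nat_lit 0, nat_lit 0, nat_lit 0, nat_lit 0, nat_lit 53, nat_lit 382800, nat_lit 0, nat_lit 0, [(nat_lit 0, [(nat_lit 3, nat_lit 65), (nat_lit 4, nat_lit 28), (nat_lit 5, nat_lit 907)])],
 ⟨p002_k15, nat_lit 0, nat_lit 0, nat_lit 0, nat_lit 0, nat_lit 106264, [nat_lit 2629870934, nat_lit 1454876267, nat_lit 701411601, nat_lit 14016400], [], [nat_lit 12800535160, nat_lit 12887395692, nat_lit 12393741419, nat_lit 12452038398], nat_lit 1271250, nat_lit 1271250, nat_lit 0, nat_lit 21650, nat_lit 0, nat_lit 0, [nat_lit 780000, nat_lit 1435000, nat_lit 1271250, nat_lit 1271250], [nat_lit 140, nat_lit 40, nat_lit 20, nat_lit 80]⟩, C1.Rw.none,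
 ⟨nat_lit 6708, nat_lit 6727, ⟨.ofNat (nat_lit 87523), .ofNat (nat_lit 96159), .ofNat (nat_lit 88595), .ofNat (nat_lit 97231), .ofNat (nat_lit 88516), .ofNat (nat_lit 97131), .ofNat (nat_lit 89587), .ofNat (nat_lit 98203)⟩, ⟨.ofNat (nat_lit 0), .ofNat (nat_lit 0), .ofNat (nat_lit 0), .ofNat (nat_lit 0), .ofNat (nat_lit 0), .ofNat (nat_lit 0), .ofNat (nat_lit 0), .ofNat (nat_lit 0)⟩⟩, [⟨nat_lit 0, nat_lit 100, nat_lit 100, nat_lit 19, nat_lit 648858617⟩]⟩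
noncomputable def p002_l170 : Lf2 := ⟨nat_lit 0, nat_lit 3, [nat_lit 45, nat_lit 5, nat_lit 5, nat_lit 20], true, nat_lit 0, nat_lit 0, nat_lit 0, nat_lit 0, ⟨nat_lit 0, nat_lit 0, nat_lit 1000, nat_lit 5, nat_lit 37, nat_lit 0, nat_lit 0, nat_lit 0, nat_lit 0, nat_lit 215, nat_lit 13067, nat_lit 243, nat_lit 66427100, nat_lit 0, nat_lit 0, nat_lit 245859, false, false⟩,
 nat_lit 0, nat_lit 100000, nat_lit 0, nat_lit 100000, nat_lit 47574, nat_lit 0, nat_lit 47250, nat_lit 1884, nat_lit 0, nat_lit 0, nat_lit 0, nat_lit 0, nat_lit 0, nat_lit 0, nat_lit 0, nat_lit 1000000, nat_lit 0, nat_lit 0, [(nat_lit 0, [(nat_lit 6, nat_lit 1000)])],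
 ⟨p002_k14, nat_lit 0, nat_lit 0, nat_lit 340, nat_lit 0, nat_lit 106264, [nat_lit 38498000001, nat_lit 44408800000, nat_lit 50258400000], [], [nat_lit 39356261110, nat_lit 39614101773, nat_lit 36613787154, nat_lit 36787515546], nat_lit 1271250, nat_lit 1271250, nat_lit 0, nat_lit 21650, nat_lit 0, nat_lit 0, [nat_lit 1412500, nat_lit 1271250, nat_lit 1271250], [nat_lit 25, nat_lit 40, nat_lit 20, nat_lit 80, nat_lit 17, nat_lit 272, nat_lit 60, nat_lit 8]⟩, C1.Rw.none,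
 ⟨nat_lit 6708, nat_lit 6727, ⟨.ofNat (nat_lit 87523), .ofNat (nat_lit 96159), .ofNat (nat_lit 88595), .ofNat (nat_lit 97231), .ofNat (nat_lit 88516), .ofNat (nat_lit 97131), .ofNat (nat_lit 89587), .ofNat (nat_lit 98203)⟩, ⟨.ofNat (nat_lit 0), .ofNat (nat_lit 0), .ofNat (nat_lit 0), .ofNat (nat_lit 0), .ofNat (nat_lit 0), .ofNat (nat_lit 0), .ofNat (nat_lit 0), .ofNat (nat_lit 0)⟩⟩, [⟨nat_lit 0, nat_lit 100, nat_lit 100, nat_lit 19, nat_lit 10000000000⟩, ⟨nat_lit 0, nat_lit 100, nat_lit 100, nat_lit 19, nat_lit 10000000000⟩, ⟨nat_lit 0, nat_lit 100, nat_lit 100, nat_lit 18, nat_lit 10000000000⟩]⟩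
noncomputable def p002_l171 : Lf2 := ⟨nat_lit 0, nat_lit 3, [nat_lit 45, nat_lit 5, nat_lit 5, nat_lit 20], false, nat_lit 0, nat_lit 0, nat_lit 0, nat_lit 0, ⟨nat_lit 0, nat_lit 0, nat_lit 1000, nat_lit 5, nat_lit 37, nat_lit 0, nat_lit 0, nat_lit 0, nat_lit 0, nat_lit 215, nat_lit 13067, nat_lit 243, nat_lit 66427100, nat_lit 0, nat_lit 0, nat_lit 245859, false, false⟩,
 nat_lit 11049, nat_lit 0, nat_lit 0, nat_lit 0, nat_lit 5256, nat_lit 5228, nat_lit 884, nat_lit 0, nat_lit 0, nat_lit 2058, nat_lit 264, nat_lit 0, nat_lit 0, nat_lit 0, nat_lit 90, nat_lit 1000000, nat_lit 0, nat_lit 0, [(nat_lit 0, [(nat_lit 6, nat_lit 1000)])],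
 ⟨p002_k14, nat_lit 0, nat_lit 0, nat_lit 340, nat_lit 0, nat_lit 106264, [nat_lit 2618000001, nat_lit 1352800000, nat_lit 26400000], [], [nat_lit 13633298541, nat_lit 13725097344, nat_lit 13167351252, nat_lit 13238132084], nat_lit 1271250, nat_lit 1271250, nat_lit 0, nat_lit 21650, nat_lit 0, nat_lit 0, [nat_lit 1412500, nat_lit 1271250, nat_lit 1271250], [nat_lit 25, nat_lit 40, nat_lit 20, nat_lit 80, nat_lit 17, nat_lit 272, nat_lit 60, nat_lit 8]⟩, ⟨p002_k49, nat_lit 0, nat_lit 0, nat_lit 0, nat_lit 0, nat_lit 106854, [nat_lit 5280000000, nat_lit 5808000000, nat_lit 6864000000], [], [nat_lit 8211260641, nat_lit 8242407497, nat_lit 7826423751, nat_lit 7851881334], nat_lit 1271250, nat_lit 1271250, nat_lit 0, nat_lit 21650, nat_lit 0, nat_lit 0, [nat_lit 1412500, nat_lit 1271250, nat_lit 1271250], [nat_lit 163, nat_lit 40, nat_lit 20, nat_lit 40]⟩,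
 ⟨nat_lit 6708, nat_lit 6727, ⟨.ofNat (nat_lit 87523), .ofNat (nat_lit 96159), .ofNat (nat_lit 88595), .ofNat (nat_lit 97231), .ofNat (nat_lit 88516), .ofNat (nat_lit 97131), .ofNat (nat_lit 89587), .ofNat (nat_lit 98203)⟩, ⟨.ofNat (nat_lit 0), .ofNat (nat_lit 0), .ofNat (nat_lit 0), .ofNat (nat_lit 0), .ofNat (nat_lit 0), .ofNat (nat_lit 0), .ofNat (nat_lit 0), .ofNat (nat_lit 0)⟩⟩, [⟨nat_lit 0, nat_lit 100, nat_lit 100, nat_lit 19, nat_lit 1201566980⟩]⟩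
noncomputable def p002_l172 : Lf2 := ⟨nat_lit 0, nat_lit 4, [nat_lit 38, nat_lit 5, nat_lit 5, nat_lit 20], true, nat_lit 0, nat_lit 0, nat_lit 0, nat_lit 0, ⟨nat_lit 0, nat_lit 0, nat_lit 1000, nat_lit 5, nat_lit 37, nat_lit 0, nat_lit 0, nat_lit 0, nat_lit 0, nat_lit 215, nat_lit 13067, nat_lit 243, nat_lit 66427100, nat_lit 0, nat_lit 0, nat_lit 245859, false, false⟩,
 nat_lit 0, nat_lit 9927, nat_lit 0, nat_lit 0, nat_lit 4722, nat_lit 0, nat_lit 1399, nat_lit 0, nat_lit 0, nat_lit 0, nat_lit 0, nat_lit 0, nat_lit 0, nat_lit 0, nat_lit 53, nat_lit 381800, nat_lit 0, nat_lit 0, [(nat_lit 0, [(nat_lit 3, nat_lit 91), (nat_lit 5, nat_lit 909)])],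
 ⟨p002_k45, nat_lit 0, nat_lit 0, nat_lit 0, nat_lit 0, nat_lit 67640, [nat_lit 2806476401, nat_lit 1432796401, nat_lit 701394801, nat_lit 15630000], [], [nat_lit 12811663010, nat_lit 12870778643, nat_lit 12508062368, nat_lit 12559961215], nat_lit 1271250, nat_lit 1271250, nat_lit 0, nat_lit 21650, nat_lit 0, nat_lit 0, [nat_lit 631250, nat_lit 1431250, nat_lit 1271250, nat_lit 1271250], [nat_lit 130, nat_lit 40, nat_lit 20, nat_lit 40]⟩, C1.Rw.none,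
 ⟨nat_lit 6708, nat_lit 6727, ⟨.ofNat (nat_lit 87523), .ofNat (nat_lit 96159), .ofNat (nat_lit 88595), .ofNat (nat_lit 97231), .ofNat (nat_lit 88516), .ofNat (nat_lit 97131), .ofNat (nat_lit 89587), .ofNat (nat_lit 98203)⟩, ⟨.ofNat (nat_lit 0), .ofNat (nat_lit 0), .ofNat (nat_lit 0), .ofNat (nat_lit 0), .ofNat (nat_lit 0), .ofNat (nat_lit 0), .ofNat (nat_lit 0), .ofNat (nat_lit 0)⟩⟩, [⟨nat_lit 0, nat_lit 100, nat_lit 100, nat_lit 19, nat_lit 493171184⟩]⟩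
noncomputable def p002_l173 : Lf2 := ⟨nat_lit 0, nat_lit 4, [nat_lit 38, nat_lit 5, nat_lit 5, nat_lit 20], true, nat_lit 0, nat_lit 0, nat_lit 0, nat_lit 0, ⟨nat_lit 0, nat_lit 0, nat_lit 1000, nat_lit 5, nat_lit 37, nat_lit 0, nat_lit 0, nat_lit 0, nat_lit 0, nat_lit 215, nat_lit 13067, nat_lit 243, nat_lit 66427100, nat_lit 0, nat_lit 0, nat_lit 245859, false, false⟩,
 nat_lit 0, nat_lit 100000, nat_lit 0, nat_lit 0, nat_lit 47574, nat_lit 0, nat_lit 10390, nat_lit 2404, nat_lit 0, nat_lit 0, nat_lit 0, nat_lit 0, nat_lit 0, nat_lit 0, nat_lit 0, nat_lit 1000000, nat_lit 0, nat_lit 0, [(nat_lit 0, [(nat_lit 6, nat_lit 1000)])],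
 ⟨p002_k50, nat_lit 0, nat_lit 0, nat_lit 315, nat_lit 0, nat_lit 67640, [nat_lit 48898000001, nat_lit 64879599999], [], [nat_lit 123833326676, nat_lit 123963765674, nat_lit 121075236035, nat_lit 121153507504], nat_lit 1271250, nat_lit 1271250, nat_lit 0, nat_lit 21650, nat_lit 0, nat_lit 0, [nat_lit 1412500, nat_lit 1271250], [nat_lit 51, nat_lit 40, nat_lit 20, nat_lit 80, nat_lit 1, nat_lit 272, nat_lit 60, nat_lit 8]⟩, C1.Rw.none,
 ⟨nat_lit 6708, nat_lit 6727, ⟨.ofNat (nat_lit 87523), .ofNat (nat_lit 96159), .ofNat (nat_lit 88595), .ofNat (nat_lit 97231), .ofNat (nat_lit 88516), .ofNat (nat_lit 97131), .ofNat (nat_lit 89587), .ofNat (nat_lit 98203)⟩, ⟨.ofNat (nat_lit 0), .ofNat (nat_lit 0), .ofNat (nat_lit 0), .ofNat (nat_lit 0), .ofNat (nat_lit 0), .ofNat (nat_lit 0), .ofNat (nat_lit 0), .ofNat (nat_lit 0)⟩⟩, [⟨nat_lit 0, nat_lit 100, nat_lit 100, nat_lit 19, nat_lit 10000000000⟩,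 ⟨nat_lit 0, nat_lit 100, nat_lit 100, nat_lit 19, nat_lit 10000000000⟩, ⟨nat_lit 0, nat_lit 100, nat_lit 100, nat_lit 18, nat_lit 10000000000⟩, ⟨nat_lit 13, nat_lit 100, nat_lit 1, nat_lit 100, nat_lit 18593440⟩]⟩
noncomputable def p002_l174 : Lf2 := ⟨nat_lit 0, nat_lit 3, [nat_lit 45, nat_lit 5, nat_lit 5, nat_lit 20], false, nat_lit 0, nat_lit 0, nat_lit 0, nat_lit 0, ⟨nat_lit 1000, nat_lit 0, nat_lit 0, nat_lit 0, nat_lit 0, nat_lit 0, nat_lit 0, nat_lit 0, nat_lit 0, nat_lit 0, nat_lit 0, nat_lit 0, nat_lit 0, nat_lit 0, nat_lit 0, nat_lit 0, false, false⟩,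
 nat_lit 22784, nat_lit 0, nat_lit 0, nat_lit 0, nat_lit 10839, nat_lit 0, nat_lit 5114, nat_lit 0, nat_lit 0, nat_lit 0, nat_lit 0, nat_lit 580, nat_lit 0, nat_lit 0, nat_lit 0, nat_lit 0, nat_lit 0, nat_lit 0, [],
 ⟨p002_k14, nat_lit 0, nat_lit 0, nat_lit 342, nat_lit 0, nat_lit 110263, [nat_lit 6250000000, nat_lit 7968000001, nat_lit 9842000000], [], [nat_lit 22523007831, nat_lit 22667522436, nat_lit 21576309205, nat_lit 21629800184], nat_lit 1271250, nat_lit 1271250, nat_lit 0, nat_lit 21650, nat_lit 0, nat_lit 0, [nat_lit 1412500, nat_lit 1271250, nat_lit 1271250], [nat_lit 25, nat_lit 40, nat_lit 20, nat_lit 80, nat_lit 17, nat_lit 272, nat_lit 60, nat_lit 8]⟩, ⟨p002_k51, nat_lit 0, nat_lit 0, nat_lit 0, nat_lit 0, nat_lit 110263, [nat_lit 6250000000, nat_lit 7089500000, nat_lit 8885500000], [], [nat_lit 5264265400, nat_lit 5306436000, nat_lit 5302746160, nat_lit 5339817600], nat_lit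 1271250, nat_lit 1271250, nat_lit 0, nat_lit 21650, nat_lit 0, nat_lit 0, [nat_lit 1412500, nat_lit 1271250, nat_lit 1271250], [nat_lit 163, nat_lit 40, nat_lit 20, nat_lit 40]⟩,
 zbF0, [⟨nat_lit 0, nat_lit 100, nat_lit 100, nat_lit 19, nat_lit 2164793343⟩]⟩
noncomputable def p002_l175 : Lf2 := ⟨nat_lit 0, nat_lit 3, [nat_lit 45, nat_lit 5, nat_lit 5, nat_lit 20], true, nat_lit 0, nat_lit 0, nat_lit 0, nat_lit 0, ⟨nat_lit 0, nat_lit 0, nat_lit 1000, nat_lit 5, nat_lit 38, nat_lit 0, nat_lit 0, nat_lit 0, nat_lit 0, nat_lit 215, nat_lit 13067, nat_lit 243, nat_lit 66413916, nat_lit 0, nat_lit 0, nat_lit 250541, false, false⟩,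
 nat_lit 0, nat_lit 9717, nat_lit 0, nat_lit 0, nat_lit 4622, nat_lit 0, nat_lit 1747, nat_lit 0, nat_lit 0, nat_lit 0, nat_lit 0, nat_lit 0, nat_lit 0, nat_lit 2702478418452, nat_lit 46, nat_lit 262900, nat_lit 0, nat_lit 0, [(nat_lit 0, [(nat_lit 4, nat_lit 914), (nat_lit 5, nat_lit 86)])],
 ⟨p002_k15, nat_lit 0, nat_lit 0, nat_lit 0, nat_lit 0, nat_lit 110263, [nat_lit 2455087467, nat_lit 1190626134, nat_lit 642144801, nat_lit 17003200], [], [nat_lit 12623791880, nat_lit 12709604328, nat_lit 12238606442, nat_lit 12287538547], nat_lit 1271250, nat_lit 1271250, nat_lit 0, nat_lit 21650, nat_lit 0, nat_lit 0, [nat_lit 780000, nat_lit 1435000, nat_lit 1271250, nat_lit 1271250], [nat_lit 140, nat_lit 40, nat_lit 20, nat_lit 80]⟩, C1.Rw.none,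
 ⟨nat_lit 6708, nat_lit 6727, ⟨.ofNat (nat_lit 88595), .ofNat (nat_lit 97231), .ofNat (nat_lit 89667), .ofNat (nat_lit 98303), .ofNat (nat_lit 89587), .ofNat (nat_lit 98203), .ofNat (nat_lit 90659), .ofNat (nat_lit 99275)⟩, ⟨.ofNat (nat_lit 0), .ofNat (nat_lit 0), .ofNat (nat_lit 0), .ofNat (nat_lit 0), .ofNat (nat_lit 0), .ofNat (nat_lit 0), .ofNat (nat_lit 0), .ofNat (nat_lit 0)⟩⟩, [⟨nat_lit 0, nat_lit 100, nat_lit 100, nat_lit 20, nat_lit 635621844⟩]⟩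
noncomputable def p002_l176 : Lf2 := ⟨nat_lit 0, nat_lit 3, [nat_lit 45, nat_lit 5, nat_lit 5, nat_lit 20], true, nat_lit 0, nat_lit 0, nat_lit 0, nat_lit 0, ⟨nat_lit 0, nat_lit 0, nat_lit 1000, nat_lit 5, nat_lit 38, nat_lit 0, nat_lit 0, nat_lit 0, nat_lit 0, nat_lit 215, nat_lit 13067, nat_lit 243, nat_lit 66413916, nat_lit 0, nat_lit 0, nat_lit 250541, false, false⟩,
 nat_lit 0, nat_lit 100000, nat_lit 0, nat_lit 100000, nat_lit 47574, nat_lit 0, nat_lit 42833, nat_lit 1884, nat_lit 0, nat_lit 0, nat_lit 0, nat_lit 0, nat_lit 0, nat_lit 400000000000000, nat_lit 0, nat_lit 1000000, nat_lit 0, nat_lit 0, [(nat_lit 0, [(nat_lit 6, nat_lit 1000)])],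
 ⟨p002_k14, nat_lit 0, nat_lit 0, nat_lit 342, nat_lit 0, nat_lit 110263, [nat_lit 38498000001, nat_lit 44408800000, nat_lit 50258400000], [], [nat_lit 42696617360, nat_lit 42954458023, nat_lit 39954143404, nat_lit 40127871796], nat_lit 1271250, nat_lit 1271250, nat_lit 0, nat_lit 21650, nat_lit 0, nat_lit 0, [nat_lit 1412500, nat_lit 1271250, nat_lit 1271250], [nat_lit 25, nat_lit 40, nat_lit 20, nat_lit 80, nat_lit 17, nat_lit 272, nat_lit 60, nat_lit 8]⟩, C1.Rw.none,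
 ⟨nat_lit 6708, nat_lit 6727, ⟨.ofNat (nat_lit 88595), .ofNat (nat_lit 97231), .ofNat (nat_lit 89667), .ofNat (nat_lit 98303), .ofNat (nat_lit 89587), .ofNat (nat_lit 98203), .ofNat (nat_lit 90659), .ofNat (nat_lit 99275)⟩, ⟨.ofNat (nat_lit 0), .ofNat (nat_lit 0), .ofNat (nat_lit 0), .ofNat (nat_lit 0), .ofNat (nat_lit 0), .ofNat (nat_lit 0), .ofNat (nat_lit 0), .ofNat (nat_lit 0)⟩⟩, [⟨nat_lit 0, nat_lit 100, nat_lit 100, nat_lit 19, nat_lit 10000000000⟩, ⟨nat_lit 0, nat_lit 100, nat_lit 100, nat_lit 20, nat_lit 10000000000⟩, ⟨nat_lit 0, nat_lit 100, nat_lit 100, nat_lit 19, nat_lit 10000000000⟩]⟩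
noncomputable def p002_l177 : Lf2 := ⟨nat_lit 0, nat_lit 3, [nat_lit 45, nat_lit 5, nat_lit 5, nat_lit 20], false, nat_lit 0, nat_lit 0, nat_lit 0, nat_lit 0, ⟨nat_lit 0, nat_lit 0, nat_lit 1000, nat_lit 5, nat_lit 38, nat_lit 0, nat_lit 0, nat_lit 0, nat_lit 0, nat_lit 215, nat_lit 13067, nat_lit 243, nat_lit 66413916, nat_lit 0, nat_lit 0, nat_lit 250541, false, false⟩,
 nat_lit 11030, nat_lit 0, nat_lit 0, nat_lit 0, nat_lit 5247, nat_lit 5247, nat_lit 882, nat_lit 0, nat_lit 0, nat_lit 2331, nat_lit 266, nat_lit 0, nat_lit 0, nat_lit 6101226340449, nat_lit 90, nat_lit 1000000, nat_lit 0, nat_lit 0, [(nat_lit 0, [(nat_lit 6, nat_lit 1000)])],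
 ⟨p002_k14, nat_lit 0, nat_lit 0, nat_lit 342, nat_lit 0, nat_lit 110263, [nat_lit 2618000001, nat_lit 1352800000, nat_lit 26400000], [], [nat_lit 13618968005, nat_lit 13710681828, nat_lit 13182063513, nat_lit 13226401652], nat_lit 1271250, nat_lit 1271250, nat_lit 0, nat_lit 21650, nat_lit 0, nat_lit 0, [nat_lit 1412500, nat_lit 1271250, nat_lit 1271250], [nat_lit 25, nat_lit 40, nat_lit 20, nat_lit 80, nat_lit 17, nat_lit 272, nat_lit 60, nat_lit 8]⟩, ⟨p002_k51, nat_lit 0, nat_lit 0, nat_lit 0, nat_lit 0, nat_lit 110263, [nat_lit 5320000000, nat_lit 5852000000, nat_lit 6916000000], [], [nat_lit 7881483622, nat_lit 7912743673, nat_lit 7518679408, nat_lit 7532736121], nat_lit 1271250, nat_lit 1271250, nat_lit 0, nat_lit 21650, nat_lit 0, nat_lit 0, [nat_lit 1412500, nat_lit 1271250, nat_lit 1271250], [nat_lit 163, nat_lit 40, nat_lit 20, nat_lit 40]⟩,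
 ⟨nat_lit 6708, nat_lit 6727, ⟨.ofNat (nat_lit 88595), .ofNat (nat_lit 97231), .ofNat (nat_lit 89667), .ofNat (nat_lit 98303), .ofNat (nat_lit 89587), .ofNat (nat_lit 98203), .ofNat (nat_lit 90659), .ofNat (nat_lit 99275)⟩, ⟨.ofNat (nat_lit 0), .ofNat (nat_lit 0), .ofNat (nat_lit 0), .ofNat (nat_lit 0), .ofNat (nat_lit 0), .ofNat (nat_lit 0), .ofNat (nat_lit 0), .ofNat (nat_lit 0)⟩⟩, [⟨nat_lit 0, nat_lit 100, nat_lit 100, nat_lit 20, nat_lit 1202560877⟩]⟩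
noncomputable def p002_l178 : Lf2 := ⟨nat_lit 0, nat_lit 4, [nat_lit 38, nat_lit 5, nat_lit 5, nat_lit 20], true, nat_lit 0, nat_lit 0, nat_lit 0, nat_lit 0, ⟨nat_lit 0, nat_lit 0, nat_lit 1000, nat_lit 5, nat_lit 38, nat_lit 0, nat_lit 0, nat_lit 0, nat_lit 0, nat_lit 215, nat_lit 13067, nat_lit 243, nat_lit 66413916, nat_lit 0, nat_lit 0, nat_lit 250541, false, false⟩,
 nat_lit 0, nat_lit 9987, nat_lit 0, nat_lit 0, nat_lit 4751, nat_lit 0, nat_lit 1443, nat_lit 0, nat_lit 0, nat_lit 0, nat_lit 0, nat_lit 0, nat_lit 0, nat_lit 2100705292193, nat_lit 53, nat_lit 381800, nat_lit 0, nat_lit 0, [(nat_lit 0, [(nat_lit 3, nat_lit 91), (nat_lit 5, nat_lit 909)])],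
 ⟨p002_k45, nat_lit 0, nat_lit 0, nat_lit 0, nat_lit 0, nat_lit 71756, [nat_lit 2806476401, nat_lit 1432796401, nat_lit 701394801, nat_lit 15630000], [], [nat_lit 12829196232, nat_lit 12916226724, nat_lit 12433432744, nat_lit 12484451305], nat_lit 1271250, nat_lit 1271250, nat_lit 0, nat_lit 21650, nat_lit 0, nat_lit 0, [nat_lit 631250, nat_lit 1431250, nat_lit 1271250, nat_lit 1271250], [nat_lit 130, nat_lit 40, nat_lit 20, nat_lit 40]⟩, C1.Rw.none,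
 ⟨nat_lit 6708, nat_lit 6727, ⟨.ofNat (nat_lit 88595), .ofNat (nat_lit 97231), .ofNat (nat_lit 89667), .ofNat (nat_lit 98303), .ofNat (nat_lit 89587), .ofNat (nat_lit 98203), .ofNat (nat_lit 90659), .ofNat (nat_lit 99275)⟩, ⟨.ofNat (nat_lit 0), .ofNat (nat_lit 0), .ofNat (nat_lit 0), .ofNat (nat_lit 0), .ofNat (nat_lit 0), .ofNat (nat_lit 0), .ofNat (nat_lit 0), .ofNat (nat_lit 0)⟩⟩, [⟨nat_lit 0, nat_lit 100, nat_lit 100, nat_lit 20, nat_lit 651435119⟩]⟩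
noncomputable def p002_l179 : Lf2 := ⟨nat_lit 0, nat_lit 4, [nat_lit 38, nat_lit 5, nat_lit 5, nat_lit 20], true, nat_lit 0, nat_lit 0, nat_lit 0, nat_lit 0, ⟨nat_lit 0, nat_lit 0, nat_lit 1000, nat_lit 5, nat_lit 38, nat_lit 0, nat_lit 0, nat_lit 0, nat_lit 0, nat_lit 215, nat_lit 13067, nat_lit 243, nat_lit 66413916, nat_lit 0, nat_lit 0, nat_lit 250541, false, false⟩,
 nat_lit 0, nat_lit 100000, nat_lit 0, nat_lit 0, nat_lit 47574, nat_lit 0, nat_lit 10819, nat_lit 2404, nat_lit 0, nat_lit 0, nat_lit 0, nat_lit 0, nat_lit 0, nat_lit 400000000000000, nat_lit 0, nat_lit 1000000, nat_lit 0, nat_lit 0, [(nat_lit 0, [(nat_lit 6, nat_lit 1000)])],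
 ⟨p002_k50, nat_lit 0, nat_lit 0, nat_lit 316, nat_lit 0, nat_lit 71756, [nat_lit 48898000001, nat_lit 64879599999], [], [nat_lit 122535601676, nat_lit 122666040674, nat_lit 121069631097, nat_lit 119855782504], nat_lit 1271250, nat_lit 1271250, nat_lit 0, nat_lit 21650, nat_lit 0, nat_lit 0, [nat_lit 1412500, nat_lit 1271250], [nat_lit 51, nat_lit 40, nat_lit 20, nat_lit 80, nat_lit 1, nat_lit 272, nat_lit 60, nat_lit 8]⟩, C1.Rw.none,
 ⟨nat_lit 6708, nat_lit 6727, ⟨.ofNat (nat_lit 88595), .ofNat (nat_lit 97231), .ofNat (nat_lit 89667), .ofNat (nat_lit 98303), .ofNat (nat_lit 89587), .ofNat (nat_lit 98203), .ofNat (nat_lit 90659), .ofNat (nat_lit 99275)⟩, ⟨.ofNat (nat_lit 0), .ofNat (nat_lit 0), .ofNat (nat_lit 0), .ofNat (nat_lit 0), .ofNat (nat_lit 0), .ofNat (nat_lit 0), .ofNat (nat_lit 0), .ofNat (nat_lit 0)⟩⟩, [⟨nat_lit 0, nat_lit 100, nat_lit 100, nat_lit 19, nat_lit 10000000000⟩,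 ⟨nat_lit 0, nat_lit 100, nat_lit 100, nat_lit 20, nat_lit 10000000000⟩, ⟨nat_lit 0, nat_lit 100, nat_lit 100, nat_lit 19, nat_lit 10000000000⟩, ⟨nat_lit 13, nat_lit 100, nat_lit 1, nat_lit 100, nat_lit 11794213⟩]⟩
noncomputable def p002_l180 : Lf2 := ⟨nat_lit 0, nat_lit 4, [nat_lit 38, nat_lit 5, nat_lit 5, nat_lit 20], true, nat_lit 0, nat_lit 0, nat_lit 0, nat_lit 0, ⟨nat_lit 0, nat_lit 0, nat_lit 1000, nat_lit 5, nat_lit 41, nat_lit 0, nat_lit 0, nat_lit 0, nat_lit 0, nat_lit 215, nat_lit 16017, nat_lit 246, nat_lit 66309713, nat_lit 0, nat_lit 0, nat_lit 286743, false, false⟩,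
 nat_lit 0, nat_lit 9987, nat_lit 0, nat_lit 0, nat_lit 4751, nat_lit 0, nat_lit 1443, nat_lit 0, nat_lit 0, nat_lit 0, nat_lit 0, nat_lit 0, nat_lit 0, nat_lit 0, nat_lit 53, nat_lit 381800, nat_lit 0, nat_lit 0, [(nat_lit 0, [(nat_lit 3, nat_lit 91), (nat_lit 5, nat_lit 909)])],
 ⟨p002_k45, nat_lit 0, nat_lit 0, nat_lit 0, nat_lit 0, nat_lit 111476, [nat_lit 2806476401, nat_lit 1432796401, nat_lit 701394801, nat_lit 15630000], [], [nat_lit 12433432744, nat_lit 12484451305, nat_lit 12235377121, nat_lit 12286355377], nat_lit 1271250, nat_lit 1271250, nat_lit 21650, nat_lit 43600, nat_lit 0, nat_lit 0, [nat_lit 631250, nat_lit 1431250, nat_lit 1271250, nat_lit 1271250], [nat_lit 130, nat_lit 40, nat_lit 20, nat_lit 40]⟩, C1.Rw.none,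
 ⟨nat_lit 6708, nat_lit 6727, ⟨.ofNat (nat_lit 96159), .ofNat (nat_lit 104794), .ofNat (nat_lit 98303), .ofNat (nat_lit 106938), .ofNat (nat_lit 97131), .ofNat (nat_lit 105747), .ofNat (nat_lit 99275), .ofNat (nat_lit 107890)⟩, ⟨.ofNat (nat_lit 0), .ofNat (nat_lit 0), .ofNat (nat_lit 0), .ofNat (nat_lit 0), .ofNat (nat_lit 0), .ofNat (nat_lit 0), .ofNat (nat_lit 0), .ofNat (nat_lit 0)⟩⟩, []⟩
noncomputable def p002_l181 : Lf2 := ⟨nat_lit 0, nat_lit 4, [nat_lit 38, nat_lit 5, nat_lit 5, nat_lit 20], true, nat_lit 0, nat_lit 0, nat_lit 0, nat_lit 0, ⟨nat_lit 0, nat_lit 0, nat_lit 1000, nat_lit 5, nat_lit 41, nat_lit 0, nat_lit 0, nat_lit 0, nat_lit 0, nat_lit 215, nat_lit 16017, nat_lit 246, nat_lit 66309713, nat_lit 0, nat_lit 0, nat_lit 286743, false, false⟩,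
 nat_lit 0, nat_lit 100000, nat_lit 0, nat_lit 100000, nat_lit 47574, nat_lit 0, nat_lit 38694, nat_lit 1862, nat_lit 0, nat_lit 0, nat_lit 0, nat_lit 0, nat_lit 0, nat_lit 400000000000000, nat_lit 0, nat_lit 1000000, nat_lit 0, nat_lit 0, [(nat_lit 0, [(nat_lit 6, nat_lit 1000)])],
 ⟨p002_k4, nat_lit 0, nat_lit 0, nat_lit 336, nat_lit 0, nat_lit 111476, [nat_lit 38058000000, nat_lit 43880800000, nat_lit 49642400000], [], [nat_lit 42030528701, nat_lit 42288605599, nat_lit 39296838923, nat_lit 39470575363], nat_lit 1271250, nat_lit 1271250, nat_lit 21650, nat_lit 43600, nat_lit 0, nat_lit 0, [nat_lit 1412500, nat_lit 1271250, nat_lit 1271250], [nat_lit 25, nat_lit 40, nat_lit 20, nat_lit 80, nat_lit 17, nat_lit 272, nat_lit 60, nat_lit 8]⟩, C1.Rw.none,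
 ⟨nat_lit 6708, nat_lit 6727, ⟨.ofNat (nat_lit 96159), .ofNat (nat_lit 104794), .ofNat (nat_lit 98303), .ofNat (nat_lit 106938), .ofNat (nat_lit 97131), .ofNat (nat_lit 105747), .ofNat (nat_lit 99275), .ofNat (nat_lit 107890)⟩, ⟨.ofNat (nat_lit 0), .ofNat (nat_lit 0), .ofNat (nat_lit 0), .ofNat (nat_lit 0), .ofNat (nat_lit 0), .ofNat (nat_lit 0), .ofNat (nat_lit 0), .ofNat (nat_lit 0)⟩⟩, []⟩
noncomputable def p002_l182 : Lf2 := ⟨nat_lit 0, nat_lit 5, [nat_lit 4, nat_lit 5, nat_lit 5, nat_lit 20], true, nat_lit 0, nat_lit 0, nat_lit 0, nat_lit 0, ⟨nat_lit 0, nat_lit 0, nat_lit 1000, nat_lit 5, nat_lit 37, nat_lit 0, nat_lit 0, nat_lit 0, nat_lit 0, nat_lit 215, nat_lit 13067, nat_lit 243, nat_lit 66426565, nat_lit 0, nat_lit 0, nat_lit 246049, false, false⟩,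
 nat_lit 0, nat_lit 9602, nat_lit 0, nat_lit 0, nat_lit 4543, nat_lit 0, nat_lit 1107, nat_lit 0, nat_lit 0, nat_lit 0, nat_lit 0, nat_lit 0, nat_lit 0, nat_lit 3148813329184, nat_lit 53, nat_lit 383200, nat_lit 0, nat_lit 0, [(nat_lit 0, [(nat_lit 3, nat_lit 84), (nat_lit 5, nat_lit 916)])],
 ⟨p002_k11, nat_lit 0, nat_lit 0, nat_lit 0, nat_lit 0, nat_lit 34913, [nat_lit 2718460267, nat_lit 1433695823, nat_lit 700395201, nat_lit 13320000], [], [nat_lit 13329870800, nat_lit 13446223642, nat_lit 13065449435, nat_lit 13156301739], nat_lit 1271250, nat_lit 1271250, nat_lit 0, nat_lit 21650, nat_lit 0, nat_lit 0, [nat_lit 631250, nat_lit 1431250, nat_lit 1271250, nat_lit 1271250], [nat_lit 130, nat_lit 40, nat_lit 20, nat_lit 40]⟩, C1.Rw.none,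
 ⟨nat_lit 6708, nat_lit 6746, ⟨.ofNat (nat_lit 86528), .ofNat (nat_lit 95184), .ofNat (nat_lit 88673), .ofNat (nat_lit 97329), .ofNat (nat_lit 88516), .ofNat (nat_lit 97131), .ofNat (nat_lit 90659), .ofNat (nat_lit 99275)⟩, ⟨.ofNat (nat_lit 0), .ofNat (nat_lit 0), .ofNat (nat_lit 0), .ofNat (nat_lit 0), .ofNat (nat_lit 0), .ofNat (nat_lit 0), .ofNat (nat_lit 0), .ofNat (nat_lit 0)⟩⟩, [⟨nat_lit 0, nat_lit 100, nat_lit 100, nat_lit 20, nat_lit 476501284⟩]⟩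
noncomputable def p002_l183 : Lf2 := ⟨nat_lit 0, nat_lit 5, [nat_lit 4, nat_lit 5, nat_lit 5, nat_lit 20], true, nat_lit 0, nat_lit 0, nat_lit 0, nat_lit 0, ⟨nat_lit 0, nat_lit 0, nat_lit 1000, nat_lit 5, nat_lit 41, nat_lit 0, nat_lit 0, nat_lit 0, nat_lit 0, nat_lit 215, nat_lit 15000, nat_lit 245, nat_lit 66316156, nat_lit 0, nat_lit 0, nat_lit 284542, false, false⟩,
 nat_lit 0, nat_lit 5732, nat_lit 0, nat_lit 3125, nat_lit 2712, nat_lit 0, nat_lit 948, nat_lit 0, nat_lit 0, nat_lit 0, nat_lit 0, nat_lit 0, nat_lit 0, nat_lit 219249203590, nat_lit 54, nat_lit 400000, nat_lit 0, nat_lit 0, [(nat_lit 0, [(nat_lit 5, nat_lit 1000)])],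
 ⟨p002_k11, nat_lit 0, nat_lit 0, nat_lit 0, nat_lit 0, nat_lit 34913, [nat_lit 1672266667, nat_lit 1464488889, nat_lit 712400000, nat_lit 13600000], [], [nat_lit 11830043073, nat_lit 11923526685, nat_lit 11706398328, nat_lit 11802280871], nat_lit 1271250, nat_lit 1271250, nat_lit 21650, nat_lit 43600, nat_lit 0, nat_lit 0, [nat_lit 631250, nat_lit 1431250, nat_lit 1271250, nat_lit 1271250], [nat_lit 130, nat_lit 40, nat_lit 20, nat_lit 40]⟩, C1.Rw.none,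
 ⟨nat_lit 6708, nat_lit 6746, ⟨.ofNat (nat_lit 95184), .ofNat (nat_lit 103839), .ofNat (nat_lit 97329), .ofNat (nat_lit 105984), .ofNat (nat_lit 97131), .ofNat (nat_lit 105747), .ofNat (nat_lit 99275), .ofNat (nat_lit 107890)⟩, ⟨.ofNat (nat_lit 0), .ofNat (nat_lit 0), .ofNat (nat_lit 0), .ofNat (nat_lit 0), .ofNat (nat_lit 0), .ofNat (nat_lit 0), .ofNat (nat_lit 0), .ofNat (nat_lit 0)⟩⟩, []⟩
noncomputable def p002_l184 : Lf2 := ⟨nat_lit 0, nat_lit 5, [nat_lit 4, nat_lit 5, nat_lit 5, nat_lit 20], true, nat_lit 0, nat_lit 0, nat_lit 0, nat_lit 0, ⟨nat_lit 0, nat_lit 0, nat_lit 1000, nat_lit 5, nat_lit 39, nat_lit 0, nat_lit 0, nat_lit 0, nat_lit 0, nat_lit 215, nat_lit 14017, nat_lit 244, nat_lit 66372542, nat_lit 0, nat_lit 0, nat_lit 265074, false, false⟩,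
 nat_lit 0, nat_lit 100000, nat_lit 0, nat_lit 100000, nat_lit 47322, nat_lit 0, nat_lit 11706, nat_lit 2008, nat_lit 0, nat_lit 0, nat_lit 0, nat_lit 0, nat_lit 0, nat_lit 400000000000000, nat_lit 0, nat_lit 1000000, nat_lit 0, nat_lit 0, [(nat_lit 0, [(nat_lit 6, nat_lit 1000)])],
 ⟨p002_k6, nat_lit 0, nat_lit 0, nat_lit 309, nat_lit 0, nat_lit 34913, [nat_lit 40978000000, nat_lit 47384800000, nat_lit 53730400000], [], [nat_lit 79608372589, nat_lit 79947689540, nat_lit 74048610269, nat_lit 74338902649], nat_lit 1271250, nat_lit 1271250, nat_lit 0, nat_lit 43600, nat_lit 0, nat_lit 0, [nat_lit 1412500, nat_lit 1271250, nat_lit 1271250], [nat_lit 25, nat_lit 40, nat_lit 20, nat_lit 80, nat_lit 17, nat_lit 272, nat_lit 60, nat_lit 8]⟩, C1.Rw.none,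
 ⟨nat_lit 6708, nat_lit 6746, ⟨.ofNat (nat_lit 86528), .ofNat (nat_lit 103839), .ofNat (nat_lit 88673), .ofNat (nat_lit 105984), .ofNat (nat_lit 88516), .ofNat (nat_lit 105747), .ofNat (nat_lit 90659), .ofNat (nat_lit 107890)⟩, ⟨.ofNat (nat_lit 0), .ofNat (nat_lit 0), .ofNat (nat_lit 0), .ofNat (nat_lit 0), .ofNat (nat_lit 0), .ofNat (nat_lit 0), .ofNat (nat_lit 0), .ofNat (nat_lit 0)⟩⟩, [⟨nat_lit 0, nat_lit 100, nat_lit 100, nat_lit 19, nat_lit 10000000000⟩, ⟨nat_lit 0, nat_lit 100, nat_lit 100, nat_lit 20, nat_lit 10000000000⟩, ⟨nat_lit 0, nat_lit 100, nat_lit 100, nat_lit 18, nat_lit 1780823974⟩]⟩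
noncomputable def b_NL_500_500_0_9 : St := ⟨false, nat_lit 1, nat_lit 1, nat_lit 1, nat_lit 20, nat_lit 218, nat_lit 220, nat_lit 218, nat_lit 220, nat_lit 0, nat_lit 8, nat_lit 0, nat_lit 0, nat_lit 0, nat_lit 0, nat_lit 0, nat_lit 0, nat_lit 8, nat_lit 20, nat_lit 0, nat_lit 0, nat_lit 0, nat_lit 800⟩
theorem d_NL_500_500_0_9 (h : EB TB.env) : Dead b_NL_500_500_0_9 := chkB_sound0 h (T :=
(.spl (nat_lit 6) (nat_lit 16)
(.spl (nat_lit 0) (nat_lit 219)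
(.ord (.spl (nat_lit 2) (nat_lit 4)
(.spl (nat_lit 6) (nat_lit 12)
(.spl (nat_lit 7) (nat_lit 600)
(.spl (nat_lit 7) (nat_lit 300)
(.leaf p002_l154)
(.spl (nat_lit 7) (nat_lit 460)
(.spl (nat_lit 7) (nat_lit 380)
(.leaf p002_l155)
(.spl (nat_lit 7) (nat_lit 420)
(.leaf p002_l156)
(.spl (nat_lit 7) (nat_lit 440)
(.spl (nat_lit 8) (nat_lit 400)
(.leaf p002_l157)
(.leaf p002_l158))
(.leaf p002_l159))))
(.leaf p002_l160)))
(.leaf p002_l161))
(.spl (nat_lit 7) (nat_lit 600)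
(.leaf p002_l162)
(.leaf p002_l163)))
(.spl (nat_lit 6) (nat_lit 12)
(.spl (nat_lit 8) (nat_lit 400)
(.spl (nat_lit 7) (nat_lit 600)
(.leaf p002_l164)
(.leaf p002_l165))
(.leaf p002_l166))
(.spl (nat_lit 7) (nat_lit 600)
(.leaf p002_l167)
(.leaf p002_l168)))))
(.spl (nat_lit 2) (nat_lit 4)
(.spl (nat_lit 1) (nat_lit 219)
(.spl (nat_lit 6) (nat_lit 12)
(.spl (nat_lit 8) (nat_lit 400)
(.spl (nat_lit 7) (nat_lit 600)
(.leaf p002_l169)
(.leaf p002_l170))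
(.leaf p002_l171))
(.spl (nat_lit 7) (nat_lit 600)
(.leaf p002_l172)
(.leaf p002_l173)))
(.spl (nat_lit 6) (nat_lit 12)
(.spl (nat_lit 8) (nat_lit 400)
(.spl (nat_lit 8) (nat_lit 200)
(.leaf p002_l174)
(.spl (nat_lit 7) (nat_lit 600)
(.leaf p002_l175)
(.leaf p002_l176)))
(.leaf p002_l177))
(.spl (nat_lit 7) (nat_lit 600)
(.leaf p002_l178)
(.leaf p002_l179))))
(.spl (nat_lit 7) (nat_lit 600)
(.leaf p002_l180)
(.leaf p002_l181))))
(.spl (nat_lit 7) (nat_lit 600)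
(.spl (nat_lit 2) (nat_lit 4)
(.leaf p002_l182)
(.leaf p002_l183))
(.leaf p002_l184)))) (by decide +kernel)
noncomputable def p002_l185 : Lf2 := ⟨nat_lit 0, nat_lit 5, [nat_lit 4, nat_lit 5, nat_lit 5, nat_lit 20], false, nat_lit 0, nat_lit 0, nat_lit 0, nat_lit 0, ⟨nat_lit 1000, nat_lit 0, nat_lit 0, nat_lit 0, nat_lit 0, nat_lit 0, nat_lit 0, nat_lit 0, nat_lit 0, nat_lit 0, nat_lit 0, nat_lit 0, nat_lit 0, nat_lit 0, nat_lit 0, nat_lit 0, false, false⟩,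
 nat_lit 27481, nat_lit 0, nat_lit 0, nat_lit 0, nat_lit 11777, nat_lit 3007, nat_lit 4434, nat_lit 0, nat_lit 142, nat_lit 24, nat_lit 0, nat_lit 0, nat_lit 0, nat_lit 0, nat_lit 0, nat_lit 0, nat_lit 0, nat_lit 0, [],
 ⟨p002_k52, nat_lit 0, nat_lit 0, nat_lit 0, nat_lit 0, nat_lit 195011, [nat_lit 6250000000, nat_lit 7968000001, nat_lit 11872000000], [], [nat_lit 13909820680, nat_lit 11935777058, nat_lit 27318562684, nat_lit 21364535456], nat_lit 1271250, nat_lit 1271250, nat_lit 780000, nat_lit 1762500, nat_lit 0, nat_lit 0, [nat_lit 1412500, nat_lit 1271250, nat_lit 1271250], [nat_lit 53, nat_lit 40, nat_lit 20, nat_lit 80]⟩, ⟨p002_k52, nat_lit 0, nat_lit 0, nat_lit 0, nat_lit 0, nat_lit 195011, [nat_lit 6250000000, nat_lit 7968000000, nat_lit 11872000000], [], [nat_lit 37082198880, nat_lit 36295429660, nat_lit 38933025844, nat_lit 39213785236], nat_lit 1271250, nat_lit 1271250, nat_lit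 780000, nat_lit 1762500, nat_lit 0, nat_lit 0, [nat_lit 1412500, nat_lit 1271250, nat_lit 1271250], [nat_lit 53, nat_lit 40, nat_lit 20, nat_lit 80]⟩,
 zbF0, []⟩
noncomputable def p002_l186 : Lf2 := ⟨nat_lit 0, nat_lit 2, [nat_lit 10, nat_lit 5, nat_lit 5, nat_lit 20], false, nat_lit 0, nat_lit 0, nat_lit 0, nat_lit 0, ⟨nat_lit 1000, nat_lit 0, nat_lit 0, nat_lit 0, nat_lit 0, nat_lit 0, nat_lit 0, nat_lit 0, nat_lit 0, nat_lit 0, nat_lit 0, nat_lit 0, nat_lit 0, nat_lit 0, nat_lit 0, nat_lit 0, false, false⟩,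
 nat_lit 3550, nat_lit 0, nat_lit 0, nat_lit 0, nat_lit 1521, nat_lit 1521, nat_lit 0, nat_lit 0, nat_lit 188, nat_lit 0, nat_lit 0, nat_lit 568, nat_lit 0, nat_lit 0, nat_lit 0, nat_lit 0, nat_lit 0, nat_lit 0, [],
 ⟨p002_k16, nat_lit 0, nat_lit 0, nat_lit 0, nat_lit 0, nat_lit 138901, [nat_lit 6250000000, nat_lit 7968000001, nat_lit 9842000000], [], [nat_lit 27298279737, nat_lit 27603392981, nat_lit 30236067533, nat_lit 30498911709], nat_lit 1271250, nat_lit 1271250, nat_lit 780000, nat_lit 1762500, nat_lit 0, nat_lit 0, [nat_lit 1412500, nat_lit 1271250, nat_lit 1271250], [nat_lit 25, nat_lit 40, nat_lit 20, nat_lit 80]⟩, ⟨p002_k16, nat_lit 0, nat_lit 0, nat_lit 0, nat_lit 0, nat_lit 138901, [nat_lit 6250000000, nat_lit 7968000000, nat_lit 9842000000], [], [nat_lit 6672207988, nat_lit 7216106860, nat_lit 11619279176, nat_lit 12082393778], nat_lit 1271250, nat_lit 1271250, nat_lit 780000,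 nat_lit 1762500, nat_lit 0, nat_lit 0, [nat_lit 1412500, nat_lit 1271250, nat_lit 1271250], [nat_lit 25, nat_lit 40, nat_lit 20, nat_lit 80]⟩,
 zbF0, []⟩
noncomputable def p002_l187 : Lf2 := ⟨nat_lit 0, nat_lit 2, [nat_lit 10, nat_lit 5, nat_lit 5, nat_lit 20], false, nat_lit 0, nat_lit 0, nat_lit 0, nat_lit 0, ⟨nat_lit 1000, nat_lit 0, nat_lit 0, nat_lit 0, nat_lit 0, nat_lit 0, nat_lit 0, nat_lit 0, nat_lit 0, nat_lit 0, nat_lit 0, nat_lit 0, nat_lit 0, nat_lit 0, nat_lit 0, nat_lit 0, false, false⟩,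
 nat_lit 41496, nat_lit 0, nat_lit 0, nat_lit 0, nat_lit 4393, nat_lit 17784, nat_lit 0, nat_lit 0, nat_lit 0, nat_lit 5540, nat_lit 0, nat_lit 139, nat_lit 0, nat_lit 0, nat_lit 0, nat_lit 0, nat_lit 0, nat_lit 0, [],
 ⟨p002_k16, nat_lit 0, nat_lit 0, nat_lit 0, nat_lit 0, nat_lit 138901, [nat_lit 6250000000, nat_lit 7968000001, nat_lit 9842000000], [], [nat_lit 39194241120, nat_lit 38032868103, nat_lit 35822414957, nat_lit 36119883965], nat_lit 1271250, nat_lit 1271250, nat_lit 780000, nat_lit 1762500, nat_lit 0, nat_lit 0, [nat_lit 1412500, nat_lit 1271250, nat_lit 1271250], [nat_lit 25, nat_lit 40, nat_lit 20, nat_lit 80]⟩, ⟨p002_k16, nat_lit 0, nat_lit 0, nat_lit 0, nat_lit 0, nat_lit 138901, [nat_lit 6250000000, nat_lit 7968000000, nat_lit 9842000000], [], [nat_lit 8676622560, nat_lit 7161907816, nat_lit 26920110528, nat_lit 22424635440], nat_lit 1271250, nat_lit 1271250, nat_lit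 780000, nat_lit 1762500, nat_lit 0, nat_lit 0, [nat_lit 1412500, nat_lit 1271250, nat_lit 1271250], [nat_lit 25, nat_lit 40, nat_lit 20, nat_lit 80]⟩,
 zbF0, []⟩
noncomputable def p002_l188 : Lf2 := ⟨nat_lit 0, nat_lit 2, [nat_lit 10, nat_lit 5, nat_lit 5, nat_lit 20], false, nat_lit 0, nat_lit 0, nat_lit 0, nat_lit 0, ⟨nat_lit 1000, nat_lit 0, nat_lit 0, nat_lit 0, nat_lit 0, nat_lit 0, nat_lit 0, nat_lit 0, nat_lit 0, nat_lit 0, nat_lit 0, nat_lit 0, nat_lit 0, nat_lit 0, nat_lit 0, nat_lit 0, false, false⟩,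
 nat_lit 52970, nat_lit 0, nat_lit 0, nat_lit 0, nat_lit 5527, nat_lit 22701, nat_lit 0, nat_lit 0, nat_lit 0, nat_lit 6940, nat_lit 0, nat_lit 0, nat_lit 0, nat_lit 0, nat_lit 0, nat_lit 0, nat_lit 0, nat_lit 0, [],
 ⟨p002_k16, nat_lit 0, nat_lit 0, nat_lit 0, nat_lit 0, nat_lit 138901, [nat_lit 6250000000, nat_lit 7968000001, nat_lit 9842000000], [], [nat_lit 40922275680, nat_lit 39461108217, nat_lit 33537987684, nat_lit 33588510197], nat_lit 1271250, nat_lit 1271250, nat_lit 780000, nat_lit 1762500, nat_lit 0, nat_lit 0, [nat_lit 1412500, nat_lit 1271250, nat_lit 1271250], [nat_lit 25, nat_lit 40, nat_lit 20, nat_lit 80]⟩, ⟨p002_k16, nat_lit 0, nat_lit 0, nat_lit 0, nat_lit 0, nat_lit 138901, [nat_lit 6250000000, nat_lit 7968000000, nat_lit 9842000000], [], [nat_lit 9854788840, nat_lit 7401830811, nat_lit 32055734092, nat_lit 26317329910], nat_lit 1271250, nat_lit 1271250, nat_lit 780000,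 nat_lit 1762500, nat_lit 0, nat_lit 0, [nat_lit 1412500, nat_lit 1271250, nat_lit 1271250], [nat_lit 25, nat_lit 40, nat_lit 20, nat_lit 80]⟩,
 zbF0, []⟩
noncomputable def p002_l189 : Lf2 := ⟨nat_lit 0, nat_lit 2, [nat_lit 10, nat_lit 5, nat_lit 5, nat_lit 20], false, nat_lit 0, nat_lit 0, nat_lit 0, nat_lit 0, ⟨nat_lit 1000, nat_lit 0, nat_lit 0, nat_lit 0, nat_lit 0, nat_lit 0, nat_lit 0, nat_lit 0, nat_lit 0, nat_lit 0, nat_lit 0, nat_lit 0, nat_lit 0, nat_lit 0, nat_lit 0, nat_lit 0, false, false⟩,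
 nat_lit 58406, nat_lit 0, nat_lit 0, nat_lit 0, nat_lit 6064, nat_lit 25031, nat_lit 0, nat_lit 0, nat_lit 0, nat_lit 7592, nat_lit 61, nat_lit 0, nat_lit 0, nat_lit 0, nat_lit 0, nat_lit 0, nat_lit 0, nat_lit 0, [],
 ⟨p002_k16, nat_lit 0, nat_lit 0, nat_lit 0, nat_lit 0, nat_lit 138901, [nat_lit 6250000000, nat_lit 7968000001, nat_lit 9842000000], [], [nat_lit 41740577760, nat_lit 40137444144, nat_lit 33491640288, nat_lit 32389790873], nat_lit 1271250, nat_lit 1271250, nat_lit 780000, nat_lit 1762500, nat_lit 0, nat_lit 0, [nat_lit 1412500, nat_lit 1271250, nat_lit 1271250], [nat_lit 25, nat_lit 40, nat_lit 20, nat_lit 80]⟩, ⟨p002_k16, nat_lit 0, nat_lit 0, nat_lit 0, nat_lit 0, nat_lit 138901, [nat_lit 7470000000, nat_lit 9432000000, nat_lit 11550000000], [], [nat_lit 10218386040, nat_lit 7398496941, nat_lit 34294636452, nat_lit 27967250210], nat_lit 1271250, nat_lit 1271250, nat_lit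 780000, nat_lit 1762500, nat_lit 0, nat_lit 0, [nat_lit 1412500, nat_lit 1271250, nat_lit 1271250], [nat_lit 25, nat_lit 40, nat_lit 20, nat_lit 80]⟩,
 zbF0, []⟩
noncomputable def p002_l190 : Lf2 := ⟨nat_lit 3, nat_lit 2, [nat_lit 10, nat_lit 5, nat_lit 5, nat_lit 20], false, nat_lit 0, nat_lit 0, nat_lit 0, nat_lit 0, zbN0,
 nat_lit 0, nat_lit 0, nat_lit 0, nat_lit 0, nat_lit 0, nat_lit 0, nat_lit 0, nat_lit 0, nat_lit 0, nat_lit 0, nat_lit 0, nat_lit 0, nat_lit 0, nat_lit 0, nat_lit 0, nat_lit 0, nat_lit 0, nat_lit 0, [],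
 C1.Rw.none, ⟨p002_k53, nat_lit 0, nat_lit 0, nat_lit 0, nat_lit 0, nat_lit 118546, [], [], [], nat_lit 1271250, nat_lit 1271250, nat_lit 780000, nat_lit 1100001, nat_lit 0, nat_lit 0, [nat_lit 631250, nat_lit 1431250, nat_lit 1271250, nat_lit 1271250], [nat_lit 151, nat_lit 40, nat_lit 20, nat_lit 40]⟩,
 zbF0, []⟩
noncomputable def p002_l191 : Lf2 := ⟨nat_lit 0, nat_lit 2, [nat_lit 10, nat_lit 5, nat_lit 5, nat_lit 20], false, nat_lit 0, nat_lit 0, nat_lit 0, nat_lit 0, ⟨nat_lit 1000, nat_lit 0, nat_lit 0, nat_lit 0, nat_lit 0, nat_lit 0, nat_lit 0, nat_lit 0, nat_lit 0, nat_lit 0, nat_lit 0, nat_lit 0, nat_lit 0, nat_lit 0, nat_lit 0, nat_lit 0, false, false⟩,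
 nat_lit 9366, nat_lit 0, nat_lit 0, nat_lit 0, nat_lit 4014, nat_lit 0, nat_lit 0, nat_lit 0, nat_lit 0, nat_lit 0, nat_lit 0, nat_lit 488, nat_lit 0, nat_lit 0, nat_lit 0, nat_lit 0, nat_lit 0, nat_lit 0, [],
 ⟨p002_k16, nat_lit 0, nat_lit 0, nat_lit 0, nat_lit 0, nat_lit 118546, [nat_lit 6250000000, nat_lit 7968000001, nat_lit 9842000000], [], [nat_lit 34372314705, nat_lit 34717515673, nat_lit 36673007689, nat_lit 36965907473], nat_lit 1271250, nat_lit 1271250, nat_lit 1100001, nat_lit 1785000, nat_lit 0, nat_lit 0, [nat_lit 1412500, nat_lit 1271250, nat_lit 1271250], [nat_lit 25, nat_lit 40, nat_lit 20, nat_lit 80]⟩, ⟨p002_k16, nat_lit 0, nat_lit 0, nat_lit 0, nat_lit 0, nat_lit 118546, [nat_lit 6250000000, nat_lit 7968000000, nat_lit 9842000000], [], [nat_lit 12980012000, nat_lit 13119825000, nat_lit 15104584000, nat_lit 15236000500], nat_lit 1271250, nat_lit 1271250, nat_lit 1100001,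 nat_lit 1785000, nat_lit 0, nat_lit 0, [nat_lit 1412500, nat_lit 1271250, nat_lit 1271250], [nat_lit 25, nat_lit 40, nat_lit 20, nat_lit 80]⟩,
 zbF0, []⟩
noncomputable def p002_l192 : Lf2 := ⟨nat_lit 3, nat_lit 2, [nat_lit 10, nat_lit 5, nat_lit 5, nat_lit 20], false, nat_lit 0, nat_lit 0, nat_lit 0, nat_lit 0, zbN0,
 nat_lit 0, nat_lit 0, nat_lit 0, nat_lit 0, nat_lit 0, nat_lit 0, nat_lit 0, nat_lit 0, nat_lit 0, nat_lit 0, nat_lit 0, nat_lit 0, nat_lit 0, nat_lit 0, nat_lit 0, nat_lit 0, nat_lit 0, nat_lit 0, [],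
 C1.Rw.none, ⟨p002_k54, nat_lit 0, nat_lit 0, nat_lit 0, nat_lit 0, nat_lit 134906, [], [], [], nat_lit 1271250, nat_lit 1271250, nat_lit 780000, nat_lit 1100001, nat_lit 0, nat_lit 0, [nat_lit 631250, nat_lit 1431250, nat_lit 1271250, nat_lit 1271250], [nat_lit 151, nat_lit 40, nat_lit 20, nat_lit 40]⟩,
 zbF0, []⟩
noncomputable def p002_l193 : Lf2 := ⟨nat_lit 0, nat_lit 2, [nat_lit 10, nat_lit 5, nat_lit 5, nat_lit 20], false, nat_lit 0, nat_lit 0, nat_lit 0, nat_lit 0, ⟨nat_lit 1000, nat_lit 0, nat_lit 0, nat_lit 0, nat_lit 0, nat_lit 0, nat_lit 0, nat_lit 0, nat_lit 0, nat_lit 0, nat_lit 0, nat_lit 0, nat_lit 0, nat_lit 0, nat_lit 0, nat_lit 0, false, false⟩,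
 nat_lit 0, nat_lit 9398, nat_lit 0, nat_lit 0, nat_lit 4143, nat_lit 0, nat_lit 1823, nat_lit 0, nat_lit 0, nat_lit 0, nat_lit 0, nat_lit 532, nat_lit 0, nat_lit 0, nat_lit 0, nat_lit 0, nat_lit 0, nat_lit 0, [],
 ⟨p002_k55, nat_lit 0, nat_lit 0, nat_lit 0, nat_lit 0, nat_lit 134906, [nat_lit 6250000000, nat_lit 7968000001, nat_lit 9842000000], [], [nat_lit 33893195457, nat_lit 34067164115, nat_lit 36177513211, nat_lit 36324740715], nat_lit 1271250, nat_lit 1271250, nat_lit 1100001, nat_lit 1785000, nat_lit 0, nat_lit 0, [nat_lit 1412500, nat_lit 1271250, nat_lit 1271250], [nat_lit 25, nat_lit 40, nat_lit 20, nat_lit 80]⟩, ⟨p002_k55, nat_lit 0, nat_lit 0, nat_lit 0, nat_lit 0, nat_lit 134906, [nat_lit 6250000000, nat_lit 7968000000, nat_lit 9842000000], [], [nat_lit 11220012000, nat_lit 11220012000, nat_lit 13423468000, nat_lit 13570472000], nat_lit 1271250, nat_lit 1271250, nat_lit 1100001,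 nat_lit 1785000, nat_lit 0, nat_lit 0, [nat_lit 1412500, nat_lit 1271250, nat_lit 1271250], [nat_lit 25, nat_lit 40, nat_lit 20, nat_lit 80]⟩,
 zbF0, []⟩
noncomputable def p002_l194 : Lf2 := ⟨nat_lit 0, nat_lit 2, [nat_lit 10, nat_lit 5, nat_lit 5, nat_lit 20], false, nat_lit 0, nat_lit 0, nat_lit 0, nat_lit 0, ⟨nat_lit 1000, nat_lit 0, nat_lit 0, nat_lit 0, nat_lit 0, nat_lit 0, nat_lit 0, nat_lit 0, nat_lit 0, nat_lit 0, nat_lit 0, nat_lit 0, nat_lit 0, nat_lit 0, nat_lit 0, nat_lit 0, false, false⟩,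
 nat_lit 100000, nat_lit 100000, nat_lit 100000, nat_lit 100000, nat_lit 90647, nat_lit 0, nat_lit 60000, nat_lit 7390, nat_lit 0, nat_lit 33077, nat_lit 0, nat_lit 597, nat_lit 0, nat_lit 0, nat_lit 0, nat_lit 0, nat_lit 0, nat_lit 0, [],
 ⟨p002_k56, nat_lit 0, nat_lit 0, nat_lit 0, nat_lit 0, nat_lit 172742, [nat_lit 76537500000, nat_lit 154050000000, nat_lit 185328000001, nat_lit 201025500000], [], [nat_lit 118443471470, nat_lit 123833714831, nat_lit 127246037383, nat_lit 123985506717], nat_lit 1271250, nat_lit 1271250, nat_lit 780000, nat_lit 1100001, nat_lit 0, nat_lit 0, [nat_lit 631250, nat_lit 1431250, nat_lit 1271250, nat_lit 1271250], [nat_lit 151, nat_lit 40, nat_lit 20, nat_lit 40]⟩, ⟨p002_k53, nat_lit 0, nat_lit 0, nat_lit 0, nat_lit 0, nat_lit 183010, [nat_lit 2637500000, nat_lit 6250000000, nat_lit 7968000000, nat_lit 8885500000], [], [nat_lit 7645012000, nat_lit 7645012000,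 nat_lit 8144636000, nat_lit 8476566000], nat_lit 1271250, nat_lit 1271250, nat_lit 780000, nat_lit 1100001, nat_lit 0, nat_lit 0, [nat_lit 631250, nat_lit 1431250, nat_lit 1271250, nat_lit 1271250], [nat_lit 151, nat_lit 40, nat_lit 20, nat_lit 40]⟩,
 zbF0, []⟩
noncomputable def p002_l195 : Lf2 := ⟨nat_lit 0, nat_lit 2, [nat_lit 10, nat_lit 5, nat_lit 5, nat_lit 20], false, nat_lit 0, nat_lit 0, nat_lit 0, nat_lit 0, ⟨nat_lit 1000, nat_lit 0, nat_lit 0, nat_lit 0, nat_lit 0, nat_lit 0, nat_lit 0, nat_lit 0, nat_lit 0, nat_lit 0, nat_lit 0, nat_lit 0, nat_lit 0, nat_lit 0, nat_lit 0, nat_lit 0, false, false⟩,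
 nat_lit 0, nat_lit 9502, nat_lit 0, nat_lit 0, nat_lit 4306, nat_lit 0, nat_lit 1847, nat_lit 0, nat_lit 0, nat_lit 0, nat_lit 0, nat_lit 488, nat_lit 0, nat_lit 0, nat_lit 0, nat_lit 0, nat_lit 0, nat_lit 0, [],
 ⟨p002_k32, nat_lit 0, nat_lit 0, nat_lit 0, nat_lit 0, nat_lit 172742, [nat_lit 6250000000, nat_lit 7968000001, nat_lit 9842000000], [], [nat_lit 33386940350, nat_lit 33657502561, nat_lit 35575289889, nat_lit 35871710025], nat_lit 1271250, nat_lit 1271250, nat_lit 1100001, nat_lit 1785000, nat_lit 0, nat_lit 0, [nat_lit 1412500, nat_lit 1271250, nat_lit 1271250], [nat_lit 25, nat_lit 40, nat_lit 20, nat_lit 80]⟩, ⟨p002_k16, nat_lit 0, nat_lit 0, nat_lit 0, nat_lit 0, nat_lit 183010, [nat_lit 6250000000, nat_lit 7968000000, nat_lit 9842000000], [], [nat_lit 12980012000, nat_lit 13260154000, nat_lit 15104584000, nat_lit 15367417000], nat_lit 1271250, nat_lit 1271250, nat_lit 1100001,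 nat_lit 1785000, nat_lit 0, nat_lit 0, [nat_lit 1412500, nat_lit 1271250, nat_lit 1271250], [nat_lit 25, nat_lit 40, nat_lit 20, nat_lit 80]⟩,
 zbF0, []⟩
noncomputable def p002_l196 : Lf2 := ⟨nat_lit 0, nat_lit 5, [nat_lit 4, nat_lit 5, nat_lit 5, nat_lit 20], false, nat_lit 0, nat_lit 0, nat_lit 0, nat_lit 0, ⟨nat_lit 1000, nat_lit 0, nat_lit 0, nat_lit 0, nat_lit 0, nat_lit 0, nat_lit 0, nat_lit 0, nat_lit 0, nat_lit 0, nat_lit 0, nat_lit 0, nat_lit 0, nat_lit 0, nat_lit 0, nat_lit 0, false, false⟩,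
 nat_lit 97928, nat_lit 0, nat_lit 0, nat_lit 0, nat_lit 15656, nat_lit 41969, nat_lit 0, nat_lit 0, nat_lit 0, nat_lit 8486, nat_lit 0, nat_lit 0, nat_lit 0, nat_lit 0, nat_lit 0, nat_lit 0, nat_lit 0, nat_lit 0, [],
 ⟨p002_k57, nat_lit 0, nat_lit 0, nat_lit 0, nat_lit 0, nat_lit 84978, [nat_lit 3282000000, nat_lit 6250000000, nat_lit 7968000001, nat_lit 11872000000], [], [nat_lit 40115406784, nat_lit 31962106416, nat_lit 30057128000, nat_lit 31639896240], nat_lit 1271250, nat_lit 1271250, nat_lit 780000, nat_lit 1100001, nat_lit 0, nat_lit 0, [nat_lit 780000, nat_lit 1435000, nat_lit 1271250, nat_lit 1271250], [nat_lit 229, nat_lit 40, nat_lit 20, nat_lit 80]⟩, ⟨p002_k57, nat_lit 0, nat_lit 0, nat_lit 0, nat_lit 0, nat_lit 84978, [nat_lit 3282000000, nat_lit 6250000000, nat_lit 7968000000, nat_lit 11872000000], [], [nat_lit 5284767782, nat_lit 7082347654, nat_lit 4500366968, nat_lit 8604853537],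 nat_lit 1271250, nat_lit 1271250, nat_lit 780000, nat_lit 1100001, nat_lit 0, nat_lit 0, [nat_lit 780000, nat_lit 1435000, nat_lit 1271250, nat_lit 1271250], [nat_lit 229, nat_lit 40, nat_lit 20, nat_lit 80]⟩,
 zbF0, []⟩
noncomputable def p002_l197 : Lf2 := ⟨nat_lit 0, nat_lit 5, [nat_lit 4, nat_lit 5, nat_lit 5, nat_lit 20], false, nat_lit 0, nat_lit 0, nat_lit 0, nat_lit 0, ⟨nat_lit 1000, nat_lit 0, nat_lit 0, nat_lit 0, nat_lit 0, nat_lit 0, nat_lit 0, nat_lit 0, nat_lit 0, nat_lit 0, nat_lit 0, nat_lit 0, nat_lit 0, nat_lit 0, nat_lit 0, nat_lit 0, false, false⟩,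
 nat_lit 10131, nat_lit 0, nat_lit 0, nat_lit 5270, nat_lit 4341, nat_lit 0, nat_lit 533, nat_lit 0, nat_lit 0, nat_lit 383, nat_lit 0, nat_lit 519, nat_lit 0, nat_lit 0, nat_lit 0, nat_lit 0, nat_lit 0, nat_lit 0, [],
 ⟨p002_k52, nat_lit 0, nat_lit 0, nat_lit 0, nat_lit 0, nat_lit 84978, [nat_lit 6250000000, nat_lit 7968000001, nat_lit 11872000000], [], [nat_lit 34524498124, nat_lit 34316452267, nat_lit 35939118973, nat_lit 36532803165], nat_lit 1271250, nat_lit 1271250, nat_lit 1100001, nat_lit 1785000, nat_lit 0, nat_lit 0, [nat_lit 1412500, nat_lit 1271250, nat_lit 1271250], [nat_lit 53, nat_lit 40, nat_lit 20, nat_lit 80]⟩, ⟨p002_k52, nat_lit 0, nat_lit 0, nat_lit 0, nat_lit 0, nat_lit 84978, [nat_lit 6250000000, nat_lit 7968000000, nat_lit 11872000000], [], [nat_lit 11740012000, nat_lit 11740881875, nat_lit 13699673875, nat_lit 13979895875], nat_lit 1271250, nat_lit 1271250, nat_lit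 1100001, nat_lit 1785000, nat_lit 0, nat_lit 0, [nat_lit 1412500, nat_lit 1271250, nat_lit 1271250], [nat_lit 53, nat_lit 40, nat_lit 20, nat_lit 80]⟩,
 zbF0, []⟩
noncomputable def p002_l198 : Lf2 := ⟨nat_lit 3, nat_lit 2, [nat_lit 10, nat_lit 5, nat_lit 5, nat_lit 20], false, nat_lit 0, nat_lit 0, nat_lit 0, nat_lit 0, zbN0,
 nat_lit 0, nat_lit 0, nat_lit 0, nat_lit 0, nat_lit 0, nat_lit 0, nat_lit 0, nat_lit 0, nat_lit 0, nat_lit 0, nat_lit 0, nat_lit 0, nat_lit 0, nat_lit 0, nat_lit 0, nat_lit 0, nat_lit 0, nat_lit 0, [],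
 C1.Rw.none, ⟨p002_k53, nat_lit 0, nat_lit 0, nat_lit 0, nat_lit 0, nat_lit 118546, [], [], [], nat_lit 1271250, nat_lit 1271250, nat_lit 780000, nat_lit 1100001, nat_lit 0, nat_lit 0, [nat_lit 631250, nat_lit 1431250, nat_lit 1271250, nat_lit 1271250], [nat_lit 151, nat_lit 40, nat_lit 20, nat_lit 40]⟩,
 zbF0, []⟩
noncomputable def p002_l199 : Lf2 := ⟨nat_lit 0, nat_lit 2, [nat_lit 10, nat_lit 5, nat_lit 5, nat_lit 20], false, nat_lit 0, nat_lit 0, nat_lit 0, nat_lit 0, ⟨nat_lit 1000, nat_lit 0, nat_lit 0, nat_lit 0, nat_lit 0, nat_lit 0, nat_lit 0, nat_lit 0, nat_lit 0, nat_lit 0, nat_lit 0, nat_lit 0, nat_lit 0, nat_lit 0, nat_lit 0, nat_lit 0, false, false⟩,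
 nat_lit 9366, nat_lit 0, nat_lit 0, nat_lit 0, nat_lit 4014, nat_lit 4014, nat_lit 0, nat_lit 0, nat_lit 0, nat_lit 0, nat_lit 0, nat_lit 0, nat_lit 0, nat_lit 0, nat_lit 0, nat_lit 0, nat_lit 0, nat_lit 0, [],
 ⟨p002_k16, nat_lit 0, nat_lit 0, nat_lit 0, nat_lit 0, nat_lit 118546, [nat_lit 6250000000, nat_lit 7968000001, nat_lit 9842000000], [], [nat_lit 34372314705, nat_lit 34717515673, nat_lit 36673007689, nat_lit 36965907473], nat_lit 1271250, nat_lit 1271250, nat_lit 1100001, nat_lit 1785000, nat_lit 0, nat_lit 0, [nat_lit 1412500, nat_lit 1271250, nat_lit 1271250], [nat_lit 25, nat_lit 40, nat_lit 20, nat_lit 80]⟩, ⟨p002_k16, nat_lit 0, nat_lit 0, nat_lit 0, nat_lit 0, nat_lit 118546, [nat_lit 6250000000, nat_lit 7968000000, nat_lit 9842000000], [], [nat_lit 34372314704, nat_lit 34544915188, nat_lit 36673007688, nat_lit 36819457580], nat_lit 1271250, nat_lit 1271250, nat_lit 1100001,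 nat_lit 1785000, nat_lit 0, nat_lit 0, [nat_lit 1412500, nat_lit 1271250, nat_lit 1271250], [nat_lit 25, nat_lit 40, nat_lit 20, nat_lit 80]⟩,
 zbF0, []⟩
noncomputable def p002_l200 : Lf2 := ⟨nat_lit 3, nat_lit 2, [nat_lit 10, nat_lit 5, nat_lit 5, nat_lit 20], false, nat_lit 0, nat_lit 0, nat_lit 0, nat_lit 0, zbN0,
 nat_lit 0, nat_lit 0, nat_lit 0, nat_lit 0, nat_lit 0, nat_lit 0, nat_lit 0, nat_lit 0, nat_lit 0, nat_lit 0, nat_lit 0, nat_lit 0, nat_lit 0, nat_lit 0, nat_lit 0, nat_lit 0, nat_lit 0, nat_lit 0, [],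
 C1.Rw.none, ⟨p002_k54, nat_lit 0, nat_lit 0, nat_lit 0, nat_lit 0, nat_lit 134906, [], [], [], nat_lit 1271250, nat_lit 1271250, nat_lit 780000, nat_lit 1100001, nat_lit 0, nat_lit 0, [nat_lit 631250, nat_lit 1431250, nat_lit 1271250, nat_lit 1271250], [nat_lit 151, nat_lit 40, nat_lit 20, nat_lit 40]⟩,
 zbF0, []⟩
noncomputable def p002_l201 : Lf2 := ⟨nat_lit 0, nat_lit 2, [nat_lit 10, nat_lit 5, nat_lit 5, nat_lit 20], false, nat_lit 0, nat_lit 0, nat_lit 0, nat_lit 0, ⟨nat_lit 1000, nat_lit 0, nat_lit 0, nat_lit 0, nat_lit 0, nat_lit 0, nat_lit 0, nat_lit 0, nat_lit 0, nat_lit 0, nat_lit 0, nat_lit 0, nat_lit 0, nat_lit 0, nat_lit 0, nat_lit 0, false, false⟩,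
 nat_lit 9546, nat_lit 0, nat_lit 0, nat_lit 0, nat_lit 4208, nat_lit 4208, nat_lit 928, nat_lit 0, nat_lit 0, nat_lit 928, nat_lit 0, nat_lit 0, nat_lit 0, nat_lit 0, nat_lit 0, nat_lit 0, nat_lit 0, nat_lit 0, [],
 ⟨p002_k55, nat_lit 0, nat_lit 0, nat_lit 0, nat_lit 0, nat_lit 134906, [nat_lit 6250000000, nat_lit 7968000001, nat_lit 9842000000], [], [nat_lit 33916187937, nat_lit 34090845985, nat_lit 36205431261, nat_lit 36353050585], nat_lit 1271250, nat_lit 1271250, nat_lit 1100001, nat_lit 1785000, nat_lit 0, nat_lit 0, [nat_lit 1412500, nat_lit 1271250, nat_lit 1271250], [nat_lit 25, nat_lit 40, nat_lit 20, nat_lit 80]⟩, ⟨p002_k55, nat_lit 0, nat_lit 0, nat_lit 0, nat_lit 0, nat_lit 134906, [nat_lit 6250000000, nat_lit 7968000000, nat_lit 9842000000], [], [nat_lit 33916187936, nat_lit 34090845984, nat_lit 36205431260, nat_lit 36353050584], nat_lit 1271250, nat_lit 1271250, nat_lit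 1100001, nat_lit 1785000, nat_lit 0, nat_lit 0, [nat_lit 1412500, nat_lit 1271250, nat_lit 1271250], [nat_lit 25, nat_lit 40, nat_lit 20, nat_lit 80]⟩,
 zbF0, []⟩
noncomputable def p002_l202 : Lf2 := ⟨nat_lit 0, nat_lit 2, [nat_lit 10, nat_lit 5, nat_lit 5, nat_lit 20], false, nat_lit 0, nat_lit 0, nat_lit 0, nat_lit 0, ⟨nat_lit 1000, nat_lit 0, nat_lit 0, nat_lit 0, nat_lit 0, nat_lit 0, nat_lit 0, nat_lit 0, nat_lit 0, nat_lit 0, nat_lit 0, nat_lit 0, nat_lit 0, nat_lit 0, nat_lit 0, nat_lit 0, false, false⟩,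
 nat_lit 100000, nat_lit 100000, nat_lit 92782, nat_lit 100000, nat_lit 90647, nat_lit 3879, nat_lit 60000, nat_lit 7390, nat_lit 0, nat_lit 28156, nat_lit 0, nat_lit 0, nat_lit 0, nat_lit 0, nat_lit 0, nat_lit 0, nat_lit 0, nat_lit 0, [],
 ⟨p002_k56, nat_lit 0, nat_lit 0, nat_lit 0, nat_lit 0, nat_lit 172742, [nat_lit 76537500000, nat_lit 154050000000, nat_lit 185328000001, nat_lit 201025500000], [], [nat_lit 118443471470, nat_lit 123833714831, nat_lit 127246037383, nat_lit 123985506717], nat_lit 1271250, nat_lit 1271250, nat_lit 780000, nat_lit 1100001, nat_lit 0, nat_lit 0, [nat_lit 631250, nat_lit 1431250, nat_lit 1271250, nat_lit 1271250], [nat_lit 151, nat_lit 40, nat_lit 20, nat_lit 40]⟩, ⟨p002_k53, nat_lit 0, nat_lit 0, nat_lit 0, nat_lit 0, nat_lit 183010, [nat_lit 2637500000, nat_lit 6250000000, nat_lit 7968000000, nat_lit 8885500000], [], [nat_lit 37435987360, nat_lit 36410959899,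 nat_lit 39797924208, nat_lit 38858511867], nat_lit 1271250, nat_lit 1271250, nat_lit 780000, nat_lit 1100001, nat_lit 0, nat_lit 0, [nat_lit 631250, nat_lit 1431250, nat_lit 1271250, nat_lit 1271250], [nat_lit 151, nat_lit 40, nat_lit 20, nat_lit 40]⟩,
 zbF0, []⟩
noncomputable def p002_l203 : Lf2 := ⟨nat_lit 0, nat_lit 2, [nat_lit 10, nat_lit 5, nat_lit 5, nat_lit 20], false, nat_lit 0, nat_lit 0, nat_lit 0, nat_lit 0, ⟨nat_lit 1000, nat_lit 0, nat_lit 0, nat_lit 0, nat_lit 0, nat_lit 0, nat_lit 0, nat_lit 0, nat_lit 0, nat_lit 0, nat_lit 0, nat_lit 0, nat_lit 0, nat_lit 0, nat_lit 0, nat_lit 0, false, false⟩,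
 nat_lit 9366, nat_lit 136, nat_lit 0, nat_lit 0, nat_lit 4306, nat_lit 4014, nat_lit 1850, nat_lit 0, nat_lit 0, nat_lit 0, nat_lit 0, nat_lit 0, nat_lit 0, nat_lit 0, nat_lit 0, nat_lit 0, nat_lit 0, nat_lit 0, [],
 ⟨p002_k32, nat_lit 0, nat_lit 0, nat_lit 0, nat_lit 0, nat_lit 172742, [nat_lit 6250000000, nat_lit 7968000001, nat_lit 9842000000], [], [nat_lit 33386940350, nat_lit 33656302561, nat_lit 35574089889, nat_lit 35870510025], nat_lit 1271250, nat_lit 1271250, nat_lit 1100001, nat_lit 1785000, nat_lit 0, nat_lit 0, [nat_lit 1412500, nat_lit 1271250, nat_lit 1271250], [nat_lit 25, nat_lit 40, nat_lit 20, nat_lit 80]⟩, ⟨p002_k16, nat_lit 0, nat_lit 0, nat_lit 0, nat_lit 0, nat_lit 183010, [nat_lit 6250000000, nat_lit 7968000000, nat_lit 9842000000], [], [nat_lit 34372314704, nat_lit 34717515672, nat_lit 36673007688, nat_lit 36965907472], nat_lit 1271250, nat_lit 1271250, nat_lit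 1100001, nat_lit 1785000, nat_lit 0, nat_lit 0, [nat_lit 1412500, nat_lit 1271250, nat_lit 1271250], [nat_lit 25, nat_lit 40, nat_lit 20, nat_lit 80]⟩,
 zbF0, []⟩
noncomputable def p002_l204 : Lf2 := ⟨nat_lit 0, nat_lit 5, [nat_lit 4, nat_lit 5, nat_lit 5, nat_lit 20], false, nat_lit 0, nat_lit 0, nat_lit 0, nat_lit 0, ⟨nat_lit 0, nat_lit 0, nat_lit 1000, nat_lit 5, nat_lit 149, nat_lit 0, nat_lit 0, nat_lit 0, nat_lit 0, nat_lit 215, nat_lit 209067, nat_lit 327, nat_lit 58813873, nat_lit 0, nat_lit 0, nat_lit 1856238, false, false⟩,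
 nat_lit 100000, nat_lit 100000, nat_lit 100000, nat_lit 100000, nat_lit 85714, nat_lit 85714, nat_lit 60000, nat_lit 20000, nat_lit 0, nat_lit 60000, nat_lit 20000, nat_lit 0, nat_lit 0, nat_lit 400000000000000, nat_lit 0, nat_lit 1000000, nat_lit 0, nat_lit 0, [(nat_lit 0, [(nat_lit 6, nat_lit 1000)])],
 ⟨p002_k58, nat_lit 0, nat_lit 0, nat_lit 0, nat_lit 0, nat_lit 84978, [nat_lit 200699866667, nat_lit 400624088889, nat_lit 479192800000, nat_lit 596859600000], [], [nat_lit 578341819131, nat_lit 585626444871, nat_lit 575512079939, nat_lit 582005197975], nat_lit 1271250, nat_lit 1271250, nat_lit 780000, nat_lit 1100001, nat_lit 0, nat_lit 0, [nat_lit 631250, nat_lit 1431250, nat_lit 1271250, nat_lit 1271250], [nat_lit 247, nat_lit 40, nat_lit 20, nat_lit 40]⟩, ⟨p002_k58, nat_lit 0, nat_lit 0, nat_lit 0, nat_lit 0, nat_lit 84978, [nat_lit 200000000000, nat_lit 400000000000, nat_lit 480000000000,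 nat_lit 600000000000], [], [nat_lit 563321804464, nat_lit 566660793334, nat_lit 559479417272, nat_lit 562431150290], nat_lit 1271250, nat_lit 1271250, nat_lit 780000, nat_lit 1100001, nat_lit 0, nat_lit 0, [nat_lit 631250, nat_lit 1431250, nat_lit 1271250, nat_lit 1271250], [nat_lit 247, nat_lit 40, nat_lit 20, nat_lit 40]⟩,
 ⟨nat_lit 6708, nat_lit 7072, ⟨.ofNat (nat_lit 319525), .ofNat (nat_lit 409762), .ofNat (nat_lit 330299), .ofNat (nat_lit 420536), .ofNat (nat_lit 327688), .ofNat (nat_lit 413843), .ofNat (nat_lit 338407), .ofNat (nat_lit 424562)⟩, ⟨.ofNat (nat_lit 0), .ofNat (nat_lit 0), .ofNat (nat_lit 0), .ofNat (nat_lit 0), .ofNat (nat_lit 0), .ofNat (nat_lit 0), .ofNat (nat_lit 0), .ofNat (nat_lit 0)⟩⟩, [⟨nat_lit 0, nat_lit 100, nat_lit 100, nat_lit 15, nat_lit 1049522464⟩]⟩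
noncomputable def p002_l205 : Lf2 := ⟨nat_lit 0, nat_lit 5, [nat_lit 4, nat_lit 5, nat_lit 5, nat_lit 20], false, nat_lit 0, nat_lit 0, nat_lit 0, nat_lit 0, ⟨nat_lit 1000, nat_lit 0, nat_lit 0, nat_lit 0, nat_lit 0, nat_lit 0, nat_lit 0, nat_lit 0, nat_lit 0, nat_lit 0, nat_lit 0, nat_lit 0, nat_lit 0, nat_lit 0, nat_lit 0, nat_lit 0, false, false⟩,
 nat_lit 12248, nat_lit 0, nat_lit 0, nat_lit 20661, nat_lit 5249, nat_lit 4568, nat_lit 894, nat_lit 0, nat_lit 0, nat_lit 624, nat_lit 0, nat_lit 0, nat_lit 0, nat_lit 0, nat_lit 0, nat_lit 0, nat_lit 0, nat_lit 0, [],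
 ⟨p002_k52, nat_lit 0, nat_lit 0, nat_lit 0, nat_lit 0, nat_lit 84978, [nat_lit 6250000000, nat_lit 7968000001, nat_lit 11872000000], [], [nat_lit 34947956636, nat_lit 32244150241, nat_lit 34124391308, nat_lit 34516865197], nat_lit 1271250, nat_lit 1271250, nat_lit 1100001, nat_lit 1785000, nat_lit 0, nat_lit 0, [nat_lit 1412500, nat_lit 1271250, nat_lit 1271250], [nat_lit 53, nat_lit 40, nat_lit 20, nat_lit 80]⟩, ⟨p002_k52, nat_lit 0, nat_lit 0, nat_lit 0, nat_lit 0, nat_lit 84978, [nat_lit 6250000000, nat_lit 7968000000, nat_lit 11872000000], [], [nat_lit 34630362752, nat_lit 33441403264, nat_lit 35429661056, nat_lit 35729239864], nat_lit 1271250, nat_lit 1271250, nat_lit 1100001, nat_lit 1785000, nat_lit 0, nat_lit 0, [nat_lit 1412500, nat_lit 1271250, nat_lit 1271250], [nat_lit 53, nat_lit 40, nat_lit 20, nat_lit 80]⟩,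
 zbF0, []⟩
noncomputable def p002_l206 : Lf2 := ⟨nat_lit 0, nat_lit 5, [nat_lit 4, nat_lit 5, nat_lit 5, nat_lit 20], false, nat_lit 0, nat_lit 0, nat_lit 0, nat_lit 0, ⟨nat_lit 0, nat_lit 0, nat_lit 1000, nat_lit 5, nat_lit 185, nat_lit 0, nat_lit 0, nat_lit 0, nat_lit 0, nat_lit 215, nat_lit 2813, nat_lit 212, nat_lit 55245991, nat_lit 0, nat_lit 0, nat_lit 2321984, false, false⟩,
 nat_lit 100000, nat_lit 74261, nat_lit 100000, nat_lit 100000, nat_lit 775, nat_lit 85714, nat_lit 0, nat_lit 0, nat_lit 0, nat_lit 0, nat_lit 12525, nat_lit 0, nat_lit 0, nat_lit 0, nat_lit 131, nat_lit 1000000, nat_lit 0, nat_lit 0, [(nat_lit 0, [(nat_lit 6, nat_lit 1000)])],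
 ⟨p002_k52, nat_lit 0, nat_lit 0, nat_lit 0, nat_lit 0, nat_lit 195011, [nat_lit 3438000000, nat_lit 2336800001, nat_lit 273866667], [], [nat_lit 22816988000, nat_lit 22409631200, nat_lit 24866146500, nat_lit 25397233900], nat_lit 1271250, nat_lit 1271250, nat_lit 780000, nat_lit 1762500, nat_lit 0, nat_lit 0, [nat_lit 1412500, nat_lit 1271250, nat_lit 1271250], [nat_lit 53, nat_lit 40, nat_lit 20, nat_lit 80]⟩, ⟨p002_k52, nat_lit 0, nat_lit 0, nat_lit 0, nat_lit 0, nat_lit 195011, [nat_lit 250500000000, nat_lit 300600000000, nat_lit 400800000000], [], [nat_lit 631614421760, nat_lit 608954297294, nat_lit 609231384088, nat_lit 610264752072], nat_lit 1271250, nat_lit 1271250, nat_lit 780000, nat_lit 1762500, nat_lit 0, nat_lit 0, [nat_lit 1412500, nat_lit 1271250, nat_lit 1271250], [nat_lit 53, nat_lit 40, nat_lit 20, nat_lit 80]⟩,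
 ⟨nat_lit 6708, nat_lit 7072, ⟨.ofNat (nat_lit 319525), .ofNat (nat_lit 590203), .ofNat (nat_lit 330299), .ofNat (nat_lit 600973), .ofNat (nat_lit 327688), .ofNat (nat_lit 586121), .ofNat (nat_lit 338407), .ofNat (nat_lit 596837)⟩, ⟨.ofNat (nat_lit 0), .ofNat (nat_lit 0), .ofNat (nat_lit 0), .ofNat (nat_lit 0), .ofNat (nat_lit 0), .ofNat (nat_lit 0), .ofNat (nat_lit 0), .ofNat (nat_lit 0)⟩⟩, [⟨nat_lit 13, nat_lit 100, nat_lit 3, nat_lit 100, nat_lit 138832404⟩]⟩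
noncomputable def p002_l207 : Lf2 := ⟨nat_lit 0, nat_lit 5, [nat_lit 4, nat_lit 5, nat_lit 5, nat_lit 20], false, nat_lit 0, nat_lit 0, nat_lit 0, nat_lit 0, ⟨nat_lit 151, nat_lit 0, nat_lit 849, nat_lit 5, nat_lit 185, nat_lit 0, nat_lit 0, nat_lit 0, nat_lit 0, nat_lit 215, nat_lit 2813, nat_lit 212, nat_lit 55245991, nat_lit 0, nat_lit 0, nat_lit 2321984, false, false⟩,
 nat_lit 100000, nat_lit 100000, nat_lit 97184, nat_lit 100000, nat_lit 85714, nat_lit 460, nat_lit 0, nat_lit 11351, nat_lit 0, nat_lit 0, nat_lit 0, nat_lit 0, nat_lit 0, nat_lit 0, nat_lit 0, nat_lit 849000, nat_lit 0, nat_lit 0, [(nat_lit 0, [(nat_lit 6, nat_lit 849)])],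
 ⟨p002_k52, nat_lit 0, nat_lit 0, nat_lit 352, nat_lit 0, nat_lit 195011, [nat_lit 228658232000, nat_lit 272941855201, nat_lit 361686398800], [], [nat_lit 607930897760, nat_lit 562610648828, nat_lit 563103363289, nat_lit 565659113257], nat_lit 1271250, nat_lit 1271250, nat_lit 780000, nat_lit 1762500, nat_lit 0, nat_lit 0, [nat_lit 1412500, nat_lit 1271250, nat_lit 1271250], [nat_lit 53, nat_lit 40, nat_lit 20, nat_lit 80, nat_lit 14, nat_lit 345, nat_lit 125, nat_lit 9]⟩, ⟨p002_k52, nat_lit 0, nat_lit 0, nat_lit 0, nat_lit 0, nat_lit 195011, [nat_lit 943750000, nat_lit 1203168000, nat_lit 1792672000], [], [nat_lit 5608468212, nat_lit 5487115844, nat_lit 5871499772, nat_lit 5914151917], nat_lit 1271250, nat_lit 1271250, nat_lit 780000, nat_lit 1762500, nat_lit 0, nat_lit 0, [nat_lit 1412500, nat_lit 1271250, nat_lit 1271250], [nat_lit 53, nat_lit 40, nat_lit 20, nat_lit 80]⟩,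
 ⟨nat_lit 6708, nat_lit 7072, ⟨.ofNat (nat_lit 319525), .ofNat (nat_lit 590203), .ofNat (nat_lit 330299), .ofNat (nat_lit 600973), .ofNat (nat_lit 327688), .ofNat (nat_lit 586121), .ofNat (nat_lit 338407), .ofNat (nat_lit 596837)⟩, ⟨.ofNat (nat_lit 0), .ofNat (nat_lit 0), .ofNat (nat_lit 0), .ofNat (nat_lit 0), .ofNat (nat_lit 0), .ofNat (nat_lit 0), .ofNat (nat_lit 0), .ofNat (nat_lit 0)⟩⟩, [⟨nat_lit 13, nat_lit 100, nat_lit 3, nat_lit 100, nat_lit 11419904⟩]⟩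
noncomputable def p002_l208 : Lf2 := ⟨nat_lit 0, nat_lit 5, [nat_lit 4, nat_lit 5, nat_lit 5, nat_lit 20], false, nat_lit 0, nat_lit 0, nat_lit 0, nat_lit 0, ⟨nat_lit 986, nat_lit 0, nat_lit 14, nat_lit 5, nat_lit 189, nat_lit 0, nat_lit 0, nat_lit 0, nat_lit 0, nat_lit 215, nat_lit 2917, nat_lit 209, nat_lit 54771394, nat_lit 0, nat_lit 0, nat_lit 2375938, false, false⟩,
 nat_lit 21319, nat_lit 0, nat_lit 0, nat_lit 0, nat_lit 9662, nat_lit 3233, nat_lit 3978, nat_lit 0, nat_lit 263, nat_lit 0, nat_lit 0, nat_lit 0, nat_lit 0, nat_lit 0, nat_lit 0, nat_lit 2800, nat_lit 0, nat_lit 0, [(nat_lit 0, [(nat_lit 3, nat_lit 14)])],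
 ⟨p002_k59, nat_lit 0, nat_lit 0, nat_lit 0, nat_lit 0, nat_lit 226055, [nat_lit 6546268000, nat_lit 7849330401, nat_lit 9687854400], [], [nat_lit 8992826802, nat_lit 8520953841, nat_lit 20811260420, nat_lit 18368880736], nat_lit 1271250, nat_lit 1271250, nat_lit 780000, nat_lit 1762500, nat_lit 0, nat_lit 0, [nat_lit 1412500, nat_lit 1271250, nat_lit 1271250], [nat_lit 25, nat_lit 40, nat_lit 20, nat_lit 80]⟩, ⟨p002_k59, nat_lit 0, nat_lit 0, nat_lit 0, nat_lit 0, nat_lit 226055, [nat_lit 6162500000, nat_lit 7856448000, nat_lit 9704212000], [], [nat_lit 36116881575, nat_lit 35528822828, nat_lit 38066329946, nat_lit 38346390896], nat_lit 1271250, nat_lit 1271250, nat_lit 780000, nat_lit 1762500, nat_lit 0, nat_lit 0, [nat_lit 1412500, nat_lit 1271250, nat_lit 1271250], [nat_lit 25, nat_lit 40, nat_lit 20, nat_lit 80]⟩,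
 ⟨nat_lit 6708, nat_lit 6893, ⟨.ofNat (nat_lit 334402), .ofNat (nat_lit 598906), .ofNat (nat_lit 345146), .ofNat (nat_lit 609649), .ofNat (nat_lit 338407), .ofNat (nat_lit 596865), .ofNat (nat_lit 349126), .ofNat (nat_lit 607584)⟩, ⟨.ofNat (nat_lit 0), .ofNat (nat_lit 0), .ofNat (nat_lit 0), .ofNat (nat_lit 0), .ofNat (nat_lit 0), .ofNat (nat_lit 0), .ofNat (nat_lit 0), .ofNat (nat_lit 0)⟩⟩, []⟩
noncomputable def p002_l209 : Lf2 := ⟨nat_lit 0, nat_lit 5, [nat_lit 4, nat_lit 5, nat_lit 5, nat_lit 20], false, nat_lit 0, nat_lit 0, nat_lit 0, nat_lit 0, ⟨nat_lit 1000, nat_lit 0, nat_lit 0, nat_lit 0, nat_lit 0, nat_lit 0, nat_lit 0, nat_lit 0, nat_lit 0, nat_lit 0, nat_lit 0, nat_lit 0, nat_lit 0, nat_lit 0, nat_lit 0, nat_lit 0, false, false⟩,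
 nat_lit 0, nat_lit 4664, nat_lit 0, nat_lit 0, nat_lit 2113, nat_lit 0, nat_lit 592, nat_lit 0, nat_lit 0, nat_lit 0, nat_lit 0, nat_lit 621, nat_lit 0, nat_lit 0, nat_lit 0, nat_lit 0, nat_lit 0, nat_lit 0, [],
 ⟨p002_k60, nat_lit 0, nat_lit 0, nat_lit 0, nat_lit 0, nat_lit 226055, [nat_lit 2637500000, nat_lit 6250000000, nat_lit 7968000001, nat_lit 9842000000], [], [nat_lit 35165796562, nat_lit 35505627259, nat_lit 38998342521, nat_lit 38564988085], nat_lit 1271250, nat_lit 1271250, nat_lit 780000, nat_lit 1762500, nat_lit 0, nat_lit 0, [nat_lit 631250, nat_lit 1431250, nat_lit 1271250, nat_lit 1271250], [nat_lit 130, nat_lit 40, nat_lit 20, nat_lit 40]⟩, ⟨p002_k60, nat_lit 0, nat_lit 0, nat_lit 0, nat_lit 0, nat_lit 226055, [nat_lit 2637500000, nat_lit 6250000000, nat_lit 7968000000, nat_lit 9842000000], [], [nat_lit 7665967000, nat_lit 7991506000, nat_lit 11357762000, nat_lit 11719940000],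 nat_lit 1271250, nat_lit 1271250, nat_lit 780000, nat_lit 1762500, nat_lit 0, nat_lit 0, [nat_lit 631250, nat_lit 1431250, nat_lit 1271250, nat_lit 1271250], [nat_lit 130, nat_lit 40, nat_lit 20, nat_lit 40]⟩,
 zbF0, []⟩
noncomputable def p002_l210 : Lf2 := ⟨nat_lit 3, nat_lit 2, [nat_lit 10, nat_lit 5, nat_lit 5, nat_lit 20], false, nat_lit 0, nat_lit 0, nat_lit 0, nat_lit 0, zbN0,
 nat_lit 0, nat_lit 0, nat_lit 0, nat_lit 0, nat_lit 0, nat_lit 0, nat_lit 0, nat_lit 0, nat_lit 0, nat_lit 0, nat_lit 0, nat_lit 0, nat_lit 0, nat_lit 0, nat_lit 0, nat_lit 0, nat_lit 0, nat_lit 0, [],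
 C1.Rw.none, ⟨p002_k56, nat_lit 0, nat_lit 0, nat_lit 0, nat_lit 0, nat_lit 184374, [], [], [], nat_lit 1271250, nat_lit 1271250, nat_lit 780000, nat_lit 1100001, nat_lit 0, nat_lit 0, [nat_lit 631250, nat_lit 1431250, nat_lit 1271250, nat_lit 1271250], [nat_lit 151, nat_lit 40, nat_lit 20, nat_lit 40]⟩,
 zbF0, []⟩
noncomputable def p002_l211 : Lf2 := ⟨nat_lit 0, nat_lit 2, [nat_lit 10, nat_lit 5, nat_lit 5, nat_lit 20], false, nat_lit 0, nat_lit 0, nat_lit 0, nat_lit 0, ⟨nat_lit 1000, nat_lit 0, nat_lit 0, nat_lit 0, nat_lit 0, nat_lit 0, nat_lit 0, nat_lit 0, nat_lit 0, nat_lit 0, nat_lit 0, nat_lit 0, nat_lit 0, nat_lit 0, nat_lit 0, nat_lit 0, false, false⟩,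
 nat_lit 9792, nat_lit 0, nat_lit 0, nat_lit 0, nat_lit 4438, nat_lit 4438, nat_lit 1061, nat_lit 0, nat_lit 0, nat_lit 866, nat_lit 0, nat_lit 0, nat_lit 0, nat_lit 0, nat_lit 0, nat_lit 0, nat_lit 0, nat_lit 0, [],
 ⟨p002_k32, nat_lit 0, nat_lit 0, nat_lit 0, nat_lit 0, nat_lit 184374, [nat_lit 6250000000, nat_lit 7968000001, nat_lit 9842000000], [], [nat_lit 33414129050, nat_lit 33670646881, nat_lit 35595032625, nat_lit 35893044153], nat_lit 1271250, nat_lit 1271250, nat_lit 1100001, nat_lit 1785000, nat_lit 0, nat_lit 0, [nat_lit 1412500, nat_lit 1271250, nat_lit 1271250], [nat_lit 25, nat_lit 40, nat_lit 20, nat_lit 80]⟩, ⟨p002_k32, nat_lit 0, nat_lit 0, nat_lit 0, nat_lit 0, nat_lit 184374, [nat_lit 6250000000, nat_lit 7968000000, nat_lit 9842000000], [], [nat_lit 33414129050, nat_lit 33500710481, nat_lit 35673032624, nat_lit 35762436083], nat_lit 1271250, nat_lit 1271250, nat_lit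 1100001, nat_lit 1785000, nat_lit 0, nat_lit 0, [nat_lit 1412500, nat_lit 1271250, nat_lit 1271250], [nat_lit 25, nat_lit 40, nat_lit 20, nat_lit 80]⟩,
 zbF0, []⟩
noncomputable def p002_l212 : Lf2 := ⟨nat_lit 3, nat_lit 2, [nat_lit 10, nat_lit 5, nat_lit 5, nat_lit 20], false, nat_lit 0, nat_lit 0, nat_lit 0, nat_lit 0, zbN0,
 nat_lit 0, nat_lit 0, nat_lit 0, nat_lit 0, nat_lit 0, nat_lit 0, nat_lit 0, nat_lit 0, nat_lit 0, nat_lit 0, nat_lit 0, nat_lit 0, nat_lit 0, nat_lit 0, nat_lit 0, nat_lit 0, nat_lit 0, nat_lit 0, [],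
 C1.Rw.none, ⟨p002_k61, nat_lit 0, nat_lit 0, nat_lit 0, nat_lit 0, nat_lit 188995, [], [], [], nat_lit 1271250, nat_lit 1271250, nat_lit 780000, nat_lit 1100001, nat_lit 0, nat_lit 0, [nat_lit 631250, nat_lit 1431250, nat_lit 1271250, nat_lit 1271250], [nat_lit 151, nat_lit 40, nat_lit 20, nat_lit 40]⟩,
 zbF0, []⟩
noncomputable def p002_l213 : Lf2 := ⟨nat_lit 0, nat_lit 2, [nat_lit 10, nat_lit 5, nat_lit 5, nat_lit 20], false, nat_lit 0, nat_lit 0, nat_lit 0, nat_lit 0, ⟨nat_lit 1000, nat_lit 0, nat_lit 0, nat_lit 0, nat_lit 0, nat_lit 0, nat_lit 0, nat_lit 0, nat_lit 0, nat_lit 0, nat_lit 0, nat_lit 0, nat_lit 0, nat_lit 0, nat_lit 0, nat_lit 0, false, false⟩,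
 nat_lit 9923, nat_lit 0, nat_lit 0, nat_lit 0, nat_lit 4571, nat_lit 4571, nat_lit 1041, nat_lit 0, nat_lit 0, nat_lit 913, nat_lit 0, nat_lit 0, nat_lit 0, nat_lit 0, nat_lit 0, nat_lit 0, nat_lit 0, nat_lit 0, [],
 ⟨p002_k62, nat_lit 0, nat_lit 0, nat_lit 0, nat_lit 0, nat_lit 188995, [nat_lit 6250000000, nat_lit 7968000001, nat_lit 9842000000], [], [nat_lit 33084452290, nat_lit 33251490211, nat_lit 35272408852, nat_lit 35482139335], nat_lit 1271250, nat_lit 1271250, nat_lit 1100001, nat_lit 1785000, nat_lit 0, nat_lit 0, [nat_lit 1412500, nat_lit 1271250, nat_lit 1271250], [nat_lit 25, nat_lit 40, nat_lit 20, nat_lit 80]⟩, ⟨p002_k62, nat_lit 0, nat_lit 0, nat_lit 0, nat_lit 0, nat_lit 188995, [nat_lit 6250000000, nat_lit 7968000000, nat_lit 9842000000], [], [nat_lit 33084452290, nat_lit 33139382184, nat_lit 35338808851, nat_lit 35398731846], nat_lit 1271250, nat_lit 1271250, nat_lit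 1100001, nat_lit 1785000, nat_lit 0, nat_lit 0, [nat_lit 1412500, nat_lit 1271250, nat_lit 1271250], [nat_lit 25, nat_lit 40, nat_lit 20, nat_lit 80]⟩,
 zbF0, []⟩
noncomputable def p002_l214 : Lf2 := ⟨nat_lit 3, nat_lit 5, [nat_lit 4, nat_lit 5, nat_lit 5, nat_lit 20], false, nat_lit 0, nat_lit 0, nat_lit 0, nat_lit 0, zbN0,
 nat_lit 0, nat_lit 0, nat_lit 0, nat_lit 0, nat_lit 0, nat_lit 0, nat_lit 0, nat_lit 0, nat_lit 0, nat_lit 0, nat_lit 0, nat_lit 0, nat_lit 0, nat_lit 0, nat_lit 0, nat_lit 0, nat_lit 0, nat_lit 0, [],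
 C1.Rw.none, ⟨p002_k60, nat_lit 0, nat_lit 0, nat_lit 0, nat_lit 0, nat_lit 100865, [], [], [], nat_lit 1271250, nat_lit 1271250, nat_lit 780000, nat_lit 1100001, nat_lit 0, nat_lit 0, [nat_lit 631250, nat_lit 1431250, nat_lit 1271250, nat_lit 1271250], [nat_lit 130, nat_lit 40, nat_lit 20, nat_lit 40]⟩,
 zbF0, []⟩
noncomputable def p002_l215 : Lf2 := ⟨nat_lit 0, nat_lit 5, [nat_lit 4, nat_lit 5, nat_lit 5, nat_lit 20], false, nat_lit 0, nat_lit 0, nat_lit 0, nat_lit 0, ⟨nat_lit 1000, nat_lit 0, nat_lit 0, nat_lit 0, nat_lit 0, nat_lit 0, nat_lit 0, nat_lit 0, nat_lit 0, nat_lit 0, nat_lit 0, nat_lit 0, nat_lit 0, nat_lit 0, nat_lit 0, nat_lit 0, false, false⟩,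
 nat_lit 7108, nat_lit 0, nat_lit 0, nat_lit 0, nat_lit 3221, nat_lit 3221, nat_lit 0, nat_lit 0, nat_lit 0, nat_lit 0, nat_lit 0, nat_lit 0, nat_lit 0, nat_lit 0, nat_lit 0, nat_lit 0, nat_lit 0, nat_lit 0, [],
 ⟨p002_k60, nat_lit 0, nat_lit 0, nat_lit 0, nat_lit 0, nat_lit 100865, [nat_lit 2637500000, nat_lit 6250000000, nat_lit 7968000001, nat_lit 9842000000], [], [nat_lit 34037616610, nat_lit 33405826009, nat_lit 39205624957, nat_lit 38420077814], nat_lit 1271250, nat_lit 1271250, nat_lit 1100001, nat_lit 1785000, nat_lit 0, nat_lit 0, [nat_lit 631250, nat_lit 1431250, nat_lit 1271250, nat_lit 1271250], [nat_lit 130, nat_lit 40, nat_lit 20, nat_lit 40]⟩, ⟨p002_k60, nat_lit 0, nat_lit 0, nat_lit 0, nat_lit 0, nat_lit 100865, [nat_lit 2637500000, nat_lit 6250000000, nat_lit 7968000000, nat_lit 9842000000], [], [nat_lit 34037616610, nat_lit 33633461635, nat_lit 39205624957, nat_lit 38812851386],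 nat_lit 1271250, nat_lit 1271250, nat_lit 1100001, nat_lit 1785000, nat_lit 0, nat_lit 0, [nat_lit 631250, nat_lit 1431250, nat_lit 1271250, nat_lit 1271250], [nat_lit 130, nat_lit 40, nat_lit 20, nat_lit 40]⟩,
 zbF0, []⟩
noncomputable def p002_l216 : Lf2 := ⟨nat_lit 3, nat_lit 5, [nat_lit 4, nat_lit 5, nat_lit 5, nat_lit 20], false, nat_lit 0, nat_lit 0, nat_lit 0, nat_lit 0, zbN0,
 nat_lit 0, nat_lit 0, nat_lit 0, nat_lit 0, nat_lit 0, nat_lit 0, nat_lit 0, nat_lit 0, nat_lit 0, nat_lit 0, nat_lit 0, nat_lit 0, nat_lit 0, nat_lit 0, nat_lit 0, nat_lit 0, nat_lit 0, nat_lit 0, [],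
 C1.Rw.none, ⟨p002_k63, nat_lit 0, nat_lit 0, nat_lit 0, nat_lit 0, nat_lit 219575, [], [], [], nat_lit 1271250, nat_lit 1271250, nat_lit 780000, nat_lit 1100001, nat_lit 0, nat_lit 0, [nat_lit 631250, nat_lit 1431250, nat_lit 1271250, nat_lit 1271250], [nat_lit 130, nat_lit 40, nat_lit 20, nat_lit 40]⟩,
 zbF0, []⟩
noncomputable def p002_l217 : Lf2 := ⟨nat_lit 0, nat_lit 5, [nat_lit 4, nat_lit 5, nat_lit 5, nat_lit 20], false, nat_lit 0, nat_lit 0, nat_lit 0, nat_lit 0, ⟨nat_lit 1000, nat_lit 0, nat_lit 0, nat_lit 0, nat_lit 0, nat_lit 0, nat_lit 0, nat_lit 0, nat_lit 0, nat_lit 0, nat_lit 0, nat_lit 0, nat_lit 0, nat_lit 0, nat_lit 0, nat_lit 0, false, false⟩,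
 nat_lit 6652, nat_lit 0, nat_lit 0, nat_lit 0, nat_lit 3097, nat_lit 3097, nat_lit 1008, nat_lit 0, nat_lit 0, nat_lit 0, nat_lit 0, nat_lit 0, nat_lit 0, nat_lit 0, nat_lit 0, nat_lit 0, nat_lit 0, nat_lit 0, [],
 ⟨p002_k63, nat_lit 0, nat_lit 0, nat_lit 0, nat_lit 0, nat_lit 219575, [nat_lit 2637500000, nat_lit 6250000000, nat_lit 7968000001, nat_lit 9842000000], [], [nat_lit 33750649695, nat_lit 33362053620, nat_lit 38836129224, nat_lit 38458476398], nat_lit 1271250, nat_lit 1271250, nat_lit 1100001, nat_lit 1785000, nat_lit 0, nat_lit 0, [nat_lit 631250, nat_lit 1431250, nat_lit 1271250, nat_lit 1271250], [nat_lit 130, nat_lit 40, nat_lit 20, nat_lit 40]⟩, ⟨p002_k63, nat_lit 0, nat_lit 0, nat_lit 0, nat_lit 0, nat_lit 219575, [nat_lit 2637500000, nat_lit 6250000000, nat_lit 7968000000, nat_lit 9842000000], [], [nat_lit 33750649695, nat_lit 33762022456, nat_lit 38836129224, nat_lit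 38458476398], nat_lit 1271250, nat_lit 1271250, nat_lit 1100001, nat_lit 1785000, nat_lit 0, nat_lit 0, [nat_lit 631250, nat_lit 1431250, nat_lit 1271250, nat_lit 1271250], [nat_lit 130, nat_lit 40, nat_lit 20, nat_lit 40]⟩,
 zbF0, []⟩
noncomputable def p002_l218 : Lf2 := ⟨nat_lit 0, nat_lit 5, [nat_lit 4, nat_lit 5, nat_lit 5, nat_lit 20], false, nat_lit 0, nat_lit 0, nat_lit 0, nat_lit 0, ⟨nat_lit 1000, nat_lit 0, nat_lit 0, nat_lit 0, nat_lit 0, nat_lit 0, nat_lit 0, nat_lit 0, nat_lit 0, nat_lit 0, nat_lit 0, nat_lit 0, nat_lit 0, nat_lit 0, nat_lit 0, nat_lit 0, false, false⟩,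
 nat_lit 100000, nat_lit 64971, nat_lit 100000, nat_lit 100000, nat_lit 0, nat_lit 90647, nat_lit 0, nat_lit 0, nat_lit 0, nat_lit 60000, nat_lit 13393, nat_lit 0, nat_lit 0, nat_lit 400000000000000, nat_lit 0, nat_lit 0, nat_lit 0, nat_lit 0, [],
 ⟨p002_k59, nat_lit 0, nat_lit 0, nat_lit 0, nat_lit 0, nat_lit 226055, [nat_lit 6250000000, nat_lit 7968000001, nat_lit 9842000000], [], [nat_lit 43054023001, nat_lit 43321166001, nat_lit 45926167001, nat_lit 46170674001], nat_lit 1271250, nat_lit 1271250, nat_lit 780000, nat_lit 1762500, nat_lit 0, nat_lit 0, [nat_lit 1412500, nat_lit 1271250, nat_lit 1271250], [nat_lit 25, nat_lit 40, nat_lit 20, nat_lit 80]⟩, ⟨p002_k59, nat_lit 0, nat_lit 0, nat_lit 0, nat_lit 0, nat_lit 226055, [nat_lit 274110000000, nat_lit 329400000000, nat_lit 384846000000], [], [nat_lit 682387279737, nat_lit 674996067568, nat_lit 676731219956, nat_lit 678068567188], nat_lit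 1271250, nat_lit 1271250, nat_lit 780000, nat_lit 1762500, nat_lit 0, nat_lit 0, [nat_lit 1412500, nat_lit 1271250, nat_lit 1271250], [nat_lit 25, nat_lit 40, nat_lit 20, nat_lit 80]⟩,
 zbF0, []⟩
noncomputable def p002_l219 : Lf2 := ⟨nat_lit 0, nat_lit 5, [nat_lit 4, nat_lit 5, nat_lit 5, nat_lit 20], false, nat_lit 0, nat_lit 0, nat_lit 0, nat_lit 0, ⟨nat_lit 0, nat_lit 0, nat_lit 1000, nat_lit 5, nat_lit 189, nat_lit 0, nat_lit 0, nat_lit 0, nat_lit 0, nat_lit 215, nat_lit 2917, nat_lit 209, nat_lit 54771394, nat_lit 0, nat_lit 0, nat_lit 2375938, false, false⟩,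
 nat_lit 100000, nat_lit 100000, nat_lit 83978, nat_lit 100000, nat_lit 90647, nat_lit 0, nat_lit 60000, nat_lit 13068, nat_lit 0, nat_lit 0, nat_lit 0, nat_lit 0, nat_lit 0, nat_lit 400000000000000, nat_lit 0, nat_lit 1000000, nat_lit 0, nat_lit 0, [(nat_lit 0, [(nat_lit 6, nat_lit 1000)])],
 ⟨p002_k59, nat_lit 0, nat_lit 0, nat_lit 283, nat_lit 0, nat_lit 226055, [nat_lit 262178000001, nat_lit 312824800001, nat_lit 363410400000], [], [nat_lit 658523279739, nat_lit 634559022996, nat_lit 636292019959, nat_lit 637629367191], nat_lit 1271250, nat_lit 1271250, nat_lit 780000, nat_lit 1762500, nat_lit 0, nat_lit 0, [nat_lit 1412500, nat_lit 1271250, nat_lit 1271250], [nat_lit 25, nat_lit 40, nat_lit 20, nat_lit 80, nat_lit 17, nat_lit 345, nat_lit 125, nat_lit 10]⟩, ⟨p002_k59, nat_lit 0, nat_lit 0, nat_lit 0, nat_lit 0, nat_lit 226055, [nat_lit 0, nat_lit 0, nat_lit 0], [], [nat_lit 0, nat_lit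 0, nat_lit 0, nat_lit 0], nat_lit 1271250, nat_lit 1271250, nat_lit 780000, nat_lit 1762500, nat_lit 0, nat_lit 0, [nat_lit 1412500, nat_lit 1271250, nat_lit 1271250], [nat_lit 25, nat_lit 40, nat_lit 20, nat_lit 80]⟩,
 ⟨nat_lit 6708, nat_lit 6893, ⟨.ofNat (nat_lit 334402), .ofNat (nat_lit 598906), .ofNat (nat_lit 345146), .ofNat (nat_lit 609649), .ofNat (nat_lit 338407), .ofNat (nat_lit 596865), .ofNat (nat_lit 349126), .ofNat (nat_lit 607584)⟩, ⟨.ofNat (nat_lit 0), .ofNat (nat_lit 0), .ofNat (nat_lit 0), .ofNat (nat_lit 0), .ofNat (nat_lit 0), .ofNat (nat_lit 0), .ofNat (nat_lit 0), .ofNat (nat_lit 0)⟩⟩, [⟨nat_lit 13, nat_lit 100, nat_lit 5, nat_lit 100, nat_lit 87925682⟩]⟩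
noncomputable def p002_l220 : Lf2 := ⟨nat_lit 3, nat_lit 5, [nat_lit 4, nat_lit 5, nat_lit 5, nat_lit 20], false, nat_lit 0, nat_lit 0, nat_lit 0, nat_lit 0, zbN0,
 nat_lit 0, nat_lit 0, nat_lit 0, nat_lit 0, nat_lit 0, nat_lit 0, nat_lit 0, nat_lit 0, nat_lit 0, nat_lit 0, nat_lit 0, nat_lit 0, nat_lit 0, nat_lit 0, nat_lit 0, nat_lit 0, nat_lit 0, nat_lit 0, [],
 C1.Rw.none, ⟨p002_k52, nat_lit 0, nat_lit 0, nat_lit 371, nat_lit 0, nat_lit 240069, [], [], [], nat_lit 1271250, nat_lit 1271250, nat_lit 780000, nat_lit 1762500, nat_lit 0, nat_lit 0, [nat_lit 1412500, nat_lit 1271250, nat_lit 1271250], [nat_lit 53, nat_lit 40, nat_lit 20, nat_lit 80, nat_lit 14, nat_lit 345, nat_lit 125, nat_lit 9]⟩,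
 zbF0, []⟩
noncomputable def p002_l221 : Lf2 := ⟨nat_lit 0, nat_lit 5, [nat_lit 4, nat_lit 5, nat_lit 5, nat_lit 20], false, nat_lit 0, nat_lit 0, nat_lit 0, nat_lit 0, ⟨nat_lit 1000, nat_lit 0, nat_lit 0, nat_lit 0, nat_lit 0, nat_lit 0, nat_lit 0, nat_lit 0, nat_lit 0, nat_lit 0, nat_lit 0, nat_lit 0, nat_lit 0, nat_lit 0, nat_lit 0, nat_lit 0, false, false⟩,
 nat_lit 12468, nat_lit 0, nat_lit 7861, nat_lit 0, nat_lit 5343, nat_lit 8712, nat_lit 2153, nat_lit 0, nat_lit 0, nat_lit 2381, nat_lit 0, nat_lit 0, nat_lit 0, nat_lit 0, nat_lit 0, nat_lit 0, nat_lit 0, nat_lit 0, [],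
 ⟨p002_k52, nat_lit 0, nat_lit 0, nat_lit 379, nat_lit 0, nat_lit 240069, [nat_lit 6250000000, nat_lit 7968000001, nat_lit 11872000000], [], [nat_lit 36644344926, nat_lit 37200338530, nat_lit 43928917842, nat_lit 44208100428], nat_lit 1271250, nat_lit 1271250, nat_lit 1271250, nat_lit 1271250, nat_lit 0, nat_lit 0, [nat_lit 1412500, nat_lit 1271250, nat_lit 1271250], [nat_lit 53, nat_lit 40, nat_lit 20, nat_lit 80, nat_lit 14, nat_lit 401, nat_lit 175, nat_lit 10]⟩, ⟨p002_k52, nat_lit 0, nat_lit 0, nat_lit 379, nat_lit 0, nat_lit 240069, [nat_lit 6250000000, nat_lit 7968000000, nat_lit 11872000000], [], [nat_lit 29245404192, nat_lit 29853546752, nat_lit 39455752000, nat_lit 39931081024], nat_lit 1271250, nat_lit 1271250, nat_lit 1271250, nat_lit 1271250, nat_lit 0, nat_lit 0, [nat_lit 1412500, nat_lit 1271250, nat_lit 1271250], [nat_lit 53, nat_lit 40, nat_lit 20, nat_lit 80, nat_lit 14,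 nat_lit 401, nat_lit 175, nat_lit 10]⟩,
 zbF0, []⟩
noncomputable def b_NL_500_500_0_10 : St := ⟨false, nat_lit 1, nat_lit 1, nat_lit 1, nat_lit 20, nat_lit 200, nat_lit 220, nat_lit 200, nat_lit 220, nat_lit 120, nat_lit 400, nat_lit 0, nat_lit 0, nat_lit 0, nat_lit 0, nat_lit 0, nat_lit 0, nat_lit 0, nat_lit 20, nat_lit 0, nat_lit 0, nat_lit 0, nat_lit 0⟩
theorem d_NL_500_500_0_10 (h : EB TB.env) : Dead b_NL_500_500_0_10 := chkB_sound0 h (T :=
(.spl (nat_lit 2) (nat_lit 240)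
(.spl (nat_lit 8) (nat_lit 800)
(.spl (nat_lit 1) (nat_lit 210)
(.spl (nat_lit 7) (nat_lit 600)
(.spl (nat_lit 7) (nat_lit 300)
(.leaf p002_l185)
(.spl (nat_lit 8) (nat_lit 400)
(.spl (nat_lit 6) (nat_lit 8)
(.spl (nat_lit 0) (nat_lit 210)
(.spl (nat_lit 8) (nat_lit 200)
(.leaf p002_l186)
(.spl (nat_lit 8) (nat_lit 300)
(.leaf p002_l187)
(.spl (nat_lit 8) (nat_lit 360)
(.leaf p002_l188)
(.spl (nat_lit 8) (nat_lit 380)
(.leaf p002_l189)
(.spl (nat_lit 1) (nat_lit 205)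
(.spl (nat_lit 2) (nat_lit 160)
(.leaf p002_l190)
(.leaf p002_l191))
(.ord (.spl (nat_lit 2) (nat_lit 160)
(.leaf p002_l192)
(.leaf p002_l193))))))))
(.spl (nat_lit 2) (nat_lit 160)
(.leaf p002_l194)
(.leaf p002_l195)))
(.spl (nat_lit 2) (nat_lit 160)
(.leaf p002_l196)
(.leaf p002_l197)))
(.spl (nat_lit 8) (nat_lit 600)
(.spl (nat_lit 6) (nat_lit 8)
(.spl (nat_lit 0) (nat_lit 210)
(.spl (nat_lit 1) (nat_lit 205)
(.spl (nat_lit 2) (nat_lit 160)
(.leaf p002_l198)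
(.leaf p002_l199))
(.ord (.spl (nat_lit 2) (nat_lit 160)
(.leaf p002_l200)
(.leaf p002_l201))))
(.spl (nat_lit 2) (nat_lit 160)
(.leaf p002_l202)
(.leaf p002_l203)))
(.spl (nat_lit 2) (nat_lit 160)
(.leaf p002_l204)
(.leaf p002_l205)))
(.leaf p002_l206))))
(.leaf p002_l207))
(.ord (.spl (nat_lit 7) (nat_lit 600)
(.spl (nat_lit 7) (nat_lit 300)
(.leaf p002_l208)
(.spl (nat_lit 8) (nat_lit 400)
(.leaf p002_l209)
(.spl (nat_lit 8) (nat_lit 600)
(.spl (nat_lit 1) (nat_lit 215)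
(.spl (nat_lit 6) (nat_lit 8)
(.spl (nat_lit 1) (nat_lit 213)
(.spl (nat_lit 2) (nat_lit 160)
(.leaf p002_l210)
(.leaf p002_l211))
(.ord (.spl (nat_lit 2) (nat_lit 160)
(.leaf p002_l212)
(.leaf p002_l213))))
(.spl (nat_lit 2) (nat_lit 160)
(.leaf p002_l214)
(.leaf p002_l215)))
(.ord (.spl (nat_lit 2) (nat_lit 160)
(.leaf p002_l216)
(.leaf p002_l217))))
(.leaf p002_l218))))
(.leaf p002_l219))))
(.leaf p002_l220))
(.leaf p002_l221))) (by decide +kernel)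
noncomputable def p002_l222 : Lf2 := ⟨nat_lit 0, nat_lit 5, [nat_lit 4, nat_lit 5, nat_lit 5, nat_lit 20], true, nat_lit 0, nat_lit 0, nat_lit 0, nat_lit 0, ⟨nat_lit 0, nat_lit 1000, nat_lit 0, nat_lit 5, nat_lit 77, nat_lit 0, nat_lit 0, nat_lit 0, nat_lit 0, nat_lit 0, nat_lit 0, nat_lit 0, nat_lit 0, nat_lit 0, nat_lit 0, nat_lit 5000000, false, false⟩,
 nat_lit 0, nat_lit 11884, nat_lit 0, nat_lit 0, nat_lit 5093, nat_lit 0, nat_lit 231, nat_lit 0, nat_lit 0, nat_lit 0, nat_lit 0, nat_lit 0, nat_lit 0, nat_lit 48699422204111, nat_lit 0, nat_lit 1000000, nat_lit 0, nat_lit 0, [(nat_lit 0, [(nat_lit 2, nat_lit 1000)])],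
 ⟨p002_k52, nat_lit 0, nat_lit 0, nat_lit 544, nat_lit 0, nat_lit 307404, [nat_lit 3255555556, nat_lit 3786000001, nat_lit 1424399999], [], [nat_lit 29683794232, nat_lit 29896828917, nat_lit 31096855924, nat_lit 29845959101], nat_lit 1271250, nat_lit 1271250, nat_lit 0, nat_lit 780000, nat_lit 0, nat_lit 0, [nat_lit 1412500, nat_lit 1271250, nat_lit 1271250], [nat_lit 53, nat_lit 40, nat_lit 20, nat_lit 80, nat_lit 14, nat_lit 317, nat_lit 100, nat_lit 9]⟩, C1.Rw.none,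
 ⟨nat_lit 6892, nat_lit 7072, ⟨.ofNat (nat_lit 48814), .ofNat (nat_lit 319525), .ofNat (nat_lit 59588), .ofNat (nat_lit 330299), .ofNat (nat_lit 59146), .ofNat (nat_lit 323657), .ofNat (nat_lit 69890), .ofNat (nat_lit 334402)⟩, ⟨.ofNat (nat_lit 0), .ofNat (nat_lit 0), .ofNat (nat_lit 0), .ofNat (nat_lit 0), .ofNat (nat_lit 0), .ofNat (nat_lit 0), .ofNat (nat_lit 0), .ofNat (nat_lit 0)⟩⟩, []⟩
noncomputable def p002_l223 : Lf2 := ⟨nat_lit 0, nat_lit 5, [nat_lit 4, nat_lit 5, nat_lit 5, nat_lit 20], true, nat_lit 0, nat_lit 0, nat_lit 0, nat_lit 0, ⟨nat_lit 0, nat_lit 1000, nat_lit 0, nat_lit 5, nat_lit 82, nat_lit 0, nat_lit 0, nat_lit 0, nat_lit 0, nat_lit 0, nat_lit 0, nat_lit 0, nat_lit 0, nat_lit 0, nat_lit 0, nat_lit 5000000, false, false⟩,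
 nat_lit 0, nat_lit 7621, nat_lit 0, nat_lit 0, nat_lit 3453, nat_lit 0, nat_lit 2519, nat_lit 0, nat_lit 0, nat_lit 0, nat_lit 0, nat_lit 0, nat_lit 0, nat_lit 23809820140070, nat_lit 0, nat_lit 400000, nat_lit 0, nat_lit 0, [(nat_lit 0, [(nat_lit 1, nat_lit 1000)])],
 ⟨p002_k59, nat_lit 0, nat_lit 0, nat_lit 528, nat_lit 0, nat_lit 471720, [nat_lit 3314857143, nat_lit 3612000000, nat_lit 3592000000], [], [nat_lit 30000296661, nat_lit 30263926231, nat_lit 31040039022, nat_lit 30191944239], nat_lit 1271250, nat_lit 1271250, nat_lit 0, nat_lit 780000, nat_lit 0, nat_lit 0, [nat_lit 1412500, nat_lit 1271250, nat_lit 1271250], [nat_lit 25, nat_lit 40, nat_lit 20, nat_lit 80, nat_lit 17, nat_lit 317, nat_lit 100, nat_lit 10]⟩, C1.Rw.none,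
 ⟨nat_lit 6708, nat_lit 6893, ⟨.ofNat (nat_lit 59146), .ofNat (nat_lit 323657), .ofNat (nat_lit 80634), .ofNat (nat_lit 345146), .ofNat (nat_lit 69221), .ofNat (nat_lit 327688), .ofNat (nat_lit 90659), .ofNat (nat_lit 349126)⟩, ⟨.ofNat (nat_lit 0), .ofNat (nat_lit 0), .ofNat (nat_lit 0), .ofNat (nat_lit 0), .ofNat (nat_lit 0), .ofNat (nat_lit 0), .ofNat (nat_lit 0), .ofNat (nat_lit 0)⟩⟩, []⟩
noncomputable def p002_l224 : Lf2 := ⟨nat_lit 0, nat_lit 5, [nat_lit 4, nat_lit 5, nat_lit 5, nat_lit 20], false, nat_lit 0, nat_lit 0, nat_lit 0, nat_lit 0, ⟨nat_lit 1000, nat_lit 0, nat_lit 0, nat_lit 0, nat_lit 0, nat_lit 0, nat_lit 0, nat_lit 0, nat_lit 0, nat_lit 0, nat_lit 0, nat_lit 0, nat_lit 0, nat_lit 0, nat_lit 0, nat_lit 0, false, false⟩,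
 nat_lit 0, nat_lit 18078, nat_lit 0, nat_lit 4375, nat_lit 7747, nat_lit 21814, nat_lit 800, nat_lit 0, nat_lit 0, nat_lit 7083, nat_lit 0, nat_lit 0, nat_lit 0, nat_lit 31306605968408, nat_lit 0, nat_lit 0, nat_lit 0, nat_lit 0, [],
 ⟨p002_k52, nat_lit 0, nat_lit 0, nat_lit 533, nat_lit 0, nat_lit 510915, [nat_lit 6250000000, nat_lit 7968000001, nat_lit 11872000000], [], [nat_lit 44305200480, nat_lit 40212976600, nat_lit 40436202082, nat_lit 40665508332], nat_lit 1271250, nat_lit 1271250, nat_lit 780000, nat_lit 1762500, nat_lit 0, nat_lit 0, [nat_lit 1412500, nat_lit 1271250, nat_lit 1271250], [nat_lit 53, nat_lit 40, nat_lit 20, nat_lit 80, nat_lit 14, nat_lit 345, nat_lit 125, nat_lit 9]⟩, ⟨p002_k52, nat_lit 0, nat_lit 0, nat_lit 184, nat_lit 0, nat_lit 0, [nat_lit 6250000000, nat_lit 7968000000, nat_lit 11872000000], [], [nat_lit 7463713567, nat_lit 9629793680, nat_lit 19940545584,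 nat_lit 23560142920], nat_lit 0, nat_lit 0, nat_lit 0, nat_lit 0, nat_lit 0, nat_lit 0, [], [nat_lit 53, nat_lit 40, nat_lit 20, nat_lit 80, nat_lit 14, nat_lit 345, nat_lit 125, nat_lit 9]⟩,
 zbF0, []⟩
noncomputable def p002_l225 : Lf2 := ⟨nat_lit 0, nat_lit 5, [nat_lit 4, nat_lit 5, nat_lit 5, nat_lit 20], false, nat_lit 0, nat_lit 0, nat_lit 0, nat_lit 0, ⟨nat_lit 1000, nat_lit 0, nat_lit 0, nat_lit 0, nat_lit 0, nat_lit 0, nat_lit 0, nat_lit 0, nat_lit 0, nat_lit 0, nat_lit 0, nat_lit 0, nat_lit 0, nat_lit 0, nat_lit 0, nat_lit 0, false, false⟩,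
 nat_lit 0, nat_lit 18900, nat_lit 0, nat_lit 0, nat_lit 8100, nat_lit 7331, nat_lit 1956, nat_lit 0, nat_lit 0, nat_lit 2638, nat_lit 0, nat_lit 0, nat_lit 0, nat_lit 0, nat_lit 0, nat_lit 0, nat_lit 0, nat_lit 0, [],
 ⟨p002_k52, nat_lit 0, nat_lit 0, nat_lit 504, nat_lit 0, nat_lit 510915, [nat_lit 6250000000, nat_lit 7968000001, nat_lit 11872000000], [], [nat_lit 35532091603, nat_lit 35887342403, nat_lit 41701819603, nat_lit 41779924803], nat_lit 1271250, nat_lit 1271250, nat_lit 1271250, nat_lit 1271250, nat_lit 0, nat_lit 0, [nat_lit 1412500, nat_lit 1271250, nat_lit 1271250], [nat_lit 53, nat_lit 40, nat_lit 20, nat_lit 80, nat_lit 14, nat_lit 401, nat_lit 175, nat_lit 10]⟩, ⟨p002_k52, nat_lit 0, nat_lit 0, nat_lit 255, nat_lit 0, nat_lit 0, [nat_lit 6250000000, nat_lit 7968000000, nat_lit 11872000000], [], [nat_lit 26066132618, nat_lit 26716377490, nat_lit 37523221812, nat_lit 37910484656],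 nat_lit 0, nat_lit 0, nat_lit 0, nat_lit 0, nat_lit 0, nat_lit 0, [], [nat_lit 53, nat_lit 40, nat_lit 20, nat_lit 80, nat_lit 14, nat_lit 401, nat_lit 175, nat_lit 10]⟩,
 zbF0, []⟩
noncomputable def p002_l226 : Lf2 := ⟨nat_lit 0, nat_lit 5, [nat_lit 4, nat_lit 5, nat_lit 5, nat_lit 20], false, nat_lit 0, nat_lit 0, nat_lit 0, nat_lit 0, ⟨nat_lit 19, nat_lit 981, nat_lit 0, nat_lit 5, nat_lit 81, nat_lit 0, nat_lit 0, nat_lit 0, nat_lit 0, nat_lit 0, nat_lit 0, nat_lit 0, nat_lit 0, nat_lit 0, nat_lit 0, nat_lit 5000000, false, false⟩,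
 nat_lit 17203, nat_lit 0, nat_lit 0, nat_lit 0, nat_lit 7372, nat_lit 692, nat_lit 722, nat_lit 0, nat_lit 0, nat_lit 145, nat_lit 0, nat_lit 0, nat_lit 0, nat_lit 34239775639453, nat_lit 0, nat_lit 981000, nat_lit 0, nat_lit 0, [(nat_lit 0, [(nat_lit 2, nat_lit 981)])],
 ⟨p002_k52, nat_lit 0, nat_lit 0, nat_lit 519, nat_lit 0, nat_lit 240069, [nat_lit 3312450001, nat_lit 3865458001, nat_lit 1619940399], [], [nat_lit 26659826579, nat_lit 25498866987, nat_lit 30415175027, nat_lit 26793886443], nat_lit 1271250, nat_lit 1271250, nat_lit 0, nat_lit 780000, nat_lit 0, nat_lit 0, [nat_lit 1412500, nat_lit 1271250, nat_lit 1271250], [nat_lit 53, nat_lit 40, nat_lit 20, nat_lit 80, nat_lit 14, nat_lit 317, nat_lit 100, nat_lit 9]⟩, ⟨p002_k52, nat_lit 0, nat_lit 0, nat_lit 519, nat_lit 0, nat_lit 240069, [nat_lit 118750000, nat_lit 151392000, nat_lit 225568000], [], [nat_lit 1062510416, nat_lit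 1209215292, nat_lit 538901692, nat_lit 208420838], nat_lit 1271250, nat_lit 1271250, nat_lit 0, nat_lit 780000, nat_lit 0, nat_lit 0, [nat_lit 1412500, nat_lit 1271250, nat_lit 1271250], [nat_lit 53, nat_lit 40, nat_lit 20, nat_lit 80, nat_lit 14, nat_lit 317, nat_lit 100, nat_lit 9]⟩,
 ⟨nat_lit 6708, nat_lit 7072, ⟨.ofNat (nat_lit 48814), .ofNat (nat_lit 319525), .ofNat (nat_lit 70362), .ofNat (nat_lit 341073), .ofNat (nat_lit 69221), .ofNat (nat_lit 327688), .ofNat (nat_lit 90659), .ofNat (nat_lit 349126)⟩, ⟨.ofNat (nat_lit 0), .ofNat (nat_lit 0), .ofNat (nat_lit 0), .ofNat (nat_lit 0), .ofNat (nat_lit 0), .ofNat (nat_lit 0), .ofNat (nat_lit 0), .ofNat (nat_lit 0)⟩⟩, []⟩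
noncomputable def p002_l227 : Lf2 := ⟨nat_lit 0, nat_lit 5, [nat_lit 4, nat_lit 5, nat_lit 5, nat_lit 20], false, nat_lit 0, nat_lit 0, nat_lit 0, nat_lit 0, ⟨nat_lit 220, nat_lit 780, nat_lit 0, nat_lit 5, nat_lit 256, nat_lit 0, nat_lit 0, nat_lit 0, nat_lit 0, nat_lit 0, nat_lit 0, nat_lit 0, nat_lit 0, nat_lit 0, nat_lit 0, nat_lit 5000000, false, true⟩,
 nat_lit 8084, nat_lit 0, nat_lit 0, nat_lit 128, nat_lit 3464, nat_lit 1149, nat_lit 267, nat_lit 0, nat_lit 0, nat_lit 386, nat_lit 0, nat_lit 0, nat_lit 0, nat_lit 11973596673081, nat_lit 0, nat_lit 780000, nat_lit 0, nat_lit 0, [(nat_lit 0, [(nat_lit 2, nat_lit 780)])],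
 ⟨p002_k52, nat_lit 0, nat_lit 0, nat_lit 347, nat_lit 0, nat_lit 148009, [nat_lit 3914333334, nat_lit 4706040001, nat_lit 3688551999], [], [nat_lit 33107260428, nat_lit 32191486212, nat_lit 38722576716, nat_lit 38266936720], nat_lit 1271250, nat_lit 1271250, nat_lit 780000, nat_lit 3072500, nat_lit 0, nat_lit 0, [nat_lit 1412500, nat_lit 1271250, nat_lit 1271250], [nat_lit 53, nat_lit 40, nat_lit 20, nat_lit 80, nat_lit 14, nat_lit 401, nat_lit 175, nat_lit 11]⟩, ⟨p002_k52, nat_lit 0, nat_lit 0, nat_lit 347, nat_lit 0, nat_lit 148009, [nat_lit 1375000000, nat_lit 1752960000, nat_lit 2611840000], [], [nat_lit 8900894800, nat_lit 8597134819, nat_lit 10008964608, nat_lit 9739186446], nat_lit 1271250, nat_lit 1271250, nat_lit 780000, nat_lit 3072500, nat_lit 0, nat_lit 0, [nat_lit 1412500, nat_lit 1271250, nat_lit 1271250], [nat_lit 53, nat_lit 40, nat_lit 20, nat_lit 80, nat_lit 14, nat_lit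 401, nat_lit 175, nat_lit 11]⟩,
 ⟨nat_lit 6892, nat_lit 7072, ⟨.ofNat (nat_lit 319525), .ofNat (nat_lit 951140), .ofNat (nat_lit 330299), .ofNat (nat_lit 961913), .ofNat (nat_lit 323657), .ofNat (nat_lit 940808), .ofNat (nat_lit 334402), .ofNat (nat_lit 951552)⟩, ⟨.ofNat (nat_lit 0), .ofNat (nat_lit 0), .ofNat (nat_lit 0), .ofNat (nat_lit 0), .ofNat (nat_lit 0), .ofNat (nat_lit 0), .ofNat (nat_lit 0), .ofNat (nat_lit 0)⟩⟩, []⟩
noncomputable def p002_l228 : Lf2 := ⟨nat_lit 0, nat_lit 5, [nat_lit 4, nat_lit 5, nat_lit 5, nat_lit 20], false, nat_lit 0, nat_lit 0, nat_lit 0, nat_lit 0, ⟨nat_lit 239, nat_lit 761, nat_lit 0, nat_lit 5, nat_lit 257, nat_lit 0, nat_lit 0, nat_lit 0, nat_lit 0, nat_lit 0, nat_lit 0, nat_lit 0, nat_lit 0, nat_lit 0, nat_lit 0, nat_lit 5000000, false, true⟩,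
 nat_lit 3245, nat_lit 4460, nat_lit 0, nat_lit 0, nat_lit 3492, nat_lit 1390, nat_lit 701, nat_lit 0, nat_lit 0, nat_lit 418, nat_lit 0, nat_lit 0, nat_lit 0, nat_lit 6973939469451, nat_lit 0, nat_lit 304400, nat_lit 0, nat_lit 0, [(nat_lit 0, [(nat_lit 1, nat_lit 761)])],
 ⟨p002_k59, nat_lit 0, nat_lit 0, nat_lit 328, nat_lit 0, nat_lit 226055, [nat_lit 4016356286, nat_lit 4653084000, nat_lit 5085750000], [], [nat_lit 32430797304, nat_lit 31507620756, nat_lit 38126034668, nat_lit 37944570439], nat_lit 1271250, nat_lit 1271250, nat_lit 780000, nat_lit 3072500, nat_lit 0, nat_lit 0, [nat_lit 1412500, nat_lit 1271250, nat_lit 1271250], [nat_lit 25, nat_lit 40, nat_lit 20, nat_lit 80, nat_lit 17, nat_lit 401, nat_lit 175, nat_lit 12]⟩, ⟨p002_k52, nat_lit 0, nat_lit 0, nat_lit 379, nat_lit 0, nat_lit 240069, [nat_lit 1493750000, nat_lit 1904352000, nat_lit 2837408000], [], [nat_lit 9885640468,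 nat_lit 9150694648, nat_lit 11042764348, nat_lit 10380398852], nat_lit 1271250, nat_lit 1271250, nat_lit 780000, nat_lit 3072500, nat_lit 0, nat_lit 0, [nat_lit 1412500, nat_lit 1271250, nat_lit 1271250], [nat_lit 53, nat_lit 40, nat_lit 20, nat_lit 80, nat_lit 14, nat_lit 401, nat_lit 175, nat_lit 11]⟩,
 ⟨nat_lit 6708, nat_lit 6893, ⟨.ofNat (nat_lit 323657), .ofNat (nat_lit 940811), .ofNat (nat_lit 345146), .ofNat (nat_lit 962298), .ofNat (nat_lit 327688), .ofNat (nat_lit 930735), .ofNat (nat_lit 349126), .ofNat (nat_lit 952172)⟩, ⟨.ofNat (nat_lit 0), .ofNat (nat_lit 0), .ofNat (nat_lit 0), .ofNat (nat_lit 0), .ofNat (nat_lit 0), .ofNat (nat_lit 0), .ofNat (nat_lit 0), .ofNat (nat_lit 0)⟩⟩, []⟩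
noncomputable def b_NL_500_500_0_11 : St := ⟨false, nat_lit 1, nat_lit 2, nat_lit 2, nat_lit 20, nat_lit 200, nat_lit 220, nat_lit 200, nat_lit 220, nat_lit 0, nat_lit 400, nat_lit 0, nat_lit 0, nat_lit 0, nat_lit 0, nat_lit 0, nat_lit 0, nat_lit 0, nat_lit 20, nat_lit 0, nat_lit 0, nat_lit 0, nat_lit 0⟩
theorem d_NL_500_500_0_11 (h : EB TB.env) : Dead b_NL_500_500_0_11 := chkB_sound0 h (T :=
(.st (nat_lit 1)
(.spl (nat_lit 2) (nat_lit 240)
(.spl (nat_lit 2) (nat_lit 120)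
(.spl (nat_lit 0) (nat_lit 210)
(.ord (.leaf p002_l222))
(.leaf p002_l223))
(.leaf p002_l224))
(.leaf p002_l225))
(.spl (nat_lit 2) (nat_lit 120)
(.leaf p002_l226)
(.spl (nat_lit 0) (nat_lit 210)
(.ord (.leaf p002_l227))
(.leaf p002_l228))))) (by decide +kernel)

end B2
end Pool.Agent.Lib.MP_6947cd_al
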