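import Pool.Agent.Lib.MP_6947cd_al.ZB.Pre

/-!
Problem MP_6947cd_al (Chollet).  Case B, second entry in [2/5, 17/20]: certificates of the tree, part P003 (generated).
-/

set_option autoImplicit false
set_option linter.all false

namespace Pool.Agent.Lib.MP_6947cd_al
namespace B2

open Ent Fr B1 PkA

noncomputable def p003_k0 : C1.Kn := ⟨[nat_lit 100, nat_lit 140], [nat_lit 0, nat_lit 508], [(nat_lit 0, nat_lit 0, nat_lit 0), (nat_lit 1000, nat_lit 1000, nat_lit 198)], (nat_lit 100, nat_lit 94, nat_lit 44)⟩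
noncomputable def p003_k1 : C1.Kn := ⟨[nat_lit 120, nat_lit 180], [nat_lit 0, nat_lit 0], [(nat_lit 0, nat_lit 0, nat_lit 0), (nat_lit 0, nat_lit 0, nat_lit 0)], (nat_lit 100, nat_lit 81, nat_lit 44)⟩
noncomputable def p003_k2 : C1.Kn := ⟨[nat_lit 100, nat_lit 120], [nat_lit 0, nat_lit 254], [(nat_lit 0, nat_lit 0, nat_lit 0), (nat_lit 1000, nat_lit 1000, nat_lit 198)], (nat_lit 100, nat_lit 99, nat_lit 28)⟩
noncomputable def p003_k3 : C1.Kn := ⟨[nat_lit 120, nat_lit 160], [nat_lit 0, nat_lit 0], [(nat_lit 0, nat_lit 0, nat_lit 0), (nat_lit 0, nat_lit 0, nat_lit 0)], (nat_lit 100, nat_lit 90, nat_lit 29)⟩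
noncomputable def p003_k4 : C1.Kn := ⟨[nat_lit 100, nat_lit 120], [nat_lit 0, nat_lit 383], [(nat_lit 0, nat_lit 0, nat_lit 0), (nat_lit 1000, nat_lit 1000, nat_lit 299)], (nat_lit 100, nat_lit 100, nat_lit 28)⟩
noncomputable def p003_k5 : C1.Kn := ⟨[nat_lit 120, nat_lit 140, nat_lit 160], [nat_lit 0, nat_lit 0, nat_lit 609], [(nat_lit 0, nat_lit 0, nat_lit 0), (nat_lit 0, nat_lit 0, nat_lit 0), (nat_lit 840, nat_lit 1000, nat_lit 400)], (nat_lit 100, nat_lit 90, nat_lit 29)⟩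
noncomputable def p003_k6 : C1.Kn := ⟨[nat_lit 120, nat_lit 140, nat_lit 160], [nat_lit 0, nat_lit 132, nat_lit 736], [(nat_lit 0, nat_lit 0, nat_lit 0), (nat_lit 980, nat_lit 1000, nat_lit 101), (nat_lit 856, nat_lit 1000, nat_lit 404)], (nat_lit 100, nat_lit 92, nat_lit 28)⟩
noncomputable def p003_k7 : C1.Kn := ⟨[nat_lit 100, nat_lit 120, nat_lit 140], [nat_lit 0, nat_lit 254, nat_lit 778], [(nat_lit 0, nat_lit 0, nat_lit 0), (nat_lit 1000, nat_lit 1000, nat_lit 198), (nat_lit 960, nat_lit 1000, nat_lit 392)], (nat_lit 100, nat_lit 94, nat_lit 44)⟩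
noncomputable def p003_k8 : C1.Kn := ⟨[nat_lit 120, nat_lit 140, nat_lit 180], [nat_lit 0, nat_lit 0, nat_lit 1219], [(nat_lit 0, nat_lit 0, nat_lit 0), (nat_lit 0, nat_lit 0, nat_lit 0), (nat_lit 840, nat_lit 1000, nat_lit 400)], (nat_lit 100, nat_lit 81, nat_lit 44)⟩
noncomputable def p003_k9 : C1.Kn := ⟨[nat_lit 100, nat_lit 140], [nat_lit 0, nat_lit 508], [(nat_lit 0, nat_lit 0, nat_lit 0), (nat_lit 1000, nat_lit 1000, nat_lit 198)], (nat_lit 100, nat_lit 97, nat_lit 34)⟩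
noncomputable def p003_k10 : C1.Kn := ⟨[nat_lit 100, nat_lit 140], [nat_lit 0, nat_lit 640], [(nat_lit 0, nat_lit 0, nat_lit 0), (nat_lit 1000, nat_lit 1000, nat_lit 250)], (nat_lit 100, nat_lit 98, nat_lit 34)⟩
noncomputable def p003_k11 : C1.Kn := ⟨[nat_lit 100, nat_lit 140], [nat_lit 0, nat_lit 766], [(nat_lit 0, nat_lit 0, nat_lit 0), (nat_lit 1000, nat_lit 1000, nat_lit 299)], (nat_lit 100, nat_lit 97, nat_lit 44)⟩
noncomputable def p003_k12 : C1.Kn := ⟨[nat_lit 120, nat_lit 160, nat_lit 180], [nat_lit 0, nat_lit 0, nat_lit 1613], [(nat_lit 0, nat_lit 0, nat_lit 0), (nat_lit 0, nat_lit 0, nat_lit 0), (nat_lit 620, nat_lit 1000, nat_lit 670)], (nat_lit 100, nat_lit 81, nat_lit 44)⟩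
noncomputable def p003_k13 : C1.Kn := ⟨[nat_lit 100, nat_lit 120, nat_lit 140], [nat_lit 0, nat_lit 383, nat_lit 902], [(nat_lit 0, nat_lit 0, nat_lit 0), (nat_lit 1000, nat_lit 1000, nat_lit 299), (nat_lit 979, nat_lit 1000, nat_lit 397)], (nat_lit 100, nat_lit 97, nat_lit 44)⟩
noncomputable def p003_k14 : C1.Kn := ⟨[nat_lit 120, nat_lit 140, nat_lit 160], [nat_lit 0, nat_lit 132, nat_lit 736], [(nat_lit 0, nat_lit 0, nat_lit 0), (nat_lit 980, nat_lit 1000, nat_lit 101), (nat_lit 856, nat_lit 1000, nat_lit 404)], (nat_lit 100, nat_lit 83, nat_lit 44)⟩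
noncomputable def p003_k15 : C1.Kn := ⟨[nat_lit 120, nat_lit 140, nat_lit 160], [nat_lit 0, nat_lit 266, nat_lit 862], [(nat_lit 0, nat_lit 0, nat_lit 0), (nat_lit 960, nat_lit 1000, nat_lit 200), (nat_lit 874, nat_lit 1000, nat_lit 406)], (nat_lit 100, nat_lit 86, nat_lit 44)⟩
noncomputable def p003_k16 : C1.Kn := ⟨[nat_lit 90, nat_lit 110, nat_lit 120], [nat_lit 0, nat_lit 0, nat_lit 288], [(nat_lit 0, nat_lit 0, nat_lit 0), (nat_lit 0, nat_lit 0, nat_lit 0), (nat_lit 987, nat_lit 1000, nat_lit 285)], (nat_lit 100, nat_lit 99, nat_lit 28)⟩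
noncomputable def p003_k17 : C1.Kn := ⟨[nat_lit 120, nat_lit 140], [nat_lit 0, nat_lit 266], [(nat_lit 0, nat_lit 0, nat_lit 0), (nat_lit 960, nat_lit 1000, nat_lit 200)], (nat_lit 100, nat_lit 93, nat_lit 28)⟩
noncomputable def p003_k18 : C1.Kn := ⟨[nat_lit 100, nat_lit 120, nat_lit 140], [nat_lit 0, nat_lit 254, nat_lit 778], [(nat_lit 0, nat_lit 0, nat_lit 0), (nat_lit 1000, nat_lit 1000, nat_lit 198), (nat_lit 960, nat_lit 1000, nat_lit 392)], (nat_lit 100, nat_lit 96, nat_lit 39)⟩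
noncomputable def p003_k19 : C1.Kn := ⟨[nat_lit 100, nat_lit 120], [nat_lit 0, nat_lit 383], [(nat_lit 0, nat_lit 0, nat_lit 0), (nat_lit 1000, nat_lit 1000, nat_lit 299)], (nat_lit 99, nat_lit 100, nat_lit 20)⟩
noncomputable def p003_k20 : C1.Kn := ⟨[nat_lit 60, nat_lit 110, nat_lit 130], [nat_lit 0, nat_lit 0, nat_lit 153], [(nat_lit 0, nat_lit 0, nat_lit 0), (nat_lit 0, nat_lit 0, nat_lit 0), (nat_lit 988, nat_lit 1000, nat_lit 118)], (nat_lit 100, nat_lit 97, nat_lit 20)⟩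
noncomputable def p003_k21 : C1.Kn := ⟨[nat_lit 120, nat_lit 140], [nat_lit 0, nat_lit 426], [(nat_lit 0, nat_lit 0, nat_lit 0), (nat_lit 938, nat_lit 1000, nat_lit 312)], (nat_lit 100, nat_lit 97, nat_lit 20)⟩
noncomputable def p003_k22 : C1.Kn := ⟨[nat_lit 100, nat_lit 120], [nat_lit 0, nat_lit 396], [(nat_lit 0, nat_lit 0, nat_lit 0), (nat_lit 1000, nat_lit 1000, nat_lit 309)], (nat_lit 99, nat_lit 100, nat_lit 20)⟩
noncomputable def p003_k23 : C1.Kn := ⟨[nat_lit 90, nat_lit 110], [nat_lit 0, nat_lit 129], [(nat_lit 0, nat_lit 0, nat_lit 0), (nat_lit 1000, nat_lit 990, nat_lit 101)], (nat_lit 99, nat_lit 100, nat_lit 20)⟩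
noncomputable def p003_k24 : C1.Kn := ⟨[nat_lit 120, nat_lit 140], [nat_lit 0, nat_lit 439], [(nat_lit 0, nat_lit 0, nat_lit 0), (nat_lit 936, nat_lit 1000, nat_lit 321)], (nat_lit 100, nat_lit 97, nat_lit 20)⟩
noncomputable def p003_k25 : C1.Kn := ⟨[nat_lit 120, nat_lit 140], [nat_lit 0, nat_lit 452], [(nat_lit 0, nat_lit 0, nat_lit 0), (nat_lit 935, nat_lit 1000, nat_lit 327)], (nat_lit 100, nat_lit 97, nat_lit 20)⟩
noncomputable def p003_k26 : C1.Kn := ⟨[nat_lit 60, nat_lit 110, nat_lit 130], [nat_lit 0, nat_lit 0, nat_lit 180], [(nat_lit 0, nat_lit 0, nat_lit 0), (nat_lit 0, nat_lit 0, nat_lit 0), (nat_lit 986, nat_lit 1000, nat_lit 139)], (nat_lit 100, nat_lit 97, nat_lit 20)⟩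
noncomputable def p003_k27 : C1.Kn := ⟨[nat_lit 100, nat_lit 120], [nat_lit 0, nat_lit 409], [(nat_lit 0, nat_lit 0, nat_lit 0), (nat_lit 1000, nat_lit 1000, nat_lit 319)], (nat_lit 99, nat_lit 100, nat_lit 20)⟩
noncomputable def p003_k28 : C1.Kn := ⟨[nat_lit 100, nat_lit 120], [nat_lit 0, nat_lit 422], [(nat_lit 0, nat_lit 0, nat_lit 0), (nat_lit 1000, nat_lit 1000, nat_lit 329)], (nat_lit 99, nat_lit 100, nat_lit 20)⟩
noncomputable def p003_k29 : C1.Kn := ⟨[nat_lit 120, nat_lit 140], [nat_lit 0, nat_lit 466], [(nat_lit 0, nat_lit 0, nat_lit 0), (nat_lit 933, nat_lit 1000, nat_lit 338)], (nat_lit 100, nat_lit 98, nat_lit 20)⟩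
noncomputable def p003_k30 : C1.Kn := ⟨[nat_lit 90, nat_lit 110, nat_lit 120], [nat_lit 0, nat_lit 129, nat_lit 392], [(nat_lit 0, nat_lit 0, nat_lit 0), (nat_lit 1000, nat_lit 990, nat_lit 101), (nat_lit 993, nat_lit 1000, nat_lit 341)], (nat_lit 100, nat_lit 100, nat_lit 28)⟩
noncomputable def p003_k31 : C1.Kn := ⟨[nat_lit 120, nat_lit 140], [nat_lit 0, nat_lit 506], [(nat_lit 0, nat_lit 0, nat_lit 0), (nat_lit 928, nat_lit 1000, nat_lit 365)], (nat_lit 100, nat_lit 96, nat_lit 28)⟩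
noncomputable def p003_k32 : C1.Kn := ⟨[nat_lit 120, nat_lit 140], [nat_lit 0, nat_lit 519], [(nat_lit 0, nat_lit 0, nat_lit 0), (nat_lit 927, nat_lit 1000, nat_lit 371)], (nat_lit 100, nat_lit 96, nat_lit 28)⟩
noncomputable def p003_k33 : C1.Kn := ⟨[nat_lit 100, nat_lit 120], [nat_lit 0, nat_lit 396], [(nat_lit 0, nat_lit 0, nat_lit 0), (nat_lit 1000, nat_lit 1000, nat_lit 309)], (nat_lit 100, nat_lit 100, nat_lit 28)⟩
noncomputable def p003_k34 : C1.Kn := ⟨[nat_lit 90, nat_lit 110, nat_lit 120], [nat_lit 0, nat_lit 141, nat_lit 403], [(nat_lit 0, nat_lit 0, nat_lit 0), (nat_lit 1000, nat_lit 989, nat_lit 110), (nat_lit 994, nat_lit 1000, nat_lit 343)], (nat_lit 100, nat_lit 100, nat_lit 28)⟩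
noncomputable def p003_k35 : C1.Kn := ⟨[nat_lit 100, nat_lit 120], [nat_lit 0, nat_lit 409], [(nat_lit 0, nat_lit 0, nat_lit 0), (nat_lit 1000, nat_lit 1000, nat_lit 319)], (nat_lit 99, nat_lit 100, nat_lit 28)⟩
noncomputable def p003_k36 : C1.Kn := ⟨[nat_lit 100, nat_lit 120], [nat_lit 0, nat_lit 422], [(nat_lit 0, nat_lit 0, nat_lit 0), (nat_lit 1000, nat_lit 1000, nat_lit 329)], (nat_lit 99, nat_lit 100, nat_lit 28)⟩
noncomputable def p003_k37 : C1.Kn := ⟨[nat_lit 100, nat_lit 120], [nat_lit 0, nat_lit 448], [(nat_lit 0, nat_lit 0, nat_lit 0), (nat_lit 1000, nat_lit 1000, nat_lit 350)], (nat_lit 98, nat_lit 100, nat_lit 20)⟩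
noncomputable def p003_k38 : C1.Kn := ⟨[nat_lit 60, nat_lit 110, nat_lit 130], [nat_lit 0, nat_lit 0, nat_lit 232], [(nat_lit 0, nat_lit 0, nat_lit 0), (nat_lit 0, nat_lit 0, nat_lit 0), (nat_lit 982, nat_lit 1000, nat_lit 178)], (nat_lit 100, nat_lit 98, nat_lit 20)⟩
noncomputable def p003_k39 : C1.Kn := ⟨[nat_lit 120, nat_lit 140], [nat_lit 0, nat_lit 506], [(nat_lit 0, nat_lit 0, nat_lit 0), (nat_lit 928, nat_lit 1000, nat_lit 365)], (nat_lit 100, nat_lit 98, nat_lit 20)⟩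
noncomputable def p003_k40 : C1.Kn := ⟨[nat_lit 90, nat_lit 110], [nat_lit 0, nat_lit 192], [(nat_lit 0, nat_lit 0, nat_lit 0), (nat_lit 1000, nat_lit 985, nat_lit 150)], (nat_lit 98, nat_lit 100, nat_lit 20)⟩
noncomputable def p003_k41 : C1.Kn := ⟨[nat_lit 120, nat_lit 140], [nat_lit 0, nat_lit 519], [(nat_lit 0, nat_lit 0, nat_lit 0), (nat_lit 927, nat_lit 1000, nat_lit 371)], (nat_lit 100, nat_lit 98, nat_lit 20)⟩
noncomputable def p003_k42 : C1.Kn := ⟨[nat_lit 60, nat_lit 110, nat_lit 130], [nat_lit 0, nat_lit 0, nat_lit 244], [(nat_lit 0, nat_lit 0, nat_lit 0), (nat_lit 0, nat_lit 0, nat_lit 0), (nat_lit 981, nat_lit 1000, nat_lit 187)], (nat_lit 100, nat_lit 98, nat_lit 20)⟩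
noncomputable def p003_k43 : C1.Kn := ⟨[nat_lit 100, nat_lit 120], [nat_lit 0, nat_lit 460], [(nat_lit 0, nat_lit 0, nat_lit 0), (nat_lit 1000, nat_lit 999, nat_lit 357)], (nat_lit 98, nat_lit 100, nat_lit 20)⟩
noncomputable def p003_k44 : C1.Kn := ⟨[nat_lit 100, nat_lit 120], [nat_lit 0, nat_lit 473], [(nat_lit 0, nat_lit 0, nat_lit 0), (nat_lit 1000, nat_lit 999, nat_lit 367)], (nat_lit 98, nat_lit 100, nat_lit 20)⟩
noncomputable def p003_k45 : C1.Kn := ⟨[nat_lit 100, nat_lit 120], [nat_lit 0, nat_lit 486], [(nat_lit 0, nat_lit 0, nat_lit 0), (nat_lit 1000, nat_lit 999, nat_lit 375)], (nat_lit 98, nat_lit 100, nat_lit 20)⟩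
noncomputable def p003_k46 : C1.Kn := ⟨[nat_lit 100, nat_lit 120], [nat_lit 0, nat_lit 448], [(nat_lit 0, nat_lit 0, nat_lit 0), (nat_lit 1000, nat_lit 1000, nat_lit 350)], (nat_lit 99, nat_lit 100, nat_lit 28)⟩
noncomputable def p003_k47 : C1.Kn := ⟨[nat_lit 90, nat_lit 110], [nat_lit 0, nat_lit 141], [(nat_lit 0, nat_lit 0, nat_lit 0), (nat_lit 1000, nat_lit 989, nat_lit 110)], (nat_lit 99, nat_lit 100, nat_lit 20)⟩
noncomputable def p003_k48 : C1.Kn := ⟨[nat_lit 90, nat_lit 110], [nat_lit 0, nat_lit 205], [(nat_lit 0, nat_lit 0, nat_lit 0), (nat_lit 1000, nat_lit 984, nat_lit 160)], (nat_lit 98, nat_lit 100, nat_lit 20)⟩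
noncomputable def p003_k49 : C1.Kn := ⟨[nat_lit 100, nat_lit 120, nat_lit 140], [nat_lit 0, nat_lit 320, nat_lit 839], [(nat_lit 0, nat_lit 0, nat_lit 0), (nat_lit 1000, nat_lit 1000, nat_lit 250), (nat_lit 970, nat_lit 1000, nat_lit 393)], (nat_lit 100, nat_lit 95, nat_lit 44)⟩
noncomputable def p003_k50 : C1.Kn := ⟨[nat_lit 100, nat_lit 120, nat_lit 160], [nat_lit 0, nat_lit 0, nat_lit 1063], [(nat_lit 0, nat_lit 0, nat_lit 0), (nat_lit 0, nat_lit 0, nat_lit 0), (nat_lit 924, nat_lit 1000, nat_lit 383)], (nat_lit 100, nat_lit 90, nat_lit 44)⟩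
noncomputable def p003_k51 : C1.Kn := ⟨[nat_lit 100, nat_lit 120, nat_lit 140], [nat_lit 0, nat_lit 128, nat_lit 655], [(nat_lit 0, nat_lit 0, nat_lit 0), (nat_lit 1000, nat_lit 1000, nat_lit 100), (nat_lit 941, nat_lit 1000, nat_lit 388)], (nat_lit 100, nat_lit 92, nat_lit 44)⟩
noncomputable def p003_k52 : C1.Kn := ⟨[nat_lit 90, nat_lit 110], [nat_lit 0, nat_lit 0], [(nat_lit 0, nat_lit 0, nat_lit 0), (nat_lit 0, nat_lit 0, nat_lit 0)], (nat_lit 100, nat_lit 100, nat_lit 20)⟩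
noncomputable def p003_k53 : C1.Kn := ⟨[nat_lit 90, nat_lit 110], [nat_lit 0, nat_lit 61], [(nat_lit 0, nat_lit 0, nat_lit 0), (nat_lit 1000, nat_lit 995, nat_lit 48)], (nat_lit 99, nat_lit 100, nat_lit 20)⟩
noncomputable def p003_k54 : C1.Kn := ⟨[nat_lit 100, nat_lit 120], [nat_lit 0, nat_lit 320], [(nat_lit 0, nat_lit 0, nat_lit 0), (nat_lit 1000, nat_lit 1000, nat_lit 250)], (nat_lit 100, nat_lit 100, nat_lit 28)⟩
noncomputable def p003_k55 : C1.Kn := ⟨[nat_lit 100, nat_lit 120], [nat_lit 0, nat_lit 332], [(nat_lit 0, nat_lit 0, nat_lit 0), (nat_lit 1000, nat_lit 1000, nat_lit 260)], (nat_lit 100, nat_lit 100, nat_lit 28)⟩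
noncomputable def p003_k56 : C1.Kn := ⟨[nat_lit 90, nat_lit 100, nat_lit 120], [nat_lit 0, nat_lit 38, nat_lit 294], [(nat_lit 0, nat_lit 0, nat_lit 0), (nat_lit 1000, nat_lit 994, nat_lit 60), (nat_lit 1000, nat_lit 994, nat_lit 200)], (nat_lit 100, nat_lit 100, nat_lit 28)⟩
noncomputable def p003_k57 : C1.Kn := ⟨[nat_lit 50, nat_lit 90, nat_lit 110, nat_lit 120], [nat_lit 0, nat_lit 0, nat_lit 76, nat_lit 348], [(nat_lit 0, nat_lit 0, nat_lit 0), (nat_lit 0, nat_lit 0, nat_lit 0), (nat_lit 1000, nat_lit 994, nat_lit 60), (nat_lit 991, nat_lit 1000, nat_lit 315)], (nat_lit 100, nat_lit 100, nat_lit 28)⟩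
noncomputable def p003_k58 : C1.Kn := ⟨[nat_lit 90, nat_lit 100, nat_lit 120], [nat_lit 0, nat_lit 44, nat_lit 301], [(nat_lit 0, nat_lit 0, nat_lit 0), (nat_lit 1000, nat_lit 993, nat_lit 69), (nat_lit 1000, nat_lit 993, nat_lit 201)], (nat_lit 100, nat_lit 100, nat_lit 28)⟩
noncomputable def p003_k59 : C1.Kn := ⟨[nat_lit 90, nat_lit 100, nat_lit 120], [nat_lit 0, nat_lit 31, nat_lit 289], [(nat_lit 0, nat_lit 0, nat_lit 0), (nat_lit 1000, nat_lit 995, nat_lit 48), (nat_lit 1000, nat_lit 995, nat_lit 202)], (nat_lit 100, nat_lit 100, nat_lit 28)⟩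
noncomputable def p003_k60 : C1.Kn := ⟨[nat_lit 100, nat_lit 120], [nat_lit 0, nat_lit 358], [(nat_lit 0, nat_lit 0, nat_lit 0), (nat_lit 1000, nat_lit 1000, nat_lit 279)], (nat_lit 100, nat_lit 100, nat_lit 28)⟩
noncomputable def p003_k61 : C1.Kn := ⟨[nat_lit 90, nat_lit 100, nat_lit 120], [nat_lit 0, nat_lit 0, nat_lit 254], [(nat_lit 0, nat_lit 0, nat_lit 0), (nat_lit 0, nat_lit 0, nat_lit 0), (nat_lit 1000, nat_lit 1000, nat_lit 198)], (nat_lit 100, nat_lit 99, nat_lit 28)⟩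
noncomputable def p003_k62 : C1.Kn := ⟨[nat_lit 90, nat_lit 100, nat_lit 120], [nat_lit 0, nat_lit 64, nat_lit 318], [(nat_lit 0, nat_lit 0, nat_lit 0), (nat_lit 1000, nat_lit 990, nat_lit 101), (nat_lit 1000, nat_lit 990, nat_lit 198)], (nat_lit 100, nat_lit 100, nat_lit 28)⟩
noncomputable def p003_k63 : C1.Kn := ⟨[nat_lit 100, nat_lit 140], [nat_lit 0, nat_lit 0], [(nat_lit 0, nat_lit 0, nat_lit 0), (nat_lit 0, nat_lit 0, nat_lit 0)], (nat_lit 100, nat_lit 96, nat_lit 28)⟩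
noncomputable def p003_k64 : C1.Kn := ⟨[nat_lit 50, nat_lit 90, nat_lit 110, nat_lit 120], [nat_lit 0, nat_lit 0, nat_lit 0, nat_lit 288], [(nat_lit 0, nat_lit 0, nat_lit 0), (nat_lit 0, nat_lit 0, nat_lit 0), (nat_lit 0, nat_lit 0, nat_lit 0), (nat_lit 987, nat_lit 1000, nat_lit 285)], (nat_lit 100, nat_lit 99, nat_lit 28)⟩
noncomputable def p003_k65 : C1.Kn := ⟨[nat_lit 100, nat_lit 140], [nat_lit 0, nat_lit 256], [(nat_lit 0, nat_lit 0, nat_lit 0), (nat_lit 1000, nat_lit 1000, nat_lit 100)], (nat_lit 100, nat_lit 97, nat_lit 28)⟩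
noncomputable def p003_k66 : C1.Kn := ⟨[nat_lit 50, nat_lit 90, nat_lit 110, nat_lit 120], [nat_lit 0, nat_lit 0, nat_lit 129, nat_lit 392], [(nat_lit 0, nat_lit 0, nat_lit 0), (nat_lit 0, nat_lit 0, nat_lit 0), (nat_lit 1000, nat_lit 990, nat_lit 101), (nat_lit 993, nat_lit 1000, nat_lit 341)], (nat_lit 100, nat_lit 100, nat_lit 28)⟩
noncomputable def p003_k67 : C1.Kn := ⟨[nat_lit 100, nat_lit 120, nat_lit 140], [nat_lit 0, nat_lit 128, nat_lit 655], [(nat_lit 0, nat_lit 0, nat_lit 0), (nat_lit 1000, nat_lit 1000, nat_lit 100), (nat_lit 941, nat_lit 1000, nat_lit 388)], (nat_lit 100, nat_lit 97, nat_lit 28)⟩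
noncomputable def p003_k68 : C1.Kn := ⟨[nat_lit 100, nat_lit 120, nat_lit 140], [nat_lit 0, nat_lit 0, nat_lit 533], [(nat_lit 0, nat_lit 0, nat_lit 0), (nat_lit 0, nat_lit 0, nat_lit 0), (nat_lit 924, nat_lit 1000, nat_lit 383)], (nat_lit 100, nat_lit 96, nat_lit 28)⟩
noncomputable def p003_k69 : C1.Kn := ⟨[nat_lit 90, nat_lit 110, nat_lit 130], [nat_lit 0, nat_lit 0, nat_lit 517], [(nat_lit 0, nat_lit 0, nat_lit 0), (nat_lit 0, nat_lit 0, nat_lit 0), (nat_lit 962, nat_lit 1000, nat_lit 387)], (nat_lit 100, nat_lit 96, nat_lit 39)⟩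
noncomputable def p003_k70 : C1.Kn := ⟨[nat_lit 90, nat_lit 110, nat_lit 130], [nat_lit 0, nat_lit 61, nat_lit 579], [(nat_lit 0, nat_lit 0, nat_lit 0), (nat_lit 1000, nat_lit 995, nat_lit 48), (nat_lit 971, nat_lit 1000, nat_lit 390)], (nat_lit 100, nat_lit 97, nat_lit 40)⟩
noncomputable def p003_k71 : C1.Kn := ⟨[nat_lit 100, nat_lit 120, nat_lit 140], [nat_lit 0, nat_lit 281, nat_lit 803], [(nat_lit 0, nat_lit 0, nat_lit 0), (nat_lit 1000, nat_lit 1000, nat_lit 219), (nat_lit 964, nat_lit 1000, nat_lit 393)], (nat_lit 100, nat_lit 95, nat_lit 44)⟩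
noncomputable def p003_k72 : C1.Kn := ⟨[nat_lit 100, nat_lit 120, nat_lit 140], [nat_lit 0, nat_lit 293, nat_lit 817], [(nat_lit 0, nat_lit 0, nat_lit 0), (nat_lit 1000, nat_lit 1000, nat_lit 229), (nat_lit 965, nat_lit 1000, nat_lit 395)], (nat_lit 100, nat_lit 95, nat_lit 44)⟩
noncomputable def p003_k73 : C1.Kn := ⟨[nat_lit 100, nat_lit 120, nat_lit 140], [nat_lit 0, nat_lit 358, nat_lit 874], [(nat_lit 0, nat_lit 0, nat_lit 0), (nat_lit 1000, nat_lit 1000, nat_lit 279), (nat_lit 976, nat_lit 1000, nat_lit 393)], (nat_lit 100, nat_lit 96, nat_lit 44)⟩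
noncomputable def p003_k74 : C1.Kn := ⟨[nat_lit 90, nat_lit 110, nat_lit 130], [nat_lit 0, nat_lit 129, nat_lit 640], [(nat_lit 0, nat_lit 0, nat_lit 0), (nat_lit 1000, nat_lit 990, nat_lit 101), (nat_lit 981, nat_lit 1000, nat_lit 391)], (nat_lit 100, nat_lit 98, nat_lit 40)⟩
noncomputable def p003_k75 : C1.Kn := ⟨[nat_lit 50, nat_lit 90, nat_lit 110, nat_lit 120], [nat_lit 0, nat_lit 0, nat_lit 129, nat_lit 392], [(nat_lit 0, nat_lit 0, nat_lit 0), (nat_lit 0, nat_lit 0, nat_lit 0), (nat_lit 1000, nat_lit 990, nat_lit 101), (nat_lit 993, nat_lit 1000, nat_lit 341)], (nat_lit 100, nat_lit 99, nat_lit 35)⟩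
noncomputable def p003_k76 : C1.Kn := ⟨[nat_lit 100, nat_lit 120], [nat_lit 0, nat_lit 383], [(nat_lit 0, nat_lit 0, nat_lit 0), (nat_lit 1000, nat_lit 1000, nat_lit 299)], (nat_lit 100, nat_lit 99, nat_lit 35)⟩
noncomputable def p003_k77 : C1.Kn := ⟨[nat_lit 100, nat_lit 120, nat_lit 140], [nat_lit 0, nat_lit 128, nat_lit 655], [(nat_lit 0, nat_lit 0, nat_lit 0), (nat_lit 1000, nat_lit 1000, nat_lit 100), (nat_lit 941, nat_lit 1000, nat_lit 388)], (nat_lit 100, nat_lit 96, nat_lit 34)⟩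
noncomputable def p003_k78 : C1.Kn := ⟨[nat_lit 90, nat_lit 110, nat_lit 130], [nat_lit 0, nat_lit 129, nat_lit 640], [(nat_lit 0, nat_lit 0, nat_lit 0), (nat_lit 1000, nat_lit 990, nat_lit 101), (nat_lit 981, nat_lit 1000, nat_lit 391)], (nat_lit 100, nat_lit 97, nat_lit 44)⟩
noncomputable def p003_l0 : Lf2 := ⟨nat_lit 0, nat_lit 5, [nat_lit 4, nat_lit 5, nat_lit 5, nat_lit 20], true, nat_lit 0, nat_lit 0, nat_lit 0, nat_lit 0, ⟨nat_lit 0, nat_lit 0, nat_lit 1000, nat_lit 4, nat_lit 86, nat_lit 0, nat_lit 0, nat_lit 0, nat_lit 0, nat_lit 215, nat_lit 70417, nat_lit 280, nat_lit 64032803, nat_lit 0, nat_lit 0, nat_lit 906666, false, false⟩,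
 nat_lit 0, nat_lit 0, nat_lit 0, nat_lit 8180, nat_lit 4770, nat_lit 0, nat_lit 439, nat_lit 0, nat_lit 0, nat_lit 0, nat_lit 0, nat_lit 0, nat_lit 0, nat_lit 0, nat_lit 115, nat_lit 1000000, nat_lit 0, nat_lit 0, [(nat_lit 3, [(nat_lit 6, nat_lit 1000)])],
 ⟨p003_k0, nat_lit 0, nat_lit 0, nat_lit 294, nat_lit 0, nat_lit 0, [nat_lit 3341142858, nat_lit 23600000], [], [nat_lit 14270797076, nat_lit 15033037496, nat_lit 12845360616, nat_lit 13842199116], nat_lit 0, nat_lit 0, nat_lit 0, nat_lit 0, nat_lit 0, nat_lit 0, [], [nat_lit 51, nat_lit 40, nat_lit 20, nat_lit 80, nat_lit 1, nat_lit 317, nat_lit 100, nat_lit 10]⟩, C1.Rw.none,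
 ⟨nat_lit 6324, nat_lit 6709, ⟨.ofNat (nat_lit 26344), .ofNat (nat_lit 370966), .ofNat (nat_lit 47783), .ofNat (nat_lit 392405), .ofNat (nat_lit 45942), .ofNat (nat_lit 374999), .ofNat (nat_lit 67309), .ofNat (nat_lit 396366)⟩, ⟨.ofNat (nat_lit 0), .ofNat (nat_lit 0), .ofNat (nat_lit 0), .ofNat (nat_lit 0), .ofNat (nat_lit 0), .ofNat (nat_lit 0), .ofNat (nat_lit 0), .ofNat (nat_lit 0)⟩⟩, [⟨nat_lit 0, nat_lit 100, nat_lit 98, nat_lit 10, nat_lit 139618078⟩]⟩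
noncomputable def p003_l1 : Lf2 := ⟨nat_lit 0, nat_lit 5, [nat_lit 4, nat_lit 5, nat_lit 5, nat_lit 20], false, nat_lit 0, nat_lit 0, nat_lit 0, nat_lit 0, ⟨nat_lit 1000, nat_lit 0, nat_lit 0, nat_lit 0, nat_lit 0, nat_lit 0, nat_lit 0, nat_lit 0, nat_lit 0, nat_lit 0, nat_lit 0, nat_lit 0, nat_lit 0, nat_lit 0, nat_lit 0, nat_lit 0, false, false⟩,
 nat_lit 0, nat_lit 0, nat_lit 0, nat_lit 5163, nat_lit 9873, nat_lit 8010, nat_lit 651, nat_lit 0, nat_lit 0, nat_lit 0, nat_lit 0, nat_lit 0, nat_lit 0, nat_lit 0, nat_lit 0, nat_lit 0, nat_lit 0, nat_lit 0, [],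
 ⟨p003_k0, nat_lit 0, nat_lit 0, nat_lit 212, nat_lit 0, nat_lit 0, [nat_lit 6250000000, nat_lit 9842000000], [], [nat_lit 23747356644, nat_lit 24859112140, nat_lit 42425077592, nat_lit 42836164000], nat_lit 0, nat_lit 0, nat_lit 0, nat_lit 0, nat_lit 0, nat_lit 0, [], [nat_lit 51, nat_lit 40, nat_lit 20, nat_lit 80, nat_lit 1, nat_lit 401, nat_lit 175, nat_lit 12]⟩, ⟨p003_k1, nat_lit 0, nat_lit 0, nat_lit 294, nat_lit 0, nat_lit 0, [nat_lit 7968000000, nat_lit 14058000000], [], [nat_lit 40287693120, nat_lit 40603562500, nat_lit 50443050849, nat_lit 50366681325], nat_lit 0, nat_lit 0, nat_lit 0, nat_lit 0, nat_lit 0, nat_lit 0, [], [nat_lit 121, nat_lit 40, nat_lit 20, nat_lit 80, nat_lit 28, nat_lit 373, nat_lit 150, nat_lit 9]⟩,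
 zbF0, []⟩
noncomputable def p003_l2 : Lf2 := ⟨nat_lit 0, nat_lit 5, [nat_lit 4, nat_lit 5, nat_lit 5, nat_lit 20], true, nat_lit 0, nat_lit 0, nat_lit 0, nat_lit 0, ⟨nat_lit 0, nat_lit 0, nat_lit 1000, nat_lit 4, nat_lit 86, nat_lit 0, nat_lit 0, nat_lit 0, nat_lit 0, nat_lit 215, nat_lit 70417, nat_lit 280, nat_lit 64032803, nat_lit 0, nat_lit 0, nat_lit 906666, false, false⟩,
 nat_lit 0, nat_lit 0, nat_lit 0, nat_lit 8180, nat_lit 4770, nat_lit 0, nat_lit 439, nat_lit 0, nat_lit 0, nat_lit 0, nat_lit 0, nat_lit 0, nat_lit 0, nat_lit 0, nat_lit 115, nat_lit 1000000, nat_lit 0, nat_lit 0, [(nat_lit 3, [(nat_lit 6, nat_lit 1000)])],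
 ⟨p003_k0, nat_lit 0, nat_lit 0, nat_lit 294, nat_lit 0, nat_lit 0, [nat_lit 3341142858, nat_lit 23600000], [], [nat_lit 14270797076, nat_lit 15033037496, nat_lit 12845360616, nat_lit 13842199116], nat_lit 0, nat_lit 0, nat_lit 0, nat_lit 0, nat_lit 0, nat_lit 0, [], [nat_lit 51, nat_lit 40, nat_lit 20, nat_lit 80, nat_lit 1, nat_lit 317, nat_lit 100, nat_lit 10]⟩, C1.Rw.none,
 ⟨nat_lit 6324, nat_lit 6709, ⟨.ofNat (nat_lit 26344), .ofNat (nat_lit 370966), .ofNat (nat_lit 47783), .ofNat (nat_lit 392405), .ofNat (nat_lit 45942), .ofNat (nat_lit 374999), .ofNat (nat_lit 67309), .ofNat (nat_lit 396366)⟩, ⟨.ofNat (nat_lit 0), .ofNat (nat_lit 0), .ofNat (nat_lit 0), .ofNat (nat_lit 0), .ofNat (nat_lit 0), .ofNat (nat_lit 0), .ofNat (nat_lit 0), .ofNat (nat_lit 0)⟩⟩, [⟨nat_lit 0, nat_lit 100, nat_lit 98, nat_lit 10, nat_lit 139618078⟩]⟩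
noncomputable def p003_l3 : Lf2 := ⟨nat_lit 0, nat_lit 5, [nat_lit 4, nat_lit 5, nat_lit 5, nat_lit 20], true, nat_lit 0, nat_lit 0, nat_lit 0, nat_lit 0, ⟨nat_lit 0, nat_lit 1000, nat_lit 0, nat_lit 4, nat_lit 187, nat_lit 0, nat_lit 0, nat_lit 0, nat_lit 0, nat_lit 0, nat_lit 0, nat_lit 0, nat_lit 54966871, nat_lit 12033129, nat_lit 0, nat_lit 2353922, false, true⟩,
 nat_lit 0, nat_lit 0, nat_lit 0, nat_lit 2694, nat_lit 7287, nat_lit 0, nat_lit 0, nat_lit 0, nat_lit 0, nat_lit 0, nat_lit 0, nat_lit 0, nat_lit 0, nat_lit 0, nat_lit 0, nat_lit 400000, nat_lit 0, nat_lit 0, [(nat_lit 3, [(nat_lit 1, nat_lit 1000)])],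
 ⟨p003_k0, nat_lit 0, nat_lit 0, nat_lit 63, nat_lit 0, nat_lit 0, [nat_lit 3344000000, nat_lit 3475733334], [], [nat_lit 11110951052, nat_lit 12757442284, nat_lit 16035261136, nat_lit 17367387768], nat_lit 0, nat_lit 0, nat_lit 0, nat_lit 0, nat_lit 0, nat_lit 0, [], [nat_lit 51, nat_lit 40, nat_lit 20, nat_lit 80, nat_lit 1, nat_lit 345, nat_lit 125, nat_lit 10]⟩, C1.Rw.none,
 ⟨nat_lit 6324, nat_lit 6709, ⟨.ofNat (nat_lit 370966), .ofNat (nat_lit 543262), .ofNat (nat_lit 392405), .ofNat (nat_lit 564694), .ofNat (nat_lit 374999), .ofNat (nat_lit 539512), .ofNat (nat_lit 396366), .ofNat (nat_lit 560873)⟩, ⟨.ofNat (nat_lit 0), .ofNat (nat_lit 0), .ofNat (nat_lit 0), .ofNat (nat_lit 0), .ofNat (nat_lit 0), .ofNat (nat_lit 0), .ofNat (nat_lit 0), .ofNat (nat_lit 0)⟩⟩, []⟩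
noncomputable def p003_l4 : Lf2 := ⟨nat_lit 0, nat_lit 2, [nat_lit 10, nat_lit 5, nat_lit 5, nat_lit 20], false, nat_lit 0, nat_lit 0, nat_lit 0, nat_lit 0, ⟨nat_lit 891, nat_lit 109, nat_lit 0, nat_lit 6, nat_lit 286, nat_lit 0, nat_lit 0, nat_lit 0, nat_lit 0, nat_lit 0, nat_lit 0, nat_lit 0, nat_lit 44387161, nat_lit 22612839, nat_lit 0, nat_lit 3196832, false, true⟩,
 nat_lit 0, nat_lit 0, nat_lit 22416, nat_lit 0, nat_lit 6743, nat_lit 7471, nat_lit 11342, nat_lit 0, nat_lit 0, nat_lit 0, nat_lit 0, nat_lit 0, nat_lit 0, nat_lit 0, nat_lit 0, nat_lit 109000, nat_lit 0, nat_lit 0, [(nat_lit 3, [(nat_lit 2, nat_lit 109)])],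
 ⟨p003_k2, nat_lit 0, nat_lit 0, nat_lit 189, nat_lit 0, nat_lit 0, [nat_lit 5927632500, nat_lit 7414323600], [], [nat_lit 23024975668, nat_lit 23514383748, nat_lit 34591618326, nat_lit 34824390065], nat_lit 0, nat_lit 0, nat_lit 0, nat_lit 0, nat_lit 0, nat_lit 0, [], [nat_lit 26, nat_lit 40, nat_lit 20, nat_lit 80, nat_lit 2, nat_lit 272, nat_lit 60, nat_lit 9]⟩, ⟨p003_k3, nat_lit 0, nat_lit 0, nat_lit 438, nat_lit 0, nat_lit 383712, [nat_lit 7099488000, nat_lit 10577952000], [], [nat_lit 41838423192, nat_lit 41838575679, nat_lit 46675086027, nat_lit 46574838435], nat_lit 1100001, nat_lit 1184688, nat_lit 1271250, nat_lit 1271250, nat_lit 0, nat_lit 0, [nat_lit 1695000, nat_lit 1271250], [nat_lit 143, nat_lit 40, nat_lit 20, nat_lit 80, nat_lit 14, nat_lit 373, nat_lit 150, nat_lit 10]⟩,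
 ⟨nat_lit 6519, nat_lit 6709, ⟨.ofNat (nat_lit 543274), .ofNat (nat_lit 879250), .ofNat (nat_lit 553993), .ofNat (nat_lit 889969), .ofNat (nat_lit 541387), .ofNat (nat_lit 869690), .ofNat (nat_lit 552085), .ofNat (nat_lit 880388)⟩, ⟨.ofNat (nat_lit 0), .ofNat (nat_lit 0), .ofNat (nat_lit 0), .ofNat (nat_lit 0), .ofNat (nat_lit 0), .ofNat (nat_lit 0), .ofNat (nat_lit 0), .ofNat (nat_lit 0)⟩⟩, []⟩
noncomputable def p003_l5 : Lf2 := ⟨nat_lit 0, nat_lit 2, [nat_lit 10, nat_lit 5, nat_lit 5, nat_lit 20], false, nat_lit 0, nat_lit 0, nat_lit 0, nat_lit 0, ⟨nat_lit 106, nat_lit 894, nat_lit 0, nat_lit 6, nat_lit 282, nat_lit 0, nat_lit 0, nat_lit 0, nat_lit 0, nat_lit 0, nat_lit 0, nat_lit 0, nat_lit 44801074, nat_lit 22198926, nat_lit 0, nat_lit 3175572, false, true⟩,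
 nat_lit 0, nat_lit 0, nat_lit 2888, nat_lit 0, nat_lit 5139, nat_lit 962, nat_lit 567, nat_lit 0, nat_lit 0, nat_lit 165, nat_lit 0, nat_lit 0, nat_lit 0, nat_lit 0, nat_lit 0, nat_lit 894000, nat_lit 0, nat_lit 0, [(nat_lit 3, [(nat_lit 2, nat_lit 894)])],
 ⟨p003_k4, nat_lit 0, nat_lit 0, nat_lit 186, nat_lit 0, nat_lit 0, [nat_lit 3605995000, nat_lit 3426837600], [], [nat_lit 21862490784, nat_lit 22259859939, nat_lit 30585229924, nat_lit 30799798888], nat_lit 0, nat_lit 0, nat_lit 0, nat_lit 0, nat_lit 0, nat_lit 0, [], [nat_lit 26, nat_lit 40, nat_lit 20, nat_lit 80, nat_lit 2, nat_lit 272, nat_lit 60, nat_lit 9]⟩, ⟨p003_k5, nat_lit 0, nat_lit 0, nat_lit 552, nat_lit 0, nat_lit 593523, [nat_lit 844608000, nat_lit 1043252000, nat_lit 1258432000], [], [nat_lit 4621643159, nat_lit 4614703179, nat_lit 5041997116, nat_lit 5027672388], nat_lit 1100001, nat_lit 1184688, nat_lit 1271250,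 nat_lit 1271250, nat_lit 0, nat_lit 0, [nat_lit 1695000, nat_lit 1271250, nat_lit 1271250], [nat_lit 106, nat_lit 40, nat_lit 20, nat_lit 80, nat_lit 41, nat_lit 373, nat_lit 150, nat_lit 10]⟩,
 ⟨nat_lit 6324, nat_lit 6520, ⟨.ofNat (nat_lit 541388), .ofNat (nat_lit 861275), .ofNat (nat_lit 552086), .ofNat (nat_lit 871973), .ofNat (nat_lit 539524), .ofNat (nat_lit 852101), .ofNat (nat_lit 550208), .ofNat (nat_lit 862785)⟩, ⟨.ofNat (nat_lit 0), .ofNat (nat_lit 0), .ofNat (nat_lit 0), .ofNat (nat_lit 0), .ofNat (nat_lit 0), .ofNat (nat_lit 0), .ofNat (nat_lit 0), .ofNat (nat_lit 0)⟩⟩, [⟨nat_lit 13, nat_lit 100, nat_lit 35, nat_lit 100, nat_lit 114292508⟩]⟩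
noncomputable def p003_l6 : Lf2 := ⟨nat_lit 0, nat_lit 2, [nat_lit 10, nat_lit 5, nat_lit 5, nat_lit 20], false, nat_lit 0, nat_lit 0, nat_lit 0, nat_lit 0, ⟨nat_lit 1000, nat_lit 0, nat_lit 0, nat_lit 0, nat_lit 0, nat_lit 0, nat_lit 0, nat_lit 0, nat_lit 0, nat_lit 0, nat_lit 0, nat_lit 0, nat_lit 0, nat_lit 0, nat_lit 0, nat_lit 0, false, false⟩,
 nat_lit 0, nat_lit 0, nat_lit 26277, nat_lit 0, nat_lit 6929, nat_lit 9371, nat_lit 4385, nat_lit 0, nat_lit 0, nat_lit 10476, nat_lit 0, nat_lit 0, nat_lit 0, nat_lit 0, nat_lit 0, nat_lit 0, nat_lit 0, nat_lit 0, [],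
 ⟨p003_k2, nat_lit 0, nat_lit 0, nat_lit 189, nat_lit 0, nat_lit 0, [nat_lit 6250000000, nat_lit 7968000000], [], [nat_lit 23515749344, nat_lit 24397165684, nat_lit 35159348656, nat_lit 35624584490], nat_lit 0, nat_lit 0, nat_lit 0, nat_lit 0, nat_lit 0, nat_lit 0, [], [nat_lit 26, nat_lit 40, nat_lit 20, nat_lit 80, nat_lit 2, nat_lit 272, nat_lit 60, nat_lit 9]⟩, ⟨p003_k6, nat_lit 0, nat_lit 0, nat_lit 549, nat_lit 0, nat_lit 594218, [nat_lit 7968000000, nat_lit 9842000000, nat_lit 11872000000], [], [nat_lit 33862079548, nat_lit 33902213076, nat_lit 40003003494, nat_lit 39911168422], nat_lit 1184688, nat_lit 1271250, nat_lit 1271250, nat_lit 1271250, nat_lit 0, nat_lit 0, [nat_lit 1695000, nat_lit 1271250, nat_lit 1271250], [nat_lit 106, nat_lit 40, nat_lit 20, nat_lit 80, nat_lit 41, nat_lit 373, nat_lit 150, nat_lit 10]⟩,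
 zbF0, [⟨nat_lit 13, nat_lit 100, nat_lit 27, nat_lit 100, nat_lit 8418586⟩]⟩
noncomputable def p003_l7 : Lf2 := ⟨nat_lit 0, nat_lit 5, [nat_lit 4, nat_lit 5, nat_lit 5, nat_lit 20], false, nat_lit 0, nat_lit 0, nat_lit 0, nat_lit 0, ⟨nat_lit 1000, nat_lit 0, nat_lit 0, nat_lit 0, nat_lit 0, nat_lit 0, nat_lit 0, nat_lit 0, nat_lit 0, nat_lit 0, nat_lit 0, nat_lit 0, nat_lit 0, nat_lit 0, nat_lit 0, nat_lit 0, false, false⟩,
 nat_lit 0, nat_lit 0, nat_lit 27176, nat_lit 0, nat_lit 7118, nat_lit 9058, nat_lit 2494, nat_lit 0, nat_lit 0, nat_lit 2065, nat_lit 0, nat_lit 0, nat_lit 0, nat_lit 0, nat_lit 0, nat_lit 0, nat_lit 0, nat_lit 0, [],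
 ⟨p003_k7, nat_lit 0, nat_lit 0, nat_lit 224, nat_lit 0, nat_lit 0, [nat_lit 6250000000, nat_lit 7968000001, nat_lit 9842000000], [], [nat_lit 24890485444, nat_lit 25661323836, nat_lit 35686697939, nat_lit 36088983173], nat_lit 0, nat_lit 0, nat_lit 0, nat_lit 0, nat_lit 0, nat_lit 0, [], [nat_lit 25, nat_lit 40, nat_lit 20, nat_lit 80, nat_lit 17, nat_lit 401, nat_lit 175, nat_lit 11]⟩, ⟨p003_k8, nat_lit 0, nat_lit 0, nat_lit 474, nat_lit 0, nat_lit 319250, [nat_lit 7968000000, nat_lit 9842000000, nat_lit 14058000000], [], [nat_lit 38605017425, nat_lit 38561615841, nat_lit 45276890594, nat_lit 45106283565], nat_lit 1100001, nat_lit 1271250, nat_lit 1271250, nat_lit 1271250, nat_lit 0, nat_lit 0, [nat_lit 1695000, nat_lit 1271250, nat_lit 1271250], [nat_lit 92, nat_lit 40, nat_lit 20, nat_lit 80, nat_lit 32, nat_lit 373, nat_lit 150, nat_lit 9]⟩,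
 zbF0, []⟩
noncomputable def p003_l8 : Lf2 := ⟨nat_lit 0, nat_lit 5, [nat_lit 4, nat_lit 5, nat_lit 5, nat_lit 20], true, nat_lit 0, nat_lit 0, nat_lit 0, nat_lit 0, ⟨nat_lit 0, nat_lit 1000, nat_lit 0, nat_lit 4, nat_lit 185, nat_lit 0, nat_lit 0, nat_lit 0, nat_lit 0, nat_lit 0, nat_lit 0, nat_lit 0, nat_lit 0, nat_lit 0, nat_lit 0, nat_lit 5000000, false, true⟩,
 nat_lit 0, nat_lit 0, nat_lit 0, nat_lit 6998, nat_lit 5234, nat_lit 0, nat_lit 215, nat_lit 0, nat_lit 0, nat_lit 0, nat_lit 0, nat_lit 0, nat_lit 0, nat_lit 0, nat_lit 0, nat_lit 1000000, nat_lit 0, nat_lit 0, [(nat_lit 3, [(nat_lit 2, nat_lit 1000)])],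
 ⟨p003_k0, nat_lit 0, nat_lit 0, nat_lit 294, nat_lit 0, nat_lit 0, [nat_lit 3467600001, nat_lit 2309199999], [], [nat_lit 26221333247, nat_lit 26843861623, nat_lit 31224821450, nat_lit 31506777015], nat_lit 0, nat_lit 0, nat_lit 0, nat_lit 0, nat_lit 0, nat_lit 0, [], [nat_lit 51, nat_lit 40, nat_lit 20, nat_lit 80, nat_lit 1, nat_lit 401, nat_lit 175, nat_lit 12]⟩, C1.Rw.none,
 ⟨nat_lit 6324, nat_lit 6709, ⟨.ofNat (nat_lit 26344), .ofNat (nat_lit 879155), .ofNat (nat_lit 47783), .ofNat (nat_lit 900587), .ofNat (nat_lit 45942), .ofNat (nat_lit 860229), .ofNat (nat_lit 67309), .ofNat (nat_lit 881590)⟩, ⟨.ofNat (nat_lit 0), .ofNat (nat_lit 0), .ofNat (nat_lit 0), .ofNat (nat_lit 0), .ofNat (nat_lit 0), .ofNat (nat_lit 0), .ofNat (nat_lit 0), .ofNat (nat_lit 0)⟩⟩, [⟨nat_lit 13, nat_lit 100, nat_lit 30, nat_lit 100, nat_lit 93016616⟩]⟩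
noncomputable def p003_l9 : Lf2 := ⟨nat_lit 0, nat_lit 3, [nat_lit 45, nat_lit 5, nat_lit 5, nat_lit 20], true, nat_lit 0, nat_lit 0, nat_lit 0, nat_lit 0, ⟨nat_lit 0, nat_lit 0, nat_lit 1000, nat_lit 4, nat_lit 50, nat_lit 0, nat_lit 0, nat_lit 0, nat_lit 0, nat_lit 215, nat_lit 24067, nat_lit 253, nat_lit 65965757, nat_lit 0, nat_lit 0, nat_lit 398424, false, false⟩,
 nat_lit 0, nat_lit 14056, nat_lit 0, nat_lit 0, nat_lit 6722, nat_lit 0, nat_lit 69, nat_lit 0, nat_lit 0, nat_lit 0, nat_lit 0, nat_lit 0, nat_lit 0, nat_lit 0, nat_lit 115, nat_lit 1000000, nat_lit 0, nat_lit 0, [(nat_lit 3, [(nat_lit 6, nat_lit 1000)])],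
 ⟨p003_k9, nat_lit 0, nat_lit 0, nat_lit 328, nat_lit 0, nat_lit 101151, [nat_lit 3341142858, nat_lit 23600000], [], [nat_lit 16696254074, nat_lit 16601575438, nat_lit 18236317290, nat_lit 17398947667], nat_lit 1271250, nat_lit 1271250, nat_lit 0, nat_lit 490000, nat_lit 0, nat_lit 0, [nat_lit 1412500, nat_lit 1271250], [nat_lit 51, nat_lit 40, nat_lit 20, nat_lit 80, nat_lit 1, nat_lit 317, nat_lit 100, nat_lit 10]⟩, C1.Rw.none,
 ⟨nat_lit 6614, nat_lit 6709, ⟨.ofNat (nat_lit 26344), .ofNat (nat_lit 198655), .ofNat (nat_lit 47783), .ofNat (nat_lit 220094), .ofNat (nat_lit 31334), .ofNat (nat_lit 201666), .ofNat (nat_lit 52751), .ofNat (nat_lit 223083)⟩, ⟨.ofNat (nat_lit 0), .ofNat (nat_lit 0), .ofNat (nat_lit 0), .ofNat (nat_lit 0), .ofNat (nat_lit 0), .ofNat (nat_lit 0), .ofNat (nat_lit 0), .ofNat (nat_lit 0)⟩⟩, []⟩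
noncomputable def p003_l10 : Lf2 := ⟨nat_lit 0, nat_lit 3, [nat_lit 45, nat_lit 5, nat_lit 5, nat_lit 20], true, nat_lit 0, nat_lit 0, nat_lit 0, nat_lit 0, ⟨nat_lit 0, nat_lit 0, nat_lit 1000, nat_lit 4, nat_lit 52, nat_lit 0, nat_lit 0, nat_lit 0, nat_lit 0, nat_lit 215, nat_lit 25350, nat_lit 254, nat_lit 65900305, nat_lit 0, nat_lit 0, nat_lit 418577, false, false⟩,
 nat_lit 0, nat_lit 12713, nat_lit 0, nat_lit 0, nat_lit 6240, nat_lit 0, nat_lit 136, nat_lit 0, nat_lit 0, nat_lit 0, nat_lit 0, nat_lit 0, nat_lit 0, nat_lit 0, nat_lit 115, nat_lit 1000000, nat_lit 0, nat_lit 0, [(nat_lit 3, [(nat_lit 6, nat_lit 1000)])],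
 ⟨p003_k10, nat_lit 0, nat_lit 0, nat_lit 336, nat_lit 0, nat_lit 122708, [nat_lit 3341142858, nat_lit 23600000], [], [nat_lit 16364990094, nat_lit 16312093040, nat_lit 17958209134, nat_lit 17180882974], nat_lit 1271250, nat_lit 1271250, nat_lit 0, nat_lit 490000, nat_lit 0, nat_lit 0, [nat_lit 1412500, nat_lit 1271250], [nat_lit 51, nat_lit 40, nat_lit 20, nat_lit 80, nat_lit 1, nat_lit 317, nat_lit 100, nat_lit 10]⟩, C1.Rw.none,
 ⟨nat_lit 6519, nat_lit 6615, ⟨.ofNat (nat_lit 31334), .ofNat (nat_lit 201666), .ofNat (nat_lit 52751), .ofNat (nat_lit 223083), .ofNat (nat_lit 36263), .ofNat (nat_lit 204638), .ofNat (nat_lit 57661), .ofNat (nat_lit 226037)⟩, ⟨.ofNat (nat_lit 0), .ofNat (nat_lit 0), .ofNat (nat_lit 0), .ofNat (nat_lit 0), .ofNat (nat_lit 0), .ofNat (nat_lit 0), .ofNat (nat_lit 0), .ofNat (nat_lit 0)⟩⟩, []⟩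
noncomputable def p003_l11 : Lf2 := ⟨nat_lit 1, nat_lit 5, [nat_lit 4, nat_lit 5, nat_lit 5, nat_lit 20], false, nat_lit 0, nat_lit 0, nat_lit 0, nat_lit 0, zbN0,
 nat_lit 0, nat_lit 0, nat_lit 0, nat_lit 0, nat_lit 0, nat_lit 0, nat_lit 0, nat_lit 0, nat_lit 0, nat_lit 0, nat_lit 0, nat_lit 0, nat_lit 0, nat_lit 0, nat_lit 0, nat_lit 0, nat_lit 0, nat_lit 0, [],
 C1.Rw.none, C1.Rw.none,
 zbF0, []⟩
noncomputable def p003_l12 : Lf2 := ⟨nat_lit 0, nat_lit 5, [nat_lit 4, nat_lit 5, nat_lit 5, nat_lit 20], true, nat_lit 0, nat_lit 0, nat_lit 0, nat_lit 0, ⟨nat_lit 0, nat_lit 0, nat_lit 1000, nat_lit 4, nat_lit 54, nat_lit 0, nat_lit 0, nat_lit 0, nat_lit 0, nat_lit 215, nat_lit 28017, nat_lit 256, nat_lit 65800436, nat_lit 0, nat_lit 0, nat_lit 448761, false, false⟩,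
 nat_lit 0, nat_lit 11215, nat_lit 0, nat_lit 0, nat_lit 5648, nat_lit 0, nat_lit 157, nat_lit 0, nat_lit 0, nat_lit 0, nat_lit 0, nat_lit 0, nat_lit 0, nat_lit 0, nat_lit 115, nat_lit 1000000, nat_lit 0, nat_lit 0, [(nat_lit 3, [(nat_lit 6, nat_lit 1000)])],
 ⟨p003_k11, nat_lit 0, nat_lit 0, nat_lit 356, nat_lit 0, nat_lit 176089, [nat_lit 3341142858, nat_lit 23600000], [], [nat_lit 16292648782, nat_lit 16264106882, nat_lit 17941523054, nat_lit 16534363390], nat_lit 1271250, nat_lit 1271250, nat_lit 0, nat_lit 490000, nat_lit 0, nat_lit 0, [nat_lit 1412500, nat_lit 1271250], [nat_lit 51, nat_lit 40, nat_lit 20, nat_lit 80, nat_lit 1, nat_lit 317, nat_lit 100, nat_lit 10]⟩, C1.Rw.none,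
 ⟨nat_lit 6324, nat_lit 6520, ⟨.ofNat (nat_lit 36263), .ofNat (nat_lit 204638), .ofNat (nat_lit 57661), .ofNat (nat_lit 226037), .ofNat (nat_lit 45942), .ofNat (nat_lit 210470), .ofNat (nat_lit 67309), .ofNat (nat_lit 231838)⟩, ⟨.ofNat (nat_lit 0), .ofNat (nat_lit 0), .ofNat (nat_lit 0), .ofNat (nat_lit 0), .ofNat (nat_lit 0), .ofNat (nat_lit 0), .ofNat (nat_lit 0), .ofNat (nat_lit 0)⟩⟩, []⟩
noncomputable def p003_l13 : Lf2 := ⟨nat_lit 0, nat_lit 5, [nat_lit 4, nat_lit 5, nat_lit 5, nat_lit 20], false, nat_lit 0, nat_lit 0, nat_lit 0, nat_lit 0, ⟨nat_lit 1000, nat_lit 0, nat_lit 0, nat_lit 0, nat_lit 0, nat_lit 0, nat_lit 0, nat_lit 0, nat_lit 0, nat_lit 0, nat_lit 0, nat_lit 0, nat_lit 0, nat_lit 0, nat_lit 0, nat_lit 0, false, false⟩,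
 nat_lit 0, nat_lit 36915, nat_lit 0, nat_lit 0, nat_lit 17654, nat_lit 17962, nat_lit 4167, nat_lit 0, nat_lit 0, nat_lit 6889, nat_lit 0, nat_lit 0, nat_lit 0, nat_lit 0, nat_lit 0, nat_lit 0, nat_lit 0, nat_lit 0, [],
 ⟨p003_k7, nat_lit 0, nat_lit 0, nat_lit 367, nat_lit 0, nat_lit 345774, [nat_lit 6250000000, nat_lit 7968000001, nat_lit 9842000000], [], [nat_lit 22540375812, nat_lit 16043299946, nat_lit 33364546876, nat_lit 24813690744], nat_lit 1271250, nat_lit 1271250, nat_lit 490000, nat_lit 1100001, nat_lit 0, nat_lit 0, [nat_lit 1412500, nat_lit 1271250, nat_lit 1271250], [nat_lit 25, nat_lit 40, nat_lit 20, nat_lit 80, nat_lit 17, nat_lit 317, nat_lit 100, nat_lit 9]⟩, ⟨p003_k8, nat_lit 0, nat_lit 0, nat_lit 391, nat_lit 0, nat_lit 0, [nat_lit 7968000000, nat_lit 9842000000, nat_lit 14058000000], [], [nat_lit 18979972745, nat_lit 19555818596, nat_lit 16679269600, nat_lit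 18029398360], nat_lit 0, nat_lit 0, nat_lit 0, nat_lit 0, nat_lit 0, nat_lit 0, [], [nat_lit 92, nat_lit 40, nat_lit 20, nat_lit 80, nat_lit 32, nat_lit 317, nat_lit 100, nat_lit 8]⟩,
 zbF0, []⟩
noncomputable def p003_l14 : Lf2 := ⟨nat_lit 0, nat_lit 5, [nat_lit 4, nat_lit 5, nat_lit 5, nat_lit 20], false, nat_lit 0, nat_lit 0, nat_lit 0, nat_lit 0, ⟨nat_lit 1000, nat_lit 0, nat_lit 0, nat_lit 0, nat_lit 0, nat_lit 0, nat_lit 0, nat_lit 0, nat_lit 0, nat_lit 0, nat_lit 0, nat_lit 0, nat_lit 0, nat_lit 0, nat_lit 0, nat_lit 0, false, false⟩,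
 nat_lit 0, nat_lit 12260, nat_lit 0, nat_lit 7076, nat_lit 5863, nat_lit 10156, nat_lit 3504, nat_lit 0, nat_lit 0, nat_lit 1347, nat_lit 0, nat_lit 0, nat_lit 0, nat_lit 0, nat_lit 0, nat_lit 0, nat_lit 0, nat_lit 0, [],
 ⟨p003_k0, nat_lit 0, nat_lit 0, nat_lit 357, nat_lit 0, nat_lit 345774, [nat_lit 6250000000, nat_lit 9842000000], [], [nat_lit 32180982718, nat_lit 30533282176, nat_lit 45346358855, nat_lit 42541790460], nat_lit 1271250, nat_lit 1271250, nat_lit 1100001, nat_lit 3120750, nat_lit 0, nat_lit 0, [nat_lit 1412500, nat_lit 1271250], [nat_lit 51, nat_lit 40, nat_lit 20, nat_lit 80, nat_lit 1, nat_lit 401, nat_lit 175, nat_lit 12]⟩, ⟨p003_k12, nat_lit 0, nat_lit 0, nat_lit 332, nat_lit 0, nat_lit 0, [nat_lit 7968000000, nat_lit 11872000000, nat_lit 14058000000], [], [nat_lit 32224345997, nat_lit 32675634072, nat_lit 48063417770, nat_lit 47975259516], nat_lit 0, nat_lit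 0, nat_lit 0, nat_lit 0, nat_lit 0, nat_lit 0, [], [nat_lit 62, nat_lit 40, nat_lit 20, nat_lit 80, nat_lit 58, nat_lit 373, nat_lit 150, nat_lit 9]⟩,
 zbF0, []⟩
noncomputable def p003_l15 : Lf2 := ⟨nat_lit 0, nat_lit 3, [nat_lit 45, nat_lit 5, nat_lit 5, nat_lit 20], true, nat_lit 0, nat_lit 0, nat_lit 0, nat_lit 0, ⟨nat_lit 0, nat_lit 0, nat_lit 1000, nat_lit 4, nat_lit 50, nat_lit 0, nat_lit 0, nat_lit 0, nat_lit 0, nat_lit 215, nat_lit 24067, nat_lit 253, nat_lit 65965757, nat_lit 0, nat_lit 0, nat_lit 398424, false, false⟩,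
 nat_lit 0, nat_lit 14056, nat_lit 0, nat_lit 0, nat_lit 6722, nat_lit 0, nat_lit 69, nat_lit 0, nat_lit 0, nat_lit 0, nat_lit 0, nat_lit 0, nat_lit 0, nat_lit 0, nat_lit 115, nat_lit 1000000, nat_lit 0, nat_lit 0, [(nat_lit 3, [(nat_lit 6, nat_lit 1000)])],
 ⟨p003_k9, nat_lit 0, nat_lit 0, nat_lit 328, nat_lit 0, nat_lit 101151, [nat_lit 3341142858, nat_lit 23600000], [], [nat_lit 16696254074, nat_lit 16601575438, nat_lit 18236317290, nat_lit 17398947667], nat_lit 1271250, nat_lit 1271250, nat_lit 0, nat_lit 490000, nat_lit 0, nat_lit 0, [nat_lit 1412500, nat_lit 1271250], [nat_lit 51, nat_lit 40, nat_lit 20, nat_lit 80, nat_lit 1, nat_lit 317, nat_lit 100, nat_lit 10]⟩, C1.Rw.none,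
 ⟨nat_lit 6614, nat_lit 6709, ⟨.ofNat (nat_lit 26344), .ofNat (nat_lit 198655), .ofNat (nat_lit 47783), .ofNat (nat_lit 220094), .ofNat (nat_lit 31334), .ofNat (nat_lit 201666), .ofNat (nat_lit 52751), .ofNat (nat_lit 223083)⟩, ⟨.ofNat (nat_lit 0), .ofNat (nat_lit 0), .ofNat (nat_lit 0), .ofNat (nat_lit 0), .ofNat (nat_lit 0), .ofNat (nat_lit 0), .ofNat (nat_lit 0), .ofNat (nat_lit 0)⟩⟩, []⟩
noncomputable def p003_l16 : Lf2 := ⟨nat_lit 0, nat_lit 3, [nat_lit 45, nat_lit 5, nat_lit 5, nat_lit 20], true, nat_lit 0, nat_lit 0, nat_lit 0, nat_lit 0, ⟨nat_lit 0, nat_lit 0, nat_lit 1000, nat_lit 4, nat_lit 52, nat_lit 0, nat_lit 0, nat_lit 0, nat_lit 0, nat_lit 215, nat_lit 25350, nat_lit 254, nat_lit 65900305, nat_lit 0, nat_lit 0, nat_lit 418577, false, false⟩,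
 nat_lit 0, nat_lit 12713, nat_lit 0, nat_lit 0, nat_lit 6240, nat_lit 0, nat_lit 136, nat_lit 0, nat_lit 0, nat_lit 0, nat_lit 0, nat_lit 0, nat_lit 0, nat_lit 0, nat_lit 115, nat_lit 1000000, nat_lit 0, nat_lit 0, [(nat_lit 3, [(nat_lit 6, nat_lit 1000)])],
 ⟨p003_k10, nat_lit 0, nat_lit 0, nat_lit 336, nat_lit 0, nat_lit 122708, [nat_lit 3341142858, nat_lit 23600000], [], [nat_lit 16364990094, nat_lit 16312093040, nat_lit 17958209134, nat_lit 17180882974], nat_lit 1271250, nat_lit 1271250, nat_lit 0, nat_lit 490000, nat_lit 0, nat_lit 0, [nat_lit 1412500, nat_lit 1271250], [nat_lit 51, nat_lit 40, nat_lit 20, nat_lit 80, nat_lit 1, nat_lit 317, nat_lit 100, nat_lit 10]⟩, C1.Rw.none,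
 ⟨nat_lit 6519, nat_lit 6615, ⟨.ofNat (nat_lit 31334), .ofNat (nat_lit 201666), .ofNat (nat_lit 52751), .ofNat (nat_lit 223083), .ofNat (nat_lit 36263), .ofNat (nat_lit 204638), .ofNat (nat_lit 57661), .ofNat (nat_lit 226037)⟩, ⟨.ofNat (nat_lit 0), .ofNat (nat_lit 0), .ofNat (nat_lit 0), .ofNat (nat_lit 0), .ofNat (nat_lit 0), .ofNat (nat_lit 0), .ofNat (nat_lit 0), .ofNat (nat_lit 0)⟩⟩, []⟩
noncomputable def p003_l17 : Lf2 := ⟨nat_lit 1, nat_lit 5, [nat_lit 4, nat_lit 5, nat_lit 5, nat_lit 20], false, nat_lit 0, nat_lit 0, nat_lit 0, nat_lit 0, zbN0,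
 nat_lit 0, nat_lit 0, nat_lit 0, nat_lit 0, nat_lit 0, nat_lit 0, nat_lit 0, nat_lit 0, nat_lit 0, nat_lit 0, nat_lit 0, nat_lit 0, nat_lit 0, nat_lit 0, nat_lit 0, nat_lit 0, nat_lit 0, nat_lit 0, [],
 C1.Rw.none, C1.Rw.none,
 zbF0, []⟩
noncomputable def p003_l18 : Lf2 := ⟨nat_lit 0, nat_lit 5, [nat_lit 4, nat_lit 5, nat_lit 5, nat_lit 20], true, nat_lit 0, nat_lit 0, nat_lit 0, nat_lit 0, ⟨nat_lit 0, nat_lit 0, nat_lit 1000, nat_lit 4, nat_lit 54, nat_lit 0, nat_lit 0, nat_lit 0, nat_lit 0, nat_lit 215, nat_lit 28017, nat_lit 256, nat_lit 65800436, nat_lit 0, nat_lit 0, nat_lit 448761, false, false⟩,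
 nat_lit 0, nat_lit 11215, nat_lit 0, nat_lit 0, nat_lit 5648, nat_lit 0, nat_lit 157, nat_lit 0, nat_lit 0, nat_lit 0, nat_lit 0, nat_lit 0, nat_lit 0, nat_lit 0, nat_lit 115, nat_lit 1000000, nat_lit 0, nat_lit 0, [(nat_lit 3, [(nat_lit 6, nat_lit 1000)])],
 ⟨p003_k11, nat_lit 0, nat_lit 0, nat_lit 356, nat_lit 0, nat_lit 176089, [nat_lit 3341142858, nat_lit 23600000], [], [nat_lit 16292648782, nat_lit 16264106882, nat_lit 17941523054, nat_lit 16534363390], nat_lit 1271250, nat_lit 1271250, nat_lit 0, nat_lit 490000, nat_lit 0, nat_lit 0, [nat_lit 1412500, nat_lit 1271250], [nat_lit 51, nat_lit 40, nat_lit 20, nat_lit 80, nat_lit 1, nat_lit 317, nat_lit 100, nat_lit 10]⟩, C1.Rw.none,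
 ⟨nat_lit 6324, nat_lit 6520, ⟨.ofNat (nat_lit 36263), .ofNat (nat_lit 204638), .ofNat (nat_lit 57661), .ofNat (nat_lit 226037), .ofNat (nat_lit 45942), .ofNat (nat_lit 210470), .ofNat (nat_lit 67309), .ofNat (nat_lit 231838)⟩, ⟨.ofNat (nat_lit 0), .ofNat (nat_lit 0), .ofNat (nat_lit 0), .ofNat (nat_lit 0), .ofNat (nat_lit 0), .ofNat (nat_lit 0), .ofNat (nat_lit 0), .ofNat (nat_lit 0)⟩⟩, []⟩
noncomputable def p003_l19 : Lf2 := ⟨nat_lit 0, nat_lit 5, [nat_lit 4, nat_lit 5, nat_lit 5, nat_lit 20], false, nat_lit 0, nat_lit 0, nat_lit 0, nat_lit 0, ⟨nat_lit 0, nat_lit 0, nat_lit 1000, nat_lit 4, nat_lit 103, nat_lit 0, nat_lit 0, nat_lit 0, nat_lit 0, nat_lit 215, nat_lit 98817, nat_lit 292, nat_lit 62837702, nat_lit 0, nat_lit 0, nat_lit 1163852, false, false⟩,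
 nat_lit 0, nat_lit 13254, nat_lit 0, nat_lit 0, nat_lit 6338, nat_lit 0, nat_lit 1226, nat_lit 0, nat_lit 0, nat_lit 0, nat_lit 0, nat_lit 0, nat_lit 0, nat_lit 0, nat_lit 115, nat_lit 1000000, nat_lit 0, nat_lit 0, [(nat_lit 3, [(nat_lit 6, nat_lit 1000)])],
 ⟨p003_k0, nat_lit 0, nat_lit 0, nat_lit 289, nat_lit 0, nat_lit 186084, [nat_lit 3341142858, nat_lit 23600000], [], [nat_lit 9179521984, nat_lit 10506630500, nat_lit 10667984192, nat_lit 10611399284], nat_lit 1271250, nat_lit 1271250, nat_lit 490000, nat_lit 780000, nat_lit 0, nat_lit 0, [nat_lit 1412500, nat_lit 1271250], [nat_lit 51, nat_lit 40, nat_lit 20, nat_lit 80, nat_lit 1, nat_lit 317, nat_lit 100, nat_lit 9]⟩, ⟨p003_k1, nat_lit 0, nat_lit 0, nat_lit 559, nat_lit 0, nat_lit 275078, [nat_lit 0, nat_lit 0], [], [nat_lit 0, nat_lit 0, nat_lit 0, nat_lit 0], nat_lit 1100001, nat_lit 1271250, nat_lit 490000, nat_lit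 780000, nat_lit 0, nat_lit 0, [nat_lit 1695000, nat_lit 1271250], [nat_lit 121, nat_lit 40, nat_lit 20, nat_lit 80, nat_lit 28, nat_lit 289, nat_lit 75, nat_lit 7]⟩,
 ⟨nat_lit 6324, nat_lit 6709, ⟨.ofNat (nat_lit 198655), .ofNat (nat_lit 284811), .ofNat (nat_lit 220094), .ofNat (nat_lit 306249), .ofNat (nat_lit 210470), .ofNat (nat_lit 292734), .ofNat (nat_lit 231838), .ofNat (nat_lit 314102)⟩, ⟨.ofNat (nat_lit 0), .ofNat (nat_lit 0), .ofNat (nat_lit 0), .ofNat (nat_lit 0), .ofNat (nat_lit 0), .ofNat (nat_lit 0), .ofNat (nat_lit 0), .ofNat (nat_lit 0)⟩⟩, []⟩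
noncomputable def p003_l20 : Lf2 := ⟨nat_lit 0, nat_lit 5, [nat_lit 4, nat_lit 5, nat_lit 5, nat_lit 20], false, nat_lit 0, nat_lit 0, nat_lit 0, nat_lit 0, ⟨nat_lit 196, nat_lit 0, nat_lit 804, nat_lit 4, nat_lit 136, nat_lit 0, nat_lit 0, nat_lit 0, nat_lit 0, nat_lit 215, nat_lit 173400, nat_lit 317, nat_lit 60053213, nat_lit 0, nat_lit 0, nat_lit 1665505, false, false⟩,
 nat_lit 5828, nat_lit 13247, nat_lit 0, nat_lit 0, nat_lit 9122, nat_lit 1942, nat_lit 1614, nat_lit 0, nat_lit 0, nat_lit 499, nat_lit 0, nat_lit 0, nat_lit 0, nat_lit 0, nat_lit 23, nat_lit 804000, nat_lit 0, nat_lit 0, [(nat_lit 3, [(nat_lit 6, nat_lit 804)])],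
 ⟨p003_k7, nat_lit 0, nat_lit 0, nat_lit 230, nat_lit 0, nat_lit 131093, [nat_lit 2522078858, nat_lit 1100366400, nat_lit 3126400], [], [nat_lit 8966648856, nat_lit 9738393920, nat_lit 12139375696, nat_lit 10898903150], nat_lit 1271250, nat_lit 1271250, nat_lit 780000, nat_lit 1100001, nat_lit 0, nat_lit 0, [nat_lit 1412500, nat_lit 1271250, nat_lit 1271250], [nat_lit 25, nat_lit 40, nat_lit 20, nat_lit 80, nat_lit 17, nat_lit 317, nat_lit 100, nat_lit 9]⟩, ⟨p003_k8, nat_lit 0, nat_lit 0, nat_lit 449, nat_lit 0, nat_lit 193788, [nat_lit 1561728000, nat_lit 1929032000, nat_lit 2755368000], [], [nat_lit 7949137240, nat_lit 6937786364, nat_lit 6867172592, nat_lit 7335335404], nat_lit 1100001, nat_lit 1271250, nat_lit 780000, nat_lit 1100001, nat_lit 0, nat_lit 0, [nat_lit 1695000, nat_lit 1271250, nat_lit 1271250], [nat_lit 92, nat_lit 40, nat_lit 20, nat_lit 80, nat_lit 32, nat_lit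 317, nat_lit 100, nat_lit 8]⟩,
 ⟨nat_lit 6519, nat_lit 6709, ⟨.ofNat (nat_lit 284811), .ofNat (nat_lit 370966), .ofNat (nat_lit 306249), .ofNat (nat_lit 392405), .ofNat (nat_lit 288826), .ofNat (nat_lit 373014), .ofNat (nat_lit 310225), .ofNat (nat_lit 394412)⟩, ⟨.ofNat (nat_lit 0), .ofNat (nat_lit 0), .ofNat (nat_lit 0), .ofNat (nat_lit 0), .ofNat (nat_lit 0), .ofNat (nat_lit 0), .ofNat (nat_lit 0), .ofNat (nat_lit 0)⟩⟩, []⟩
noncomputable def p003_l21 : Lf2 := ⟨nat_lit 0, nat_lit 5, [nat_lit 4, nat_lit 5, nat_lit 5, nat_lit 20], false, nat_lit 0, nat_lit 0, nat_lit 0, nat_lit 0, ⟨nat_lit 212, nat_lit 0, nat_lit 788, nat_lit 4, nat_lit 137, nat_lit 0, nat_lit 0, nat_lit 0, nat_lit 0, nat_lit 215, nat_lit 176817, nat_lit 318, nat_lit 59944146, nat_lit 0, nat_lit 0, nat_lit 1682990, false, false⟩,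
 nat_lit 6303, nat_lit 9174, nat_lit 0, nat_lit 0, nat_lit 7794, nat_lit 2100, nat_lit 1477, nat_lit 0, nat_lit 0, nat_lit 540, nat_lit 0, nat_lit 0, nat_lit 0, nat_lit 0, nat_lit 16, nat_lit 788000, nat_lit 0, nat_lit 0, [(nat_lit 3, [(nat_lit 6, nat_lit 788)])],
 ⟨p003_k13, nat_lit 0, nat_lit 0, nat_lit 228, nat_lit 0, nat_lit 176089, [nat_lit 2465420572, nat_lit 1080020800, nat_lit 15740800], [], [nat_lit 9936042026, nat_lit 10637788240, nat_lit 11856123738, nat_lit 11743145944], nat_lit 1271250, nat_lit 1271250, nat_lit 780000, nat_lit 1100001, nat_lit 0, nat_lit 0, [nat_lit 1412500, nat_lit 1271250, nat_lit 1271250], [nat_lit 25, nat_lit 40, nat_lit 20, nat_lit 80, nat_lit 17, nat_lit 317, nat_lit 100, nat_lit 9]⟩, ⟨p003_k8, nat_lit 0, nat_lit 0, nat_lit 485, nat_lit 0, nat_lit 275078, [nat_lit 1689216000, nat_lit 2086504000, nat_lit 2980296000], [], [nat_lit 8597798944,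 nat_lit 7504165144, nat_lit 7427829840, nat_lit 7934118792], nat_lit 1100001, nat_lit 1271250, nat_lit 780000, nat_lit 1100001, nat_lit 0, nat_lit 0, [nat_lit 1695000, nat_lit 1271250, nat_lit 1271250], [nat_lit 92, nat_lit 40, nat_lit 20, nat_lit 80, nat_lit 32, nat_lit 317, nat_lit 100, nat_lit 8]⟩,
 ⟨nat_lit 6324, nat_lit 6520, ⟨.ofNat (nat_lit 288826), .ofNat (nat_lit 373014), .ofNat (nat_lit 310225), .ofNat (nat_lit 394412), .ofNat (nat_lit 292734), .ofNat (nat_lit 374999), .ofNat (nat_lit 314102), .ofNat (nat_lit 396366)⟩, ⟨.ofNat (nat_lit 0), .ofNat (nat_lit 0), .ofNat (nat_lit 0), .ofNat (nat_lit 0), .ofNat (nat_lit 0), .ofNat (nat_lit 0), .ofNat (nat_lit 0), .ofNat (nat_lit 0)⟩⟩, []⟩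
noncomputable def p003_l22 : Lf2 := ⟨nat_lit 0, nat_lit 5, [nat_lit 4, nat_lit 5, nat_lit 5, nat_lit 20], false, nat_lit 0, nat_lit 0, nat_lit 0, nat_lit 0, ⟨nat_lit 1000, nat_lit 0, nat_lit 0, nat_lit 0, nat_lit 0, nat_lit 0, nat_lit 0, nat_lit 0, nat_lit 0, nat_lit 0, nat_lit 0, nat_lit 0, nat_lit 0, nat_lit 0, nat_lit 0, nat_lit 0, false, false⟩,
 nat_lit 28148, nat_lit 0, nat_lit 0, nat_lit 0, nat_lit 13462, nat_lit 9382, nat_lit 2676, nat_lit 0, nat_lit 0, nat_lit 2459, nat_lit 0, nat_lit 0, nat_lit 0, nat_lit 0, nat_lit 0, nat_lit 0, nat_lit 0, nat_lit 0, [],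
 ⟨p003_k7, nat_lit 0, nat_lit 0, nat_lit 216, nat_lit 0, nat_lit 167977, [nat_lit 6250000000, nat_lit 7968000001, nat_lit 9842000000], [], [nat_lit 31767490732, nat_lit 24756777296, nat_lit 27348811136, nat_lit 22476950776], nat_lit 1271250, nat_lit 1271250, nat_lit 1100001, nat_lit 1785000, nat_lit 0, nat_lit 0, [nat_lit 1412500, nat_lit 1271250, nat_lit 1271250], [nat_lit 25, nat_lit 40, nat_lit 20, nat_lit 80, nat_lit 17, nat_lit 345, nat_lit 125, nat_lit 10]⟩, ⟨p003_k8, nat_lit 0, nat_lit 0, nat_lit 455, nat_lit 0, nat_lit 248311, [nat_lit 7968000000, nat_lit 9842000000, nat_lit 14058000000], [], [nat_lit 35945577112, nat_lit 36217850370, nat_lit 44440938976, nat_lit 45620361086], nat_lit 1100001, nat_lit 1184688, nat_lit 1100001, nat_lit 1785000, nat_lit 0, nat_lit 0, [nat_lit 1695000, nat_lit 1271250, nat_lit 1271250], [nat_lit 92, nat_lit 40, nat_lit 20, nat_lit 80, nat_lit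 32, nat_lit 345, nat_lit 125, nat_lit 8]⟩,
 zbF0, []⟩
noncomputable def p003_l23 : Lf2 := ⟨nat_lit 0, nat_lit 5, [nat_lit 4, nat_lit 5, nat_lit 5, nat_lit 20], false, nat_lit 0, nat_lit 0, nat_lit 0, nat_lit 0, ⟨nat_lit 1000, nat_lit 0, nat_lit 0, nat_lit 0, nat_lit 0, nat_lit 0, nat_lit 0, nat_lit 0, nat_lit 0, nat_lit 0, nat_lit 0, nat_lit 0, nat_lit 0, nat_lit 0, nat_lit 0, nat_lit 0, false, false⟩,
 nat_lit 20502, nat_lit 0, nat_lit 0, nat_lit 0, nat_lit 9805, nat_lit 7311, nat_lit 0, nat_lit 0, nat_lit 0, nat_lit 3661, nat_lit 0, nat_lit 0, nat_lit 0, nat_lit 0, nat_lit 0, nat_lit 0, nat_lit 0, nat_lit 0, [],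
 ⟨p003_k7, nat_lit 0, nat_lit 0, nat_lit 224, nat_lit 0, nat_lit 186084, [nat_lit 6250000000, nat_lit 7968000001, nat_lit 9842000000], [], [nat_lit 31966482730, nat_lit 26860254440, nat_lit 29184157040, nat_lit 29082270640], nat_lit 1271250, nat_lit 1271250, nat_lit 1100001, nat_lit 1785000, nat_lit 0, nat_lit 0, [nat_lit 1412500, nat_lit 1271250, nat_lit 1271250], [nat_lit 25, nat_lit 40, nat_lit 20, nat_lit 80, nat_lit 17, nat_lit 345, nat_lit 125, nat_lit 10]⟩, ⟨p003_k14, nat_lit 0, nat_lit 0, nat_lit 378, nat_lit 0, nat_lit 255461, [nat_lit 7968000000, nat_lit 9842000000, nat_lit 11872000000], [], [nat_lit 37072925925, nat_lit 37329724494, nat_lit 44259355803, nat_lit 45315538458], nat_lit 1184688, nat_lit 1271250, nat_lit 1100001, nat_lit 1785000, nat_lit 0, nat_lit 0, [nat_lit 1695000, nat_lit 1271250, nat_lit 1271250], [nat_lit 106, nat_lit 40, nat_lit 20, nat_lit 80, nat_lit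 41, nat_lit 345, nat_lit 125, nat_lit 9]⟩,
 zbF0, []⟩
noncomputable def p003_l24 : Lf2 := ⟨nat_lit 0, nat_lit 5, [nat_lit 4, nat_lit 5, nat_lit 5, nat_lit 20], false, nat_lit 0, nat_lit 0, nat_lit 0, nat_lit 0, ⟨nat_lit 1000, nat_lit 0, nat_lit 0, nat_lit 0, nat_lit 0, nat_lit 0, nat_lit 0, nat_lit 0, nat_lit 0, nat_lit 0, nat_lit 0, nat_lit 0, nat_lit 0, nat_lit 0, nat_lit 0, nat_lit 0, false, false⟩,
 nat_lit 15248, nat_lit 0, nat_lit 14366, nat_lit 0, nat_lit 7292, nat_lit 9871, nat_lit 3574, nat_lit 0, nat_lit 0, nat_lit 2270, nat_lit 0, nat_lit 0, nat_lit 0, nat_lit 0, nat_lit 0, nat_lit 0, nat_lit 0, nat_lit 0, [],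
 ⟨p003_k7, nat_lit 0, nat_lit 0, nat_lit 310, nat_lit 0, nat_lit 186084, [nat_lit 6250000000, nat_lit 7968000001, nat_lit 9842000000], [], [nat_lit 27276421434, nat_lit 27862724394, nat_lit 36175999991, nat_lit 36516152272], nat_lit 1271250, nat_lit 1271250, nat_lit 1271250, nat_lit 1271250, nat_lit 0, nat_lit 0, [nat_lit 1412500, nat_lit 1271250, nat_lit 1271250], [nat_lit 25, nat_lit 40, nat_lit 20, nat_lit 80, nat_lit 17, nat_lit 401, nat_lit 175, nat_lit 11]⟩, ⟨p003_k8, nat_lit 0, nat_lit 0, nat_lit 458, nat_lit 0, nat_lit 275078, [nat_lit 7968000000, nat_lit 9842000000, nat_lit 14058000000], [], [nat_lit 36418906350, nat_lit 36517077462, nat_lit 44969144514, nat_lit 44836173621], nat_lit 1100001, nat_lit 1271250, nat_lit 1271250, nat_lit 1271250, nat_lit 0, nat_lit 0, [nat_lit 1695000, nat_lit 1271250, nat_lit 1271250], [nat_lit 92, nat_lit 40, nat_lit 20, nat_lit 80, nat_lit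 32, nat_lit 373, nat_lit 150, nat_lit 9]⟩,
 zbF0, []⟩
noncomputable def p003_l25 : Lf2 := ⟨nat_lit 0, nat_lit 5, [nat_lit 4, nat_lit 5, nat_lit 5, nat_lit 20], true, nat_lit 0, nat_lit 0, nat_lit 0, nat_lit 0, ⟨nat_lit 0, nat_lit 1000, nat_lit 0, nat_lit 4, nat_lit 86, nat_lit 0, nat_lit 0, nat_lit 0, nat_lit 0, nat_lit 0, nat_lit 0, nat_lit 0, nat_lit 0, nat_lit 0, nat_lit 0, nat_lit 5000000, false, false⟩,
 nat_lit 0, nat_lit 6297, nat_lit 0, nat_lit 0, nat_lit 3011, nat_lit 0, nat_lit 412, nat_lit 0, nat_lit 0, nat_lit 0, nat_lit 0, nat_lit 0, nat_lit 0, nat_lit 0, nat_lit 0, nat_lit 1000000, nat_lit 0, nat_lit 0, [(nat_lit 3, [(nat_lit 2, nat_lit 1000)])],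
 ⟨p003_k7, nat_lit 0, nat_lit 0, nat_lit 473, nat_lit 0, nat_lit 345774, [nat_lit 3292500000, nat_lit 3077200001, nat_lit 1896400000], [], [nat_lit 31642765259, nat_lit 32163226439, nat_lit 32703929134, nat_lit 32136887531], nat_lit 1271250, nat_lit 1271250, nat_lit 0, nat_lit 1100001, nat_lit 0, nat_lit 0, [nat_lit 1412500, nat_lit 1271250, nat_lit 1271250], [nat_lit 25, nat_lit 40, nat_lit 20, nat_lit 80, nat_lit 17, nat_lit 317, nat_lit 100, nat_lit 10]⟩, C1.Rw.none,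
 ⟨nat_lit 6324, nat_lit 6709, ⟨.ofNat (nat_lit 26344), .ofNat (nat_lit 370966), .ofNat (nat_lit 47783), .ofNat (nat_lit 392405), .ofNat (nat_lit 45942), .ofNat (nat_lit 374999), .ofNat (nat_lit 67309), .ofNat (nat_lit 396366)⟩, ⟨.ofNat (nat_lit 0), .ofNat (nat_lit 0), .ofNat (nat_lit 0), .ofNat (nat_lit 0), .ofNat (nat_lit 0), .ofNat (nat_lit 0), .ofNat (nat_lit 0), .ofNat (nat_lit 0)⟩⟩, []⟩
noncomputable def p003_l26 : Lf2 := ⟨nat_lit 0, nat_lit 5, [nat_lit 4, nat_lit 5, nat_lit 5, nat_lit 20], false, nat_lit 0, nat_lit 0, nat_lit 0, nat_lit 0, ⟨nat_lit 941, nat_lit 59, nat_lit 0, nat_lit 4, nat_lit 253, nat_lit 0, nat_lit 0, nat_lit 0, nat_lit 0, nat_lit 0, nat_lit 0, nat_lit 0, nat_lit 0, nat_lit 0, nat_lit 0, nat_lit 5000000, false, true⟩,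
 nat_lit 0, nat_lit 12975, nat_lit 0, nat_lit 6654, nat_lit 6205, nat_lit 8468, nat_lit 2027, nat_lit 0, nat_lit 0, nat_lit 2956, nat_lit 0, nat_lit 0, nat_lit 0, nat_lit 0, nat_lit 0, nat_lit 59000, nat_lit 0, nat_lit 0, [(nat_lit 3, [(nat_lit 2, nat_lit 59)])],
 ⟨p003_k7, nat_lit 0, nat_lit 0, nat_lit 368, nat_lit 0, nat_lit 345774, [nat_lit 6075507500, nat_lit 7679442800, nat_lit 9373209600], [], [nat_lit 31813388130, nat_lit 30096929400, nat_lit 45341435704, nat_lit 42373271472], nat_lit 1271250, nat_lit 1271250, nat_lit 1100001, nat_lit 3120750, nat_lit 0, nat_lit 0, [nat_lit 1412500, nat_lit 1271250, nat_lit 1271250], [nat_lit 25, nat_lit 40, nat_lit 20, nat_lit 80, nat_lit 17, nat_lit 401, nat_lit 175, nat_lit 12]⟩, ⟨p003_k8, nat_lit 0, nat_lit 0, nat_lit 311, nat_lit 0, nat_lit 0, [nat_lit 7497888000, nat_lit 9261322000, nat_lit 13228578000], [], [nat_lit 26097912728,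 nat_lit 26377034672, nat_lit 39658764464, nat_lit 39636888047], nat_lit 0, nat_lit 0, nat_lit 0, nat_lit 0, nat_lit 0, nat_lit 0, [], [nat_lit 92, nat_lit 40, nat_lit 20, nat_lit 80, nat_lit 32, nat_lit 373, nat_lit 150, nat_lit 9]⟩,
 ⟨nat_lit 6324, nat_lit 6709, ⟨.ofNat (nat_lit 370966), .ofNat (nat_lit 879155), .ofNat (nat_lit 392405), .ofNat (nat_lit 900587), .ofNat (nat_lit 374999), .ofNat (nat_lit 860229), .ofNat (nat_lit 396366), .ofNat (nat_lit 881590)⟩, ⟨.ofNat (nat_lit 0), .ofNat (nat_lit 0), .ofNat (nat_lit 0), .ofNat (nat_lit 0), .ofNat (nat_lit 0), .ofNat (nat_lit 0), .ofNat (nat_lit 0), .ofNat (nat_lit 0)⟩⟩, []⟩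
noncomputable def p003_l27 : Lf2 := ⟨nat_lit 0, nat_lit 5, [nat_lit 4, nat_lit 5, nat_lit 5, nat_lit 20], true, nat_lit 0, nat_lit 0, nat_lit 0, nat_lit 0, ⟨nat_lit 0, nat_lit 1000, nat_lit 0, nat_lit 4, nat_lit 86, nat_lit 0, nat_lit 0, nat_lit 0, nat_lit 0, nat_lit 0, nat_lit 0, nat_lit 0, nat_lit 0, nat_lit 0, nat_lit 0, nat_lit 5000000, false, false⟩,
 nat_lit 0, nat_lit 6297, nat_lit 0, nat_lit 0, nat_lit 3011, nat_lit 0, nat_lit 412, nat_lit 0, nat_lit 0, nat_lit 0, nat_lit 0, nat_lit 0, nat_lit 0, nat_lit 0, nat_lit 0, nat_lit 1000000, nat_lit 0, nat_lit 0, [(nat_lit 3, [(nat_lit 2, nat_lit 1000)])],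
 ⟨p003_k7, nat_lit 0, nat_lit 0, nat_lit 473, nat_lit 0, nat_lit 345774, [nat_lit 3292500000, nat_lit 3077200001, nat_lit 1896400000], [], [nat_lit 31642765259, nat_lit 32163226439, nat_lit 32703929134, nat_lit 32136887531], nat_lit 1271250, nat_lit 1271250, nat_lit 0, nat_lit 1100001, nat_lit 0, nat_lit 0, [nat_lit 1412500, nat_lit 1271250, nat_lit 1271250], [nat_lit 25, nat_lit 40, nat_lit 20, nat_lit 80, nat_lit 17, nat_lit 317, nat_lit 100, nat_lit 10]⟩, C1.Rw.none,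
 ⟨nat_lit 6324, nat_lit 6709, ⟨.ofNat (nat_lit 26344), .ofNat (nat_lit 370966), .ofNat (nat_lit 47783), .ofNat (nat_lit 392405), .ofNat (nat_lit 45942), .ofNat (nat_lit 374999), .ofNat (nat_lit 67309), .ofNat (nat_lit 396366)⟩, ⟨.ofNat (nat_lit 0), .ofNat (nat_lit 0), .ofNat (nat_lit 0), .ofNat (nat_lit 0), .ofNat (nat_lit 0), .ofNat (nat_lit 0), .ofNat (nat_lit 0), .ofNat (nat_lit 0)⟩⟩, []⟩
noncomputable def p003_l28 : Lf2 := ⟨nat_lit 0, nat_lit 5, [nat_lit 4, nat_lit 5, nat_lit 5, nat_lit 20], false, nat_lit 0, nat_lit 0, nat_lit 0, nat_lit 0, ⟨nat_lit 70, nat_lit 930, nat_lit 0, nat_lit 4, nat_lit 253, nat_lit 0, nat_lit 0, nat_lit 0, nat_lit 0, nat_lit 0, nat_lit 0, nat_lit 0, nat_lit 0, nat_lit 0, nat_lit 0, nat_lit 5000000, false, true⟩,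
 nat_lit 794, nat_lit 4811, nat_lit 0, nat_lit 106, nat_lit 2680, nat_lit 264, nat_lit 0, nat_lit 0, nat_lit 0, nat_lit 115, nat_lit 0, nat_lit 0, nat_lit 0, nat_lit 0, nat_lit 0, nat_lit 873000, nat_lit 0, nat_lit 0, [(nat_lit 3, [(nat_lit 1, nat_lit 95), (nat_lit 2, nat_lit 835)])],
 ⟨p003_k7, nat_lit 0, nat_lit 0, nat_lit 310, nat_lit 0, nat_lit 186084, [nat_lit 3504417500, nat_lit 3457594001, nat_lit 2596194000], [], [nat_lit 29803778541, nat_lit 30344937501, nat_lit 36653004184, nat_lit 37001360158], nat_lit 1271250, nat_lit 1271250, nat_lit 1100001, nat_lit 3120750, nat_lit 0, nat_lit 0, [nat_lit 1412500, nat_lit 1271250, nat_lit 1271250], [nat_lit 25, nat_lit 40, nat_lit 20, nat_lit 80, nat_lit 17, nat_lit 401, nat_lit 175, nat_lit 12]⟩, ⟨p003_k8, nat_lit 0, nat_lit 0, nat_lit 467, nat_lit 0, nat_lit 275078, [nat_lit 557760000, nat_lit 688940000, nat_lit 984060000], [],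 [nat_lit 3367999707, nat_lit 3385916347, nat_lit 3759323322, nat_lit 3771459538], nat_lit 1100001, nat_lit 1271250, nat_lit 1100001, nat_lit 3120750, nat_lit 0, nat_lit 0, [nat_lit 1695000, nat_lit 1271250, nat_lit 1271250], [nat_lit 92, nat_lit 40, nat_lit 20, nat_lit 80, nat_lit 32, nat_lit 373, nat_lit 150, nat_lit 9]⟩,
 ⟨nat_lit 6324, nat_lit 6709, ⟨.ofNat (nat_lit 370966), .ofNat (nat_lit 879155), .ofNat (nat_lit 392405), .ofNat (nat_lit 900587), .ofNat (nat_lit 374999), .ofNat (nat_lit 860229), .ofNat (nat_lit 396366), .ofNat (nat_lit 881590)⟩, ⟨.ofNat (nat_lit 0), .ofNat (nat_lit 0), .ofNat (nat_lit 0), .ofNat (nat_lit 0), .ofNat (nat_lit 0), .ofNat (nat_lit 0), .ofNat (nat_lit 0), .ofNat (nat_lit 0)⟩⟩, [⟨nat_lit 13, nat_lit 100, nat_lit 20, nat_lit 100, nat_lit 151257730⟩]⟩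
noncomputable def b_NL_550_400_0_0 : St := ⟨false, nat_lit 2, nat_lit 2, nat_lit 0, nat_lit 20, nat_lit 220, nat_lit 240, nat_lit 160, nat_lit 180, nat_lit 0, nat_lit 400, nat_lit 0, nat_lit 0, nat_lit 0, nat_lit 0, nat_lit 0, nat_lit 0, nat_lit 0, nat_lit 20, nat_lit 0, nat_lit 0, nat_lit 0, nat_lit 0⟩
theorem d_NL_550_400_0_0 (h : EB TB.env) : Dead b_NL_550_400_0_0 := chkB_sound0 h (T :=
(.trX (nat_lit 13) (nat_lit 100) (nat_lit 20) (nat_lit 100) (nat_lit 396) (.st (nat_lit 0)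
(.gv
(.st (nat_lit 1)
(.spl (nat_lit 2) (nat_lit 160)
(.leaf p003_l0)
(.leaf p003_l1))
(.spl (nat_lit 2) (nat_lit 160)
(.leaf p003_l2)
(.spl (nat_lit 2) (nat_lit 240)
(.leaf p003_l3)
(.spl (nat_lit 6) (nat_lit 8)
(.spl (nat_lit 1) (nat_lit 170)
(.spl (nat_lit 0) (nat_lit 230)
(.leaf p003_l4)
(.trX (nat_lit 13) (nat_lit 100) (nat_lit 30) (nat_lit 100) (nat_lit 392) (.leaf p003_l5)))
(.leaf p003_l6))
(.leaf p003_l7)))))
(.leaf p003_l8))
(.gv
(.st (nat_lit 1)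
(.spl (nat_lit 2) (nat_lit 160)
(.spl (nat_lit 2) (nat_lit 80)
(.spl (nat_lit 0) (nat_lit 230)
(.spl (nat_lit 6) (nat_lit 12)
(.spl (nat_lit 0) (nat_lit 225)
(.leaf p003_l9)
(.leaf p003_l10))
(.leaf p003_l11))
(.leaf p003_l12))
(.leaf p003_l13))
(.leaf p003_l14))
(.spl (nat_lit 2) (nat_lit 120)
(.spl (nat_lit 2) (nat_lit 80)
(.spl (nat_lit 0) (nat_lit 230)
(.spl (nat_lit 6) (nat_lit 12)
(.spl (nat_lit 0) (nat_lit 225)
(.leaf p003_l15)
(.leaf p003_l16))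
(.leaf p003_l17))
(.leaf p003_l18))
(.leaf p003_l19))
(.spl (nat_lit 2) (nat_lit 240)
(.spl (nat_lit 2) (nat_lit 160)
(.spl (nat_lit 0) (nat_lit 230)
(.leaf p003_l20)
(.leaf p003_l21))
(.spl (nat_lit 1) (nat_lit 170)
(.leaf p003_l22)
(.leaf p003_l23)))
(.leaf p003_l24))))
(.st (nat_lit 1)
(.spl (nat_lit 2) (nat_lit 160)
(.leaf p003_l25)
(.leaf p003_l26))
(.spl (nat_lit 2) (nat_lit 160)
(.leaf p003_l27)
(.leaf p003_l28))))))) (by decide +kernel)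
noncomputable def p003_l29 : Lf2 := ⟨nat_lit 0, nat_lit 5, [nat_lit 4, nat_lit 5, nat_lit 5, nat_lit 20], true, nat_lit 0, nat_lit 0, nat_lit 0, nat_lit 0, ⟨nat_lit 0, nat_lit 0, nat_lit 1000, nat_lit 4, nat_lit 128, nat_lit 0, nat_lit 0, nat_lit 0, nat_lit 0, nat_lit 215, nat_lit 644, nat_lit 217, nat_lit 60745950, nat_lit 0, nat_lit 0, nat_lit 1551032, false, false⟩,
 nat_lit 0, nat_lit 0, nat_lit 0, nat_lit 6999, nat_lit 4602, nat_lit 0, nat_lit 209, nat_lit 0, nat_lit 0, nat_lit 0, nat_lit 0, nat_lit 0, nat_lit 0, nat_lit 0, nat_lit 115, nat_lit 1000000, nat_lit 0, nat_lit 0, [(nat_lit 3, [(nat_lit 6, nat_lit 1000)])],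
 ⟨p003_k7, nat_lit 0, nat_lit 0, nat_lit 298, nat_lit 0, nat_lit 0, [nat_lit 3341142858, nat_lit 1499600000, nat_lit 23600000], [], [nat_lit 14044582028, nat_lit 15045997700, nat_lit 16276210268, nat_lit 17124168508], nat_lit 0, nat_lit 0, nat_lit 0, nat_lit 0, nat_lit 0, nat_lit 0, [], [nat_lit 25, nat_lit 40, nat_lit 20, nat_lit 80, nat_lit 17, nat_lit 345, nat_lit 125, nat_lit 11]⟩, C1.Rw.none,
 ⟨nat_lit 6324, nat_lit 6709, ⟨.ofNat (nat_lit 47783), .ofNat (nat_lit 564694), .ofNat (nat_lit 69221), .ofNat (nat_lit 586126), .ofNat (nat_lit 67309), .ofNat (nat_lit 560873), .ofNat (nat_lit 88677), .ofNat (nat_lit 582235)⟩, ⟨.ofNat (nat_lit 0), .ofNat (nat_lit 0), .ofNat (nat_lit 0), .ofNat (nat_lit 0), .ofNat (nat_lit 0), .ofNat (nat_lit 0), .ofNat (nat_lit 0), .ofNat (nat_lit 0)⟩⟩, [⟨nat_lit 0, nat_lit 100, nat_lit 98, nat_lit 20, nat_lit 12202743⟩]⟩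
noncomputable def p003_l30 : Lf2 := ⟨nat_lit 0, nat_lit 5, [nat_lit 4, nat_lit 5, nat_lit 5, nat_lit 20], false, nat_lit 0, nat_lit 0, nat_lit 0, nat_lit 0, ⟨nat_lit 1000, nat_lit 0, nat_lit 0, nat_lit 0, nat_lit 0, nat_lit 0, nat_lit 0, nat_lit 0, nat_lit 0, nat_lit 0, nat_lit 0, nat_lit 0, nat_lit 0, nat_lit 0, nat_lit 0, nat_lit 0, false, false⟩,
 nat_lit 0, nat_lit 0, nat_lit 0, nat_lit 34094, nat_lit 0, nat_lit 9029, nat_lit 1837, nat_lit 0, nat_lit 0, nat_lit 4235, nat_lit 0, nat_lit 0, nat_lit 0, nat_lit 0, nat_lit 0, nat_lit 0, nat_lit 0, nat_lit 0, [],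
 ⟨p003_k7, nat_lit 0, nat_lit 0, nat_lit 226, nat_lit 0, nat_lit 0, [nat_lit 6250000000, nat_lit 7968000001, nat_lit 9842000000], [], [nat_lit 34588043750, nat_lit 35114077251, nat_lit 39351219251, nat_lit 39812349251], nat_lit 0, nat_lit 0, nat_lit 0, nat_lit 0, nat_lit 0, nat_lit 0, [], [nat_lit 25, nat_lit 40, nat_lit 20, nat_lit 80, nat_lit 17, nat_lit 401, nat_lit 175, nat_lit 11]⟩, ⟨p003_k15, nat_lit 0, nat_lit 0, nat_lit 276, nat_lit 0, nat_lit 0, [nat_lit 7968000000, nat_lit 9842000000, nat_lit 11872000000], [], [nat_lit 27383090808, nat_lit 27813637358, nat_lit 39814656756, nat_lit 40018179048], nat_lit 0, nat_lit 0, nat_lit 0, nat_lit 0, nat_lit 0, nat_lit 0, [], [nat_lit 106, nat_lit 40, nat_lit 20, nat_lit 80, nat_lit 41, nat_lit 373, nat_lit 150, nat_lit 10]⟩,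
 zbF0, []⟩
noncomputable def p003_l31 : Lf2 := ⟨nat_lit 0, nat_lit 5, [nat_lit 4, nat_lit 5, nat_lit 5, nat_lit 20], true, nat_lit 0, nat_lit 0, nat_lit 0, nat_lit 0, ⟨nat_lit 0, nat_lit 0, nat_lit 1000, nat_lit 4, nat_lit 128, nat_lit 0, nat_lit 0, nat_lit 0, nat_lit 0, nat_lit 215, nat_lit 644, nat_lit 217, nat_lit 60745950, nat_lit 0, nat_lit 0, nat_lit 1551032, false, false⟩,
 nat_lit 0, nat_lit 0, nat_lit 0, nat_lit 5889, nat_lit 4968, nat_lit 0, nat_lit 0, nat_lit 0, nat_lit 0, nat_lit 0, nat_lit 0, nat_lit 0, nat_lit 0, nat_lit 0, nat_lit 115, nat_lit 1000000, nat_lit 0, nat_lit 0, [(nat_lit 3, [(nat_lit 6, nat_lit 1000)])],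
 ⟨p003_k0, nat_lit 0, nat_lit 0, nat_lit 294, nat_lit 0, nat_lit 0, [nat_lit 3341142858, nat_lit 23600000], [], [nat_lit 14726509540, nat_lit 15933756512, nat_lit 15759226484, nat_lit 16629554644], nat_lit 0, nat_lit 0, nat_lit 0, nat_lit 0, nat_lit 0, nat_lit 0, [], [nat_lit 51, nat_lit 40, nat_lit 20, nat_lit 80, nat_lit 1, nat_lit 345, nat_lit 125, nat_lit 11]⟩, C1.Rw.none,
 ⟨nat_lit 6324, nat_lit 6709, ⟨.ofNat (nat_lit 47783), .ofNat (nat_lit 564694), .ofNat (nat_lit 69221), .ofNat (nat_lit 586126), .ofNat (nat_lit 67309), .ofNat (nat_lit 560873), .ofNat (nat_lit 88677), .ofNat (nat_lit 582235)⟩, ⟨.ofNat (nat_lit 0), .ofNat (nat_lit 0), .ofNat (nat_lit 0), .ofNat (nat_lit 0), .ofNat (nat_lit 0), .ofNat (nat_lit 0), .ofNat (nat_lit 0), .ofNat (nat_lit 0)⟩⟩, [⟨nat_lit 0, nat_lit 100, nat_lit 99, nat_lit 10, nat_lit 24273430⟩, ⟨nat_lit 0, nat_lit 100, nat_lit 98, nat_lit 20,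 nat_lit 17075097⟩]⟩
noncomputable def p003_l32 : Lf2 := ⟨nat_lit 0, nat_lit 5, [nat_lit 4, nat_lit 5, nat_lit 5, nat_lit 20], false, nat_lit 0, nat_lit 0, nat_lit 0, nat_lit 0, ⟨nat_lit 763, nat_lit 237, nat_lit 0, nat_lit 6, nat_lit 297, nat_lit 0, nat_lit 0, nat_lit 0, nat_lit 0, nat_lit 0, nat_lit 0, nat_lit 0, nat_lit 43216566, nat_lit 23783434, nat_lit 0, nat_lit 3252364, true, true⟩,
 nat_lit 0, nat_lit 0, nat_lit 18648, nat_lit 0, nat_lit 6373, nat_lit 7091, nat_lit 3741, nat_lit 0, nat_lit 0, nat_lit 2272, nat_lit 0, nat_lit 0, nat_lit 0, nat_lit 0, nat_lit 0, nat_lit 237000, nat_lit 0, nat_lit 0, [(nat_lit 3, [(nat_lit 2, nat_lit 237)])],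
 ⟨p003_k7, nat_lit 0, nat_lit 0, nat_lit 226, nat_lit 0, nat_lit 0, [nat_lit 5549072500, nat_lit 6808880400, nat_lit 7958892800], [], [nat_lit 22891408628, nat_lit 23746691308, nat_lit 34319217334, nat_lit 34772530196], nat_lit 0, nat_lit 0, nat_lit 0, nat_lit 0, nat_lit 0, nat_lit 0, [], [nat_lit 25, nat_lit 40, nat_lit 20, nat_lit 80, nat_lit 17, nat_lit 401, nat_lit 175, nat_lit 11]⟩, ⟨p003_k15, nat_lit 0, nat_lit 0, nat_lit 598, nat_lit 0, nat_lit 715025, [nat_lit 6079584000, nat_lit 7509446000, nat_lit 9058336000], [], [nat_lit 28141615838, nat_lit 28060331404, nat_lit 31216327198, nat_lit 31033367400], nat_lit 1271250, nat_lit 1271250, nat_lit 1271250, nat_lit 1271250, nat_lit 0, nat_lit 0, [nat_lit 1695000, nat_lit 1271250, nat_lit 1271250], [nat_lit 106, nat_lit 40, nat_lit 20, nat_lit 80, nat_lit 41, nat_lit 373, nat_lit 150, nat_lit 10]⟩,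
 ⟨nat_lit 6324, nat_lit 6709, ⟨.ofNat (nat_lit 564694), .ofNat (nat_lit 909199), .ofNat (nat_lit 586126), .ofNat (nat_lit 930631), .ofNat (nat_lit 560873), .ofNat (nat_lit 889813), .ofNat (nat_lit 582235), .ofNat (nat_lit 911175)⟩, ⟨.ofNat (nat_lit 0), .ofNat (nat_lit 0), .ofNat (nat_lit 0), .ofNat (nat_lit 0), .ofNat (nat_lit 0), .ofNat (nat_lit 0), .ofNat (nat_lit 0), .ofNat (nat_lit 0)⟩⟩, []⟩
noncomputable def p003_l33 : Lf2 := ⟨nat_lit 0, nat_lit 5, [nat_lit 4, nat_lit 5, nat_lit 5, nat_lit 20], true, nat_lit 0, nat_lit 0, nat_lit 0, nat_lit 0, ⟨nat_lit 0, nat_lit 1000, nat_lit 0, nat_lit 4, nat_lit 196, nat_lit 0, nat_lit 0, nat_lit 0, nat_lit 0, nat_lit 0, nat_lit 0, nat_lit 0, nat_lit 0, nat_lit 0, nat_lit 0, nat_lit 5000000, false, true⟩,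
 nat_lit 0, nat_lit 0, nat_lit 0, nat_lit 6436, nat_lit 5245, nat_lit 0, nat_lit 103, nat_lit 0, nat_lit 0, nat_lit 0, nat_lit 0, nat_lit 0, nat_lit 0, nat_lit 0, nat_lit 0, nat_lit 1000000, nat_lit 0, nat_lit 0, [(nat_lit 3, [(nat_lit 2, nat_lit 1000)])],
 ⟨p003_k0, nat_lit 0, nat_lit 0, nat_lit 294, nat_lit 0, nat_lit 0, [nat_lit 3467600001, nat_lit 2309199999], [], [nat_lit 26565891139, nat_lit 27188663319, nat_lit 31587918001, nat_lit 31998183719], nat_lit 0, nat_lit 0, nat_lit 0, nat_lit 0, nat_lit 0, nat_lit 0, [], [nat_lit 51, nat_lit 40, nat_lit 20, nat_lit 80, nat_lit 1, nat_lit 401, nat_lit 175, nat_lit 12]⟩, C1.Rw.none,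
 ⟨nat_lit 6324, nat_lit 6709, ⟨.ofNat (nat_lit 47783), .ofNat (nat_lit 909199), .ofNat (nat_lit 69221), .ofNat (nat_lit 930631), .ofNat (nat_lit 67309), .ofNat (nat_lit 889813), .ofNat (nat_lit 88677), .ofNat (nat_lit 911175)⟩, ⟨.ofNat (nat_lit 0), .ofNat (nat_lit 0), .ofNat (nat_lit 0), .ofNat (nat_lit 0), .ofNat (nat_lit 0), .ofNat (nat_lit 0), .ofNat (nat_lit 0), .ofNat (nat_lit 0)⟩⟩, [⟨nat_lit 13, nat_lit 99, nat_lit 20, nat_lit 100, nat_lit 89193830⟩]⟩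
noncomputable def b_NL_550_450_0_0 : St := ⟨false, nat_lit 0, nat_lit 2, nat_lit 0, nat_lit 20, nat_lit 220, nat_lit 240, nat_lit 180, nat_lit 200, nat_lit 0, nat_lit 400, nat_lit 0, nat_lit 0, nat_lit 0, nat_lit 0, nat_lit 0, nat_lit 0, nat_lit 0, nat_lit 24, nat_lit 0, nat_lit 0, nat_lit 0, nat_lit 0⟩
theorem d_NL_550_450_0_0 (h : EB TB.env) : Dead b_NL_550_450_0_0 := chkB_sound0 h (T :=
(.gv
(.st (nat_lit 1)
(.spl (nat_lit 2) (nat_lit 240)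
(.leaf p003_l29)
(.leaf p003_l30))
(.spl (nat_lit 2) (nat_lit 240)
(.leaf p003_l31)
(.leaf p003_l32)))
(.leaf p003_l33))) (by decide +kernel)
noncomputable def p003_l34 : Lf2 := ⟨nat_lit 0, nat_lit 2, [nat_lit 10, nat_lit 5, nat_lit 5, nat_lit 20], true, nat_lit 0, nat_lit 0, nat_lit 0, nat_lit 0, ⟨nat_lit 0, nat_lit 0, nat_lit 1000, nat_lit 4, nat_lit 34, nat_lit 0, nat_lit 0, nat_lit 0, nat_lit 0, nat_lit 215, nat_lit 10417, nat_lit 240, nat_lit 66522493, nat_lit 0, nat_lit 0, nat_lit 211269, false, false⟩,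
 nat_lit 0, nat_lit 4747, nat_lit 0, nat_lit 0, nat_lit 2270, nat_lit 0, nat_lit 0, nat_lit 0, nat_lit 164, nat_lit 0, nat_lit 0, nat_lit 0, nat_lit 0, nat_lit 0, nat_lit 53, nat_lit 1000000, nat_lit 0, nat_lit 0, [(nat_lit 3, [(nat_lit 6, nat_lit 1000)])],
 ⟨p003_k2, nat_lit 0, nat_lit 0, nat_lit 0, nat_lit 0, nat_lit 174692, [nat_lit 2101142858, nat_lit 11600000], [], [nat_lit 8952506656, nat_lit 9578393420, nat_lit 8512630136, nat_lit 8974679286], nat_lit 1271250, nat_lit 1271250, nat_lit 0, nat_lit 111251, nat_lit 0, nat_lit 0, [nat_lit 1412500, nat_lit 1271250], [nat_lit 26, nat_lit 40, nat_lit 20, nat_lit 80]⟩, C1.Rw.none,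
 ⟨nat_lit 6519, nat_lit 6709, ⟨.ofNat (nat_lit 47783), .ofNat (nat_lit 90860), .ofNat (nat_lit 69221), .ofNat (nat_lit 112299), .ofNat (nat_lit 57661), .ofNat (nat_lit 99755), .ofNat (nat_lit 79059), .ofNat (nat_lit 121153)⟩, ⟨.ofNat (nat_lit 0), .ofNat (nat_lit 0), .ofNat (nat_lit 0), .ofNat (nat_lit 0), .ofNat (nat_lit 0), .ofNat (nat_lit 0), .ofNat (nat_lit 0), .ofNat (nat_lit 0)⟩⟩, [⟨nat_lit 0, nat_lit 100, nat_lit 99, nat_lit 8, nat_lit 211153330⟩]⟩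
noncomputable def p003_l35 : Lf2 := ⟨nat_lit 0, nat_lit 2, [nat_lit 10, nat_lit 5, nat_lit 5, nat_lit 20], true, nat_lit 0, nat_lit 0, nat_lit 0, nat_lit 0, ⟨nat_lit 0, nat_lit 0, nat_lit 1000, nat_lit 4, nat_lit 32, nat_lit 0, nat_lit 0, nat_lit 0, nat_lit 0, nat_lit 215, nat_lit 9600, nat_lit 239, nat_lit 66580576, nat_lit 0, nat_lit 0, nat_lit 189474, false, false⟩,
 nat_lit 0, nat_lit 17784, nat_lit 0, nat_lit 0, nat_lit 8505, nat_lit 0, nat_lit 2956, nat_lit 0, nat_lit 0, nat_lit 0, nat_lit 0, nat_lit 0, nat_lit 0, nat_lit 0, nat_lit 53, nat_lit 1000000, nat_lit 0, nat_lit 0, [(nat_lit 3, [(nat_lit 6, nat_lit 1000)])],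
 ⟨p003_k2, nat_lit 0, nat_lit 0, nat_lit 0, nat_lit 0, nat_lit 146890, [nat_lit 2101142858, nat_lit 11600000], [], [nat_lit 14960949324, nat_lit 14476405683, nat_lit 14843721794, nat_lit 12677991584], nat_lit 1271250, nat_lit 1271250, nat_lit 0, nat_lit 111251, nat_lit 0, nat_lit 0, [nat_lit 1412500, nat_lit 1271250], [nat_lit 26, nat_lit 40, nat_lit 20, nat_lit 80]⟩, C1.Rw.none,
 ⟨nat_lit 6519, nat_lit 6709, ⟨.ofNat (nat_lit 47783), .ofNat (nat_lit 90860), .ofNat (nat_lit 58502), .ofNat (nat_lit 101580), .ofNat (nat_lit 57661), .ofNat (nat_lit 99755), .ofNat (nat_lit 68360), .ofNat (nat_lit 110454)⟩, ⟨.ofNat (nat_lit 0), .ofNat (nat_lit 0), .ofNat (nat_lit 0), .ofNat (nat_lit 0), .ofNat (nat_lit 0), .ofNat (nat_lit 0), .ofNat (nat_lit 0), .ofNat (nat_lit 0)⟩⟩, [⟨nat_lit 0, nat_lit 100, nat_lit 99, nat_lit 5, nat_lit 128362894⟩]⟩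
noncomputable def p003_l36 : Lf2 := ⟨nat_lit 0, nat_lit 2, [nat_lit 10, nat_lit 5, nat_lit 5, nat_lit 20], true, nat_lit 0, nat_lit 0, nat_lit 0, nat_lit 0, ⟨nat_lit 0, nat_lit 0, nat_lit 1000, nat_lit 4, nat_lit 36, nat_lit 0, nat_lit 0, nat_lit 0, nat_lit 0, nat_lit 215, nat_lit 12150, nat_lit 242, nat_lit 66460729, nat_lit 0, nat_lit 0, nat_lit 233819, false, false⟩,
 nat_lit 0, nat_lit 13708, nat_lit 0, nat_lit 0, nat_lit 6556, nat_lit 0, nat_lit 1039, nat_lit 0, nat_lit 0, nat_lit 0, nat_lit 0, nat_lit 0, nat_lit 0, nat_lit 0, nat_lit 53, nat_lit 1000000, nat_lit 0, nat_lit 0, [(nat_lit 3, [(nat_lit 6, nat_lit 1000)])],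
 ⟨p003_k16, nat_lit 0, nat_lit 0, nat_lit 0, nat_lit 0, nat_lit 174692, [nat_lit 1891028572, nat_lit 716000001, nat_lit 11600000], [], [nat_lit 13943684132, nat_lit 13880152952, nat_lit 13878329756, nat_lit 12171219472], nat_lit 1271250, nat_lit 1271250, nat_lit 0, nat_lit 111251, nat_lit 0, nat_lit 0, [nat_lit 1271250, nat_lit 1271250, nat_lit 1271250], [nat_lit 181, nat_lit 40, nat_lit 20, nat_lit 40]⟩, C1.Rw.none,
 ⟨nat_lit 6519, nat_lit 6709, ⟨.ofNat (nat_lit 58502), .ofNat (nat_lit 101580), .ofNat (nat_lit 69221), .ofNat (nat_lit 112299), .ofNat (nat_lit 68360), .ofNat (nat_lit 110454), .ofNat (nat_lit 79059), .ofNat (nat_lit 121153)⟩, ⟨.ofNat (nat_lit 0), .ofNat (nat_lit 0), .ofNat (nat_lit 0), .ofNat (nat_lit 0), .ofNat (nat_lit 0), .ofNat (nat_lit 0), .ofNat (nat_lit 0), .ofNat (nat_lit 0)⟩⟩, [⟨nat_lit 0, nat_lit 100, nat_lit 99, nat_lit 10, nat_lit 118259366⟩]⟩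
noncomputable def p003_l37 : Lf2 := ⟨nat_lit 0, nat_lit 2, [nat_lit 10, nat_lit 5, nat_lit 5, nat_lit 20], true, nat_lit 0, nat_lit 0, nat_lit 0, nat_lit 0, ⟨nat_lit 0, nat_lit 0, nat_lit 1000, nat_lit 4, nat_lit 34, nat_lit 0, nat_lit 0, nat_lit 0, nat_lit 0, nat_lit 215, nat_lit 10417, nat_lit 240, nat_lit 66522493, nat_lit 0, nat_lit 0, nat_lit 211269, false, false⟩,
 nat_lit 0, nat_lit 100000, nat_lit 0, nat_lit 0, nat_lit 47826, nat_lit 0, nat_lit 14964, nat_lit 837, nat_lit 0, nat_lit 0, nat_lit 0, nat_lit 0, nat_lit 0, nat_lit 0, nat_lit 0, nat_lit 1000000, nat_lit 0, nat_lit 0, [(nat_lit 3, [(nat_lit 6, nat_lit 1000)])],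
 ⟨p003_k2, nat_lit 0, nat_lit 0, nat_lit 0, nat_lit 0, nat_lit 174692, [nat_lit 17781142858, nat_lit 18827600000], [], [nat_lit 26911786074, nat_lit 19634877354, nat_lit 24195204518, nat_lit 12016696226], nat_lit 1271250, nat_lit 1271250, nat_lit 0, nat_lit 111251, nat_lit 0, nat_lit 0, [nat_lit 1412500, nat_lit 1271250], [nat_lit 26, nat_lit 40, nat_lit 20, nat_lit 80]⟩, C1.Rw.none,
 ⟨nat_lit 6519, nat_lit 6709, ⟨.ofNat (nat_lit 47783), .ofNat (nat_lit 90860), .ofNat (nat_lit 69221), .ofNat (nat_lit 112299), .ofNat (nat_lit 57661), .ofNat (nat_lit 99755), .ofNat (nat_lit 79059), .ofNat (nat_lit 121153)⟩, ⟨.ofNat (nat_lit 0), .ofNat (nat_lit 0), .ofNat (nat_lit 0), .ofNat (nat_lit 0), .ofNat (nat_lit 0), .ofNat (nat_lit 0), .ofNat (nat_lit 0), .ofNat (nat_lit 0)⟩⟩, [⟨nat_lit 0, nat_lit 100, nat_lit 99, nat_lit 15, nat_lit 786042509⟩]⟩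
noncomputable def p003_l38 : Lf2 := ⟨nat_lit 0, nat_lit 2, [nat_lit 10, nat_lit 5, nat_lit 5, nat_lit 20], true, nat_lit 0, nat_lit 0, nat_lit 0, nat_lit 0, ⟨nat_lit 0, nat_lit 0, nat_lit 1000, nat_lit 4, nat_lit 34, nat_lit 0, nat_lit 0, nat_lit 0, nat_lit 0, nat_lit 215, nat_lit 10417, nat_lit 240, nat_lit 66522493, nat_lit 0, nat_lit 0, nat_lit 211269, false, false⟩,
 nat_lit 0, nat_lit 100000, nat_lit 0, nat_lit 5754, nat_lit 47826, nat_lit 0, nat_lit 22894, nat_lit 6332, nat_lit 0, nat_lit 0, nat_lit 0, nat_lit 0, nat_lit 0, nat_lit 0, nat_lit 0, nat_lit 1000000, nat_lit 0, nat_lit 0, [(nat_lit 3, [(nat_lit 6, nat_lit 1000)])],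
 ⟨p003_k2, nat_lit 0, nat_lit 0, nat_lit 293, nat_lit 0, nat_lit 174692, [nat_lit 127681142858, nat_lit 150707600000], [], [nat_lit 356611786074, nat_lit 353665054464, nat_lit 353895204518, nat_lit 341716696226], nat_lit 1271250, nat_lit 1271250, nat_lit 0, nat_lit 111251, nat_lit 0, nat_lit 0, [nat_lit 1412500, nat_lit 1271250], [nat_lit 26, nat_lit 40, nat_lit 20, nat_lit 80, nat_lit 2, nat_lit 289, nat_lit 75, nat_lit 10]⟩, C1.Rw.none,
 ⟨nat_lit 6519, nat_lit 6709, ⟨.ofNat (nat_lit 47783), .ofNat (nat_lit 90860), .ofNat (nat_lit 69221), .ofNat (nat_lit 112299), .ofNat (nat_lit 57661), .ofNat (nat_lit 99755), .ofNat (nat_lit 79059), .ofNat (nat_lit 121153)⟩, ⟨.ofNat (nat_lit 0), .ofNat (nat_lit 0), .ofNat (nat_lit 0), .ofNat (nat_lit 0), .ofNat (nat_lit 0), .ofNat (nat_lit 0), .ofNat (nat_lit 0), .ofNat (nat_lit 0)⟩⟩, []⟩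
noncomputable def p003_l39 : Lf2 := ⟨nat_lit 3, nat_lit 2, [nat_lit 10, nat_lit 5, nat_lit 5, nat_lit 20], false, nat_lit 0, nat_lit 0, nat_lit 0, nat_lit 0, zbN0,
 nat_lit 0, nat_lit 0, nat_lit 0, nat_lit 0, nat_lit 0, nat_lit 0, nat_lit 0, nat_lit 0, nat_lit 0, nat_lit 0, nat_lit 0, nat_lit 0, nat_lit 0, nat_lit 0, nat_lit 0, nat_lit 0, nat_lit 0, nat_lit 0, [],
 C1.Rw.none, ⟨p003_k17, nat_lit 0, nat_lit 0, nat_lit 289, nat_lit 0, nat_lit 0, [], [], [], nat_lit 0, nat_lit 0, nat_lit 0, nat_lit 0, nat_lit 0, nat_lit 0, [], [nat_lit 77, nat_lit 40, nat_lit 20, nat_lit 80, nat_lit 17, nat_lit 272, nat_lit 60, nat_lit 9]⟩,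
 zbF0, []⟩
noncomputable def p003_l40 : Lf2 := ⟨nat_lit 0, nat_lit 2, [nat_lit 10, nat_lit 5, nat_lit 5, nat_lit 20], true, nat_lit 0, nat_lit 0, nat_lit 0, nat_lit 0, ⟨nat_lit 0, nat_lit 0, nat_lit 1000, nat_lit 4, nat_lit 51, nat_lit 0, nat_lit 0, nat_lit 0, nat_lit 0, nat_lit 215, nat_lit 24067, nat_lit 253, nat_lit 65931399, nat_lit 0, nat_lit 0, nat_lit 409041, false, false⟩,
 nat_lit 0, nat_lit 11431, nat_lit 0, nat_lit 0, nat_lit 5467, nat_lit 0, nat_lit 1516, nat_lit 0, nat_lit 0, nat_lit 0, nat_lit 0, nat_lit 0, nat_lit 0, nat_lit 0, nat_lit 53, nat_lit 1000000, nat_lit 0, nat_lit 0, [(nat_lit 3, [(nat_lit 6, nat_lit 1000)])],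
 ⟨p003_k2, nat_lit 0, nat_lit 0, nat_lit 283, nat_lit 0, nat_lit 174692, [nat_lit 2101142858, nat_lit 11600000], [], [nat_lit 11827822198, nat_lit 12472883613, nat_lit 11058335374, nat_lit 11697044173], nat_lit 1271250, nat_lit 1271250, nat_lit 111251, nat_lit 230001, nat_lit 0, nat_lit 0, [nat_lit 1412500, nat_lit 1271250], [nat_lit 26, nat_lit 40, nat_lit 20, nat_lit 80, nat_lit 2, nat_lit 289, nat_lit 75, nat_lit 10]⟩, C1.Rw.none,
 ⟨nat_lit 6519, nat_lit 6709, ⟨.ofNat (nat_lit 90860), .ofNat (nat_lit 133938), .ofNat (nat_lit 112299), .ofNat (nat_lit 155377), .ofNat (nat_lit 99755), .ofNat (nat_lit 141849), .ofNat (nat_lit 121153), .ofNat (nat_lit 163247)⟩, ⟨.ofNat (nat_lit 0), .ofNat (nat_lit 0), .ofNat (nat_lit 0), .ofNat (nat_lit 0), .ofNat (nat_lit 0), .ofNat (nat_lit 0), .ofNat (nat_lit 0), .ofNat (nat_lit 0)⟩⟩, []⟩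
noncomputable def p003_l41 : Lf2 := ⟨nat_lit 0, nat_lit 4, [nat_lit 38, nat_lit 5, nat_lit 5, nat_lit 20], true, nat_lit 0, nat_lit 0, nat_lit 0, nat_lit 0, ⟨nat_lit 0, nat_lit 0, nat_lit 1000, nat_lit 4, nat_lit 42, nat_lit 0, nat_lit 0, nat_lit 0, nat_lit 0, nat_lit 215, nat_lit 17067, nat_lit 247, nat_lit 66255318, nat_lit 0, nat_lit 0, nat_lit 305141, false, false⟩,
 nat_lit 0, nat_lit 10678, nat_lit 0, nat_lit 0, nat_lit 5106, nat_lit 0, nat_lit 443, nat_lit 0, nat_lit 0, nat_lit 0, nat_lit 0, nat_lit 0, nat_lit 0, nat_lit 0, nat_lit 115, nat_lit 1000000, nat_lit 0, nat_lit 0, [(nat_lit 3, [(nat_lit 6, nat_lit 1000)])],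
 ⟨p003_k18, nat_lit 0, nat_lit 0, nat_lit 332, nat_lit 0, nat_lit 82902, [nat_lit 3341142858, nat_lit 1499600000, nat_lit 23600000], [], [nat_lit 13952266922, nat_lit 14391648282, nat_lit 12319436214, nat_lit 12752058408], nat_lit 1271250, nat_lit 1271250, nat_lit 0, nat_lit 230001, nat_lit 0, nat_lit 0, [nat_lit 1412500, nat_lit 1271250, nat_lit 1271250], [nat_lit 25, nat_lit 40, nat_lit 20, nat_lit 80, nat_lit 17, nat_lit 289, nat_lit 75, nat_lit 9]⟩, C1.Rw.none,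
 ⟨nat_lit 6519, nat_lit 6709, ⟨.ofNat (nat_lit 47783), .ofNat (nat_lit 133938), .ofNat (nat_lit 69221), .ofNat (nat_lit 155377), .ofNat (nat_lit 57661), .ofNat (nat_lit 141849), .ofNat (nat_lit 79059), .ofNat (nat_lit 163247)⟩, ⟨.ofNat (nat_lit 0), .ofNat (nat_lit 0), .ofNat (nat_lit 0), .ofNat (nat_lit 0), .ofNat (nat_lit 0), .ofNat (nat_lit 0), .ofNat (nat_lit 0), .ofNat (nat_lit 0)⟩⟩, [⟨nat_lit 0, nat_lit 100, nat_lit 99, nat_lit 15, nat_lit 304764481⟩]⟩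
noncomputable def b_NL_550_450_0_1 : St := ⟨false, nat_lit 1, nat_lit 0, nat_lit 1, nat_lit 20, nat_lit 220, nat_lit 230, nat_lit 180, nat_lit 200, nat_lit 0, nat_lit 40, nat_lit 0, nat_lit 0, nat_lit 0, nat_lit 0, nat_lit 0, nat_lit 0, nat_lit 0, nat_lit 16, nat_lit 0, nat_lit 0, nat_lit 0, nat_lit 0⟩
theorem d_NL_550_450_0_1 (h : EB TB.env) : Dead b_NL_550_450_0_1 := chkB_sound0 h (T :=
(.spl (nat_lit 6) (nat_lit 8)
(.spl (nat_lit 2) (nat_lit 20)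
(.spl (nat_lit 8) (nat_lit 800)
(.spl (nat_lit 7) (nat_lit 600)
(.spl (nat_lit 7) (nat_lit 300)
(.leaf p003_l34)
(.spl (nat_lit 7) (nat_lit 460)
(.spl (nat_lit 1) (nat_lit 190)
(.leaf p003_l35)
(.leaf p003_l36))
(.leaf p003_l37)))
(.leaf p003_l38))
(.leaf p003_l39))
(.leaf p003_l40))
(.leaf p003_l41))) (by decide +kernel)
noncomputable def p003_l42 : Lf2 := ⟨nat_lit 0, nat_lit 1, [nat_lit 19, nat_lit 5, nat_lit 5, nat_lit 20], true, nat_lit 0, nat_lit 0, nat_lit 0, nat_lit 0, ⟨nat_lit 0, nat_lit 0, nat_lit 1000, nat_lit 4, nat_lit 30, nat_lit 0, nat_lit 0, nat_lit 0, nat_lit 0, nat_lit 215, nat_lit 8067, nat_lit 237, nat_lit 66633921, nat_lit 0, nat_lit 0, nat_lit 168856, false, false⟩,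
 nat_lit 0, nat_lit 11816, nat_lit 0, nat_lit 0, nat_lit 5951, nat_lit 0, nat_lit 0, nat_lit 0, nat_lit 0, nat_lit 0, nat_lit 0, nat_lit 0, nat_lit 0, nat_lit 0, nat_lit 53, nat_lit 1000000, nat_lit 0, nat_lit 0, [(nat_lit 3, [(nat_lit 6, nat_lit 1000)])],
 ⟨p003_k19, nat_lit 0, nat_lit 0, nat_lit 286, nat_lit 0, nat_lit 146030, [nat_lit 2101142858, nat_lit 11600000], [], [nat_lit 15920025745, nat_lit 15920267979, nat_lit 15915905131, nat_lit 15763469314], nat_lit 1271250, nat_lit 1271250, nat_lit 0, nat_lit 21650, nat_lit 0, nat_lit 0, [nat_lit 1412500, nat_lit 1271250], [nat_lit 26, nat_lit 40, nat_lit 20, nat_lit 80, nat_lit 2, nat_lit 272, nat_lit 60, nat_lit 10]⟩, C1.Rw.none,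
 ⟨nat_lit 6500, nat_lit 6520, ⟨.ofNat (nat_lit 68360), .ofNat (nat_lit 76779), .ofNat (nat_lit 70500), .ofNat (nat_lit 78918), .ofNat (nat_lit 69333), .ofNat (nat_lit 77732), .ofNat (nat_lit 71472), .ofNat (nat_lit 79872)⟩, ⟨.ofNat (nat_lit 0), .ofNat (nat_lit 0), .ofNat (nat_lit 0), .ofNat (nat_lit 0), .ofNat (nat_lit 0), .ofNat (nat_lit 0), .ofNat (nat_lit 0), .ofNat (nat_lit 0)⟩⟩, [⟨nat_lit 0, nat_lit 100, nat_lit 99, nat_lit 11, nat_lit 100467508⟩]⟩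
noncomputable def p003_l43 : Lf2 := ⟨nat_lit 0, nat_lit 1, [nat_lit 19, nat_lit 5, nat_lit 5, nat_lit 20], false, nat_lit 0, nat_lit 0, nat_lit 0, nat_lit 0, ⟨nat_lit 223, nat_lit 0, nat_lit 777, nat_lit 4, nat_lit 30, nat_lit 0, nat_lit 0, nat_lit 0, nat_lit 0, nat_lit 215, nat_lit 8817, nat_lit 238, nat_lit 66617992, nat_lit 0, nat_lit 0, nat_lit 175076, false, false⟩,
 nat_lit 0, nat_lit 14168, nat_lit 0, nat_lit 0, nat_lit 7135, nat_lit 1191, nat_lit 0, nat_lit 0, nat_lit 0, nat_lit 2511, nat_lit 0, nat_lit 0, nat_lit 0, nat_lit 0, nat_lit 0, nat_lit 777000, nat_lit 0, nat_lit 0, [(nat_lit 3, [(nat_lit 6, nat_lit 777)])],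
 ⟨p003_k19, nat_lit 0, nat_lit 0, nat_lit 286, nat_lit 0, nat_lit 148477, [nat_lit 2202718000, nat_lit 797533200], [], [nat_lit 17948692835, nat_lit 17939684407, nat_lit 17926522614, nat_lit 17743758448], nat_lit 1271250, nat_lit 1271250, nat_lit 0, nat_lit 21650, nat_lit 0, nat_lit 0, [nat_lit 1412500, nat_lit 1271250], [nat_lit 26, nat_lit 40, nat_lit 20, nat_lit 80, nat_lit 2, nat_lit 272, nat_lit 60, nat_lit 10]⟩, ⟨p003_k20, nat_lit 0, nat_lit 0, nat_lit 0, nat_lit 0, nat_lit 0, [nat_lit 731886000, nat_lit 1580958500, nat_lit 1981466500], [], [nat_lit 4047052344, nat_lit 4057890447, nat_lit 3967330015, nat_lit 3979531402], nat_lit 0, nat_lit 0, nat_lit 0, nat_lit 0, nat_lit 0, nat_lit 0, [], [nat_lit 115, nat_lit 40, nat_lit 20, nat_lit 40]⟩,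
 ⟨nat_lit 6500, nat_lit 6520, ⟨.ofNat (nat_lit 70500), .ofNat (nat_lit 78918), .ofNat (nat_lit 71569), .ofNat (nat_lit 79988), .ofNat (nat_lit 71472), .ofNat (nat_lit 79872), .ofNat (nat_lit 72542), .ofNat (nat_lit 80941)⟩, ⟨.ofNat (nat_lit 0), .ofNat (nat_lit 0), .ofNat (nat_lit 0), .ofNat (nat_lit 0), .ofNat (nat_lit 0), .ofNat (nat_lit 0), .ofNat (nat_lit 0), .ofNat (nat_lit 0)⟩⟩, [⟨nat_lit 0, nat_lit 100, nat_lit 99, nat_lit 12, nat_lit 415517832⟩]⟩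
noncomputable def p003_l44 : Lf2 := ⟨nat_lit 0, nat_lit 1, [nat_lit 19, nat_lit 5, nat_lit 5, nat_lit 20], false, nat_lit 0, nat_lit 0, nat_lit 0, nat_lit 0, ⟨nat_lit 0, nat_lit 0, nat_lit 1000, nat_lit 4, nat_lit 30, nat_lit 0, nat_lit 0, nat_lit 0, nat_lit 0, nat_lit 215, nat_lit 8817, nat_lit 238, nat_lit 66617992, nat_lit 0, nat_lit 0, nat_lit 175076, false, false⟩,
 nat_lit 0, nat_lit 11882, nat_lit 0, nat_lit 0, nat_lit 5984, nat_lit 100000, nat_lit 0, nat_lit 0, nat_lit 0, nat_lit 42157, nat_lit 3356, nat_lit 0, nat_lit 0, nat_lit 0, nat_lit 53, nat_lit 1000000, nat_lit 0, nat_lit 0, [(nat_lit 3, [(nat_lit 6, nat_lit 1000)])],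
 ⟨p003_k19, nat_lit 0, nat_lit 0, nat_lit 286, nat_lit 0, nat_lit 148477, [nat_lit 2101142858, nat_lit 11600000], [], [nat_lit 15879443038, nat_lit 15976552389, nat_lit 15874819352, nat_lit 15721538235], nat_lit 1271250, nat_lit 1271250, nat_lit 0, nat_lit 21650, nat_lit 0, nat_lit 0, [nat_lit 1412500, nat_lit 1271250], [nat_lit 26, nat_lit 40, nat_lit 20, nat_lit 80, nat_lit 2, nat_lit 272, nat_lit 60, nat_lit 10]⟩, ⟨p003_k21, nat_lit 0, nat_lit 0, nat_lit 0, nat_lit 0, nat_lit 0, [nat_lit 80544000000, nat_lit 93968000000], [], [nat_lit 118886000000, nat_lit 119071950000, nat_lit 112838912001, nat_lit 113019078000], nat_lit 0, nat_lit 0, nat_lit 0, nat_lit 0, nat_lit 0, nat_lit 0, [], [nat_lit 77, nat_lit 40, nat_lit 20, nat_lit 80]⟩,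
 ⟨nat_lit 6500, nat_lit 6520, ⟨.ofNat (nat_lit 70500), .ofNat (nat_lit 78918), .ofNat (nat_lit 71569), .ofNat (nat_lit 79988), .ofNat (nat_lit 71472), .ofNat (nat_lit 79872), .ofNat (nat_lit 72542), .ofNat (nat_lit 80941)⟩, ⟨.ofNat (nat_lit 0), .ofNat (nat_lit 0), .ofNat (nat_lit 0), .ofNat (nat_lit 0), .ofNat (nat_lit 0), .ofNat (nat_lit 0), .ofNat (nat_lit 0), .ofNat (nat_lit 0)⟩⟩, [⟨nat_lit 0, nat_lit 100, nat_lit 99, nat_lit 12, nat_lit 7734730229⟩]⟩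
noncomputable def p003_l45 : Lf2 := ⟨nat_lit 3, nat_lit 1, [nat_lit 19, nat_lit 5, nat_lit 5, nat_lit 20], false, nat_lit 0, nat_lit 0, nat_lit 0, nat_lit 0, zbN0,
 nat_lit 0, nat_lit 0, nat_lit 0, nat_lit 0, nat_lit 0, nat_lit 0, nat_lit 0, nat_lit 0, nat_lit 0, nat_lit 0, nat_lit 0, nat_lit 0, nat_lit 0, nat_lit 0, nat_lit 0, nat_lit 0, nat_lit 0, nat_lit 0, [],
 C1.Rw.none, ⟨p003_k21, nat_lit 0, nat_lit 0, nat_lit 289, nat_lit 0, nat_lit 0, [], [], [], nat_lit 0, nat_lit 0, nat_lit 0, nat_lit 0, nat_lit 0, nat_lit 0, [], [nat_lit 77, nat_lit 40, nat_lit 20, nat_lit 80, nat_lit 17, nat_lit 260, nat_lit 50, nat_lit 8]⟩,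
 zbF0, []⟩
noncomputable def p003_l46 : Lf2 := ⟨nat_lit 0, nat_lit 1, [nat_lit 19, nat_lit 5, nat_lit 5, nat_lit 20], true, nat_lit 0, nat_lit 0, nat_lit 0, nat_lit 0, ⟨nat_lit 0, nat_lit 0, nat_lit 1000, nat_lit 4, nat_lit 33, nat_lit 0, nat_lit 0, nat_lit 0, nat_lit 0, nat_lit 215, nat_lit 10417, nat_lit 240, nat_lit 66540886, nat_lit 0, nat_lit 0, nat_lit 204436, false, false⟩,
 nat_lit 0, nat_lit 12195, nat_lit 0, nat_lit 0, nat_lit 6141, nat_lit 0, nat_lit 0, nat_lit 0, nat_lit 0, nat_lit 0, nat_lit 0, nat_lit 0, nat_lit 0, nat_lit 0, nat_lit 53, nat_lit 1000000, nat_lit 0, nat_lit 0, [(nat_lit 3, [(nat_lit 6, nat_lit 1000)])],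
 ⟨p003_k19, nat_lit 0, nat_lit 0, nat_lit 284, nat_lit 0, nat_lit 148477, [nat_lit 2101142858, nat_lit 11600000], [], [nat_lit 15679350647, nat_lit 15672682147, nat_lit 15680902758, nat_lit 15523831822], nat_lit 1271250, nat_lit 1271250, nat_lit 21650, nat_lit 43600, nat_lit 0, nat_lit 0, [nat_lit 1412500, nat_lit 1271250], [nat_lit 26, nat_lit 40, nat_lit 20, nat_lit 80, nat_lit 2, nat_lit 272, nat_lit 60, nat_lit 10]⟩, C1.Rw.none,
 ⟨nat_lit 6500, nat_lit 6520, ⟨.ofNat (nat_lit 76779), .ofNat (nat_lit 85197), .ofNat (nat_lit 79988), .ofNat (nat_lit 88407), .ofNat (nat_lit 77732), .ofNat (nat_lit 86132), .ofNat (nat_lit 80941), .ofNat (nat_lit 89341)⟩, ⟨.ofNat (nat_lit 0), .ofNat (nat_lit 0), .ofNat (nat_lit 0), .ofNat (nat_lit 0), .ofNat (nat_lit 0), .ofNat (nat_lit 0), .ofNat (nat_lit 0), .ofNat (nat_lit 0)⟩⟩, []⟩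
noncomputable def p003_l47 : Lf2 := ⟨nat_lit 0, nat_lit 1, [nat_lit 19, nat_lit 5, nat_lit 5, nat_lit 20], true, nat_lit 0, nat_lit 0, nat_lit 0, nat_lit 0, ⟨nat_lit 0, nat_lit 0, nat_lit 1000, nat_lit 4, nat_lit 32, nat_lit 0, nat_lit 0, nat_lit 0, nat_lit 0, nat_lit 215, nat_lit 9600, nat_lit 239, nat_lit 66575908, nat_lit 0, nat_lit 0, nat_lit 191238, false, false⟩,
 nat_lit 0, nat_lit 11590, nat_lit 0, nat_lit 0, nat_lit 5866, nat_lit 0, nat_lit 0, nat_lit 0, nat_lit 0, nat_lit 0, nat_lit 0, nat_lit 0, nat_lit 0, nat_lit 0, nat_lit 53, nat_lit 1000000, nat_lit 0, nat_lit 0, [(nat_lit 3, [(nat_lit 6, nat_lit 1000)])],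
 ⟨p003_k22, nat_lit 0, nat_lit 0, nat_lit 286, nat_lit 0, nat_lit 152256, [nat_lit 2101142858, nat_lit 11600000], [], [nat_lit 15874077049, nat_lit 15872851527, nat_lit 15877109368, nat_lit 15727072222], nat_lit 1271250, nat_lit 1271250, nat_lit 0, nat_lit 43600, nat_lit 0, nat_lit 0, [nat_lit 1412500, nat_lit 1271250], [nat_lit 26, nat_lit 40, nat_lit 20, nat_lit 80, nat_lit 2, nat_lit 272, nat_lit 60, nat_lit 10]⟩, C1.Rw.none,
 ⟨nat_lit 6480, nat_lit 6500, ⟨.ofNat (nat_lit 69333), .ofNat (nat_lit 86132), .ofNat (nat_lit 72542), .ofNat (nat_lit 89341), .ofNat (nat_lit 70304), .ofNat (nat_lit 87064), .ofNat (nat_lit 73513), .ofNat (nat_lit 90272)⟩, ⟨.ofNat (nat_lit 0), .ofNat (nat_lit 0), .ofNat (nat_lit 0), .ofNat (nat_lit 0), .ofNat (nat_lit 0), .ofNat (nat_lit 0), .ofNat (nat_lit 0), .ofNat (nat_lit 0)⟩⟩, [⟨nat_lit 0, nat_lit 100, nat_lit 99, nat_lit 12, nat_lit 93836247⟩]⟩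
noncomputable def p003_l48 : Lf2 := ⟨nat_lit 0, nat_lit 1, [nat_lit 19, nat_lit 5, nat_lit 5, nat_lit 20], true, nat_lit 0, nat_lit 0, nat_lit 0, nat_lit 0, ⟨nat_lit 0, nat_lit 0, nat_lit 1000, nat_lit 4, nat_lit 31, nat_lit 0, nat_lit 0, nat_lit 0, nat_lit 0, nat_lit 215, nat_lit 8817, nat_lit 238, nat_lit 66607186, nat_lit 0, nat_lit 0, nat_lit 179253, false, false⟩,
 nat_lit 0, nat_lit 8354, nat_lit 0, nat_lit 0, nat_lit 4207, nat_lit 0, nat_lit 942, nat_lit 0, nat_lit 0, nat_lit 0, nat_lit 0, nat_lit 0, nat_lit 0, nat_lit 0, nat_lit 21, nat_lit 1000000, nat_lit 0, nat_lit 0, [(nat_lit 3, [(nat_lit 6, nat_lit 1000)])],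
 ⟨p003_k23, nat_lit 0, nat_lit 0, nat_lit 0, nat_lit 0, nat_lit 150975, [nat_lit 1315028572, nat_lit 12000000], [], [nat_lit 12889962908, nat_lit 12947084534, nat_lit 12683723310, nat_lit 12740824279], nat_lit 1271250, nat_lit 1271250, nat_lit 0, nat_lit 21650, nat_lit 0, nat_lit 0, [nat_lit 1271250, nat_lit 1271250], [nat_lit 155, nat_lit 40, nat_lit 20, nat_lit 40]⟩, C1.Rw.none,
 ⟨nat_lit 6500, nat_lit 6520, ⟨.ofNat (nat_lit 71569), .ofNat (nat_lit 79988), .ofNat (nat_lit 72639), .ofNat (nat_lit 81058), .ofNat (nat_lit 72542), .ofNat (nat_lit 80941), .ofNat (nat_lit 73612), .ofNat (nat_lit 82011)⟩, ⟨.ofNat (nat_lit 0), .ofNat (nat_lit 0), .ofNat (nat_lit 0), .ofNat (nat_lit 0), .ofNat (nat_lit 0), .ofNat (nat_lit 0), .ofNat (nat_lit 0), .ofNat (nat_lit 0)⟩⟩, [⟨nat_lit 0, nat_lit 100, nat_lit 99, nat_lit 13, nat_lit 356116018⟩]⟩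
noncomputable def p003_l49 : Lf2 := ⟨nat_lit 0, nat_lit 1, [nat_lit 19, nat_lit 5, nat_lit 5, nat_lit 20], true, nat_lit 0, nat_lit 0, nat_lit 0, nat_lit 0, ⟨nat_lit 0, nat_lit 0, nat_lit 1000, nat_lit 4, nat_lit 31, nat_lit 0, nat_lit 0, nat_lit 0, nat_lit 0, nat_lit 215, nat_lit 8817, nat_lit 238, nat_lit 66607186, nat_lit 0, nat_lit 0, nat_lit 179253, false, false⟩,
 nat_lit 0, nat_lit 100000, nat_lit 0, nat_lit 0, nat_lit 50364, nat_lit 0, nat_lit 0, nat_lit 1967, nat_lit 0, nat_lit 0, nat_lit 0, nat_lit 0, nat_lit 0, nat_lit 0, nat_lit 0, nat_lit 1000000, nat_lit 0, nat_lit 0, [(nat_lit 3, [(nat_lit 6, nat_lit 1000)])],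
 ⟨p003_k19, nat_lit 0, nat_lit 0, nat_lit 286, nat_lit 0, nat_lit 150975, [nat_lit 40381142858, nat_lit 45947600000], [], [nat_lit 80077244602, nat_lit 80348328838, nat_lit 78640671984, nat_lit 77354459051], nat_lit 1271250, nat_lit 1271250, nat_lit 0, nat_lit 21650, nat_lit 0, nat_lit 0, [nat_lit 1412500, nat_lit 1271250], [nat_lit 26, nat_lit 40, nat_lit 20, nat_lit 80, nat_lit 2, nat_lit 272, nat_lit 60, nat_lit 10]⟩, C1.Rw.none,
 ⟨nat_lit 6500, nat_lit 6520, ⟨.ofNat (nat_lit 71569), .ofNat (nat_lit 79988), .ofNat (nat_lit 72639), .ofNat (nat_lit 81058), .ofNat (nat_lit 72542), .ofNat (nat_lit 80941), .ofNat (nat_lit 73612), .ofNat (nat_lit 82011)⟩, ⟨.ofNat (nat_lit 0), .ofNat (nat_lit 0), .ofNat (nat_lit 0), .ofNat (nat_lit 0), .ofNat (nat_lit 0), .ofNat (nat_lit 0), .ofNat (nat_lit 0), .ofNat (nat_lit 0)⟩⟩, [⟨nat_lit 0, nat_lit 100, nat_lit 99, nat_lit 12, nat_lit 10101010101⟩,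 ⟨nat_lit 13, nat_lit 99, nat_lit 18, nat_lit 100, nat_lit 182630284⟩]⟩
noncomputable def p003_l50 : Lf2 := ⟨nat_lit 3, nat_lit 1, [nat_lit 19, nat_lit 5, nat_lit 5, nat_lit 20], false, nat_lit 0, nat_lit 0, nat_lit 0, nat_lit 0, zbN0,
 nat_lit 0, nat_lit 0, nat_lit 0, nat_lit 0, nat_lit 0, nat_lit 0, nat_lit 0, nat_lit 0, nat_lit 0, nat_lit 0, nat_lit 0, nat_lit 0, nat_lit 0, nat_lit 0, nat_lit 0, nat_lit 0, nat_lit 0, nat_lit 0, [],
 C1.Rw.none, ⟨p003_k24, nat_lit 0, nat_lit 0, nat_lit 289, nat_lit 0, nat_lit 0, [], [], [], nat_lit 0, nat_lit 0, nat_lit 0, nat_lit 0, nat_lit 0, nat_lit 0, [], [nat_lit 77, nat_lit 40, nat_lit 20, nat_lit 80, nat_lit 17, nat_lit 260, nat_lit 50, nat_lit 8]⟩,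
 zbF0, []⟩
noncomputable def p003_l51 : Lf2 := ⟨nat_lit 0, nat_lit 1, [nat_lit 19, nat_lit 5, nat_lit 5, nat_lit 20], true, nat_lit 0, nat_lit 0, nat_lit 0, nat_lit 0, ⟨nat_lit 0, nat_lit 0, nat_lit 1000, nat_lit 4, nat_lit 31, nat_lit 0, nat_lit 0, nat_lit 0, nat_lit 0, nat_lit 215, nat_lit 8817, nat_lit 238, nat_lit 66596230, nat_lit 0, nat_lit 0, nat_lit 183489, false, false⟩,
 nat_lit 0, nat_lit 8354, nat_lit 0, nat_lit 0, nat_lit 4207, nat_lit 0, nat_lit 942, nat_lit 0, nat_lit 0, nat_lit 0, nat_lit 0, nat_lit 0, nat_lit 0, nat_lit 0, nat_lit 21, nat_lit 1000000, nat_lit 0, nat_lit 0, [(nat_lit 3, [(nat_lit 6, nat_lit 1000)])],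
 ⟨p003_k23, nat_lit 0, nat_lit 0, nat_lit 0, nat_lit 0, nat_lit 153473, [nat_lit 1315028572, nat_lit 12000000], [], [nat_lit 12889962908, nat_lit 12947084534, nat_lit 12683723310, nat_lit 12740824279], nat_lit 1271250, nat_lit 1271250, nat_lit 0, nat_lit 21650, nat_lit 0, nat_lit 0, [nat_lit 1271250, nat_lit 1271250], [nat_lit 155, nat_lit 40, nat_lit 20, nat_lit 40]⟩, C1.Rw.none,
 ⟨nat_lit 6500, nat_lit 6520, ⟨.ofNat (nat_lit 72639), .ofNat (nat_lit 81058), .ofNat (nat_lit 73709), .ofNat (nat_lit 82128), .ofNat (nat_lit 73612), .ofNat (nat_lit 82011), .ofNat (nat_lit 74682), .ofNat (nat_lit 83081)⟩, ⟨.ofNat (nat_lit 0), .ofNat (nat_lit 0), .ofNat (nat_lit 0), .ofNat (nat_lit 0), .ofNat (nat_lit 0), .ofNat (nat_lit 0), .ofNat (nat_lit 0), .ofNat (nat_lit 0)⟩⟩, [⟨nat_lit 0, nat_lit 100, nat_lit 99, nat_lit 13, nat_lit 356111925⟩]⟩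
noncomputable def p003_l52 : Lf2 := ⟨nat_lit 0, nat_lit 1, [nat_lit 19, nat_lit 5, nat_lit 5, nat_lit 20], true, nat_lit 0, nat_lit 0, nat_lit 0, nat_lit 0, ⟨nat_lit 0, nat_lit 0, nat_lit 1000, nat_lit 4, nat_lit 31, nat_lit 0, nat_lit 0, nat_lit 0, nat_lit 0, nat_lit 215, nat_lit 8817, nat_lit 238, nat_lit 66596230, nat_lit 0, nat_lit 0, nat_lit 183489, false, false⟩,
 nat_lit 0, nat_lit 100000, nat_lit 0, nat_lit 0, nat_lit 50364, nat_lit 0, nat_lit 0, nat_lit 1921, nat_lit 0, nat_lit 0, nat_lit 0, nat_lit 0, nat_lit 0, nat_lit 0, nat_lit 0, nat_lit 1000000, nat_lit 0, nat_lit 0, [(nat_lit 3, [(nat_lit 6, nat_lit 1000)])],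
 ⟨p003_k19, nat_lit 0, nat_lit 0, nat_lit 286, nat_lit 0, nat_lit 153473, [nat_lit 39461142858, nat_lit 44843600000], [], [nat_lit 78053244602, nat_lit 78324328838, nat_lit 75880671984, nat_lit 75330459051], nat_lit 1271250, nat_lit 1271250, nat_lit 0, nat_lit 21650, nat_lit 0, nat_lit 0, [nat_lit 1412500, nat_lit 1271250], [nat_lit 26, nat_lit 40, nat_lit 20, nat_lit 80, nat_lit 2, nat_lit 272, nat_lit 60, nat_lit 10]⟩, C1.Rw.none,
 ⟨nat_lit 6500, nat_lit 6520, ⟨.ofNat (nat_lit 72639), .ofNat (nat_lit 81058), .ofNat (nat_lit 73709), .ofNat (nat_lit 82128), .ofNat (nat_lit 73612), .ofNat (nat_lit 82011), .ofNat (nat_lit 74682), .ofNat (nat_lit 83081)⟩, ⟨.ofNat (nat_lit 0), .ofNat (nat_lit 0), .ofNat (nat_lit 0), .ofNat (nat_lit 0), .ofNat (nat_lit 0), .ofNat (nat_lit 0), .ofNat (nat_lit 0), .ofNat (nat_lit 0)⟩⟩, [⟨nat_lit 0, nat_lit 100, nat_lit 99, nat_lit 12, nat_lit 10101010101⟩,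 ⟨nat_lit 13, nat_lit 99, nat_lit 17, nat_lit 100, nat_lit 178404933⟩]⟩
noncomputable def p003_l53 : Lf2 := ⟨nat_lit 3, nat_lit 1, [nat_lit 19, nat_lit 5, nat_lit 5, nat_lit 20], false, nat_lit 0, nat_lit 0, nat_lit 0, nat_lit 0, zbN0,
 nat_lit 0, nat_lit 0, nat_lit 0, nat_lit 0, nat_lit 0, nat_lit 0, nat_lit 0, nat_lit 0, nat_lit 0, nat_lit 0, nat_lit 0, nat_lit 0, nat_lit 0, nat_lit 0, nat_lit 0, nat_lit 0, nat_lit 0, nat_lit 0, [],
 C1.Rw.none, ⟨p003_k25, nat_lit 0, nat_lit 0, nat_lit 289, nat_lit 0, nat_lit 0, [], [], [], nat_lit 0, nat_lit 0, nat_lit 0, nat_lit 0, nat_lit 0, nat_lit 0, [], [nat_lit 77, nat_lit 40, nat_lit 20, nat_lit 80, nat_lit 17, nat_lit 260, nat_lit 50, nat_lit 8]⟩,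
 zbF0, []⟩
noncomputable def p003_l54 : Lf2 := ⟨nat_lit 0, nat_lit 1, [nat_lit 19, nat_lit 5, nat_lit 5, nat_lit 20], true, nat_lit 0, nat_lit 0, nat_lit 0, nat_lit 0, ⟨nat_lit 0, nat_lit 0, nat_lit 1000, nat_lit 4, nat_lit 31, nat_lit 0, nat_lit 0, nat_lit 0, nat_lit 0, nat_lit 215, nat_lit 8817, nat_lit 238, nat_lit 66597344, nat_lit 0, nat_lit 0, nat_lit 183064, false, false⟩,
 nat_lit 0, nat_lit 11591, nat_lit 0, nat_lit 0, nat_lit 5867, nat_lit 0, nat_lit 0, nat_lit 0, nat_lit 0, nat_lit 0, nat_lit 0, nat_lit 0, nat_lit 0, nat_lit 0, nat_lit 53, nat_lit 1000000, nat_lit 0, nat_lit 0, [(nat_lit 3, [(nat_lit 6, nat_lit 1000)])],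
 ⟨p003_k22, nat_lit 0, nat_lit 0, nat_lit 286, nat_lit 0, nat_lit 154720, [nat_lit 2101142858, nat_lit 11600000], [], [nat_lit 15872821617, nat_lit 15874566557, nat_lit 15870202970, nat_lit 15719918826], nat_lit 1271250, nat_lit 1271250, nat_lit 0, nat_lit 21650, nat_lit 0, nat_lit 0, [nat_lit 1412500, nat_lit 1271250], [nat_lit 26, nat_lit 40, nat_lit 20, nat_lit 80, nat_lit 2, nat_lit 272, nat_lit 60, nat_lit 10]⟩, C1.Rw.none,
 ⟨nat_lit 6480, nat_lit 6500, ⟨.ofNat (nat_lit 72542), .ofNat (nat_lit 80941), .ofNat (nat_lit 73612), .ofNat (nat_lit 82011), .ofNat (nat_lit 73513), .ofNat (nat_lit 81892), .ofNat (nat_lit 74582), .ofNat (nat_lit 82962)⟩, ⟨.ofNat (nat_lit 0), .ofNat (nat_lit 0), .ofNat (nat_lit 0), .ofNat (nat_lit 0), .ofNat (nat_lit 0), .ofNat (nat_lit 0), .ofNat (nat_lit 0), .ofNat (nat_lit 0)⟩⟩, [⟨nat_lit 0, nat_lit 100, nat_lit 99, nat_lit 13, nat_lit 98951049⟩]⟩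
noncomputable def p003_l55 : Lf2 := ⟨nat_lit 0, nat_lit 1, [nat_lit 19, nat_lit 5, nat_lit 5, nat_lit 20], false, nat_lit 0, nat_lit 0, nat_lit 0, nat_lit 0, ⟨nat_lit 274, nat_lit 0, nat_lit 726, nat_lit 4, nat_lit 32, nat_lit 0, nat_lit 0, nat_lit 0, nat_lit 0, nat_lit 215, nat_lit 9600, nat_lit 239, nat_lit 66586256, nat_lit 0, nat_lit 0, nat_lit 187303, false, false⟩,
 nat_lit 0, nat_lit 14433, nat_lit 0, nat_lit 0, nat_lit 7306, nat_lit 1464, nat_lit 0, nat_lit 0, nat_lit 0, nat_lit 2616, nat_lit 0, nat_lit 0, nat_lit 0, nat_lit 0, nat_lit 0, nat_lit 726000, nat_lit 0, nat_lit 0, [(nat_lit 3, [(nat_lit 6, nat_lit 726)])],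
 ⟨p003_k22, nat_lit 0, nat_lit 0, nat_lit 286, nat_lit 0, nat_lit 157185, [nat_lit 2468369715, nat_lit 1268181600], [], [nat_lit 18347935684, nat_lit 18342495303, nat_lit 18323434365, nat_lit 18136290006], nat_lit 1271250, nat_lit 1271250, nat_lit 0, nat_lit 21650, nat_lit 0, nat_lit 0, [nat_lit 1412500, nat_lit 1271250], [nat_lit 26, nat_lit 40, nat_lit 20, nat_lit 80, nat_lit 2, nat_lit 272, nat_lit 60, nat_lit 10]⟩, ⟨p003_k26, nat_lit 0, nat_lit 0, nat_lit 0, nat_lit 0, nat_lit 0, [nat_lit 899268000, nat_lit 1942523000, nat_lit 2434627000], [], [nat_lit 5003252378, nat_lit 5016570981, nat_lit 4904862609, nat_lit 4919056928], nat_lit 0, nat_lit 0, nat_lit 0, nat_lit 0, nat_lit 0, nat_lit 0, [], [nat_lit 115, nat_lit 40, nat_lit 20, nat_lit 40]⟩,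
 ⟨nat_lit 6480, nat_lit 6500, ⟨.ofNat (nat_lit 73612), .ofNat (nat_lit 82011), .ofNat (nat_lit 74682), .ofNat (nat_lit 83081), .ofNat (nat_lit 74582), .ofNat (nat_lit 82962), .ofNat (nat_lit 75652), .ofNat (nat_lit 84032)⟩, ⟨.ofNat (nat_lit 0), .ofNat (nat_lit 0), .ofNat (nat_lit 0), .ofNat (nat_lit 0), .ofNat (nat_lit 0), .ofNat (nat_lit 0), .ofNat (nat_lit 0), .ofNat (nat_lit 0)⟩⟩, [⟨nat_lit 0, nat_lit 100, nat_lit 99, nat_lit 13, nat_lit 483848327⟩]⟩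
noncomputable def p003_l56 : Lf2 := ⟨nat_lit 3, nat_lit 1, [nat_lit 19, nat_lit 5, nat_lit 5, nat_lit 20], false, nat_lit 0, nat_lit 0, nat_lit 0, nat_lit 0, zbN0,
 nat_lit 0, nat_lit 0, nat_lit 0, nat_lit 0, nat_lit 0, nat_lit 0, nat_lit 0, nat_lit 0, nat_lit 0, nat_lit 0, nat_lit 0, nat_lit 0, nat_lit 0, nat_lit 0, nat_lit 0, nat_lit 0, nat_lit 0, nat_lit 0, [],
 C1.Rw.none, ⟨p003_k25, nat_lit 0, nat_lit 0, nat_lit 289, nat_lit 0, nat_lit 0, [], [], [], nat_lit 0, nat_lit 0, nat_lit 0, nat_lit 0, nat_lit 0, nat_lit 0, [], [nat_lit 77, nat_lit 40, nat_lit 20, nat_lit 80, nat_lit 17, nat_lit 260, nat_lit 50, nat_lit 8]⟩,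
 zbF0, []⟩
noncomputable def p003_l57 : Lf2 := ⟨nat_lit 0, nat_lit 1, [nat_lit 19, nat_lit 5, nat_lit 5, nat_lit 20], true, nat_lit 0, nat_lit 0, nat_lit 0, nat_lit 0, ⟨nat_lit 0, nat_lit 0, nat_lit 1000, nat_lit 4, nat_lit 34, nat_lit 0, nat_lit 0, nat_lit 0, nat_lit 0, nat_lit 215, nat_lit 11267, nat_lit 241, nat_lit 66517102, nat_lit 0, nat_lit 0, nat_lit 213252, false, false⟩,
 nat_lit 0, nat_lit 12194, nat_lit 0, nat_lit 0, nat_lit 6141, nat_lit 0, nat_lit 0, nat_lit 0, nat_lit 0, nat_lit 0, nat_lit 0, nat_lit 0, nat_lit 0, nat_lit 0, nat_lit 53, nat_lit 1000000, nat_lit 0, nat_lit 0, [(nat_lit 3, [(nat_lit 6, nat_lit 1000)])],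
 ⟨p003_k19, nat_lit 0, nat_lit 0, nat_lit 284, nat_lit 0, nat_lit 150975, [nat_lit 2101142858, nat_lit 11600000], [], [nat_lit 15679350647, nat_lit 15672682147, nat_lit 15680902758, nat_lit 15523831822], nat_lit 1271250, nat_lit 1271250, nat_lit 21650, nat_lit 43600, nat_lit 0, nat_lit 0, [nat_lit 1412500, nat_lit 1271250], [nat_lit 26, nat_lit 40, nat_lit 20, nat_lit 80, nat_lit 2, nat_lit 272, nat_lit 60, nat_lit 10]⟩, C1.Rw.none,
 ⟨nat_lit 6500, nat_lit 6520, ⟨.ofNat (nat_lit 79988), .ofNat (nat_lit 88407), .ofNat (nat_lit 81058), .ofNat (nat_lit 89477), .ofNat (nat_lit 80941), .ofNat (nat_lit 89341), .ofNat (nat_lit 82011), .ofNat (nat_lit 90411)⟩, ⟨.ofNat (nat_lit 0), .ofNat (nat_lit 0), .ofNat (nat_lit 0), .ofNat (nat_lit 0), .ofNat (nat_lit 0), .ofNat (nat_lit 0), .ofNat (nat_lit 0), .ofNat (nat_lit 0)⟩⟩, []⟩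
noncomputable def p003_l58 : Lf2 := ⟨nat_lit 0, nat_lit 1, [nat_lit 19, nat_lit 5, nat_lit 5, nat_lit 20], false, nat_lit 0, nat_lit 0, nat_lit 0, nat_lit 0, ⟨nat_lit 302, nat_lit 0, nat_lit 698, nat_lit 4, nat_lit 35, nat_lit 0, nat_lit 0, nat_lit 0, nat_lit 0, nat_lit 215, nat_lit 11267, nat_lit 241, nat_lit 66504988, nat_lit 0, nat_lit 0, nat_lit 217721, false, false⟩,
 nat_lit 0, nat_lit 15467, nat_lit 0, nat_lit 0, nat_lit 7789, nat_lit 1615, nat_lit 0, nat_lit 0, nat_lit 0, nat_lit 2886, nat_lit 0, nat_lit 0, nat_lit 0, nat_lit 0, nat_lit 0, nat_lit 698000, nat_lit 0, nat_lit 0, [(nat_lit 3, [(nat_lit 6, nat_lit 698)])],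
 ⟨p003_k19, nat_lit 0, nat_lit 0, nat_lit 284, nat_lit 0, nat_lit 153473, [nat_lit 2614217715, nat_lit 1526576800], [], [nat_lit 18346776325, nat_lit 18321618283, nat_lit 18325182936, nat_lit 18125960411], nat_lit 1271250, nat_lit 1271250, nat_lit 21650, nat_lit 43600, nat_lit 0, nat_lit 0, [nat_lit 1412500, nat_lit 1271250], [nat_lit 26, nat_lit 40, nat_lit 20, nat_lit 80, nat_lit 2, nat_lit 272, nat_lit 60, nat_lit 10]⟩, ⟨p003_k26, nat_lit 0, nat_lit 0, nat_lit 0, nat_lit 0, nat_lit 0, [nat_lit 991164000, nat_lit 2141029000, nat_lit 2683421000], [], [nat_lit 5405304814, nat_lit 5420438426, nat_lit 5318541041, nat_lit 5335092881], nat_lit 0, nat_lit 0, nat_lit 0, nat_lit 0, nat_lit 0, nat_lit 0, [], [nat_lit 115, nat_lit 40, nat_lit 20, nat_lit 40]⟩,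
 ⟨nat_lit 6500, nat_lit 6520, ⟨.ofNat (nat_lit 81058), .ofNat (nat_lit 89477), .ofNat (nat_lit 82128), .ofNat (nat_lit 90547), .ofNat (nat_lit 82011), .ofNat (nat_lit 90411), .ofNat (nat_lit 83081), .ofNat (nat_lit 91480)⟩, ⟨.ofNat (nat_lit 0), .ofNat (nat_lit 0), .ofNat (nat_lit 0), .ofNat (nat_lit 0), .ofNat (nat_lit 0), .ofNat (nat_lit 0), .ofNat (nat_lit 0), .ofNat (nat_lit 0)⟩⟩, []⟩
noncomputable def p003_l59 : Lf2 := ⟨nat_lit 3, nat_lit 1, [nat_lit 19, nat_lit 5, nat_lit 5, nat_lit 20], false, nat_lit 0, nat_lit 0, nat_lit 0, nat_lit 0, zbN0,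
 nat_lit 0, nat_lit 0, nat_lit 0, nat_lit 0, nat_lit 0, nat_lit 0, nat_lit 0, nat_lit 0, nat_lit 0, nat_lit 0, nat_lit 0, nat_lit 0, nat_lit 0, nat_lit 0, nat_lit 0, nat_lit 0, nat_lit 0, nat_lit 0, [],
 C1.Rw.none, ⟨p003_k25, nat_lit 0, nat_lit 0, nat_lit 282, nat_lit 0, nat_lit 0, [], [], [], nat_lit 0, nat_lit 0, nat_lit 0, nat_lit 0, nat_lit 0, nat_lit 0, [], [nat_lit 77, nat_lit 40, nat_lit 20, nat_lit 80, nat_lit 17, nat_lit 272, nat_lit 60, nat_lit 9]⟩,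
 zbF0, []⟩
noncomputable def p003_l60 : Lf2 := ⟨nat_lit 0, nat_lit 1, [nat_lit 19, nat_lit 5, nat_lit 5, nat_lit 20], true, nat_lit 0, nat_lit 0, nat_lit 0, nat_lit 0, ⟨nat_lit 0, nat_lit 0, nat_lit 1000, nat_lit 4, nat_lit 35, nat_lit 0, nat_lit 0, nat_lit 0, nat_lit 0, nat_lit 215, nat_lit 11267, nat_lit 241, nat_lit 66500339, nat_lit 0, nat_lit 0, nat_lit 219419, false, false⟩,
 nat_lit 0, nat_lit 11958, nat_lit 0, nat_lit 0, nat_lit 6053, nat_lit 0, nat_lit 0, nat_lit 0, nat_lit 0, nat_lit 0, nat_lit 0, nat_lit 0, nat_lit 0, nat_lit 0, nat_lit 53, nat_lit 1000000, nat_lit 0, nat_lit 0, [(nat_lit 3, [(nat_lit 6, nat_lit 1000)])],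
 ⟨p003_k22, nat_lit 0, nat_lit 0, nat_lit 284, nat_lit 0, nat_lit 157185, [nat_lit 2101142858, nat_lit 11600000], [], [nat_lit 15633864160, nat_lit 15630795319, nat_lit 15636880637, nat_lit 15482060513], nat_lit 1271250, nat_lit 1271250, nat_lit 21650, nat_lit 43600, nat_lit 0, nat_lit 0, [nat_lit 1412500, nat_lit 1271250], [nat_lit 26, nat_lit 40, nat_lit 20, nat_lit 80, nat_lit 2, nat_lit 272, nat_lit 60, nat_lit 10]⟩, C1.Rw.none,
 ⟨nat_lit 6480, nat_lit 6500, ⟨.ofNat (nat_lit 80941), .ofNat (nat_lit 89341), .ofNat (nat_lit 83081), .ofNat (nat_lit 91480), .ofNat (nat_lit 81892), .ofNat (nat_lit 90272), .ofNat (nat_lit 84032), .ofNat (nat_lit 92412)⟩, ⟨.ofNat (nat_lit 0), .ofNat (nat_lit 0), .ofNat (nat_lit 0), .ofNat (nat_lit 0), .ofNat (nat_lit 0), .ofNat (nat_lit 0), .ofNat (nat_lit 0), .ofNat (nat_lit 0)⟩⟩, []⟩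
noncomputable def p003_l61 : Lf2 := ⟨nat_lit 0, nat_lit 1, [nat_lit 19, nat_lit 5, nat_lit 5, nat_lit 20], true, nat_lit 0, nat_lit 0, nat_lit 0, nat_lit 0, ⟨nat_lit 0, nat_lit 0, nat_lit 1000, nat_lit 4, nat_lit 41, nat_lit 0, nat_lit 0, nat_lit 0, nat_lit 0, nat_lit 215, nat_lit 15000, nat_lit 245, nat_lit 66318065, nat_lit 0, nat_lit 0, nat_lit 283889, false, false⟩,
 nat_lit 0, nat_lit 12525, nat_lit 0, nat_lit 0, nat_lit 6308, nat_lit 0, nat_lit 0, nat_lit 0, nat_lit 0, nat_lit 0, nat_lit 0, nat_lit 0, nat_lit 0, nat_lit 0, nat_lit 53, nat_lit 1000000, nat_lit 0, nat_lit 0, [(nat_lit 3, [(nat_lit 6, nat_lit 1000)])],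
 ⟨p003_k19, nat_lit 0, nat_lit 0, nat_lit 283, nat_lit 0, nat_lit 157995, [nat_lit 2101142858, nat_lit 11600000], [], [nat_lit 15470638369, nat_lit 15455287910, nat_lit 15520905190, nat_lit 15199648843], nat_lit 1271250, nat_lit 1271250, nat_lit 43600, nat_lit 111251, nat_lit 0, nat_lit 0, [nat_lit 1412500, nat_lit 1271250], [nat_lit 26, nat_lit 40, nat_lit 20, nat_lit 80, nat_lit 2, nat_lit 289, nat_lit 75, nat_lit 10]⟩, C1.Rw.none,
 ⟨nat_lit 6480, nat_lit 6520, ⟨.ofNat (nat_lit 85197), .ofNat (nat_lit 110454), .ofNat (nat_lit 90547), .ofNat (nat_lit 115803), .ofNat (nat_lit 87064), .ofNat (nat_lit 112204), .ofNat (nat_lit 92412), .ofNat (nat_lit 117552)⟩, ⟨.ofNat (nat_lit 0), .ofNat (nat_lit 0), .ofNat (nat_lit 0), .ofNat (nat_lit 0), .ofNat (nat_lit 0), .ofNat (nat_lit 0), .ofNat (nat_lit 0), .ofNat (nat_lit 0)⟩⟩, []⟩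
noncomputable def p003_l62 : Lf2 := ⟨nat_lit 0, nat_lit 1, [nat_lit 19, nat_lit 5, nat_lit 5, nat_lit 20], true, nat_lit 0, nat_lit 0, nat_lit 0, nat_lit 0, ⟨nat_lit 0, nat_lit 0, nat_lit 1000, nat_lit 4, nat_lit 33, nat_lit 0, nat_lit 0, nat_lit 0, nat_lit 0, nat_lit 215, nat_lit 10417, nat_lit 240, nat_lit 66554315, nat_lit 0, nat_lit 0, nat_lit 199402, false, false⟩,
 nat_lit 0, nat_lit 11372, nat_lit 0, nat_lit 0, nat_lit 5785, nat_lit 0, nat_lit 0, nat_lit 0, nat_lit 0, nat_lit 0, nat_lit 0, nat_lit 0, nat_lit 0, nat_lit 0, nat_lit 53, nat_lit 1000000, nat_lit 0, nat_lit 0, [(nat_lit 3, [(nat_lit 6, nat_lit 1000)])],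
 ⟨p003_k27, nat_lit 0, nat_lit 0, nat_lit 286, nat_lit 0, nat_lit 160858, [nat_lit 2101142858, nat_lit 11600000], [], [nat_lit 15827365006, nat_lit 15830727791, nat_lit 15833200288, nat_lit 15685234913], nat_lit 1271250, nat_lit 1271250, nat_lit 0, nat_lit 43600, nat_lit 0, nat_lit 0, [nat_lit 1412500, nat_lit 1271250], [nat_lit 26, nat_lit 40, nat_lit 20, nat_lit 80, nat_lit 2, nat_lit 289, nat_lit 75, nat_lit 10]⟩, C1.Rw.none,
 ⟨nat_lit 6461, nat_lit 6481, ⟨.ofNat (nat_lit 70304), .ofNat (nat_lit 87064), .ofNat (nat_lit 75652), .ofNat (nat_lit 92412), .ofNat (nat_lit 71273), .ofNat (nat_lit 87994), .ofNat (nat_lit 76620), .ofNat (nat_lit 93341)⟩, ⟨.ofNat (nat_lit 0), .ofNat (nat_lit 0), .ofNat (nat_lit 0), .ofNat (nat_lit 0), .ofNat (nat_lit 0), .ofNat (nat_lit 0), .ofNat (nat_lit 0), .ofNat (nat_lit 0)⟩⟩, [⟨nat_lit 0, nat_lit 100, nat_lit 99, nat_lit 14, nat_lit 92416031⟩]⟩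
noncomputable def p003_l63 : Lf2 := ⟨nat_lit 0, nat_lit 1, [nat_lit 19, nat_lit 5, nat_lit 5, nat_lit 20], true, nat_lit 0, nat_lit 0, nat_lit 0, nat_lit 0, ⟨nat_lit 0, nat_lit 0, nat_lit 1000, nat_lit 4, nat_lit 41, nat_lit 0, nat_lit 0, nat_lit 0, nat_lit 0, nat_lit 215, nat_lit 16017, nat_lit 246, nat_lit 66299922, nat_lit 0, nat_lit 0, nat_lit 290078, false, false⟩,
 nat_lit 0, nat_lit 12112, nat_lit 0, nat_lit 0, nat_lit 6162, nat_lit 0, nat_lit 0, nat_lit 0, nat_lit 0, nat_lit 0, nat_lit 0, nat_lit 0, nat_lit 0, nat_lit 0, nat_lit 53, nat_lit 1000000, nat_lit 0, nat_lit 0, [(nat_lit 3, [(nat_lit 6, nat_lit 1000)])],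
 ⟨p003_k27, nat_lit 0, nat_lit 0, nat_lit 282, nat_lit 0, nat_lit 160858, [nat_lit 2101142858, nat_lit 11600000], [], [nat_lit 15339246202, nat_lit 15334399244, nat_lit 15396008098, nat_lit 15239097697], nat_lit 1271250, nat_lit 1271250, nat_lit 43600, nat_lit 111251, nat_lit 0, nat_lit 0, [nat_lit 1412500, nat_lit 1271250], [nat_lit 26, nat_lit 40, nat_lit 20, nat_lit 80, nat_lit 2, nat_lit 289, nat_lit 75, nat_lit 10]⟩, C1.Rw.none,
 ⟨nat_lit 6461, nat_lit 6481, ⟨.ofNat (nat_lit 87064), .ofNat (nat_lit 112204), .ofNat (nat_lit 92412), .ofNat (nat_lit 117552), .ofNat (nat_lit 87994), .ofNat (nat_lit 113076), .ofNat (nat_lit 93341), .ofNat (nat_lit 118423)⟩, ⟨.ofNat (nat_lit 0), .ofNat (nat_lit 0), .ofNat (nat_lit 0), .ofNat (nat_lit 0), .ofNat (nat_lit 0), .ofNat (nat_lit 0), .ofNat (nat_lit 0), .ofNat (nat_lit 0)⟩⟩, []⟩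
noncomputable def p003_l64 : Lf2 := ⟨nat_lit 0, nat_lit 1, [nat_lit 19, nat_lit 5, nat_lit 5, nat_lit 20], true, nat_lit 0, nat_lit 0, nat_lit 0, nat_lit 0, ⟨nat_lit 0, nat_lit 0, nat_lit 1000, nat_lit 4, nat_lit 38, nat_lit 0, nat_lit 0, nat_lit 0, nat_lit 0, nat_lit 215, nat_lit 14017, nat_lit 244, nat_lit 66391136, nat_lit 0, nat_lit 0, nat_lit 258571, false, false⟩,
 nat_lit 0, nat_lit 11102, nat_lit 0, nat_lit 0, nat_lit 5676, nat_lit 0, nat_lit 0, nat_lit 0, nat_lit 0, nat_lit 0, nat_lit 0, nat_lit 0, nat_lit 0, nat_lit 0, nat_lit 53, nat_lit 1000000, nat_lit 0, nat_lit 0, [(nat_lit 3, [(nat_lit 6, nat_lit 1000)])],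
 ⟨p003_k28, nat_lit 0, nat_lit 0, nat_lit 286, nat_lit 0, nat_lit 168945, [nat_lit 2101142858, nat_lit 11600000], [], [nat_lit 15821397389, nat_lit 15834289332, nat_lit 15905107529, nat_lit 15616037930], nat_lit 1271250, nat_lit 1271250, nat_lit 0, nat_lit 111251, nat_lit 0, nat_lit 0, [nat_lit 1412500, nat_lit 1271250], [nat_lit 26, nat_lit 40, nat_lit 20, nat_lit 80, nat_lit 2, nat_lit 289, nat_lit 75, nat_lit 10]⟩, C1.Rw.none,
 ⟨nat_lit 6422, nat_lit 6462, ⟨.ofNat (nat_lit 71273), .ofNat (nat_lit 113076), .ofNat (nat_lit 76620), .ofNat (nat_lit 118423), .ofNat (nat_lit 73203), .ofNat (nat_lit 114814), .ofNat (nat_lit 78549), .ofNat (nat_lit 120159)⟩, ⟨.ofNat (nat_lit 0), .ofNat (nat_lit 0), .ofNat (nat_lit 0), .ofNat (nat_lit 0), .ofNat (nat_lit 0), .ofNat (nat_lit 0), .ofNat (nat_lit 0), .ofNat (nat_lit 0)⟩⟩, [⟨nat_lit 0, nat_lit 100, nat_lit 98, nat_lit 15, nat_lit 76732964⟩]⟩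
noncomputable def p003_l65 : Lf2 := ⟨nat_lit 0, nat_lit 1, [nat_lit 19, nat_lit 5, nat_lit 5, nat_lit 20], true, nat_lit 0, nat_lit 0, nat_lit 0, nat_lit 0, ⟨nat_lit 0, nat_lit 0, nat_lit 1000, nat_lit 4, nat_lit 40, nat_lit 0, nat_lit 0, nat_lit 0, nat_lit 0, nat_lit 215, nat_lit 15000, nat_lit 245, nat_lit 66340191, nat_lit 0, nat_lit 0, nat_lit 276289, false, false⟩,
 nat_lit 0, nat_lit 9809, nat_lit 0, nat_lit 0, nat_lit 4940, nat_lit 0, nat_lit 0, nat_lit 0, nat_lit 0, nat_lit 0, nat_lit 0, nat_lit 0, nat_lit 0, nat_lit 0, nat_lit 21, nat_lit 1000000, nat_lit 0, nat_lit 0, [(nat_lit 3, [(nat_lit 6, nat_lit 1000)])],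
 ⟨p003_k23, nat_lit 0, nat_lit 0, nat_lit 0, nat_lit 0, nat_lit 184640, [nat_lit 1315028572, nat_lit 12000000], [], [nat_lit 14443893396, nat_lit 14551178580, nat_lit 14514094656, nat_lit 13870933826], nat_lit 1271250, nat_lit 1271250, nat_lit 0, nat_lit 111251, nat_lit 0, nat_lit 0, [nat_lit 1271250, nat_lit 1271250], [nat_lit 155, nat_lit 40, nat_lit 20, nat_lit 40]⟩, C1.Rw.none,
 ⟨nat_lit 6422, nat_lit 6520, ⟨.ofNat (nat_lit 73709), .ofNat (nat_lit 115803), .ofNat (nat_lit 79059), .ofNat (nat_lit 121153), .ofNat (nat_lit 78549), .ofNat (nat_lit 120159), .ofNat (nat_lit 83894), .ofNat (nat_lit 125505)⟩, ⟨.ofNat (nat_lit 0), .ofNat (nat_lit 0), .ofNat (nat_lit 0), .ofNat (nat_lit 0), .ofNat (nat_lit 0), .ofNat (nat_lit 0), .ofNat (nat_lit 0), .ofNat (nat_lit 0)⟩⟩, [⟨nat_lit 0, nat_lit 100, nat_lit 99, nat_lit 15, nat_lit 82076244⟩]⟩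
noncomputable def p003_l66 : Lf2 := ⟨nat_lit 0, nat_lit 1, [nat_lit 19, nat_lit 5, nat_lit 5, nat_lit 20], true, nat_lit 0, nat_lit 0, nat_lit 0, nat_lit 0, ⟨nat_lit 0, nat_lit 0, nat_lit 1000, nat_lit 4, nat_lit 40, nat_lit 0, nat_lit 0, nat_lit 0, nat_lit 0, nat_lit 215, nat_lit 15000, nat_lit 245, nat_lit 66340191, nat_lit 0, nat_lit 0, nat_lit 276289, false, false⟩,
 nat_lit 0, nat_lit 100000, nat_lit 0, nat_lit 0, nat_lit 50364, nat_lit 0, nat_lit 5533, nat_lit 2089, nat_lit 0, nat_lit 0, nat_lit 0, nat_lit 0, nat_lit 0, nat_lit 0, nat_lit 0, nat_lit 1000000, nat_lit 0, nat_lit 0, [(nat_lit 3, [(nat_lit 6, nat_lit 1000)])],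
 ⟨p003_k19, nat_lit 0, nat_lit 0, nat_lit 289, nat_lit 0, nat_lit 184640, [nat_lit 42821142858, nat_lit 48875600000], [], [nat_lit 86641851018, nat_lit 80183276365, nat_lit 83852529302, nat_lit 77440134458], nat_lit 1271250, nat_lit 1271250, nat_lit 0, nat_lit 111251, nat_lit 0, nat_lit 0, [nat_lit 1412500, nat_lit 1271250], [nat_lit 26, nat_lit 40, nat_lit 20, nat_lit 80, nat_lit 2, nat_lit 289, nat_lit 75, nat_lit 10]⟩, C1.Rw.none,
 ⟨nat_lit 6422, nat_lit 6520, ⟨.ofNat (nat_lit 73709), .ofNat (nat_lit 115803), .ofNat (nat_lit 79059), .ofNat (nat_lit 121153), .ofNat (nat_lit 78549), .ofNat (nat_lit 120159), .ofNat (nat_lit 83894), .ofNat (nat_lit 125505)⟩, ⟨.ofNat (nat_lit 0), .ofNat (nat_lit 0), .ofNat (nat_lit 0), .ofNat (nat_lit 0), .ofNat (nat_lit 0), .ofNat (nat_lit 0), .ofNat (nat_lit 0), .ofNat (nat_lit 0)⟩⟩, [⟨nat_lit 13, nat_lit 99, nat_lit 15, nat_lit 100, nat_lit 190284397⟩]⟩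
noncomputable def p003_l67 : Lf2 := ⟨nat_lit 3, nat_lit 1, [nat_lit 19, nat_lit 5, nat_lit 5, nat_lit 20], false, nat_lit 0, nat_lit 0, nat_lit 0, nat_lit 0, zbN0,
 nat_lit 0, nat_lit 0, nat_lit 0, nat_lit 0, nat_lit 0, nat_lit 0, nat_lit 0, nat_lit 0, nat_lit 0, nat_lit 0, nat_lit 0, nat_lit 0, nat_lit 0, nat_lit 0, nat_lit 0, nat_lit 0, nat_lit 0, nat_lit 0, [],
 C1.Rw.none, ⟨p003_k29, nat_lit 0, nat_lit 0, nat_lit 289, nat_lit 0, nat_lit 0, [], [], [], nat_lit 0, nat_lit 0, nat_lit 0, nat_lit 0, nat_lit 0, nat_lit 0, [], [nat_lit 77, nat_lit 40, nat_lit 20, nat_lit 80, nat_lit 17, nat_lit 272, nat_lit 60, nat_lit 9]⟩,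
 zbF0, []⟩
noncomputable def p003_l68 : Lf2 := ⟨nat_lit 0, nat_lit 2, [nat_lit 10, nat_lit 5, nat_lit 5, nat_lit 20], true, nat_lit 0, nat_lit 0, nat_lit 0, nat_lit 0, ⟨nat_lit 0, nat_lit 0, nat_lit 1000, nat_lit 4, nat_lit 30, nat_lit 0, nat_lit 0, nat_lit 0, nat_lit 0, nat_lit 215, nat_lit 8817, nat_lit 238, nat_lit 66613154, nat_lit 0, nat_lit 0, nat_lit 176964, false, false⟩,
 nat_lit 0, nat_lit 11749, nat_lit 0, nat_lit 0, nat_lit 5917, nat_lit 0, nat_lit 0, nat_lit 0, nat_lit 0, nat_lit 0, nat_lit 0, nat_lit 0, nat_lit 0, nat_lit 0, nat_lit 53, nat_lit 1000000, nat_lit 0, nat_lit 0, [(nat_lit 3, [(nat_lit 6, nat_lit 1000)])],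
 ⟨p003_k4, nat_lit 0, nat_lit 0, nat_lit 283, nat_lit 0, nat_lit 112495, [nat_lit 2101142858, nat_lit 11600000], [], [nat_lit 15961838231, nat_lit 15960318077, nat_lit 15958235933, nat_lit 15655106130], nat_lit 1271250, nat_lit 1271250, nat_lit 0, nat_lit 21650, nat_lit 0, nat_lit 0, [nat_lit 1412500, nat_lit 1271250], [nat_lit 26, nat_lit 40, nat_lit 20, nat_lit 80, nat_lit 2, nat_lit 272, nat_lit 60, nat_lit 10]⟩, C1.Rw.none,
 ⟨nat_lit 6480, nat_lit 6520, ⟨.ofNat (nat_lit 68360), .ofNat (nat_lit 76779), .ofNat (nat_lit 73709), .ofNat (nat_lit 82128), .ofNat (nat_lit 70304), .ofNat (nat_lit 78684), .ofNat (nat_lit 75652), .ofNat (nat_lit 84032)⟩, ⟨.ofNat (nat_lit 0), .ofNat (nat_lit 0), .ofNat (nat_lit 0), .ofNat (nat_lit 0), .ofNat (nat_lit 0), .ofNat (nat_lit 0), .ofNat (nat_lit 0), .ofNat (nat_lit 0)⟩⟩, [⟨nat_lit 0, nat_lit 100, nat_lit 99, nat_lit 12, nat_lit 100270325⟩]⟩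
noncomputable def p003_l69 : Lf2 := ⟨nat_lit 0, nat_lit 2, [nat_lit 10, nat_lit 5, nat_lit 5, nat_lit 20], true, nat_lit 0, nat_lit 0, nat_lit 0, nat_lit 0, ⟨nat_lit 0, nat_lit 0, nat_lit 1000, nat_lit 4, nat_lit 32, nat_lit 0, nat_lit 0, nat_lit 0, nat_lit 0, nat_lit 215, nat_lit 9600, nat_lit 239, nat_lit 66568781, nat_lit 0, nat_lit 0, nat_lit 193943, false, false⟩,
 nat_lit 0, nat_lit 11751, nat_lit 0, nat_lit 0, nat_lit 5918, nat_lit 0, nat_lit 0, nat_lit 0, nat_lit 0, nat_lit 0, nat_lit 0, nat_lit 0, nat_lit 0, nat_lit 0, nat_lit 53, nat_lit 1000000, nat_lit 0, nat_lit 0, [(nat_lit 3, [(nat_lit 6, nat_lit 1000)])],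
 ⟨p003_k4, nat_lit 0, nat_lit 0, nat_lit 284, nat_lit 0, nat_lit 120683, [nat_lit 2101142858, nat_lit 11600000], [], [nat_lit 15960608452, nat_lit 15962033108, nat_lit 15956990910, nat_lit 15653809876], nat_lit 1271250, nat_lit 1271250, nat_lit 0, nat_lit 21650, nat_lit 0, nat_lit 0, [nat_lit 1412500, nat_lit 1271250], [nat_lit 26, nat_lit 40, nat_lit 20, nat_lit 80, nat_lit 2, nat_lit 272, nat_lit 60, nat_lit 10]⟩, C1.Rw.none,
 ⟨nat_lit 6480, nat_lit 6520, ⟨.ofNat (nat_lit 73709), .ofNat (nat_lit 82128), .ofNat (nat_lit 76919), .ofNat (nat_lit 85338), .ofNat (nat_lit 75652), .ofNat (nat_lit 84032), .ofNat (nat_lit 78860), .ofNat (nat_lit 87240)⟩, ⟨.ofNat (nat_lit 0), .ofNat (nat_lit 0), .ofNat (nat_lit 0), .ofNat (nat_lit 0), .ofNat (nat_lit 0), .ofNat (nat_lit 0), .ofNat (nat_lit 0), .ofNat (nat_lit 0)⟩⟩, [⟨nat_lit 0, nat_lit 100, nat_lit 99, nat_lit 14, nat_lit 101537111⟩]⟩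
noncomputable def p003_l70 : Lf2 := ⟨nat_lit 0, nat_lit 2, [nat_lit 10, nat_lit 5, nat_lit 5, nat_lit 20], true, nat_lit 0, nat_lit 0, nat_lit 0, nat_lit 0, ⟨nat_lit 0, nat_lit 0, nat_lit 1000, nat_lit 4, nat_lit 33, nat_lit 0, nat_lit 0, nat_lit 0, nat_lit 0, nat_lit 215, nat_lit 10417, nat_lit 240, nat_lit 66550934, nat_lit 0, nat_lit 0, nat_lit 200664, false, false⟩,
 nat_lit 0, nat_lit 9117, nat_lit 0, nat_lit 0, nat_lit 4591, nat_lit 0, nat_lit 404, nat_lit 0, nat_lit 0, nat_lit 0, nat_lit 0, nat_lit 0, nat_lit 0, nat_lit 0, nat_lit 53, nat_lit 1000000, nat_lit 0, nat_lit 0, [(nat_lit 3, [(nat_lit 6, nat_lit 1000)])],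
 ⟨p003_k30, nat_lit 0, nat_lit 0, nat_lit 0, nat_lit 0, nat_lit 118863, [nat_lit 1891028572, nat_lit 716000001, nat_lit 11600000], [], [nat_lit 13559067075, nat_lit 13603471906, nat_lit 13374297218, nat_lit 13418667674], nat_lit 1271250, nat_lit 1271250, nat_lit 0, nat_lit 21650, nat_lit 0, nat_lit 0, [nat_lit 1271250, nat_lit 1271250, nat_lit 1271250], [nat_lit 181, nat_lit 40, nat_lit 20, nat_lit 40]⟩, C1.Rw.none,
 ⟨nat_lit 6500, nat_lit 6520, ⟨.ofNat (nat_lit 76919), .ofNat (nat_lit 85338), .ofNat (nat_lit 77989), .ofNat (nat_lit 86408), .ofNat (nat_lit 77891), .ofNat (nat_lit 86290), .ofNat (nat_lit 78960), .ofNat (nat_lit 87360)⟩, ⟨.ofNat (nat_lit 0), .ofNat (nat_lit 0), .ofNat (nat_lit 0), .ofNat (nat_lit 0), .ofNat (nat_lit 0), .ofNat (nat_lit 0), .ofNat (nat_lit 0), .ofNat (nat_lit 0)⟩⟩, [⟨nat_lit 0, nat_lit 100, nat_lit 99, nat_lit 15, nat_lit 330732093⟩]⟩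
noncomputable def p003_l71 : Lf2 := ⟨nat_lit 0, nat_lit 2, [nat_lit 10, nat_lit 5, nat_lit 5, nat_lit 20], true, nat_lit 0, nat_lit 0, nat_lit 0, nat_lit 0, ⟨nat_lit 0, nat_lit 0, nat_lit 1000, nat_lit 4, nat_lit 33, nat_lit 0, nat_lit 0, nat_lit 0, nat_lit 0, nat_lit 215, nat_lit 10417, nat_lit 240, nat_lit 66550934, nat_lit 0, nat_lit 0, nat_lit 200664, false, false⟩,
 nat_lit 0, nat_lit 100000, nat_lit 0, nat_lit 0, nat_lit 50364, nat_lit 0, nat_lit 0, nat_lit 2710, nat_lit 0, nat_lit 0, nat_lit 0, nat_lit 0, nat_lit 0, nat_lit 0, nat_lit 0, nat_lit 1000000, nat_lit 0, nat_lit 0, [(nat_lit 3, [(nat_lit 6, nat_lit 1000)])],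
 ⟨p003_k4, nat_lit 0, nat_lit 0, nat_lit 284, nat_lit 0, nat_lit 118863, [nat_lit 55241142858, nat_lit 63779600000], [], [nat_lit 125638352820, nat_lit 125820599404, nat_lit 123220671984, nat_lit 123298845819], nat_lit 1271250, nat_lit 1271250, nat_lit 0, nat_lit 21650, nat_lit 0, nat_lit 0, [nat_lit 1412500, nat_lit 1271250], [nat_lit 26, nat_lit 40, nat_lit 20, nat_lit 80, nat_lit 2, nat_lit 272, nat_lit 60, nat_lit 10]⟩, C1.Rw.none,
 ⟨nat_lit 6500, nat_lit 6520, ⟨.ofNat (nat_lit 76919), .ofNat (nat_lit 85338), .ofNat (nat_lit 77989), .ofNat (nat_lit 86408), .ofNat (nat_lit 77891), .ofNat (nat_lit 86290), .ofNat (nat_lit 78960), .ofNat (nat_lit 87360)⟩, ⟨.ofNat (nat_lit 0), .ofNat (nat_lit 0), .ofNat (nat_lit 0), .ofNat (nat_lit 0), .ofNat (nat_lit 0), .ofNat (nat_lit 0), .ofNat (nat_lit 0), .ofNat (nat_lit 0)⟩⟩, [⟨nat_lit 0, nat_lit 100, nat_lit 99, nat_lit 15, nat_lit 10101010101⟩,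 ⟨nat_lit 0, nat_lit 100, nat_lit 99, nat_lit 15, nat_lit 10101010101⟩, ⟨nat_lit 0, nat_lit 100, nat_lit 99, nat_lit 14, nat_lit 10101010101⟩, ⟨nat_lit 13, nat_lit 99, nat_lit 15, nat_lit 100, nat_lit 173101727⟩]⟩
noncomputable def p003_l72 : Lf2 := ⟨nat_lit 3, nat_lit 2, [nat_lit 10, nat_lit 5, nat_lit 5, nat_lit 20], false, nat_lit 0, nat_lit 0, nat_lit 0, nat_lit 0, zbN0,
 nat_lit 0, nat_lit 0, nat_lit 0, nat_lit 0, nat_lit 0, nat_lit 0, nat_lit 0, nat_lit 0, nat_lit 0, nat_lit 0, nat_lit 0, nat_lit 0, nat_lit 0, nat_lit 0, nat_lit 0, nat_lit 0, nat_lit 0, nat_lit 0, [],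
 C1.Rw.none, ⟨p003_k31, nat_lit 0, nat_lit 0, nat_lit 289, nat_lit 0, nat_lit 0, [], [], [], nat_lit 0, nat_lit 0, nat_lit 0, nat_lit 0, nat_lit 0, nat_lit 0, [], [nat_lit 77, nat_lit 40, nat_lit 20, nat_lit 80, nat_lit 17, nat_lit 272, nat_lit 60, nat_lit 9]⟩,
 zbF0, []⟩
noncomputable def p003_l73 : Lf2 := ⟨nat_lit 0, nat_lit 2, [nat_lit 10, nat_lit 5, nat_lit 5, nat_lit 20], true, nat_lit 0, nat_lit 0, nat_lit 0, nat_lit 0, ⟨nat_lit 0, nat_lit 0, nat_lit 1000, nat_lit 4, nat_lit 33, nat_lit 0, nat_lit 0, nat_lit 0, nat_lit 0, nat_lit 215, nat_lit 10417, nat_lit 240, nat_lit 66539242, nat_lit 0, nat_lit 0, nat_lit 205047, false, false⟩,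
 nat_lit 0, nat_lit 9117, nat_lit 0, nat_lit 0, nat_lit 4591, nat_lit 0, nat_lit 404, nat_lit 0, nat_lit 0, nat_lit 0, nat_lit 0, nat_lit 0, nat_lit 0, nat_lit 0, nat_lit 53, nat_lit 1000000, nat_lit 0, nat_lit 0, [(nat_lit 3, [(nat_lit 6, nat_lit 1000)])],
 ⟨p003_k30, nat_lit 0, nat_lit 0, nat_lit 0, nat_lit 0, nat_lit 121632, [nat_lit 1891028572, nat_lit 716000001, nat_lit 11600000], [], [nat_lit 13559067075, nat_lit 13603471906, nat_lit 13374297218, nat_lit 13418667674], nat_lit 1271250, nat_lit 1271250, nat_lit 0, nat_lit 21650, nat_lit 0, nat_lit 0, [nat_lit 1271250, nat_lit 1271250, nat_lit 1271250], [nat_lit 181, nat_lit 40, nat_lit 20, nat_lit 40]⟩, C1.Rw.none,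
 ⟨nat_lit 6500, nat_lit 6520, ⟨.ofNat (nat_lit 77989), .ofNat (nat_lit 86408), .ofNat (nat_lit 79059), .ofNat (nat_lit 87478), .ofNat (nat_lit 78960), .ofNat (nat_lit 87360), .ofNat (nat_lit 80030), .ofNat (nat_lit 88430)⟩, ⟨.ofNat (nat_lit 0), .ofNat (nat_lit 0), .ofNat (nat_lit 0), .ofNat (nat_lit 0), .ofNat (nat_lit 0), .ofNat (nat_lit 0), .ofNat (nat_lit 0), .ofNat (nat_lit 0)⟩⟩, [⟨nat_lit 0, nat_lit 100, nat_lit 99, nat_lit 15, nat_lit 330732093⟩]⟩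
noncomputable def p003_l74 : Lf2 := ⟨nat_lit 0, nat_lit 2, [nat_lit 10, nat_lit 5, nat_lit 5, nat_lit 20], true, nat_lit 0, nat_lit 0, nat_lit 0, nat_lit 0, ⟨nat_lit 0, nat_lit 0, nat_lit 1000, nat_lit 4, nat_lit 33, nat_lit 0, nat_lit 0, nat_lit 0, nat_lit 0, nat_lit 215, nat_lit 10417, nat_lit 240, nat_lit 66539242, nat_lit 0, nat_lit 0, nat_lit 205047, false, false⟩,
 nat_lit 0, nat_lit 100000, nat_lit 0, nat_lit 0, nat_lit 50364, nat_lit 0, nat_lit 0, nat_lit 2716, nat_lit 0, nat_lit 0, nat_lit 0, nat_lit 0, nat_lit 0, nat_lit 0, nat_lit 0, nat_lit 1000000, nat_lit 0, nat_lit 0, [(nat_lit 3, [(nat_lit 6, nat_lit 1000)])],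
 ⟨p003_k4, nat_lit 0, nat_lit 0, nat_lit 284, nat_lit 0, nat_lit 121632, [nat_lit 55361142858, nat_lit 63923600000], [], [nat_lit 126022352820, nat_lit 126204599404, nat_lit 123580671984, nat_lit 123682845819], nat_lit 1271250, nat_lit 1271250, nat_lit 0, nat_lit 21650, nat_lit 0, nat_lit 0, [nat_lit 1412500, nat_lit 1271250], [nat_lit 26, nat_lit 40, nat_lit 20, nat_lit 80, nat_lit 2, nat_lit 272, nat_lit 60, nat_lit 10]⟩, C1.Rw.none,
 ⟨nat_lit 6500, nat_lit 6520, ⟨.ofNat (nat_lit 77989), .ofNat (nat_lit 86408), .ofNat (nat_lit 79059), .ofNat (nat_lit 87478), .ofNat (nat_lit 78960), .ofNat (nat_lit 87360), .ofNat (nat_lit 80030), .ofNat (nat_lit 88430)⟩, ⟨.ofNat (nat_lit 0), .ofNat (nat_lit 0), .ofNat (nat_lit 0), .ofNat (nat_lit 0), .ofNat (nat_lit 0), .ofNat (nat_lit 0), .ofNat (nat_lit 0), .ofNat (nat_lit 0)⟩⟩, [⟨nat_lit 0, nat_lit 100, nat_lit 99, nat_lit 15, nat_lit 10101010101⟩,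 ⟨nat_lit 0, nat_lit 100, nat_lit 99, nat_lit 15, nat_lit 10101010101⟩, ⟨nat_lit 0, nat_lit 100, nat_lit 99, nat_lit 15, nat_lit 10101010101⟩, ⟨nat_lit 13, nat_lit 99, nat_lit 15, nat_lit 100, nat_lit 176408320⟩]⟩
noncomputable def p003_l75 : Lf2 := ⟨nat_lit 3, nat_lit 2, [nat_lit 10, nat_lit 5, nat_lit 5, nat_lit 20], false, nat_lit 0, nat_lit 0, nat_lit 0, nat_lit 0, zbN0,
 nat_lit 0, nat_lit 0, nat_lit 0, nat_lit 0, nat_lit 0, nat_lit 0, nat_lit 0, nat_lit 0, nat_lit 0, nat_lit 0, nat_lit 0, nat_lit 0, nat_lit 0, nat_lit 0, nat_lit 0, nat_lit 0, nat_lit 0, nat_lit 0, [],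
 C1.Rw.none, ⟨p003_k32, nat_lit 0, nat_lit 0, nat_lit 289, nat_lit 0, nat_lit 0, [], [], [], nat_lit 0, nat_lit 0, nat_lit 0, nat_lit 0, nat_lit 0, nat_lit 0, [], [nat_lit 77, nat_lit 40, nat_lit 20, nat_lit 80, nat_lit 17, nat_lit 272, nat_lit 60, nat_lit 9]⟩,
 zbF0, []⟩
noncomputable def p003_l76 : Lf2 := ⟨nat_lit 0, nat_lit 2, [nat_lit 10, nat_lit 5, nat_lit 5, nat_lit 20], true, nat_lit 0, nat_lit 0, nat_lit 0, nat_lit 0, ⟨nat_lit 0, nat_lit 0, nat_lit 1000, nat_lit 4, nat_lit 33, nat_lit 0, nat_lit 0, nat_lit 0, nat_lit 0, nat_lit 215, nat_lit 10417, nat_lit 240, nat_lit 66540441, nat_lit 0, nat_lit 0, nat_lit 204601, false, false⟩,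
 nat_lit 0, nat_lit 11591, nat_lit 0, nat_lit 0, nat_lit 5867, nat_lit 0, nat_lit 0, nat_lit 0, nat_lit 0, nat_lit 0, nat_lit 0, nat_lit 0, nat_lit 0, nat_lit 0, nat_lit 53, nat_lit 1000000, nat_lit 0, nat_lit 0, [(nat_lit 3, [(nat_lit 6, nat_lit 1000)])],
 ⟨p003_k33, nat_lit 0, nat_lit 0, nat_lit 283, nat_lit 0, nat_lit 122788, [nat_lit 2101142858, nat_lit 11600000], [], [nat_lit 15872821617, nat_lit 15874566557, nat_lit 15870202970, nat_lit 15719918826], nat_lit 1271250, nat_lit 1271250, nat_lit 0, nat_lit 21650, nat_lit 0, nat_lit 0, [nat_lit 1412500, nat_lit 1271250], [nat_lit 26, nat_lit 40, nat_lit 20, nat_lit 80, nat_lit 2, nat_lit 272, nat_lit 60, nat_lit 10]⟩, C1.Rw.none,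
 ⟨nat_lit 6480, nat_lit 6500, ⟨.ofNat (nat_lit 77891), .ofNat (nat_lit 86290), .ofNat (nat_lit 78960), .ofNat (nat_lit 87360), .ofNat (nat_lit 78860), .ofNat (nat_lit 87240), .ofNat (nat_lit 79930), .ofNat (nat_lit 88310)⟩, ⟨.ofNat (nat_lit 0), .ofNat (nat_lit 0), .ofNat (nat_lit 0), .ofNat (nat_lit 0), .ofNat (nat_lit 0), .ofNat (nat_lit 0), .ofNat (nat_lit 0), .ofNat (nat_lit 0)⟩⟩, [⟨nat_lit 0, nat_lit 100, nat_lit 99, nat_lit 15, nat_lit 100653106⟩]⟩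
noncomputable def p003_l77 : Lf2 := ⟨nat_lit 0, nat_lit 2, [nat_lit 10, nat_lit 5, nat_lit 5, nat_lit 20], true, nat_lit 0, nat_lit 0, nat_lit 0, nat_lit 0, ⟨nat_lit 0, nat_lit 0, nat_lit 1000, nat_lit 4, nat_lit 34, nat_lit 0, nat_lit 0, nat_lit 0, nat_lit 0, nat_lit 215, nat_lit 10417, nat_lit 240, nat_lit 66528619, nat_lit 0, nat_lit 0, nat_lit 208995, false, false⟩,
 nat_lit 0, nat_lit 9052, nat_lit 0, nat_lit 0, nat_lit 4581, nat_lit 0, nat_lit 358, nat_lit 0, nat_lit 0, nat_lit 0, nat_lit 0, nat_lit 0, nat_lit 0, nat_lit 0, nat_lit 53, nat_lit 1000000, nat_lit 0, nat_lit 0, [(nat_lit 3, [(nat_lit 6, nat_lit 1000)])],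
 ⟨p003_k34, nat_lit 0, nat_lit 0, nat_lit 0, nat_lit 0, nat_lit 125521, [nat_lit 1891028572, nat_lit 716000001, nat_lit 11600000], [], [nat_lit 13627995419, nat_lit 13672366373, nat_lit 13443700947, nat_lit 13488035929], nat_lit 1271250, nat_lit 1271250, nat_lit 0, nat_lit 21650, nat_lit 0, nat_lit 0, [nat_lit 1271250, nat_lit 1271250, nat_lit 1271250], [nat_lit 181, nat_lit 40, nat_lit 20, nat_lit 40]⟩, C1.Rw.none,
 ⟨nat_lit 6480, nat_lit 6500, ⟨.ofNat (nat_lit 78960), .ofNat (nat_lit 87360), .ofNat (nat_lit 80030), .ofNat (nat_lit 88430), .ofNat (nat_lit 79930), .ofNat (nat_lit 88310), .ofNat (nat_lit 80999), .ofNat (nat_lit 89379)⟩, ⟨.ofNat (nat_lit 0), .ofNat (nat_lit 0), .ofNat (nat_lit 0), .ofNat (nat_lit 0), .ofNat (nat_lit 0), .ofNat (nat_lit 0), .ofNat (nat_lit 0), .ofNat (nat_lit 0)⟩⟩, [⟨nat_lit 0, nat_lit 100, nat_lit 99, nat_lit 16, nat_lit 330061754⟩]⟩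
noncomputable def p003_l78 : Lf2 := ⟨nat_lit 0, nat_lit 2, [nat_lit 10, nat_lit 5, nat_lit 5, nat_lit 20], true, nat_lit 0, nat_lit 0, nat_lit 0, nat_lit 0, ⟨nat_lit 0, nat_lit 0, nat_lit 1000, nat_lit 4, nat_lit 34, nat_lit 0, nat_lit 0, nat_lit 0, nat_lit 0, nat_lit 215, nat_lit 10417, nat_lit 240, nat_lit 66528619, nat_lit 0, nat_lit 0, nat_lit 208995, false, false⟩,
 nat_lit 0, nat_lit 100000, nat_lit 0, nat_lit 0, nat_lit 50620, nat_lit 0, nat_lit 0, nat_lit 2368, nat_lit 0, nat_lit 0, nat_lit 0, nat_lit 0, nat_lit 0, nat_lit 0, nat_lit 0, nat_lit 1000000, nat_lit 0, nat_lit 0, [(nat_lit 3, [(nat_lit 6, nat_lit 1000)])],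
 ⟨p003_k33, nat_lit 0, nat_lit 0, nat_lit 284, nat_lit 0, nat_lit 125521, [nat_lit 48401142858, nat_lit 55571600000], [], [nat_lit 103579598956, nat_lit 103762627876, nat_lit 101085306543, nat_lit 101227816577], nat_lit 1271250, nat_lit 1271250, nat_lit 0, nat_lit 21650, nat_lit 0, nat_lit 0, [nat_lit 1412500, nat_lit 1271250], [nat_lit 26, nat_lit 40, nat_lit 20, nat_lit 80, nat_lit 2, nat_lit 272, nat_lit 60, nat_lit 10]⟩, C1.Rw.none,
 ⟨nat_lit 6480, nat_lit 6500, ⟨.ofNat (nat_lit 78960), .ofNat (nat_lit 87360), .ofNat (nat_lit 80030), .ofNat (nat_lit 88430), .ofNat (nat_lit 79930), .ofNat (nat_lit 88310), .ofNat (nat_lit 80999), .ofNat (nat_lit 89379)⟩, ⟨.ofNat (nat_lit 0), .ofNat (nat_lit 0), .ofNat (nat_lit 0), .ofNat (nat_lit 0), .ofNat (nat_lit 0), .ofNat (nat_lit 0), .ofNat (nat_lit 0), .ofNat (nat_lit 0)⟩⟩, [⟨nat_lit 0, nat_lit 100, nat_lit 99, nat_lit 16, nat_lit 10101010101⟩,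 ⟨nat_lit 0, nat_lit 100, nat_lit 99, nat_lit 16, nat_lit 10101010101⟩, ⟨nat_lit 0, nat_lit 100, nat_lit 99, nat_lit 15, nat_lit 10101010101⟩, ⟨nat_lit 13, nat_lit 99, nat_lit 15, nat_lit 100, nat_lit 197974337⟩]⟩
noncomputable def p003_l79 : Lf2 := ⟨nat_lit 3, nat_lit 2, [nat_lit 10, nat_lit 5, nat_lit 5, nat_lit 20], false, nat_lit 0, nat_lit 0, nat_lit 0, nat_lit 0, zbN0,
 nat_lit 0, nat_lit 0, nat_lit 0, nat_lit 0, nat_lit 0, nat_lit 0, nat_lit 0, nat_lit 0, nat_lit 0, nat_lit 0, nat_lit 0, nat_lit 0, nat_lit 0, nat_lit 0, nat_lit 0, nat_lit 0, nat_lit 0, nat_lit 0, [],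
 C1.Rw.none, ⟨p003_k32, nat_lit 0, nat_lit 0, nat_lit 289, nat_lit 0, nat_lit 0, [], [], [], nat_lit 0, nat_lit 0, nat_lit 0, nat_lit 0, nat_lit 0, nat_lit 0, [], [nat_lit 77, nat_lit 40, nat_lit 20, nat_lit 80, nat_lit 17, nat_lit 272, nat_lit 60, nat_lit 9]⟩,
 zbF0, []⟩
noncomputable def p003_l80 : Lf2 := ⟨nat_lit 0, nat_lit 2, [nat_lit 10, nat_lit 5, nat_lit 5, nat_lit 20], true, nat_lit 0, nat_lit 0, nat_lit 0, nat_lit 0, ⟨nat_lit 0, nat_lit 0, nat_lit 1000, nat_lit 4, nat_lit 35, nat_lit 0, nat_lit 0, nat_lit 0, nat_lit 0, nat_lit 215, nat_lit 11267, nat_lit 241, nat_lit 66493472, nat_lit 0, nat_lit 0, nat_lit 221935, false, false⟩,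
 nat_lit 0, nat_lit 10039, nat_lit 0, nat_lit 0, nat_lit 5056, nat_lit 0, nat_lit 0, nat_lit 0, nat_lit 0, nat_lit 0, nat_lit 0, nat_lit 0, nat_lit 0, nat_lit 0, nat_lit 53, nat_lit 1000000, nat_lit 0, nat_lit 0, [(nat_lit 3, [(nat_lit 6, nat_lit 1000)])],
 ⟨p003_k4, nat_lit 0, nat_lit 0, nat_lit 282, nat_lit 0, nat_lit 126176, [nat_lit 2101142858, nat_lit 11600000], [], [nat_lit 13896063290, nat_lit 14019536872, nat_lit 13638499147, nat_lit 13762354843], nat_lit 1271250, nat_lit 1271250, nat_lit 21650, nat_lit 43600, nat_lit 0, nat_lit 0, [nat_lit 1412500, nat_lit 1271250], [nat_lit 26, nat_lit 40, nat_lit 20, nat_lit 80, nat_lit 2, nat_lit 272, nat_lit 60, nat_lit 10]⟩, C1.Rw.none,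
 ⟨nat_lit 6480, nat_lit 6520, ⟨.ofNat (nat_lit 76779), .ofNat (nat_lit 85197), .ofNat (nat_lit 87478), .ofNat (nat_lit 95896), .ofNat (nat_lit 78684), .ofNat (nat_lit 87064), .ofNat (nat_lit 89379), .ofNat (nat_lit 97759)⟩, ⟨.ofNat (nat_lit 0), .ofNat (nat_lit 0), .ofNat (nat_lit 0), .ofNat (nat_lit 0), .ofNat (nat_lit 0), .ofNat (nat_lit 0), .ofNat (nat_lit 0), .ofNat (nat_lit 0)⟩⟩, []⟩
noncomputable def p003_l81 : Lf2 := ⟨nat_lit 0, nat_lit 2, [nat_lit 10, nat_lit 5, nat_lit 5, nat_lit 20], true, nat_lit 0, nat_lit 0, nat_lit 0, nat_lit 0, ⟨nat_lit 0, nat_lit 0, nat_lit 1000, nat_lit 4, nat_lit 42, nat_lit 0, nat_lit 0, nat_lit 0, nat_lit 0, nat_lit 215, nat_lit 16017, nat_lit 246, nat_lit 66282015, nat_lit 0, nat_lit 0, nat_lit 296151, false, false⟩,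
 nat_lit 0, nat_lit 10220, nat_lit 0, nat_lit 0, nat_lit 5147, nat_lit 0, nat_lit 5, nat_lit 0, nat_lit 0, nat_lit 0, nat_lit 0, nat_lit 0, nat_lit 0, nat_lit 0, nat_lit 53, nat_lit 1000000, nat_lit 0, nat_lit 0, [(nat_lit 3, [(nat_lit 6, nat_lit 1000)])],
 ⟨p003_k4, nat_lit 0, nat_lit 0, nat_lit 280, nat_lit 0, nat_lit 126176, [nat_lit 2101142858, nat_lit 11600000], [], [nat_lit 13580098590, nat_lit 13692965764, nat_lit 12790917230, nat_lit 12904699096], nat_lit 1271250, nat_lit 1271250, nat_lit 43600, nat_lit 111251, nat_lit 0, nat_lit 0, [nat_lit 1412500, nat_lit 1271250], [nat_lit 26, nat_lit 40, nat_lit 20, nat_lit 80, nat_lit 2, nat_lit 289, nat_lit 75, nat_lit 10]⟩, C1.Rw.none,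
 ⟨nat_lit 6480, nat_lit 6520, ⟨.ofNat (nat_lit 85197), .ofNat (nat_lit 110454), .ofNat (nat_lit 95896), .ofNat (nat_lit 121153), .ofNat (nat_lit 87064), .ofNat (nat_lit 112204), .ofNat (nat_lit 97759), .ofNat (nat_lit 122899)⟩, ⟨.ofNat (nat_lit 0), .ofNat (nat_lit 0), .ofNat (nat_lit 0), .ofNat (nat_lit 0), .ofNat (nat_lit 0), .ofNat (nat_lit 0), .ofNat (nat_lit 0), .ofNat (nat_lit 0)⟩⟩, []⟩
noncomputable def p003_l82 : Lf2 := ⟨nat_lit 0, nat_lit 2, [nat_lit 10, nat_lit 5, nat_lit 5, nat_lit 20], true, nat_lit 0, nat_lit 0, nat_lit 0, nat_lit 0, ⟨nat_lit 0, nat_lit 0, nat_lit 1000, nat_lit 4, nat_lit 39, nat_lit 0, nat_lit 0, nat_lit 0, nat_lit 0, nat_lit 215, nat_lit 14017, nat_lit 244, nat_lit 66374688, nat_lit 0, nat_lit 0, nat_lit 264327, false, false⟩,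
 nat_lit 0, nat_lit 11372, nat_lit 0, nat_lit 0, nat_lit 5785, nat_lit 0, nat_lit 0, nat_lit 0, nat_lit 0, nat_lit 0, nat_lit 0, nat_lit 0, nat_lit 0, nat_lit 0, nat_lit 53, nat_lit 1000000, nat_lit 0, nat_lit 0, [(nat_lit 3, [(nat_lit 6, nat_lit 1000)])],
 ⟨p003_k35, nat_lit 0, nat_lit 0, nat_lit 283, nat_lit 0, nat_lit 129369, [nat_lit 2101142858, nat_lit 11600000], [], [nat_lit 15827365006, nat_lit 15830727791, nat_lit 15903045351, nat_lit 15755734953], nat_lit 1271250, nat_lit 1271250, nat_lit 0, nat_lit 111251, nat_lit 0, nat_lit 0, [nat_lit 1412500, nat_lit 1271250], [nat_lit 26, nat_lit 40, nat_lit 20, nat_lit 80, nat_lit 2, nat_lit 289, nat_lit 75, nat_lit 10]⟩, C1.Rw.none,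
 ⟨nat_lit 6461, nat_lit 6481, ⟨.ofNat (nat_lit 70304), .ofNat (nat_lit 112204), .ofNat (nat_lit 80999), .ofNat (nat_lit 122899), .ofNat (nat_lit 71273), .ofNat (nat_lit 113076), .ofNat (nat_lit 81967), .ofNat (nat_lit 123770)⟩, ⟨.ofNat (nat_lit 0), .ofNat (nat_lit 0), .ofNat (nat_lit 0), .ofNat (nat_lit 0), .ofNat (nat_lit 0), .ofNat (nat_lit 0), .ofNat (nat_lit 0), .ofNat (nat_lit 0)⟩⟩, [⟨nat_lit 0, nat_lit 100, nat_lit 99, nat_lit 17, nat_lit 78884313⟩]⟩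
noncomputable def p003_l83 : Lf2 := ⟨nat_lit 0, nat_lit 2, [nat_lit 10, nat_lit 5, nat_lit 5, nat_lit 20], true, nat_lit 0, nat_lit 0, nat_lit 0, nat_lit 0, ⟨nat_lit 0, nat_lit 0, nat_lit 1000, nat_lit 4, nat_lit 39, nat_lit 0, nat_lit 0, nat_lit 0, nat_lit 0, nat_lit 215, nat_lit 15000, nat_lit 245, nat_lit 66357001, nat_lit 0, nat_lit 0, nat_lit 270478, false, false⟩,
 nat_lit 0, nat_lit 11102, nat_lit 0, nat_lit 0, nat_lit 5676, nat_lit 0, nat_lit 0, nat_lit 0, nat_lit 0, nat_lit 0, nat_lit 0, nat_lit 0, nat_lit 0, nat_lit 0, nat_lit 53, nat_lit 1000000, nat_lit 0, nat_lit 0, [(nat_lit 3, [(nat_lit 6, nat_lit 1000)])],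
 ⟨p003_k36, nat_lit 0, nat_lit 0, nat_lit 284, nat_lit 0, nat_lit 137650, [nat_lit 2101142858, nat_lit 11600000], [], [nat_lit 15821397389, nat_lit 15834289332, nat_lit 15905107529, nat_lit 15616037930], nat_lit 1271250, nat_lit 1271250, nat_lit 0, nat_lit 111251, nat_lit 0, nat_lit 0, [nat_lit 1412500, nat_lit 1271250], [nat_lit 26, nat_lit 40, nat_lit 20, nat_lit 80, nat_lit 2, nat_lit 289, nat_lit 75, nat_lit 10]⟩, C1.Rw.none,
 ⟨nat_lit 6422, nat_lit 6462, ⟨.ofNat (nat_lit 71273), .ofNat (nat_lit 113076), .ofNat (nat_lit 81967), .ofNat (nat_lit 123770), .ofNat (nat_lit 73203), .ofNat (nat_lit 114814), .ofNat (nat_lit 83894), .ofNat (nat_lit 125505)⟩, ⟨.ofNat (nat_lit 0), .ofNat (nat_lit 0), .ofNat (nat_lit 0), .ofNat (nat_lit 0), .ofNat (nat_lit 0), .ofNat (nat_lit 0), .ofNat (nat_lit 0), .ofNat (nat_lit 0)⟩⟩, [⟨nat_lit 0, nat_lit 100, nat_lit 98, nat_lit 18, nat_lit 77578483⟩]⟩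
noncomputable def b_NL_550_450_0_2 : St := ⟨false, nat_lit 1, nat_lit 0, nat_lit 1, nat_lit 20, nat_lit 230, nat_lit 235, nat_lit 190, nat_lit 200, nat_lit 0, nat_lit 20, nat_lit 0, nat_lit 0, nat_lit 0, nat_lit 0, nat_lit 0, nat_lit 0, nat_lit 0, nat_lit 8, nat_lit 0, nat_lit 0, nat_lit 0, nat_lit 0⟩
theorem d_NL_550_450_0_2 (h : EB TB.env) : Dead b_NL_550_450_0_2 := chkB_sound0 h (T :=
(.spl (nat_lit 6) (nat_lit 4)
(.spl (nat_lit 1) (nat_lit 195)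
(.spl (nat_lit 0) (nat_lit 233)
(.spl (nat_lit 0) (nat_lit 232)
(.spl (nat_lit 2) (nat_lit 8)
(.spl (nat_lit 1) (nat_lit 193)
(.spl (nat_lit 0) (nat_lit 231)
(.spl (nat_lit 2) (nat_lit 4)
(.spl (nat_lit 1) (nat_lit 192)
(.leaf p003_l42)
(.spl (nat_lit 8) (nat_lit 800)
(.spl (nat_lit 8) (nat_lit 400)
(.leaf p003_l43)
(.leaf p003_l44))
(.leaf p003_l45)))
(.leaf p003_l46))
(.leaf p003_l47))
(.spl (nat_lit 2) (nat_lit 4)
(.spl (nat_lit 0) (nat_lit 231)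
(.spl (nat_lit 1) (nat_lit 194)
(.spl (nat_lit 8) (nat_lit 800)
(.spl (nat_lit 7) (nat_lit 600)
(.leaf p003_l48)
(.leaf p003_l49))
(.leaf p003_l50))
(.spl (nat_lit 8) (nat_lit 800)
(.spl (nat_lit 7) (nat_lit 600)
(.leaf p003_l51)
(.leaf p003_l52))
(.leaf p003_l53)))
(.spl (nat_lit 1) (nat_lit 194)
(.leaf p003_l54)
(.spl (nat_lit 8) (nat_lit 800)
(.leaf p003_l55)
(.leaf p003_l56))))
(.spl (nat_lit 0) (nat_lit 231)
(.spl (nat_lit 1) (nat_lit 194)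
(.leaf p003_l57)
(.spl (nat_lit 8) (nat_lit 800)
(.leaf p003_l58)
(.leaf p003_l59)))
(.leaf p003_l60))))
(.leaf p003_l61))
(.spl (nat_lit 2) (nat_lit 8)
(.leaf p003_l62)
(.leaf p003_l63)))
(.leaf p003_l64))
(.spl (nat_lit 8) (nat_lit 800)
(.spl (nat_lit 7) (nat_lit 600)
(.leaf p003_l65)
(.leaf p003_l66))
(.leaf p003_l67)))
(.spl (nat_lit 0) (nat_lit 233)
(.spl (nat_lit 0) (nat_lit 232)
(.spl (nat_lit 2) (nat_lit 8)
(.spl (nat_lit 2) (nat_lit 4)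
(.spl (nat_lit 1) (nat_lit 195)
(.leaf p003_l68)
(.spl (nat_lit 1) (nat_lit 198)
(.leaf p003_l69)
(.spl (nat_lit 0) (nat_lit 231)
(.spl (nat_lit 1) (nat_lit 199)
(.spl (nat_lit 8) (nat_lit 800)
(.spl (nat_lit 7) (nat_lit 600)
(.leaf p003_l70)
(.leaf p003_l71))
(.leaf p003_l72))
(.spl (nat_lit 8) (nat_lit 800)
(.spl (nat_lit 7) (nat_lit 600)
(.leaf p003_l73)
(.leaf p003_l74))
(.leaf p003_l75)))
(.spl (nat_lit 1) (nat_lit 199)
(.leaf p003_l76)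
(.spl (nat_lit 8) (nat_lit 800)
(.spl (nat_lit 7) (nat_lit 600)
(.leaf p003_l77)
(.leaf p003_l78))
(.leaf p003_l79))))))
(.leaf p003_l80))
(.leaf p003_l81))
(.leaf p003_l82))
(.leaf p003_l83)))) (by decide +kernel)
noncomputable def p003_l84 : Lf2 := ⟨nat_lit 0, nat_lit 1, [nat_lit 19, nat_lit 5, nat_lit 5, nat_lit 20], true, nat_lit 0, nat_lit 0, nat_lit 0, nat_lit 0, ⟨nat_lit 0, nat_lit 0, nat_lit 1000, nat_lit 4, nat_lit 34, nat_lit 0, nat_lit 0, nat_lit 0, nat_lit 0, nat_lit 215, nat_lit 11267, nat_lit 241, nat_lit 66517826, nat_lit 0, nat_lit 0, nat_lit 212987, false, false⟩,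
 nat_lit 0, nat_lit 10692, nat_lit 0, nat_lit 0, nat_lit 5522, nat_lit 0, nat_lit 0, nat_lit 0, nat_lit 0, nat_lit 0, nat_lit 0, nat_lit 0, nat_lit 0, nat_lit 0, nat_lit 53, nat_lit 1000000, nat_lit 0, nat_lit 0, [(nat_lit 3, [(nat_lit 6, nat_lit 1000)])],
 ⟨p003_k37, nat_lit 0, nat_lit 0, nat_lit 286, nat_lit 0, nat_lit 176327, [nat_lit 2101142858, nat_lit 11600000], [], [nat_lit 15739324367, nat_lit 15754433211, nat_lit 15754073408, nat_lit 15471596381], nat_lit 1271250, nat_lit 1271250, nat_lit 0, nat_lit 43600, nat_lit 0, nat_lit 0, [nat_lit 1412500, nat_lit 1271250], [nat_lit 26, nat_lit 40, nat_lit 20, nat_lit 80, nat_lit 2, nat_lit 289, nat_lit 75, nat_lit 10]⟩, C1.Rw.none,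
 ⟨nat_lit 6383, nat_lit 6423, ⟨.ofNat (nat_lit 73203), .ofNat (nat_lit 89848), .ofNat (nat_lit 78549), .ofNat (nat_lit 95193), .ofNat (nat_lit 75126), .ofNat (nat_lit 91693), .ofNat (nat_lit 80470), .ofNat (nat_lit 97037)⟩, ⟨.ofNat (nat_lit 0), .ofNat (nat_lit 0), .ofNat (nat_lit 0), .ofNat (nat_lit 0), .ofNat (nat_lit 0), .ofNat (nat_lit 0), .ofNat (nat_lit 0), .ofNat (nat_lit 0)⟩⟩, [⟨nat_lit 0, nat_lit 100, nat_lit 98, nat_lit 16, nat_lit 87061262⟩]⟩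
noncomputable def p003_l85 : Lf2 := ⟨nat_lit 0, nat_lit 1, [nat_lit 19, nat_lit 5, nat_lit 5, nat_lit 20], true, nat_lit 0, nat_lit 0, nat_lit 0, nat_lit 0, ⟨nat_lit 0, nat_lit 0, nat_lit 1000, nat_lit 4, nat_lit 36, nat_lit 0, nat_lit 0, nat_lit 0, nat_lit 0, nat_lit 215, nat_lit 12150, nat_lit 242, nat_lit 66468575, nat_lit 0, nat_lit 0, nat_lit 230985, false, false⟩,
 nat_lit 0, nat_lit 10693, nat_lit 0, nat_lit 0, nat_lit 5522, nat_lit 0, nat_lit 0, nat_lit 0, nat_lit 0, nat_lit 0, nat_lit 0, nat_lit 0, nat_lit 0, nat_lit 0, nat_lit 53, nat_lit 1000000, nat_lit 0, nat_lit 0, [(nat_lit 3, [(nat_lit 6, nat_lit 1000)])],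
 ⟨p003_k37, nat_lit 0, nat_lit 0, nat_lit 288, nat_lit 0, nat_lit 183911, [nat_lit 2101142858, nat_lit 11600000], [], [nat_lit 15739324367, nat_lit 15754433211, nat_lit 15754073408, nat_lit 15471596381], nat_lit 1271250, nat_lit 1271250, nat_lit 0, nat_lit 43600, nat_lit 0, nat_lit 0, [nat_lit 1412500, nat_lit 1271250], [nat_lit 26, nat_lit 40, nat_lit 20, nat_lit 80, nat_lit 2, nat_lit 289, nat_lit 75, nat_lit 10]⟩, C1.Rw.none,
 ⟨nat_lit 6383, nat_lit 6423, ⟨.ofNat (nat_lit 78549), .ofNat (nat_lit 95193), .ofNat (nat_lit 81756), .ofNat (nat_lit 98400), .ofNat (nat_lit 80470), .ofNat (nat_lit 97037), .ofNat (nat_lit 83676), .ofNat (nat_lit 100243)⟩, ⟨.ofNat (nat_lit 0), .ofNat (nat_lit 0), .ofNat (nat_lit 0), .ofNat (nat_lit 0), .ofNat (nat_lit 0), .ofNat (nat_lit 0), .ofNat (nat_lit 0), .ofNat (nat_lit 0)⟩⟩, [⟨nat_lit 0, nat_lit 100, nat_lit 98, nat_lit 16, nat_lit 88320388⟩]⟩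
noncomputable def p003_l86 : Lf2 := ⟨nat_lit 0, nat_lit 1, [nat_lit 19, nat_lit 5, nat_lit 5, nat_lit 20], false, nat_lit 0, nat_lit 0, nat_lit 0, nat_lit 0, ⟨nat_lit 359, nat_lit 0, nat_lit 641, nat_lit 4, nat_lit 35, nat_lit 0, nat_lit 0, nat_lit 0, nat_lit 0, nat_lit 215, nat_lit 11267, nat_lit 241, nat_lit 66497522, nat_lit 0, nat_lit 0, nat_lit 220460, false, false⟩,
 nat_lit 0, nat_lit 14558, nat_lit 0, nat_lit 0, nat_lit 7518, nat_lit 1920, nat_lit 54, nat_lit 0, nat_lit 0, nat_lit 2649, nat_lit 0, nat_lit 0, nat_lit 0, nat_lit 0, nat_lit 0, nat_lit 641000, nat_lit 0, nat_lit 0, [(nat_lit 3, [(nat_lit 6, nat_lit 641)])],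
 ⟨p003_k37, nat_lit 0, nat_lit 0, nat_lit 287, nat_lit 0, nat_lit 181928, [nat_lit 2911122572, nat_lit 2052595600], [], [nat_lit 19069186914, nat_lit 19158709986, nat_lit 18612018427, nat_lit 18637483656], nat_lit 1271250, nat_lit 1271250, nat_lit 0, nat_lit 21650, nat_lit 0, nat_lit 0, [nat_lit 1412500, nat_lit 1271250], [nat_lit 26, nat_lit 40, nat_lit 20, nat_lit 80, nat_lit 2, nat_lit 272, nat_lit 60, nat_lit 10]⟩, ⟨p003_k38, nat_lit 0, nat_lit 0, nat_lit 0, nat_lit 0, nat_lit 0, [nat_lit 1178238000, nat_lit 2545130500, nat_lit 3189894500], [], [nat_lit 6633727215, nat_lit 6652949680, nat_lit 6504899049, nat_lit 6523938459], nat_lit 0, nat_lit 0, nat_lit 0, nat_lit 0, nat_lit 0, nat_lit 0, [], [nat_lit 115, nat_lit 40, nat_lit 20, nat_lit 40]⟩,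
 ⟨nat_lit 6403, nat_lit 6423, ⟨.ofNat (nat_lit 81756), .ofNat (nat_lit 90078), .ofNat (nat_lit 82825), .ofNat (nat_lit 91147), .ofNat (nat_lit 82717), .ofNat (nat_lit 91020), .ofNat (nat_lit 83786), .ofNat (nat_lit 92089)⟩, ⟨.ofNat (nat_lit 0), .ofNat (nat_lit 0), .ofNat (nat_lit 0), .ofNat (nat_lit 0), .ofNat (nat_lit 0), .ofNat (nat_lit 0), .ofNat (nat_lit 0), .ofNat (nat_lit 0)⟩⟩, [⟨nat_lit 0, nat_lit 100, nat_lit 98, nat_lit 17, nat_lit 1223064110⟩]⟩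
noncomputable def p003_l87 : Lf2 := ⟨nat_lit 3, nat_lit 1, [nat_lit 19, nat_lit 5, nat_lit 5, nat_lit 20], false, nat_lit 0, nat_lit 0, nat_lit 0, nat_lit 0, zbN0,
 nat_lit 0, nat_lit 0, nat_lit 0, nat_lit 0, nat_lit 0, nat_lit 0, nat_lit 0, nat_lit 0, nat_lit 0, nat_lit 0, nat_lit 0, nat_lit 0, nat_lit 0, nat_lit 0, nat_lit 0, nat_lit 0, nat_lit 0, nat_lit 0, [],
 C1.Rw.none, ⟨p003_k39, nat_lit 0, nat_lit 0, nat_lit 289, nat_lit 0, nat_lit 0, [], [], [], nat_lit 0, nat_lit 0, nat_lit 0, nat_lit 0, nat_lit 0, nat_lit 0, [], [nat_lit 77, nat_lit 40, nat_lit 20, nat_lit 80, nat_lit 17, nat_lit 272, nat_lit 60, nat_lit 9]⟩,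
 zbF0, []⟩
noncomputable def p003_l88 : Lf2 := ⟨nat_lit 0, nat_lit 1, [nat_lit 19, nat_lit 5, nat_lit 5, nat_lit 20], true, nat_lit 0, nat_lit 0, nat_lit 0, nat_lit 0, ⟨nat_lit 0, nat_lit 0, nat_lit 1000, nat_lit 4, nat_lit 35, nat_lit 0, nat_lit 0, nat_lit 0, nat_lit 0, nat_lit 215, nat_lit 11267, nat_lit 241, nat_lit 66485183, nat_lit 0, nat_lit 0, nat_lit 224959, false, false⟩,
 nat_lit 0, nat_lit 9352, nat_lit 0, nat_lit 0, nat_lit 4830, nat_lit 0, nat_lit 0, nat_lit 0, nat_lit 0, nat_lit 0, nat_lit 0, nat_lit 0, nat_lit 0, nat_lit 0, nat_lit 21, nat_lit 1000000, nat_lit 0, nat_lit 0, [(nat_lit 3, [(nat_lit 6, nat_lit 1000)])],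
 ⟨p003_k40, nat_lit 0, nat_lit 0, nat_lit 0, nat_lit 0, nat_lit 184477, [nat_lit 1315028572, nat_lit 12000000], [], [nat_lit 14359409310, nat_lit 14447185736, nat_lit 13964083091, nat_lit 14005243077], nat_lit 1271250, nat_lit 1271250, nat_lit 0, nat_lit 21650, nat_lit 0, nat_lit 0, [nat_lit 1271250, nat_lit 1271250], [nat_lit 155, nat_lit 40, nat_lit 20, nat_lit 40]⟩, C1.Rw.none,
 ⟨nat_lit 6403, nat_lit 6423, ⟨.ofNat (nat_lit 82825), .ofNat (nat_lit 91147), .ofNat (nat_lit 83894), .ofNat (nat_lit 92216), .ofNat (nat_lit 83786), .ofNat (nat_lit 92089), .ofNat (nat_lit 84855), .ofNat (nat_lit 93158)⟩, ⟨.ofNat (nat_lit 0), .ofNat (nat_lit 0), .ofNat (nat_lit 0), .ofNat (nat_lit 0), .ofNat (nat_lit 0), .ofNat (nat_lit 0), .ofNat (nat_lit 0), .ofNat (nat_lit 0)⟩⟩, [⟨nat_lit 0, nat_lit 100, nat_lit 98, nat_lit 18, nat_lit 660921250⟩]⟩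
noncomputable def p003_l89 : Lf2 := ⟨nat_lit 0, nat_lit 1, [nat_lit 19, nat_lit 5, nat_lit 5, nat_lit 20], true, nat_lit 0, nat_lit 0, nat_lit 0, nat_lit 0, ⟨nat_lit 0, nat_lit 0, nat_lit 1000, nat_lit 4, nat_lit 35, nat_lit 0, nat_lit 0, nat_lit 0, nat_lit 0, nat_lit 215, nat_lit 11267, nat_lit 241, nat_lit 66485183, nat_lit 0, nat_lit 0, nat_lit 224959, false, false⟩,
 nat_lit 0, nat_lit 100000, nat_lit 0, nat_lit 0, nat_lit 51648, nat_lit 0, nat_lit 0, nat_lit 2129, nat_lit 0, nat_lit 0, nat_lit 0, nat_lit 0, nat_lit 0, nat_lit 0, nat_lit 0, nat_lit 1000000, nat_lit 0, nat_lit 0, [(nat_lit 3, [(nat_lit 6, nat_lit 1000)])],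
 ⟨p003_k37, nat_lit 0, nat_lit 0, nat_lit 288, nat_lit 0, nat_lit 184477, [nat_lit 43621142858, nat_lit 49835600000], [], [nat_lit 88006658298, nat_lit 88283837425, nat_lit 85023510065, nat_lit 85213720790], nat_lit 1271250, nat_lit 1271250, nat_lit 0, nat_lit 21650, nat_lit 0, nat_lit 0, [nat_lit 1412500, nat_lit 1271250], [nat_lit 26, nat_lit 40, nat_lit 20, nat_lit 80, nat_lit 2, nat_lit 272, nat_lit 60, nat_lit 10]⟩, C1.Rw.none,
 ⟨nat_lit 6403, nat_lit 6423, ⟨.ofNat (nat_lit 82825), .ofNat (nat_lit 91147), .ofNat (nat_lit 83894), .ofNat (nat_lit 92216), .ofNat (nat_lit 83786), .ofNat (nat_lit 92089), .ofNat (nat_lit 84855), .ofNat (nat_lit 93158)⟩, ⟨.ofNat (nat_lit 0), .ofNat (nat_lit 0), .ofNat (nat_lit 0), .ofNat (nat_lit 0), .ofNat (nat_lit 0), .ofNat (nat_lit 0), .ofNat (nat_lit 0), .ofNat (nat_lit 0)⟩⟩, [⟨nat_lit 0, nat_lit 100, nat_lit 98, nat_lit 18, nat_lit 10204081633⟩,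 ⟨nat_lit 0, nat_lit 100, nat_lit 98, nat_lit 18, nat_lit 10204081633⟩, ⟨nat_lit 0, nat_lit 100, nat_lit 98, nat_lit 17, nat_lit 10204081633⟩, ⟨nat_lit 13, nat_lit 98, nat_lit 18, nat_lit 100, nat_lit 119094359⟩]⟩
noncomputable def p003_l90 : Lf2 := ⟨nat_lit 3, nat_lit 1, [nat_lit 19, nat_lit 5, nat_lit 5, nat_lit 20], false, nat_lit 0, nat_lit 0, nat_lit 0, nat_lit 0, zbN0,
 nat_lit 0, nat_lit 0, nat_lit 0, nat_lit 0, nat_lit 0, nat_lit 0, nat_lit 0, nat_lit 0, nat_lit 0, nat_lit 0, nat_lit 0, nat_lit 0, nat_lit 0, nat_lit 0, nat_lit 0, nat_lit 0, nat_lit 0, nat_lit 0, [],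
 C1.Rw.none, ⟨p003_k41, nat_lit 0, nat_lit 0, nat_lit 289, nat_lit 0, nat_lit 0, [], [], [], nat_lit 0, nat_lit 0, nat_lit 0, nat_lit 0, nat_lit 0, nat_lit 0, [], [nat_lit 77, nat_lit 40, nat_lit 20, nat_lit 80, nat_lit 17, nat_lit 272, nat_lit 60, nat_lit 9]⟩,
 zbF0, []⟩
noncomputable def p003_l91 : Lf2 := ⟨nat_lit 0, nat_lit 1, [nat_lit 19, nat_lit 5, nat_lit 5, nat_lit 20], true, nat_lit 0, nat_lit 0, nat_lit 0, nat_lit 0, ⟨nat_lit 0, nat_lit 0, nat_lit 1000, nat_lit 4, nat_lit 38, nat_lit 0, nat_lit 0, nat_lit 0, nat_lit 0, nat_lit 215, nat_lit 14017, nat_lit 244, nat_lit 66397732, nat_lit 0, nat_lit 0, nat_lit 256253, false, false⟩,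
 nat_lit 0, nat_lit 11072, nat_lit 0, nat_lit 0, nat_lit 5718, nat_lit 0, nat_lit 0, nat_lit 0, nat_lit 0, nat_lit 0, nat_lit 0, nat_lit 0, nat_lit 0, nat_lit 0, nat_lit 53, nat_lit 1000000, nat_lit 0, nat_lit 0, [(nat_lit 3, [(nat_lit 6, nat_lit 1000)])],
 ⟨p003_k37, nat_lit 0, nat_lit 0, nat_lit 284, nat_lit 0, nat_lit 181928, [nat_lit 2101142858, nat_lit 11600000], [], [nat_lit 15473658205, nat_lit 15474688570, nat_lit 15482230169, nat_lit 15335978482], nat_lit 1271250, nat_lit 1271250, nat_lit 21650, nat_lit 43600, nat_lit 0, nat_lit 0, [nat_lit 1412500, nat_lit 1271250], [nat_lit 26, nat_lit 40, nat_lit 20, nat_lit 80, nat_lit 2, nat_lit 289, nat_lit 75, nat_lit 10]⟩, C1.Rw.none,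
 ⟨nat_lit 6403, nat_lit 6423, ⟨.ofNat (nat_lit 90078), .ofNat (nat_lit 98400), .ofNat (nat_lit 91147), .ofNat (nat_lit 99469), .ofNat (nat_lit 91020), .ofNat (nat_lit 99323), .ofNat (nat_lit 92089), .ofNat (nat_lit 100392)⟩, ⟨.ofNat (nat_lit 0), .ofNat (nat_lit 0), .ofNat (nat_lit 0), .ofNat (nat_lit 0), .ofNat (nat_lit 0), .ofNat (nat_lit 0), .ofNat (nat_lit 0), .ofNat (nat_lit 0)⟩⟩, []⟩
noncomputable def p003_l92 : Lf2 := ⟨nat_lit 0, nat_lit 1, [nat_lit 19, nat_lit 5, nat_lit 5, nat_lit 20], false, nat_lit 0, nat_lit 0, nat_lit 0, nat_lit 0, ⟨nat_lit 369, nat_lit 0, nat_lit 631, nat_lit 4, nat_lit 39, nat_lit 0, nat_lit 0, nat_lit 0, nat_lit 0, nat_lit 215, nat_lit 14017, nat_lit 244, nat_lit 66384261, nat_lit 0, nat_lit 0, nat_lit 260982, false, false⟩,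
 nat_lit 0, nat_lit 14746, nat_lit 0, nat_lit 0, nat_lit 7615, nat_lit 1970, nat_lit 175, nat_lit 0, nat_lit 0, nat_lit 2581, nat_lit 0, nat_lit 0, nat_lit 0, nat_lit 0, nat_lit 0, nat_lit 631000, nat_lit 0, nat_lit 0, [(nat_lit 3, [(nat_lit 6, nat_lit 631)])],
 ⟨p003_k37, nat_lit 0, nat_lit 0, nat_lit 284, nat_lit 0, nat_lit 184477, [nat_lit 2963211143, nat_lit 2144879600], [], [nat_lit 18635093498, nat_lit 18616087343, nat_lit 18617380820, nat_lit 18422608767], nat_lit 1271250, nat_lit 1271250, nat_lit 21650, nat_lit 43600, nat_lit 0, nat_lit 0, [nat_lit 1412500, nat_lit 1271250], [nat_lit 26, nat_lit 40, nat_lit 20, nat_lit 80, nat_lit 2, nat_lit 289, nat_lit 75, nat_lit 10]⟩, ⟨p003_k42, nat_lit 0, nat_lit 0, nat_lit 0, nat_lit 0, nat_lit 0, [nat_lit 1211058000, nat_lit 2616025500, nat_lit 3278749500], [], [nat_lit 6708256576, nat_lit 6726981612, nat_lit 6602816228, nat_lit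 6623026644], nat_lit 0, nat_lit 0, nat_lit 0, nat_lit 0, nat_lit 0, nat_lit 0, [], [nat_lit 115, nat_lit 40, nat_lit 20, nat_lit 40]⟩,
 ⟨nat_lit 6403, nat_lit 6423, ⟨.ofNat (nat_lit 91147), .ofNat (nat_lit 99469), .ofNat (nat_lit 92216), .ofNat (nat_lit 100538), .ofNat (nat_lit 92089), .ofNat (nat_lit 100392), .ofNat (nat_lit 93158), .ofNat (nat_lit 101461)⟩, ⟨.ofNat (nat_lit 0), .ofNat (nat_lit 0), .ofNat (nat_lit 0), .ofNat (nat_lit 0), .ofNat (nat_lit 0), .ofNat (nat_lit 0), .ofNat (nat_lit 0), .ofNat (nat_lit 0)⟩⟩, []⟩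
noncomputable def p003_l93 : Lf2 := ⟨nat_lit 3, nat_lit 1, [nat_lit 19, nat_lit 5, nat_lit 5, nat_lit 20], false, nat_lit 0, nat_lit 0, nat_lit 0, nat_lit 0, zbN0,
 nat_lit 0, nat_lit 0, nat_lit 0, nat_lit 0, nat_lit 0, nat_lit 0, nat_lit 0, nat_lit 0, nat_lit 0, nat_lit 0, nat_lit 0, nat_lit 0, nat_lit 0, nat_lit 0, nat_lit 0, nat_lit 0, nat_lit 0, nat_lit 0, [],
 C1.Rw.none, ⟨p003_k41, nat_lit 0, nat_lit 0, nat_lit 282, nat_lit 0, nat_lit 0, [], [], [], nat_lit 0, nat_lit 0, nat_lit 0, nat_lit 0, nat_lit 0, nat_lit 0, [], [nat_lit 77, nat_lit 40, nat_lit 20, nat_lit 80, nat_lit 17, nat_lit 272, nat_lit 60, nat_lit 9]⟩,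
 zbF0, []⟩
noncomputable def p003_l94 : Lf2 := ⟨nat_lit 0, nat_lit 1, [nat_lit 19, nat_lit 5, nat_lit 5, nat_lit 20], true, nat_lit 0, nat_lit 0, nat_lit 0, nat_lit 0, ⟨nat_lit 0, nat_lit 0, nat_lit 1000, nat_lit 4, nat_lit 35, nat_lit 0, nat_lit 0, nat_lit 0, nat_lit 0, nat_lit 215, nat_lit 11267, nat_lit 241, nat_lit 66486558, nat_lit 0, nat_lit 0, nat_lit 224460, false, false⟩,
 nat_lit 0, nat_lit 10549, nat_lit 0, nat_lit 0, nat_lit 5475, nat_lit 0, nat_lit 0, nat_lit 0, nat_lit 0, nat_lit 0, nat_lit 0, nat_lit 0, nat_lit 0, nat_lit 0, nat_lit 53, nat_lit 1000000, nat_lit 0, nat_lit 0, [(nat_lit 3, [(nat_lit 6, nat_lit 1000)])],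
 ⟨p003_k43, nat_lit 0, nat_lit 0, nat_lit 288, nat_lit 0, nat_lit 185500, [nat_lit 2101142858, nat_lit 11600000], [], [nat_lit 15662702785, nat_lit 15671607866, nat_lit 15667078358, nat_lit 15526835357], nat_lit 1271250, nat_lit 1271250, nat_lit 0, nat_lit 21650, nat_lit 0, nat_lit 0, [nat_lit 1412500, nat_lit 1271250], [nat_lit 26, nat_lit 40, nat_lit 20, nat_lit 80, nat_lit 2, nat_lit 289, nat_lit 75, nat_lit 10]⟩, C1.Rw.none,
 ⟨nat_lit 6383, nat_lit 6404, ⟨.ofNat (nat_lit 82717), .ofNat (nat_lit 91020), .ofNat (nat_lit 83786), .ofNat (nat_lit 92089), .ofNat (nat_lit 83676), .ofNat (nat_lit 91960), .ofNat (nat_lit 84745), .ofNat (nat_lit 93029)⟩, ⟨.ofNat (nat_lit 0), .ofNat (nat_lit 0), .ofNat (nat_lit 0), .ofNat (nat_lit 0), .ofNat (nat_lit 0), .ofNat (nat_lit 0), .ofNat (nat_lit 0), .ofNat (nat_lit 0)⟩⟩, [⟨nat_lit 0, nat_lit 100, nat_lit 98, nat_lit 18, nat_lit 91597334⟩]⟩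
noncomputable def p003_l95 : Lf2 := ⟨nat_lit 0, nat_lit 1, [nat_lit 19, nat_lit 5, nat_lit 5, nat_lit 20], false, nat_lit 0, nat_lit 0, nat_lit 0, nat_lit 0, ⟨nat_lit 362, nat_lit 0, nat_lit 638, nat_lit 4, nat_lit 36, nat_lit 0, nat_lit 0, nat_lit 0, nat_lit 0, nat_lit 215, nat_lit 12150, nat_lit 242, nat_lit 66474090, nat_lit 0, nat_lit 0, nat_lit 228996, false, false⟩,
 nat_lit 0, nat_lit 14324, nat_lit 0, nat_lit 0, nat_lit 7434, nat_lit 1934, nat_lit 116, nat_lit 0, nat_lit 0, nat_lit 2534, nat_lit 0, nat_lit 0, nat_lit 0, nat_lit 0, nat_lit 0, nat_lit 638000, nat_lit 0, nat_lit 0, [(nat_lit 3, [(nat_lit 6, nat_lit 638)])],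
 ⟨p003_k43, nat_lit 0, nat_lit 0, nat_lit 289, nat_lit 0, nat_lit 188015, [nat_lit 2926749143, nat_lit 2080280800], [], [nat_lit 19037318293, nat_lit 19123838768, nat_lit 18583815390, nat_lit 18611415241], nat_lit 1271250, nat_lit 1271250, nat_lit 0, nat_lit 21650, nat_lit 0, nat_lit 0, [nat_lit 1412500, nat_lit 1271250], [nat_lit 26, nat_lit 40, nat_lit 20, nat_lit 80, nat_lit 2, nat_lit 289, nat_lit 75, nat_lit 10]⟩, ⟨p003_k42, nat_lit 0, nat_lit 0, nat_lit 0, nat_lit 0, nat_lit 0, [nat_lit 1188084000, nat_lit 2566399000, nat_lit 3216551000], [], [nat_lit 6709925611, nat_lit 6728379192, nat_lit 6580230441, nat_lit 6598500661], nat_lit 0, nat_lit 0, nat_lit 0, nat_lit 0, nat_lit 0, nat_lit 0, [], [nat_lit 115, nat_lit 40, nat_lit 20, nat_lit 40]⟩,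
 ⟨nat_lit 6383, nat_lit 6404, ⟨.ofNat (nat_lit 83786), .ofNat (nat_lit 92089), .ofNat (nat_lit 84855), .ofNat (nat_lit 93158), .ofNat (nat_lit 84745), .ofNat (nat_lit 93029), .ofNat (nat_lit 85814), .ofNat (nat_lit 94097)⟩, ⟨.ofNat (nat_lit 0), .ofNat (nat_lit 0), .ofNat (nat_lit 0), .ofNat (nat_lit 0), .ofNat (nat_lit 0), .ofNat (nat_lit 0), .ofNat (nat_lit 0), .ofNat (nat_lit 0)⟩⟩, [⟨nat_lit 0, nat_lit 100, nat_lit 98, nat_lit 18, nat_lit 1217078827⟩]⟩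
noncomputable def p003_l96 : Lf2 := ⟨nat_lit 3, nat_lit 1, [nat_lit 19, nat_lit 5, nat_lit 5, nat_lit 20], false, nat_lit 0, nat_lit 0, nat_lit 0, nat_lit 0, zbN0,
 nat_lit 0, nat_lit 0, nat_lit 0, nat_lit 0, nat_lit 0, nat_lit 0, nat_lit 0, nat_lit 0, nat_lit 0, nat_lit 0, nat_lit 0, nat_lit 0, nat_lit 0, nat_lit 0, nat_lit 0, nat_lit 0, nat_lit 0, nat_lit 0, [],
 C1.Rw.none, ⟨p003_k41, nat_lit 0, nat_lit 0, nat_lit 289, nat_lit 0, nat_lit 0, [], [], [], nat_lit 0, nat_lit 0, nat_lit 0, nat_lit 0, nat_lit 0, nat_lit 0, [], [nat_lit 77, nat_lit 40, nat_lit 20, nat_lit 80, nat_lit 17, nat_lit 272, nat_lit 60, nat_lit 9]⟩,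
 zbF0, []⟩
noncomputable def p003_l97 : Lf2 := ⟨nat_lit 0, nat_lit 1, [nat_lit 19, nat_lit 5, nat_lit 5, nat_lit 20], true, nat_lit 0, nat_lit 0, nat_lit 0, nat_lit 0, ⟨nat_lit 0, nat_lit 0, nat_lit 1000, nat_lit 4, nat_lit 39, nat_lit 0, nat_lit 0, nat_lit 0, nat_lit 0, nat_lit 215, nat_lit 14017, nat_lit 244, nat_lit 66379226, nat_lit 0, nat_lit 0, nat_lit 262739, false, false⟩,
 nat_lit 0, nat_lit 10866, nat_lit 0, nat_lit 0, nat_lit 5639, nat_lit 0, nat_lit 0, nat_lit 0, nat_lit 0, nat_lit 0, nat_lit 0, nat_lit 0, nat_lit 0, nat_lit 0, nat_lit 53, nat_lit 1000000, nat_lit 0, nat_lit 0, [(nat_lit 3, [(nat_lit 6, nat_lit 1000)])],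
 ⟨p003_k43, nat_lit 0, nat_lit 0, nat_lit 284, nat_lit 0, nat_lit 188015, [nat_lit 2101142858, nat_lit 11600000], [], [nat_lit 15437689171, nat_lit 15439595981, nat_lit 15447568566, nat_lit 15303337495], nat_lit 1271250, nat_lit 1271250, nat_lit 21650, nat_lit 43600, nat_lit 0, nat_lit 0, [nat_lit 1412500, nat_lit 1271250], [nat_lit 26, nat_lit 40, nat_lit 20, nat_lit 80, nat_lit 2, nat_lit 289, nat_lit 75, nat_lit 10]⟩, C1.Rw.none,
 ⟨nat_lit 6383, nat_lit 6404, ⟨.ofNat (nat_lit 91020), .ofNat (nat_lit 99323), .ofNat (nat_lit 93158), .ofNat (nat_lit 101461), .ofNat (nat_lit 91960), .ofNat (nat_lit 100243), .ofNat (nat_lit 94097), .ofNat (nat_lit 102381)⟩, ⟨.ofNat (nat_lit 0), .ofNat (nat_lit 0), .ofNat (nat_lit 0), .ofNat (nat_lit 0), .ofNat (nat_lit 0), .ofNat (nat_lit 0), .ofNat (nat_lit 0), .ofNat (nat_lit 0)⟩⟩, []⟩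
noncomputable def p003_l98 : Lf2 := ⟨nat_lit 0, nat_lit 1, [nat_lit 19, nat_lit 5, nat_lit 5, nat_lit 20], true, nat_lit 0, nat_lit 0, nat_lit 0, nat_lit 0, ⟨nat_lit 0, nat_lit 0, nat_lit 1000, nat_lit 4, nat_lit 43, nat_lit 0, nat_lit 0, nat_lit 0, nat_lit 0, nat_lit 215, nat_lit 18150, nat_lit 248, nat_lit 66219451, nat_lit 0, nat_lit 0, nat_lit 317109, false, false⟩,
 nat_lit 0, nat_lit 11360, nat_lit 0, nat_lit 0, nat_lit 5867, nat_lit 0, nat_lit 0, nat_lit 0, nat_lit 0, nat_lit 0, nat_lit 0, nat_lit 0, nat_lit 0, nat_lit 0, nat_lit 53, nat_lit 1000000, nat_lit 0, nat_lit 0, [(nat_lit 3, [(nat_lit 6, nat_lit 1000)])],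
 ⟨p003_k37, nat_lit 0, nat_lit 0, nat_lit 283, nat_lit 0, nat_lit 188966, [nat_lit 2101142858, nat_lit 11600000], [], [nat_lit 15275573829, nat_lit 15275689998, nat_lit 15344566001, nat_lit 15045769079], nat_lit 1271250, nat_lit 1271250, nat_lit 43600, nat_lit 111251, nat_lit 0, nat_lit 0, [nat_lit 1412500, nat_lit 1271250], [nat_lit 26, nat_lit 40, nat_lit 20, nat_lit 80, nat_lit 2, nat_lit 289, nat_lit 75, nat_lit 10]⟩, C1.Rw.none,
 ⟨nat_lit 6383, nat_lit 6423, ⟨.ofNat (nat_lit 89848), .ofNat (nat_lit 114814), .ofNat (nat_lit 100538), .ofNat (nat_lit 125505), .ofNat (nat_lit 91693), .ofNat (nat_lit 116544), .ofNat (nat_lit 102381), .ofNat (nat_lit 127232)⟩, ⟨.ofNat (nat_lit 0), .ofNat (nat_lit 0), .ofNat (nat_lit 0), .ofNat (nat_lit 0), .ofNat (nat_lit 0), .ofNat (nat_lit 0), .ofNat (nat_lit 0), .ofNat (nat_lit 0)⟩⟩, []⟩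
noncomputable def p003_l99 : Lf2 := ⟨nat_lit 0, nat_lit 1, [nat_lit 19, nat_lit 5, nat_lit 5, nat_lit 20], true, nat_lit 0, nat_lit 0, nat_lit 0, nat_lit 0, ⟨nat_lit 0, nat_lit 0, nat_lit 1000, nat_lit 4, nat_lit 41, nat_lit 0, nat_lit 0, nat_lit 0, nat_lit 0, nat_lit 215, nat_lit 15000, nat_lit 245, nat_lit 66315005, nat_lit 0, nat_lit 0, nat_lit 284934, false, false⟩,
 nat_lit 0, nat_lit 10357, nat_lit 0, nat_lit 0, nat_lit 5402, nat_lit 0, nat_lit 0, nat_lit 0, nat_lit 0, nat_lit 0, nat_lit 0, nat_lit 0, nat_lit 0, nat_lit 0, nat_lit 53, nat_lit 1000000, nat_lit 0, nat_lit 0, [(nat_lit 3, [(nat_lit 6, nat_lit 1000)])],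
 ⟨p003_k44, nat_lit 0, nat_lit 0, nat_lit 291, nat_lit 0, nat_lit 191516, [nat_lit 2101142858, nat_lit 11600000], [], [nat_lit 15625135656, nat_lit 15636141608, nat_lit 15730364120, nat_lit 15592806511], nat_lit 1271250, nat_lit 1271250, nat_lit 0, nat_lit 111251, nat_lit 0, nat_lit 0, [nat_lit 1412500, nat_lit 1271250], [nat_lit 26, nat_lit 40, nat_lit 20, nat_lit 80, nat_lit 2, nat_lit 289, nat_lit 75, nat_lit 10]⟩, C1.Rw.none,
 ⟨nat_lit 6363, nat_lit 6384, ⟨.ofNat (nat_lit 75126), .ofNat (nat_lit 116544), .ofNat (nat_lit 85814), .ofNat (nat_lit 127232), .ofNat (nat_lit 76084), .ofNat (nat_lit 117407), .ofNat (nat_lit 86770), .ofNat (nat_lit 128093)⟩, ⟨.ofNat (nat_lit 0), .ofNat (nat_lit 0), .ofNat (nat_lit 0), .ofNat (nat_lit 0), .ofNat (nat_lit 0), .ofNat (nat_lit 0), .ofNat (nat_lit 0), .ofNat (nat_lit 0)⟩⟩, [⟨nat_lit 0, nat_lit 100, nat_lit 98, nat_lit 19, nat_lit 70947882⟩]⟩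
noncomputable def p003_l100 : Lf2 := ⟨nat_lit 0, nat_lit 1, [nat_lit 19, nat_lit 5, nat_lit 5, nat_lit 20], true, nat_lit 0, nat_lit 0, nat_lit 0, nat_lit 0, ⟨nat_lit 0, nat_lit 0, nat_lit 1000, nat_lit 4, nat_lit 41, nat_lit 0, nat_lit 0, nat_lit 0, nat_lit 0, nat_lit 215, nat_lit 16017, nat_lit 246, nat_lit 66296730, nat_lit 0, nat_lit 0, nat_lit 291161, false, false⟩,
 nat_lit 0, nat_lit 10123, nat_lit 0, nat_lit 0, nat_lit 5306, nat_lit 0, nat_lit 0, nat_lit 0, nat_lit 0, nat_lit 0, nat_lit 0, nat_lit 0, nat_lit 0, nat_lit 0, nat_lit 53, nat_lit 1000000, nat_lit 0, nat_lit 0, [(nat_lit 3, [(nat_lit 6, nat_lit 1000)])],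
 ⟨p003_k45, nat_lit 0, nat_lit 0, nat_lit 295, nat_lit 0, nat_lit 199402, [nat_lit 2101142858, nat_lit 11600000], [], [nat_lit 15624318901, nat_lit 15650601808, nat_lit 15736586825, nat_lit 15466360734], nat_lit 1271250, nat_lit 1271250, nat_lit 0, nat_lit 111251, nat_lit 0, nat_lit 0, [nat_lit 1412500, nat_lit 1271250], [nat_lit 26, nat_lit 40, nat_lit 20, nat_lit 80, nat_lit 2, nat_lit 289, nat_lit 75, nat_lit 10]⟩, C1.Rw.none,
 ⟨nat_lit 6324, nat_lit 6364, ⟨.ofNat (nat_lit 76084), .ofNat (nat_lit 117407), .ofNat (nat_lit 86770), .ofNat (nat_lit 128093), .ofNat (nat_lit 77993), .ofNat (nat_lit 119125), .ofNat (nat_lit 88677), .ofNat (nat_lit 129809)⟩, ⟨.ofNat (nat_lit 0), .ofNat (nat_lit 0), .ofNat (nat_lit 0), .ofNat (nat_lit 0), .ofNat (nat_lit 0), .ofNat (nat_lit 0), .ofNat (nat_lit 0), .ofNat (nat_lit 0)⟩⟩, [⟨nat_lit 0, nat_lit 100, nat_lit 98, nat_lit 20, nat_lit 69093409⟩]⟩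
noncomputable def p003_l101 : Lf2 := ⟨nat_lit 0, nat_lit 2, [nat_lit 10, nat_lit 5, nat_lit 5, nat_lit 20], true, nat_lit 0, nat_lit 0, nat_lit 0, nat_lit 0, ⟨nat_lit 0, nat_lit 0, nat_lit 1000, nat_lit 4, nat_lit 41, nat_lit 0, nat_lit 0, nat_lit 0, nat_lit 0, nat_lit 215, nat_lit 15000, nat_lit 245, nat_lit 66315088, nat_lit 0, nat_lit 0, nat_lit 284906, false, false⟩,
 nat_lit 0, nat_lit 10534, nat_lit 0, nat_lit 0, nat_lit 5440, nat_lit 0, nat_lit 0, nat_lit 0, nat_lit 0, nat_lit 0, nat_lit 0, nat_lit 0, nat_lit 0, nat_lit 0, nat_lit 53, nat_lit 1000000, nat_lit 0, nat_lit 0, [(nat_lit 3, [(nat_lit 6, nat_lit 1000)])],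
 ⟨p003_k46, nat_lit 0, nat_lit 0, nat_lit 284, nat_lit 0, nat_lit 159270, [nat_lit 2101142858, nat_lit 11600000], [], [nat_lit 15850683934, nat_lit 15890537920, nat_lit 15951469214, nat_lit 15258842974], nat_lit 1271250, nat_lit 1271250, nat_lit 0, nat_lit 111251, nat_lit 0, nat_lit 0, [nat_lit 1412500, nat_lit 1271250], [nat_lit 26, nat_lit 40, nat_lit 20, nat_lit 80, nat_lit 2, nat_lit 289, nat_lit 75, nat_lit 10]⟩, C1.Rw.none,
 ⟨nat_lit 6324, nat_lit 6423, ⟨.ofNat (nat_lit 73203), .ofNat (nat_lit 114814), .ofNat (nat_lit 83894), .ofNat (nat_lit 125505), .ofNat (nat_lit 77993), .ofNat (nat_lit 119125), .ofNat (nat_lit 88677), .ofNat (nat_lit 129809)⟩, ⟨.ofNat (nat_lit 0), .ofNat (nat_lit 0), .ofNat (nat_lit 0), .ofNat (nat_lit 0), .ofNat (nat_lit 0), .ofNat (nat_lit 0), .ofNat (nat_lit 0), .ofNat (nat_lit 0)⟩⟩, [⟨nat_lit 0, nat_lit 100, nat_lit 98, nat_lit 20, nat_lit 73069558⟩]⟩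
noncomputable def b_NL_550_450_0_3 : St := ⟨false, nat_lit 1, nat_lit 0, nat_lit 1, nat_lit 20, nat_lit 235, nat_lit 240, nat_lit 190, nat_lit 200, nat_lit 0, nat_lit 20, nat_lit 0, nat_lit 0, nat_lit 0, nat_lit 0, nat_lit 0, nat_lit 0, nat_lit 0, nat_lit 8, nat_lit 0, nat_lit 0, nat_lit 0, nat_lit 0⟩
theorem d_NL_550_450_0_3 (h : EB TB.env) : Dead b_NL_550_450_0_3 := chkB_sound0 h (T :=
(.spl (nat_lit 6) (nat_lit 4)
(.spl (nat_lit 0) (nat_lit 238)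
(.spl (nat_lit 0) (nat_lit 237)
(.spl (nat_lit 2) (nat_lit 8)
(.spl (nat_lit 1) (nat_lit 195)
(.leaf p003_l84)
(.spl (nat_lit 1) (nat_lit 198)
(.leaf p003_l85)
(.spl (nat_lit 0) (nat_lit 236)
(.spl (nat_lit 2) (nat_lit 4)
(.spl (nat_lit 1) (nat_lit 199)
(.spl (nat_lit 8) (nat_lit 800)
(.leaf p003_l86)
(.leaf p003_l87))
(.spl (nat_lit 8) (nat_lit 800)
(.spl (nat_lit 7) (nat_lit 600)
(.leaf p003_l88)
(.leaf p003_l89))
(.leaf p003_l90)))
(.spl (nat_lit 1) (nat_lit 199)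
(.leaf p003_l91)
(.spl (nat_lit 8) (nat_lit 800)
(.leaf p003_l92)
(.leaf p003_l93))))
(.spl (nat_lit 2) (nat_lit 4)
(.spl (nat_lit 1) (nat_lit 199)
(.leaf p003_l94)
(.spl (nat_lit 8) (nat_lit 800)
(.leaf p003_l95)
(.leaf p003_l96)))
(.leaf p003_l97)))))
(.leaf p003_l98))
(.leaf p003_l99))
(.leaf p003_l100))
(.leaf p003_l101))) (by decide +kernel)
noncomputable def p003_l102 : Lf2 := ⟨nat_lit 0, nat_lit 2, [nat_lit 10, nat_lit 5, nat_lit 5, nat_lit 20], true, nat_lit 0, nat_lit 0, nat_lit 0, nat_lit 0, ⟨nat_lit 0, nat_lit 0, nat_lit 1000, nat_lit 4, nat_lit 34, nat_lit 0, nat_lit 0, nat_lit 0, nat_lit 0, nat_lit 215, nat_lit 10417, nat_lit 240, nat_lit 66522493, nat_lit 0, nat_lit 0, nat_lit 211269, false, false⟩,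
 nat_lit 0, nat_lit 4747, nat_lit 0, nat_lit 0, nat_lit 2270, nat_lit 0, nat_lit 0, nat_lit 0, nat_lit 164, nat_lit 0, nat_lit 0, nat_lit 0, nat_lit 0, nat_lit 0, nat_lit 53, nat_lit 1000000, nat_lit 0, nat_lit 0, [(nat_lit 3, [(nat_lit 6, nat_lit 1000)])],
 ⟨p003_k2, nat_lit 0, nat_lit 0, nat_lit 0, nat_lit 0, nat_lit 174692, [nat_lit 2101142858, nat_lit 11600000], [], [nat_lit 8952506656, nat_lit 9578393420, nat_lit 8512630136, nat_lit 8974679286], nat_lit 1271250, nat_lit 1271250, nat_lit 0, nat_lit 111251, nat_lit 0, nat_lit 0, [nat_lit 1412500, nat_lit 1271250], [nat_lit 26, nat_lit 40, nat_lit 20, nat_lit 80]⟩, C1.Rw.none,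
 ⟨nat_lit 6519, nat_lit 6709, ⟨.ofNat (nat_lit 47783), .ofNat (nat_lit 90860), .ofNat (nat_lit 69221), .ofNat (nat_lit 112299), .ofNat (nat_lit 57661), .ofNat (nat_lit 99755), .ofNat (nat_lit 79059), .ofNat (nat_lit 121153)⟩, ⟨.ofNat (nat_lit 0), .ofNat (nat_lit 0), .ofNat (nat_lit 0), .ofNat (nat_lit 0), .ofNat (nat_lit 0), .ofNat (nat_lit 0), .ofNat (nat_lit 0), .ofNat (nat_lit 0)⟩⟩, [⟨nat_lit 0, nat_lit 100, nat_lit 99, nat_lit 8, nat_lit 211153330⟩]⟩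
noncomputable def p003_l103 : Lf2 := ⟨nat_lit 0, nat_lit 2, [nat_lit 10, nat_lit 5, nat_lit 5, nat_lit 20], true, nat_lit 0, nat_lit 0, nat_lit 0, nat_lit 0, ⟨nat_lit 0, nat_lit 0, nat_lit 1000, nat_lit 4, nat_lit 34, nat_lit 0, nat_lit 0, nat_lit 0, nat_lit 0, nat_lit 215, nat_lit 10417, nat_lit 240, nat_lit 66522493, nat_lit 0, nat_lit 0, nat_lit 211269, false, false⟩,
 nat_lit 0, nat_lit 13720, nat_lit 0, nat_lit 0, nat_lit 6561, nat_lit 0, nat_lit 1040, nat_lit 0, nat_lit 0, nat_lit 0, nat_lit 0, nat_lit 0, nat_lit 0, nat_lit 0, nat_lit 53, nat_lit 1000000, nat_lit 0, nat_lit 0, [(nat_lit 3, [(nat_lit 6, nat_lit 1000)])],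
 ⟨p003_k16, nat_lit 0, nat_lit 0, nat_lit 0, nat_lit 0, nat_lit 174692, [nat_lit 1891028572, nat_lit 716000001, nat_lit 11600000], [], [nat_lit 13938126312, nat_lit 13882298662, nat_lit 13872382706, nat_lit 12163970477], nat_lit 1271250, nat_lit 1271250, nat_lit 0, nat_lit 111251, nat_lit 0, nat_lit 0, [nat_lit 1271250, nat_lit 1271250, nat_lit 1271250], [nat_lit 181, nat_lit 40, nat_lit 20, nat_lit 40]⟩, C1.Rw.none,
 ⟨nat_lit 6519, nat_lit 6709, ⟨.ofNat (nat_lit 47783), .ofNat (nat_lit 90860), .ofNat (nat_lit 69221), .ofNat (nat_lit 112299), .ofNat (nat_lit 57661), .ofNat (nat_lit 99755), .ofNat (nat_lit 79059), .ofNat (nat_lit 121153)⟩, ⟨.ofNat (nat_lit 0), .ofNat (nat_lit 0), .ofNat (nat_lit 0), .ofNat (nat_lit 0), .ofNat (nat_lit 0), .ofNat (nat_lit 0), .ofNat (nat_lit 0), .ofNat (nat_lit 0)⟩⟩, [⟨nat_lit 0, nat_lit 100, nat_lit 99, nat_lit 15, nat_lit 116650702⟩]⟩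
noncomputable def p003_l104 : Lf2 := ⟨nat_lit 0, nat_lit 2, [nat_lit 10, nat_lit 5, nat_lit 5, nat_lit 20], true, nat_lit 0, nat_lit 0, nat_lit 0, nat_lit 0, ⟨nat_lit 0, nat_lit 0, nat_lit 1000, nat_lit 4, nat_lit 34, nat_lit 0, nat_lit 0, nat_lit 0, nat_lit 0, nat_lit 215, nat_lit 10417, nat_lit 240, nat_lit 66522493, nat_lit 0, nat_lit 0, nat_lit 211269, false, false⟩,
 nat_lit 0, nat_lit 100000, nat_lit 0, nat_lit 0, nat_lit 47826, nat_lit 0, nat_lit 14964, nat_lit 837, nat_lit 0, nat_lit 0, nat_lit 0, nat_lit 0, nat_lit 0, nat_lit 0, nat_lit 0, nat_lit 1000000, nat_lit 0, nat_lit 0, [(nat_lit 3, [(nat_lit 6, nat_lit 1000)])],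
 ⟨p003_k2, nat_lit 0, nat_lit 0, nat_lit 0, nat_lit 0, nat_lit 174692, [nat_lit 17781142858, nat_lit 18827600000], [], [nat_lit 26911786074, nat_lit 19634877354, nat_lit 24195204518, nat_lit 12016696226], nat_lit 1271250, nat_lit 1271250, nat_lit 0, nat_lit 111251, nat_lit 0, nat_lit 0, [nat_lit 1412500, nat_lit 1271250], [nat_lit 26, nat_lit 40, nat_lit 20, nat_lit 80]⟩, C1.Rw.none,
 ⟨nat_lit 6519, nat_lit 6709, ⟨.ofNat (nat_lit 47783), .ofNat (nat_lit 90860), .ofNat (nat_lit 69221), .ofNat (nat_lit 112299), .ofNat (nat_lit 57661), .ofNat (nat_lit 99755), .ofNat (nat_lit 79059), .ofNat (nat_lit 121153)⟩, ⟨.ofNat (nat_lit 0), .ofNat (nat_lit 0), .ofNat (nat_lit 0), .ofNat (nat_lit 0), .ofNat (nat_lit 0), .ofNat (nat_lit 0), .ofNat (nat_lit 0), .ofNat (nat_lit 0)⟩⟩, [⟨nat_lit 0, nat_lit 100, nat_lit 99, nat_lit 15, nat_lit 786042509⟩]⟩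
noncomputable def p003_l105 : Lf2 := ⟨nat_lit 0, nat_lit 2, [nat_lit 10, nat_lit 5, nat_lit 5, nat_lit 20], true, nat_lit 0, nat_lit 0, nat_lit 0, nat_lit 0, ⟨nat_lit 0, nat_lit 0, nat_lit 1000, nat_lit 4, nat_lit 34, nat_lit 0, nat_lit 0, nat_lit 0, nat_lit 0, nat_lit 215, nat_lit 10417, nat_lit 240, nat_lit 66522493, nat_lit 0, nat_lit 0, nat_lit 211269, false, false⟩,
 nat_lit 0, nat_lit 100000, nat_lit 0, nat_lit 5754, nat_lit 47826, nat_lit 0, nat_lit 22894, nat_lit 6332, nat_lit 0, nat_lit 0, nat_lit 0, nat_lit 0, nat_lit 0, nat_lit 0, nat_lit 0, nat_lit 1000000, nat_lit 0, nat_lit 0, [(nat_lit 3, [(nat_lit 6, nat_lit 1000)])],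
 ⟨p003_k2, nat_lit 0, nat_lit 0, nat_lit 293, nat_lit 0, nat_lit 174692, [nat_lit 127681142858, nat_lit 150707600000], [], [nat_lit 356611786074, nat_lit 353665054464, nat_lit 353895204518, nat_lit 341716696226], nat_lit 1271250, nat_lit 1271250, nat_lit 0, nat_lit 111251, nat_lit 0, nat_lit 0, [nat_lit 1412500, nat_lit 1271250], [nat_lit 26, nat_lit 40, nat_lit 20, nat_lit 80, nat_lit 2, nat_lit 289, nat_lit 75, nat_lit 10]⟩, C1.Rw.none,
 ⟨nat_lit 6519, nat_lit 6709, ⟨.ofNat (nat_lit 47783), .ofNat (nat_lit 90860), .ofNat (nat_lit 69221), .ofNat (nat_lit 112299), .ofNat (nat_lit 57661), .ofNat (nat_lit 99755), .ofNat (nat_lit 79059), .ofNat (nat_lit 121153)⟩, ⟨.ofNat (nat_lit 0), .ofNat (nat_lit 0), .ofNat (nat_lit 0), .ofNat (nat_lit 0), .ofNat (nat_lit 0), .ofNat (nat_lit 0), .ofNat (nat_lit 0), .ofNat (nat_lit 0)⟩⟩, []⟩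
noncomputable def p003_l106 : Lf2 := ⟨nat_lit 3, nat_lit 2, [nat_lit 10, nat_lit 5, nat_lit 5, nat_lit 20], false, nat_lit 0, nat_lit 0, nat_lit 0, nat_lit 0, zbN0,
 nat_lit 0, nat_lit 0, nat_lit 0, nat_lit 0, nat_lit 0, nat_lit 0, nat_lit 0, nat_lit 0, nat_lit 0, nat_lit 0, nat_lit 0, nat_lit 0, nat_lit 0, nat_lit 0, nat_lit 0, nat_lit 0, nat_lit 0, nat_lit 0, [],
 C1.Rw.none, ⟨p003_k17, nat_lit 0, nat_lit 0, nat_lit 423, nat_lit 0, nat_lit 221370, [], [], [], nat_lit 1271250, nat_lit 1271250, nat_lit 0, nat_lit 111251, nat_lit 0, nat_lit 0, [nat_lit 1695000, nat_lit 1271250], [nat_lit 77, nat_lit 40, nat_lit 20, nat_lit 80, nat_lit 17, nat_lit 272, nat_lit 60, nat_lit 9]⟩,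
 zbF0, []⟩
noncomputable def p003_l107 : Lf2 := ⟨nat_lit 0, nat_lit 2, [nat_lit 10, nat_lit 5, nat_lit 5, nat_lit 20], true, nat_lit 0, nat_lit 0, nat_lit 0, nat_lit 0, ⟨nat_lit 0, nat_lit 0, nat_lit 1000, nat_lit 4, nat_lit 51, nat_lit 0, nat_lit 0, nat_lit 0, nat_lit 0, nat_lit 215, nat_lit 24067, nat_lit 253, nat_lit 65931399, nat_lit 0, nat_lit 0, nat_lit 409041, false, false⟩,
 nat_lit 0, nat_lit 11431, nat_lit 0, nat_lit 0, nat_lit 5467, nat_lit 0, nat_lit 1516, nat_lit 0, nat_lit 0, nat_lit 0, nat_lit 0, nat_lit 0, nat_lit 0, nat_lit 0, nat_lit 53, nat_lit 1000000, nat_lit 0, nat_lit 0, [(nat_lit 3, [(nat_lit 6, nat_lit 1000)])],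
 ⟨p003_k2, nat_lit 0, nat_lit 0, nat_lit 283, nat_lit 0, nat_lit 174692, [nat_lit 2101142858, nat_lit 11600000], [], [nat_lit 11827822198, nat_lit 12472883613, nat_lit 11058335374, nat_lit 11697044173], nat_lit 1271250, nat_lit 1271250, nat_lit 111251, nat_lit 230001, nat_lit 0, nat_lit 0, [nat_lit 1412500, nat_lit 1271250], [nat_lit 26, nat_lit 40, nat_lit 20, nat_lit 80, nat_lit 2, nat_lit 289, nat_lit 75, nat_lit 10]⟩, C1.Rw.none,
 ⟨nat_lit 6519, nat_lit 6709, ⟨.ofNat (nat_lit 90860), .ofNat (nat_lit 133938), .ofNat (nat_lit 112299), .ofNat (nat_lit 155377), .ofNat (nat_lit 99755), .ofNat (nat_lit 141849), .ofNat (nat_lit 121153), .ofNat (nat_lit 163247)⟩, ⟨.ofNat (nat_lit 0), .ofNat (nat_lit 0), .ofNat (nat_lit 0), .ofNat (nat_lit 0), .ofNat (nat_lit 0), .ofNat (nat_lit 0), .ofNat (nat_lit 0), .ofNat (nat_lit 0)⟩⟩, []⟩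
noncomputable def p003_l108 : Lf2 := ⟨nat_lit 0, nat_lit 2, [nat_lit 10, nat_lit 5, nat_lit 5, nat_lit 20], true, nat_lit 0, nat_lit 0, nat_lit 0, nat_lit 0, ⟨nat_lit 0, nat_lit 0, nat_lit 1000, nat_lit 4, nat_lit 76, nat_lit 0, nat_lit 0, nat_lit 0, nat_lit 0, nat_lit 215, nat_lit 54150, nat_lit 272, nat_lit 64637307, nat_lit 0, nat_lit 0, nat_lit 762929, false, false⟩,
 nat_lit 0, nat_lit 12346, nat_lit 0, nat_lit 0, nat_lit 5904, nat_lit 0, nat_lit 1724, nat_lit 0, nat_lit 0, nat_lit 0, nat_lit 0, nat_lit 0, nat_lit 0, nat_lit 0, nat_lit 53, nat_lit 1000000, nat_lit 0, nat_lit 0, [(nat_lit 3, [(nat_lit 6, nat_lit 1000)])],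
 ⟨p003_k2, nat_lit 0, nat_lit 0, nat_lit 273, nat_lit 0, nat_lit 174692, [nat_lit 2101142858, nat_lit 11600000], [], [nat_lit 10525795812, nat_lit 11189237500, nat_lit 9820763060, nat_lit 10460950324], nat_lit 1271250, nat_lit 1271250, nat_lit 230001, nat_lit 490000, nat_lit 0, nat_lit 0, [nat_lit 1412500, nat_lit 1271250], [nat_lit 26, nat_lit 40, nat_lit 20, nat_lit 80, nat_lit 2, nat_lit 317, nat_lit 100, nat_lit 11]⟩, C1.Rw.none,
 ⟨nat_lit 6519, nat_lit 6709, ⟨.ofNat (nat_lit 133938), .ofNat (nat_lit 220094), .ofNat (nat_lit 155377), .ofNat (nat_lit 241532), .ofNat (nat_lit 141849), .ofNat (nat_lit 226037), .ofNat (nat_lit 163247), .ofNat (nat_lit 247435)⟩, ⟨.ofNat (nat_lit 0), .ofNat (nat_lit 0), .ofNat (nat_lit 0), .ofNat (nat_lit 0), .ofNat (nat_lit 0), .ofNat (nat_lit 0), .ofNat (nat_lit 0), .ofNat (nat_lit 0)⟩⟩, []⟩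
noncomputable def p003_l109 : Lf2 := ⟨nat_lit 0, nat_lit 4, [nat_lit 38, nat_lit 5, nat_lit 5, nat_lit 20], true, nat_lit 0, nat_lit 0, nat_lit 0, nat_lit 0, ⟨nat_lit 0, nat_lit 0, nat_lit 1000, nat_lit 4, nat_lit 59, nat_lit 0, nat_lit 0, nat_lit 0, nat_lit 0, nat_lit 215, nat_lit 33750, nat_lit 260, nat_lit 65552420, nat_lit 0, nat_lit 0, nat_lit 521074, false, false⟩,
 nat_lit 0, nat_lit 10678, nat_lit 0, nat_lit 0, nat_lit 5106, nat_lit 0, nat_lit 443, nat_lit 0, nat_lit 0, nat_lit 0, nat_lit 0, nat_lit 0, nat_lit 0, nat_lit 0, nat_lit 115, nat_lit 1000000, nat_lit 0, nat_lit 0, [(nat_lit 3, [(nat_lit 6, nat_lit 1000)])],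
 ⟨p003_k18, nat_lit 0, nat_lit 0, nat_lit 332, nat_lit 0, nat_lit 82902, [nat_lit 3341142858, nat_lit 1499600000, nat_lit 23600000], [], [nat_lit 13952266922, nat_lit 14391648282, nat_lit 11839425406, nat_lit 12255863968], nat_lit 1271250, nat_lit 1271250, nat_lit 0, nat_lit 490000, nat_lit 0, nat_lit 0, [nat_lit 1412500, nat_lit 1271250, nat_lit 1271250], [nat_lit 25, nat_lit 40, nat_lit 20, nat_lit 80, nat_lit 17, nat_lit 317, nat_lit 100, nat_lit 10]⟩, C1.Rw.none,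
 ⟨nat_lit 6519, nat_lit 6709, ⟨.ofNat (nat_lit 47783), .ofNat (nat_lit 220094), .ofNat (nat_lit 69221), .ofNat (nat_lit 241532), .ofNat (nat_lit 57661), .ofNat (nat_lit 226037), .ofNat (nat_lit 79059), .ofNat (nat_lit 247435)⟩, ⟨.ofNat (nat_lit 0), .ofNat (nat_lit 0), .ofNat (nat_lit 0), .ofNat (nat_lit 0), .ofNat (nat_lit 0), .ofNat (nat_lit 0), .ofNat (nat_lit 0), .ofNat (nat_lit 0)⟩⟩, [⟨nat_lit 0, nat_lit 100, nat_lit 99, nat_lit 15, nat_lit 237567244⟩]⟩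
noncomputable def b_NL_550_450_0_4 : St := ⟨false, nat_lit 1, nat_lit 1, nat_lit 1, nat_lit 20, nat_lit 220, nat_lit 230, nat_lit 180, nat_lit 200, nat_lit 0, nat_lit 80, nat_lit 0, nat_lit 0, nat_lit 0, nat_lit 0, nat_lit 0, nat_lit 0, nat_lit 0, nat_lit 16, nat_lit 0, nat_lit 0, nat_lit 0, nat_lit 0⟩
theorem d_NL_550_450_0_4 (h : EB TB.env) : Dead b_NL_550_450_0_4 := chkB_sound0 h (T :=
(.spl (nat_lit 6) (nat_lit 8)
(.spl (nat_lit 2) (nat_lit 40)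
(.spl (nat_lit 2) (nat_lit 20)
(.spl (nat_lit 8) (nat_lit 800)
(.spl (nat_lit 7) (nat_lit 600)
(.spl (nat_lit 7) (nat_lit 300)
(.leaf p003_l102)
(.spl (nat_lit 7) (nat_lit 460)
(.leaf p003_l103)
(.leaf p003_l104)))
(.leaf p003_l105))
(.leaf p003_l106))
(.leaf p003_l107))
(.leaf p003_l108))
(.leaf p003_l109))) (by decide +kernel)
noncomputable def p003_l110 : Lf2 := ⟨nat_lit 0, nat_lit 1, [nat_lit 19, nat_lit 5, nat_lit 5, nat_lit 20], true, nat_lit 0, nat_lit 0, nat_lit 0, nat_lit 0, ⟨nat_lit 0, nat_lit 0, nat_lit 1000, nat_lit 4, nat_lit 30, nat_lit 0, nat_lit 0, nat_lit 0, nat_lit 0, nat_lit 215, nat_lit 8067, nat_lit 237, nat_lit 66633921, nat_lit 0, nat_lit 0, nat_lit 168856, false, false⟩,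
 nat_lit 0, nat_lit 11816, nat_lit 0, nat_lit 0, nat_lit 5951, nat_lit 0, nat_lit 0, nat_lit 0, nat_lit 0, nat_lit 0, nat_lit 0, nat_lit 0, nat_lit 0, nat_lit 0, nat_lit 53, nat_lit 1000000, nat_lit 0, nat_lit 0, [(nat_lit 3, [(nat_lit 6, nat_lit 1000)])],
 ⟨p003_k19, nat_lit 0, nat_lit 0, nat_lit 286, nat_lit 0, nat_lit 146030, [nat_lit 2101142858, nat_lit 11600000], [], [nat_lit 15920025745, nat_lit 15920267979, nat_lit 15915905131, nat_lit 15763469314], nat_lit 1271250, nat_lit 1271250, nat_lit 0, nat_lit 21650, nat_lit 0, nat_lit 0, [nat_lit 1412500, nat_lit 1271250], [nat_lit 26, nat_lit 40, nat_lit 20, nat_lit 80, nat_lit 2, nat_lit 272, nat_lit 60, nat_lit 10]⟩, C1.Rw.none,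
 ⟨nat_lit 6500, nat_lit 6520, ⟨.ofNat (nat_lit 68360), .ofNat (nat_lit 76779), .ofNat (nat_lit 70500), .ofNat (nat_lit 78918), .ofNat (nat_lit 69333), .ofNat (nat_lit 77732), .ofNat (nat_lit 71472), .ofNat (nat_lit 79872)⟩, ⟨.ofNat (nat_lit 0), .ofNat (nat_lit 0), .ofNat (nat_lit 0), .ofNat (nat_lit 0), .ofNat (nat_lit 0), .ofNat (nat_lit 0), .ofNat (nat_lit 0), .ofNat (nat_lit 0)⟩⟩, [⟨nat_lit 0, nat_lit 100, nat_lit 99, nat_lit 11, nat_lit 100467508⟩]⟩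
noncomputable def p003_l111 : Lf2 := ⟨nat_lit 0, nat_lit 1, [nat_lit 19, nat_lit 5, nat_lit 5, nat_lit 20], true, nat_lit 0, nat_lit 0, nat_lit 0, nat_lit 0, ⟨nat_lit 0, nat_lit 0, nat_lit 1000, nat_lit 4, nat_lit 30, nat_lit 0, nat_lit 0, nat_lit 0, nat_lit 0, nat_lit 215, nat_lit 8817, nat_lit 238, nat_lit 66617992, nat_lit 0, nat_lit 0, nat_lit 175076, false, false⟩,
 nat_lit 0, nat_lit 8354, nat_lit 0, nat_lit 0, nat_lit 4207, nat_lit 0, nat_lit 941, nat_lit 0, nat_lit 0, nat_lit 0, nat_lit 0, nat_lit 0, nat_lit 0, nat_lit 0, nat_lit 21, nat_lit 1000000, nat_lit 0, nat_lit 0, [(nat_lit 3, [(nat_lit 6, nat_lit 1000)])],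
 ⟨p003_k23, nat_lit 0, nat_lit 0, nat_lit 0, nat_lit 0, nat_lit 148477, [nat_lit 1315028572, nat_lit 12000000], [], [nat_lit 12890366033, nat_lit 12947487659, nat_lit 12684126435, nat_lit 12741227404], nat_lit 1271250, nat_lit 1271250, nat_lit 0, nat_lit 21650, nat_lit 0, nat_lit 0, [nat_lit 1271250, nat_lit 1271250], [nat_lit 155, nat_lit 40, nat_lit 20, nat_lit 40]⟩, C1.Rw.none,
 ⟨nat_lit 6500, nat_lit 6520, ⟨.ofNat (nat_lit 70500), .ofNat (nat_lit 78918), .ofNat (nat_lit 71569), .ofNat (nat_lit 79988), .ofNat (nat_lit 71472), .ofNat (nat_lit 79872), .ofNat (nat_lit 72542), .ofNat (nat_lit 80941)⟩, ⟨.ofNat (nat_lit 0), .ofNat (nat_lit 0), .ofNat (nat_lit 0), .ofNat (nat_lit 0), .ofNat (nat_lit 0), .ofNat (nat_lit 0), .ofNat (nat_lit 0), .ofNat (nat_lit 0)⟩⟩, [⟨nat_lit 0, nat_lit 100, nat_lit 99, nat_lit 12, nat_lit 355706671⟩]⟩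
noncomputable def p003_l112 : Lf2 := ⟨nat_lit 0, nat_lit 1, [nat_lit 19, nat_lit 5, nat_lit 5, nat_lit 20], true, nat_lit 0, nat_lit 0, nat_lit 0, nat_lit 0, ⟨nat_lit 0, nat_lit 0, nat_lit 1000, nat_lit 4, nat_lit 30, nat_lit 0, nat_lit 0, nat_lit 0, nat_lit 0, nat_lit 215, nat_lit 8817, nat_lit 238, nat_lit 66617992, nat_lit 0, nat_lit 0, nat_lit 175076, false, false⟩,
 nat_lit 0, nat_lit 100000, nat_lit 0, nat_lit 51059, nat_lit 50364, nat_lit 0, nat_lit 0, nat_lit 1967, nat_lit 0, nat_lit 0, nat_lit 0, nat_lit 0, nat_lit 0, nat_lit 0, nat_lit 0, nat_lit 1000000, nat_lit 0, nat_lit 0, [(nat_lit 3, [(nat_lit 6, nat_lit 1000)])],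
 ⟨p003_k19, nat_lit 0, nat_lit 0, nat_lit 286, nat_lit 0, nat_lit 148477, [nat_lit 40381142858, nat_lit 45947600000], [], [nat_lit 80077244602, nat_lit 80348328838, nat_lit 78640671984, nat_lit 77354459051], nat_lit 1271250, nat_lit 1271250, nat_lit 0, nat_lit 21650, nat_lit 0, nat_lit 0, [nat_lit 1412500, nat_lit 1271250], [nat_lit 26, nat_lit 40, nat_lit 20, nat_lit 80, nat_lit 2, nat_lit 272, nat_lit 60, nat_lit 10]⟩, C1.Rw.none,
 ⟨nat_lit 6500, nat_lit 6520, ⟨.ofNat (nat_lit 70500), .ofNat (nat_lit 78918), .ofNat (nat_lit 71569), .ofNat (nat_lit 79988), .ofNat (nat_lit 71472), .ofNat (nat_lit 79872), .ofNat (nat_lit 72542), .ofNat (nat_lit 80941)⟩, ⟨.ofNat (nat_lit 0), .ofNat (nat_lit 0), .ofNat (nat_lit 0), .ofNat (nat_lit 0), .ofNat (nat_lit 0), .ofNat (nat_lit 0), .ofNat (nat_lit 0), .ofNat (nat_lit 0)⟩⟩, [⟨nat_lit 0, nat_lit 100, nat_lit 99, nat_lit 12, nat_lit 10101010101⟩]⟩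
noncomputable def p003_l113 : Lf2 := ⟨nat_lit 3, nat_lit 1, [nat_lit 19, nat_lit 5, nat_lit 5, nat_lit 20], false, nat_lit 0, nat_lit 0, nat_lit 0, nat_lit 0, zbN0,
 nat_lit 0, nat_lit 0, nat_lit 0, nat_lit 0, nat_lit 0, nat_lit 0, nat_lit 0, nat_lit 0, nat_lit 0, nat_lit 0, nat_lit 0, nat_lit 0, nat_lit 0, nat_lit 0, nat_lit 0, nat_lit 0, nat_lit 0, nat_lit 0, [],
 C1.Rw.none, ⟨p003_k21, nat_lit 0, nat_lit 0, nat_lit 373, nat_lit 0, nat_lit 183399, [], [], [], nat_lit 1271250, nat_lit 1271250, nat_lit 0, nat_lit 21650, nat_lit 0, nat_lit 0, [nat_lit 1695000, nat_lit 1271250], [nat_lit 77, nat_lit 40, nat_lit 20, nat_lit 80, nat_lit 17, nat_lit 260, nat_lit 50, nat_lit 8]⟩,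
 zbF0, []⟩
noncomputable def p003_l114 : Lf2 := ⟨nat_lit 0, nat_lit 1, [nat_lit 19, nat_lit 5, nat_lit 5, nat_lit 20], true, nat_lit 0, nat_lit 0, nat_lit 0, nat_lit 0, ⟨nat_lit 0, nat_lit 0, nat_lit 1000, nat_lit 4, nat_lit 33, nat_lit 0, nat_lit 0, nat_lit 0, nat_lit 0, nat_lit 215, nat_lit 10417, nat_lit 240, nat_lit 66540886, nat_lit 0, nat_lit 0, nat_lit 204436, false, false⟩,
 nat_lit 0, nat_lit 12195, nat_lit 0, nat_lit 0, nat_lit 6141, nat_lit 0, nat_lit 0, nat_lit 0, nat_lit 0, nat_lit 0, nat_lit 0, nat_lit 0, nat_lit 0, nat_lit 0, nat_lit 53, nat_lit 1000000, nat_lit 0, nat_lit 0, [(nat_lit 3, [(nat_lit 6, nat_lit 1000)])],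
 ⟨p003_k19, nat_lit 0, nat_lit 0, nat_lit 284, nat_lit 0, nat_lit 148477, [nat_lit 2101142858, nat_lit 11600000], [], [nat_lit 15679350647, nat_lit 15672682147, nat_lit 15680902758, nat_lit 15523831822], nat_lit 1271250, nat_lit 1271250, nat_lit 21650, nat_lit 43600, nat_lit 0, nat_lit 0, [nat_lit 1412500, nat_lit 1271250], [nat_lit 26, nat_lit 40, nat_lit 20, nat_lit 80, nat_lit 2, nat_lit 272, nat_lit 60, nat_lit 10]⟩, C1.Rw.none,
 ⟨nat_lit 6500, nat_lit 6520, ⟨.ofNat (nat_lit 76779), .ofNat (nat_lit 85197), .ofNat (nat_lit 79988), .ofNat (nat_lit 88407), .ofNat (nat_lit 77732), .ofNat (nat_lit 86132), .ofNat (nat_lit 80941), .ofNat (nat_lit 89341)⟩, ⟨.ofNat (nat_lit 0), .ofNat (nat_lit 0), .ofNat (nat_lit 0), .ofNat (nat_lit 0), .ofNat (nat_lit 0), .ofNat (nat_lit 0), .ofNat (nat_lit 0), .ofNat (nat_lit 0)⟩⟩, []⟩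
noncomputable def p003_l115 : Lf2 := ⟨nat_lit 0, nat_lit 1, [nat_lit 19, nat_lit 5, nat_lit 5, nat_lit 20], true, nat_lit 0, nat_lit 0, nat_lit 0, nat_lit 0, ⟨nat_lit 0, nat_lit 0, nat_lit 1000, nat_lit 4, nat_lit 32, nat_lit 0, nat_lit 0, nat_lit 0, nat_lit 0, nat_lit 215, nat_lit 9600, nat_lit 239, nat_lit 66575908, nat_lit 0, nat_lit 0, nat_lit 191238, false, false⟩,
 nat_lit 0, nat_lit 11590, nat_lit 0, nat_lit 0, nat_lit 5866, nat_lit 0, nat_lit 0, nat_lit 0, nat_lit 0, nat_lit 0, nat_lit 0, nat_lit 0, nat_lit 0, nat_lit 0, nat_lit 53, nat_lit 1000000, nat_lit 0, nat_lit 0, [(nat_lit 3, [(nat_lit 6, nat_lit 1000)])],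
 ⟨p003_k22, nat_lit 0, nat_lit 0, nat_lit 286, nat_lit 0, nat_lit 152256, [nat_lit 2101142858, nat_lit 11600000], [], [nat_lit 15874077049, nat_lit 15872851527, nat_lit 15877109368, nat_lit 15727072222], nat_lit 1271250, nat_lit 1271250, nat_lit 0, nat_lit 43600, nat_lit 0, nat_lit 0, [nat_lit 1412500, nat_lit 1271250], [nat_lit 26, nat_lit 40, nat_lit 20, nat_lit 80, nat_lit 2, nat_lit 272, nat_lit 60, nat_lit 10]⟩, C1.Rw.none,
 ⟨nat_lit 6480, nat_lit 6500, ⟨.ofNat (nat_lit 69333), .ofNat (nat_lit 86132), .ofNat (nat_lit 72542), .ofNat (nat_lit 89341), .ofNat (nat_lit 70304), .ofNat (nat_lit 87064), .ofNat (nat_lit 73513), .ofNat (nat_lit 90272)⟩, ⟨.ofNat (nat_lit 0), .ofNat (nat_lit 0), .ofNat (nat_lit 0), .ofNat (nat_lit 0), .ofNat (nat_lit 0), .ofNat (nat_lit 0), .ofNat (nat_lit 0), .ofNat (nat_lit 0)⟩⟩, [⟨nat_lit 0, nat_lit 100, nat_lit 99, nat_lit 12, nat_lit 93836247⟩]⟩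
noncomputable def p003_l116 : Lf2 := ⟨nat_lit 0, nat_lit 1, [nat_lit 19, nat_lit 5, nat_lit 5, nat_lit 20], true, nat_lit 0, nat_lit 0, nat_lit 0, nat_lit 0, ⟨nat_lit 0, nat_lit 0, nat_lit 1000, nat_lit 4, nat_lit 31, nat_lit 0, nat_lit 0, nat_lit 0, nat_lit 0, nat_lit 215, nat_lit 8817, nat_lit 238, nat_lit 66607186, nat_lit 0, nat_lit 0, nat_lit 179253, false, false⟩,
 nat_lit 0, nat_lit 8354, nat_lit 0, nat_lit 0, nat_lit 4207, nat_lit 0, nat_lit 942, nat_lit 0, nat_lit 0, nat_lit 0, nat_lit 0, nat_lit 0, nat_lit 0, nat_lit 0, nat_lit 21, nat_lit 1000000, nat_lit 0, nat_lit 0, [(nat_lit 3, [(nat_lit 6, nat_lit 1000)])],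
 ⟨p003_k23, nat_lit 0, nat_lit 0, nat_lit 0, nat_lit 0, nat_lit 150975, [nat_lit 1315028572, nat_lit 12000000], [], [nat_lit 12889962908, nat_lit 12947084534, nat_lit 12683723310, nat_lit 12740824279], nat_lit 1271250, nat_lit 1271250, nat_lit 0, nat_lit 21650, nat_lit 0, nat_lit 0, [nat_lit 1271250, nat_lit 1271250], [nat_lit 155, nat_lit 40, nat_lit 20, nat_lit 40]⟩, C1.Rw.none,
 ⟨nat_lit 6500, nat_lit 6520, ⟨.ofNat (nat_lit 71569), .ofNat (nat_lit 79988), .ofNat (nat_lit 72639), .ofNat (nat_lit 81058), .ofNat (nat_lit 72542), .ofNat (nat_lit 80941), .ofNat (nat_lit 73612), .ofNat (nat_lit 82011)⟩, ⟨.ofNat (nat_lit 0), .ofNat (nat_lit 0), .ofNat (nat_lit 0), .ofNat (nat_lit 0), .ofNat (nat_lit 0), .ofNat (nat_lit 0), .ofNat (nat_lit 0), .ofNat (nat_lit 0)⟩⟩, [⟨nat_lit 0, nat_lit 100, nat_lit 99, nat_lit 13, nat_lit 356116018⟩]⟩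
noncomputable def p003_l117 : Lf2 := ⟨nat_lit 0, nat_lit 1, [nat_lit 19, nat_lit 5, nat_lit 5, nat_lit 20], true, nat_lit 0, nat_lit 0, nat_lit 0, nat_lit 0, ⟨nat_lit 0, nat_lit 0, nat_lit 1000, nat_lit 4, nat_lit 31, nat_lit 0, nat_lit 0, nat_lit 0, nat_lit 0, nat_lit 215, nat_lit 8817, nat_lit 238, nat_lit 66607186, nat_lit 0, nat_lit 0, nat_lit 179253, false, false⟩,
 nat_lit 0, nat_lit 100000, nat_lit 0, nat_lit 0, nat_lit 50364, nat_lit 0, nat_lit 0, nat_lit 1967, nat_lit 0, nat_lit 0, nat_lit 0, nat_lit 0, nat_lit 0, nat_lit 0, nat_lit 0, nat_lit 1000000, nat_lit 0, nat_lit 0, [(nat_lit 3, [(nat_lit 6, nat_lit 1000)])],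
 ⟨p003_k19, nat_lit 0, nat_lit 0, nat_lit 286, nat_lit 0, nat_lit 150975, [nat_lit 40381142858, nat_lit 45947600000], [], [nat_lit 80077244602, nat_lit 80348328838, nat_lit 78640671984, nat_lit 77354459051], nat_lit 1271250, nat_lit 1271250, nat_lit 0, nat_lit 21650, nat_lit 0, nat_lit 0, [nat_lit 1412500, nat_lit 1271250], [nat_lit 26, nat_lit 40, nat_lit 20, nat_lit 80, nat_lit 2, nat_lit 272, nat_lit 60, nat_lit 10]⟩, C1.Rw.none,
 ⟨nat_lit 6500, nat_lit 6520, ⟨.ofNat (nat_lit 71569), .ofNat (nat_lit 79988), .ofNat (nat_lit 72639), .ofNat (nat_lit 81058), .ofNat (nat_lit 72542), .ofNat (nat_lit 80941), .ofNat (nat_lit 73612), .ofNat (nat_lit 82011)⟩, ⟨.ofNat (nat_lit 0), .ofNat (nat_lit 0), .ofNat (nat_lit 0), .ofNat (nat_lit 0), .ofNat (nat_lit 0), .ofNat (nat_lit 0), .ofNat (nat_lit 0), .ofNat (nat_lit 0)⟩⟩, [⟨nat_lit 0, nat_lit 100, nat_lit 99, nat_lit 12, nat_lit 10101010101⟩,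 ⟨nat_lit 13, nat_lit 99, nat_lit 18, nat_lit 100, nat_lit 182630284⟩]⟩
noncomputable def p003_l118 : Lf2 := ⟨nat_lit 3, nat_lit 1, [nat_lit 19, nat_lit 5, nat_lit 5, nat_lit 20], false, nat_lit 0, nat_lit 0, nat_lit 0, nat_lit 0, zbN0,
 nat_lit 0, nat_lit 0, nat_lit 0, nat_lit 0, nat_lit 0, nat_lit 0, nat_lit 0, nat_lit 0, nat_lit 0, nat_lit 0, nat_lit 0, nat_lit 0, nat_lit 0, nat_lit 0, nat_lit 0, nat_lit 0, nat_lit 0, nat_lit 0, [],
 C1.Rw.none, ⟨p003_k24, nat_lit 0, nat_lit 0, nat_lit 374, nat_lit 0, nat_lit 185367, [], [], [], nat_lit 1271250, nat_lit 1271250, nat_lit 0, nat_lit 21650, nat_lit 0, nat_lit 0, [nat_lit 1695000, nat_lit 1271250], [nat_lit 77, nat_lit 40, nat_lit 20, nat_lit 80, nat_lit 17, nat_lit 260, nat_lit 50, nat_lit 8]⟩,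
 zbF0, []⟩
noncomputable def p003_l119 : Lf2 := ⟨nat_lit 0, nat_lit 1, [nat_lit 19, nat_lit 5, nat_lit 5, nat_lit 20], true, nat_lit 0, nat_lit 0, nat_lit 0, nat_lit 0, ⟨nat_lit 0, nat_lit 0, nat_lit 1000, nat_lit 4, nat_lit 31, nat_lit 0, nat_lit 0, nat_lit 0, nat_lit 0, nat_lit 215, nat_lit 8817, nat_lit 238, nat_lit 66596230, nat_lit 0, nat_lit 0, nat_lit 183489, false, false⟩,
 nat_lit 0, nat_lit 8354, nat_lit 0, nat_lit 0, nat_lit 4207, nat_lit 0, nat_lit 942, nat_lit 0, nat_lit 0, nat_lit 0, nat_lit 0, nat_lit 0, nat_lit 0, nat_lit 0, nat_lit 21, nat_lit 1000000, nat_lit 0, nat_lit 0, [(nat_lit 3, [(nat_lit 6, nat_lit 1000)])],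
 ⟨p003_k23, nat_lit 0, nat_lit 0, nat_lit 0, nat_lit 0, nat_lit 153473, [nat_lit 1315028572, nat_lit 12000000], [], [nat_lit 12889962908, nat_lit 12947084534, nat_lit 12683723310, nat_lit 12740824279], nat_lit 1271250, nat_lit 1271250, nat_lit 0, nat_lit 21650, nat_lit 0, nat_lit 0, [nat_lit 1271250, nat_lit 1271250], [nat_lit 155, nat_lit 40, nat_lit 20, nat_lit 40]⟩, C1.Rw.none,
 ⟨nat_lit 6500, nat_lit 6520, ⟨.ofNat (nat_lit 72639), .ofNat (nat_lit 81058), .ofNat (nat_lit 73709), .ofNat (nat_lit 82128), .ofNat (nat_lit 73612), .ofNat (nat_lit 82011), .ofNat (nat_lit 74682), .ofNat (nat_lit 83081)⟩, ⟨.ofNat (nat_lit 0), .ofNat (nat_lit 0), .ofNat (nat_lit 0), .ofNat (nat_lit 0), .ofNat (nat_lit 0), .ofNat (nat_lit 0), .ofNat (nat_lit 0), .ofNat (nat_lit 0)⟩⟩, [⟨nat_lit 0, nat_lit 100, nat_lit 99, nat_lit 13, nat_lit 356111925⟩]⟩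
noncomputable def p003_l120 : Lf2 := ⟨nat_lit 0, nat_lit 1, [nat_lit 19, nat_lit 5, nat_lit 5, nat_lit 20], true, nat_lit 0, nat_lit 0, nat_lit 0, nat_lit 0, ⟨nat_lit 0, nat_lit 0, nat_lit 1000, nat_lit 4, nat_lit 31, nat_lit 0, nat_lit 0, nat_lit 0, nat_lit 0, nat_lit 215, nat_lit 8817, nat_lit 238, nat_lit 66596230, nat_lit 0, nat_lit 0, nat_lit 183489, false, false⟩,
 nat_lit 0, nat_lit 100000, nat_lit 0, nat_lit 0, nat_lit 50364, nat_lit 0, nat_lit 0, nat_lit 1921, nat_lit 0, nat_lit 0, nat_lit 0, nat_lit 0, nat_lit 0, nat_lit 0, nat_lit 0, nat_lit 1000000, nat_lit 0, nat_lit 0, [(nat_lit 3, [(nat_lit 6, nat_lit 1000)])],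
 ⟨p003_k19, nat_lit 0, nat_lit 0, nat_lit 286, nat_lit 0, nat_lit 153473, [nat_lit 39461142858, nat_lit 44843600000], [], [nat_lit 78053244602, nat_lit 78324328838, nat_lit 75880671984, nat_lit 75330459051], nat_lit 1271250, nat_lit 1271250, nat_lit 0, nat_lit 21650, nat_lit 0, nat_lit 0, [nat_lit 1412500, nat_lit 1271250], [nat_lit 26, nat_lit 40, nat_lit 20, nat_lit 80, nat_lit 2, nat_lit 272, nat_lit 60, nat_lit 10]⟩, C1.Rw.none,
 ⟨nat_lit 6500, nat_lit 6520, ⟨.ofNat (nat_lit 72639), .ofNat (nat_lit 81058), .ofNat (nat_lit 73709), .ofNat (nat_lit 82128), .ofNat (nat_lit 73612), .ofNat (nat_lit 82011), .ofNat (nat_lit 74682), .ofNat (nat_lit 83081)⟩, ⟨.ofNat (nat_lit 0), .ofNat (nat_lit 0), .ofNat (nat_lit 0), .ofNat (nat_lit 0), .ofNat (nat_lit 0), .ofNat (nat_lit 0), .ofNat (nat_lit 0), .ofNat (nat_lit 0)⟩⟩, [⟨nat_lit 0, nat_lit 100, nat_lit 99, nat_lit 12, nat_lit 10101010101⟩,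 ⟨nat_lit 13, nat_lit 99, nat_lit 17, nat_lit 100, nat_lit 178404933⟩]⟩
noncomputable def p003_l121 : Lf2 := ⟨nat_lit 3, nat_lit 1, [nat_lit 19, nat_lit 5, nat_lit 5, nat_lit 20], false, nat_lit 0, nat_lit 0, nat_lit 0, nat_lit 0, zbN0,
 nat_lit 0, nat_lit 0, nat_lit 0, nat_lit 0, nat_lit 0, nat_lit 0, nat_lit 0, nat_lit 0, nat_lit 0, nat_lit 0, nat_lit 0, nat_lit 0, nat_lit 0, nat_lit 0, nat_lit 0, nat_lit 0, nat_lit 0, nat_lit 0, [],
 C1.Rw.none, ⟨p003_k25, nat_lit 0, nat_lit 0, nat_lit 374, nat_lit 0, nat_lit 187311, [], [], [], nat_lit 1271250, nat_lit 1271250, nat_lit 0, nat_lit 21650, nat_lit 0, nat_lit 0, [nat_lit 1695000, nat_lit 1271250], [nat_lit 77, nat_lit 40, nat_lit 20, nat_lit 80, nat_lit 17, nat_lit 260, nat_lit 50, nat_lit 8]⟩,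
 zbF0, []⟩
noncomputable def p003_l122 : Lf2 := ⟨nat_lit 0, nat_lit 1, [nat_lit 19, nat_lit 5, nat_lit 5, nat_lit 20], true, nat_lit 0, nat_lit 0, nat_lit 0, nat_lit 0, ⟨nat_lit 0, nat_lit 0, nat_lit 1000, nat_lit 4, nat_lit 31, nat_lit 0, nat_lit 0, nat_lit 0, nat_lit 0, nat_lit 215, nat_lit 8817, nat_lit 238, nat_lit 66597344, nat_lit 0, nat_lit 0, nat_lit 183064, false, false⟩,
 nat_lit 0, nat_lit 11591, nat_lit 0, nat_lit 0, nat_lit 5867, nat_lit 0, nat_lit 0, nat_lit 0, nat_lit 0, nat_lit 0, nat_lit 0, nat_lit 0, nat_lit 0, nat_lit 0, nat_lit 53, nat_lit 1000000, nat_lit 0, nat_lit 0, [(nat_lit 3, [(nat_lit 6, nat_lit 1000)])],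
 ⟨p003_k22, nat_lit 0, nat_lit 0, nat_lit 286, nat_lit 0, nat_lit 154720, [nat_lit 2101142858, nat_lit 11600000], [], [nat_lit 15872821617, nat_lit 15874566557, nat_lit 15870202970, nat_lit 15719918826], nat_lit 1271250, nat_lit 1271250, nat_lit 0, nat_lit 21650, nat_lit 0, nat_lit 0, [nat_lit 1412500, nat_lit 1271250], [nat_lit 26, nat_lit 40, nat_lit 20, nat_lit 80, nat_lit 2, nat_lit 272, nat_lit 60, nat_lit 10]⟩, C1.Rw.none,
 ⟨nat_lit 6480, nat_lit 6500, ⟨.ofNat (nat_lit 72542), .ofNat (nat_lit 80941), .ofNat (nat_lit 73612), .ofNat (nat_lit 82011), .ofNat (nat_lit 73513), .ofNat (nat_lit 81892), .ofNat (nat_lit 74582), .ofNat (nat_lit 82962)⟩, ⟨.ofNat (nat_lit 0), .ofNat (nat_lit 0), .ofNat (nat_lit 0), .ofNat (nat_lit 0), .ofNat (nat_lit 0), .ofNat (nat_lit 0), .ofNat (nat_lit 0), .ofNat (nat_lit 0)⟩⟩, [⟨nat_lit 0, nat_lit 100, nat_lit 99, nat_lit 13, nat_lit 98951049⟩]⟩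
noncomputable def p003_l123 : Lf2 := ⟨nat_lit 0, nat_lit 1, [nat_lit 19, nat_lit 5, nat_lit 5, nat_lit 20], true, nat_lit 0, nat_lit 0, nat_lit 0, nat_lit 0, ⟨nat_lit 0, nat_lit 0, nat_lit 1000, nat_lit 4, nat_lit 32, nat_lit 0, nat_lit 0, nat_lit 0, nat_lit 0, nat_lit 215, nat_lit 9600, nat_lit 239, nat_lit 66586256, nat_lit 0, nat_lit 0, nat_lit 187303, false, false⟩,
 nat_lit 0, nat_lit 9790, nat_lit 0, nat_lit 0, nat_lit 4955, nat_lit 0, nat_lit 0, nat_lit 0, nat_lit 0, nat_lit 0, nat_lit 0, nat_lit 0, nat_lit 0, nat_lit 0, nat_lit 21, nat_lit 1000000, nat_lit 0, nat_lit 0, [(nat_lit 3, [(nat_lit 6, nat_lit 1000)])],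
 ⟨p003_k47, nat_lit 0, nat_lit 0, nat_lit 0, nat_lit 0, nat_lit 157185, [nat_lit 1315028572, nat_lit 12000000], [], [nat_lit 14293283114, nat_lit 14310458833, nat_lit 14292994712, nat_lit 14163189072], nat_lit 1271250, nat_lit 1271250, nat_lit 0, nat_lit 21650, nat_lit 0, nat_lit 0, [nat_lit 1271250, nat_lit 1271250], [nat_lit 155, nat_lit 40, nat_lit 20, nat_lit 40]⟩, C1.Rw.none,
 ⟨nat_lit 6480, nat_lit 6500, ⟨.ofNat (nat_lit 73612), .ofNat (nat_lit 82011), .ofNat (nat_lit 74682), .ofNat (nat_lit 83081), .ofNat (nat_lit 74582), .ofNat (nat_lit 82962), .ofNat (nat_lit 75652), .ofNat (nat_lit 84032)⟩, ⟨.ofNat (nat_lit 0), .ofNat (nat_lit 0), .ofNat (nat_lit 0), .ofNat (nat_lit 0), .ofNat (nat_lit 0), .ofNat (nat_lit 0), .ofNat (nat_lit 0), .ofNat (nat_lit 0)⟩⟩, [⟨nat_lit 0, nat_lit 100, nat_lit 99, nat_lit 13, nat_lit 96858244⟩]⟩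
noncomputable def p003_l124 : Lf2 := ⟨nat_lit 0, nat_lit 1, [nat_lit 19, nat_lit 5, nat_lit 5, nat_lit 20], true, nat_lit 0, nat_lit 0, nat_lit 0, nat_lit 0, ⟨nat_lit 0, nat_lit 0, nat_lit 1000, nat_lit 4, nat_lit 32, nat_lit 0, nat_lit 0, nat_lit 0, nat_lit 0, nat_lit 215, nat_lit 9600, nat_lit 239, nat_lit 66586256, nat_lit 0, nat_lit 0, nat_lit 187303, false, false⟩,
 nat_lit 0, nat_lit 100000, nat_lit 0, nat_lit 0, nat_lit 50620, nat_lit 0, nat_lit 0, nat_lit 2064, nat_lit 0, nat_lit 0, nat_lit 0, nat_lit 0, nat_lit 0, nat_lit 0, nat_lit 0, nat_lit 1000000, nat_lit 0, nat_lit 0, [(nat_lit 3, [(nat_lit 6, nat_lit 1000)])],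
 ⟨p003_k22, nat_lit 0, nat_lit 0, nat_lit 286, nat_lit 0, nat_lit 157185, [nat_lit 42321142858, nat_lit 48275600000], [], [nat_lit 84501011794, nat_lit 84773311211, nat_lit 82845306543, nat_lit 81771816577], nat_lit 1271250, nat_lit 1271250, nat_lit 0, nat_lit 21650, nat_lit 0, nat_lit 0, [nat_lit 1412500, nat_lit 1271250], [nat_lit 26, nat_lit 40, nat_lit 20, nat_lit 80, nat_lit 2, nat_lit 272, nat_lit 60, nat_lit 10]⟩, C1.Rw.none,
 ⟨nat_lit 6480, nat_lit 6500, ⟨.ofNat (nat_lit 73612), .ofNat (nat_lit 82011), .ofNat (nat_lit 74682), .ofNat (nat_lit 83081), .ofNat (nat_lit 74582), .ofNat (nat_lit 82962), .ofNat (nat_lit 75652), .ofNat (nat_lit 84032)⟩, ⟨.ofNat (nat_lit 0), .ofNat (nat_lit 0), .ofNat (nat_lit 0), .ofNat (nat_lit 0), .ofNat (nat_lit 0), .ofNat (nat_lit 0), .ofNat (nat_lit 0), .ofNat (nat_lit 0)⟩⟩, [⟨nat_lit 0, nat_lit 100, nat_lit 99, nat_lit 13, nat_lit 10101010101⟩,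 ⟨nat_lit 13, nat_lit 99, nat_lit 18, nat_lit 100, nat_lit 192335980⟩]⟩
noncomputable def p003_l125 : Lf2 := ⟨nat_lit 3, nat_lit 1, [nat_lit 19, nat_lit 5, nat_lit 5, nat_lit 20], false, nat_lit 0, nat_lit 0, nat_lit 0, nat_lit 0, zbN0,
 nat_lit 0, nat_lit 0, nat_lit 0, nat_lit 0, nat_lit 0, nat_lit 0, nat_lit 0, nat_lit 0, nat_lit 0, nat_lit 0, nat_lit 0, nat_lit 0, nat_lit 0, nat_lit 0, nat_lit 0, nat_lit 0, nat_lit 0, nat_lit 0, [],
 C1.Rw.none, ⟨p003_k25, nat_lit 0, nat_lit 0, nat_lit 377, nat_lit 0, nat_lit 192829, [], [], [], nat_lit 1271250, nat_lit 1271250, nat_lit 0, nat_lit 21650, nat_lit 0, nat_lit 0, [nat_lit 1695000, nat_lit 1271250], [nat_lit 77, nat_lit 40, nat_lit 20, nat_lit 80, nat_lit 17, nat_lit 260, nat_lit 50, nat_lit 8]⟩,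
 zbF0, []⟩
noncomputable def p003_l126 : Lf2 := ⟨nat_lit 0, nat_lit 1, [nat_lit 19, nat_lit 5, nat_lit 5, nat_lit 20], true, nat_lit 0, nat_lit 0, nat_lit 0, nat_lit 0, ⟨nat_lit 0, nat_lit 0, nat_lit 1000, nat_lit 4, nat_lit 34, nat_lit 0, nat_lit 0, nat_lit 0, nat_lit 0, nat_lit 215, nat_lit 11267, nat_lit 241, nat_lit 66517102, nat_lit 0, nat_lit 0, nat_lit 213252, false, false⟩,
 nat_lit 0, nat_lit 12194, nat_lit 0, nat_lit 0, nat_lit 6141, nat_lit 0, nat_lit 0, nat_lit 0, nat_lit 0, nat_lit 0, nat_lit 0, nat_lit 0, nat_lit 0, nat_lit 0, nat_lit 53, nat_lit 1000000, nat_lit 0, nat_lit 0, [(nat_lit 3, [(nat_lit 6, nat_lit 1000)])],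
 ⟨p003_k19, nat_lit 0, nat_lit 0, nat_lit 284, nat_lit 0, nat_lit 150975, [nat_lit 2101142858, nat_lit 11600000], [], [nat_lit 15679350647, nat_lit 15672682147, nat_lit 15680902758, nat_lit 15523831822], nat_lit 1271250, nat_lit 1271250, nat_lit 21650, nat_lit 43600, nat_lit 0, nat_lit 0, [nat_lit 1412500, nat_lit 1271250], [nat_lit 26, nat_lit 40, nat_lit 20, nat_lit 80, nat_lit 2, nat_lit 272, nat_lit 60, nat_lit 10]⟩, C1.Rw.none,
 ⟨nat_lit 6500, nat_lit 6520, ⟨.ofNat (nat_lit 79988), .ofNat (nat_lit 88407), .ofNat (nat_lit 81058), .ofNat (nat_lit 89477), .ofNat (nat_lit 80941), .ofNat (nat_lit 89341), .ofNat (nat_lit 82011), .ofNat (nat_lit 90411)⟩, ⟨.ofNat (nat_lit 0), .ofNat (nat_lit 0), .ofNat (nat_lit 0), .ofNat (nat_lit 0), .ofNat (nat_lit 0), .ofNat (nat_lit 0), .ofNat (nat_lit 0), .ofNat (nat_lit 0)⟩⟩, []⟩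
noncomputable def p003_l127 : Lf2 := ⟨nat_lit 0, nat_lit 1, [nat_lit 19, nat_lit 5, nat_lit 5, nat_lit 20], true, nat_lit 0, nat_lit 0, nat_lit 0, nat_lit 0, ⟨nat_lit 0, nat_lit 0, nat_lit 1000, nat_lit 4, nat_lit 35, nat_lit 0, nat_lit 0, nat_lit 0, nat_lit 0, nat_lit 215, nat_lit 11267, nat_lit 241, nat_lit 66504988, nat_lit 0, nat_lit 0, nat_lit 217721, false, false⟩,
 nat_lit 0, nat_lit 8495, nat_lit 0, nat_lit 0, nat_lit 4278, nat_lit 0, nat_lit 976, nat_lit 0, nat_lit 0, nat_lit 0, nat_lit 0, nat_lit 0, nat_lit 0, nat_lit 0, nat_lit 21, nat_lit 1000000, nat_lit 0, nat_lit 0, [(nat_lit 3, [(nat_lit 6, nat_lit 1000)])],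
 ⟨p003_k23, nat_lit 0, nat_lit 0, nat_lit 0, nat_lit 0, nat_lit 153473, [nat_lit 1315028572, nat_lit 12000000], [], [nat_lit 12621366312, nat_lit 12678868705, nat_lit 12410815608, nat_lit 12468297661], nat_lit 1271250, nat_lit 1271250, nat_lit 21650, nat_lit 43600, nat_lit 0, nat_lit 0, [nat_lit 1271250, nat_lit 1271250], [nat_lit 155, nat_lit 40, nat_lit 20, nat_lit 40]⟩, C1.Rw.none,
 ⟨nat_lit 6500, nat_lit 6520, ⟨.ofNat (nat_lit 81058), .ofNat (nat_lit 89477), .ofNat (nat_lit 82128), .ofNat (nat_lit 90547), .ofNat (nat_lit 82011), .ofNat (nat_lit 90411), .ofNat (nat_lit 83081), .ofNat (nat_lit 91480)⟩, ⟨.ofNat (nat_lit 0), .ofNat (nat_lit 0), .ofNat (nat_lit 0), .ofNat (nat_lit 0), .ofNat (nat_lit 0), .ofNat (nat_lit 0), .ofNat (nat_lit 0), .ofNat (nat_lit 0)⟩⟩, []⟩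
noncomputable def p003_l128 : Lf2 := ⟨nat_lit 0, nat_lit 1, [nat_lit 19, nat_lit 5, nat_lit 5, nat_lit 20], true, nat_lit 0, nat_lit 0, nat_lit 0, nat_lit 0, ⟨nat_lit 0, nat_lit 0, nat_lit 1000, nat_lit 4, nat_lit 35, nat_lit 0, nat_lit 0, nat_lit 0, nat_lit 0, nat_lit 215, nat_lit 11267, nat_lit 241, nat_lit 66504988, nat_lit 0, nat_lit 0, nat_lit 217721, false, false⟩,
 nat_lit 0, nat_lit 100000, nat_lit 0, nat_lit 63433, nat_lit 50364, nat_lit 0, nat_lit 37883, nat_lit 13703, nat_lit 0, nat_lit 0, nat_lit 0, nat_lit 0, nat_lit 0, nat_lit 0, nat_lit 0, nat_lit 1000000, nat_lit 0, nat_lit 0, [(nat_lit 3, [(nat_lit 6, nat_lit 1000)])],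
 ⟨p003_k19, nat_lit 0, nat_lit 0, nat_lit 284, nat_lit 0, nat_lit 153473, [nat_lit 275101142858, nat_lit 327611600000], [], [nat_lit 782800671984, nat_lit 781510590066, nat_lit 782181129750, nat_lit 780892948569], nat_lit 1271250, nat_lit 1271250, nat_lit 21650, nat_lit 43600, nat_lit 0, nat_lit 0, [nat_lit 1412500, nat_lit 1271250], [nat_lit 26, nat_lit 40, nat_lit 20, nat_lit 80, nat_lit 2, nat_lit 272, nat_lit 60, nat_lit 10]⟩, C1.Rw.none,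
 ⟨nat_lit 6500, nat_lit 6520, ⟨.ofNat (nat_lit 81058), .ofNat (nat_lit 89477), .ofNat (nat_lit 82128), .ofNat (nat_lit 90547), .ofNat (nat_lit 82011), .ofNat (nat_lit 90411), .ofNat (nat_lit 83081), .ofNat (nat_lit 91480)⟩, ⟨.ofNat (nat_lit 0), .ofNat (nat_lit 0), .ofNat (nat_lit 0), .ofNat (nat_lit 0), .ofNat (nat_lit 0), .ofNat (nat_lit 0), .ofNat (nat_lit 0), .ofNat (nat_lit 0)⟩⟩, []⟩
noncomputable def p003_l129 : Lf2 := ⟨nat_lit 3, nat_lit 1, [nat_lit 19, nat_lit 5, nat_lit 5, nat_lit 20], false, nat_lit 0, nat_lit 0, nat_lit 0, nat_lit 0, zbN0,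
 nat_lit 0, nat_lit 0, nat_lit 0, nat_lit 0, nat_lit 0, nat_lit 0, nat_lit 0, nat_lit 0, nat_lit 0, nat_lit 0, nat_lit 0, nat_lit 0, nat_lit 0, nat_lit 0, nat_lit 0, nat_lit 0, nat_lit 0, nat_lit 0, [],
 C1.Rw.none, ⟨p003_k25, nat_lit 0, nat_lit 0, nat_lit 368, nat_lit 0, nat_lit 187311, [], [], [], nat_lit 1271250, nat_lit 1271250, nat_lit 21650, nat_lit 43600, nat_lit 0, nat_lit 0, [nat_lit 1695000, nat_lit 1271250], [nat_lit 77, nat_lit 40, nat_lit 20, nat_lit 80, nat_lit 17, nat_lit 272, nat_lit 60, nat_lit 9]⟩,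
 zbF0, []⟩
noncomputable def p003_l130 : Lf2 := ⟨nat_lit 0, nat_lit 1, [nat_lit 19, nat_lit 5, nat_lit 5, nat_lit 20], true, nat_lit 0, nat_lit 0, nat_lit 0, nat_lit 0, ⟨nat_lit 0, nat_lit 0, nat_lit 1000, nat_lit 4, nat_lit 35, nat_lit 0, nat_lit 0, nat_lit 0, nat_lit 0, nat_lit 215, nat_lit 11267, nat_lit 241, nat_lit 66500339, nat_lit 0, nat_lit 0, nat_lit 219419, false, false⟩,
 nat_lit 0, nat_lit 11958, nat_lit 0, nat_lit 0, nat_lit 6053, nat_lit 0, nat_lit 0, nat_lit 0, nat_lit 0, nat_lit 0, nat_lit 0, nat_lit 0, nat_lit 0, nat_lit 0, nat_lit 53, nat_lit 1000000, nat_lit 0, nat_lit 0, [(nat_lit 3, [(nat_lit 6, nat_lit 1000)])],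
 ⟨p003_k22, nat_lit 0, nat_lit 0, nat_lit 284, nat_lit 0, nat_lit 157185, [nat_lit 2101142858, nat_lit 11600000], [], [nat_lit 15633864160, nat_lit 15630795319, nat_lit 15636880637, nat_lit 15482060513], nat_lit 1271250, nat_lit 1271250, nat_lit 21650, nat_lit 43600, nat_lit 0, nat_lit 0, [nat_lit 1412500, nat_lit 1271250], [nat_lit 26, nat_lit 40, nat_lit 20, nat_lit 80, nat_lit 2, nat_lit 272, nat_lit 60, nat_lit 10]⟩, C1.Rw.none,
 ⟨nat_lit 6480, nat_lit 6500, ⟨.ofNat (nat_lit 80941), .ofNat (nat_lit 89341), .ofNat (nat_lit 83081), .ofNat (nat_lit 91480), .ofNat (nat_lit 81892), .ofNat (nat_lit 90272), .ofNat (nat_lit 84032), .ofNat (nat_lit 92412)⟩, ⟨.ofNat (nat_lit 0), .ofNat (nat_lit 0), .ofNat (nat_lit 0), .ofNat (nat_lit 0), .ofNat (nat_lit 0), .ofNat (nat_lit 0), .ofNat (nat_lit 0), .ofNat (nat_lit 0)⟩⟩, []⟩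
noncomputable def p003_l131 : Lf2 := ⟨nat_lit 0, nat_lit 1, [nat_lit 19, nat_lit 5, nat_lit 5, nat_lit 20], true, nat_lit 0, nat_lit 0, nat_lit 0, nat_lit 0, ⟨nat_lit 0, nat_lit 0, nat_lit 1000, nat_lit 4, nat_lit 41, nat_lit 0, nat_lit 0, nat_lit 0, nat_lit 0, nat_lit 215, nat_lit 15000, nat_lit 245, nat_lit 66318065, nat_lit 0, nat_lit 0, nat_lit 283889, false, false⟩,
 nat_lit 0, nat_lit 12525, nat_lit 0, nat_lit 0, nat_lit 6308, nat_lit 0, nat_lit 0, nat_lit 0, nat_lit 0, nat_lit 0, nat_lit 0, nat_lit 0, nat_lit 0, nat_lit 0, nat_lit 53, nat_lit 1000000, nat_lit 0, nat_lit 0, [(nat_lit 3, [(nat_lit 6, nat_lit 1000)])],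
 ⟨p003_k19, nat_lit 0, nat_lit 0, nat_lit 283, nat_lit 0, nat_lit 157995, [nat_lit 2101142858, nat_lit 11600000], [], [nat_lit 15470638369, nat_lit 15455287910, nat_lit 15520905190, nat_lit 15199648843], nat_lit 1271250, nat_lit 1271250, nat_lit 43600, nat_lit 111251, nat_lit 0, nat_lit 0, [nat_lit 1412500, nat_lit 1271250], [nat_lit 26, nat_lit 40, nat_lit 20, nat_lit 80, nat_lit 2, nat_lit 289, nat_lit 75, nat_lit 10]⟩, C1.Rw.none,
 ⟨nat_lit 6480, nat_lit 6520, ⟨.ofNat (nat_lit 85197), .ofNat (nat_lit 110454), .ofNat (nat_lit 90547), .ofNat (nat_lit 115803), .ofNat (nat_lit 87064), .ofNat (nat_lit 112204), .ofNat (nat_lit 92412), .ofNat (nat_lit 117552)⟩, ⟨.ofNat (nat_lit 0), .ofNat (nat_lit 0), .ofNat (nat_lit 0), .ofNat (nat_lit 0), .ofNat (nat_lit 0), .ofNat (nat_lit 0), .ofNat (nat_lit 0), .ofNat (nat_lit 0)⟩⟩, []⟩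
noncomputable def p003_l132 : Lf2 := ⟨nat_lit 0, nat_lit 1, [nat_lit 19, nat_lit 5, nat_lit 5, nat_lit 20], true, nat_lit 0, nat_lit 0, nat_lit 0, nat_lit 0, ⟨nat_lit 0, nat_lit 0, nat_lit 1000, nat_lit 4, nat_lit 33, nat_lit 0, nat_lit 0, nat_lit 0, nat_lit 0, nat_lit 215, nat_lit 10417, nat_lit 240, nat_lit 66554315, nat_lit 0, nat_lit 0, nat_lit 199402, false, false⟩,
 nat_lit 0, nat_lit 11372, nat_lit 0, nat_lit 0, nat_lit 5785, nat_lit 0, nat_lit 0, nat_lit 0, nat_lit 0, nat_lit 0, nat_lit 0, nat_lit 0, nat_lit 0, nat_lit 0, nat_lit 53, nat_lit 1000000, nat_lit 0, nat_lit 0, [(nat_lit 3, [(nat_lit 6, nat_lit 1000)])],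
 ⟨p003_k27, nat_lit 0, nat_lit 0, nat_lit 286, nat_lit 0, nat_lit 160858, [nat_lit 2101142858, nat_lit 11600000], [], [nat_lit 15827365006, nat_lit 15830727791, nat_lit 15833200288, nat_lit 15685234913], nat_lit 1271250, nat_lit 1271250, nat_lit 0, nat_lit 43600, nat_lit 0, nat_lit 0, [nat_lit 1412500, nat_lit 1271250], [nat_lit 26, nat_lit 40, nat_lit 20, nat_lit 80, nat_lit 2, nat_lit 289, nat_lit 75, nat_lit 10]⟩, C1.Rw.none,
 ⟨nat_lit 6461, nat_lit 6481, ⟨.ofNat (nat_lit 70304), .ofNat (nat_lit 87064), .ofNat (nat_lit 75652), .ofNat (nat_lit 92412), .ofNat (nat_lit 71273), .ofNat (nat_lit 87994), .ofNat (nat_lit 76620), .ofNat (nat_lit 93341)⟩, ⟨.ofNat (nat_lit 0), .ofNat (nat_lit 0), .ofNat (nat_lit 0), .ofNat (nat_lit 0), .ofNat (nat_lit 0), .ofNat (nat_lit 0), .ofNat (nat_lit 0), .ofNat (nat_lit 0)⟩⟩, [⟨nat_lit 0, nat_lit 100, nat_lit 99, nat_lit 14, nat_lit 92416031⟩]⟩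
noncomputable def p003_l133 : Lf2 := ⟨nat_lit 0, nat_lit 1, [nat_lit 19, nat_lit 5, nat_lit 5, nat_lit 20], true, nat_lit 0, nat_lit 0, nat_lit 0, nat_lit 0, ⟨nat_lit 0, nat_lit 0, nat_lit 1000, nat_lit 4, nat_lit 41, nat_lit 0, nat_lit 0, nat_lit 0, nat_lit 0, nat_lit 215, nat_lit 16017, nat_lit 246, nat_lit 66299922, nat_lit 0, nat_lit 0, nat_lit 290078, false, false⟩,
 nat_lit 0, nat_lit 12112, nat_lit 0, nat_lit 0, nat_lit 6162, nat_lit 0, nat_lit 0, nat_lit 0, nat_lit 0, nat_lit 0, nat_lit 0, nat_lit 0, nat_lit 0, nat_lit 0, nat_lit 53, nat_lit 1000000, nat_lit 0, nat_lit 0, [(nat_lit 3, [(nat_lit 6, nat_lit 1000)])],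
 ⟨p003_k27, nat_lit 0, nat_lit 0, nat_lit 282, nat_lit 0, nat_lit 160858, [nat_lit 2101142858, nat_lit 11600000], [], [nat_lit 15339246202, nat_lit 15334399244, nat_lit 15396008098, nat_lit 15239097697], nat_lit 1271250, nat_lit 1271250, nat_lit 43600, nat_lit 111251, nat_lit 0, nat_lit 0, [nat_lit 1412500, nat_lit 1271250], [nat_lit 26, nat_lit 40, nat_lit 20, nat_lit 80, nat_lit 2, nat_lit 289, nat_lit 75, nat_lit 10]⟩, C1.Rw.none,
 ⟨nat_lit 6461, nat_lit 6481, ⟨.ofNat (nat_lit 87064), .ofNat (nat_lit 112204), .ofNat (nat_lit 92412), .ofNat (nat_lit 117552), .ofNat (nat_lit 87994), .ofNat (nat_lit 113076), .ofNat (nat_lit 93341), .ofNat (nat_lit 118423)⟩, ⟨.ofNat (nat_lit 0), .ofNat (nat_lit 0), .ofNat (nat_lit 0), .ofNat (nat_lit 0), .ofNat (nat_lit 0), .ofNat (nat_lit 0), .ofNat (nat_lit 0), .ofNat (nat_lit 0)⟩⟩, []⟩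
noncomputable def p003_l134 : Lf2 := ⟨nat_lit 0, nat_lit 1, [nat_lit 19, nat_lit 5, nat_lit 5, nat_lit 20], true, nat_lit 0, nat_lit 0, nat_lit 0, nat_lit 0, ⟨nat_lit 0, nat_lit 0, nat_lit 1000, nat_lit 4, nat_lit 38, nat_lit 0, nat_lit 0, nat_lit 0, nat_lit 0, nat_lit 215, nat_lit 14017, nat_lit 244, nat_lit 66391136, nat_lit 0, nat_lit 0, nat_lit 258571, false, false⟩,
 nat_lit 0, nat_lit 11102, nat_lit 0, nat_lit 0, nat_lit 5676, nat_lit 0, nat_lit 0, nat_lit 0, nat_lit 0, nat_lit 0, nat_lit 0, nat_lit 0, nat_lit 0, nat_lit 0, nat_lit 53, nat_lit 1000000, nat_lit 0, nat_lit 0, [(nat_lit 3, [(nat_lit 6, nat_lit 1000)])],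
 ⟨p003_k28, nat_lit 0, nat_lit 0, nat_lit 286, nat_lit 0, nat_lit 168945, [nat_lit 2101142858, nat_lit 11600000], [], [nat_lit 15821397389, nat_lit 15834289332, nat_lit 15905107529, nat_lit 15616037930], nat_lit 1271250, nat_lit 1271250, nat_lit 0, nat_lit 111251, nat_lit 0, nat_lit 0, [nat_lit 1412500, nat_lit 1271250], [nat_lit 26, nat_lit 40, nat_lit 20, nat_lit 80, nat_lit 2, nat_lit 289, nat_lit 75, nat_lit 10]⟩, C1.Rw.none,
 ⟨nat_lit 6422, nat_lit 6462, ⟨.ofNat (nat_lit 71273), .ofNat (nat_lit 113076), .ofNat (nat_lit 76620), .ofNat (nat_lit 118423), .ofNat (nat_lit 73203), .ofNat (nat_lit 114814), .ofNat (nat_lit 78549), .ofNat (nat_lit 120159)⟩, ⟨.ofNat (nat_lit 0), .ofNat (nat_lit 0), .ofNat (nat_lit 0), .ofNat (nat_lit 0), .ofNat (nat_lit 0), .ofNat (nat_lit 0), .ofNat (nat_lit 0), .ofNat (nat_lit 0)⟩⟩, [⟨nat_lit 0, nat_lit 100, nat_lit 98, nat_lit 15, nat_lit 76732964⟩]⟩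
noncomputable def p003_l135 : Lf2 := ⟨nat_lit 0, nat_lit 1, [nat_lit 19, nat_lit 5, nat_lit 5, nat_lit 20], true, nat_lit 0, nat_lit 0, nat_lit 0, nat_lit 0, ⟨nat_lit 0, nat_lit 0, nat_lit 1000, nat_lit 4, nat_lit 40, nat_lit 0, nat_lit 0, nat_lit 0, nat_lit 0, nat_lit 215, nat_lit 15000, nat_lit 245, nat_lit 66340191, nat_lit 0, nat_lit 0, nat_lit 276289, false, false⟩,
 nat_lit 0, nat_lit 9809, nat_lit 0, nat_lit 0, nat_lit 4940, nat_lit 0, nat_lit 0, nat_lit 0, nat_lit 0, nat_lit 0, nat_lit 0, nat_lit 0, nat_lit 0, nat_lit 0, nat_lit 21, nat_lit 1000000, nat_lit 0, nat_lit 0, [(nat_lit 3, [(nat_lit 6, nat_lit 1000)])],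
 ⟨p003_k23, nat_lit 0, nat_lit 0, nat_lit 0, nat_lit 0, nat_lit 184640, [nat_lit 1315028572, nat_lit 12000000], [], [nat_lit 14443893396, nat_lit 14551178580, nat_lit 14514094656, nat_lit 13870933826], nat_lit 1271250, nat_lit 1271250, nat_lit 0, nat_lit 111251, nat_lit 0, nat_lit 0, [nat_lit 1271250, nat_lit 1271250], [nat_lit 155, nat_lit 40, nat_lit 20, nat_lit 40]⟩, C1.Rw.none,
 ⟨nat_lit 6422, nat_lit 6520, ⟨.ofNat (nat_lit 73709), .ofNat (nat_lit 115803), .ofNat (nat_lit 79059), .ofNat (nat_lit 121153), .ofNat (nat_lit 78549), .ofNat (nat_lit 120159), .ofNat (nat_lit 83894), .ofNat (nat_lit 125505)⟩, ⟨.ofNat (nat_lit 0), .ofNat (nat_lit 0), .ofNat (nat_lit 0), .ofNat (nat_lit 0), .ofNat (nat_lit 0), .ofNat (nat_lit 0), .ofNat (nat_lit 0), .ofNat (nat_lit 0)⟩⟩, [⟨nat_lit 0, nat_lit 100, nat_lit 99, nat_lit 15, nat_lit 82076244⟩]⟩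
noncomputable def p003_l136 : Lf2 := ⟨nat_lit 0, nat_lit 1, [nat_lit 19, nat_lit 5, nat_lit 5, nat_lit 20], true, nat_lit 0, nat_lit 0, nat_lit 0, nat_lit 0, ⟨nat_lit 0, nat_lit 0, nat_lit 1000, nat_lit 4, nat_lit 40, nat_lit 0, nat_lit 0, nat_lit 0, nat_lit 0, nat_lit 215, nat_lit 15000, nat_lit 245, nat_lit 66340191, nat_lit 0, nat_lit 0, nat_lit 276289, false, false⟩,
 nat_lit 0, nat_lit 100000, nat_lit 0, nat_lit 0, nat_lit 50364, nat_lit 0, nat_lit 5533, nat_lit 2089, nat_lit 0, nat_lit 0, nat_lit 0, nat_lit 0, nat_lit 0, nat_lit 0, nat_lit 0, nat_lit 1000000, nat_lit 0, nat_lit 0, [(nat_lit 3, [(nat_lit 6, nat_lit 1000)])],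
 ⟨p003_k19, nat_lit 0, nat_lit 0, nat_lit 289, nat_lit 0, nat_lit 184640, [nat_lit 42821142858, nat_lit 48875600000], [], [nat_lit 86641851018, nat_lit 80183276365, nat_lit 83852529302, nat_lit 77440134458], nat_lit 1271250, nat_lit 1271250, nat_lit 0, nat_lit 111251, nat_lit 0, nat_lit 0, [nat_lit 1412500, nat_lit 1271250], [nat_lit 26, nat_lit 40, nat_lit 20, nat_lit 80, nat_lit 2, nat_lit 289, nat_lit 75, nat_lit 10]⟩, C1.Rw.none,
 ⟨nat_lit 6422, nat_lit 6520, ⟨.ofNat (nat_lit 73709), .ofNat (nat_lit 115803), .ofNat (nat_lit 79059), .ofNat (nat_lit 121153), .ofNat (nat_lit 78549), .ofNat (nat_lit 120159), .ofNat (nat_lit 83894), .ofNat (nat_lit 125505)⟩, ⟨.ofNat (nat_lit 0), .ofNat (nat_lit 0), .ofNat (nat_lit 0), .ofNat (nat_lit 0), .ofNat (nat_lit 0), .ofNat (nat_lit 0), .ofNat (nat_lit 0), .ofNat (nat_lit 0)⟩⟩, [⟨nat_lit 13, nat_lit 99, nat_lit 15, nat_lit 100, nat_lit 190284397⟩]⟩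
noncomputable def p003_l137 : Lf2 := ⟨nat_lit 3, nat_lit 1, [nat_lit 19, nat_lit 5, nat_lit 5, nat_lit 20], false, nat_lit 0, nat_lit 0, nat_lit 0, nat_lit 0, zbN0,
 nat_lit 0, nat_lit 0, nat_lit 0, nat_lit 0, nat_lit 0, nat_lit 0, nat_lit 0, nat_lit 0, nat_lit 0, nat_lit 0, nat_lit 0, nat_lit 0, nat_lit 0, nat_lit 0, nat_lit 0, nat_lit 0, nat_lit 0, nat_lit 0, [],
 C1.Rw.none, ⟨p003_k29, nat_lit 0, nat_lit 0, nat_lit 422, nat_lit 0, nat_lit 224011, [], [], [], nat_lit 1271250, nat_lit 1271250, nat_lit 0, nat_lit 111251, nat_lit 0, nat_lit 0, [nat_lit 1695000, nat_lit 1271250], [nat_lit 77, nat_lit 40, nat_lit 20, nat_lit 80, nat_lit 17, nat_lit 272, nat_lit 60, nat_lit 9]⟩,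
 zbF0, []⟩
noncomputable def p003_l138 : Lf2 := ⟨nat_lit 0, nat_lit 2, [nat_lit 10, nat_lit 5, nat_lit 5, nat_lit 20], true, nat_lit 0, nat_lit 0, nat_lit 0, nat_lit 0, ⟨nat_lit 0, nat_lit 0, nat_lit 1000, nat_lit 4, nat_lit 30, nat_lit 0, nat_lit 0, nat_lit 0, nat_lit 0, nat_lit 215, nat_lit 8817, nat_lit 238, nat_lit 66613154, nat_lit 0, nat_lit 0, nat_lit 176964, false, false⟩,
 nat_lit 0, nat_lit 11749, nat_lit 0, nat_lit 0, nat_lit 5917, nat_lit 0, nat_lit 0, nat_lit 0, nat_lit 0, nat_lit 0, nat_lit 0, nat_lit 0, nat_lit 0, nat_lit 0, nat_lit 53, nat_lit 1000000, nat_lit 0, nat_lit 0, [(nat_lit 3, [(nat_lit 6, nat_lit 1000)])],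
 ⟨p003_k4, nat_lit 0, nat_lit 0, nat_lit 283, nat_lit 0, nat_lit 112495, [nat_lit 2101142858, nat_lit 11600000], [], [nat_lit 15961838231, nat_lit 15960318077, nat_lit 15958235933, nat_lit 15655106130], nat_lit 1271250, nat_lit 1271250, nat_lit 0, nat_lit 21650, nat_lit 0, nat_lit 0, [nat_lit 1412500, nat_lit 1271250], [nat_lit 26, nat_lit 40, nat_lit 20, nat_lit 80, nat_lit 2, nat_lit 272, nat_lit 60, nat_lit 10]⟩, C1.Rw.none,
 ⟨nat_lit 6480, nat_lit 6520, ⟨.ofNat (nat_lit 68360), .ofNat (nat_lit 76779), .ofNat (nat_lit 73709), .ofNat (nat_lit 82128), .ofNat (nat_lit 70304), .ofNat (nat_lit 78684), .ofNat (nat_lit 75652), .ofNat (nat_lit 84032)⟩, ⟨.ofNat (nat_lit 0), .ofNat (nat_lit 0), .ofNat (nat_lit 0), .ofNat (nat_lit 0), .ofNat (nat_lit 0), .ofNat (nat_lit 0), .ofNat (nat_lit 0), .ofNat (nat_lit 0)⟩⟩, [⟨nat_lit 0, nat_lit 100, nat_lit 99, nat_lit 12, nat_lit 100270325⟩]⟩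
noncomputable def p003_l139 : Lf2 := ⟨nat_lit 0, nat_lit 2, [nat_lit 10, nat_lit 5, nat_lit 5, nat_lit 20], true, nat_lit 0, nat_lit 0, nat_lit 0, nat_lit 0, ⟨nat_lit 0, nat_lit 0, nat_lit 1000, nat_lit 4, nat_lit 32, nat_lit 0, nat_lit 0, nat_lit 0, nat_lit 0, nat_lit 215, nat_lit 9600, nat_lit 239, nat_lit 66568781, nat_lit 0, nat_lit 0, nat_lit 193943, false, false⟩,
 nat_lit 0, nat_lit 11751, nat_lit 0, nat_lit 0, nat_lit 5918, nat_lit 0, nat_lit 0, nat_lit 0, nat_lit 0, nat_lit 0, nat_lit 0, nat_lit 0, nat_lit 0, nat_lit 0, nat_lit 53, nat_lit 1000000, nat_lit 0, nat_lit 0, [(nat_lit 3, [(nat_lit 6, nat_lit 1000)])],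
 ⟨p003_k4, nat_lit 0, nat_lit 0, nat_lit 284, nat_lit 0, nat_lit 120683, [nat_lit 2101142858, nat_lit 11600000], [], [nat_lit 15960608452, nat_lit 15962033108, nat_lit 15956990910, nat_lit 15653809876], nat_lit 1271250, nat_lit 1271250, nat_lit 0, nat_lit 21650, nat_lit 0, nat_lit 0, [nat_lit 1412500, nat_lit 1271250], [nat_lit 26, nat_lit 40, nat_lit 20, nat_lit 80, nat_lit 2, nat_lit 272, nat_lit 60, nat_lit 10]⟩, C1.Rw.none,
 ⟨nat_lit 6480, nat_lit 6520, ⟨.ofNat (nat_lit 73709), .ofNat (nat_lit 82128), .ofNat (nat_lit 76919), .ofNat (nat_lit 85338), .ofNat (nat_lit 75652), .ofNat (nat_lit 84032), .ofNat (nat_lit 78860), .ofNat (nat_lit 87240)⟩, ⟨.ofNat (nat_lit 0), .ofNat (nat_lit 0), .ofNat (nat_lit 0), .ofNat (nat_lit 0), .ofNat (nat_lit 0), .ofNat (nat_lit 0), .ofNat (nat_lit 0), .ofNat (nat_lit 0)⟩⟩, [⟨nat_lit 0, nat_lit 100, nat_lit 99, nat_lit 14, nat_lit 101537111⟩]⟩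
noncomputable def p003_l140 : Lf2 := ⟨nat_lit 0, nat_lit 2, [nat_lit 10, nat_lit 5, nat_lit 5, nat_lit 20], true, nat_lit 0, nat_lit 0, nat_lit 0, nat_lit 0, ⟨nat_lit 0, nat_lit 0, nat_lit 1000, nat_lit 4, nat_lit 33, nat_lit 0, nat_lit 0, nat_lit 0, nat_lit 0, nat_lit 215, nat_lit 10417, nat_lit 240, nat_lit 66550934, nat_lit 0, nat_lit 0, nat_lit 200664, false, false⟩,
 nat_lit 0, nat_lit 9117, nat_lit 0, nat_lit 0, nat_lit 4591, nat_lit 0, nat_lit 404, nat_lit 0, nat_lit 0, nat_lit 0, nat_lit 0, nat_lit 0, nat_lit 0, nat_lit 0, nat_lit 53, nat_lit 1000000, nat_lit 0, nat_lit 0, [(nat_lit 3, [(nat_lit 6, nat_lit 1000)])],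
 ⟨p003_k30, nat_lit 0, nat_lit 0, nat_lit 0, nat_lit 0, nat_lit 118863, [nat_lit 1891028572, nat_lit 716000001, nat_lit 11600000], [], [nat_lit 13559067075, nat_lit 13603471906, nat_lit 13374297218, nat_lit 13418667674], nat_lit 1271250, nat_lit 1271250, nat_lit 0, nat_lit 21650, nat_lit 0, nat_lit 0, [nat_lit 1271250, nat_lit 1271250, nat_lit 1271250], [nat_lit 181, nat_lit 40, nat_lit 20, nat_lit 40]⟩, C1.Rw.none,
 ⟨nat_lit 6500, nat_lit 6520, ⟨.ofNat (nat_lit 76919), .ofNat (nat_lit 85338), .ofNat (nat_lit 77989), .ofNat (nat_lit 86408), .ofNat (nat_lit 77891), .ofNat (nat_lit 86290), .ofNat (nat_lit 78960), .ofNat (nat_lit 87360)⟩, ⟨.ofNat (nat_lit 0), .ofNat (nat_lit 0), .ofNat (nat_lit 0), .ofNat (nat_lit 0), .ofNat (nat_lit 0), .ofNat (nat_lit 0), .ofNat (nat_lit 0), .ofNat (nat_lit 0)⟩⟩, [⟨nat_lit 0, nat_lit 100, nat_lit 99, nat_lit 15, nat_lit 330732093⟩]⟩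
noncomputable def p003_l141 : Lf2 := ⟨nat_lit 0, nat_lit 2, [nat_lit 10, nat_lit 5, nat_lit 5, nat_lit 20], true, nat_lit 0, nat_lit 0, nat_lit 0, nat_lit 0, ⟨nat_lit 0, nat_lit 0, nat_lit 1000, nat_lit 4, nat_lit 33, nat_lit 0, nat_lit 0, nat_lit 0, nat_lit 0, nat_lit 215, nat_lit 10417, nat_lit 240, nat_lit 66550934, nat_lit 0, nat_lit 0, nat_lit 200664, false, false⟩,
 nat_lit 0, nat_lit 100000, nat_lit 0, nat_lit 0, nat_lit 50364, nat_lit 0, nat_lit 0, nat_lit 2710, nat_lit 0, nat_lit 0, nat_lit 0, nat_lit 0, nat_lit 0, nat_lit 0, nat_lit 0, nat_lit 1000000, nat_lit 0, nat_lit 0, [(nat_lit 3, [(nat_lit 6, nat_lit 1000)])],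
 ⟨p003_k4, nat_lit 0, nat_lit 0, nat_lit 284, nat_lit 0, nat_lit 118863, [nat_lit 55241142858, nat_lit 63779600000], [], [nat_lit 125638352820, nat_lit 125820599404, nat_lit 123220671984, nat_lit 123298845819], nat_lit 1271250, nat_lit 1271250, nat_lit 0, nat_lit 21650, nat_lit 0, nat_lit 0, [nat_lit 1412500, nat_lit 1271250], [nat_lit 26, nat_lit 40, nat_lit 20, nat_lit 80, nat_lit 2, nat_lit 272, nat_lit 60, nat_lit 10]⟩, C1.Rw.none,
 ⟨nat_lit 6500, nat_lit 6520, ⟨.ofNat (nat_lit 76919), .ofNat (nat_lit 85338), .ofNat (nat_lit 77989), .ofNat (nat_lit 86408), .ofNat (nat_lit 77891), .ofNat (nat_lit 86290), .ofNat (nat_lit 78960), .ofNat (nat_lit 87360)⟩, ⟨.ofNat (nat_lit 0), .ofNat (nat_lit 0), .ofNat (nat_lit 0), .ofNat (nat_lit 0), .ofNat (nat_lit 0), .ofNat (nat_lit 0), .ofNat (nat_lit 0), .ofNat (nat_lit 0)⟩⟩, [⟨nat_lit 0, nat_lit 100, nat_lit 99, nat_lit 15, nat_lit 10101010101⟩,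 ⟨nat_lit 0, nat_lit 100, nat_lit 99, nat_lit 15, nat_lit 10101010101⟩, ⟨nat_lit 0, nat_lit 100, nat_lit 99, nat_lit 14, nat_lit 10101010101⟩, ⟨nat_lit 13, nat_lit 99, nat_lit 15, nat_lit 100, nat_lit 173101727⟩]⟩
noncomputable def p003_l142 : Lf2 := ⟨nat_lit 3, nat_lit 2, [nat_lit 10, nat_lit 5, nat_lit 5, nat_lit 20], false, nat_lit 0, nat_lit 0, nat_lit 0, nat_lit 0, zbN0,
 nat_lit 0, nat_lit 0, nat_lit 0, nat_lit 0, nat_lit 0, nat_lit 0, nat_lit 0, nat_lit 0, nat_lit 0, nat_lit 0, nat_lit 0, nat_lit 0, nat_lit 0, nat_lit 0, nat_lit 0, nat_lit 0, nat_lit 0, nat_lit 0, [],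
 C1.Rw.none, ⟨p003_k31, nat_lit 0, nat_lit 0, nat_lit 353, nat_lit 0, nat_lit 142044, [], [], [], nat_lit 1271250, nat_lit 1271250, nat_lit 0, nat_lit 21650, nat_lit 0, nat_lit 0, [nat_lit 1695000, nat_lit 1271250], [nat_lit 77, nat_lit 40, nat_lit 20, nat_lit 80, nat_lit 17, nat_lit 272, nat_lit 60, nat_lit 9]⟩,
 zbF0, []⟩
noncomputable def p003_l143 : Lf2 := ⟨nat_lit 0, nat_lit 2, [nat_lit 10, nat_lit 5, nat_lit 5, nat_lit 20], true, nat_lit 0, nat_lit 0, nat_lit 0, nat_lit 0, ⟨nat_lit 0, nat_lit 0, nat_lit 1000, nat_lit 4, nat_lit 33, nat_lit 0, nat_lit 0, nat_lit 0, nat_lit 0, nat_lit 215, nat_lit 10417, nat_lit 240, nat_lit 66539242, nat_lit 0, nat_lit 0, nat_lit 205047, false, false⟩,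
 nat_lit 0, nat_lit 9117, nat_lit 0, nat_lit 0, nat_lit 4591, nat_lit 0, nat_lit 404, nat_lit 0, nat_lit 0, nat_lit 0, nat_lit 0, nat_lit 0, nat_lit 0, nat_lit 0, nat_lit 53, nat_lit 1000000, nat_lit 0, nat_lit 0, [(nat_lit 3, [(nat_lit 6, nat_lit 1000)])],
 ⟨p003_k30, nat_lit 0, nat_lit 0, nat_lit 0, nat_lit 0, nat_lit 121632, [nat_lit 1891028572, nat_lit 716000001, nat_lit 11600000], [], [nat_lit 13559067075, nat_lit 13603471906, nat_lit 13374297218, nat_lit 13418667674], nat_lit 1271250, nat_lit 1271250, nat_lit 0, nat_lit 21650, nat_lit 0, nat_lit 0, [nat_lit 1271250, nat_lit 1271250, nat_lit 1271250], [nat_lit 181, nat_lit 40, nat_lit 20, nat_lit 40]⟩, C1.Rw.none,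
 ⟨nat_lit 6500, nat_lit 6520, ⟨.ofNat (nat_lit 77989), .ofNat (nat_lit 86408), .ofNat (nat_lit 79059), .ofNat (nat_lit 87478), .ofNat (nat_lit 78960), .ofNat (nat_lit 87360), .ofNat (nat_lit 80030), .ofNat (nat_lit 88430)⟩, ⟨.ofNat (nat_lit 0), .ofNat (nat_lit 0), .ofNat (nat_lit 0), .ofNat (nat_lit 0), .ofNat (nat_lit 0), .ofNat (nat_lit 0), .ofNat (nat_lit 0), .ofNat (nat_lit 0)⟩⟩, [⟨nat_lit 0, nat_lit 100, nat_lit 99, nat_lit 15, nat_lit 330732093⟩]⟩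
noncomputable def p003_l144 : Lf2 := ⟨nat_lit 0, nat_lit 2, [nat_lit 10, nat_lit 5, nat_lit 5, nat_lit 20], true, nat_lit 0, nat_lit 0, nat_lit 0, nat_lit 0, ⟨nat_lit 0, nat_lit 0, nat_lit 1000, nat_lit 4, nat_lit 33, nat_lit 0, nat_lit 0, nat_lit 0, nat_lit 0, nat_lit 215, nat_lit 10417, nat_lit 240, nat_lit 66539242, nat_lit 0, nat_lit 0, nat_lit 205047, false, false⟩,
 nat_lit 0, nat_lit 100000, nat_lit 0, nat_lit 0, nat_lit 50364, nat_lit 0, nat_lit 0, nat_lit 2716, nat_lit 0, nat_lit 0, nat_lit 0, nat_lit 0, nat_lit 0, nat_lit 0, nat_lit 0, nat_lit 1000000, nat_lit 0, nat_lit 0, [(nat_lit 3, [(nat_lit 6, nat_lit 1000)])],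
 ⟨p003_k4, nat_lit 0, nat_lit 0, nat_lit 284, nat_lit 0, nat_lit 121632, [nat_lit 55361142858, nat_lit 63923600000], [], [nat_lit 126022352820, nat_lit 126204599404, nat_lit 123580671984, nat_lit 123682845819], nat_lit 1271250, nat_lit 1271250, nat_lit 0, nat_lit 21650, nat_lit 0, nat_lit 0, [nat_lit 1412500, nat_lit 1271250], [nat_lit 26, nat_lit 40, nat_lit 20, nat_lit 80, nat_lit 2, nat_lit 272, nat_lit 60, nat_lit 10]⟩, C1.Rw.none,
 ⟨nat_lit 6500, nat_lit 6520, ⟨.ofNat (nat_lit 77989), .ofNat (nat_lit 86408), .ofNat (nat_lit 79059), .ofNat (nat_lit 87478), .ofNat (nat_lit 78960), .ofNat (nat_lit 87360), .ofNat (nat_lit 80030), .ofNat (nat_lit 88430)⟩, ⟨.ofNat (nat_lit 0), .ofNat (nat_lit 0), .ofNat (nat_lit 0), .ofNat (nat_lit 0), .ofNat (nat_lit 0), .ofNat (nat_lit 0), .ofNat (nat_lit 0), .ofNat (nat_lit 0)⟩⟩, [⟨nat_lit 0, nat_lit 100, nat_lit 99, nat_lit 15, nat_lit 10101010101⟩,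 ⟨nat_lit 0, nat_lit 100, nat_lit 99, nat_lit 15, nat_lit 10101010101⟩, ⟨nat_lit 0, nat_lit 100, nat_lit 99, nat_lit 15, nat_lit 10101010101⟩, ⟨nat_lit 13, nat_lit 99, nat_lit 15, nat_lit 100, nat_lit 176408320⟩]⟩
noncomputable def p003_l145 : Lf2 := ⟨nat_lit 3, nat_lit 2, [nat_lit 10, nat_lit 5, nat_lit 5, nat_lit 20], false, nat_lit 0, nat_lit 0, nat_lit 0, nat_lit 0, zbN0,
 nat_lit 0, nat_lit 0, nat_lit 0, nat_lit 0, nat_lit 0, nat_lit 0, nat_lit 0, nat_lit 0, nat_lit 0, nat_lit 0, nat_lit 0, nat_lit 0, nat_lit 0, nat_lit 0, nat_lit 0, nat_lit 0, nat_lit 0, nat_lit 0, [],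
 C1.Rw.none, ⟨p003_k32, nat_lit 0, nat_lit 0, nat_lit 355, nat_lit 0, nat_lit 144491, [], [], [], nat_lit 1271250, nat_lit 1271250, nat_lit 0, nat_lit 21650, nat_lit 0, nat_lit 0, [nat_lit 1695000, nat_lit 1271250], [nat_lit 77, nat_lit 40, nat_lit 20, nat_lit 80, nat_lit 17, nat_lit 272, nat_lit 60, nat_lit 9]⟩,
 zbF0, []⟩
noncomputable def p003_l146 : Lf2 := ⟨nat_lit 0, nat_lit 2, [nat_lit 10, nat_lit 5, nat_lit 5, nat_lit 20], true, nat_lit 0, nat_lit 0, nat_lit 0, nat_lit 0, ⟨nat_lit 0, nat_lit 0, nat_lit 1000, nat_lit 4, nat_lit 33, nat_lit 0, nat_lit 0, nat_lit 0, nat_lit 0, nat_lit 215, nat_lit 10417, nat_lit 240, nat_lit 66540441, nat_lit 0, nat_lit 0, nat_lit 204601, false, false⟩,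
 nat_lit 0, nat_lit 11591, nat_lit 0, nat_lit 0, nat_lit 5867, nat_lit 0, nat_lit 0, nat_lit 0, nat_lit 0, nat_lit 0, nat_lit 0, nat_lit 0, nat_lit 0, nat_lit 0, nat_lit 53, nat_lit 1000000, nat_lit 0, nat_lit 0, [(nat_lit 3, [(nat_lit 6, nat_lit 1000)])],
 ⟨p003_k33, nat_lit 0, nat_lit 0, nat_lit 283, nat_lit 0, nat_lit 122788, [nat_lit 2101142858, nat_lit 11600000], [], [nat_lit 15872821617, nat_lit 15874566557, nat_lit 15870202970, nat_lit 15719918826], nat_lit 1271250, nat_lit 1271250, nat_lit 0, nat_lit 21650, nat_lit 0, nat_lit 0, [nat_lit 1412500, nat_lit 1271250], [nat_lit 26, nat_lit 40, nat_lit 20, nat_lit 80, nat_lit 2, nat_lit 272, nat_lit 60, nat_lit 10]⟩, C1.Rw.none,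
 ⟨nat_lit 6480, nat_lit 6500, ⟨.ofNat (nat_lit 77891), .ofNat (nat_lit 86290), .ofNat (nat_lit 78960), .ofNat (nat_lit 87360), .ofNat (nat_lit 78860), .ofNat (nat_lit 87240), .ofNat (nat_lit 79930), .ofNat (nat_lit 88310)⟩, ⟨.ofNat (nat_lit 0), .ofNat (nat_lit 0), .ofNat (nat_lit 0), .ofNat (nat_lit 0), .ofNat (nat_lit 0), .ofNat (nat_lit 0), .ofNat (nat_lit 0), .ofNat (nat_lit 0)⟩⟩, [⟨nat_lit 0, nat_lit 100, nat_lit 99, nat_lit 15, nat_lit 100653106⟩]⟩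
noncomputable def p003_l147 : Lf2 := ⟨nat_lit 0, nat_lit 2, [nat_lit 10, nat_lit 5, nat_lit 5, nat_lit 20], true, nat_lit 0, nat_lit 0, nat_lit 0, nat_lit 0, ⟨nat_lit 0, nat_lit 0, nat_lit 1000, nat_lit 4, nat_lit 34, nat_lit 0, nat_lit 0, nat_lit 0, nat_lit 0, nat_lit 215, nat_lit 10417, nat_lit 240, nat_lit 66528619, nat_lit 0, nat_lit 0, nat_lit 208995, false, false⟩,
 nat_lit 0, nat_lit 9052, nat_lit 0, nat_lit 0, nat_lit 4581, nat_lit 0, nat_lit 358, nat_lit 0, nat_lit 0, nat_lit 0, nat_lit 0, nat_lit 0, nat_lit 0, nat_lit 0, nat_lit 53, nat_lit 1000000, nat_lit 0, nat_lit 0, [(nat_lit 3, [(nat_lit 6, nat_lit 1000)])],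
 ⟨p003_k34, nat_lit 0, nat_lit 0, nat_lit 0, nat_lit 0, nat_lit 125521, [nat_lit 1891028572, nat_lit 716000001, nat_lit 11600000], [], [nat_lit 13627995419, nat_lit 13672366373, nat_lit 13443700947, nat_lit 13488035929], nat_lit 1271250, nat_lit 1271250, nat_lit 0, nat_lit 21650, nat_lit 0, nat_lit 0, [nat_lit 1271250, nat_lit 1271250, nat_lit 1271250], [nat_lit 181, nat_lit 40, nat_lit 20, nat_lit 40]⟩, C1.Rw.none,
 ⟨nat_lit 6480, nat_lit 6500, ⟨.ofNat (nat_lit 78960), .ofNat (nat_lit 87360), .ofNat (nat_lit 80030), .ofNat (nat_lit 88430), .ofNat (nat_lit 79930), .ofNat (nat_lit 88310), .ofNat (nat_lit 80999), .ofNat (nat_lit 89379)⟩, ⟨.ofNat (nat_lit 0), .ofNat (nat_lit 0), .ofNat (nat_lit 0), .ofNat (nat_lit 0), .ofNat (nat_lit 0), .ofNat (nat_lit 0), .ofNat (nat_lit 0), .ofNat (nat_lit 0)⟩⟩, [⟨nat_lit 0, nat_lit 100, nat_lit 99, nat_lit 16, nat_lit 330061754⟩]⟩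
noncomputable def p003_l148 : Lf2 := ⟨nat_lit 0, nat_lit 2, [nat_lit 10, nat_lit 5, nat_lit 5, nat_lit 20], true, nat_lit 0, nat_lit 0, nat_lit 0, nat_lit 0, ⟨nat_lit 0, nat_lit 0, nat_lit 1000, nat_lit 4, nat_lit 34, nat_lit 0, nat_lit 0, nat_lit 0, nat_lit 0, nat_lit 215, nat_lit 10417, nat_lit 240, nat_lit 66528619, nat_lit 0, nat_lit 0, nat_lit 208995, false, false⟩,
 nat_lit 0, nat_lit 100000, nat_lit 0, nat_lit 0, nat_lit 50620, nat_lit 0, nat_lit 0, nat_lit 2368, nat_lit 0, nat_lit 0, nat_lit 0, nat_lit 0, nat_lit 0, nat_lit 0, nat_lit 0, nat_lit 1000000, nat_lit 0, nat_lit 0, [(nat_lit 3, [(nat_lit 6, nat_lit 1000)])],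
 ⟨p003_k33, nat_lit 0, nat_lit 0, nat_lit 284, nat_lit 0, nat_lit 125521, [nat_lit 48401142858, nat_lit 55571600000], [], [nat_lit 103579598956, nat_lit 103762627876, nat_lit 101085306543, nat_lit 101227816577], nat_lit 1271250, nat_lit 1271250, nat_lit 0, nat_lit 21650, nat_lit 0, nat_lit 0, [nat_lit 1412500, nat_lit 1271250], [nat_lit 26, nat_lit 40, nat_lit 20, nat_lit 80, nat_lit 2, nat_lit 272, nat_lit 60, nat_lit 10]⟩, C1.Rw.none,
 ⟨nat_lit 6480, nat_lit 6500, ⟨.ofNat (nat_lit 78960), .ofNat (nat_lit 87360), .ofNat (nat_lit 80030), .ofNat (nat_lit 88430), .ofNat (nat_lit 79930), .ofNat (nat_lit 88310), .ofNat (nat_lit 80999), .ofNat (nat_lit 89379)⟩, ⟨.ofNat (nat_lit 0), .ofNat (nat_lit 0), .ofNat (nat_lit 0), .ofNat (nat_lit 0), .ofNat (nat_lit 0), .ofNat (nat_lit 0), .ofNat (nat_lit 0), .ofNat (nat_lit 0)⟩⟩, [⟨nat_lit 0, nat_lit 100, nat_lit 99, nat_lit 16, nat_lit 10101010101⟩,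 ⟨nat_lit 0, nat_lit 100, nat_lit 99, nat_lit 16, nat_lit 10101010101⟩, ⟨nat_lit 0, nat_lit 100, nat_lit 99, nat_lit 15, nat_lit 10101010101⟩, ⟨nat_lit 13, nat_lit 99, nat_lit 15, nat_lit 100, nat_lit 197974337⟩]⟩
noncomputable def p003_l149 : Lf2 := ⟨nat_lit 3, nat_lit 2, [nat_lit 10, nat_lit 5, nat_lit 5, nat_lit 20], false, nat_lit 0, nat_lit 0, nat_lit 0, nat_lit 0, zbN0,
 nat_lit 0, nat_lit 0, nat_lit 0, nat_lit 0, nat_lit 0, nat_lit 0, nat_lit 0, nat_lit 0, nat_lit 0, nat_lit 0, nat_lit 0, nat_lit 0, nat_lit 0, nat_lit 0, nat_lit 0, nat_lit 0, nat_lit 0, nat_lit 0, [],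
 C1.Rw.none, ⟨p003_k32, nat_lit 0, nat_lit 0, nat_lit 357, nat_lit 0, nat_lit 149889, [], [], [], nat_lit 1271250, nat_lit 1271250, nat_lit 0, nat_lit 21650, nat_lit 0, nat_lit 0, [nat_lit 1695000, nat_lit 1271250], [nat_lit 77, nat_lit 40, nat_lit 20, nat_lit 80, nat_lit 17, nat_lit 272, nat_lit 60, nat_lit 9]⟩,
 zbF0, []⟩
noncomputable def p003_l150 : Lf2 := ⟨nat_lit 0, nat_lit 2, [nat_lit 10, nat_lit 5, nat_lit 5, nat_lit 20], true, nat_lit 0, nat_lit 0, nat_lit 0, nat_lit 0, ⟨nat_lit 0, nat_lit 0, nat_lit 1000, nat_lit 4, nat_lit 35, nat_lit 0, nat_lit 0, nat_lit 0, nat_lit 0, nat_lit 215, nat_lit 11267, nat_lit 241, nat_lit 66493472, nat_lit 0, nat_lit 0, nat_lit 221935, false, false⟩,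
 nat_lit 0, nat_lit 10039, nat_lit 0, nat_lit 0, nat_lit 5056, nat_lit 0, nat_lit 0, nat_lit 0, nat_lit 0, nat_lit 0, nat_lit 0, nat_lit 0, nat_lit 0, nat_lit 0, nat_lit 53, nat_lit 1000000, nat_lit 0, nat_lit 0, [(nat_lit 3, [(nat_lit 6, nat_lit 1000)])],
 ⟨p003_k4, nat_lit 0, nat_lit 0, nat_lit 282, nat_lit 0, nat_lit 126176, [nat_lit 2101142858, nat_lit 11600000], [], [nat_lit 13896063290, nat_lit 14019536872, nat_lit 13638499147, nat_lit 13762354843], nat_lit 1271250, nat_lit 1271250, nat_lit 21650, nat_lit 43600, nat_lit 0, nat_lit 0, [nat_lit 1412500, nat_lit 1271250], [nat_lit 26, nat_lit 40, nat_lit 20, nat_lit 80, nat_lit 2, nat_lit 272, nat_lit 60, nat_lit 10]⟩, C1.Rw.none,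
 ⟨nat_lit 6480, nat_lit 6520, ⟨.ofNat (nat_lit 76779), .ofNat (nat_lit 85197), .ofNat (nat_lit 87478), .ofNat (nat_lit 95896), .ofNat (nat_lit 78684), .ofNat (nat_lit 87064), .ofNat (nat_lit 89379), .ofNat (nat_lit 97759)⟩, ⟨.ofNat (nat_lit 0), .ofNat (nat_lit 0), .ofNat (nat_lit 0), .ofNat (nat_lit 0), .ofNat (nat_lit 0), .ofNat (nat_lit 0), .ofNat (nat_lit 0), .ofNat (nat_lit 0)⟩⟩, []⟩
noncomputable def p003_l151 : Lf2 := ⟨nat_lit 0, nat_lit 2, [nat_lit 10, nat_lit 5, nat_lit 5, nat_lit 20], true, nat_lit 0, nat_lit 0, nat_lit 0, nat_lit 0, ⟨nat_lit 0, nat_lit 0, nat_lit 1000, nat_lit 4, nat_lit 42, nat_lit 0, nat_lit 0, nat_lit 0, nat_lit 0, nat_lit 215, nat_lit 16017, nat_lit 246, nat_lit 66282015, nat_lit 0, nat_lit 0, nat_lit 296151, false, false⟩,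
 nat_lit 0, nat_lit 10220, nat_lit 0, nat_lit 0, nat_lit 5147, nat_lit 0, nat_lit 5, nat_lit 0, nat_lit 0, nat_lit 0, nat_lit 0, nat_lit 0, nat_lit 0, nat_lit 0, nat_lit 53, nat_lit 1000000, nat_lit 0, nat_lit 0, [(nat_lit 3, [(nat_lit 6, nat_lit 1000)])],
 ⟨p003_k4, nat_lit 0, nat_lit 0, nat_lit 280, nat_lit 0, nat_lit 126176, [nat_lit 2101142858, nat_lit 11600000], [], [nat_lit 13580098590, nat_lit 13692965764, nat_lit 12790917230, nat_lit 12904699096], nat_lit 1271250, nat_lit 1271250, nat_lit 43600, nat_lit 111251, nat_lit 0, nat_lit 0, [nat_lit 1412500, nat_lit 1271250], [nat_lit 26, nat_lit 40, nat_lit 20, nat_lit 80, nat_lit 2, nat_lit 289, nat_lit 75, nat_lit 10]⟩, C1.Rw.none,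
 ⟨nat_lit 6480, nat_lit 6520, ⟨.ofNat (nat_lit 85197), .ofNat (nat_lit 110454), .ofNat (nat_lit 95896), .ofNat (nat_lit 121153), .ofNat (nat_lit 87064), .ofNat (nat_lit 112204), .ofNat (nat_lit 97759), .ofNat (nat_lit 122899)⟩, ⟨.ofNat (nat_lit 0), .ofNat (nat_lit 0), .ofNat (nat_lit 0), .ofNat (nat_lit 0), .ofNat (nat_lit 0), .ofNat (nat_lit 0), .ofNat (nat_lit 0), .ofNat (nat_lit 0)⟩⟩, []⟩
noncomputable def p003_l152 : Lf2 := ⟨nat_lit 0, nat_lit 2, [nat_lit 10, nat_lit 5, nat_lit 5, nat_lit 20], true, nat_lit 0, nat_lit 0, nat_lit 0, nat_lit 0, ⟨nat_lit 0, nat_lit 0, nat_lit 1000, nat_lit 4, nat_lit 39, nat_lit 0, nat_lit 0, nat_lit 0, nat_lit 0, nat_lit 215, nat_lit 14017, nat_lit 244, nat_lit 66374688, nat_lit 0, nat_lit 0, nat_lit 264327, false, false⟩,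
 nat_lit 0, nat_lit 11372, nat_lit 0, nat_lit 0, nat_lit 5785, nat_lit 0, nat_lit 0, nat_lit 0, nat_lit 0, nat_lit 0, nat_lit 0, nat_lit 0, nat_lit 0, nat_lit 0, nat_lit 53, nat_lit 1000000, nat_lit 0, nat_lit 0, [(nat_lit 3, [(nat_lit 6, nat_lit 1000)])],
 ⟨p003_k35, nat_lit 0, nat_lit 0, nat_lit 283, nat_lit 0, nat_lit 129369, [nat_lit 2101142858, nat_lit 11600000], [], [nat_lit 15827365006, nat_lit 15830727791, nat_lit 15903045351, nat_lit 15755734953], nat_lit 1271250, nat_lit 1271250, nat_lit 0, nat_lit 111251, nat_lit 0, nat_lit 0, [nat_lit 1412500, nat_lit 1271250], [nat_lit 26, nat_lit 40, nat_lit 20, nat_lit 80, nat_lit 2, nat_lit 289, nat_lit 75, nat_lit 10]⟩, C1.Rw.none,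
 ⟨nat_lit 6461, nat_lit 6481, ⟨.ofNat (nat_lit 70304), .ofNat (nat_lit 112204), .ofNat (nat_lit 80999), .ofNat (nat_lit 122899), .ofNat (nat_lit 71273), .ofNat (nat_lit 113076), .ofNat (nat_lit 81967), .ofNat (nat_lit 123770)⟩, ⟨.ofNat (nat_lit 0), .ofNat (nat_lit 0), .ofNat (nat_lit 0), .ofNat (nat_lit 0), .ofNat (nat_lit 0), .ofNat (nat_lit 0), .ofNat (nat_lit 0), .ofNat (nat_lit 0)⟩⟩, [⟨nat_lit 0, nat_lit 100, nat_lit 99, nat_lit 17, nat_lit 78884313⟩]⟩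
noncomputable def p003_l153 : Lf2 := ⟨nat_lit 0, nat_lit 2, [nat_lit 10, nat_lit 5, nat_lit 5, nat_lit 20], true, nat_lit 0, nat_lit 0, nat_lit 0, nat_lit 0, ⟨nat_lit 0, nat_lit 0, nat_lit 1000, nat_lit 4, nat_lit 39, nat_lit 0, nat_lit 0, nat_lit 0, nat_lit 0, nat_lit 215, nat_lit 15000, nat_lit 245, nat_lit 66357001, nat_lit 0, nat_lit 0, nat_lit 270478, false, false⟩,
 nat_lit 0, nat_lit 11102, nat_lit 0, nat_lit 0, nat_lit 5676, nat_lit 0, nat_lit 0, nat_lit 0, nat_lit 0, nat_lit 0, nat_lit 0, nat_lit 0, nat_lit 0, nat_lit 0, nat_lit 53, nat_lit 1000000, nat_lit 0, nat_lit 0, [(nat_lit 3, [(nat_lit 6, nat_lit 1000)])],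
 ⟨p003_k36, nat_lit 0, nat_lit 0, nat_lit 284, nat_lit 0, nat_lit 137650, [nat_lit 2101142858, nat_lit 11600000], [], [nat_lit 15821397389, nat_lit 15834289332, nat_lit 15905107529, nat_lit 15616037930], nat_lit 1271250, nat_lit 1271250, nat_lit 0, nat_lit 111251, nat_lit 0, nat_lit 0, [nat_lit 1412500, nat_lit 1271250], [nat_lit 26, nat_lit 40, nat_lit 20, nat_lit 80, nat_lit 2, nat_lit 289, nat_lit 75, nat_lit 10]⟩, C1.Rw.none,
 ⟨nat_lit 6422, nat_lit 6462, ⟨.ofNat (nat_lit 71273), .ofNat (nat_lit 113076), .ofNat (nat_lit 81967), .ofNat (nat_lit 123770), .ofNat (nat_lit 73203), .ofNat (nat_lit 114814), .ofNat (nat_lit 83894), .ofNat (nat_lit 125505)⟩, ⟨.ofNat (nat_lit 0), .ofNat (nat_lit 0), .ofNat (nat_lit 0), .ofNat (nat_lit 0), .ofNat (nat_lit 0), .ofNat (nat_lit 0), .ofNat (nat_lit 0), .ofNat (nat_lit 0)⟩⟩, [⟨nat_lit 0, nat_lit 100, nat_lit 98, nat_lit 18, nat_lit 77578483⟩]⟩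
noncomputable def b_NL_550_450_0_5 : St := ⟨false, nat_lit 1, nat_lit 1, nat_lit 1, nat_lit 20, nat_lit 230, nat_lit 235, nat_lit 190, nat_lit 200, nat_lit 0, nat_lit 20, nat_lit 0, nat_lit 0, nat_lit 0, nat_lit 0, nat_lit 0, nat_lit 0, nat_lit 0, nat_lit 8, nat_lit 0, nat_lit 0, nat_lit 0, nat_lit 0⟩
theorem d_NL_550_450_0_5 (h : EB TB.env) : Dead b_NL_550_450_0_5 := chkB_sound0 h (T :=
(.spl (nat_lit 6) (nat_lit 4)
(.spl (nat_lit 1) (nat_lit 195)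
(.spl (nat_lit 0) (nat_lit 233)
(.spl (nat_lit 0) (nat_lit 232)
(.spl (nat_lit 2) (nat_lit 8)
(.spl (nat_lit 1) (nat_lit 193)
(.spl (nat_lit 0) (nat_lit 231)
(.spl (nat_lit 2) (nat_lit 4)
(.spl (nat_lit 1) (nat_lit 192)
(.leaf p003_l110)
(.spl (nat_lit 8) (nat_lit 800)
(.spl (nat_lit 7) (nat_lit 600)
(.leaf p003_l111)
(.leaf p003_l112))
(.leaf p003_l113)))
(.leaf p003_l114))
(.leaf p003_l115))
(.spl (nat_lit 2) (nat_lit 4)
(.spl (nat_lit 0) (nat_lit 231)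
(.spl (nat_lit 1) (nat_lit 194)
(.spl (nat_lit 8) (nat_lit 800)
(.spl (nat_lit 7) (nat_lit 600)
(.leaf p003_l116)
(.leaf p003_l117))
(.leaf p003_l118))
(.spl (nat_lit 8) (nat_lit 800)
(.spl (nat_lit 7) (nat_lit 600)
(.leaf p003_l119)
(.leaf p003_l120))
(.leaf p003_l121)))
(.spl (nat_lit 1) (nat_lit 194)
(.leaf p003_l122)
(.spl (nat_lit 8) (nat_lit 800)
(.spl (nat_lit 7) (nat_lit 600)
(.leaf p003_l123)
(.leaf p003_l124))
(.leaf p003_l125))))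
(.spl (nat_lit 0) (nat_lit 231)
(.spl (nat_lit 1) (nat_lit 194)
(.leaf p003_l126)
(.spl (nat_lit 8) (nat_lit 800)
(.spl (nat_lit 7) (nat_lit 600)
(.leaf p003_l127)
(.leaf p003_l128))
(.leaf p003_l129)))
(.leaf p003_l130))))
(.leaf p003_l131))
(.spl (nat_lit 2) (nat_lit 8)
(.leaf p003_l132)
(.leaf p003_l133)))
(.leaf p003_l134))
(.spl (nat_lit 8) (nat_lit 800)
(.spl (nat_lit 7) (nat_lit 600)
(.leaf p003_l135)
(.leaf p003_l136))
(.leaf p003_l137)))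
(.spl (nat_lit 0) (nat_lit 233)
(.spl (nat_lit 0) (nat_lit 232)
(.spl (nat_lit 2) (nat_lit 8)
(.spl (nat_lit 2) (nat_lit 4)
(.spl (nat_lit 1) (nat_lit 195)
(.leaf p003_l138)
(.spl (nat_lit 1) (nat_lit 198)
(.leaf p003_l139)
(.spl (nat_lit 0) (nat_lit 231)
(.spl (nat_lit 1) (nat_lit 199)
(.spl (nat_lit 8) (nat_lit 800)
(.spl (nat_lit 7) (nat_lit 600)
(.leaf p003_l140)
(.leaf p003_l141))
(.leaf p003_l142))
(.spl (nat_lit 8) (nat_lit 800)
(.spl (nat_lit 7) (nat_lit 600)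
(.leaf p003_l143)
(.leaf p003_l144))
(.leaf p003_l145)))
(.spl (nat_lit 1) (nat_lit 199)
(.leaf p003_l146)
(.spl (nat_lit 8) (nat_lit 800)
(.spl (nat_lit 7) (nat_lit 600)
(.leaf p003_l147)
(.leaf p003_l148))
(.leaf p003_l149))))))
(.leaf p003_l150))
(.leaf p003_l151))
(.leaf p003_l152))
(.leaf p003_l153)))) (by decide +kernel)
noncomputable def p003_l154 : Lf2 := ⟨nat_lit 0, nat_lit 1, [nat_lit 19, nat_lit 5, nat_lit 5, nat_lit 20], true, nat_lit 0, nat_lit 0, nat_lit 0, nat_lit 0, ⟨nat_lit 0, nat_lit 0, nat_lit 1000, nat_lit 4, nat_lit 34, nat_lit 0, nat_lit 0, nat_lit 0, nat_lit 0, nat_lit 215, nat_lit 11267, nat_lit 241, nat_lit 66517826, nat_lit 0, nat_lit 0, nat_lit 212987, false, false⟩,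
 nat_lit 0, nat_lit 10692, nat_lit 0, nat_lit 0, nat_lit 5522, nat_lit 0, nat_lit 0, nat_lit 0, nat_lit 0, nat_lit 0, nat_lit 0, nat_lit 0, nat_lit 0, nat_lit 0, nat_lit 53, nat_lit 1000000, nat_lit 0, nat_lit 0, [(nat_lit 3, [(nat_lit 6, nat_lit 1000)])],
 ⟨p003_k37, nat_lit 0, nat_lit 0, nat_lit 286, nat_lit 0, nat_lit 176327, [nat_lit 2101142858, nat_lit 11600000], [], [nat_lit 15739324367, nat_lit 15754433211, nat_lit 15754073408, nat_lit 15471596381], nat_lit 1271250, nat_lit 1271250, nat_lit 0, nat_lit 43600, nat_lit 0, nat_lit 0, [nat_lit 1412500, nat_lit 1271250], [nat_lit 26, nat_lit 40, nat_lit 20, nat_lit 80, nat_lit 2, nat_lit 289, nat_lit 75, nat_lit 10]⟩, C1.Rw.none,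
 ⟨nat_lit 6383, nat_lit 6423, ⟨.ofNat (nat_lit 73203), .ofNat (nat_lit 89848), .ofNat (nat_lit 78549), .ofNat (nat_lit 95193), .ofNat (nat_lit 75126), .ofNat (nat_lit 91693), .ofNat (nat_lit 80470), .ofNat (nat_lit 97037)⟩, ⟨.ofNat (nat_lit 0), .ofNat (nat_lit 0), .ofNat (nat_lit 0), .ofNat (nat_lit 0), .ofNat (nat_lit 0), .ofNat (nat_lit 0), .ofNat (nat_lit 0), .ofNat (nat_lit 0)⟩⟩, [⟨nat_lit 0, nat_lit 100, nat_lit 98, nat_lit 16, nat_lit 87061262⟩]⟩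
noncomputable def p003_l155 : Lf2 := ⟨nat_lit 0, nat_lit 1, [nat_lit 19, nat_lit 5, nat_lit 5, nat_lit 20], true, nat_lit 0, nat_lit 0, nat_lit 0, nat_lit 0, ⟨nat_lit 0, nat_lit 0, nat_lit 1000, nat_lit 4, nat_lit 36, nat_lit 0, nat_lit 0, nat_lit 0, nat_lit 0, nat_lit 215, nat_lit 12150, nat_lit 242, nat_lit 66468575, nat_lit 0, nat_lit 0, nat_lit 230985, false, false⟩,
 nat_lit 0, nat_lit 10693, nat_lit 0, nat_lit 0, nat_lit 5522, nat_lit 0, nat_lit 0, nat_lit 0, nat_lit 0, nat_lit 0, nat_lit 0, nat_lit 0, nat_lit 0, nat_lit 0, nat_lit 53, nat_lit 1000000, nat_lit 0, nat_lit 0, [(nat_lit 3, [(nat_lit 6, nat_lit 1000)])],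
 ⟨p003_k37, nat_lit 0, nat_lit 0, nat_lit 288, nat_lit 0, nat_lit 183911, [nat_lit 2101142858, nat_lit 11600000], [], [nat_lit 15739324367, nat_lit 15754433211, nat_lit 15754073408, nat_lit 15471596381], nat_lit 1271250, nat_lit 1271250, nat_lit 0, nat_lit 43600, nat_lit 0, nat_lit 0, [nat_lit 1412500, nat_lit 1271250], [nat_lit 26, nat_lit 40, nat_lit 20, nat_lit 80, nat_lit 2, nat_lit 289, nat_lit 75, nat_lit 10]⟩, C1.Rw.none,
 ⟨nat_lit 6383, nat_lit 6423, ⟨.ofNat (nat_lit 78549), .ofNat (nat_lit 95193), .ofNat (nat_lit 81756), .ofNat (nat_lit 98400), .ofNat (nat_lit 80470), .ofNat (nat_lit 97037), .ofNat (nat_lit 83676), .ofNat (nat_lit 100243)⟩, ⟨.ofNat (nat_lit 0), .ofNat (nat_lit 0), .ofNat (nat_lit 0), .ofNat (nat_lit 0), .ofNat (nat_lit 0), .ofNat (nat_lit 0), .ofNat (nat_lit 0), .ofNat (nat_lit 0)⟩⟩, [⟨nat_lit 0, nat_lit 100, nat_lit 98, nat_lit 16, nat_lit 88320388⟩]⟩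
noncomputable def p003_l156 : Lf2 := ⟨nat_lit 0, nat_lit 1, [nat_lit 19, nat_lit 5, nat_lit 5, nat_lit 20], true, nat_lit 0, nat_lit 0, nat_lit 0, nat_lit 0, ⟨nat_lit 0, nat_lit 0, nat_lit 1000, nat_lit 4, nat_lit 35, nat_lit 0, nat_lit 0, nat_lit 0, nat_lit 0, nat_lit 215, nat_lit 11267, nat_lit 241, nat_lit 66497522, nat_lit 0, nat_lit 0, nat_lit 220460, false, false⟩,
 nat_lit 0, nat_lit 9077, nat_lit 0, nat_lit 0, nat_lit 4688, nat_lit 0, nat_lit 0, nat_lit 0, nat_lit 0, nat_lit 0, nat_lit 0, nat_lit 0, nat_lit 0, nat_lit 0, nat_lit 21, nat_lit 1000000, nat_lit 0, nat_lit 0, [(nat_lit 3, [(nat_lit 6, nat_lit 1000)])],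
 ⟨p003_k40, nat_lit 0, nat_lit 0, nat_lit 0, nat_lit 0, nat_lit 181928, [nat_lit 1315028572, nat_lit 12000000], [], [nat_lit 14175142036, nat_lit 14198288250, nat_lit 14180276316, nat_lit 14057465249], nat_lit 1271250, nat_lit 1271250, nat_lit 0, nat_lit 21650, nat_lit 0, nat_lit 0, [nat_lit 1271250, nat_lit 1271250], [nat_lit 155, nat_lit 40, nat_lit 20, nat_lit 40]⟩, C1.Rw.none,
 ⟨nat_lit 6403, nat_lit 6423, ⟨.ofNat (nat_lit 81756), .ofNat (nat_lit 90078), .ofNat (nat_lit 82825), .ofNat (nat_lit 91147), .ofNat (nat_lit 82717), .ofNat (nat_lit 91020), .ofNat (nat_lit 83786), .ofNat (nat_lit 92089)⟩, ⟨.ofNat (nat_lit 0), .ofNat (nat_lit 0), .ofNat (nat_lit 0), .ofNat (nat_lit 0), .ofNat (nat_lit 0), .ofNat (nat_lit 0), .ofNat (nat_lit 0), .ofNat (nat_lit 0)⟩⟩, [⟨nat_lit 0, nat_lit 100, nat_lit 98, nat_lit 17, nat_lit 91102441⟩]⟩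
noncomputable def p003_l157 : Lf2 := ⟨nat_lit 0, nat_lit 1, [nat_lit 19, nat_lit 5, nat_lit 5, nat_lit 20], true, nat_lit 0, nat_lit 0, nat_lit 0, nat_lit 0, ⟨nat_lit 0, nat_lit 0, nat_lit 1000, nat_lit 4, nat_lit 35, nat_lit 0, nat_lit 0, nat_lit 0, nat_lit 0, nat_lit 215, nat_lit 11267, nat_lit 241, nat_lit 66497522, nat_lit 0, nat_lit 0, nat_lit 220460, false, false⟩,
 nat_lit 0, nat_lit 100000, nat_lit 0, nat_lit 0, nat_lit 51648, nat_lit 0, nat_lit 0, nat_lit 2129, nat_lit 0, nat_lit 0, nat_lit 0, nat_lit 0, nat_lit 0, nat_lit 0, nat_lit 0, nat_lit 1000000, nat_lit 0, nat_lit 0, [(nat_lit 3, [(nat_lit 6, nat_lit 1000)])],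
 ⟨p003_k37, nat_lit 0, nat_lit 0, nat_lit 287, nat_lit 0, nat_lit 181928, [nat_lit 43621142858, nat_lit 49835600000], [], [nat_lit 88006658298, nat_lit 88283837425, nat_lit 85023510065, nat_lit 85213720790], nat_lit 1271250, nat_lit 1271250, nat_lit 0, nat_lit 21650, nat_lit 0, nat_lit 0, [nat_lit 1412500, nat_lit 1271250], [nat_lit 26, nat_lit 40, nat_lit 20, nat_lit 80, nat_lit 2, nat_lit 272, nat_lit 60, nat_lit 10]⟩, C1.Rw.none,
 ⟨nat_lit 6403, nat_lit 6423, ⟨.ofNat (nat_lit 81756), .ofNat (nat_lit 90078), .ofNat (nat_lit 82825), .ofNat (nat_lit 91147), .ofNat (nat_lit 82717), .ofNat (nat_lit 91020), .ofNat (nat_lit 83786), .ofNat (nat_lit 92089)⟩, ⟨.ofNat (nat_lit 0), .ofNat (nat_lit 0), .ofNat (nat_lit 0), .ofNat (nat_lit 0), .ofNat (nat_lit 0), .ofNat (nat_lit 0), .ofNat (nat_lit 0), .ofNat (nat_lit 0)⟩⟩, [⟨nat_lit 0, nat_lit 100, nat_lit 98, nat_lit 17, nat_lit 10204081633⟩,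 ⟨nat_lit 0, nat_lit 100, nat_lit 98, nat_lit 18, nat_lit 10204081633⟩, ⟨nat_lit 0, nat_lit 100, nat_lit 98, nat_lit 17, nat_lit 10204081633⟩, ⟨nat_lit 13, nat_lit 98, nat_lit 18, nat_lit 100, nat_lit 113507253⟩]⟩
noncomputable def p003_l158 : Lf2 := ⟨nat_lit 3, nat_lit 1, [nat_lit 19, nat_lit 5, nat_lit 5, nat_lit 20], false, nat_lit 0, nat_lit 0, nat_lit 0, nat_lit 0, zbN0,
 nat_lit 0, nat_lit 0, nat_lit 0, nat_lit 0, nat_lit 0, nat_lit 0, nat_lit 0, nat_lit 0, nat_lit 0, nat_lit 0, nat_lit 0, nat_lit 0, nat_lit 0, nat_lit 0, nat_lit 0, nat_lit 0, nat_lit 0, nat_lit 0, [],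
 C1.Rw.none, ⟨p003_k39, nat_lit 0, nat_lit 0, nat_lit 421, nat_lit 0, nat_lit 222453, [], [], [], nat_lit 1271250, nat_lit 1271250, nat_lit 0, nat_lit 21650, nat_lit 0, nat_lit 0, [nat_lit 1695000, nat_lit 1271250], [nat_lit 77, nat_lit 40, nat_lit 20, nat_lit 80, nat_lit 17, nat_lit 272, nat_lit 60, nat_lit 9]⟩,
 zbF0, []⟩
noncomputable def p003_l159 : Lf2 := ⟨nat_lit 0, nat_lit 1, [nat_lit 19, nat_lit 5, nat_lit 5, nat_lit 20], true, nat_lit 0, nat_lit 0, nat_lit 0, nat_lit 0, ⟨nat_lit 0, nat_lit 0, nat_lit 1000, nat_lit 4, nat_lit 35, nat_lit 0, nat_lit 0, nat_lit 0, nat_lit 0, nat_lit 215, nat_lit 11267, nat_lit 241, nat_lit 66485183, nat_lit 0, nat_lit 0, nat_lit 224959, false, false⟩,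
 nat_lit 0, nat_lit 9352, nat_lit 0, nat_lit 0, nat_lit 4830, nat_lit 0, nat_lit 0, nat_lit 0, nat_lit 0, nat_lit 0, nat_lit 0, nat_lit 0, nat_lit 0, nat_lit 0, nat_lit 21, nat_lit 1000000, nat_lit 0, nat_lit 0, [(nat_lit 3, [(nat_lit 6, nat_lit 1000)])],
 ⟨p003_k40, nat_lit 0, nat_lit 0, nat_lit 0, nat_lit 0, nat_lit 184477, [nat_lit 1315028572, nat_lit 12000000], [], [nat_lit 14359409310, nat_lit 14447185736, nat_lit 13964083091, nat_lit 14005243077], nat_lit 1271250, nat_lit 1271250, nat_lit 0, nat_lit 21650, nat_lit 0, nat_lit 0, [nat_lit 1271250, nat_lit 1271250], [nat_lit 155, nat_lit 40, nat_lit 20, nat_lit 40]⟩, C1.Rw.none,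
 ⟨nat_lit 6403, nat_lit 6423, ⟨.ofNat (nat_lit 82825), .ofNat (nat_lit 91147), .ofNat (nat_lit 83894), .ofNat (nat_lit 92216), .ofNat (nat_lit 83786), .ofNat (nat_lit 92089), .ofNat (nat_lit 84855), .ofNat (nat_lit 93158)⟩, ⟨.ofNat (nat_lit 0), .ofNat (nat_lit 0), .ofNat (nat_lit 0), .ofNat (nat_lit 0), .ofNat (nat_lit 0), .ofNat (nat_lit 0), .ofNat (nat_lit 0), .ofNat (nat_lit 0)⟩⟩, [⟨nat_lit 0, nat_lit 100, nat_lit 98, nat_lit 18, nat_lit 660921250⟩]⟩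
noncomputable def p003_l160 : Lf2 := ⟨nat_lit 0, nat_lit 1, [nat_lit 19, nat_lit 5, nat_lit 5, nat_lit 20], true, nat_lit 0, nat_lit 0, nat_lit 0, nat_lit 0, ⟨nat_lit 0, nat_lit 0, nat_lit 1000, nat_lit 4, nat_lit 35, nat_lit 0, nat_lit 0, nat_lit 0, nat_lit 0, nat_lit 215, nat_lit 11267, nat_lit 241, nat_lit 66485183, nat_lit 0, nat_lit 0, nat_lit 224959, false, false⟩,
 nat_lit 0, nat_lit 100000, nat_lit 0, nat_lit 0, nat_lit 51648, nat_lit 0, nat_lit 0, nat_lit 2129, nat_lit 0, nat_lit 0, nat_lit 0, nat_lit 0, nat_lit 0, nat_lit 0, nat_lit 0, nat_lit 1000000, nat_lit 0, nat_lit 0, [(nat_lit 3, [(nat_lit 6, nat_lit 1000)])],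
 ⟨p003_k37, nat_lit 0, nat_lit 0, nat_lit 288, nat_lit 0, nat_lit 184477, [nat_lit 43621142858, nat_lit 49835600000], [], [nat_lit 88006658298, nat_lit 88283837425, nat_lit 85023510065, nat_lit 85213720790], nat_lit 1271250, nat_lit 1271250, nat_lit 0, nat_lit 21650, nat_lit 0, nat_lit 0, [nat_lit 1412500, nat_lit 1271250], [nat_lit 26, nat_lit 40, nat_lit 20, nat_lit 80, nat_lit 2, nat_lit 272, nat_lit 60, nat_lit 10]⟩, C1.Rw.none,
 ⟨nat_lit 6403, nat_lit 6423, ⟨.ofNat (nat_lit 82825), .ofNat (nat_lit 91147), .ofNat (nat_lit 83894), .ofNat (nat_lit 92216), .ofNat (nat_lit 83786), .ofNat (nat_lit 92089), .ofNat (nat_lit 84855), .ofNat (nat_lit 93158)⟩, ⟨.ofNat (nat_lit 0), .ofNat (nat_lit 0), .ofNat (nat_lit 0), .ofNat (nat_lit 0), .ofNat (nat_lit 0), .ofNat (nat_lit 0), .ofNat (nat_lit 0), .ofNat (nat_lit 0)⟩⟩, [⟨nat_lit 0, nat_lit 100, nat_lit 98, nat_lit 18, nat_lit 10204081633⟩,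 ⟨nat_lit 0, nat_lit 100, nat_lit 98, nat_lit 18, nat_lit 10204081633⟩, ⟨nat_lit 0, nat_lit 100, nat_lit 98, nat_lit 17, nat_lit 10204081633⟩, ⟨nat_lit 13, nat_lit 98, nat_lit 18, nat_lit 100, nat_lit 119094359⟩]⟩
noncomputable def p003_l161 : Lf2 := ⟨nat_lit 3, nat_lit 1, [nat_lit 19, nat_lit 5, nat_lit 5, nat_lit 20], false, nat_lit 0, nat_lit 0, nat_lit 0, nat_lit 0, zbN0,
 nat_lit 0, nat_lit 0, nat_lit 0, nat_lit 0, nat_lit 0, nat_lit 0, nat_lit 0, nat_lit 0, nat_lit 0, nat_lit 0, nat_lit 0, nat_lit 0, nat_lit 0, nat_lit 0, nat_lit 0, nat_lit 0, nat_lit 0, nat_lit 0, [],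
 C1.Rw.none, ⟨p003_k41, nat_lit 0, nat_lit 0, nat_lit 422, nat_lit 0, nat_lit 224254, [], [], [], nat_lit 1271250, nat_lit 1271250, nat_lit 0, nat_lit 21650, nat_lit 0, nat_lit 0, [nat_lit 1695000, nat_lit 1271250], [nat_lit 77, nat_lit 40, nat_lit 20, nat_lit 80, nat_lit 17, nat_lit 272, nat_lit 60, nat_lit 9]⟩,
 zbF0, []⟩
noncomputable def p003_l162 : Lf2 := ⟨nat_lit 0, nat_lit 1, [nat_lit 19, nat_lit 5, nat_lit 5, nat_lit 20], true, nat_lit 0, nat_lit 0, nat_lit 0, nat_lit 0, ⟨nat_lit 0, nat_lit 0, nat_lit 1000, nat_lit 4, nat_lit 38, nat_lit 0, nat_lit 0, nat_lit 0, nat_lit 0, nat_lit 215, nat_lit 14017, nat_lit 244, nat_lit 66397732, nat_lit 0, nat_lit 0, nat_lit 256253, false, false⟩,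
 nat_lit 0, nat_lit 11072, nat_lit 0, nat_lit 0, nat_lit 5718, nat_lit 0, nat_lit 0, nat_lit 0, nat_lit 0, nat_lit 0, nat_lit 0, nat_lit 0, nat_lit 0, nat_lit 0, nat_lit 53, nat_lit 1000000, nat_lit 0, nat_lit 0, [(nat_lit 3, [(nat_lit 6, nat_lit 1000)])],
 ⟨p003_k37, nat_lit 0, nat_lit 0, nat_lit 284, nat_lit 0, nat_lit 181928, [nat_lit 2101142858, nat_lit 11600000], [], [nat_lit 15473658205, nat_lit 15474688570, nat_lit 15482230169, nat_lit 15335978482], nat_lit 1271250, nat_lit 1271250, nat_lit 21650, nat_lit 43600, nat_lit 0, nat_lit 0, [nat_lit 1412500, nat_lit 1271250], [nat_lit 26, nat_lit 40, nat_lit 20, nat_lit 80, nat_lit 2, nat_lit 289, nat_lit 75, nat_lit 10]⟩, C1.Rw.none,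
 ⟨nat_lit 6403, nat_lit 6423, ⟨.ofNat (nat_lit 90078), .ofNat (nat_lit 98400), .ofNat (nat_lit 91147), .ofNat (nat_lit 99469), .ofNat (nat_lit 91020), .ofNat (nat_lit 99323), .ofNat (nat_lit 92089), .ofNat (nat_lit 100392)⟩, ⟨.ofNat (nat_lit 0), .ofNat (nat_lit 0), .ofNat (nat_lit 0), .ofNat (nat_lit 0), .ofNat (nat_lit 0), .ofNat (nat_lit 0), .ofNat (nat_lit 0), .ofNat (nat_lit 0)⟩⟩, []⟩
noncomputable def p003_l163 : Lf2 := ⟨nat_lit 0, nat_lit 1, [nat_lit 19, nat_lit 5, nat_lit 5, nat_lit 20], true, nat_lit 0, nat_lit 0, nat_lit 0, nat_lit 0, ⟨nat_lit 0, nat_lit 0, nat_lit 1000, nat_lit 4, nat_lit 39, nat_lit 0, nat_lit 0, nat_lit 0, nat_lit 0, nat_lit 215, nat_lit 14017, nat_lit 244, nat_lit 66384261, nat_lit 0, nat_lit 0, nat_lit 260982, false, false⟩,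
 nat_lit 0, nat_lit 9338, nat_lit 0, nat_lit 0, nat_lit 4822, nat_lit 0, nat_lit 0, nat_lit 0, nat_lit 0, nat_lit 0, nat_lit 0, nat_lit 0, nat_lit 0, nat_lit 0, nat_lit 21, nat_lit 1000000, nat_lit 0, nat_lit 0, [(nat_lit 3, [(nat_lit 6, nat_lit 1000)])],
 ⟨p003_k40, nat_lit 0, nat_lit 0, nat_lit 0, nat_lit 0, nat_lit 184477, [nat_lit 1315028572, nat_lit 12000000], [], [nat_lit 13976262991, nat_lit 13992004830, nat_lit 13986055086, nat_lit 13859924104], nat_lit 1271250, nat_lit 1271250, nat_lit 21650, nat_lit 43600, nat_lit 0, nat_lit 0, [nat_lit 1271250, nat_lit 1271250], [nat_lit 155, nat_lit 40, nat_lit 20, nat_lit 40]⟩, C1.Rw.none,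
 ⟨nat_lit 6403, nat_lit 6423, ⟨.ofNat (nat_lit 91147), .ofNat (nat_lit 99469), .ofNat (nat_lit 92216), .ofNat (nat_lit 100538), .ofNat (nat_lit 92089), .ofNat (nat_lit 100392), .ofNat (nat_lit 93158), .ofNat (nat_lit 101461)⟩, ⟨.ofNat (nat_lit 0), .ofNat (nat_lit 0), .ofNat (nat_lit 0), .ofNat (nat_lit 0), .ofNat (nat_lit 0), .ofNat (nat_lit 0), .ofNat (nat_lit 0), .ofNat (nat_lit 0)⟩⟩, []⟩
noncomputable def p003_l164 : Lf2 := ⟨nat_lit 0, nat_lit 1, [nat_lit 19, nat_lit 5, nat_lit 5, nat_lit 20], true, nat_lit 0, nat_lit 0, nat_lit 0, nat_lit 0, ⟨nat_lit 0, nat_lit 0, nat_lit 1000, nat_lit 4, nat_lit 39, nat_lit 0, nat_lit 0, nat_lit 0, nat_lit 0, nat_lit 215, nat_lit 14017, nat_lit 244, nat_lit 66384261, nat_lit 0, nat_lit 0, nat_lit 260982, false, false⟩,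
 nat_lit 0, nat_lit 100000, nat_lit 0, nat_lit 0, nat_lit 51648, nat_lit 0, nat_lit 4562, nat_lit 2129, nat_lit 0, nat_lit 0, nat_lit 0, nat_lit 0, nat_lit 0, nat_lit 0, nat_lit 0, nat_lit 1000000, nat_lit 0, nat_lit 0, [(nat_lit 3, [(nat_lit 6, nat_lit 1000)])],
 ⟨p003_k37, nat_lit 0, nat_lit 0, nat_lit 284, nat_lit 0, nat_lit 184477, [nat_lit 43621142858, nat_lit 49835600000], [], [nat_lit 80147202763, nat_lit 78826920790, nat_lit 79519373240, nat_lit 78198350652], nat_lit 1271250, nat_lit 1271250, nat_lit 21650, nat_lit 43600, nat_lit 0, nat_lit 0, [nat_lit 1412500, nat_lit 1271250], [nat_lit 26, nat_lit 40, nat_lit 20, nat_lit 80, nat_lit 2, nat_lit 289, nat_lit 75, nat_lit 10]⟩, C1.Rw.none,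
 ⟨nat_lit 6403, nat_lit 6423, ⟨.ofNat (nat_lit 91147), .ofNat (nat_lit 99469), .ofNat (nat_lit 92216), .ofNat (nat_lit 100538), .ofNat (nat_lit 92089), .ofNat (nat_lit 100392), .ofNat (nat_lit 93158), .ofNat (nat_lit 101461)⟩, ⟨.ofNat (nat_lit 0), .ofNat (nat_lit 0), .ofNat (nat_lit 0), .ofNat (nat_lit 0), .ofNat (nat_lit 0), .ofNat (nat_lit 0), .ofNat (nat_lit 0), .ofNat (nat_lit 0)⟩⟩, [⟨nat_lit 13, nat_lit 98, nat_lit 18, nat_lit 100, nat_lit 260075274⟩]⟩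
noncomputable def p003_l165 : Lf2 := ⟨nat_lit 3, nat_lit 1, [nat_lit 19, nat_lit 5, nat_lit 5, nat_lit 20], false, nat_lit 0, nat_lit 0, nat_lit 0, nat_lit 0, zbN0,
 nat_lit 0, nat_lit 0, nat_lit 0, nat_lit 0, nat_lit 0, nat_lit 0, nat_lit 0, nat_lit 0, nat_lit 0, nat_lit 0, nat_lit 0, nat_lit 0, nat_lit 0, nat_lit 0, nat_lit 0, nat_lit 0, nat_lit 0, nat_lit 0, [],
 C1.Rw.none, ⟨p003_k41, nat_lit 0, nat_lit 0, nat_lit 385, nat_lit 0, nat_lit 224254, [], [], [], nat_lit 1271250, nat_lit 1271250, nat_lit 21650, nat_lit 43600, nat_lit 0, nat_lit 0, [nat_lit 1695000, nat_lit 1271250], [nat_lit 77, nat_lit 40, nat_lit 20, nat_lit 80, nat_lit 17, nat_lit 272, nat_lit 60, nat_lit 9]⟩,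
 zbF0, []⟩
noncomputable def p003_l166 : Lf2 := ⟨nat_lit 0, nat_lit 1, [nat_lit 19, nat_lit 5, nat_lit 5, nat_lit 20], true, nat_lit 0, nat_lit 0, nat_lit 0, nat_lit 0, ⟨nat_lit 0, nat_lit 0, nat_lit 1000, nat_lit 4, nat_lit 35, nat_lit 0, nat_lit 0, nat_lit 0, nat_lit 0, nat_lit 215, nat_lit 11267, nat_lit 241, nat_lit 66486558, nat_lit 0, nat_lit 0, nat_lit 224460, false, false⟩,
 nat_lit 0, nat_lit 10549, nat_lit 0, nat_lit 0, nat_lit 5475, nat_lit 0, nat_lit 0, nat_lit 0, nat_lit 0, nat_lit 0, nat_lit 0, nat_lit 0, nat_lit 0, nat_lit 0, nat_lit 53, nat_lit 1000000, nat_lit 0, nat_lit 0, [(nat_lit 3, [(nat_lit 6, nat_lit 1000)])],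
 ⟨p003_k43, nat_lit 0, nat_lit 0, nat_lit 288, nat_lit 0, nat_lit 185500, [nat_lit 2101142858, nat_lit 11600000], [], [nat_lit 15662702785, nat_lit 15671607866, nat_lit 15667078358, nat_lit 15526835357], nat_lit 1271250, nat_lit 1271250, nat_lit 0, nat_lit 21650, nat_lit 0, nat_lit 0, [nat_lit 1412500, nat_lit 1271250], [nat_lit 26, nat_lit 40, nat_lit 20, nat_lit 80, nat_lit 2, nat_lit 289, nat_lit 75, nat_lit 10]⟩, C1.Rw.none,
 ⟨nat_lit 6383, nat_lit 6404, ⟨.ofNat (nat_lit 82717), .ofNat (nat_lit 91020), .ofNat (nat_lit 83786), .ofNat (nat_lit 92089), .ofNat (nat_lit 83676), .ofNat (nat_lit 91960), .ofNat (nat_lit 84745), .ofNat (nat_lit 93029)⟩, ⟨.ofNat (nat_lit 0), .ofNat (nat_lit 0), .ofNat (nat_lit 0), .ofNat (nat_lit 0), .ofNat (nat_lit 0), .ofNat (nat_lit 0), .ofNat (nat_lit 0), .ofNat (nat_lit 0)⟩⟩, [⟨nat_lit 0, nat_lit 100, nat_lit 98, nat_lit 18, nat_lit 91597334⟩]⟩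
noncomputable def p003_l167 : Lf2 := ⟨nat_lit 0, nat_lit 1, [nat_lit 19, nat_lit 5, nat_lit 5, nat_lit 20], true, nat_lit 0, nat_lit 0, nat_lit 0, nat_lit 0, ⟨nat_lit 0, nat_lit 0, nat_lit 1000, nat_lit 4, nat_lit 36, nat_lit 0, nat_lit 0, nat_lit 0, nat_lit 0, nat_lit 215, nat_lit 12150, nat_lit 242, nat_lit 66474090, nat_lit 0, nat_lit 0, nat_lit 228996, false, false⟩,
 nat_lit 0, nat_lit 9178, nat_lit 0, nat_lit 0, nat_lit 4763, nat_lit 0, nat_lit 0, nat_lit 0, nat_lit 0, nat_lit 0, nat_lit 0, nat_lit 0, nat_lit 0, nat_lit 0, nat_lit 21, nat_lit 1000000, nat_lit 0, nat_lit 0, [(nat_lit 3, [(nat_lit 6, nat_lit 1000)])],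
 ⟨p003_k48, nat_lit 0, nat_lit 0, nat_lit 0, nat_lit 0, nat_lit 188015, [nat_lit 1315028572, nat_lit 12000000], [], [nat_lit 14329748190, nat_lit 14416891989, nat_lit 13941313919, nat_lit 13981700437], nat_lit 1271250, nat_lit 1271250, nat_lit 0, nat_lit 21650, nat_lit 0, nat_lit 0, [nat_lit 1271250, nat_lit 1271250], [nat_lit 155, nat_lit 40, nat_lit 20, nat_lit 40]⟩, C1.Rw.none,
 ⟨nat_lit 6383, nat_lit 6404, ⟨.ofNat (nat_lit 83786), .ofNat (nat_lit 92089), .ofNat (nat_lit 84855), .ofNat (nat_lit 93158), .ofNat (nat_lit 84745), .ofNat (nat_lit 93029), .ofNat (nat_lit 85814), .ofNat (nat_lit 94097)⟩, ⟨.ofNat (nat_lit 0), .ofNat (nat_lit 0), .ofNat (nat_lit 0), .ofNat (nat_lit 0), .ofNat (nat_lit 0), .ofNat (nat_lit 0), .ofNat (nat_lit 0), .ofNat (nat_lit 0)⟩⟩, [⟨nat_lit 0, nat_lit 100, nat_lit 98, nat_lit 18, nat_lit 652718919⟩]⟩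
noncomputable def p003_l168 : Lf2 := ⟨nat_lit 0, nat_lit 1, [nat_lit 19, nat_lit 5, nat_lit 5, nat_lit 20], true, nat_lit 0, nat_lit 0, nat_lit 0, nat_lit 0, ⟨nat_lit 0, nat_lit 0, nat_lit 1000, nat_lit 4, nat_lit 36, nat_lit 0, nat_lit 0, nat_lit 0, nat_lit 0, nat_lit 215, nat_lit 12150, nat_lit 242, nat_lit 66474090, nat_lit 0, nat_lit 0, nat_lit 228996, false, false⟩,
 nat_lit 0, nat_lit 100000, nat_lit 0, nat_lit 0, nat_lit 51906, nat_lit 0, nat_lit 0, nat_lit 2146, nat_lit 0, nat_lit 0, nat_lit 0, nat_lit 0, nat_lit 0, nat_lit 0, nat_lit 0, nat_lit 1000000, nat_lit 0, nat_lit 0, [(nat_lit 3, [(nat_lit 6, nat_lit 1000)])],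
 ⟨p003_k43, nat_lit 0, nat_lit 0, nat_lit 289, nat_lit 0, nat_lit 188015, [nat_lit 43961142858, nat_lit 50243600000], [], [nat_lit 88921742839, nat_lit 89200146640, nat_lit 85932706850, nat_lit 86119677819], nat_lit 1271250, nat_lit 1271250, nat_lit 0, nat_lit 21650, nat_lit 0, nat_lit 0, [nat_lit 1412500, nat_lit 1271250], [nat_lit 26, nat_lit 40, nat_lit 20, nat_lit 80, nat_lit 2, nat_lit 289, nat_lit 75, nat_lit 10]⟩, C1.Rw.none,
 ⟨nat_lit 6383, nat_lit 6404, ⟨.ofNat (nat_lit 83786), .ofNat (nat_lit 92089), .ofNat (nat_lit 84855), .ofNat (nat_lit 93158), .ofNat (nat_lit 84745), .ofNat (nat_lit 93029), .ofNat (nat_lit 85814), .ofNat (nat_lit 94097)⟩, ⟨.ofNat (nat_lit 0), .ofNat (nat_lit 0), .ofNat (nat_lit 0), .ofNat (nat_lit 0), .ofNat (nat_lit 0), .ofNat (nat_lit 0), .ofNat (nat_lit 0), .ofNat (nat_lit 0)⟩⟩, [⟨nat_lit 0, nat_lit 100, nat_lit 98, nat_lit 18, nat_lit 10204081633⟩,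 ⟨nat_lit 0, nat_lit 100, nat_lit 98, nat_lit 19, nat_lit 10204081633⟩, ⟨nat_lit 0, nat_lit 100, nat_lit 98, nat_lit 18, nat_lit 10204081633⟩, ⟨nat_lit 13, nat_lit 98, nat_lit 18, nat_lit 100, nat_lit 123445244⟩]⟩
noncomputable def p003_l169 : Lf2 := ⟨nat_lit 3, nat_lit 1, [nat_lit 19, nat_lit 5, nat_lit 5, nat_lit 20], false, nat_lit 0, nat_lit 0, nat_lit 0, nat_lit 0, zbN0,
 nat_lit 0, nat_lit 0, nat_lit 0, nat_lit 0, nat_lit 0, nat_lit 0, nat_lit 0, nat_lit 0, nat_lit 0, nat_lit 0, nat_lit 0, nat_lit 0, nat_lit 0, nat_lit 0, nat_lit 0, nat_lit 0, nat_lit 0, nat_lit 0, [],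
 C1.Rw.none, ⟨p003_k41, nat_lit 0, nat_lit 0, nat_lit 424, nat_lit 0, nat_lit 229711, [], [], [], nat_lit 1271250, nat_lit 1271250, nat_lit 0, nat_lit 21650, nat_lit 0, nat_lit 0, [nat_lit 1695000, nat_lit 1271250], [nat_lit 77, nat_lit 40, nat_lit 20, nat_lit 80, nat_lit 17, nat_lit 272, nat_lit 60, nat_lit 9]⟩,
 zbF0, []⟩
noncomputable def p003_l170 : Lf2 := ⟨nat_lit 0, nat_lit 1, [nat_lit 19, nat_lit 5, nat_lit 5, nat_lit 20], true, nat_lit 0, nat_lit 0, nat_lit 0, nat_lit 0, ⟨nat_lit 0, nat_lit 0, nat_lit 1000, nat_lit 4, nat_lit 39, nat_lit 0, nat_lit 0, nat_lit 0, nat_lit 0, nat_lit 215, nat_lit 14017, nat_lit 244, nat_lit 66379226, nat_lit 0, nat_lit 0, nat_lit 262739, false, false⟩,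
 nat_lit 0, nat_lit 10866, nat_lit 0, nat_lit 0, nat_lit 5639, nat_lit 0, nat_lit 0, nat_lit 0, nat_lit 0, nat_lit 0, nat_lit 0, nat_lit 0, nat_lit 0, nat_lit 0, nat_lit 53, nat_lit 1000000, nat_lit 0, nat_lit 0, [(nat_lit 3, [(nat_lit 6, nat_lit 1000)])],
 ⟨p003_k43, nat_lit 0, nat_lit 0, nat_lit 284, nat_lit 0, nat_lit 188015, [nat_lit 2101142858, nat_lit 11600000], [], [nat_lit 15437689171, nat_lit 15439595981, nat_lit 15447568566, nat_lit 15303337495], nat_lit 1271250, nat_lit 1271250, nat_lit 21650, nat_lit 43600, nat_lit 0, nat_lit 0, [nat_lit 1412500, nat_lit 1271250], [nat_lit 26, nat_lit 40, nat_lit 20, nat_lit 80, nat_lit 2, nat_lit 289, nat_lit 75, nat_lit 10]⟩, C1.Rw.none,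
 ⟨nat_lit 6383, nat_lit 6404, ⟨.ofNat (nat_lit 91020), .ofNat (nat_lit 99323), .ofNat (nat_lit 93158), .ofNat (nat_lit 101461), .ofNat (nat_lit 91960), .ofNat (nat_lit 100243), .ofNat (nat_lit 94097), .ofNat (nat_lit 102381)⟩, ⟨.ofNat (nat_lit 0), .ofNat (nat_lit 0), .ofNat (nat_lit 0), .ofNat (nat_lit 0), .ofNat (nat_lit 0), .ofNat (nat_lit 0), .ofNat (nat_lit 0), .ofNat (nat_lit 0)⟩⟩, []⟩
noncomputable def p003_l171 : Lf2 := ⟨nat_lit 0, nat_lit 1, [nat_lit 19, nat_lit 5, nat_lit 5, nat_lit 20], true, nat_lit 0, nat_lit 0, nat_lit 0, nat_lit 0, ⟨nat_lit 0, nat_lit 0, nat_lit 1000, nat_lit 4, nat_lit 43, nat_lit 0, nat_lit 0, nat_lit 0, nat_lit 0, nat_lit 215, nat_lit 18150, nat_lit 248, nat_lit 66219451, nat_lit 0, nat_lit 0, nat_lit 317109, false, false⟩,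
 nat_lit 0, nat_lit 11360, nat_lit 0, nat_lit 0, nat_lit 5867, nat_lit 0, nat_lit 0, nat_lit 0, nat_lit 0, nat_lit 0, nat_lit 0, nat_lit 0, nat_lit 0, nat_lit 0, nat_lit 53, nat_lit 1000000, nat_lit 0, nat_lit 0, [(nat_lit 3, [(nat_lit 6, nat_lit 1000)])],
 ⟨p003_k37, nat_lit 0, nat_lit 0, nat_lit 283, nat_lit 0, nat_lit 188966, [nat_lit 2101142858, nat_lit 11600000], [], [nat_lit 15275573829, nat_lit 15275689998, nat_lit 15344566001, nat_lit 15045769079], nat_lit 1271250, nat_lit 1271250, nat_lit 43600, nat_lit 111251, nat_lit 0, nat_lit 0, [nat_lit 1412500, nat_lit 1271250], [nat_lit 26, nat_lit 40, nat_lit 20, nat_lit 80, nat_lit 2, nat_lit 289, nat_lit 75, nat_lit 10]⟩, C1.Rw.none,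
 ⟨nat_lit 6383, nat_lit 6423, ⟨.ofNat (nat_lit 89848), .ofNat (nat_lit 114814), .ofNat (nat_lit 100538), .ofNat (nat_lit 125505), .ofNat (nat_lit 91693), .ofNat (nat_lit 116544), .ofNat (nat_lit 102381), .ofNat (nat_lit 127232)⟩, ⟨.ofNat (nat_lit 0), .ofNat (nat_lit 0), .ofNat (nat_lit 0), .ofNat (nat_lit 0), .ofNat (nat_lit 0), .ofNat (nat_lit 0), .ofNat (nat_lit 0), .ofNat (nat_lit 0)⟩⟩, []⟩
noncomputable def p003_l172 : Lf2 := ⟨nat_lit 0, nat_lit 1, [nat_lit 19, nat_lit 5, nat_lit 5, nat_lit 20], true, nat_lit 0, nat_lit 0, nat_lit 0, nat_lit 0, ⟨nat_lit 0, nat_lit 0, nat_lit 1000, nat_lit 4, nat_lit 41, nat_lit 0, nat_lit 0, nat_lit 0, nat_lit 0, nat_lit 215, nat_lit 15000, nat_lit 245, nat_lit 66315005, nat_lit 0, nat_lit 0, nat_lit 284934, false, false⟩,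
 nat_lit 0, nat_lit 10357, nat_lit 0, nat_lit 0, nat_lit 5402, nat_lit 0, nat_lit 0, nat_lit 0, nat_lit 0, nat_lit 0, nat_lit 0, nat_lit 0, nat_lit 0, nat_lit 0, nat_lit 53, nat_lit 1000000, nat_lit 0, nat_lit 0, [(nat_lit 3, [(nat_lit 6, nat_lit 1000)])],
 ⟨p003_k44, nat_lit 0, nat_lit 0, nat_lit 291, nat_lit 0, nat_lit 191516, [nat_lit 2101142858, nat_lit 11600000], [], [nat_lit 15625135656, nat_lit 15636141608, nat_lit 15730364120, nat_lit 15592806511], nat_lit 1271250, nat_lit 1271250, nat_lit 0, nat_lit 111251, nat_lit 0, nat_lit 0, [nat_lit 1412500, nat_lit 1271250], [nat_lit 26, nat_lit 40, nat_lit 20, nat_lit 80, nat_lit 2, nat_lit 289, nat_lit 75, nat_lit 10]⟩, C1.Rw.none,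
 ⟨nat_lit 6363, nat_lit 6384, ⟨.ofNat (nat_lit 75126), .ofNat (nat_lit 116544), .ofNat (nat_lit 85814), .ofNat (nat_lit 127232), .ofNat (nat_lit 76084), .ofNat (nat_lit 117407), .ofNat (nat_lit 86770), .ofNat (nat_lit 128093)⟩, ⟨.ofNat (nat_lit 0), .ofNat (nat_lit 0), .ofNat (nat_lit 0), .ofNat (nat_lit 0), .ofNat (nat_lit 0), .ofNat (nat_lit 0), .ofNat (nat_lit 0), .ofNat (nat_lit 0)⟩⟩, [⟨nat_lit 0, nat_lit 100, nat_lit 98, nat_lit 19, nat_lit 70947882⟩]⟩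
noncomputable def p003_l173 : Lf2 := ⟨nat_lit 0, nat_lit 1, [nat_lit 19, nat_lit 5, nat_lit 5, nat_lit 20], true, nat_lit 0, nat_lit 0, nat_lit 0, nat_lit 0, ⟨nat_lit 0, nat_lit 0, nat_lit 1000, nat_lit 4, nat_lit 41, nat_lit 0, nat_lit 0, nat_lit 0, nat_lit 0, nat_lit 215, nat_lit 16017, nat_lit 246, nat_lit 66296730, nat_lit 0, nat_lit 0, nat_lit 291161, false, false⟩,
 nat_lit 0, nat_lit 10123, nat_lit 0, nat_lit 0, nat_lit 5306, nat_lit 0, nat_lit 0, nat_lit 0, nat_lit 0, nat_lit 0, nat_lit 0, nat_lit 0, nat_lit 0, nat_lit 0, nat_lit 53, nat_lit 1000000, nat_lit 0, nat_lit 0, [(nat_lit 3, [(nat_lit 6, nat_lit 1000)])],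
 ⟨p003_k45, nat_lit 0, nat_lit 0, nat_lit 295, nat_lit 0, nat_lit 199402, [nat_lit 2101142858, nat_lit 11600000], [], [nat_lit 15624318901, nat_lit 15650601808, nat_lit 15736586825, nat_lit 15466360734], nat_lit 1271250, nat_lit 1271250, nat_lit 0, nat_lit 111251, nat_lit 0, nat_lit 0, [nat_lit 1412500, nat_lit 1271250], [nat_lit 26, nat_lit 40, nat_lit 20, nat_lit 80, nat_lit 2, nat_lit 289, nat_lit 75, nat_lit 10]⟩, C1.Rw.none,
 ⟨nat_lit 6324, nat_lit 6364, ⟨.ofNat (nat_lit 76084), .ofNat (nat_lit 117407), .ofNat (nat_lit 86770), .ofNat (nat_lit 128093), .ofNat (nat_lit 77993), .ofNat (nat_lit 119125), .ofNat (nat_lit 88677), .ofNat (nat_lit 129809)⟩, ⟨.ofNat (nat_lit 0), .ofNat (nat_lit 0), .ofNat (nat_lit 0), .ofNat (nat_lit 0), .ofNat (nat_lit 0), .ofNat (nat_lit 0), .ofNat (nat_lit 0), .ofNat (nat_lit 0)⟩⟩, [⟨nat_lit 0, nat_lit 100, nat_lit 98, nat_lit 20, nat_lit 69093409⟩]⟩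
noncomputable def p003_l174 : Lf2 := ⟨nat_lit 0, nat_lit 2, [nat_lit 10, nat_lit 5, nat_lit 5, nat_lit 20], true, nat_lit 0, nat_lit 0, nat_lit 0, nat_lit 0, ⟨nat_lit 0, nat_lit 0, nat_lit 1000, nat_lit 4, nat_lit 41, nat_lit 0, nat_lit 0, nat_lit 0, nat_lit 0, nat_lit 215, nat_lit 15000, nat_lit 245, nat_lit 66315088, nat_lit 0, nat_lit 0, nat_lit 284906, false, false⟩,
 nat_lit 0, nat_lit 10534, nat_lit 0, nat_lit 0, nat_lit 5440, nat_lit 0, nat_lit 0, nat_lit 0, nat_lit 0, nat_lit 0, nat_lit 0, nat_lit 0, nat_lit 0, nat_lit 0, nat_lit 53, nat_lit 1000000, nat_lit 0, nat_lit 0, [(nat_lit 3, [(nat_lit 6, nat_lit 1000)])],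
 ⟨p003_k46, nat_lit 0, nat_lit 0, nat_lit 284, nat_lit 0, nat_lit 159270, [nat_lit 2101142858, nat_lit 11600000], [], [nat_lit 15850683934, nat_lit 15890537920, nat_lit 15951469214, nat_lit 15258842974], nat_lit 1271250, nat_lit 1271250, nat_lit 0, nat_lit 111251, nat_lit 0, nat_lit 0, [nat_lit 1412500, nat_lit 1271250], [nat_lit 26, nat_lit 40, nat_lit 20, nat_lit 80, nat_lit 2, nat_lit 289, nat_lit 75, nat_lit 10]⟩, C1.Rw.none,
 ⟨nat_lit 6324, nat_lit 6423, ⟨.ofNat (nat_lit 73203), .ofNat (nat_lit 114814), .ofNat (nat_lit 83894), .ofNat (nat_lit 125505), .ofNat (nat_lit 77993), .ofNat (nat_lit 119125), .ofNat (nat_lit 88677), .ofNat (nat_lit 129809)⟩, ⟨.ofNat (nat_lit 0), .ofNat (nat_lit 0), .ofNat (nat_lit 0), .ofNat (nat_lit 0), .ofNat (nat_lit 0), .ofNat (nat_lit 0), .ofNat (nat_lit 0), .ofNat (nat_lit 0)⟩⟩, [⟨nat_lit 0, nat_lit 100, nat_lit 98, nat_lit 20, nat_lit 73069558⟩]⟩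
noncomputable def b_NL_550_450_0_6 : St := ⟨false, nat_lit 1, nat_lit 1, nat_lit 1, nat_lit 20, nat_lit 235, nat_lit 240, nat_lit 190, nat_lit 200, nat_lit 0, nat_lit 20, nat_lit 0, nat_lit 0, nat_lit 0, nat_lit 0, nat_lit 0, nat_lit 0, nat_lit 0, nat_lit 8, nat_lit 0, nat_lit 0, nat_lit 0, nat_lit 0⟩
theorem d_NL_550_450_0_6 (h : EB TB.env) : Dead b_NL_550_450_0_6 := chkB_sound0 h (T :=
(.spl (nat_lit 6) (nat_lit 4)
(.spl (nat_lit 0) (nat_lit 238)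
(.spl (nat_lit 0) (nat_lit 237)
(.spl (nat_lit 2) (nat_lit 8)
(.spl (nat_lit 1) (nat_lit 195)
(.leaf p003_l154)
(.spl (nat_lit 1) (nat_lit 198)
(.leaf p003_l155)
(.spl (nat_lit 0) (nat_lit 236)
(.spl (nat_lit 2) (nat_lit 4)
(.spl (nat_lit 1) (nat_lit 199)
(.spl (nat_lit 8) (nat_lit 800)
(.spl (nat_lit 7) (nat_lit 600)
(.leaf p003_l156)
(.leaf p003_l157))
(.leaf p003_l158))
(.spl (nat_lit 8) (nat_lit 800)
(.spl (nat_lit 7) (nat_lit 600)
(.leaf p003_l159)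
(.leaf p003_l160))
(.leaf p003_l161)))
(.spl (nat_lit 1) (nat_lit 199)
(.leaf p003_l162)
(.spl (nat_lit 8) (nat_lit 800)
(.spl (nat_lit 7) (nat_lit 600)
(.leaf p003_l163)
(.leaf p003_l164))
(.leaf p003_l165))))
(.spl (nat_lit 2) (nat_lit 4)
(.spl (nat_lit 1) (nat_lit 199)
(.leaf p003_l166)
(.spl (nat_lit 8) (nat_lit 800)
(.spl (nat_lit 7) (nat_lit 600)
(.leaf p003_l167)
(.leaf p003_l168))
(.leaf p003_l169)))
(.leaf p003_l170)))))
(.leaf p003_l171))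
(.leaf p003_l172))
(.leaf p003_l173))
(.leaf p003_l174))) (by decide +kernel)
noncomputable def p003_l175 : Lf2 := ⟨nat_lit 0, nat_lit 5, [nat_lit 4, nat_lit 5, nat_lit 5, nat_lit 20], false, nat_lit 0, nat_lit 0, nat_lit 0, nat_lit 0, ⟨nat_lit 1000, nat_lit 0, nat_lit 0, nat_lit 0, nat_lit 0, nat_lit 0, nat_lit 0, nat_lit 0, nat_lit 0, nat_lit 0, nat_lit 0, nat_lit 0, nat_lit 0, nat_lit 0, nat_lit 0, nat_lit 0, false, false⟩,
 nat_lit 38271, nat_lit 46464, nat_lit 0, nat_lit 0, nat_lit 40525, nat_lit 14553, nat_lit 1702, nat_lit 0, nat_lit 0, nat_lit 2026, nat_lit 0, nat_lit 0, nat_lit 0, nat_lit 0, nat_lit 0, nat_lit 0, nat_lit 0, nat_lit 0, [],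
 ⟨p003_k7, nat_lit 0, nat_lit 0, nat_lit 232, nat_lit 0, nat_lit 163990, [nat_lit 6250000000, nat_lit 7968000001, nat_lit 9842000000], [], [nat_lit 12329989950, nat_lit 13476227250, nat_lit 20538352850, nat_lit 15631200863], nat_lit 1271250, nat_lit 1271250, nat_lit 780000, nat_lit 1100001, nat_lit 0, nat_lit 0, [nat_lit 1412500, nat_lit 1271250, nat_lit 1271250], [nat_lit 25, nat_lit 40, nat_lit 20, nat_lit 80, nat_lit 17, nat_lit 317, nat_lit 100, nat_lit 9]⟩, ⟨p003_k15, nat_lit 0, nat_lit 0, nat_lit 370, nat_lit 0, nat_lit 210590, [nat_lit 7968000000, nat_lit 9842000000, nat_lit 11872000000], [], [nat_lit 35144125058, nat_lit 27565242824, nat_lit 37595896962, nat_lit 30129363888], nat_lit 1271250, nat_lit 1271250, nat_lit 780000, nat_lit 1100001, nat_lit 0, nat_lit 0, [nat_lit 1695000, nat_lit 1271250, nat_lit 1271250], [nat_lit 106, nat_lit 40, nat_lit 20, nat_lit 80, nat_lit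 41, nat_lit 317, nat_lit 100, nat_lit 8]⟩,
 zbF0, []⟩
noncomputable def p003_l176 : Lf2 := ⟨nat_lit 0, nat_lit 5, [nat_lit 4, nat_lit 5, nat_lit 5, nat_lit 20], false, nat_lit 0, nat_lit 0, nat_lit 0, nat_lit 0, ⟨nat_lit 1000, nat_lit 0, nat_lit 0, nat_lit 0, nat_lit 0, nat_lit 0, nat_lit 0, nat_lit 0, nat_lit 0, nat_lit 0, nat_lit 0, nat_lit 0, nat_lit 0, nat_lit 0, nat_lit 0, nat_lit 0, false, false⟩,
 nat_lit 26910, nat_lit 40072, nat_lit 0, nat_lit 0, nat_lit 32882, nat_lit 10233, nat_lit 2247, nat_lit 0, nat_lit 0, nat_lit 2719, nat_lit 0, nat_lit 0, nat_lit 0, nat_lit 0, nat_lit 0, nat_lit 0, nat_lit 0, nat_lit 0, [],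
 ⟨p003_k49, nat_lit 0, nat_lit 0, nat_lit 231, nat_lit 0, nat_lit 183575, [nat_lit 6250000000, nat_lit 7968000001, nat_lit 9842000000], [], [nat_lit 13217279578, nat_lit 14178187520, nat_lit 20842928169, nat_lit 16861263230], nat_lit 1271250, nat_lit 1271250, nat_lit 780000, nat_lit 1100001, nat_lit 0, nat_lit 0, [nat_lit 1412500, nat_lit 1271250, nat_lit 1271250], [nat_lit 25, nat_lit 40, nat_lit 20, nat_lit 80, nat_lit 17, nat_lit 317, nat_lit 100, nat_lit 9]⟩, ⟨p003_k15, nat_lit 0, nat_lit 0, nat_lit 386, nat_lit 0, nat_lit 242484, [nat_lit 7968000000, nat_lit 9842000000, nat_lit 11872000000], [], [nat_lit 35379193538, nat_lit 30519430864, nat_lit 37437119682, nat_lit 32186997168], nat_lit 1271250, nat_lit 1271250, nat_lit 780000, nat_lit 1100001, nat_lit 0, nat_lit 0, [nat_lit 1695000, nat_lit 1271250, nat_lit 1271250], [nat_lit 106, nat_lit 40, nat_lit 20, nat_lit 80, nat_lit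 41, nat_lit 317, nat_lit 100, nat_lit 8]⟩,
 zbF0, []⟩
noncomputable def p003_l177 : Lf2 := ⟨nat_lit 0, nat_lit 5, [nat_lit 4, nat_lit 5, nat_lit 5, nat_lit 20], false, nat_lit 0, nat_lit 0, nat_lit 0, nat_lit 0, ⟨nat_lit 1000, nat_lit 0, nat_lit 0, nat_lit 0, nat_lit 0, nat_lit 0, nat_lit 0, nat_lit 0, nat_lit 0, nat_lit 0, nat_lit 0, nat_lit 0, nat_lit 0, nat_lit 0, nat_lit 0, nat_lit 0, false, false⟩,
 nat_lit 19361, nat_lit 29394, nat_lit 0, nat_lit 0, nat_lit 24555, nat_lit 7362, nat_lit 2713, nat_lit 0, nat_lit 0, nat_lit 4653, nat_lit 0, nat_lit 0, nat_lit 0, nat_lit 0, nat_lit 0, nat_lit 0, nat_lit 0, nat_lit 0, [],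
 ⟨p003_k13, nat_lit 0, nat_lit 0, nat_lit 288, nat_lit 0, nat_lit 228334, [nat_lit 6250000000, nat_lit 7968000001, nat_lit 9842000000], [], [nat_lit 14708311245, nat_lit 15364818210, nat_lit 23547719325, nat_lit 17601013980], nat_lit 1271250, nat_lit 1271250, nat_lit 780000, nat_lit 1100001, nat_lit 0, nat_lit 0, [nat_lit 1412500, nat_lit 1271250, nat_lit 1271250], [nat_lit 25, nat_lit 40, nat_lit 20, nat_lit 80, nat_lit 17, nat_lit 317, nat_lit 100, nat_lit 9]⟩, ⟨p003_k15, nat_lit 0, nat_lit 0, nat_lit 421, nat_lit 0, nat_lit 310056, [nat_lit 7968000000, nat_lit 9842000000, nat_lit 11872000000], [], [nat_lit 35535416132, nat_lit 32898088784, nat_lit 37331598948, nat_lit 33554465952], nat_lit 1271250, nat_lit 1271250, nat_lit 780000, nat_lit 1100001, nat_lit 0, nat_lit 0, [nat_lit 1695000, nat_lit 1271250, nat_lit 1271250], [nat_lit 106, nat_lit 40, nat_lit 20, nat_lit 80, nat_lit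 41, nat_lit 317, nat_lit 100, nat_lit 8]⟩,
 zbF0, []⟩
noncomputable def p003_l178 : Lf2 := ⟨nat_lit 0, nat_lit 5, [nat_lit 4, nat_lit 5, nat_lit 5, nat_lit 20], false, nat_lit 0, nat_lit 0, nat_lit 0, nat_lit 0, ⟨nat_lit 1000, nat_lit 0, nat_lit 0, nat_lit 0, nat_lit 0, nat_lit 0, nat_lit 0, nat_lit 0, nat_lit 0, nat_lit 0, nat_lit 0, nat_lit 0, nat_lit 0, nat_lit 0, nat_lit 0, nat_lit 0, false, false⟩,
 nat_lit 16701, nat_lit 0, nat_lit 0, nat_lit 0, nat_lit 7987, nat_lit 6350, nat_lit 0, nat_lit 0, nat_lit 0, nat_lit 2960, nat_lit 0, nat_lit 0, nat_lit 0, nat_lit 0, nat_lit 0, nat_lit 0, nat_lit 0, nat_lit 0, [],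
 ⟨p003_k7, nat_lit 0, nat_lit 0, nat_lit 282, nat_lit 0, nat_lit 241445, [nat_lit 6250000000, nat_lit 7968000001, nat_lit 9842000000], [], [nat_lit 32065407382, nat_lit 28114886160, nat_lit 30096560336, nat_lit 30765878124], nat_lit 1271250, nat_lit 1271250, nat_lit 1100001, nat_lit 1785000, nat_lit 0, nat_lit 0, [nat_lit 1412500, nat_lit 1271250, nat_lit 1271250], [nat_lit 25, nat_lit 40, nat_lit 20, nat_lit 80, nat_lit 17, nat_lit 345, nat_lit 125, nat_lit 10]⟩, ⟨p003_k15, nat_lit 0, nat_lit 0, nat_lit 404, nat_lit 0, nat_lit 310056, [nat_lit 7968000000, nat_lit 9842000000, nat_lit 11872000000], [], [nat_lit 37294403900, nat_lit 37491783200, nat_lit 44590677300, nat_lit 41426561200], nat_lit 1271250, nat_lit 1271250, nat_lit 1100001, nat_lit 1785000, nat_lit 0, nat_lit 0, [nat_lit 1695000, nat_lit 1271250, nat_lit 1271250], [nat_lit 106, nat_lit 40, nat_lit 20, nat_lit 80, nat_lit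 41, nat_lit 345, nat_lit 125, nat_lit 9]⟩,
 zbF0, []⟩
noncomputable def b_NL_550_450_0_7 : St := ⟨false, nat_lit 1, nat_lit 1, nat_lit 1, nat_lit 20, nat_lit 220, nat_lit 240, nat_lit 180, nat_lit 200, nat_lit 120, nat_lit 240, nat_lit 0, nat_lit 0, nat_lit 0, nat_lit 0, nat_lit 0, nat_lit 0, nat_lit 0, nat_lit 24, nat_lit 0, nat_lit 0, nat_lit 0, nat_lit 0⟩
theorem d_NL_550_450_0_7 (h : EB TB.env) : Dead b_NL_550_450_0_7 := chkB_sound0 h (T :=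
(.spl (nat_lit 2) (nat_lit 160)
(.spl (nat_lit 0) (nat_lit 230)
(.spl (nat_lit 0) (nat_lit 225)
(.leaf p003_l175)
(.leaf p003_l176))
(.leaf p003_l177))
(.leaf p003_l178))) (by decide +kernel)
noncomputable def p003_l179 : Lf2 := ⟨nat_lit 0, nat_lit 5, [nat_lit 4, nat_lit 5, nat_lit 5, nat_lit 20], true, nat_lit 0, nat_lit 0, nat_lit 0, nat_lit 0, ⟨nat_lit 0, nat_lit 1000, nat_lit 0, nat_lit 4, nat_lit 78, nat_lit 0, nat_lit 0, nat_lit 0, nat_lit 0, nat_lit 0, nat_lit 0, nat_lit 0, nat_lit 0, nat_lit 0, nat_lit 0, nat_lit 5000000, false, false⟩,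
 nat_lit 0, nat_lit 7618, nat_lit 0, nat_lit 0, nat_lit 3643, nat_lit 0, nat_lit 1082, nat_lit 0, nat_lit 0, nat_lit 0, nat_lit 0, nat_lit 0, nat_lit 0, nat_lit 0, nat_lit 0, nat_lit 1000000, nat_lit 0, nat_lit 0, [(nat_lit 3, [(nat_lit 2, nat_lit 1000)])],
 ⟨p003_k7, nat_lit 0, nat_lit 0, nat_lit 525, nat_lit 0, nat_lit 467358, [nat_lit 3292500000, nat_lit 3077200001, nat_lit 1896400000], [], [nat_lit 28669122831, nat_lit 29213078990, nat_lit 29960479110, nat_lit 28365351261], nat_lit 1271250, nat_lit 1271250, nat_lit 0, nat_lit 780000, nat_lit 0, nat_lit 0, [nat_lit 1412500, nat_lit 1271250, nat_lit 1271250], [nat_lit 25, nat_lit 40, nat_lit 20, nat_lit 80, nat_lit 17, nat_lit 317, nat_lit 100, nat_lit 10]⟩, C1.Rw.none,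
 ⟨nat_lit 6324, nat_lit 6709, ⟨.ofNat (nat_lit 47783), .ofNat (nat_lit 306249), .ofNat (nat_lit 69221), .ofNat (nat_lit 327688), .ofNat (nat_lit 67309), .ofNat (nat_lit 314102), .ofNat (nat_lit 88677), .ofNat (nat_lit 335470)⟩, ⟨.ofNat (nat_lit 0), .ofNat (nat_lit 0), .ofNat (nat_lit 0), .ofNat (nat_lit 0), .ofNat (nat_lit 0), .ofNat (nat_lit 0), .ofNat (nat_lit 0), .ofNat (nat_lit 0)⟩⟩, []⟩
noncomputable def p003_l180 : Lf2 := ⟨nat_lit 0, nat_lit 5, [nat_lit 4, nat_lit 5, nat_lit 5, nat_lit 20], false, nat_lit 0, nat_lit 0, nat_lit 0, nat_lit 0, ⟨nat_lit 431, nat_lit 569, nat_lit 0, nat_lit 4, nat_lit 246, nat_lit 0, nat_lit 0, nat_lit 0, nat_lit 0, nat_lit 0, nat_lit 0, nat_lit 0, nat_lit 0, nat_lit 0, nat_lit 0, nat_lit 5000000, false, true⟩,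
 nat_lit 0, nat_lit 10422, nat_lit 0, nat_lit 0, nat_lit 4984, nat_lit 3909, nat_lit 1215, nat_lit 0, nat_lit 0, nat_lit 1350, nat_lit 0, nat_lit 0, nat_lit 0, nat_lit 0, nat_lit 0, nat_lit 227600, nat_lit 0, nat_lit 0, [(nat_lit 3, [(nat_lit 1, nat_lit 569)])],
 ⟨p003_k7, nat_lit 0, nat_lit 0, nat_lit 429, nat_lit 0, nat_lit 467358, [nat_lit 4596486000, nat_lit 5412962401, nat_lit 6181054000], [], [nat_lit 34152572368, nat_lit 32257973269, nat_lit 39522229696, nat_lit 38606990293], nat_lit 1271250, nat_lit 1271250, nat_lit 780000, nat_lit 3072500, nat_lit 0, nat_lit 0, [nat_lit 1412500, nat_lit 1271250, nat_lit 1271250], [nat_lit 25, nat_lit 40, nat_lit 20, nat_lit 80, nat_lit 17, nat_lit 401, nat_lit 175, nat_lit 12]⟩, ⟨p003_k15, nat_lit 0, nat_lit 0, nat_lit 276, nat_lit 0, nat_lit 0, [nat_lit 3434208000, nat_lit 4241902000, nat_lit 5116832000], [], [nat_lit 10832810264, nat_lit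 11052923660, nat_lit 17269178424, nat_lit 17292427508], nat_lit 0, nat_lit 0, nat_lit 0, nat_lit 0, nat_lit 0, nat_lit 0, [], [nat_lit 106, nat_lit 40, nat_lit 20, nat_lit 80, nat_lit 41, nat_lit 373, nat_lit 150, nat_lit 10]⟩,
 ⟨nat_lit 6324, nat_lit 6709, ⟨.ofNat (nat_lit 306249), .ofNat (nat_lit 909199), .ofNat (nat_lit 327688), .ofNat (nat_lit 930631), .ofNat (nat_lit 314102), .ofNat (nat_lit 889813), .ofNat (nat_lit 335470), .ofNat (nat_lit 911175)⟩, ⟨.ofNat (nat_lit 0), .ofNat (nat_lit 0), .ofNat (nat_lit 0), .ofNat (nat_lit 0), .ofNat (nat_lit 0), .ofNat (nat_lit 0), .ofNat (nat_lit 0), .ofNat (nat_lit 0)⟩⟩, []⟩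
noncomputable def p003_l181 : Lf2 := ⟨nat_lit 0, nat_lit 5, [nat_lit 4, nat_lit 5, nat_lit 5, nat_lit 20], true, nat_lit 0, nat_lit 0, nat_lit 0, nat_lit 0, ⟨nat_lit 0, nat_lit 1000, nat_lit 0, nat_lit 4, nat_lit 78, nat_lit 0, nat_lit 0, nat_lit 0, nat_lit 0, nat_lit 0, nat_lit 0, nat_lit 0, nat_lit 0, nat_lit 0, nat_lit 0, nat_lit 5000000, false, false⟩,
 nat_lit 0, nat_lit 7618, nat_lit 0, nat_lit 0, nat_lit 3643, nat_lit 0, nat_lit 1082, nat_lit 0, nat_lit 0, nat_lit 0, nat_lit 0, nat_lit 0, nat_lit 0, nat_lit 0, nat_lit 0, nat_lit 1000000, nat_lit 0, nat_lit 0, [(nat_lit 3, [(nat_lit 2, nat_lit 1000)])],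
 ⟨p003_k7, nat_lit 0, nat_lit 0, nat_lit 525, nat_lit 0, nat_lit 467358, [nat_lit 3292500000, nat_lit 3077200001, nat_lit 1896400000], [], [nat_lit 28669122831, nat_lit 29213078990, nat_lit 29960479110, nat_lit 28365351261], nat_lit 1271250, nat_lit 1271250, nat_lit 0, nat_lit 780000, nat_lit 0, nat_lit 0, [nat_lit 1412500, nat_lit 1271250, nat_lit 1271250], [nat_lit 25, nat_lit 40, nat_lit 20, nat_lit 80, nat_lit 17, nat_lit 317, nat_lit 100, nat_lit 10]⟩, C1.Rw.none,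
 ⟨nat_lit 6324, nat_lit 6709, ⟨.ofNat (nat_lit 47783), .ofNat (nat_lit 306249), .ofNat (nat_lit 69221), .ofNat (nat_lit 327688), .ofNat (nat_lit 67309), .ofNat (nat_lit 314102), .ofNat (nat_lit 88677), .ofNat (nat_lit 335470)⟩, ⟨.ofNat (nat_lit 0), .ofNat (nat_lit 0), .ofNat (nat_lit 0), .ofNat (nat_lit 0), .ofNat (nat_lit 0), .ofNat (nat_lit 0), .ofNat (nat_lit 0), .ofNat (nat_lit 0)⟩⟩, []⟩
noncomputable def p003_l182 : Lf2 := ⟨nat_lit 0, nat_lit 5, [nat_lit 4, nat_lit 5, nat_lit 5, nat_lit 20], false, nat_lit 0, nat_lit 0, nat_lit 0, nat_lit 0, ⟨nat_lit 264, nat_lit 736, nat_lit 0, nat_lit 4, nat_lit 246, nat_lit 0, nat_lit 0, nat_lit 0, nat_lit 0, nat_lit 0, nat_lit 0, nat_lit 0, nat_lit 0, nat_lit 0, nat_lit 0, nat_lit 5000000, false, true⟩,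
 nat_lit 2764, nat_lit 5049, nat_lit 0, nat_lit 0, nat_lit 3736, nat_lit 1051, nat_lit 254, nat_lit 0, nat_lit 0, nat_lit 415, nat_lit 0, nat_lit 0, nat_lit 0, nat_lit 0, nat_lit 0, nat_lit 736000, nat_lit 0, nat_lit 0, [(nat_lit 3, [(nat_lit 2, nat_lit 736)])],
 ⟨p003_k7, nat_lit 0, nat_lit 0, nat_lit 332, nat_lit 0, nat_lit 241445, [nat_lit 4073280000, nat_lit 4368371201, nat_lit 3994038400], [], [nat_lit 31864273072, nat_lit 29888907904, nat_lit 37580821984, nat_lit 37406746481], nat_lit 1271250, nat_lit 1271250, nat_lit 780000, nat_lit 3072500, nat_lit 0, nat_lit 0, [nat_lit 1412500, nat_lit 1271250, nat_lit 1271250], [nat_lit 25, nat_lit 40, nat_lit 20, nat_lit 80, nat_lit 17, nat_lit 401, nat_lit 175, nat_lit 12]⟩, ⟨p003_k15, nat_lit 0, nat_lit 0, nat_lit 421, nat_lit 0, nat_lit 310056, [nat_lit 2103552000, nat_lit 2598288000, nat_lit 3134208000], [], [nat_lit 11750872516,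 nat_lit 11835746924, nat_lit 13998757918, nat_lit 13505620164], nat_lit 1271250, nat_lit 1271250, nat_lit 780000, nat_lit 3072500, nat_lit 0, nat_lit 0, [nat_lit 1695000, nat_lit 1271250, nat_lit 1271250], [nat_lit 106, nat_lit 40, nat_lit 20, nat_lit 80, nat_lit 41, nat_lit 373, nat_lit 150, nat_lit 10]⟩,
 ⟨nat_lit 6324, nat_lit 6709, ⟨.ofNat (nat_lit 306249), .ofNat (nat_lit 909199), .ofNat (nat_lit 327688), .ofNat (nat_lit 930631), .ofNat (nat_lit 314102), .ofNat (nat_lit 889813), .ofNat (nat_lit 335470), .ofNat (nat_lit 911175)⟩, ⟨.ofNat (nat_lit 0), .ofNat (nat_lit 0), .ofNat (nat_lit 0), .ofNat (nat_lit 0), .ofNat (nat_lit 0), .ofNat (nat_lit 0), .ofNat (nat_lit 0), .ofNat (nat_lit 0)⟩⟩, []⟩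
noncomputable def b_NL_550_450_0_8 : St := ⟨false, nat_lit 1, nat_lit 2, nat_lit 2, nat_lit 20, nat_lit 220, nat_lit 240, nat_lit 180, nat_lit 200, nat_lit 0, nat_lit 400, nat_lit 0, nat_lit 0, nat_lit 0, nat_lit 0, nat_lit 0, nat_lit 0, nat_lit 0, nat_lit 24, nat_lit 0, nat_lit 0, nat_lit 0, nat_lit 0⟩
theorem d_NL_550_450_0_8 (h : EB TB.env) : Dead b_NL_550_450_0_8 := chkB_sound0 h (T :=
(.st (nat_lit 1)
(.spl (nat_lit 2) (nat_lit 120)
(.leaf p003_l179)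
(.leaf p003_l180))
(.spl (nat_lit 2) (nat_lit 120)
(.leaf p003_l181)
(.leaf p003_l182)))) (by decide +kernel)
noncomputable def p003_l183 : Lf2 := ⟨nat_lit 0, nat_lit 5, [nat_lit 4, nat_lit 5, nat_lit 5, nat_lit 20], true, nat_lit 0, nat_lit 0, nat_lit 0, nat_lit 0, ⟨nat_lit 0, nat_lit 0, nat_lit 1000, nat_lit 5, nat_lit 86, nat_lit 0, nat_lit 0, nat_lit 0, nat_lit 0, nat_lit 215, nat_lit 70417, nat_lit 280, nat_lit 64014303, nat_lit 0, nat_lit 0, nat_lit 910902, false, false⟩,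
 nat_lit 0, nat_lit 0, nat_lit 0, nat_lit 7345, nat_lit 4748, nat_lit 0, nat_lit 317, nat_lit 0, nat_lit 0, nat_lit 0, nat_lit 0, nat_lit 0, nat_lit 0, nat_lit 0, nat_lit 115, nat_lit 1000000, nat_lit 0, nat_lit 0, [(nat_lit 3, [(nat_lit 6, nat_lit 1000)])],
 ⟨p003_k7, nat_lit 0, nat_lit 0, nat_lit 298, nat_lit 0, nat_lit 0, [nat_lit 3341142858, nat_lit 1499600000, nat_lit 23600000], [], [nat_lit 13749917688, nat_lit 14958746932, nat_lit 11897120876, nat_lit 12995865044], nat_lit 0, nat_lit 0, nat_lit 0, nat_lit 0, nat_lit 0, nat_lit 0, [], [nat_lit 25, nat_lit 40, nat_lit 20, nat_lit 80, nat_lit 17, nat_lit 317, nat_lit 100, nat_lit 10]⟩, C1.Rw.none,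
 ⟨nat_lit 6324, nat_lit 6709, ⟨.ofNat (nat_lit 69221), .ofNat (nat_lit 327688), .ofNat (nat_lit 90659), .ofNat (nat_lit 349126), .ofNat (nat_lit 88677), .ofNat (nat_lit 335470), .ofNat (nat_lit 110045), .ofNat (nat_lit 356838)⟩, ⟨.ofNat (nat_lit 0), .ofNat (nat_lit 0), .ofNat (nat_lit 0), .ofNat (nat_lit 0), .ofNat (nat_lit 0), .ofNat (nat_lit 0), .ofNat (nat_lit 0), .ofNat (nat_lit 0)⟩⟩, [⟨nat_lit 0, nat_lit 100, nat_lit 99, nat_lit 20, nat_lit 191810620⟩]⟩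
noncomputable def p003_l184 : Lf2 := ⟨nat_lit 0, nat_lit 5, [nat_lit 4, nat_lit 5, nat_lit 5, nat_lit 20], false, nat_lit 0, nat_lit 0, nat_lit 0, nat_lit 0, ⟨nat_lit 1000, nat_lit 0, nat_lit 0, nat_lit 0, nat_lit 0, nat_lit 0, nat_lit 0, nat_lit 0, nat_lit 0, nat_lit 0, nat_lit 0, nat_lit 0, nat_lit 0, nat_lit 0, nat_lit 0, nat_lit 0, false, false⟩,
 nat_lit 0, nat_lit 0, nat_lit 0, nat_lit 0, nat_lit 10624, nat_lit 9039, nat_lit 0, nat_lit 0, nat_lit 0, nat_lit 0, nat_lit 0, nat_lit 0, nat_lit 0, nat_lit 0, nat_lit 0, nat_lit 0, nat_lit 0, nat_lit 0, [],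
 ⟨p003_k7, nat_lit 0, nat_lit 0, nat_lit 226, nat_lit 0, nat_lit 0, [nat_lit 6250000000, nat_lit 7968000001, nat_lit 9842000000], [], [nat_lit 23549076176, nat_lit 24807372064, nat_lit 44691486128, nat_lit 45415590208], nat_lit 0, nat_lit 0, nat_lit 0, nat_lit 0, nat_lit 0, nat_lit 0, [], [nat_lit 25, nat_lit 40, nat_lit 20, nat_lit 80, nat_lit 17, nat_lit 401, nat_lit 175, nat_lit 12]⟩, ⟨p003_k50, nat_lit 0, nat_lit 0, nat_lit 255, nat_lit 0, nat_lit 0, [nat_lit 6250000000, nat_lit 7968000000, nat_lit 11872000000], [], [nat_lit 30471779160, nat_lit 31430744556, nat_lit 47051208436, nat_lit 47334683370], nat_lit 0, nat_lit 0, nat_lit 0, nat_lit 0, nat_lit 0, nat_lit 0, [], [nat_lit 53, nat_lit 40, nat_lit 20, nat_lit 80, nat_lit 14, nat_lit 401, nat_lit 175, nat_lit 11]⟩,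
 zbF0, [⟨nat_lit 13, nat_lit 99, nat_lit 10, nat_lit 100, nat_lit 77653520⟩]⟩
noncomputable def p003_l185 : Lf2 := ⟨nat_lit 0, nat_lit 5, [nat_lit 4, nat_lit 5, nat_lit 5, nat_lit 20], true, nat_lit 0, nat_lit 0, nat_lit 0, nat_lit 0, ⟨nat_lit 0, nat_lit 0, nat_lit 1000, nat_lit 5, nat_lit 86, nat_lit 0, nat_lit 0, nat_lit 0, nat_lit 0, nat_lit 215, nat_lit 70417, nat_lit 280, nat_lit 64014303, nat_lit 0, nat_lit 0, nat_lit 910902, false, false⟩,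
 nat_lit 0, nat_lit 0, nat_lit 0, nat_lit 7345, nat_lit 4748, nat_lit 0, nat_lit 317, nat_lit 0, nat_lit 0, nat_lit 0, nat_lit 0, nat_lit 0, nat_lit 0, nat_lit 0, nat_lit 115, nat_lit 1000000, nat_lit 0, nat_lit 0, [(nat_lit 3, [(nat_lit 6, nat_lit 1000)])],
 ⟨p003_k7, nat_lit 0, nat_lit 0, nat_lit 298, nat_lit 0, nat_lit 0, [nat_lit 3341142858, nat_lit 1499600000, nat_lit 23600000], [], [nat_lit 13749917688, nat_lit 14958746932, nat_lit 11897120876, nat_lit 12995865044], nat_lit 0, nat_lit 0, nat_lit 0, nat_lit 0, nat_lit 0, nat_lit 0, [], [nat_lit 25, nat_lit 40, nat_lit 20, nat_lit 80, nat_lit 17, nat_lit 317, nat_lit 100, nat_lit 10]⟩, C1.Rw.none,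
 ⟨nat_lit 6324, nat_lit 6709, ⟨.ofNat (nat_lit 69221), .ofNat (nat_lit 327688), .ofNat (nat_lit 90659), .ofNat (nat_lit 349126), .ofNat (nat_lit 88677), .ofNat (nat_lit 335470), .ofNat (nat_lit 110045), .ofNat (nat_lit 356838)⟩, ⟨.ofNat (nat_lit 0), .ofNat (nat_lit 0), .ofNat (nat_lit 0), .ofNat (nat_lit 0), .ofNat (nat_lit 0), .ofNat (nat_lit 0), .ofNat (nat_lit 0), .ofNat (nat_lit 0)⟩⟩, [⟨nat_lit 0, nat_lit 100, nat_lit 99, nat_lit 20, nat_lit 191810620⟩]⟩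
noncomputable def p003_l186 : Lf2 := ⟨nat_lit 0, nat_lit 5, [nat_lit 4, nat_lit 5, nat_lit 5, nat_lit 20], true, nat_lit 0, nat_lit 0, nat_lit 0, nat_lit 0, ⟨nat_lit 0, nat_lit 1000, nat_lit 0, nat_lit 5, nat_lit 187, nat_lit 0, nat_lit 0, nat_lit 0, nat_lit 0, nat_lit 0, nat_lit 0, nat_lit 0, nat_lit 54937542, nat_lit 12062458, nat_lit 0, nat_lit 2357244, false, false⟩,
 nat_lit 0, nat_lit 0, nat_lit 0, nat_lit 1775, nat_lit 7794, nat_lit 0, nat_lit 0, nat_lit 0, nat_lit 0, nat_lit 0, nat_lit 0, nat_lit 0, nat_lit 0, nat_lit 0, nat_lit 0, nat_lit 250000, nat_lit 0, nat_lit 0, [(nat_lit 3, [(nat_lit 0, nat_lit 1000)])],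
 ⟨p003_k0, nat_lit 0, nat_lit 0, nat_lit 63, nat_lit 0, nat_lit 0, [nat_lit 3816000000, nat_lit 3787200000], [], [nat_lit 9979985324, nat_lit 11820249832, nat_lit 16252406432, nat_lit 17709174176], nat_lit 0, nat_lit 0, nat_lit 0, nat_lit 0, nat_lit 0, nat_lit 0, [], [nat_lit 51, nat_lit 40, nat_lit 20, nat_lit 80, nat_lit 1, nat_lit 345, nat_lit 125, nat_lit 10]⟩, C1.Rw.none,
 ⟨nat_lit 6324, nat_lit 6709, ⟨.ofNat (nat_lit 327688), .ofNat (nat_lit 586126), .ofNat (nat_lit 349126), .ofNat (nat_lit 607557), .ofNat (nat_lit 335470), .ofNat (nat_lit 582235), .ofNat (nat_lit 356838), .ofNat (nat_lit 603596)⟩, ⟨.ofNat (nat_lit 0), .ofNat (nat_lit 0), .ofNat (nat_lit 0), .ofNat (nat_lit 0), .ofNat (nat_lit 0), .ofNat (nat_lit 0), .ofNat (nat_lit 0), .ofNat (nat_lit 0)⟩⟩, []⟩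
noncomputable def p003_l187 : Lf2 := ⟨nat_lit 0, nat_lit 5, [nat_lit 4, nat_lit 5, nat_lit 5, nat_lit 20], false, nat_lit 0, nat_lit 0, nat_lit 0, nat_lit 0, ⟨nat_lit 1000, nat_lit 0, nat_lit 0, nat_lit 0, nat_lit 0, nat_lit 0, nat_lit 0, nat_lit 0, nat_lit 0, nat_lit 0, nat_lit 0, nat_lit 0, nat_lit 0, nat_lit 0, nat_lit 0, nat_lit 0, false, false⟩,
 nat_lit 0, nat_lit 0, nat_lit 19954, nat_lit 0, nat_lit 6858, nat_lit 8551, nat_lit 4376, nat_lit 0, nat_lit 0, nat_lit 1729, nat_lit 0, nat_lit 0, nat_lit 0, nat_lit 0, nat_lit 0, nat_lit 0, nat_lit 0, nat_lit 0, [],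
 ⟨p003_k7, nat_lit 0, nat_lit 0, nat_lit 226, nat_lit 0, nat_lit 0, [nat_lit 6250000000, nat_lit 7968000001, nat_lit 9842000000], [], [nat_lit 23615414189, nat_lit 24493163009, nat_lit 35535781964, nat_lit 35987491416], nat_lit 0, nat_lit 0, nat_lit 0, nat_lit 0, nat_lit 0, nat_lit 0, [], [nat_lit 25, nat_lit 40, nat_lit 20, nat_lit 80, nat_lit 17, nat_lit 401, nat_lit 175, nat_lit 11]⟩, ⟨p003_k50, nat_lit 0, nat_lit 0, nat_lit 569, nat_lit 0, nat_lit 688061, [nat_lit 6250000000, nat_lit 7968000000, nat_lit 11872000000], [], [nat_lit 35701292193, nat_lit 35753652295, nat_lit 40877841509, nat_lit 40940745575], nat_lit 1271250, nat_lit 1271250, nat_lit 1271250, nat_lit 1271250, nat_lit 0, nat_lit 0, [nat_lit 1412500, nat_lit 1271250, nat_lit 1271250], [nat_lit 53, nat_lit 40, nat_lit 20, nat_lit 80, nat_lit 14, nat_lit 401, nat_lit 175, nat_lit 10]⟩,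
 zbF0, []⟩
noncomputable def p003_l188 : Lf2 := ⟨nat_lit 0, nat_lit 5, [nat_lit 4, nat_lit 5, nat_lit 5, nat_lit 20], false, nat_lit 0, nat_lit 0, nat_lit 0, nat_lit 0, ⟨nat_lit 1000, nat_lit 0, nat_lit 0, nat_lit 0, nat_lit 0, nat_lit 0, nat_lit 0, nat_lit 0, nat_lit 0, nat_lit 0, nat_lit 0, nat_lit 0, nat_lit 0, nat_lit 0, nat_lit 0, nat_lit 0, false, false⟩,
 nat_lit 0, nat_lit 0, nat_lit 17586, nat_lit 0, nat_lit 7039, nat_lit 7970, nat_lit 2487, nat_lit 0, nat_lit 0, nat_lit 5030, nat_lit 0, nat_lit 0, nat_lit 0, nat_lit 0, nat_lit 0, nat_lit 0, nat_lit 0, nat_lit 0, [],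
 ⟨p003_k7, nat_lit 0, nat_lit 0, nat_lit 226, nat_lit 0, nat_lit 0, [nat_lit 6250000000, nat_lit 7968000001, nat_lit 9842000000], [], [nat_lit 24997405562, nat_lit 25765522878, nat_lit 36051892215, nat_lit 36442097251], nat_lit 0, nat_lit 0, nat_lit 0, nat_lit 0, nat_lit 0, nat_lit 0, [], [nat_lit 25, nat_lit 40, nat_lit 20, nat_lit 80, nat_lit 17, nat_lit 401, nat_lit 175, nat_lit 11]⟩, ⟨p003_k51, nat_lit 0, nat_lit 0, nat_lit 525, nat_lit 0, nat_lit 720586, [nat_lit 6250000000, nat_lit 7968000000, nat_lit 9842000000], [], [nat_lit 32207109390, nat_lit 32297801060, nat_lit 37741043540, nat_lit 38084204440], nat_lit 1271250, nat_lit 1271250, nat_lit 1271250, nat_lit 1271250, nat_lit 0, nat_lit 0, [nat_lit 1412500, nat_lit 1271250, nat_lit 1271250], [nat_lit 25, nat_lit 40, nat_lit 20, nat_lit 80, nat_lit 17, nat_lit 401, nat_lit 175, nat_lit 11]⟩,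
 zbF0, []⟩
noncomputable def p003_l189 : Lf2 := ⟨nat_lit 0, nat_lit 5, [nat_lit 4, nat_lit 5, nat_lit 5, nat_lit 20], true, nat_lit 0, nat_lit 0, nat_lit 0, nat_lit 0, ⟨nat_lit 0, nat_lit 1000, nat_lit 0, nat_lit 5, nat_lit 204, nat_lit 0, nat_lit 0, nat_lit 0, nat_lit 0, nat_lit 0, nat_lit 0, nat_lit 0, nat_lit 0, nat_lit 0, nat_lit 0, nat_lit 5000000, false, true⟩,
 nat_lit 0, nat_lit 0, nat_lit 0, nat_lit 6408, nat_lit 5254, nat_lit 0, nat_lit 110, nat_lit 0, nat_lit 0, nat_lit 0, nat_lit 0, nat_lit 0, nat_lit 0, nat_lit 0, nat_lit 0, nat_lit 1000000, nat_lit 0, nat_lit 0, [(nat_lit 3, [(nat_lit 2, nat_lit 1000)])],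
 ⟨p003_k0, nat_lit 0, nat_lit 0, nat_lit 294, nat_lit 0, nat_lit 0, [nat_lit 3467600001, nat_lit 2309199999], [], [nat_lit 26534631687, nat_lit 27157603343, nat_lit 31562514401, nat_lit 31996069023], nat_lit 0, nat_lit 0, nat_lit 0, nat_lit 0, nat_lit 0, nat_lit 0, [], [nat_lit 51, nat_lit 40, nat_lit 20, nat_lit 80, nat_lit 1, nat_lit 401, nat_lit 175, nat_lit 12]⟩, C1.Rw.none,
 ⟨nat_lit 6324, nat_lit 6709, ⟨.ofNat (nat_lit 69221), .ofNat (nat_lit 930631), .ofNat (nat_lit 90659), .ofNat (nat_lit 952062), .ofNat (nat_lit 88677), .ofNat (nat_lit 911175), .ofNat (nat_lit 110045), .ofNat (nat_lit 932535)⟩, ⟨.ofNat (nat_lit 0), .ofNat (nat_lit 0), .ofNat (nat_lit 0), .ofNat (nat_lit 0), .ofNat (nat_lit 0), .ofNat (nat_lit 0), .ofNat (nat_lit 0), .ofNat (nat_lit 0)⟩⟩, []⟩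
noncomputable def b_NL_550_500_0_0 : St := ⟨false, nat_lit 0, nat_lit 2, nat_lit 0, nat_lit 20, nat_lit 220, nat_lit 240, nat_lit 200, nat_lit 220, nat_lit 0, nat_lit 400, nat_lit 0, nat_lit 0, nat_lit 0, nat_lit 0, nat_lit 0, nat_lit 0, nat_lit 0, nat_lit 28, nat_lit 0, nat_lit 0, nat_lit 0, nat_lit 0⟩
theorem d_NL_550_500_0_0 (h : EB TB.env) : Dead b_NL_550_500_0_0 := chkB_sound0 h (T :=
(.gv
(.st (nat_lit 1)
(.spl (nat_lit 2) (nat_lit 120)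
(.leaf p003_l183)
(.leaf p003_l184))
(.spl (nat_lit 2) (nat_lit 240)
(.spl (nat_lit 2) (nat_lit 120)
(.leaf p003_l185)
(.leaf p003_l186))
(.spl (nat_lit 1) (nat_lit 210)
(.leaf p003_l187)
(.leaf p003_l188))))
(.leaf p003_l189))) (by decide +kernel)
noncomputable def p003_l190 : Lf2 := ⟨nat_lit 0, nat_lit 2, [nat_lit 10, nat_lit 5, nat_lit 5, nat_lit 20], true, nat_lit 0, nat_lit 0, nat_lit 0, nat_lit 0, ⟨nat_lit 0, nat_lit 0, nat_lit 1000, nat_lit 5, nat_lit 42, nat_lit 0, nat_lit 0, nat_lit 0, nat_lit 0, nat_lit 215, nat_lit 17067, nat_lit 247, nat_lit 66264524, nat_lit 0, nat_lit 0, nat_lit 302050, false, false⟩,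
 nat_lit 0, nat_lit 0, nat_lit 0, nat_lit 0, nat_lit 0, nat_lit 0, nat_lit 0, nat_lit 0, nat_lit 293, nat_lit 0, nat_lit 0, nat_lit 0, nat_lit 0, nat_lit 0, nat_lit 53, nat_lit 1000000, nat_lit 0, nat_lit 0, [(nat_lit 3, [(nat_lit 6, nat_lit 1000)])],
 ⟨p003_k2, nat_lit 0, nat_lit 0, nat_lit 0, nat_lit 0, nat_lit 253837, [nat_lit 2101142858, nat_lit 11600000], [], [nat_lit 5417864858, nat_lit 6176726858, nat_lit 5656575716, nat_lit 6394966858], nat_lit 1271250, nat_lit 1271250, nat_lit 0, nat_lit 111251, nat_lit 0, nat_lit 0, [nat_lit 1412500, nat_lit 1271250], [nat_lit 26, nat_lit 40, nat_lit 20, nat_lit 80]⟩, C1.Rw.none,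
 ⟨nat_lit 6324, nat_lit 6709, ⟨.ofNat (nat_lit 69221), .ofNat (nat_lit 112299), .ofNat (nat_lit 79940), .ofNat (nat_lit 123018), .ofNat (nat_lit 88677), .ofNat (nat_lit 129809), .ofNat (nat_lit 99361), .ofNat (nat_lit 140493)⟩, ⟨.ofNat (nat_lit 0), .ofNat (nat_lit 0), .ofNat (nat_lit 0), .ofNat (nat_lit 0), .ofNat (nat_lit 0), .ofNat (nat_lit 0), .ofNat (nat_lit 0), .ofNat (nat_lit 0)⟩⟩, [⟨nat_lit 0, nat_lit 100, nat_lit 99, nat_lit 17, nat_lit 43707881⟩]⟩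
noncomputable def p003_l191 : Lf2 := ⟨nat_lit 0, nat_lit 2, [nat_lit 10, nat_lit 5, nat_lit 5, nat_lit 20], true, nat_lit 0, nat_lit 0, nat_lit 0, nat_lit 0, ⟨nat_lit 0, nat_lit 0, nat_lit 1000, nat_lit 5, nat_lit 42, nat_lit 0, nat_lit 0, nat_lit 0, nat_lit 0, nat_lit 215, nat_lit 17067, nat_lit 247, nat_lit 66264524, nat_lit 0, nat_lit 0, nat_lit 302050, false, false⟩,
 nat_lit 0, nat_lit 4761, nat_lit 0, nat_lit 0, nat_lit 2277, nat_lit 0, nat_lit 0, nat_lit 0, nat_lit 183, nat_lit 0, nat_lit 0, nat_lit 0, nat_lit 0, nat_lit 0, nat_lit 53, nat_lit 1000000, nat_lit 0, nat_lit 0, [(nat_lit 3, [(nat_lit 6, nat_lit 1000)])],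
 ⟨p003_k2, nat_lit 0, nat_lit 0, nat_lit 0, nat_lit 0, nat_lit 253837, [nat_lit 2101142858, nat_lit 11600000], [], [nat_lit 8193658956, nat_lit 9310424370, nat_lit 7745525458, nat_lit 8673031526], nat_lit 1271250, nat_lit 1271250, nat_lit 0, nat_lit 111251, nat_lit 0, nat_lit 0, [nat_lit 1412500, nat_lit 1271250], [nat_lit 26, nat_lit 40, nat_lit 20, nat_lit 80]⟩, C1.Rw.none,
 ⟨nat_lit 6324, nat_lit 6709, ⟨.ofNat (nat_lit 69221), .ofNat (nat_lit 112299), .ofNat (nat_lit 79940), .ofNat (nat_lit 123018), .ofNat (nat_lit 88677), .ofNat (nat_lit 129809), .ofNat (nat_lit 99361), .ofNat (nat_lit 140493)⟩, ⟨.ofNat (nat_lit 0), .ofNat (nat_lit 0), .ofNat (nat_lit 0), .ofNat (nat_lit 0), .ofNat (nat_lit 0), .ofNat (nat_lit 0), .ofNat (nat_lit 0), .ofNat (nat_lit 0)⟩⟩, [⟨nat_lit 0, nat_lit 100, nat_lit 99, nat_lit 17, nat_lit 218108753⟩]⟩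
noncomputable def p003_l192 : Lf2 := ⟨nat_lit 0, nat_lit 1, [nat_lit 19, nat_lit 5, nat_lit 5, nat_lit 20], true, nat_lit 0, nat_lit 0, nat_lit 0, nat_lit 0, ⟨nat_lit 0, nat_lit 0, nat_lit 1000, nat_lit 5, nat_lit 38, nat_lit 0, nat_lit 0, nat_lit 0, nat_lit 0, nat_lit 215, nat_lit 14017, nat_lit 244, nat_lit 66390837, nat_lit 0, nat_lit 0, nat_lit 258676, false, false⟩,
 nat_lit 0, nat_lit 6621, nat_lit 0, nat_lit 0, nat_lit 3166, nat_lit 0, nat_lit 0, nat_lit 0, nat_lit 187, nat_lit 0, nat_lit 0, nat_lit 0, nat_lit 0, nat_lit 0, nat_lit 21, nat_lit 1000000, nat_lit 0, nat_lit 0, [(nat_lit 3, [(nat_lit 6, nat_lit 1000)])],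
 ⟨p003_k52, nat_lit 0, nat_lit 0, nat_lit 0, nat_lit 0, nat_lit 164268, [nat_lit 1315028572, nat_lit 12000000], [], [nat_lit 7617316548, nat_lit 7920013704, nat_lit 7812429656, nat_lit 7400233869], nat_lit 1271250, nat_lit 1271250, nat_lit 0, nat_lit 111251, nat_lit 0, nat_lit 0, [nat_lit 1271250, nat_lit 1271250], [nat_lit 155, nat_lit 40, nat_lit 20, nat_lit 40]⟩, C1.Rw.none,
 ⟨nat_lit 6614, nat_lit 6709, ⟨.ofNat (nat_lit 69221), .ofNat (nat_lit 112299), .ofNat (nat_lit 74581), .ofNat (nat_lit 117658), .ofNat (nat_lit 74168), .ofNat (nat_lit 116751), .ofNat (nat_lit 79523), .ofNat (nat_lit 122106)⟩, ⟨.ofNat (nat_lit 0), .ofNat (nat_lit 0), .ofNat (nat_lit 0), .ofNat (nat_lit 0), .ofNat (nat_lit 0), .ofNat (nat_lit 0), .ofNat (nat_lit 0), .ofNat (nat_lit 0)⟩⟩, [⟨nat_lit 0, nat_lit 100, nat_lit 99, nat_lit 12, nat_lit 53339700⟩]⟩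
noncomputable def p003_l193 : Lf2 := ⟨nat_lit 0, nat_lit 2, [nat_lit 10, nat_lit 5, nat_lit 5, nat_lit 20], true, nat_lit 0, nat_lit 0, nat_lit 0, nat_lit 0, ⟨nat_lit 0, nat_lit 0, nat_lit 1000, nat_lit 5, nat_lit 38, nat_lit 0, nat_lit 0, nat_lit 0, nat_lit 0, nat_lit 215, nat_lit 14017, nat_lit 244, nat_lit 66390837, nat_lit 0, nat_lit 0, nat_lit 258676, false, false⟩,
 nat_lit 0, nat_lit 11208, nat_lit 0, nat_lit 0, nat_lit 5360, nat_lit 0, nat_lit 119, nat_lit 0, nat_lit 0, nat_lit 0, nat_lit 0, nat_lit 0, nat_lit 0, nat_lit 0, nat_lit 53, nat_lit 1000000, nat_lit 0, nat_lit 0, [(nat_lit 3, [(nat_lit 6, nat_lit 1000)])],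
 ⟨p003_k2, nat_lit 0, nat_lit 0, nat_lit 0, nat_lit 0, nat_lit 116466, [nat_lit 2101142858, nat_lit 11600000], [], [nat_lit 13346196688, nat_lit 13633492928, nat_lit 11966873168, nat_lit 12255890376], nat_lit 1271250, nat_lit 1271250, nat_lit 0, nat_lit 111251, nat_lit 0, nat_lit 0, [nat_lit 1412500, nat_lit 1271250], [nat_lit 26, nat_lit 40, nat_lit 20, nat_lit 80]⟩, C1.Rw.none,
 ⟨nat_lit 6614, nat_lit 6709, ⟨.ofNat (nat_lit 69221), .ofNat (nat_lit 112299), .ofNat (nat_lit 74581), .ofNat (nat_lit 117658), .ofNat (nat_lit 74168), .ofNat (nat_lit 116751), .ofNat (nat_lit 79523), .ofNat (nat_lit 122106)⟩, ⟨.ofNat (nat_lit 0), .ofNat (nat_lit 0), .ofNat (nat_lit 0), .ofNat (nat_lit 0), .ofNat (nat_lit 0), .ofNat (nat_lit 0), .ofNat (nat_lit 0), .ofNat (nat_lit 0)⟩⟩, [⟨nat_lit 0, nat_lit 100, nat_lit 99, nat_lit 15, nat_lit 448840677⟩]⟩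
noncomputable def p003_l194 : Lf2 := ⟨nat_lit 0, nat_lit 1, [nat_lit 19, nat_lit 5, nat_lit 5, nat_lit 20], true, nat_lit 0, nat_lit 0, nat_lit 0, nat_lit 0, ⟨nat_lit 0, nat_lit 0, nat_lit 1000, nat_lit 5, nat_lit 34, nat_lit 0, nat_lit 0, nat_lit 0, nat_lit 0, nat_lit 215, nat_lit 11267, nat_lit 241, nat_lit 66511146, nat_lit 0, nat_lit 0, nat_lit 215453, false, false⟩,
 nat_lit 0, nat_lit 13080, nat_lit 0, nat_lit 0, nat_lit 6420, nat_lit 0, nat_lit 2070, nat_lit 0, nat_lit 0, nat_lit 0, nat_lit 0, nat_lit 0, nat_lit 0, nat_lit 0, nat_lit 21, nat_lit 1000000, nat_lit 0, nat_lit 0, [(nat_lit 3, [(nat_lit 6, nat_lit 1000)])],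
 ⟨p003_k53, nat_lit 0, nat_lit 0, nat_lit 0, nat_lit 0, nat_lit 166847, [nat_lit 1315028572, nat_lit 12000000], [], [nat_lit 13252668396, nat_lit 13255592626, nat_lit 13206573496, nat_lit 12702781972], nat_lit 1271250, nat_lit 1271250, nat_lit 0, nat_lit 43600, nat_lit 0, nat_lit 0, [nat_lit 1271250, nat_lit 1271250], [nat_lit 155, nat_lit 40, nat_lit 20, nat_lit 40]⟩, C1.Rw.none,
 ⟨nat_lit 6557, nat_lit 6615, ⟨.ofNat (nat_lit 74168), .ofNat (nat_lit 91202), .ofNat (nat_lit 77381), .ofNat (nat_lit 94414), .ofNat (nat_lit 77109), .ofNat (nat_lit 94025), .ofNat (nat_lit 80320), .ofNat (nat_lit 97236)⟩, ⟨.ofNat (nat_lit 0), .ofNat (nat_lit 0), .ofNat (nat_lit 0), .ofNat (nat_lit 0), .ofNat (nat_lit 0), .ofNat (nat_lit 0), .ofNat (nat_lit 0), .ofNat (nat_lit 0)⟩⟩, [⟨nat_lit 0, nat_lit 100, nat_lit 99, nat_lit 15, nat_lit 129415778⟩]⟩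
noncomputable def p003_l195 : Lf2 := ⟨nat_lit 0, nat_lit 2, [nat_lit 10, nat_lit 5, nat_lit 5, nat_lit 20], true, nat_lit 0, nat_lit 0, nat_lit 0, nat_lit 0, ⟨nat_lit 0, nat_lit 0, nat_lit 1000, nat_lit 5, nat_lit 34, nat_lit 0, nat_lit 0, nat_lit 0, nat_lit 0, nat_lit 215, nat_lit 11267, nat_lit 241, nat_lit 66511146, nat_lit 0, nat_lit 0, nat_lit 215453, false, false⟩,
 nat_lit 0, nat_lit 9685, nat_lit 0, nat_lit 0, nat_lit 4754, nat_lit 0, nat_lit 0, nat_lit 0, nat_lit 125, nat_lit 0, nat_lit 0, nat_lit 0, nat_lit 0, nat_lit 0, nat_lit 53, nat_lit 1000000, nat_lit 0, nat_lit 0, [(nat_lit 3, [(nat_lit 6, nat_lit 1000)])],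
 ⟨p003_k54, nat_lit 0, nat_lit 0, nat_lit 0, nat_lit 0, nat_lit 120429, [nat_lit 2101142858, nat_lit 11600000], [], [nat_lit 10501840641, nat_lit 10582469946, nat_lit 10535205625, nat_lit 10170420461], nat_lit 1271250, nat_lit 1271250, nat_lit 0, nat_lit 43600, nat_lit 0, nat_lit 0, [nat_lit 1412500, nat_lit 1271250], [nat_lit 26, nat_lit 40, nat_lit 20, nat_lit 80]⟩, C1.Rw.none,
 ⟨nat_lit 6557, nat_lit 6615, ⟨.ofNat (nat_lit 74168), .ofNat (nat_lit 91202), .ofNat (nat_lit 77381), .ofNat (nat_lit 94414), .ofNat (nat_lit 77109), .ofNat (nat_lit 94025), .ofNat (nat_lit 80320), .ofNat (nat_lit 97236)⟩, ⟨.ofNat (nat_lit 0), .ofNat (nat_lit 0), .ofNat (nat_lit 0), .ofNat (nat_lit 0), .ofNat (nat_lit 0), .ofNat (nat_lit 0), .ofNat (nat_lit 0), .ofNat (nat_lit 0)⟩⟩, [⟨nat_lit 0, nat_lit 100, nat_lit 99, nat_lit 15, nat_lit 79243213⟩]⟩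
noncomputable def p003_l196 : Lf2 := ⟨nat_lit 0, nat_lit 1, [nat_lit 19, nat_lit 5, nat_lit 5, nat_lit 20], true, nat_lit 0, nat_lit 0, nat_lit 0, nat_lit 0, ⟨nat_lit 0, nat_lit 0, nat_lit 1000, nat_lit 5, nat_lit 35, nat_lit 0, nat_lit 0, nat_lit 0, nat_lit 0, nat_lit 215, nat_lit 11267, nat_lit 241, nat_lit 66485957, nat_lit 0, nat_lit 0, nat_lit 224678, false, false⟩,
 nat_lit 0, nat_lit 13186, nat_lit 0, nat_lit 0, nat_lit 6473, nat_lit 0, nat_lit 2092, nat_lit 0, nat_lit 0, nat_lit 0, nat_lit 0, nat_lit 0, nat_lit 0, nat_lit 0, nat_lit 21, nat_lit 1000000, nat_lit 0, nat_lit 0, [(nat_lit 3, [(nat_lit 6, nat_lit 1000)])],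
 ⟨p003_k53, nat_lit 0, nat_lit 0, nat_lit 0, nat_lit 0, nat_lit 168526, [nat_lit 1315028572, nat_lit 12000000], [], [nat_lit 13186802858, nat_lit 13190634429, nat_lit 13138887673, nat_lit 12800253973], nat_lit 1271250, nat_lit 1271250, nat_lit 0, nat_lit 43600, nat_lit 0, nat_lit 0, [nat_lit 1271250, nat_lit 1271250], [nat_lit 155, nat_lit 40, nat_lit 20, nat_lit 40]⟩, C1.Rw.none,
 ⟨nat_lit 6576, nat_lit 6615, ⟨.ofNat (nat_lit 77381), .ofNat (nat_lit 94414), .ofNat (nat_lit 79523), .ofNat (nat_lit 96556), .ofNat (nat_lit 79343), .ofNat (nat_lit 96297), .ofNat (nat_lit 81484), .ofNat (nat_lit 98438)⟩, ⟨.ofNat (nat_lit 0), .ofNat (nat_lit 0), .ofNat (nat_lit 0), .ofNat (nat_lit 0), .ofNat (nat_lit 0), .ofNat (nat_lit 0), .ofNat (nat_lit 0), .ofNat (nat_lit 0)⟩⟩, [⟨nat_lit 0, nat_lit 100, nat_lit 99, nat_lit 15, nat_lit 130967670⟩]⟩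
noncomputable def p003_l197 : Lf2 := ⟨nat_lit 0, nat_lit 2, [nat_lit 10, nat_lit 5, nat_lit 5, nat_lit 20], true, nat_lit 0, nat_lit 0, nat_lit 0, nat_lit 0, ⟨nat_lit 0, nat_lit 0, nat_lit 1000, nat_lit 5, nat_lit 35, nat_lit 0, nat_lit 0, nat_lit 0, nat_lit 0, nat_lit 215, nat_lit 11267, nat_lit 241, nat_lit 66491512, nat_lit 0, nat_lit 0, nat_lit 222659, false, false⟩,
 nat_lit 0, nat_lit 10891, nat_lit 0, nat_lit 0, nat_lit 5346, nat_lit 0, nat_lit 85, nat_lit 0, nat_lit 0, nat_lit 0, nat_lit 0, nat_lit 0, nat_lit 0, nat_lit 0, nat_lit 53, nat_lit 1000000, nat_lit 0, nat_lit 0, [(nat_lit 3, [(nat_lit 6, nat_lit 1000)])],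
 ⟨p003_k54, nat_lit 0, nat_lit 0, nat_lit 0, nat_lit 0, nat_lit 117785, [nat_lit 2101142858, nat_lit 11600000], [], [nat_lit 13649654310, nat_lit 13707047103, nat_lit 13099556142, nat_lit 13157474674], nat_lit 1271250, nat_lit 1271250, nat_lit 0, nat_lit 43600, nat_lit 0, nat_lit 0, [nat_lit 1412500, nat_lit 1271250], [nat_lit 26, nat_lit 40, nat_lit 20, nat_lit 80]⟩, C1.Rw.none,
 ⟨nat_lit 6595, nat_lit 6615, ⟨.ofNat (nat_lit 77381), .ofNat (nat_lit 94414), .ofNat (nat_lit 79523), .ofNat (nat_lit 96556), .ofNat (nat_lit 78363), .ofNat (nat_lit 95357), .ofNat (nat_lit 80504), .ofNat (nat_lit 97498)⟩, ⟨.ofNat (nat_lit 0), .ofNat (nat_lit 0), .ofNat (nat_lit 0), .ofNat (nat_lit 0), .ofNat (nat_lit 0), .ofNat (nat_lit 0), .ofNat (nat_lit 0), .ofNat (nat_lit 0)⟩⟩, [⟨nat_lit 0, nat_lit 100, nat_lit 99, nat_lit 15, nat_lit 447063404⟩]⟩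
noncomputable def p003_l198 : Lf2 := ⟨nat_lit 0, nat_lit 2, [nat_lit 10, nat_lit 5, nat_lit 5, nat_lit 20], true, nat_lit 0, nat_lit 0, nat_lit 0, nat_lit 0, ⟨nat_lit 0, nat_lit 0, nat_lit 1000, nat_lit 5, nat_lit 33, nat_lit 0, nat_lit 0, nat_lit 0, nat_lit 0, nat_lit 215, nat_lit 10417, nat_lit 240, nat_lit 66534639, nat_lit 0, nat_lit 0, nat_lit 206753, false, false⟩,
 nat_lit 0, nat_lit 9714, nat_lit 0, nat_lit 0, nat_lit 4793, nat_lit 0, nat_lit 0, nat_lit 0, nat_lit 130, nat_lit 0, nat_lit 0, nat_lit 0, nat_lit 0, nat_lit 0, nat_lit 53, nat_lit 1000000, nat_lit 0, nat_lit 0, [(nat_lit 3, [(nat_lit 6, nat_lit 1000)])],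
 ⟨p003_k55, nat_lit 0, nat_lit 0, nat_lit 0, nat_lit 0, nat_lit 118454, [nat_lit 2101142858, nat_lit 11600000], [], [nat_lit 10349235180, nat_lit 10419172305, nat_lit 10048736307, nat_lit 10102079062], nat_lit 1271250, nat_lit 1271250, nat_lit 0, nat_lit 21650, nat_lit 0, nat_lit 0, [nat_lit 1412500, nat_lit 1271250], [nat_lit 26, nat_lit 40, nat_lit 20, nat_lit 80]⟩, C1.Rw.none,
 ⟨nat_lit 6576, nat_lit 6596, ⟨.ofNat (nat_lit 78363), .ofNat (nat_lit 86860), .ofNat (nat_lit 79434), .ofNat (nat_lit 87931), .ofNat (nat_lit 79343), .ofNat (nat_lit 87820), .ofNat (nat_lit 80413), .ofNat (nat_lit 88890)⟩, ⟨.ofNat (nat_lit 0), .ofNat (nat_lit 0), .ofNat (nat_lit 0), .ofNat (nat_lit 0), .ofNat (nat_lit 0), .ofNat (nat_lit 0), .ofNat (nat_lit 0), .ofNat (nat_lit 0)⟩⟩, [⟨nat_lit 0, nat_lit 100, nat_lit 99, nat_lit 15, nat_lit 497243720⟩]⟩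
noncomputable def p003_l199 : Lf2 := ⟨nat_lit 0, nat_lit 2, [nat_lit 10, nat_lit 5, nat_lit 5, nat_lit 20], true, nat_lit 0, nat_lit 0, nat_lit 0, nat_lit 0, ⟨nat_lit 0, nat_lit 0, nat_lit 1000, nat_lit 5, nat_lit 34, nat_lit 0, nat_lit 0, nat_lit 0, nat_lit 0, nat_lit 215, nat_lit 10417, nat_lit 240, nat_lit 66522735, nat_lit 0, nat_lit 0, nat_lit 211180, false, false⟩,
 nat_lit 0, nat_lit 5245, nat_lit 0, nat_lit 0, nat_lit 2588, nat_lit 0, nat_lit 0, nat_lit 0, nat_lit 206, nat_lit 0, nat_lit 0, nat_lit 0, nat_lit 0, nat_lit 0, nat_lit 53, nat_lit 1000000, nat_lit 0, nat_lit 0, [(nat_lit 3, [(nat_lit 6, nat_lit 1000)])],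
 ⟨p003_k55, nat_lit 0, nat_lit 0, nat_lit 0, nat_lit 0, nat_lit 121543, [nat_lit 2101142858, nat_lit 11600000], [], [nat_lit 8161997475, nat_lit 8220279926, nat_lit 8011003523, nat_lit 8069296142], nat_lit 1271250, nat_lit 1271250, nat_lit 0, nat_lit 21650, nat_lit 0, nat_lit 0, [nat_lit 1412500, nat_lit 1271250], [nat_lit 26, nat_lit 40, nat_lit 20, nat_lit 80]⟩, C1.Rw.none,
 ⟨nat_lit 6576, nat_lit 6596, ⟨.ofNat (nat_lit 79434), .ofNat (nat_lit 87931), .ofNat (nat_lit 80504), .ofNat (nat_lit 89001), .ofNat (nat_lit 80413), .ofNat (nat_lit 88890), .ofNat (nat_lit 81484), .ofNat (nat_lit 89961)⟩, ⟨.ofNat (nat_lit 0), .ofNat (nat_lit 0), .ofNat (nat_lit 0), .ofNat (nat_lit 0), .ofNat (nat_lit 0), .ofNat (nat_lit 0), .ofNat (nat_lit 0), .ofNat (nat_lit 0)⟩⟩, [⟨nat_lit 0, nat_lit 100, nat_lit 99, nat_lit 15, nat_lit 290814409⟩]⟩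
noncomputable def p003_l200 : Lf2 := ⟨nat_lit 0, nat_lit 2, [nat_lit 10, nat_lit 5, nat_lit 5, nat_lit 20], true, nat_lit 0, nat_lit 0, nat_lit 0, nat_lit 0, ⟨nat_lit 0, nat_lit 0, nat_lit 1000, nat_lit 5, nat_lit 34, nat_lit 0, nat_lit 0, nat_lit 0, nat_lit 0, nat_lit 215, nat_lit 10417, nat_lit 240, nat_lit 66522735, nat_lit 0, nat_lit 0, nat_lit 211180, false, false⟩,
 nat_lit 0, nat_lit 100000, nat_lit 0, nat_lit 0, nat_lit 49344, nat_lit 0, nat_lit 20808, nat_lit 2394, nat_lit 0, nat_lit 0, nat_lit 0, nat_lit 0, nat_lit 0, nat_lit 0, nat_lit 0, nat_lit 1000000, nat_lit 0, nat_lit 0, [(nat_lit 3, [(nat_lit 6, nat_lit 1000)])],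
 ⟨p003_k56, nat_lit 0, nat_lit 0, nat_lit 0, nat_lit 0, nat_lit 121543, [nat_lit 44029028572, nat_lit 48025600001, nat_lit 56410399999], [], [nat_lit 77977973036, nat_lit 78341647489, nat_lit 74522738441, nat_lit 74716950749], nat_lit 1271250, nat_lit 1271250, nat_lit 0, nat_lit 21650, nat_lit 0, nat_lit 0, [nat_lit 1271250, nat_lit 1271250, nat_lit 1271250], [nat_lit 170, nat_lit 40, nat_lit 20, nat_lit 40]⟩, C1.Rw.none,
 ⟨nat_lit 6576, nat_lit 6596, ⟨.ofNat (nat_lit 79434), .ofNat (nat_lit 87931), .ofNat (nat_lit 80504), .ofNat (nat_lit 89001), .ofNat (nat_lit 80413), .ofNat (nat_lit 88890), .ofNat (nat_lit 81484), .ofNat (nat_lit 89961)⟩, ⟨.ofNat (nat_lit 0), .ofNat (nat_lit 0), .ofNat (nat_lit 0), .ofNat (nat_lit 0), .ofNat (nat_lit 0), .ofNat (nat_lit 0), .ofNat (nat_lit 0), .ofNat (nat_lit 0)⟩⟩, [⟨nat_lit 0, nat_lit 100, nat_lit 99, nat_lit 16, nat_lit 4698860999⟩]⟩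
noncomputable def p003_l201 : Lf2 := ⟨nat_lit 0, nat_lit 2, [nat_lit 10, nat_lit 5, nat_lit 5, nat_lit 20], true, nat_lit 0, nat_lit 0, nat_lit 0, nat_lit 0, ⟨nat_lit 0, nat_lit 0, nat_lit 1000, nat_lit 5, nat_lit 34, nat_lit 0, nat_lit 0, nat_lit 0, nat_lit 0, nat_lit 215, nat_lit 10417, nat_lit 240, nat_lit 66522735, nat_lit 0, nat_lit 0, nat_lit 211180, false, false⟩,
 nat_lit 0, nat_lit 100000, nat_lit 0, nat_lit 0, nat_lit 49344, nat_lit 0, nat_lit 19840, nat_lit 0, nat_lit 280, nat_lit 0, nat_lit 0, nat_lit 0, nat_lit 0, nat_lit 0, nat_lit 53, nat_lit 1000000, nat_lit 33871323671, nat_lit 0, [(nat_lit 3, [(nat_lit 6, nat_lit 1000)])],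
 ⟨p003_k57, nat_lit 0, nat_lit 0, nat_lit 0, nat_lit 0, nat_lit 121543, [nat_lit 1122533334, nat_lit 1819066667, nat_lit 716000001, nat_lit 11600000], [], [nat_lit 2928579005, nat_lit 3197389048, nat_lit 0, nat_lit 269044355], nat_lit 1271250, nat_lit 1271250, nat_lit 0, nat_lit 21650, nat_lit 0, nat_lit 0, [nat_lit 631250, nat_lit 1271250, nat_lit 1271250, nat_lit 1271250], [nat_lit 139, nat_lit 40, nat_lit 20, nat_lit 40]⟩, C1.Rw.none,
 ⟨nat_lit 6576, nat_lit 6596, ⟨.ofNat (nat_lit 79434), .ofNat (nat_lit 87931), .ofNat (nat_lit 80504), .ofNat (nat_lit 89001), .ofNat (nat_lit 80413), .ofNat (nat_lit 88890), .ofNat (nat_lit 81484), .ofNat (nat_lit 89961)⟩, ⟨.ofNat (nat_lit 0), .ofNat (nat_lit 0), .ofNat (nat_lit 0), .ofNat (nat_lit 0), .ofNat (nat_lit 0), .ofNat (nat_lit 0), .ofNat (nat_lit 0), .ofNat (nat_lit 0)⟩⟩, [⟨nat_lit 0, nat_lit 100, nat_lit 99, nat_lit 16, nat_lit 3797128279⟩]⟩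
noncomputable def p003_l202 : Lf2 := ⟨nat_lit 0, nat_lit 2, [nat_lit 10, nat_lit 5, nat_lit 5, nat_lit 20], true, nat_lit 0, nat_lit 0, nat_lit 0, nat_lit 0, ⟨nat_lit 0, nat_lit 0, nat_lit 1000, nat_lit 5, nat_lit 37, nat_lit 0, nat_lit 0, nat_lit 0, nat_lit 0, nat_lit 215, nat_lit 13067, nat_lit 243, nat_lit 66429717, nat_lit 0, nat_lit 0, nat_lit 244931, false, false⟩,
 nat_lit 0, nat_lit 10965, nat_lit 0, nat_lit 0, nat_lit 5410, nat_lit 0, nat_lit 88, nat_lit 0, nat_lit 0, nat_lit 0, nat_lit 0, nat_lit 0, nat_lit 0, nat_lit 0, nat_lit 53, nat_lit 1000000, nat_lit 0, nat_lit 0, [(nat_lit 3, [(nat_lit 6, nat_lit 1000)])],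
 ⟨p003_k55, nat_lit 0, nat_lit 0, nat_lit 0, nat_lit 0, nat_lit 121543, [nat_lit 2101142858, nat_lit 11600000], [], [nat_lit 13391476623, nat_lit 13449167424, nat_lit 13112554379, nat_lit 13170587505], nat_lit 1271250, nat_lit 1271250, nat_lit 21650, nat_lit 43600, nat_lit 0, nat_lit 0, [nat_lit 1412500, nat_lit 1271250], [nat_lit 26, nat_lit 40, nat_lit 20, nat_lit 80]⟩, C1.Rw.none,
 ⟨nat_lit 6576, nat_lit 6596, ⟨.ofNat (nat_lit 86860), .ofNat (nat_lit 95357), .ofNat (nat_lit 89001), .ofNat (nat_lit 97498), .ofNat (nat_lit 87820), .ofNat (nat_lit 96297), .ofNat (nat_lit 89961), .ofNat (nat_lit 98438)⟩, ⟨.ofNat (nat_lit 0), .ofNat (nat_lit 0), .ofNat (nat_lit 0), .ofNat (nat_lit 0), .ofNat (nat_lit 0), .ofNat (nat_lit 0), .ofNat (nat_lit 0), .ofNat (nat_lit 0)⟩⟩, []⟩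
noncomputable def p003_l203 : Lf2 := ⟨nat_lit 0, nat_lit 2, [nat_lit 10, nat_lit 5, nat_lit 5, nat_lit 20], true, nat_lit 0, nat_lit 0, nat_lit 0, nat_lit 0, ⟨nat_lit 0, nat_lit 0, nat_lit 1000, nat_lit 5, nat_lit 36, nat_lit 0, nat_lit 0, nat_lit 0, nat_lit 0, nat_lit 215, nat_lit 12150, nat_lit 242, nat_lit 66469119, nat_lit 0, nat_lit 0, nat_lit 230789, false, false⟩,
 nat_lit 0, nat_lit 9724, nat_lit 0, nat_lit 0, nat_lit 4822, nat_lit 0, nat_lit 1123, nat_lit 0, nat_lit 0, nat_lit 0, nat_lit 0, nat_lit 0, nat_lit 0, nat_lit 0, nat_lit 53, nat_lit 1000000, nat_lit 0, nat_lit 0, [(nat_lit 3, [(nat_lit 6, nat_lit 1000)])],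
 ⟨p003_k58, nat_lit 0, nat_lit 0, nat_lit 0, nat_lit 0, nat_lit 174499, [nat_lit 1891028572, nat_lit 1205600001, nat_lit 226399999], [], [nat_lit 12730654380, nat_lit 12782602926, nat_lit 12340540568, nat_lit 12392388572], nat_lit 1271250, nat_lit 1271250, nat_lit 0, nat_lit 43600, nat_lit 0, nat_lit 0, [nat_lit 1271250, nat_lit 1271250, nat_lit 1271250], [nat_lit 170, nat_lit 40, nat_lit 20, nat_lit 40]⟩, C1.Rw.none,
 ⟨nat_lit 6557, nat_lit 6577, ⟨.ofNat (nat_lit 79343), .ofNat (nat_lit 96297), .ofNat (nat_lit 81484), .ofNat (nat_lit 98438), .ofNat (nat_lit 80320), .ofNat (nat_lit 97236), .ofNat (nat_lit 82461), .ofNat (nat_lit 99376)⟩, ⟨.ofNat (nat_lit 0), .ofNat (nat_lit 0), .ofNat (nat_lit 0), .ofNat (nat_lit 0), .ofNat (nat_lit 0), .ofNat (nat_lit 0), .ofNat (nat_lit 0), .ofNat (nat_lit 0)⟩⟩, [⟨nat_lit 0, nat_lit 100, nat_lit 99, nat_lit 16, nat_lit 346499357⟩]⟩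
noncomputable def p003_l204 : Lf2 := ⟨nat_lit 0, nat_lit 2, [nat_lit 10, nat_lit 5, nat_lit 5, nat_lit 20], true, nat_lit 0, nat_lit 0, nat_lit 0, nat_lit 0, ⟨nat_lit 0, nat_lit 0, nat_lit 1000, nat_lit 5, nat_lit 43, nat_lit 0, nat_lit 0, nat_lit 0, nat_lit 0, nat_lit 215, nat_lit 17067, nat_lit 247, nat_lit 66227232, nat_lit 0, nat_lit 0, nat_lit 314524, false, false⟩,
 nat_lit 0, nat_lit 12259, nat_lit 0, nat_lit 0, nat_lit 6018, nat_lit 0, nat_lit 1699, nat_lit 58, nat_lit 0, nat_lit 0, nat_lit 0, nat_lit 0, nat_lit 0, nat_lit 0, nat_lit 0, nat_lit 1000000, nat_lit 0, nat_lit 0, [(nat_lit 3, [(nat_lit 6, nat_lit 1000)])],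
 ⟨p003_k59, nat_lit 0, nat_lit 0, nat_lit 0, nat_lit 0, nat_lit 176358, [nat_lit 1981028572, nat_lit 1305600000, nat_lit 346400000], [], [nat_lit 13423685439, nat_lit 13594419099, nat_lit 12910591265, nat_lit 12818436843], nat_lit 1271250, nat_lit 1271250, nat_lit 43600, nat_lit 111251, nat_lit 0, nat_lit 0, [nat_lit 1271250, nat_lit 1271250, nat_lit 1271250], [nat_lit 170, nat_lit 40, nat_lit 20, nat_lit 40]⟩, C1.Rw.none,
 ⟨nat_lit 6557, nat_lit 6615, ⟨.ofNat (nat_lit 91202), .ofNat (nat_lit 116751), .ofNat (nat_lit 96556), .ofNat (nat_lit 122106), .ofNat (nat_lit 94025), .ofNat (nat_lit 119398), .ofNat (nat_lit 99376), .ofNat (nat_lit 124750)⟩, ⟨.ofNat (nat_lit 0), .ofNat (nat_lit 0), .ofNat (nat_lit 0), .ofNat (nat_lit 0), .ofNat (nat_lit 0), .ofNat (nat_lit 0), .ofNat (nat_lit 0), .ofNat (nat_lit 0)⟩⟩, []⟩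
noncomputable def p003_l205 : Lf2 := ⟨nat_lit 0, nat_lit 2, [nat_lit 10, nat_lit 5, nat_lit 5, nat_lit 20], true, nat_lit 0, nat_lit 0, nat_lit 0, nat_lit 0, ⟨nat_lit 0, nat_lit 0, nat_lit 1000, nat_lit 5, nat_lit 41, nat_lit 0, nat_lit 0, nat_lit 0, nat_lit 0, nat_lit 215, nat_lit 16017, nat_lit 246, nat_lit 66312050, nat_lit 0, nat_lit 0, nat_lit 285941, false, false⟩,
 nat_lit 0, nat_lit 4769, nat_lit 0, nat_lit 0, nat_lit 2377, nat_lit 0, nat_lit 0, nat_lit 0, nat_lit 203, nat_lit 0, nat_lit 0, nat_lit 0, nat_lit 0, nat_lit 0, nat_lit 53, nat_lit 1000000, nat_lit 0, nat_lit 0, [(nat_lit 3, [(nat_lit 6, nat_lit 1000)])],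
 ⟨p003_k60, nat_lit 0, nat_lit 0, nat_lit 0, nat_lit 0, nat_lit 182275, [nat_lit 2101142858, nat_lit 11600000], [], [nat_lit 8271939802, nat_lit 8385188163, nat_lit 8548668135, nat_lit 8427611328], nat_lit 1271250, nat_lit 1271250, nat_lit 0, nat_lit 111251, nat_lit 0, nat_lit 0, [nat_lit 1412500, nat_lit 1271250], [nat_lit 26, nat_lit 40, nat_lit 20, nat_lit 80]⟩, C1.Rw.none,
 ⟨nat_lit 6519, nat_lit 6558, ⟨.ofNat (nat_lit 77109), .ofNat (nat_lit 119398), .ofNat (nat_lit 82461), .ofNat (nat_lit 124750), .ofNat (nat_lit 79059), .ofNat (nat_lit 121153), .ofNat (nat_lit 84408), .ofNat (nat_lit 126502)⟩, ⟨.ofNat (nat_lit 0), .ofNat (nat_lit 0), .ofNat (nat_lit 0), .ofNat (nat_lit 0), .ofNat (nat_lit 0), .ofNat (nat_lit 0), .ofNat (nat_lit 0), .ofNat (nat_lit 0)⟩⟩, [⟨nat_lit 0, nat_lit 100, nat_lit 99, nat_lit 16, nat_lit 28031236⟩]⟩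
noncomputable def p003_l206 : Lf2 := ⟨nat_lit 0, nat_lit 2, [nat_lit 10, nat_lit 5, nat_lit 5, nat_lit 20], true, nat_lit 0, nat_lit 0, nat_lit 0, nat_lit 0, ⟨nat_lit 0, nat_lit 0, nat_lit 1000, nat_lit 5, nat_lit 40, nat_lit 0, nat_lit 0, nat_lit 0, nat_lit 0, nat_lit 215, nat_lit 15000, nat_lit 245, nat_lit 66321505, nat_lit 0, nat_lit 0, nat_lit 282709, false, false⟩,
 nat_lit 0, nat_lit 10207, nat_lit 0, nat_lit 0, nat_lit 4881, nat_lit 0, nat_lit 1233, nat_lit 0, nat_lit 0, nat_lit 0, nat_lit 0, nat_lit 0, nat_lit 0, nat_lit 0, nat_lit 53, nat_lit 1000000, nat_lit 0, nat_lit 0, [(nat_lit 3, [(nat_lit 6, nat_lit 1000)])],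
 ⟨p003_k61, nat_lit 0, nat_lit 0, nat_lit 0, nat_lit 0, nat_lit 184646, [nat_lit 1891028572, nat_lit 1205600001, nat_lit 226399999], [], [nat_lit 12462094411, nat_lit 12688717825, nat_lit 12547046565, nat_lit 11916309102], nat_lit 1271250, nat_lit 1271250, nat_lit 0, nat_lit 111251, nat_lit 0, nat_lit 0, [nat_lit 1271250, nat_lit 1271250, nat_lit 1271250], [nat_lit 170, nat_lit 40, nat_lit 20, nat_lit 40]⟩, C1.Rw.none,
 ⟨nat_lit 6614, nat_lit 6709, ⟨.ofNat (nat_lit 74581), .ofNat (nat_lit 117658), .ofNat (nat_lit 79940), .ofNat (nat_lit 123018), .ofNat (nat_lit 79523), .ofNat (nat_lit 122106), .ofNat (nat_lit 84877), .ofNat (nat_lit 127460)⟩, ⟨.ofNat (nat_lit 0), .ofNat (nat_lit 0), .ofNat (nat_lit 0), .ofNat (nat_lit 0), .ofNat (nat_lit 0), .ofNat (nat_lit 0), .ofNat (nat_lit 0), .ofNat (nat_lit 0)⟩⟩, [⟨nat_lit 0, nat_lit 100, nat_lit 99, nat_lit 17, nat_lit 101231410⟩]⟩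
noncomputable def p003_l207 : Lf2 := ⟨nat_lit 0, nat_lit 2, [nat_lit 10, nat_lit 5, nat_lit 5, nat_lit 20], true, nat_lit 0, nat_lit 0, nat_lit 0, nat_lit 0, ⟨nat_lit 0, nat_lit 0, nat_lit 1000, nat_lit 5, nat_lit 42, nat_lit 0, nat_lit 0, nat_lit 0, nat_lit 0, nat_lit 215, nat_lit 17067, nat_lit 247, nat_lit 66258179, nat_lit 0, nat_lit 0, nat_lit 304183, false, false⟩,
 nat_lit 0, nat_lit 6194, nat_lit 0, nat_lit 0, nat_lit 3040, nat_lit 0, nat_lit 321, nat_lit 0, nat_lit 171, nat_lit 0, nat_lit 0, nat_lit 0, nat_lit 0, nat_lit 0, nat_lit 53, nat_lit 1000000, nat_lit 0, nat_lit 0, [(nat_lit 3, [(nat_lit 6, nat_lit 1000)])],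
 ⟨p003_k59, nat_lit 0, nat_lit 0, nat_lit 0, nat_lit 0, nat_lit 201267, [nat_lit 1891028572, nat_lit 1205600001, nat_lit 226399999], [], [nat_lit 8219149876, nat_lit 8504343532, nat_lit 8430504036, nat_lit 8034712756], nat_lit 1271250, nat_lit 1271250, nat_lit 0, nat_lit 111251, nat_lit 0, nat_lit 0, [nat_lit 1271250, nat_lit 1271250, nat_lit 1271250], [nat_lit 170, nat_lit 40, nat_lit 20, nat_lit 40]⟩, C1.Rw.none,
 ⟨nat_lit 6519, nat_lit 6615, ⟨.ofNat (nat_lit 79523), .ofNat (nat_lit 122106), .ofNat (nat_lit 84877), .ofNat (nat_lit 127460), .ofNat (nat_lit 84408), .ofNat (nat_lit 126502), .ofNat (nat_lit 89758), .ofNat (nat_lit 131852)⟩, ⟨.ofNat (nat_lit 0), .ofNat (nat_lit 0), .ofNat (nat_lit 0), .ofNat (nat_lit 0), .ofNat (nat_lit 0), .ofNat (nat_lit 0), .ofNat (nat_lit 0), .ofNat (nat_lit 0)⟩⟩, [⟨nat_lit 0, nat_lit 100, nat_lit 99, nat_lit 17, nat_lit 50603208⟩]⟩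
noncomputable def p003_l208 : Lf2 := ⟨nat_lit 0, nat_lit 2, [nat_lit 10, nat_lit 5, nat_lit 5, nat_lit 20], true, nat_lit 0, nat_lit 0, nat_lit 0, nat_lit 0, ⟨nat_lit 0, nat_lit 0, nat_lit 1000, nat_lit 5, nat_lit 39, nat_lit 0, nat_lit 0, nat_lit 0, nat_lit 0, nat_lit 215, nat_lit 15000, nat_lit 245, nat_lit 66356626, nat_lit 0, nat_lit 0, nat_lit 270607, false, false⟩,
 nat_lit 0, nat_lit 100000, nat_lit 0, nat_lit 0, nat_lit 47826, nat_lit 0, nat_lit 21593, nat_lit 2237, nat_lit 0, nat_lit 0, nat_lit 0, nat_lit 0, nat_lit 0, nat_lit 0, nat_lit 0, nat_lit 1000000, nat_lit 0, nat_lit 0, [(nat_lit 3, [(nat_lit 6, nat_lit 1000)])],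
 ⟨p003_k61, nat_lit 0, nat_lit 0, nat_lit 0, nat_lit 0, nat_lit 184646, [nat_lit 41203028572, nat_lit 44885600001, nat_lit 52642399999], [], [nat_lit 73816334922, nat_lit 74949896035, nat_lit 64461256465, nat_lit 62960580923], nat_lit 1271250, nat_lit 1271250, nat_lit 0, nat_lit 111251, nat_lit 0, nat_lit 0, [nat_lit 1271250, nat_lit 1271250, nat_lit 1271250], [nat_lit 170, nat_lit 40, nat_lit 20, nat_lit 40]⟩, C1.Rw.none,
 ⟨nat_lit 6614, nat_lit 6709, ⟨.ofNat (nat_lit 69221), .ofNat (nat_lit 112299), .ofNat (nat_lit 79940), .ofNat (nat_lit 123018), .ofNat (nat_lit 74168), .ofNat (nat_lit 116751), .ofNat (nat_lit 84877), .ofNat (nat_lit 127460)⟩, ⟨.ofNat (nat_lit 0), .ofNat (nat_lit 0), .ofNat (nat_lit 0), .ofNat (nat_lit 0), .ofNat (nat_lit 0), .ofNat (nat_lit 0), .ofNat (nat_lit 0), .ofNat (nat_lit 0)⟩⟩, [⟨nat_lit 0, nat_lit 100, nat_lit 99, nat_lit 17, nat_lit 3128747104⟩]⟩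
noncomputable def p003_l209 : Lf2 := ⟨nat_lit 0, nat_lit 2, [nat_lit 10, nat_lit 5, nat_lit 5, nat_lit 20], true, nat_lit 0, nat_lit 0, nat_lit 0, nat_lit 0, ⟨nat_lit 0, nat_lit 0, nat_lit 1000, nat_lit 5, nat_lit 41, nat_lit 0, nat_lit 0, nat_lit 0, nat_lit 0, nat_lit 215, nat_lit 16017, nat_lit 246, nat_lit 66294837, nat_lit 0, nat_lit 0, nat_lit 291808, false, false⟩,
 nat_lit 0, nat_lit 13102, nat_lit 0, nat_lit 0, nat_lit 6431, nat_lit 0, nat_lit 1888, nat_lit 0, nat_lit 0, nat_lit 0, nat_lit 0, nat_lit 0, nat_lit 0, nat_lit 0, nat_lit 53, nat_lit 1000000, nat_lit 0, nat_lit 0, [(nat_lit 3, [(nat_lit 6, nat_lit 1000)])],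
 ⟨p003_k59, nat_lit 0, nat_lit 0, nat_lit 0, nat_lit 0, nat_lit 201267, [nat_lit 1891028572, nat_lit 1205600001, nat_lit 226399999], [], [nat_lit 13238998190, nat_lit 13248810201, nat_lit 13189725177, nat_lit 12352444347], nat_lit 1271250, nat_lit 1271250, nat_lit 0, nat_lit 111251, nat_lit 0, nat_lit 0, [nat_lit 1271250, nat_lit 1271250, nat_lit 1271250], [nat_lit 170, nat_lit 40, nat_lit 20, nat_lit 40]⟩, C1.Rw.none,
 ⟨nat_lit 6519, nat_lit 6615, ⟨.ofNat (nat_lit 74168), .ofNat (nat_lit 116751), .ofNat (nat_lit 84877), .ofNat (nat_lit 127460), .ofNat (nat_lit 79059), .ofNat (nat_lit 121153), .ofNat (nat_lit 89758), .ofNat (nat_lit 131852)⟩, ⟨.ofNat (nat_lit 0), .ofNat (nat_lit 0), .ofNat (nat_lit 0), .ofNat (nat_lit 0), .ofNat (nat_lit 0), .ofNat (nat_lit 0), .ofNat (nat_lit 0), .ofNat (nat_lit 0)⟩⟩, [⟨nat_lit 0, nat_lit 100, nat_lit 99, nat_lit 20, nat_lit 115572314⟩]⟩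
noncomputable def p003_l210 : Lf2 := ⟨nat_lit 0, nat_lit 2, [nat_lit 10, nat_lit 5, nat_lit 5, nat_lit 20], true, nat_lit 0, nat_lit 0, nat_lit 0, nat_lit 0, ⟨nat_lit 0, nat_lit 0, nat_lit 1000, nat_lit 5, nat_lit 44, nat_lit 0, nat_lit 0, nat_lit 0, nat_lit 0, nat_lit 215, nat_lit 18150, nat_lit 248, nat_lit 66198701, nat_lit 0, nat_lit 0, nat_lit 323971, false, false⟩,
 nat_lit 0, nat_lit 10990, nat_lit 0, nat_lit 0, nat_lit 5535, nat_lit 0, nat_lit 1404, nat_lit 0, nat_lit 0, nat_lit 0, nat_lit 0, nat_lit 0, nat_lit 0, nat_lit 0, nat_lit 53, nat_lit 1000000, nat_lit 0, nat_lit 0, [(nat_lit 3, [(nat_lit 6, nat_lit 1000)])],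
 ⟨p003_k62, nat_lit 0, nat_lit 0, nat_lit 0, nat_lit 0, nat_lit 240685, [nat_lit 1891028572, nat_lit 1205600001, nat_lit 226399999], [], [nat_lit 13626406236, nat_lit 13742385639, nat_lit 13651464251, nat_lit 12210211136], nat_lit 1271250, nat_lit 1271250, nat_lit 0, nat_lit 111251, nat_lit 0, nat_lit 0, [nat_lit 1271250, nat_lit 1271250, nat_lit 1271250], [nat_lit 170, nat_lit 40, nat_lit 20, nat_lit 40]⟩, C1.Rw.none,
 ⟨nat_lit 6324, nat_lit 6520, ⟨.ofNat (nat_lit 79059), .ofNat (nat_lit 121153), .ofNat (nat_lit 89758), .ofNat (nat_lit 131852), .ofNat (nat_lit 88677), .ofNat (nat_lit 129809), .ofNat (nat_lit 99361), .ofNat (nat_lit 140493)⟩, ⟨.ofNat (nat_lit 0), .ofNat (nat_lit 0), .ofNat (nat_lit 0), .ofNat (nat_lit 0), .ofNat (nat_lit 0), .ofNat (nat_lit 0), .ofNat (nat_lit 0), .ofNat (nat_lit 0)⟩⟩, [⟨nat_lit 0, nat_lit 100, nat_lit 98, nat_lit 20, nat_lit 97387644⟩]⟩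
noncomputable def p003_l211 : Lf2 := ⟨nat_lit 0, nat_lit 2, [nat_lit 10, nat_lit 5, nat_lit 5, nat_lit 20], true, nat_lit 0, nat_lit 0, nat_lit 0, nat_lit 0, ⟨nat_lit 0, nat_lit 0, nat_lit 1000, nat_lit 5, nat_lit 39, nat_lit 0, nat_lit 0, nat_lit 0, nat_lit 0, nat_lit 215, nat_lit 15000, nat_lit 245, nat_lit 66356626, nat_lit 0, nat_lit 0, nat_lit 270607, false, false⟩,
 nat_lit 0, nat_lit 100000, nat_lit 0, nat_lit 0, nat_lit 47826, nat_lit 0, nat_lit 21593, nat_lit 565, nat_lit 0, nat_lit 0, nat_lit 0, nat_lit 0, nat_lit 0, nat_lit 0, nat_lit 0, nat_lit 1000000, nat_lit 0, nat_lit 0, [(nat_lit 3, [(nat_lit 6, nat_lit 1000)])],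
 ⟨p003_k2, nat_lit 0, nat_lit 0, nat_lit 0, nat_lit 0, nat_lit 184646, [nat_lit 12341142858, nat_lit 12299600000], [], [nat_lit 10591786074, nat_lit 7222225143, nat_lit 7875204518, nat_lit 1785950372], nat_lit 1271250, nat_lit 1271250, nat_lit 0, nat_lit 111251, nat_lit 0, nat_lit 0, [nat_lit 1412500, nat_lit 1271250], [nat_lit 26, nat_lit 40, nat_lit 20, nat_lit 80]⟩, C1.Rw.none,
 ⟨nat_lit 6614, nat_lit 6709, ⟨.ofNat (nat_lit 69221), .ofNat (nat_lit 112299), .ofNat (nat_lit 79940), .ofNat (nat_lit 123018), .ofNat (nat_lit 74168), .ofNat (nat_lit 116751), .ofNat (nat_lit 84877), .ofNat (nat_lit 127460)⟩, ⟨.ofNat (nat_lit 0), .ofNat (nat_lit 0), .ofNat (nat_lit 0), .ofNat (nat_lit 0), .ofNat (nat_lit 0), .ofNat (nat_lit 0), .ofNat (nat_lit 0), .ofNat (nat_lit 0)⟩⟩, [⟨nat_lit 0, nat_lit 100, nat_lit 99, nat_lit 17, nat_lit 790339431⟩]⟩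
noncomputable def p003_l212 : Lf2 := ⟨nat_lit 0, nat_lit 2, [nat_lit 10, nat_lit 5, nat_lit 5, nat_lit 20], true, nat_lit 0, nat_lit 0, nat_lit 0, nat_lit 0, ⟨nat_lit 0, nat_lit 0, nat_lit 1000, nat_lit 5, nat_lit 41, nat_lit 0, nat_lit 0, nat_lit 0, nat_lit 0, nat_lit 215, nat_lit 16017, nat_lit 246, nat_lit 66294837, nat_lit 0, nat_lit 0, nat_lit 291808, false, false⟩,
 nat_lit 0, nat_lit 100000, nat_lit 0, nat_lit 0, nat_lit 49090, nat_lit 0, nat_lit 12720, nat_lit 984, nat_lit 0, nat_lit 0, nat_lit 0, nat_lit 0, nat_lit 0, nat_lit 0, nat_lit 0, nat_lit 1000000, nat_lit 0, nat_lit 0, [(nat_lit 3, [(nat_lit 6, nat_lit 1000)])],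
 ⟨p003_k54, nat_lit 0, nat_lit 0, nat_lit 0, nat_lit 0, nat_lit 201267, [nat_lit 20721142858, nat_lit 22355600000], [], [nat_lit 28205093769, nat_lit 24685677846, nat_lit 25451270644, nat_lit 19201082754], nat_lit 1271250, nat_lit 1271250, nat_lit 0, nat_lit 111251, nat_lit 0, nat_lit 0, [nat_lit 1412500, nat_lit 1271250], [nat_lit 26, nat_lit 40, nat_lit 20, nat_lit 80]⟩, C1.Rw.none,
 ⟨nat_lit 6519, nat_lit 6615, ⟨.ofNat (nat_lit 74168), .ofNat (nat_lit 116751), .ofNat (nat_lit 84877), .ofNat (nat_lit 127460), .ofNat (nat_lit 79059), .ofNat (nat_lit 121153), .ofNat (nat_lit 89758), .ofNat (nat_lit 131852)⟩, ⟨.ofNat (nat_lit 0), .ofNat (nat_lit 0), .ofNat (nat_lit 0), .ofNat (nat_lit 0), .ofNat (nat_lit 0), .ofNat (nat_lit 0), .ofNat (nat_lit 0), .ofNat (nat_lit 0)⟩⟩, [⟨nat_lit 0, nat_lit 100, nat_lit 99, nat_lit 20, nat_lit 798536137⟩]⟩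
noncomputable def p003_l213 : Lf2 := ⟨nat_lit 0, nat_lit 1, [nat_lit 19, nat_lit 5, nat_lit 5, nat_lit 20], true, nat_lit 0, nat_lit 0, nat_lit 0, nat_lit 0, ⟨nat_lit 0, nat_lit 0, nat_lit 1000, nat_lit 5, nat_lit 38, nat_lit 0, nat_lit 0, nat_lit 0, nat_lit 0, nat_lit 215, nat_lit 14017, nat_lit 244, nat_lit 66398302, nat_lit 0, nat_lit 0, nat_lit 256052, false, false⟩,
 nat_lit 0, nat_lit 100000, nat_lit 0, nat_lit 0, nat_lit 50364, nat_lit 0, nat_lit 11209, nat_lit 1152, nat_lit 0, nat_lit 0, nat_lit 0, nat_lit 0, nat_lit 0, nat_lit 0, nat_lit 0, nat_lit 1000000, nat_lit 0, nat_lit 0, [(nat_lit 3, [(nat_lit 6, nat_lit 1000)])],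
 ⟨p003_k19, nat_lit 0, nat_lit 0, nat_lit 0, nat_lit 0, nat_lit 213711, [nat_lit 24081142858, nat_lit 26387600000], [], [nat_lit 30801472727, nat_lit 32174961534, nat_lit 29121129750, nat_lit 26171172325], nat_lit 1271250, nat_lit 1271250, nat_lit 0, nat_lit 43600, nat_lit 0, nat_lit 0, [nat_lit 1412500, nat_lit 1271250], [nat_lit 26, nat_lit 40, nat_lit 20, nat_lit 80]⟩, C1.Rw.none,
 ⟨nat_lit 6422, nat_lit 6520, ⟨.ofNat (nat_lit 79059), .ofNat (nat_lit 95896), .ofNat (nat_lit 89758), .ofNat (nat_lit 106595), .ofNat (nat_lit 83894), .ofNat (nat_lit 100538), .ofNat (nat_lit 94585), .ofNat (nat_lit 111229)⟩, ⟨.ofNat (nat_lit 0), .ofNat (nat_lit 0), .ofNat (nat_lit 0), .ofNat (nat_lit 0), .ofNat (nat_lit 0), .ofNat (nat_lit 0), .ofNat (nat_lit 0), .ofNat (nat_lit 0)⟩⟩, [⟨nat_lit 0, nat_lit 100, nat_lit 99, nat_lit 22, nat_lit 3889560942⟩]⟩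
noncomputable def p003_l214 : Lf2 := ⟨nat_lit 0, nat_lit 1, [nat_lit 19, nat_lit 5, nat_lit 5, nat_lit 20], true, nat_lit 0, nat_lit 0, nat_lit 0, nat_lit 0, ⟨nat_lit 0, nat_lit 0, nat_lit 1000, nat_lit 5, nat_lit 40, nat_lit 0, nat_lit 0, nat_lit 0, nat_lit 0, nat_lit 215, nat_lit 15000, nat_lit 245, nat_lit 66337901, nat_lit 0, nat_lit 0, nat_lit 277076, false, false⟩,
 nat_lit 0, nat_lit 100000, nat_lit 0, nat_lit 0, nat_lit 51648, nat_lit 0, nat_lit 32577, nat_lit 1796, nat_lit 0, nat_lit 0, nat_lit 0, nat_lit 0, nat_lit 0, nat_lit 0, nat_lit 0, nat_lit 1000000, nat_lit 0, nat_lit 0, [(nat_lit 3, [(nat_lit 6, nat_lit 1000)])],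
 ⟨p003_k40, nat_lit 0, nat_lit 0, nat_lit 0, nat_lit 0, nat_lit 230042, [nat_lit 33265028572, nat_lit 39062000000], [], [nat_lit 41423403872, nat_lit 43299899960, nat_lit 38920527796, nat_lit 37090657170], nat_lit 1271250, nat_lit 1271250, nat_lit 0, nat_lit 43600, nat_lit 0, nat_lit 0, [nat_lit 1271250, nat_lit 1271250], [nat_lit 155, nat_lit 40, nat_lit 20, nat_lit 40]⟩, C1.Rw.none,
 ⟨nat_lit 6324, nat_lit 6423, ⟨.ofNat (nat_lit 83894), .ofNat (nat_lit 100538), .ofNat (nat_lit 94585), .ofNat (nat_lit 111229), .ofNat (nat_lit 88677), .ofNat (nat_lit 105130), .ofNat (nat_lit 99361), .ofNat (nat_lit 115814)⟩, ⟨.ofNat (nat_lit 0), .ofNat (nat_lit 0), .ofNat (nat_lit 0), .ofNat (nat_lit 0), .ofNat (nat_lit 0), .ofNat (nat_lit 0), .ofNat (nat_lit 0), .ofNat (nat_lit 0)⟩⟩, [⟨nat_lit 0, nat_lit 100, nat_lit 98, nat_lit 21, nat_lit 10204081633⟩]⟩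
noncomputable def p003_l215 : Lf2 := ⟨nat_lit 0, nat_lit 1, [nat_lit 19, nat_lit 5, nat_lit 5, nat_lit 20], true, nat_lit 0, nat_lit 0, nat_lit 0, nat_lit 0, ⟨nat_lit 0, nat_lit 0, nat_lit 1000, nat_lit 5, nat_lit 46, nat_lit 0, nat_lit 0, nat_lit 0, nat_lit 0, nat_lit 215, nat_lit 20417, nat_lit 250, nat_lit 66108594, nat_lit 0, nat_lit 0, nat_lit 353313, false, false⟩,
 nat_lit 0, nat_lit 100000, nat_lit 0, nat_lit 0, nat_lit 50364, nat_lit 0, nat_lit 11352, nat_lit 1194, nat_lit 0, nat_lit 0, nat_lit 0, nat_lit 0, nat_lit 0, nat_lit 0, nat_lit 0, nat_lit 1000000, nat_lit 0, nat_lit 0, [(nat_lit 3, [(nat_lit 6, nat_lit 1000)])],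
 ⟨p003_k19, nat_lit 0, nat_lit 0, nat_lit 0, nat_lit 0, nat_lit 213711, [nat_lit 24921142858, nat_lit 27395600000], [], [nat_lit 31641129750, nat_lit 27849864013, nat_lit 30152529302, nat_lit 23740134458], nat_lit 1271250, nat_lit 1271250, nat_lit 43600, nat_lit 111251, nat_lit 0, nat_lit 0, [nat_lit 1412500, nat_lit 1271250], [nat_lit 26, nat_lit 40, nat_lit 20, nat_lit 80]⟩, C1.Rw.none,
 ⟨nat_lit 6422, nat_lit 6520, ⟨.ofNat (nat_lit 95896), .ofNat (nat_lit 121153), .ofNat (nat_lit 106595), .ofNat (nat_lit 131852), .ofNat (nat_lit 100538), .ofNat (nat_lit 125505), .ofNat (nat_lit 111229), .ofNat (nat_lit 136196)⟩, ⟨.ofNat (nat_lit 0), .ofNat (nat_lit 0), .ofNat (nat_lit 0), .ofNat (nat_lit 0), .ofNat (nat_lit 0), .ofNat (nat_lit 0), .ofNat (nat_lit 0), .ofNat (nat_lit 0)⟩⟩, []⟩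
noncomputable def p003_l216 : Lf2 := ⟨nat_lit 0, nat_lit 1, [nat_lit 19, nat_lit 5, nat_lit 5, nat_lit 20], true, nat_lit 0, nat_lit 0, nat_lit 0, nat_lit 0, ⟨nat_lit 0, nat_lit 0, nat_lit 1000, nat_lit 5, nat_lit 48, nat_lit 0, nat_lit 0, nat_lit 0, nat_lit 0, nat_lit 215, nat_lit 21600, nat_lit 251, nat_lit 66039667, nat_lit 0, nat_lit 0, nat_lit 375284, false, false⟩,
 nat_lit 0, nat_lit 100000, nat_lit 0, nat_lit 0, nat_lit 51648, nat_lit 0, nat_lit 10998, nat_lit 1648, nat_lit 0, nat_lit 0, nat_lit 0, nat_lit 0, nat_lit 0, nat_lit 0, nat_lit 0, nat_lit 1000000, nat_lit 0, nat_lit 0, [(nat_lit 3, [(nat_lit 6, nat_lit 1000)])],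
 ⟨p003_k37, nat_lit 0, nat_lit 0, nat_lit 0, nat_lit 0, nat_lit 230042, [nat_lit 34001142858, nat_lit 38291600000], [], [nat_lit 50659373240, nat_lit 46693197617, nat_lit 49155160862, nat_lit 42579285854], nat_lit 1271250, nat_lit 1271250, nat_lit 43600, nat_lit 111251, nat_lit 0, nat_lit 0, [nat_lit 1412500, nat_lit 1271250], [nat_lit 26, nat_lit 40, nat_lit 20, nat_lit 80]⟩, C1.Rw.none,
 ⟨nat_lit 6324, nat_lit 6423, ⟨.ofNat (nat_lit 100538), .ofNat (nat_lit 125505), .ofNat (nat_lit 111229), .ofNat (nat_lit 136196), .ofNat (nat_lit 105130), .ofNat (nat_lit 129809), .ofNat (nat_lit 115814), .ofNat (nat_lit 140493)⟩, ⟨.ofNat (nat_lit 0), .ofNat (nat_lit 0), .ofNat (nat_lit 0), .ofNat (nat_lit 0), .ofNat (nat_lit 0), .ofNat (nat_lit 0), .ofNat (nat_lit 0), .ofNat (nat_lit 0)⟩⟩, []⟩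
noncomputable def p003_l217 : Lf2 := ⟨nat_lit 0, nat_lit 2, [nat_lit 10, nat_lit 5, nat_lit 5, nat_lit 20], true, nat_lit 0, nat_lit 0, nat_lit 0, nat_lit 0, ⟨nat_lit 0, nat_lit 0, nat_lit 1000, nat_lit 5, nat_lit 43, nat_lit 0, nat_lit 0, nat_lit 0, nat_lit 0, nat_lit 215, nat_lit 17067, nat_lit 247, nat_lit 66231050, nat_lit 0, nat_lit 0, nat_lit 313251, false, false⟩,
 nat_lit 0, nat_lit 100000, nat_lit 0, nat_lit 0, nat_lit 50364, nat_lit 0, nat_lit 9960, nat_lit 783, nat_lit 0, nat_lit 0, nat_lit 0, nat_lit 0, nat_lit 0, nat_lit 0, nat_lit 0, nat_lit 1000000, nat_lit 0, nat_lit 0, [(nat_lit 3, [(nat_lit 6, nat_lit 1000)])],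
 ⟨p003_k4, nat_lit 0, nat_lit 0, nat_lit 0, nat_lit 0, nat_lit 169634, [nat_lit 16701142858, nat_lit 17531600000], [], [nat_lit 16060369602, nat_lit 17415790778, nat_lit 5492529302, nat_lit 2451486832], nat_lit 1271250, nat_lit 1271250, nat_lit 0, nat_lit 111251, nat_lit 0, nat_lit 0, [nat_lit 1412500, nat_lit 1271250], [nat_lit 26, nat_lit 40, nat_lit 20, nat_lit 80]⟩, C1.Rw.none,
 ⟨nat_lit 6422, nat_lit 6520, ⟨.ofNat (nat_lit 79059), .ofNat (nat_lit 121153), .ofNat (nat_lit 89758), .ofNat (nat_lit 131852), .ofNat (nat_lit 83894), .ofNat (nat_lit 125505), .ofNat (nat_lit 94585), .ofNat (nat_lit 136196)⟩, ⟨.ofNat (nat_lit 0), .ofNat (nat_lit 0), .ofNat (nat_lit 0), .ofNat (nat_lit 0), .ofNat (nat_lit 0), .ofNat (nat_lit 0), .ofNat (nat_lit 0), .ofNat (nat_lit 0)⟩⟩, [⟨nat_lit 0, nat_lit 100, nat_lit 99, nat_lit 22, nat_lit 3878370634⟩]⟩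
noncomputable def p003_l218 : Lf2 := ⟨nat_lit 0, nat_lit 2, [nat_lit 10, nat_lit 5, nat_lit 5, nat_lit 20], true, nat_lit 0, nat_lit 0, nat_lit 0, nat_lit 0, ⟨nat_lit 0, nat_lit 0, nat_lit 1000, nat_lit 5, nat_lit 45, nat_lit 0, nat_lit 0, nat_lit 0, nat_lit 0, nat_lit 215, nat_lit 19267, nat_lit 249, nat_lit 66165347, nat_lit 0, nat_lit 0, nat_lit 334918, false, false⟩,
 nat_lit 0, nat_lit 100000, nat_lit 0, nat_lit 0, nat_lit 51648, nat_lit 0, nat_lit 9758, nat_lit 1219, nat_lit 0, nat_lit 0, nat_lit 0, nat_lit 0, nat_lit 0, nat_lit 0, nat_lit 0, nat_lit 1000000, nat_lit 0, nat_lit 0, [(nat_lit 3, [(nat_lit 6, nat_lit 1000)])],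
 ⟨p003_k46, nat_lit 0, nat_lit 0, nat_lit 0, nat_lit 0, nat_lit 187542, [nat_lit 25421142858, nat_lit 27995600000], [], [nat_lit 34305458298, nat_lit 35691353930, nat_lit 23415160862, nat_lit 20345963146], nat_lit 1271250, nat_lit 1271250, nat_lit 0, nat_lit 111251, nat_lit 0, nat_lit 0, [nat_lit 1412500, nat_lit 1271250], [nat_lit 26, nat_lit 40, nat_lit 20, nat_lit 80]⟩, C1.Rw.none,
 ⟨nat_lit 6324, nat_lit 6423, ⟨.ofNat (nat_lit 83894), .ofNat (nat_lit 125505), .ofNat (nat_lit 94585), .ofNat (nat_lit 136196), .ofNat (nat_lit 88677), .ofNat (nat_lit 129809), .ofNat (nat_lit 99361), .ofNat (nat_lit 140493)⟩, ⟨.ofNat (nat_lit 0), .ofNat (nat_lit 0), .ofNat (nat_lit 0), .ofNat (nat_lit 0), .ofNat (nat_lit 0), .ofNat (nat_lit 0), .ofNat (nat_lit 0), .ofNat (nat_lit 0)⟩⟩, [⟨nat_lit 0, nat_lit 100, nat_lit 98, nat_lit 25, nat_lit 4014309557⟩]⟩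
noncomputable def p003_l219 : Lf2 := ⟨nat_lit 0, nat_lit 2, [nat_lit 10, nat_lit 5, nat_lit 5, nat_lit 20], true, nat_lit 0, nat_lit 0, nat_lit 0, nat_lit 0, ⟨nat_lit 0, nat_lit 0, nat_lit 1000, nat_lit 5, nat_lit 42, nat_lit 0, nat_lit 0, nat_lit 0, nat_lit 0, nat_lit 215, nat_lit 17067, nat_lit 247, nat_lit 66264524, nat_lit 0, nat_lit 0, nat_lit 302050, false, false⟩,
 nat_lit 0, nat_lit 100000, nat_lit 0, nat_lit 0, nat_lit 47826, nat_lit 0, nat_lit 16357, nat_lit 2076, nat_lit 0, nat_lit 0, nat_lit 0, nat_lit 0, nat_lit 0, nat_lit 0, nat_lit 0, nat_lit 1000000, nat_lit 0, nat_lit 0, [(nat_lit 3, [(nat_lit 6, nat_lit 1000)])],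
 ⟨p003_k2, nat_lit 0, nat_lit 0, nat_lit 317, nat_lit 0, nat_lit 253837, [nat_lit 42561142858, nat_lit 48563600000], [], [nat_lit 101251786074, nat_lit 77335412060, nat_lit 98535204518, nat_lit 74178187934], nat_lit 1271250, nat_lit 1271250, nat_lit 0, nat_lit 111251, nat_lit 0, nat_lit 0, [nat_lit 1412500, nat_lit 1271250], [nat_lit 26, nat_lit 40, nat_lit 20, nat_lit 80, nat_lit 2, nat_lit 289, nat_lit 75, nat_lit 10]⟩, C1.Rw.none,
 ⟨nat_lit 6324, nat_lit 6709, ⟨.ofNat (nat_lit 69221), .ofNat (nat_lit 112299), .ofNat (nat_lit 79940), .ofNat (nat_lit 123018), .ofNat (nat_lit 88677), .ofNat (nat_lit 129809), .ofNat (nat_lit 99361), .ofNat (nat_lit 140493)⟩, ⟨.ofNat (nat_lit 0), .ofNat (nat_lit 0), .ofNat (nat_lit 0), .ofNat (nat_lit 0), .ofNat (nat_lit 0), .ofNat (nat_lit 0), .ofNat (nat_lit 0), .ofNat (nat_lit 0)⟩⟩, [⟨nat_lit 0, nat_lit 100, nat_lit 99, nat_lit 17, nat_lit 792482452⟩]⟩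
noncomputable def p003_l220 : Lf2 := ⟨nat_lit 3, nat_lit 2, [nat_lit 10, nat_lit 5, nat_lit 5, nat_lit 20], false, nat_lit 0, nat_lit 0, nat_lit 0, nat_lit 0, zbN0,
 nat_lit 0, nat_lit 0, nat_lit 0, nat_lit 0, nat_lit 0, nat_lit 0, nat_lit 0, nat_lit 0, nat_lit 0, nat_lit 0, nat_lit 0, nat_lit 0, nat_lit 0, nat_lit 0, nat_lit 0, nat_lit 0, nat_lit 0, nat_lit 0, [],
 C1.Rw.none, ⟨p003_k63, nat_lit 0, nat_lit 0, nat_lit 289, nat_lit 0, nat_lit 0, [], [], [], nat_lit 0, nat_lit 0, nat_lit 0, nat_lit 0, nat_lit 0, nat_lit 0, [], [nat_lit 51, nat_lit 40, nat_lit 20, nat_lit 80, nat_lit 1, nat_lit 272, nat_lit 60, nat_lit 9]⟩,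
 zbF0, []⟩
noncomputable def p003_l221 : Lf2 := ⟨nat_lit 0, nat_lit 2, [nat_lit 10, nat_lit 5, nat_lit 5, nat_lit 20], true, nat_lit 0, nat_lit 0, nat_lit 0, nat_lit 0, ⟨nat_lit 0, nat_lit 0, nat_lit 1000, nat_lit 5, nat_lit 45, nat_lit 0, nat_lit 0, nat_lit 0, nat_lit 0, nat_lit 215, nat_lit 18150, nat_lit 248, nat_lit 66177319, nat_lit 0, nat_lit 0, nat_lit 331002, false, false⟩,
 nat_lit 0, nat_lit 5884, nat_lit 0, nat_lit 0, nat_lit 2813, nat_lit 0, nat_lit 151, nat_lit 0, nat_lit 0, nat_lit 0, nat_lit 0, nat_lit 0, nat_lit 0, nat_lit 0, nat_lit 53, nat_lit 1000000, nat_lit 0, nat_lit 0, [(nat_lit 3, [(nat_lit 6, nat_lit 1000)])],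
 ⟨p003_k64, nat_lit 0, nat_lit 0, nat_lit 0, nat_lit 0, nat_lit 242918, [nat_lit 1122533334, nat_lit 1819066667, nat_lit 716000001, nat_lit 11600000], [], [nat_lit 13930239274, nat_lit 14385122260, nat_lit 14030627434, nat_lit 13877969901], nat_lit 1271250, nat_lit 1271250, nat_lit 0, nat_lit 111251, nat_lit 0, nat_lit 0, [nat_lit 631250, nat_lit 1271250, nat_lit 1271250, nat_lit 1271250], [nat_lit 139, nat_lit 40, nat_lit 20, nat_lit 40]⟩, C1.Rw.none,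
 ⟨nat_lit 6519, nat_lit 6709, ⟨.ofNat (nat_lit 79940), .ofNat (nat_lit 123018), .ofNat (nat_lit 90659), .ofNat (nat_lit 133737), .ofNat (nat_lit 89758), .ofNat (nat_lit 131852), .ofNat (nat_lit 100457), .ofNat (nat_lit 142551)⟩, ⟨.ofNat (nat_lit 0), .ofNat (nat_lit 0), .ofNat (nat_lit 0), .ofNat (nat_lit 0), .ofNat (nat_lit 0), .ofNat (nat_lit 0), .ofNat (nat_lit 0), .ofNat (nat_lit 0)⟩⟩, [⟨nat_lit 0, nat_lit 100, nat_lit 99, nat_lit 20, nat_lit 82887482⟩]⟩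
noncomputable def p003_l222 : Lf2 := ⟨nat_lit 0, nat_lit 2, [nat_lit 10, nat_lit 5, nat_lit 5, nat_lit 20], true, nat_lit 0, nat_lit 0, nat_lit 0, nat_lit 0, ⟨nat_lit 0, nat_lit 0, nat_lit 1000, nat_lit 5, nat_lit 45, nat_lit 0, nat_lit 0, nat_lit 0, nat_lit 0, nat_lit 215, nat_lit 18150, nat_lit 248, nat_lit 66177319, nat_lit 0, nat_lit 0, nat_lit 331002, false, false⟩,
 nat_lit 0, nat_lit 100000, nat_lit 0, nat_lit 0, nat_lit 47826, nat_lit 0, nat_lit 3855, nat_lit 2103, nat_lit 0, nat_lit 0, nat_lit 0, nat_lit 0, nat_lit 0, nat_lit 0, nat_lit 0, nat_lit 1000000, nat_lit 0, nat_lit 0, [(nat_lit 3, [(nat_lit 6, nat_lit 1000)])],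
 ⟨p003_k2, nat_lit 0, nat_lit 0, nat_lit 309, nat_lit 0, nat_lit 242918, [nat_lit 43101142858, nat_lit 49211600000], [], [nat_lit 102871786074, nat_lit 96317466964, nat_lit 100155204518, nat_lit 87976696226], nat_lit 1271250, nat_lit 1271250, nat_lit 0, nat_lit 111251, nat_lit 0, nat_lit 0, [nat_lit 1412500, nat_lit 1271250], [nat_lit 26, nat_lit 40, nat_lit 20, nat_lit 80, nat_lit 2, nat_lit 289, nat_lit 75, nat_lit 10]⟩, C1.Rw.none,
 ⟨nat_lit 6519, nat_lit 6709, ⟨.ofNat (nat_lit 79940), .ofNat (nat_lit 123018), .ofNat (nat_lit 90659), .ofNat (nat_lit 133737), .ofNat (nat_lit 89758), .ofNat (nat_lit 131852), .ofNat (nat_lit 100457), .ofNat (nat_lit 142551)⟩, ⟨.ofNat (nat_lit 0), .ofNat (nat_lit 0), .ofNat (nat_lit 0), .ofNat (nat_lit 0), .ofNat (nat_lit 0), .ofNat (nat_lit 0), .ofNat (nat_lit 0), .ofNat (nat_lit 0)⟩⟩, [⟨nat_lit 0, nat_lit 100, nat_lit 99, nat_lit 20, nat_lit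 794190343⟩]⟩
noncomputable def p003_l223 : Lf2 := ⟨nat_lit 3, nat_lit 2, [nat_lit 10, nat_lit 5, nat_lit 5, nat_lit 20], false, nat_lit 0, nat_lit 0, nat_lit 0, nat_lit 0, zbN0,
 nat_lit 0, nat_lit 0, nat_lit 0, nat_lit 0, nat_lit 0, nat_lit 0, nat_lit 0, nat_lit 0, nat_lit 0, nat_lit 0, nat_lit 0, nat_lit 0, nat_lit 0, nat_lit 0, nat_lit 0, nat_lit 0, nat_lit 0, nat_lit 0, [],
 C1.Rw.none, ⟨p003_k65, nat_lit 0, nat_lit 0, nat_lit 291, nat_lit 0, nat_lit 0, [], [], [], nat_lit 0, nat_lit 0, nat_lit 0, nat_lit 0, nat_lit 0, nat_lit 0, [], [nat_lit 51, nat_lit 40, nat_lit 20, nat_lit 80, nat_lit 1, nat_lit 272, nat_lit 60, nat_lit 9]⟩,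
 zbF0, []⟩
noncomputable def p003_l224 : Lf2 := ⟨nat_lit 0, nat_lit 2, [nat_lit 10, nat_lit 5, nat_lit 5, nat_lit 20], true, nat_lit 0, nat_lit 0, nat_lit 0, nat_lit 0, ⟨nat_lit 0, nat_lit 0, nat_lit 1000, nat_lit 5, nat_lit 48, nat_lit 0, nat_lit 0, nat_lit 0, nat_lit 0, nat_lit 215, nat_lit 21600, nat_lit 251, nat_lit 66037739, nat_lit 0, nat_lit 0, nat_lit 375893, false, false⟩,
 nat_lit 0, nat_lit 8303, nat_lit 0, nat_lit 0, nat_lit 4181, nat_lit 0, nat_lit 1676, nat_lit 0, nat_lit 0, nat_lit 0, nat_lit 0, nat_lit 0, nat_lit 0, nat_lit 0, nat_lit 26, nat_lit 262150, nat_lit 0, nat_lit 0, [(nat_lit 3, [(nat_lit 4, nat_lit 919), (nat_lit 5, nat_lit 81)])],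
 ⟨p003_k66, nat_lit 0, nat_lit 0, nat_lit 0, nat_lit 0, nat_lit 273310, [nat_lit 1912463601, nat_lit 1038123600, nat_lit 401799201, nat_lit 6605200], [], [nat_lit 12727484050, nat_lit 13258523707, nat_lit 12115215510, nat_lit 12635550194], nat_lit 1271250, nat_lit 1271250, nat_lit 21650, nat_lit 88400, nat_lit 0, nat_lit 0, [nat_lit 631250, nat_lit 1271250, nat_lit 1271250, nat_lit 1271250], [nat_lit 139, nat_lit 40, nat_lit 20, nat_lit 40]⟩, C1.Rw.none,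
 ⟨nat_lit 6324, nat_lit 6520, ⟨.ofNat (nat_lit 98177), .ofNat (nat_lit 123433), .ofNat (nat_lit 108876), .ofNat (nat_lit 134132), .ofNat (nat_lit 107588), .ofNat (nat_lit 132267), .ofNat (nat_lit 118272), .ofNat (nat_lit 142951)⟩, ⟨.ofNat (nat_lit 0), .ofNat (nat_lit 0), .ofNat (nat_lit 0), .ofNat (nat_lit 0), .ofNat (nat_lit 0), .ofNat (nat_lit 0), .ofNat (nat_lit 0), .ofNat (nat_lit 0)⟩⟩, [⟨nat_lit 0, nat_lit 100, nat_lit 99, nat_lit 25, nat_lit 363565963⟩]⟩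
noncomputable def p003_l225 : Lf2 := ⟨nat_lit 0, nat_lit 2, [nat_lit 10, nat_lit 5, nat_lit 5, nat_lit 20], true, nat_lit 0, nat_lit 0, nat_lit 0, nat_lit 0, ⟨nat_lit 0, nat_lit 0, nat_lit 1000, nat_lit 5, nat_lit 48, nat_lit 0, nat_lit 0, nat_lit 0, nat_lit 0, nat_lit 215, nat_lit 21600, nat_lit 251, nat_lit 66037739, nat_lit 0, nat_lit 0, nat_lit 375893, false, false⟩,
 nat_lit 0, nat_lit 100000, nat_lit 0, nat_lit 0, nat_lit 50364, nat_lit 0, nat_lit 4917, nat_lit 2088, nat_lit 0, nat_lit 0, nat_lit 0, nat_lit 0, nat_lit 0, nat_lit 0, nat_lit 0, nat_lit 1000000, nat_lit 0, nat_lit 0, [(nat_lit 3, [(nat_lit 6, nat_lit 1000)])],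
 ⟨p003_k4, nat_lit 0, nat_lit 0, nat_lit 319, nat_lit 0, nat_lit 273310, [nat_lit 42801142858, nat_lit 48851600000], [], [nat_lit 85900671984, nat_lit 79246126234, nat_lit 84226955681, nat_lit 71681152081], nat_lit 1271250, nat_lit 1271250, nat_lit 21650, nat_lit 88400, nat_lit 0, nat_lit 0, [nat_lit 1412500, nat_lit 1271250], [nat_lit 26, nat_lit 40, nat_lit 20, nat_lit 80, nat_lit 2, nat_lit 289, nat_lit 75, nat_lit 10]⟩, C1.Rw.none,
 ⟨nat_lit 6324, nat_lit 6520, ⟨.ofNat (nat_lit 98177), .ofNat (nat_lit 123433), .ofNat (nat_lit 108876), .ofNat (nat_lit 134132), .ofNat (nat_lit 107588), .ofNat (nat_lit 132267), .ofNat (nat_lit 118272), .ofNat (nat_lit 142951)⟩, ⟨.ofNat (nat_lit 0), .ofNat (nat_lit 0), .ofNat (nat_lit 0), .ofNat (nat_lit 0), .ofNat (nat_lit 0), .ofNat (nat_lit 0), .ofNat (nat_lit 0), .ofNat (nat_lit 0)⟩⟩, []⟩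
noncomputable def p003_l226 : Lf2 := ⟨nat_lit 3, nat_lit 2, [nat_lit 10, nat_lit 5, nat_lit 5, nat_lit 20], false, nat_lit 0, nat_lit 0, nat_lit 0, nat_lit 0, zbN0,
 nat_lit 0, nat_lit 0, nat_lit 0, nat_lit 0, nat_lit 0, nat_lit 0, nat_lit 0, nat_lit 0, nat_lit 0, nat_lit 0, nat_lit 0, nat_lit 0, nat_lit 0, nat_lit 0, nat_lit 0, nat_lit 0, nat_lit 0, nat_lit 0, [],
 C1.Rw.none, ⟨p003_k65, nat_lit 0, nat_lit 0, nat_lit 285, nat_lit 0, nat_lit 0, [], [], [], nat_lit 0, nat_lit 0, nat_lit 0, nat_lit 0, nat_lit 0, nat_lit 0, [], [nat_lit 51, nat_lit 40, nat_lit 20, nat_lit 80, nat_lit 1, nat_lit 272, nat_lit 60, nat_lit 9]⟩,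
 zbF0, []⟩
noncomputable def p003_l227 : Lf2 := ⟨nat_lit 0, nat_lit 2, [nat_lit 10, nat_lit 5, nat_lit 5, nat_lit 20], false, nat_lit 0, nat_lit 0, nat_lit 0, nat_lit 0, ⟨nat_lit 1000, nat_lit 0, nat_lit 0, nat_lit 0, nat_lit 0, nat_lit 0, nat_lit 0, nat_lit 0, nat_lit 0, nat_lit 0, nat_lit 0, nat_lit 0, nat_lit 0, nat_lit 0, nat_lit 0, nat_lit 0, false, false⟩,
 nat_lit 0, nat_lit 21920, nat_lit 0, nat_lit 0, nat_lit 11040, nat_lit 11036, nat_lit 244, nat_lit 0, nat_lit 0, nat_lit 4709, nat_lit 0, nat_lit 0, nat_lit 0, nat_lit 0, nat_lit 0, nat_lit 0, nat_lit 0, nat_lit 0, [],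
 ⟨p003_k4, nat_lit 0, nat_lit 0, nat_lit 303, nat_lit 0, nat_lit 273310, [nat_lit 6250000000, nat_lit 7968000000], [], [nat_lit 25048138304, nat_lit 24459387813, nat_lit 25024278080, nat_lit 23944858180], nat_lit 1271250, nat_lit 1271250, nat_lit 88400, nat_lit 111251, nat_lit 0, nat_lit 0, [nat_lit 1412500, nat_lit 1271250], [nat_lit 26, nat_lit 40, nat_lit 20, nat_lit 80, nat_lit 2, nat_lit 289, nat_lit 75, nat_lit 10]⟩, ⟨p003_k67, nat_lit 0, nat_lit 0, nat_lit 220, nat_lit 0, nat_lit 0, [nat_lit 6250000000, nat_lit 7968000000, nat_lit 9842000000], [], [nat_lit 19820001773, nat_lit 20665082887, nat_lit 19200721476, nat_lit 20046067656], nat_lit 0, nat_lit 0, nat_lit 0, nat_lit 0, nat_lit 0, nat_lit 0, [], [nat_lit 25, nat_lit 40, nat_lit 20, nat_lit 80, nat_lit 17, nat_lit 272, nat_lit 60, nat_lit 8]⟩,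
 zbF0, []⟩
noncomputable def b_NL_550_500_0_1 : St := ⟨false, nat_lit 1, nat_lit 0, nat_lit 1, nat_lit 20, nat_lit 220, nat_lit 240, nat_lit 200, nat_lit 220, nat_lit 0, nat_lit 20, nat_lit 0, nat_lit 0, nat_lit 0, nat_lit 0, nat_lit 0, nat_lit 0, nat_lit 0, nat_lit 8, nat_lit 0, nat_lit 0, nat_lit 0, nat_lit 0⟩
theorem d_NL_550_500_0_1 (h : EB TB.env) : Dead b_NL_550_500_0_1 := chkB_sound0 h (T :=
(.spl (nat_lit 1) (nat_lit 210)
(.spl (nat_lit 8) (nat_lit 800)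
(.spl (nat_lit 7) (nat_lit 600)
(.spl (nat_lit 7) (nat_lit 300)
(.leaf p003_l190)
(.spl (nat_lit 7) (nat_lit 460)
(.spl (nat_lit 7) (nat_lit 380)
(.leaf p003_l191)
(.spl (nat_lit 0) (nat_lit 230)
(.spl (nat_lit 7) (nat_lit 420)
(.spl (nat_lit 1) (nat_lit 205)
(.spl (nat_lit 0) (nat_lit 225)
(.spl (nat_lit 6) (nat_lit 4)
(.leaf p003_l192)
(.leaf p003_l193))
(.spl (nat_lit 0) (nat_lit 228)
(.spl (nat_lit 2) (nat_lit 8)
(.spl (nat_lit 1) (nat_lit 203)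
(.spl (nat_lit 6) (nat_lit 4)
(.leaf p003_l194)
(.leaf p003_l195))
(.spl (nat_lit 0) (nat_lit 227)
(.spl (nat_lit 6) (nat_lit 4)
(.leaf p003_l196)
(.spl (nat_lit 0) (nat_lit 226)
(.leaf p003_l197)
(.spl (nat_lit 2) (nat_lit 4)
(.spl (nat_lit 1) (nat_lit 204)
(.leaf p003_l198)
(.spl (nat_lit 7) (nat_lit 400)
(.leaf p003_l199)
(.spl (nat_lit 8) (nat_lit 400)
(.leaf p003_l200)
(.leaf p003_l201))))
(.leaf p003_l202))))
(.leaf p003_l203)))
(.leaf p003_l204))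
(.leaf p003_l205)))
(.spl (nat_lit 0) (nat_lit 225)
(.leaf p003_l206)
(.leaf p003_l207)))
(.spl (nat_lit 0) (nat_lit 225)
(.leaf p003_l208)
(.leaf p003_l209)))
(.leaf p003_l210)))
(.spl (nat_lit 0) (nat_lit 230)
(.spl (nat_lit 0) (nat_lit 225)
(.leaf p003_l211)
(.leaf p003_l212))
(.spl (nat_lit 6) (nat_lit 4)
(.spl (nat_lit 2) (nat_lit 8)
(.spl (nat_lit 0) (nat_lit 235)
(.leaf p003_l213)
(.leaf p003_l214))
(.spl (nat_lit 0) (nat_lit 235)
(.leaf p003_l215)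
(.leaf p003_l216)))
(.spl (nat_lit 0) (nat_lit 235)
(.leaf p003_l217)
(.leaf p003_l218))))))
(.leaf p003_l219))
(.leaf p003_l220))
(.spl (nat_lit 0) (nat_lit 230)
(.spl (nat_lit 8) (nat_lit 800)
(.spl (nat_lit 7) (nat_lit 600)
(.leaf p003_l221)
(.leaf p003_l222))
(.leaf p003_l223))
(.trZ (nat_lit 0) (nat_lit 100) (nat_lit 99) (nat_lit 20) (nat_lit 4) (.spl (nat_lit 2) (nat_lit 16)
(.spl (nat_lit 8) (nat_lit 800)
(.spl (nat_lit 7) (nat_lit 600)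
(.leaf p003_l224)
(.leaf p003_l225))
(.leaf p003_l226))
(.leaf p003_l227)))))) (by decide +kernel)
noncomputable def p003_l228 : Lf2 := ⟨nat_lit 0, nat_lit 2, [nat_lit 10, nat_lit 5, nat_lit 5, nat_lit 20], true, nat_lit 0, nat_lit 0, nat_lit 0, nat_lit 0, ⟨nat_lit 0, nat_lit 0, nat_lit 1000, nat_lit 5, nat_lit 57, nat_lit 0, nat_lit 0, nat_lit 0, nat_lit 0, nat_lit 215, nat_lit 29400, nat_lit 257, nat_lit 65688534, nat_lit 0, nat_lit 0, nat_lit 481829, false, false⟩,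
 nat_lit 0, nat_lit 11579, nat_lit 0, nat_lit 0, nat_lit 5537, nat_lit 0, nat_lit 1545, nat_lit 0, nat_lit 0, nat_lit 0, nat_lit 0, nat_lit 0, nat_lit 0, nat_lit 0, nat_lit 53, nat_lit 1000000, nat_lit 0, nat_lit 0, [(nat_lit 3, [(nat_lit 6, nat_lit 1000)])],
 ⟨p003_k2, nat_lit 0, nat_lit 0, nat_lit 284, nat_lit 0, nat_lit 184646, [nat_lit 2101142858, nat_lit 11600000], [], [nat_lit 11756775418, nat_lit 12081309701, nat_lit 10973031554, nat_lit 11294366849], nat_lit 1271250, nat_lit 1271250, nat_lit 111251, nat_lit 230001, nat_lit 0, nat_lit 0, [nat_lit 1412500, nat_lit 1271250], [nat_lit 26, nat_lit 40, nat_lit 20, nat_lit 80, nat_lit 2, nat_lit 289, nat_lit 75, nat_lit 10]⟩, C1.Rw.none,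
 ⟨nat_lit 6614, nat_lit 6709, ⟨.ofNat (nat_lit 112299), .ofNat (nat_lit 155377), .ofNat (nat_lit 123018), .ofNat (nat_lit 166096), .ofNat (nat_lit 116751), .ofNat (nat_lit 159334), .ofNat (nat_lit 127460), .ofNat (nat_lit 170043)⟩, ⟨.ofNat (nat_lit 0), .ofNat (nat_lit 0), .ofNat (nat_lit 0), .ofNat (nat_lit 0), .ofNat (nat_lit 0), .ofNat (nat_lit 0), .ofNat (nat_lit 0), .ofNat (nat_lit 0)⟩⟩, []⟩
noncomputable def p003_l229 : Lf2 := ⟨nat_lit 0, nat_lit 2, [nat_lit 10, nat_lit 5, nat_lit 5, nat_lit 20], false, nat_lit 0, nat_lit 0, nat_lit 0, nat_lit 0, ⟨nat_lit 1000, nat_lit 0, nat_lit 0, nat_lit 0, nat_lit 0, nat_lit 0, nat_lit 0, nat_lit 0, nat_lit 0, nat_lit 0, nat_lit 0, nat_lit 0, nat_lit 0, nat_lit 0, nat_lit 0, nat_lit 0, false, false⟩,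
 nat_lit 0, nat_lit 28744, nat_lit 0, nat_lit 0, nat_lit 14110, nat_lit 11477, nat_lit 801, nat_lit 0, nat_lit 0, nat_lit 4866, nat_lit 0, nat_lit 0, nat_lit 0, nat_lit 0, nat_lit 0, nat_lit 0, nat_lit 0, nat_lit 0, [],
 ⟨p003_k54, nat_lit 0, nat_lit 0, nat_lit 282, nat_lit 0, nat_lit 192661, [nat_lit 6250000000, nat_lit 7968000000], [], [nat_lit 22848203530, nat_lit 22530329280, nat_lit 22877581510, nat_lit 21807555305], nat_lit 1271250, nat_lit 1271250, nat_lit 111251, nat_lit 230001, nat_lit 0, nat_lit 0, [nat_lit 1412500, nat_lit 1271250], [nat_lit 26, nat_lit 40, nat_lit 20, nat_lit 80, nat_lit 2, nat_lit 289, nat_lit 75, nat_lit 10]⟩, ⟨p003_k68, nat_lit 0, nat_lit 0, nat_lit 206, nat_lit 0, nat_lit 0, [nat_lit 6250000000, nat_lit 7968000000, nat_lit 9842000000], [], [nat_lit 19841870672, nat_lit 20708276807, nat_lit 17827820936, nat_lit 18685803232], nat_lit 0, nat_lit 0,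 nat_lit 0, nat_lit 0, nat_lit 0, nat_lit 0, [], [nat_lit 25, nat_lit 40, nat_lit 20, nat_lit 80, nat_lit 17, nat_lit 289, nat_lit 75, nat_lit 9]⟩,
 zbF0, []⟩
noncomputable def p003_l230 : Lf2 := ⟨nat_lit 0, nat_lit 2, [nat_lit 10, nat_lit 5, nat_lit 5, nat_lit 20], false, nat_lit 0, nat_lit 0, nat_lit 0, nat_lit 0, ⟨nat_lit 1000, nat_lit 0, nat_lit 0, nat_lit 0, nat_lit 0, nat_lit 0, nat_lit 0, nat_lit 0, nat_lit 0, nat_lit 0, nat_lit 0, nat_lit 0, nat_lit 0, nat_lit 0, nat_lit 0, nat_lit 0, false, false⟩,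
 nat_lit 0, nat_lit 27014, nat_lit 0, nat_lit 0, nat_lit 13467, nat_lit 11477, nat_lit 947, nat_lit 0, nat_lit 0, nat_lit 4866, nat_lit 0, nat_lit 0, nat_lit 0, nat_lit 0, nat_lit 0, nat_lit 0, nat_lit 0, nat_lit 0, [],
 ⟨p003_k60, nat_lit 0, nat_lit 0, nat_lit 281, nat_lit 0, nat_lit 198099, [nat_lit 6250000000, nat_lit 7968000000], [], [nat_lit 22569597697, nat_lit 22381981608, nat_lit 22626797489, nat_lit 21945954450], nat_lit 1271250, nat_lit 1271250, nat_lit 111251, nat_lit 230001, nat_lit 0, nat_lit 0, [nat_lit 1412500, nat_lit 1271250], [nat_lit 26, nat_lit 40, nat_lit 20, nat_lit 80, nat_lit 2, nat_lit 289, nat_lit 75, nat_lit 10]⟩, ⟨p003_k68, nat_lit 0, nat_lit 0, nat_lit 206, nat_lit 0, nat_lit 0, [nat_lit 6250000000, nat_lit 7968000000, nat_lit 9842000000], [], [nat_lit 19841870672, nat_lit 20708276807, nat_lit 17827820936, nat_lit 18685803232], nat_lit 0, nat_lit 0,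 nat_lit 0, nat_lit 0, nat_lit 0, nat_lit 0, [], [nat_lit 25, nat_lit 40, nat_lit 20, nat_lit 80, nat_lit 17, nat_lit 289, nat_lit 75, nat_lit 9]⟩,
 zbF0, []⟩
noncomputable def p003_l231 : Lf2 := ⟨nat_lit 0, nat_lit 2, [nat_lit 10, nat_lit 5, nat_lit 5, nat_lit 20], false, nat_lit 0, nat_lit 0, nat_lit 0, nat_lit 0, ⟨nat_lit 1000, nat_lit 0, nat_lit 0, nat_lit 0, nat_lit 0, nat_lit 0, nat_lit 0, nat_lit 0, nat_lit 0, nat_lit 0, nat_lit 0, nat_lit 0, nat_lit 0, nat_lit 0, nat_lit 0, nat_lit 0, false, false⟩,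
 nat_lit 0, nat_lit 22376, nat_lit 0, nat_lit 0, nat_lit 11269, nat_lit 11477, nat_lit 0, nat_lit 0, nat_lit 0, nat_lit 4866, nat_lit 0, nat_lit 0, nat_lit 0, nat_lit 0, nat_lit 0, nat_lit 0, nat_lit 0, nat_lit 0, [],
 ⟨p003_k4, nat_lit 0, nat_lit 0, nat_lit 283, nat_lit 0, nat_lit 240685, [nat_lit 6250000000, nat_lit 7968000000], [], [nat_lit 24727952538, nat_lit 24040965876, nat_lit 24857535150, nat_lit 22186130364], nat_lit 1271250, nat_lit 1271250, nat_lit 111251, nat_lit 230001, nat_lit 0, nat_lit 0, [nat_lit 1412500, nat_lit 1271250], [nat_lit 26, nat_lit 40, nat_lit 20, nat_lit 80, nat_lit 2, nat_lit 289, nat_lit 75, nat_lit 10]⟩, ⟨p003_k68, nat_lit 0, nat_lit 0, nat_lit 206, nat_lit 0, nat_lit 0, [nat_lit 6250000000, nat_lit 7968000000, nat_lit 9842000000], [], [nat_lit 19841870672, nat_lit 20708276807, nat_lit 17827820936, nat_lit 18685803232], nat_lit 0, nat_lit 0, nat_lit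 0, nat_lit 0, nat_lit 0, nat_lit 0, [], [nat_lit 25, nat_lit 40, nat_lit 20, nat_lit 80, nat_lit 17, nat_lit 289, nat_lit 75, nat_lit 9]⟩,
 zbF0, []⟩
noncomputable def p003_l232 : Lf2 := ⟨nat_lit 0, nat_lit 2, [nat_lit 10, nat_lit 5, nat_lit 5, nat_lit 20], false, nat_lit 0, nat_lit 0, nat_lit 0, nat_lit 0, ⟨nat_lit 1000, nat_lit 0, nat_lit 0, nat_lit 0, nat_lit 0, nat_lit 0, nat_lit 0, nat_lit 0, nat_lit 0, nat_lit 0, nat_lit 0, nat_lit 0, nat_lit 0, nat_lit 0, nat_lit 0, nat_lit 0, false, false⟩,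
 nat_lit 0, nat_lit 31493, nat_lit 0, nat_lit 0, nat_lit 15061, nat_lit 11204, nat_lit 1027, nat_lit 0, nat_lit 0, nat_lit 5802, nat_lit 0, nat_lit 0, nat_lit 0, nat_lit 0, nat_lit 0, nat_lit 0, nat_lit 0, nat_lit 0, [],
 ⟨p003_k2, nat_lit 0, nat_lit 0, nat_lit 287, nat_lit 0, nat_lit 221623, [nat_lit 6250000000, nat_lit 7968000000], [], [nat_lit 23656275284, nat_lit 23096531319, nat_lit 23641612052, nat_lit 21738037201], nat_lit 1271250, nat_lit 1271250, nat_lit 111251, nat_lit 230001, nat_lit 0, nat_lit 0, [nat_lit 1412500, nat_lit 1271250], [nat_lit 26, nat_lit 40, nat_lit 20, nat_lit 80, nat_lit 2, nat_lit 289, nat_lit 75, nat_lit 10]⟩, ⟨p003_k67, nat_lit 0, nat_lit 0, nat_lit 211, nat_lit 0, nat_lit 0, [nat_lit 6250000000, nat_lit 7968000000, nat_lit 9842000000], [], [nat_lit 18620266364, nat_lit 19473635384, nat_lit 16653887464, nat_lit 17498971056], nat_lit 0, nat_lit 0,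 nat_lit 0, nat_lit 0, nat_lit 0, nat_lit 0, [], [nat_lit 25, nat_lit 40, nat_lit 20, nat_lit 80, nat_lit 17, nat_lit 289, nat_lit 75, nat_lit 9]⟩,
 zbF0, []⟩
noncomputable def p003_l233 : Lf2 := ⟨nat_lit 0, nat_lit 2, [nat_lit 10, nat_lit 5, nat_lit 5, nat_lit 20], false, nat_lit 0, nat_lit 0, nat_lit 0, nat_lit 0, ⟨nat_lit 1000, nat_lit 0, nat_lit 0, nat_lit 0, nat_lit 0, nat_lit 0, nat_lit 0, nat_lit 0, nat_lit 0, nat_lit 0, nat_lit 0, nat_lit 0, nat_lit 0, nat_lit 0, nat_lit 0, nat_lit 0, false, false⟩,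
 nat_lit 0, nat_lit 27023, nat_lit 0, nat_lit 0, nat_lit 13265, nat_lit 11204, nat_lit 0, nat_lit 0, nat_lit 0, nat_lit 5804, nat_lit 0, nat_lit 0, nat_lit 0, nat_lit 0, nat_lit 0, nat_lit 0, nat_lit 0, nat_lit 0, [],
 ⟨p003_k54, nat_lit 0, nat_lit 0, nat_lit 285, nat_lit 0, nat_lit 236480, [nat_lit 6250000000, nat_lit 7968000000], [], [nat_lit 23834045595, nat_lit 23393771110, nat_lit 23890110365, nat_lit 22213533750], nat_lit 1271250, nat_lit 1271250, nat_lit 111251, nat_lit 230001, nat_lit 0, nat_lit 0, [nat_lit 1412500, nat_lit 1271250], [nat_lit 26, nat_lit 40, nat_lit 20, nat_lit 80, nat_lit 2, nat_lit 289, nat_lit 75, nat_lit 10]⟩, ⟨p003_k67, nat_lit 0, nat_lit 0, nat_lit 211, nat_lit 0, nat_lit 0, [nat_lit 6250000000, nat_lit 7968000000, nat_lit 9842000000], [], [nat_lit 18619466364, nat_lit 19472835384, nat_lit 16653087464, nat_lit 17498171056], nat_lit 0, nat_lit 0,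 nat_lit 0, nat_lit 0, nat_lit 0, nat_lit 0, [], [nat_lit 25, nat_lit 40, nat_lit 20, nat_lit 80, nat_lit 17, nat_lit 289, nat_lit 75, nat_lit 9]⟩,
 zbF0, []⟩
noncomputable def p003_l234 : Lf2 := ⟨nat_lit 0, nat_lit 2, [nat_lit 10, nat_lit 5, nat_lit 5, nat_lit 20], false, nat_lit 0, nat_lit 0, nat_lit 0, nat_lit 0, ⟨nat_lit 1000, nat_lit 0, nat_lit 0, nat_lit 0, nat_lit 0, nat_lit 0, nat_lit 0, nat_lit 0, nat_lit 0, nat_lit 0, nat_lit 0, nat_lit 0, nat_lit 0, nat_lit 0, nat_lit 0, nat_lit 0, false, false⟩,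
 nat_lit 0, nat_lit 22425, nat_lit 0, nat_lit 0, nat_lit 11294, nat_lit 11204, nat_lit 0, nat_lit 0, nat_lit 0, nat_lit 4755, nat_lit 0, nat_lit 0, nat_lit 0, nat_lit 0, nat_lit 0, nat_lit 0, nat_lit 0, nat_lit 0, [],
 ⟨p003_k4, nat_lit 0, nat_lit 0, nat_lit 297, nat_lit 0, nat_lit 273310, [nat_lit 6250000000, nat_lit 7968000000], [], [nat_lit 24695602588, nat_lit 24048545976, nat_lit 24824418900, nat_lit 22141524264], nat_lit 1271250, nat_lit 1271250, nat_lit 111251, nat_lit 230001, nat_lit 0, nat_lit 0, [nat_lit 1412500, nat_lit 1271250], [nat_lit 26, nat_lit 40, nat_lit 20, nat_lit 80, nat_lit 2, nat_lit 289, nat_lit 75, nat_lit 10]⟩, ⟨p003_k67, nat_lit 0, nat_lit 0, nat_lit 211, nat_lit 0, nat_lit 0, [nat_lit 6250000000, nat_lit 7968000000, nat_lit 9842000000], [], [nat_lit 19039066364, nat_lit 19892435384, nat_lit 17072687464, nat_lit 17917771056], nat_lit 0, nat_lit 0, nat_lit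 0, nat_lit 0, nat_lit 0, nat_lit 0, [], [nat_lit 25, nat_lit 40, nat_lit 20, nat_lit 80, nat_lit 17, nat_lit 289, nat_lit 75, nat_lit 9]⟩,
 zbF0, []⟩
noncomputable def b_NL_550_500_0_2 : St := ⟨false, nat_lit 1, nat_lit 0, nat_lit 1, nat_lit 20, nat_lit 220, nat_lit 240, nat_lit 200, nat_lit 220, nat_lit 20, nat_lit 40, nat_lit 0, nat_lit 0, nat_lit 0, nat_lit 0, nat_lit 0, nat_lit 0, nat_lit 0, nat_lit 8, nat_lit 0, nat_lit 0, nat_lit 0, nat_lit 0⟩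
theorem d_NL_550_500_0_2 (h : EB TB.env) : Dead b_NL_550_500_0_2 := chkB_sound0 h (T :=
(.spl (nat_lit 1) (nat_lit 210)
(.spl (nat_lit 0) (nat_lit 230)
(.spl (nat_lit 0) (nat_lit 225)
(.leaf p003_l228)
(.spl (nat_lit 0) (nat_lit 228)
(.leaf p003_l229)
(.leaf p003_l230)))
(.leaf p003_l231))
(.spl (nat_lit 0) (nat_lit 230)
(.spl (nat_lit 0) (nat_lit 225)
(.leaf p003_l232)
(.leaf p003_l233))
(.leaf p003_l234)))) (by decide +kernel)
noncomputable def p003_l235 : Lf2 := ⟨nat_lit 0, nat_lit 5, [nat_lit 4, nat_lit 5, nat_lit 5, nat_lit 20], true, nat_lit 0, nat_lit 0, nat_lit 0, nat_lit 0, ⟨nat_lit 0, nat_lit 0, nat_lit 1000, nat_lit 5, nat_lit 53, nat_lit 0, nat_lit 0, nat_lit 0, nat_lit 0, nat_lit 215, nat_lit 26667, nat_lit 255, nat_lit 65856757, nat_lit 0, nat_lit 0, nat_lit 431820, false, false⟩,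
 nat_lit 0, nat_lit 2820, nat_lit 0, nat_lit 0, nat_lit 1348, nat_lit 0, nat_lit 0, nat_lit 0, nat_lit 244, nat_lit 0, nat_lit 0, nat_lit 0, nat_lit 0, nat_lit 0, nat_lit 60, nat_lit 400000, nat_lit 0, nat_lit 0, [(nat_lit 3, [(nat_lit 5, nat_lit 1000)])],
 ⟨p003_k7, nat_lit 0, nat_lit 0, nat_lit 0, nat_lit 0, nat_lit 208711, [nat_lit 2770400000, nat_lit 702400001, nat_lit 2000000], [], [nat_lit 7467188056, nat_lit 8563533664, nat_lit 7376370152, nat_lit 8187541664], nat_lit 1271250, nat_lit 1271250, nat_lit 0, nat_lit 230001, nat_lit 0, nat_lit 0, [nat_lit 1412500, nat_lit 1271250, nat_lit 1271250], [nat_lit 25, nat_lit 40, nat_lit 20, nat_lit 80]⟩, C1.Rw.none,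
 ⟨nat_lit 6324, nat_lit 6709, ⟨.ofNat (nat_lit 69221), .ofNat (nat_lit 155377), .ofNat (nat_lit 90659), .ofNat (nat_lit 176815), .ofNat (nat_lit 88677), .ofNat (nat_lit 170942), .ofNat (nat_lit 110045), .ofNat (nat_lit 192309)⟩, ⟨.ofNat (nat_lit 0), .ofNat (nat_lit 0), .ofNat (nat_lit 0), .ofNat (nat_lit 0), .ofNat (nat_lit 0), .ofNat (nat_lit 0), .ofNat (nat_lit 0), .ofNat (nat_lit 0)⟩⟩, [⟨nat_lit 0, nat_lit 100, nat_lit 99, nat_lit 20, nat_lit 122337514⟩]⟩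
noncomputable def p003_l236 : Lf2 := ⟨nat_lit 0, nat_lit 4, [nat_lit 38, nat_lit 5, nat_lit 5, nat_lit 20], true, nat_lit 0, nat_lit 0, nat_lit 0, nat_lit 0, ⟨nat_lit 0, nat_lit 0, nat_lit 1000, nat_lit 5, nat_lit 40, nat_lit 0, nat_lit 0, nat_lit 0, nat_lit 0, nat_lit 215, nat_lit 15000, nat_lit 245, nat_lit 66326250, nat_lit 0, nat_lit 0, nat_lit 281085, false, false⟩,
 nat_lit 0, nat_lit 9382, nat_lit 0, nat_lit 0, nat_lit 4487, nat_lit 0, nat_lit 169, nat_lit 0, nat_lit 0, nat_lit 0, nat_lit 0, nat_lit 0, nat_lit 0, nat_lit 0, nat_lit 91, nat_lit 1000000, nat_lit 0, nat_lit 0, [(nat_lit 3, [(nat_lit 6, nat_lit 1000)])],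
 ⟨p003_k69, nat_lit 0, nat_lit 0, nat_lit 0, nat_lit 0, nat_lit 116592, [nat_lit 2575028572, nat_lit 1552000000, nat_lit 295200000], [], [nat_lit 13618449147, nat_lit 14033718929, nat_lit 12712835799, nat_lit 13136460256], nat_lit 1271250, nat_lit 1271250, nat_lit 0, nat_lit 111251, nat_lit 0, nat_lit 0, [nat_lit 1271250, nat_lit 1271250, nat_lit 1271250], [nat_lit 96, nat_lit 40, nat_lit 20, nat_lit 40]⟩, C1.Rw.none,
 ⟨nat_lit 6519, nat_lit 6709, ⟨.ofNat (nat_lit 69221), .ofNat (nat_lit 112299), .ofNat (nat_lit 79940), .ofNat (nat_lit 123018), .ofNat (nat_lit 79059), .ofNat (nat_lit 121153), .ofNat (nat_lit 89758), .ofNat (nat_lit 131852)⟩, ⟨.ofNat (nat_lit 0), .ofNat (nat_lit 0), .ofNat (nat_lit 0), .ofNat (nat_lit 0), .ofNat (nat_lit 0), .ofNat (nat_lit 0), .ofNat (nat_lit 0), .ofNat (nat_lit 0)⟩⟩, [⟨nat_lit 0, nat_lit 100, nat_lit 99, nat_lit 20, nat_lit 326385182⟩]⟩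
noncomputable def p003_l237 : Lf2 := ⟨nat_lit 0, nat_lit 4, [nat_lit 38, nat_lit 5, nat_lit 5, nat_lit 20], true, nat_lit 0, nat_lit 0, nat_lit 0, nat_lit 0, ⟨nat_lit 0, nat_lit 0, nat_lit 1000, nat_lit 5, nat_lit 44, nat_lit 0, nat_lit 0, nat_lit 0, nat_lit 0, nat_lit 215, nat_lit 18150, nat_lit 248, nat_lit 66210743, nat_lit 0, nat_lit 0, nat_lit 319994, false, false⟩,
 nat_lit 0, nat_lit 9520, nat_lit 0, nat_lit 0, nat_lit 4553, nat_lit 0, nat_lit 191, nat_lit 0, nat_lit 0, nat_lit 0, nat_lit 0, nat_lit 0, nat_lit 0, nat_lit 0, nat_lit 91, nat_lit 1000000, nat_lit 0, nat_lit 0, [(nat_lit 3, [(nat_lit 6, nat_lit 1000)])],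
 ⟨p003_k69, nat_lit 0, nat_lit 0, nat_lit 0, nat_lit 0, nat_lit 132244, [nat_lit 2575028572, nat_lit 1552000000, nat_lit 295200000], [], [nat_lit 13497078997, nat_lit 13737286568, nat_lit 12584112104, nat_lit 12804593136], nat_lit 1271250, nat_lit 1271250, nat_lit 0, nat_lit 111251, nat_lit 0, nat_lit 0, [nat_lit 1271250, nat_lit 1271250, nat_lit 1271250], [nat_lit 96, nat_lit 40, nat_lit 20, nat_lit 40]⟩, C1.Rw.none,
 ⟨nat_lit 6614, nat_lit 6709, ⟨.ofNat (nat_lit 79940), .ofNat (nat_lit 123018), .ofNat (nat_lit 90659), .ofNat (nat_lit 133737), .ofNat (nat_lit 84877), .ofNat (nat_lit 127460), .ofNat (nat_lit 95585), .ofNat (nat_lit 138168)⟩, ⟨.ofNat (nat_lit 0), .ofNat (nat_lit 0), .ofNat (nat_lit 0), .ofNat (nat_lit 0), .ofNat (nat_lit 0), .ofNat (nat_lit 0), .ofNat (nat_lit 0), .ofNat (nat_lit 0)⟩⟩, [⟨nat_lit 0, nat_lit 100, nat_lit 100, nat_lit 22, nat_lit 334766796⟩]⟩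
noncomputable def p003_l238 : Lf2 := ⟨nat_lit 0, nat_lit 4, [nat_lit 38, nat_lit 5, nat_lit 5, nat_lit 20], true, nat_lit 0, nat_lit 0, nat_lit 0, nat_lit 0, ⟨nat_lit 0, nat_lit 0, nat_lit 1000, nat_lit 5, nat_lit 46, nat_lit 0, nat_lit 0, nat_lit 0, nat_lit 0, nat_lit 215, nat_lit 19267, nat_lit 249, nat_lit 66142841, nat_lit 0, nat_lit 0, nat_lit 342248, false, false⟩,
 nat_lit 0, nat_lit 9853, nat_lit 0, nat_lit 0, nat_lit 4836, nat_lit 0, nat_lit 734, nat_lit 0, nat_lit 0, nat_lit 0, nat_lit 0, nat_lit 0, nat_lit 0, nat_lit 0, nat_lit 91, nat_lit 1000000, nat_lit 0, nat_lit 0, [(nat_lit 3, [(nat_lit 6, nat_lit 1000)])],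
 ⟨p003_k70, nat_lit 0, nat_lit 0, nat_lit 0, nat_lit 0, nat_lit 150339, [nat_lit 2575028572, nat_lit 1552000000, nat_lit 295200000], [], [nat_lit 13027943182, nat_lit 13254117268, nat_lit 12042350440, nat_lit 12267626624], nat_lit 1271250, nat_lit 1271250, nat_lit 0, nat_lit 111251, nat_lit 0, nat_lit 0, [nat_lit 1271250, nat_lit 1271250, nat_lit 1271250], [nat_lit 96, nat_lit 40, nat_lit 20, nat_lit 40]⟩, C1.Rw.none,
 ⟨nat_lit 6519, nat_lit 6615, ⟨.ofNat (nat_lit 84877), .ofNat (nat_lit 127460), .ofNat (nat_lit 95585), .ofNat (nat_lit 138168), .ofNat (nat_lit 89758), .ofNat (nat_lit 131852), .ofNat (nat_lit 100457), .ofNat (nat_lit 142551)⟩, ⟨.ofNat (nat_lit 0), .ofNat (nat_lit 0), .ofNat (nat_lit 0), .ofNat (nat_lit 0), .ofNat (nat_lit 0), .ofNat (nat_lit 0), .ofNat (nat_lit 0), .ofNat (nat_lit 0)⟩⟩, [⟨nat_lit 0, nat_lit 100, nat_lit 99, nat_lit 25, nat_lit 353146771⟩]⟩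
noncomputable def p003_l239 : Lf2 := ⟨nat_lit 0, nat_lit 4, [nat_lit 38, nat_lit 5, nat_lit 5, nat_lit 20], true, nat_lit 0, nat_lit 0, nat_lit 0, nat_lit 0, ⟨nat_lit 0, nat_lit 0, nat_lit 1000, nat_lit 5, nat_lit 59, nat_lit 0, nat_lit 0, nat_lit 0, nat_lit 0, nat_lit 215, nat_lit 33750, nat_lit 260, nat_lit 65550032, nat_lit 0, nat_lit 0, nat_lit 521753, false, false⟩,
 nat_lit 0, nat_lit 11652, nat_lit 0, nat_lit 0, nat_lit 5572, nat_lit 0, nat_lit 694, nat_lit 0, nat_lit 0, nat_lit 0, nat_lit 0, nat_lit 0, nat_lit 0, nat_lit 0, nat_lit 115, nat_lit 1000000, nat_lit 0, nat_lit 0, [(nat_lit 3, [(nat_lit 6, nat_lit 1000)])],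
 ⟨p003_k18, nat_lit 0, nat_lit 0, nat_lit 0, nat_lit 0, nat_lit 154540, [nat_lit 3341142858, nat_lit 1499600000, nat_lit 23600000], [], [nat_lit 11920666176, nat_lit 12372758808, nat_lit 11260741592, nat_lit 11707366620], nat_lit 1271250, nat_lit 1271250, nat_lit 111251, nat_lit 230001, nat_lit 0, nat_lit 0, [nat_lit 1412500, nat_lit 1271250, nat_lit 1271250], [nat_lit 25, nat_lit 40, nat_lit 20, nat_lit 80]⟩, C1.Rw.none,
 ⟨nat_lit 6519, nat_lit 6709, ⟨.ofNat (nat_lit 112299), .ofNat (nat_lit 155377), .ofNat (nat_lit 133737), .ofNat (nat_lit 176815), .ofNat (nat_lit 121153), .ofNat (nat_lit 163247), .ofNat (nat_lit 142551), .ofNat (nat_lit 184645)⟩, ⟨.ofNat (nat_lit 0), .ofNat (nat_lit 0), .ofNat (nat_lit 0), .ofNat (nat_lit 0), .ofNat (nat_lit 0), .ofNat (nat_lit 0), .ofNat (nat_lit 0), .ofNat (nat_lit 0)⟩⟩, []⟩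
noncomputable def p003_l240 : Lf2 := ⟨nat_lit 0, nat_lit 5, [nat_lit 4, nat_lit 5, nat_lit 5, nat_lit 20], true, nat_lit 0, nat_lit 0, nat_lit 0, nat_lit 0, ⟨nat_lit 0, nat_lit 0, nat_lit 1000, nat_lit 5, nat_lit 34, nat_lit 0, nat_lit 0, nat_lit 0, nat_lit 0, nat_lit 215, nat_lit 11267, nat_lit 241, nat_lit 66511309, nat_lit 0, nat_lit 0, nat_lit 215394, false, false⟩,
 nat_lit 0, nat_lit 11429, nat_lit 0, nat_lit 0, nat_lit 5465, nat_lit 0, nat_lit 768, nat_lit 0, nat_lit 0, nat_lit 0, nat_lit 0, nat_lit 0, nat_lit 0, nat_lit 0, nat_lit 115, nat_lit 1000000, nat_lit 0, nat_lit 0, [(nat_lit 3, [(nat_lit 6, nat_lit 1000)])],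
 ⟨p003_k7, nat_lit 0, nat_lit 0, nat_lit 0, nat_lit 0, nat_lit 47638, [nat_lit 3341142858, nat_lit 1499600000, nat_lit 23600000], [], [nat_lit 13322399960, nat_lit 13511442426, nat_lit 12957838728, nat_lit 13150611580], nat_lit 1271250, nat_lit 1271250, nat_lit 0, nat_lit 21650, nat_lit 0, nat_lit 0, [nat_lit 1412500, nat_lit 1271250, nat_lit 1271250], [nat_lit 25, nat_lit 40, nat_lit 20, nat_lit 80]⟩, C1.Rw.none,
 ⟨nat_lit 6652, nat_lit 6709, ⟨.ofNat (nat_lit 69221), .ofNat (nat_lit 77837), .ofNat (nat_lit 90659), .ofNat (nat_lit 99275), .ofNat (nat_lit 72196), .ofNat (nat_lit 80752), .ofNat (nat_lit 93622), .ofNat (nat_lit 102178)⟩, ⟨.ofNat (nat_lit 0), .ofNat (nat_lit 0), .ofNat (nat_lit 0), .ofNat (nat_lit 0), .ofNat (nat_lit 0), .ofNat (nat_lit 0), .ofNat (nat_lit 0), .ofNat (nat_lit 0)⟩⟩, [⟨nat_lit 0, nat_lit 100, nat_lit 100, nat_lit 21, nat_lit 1182485195⟩]⟩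
noncomputable def p003_l241 : Lf2 := ⟨nat_lit 0, nat_lit 5, [nat_lit 4, nat_lit 5, nat_lit 5, nat_lit 20], true, nat_lit 0, nat_lit 0, nat_lit 0, nat_lit 0, ⟨nat_lit 0, nat_lit 0, nat_lit 1000, nat_lit 5, nat_lit 38, nat_lit 0, nat_lit 0, nat_lit 0, nat_lit 0, nat_lit 215, nat_lit 13067, nat_lit 243, nat_lit 66415343, nat_lit 0, nat_lit 0, nat_lit 250038, false, false⟩,
 nat_lit 0, nat_lit 11364, nat_lit 0, nat_lit 0, nat_lit 5434, nat_lit 0, nat_lit 746, nat_lit 0, nat_lit 0, nat_lit 0, nat_lit 0, nat_lit 0, nat_lit 0, nat_lit 0, nat_lit 115, nat_lit 1000000, nat_lit 0, nat_lit 0, [(nat_lit 3, [(nat_lit 6, nat_lit 1000)])],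
 ⟨p003_k7, nat_lit 0, nat_lit 0, nat_lit 0, nat_lit 0, nat_lit 43266, [nat_lit 3341142858, nat_lit 1499600000, nat_lit 23600000], [], [nat_lit 13020672308, nat_lit 13110491874, nat_lit 12792891815, nat_lit 12882649940], nat_lit 1271250, nat_lit 1271250, nat_lit 21650, nat_lit 43600, nat_lit 0, nat_lit 0, [nat_lit 1412500, nat_lit 1271250, nat_lit 1271250], [nat_lit 25, nat_lit 40, nat_lit 20, nat_lit 80]⟩, C1.Rw.none,
 ⟨nat_lit 6670, nat_lit 6709, ⟨.ofNat (nat_lit 77837), .ofNat (nat_lit 86452), .ofNat (nat_lit 99275), .ofNat (nat_lit 107890), .ofNat (nat_lit 79783), .ofNat (nat_lit 88359), .ofNat (nat_lit 101212), .ofNat (nat_lit 109788)⟩, ⟨.ofNat (nat_lit 0), .ofNat (nat_lit 0), .ofNat (nat_lit 0), .ofNat (nat_lit 0), .ofNat (nat_lit 0), .ofNat (nat_lit 0), .ofNat (nat_lit 0), .ofNat (nat_lit 0)⟩⟩, [⟨nat_lit 0, nat_lit 100, nat_lit 100, nat_lit 21, nat_lit 387386878⟩]⟩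
noncomputable def p003_l242 : Lf2 := ⟨nat_lit 0, nat_lit 5, [nat_lit 4, nat_lit 5, nat_lit 5, nat_lit 20], true, nat_lit 0, nat_lit 0, nat_lit 0, nat_lit 0, ⟨nat_lit 0, nat_lit 0, nat_lit 1000, nat_lit 5, nat_lit 38, nat_lit 0, nat_lit 0, nat_lit 0, nat_lit 0, nat_lit 215, nat_lit 14017, nat_lit 244, nat_lit 66397423, nat_lit 0, nat_lit 0, nat_lit 256361, false, false⟩,
 nat_lit 0, nat_lit 11145, nat_lit 0, nat_lit 0, nat_lit 5386, nat_lit 0, nat_lit 691, nat_lit 0, nat_lit 0, nat_lit 0, nat_lit 0, nat_lit 0, nat_lit 0, nat_lit 0, nat_lit 115, nat_lit 1000000, nat_lit 0, nat_lit 0, [(nat_lit 3, [(nat_lit 6, nat_lit 1000)])],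
 ⟨p003_k71, nat_lit 0, nat_lit 0, nat_lit 0, nat_lit 0, nat_lit 47107, [nat_lit 3341142858, nat_lit 1499600000, nat_lit 23600000], [], [nat_lit 13165803529, nat_lit 13210566580, nat_lit 12940412348, nat_lit 12985144634], nat_lit 1271250, nat_lit 1271250, nat_lit 21650, nat_lit 43600, nat_lit 0, nat_lit 0, [nat_lit 1412500, nat_lit 1271250, nat_lit 1271250], [nat_lit 25, nat_lit 40, nat_lit 20, nat_lit 80]⟩, C1.Rw.none,
 ⟨nat_lit 6652, nat_lit 6671, ⟨.ofNat (nat_lit 79783), .ofNat (nat_lit 88359), .ofNat (nat_lit 101212), .ofNat (nat_lit 109788), .ofNat (nat_lit 80752), .ofNat (nat_lit 89309), .ofNat (nat_lit 102178), .ofNat (nat_lit 110734)⟩, ⟨.ofNat (nat_lit 0), .ofNat (nat_lit 0), .ofNat (nat_lit 0), .ofNat (nat_lit 0), .ofNat (nat_lit 0), .ofNat (nat_lit 0), .ofNat (nat_lit 0), .ofNat (nat_lit 0)⟩⟩, [⟨nat_lit 0, nat_lit 100, nat_lit 100, nat_lit 21, nat_lit 384264884⟩]⟩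
noncomputable def p003_l243 : Lf2 := ⟨nat_lit 0, nat_lit 5, [nat_lit 4, nat_lit 5, nat_lit 5, nat_lit 20], true, nat_lit 0, nat_lit 0, nat_lit 0, nat_lit 0, ⟨nat_lit 0, nat_lit 0, nat_lit 1000, nat_lit 5, nat_lit 37, nat_lit 0, nat_lit 0, nat_lit 0, nat_lit 0, nat_lit 215, nat_lit 13067, nat_lit 243, nat_lit 66432455, nat_lit 0, nat_lit 0, nat_lit 243959, false, false⟩,
 nat_lit 0, nat_lit 11133, nat_lit 0, nat_lit 0, nat_lit 5408, nat_lit 0, nat_lit 660, nat_lit 0, nat_lit 0, nat_lit 0, nat_lit 0, nat_lit 0, nat_lit 0, nat_lit 0, nat_lit 115, nat_lit 1000000, nat_lit 0, nat_lit 0, [(nat_lit 3, [(nat_lit 6, nat_lit 1000)])],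
 ⟨p003_k72, nat_lit 0, nat_lit 0, nat_lit 0, nat_lit 0, nat_lit 55444, [nat_lit 3341142858, nat_lit 1499600000, nat_lit 23600000], [], [nat_lit 13639470680, nat_lit 13764900832, nat_lit 12954496193, nat_lit 13044095311], nat_lit 1271250, nat_lit 1271250, nat_lit 0, nat_lit 43600, nat_lit 0, nat_lit 0, [nat_lit 1412500, nat_lit 1271250, nat_lit 1271250], [nat_lit 25, nat_lit 40, nat_lit 20, nat_lit 80]⟩, C1.Rw.none,
 ⟨nat_lit 6614, nat_lit 6653, ⟨.ofNat (nat_lit 72196), .ofNat (nat_lit 89309), .ofNat (nat_lit 93622), .ofNat (nat_lit 110734), .ofNat (nat_lit 74168), .ofNat (nat_lit 91202), .ofNat (nat_lit 95585), .ofNat (nat_lit 112619)⟩, ⟨.ofNat (nat_lit 0), .ofNat (nat_lit 0), .ofNat (nat_lit 0), .ofNat (nat_lit 0), .ofNat (nat_lit 0), .ofNat (nat_lit 0), .ofNat (nat_lit 0), .ofNat (nat_lit 0)⟩⟩, [⟨nat_lit 0, nat_lit 100, nat_lit 100, nat_lit 22, nat_lit 553479430⟩]⟩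
noncomputable def p003_l244 : Lf2 := ⟨nat_lit 0, nat_lit 5, [nat_lit 4, nat_lit 5, nat_lit 5, nat_lit 20], true, nat_lit 0, nat_lit 0, nat_lit 0, nat_lit 0, ⟨nat_lit 0, nat_lit 0, nat_lit 1000, nat_lit 5, nat_lit 38, nat_lit 0, nat_lit 0, nat_lit 0, nat_lit 0, nat_lit 215, nat_lit 13067, nat_lit 243, nat_lit 66402837, nat_lit 0, nat_lit 0, nat_lit 254451, false, false⟩,
 nat_lit 0, nat_lit 10871, nat_lit 0, nat_lit 0, nat_lit 5336, nat_lit 0, nat_lit 597, nat_lit 0, nat_lit 0, nat_lit 0, nat_lit 0, nat_lit 0, nat_lit 0, nat_lit 0, nat_lit 115, nat_lit 1000000, nat_lit 0, nat_lit 0, [(nat_lit 3, [(nat_lit 6, nat_lit 1000)])],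
 ⟨p003_k49, nat_lit 0, nat_lit 0, nat_lit 0, nat_lit 0, nat_lit 68057, [nat_lit 3341142858, nat_lit 1499600000, nat_lit 23600000], [], [nat_lit 13815599869, nat_lit 14002611745, nat_lit 13159361241, nat_lit 13293099424], nat_lit 1271250, nat_lit 1271250, nat_lit 0, nat_lit 43600, nat_lit 0, nat_lit 0, [nat_lit 1412500, nat_lit 1271250, nat_lit 1271250], [nat_lit 25, nat_lit 40, nat_lit 20, nat_lit 80]⟩, C1.Rw.none,
 ⟨nat_lit 6557, nat_lit 6615, ⟨.ofNat (nat_lit 74168), .ofNat (nat_lit 91202), .ofNat (nat_lit 95585), .ofNat (nat_lit 112619), .ofNat (nat_lit 77109), .ofNat (nat_lit 94025), .ofNat (nat_lit 98515), .ofNat (nat_lit 115430)⟩, ⟨.ofNat (nat_lit 0), .ofNat (nat_lit 0), .ofNat (nat_lit 0), .ofNat (nat_lit 0), .ofNat (nat_lit 0), .ofNat (nat_lit 0), .ofNat (nat_lit 0), .ofNat (nat_lit 0)⟩⟩, [⟨nat_lit 0, nat_lit 100, nat_lit 100, nat_lit 24, nat_lit 545432792⟩]⟩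
noncomputable def p003_l245 : Lf2 := ⟨nat_lit 0, nat_lit 5, [nat_lit 4, nat_lit 5, nat_lit 5, nat_lit 20], true, nat_lit 0, nat_lit 0, nat_lit 0, nat_lit 0, ⟨nat_lit 0, nat_lit 0, nat_lit 1000, nat_lit 5, nat_lit 39, nat_lit 0, nat_lit 0, nat_lit 0, nat_lit 0, nat_lit 215, nat_lit 14017, nat_lit 244, nat_lit 66372624, nat_lit 0, nat_lit 0, nat_lit 265045, false, false⟩,
 nat_lit 0, nat_lit 10585, nat_lit 0, nat_lit 0, nat_lit 5277, nat_lit 0, nat_lit 536, nat_lit 0, nat_lit 0, nat_lit 0, nat_lit 0, nat_lit 0, nat_lit 0, nat_lit 0, nat_lit 115, nat_lit 1000000, nat_lit 0, nat_lit 0, [(nat_lit 3, [(nat_lit 6, nat_lit 1000)])],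
 ⟨p003_k73, nat_lit 0, nat_lit 0, nat_lit 0, nat_lit 0, nat_lit 75727, [nat_lit 3341142858, nat_lit 1499600000, nat_lit 23600000], [], [nat_lit 14046365440, nat_lit 14170420878, nat_lit 13378370025, nat_lit 13467459823], nat_lit 1271250, nat_lit 1271250, nat_lit 0, nat_lit 43600, nat_lit 0, nat_lit 0, [nat_lit 1412500, nat_lit 1271250, nat_lit 1271250], [nat_lit 25, nat_lit 40, nat_lit 20, nat_lit 80]⟩, C1.Rw.none,
 ⟨nat_lit 6519, nat_lit 6558, ⟨.ofNat (nat_lit 77109), .ofNat (nat_lit 94025), .ofNat (nat_lit 98515), .ofNat (nat_lit 115430), .ofNat (nat_lit 79059), .ofNat (nat_lit 95896), .ofNat (nat_lit 100457), .ofNat (nat_lit 117294)⟩, ⟨.ofNat (nat_lit 0), .ofNat (nat_lit 0), .ofNat (nat_lit 0), .ofNat (nat_lit 0), .ofNat (nat_lit 0), .ofNat (nat_lit 0), .ofNat (nat_lit 0), .ofNat (nat_lit 0)⟩⟩, [⟨nat_lit 0, nat_lit 100, nat_lit 99, nat_lit 25, nat_lit 545031077⟩]⟩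
noncomputable def p003_l246 : Lf2 := ⟨nat_lit 0, nat_lit 5, [nat_lit 4, nat_lit 5, nat_lit 5, nat_lit 20], true, nat_lit 0, nat_lit 0, nat_lit 0, nat_lit 0, ⟨nat_lit 0, nat_lit 0, nat_lit 1000, nat_lit 5, nat_lit 46, nat_lit 0, nat_lit 0, nat_lit 0, nat_lit 0, nat_lit 215, nat_lit 19267, nat_lit 249, nat_lit 66130602, nat_lit 0, nat_lit 0, nat_lit 346215, false, false⟩,
 nat_lit 0, nat_lit 11240, nat_lit 0, nat_lit 0, nat_lit 5375, nat_lit 0, nat_lit 668, nat_lit 0, nat_lit 0, nat_lit 0, nat_lit 0, nat_lit 0, nat_lit 0, nat_lit 0, nat_lit 115, nat_lit 1000000, nat_lit 0, nat_lit 0, [(nat_lit 3, [(nat_lit 6, nat_lit 1000)])],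
 ⟨p003_k7, nat_lit 0, nat_lit 0, nat_lit 0, nat_lit 0, nat_lit 79161, [nat_lit 3341142858, nat_lit 1499600000, nat_lit 23600000], [], [nat_lit 12944168216, nat_lit 13391154716, nat_lit 12269864216, nat_lit 12715927466], nat_lit 1271250, nat_lit 1271250, nat_lit 43600, nat_lit 111251, nat_lit 0, nat_lit 0, [nat_lit 1412500, nat_lit 1271250, nat_lit 1271250], [nat_lit 25, nat_lit 40, nat_lit 20, nat_lit 80]⟩, C1.Rw.none,
 ⟨nat_lit 6519, nat_lit 6709, ⟨.ofNat (nat_lit 86452), .ofNat (nat_lit 112299), .ofNat (nat_lit 107890), .ofNat (nat_lit 133737), .ofNat (nat_lit 95896), .ofNat (nat_lit 121153), .ofNat (nat_lit 117294), .ofNat (nat_lit 142551)⟩, ⟨.ofNat (nat_lit 0), .ofNat (nat_lit 0), .ofNat (nat_lit 0), .ofNat (nat_lit 0), .ofNat (nat_lit 0), .ofNat (nat_lit 0), .ofNat (nat_lit 0), .ofNat (nat_lit 0)⟩⟩, []⟩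
noncomputable def p003_l247 : Lf2 := ⟨nat_lit 0, nat_lit 5, [nat_lit 4, nat_lit 5, nat_lit 5, nat_lit 20], true, nat_lit 0, nat_lit 0, nat_lit 0, nat_lit 0, ⟨nat_lit 0, nat_lit 0, nat_lit 1000, nat_lit 5, nat_lit 59, nat_lit 0, nat_lit 0, nat_lit 0, nat_lit 0, nat_lit 215, nat_lit 33750, nat_lit 260, nat_lit 65550032, nat_lit 0, nat_lit 0, nat_lit 521753, false, false⟩,
 nat_lit 0, nat_lit 10392, nat_lit 0, nat_lit 0, nat_lit 4970, nat_lit 0, nat_lit 304, nat_lit 0, nat_lit 0, nat_lit 0, nat_lit 0, nat_lit 0, nat_lit 0, nat_lit 0, nat_lit 115, nat_lit 1000000, nat_lit 0, nat_lit 0, [(nat_lit 3, [(nat_lit 6, nat_lit 1000)])],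
 ⟨p003_k7, nat_lit 0, nat_lit 0, nat_lit 0, nat_lit 0, nat_lit 79161, [nat_lit 3341142858, nat_lit 1499600000, nat_lit 23600000], [], [nat_lit 12459746918, nat_lit 12949650808, nat_lit 11736023418, nat_lit 12274572586], nat_lit 1271250, nat_lit 1271250, nat_lit 111251, nat_lit 230001, nat_lit 0, nat_lit 0, [nat_lit 1412500, nat_lit 1271250, nat_lit 1271250], [nat_lit 25, nat_lit 40, nat_lit 20, nat_lit 80]⟩, C1.Rw.none,
 ⟨nat_lit 6519, nat_lit 6709, ⟨.ofNat (nat_lit 112299), .ofNat (nat_lit 155377), .ofNat (nat_lit 133737), .ofNat (nat_lit 176815), .ofNat (nat_lit 121153), .ofNat (nat_lit 163247), .ofNat (nat_lit 142551), .ofNat (nat_lit 184645)⟩, ⟨.ofNat (nat_lit 0), .ofNat (nat_lit 0), .ofNat (nat_lit 0), .ofNat (nat_lit 0), .ofNat (nat_lit 0), .ofNat (nat_lit 0), .ofNat (nat_lit 0), .ofNat (nat_lit 0)⟩⟩, []⟩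
noncomputable def p003_l248 : Lf2 := ⟨nat_lit 0, nat_lit 4, [nat_lit 38, nat_lit 5, nat_lit 5, nat_lit 20], true, nat_lit 0, nat_lit 0, nat_lit 0, nat_lit 0, ⟨nat_lit 0, nat_lit 0, nat_lit 1000, nat_lit 5, nat_lit 52, nat_lit 0, nat_lit 0, nat_lit 0, nat_lit 0, nat_lit 215, nat_lit 25350, nat_lit 254, nat_lit 65872547, nat_lit 0, nat_lit 0, nat_lit 427033, false, false⟩,
 nat_lit 0, nat_lit 9241, nat_lit 0, nat_lit 0, nat_lit 4654, nat_lit 0, nat_lit 0, nat_lit 0, nat_lit 0, nat_lit 0, nat_lit 0, nat_lit 0, nat_lit 0, nat_lit 0, nat_lit 91, nat_lit 1000000, nat_lit 0, nat_lit 0, [(nat_lit 3, [(nat_lit 6, nat_lit 1000)])],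
 ⟨p003_k74, nat_lit 0, nat_lit 0, nat_lit 0, nat_lit 0, nat_lit 157037, [nat_lit 2575028572, nat_lit 1552000000, nat_lit 295200000], [], [nat_lit 14836836804, nat_lit 15067633752, nat_lit 15209074312, nat_lit 14006266628], nat_lit 1271250, nat_lit 1271250, nat_lit 0, nat_lit 230001, nat_lit 0, nat_lit 0, [nat_lit 1271250, nat_lit 1271250, nat_lit 1271250], [nat_lit 96, nat_lit 40, nat_lit 20, nat_lit 40]⟩, C1.Rw.none,
 ⟨nat_lit 6324, nat_lit 6520, ⟨.ofNat (nat_lit 79059), .ofNat (nat_lit 163247), .ofNat (nat_lit 89758), .ofNat (nat_lit 173946), .ofNat (nat_lit 88677), .ofNat (nat_lit 170942), .ofNat (nat_lit 99361), .ofNat (nat_lit 181625)⟩, ⟨.ofNat (nat_lit 0), .ofNat (nat_lit 0), .ofNat (nat_lit 0), .ofNat (nat_lit 0), .ofNat (nat_lit 0), .ofNat (nat_lit 0), .ofNat (nat_lit 0), .ofNat (nat_lit 0)⟩⟩, [⟨nat_lit 0, nat_lit 100, nat_lit 98, nat_lit 20, nat_lit 58403198⟩]⟩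
noncomputable def p003_l249 : Lf2 := ⟨nat_lit 0, nat_lit 5, [nat_lit 4, nat_lit 5, nat_lit 5, nat_lit 20], true, nat_lit 0, nat_lit 0, nat_lit 0, nat_lit 0, ⟨nat_lit 0, nat_lit 0, nat_lit 1000, nat_lit 5, nat_lit 52, nat_lit 0, nat_lit 0, nat_lit 0, nat_lit 0, nat_lit 215, nat_lit 25350, nat_lit 254, nat_lit 65872547, nat_lit 0, nat_lit 0, nat_lit 427033, false, false⟩,
 nat_lit 0, nat_lit 9963, nat_lit 0, nat_lit 0, nat_lit 5017, nat_lit 0, nat_lit 421, nat_lit 0, nat_lit 0, nat_lit 0, nat_lit 0, nat_lit 0, nat_lit 0, nat_lit 0, nat_lit 115, nat_lit 1000000, nat_lit 0, nat_lit 0, [(nat_lit 3, [(nat_lit 6, nat_lit 1000)])],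
 ⟨p003_k13, nat_lit 0, nat_lit 0, nat_lit 0, nat_lit 0, nat_lit 85729, [nat_lit 3341142858, nat_lit 1499600000, nat_lit 23600000], [], [nat_lit 14362389953, nat_lit 14799051473, nat_lit 12761277360, nat_lit 13191225193], nat_lit 1271250, nat_lit 1271250, nat_lit 0, nat_lit 230001, nat_lit 0, nat_lit 0, [nat_lit 1412500, nat_lit 1271250, nat_lit 1271250], [nat_lit 25, nat_lit 40, nat_lit 20, nat_lit 80]⟩, C1.Rw.none,
 ⟨nat_lit 6324, nat_lit 6520, ⟨.ofNat (nat_lit 79059), .ofNat (nat_lit 163247), .ofNat (nat_lit 89758), .ofNat (nat_lit 173946), .ofNat (nat_lit 88677), .ofNat (nat_lit 170942), .ofNat (nat_lit 99361), .ofNat (nat_lit 181625)⟩, ⟨.ofNat (nat_lit 0), .ofNat (nat_lit 0), .ofNat (nat_lit 0), .ofNat (nat_lit 0), .ofNat (nat_lit 0), .ofNat (nat_lit 0), .ofNat (nat_lit 0), .ofNat (nat_lit 0)⟩⟩, [⟨nat_lit 0, nat_lit 100, nat_lit 98, nat_lit 25, nat_lit 305899581⟩]⟩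
noncomputable def p003_l250 : Lf2 := ⟨nat_lit 0, nat_lit 3, [nat_lit 45, nat_lit 5, nat_lit 5, nat_lit 20], true, nat_lit 0, nat_lit 0, nat_lit 0, nat_lit 0, ⟨nat_lit 0, nat_lit 0, nat_lit 1000, nat_lit 5, nat_lit 50, nat_lit 0, nat_lit 0, nat_lit 0, nat_lit 0, nat_lit 215, nat_lit 22817, nat_lit 252, nat_lit 65971288, nat_lit 0, nat_lit 0, nat_lit 396706, false, false⟩,
 nat_lit 0, nat_lit 8127, nat_lit 0, nat_lit 0, nat_lit 4093, nat_lit 0, nat_lit 1205, nat_lit 0, nat_lit 0, nat_lit 0, nat_lit 0, nat_lit 0, nat_lit 0, nat_lit 0, nat_lit 27, nat_lit 283000, nat_lit 0, nat_lit 0, [(nat_lit 3, [(nat_lit 4, nat_lit 780), (nat_lit 5, nat_lit 220)])],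
 ⟨p003_k75, nat_lit 0, nat_lit 0, nat_lit 0, nat_lit 0, nat_lit 188527, [nat_lit 1813432001, nat_lit 1066632000, nat_lit 415904000, nat_lit 12424000], [], [nat_lit 13139312584, nat_lit 13656214853, nat_lit 12343684965, nat_lit 12860004494], nat_lit 1271250, nat_lit 1271250, nat_lit 21650, nat_lit 111251, nat_lit 0, nat_lit 0, [nat_lit 631250, nat_lit 1271250, nat_lit 1271250, nat_lit 1271250], [nat_lit 139, nat_lit 40, nat_lit 20, nat_lit 40]⟩, C1.Rw.none,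
 ⟨nat_lit 6324, nat_lit 6520, ⟨.ofNat (nat_lit 98177), .ofNat (nat_lit 131852), .ofNat (nat_lit 108876), .ofNat (nat_lit 142551), .ofNat (nat_lit 107588), .ofNat (nat_lit 140493), .ofNat (nat_lit 118272), .ofNat (nat_lit 151177)⟩, ⟨.ofNat (nat_lit 0), .ofNat (nat_lit 0), .ofNat (nat_lit 0), .ofNat (nat_lit 0), .ofNat (nat_lit 0), .ofNat (nat_lit 0), .ofNat (nat_lit 0), .ofNat (nat_lit 0)⟩⟩, [⟨nat_lit 0, nat_lit 100, nat_lit 99, nat_lit 25, nat_lit 357313444⟩]⟩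
noncomputable def p003_l251 : Lf2 := ⟨nat_lit 0, nat_lit 3, [nat_lit 45, nat_lit 5, nat_lit 5, nat_lit 20], false, nat_lit 0, nat_lit 0, nat_lit 0, nat_lit 0, ⟨nat_lit 0, nat_lit 0, nat_lit 1000, nat_lit 5, nat_lit 50, nat_lit 0, nat_lit 0, nat_lit 0, nat_lit 0, nat_lit 215, nat_lit 22817, nat_lit 252, nat_lit 65971288, nat_lit 0, nat_lit 0, nat_lit 396706, false, false⟩,
 nat_lit 0, nat_lit 13903, nat_lit 0, nat_lit 0, nat_lit 7002, nat_lit 100000, nat_lit 0, nat_lit 0, nat_lit 0, nat_lit 31007, nat_lit 5697, nat_lit 0, nat_lit 0, nat_lit 0, nat_lit 53, nat_lit 1000000, nat_lit 0, nat_lit 0, [(nat_lit 3, [(nat_lit 6, nat_lit 1000)])],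
 ⟨p003_k76, nat_lit 0, nat_lit 0, nat_lit 0, nat_lit 0, nat_lit 188527, [nat_lit 2101142858, nat_lit 11600000], [], [nat_lit 14607385327, nat_lit 15434778888, nat_lit 14622870578, nat_lit 13518794408], nat_lit 1271250, nat_lit 1271250, nat_lit 21650, nat_lit 111251, nat_lit 0, nat_lit 0, [nat_lit 1412500, nat_lit 1271250], [nat_lit 26, nat_lit 40, nat_lit 20, nat_lit 80]⟩, ⟨p003_k77, nat_lit 0, nat_lit 0, nat_lit 0, nat_lit 0, nat_lit 0, [nat_lit 113940000000, nat_lit 136728000000, nat_lit 159516000000], [], [nat_lit 178241286875, nat_lit 181953306876, nat_lit 153984646875, nat_lit 157769800000], nat_lit 0, nat_lit 0, nat_lit 0, nat_lit 0, nat_lit 0, nat_lit 0, [], [nat_lit 25, nat_lit 40, nat_lit 20, nat_lit 80]⟩,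
 ⟨nat_lit 6324, nat_lit 6520, ⟨.ofNat (nat_lit 98177), .ofNat (nat_lit 131852), .ofNat (nat_lit 108876), .ofNat (nat_lit 142551), .ofNat (nat_lit 107588), .ofNat (nat_lit 140493), .ofNat (nat_lit 118272), .ofNat (nat_lit 151177)⟩, ⟨.ofNat (nat_lit 0), .ofNat (nat_lit 0), .ofNat (nat_lit 0), .ofNat (nat_lit 0), .ofNat (nat_lit 0), .ofNat (nat_lit 0), .ofNat (nat_lit 0), .ofNat (nat_lit 0)⟩⟩, [⟨nat_lit 0, nat_lit 100, nat_lit 99, nat_lit 25, nat_lit 4929403647⟩]⟩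
noncomputable def p003_l252 : Lf2 := ⟨nat_lit 0, nat_lit 4, [nat_lit 38, nat_lit 5, nat_lit 5, nat_lit 20], true, nat_lit 0, nat_lit 0, nat_lit 0, nat_lit 0, ⟨nat_lit 0, nat_lit 0, nat_lit 1000, nat_lit 5, nat_lit 50, nat_lit 0, nat_lit 0, nat_lit 0, nat_lit 0, nat_lit 215, nat_lit 22817, nat_lit 252, nat_lit 65971288, nat_lit 0, nat_lit 0, nat_lit 396706, false, false⟩,
 nat_lit 0, nat_lit 8995, nat_lit 0, nat_lit 0, nat_lit 4530, nat_lit 0, nat_lit 348, nat_lit 0, nat_lit 0, nat_lit 0, nat_lit 0, nat_lit 0, nat_lit 0, nat_lit 0, nat_lit 91, nat_lit 1000000, nat_lit 0, nat_lit 0, [(nat_lit 3, [(nat_lit 6, nat_lit 1000)])],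
 ⟨p003_k74, nat_lit 0, nat_lit 0, nat_lit 0, nat_lit 0, nat_lit 153818, [nat_lit 2575028572, nat_lit 1552000000, nat_lit 295200000], [], [nat_lit 13509917828, nat_lit 13971800181, nat_lit 12783315532, nat_lit 13245923604], nat_lit 1271250, nat_lit 1271250, nat_lit 21650, nat_lit 111251, nat_lit 0, nat_lit 0, [nat_lit 1271250, nat_lit 1271250, nat_lit 1271250], [nat_lit 96, nat_lit 40, nat_lit 20, nat_lit 40]⟩, C1.Rw.none,
 ⟨nat_lit 6324, nat_lit 6520, ⟨.ofNat (nat_lit 98177), .ofNat (nat_lit 131852), .ofNat (nat_lit 108876), .ofNat (nat_lit 142551), .ofNat (nat_lit 107588), .ofNat (nat_lit 140493), .ofNat (nat_lit 118272), .ofNat (nat_lit 151177)⟩, ⟨.ofNat (nat_lit 0), .ofNat (nat_lit 0), .ofNat (nat_lit 0), .ofNat (nat_lit 0), .ofNat (nat_lit 0), .ofNat (nat_lit 0), .ofNat (nat_lit 0), .ofNat (nat_lit 0)⟩⟩, [⟨nat_lit 0, nat_lit 100, nat_lit 98, nat_lit 30, nat_lit 333659698⟩]⟩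
noncomputable def p003_l253 : Lf2 := ⟨nat_lit 0, nat_lit 5, [nat_lit 4, nat_lit 5, nat_lit 5, nat_lit 20], true, nat_lit 0, nat_lit 0, nat_lit 0, nat_lit 0, ⟨nat_lit 0, nat_lit 0, nat_lit 1000, nat_lit 5, nat_lit 50, nat_lit 0, nat_lit 0, nat_lit 0, nat_lit 0, nat_lit 215, nat_lit 22817, nat_lit 252, nat_lit 65971288, nat_lit 0, nat_lit 0, nat_lit 396706, false, false⟩,
 nat_lit 0, nat_lit 8849, nat_lit 0, nat_lit 0, nat_lit 4456, nat_lit 0, nat_lit 216, nat_lit 0, nat_lit 0, nat_lit 0, nat_lit 0, nat_lit 0, nat_lit 0, nat_lit 0, nat_lit 91, nat_lit 1000000, nat_lit 0, nat_lit 0, [(nat_lit 3, [(nat_lit 6, nat_lit 1000)])],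
 ⟨p003_k78, nat_lit 0, nat_lit 0, nat_lit 0, nat_lit 0, nat_lit 120713, [nat_lit 2575028572, nat_lit 1552000000, nat_lit 295200000], [], [nat_lit 13726214277, nat_lit 14178477703, nat_lit 13014627964, nat_lit 13452302892], nat_lit 1271250, nat_lit 1271250, nat_lit 21650, nat_lit 111251, nat_lit 0, nat_lit 0, [nat_lit 1271250, nat_lit 1271250, nat_lit 1271250], [nat_lit 96, nat_lit 40, nat_lit 20, nat_lit 40]⟩, C1.Rw.none,
 ⟨nat_lit 6324, nat_lit 6520, ⟨.ofNat (nat_lit 98177), .ofNat (nat_lit 131852), .ofNat (nat_lit 108876), .ofNat (nat_lit 142551), .ofNat (nat_lit 107588), .ofNat (nat_lit 140493), .ofNat (nat_lit 118272), .ofNat (nat_lit 151177)⟩, ⟨.ofNat (nat_lit 0), .ofNat (nat_lit 0), .ofNat (nat_lit 0), .ofNat (nat_lit 0), .ofNat (nat_lit 0), .ofNat (nat_lit 0), .ofNat (nat_lit 0), .ofNat (nat_lit 0)⟩⟩, [⟨nat_lit 0, nat_lit 100, nat_lit 99, nat_lit 25, nat_lit 55533340⟩,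 ⟨nat_lit 0, nat_lit 100, nat_lit 98, nat_lit 30, nat_lit 278053627⟩]⟩
noncomputable def p003_l254 : Lf2 := ⟨nat_lit 0, nat_lit 5, [nat_lit 4, nat_lit 5, nat_lit 5, nat_lit 20], true, nat_lit 0, nat_lit 0, nat_lit 0, nat_lit 0, ⟨nat_lit 0, nat_lit 0, nat_lit 1000, nat_lit 5, nat_lit 65, nat_lit 0, nat_lit 0, nat_lit 0, nat_lit 0, nat_lit 215, nat_lit 40017, nat_lit 264, nat_lit 65279918, nat_lit 0, nat_lit 0, nat_lit 596780, false, false⟩,
 nat_lit 0, nat_lit 10003, nat_lit 0, nat_lit 0, nat_lit 5038, nat_lit 0, nat_lit 769, nat_lit 0, nat_lit 0, nat_lit 0, nat_lit 0, nat_lit 0, nat_lit 0, nat_lit 0, nat_lit 91, nat_lit 1000000, nat_lit 0, nat_lit 0, [(nat_lit 3, [(nat_lit 6, nat_lit 1000)])],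
 ⟨p003_k78, nat_lit 0, nat_lit 0, nat_lit 0, nat_lit 0, nat_lit 197501, [nat_lit 2575028572, nat_lit 1552000000, nat_lit 295200000], [], [nat_lit 11689081787, nat_lit 12190729435, nat_lit 11144794547, nat_lit 11640183683], nat_lit 1271250, nat_lit 1271250, nat_lit 111251, nat_lit 230001, nat_lit 0, nat_lit 0, [nat_lit 1271250, nat_lit 1271250, nat_lit 1271250], [nat_lit 96, nat_lit 40, nat_lit 20, nat_lit 40]⟩, C1.Rw.none,
 ⟨nat_lit 6324, nat_lit 6520, ⟨.ofNat (nat_lit 131852), .ofNat (nat_lit 173946), .ofNat (nat_lit 142551), .ofNat (nat_lit 184645), .ofNat (nat_lit 140493), .ofNat (nat_lit 181625), .ofNat (nat_lit 151177), .ofNat (nat_lit 192309)⟩, ⟨.ofNat (nat_lit 0), .ofNat (nat_lit 0), .ofNat (nat_lit 0), .ofNat (nat_lit 0), .ofNat (nat_lit 0), .ofNat (nat_lit 0), .ofNat (nat_lit 0), .ofNat (nat_lit 0)⟩⟩, []⟩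
noncomputable def p003_l255 : Lf2 := ⟨nat_lit 0, nat_lit 5, [nat_lit 4, nat_lit 5, nat_lit 5, nat_lit 20], true, nat_lit 0, nat_lit 0, nat_lit 0, nat_lit 0, ⟨nat_lit 0, nat_lit 0, nat_lit 1000, nat_lit 5, nat_lit 53, nat_lit 0, nat_lit 0, nat_lit 0, nat_lit 0, nat_lit 215, nat_lit 26667, nat_lit 255, nat_lit 65856757, nat_lit 0, nat_lit 0, nat_lit 431820, false, false⟩,
 nat_lit 0, nat_lit 100000, nat_lit 0, nat_lit 0, nat_lit 47826, nat_lit 0, nat_lit 10684, nat_lit 2212, nat_lit 0, nat_lit 0, nat_lit 0, nat_lit 0, nat_lit 0, nat_lit 0, nat_lit 0, nat_lit 1000000, nat_lit 0, nat_lit 0, [(nat_lit 3, [(nat_lit 6, nat_lit 1000)])],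
 ⟨p003_k7, nat_lit 0, nat_lit 0, nat_lit 388, nat_lit 0, nat_lit 208711, [nat_lit 45281142858, nat_lit 51827600000, nat_lit 58739600000], [], [nat_lit 109411786074, nat_lit 94319224448, nat_lit 105615285606, nat_lit 81436181742], nat_lit 1271250, nat_lit 1271250, nat_lit 0, nat_lit 230001, nat_lit 0, nat_lit 0, [nat_lit 1412500, nat_lit 1271250, nat_lit 1271250], [nat_lit 25, nat_lit 40, nat_lit 20, nat_lit 80, nat_lit 17, nat_lit 289, nat_lit 75, nat_lit 9]⟩, C1.Rw.none,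
 ⟨nat_lit 6324, nat_lit 6709, ⟨.ofNat (nat_lit 69221), .ofNat (nat_lit 155377), .ofNat (nat_lit 90659), .ofNat (nat_lit 176815), .ofNat (nat_lit 88677), .ofNat (nat_lit 170942), .ofNat (nat_lit 110045), .ofNat (nat_lit 192309)⟩, ⟨.ofNat (nat_lit 0), .ofNat (nat_lit 0), .ofNat (nat_lit 0), .ofNat (nat_lit 0), .ofNat (nat_lit 0), .ofNat (nat_lit 0), .ofNat (nat_lit 0), .ofNat (nat_lit 0)⟩⟩, [⟨nat_lit 0, nat_lit 100, nat_lit 99, nat_lit 20, nat_lit 590192715⟩]⟩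
noncomputable def p003_l256 : Lf2 := ⟨nat_lit 3, nat_lit 5, [nat_lit 4, nat_lit 5, nat_lit 5, nat_lit 20], false, nat_lit 0, nat_lit 0, nat_lit 0, nat_lit 0, zbN0,
 nat_lit 0, nat_lit 0, nat_lit 0, nat_lit 0, nat_lit 0, nat_lit 0, nat_lit 0, nat_lit 0, nat_lit 0, nat_lit 0, nat_lit 0, nat_lit 0, nat_lit 0, nat_lit 0, nat_lit 0, nat_lit 0, nat_lit 0, nat_lit 0, [],
 C1.Rw.none, ⟨p003_k50, nat_lit 0, nat_lit 0, nat_lit 376, nat_lit 0, nat_lit 0, [], [], [], nat_lit 0, nat_lit 0, nat_lit 0, nat_lit 0, nat_lit 0, nat_lit 0, [], [nat_lit 53, nat_lit 40, nat_lit 20, nat_lit 80, nat_lit 14, nat_lit 289, nat_lit 75, nat_lit 8]⟩,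
 zbF0, []⟩
noncomputable def b_NL_550_500_0_3 : St := ⟨false, nat_lit 1, nat_lit 0, nat_lit 1, nat_lit 20, nat_lit 220, nat_lit 240, nat_lit 200, nat_lit 220, nat_lit 0, nat_lit 40, nat_lit 0, nat_lit 0, nat_lit 0, nat_lit 0, nat_lit 0, nat_lit 0, nat_lit 8, nat_lit 20, nat_lit 0, nat_lit 0, nat_lit 0, nat_lit 0⟩
theorem d_NL_550_500_0_3 (h : EB TB.env) : Dead b_NL_550_500_0_3 := chkB_sound0 h (T :=
(.spl (nat_lit 8) (nat_lit 800)
(.spl (nat_lit 7) (nat_lit 600)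
(.spl (nat_lit 7) (nat_lit 300)
(.leaf p003_l235)
(.spl (nat_lit 0) (nat_lit 230)
(.spl (nat_lit 6) (nat_lit 16)
(.spl (nat_lit 2) (nat_lit 20)
(.spl (nat_lit 1) (nat_lit 210)
(.leaf p003_l236)
(.spl (nat_lit 0) (nat_lit 225)
(.leaf p003_l237)
(.leaf p003_l238)))
(.leaf p003_l239))
(.spl (nat_lit 2) (nat_lit 20)
(.spl (nat_lit 2) (nat_lit 8)
(.spl (nat_lit 0) (nat_lit 225)
(.spl (nat_lit 0) (nat_lit 223)
(.spl (nat_lit 2) (nat_lit 4)
(.leaf p003_l240)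
(.spl (nat_lit 0) (nat_lit 222)
(.leaf p003_l241)
(.leaf p003_l242)))
(.leaf p003_l243))
(.spl (nat_lit 0) (nat_lit 228)
(.leaf p003_l244)
(.leaf p003_l245)))
(.leaf p003_l246))
(.leaf p003_l247)))
(.spl (nat_lit 1) (nat_lit 210)
(.spl (nat_lit 6) (nat_lit 16)
(.leaf p003_l248)
(.leaf p003_l249))
(.trZ (nat_lit 0) (nat_lit 100) (nat_lit 99) (nat_lit 20) (nat_lit 4) (.spl (nat_lit 2) (nat_lit 20)
(.spl (nat_lit 6) (nat_lit 16)
(.spl (nat_lit 6) (nat_lit 12)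
(.spl (nat_lit 8) (nat_lit 400)
(.leaf p003_l250)
(.leaf p003_l251))
(.leaf p003_l252))
(.leaf p003_l253))
(.leaf p003_l254))))))
(.leaf p003_l255))
(.leaf p003_l256))) (by decide +kernel)
noncomputable def p003_l257 : Lf2 := ⟨nat_lit 0, nat_lit 5, [nat_lit 4, nat_lit 5, nat_lit 5, nat_lit 20], true, nat_lit 0, nat_lit 0, nat_lit 0, nat_lit 0, ⟨nat_lit 0, nat_lit 0, nat_lit 1000, nat_lit 5, nat_lit 42, nat_lit 0, nat_lit 0, nat_lit 0, nat_lit 0, nat_lit 215, nat_lit 16017, nat_lit 246, nat_lit 66285488, nat_lit 0, nat_lit 0, nat_lit 294978, false, false⟩,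
 nat_lit 0, nat_lit 10334, nat_lit 0, nat_lit 0, nat_lit 4942, nat_lit 0, nat_lit 136, nat_lit 0, nat_lit 0, nat_lit 0, nat_lit 0, nat_lit 0, nat_lit 0, nat_lit 0, nat_lit 115, nat_lit 1000000, nat_lit 0, nat_lit 0, [(nat_lit 3, [(nat_lit 6, nat_lit 1000)])],
 ⟨p003_k7, nat_lit 0, nat_lit 0, nat_lit 303, nat_lit 0, nat_lit 19804, [nat_lit 3341142858, nat_lit 1499600000, nat_lit 23600000], [], [nat_lit 14427602108, nat_lit 14672056318, nat_lit 13414305276, nat_lit 13630710702], nat_lit 1271250, nat_lit 1271250, nat_lit 0, nat_lit 111251, nat_lit 0, nat_lit 0, [nat_lit 1412500, nat_lit 1271250, nat_lit 1271250], [nat_lit 25, nat_lit 40, nat_lit 20, nat_lit 80, nat_lit 17, nat_lit 289, nat_lit 75, nat_lit 9]⟩, C1.Rw.none,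
 ⟨nat_lit 6614, nat_lit 6709, ⟨.ofNat (nat_lit 69221), .ofNat (nat_lit 112299), .ofNat (nat_lit 90659), .ofNat (nat_lit 133737), .ofNat (nat_lit 74168), .ofNat (nat_lit 116751), .ofNat (nat_lit 95585), .ofNat (nat_lit 138168)⟩, ⟨.ofNat (nat_lit 0), .ofNat (nat_lit 0), .ofNat (nat_lit 0), .ofNat (nat_lit 0), .ofNat (nat_lit 0), .ofNat (nat_lit 0), .ofNat (nat_lit 0), .ofNat (nat_lit 0)⟩⟩, [⟨nat_lit 0, nat_lit 100, nat_lit 100, nat_lit 22, nat_lit 358314918⟩]⟩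
noncomputable def p003_l258 : Lf2 := ⟨nat_lit 0, nat_lit 5, [nat_lit 4, nat_lit 5, nat_lit 5, nat_lit 20], true, nat_lit 0, nat_lit 0, nat_lit 0, nat_lit 0, ⟨nat_lit 0, nat_lit 0, nat_lit 1000, nat_lit 5, nat_lit 43, nat_lit 0, nat_lit 0, nat_lit 0, nat_lit 0, nat_lit 215, nat_lit 18150, nat_lit 248, nat_lit 66220628, nat_lit 0, nat_lit 0, nat_lit 316718, false, false⟩,
 nat_lit 0, nat_lit 9925, nat_lit 0, nat_lit 0, nat_lit 4872, nat_lit 0, nat_lit 104, nat_lit 0, nat_lit 0, nat_lit 0, nat_lit 0, nat_lit 0, nat_lit 0, nat_lit 0, nat_lit 115, nat_lit 1000000, nat_lit 0, nat_lit 0, [(nat_lit 3, [(nat_lit 6, nat_lit 1000)])],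
 ⟨p003_k49, nat_lit 0, nat_lit 0, nat_lit 314, nat_lit 0, nat_lit 41674, [nat_lit 3341142858, nat_lit 1499600000, nat_lit 23600000], [], [nat_lit 14762506640, nat_lit 14962659108, nat_lit 13753261444, nat_lit 13965671108], nat_lit 1271250, nat_lit 1271250, nat_lit 0, nat_lit 111251, nat_lit 0, nat_lit 0, [nat_lit 1412500, nat_lit 1271250, nat_lit 1271250], [nat_lit 25, nat_lit 40, nat_lit 20, nat_lit 80, nat_lit 17, nat_lit 289, nat_lit 75, nat_lit 9]⟩, C1.Rw.none,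
 ⟨nat_lit 6519, nat_lit 6615, ⟨.ofNat (nat_lit 74168), .ofNat (nat_lit 116751), .ofNat (nat_lit 95585), .ofNat (nat_lit 138168), .ofNat (nat_lit 79059), .ofNat (nat_lit 121153), .ofNat (nat_lit 100457), .ofNat (nat_lit 142551)⟩, ⟨.ofNat (nat_lit 0), .ofNat (nat_lit 0), .ofNat (nat_lit 0), .ofNat (nat_lit 0), .ofNat (nat_lit 0), .ofNat (nat_lit 0), .ofNat (nat_lit 0), .ofNat (nat_lit 0)⟩⟩, [⟨nat_lit 0, nat_lit 100, nat_lit 99, nat_lit 25, nat_lit 354091030⟩]⟩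
noncomputable def p003_l259 : Lf2 := ⟨nat_lit 0, nat_lit 5, [nat_lit 4, nat_lit 5, nat_lit 5, nat_lit 20], true, nat_lit 0, nat_lit 0, nat_lit 0, nat_lit 0, ⟨nat_lit 0, nat_lit 0, nat_lit 1000, nat_lit 5, nat_lit 41, nat_lit 0, nat_lit 0, nat_lit 0, nat_lit 0, nat_lit 215, nat_lit 16017, nat_lit 246, nat_lit 66298252, nat_lit 0, nat_lit 0, nat_lit 290645, false, false⟩,
 nat_lit 0, nat_lit 10016, nat_lit 0, nat_lit 0, nat_lit 5044, nat_lit 0, nat_lit 307, nat_lit 0, nat_lit 0, nat_lit 0, nat_lit 0, nat_lit 0, nat_lit 0, nat_lit 0, nat_lit 115, nat_lit 1000000, nat_lit 0, nat_lit 0, [(nat_lit 3, [(nat_lit 6, nat_lit 1000)])],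
 ⟨p003_k13, nat_lit 0, nat_lit 0, nat_lit 335, nat_lit 0, nat_lit 87989, [nat_lit 3341142858, nat_lit 1499600000, nat_lit 23600000], [], [nat_lit 14539273366, nat_lit 15181472992, nat_lit 14045164275, nat_lit 14482029325], nat_lit 1271250, nat_lit 1271250, nat_lit 0, nat_lit 43600, nat_lit 0, nat_lit 0, [nat_lit 1412500, nat_lit 1271250, nat_lit 1271250], [nat_lit 25, nat_lit 40, nat_lit 20, nat_lit 80, nat_lit 17, nat_lit 289, nat_lit 75, nat_lit 9]⟩, C1.Rw.none,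
 ⟨nat_lit 6324, nat_lit 6520, ⟨.ofNat (nat_lit 79059), .ofNat (nat_lit 95896), .ofNat (nat_lit 100457), .ofNat (nat_lit 117294), .ofNat (nat_lit 88677), .ofNat (nat_lit 105130), .ofNat (nat_lit 110045), .ofNat (nat_lit 126498)⟩, ⟨.ofNat (nat_lit 0), .ofNat (nat_lit 0), .ofNat (nat_lit 0), .ofNat (nat_lit 0), .ofNat (nat_lit 0), .ofNat (nat_lit 0), .ofNat (nat_lit 0), .ofNat (nat_lit 0)⟩⟩, [⟨nat_lit 0, nat_lit 100, nat_lit 98, nat_lit 30, nat_lit 546789422⟩]⟩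
noncomputable def p003_l260 : Lf2 := ⟨nat_lit 0, nat_lit 5, [nat_lit 4, nat_lit 5, nat_lit 5, nat_lit 20], true, nat_lit 0, nat_lit 0, nat_lit 0, nat_lit 0, ⟨nat_lit 0, nat_lit 0, nat_lit 1000, nat_lit 5, nat_lit 49, nat_lit 0, nat_lit 0, nat_lit 0, nat_lit 0, nat_lit 215, nat_lit 22817, nat_lit 252, nat_lit 65990423, nat_lit 0, nat_lit 0, nat_lit 390748, false, false⟩,
 nat_lit 0, nat_lit 9686, nat_lit 0, nat_lit 0, nat_lit 4878, nat_lit 0, nat_lit 66, nat_lit 0, nat_lit 0, nat_lit 0, nat_lit 0, nat_lit 0, nat_lit 0, nat_lit 0, nat_lit 115, nat_lit 1000000, nat_lit 0, nat_lit 0, [(nat_lit 3, [(nat_lit 6, nat_lit 1000)])],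
 ⟨p003_k13, nat_lit 0, nat_lit 0, nat_lit 323, nat_lit 0, nat_lit 87989, [nat_lit 3341142858, nat_lit 1499600000, nat_lit 23600000], [], [nat_lit 14629199279, nat_lit 15012416746, nat_lit 14022449826, nat_lit 14411706142], nat_lit 1271250, nat_lit 1271250, nat_lit 43600, nat_lit 111251, nat_lit 0, nat_lit 0, [nat_lit 1412500, nat_lit 1271250, nat_lit 1271250], [nat_lit 25, nat_lit 40, nat_lit 20, nat_lit 80, nat_lit 17, nat_lit 289, nat_lit 75, nat_lit 9]⟩, C1.Rw.none,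
 ⟨nat_lit 6324, nat_lit 6520, ⟨.ofNat (nat_lit 95896), .ofNat (nat_lit 121153), .ofNat (nat_lit 117294), .ofNat (nat_lit 142551), .ofNat (nat_lit 105130), .ofNat (nat_lit 129809), .ofNat (nat_lit 126498), .ofNat (nat_lit 151177)⟩, ⟨.ofNat (nat_lit 0), .ofNat (nat_lit 0), .ofNat (nat_lit 0), .ofNat (nat_lit 0), .ofNat (nat_lit 0), .ofNat (nat_lit 0), .ofNat (nat_lit 0), .ofNat (nat_lit 0)⟩⟩, [⟨nat_lit 0, nat_lit 100, nat_lit 98, nat_lit 30, nat_lit 356142637⟩]⟩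
noncomputable def p003_l261 : Lf2 := ⟨nat_lit 0, nat_lit 5, [nat_lit 4, nat_lit 5, nat_lit 5, nat_lit 20], true, nat_lit 0, nat_lit 0, nat_lit 0, nat_lit 0, ⟨nat_lit 0, nat_lit 0, nat_lit 1000, nat_lit 5, nat_lit 61, nat_lit 0, nat_lit 0, nat_lit 0, nat_lit 0, nat_lit 215, nat_lit 35267, nat_lit 261, nat_lit 65471226, nat_lit 0, nat_lit 0, nat_lit 544011, false, false⟩,
 nat_lit 0, nat_lit 10555, nat_lit 0, nat_lit 0, nat_lit 5048, nat_lit 0, nat_lit 80, nat_lit 0, nat_lit 0, nat_lit 0, nat_lit 0, nat_lit 0, nat_lit 0, nat_lit 0, nat_lit 115, nat_lit 1000000, nat_lit 0, nat_lit 0, [(nat_lit 3, [(nat_lit 6, nat_lit 1000)])],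
 ⟨p003_k7, nat_lit 0, nat_lit 0, nat_lit 306, nat_lit 0, nat_lit 93097, [nat_lit 3341142858, nat_lit 1499600000, nat_lit 23600000], [], [nat_lit 13380660660, nat_lit 14154076532, nat_lit 12783627140, nat_lit 13576298004], nat_lit 1271250, nat_lit 1271250, nat_lit 111251, nat_lit 230001, nat_lit 0, nat_lit 0, [nat_lit 1412500, nat_lit 1271250, nat_lit 1271250], [nat_lit 25, nat_lit 40, nat_lit 20, nat_lit 80, nat_lit 17, nat_lit 289, nat_lit 75, nat_lit 9]⟩, C1.Rw.none,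
 ⟨nat_lit 6324, nat_lit 6709, ⟨.ofNat (nat_lit 112299), .ofNat (nat_lit 155377), .ofNat (nat_lit 133737), .ofNat (nat_lit 176815), .ofNat (nat_lit 129809), .ofNat (nat_lit 170942), .ofNat (nat_lit 151177), .ofNat (nat_lit 192309)⟩, ⟨.ofNat (nat_lit 0), .ofNat (nat_lit 0), .ofNat (nat_lit 0), .ofNat (nat_lit 0), .ofNat (nat_lit 0), .ofNat (nat_lit 0), .ofNat (nat_lit 0), .ofNat (nat_lit 0)⟩⟩, []⟩
noncomputable def p003_l262 : Lf2 := ⟨nat_lit 0, nat_lit 5, [nat_lit 4, nat_lit 5, nat_lit 5, nat_lit 20], true, nat_lit 0, nat_lit 0, nat_lit 0, nat_lit 0, ⟨nat_lit 0, nat_lit 0, nat_lit 1000, nat_lit 5, nat_lit 86, nat_lit 0, nat_lit 0, nat_lit 0, nat_lit 0, nat_lit 215, nat_lit 70417, nat_lit 280, nat_lit 64014299, nat_lit 0, nat_lit 0, nat_lit 910903, false, false⟩,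
 nat_lit 0, nat_lit 10659, nat_lit 0, nat_lit 0, nat_lit 5097, nat_lit 0, nat_lit 255, nat_lit 0, nat_lit 0, nat_lit 0, nat_lit 0, nat_lit 0, nat_lit 0, nat_lit 0, nat_lit 115, nat_lit 1000000, nat_lit 0, nat_lit 0, [(nat_lit 3, [(nat_lit 6, nat_lit 1000)])],
 ⟨p003_k7, nat_lit 0, nat_lit 0, nat_lit 282, nat_lit 0, nat_lit 93097, [nat_lit 3341142858, nat_lit 1499600000, nat_lit 23600000], [], [nat_lit 11762095164, nat_lit 12744762812, nat_lit 11085245614, nat_lit 12206592012], nat_lit 1271250, nat_lit 1271250, nat_lit 230001, nat_lit 490000, nat_lit 0, nat_lit 0, [nat_lit 1412500, nat_lit 1271250, nat_lit 1271250], [nat_lit 25, nat_lit 40, nat_lit 20, nat_lit 80, nat_lit 17, nat_lit 317, nat_lit 100, nat_lit 10]⟩, C1.Rw.none,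
 ⟨nat_lit 6324, nat_lit 6709, ⟨.ofNat (nat_lit 155377), .ofNat (nat_lit 241532), .ofNat (nat_lit 176815), .ofNat (nat_lit 262970), .ofNat (nat_lit 170942), .ofNat (nat_lit 253206), .ofNat (nat_lit 192309), .ofNat (nat_lit 274574)⟩, ⟨.ofNat (nat_lit 0), .ofNat (nat_lit 0), .ofNat (nat_lit 0), .ofNat (nat_lit 0), .ofNat (nat_lit 0), .ofNat (nat_lit 0), .ofNat (nat_lit 0), .ofNat (nat_lit 0)⟩⟩, []⟩
noncomputable def b_NL_550_500_0_4 : St := ⟨false, nat_lit 1, nat_lit 0, nat_lit 1, nat_lit 20, nat_lit 220, nat_lit 240, nat_lit 200, nat_lit 220, nat_lit 0, nat_lit 80, nat_lit 0, nat_lit 0, nat_lit 0, nat_lit 0, nat_lit 0, nat_lit 0, nat_lit 20, nat_lit 28, nat_lit 0, nat_lit 0, nat_lit 0, nat_lit 0⟩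
theorem d_NL_550_500_0_4 (h : EB TB.env) : Dead b_NL_550_500_0_4 := chkB_sound0 h (T :=
(.spl (nat_lit 2) (nat_lit 40)
(.spl (nat_lit 2) (nat_lit 20)
(.spl (nat_lit 0) (nat_lit 230)
(.spl (nat_lit 0) (nat_lit 225)
(.leaf p003_l257)
(.leaf p003_l258))
(.spl (nat_lit 2) (nat_lit 8)
(.leaf p003_l259)
(.leaf p003_l260)))
(.leaf p003_l261))
(.leaf p003_l262))) (by decide +kernel)

end B2
end Pool.Agent.Lib.MP_6947cd_al
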