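import Pool.Agent.Lib.MP_6947cd_al.ZB.Pre

/-!
Problem MP_6947cd_al (Chollet).  Case B, second entry in [2/5, 17/20]: certificates of the tree, part P004 (generated).
-/

set_option autoImplicit false
set_option linter.all false

namespace Pool.Agent.Lib.MP_6947cd_al
namespace B2

open Ent Fr B1 PkA

noncomputable def p004_k0 : C1.Kn := ⟨[nat_lit 100, nat_lit 120], [nat_lit 0, nat_lit 254], [(nat_lit 0, nat_lit 0, nat_lit 0), (nat_lit 1000, nat_lit 1000, nat_lit 198)], (nat_lit 100, nat_lit 99, nat_lit 28)⟩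
noncomputable def p004_k1 : C1.Kn := ⟨[nat_lit 50, nat_lit 90, nat_lit 110, nat_lit 120], [nat_lit 0, nat_lit 0, nat_lit 0, nat_lit 288], [(nat_lit 0, nat_lit 0, nat_lit 0), (nat_lit 0, nat_lit 0, nat_lit 0), (nat_lit 0, nat_lit 0, nat_lit 0), (nat_lit 987, nat_lit 1000, nat_lit 285)], (nat_lit 100, nat_lit 99, nat_lit 28)⟩
noncomputable def p004_k2 : C1.Kn := ⟨[nat_lit 60, nat_lit 100, nat_lit 120], [nat_lit 0, nat_lit 0, nat_lit 383], [(nat_lit 0, nat_lit 0, nat_lit 0), (nat_lit 0, nat_lit 0, nat_lit 0), (nat_lit 1000, nat_lit 1000, nat_lit 299)], (nat_lit 100, nat_lit 100, nat_lit 28)⟩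
noncomputable def p004_k3 : C1.Kn := ⟨[nat_lit 50, nat_lit 90, nat_lit 110, nat_lit 120], [nat_lit 0, nat_lit 0, nat_lit 129, nat_lit 392], [(nat_lit 0, nat_lit 0, nat_lit 0), (nat_lit 0, nat_lit 0, nat_lit 0), (nat_lit 1000, nat_lit 990, nat_lit 101), (nat_lit 993, nat_lit 1000, nat_lit 341)], (nat_lit 100, nat_lit 100, nat_lit 28)⟩
noncomputable def p004_k4 : C1.Kn := ⟨[nat_lit 100, nat_lit 120, nat_lit 140], [nat_lit 0, nat_lit 254, nat_lit 778], [(nat_lit 0, nat_lit 0, nat_lit 0), (nat_lit 1000, nat_lit 1000, nat_lit 198), (nat_lit 960, nat_lit 1000, nat_lit 392)], (nat_lit 100, nat_lit 94, nat_lit 44)⟩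
noncomputable def p004_k5 : C1.Kn := ⟨[nat_lit 90, nat_lit 110, nat_lit 130], [nat_lit 0, nat_lit 0, nat_lit 517], [(nat_lit 0, nat_lit 0, nat_lit 0), (nat_lit 0, nat_lit 0, nat_lit 0), (nat_lit 962, nat_lit 1000, nat_lit 387)], (nat_lit 100, nat_lit 96, nat_lit 39)⟩
noncomputable def p004_k6 : C1.Kn := ⟨[nat_lit 90, nat_lit 110, nat_lit 130], [nat_lit 0, nat_lit 61, nat_lit 579], [(nat_lit 0, nat_lit 0, nat_lit 0), (nat_lit 1000, nat_lit 995, nat_lit 48), (nat_lit 971, nat_lit 1000, nat_lit 390)], (nat_lit 100, nat_lit 97, nat_lit 40)⟩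
noncomputable def p004_k7 : C1.Kn := ⟨[nat_lit 100, nat_lit 120, nat_lit 140], [nat_lit 0, nat_lit 254, nat_lit 778], [(nat_lit 0, nat_lit 0, nat_lit 0), (nat_lit 1000, nat_lit 1000, nat_lit 198), (nat_lit 960, nat_lit 1000, nat_lit 392)], (nat_lit 100, nat_lit 96, nat_lit 39)⟩
noncomputable def p004_k8 : C1.Kn := ⟨[nat_lit 100, nat_lit 140], [nat_lit 0, nat_lit 508], [(nat_lit 0, nat_lit 0, nat_lit 0), (nat_lit 1000, nat_lit 1000, nat_lit 198)], (nat_lit 100, nat_lit 94, nat_lit 44)⟩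
noncomputable def p004_k9 : C1.Kn := ⟨[nat_lit 90, nat_lit 110, nat_lit 140], [nat_lit 0, nat_lit 0, nat_lit 774], [(nat_lit 0, nat_lit 0, nat_lit 0), (nat_lit 0, nat_lit 0, nat_lit 0), (nat_lit 962, nat_lit 1000, nat_lit 387)], (nat_lit 100, nat_lit 94, nat_lit 44)⟩
noncomputable def p004_k10 : C1.Kn := ⟨[nat_lit 90, nat_lit 110, nat_lit 130], [nat_lit 0, nat_lit 129, nat_lit 640], [(nat_lit 0, nat_lit 0, nat_lit 0), (nat_lit 1000, nat_lit 990, nat_lit 101), (nat_lit 981, nat_lit 1000, nat_lit 391)], (nat_lit 100, nat_lit 97, nat_lit 44)⟩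
noncomputable def p004_k11 : C1.Kn := ⟨[nat_lit 100, nat_lit 120], [nat_lit 0, nat_lit 383], [(nat_lit 0, nat_lit 0, nat_lit 0), (nat_lit 1000, nat_lit 1000, nat_lit 299)], (nat_lit 100, nat_lit 99, nat_lit 35)⟩
noncomputable def p004_k12 : C1.Kn := ⟨[nat_lit 90, nat_lit 100, nat_lit 120], [nat_lit 0, nat_lit 64, nat_lit 318], [(nat_lit 0, nat_lit 0, nat_lit 0), (nat_lit 1000, nat_lit 990, nat_lit 101), (nat_lit 1000, nat_lit 990, nat_lit 198)], (nat_lit 100, nat_lit 99, nat_lit 35)⟩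
noncomputable def p004_k13 : C1.Kn := ⟨[nat_lit 90, nat_lit 100, nat_lit 120], [nat_lit 0, nat_lit 96, nat_lit 354], [(nat_lit 0, nat_lit 0, nat_lit 0), (nat_lit 1000, nat_lit 985, nat_lit 147), (nat_lit 1000, nat_lit 985, nat_lit 202)], (nat_lit 100, nat_lit 100, nat_lit 35)⟩
noncomputable def p004_k14 : C1.Kn := ⟨[nat_lit 100, nat_lit 140], [nat_lit 0, nat_lit 256], [(nat_lit 0, nat_lit 0, nat_lit 0), (nat_lit 1000, nat_lit 1000, nat_lit 100)], (nat_lit 100, nat_lit 96, nat_lit 34)⟩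
noncomputable def p004_k15 : C1.Kn := ⟨[nat_lit 100, nat_lit 120], [nat_lit 0, nat_lit 448], [(nat_lit 0, nat_lit 0, nat_lit 0), (nat_lit 1000, nat_lit 1000, nat_lit 350)], (nat_lit 100, nat_lit 100, nat_lit 35)⟩
noncomputable def p004_k16 : C1.Kn := ⟨[nat_lit 100, nat_lit 120], [nat_lit 0, nat_lit 486], [(nat_lit 0, nat_lit 0, nat_lit 0), (nat_lit 1000, nat_lit 999, nat_lit 375)], (nat_lit 99, nat_lit 100, nat_lit 35)⟩
noncomputable def p004_k17 : C1.Kn := ⟨[nat_lit 90, nat_lit 110, nat_lit 130], [nat_lit 0, nat_lit 129, nat_lit 640], [(nat_lit 0, nat_lit 0, nat_lit 0), (nat_lit 1000, nat_lit 990, nat_lit 101), (nat_lit 981, nat_lit 1000, nat_lit 391)], (nat_lit 100, nat_lit 98, nat_lit 40)⟩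
noncomputable def p004_k18 : C1.Kn := ⟨[nat_lit 100, nat_lit 120, nat_lit 140], [nat_lit 0, nat_lit 383, nat_lit 902], [(nat_lit 0, nat_lit 0, nat_lit 0), (nat_lit 1000, nat_lit 1000, nat_lit 299), (nat_lit 979, nat_lit 1000, nat_lit 397)], (nat_lit 100, nat_lit 97, nat_lit 44)⟩
noncomputable def p004_k19 : C1.Kn := ⟨[nat_lit 100, nat_lit 120, nat_lit 160], [nat_lit 0, nat_lit 0, nat_lit 1063], [(nat_lit 0, nat_lit 0, nat_lit 0), (nat_lit 0, nat_lit 0, nat_lit 0), (nat_lit 924, nat_lit 1000, nat_lit 383)], (nat_lit 100, nat_lit 90, nat_lit 44)⟩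
noncomputable def p004_k20 : C1.Kn := ⟨[nat_lit 100, nat_lit 120, nat_lit 140], [nat_lit 0, nat_lit 320, nat_lit 839], [(nat_lit 0, nat_lit 0, nat_lit 0), (nat_lit 1000, nat_lit 1000, nat_lit 250), (nat_lit 970, nat_lit 1000, nat_lit 393)], (nat_lit 100, nat_lit 95, nat_lit 44)⟩
noncomputable def p004_k21 : C1.Kn := ⟨[nat_lit 50, nat_lit 90, nat_lit 110, nat_lit 140], [nat_lit 0, nat_lit 0, nat_lit 0, nat_lit 774], [(nat_lit 0, nat_lit 0, nat_lit 0), (nat_lit 0, nat_lit 0, nat_lit 0), (nat_lit 0, nat_lit 0, nat_lit 0), (nat_lit 962, nat_lit 1000, nat_lit 387)], (nat_lit 100, nat_lit 94, nat_lit 44)⟩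
noncomputable def p004_k22 : C1.Kn := ⟨[nat_lit 100, nat_lit 120, nat_lit 140], [nat_lit 0, nat_lit 345, nat_lit 863], [(nat_lit 0, nat_lit 0, nat_lit 0), (nat_lit 1000, nat_lit 1000, nat_lit 270), (nat_lit 974, nat_lit 1000, nat_lit 394)], (nat_lit 100, nat_lit 96, nat_lit 44)⟩
noncomputable def p004_k23 : C1.Kn := ⟨[nat_lit 100, nat_lit 120, nat_lit 140], [nat_lit 0, nat_lit 358, nat_lit 874], [(nat_lit 0, nat_lit 0, nat_lit 0), (nat_lit 1000, nat_lit 1000, nat_lit 279), (nat_lit 976, nat_lit 1000, nat_lit 393)], (nat_lit 100, nat_lit 96, nat_lit 44)⟩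
noncomputable def p004_k24 : C1.Kn := ⟨[nat_lit 90, nat_lit 110, nat_lit 140], [nat_lit 0, nat_lit 102, nat_lit 871], [(nat_lit 0, nat_lit 0, nat_lit 0), (nat_lit 1000, nat_lit 992, nat_lit 80), (nat_lit 977, nat_lit 1000, nat_lit 390)], (nat_lit 100, nat_lit 96, nat_lit 44)⟩
noncomputable def p004_k25 : C1.Kn := ⟨[nat_lit 100, nat_lit 140], [nat_lit 0, nat_lit 715], [(nat_lit 0, nat_lit 0, nat_lit 0), (nat_lit 1000, nat_lit 1000, nat_lit 279)], (nat_lit 100, nat_lit 96, nat_lit 44)⟩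
noncomputable def p004_k26 : C1.Kn := ⟨[nat_lit 90, nat_lit 110, nat_lit 140], [nat_lit 0, nat_lit 114, nat_lit 885], [(nat_lit 0, nat_lit 0, nat_lit 0), (nat_lit 1000, nat_lit 991, nat_lit 89), (nat_lit 979, nat_lit 1000, nat_lit 392)], (nat_lit 100, nat_lit 96, nat_lit 44)⟩
noncomputable def p004_k27 : C1.Kn := ⟨[nat_lit 100, nat_lit 120, nat_lit 140], [nat_lit 0, nat_lit 370, nat_lit 890], [(nat_lit 0, nat_lit 0, nat_lit 0), (nat_lit 1000, nat_lit 1000, nat_lit 289), (nat_lit 977, nat_lit 1000, nat_lit 397)], (nat_lit 100, nat_lit 96, nat_lit 44)⟩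
noncomputable def p004_k28 : C1.Kn := ⟨[nat_lit 100, nat_lit 140], [nat_lit 0, nat_lit 740], [(nat_lit 0, nat_lit 0, nat_lit 0), (nat_lit 1000, nat_lit 1000, nat_lit 289)], (nat_lit 100, nat_lit 96, nat_lit 44)⟩
noncomputable def p004_k29 : C1.Kn := ⟨[nat_lit 90, nat_lit 110, nat_lit 130], [nat_lit 0, nat_lit 141, nat_lit 653], [(nat_lit 0, nat_lit 0, nat_lit 0), (nat_lit 1000, nat_lit 989, nat_lit 110), (nat_lit 983, nat_lit 1000, nat_lit 393)], (nat_lit 100, nat_lit 97, nat_lit 44)⟩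
noncomputable def p004_k30 : C1.Kn := ⟨[nat_lit 100, nat_lit 120, nat_lit 140], [nat_lit 0, nat_lit 396, nat_lit 915], [(nat_lit 0, nat_lit 0, nat_lit 0), (nat_lit 1000, nat_lit 1000, nat_lit 309), (nat_lit 981, nat_lit 1000, nat_lit 398)], (nat_lit 100, nat_lit 97, nat_lit 44)⟩
noncomputable def p004_k31 : C1.Kn := ⟨[nat_lit 100, nat_lit 120, nat_lit 140], [nat_lit 0, nat_lit 409, nat_lit 927], [(nat_lit 0, nat_lit 0, nat_lit 0), (nat_lit 1000, nat_lit 1000, nat_lit 319), (nat_lit 983, nat_lit 1000, nat_lit 398)], (nat_lit 100, nat_lit 97, nat_lit 44)⟩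
noncomputable def p004_k32 : C1.Kn := ⟨[nat_lit 90, nat_lit 110, nat_lit 130], [nat_lit 0, nat_lit 153, nat_lit 666], [(nat_lit 0, nat_lit 0, nat_lit 0), (nat_lit 1000, nat_lit 988, nat_lit 119), (nat_lit 984, nat_lit 1000, nat_lit 395)], (nat_lit 100, nat_lit 97, nat_lit 44)⟩
noncomputable def p004_k33 : C1.Kn := ⟨[nat_lit 100, nat_lit 120, nat_lit 140], [nat_lit 0, nat_lit 422, nat_lit 937], [(nat_lit 0, nat_lit 0, nat_lit 0), (nat_lit 1000, nat_lit 1000, nat_lit 329), (nat_lit 986, nat_lit 1000, nat_lit 397)], (nat_lit 100, nat_lit 97, nat_lit 44)⟩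
noncomputable def p004_k34 : C1.Kn := ⟨[nat_lit 100, nat_lit 120, nat_lit 140], [nat_lit 0, nat_lit 448, nat_lit 962], [(nat_lit 0, nat_lit 0, nat_lit 0), (nat_lit 1000, nat_lit 1000, nat_lit 350), (nat_lit 990, nat_lit 1000, nat_lit 398)], (nat_lit 100, nat_lit 98, nat_lit 44)⟩
noncomputable def p004_k35 : C1.Kn := ⟨[nat_lit 100, nat_lit 140], [nat_lit 0, nat_lit 766], [(nat_lit 0, nat_lit 0, nat_lit 0), (nat_lit 1000, nat_lit 1000, nat_lit 299)], (nat_lit 100, nat_lit 97, nat_lit 44)⟩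
noncomputable def p004_k36 : C1.Kn := ⟨[nat_lit 100, nat_lit 140], [nat_lit 0, nat_lit 792], [(nat_lit 0, nat_lit 0, nat_lit 0), (nat_lit 1000, nat_lit 1000, nat_lit 309)], (nat_lit 100, nat_lit 97, nat_lit 44)⟩
noncomputable def p004_k37 : C1.Kn := ⟨[nat_lit 100, nat_lit 140], [nat_lit 0, nat_lit 817], [(nat_lit 0, nat_lit 0, nat_lit 0), (nat_lit 1000, nat_lit 1000, nat_lit 319)], (nat_lit 100, nat_lit 97, nat_lit 44)⟩
noncomputable def p004_k38 : C1.Kn := ⟨[nat_lit 90, nat_lit 110, nat_lit 130], [nat_lit 0, nat_lit 192, nat_lit 703], [(nat_lit 0, nat_lit 0, nat_lit 0), (nat_lit 1000, nat_lit 985, nat_lit 150), (nat_lit 990, nat_lit 1000, nat_lit 395)], (nat_lit 100, nat_lit 98, nat_lit 44)⟩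
noncomputable def p004_k39 : C1.Kn := ⟨[nat_lit 100, nat_lit 140], [nat_lit 0, nat_lit 896], [(nat_lit 0, nat_lit 0, nat_lit 0), (nat_lit 1000, nat_lit 1000, nat_lit 350)], (nat_lit 100, nat_lit 98, nat_lit 44)⟩
noncomputable def p004_k40 : C1.Kn := ⟨[nat_lit 100, nat_lit 120, nat_lit 140], [nat_lit 0, nat_lit 460, nat_lit 979], [(nat_lit 0, nat_lit 0, nat_lit 0), (nat_lit 1000, nat_lit 999, nat_lit 357), (nat_lit 991, nat_lit 1000, nat_lit 402)], (nat_lit 100, nat_lit 98, nat_lit 44)⟩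
noncomputable def p004_k41 : C1.Kn := ⟨[nat_lit 90, nat_lit 110, nat_lit 130], [nat_lit 0, nat_lit 205, nat_lit 715], [(nat_lit 0, nat_lit 0, nat_lit 0), (nat_lit 1000, nat_lit 984, nat_lit 160), (nat_lit 993, nat_lit 1000, nat_lit 394)], (nat_lit 100, nat_lit 98, nat_lit 44)⟩
noncomputable def p004_k42 : C1.Kn := ⟨[nat_lit 100, nat_lit 140], [nat_lit 0, nat_lit 921], [(nat_lit 0, nat_lit 0, nat_lit 0), (nat_lit 1000, nat_lit 1000, nat_lit 360)], (nat_lit 100, nat_lit 98, nat_lit 44)⟩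
noncomputable def p004_k43 : C1.Kn := ⟨[nat_lit 100, nat_lit 120, nat_lit 140], [nat_lit 0, nat_lit 473, nat_lit 991], [(nat_lit 0, nat_lit 0, nat_lit 0), (nat_lit 1000, nat_lit 999, nat_lit 367), (nat_lit 993, nat_lit 1000, nat_lit 402)], (nat_lit 100, nat_lit 98, nat_lit 44)⟩
noncomputable def p004_k44 : C1.Kn := ⟨[nat_lit 90, nat_lit 110, nat_lit 130], [nat_lit 0, nat_lit 217, nat_lit 728], [(nat_lit 0, nat_lit 0, nat_lit 0), (nat_lit 1000, nat_lit 983, nat_lit 169), (nat_lit 994, nat_lit 1000, nat_lit 396)], (nat_lit 100, nat_lit 98, nat_lit 44)⟩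
noncomputable def p004_k45 : C1.Kn := ⟨[nat_lit 100, nat_lit 140], [nat_lit 0, nat_lit 947], [(nat_lit 0, nat_lit 0, nat_lit 0), (nat_lit 1000, nat_lit 1000, nat_lit 370)], (nat_lit 100, nat_lit 98, nat_lit 44)⟩
noncomputable def p004_k46 : C1.Kn := ⟨[nat_lit 100, nat_lit 120, nat_lit 140], [nat_lit 0, nat_lit 486, nat_lit 1002], [(nat_lit 0, nat_lit 0, nat_lit 0), (nat_lit 1000, nat_lit 999, nat_lit 375), (nat_lit 995, nat_lit 1000, nat_lit 401)], (nat_lit 100, nat_lit 98, nat_lit 44)⟩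
noncomputable def p004_k47 : C1.Kn := ⟨[nat_lit 100, nat_lit 120, nat_lit 140], [nat_lit 0, nat_lit 499, nat_lit 1016], [(nat_lit 0, nat_lit 0, nat_lit 0), (nat_lit 1000, nat_lit 1000, nat_lit 388), (nat_lit 997, nat_lit 1000, nat_lit 403)], (nat_lit 100, nat_lit 99, nat_lit 44)⟩
noncomputable def p004_k48 : C1.Kn := ⟨[nat_lit 90, nat_lit 110, nat_lit 130], [nat_lit 0, nat_lit 230, nat_lit 742], [(nat_lit 0, nat_lit 0, nat_lit 0), (nat_lit 1000, nat_lit 982, nat_lit 179), (nat_lit 996, nat_lit 1000, nat_lit 398)], (nat_lit 100, nat_lit 98, nat_lit 44)⟩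
noncomputable def p004_k49 : C1.Kn := ⟨[nat_lit 100, nat_lit 140], [nat_lit 0, nat_lit 970], [(nat_lit 0, nat_lit 0, nat_lit 0), (nat_lit 1000, nat_lit 1000, nat_lit 378)], (nat_lit 100, nat_lit 98, nat_lit 44)⟩
noncomputable def p004_k50 : C1.Kn := ⟨[nat_lit 90, nat_lit 110, nat_lit 130], [nat_lit 0, nat_lit 245, nat_lit 751], [(nat_lit 0, nat_lit 0, nat_lit 0), (nat_lit 1000, nat_lit 981, nat_lit 191), (nat_lit 999, nat_lit 1000, nat_lit 394)], (nat_lit 100, nat_lit 99, nat_lit 44)⟩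
noncomputable def p004_k51 : C1.Kn := ⟨[nat_lit 100, nat_lit 140], [nat_lit 0, nat_lit 995], [(nat_lit 0, nat_lit 0, nat_lit 0), (nat_lit 1000, nat_lit 1000, nat_lit 388)], (nat_lit 100, nat_lit 99, nat_lit 44)⟩
noncomputable def p004_k52 : C1.Kn := ⟨[nat_lit 100, nat_lit 120], [nat_lit 0, nat_lit 254], [(nat_lit 0, nat_lit 0, nat_lit 0), (nat_lit 1000, nat_lit 1000, nat_lit 198)], (nat_lit 100, nat_lit 100, nat_lit 20)⟩
noncomputable def p004_k53 : C1.Kn := ⟨[nat_lit 90, nat_lit 100, nat_lit 110], [nat_lit 0, nat_lit 0, nat_lit 127], [(nat_lit 0, nat_lit 0, nat_lit 0), (nat_lit 0, nat_lit 0, nat_lit 0), (nat_lit 1000, nat_lit 999, nat_lit 184)], (nat_lit 100, nat_lit 100, nat_lit 20)⟩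
noncomputable def p004_k54 : C1.Kn := ⟨[nat_lit 60, nat_lit 100, nat_lit 120], [nat_lit 0, nat_lit 0, nat_lit 254], [(nat_lit 0, nat_lit 0, nat_lit 0), (nat_lit 0, nat_lit 0, nat_lit 0), (nat_lit 1000, nat_lit 1000, nat_lit 198)], (nat_lit 100, nat_lit 100, nat_lit 20)⟩
noncomputable def p004_k55 : C1.Kn := ⟨[nat_lit 100, nat_lit 120], [nat_lit 0, nat_lit 268], [(nat_lit 0, nat_lit 0, nat_lit 0), (nat_lit 1000, nat_lit 1000, nat_lit 210)], (nat_lit 100, nat_lit 100, nat_lit 20)⟩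
noncomputable def p004_k56 : C1.Kn := ⟨[nat_lit 60, nat_lit 100, nat_lit 120], [nat_lit 0, nat_lit 0, nat_lit 268], [(nat_lit 0, nat_lit 0, nat_lit 0), (nat_lit 0, nat_lit 0, nat_lit 0), (nat_lit 1000, nat_lit 1000, nat_lit 210)], (nat_lit 100, nat_lit 100, nat_lit 20)⟩
noncomputable def p004_k57 : C1.Kn := ⟨[nat_lit 50, nat_lit 90, nat_lit 110], [nat_lit 0, nat_lit 0, nat_lit 10], [(nat_lit 0, nat_lit 0, nat_lit 0), (nat_lit 0, nat_lit 0, nat_lit 0), (nat_lit 1000, nat_lit 999, nat_lit 8)], (nat_lit 100, nat_lit 100, nat_lit 20)⟩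
noncomputable def p004_l0 : Lf2 := ⟨nat_lit 0, nat_lit 2, [nat_lit 10, nat_lit 5, nat_lit 5, nat_lit 20], true, nat_lit 0, nat_lit 0, nat_lit 0, nat_lit 0, ⟨nat_lit 0, nat_lit 0, nat_lit 1000, nat_lit 5, nat_lit 70, nat_lit 0, nat_lit 0, nat_lit 0, nat_lit 0, nat_lit 215, nat_lit 45067, nat_lit 267, nat_lit 65034181, nat_lit 0, nat_lit 0, nat_lit 662186, false, false⟩,
 nat_lit 0, nat_lit 0, nat_lit 0, nat_lit 0, nat_lit 0, nat_lit 0, nat_lit 0, nat_lit 0, nat_lit 293, nat_lit 0, nat_lit 0, nat_lit 0, nat_lit 0, nat_lit 0, nat_lit 53, nat_lit 1000000, nat_lit 0, nat_lit 0, [(nat_lit 3, [(nat_lit 6, nat_lit 1000)])],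
 ⟨p004_k0, nat_lit 0, nat_lit 0, nat_lit 0, nat_lit 0, nat_lit 288245, [nat_lit 2101142858, nat_lit 11600000], [], [nat_lit 5417864858, nat_lit 6176726858, nat_lit 6831778858, nat_lit 7567298858], nat_lit 1271250, nat_lit 1271250, nat_lit 0, nat_lit 490000, nat_lit 0, nat_lit 0, [nat_lit 1412500, nat_lit 1271250], [nat_lit 26, nat_lit 40, nat_lit 20, nat_lit 80]⟩, C1.Rw.none,
 ⟨nat_lit 6324, nat_lit 6709, ⟨.ofNat (nat_lit 69221), .ofNat (nat_lit 241532), .ofNat (nat_lit 90659), .ofNat (nat_lit 262970), .ofNat (nat_lit 88677), .ofNat (nat_lit 253206), .ofNat (nat_lit 110045), .ofNat (nat_lit 274574)⟩, ⟨.ofNat (nat_lit 0), .ofNat (nat_lit 0), .ofNat (nat_lit 0), .ofNat (nat_lit 0), .ofNat (nat_lit 0), .ofNat (nat_lit 0), .ofNat (nat_lit 0), .ofNat (nat_lit 0)⟩⟩, [⟨nat_lit 0, nat_lit 100, nat_lit 99, nat_lit 20, nat_lit 26298934⟩]⟩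
noncomputable def p004_l1 : Lf2 := ⟨nat_lit 0, nat_lit 2, [nat_lit 10, nat_lit 5, nat_lit 5, nat_lit 20], true, nat_lit 0, nat_lit 0, nat_lit 0, nat_lit 0, ⟨nat_lit 0, nat_lit 0, nat_lit 1000, nat_lit 5, nat_lit 68, nat_lit 0, nat_lit 0, nat_lit 0, nat_lit 0, nat_lit 215, nat_lit 43350, nat_lit 266, nat_lit 65117641, nat_lit 0, nat_lit 0, nat_lit 640253, false, false⟩,
 nat_lit 0, nat_lit 5684, nat_lit 0, nat_lit 0, nat_lit 2718, nat_lit 0, nat_lit 122, nat_lit 0, nat_lit 8, nat_lit 0, nat_lit 0, nat_lit 0, nat_lit 0, nat_lit 0, nat_lit 53, nat_lit 1000000, nat_lit 0, nat_lit 0, [(nat_lit 3, [(nat_lit 6, nat_lit 1000)])],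
 ⟨p004_k1, nat_lit 0, nat_lit 0, nat_lit 0, nat_lit 0, nat_lit 242918, [nat_lit 1122533334, nat_lit 1819066667, nat_lit 716000001, nat_lit 11600000], [], [nat_lit 13630134804, nat_lit 14079076990, nat_lit 15122647716, nat_lit 14409542364], nat_lit 1271250, nat_lit 1271250, nat_lit 0, nat_lit 490000, nat_lit 0, nat_lit 0, [nat_lit 631250, nat_lit 1271250, nat_lit 1271250, nat_lit 1271250], [nat_lit 139, nat_lit 40, nat_lit 20, nat_lit 40]⟩, C1.Rw.none,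
 ⟨nat_lit 6519, nat_lit 6709, ⟨.ofNat (nat_lit 69221), .ofNat (nat_lit 241532), .ofNat (nat_lit 90659), .ofNat (nat_lit 262970), .ofNat (nat_lit 79059), .ofNat (nat_lit 247435), .ofNat (nat_lit 100457), .ofNat (nat_lit 268833)⟩, ⟨.ofNat (nat_lit 0), .ofNat (nat_lit 0), .ofNat (nat_lit 0), .ofNat (nat_lit 0), .ofNat (nat_lit 0), .ofNat (nat_lit 0), .ofNat (nat_lit 0), .ofNat (nat_lit 0)⟩⟩, [⟨nat_lit 0, nat_lit 100, nat_lit 99, nat_lit 17, nat_lit 20099998⟩]⟩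
noncomputable def p004_l2 : Lf2 := ⟨nat_lit 0, nat_lit 2, [nat_lit 10, nat_lit 5, nat_lit 5, nat_lit 20], true, nat_lit 0, nat_lit 0, nat_lit 0, nat_lit 0, ⟨nat_lit 0, nat_lit 0, nat_lit 1000, nat_lit 5, nat_lit 71, nat_lit 0, nat_lit 0, nat_lit 0, nat_lit 0, nat_lit 215, nat_lit 46817, nat_lit 268, nat_lit 64947165, nat_lit 0, nat_lit 0, nat_lit 684764, false, false⟩,
 nat_lit 0, nat_lit 7502, nat_lit 0, nat_lit 0, nat_lit 3778, nat_lit 0, nat_lit 319, nat_lit 0, nat_lit 0, nat_lit 0, nat_lit 0, nat_lit 0, nat_lit 0, nat_lit 0, nat_lit 53, nat_lit 1000000, nat_lit 0, nat_lit 0, [(nat_lit 3, [(nat_lit 6, nat_lit 1000)])],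
 ⟨p004_k2, nat_lit 0, nat_lit 0, nat_lit 0, nat_lit 0, nat_lit 273310, [nat_lit 1559200001, nat_lit 1418400001, nat_lit 13599999], [], [nat_lit 13721891277, nat_lit 14172940978, nat_lit 15245486941, nat_lit 14276320379], nat_lit 1271250, nat_lit 1271250, nat_lit 0, nat_lit 490000, nat_lit 0, nat_lit 0, [nat_lit 780000, nat_lit 1435000, nat_lit 1271250], [nat_lit 18, nat_lit 40, nat_lit 20, nat_lit 80]⟩, C1.Rw.none,
 ⟨nat_lit 6324, nat_lit 6520, ⟨.ofNat (nat_lit 79059), .ofNat (nat_lit 247435), .ofNat (nat_lit 100457), .ofNat (nat_lit 268833), .ofNat (nat_lit 88677), .ofNat (nat_lit 253206), .ofNat (nat_lit 110045), .ofNat (nat_lit 274574)⟩, ⟨.ofNat (nat_lit 0), .ofNat (nat_lit 0), .ofNat (nat_lit 0), .ofNat (nat_lit 0), .ofNat (nat_lit 0), .ofNat (nat_lit 0), .ofNat (nat_lit 0), .ofNat (nat_lit 0)⟩⟩, [⟨nat_lit 0, nat_lit 100, nat_lit 98, nat_lit 30, nat_lit 15033010⟩]⟩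
noncomputable def p004_l3 : Lf2 := ⟨nat_lit 0, nat_lit 2, [nat_lit 10, nat_lit 5, nat_lit 5, nat_lit 20], true, nat_lit 0, nat_lit 0, nat_lit 0, nat_lit 0, ⟨nat_lit 0, nat_lit 0, nat_lit 1000, nat_lit 5, nat_lit 68, nat_lit 0, nat_lit 0, nat_lit 0, nat_lit 0, nat_lit 215, nat_lit 43350, nat_lit 266, nat_lit 65117641, nat_lit 0, nat_lit 0, nat_lit 640253, false, false⟩,
 nat_lit 0, nat_lit 5884, nat_lit 0, nat_lit 0, nat_lit 2813, nat_lit 0, nat_lit 151, nat_lit 0, nat_lit 0, nat_lit 0, nat_lit 0, nat_lit 0, nat_lit 0, nat_lit 0, nat_lit 53, nat_lit 1000000, nat_lit 0, nat_lit 0, [(nat_lit 3, [(nat_lit 6, nat_lit 1000)])],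
 ⟨p004_k1, nat_lit 0, nat_lit 0, nat_lit 0, nat_lit 0, nat_lit 242918, [nat_lit 1122533334, nat_lit 1819066667, nat_lit 716000001, nat_lit 11600000], [], [nat_lit 13930239274, nat_lit 14385122260, nat_lit 15328049136, nat_lit 14590019204], nat_lit 1271250, nat_lit 1271250, nat_lit 0, nat_lit 490000, nat_lit 0, nat_lit 0, [nat_lit 631250, nat_lit 1271250, nat_lit 1271250, nat_lit 1271250], [nat_lit 139, nat_lit 40, nat_lit 20, nat_lit 40]⟩, C1.Rw.none,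
 ⟨nat_lit 6519, nat_lit 6709, ⟨.ofNat (nat_lit 69221), .ofNat (nat_lit 241532), .ofNat (nat_lit 90659), .ofNat (nat_lit 262970), .ofNat (nat_lit 79059), .ofNat (nat_lit 247435), .ofNat (nat_lit 100457), .ofNat (nat_lit 268833)⟩, ⟨.ofNat (nat_lit 0), .ofNat (nat_lit 0), .ofNat (nat_lit 0), .ofNat (nat_lit 0), .ofNat (nat_lit 0), .ofNat (nat_lit 0), .ofNat (nat_lit 0), .ofNat (nat_lit 0)⟩⟩, [⟨nat_lit 0, nat_lit 100, nat_lit 99, nat_lit 17, nat_lit 26180978⟩]⟩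
noncomputable def p004_l4 : Lf2 := ⟨nat_lit 0, nat_lit 2, [nat_lit 10, nat_lit 5, nat_lit 5, nat_lit 20], true, nat_lit 0, nat_lit 0, nat_lit 0, nat_lit 0, ⟨nat_lit 0, nat_lit 0, nat_lit 1000, nat_lit 5, nat_lit 71, nat_lit 0, nat_lit 0, nat_lit 0, nat_lit 0, nat_lit 215, nat_lit 46817, nat_lit 268, nat_lit 64947165, nat_lit 0, nat_lit 0, nat_lit 684764, false, false⟩,
 nat_lit 0, nat_lit 10096, nat_lit 0, nat_lit 0, nat_lit 5084, nat_lit 0, nat_lit 1195, nat_lit 202, nat_lit 0, nat_lit 0, nat_lit 0, nat_lit 0, nat_lit 0, nat_lit 0, nat_lit 0, nat_lit 1000000, nat_lit 0, nat_lit 0, [(nat_lit 3, [(nat_lit 6, nat_lit 1000)])],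
 ⟨p004_k3, nat_lit 0, nat_lit 0, nat_lit 0, nat_lit 0, nat_lit 273310, [nat_lit 2612533334, nat_lit 4501066667, nat_lit 3994000001, nat_lit 3587600000], [], [nat_lit 21249332646, nat_lit 21776892122, nat_lit 19399228716, nat_lit 19673215050], nat_lit 1271250, nat_lit 1271250, nat_lit 0, nat_lit 490000, nat_lit 0, nat_lit 0, [nat_lit 631250, nat_lit 1271250, nat_lit 1271250, nat_lit 1271250], [nat_lit 139, nat_lit 40, nat_lit 20, nat_lit 40]⟩, C1.Rw.none,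
 ⟨nat_lit 6324, nat_lit 6520, ⟨.ofNat (nat_lit 79059), .ofNat (nat_lit 247435), .ofNat (nat_lit 100457), .ofNat (nat_lit 268833), .ofNat (nat_lit 88677), .ofNat (nat_lit 253206), .ofNat (nat_lit 110045), .ofNat (nat_lit 274574)⟩, ⟨.ofNat (nat_lit 0), .ofNat (nat_lit 0), .ofNat (nat_lit 0), .ofNat (nat_lit 0), .ofNat (nat_lit 0), .ofNat (nat_lit 0), .ofNat (nat_lit 0), .ofNat (nat_lit 0)⟩⟩, [⟨nat_lit 0, nat_lit 100, nat_lit 98, nat_lit 30, nat_lit 240988106⟩]⟩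
noncomputable def p004_l5 : Lf2 := ⟨nat_lit 0, nat_lit 2, [nat_lit 10, nat_lit 5, nat_lit 5, nat_lit 20], true, nat_lit 0, nat_lit 0, nat_lit 0, nat_lit 0, ⟨nat_lit 0, nat_lit 0, nat_lit 1000, nat_lit 5, nat_lit 70, nat_lit 0, nat_lit 0, nat_lit 0, nat_lit 0, nat_lit 215, nat_lit 45067, nat_lit 267, nat_lit 65034181, nat_lit 0, nat_lit 0, nat_lit 662186, false, false⟩,
 nat_lit 0, nat_lit 100000, nat_lit 0, nat_lit 0, nat_lit 47826, nat_lit 0, nat_lit 10043, nat_lit 2110, nat_lit 0, nat_lit 0, nat_lit 0, nat_lit 0, nat_lit 0, nat_lit 0, nat_lit 0, nat_lit 1000000, nat_lit 0, nat_lit 0, [(nat_lit 3, [(nat_lit 6, nat_lit 1000)])],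
 ⟨p004_k0, nat_lit 0, nat_lit 0, nat_lit 330, nat_lit 0, nat_lit 288245, [nat_lit 43241142858, nat_lit 49379600000], [], [nat_lit 103291786074, nat_lit 89008782916, nat_lit 102264000202, nat_lit 78432973966], nat_lit 1271250, nat_lit 1271250, nat_lit 0, nat_lit 490000, nat_lit 0, nat_lit 0, [nat_lit 1412500, nat_lit 1271250], [nat_lit 26, nat_lit 40, nat_lit 20, nat_lit 80, nat_lit 2, nat_lit 317, nat_lit 100, nat_lit 11]⟩, C1.Rw.none,
 ⟨nat_lit 6324, nat_lit 6709, ⟨.ofNat (nat_lit 69221), .ofNat (nat_lit 241532), .ofNat (nat_lit 90659), .ofNat (nat_lit 262970), .ofNat (nat_lit 88677), .ofNat (nat_lit 253206), .ofNat (nat_lit 110045), .ofNat (nat_lit 274574)⟩, ⟨.ofNat (nat_lit 0), .ofNat (nat_lit 0), .ofNat (nat_lit 0), .ofNat (nat_lit 0), .ofNat (nat_lit 0), .ofNat (nat_lit 0), .ofNat (nat_lit 0), .ofNat (nat_lit 0)⟩⟩, [⟨nat_lit 0, nat_lit 100, nat_lit 99, nat_lit 20, nat_lit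 180578057⟩]⟩
noncomputable def p004_l6 : Lf2 := ⟨nat_lit 0, nat_lit 5, [nat_lit 4, nat_lit 5, nat_lit 5, nat_lit 20], true, nat_lit 0, nat_lit 0, nat_lit 0, nat_lit 0, ⟨nat_lit 0, nat_lit 0, nat_lit 1000, nat_lit 5, nat_lit 70, nat_lit 0, nat_lit 0, nat_lit 0, nat_lit 0, nat_lit 215, nat_lit 45067, nat_lit 267, nat_lit 65034181, nat_lit 0, nat_lit 0, nat_lit 662186, false, false⟩,
 nat_lit 0, nat_lit 2820, nat_lit 0, nat_lit 0, nat_lit 1348, nat_lit 0, nat_lit 0, nat_lit 0, nat_lit 244, nat_lit 0, nat_lit 0, nat_lit 0, nat_lit 0, nat_lit 0, nat_lit 60, nat_lit 400000, nat_lit 0, nat_lit 0, [(nat_lit 3, [(nat_lit 5, nat_lit 1000)])],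
 ⟨p004_k4, nat_lit 0, nat_lit 0, nat_lit 0, nat_lit 0, nat_lit 208711, [nat_lit 2770400000, nat_lit 702400001, nat_lit 2000000], [], [nat_lit 7467188056, nat_lit 8563533664, nat_lit 7850831128, nat_lit 8640606464], nat_lit 1271250, nat_lit 1271250, nat_lit 0, nat_lit 490000, nat_lit 0, nat_lit 0, [nat_lit 1412500, nat_lit 1271250, nat_lit 1271250], [nat_lit 25, nat_lit 40, nat_lit 20, nat_lit 80]⟩, C1.Rw.none,
 ⟨nat_lit 6324, nat_lit 6709, ⟨.ofNat (nat_lit 69221), .ofNat (nat_lit 241532), .ofNat (nat_lit 90659), .ofNat (nat_lit 262970), .ofNat (nat_lit 88677), .ofNat (nat_lit 253206), .ofNat (nat_lit 110045), .ofNat (nat_lit 274574)⟩, ⟨.ofNat (nat_lit 0), .ofNat (nat_lit 0), .ofNat (nat_lit 0), .ofNat (nat_lit 0), .ofNat (nat_lit 0), .ofNat (nat_lit 0), .ofNat (nat_lit 0), .ofNat (nat_lit 0)⟩⟩, [⟨nat_lit 0, nat_lit 100, nat_lit 99, nat_lit 20, nat_lit 91498860⟩]⟩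
noncomputable def p004_l7 : Lf2 := ⟨nat_lit 0, nat_lit 4, [nat_lit 38, nat_lit 5, nat_lit 5, nat_lit 20], true, nat_lit 0, nat_lit 0, nat_lit 0, nat_lit 0, ⟨nat_lit 0, nat_lit 0, nat_lit 1000, nat_lit 5, nat_lit 49, nat_lit 0, nat_lit 0, nat_lit 0, nat_lit 0, nat_lit 215, nat_lit 22817, nat_lit 252, nat_lit 66016119, nat_lit 0, nat_lit 0, nat_lit 382702, false, false⟩,
 nat_lit 0, nat_lit 9372, nat_lit 0, nat_lit 0, nat_lit 4482, nat_lit 0, nat_lit 162, nat_lit 0, nat_lit 0, nat_lit 0, nat_lit 0, nat_lit 0, nat_lit 0, nat_lit 0, nat_lit 91, nat_lit 1000000, nat_lit 0, nat_lit 0, [(nat_lit 3, [(nat_lit 6, nat_lit 1000)])],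
 ⟨p004_k5, nat_lit 0, nat_lit 0, nat_lit 0, nat_lit 0, nat_lit 116592, [nat_lit 2575028572, nat_lit 1552000000, nat_lit 295200000], [], [nat_lit 13636260522, nat_lit 14041118938, nat_lit 12249599986, nat_lit 12681648942], nat_lit 1271250, nat_lit 1271250, nat_lit 0, nat_lit 230001, nat_lit 0, nat_lit 0, [nat_lit 1271250, nat_lit 1271250, nat_lit 1271250], [nat_lit 96, nat_lit 40, nat_lit 20, nat_lit 40]⟩, C1.Rw.none,
 ⟨nat_lit 6519, nat_lit 6709, ⟨.ofNat (nat_lit 69221), .ofNat (nat_lit 155377), .ofNat (nat_lit 79940), .ofNat (nat_lit 166096), .ofNat (nat_lit 79059), .ofNat (nat_lit 163247), .ofNat (nat_lit 89758), .ofNat (nat_lit 173946)⟩, ⟨.ofNat (nat_lit 0), .ofNat (nat_lit 0), .ofNat (nat_lit 0), .ofNat (nat_lit 0), .ofNat (nat_lit 0), .ofNat (nat_lit 0), .ofNat (nat_lit 0), .ofNat (nat_lit 0)⟩⟩, [⟨nat_lit 0, nat_lit 100, nat_lit 99, nat_lit 20, nat_lit 274355712⟩]⟩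
noncomputable def p004_l8 : Lf2 := ⟨nat_lit 0, nat_lit 4, [nat_lit 38, nat_lit 5, nat_lit 5, nat_lit 20], true, nat_lit 0, nat_lit 0, nat_lit 0, nat_lit 0, ⟨nat_lit 0, nat_lit 0, nat_lit 1000, nat_lit 5, nat_lit 44, nat_lit 0, nat_lit 0, nat_lit 0, nat_lit 0, nat_lit 215, nat_lit 18150, nat_lit 248, nat_lit 66210743, nat_lit 0, nat_lit 0, nat_lit 319994, false, false⟩,
 nat_lit 0, nat_lit 9520, nat_lit 0, nat_lit 0, nat_lit 4553, nat_lit 0, nat_lit 191, nat_lit 0, nat_lit 0, nat_lit 0, nat_lit 0, nat_lit 0, nat_lit 0, nat_lit 0, nat_lit 91, nat_lit 1000000, nat_lit 0, nat_lit 0, [(nat_lit 3, [(nat_lit 6, nat_lit 1000)])],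
 ⟨p004_k5, nat_lit 0, nat_lit 0, nat_lit 0, nat_lit 0, nat_lit 132244, [nat_lit 2575028572, nat_lit 1552000000, nat_lit 295200000], [], [nat_lit 13497078997, nat_lit 13737286568, nat_lit 12584112104, nat_lit 12804593136], nat_lit 1271250, nat_lit 1271250, nat_lit 0, nat_lit 111251, nat_lit 0, nat_lit 0, [nat_lit 1271250, nat_lit 1271250, nat_lit 1271250], [nat_lit 96, nat_lit 40, nat_lit 20, nat_lit 40]⟩, C1.Rw.none,
 ⟨nat_lit 6614, nat_lit 6709, ⟨.ofNat (nat_lit 79940), .ofNat (nat_lit 123018), .ofNat (nat_lit 90659), .ofNat (nat_lit 133737), .ofNat (nat_lit 84877), .ofNat (nat_lit 127460), .ofNat (nat_lit 95585), .ofNat (nat_lit 138168)⟩, ⟨.ofNat (nat_lit 0), .ofNat (nat_lit 0), .ofNat (nat_lit 0), .ofNat (nat_lit 0), .ofNat (nat_lit 0), .ofNat (nat_lit 0), .ofNat (nat_lit 0), .ofNat (nat_lit 0)⟩⟩, [⟨nat_lit 0, nat_lit 100, nat_lit 100, nat_lit 22, nat_lit 334766796⟩]⟩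
noncomputable def p004_l9 : Lf2 := ⟨nat_lit 0, nat_lit 4, [nat_lit 38, nat_lit 5, nat_lit 5, nat_lit 20], true, nat_lit 0, nat_lit 0, nat_lit 0, nat_lit 0, ⟨nat_lit 0, nat_lit 0, nat_lit 1000, nat_lit 5, nat_lit 46, nat_lit 0, nat_lit 0, nat_lit 0, nat_lit 0, nat_lit 215, nat_lit 19267, nat_lit 249, nat_lit 66142841, nat_lit 0, nat_lit 0, nat_lit 342248, false, false⟩,
 nat_lit 0, nat_lit 9853, nat_lit 0, nat_lit 0, nat_lit 4836, nat_lit 0, nat_lit 734, nat_lit 0, nat_lit 0, nat_lit 0, nat_lit 0, nat_lit 0, nat_lit 0, nat_lit 0, nat_lit 91, nat_lit 1000000, nat_lit 0, nat_lit 0, [(nat_lit 3, [(nat_lit 6, nat_lit 1000)])],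
 ⟨p004_k6, nat_lit 0, nat_lit 0, nat_lit 0, nat_lit 0, nat_lit 150339, [nat_lit 2575028572, nat_lit 1552000000, nat_lit 295200000], [], [nat_lit 13027943182, nat_lit 13254117268, nat_lit 12042350440, nat_lit 12267626624], nat_lit 1271250, nat_lit 1271250, nat_lit 0, nat_lit 111251, nat_lit 0, nat_lit 0, [nat_lit 1271250, nat_lit 1271250, nat_lit 1271250], [nat_lit 96, nat_lit 40, nat_lit 20, nat_lit 40]⟩, C1.Rw.none,
 ⟨nat_lit 6519, nat_lit 6615, ⟨.ofNat (nat_lit 84877), .ofNat (nat_lit 127460), .ofNat (nat_lit 95585), .ofNat (nat_lit 138168), .ofNat (nat_lit 89758), .ofNat (nat_lit 131852), .ofNat (nat_lit 100457), .ofNat (nat_lit 142551)⟩, ⟨.ofNat (nat_lit 0), .ofNat (nat_lit 0), .ofNat (nat_lit 0), .ofNat (nat_lit 0), .ofNat (nat_lit 0), .ofNat (nat_lit 0), .ofNat (nat_lit 0), .ofNat (nat_lit 0)⟩⟩, [⟨nat_lit 0, nat_lit 100, nat_lit 99, nat_lit 25, nat_lit 353146771⟩]⟩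
noncomputable def p004_l10 : Lf2 := ⟨nat_lit 0, nat_lit 4, [nat_lit 38, nat_lit 5, nat_lit 5, nat_lit 20], true, nat_lit 0, nat_lit 0, nat_lit 0, nat_lit 0, ⟨nat_lit 0, nat_lit 0, nat_lit 1000, nat_lit 5, nat_lit 62, nat_lit 0, nat_lit 0, nat_lit 0, nat_lit 0, nat_lit 215, nat_lit 35267, nat_lit 261, nat_lit 65446214, nat_lit 0, nat_lit 0, nat_lit 551010, false, false⟩,
 nat_lit 0, nat_lit 11652, nat_lit 0, nat_lit 0, nat_lit 5572, nat_lit 0, nat_lit 694, nat_lit 0, nat_lit 0, nat_lit 0, nat_lit 0, nat_lit 0, nat_lit 0, nat_lit 0, nat_lit 115, nat_lit 1000000, nat_lit 0, nat_lit 0, [(nat_lit 3, [(nat_lit 6, nat_lit 1000)])],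
 ⟨p004_k7, nat_lit 0, nat_lit 0, nat_lit 0, nat_lit 0, nat_lit 154540, [nat_lit 3341142858, nat_lit 1499600000, nat_lit 23600000], [], [nat_lit 11920666176, nat_lit 12372758808, nat_lit 11260741592, nat_lit 11707366620], nat_lit 1271250, nat_lit 1271250, nat_lit 111251, nat_lit 230001, nat_lit 0, nat_lit 0, [nat_lit 1412500, nat_lit 1271250, nat_lit 1271250], [nat_lit 25, nat_lit 40, nat_lit 20, nat_lit 80]⟩, C1.Rw.none,
 ⟨nat_lit 6519, nat_lit 6709, ⟨.ofNat (nat_lit 123018), .ofNat (nat_lit 166096), .ofNat (nat_lit 133737), .ofNat (nat_lit 176815), .ofNat (nat_lit 131852), .ofNat (nat_lit 173946), .ofNat (nat_lit 142551), .ofNat (nat_lit 184645)⟩, ⟨.ofNat (nat_lit 0), .ofNat (nat_lit 0), .ofNat (nat_lit 0), .ofNat (nat_lit 0), .ofNat (nat_lit 0), .ofNat (nat_lit 0), .ofNat (nat_lit 0), .ofNat (nat_lit 0)⟩⟩, []⟩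
noncomputable def p004_l11 : Lf2 := ⟨nat_lit 0, nat_lit 5, [nat_lit 4, nat_lit 5, nat_lit 5, nat_lit 20], true, nat_lit 0, nat_lit 0, nat_lit 0, nat_lit 0, ⟨nat_lit 0, nat_lit 0, nat_lit 1000, nat_lit 5, nat_lit 40, nat_lit 0, nat_lit 0, nat_lit 0, nat_lit 0, nat_lit 215, nat_lit 15000, nat_lit 245, nat_lit 66326250, nat_lit 0, nat_lit 0, nat_lit 281085, false, false⟩,
 nat_lit 0, nat_lit 10188, nat_lit 0, nat_lit 0, nat_lit 4872, nat_lit 0, nat_lit 0, nat_lit 0, nat_lit 0, nat_lit 0, nat_lit 0, nat_lit 0, nat_lit 0, nat_lit 0, nat_lit 115, nat_lit 1000000, nat_lit 0, nat_lit 0, [(nat_lit 3, [(nat_lit 6, nat_lit 1000)])],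
 ⟨p004_k8, nat_lit 0, nat_lit 0, nat_lit 0, nat_lit 0, nat_lit 40324, [nat_lit 3341142858, nat_lit 23600000], [], [nat_lit 14843455012, nat_lit 15235035208, nat_lit 13834676532, nat_lit 14217196356], nat_lit 1271250, nat_lit 1271250, nat_lit 0, nat_lit 111251, nat_lit 0, nat_lit 0, [nat_lit 1412500, nat_lit 1271250], [nat_lit 51, nat_lit 40, nat_lit 20, nat_lit 80]⟩, C1.Rw.none,
 ⟨nat_lit 6519, nat_lit 6709, ⟨.ofNat (nat_lit 69221), .ofNat (nat_lit 112299), .ofNat (nat_lit 79940), .ofNat (nat_lit 123018), .ofNat (nat_lit 79059), .ofNat (nat_lit 121153), .ofNat (nat_lit 89758), .ofNat (nat_lit 131852)⟩, ⟨.ofNat (nat_lit 0), .ofNat (nat_lit 0), .ofNat (nat_lit 0), .ofNat (nat_lit 0), .ofNat (nat_lit 0), .ofNat (nat_lit 0), .ofNat (nat_lit 0), .ofNat (nat_lit 0)⟩⟩, [⟨nat_lit 0, nat_lit 100, nat_lit 99, nat_lit 20, nat_lit 357187630⟩]⟩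
noncomputable def p004_l12 : Lf2 := ⟨nat_lit 0, nat_lit 5, [nat_lit 4, nat_lit 5, nat_lit 5, nat_lit 20], true, nat_lit 0, nat_lit 0, nat_lit 0, nat_lit 0, ⟨nat_lit 0, nat_lit 0, nat_lit 1000, nat_lit 5, nat_lit 45, nat_lit 0, nat_lit 0, nat_lit 0, nat_lit 0, nat_lit 215, nat_lit 18150, nat_lit 248, nat_lit 66177319, nat_lit 0, nat_lit 0, nat_lit 331002, false, false⟩,
 nat_lit 0, nat_lit 8999, nat_lit 0, nat_lit 0, nat_lit 4303, nat_lit 0, nat_lit 13, nat_lit 0, nat_lit 0, nat_lit 0, nat_lit 0, nat_lit 0, nat_lit 0, nat_lit 0, nat_lit 115, nat_lit 1000000, nat_lit 0, nat_lit 0, [(nat_lit 3, [(nat_lit 6, nat_lit 1000)])],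
 ⟨p004_k9, nat_lit 0, nat_lit 0, nat_lit 0, nat_lit 0, nat_lit 79161, [nat_lit 3007028572, nat_lit 2237600001, nat_lit 23600000], [], [nat_lit 14178113176, nat_lit 14642549492, nat_lit 13329701106, nat_lit 13762191170], nat_lit 1271250, nat_lit 1271250, nat_lit 0, nat_lit 111251, nat_lit 0, nat_lit 0, [nat_lit 1271250, nat_lit 1271250, nat_lit 1271250], [nat_lit 103, nat_lit 40, nat_lit 20, nat_lit 40]⟩, C1.Rw.none,
 ⟨nat_lit 6519, nat_lit 6709, ⟨.ofNat (nat_lit 79940), .ofNat (nat_lit 123018), .ofNat (nat_lit 90659), .ofNat (nat_lit 133737), .ofNat (nat_lit 89758), .ofNat (nat_lit 131852), .ofNat (nat_lit 100457), .ofNat (nat_lit 142551)⟩, ⟨.ofNat (nat_lit 0), .ofNat (nat_lit 0), .ofNat (nat_lit 0), .ofNat (nat_lit 0), .ofNat (nat_lit 0), .ofNat (nat_lit 0), .ofNat (nat_lit 0), .ofNat (nat_lit 0)⟩⟩, [⟨nat_lit 0, nat_lit 100, nat_lit 99, nat_lit 20, nat_lit 322476727⟩]⟩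
noncomputable def p004_l13 : Lf2 := ⟨nat_lit 0, nat_lit 5, [nat_lit 4, nat_lit 5, nat_lit 5, nat_lit 20], true, nat_lit 0, nat_lit 0, nat_lit 0, nat_lit 0, ⟨nat_lit 0, nat_lit 0, nat_lit 1000, nat_lit 5, nat_lit 59, nat_lit 0, nat_lit 0, nat_lit 0, nat_lit 0, nat_lit 215, nat_lit 33750, nat_lit 260, nat_lit 65550032, nat_lit 0, nat_lit 0, nat_lit 521753, false, false⟩,
 nat_lit 0, nat_lit 10783, nat_lit 0, nat_lit 0, nat_lit 5157, nat_lit 0, nat_lit 0, nat_lit 0, nat_lit 0, nat_lit 0, nat_lit 0, nat_lit 0, nat_lit 0, nat_lit 0, nat_lit 115, nat_lit 1000000, nat_lit 0, nat_lit 0, [(nat_lit 3, [(nat_lit 6, nat_lit 1000)])],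
 ⟨p004_k8, nat_lit 0, nat_lit 0, nat_lit 0, nat_lit 0, nat_lit 79161, [nat_lit 3341142858, nat_lit 23600000], [], [nat_lit 13414437762, nat_lit 13803517431, nat_lit 12797758082, nat_lit 13182535753], nat_lit 1271250, nat_lit 1271250, nat_lit 111251, nat_lit 230001, nat_lit 0, nat_lit 0, [nat_lit 1412500, nat_lit 1271250], [nat_lit 51, nat_lit 40, nat_lit 20, nat_lit 80]⟩, C1.Rw.none,
 ⟨nat_lit 6519, nat_lit 6709, ⟨.ofNat (nat_lit 112299), .ofNat (nat_lit 155377), .ofNat (nat_lit 133737), .ofNat (nat_lit 176815), .ofNat (nat_lit 121153), .ofNat (nat_lit 163247), .ofNat (nat_lit 142551), .ofNat (nat_lit 184645)⟩, ⟨.ofNat (nat_lit 0), .ofNat (nat_lit 0), .ofNat (nat_lit 0), .ofNat (nat_lit 0), .ofNat (nat_lit 0), .ofNat (nat_lit 0), .ofNat (nat_lit 0), .ofNat (nat_lit 0)⟩⟩, []⟩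
noncomputable def p004_l14 : Lf2 := ⟨nat_lit 0, nat_lit 5, [nat_lit 4, nat_lit 5, nat_lit 5, nat_lit 20], true, nat_lit 0, nat_lit 0, nat_lit 0, nat_lit 0, ⟨nat_lit 0, nat_lit 0, nat_lit 1000, nat_lit 5, nat_lit 85, nat_lit 0, nat_lit 0, nat_lit 0, nat_lit 0, nat_lit 215, nat_lit 68267, nat_lit 279, nat_lit 64102464, nat_lit 0, nat_lit 0, nat_lit 890632, false, false⟩,
 nat_lit 0, nat_lit 11216, nat_lit 0, nat_lit 0, nat_lit 5364, nat_lit 0, nat_lit 647, nat_lit 0, nat_lit 0, nat_lit 0, nat_lit 0, nat_lit 0, nat_lit 0, nat_lit 0, nat_lit 115, nat_lit 1000000, nat_lit 0, nat_lit 0, [(nat_lit 3, [(nat_lit 6, nat_lit 1000)])],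
 ⟨p004_k8, nat_lit 0, nat_lit 0, nat_lit 0, nat_lit 0, nat_lit 160401, [nat_lit 3341142858, nat_lit 23600000], [], [nat_lit 11428109848, nat_lit 11817566340, nat_lit 10799630920, nat_lit 11229733744], nat_lit 1271250, nat_lit 1271250, nat_lit 230001, nat_lit 490000, nat_lit 0, nat_lit 0, [nat_lit 1412500, nat_lit 1271250], [nat_lit 51, nat_lit 40, nat_lit 20, nat_lit 80]⟩, C1.Rw.none,
 ⟨nat_lit 6519, nat_lit 6709, ⟨.ofNat (nat_lit 155377), .ofNat (nat_lit 241532), .ofNat (nat_lit 176815), .ofNat (nat_lit 262970), .ofNat (nat_lit 163247), .ofNat (nat_lit 247435), .ofNat (nat_lit 184645), .ofNat (nat_lit 268833)⟩, ⟨.ofNat (nat_lit 0), .ofNat (nat_lit 0), .ofNat (nat_lit 0), .ofNat (nat_lit 0), .ofNat (nat_lit 0), .ofNat (nat_lit 0), .ofNat (nat_lit 0), .ofNat (nat_lit 0)⟩⟩, []⟩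
noncomputable def p004_l15 : Lf2 := ⟨nat_lit 0, nat_lit 5, [nat_lit 4, nat_lit 5, nat_lit 5, nat_lit 20], true, nat_lit 0, nat_lit 0, nat_lit 0, nat_lit 0, ⟨nat_lit 0, nat_lit 0, nat_lit 1000, nat_lit 5, nat_lit 52, nat_lit 0, nat_lit 0, nat_lit 0, nat_lit 0, nat_lit 215, nat_lit 25350, nat_lit 254, nat_lit 65872547, nat_lit 0, nat_lit 0, nat_lit 427033, false, false⟩,
 nat_lit 0, nat_lit 9228, nat_lit 0, nat_lit 0, nat_lit 4647, nat_lit 0, nat_lit 0, nat_lit 0, nat_lit 0, nat_lit 0, nat_lit 0, nat_lit 0, nat_lit 0, nat_lit 0, nat_lit 91, nat_lit 1000000, nat_lit 0, nat_lit 0, [(nat_lit 3, [(nat_lit 6, nat_lit 1000)])],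
 ⟨p004_k10, nat_lit 0, nat_lit 0, nat_lit 0, nat_lit 0, nat_lit 162686, [nat_lit 2575028572, nat_lit 1552000000, nat_lit 295200000], [], [nat_lit 14846454300, nat_lit 15061709036, nat_lit 15219515694, nat_lit 14018517132], nat_lit 1271250, nat_lit 1271250, nat_lit 0, nat_lit 230001, nat_lit 0, nat_lit 0, [nat_lit 1271250, nat_lit 1271250, nat_lit 1271250], [nat_lit 96, nat_lit 40, nat_lit 20, nat_lit 40]⟩, C1.Rw.none,
 ⟨nat_lit 6324, nat_lit 6520, ⟨.ofNat (nat_lit 79059), .ofNat (nat_lit 163247), .ofNat (nat_lit 89758), .ofNat (nat_lit 173946), .ofNat (nat_lit 88677), .ofNat (nat_lit 170942), .ofNat (nat_lit 99361), .ofNat (nat_lit 181625)⟩, ⟨.ofNat (nat_lit 0), .ofNat (nat_lit 0), .ofNat (nat_lit 0), .ofNat (nat_lit 0), .ofNat (nat_lit 0), .ofNat (nat_lit 0), .ofNat (nat_lit 0), .ofNat (nat_lit 0)⟩⟩, [⟨nat_lit 0, nat_lit 100, nat_lit 98, nat_lit 20, nat_lit 58304642⟩]⟩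
noncomputable def p004_l16 : Lf2 := ⟨nat_lit 0, nat_lit 3, [nat_lit 45, nat_lit 5, nat_lit 5, nat_lit 20], true, nat_lit 0, nat_lit 0, nat_lit 0, nat_lit 0, ⟨nat_lit 0, nat_lit 0, nat_lit 1000, nat_lit 5, nat_lit 58, nat_lit 0, nat_lit 0, nat_lit 0, nat_lit 0, nat_lit 215, nat_lit 32267, nat_lit 259, nat_lit 65607636, nat_lit 0, nat_lit 0, nat_lit 505277, false, false⟩,
 nat_lit 0, nat_lit 7483, nat_lit 0, nat_lit 0, nat_lit 3768, nat_lit 0, nat_lit 0, nat_lit 0, nat_lit 101, nat_lit 0, nat_lit 0, nat_lit 0, nat_lit 0, nat_lit 0, nat_lit 53, nat_lit 1000000, nat_lit 0, nat_lit 0, [(nat_lit 3, [(nat_lit 6, nat_lit 1000)])],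
 ⟨p004_k11, nat_lit 0, nat_lit 0, nat_lit 0, nat_lit 0, nat_lit 188527, [nat_lit 2101142858, nat_lit 11600000], [], [nat_lit 10776332555, nat_lit 11325088891, nat_lit 9631331444, nat_lit 10173881940], nat_lit 1271250, nat_lit 1271250, nat_lit 21650, nat_lit 230001, nat_lit 0, nat_lit 0, [nat_lit 1412500, nat_lit 1271250], [nat_lit 26, nat_lit 40, nat_lit 20, nat_lit 80]⟩, C1.Rw.none,
 ⟨nat_lit 6324, nat_lit 6520, ⟨.ofNat (nat_lit 98177), .ofNat (nat_lit 173946), .ofNat (nat_lit 108876), .ofNat (nat_lit 184645), .ofNat (nat_lit 107588), .ofNat (nat_lit 181625), .ofNat (nat_lit 118272), .ofNat (nat_lit 192309)⟩, ⟨.ofNat (nat_lit 0), .ofNat (nat_lit 0), .ofNat (nat_lit 0), .ofNat (nat_lit 0), .ofNat (nat_lit 0), .ofNat (nat_lit 0), .ofNat (nat_lit 0), .ofNat (nat_lit 0)⟩⟩, [⟨nat_lit 0, nat_lit 100, nat_lit 99, nat_lit 25, nat_lit 265058278⟩]⟩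
noncomputable def p004_l17 : Lf2 := ⟨nat_lit 0, nat_lit 3, [nat_lit 45, nat_lit 5, nat_lit 5, nat_lit 20], true, nat_lit 0, nat_lit 0, nat_lit 0, nat_lit 0, ⟨nat_lit 0, nat_lit 0, nat_lit 1000, nat_lit 5, nat_lit 49, nat_lit 0, nat_lit 0, nat_lit 0, nat_lit 0, nat_lit 215, nat_lit 22817, nat_lit 252, nat_lit 66007367, nat_lit 0, nat_lit 0, nat_lit 385448, false, false⟩,
 nat_lit 0, nat_lit 9398, nat_lit 0, nat_lit 0, nat_lit 4733, nat_lit 0, nat_lit 735, nat_lit 0, nat_lit 0, nat_lit 0, nat_lit 0, nat_lit 0, nat_lit 0, nat_lit 0, nat_lit 53, nat_lit 1000000, nat_lit 0, nat_lit 0, [(nat_lit 3, [(nat_lit 6, nat_lit 1000)])],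
 ⟨p004_k12, nat_lit 0, nat_lit 0, nat_lit 0, nat_lit 0, nat_lit 166059, [nat_lit 1891028572, nat_lit 1205600001, nat_lit 226399999], [], [nat_lit 12984165161, nat_lit 13217233403, nat_lit 12214948504, nat_lit 12447243601], nat_lit 1271250, nat_lit 1271250, nat_lit 21650, nat_lit 111251, nat_lit 0, nat_lit 0, [nat_lit 1271250, nat_lit 1271250, nat_lit 1271250], [nat_lit 170, nat_lit 40, nat_lit 20, nat_lit 40]⟩, C1.Rw.none,
 ⟨nat_lit 6422, nat_lit 6520, ⟨.ofNat (nat_lit 98177), .ofNat (nat_lit 131852), .ofNat (nat_lit 108876), .ofNat (nat_lit 142551), .ofNat (nat_lit 102907), .ofNat (nat_lit 136196), .ofNat (nat_lit 113598), .ofNat (nat_lit 146886)⟩, ⟨.ofNat (nat_lit 0), .ofNat (nat_lit 0), .ofNat (nat_lit 0), .ofNat (nat_lit 0), .ofNat (nat_lit 0), .ofNat (nat_lit 0), .ofNat (nat_lit 0), .ofNat (nat_lit 0)⟩⟩, [⟨nat_lit 0, nat_lit 100, nat_lit 99, nat_lit 27, nat_lit 346289358⟩]⟩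
noncomputable def p004_l18 : Lf2 := ⟨nat_lit 0, nat_lit 3, [nat_lit 45, nat_lit 5, nat_lit 5, nat_lit 20], true, nat_lit 0, nat_lit 0, nat_lit 0, nat_lit 0, ⟨nat_lit 0, nat_lit 0, nat_lit 1000, nat_lit 5, nat_lit 51, nat_lit 0, nat_lit 0, nat_lit 0, nat_lit 0, nat_lit 215, nat_lit 24067, nat_lit 253, nat_lit 65934208, nat_lit 0, nat_lit 0, nat_lit 408176, false, false⟩,
 nat_lit 0, nat_lit 9137, nat_lit 0, nat_lit 0, nat_lit 4718, nat_lit 0, nat_lit 0, nat_lit 0, nat_lit 0, nat_lit 0, nat_lit 0, nat_lit 0, nat_lit 0, nat_lit 0, nat_lit 53, nat_lit 1000000, nat_lit 0, nat_lit 0, [(nat_lit 3, [(nat_lit 6, nat_lit 1000)])],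
 ⟨p004_k13, nat_lit 0, nat_lit 0, nat_lit 0, nat_lit 0, nat_lit 183655, [nat_lit 1891028572, nat_lit 1205600001, nat_lit 226399999], [], [nat_lit 14134601691, nat_lit 14276794392, nat_lit 14221692383, nat_lit 13607434732], nat_lit 1271250, nat_lit 1271250, nat_lit 21650, nat_lit 111251, nat_lit 0, nat_lit 0, [nat_lit 1271250, nat_lit 1271250, nat_lit 1271250], [nat_lit 170, nat_lit 40, nat_lit 20, nat_lit 40]⟩, C1.Rw.none,
 ⟨nat_lit 6324, nat_lit 6423, ⟨.ofNat (nat_lit 102907), .ofNat (nat_lit 136196), .ofNat (nat_lit 113598), .ofNat (nat_lit 146886), .ofNat (nat_lit 107588), .ofNat (nat_lit 140493), .ofNat (nat_lit 118272), .ofNat (nat_lit 151177)⟩, ⟨.ofNat (nat_lit 0), .ofNat (nat_lit 0), .ofNat (nat_lit 0), .ofNat (nat_lit 0), .ofNat (nat_lit 0), .ofNat (nat_lit 0), .ofNat (nat_lit 0), .ofNat (nat_lit 0)⟩⟩, [⟨nat_lit 0, nat_lit 100, nat_lit 98, nat_lit 30, nat_lit 77782642⟩]⟩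
noncomputable def p004_l19 : Lf2 := ⟨nat_lit 0, nat_lit 3, [nat_lit 45, nat_lit 5, nat_lit 5, nat_lit 20], true, nat_lit 0, nat_lit 0, nat_lit 0, nat_lit 0, ⟨nat_lit 0, nat_lit 0, nat_lit 1000, nat_lit 5, nat_lit 65, nat_lit 0, nat_lit 0, nat_lit 0, nat_lit 0, nat_lit 215, nat_lit 40017, nat_lit 264, nat_lit 65279918, nat_lit 0, nat_lit 0, nat_lit 596780, false, false⟩,
 nat_lit 0, nat_lit 9766, nat_lit 0, nat_lit 0, nat_lit 4918, nat_lit 0, nat_lit 810, nat_lit 0, nat_lit 0, nat_lit 0, nat_lit 0, nat_lit 0, nat_lit 0, nat_lit 0, nat_lit 53, nat_lit 1000000, nat_lit 0, nat_lit 0, [(nat_lit 3, [(nat_lit 6, nat_lit 1000)])],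
 ⟨p004_k12, nat_lit 0, nat_lit 0, nat_lit 0, nat_lit 0, nat_lit 188527, [nat_lit 1891028572, nat_lit 1205600001, nat_lit 226399999], [], [nat_lit 11826207149, nat_lit 12297572227, nat_lit 11338189695, nat_lit 11754825107], nat_lit 1271250, nat_lit 1271250, nat_lit 111251, nat_lit 230001, nat_lit 0, nat_lit 0, [nat_lit 1271250, nat_lit 1271250, nat_lit 1271250], [nat_lit 170, nat_lit 40, nat_lit 20, nat_lit 40]⟩, C1.Rw.none,
 ⟨nat_lit 6324, nat_lit 6520, ⟨.ofNat (nat_lit 131852), .ofNat (nat_lit 173946), .ofNat (nat_lit 142551), .ofNat (nat_lit 184645), .ofNat (nat_lit 140493), .ofNat (nat_lit 181625), .ofNat (nat_lit 151177), .ofNat (nat_lit 192309)⟩, ⟨.ofNat (nat_lit 0), .ofNat (nat_lit 0), .ofNat (nat_lit 0), .ofNat (nat_lit 0), .ofNat (nat_lit 0), .ofNat (nat_lit 0), .ofNat (nat_lit 0), .ofNat (nat_lit 0)⟩⟩, []⟩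
noncomputable def p004_l20 : Lf2 := ⟨nat_lit 0, nat_lit 3, [nat_lit 45, nat_lit 5, nat_lit 5, nat_lit 20], false, nat_lit 0, nat_lit 0, nat_lit 0, nat_lit 0, ⟨nat_lit 0, nat_lit 0, nat_lit 1000, nat_lit 5, nat_lit 57, nat_lit 0, nat_lit 0, nat_lit 0, nat_lit 0, nat_lit 215, nat_lit 30817, nat_lit 258, nat_lit 65647114, nat_lit 0, nat_lit 0, nat_lit 493881, false, false⟩,
 nat_lit 98551, nat_lit 100000, nat_lit 0, nat_lit 0, nat_lit 100000, nat_lit 0, nat_lit 25124, nat_lit 2900, nat_lit 0, nat_lit 0, nat_lit 0, nat_lit 0, nat_lit 0, nat_lit 0, nat_lit 0, nat_lit 1000000, nat_lit 0, nat_lit 0, [(nat_lit 3, [(nat_lit 6, nat_lit 1000)])],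
 ⟨p004_k11, nat_lit 0, nat_lit 0, nat_lit 0, nat_lit 0, nat_lit 166059, [nat_lit 59041142858, nat_lit 68339600000], [], [nat_lit 72822680574, nat_lit 65008532358, nat_lit 65693444574, nat_lit 53054344574], nat_lit 1271250, nat_lit 1271250, nat_lit 21650, nat_lit 230001, nat_lit 0, nat_lit 0, [nat_lit 1412500, nat_lit 1271250], [nat_lit 26, nat_lit 40, nat_lit 20, nat_lit 80]⟩, ⟨p004_k14, nat_lit 0, nat_lit 0, nat_lit 0, nat_lit 0, nat_lit 185371, [nat_lit 0, nat_lit 0], [], [nat_lit 0, nat_lit 0, nat_lit 0, nat_lit 0], nat_lit 1271250, nat_lit 1271250, nat_lit 21650, nat_lit 230001, nat_lit 0, nat_lit 0, [nat_lit 1412500, nat_lit 1271250], [nat_lit 51, nat_lit 40, nat_lit 20, nat_lit 80]⟩,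
 ⟨nat_lit 6422, nat_lit 6520, ⟨.ofNat (nat_lit 98177), .ofNat (nat_lit 173946), .ofNat (nat_lit 108876), .ofNat (nat_lit 184645), .ofNat (nat_lit 102907), .ofNat (nat_lit 177806), .ofNat (nat_lit 113598), .ofNat (nat_lit 188497)⟩, ⟨.ofNat (nat_lit 0), .ofNat (nat_lit 0), .ofNat (nat_lit 0), .ofNat (nat_lit 0), .ofNat (nat_lit 0), .ofNat (nat_lit 0), .ofNat (nat_lit 0), .ofNat (nat_lit 0)⟩⟩, [⟨nat_lit 0, nat_lit 100, nat_lit 99, nat_lit 27, nat_lit 1107999434⟩]⟩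
noncomputable def p004_l21 : Lf2 := ⟨nat_lit 0, nat_lit 3, [nat_lit 45, nat_lit 5, nat_lit 5, nat_lit 20], true, nat_lit 0, nat_lit 0, nat_lit 0, nat_lit 0, ⟨nat_lit 0, nat_lit 0, nat_lit 1000, nat_lit 5, nat_lit 59, nat_lit 0, nat_lit 0, nat_lit 0, nat_lit 0, nat_lit 215, nat_lit 32267, nat_lit 259, nat_lit 65583227, nat_lit 0, nat_lit 0, nat_lit 512280, false, false⟩,
 nat_lit 0, nat_lit 100000, nat_lit 0, nat_lit 0, nat_lit 51648, nat_lit 0, nat_lit 11081, nat_lit 1654, nat_lit 0, nat_lit 0, nat_lit 0, nat_lit 0, nat_lit 0, nat_lit 0, nat_lit 0, nat_lit 1000000, nat_lit 0, nat_lit 0, [(nat_lit 3, [(nat_lit 6, nat_lit 1000)])],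
 ⟨p004_k15, nat_lit 0, nat_lit 0, nat_lit 0, nat_lit 0, nat_lit 174880, [nat_lit 34121142858, nat_lit 38435600000], [], [nat_lit 51647202763, nat_lit 49355198282, nat_lit 48455079006, nat_lit 44538373586], nat_lit 1271250, nat_lit 1271250, nat_lit 21650, nat_lit 230001, nat_lit 0, nat_lit 0, [nat_lit 1412500, nat_lit 1271250], [nat_lit 26, nat_lit 40, nat_lit 20, nat_lit 80]⟩, C1.Rw.none,
 ⟨nat_lit 6363, nat_lit 6423, ⟨.ofNat (nat_lit 102907), .ofNat (nat_lit 177806), .ofNat (nat_lit 113598), .ofNat (nat_lit 188497), .ofNat (nat_lit 105721), .ofNat (nat_lit 180102), .ofNat (nat_lit 116408), .ofNat (nat_lit 190789)⟩, ⟨.ofNat (nat_lit 0), .ofNat (nat_lit 0), .ofNat (nat_lit 0), .ofNat (nat_lit 0), .ofNat (nat_lit 0), .ofNat (nat_lit 0), .ofNat (nat_lit 0), .ofNat (nat_lit 0)⟩⟩, [⟨nat_lit 0, nat_lit 100, nat_lit 99, nat_lit 29, nat_lit 554318015⟩]⟩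
noncomputable def p004_l22 : Lf2 := ⟨nat_lit 0, nat_lit 3, [nat_lit 45, nat_lit 5, nat_lit 5, nat_lit 20], false, nat_lit 0, nat_lit 0, nat_lit 0, nat_lit 0, ⟨nat_lit 0, nat_lit 0, nat_lit 1000, nat_lit 5, nat_lit 60, nat_lit 0, nat_lit 0, nat_lit 0, nat_lit 0, nat_lit 215, nat_lit 33750, nat_lit 260, nat_lit 65542894, nat_lit 0, nat_lit 0, nat_lit 523782, false, false⟩,
 nat_lit 90756, nat_lit 100000, nat_lit 0, nat_lit 0, nat_lit 99999, nat_lit 0, nat_lit 21960, nat_lit 3841, nat_lit 0, nat_lit 0, nat_lit 0, nat_lit 0, nat_lit 0, nat_lit 0, nat_lit 0, nat_lit 1000000, nat_lit 0, nat_lit 0, [(nat_lit 3, [(nat_lit 6, nat_lit 1000)])],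
 ⟨p004_k16, nat_lit 0, nat_lit 0, nat_lit 0, nat_lit 0, nat_lit 180835, [nat_lit 77861142858, nat_lit 90923600000], [], [nat_lit 108792002519, nat_lit 105667846296, nat_lit 101932411450, nat_lit 96876822006], nat_lit 1271250, nat_lit 1271250, nat_lit 21650, nat_lit 230001, nat_lit 0, nat_lit 0, [nat_lit 1412500, nat_lit 1271250], [nat_lit 26, nat_lit 40, nat_lit 20, nat_lit 80]⟩, ⟨p004_k14, nat_lit 0, nat_lit 0, nat_lit 0, nat_lit 0, nat_lit 210452, [nat_lit 0, nat_lit 0], [], [nat_lit 0, nat_lit 0, nat_lit 0, nat_lit 0], nat_lit 1271250, nat_lit 1271250, nat_lit 21650, nat_lit 230001, nat_lit 0, nat_lit 0, [nat_lit 1412500, nat_lit 1271250], [nat_lit 51, nat_lit 40, nat_lit 20, nat_lit 80]⟩,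
 ⟨nat_lit 6324, nat_lit 6364, ⟨.ofNat (nat_lit 105721), .ofNat (nat_lit 180102), .ofNat (nat_lit 116408), .ofNat (nat_lit 190789), .ofNat (nat_lit 107588), .ofNat (nat_lit 181625), .ofNat (nat_lit 118272), .ofNat (nat_lit 192309)⟩, ⟨.ofNat (nat_lit 0), .ofNat (nat_lit 0), .ofNat (nat_lit 0), .ofNat (nat_lit 0), .ofNat (nat_lit 0), .ofNat (nat_lit 0), .ofNat (nat_lit 0), .ofNat (nat_lit 0)⟩⟩, [⟨nat_lit 0, nat_lit 100, nat_lit 98, nat_lit 30, nat_lit 1079019067⟩]⟩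
noncomputable def p004_l23 : Lf2 := ⟨nat_lit 0, nat_lit 4, [nat_lit 38, nat_lit 5, nat_lit 5, nat_lit 20], true, nat_lit 0, nat_lit 0, nat_lit 0, nat_lit 0, ⟨nat_lit 0, nat_lit 0, nat_lit 1000, nat_lit 5, nat_lit 58, nat_lit 0, nat_lit 0, nat_lit 0, nat_lit 0, nat_lit 215, nat_lit 32267, nat_lit 259, nat_lit 65607636, nat_lit 0, nat_lit 0, nat_lit 505277, false, false⟩,
 nat_lit 0, nat_lit 8913, nat_lit 0, nat_lit 0, nat_lit 4489, nat_lit 0, nat_lit 289, nat_lit 0, nat_lit 0, nat_lit 0, nat_lit 0, nat_lit 0, nat_lit 0, nat_lit 0, nat_lit 91, nat_lit 1000000, nat_lit 0, nat_lit 0, [(nat_lit 3, [(nat_lit 6, nat_lit 1000)])],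
 ⟨p004_k17, nat_lit 0, nat_lit 0, nat_lit 0, nat_lit 0, nat_lit 153818, [nat_lit 2575028572, nat_lit 1552000000, nat_lit 295200000], [], [nat_lit 13618294695, nat_lit 14058636356, nat_lit 12435596687, nat_lit 12886815011], nat_lit 1271250, nat_lit 1271250, nat_lit 21650, nat_lit 230001, nat_lit 0, nat_lit 0, [nat_lit 1271250, nat_lit 1271250, nat_lit 1271250], [nat_lit 96, nat_lit 40, nat_lit 20, nat_lit 40]⟩, C1.Rw.none,
 ⟨nat_lit 6324, nat_lit 6520, ⟨.ofNat (nat_lit 98177), .ofNat (nat_lit 173946), .ofNat (nat_lit 108876), .ofNat (nat_lit 184645), .ofNat (nat_lit 107588), .ofNat (nat_lit 181625), .ofNat (nat_lit 118272), .ofNat (nat_lit 192309)⟩, ⟨.ofNat (nat_lit 0), .ofNat (nat_lit 0), .ofNat (nat_lit 0), .ofNat (nat_lit 0), .ofNat (nat_lit 0), .ofNat (nat_lit 0), .ofNat (nat_lit 0), .ofNat (nat_lit 0)⟩⟩, [⟨nat_lit 0, nat_lit 100, nat_lit 98, nat_lit 30, nat_lit 270646690⟩]⟩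
noncomputable def p004_l24 : Lf2 := ⟨nat_lit 0, nat_lit 5, [nat_lit 4, nat_lit 5, nat_lit 5, nat_lit 20], true, nat_lit 0, nat_lit 0, nat_lit 0, nat_lit 0, ⟨nat_lit 0, nat_lit 0, nat_lit 1000, nat_lit 5, nat_lit 58, nat_lit 0, nat_lit 0, nat_lit 0, nat_lit 0, nat_lit 215, nat_lit 32267, nat_lit 259, nat_lit 65607636, nat_lit 0, nat_lit 0, nat_lit 505277, false, false⟩,
 nat_lit 0, nat_lit 8828, nat_lit 0, nat_lit 0, nat_lit 4446, nat_lit 0, nat_lit 209, nat_lit 0, nat_lit 0, nat_lit 0, nat_lit 0, nat_lit 0, nat_lit 0, nat_lit 0, nat_lit 91, nat_lit 1000000, nat_lit 0, nat_lit 0, [(nat_lit 3, [(nat_lit 6, nat_lit 1000)])],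
 ⟨p004_k10, nat_lit 0, nat_lit 0, nat_lit 0, nat_lit 0, nat_lit 120713, [nat_lit 2575028572, nat_lit 1552000000, nat_lit 295200000], [], [nat_lit 13754144239, nat_lit 14185345185, nat_lit 12580236432, nat_lit 13012402082], nat_lit 1271250, nat_lit 1271250, nat_lit 21650, nat_lit 230001, nat_lit 0, nat_lit 0, [nat_lit 1271250, nat_lit 1271250, nat_lit 1271250], [nat_lit 96, nat_lit 40, nat_lit 20, nat_lit 40]⟩, C1.Rw.none,
 ⟨nat_lit 6324, nat_lit 6520, ⟨.ofNat (nat_lit 98177), .ofNat (nat_lit 173946), .ofNat (nat_lit 108876), .ofNat (nat_lit 184645), .ofNat (nat_lit 107588), .ofNat (nat_lit 181625), .ofNat (nat_lit 118272), .ofNat (nat_lit 192309)⟩, ⟨.ofNat (nat_lit 0), .ofNat (nat_lit 0), .ofNat (nat_lit 0), .ofNat (nat_lit 0), .ofNat (nat_lit 0), .ofNat (nat_lit 0), .ofNat (nat_lit 0), .ofNat (nat_lit 0)⟩⟩, [⟨nat_lit 0, nat_lit 100, nat_lit 98, nat_lit 30, nat_lit 270811376⟩]⟩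
noncomputable def p004_l25 : Lf2 := ⟨nat_lit 0, nat_lit 5, [nat_lit 4, nat_lit 5, nat_lit 5, nat_lit 20], true, nat_lit 0, nat_lit 0, nat_lit 0, nat_lit 0, ⟨nat_lit 0, nat_lit 0, nat_lit 1000, nat_lit 5, nat_lit 88, nat_lit 0, nat_lit 0, nat_lit 0, nat_lit 0, nat_lit 215, nat_lit 72600, nat_lit 281, nat_lit 63923011, nat_lit 0, nat_lit 0, nat_lit 931678, false, false⟩,
 nat_lit 0, nat_lit 10940, nat_lit 0, nat_lit 0, nat_lit 5509, nat_lit 0, nat_lit 441, nat_lit 0, nat_lit 0, nat_lit 0, nat_lit 0, nat_lit 0, nat_lit 0, nat_lit 0, nat_lit 115, nat_lit 1000000, nat_lit 0, nat_lit 0, [(nat_lit 3, [(nat_lit 6, nat_lit 1000)])],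
 ⟨p004_k18, nat_lit 0, nat_lit 0, nat_lit 0, nat_lit 0, nat_lit 197501, [nat_lit 3341142858, nat_lit 1499600000, nat_lit 23600000], [], [nat_lit 11844707704, nat_lit 12289439645, nat_lit 11250689044, nat_lit 11678402337], nat_lit 1271250, nat_lit 1271250, nat_lit 230001, nat_lit 490000, nat_lit 0, nat_lit 0, [nat_lit 1412500, nat_lit 1271250, nat_lit 1271250], [nat_lit 25, nat_lit 40, nat_lit 20, nat_lit 80]⟩, C1.Rw.none,
 ⟨nat_lit 6324, nat_lit 6520, ⟨.ofNat (nat_lit 163247), .ofNat (nat_lit 247435), .ofNat (nat_lit 184645), .ofNat (nat_lit 268833), .ofNat (nat_lit 170942), .ofNat (nat_lit 253206), .ofNat (nat_lit 192309), .ofNat (nat_lit 274574)⟩, ⟨.ofNat (nat_lit 0), .ofNat (nat_lit 0), .ofNat (nat_lit 0), .ofNat (nat_lit 0), .ofNat (nat_lit 0), .ofNat (nat_lit 0), .ofNat (nat_lit 0), .ofNat (nat_lit 0)⟩⟩, []⟩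
noncomputable def p004_l26 : Lf2 := ⟨nat_lit 0, nat_lit 5, [nat_lit 4, nat_lit 5, nat_lit 5, nat_lit 20], false, nat_lit 0, nat_lit 0, nat_lit 0, nat_lit 0, ⟨nat_lit 0, nat_lit 0, nat_lit 1000, nat_lit 5, nat_lit 70, nat_lit 0, nat_lit 0, nat_lit 0, nat_lit 0, nat_lit 215, nat_lit 45067, nat_lit 267, nat_lit 65034181, nat_lit 0, nat_lit 0, nat_lit 662186, false, false⟩,
 nat_lit 100000, nat_lit 0, nat_lit 100000, nat_lit 0, nat_lit 47826, nat_lit 85714, nat_lit 15606, nat_lit 2151, nat_lit 0, nat_lit 10470, nat_lit 3159, nat_lit 0, nat_lit 0, nat_lit 0, nat_lit 0, nat_lit 1000000, nat_lit 0, nat_lit 0, [(nat_lit 3, [(nat_lit 6, nat_lit 1000)])],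
 ⟨p004_k4, nat_lit 0, nat_lit 0, nat_lit 0, nat_lit 0, nat_lit 208711, [nat_lit 44061142858, nat_lit 50363600000, nat_lit 57031600000], [], [nat_lit 105751786074, nat_lit 82727419512, nat_lit 104724000202, nat_lit 80892973966], nat_lit 1271250, nat_lit 1271250, nat_lit 0, nat_lit 490000, nat_lit 0, nat_lit 0, [nat_lit 1412500, nat_lit 1271250, nat_lit 1271250], [nat_lit 25, nat_lit 40, nat_lit 20, nat_lit 80]⟩, ⟨p004_k19, nat_lit 0, nat_lit 0, nat_lit 517, nat_lit 0, nat_lit 234781, [nat_lit 63180000000, nat_lit 75816000000, nat_lit 101088000000], [], [nat_lit 140237992912, nat_lit 141184796030, nat_lit 78940660654, nat_lit 79755115082], nat_lit 1271250, nat_lit 1271250, nat_lit 0, nat_lit 490000, nat_lit 0, nat_lit 0, [nat_lit 1412500, nat_lit 1271250, nat_lit 1271250], [nat_lit 53, nat_lit 40, nat_lit 20, nat_lit 80, nat_lit 14, nat_lit 289, nat_lit 75, nat_lit 8]⟩,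
 ⟨nat_lit 6324, nat_lit 6709, ⟨.ofNat (nat_lit 69221), .ofNat (nat_lit 241532), .ofNat (nat_lit 90659), .ofNat (nat_lit 262970), .ofNat (nat_lit 88677), .ofNat (nat_lit 253206), .ofNat (nat_lit 110045), .ofNat (nat_lit 274574)⟩, ⟨.ofNat (nat_lit 0), .ofNat (nat_lit 0), .ofNat (nat_lit 0), .ofNat (nat_lit 0), .ofNat (nat_lit 0), .ofNat (nat_lit 0), .ofNat (nat_lit 0), .ofNat (nat_lit 0)⟩⟩, []⟩
noncomputable def p004_l27 : Lf2 := ⟨nat_lit 0, nat_lit 5, [nat_lit 4, nat_lit 5, nat_lit 5, nat_lit 20], true, nat_lit 0, nat_lit 0, nat_lit 0, nat_lit 0, ⟨nat_lit 0, nat_lit 0, nat_lit 1000, nat_lit 5, nat_lit 70, nat_lit 0, nat_lit 0, nat_lit 0, nat_lit 0, nat_lit 215, nat_lit 45067, nat_lit 267, nat_lit 65034181, nat_lit 0, nat_lit 0, nat_lit 662186, false, false⟩,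
 nat_lit 0, nat_lit 100000, nat_lit 0, nat_lit 0, nat_lit 47826, nat_lit 0, nat_lit 10811, nat_lit 2199, nat_lit 0, nat_lit 0, nat_lit 0, nat_lit 0, nat_lit 0, nat_lit 0, nat_lit 0, nat_lit 1000000, nat_lit 0, nat_lit 0, [(nat_lit 3, [(nat_lit 6, nat_lit 1000)])],
 ⟨p004_k4, nat_lit 0, nat_lit 0, nat_lit 388, nat_lit 0, nat_lit 208711, [nat_lit 45021142858, nat_lit 51515600001, nat_lit 58375600000], [], [nat_lit 108631786074, nat_lit 93233649449, nat_lit 107604000202, nat_lit 83772973966], nat_lit 1271250, nat_lit 1271250, nat_lit 0, nat_lit 490000, nat_lit 0, nat_lit 0, [nat_lit 1412500, nat_lit 1271250, nat_lit 1271250], [nat_lit 25, nat_lit 40, nat_lit 20, nat_lit 80, nat_lit 17, nat_lit 317, nat_lit 100, nat_lit 10]⟩, C1.Rw.none,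
 ⟨nat_lit 6324, nat_lit 6709, ⟨.ofNat (nat_lit 69221), .ofNat (nat_lit 241532), .ofNat (nat_lit 90659), .ofNat (nat_lit 262970), .ofNat (nat_lit 88677), .ofNat (nat_lit 253206), .ofNat (nat_lit 110045), .ofNat (nat_lit 274574)⟩, ⟨.ofNat (nat_lit 0), .ofNat (nat_lit 0), .ofNat (nat_lit 0), .ofNat (nat_lit 0), .ofNat (nat_lit 0), .ofNat (nat_lit 0), .ofNat (nat_lit 0), .ofNat (nat_lit 0)⟩⟩, [⟨nat_lit 0, nat_lit 100, nat_lit 99, nat_lit 20, nat_lit 180578057⟩]⟩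
noncomputable def p004_l28 : Lf2 := ⟨nat_lit 0, nat_lit 5, [nat_lit 4, nat_lit 5, nat_lit 5, nat_lit 20], true, nat_lit 0, nat_lit 0, nat_lit 0, nat_lit 0, ⟨nat_lit 0, nat_lit 0, nat_lit 1000, nat_lit 5, nat_lit 42, nat_lit 0, nat_lit 0, nat_lit 0, nat_lit 0, nat_lit 215, nat_lit 16017, nat_lit 246, nat_lit 66285488, nat_lit 0, nat_lit 0, nat_lit 294978, false, false⟩,
 nat_lit 0, nat_lit 10334, nat_lit 0, nat_lit 0, nat_lit 4942, nat_lit 0, nat_lit 136, nat_lit 0, nat_lit 0, nat_lit 0, nat_lit 0, nat_lit 0, nat_lit 0, nat_lit 0, nat_lit 115, nat_lit 1000000, nat_lit 0, nat_lit 0, [(nat_lit 3, [(nat_lit 6, nat_lit 1000)])],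
 ⟨p004_k4, nat_lit 0, nat_lit 0, nat_lit 303, nat_lit 0, nat_lit 19804, [nat_lit 3341142858, nat_lit 1499600000, nat_lit 23600000], [], [nat_lit 14427602108, nat_lit 14672056318, nat_lit 13414305276, nat_lit 13630710702], nat_lit 1271250, nat_lit 1271250, nat_lit 0, nat_lit 111251, nat_lit 0, nat_lit 0, [nat_lit 1412500, nat_lit 1271250, nat_lit 1271250], [nat_lit 25, nat_lit 40, nat_lit 20, nat_lit 80, nat_lit 17, nat_lit 289, nat_lit 75, nat_lit 9]⟩, C1.Rw.none,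
 ⟨nat_lit 6614, nat_lit 6709, ⟨.ofNat (nat_lit 69221), .ofNat (nat_lit 112299), .ofNat (nat_lit 90659), .ofNat (nat_lit 133737), .ofNat (nat_lit 74168), .ofNat (nat_lit 116751), .ofNat (nat_lit 95585), .ofNat (nat_lit 138168)⟩, ⟨.ofNat (nat_lit 0), .ofNat (nat_lit 0), .ofNat (nat_lit 0), .ofNat (nat_lit 0), .ofNat (nat_lit 0), .ofNat (nat_lit 0), .ofNat (nat_lit 0), .ofNat (nat_lit 0)⟩⟩, [⟨nat_lit 0, nat_lit 100, nat_lit 100, nat_lit 22, nat_lit 358314918⟩]⟩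
noncomputable def p004_l29 : Lf2 := ⟨nat_lit 0, nat_lit 5, [nat_lit 4, nat_lit 5, nat_lit 5, nat_lit 20], true, nat_lit 0, nat_lit 0, nat_lit 0, nat_lit 0, ⟨nat_lit 0, nat_lit 0, nat_lit 1000, nat_lit 5, nat_lit 43, nat_lit 0, nat_lit 0, nat_lit 0, nat_lit 0, nat_lit 215, nat_lit 18150, nat_lit 248, nat_lit 66220628, nat_lit 0, nat_lit 0, nat_lit 316718, false, false⟩,
 nat_lit 0, nat_lit 9925, nat_lit 0, nat_lit 0, nat_lit 4872, nat_lit 0, nat_lit 104, nat_lit 0, nat_lit 0, nat_lit 0, nat_lit 0, nat_lit 0, nat_lit 0, nat_lit 0, nat_lit 115, nat_lit 1000000, nat_lit 0, nat_lit 0, [(nat_lit 3, [(nat_lit 6, nat_lit 1000)])],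
 ⟨p004_k20, nat_lit 0, nat_lit 0, nat_lit 314, nat_lit 0, nat_lit 41674, [nat_lit 3341142858, nat_lit 1499600000, nat_lit 23600000], [], [nat_lit 14762506640, nat_lit 14962659108, nat_lit 13753261444, nat_lit 13965671108], nat_lit 1271250, nat_lit 1271250, nat_lit 0, nat_lit 111251, nat_lit 0, nat_lit 0, [nat_lit 1412500, nat_lit 1271250, nat_lit 1271250], [nat_lit 25, nat_lit 40, nat_lit 20, nat_lit 80, nat_lit 17, nat_lit 289, nat_lit 75, nat_lit 9]⟩, C1.Rw.none,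
 ⟨nat_lit 6519, nat_lit 6615, ⟨.ofNat (nat_lit 74168), .ofNat (nat_lit 116751), .ofNat (nat_lit 95585), .ofNat (nat_lit 138168), .ofNat (nat_lit 79059), .ofNat (nat_lit 121153), .ofNat (nat_lit 100457), .ofNat (nat_lit 142551)⟩, ⟨.ofNat (nat_lit 0), .ofNat (nat_lit 0), .ofNat (nat_lit 0), .ofNat (nat_lit 0), .ofNat (nat_lit 0), .ofNat (nat_lit 0), .ofNat (nat_lit 0), .ofNat (nat_lit 0)⟩⟩, [⟨nat_lit 0, nat_lit 100, nat_lit 99, nat_lit 25, nat_lit 354091030⟩]⟩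
noncomputable def p004_l30 : Lf2 := ⟨nat_lit 0, nat_lit 5, [nat_lit 4, nat_lit 5, nat_lit 5, nat_lit 20], true, nat_lit 0, nat_lit 0, nat_lit 0, nat_lit 0, ⟨nat_lit 0, nat_lit 0, nat_lit 1000, nat_lit 5, nat_lit 41, nat_lit 0, nat_lit 0, nat_lit 0, nat_lit 0, nat_lit 215, nat_lit 16017, nat_lit 246, nat_lit 66298252, nat_lit 0, nat_lit 0, nat_lit 290645, false, false⟩,
 nat_lit 0, nat_lit 10016, nat_lit 0, nat_lit 0, nat_lit 5044, nat_lit 0, nat_lit 307, nat_lit 0, nat_lit 0, nat_lit 0, nat_lit 0, nat_lit 0, nat_lit 0, nat_lit 0, nat_lit 115, nat_lit 1000000, nat_lit 0, nat_lit 0, [(nat_lit 3, [(nat_lit 6, nat_lit 1000)])],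
 ⟨p004_k18, nat_lit 0, nat_lit 0, nat_lit 335, nat_lit 0, nat_lit 87989, [nat_lit 3341142858, nat_lit 1499600000, nat_lit 23600000], [], [nat_lit 14539273366, nat_lit 15181472992, nat_lit 14045164275, nat_lit 14482029325], nat_lit 1271250, nat_lit 1271250, nat_lit 0, nat_lit 43600, nat_lit 0, nat_lit 0, [nat_lit 1412500, nat_lit 1271250, nat_lit 1271250], [nat_lit 25, nat_lit 40, nat_lit 20, nat_lit 80, nat_lit 17, nat_lit 289, nat_lit 75, nat_lit 9]⟩, C1.Rw.none,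
 ⟨nat_lit 6324, nat_lit 6520, ⟨.ofNat (nat_lit 79059), .ofNat (nat_lit 95896), .ofNat (nat_lit 100457), .ofNat (nat_lit 117294), .ofNat (nat_lit 88677), .ofNat (nat_lit 105130), .ofNat (nat_lit 110045), .ofNat (nat_lit 126498)⟩, ⟨.ofNat (nat_lit 0), .ofNat (nat_lit 0), .ofNat (nat_lit 0), .ofNat (nat_lit 0), .ofNat (nat_lit 0), .ofNat (nat_lit 0), .ofNat (nat_lit 0), .ofNat (nat_lit 0)⟩⟩, [⟨nat_lit 0, nat_lit 100, nat_lit 98, nat_lit 30, nat_lit 546789422⟩]⟩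
noncomputable def p004_l31 : Lf2 := ⟨nat_lit 0, nat_lit 5, [nat_lit 4, nat_lit 5, nat_lit 5, nat_lit 20], true, nat_lit 0, nat_lit 0, nat_lit 0, nat_lit 0, ⟨nat_lit 0, nat_lit 0, nat_lit 1000, nat_lit 5, nat_lit 49, nat_lit 0, nat_lit 0, nat_lit 0, nat_lit 0, nat_lit 215, nat_lit 22817, nat_lit 252, nat_lit 65990423, nat_lit 0, nat_lit 0, nat_lit 390748, false, false⟩,
 nat_lit 0, nat_lit 9686, nat_lit 0, nat_lit 0, nat_lit 4878, nat_lit 0, nat_lit 66, nat_lit 0, nat_lit 0, nat_lit 0, nat_lit 0, nat_lit 0, nat_lit 0, nat_lit 0, nat_lit 115, nat_lit 1000000, nat_lit 0, nat_lit 0, [(nat_lit 3, [(nat_lit 6, nat_lit 1000)])],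
 ⟨p004_k18, nat_lit 0, nat_lit 0, nat_lit 323, nat_lit 0, nat_lit 87989, [nat_lit 3341142858, nat_lit 1499600000, nat_lit 23600000], [], [nat_lit 14629199279, nat_lit 15012416746, nat_lit 14022449826, nat_lit 14411706142], nat_lit 1271250, nat_lit 1271250, nat_lit 43600, nat_lit 111251, nat_lit 0, nat_lit 0, [nat_lit 1412500, nat_lit 1271250, nat_lit 1271250], [nat_lit 25, nat_lit 40, nat_lit 20, nat_lit 80, nat_lit 17, nat_lit 289, nat_lit 75, nat_lit 9]⟩, C1.Rw.none,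
 ⟨nat_lit 6324, nat_lit 6520, ⟨.ofNat (nat_lit 95896), .ofNat (nat_lit 121153), .ofNat (nat_lit 117294), .ofNat (nat_lit 142551), .ofNat (nat_lit 105130), .ofNat (nat_lit 129809), .ofNat (nat_lit 126498), .ofNat (nat_lit 151177)⟩, ⟨.ofNat (nat_lit 0), .ofNat (nat_lit 0), .ofNat (nat_lit 0), .ofNat (nat_lit 0), .ofNat (nat_lit 0), .ofNat (nat_lit 0), .ofNat (nat_lit 0), .ofNat (nat_lit 0)⟩⟩, [⟨nat_lit 0, nat_lit 100, nat_lit 98, nat_lit 30, nat_lit 356142637⟩]⟩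
noncomputable def p004_l32 : Lf2 := ⟨nat_lit 0, nat_lit 5, [nat_lit 4, nat_lit 5, nat_lit 5, nat_lit 20], true, nat_lit 0, nat_lit 0, nat_lit 0, nat_lit 0, ⟨nat_lit 0, nat_lit 0, nat_lit 1000, nat_lit 5, nat_lit 61, nat_lit 0, nat_lit 0, nat_lit 0, nat_lit 0, nat_lit 215, nat_lit 35267, nat_lit 261, nat_lit 65471226, nat_lit 0, nat_lit 0, nat_lit 544011, false, false⟩,
 nat_lit 0, nat_lit 10555, nat_lit 0, nat_lit 0, nat_lit 5048, nat_lit 0, nat_lit 80, nat_lit 0, nat_lit 0, nat_lit 0, nat_lit 0, nat_lit 0, nat_lit 0, nat_lit 0, nat_lit 115, nat_lit 1000000, nat_lit 0, nat_lit 0, [(nat_lit 3, [(nat_lit 6, nat_lit 1000)])],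
 ⟨p004_k4, nat_lit 0, nat_lit 0, nat_lit 306, nat_lit 0, nat_lit 93097, [nat_lit 3341142858, nat_lit 1499600000, nat_lit 23600000], [], [nat_lit 13380660660, nat_lit 14154076532, nat_lit 12783627140, nat_lit 13576298004], nat_lit 1271250, nat_lit 1271250, nat_lit 111251, nat_lit 230001, nat_lit 0, nat_lit 0, [nat_lit 1412500, nat_lit 1271250, nat_lit 1271250], [nat_lit 25, nat_lit 40, nat_lit 20, nat_lit 80, nat_lit 17, nat_lit 289, nat_lit 75, nat_lit 9]⟩, C1.Rw.none,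
 ⟨nat_lit 6324, nat_lit 6709, ⟨.ofNat (nat_lit 112299), .ofNat (nat_lit 155377), .ofNat (nat_lit 133737), .ofNat (nat_lit 176815), .ofNat (nat_lit 129809), .ofNat (nat_lit 170942), .ofNat (nat_lit 151177), .ofNat (nat_lit 192309)⟩, ⟨.ofNat (nat_lit 0), .ofNat (nat_lit 0), .ofNat (nat_lit 0), .ofNat (nat_lit 0), .ofNat (nat_lit 0), .ofNat (nat_lit 0), .ofNat (nat_lit 0), .ofNat (nat_lit 0)⟩⟩, []⟩
noncomputable def p004_l33 : Lf2 := ⟨nat_lit 0, nat_lit 5, [nat_lit 4, nat_lit 5, nat_lit 5, nat_lit 20], true, nat_lit 0, nat_lit 0, nat_lit 0, nat_lit 0, ⟨nat_lit 0, nat_lit 0, nat_lit 1000, nat_lit 5, nat_lit 86, nat_lit 0, nat_lit 0, nat_lit 0, nat_lit 0, nat_lit 215, nat_lit 70417, nat_lit 280, nat_lit 64014299, nat_lit 0, nat_lit 0, nat_lit 910903, false, false⟩,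
 nat_lit 0, nat_lit 10659, nat_lit 0, nat_lit 0, nat_lit 5097, nat_lit 0, nat_lit 255, nat_lit 0, nat_lit 0, nat_lit 0, nat_lit 0, nat_lit 0, nat_lit 0, nat_lit 0, nat_lit 115, nat_lit 1000000, nat_lit 0, nat_lit 0, [(nat_lit 3, [(nat_lit 6, nat_lit 1000)])],
 ⟨p004_k4, nat_lit 0, nat_lit 0, nat_lit 282, nat_lit 0, nat_lit 93097, [nat_lit 3341142858, nat_lit 1499600000, nat_lit 23600000], [], [nat_lit 11762095164, nat_lit 12744762812, nat_lit 11085245614, nat_lit 12206592012], nat_lit 1271250, nat_lit 1271250, nat_lit 230001, nat_lit 490000, nat_lit 0, nat_lit 0, [nat_lit 1412500, nat_lit 1271250, nat_lit 1271250], [nat_lit 25, nat_lit 40, nat_lit 20, nat_lit 80, nat_lit 17, nat_lit 317, nat_lit 100, nat_lit 10]⟩, C1.Rw.none,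
 ⟨nat_lit 6324, nat_lit 6709, ⟨.ofNat (nat_lit 155377), .ofNat (nat_lit 241532), .ofNat (nat_lit 176815), .ofNat (nat_lit 262970), .ofNat (nat_lit 170942), .ofNat (nat_lit 253206), .ofNat (nat_lit 192309), .ofNat (nat_lit 274574)⟩, ⟨.ofNat (nat_lit 0), .ofNat (nat_lit 0), .ofNat (nat_lit 0), .ofNat (nat_lit 0), .ofNat (nat_lit 0), .ofNat (nat_lit 0), .ofNat (nat_lit 0), .ofNat (nat_lit 0)⟩⟩, []⟩
noncomputable def p004_l34 : Lf2 := ⟨nat_lit 0, nat_lit 5, [nat_lit 4, nat_lit 5, nat_lit 5, nat_lit 20], false, nat_lit 0, nat_lit 0, nat_lit 0, nat_lit 0, ⟨nat_lit 587, nat_lit 0, nat_lit 413, nat_lit 5, nat_lit 119, nat_lit 0, nat_lit 0, nat_lit 0, nat_lit 0, nat_lit 215, nat_lit 132017, nat_lit 304, nat_lit 61542869, nat_lit 0, nat_lit 0, nat_lit 1411475, false, false⟩,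
 nat_lit 42006, nat_lit 0, nat_lit 0, nat_lit 0, nat_lit 20089, nat_lit 18002, nat_lit 3496, nat_lit 0, nat_lit 0, nat_lit 4360, nat_lit 0, nat_lit 0, nat_lit 0, nat_lit 0, nat_lit 0, nat_lit 413000, nat_lit 0, nat_lit 0, [(nat_lit 3, [(nat_lit 6, nat_lit 413)])],
 ⟨p004_k4, nat_lit 0, nat_lit 0, nat_lit 328, nat_lit 0, nat_lit 267486, [nat_lit 4098742000, nat_lit 4156670800, nat_lit 4457140800], [], [nat_lit 13564618742, nat_lit 14846468643, nat_lit 18149632530, nat_lit 13215553151], nat_lit 1271250, nat_lit 1271250, nat_lit 490000, nat_lit 780000, nat_lit 0, nat_lit 0, [nat_lit 1412500, nat_lit 1271250, nat_lit 1271250], [nat_lit 25, nat_lit 40, nat_lit 20, nat_lit 80, nat_lit 17, nat_lit 317, nat_lit 100, nat_lit 9]⟩, ⟨p004_k19, nat_lit 0, nat_lit 0, nat_lit 419, nat_lit 0, nat_lit 301734, [nat_lit 3668750000, nat_lit 4677216000, nat_lit 6968864000], [], [nat_lit 14289359172,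 nat_lit 9142543750, nat_lit 17912310028, nat_lit 9069331584], nat_lit 1271250, nat_lit 1271250, nat_lit 490000, nat_lit 780000, nat_lit 0, nat_lit 0, [nat_lit 1412500, nat_lit 1271250, nat_lit 1271250], [nat_lit 53, nat_lit 40, nat_lit 20, nat_lit 80, nat_lit 14, nat_lit 317, nat_lit 100, nat_lit 9]⟩,
 ⟨nat_lit 6519, nat_lit 6709, ⟨.ofNat (nat_lit 241532), .ofNat (nat_lit 327688), .ofNat (nat_lit 262970), .ofNat (nat_lit 349126), .ofNat (nat_lit 247435), .ofNat (nat_lit 331623), .ofNat (nat_lit 268833), .ofNat (nat_lit 353021)⟩, ⟨.ofNat (nat_lit 0), .ofNat (nat_lit 0), .ofNat (nat_lit 0), .ofNat (nat_lit 0), .ofNat (nat_lit 0), .ofNat (nat_lit 0), .ofNat (nat_lit 0), .ofNat (nat_lit 0)⟩⟩, []⟩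
noncomputable def p004_l35 : Lf2 := ⟨nat_lit 0, nat_lit 5, [nat_lit 4, nat_lit 5, nat_lit 5, nat_lit 20], false, nat_lit 0, nat_lit 0, nat_lit 0, nat_lit 0, ⟨nat_lit 398, nat_lit 0, nat_lit 602, nat_lit 5, nat_lit 121, nat_lit 0, nat_lit 0, nat_lit 0, nat_lit 0, nat_lit 215, nat_lit 138017, nat_lit 306, nat_lit 61378812, nat_lit 0, nat_lit 0, nat_lit 1440939, false, false⟩,
 nat_lit 28247, nat_lit 0, nat_lit 0, nat_lit 0, nat_lit 14226, nat_lit 12105, nat_lit 1332, nat_lit 0, nat_lit 0, nat_lit 2957, nat_lit 0, nat_lit 0, nat_lit 0, nat_lit 0, nat_lit 0, nat_lit 602000, nat_lit 0, nat_lit 0, [(nat_lit 3, [(nat_lit 6, nat_lit 602)])],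
 ⟨p004_k18, nat_lit 0, nat_lit 0, nat_lit 345, nat_lit 0, nat_lit 299983, [nat_lit 3114268000, nat_lit 2412503200, nat_lit 1992883200], [], [nat_lit 13290573246, nat_lit 14365322728, nat_lit 16774991934, nat_lit 13280929848], nat_lit 1271250, nat_lit 1271250, nat_lit 490000, nat_lit 780000, nat_lit 0, nat_lit 0, [nat_lit 1412500, nat_lit 1271250, nat_lit 1271250], [nat_lit 25, nat_lit 40, nat_lit 20, nat_lit 80, nat_lit 17, nat_lit 317, nat_lit 100, nat_lit 9]⟩, ⟨p004_k19, nat_lit 0, nat_lit 0, nat_lit 494, nat_lit 0, nat_lit 358036, [nat_lit 2487500000, nat_lit 3171264000, nat_lit 4725056000], [], [nat_lit 9742691996, nat_lit 6162207518, nat_lit 12182667936, nat_lit 6236425626], nat_lit 1271250, nat_lit 1271250, nat_lit 490000, nat_lit 780000, nat_lit 0, nat_lit 0, [nat_lit 1412500, nat_lit 1271250, nat_lit 1271250], [nat_lit 53, nat_lit 40, nat_lit 20, nat_lit 80, nat_lit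 14, nat_lit 317, nat_lit 100, nat_lit 9]⟩,
 ⟨nat_lit 6324, nat_lit 6520, ⟨.ofNat (nat_lit 247435), .ofNat (nat_lit 331623), .ofNat (nat_lit 268833), .ofNat (nat_lit 353021), .ofNat (nat_lit 253206), .ofNat (nat_lit 335470), .ofNat (nat_lit 274574), .ofNat (nat_lit 356838)⟩, ⟨.ofNat (nat_lit 0), .ofNat (nat_lit 0), .ofNat (nat_lit 0), .ofNat (nat_lit 0), .ofNat (nat_lit 0), .ofNat (nat_lit 0), .ofNat (nat_lit 0), .ofNat (nat_lit 0)⟩⟩, []⟩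
noncomputable def b_NL_550_500_0_5 : St := ⟨false, nat_lit 1, nat_lit 1, nat_lit 1, nat_lit 20, nat_lit 220, nat_lit 240, nat_lit 200, nat_lit 220, nat_lit 0, nat_lit 120, nat_lit 0, nat_lit 0, nat_lit 0, nat_lit 0, nat_lit 0, nat_lit 0, nat_lit 0, nat_lit 28, nat_lit 0, nat_lit 0, nat_lit 0, nat_lit 0⟩
theorem d_NL_550_500_0_5 (h : EB TB.env) : Dead b_NL_550_500_0_5 := chkB_sound0 h (T :=
(.spl (nat_lit 2) (nat_lit 80)
(.spl (nat_lit 6) (nat_lit 20)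
(.spl (nat_lit 6) (nat_lit 8)
(.spl (nat_lit 7) (nat_lit 600)
(.spl (nat_lit 7) (nat_lit 300)
(.leaf p004_l0)
(.spl (nat_lit 7) (nat_lit 460)
(.spl (nat_lit 0) (nat_lit 230)
(.leaf p004_l1)
(.leaf p004_l2))
(.spl (nat_lit 0) (nat_lit 230)
(.leaf p004_l3)
(.leaf p004_l4))))
(.leaf p004_l5))
(.spl (nat_lit 7) (nat_lit 600)
(.spl (nat_lit 7) (nat_lit 300)
(.leaf p004_l6)
(.spl (nat_lit 8) (nat_lit 800)
(.spl (nat_lit 0) (nat_lit 230)
(.spl (nat_lit 2) (nat_lit 40)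
(.spl (nat_lit 6) (nat_lit 16)
(.spl (nat_lit 1) (nat_lit 210)
(.leaf p004_l7)
(.spl (nat_lit 2) (nat_lit 20)
(.spl (nat_lit 0) (nat_lit 225)
(.leaf p004_l8)
(.leaf p004_l9))
(.leaf p004_l10)))
(.spl (nat_lit 2) (nat_lit 20)
(.spl (nat_lit 1) (nat_lit 210)
(.leaf p004_l11)
(.leaf p004_l12))
(.leaf p004_l13)))
(.leaf p004_l14))
(.spl (nat_lit 2) (nat_lit 40)
(.spl (nat_lit 1) (nat_lit 210)
(.leaf p004_l15)
(.trZ (nat_lit 0) (nat_lit 100) (nat_lit 99) (nat_lit 20) (nat_lit 4) (.spl (nat_lit 6) (nat_lit 16)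
(.spl (nat_lit 6) (nat_lit 12)
(.spl (nat_lit 7) (nat_lit 460)
(.spl (nat_lit 7) (nat_lit 380)
(.leaf p004_l16)
(.spl (nat_lit 2) (nat_lit 20)
(.spl (nat_lit 0) (nat_lit 235)
(.leaf p004_l17)
(.leaf p004_l18))
(.leaf p004_l19)))
(.spl (nat_lit 0) (nat_lit 235)
(.leaf p004_l20)
(.spl (nat_lit 0) (nat_lit 238)
(.leaf p004_l21)
(.leaf p004_l22))))
(.leaf p004_l23))
(.leaf p004_l24))))
(.leaf p004_l25)))
(.leaf p004_l26)))
(.leaf p004_l27)))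
(.spl (nat_lit 2) (nat_lit 40)
(.spl (nat_lit 2) (nat_lit 20)
(.spl (nat_lit 0) (nat_lit 230)
(.spl (nat_lit 0) (nat_lit 225)
(.leaf p004_l28)
(.leaf p004_l29))
(.spl (nat_lit 2) (nat_lit 8)
(.leaf p004_l30)
(.leaf p004_l31)))
(.leaf p004_l32))
(.leaf p004_l33)))
(.spl (nat_lit 0) (nat_lit 230)
(.leaf p004_l34)
(.leaf p004_l35)))) (by decide +kernel)
noncomputable def p004_l36 : Lf2 := ⟨nat_lit 0, nat_lit 5, [nat_lit 4, nat_lit 5, nat_lit 5, nat_lit 20], false, nat_lit 0, nat_lit 0, nat_lit 0, nat_lit 0, ⟨nat_lit 250, nat_lit 0, nat_lit 750, nat_lit 5, nat_lit 145, nat_lit 0, nat_lit 0, nat_lit 0, nat_lit 0, nat_lit 215, nat_lit 198017, nat_lit 324, nat_lit 59186716, nat_lit 0, nat_lit 0, nat_lit 1800639, false, false⟩,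
 nat_lit 27819, nat_lit 0, nat_lit 0, nat_lit 0, nat_lit 13304, nat_lit 11922, nat_lit 1001, nat_lit 0, nat_lit 0, nat_lit 1968, nat_lit 0, nat_lit 0, nat_lit 0, nat_lit 0, nat_lit 0, nat_lit 750000, nat_lit 0, nat_lit 0, [(nat_lit 3, [(nat_lit 6, nat_lit 750)])],
 ⟨p004_k9, nat_lit 0, nat_lit 0, nat_lit 0, nat_lit 0, nat_lit 305736, [nat_lit 2065146429, nat_lit 1553075001, nat_lit 63200000], [], [nat_lit 13492933911, nat_lit 12195181138, nat_lit 15778623015, nat_lit 12402250176], nat_lit 1271250, nat_lit 1271250, nat_lit 780000, nat_lit 936251, nat_lit 0, nat_lit 0, [nat_lit 1271250, nat_lit 1271250, nat_lit 1271250], [nat_lit 103, nat_lit 40, nat_lit 20, nat_lit 40]⟩, ⟨p004_k19, nat_lit 0, nat_lit 0, nat_lit 415, nat_lit 0, nat_lit 343926, [nat_lit 1562500000, nat_lit 1992000000, nat_lit 2968000000], [], [nat_lit 6037329624, nat_lit 3007409888, nat_lit 7768619888, nat_lit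 2883538768], nat_lit 1271250, nat_lit 1271250, nat_lit 780000, nat_lit 936251, nat_lit 0, nat_lit 0, [nat_lit 1412500, nat_lit 1271250, nat_lit 1271250], [nat_lit 53, nat_lit 40, nat_lit 20, nat_lit 80, nat_lit 14, nat_lit 317, nat_lit 100, nat_lit 8]⟩,
 ⟨nat_lit 6324, nat_lit 6709, ⟨.ofNat (nat_lit 327688), .ofNat (nat_lit 370765), .ofNat (nat_lit 349126), .ofNat (nat_lit 392204), .ofNat (nat_lit 335470), .ofNat (nat_lit 376602), .ofNat (nat_lit 356838), .ofNat (nat_lit 397970)⟩, ⟨.ofNat (nat_lit 0), .ofNat (nat_lit 0), .ofNat (nat_lit 0), .ofNat (nat_lit 0), .ofNat (nat_lit 0), .ofNat (nat_lit 0), .ofNat (nat_lit 0), .ofNat (nat_lit 0)⟩⟩, []⟩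
noncomputable def p004_l37 : Lf2 := ⟨nat_lit 0, nat_lit 5, [nat_lit 4, nat_lit 5, nat_lit 5, nat_lit 20], false, nat_lit 0, nat_lit 0, nat_lit 0, nat_lit 0, ⟨nat_lit 1000, nat_lit 0, nat_lit 0, nat_lit 0, nat_lit 0, nat_lit 0, nat_lit 0, nat_lit 0, nat_lit 0, nat_lit 0, nat_lit 0, nat_lit 0, nat_lit 0, nat_lit 0, nat_lit 0, nat_lit 0, false, false⟩,
 nat_lit 19100, nat_lit 12606, nat_lit 0, nat_lit 0, nat_lit 15163, nat_lit 8185, nat_lit 4542, nat_lit 0, nat_lit 0, nat_lit 0, nat_lit 0, nat_lit 0, nat_lit 0, nat_lit 0, nat_lit 0, nat_lit 0, nat_lit 0, nat_lit 0, [],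
 ⟨p004_k21, nat_lit 0, nat_lit 0, nat_lit 0, nat_lit 0, nat_lit 305736, [nat_lit 2637500000, nat_lit 5449500000, nat_lit 7089500001, nat_lit 9842000000], [], [nat_lit 17035377250, nat_lit 13019397012, nat_lit 11364771082, nat_lit 13721545588], nat_lit 1271250, nat_lit 1271250, nat_lit 936251, nat_lit 1100001, nat_lit 0, nat_lit 0, [nat_lit 631250, nat_lit 1271250, nat_lit 1271250, nat_lit 1271250], [nat_lit 91, nat_lit 40, nat_lit 20, nat_lit 40]⟩, ⟨p004_k19, nat_lit 0, nat_lit 0, nat_lit 407, nat_lit 0, nat_lit 343926, [nat_lit 6250000000, nat_lit 7968000000, nat_lit 11872000000], [], [nat_lit 40630097240, nat_lit 37221549290, nat_lit 42639289120, nat_lit 38674818890], nat_lit 1271250, nat_lit 1271250, nat_lit 936251, nat_lit 1100001, nat_lit 0, nat_lit 0, [nat_lit 1412500, nat_lit 1271250, nat_lit 1271250], [nat_lit 53, nat_lit 40, nat_lit 20, nat_lit 80, nat_lit 14, nat_lit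 317, nat_lit 100, nat_lit 8]⟩,
 zbF0, []⟩
noncomputable def p004_l38 : Lf2 := ⟨nat_lit 0, nat_lit 5, [nat_lit 4, nat_lit 5, nat_lit 5, nat_lit 20], false, nat_lit 0, nat_lit 0, nat_lit 0, nat_lit 0, ⟨nat_lit 1000, nat_lit 0, nat_lit 0, nat_lit 0, nat_lit 0, nat_lit 0, nat_lit 0, nat_lit 0, nat_lit 0, nat_lit 0, nat_lit 0, nat_lit 0, nat_lit 0, nat_lit 0, nat_lit 0, nat_lit 0, false, false⟩,
 nat_lit 13090, nat_lit 4181, nat_lit 0, nat_lit 0, nat_lit 8260, nat_lit 5609, nat_lit 816, nat_lit 0, nat_lit 0, nat_lit 2299, nat_lit 0, nat_lit 0, nat_lit 0, nat_lit 0, nat_lit 0, nat_lit 0, nat_lit 0, nat_lit 0, [],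
 ⟨p004_k4, nat_lit 0, nat_lit 0, nat_lit 0, nat_lit 0, nat_lit 305736, [nat_lit 6250000000, nat_lit 7968000001, nat_lit 9842000000], [], [nat_lit 32050552360, nat_lit 30689642001, nat_lit 31768507721, nat_lit 32276523841], nat_lit 1271250, nat_lit 1271250, nat_lit 1100001, nat_lit 1785000, nat_lit 0, nat_lit 0, [nat_lit 1412500, nat_lit 1271250, nat_lit 1271250], [nat_lit 25, nat_lit 40, nat_lit 20, nat_lit 80]⟩, ⟨p004_k19, nat_lit 0, nat_lit 0, nat_lit 401, nat_lit 0, nat_lit 343926, [nat_lit 6250000000, nat_lit 7968000000, nat_lit 11872000000], [], [nat_lit 35115847676, nat_lit 34580988824, nat_lit 36059852844, nat_lit 36620271264], nat_lit 1271250, nat_lit 1271250, nat_lit 1100001, nat_lit 1785000, nat_lit 0, nat_lit 0, [nat_lit 1412500, nat_lit 1271250, nat_lit 1271250], [nat_lit 53, nat_lit 40, nat_lit 20, nat_lit 80, nat_lit 14, nat_lit 345, nat_lit 125, nat_lit 9]⟩,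
 zbF0, []⟩
noncomputable def p004_l39 : Lf2 := ⟨nat_lit 0, nat_lit 5, [nat_lit 4, nat_lit 5, nat_lit 5, nat_lit 20], false, nat_lit 0, nat_lit 0, nat_lit 0, nat_lit 0, ⟨nat_lit 1000, nat_lit 0, nat_lit 0, nat_lit 0, nat_lit 0, nat_lit 0, nat_lit 0, nat_lit 0, nat_lit 0, nat_lit 0, nat_lit 0, nat_lit 0, nat_lit 0, nat_lit 0, nat_lit 0, nat_lit 0, false, false⟩,
 nat_lit 100000, nat_lit 100000, nat_lit 0, nat_lit 100000, nat_lit 95652, nat_lit 11575, nat_lit 59749, nat_lit 11566, nat_lit 0, nat_lit 861, nat_lit 0, nat_lit 0, nat_lit 0, nat_lit 0, nat_lit 0, nat_lit 0, nat_lit 0, nat_lit 0, [],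
 ⟨p004_k4, nat_lit 0, nat_lit 0, nat_lit 325, nat_lit 0, nat_lit 305736, [nat_lit 237570000000, nat_lit 285552000000, nat_lit 333690000000], [], [nat_lit 590323508504, nat_lit 539748661328, nat_lit 613332229834, nat_lit 568863423730], nat_lit 1271250, nat_lit 1271250, nat_lit 780000, nat_lit 1762500, nat_lit 0, nat_lit 0, [nat_lit 1412500, nat_lit 1271250, nat_lit 1271250], [nat_lit 25, nat_lit 40, nat_lit 20, nat_lit 80, nat_lit 17, nat_lit 345, nat_lit 125, nat_lit 10]⟩, ⟨p004_k19, nat_lit 0, nat_lit 0, nat_lit 415, nat_lit 0, nat_lit 343926, [nat_lit 6250000000, nat_lit 7968000000, nat_lit 11872000000], [], [nat_lit 50138460000, nat_lit 44018317650, nat_lit 37137171300, nat_lit 31757072625], nat_lit 1271250, nat_lit 1271250, nat_lit 780000, nat_lit 1762500, nat_lit 0, nat_lit 0, [nat_lit 1412500, nat_lit 1271250, nat_lit 1271250], [nat_lit 53, nat_lit 40, nat_lit 20, nat_lit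 80, nat_lit 14, nat_lit 345, nat_lit 125, nat_lit 9]⟩,
 zbF0, []⟩
noncomputable def p004_l40 : Lf2 := ⟨nat_lit 0, nat_lit 5, [nat_lit 4, nat_lit 5, nat_lit 5, nat_lit 20], false, nat_lit 0, nat_lit 0, nat_lit 0, nat_lit 0, ⟨nat_lit 868, nat_lit 0, nat_lit 132, nat_lit 5, nat_lit 154, nat_lit 0, nat_lit 0, nat_lit 0, nat_lit 0, nat_lit 215, nat_lit 220417, nat_lit 330, nat_lit 58374979, nat_lit 0, nat_lit 0, nat_lit 1919840, false, false⟩,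
 nat_lit 10117, nat_lit 17493, nat_lit 0, nat_lit 0, nat_lit 13204, nat_lit 4335, nat_lit 4326, nat_lit 0, nat_lit 0, nat_lit 0, nat_lit 0, nat_lit 0, nat_lit 0, nat_lit 0, nat_lit 0, nat_lit 132000, nat_lit 0, nat_lit 0, [(nat_lit 3, [(nat_lit 6, nat_lit 132)])],
 ⟨p004_k4, nat_lit 0, nat_lit 0, nat_lit 227, nat_lit 0, nat_lit 93097, [nat_lit 5562430858, nat_lit 6749851200, nat_lit 8120931200], [], [nat_lit 10237263692, nat_lit 12168786388, nat_lit 10708590652, nat_lit 13195601104], nat_lit 1271250, nat_lit 1271250, nat_lit 780000, nat_lit 1100001, nat_lit 0, nat_lit 0, [nat_lit 1412500, nat_lit 1271250, nat_lit 1271250], [nat_lit 25, nat_lit 40, nat_lit 20, nat_lit 80, nat_lit 17, nat_lit 317, nat_lit 100, nat_lit 9]⟩, ⟨p004_k19, nat_lit 0, nat_lit 0, nat_lit 238, nat_lit 0, nat_lit 105016, [nat_lit 5425000000, nat_lit 6916224000, nat_lit 10304896000], [], [nat_lit 34821665736,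 nat_lit 32692218366, nat_lit 37222631808, nat_lit 35122939878], nat_lit 1271250, nat_lit 1271250, nat_lit 780000, nat_lit 1100001, nat_lit 0, nat_lit 0, [nat_lit 1412500, nat_lit 1271250, nat_lit 1271250], [nat_lit 53, nat_lit 40, nat_lit 20, nat_lit 80, nat_lit 14, nat_lit 317, nat_lit 100, nat_lit 8]⟩,
 ⟨nat_lit 6324, nat_lit 6709, ⟨.ofNat (nat_lit 327688), .ofNat (nat_lit 413843), .ofNat (nat_lit 349126), .ofNat (nat_lit 435281), .ofNat (nat_lit 335470), .ofNat (nat_lit 417734), .ofNat (nat_lit 356838), .ofNat (nat_lit 439102)⟩, ⟨.ofNat (nat_lit 0), .ofNat (nat_lit 0), .ofNat (nat_lit 0), .ofNat (nat_lit 0), .ofNat (nat_lit 0), .ofNat (nat_lit 0), .ofNat (nat_lit 0), .ofNat (nat_lit 0)⟩⟩, []⟩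
noncomputable def p004_l41 : Lf2 := ⟨nat_lit 0, nat_lit 5, [nat_lit 4, nat_lit 5, nat_lit 5, nat_lit 20], false, nat_lit 0, nat_lit 0, nat_lit 0, nat_lit 0, ⟨nat_lit 1000, nat_lit 0, nat_lit 0, nat_lit 0, nat_lit 0, nat_lit 0, nat_lit 0, nat_lit 0, nat_lit 0, nat_lit 0, nat_lit 0, nat_lit 0, nat_lit 0, nat_lit 0, nat_lit 0, nat_lit 0, false, false⟩,
 nat_lit 18818, nat_lit 39028, nat_lit 0, nat_lit 0, nat_lit 27665, nat_lit 8064, nat_lit 0, nat_lit 0, nat_lit 0, nat_lit 0, nat_lit 0, nat_lit 0, nat_lit 0, nat_lit 0, nat_lit 0, nat_lit 0, nat_lit 0, nat_lit 0, [],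
 ⟨p004_k4, nat_lit 0, nat_lit 0, nat_lit 207, nat_lit 0, nat_lit 93097, [nat_lit 6250000000, nat_lit 7968000001, nat_lit 9842000000], [], [nat_lit 30994648690, nat_lit 21982433940, nat_lit 26735948700, nat_lit 31132114160], nat_lit 1271250, nat_lit 1271250, nat_lit 1100001, nat_lit 1785000, nat_lit 0, nat_lit 0, [nat_lit 1412500, nat_lit 1271250, nat_lit 1271250], [nat_lit 25, nat_lit 40, nat_lit 20, nat_lit 80, nat_lit 17, nat_lit 345, nat_lit 125, nat_lit 10]⟩, ⟨p004_k19, nat_lit 0, nat_lit 0, nat_lit 229, nat_lit 0, nat_lit 105016, [nat_lit 6250000000, nat_lit 7968000000, nat_lit 11872000000], [], [nat_lit 36260771296, nat_lit 32500131968, nat_lit 34135548192, nat_lit 34800388560], nat_lit 1271250, nat_lit 1271250, nat_lit 1100001, nat_lit 1785000, nat_lit 0, nat_lit 0, [nat_lit 1412500, nat_lit 1271250, nat_lit 1271250], [nat_lit 53, nat_lit 40, nat_lit 20, nat_lit 80,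 nat_lit 14, nat_lit 345, nat_lit 125, nat_lit 9]⟩,
 zbF0, [⟨nat_lit 13, nat_lit 99, nat_lit 10, nat_lit 100, nat_lit 50125373⟩]⟩
noncomputable def p004_l42 : Lf2 := ⟨nat_lit 0, nat_lit 5, [nat_lit 4, nat_lit 5, nat_lit 5, nat_lit 20], false, nat_lit 0, nat_lit 0, nat_lit 0, nat_lit 0, ⟨nat_lit 965, nat_lit 0, nat_lit 35, nat_lit 6, nat_lit 305, nat_lit 0, nat_lit 0, nat_lit 0, nat_lit 0, nat_lit 215, nat_lit 632874, nat_lit 200, nat_lit 42337144, nat_lit 0, nat_lit 0, nat_lit 3289689, true, true⟩,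
 nat_lit 16606, nat_lit 0, nat_lit 0, nat_lit 7004, nat_lit 7942, nat_lit 7116, nat_lit 2221, nat_lit 0, nat_lit 0, nat_lit 1715, nat_lit 0, nat_lit 0, nat_lit 0, nat_lit 0, nat_lit 0, nat_lit 6825, nat_lit 0, nat_lit 0, [(nat_lit 3, [(nat_lit 3, nat_lit 35)])],
 ⟨p004_k4, nat_lit 0, nat_lit 0, nat_lit 359, nat_lit 0, nat_lit 317397, [nat_lit 7237350000, nat_lit 7669562001, nat_lit 9456972000], [], [nat_lit 28451220619, nat_lit 29131732123, nat_lit 38406297872, nat_lit 38726357240], nat_lit 1271250, nat_lit 1271250, nat_lit 1271250, nat_lit 1271250, nat_lit 0, nat_lit 0, [nat_lit 1412500, nat_lit 1271250, nat_lit 1271250], [nat_lit 25, nat_lit 40, nat_lit 20, nat_lit 80, nat_lit 17, nat_lit 401, nat_lit 175, nat_lit 11]⟩, ⟨p004_k19, nat_lit 0, nat_lit 0, nat_lit 419, nat_lit 0, nat_lit 358036, [nat_lit 6031250000, nat_lit 7689120000, nat_lit 11456480000], [], [nat_lit 32702500355,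 nat_lit 33101854595, nat_lit 39277958419, nat_lit 39447129685], nat_lit 1271250, nat_lit 1271250, nat_lit 1271250, nat_lit 1271250, nat_lit 0, nat_lit 0, [nat_lit 1412500, nat_lit 1271250, nat_lit 1271250], [nat_lit 53, nat_lit 40, nat_lit 20, nat_lit 80, nat_lit 14, nat_lit 401, nat_lit 175, nat_lit 10]⟩,
 ⟨nat_lit 6324, nat_lit 6709, ⟨.ofNat (nat_lit 586126), .ofNat (nat_lit 930631), .ofNat (nat_lit 607557), .ofNat (nat_lit 952062), .ofNat (nat_lit 582235), .ofNat (nat_lit 911175), .ofNat (nat_lit 603596), .ofNat (nat_lit 932535)⟩, ⟨.ofNat (nat_lit 0), .ofNat (nat_lit 0), .ofNat (nat_lit 0), .ofNat (nat_lit 0), .ofNat (nat_lit 0), .ofNat (nat_lit 0), .ofNat (nat_lit 0), .ofNat (nat_lit 0)⟩⟩, []⟩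
noncomputable def b_NL_550_500_0_6 : St := ⟨false, nat_lit 1, nat_lit 1, nat_lit 1, nat_lit 20, nat_lit 220, nat_lit 240, nat_lit 200, nat_lit 220, nat_lit 120, nat_lit 400, nat_lit 0, nat_lit 0, nat_lit 0, nat_lit 0, nat_lit 0, nat_lit 0, nat_lit 0, nat_lit 28, nat_lit 0, nat_lit 0, nat_lit 0, nat_lit 0⟩
theorem d_NL_550_500_0_6 (h : EB TB.env) : Dead b_NL_550_500_0_6 := chkB_sound0 h (T :=
(.spl (nat_lit 2) (nat_lit 240)
(.spl (nat_lit 6) (nat_lit 20)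
(.spl (nat_lit 7) (nat_lit 600)
(.spl (nat_lit 2) (nat_lit 160)
(.spl (nat_lit 2) (nat_lit 140)
(.leaf p004_l36)
(.leaf p004_l37))
(.leaf p004_l38))
(.leaf p004_l39))
(.spl (nat_lit 2) (nat_lit 160)
(.leaf p004_l40)
(.leaf p004_l41)))
(.leaf p004_l42))) (by decide +kernel)
noncomputable def p004_l43 : Lf2 := ⟨nat_lit 0, nat_lit 5, [nat_lit 4, nat_lit 5, nat_lit 5, nat_lit 20], true, nat_lit 0, nat_lit 0, nat_lit 0, nat_lit 0, ⟨nat_lit 0, nat_lit 1000, nat_lit 0, nat_lit 5, nat_lit 85, nat_lit 0, nat_lit 0, nat_lit 0, nat_lit 0, nat_lit 0, nat_lit 0, nat_lit 0, nat_lit 0, nat_lit 0, nat_lit 0, nat_lit 5000000, false, false⟩,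
 nat_lit 0, nat_lit 9836, nat_lit 0, nat_lit 0, nat_lit 4704, nat_lit 0, nat_lit 2276, nat_lit 0, nat_lit 0, nat_lit 0, nat_lit 0, nat_lit 0, nat_lit 0, nat_lit 0, nat_lit 0, nat_lit 1000000, nat_lit 0, nat_lit 0, [(nat_lit 3, [(nat_lit 2, nat_lit 1000)])],
 ⟨p004_k4, nat_lit 0, nat_lit 0, nat_lit 576, nat_lit 0, nat_lit 537735, [nat_lit 3292500000, nat_lit 3077200001, nat_lit 1896400000], [], [nat_lit 28112426505, nat_lit 28368196217, nat_lit 29042470080, nat_lit 27887115936], nat_lit 1271250, nat_lit 1271250, nat_lit 0, nat_lit 780000, nat_lit 0, nat_lit 0, [nat_lit 1412500, nat_lit 1271250, nat_lit 1271250], [nat_lit 25, nat_lit 40, nat_lit 20, nat_lit 80, nat_lit 17, nat_lit 317, nat_lit 100, nat_lit 10]⟩, C1.Rw.none,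
 ⟨nat_lit 6519, nat_lit 6709, ⟨.ofNat (nat_lit 69221), .ofNat (nat_lit 327688), .ofNat (nat_lit 90659), .ofNat (nat_lit 349126), .ofNat (nat_lit 79059), .ofNat (nat_lit 331623), .ofNat (nat_lit 100457), .ofNat (nat_lit 353021)⟩, ⟨.ofNat (nat_lit 0), .ofNat (nat_lit 0), .ofNat (nat_lit 0), .ofNat (nat_lit 0), .ofNat (nat_lit 0), .ofNat (nat_lit 0), .ofNat (nat_lit 0), .ofNat (nat_lit 0)⟩⟩, []⟩
noncomputable def p004_l44 : Lf2 := ⟨nat_lit 0, nat_lit 5, [nat_lit 4, nat_lit 5, nat_lit 5, nat_lit 20], true, nat_lit 0, nat_lit 0, nat_lit 0, nat_lit 0, ⟨nat_lit 0, nat_lit 1000, nat_lit 0, nat_lit 5, nat_lit 88, nat_lit 0, nat_lit 0, nat_lit 0, nat_lit 0, nat_lit 0, nat_lit 0, nat_lit 0, nat_lit 0, nat_lit 0, nat_lit 0, nat_lit 5000000, false, false⟩,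
 nat_lit 0, nat_lit 12225, nat_lit 0, nat_lit 0, nat_lit 6156, nat_lit 0, nat_lit 705, nat_lit 0, nat_lit 0, nat_lit 0, nat_lit 0, nat_lit 0, nat_lit 0, nat_lit 0, nat_lit 0, nat_lit 1000000, nat_lit 0, nat_lit 0, [(nat_lit 3, [(nat_lit 2, nat_lit 1000)])],
 ⟨p004_k18, nat_lit 0, nat_lit 0, nat_lit 597, nat_lit 0, nat_lit 593381, [nat_lit 3292500000, nat_lit 3077200001, nat_lit 1896400000], [], [nat_lit 24789813850, nat_lit 25054799120, nat_lit 26274174804, nat_lit 24762193488], nat_lit 1271250, nat_lit 1271250, nat_lit 0, nat_lit 780000, nat_lit 0, nat_lit 0, [nat_lit 1412500, nat_lit 1271250, nat_lit 1271250], [nat_lit 25, nat_lit 40, nat_lit 20, nat_lit 80, nat_lit 17, nat_lit 317, nat_lit 100, nat_lit 10]⟩, C1.Rw.none,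
 ⟨nat_lit 6324, nat_lit 6520, ⟨.ofNat (nat_lit 79059), .ofNat (nat_lit 331623), .ofNat (nat_lit 100457), .ofNat (nat_lit 353021), .ofNat (nat_lit 88677), .ofNat (nat_lit 335470), .ofNat (nat_lit 110045), .ofNat (nat_lit 356838)⟩, ⟨.ofNat (nat_lit 0), .ofNat (nat_lit 0), .ofNat (nat_lit 0), .ofNat (nat_lit 0), .ofNat (nat_lit 0), .ofNat (nat_lit 0), .ofNat (nat_lit 0), .ofNat (nat_lit 0)⟩⟩, []⟩
noncomputable def p004_l45 : Lf2 := ⟨nat_lit 0, nat_lit 5, [nat_lit 4, nat_lit 5, nat_lit 5, nat_lit 20], false, nat_lit 0, nat_lit 0, nat_lit 0, nat_lit 0, ⟨nat_lit 806, nat_lit 194, nat_lit 0, nat_lit 5, nat_lit 255, nat_lit 0, nat_lit 0, nat_lit 0, nat_lit 0, nat_lit 0, nat_lit 0, nat_lit 0, nat_lit 0, nat_lit 0, nat_lit 0, nat_lit 5000000, false, true⟩,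
 nat_lit 0, nat_lit 11245, nat_lit 0, nat_lit 0, nat_lit 5377, nat_lit 7854, nat_lit 1363, nat_lit 0, nat_lit 0, nat_lit 2856, nat_lit 0, nat_lit 0, nat_lit 0, nat_lit 0, nat_lit 0, nat_lit 194000, nat_lit 0, nat_lit 0, [(nat_lit 3, [(nat_lit 2, nat_lit 194)])],
 ⟨p004_k4, nat_lit 0, nat_lit 0, nat_lit 506, nat_lit 0, nat_lit 638074, [nat_lit 5676245000, nat_lit 7019184800, nat_lit 8300553600], [], [nat_lit 36703165454, nat_lit 36923133570, nat_lit 42846725146, nat_lit 43022825670], nat_lit 1271250, nat_lit 1271250, nat_lit 780000, nat_lit 3072500, nat_lit 0, nat_lit 0, [nat_lit 1412500, nat_lit 1271250, nat_lit 1271250], [nat_lit 25, nat_lit 40, nat_lit 20, nat_lit 80, nat_lit 17, nat_lit 401, nat_lit 175, nat_lit 12]⟩, ⟨p004_k19, nat_lit 0, nat_lit 0, nat_lit 255, nat_lit 0, nat_lit 0, [nat_lit 5037500000, nat_lit 6422208000, nat_lit 9568832000], [], [nat_lit 14549011320,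 nat_lit 15349162264, nat_lit 33681404944, nat_lit 34255661168], nat_lit 0, nat_lit 0, nat_lit 0, nat_lit 0, nat_lit 0, nat_lit 0, [], [nat_lit 53, nat_lit 40, nat_lit 20, nat_lit 80, nat_lit 14, nat_lit 401, nat_lit 175, nat_lit 11]⟩,
 ⟨nat_lit 6324, nat_lit 6709, ⟨.ofNat (nat_lit 327688), .ofNat (nat_lit 930631), .ofNat (nat_lit 349126), .ofNat (nat_lit 952062), .ofNat (nat_lit 335470), .ofNat (nat_lit 911175), .ofNat (nat_lit 356838), .ofNat (nat_lit 932535)⟩, ⟨.ofNat (nat_lit 0), .ofNat (nat_lit 0), .ofNat (nat_lit 0), .ofNat (nat_lit 0), .ofNat (nat_lit 0), .ofNat (nat_lit 0), .ofNat (nat_lit 0), .ofNat (nat_lit 0)⟩⟩, []⟩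
noncomputable def p004_l46 : Lf2 := ⟨nat_lit 0, nat_lit 5, [nat_lit 4, nat_lit 5, nat_lit 5, nat_lit 20], false, nat_lit 0, nat_lit 0, nat_lit 0, nat_lit 0, ⟨nat_lit 54, nat_lit 946, nat_lit 0, nat_lit 5, nat_lit 86, nat_lit 0, nat_lit 0, nat_lit 0, nat_lit 0, nat_lit 0, nat_lit 0, nat_lit 0, nat_lit 0, nat_lit 0, nat_lit 0, nat_lit 5000000, false, false⟩,
 nat_lit 4504, nat_lit 8635, nat_lit 0, nat_lit 0, nat_lit 6283, nat_lit 1930, nat_lit 1264, nat_lit 0, nat_lit 0, nat_lit 404, nat_lit 0, nat_lit 0, nat_lit 0, nat_lit 0, nat_lit 0, nat_lit 946000, nat_lit 0, nat_lit 0, [(nat_lit 3, [(nat_lit 2, nat_lit 946)])],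
 ⟨p004_k4, nat_lit 0, nat_lit 0, nat_lit 461, nat_lit 0, nat_lit 317397, [nat_lit 3452205000, nat_lit 3341303201, nat_lit 2325462400], [], [nat_lit 24356697250, nat_lit 24001475911, nat_lit 28155386910, nat_lit 25069039084], nat_lit 1271250, nat_lit 1271250, nat_lit 0, nat_lit 780000, nat_lit 0, nat_lit 0, [nat_lit 1412500, nat_lit 1271250, nat_lit 1271250], [nat_lit 25, nat_lit 40, nat_lit 20, nat_lit 80, nat_lit 17, nat_lit 317, nat_lit 100, nat_lit 10]⟩, ⟨p004_k19, nat_lit 0, nat_lit 0, nat_lit 562, nat_lit 0, nat_lit 358036, [nat_lit 337500000, nat_lit 430272000, nat_lit 641088000], [], [nat_lit 2967861696, nat_lit 3377874864, nat_lit 1545355208, nat_lit 597296748], nat_lit 1271250, nat_lit 1271250, nat_lit 0, nat_lit 780000, nat_lit 0, nat_lit 0, [nat_lit 1412500, nat_lit 1271250, nat_lit 1271250], [nat_lit 53, nat_lit 40, nat_lit 20, nat_lit 80, nat_lit 14, nat_lit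 317, nat_lit 100, nat_lit 9]⟩,
 ⟨nat_lit 6324, nat_lit 6709, ⟨.ofNat (nat_lit 69221), .ofNat (nat_lit 327688), .ofNat (nat_lit 90659), .ofNat (nat_lit 349126), .ofNat (nat_lit 88677), .ofNat (nat_lit 335470), .ofNat (nat_lit 110045), .ofNat (nat_lit 356838)⟩, ⟨.ofNat (nat_lit 0), .ofNat (nat_lit 0), .ofNat (nat_lit 0), .ofNat (nat_lit 0), .ofNat (nat_lit 0), .ofNat (nat_lit 0), .ofNat (nat_lit 0), .ofNat (nat_lit 0)⟩⟩, []⟩
noncomputable def p004_l47 : Lf2 := ⟨nat_lit 0, nat_lit 5, [nat_lit 4, nat_lit 5, nat_lit 5, nat_lit 20], false, nat_lit 0, nat_lit 0, nat_lit 0, nat_lit 0, ⟨nat_lit 288, nat_lit 712, nat_lit 0, nat_lit 5, nat_lit 255, nat_lit 0, nat_lit 0, nat_lit 0, nat_lit 0, nat_lit 0, nat_lit 0, nat_lit 0, nat_lit 0, nat_lit 0, nat_lit 0, nat_lit 5000000, false, true⟩,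
 nat_lit 4818, nat_lit 1792, nat_lit 0, nat_lit 0, nat_lit 3161, nat_lit 2064, nat_lit 316, nat_lit 0, nat_lit 0, nat_lit 229, nat_lit 0, nat_lit 0, nat_lit 0, nat_lit 0, nat_lit 0, nat_lit 712000, nat_lit 0, nat_lit 0, [(nat_lit 3, [(nat_lit 2, nat_lit 712)])],
 ⟨p004_k4, nat_lit 0, nat_lit 0, nat_lit 359, nat_lit 0, nat_lit 317397, [nat_lit 4144260000, nat_lit 4485750400, nat_lit 4184732800], [], [nat_lit 31434049422, nat_lit 31057756076, nat_lit 38244468574, nat_lit 38548641580], nat_lit 1271250, nat_lit 1271250, nat_lit 780000, nat_lit 3072500, nat_lit 0, nat_lit 0, [nat_lit 1412500, nat_lit 1271250, nat_lit 1271250], [nat_lit 25, nat_lit 40, nat_lit 20, nat_lit 80, nat_lit 17, nat_lit 401, nat_lit 175, nat_lit 12]⟩, ⟨p004_k19, nat_lit 0, nat_lit 0, nat_lit 421, nat_lit 0, nat_lit 358036, [nat_lit 1800000000, nat_lit 2294784000, nat_lit 3419136000], [], [nat_lit 12505209216,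 nat_lit 11413893984, nat_lit 13771576704, nat_lit 12792644737], nat_lit 1271250, nat_lit 1271250, nat_lit 780000, nat_lit 3072500, nat_lit 0, nat_lit 0, [nat_lit 1412500, nat_lit 1271250, nat_lit 1271250], [nat_lit 53, nat_lit 40, nat_lit 20, nat_lit 80, nat_lit 14, nat_lit 401, nat_lit 175, nat_lit 11]⟩,
 ⟨nat_lit 6324, nat_lit 6709, ⟨.ofNat (nat_lit 327688), .ofNat (nat_lit 930631), .ofNat (nat_lit 349126), .ofNat (nat_lit 952062), .ofNat (nat_lit 335470), .ofNat (nat_lit 911175), .ofNat (nat_lit 356838), .ofNat (nat_lit 932535)⟩, ⟨.ofNat (nat_lit 0), .ofNat (nat_lit 0), .ofNat (nat_lit 0), .ofNat (nat_lit 0), .ofNat (nat_lit 0), .ofNat (nat_lit 0), .ofNat (nat_lit 0), .ofNat (nat_lit 0)⟩⟩, []⟩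
noncomputable def b_NL_550_500_0_7 : St := ⟨false, nat_lit 1, nat_lit 2, nat_lit 2, nat_lit 20, nat_lit 220, nat_lit 240, nat_lit 200, nat_lit 220, nat_lit 0, nat_lit 400, nat_lit 0, nat_lit 0, nat_lit 0, nat_lit 0, nat_lit 0, nat_lit 0, nat_lit 0, nat_lit 28, nat_lit 0, nat_lit 0, nat_lit 0, nat_lit 0⟩
theorem d_NL_550_500_0_7 (h : EB TB.env) : Dead b_NL_550_500_0_7 := chkB_sound0 h (T :=
(.st (nat_lit 1)
(.spl (nat_lit 2) (nat_lit 120)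
(.spl (nat_lit 0) (nat_lit 230)
(.leaf p004_l43)
(.leaf p004_l44))
(.leaf p004_l45))
(.spl (nat_lit 2) (nat_lit 120)
(.leaf p004_l46)
(.leaf p004_l47)))) (by decide +kernel)
noncomputable def p004_l48 : Lf2 := ⟨nat_lit 0, nat_lit 5, [nat_lit 4, nat_lit 5, nat_lit 5, nat_lit 20], true, nat_lit 0, nat_lit 0, nat_lit 0, nat_lit 0, ⟨nat_lit 0, nat_lit 0, nat_lit 1000, nat_lit 5, nat_lit 48, nat_lit 0, nat_lit 0, nat_lit 0, nat_lit 0, nat_lit 215, nat_lit 21600, nat_lit 251, nat_lit 66056250, nat_lit 0, nat_lit 0, nat_lit 370034, false, false⟩,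
 nat_lit 0, nat_lit 0, nat_lit 0, nat_lit 6910, nat_lit 4713, nat_lit 0, nat_lit 256, nat_lit 0, nat_lit 0, nat_lit 0, nat_lit 0, nat_lit 0, nat_lit 0, nat_lit 5933950498233, nat_lit 115, nat_lit 1000000, nat_lit 0, nat_lit 0, [(nat_lit 3, [(nat_lit 6, nat_lit 1000)])],
 ⟨p004_k4, nat_lit 0, nat_lit 0, nat_lit 289, nat_lit 0, nat_lit 0, [nat_lit 3341142858, nat_lit 1499600000, nat_lit 23600000], [], [nat_lit 13666884397, nat_lit 14147008300, nat_lit 12949787824, nat_lit 13431351011], nat_lit 0, nat_lit 0, nat_lit 0, nat_lit 0, nat_lit 0, nat_lit 0, [], [nat_lit 25, nat_lit 40, nat_lit 20, nat_lit 80, nat_lit 17, nat_lit 289, nat_lit 75, nat_lit 9]⟩, C1.Rw.none,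
 ⟨nat_lit 6519, nat_lit 6709, ⟨.ofNat (nat_lit 99275), .ofNat (nat_lit 125122), .ofNat (nat_lit 104635), .ofNat (nat_lit 130481), .ofNat (nat_lit 108876), .ofNat (nat_lit 134132), .ofNat (nat_lit 114225), .ofNat (nat_lit 139482)⟩, ⟨.ofNat (nat_lit 0), .ofNat (nat_lit 0), .ofNat (nat_lit 0), .ofNat (nat_lit 0), .ofNat (nat_lit 0), .ofNat (nat_lit 0), .ofNat (nat_lit 0), .ofNat (nat_lit 0)⟩⟩, [⟨nat_lit 0, nat_lit 100, nat_lit 100, nat_lit 24, nat_lit 403398341⟩]⟩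
noncomputable def p004_l49 : Lf2 := ⟨nat_lit 0, nat_lit 5, [nat_lit 4, nat_lit 5, nat_lit 5, nat_lit 20], true, nat_lit 0, nat_lit 0, nat_lit 0, nat_lit 0, ⟨nat_lit 0, nat_lit 0, nat_lit 1000, nat_lit 5, nat_lit 51, nat_lit 0, nat_lit 0, nat_lit 0, nat_lit 0, nat_lit 215, nat_lit 24067, nat_lit 253, nat_lit 65932910, nat_lit 0, nat_lit 0, nat_lit 408576, false, false⟩,
 nat_lit 0, nat_lit 0, nat_lit 0, nat_lit 2147, nat_lit 4762, nat_lit 0, nat_lit 265, nat_lit 0, nat_lit 0, nat_lit 0, nat_lit 0, nat_lit 0, nat_lit 0, nat_lit 10936074067135, nat_lit 115, nat_lit 1000000, nat_lit 0, nat_lit 0, [(nat_lit 3, [(nat_lit 6, nat_lit 1000)])],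
 ⟨p004_k20, nat_lit 0, nat_lit 0, nat_lit 289, nat_lit 0, nat_lit 0, [nat_lit 3341142858, nat_lit 1499600000, nat_lit 23600000], [], [nat_lit 13821721651, nat_lit 14118601348, nat_lit 13095787730, nat_lit 13387393317], nat_lit 0, nat_lit 0, nat_lit 0, nat_lit 0, nat_lit 0, nat_lit 0, [], [nat_lit 25, nat_lit 40, nat_lit 20, nat_lit 80, nat_lit 17, nat_lit 289, nat_lit 75, nat_lit 9]⟩, C1.Rw.none,
 ⟨nat_lit 6519, nat_lit 6615, ⟨.ofNat (nat_lit 109456), .ofNat (nat_lit 135006), .ofNat (nat_lit 114811), .ofNat (nat_lit 140360), .ofNat (nat_lit 114225), .ofNat (nat_lit 139482), .ofNat (nat_lit 119575), .ofNat (nat_lit 144831)⟩, ⟨.ofNat (nat_lit 0), .ofNat (nat_lit 0), .ofNat (nat_lit 0), .ofNat (nat_lit 0), .ofNat (nat_lit 0), .ofNat (nat_lit 0), .ofNat (nat_lit 0), .ofNat (nat_lit 0)⟩⟩, [⟨nat_lit 0, nat_lit 100, nat_lit 100, nat_lit 25, nat_lit 411691004⟩]⟩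
noncomputable def p004_l50 : Lf2 := ⟨nat_lit 0, nat_lit 5, [nat_lit 4, nat_lit 5, nat_lit 5, nat_lit 20], true, nat_lit 0, nat_lit 0, nat_lit 0, nat_lit 0, ⟨nat_lit 0, nat_lit 0, nat_lit 1000, nat_lit 5, nat_lit 46, nat_lit 0, nat_lit 0, nat_lit 0, nat_lit 0, nat_lit 215, nat_lit 20417, nat_lit 250, nat_lit 66114466, nat_lit 0, nat_lit 0, nat_lit 351424, false, false⟩,
 nat_lit 0, nat_lit 0, nat_lit 0, nat_lit 6990, nat_lit 4805, nat_lit 0, nat_lit 270, nat_lit 0, nat_lit 0, nat_lit 0, nat_lit 0, nat_lit 0, nat_lit 0, nat_lit 7017100269596, nat_lit 115, nat_lit 1000000, nat_lit 0, nat_lit 0, [(nat_lit 3, [(nat_lit 6, nat_lit 1000)])],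
 ⟨p004_k20, nat_lit 0, nat_lit 0, nat_lit 288, nat_lit 0, nat_lit 0, [nat_lit 3341142858, nat_lit 1499600000, nat_lit 23600000], [], [nat_lit 13846620093, nat_lit 13965848970, nat_lit 13552774753, nat_lit 13650355591], nat_lit 0, nat_lit 0, nat_lit 0, nat_lit 0, nat_lit 0, nat_lit 0, [], [nat_lit 25, nat_lit 40, nat_lit 20, nat_lit 80, nat_lit 17, nat_lit 272, nat_lit 60, nat_lit 8]⟩, C1.Rw.none,
 ⟨nat_lit 6576, nat_lit 6615, ⟨.ofNat (nat_lit 109456), .ofNat (nat_lit 117973), .ofNat (nat_lit 111598), .ofNat (nat_lit 120115), .ofNat (nat_lit 111370), .ofNat (nat_lit 119847), .ofNat (nat_lit 113511), .ofNat (nat_lit 121988)⟩, ⟨.ofNat (nat_lit 0), .ofNat (nat_lit 0), .ofNat (nat_lit 0), .ofNat (nat_lit 0), .ofNat (nat_lit 0), .ofNat (nat_lit 0), .ofNat (nat_lit 0), .ofNat (nat_lit 0)⟩⟩, [⟨nat_lit 0, nat_lit 100, nat_lit 100, nat_lit 27, nat_lit 502071397⟩]⟩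
noncomputable def p004_l51 : Lf2 := ⟨nat_lit 0, nat_lit 5, [nat_lit 4, nat_lit 5, nat_lit 5, nat_lit 20], true, nat_lit 0, nat_lit 0, nat_lit 0, nat_lit 0, ⟨nat_lit 0, nat_lit 0, nat_lit 1000, nat_lit 5, nat_lit 47, nat_lit 0, nat_lit 0, nat_lit 0, nat_lit 0, nat_lit 215, nat_lit 20417, nat_lit 250, nat_lit 66084723, nat_lit 0, nat_lit 0, nat_lit 360966, false, false⟩,
 nat_lit 0, nat_lit 0, nat_lit 0, nat_lit 6930, nat_lit 4795, nat_lit 0, nat_lit 256, nat_lit 0, nat_lit 0, nat_lit 0, nat_lit 0, nat_lit 0, nat_lit 0, nat_lit 16681932602265, nat_lit 115, nat_lit 1000000, nat_lit 0, nat_lit 0, [(nat_lit 3, [(nat_lit 6, nat_lit 1000)])],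
 ⟨p004_k22, nat_lit 0, nat_lit 0, nat_lit 288, nat_lit 0, nat_lit 0, [nat_lit 3341142858, nat_lit 1499600000, nat_lit 23600000], [], [nat_lit 13974396853, nat_lit 14033958630, nat_lit 13670146939, nat_lit 13719003542], nat_lit 0, nat_lit 0, nat_lit 0, nat_lit 0, nat_lit 0, nat_lit 0, [], [nat_lit 25, nat_lit 40, nat_lit 20, nat_lit 80, nat_lit 17, nat_lit 272, nat_lit 60, nat_lit 8]⟩, C1.Rw.none,
 ⟨nat_lit 6557, nat_lit 6577, ⟨.ofNat (nat_lit 111370), .ofNat (nat_lit 119847), .ofNat (nat_lit 114581), .ofNat (nat_lit 123059), .ofNat (nat_lit 112324), .ofNat (nat_lit 120782), .ofNat (nat_lit 115535), .ofNat (nat_lit 123992)⟩, ⟨.ofNat (nat_lit 0), .ofNat (nat_lit 0), .ofNat (nat_lit 0), .ofNat (nat_lit 0), .ofNat (nat_lit 0), .ofNat (nat_lit 0), .ofNat (nat_lit 0), .ofNat (nat_lit 0)⟩⟩, [⟨nat_lit 0, nat_lit 100, nat_lit 100, nat_lit 28, nat_lit 500969299⟩]⟩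
noncomputable def p004_l52 : Lf2 := ⟨nat_lit 0, nat_lit 5, [nat_lit 4, nat_lit 5, nat_lit 5, nat_lit 20], true, nat_lit 0, nat_lit 0, nat_lit 0, nat_lit 0, ⟨nat_lit 0, nat_lit 0, nat_lit 1000, nat_lit 5, nat_lit 48, nat_lit 0, nat_lit 0, nat_lit 0, nat_lit 0, nat_lit 215, nat_lit 21600, nat_lit 251, nat_lit 66046253, nat_lit 0, nat_lit 0, nat_lit 373202, false, false⟩,
 nat_lit 0, nat_lit 0, nat_lit 0, nat_lit 6903, nat_lit 4795, nat_lit 0, nat_lit 252, nat_lit 0, nat_lit 0, nat_lit 0, nat_lit 0, nat_lit 0, nat_lit 0, nat_lit 10756287517343, nat_lit 115, nat_lit 1000000, nat_lit 0, nat_lit 0, [(nat_lit 3, [(nat_lit 6, nat_lit 1000)])],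
 ⟨p004_k23, nat_lit 0, nat_lit 0, nat_lit 289, nat_lit 0, nat_lit 0, [nat_lit 3341142858, nat_lit 1499600000, nat_lit 23600000], [], [nat_lit 14036083630, nat_lit 14155207184, nat_lit 13720593331, nat_lit 13840439344], nat_lit 0, nat_lit 0, nat_lit 0, nat_lit 0, nat_lit 0, nat_lit 0, [], [nat_lit 25, nat_lit 40, nat_lit 20, nat_lit 80, nat_lit 17, nat_lit 272, nat_lit 60, nat_lit 8]⟩, C1.Rw.none,
 ⟨nat_lit 6519, nat_lit 6558, ⟨.ofNat (nat_lit 112324), .ofNat (nat_lit 120782), .ofNat (nat_lit 117675), .ofNat (nat_lit 126133), .ofNat (nat_lit 114225), .ofNat (nat_lit 122644), .ofNat (nat_lit 119575), .ofNat (nat_lit 127994)⟩, ⟨.ofNat (nat_lit 0), .ofNat (nat_lit 0), .ofNat (nat_lit 0), .ofNat (nat_lit 0), .ofNat (nat_lit 0), .ofNat (nat_lit 0), .ofNat (nat_lit 0), .ofNat (nat_lit 0)⟩⟩, [⟨nat_lit 0, nat_lit 100, nat_lit 100, nat_lit 28, nat_lit 1031455233⟩]⟩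
noncomputable def p004_l53 : Lf2 := ⟨nat_lit 0, nat_lit 5, [nat_lit 4, nat_lit 5, nat_lit 5, nat_lit 20], true, nat_lit 0, nat_lit 0, nat_lit 0, nat_lit 0, ⟨nat_lit 0, nat_lit 0, nat_lit 1000, nat_lit 5, nat_lit 50, nat_lit 0, nat_lit 0, nat_lit 0, nat_lit 0, nat_lit 215, nat_lit 24067, nat_lit 253, nat_lit 65950513, nat_lit 0, nat_lit 0, nat_lit 403145, false, false⟩,
 nat_lit 0, nat_lit 0, nat_lit 0, nat_lit 6894, nat_lit 4775, nat_lit 0, nat_lit 250, nat_lit 0, nat_lit 0, nat_lit 0, nat_lit 0, nat_lit 0, nat_lit 0, nat_lit 1759236043474, nat_lit 115, nat_lit 1000000, nat_lit 0, nat_lit 0, [(nat_lit 3, [(nat_lit 6, nat_lit 1000)])],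
 ⟨p004_k20, nat_lit 0, nat_lit 0, nat_lit 282, nat_lit 0, nat_lit 0, [nat_lit 3341142858, nat_lit 1499600000, nat_lit 23600000], [], [nat_lit 13614881706, nat_lit 13856116674, nat_lit 13372116936, nat_lit 13615843902], nat_lit 0, nat_lit 0, nat_lit 0, nat_lit 0, nat_lit 0, nat_lit 0, [], [nat_lit 25, nat_lit 40, nat_lit 20, nat_lit 80, nat_lit 17, nat_lit 289, nat_lit 75, nat_lit 9]⟩, C1.Rw.none,
 ⟨nat_lit 6519, nat_lit 6615, ⟨.ofNat (nat_lit 117973), .ofNat (nat_lit 126489), .ofNat (nat_lit 121185), .ofNat (nat_lit 129702), .ofNat (nat_lit 122644), .ofNat (nat_lit 131063), .ofNat (nat_lit 125854), .ofNat (nat_lit 134272)⟩, ⟨.ofNat (nat_lit 0), .ofNat (nat_lit 0), .ofNat (nat_lit 0), .ofNat (nat_lit 0), .ofNat (nat_lit 0), .ofNat (nat_lit 0), .ofNat (nat_lit 0), .ofNat (nat_lit 0)⟩⟩, []⟩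
noncomputable def p004_l54 : Lf2 := ⟨nat_lit 0, nat_lit 5, [nat_lit 4, nat_lit 5, nat_lit 5, nat_lit 20], true, nat_lit 0, nat_lit 0, nat_lit 0, nat_lit 0, ⟨nat_lit 0, nat_lit 0, nat_lit 1000, nat_lit 5, nat_lit 52, nat_lit 0, nat_lit 0, nat_lit 0, nat_lit 0, nat_lit 215, nat_lit 25350, nat_lit 254, nat_lit 65899669, nat_lit 0, nat_lit 0, nat_lit 418772, false, false⟩,
 nat_lit 0, nat_lit 0, nat_lit 0, nat_lit 7325, nat_lit 4071, nat_lit 0, nat_lit 334, nat_lit 0, nat_lit 0, nat_lit 0, nat_lit 0, nat_lit 0, nat_lit 0, nat_lit 5421344749667, nat_lit 115, nat_lit 1000000, nat_lit 0, nat_lit 0, [(nat_lit 3, [(nat_lit 6, nat_lit 1000)])],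
 ⟨p004_k24, nat_lit 0, nat_lit 0, nat_lit 0, nat_lit 0, nat_lit 0, [nat_lit 3007028572, nat_lit 2237600001, nat_lit 23600000], [], [nat_lit 12909747388, nat_lit 12957272829, nat_lit 12708776457, nat_lit 12756299188], nat_lit 0, nat_lit 0, nat_lit 0, nat_lit 0, nat_lit 0, nat_lit 0, [], [nat_lit 103, nat_lit 40, nat_lit 20, nat_lit 40]⟩, C1.Rw.none,
 ⟨nat_lit 6538, nat_lit 6558, ⟨.ofNat (nat_lit 123992), .ofNat (nat_lit 132450), .ofNat (nat_lit 125063), .ofNat (nat_lit 133520), .ofNat (nat_lit 124924), .ofNat (nat_lit 133362), .ofNat (nat_lit 125994), .ofNat (nat_lit 134432)⟩, ⟨.ofNat (nat_lit 0), .ofNat (nat_lit 0), .ofNat (nat_lit 0), .ofNat (nat_lit 0), .ofNat (nat_lit 0), .ofNat (nat_lit 0), .ofNat (nat_lit 0), .ofNat (nat_lit 0)⟩⟩, [⟨nat_lit 0, nat_lit 100, nat_lit 100, nat_lit 29, nat_lit 359260792⟩]⟩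
noncomputable def p004_l55 : Lf2 := ⟨nat_lit 2, nat_lit 5, [nat_lit 4, nat_lit 5, nat_lit 5, nat_lit 20], true, nat_lit 0, nat_lit 0, nat_lit 0, nat_lit 0, zbN0,
 nat_lit 0, nat_lit 0, nat_lit 0, nat_lit 0, nat_lit 0, nat_lit 0, nat_lit 0, nat_lit 0, nat_lit 0, nat_lit 0, nat_lit 0, nat_lit 0, nat_lit 0, nat_lit 0, nat_lit 0, nat_lit 0, nat_lit 0, nat_lit 0, [],
 ⟨p004_k23, nat_lit 0, nat_lit 0, nat_lit 282, nat_lit 0, nat_lit 0, [], [], [], nat_lit 0, nat_lit 0, nat_lit 0, nat_lit 0, nat_lit 0, nat_lit 0, [], [nat_lit 25, nat_lit 40, nat_lit 20, nat_lit 80, nat_lit 17, nat_lit 289, nat_lit 75, nat_lit 9]⟩, C1.Rw.none,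
 zbF0, []⟩
noncomputable def p004_l56 : Lf2 := ⟨nat_lit 3, nat_lit 5, [nat_lit 4, nat_lit 5, nat_lit 5, nat_lit 20], false, nat_lit 0, nat_lit 0, nat_lit 0, nat_lit 0, zbN0,
 nat_lit 0, nat_lit 0, nat_lit 0, nat_lit 0, nat_lit 0, nat_lit 0, nat_lit 0, nat_lit 0, nat_lit 0, nat_lit 0, nat_lit 0, nat_lit 0, nat_lit 0, nat_lit 0, nat_lit 0, nat_lit 0, nat_lit 0, nat_lit 0, [],
 C1.Rw.none, ⟨p004_k25, nat_lit 0, nat_lit 0, nat_lit 282, nat_lit 0, nat_lit 0, [], [], [], nat_lit 0, nat_lit 0, nat_lit 0, nat_lit 0, nat_lit 0, nat_lit 0, [], [nat_lit 51, nat_lit 40, nat_lit 20, nat_lit 80, nat_lit 1, nat_lit 289, nat_lit 75, nat_lit 9]⟩,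
 zbF0, []⟩
noncomputable def p004_l57 : Lf2 := ⟨nat_lit 0, nat_lit 5, [nat_lit 4, nat_lit 5, nat_lit 5, nat_lit 20], true, nat_lit 0, nat_lit 0, nat_lit 0, nat_lit 0, ⟨nat_lit 0, nat_lit 0, nat_lit 1000, nat_lit 5, nat_lit 52, nat_lit 0, nat_lit 0, nat_lit 0, nat_lit 0, nat_lit 215, nat_lit 25350, nat_lit 254, nat_lit 65884192, nat_lit 0, nat_lit 0, nat_lit 423492, false, false⟩,
 nat_lit 0, nat_lit 0, nat_lit 0, nat_lit 7321, nat_lit 4071, nat_lit 0, nat_lit 334, nat_lit 0, nat_lit 0, nat_lit 0, nat_lit 0, nat_lit 0, nat_lit 0, nat_lit 0, nat_lit 115, nat_lit 1000000, nat_lit 0, nat_lit 0, [(nat_lit 3, [(nat_lit 6, nat_lit 1000)])],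
 ⟨p004_k26, nat_lit 0, nat_lit 0, nat_lit 0, nat_lit 0, nat_lit 0, [nat_lit 3007028572, nat_lit 2237600001, nat_lit 23600000], [], [nat_lit 12942660329, nat_lit 12997959855, nat_lit 12743016797, nat_lit 12799306314], nat_lit 0, nat_lit 0, nat_lit 0, nat_lit 0, nat_lit 0, nat_lit 0, [], [nat_lit 103, nat_lit 40, nat_lit 20, nat_lit 40]⟩, C1.Rw.none,
 ⟨nat_lit 6519, nat_lit 6539, ⟨.ofNat (nat_lit 124924), .ofNat (nat_lit 133362), .ofNat (nat_lit 125994), .ofNat (nat_lit 134432), .ofNat (nat_lit 125854), .ofNat (nat_lit 134272), .ofNat (nat_lit 126924), .ofNat (nat_lit 135342)⟩, ⟨.ofNat (nat_lit 0), .ofNat (nat_lit 0), .ofNat (nat_lit 0), .ofNat (nat_lit 0), .ofNat (nat_lit 0), .ofNat (nat_lit 0), .ofNat (nat_lit 0), .ofNat (nat_lit 0)⟩⟩, [⟨nat_lit 0, nat_lit 100, nat_lit 100, nat_lit 29, nat_lit 359260792⟩]⟩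
noncomputable def p004_l58 : Lf2 := ⟨nat_lit 2, nat_lit 5, [nat_lit 4, nat_lit 5, nat_lit 5, nat_lit 20], true, nat_lit 0, nat_lit 0, nat_lit 0, nat_lit 0, zbN0,
 nat_lit 0, nat_lit 0, nat_lit 0, nat_lit 0, nat_lit 0, nat_lit 0, nat_lit 0, nat_lit 0, nat_lit 0, nat_lit 0, nat_lit 0, nat_lit 0, nat_lit 0, nat_lit 0, nat_lit 0, nat_lit 0, nat_lit 0, nat_lit 0, [],
 ⟨p004_k27, nat_lit 0, nat_lit 0, nat_lit 282, nat_lit 0, nat_lit 0, [], [], [], nat_lit 0, nat_lit 0, nat_lit 0, nat_lit 0, nat_lit 0, nat_lit 0, [], [nat_lit 25, nat_lit 40, nat_lit 20, nat_lit 80, nat_lit 17, nat_lit 289, nat_lit 75, nat_lit 9]⟩, C1.Rw.none,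
 zbF0, []⟩
noncomputable def p004_l59 : Lf2 := ⟨nat_lit 3, nat_lit 5, [nat_lit 4, nat_lit 5, nat_lit 5, nat_lit 20], false, nat_lit 0, nat_lit 0, nat_lit 0, nat_lit 0, zbN0,
 nat_lit 0, nat_lit 0, nat_lit 0, nat_lit 0, nat_lit 0, nat_lit 0, nat_lit 0, nat_lit 0, nat_lit 0, nat_lit 0, nat_lit 0, nat_lit 0, nat_lit 0, nat_lit 0, nat_lit 0, nat_lit 0, nat_lit 0, nat_lit 0, [],
 C1.Rw.none, ⟨p004_k25, nat_lit 0, nat_lit 0, nat_lit 282, nat_lit 0, nat_lit 0, [], [], [], nat_lit 0, nat_lit 0, nat_lit 0, nat_lit 0, nat_lit 0, nat_lit 0, [], [nat_lit 51, nat_lit 40, nat_lit 20, nat_lit 80, nat_lit 1, nat_lit 289, nat_lit 75, nat_lit 9]⟩,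
 zbF0, []⟩
noncomputable def p004_l60 : Lf2 := ⟨nat_lit 0, nat_lit 5, [nat_lit 4, nat_lit 5, nat_lit 5, nat_lit 20], true, nat_lit 0, nat_lit 0, nat_lit 0, nat_lit 0, ⟨nat_lit 0, nat_lit 0, nat_lit 1000, nat_lit 5, nat_lit 52, nat_lit 0, nat_lit 0, nat_lit 0, nat_lit 0, nat_lit 215, nat_lit 25350, nat_lit 254, nat_lit 65866080, nat_lit 0, nat_lit 0, nat_lit 428996, false, false⟩,
 nat_lit 0, nat_lit 0, nat_lit 0, nat_lit 7289, nat_lit 4064, nat_lit 0, nat_lit 329, nat_lit 0, nat_lit 0, nat_lit 0, nat_lit 0, nat_lit 0, nat_lit 0, nat_lit 5642863354521, nat_lit 115, nat_lit 1000000, nat_lit 0, nat_lit 0, [(nat_lit 3, [(nat_lit 6, nat_lit 1000)])],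
 ⟨p004_k26, nat_lit 0, nat_lit 0, nat_lit 0, nat_lit 0, nat_lit 0, [nat_lit 3007028572, nat_lit 2237600001, nat_lit 23600000], [], [nat_lit 12958880346, nat_lit 13006377416, nat_lit 12758332453, nat_lit 12806734194], nat_lit 0, nat_lit 0, nat_lit 0, nat_lit 0, nat_lit 0, nat_lit 0, [], [nat_lit 103, nat_lit 40, nat_lit 20, nat_lit 40]⟩, C1.Rw.none,
 ⟨nat_lit 6519, nat_lit 6539, ⟨.ofNat (nat_lit 125994), .ofNat (nat_lit 134432), .ofNat (nat_lit 127064), .ofNat (nat_lit 135502), .ofNat (nat_lit 126924), .ofNat (nat_lit 135342), .ofNat (nat_lit 127994), .ofNat (nat_lit 136412)⟩, ⟨.ofNat (nat_lit 0), .ofNat (nat_lit 0), .ofNat (nat_lit 0), .ofNat (nat_lit 0), .ofNat (nat_lit 0), .ofNat (nat_lit 0), .ofNat (nat_lit 0), .ofNat (nat_lit 0)⟩⟩, [⟨nat_lit 0, nat_lit 100, nat_lit 100, nat_lit 30, nat_lit 358209183⟩]⟩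
noncomputable def p004_l61 : Lf2 := ⟨nat_lit 2, nat_lit 5, [nat_lit 4, nat_lit 5, nat_lit 5, nat_lit 20], true, nat_lit 0, nat_lit 0, nat_lit 0, nat_lit 0, zbN0,
 nat_lit 0, nat_lit 0, nat_lit 0, nat_lit 0, nat_lit 0, nat_lit 0, nat_lit 0, nat_lit 0, nat_lit 0, nat_lit 0, nat_lit 0, nat_lit 0, nat_lit 0, nat_lit 0, nat_lit 0, nat_lit 0, nat_lit 0, nat_lit 0, [],
 ⟨p004_k27, nat_lit 0, nat_lit 0, nat_lit 282, nat_lit 0, nat_lit 0, [], [], [], nat_lit 0, nat_lit 0, nat_lit 0, nat_lit 0, nat_lit 0, nat_lit 0, [], [nat_lit 25, nat_lit 40, nat_lit 20, nat_lit 80, nat_lit 17, nat_lit 289, nat_lit 75, nat_lit 9]⟩, C1.Rw.none,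
 zbF0, []⟩
noncomputable def p004_l62 : Lf2 := ⟨nat_lit 3, nat_lit 5, [nat_lit 4, nat_lit 5, nat_lit 5, nat_lit 20], false, nat_lit 0, nat_lit 0, nat_lit 0, nat_lit 0, zbN0,
 nat_lit 0, nat_lit 0, nat_lit 0, nat_lit 0, nat_lit 0, nat_lit 0, nat_lit 0, nat_lit 0, nat_lit 0, nat_lit 0, nat_lit 0, nat_lit 0, nat_lit 0, nat_lit 0, nat_lit 0, nat_lit 0, nat_lit 0, nat_lit 0, [],
 C1.Rw.none, ⟨p004_k28, nat_lit 0, nat_lit 0, nat_lit 282, nat_lit 0, nat_lit 0, [], [], [], nat_lit 0, nat_lit 0, nat_lit 0, nat_lit 0, nat_lit 0, nat_lit 0, [], [nat_lit 51, nat_lit 40, nat_lit 20, nat_lit 80, nat_lit 1, nat_lit 289, nat_lit 75, nat_lit 9]⟩,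
 zbF0, []⟩
noncomputable def p004_l63 : Lf2 := ⟨nat_lit 0, nat_lit 5, [nat_lit 4, nat_lit 5, nat_lit 5, nat_lit 20], true, nat_lit 0, nat_lit 0, nat_lit 0, nat_lit 0, ⟨nat_lit 0, nat_lit 0, nat_lit 1000, nat_lit 5, nat_lit 54, nat_lit 0, nat_lit 0, nat_lit 0, nat_lit 0, nat_lit 215, nat_lit 28017, nat_lit 256, nat_lit 65788785, nat_lit 0, nat_lit 0, nat_lit 452239, false, false⟩,
 nat_lit 0, nat_lit 0, nat_lit 0, nat_lit 5609, nat_lit 4838, nat_lit 0, nat_lit 0, nat_lit 0, nat_lit 0, nat_lit 0, nat_lit 0, nat_lit 0, nat_lit 0, nat_lit 3738366724002, nat_lit 115, nat_lit 1000000, nat_lit 0, nat_lit 0, [(nat_lit 3, [(nat_lit 6, nat_lit 1000)])],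
 ⟨p004_k20, nat_lit 0, nat_lit 0, nat_lit 232, nat_lit 0, nat_lit 0, [nat_lit 3341142858, nat_lit 1499600000, nat_lit 23600000], [], [nat_lit 14003466898, nat_lit 14245898432, nat_lit 13756889192, nat_lit 13999345510], nat_lit 0, nat_lit 0, nat_lit 0, nat_lit 0, nat_lit 0, nat_lit 0, [], [nat_lit 25, nat_lit 40, nat_lit 20, nat_lit 80, nat_lit 17, nat_lit 289, nat_lit 75, nat_lit 9]⟩, C1.Rw.none,
 ⟨nat_lit 6519, nat_lit 6615, ⟨.ofNat (nat_lit 126489), .ofNat (nat_lit 135006), .ofNat (nat_lit 131844), .ofNat (nat_lit 140360), .ofNat (nat_lit 131063), .ofNat (nat_lit 139482), .ofNat (nat_lit 136412), .ofNat (nat_lit 144831)⟩, ⟨.ofNat (nat_lit 0), .ofNat (nat_lit 0), .ofNat (nat_lit 0), .ofNat (nat_lit 0), .ofNat (nat_lit 0), .ofNat (nat_lit 0), .ofNat (nat_lit 0), .ofNat (nat_lit 0)⟩⟩, []⟩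
noncomputable def p004_l64 : Lf2 := ⟨nat_lit 0, nat_lit 5, [nat_lit 4, nat_lit 5, nat_lit 5, nat_lit 20], true, nat_lit 0, nat_lit 0, nat_lit 0, nat_lit 0, ⟨nat_lit 0, nat_lit 0, nat_lit 1000, nat_lit 5, nat_lit 56, nat_lit 0, nat_lit 0, nat_lit 0, nat_lit 0, nat_lit 215, nat_lit 29400, nat_lit 257, nat_lit 65725724, nat_lit 0, nat_lit 0, nat_lit 470923, false, false⟩,
 nat_lit 0, nat_lit 0, nat_lit 0, nat_lit 5609, nat_lit 4903, nat_lit 0, nat_lit 0, nat_lit 0, nat_lit 0, nat_lit 0, nat_lit 0, nat_lit 0, nat_lit 0, nat_lit 19842657915623, nat_lit 115, nat_lit 1000000, nat_lit 0, nat_lit 0, [(nat_lit 3, [(nat_lit 6, nat_lit 1000)])],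
 ⟨p004_k4, nat_lit 0, nat_lit 0, nat_lit 224, nat_lit 0, nat_lit 0, [nat_lit 3341142858, nat_lit 1499600000, nat_lit 23600000], [], [nat_lit 13484400300, nat_lit 13971741193, nat_lit 13233861252, nat_lit 13721256863], nat_lit 0, nat_lit 0, nat_lit 0, nat_lit 0, nat_lit 0, nat_lit 0, [], [nat_lit 25, nat_lit 40, nat_lit 20, nat_lit 80, nat_lit 17, nat_lit 289, nat_lit 75, nat_lit 9]⟩, C1.Rw.none,
 ⟨nat_lit 6519, nat_lit 6709, ⟨.ofNat (nat_lit 125122), .ofNat (nat_lit 133737), .ofNat (nat_lit 135841), .ofNat (nat_lit 144456), .ofNat (nat_lit 134132), .ofNat (nat_lit 142551), .ofNat (nat_lit 144831), .ofNat (nat_lit 153250)⟩, ⟨.ofNat (nat_lit 0), .ofNat (nat_lit 0), .ofNat (nat_lit 0), .ofNat (nat_lit 0), .ofNat (nat_lit 0), .ofNat (nat_lit 0), .ofNat (nat_lit 0), .ofNat (nat_lit 0)⟩⟩, []⟩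
noncomputable def p004_l65 : Lf2 := ⟨nat_lit 1, nat_lit 5, [nat_lit 4, nat_lit 5, nat_lit 5, nat_lit 20], false, nat_lit 0, nat_lit 0, nat_lit 0, nat_lit 0, zbN0,
 nat_lit 0, nat_lit 0, nat_lit 0, nat_lit 0, nat_lit 0, nat_lit 0, nat_lit 0, nat_lit 0, nat_lit 0, nat_lit 0, nat_lit 0, nat_lit 0, nat_lit 0, nat_lit 0, nat_lit 0, nat_lit 0, nat_lit 0, nat_lit 0, [],
 C1.Rw.none, C1.Rw.none,
 zbF0, []⟩
noncomputable def b_NL_550_550_0_0 : St := ⟨false, nat_lit 0, nat_lit 0, nat_lit 1, nat_lit 20, nat_lit 220, nat_lit 230, nat_lit 220, nat_lit 240, nat_lit 4, nat_lit 20, nat_lit 0, nat_lit 0, nat_lit 0, nat_lit 0, nat_lit 0, nat_lit 0, nat_lit 20, nat_lit 40, nat_lit 0, nat_lit 0, nat_lit 0, nat_lit 0⟩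
theorem d_NL_550_550_0_0 (h : EB TB.env) : Dead b_NL_550_550_0_0 := chkB_sound0 h (T :=
(.ord (.spl (nat_lit 6) (nat_lit 28)
(.spl (nat_lit 2) (nat_lit 16)
(.spl (nat_lit 1) (nat_lit 225)
(.leaf p004_l48)
(.ord (.spl (nat_lit 6) (nat_lit 24)
(.leaf p004_l49)
(.spl (nat_lit 2) (nat_lit 8)
(.spl (nat_lit 0) (nat_lit 228)
(.ord (.spl (nat_lit 0) (nat_lit 227)
(.ord (.leaf p004_l50))
(.leaf p004_l51)))
(.leaf p004_l52))
(.spl (nat_lit 2) (nat_lit 12)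
(.spl (nat_lit 1) (nat_lit 228)
(.leaf p004_l53)
(.ord (.spl (nat_lit 0) (nat_lit 229)
(.ord (.spl (nat_lit 8) (nat_lit 800)
(.spl (nat_lit 7) (nat_lit 600)
(.leaf p004_l54)
(.leaf p004_l55))
(.leaf p004_l56)))
(.spl (nat_lit 1) (nat_lit 229)
(.spl (nat_lit 8) (nat_lit 800)
(.spl (nat_lit 7) (nat_lit 600)
(.leaf p004_l57)
(.leaf p004_l58))
(.leaf p004_l59))
(.spl (nat_lit 8) (nat_lit 800)
(.spl (nat_lit 7) (nat_lit 600)
(.leaf p004_l60)
(.leaf p004_l61))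
(.leaf p004_l62))))))
(.leaf p004_l63))))))
(.leaf p004_l64))
(.leaf p004_l65)))) (by decide +kernel)
noncomputable def p004_l66 : Lf2 := ⟨nat_lit 0, nat_lit 5, [nat_lit 4, nat_lit 5, nat_lit 5, nat_lit 20], true, nat_lit 0, nat_lit 0, nat_lit 0, nat_lit 0, ⟨nat_lit 0, nat_lit 0, nat_lit 1000, nat_lit 5, nat_lit 54, nat_lit 0, nat_lit 0, nat_lit 0, nat_lit 0, nat_lit 215, nat_lit 28017, nat_lit 256, nat_lit 65790908, nat_lit 0, nat_lit 0, nat_lit 451606, false, false⟩,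
 nat_lit 0, nat_lit 0, nat_lit 0, nat_lit 0, nat_lit 4713, nat_lit 0, nat_lit 220, nat_lit 0, nat_lit 0, nat_lit 0, nat_lit 0, nat_lit 0, nat_lit 0, nat_lit 0, nat_lit 115, nat_lit 1000000, nat_lit 0, nat_lit 0, [(nat_lit 3, [(nat_lit 6, nat_lit 1000)])],
 ⟨p004_k18, nat_lit 0, nat_lit 0, nat_lit 291, nat_lit 0, nat_lit 0, [nat_lit 3341142858, nat_lit 1499600000, nat_lit 23600000], [], [nat_lit 14149283300, nat_lit 14743109547, nat_lit 13194996199, nat_lit 13796894884], nat_lit 0, nat_lit 0, nat_lit 0, nat_lit 0, nat_lit 0, nat_lit 0, [], [nat_lit 25, nat_lit 40, nat_lit 20, nat_lit 80, nat_lit 17, nat_lit 289, nat_lit 75, nat_lit 9]⟩, C1.Rw.none,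
 ⟨nat_lit 6324, nat_lit 6520, ⟨.ofNat (nat_lit 108876), .ofNat (nat_lit 142551), .ofNat (nat_lit 119575), .ofNat (nat_lit 153250), .ofNat (nat_lit 118272), .ofNat (nat_lit 151177), .ofNat (nat_lit 128956), .ofNat (nat_lit 161861)⟩, ⟨.ofNat (nat_lit 0), .ofNat (nat_lit 0), .ofNat (nat_lit 0), .ofNat (nat_lit 0), .ofNat (nat_lit 0), .ofNat (nat_lit 0), .ofNat (nat_lit 0), .ofNat (nat_lit 0)⟩⟩, [⟨nat_lit 0, nat_lit 100, nat_lit 99, nat_lit 30, nat_lit 411322327⟩]⟩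
noncomputable def p004_l67 : Lf2 := ⟨nat_lit 0, nat_lit 5, [nat_lit 4, nat_lit 5, nat_lit 5, nat_lit 20], true, nat_lit 0, nat_lit 0, nat_lit 0, nat_lit 0, ⟨nat_lit 0, nat_lit 0, nat_lit 1000, nat_lit 5, nat_lit 49, nat_lit 0, nat_lit 0, nat_lit 0, nat_lit 0, nat_lit 215, nat_lit 22817, nat_lit 252, nat_lit 66000170, nat_lit 0, nat_lit 0, nat_lit 387702, false, false⟩,
 nat_lit 0, nat_lit 0, nat_lit 0, nat_lit 7237, nat_lit 4775, nat_lit 0, nat_lit 233, nat_lit 0, nat_lit 0, nat_lit 0, nat_lit 0, nat_lit 0, nat_lit 0, nat_lit 0, nat_lit 115, nat_lit 1000000, nat_lit 0, nat_lit 0, [(nat_lit 3, [(nat_lit 6, nat_lit 1000)])],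
 ⟨p004_k18, nat_lit 0, nat_lit 0, nat_lit 291, nat_lit 0, nat_lit 0, [nat_lit 3341142858, nat_lit 1499600000, nat_lit 23600000], [], [nat_lit 14168480730, nat_lit 14763045271, nat_lit 13855956732, nat_lit 14461993356], nat_lit 0, nat_lit 0, nat_lit 0, nat_lit 0, nat_lit 0, nat_lit 0, [], [nat_lit 25, nat_lit 40, nat_lit 20, nat_lit 80, nat_lit 17, nat_lit 289, nat_lit 75, nat_lit 9]⟩, C1.Rw.none,
 ⟨nat_lit 6324, nat_lit 6520, ⟨.ofNat (nat_lit 108876), .ofNat (nat_lit 117294), .ofNat (nat_lit 119575), .ofNat (nat_lit 127994), .ofNat (nat_lit 118272), .ofNat (nat_lit 126498), .ofNat (nat_lit 128956), .ofNat (nat_lit 137182)⟩, ⟨.ofNat (nat_lit 0), .ofNat (nat_lit 0), .ofNat (nat_lit 0), .ofNat (nat_lit 0), .ofNat (nat_lit 0), .ofNat (nat_lit 0), .ofNat (nat_lit 0), .ofNat (nat_lit 0)⟩⟩, [⟨nat_lit 0, nat_lit 100, nat_lit 99, nat_lit 30, nat_lit 1884459672⟩]⟩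
noncomputable def p004_l68 : Lf2 := ⟨nat_lit 0, nat_lit 5, [nat_lit 4, nat_lit 5, nat_lit 5, nat_lit 20], true, nat_lit 0, nat_lit 0, nat_lit 0, nat_lit 0, ⟨nat_lit 0, nat_lit 0, nat_lit 1000, nat_lit 5, nat_lit 51, nat_lit 0, nat_lit 0, nat_lit 0, nat_lit 0, nat_lit 215, nat_lit 24067, nat_lit 253, nat_lit 65945290, nat_lit 0, nat_lit 0, nat_lit 404758, false, false⟩,
 nat_lit 0, nat_lit 0, nat_lit 0, nat_lit 7226, nat_lit 4775, nat_lit 0, nat_lit 231, nat_lit 0, nat_lit 0, nat_lit 0, nat_lit 0, nat_lit 0, nat_lit 0, nat_lit 0, nat_lit 115, nat_lit 1000000, nat_lit 0, nat_lit 0, [(nat_lit 3, [(nat_lit 6, nat_lit 1000)])],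
 ⟨p004_k18, nat_lit 0, nat_lit 0, nat_lit 283, nat_lit 0, nat_lit 0, [nat_lit 3341142858, nat_lit 1499600000, nat_lit 23600000], [], [nat_lit 13860454174, nat_lit 14158975044, nat_lit 13617711693, nat_lit 13918764089], nat_lit 0, nat_lit 0, nat_lit 0, nat_lit 0, nat_lit 0, nat_lit 0, [], [nat_lit 25, nat_lit 40, nat_lit 20, nat_lit 80, nat_lit 17, nat_lit 289, nat_lit 75, nat_lit 9]⟩, C1.Rw.none,
 ⟨nat_lit 6422, nat_lit 6520, ⟨.ofNat (nat_lit 117294), .ofNat (nat_lit 125713), .ofNat (nat_lit 122644), .ofNat (nat_lit 131063), .ofNat (nat_lit 121920), .ofNat (nat_lit 130242), .ofNat (nat_lit 127266), .ofNat (nat_lit 135588)⟩, ⟨.ofNat (nat_lit 0), .ofNat (nat_lit 0), .ofNat (nat_lit 0), .ofNat (nat_lit 0), .ofNat (nat_lit 0), .ofNat (nat_lit 0), .ofNat (nat_lit 0), .ofNat (nat_lit 0)⟩⟩, [⟨nat_lit 0, nat_lit 100, nat_lit 99, nat_lit 27, nat_lit 179799724⟩]⟩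
noncomputable def p004_l69 : Lf2 := ⟨nat_lit 0, nat_lit 5, [nat_lit 4, nat_lit 5, nat_lit 5, nat_lit 20], true, nat_lit 0, nat_lit 0, nat_lit 0, nat_lit 0, ⟨nat_lit 0, nat_lit 0, nat_lit 1000, nat_lit 5, nat_lit 52, nat_lit 0, nat_lit 0, nat_lit 0, nat_lit 0, nat_lit 215, nat_lit 25350, nat_lit 254, nat_lit 65873945, nat_lit 0, nat_lit 0, nat_lit 426609, false, false⟩,
 nat_lit 0, nat_lit 0, nat_lit 0, nat_lit 7230, nat_lit 4775, nat_lit 0, nat_lit 232, nat_lit 0, nat_lit 0, nat_lit 0, nat_lit 0, nat_lit 0, nat_lit 0, nat_lit 0, nat_lit 115, nat_lit 1000000, nat_lit 0, nat_lit 0, [(nat_lit 3, [(nat_lit 6, nat_lit 1000)])],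
 ⟨p004_k18, nat_lit 0, nat_lit 0, nat_lit 283, nat_lit 0, nat_lit 0, [nat_lit 3341142858, nat_lit 1499600000, nat_lit 23600000], [], [nat_lit 13857635424, nat_lit 14158975044, nat_lit 13615843902, nat_lit 13918764089], nat_lit 0, nat_lit 0, nat_lit 0, nat_lit 0, nat_lit 0, nat_lit 0, [], [nat_lit 25, nat_lit 40, nat_lit 20, nat_lit 80, nat_lit 17, nat_lit 289, nat_lit 75, nat_lit 9]⟩, C1.Rw.none,
 ⟨nat_lit 6422, nat_lit 6520, ⟨.ofNat (nat_lit 122644), .ofNat (nat_lit 131063), .ofNat (nat_lit 125854), .ofNat (nat_lit 134272), .ofNat (nat_lit 127266), .ofNat (nat_lit 135588), .ofNat (nat_lit 130473), .ofNat (nat_lit 138795)⟩, ⟨.ofNat (nat_lit 0), .ofNat (nat_lit 0), .ofNat (nat_lit 0), .ofNat (nat_lit 0), .ofNat (nat_lit 0), .ofNat (nat_lit 0), .ofNat (nat_lit 0), .ofNat (nat_lit 0)⟩⟩, [⟨nat_lit 0, nat_lit 100, nat_lit 100, nat_lit 29, nat_lit 410951524⟩]⟩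
noncomputable def p004_l70 : Lf2 := ⟨nat_lit 0, nat_lit 5, [nat_lit 4, nat_lit 5, nat_lit 5, nat_lit 20], true, nat_lit 0, nat_lit 0, nat_lit 0, nat_lit 0, ⟨nat_lit 0, nat_lit 0, nat_lit 1000, nat_lit 5, nat_lit 53, nat_lit 0, nat_lit 0, nat_lit 0, nat_lit 0, nat_lit 215, nat_lit 26667, nat_lit 255, nat_lit 65853063, nat_lit 0, nat_lit 0, nat_lit 432938, false, false⟩,
 nat_lit 0, nat_lit 0, nat_lit 0, nat_lit 6797, nat_lit 4775, nat_lit 0, nat_lit 232, nat_lit 0, nat_lit 0, nat_lit 0, nat_lit 0, nat_lit 0, nat_lit 0, nat_lit 0, nat_lit 115, nat_lit 1000000, nat_lit 0, nat_lit 0, [(nat_lit 3, [(nat_lit 6, nat_lit 1000)])],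
 ⟨p004_k18, nat_lit 0, nat_lit 0, nat_lit 283, nat_lit 0, nat_lit 0, [nat_lit 3341142858, nat_lit 1499600000, nat_lit 23600000], [], [nat_lit 13857635424, nat_lit 14037767719, nat_lit 13615843902, nat_lit 13797596014], nat_lit 0, nat_lit 0, nat_lit 0, nat_lit 0, nat_lit 0, nat_lit 0, [], [nat_lit 25, nat_lit 40, nat_lit 20, nat_lit 80, nat_lit 17, nat_lit 289, nat_lit 75, nat_lit 9]⟩, C1.Rw.none,
 ⟨nat_lit 6461, nat_lit 6520, ⟨.ofNat (nat_lit 125854), .ofNat (nat_lit 134272), .ofNat (nat_lit 126924), .ofNat (nat_lit 135342), .ofNat (nat_lit 128631), .ofNat (nat_lit 136992), .ofNat (nat_lit 129700), .ofNat (nat_lit 138061)⟩, ⟨.ofNat (nat_lit 0), .ofNat (nat_lit 0), .ofNat (nat_lit 0), .ofNat (nat_lit 0), .ofNat (nat_lit 0), .ofNat (nat_lit 0), .ofNat (nat_lit 0), .ofNat (nat_lit 0)⟩⟩, [⟨nat_lit 0, nat_lit 100, nat_lit 100, nat_lit 30, nat_lit 411782802⟩]⟩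
noncomputable def p004_l71 : Lf2 := ⟨nat_lit 0, nat_lit 5, [nat_lit 4, nat_lit 5, nat_lit 5, nat_lit 20], true, nat_lit 0, nat_lit 0, nat_lit 0, nat_lit 0, ⟨nat_lit 0, nat_lit 0, nat_lit 1000, nat_lit 5, nat_lit 53, nat_lit 0, nat_lit 0, nat_lit 0, nat_lit 0, nat_lit 215, nat_lit 26667, nat_lit 255, nat_lit 65850418, nat_lit 0, nat_lit 0, nat_lit 433737, false, false⟩,
 nat_lit 0, nat_lit 0, nat_lit 0, nat_lit 2542, nat_lit 4729, nat_lit 0, nat_lit 0, nat_lit 0, nat_lit 0, nat_lit 0, nat_lit 0, nat_lit 0, nat_lit 0, nat_lit 0, nat_lit 54, nat_lit 400000, nat_lit 0, nat_lit 0, [(nat_lit 3, [(nat_lit 5, nat_lit 1000)])],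
 ⟨p004_k10, nat_lit 0, nat_lit 0, nat_lit 0, nat_lit 0, nat_lit 0, [nat_lit 2385360001, nat_lit 965600001, nat_lit 151199999], [], [nat_lit 14693652275, nat_lit 14757191885, nat_lit 14454174903, nat_lit 14507749108], nat_lit 0, nat_lit 0, nat_lit 0, nat_lit 0, nat_lit 0, nat_lit 0, [], [nat_lit 96, nat_lit 40, nat_lit 20, nat_lit 40]⟩, C1.Rw.none,
 ⟨nat_lit 6500, nat_lit 6520, ⟨.ofNat (nat_lit 126924), .ofNat (nat_lit 135342), .ofNat (nat_lit 127994), .ofNat (nat_lit 136412), .ofNat (nat_lit 127851), .ofNat (nat_lit 136250), .ofNat (nat_lit 128921), .ofNat (nat_lit 137320)⟩, ⟨.ofNat (nat_lit 0), .ofNat (nat_lit 0), .ofNat (nat_lit 0), .ofNat (nat_lit 0), .ofNat (nat_lit 0), .ofNat (nat_lit 0), .ofNat (nat_lit 0), .ofNat (nat_lit 0)⟩⟩, [⟨nat_lit 0, nat_lit 100, nat_lit 100, nat_lit 30, nat_lit 407672298⟩]⟩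
noncomputable def p004_l72 : Lf2 := ⟨nat_lit 2, nat_lit 5, [nat_lit 4, nat_lit 5, nat_lit 5, nat_lit 20], true, nat_lit 0, nat_lit 0, nat_lit 0, nat_lit 0, zbN0,
 nat_lit 0, nat_lit 0, nat_lit 0, nat_lit 0, nat_lit 0, nat_lit 0, nat_lit 0, nat_lit 0, nat_lit 0, nat_lit 0, nat_lit 0, nat_lit 0, nat_lit 0, nat_lit 0, nat_lit 0, nat_lit 0, nat_lit 0, nat_lit 0, [],
 ⟨p004_k18, nat_lit 0, nat_lit 0, nat_lit 283, nat_lit 0, nat_lit 0, [], [], [], nat_lit 0, nat_lit 0, nat_lit 0, nat_lit 0, nat_lit 0, nat_lit 0, [], [nat_lit 25, nat_lit 40, nat_lit 20, nat_lit 80, nat_lit 17, nat_lit 289, nat_lit 75, nat_lit 9]⟩, C1.Rw.none,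
 zbF0, []⟩
noncomputable def p004_l73 : Lf2 := ⟨nat_lit 3, nat_lit 5, [nat_lit 4, nat_lit 5, nat_lit 5, nat_lit 20], false, nat_lit 0, nat_lit 0, nat_lit 0, nat_lit 0, zbN0,
 nat_lit 0, nat_lit 0, nat_lit 0, nat_lit 0, nat_lit 0, nat_lit 0, nat_lit 0, nat_lit 0, nat_lit 0, nat_lit 0, nat_lit 0, nat_lit 0, nat_lit 0, nat_lit 0, nat_lit 0, nat_lit 0, nat_lit 0, nat_lit 0, [],
 C1.Rw.none, ⟨p004_k28, nat_lit 0, nat_lit 0, nat_lit 282, nat_lit 0, nat_lit 0, [], [], [], nat_lit 0, nat_lit 0, nat_lit 0, nat_lit 0, nat_lit 0, nat_lit 0, [], [nat_lit 51, nat_lit 40, nat_lit 20, nat_lit 80, nat_lit 1, nat_lit 289, nat_lit 75, nat_lit 9]⟩,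
 zbF0, []⟩
noncomputable def p004_l74 : Lf2 := ⟨nat_lit 0, nat_lit 5, [nat_lit 4, nat_lit 5, nat_lit 5, nat_lit 20], true, nat_lit 0, nat_lit 0, nat_lit 0, nat_lit 0, ⟨nat_lit 0, nat_lit 0, nat_lit 1000, nat_lit 5, nat_lit 53, nat_lit 0, nat_lit 0, nat_lit 0, nat_lit 0, nat_lit 215, nat_lit 26667, nat_lit 255, nat_lit 65834688, nat_lit 0, nat_lit 0, nat_lit 438483, false, false⟩,
 nat_lit 0, nat_lit 0, nat_lit 0, nat_lit 2544, nat_lit 4720, nat_lit 0, nat_lit 0, nat_lit 0, nat_lit 0, nat_lit 0, nat_lit 0, nat_lit 0, nat_lit 0, nat_lit 0, nat_lit 54, nat_lit 400000, nat_lit 0, nat_lit 0, [(nat_lit 3, [(nat_lit 5, nat_lit 1000)])],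
 ⟨p004_k29, nat_lit 0, nat_lit 0, nat_lit 0, nat_lit 0, nat_lit 0, [nat_lit 2385360001, nat_lit 965600001, nat_lit 151199999], [], [nat_lit 14751609575, nat_lit 14814921580, nat_lit 14512672778, nat_lit 14566205460], nat_lit 0, nat_lit 0, nat_lit 0, nat_lit 0, nat_lit 0, nat_lit 0, [], [nat_lit 96, nat_lit 40, nat_lit 20, nat_lit 40]⟩, C1.Rw.none,
 ⟨nat_lit 6480, nat_lit 6500, ⟨.ofNat (nat_lit 127851), .ofNat (nat_lit 136250), .ofNat (nat_lit 128921), .ofNat (nat_lit 137320), .ofNat (nat_lit 128777), .ofNat (nat_lit 137157), .ofNat (nat_lit 129846), .ofNat (nat_lit 138226)⟩, ⟨.ofNat (nat_lit 0), .ofNat (nat_lit 0), .ofNat (nat_lit 0), .ofNat (nat_lit 0), .ofNat (nat_lit 0), .ofNat (nat_lit 0), .ofNat (nat_lit 0), .ofNat (nat_lit 0)⟩⟩, [⟨nat_lit 0, nat_lit 100, nat_lit 100, nat_lit 30, nat_lit 406512638⟩]⟩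
noncomputable def p004_l75 : Lf2 := ⟨nat_lit 2, nat_lit 5, [nat_lit 4, nat_lit 5, nat_lit 5, nat_lit 20], true, nat_lit 0, nat_lit 0, nat_lit 0, nat_lit 0, zbN0,
 nat_lit 0, nat_lit 0, nat_lit 0, nat_lit 0, nat_lit 0, nat_lit 0, nat_lit 0, nat_lit 0, nat_lit 0, nat_lit 0, nat_lit 0, nat_lit 0, nat_lit 0, nat_lit 0, nat_lit 0, nat_lit 0, nat_lit 0, nat_lit 0, [],
 ⟨p004_k30, nat_lit 0, nat_lit 0, nat_lit 283, nat_lit 0, nat_lit 0, [], [], [], nat_lit 0, nat_lit 0, nat_lit 0, nat_lit 0, nat_lit 0, nat_lit 0, [], [nat_lit 25, nat_lit 40, nat_lit 20, nat_lit 80, nat_lit 17, nat_lit 289, nat_lit 75, nat_lit 9]⟩, C1.Rw.none,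
 zbF0, []⟩
noncomputable def p004_l76 : Lf2 := ⟨nat_lit 3, nat_lit 5, [nat_lit 4, nat_lit 5, nat_lit 5, nat_lit 20], false, nat_lit 0, nat_lit 0, nat_lit 0, nat_lit 0, zbN0,
 nat_lit 0, nat_lit 0, nat_lit 0, nat_lit 0, nat_lit 0, nat_lit 0, nat_lit 0, nat_lit 0, nat_lit 0, nat_lit 0, nat_lit 0, nat_lit 0, nat_lit 0, nat_lit 0, nat_lit 0, nat_lit 0, nat_lit 0, nat_lit 0, [],
 C1.Rw.none, ⟨p004_k28, nat_lit 0, nat_lit 0, nat_lit 282, nat_lit 0, nat_lit 0, [], [], [], nat_lit 0, nat_lit 0, nat_lit 0, nat_lit 0, nat_lit 0, nat_lit 0, [], [nat_lit 51, nat_lit 40, nat_lit 20, nat_lit 80, nat_lit 1, nat_lit 289, nat_lit 75, nat_lit 9]⟩,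
 zbF0, []⟩
noncomputable def p004_l77 : Lf2 := ⟨nat_lit 0, nat_lit 5, [nat_lit 4, nat_lit 5, nat_lit 5, nat_lit 20], true, nat_lit 0, nat_lit 0, nat_lit 0, nat_lit 0, ⟨nat_lit 0, nat_lit 0, nat_lit 1000, nat_lit 5, nat_lit 54, nat_lit 0, nat_lit 0, nat_lit 0, nat_lit 0, nat_lit 215, nat_lit 26667, nat_lit 255, nat_lit 65818890, nat_lit 0, nat_lit 0, nat_lit 443233, false, false⟩,
 nat_lit 0, nat_lit 0, nat_lit 0, nat_lit 0, nat_lit 4755, nat_lit 0, nat_lit 214, nat_lit 0, nat_lit 0, nat_lit 0, nat_lit 0, nat_lit 0, nat_lit 0, nat_lit 0, nat_lit 115, nat_lit 1000000, nat_lit 0, nat_lit 0, [(nat_lit 3, [(nat_lit 6, nat_lit 1000)])],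
 ⟨p004_k31, nat_lit 0, nat_lit 0, nat_lit 283, nat_lit 0, nat_lit 0, [nat_lit 3341142858, nat_lit 1499600000, nat_lit 23600000], [], [nat_lit 13994073671, nat_lit 14052942393, nat_lit 13753512984, nat_lit 13813982700], nat_lit 0, nat_lit 0, nat_lit 0, nat_lit 0, nat_lit 0, nat_lit 0, [], [nat_lit 25, nat_lit 40, nat_lit 20, nat_lit 80, nat_lit 17, nat_lit 289, nat_lit 75, nat_lit 9]⟩, C1.Rw.none,
 ⟨nat_lit 6461, nat_lit 6481, ⟨.ofNat (nat_lit 128777), .ofNat (nat_lit 137157), .ofNat (nat_lit 129846), .ofNat (nat_lit 138226), .ofNat (nat_lit 129700), .ofNat (nat_lit 138061), .ofNat (nat_lit 130770), .ofNat (nat_lit 139130)⟩, ⟨.ofNat (nat_lit 0), .ofNat (nat_lit 0), .ofNat (nat_lit 0), .ofNat (nat_lit 0), .ofNat (nat_lit 0), .ofNat (nat_lit 0), .ofNat (nat_lit 0), .ofNat (nat_lit 0)⟩⟩, [⟨nat_lit 0, nat_lit 100, nat_lit 100, nat_lit 31, nat_lit 409699528⟩]⟩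
noncomputable def p004_l78 : Lf2 := ⟨nat_lit 1, nat_lit 5, [nat_lit 4, nat_lit 5, nat_lit 5, nat_lit 20], false, nat_lit 0, nat_lit 0, nat_lit 0, nat_lit 0, zbN0,
 nat_lit 0, nat_lit 0, nat_lit 0, nat_lit 0, nat_lit 0, nat_lit 0, nat_lit 0, nat_lit 0, nat_lit 0, nat_lit 0, nat_lit 0, nat_lit 0, nat_lit 0, nat_lit 0, nat_lit 0, nat_lit 0, nat_lit 0, nat_lit 0, [],
 C1.Rw.none, C1.Rw.none,
 zbF0, []⟩
noncomputable def p004_l79 : Lf2 := ⟨nat_lit 1, nat_lit 5, [nat_lit 4, nat_lit 5, nat_lit 5, nat_lit 20], false, nat_lit 0, nat_lit 0, nat_lit 0, nat_lit 0, zbN0,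
 nat_lit 0, nat_lit 0, nat_lit 0, nat_lit 0, nat_lit 0, nat_lit 0, nat_lit 0, nat_lit 0, nat_lit 0, nat_lit 0, nat_lit 0, nat_lit 0, nat_lit 0, nat_lit 0, nat_lit 0, nat_lit 0, nat_lit 0, nat_lit 0, [],
 C1.Rw.none, C1.Rw.none,
 zbF0, []⟩
noncomputable def p004_l80 : Lf2 := ⟨nat_lit 0, nat_lit 5, [nat_lit 4, nat_lit 5, nat_lit 5, nat_lit 20], true, nat_lit 0, nat_lit 0, nat_lit 0, nat_lit 0, ⟨nat_lit 0, nat_lit 0, nat_lit 1000, nat_lit 5, nat_lit 53, nat_lit 0, nat_lit 0, nat_lit 0, nat_lit 0, nat_lit 215, nat_lit 26667, nat_lit 255, nat_lit 65834688, nat_lit 0, nat_lit 0, nat_lit 438483, false, false⟩,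
 nat_lit 0, nat_lit 0, nat_lit 0, nat_lit 8878, nat_lit 4720, nat_lit 0, nat_lit 0, nat_lit 0, nat_lit 0, nat_lit 0, nat_lit 0, nat_lit 0, nat_lit 0, nat_lit 0, nat_lit 54, nat_lit 400000, nat_lit 0, nat_lit 0, [(nat_lit 3, [(nat_lit 5, nat_lit 1000)])],
 ⟨p004_k29, nat_lit 0, nat_lit 0, nat_lit 0, nat_lit 0, nat_lit 0, [nat_lit 2385360001, nat_lit 965600001, nat_lit 151199999], [], [nat_lit 14751609575, nat_lit 14814921580, nat_lit 14512672778, nat_lit 14566205460], nat_lit 0, nat_lit 0, nat_lit 0, nat_lit 0, nat_lit 0, nat_lit 0, [], [nat_lit 96, nat_lit 40, nat_lit 20, nat_lit 40]⟩, C1.Rw.none,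
 ⟨nat_lit 6480, nat_lit 6500, ⟨.ofNat (nat_lit 127851), .ofNat (nat_lit 136250), .ofNat (nat_lit 128921), .ofNat (nat_lit 137320), .ofNat (nat_lit 128777), .ofNat (nat_lit 137157), .ofNat (nat_lit 129846), .ofNat (nat_lit 138226)⟩, ⟨.ofNat (nat_lit 0), .ofNat (nat_lit 0), .ofNat (nat_lit 0), .ofNat (nat_lit 0), .ofNat (nat_lit 0), .ofNat (nat_lit 0), .ofNat (nat_lit 0), .ofNat (nat_lit 0)⟩⟩, [⟨nat_lit 0, nat_lit 100, nat_lit 100, nat_lit 31, nat_lit 406512638⟩]⟩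
noncomputable def p004_l81 : Lf2 := ⟨nat_lit 2, nat_lit 5, [nat_lit 4, nat_lit 5, nat_lit 5, nat_lit 20], true, nat_lit 0, nat_lit 0, nat_lit 0, nat_lit 0, zbN0,
 nat_lit 0, nat_lit 0, nat_lit 0, nat_lit 0, nat_lit 0, nat_lit 0, nat_lit 0, nat_lit 0, nat_lit 0, nat_lit 0, nat_lit 0, nat_lit 0, nat_lit 0, nat_lit 0, nat_lit 0, nat_lit 0, nat_lit 0, nat_lit 0, [],
 ⟨p004_k30, nat_lit 0, nat_lit 0, nat_lit 283, nat_lit 0, nat_lit 0, [], [], [], nat_lit 0, nat_lit 0, nat_lit 0, nat_lit 0, nat_lit 0, nat_lit 0, [], [nat_lit 25, nat_lit 40, nat_lit 20, nat_lit 80, nat_lit 17, nat_lit 289, nat_lit 75, nat_lit 9]⟩, C1.Rw.none,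
 zbF0, []⟩
noncomputable def p004_l82 : Lf2 := ⟨nat_lit 3, nat_lit 5, [nat_lit 4, nat_lit 5, nat_lit 5, nat_lit 20], false, nat_lit 0, nat_lit 0, nat_lit 0, nat_lit 0, zbN0,
 nat_lit 0, nat_lit 0, nat_lit 0, nat_lit 0, nat_lit 0, nat_lit 0, nat_lit 0, nat_lit 0, nat_lit 0, nat_lit 0, nat_lit 0, nat_lit 0, nat_lit 0, nat_lit 0, nat_lit 0, nat_lit 0, nat_lit 0, nat_lit 0, [],
 C1.Rw.none, ⟨p004_k28, nat_lit 0, nat_lit 0, nat_lit 282, nat_lit 0, nat_lit 0, [], [], [], nat_lit 0, nat_lit 0, nat_lit 0, nat_lit 0, nat_lit 0, nat_lit 0, [], [nat_lit 51, nat_lit 40, nat_lit 20, nat_lit 80, nat_lit 1, nat_lit 289, nat_lit 75, nat_lit 9]⟩,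
 zbF0, []⟩
noncomputable def p004_l83 : Lf2 := ⟨nat_lit 0, nat_lit 5, [nat_lit 4, nat_lit 5, nat_lit 5, nat_lit 20], true, nat_lit 0, nat_lit 0, nat_lit 0, nat_lit 0, ⟨nat_lit 0, nat_lit 0, nat_lit 1000, nat_lit 5, nat_lit 53, nat_lit 0, nat_lit 0, nat_lit 0, nat_lit 0, nat_lit 215, nat_lit 26667, nat_lit 255, nat_lit 65837346, nat_lit 0, nat_lit 0, nat_lit 437681, false, false⟩,
 nat_lit 0, nat_lit 0, nat_lit 0, nat_lit 10683, nat_lit 4746, nat_lit 0, nat_lit 208, nat_lit 0, nat_lit 0, nat_lit 0, nat_lit 0, nat_lit 0, nat_lit 0, nat_lit 0, nat_lit 115, nat_lit 1000000, nat_lit 0, nat_lit 0, [(nat_lit 3, [(nat_lit 6, nat_lit 1000)])],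
 ⟨p004_k31, nat_lit 0, nat_lit 0, nat_lit 283, nat_lit 0, nat_lit 0, [nat_lit 3341142858, nat_lit 1499600000, nat_lit 23600000], [], [nat_lit 14014121401, nat_lit 14062374401, nat_lit 13773141390, nat_lit 13821356709], nat_lit 0, nat_lit 0, nat_lit 0, nat_lit 0, nat_lit 0, nat_lit 0, [], [nat_lit 25, nat_lit 40, nat_lit 20, nat_lit 80, nat_lit 17, nat_lit 289, nat_lit 75, nat_lit 9]⟩, C1.Rw.none,
 ⟨nat_lit 6461, nat_lit 6481, ⟨.ofNat (nat_lit 127707), .ofNat (nat_lit 136087), .ofNat (nat_lit 128777), .ofNat (nat_lit 137157), .ofNat (nat_lit 128631), .ofNat (nat_lit 136992), .ofNat (nat_lit 129700), .ofNat (nat_lit 138061)⟩, ⟨.ofNat (nat_lit 0), .ofNat (nat_lit 0), .ofNat (nat_lit 0), .ofNat (nat_lit 0), .ofNat (nat_lit 0), .ofNat (nat_lit 0), .ofNat (nat_lit 0), .ofNat (nat_lit 0)⟩⟩, [⟨nat_lit 0, nat_lit 100, nat_lit 100, nat_lit 31, nat_lit 408575760⟩]⟩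
noncomputable def p004_l84 : Lf2 := ⟨nat_lit 0, nat_lit 5, [nat_lit 4, nat_lit 5, nat_lit 5, nat_lit 20], true, nat_lit 0, nat_lit 0, nat_lit 0, nat_lit 0, ⟨nat_lit 0, nat_lit 0, nat_lit 1000, nat_lit 5, nat_lit 54, nat_lit 0, nat_lit 0, nat_lit 0, nat_lit 0, nat_lit 215, nat_lit 26667, nat_lit 255, nat_lit 65818890, nat_lit 0, nat_lit 0, nat_lit 443233, false, false⟩,
 nat_lit 0, nat_lit 0, nat_lit 0, nat_lit 2957, nat_lit 4711, nat_lit 0, nat_lit 0, nat_lit 0, nat_lit 0, nat_lit 0, nat_lit 0, nat_lit 0, nat_lit 0, nat_lit 0, nat_lit 54, nat_lit 400000, nat_lit 0, nat_lit 0, [(nat_lit 3, [(nat_lit 5, nat_lit 1000)])],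
 ⟨p004_k32, nat_lit 0, nat_lit 0, nat_lit 0, nat_lit 0, nat_lit 0, [nat_lit 2385360001, nat_lit 965600001, nat_lit 151199999], [], [nat_lit 14809483943, nat_lit 14872543383, nat_lit 14571087605, nat_lit 14624578763], nat_lit 0, nat_lit 0, nat_lit 0, nat_lit 0, nat_lit 0, nat_lit 0, [], [nat_lit 96, nat_lit 40, nat_lit 20, nat_lit 40]⟩, C1.Rw.none,
 ⟨nat_lit 6461, nat_lit 6481, ⟨.ofNat (nat_lit 128777), .ofNat (nat_lit 137157), .ofNat (nat_lit 129846), .ofNat (nat_lit 138226), .ofNat (nat_lit 129700), .ofNat (nat_lit 138061), .ofNat (nat_lit 130770), .ofNat (nat_lit 139130)⟩, ⟨.ofNat (nat_lit 0), .ofNat (nat_lit 0), .ofNat (nat_lit 0), .ofNat (nat_lit 0), .ofNat (nat_lit 0), .ofNat (nat_lit 0), .ofNat (nat_lit 0), .ofNat (nat_lit 0)⟩⟩, [⟨nat_lit 0, nat_lit 100, nat_lit 100, nat_lit 31, nat_lit 405763291⟩]⟩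
noncomputable def p004_l85 : Lf2 := ⟨nat_lit 2, nat_lit 5, [nat_lit 4, nat_lit 5, nat_lit 5, nat_lit 20], true, nat_lit 0, nat_lit 0, nat_lit 0, nat_lit 0, zbN0,
 nat_lit 0, nat_lit 0, nat_lit 0, nat_lit 0, nat_lit 0, nat_lit 0, nat_lit 0, nat_lit 0, nat_lit 0, nat_lit 0, nat_lit 0, nat_lit 0, nat_lit 0, nat_lit 0, nat_lit 0, nat_lit 0, nat_lit 0, nat_lit 0, [],
 ⟨p004_k31, nat_lit 0, nat_lit 0, nat_lit 283, nat_lit 0, nat_lit 0, [], [], [], nat_lit 0, nat_lit 0, nat_lit 0, nat_lit 0, nat_lit 0, nat_lit 0, [], [nat_lit 25, nat_lit 40, nat_lit 20, nat_lit 80, nat_lit 17, nat_lit 289, nat_lit 75, nat_lit 9]⟩, C1.Rw.none,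
 zbF0, []⟩
noncomputable def p004_l86 : Lf2 := ⟨nat_lit 3, nat_lit 5, [nat_lit 4, nat_lit 5, nat_lit 5, nat_lit 20], false, nat_lit 0, nat_lit 0, nat_lit 0, nat_lit 0, zbN0,
 nat_lit 0, nat_lit 0, nat_lit 0, nat_lit 0, nat_lit 0, nat_lit 0, nat_lit 0, nat_lit 0, nat_lit 0, nat_lit 0, nat_lit 0, nat_lit 0, nat_lit 0, nat_lit 0, nat_lit 0, nat_lit 0, nat_lit 0, nat_lit 0, [],
 C1.Rw.none, ⟨p004_k28, nat_lit 0, nat_lit 0, nat_lit 282, nat_lit 0, nat_lit 0, [], [], [], nat_lit 0, nat_lit 0, nat_lit 0, nat_lit 0, nat_lit 0, nat_lit 0, [], [nat_lit 51, nat_lit 40, nat_lit 20, nat_lit 80, nat_lit 1, nat_lit 289, nat_lit 75, nat_lit 9]⟩,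
 zbF0, []⟩
noncomputable def p004_l87 : Lf2 := ⟨nat_lit 0, nat_lit 5, [nat_lit 4, nat_lit 5, nat_lit 5, nat_lit 20], true, nat_lit 0, nat_lit 0, nat_lit 0, nat_lit 0, ⟨nat_lit 0, nat_lit 0, nat_lit 1000, nat_lit 5, nat_lit 54, nat_lit 0, nat_lit 0, nat_lit 0, nat_lit 0, nat_lit 215, nat_lit 26667, nat_lit 255, nat_lit 65804410, nat_lit 0, nat_lit 0, nat_lit 447571, false, false⟩,
 nat_lit 0, nat_lit 0, nat_lit 0, nat_lit 0, nat_lit 4745, nat_lit 0, nat_lit 206, nat_lit 0, nat_lit 0, nat_lit 0, nat_lit 0, nat_lit 0, nat_lit 0, nat_lit 0, nat_lit 115, nat_lit 1000000, nat_lit 0, nat_lit 0, [(nat_lit 3, [(nat_lit 6, nat_lit 1000)])],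
 ⟨p004_k33, nat_lit 0, nat_lit 0, nat_lit 283, nat_lit 0, nat_lit 0, [nat_lit 3341142858, nat_lit 1499600000, nat_lit 23600000], [], [nat_lit 14061909321, nat_lit 14181394341, nat_lit 13822176043, nat_lit 13943001152], nat_lit 0, nat_lit 0, nat_lit 0, nat_lit 0, nat_lit 0, nat_lit 0, [], [nat_lit 25, nat_lit 40, nat_lit 20, nat_lit 80, nat_lit 17, nat_lit 289, nat_lit 75, nat_lit 9]⟩, C1.Rw.none,
 ⟨nat_lit 6422, nat_lit 6462, ⟨.ofNat (nat_lit 128631), .ofNat (nat_lit 136992), .ofNat (nat_lit 130770), .ofNat (nat_lit 139130), .ofNat (nat_lit 130473), .ofNat (nat_lit 138795), .ofNat (nat_lit 132611), .ofNat (nat_lit 140933)⟩, ⟨.ofNat (nat_lit 0), .ofNat (nat_lit 0), .ofNat (nat_lit 0), .ofNat (nat_lit 0), .ofNat (nat_lit 0), .ofNat (nat_lit 0), .ofNat (nat_lit 0), .ofNat (nat_lit 0)⟩⟩, [⟨nat_lit 0, nat_lit 100, nat_lit 100, nat_lit 31, nat_lit 408429915⟩]⟩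
noncomputable def p004_l88 : Lf2 := ⟨nat_lit 0, nat_lit 5, [nat_lit 4, nat_lit 5, nat_lit 5, nat_lit 20], true, nat_lit 0, nat_lit 0, nat_lit 0, nat_lit 0, ⟨nat_lit 0, nat_lit 0, nat_lit 1000, nat_lit 5, nat_lit 54, nat_lit 0, nat_lit 0, nat_lit 0, nat_lit 0, nat_lit 215, nat_lit 26667, nat_lit 255, nat_lit 65804410, nat_lit 0, nat_lit 0, nat_lit 447571, false, false⟩,
 nat_lit 0, nat_lit 0, nat_lit 0, nat_lit 7559, nat_lit 4745, nat_lit 0, nat_lit 206, nat_lit 0, nat_lit 0, nat_lit 0, nat_lit 0, nat_lit 0, nat_lit 0, nat_lit 0, nat_lit 115, nat_lit 1000000, nat_lit 0, nat_lit 0, [(nat_lit 3, [(nat_lit 6, nat_lit 1000)])],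
 ⟨p004_k33, nat_lit 0, nat_lit 0, nat_lit 283, nat_lit 0, nat_lit 0, [nat_lit 3341142858, nat_lit 1499600000, nat_lit 23600000], [], [nat_lit 14061909321, nat_lit 14181394341, nat_lit 13822176043, nat_lit 13943001152], nat_lit 0, nat_lit 0, nat_lit 0, nat_lit 0, nat_lit 0, nat_lit 0, [], [nat_lit 25, nat_lit 40, nat_lit 20, nat_lit 80, nat_lit 17, nat_lit 289, nat_lit 75, nat_lit 9]⟩, C1.Rw.none,
 ⟨nat_lit 6422, nat_lit 6462, ⟨.ofNat (nat_lit 128631), .ofNat (nat_lit 136992), .ofNat (nat_lit 130770), .ofNat (nat_lit 139130), .ofNat (nat_lit 130473), .ofNat (nat_lit 138795), .ofNat (nat_lit 132611), .ofNat (nat_lit 140933)⟩, ⟨.ofNat (nat_lit 0), .ofNat (nat_lit 0), .ofNat (nat_lit 0), .ofNat (nat_lit 0), .ofNat (nat_lit 0), .ofNat (nat_lit 0), .ofNat (nat_lit 0), .ofNat (nat_lit 0)⟩⟩, [⟨nat_lit 0, nat_lit 100, nat_lit 100, nat_lit 31, nat_lit 408429915⟩]⟩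
noncomputable def p004_l89 : Lf2 := ⟨nat_lit 0, nat_lit 5, [nat_lit 4, nat_lit 5, nat_lit 5, nat_lit 20], true, nat_lit 0, nat_lit 0, nat_lit 0, nat_lit 0, ⟨nat_lit 0, nat_lit 0, nat_lit 1000, nat_lit 5, nat_lit 53, nat_lit 0, nat_lit 0, nat_lit 0, nat_lit 0, nat_lit 215, nat_lit 26667, nat_lit 255, nat_lit 65823539, nat_lit 0, nat_lit 0, nat_lit 441837, false, false⟩,
 nat_lit 0, nat_lit 0, nat_lit 0, nat_lit 7006, nat_lit 4726, nat_lit 0, nat_lit 189, nat_lit 0, nat_lit 0, nat_lit 0, nat_lit 0, nat_lit 0, nat_lit 0, nat_lit 0, nat_lit 115, nat_lit 1000000, nat_lit 0, nat_lit 0, [(nat_lit 3, [(nat_lit 6, nat_lit 1000)])],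
 ⟨p004_k34, nat_lit 0, nat_lit 0, nat_lit 285, nat_lit 0, nat_lit 0, [nat_lit 3341142858, nat_lit 1499600000, nat_lit 23600000], [], [nat_lit 14198609810, nat_lit 14497212126, nat_lit 13958851357, nat_lit 14259871035], nat_lit 0, nat_lit 0, nat_lit 0, nat_lit 0, nat_lit 0, nat_lit 0, [], [nat_lit 25, nat_lit 40, nat_lit 20, nat_lit 80, nat_lit 17, nat_lit 289, nat_lit 75, nat_lit 9]⟩, C1.Rw.none,
 ⟨nat_lit 6324, nat_lit 6423, ⟨.ofNat (nat_lit 121920), .ofNat (nat_lit 130242), .ofNat (nat_lit 132611), .ofNat (nat_lit 140933), .ofNat (nat_lit 126498), .ofNat (nat_lit 134724), .ofNat (nat_lit 137182), .ofNat (nat_lit 145408)⟩, ⟨.ofNat (nat_lit 0), .ofNat (nat_lit 0), .ofNat (nat_lit 0), .ofNat (nat_lit 0), .ofNat (nat_lit 0), .ofNat (nat_lit 0), .ofNat (nat_lit 0), .ofNat (nat_lit 0)⟩⟩, [⟨nat_lit 0, nat_lit 100, nat_lit 99, nat_lit 31, nat_lit 409640304⟩]⟩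
noncomputable def p004_l90 : Lf2 := ⟨nat_lit 0, nat_lit 5, [nat_lit 4, nat_lit 5, nat_lit 5, nat_lit 20], true, nat_lit 0, nat_lit 0, nat_lit 0, nat_lit 0, ⟨nat_lit 0, nat_lit 0, nat_lit 1000, nat_lit 5, nat_lit 56, nat_lit 0, nat_lit 0, nat_lit 0, nat_lit 0, nat_lit 215, nat_lit 29400, nat_lit 257, nat_lit 65716988, nat_lit 0, nat_lit 0, nat_lit 473492, false, false⟩,
 nat_lit 0, nat_lit 0, nat_lit 0, nat_lit 5980, nat_lit 4834, nat_lit 0, nat_lit 0, nat_lit 0, nat_lit 0, nat_lit 0, nat_lit 0, nat_lit 0, nat_lit 0, nat_lit 0, nat_lit 115, nat_lit 1000000, nat_lit 0, nat_lit 0, [(nat_lit 3, [(nat_lit 6, nat_lit 1000)])],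
 ⟨p004_k18, nat_lit 0, nat_lit 0, nat_lit 236, nat_lit 0, nat_lit 0, [nat_lit 3341142858, nat_lit 1499600000, nat_lit 23600000], [], [nat_lit 14247355226, nat_lit 14840923282, nat_lit 14001044237, nat_lit 14523031157], nat_lit 0, nat_lit 0, nat_lit 0, nat_lit 0, nat_lit 0, nat_lit 0, [], [nat_lit 25, nat_lit 40, nat_lit 20, nat_lit 80, nat_lit 17, nat_lit 289, nat_lit 75, nat_lit 9]⟩, C1.Rw.none,
 ⟨nat_lit 6324, nat_lit 6520, ⟨.ofNat (nat_lit 125713), .ofNat (nat_lit 134132), .ofNat (nat_lit 136412), .ofNat (nat_lit 144831), .ofNat (nat_lit 134724), .ofNat (nat_lit 142951), .ofNat (nat_lit 145408), .ofNat (nat_lit 153635)⟩, ⟨.ofNat (nat_lit 0), .ofNat (nat_lit 0), .ofNat (nat_lit 0), .ofNat (nat_lit 0), .ofNat (nat_lit 0), .ofNat (nat_lit 0), .ofNat (nat_lit 0), .ofNat (nat_lit 0)⟩⟩, []⟩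
noncomputable def p004_l91 : Lf2 := ⟨nat_lit 0, nat_lit 5, [nat_lit 4, nat_lit 5, nat_lit 5, nat_lit 20], true, nat_lit 0, nat_lit 0, nat_lit 0, nat_lit 0, ⟨nat_lit 0, nat_lit 0, nat_lit 1000, nat_lit 5, nat_lit 59, nat_lit 0, nat_lit 0, nat_lit 0, nat_lit 0, nat_lit 215, nat_lit 32267, nat_lit 259, nat_lit 65562967, nat_lit 0, nat_lit 0, nat_lit 518069, false, false⟩,
 nat_lit 0, nat_lit 0, nat_lit 0, nat_lit 5980, nat_lit 4893, nat_lit 0, nat_lit 0, nat_lit 0, nat_lit 0, nat_lit 0, nat_lit 0, nat_lit 0, nat_lit 0, nat_lit 0, nat_lit 115, nat_lit 1000000, nat_lit 0, nat_lit 0, [(nat_lit 3, [(nat_lit 6, nat_lit 1000)])],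
 ⟨p004_k18, nat_lit 0, nat_lit 0, nat_lit 229, nat_lit 0, nat_lit 0, [nat_lit 3341142858, nat_lit 1499600000, nat_lit 23600000], [], [nat_lit 13975988011, nat_lit 14566793534, nat_lit 13726108513, nat_lit 14244524364], nat_lit 0, nat_lit 0, nat_lit 0, nat_lit 0, nat_lit 0, nat_lit 0, [], [nat_lit 25, nat_lit 40, nat_lit 20, nat_lit 80, nat_lit 17, nat_lit 289, nat_lit 75, nat_lit 9]⟩, C1.Rw.none,
 ⟨nat_lit 6324, nat_lit 6520, ⟨.ofNat (nat_lit 134132), .ofNat (nat_lit 142551), .ofNat (nat_lit 144831), .ofNat (nat_lit 153250), .ofNat (nat_lit 142951), .ofNat (nat_lit 151177), .ofNat (nat_lit 153635), .ofNat (nat_lit 161861)⟩, ⟨.ofNat (nat_lit 0), .ofNat (nat_lit 0), .ofNat (nat_lit 0), .ofNat (nat_lit 0), .ofNat (nat_lit 0), .ofNat (nat_lit 0), .ofNat (nat_lit 0), .ofNat (nat_lit 0)⟩⟩, []⟩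
noncomputable def p004_l92 : Lf2 := ⟨nat_lit 1, nat_lit 5, [nat_lit 4, nat_lit 5, nat_lit 5, nat_lit 20], false, nat_lit 0, nat_lit 0, nat_lit 0, nat_lit 0, zbN0,
 nat_lit 0, nat_lit 0, nat_lit 0, nat_lit 0, nat_lit 0, nat_lit 0, nat_lit 0, nat_lit 0, nat_lit 0, nat_lit 0, nat_lit 0, nat_lit 0, nat_lit 0, nat_lit 0, nat_lit 0, nat_lit 0, nat_lit 0, nat_lit 0, [],
 C1.Rw.none, C1.Rw.none,
 zbF0, []⟩
noncomputable def b_NL_550_550_0_1 : St := ⟨false, nat_lit 0, nat_lit 0, nat_lit 1, nat_lit 20, nat_lit 230, nat_lit 240, nat_lit 220, nat_lit 230, nat_lit 4, nat_lit 20, nat_lit 0, nat_lit 0, nat_lit 0, nat_lit 0, nat_lit 0, nat_lit 0, nat_lit 20, nat_lit 40, nat_lit 0, nat_lit 0, nat_lit 0, nat_lit 0⟩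
theorem d_NL_550_550_0_1 (h : EB TB.env) : Dead b_NL_550_550_0_1 := chkB_sound0 h (T :=
(.spl (nat_lit 6) (nat_lit 32)
(.spl (nat_lit 6) (nat_lit 24)
(.leaf p004_l66)
(.spl (nat_lit 2) (nat_lit 16)
(.spl (nat_lit 2) (nat_lit 8)
(.leaf p004_l67)
(.spl (nat_lit 2) (nat_lit 12)
(.spl (nat_lit 0) (nat_lit 235)
(.spl (nat_lit 1) (nat_lit 225)
(.leaf p004_l68)
(.spl (nat_lit 1) (nat_lit 228)
(.leaf p004_l69)
(.spl (nat_lit 0) (nat_lit 233)
(.spl (nat_lit 6) (nat_lit 28)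
(.spl (nat_lit 1) (nat_lit 229)
(.leaf p004_l70)
(.spl (nat_lit 0) (nat_lit 232)
(.spl (nat_lit 0) (nat_lit 231)
(.spl (nat_lit 8) (nat_lit 800)
(.spl (nat_lit 7) (nat_lit 600)
(.leaf p004_l71)
(.leaf p004_l72))
(.leaf p004_l73))
(.spl (nat_lit 8) (nat_lit 800)
(.spl (nat_lit 7) (nat_lit 600)
(.leaf p004_l74)
(.leaf p004_l75))
(.leaf p004_l76)))
(.leaf p004_l77)))
(.spl (nat_lit 0) (nat_lit 232)
(.spl (nat_lit 0) (nat_lit 231)
(.leaf p004_l78)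
(.spl (nat_lit 1) (nat_lit 229)
(.leaf p004_l79)
(.spl (nat_lit 8) (nat_lit 800)
(.spl (nat_lit 7) (nat_lit 600)
(.leaf p004_l80)
(.leaf p004_l81))
(.leaf p004_l82))))
(.spl (nat_lit 1) (nat_lit 229)
(.leaf p004_l83)
(.spl (nat_lit 8) (nat_lit 800)
(.spl (nat_lit 7) (nat_lit 600)
(.leaf p004_l84)
(.leaf p004_l85))
(.leaf p004_l86)))))
(.spl (nat_lit 6) (nat_lit 28)
(.leaf p004_l87)
(.leaf p004_l88)))))
(.leaf p004_l89))
(.leaf p004_l90)))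
(.leaf p004_l91)))
(.leaf p004_l92))) (by decide +kernel)
noncomputable def p004_l93 : Lf2 := ⟨nat_lit 0, nat_lit 5, [nat_lit 4, nat_lit 5, nat_lit 5, nat_lit 20], true, nat_lit 0, nat_lit 0, nat_lit 0, nat_lit 0, ⟨nat_lit 0, nat_lit 0, nat_lit 1000, nat_lit 5, nat_lit 59, nat_lit 0, nat_lit 0, nat_lit 0, nat_lit 0, nat_lit 215, nat_lit 32267, nat_lit 259, nat_lit 65596825, nat_lit 0, nat_lit 0, nat_lit 508383, false, false⟩,
 nat_lit 0, nat_lit 0, nat_lit 0, nat_lit 0, nat_lit 4775, nat_lit 0, nat_lit 233, nat_lit 0, nat_lit 0, nat_lit 0, nat_lit 0, nat_lit 0, nat_lit 0, nat_lit 6848231658698, nat_lit 115, nat_lit 1000000, nat_lit 0, nat_lit 0, [(nat_lit 3, [(nat_lit 6, nat_lit 1000)])],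
 ⟨p004_k18, nat_lit 0, nat_lit 0, nat_lit 285, nat_lit 0, nat_lit 0, [nat_lit 3341142858, nat_lit 1499600000, nat_lit 23600000], [], [nat_lit 13855956732, nat_lit 14461993356, nat_lit 13375731072, nat_lit 13981375196], nat_lit 0, nat_lit 0, nat_lit 0, nat_lit 0, nat_lit 0, nat_lit 0, [], [nat_lit 25, nat_lit 40, nat_lit 20, nat_lit 80, nat_lit 17, nat_lit 289, nat_lit 75, nat_lit 9]⟩, C1.Rw.none,
 ⟨nat_lit 6324, nat_lit 6520, ⟨.ofNat (nat_lit 127994), .ofNat (nat_lit 144831), .ofNat (nat_lit 138693), .ofNat (nat_lit 155530), .ofNat (nat_lit 137182), .ofNat (nat_lit 153635), .ofNat (nat_lit 147866), .ofNat (nat_lit 164319)⟩, ⟨.ofNat (nat_lit 0), .ofNat (nat_lit 0), .ofNat (nat_lit 0), .ofNat (nat_lit 0), .ofNat (nat_lit 0), .ofNat (nat_lit 0), .ofNat (nat_lit 0), .ofNat (nat_lit 0)⟩⟩, [⟨nat_lit 0, nat_lit 100, nat_lit 100, nat_lit 30, nat_lit 411904960⟩]⟩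
noncomputable def p004_l94 : Lf2 := ⟨nat_lit 0, nat_lit 5, [nat_lit 4, nat_lit 5, nat_lit 5, nat_lit 20], true, nat_lit 0, nat_lit 0, nat_lit 0, nat_lit 0, ⟨nat_lit 0, nat_lit 0, nat_lit 1000, nat_lit 5, nat_lit 53, nat_lit 0, nat_lit 0, nat_lit 0, nat_lit 0, nat_lit 215, nat_lit 26667, nat_lit 255, nat_lit 65832051, nat_lit 0, nat_lit 0, nat_lit 439277, false, false⟩,
 nat_lit 0, nat_lit 0, nat_lit 0, nat_lit 2542, nat_lit 4724, nat_lit 0, nat_lit 0, nat_lit 0, nat_lit 0, nat_lit 0, nat_lit 0, nat_lit 0, nat_lit 0, nat_lit 10906366454684, nat_lit 54, nat_lit 400000, nat_lit 0, nat_lit 0, [(nat_lit 3, [(nat_lit 5, nat_lit 1000)])],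
 ⟨p004_k10, nat_lit 0, nat_lit 0, nat_lit 0, nat_lit 0, nat_lit 0, [nat_lit 2385360001, nat_lit 965600001, nat_lit 151199999], [], [nat_lit 14696107269, nat_lit 14753972852, nat_lit 14456933344, nat_lit 14510484480], nat_lit 0, nat_lit 0, nat_lit 0, nat_lit 0, nat_lit 0, nat_lit 0, [], [nat_lit 96, nat_lit 40, nat_lit 20, nat_lit 40]⟩, C1.Rw.none,
 ⟨nat_lit 6500, nat_lit 6520, ⟨.ofNat (nat_lit 127994), .ofNat (nat_lit 136412), .ofNat (nat_lit 129063), .ofNat (nat_lit 137482), .ofNat (nat_lit 128921), .ofNat (nat_lit 137320), .ofNat (nat_lit 129991), .ofNat (nat_lit 138390)⟩, ⟨.ofNat (nat_lit 0), .ofNat (nat_lit 0), .ofNat (nat_lit 0), .ofNat (nat_lit 0), .ofNat (nat_lit 0), .ofNat (nat_lit 0), .ofNat (nat_lit 0), .ofNat (nat_lit 0)⟩⟩, [⟨nat_lit 0, nat_lit 100, nat_lit 100, nat_lit 30, nat_lit 407380999⟩]⟩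
noncomputable def p004_l95 : Lf2 := ⟨nat_lit 2, nat_lit 5, [nat_lit 4, nat_lit 5, nat_lit 5, nat_lit 20], true, nat_lit 0, nat_lit 0, nat_lit 0, nat_lit 0, zbN0,
 nat_lit 0, nat_lit 0, nat_lit 0, nat_lit 0, nat_lit 0, nat_lit 0, nat_lit 0, nat_lit 0, nat_lit 0, nat_lit 0, nat_lit 0, nat_lit 0, nat_lit 0, nat_lit 0, nat_lit 0, nat_lit 0, nat_lit 0, nat_lit 0, [],
 ⟨p004_k18, nat_lit 0, nat_lit 0, nat_lit 283, nat_lit 0, nat_lit 0, [], [], [], nat_lit 0, nat_lit 0, nat_lit 0, nat_lit 0, nat_lit 0, nat_lit 0, [], [nat_lit 25, nat_lit 40, nat_lit 20, nat_lit 80, nat_lit 17, nat_lit 289, nat_lit 75, nat_lit 9]⟩, C1.Rw.none,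
 zbF0, []⟩
noncomputable def p004_l96 : Lf2 := ⟨nat_lit 3, nat_lit 5, [nat_lit 4, nat_lit 5, nat_lit 5, nat_lit 20], false, nat_lit 0, nat_lit 0, nat_lit 0, nat_lit 0, zbN0,
 nat_lit 0, nat_lit 0, nat_lit 0, nat_lit 0, nat_lit 0, nat_lit 0, nat_lit 0, nat_lit 0, nat_lit 0, nat_lit 0, nat_lit 0, nat_lit 0, nat_lit 0, nat_lit 0, nat_lit 0, nat_lit 0, nat_lit 0, nat_lit 0, [],
 C1.Rw.none, ⟨p004_k35, nat_lit 0, nat_lit 0, nat_lit 282, nat_lit 0, nat_lit 0, [], [], [], nat_lit 0, nat_lit 0, nat_lit 0, nat_lit 0, nat_lit 0, nat_lit 0, [], [nat_lit 51, nat_lit 40, nat_lit 20, nat_lit 80, nat_lit 1, nat_lit 289, nat_lit 75, nat_lit 9]⟩,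
 zbF0, []⟩
noncomputable def p004_l97 : Lf2 := ⟨nat_lit 0, nat_lit 5, [nat_lit 4, nat_lit 5, nat_lit 5, nat_lit 20], true, nat_lit 0, nat_lit 0, nat_lit 0, nat_lit 0, ⟨nat_lit 0, nat_lit 0, nat_lit 1000, nat_lit 5, nat_lit 54, nat_lit 0, nat_lit 0, nat_lit 0, nat_lit 0, nat_lit 215, nat_lit 26667, nat_lit 255, nat_lit 65816206, nat_lit 0, nat_lit 0, nat_lit 444038, false, false⟩,
 nat_lit 0, nat_lit 0, nat_lit 0, nat_lit 0, nat_lit 4720, nat_lit 0, nat_lit 0, nat_lit 0, nat_lit 0, nat_lit 0, nat_lit 0, nat_lit 0, nat_lit 0, nat_lit 0, nat_lit 54, nat_lit 400000, nat_lit 0, nat_lit 0, [(nat_lit 3, [(nat_lit 5, nat_lit 1000)])],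
 ⟨p004_k29, nat_lit 0, nat_lit 0, nat_lit 0, nat_lit 0, nat_lit 0, [nat_lit 2385360001, nat_lit 965600001, nat_lit 151199999], [], [nat_lit 14751609575, nat_lit 14814921580, nat_lit 14512672778, nat_lit 14566205460], nat_lit 0, nat_lit 0, nat_lit 0, nat_lit 0, nat_lit 0, nat_lit 0, [], [nat_lit 96, nat_lit 40, nat_lit 20, nat_lit 40]⟩, C1.Rw.none,
 ⟨nat_lit 6480, nat_lit 6500, ⟨.ofNat (nat_lit 128921), .ofNat (nat_lit 137320), .ofNat (nat_lit 129991), .ofNat (nat_lit 138390), .ofNat (nat_lit 129846), .ofNat (nat_lit 138226), .ofNat (nat_lit 130916), .ofNat (nat_lit 139296)⟩, ⟨.ofNat (nat_lit 0), .ofNat (nat_lit 0), .ofNat (nat_lit 0), .ofNat (nat_lit 0), .ofNat (nat_lit 0), .ofNat (nat_lit 0), .ofNat (nat_lit 0), .ofNat (nat_lit 0)⟩⟩, [⟨nat_lit 0, nat_lit 100, nat_lit 100, nat_lit 31, nat_lit 406922089⟩]⟩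
noncomputable def p004_l98 : Lf2 := ⟨nat_lit 2, nat_lit 5, [nat_lit 4, nat_lit 5, nat_lit 5, nat_lit 20], true, nat_lit 0, nat_lit 0, nat_lit 0, nat_lit 0, zbN0,
 nat_lit 0, nat_lit 0, nat_lit 0, nat_lit 0, nat_lit 0, nat_lit 0, nat_lit 0, nat_lit 0, nat_lit 0, nat_lit 0, nat_lit 0, nat_lit 0, nat_lit 0, nat_lit 0, nat_lit 0, nat_lit 0, nat_lit 0, nat_lit 0, [],
 ⟨p004_k30, nat_lit 0, nat_lit 0, nat_lit 283, nat_lit 0, nat_lit 0, [], [], [], nat_lit 0, nat_lit 0, nat_lit 0, nat_lit 0, nat_lit 0, nat_lit 0, [], [nat_lit 25, nat_lit 40, nat_lit 20, nat_lit 80, nat_lit 17, nat_lit 289, nat_lit 75, nat_lit 9]⟩, C1.Rw.none,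
 zbF0, []⟩
noncomputable def p004_l99 : Lf2 := ⟨nat_lit 3, nat_lit 5, [nat_lit 4, nat_lit 5, nat_lit 5, nat_lit 20], false, nat_lit 0, nat_lit 0, nat_lit 0, nat_lit 0, zbN0,
 nat_lit 0, nat_lit 0, nat_lit 0, nat_lit 0, nat_lit 0, nat_lit 0, nat_lit 0, nat_lit 0, nat_lit 0, nat_lit 0, nat_lit 0, nat_lit 0, nat_lit 0, nat_lit 0, nat_lit 0, nat_lit 0, nat_lit 0, nat_lit 0, [],
 C1.Rw.none, ⟨p004_k35, nat_lit 0, nat_lit 0, nat_lit 282, nat_lit 0, nat_lit 0, [], [], [], nat_lit 0, nat_lit 0, nat_lit 0, nat_lit 0, nat_lit 0, nat_lit 0, [], [nat_lit 51, nat_lit 40, nat_lit 20, nat_lit 80, nat_lit 1, nat_lit 289, nat_lit 75, nat_lit 9]⟩,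
 zbF0, []⟩
noncomputable def p004_l100 : Lf2 := ⟨nat_lit 0, nat_lit 5, [nat_lit 4, nat_lit 5, nat_lit 5, nat_lit 20], true, nat_lit 0, nat_lit 0, nat_lit 0, nat_lit 0, ⟨nat_lit 0, nat_lit 0, nat_lit 1000, nat_lit 5, nat_lit 54, nat_lit 0, nat_lit 0, nat_lit 0, nat_lit 0, nat_lit 215, nat_lit 28017, nat_lit 256, nat_lit 65797588, nat_lit 0, nat_lit 0, nat_lit 449612, false, false⟩,
 nat_lit 0, nat_lit 0, nat_lit 0, nat_lit 0, nat_lit 4720, nat_lit 0, nat_lit 0, nat_lit 0, nat_lit 0, nat_lit 0, nat_lit 0, nat_lit 0, nat_lit 0, nat_lit 6702453872102, nat_lit 54, nat_lit 400000, nat_lit 0, nat_lit 0, [(nat_lit 3, [(nat_lit 5, nat_lit 1000)])],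
 ⟨p004_k29, nat_lit 0, nat_lit 0, nat_lit 0, nat_lit 0, nat_lit 0, [nat_lit 2385360001, nat_lit 965600001, nat_lit 151199999], [], [nat_lit 14751609575, nat_lit 14814921580, nat_lit 14512672778, nat_lit 14566205460], nat_lit 0, nat_lit 0, nat_lit 0, nat_lit 0, nat_lit 0, nat_lit 0, [], [nat_lit 96, nat_lit 40, nat_lit 20, nat_lit 40]⟩, C1.Rw.none,
 ⟨nat_lit 6480, nat_lit 6500, ⟨.ofNat (nat_lit 129991), .ofNat (nat_lit 138390), .ofNat (nat_lit 131060), .ofNat (nat_lit 139460), .ofNat (nat_lit 130916), .ofNat (nat_lit 139296), .ofNat (nat_lit 131985), .ofNat (nat_lit 140365)⟩, ⟨.ofNat (nat_lit 0), .ofNat (nat_lit 0), .ofNat (nat_lit 0), .ofNat (nat_lit 0), .ofNat (nat_lit 0), .ofNat (nat_lit 0), .ofNat (nat_lit 0), .ofNat (nat_lit 0)⟩⟩, [⟨nat_lit 0, nat_lit 100, nat_lit 100, nat_lit 31, nat_lit 407342039⟩]⟩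
noncomputable def p004_l101 : Lf2 := ⟨nat_lit 2, nat_lit 5, [nat_lit 4, nat_lit 5, nat_lit 5, nat_lit 20], true, nat_lit 0, nat_lit 0, nat_lit 0, nat_lit 0, zbN0,
 nat_lit 0, nat_lit 0, nat_lit 0, nat_lit 0, nat_lit 0, nat_lit 0, nat_lit 0, nat_lit 0, nat_lit 0, nat_lit 0, nat_lit 0, nat_lit 0, nat_lit 0, nat_lit 0, nat_lit 0, nat_lit 0, nat_lit 0, nat_lit 0, [],
 ⟨p004_k30, nat_lit 0, nat_lit 0, nat_lit 283, nat_lit 0, nat_lit 0, [], [], [], nat_lit 0, nat_lit 0, nat_lit 0, nat_lit 0, nat_lit 0, nat_lit 0, [], [nat_lit 25, nat_lit 40, nat_lit 20, nat_lit 80, nat_lit 17, nat_lit 289, nat_lit 75, nat_lit 9]⟩, C1.Rw.none,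
 zbF0, []⟩
noncomputable def p004_l102 : Lf2 := ⟨nat_lit 3, nat_lit 5, [nat_lit 4, nat_lit 5, nat_lit 5, nat_lit 20], false, nat_lit 0, nat_lit 0, nat_lit 0, nat_lit 0, zbN0,
 nat_lit 0, nat_lit 0, nat_lit 0, nat_lit 0, nat_lit 0, nat_lit 0, nat_lit 0, nat_lit 0, nat_lit 0, nat_lit 0, nat_lit 0, nat_lit 0, nat_lit 0, nat_lit 0, nat_lit 0, nat_lit 0, nat_lit 0, nat_lit 0, [],
 C1.Rw.none, ⟨p004_k36, nat_lit 0, nat_lit 0, nat_lit 282, nat_lit 0, nat_lit 0, [], [], [], nat_lit 0, nat_lit 0, nat_lit 0, nat_lit 0, nat_lit 0, nat_lit 0, [], [nat_lit 51, nat_lit 40, nat_lit 20, nat_lit 80, nat_lit 1, nat_lit 289, nat_lit 75, nat_lit 9]⟩,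
 zbF0, []⟩
noncomputable def p004_l103 : Lf2 := ⟨nat_lit 0, nat_lit 5, [nat_lit 4, nat_lit 5, nat_lit 5, nat_lit 20], true, nat_lit 0, nat_lit 0, nat_lit 0, nat_lit 0, ⟨nat_lit 0, nat_lit 0, nat_lit 1000, nat_lit 5, nat_lit 54, nat_lit 0, nat_lit 0, nat_lit 0, nat_lit 0, nat_lit 215, nat_lit 28017, nat_lit 256, nat_lit 65800294, nat_lit 0, nat_lit 0, nat_lit 448803, false, false⟩,
 nat_lit 0, nat_lit 0, nat_lit 0, nat_lit 0, nat_lit 4755, nat_lit 0, nat_lit 214, nat_lit 0, nat_lit 0, nat_lit 0, nat_lit 0, nat_lit 0, nat_lit 0, nat_lit 0, nat_lit 115, nat_lit 1000000, nat_lit 0, nat_lit 0, [(nat_lit 3, [(nat_lit 6, nat_lit 1000)])],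
 ⟨p004_k31, nat_lit 0, nat_lit 0, nat_lit 283, nat_lit 0, nat_lit 0, [nat_lit 3341142858, nat_lit 1499600000, nat_lit 23600000], [], [nat_lit 13994073671, nat_lit 14052942393, nat_lit 13753512984, nat_lit 13813982700], nat_lit 0, nat_lit 0, nat_lit 0, nat_lit 0, nat_lit 0, nat_lit 0, [], [nat_lit 25, nat_lit 40, nat_lit 20, nat_lit 80, nat_lit 17, nat_lit 289, nat_lit 75, nat_lit 9]⟩, C1.Rw.none,
 ⟨nat_lit 6461, nat_lit 6481, ⟨.ofNat (nat_lit 129846), .ofNat (nat_lit 138226), .ofNat (nat_lit 130916), .ofNat (nat_lit 139296), .ofNat (nat_lit 130770), .ofNat (nat_lit 139130), .ofNat (nat_lit 131839), .ofNat (nat_lit 140200)⟩, ⟨.ofNat (nat_lit 0), .ofNat (nat_lit 0), .ofNat (nat_lit 0), .ofNat (nat_lit 0), .ofNat (nat_lit 0), .ofNat (nat_lit 0), .ofNat (nat_lit 0), .ofNat (nat_lit 0)⟩⟩, [⟨nat_lit 0, nat_lit 100, nat_lit 100, nat_lit 32, nat_lit 410118528⟩]⟩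
noncomputable def p004_l104 : Lf2 := ⟨nat_lit 0, nat_lit 5, [nat_lit 4, nat_lit 5, nat_lit 5, nat_lit 20], true, nat_lit 0, nat_lit 0, nat_lit 0, nat_lit 0, ⟨nat_lit 0, nat_lit 0, nat_lit 1000, nat_lit 5, nat_lit 54, nat_lit 0, nat_lit 0, nat_lit 0, nat_lit 0, nat_lit 215, nat_lit 28017, nat_lit 256, nat_lit 65781561, nat_lit 0, nat_lit 0, nat_lit 454392, false, false⟩,
 nat_lit 0, nat_lit 0, nat_lit 0, nat_lit 0, nat_lit 4774, nat_lit 0, nat_lit 0, nat_lit 0, nat_lit 0, nat_lit 0, nat_lit 0, nat_lit 0, nat_lit 0, nat_lit 0, nat_lit 54, nat_lit 400000, nat_lit 0, nat_lit 0, [(nat_lit 3, [(nat_lit 5, nat_lit 1000)])],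
 ⟨p004_k32, nat_lit 0, nat_lit 0, nat_lit 0, nat_lit 0, nat_lit 0, [nat_lit 2385360001, nat_lit 965600001, nat_lit 151199999], [], [nat_lit 14850010815, nat_lit 14913858446, nat_lit 14536912585, nat_lit 14600260573], nat_lit 0, nat_lit 0, nat_lit 0, nat_lit 0, nat_lit 0, nat_lit 0, [], [nat_lit 96, nat_lit 40, nat_lit 20, nat_lit 40]⟩, C1.Rw.none,
 ⟨nat_lit 6461, nat_lit 6481, ⟨.ofNat (nat_lit 130916), .ofNat (nat_lit 139296), .ofNat (nat_lit 131985), .ofNat (nat_lit 140365), .ofNat (nat_lit 131839), .ofNat (nat_lit 140200), .ofNat (nat_lit 132909), .ofNat (nat_lit 141269)⟩, ⟨.ofNat (nat_lit 0), .ofNat (nat_lit 0), .ofNat (nat_lit 0), .ofNat (nat_lit 0), .ofNat (nat_lit 0), .ofNat (nat_lit 0), .ofNat (nat_lit 0), .ofNat (nat_lit 0)⟩⟩, [⟨nat_lit 0, nat_lit 100, nat_lit 100, nat_lit 32, nat_lit 500273275⟩]⟩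
noncomputable def p004_l105 : Lf2 := ⟨nat_lit 2, nat_lit 5, [nat_lit 4, nat_lit 5, nat_lit 5, nat_lit 20], true, nat_lit 0, nat_lit 0, nat_lit 0, nat_lit 0, zbN0,
 nat_lit 0, nat_lit 0, nat_lit 0, nat_lit 0, nat_lit 0, nat_lit 0, nat_lit 0, nat_lit 0, nat_lit 0, nat_lit 0, nat_lit 0, nat_lit 0, nat_lit 0, nat_lit 0, nat_lit 0, nat_lit 0, nat_lit 0, nat_lit 0, [],
 ⟨p004_k31, nat_lit 0, nat_lit 0, nat_lit 283, nat_lit 0, nat_lit 0, [], [], [], nat_lit 0, nat_lit 0, nat_lit 0, nat_lit 0, nat_lit 0, nat_lit 0, [], [nat_lit 25, nat_lit 40, nat_lit 20, nat_lit 80, nat_lit 17, nat_lit 289, nat_lit 75, nat_lit 9]⟩, C1.Rw.none,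
 zbF0, []⟩
noncomputable def p004_l106 : Lf2 := ⟨nat_lit 3, nat_lit 5, [nat_lit 4, nat_lit 5, nat_lit 5, nat_lit 20], false, nat_lit 0, nat_lit 0, nat_lit 0, nat_lit 0, zbN0,
 nat_lit 0, nat_lit 0, nat_lit 0, nat_lit 0, nat_lit 0, nat_lit 0, nat_lit 0, nat_lit 0, nat_lit 0, nat_lit 0, nat_lit 0, nat_lit 0, nat_lit 0, nat_lit 0, nat_lit 0, nat_lit 0, nat_lit 0, nat_lit 0, [],
 C1.Rw.none, ⟨p004_k36, nat_lit 0, nat_lit 0, nat_lit 282, nat_lit 0, nat_lit 0, [], [], [], nat_lit 0, nat_lit 0, nat_lit 0, nat_lit 0, nat_lit 0, nat_lit 0, [], [nat_lit 51, nat_lit 40, nat_lit 20, nat_lit 80, nat_lit 1, nat_lit 289, nat_lit 75, nat_lit 9]⟩,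
 zbF0, []⟩
noncomputable def p004_l107 : Lf2 := ⟨nat_lit 0, nat_lit 5, [nat_lit 4, nat_lit 5, nat_lit 5, nat_lit 20], true, nat_lit 0, nat_lit 0, nat_lit 0, nat_lit 0, ⟨nat_lit 0, nat_lit 0, nat_lit 1000, nat_lit 5, nat_lit 55, nat_lit 0, nat_lit 0, nat_lit 0, nat_lit 0, nat_lit 215, nat_lit 28017, nat_lit 256, nat_lit 65762691, nat_lit 0, nat_lit 0, nat_lit 460000, false, false⟩,
 nat_lit 0, nat_lit 0, nat_lit 0, nat_lit 0, nat_lit 4774, nat_lit 0, nat_lit 0, nat_lit 0, nat_lit 0, nat_lit 0, nat_lit 0, nat_lit 0, nat_lit 0, nat_lit 5342732919125, nat_lit 54, nat_lit 400000, nat_lit 0, nat_lit 0, [(nat_lit 3, [(nat_lit 5, nat_lit 1000)])],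
 ⟨p004_k32, nat_lit 0, nat_lit 0, nat_lit 0, nat_lit 0, nat_lit 0, [nat_lit 2385360001, nat_lit 965600001, nat_lit 151199999], [], [nat_lit 14850010815, nat_lit 14913858446, nat_lit 14536912585, nat_lit 14600260573], nat_lit 0, nat_lit 0, nat_lit 0, nat_lit 0, nat_lit 0, nat_lit 0, [], [nat_lit 96, nat_lit 40, nat_lit 20, nat_lit 40]⟩, C1.Rw.none,
 ⟨nat_lit 6461, nat_lit 6481, ⟨.ofNat (nat_lit 131985), .ofNat (nat_lit 140365), .ofNat (nat_lit 133055), .ofNat (nat_lit 141435), .ofNat (nat_lit 132909), .ofNat (nat_lit 141269), .ofNat (nat_lit 133978), .ofNat (nat_lit 142339)⟩, ⟨.ofNat (nat_lit 0), .ofNat (nat_lit 0), .ofNat (nat_lit 0), .ofNat (nat_lit 0), .ofNat (nat_lit 0), .ofNat (nat_lit 0), .ofNat (nat_lit 0), .ofNat (nat_lit 0)⟩⟩, [⟨nat_lit 0, nat_lit 100, nat_lit 100, nat_lit 32, nat_lit 500681800⟩]⟩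
noncomputable def p004_l108 : Lf2 := ⟨nat_lit 2, nat_lit 5, [nat_lit 4, nat_lit 5, nat_lit 5, nat_lit 20], true, nat_lit 0, nat_lit 0, nat_lit 0, nat_lit 0, zbN0,
 nat_lit 0, nat_lit 0, nat_lit 0, nat_lit 0, nat_lit 0, nat_lit 0, nat_lit 0, nat_lit 0, nat_lit 0, nat_lit 0, nat_lit 0, nat_lit 0, nat_lit 0, nat_lit 0, nat_lit 0, nat_lit 0, nat_lit 0, nat_lit 0, [],
 ⟨p004_k31, nat_lit 0, nat_lit 0, nat_lit 283, nat_lit 0, nat_lit 0, [], [], [], nat_lit 0, nat_lit 0, nat_lit 0, nat_lit 0, nat_lit 0, nat_lit 0, [], [nat_lit 25, nat_lit 40, nat_lit 20, nat_lit 80, nat_lit 17, nat_lit 289, nat_lit 75, nat_lit 9]⟩, C1.Rw.none,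
 zbF0, []⟩
noncomputable def p004_l109 : Lf2 := ⟨nat_lit 3, nat_lit 5, [nat_lit 4, nat_lit 5, nat_lit 5, nat_lit 20], false, nat_lit 0, nat_lit 0, nat_lit 0, nat_lit 0, zbN0,
 nat_lit 0, nat_lit 0, nat_lit 0, nat_lit 0, nat_lit 0, nat_lit 0, nat_lit 0, nat_lit 0, nat_lit 0, nat_lit 0, nat_lit 0, nat_lit 0, nat_lit 0, nat_lit 0, nat_lit 0, nat_lit 0, nat_lit 0, nat_lit 0, [],
 C1.Rw.none, ⟨p004_k37, nat_lit 0, nat_lit 0, nat_lit 283, nat_lit 0, nat_lit 0, [], [], [], nat_lit 0, nat_lit 0, nat_lit 0, nat_lit 0, nat_lit 0, nat_lit 0, [], [nat_lit 51, nat_lit 40, nat_lit 20, nat_lit 80, nat_lit 1, nat_lit 289, nat_lit 75, nat_lit 9]⟩,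
 zbF0, []⟩
noncomputable def p004_l110 : Lf2 := ⟨nat_lit 0, nat_lit 5, [nat_lit 4, nat_lit 5, nat_lit 5, nat_lit 20], true, nat_lit 0, nat_lit 0, nat_lit 0, nat_lit 0, ⟨nat_lit 0, nat_lit 0, nat_lit 1000, nat_lit 5, nat_lit 55, nat_lit 0, nat_lit 0, nat_lit 0, nat_lit 0, nat_lit 215, nat_lit 29400, nat_lit 257, nat_lit 65738369, nat_lit 0, nat_lit 0, nat_lit 467196, false, false⟩,
 nat_lit 0, nat_lit 0, nat_lit 0, nat_lit 0, nat_lit 4808, nat_lit 0, nat_lit 216, nat_lit 0, nat_lit 0, nat_lit 0, nat_lit 0, nat_lit 0, nat_lit 0, nat_lit 5083260416408, nat_lit 115, nat_lit 1000000, nat_lit 0, nat_lit 0, [(nat_lit 3, [(nat_lit 6, nat_lit 1000)])],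
 ⟨p004_k33, nat_lit 0, nat_lit 0, nat_lit 283, nat_lit 0, nat_lit 0, [nat_lit 3341142858, nat_lit 1499600000, nat_lit 23600000], [], [nat_lit 14085342367, nat_lit 14204729564, nat_lit 13770557982, nat_lit 13892103320], nat_lit 0, nat_lit 0, nat_lit 0, nat_lit 0, nat_lit 0, nat_lit 0, [], [nat_lit 25, nat_lit 40, nat_lit 20, nat_lit 80, nat_lit 17, nat_lit 289, nat_lit 75, nat_lit 9]⟩, C1.Rw.none,
 ⟨nat_lit 6422, nat_lit 6462, ⟨.ofNat (nat_lit 130770), .ofNat (nat_lit 139130), .ofNat (nat_lit 136117), .ofNat (nat_lit 144477), .ofNat (nat_lit 132611), .ofNat (nat_lit 140933), .ofNat (nat_lit 137956), .ofNat (nat_lit 146279)⟩, ⟨.ofNat (nat_lit 0), .ofNat (nat_lit 0), .ofNat (nat_lit 0), .ofNat (nat_lit 0), .ofNat (nat_lit 0), .ofNat (nat_lit 0), .ofNat (nat_lit 0), .ofNat (nat_lit 0)⟩⟩, [⟨nat_lit 0, nat_lit 100, nat_lit 100, nat_lit 33, nat_lit 504013829⟩]⟩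
noncomputable def p004_l111 : Lf2 := ⟨nat_lit 0, nat_lit 5, [nat_lit 4, nat_lit 5, nat_lit 5, nat_lit 20], true, nat_lit 0, nat_lit 0, nat_lit 0, nat_lit 0, ⟨nat_lit 0, nat_lit 0, nat_lit 1000, nat_lit 5, nat_lit 58, nat_lit 0, nat_lit 0, nat_lit 0, nat_lit 0, nat_lit 215, nat_lit 32267, nat_lit 259, nat_lit 65610405, nat_lit 0, nat_lit 0, nat_lit 504481, false, false⟩,
 nat_lit 0, nat_lit 0, nat_lit 0, nat_lit 0, nat_lit 4795, nat_lit 0, nat_lit 216, nat_lit 0, nat_lit 0, nat_lit 0, nat_lit 0, nat_lit 0, nat_lit 0, nat_lit 11718881961987, nat_lit 115, nat_lit 1000000, nat_lit 0, nat_lit 0, [(nat_lit 3, [(nat_lit 6, nat_lit 1000)])],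
 ⟨p004_k18, nat_lit 0, nat_lit 0, nat_lit 234, nat_lit 0, nat_lit 0, [nat_lit 3341142858, nat_lit 1499600000, nat_lit 23600000], [], [nat_lit 13652708971, nat_lit 13902606047, nat_lit 13408756827, nat_lit 13661183248], nat_lit 0, nat_lit 0, nat_lit 0, nat_lit 0, nat_lit 0, nat_lit 0, [], [nat_lit 25, nat_lit 40, nat_lit 20, nat_lit 80, nat_lit 17, nat_lit 289, nat_lit 75, nat_lit 9]⟩, C1.Rw.none,
 ⟨nat_lit 6422, nat_lit 6520, ⟨.ofNat (nat_lit 136412), .ofNat (nat_lit 144831), .ofNat (nat_lit 141762), .ofNat (nat_lit 150181), .ofNat (nat_lit 140933), .ofNat (nat_lit 149255), .ofNat (nat_lit 146279), .ofNat (nat_lit 154601)⟩, ⟨.ofNat (nat_lit 0), .ofNat (nat_lit 0), .ofNat (nat_lit 0), .ofNat (nat_lit 0), .ofNat (nat_lit 0), .ofNat (nat_lit 0), .ofNat (nat_lit 0), .ofNat (nat_lit 0)⟩⟩, []⟩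
noncomputable def p004_l112 : Lf2 := ⟨nat_lit 0, nat_lit 5, [nat_lit 4, nat_lit 5, nat_lit 5, nat_lit 20], true, nat_lit 0, nat_lit 0, nat_lit 0, nat_lit 0, ⟨nat_lit 0, nat_lit 0, nat_lit 1000, nat_lit 5, nat_lit 59, nat_lit 0, nat_lit 0, nat_lit 0, nat_lit 0, nat_lit 215, nat_lit 33750, nat_lit 260, nat_lit 65554102, nat_lit 0, nat_lit 0, nat_lit 520595, false, false⟩,
 nat_lit 0, nat_lit 0, nat_lit 0, nat_lit 0, nat_lit 4726, nat_lit 0, nat_lit 188, nat_lit 0, nat_lit 0, nat_lit 0, nat_lit 0, nat_lit 0, nat_lit 0, nat_lit 5839556509310, nat_lit 115, nat_lit 1000000, nat_lit 0, nat_lit 0, [(nat_lit 3, [(nat_lit 6, nat_lit 1000)])],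
 ⟨p004_k34, nat_lit 0, nat_lit 0, nat_lit 285, nat_lit 0, nat_lit 0, [nat_lit 3341142858, nat_lit 1499600000, nat_lit 23600000], [], [nat_lit 14201616060, nat_lit 14497508570, nat_lit 13722099153, nat_lit 14022529944], nat_lit 0, nat_lit 0, nat_lit 0, nat_lit 0, nat_lit 0, nat_lit 0, [], [nat_lit 25, nat_lit 40, nat_lit 20, nat_lit 80, nat_lit 17, nat_lit 289, nat_lit 75, nat_lit 9]⟩, C1.Rw.none,
 ⟨nat_lit 6324, nat_lit 6423, ⟨.ofNat (nat_lit 132611), .ofNat (nat_lit 149255), .ofNat (nat_lit 143302), .ofNat (nat_lit 159946), .ofNat (nat_lit 137182), .ofNat (nat_lit 153635), .ofNat (nat_lit 147866), .ofNat (nat_lit 164319)⟩, ⟨.ofNat (nat_lit 0), .ofNat (nat_lit 0), .ofNat (nat_lit 0), .ofNat (nat_lit 0), .ofNat (nat_lit 0), .ofNat (nat_lit 0), .ofNat (nat_lit 0), .ofNat (nat_lit 0)⟩⟩, [⟨nat_lit 0, nat_lit 100, nat_lit 100, nat_lit 36, nat_lit 409308586⟩]⟩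
noncomputable def p004_l113 : Lf2 := ⟨nat_lit 0, nat_lit 5, [nat_lit 4, nat_lit 5, nat_lit 5, nat_lit 20], true, nat_lit 0, nat_lit 0, nat_lit 0, nat_lit 0, ⟨nat_lit 0, nat_lit 0, nat_lit 1000, nat_lit 5, nat_lit 59, nat_lit 0, nat_lit 0, nat_lit 0, nat_lit 0, nat_lit 215, nat_lit 32267, nat_lit 259, nat_lit 65596825, nat_lit 0, nat_lit 0, nat_lit 508383, false, false⟩,
 nat_lit 0, nat_lit 0, nat_lit 0, nat_lit 2955, nat_lit 4688, nat_lit 0, nat_lit 0, nat_lit 0, nat_lit 0, nat_lit 0, nat_lit 0, nat_lit 0, nat_lit 0, nat_lit 10842750131869, nat_lit 54, nat_lit 400000, nat_lit 0, nat_lit 0, [(nat_lit 3, [(nat_lit 5, nat_lit 1000)])],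
 ⟨p004_k10, nat_lit 0, nat_lit 0, nat_lit 0, nat_lit 0, nat_lit 0, [nat_lit 2385360001, nat_lit 965600001, nat_lit 151199999], [], [nat_lit 14713783226, nat_lit 15300785126, nat_lit 14239805012, nat_lit 14773597063], nat_lit 0, nat_lit 0, nat_lit 0, nat_lit 0, nat_lit 0, nat_lit 0, [], [nat_lit 96, nat_lit 40, nat_lit 20, nat_lit 40]⟩, C1.Rw.none,
 ⟨nat_lit 6324, nat_lit 6520, ⟨.ofNat (nat_lit 127994), .ofNat (nat_lit 144831), .ofNat (nat_lit 138693), .ofNat (nat_lit 155530), .ofNat (nat_lit 137182), .ofNat (nat_lit 153635), .ofNat (nat_lit 147866), .ofNat (nat_lit 164319)⟩, ⟨.ofNat (nat_lit 0), .ofNat (nat_lit 0), .ofNat (nat_lit 0), .ofNat (nat_lit 0), .ofNat (nat_lit 0), .ofNat (nat_lit 0), .ofNat (nat_lit 0), .ofNat (nat_lit 0)⟩⟩, [⟨nat_lit 0, nat_lit 100, nat_lit 100, nat_lit 35, nat_lit 408006278⟩]⟩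
noncomputable def p004_l114 : Lf2 := ⟨nat_lit 2, nat_lit 5, [nat_lit 4, nat_lit 5, nat_lit 5, nat_lit 20], true, nat_lit 0, nat_lit 0, nat_lit 0, nat_lit 0, zbN0,
 nat_lit 0, nat_lit 0, nat_lit 0, nat_lit 0, nat_lit 0, nat_lit 0, nat_lit 0, nat_lit 0, nat_lit 0, nat_lit 0, nat_lit 0, nat_lit 0, nat_lit 0, nat_lit 0, nat_lit 0, nat_lit 0, nat_lit 0, nat_lit 0, [],
 ⟨p004_k18, nat_lit 0, nat_lit 0, nat_lit 285, nat_lit 0, nat_lit 0, [], [], [], nat_lit 0, nat_lit 0, nat_lit 0, nat_lit 0, nat_lit 0, nat_lit 0, [], [nat_lit 25, nat_lit 40, nat_lit 20, nat_lit 80, nat_lit 17, nat_lit 289, nat_lit 75, nat_lit 9]⟩, C1.Rw.none,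
 zbF0, []⟩
noncomputable def p004_l115 : Lf2 := ⟨nat_lit 3, nat_lit 5, [nat_lit 4, nat_lit 5, nat_lit 5, nat_lit 20], false, nat_lit 0, nat_lit 0, nat_lit 0, nat_lit 0, zbN0,
 nat_lit 0, nat_lit 0, nat_lit 0, nat_lit 0, nat_lit 0, nat_lit 0, nat_lit 0, nat_lit 0, nat_lit 0, nat_lit 0, nat_lit 0, nat_lit 0, nat_lit 0, nat_lit 0, nat_lit 0, nat_lit 0, nat_lit 0, nat_lit 0, [],
 C1.Rw.none, ⟨p004_k35, nat_lit 0, nat_lit 0, nat_lit 284, nat_lit 0, nat_lit 0, [], [], [], nat_lit 0, nat_lit 0, nat_lit 0, nat_lit 0, nat_lit 0, nat_lit 0, [], [nat_lit 51, nat_lit 40, nat_lit 20, nat_lit 80, nat_lit 1, nat_lit 289, nat_lit 75, nat_lit 9]⟩,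
 zbF0, []⟩
noncomputable def p004_l116 : Lf2 := ⟨nat_lit 0, nat_lit 5, [nat_lit 4, nat_lit 5, nat_lit 5, nat_lit 20], true, nat_lit 0, nat_lit 0, nat_lit 0, nat_lit 0, ⟨nat_lit 0, nat_lit 0, nat_lit 1000, nat_lit 5, nat_lit 57, nat_lit 0, nat_lit 0, nat_lit 0, nat_lit 0, nat_lit 215, nat_lit 30817, nat_lit 258, nat_lit 65673982, nat_lit 0, nat_lit 0, nat_lit 486074, false, false⟩,
 nat_lit 0, nat_lit 0, nat_lit 0, nat_lit 100000, nat_lit 5201, nat_lit 0, nat_lit 0, nat_lit 0, nat_lit 0, nat_lit 0, nat_lit 0, nat_lit 0, nat_lit 0, nat_lit 11695598658636, nat_lit 60, nat_lit 400000, nat_lit 0, nat_lit 0, [(nat_lit 3, [(nat_lit 5, nat_lit 1000)])],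
 ⟨p004_k18, nat_lit 0, nat_lit 0, nat_lit 285, nat_lit 0, nat_lit 0, [nat_lit 2770400000, nat_lit 702400001, nat_lit 2000000], [], [nat_lit 16429859805, nat_lit 17003885630, nat_lit 16161351482, nat_lit 16659746681], nat_lit 0, nat_lit 0, nat_lit 0, nat_lit 0, nat_lit 0, nat_lit 0, [], [nat_lit 25, nat_lit 40, nat_lit 20, nat_lit 80, nat_lit 17, nat_lit 289, nat_lit 75, nat_lit 9]⟩, C1.Rw.none,
 ⟨nat_lit 6324, nat_lit 6520, ⟨.ofNat (nat_lit 127994), .ofNat (nat_lit 136412), .ofNat (nat_lit 138693), .ofNat (nat_lit 147111), .ofNat (nat_lit 137182), .ofNat (nat_lit 145408), .ofNat (nat_lit 147866), .ofNat (nat_lit 156092)⟩, ⟨.ofNat (nat_lit 0), .ofNat (nat_lit 0), .ofNat (nat_lit 0), .ofNat (nat_lit 0), .ofNat (nat_lit 0), .ofNat (nat_lit 0), .ofNat (nat_lit 0), .ofNat (nat_lit 0)⟩⟩, [⟨nat_lit 0, nat_lit 100, nat_lit 100, nat_lit 35, nat_lit 10000000000⟩, ⟨nat_lit 0, nat_lit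 100, nat_lit 100, nat_lit 40, nat_lit 930859692⟩]⟩
noncomputable def p004_l117 : Lf2 := ⟨nat_lit 1, nat_lit 5, [nat_lit 4, nat_lit 5, nat_lit 5, nat_lit 20], false, nat_lit 0, nat_lit 0, nat_lit 0, nat_lit 0, zbN0,
 nat_lit 0, nat_lit 0, nat_lit 0, nat_lit 0, nat_lit 0, nat_lit 0, nat_lit 0, nat_lit 0, nat_lit 0, nat_lit 0, nat_lit 0, nat_lit 0, nat_lit 0, nat_lit 0, nat_lit 0, nat_lit 0, nat_lit 0, nat_lit 0, [],
 C1.Rw.none, C1.Rw.none,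
 zbF0, []⟩
noncomputable def p004_l118 : Lf2 := ⟨nat_lit 0, nat_lit 5, [nat_lit 4, nat_lit 5, nat_lit 5, nat_lit 20], true, nat_lit 0, nat_lit 0, nat_lit 0, nat_lit 0, ⟨nat_lit 0, nat_lit 0, nat_lit 1000, nat_lit 5, nat_lit 61, nat_lit 0, nat_lit 0, nat_lit 0, nat_lit 0, nat_lit 215, nat_lit 35267, nat_lit 261, nat_lit 65474287, nat_lit 0, nat_lit 0, nat_lit 543153, false, false⟩,
 nat_lit 0, nat_lit 0, nat_lit 0, nat_lit 3473, nat_lit 4704, nat_lit 0, nat_lit 0, nat_lit 0, nat_lit 0, nat_lit 0, nat_lit 0, nat_lit 0, nat_lit 0, nat_lit 11159996247309, nat_lit 54, nat_lit 400000, nat_lit 0, nat_lit 0, [(nat_lit 3, [(nat_lit 5, nat_lit 1000)])],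
 ⟨p004_k38, nat_lit 0, nat_lit 0, nat_lit 0, nat_lit 0, nat_lit 0, [nat_lit 2385360001, nat_lit 965600001, nat_lit 151199999], [], [nat_lit 14735261413, nat_lit 15003947180, nat_lit 14497272615, nat_lit 14764538260], nat_lit 0, nat_lit 0, nat_lit 0, nat_lit 0, nat_lit 0, nat_lit 0, [], [nat_lit 96, nat_lit 40, nat_lit 20, nat_lit 40]⟩, C1.Rw.none,
 ⟨nat_lit 6324, nat_lit 6423, ⟨.ofNat (nat_lit 140933), .ofNat (nat_lit 149255), .ofNat (nat_lit 151624), .ofNat (nat_lit 159946), .ofNat (nat_lit 145408), .ofNat (nat_lit 153635), .ofNat (nat_lit 156092), .ofNat (nat_lit 164319)⟩, ⟨.ofNat (nat_lit 0), .ofNat (nat_lit 0), .ofNat (nat_lit 0), .ofNat (nat_lit 0), .ofNat (nat_lit 0), .ofNat (nat_lit 0), .ofNat (nat_lit 0), .ofNat (nat_lit 0)⟩⟩, [⟨nat_lit 0, nat_lit 100, nat_lit 100, nat_lit 36, nat_lit 407605302⟩]⟩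
noncomputable def p004_l119 : Lf2 := ⟨nat_lit 2, nat_lit 5, [nat_lit 4, nat_lit 5, nat_lit 5, nat_lit 20], true, nat_lit 0, nat_lit 0, nat_lit 0, nat_lit 0, zbN0,
 nat_lit 0, nat_lit 0, nat_lit 0, nat_lit 0, nat_lit 0, nat_lit 0, nat_lit 0, nat_lit 0, nat_lit 0, nat_lit 0, nat_lit 0, nat_lit 0, nat_lit 0, nat_lit 0, nat_lit 0, nat_lit 0, nat_lit 0, nat_lit 0, [],
 ⟨p004_k39, nat_lit 0, nat_lit 0, nat_lit 212, nat_lit 0, nat_lit 0, [], [], [], nat_lit 0, nat_lit 0, nat_lit 0, nat_lit 0, nat_lit 0, nat_lit 0, [], [nat_lit 51, nat_lit 40, nat_lit 20, nat_lit 80, nat_lit 1, nat_lit 289, nat_lit 75, nat_lit 9]⟩, C1.Rw.none,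
 zbF0, []⟩
noncomputable def p004_l120 : Lf2 := ⟨nat_lit 3, nat_lit 5, [nat_lit 4, nat_lit 5, nat_lit 5, nat_lit 20], false, nat_lit 0, nat_lit 0, nat_lit 0, nat_lit 0, zbN0,
 nat_lit 0, nat_lit 0, nat_lit 0, nat_lit 0, nat_lit 0, nat_lit 0, nat_lit 0, nat_lit 0, nat_lit 0, nat_lit 0, nat_lit 0, nat_lit 0, nat_lit 0, nat_lit 0, nat_lit 0, nat_lit 0, nat_lit 0, nat_lit 0, [],
 C1.Rw.none, ⟨p004_k35, nat_lit 0, nat_lit 0, nat_lit 212, nat_lit 0, nat_lit 0, [], [], [], nat_lit 0, nat_lit 0, nat_lit 0, nat_lit 0, nat_lit 0, nat_lit 0, [], [nat_lit 51, nat_lit 40, nat_lit 20, nat_lit 80, nat_lit 1, nat_lit 289, nat_lit 75, nat_lit 9]⟩,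
 zbF0, []⟩
noncomputable def b_NL_550_550_0_2 : St := ⟨false, nat_lit 0, nat_lit 0, nat_lit 1, nat_lit 20, nat_lit 230, nat_lit 240, nat_lit 230, nat_lit 240, nat_lit 8, nat_lit 16, nat_lit 0, nat_lit 0, nat_lit 0, nat_lit 0, nat_lit 0, nat_lit 0, nat_lit 20, nat_lit 40, nat_lit 0, nat_lit 0, nat_lit 0, nat_lit 0⟩
theorem d_NL_550_550_0_2 (h : EB TB.env) : Dead b_NL_550_550_0_2 := chkB_sound0 h (T :=
(.spl (nat_lit 6) (nat_lit 32)
(.spl (nat_lit 6) (nat_lit 24)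
(.leaf p004_l93)
(.spl (nat_lit 6) (nat_lit 28)
(.spl (nat_lit 0) (nat_lit 235)
(.ord (.spl (nat_lit 2) (nat_lit 12)
(.spl (nat_lit 0) (nat_lit 233)
(.ord (.spl (nat_lit 0) (nat_lit 232)
(.ord (.spl (nat_lit 0) (nat_lit 231)
(.ord (.spl (nat_lit 8) (nat_lit 800)
(.spl (nat_lit 7) (nat_lit 600)
(.leaf p004_l94)
(.leaf p004_l95))
(.leaf p004_l96)))
(.spl (nat_lit 1) (nat_lit 231)
(.spl (nat_lit 8) (nat_lit 800)
(.spl (nat_lit 7) (nat_lit 600)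
(.leaf p004_l97)
(.leaf p004_l98))
(.leaf p004_l99))
(.spl (nat_lit 8) (nat_lit 800)
(.spl (nat_lit 7) (nat_lit 600)
(.leaf p004_l100)
(.leaf p004_l101))
(.leaf p004_l102)))))
(.spl (nat_lit 1) (nat_lit 232)
(.spl (nat_lit 1) (nat_lit 231)
(.leaf p004_l103)
(.spl (nat_lit 8) (nat_lit 800)
(.spl (nat_lit 7) (nat_lit 600)
(.leaf p004_l104)
(.leaf p004_l105))
(.leaf p004_l106)))
(.spl (nat_lit 8) (nat_lit 800)
(.spl (nat_lit 7) (nat_lit 600)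
(.leaf p004_l107)
(.leaf p004_l108))
(.leaf p004_l109)))))
(.leaf p004_l110))
(.leaf p004_l111)))
(.leaf p004_l112))
(.spl (nat_lit 8) (nat_lit 800)
(.spl (nat_lit 7) (nat_lit 600)
(.leaf p004_l113)
(.leaf p004_l114))
(.leaf p004_l115))))
(.spl (nat_lit 2) (nat_lit 12)
(.leaf p004_l116)
(.spl (nat_lit 0) (nat_lit 235)
(.ord (.leaf p004_l117))
(.spl (nat_lit 8) (nat_lit 800)
(.spl (nat_lit 7) (nat_lit 600)
(.leaf p004_l118)
(.leaf p004_l119))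
(.leaf p004_l120)))))) (by decide +kernel)
noncomputable def p004_l121 : Lf2 := ⟨nat_lit 0, nat_lit 5, [nat_lit 4, nat_lit 5, nat_lit 5, nat_lit 20], true, nat_lit 0, nat_lit 0, nat_lit 0, nat_lit 0, ⟨nat_lit 0, nat_lit 0, nat_lit 1000, nat_lit 5, nat_lit 63, nat_lit 0, nat_lit 0, nat_lit 0, nat_lit 0, nat_lit 215, nat_lit 38400, nat_lit 263, nat_lit 65353205, nat_lit 0, nat_lit 0, nat_lit 576769, false, false⟩,
 nat_lit 0, nat_lit 0, nat_lit 0, nat_lit 0, nat_lit 5269, nat_lit 0, nat_lit 0, nat_lit 0, nat_lit 0, nat_lit 0, nat_lit 0, nat_lit 0, nat_lit 0, nat_lit 11617618530095, nat_lit 60, nat_lit 400000, nat_lit 0, nat_lit 0, [(nat_lit 3, [(nat_lit 5, nat_lit 1000)])],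
 ⟨p004_k18, nat_lit 0, nat_lit 0, nat_lit 229, nat_lit 0, nat_lit 0, [nat_lit 2770400000, nat_lit 702400001, nat_lit 2000000], [], [nat_lit 15863964796, nat_lit 16364978645, nat_lit 15591343615, nat_lit 16092441168], nat_lit 0, nat_lit 0, nat_lit 0, nat_lit 0, nat_lit 0, nat_lit 0, [], [nat_lit 25, nat_lit 40, nat_lit 20, nat_lit 80, nat_lit 17, nat_lit 289, nat_lit 75, nat_lit 9]⟩, C1.Rw.none,
 ⟨nat_lit 6324, nat_lit 6520, ⟨.ofNat (nat_lit 144831), .ofNat (nat_lit 153250), .ofNat (nat_lit 155530), .ofNat (nat_lit 163949), .ofNat (nat_lit 153635), .ofNat (nat_lit 161861), .ofNat (nat_lit 164319), .ofNat (nat_lit 172545)⟩, ⟨.ofNat (nat_lit 0), .ofNat (nat_lit 0), .ofNat (nat_lit 0), .ofNat (nat_lit 0), .ofNat (nat_lit 0), .ofNat (nat_lit 0), .ofNat (nat_lit 0), .ofNat (nat_lit 0)⟩⟩, []⟩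
noncomputable def p004_l122 : Lf2 := ⟨nat_lit 0, nat_lit 5, [nat_lit 4, nat_lit 5, nat_lit 5, nat_lit 20], true, nat_lit 0, nat_lit 0, nat_lit 0, nat_lit 0, ⟨nat_lit 0, nat_lit 0, nat_lit 1000, nat_lit 5, nat_lit 62, nat_lit 0, nat_lit 0, nat_lit 0, nat_lit 0, nat_lit 215, nat_lit 36817, nat_lit 262, nat_lit 65406888, nat_lit 0, nat_lit 0, nat_lit 561952, false, false⟩,
 nat_lit 0, nat_lit 0, nat_lit 0, nat_lit 7293, nat_lit 5269, nat_lit 0, nat_lit 0, nat_lit 0, nat_lit 0, nat_lit 0, nat_lit 0, nat_lit 0, nat_lit 0, nat_lit 0, nat_lit 60, nat_lit 400000, nat_lit 0, nat_lit 0, [(nat_lit 3, [(nat_lit 5, nat_lit 1000)])],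
 ⟨p004_k18, nat_lit 0, nat_lit 0, nat_lit 229, nat_lit 0, nat_lit 0, [nat_lit 2770400000, nat_lit 702400001, nat_lit 2000000], [], [nat_lit 15863964796, nat_lit 16364978645, nat_lit 15591343615, nat_lit 16092441168], nat_lit 0, nat_lit 0, nat_lit 0, nat_lit 0, nat_lit 0, nat_lit 0, [], [nat_lit 25, nat_lit 40, nat_lit 20, nat_lit 80, nat_lit 17, nat_lit 289, nat_lit 75, nat_lit 9]⟩, C1.Rw.none,
 ⟨nat_lit 6324, nat_lit 6520, ⟨.ofNat (nat_lit 144831), .ofNat (nat_lit 153250), .ofNat (nat_lit 150181), .ofNat (nat_lit 158599), .ofNat (nat_lit 153635), .ofNat (nat_lit 161861), .ofNat (nat_lit 158977), .ofNat (nat_lit 167203)⟩, ⟨.ofNat (nat_lit 0), .ofNat (nat_lit 0), .ofNat (nat_lit 0), .ofNat (nat_lit 0), .ofNat (nat_lit 0), .ofNat (nat_lit 0), .ofNat (nat_lit 0), .ofNat (nat_lit 0)⟩⟩, []⟩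
noncomputable def p004_l123 : Lf2 := ⟨nat_lit 0, nat_lit 5, [nat_lit 4, nat_lit 5, nat_lit 5, nat_lit 20], true, nat_lit 0, nat_lit 0, nat_lit 0, nat_lit 0, ⟨nat_lit 0, nat_lit 0, nat_lit 1000, nat_lit 5, nat_lit 64, nat_lit 0, nat_lit 0, nat_lit 0, nat_lit 0, nat_lit 215, nat_lit 38400, nat_lit 263, nat_lit 65333097, nat_lit 0, nat_lit 0, nat_lit 582284, false, false⟩,
 nat_lit 0, nat_lit 0, nat_lit 0, nat_lit 3476, nat_lit 5313, nat_lit 0, nat_lit 0, nat_lit 0, nat_lit 0, nat_lit 0, nat_lit 0, nat_lit 0, nat_lit 0, nat_lit 17225457201484, nat_lit 60, nat_lit 400000, nat_lit 0, nat_lit 0, [(nat_lit 3, [(nat_lit 5, nat_lit 1000)])],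
 ⟨p004_k34, nat_lit 0, nat_lit 0, nat_lit 227, nat_lit 0, nat_lit 0, [nat_lit 2770400000, nat_lit 702400001, nat_lit 2000000], [], [nat_lit 16096607593, nat_lit 16146873352, nat_lit 15821368746, nat_lit 15871643224], nat_lit 0, nat_lit 0, nat_lit 0, nat_lit 0, nat_lit 0, nat_lit 0, [], [nat_lit 25, nat_lit 40, nat_lit 20, nat_lit 80, nat_lit 17, nat_lit 289, nat_lit 75, nat_lit 9]⟩, C1.Rw.none,
 ⟨nat_lit 6403, nat_lit 6423, ⟨.ofNat (nat_lit 154601), .ofNat (nat_lit 162923), .ofNat (nat_lit 155670), .ofNat (nat_lit 163992), .ofNat (nat_lit 155479), .ofNat (nat_lit 163782), .ofNat (nat_lit 156548), .ofNat (nat_lit 164851)⟩, ⟨.ofNat (nat_lit 0), .ofNat (nat_lit 0), .ofNat (nat_lit 0), .ofNat (nat_lit 0), .ofNat (nat_lit 0), .ofNat (nat_lit 0), .ofNat (nat_lit 0), .ofNat (nat_lit 0)⟩⟩, []⟩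
noncomputable def p004_l124 : Lf2 := ⟨nat_lit 0, nat_lit 5, [nat_lit 4, nat_lit 5, nat_lit 5, nat_lit 20], true, nat_lit 0, nat_lit 0, nat_lit 0, nat_lit 0, ⟨nat_lit 0, nat_lit 0, nat_lit 1000, nat_lit 5, nat_lit 64, nat_lit 0, nat_lit 0, nat_lit 0, nat_lit 0, nat_lit 215, nat_lit 38400, nat_lit 263, nat_lit 65315388, nat_lit 0, nat_lit 0, nat_lit 587126, false, false⟩,
 nat_lit 0, nat_lit 0, nat_lit 0, nat_lit 3476, nat_lit 5313, nat_lit 0, nat_lit 0, nat_lit 0, nat_lit 0, nat_lit 0, nat_lit 0, nat_lit 0, nat_lit 0, nat_lit 0, nat_lit 60, nat_lit 400000, nat_lit 0, nat_lit 0, [(nat_lit 3, [(nat_lit 5, nat_lit 1000)])],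
 ⟨p004_k40, nat_lit 0, nat_lit 0, nat_lit 227, nat_lit 0, nat_lit 0, [nat_lit 2770400000, nat_lit 702400001, nat_lit 2000000], [], [nat_lit 16146873352, nat_lit 16209196040, nat_lit 15871643224, nat_lit 15921917702], nat_lit 0, nat_lit 0, nat_lit 0, nat_lit 0, nat_lit 0, nat_lit 0, [], [nat_lit 25, nat_lit 40, nat_lit 20, nat_lit 80, nat_lit 17, nat_lit 289, nat_lit 75, nat_lit 9]⟩, C1.Rw.none,
 ⟨nat_lit 6383, nat_lit 6404, ⟨.ofNat (nat_lit 155479), .ofNat (nat_lit 163782), .ofNat (nat_lit 156548), .ofNat (nat_lit 164851), .ofNat (nat_lit 156356), .ofNat (nat_lit 164640), .ofNat (nat_lit 157425), .ofNat (nat_lit 165709)⟩, ⟨.ofNat (nat_lit 0), .ofNat (nat_lit 0), .ofNat (nat_lit 0), .ofNat (nat_lit 0), .ofNat (nat_lit 0), .ofNat (nat_lit 0), .ofNat (nat_lit 0), .ofNat (nat_lit 0)⟩⟩, []⟩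
noncomputable def p004_l125 : Lf2 := ⟨nat_lit 0, nat_lit 5, [nat_lit 4, nat_lit 5, nat_lit 5, nat_lit 20], true, nat_lit 0, nat_lit 0, nat_lit 0, nat_lit 0, ⟨nat_lit 0, nat_lit 0, nat_lit 1000, nat_lit 5, nat_lit 65, nat_lit 0, nat_lit 0, nat_lit 0, nat_lit 0, nat_lit 215, nat_lit 38400, nat_lit 263, nat_lit 65293460, nat_lit 0, nat_lit 0, nat_lit 593101, false, false⟩,
 nat_lit 0, nat_lit 0, nat_lit 0, nat_lit 3469, nat_lit 4792, nat_lit 0, nat_lit 0, nat_lit 0, nat_lit 0, nat_lit 0, nat_lit 0, nat_lit 0, nat_lit 0, nat_lit 5235253159663, nat_lit 54, nat_lit 400000, nat_lit 0, nat_lit 0, [(nat_lit 3, [(nat_lit 5, nat_lit 1000)])],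
 ⟨p004_k41, nat_lit 0, nat_lit 0, nat_lit 0, nat_lit 0, nat_lit 0, [nat_lit 2385360001, nat_lit 965600001, nat_lit 151199999], [], [nat_lit 14499276002, nat_lit 14553135712, nat_lit 14255944215, nat_lit 14309798761], nat_lit 0, nat_lit 0, nat_lit 0, nat_lit 0, nat_lit 0, nat_lit 0, [], [nat_lit 96, nat_lit 40, nat_lit 20, nat_lit 40]⟩, C1.Rw.none,
 ⟨nat_lit 6383, nat_lit 6404, ⟨.ofNat (nat_lit 156548), .ofNat (nat_lit 164851), .ofNat (nat_lit 157617), .ofNat (nat_lit 165920), .ofNat (nat_lit 157425), .ofNat (nat_lit 165709), .ofNat (nat_lit 158494), .ofNat (nat_lit 166778)⟩, ⟨.ofNat (nat_lit 0), .ofNat (nat_lit 0), .ofNat (nat_lit 0), .ofNat (nat_lit 0), .ofNat (nat_lit 0), .ofNat (nat_lit 0), .ofNat (nat_lit 0), .ofNat (nat_lit 0)⟩⟩, []⟩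
noncomputable def p004_l126 : Lf2 := ⟨nat_lit 2, nat_lit 5, [nat_lit 4, nat_lit 5, nat_lit 5, nat_lit 20], true, nat_lit 0, nat_lit 0, nat_lit 0, nat_lit 0, zbN0,
 nat_lit 0, nat_lit 0, nat_lit 0, nat_lit 0, nat_lit 0, nat_lit 0, nat_lit 0, nat_lit 0, nat_lit 0, nat_lit 0, nat_lit 0, nat_lit 0, nat_lit 0, nat_lit 0, nat_lit 0, nat_lit 0, nat_lit 0, nat_lit 0, [],
 ⟨p004_k42, nat_lit 0, nat_lit 0, nat_lit 205, nat_lit 0, nat_lit 0, [], [], [], nat_lit 0, nat_lit 0, nat_lit 0, nat_lit 0, nat_lit 0, nat_lit 0, [], [nat_lit 51, nat_lit 40, nat_lit 20, nat_lit 80, nat_lit 1, nat_lit 289, nat_lit 75, nat_lit 9]⟩, C1.Rw.none,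
 zbF0, []⟩
noncomputable def p004_l127 : Lf2 := ⟨nat_lit 3, nat_lit 5, [nat_lit 4, nat_lit 5, nat_lit 5, nat_lit 20], false, nat_lit 0, nat_lit 0, nat_lit 0, nat_lit 0, zbN0,
 nat_lit 0, nat_lit 0, nat_lit 0, nat_lit 0, nat_lit 0, nat_lit 0, nat_lit 0, nat_lit 0, nat_lit 0, nat_lit 0, nat_lit 0, nat_lit 0, nat_lit 0, nat_lit 0, nat_lit 0, nat_lit 0, nat_lit 0, nat_lit 0, [],
 C1.Rw.none, ⟨p004_k42, nat_lit 0, nat_lit 0, nat_lit 205, nat_lit 0, nat_lit 0, [], [], [], nat_lit 0, nat_lit 0, nat_lit 0, nat_lit 0, nat_lit 0, nat_lit 0, [], [nat_lit 51, nat_lit 40, nat_lit 20, nat_lit 80, nat_lit 1, nat_lit 289, nat_lit 75, nat_lit 9]⟩,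
 zbF0, []⟩
noncomputable def p004_l128 : Lf2 := ⟨nat_lit 0, nat_lit 5, [nat_lit 4, nat_lit 5, nat_lit 5, nat_lit 20], true, nat_lit 0, nat_lit 0, nat_lit 0, nat_lit 0, ⟨nat_lit 0, nat_lit 0, nat_lit 1000, nat_lit 5, nat_lit 65, nat_lit 0, nat_lit 0, nat_lit 0, nat_lit 0, nat_lit 215, nat_lit 38400, nat_lit 263, nat_lit 65297624, nat_lit 0, nat_lit 0, nat_lit 591968, false, false⟩,
 nat_lit 0, nat_lit 0, nat_lit 0, nat_lit 3472, nat_lit 5302, nat_lit 0, nat_lit 0, nat_lit 0, nat_lit 0, nat_lit 0, nat_lit 0, nat_lit 0, nat_lit 0, nat_lit 0, nat_lit 60, nat_lit 400000, nat_lit 0, nat_lit 0, [(nat_lit 3, [(nat_lit 5, nat_lit 1000)])],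
 ⟨p004_k43, nat_lit 0, nat_lit 0, nat_lit 228, nat_lit 0, nat_lit 0, [nat_lit 2770400000, nat_lit 702400001, nat_lit 2000000], [], [nat_lit 16201522956, nat_lit 16263662832, nat_lit 15926966252, nat_lit 15977199550], nat_lit 0, nat_lit 0, nat_lit 0, nat_lit 0, nat_lit 0, nat_lit 0, [], [nat_lit 25, nat_lit 40, nat_lit 20, nat_lit 80, nat_lit 17, nat_lit 289, nat_lit 75, nat_lit 9]⟩, C1.Rw.none,
 ⟨nat_lit 6363, nat_lit 6384, ⟨.ofNat (nat_lit 156356), .ofNat (nat_lit 164640), .ofNat (nat_lit 157425), .ofNat (nat_lit 165709), .ofNat (nat_lit 157231), .ofNat (nat_lit 165496), .ofNat (nat_lit 158300), .ofNat (nat_lit 166565)⟩, ⟨.ofNat (nat_lit 0), .ofNat (nat_lit 0), .ofNat (nat_lit 0), .ofNat (nat_lit 0), .ofNat (nat_lit 0), .ofNat (nat_lit 0), .ofNat (nat_lit 0), .ofNat (nat_lit 0)⟩⟩, []⟩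
noncomputable def p004_l129 : Lf2 := ⟨nat_lit 0, nat_lit 5, [nat_lit 4, nat_lit 5, nat_lit 5, nat_lit 20], false, nat_lit 0, nat_lit 0, nat_lit 0, nat_lit 0, ⟨nat_lit 1000, nat_lit 0, nat_lit 0, nat_lit 0, nat_lit 0, nat_lit 0, nat_lit 0, nat_lit 0, nat_lit 0, nat_lit 0, nat_lit 0, nat_lit 0, nat_lit 0, nat_lit 0, nat_lit 0, nat_lit 0, false, false⟩,
 nat_lit 0, nat_lit 0, nat_lit 0, nat_lit 2361, nat_lit 9464, nat_lit 8439, nat_lit 0, nat_lit 0, nat_lit 0, nat_lit 0, nat_lit 0, nat_lit 0, nat_lit 0, nat_lit 0, nat_lit 0, nat_lit 0, nat_lit 0, nat_lit 0, [],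
 ⟨p004_k43, nat_lit 0, nat_lit 0, nat_lit 228, nat_lit 0, nat_lit 0, [nat_lit 6250000000, nat_lit 7968000001, nat_lit 9842000000], [], [nat_lit 30742435519, nat_lit 30826450755, nat_lit 30216378478, nat_lit 30282193055], nat_lit 0, nat_lit 0, nat_lit 0, nat_lit 0, nat_lit 0, nat_lit 0, [], [nat_lit 25, nat_lit 40, nat_lit 20, nat_lit 80, nat_lit 17, nat_lit 289, nat_lit 75, nat_lit 9]⟩, ⟨p004_k41, nat_lit 0, nat_lit 0, nat_lit 0, nat_lit 0, nat_lit 0, [nat_lit 5449500000, nat_lit 7089500000, nat_lit 8885500000], [], [nat_lit 26541474986, nat_lit 26627015529, nat_lit 26076950315, nat_lit 26147678437], nat_lit 0, nat_lit 0, nat_lit 0, nat_lit 0, nat_lit 0, nat_lit 0, [], [nat_lit 96, nat_lit 40, nat_lit 20, nat_lit 40]⟩,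
 zbF0, []⟩
noncomputable def p004_l130 : Lf2 := ⟨nat_lit 3, nat_lit 5, [nat_lit 4, nat_lit 5, nat_lit 5, nat_lit 20], false, nat_lit 0, nat_lit 0, nat_lit 0, nat_lit 0, zbN0,
 nat_lit 0, nat_lit 0, nat_lit 0, nat_lit 0, nat_lit 0, nat_lit 0, nat_lit 0, nat_lit 0, nat_lit 0, nat_lit 0, nat_lit 0, nat_lit 0, nat_lit 0, nat_lit 0, nat_lit 0, nat_lit 0, nat_lit 0, nat_lit 0, [],
 C1.Rw.none, ⟨p004_k42, nat_lit 0, nat_lit 0, nat_lit 205, nat_lit 0, nat_lit 0, [], [], [], nat_lit 0, nat_lit 0, nat_lit 0, nat_lit 0, nat_lit 0, nat_lit 0, [], [nat_lit 51, nat_lit 40, nat_lit 20, nat_lit 80, nat_lit 1, nat_lit 289, nat_lit 75, nat_lit 9]⟩,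
 zbF0, []⟩
noncomputable def p004_l131 : Lf2 := ⟨nat_lit 0, nat_lit 5, [nat_lit 4, nat_lit 5, nat_lit 5, nat_lit 20], false, nat_lit 0, nat_lit 0, nat_lit 0, nat_lit 0, ⟨nat_lit 1000, nat_lit 0, nat_lit 0, nat_lit 0, nat_lit 0, nat_lit 0, nat_lit 0, nat_lit 0, nat_lit 0, nat_lit 0, nat_lit 0, nat_lit 0, nat_lit 0, nat_lit 0, nat_lit 0, nat_lit 0, false, false⟩,
 nat_lit 0, nat_lit 0, nat_lit 0, nat_lit 2359, nat_lit 9464, nat_lit 8425, nat_lit 0, nat_lit 0, nat_lit 0, nat_lit 0, nat_lit 0, nat_lit 0, nat_lit 0, nat_lit 0, nat_lit 0, nat_lit 0, nat_lit 0, nat_lit 0, [],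
 ⟨p004_k43, nat_lit 0, nat_lit 0, nat_lit 228, nat_lit 0, nat_lit 0, [nat_lit 6250000000, nat_lit 7968000001, nat_lit 9842000000], [], [nat_lit 30742435519, nat_lit 30826450755, nat_lit 30216378478, nat_lit 30282193055], nat_lit 0, nat_lit 0, nat_lit 0, nat_lit 0, nat_lit 0, nat_lit 0, [], [nat_lit 25, nat_lit 40, nat_lit 20, nat_lit 80, nat_lit 17, nat_lit 289, nat_lit 75, nat_lit 9]⟩, ⟨p004_k44, nat_lit 0, nat_lit 0, nat_lit 0, nat_lit 0, nat_lit 0, [nat_lit 5449500000, nat_lit 7089500000, nat_lit 8885500000], [], [nat_lit 26620305214, nat_lit 26705558032, nat_lit 26156647958, nat_lit 26227311305], nat_lit 0, nat_lit 0, nat_lit 0, nat_lit 0, nat_lit 0, nat_lit 0, [], [nat_lit 96, nat_lit 40, nat_lit 20, nat_lit 40]⟩,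
 zbF0, []⟩
noncomputable def p004_l132 : Lf2 := ⟨nat_lit 3, nat_lit 5, [nat_lit 4, nat_lit 5, nat_lit 5, nat_lit 20], false, nat_lit 0, nat_lit 0, nat_lit 0, nat_lit 0, zbN0,
 nat_lit 0, nat_lit 0, nat_lit 0, nat_lit 0, nat_lit 0, nat_lit 0, nat_lit 0, nat_lit 0, nat_lit 0, nat_lit 0, nat_lit 0, nat_lit 0, nat_lit 0, nat_lit 0, nat_lit 0, nat_lit 0, nat_lit 0, nat_lit 0, [],
 C1.Rw.none, ⟨p004_k45, nat_lit 0, nat_lit 0, nat_lit 205, nat_lit 0, nat_lit 0, [], [], [], nat_lit 0, nat_lit 0, nat_lit 0, nat_lit 0, nat_lit 0, nat_lit 0, [], [nat_lit 51, nat_lit 40, nat_lit 20, nat_lit 80, nat_lit 1, nat_lit 289, nat_lit 75, nat_lit 9]⟩,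
 zbF0, []⟩
noncomputable def p004_l133 : Lf2 := ⟨nat_lit 0, nat_lit 5, [nat_lit 4, nat_lit 5, nat_lit 5, nat_lit 20], true, nat_lit 0, nat_lit 0, nat_lit 0, nat_lit 0, ⟨nat_lit 0, nat_lit 0, nat_lit 1000, nat_lit 5, nat_lit 65, nat_lit 0, nat_lit 0, nat_lit 0, nat_lit 0, nat_lit 215, nat_lit 40017, nat_lit 264, nat_lit 65279812, nat_lit 0, nat_lit 0, nat_lit 596809, false, false⟩,
 nat_lit 0, nat_lit 0, nat_lit 0, nat_lit 3469, nat_lit 5291, nat_lit 0, nat_lit 0, nat_lit 0, nat_lit 0, nat_lit 0, nat_lit 0, nat_lit 0, nat_lit 0, nat_lit 0, nat_lit 60, nat_lit 400000, nat_lit 0, nat_lit 0, [(nat_lit 3, [(nat_lit 5, nat_lit 1000)])],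
 ⟨p004_k46, nat_lit 0, nat_lit 0, nat_lit 228, nat_lit 0, nat_lit 0, [nat_lit 2770400000, nat_lit 702400001, nat_lit 2000000], [], [nat_lit 16256090373, nat_lit 16318012504, nat_lit 15982206919, nat_lit 16032399036], nat_lit 0, nat_lit 0, nat_lit 0, nat_lit 0, nat_lit 0, nat_lit 0, [], [nat_lit 25, nat_lit 40, nat_lit 20, nat_lit 80, nat_lit 17, nat_lit 289, nat_lit 75, nat_lit 9]⟩, C1.Rw.none,
 ⟨nat_lit 6344, nat_lit 6364, ⟨.ofNat (nat_lit 157231), .ofNat (nat_lit 165496), .ofNat (nat_lit 158300), .ofNat (nat_lit 166565), .ofNat (nat_lit 158105), .ofNat (nat_lit 166350), .ofNat (nat_lit 159173), .ofNat (nat_lit 167419)⟩, ⟨.ofNat (nat_lit 0), .ofNat (nat_lit 0), .ofNat (nat_lit 0), .ofNat (nat_lit 0), .ofNat (nat_lit 0), .ofNat (nat_lit 0), .ofNat (nat_lit 0), .ofNat (nat_lit 0)⟩⟩, []⟩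
noncomputable def p004_l134 : Lf2 := ⟨nat_lit 0, nat_lit 5, [nat_lit 4, nat_lit 5, nat_lit 5, nat_lit 20], false, nat_lit 0, nat_lit 0, nat_lit 0, nat_lit 0, ⟨nat_lit 1000, nat_lit 0, nat_lit 0, nat_lit 0, nat_lit 0, nat_lit 0, nat_lit 0, nat_lit 0, nat_lit 0, nat_lit 0, nat_lit 0, nat_lit 0, nat_lit 0, nat_lit 0, nat_lit 0, nat_lit 0, false, false⟩,
 nat_lit 0, nat_lit 0, nat_lit 0, nat_lit 2359, nat_lit 9447, nat_lit 8439, nat_lit 0, nat_lit 0, nat_lit 0, nat_lit 0, nat_lit 0, nat_lit 0, nat_lit 0, nat_lit 0, nat_lit 0, nat_lit 0, nat_lit 0, nat_lit 0, [],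
 ⟨p004_k46, nat_lit 0, nat_lit 0, nat_lit 228, nat_lit 0, nat_lit 0, [nat_lit 6250000000, nat_lit 7968000001, nat_lit 9842000000], [], [nat_lit 30814920025, nat_lit 30898538948, nat_lit 30289931717, nat_lit 30355682651], nat_lit 0, nat_lit 0, nat_lit 0, nat_lit 0, nat_lit 0, nat_lit 0, [], [nat_lit 25, nat_lit 40, nat_lit 20, nat_lit 80, nat_lit 17, nat_lit 289, nat_lit 75, nat_lit 9]⟩, ⟨p004_k41, nat_lit 0, nat_lit 0, nat_lit 0, nat_lit 0, nat_lit 0, [nat_lit 5449500000, nat_lit 7089500000, nat_lit 8885500000], [], [nat_lit 26541474986, nat_lit 26627015529, nat_lit 26076950315, nat_lit 26147678437], nat_lit 0, nat_lit 0, nat_lit 0, nat_lit 0, nat_lit 0, nat_lit 0, [], [nat_lit 96, nat_lit 40, nat_lit 20, nat_lit 40]⟩,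
 zbF0, []⟩
noncomputable def p004_l135 : Lf2 := ⟨nat_lit 3, nat_lit 5, [nat_lit 4, nat_lit 5, nat_lit 5, nat_lit 20], false, nat_lit 0, nat_lit 0, nat_lit 0, nat_lit 0, zbN0,
 nat_lit 0, nat_lit 0, nat_lit 0, nat_lit 0, nat_lit 0, nat_lit 0, nat_lit 0, nat_lit 0, nat_lit 0, nat_lit 0, nat_lit 0, nat_lit 0, nat_lit 0, nat_lit 0, nat_lit 0, nat_lit 0, nat_lit 0, nat_lit 0, [],
 C1.Rw.none, ⟨p004_k42, nat_lit 0, nat_lit 0, nat_lit 205, nat_lit 0, nat_lit 0, [], [], [], nat_lit 0, nat_lit 0, nat_lit 0, nat_lit 0, nat_lit 0, nat_lit 0, [], [nat_lit 51, nat_lit 40, nat_lit 20, nat_lit 80, nat_lit 1, nat_lit 289, nat_lit 75, nat_lit 9]⟩,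
 zbF0, []⟩
noncomputable def p004_l136 : Lf2 := ⟨nat_lit 0, nat_lit 5, [nat_lit 4, nat_lit 5, nat_lit 5, nat_lit 20], true, nat_lit 0, nat_lit 0, nat_lit 0, nat_lit 0, ⟨nat_lit 0, nat_lit 0, nat_lit 1000, nat_lit 5, nat_lit 65, nat_lit 0, nat_lit 0, nat_lit 0, nat_lit 0, nat_lit 215, nat_lit 40017, nat_lit 264, nat_lit 65250846, nat_lit 0, nat_lit 0, nat_lit 604652, false, false⟩,
 nat_lit 0, nat_lit 0, nat_lit 0, nat_lit 3462, nat_lit 5280, nat_lit 0, nat_lit 0, nat_lit 0, nat_lit 0, nat_lit 0, nat_lit 0, nat_lit 0, nat_lit 0, nat_lit 0, nat_lit 60, nat_lit 400000, nat_lit 0, nat_lit 0, [(nat_lit 3, [(nat_lit 5, nat_lit 1000)])],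
 ⟨p004_k47, nat_lit 0, nat_lit 0, nat_lit 229, nat_lit 0, nat_lit 0, [nat_lit 2770400000, nat_lit 702400001, nat_lit 2000000], [], [nat_lit 16310575602, nat_lit 16372245056, nat_lit 16037365225, nat_lit 16087516160], nat_lit 0, nat_lit 0, nat_lit 0, nat_lit 0, nat_lit 0, nat_lit 0, [], [nat_lit 25, nat_lit 40, nat_lit 20, nat_lit 80, nat_lit 17, nat_lit 289, nat_lit 75, nat_lit 9]⟩, C1.Rw.none,
 ⟨nat_lit 6324, nat_lit 6345, ⟨.ofNat (nat_lit 158105), .ofNat (nat_lit 166350), .ofNat (nat_lit 160242), .ofNat (nat_lit 168487), .ofNat (nat_lit 158977), .ofNat (nat_lit 167203), .ofNat (nat_lit 161114), .ofNat (nat_lit 169340)⟩, ⟨.ofNat (nat_lit 0), .ofNat (nat_lit 0), .ofNat (nat_lit 0), .ofNat (nat_lit 0), .ofNat (nat_lit 0), .ofNat (nat_lit 0), .ofNat (nat_lit 0), .ofNat (nat_lit 0)⟩⟩, []⟩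
noncomputable def p004_l137 : Lf2 := ⟨nat_lit 0, nat_lit 5, [nat_lit 4, nat_lit 5, nat_lit 5, nat_lit 20], false, nat_lit 0, nat_lit 0, nat_lit 0, nat_lit 0, ⟨nat_lit 1000, nat_lit 0, nat_lit 0, nat_lit 0, nat_lit 0, nat_lit 0, nat_lit 0, nat_lit 0, nat_lit 0, nat_lit 0, nat_lit 0, nat_lit 0, nat_lit 0, nat_lit 0, nat_lit 0, nat_lit 0, false, false⟩,
 nat_lit 0, nat_lit 0, nat_lit 0, nat_lit 2356, nat_lit 9447, nat_lit 8425, nat_lit 0, nat_lit 0, nat_lit 0, nat_lit 0, nat_lit 0, nat_lit 0, nat_lit 0, nat_lit 0, nat_lit 0, nat_lit 0, nat_lit 0, nat_lit 0, [],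
 ⟨p004_k46, nat_lit 0, nat_lit 0, nat_lit 228, nat_lit 0, nat_lit 0, [nat_lit 6250000000, nat_lit 7968000001, nat_lit 9842000000], [], [nat_lit 30814920025, nat_lit 30898538948, nat_lit 30289931717, nat_lit 30355682651], nat_lit 0, nat_lit 0, nat_lit 0, nat_lit 0, nat_lit 0, nat_lit 0, [], [nat_lit 25, nat_lit 40, nat_lit 20, nat_lit 80, nat_lit 17, nat_lit 289, nat_lit 75, nat_lit 9]⟩, ⟨p004_k44, nat_lit 0, nat_lit 0, nat_lit 0, nat_lit 0, nat_lit 0, [nat_lit 5449500000, nat_lit 7089500000, nat_lit 8885500000], [], [nat_lit 26620305214, nat_lit 26705558032, nat_lit 26156647958, nat_lit 26227311305], nat_lit 0, nat_lit 0, nat_lit 0, nat_lit 0, nat_lit 0, nat_lit 0, [], [nat_lit 96, nat_lit 40, nat_lit 20, nat_lit 40]⟩,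
 zbF0, []⟩
noncomputable def p004_l138 : Lf2 := ⟨nat_lit 3, nat_lit 5, [nat_lit 4, nat_lit 5, nat_lit 5, nat_lit 20], false, nat_lit 0, nat_lit 0, nat_lit 0, nat_lit 0, zbN0,
 nat_lit 0, nat_lit 0, nat_lit 0, nat_lit 0, nat_lit 0, nat_lit 0, nat_lit 0, nat_lit 0, nat_lit 0, nat_lit 0, nat_lit 0, nat_lit 0, nat_lit 0, nat_lit 0, nat_lit 0, nat_lit 0, nat_lit 0, nat_lit 0, [],
 C1.Rw.none, ⟨p004_k45, nat_lit 0, nat_lit 0, nat_lit 205, nat_lit 0, nat_lit 0, [], [], [], nat_lit 0, nat_lit 0, nat_lit 0, nat_lit 0, nat_lit 0, nat_lit 0, [], [nat_lit 51, nat_lit 40, nat_lit 20, nat_lit 80, nat_lit 1, nat_lit 289, nat_lit 75, nat_lit 9]⟩,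
 zbF0, []⟩
noncomputable def p004_l139 : Lf2 := ⟨nat_lit 0, nat_lit 5, [nat_lit 4, nat_lit 5, nat_lit 5, nat_lit 20], false, nat_lit 0, nat_lit 0, nat_lit 0, nat_lit 0, ⟨nat_lit 1000, nat_lit 0, nat_lit 0, nat_lit 0, nat_lit 0, nat_lit 0, nat_lit 0, nat_lit 0, nat_lit 0, nat_lit 0, nat_lit 0, nat_lit 0, nat_lit 0, nat_lit 0, nat_lit 0, nat_lit 0, false, false⟩,
 nat_lit 0, nat_lit 0, nat_lit 0, nat_lit 2354, nat_lit 9431, nat_lit 8425, nat_lit 0, nat_lit 0, nat_lit 0, nat_lit 0, nat_lit 0, nat_lit 0, nat_lit 0, nat_lit 0, nat_lit 0, nat_lit 0, nat_lit 0, nat_lit 0, [],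
 ⟨p004_k47, nat_lit 0, nat_lit 0, nat_lit 229, nat_lit 0, nat_lit 0, [nat_lit 6250000000, nat_lit 7968000001, nat_lit 9842000000], [], [nat_lit 30886886455, nat_lit 30971187872, nat_lit 30362906198, nat_lit 30428597232], nat_lit 0, nat_lit 0, nat_lit 0, nat_lit 0, nat_lit 0, nat_lit 0, [], [nat_lit 25, nat_lit 40, nat_lit 20, nat_lit 80, nat_lit 17, nat_lit 289, nat_lit 75, nat_lit 9]⟩, ⟨p004_k44, nat_lit 0, nat_lit 0, nat_lit 0, nat_lit 0, nat_lit 0, [nat_lit 5449500000, nat_lit 7089500000, nat_lit 8885500000], [], [nat_lit 26620305214, nat_lit 26705558032, nat_lit 26156647958, nat_lit 26227311305], nat_lit 0, nat_lit 0, nat_lit 0, nat_lit 0, nat_lit 0, nat_lit 0, [], [nat_lit 96, nat_lit 40, nat_lit 20, nat_lit 40]⟩,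
 zbF0, []⟩
noncomputable def p004_l140 : Lf2 := ⟨nat_lit 3, nat_lit 5, [nat_lit 4, nat_lit 5, nat_lit 5, nat_lit 20], false, nat_lit 0, nat_lit 0, nat_lit 0, nat_lit 0, zbN0,
 nat_lit 0, nat_lit 0, nat_lit 0, nat_lit 0, nat_lit 0, nat_lit 0, nat_lit 0, nat_lit 0, nat_lit 0, nat_lit 0, nat_lit 0, nat_lit 0, nat_lit 0, nat_lit 0, nat_lit 0, nat_lit 0, nat_lit 0, nat_lit 0, [],
 C1.Rw.none, ⟨p004_k45, nat_lit 0, nat_lit 0, nat_lit 205, nat_lit 0, nat_lit 0, [], [], [], nat_lit 0, nat_lit 0, nat_lit 0, nat_lit 0, nat_lit 0, nat_lit 0, [], [nat_lit 51, nat_lit 40, nat_lit 20, nat_lit 80, nat_lit 1, nat_lit 289, nat_lit 75, nat_lit 9]⟩,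
 zbF0, []⟩
noncomputable def p004_l141 : Lf2 := ⟨nat_lit 0, nat_lit 5, [nat_lit 4, nat_lit 5, nat_lit 5, nat_lit 20], false, nat_lit 0, nat_lit 0, nat_lit 0, nat_lit 0, ⟨nat_lit 1000, nat_lit 0, nat_lit 0, nat_lit 0, nat_lit 0, nat_lit 0, nat_lit 0, nat_lit 0, nat_lit 0, nat_lit 0, nat_lit 0, nat_lit 0, nat_lit 0, nat_lit 0, nat_lit 0, nat_lit 0, false, false⟩,
 nat_lit 0, nat_lit 0, nat_lit 0, nat_lit 2354, nat_lit 9447, nat_lit 8411, nat_lit 0, nat_lit 0, nat_lit 0, nat_lit 0, nat_lit 0, nat_lit 0, nat_lit 0, nat_lit 0, nat_lit 0, nat_lit 0, nat_lit 0, nat_lit 0, [],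
 ⟨p004_k46, nat_lit 0, nat_lit 0, nat_lit 228, nat_lit 0, nat_lit 0, [nat_lit 6250000000, nat_lit 7968000001, nat_lit 9842000000], [], [nat_lit 30814920025, nat_lit 30898538948, nat_lit 30289931717, nat_lit 30355682651], nat_lit 0, nat_lit 0, nat_lit 0, nat_lit 0, nat_lit 0, nat_lit 0, [], [nat_lit 25, nat_lit 40, nat_lit 20, nat_lit 80, nat_lit 17, nat_lit 289, nat_lit 75, nat_lit 9]⟩, ⟨p004_k48, nat_lit 0, nat_lit 0, nat_lit 0, nat_lit 0, nat_lit 0, [nat_lit 5449500000, nat_lit 7089500000, nat_lit 8885500000], [], [nat_lit 26699006076, nat_lit 26783931684, nat_lit 26236216053, nat_lit 26306814627], nat_lit 0, nat_lit 0, nat_lit 0, nat_lit 0, nat_lit 0, nat_lit 0, [], [nat_lit 96, nat_lit 40, nat_lit 20, nat_lit 40]⟩,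
 zbF0, []⟩
noncomputable def p004_l142 : Lf2 := ⟨nat_lit 3, nat_lit 5, [nat_lit 4, nat_lit 5, nat_lit 5, nat_lit 20], false, nat_lit 0, nat_lit 0, nat_lit 0, nat_lit 0, zbN0,
 nat_lit 0, nat_lit 0, nat_lit 0, nat_lit 0, nat_lit 0, nat_lit 0, nat_lit 0, nat_lit 0, nat_lit 0, nat_lit 0, nat_lit 0, nat_lit 0, nat_lit 0, nat_lit 0, nat_lit 0, nat_lit 0, nat_lit 0, nat_lit 0, [],
 C1.Rw.none, ⟨p004_k49, nat_lit 0, nat_lit 0, nat_lit 206, nat_lit 0, nat_lit 0, [], [], [], nat_lit 0, nat_lit 0, nat_lit 0, nat_lit 0, nat_lit 0, nat_lit 0, [], [nat_lit 51, nat_lit 40, nat_lit 20, nat_lit 80, nat_lit 1, nat_lit 289, nat_lit 75, nat_lit 9]⟩,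
 zbF0, []⟩
noncomputable def p004_l143 : Lf2 := ⟨nat_lit 0, nat_lit 5, [nat_lit 4, nat_lit 5, nat_lit 5, nat_lit 20], true, nat_lit 0, nat_lit 0, nat_lit 0, nat_lit 0, ⟨nat_lit 0, nat_lit 0, nat_lit 1000, nat_lit 5, nat_lit 67, nat_lit 0, nat_lit 0, nat_lit 0, nat_lit 0, nat_lit 215, nat_lit 41667, nat_lit 265, nat_lit 65194855, nat_lit 0, nat_lit 0, nat_lit 619708, false, false⟩,
 nat_lit 0, nat_lit 0, nat_lit 0, nat_lit 3466, nat_lit 4774, nat_lit 0, nat_lit 0, nat_lit 0, nat_lit 0, nat_lit 0, nat_lit 0, nat_lit 0, nat_lit 0, nat_lit 0, nat_lit 54, nat_lit 400000, nat_lit 0, nat_lit 0, [(nat_lit 3, [(nat_lit 5, nat_lit 1000)])],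
 ⟨p004_k50, nat_lit 0, nat_lit 0, nat_lit 0, nat_lit 0, nat_lit 0, [nat_lit 2385360001, nat_lit 965600001, nat_lit 151199999], [], [nat_lit 14671129450, nat_lit 14734383422, nat_lit 14428873535, nat_lit 14482644800], nat_lit 0, nat_lit 0, nat_lit 0, nat_lit 0, nat_lit 0, nat_lit 0, [], [nat_lit 96, nat_lit 40, nat_lit 20, nat_lit 40]⟩, C1.Rw.none,
 ⟨nat_lit 6324, nat_lit 6345, ⟨.ofNat (nat_lit 161311), .ofNat (nat_lit 169556), .ofNat (nat_lit 162379), .ofNat (nat_lit 170625), .ofNat (nat_lit 162182), .ofNat (nat_lit 170408), .ofNat (nat_lit 163250), .ofNat (nat_lit 171477)⟩, ⟨.ofNat (nat_lit 0), .ofNat (nat_lit 0), .ofNat (nat_lit 0), .ofNat (nat_lit 0), .ofNat (nat_lit 0), .ofNat (nat_lit 0), .ofNat (nat_lit 0), .ofNat (nat_lit 0)⟩⟩, []⟩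
noncomputable def p004_l144 : Lf2 := ⟨nat_lit 2, nat_lit 5, [nat_lit 4, nat_lit 5, nat_lit 5, nat_lit 20], true, nat_lit 0, nat_lit 0, nat_lit 0, nat_lit 0, zbN0,
 nat_lit 0, nat_lit 0, nat_lit 0, nat_lit 0, nat_lit 0, nat_lit 0, nat_lit 0, nat_lit 0, nat_lit 0, nat_lit 0, nat_lit 0, nat_lit 0, nat_lit 0, nat_lit 0, nat_lit 0, nat_lit 0, nat_lit 0, nat_lit 0, [],
 ⟨p004_k51, nat_lit 0, nat_lit 0, nat_lit 206, nat_lit 0, nat_lit 0, [], [], [], nat_lit 0, nat_lit 0, nat_lit 0, nat_lit 0, nat_lit 0, nat_lit 0, [], [nat_lit 51, nat_lit 40, nat_lit 20, nat_lit 80, nat_lit 1, nat_lit 289, nat_lit 75, nat_lit 9]⟩, C1.Rw.none,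
 zbF0, []⟩
noncomputable def p004_l145 : Lf2 := ⟨nat_lit 3, nat_lit 5, [nat_lit 4, nat_lit 5, nat_lit 5, nat_lit 20], false, nat_lit 0, nat_lit 0, nat_lit 0, nat_lit 0, zbN0,
 nat_lit 0, nat_lit 0, nat_lit 0, nat_lit 0, nat_lit 0, nat_lit 0, nat_lit 0, nat_lit 0, nat_lit 0, nat_lit 0, nat_lit 0, nat_lit 0, nat_lit 0, nat_lit 0, nat_lit 0, nat_lit 0, nat_lit 0, nat_lit 0, [],
 C1.Rw.none, ⟨p004_k49, nat_lit 0, nat_lit 0, nat_lit 206, nat_lit 0, nat_lit 0, [], [], [], nat_lit 0, nat_lit 0, nat_lit 0, nat_lit 0, nat_lit 0, nat_lit 0, [], [nat_lit 51, nat_lit 40, nat_lit 20, nat_lit 80, nat_lit 1, nat_lit 289, nat_lit 75, nat_lit 9]⟩,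
 zbF0, []⟩
noncomputable def p004_l146 : Lf2 := ⟨nat_lit 0, nat_lit 5, [nat_lit 4, nat_lit 5, nat_lit 5, nat_lit 20], false, nat_lit 0, nat_lit 0, nat_lit 0, nat_lit 0, ⟨nat_lit 1000, nat_lit 0, nat_lit 0, nat_lit 0, nat_lit 0, nat_lit 0, nat_lit 0, nat_lit 0, nat_lit 0, nat_lit 0, nat_lit 0, nat_lit 0, nat_lit 0, nat_lit 0, nat_lit 0, nat_lit 0, false, false⟩,
 nat_lit 0, nat_lit 0, nat_lit 0, nat_lit 2356, nat_lit 9431, nat_lit 8398, nat_lit 0, nat_lit 0, nat_lit 0, nat_lit 0, nat_lit 0, nat_lit 0, nat_lit 0, nat_lit 0, nat_lit 0, nat_lit 0, nat_lit 0, nat_lit 0, [],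
 ⟨p004_k47, nat_lit 0, nat_lit 0, nat_lit 229, nat_lit 0, nat_lit 0, [nat_lit 6250000000, nat_lit 7968000001, nat_lit 9842000000], [], [nat_lit 30886886455, nat_lit 30971187872, nat_lit 30362906198, nat_lit 30428597232], nat_lit 0, nat_lit 0, nat_lit 0, nat_lit 0, nat_lit 0, nat_lit 0, [], [nat_lit 25, nat_lit 40, nat_lit 20, nat_lit 80, nat_lit 17, nat_lit 289, nat_lit 75, nat_lit 9]⟩, ⟨p004_k50, nat_lit 0, nat_lit 0, nat_lit 0, nat_lit 0, nat_lit 0, [nat_lit 5449500000, nat_lit 7089500000, nat_lit 8885500000], [], [nat_lit 26777006775, nat_lit 26862685605, nat_lit 26315023174, nat_lit 26385561600], nat_lit 0, nat_lit 0, nat_lit 0, nat_lit 0, nat_lit 0, nat_lit 0, [], [nat_lit 96, nat_lit 40, nat_lit 20, nat_lit 40]⟩,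
 zbF0, []⟩
noncomputable def p004_l147 : Lf2 := ⟨nat_lit 3, nat_lit 5, [nat_lit 4, nat_lit 5, nat_lit 5, nat_lit 20], false, nat_lit 0, nat_lit 0, nat_lit 0, nat_lit 0, zbN0,
 nat_lit 0, nat_lit 0, nat_lit 0, nat_lit 0, nat_lit 0, nat_lit 0, nat_lit 0, nat_lit 0, nat_lit 0, nat_lit 0, nat_lit 0, nat_lit 0, nat_lit 0, nat_lit 0, nat_lit 0, nat_lit 0, nat_lit 0, nat_lit 0, [],
 C1.Rw.none, ⟨p004_k51, nat_lit 0, nat_lit 0, nat_lit 206, nat_lit 0, nat_lit 0, [], [], [], nat_lit 0, nat_lit 0, nat_lit 0, nat_lit 0, nat_lit 0, nat_lit 0, [], [nat_lit 51, nat_lit 40, nat_lit 20, nat_lit 80, nat_lit 1, nat_lit 289, nat_lit 75, nat_lit 9]⟩,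
 zbF0, []⟩
noncomputable def p004_l148 : Lf2 := ⟨nat_lit 1, nat_lit 5, [nat_lit 4, nat_lit 5, nat_lit 5, nat_lit 20], false, nat_lit 0, nat_lit 0, nat_lit 0, nat_lit 0, zbN0,
 nat_lit 0, nat_lit 0, nat_lit 0, nat_lit 0, nat_lit 0, nat_lit 0, nat_lit 0, nat_lit 0, nat_lit 0, nat_lit 0, nat_lit 0, nat_lit 0, nat_lit 0, nat_lit 0, nat_lit 0, nat_lit 0, nat_lit 0, nat_lit 0, [],
 C1.Rw.none, C1.Rw.none,
 zbF0, []⟩
noncomputable def p004_l149 : Lf2 := ⟨nat_lit 1, nat_lit 5, [nat_lit 4, nat_lit 5, nat_lit 5, nat_lit 20], false, nat_lit 0, nat_lit 0, nat_lit 0, nat_lit 0, zbN0,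
 nat_lit 0, nat_lit 0, nat_lit 0, nat_lit 0, nat_lit 0, nat_lit 0, nat_lit 0, nat_lit 0, nat_lit 0, nat_lit 0, nat_lit 0, nat_lit 0, nat_lit 0, nat_lit 0, nat_lit 0, nat_lit 0, nat_lit 0, nat_lit 0, [],
 C1.Rw.none, C1.Rw.none,
 zbF0, []⟩
noncomputable def p004_l150 : Lf2 := ⟨nat_lit 1, nat_lit 5, [nat_lit 4, nat_lit 5, nat_lit 5, nat_lit 20], false, nat_lit 0, nat_lit 0, nat_lit 0, nat_lit 0, zbN0,
 nat_lit 0, nat_lit 0, nat_lit 0, nat_lit 0, nat_lit 0, nat_lit 0, nat_lit 0, nat_lit 0, nat_lit 0, nat_lit 0, nat_lit 0, nat_lit 0, nat_lit 0, nat_lit 0, nat_lit 0, nat_lit 0, nat_lit 0, nat_lit 0, [],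
 C1.Rw.none, C1.Rw.none,
 zbF0, []⟩
noncomputable def p004_l151 : Lf2 := ⟨nat_lit 1, nat_lit 5, [nat_lit 4, nat_lit 5, nat_lit 5, nat_lit 20], false, nat_lit 0, nat_lit 0, nat_lit 0, nat_lit 0, zbN0,
 nat_lit 0, nat_lit 0, nat_lit 0, nat_lit 0, nat_lit 0, nat_lit 0, nat_lit 0, nat_lit 0, nat_lit 0, nat_lit 0, nat_lit 0, nat_lit 0, nat_lit 0, nat_lit 0, nat_lit 0, nat_lit 0, nat_lit 0, nat_lit 0, [],
 C1.Rw.none, C1.Rw.none,
 zbF0, []⟩
noncomputable def p004_l152 : Lf2 := ⟨nat_lit 0, nat_lit 5, [nat_lit 4, nat_lit 5, nat_lit 5, nat_lit 20], true, nat_lit 0, nat_lit 0, nat_lit 0, nat_lit 0, ⟨nat_lit 0, nat_lit 0, nat_lit 1000, nat_lit 5, nat_lit 67, nat_lit 0, nat_lit 0, nat_lit 0, nat_lit 0, nat_lit 215, nat_lit 41667, nat_lit 265, nat_lit 65194855, nat_lit 0, nat_lit 0, nat_lit 619708, false, false⟩,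
 nat_lit 0, nat_lit 0, nat_lit 0, nat_lit 5421, nat_lit 4774, nat_lit 0, nat_lit 0, nat_lit 0, nat_lit 0, nat_lit 0, nat_lit 0, nat_lit 0, nat_lit 0, nat_lit 0, nat_lit 54, nat_lit 400000, nat_lit 0, nat_lit 0, [(nat_lit 3, [(nat_lit 5, nat_lit 1000)])],
 ⟨p004_k50, nat_lit 0, nat_lit 0, nat_lit 0, nat_lit 0, nat_lit 0, [nat_lit 2385360001, nat_lit 965600001, nat_lit 151199999], [], [nat_lit 14671129450, nat_lit 14734383422, nat_lit 14428873535, nat_lit 14482644800], nat_lit 0, nat_lit 0, nat_lit 0, nat_lit 0, nat_lit 0, nat_lit 0, [], [nat_lit 96, nat_lit 40, nat_lit 20, nat_lit 40]⟩, C1.Rw.none,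
 ⟨nat_lit 6324, nat_lit 6345, ⟨.ofNat (nat_lit 161311), .ofNat (nat_lit 169556), .ofNat (nat_lit 162379), .ofNat (nat_lit 170625), .ofNat (nat_lit 162182), .ofNat (nat_lit 170408), .ofNat (nat_lit 163250), .ofNat (nat_lit 171477)⟩, ⟨.ofNat (nat_lit 0), .ofNat (nat_lit 0), .ofNat (nat_lit 0), .ofNat (nat_lit 0), .ofNat (nat_lit 0), .ofNat (nat_lit 0), .ofNat (nat_lit 0), .ofNat (nat_lit 0)⟩⟩, []⟩
noncomputable def p004_l153 : Lf2 := ⟨nat_lit 2, nat_lit 5, [nat_lit 4, nat_lit 5, nat_lit 5, nat_lit 20], true, nat_lit 0, nat_lit 0, nat_lit 0, nat_lit 0, zbN0,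
 nat_lit 0, nat_lit 0, nat_lit 0, nat_lit 0, nat_lit 0, nat_lit 0, nat_lit 0, nat_lit 0, nat_lit 0, nat_lit 0, nat_lit 0, nat_lit 0, nat_lit 0, nat_lit 0, nat_lit 0, nat_lit 0, nat_lit 0, nat_lit 0, [],
 ⟨p004_k51, nat_lit 0, nat_lit 0, nat_lit 206, nat_lit 0, nat_lit 0, [], [], [], nat_lit 0, nat_lit 0, nat_lit 0, nat_lit 0, nat_lit 0, nat_lit 0, [], [nat_lit 51, nat_lit 40, nat_lit 20, nat_lit 80, nat_lit 1, nat_lit 289, nat_lit 75, nat_lit 9]⟩, C1.Rw.none,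
 zbF0, []⟩
noncomputable def p004_l154 : Lf2 := ⟨nat_lit 3, nat_lit 5, [nat_lit 4, nat_lit 5, nat_lit 5, nat_lit 20], false, nat_lit 0, nat_lit 0, nat_lit 0, nat_lit 0, zbN0,
 nat_lit 0, nat_lit 0, nat_lit 0, nat_lit 0, nat_lit 0, nat_lit 0, nat_lit 0, nat_lit 0, nat_lit 0, nat_lit 0, nat_lit 0, nat_lit 0, nat_lit 0, nat_lit 0, nat_lit 0, nat_lit 0, nat_lit 0, nat_lit 0, [],
 C1.Rw.none, ⟨p004_k49, nat_lit 0, nat_lit 0, nat_lit 206, nat_lit 0, nat_lit 0, [], [], [], nat_lit 0, nat_lit 0, nat_lit 0, nat_lit 0, nat_lit 0, nat_lit 0, [], [nat_lit 51, nat_lit 40, nat_lit 20, nat_lit 80, nat_lit 1, nat_lit 289, nat_lit 75, nat_lit 9]⟩,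
 zbF0, []⟩
noncomputable def p004_l155 : Lf2 := ⟨nat_lit 0, nat_lit 5, [nat_lit 4, nat_lit 5, nat_lit 5, nat_lit 20], false, nat_lit 0, nat_lit 0, nat_lit 0, nat_lit 0, ⟨nat_lit 1000, nat_lit 0, nat_lit 0, nat_lit 0, nat_lit 0, nat_lit 0, nat_lit 0, nat_lit 0, nat_lit 0, nat_lit 0, nat_lit 0, nat_lit 0, nat_lit 0, nat_lit 0, nat_lit 0, nat_lit 0, false, false⟩,
 nat_lit 0, nat_lit 0, nat_lit 0, nat_lit 4982, nat_lit 9431, nat_lit 8398, nat_lit 0, nat_lit 0, nat_lit 0, nat_lit 0, nat_lit 0, nat_lit 0, nat_lit 0, nat_lit 133432439776, nat_lit 0, nat_lit 0, nat_lit 0, nat_lit 0, [],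
 ⟨p004_k47, nat_lit 0, nat_lit 0, nat_lit 229, nat_lit 0, nat_lit 0, [nat_lit 6250000000, nat_lit 7968000001, nat_lit 9842000000], [], [nat_lit 30886886455, nat_lit 30971187872, nat_lit 30362906198, nat_lit 30428597232], nat_lit 0, nat_lit 0, nat_lit 0, nat_lit 0, nat_lit 0, nat_lit 0, [], [nat_lit 25, nat_lit 40, nat_lit 20, nat_lit 80, nat_lit 17, nat_lit 289, nat_lit 75, nat_lit 9]⟩, ⟨p004_k50, nat_lit 0, nat_lit 0, nat_lit 0, nat_lit 0, nat_lit 0, [nat_lit 5449500000, nat_lit 7089500000, nat_lit 8885500000], [], [nat_lit 26777006775, nat_lit 26862685605, nat_lit 26315023174, nat_lit 26385561600], nat_lit 0, nat_lit 0, nat_lit 0, nat_lit 0, nat_lit 0, nat_lit 0, [], [nat_lit 96, nat_lit 40, nat_lit 20, nat_lit 40]⟩,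
 zbF0, []⟩
noncomputable def p004_l156 : Lf2 := ⟨nat_lit 3, nat_lit 5, [nat_lit 4, nat_lit 5, nat_lit 5, nat_lit 20], false, nat_lit 0, nat_lit 0, nat_lit 0, nat_lit 0, zbN0,
 nat_lit 0, nat_lit 0, nat_lit 0, nat_lit 0, nat_lit 0, nat_lit 0, nat_lit 0, nat_lit 0, nat_lit 0, nat_lit 0, nat_lit 0, nat_lit 0, nat_lit 0, nat_lit 0, nat_lit 0, nat_lit 0, nat_lit 0, nat_lit 0, [],
 C1.Rw.none, ⟨p004_k51, nat_lit 0, nat_lit 0, nat_lit 206, nat_lit 0, nat_lit 0, [], [], [], nat_lit 0, nat_lit 0, nat_lit 0, nat_lit 0, nat_lit 0, nat_lit 0, [], [nat_lit 51, nat_lit 40, nat_lit 20, nat_lit 80, nat_lit 1, nat_lit 289, nat_lit 75, nat_lit 9]⟩,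
 zbF0, []⟩
noncomputable def b_NL_550_550_0_3 : St := ⟨false, nat_lit 0, nat_lit 0, nat_lit 1, nat_lit 20, nat_lit 230, nat_lit 240, nat_lit 230, nat_lit 240, nat_lit 16, nat_lit 20, nat_lit 0, nat_lit 0, nat_lit 0, nat_lit 0, nat_lit 0, nat_lit 0, nat_lit 20, nat_lit 40, nat_lit 0, nat_lit 0, nat_lit 0, nat_lit 0⟩
theorem d_NL_550_550_0_3 (h : EB TB.env) : Dead b_NL_550_550_0_3 := chkB_sound0 h (T :=
(.spl (nat_lit 6) (nat_lit 32)
(.leaf p004_l121)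
(.spl (nat_lit 6) (nat_lit 36)
(.spl (nat_lit 1) (nat_lit 235)
(.leaf p004_l122)
(.ord (.spl (nat_lit 0) (nat_lit 238)
(.ord (.spl (nat_lit 0) (nat_lit 237)
(.ord (.spl (nat_lit 0) (nat_lit 236)
(.ord (.leaf p004_l123))
(.spl (nat_lit 1) (nat_lit 236)
(.leaf p004_l124)
(.spl (nat_lit 8) (nat_lit 800)
(.spl (nat_lit 7) (nat_lit 600)
(.leaf p004_l125)
(.leaf p004_l126))
(.leaf p004_l127)))))
(.spl (nat_lit 1) (nat_lit 237)
(.spl (nat_lit 1) (nat_lit 236)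
(.leaf p004_l128)
(.spl (nat_lit 8) (nat_lit 800)
(.leaf p004_l129)
(.leaf p004_l130)))
(.spl (nat_lit 8) (nat_lit 800)
(.leaf p004_l131)
(.leaf p004_l132)))))
(.spl (nat_lit 1) (nat_lit 238)
(.spl (nat_lit 1) (nat_lit 237)
(.spl (nat_lit 0) (nat_lit 239)
(.spl (nat_lit 1) (nat_lit 236)
(.leaf p004_l133)
(.spl (nat_lit 8) (nat_lit 800)
(.leaf p004_l134)
(.leaf p004_l135)))
(.leaf p004_l136))
(.spl (nat_lit 0) (nat_lit 239)
(.spl (nat_lit 8) (nat_lit 800)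
(.leaf p004_l137)
(.leaf p004_l138))
(.spl (nat_lit 8) (nat_lit 800)
(.leaf p004_l139)
(.leaf p004_l140))))
(.spl (nat_lit 0) (nat_lit 239)
(.ord (.spl (nat_lit 8) (nat_lit 800)
(.leaf p004_l141)
(.leaf p004_l142)))
(.spl (nat_lit 1) (nat_lit 239)
(.spl (nat_lit 8) (nat_lit 800)
(.spl (nat_lit 7) (nat_lit 600)
(.leaf p004_l143)
(.leaf p004_l144))
(.leaf p004_l145))
(.spl (nat_lit 8) (nat_lit 800)
(.leaf p004_l146)
(.leaf p004_l147))))))))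
(.spl (nat_lit 1) (nat_lit 235)
(.leaf p004_l148)
(.ord (.spl (nat_lit 0) (nat_lit 238)
(.ord (.leaf p004_l149))
(.spl (nat_lit 0) (nat_lit 239)
(.ord (.leaf p004_l150))
(.spl (nat_lit 1) (nat_lit 238)
(.leaf p004_l151)
(.spl (nat_lit 1) (nat_lit 239)
(.spl (nat_lit 8) (nat_lit 800)
(.spl (nat_lit 7) (nat_lit 600)
(.leaf p004_l152)
(.leaf p004_l153))
(.leaf p004_l154))
(.spl (nat_lit 8) (nat_lit 800)
(.leaf p004_l155)
(.leaf p004_l156))))))))))) (by decide +kernel)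
noncomputable def p004_l157 : Lf2 := ⟨nat_lit 0, nat_lit 5, [nat_lit 4, nat_lit 5, nat_lit 5, nat_lit 20], true, nat_lit 0, nat_lit 0, nat_lit 0, nat_lit 0, ⟨nat_lit 0, nat_lit 0, nat_lit 1000, nat_lit 5, nat_lit 48, nat_lit 0, nat_lit 0, nat_lit 0, nat_lit 0, nat_lit 215, nat_lit 21600, nat_lit 251, nat_lit 66056250, nat_lit 0, nat_lit 0, nat_lit 370034, false, false⟩,
 nat_lit 0, nat_lit 0, nat_lit 0, nat_lit 6910, nat_lit 4713, nat_lit 0, nat_lit 256, nat_lit 0, nat_lit 0, nat_lit 0, nat_lit 0, nat_lit 0, nat_lit 0, nat_lit 5933950498233, nat_lit 115, nat_lit 1000000, nat_lit 0, nat_lit 0, [(nat_lit 3, [(nat_lit 6, nat_lit 1000)])],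
 ⟨p004_k4, nat_lit 0, nat_lit 0, nat_lit 289, nat_lit 0, nat_lit 0, [nat_lit 3341142858, nat_lit 1499600000, nat_lit 23600000], [], [nat_lit 13666884397, nat_lit 14147008300, nat_lit 12949787824, nat_lit 13431351011], nat_lit 0, nat_lit 0, nat_lit 0, nat_lit 0, nat_lit 0, nat_lit 0, [], [nat_lit 25, nat_lit 40, nat_lit 20, nat_lit 80, nat_lit 17, nat_lit 289, nat_lit 75, nat_lit 9]⟩, C1.Rw.none,
 ⟨nat_lit 6519, nat_lit 6709, ⟨.ofNat (nat_lit 99275), .ofNat (nat_lit 125122), .ofNat (nat_lit 104635), .ofNat (nat_lit 130481), .ofNat (nat_lit 108876), .ofNat (nat_lit 134132), .ofNat (nat_lit 114225), .ofNat (nat_lit 139482)⟩, ⟨.ofNat (nat_lit 0), .ofNat (nat_lit 0), .ofNat (nat_lit 0), .ofNat (nat_lit 0), .ofNat (nat_lit 0), .ofNat (nat_lit 0), .ofNat (nat_lit 0), .ofNat (nat_lit 0)⟩⟩, [⟨nat_lit 0, nat_lit 100, nat_lit 100, nat_lit 24, nat_lit 403398341⟩]⟩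
noncomputable def p004_l158 : Lf2 := ⟨nat_lit 0, nat_lit 5, [nat_lit 4, nat_lit 5, nat_lit 5, nat_lit 20], true, nat_lit 0, nat_lit 0, nat_lit 0, nat_lit 0, ⟨nat_lit 0, nat_lit 0, nat_lit 1000, nat_lit 5, nat_lit 51, nat_lit 0, nat_lit 0, nat_lit 0, nat_lit 0, nat_lit 215, nat_lit 24067, nat_lit 253, nat_lit 65932910, nat_lit 0, nat_lit 0, nat_lit 408576, false, false⟩,
 nat_lit 0, nat_lit 0, nat_lit 0, nat_lit 2147, nat_lit 4762, nat_lit 0, nat_lit 265, nat_lit 0, nat_lit 0, nat_lit 0, nat_lit 0, nat_lit 0, nat_lit 0, nat_lit 10936074067135, nat_lit 115, nat_lit 1000000, nat_lit 0, nat_lit 0, [(nat_lit 3, [(nat_lit 6, nat_lit 1000)])],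
 ⟨p004_k20, nat_lit 0, nat_lit 0, nat_lit 289, nat_lit 0, nat_lit 0, [nat_lit 3341142858, nat_lit 1499600000, nat_lit 23600000], [], [nat_lit 13821721651, nat_lit 14118601348, nat_lit 13095787730, nat_lit 13387393317], nat_lit 0, nat_lit 0, nat_lit 0, nat_lit 0, nat_lit 0, nat_lit 0, [], [nat_lit 25, nat_lit 40, nat_lit 20, nat_lit 80, nat_lit 17, nat_lit 289, nat_lit 75, nat_lit 9]⟩, C1.Rw.none,
 ⟨nat_lit 6519, nat_lit 6615, ⟨.ofNat (nat_lit 109456), .ofNat (nat_lit 135006), .ofNat (nat_lit 114811), .ofNat (nat_lit 140360), .ofNat (nat_lit 114225), .ofNat (nat_lit 139482), .ofNat (nat_lit 119575), .ofNat (nat_lit 144831)⟩, ⟨.ofNat (nat_lit 0), .ofNat (nat_lit 0), .ofNat (nat_lit 0), .ofNat (nat_lit 0), .ofNat (nat_lit 0), .ofNat (nat_lit 0), .ofNat (nat_lit 0), .ofNat (nat_lit 0)⟩⟩, [⟨nat_lit 0, nat_lit 100, nat_lit 100, nat_lit 25, nat_lit 411691004⟩]⟩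
noncomputable def p004_l159 : Lf2 := ⟨nat_lit 0, nat_lit 5, [nat_lit 4, nat_lit 5, nat_lit 5, nat_lit 20], true, nat_lit 0, nat_lit 0, nat_lit 0, nat_lit 0, ⟨nat_lit 0, nat_lit 0, nat_lit 1000, nat_lit 5, nat_lit 46, nat_lit 0, nat_lit 0, nat_lit 0, nat_lit 0, nat_lit 215, nat_lit 20417, nat_lit 250, nat_lit 66114466, nat_lit 0, nat_lit 0, nat_lit 351424, false, false⟩,
 nat_lit 0, nat_lit 0, nat_lit 0, nat_lit 6990, nat_lit 4805, nat_lit 0, nat_lit 270, nat_lit 0, nat_lit 0, nat_lit 0, nat_lit 0, nat_lit 0, nat_lit 0, nat_lit 7017100269596, nat_lit 115, nat_lit 1000000, nat_lit 0, nat_lit 0, [(nat_lit 3, [(nat_lit 6, nat_lit 1000)])],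
 ⟨p004_k20, nat_lit 0, nat_lit 0, nat_lit 288, nat_lit 0, nat_lit 0, [nat_lit 3341142858, nat_lit 1499600000, nat_lit 23600000], [], [nat_lit 13846620093, nat_lit 13965848970, nat_lit 13552774753, nat_lit 13650355591], nat_lit 0, nat_lit 0, nat_lit 0, nat_lit 0, nat_lit 0, nat_lit 0, [], [nat_lit 25, nat_lit 40, nat_lit 20, nat_lit 80, nat_lit 17, nat_lit 272, nat_lit 60, nat_lit 8]⟩, C1.Rw.none,
 ⟨nat_lit 6576, nat_lit 6615, ⟨.ofNat (nat_lit 109456), .ofNat (nat_lit 117973), .ofNat (nat_lit 111598), .ofNat (nat_lit 120115), .ofNat (nat_lit 111370), .ofNat (nat_lit 119847), .ofNat (nat_lit 113511), .ofNat (nat_lit 121988)⟩, ⟨.ofNat (nat_lit 0), .ofNat (nat_lit 0), .ofNat (nat_lit 0), .ofNat (nat_lit 0), .ofNat (nat_lit 0), .ofNat (nat_lit 0), .ofNat (nat_lit 0), .ofNat (nat_lit 0)⟩⟩, [⟨nat_lit 0, nat_lit 100, nat_lit 100, nat_lit 27, nat_lit 502071397⟩]⟩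
noncomputable def p004_l160 : Lf2 := ⟨nat_lit 0, nat_lit 5, [nat_lit 4, nat_lit 5, nat_lit 5, nat_lit 20], true, nat_lit 0, nat_lit 0, nat_lit 0, nat_lit 0, ⟨nat_lit 0, nat_lit 0, nat_lit 1000, nat_lit 5, nat_lit 47, nat_lit 0, nat_lit 0, nat_lit 0, nat_lit 0, nat_lit 215, nat_lit 20417, nat_lit 250, nat_lit 66084723, nat_lit 0, nat_lit 0, nat_lit 360966, false, false⟩,
 nat_lit 0, nat_lit 0, nat_lit 0, nat_lit 6930, nat_lit 4795, nat_lit 0, nat_lit 256, nat_lit 0, nat_lit 0, nat_lit 0, nat_lit 0, nat_lit 0, nat_lit 0, nat_lit 16681932602265, nat_lit 115, nat_lit 1000000, nat_lit 0, nat_lit 0, [(nat_lit 3, [(nat_lit 6, nat_lit 1000)])],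
 ⟨p004_k22, nat_lit 0, nat_lit 0, nat_lit 288, nat_lit 0, nat_lit 0, [nat_lit 3341142858, nat_lit 1499600000, nat_lit 23600000], [], [nat_lit 13974396853, nat_lit 14033958630, nat_lit 13670146939, nat_lit 13719003542], nat_lit 0, nat_lit 0, nat_lit 0, nat_lit 0, nat_lit 0, nat_lit 0, [], [nat_lit 25, nat_lit 40, nat_lit 20, nat_lit 80, nat_lit 17, nat_lit 272, nat_lit 60, nat_lit 8]⟩, C1.Rw.none,
 ⟨nat_lit 6557, nat_lit 6577, ⟨.ofNat (nat_lit 111370), .ofNat (nat_lit 119847), .ofNat (nat_lit 114581), .ofNat (nat_lit 123059), .ofNat (nat_lit 112324), .ofNat (nat_lit 120782), .ofNat (nat_lit 115535), .ofNat (nat_lit 123992)⟩, ⟨.ofNat (nat_lit 0), .ofNat (nat_lit 0), .ofNat (nat_lit 0), .ofNat (nat_lit 0), .ofNat (nat_lit 0), .ofNat (nat_lit 0), .ofNat (nat_lit 0), .ofNat (nat_lit 0)⟩⟩, [⟨nat_lit 0, nat_lit 100, nat_lit 100, nat_lit 28, nat_lit 500969299⟩]⟩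
noncomputable def p004_l161 : Lf2 := ⟨nat_lit 0, nat_lit 5, [nat_lit 4, nat_lit 5, nat_lit 5, nat_lit 20], true, nat_lit 0, nat_lit 0, nat_lit 0, nat_lit 0, ⟨nat_lit 0, nat_lit 0, nat_lit 1000, nat_lit 5, nat_lit 48, nat_lit 0, nat_lit 0, nat_lit 0, nat_lit 0, nat_lit 215, nat_lit 21600, nat_lit 251, nat_lit 66046253, nat_lit 0, nat_lit 0, nat_lit 373202, false, false⟩,
 nat_lit 0, nat_lit 0, nat_lit 0, nat_lit 6903, nat_lit 4795, nat_lit 0, nat_lit 252, nat_lit 0, nat_lit 0, nat_lit 0, nat_lit 0, nat_lit 0, nat_lit 0, nat_lit 10756287517343, nat_lit 115, nat_lit 1000000, nat_lit 0, nat_lit 0, [(nat_lit 3, [(nat_lit 6, nat_lit 1000)])],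
 ⟨p004_k23, nat_lit 0, nat_lit 0, nat_lit 289, nat_lit 0, nat_lit 0, [nat_lit 3341142858, nat_lit 1499600000, nat_lit 23600000], [], [nat_lit 14036083630, nat_lit 14155207184, nat_lit 13720593331, nat_lit 13840439344], nat_lit 0, nat_lit 0, nat_lit 0, nat_lit 0, nat_lit 0, nat_lit 0, [], [nat_lit 25, nat_lit 40, nat_lit 20, nat_lit 80, nat_lit 17, nat_lit 272, nat_lit 60, nat_lit 8]⟩, C1.Rw.none,
 ⟨nat_lit 6519, nat_lit 6558, ⟨.ofNat (nat_lit 112324), .ofNat (nat_lit 120782), .ofNat (nat_lit 117675), .ofNat (nat_lit 126133), .ofNat (nat_lit 114225), .ofNat (nat_lit 122644), .ofNat (nat_lit 119575), .ofNat (nat_lit 127994)⟩, ⟨.ofNat (nat_lit 0), .ofNat (nat_lit 0), .ofNat (nat_lit 0), .ofNat (nat_lit 0), .ofNat (nat_lit 0), .ofNat (nat_lit 0), .ofNat (nat_lit 0), .ofNat (nat_lit 0)⟩⟩, [⟨nat_lit 0, nat_lit 100, nat_lit 100, nat_lit 28, nat_lit 1031455233⟩]⟩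
noncomputable def p004_l162 : Lf2 := ⟨nat_lit 0, nat_lit 5, [nat_lit 4, nat_lit 5, nat_lit 5, nat_lit 20], true, nat_lit 0, nat_lit 0, nat_lit 0, nat_lit 0, ⟨nat_lit 0, nat_lit 0, nat_lit 1000, nat_lit 5, nat_lit 50, nat_lit 0, nat_lit 0, nat_lit 0, nat_lit 0, nat_lit 215, nat_lit 24067, nat_lit 253, nat_lit 65950513, nat_lit 0, nat_lit 0, nat_lit 403145, false, false⟩,
 nat_lit 0, nat_lit 0, nat_lit 0, nat_lit 6894, nat_lit 4775, nat_lit 0, nat_lit 250, nat_lit 0, nat_lit 0, nat_lit 0, nat_lit 0, nat_lit 0, nat_lit 0, nat_lit 1759236043474, nat_lit 115, nat_lit 1000000, nat_lit 0, nat_lit 0, [(nat_lit 3, [(nat_lit 6, nat_lit 1000)])],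
 ⟨p004_k20, nat_lit 0, nat_lit 0, nat_lit 282, nat_lit 0, nat_lit 0, [nat_lit 3341142858, nat_lit 1499600000, nat_lit 23600000], [], [nat_lit 13614881706, nat_lit 13856116674, nat_lit 13372116936, nat_lit 13615843902], nat_lit 0, nat_lit 0, nat_lit 0, nat_lit 0, nat_lit 0, nat_lit 0, [], [nat_lit 25, nat_lit 40, nat_lit 20, nat_lit 80, nat_lit 17, nat_lit 289, nat_lit 75, nat_lit 9]⟩, C1.Rw.none,
 ⟨nat_lit 6519, nat_lit 6615, ⟨.ofNat (nat_lit 117973), .ofNat (nat_lit 126489), .ofNat (nat_lit 121185), .ofNat (nat_lit 129702), .ofNat (nat_lit 122644), .ofNat (nat_lit 131063), .ofNat (nat_lit 125854), .ofNat (nat_lit 134272)⟩, ⟨.ofNat (nat_lit 0), .ofNat (nat_lit 0), .ofNat (nat_lit 0), .ofNat (nat_lit 0), .ofNat (nat_lit 0), .ofNat (nat_lit 0), .ofNat (nat_lit 0), .ofNat (nat_lit 0)⟩⟩, []⟩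
noncomputable def p004_l163 : Lf2 := ⟨nat_lit 0, nat_lit 5, [nat_lit 4, nat_lit 5, nat_lit 5, nat_lit 20], true, nat_lit 0, nat_lit 0, nat_lit 0, nat_lit 0, ⟨nat_lit 0, nat_lit 0, nat_lit 1000, nat_lit 5, nat_lit 52, nat_lit 0, nat_lit 0, nat_lit 0, nat_lit 0, nat_lit 215, nat_lit 25350, nat_lit 254, nat_lit 65899669, nat_lit 0, nat_lit 0, nat_lit 418772, false, false⟩,
 nat_lit 0, nat_lit 0, nat_lit 0, nat_lit 7325, nat_lit 4071, nat_lit 0, nat_lit 334, nat_lit 0, nat_lit 0, nat_lit 0, nat_lit 0, nat_lit 0, nat_lit 0, nat_lit 5421344749667, nat_lit 115, nat_lit 1000000, nat_lit 0, nat_lit 0, [(nat_lit 3, [(nat_lit 6, nat_lit 1000)])],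
 ⟨p004_k24, nat_lit 0, nat_lit 0, nat_lit 0, nat_lit 0, nat_lit 0, [nat_lit 3007028572, nat_lit 2237600001, nat_lit 23600000], [], [nat_lit 12909747388, nat_lit 12957272829, nat_lit 12708776457, nat_lit 12756299188], nat_lit 0, nat_lit 0, nat_lit 0, nat_lit 0, nat_lit 0, nat_lit 0, [], [nat_lit 103, nat_lit 40, nat_lit 20, nat_lit 40]⟩, C1.Rw.none,
 ⟨nat_lit 6538, nat_lit 6558, ⟨.ofNat (nat_lit 123992), .ofNat (nat_lit 132450), .ofNat (nat_lit 125063), .ofNat (nat_lit 133520), .ofNat (nat_lit 124924), .ofNat (nat_lit 133362), .ofNat (nat_lit 125994), .ofNat (nat_lit 134432)⟩, ⟨.ofNat (nat_lit 0), .ofNat (nat_lit 0), .ofNat (nat_lit 0), .ofNat (nat_lit 0), .ofNat (nat_lit 0), .ofNat (nat_lit 0), .ofNat (nat_lit 0), .ofNat (nat_lit 0)⟩⟩, [⟨nat_lit 0, nat_lit 100, nat_lit 100, nat_lit 29, nat_lit 359260792⟩]⟩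
noncomputable def p004_l164 : Lf2 := ⟨nat_lit 2, nat_lit 5, [nat_lit 4, nat_lit 5, nat_lit 5, nat_lit 20], true, nat_lit 0, nat_lit 0, nat_lit 0, nat_lit 0, zbN0,
 nat_lit 0, nat_lit 0, nat_lit 0, nat_lit 0, nat_lit 0, nat_lit 0, nat_lit 0, nat_lit 0, nat_lit 0, nat_lit 0, nat_lit 0, nat_lit 0, nat_lit 0, nat_lit 0, nat_lit 0, nat_lit 0, nat_lit 0, nat_lit 0, [],
 ⟨p004_k23, nat_lit 0, nat_lit 0, nat_lit 282, nat_lit 0, nat_lit 0, [], [], [], nat_lit 0, nat_lit 0, nat_lit 0, nat_lit 0, nat_lit 0, nat_lit 0, [], [nat_lit 25, nat_lit 40, nat_lit 20, nat_lit 80, nat_lit 17, nat_lit 289, nat_lit 75, nat_lit 9]⟩, C1.Rw.none,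
 zbF0, []⟩
noncomputable def p004_l165 : Lf2 := ⟨nat_lit 3, nat_lit 5, [nat_lit 4, nat_lit 5, nat_lit 5, nat_lit 20], false, nat_lit 0, nat_lit 0, nat_lit 0, nat_lit 0, zbN0,
 nat_lit 0, nat_lit 0, nat_lit 0, nat_lit 0, nat_lit 0, nat_lit 0, nat_lit 0, nat_lit 0, nat_lit 0, nat_lit 0, nat_lit 0, nat_lit 0, nat_lit 0, nat_lit 0, nat_lit 0, nat_lit 0, nat_lit 0, nat_lit 0, [],
 C1.Rw.none, ⟨p004_k25, nat_lit 0, nat_lit 0, nat_lit 293, nat_lit 0, nat_lit 29782, [], [], [], nat_lit 1271250, nat_lit 1271250, nat_lit 43600, nat_lit 65850, nat_lit 0, nat_lit 0, [nat_lit 1412500, nat_lit 1271250], [nat_lit 51, nat_lit 40, nat_lit 20, nat_lit 80, nat_lit 1, nat_lit 289, nat_lit 75, nat_lit 9]⟩,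
 zbF0, []⟩
noncomputable def p004_l166 : Lf2 := ⟨nat_lit 0, nat_lit 5, [nat_lit 4, nat_lit 5, nat_lit 5, nat_lit 20], true, nat_lit 0, nat_lit 0, nat_lit 0, nat_lit 0, ⟨nat_lit 0, nat_lit 0, nat_lit 1000, nat_lit 5, nat_lit 52, nat_lit 0, nat_lit 0, nat_lit 0, nat_lit 0, nat_lit 215, nat_lit 25350, nat_lit 254, nat_lit 65884192, nat_lit 0, nat_lit 0, nat_lit 423492, false, false⟩,
 nat_lit 0, nat_lit 0, nat_lit 0, nat_lit 7321, nat_lit 4071, nat_lit 0, nat_lit 334, nat_lit 0, nat_lit 0, nat_lit 0, nat_lit 0, nat_lit 0, nat_lit 0, nat_lit 0, nat_lit 115, nat_lit 1000000, nat_lit 0, nat_lit 0, [(nat_lit 3, [(nat_lit 6, nat_lit 1000)])],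
 ⟨p004_k26, nat_lit 0, nat_lit 0, nat_lit 0, nat_lit 0, nat_lit 0, [nat_lit 3007028572, nat_lit 2237600001, nat_lit 23600000], [], [nat_lit 12942660329, nat_lit 12997959855, nat_lit 12743016797, nat_lit 12799306314], nat_lit 0, nat_lit 0, nat_lit 0, nat_lit 0, nat_lit 0, nat_lit 0, [], [nat_lit 103, nat_lit 40, nat_lit 20, nat_lit 40]⟩, C1.Rw.none,
 ⟨nat_lit 6519, nat_lit 6539, ⟨.ofNat (nat_lit 124924), .ofNat (nat_lit 133362), .ofNat (nat_lit 125994), .ofNat (nat_lit 134432), .ofNat (nat_lit 125854), .ofNat (nat_lit 134272), .ofNat (nat_lit 126924), .ofNat (nat_lit 135342)⟩, ⟨.ofNat (nat_lit 0), .ofNat (nat_lit 0), .ofNat (nat_lit 0), .ofNat (nat_lit 0), .ofNat (nat_lit 0), .ofNat (nat_lit 0), .ofNat (nat_lit 0), .ofNat (nat_lit 0)⟩⟩, [⟨nat_lit 0, nat_lit 100, nat_lit 100, nat_lit 29, nat_lit 359260792⟩]⟩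
noncomputable def p004_l167 : Lf2 := ⟨nat_lit 2, nat_lit 5, [nat_lit 4, nat_lit 5, nat_lit 5, nat_lit 20], true, nat_lit 0, nat_lit 0, nat_lit 0, nat_lit 0, zbN0,
 nat_lit 0, nat_lit 0, nat_lit 0, nat_lit 0, nat_lit 0, nat_lit 0, nat_lit 0, nat_lit 0, nat_lit 0, nat_lit 0, nat_lit 0, nat_lit 0, nat_lit 0, nat_lit 0, nat_lit 0, nat_lit 0, nat_lit 0, nat_lit 0, [],
 ⟨p004_k27, nat_lit 0, nat_lit 0, nat_lit 282, nat_lit 0, nat_lit 0, [], [], [], nat_lit 0, nat_lit 0, nat_lit 0, nat_lit 0, nat_lit 0, nat_lit 0, [], [nat_lit 25, nat_lit 40, nat_lit 20, nat_lit 80, nat_lit 17, nat_lit 289, nat_lit 75, nat_lit 9]⟩, C1.Rw.none,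
 zbF0, []⟩
noncomputable def p004_l168 : Lf2 := ⟨nat_lit 3, nat_lit 5, [nat_lit 4, nat_lit 5, nat_lit 5, nat_lit 20], false, nat_lit 0, nat_lit 0, nat_lit 0, nat_lit 0, zbN0,
 nat_lit 0, nat_lit 0, nat_lit 0, nat_lit 0, nat_lit 0, nat_lit 0, nat_lit 0, nat_lit 0, nat_lit 0, nat_lit 0, nat_lit 0, nat_lit 0, nat_lit 0, nat_lit 0, nat_lit 0, nat_lit 0, nat_lit 0, nat_lit 0, [],
 C1.Rw.none, ⟨p004_k25, nat_lit 0, nat_lit 0, nat_lit 294, nat_lit 0, nat_lit 34177, [], [], [], nat_lit 1271250, nat_lit 1271250, nat_lit 43600, nat_lit 65850, nat_lit 0, nat_lit 0, [nat_lit 1412500, nat_lit 1271250], [nat_lit 51, nat_lit 40, nat_lit 20, nat_lit 80, nat_lit 1, nat_lit 289, nat_lit 75, nat_lit 9]⟩,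
 zbF0, []⟩
noncomputable def p004_l169 : Lf2 := ⟨nat_lit 0, nat_lit 5, [nat_lit 4, nat_lit 5, nat_lit 5, nat_lit 20], true, nat_lit 0, nat_lit 0, nat_lit 0, nat_lit 0, ⟨nat_lit 0, nat_lit 0, nat_lit 1000, nat_lit 5, nat_lit 52, nat_lit 0, nat_lit 0, nat_lit 0, nat_lit 0, nat_lit 215, nat_lit 25350, nat_lit 254, nat_lit 65866080, nat_lit 0, nat_lit 0, nat_lit 428996, false, false⟩,
 nat_lit 0, nat_lit 0, nat_lit 0, nat_lit 7289, nat_lit 4064, nat_lit 0, nat_lit 329, nat_lit 0, nat_lit 0, nat_lit 0, nat_lit 0, nat_lit 0, nat_lit 0, nat_lit 5642863354521, nat_lit 115, nat_lit 1000000, nat_lit 0, nat_lit 0, [(nat_lit 3, [(nat_lit 6, nat_lit 1000)])],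
 ⟨p004_k26, nat_lit 0, nat_lit 0, nat_lit 0, nat_lit 0, nat_lit 0, [nat_lit 3007028572, nat_lit 2237600001, nat_lit 23600000], [], [nat_lit 12958880346, nat_lit 13006377416, nat_lit 12758332453, nat_lit 12806734194], nat_lit 0, nat_lit 0, nat_lit 0, nat_lit 0, nat_lit 0, nat_lit 0, [], [nat_lit 103, nat_lit 40, nat_lit 20, nat_lit 40]⟩, C1.Rw.none,
 ⟨nat_lit 6519, nat_lit 6539, ⟨.ofNat (nat_lit 125994), .ofNat (nat_lit 134432), .ofNat (nat_lit 127064), .ofNat (nat_lit 135502), .ofNat (nat_lit 126924), .ofNat (nat_lit 135342), .ofNat (nat_lit 127994), .ofNat (nat_lit 136412)⟩, ⟨.ofNat (nat_lit 0), .ofNat (nat_lit 0), .ofNat (nat_lit 0), .ofNat (nat_lit 0), .ofNat (nat_lit 0), .ofNat (nat_lit 0), .ofNat (nat_lit 0), .ofNat (nat_lit 0)⟩⟩, [⟨nat_lit 0, nat_lit 100, nat_lit 100, nat_lit 30, nat_lit 358209183⟩]⟩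
noncomputable def p004_l170 : Lf2 := ⟨nat_lit 2, nat_lit 5, [nat_lit 4, nat_lit 5, nat_lit 5, nat_lit 20], true, nat_lit 0, nat_lit 0, nat_lit 0, nat_lit 0, zbN0,
 nat_lit 0, nat_lit 0, nat_lit 0, nat_lit 0, nat_lit 0, nat_lit 0, nat_lit 0, nat_lit 0, nat_lit 0, nat_lit 0, nat_lit 0, nat_lit 0, nat_lit 0, nat_lit 0, nat_lit 0, nat_lit 0, nat_lit 0, nat_lit 0, [],
 ⟨p004_k27, nat_lit 0, nat_lit 0, nat_lit 282, nat_lit 0, nat_lit 0, [], [], [], nat_lit 0, nat_lit 0, nat_lit 0, nat_lit 0, nat_lit 0, nat_lit 0, [], [nat_lit 25, nat_lit 40, nat_lit 20, nat_lit 80, nat_lit 17, nat_lit 289, nat_lit 75, nat_lit 9]⟩, C1.Rw.none,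
 zbF0, []⟩
noncomputable def p004_l171 : Lf2 := ⟨nat_lit 3, nat_lit 5, [nat_lit 4, nat_lit 5, nat_lit 5, nat_lit 20], false, nat_lit 0, nat_lit 0, nat_lit 0, nat_lit 0, zbN0,
 nat_lit 0, nat_lit 0, nat_lit 0, nat_lit 0, nat_lit 0, nat_lit 0, nat_lit 0, nat_lit 0, nat_lit 0, nat_lit 0, nat_lit 0, nat_lit 0, nat_lit 0, nat_lit 0, nat_lit 0, nat_lit 0, nat_lit 0, nat_lit 0, [],
 C1.Rw.none, ⟨p004_k28, nat_lit 0, nat_lit 0, nat_lit 296, nat_lit 0, nat_lit 38332, [], [], [], nat_lit 1271250, nat_lit 1271250, nat_lit 43600, nat_lit 65850, nat_lit 0, nat_lit 0, [nat_lit 1412500, nat_lit 1271250], [nat_lit 51, nat_lit 40, nat_lit 20, nat_lit 80, nat_lit 1, nat_lit 289, nat_lit 75, nat_lit 9]⟩,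
 zbF0, []⟩
noncomputable def p004_l172 : Lf2 := ⟨nat_lit 0, nat_lit 5, [nat_lit 4, nat_lit 5, nat_lit 5, nat_lit 20], true, nat_lit 0, nat_lit 0, nat_lit 0, nat_lit 0, ⟨nat_lit 0, nat_lit 0, nat_lit 1000, nat_lit 5, nat_lit 54, nat_lit 0, nat_lit 0, nat_lit 0, nat_lit 0, nat_lit 215, nat_lit 28017, nat_lit 256, nat_lit 65788785, nat_lit 0, nat_lit 0, nat_lit 452239, false, false⟩,
 nat_lit 0, nat_lit 0, nat_lit 0, nat_lit 5609, nat_lit 4838, nat_lit 0, nat_lit 0, nat_lit 0, nat_lit 0, nat_lit 0, nat_lit 0, nat_lit 0, nat_lit 0, nat_lit 3738366724002, nat_lit 115, nat_lit 1000000, nat_lit 0, nat_lit 0, [(nat_lit 3, [(nat_lit 6, nat_lit 1000)])],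
 ⟨p004_k20, nat_lit 0, nat_lit 0, nat_lit 232, nat_lit 0, nat_lit 0, [nat_lit 3341142858, nat_lit 1499600000, nat_lit 23600000], [], [nat_lit 14003466898, nat_lit 14245898432, nat_lit 13756889192, nat_lit 13999345510], nat_lit 0, nat_lit 0, nat_lit 0, nat_lit 0, nat_lit 0, nat_lit 0, [], [nat_lit 25, nat_lit 40, nat_lit 20, nat_lit 80, nat_lit 17, nat_lit 289, nat_lit 75, nat_lit 9]⟩, C1.Rw.none,
 ⟨nat_lit 6519, nat_lit 6615, ⟨.ofNat (nat_lit 126489), .ofNat (nat_lit 135006), .ofNat (nat_lit 131844), .ofNat (nat_lit 140360), .ofNat (nat_lit 131063), .ofNat (nat_lit 139482), .ofNat (nat_lit 136412), .ofNat (nat_lit 144831)⟩, ⟨.ofNat (nat_lit 0), .ofNat (nat_lit 0), .ofNat (nat_lit 0), .ofNat (nat_lit 0), .ofNat (nat_lit 0), .ofNat (nat_lit 0), .ofNat (nat_lit 0), .ofNat (nat_lit 0)⟩⟩, []⟩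
noncomputable def p004_l173 : Lf2 := ⟨nat_lit 0, nat_lit 5, [nat_lit 4, nat_lit 5, nat_lit 5, nat_lit 20], true, nat_lit 0, nat_lit 0, nat_lit 0, nat_lit 0, ⟨nat_lit 0, nat_lit 0, nat_lit 1000, nat_lit 5, nat_lit 56, nat_lit 0, nat_lit 0, nat_lit 0, nat_lit 0, nat_lit 215, nat_lit 29400, nat_lit 257, nat_lit 65725724, nat_lit 0, nat_lit 0, nat_lit 470923, false, false⟩,
 nat_lit 0, nat_lit 0, nat_lit 0, nat_lit 5609, nat_lit 4903, nat_lit 0, nat_lit 0, nat_lit 0, nat_lit 0, nat_lit 0, nat_lit 0, nat_lit 0, nat_lit 0, nat_lit 19842657915623, nat_lit 115, nat_lit 1000000, nat_lit 0, nat_lit 0, [(nat_lit 3, [(nat_lit 6, nat_lit 1000)])],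
 ⟨p004_k4, nat_lit 0, nat_lit 0, nat_lit 224, nat_lit 0, nat_lit 0, [nat_lit 3341142858, nat_lit 1499600000, nat_lit 23600000], [], [nat_lit 13484400300, nat_lit 13971741193, nat_lit 13233861252, nat_lit 13721256863], nat_lit 0, nat_lit 0, nat_lit 0, nat_lit 0, nat_lit 0, nat_lit 0, [], [nat_lit 25, nat_lit 40, nat_lit 20, nat_lit 80, nat_lit 17, nat_lit 289, nat_lit 75, nat_lit 9]⟩, C1.Rw.none,
 ⟨nat_lit 6519, nat_lit 6709, ⟨.ofNat (nat_lit 125122), .ofNat (nat_lit 133737), .ofNat (nat_lit 135841), .ofNat (nat_lit 144456), .ofNat (nat_lit 134132), .ofNat (nat_lit 142551), .ofNat (nat_lit 144831), .ofNat (nat_lit 153250)⟩, ⟨.ofNat (nat_lit 0), .ofNat (nat_lit 0), .ofNat (nat_lit 0), .ofNat (nat_lit 0), .ofNat (nat_lit 0), .ofNat (nat_lit 0), .ofNat (nat_lit 0), .ofNat (nat_lit 0)⟩⟩, []⟩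
noncomputable def p004_l174 : Lf2 := ⟨nat_lit 1, nat_lit 5, [nat_lit 4, nat_lit 5, nat_lit 5, nat_lit 20], false, nat_lit 0, nat_lit 0, nat_lit 0, nat_lit 0, zbN0,
 nat_lit 0, nat_lit 0, nat_lit 0, nat_lit 0, nat_lit 0, nat_lit 0, nat_lit 0, nat_lit 0, nat_lit 0, nat_lit 0, nat_lit 0, nat_lit 0, nat_lit 0, nat_lit 0, nat_lit 0, nat_lit 0, nat_lit 0, nat_lit 0, [],
 C1.Rw.none, C1.Rw.none,
 zbF0, []⟩
noncomputable def b_NL_550_550_0_4 : St := ⟨false, nat_lit 0, nat_lit 1, nat_lit 1, nat_lit 20, nat_lit 220, nat_lit 230, nat_lit 220, nat_lit 240, nat_lit 4, nat_lit 20, nat_lit 0, nat_lit 0, nat_lit 0, nat_lit 0, nat_lit 0, nat_lit 0, nat_lit 20, nat_lit 40, nat_lit 0, nat_lit 0, nat_lit 0, nat_lit 0⟩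
theorem d_NL_550_550_0_4 (h : EB TB.env) : Dead b_NL_550_550_0_4 := chkB_sound0 h (T :=
(.ord (.spl (nat_lit 6) (nat_lit 28)
(.spl (nat_lit 2) (nat_lit 16)
(.spl (nat_lit 1) (nat_lit 225)
(.leaf p004_l157)
(.ord (.spl (nat_lit 6) (nat_lit 24)
(.leaf p004_l158)
(.spl (nat_lit 2) (nat_lit 8)
(.spl (nat_lit 0) (nat_lit 228)
(.ord (.spl (nat_lit 0) (nat_lit 227)
(.ord (.leaf p004_l159))
(.leaf p004_l160)))
(.leaf p004_l161))
(.spl (nat_lit 2) (nat_lit 12)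
(.spl (nat_lit 1) (nat_lit 228)
(.leaf p004_l162)
(.ord (.spl (nat_lit 0) (nat_lit 229)
(.ord (.spl (nat_lit 8) (nat_lit 800)
(.spl (nat_lit 7) (nat_lit 600)
(.leaf p004_l163)
(.leaf p004_l164))
(.leaf p004_l165)))
(.spl (nat_lit 1) (nat_lit 229)
(.spl (nat_lit 8) (nat_lit 800)
(.spl (nat_lit 7) (nat_lit 600)
(.leaf p004_l166)
(.leaf p004_l167))
(.leaf p004_l168))
(.spl (nat_lit 8) (nat_lit 800)
(.spl (nat_lit 7) (nat_lit 600)
(.leaf p004_l169)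
(.leaf p004_l170))
(.leaf p004_l171))))))
(.leaf p004_l172))))))
(.leaf p004_l173))
(.leaf p004_l174)))) (by decide +kernel)
noncomputable def p004_l175 : Lf2 := ⟨nat_lit 0, nat_lit 5, [nat_lit 4, nat_lit 5, nat_lit 5, nat_lit 20], true, nat_lit 0, nat_lit 0, nat_lit 0, nat_lit 0, ⟨nat_lit 0, nat_lit 0, nat_lit 1000, nat_lit 5, nat_lit 54, nat_lit 0, nat_lit 0, nat_lit 0, nat_lit 0, nat_lit 215, nat_lit 28017, nat_lit 256, nat_lit 65790908, nat_lit 0, nat_lit 0, nat_lit 451606, false, false⟩,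
 nat_lit 0, nat_lit 0, nat_lit 0, nat_lit 0, nat_lit 4713, nat_lit 0, nat_lit 220, nat_lit 0, nat_lit 0, nat_lit 0, nat_lit 0, nat_lit 0, nat_lit 0, nat_lit 0, nat_lit 115, nat_lit 1000000, nat_lit 0, nat_lit 0, [(nat_lit 3, [(nat_lit 6, nat_lit 1000)])],
 ⟨p004_k18, nat_lit 0, nat_lit 0, nat_lit 291, nat_lit 0, nat_lit 0, [nat_lit 3341142858, nat_lit 1499600000, nat_lit 23600000], [], [nat_lit 14149283300, nat_lit 14743109547, nat_lit 13194996199, nat_lit 13796894884], nat_lit 0, nat_lit 0, nat_lit 0, nat_lit 0, nat_lit 0, nat_lit 0, [], [nat_lit 25, nat_lit 40, nat_lit 20, nat_lit 80, nat_lit 17, nat_lit 289, nat_lit 75, nat_lit 9]⟩, C1.Rw.none,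
 ⟨nat_lit 6324, nat_lit 6520, ⟨.ofNat (nat_lit 108876), .ofNat (nat_lit 142551), .ofNat (nat_lit 119575), .ofNat (nat_lit 153250), .ofNat (nat_lit 118272), .ofNat (nat_lit 151177), .ofNat (nat_lit 128956), .ofNat (nat_lit 161861)⟩, ⟨.ofNat (nat_lit 0), .ofNat (nat_lit 0), .ofNat (nat_lit 0), .ofNat (nat_lit 0), .ofNat (nat_lit 0), .ofNat (nat_lit 0), .ofNat (nat_lit 0), .ofNat (nat_lit 0)⟩⟩, [⟨nat_lit 0, nat_lit 100, nat_lit 99, nat_lit 30, nat_lit 411322327⟩]⟩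
noncomputable def p004_l176 : Lf2 := ⟨nat_lit 0, nat_lit 5, [nat_lit 4, nat_lit 5, nat_lit 5, nat_lit 20], true, nat_lit 0, nat_lit 0, nat_lit 0, nat_lit 0, ⟨nat_lit 0, nat_lit 0, nat_lit 1000, nat_lit 5, nat_lit 49, nat_lit 0, nat_lit 0, nat_lit 0, nat_lit 0, nat_lit 215, nat_lit 22817, nat_lit 252, nat_lit 66000170, nat_lit 0, nat_lit 0, nat_lit 387702, false, false⟩,
 nat_lit 0, nat_lit 0, nat_lit 0, nat_lit 7237, nat_lit 4775, nat_lit 0, nat_lit 233, nat_lit 0, nat_lit 0, nat_lit 0, nat_lit 0, nat_lit 0, nat_lit 0, nat_lit 0, nat_lit 115, nat_lit 1000000, nat_lit 0, nat_lit 0, [(nat_lit 3, [(nat_lit 6, nat_lit 1000)])],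
 ⟨p004_k18, nat_lit 0, nat_lit 0, nat_lit 291, nat_lit 0, nat_lit 0, [nat_lit 3341142858, nat_lit 1499600000, nat_lit 23600000], [], [nat_lit 14168480730, nat_lit 14763045271, nat_lit 13855956732, nat_lit 14461993356], nat_lit 0, nat_lit 0, nat_lit 0, nat_lit 0, nat_lit 0, nat_lit 0, [], [nat_lit 25, nat_lit 40, nat_lit 20, nat_lit 80, nat_lit 17, nat_lit 289, nat_lit 75, nat_lit 9]⟩, C1.Rw.none,
 ⟨nat_lit 6324, nat_lit 6520, ⟨.ofNat (nat_lit 108876), .ofNat (nat_lit 117294), .ofNat (nat_lit 119575), .ofNat (nat_lit 127994), .ofNat (nat_lit 118272), .ofNat (nat_lit 126498), .ofNat (nat_lit 128956), .ofNat (nat_lit 137182)⟩, ⟨.ofNat (nat_lit 0), .ofNat (nat_lit 0), .ofNat (nat_lit 0), .ofNat (nat_lit 0), .ofNat (nat_lit 0), .ofNat (nat_lit 0), .ofNat (nat_lit 0), .ofNat (nat_lit 0)⟩⟩, [⟨nat_lit 0, nat_lit 100, nat_lit 99, nat_lit 30, nat_lit 1884459672⟩]⟩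
noncomputable def p004_l177 : Lf2 := ⟨nat_lit 0, nat_lit 5, [nat_lit 4, nat_lit 5, nat_lit 5, nat_lit 20], true, nat_lit 0, nat_lit 0, nat_lit 0, nat_lit 0, ⟨nat_lit 0, nat_lit 0, nat_lit 1000, nat_lit 5, nat_lit 51, nat_lit 0, nat_lit 0, nat_lit 0, nat_lit 0, nat_lit 215, nat_lit 24067, nat_lit 253, nat_lit 65945290, nat_lit 0, nat_lit 0, nat_lit 404758, false, false⟩,
 nat_lit 0, nat_lit 0, nat_lit 0, nat_lit 7226, nat_lit 4775, nat_lit 0, nat_lit 231, nat_lit 0, nat_lit 0, nat_lit 0, nat_lit 0, nat_lit 0, nat_lit 0, nat_lit 0, nat_lit 115, nat_lit 1000000, nat_lit 0, nat_lit 0, [(nat_lit 3, [(nat_lit 6, nat_lit 1000)])],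
 ⟨p004_k18, nat_lit 0, nat_lit 0, nat_lit 283, nat_lit 0, nat_lit 0, [nat_lit 3341142858, nat_lit 1499600000, nat_lit 23600000], [], [nat_lit 13860454174, nat_lit 14158975044, nat_lit 13617711693, nat_lit 13918764089], nat_lit 0, nat_lit 0, nat_lit 0, nat_lit 0, nat_lit 0, nat_lit 0, [], [nat_lit 25, nat_lit 40, nat_lit 20, nat_lit 80, nat_lit 17, nat_lit 289, nat_lit 75, nat_lit 9]⟩, C1.Rw.none,
 ⟨nat_lit 6422, nat_lit 6520, ⟨.ofNat (nat_lit 117294), .ofNat (nat_lit 125713), .ofNat (nat_lit 122644), .ofNat (nat_lit 131063), .ofNat (nat_lit 121920), .ofNat (nat_lit 130242), .ofNat (nat_lit 127266), .ofNat (nat_lit 135588)⟩, ⟨.ofNat (nat_lit 0), .ofNat (nat_lit 0), .ofNat (nat_lit 0), .ofNat (nat_lit 0), .ofNat (nat_lit 0), .ofNat (nat_lit 0), .ofNat (nat_lit 0), .ofNat (nat_lit 0)⟩⟩, [⟨nat_lit 0, nat_lit 100, nat_lit 99, nat_lit 27, nat_lit 179799724⟩]⟩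
noncomputable def p004_l178 : Lf2 := ⟨nat_lit 0, nat_lit 5, [nat_lit 4, nat_lit 5, nat_lit 5, nat_lit 20], true, nat_lit 0, nat_lit 0, nat_lit 0, nat_lit 0, ⟨nat_lit 0, nat_lit 0, nat_lit 1000, nat_lit 5, nat_lit 52, nat_lit 0, nat_lit 0, nat_lit 0, nat_lit 0, nat_lit 215, nat_lit 25350, nat_lit 254, nat_lit 65873945, nat_lit 0, nat_lit 0, nat_lit 426609, false, false⟩,
 nat_lit 0, nat_lit 0, nat_lit 0, nat_lit 7230, nat_lit 4775, nat_lit 0, nat_lit 232, nat_lit 0, nat_lit 0, nat_lit 0, nat_lit 0, nat_lit 0, nat_lit 0, nat_lit 0, nat_lit 115, nat_lit 1000000, nat_lit 0, nat_lit 0, [(nat_lit 3, [(nat_lit 6, nat_lit 1000)])],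
 ⟨p004_k18, nat_lit 0, nat_lit 0, nat_lit 283, nat_lit 0, nat_lit 0, [nat_lit 3341142858, nat_lit 1499600000, nat_lit 23600000], [], [nat_lit 13857635424, nat_lit 14158975044, nat_lit 13615843902, nat_lit 13918764089], nat_lit 0, nat_lit 0, nat_lit 0, nat_lit 0, nat_lit 0, nat_lit 0, [], [nat_lit 25, nat_lit 40, nat_lit 20, nat_lit 80, nat_lit 17, nat_lit 289, nat_lit 75, nat_lit 9]⟩, C1.Rw.none,
 ⟨nat_lit 6422, nat_lit 6520, ⟨.ofNat (nat_lit 122644), .ofNat (nat_lit 131063), .ofNat (nat_lit 125854), .ofNat (nat_lit 134272), .ofNat (nat_lit 127266), .ofNat (nat_lit 135588), .ofNat (nat_lit 130473), .ofNat (nat_lit 138795)⟩, ⟨.ofNat (nat_lit 0), .ofNat (nat_lit 0), .ofNat (nat_lit 0), .ofNat (nat_lit 0), .ofNat (nat_lit 0), .ofNat (nat_lit 0), .ofNat (nat_lit 0), .ofNat (nat_lit 0)⟩⟩, [⟨nat_lit 0, nat_lit 100, nat_lit 100, nat_lit 29, nat_lit 410951524⟩]⟩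
noncomputable def p004_l179 : Lf2 := ⟨nat_lit 0, nat_lit 5, [nat_lit 4, nat_lit 5, nat_lit 5, nat_lit 20], true, nat_lit 0, nat_lit 0, nat_lit 0, nat_lit 0, ⟨nat_lit 0, nat_lit 0, nat_lit 1000, nat_lit 5, nat_lit 53, nat_lit 0, nat_lit 0, nat_lit 0, nat_lit 0, nat_lit 215, nat_lit 25350, nat_lit 254, nat_lit 65860858, nat_lit 0, nat_lit 0, nat_lit 430579, false, false⟩,
 nat_lit 0, nat_lit 0, nat_lit 0, nat_lit 6797, nat_lit 4775, nat_lit 0, nat_lit 232, nat_lit 0, nat_lit 0, nat_lit 0, nat_lit 0, nat_lit 0, nat_lit 0, nat_lit 0, nat_lit 115, nat_lit 1000000, nat_lit 0, nat_lit 0, [(nat_lit 3, [(nat_lit 6, nat_lit 1000)])],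
 ⟨p004_k18, nat_lit 0, nat_lit 0, nat_lit 283, nat_lit 0, nat_lit 0, [nat_lit 3341142858, nat_lit 1499600000, nat_lit 23600000], [], [nat_lit 13857635424, nat_lit 13977164056, nat_lit 13615843902, nat_lit 13737011976], nat_lit 0, nat_lit 0, nat_lit 0, nat_lit 0, nat_lit 0, nat_lit 0, [], [nat_lit 25, nat_lit 40, nat_lit 20, nat_lit 80, nat_lit 17, nat_lit 289, nat_lit 75, nat_lit 9]⟩, C1.Rw.none,
 ⟨nat_lit 6480, nat_lit 6520, ⟨.ofNat (nat_lit 125854), .ofNat (nat_lit 134272), .ofNat (nat_lit 126924), .ofNat (nat_lit 135342), .ofNat (nat_lit 127707), .ofNat (nat_lit 136087), .ofNat (nat_lit 128777), .ofNat (nat_lit 137157)⟩, ⟨.ofNat (nat_lit 0), .ofNat (nat_lit 0), .ofNat (nat_lit 0), .ofNat (nat_lit 0), .ofNat (nat_lit 0), .ofNat (nat_lit 0), .ofNat (nat_lit 0), .ofNat (nat_lit 0)⟩⟩, [⟨nat_lit 0, nat_lit 100, nat_lit 100, nat_lit 30, nat_lit 411361902⟩]⟩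
noncomputable def p004_l180 : Lf2 := ⟨nat_lit 0, nat_lit 5, [nat_lit 4, nat_lit 5, nat_lit 5, nat_lit 20], true, nat_lit 0, nat_lit 0, nat_lit 0, nat_lit 0, ⟨nat_lit 0, nat_lit 0, nat_lit 1000, nat_lit 5, nat_lit 53, nat_lit 0, nat_lit 0, nat_lit 0, nat_lit 0, nat_lit 215, nat_lit 26667, nat_lit 255, nat_lit 65850418, nat_lit 0, nat_lit 0, nat_lit 433737, false, false⟩,
 nat_lit 0, nat_lit 0, nat_lit 0, nat_lit 2542, nat_lit 4729, nat_lit 0, nat_lit 0, nat_lit 0, nat_lit 0, nat_lit 0, nat_lit 0, nat_lit 0, nat_lit 0, nat_lit 0, nat_lit 54, nat_lit 400000, nat_lit 0, nat_lit 0, [(nat_lit 3, [(nat_lit 5, nat_lit 1000)])],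
 ⟨p004_k10, nat_lit 0, nat_lit 0, nat_lit 0, nat_lit 0, nat_lit 0, [nat_lit 2385360001, nat_lit 965600001, nat_lit 151199999], [], [nat_lit 14693652275, nat_lit 14757191885, nat_lit 14454174903, nat_lit 14507749108], nat_lit 0, nat_lit 0, nat_lit 0, nat_lit 0, nat_lit 0, nat_lit 0, [], [nat_lit 96, nat_lit 40, nat_lit 20, nat_lit 40]⟩, C1.Rw.none,
 ⟨nat_lit 6500, nat_lit 6520, ⟨.ofNat (nat_lit 126924), .ofNat (nat_lit 135342), .ofNat (nat_lit 127994), .ofNat (nat_lit 136412), .ofNat (nat_lit 127851), .ofNat (nat_lit 136250), .ofNat (nat_lit 128921), .ofNat (nat_lit 137320)⟩, ⟨.ofNat (nat_lit 0), .ofNat (nat_lit 0), .ofNat (nat_lit 0), .ofNat (nat_lit 0), .ofNat (nat_lit 0), .ofNat (nat_lit 0), .ofNat (nat_lit 0), .ofNat (nat_lit 0)⟩⟩, [⟨nat_lit 0, nat_lit 100, nat_lit 100, nat_lit 30, nat_lit 407672298⟩]⟩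
noncomputable def p004_l181 : Lf2 := ⟨nat_lit 2, nat_lit 5, [nat_lit 4, nat_lit 5, nat_lit 5, nat_lit 20], true, nat_lit 0, nat_lit 0, nat_lit 0, nat_lit 0, zbN0,
 nat_lit 0, nat_lit 0, nat_lit 0, nat_lit 0, nat_lit 0, nat_lit 0, nat_lit 0, nat_lit 0, nat_lit 0, nat_lit 0, nat_lit 0, nat_lit 0, nat_lit 0, nat_lit 0, nat_lit 0, nat_lit 0, nat_lit 0, nat_lit 0, [],
 ⟨p004_k18, nat_lit 0, nat_lit 0, nat_lit 283, nat_lit 0, nat_lit 0, [], [], [], nat_lit 0, nat_lit 0, nat_lit 0, nat_lit 0, nat_lit 0, nat_lit 0, [], [nat_lit 25, nat_lit 40, nat_lit 20, nat_lit 80, nat_lit 17, nat_lit 289, nat_lit 75, nat_lit 9]⟩, C1.Rw.none,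
 zbF0, []⟩
noncomputable def p004_l182 : Lf2 := ⟨nat_lit 3, nat_lit 5, [nat_lit 4, nat_lit 5, nat_lit 5, nat_lit 20], false, nat_lit 0, nat_lit 0, nat_lit 0, nat_lit 0, zbN0,
 nat_lit 0, nat_lit 0, nat_lit 0, nat_lit 0, nat_lit 0, nat_lit 0, nat_lit 0, nat_lit 0, nat_lit 0, nat_lit 0, nat_lit 0, nat_lit 0, nat_lit 0, nat_lit 0, nat_lit 0, nat_lit 0, nat_lit 0, nat_lit 0, [],
 C1.Rw.none, ⟨p004_k28, nat_lit 0, nat_lit 0, nat_lit 297, nat_lit 0, nat_lit 42824, [], [], [], nat_lit 1271250, nat_lit 1271250, nat_lit 43600, nat_lit 65850, nat_lit 0, nat_lit 0, [nat_lit 1412500, nat_lit 1271250], [nat_lit 51, nat_lit 40, nat_lit 20, nat_lit 80, nat_lit 1, nat_lit 289, nat_lit 75, nat_lit 9]⟩,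
 zbF0, []⟩
noncomputable def p004_l183 : Lf2 := ⟨nat_lit 0, nat_lit 5, [nat_lit 4, nat_lit 5, nat_lit 5, nat_lit 20], true, nat_lit 0, nat_lit 0, nat_lit 0, nat_lit 0, ⟨nat_lit 0, nat_lit 0, nat_lit 1000, nat_lit 5, nat_lit 53, nat_lit 0, nat_lit 0, nat_lit 0, nat_lit 0, nat_lit 215, nat_lit 26667, nat_lit 255, nat_lit 65834688, nat_lit 0, nat_lit 0, nat_lit 438483, false, false⟩,
 nat_lit 0, nat_lit 0, nat_lit 0, nat_lit 2544, nat_lit 4720, nat_lit 0, nat_lit 0, nat_lit 0, nat_lit 0, nat_lit 0, nat_lit 0, nat_lit 0, nat_lit 0, nat_lit 0, nat_lit 54, nat_lit 400000, nat_lit 0, nat_lit 0, [(nat_lit 3, [(nat_lit 5, nat_lit 1000)])],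
 ⟨p004_k29, nat_lit 0, nat_lit 0, nat_lit 0, nat_lit 0, nat_lit 0, [nat_lit 2385360001, nat_lit 965600001, nat_lit 151199999], [], [nat_lit 14751609575, nat_lit 14814921580, nat_lit 14512672778, nat_lit 14566205460], nat_lit 0, nat_lit 0, nat_lit 0, nat_lit 0, nat_lit 0, nat_lit 0, [], [nat_lit 96, nat_lit 40, nat_lit 20, nat_lit 40]⟩, C1.Rw.none,
 ⟨nat_lit 6480, nat_lit 6500, ⟨.ofNat (nat_lit 127851), .ofNat (nat_lit 136250), .ofNat (nat_lit 128921), .ofNat (nat_lit 137320), .ofNat (nat_lit 128777), .ofNat (nat_lit 137157), .ofNat (nat_lit 129846), .ofNat (nat_lit 138226)⟩, ⟨.ofNat (nat_lit 0), .ofNat (nat_lit 0), .ofNat (nat_lit 0), .ofNat (nat_lit 0), .ofNat (nat_lit 0), .ofNat (nat_lit 0), .ofNat (nat_lit 0), .ofNat (nat_lit 0)⟩⟩, [⟨nat_lit 0, nat_lit 100, nat_lit 100, nat_lit 30, nat_lit 406512638⟩]⟩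
noncomputable def p004_l184 : Lf2 := ⟨nat_lit 2, nat_lit 5, [nat_lit 4, nat_lit 5, nat_lit 5, nat_lit 20], true, nat_lit 0, nat_lit 0, nat_lit 0, nat_lit 0, zbN0,
 nat_lit 0, nat_lit 0, nat_lit 0, nat_lit 0, nat_lit 0, nat_lit 0, nat_lit 0, nat_lit 0, nat_lit 0, nat_lit 0, nat_lit 0, nat_lit 0, nat_lit 0, nat_lit 0, nat_lit 0, nat_lit 0, nat_lit 0, nat_lit 0, [],
 ⟨p004_k30, nat_lit 0, nat_lit 0, nat_lit 283, nat_lit 0, nat_lit 0, [], [], [], nat_lit 0, nat_lit 0, nat_lit 0, nat_lit 0, nat_lit 0, nat_lit 0, [], [nat_lit 25, nat_lit 40, nat_lit 20, nat_lit 80, nat_lit 17, nat_lit 289, nat_lit 75, nat_lit 9]⟩, C1.Rw.none,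
 zbF0, []⟩
noncomputable def p004_l185 : Lf2 := ⟨nat_lit 3, nat_lit 5, [nat_lit 4, nat_lit 5, nat_lit 5, nat_lit 20], false, nat_lit 0, nat_lit 0, nat_lit 0, nat_lit 0, zbN0,
 nat_lit 0, nat_lit 0, nat_lit 0, nat_lit 0, nat_lit 0, nat_lit 0, nat_lit 0, nat_lit 0, nat_lit 0, nat_lit 0, nat_lit 0, nat_lit 0, nat_lit 0, nat_lit 0, nat_lit 0, nat_lit 0, nat_lit 0, nat_lit 0, [],
 C1.Rw.none, ⟨p004_k28, nat_lit 0, nat_lit 0, nat_lit 299, nat_lit 0, nat_lit 47316, [], [], [], nat_lit 1271250, nat_lit 1271250, nat_lit 43600, nat_lit 65850, nat_lit 0, nat_lit 0, [nat_lit 1412500, nat_lit 1271250], [nat_lit 51, nat_lit 40, nat_lit 20, nat_lit 80, nat_lit 1, nat_lit 289, nat_lit 75, nat_lit 9]⟩,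
 zbF0, []⟩
noncomputable def p004_l186 : Lf2 := ⟨nat_lit 0, nat_lit 5, [nat_lit 4, nat_lit 5, nat_lit 5, nat_lit 20], true, nat_lit 0, nat_lit 0, nat_lit 0, nat_lit 0, ⟨nat_lit 0, nat_lit 0, nat_lit 1000, nat_lit 5, nat_lit 53, nat_lit 0, nat_lit 0, nat_lit 0, nat_lit 0, nat_lit 215, nat_lit 26667, nat_lit 255, nat_lit 65828136, nat_lit 0, nat_lit 0, nat_lit 440455, false, false⟩,
 nat_lit 0, nat_lit 0, nat_lit 0, nat_lit 0, nat_lit 4755, nat_lit 0, nat_lit 214, nat_lit 0, nat_lit 0, nat_lit 0, nat_lit 0, nat_lit 0, nat_lit 0, nat_lit 0, nat_lit 115, nat_lit 1000000, nat_lit 0, nat_lit 0, [(nat_lit 3, [(nat_lit 6, nat_lit 1000)])],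
 ⟨p004_k31, nat_lit 0, nat_lit 0, nat_lit 283, nat_lit 0, nat_lit 0, [nat_lit 3341142858, nat_lit 1499600000, nat_lit 23600000], [], [nat_lit 13994073671, nat_lit 14052942393, nat_lit 13753512984, nat_lit 13813982700], nat_lit 0, nat_lit 0, nat_lit 0, nat_lit 0, nat_lit 0, nat_lit 0, [], [nat_lit 25, nat_lit 40, nat_lit 20, nat_lit 80, nat_lit 17, nat_lit 289, nat_lit 75, nat_lit 9]⟩, C1.Rw.none,
 ⟨nat_lit 6461, nat_lit 6481, ⟨.ofNat (nat_lit 127707), .ofNat (nat_lit 136087), .ofNat (nat_lit 129846), .ofNat (nat_lit 138226), .ofNat (nat_lit 128631), .ofNat (nat_lit 136992), .ofNat (nat_lit 130770), .ofNat (nat_lit 139130)⟩, ⟨.ofNat (nat_lit 0), .ofNat (nat_lit 0), .ofNat (nat_lit 0), .ofNat (nat_lit 0), .ofNat (nat_lit 0), .ofNat (nat_lit 0), .ofNat (nat_lit 0), .ofNat (nat_lit 0)⟩⟩, [⟨nat_lit 0, nat_lit 100, nat_lit 100, nat_lit 31, nat_lit 409291003⟩]⟩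
noncomputable def p004_l187 : Lf2 := ⟨nat_lit 1, nat_lit 5, [nat_lit 4, nat_lit 5, nat_lit 5, nat_lit 20], false, nat_lit 0, nat_lit 0, nat_lit 0, nat_lit 0, zbN0,
 nat_lit 0, nat_lit 0, nat_lit 0, nat_lit 0, nat_lit 0, nat_lit 0, nat_lit 0, nat_lit 0, nat_lit 0, nat_lit 0, nat_lit 0, nat_lit 0, nat_lit 0, nat_lit 0, nat_lit 0, nat_lit 0, nat_lit 0, nat_lit 0, [],
 C1.Rw.none, C1.Rw.none,
 zbF0, []⟩
noncomputable def p004_l188 : Lf2 := ⟨nat_lit 1, nat_lit 5, [nat_lit 4, nat_lit 5, nat_lit 5, nat_lit 20], false, nat_lit 0, nat_lit 0, nat_lit 0, nat_lit 0, zbN0,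
 nat_lit 0, nat_lit 0, nat_lit 0, nat_lit 0, nat_lit 0, nat_lit 0, nat_lit 0, nat_lit 0, nat_lit 0, nat_lit 0, nat_lit 0, nat_lit 0, nat_lit 0, nat_lit 0, nat_lit 0, nat_lit 0, nat_lit 0, nat_lit 0, [],
 C1.Rw.none, C1.Rw.none,
 zbF0, []⟩
noncomputable def p004_l189 : Lf2 := ⟨nat_lit 0, nat_lit 5, [nat_lit 4, nat_lit 5, nat_lit 5, nat_lit 20], true, nat_lit 0, nat_lit 0, nat_lit 0, nat_lit 0, ⟨nat_lit 0, nat_lit 0, nat_lit 1000, nat_lit 5, nat_lit 53, nat_lit 0, nat_lit 0, nat_lit 0, nat_lit 0, nat_lit 215, nat_lit 26667, nat_lit 255, nat_lit 65834688, nat_lit 0, nat_lit 0, nat_lit 438483, false, false⟩,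
 nat_lit 0, nat_lit 0, nat_lit 0, nat_lit 8878, nat_lit 4720, nat_lit 0, nat_lit 0, nat_lit 0, nat_lit 0, nat_lit 0, nat_lit 0, nat_lit 0, nat_lit 0, nat_lit 0, nat_lit 54, nat_lit 400000, nat_lit 0, nat_lit 0, [(nat_lit 3, [(nat_lit 5, nat_lit 1000)])],
 ⟨p004_k29, nat_lit 0, nat_lit 0, nat_lit 0, nat_lit 0, nat_lit 0, [nat_lit 2385360001, nat_lit 965600001, nat_lit 151199999], [], [nat_lit 14751609575, nat_lit 14814921580, nat_lit 14512672778, nat_lit 14566205460], nat_lit 0, nat_lit 0, nat_lit 0, nat_lit 0, nat_lit 0, nat_lit 0, [], [nat_lit 96, nat_lit 40, nat_lit 20, nat_lit 40]⟩, C1.Rw.none,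
 ⟨nat_lit 6480, nat_lit 6500, ⟨.ofNat (nat_lit 127851), .ofNat (nat_lit 136250), .ofNat (nat_lit 128921), .ofNat (nat_lit 137320), .ofNat (nat_lit 128777), .ofNat (nat_lit 137157), .ofNat (nat_lit 129846), .ofNat (nat_lit 138226)⟩, ⟨.ofNat (nat_lit 0), .ofNat (nat_lit 0), .ofNat (nat_lit 0), .ofNat (nat_lit 0), .ofNat (nat_lit 0), .ofNat (nat_lit 0), .ofNat (nat_lit 0), .ofNat (nat_lit 0)⟩⟩, [⟨nat_lit 0, nat_lit 100, nat_lit 100, nat_lit 31, nat_lit 406512638⟩]⟩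
noncomputable def p004_l190 : Lf2 := ⟨nat_lit 2, nat_lit 5, [nat_lit 4, nat_lit 5, nat_lit 5, nat_lit 20], true, nat_lit 0, nat_lit 0, nat_lit 0, nat_lit 0, zbN0,
 nat_lit 0, nat_lit 0, nat_lit 0, nat_lit 0, nat_lit 0, nat_lit 0, nat_lit 0, nat_lit 0, nat_lit 0, nat_lit 0, nat_lit 0, nat_lit 0, nat_lit 0, nat_lit 0, nat_lit 0, nat_lit 0, nat_lit 0, nat_lit 0, [],
 ⟨p004_k30, nat_lit 0, nat_lit 0, nat_lit 283, nat_lit 0, nat_lit 0, [], [], [], nat_lit 0, nat_lit 0, nat_lit 0, nat_lit 0, nat_lit 0, nat_lit 0, [], [nat_lit 25, nat_lit 40, nat_lit 20, nat_lit 80, nat_lit 17, nat_lit 289, nat_lit 75, nat_lit 9]⟩, C1.Rw.none,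
 zbF0, []⟩
noncomputable def p004_l191 : Lf2 := ⟨nat_lit 3, nat_lit 5, [nat_lit 4, nat_lit 5, nat_lit 5, nat_lit 20], false, nat_lit 0, nat_lit 0, nat_lit 0, nat_lit 0, zbN0,
 nat_lit 0, nat_lit 0, nat_lit 0, nat_lit 0, nat_lit 0, nat_lit 0, nat_lit 0, nat_lit 0, nat_lit 0, nat_lit 0, nat_lit 0, nat_lit 0, nat_lit 0, nat_lit 0, nat_lit 0, nat_lit 0, nat_lit 0, nat_lit 0, [],
 C1.Rw.none, ⟨p004_k28, nat_lit 0, nat_lit 0, nat_lit 284, nat_lit 0, nat_lit 5688, [], [], [], nat_lit 1271250, nat_lit 1271250, nat_lit 43600, nat_lit 65850, nat_lit 0, nat_lit 0, [nat_lit 1412500, nat_lit 1271250], [nat_lit 51, nat_lit 40, nat_lit 20, nat_lit 80, nat_lit 1, nat_lit 289, nat_lit 75, nat_lit 9]⟩,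
 zbF0, []⟩
noncomputable def p004_l192 : Lf2 := ⟨nat_lit 0, nat_lit 5, [nat_lit 4, nat_lit 5, nat_lit 5, nat_lit 20], true, nat_lit 0, nat_lit 0, nat_lit 0, nat_lit 0, ⟨nat_lit 0, nat_lit 0, nat_lit 1000, nat_lit 5, nat_lit 53, nat_lit 0, nat_lit 0, nat_lit 0, nat_lit 0, nat_lit 215, nat_lit 26667, nat_lit 255, nat_lit 65837346, nat_lit 0, nat_lit 0, nat_lit 437681, false, false⟩,
 nat_lit 0, nat_lit 0, nat_lit 0, nat_lit 10683, nat_lit 4746, nat_lit 0, nat_lit 208, nat_lit 0, nat_lit 0, nat_lit 0, nat_lit 0, nat_lit 0, nat_lit 0, nat_lit 0, nat_lit 115, nat_lit 1000000, nat_lit 0, nat_lit 0, [(nat_lit 3, [(nat_lit 6, nat_lit 1000)])],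
 ⟨p004_k31, nat_lit 0, nat_lit 0, nat_lit 283, nat_lit 0, nat_lit 0, [nat_lit 3341142858, nat_lit 1499600000, nat_lit 23600000], [], [nat_lit 14014121401, nat_lit 14062374401, nat_lit 13773141390, nat_lit 13821356709], nat_lit 0, nat_lit 0, nat_lit 0, nat_lit 0, nat_lit 0, nat_lit 0, [], [nat_lit 25, nat_lit 40, nat_lit 20, nat_lit 80, nat_lit 17, nat_lit 289, nat_lit 75, nat_lit 9]⟩, C1.Rw.none,
 ⟨nat_lit 6461, nat_lit 6481, ⟨.ofNat (nat_lit 127707), .ofNat (nat_lit 136087), .ofNat (nat_lit 128777), .ofNat (nat_lit 137157), .ofNat (nat_lit 128631), .ofNat (nat_lit 136992), .ofNat (nat_lit 129700), .ofNat (nat_lit 138061)⟩, ⟨.ofNat (nat_lit 0), .ofNat (nat_lit 0), .ofNat (nat_lit 0), .ofNat (nat_lit 0), .ofNat (nat_lit 0), .ofNat (nat_lit 0), .ofNat (nat_lit 0), .ofNat (nat_lit 0)⟩⟩, [⟨nat_lit 0, nat_lit 100, nat_lit 100, nat_lit 31, nat_lit 408575760⟩]⟩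
noncomputable def p004_l193 : Lf2 := ⟨nat_lit 0, nat_lit 5, [nat_lit 4, nat_lit 5, nat_lit 5, nat_lit 20], true, nat_lit 0, nat_lit 0, nat_lit 0, nat_lit 0, ⟨nat_lit 0, nat_lit 0, nat_lit 1000, nat_lit 5, nat_lit 54, nat_lit 0, nat_lit 0, nat_lit 0, nat_lit 0, nat_lit 215, nat_lit 26667, nat_lit 255, nat_lit 65818890, nat_lit 0, nat_lit 0, nat_lit 443233, false, false⟩,
 nat_lit 0, nat_lit 0, nat_lit 0, nat_lit 2957, nat_lit 4711, nat_lit 0, nat_lit 0, nat_lit 0, nat_lit 0, nat_lit 0, nat_lit 0, nat_lit 0, nat_lit 0, nat_lit 0, nat_lit 54, nat_lit 400000, nat_lit 0, nat_lit 0, [(nat_lit 3, [(nat_lit 5, nat_lit 1000)])],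
 ⟨p004_k32, nat_lit 0, nat_lit 0, nat_lit 0, nat_lit 0, nat_lit 0, [nat_lit 2385360001, nat_lit 965600001, nat_lit 151199999], [], [nat_lit 14809483943, nat_lit 14872543383, nat_lit 14571087605, nat_lit 14624578763], nat_lit 0, nat_lit 0, nat_lit 0, nat_lit 0, nat_lit 0, nat_lit 0, [], [nat_lit 96, nat_lit 40, nat_lit 20, nat_lit 40]⟩, C1.Rw.none,
 ⟨nat_lit 6461, nat_lit 6481, ⟨.ofNat (nat_lit 128777), .ofNat (nat_lit 137157), .ofNat (nat_lit 129846), .ofNat (nat_lit 138226), .ofNat (nat_lit 129700), .ofNat (nat_lit 138061), .ofNat (nat_lit 130770), .ofNat (nat_lit 139130)⟩, ⟨.ofNat (nat_lit 0), .ofNat (nat_lit 0), .ofNat (nat_lit 0), .ofNat (nat_lit 0), .ofNat (nat_lit 0), .ofNat (nat_lit 0), .ofNat (nat_lit 0), .ofNat (nat_lit 0)⟩⟩, [⟨nat_lit 0, nat_lit 100, nat_lit 100, nat_lit 31, nat_lit 405763291⟩]⟩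
noncomputable def p004_l194 : Lf2 := ⟨nat_lit 2, nat_lit 5, [nat_lit 4, nat_lit 5, nat_lit 5, nat_lit 20], true, nat_lit 0, nat_lit 0, nat_lit 0, nat_lit 0, zbN0,
 nat_lit 0, nat_lit 0, nat_lit 0, nat_lit 0, nat_lit 0, nat_lit 0, nat_lit 0, nat_lit 0, nat_lit 0, nat_lit 0, nat_lit 0, nat_lit 0, nat_lit 0, nat_lit 0, nat_lit 0, nat_lit 0, nat_lit 0, nat_lit 0, [],
 ⟨p004_k31, nat_lit 0, nat_lit 0, nat_lit 283, nat_lit 0, nat_lit 0, [], [], [], nat_lit 0, nat_lit 0, nat_lit 0, nat_lit 0, nat_lit 0, nat_lit 0, [], [nat_lit 25, nat_lit 40, nat_lit 20, nat_lit 80, nat_lit 17, nat_lit 289, nat_lit 75, nat_lit 9]⟩, C1.Rw.none,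
 zbF0, []⟩
noncomputable def p004_l195 : Lf2 := ⟨nat_lit 3, nat_lit 5, [nat_lit 4, nat_lit 5, nat_lit 5, nat_lit 20], false, nat_lit 0, nat_lit 0, nat_lit 0, nat_lit 0, zbN0,
 nat_lit 0, nat_lit 0, nat_lit 0, nat_lit 0, nat_lit 0, nat_lit 0, nat_lit 0, nat_lit 0, nat_lit 0, nat_lit 0, nat_lit 0, nat_lit 0, nat_lit 0, nat_lit 0, nat_lit 0, nat_lit 0, nat_lit 0, nat_lit 0, [],
 C1.Rw.none, ⟨p004_k28, nat_lit 0, nat_lit 0, nat_lit 285, nat_lit 0, nat_lit 9652, [], [], [], nat_lit 1271250, nat_lit 1271250, nat_lit 43600, nat_lit 65850, nat_lit 0, nat_lit 0, [nat_lit 1412500, nat_lit 1271250], [nat_lit 51, nat_lit 40, nat_lit 20, nat_lit 80, nat_lit 1, nat_lit 289, nat_lit 75, nat_lit 9]⟩,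
 zbF0, []⟩
noncomputable def p004_l196 : Lf2 := ⟨nat_lit 0, nat_lit 5, [nat_lit 4, nat_lit 5, nat_lit 5, nat_lit 20], true, nat_lit 0, nat_lit 0, nat_lit 0, nat_lit 0, ⟨nat_lit 0, nat_lit 0, nat_lit 1000, nat_lit 5, nat_lit 54, nat_lit 0, nat_lit 0, nat_lit 0, nat_lit 0, nat_lit 215, nat_lit 26667, nat_lit 255, nat_lit 65804410, nat_lit 0, nat_lit 0, nat_lit 447571, false, false⟩,
 nat_lit 0, nat_lit 0, nat_lit 0, nat_lit 0, nat_lit 4745, nat_lit 0, nat_lit 206, nat_lit 0, nat_lit 0, nat_lit 0, nat_lit 0, nat_lit 0, nat_lit 0, nat_lit 0, nat_lit 115, nat_lit 1000000, nat_lit 0, nat_lit 0, [(nat_lit 3, [(nat_lit 6, nat_lit 1000)])],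
 ⟨p004_k33, nat_lit 0, nat_lit 0, nat_lit 283, nat_lit 0, nat_lit 0, [nat_lit 3341142858, nat_lit 1499600000, nat_lit 23600000], [], [nat_lit 14061909321, nat_lit 14181394341, nat_lit 13822176043, nat_lit 13943001152], nat_lit 0, nat_lit 0, nat_lit 0, nat_lit 0, nat_lit 0, nat_lit 0, [], [nat_lit 25, nat_lit 40, nat_lit 20, nat_lit 80, nat_lit 17, nat_lit 289, nat_lit 75, nat_lit 9]⟩, C1.Rw.none,
 ⟨nat_lit 6422, nat_lit 6462, ⟨.ofNat (nat_lit 128631), .ofNat (nat_lit 136992), .ofNat (nat_lit 130770), .ofNat (nat_lit 139130), .ofNat (nat_lit 130473), .ofNat (nat_lit 138795), .ofNat (nat_lit 132611), .ofNat (nat_lit 140933)⟩, ⟨.ofNat (nat_lit 0), .ofNat (nat_lit 0), .ofNat (nat_lit 0), .ofNat (nat_lit 0), .ofNat (nat_lit 0), .ofNat (nat_lit 0), .ofNat (nat_lit 0), .ofNat (nat_lit 0)⟩⟩, [⟨nat_lit 0, nat_lit 100, nat_lit 100, nat_lit 31, nat_lit 408429915⟩]⟩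
noncomputable def p004_l197 : Lf2 := ⟨nat_lit 0, nat_lit 5, [nat_lit 4, nat_lit 5, nat_lit 5, nat_lit 20], true, nat_lit 0, nat_lit 0, nat_lit 0, nat_lit 0, ⟨nat_lit 0, nat_lit 0, nat_lit 1000, nat_lit 5, nat_lit 54, nat_lit 0, nat_lit 0, nat_lit 0, nat_lit 0, nat_lit 215, nat_lit 26667, nat_lit 255, nat_lit 65804410, nat_lit 0, nat_lit 0, nat_lit 447571, false, false⟩,
 nat_lit 0, nat_lit 0, nat_lit 0, nat_lit 7559, nat_lit 4745, nat_lit 0, nat_lit 206, nat_lit 0, nat_lit 0, nat_lit 0, nat_lit 0, nat_lit 0, nat_lit 0, nat_lit 0, nat_lit 115, nat_lit 1000000, nat_lit 0, nat_lit 0, [(nat_lit 3, [(nat_lit 6, nat_lit 1000)])],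
 ⟨p004_k33, nat_lit 0, nat_lit 0, nat_lit 283, nat_lit 0, nat_lit 0, [nat_lit 3341142858, nat_lit 1499600000, nat_lit 23600000], [], [nat_lit 14061909321, nat_lit 14181394341, nat_lit 13822176043, nat_lit 13943001152], nat_lit 0, nat_lit 0, nat_lit 0, nat_lit 0, nat_lit 0, nat_lit 0, [], [nat_lit 25, nat_lit 40, nat_lit 20, nat_lit 80, nat_lit 17, nat_lit 289, nat_lit 75, nat_lit 9]⟩, C1.Rw.none,
 ⟨nat_lit 6422, nat_lit 6462, ⟨.ofNat (nat_lit 128631), .ofNat (nat_lit 136992), .ofNat (nat_lit 130770), .ofNat (nat_lit 139130), .ofNat (nat_lit 130473), .ofNat (nat_lit 138795), .ofNat (nat_lit 132611), .ofNat (nat_lit 140933)⟩, ⟨.ofNat (nat_lit 0), .ofNat (nat_lit 0), .ofNat (nat_lit 0), .ofNat (nat_lit 0), .ofNat (nat_lit 0), .ofNat (nat_lit 0), .ofNat (nat_lit 0), .ofNat (nat_lit 0)⟩⟩, [⟨nat_lit 0, nat_lit 100, nat_lit 100, nat_lit 31, nat_lit 408429915⟩]⟩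
noncomputable def p004_l198 : Lf2 := ⟨nat_lit 0, nat_lit 5, [nat_lit 4, nat_lit 5, nat_lit 5, nat_lit 20], true, nat_lit 0, nat_lit 0, nat_lit 0, nat_lit 0, ⟨nat_lit 0, nat_lit 0, nat_lit 1000, nat_lit 5, nat_lit 53, nat_lit 0, nat_lit 0, nat_lit 0, nat_lit 0, nat_lit 215, nat_lit 26667, nat_lit 255, nat_lit 65823539, nat_lit 0, nat_lit 0, nat_lit 441837, false, false⟩,
 nat_lit 0, nat_lit 0, nat_lit 0, nat_lit 7006, nat_lit 4726, nat_lit 0, nat_lit 189, nat_lit 0, nat_lit 0, nat_lit 0, nat_lit 0, nat_lit 0, nat_lit 0, nat_lit 0, nat_lit 115, nat_lit 1000000, nat_lit 0, nat_lit 0, [(nat_lit 3, [(nat_lit 6, nat_lit 1000)])],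
 ⟨p004_k34, nat_lit 0, nat_lit 0, nat_lit 285, nat_lit 0, nat_lit 0, [nat_lit 3341142858, nat_lit 1499600000, nat_lit 23600000], [], [nat_lit 14198609810, nat_lit 14497212126, nat_lit 13958851357, nat_lit 14259871035], nat_lit 0, nat_lit 0, nat_lit 0, nat_lit 0, nat_lit 0, nat_lit 0, [], [nat_lit 25, nat_lit 40, nat_lit 20, nat_lit 80, nat_lit 17, nat_lit 289, nat_lit 75, nat_lit 9]⟩, C1.Rw.none,
 ⟨nat_lit 6324, nat_lit 6423, ⟨.ofNat (nat_lit 121920), .ofNat (nat_lit 130242), .ofNat (nat_lit 132611), .ofNat (nat_lit 140933), .ofNat (nat_lit 126498), .ofNat (nat_lit 134724), .ofNat (nat_lit 137182), .ofNat (nat_lit 145408)⟩, ⟨.ofNat (nat_lit 0), .ofNat (nat_lit 0), .ofNat (nat_lit 0), .ofNat (nat_lit 0), .ofNat (nat_lit 0), .ofNat (nat_lit 0), .ofNat (nat_lit 0), .ofNat (nat_lit 0)⟩⟩, [⟨nat_lit 0, nat_lit 100, nat_lit 99, nat_lit 31, nat_lit 409640304⟩]⟩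
noncomputable def p004_l199 : Lf2 := ⟨nat_lit 0, nat_lit 5, [nat_lit 4, nat_lit 5, nat_lit 5, nat_lit 20], true, nat_lit 0, nat_lit 0, nat_lit 0, nat_lit 0, ⟨nat_lit 0, nat_lit 0, nat_lit 1000, nat_lit 5, nat_lit 56, nat_lit 0, nat_lit 0, nat_lit 0, nat_lit 0, nat_lit 215, nat_lit 29400, nat_lit 257, nat_lit 65716988, nat_lit 0, nat_lit 0, nat_lit 473492, false, false⟩,
 nat_lit 0, nat_lit 0, nat_lit 0, nat_lit 5980, nat_lit 4834, nat_lit 0, nat_lit 0, nat_lit 0, nat_lit 0, nat_lit 0, nat_lit 0, nat_lit 0, nat_lit 0, nat_lit 0, nat_lit 115, nat_lit 1000000, nat_lit 0, nat_lit 0, [(nat_lit 3, [(nat_lit 6, nat_lit 1000)])],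
 ⟨p004_k18, nat_lit 0, nat_lit 0, nat_lit 236, nat_lit 0, nat_lit 0, [nat_lit 3341142858, nat_lit 1499600000, nat_lit 23600000], [], [nat_lit 14247355226, nat_lit 14840923282, nat_lit 14001044237, nat_lit 14523031157], nat_lit 0, nat_lit 0, nat_lit 0, nat_lit 0, nat_lit 0, nat_lit 0, [], [nat_lit 25, nat_lit 40, nat_lit 20, nat_lit 80, nat_lit 17, nat_lit 289, nat_lit 75, nat_lit 9]⟩, C1.Rw.none,
 ⟨nat_lit 6324, nat_lit 6520, ⟨.ofNat (nat_lit 125713), .ofNat (nat_lit 134132), .ofNat (nat_lit 136412), .ofNat (nat_lit 144831), .ofNat (nat_lit 134724), .ofNat (nat_lit 142951), .ofNat (nat_lit 145408), .ofNat (nat_lit 153635)⟩, ⟨.ofNat (nat_lit 0), .ofNat (nat_lit 0), .ofNat (nat_lit 0), .ofNat (nat_lit 0), .ofNat (nat_lit 0), .ofNat (nat_lit 0), .ofNat (nat_lit 0), .ofNat (nat_lit 0)⟩⟩, []⟩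
noncomputable def p004_l200 : Lf2 := ⟨nat_lit 0, nat_lit 5, [nat_lit 4, nat_lit 5, nat_lit 5, nat_lit 20], true, nat_lit 0, nat_lit 0, nat_lit 0, nat_lit 0, ⟨nat_lit 0, nat_lit 0, nat_lit 1000, nat_lit 5, nat_lit 59, nat_lit 0, nat_lit 0, nat_lit 0, nat_lit 0, nat_lit 215, nat_lit 32267, nat_lit 259, nat_lit 65562967, nat_lit 0, nat_lit 0, nat_lit 518069, false, false⟩,
 nat_lit 0, nat_lit 0, nat_lit 0, nat_lit 5980, nat_lit 4893, nat_lit 0, nat_lit 0, nat_lit 0, nat_lit 0, nat_lit 0, nat_lit 0, nat_lit 0, nat_lit 0, nat_lit 0, nat_lit 115, nat_lit 1000000, nat_lit 0, nat_lit 0, [(nat_lit 3, [(nat_lit 6, nat_lit 1000)])],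
 ⟨p004_k18, nat_lit 0, nat_lit 0, nat_lit 229, nat_lit 0, nat_lit 0, [nat_lit 3341142858, nat_lit 1499600000, nat_lit 23600000], [], [nat_lit 13975988011, nat_lit 14566793534, nat_lit 13726108513, nat_lit 14244524364], nat_lit 0, nat_lit 0, nat_lit 0, nat_lit 0, nat_lit 0, nat_lit 0, [], [nat_lit 25, nat_lit 40, nat_lit 20, nat_lit 80, nat_lit 17, nat_lit 289, nat_lit 75, nat_lit 9]⟩, C1.Rw.none,
 ⟨nat_lit 6324, nat_lit 6520, ⟨.ofNat (nat_lit 134132), .ofNat (nat_lit 142551), .ofNat (nat_lit 144831), .ofNat (nat_lit 153250), .ofNat (nat_lit 142951), .ofNat (nat_lit 151177), .ofNat (nat_lit 153635), .ofNat (nat_lit 161861)⟩, ⟨.ofNat (nat_lit 0), .ofNat (nat_lit 0), .ofNat (nat_lit 0), .ofNat (nat_lit 0), .ofNat (nat_lit 0), .ofNat (nat_lit 0), .ofNat (nat_lit 0), .ofNat (nat_lit 0)⟩⟩, []⟩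
noncomputable def p004_l201 : Lf2 := ⟨nat_lit 1, nat_lit 5, [nat_lit 4, nat_lit 5, nat_lit 5, nat_lit 20], false, nat_lit 0, nat_lit 0, nat_lit 0, nat_lit 0, zbN0,
 nat_lit 0, nat_lit 0, nat_lit 0, nat_lit 0, nat_lit 0, nat_lit 0, nat_lit 0, nat_lit 0, nat_lit 0, nat_lit 0, nat_lit 0, nat_lit 0, nat_lit 0, nat_lit 0, nat_lit 0, nat_lit 0, nat_lit 0, nat_lit 0, [],
 C1.Rw.none, C1.Rw.none,
 zbF0, []⟩
noncomputable def b_NL_550_550_0_5 : St := ⟨false, nat_lit 0, nat_lit 1, nat_lit 1, nat_lit 20, nat_lit 230, nat_lit 240, nat_lit 220, nat_lit 230, nat_lit 4, nat_lit 20, nat_lit 0, nat_lit 0, nat_lit 0, nat_lit 0, nat_lit 0, nat_lit 0, nat_lit 20, nat_lit 40, nat_lit 0, nat_lit 0, nat_lit 0, nat_lit 0⟩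
theorem d_NL_550_550_0_5 (h : EB TB.env) : Dead b_NL_550_550_0_5 := chkB_sound0 h (T :=
(.spl (nat_lit 6) (nat_lit 32)
(.spl (nat_lit 6) (nat_lit 24)
(.leaf p004_l175)
(.spl (nat_lit 2) (nat_lit 16)
(.spl (nat_lit 2) (nat_lit 8)
(.leaf p004_l176)
(.spl (nat_lit 2) (nat_lit 12)
(.spl (nat_lit 0) (nat_lit 235)
(.spl (nat_lit 1) (nat_lit 225)
(.leaf p004_l177)
(.spl (nat_lit 1) (nat_lit 228)
(.leaf p004_l178)
(.spl (nat_lit 0) (nat_lit 233)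
(.spl (nat_lit 6) (nat_lit 28)
(.spl (nat_lit 0) (nat_lit 232)
(.spl (nat_lit 1) (nat_lit 229)
(.leaf p004_l179)
(.spl (nat_lit 0) (nat_lit 231)
(.spl (nat_lit 8) (nat_lit 800)
(.spl (nat_lit 7) (nat_lit 600)
(.leaf p004_l180)
(.leaf p004_l181))
(.leaf p004_l182))
(.spl (nat_lit 8) (nat_lit 800)
(.spl (nat_lit 7) (nat_lit 600)
(.leaf p004_l183)
(.leaf p004_l184))
(.leaf p004_l185))))
(.leaf p004_l186))
(.spl (nat_lit 0) (nat_lit 232)
(.spl (nat_lit 0) (nat_lit 231)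
(.leaf p004_l187)
(.spl (nat_lit 1) (nat_lit 229)
(.leaf p004_l188)
(.spl (nat_lit 8) (nat_lit 800)
(.spl (nat_lit 7) (nat_lit 600)
(.leaf p004_l189)
(.leaf p004_l190))
(.leaf p004_l191))))
(.spl (nat_lit 1) (nat_lit 229)
(.leaf p004_l192)
(.spl (nat_lit 8) (nat_lit 800)
(.spl (nat_lit 7) (nat_lit 600)
(.leaf p004_l193)
(.leaf p004_l194))
(.leaf p004_l195)))))
(.spl (nat_lit 6) (nat_lit 28)
(.leaf p004_l196)
(.leaf p004_l197)))))
(.leaf p004_l198))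
(.leaf p004_l199)))
(.leaf p004_l200)))
(.leaf p004_l201))) (by decide +kernel)
noncomputable def p004_l202 : Lf2 := ⟨nat_lit 0, nat_lit 5, [nat_lit 4, nat_lit 5, nat_lit 5, nat_lit 20], true, nat_lit 0, nat_lit 0, nat_lit 0, nat_lit 0, ⟨nat_lit 0, nat_lit 0, nat_lit 1000, nat_lit 5, nat_lit 59, nat_lit 0, nat_lit 0, nat_lit 0, nat_lit 0, nat_lit 215, nat_lit 32267, nat_lit 259, nat_lit 65596825, nat_lit 0, nat_lit 0, nat_lit 508383, false, false⟩,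
 nat_lit 0, nat_lit 0, nat_lit 0, nat_lit 0, nat_lit 4775, nat_lit 0, nat_lit 233, nat_lit 0, nat_lit 0, nat_lit 0, nat_lit 0, nat_lit 0, nat_lit 0, nat_lit 6848231658698, nat_lit 115, nat_lit 1000000, nat_lit 0, nat_lit 0, [(nat_lit 3, [(nat_lit 6, nat_lit 1000)])],
 ⟨p004_k18, nat_lit 0, nat_lit 0, nat_lit 285, nat_lit 0, nat_lit 0, [nat_lit 3341142858, nat_lit 1499600000, nat_lit 23600000], [], [nat_lit 13855956732, nat_lit 14461993356, nat_lit 13375731072, nat_lit 13981375196], nat_lit 0, nat_lit 0, nat_lit 0, nat_lit 0, nat_lit 0, nat_lit 0, [], [nat_lit 25, nat_lit 40, nat_lit 20, nat_lit 80, nat_lit 17, nat_lit 289, nat_lit 75, nat_lit 9]⟩, C1.Rw.none,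
 ⟨nat_lit 6324, nat_lit 6520, ⟨.ofNat (nat_lit 127994), .ofNat (nat_lit 144831), .ofNat (nat_lit 138693), .ofNat (nat_lit 155530), .ofNat (nat_lit 137182), .ofNat (nat_lit 153635), .ofNat (nat_lit 147866), .ofNat (nat_lit 164319)⟩, ⟨.ofNat (nat_lit 0), .ofNat (nat_lit 0), .ofNat (nat_lit 0), .ofNat (nat_lit 0), .ofNat (nat_lit 0), .ofNat (nat_lit 0), .ofNat (nat_lit 0), .ofNat (nat_lit 0)⟩⟩, [⟨nat_lit 0, nat_lit 100, nat_lit 100, nat_lit 30, nat_lit 411904960⟩]⟩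
noncomputable def p004_l203 : Lf2 := ⟨nat_lit 0, nat_lit 5, [nat_lit 4, nat_lit 5, nat_lit 5, nat_lit 20], true, nat_lit 0, nat_lit 0, nat_lit 0, nat_lit 0, ⟨nat_lit 0, nat_lit 0, nat_lit 1000, nat_lit 5, nat_lit 53, nat_lit 0, nat_lit 0, nat_lit 0, nat_lit 0, nat_lit 215, nat_lit 26667, nat_lit 255, nat_lit 65832051, nat_lit 0, nat_lit 0, nat_lit 439277, false, false⟩,
 nat_lit 0, nat_lit 0, nat_lit 0, nat_lit 2542, nat_lit 4724, nat_lit 0, nat_lit 0, nat_lit 0, nat_lit 0, nat_lit 0, nat_lit 0, nat_lit 0, nat_lit 0, nat_lit 10906366454684, nat_lit 54, nat_lit 400000, nat_lit 0, nat_lit 0, [(nat_lit 3, [(nat_lit 5, nat_lit 1000)])],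
 ⟨p004_k10, nat_lit 0, nat_lit 0, nat_lit 0, nat_lit 0, nat_lit 0, [nat_lit 2385360001, nat_lit 965600001, nat_lit 151199999], [], [nat_lit 14696107269, nat_lit 14753972852, nat_lit 14456933344, nat_lit 14510484480], nat_lit 0, nat_lit 0, nat_lit 0, nat_lit 0, nat_lit 0, nat_lit 0, [], [nat_lit 96, nat_lit 40, nat_lit 20, nat_lit 40]⟩, C1.Rw.none,
 ⟨nat_lit 6500, nat_lit 6520, ⟨.ofNat (nat_lit 127994), .ofNat (nat_lit 136412), .ofNat (nat_lit 129063), .ofNat (nat_lit 137482), .ofNat (nat_lit 128921), .ofNat (nat_lit 137320), .ofNat (nat_lit 129991), .ofNat (nat_lit 138390)⟩, ⟨.ofNat (nat_lit 0), .ofNat (nat_lit 0), .ofNat (nat_lit 0), .ofNat (nat_lit 0), .ofNat (nat_lit 0), .ofNat (nat_lit 0), .ofNat (nat_lit 0), .ofNat (nat_lit 0)⟩⟩, [⟨nat_lit 0, nat_lit 100, nat_lit 100, nat_lit 30, nat_lit 407380999⟩]⟩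
noncomputable def p004_l204 : Lf2 := ⟨nat_lit 2, nat_lit 5, [nat_lit 4, nat_lit 5, nat_lit 5, nat_lit 20], true, nat_lit 0, nat_lit 0, nat_lit 0, nat_lit 0, zbN0,
 nat_lit 0, nat_lit 0, nat_lit 0, nat_lit 0, nat_lit 0, nat_lit 0, nat_lit 0, nat_lit 0, nat_lit 0, nat_lit 0, nat_lit 0, nat_lit 0, nat_lit 0, nat_lit 0, nat_lit 0, nat_lit 0, nat_lit 0, nat_lit 0, [],
 ⟨p004_k18, nat_lit 0, nat_lit 0, nat_lit 283, nat_lit 0, nat_lit 0, [], [], [], nat_lit 0, nat_lit 0, nat_lit 0, nat_lit 0, nat_lit 0, nat_lit 0, [], [nat_lit 25, nat_lit 40, nat_lit 20, nat_lit 80, nat_lit 17, nat_lit 289, nat_lit 75, nat_lit 9]⟩, C1.Rw.none,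
 zbF0, []⟩
noncomputable def p004_l205 : Lf2 := ⟨nat_lit 3, nat_lit 5, [nat_lit 4, nat_lit 5, nat_lit 5, nat_lit 20], false, nat_lit 0, nat_lit 0, nat_lit 0, nat_lit 0, zbN0,
 nat_lit 0, nat_lit 0, nat_lit 0, nat_lit 0, nat_lit 0, nat_lit 0, nat_lit 0, nat_lit 0, nat_lit 0, nat_lit 0, nat_lit 0, nat_lit 0, nat_lit 0, nat_lit 0, nat_lit 0, nat_lit 0, nat_lit 0, nat_lit 0, [],
 C1.Rw.none, ⟨p004_k35, nat_lit 0, nat_lit 0, nat_lit 299, nat_lit 0, nat_lit 47029, [], [], [], nat_lit 1271250, nat_lit 1271250, nat_lit 43600, nat_lit 65850, nat_lit 0, nat_lit 0, [nat_lit 1412500, nat_lit 1271250], [nat_lit 51, nat_lit 40, nat_lit 20, nat_lit 80, nat_lit 1, nat_lit 289, nat_lit 75, nat_lit 9]⟩,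
 zbF0, []⟩
noncomputable def p004_l206 : Lf2 := ⟨nat_lit 0, nat_lit 5, [nat_lit 4, nat_lit 5, nat_lit 5, nat_lit 20], true, nat_lit 0, nat_lit 0, nat_lit 0, nat_lit 0, ⟨nat_lit 0, nat_lit 0, nat_lit 1000, nat_lit 5, nat_lit 54, nat_lit 0, nat_lit 0, nat_lit 0, nat_lit 0, nat_lit 215, nat_lit 26667, nat_lit 255, nat_lit 65816206, nat_lit 0, nat_lit 0, nat_lit 444038, false, false⟩,
 nat_lit 0, nat_lit 0, nat_lit 0, nat_lit 0, nat_lit 4720, nat_lit 0, nat_lit 0, nat_lit 0, nat_lit 0, nat_lit 0, nat_lit 0, nat_lit 0, nat_lit 0, nat_lit 0, nat_lit 54, nat_lit 400000, nat_lit 0, nat_lit 0, [(nat_lit 3, [(nat_lit 5, nat_lit 1000)])],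
 ⟨p004_k29, nat_lit 0, nat_lit 0, nat_lit 0, nat_lit 0, nat_lit 0, [nat_lit 2385360001, nat_lit 965600001, nat_lit 151199999], [], [nat_lit 14751609575, nat_lit 14814921580, nat_lit 14512672778, nat_lit 14566205460], nat_lit 0, nat_lit 0, nat_lit 0, nat_lit 0, nat_lit 0, nat_lit 0, [], [nat_lit 96, nat_lit 40, nat_lit 20, nat_lit 40]⟩, C1.Rw.none,
 ⟨nat_lit 6480, nat_lit 6500, ⟨.ofNat (nat_lit 128921), .ofNat (nat_lit 137320), .ofNat (nat_lit 129991), .ofNat (nat_lit 138390), .ofNat (nat_lit 129846), .ofNat (nat_lit 138226), .ofNat (nat_lit 130916), .ofNat (nat_lit 139296)⟩, ⟨.ofNat (nat_lit 0), .ofNat (nat_lit 0), .ofNat (nat_lit 0), .ofNat (nat_lit 0), .ofNat (nat_lit 0), .ofNat (nat_lit 0), .ofNat (nat_lit 0), .ofNat (nat_lit 0)⟩⟩, [⟨nat_lit 0, nat_lit 100, nat_lit 100, nat_lit 31, nat_lit 406922089⟩]⟩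
noncomputable def p004_l207 : Lf2 := ⟨nat_lit 2, nat_lit 5, [nat_lit 4, nat_lit 5, nat_lit 5, nat_lit 20], true, nat_lit 0, nat_lit 0, nat_lit 0, nat_lit 0, zbN0,
 nat_lit 0, nat_lit 0, nat_lit 0, nat_lit 0, nat_lit 0, nat_lit 0, nat_lit 0, nat_lit 0, nat_lit 0, nat_lit 0, nat_lit 0, nat_lit 0, nat_lit 0, nat_lit 0, nat_lit 0, nat_lit 0, nat_lit 0, nat_lit 0, [],
 ⟨p004_k30, nat_lit 0, nat_lit 0, nat_lit 283, nat_lit 0, nat_lit 0, [], [], [], nat_lit 0, nat_lit 0, nat_lit 0, nat_lit 0, nat_lit 0, nat_lit 0, [], [nat_lit 25, nat_lit 40, nat_lit 20, nat_lit 80, nat_lit 17, nat_lit 289, nat_lit 75, nat_lit 9]⟩, C1.Rw.none,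
 zbF0, []⟩
noncomputable def p004_l208 : Lf2 := ⟨nat_lit 3, nat_lit 5, [nat_lit 4, nat_lit 5, nat_lit 5, nat_lit 20], false, nat_lit 0, nat_lit 0, nat_lit 0, nat_lit 0, zbN0,
 nat_lit 0, nat_lit 0, nat_lit 0, nat_lit 0, nat_lit 0, nat_lit 0, nat_lit 0, nat_lit 0, nat_lit 0, nat_lit 0, nat_lit 0, nat_lit 0, nat_lit 0, nat_lit 0, nat_lit 0, nat_lit 0, nat_lit 0, nat_lit 0, [],
 C1.Rw.none, ⟨p004_k35, nat_lit 0, nat_lit 0, nat_lit 301, nat_lit 0, nat_lit 51471, [], [], [], nat_lit 1271250, nat_lit 1271250, nat_lit 43600, nat_lit 65850, nat_lit 0, nat_lit 0, [nat_lit 1412500, nat_lit 1271250], [nat_lit 51, nat_lit 40, nat_lit 20, nat_lit 80, nat_lit 1, nat_lit 289, nat_lit 75, nat_lit 9]⟩,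
 zbF0, []⟩
noncomputable def p004_l209 : Lf2 := ⟨nat_lit 0, nat_lit 5, [nat_lit 4, nat_lit 5, nat_lit 5, nat_lit 20], true, nat_lit 0, nat_lit 0, nat_lit 0, nat_lit 0, ⟨nat_lit 0, nat_lit 0, nat_lit 1000, nat_lit 5, nat_lit 54, nat_lit 0, nat_lit 0, nat_lit 0, nat_lit 0, nat_lit 215, nat_lit 28017, nat_lit 256, nat_lit 65797588, nat_lit 0, nat_lit 0, nat_lit 449612, false, false⟩,
 nat_lit 0, nat_lit 0, nat_lit 0, nat_lit 0, nat_lit 4720, nat_lit 0, nat_lit 0, nat_lit 0, nat_lit 0, nat_lit 0, nat_lit 0, nat_lit 0, nat_lit 0, nat_lit 6702453872102, nat_lit 54, nat_lit 400000, nat_lit 0, nat_lit 0, [(nat_lit 3, [(nat_lit 5, nat_lit 1000)])],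
 ⟨p004_k29, nat_lit 0, nat_lit 0, nat_lit 0, nat_lit 0, nat_lit 0, [nat_lit 2385360001, nat_lit 965600001, nat_lit 151199999], [], [nat_lit 14751609575, nat_lit 14814921580, nat_lit 14512672778, nat_lit 14566205460], nat_lit 0, nat_lit 0, nat_lit 0, nat_lit 0, nat_lit 0, nat_lit 0, [], [nat_lit 96, nat_lit 40, nat_lit 20, nat_lit 40]⟩, C1.Rw.none,
 ⟨nat_lit 6480, nat_lit 6500, ⟨.ofNat (nat_lit 129991), .ofNat (nat_lit 138390), .ofNat (nat_lit 131060), .ofNat (nat_lit 139460), .ofNat (nat_lit 130916), .ofNat (nat_lit 139296), .ofNat (nat_lit 131985), .ofNat (nat_lit 140365)⟩, ⟨.ofNat (nat_lit 0), .ofNat (nat_lit 0), .ofNat (nat_lit 0), .ofNat (nat_lit 0), .ofNat (nat_lit 0), .ofNat (nat_lit 0), .ofNat (nat_lit 0), .ofNat (nat_lit 0)⟩⟩, [⟨nat_lit 0, nat_lit 100, nat_lit 100, nat_lit 31, nat_lit 407342039⟩]⟩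
noncomputable def p004_l210 : Lf2 := ⟨nat_lit 2, nat_lit 5, [nat_lit 4, nat_lit 5, nat_lit 5, nat_lit 20], true, nat_lit 0, nat_lit 0, nat_lit 0, nat_lit 0, zbN0,
 nat_lit 0, nat_lit 0, nat_lit 0, nat_lit 0, nat_lit 0, nat_lit 0, nat_lit 0, nat_lit 0, nat_lit 0, nat_lit 0, nat_lit 0, nat_lit 0, nat_lit 0, nat_lit 0, nat_lit 0, nat_lit 0, nat_lit 0, nat_lit 0, [],
 ⟨p004_k30, nat_lit 0, nat_lit 0, nat_lit 283, nat_lit 0, nat_lit 0, [], [], [], nat_lit 0, nat_lit 0, nat_lit 0, nat_lit 0, nat_lit 0, nat_lit 0, [], [nat_lit 25, nat_lit 40, nat_lit 20, nat_lit 80, nat_lit 17, nat_lit 289, nat_lit 75, nat_lit 9]⟩, C1.Rw.none,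
 zbF0, []⟩
noncomputable def p004_l211 : Lf2 := ⟨nat_lit 3, nat_lit 5, [nat_lit 4, nat_lit 5, nat_lit 5, nat_lit 20], false, nat_lit 0, nat_lit 0, nat_lit 0, nat_lit 0, zbN0,
 nat_lit 0, nat_lit 0, nat_lit 0, nat_lit 0, nat_lit 0, nat_lit 0, nat_lit 0, nat_lit 0, nat_lit 0, nat_lit 0, nat_lit 0, nat_lit 0, nat_lit 0, nat_lit 0, nat_lit 0, nat_lit 0, nat_lit 0, nat_lit 0, [],
 C1.Rw.none, ⟨p004_k36, nat_lit 0, nat_lit 0, nat_lit 302, nat_lit 0, nat_lit 55579, [], [], [], nat_lit 1271250, nat_lit 1271250, nat_lit 43600, nat_lit 65850, nat_lit 0, nat_lit 0, [nat_lit 1412500, nat_lit 1271250], [nat_lit 51, nat_lit 40, nat_lit 20, nat_lit 80, nat_lit 1, nat_lit 289, nat_lit 75, nat_lit 9]⟩,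
 zbF0, []⟩
noncomputable def p004_l212 : Lf2 := ⟨nat_lit 0, nat_lit 5, [nat_lit 4, nat_lit 5, nat_lit 5, nat_lit 20], true, nat_lit 0, nat_lit 0, nat_lit 0, nat_lit 0, ⟨nat_lit 0, nat_lit 0, nat_lit 1000, nat_lit 5, nat_lit 54, nat_lit 0, nat_lit 0, nat_lit 0, nat_lit 0, nat_lit 215, nat_lit 28017, nat_lit 256, nat_lit 65800294, nat_lit 0, nat_lit 0, nat_lit 448803, false, false⟩,
 nat_lit 0, nat_lit 0, nat_lit 0, nat_lit 0, nat_lit 4755, nat_lit 0, nat_lit 214, nat_lit 0, nat_lit 0, nat_lit 0, nat_lit 0, nat_lit 0, nat_lit 0, nat_lit 0, nat_lit 115, nat_lit 1000000, nat_lit 0, nat_lit 0, [(nat_lit 3, [(nat_lit 6, nat_lit 1000)])],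
 ⟨p004_k31, nat_lit 0, nat_lit 0, nat_lit 283, nat_lit 0, nat_lit 0, [nat_lit 3341142858, nat_lit 1499600000, nat_lit 23600000], [], [nat_lit 13994073671, nat_lit 14052942393, nat_lit 13753512984, nat_lit 13813982700], nat_lit 0, nat_lit 0, nat_lit 0, nat_lit 0, nat_lit 0, nat_lit 0, [], [nat_lit 25, nat_lit 40, nat_lit 20, nat_lit 80, nat_lit 17, nat_lit 289, nat_lit 75, nat_lit 9]⟩, C1.Rw.none,
 ⟨nat_lit 6461, nat_lit 6481, ⟨.ofNat (nat_lit 129846), .ofNat (nat_lit 138226), .ofNat (nat_lit 130916), .ofNat (nat_lit 139296), .ofNat (nat_lit 130770), .ofNat (nat_lit 139130), .ofNat (nat_lit 131839), .ofNat (nat_lit 140200)⟩, ⟨.ofNat (nat_lit 0), .ofNat (nat_lit 0), .ofNat (nat_lit 0), .ofNat (nat_lit 0), .ofNat (nat_lit 0), .ofNat (nat_lit 0), .ofNat (nat_lit 0), .ofNat (nat_lit 0)⟩⟩, [⟨nat_lit 0, nat_lit 100, nat_lit 100, nat_lit 32, nat_lit 410118528⟩]⟩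
noncomputable def p004_l213 : Lf2 := ⟨nat_lit 0, nat_lit 5, [nat_lit 4, nat_lit 5, nat_lit 5, nat_lit 20], true, nat_lit 0, nat_lit 0, nat_lit 0, nat_lit 0, ⟨nat_lit 0, nat_lit 0, nat_lit 1000, nat_lit 5, nat_lit 54, nat_lit 0, nat_lit 0, nat_lit 0, nat_lit 0, nat_lit 215, nat_lit 28017, nat_lit 256, nat_lit 65781561, nat_lit 0, nat_lit 0, nat_lit 454392, false, false⟩,
 nat_lit 0, nat_lit 0, nat_lit 0, nat_lit 0, nat_lit 4774, nat_lit 0, nat_lit 0, nat_lit 0, nat_lit 0, nat_lit 0, nat_lit 0, nat_lit 0, nat_lit 0, nat_lit 0, nat_lit 54, nat_lit 400000, nat_lit 0, nat_lit 0, [(nat_lit 3, [(nat_lit 5, nat_lit 1000)])],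
 ⟨p004_k32, nat_lit 0, nat_lit 0, nat_lit 0, nat_lit 0, nat_lit 0, [nat_lit 2385360001, nat_lit 965600001, nat_lit 151199999], [], [nat_lit 14850010815, nat_lit 14913858446, nat_lit 14536912585, nat_lit 14600260573], nat_lit 0, nat_lit 0, nat_lit 0, nat_lit 0, nat_lit 0, nat_lit 0, [], [nat_lit 96, nat_lit 40, nat_lit 20, nat_lit 40]⟩, C1.Rw.none,
 ⟨nat_lit 6461, nat_lit 6481, ⟨.ofNat (nat_lit 130916), .ofNat (nat_lit 139296), .ofNat (nat_lit 131985), .ofNat (nat_lit 140365), .ofNat (nat_lit 131839), .ofNat (nat_lit 140200), .ofNat (nat_lit 132909), .ofNat (nat_lit 141269)⟩, ⟨.ofNat (nat_lit 0), .ofNat (nat_lit 0), .ofNat (nat_lit 0), .ofNat (nat_lit 0), .ofNat (nat_lit 0), .ofNat (nat_lit 0), .ofNat (nat_lit 0), .ofNat (nat_lit 0)⟩⟩, [⟨nat_lit 0, nat_lit 100, nat_lit 100, nat_lit 32, nat_lit 500273275⟩]⟩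
noncomputable def p004_l214 : Lf2 := ⟨nat_lit 2, nat_lit 5, [nat_lit 4, nat_lit 5, nat_lit 5, nat_lit 20], true, nat_lit 0, nat_lit 0, nat_lit 0, nat_lit 0, zbN0,
 nat_lit 0, nat_lit 0, nat_lit 0, nat_lit 0, nat_lit 0, nat_lit 0, nat_lit 0, nat_lit 0, nat_lit 0, nat_lit 0, nat_lit 0, nat_lit 0, nat_lit 0, nat_lit 0, nat_lit 0, nat_lit 0, nat_lit 0, nat_lit 0, [],
 ⟨p004_k31, nat_lit 0, nat_lit 0, nat_lit 283, nat_lit 0, nat_lit 0, [], [], [], nat_lit 0, nat_lit 0, nat_lit 0, nat_lit 0, nat_lit 0, nat_lit 0, [], [nat_lit 25, nat_lit 40, nat_lit 20, nat_lit 80, nat_lit 17, nat_lit 289, nat_lit 75, nat_lit 9]⟩, C1.Rw.none,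
 zbF0, []⟩
noncomputable def p004_l215 : Lf2 := ⟨nat_lit 3, nat_lit 5, [nat_lit 4, nat_lit 5, nat_lit 5, nat_lit 20], false, nat_lit 0, nat_lit 0, nat_lit 0, nat_lit 0, zbN0,
 nat_lit 0, nat_lit 0, nat_lit 0, nat_lit 0, nat_lit 0, nat_lit 0, nat_lit 0, nat_lit 0, nat_lit 0, nat_lit 0, nat_lit 0, nat_lit 0, nat_lit 0, nat_lit 0, nat_lit 0, nat_lit 0, nat_lit 0, nat_lit 0, [],
 C1.Rw.none, ⟨p004_k36, nat_lit 0, nat_lit 0, nat_lit 304, nat_lit 0, nat_lit 60025, [], [], [], nat_lit 1271250, nat_lit 1271250, nat_lit 43600, nat_lit 65850, nat_lit 0, nat_lit 0, [nat_lit 1412500, nat_lit 1271250], [nat_lit 51, nat_lit 40, nat_lit 20, nat_lit 80, nat_lit 1, nat_lit 289, nat_lit 75, nat_lit 9]⟩,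
 zbF0, []⟩
noncomputable def p004_l216 : Lf2 := ⟨nat_lit 0, nat_lit 5, [nat_lit 4, nat_lit 5, nat_lit 5, nat_lit 20], true, nat_lit 0, nat_lit 0, nat_lit 0, nat_lit 0, ⟨nat_lit 0, nat_lit 0, nat_lit 1000, nat_lit 5, nat_lit 55, nat_lit 0, nat_lit 0, nat_lit 0, nat_lit 0, nat_lit 215, nat_lit 28017, nat_lit 256, nat_lit 65762691, nat_lit 0, nat_lit 0, nat_lit 460000, false, false⟩,
 nat_lit 0, nat_lit 0, nat_lit 0, nat_lit 0, nat_lit 4774, nat_lit 0, nat_lit 0, nat_lit 0, nat_lit 0, nat_lit 0, nat_lit 0, nat_lit 0, nat_lit 0, nat_lit 5342732919125, nat_lit 54, nat_lit 400000, nat_lit 0, nat_lit 0, [(nat_lit 3, [(nat_lit 5, nat_lit 1000)])],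
 ⟨p004_k32, nat_lit 0, nat_lit 0, nat_lit 0, nat_lit 0, nat_lit 0, [nat_lit 2385360001, nat_lit 965600001, nat_lit 151199999], [], [nat_lit 14850010815, nat_lit 14913858446, nat_lit 14536912585, nat_lit 14600260573], nat_lit 0, nat_lit 0, nat_lit 0, nat_lit 0, nat_lit 0, nat_lit 0, [], [nat_lit 96, nat_lit 40, nat_lit 20, nat_lit 40]⟩, C1.Rw.none,
 ⟨nat_lit 6461, nat_lit 6481, ⟨.ofNat (nat_lit 131985), .ofNat (nat_lit 140365), .ofNat (nat_lit 133055), .ofNat (nat_lit 141435), .ofNat (nat_lit 132909), .ofNat (nat_lit 141269), .ofNat (nat_lit 133978), .ofNat (nat_lit 142339)⟩, ⟨.ofNat (nat_lit 0), .ofNat (nat_lit 0), .ofNat (nat_lit 0), .ofNat (nat_lit 0), .ofNat (nat_lit 0), .ofNat (nat_lit 0), .ofNat (nat_lit 0), .ofNat (nat_lit 0)⟩⟩, [⟨nat_lit 0, nat_lit 100, nat_lit 100, nat_lit 32, nat_lit 500681800⟩]⟩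
noncomputable def p004_l217 : Lf2 := ⟨nat_lit 2, nat_lit 5, [nat_lit 4, nat_lit 5, nat_lit 5, nat_lit 20], true, nat_lit 0, nat_lit 0, nat_lit 0, nat_lit 0, zbN0,
 nat_lit 0, nat_lit 0, nat_lit 0, nat_lit 0, nat_lit 0, nat_lit 0, nat_lit 0, nat_lit 0, nat_lit 0, nat_lit 0, nat_lit 0, nat_lit 0, nat_lit 0, nat_lit 0, nat_lit 0, nat_lit 0, nat_lit 0, nat_lit 0, [],
 ⟨p004_k31, nat_lit 0, nat_lit 0, nat_lit 283, nat_lit 0, nat_lit 0, [], [], [], nat_lit 0, nat_lit 0, nat_lit 0, nat_lit 0, nat_lit 0, nat_lit 0, [], [nat_lit 25, nat_lit 40, nat_lit 20, nat_lit 80, nat_lit 17, nat_lit 289, nat_lit 75, nat_lit 9]⟩, C1.Rw.none,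
 zbF0, []⟩
noncomputable def p004_l218 : Lf2 := ⟨nat_lit 3, nat_lit 5, [nat_lit 4, nat_lit 5, nat_lit 5, nat_lit 20], false, nat_lit 0, nat_lit 0, nat_lit 0, nat_lit 0, zbN0,
 nat_lit 0, nat_lit 0, nat_lit 0, nat_lit 0, nat_lit 0, nat_lit 0, nat_lit 0, nat_lit 0, nat_lit 0, nat_lit 0, nat_lit 0, nat_lit 0, nat_lit 0, nat_lit 0, nat_lit 0, nat_lit 0, nat_lit 0, nat_lit 0, [],
 C1.Rw.none, ⟨p004_k37, nat_lit 0, nat_lit 0, nat_lit 306, nat_lit 0, nat_lit 64093, [], [], [], nat_lit 1271250, nat_lit 1271250, nat_lit 43600, nat_lit 65850, nat_lit 0, nat_lit 0, [nat_lit 1412500, nat_lit 1271250], [nat_lit 51, nat_lit 40, nat_lit 20, nat_lit 80, nat_lit 1, nat_lit 289, nat_lit 75, nat_lit 9]⟩,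
 zbF0, []⟩
noncomputable def p004_l219 : Lf2 := ⟨nat_lit 0, nat_lit 5, [nat_lit 4, nat_lit 5, nat_lit 5, nat_lit 20], true, nat_lit 0, nat_lit 0, nat_lit 0, nat_lit 0, ⟨nat_lit 0, nat_lit 0, nat_lit 1000, nat_lit 5, nat_lit 55, nat_lit 0, nat_lit 0, nat_lit 0, nat_lit 0, nat_lit 215, nat_lit 29400, nat_lit 257, nat_lit 65738369, nat_lit 0, nat_lit 0, nat_lit 467196, false, false⟩,
 nat_lit 0, nat_lit 0, nat_lit 0, nat_lit 0, nat_lit 4808, nat_lit 0, nat_lit 216, nat_lit 0, nat_lit 0, nat_lit 0, nat_lit 0, nat_lit 0, nat_lit 0, nat_lit 5083260416408, nat_lit 115, nat_lit 1000000, nat_lit 0, nat_lit 0, [(nat_lit 3, [(nat_lit 6, nat_lit 1000)])],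
 ⟨p004_k33, nat_lit 0, nat_lit 0, nat_lit 283, nat_lit 0, nat_lit 0, [nat_lit 3341142858, nat_lit 1499600000, nat_lit 23600000], [], [nat_lit 14085342367, nat_lit 14204729564, nat_lit 13770557982, nat_lit 13892103320], nat_lit 0, nat_lit 0, nat_lit 0, nat_lit 0, nat_lit 0, nat_lit 0, [], [nat_lit 25, nat_lit 40, nat_lit 20, nat_lit 80, nat_lit 17, nat_lit 289, nat_lit 75, nat_lit 9]⟩, C1.Rw.none,
 ⟨nat_lit 6422, nat_lit 6462, ⟨.ofNat (nat_lit 130770), .ofNat (nat_lit 139130), .ofNat (nat_lit 136117), .ofNat (nat_lit 144477), .ofNat (nat_lit 132611), .ofNat (nat_lit 140933), .ofNat (nat_lit 137956), .ofNat (nat_lit 146279)⟩, ⟨.ofNat (nat_lit 0), .ofNat (nat_lit 0), .ofNat (nat_lit 0), .ofNat (nat_lit 0), .ofNat (nat_lit 0), .ofNat (nat_lit 0), .ofNat (nat_lit 0), .ofNat (nat_lit 0)⟩⟩, [⟨nat_lit 0, nat_lit 100, nat_lit 100, nat_lit 33, nat_lit 504013829⟩]⟩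
noncomputable def p004_l220 : Lf2 := ⟨nat_lit 0, nat_lit 5, [nat_lit 4, nat_lit 5, nat_lit 5, nat_lit 20], true, nat_lit 0, nat_lit 0, nat_lit 0, nat_lit 0, ⟨nat_lit 0, nat_lit 0, nat_lit 1000, nat_lit 5, nat_lit 58, nat_lit 0, nat_lit 0, nat_lit 0, nat_lit 0, nat_lit 215, nat_lit 32267, nat_lit 259, nat_lit 65610405, nat_lit 0, nat_lit 0, nat_lit 504481, false, false⟩,
 nat_lit 0, nat_lit 0, nat_lit 0, nat_lit 0, nat_lit 4795, nat_lit 0, nat_lit 216, nat_lit 0, nat_lit 0, nat_lit 0, nat_lit 0, nat_lit 0, nat_lit 0, nat_lit 11718881961987, nat_lit 115, nat_lit 1000000, nat_lit 0, nat_lit 0, [(nat_lit 3, [(nat_lit 6, nat_lit 1000)])],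
 ⟨p004_k18, nat_lit 0, nat_lit 0, nat_lit 234, nat_lit 0, nat_lit 0, [nat_lit 3341142858, nat_lit 1499600000, nat_lit 23600000], [], [nat_lit 13652708971, nat_lit 13902606047, nat_lit 13408756827, nat_lit 13661183248], nat_lit 0, nat_lit 0, nat_lit 0, nat_lit 0, nat_lit 0, nat_lit 0, [], [nat_lit 25, nat_lit 40, nat_lit 20, nat_lit 80, nat_lit 17, nat_lit 289, nat_lit 75, nat_lit 9]⟩, C1.Rw.none,
 ⟨nat_lit 6422, nat_lit 6520, ⟨.ofNat (nat_lit 136412), .ofNat (nat_lit 144831), .ofNat (nat_lit 141762), .ofNat (nat_lit 150181), .ofNat (nat_lit 140933), .ofNat (nat_lit 149255), .ofNat (nat_lit 146279), .ofNat (nat_lit 154601)⟩, ⟨.ofNat (nat_lit 0), .ofNat (nat_lit 0), .ofNat (nat_lit 0), .ofNat (nat_lit 0), .ofNat (nat_lit 0), .ofNat (nat_lit 0), .ofNat (nat_lit 0), .ofNat (nat_lit 0)⟩⟩, []⟩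
noncomputable def p004_l221 : Lf2 := ⟨nat_lit 0, nat_lit 5, [nat_lit 4, nat_lit 5, nat_lit 5, nat_lit 20], true, nat_lit 0, nat_lit 0, nat_lit 0, nat_lit 0, ⟨nat_lit 0, nat_lit 0, nat_lit 1000, nat_lit 5, nat_lit 59, nat_lit 0, nat_lit 0, nat_lit 0, nat_lit 0, nat_lit 215, nat_lit 33750, nat_lit 260, nat_lit 65554102, nat_lit 0, nat_lit 0, nat_lit 520595, false, false⟩,
 nat_lit 0, nat_lit 0, nat_lit 0, nat_lit 0, nat_lit 4726, nat_lit 0, nat_lit 188, nat_lit 0, nat_lit 0, nat_lit 0, nat_lit 0, nat_lit 0, nat_lit 0, nat_lit 5839556509310, nat_lit 115, nat_lit 1000000, nat_lit 0, nat_lit 0, [(nat_lit 3, [(nat_lit 6, nat_lit 1000)])],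
 ⟨p004_k34, nat_lit 0, nat_lit 0, nat_lit 285, nat_lit 0, nat_lit 0, [nat_lit 3341142858, nat_lit 1499600000, nat_lit 23600000], [], [nat_lit 14201616060, nat_lit 14497508570, nat_lit 13722099153, nat_lit 14022529944], nat_lit 0, nat_lit 0, nat_lit 0, nat_lit 0, nat_lit 0, nat_lit 0, [], [nat_lit 25, nat_lit 40, nat_lit 20, nat_lit 80, nat_lit 17, nat_lit 289, nat_lit 75, nat_lit 9]⟩, C1.Rw.none,
 ⟨nat_lit 6324, nat_lit 6423, ⟨.ofNat (nat_lit 132611), .ofNat (nat_lit 149255), .ofNat (nat_lit 143302), .ofNat (nat_lit 159946), .ofNat (nat_lit 137182), .ofNat (nat_lit 153635), .ofNat (nat_lit 147866), .ofNat (nat_lit 164319)⟩, ⟨.ofNat (nat_lit 0), .ofNat (nat_lit 0), .ofNat (nat_lit 0), .ofNat (nat_lit 0), .ofNat (nat_lit 0), .ofNat (nat_lit 0), .ofNat (nat_lit 0), .ofNat (nat_lit 0)⟩⟩, [⟨nat_lit 0, nat_lit 100, nat_lit 100, nat_lit 36, nat_lit 409308586⟩]⟩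
noncomputable def p004_l222 : Lf2 := ⟨nat_lit 0, nat_lit 5, [nat_lit 4, nat_lit 5, nat_lit 5, nat_lit 20], true, nat_lit 0, nat_lit 0, nat_lit 0, nat_lit 0, ⟨nat_lit 0, nat_lit 0, nat_lit 1000, nat_lit 5, nat_lit 59, nat_lit 0, nat_lit 0, nat_lit 0, nat_lit 0, nat_lit 215, nat_lit 32267, nat_lit 259, nat_lit 65596825, nat_lit 0, nat_lit 0, nat_lit 508383, false, false⟩,
 nat_lit 0, nat_lit 0, nat_lit 0, nat_lit 2955, nat_lit 4688, nat_lit 0, nat_lit 0, nat_lit 0, nat_lit 0, nat_lit 0, nat_lit 0, nat_lit 0, nat_lit 0, nat_lit 10842750131869, nat_lit 54, nat_lit 400000, nat_lit 0, nat_lit 0, [(nat_lit 3, [(nat_lit 5, nat_lit 1000)])],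
 ⟨p004_k10, nat_lit 0, nat_lit 0, nat_lit 0, nat_lit 0, nat_lit 0, [nat_lit 2385360001, nat_lit 965600001, nat_lit 151199999], [], [nat_lit 14713783226, nat_lit 15300785126, nat_lit 14239805012, nat_lit 14773597063], nat_lit 0, nat_lit 0, nat_lit 0, nat_lit 0, nat_lit 0, nat_lit 0, [], [nat_lit 96, nat_lit 40, nat_lit 20, nat_lit 40]⟩, C1.Rw.none,
 ⟨nat_lit 6324, nat_lit 6520, ⟨.ofNat (nat_lit 127994), .ofNat (nat_lit 144831), .ofNat (nat_lit 138693), .ofNat (nat_lit 155530), .ofNat (nat_lit 137182), .ofNat (nat_lit 153635), .ofNat (nat_lit 147866), .ofNat (nat_lit 164319)⟩, ⟨.ofNat (nat_lit 0), .ofNat (nat_lit 0), .ofNat (nat_lit 0), .ofNat (nat_lit 0), .ofNat (nat_lit 0), .ofNat (nat_lit 0), .ofNat (nat_lit 0), .ofNat (nat_lit 0)⟩⟩, [⟨nat_lit 0, nat_lit 100, nat_lit 100, nat_lit 35, nat_lit 408006278⟩]⟩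
noncomputable def p004_l223 : Lf2 := ⟨nat_lit 2, nat_lit 5, [nat_lit 4, nat_lit 5, nat_lit 5, nat_lit 20], true, nat_lit 0, nat_lit 0, nat_lit 0, nat_lit 0, zbN0,
 nat_lit 0, nat_lit 0, nat_lit 0, nat_lit 0, nat_lit 0, nat_lit 0, nat_lit 0, nat_lit 0, nat_lit 0, nat_lit 0, nat_lit 0, nat_lit 0, nat_lit 0, nat_lit 0, nat_lit 0, nat_lit 0, nat_lit 0, nat_lit 0, [],
 ⟨p004_k18, nat_lit 0, nat_lit 0, nat_lit 285, nat_lit 0, nat_lit 0, [], [], [], nat_lit 0, nat_lit 0, nat_lit 0, nat_lit 0, nat_lit 0, nat_lit 0, [], [nat_lit 25, nat_lit 40, nat_lit 20, nat_lit 80, nat_lit 17, nat_lit 289, nat_lit 75, nat_lit 9]⟩, C1.Rw.none,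
 zbF0, []⟩
noncomputable def p004_l224 : Lf2 := ⟨nat_lit 3, nat_lit 5, [nat_lit 4, nat_lit 5, nat_lit 5, nat_lit 20], false, nat_lit 0, nat_lit 0, nat_lit 0, nat_lit 0, zbN0,
 nat_lit 0, nat_lit 0, nat_lit 0, nat_lit 0, nat_lit 0, nat_lit 0, nat_lit 0, nat_lit 0, nat_lit 0, nat_lit 0, nat_lit 0, nat_lit 0, nat_lit 0, nat_lit 0, nat_lit 0, nat_lit 0, nat_lit 0, nat_lit 0, [],
 C1.Rw.none, ⟨p004_k35, nat_lit 0, nat_lit 0, nat_lit 314, nat_lit 0, nat_lit 85003, [], [], [], nat_lit 1271250, nat_lit 1271250, nat_lit 43600, nat_lit 88400, nat_lit 0, nat_lit 0, [nat_lit 1412500, nat_lit 1271250], [nat_lit 51, nat_lit 40, nat_lit 20, nat_lit 80, nat_lit 1, nat_lit 289, nat_lit 75, nat_lit 9]⟩,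
 zbF0, []⟩
noncomputable def p004_l225 : Lf2 := ⟨nat_lit 0, nat_lit 5, [nat_lit 4, nat_lit 5, nat_lit 5, nat_lit 20], true, nat_lit 0, nat_lit 0, nat_lit 0, nat_lit 0, ⟨nat_lit 0, nat_lit 0, nat_lit 1000, nat_lit 5, nat_lit 57, nat_lit 0, nat_lit 0, nat_lit 0, nat_lit 0, nat_lit 215, nat_lit 30817, nat_lit 258, nat_lit 65673982, nat_lit 0, nat_lit 0, nat_lit 486074, false, false⟩,
 nat_lit 0, nat_lit 0, nat_lit 0, nat_lit 100000, nat_lit 5201, nat_lit 0, nat_lit 0, nat_lit 0, nat_lit 0, nat_lit 0, nat_lit 0, nat_lit 0, nat_lit 0, nat_lit 11695598658636, nat_lit 60, nat_lit 400000, nat_lit 0, nat_lit 0, [(nat_lit 3, [(nat_lit 5, nat_lit 1000)])],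
 ⟨p004_k18, nat_lit 0, nat_lit 0, nat_lit 285, nat_lit 0, nat_lit 0, [nat_lit 2770400000, nat_lit 702400001, nat_lit 2000000], [], [nat_lit 16429859805, nat_lit 17003885630, nat_lit 16161351482, nat_lit 16659746681], nat_lit 0, nat_lit 0, nat_lit 0, nat_lit 0, nat_lit 0, nat_lit 0, [], [nat_lit 25, nat_lit 40, nat_lit 20, nat_lit 80, nat_lit 17, nat_lit 289, nat_lit 75, nat_lit 9]⟩, C1.Rw.none,
 ⟨nat_lit 6324, nat_lit 6520, ⟨.ofNat (nat_lit 127994), .ofNat (nat_lit 136412), .ofNat (nat_lit 138693), .ofNat (nat_lit 147111), .ofNat (nat_lit 137182), .ofNat (nat_lit 145408), .ofNat (nat_lit 147866), .ofNat (nat_lit 156092)⟩, ⟨.ofNat (nat_lit 0), .ofNat (nat_lit 0), .ofNat (nat_lit 0), .ofNat (nat_lit 0), .ofNat (nat_lit 0), .ofNat (nat_lit 0), .ofNat (nat_lit 0), .ofNat (nat_lit 0)⟩⟩, [⟨nat_lit 0, nat_lit 100, nat_lit 100, nat_lit 35, nat_lit 10000000000⟩, ⟨nat_lit 0, nat_lit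 100, nat_lit 100, nat_lit 40, nat_lit 930859692⟩]⟩
noncomputable def p004_l226 : Lf2 := ⟨nat_lit 1, nat_lit 5, [nat_lit 4, nat_lit 5, nat_lit 5, nat_lit 20], false, nat_lit 0, nat_lit 0, nat_lit 0, nat_lit 0, zbN0,
 nat_lit 0, nat_lit 0, nat_lit 0, nat_lit 0, nat_lit 0, nat_lit 0, nat_lit 0, nat_lit 0, nat_lit 0, nat_lit 0, nat_lit 0, nat_lit 0, nat_lit 0, nat_lit 0, nat_lit 0, nat_lit 0, nat_lit 0, nat_lit 0, [],
 C1.Rw.none, C1.Rw.none,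
 zbF0, []⟩
noncomputable def p004_l227 : Lf2 := ⟨nat_lit 0, nat_lit 5, [nat_lit 4, nat_lit 5, nat_lit 5, nat_lit 20], true, nat_lit 0, nat_lit 0, nat_lit 0, nat_lit 0, ⟨nat_lit 0, nat_lit 0, nat_lit 1000, nat_lit 5, nat_lit 61, nat_lit 0, nat_lit 0, nat_lit 0, nat_lit 0, nat_lit 215, nat_lit 35267, nat_lit 261, nat_lit 65474287, nat_lit 0, nat_lit 0, nat_lit 543153, false, false⟩,
 nat_lit 0, nat_lit 0, nat_lit 0, nat_lit 3473, nat_lit 4704, nat_lit 0, nat_lit 0, nat_lit 0, nat_lit 0, nat_lit 0, nat_lit 0, nat_lit 0, nat_lit 0, nat_lit 11159996247309, nat_lit 54, nat_lit 400000, nat_lit 0, nat_lit 0, [(nat_lit 3, [(nat_lit 5, nat_lit 1000)])],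
 ⟨p004_k38, nat_lit 0, nat_lit 0, nat_lit 0, nat_lit 0, nat_lit 0, [nat_lit 2385360001, nat_lit 965600001, nat_lit 151199999], [], [nat_lit 14735261413, nat_lit 15003947180, nat_lit 14497272615, nat_lit 14764538260], nat_lit 0, nat_lit 0, nat_lit 0, nat_lit 0, nat_lit 0, nat_lit 0, [], [nat_lit 96, nat_lit 40, nat_lit 20, nat_lit 40]⟩, C1.Rw.none,
 ⟨nat_lit 6324, nat_lit 6423, ⟨.ofNat (nat_lit 140933), .ofNat (nat_lit 149255), .ofNat (nat_lit 151624), .ofNat (nat_lit 159946), .ofNat (nat_lit 145408), .ofNat (nat_lit 153635), .ofNat (nat_lit 156092), .ofNat (nat_lit 164319)⟩, ⟨.ofNat (nat_lit 0), .ofNat (nat_lit 0), .ofNat (nat_lit 0), .ofNat (nat_lit 0), .ofNat (nat_lit 0), .ofNat (nat_lit 0), .ofNat (nat_lit 0), .ofNat (nat_lit 0)⟩⟩, [⟨nat_lit 0, nat_lit 100, nat_lit 100, nat_lit 36, nat_lit 407605302⟩]⟩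
noncomputable def p004_l228 : Lf2 := ⟨nat_lit 2, nat_lit 5, [nat_lit 4, nat_lit 5, nat_lit 5, nat_lit 20], true, nat_lit 0, nat_lit 0, nat_lit 0, nat_lit 0, zbN0,
 nat_lit 0, nat_lit 0, nat_lit 0, nat_lit 0, nat_lit 0, nat_lit 0, nat_lit 0, nat_lit 0, nat_lit 0, nat_lit 0, nat_lit 0, nat_lit 0, nat_lit 0, nat_lit 0, nat_lit 0, nat_lit 0, nat_lit 0, nat_lit 0, [],
 ⟨p004_k39, nat_lit 0, nat_lit 0, nat_lit 212, nat_lit 0, nat_lit 0, [], [], [], nat_lit 0, nat_lit 0, nat_lit 0, nat_lit 0, nat_lit 0, nat_lit 0, [], [nat_lit 51, nat_lit 40, nat_lit 20, nat_lit 80, nat_lit 1, nat_lit 289, nat_lit 75, nat_lit 9]⟩, C1.Rw.none,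
 zbF0, []⟩
noncomputable def p004_l229 : Lf2 := ⟨nat_lit 3, nat_lit 5, [nat_lit 4, nat_lit 5, nat_lit 5, nat_lit 20], false, nat_lit 0, nat_lit 0, nat_lit 0, nat_lit 0, zbN0,
 nat_lit 0, nat_lit 0, nat_lit 0, nat_lit 0, nat_lit 0, nat_lit 0, nat_lit 0, nat_lit 0, nat_lit 0, nat_lit 0, nat_lit 0, nat_lit 0, nat_lit 0, nat_lit 0, nat_lit 0, nat_lit 0, nat_lit 0, nat_lit 0, [],
 C1.Rw.none, ⟨p004_k35, nat_lit 0, nat_lit 0, nat_lit 295, nat_lit 0, nat_lit 46235, [], [], [], nat_lit 1271250, nat_lit 1271250, nat_lit 65850, nat_lit 88400, nat_lit 0, nat_lit 0, [nat_lit 1412500, nat_lit 1271250], [nat_lit 51, nat_lit 40, nat_lit 20, nat_lit 80, nat_lit 1, nat_lit 289, nat_lit 75, nat_lit 9]⟩,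
 zbF0, []⟩
noncomputable def b_NL_550_550_0_6 : St := ⟨false, nat_lit 0, nat_lit 1, nat_lit 1, nat_lit 20, nat_lit 230, nat_lit 240, nat_lit 230, nat_lit 240, nat_lit 8, nat_lit 16, nat_lit 0, nat_lit 0, nat_lit 0, nat_lit 0, nat_lit 0, nat_lit 0, nat_lit 20, nat_lit 40, nat_lit 0, nat_lit 0, nat_lit 0, nat_lit 0⟩
theorem d_NL_550_550_0_6 (h : EB TB.env) : Dead b_NL_550_550_0_6 := chkB_sound0 h (T :=
(.spl (nat_lit 6) (nat_lit 32)
(.spl (nat_lit 6) (nat_lit 24)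
(.leaf p004_l202)
(.spl (nat_lit 6) (nat_lit 28)
(.spl (nat_lit 0) (nat_lit 235)
(.ord (.spl (nat_lit 2) (nat_lit 12)
(.spl (nat_lit 0) (nat_lit 233)
(.ord (.spl (nat_lit 0) (nat_lit 232)
(.ord (.spl (nat_lit 0) (nat_lit 231)
(.ord (.spl (nat_lit 8) (nat_lit 800)
(.spl (nat_lit 7) (nat_lit 600)
(.leaf p004_l203)
(.leaf p004_l204))
(.leaf p004_l205)))
(.spl (nat_lit 1) (nat_lit 231)
(.spl (nat_lit 8) (nat_lit 800)
(.spl (nat_lit 7) (nat_lit 600)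
(.leaf p004_l206)
(.leaf p004_l207))
(.leaf p004_l208))
(.spl (nat_lit 8) (nat_lit 800)
(.spl (nat_lit 7) (nat_lit 600)
(.leaf p004_l209)
(.leaf p004_l210))
(.leaf p004_l211)))))
(.spl (nat_lit 1) (nat_lit 232)
(.spl (nat_lit 1) (nat_lit 231)
(.leaf p004_l212)
(.spl (nat_lit 8) (nat_lit 800)
(.spl (nat_lit 7) (nat_lit 600)
(.leaf p004_l213)
(.leaf p004_l214))
(.leaf p004_l215)))
(.spl (nat_lit 8) (nat_lit 800)
(.spl (nat_lit 7) (nat_lit 600)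
(.leaf p004_l216)
(.leaf p004_l217))
(.leaf p004_l218)))))
(.leaf p004_l219))
(.leaf p004_l220)))
(.leaf p004_l221))
(.spl (nat_lit 8) (nat_lit 800)
(.spl (nat_lit 7) (nat_lit 600)
(.leaf p004_l222)
(.leaf p004_l223))
(.leaf p004_l224))))
(.spl (nat_lit 2) (nat_lit 12)
(.leaf p004_l225)
(.spl (nat_lit 0) (nat_lit 235)
(.ord (.leaf p004_l226))
(.spl (nat_lit 8) (nat_lit 800)
(.spl (nat_lit 7) (nat_lit 600)
(.leaf p004_l227)
(.leaf p004_l228))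
(.leaf p004_l229)))))) (by decide +kernel)
noncomputable def p004_l230 : Lf2 := ⟨nat_lit 0, nat_lit 5, [nat_lit 4, nat_lit 5, nat_lit 5, nat_lit 20], true, nat_lit 0, nat_lit 0, nat_lit 0, nat_lit 0, ⟨nat_lit 0, nat_lit 0, nat_lit 1000, nat_lit 5, nat_lit 63, nat_lit 0, nat_lit 0, nat_lit 0, nat_lit 0, nat_lit 215, nat_lit 38400, nat_lit 263, nat_lit 65353205, nat_lit 0, nat_lit 0, nat_lit 576769, false, false⟩,
 nat_lit 0, nat_lit 0, nat_lit 0, nat_lit 0, nat_lit 5269, nat_lit 0, nat_lit 0, nat_lit 0, nat_lit 0, nat_lit 0, nat_lit 0, nat_lit 0, nat_lit 0, nat_lit 11617618530095, nat_lit 60, nat_lit 400000, nat_lit 0, nat_lit 0, [(nat_lit 3, [(nat_lit 5, nat_lit 1000)])],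
 ⟨p004_k18, nat_lit 0, nat_lit 0, nat_lit 229, nat_lit 0, nat_lit 0, [nat_lit 2770400000, nat_lit 702400001, nat_lit 2000000], [], [nat_lit 15863964796, nat_lit 16364978645, nat_lit 15591343615, nat_lit 16092441168], nat_lit 0, nat_lit 0, nat_lit 0, nat_lit 0, nat_lit 0, nat_lit 0, [], [nat_lit 25, nat_lit 40, nat_lit 20, nat_lit 80, nat_lit 17, nat_lit 289, nat_lit 75, nat_lit 9]⟩, C1.Rw.none,
 ⟨nat_lit 6324, nat_lit 6520, ⟨.ofNat (nat_lit 144831), .ofNat (nat_lit 153250), .ofNat (nat_lit 155530), .ofNat (nat_lit 163949), .ofNat (nat_lit 153635), .ofNat (nat_lit 161861), .ofNat (nat_lit 164319), .ofNat (nat_lit 172545)⟩, ⟨.ofNat (nat_lit 0), .ofNat (nat_lit 0), .ofNat (nat_lit 0), .ofNat (nat_lit 0), .ofNat (nat_lit 0), .ofNat (nat_lit 0), .ofNat (nat_lit 0), .ofNat (nat_lit 0)⟩⟩, []⟩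
noncomputable def p004_l231 : Lf2 := ⟨nat_lit 0, nat_lit 5, [nat_lit 4, nat_lit 5, nat_lit 5, nat_lit 20], true, nat_lit 0, nat_lit 0, nat_lit 0, nat_lit 0, ⟨nat_lit 0, nat_lit 0, nat_lit 1000, nat_lit 5, nat_lit 62, nat_lit 0, nat_lit 0, nat_lit 0, nat_lit 0, nat_lit 215, nat_lit 36817, nat_lit 262, nat_lit 65406888, nat_lit 0, nat_lit 0, nat_lit 561952, false, false⟩,
 nat_lit 0, nat_lit 0, nat_lit 0, nat_lit 7293, nat_lit 5269, nat_lit 0, nat_lit 0, nat_lit 0, nat_lit 0, nat_lit 0, nat_lit 0, nat_lit 0, nat_lit 0, nat_lit 0, nat_lit 60, nat_lit 400000, nat_lit 0, nat_lit 0, [(nat_lit 3, [(nat_lit 5, nat_lit 1000)])],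
 ⟨p004_k35, nat_lit 0, nat_lit 0, nat_lit 206, nat_lit 0, nat_lit 0, [nat_lit 2770400000, nat_lit 2000000], [], [nat_lit 15863964796, nat_lit 16364978645, nat_lit 15591343615, nat_lit 16092441168], nat_lit 0, nat_lit 0, nat_lit 0, nat_lit 0, nat_lit 0, nat_lit 0, [], [nat_lit 51, nat_lit 40, nat_lit 20, nat_lit 80, nat_lit 1, nat_lit 289, nat_lit 75, nat_lit 9]⟩, C1.Rw.none,
 ⟨nat_lit 6324, nat_lit 6520, ⟨.ofNat (nat_lit 144831), .ofNat (nat_lit 153250), .ofNat (nat_lit 150181), .ofNat (nat_lit 158599), .ofNat (nat_lit 153635), .ofNat (nat_lit 161861), .ofNat (nat_lit 158977), .ofNat (nat_lit 167203)⟩, ⟨.ofNat (nat_lit 0), .ofNat (nat_lit 0), .ofNat (nat_lit 0), .ofNat (nat_lit 0), .ofNat (nat_lit 0), .ofNat (nat_lit 0), .ofNat (nat_lit 0), .ofNat (nat_lit 0)⟩⟩, []⟩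
noncomputable def p004_l232 : Lf2 := ⟨nat_lit 0, nat_lit 5, [nat_lit 4, nat_lit 5, nat_lit 5, nat_lit 20], true, nat_lit 0, nat_lit 0, nat_lit 0, nat_lit 0, ⟨nat_lit 0, nat_lit 0, nat_lit 1000, nat_lit 5, nat_lit 64, nat_lit 0, nat_lit 0, nat_lit 0, nat_lit 0, nat_lit 215, nat_lit 38400, nat_lit 263, nat_lit 65333097, nat_lit 0, nat_lit 0, nat_lit 582284, false, false⟩,
 nat_lit 0, nat_lit 0, nat_lit 0, nat_lit 3476, nat_lit 5313, nat_lit 0, nat_lit 0, nat_lit 0, nat_lit 0, nat_lit 0, nat_lit 0, nat_lit 0, nat_lit 0, nat_lit 5982326846074, nat_lit 60, nat_lit 400000, nat_lit 0, nat_lit 0, [(nat_lit 3, [(nat_lit 5, nat_lit 1000)])],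
 ⟨p004_k34, nat_lit 0, nat_lit 0, nat_lit 227, nat_lit 0, nat_lit 0, [nat_lit 2770400000, nat_lit 702400001, nat_lit 2000000], [], [nat_lit 16096607593, nat_lit 16146873352, nat_lit 15821368746, nat_lit 15871643224], nat_lit 0, nat_lit 0, nat_lit 0, nat_lit 0, nat_lit 0, nat_lit 0, [], [nat_lit 25, nat_lit 40, nat_lit 20, nat_lit 80, nat_lit 17, nat_lit 289, nat_lit 75, nat_lit 9]⟩, C1.Rw.none,
 ⟨nat_lit 6403, nat_lit 6423, ⟨.ofNat (nat_lit 154601), .ofNat (nat_lit 162923), .ofNat (nat_lit 155670), .ofNat (nat_lit 163992), .ofNat (nat_lit 155479), .ofNat (nat_lit 163782), .ofNat (nat_lit 156548), .ofNat (nat_lit 164851)⟩, ⟨.ofNat (nat_lit 0), .ofNat (nat_lit 0), .ofNat (nat_lit 0), .ofNat (nat_lit 0), .ofNat (nat_lit 0), .ofNat (nat_lit 0), .ofNat (nat_lit 0), .ofNat (nat_lit 0)⟩⟩, []⟩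
noncomputable def p004_l233 : Lf2 := ⟨nat_lit 0, nat_lit 5, [nat_lit 4, nat_lit 5, nat_lit 5, nat_lit 20], true, nat_lit 0, nat_lit 0, nat_lit 0, nat_lit 0, ⟨nat_lit 0, nat_lit 0, nat_lit 1000, nat_lit 5, nat_lit 64, nat_lit 0, nat_lit 0, nat_lit 0, nat_lit 0, nat_lit 215, nat_lit 38400, nat_lit 263, nat_lit 65315388, nat_lit 0, nat_lit 0, nat_lit 587126, false, false⟩,
 nat_lit 0, nat_lit 0, nat_lit 0, nat_lit 3476, nat_lit 5313, nat_lit 0, nat_lit 0, nat_lit 0, nat_lit 0, nat_lit 0, nat_lit 0, nat_lit 0, nat_lit 0, nat_lit 0, nat_lit 60, nat_lit 400000, nat_lit 0, nat_lit 0, [(nat_lit 3, [(nat_lit 5, nat_lit 1000)])],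
 ⟨p004_k40, nat_lit 0, nat_lit 0, nat_lit 227, nat_lit 0, nat_lit 0, [nat_lit 2770400000, nat_lit 702400001, nat_lit 2000000], [], [nat_lit 16146873352, nat_lit 16209196040, nat_lit 15871643224, nat_lit 15921917702], nat_lit 0, nat_lit 0, nat_lit 0, nat_lit 0, nat_lit 0, nat_lit 0, [], [nat_lit 25, nat_lit 40, nat_lit 20, nat_lit 80, nat_lit 17, nat_lit 289, nat_lit 75, nat_lit 9]⟩, C1.Rw.none,
 ⟨nat_lit 6383, nat_lit 6404, ⟨.ofNat (nat_lit 155479), .ofNat (nat_lit 163782), .ofNat (nat_lit 156548), .ofNat (nat_lit 164851), .ofNat (nat_lit 156356), .ofNat (nat_lit 164640), .ofNat (nat_lit 157425), .ofNat (nat_lit 165709)⟩, ⟨.ofNat (nat_lit 0), .ofNat (nat_lit 0), .ofNat (nat_lit 0), .ofNat (nat_lit 0), .ofNat (nat_lit 0), .ofNat (nat_lit 0), .ofNat (nat_lit 0), .ofNat (nat_lit 0)⟩⟩, []⟩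
noncomputable def p004_l234 : Lf2 := ⟨nat_lit 0, nat_lit 5, [nat_lit 4, nat_lit 5, nat_lit 5, nat_lit 20], false, nat_lit 0, nat_lit 0, nat_lit 0, nat_lit 0, ⟨nat_lit 1000, nat_lit 0, nat_lit 0, nat_lit 0, nat_lit 0, nat_lit 0, nat_lit 0, nat_lit 0, nat_lit 0, nat_lit 0, nat_lit 0, nat_lit 0, nat_lit 0, nat_lit 0, nat_lit 0, nat_lit 0, false, false⟩,
 nat_lit 0, nat_lit 0, nat_lit 16232, nat_lit 0, nat_lit 9464, nat_lit 8425, nat_lit 0, nat_lit 0, nat_lit 0, nat_lit 0, nat_lit 0, nat_lit 0, nat_lit 0, nat_lit 0, nat_lit 0, nat_lit 0, nat_lit 0, nat_lit 0, [],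
 ⟨p004_k40, nat_lit 0, nat_lit 0, nat_lit 227, nat_lit 0, nat_lit 0, [nat_lit 6250000000, nat_lit 7968000001, nat_lit 9842000000], [], [nat_lit 30676662537, nat_lit 30742435519, nat_lit 30150563901, nat_lit 30216378478], nat_lit 0, nat_lit 0, nat_lit 0, nat_lit 0, nat_lit 0, nat_lit 0, [], [nat_lit 25, nat_lit 40, nat_lit 20, nat_lit 80, nat_lit 17, nat_lit 289, nat_lit 75, nat_lit 9]⟩, ⟨p004_k41, nat_lit 0, nat_lit 0, nat_lit 0, nat_lit 0, nat_lit 17751, [nat_lit 5449500000, nat_lit 7089500000, nat_lit 8885500000], [], [nat_lit 26549660172, nat_lit 26620305214, nat_lit 26085984610, nat_lit 26156647958], nat_lit 1271250, nat_lit 1271250, nat_lit 88400, nat_lit 111251, nat_lit 0, nat_lit 0, [nat_lit 1271250, nat_lit 1271250, nat_lit 1271250], [nat_lit 96, nat_lit 40, nat_lit 20, nat_lit 40]⟩,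
 zbF0, []⟩
noncomputable def p004_l235 : Lf2 := ⟨nat_lit 3, nat_lit 5, [nat_lit 4, nat_lit 5, nat_lit 5, nat_lit 20], false, nat_lit 0, nat_lit 0, nat_lit 0, nat_lit 0, zbN0,
 nat_lit 0, nat_lit 0, nat_lit 0, nat_lit 0, nat_lit 0, nat_lit 0, nat_lit 0, nat_lit 0, nat_lit 0, nat_lit 0, nat_lit 0, nat_lit 0, nat_lit 0, nat_lit 0, nat_lit 0, nat_lit 0, nat_lit 0, nat_lit 0, [],
 C1.Rw.none, ⟨p004_k42, nat_lit 0, nat_lit 0, nat_lit 265, nat_lit 0, nat_lit 17751, [], [], [], nat_lit 1271250, nat_lit 1271250, nat_lit 88400, nat_lit 111251, nat_lit 0, nat_lit 0, [nat_lit 1412500, nat_lit 1271250], [nat_lit 51, nat_lit 40, nat_lit 20, nat_lit 80, nat_lit 1, nat_lit 289, nat_lit 75, nat_lit 9]⟩,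
 zbF0, []⟩
noncomputable def p004_l236 : Lf2 := ⟨nat_lit 1, nat_lit 5, [nat_lit 4, nat_lit 5, nat_lit 5, nat_lit 20], false, nat_lit 0, nat_lit 0, nat_lit 0, nat_lit 0, zbN0,
 nat_lit 0, nat_lit 0, nat_lit 0, nat_lit 0, nat_lit 0, nat_lit 0, nat_lit 0, nat_lit 0, nat_lit 0, nat_lit 0, nat_lit 0, nat_lit 0, nat_lit 0, nat_lit 0, nat_lit 0, nat_lit 0, nat_lit 0, nat_lit 0, [],
 C1.Rw.none, C1.Rw.none,
 zbF0, []⟩
noncomputable def p004_l237 : Lf2 := ⟨nat_lit 0, nat_lit 5, [nat_lit 4, nat_lit 5, nat_lit 5, nat_lit 20], true, nat_lit 0, nat_lit 0, nat_lit 0, nat_lit 0, ⟨nat_lit 0, nat_lit 0, nat_lit 1000, nat_lit 5, nat_lit 65, nat_lit 0, nat_lit 0, nat_lit 0, nat_lit 0, nat_lit 215, nat_lit 38400, nat_lit 263, nat_lit 65297624, nat_lit 0, nat_lit 0, nat_lit 591968, false, false⟩,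
 nat_lit 0, nat_lit 0, nat_lit 0, nat_lit 3472, nat_lit 5302, nat_lit 0, nat_lit 0, nat_lit 0, nat_lit 0, nat_lit 0, nat_lit 0, nat_lit 0, nat_lit 0, nat_lit 0, nat_lit 60, nat_lit 400000, nat_lit 0, nat_lit 0, [(nat_lit 3, [(nat_lit 5, nat_lit 1000)])],
 ⟨p004_k45, nat_lit 0, nat_lit 0, nat_lit 205, nat_lit 0, nat_lit 0, [nat_lit 2770400000, nat_lit 2000000], [], [nat_lit 16201522956, nat_lit 16263662832, nat_lit 15926966252, nat_lit 15977199550], nat_lit 0, nat_lit 0, nat_lit 0, nat_lit 0, nat_lit 0, nat_lit 0, [], [nat_lit 51, nat_lit 40, nat_lit 20, nat_lit 80, nat_lit 1, nat_lit 289, nat_lit 75, nat_lit 9]⟩, C1.Rw.none,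
 ⟨nat_lit 6363, nat_lit 6384, ⟨.ofNat (nat_lit 156356), .ofNat (nat_lit 164640), .ofNat (nat_lit 157425), .ofNat (nat_lit 165709), .ofNat (nat_lit 157231), .ofNat (nat_lit 165496), .ofNat (nat_lit 158300), .ofNat (nat_lit 166565)⟩, ⟨.ofNat (nat_lit 0), .ofNat (nat_lit 0), .ofNat (nat_lit 0), .ofNat (nat_lit 0), .ofNat (nat_lit 0), .ofNat (nat_lit 0), .ofNat (nat_lit 0), .ofNat (nat_lit 0)⟩⟩, []⟩
noncomputable def p004_l238 : Lf2 := ⟨nat_lit 0, nat_lit 5, [nat_lit 4, nat_lit 5, nat_lit 5, nat_lit 20], false, nat_lit 0, nat_lit 0, nat_lit 0, nat_lit 0, ⟨nat_lit 1000, nat_lit 0, nat_lit 0, nat_lit 0, nat_lit 0, nat_lit 0, nat_lit 0, nat_lit 0, nat_lit 0, nat_lit 0, nat_lit 0, nat_lit 0, nat_lit 0, nat_lit 0, nat_lit 0, nat_lit 0, false, false⟩,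
 nat_lit 0, nat_lit 0, nat_lit 16232, nat_lit 0, nat_lit 9447, nat_lit 8425, nat_lit 0, nat_lit 0, nat_lit 0, nat_lit 0, nat_lit 0, nat_lit 0, nat_lit 0, nat_lit 0, nat_lit 0, nat_lit 0, nat_lit 0, nat_lit 0, [],
 ⟨p004_k43, nat_lit 0, nat_lit 0, nat_lit 228, nat_lit 0, nat_lit 0, [nat_lit 6250000000, nat_lit 7968000001, nat_lit 9842000000], [], [nat_lit 30749210552, nat_lit 30814920025, nat_lit 30224180783, nat_lit 30289931717], nat_lit 0, nat_lit 0, nat_lit 0, nat_lit 0, nat_lit 0, nat_lit 0, [], [nat_lit 25, nat_lit 40, nat_lit 20, nat_lit 80, nat_lit 17, nat_lit 289, nat_lit 75, nat_lit 9]⟩, ⟨p004_k41, nat_lit 0, nat_lit 0, nat_lit 0, nat_lit 0, nat_lit 21615, [nat_lit 5449500000, nat_lit 7089500000, nat_lit 8885500000], [], [nat_lit 26549660172, nat_lit 26620305214, nat_lit 26085984610, nat_lit 26156647958], nat_lit 1271250, nat_lit 1271250, nat_lit 88400, nat_lit 111251,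 nat_lit 0, nat_lit 0, [nat_lit 1271250, nat_lit 1271250, nat_lit 1271250], [nat_lit 96, nat_lit 40, nat_lit 20, nat_lit 40]⟩,
 zbF0, []⟩
noncomputable def p004_l239 : Lf2 := ⟨nat_lit 3, nat_lit 5, [nat_lit 4, nat_lit 5, nat_lit 5, nat_lit 20], false, nat_lit 0, nat_lit 0, nat_lit 0, nat_lit 0, zbN0,
 nat_lit 0, nat_lit 0, nat_lit 0, nat_lit 0, nat_lit 0, nat_lit 0, nat_lit 0, nat_lit 0, nat_lit 0, nat_lit 0, nat_lit 0, nat_lit 0, nat_lit 0, nat_lit 0, nat_lit 0, nat_lit 0, nat_lit 0, nat_lit 0, [],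
 C1.Rw.none, ⟨p004_k42, nat_lit 0, nat_lit 0, nat_lit 265, nat_lit 0, nat_lit 21615, [], [], [], nat_lit 1271250, nat_lit 1271250, nat_lit 88400, nat_lit 111251, nat_lit 0, nat_lit 0, [nat_lit 1412500, nat_lit 1271250], [nat_lit 51, nat_lit 40, nat_lit 20, nat_lit 80, nat_lit 1, nat_lit 289, nat_lit 75, nat_lit 9]⟩,
 zbF0, []⟩
noncomputable def p004_l240 : Lf2 := ⟨nat_lit 0, nat_lit 5, [nat_lit 4, nat_lit 5, nat_lit 5, nat_lit 20], true, nat_lit 0, nat_lit 0, nat_lit 0, nat_lit 0, ⟨nat_lit 0, nat_lit 0, nat_lit 1000, nat_lit 5, nat_lit 65, nat_lit 0, nat_lit 0, nat_lit 0, nat_lit 0, nat_lit 215, nat_lit 40017, nat_lit 264, nat_lit 65253436, nat_lit 0, nat_lit 0, nat_lit 603952, false, false⟩,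
 nat_lit 0, nat_lit 0, nat_lit 0, nat_lit 3462, nat_lit 4783, nat_lit 0, nat_lit 0, nat_lit 0, nat_lit 0, nat_lit 0, nat_lit 0, nat_lit 0, nat_lit 0, nat_lit 17172484919073, nat_lit 54, nat_lit 400000, nat_lit 0, nat_lit 0, [(nat_lit 3, [(nat_lit 5, nat_lit 1000)])],
 ⟨p004_k44, nat_lit 0, nat_lit 0, nat_lit 0, nat_lit 0, nat_lit 0, [nat_lit 2385360001, nat_lit 965600001, nat_lit 151199999], [], [nat_lit 14558356035, nat_lit 14612174163, nat_lit 14315564882, nat_lit 14369377788], nat_lit 0, nat_lit 0, nat_lit 0, nat_lit 0, nat_lit 0, nat_lit 0, [], [nat_lit 96, nat_lit 40, nat_lit 20, nat_lit 40]⟩, C1.Rw.none,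
 ⟨nat_lit 6363, nat_lit 6384, ⟨.ofNat (nat_lit 158494), .ofNat (nat_lit 166778), .ofNat (nat_lit 159563), .ofNat (nat_lit 167846), .ofNat (nat_lit 159369), .ofNat (nat_lit 167633), .ofNat (nat_lit 160437), .ofNat (nat_lit 168702)⟩, ⟨.ofNat (nat_lit 0), .ofNat (nat_lit 0), .ofNat (nat_lit 0), .ofNat (nat_lit 0), .ofNat (nat_lit 0), .ofNat (nat_lit 0), .ofNat (nat_lit 0), .ofNat (nat_lit 0)⟩⟩, []⟩
noncomputable def p004_l241 : Lf2 := ⟨nat_lit 2, nat_lit 5, [nat_lit 4, nat_lit 5, nat_lit 5, nat_lit 20], true, nat_lit 0, nat_lit 0, nat_lit 0, nat_lit 0, zbN0,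
 nat_lit 0, nat_lit 0, nat_lit 0, nat_lit 0, nat_lit 0, nat_lit 0, nat_lit 0, nat_lit 0, nat_lit 0, nat_lit 0, nat_lit 0, nat_lit 0, nat_lit 0, nat_lit 0, nat_lit 0, nat_lit 0, nat_lit 0, nat_lit 0, [],
 ⟨p004_k45, nat_lit 0, nat_lit 0, nat_lit 205, nat_lit 0, nat_lit 0, [], [], [], nat_lit 0, nat_lit 0, nat_lit 0, nat_lit 0, nat_lit 0, nat_lit 0, [], [nat_lit 51, nat_lit 40, nat_lit 20, nat_lit 80, nat_lit 1, nat_lit 289, nat_lit 75, nat_lit 9]⟩, C1.Rw.none,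
 zbF0, []⟩
noncomputable def p004_l242 : Lf2 := ⟨nat_lit 3, nat_lit 5, [nat_lit 4, nat_lit 5, nat_lit 5, nat_lit 20], false, nat_lit 0, nat_lit 0, nat_lit 0, nat_lit 0, zbN0,
 nat_lit 0, nat_lit 0, nat_lit 0, nat_lit 0, nat_lit 0, nat_lit 0, nat_lit 0, nat_lit 0, nat_lit 0, nat_lit 0, nat_lit 0, nat_lit 0, nat_lit 0, nat_lit 0, nat_lit 0, nat_lit 0, nat_lit 0, nat_lit 0, [],
 C1.Rw.none, ⟨p004_k45, nat_lit 0, nat_lit 0, nat_lit 282, nat_lit 0, nat_lit 25806, [], [], [], nat_lit 1271250, nat_lit 1271250, nat_lit 88400, nat_lit 111251, nat_lit 0, nat_lit 0, [nat_lit 1412500, nat_lit 1271250], [nat_lit 51, nat_lit 40, nat_lit 20, nat_lit 80, nat_lit 1, nat_lit 289, nat_lit 75, nat_lit 9]⟩,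
 zbF0, []⟩
noncomputable def p004_l243 : Lf2 := ⟨nat_lit 1, nat_lit 5, [nat_lit 4, nat_lit 5, nat_lit 5, nat_lit 20], false, nat_lit 0, nat_lit 0, nat_lit 0, nat_lit 0, zbN0,
 nat_lit 0, nat_lit 0, nat_lit 0, nat_lit 0, nat_lit 0, nat_lit 0, nat_lit 0, nat_lit 0, nat_lit 0, nat_lit 0, nat_lit 0, nat_lit 0, nat_lit 0, nat_lit 0, nat_lit 0, nat_lit 0, nat_lit 0, nat_lit 0, [],
 C1.Rw.none, C1.Rw.none,
 zbF0, []⟩
noncomputable def p004_l244 : Lf2 := ⟨nat_lit 0, nat_lit 5, [nat_lit 4, nat_lit 5, nat_lit 5, nat_lit 20], true, nat_lit 0, nat_lit 0, nat_lit 0, nat_lit 0, ⟨nat_lit 0, nat_lit 0, nat_lit 1000, nat_lit 5, nat_lit 65, nat_lit 0, nat_lit 0, nat_lit 0, nat_lit 0, nat_lit 215, nat_lit 40017, nat_lit 264, nat_lit 65279812, nat_lit 0, nat_lit 0, nat_lit 596809, false, false⟩,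
 nat_lit 0, nat_lit 0, nat_lit 0, nat_lit 3469, nat_lit 5291, nat_lit 0, nat_lit 0, nat_lit 0, nat_lit 0, nat_lit 0, nat_lit 0, nat_lit 0, nat_lit 0, nat_lit 0, nat_lit 60, nat_lit 400000, nat_lit 0, nat_lit 0, [(nat_lit 3, [(nat_lit 5, nat_lit 1000)])],
 ⟨p004_k49, nat_lit 0, nat_lit 0, nat_lit 206, nat_lit 0, nat_lit 0, [nat_lit 2770400000, nat_lit 2000000], [], [nat_lit 16256090373, nat_lit 16318012504, nat_lit 15982206919, nat_lit 16032399036], nat_lit 0, nat_lit 0, nat_lit 0, nat_lit 0, nat_lit 0, nat_lit 0, [], [nat_lit 51, nat_lit 40, nat_lit 20, nat_lit 80, nat_lit 1, nat_lit 289, nat_lit 75, nat_lit 9]⟩, C1.Rw.none,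
 ⟨nat_lit 6344, nat_lit 6364, ⟨.ofNat (nat_lit 157231), .ofNat (nat_lit 165496), .ofNat (nat_lit 158300), .ofNat (nat_lit 166565), .ofNat (nat_lit 158105), .ofNat (nat_lit 166350), .ofNat (nat_lit 159173), .ofNat (nat_lit 167419)⟩, ⟨.ofNat (nat_lit 0), .ofNat (nat_lit 0), .ofNat (nat_lit 0), .ofNat (nat_lit 0), .ofNat (nat_lit 0), .ofNat (nat_lit 0), .ofNat (nat_lit 0), .ofNat (nat_lit 0)⟩⟩, []⟩
noncomputable def p004_l245 : Lf2 := ⟨nat_lit 0, nat_lit 5, [nat_lit 4, nat_lit 5, nat_lit 5, nat_lit 20], false, nat_lit 0, nat_lit 0, nat_lit 0, nat_lit 0, ⟨nat_lit 1000, nat_lit 0, nat_lit 0, nat_lit 0, nat_lit 0, nat_lit 0, nat_lit 0, nat_lit 0, nat_lit 0, nat_lit 0, nat_lit 0, nat_lit 0, nat_lit 0, nat_lit 0, nat_lit 0, nat_lit 0, false, false⟩,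
 nat_lit 0, nat_lit 0, nat_lit 16232, nat_lit 0, nat_lit 9431, nat_lit 8425, nat_lit 0, nat_lit 0, nat_lit 0, nat_lit 0, nat_lit 0, nat_lit 0, nat_lit 0, nat_lit 0, nat_lit 0, nat_lit 0, nat_lit 0, nat_lit 0, [],
 ⟨p004_k46, nat_lit 0, nat_lit 0, nat_lit 228, nat_lit 0, nat_lit 0, [nat_lit 6250000000, nat_lit 7968000001, nat_lit 9842000000], [], [nat_lit 30821236754, nat_lit 30886886455, nat_lit 30297215163, nat_lit 30362906198], nat_lit 0, nat_lit 0, nat_lit 0, nat_lit 0, nat_lit 0, nat_lit 0, [], [nat_lit 25, nat_lit 40, nat_lit 20, nat_lit 80, nat_lit 17, nat_lit 289, nat_lit 75, nat_lit 9]⟩, ⟨p004_k41, nat_lit 0, nat_lit 0, nat_lit 0, nat_lit 0, nat_lit 25975, [nat_lit 5449500000, nat_lit 7089500000, nat_lit 8885500000], [], [nat_lit 26549660172, nat_lit 26620305214, nat_lit 26085984610, nat_lit 26156647958], nat_lit 1271250, nat_lit 1271250, nat_lit 88400, nat_lit 111251,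 nat_lit 0, nat_lit 0, [nat_lit 1271250, nat_lit 1271250, nat_lit 1271250], [nat_lit 96, nat_lit 40, nat_lit 20, nat_lit 40]⟩,
 zbF0, []⟩
noncomputable def p004_l246 : Lf2 := ⟨nat_lit 3, nat_lit 5, [nat_lit 4, nat_lit 5, nat_lit 5, nat_lit 20], false, nat_lit 0, nat_lit 0, nat_lit 0, nat_lit 0, zbN0,
 nat_lit 0, nat_lit 0, nat_lit 0, nat_lit 0, nat_lit 0, nat_lit 0, nat_lit 0, nat_lit 0, nat_lit 0, nat_lit 0, nat_lit 0, nat_lit 0, nat_lit 0, nat_lit 0, nat_lit 0, nat_lit 0, nat_lit 0, nat_lit 0, [],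
 C1.Rw.none, ⟨p004_k42, nat_lit 0, nat_lit 0, nat_lit 282, nat_lit 0, nat_lit 25975, [], [], [], nat_lit 1271250, nat_lit 1271250, nat_lit 88400, nat_lit 111251, nat_lit 0, nat_lit 0, [nat_lit 1412500, nat_lit 1271250], [nat_lit 51, nat_lit 40, nat_lit 20, nat_lit 80, nat_lit 1, nat_lit 289, nat_lit 75, nat_lit 9]⟩,
 zbF0, []⟩
noncomputable def p004_l247 : Lf2 := ⟨nat_lit 0, nat_lit 5, [nat_lit 4, nat_lit 5, nat_lit 5, nat_lit 20], true, nat_lit 0, nat_lit 0, nat_lit 0, nat_lit 0, ⟨nat_lit 0, nat_lit 0, nat_lit 1000, nat_lit 5, nat_lit 65, nat_lit 0, nat_lit 0, nat_lit 0, nat_lit 0, nat_lit 215, nat_lit 40017, nat_lit 264, nat_lit 65250846, nat_lit 0, nat_lit 0, nat_lit 604652, false, false⟩,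
 nat_lit 0, nat_lit 0, nat_lit 0, nat_lit 3462, nat_lit 5280, nat_lit 0, nat_lit 0, nat_lit 0, nat_lit 0, nat_lit 0, nat_lit 0, nat_lit 0, nat_lit 0, nat_lit 0, nat_lit 60, nat_lit 400000, nat_lit 0, nat_lit 0, [(nat_lit 3, [(nat_lit 5, nat_lit 1000)])],
 ⟨p004_k51, nat_lit 0, nat_lit 0, nat_lit 206, nat_lit 0, nat_lit 0, [nat_lit 2770400000, nat_lit 2000000], [], [nat_lit 16310575602, nat_lit 16372245056, nat_lit 16037365225, nat_lit 16087516160], nat_lit 0, nat_lit 0, nat_lit 0, nat_lit 0, nat_lit 0, nat_lit 0, [], [nat_lit 51, nat_lit 40, nat_lit 20, nat_lit 80, nat_lit 1, nat_lit 289, nat_lit 75, nat_lit 9]⟩, C1.Rw.none,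
 ⟨nat_lit 6324, nat_lit 6345, ⟨.ofNat (nat_lit 158105), .ofNat (nat_lit 166350), .ofNat (nat_lit 160242), .ofNat (nat_lit 168487), .ofNat (nat_lit 158977), .ofNat (nat_lit 167203), .ofNat (nat_lit 161114), .ofNat (nat_lit 169340)⟩, ⟨.ofNat (nat_lit 0), .ofNat (nat_lit 0), .ofNat (nat_lit 0), .ofNat (nat_lit 0), .ofNat (nat_lit 0), .ofNat (nat_lit 0), .ofNat (nat_lit 0), .ofNat (nat_lit 0)⟩⟩, []⟩
noncomputable def p004_l248 : Lf2 := ⟨nat_lit 0, nat_lit 5, [nat_lit 4, nat_lit 5, nat_lit 5, nat_lit 20], false, nat_lit 0, nat_lit 0, nat_lit 0, nat_lit 0, ⟨nat_lit 384, nat_lit 0, nat_lit 616, nat_lit 5, nat_lit 66, nat_lit 0, nat_lit 0, nat_lit 0, nat_lit 0, nat_lit 215, nat_lit 40017, nat_lit 264, nat_lit 65235419, nat_lit 0, nat_lit 0, nat_lit 608814, false, false⟩,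
 nat_lit 0, nat_lit 0, nat_lit 6191, nat_lit 0, nat_lit 6874, nat_lit 3229, nat_lit 0, nat_lit 0, nat_lit 0, nat_lit 0, nat_lit 0, nat_lit 0, nat_lit 0, nat_lit 0, nat_lit 0, nat_lit 246400, nat_lit 0, nat_lit 0, [(nat_lit 3, [(nat_lit 5, nat_lit 616)])],
 ⟨p004_k46, nat_lit 0, nat_lit 0, nat_lit 228, nat_lit 0, nat_lit 0, [nat_lit 3367366401, nat_lit 2605350400, nat_lit 2745680000], [], [nat_lit 21851775402, nat_lit 21907872714, nat_lit 21482247342, nat_lit 21538365736], nat_lit 0, nat_lit 0, nat_lit 0, nat_lit 0, nat_lit 0, nat_lit 0, [], [nat_lit 25, nat_lit 40, nat_lit 20, nat_lit 80, nat_lit 17, nat_lit 289, nat_lit 75, nat_lit 9]⟩, ⟨p004_k44, nat_lit 0, nat_lit 0, nat_lit 0, nat_lit 0, nat_lit 30311, [nat_lit 2092608000, nat_lit 2722368000, nat_lit 3412032000], [], [nat_lit 10225793425, nat_lit 10252892476, nat_lit 10048125033, nat_lit 10075231073], nat_lit 1271250,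 nat_lit 1271250, nat_lit 88400, nat_lit 111251, nat_lit 0, nat_lit 0, [nat_lit 1271250, nat_lit 1271250, nat_lit 1271250], [nat_lit 96, nat_lit 40, nat_lit 20, nat_lit 40]⟩,
 ⟨nat_lit 6344, nat_lit 6364, ⟨.ofNat (nat_lit 159369), .ofNat (nat_lit 167633), .ofNat (nat_lit 160437), .ofNat (nat_lit 168702), .ofNat (nat_lit 160242), .ofNat (nat_lit 168487), .ofNat (nat_lit 161311), .ofNat (nat_lit 169556)⟩, ⟨.ofNat (nat_lit 0), .ofNat (nat_lit 0), .ofNat (nat_lit 0), .ofNat (nat_lit 0), .ofNat (nat_lit 0), .ofNat (nat_lit 0), .ofNat (nat_lit 0), .ofNat (nat_lit 0)⟩⟩, []⟩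
noncomputable def p004_l249 : Lf2 := ⟨nat_lit 3, nat_lit 5, [nat_lit 4, nat_lit 5, nat_lit 5, nat_lit 20], false, nat_lit 0, nat_lit 0, nat_lit 0, nat_lit 0, zbN0,
 nat_lit 0, nat_lit 0, nat_lit 0, nat_lit 0, nat_lit 0, nat_lit 0, nat_lit 0, nat_lit 0, nat_lit 0, nat_lit 0, nat_lit 0, nat_lit 0, nat_lit 0, nat_lit 0, nat_lit 0, nat_lit 0, nat_lit 0, nat_lit 0, [],
 C1.Rw.none, ⟨p004_k45, nat_lit 0, nat_lit 0, nat_lit 284, nat_lit 0, nat_lit 30311, [], [], [], nat_lit 1271250, nat_lit 1271250, nat_lit 88400, nat_lit 111251, nat_lit 0, nat_lit 0, [nat_lit 1412500, nat_lit 1271250], [nat_lit 51, nat_lit 40, nat_lit 20, nat_lit 80, nat_lit 1, nat_lit 289, nat_lit 75, nat_lit 9]⟩,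
 zbF0, []⟩
noncomputable def p004_l250 : Lf2 := ⟨nat_lit 0, nat_lit 5, [nat_lit 4, nat_lit 5, nat_lit 5, nat_lit 20], false, nat_lit 0, nat_lit 0, nat_lit 0, nat_lit 0, ⟨nat_lit 194, nat_lit 0, nat_lit 806, nat_lit 5, nat_lit 66, nat_lit 0, nat_lit 0, nat_lit 0, nat_lit 0, nat_lit 215, nat_lit 41667, nat_lit 265, nat_lit 65217348, nat_lit 0, nat_lit 0, nat_lit 613676, false, false⟩,
 nat_lit 0, nat_lit 0, nat_lit 3126, nat_lit 0, nat_lit 6085, nat_lit 1630, nat_lit 0, nat_lit 0, nat_lit 0, nat_lit 0, nat_lit 0, nat_lit 0, nat_lit 0, nat_lit 0, nat_lit 0, nat_lit 322400, nat_lit 0, nat_lit 0, [(nat_lit 3, [(nat_lit 5, nat_lit 806)])],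
 ⟨p004_k47, nat_lit 0, nat_lit 0, nat_lit 229, nat_lit 0, nat_lit 0, [nat_lit 2478242400, nat_lit 951286400, nat_lit 556880000], [], [nat_lit 19138494879, nat_lit 19204221892, nat_lit 18816652906, nat_lit 18869817520], nat_lit 0, nat_lit 0, nat_lit 0, nat_lit 0, nat_lit 0, nat_lit 0, [], [nat_lit 25, nat_lit 40, nat_lit 20, nat_lit 80, nat_lit 17, nat_lit 289, nat_lit 75, nat_lit 9]⟩, ⟨p004_k44, nat_lit 0, nat_lit 0, nat_lit 0, nat_lit 0, nat_lit 34815, [nat_lit 1057203000, nat_lit 1375363000, nat_lit 1723787000], [], [nat_lit 5166920372, nat_lit 5180604950, nat_lit 5077240731, nat_lit 5090928831], nat_lit 1271250, nat_lit 1271250, nat_lit 88400, nat_lit 111251, nat_lit 0, nat_lit 0, [nat_lit 1271250, nat_lit 1271250, nat_lit 1271250], [nat_lit 96, nat_lit 40, nat_lit 20, nat_lit 40]⟩,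
 ⟨nat_lit 6324, nat_lit 6345, ⟨.ofNat (nat_lit 160242), .ofNat (nat_lit 168487), .ofNat (nat_lit 161311), .ofNat (nat_lit 169556), .ofNat (nat_lit 161114), .ofNat (nat_lit 169340), .ofNat (nat_lit 162182), .ofNat (nat_lit 170408)⟩, ⟨.ofNat (nat_lit 0), .ofNat (nat_lit 0), .ofNat (nat_lit 0), .ofNat (nat_lit 0), .ofNat (nat_lit 0), .ofNat (nat_lit 0), .ofNat (nat_lit 0), .ofNat (nat_lit 0)⟩⟩, []⟩
noncomputable def p004_l251 : Lf2 := ⟨nat_lit 0, nat_lit 5, [nat_lit 4, nat_lit 5, nat_lit 5, nat_lit 20], true, nat_lit 0, nat_lit 0, nat_lit 0, nat_lit 0, ⟨nat_lit 0, nat_lit 0, nat_lit 1000, nat_lit 5, nat_lit 66, nat_lit 0, nat_lit 0, nat_lit 0, nat_lit 0, nat_lit 215, nat_lit 41667, nat_lit 265, nat_lit 65217348, nat_lit 0, nat_lit 0, nat_lit 613676, false, false⟩,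
 nat_lit 0, nat_lit 0, nat_lit 0, nat_lit 3464, nat_lit 3028, nat_lit 0, nat_lit 0, nat_lit 0, nat_lit 150, nat_lit 0, nat_lit 0, nat_lit 0, nat_lit 0, nat_lit 0, nat_lit 60, nat_lit 400000, nat_lit 0, nat_lit 0, [(nat_lit 3, [(nat_lit 5, nat_lit 1000)])],
 ⟨p004_k47, nat_lit 0, nat_lit 0, nat_lit 0, nat_lit 0, nat_lit 0, [nat_lit 2770400000, nat_lit 702400001, nat_lit 2000000], [], [nat_lit 10456611154, nat_lit 10512232301, nat_lit 10322146922, nat_lit 10372691008], nat_lit 0, nat_lit 0, nat_lit 0, nat_lit 0, nat_lit 0, nat_lit 0, [], [nat_lit 25, nat_lit 40, nat_lit 20, nat_lit 80]⟩, C1.Rw.none,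
 ⟨nat_lit 6324, nat_lit 6345, ⟨.ofNat (nat_lit 160242), .ofNat (nat_lit 168487), .ofNat (nat_lit 161311), .ofNat (nat_lit 169556), .ofNat (nat_lit 161114), .ofNat (nat_lit 169340), .ofNat (nat_lit 162182), .ofNat (nat_lit 170408)⟩, ⟨.ofNat (nat_lit 0), .ofNat (nat_lit 0), .ofNat (nat_lit 0), .ofNat (nat_lit 0), .ofNat (nat_lit 0), .ofNat (nat_lit 0), .ofNat (nat_lit 0), .ofNat (nat_lit 0)⟩⟩, []⟩
noncomputable def p004_l252 : Lf2 := ⟨nat_lit 0, nat_lit 5, [nat_lit 4, nat_lit 5, nat_lit 5, nat_lit 20], true, nat_lit 0, nat_lit 0, nat_lit 0, nat_lit 0, ⟨nat_lit 0, nat_lit 0, nat_lit 1000, nat_lit 5, nat_lit 66, nat_lit 0, nat_lit 0, nat_lit 0, nat_lit 0, nat_lit 215, nat_lit 41667, nat_lit 265, nat_lit 65217348, nat_lit 0, nat_lit 0, nat_lit 613676, false, false⟩,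
 nat_lit 0, nat_lit 0, nat_lit 0, nat_lit 3464, nat_lit 4774, nat_lit 0, nat_lit 0, nat_lit 0, nat_lit 0, nat_lit 0, nat_lit 0, nat_lit 0, nat_lit 0, nat_lit 0, nat_lit 54, nat_lit 400000, nat_lit 0, nat_lit 0, [(nat_lit 3, [(nat_lit 5, nat_lit 1000)])],
 ⟨p004_k50, nat_lit 0, nat_lit 0, nat_lit 0, nat_lit 0, nat_lit 0, [nat_lit 2385360001, nat_lit 965600001, nat_lit 151199999], [], [nat_lit 14671129450, nat_lit 14734383422, nat_lit 14428873535, nat_lit 14482644800], nat_lit 0, nat_lit 0, nat_lit 0, nat_lit 0, nat_lit 0, nat_lit 0, [], [nat_lit 96, nat_lit 40, nat_lit 20, nat_lit 40]⟩, C1.Rw.none,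
 ⟨nat_lit 6324, nat_lit 6345, ⟨.ofNat (nat_lit 160242), .ofNat (nat_lit 168487), .ofNat (nat_lit 161311), .ofNat (nat_lit 169556), .ofNat (nat_lit 161114), .ofNat (nat_lit 169340), .ofNat (nat_lit 162182), .ofNat (nat_lit 170408)⟩, ⟨.ofNat (nat_lit 0), .ofNat (nat_lit 0), .ofNat (nat_lit 0), .ofNat (nat_lit 0), .ofNat (nat_lit 0), .ofNat (nat_lit 0), .ofNat (nat_lit 0), .ofNat (nat_lit 0)⟩⟩, []⟩
noncomputable def p004_l253 : Lf2 := ⟨nat_lit 2, nat_lit 5, [nat_lit 4, nat_lit 5, nat_lit 5, nat_lit 20], true, nat_lit 0, nat_lit 0, nat_lit 0, nat_lit 0, zbN0,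
 nat_lit 0, nat_lit 0, nat_lit 0, nat_lit 0, nat_lit 0, nat_lit 0, nat_lit 0, nat_lit 0, nat_lit 0, nat_lit 0, nat_lit 0, nat_lit 0, nat_lit 0, nat_lit 0, nat_lit 0, nat_lit 0, nat_lit 0, nat_lit 0, [],
 ⟨p004_k51, nat_lit 0, nat_lit 0, nat_lit 206, nat_lit 0, nat_lit 0, [], [], [], nat_lit 0, nat_lit 0, nat_lit 0, nat_lit 0, nat_lit 0, nat_lit 0, [], [nat_lit 51, nat_lit 40, nat_lit 20, nat_lit 80, nat_lit 1, nat_lit 289, nat_lit 75, nat_lit 9]⟩, C1.Rw.none,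
 zbF0, []⟩
noncomputable def p004_l254 : Lf2 := ⟨nat_lit 3, nat_lit 5, [nat_lit 4, nat_lit 5, nat_lit 5, nat_lit 20], false, nat_lit 0, nat_lit 0, nat_lit 0, nat_lit 0, zbN0,
 nat_lit 0, nat_lit 0, nat_lit 0, nat_lit 0, nat_lit 0, nat_lit 0, nat_lit 0, nat_lit 0, nat_lit 0, nat_lit 0, nat_lit 0, nat_lit 0, nat_lit 0, nat_lit 0, nat_lit 0, nat_lit 0, nat_lit 0, nat_lit 0, [],
 C1.Rw.none, ⟨p004_k45, nat_lit 0, nat_lit 0, nat_lit 285, nat_lit 0, nat_lit 34815, [], [], [], nat_lit 1271250, nat_lit 1271250, nat_lit 88400, nat_lit 111251, nat_lit 0, nat_lit 0, [nat_lit 1412500, nat_lit 1271250], [nat_lit 51, nat_lit 40, nat_lit 20, nat_lit 80, nat_lit 1, nat_lit 289, nat_lit 75, nat_lit 9]⟩,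
 zbF0, []⟩
noncomputable def p004_l255 : Lf2 := ⟨nat_lit 1, nat_lit 5, [nat_lit 4, nat_lit 5, nat_lit 5, nat_lit 20], false, nat_lit 0, nat_lit 0, nat_lit 0, nat_lit 0, zbN0,
 nat_lit 0, nat_lit 0, nat_lit 0, nat_lit 0, nat_lit 0, nat_lit 0, nat_lit 0, nat_lit 0, nat_lit 0, nat_lit 0, nat_lit 0, nat_lit 0, nat_lit 0, nat_lit 0, nat_lit 0, nat_lit 0, nat_lit 0, nat_lit 0, [],
 C1.Rw.none, C1.Rw.none,
 zbF0, []⟩
noncomputable def p004_l256 : Lf2 := ⟨nat_lit 0, nat_lit 5, [nat_lit 4, nat_lit 5, nat_lit 5, nat_lit 20], false, nat_lit 0, nat_lit 0, nat_lit 0, nat_lit 0, ⟨nat_lit 191, nat_lit 0, nat_lit 809, nat_lit 5, nat_lit 66, nat_lit 0, nat_lit 0, nat_lit 0, nat_lit 0, nat_lit 215, nat_lit 41667, nat_lit 265, nat_lit 65213024, nat_lit 0, nat_lit 0, nat_lit 614837, false, false⟩,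
 nat_lit 0, nat_lit 0, nat_lit 3063, nat_lit 0, nat_lit 6074, nat_lit 1605, nat_lit 0, nat_lit 0, nat_lit 0, nat_lit 0, nat_lit 0, nat_lit 0, nat_lit 0, nat_lit 6655073005083, nat_lit 0, nat_lit 323600, nat_lit 0, nat_lit 0, [(nat_lit 3, [(nat_lit 5, nat_lit 809)])],
 ⟨p004_k46, nat_lit 0, nat_lit 0, nat_lit 228, nat_lit 0, nat_lit 0, [nat_lit 2464203601, nat_lit 925169601, nat_lit 522320000], [], [nat_lit 19041089050, nat_lit 19094942756, nat_lit 18719896862, nat_lit 18773020296], nat_lit 0, nat_lit 0, nat_lit 0, nat_lit 0, nat_lit 0, nat_lit 0, [], [nat_lit 25, nat_lit 40, nat_lit 20, nat_lit 80, nat_lit 17, nat_lit 289, nat_lit 75, nat_lit 9]⟩, ⟨p004_k48, nat_lit 0, nat_lit 0, nat_lit 0, nat_lit 0, nat_lit 34599, [nat_lit 1040854500, nat_lit 1354094500, nat_lit 1697130500], [], [nat_lit 5100373860, nat_lit 5114915778, nat_lit 5012071983, nat_lit 5025549366], nat_lit 1271250,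 nat_lit 1271250, nat_lit 88400, nat_lit 111251, nat_lit 0, nat_lit 0, [nat_lit 1271250, nat_lit 1271250, nat_lit 1271250], [nat_lit 96, nat_lit 40, nat_lit 20, nat_lit 40]⟩,
 ⟨nat_lit 6344, nat_lit 6364, ⟨.ofNat (nat_lit 160437), .ofNat (nat_lit 168702), .ofNat (nat_lit 161506), .ofNat (nat_lit 169771), .ofNat (nat_lit 161311), .ofNat (nat_lit 169556), .ofNat (nat_lit 162379), .ofNat (nat_lit 170625)⟩, ⟨.ofNat (nat_lit 0), .ofNat (nat_lit 0), .ofNat (nat_lit 0), .ofNat (nat_lit 0), .ofNat (nat_lit 0), .ofNat (nat_lit 0), .ofNat (nat_lit 0), .ofNat (nat_lit 0)⟩⟩, []⟩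
noncomputable def p004_l257 : Lf2 := ⟨nat_lit 3, nat_lit 5, [nat_lit 4, nat_lit 5, nat_lit 5, nat_lit 20], false, nat_lit 0, nat_lit 0, nat_lit 0, nat_lit 0, zbN0,
 nat_lit 0, nat_lit 0, nat_lit 0, nat_lit 0, nat_lit 0, nat_lit 0, nat_lit 0, nat_lit 0, nat_lit 0, nat_lit 0, nat_lit 0, nat_lit 0, nat_lit 0, nat_lit 0, nat_lit 0, nat_lit 0, nat_lit 0, nat_lit 0, [],
 C1.Rw.none, ⟨p004_k49, nat_lit 0, nat_lit 0, nat_lit 285, nat_lit 0, nat_lit 34599, [], [], [], nat_lit 1271250, nat_lit 1271250, nat_lit 88400, nat_lit 111251, nat_lit 0, nat_lit 0, [nat_lit 1412500, nat_lit 1271250], [nat_lit 51, nat_lit 40, nat_lit 20, nat_lit 80, nat_lit 1, nat_lit 289, nat_lit 75, nat_lit 9]⟩,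
 zbF0, []⟩
noncomputable def p004_l258 : Lf2 := ⟨nat_lit 1, nat_lit 5, [nat_lit 4, nat_lit 5, nat_lit 5, nat_lit 20], false, nat_lit 0, nat_lit 0, nat_lit 0, nat_lit 0, zbN0,
 nat_lit 0, nat_lit 0, nat_lit 0, nat_lit 0, nat_lit 0, nat_lit 0, nat_lit 0, nat_lit 0, nat_lit 0, nat_lit 0, nat_lit 0, nat_lit 0, nat_lit 0, nat_lit 0, nat_lit 0, nat_lit 0, nat_lit 0, nat_lit 0, [],
 C1.Rw.none, C1.Rw.none,
 zbF0, []⟩
noncomputable def p004_l259 : Lf2 := ⟨nat_lit 0, nat_lit 5, [nat_lit 4, nat_lit 5, nat_lit 5, nat_lit 20], false, nat_lit 0, nat_lit 0, nat_lit 0, nat_lit 0, ⟨nat_lit 191, nat_lit 0, nat_lit 809, nat_lit 5, nat_lit 67, nat_lit 0, nat_lit 0, nat_lit 0, nat_lit 0, nat_lit 215, nat_lit 41667, nat_lit 265, nat_lit 65194855, nat_lit 0, nat_lit 0, nat_lit 619708, false, false⟩,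
 nat_lit 0, nat_lit 0, nat_lit 3063, nat_lit 0, nat_lit 6074, nat_lit 1605, nat_lit 0, nat_lit 0, nat_lit 0, nat_lit 0, nat_lit 0, nat_lit 0, nat_lit 0, nat_lit 0, nat_lit 0, nat_lit 323600, nat_lit 0, nat_lit 0, [(nat_lit 3, [(nat_lit 5, nat_lit 809)])],
 ⟨p004_k47, nat_lit 0, nat_lit 0, nat_lit 229, nat_lit 0, nat_lit 0, [nat_lit 2464203601, nat_lit 925169601, nat_lit 522320000], [], [nat_lit 19094942756, nat_lit 19161502805, nat_lit 18773020296, nat_lit 18826143729], nat_lit 0, nat_lit 0, nat_lit 0, nat_lit 0, nat_lit 0, nat_lit 0, [], [nat_lit 25, nat_lit 40, nat_lit 20, nat_lit 80, nat_lit 17, nat_lit 289, nat_lit 75, nat_lit 9]⟩, ⟨p004_k48, nat_lit 0, nat_lit 0, nat_lit 0, nat_lit 0, nat_lit 39053, [nat_lit 1040854500, nat_lit 1354094500, nat_lit 1697130500], [], [nat_lit 5100373860, nat_lit 5114915778, nat_lit 5012071983, nat_lit 5025549366], nat_lit 1271250, nat_lit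 1271250, nat_lit 88400, nat_lit 111251, nat_lit 0, nat_lit 0, [nat_lit 1271250, nat_lit 1271250, nat_lit 1271250], [nat_lit 96, nat_lit 40, nat_lit 20, nat_lit 40]⟩,
 ⟨nat_lit 6324, nat_lit 6345, ⟨.ofNat (nat_lit 161311), .ofNat (nat_lit 169556), .ofNat (nat_lit 162379), .ofNat (nat_lit 170625), .ofNat (nat_lit 162182), .ofNat (nat_lit 170408), .ofNat (nat_lit 163250), .ofNat (nat_lit 171477)⟩, ⟨.ofNat (nat_lit 0), .ofNat (nat_lit 0), .ofNat (nat_lit 0), .ofNat (nat_lit 0), .ofNat (nat_lit 0), .ofNat (nat_lit 0), .ofNat (nat_lit 0), .ofNat (nat_lit 0)⟩⟩, []⟩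
noncomputable def p004_l260 : Lf2 := ⟨nat_lit 3, nat_lit 5, [nat_lit 4, nat_lit 5, nat_lit 5, nat_lit 20], false, nat_lit 0, nat_lit 0, nat_lit 0, nat_lit 0, zbN0,
 nat_lit 0, nat_lit 0, nat_lit 0, nat_lit 0, nat_lit 0, nat_lit 0, nat_lit 0, nat_lit 0, nat_lit 0, nat_lit 0, nat_lit 0, nat_lit 0, nat_lit 0, nat_lit 0, nat_lit 0, nat_lit 0, nat_lit 0, nat_lit 0, [],
 C1.Rw.none, ⟨p004_k49, nat_lit 0, nat_lit 0, nat_lit 287, nat_lit 0, nat_lit 39053, [], [], [], nat_lit 1271250, nat_lit 1271250, nat_lit 88400, nat_lit 111251, nat_lit 0, nat_lit 0, [nat_lit 1412500, nat_lit 1271250], [nat_lit 51, nat_lit 40, nat_lit 20, nat_lit 80, nat_lit 1, nat_lit 289, nat_lit 75, nat_lit 9]⟩,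
 zbF0, []⟩
noncomputable def p004_l261 : Lf2 := ⟨nat_lit 0, nat_lit 5, [nat_lit 4, nat_lit 5, nat_lit 5, nat_lit 20], false, nat_lit 0, nat_lit 0, nat_lit 0, nat_lit 0, ⟨nat_lit 1000, nat_lit 0, nat_lit 0, nat_lit 0, nat_lit 0, nat_lit 0, nat_lit 0, nat_lit 0, nat_lit 0, nat_lit 0, nat_lit 0, nat_lit 0, nat_lit 0, nat_lit 0, nat_lit 0, nat_lit 0, false, false⟩,
 nat_lit 0, nat_lit 0, nat_lit 16020, nat_lit 0, nat_lit 9414, nat_lit 8398, nat_lit 0, nat_lit 0, nat_lit 0, nat_lit 0, nat_lit 0, nat_lit 0, nat_lit 0, nat_lit 0, nat_lit 0, nat_lit 0, nat_lit 0, nat_lit 0, [],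
 ⟨p004_k47, nat_lit 0, nat_lit 0, nat_lit 229, nat_lit 0, nat_lit 0, [nat_lit 6250000000, nat_lit 7968000001, nat_lit 9842000000], [], [nat_lit 30893534472, nat_lit 30959120664, nat_lit 30370581217, nat_lit 30436208608], nat_lit 0, nat_lit 0, nat_lit 0, nat_lit 0, nat_lit 0, nat_lit 0, [], [nat_lit 25, nat_lit 40, nat_lit 20, nat_lit 80, nat_lit 17, nat_lit 289, nat_lit 75, nat_lit 9]⟩, ⟨p004_k48, nat_lit 0, nat_lit 0, nat_lit 0, nat_lit 0, nat_lit 7500, [nat_lit 5449500000, nat_lit 7089500000, nat_lit 8885500000], [], [nat_lit 26706486480, nat_lit 26777006775, nat_lit 26244484747, nat_lit 26315023174], nat_lit 1271250, nat_lit 1271250, nat_lit 88400, nat_lit 111251, nat_lit 0, nat_lit 0, [nat_lit 1271250, nat_lit 1271250, nat_lit 1271250], [nat_lit 96, nat_lit 40, nat_lit 20, nat_lit 40]⟩,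
 zbF0, []⟩
noncomputable def p004_l262 : Lf2 := ⟨nat_lit 3, nat_lit 5, [nat_lit 4, nat_lit 5, nat_lit 5, nat_lit 20], false, nat_lit 0, nat_lit 0, nat_lit 0, nat_lit 0, zbN0,
 nat_lit 0, nat_lit 0, nat_lit 0, nat_lit 0, nat_lit 0, nat_lit 0, nat_lit 0, nat_lit 0, nat_lit 0, nat_lit 0, nat_lit 0, nat_lit 0, nat_lit 0, nat_lit 0, nat_lit 0, nat_lit 0, nat_lit 0, nat_lit 0, [],
 C1.Rw.none, ⟨p004_k49, nat_lit 0, nat_lit 0, nat_lit 263, nat_lit 0, nat_lit 7500, [], [], [], nat_lit 1271250, nat_lit 1271250, nat_lit 88400, nat_lit 111251, nat_lit 0, nat_lit 0, [nat_lit 1412500, nat_lit 1271250], [nat_lit 51, nat_lit 40, nat_lit 20, nat_lit 80, nat_lit 1, nat_lit 289, nat_lit 75, nat_lit 9]⟩,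
 zbF0, []⟩
noncomputable def p004_l263 : Lf2 := ⟨nat_lit 0, nat_lit 5, [nat_lit 4, nat_lit 5, nat_lit 5, nat_lit 20], false, nat_lit 0, nat_lit 0, nat_lit 0, nat_lit 0, ⟨nat_lit 185, nat_lit 0, nat_lit 815, nat_lit 5, nat_lit 67, nat_lit 0, nat_lit 0, nat_lit 0, nat_lit 0, nat_lit 215, nat_lit 41667, nat_lit 265, nat_lit 65172232, nat_lit 0, nat_lit 0, nat_lit 625753, false, false⟩,
 nat_lit 0, nat_lit 0, nat_lit 2947, nat_lit 0, nat_lit 6037, nat_lit 1552, nat_lit 0, nat_lit 0, nat_lit 0, nat_lit 0, nat_lit 0, nat_lit 0, nat_lit 0, nat_lit 6825229415478, nat_lit 0, nat_lit 326000, nat_lit 0, nat_lit 0, [(nat_lit 3, [(nat_lit 5, nat_lit 815)])],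
 ⟨p004_k47, nat_lit 0, nat_lit 0, nat_lit 229, nat_lit 0, nat_lit 0, [nat_lit 2436126000, nat_lit 872936000, nat_lit 453200000], [], [nat_lit 19011469349, nat_lit 19064938603, nat_lit 18692527148, nat_lit 18745512064], nat_lit 0, nat_lit 0, nat_lit 0, nat_lit 0, nat_lit 0, nat_lit 0, [], [nat_lit 25, nat_lit 40, nat_lit 20, nat_lit 80, nat_lit 17, nat_lit 289, nat_lit 75, nat_lit 9]⟩, ⟨p004_k50, nat_lit 0, nat_lit 0, nat_lit 0, nat_lit 0, nat_lit 43245, [nat_lit 1008157500, nat_lit 1311557500, nat_lit 1643817500], [], [nat_lit 4954676650, nat_lit 4968701776, nat_lit 4869308513, nat_lit 4882350580], nat_lit 1271250, nat_lit 1271250, nat_lit 88400, nat_lit 111251, nat_lit 0, nat_lit 0, [nat_lit 1271250, nat_lit 1271250, nat_lit 1271250], [nat_lit 96, nat_lit 40, nat_lit 20, nat_lit 40]⟩,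
 ⟨nat_lit 6324, nat_lit 6345, ⟨.ofNat (nat_lit 162379), .ofNat (nat_lit 170625), .ofNat (nat_lit 163448), .ofNat (nat_lit 171693), .ofNat (nat_lit 163250), .ofNat (nat_lit 171477), .ofNat (nat_lit 164319), .ofNat (nat_lit 172545)⟩, ⟨.ofNat (nat_lit 0), .ofNat (nat_lit 0), .ofNat (nat_lit 0), .ofNat (nat_lit 0), .ofNat (nat_lit 0), .ofNat (nat_lit 0), .ofNat (nat_lit 0), .ofNat (nat_lit 0)⟩⟩, []⟩
noncomputable def p004_l264 : Lf2 := ⟨nat_lit 3, nat_lit 5, [nat_lit 4, nat_lit 5, nat_lit 5, nat_lit 20], false, nat_lit 0, nat_lit 0, nat_lit 0, nat_lit 0, zbN0,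
 nat_lit 0, nat_lit 0, nat_lit 0, nat_lit 0, nat_lit 0, nat_lit 0, nat_lit 0, nat_lit 0, nat_lit 0, nat_lit 0, nat_lit 0, nat_lit 0, nat_lit 0, nat_lit 0, nat_lit 0, nat_lit 0, nat_lit 0, nat_lit 0, [],
 C1.Rw.none, ⟨p004_k51, nat_lit 0, nat_lit 0, nat_lit 289, nat_lit 0, nat_lit 43245, [], [], [], nat_lit 1271250, nat_lit 1271250, nat_lit 88400, nat_lit 111251, nat_lit 0, nat_lit 0, [nat_lit 1412500, nat_lit 1271250], [nat_lit 51, nat_lit 40, nat_lit 20, nat_lit 80, nat_lit 1, nat_lit 289, nat_lit 75, nat_lit 9]⟩,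
 zbF0, []⟩
noncomputable def p004_l265 : Lf2 := ⟨nat_lit 0, nat_lit 5, [nat_lit 4, nat_lit 5, nat_lit 5, nat_lit 20], false, nat_lit 0, nat_lit 0, nat_lit 0, nat_lit 0, ⟨nat_lit 1000, nat_lit 0, nat_lit 0, nat_lit 0, nat_lit 0, nat_lit 0, nat_lit 0, nat_lit 0, nat_lit 0, nat_lit 0, nat_lit 0, nat_lit 0, nat_lit 0, nat_lit 0, nat_lit 0, nat_lit 0, false, false⟩,
 nat_lit 0, nat_lit 0, nat_lit 15915, nat_lit 0, nat_lit 9414, nat_lit 8384, nat_lit 0, nat_lit 0, nat_lit 0, nat_lit 0, nat_lit 0, nat_lit 0, nat_lit 0, nat_lit 0, nat_lit 0, nat_lit 0, nat_lit 0, nat_lit 0, [],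
 ⟨p004_k47, nat_lit 0, nat_lit 0, nat_lit 229, nat_lit 0, nat_lit 0, [nat_lit 6250000000, nat_lit 7968000001, nat_lit 9842000000], [], [nat_lit 30893534472, nat_lit 30959120664, nat_lit 30370581217, nat_lit 30436208608], nat_lit 0, nat_lit 0, nat_lit 0, nat_lit 0, nat_lit 0, nat_lit 0, [], [nat_lit 25, nat_lit 40, nat_lit 20, nat_lit 80, nat_lit 17, nat_lit 289, nat_lit 75, nat_lit 9]⟩, ⟨p004_k50, nat_lit 0, nat_lit 0, nat_lit 0, nat_lit 0, nat_lit 11215, [nat_lit 5449500000, nat_lit 7089500000, nat_lit 8885500000], [], [nat_lit 26784997912, nat_lit 26855453524, nat_lit 26323863148, nat_lit 26394336800], nat_lit 1271250, nat_lit 1271250, nat_lit 88400, nat_lit 111251, nat_lit 0, nat_lit 0, [nat_lit 1271250, nat_lit 1271250, nat_lit 1271250], [nat_lit 96, nat_lit 40, nat_lit 20, nat_lit 40]⟩,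
 zbF0, []⟩
noncomputable def p004_l266 : Lf2 := ⟨nat_lit 3, nat_lit 5, [nat_lit 4, nat_lit 5, nat_lit 5, nat_lit 20], false, nat_lit 0, nat_lit 0, nat_lit 0, nat_lit 0, zbN0,
 nat_lit 0, nat_lit 0, nat_lit 0, nat_lit 0, nat_lit 0, nat_lit 0, nat_lit 0, nat_lit 0, nat_lit 0, nat_lit 0, nat_lit 0, nat_lit 0, nat_lit 0, nat_lit 0, nat_lit 0, nat_lit 0, nat_lit 0, nat_lit 0, [],
 C1.Rw.none, ⟨p004_k51, nat_lit 0, nat_lit 0, nat_lit 263, nat_lit 0, nat_lit 11215, [], [], [], nat_lit 1271250, nat_lit 1271250, nat_lit 88400, nat_lit 111251, nat_lit 0, nat_lit 0, [nat_lit 1412500, nat_lit 1271250], [nat_lit 51, nat_lit 40, nat_lit 20, nat_lit 80, nat_lit 1, nat_lit 289, nat_lit 75, nat_lit 9]⟩,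
 zbF0, []⟩
noncomputable def b_NL_550_550_0_7 : St := ⟨false, nat_lit 0, nat_lit 1, nat_lit 1, nat_lit 20, nat_lit 230, nat_lit 240, nat_lit 230, nat_lit 240, nat_lit 16, nat_lit 20, nat_lit 0, nat_lit 0, nat_lit 0, nat_lit 0, nat_lit 0, nat_lit 0, nat_lit 20, nat_lit 40, nat_lit 0, nat_lit 0, nat_lit 0, nat_lit 0⟩
theorem d_NL_550_550_0_7 (h : EB TB.env) : Dead b_NL_550_550_0_7 := chkB_sound0 h (T :=
(.spl (nat_lit 6) (nat_lit 32)
(.leaf p004_l230)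
(.spl (nat_lit 1) (nat_lit 235)
(.leaf p004_l231)
(.ord (.spl (nat_lit 0) (nat_lit 238)
(.ord (.spl (nat_lit 0) (nat_lit 237)
(.ord (.spl (nat_lit 0) (nat_lit 236)
(.ord (.leaf p004_l232))
(.spl (nat_lit 6) (nat_lit 36)
(.spl (nat_lit 1) (nat_lit 236)
(.leaf p004_l233)
(.spl (nat_lit 8) (nat_lit 800)
(.leaf p004_l234)
(.leaf p004_l235)))
(.leaf p004_l236))))
(.spl (nat_lit 6) (nat_lit 36)
(.spl (nat_lit 1) (nat_lit 237)
(.spl (nat_lit 1) (nat_lit 236)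
(.leaf p004_l237)
(.spl (nat_lit 8) (nat_lit 800)
(.leaf p004_l238)
(.leaf p004_l239)))
(.spl (nat_lit 8) (nat_lit 800)
(.spl (nat_lit 7) (nat_lit 600)
(.leaf p004_l240)
(.leaf p004_l241))
(.leaf p004_l242)))
(.leaf p004_l243))))
(.spl (nat_lit 1) (nat_lit 238)
(.spl (nat_lit 6) (nat_lit 36)
(.spl (nat_lit 1) (nat_lit 237)
(.spl (nat_lit 0) (nat_lit 239)
(.spl (nat_lit 1) (nat_lit 236)
(.leaf p004_l244)
(.spl (nat_lit 8) (nat_lit 800)
(.leaf p004_l245)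
(.leaf p004_l246)))
(.leaf p004_l247))
(.spl (nat_lit 0) (nat_lit 239)
(.spl (nat_lit 8) (nat_lit 800)
(.leaf p004_l248)
(.leaf p004_l249))
(.spl (nat_lit 8) (nat_lit 800)
(.spl (nat_lit 8) (nat_lit 400)
(.leaf p004_l250)
(.spl (nat_lit 7) (nat_lit 600)
(.spl (nat_lit 7) (nat_lit 300)
(.leaf p004_l251)
(.leaf p004_l252))
(.leaf p004_l253)))
(.leaf p004_l254))))
(.leaf p004_l255))
(.spl (nat_lit 0) (nat_lit 239)
(.ord (.spl (nat_lit 6) (nat_lit 36)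
(.spl (nat_lit 8) (nat_lit 800)
(.leaf p004_l256)
(.leaf p004_l257))
(.leaf p004_l258)))
(.spl (nat_lit 1) (nat_lit 239)
(.spl (nat_lit 6) (nat_lit 36)
(.spl (nat_lit 8) (nat_lit 800)
(.leaf p004_l259)
(.leaf p004_l260))
(.spl (nat_lit 8) (nat_lit 800)
(.leaf p004_l261)
(.leaf p004_l262)))
(.spl (nat_lit 6) (nat_lit 36)
(.spl (nat_lit 8) (nat_lit 800)
(.leaf p004_l263)
(.leaf p004_l264))
(.spl (nat_lit 8) (nat_lit 800)
(.leaf p004_l265)
(.leaf p004_l266))))))))))) (by decide +kernel)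
noncomputable def p004_l267 : Lf2 := ⟨nat_lit 0, nat_lit 1, [nat_lit 19, nat_lit 5, nat_lit 5, nat_lit 20], false, nat_lit 0, nat_lit 0, nat_lit 0, nat_lit 0, ⟨nat_lit 1000, nat_lit 0, nat_lit 0, nat_lit 0, nat_lit 0, nat_lit 0, nat_lit 0, nat_lit 0, nat_lit 0, nat_lit 0, nat_lit 0, nat_lit 0, nat_lit 0, nat_lit 0, nat_lit 0, nat_lit 0, false, false⟩,
 nat_lit 0, nat_lit 27972, nat_lit 0, nat_lit 0, nat_lit 13377, nat_lit 0, nat_lit 632, nat_lit 0, nat_lit 0, nat_lit 0, nat_lit 0, nat_lit 538, nat_lit 0, nat_lit 14942042191372, nat_lit 0, nat_lit 0, nat_lit 0, nat_lit 0, [],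
 ⟨p004_k52, nat_lit 0, nat_lit 0, nat_lit 293, nat_lit 0, nat_lit 205112, [nat_lit 6250000000, nat_lit 7968000000], [], [nat_lit 25723471256, nat_lit 25614563138, nat_lit 25618348162, nat_lit 25276199015], nat_lit 1271250, nat_lit 1271250, nat_lit 21650, nat_lit 43600, nat_lit 0, nat_lit 0, [nat_lit 1412500, nat_lit 1271250], [nat_lit 26, nat_lit 40, nat_lit 20, nat_lit 80, nat_lit 2, nat_lit 272, nat_lit 60, nat_lit 10]⟩, ⟨p004_k53, nat_lit 0, nat_lit 0, nat_lit 0, nat_lit 0, nat_lit 0, [nat_lit 5449500000, nat_lit 6250000000, nat_lit 7089500000], [], [nat_lit 5344143200, nat_lit 5382833600, nat_lit 5388914400, nat_lit 5427571000], nat_lit 0, nat_lit 0, nat_lit 0, nat_lit 0, nat_lit 0, nat_lit 0, [], [nat_lit 188, nat_lit 40, nat_lit 20, nat_lit 40]⟩,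
 zbF0, [⟨nat_lit 0, nat_lit 100, nat_lit 100, nat_lit 20, nat_lit 972327142⟩]⟩
noncomputable def p004_l268 : Lf2 := ⟨nat_lit 0, nat_lit 1, [nat_lit 19, nat_lit 5, nat_lit 5, nat_lit 20], false, nat_lit 0, nat_lit 0, nat_lit 0, nat_lit 0, ⟨nat_lit 1000, nat_lit 0, nat_lit 0, nat_lit 0, nat_lit 0, nat_lit 0, nat_lit 0, nat_lit 0, nat_lit 0, nat_lit 0, nat_lit 0, nat_lit 0, nat_lit 0, nat_lit 0, nat_lit 0, nat_lit 0, false, false⟩,
 nat_lit 0, nat_lit 27972, nat_lit 0, nat_lit 0, nat_lit 13377, nat_lit 0, nat_lit 632, nat_lit 0, nat_lit 0, nat_lit 0, nat_lit 0, nat_lit 538, nat_lit 0, nat_lit 14942042191372, nat_lit 0, nat_lit 0, nat_lit 0, nat_lit 0, [],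
 ⟨p004_k52, nat_lit 0, nat_lit 0, nat_lit 293, nat_lit 0, nat_lit 205112, [nat_lit 6250000000, nat_lit 7968000000], [], [nat_lit 25723471256, nat_lit 25614563138, nat_lit 25618348162, nat_lit 25276199015], nat_lit 1271250, nat_lit 1271250, nat_lit 21650, nat_lit 43600, nat_lit 0, nat_lit 0, [nat_lit 1412500, nat_lit 1271250], [nat_lit 26, nat_lit 40, nat_lit 20, nat_lit 80, nat_lit 2, nat_lit 272, nat_lit 60, nat_lit 10]⟩, ⟨p004_k53, nat_lit 0, nat_lit 0, nat_lit 0, nat_lit 0, nat_lit 0, [nat_lit 5449500000, nat_lit 6250000000, nat_lit 7089500000], [], [nat_lit 5344143200, nat_lit 5382833600, nat_lit 5388914400, nat_lit 5427571000], nat_lit 0, nat_lit 0, nat_lit 0, nat_lit 0, nat_lit 0, nat_lit 0, [], [nat_lit 188, nat_lit 40, nat_lit 20, nat_lit 40]⟩,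
 zbF0, [⟨nat_lit 0, nat_lit 100, nat_lit 100, nat_lit 20, nat_lit 972327142⟩]⟩
noncomputable def p004_l269 : Lf2 := ⟨nat_lit 0, nat_lit 1, [nat_lit 19, nat_lit 5, nat_lit 5, nat_lit 20], false, nat_lit 0, nat_lit 0, nat_lit 0, nat_lit 0, ⟨nat_lit 1000, nat_lit 0, nat_lit 0, nat_lit 0, nat_lit 0, nat_lit 0, nat_lit 0, nat_lit 0, nat_lit 0, nat_lit 0, nat_lit 0, nat_lit 0, nat_lit 0, nat_lit 0, nat_lit 0, nat_lit 0, false, false⟩,
 nat_lit 0, nat_lit 27974, nat_lit 0, nat_lit 0, nat_lit 13378, nat_lit 0, nat_lit 631, nat_lit 0, nat_lit 0, nat_lit 0, nat_lit 0, nat_lit 697, nat_lit 0, nat_lit 14650151098757, nat_lit 0, nat_lit 0, nat_lit 0, nat_lit 0, [],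
 ⟨p004_k52, nat_lit 0, nat_lit 0, nat_lit 293, nat_lit 0, nat_lit 205112, [nat_lit 6250000000, nat_lit 7968000000], [], [nat_lit 25722482384, nat_lit 25615831515, nat_lit 25617344868, nat_lit 25275170144], nat_lit 1271250, nat_lit 1271250, nat_lit 21650, nat_lit 43600, nat_lit 0, nat_lit 0, [nat_lit 1412500, nat_lit 1271250], [nat_lit 26, nat_lit 40, nat_lit 20, nat_lit 80, nat_lit 2, nat_lit 272, nat_lit 60, nat_lit 10]⟩, ⟨p004_k54, nat_lit 0, nat_lit 0, nat_lit 0, nat_lit 0, nat_lit 0, [nat_lit 3282000000, nat_lit 6250000000, nat_lit 7968000000], [], [nat_lit 2591042400, nat_lit 2631081841, nat_lit 2635436400, nat_lit 2676008180], nat_lit 0, nat_lit 0, nat_lit 0, nat_lit 0, nat_lit 0, nat_lit 0, [], [nat_lit 18, nat_lit 40, nat_lit 20, nat_lit 80]⟩,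
 zbF0, [⟨nat_lit 0, nat_lit 100, nat_lit 100, nat_lit 20, nat_lit 970136601⟩]⟩
noncomputable def p004_l270 : Lf2 := ⟨nat_lit 0, nat_lit 1, [nat_lit 19, nat_lit 5, nat_lit 5, nat_lit 20], true, nat_lit 0, nat_lit 0, nat_lit 0, nat_lit 0, ⟨nat_lit 0, nat_lit 0, nat_lit 1000, nat_lit 5, nat_lit 42, nat_lit 0, nat_lit 0, nat_lit 0, nat_lit 0, nat_lit 215, nat_lit 16017, nat_lit 246, nat_lit 66274898, nat_lit 0, nat_lit 0, nat_lit 298556, false, false⟩,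
 nat_lit 0, nat_lit 0, nat_lit 0, nat_lit 0, nat_lit 0, nat_lit 0, nat_lit 0, nat_lit 0, nat_lit 293, nat_lit 0, nat_lit 0, nat_lit 0, nat_lit 0, nat_lit 11746626760029, nat_lit 53, nat_lit 1000000, nat_lit 0, nat_lit 0, [(nat_lit 3, [(nat_lit 6, nat_lit 1000)])],
 ⟨p004_k52, nat_lit 0, nat_lit 0, nat_lit 0, nat_lit 0, nat_lit 205112, [nat_lit 2101142858, nat_lit 11600000], [], [nat_lit 5462185258, nat_lit 5500094738, nat_lit 5507439716, nat_lit 5544381518], nat_lit 1271250, nat_lit 1271250, nat_lit 21650, nat_lit 43600, nat_lit 0, nat_lit 0, [nat_lit 1412500, nat_lit 1271250], [nat_lit 26, nat_lit 40, nat_lit 20, nat_lit 80]⟩, C1.Rw.none,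
 ⟨nat_lit 6689, nat_lit 6709, ⟨.ofNat (nat_lit 99275), .ofNat (nat_lit 107890), .ofNat (nat_lit 100347), .ofNat (nat_lit 108962), .ofNat (nat_lit 100245), .ofNat (nat_lit 108840), .ofNat (nat_lit 101316), .ofNat (nat_lit 109912)⟩, ⟨.ofNat (nat_lit 0), .ofNat (nat_lit 0), .ofNat (nat_lit 0), .ofNat (nat_lit 0), .ofNat (nat_lit 0), .ofNat (nat_lit 0), .ofNat (nat_lit 0), .ofNat (nat_lit 0)⟩⟩, []⟩
noncomputable def p004_l271 : Lf2 := ⟨nat_lit 0, nat_lit 1, [nat_lit 19, nat_lit 5, nat_lit 5, nat_lit 20], false, nat_lit 0, nat_lit 0, nat_lit 0, nat_lit 0, ⟨nat_lit 1000, nat_lit 0, nat_lit 0, nat_lit 0, nat_lit 0, nat_lit 0, nat_lit 0, nat_lit 0, nat_lit 0, nat_lit 0, nat_lit 0, nat_lit 0, nat_lit 0, nat_lit 0, nat_lit 0, nat_lit 0, false, false⟩,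
 nat_lit 0, nat_lit 34865, nat_lit 0, nat_lit 0, nat_lit 16674, nat_lit 0, nat_lit 6831, nat_lit 0, nat_lit 0, nat_lit 1212, nat_lit 0, nat_lit 559, nat_lit 0, nat_lit 24180770556841, nat_lit 0, nat_lit 0, nat_lit 0, nat_lit 0, [],
 ⟨p004_k52, nat_lit 0, nat_lit 0, nat_lit 0, nat_lit 0, nat_lit 205112, [nat_lit 6250000000, nat_lit 7968000000], [], [nat_lit 22463160272, nat_lit 22258949997, nat_lit 22310487844, nat_lit 21884009943], nat_lit 1271250, nat_lit 1271250, nat_lit 21650, nat_lit 43600, nat_lit 0, nat_lit 0, [nat_lit 1412500, nat_lit 1271250], [nat_lit 26, nat_lit 40, nat_lit 20, nat_lit 80]⟩, ⟨p004_k52, nat_lit 0, nat_lit 0, nat_lit 0, nat_lit 0, nat_lit 0, [nat_lit 6250000000, nat_lit 7968000000], [], [nat_lit 5352925400, nat_lit 5389111320, nat_lit 5395935800, nat_lit 5433238660], nat_lit 0, nat_lit 0, nat_lit 0, nat_lit 0, nat_lit 0, nat_lit 0, [], [nat_lit 26,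 nat_lit 40, nat_lit 20, nat_lit 80]⟩,
 zbF0, [⟨nat_lit 0, nat_lit 100, nat_lit 100, nat_lit 20, nat_lit 1030349635⟩]⟩
noncomputable def p004_l272 : Lf2 := ⟨nat_lit 0, nat_lit 1, [nat_lit 19, nat_lit 5, nat_lit 5, nat_lit 20], true, nat_lit 0, nat_lit 0, nat_lit 0, nat_lit 0, ⟨nat_lit 0, nat_lit 0, nat_lit 1000, nat_lit 5, nat_lit 42, nat_lit 0, nat_lit 0, nat_lit 0, nat_lit 0, nat_lit 215, nat_lit 16017, nat_lit 246, nat_lit 66274898, nat_lit 0, nat_lit 0, nat_lit 298556, false, false⟩,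
 nat_lit 0, nat_lit 100000, nat_lit 0, nat_lit 0, nat_lit 47826, nat_lit 0, nat_lit 0, nat_lit 919, nat_lit 0, nat_lit 0, nat_lit 0, nat_lit 0, nat_lit 0, nat_lit 122234213101589, nat_lit 0, nat_lit 1000000, nat_lit 0, nat_lit 0, [(nat_lit 3, [(nat_lit 6, nat_lit 1000)])],
 ⟨p004_k52, nat_lit 0, nat_lit 0, nat_lit 293, nat_lit 0, nat_lit 205112, [nat_lit 19421142858, nat_lit 20795600000], [], [nat_lit 31171248302, nat_lit 29946252138, nat_lit 30569301730, nat_lit 29346036042], nat_lit 1271250, nat_lit 1271250, nat_lit 21650, nat_lit 43600, nat_lit 0, nat_lit 0, [nat_lit 1412500, nat_lit 1271250], [nat_lit 26, nat_lit 40, nat_lit 20, nat_lit 80, nat_lit 2, nat_lit 272, nat_lit 60, nat_lit 10]⟩, C1.Rw.none,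
 ⟨nat_lit 6689, nat_lit 6709, ⟨.ofNat (nat_lit 99275), .ofNat (nat_lit 107890), .ofNat (nat_lit 100347), .ofNat (nat_lit 108962), .ofNat (nat_lit 100245), .ofNat (nat_lit 108840), .ofNat (nat_lit 101316), .ofNat (nat_lit 109912)⟩, ⟨.ofNat (nat_lit 0), .ofNat (nat_lit 0), .ofNat (nat_lit 0), .ofNat (nat_lit 0), .ofNat (nat_lit 0), .ofNat (nat_lit 0), .ofNat (nat_lit 0), .ofNat (nat_lit 0)⟩⟩, [⟨nat_lit 0, nat_lit 100, nat_lit 100, nat_lit 21, nat_lit 856166698⟩]⟩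
noncomputable def p004_l273 : Lf2 := ⟨nat_lit 0, nat_lit 1, [nat_lit 19, nat_lit 5, nat_lit 5, nat_lit 20], false, nat_lit 0, nat_lit 0, nat_lit 0, nat_lit 0, ⟨nat_lit 1000, nat_lit 0, nat_lit 0, nat_lit 0, nat_lit 0, nat_lit 0, nat_lit 0, nat_lit 0, nat_lit 0, nat_lit 0, nat_lit 0, nat_lit 0, nat_lit 0, nat_lit 0, nat_lit 0, nat_lit 0, false, false⟩,
 nat_lit 0, nat_lit 27419, nat_lit 0, nat_lit 0, nat_lit 13182, nat_lit 0, nat_lit 789, nat_lit 0, nat_lit 0, nat_lit 1213, nat_lit 0, nat_lit 559, nat_lit 0, nat_lit 12795800990088, nat_lit 0, nat_lit 0, nat_lit 0, nat_lit 0, [],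
 ⟨p004_k55, nat_lit 0, nat_lit 0, nat_lit 293, nat_lit 0, nat_lit 211910, [nat_lit 6250000000, nat_lit 7968000000], [], [nat_lit 25578642257, nat_lit 25486766646, nat_lit 25476828942, nat_lit 25139667392], nat_lit 1271250, nat_lit 1271250, nat_lit 21650, nat_lit 43600, nat_lit 0, nat_lit 0, [nat_lit 1412500, nat_lit 1271250], [nat_lit 26, nat_lit 40, nat_lit 20, nat_lit 80, nat_lit 2, nat_lit 272, nat_lit 60, nat_lit 10]⟩, ⟨p004_k54, nat_lit 0, nat_lit 0, nat_lit 0, nat_lit 0, nat_lit 0, [nat_lit 3282000000, nat_lit 6250000000, nat_lit 7968000000], [], [nat_lit 5352131650, nat_lit 5426861361, nat_lit 5395362800, nat_lit 5471114520], nat_lit 0, nat_lit 0, nat_lit 0, nat_lit 0, nat_lit 0, nat_lit 0, [], [nat_lit 18, nat_lit 40, nat_lit 20, nat_lit 80]⟩,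
 zbF0, [⟨nat_lit 0, nat_lit 100, nat_lit 100, nat_lit 21, nat_lit 962838142⟩]⟩
noncomputable def b_NL_550_550_0_8 : St := ⟨false, nat_lit 1, nat_lit 0, nat_lit 1, nat_lit 20, nat_lit 220, nat_lit 222, nat_lit 220, nat_lit 222, nat_lit 4, nat_lit 8, nat_lit 0, nat_lit 0, nat_lit 0, nat_lit 0, nat_lit 0, nat_lit 0, nat_lit 0, nat_lit 4, nat_lit 0, nat_lit 0, nat_lit 0, nat_lit 200⟩
theorem d_NL_550_550_0_8 (h : EB TB.env) : Dead b_NL_550_550_0_8 := chkB_sound0 h (T :=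
(.spl (nat_lit 0) (nat_lit 221)
(.ord (.spl (nat_lit 8) (nat_lit 100)
(.leaf p004_l267)
(.spl (nat_lit 8) (nat_lit 160)
(.leaf p004_l268)
(.spl (nat_lit 8) (nat_lit 180)
(.leaf p004_l269)
(.spl (nat_lit 7) (nat_lit 600)
(.spl (nat_lit 7) (nat_lit 300)
(.leaf p004_l270)
(.leaf p004_l271))
(.leaf p004_l272))))))
(.leaf p004_l273))) (by decide +kernel)
noncomputable def p004_l274 : Lf2 := ⟨nat_lit 0, nat_lit 1, [nat_lit 19, nat_lit 5, nat_lit 5, nat_lit 20], true, nat_lit 0, nat_lit 0, nat_lit 0, nat_lit 0, ⟨nat_lit 0, nat_lit 0, nat_lit 1000, nat_lit 5, nat_lit 42, nat_lit 0, nat_lit 0, nat_lit 0, nat_lit 0, nat_lit 215, nat_lit 16017, nat_lit 246, nat_lit 66274898, nat_lit 0, nat_lit 0, nat_lit 298556, false, false⟩,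
 nat_lit 0, nat_lit 1942, nat_lit 0, nat_lit 0, nat_lit 928, nat_lit 0, nat_lit 0, nat_lit 0, nat_lit 202, nat_lit 0, nat_lit 0, nat_lit 0, nat_lit 0, nat_lit 11748404636161, nat_lit 31, nat_lit 400000, nat_lit 0, nat_lit 0, [(nat_lit 3, [(nat_lit 5, nat_lit 1000)])],
 ⟨p004_k54, nat_lit 0, nat_lit 0, nat_lit 0, nat_lit 0, nat_lit 205112, [nat_lit 1356666667, nat_lit 998533334, nat_lit 6400000], [], [nat_lit 6788185176, nat_lit 6830662258, nat_lit 6781764062, nat_lit 6824202682], nat_lit 1271250, nat_lit 1271250, nat_lit 21650, nat_lit 43600, nat_lit 0, nat_lit 0, [nat_lit 780000, nat_lit 1435000, nat_lit 1271250], [nat_lit 18, nat_lit 40, nat_lit 20, nat_lit 80]⟩, C1.Rw.none,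
 ⟨nat_lit 6689, nat_lit 6709, ⟨.ofNat (nat_lit 99275), .ofNat (nat_lit 107890), .ofNat (nat_lit 100347), .ofNat (nat_lit 108962), .ofNat (nat_lit 100245), .ofNat (nat_lit 108840), .ofNat (nat_lit 101316), .ofNat (nat_lit 109912)⟩, ⟨.ofNat (nat_lit 0), .ofNat (nat_lit 0), .ofNat (nat_lit 0), .ofNat (nat_lit 0), .ofNat (nat_lit 0), .ofNat (nat_lit 0), .ofNat (nat_lit 0), .ofNat (nat_lit 0)⟩⟩, [⟨nat_lit 0, nat_lit 100, nat_lit 100, nat_lit 21, nat_lit 114122323⟩]⟩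
noncomputable def p004_l275 : Lf2 := ⟨nat_lit 0, nat_lit 1, [nat_lit 19, nat_lit 5, nat_lit 5, nat_lit 20], true, nat_lit 0, nat_lit 0, nat_lit 0, nat_lit 0, ⟨nat_lit 0, nat_lit 0, nat_lit 1000, nat_lit 5, nat_lit 42, nat_lit 0, nat_lit 0, nat_lit 0, nat_lit 0, nat_lit 215, nat_lit 16017, nat_lit 246, nat_lit 66274898, nat_lit 0, nat_lit 0, nat_lit 298556, false, false⟩,
 nat_lit 0, nat_lit 12478, nat_lit 0, nat_lit 0, nat_lit 5967, nat_lit 0, nat_lit 1916, nat_lit 0, nat_lit 0, nat_lit 0, nat_lit 0, nat_lit 0, nat_lit 0, nat_lit 29781145459480, nat_lit 53, nat_lit 1000000, nat_lit 0, nat_lit 0, [(nat_lit 3, [(nat_lit 6, nat_lit 1000)])],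
 ⟨p004_k54, nat_lit 0, nat_lit 0, nat_lit 0, nat_lit 0, nat_lit 205112, [nat_lit 1559200001, nat_lit 1418400001, nat_lit 13599999], [], [nat_lit 11981359633, nat_lit 11852006810, nat_lit 11964539029, nat_lit 11807268600], nat_lit 1271250, nat_lit 1271250, nat_lit 21650, nat_lit 43600, nat_lit 0, nat_lit 0, [nat_lit 780000, nat_lit 1435000, nat_lit 1271250], [nat_lit 18, nat_lit 40, nat_lit 20, nat_lit 80]⟩, C1.Rw.none,
 ⟨nat_lit 6689, nat_lit 6709, ⟨.ofNat (nat_lit 99275), .ofNat (nat_lit 107890), .ofNat (nat_lit 100347), .ofNat (nat_lit 108962), .ofNat (nat_lit 100245), .ofNat (nat_lit 108840), .ofNat (nat_lit 101316), .ofNat (nat_lit 109912)⟩, ⟨.ofNat (nat_lit 0), .ofNat (nat_lit 0), .ofNat (nat_lit 0), .ofNat (nat_lit 0), .ofNat (nat_lit 0), .ofNat (nat_lit 0), .ofNat (nat_lit 0), .ofNat (nat_lit 0)⟩⟩, [⟨nat_lit 0, nat_lit 100, nat_lit 100, nat_lit 20, nat_lit 127509441⟩]⟩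
noncomputable def p004_l276 : Lf2 := ⟨nat_lit 0, nat_lit 1, [nat_lit 19, nat_lit 5, nat_lit 5, nat_lit 20], false, nat_lit 0, nat_lit 0, nat_lit 0, nat_lit 0, ⟨nat_lit 1000, nat_lit 0, nat_lit 0, nat_lit 0, nat_lit 0, nat_lit 0, nat_lit 0, nat_lit 0, nat_lit 0, nat_lit 0, nat_lit 0, nat_lit 0, nat_lit 0, nat_lit 0, nat_lit 0, nat_lit 0, false, false⟩,
 nat_lit 0, nat_lit 100000, nat_lit 0, nat_lit 0, nat_lit 47826, nat_lit 0, nat_lit 16470, nat_lit 22, nat_lit 0, nat_lit 1243, nat_lit 0, nat_lit 553, nat_lit 0, nat_lit 117952721801705, nat_lit 0, nat_lit 0, nat_lit 8847392532, nat_lit 0, [],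
 ⟨p004_k52, nat_lit 0, nat_lit 0, nat_lit 0, nat_lit 0, nat_lit 205112, [nat_lit 6690000000, nat_lit 8496000000], [], [nat_lit 1825212260, nat_lit 691572390, nat_lit 1223265688, nat_lit 0], nat_lit 1271250, nat_lit 1271250, nat_lit 21650, nat_lit 43600, nat_lit 0, nat_lit 0, [nat_lit 1412500, nat_lit 1271250], [nat_lit 26, nat_lit 40, nat_lit 20, nat_lit 80]⟩, ⟨p004_k52, nat_lit 0, nat_lit 0, nat_lit 0, nat_lit 0, nat_lit 0, [nat_lit 6250000000, nat_lit 7968000000], [], [nat_lit 5475442000, nat_lit 5508951880, nat_lit 5525154000, nat_lit 5558483340], nat_lit 0, nat_lit 0, nat_lit 0, nat_lit 0, nat_lit 0, nat_lit 0, [], [nat_lit 26, nat_lit 40, nat_lit 20, nat_lit 80]⟩,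
 zbF0, [⟨nat_lit 0, nat_lit 100, nat_lit 100, nat_lit 21, nat_lit 1590880515⟩]⟩
noncomputable def p004_l277 : Lf2 := ⟨nat_lit 0, nat_lit 1, [nat_lit 19, nat_lit 5, nat_lit 5, nat_lit 20], true, nat_lit 0, nat_lit 0, nat_lit 0, nat_lit 0, ⟨nat_lit 0, nat_lit 0, nat_lit 1000, nat_lit 5, nat_lit 42, nat_lit 0, nat_lit 0, nat_lit 0, nat_lit 0, nat_lit 215, nat_lit 16017, nat_lit 246, nat_lit 66274898, nat_lit 0, nat_lit 0, nat_lit 298556, false, false⟩,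
 nat_lit 0, nat_lit 100000, nat_lit 0, nat_lit 0, nat_lit 47826, nat_lit 0, nat_lit 0, nat_lit 919, nat_lit 0, nat_lit 0, nat_lit 0, nat_lit 0, nat_lit 0, nat_lit 122234213101589, nat_lit 0, nat_lit 1000000, nat_lit 0, nat_lit 0, [(nat_lit 3, [(nat_lit 6, nat_lit 1000)])],
 ⟨p004_k52, nat_lit 0, nat_lit 0, nat_lit 293, nat_lit 0, nat_lit 205112, [nat_lit 19421142858, nat_lit 20795600000], [], [nat_lit 31171248302, nat_lit 29946252138, nat_lit 30569301730, nat_lit 29346036042], nat_lit 1271250, nat_lit 1271250, nat_lit 21650, nat_lit 43600, nat_lit 0, nat_lit 0, [nat_lit 1412500, nat_lit 1271250], [nat_lit 26, nat_lit 40, nat_lit 20, nat_lit 80, nat_lit 2, nat_lit 272, nat_lit 60, nat_lit 10]⟩, C1.Rw.none,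
 ⟨nat_lit 6689, nat_lit 6709, ⟨.ofNat (nat_lit 99275), .ofNat (nat_lit 107890), .ofNat (nat_lit 100347), .ofNat (nat_lit 108962), .ofNat (nat_lit 100245), .ofNat (nat_lit 108840), .ofNat (nat_lit 101316), .ofNat (nat_lit 109912)⟩, ⟨.ofNat (nat_lit 0), .ofNat (nat_lit 0), .ofNat (nat_lit 0), .ofNat (nat_lit 0), .ofNat (nat_lit 0), .ofNat (nat_lit 0), .ofNat (nat_lit 0), .ofNat (nat_lit 0)⟩⟩, [⟨nat_lit 0, nat_lit 100, nat_lit 100, nat_lit 21, nat_lit 856166698⟩]⟩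
noncomputable def p004_l278 : Lf2 := ⟨nat_lit 0, nat_lit 1, [nat_lit 19, nat_lit 5, nat_lit 5, nat_lit 20], true, nat_lit 0, nat_lit 0, nat_lit 0, nat_lit 0, ⟨nat_lit 0, nat_lit 0, nat_lit 1000, nat_lit 5, nat_lit 42, nat_lit 0, nat_lit 0, nat_lit 0, nat_lit 0, nat_lit 215, nat_lit 16017, nat_lit 246, nat_lit 66274898, nat_lit 0, nat_lit 0, nat_lit 298556, false, false⟩,
 nat_lit 0, nat_lit 1942, nat_lit 0, nat_lit 0, nat_lit 928, nat_lit 0, nat_lit 0, nat_lit 0, nat_lit 202, nat_lit 0, nat_lit 0, nat_lit 0, nat_lit 0, nat_lit 13726880217703, nat_lit 31, nat_lit 400000, nat_lit 0, nat_lit 0, [(nat_lit 3, [(nat_lit 5, nat_lit 1000)])],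
 ⟨p004_k54, nat_lit 0, nat_lit 0, nat_lit 0, nat_lit 0, nat_lit 205112, [nat_lit 1356666667, nat_lit 998533334, nat_lit 6400000], [], [nat_lit 6788185176, nat_lit 6830662258, nat_lit 6781764062, nat_lit 6824202682], nat_lit 1271250, nat_lit 1271250, nat_lit 21650, nat_lit 43600, nat_lit 0, nat_lit 0, [nat_lit 780000, nat_lit 1435000, nat_lit 1271250], [nat_lit 18, nat_lit 40, nat_lit 20, nat_lit 80]⟩, C1.Rw.none,
 ⟨nat_lit 6689, nat_lit 6709, ⟨.ofNat (nat_lit 99275), .ofNat (nat_lit 107890), .ofNat (nat_lit 100347), .ofNat (nat_lit 108962), .ofNat (nat_lit 100245), .ofNat (nat_lit 108840), .ofNat (nat_lit 101316), .ofNat (nat_lit 109912)⟩, ⟨.ofNat (nat_lit 0), .ofNat (nat_lit 0), .ofNat (nat_lit 0), .ofNat (nat_lit 0), .ofNat (nat_lit 0), .ofNat (nat_lit 0), .ofNat (nat_lit 0), .ofNat (nat_lit 0)⟩⟩, [⟨nat_lit 0, nat_lit 100, nat_lit 100, nat_lit 21, nat_lit 114122323⟩]⟩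
noncomputable def p004_l279 : Lf2 := ⟨nat_lit 0, nat_lit 1, [nat_lit 19, nat_lit 5, nat_lit 5, nat_lit 20], true, nat_lit 0, nat_lit 0, nat_lit 0, nat_lit 0, ⟨nat_lit 0, nat_lit 0, nat_lit 1000, nat_lit 5, nat_lit 42, nat_lit 0, nat_lit 0, nat_lit 0, nat_lit 0, nat_lit 215, nat_lit 16017, nat_lit 246, nat_lit 66274898, nat_lit 0, nat_lit 0, nat_lit 298556, false, false⟩,
 nat_lit 0, nat_lit 12478, nat_lit 0, nat_lit 0, nat_lit 5967, nat_lit 0, nat_lit 1916, nat_lit 0, nat_lit 0, nat_lit 0, nat_lit 0, nat_lit 0, nat_lit 0, nat_lit 29781145459480, nat_lit 53, nat_lit 1000000, nat_lit 0, nat_lit 0, [(nat_lit 3, [(nat_lit 6, nat_lit 1000)])],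
 ⟨p004_k54, nat_lit 0, nat_lit 0, nat_lit 0, nat_lit 0, nat_lit 205112, [nat_lit 1559200001, nat_lit 1418400001, nat_lit 13599999], [], [nat_lit 11981359633, nat_lit 11852006810, nat_lit 11964539029, nat_lit 11807268600], nat_lit 1271250, nat_lit 1271250, nat_lit 21650, nat_lit 43600, nat_lit 0, nat_lit 0, [nat_lit 780000, nat_lit 1435000, nat_lit 1271250], [nat_lit 18, nat_lit 40, nat_lit 20, nat_lit 80]⟩, C1.Rw.none,
 ⟨nat_lit 6689, nat_lit 6709, ⟨.ofNat (nat_lit 99275), .ofNat (nat_lit 107890), .ofNat (nat_lit 100347), .ofNat (nat_lit 108962), .ofNat (nat_lit 100245), .ofNat (nat_lit 108840), .ofNat (nat_lit 101316), .ofNat (nat_lit 109912)⟩, ⟨.ofNat (nat_lit 0), .ofNat (nat_lit 0), .ofNat (nat_lit 0), .ofNat (nat_lit 0), .ofNat (nat_lit 0), .ofNat (nat_lit 0), .ofNat (nat_lit 0), .ofNat (nat_lit 0)⟩⟩, [⟨nat_lit 0, nat_lit 100, nat_lit 100, nat_lit 20, nat_lit 127509441⟩]⟩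
noncomputable def p004_l280 : Lf2 := ⟨nat_lit 0, nat_lit 1, [nat_lit 19, nat_lit 5, nat_lit 5, nat_lit 20], false, nat_lit 0, nat_lit 0, nat_lit 0, nat_lit 0, ⟨nat_lit 1000, nat_lit 0, nat_lit 0, nat_lit 0, nat_lit 0, nat_lit 0, nat_lit 0, nat_lit 0, nat_lit 0, nat_lit 0, nat_lit 0, nat_lit 0, nat_lit 0, nat_lit 0, nat_lit 0, nat_lit 0, false, false⟩,
 nat_lit 0, nat_lit 100000, nat_lit 0, nat_lit 0, nat_lit 47826, nat_lit 9710, nat_lit 16474, nat_lit 23, nat_lit 0, nat_lit 7122, nat_lit 0, nat_lit 92, nat_lit 0, nat_lit 127051293889216, nat_lit 0, nat_lit 0, nat_lit 8787392532, nat_lit 0, [],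
 ⟨p004_k52, nat_lit 0, nat_lit 0, nat_lit 0, nat_lit 0, nat_lit 205112, [nat_lit 6710000000, nat_lit 8520000000], [], [nat_lit 1825212260, nat_lit 671572390, nat_lit 1223265688, nat_lit 0], nat_lit 1271250, nat_lit 1271250, nat_lit 21650, nat_lit 43600, nat_lit 0, nat_lit 0, [nat_lit 1412500, nat_lit 1271250], [nat_lit 26, nat_lit 40, nat_lit 20, nat_lit 80]⟩, ⟨p004_k52, nat_lit 0, nat_lit 0, nat_lit 0, nat_lit 0, nat_lit 0, [nat_lit 6250000000, nat_lit 7968000000], [], [nat_lit 16416086628, nat_lit 16527799487, nat_lit 15876836636, nat_lit 15965628526], nat_lit 0, nat_lit 0, nat_lit 0, nat_lit 0, nat_lit 0, nat_lit 0, [], [nat_lit 26, nat_lit 40, nat_lit 20, nat_lit 80]⟩,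
 zbF0, [⟨nat_lit 0, nat_lit 100, nat_lit 100, nat_lit 21, nat_lit 2328605990⟩]⟩
noncomputable def p004_l281 : Lf2 := ⟨nat_lit 0, nat_lit 1, [nat_lit 19, nat_lit 5, nat_lit 5, nat_lit 20], true, nat_lit 0, nat_lit 0, nat_lit 0, nat_lit 0, ⟨nat_lit 0, nat_lit 0, nat_lit 1000, nat_lit 5, nat_lit 42, nat_lit 0, nat_lit 0, nat_lit 0, nat_lit 0, nat_lit 215, nat_lit 16017, nat_lit 246, nat_lit 66274898, nat_lit 0, nat_lit 0, nat_lit 298556, false, false⟩,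
 nat_lit 0, nat_lit 100000, nat_lit 0, nat_lit 0, nat_lit 47826, nat_lit 0, nat_lit 0, nat_lit 919, nat_lit 0, nat_lit 0, nat_lit 0, nat_lit 0, nat_lit 0, nat_lit 122234213101589, nat_lit 0, nat_lit 1000000, nat_lit 0, nat_lit 0, [(nat_lit 3, [(nat_lit 6, nat_lit 1000)])],
 ⟨p004_k52, nat_lit 0, nat_lit 0, nat_lit 293, nat_lit 0, nat_lit 205112, [nat_lit 19421142858, nat_lit 20795600000], [], [nat_lit 31171248302, nat_lit 29946252138, nat_lit 30569301730, nat_lit 29346036042], nat_lit 1271250, nat_lit 1271250, nat_lit 21650, nat_lit 43600, nat_lit 0, nat_lit 0, [nat_lit 1412500, nat_lit 1271250], [nat_lit 26, nat_lit 40, nat_lit 20, nat_lit 80, nat_lit 2, nat_lit 272, nat_lit 60, nat_lit 10]⟩, C1.Rw.none,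
 ⟨nat_lit 6689, nat_lit 6709, ⟨.ofNat (nat_lit 99275), .ofNat (nat_lit 107890), .ofNat (nat_lit 100347), .ofNat (nat_lit 108962), .ofNat (nat_lit 100245), .ofNat (nat_lit 108840), .ofNat (nat_lit 101316), .ofNat (nat_lit 109912)⟩, ⟨.ofNat (nat_lit 0), .ofNat (nat_lit 0), .ofNat (nat_lit 0), .ofNat (nat_lit 0), .ofNat (nat_lit 0), .ofNat (nat_lit 0), .ofNat (nat_lit 0), .ofNat (nat_lit 0)⟩⟩, [⟨nat_lit 0, nat_lit 100, nat_lit 100, nat_lit 21, nat_lit 856166698⟩]⟩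
noncomputable def p004_l282 : Lf2 := ⟨nat_lit 0, nat_lit 1, [nat_lit 19, nat_lit 5, nat_lit 5, nat_lit 20], true, nat_lit 0, nat_lit 0, nat_lit 0, nat_lit 0, ⟨nat_lit 0, nat_lit 0, nat_lit 1000, nat_lit 5, nat_lit 42, nat_lit 0, nat_lit 0, nat_lit 0, nat_lit 0, nat_lit 215, nat_lit 17067, nat_lit 247, nat_lit 66261692, nat_lit 0, nat_lit 0, nat_lit 303004, false, false⟩,
 nat_lit 0, nat_lit 1942, nat_lit 0, nat_lit 0, nat_lit 933, nat_lit 0, nat_lit 0, nat_lit 0, nat_lit 202, nat_lit 0, nat_lit 0, nat_lit 0, nat_lit 0, nat_lit 0, nat_lit 31, nat_lit 400000, nat_lit 0, nat_lit 0, [(nat_lit 3, [(nat_lit 5, nat_lit 1000)])],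
 ⟨p004_k56, nat_lit 0, nat_lit 0, nat_lit 0, nat_lit 0, nat_lit 207977, [nat_lit 1356666667, nat_lit 998533334, nat_lit 6400000], [], [nat_lit 6830330201, nat_lit 6875588007, nat_lit 6819440488, nat_lit 6861915195], nat_lit 1271250, nat_lit 1271250, nat_lit 21650, nat_lit 43600, nat_lit 0, nat_lit 0, [nat_lit 780000, nat_lit 1435000, nat_lit 1271250], [nat_lit 18, nat_lit 40, nat_lit 20, nat_lit 80]⟩, C1.Rw.none,
 ⟨nat_lit 6670, nat_lit 6690, ⟨.ofNat (nat_lit 100245), .ofNat (nat_lit 108840), .ofNat (nat_lit 101316), .ofNat (nat_lit 109912), .ofNat (nat_lit 101212), .ofNat (nat_lit 109788), .ofNat (nat_lit 102284), .ofNat (nat_lit 110860)⟩, ⟨.ofNat (nat_lit 0), .ofNat (nat_lit 0), .ofNat (nat_lit 0), .ofNat (nat_lit 0), .ofNat (nat_lit 0), .ofNat (nat_lit 0), .ofNat (nat_lit 0), .ofNat (nat_lit 0)⟩⟩, [⟨nat_lit 0, nat_lit 100, nat_lit 100, nat_lit 21, nat_lit 114940195⟩]⟩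
noncomputable def p004_l283 : Lf2 := ⟨nat_lit 0, nat_lit 1, [nat_lit 19, nat_lit 5, nat_lit 5, nat_lit 20], true, nat_lit 0, nat_lit 0, nat_lit 0, nat_lit 0, ⟨nat_lit 0, nat_lit 0, nat_lit 1000, nat_lit 5, nat_lit 42, nat_lit 0, nat_lit 0, nat_lit 0, nat_lit 0, nat_lit 215, nat_lit 17067, nat_lit 247, nat_lit 66261692, nat_lit 0, nat_lit 0, nat_lit 303004, false, false⟩,
 nat_lit 0, nat_lit 12380, nat_lit 0, nat_lit 0, nat_lit 5952, nat_lit 0, nat_lit 1883, nat_lit 0, nat_lit 0, nat_lit 0, nat_lit 0, nat_lit 0, nat_lit 0, nat_lit 0, nat_lit 53, nat_lit 1000000, nat_lit 0, nat_lit 0, [(nat_lit 3, [(nat_lit 6, nat_lit 1000)])],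
 ⟨p004_k56, nat_lit 0, nat_lit 0, nat_lit 0, nat_lit 0, nat_lit 207977, [nat_lit 1559200001, nat_lit 1418400001, nat_lit 13599999], [], [nat_lit 11843125347, nat_lit 11864790406, nat_lit 11826806416, nat_lit 11669931338], nat_lit 1271250, nat_lit 1271250, nat_lit 21650, nat_lit 43600, nat_lit 0, nat_lit 0, [nat_lit 780000, nat_lit 1435000, nat_lit 1271250], [nat_lit 18, nat_lit 40, nat_lit 20, nat_lit 80]⟩, C1.Rw.none,
 ⟨nat_lit 6670, nat_lit 6690, ⟨.ofNat (nat_lit 100245), .ofNat (nat_lit 108840), .ofNat (nat_lit 101316), .ofNat (nat_lit 109912), .ofNat (nat_lit 101212), .ofNat (nat_lit 109788), .ofNat (nat_lit 102284), .ofNat (nat_lit 110860)⟩, ⟨.ofNat (nat_lit 0), .ofNat (nat_lit 0), .ofNat (nat_lit 0), .ofNat (nat_lit 0), .ofNat (nat_lit 0), .ofNat (nat_lit 0), .ofNat (nat_lit 0), .ofNat (nat_lit 0)⟩⟩, [⟨nat_lit 0, nat_lit 100, nat_lit 100, nat_lit 21, nat_lit 126822705⟩]⟩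
noncomputable def p004_l284 : Lf2 := ⟨nat_lit 0, nat_lit 1, [nat_lit 19, nat_lit 5, nat_lit 5, nat_lit 20], false, nat_lit 0, nat_lit 0, nat_lit 0, nat_lit 0, ⟨nat_lit 1000, nat_lit 0, nat_lit 0, nat_lit 0, nat_lit 0, nat_lit 0, nat_lit 0, nat_lit 0, nat_lit 0, nat_lit 0, nat_lit 0, nat_lit 0, nat_lit 0, nat_lit 0, nat_lit 0, nat_lit 0, false, false⟩,
 nat_lit 0, nat_lit 100000, nat_lit 0, nat_lit 0, nat_lit 48078, nat_lit 0, nat_lit 15856, nat_lit 73, nat_lit 0, nat_lit 1241, nat_lit 0, nat_lit 553, nat_lit 0, nat_lit 0, nat_lit 0, nat_lit 0, nat_lit 7276379329, nat_lit 0, [],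
 ⟨p004_k55, nat_lit 0, nat_lit 0, nat_lit 0, nat_lit 0, nat_lit 207977, [nat_lit 7710000000, nat_lit 9720000000], [], [nat_lit 1833477651, nat_lit 1276250071, nat_lit 1229711199, nat_lit 0], nat_lit 1271250, nat_lit 1271250, nat_lit 21650, nat_lit 43600, nat_lit 0, nat_lit 0, [nat_lit 1412500, nat_lit 1271250], [nat_lit 26, nat_lit 40, nat_lit 20, nat_lit 80]⟩, ⟨p004_k52, nat_lit 0, nat_lit 0, nat_lit 0, nat_lit 0, nat_lit 0, [nat_lit 6250000000, nat_lit 7968000000], [], [nat_lit 5475442000, nat_lit 5510092570, nat_lit 5525154000, nat_lit 5558483340], nat_lit 0, nat_lit 0, nat_lit 0, nat_lit 0, nat_lit 0, nat_lit 0, [], [nat_lit 26, nat_lit 40, nat_lit 20, nat_lit 80]⟩,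
 zbF0, [⟨nat_lit 0, nat_lit 100, nat_lit 100, nat_lit 21, nat_lit 1592218376⟩]⟩
noncomputable def p004_l285 : Lf2 := ⟨nat_lit 0, nat_lit 1, [nat_lit 19, nat_lit 5, nat_lit 5, nat_lit 20], true, nat_lit 0, nat_lit 0, nat_lit 0, nat_lit 0, ⟨nat_lit 0, nat_lit 0, nat_lit 1000, nat_lit 5, nat_lit 42, nat_lit 0, nat_lit 0, nat_lit 0, nat_lit 0, nat_lit 215, nat_lit 17067, nat_lit 247, nat_lit 66261692, nat_lit 0, nat_lit 0, nat_lit 303004, false, false⟩,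
 nat_lit 0, nat_lit 100000, nat_lit 0, nat_lit 0, nat_lit 48078, nat_lit 0, nat_lit 0, nat_lit 5597, nat_lit 0, nat_lit 0, nat_lit 0, nat_lit 0, nat_lit 0, nat_lit 0, nat_lit 0, nat_lit 1000000, nat_lit 0, nat_lit 0, [(nat_lit 3, [(nat_lit 6, nat_lit 1000)])],
 ⟨p004_k55, nat_lit 0, nat_lit 0, nat_lit 293, nat_lit 0, nat_lit 207977, [nat_lit 112981142858, nat_lit 133067600000], [], [nat_lit 310370526896, nat_lit 309758305986, nat_lit 309766760444, nat_lit 308537049245], nat_lit 1271250, nat_lit 1271250, nat_lit 21650, nat_lit 43600, nat_lit 0, nat_lit 0, [nat_lit 1412500, nat_lit 1271250], [nat_lit 26, nat_lit 40, nat_lit 20, nat_lit 80, nat_lit 2, nat_lit 272, nat_lit 60, nat_lit 10]⟩, C1.Rw.none,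
 ⟨nat_lit 6670, nat_lit 6690, ⟨.ofNat (nat_lit 100245), .ofNat (nat_lit 108840), .ofNat (nat_lit 101316), .ofNat (nat_lit 109912), .ofNat (nat_lit 101212), .ofNat (nat_lit 109788), .ofNat (nat_lit 102284), .ofNat (nat_lit 110860)⟩, ⟨.ofNat (nat_lit 0), .ofNat (nat_lit 0), .ofNat (nat_lit 0), .ofNat (nat_lit 0), .ofNat (nat_lit 0), .ofNat (nat_lit 0), .ofNat (nat_lit 0), .ofNat (nat_lit 0)⟩⟩, [⟨nat_lit 0, nat_lit 100, nat_lit 100, nat_lit 21, nat_lit 861131687⟩]⟩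
noncomputable def p004_l286 : Lf2 := ⟨nat_lit 0, nat_lit 1, [nat_lit 19, nat_lit 5, nat_lit 5, nat_lit 20], true, nat_lit 0, nat_lit 0, nat_lit 0, nat_lit 0, ⟨nat_lit 0, nat_lit 0, nat_lit 1000, nat_lit 5, nat_lit 42, nat_lit 0, nat_lit 0, nat_lit 0, nat_lit 0, nat_lit 215, nat_lit 17067, nat_lit 247, nat_lit 66261692, nat_lit 0, nat_lit 0, nat_lit 303004, false, false⟩,
 nat_lit 0, nat_lit 1942, nat_lit 0, nat_lit 0, nat_lit 933, nat_lit 0, nat_lit 0, nat_lit 0, nat_lit 202, nat_lit 0, nat_lit 0, nat_lit 0, nat_lit 0, nat_lit 0, nat_lit 31, nat_lit 400000, nat_lit 0, nat_lit 0, [(nat_lit 3, [(nat_lit 5, nat_lit 1000)])],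
 ⟨p004_k56, nat_lit 0, nat_lit 0, nat_lit 0, nat_lit 0, nat_lit 207977, [nat_lit 1356666667, nat_lit 998533334, nat_lit 6400000], [], [nat_lit 6830330201, nat_lit 6875588007, nat_lit 6819440488, nat_lit 6861915195], nat_lit 1271250, nat_lit 1271250, nat_lit 21650, nat_lit 43600, nat_lit 0, nat_lit 0, [nat_lit 780000, nat_lit 1435000, nat_lit 1271250], [nat_lit 18, nat_lit 40, nat_lit 20, nat_lit 80]⟩, C1.Rw.none,
 ⟨nat_lit 6670, nat_lit 6690, ⟨.ofNat (nat_lit 100245), .ofNat (nat_lit 108840), .ofNat (nat_lit 101316), .ofNat (nat_lit 109912), .ofNat (nat_lit 101212), .ofNat (nat_lit 109788), .ofNat (nat_lit 102284), .ofNat (nat_lit 110860)⟩, ⟨.ofNat (nat_lit 0), .ofNat (nat_lit 0), .ofNat (nat_lit 0), .ofNat (nat_lit 0), .ofNat (nat_lit 0), .ofNat (nat_lit 0), .ofNat (nat_lit 0), .ofNat (nat_lit 0)⟩⟩, [⟨nat_lit 0, nat_lit 100, nat_lit 100, nat_lit 21, nat_lit 114940195⟩]⟩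
noncomputable def p004_l287 : Lf2 := ⟨nat_lit 0, nat_lit 1, [nat_lit 19, nat_lit 5, nat_lit 5, nat_lit 20], true, nat_lit 0, nat_lit 0, nat_lit 0, nat_lit 0, ⟨nat_lit 0, nat_lit 0, nat_lit 1000, nat_lit 5, nat_lit 42, nat_lit 0, nat_lit 0, nat_lit 0, nat_lit 0, nat_lit 215, nat_lit 17067, nat_lit 247, nat_lit 66261692, nat_lit 0, nat_lit 0, nat_lit 303004, false, false⟩,
 nat_lit 0, nat_lit 12380, nat_lit 0, nat_lit 0, nat_lit 5952, nat_lit 0, nat_lit 1883, nat_lit 0, nat_lit 0, nat_lit 0, nat_lit 0, nat_lit 0, nat_lit 0, nat_lit 0, nat_lit 53, nat_lit 1000000, nat_lit 0, nat_lit 0, [(nat_lit 3, [(nat_lit 6, nat_lit 1000)])],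
 ⟨p004_k56, nat_lit 0, nat_lit 0, nat_lit 0, nat_lit 0, nat_lit 207977, [nat_lit 1559200001, nat_lit 1418400001, nat_lit 13599999], [], [nat_lit 11843125347, nat_lit 11864790406, nat_lit 11826806416, nat_lit 11669931338], nat_lit 1271250, nat_lit 1271250, nat_lit 21650, nat_lit 43600, nat_lit 0, nat_lit 0, [nat_lit 780000, nat_lit 1435000, nat_lit 1271250], [nat_lit 18, nat_lit 40, nat_lit 20, nat_lit 80]⟩, C1.Rw.none,
 ⟨nat_lit 6670, nat_lit 6690, ⟨.ofNat (nat_lit 100245), .ofNat (nat_lit 108840), .ofNat (nat_lit 101316), .ofNat (nat_lit 109912), .ofNat (nat_lit 101212), .ofNat (nat_lit 109788), .ofNat (nat_lit 102284), .ofNat (nat_lit 110860)⟩, ⟨.ofNat (nat_lit 0), .ofNat (nat_lit 0), .ofNat (nat_lit 0), .ofNat (nat_lit 0), .ofNat (nat_lit 0), .ofNat (nat_lit 0), .ofNat (nat_lit 0), .ofNat (nat_lit 0)⟩⟩, [⟨nat_lit 0, nat_lit 100, nat_lit 100, nat_lit 21, nat_lit 126822705⟩]⟩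
noncomputable def p004_l288 : Lf2 := ⟨nat_lit 0, nat_lit 1, [nat_lit 19, nat_lit 5, nat_lit 5, nat_lit 20], false, nat_lit 0, nat_lit 0, nat_lit 0, nat_lit 0, ⟨nat_lit 1000, nat_lit 0, nat_lit 0, nat_lit 0, nat_lit 0, nat_lit 0, nat_lit 0, nat_lit 0, nat_lit 0, nat_lit 0, nat_lit 0, nat_lit 0, nat_lit 0, nat_lit 0, nat_lit 0, nat_lit 0, false, false⟩,
 nat_lit 0, nat_lit 100000, nat_lit 0, nat_lit 0, nat_lit 48078, nat_lit 10777, nat_lit 15848, nat_lit 71, nat_lit 0, nat_lit 7756, nat_lit 0, nat_lit 40, nat_lit 0, nat_lit 0, nat_lit 0, nat_lit 0, nat_lit 7396379329, nat_lit 0, [],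
 ⟨p004_k55, nat_lit 0, nat_lit 0, nat_lit 0, nat_lit 0, nat_lit 207977, [nat_lit 7670000000, nat_lit 9672000000], [], [nat_lit 1833477651, nat_lit 1315153381, nat_lit 1229711199, nat_lit 0], nat_lit 1271250, nat_lit 1271250, nat_lit 21650, nat_lit 43600, nat_lit 0, nat_lit 0, [nat_lit 1412500, nat_lit 1271250], [nat_lit 26, nat_lit 40, nat_lit 20, nat_lit 80]⟩, ⟨p004_k52, nat_lit 0, nat_lit 0, nat_lit 0, nat_lit 0, nat_lit 0, [nat_lit 6250000000, nat_lit 7968000000], [], [nat_lit 17672007104, nat_lit 17766888007, nat_lit 17068038014, nat_lit 17162924500], nat_lit 0, nat_lit 0, nat_lit 0, nat_lit 0, nat_lit 0, nat_lit 0, [], [nat_lit 26, nat_lit 40, nat_lit 20, nat_lit 80]⟩,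
 zbF0, [⟨nat_lit 0, nat_lit 100, nat_lit 100, nat_lit 21, nat_lit 2402532529⟩]⟩
noncomputable def p004_l289 : Lf2 := ⟨nat_lit 0, nat_lit 1, [nat_lit 19, nat_lit 5, nat_lit 5, nat_lit 20], true, nat_lit 0, nat_lit 0, nat_lit 0, nat_lit 0, ⟨nat_lit 0, nat_lit 0, nat_lit 1000, nat_lit 5, nat_lit 42, nat_lit 0, nat_lit 0, nat_lit 0, nat_lit 0, nat_lit 215, nat_lit 17067, nat_lit 247, nat_lit 66261692, nat_lit 0, nat_lit 0, nat_lit 303004, false, false⟩,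
 nat_lit 0, nat_lit 100000, nat_lit 0, nat_lit 0, nat_lit 48078, nat_lit 0, nat_lit 0, nat_lit 5597, nat_lit 0, nat_lit 0, nat_lit 0, nat_lit 0, nat_lit 0, nat_lit 0, nat_lit 0, nat_lit 1000000, nat_lit 0, nat_lit 0, [(nat_lit 3, [(nat_lit 6, nat_lit 1000)])],
 ⟨p004_k55, nat_lit 0, nat_lit 0, nat_lit 293, nat_lit 0, nat_lit 207977, [nat_lit 112981142858, nat_lit 133067600000], [], [nat_lit 310370526896, nat_lit 309758305986, nat_lit 309766760444, nat_lit 308537049245], nat_lit 1271250, nat_lit 1271250, nat_lit 21650, nat_lit 43600, nat_lit 0, nat_lit 0, [nat_lit 1412500, nat_lit 1271250], [nat_lit 26, nat_lit 40, nat_lit 20, nat_lit 80, nat_lit 2, nat_lit 272, nat_lit 60, nat_lit 10]⟩, C1.Rw.none,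
 ⟨nat_lit 6670, nat_lit 6690, ⟨.ofNat (nat_lit 100245), .ofNat (nat_lit 108840), .ofNat (nat_lit 101316), .ofNat (nat_lit 109912), .ofNat (nat_lit 101212), .ofNat (nat_lit 109788), .ofNat (nat_lit 102284), .ofNat (nat_lit 110860)⟩, ⟨.ofNat (nat_lit 0), .ofNat (nat_lit 0), .ofNat (nat_lit 0), .ofNat (nat_lit 0), .ofNat (nat_lit 0), .ofNat (nat_lit 0), .ofNat (nat_lit 0), .ofNat (nat_lit 0)⟩⟩, [⟨nat_lit 0, nat_lit 100, nat_lit 100, nat_lit 21, nat_lit 861131687⟩]⟩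
noncomputable def p004_l290 : Lf2 := ⟨nat_lit 0, nat_lit 1, [nat_lit 19, nat_lit 5, nat_lit 5, nat_lit 20], true, nat_lit 0, nat_lit 0, nat_lit 0, nat_lit 0, ⟨nat_lit 0, nat_lit 0, nat_lit 1000, nat_lit 5, nat_lit 43, nat_lit 0, nat_lit 0, nat_lit 0, nat_lit 0, nat_lit 215, nat_lit 17067, nat_lit 247, nat_lit 66246794, nat_lit 0, nat_lit 0, nat_lit 307996, false, false⟩,
 nat_lit 0, nat_lit 1941, nat_lit 0, nat_lit 0, nat_lit 933, nat_lit 0, nat_lit 0, nat_lit 0, nat_lit 201, nat_lit 0, nat_lit 0, nat_lit 0, nat_lit 0, nat_lit 13653565960766, nat_lit 31, nat_lit 400000, nat_lit 0, nat_lit 0, [(nat_lit 3, [(nat_lit 5, nat_lit 1000)])],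
 ⟨p004_k56, nat_lit 0, nat_lit 0, nat_lit 0, nat_lit 0, nat_lit 211910, [nat_lit 1356666667, nat_lit 998533334, nat_lit 6400000], [], [nat_lit 6858212299, nat_lit 6900725448, nat_lit 6851440488, nat_lit 6893915195], nat_lit 1271250, nat_lit 1271250, nat_lit 21650, nat_lit 43600, nat_lit 0, nat_lit 0, [nat_lit 780000, nat_lit 1435000, nat_lit 1271250], [nat_lit 18, nat_lit 40, nat_lit 20, nat_lit 80]⟩, C1.Rw.none,
 ⟨nat_lit 6670, nat_lit 6690, ⟨.ofNat (nat_lit 101316), .ofNat (nat_lit 109912), .ofNat (nat_lit 102388), .ofNat (nat_lit 110984), .ofNat (nat_lit 102284), .ofNat (nat_lit 110860), .ofNat (nat_lit 103355), .ofNat (nat_lit 111931)⟩, ⟨.ofNat (nat_lit 0), .ofNat (nat_lit 0), .ofNat (nat_lit 0), .ofNat (nat_lit 0), .ofNat (nat_lit 0), .ofNat (nat_lit 0), .ofNat (nat_lit 0), .ofNat (nat_lit 0)⟩⟩, [⟨nat_lit 0, nat_lit 100, nat_lit 100, nat_lit 22, nat_lit 114857698⟩]⟩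
noncomputable def p004_l291 : Lf2 := ⟨nat_lit 0, nat_lit 1, [nat_lit 19, nat_lit 5, nat_lit 5, nat_lit 20], true, nat_lit 0, nat_lit 0, nat_lit 0, nat_lit 0, ⟨nat_lit 0, nat_lit 0, nat_lit 1000, nat_lit 5, nat_lit 43, nat_lit 0, nat_lit 0, nat_lit 0, nat_lit 0, nat_lit 215, nat_lit 17067, nat_lit 247, nat_lit 66246794, nat_lit 0, nat_lit 0, nat_lit 307996, false, false⟩,
 nat_lit 0, nat_lit 12173, nat_lit 0, nat_lit 0, nat_lit 5852, nat_lit 0, nat_lit 1844, nat_lit 0, nat_lit 0, nat_lit 0, nat_lit 0, nat_lit 0, nat_lit 0, nat_lit 29167245722960, nat_lit 53, nat_lit 1000000, nat_lit 0, nat_lit 0, [(nat_lit 3, [(nat_lit 6, nat_lit 1000)])],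
 ⟨p004_k56, nat_lit 0, nat_lit 0, nat_lit 0, nat_lit 0, nat_lit 211910, [nat_lit 1559200001, nat_lit 1418400001, nat_lit 13599999], [], [nat_lit 11971628147, nat_lit 11849022331, nat_lit 11957058526, nat_lit 11802819118], nat_lit 1271250, nat_lit 1271250, nat_lit 21650, nat_lit 43600, nat_lit 0, nat_lit 0, [nat_lit 780000, nat_lit 1435000, nat_lit 1271250], [nat_lit 18, nat_lit 40, nat_lit 20, nat_lit 80]⟩, C1.Rw.none,
 ⟨nat_lit 6670, nat_lit 6690, ⟨.ofNat (nat_lit 101316), .ofNat (nat_lit 109912), .ofNat (nat_lit 102388), .ofNat (nat_lit 110984), .ofNat (nat_lit 102284), .ofNat (nat_lit 110860), .ofNat (nat_lit 103355), .ofNat (nat_lit 111931)⟩, ⟨.ofNat (nat_lit 0), .ofNat (nat_lit 0), .ofNat (nat_lit 0), .ofNat (nat_lit 0), .ofNat (nat_lit 0), .ofNat (nat_lit 0), .ofNat (nat_lit 0), .ofNat (nat_lit 0)⟩⟩, [⟨nat_lit 0, nat_lit 100, nat_lit 100, nat_lit 21, nat_lit 125059484⟩]⟩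
noncomputable def p004_l292 : Lf2 := ⟨nat_lit 0, nat_lit 1, [nat_lit 19, nat_lit 5, nat_lit 5, nat_lit 20], false, nat_lit 0, nat_lit 0, nat_lit 0, nat_lit 0, ⟨nat_lit 1000, nat_lit 0, nat_lit 0, nat_lit 0, nat_lit 0, nat_lit 0, nat_lit 0, nat_lit 0, nat_lit 0, nat_lit 0, nat_lit 0, nat_lit 0, nat_lit 0, nat_lit 0, nat_lit 0, nat_lit 0, false, false⟩,
 nat_lit 0, nat_lit 100000, nat_lit 0, nat_lit 0, nat_lit 48078, nat_lit 0, nat_lit 15993, nat_lit 101, nat_lit 0, nat_lit 1177, nat_lit 0, nat_lit 553, nat_lit 0, nat_lit 116563008864492, nat_lit 0, nat_lit 0, nat_lit 5596379329, nat_lit 0, [],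
 ⟨p004_k55, nat_lit 0, nat_lit 0, nat_lit 0, nat_lit 0, nat_lit 211910, [nat_lit 8270000000, nat_lit 10392000000], [], [nat_lit 1833477651, nat_lit 715153381, nat_lit 1229711199, nat_lit 0], nat_lit 1271250, nat_lit 1271250, nat_lit 21650, nat_lit 43600, nat_lit 0, nat_lit 0, [nat_lit 1412500, nat_lit 1271250], [nat_lit 26, nat_lit 40, nat_lit 20, nat_lit 80]⟩, ⟨p004_k55, nat_lit 0, nat_lit 0, nat_lit 0, nat_lit 0, nat_lit 0, [nat_lit 6250000000, nat_lit 7968000000], [], [nat_lit 5509398820, nat_lit 5546861361, nat_lit 5558483340, nat_lit 5591812680], nat_lit 0, nat_lit 0, nat_lit 0, nat_lit 0, nat_lit 0, nat_lit 0, [], [nat_lit 26, nat_lit 40, nat_lit 20, nat_lit 80]⟩,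
 zbF0, [⟨nat_lit 0, nat_lit 100, nat_lit 100, nat_lit 22, nat_lit 1590271815⟩]⟩
noncomputable def p004_l293 : Lf2 := ⟨nat_lit 0, nat_lit 1, [nat_lit 19, nat_lit 5, nat_lit 5, nat_lit 20], true, nat_lit 0, nat_lit 0, nat_lit 0, nat_lit 0, ⟨nat_lit 0, nat_lit 0, nat_lit 1000, nat_lit 5, nat_lit 43, nat_lit 0, nat_lit 0, nat_lit 0, nat_lit 0, nat_lit 215, nat_lit 17067, nat_lit 247, nat_lit 66246794, nat_lit 0, nat_lit 0, nat_lit 307996, false, false⟩,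
 nat_lit 0, nat_lit 100000, nat_lit 0, nat_lit 0, nat_lit 48078, nat_lit 0, nat_lit 0, nat_lit 5442, nat_lit 0, nat_lit 0, nat_lit 0, nat_lit 0, nat_lit 0, nat_lit 155474077463406, nat_lit 0, nat_lit 1000000, nat_lit 0, nat_lit 0, [(nat_lit 3, [(nat_lit 6, nat_lit 1000)])],
 ⟨p004_k55, nat_lit 0, nat_lit 0, nat_lit 293, nat_lit 0, nat_lit 211910, [nat_lit 109881142858, nat_lit 129347600000], [], [nat_lit 301070526896, nat_lit 299839001234, nat_lit 300466760444, nat_lit 299237049245], nat_lit 1271250, nat_lit 1271250, nat_lit 21650, nat_lit 43600, nat_lit 0, nat_lit 0, [nat_lit 1412500, nat_lit 1271250], [nat_lit 26, nat_lit 40, nat_lit 20, nat_lit 80, nat_lit 2, nat_lit 272, nat_lit 60, nat_lit 10]⟩, C1.Rw.none,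
 ⟨nat_lit 6670, nat_lit 6690, ⟨.ofNat (nat_lit 101316), .ofNat (nat_lit 109912), .ofNat (nat_lit 102388), .ofNat (nat_lit 110984), .ofNat (nat_lit 102284), .ofNat (nat_lit 110860), .ofNat (nat_lit 103355), .ofNat (nat_lit 111931)⟩, ⟨.ofNat (nat_lit 0), .ofNat (nat_lit 0), .ofNat (nat_lit 0), .ofNat (nat_lit 0), .ofNat (nat_lit 0), .ofNat (nat_lit 0), .ofNat (nat_lit 0), .ofNat (nat_lit 0)⟩⟩, [⟨nat_lit 0, nat_lit 100, nat_lit 100, nat_lit 22, nat_lit 858778722⟩]⟩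
noncomputable def p004_l294 : Lf2 := ⟨nat_lit 0, nat_lit 1, [nat_lit 19, nat_lit 5, nat_lit 5, nat_lit 20], true, nat_lit 0, nat_lit 0, nat_lit 0, nat_lit 0, ⟨nat_lit 0, nat_lit 0, nat_lit 1000, nat_lit 5, nat_lit 43, nat_lit 0, nat_lit 0, nat_lit 0, nat_lit 0, nat_lit 215, nat_lit 17067, nat_lit 247, nat_lit 66246794, nat_lit 0, nat_lit 0, nat_lit 307996, false, false⟩,
 nat_lit 0, nat_lit 1941, nat_lit 0, nat_lit 0, nat_lit 933, nat_lit 0, nat_lit 0, nat_lit 0, nat_lit 201, nat_lit 0, nat_lit 0, nat_lit 0, nat_lit 0, nat_lit 13653565960766, nat_lit 31, nat_lit 400000, nat_lit 0, nat_lit 0, [(nat_lit 3, [(nat_lit 5, nat_lit 1000)])],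
 ⟨p004_k56, nat_lit 0, nat_lit 0, nat_lit 0, nat_lit 0, nat_lit 211910, [nat_lit 1356666667, nat_lit 998533334, nat_lit 6400000], [], [nat_lit 6858212299, nat_lit 6900725448, nat_lit 6851440488, nat_lit 6893915195], nat_lit 1271250, nat_lit 1271250, nat_lit 21650, nat_lit 43600, nat_lit 0, nat_lit 0, [nat_lit 780000, nat_lit 1435000, nat_lit 1271250], [nat_lit 18, nat_lit 40, nat_lit 20, nat_lit 80]⟩, C1.Rw.none,
 ⟨nat_lit 6670, nat_lit 6690, ⟨.ofNat (nat_lit 101316), .ofNat (nat_lit 109912), .ofNat (nat_lit 102388), .ofNat (nat_lit 110984), .ofNat (nat_lit 102284), .ofNat (nat_lit 110860), .ofNat (nat_lit 103355), .ofNat (nat_lit 111931)⟩, ⟨.ofNat (nat_lit 0), .ofNat (nat_lit 0), .ofNat (nat_lit 0), .ofNat (nat_lit 0), .ofNat (nat_lit 0), .ofNat (nat_lit 0), .ofNat (nat_lit 0), .ofNat (nat_lit 0)⟩⟩, [⟨nat_lit 0, nat_lit 100, nat_lit 100, nat_lit 22, nat_lit 114857698⟩]⟩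
noncomputable def p004_l295 : Lf2 := ⟨nat_lit 0, nat_lit 1, [nat_lit 19, nat_lit 5, nat_lit 5, nat_lit 20], true, nat_lit 0, nat_lit 0, nat_lit 0, nat_lit 0, ⟨nat_lit 0, nat_lit 0, nat_lit 1000, nat_lit 5, nat_lit 43, nat_lit 0, nat_lit 0, nat_lit 0, nat_lit 0, nat_lit 215, nat_lit 17067, nat_lit 247, nat_lit 66246794, nat_lit 0, nat_lit 0, nat_lit 307996, false, false⟩,
 nat_lit 0, nat_lit 12173, nat_lit 0, nat_lit 0, nat_lit 5852, nat_lit 0, nat_lit 1844, nat_lit 0, nat_lit 0, nat_lit 0, nat_lit 0, nat_lit 0, nat_lit 0, nat_lit 29167245722960, nat_lit 53, nat_lit 1000000, nat_lit 0, nat_lit 0, [(nat_lit 3, [(nat_lit 6, nat_lit 1000)])],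
 ⟨p004_k56, nat_lit 0, nat_lit 0, nat_lit 0, nat_lit 0, nat_lit 211910, [nat_lit 1559200001, nat_lit 1418400001, nat_lit 13599999], [], [nat_lit 11971628147, nat_lit 11849022331, nat_lit 11957058526, nat_lit 11802819118], nat_lit 1271250, nat_lit 1271250, nat_lit 21650, nat_lit 43600, nat_lit 0, nat_lit 0, [nat_lit 780000, nat_lit 1435000, nat_lit 1271250], [nat_lit 18, nat_lit 40, nat_lit 20, nat_lit 80]⟩, C1.Rw.none,
 ⟨nat_lit 6670, nat_lit 6690, ⟨.ofNat (nat_lit 101316), .ofNat (nat_lit 109912), .ofNat (nat_lit 102388), .ofNat (nat_lit 110984), .ofNat (nat_lit 102284), .ofNat (nat_lit 110860), .ofNat (nat_lit 103355), .ofNat (nat_lit 111931)⟩, ⟨.ofNat (nat_lit 0), .ofNat (nat_lit 0), .ofNat (nat_lit 0), .ofNat (nat_lit 0), .ofNat (nat_lit 0), .ofNat (nat_lit 0), .ofNat (nat_lit 0), .ofNat (nat_lit 0)⟩⟩, [⟨nat_lit 0, nat_lit 100, nat_lit 100, nat_lit 21, nat_lit 125059484⟩]⟩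
noncomputable def p004_l296 : Lf2 := ⟨nat_lit 0, nat_lit 1, [nat_lit 19, nat_lit 5, nat_lit 5, nat_lit 20], false, nat_lit 0, nat_lit 0, nat_lit 0, nat_lit 0, ⟨nat_lit 1000, nat_lit 0, nat_lit 0, nat_lit 0, nat_lit 0, nat_lit 0, nat_lit 0, nat_lit 0, nat_lit 0, nat_lit 0, nat_lit 0, nat_lit 0, nat_lit 0, nat_lit 0, nat_lit 0, nat_lit 0, false, false⟩,
 nat_lit 0, nat_lit 100000, nat_lit 0, nat_lit 0, nat_lit 48078, nat_lit 11224, nat_lit 15997, nat_lit 102, nat_lit 0, nat_lit 7607, nat_lit 0, nat_lit 19, nat_lit 0, nat_lit 126752016181871, nat_lit 0, nat_lit 0, nat_lit 5536379329, nat_lit 0, [],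
 ⟨p004_k55, nat_lit 0, nat_lit 0, nat_lit 0, nat_lit 0, nat_lit 211910, [nat_lit 8290000000, nat_lit 10416000000], [], [nat_lit 1833477651, nat_lit 695153381, nat_lit 1229711199, nat_lit 0], nat_lit 1271250, nat_lit 1271250, nat_lit 21650, nat_lit 43600, nat_lit 0, nat_lit 0, [nat_lit 1412500, nat_lit 1271250], [nat_lit 26, nat_lit 40, nat_lit 20, nat_lit 80]⟩, ⟨p004_k55, nat_lit 0, nat_lit 0, nat_lit 0, nat_lit 0, nat_lit 0, [nat_lit 6250000000, nat_lit 7968000000], [], [nat_lit 18268278918, nat_lit 18394588846, nat_lit 17633131904, nat_lit 17730571610], nat_lit 0, nat_lit 0, nat_lit 0, nat_lit 0, nat_lit 0, nat_lit 0, [], [nat_lit 26, nat_lit 40, nat_lit 20, nat_lit 80]⟩,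
 zbF0, [⟨nat_lit 0, nat_lit 100, nat_lit 100, nat_lit 22, nat_lit 2441633224⟩]⟩
noncomputable def p004_l297 : Lf2 := ⟨nat_lit 0, nat_lit 1, [nat_lit 19, nat_lit 5, nat_lit 5, nat_lit 20], true, nat_lit 0, nat_lit 0, nat_lit 0, nat_lit 0, ⟨nat_lit 0, nat_lit 0, nat_lit 1000, nat_lit 5, nat_lit 43, nat_lit 0, nat_lit 0, nat_lit 0, nat_lit 0, nat_lit 215, nat_lit 17067, nat_lit 247, nat_lit 66246794, nat_lit 0, nat_lit 0, nat_lit 307996, false, false⟩,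
 nat_lit 0, nat_lit 100000, nat_lit 0, nat_lit 0, nat_lit 48078, nat_lit 0, nat_lit 0, nat_lit 5442, nat_lit 0, nat_lit 0, nat_lit 0, nat_lit 0, nat_lit 0, nat_lit 155474077463406, nat_lit 0, nat_lit 1000000, nat_lit 0, nat_lit 0, [(nat_lit 3, [(nat_lit 6, nat_lit 1000)])],
 ⟨p004_k55, nat_lit 0, nat_lit 0, nat_lit 293, nat_lit 0, nat_lit 211910, [nat_lit 109881142858, nat_lit 129347600000], [], [nat_lit 301070526896, nat_lit 299839001234, nat_lit 300466760444, nat_lit 299237049245], nat_lit 1271250, nat_lit 1271250, nat_lit 21650, nat_lit 43600, nat_lit 0, nat_lit 0, [nat_lit 1412500, nat_lit 1271250], [nat_lit 26, nat_lit 40, nat_lit 20, nat_lit 80, nat_lit 2, nat_lit 272, nat_lit 60, nat_lit 10]⟩, C1.Rw.none,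
 ⟨nat_lit 6670, nat_lit 6690, ⟨.ofNat (nat_lit 101316), .ofNat (nat_lit 109912), .ofNat (nat_lit 102388), .ofNat (nat_lit 110984), .ofNat (nat_lit 102284), .ofNat (nat_lit 110860), .ofNat (nat_lit 103355), .ofNat (nat_lit 111931)⟩, ⟨.ofNat (nat_lit 0), .ofNat (nat_lit 0), .ofNat (nat_lit 0), .ofNat (nat_lit 0), .ofNat (nat_lit 0), .ofNat (nat_lit 0), .ofNat (nat_lit 0), .ofNat (nat_lit 0)⟩⟩, [⟨nat_lit 0, nat_lit 100, nat_lit 100, nat_lit 22, nat_lit 858778722⟩]⟩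
noncomputable def p004_l298 : Lf2 := ⟨nat_lit 0, nat_lit 1, [nat_lit 19, nat_lit 5, nat_lit 5, nat_lit 20], true, nat_lit 0, nat_lit 0, nat_lit 0, nat_lit 0, ⟨nat_lit 0, nat_lit 0, nat_lit 1000, nat_lit 5, nat_lit 42, nat_lit 0, nat_lit 0, nat_lit 0, nat_lit 0, nat_lit 215, nat_lit 16017, nat_lit 246, nat_lit 66274898, nat_lit 0, nat_lit 0, nat_lit 298556, false, false⟩,
 nat_lit 0, nat_lit 1942, nat_lit 0, nat_lit 0, nat_lit 928, nat_lit 0, nat_lit 0, nat_lit 0, nat_lit 202, nat_lit 0, nat_lit 0, nat_lit 0, nat_lit 0, nat_lit 13726880217703, nat_lit 31, nat_lit 400000, nat_lit 0, nat_lit 0, [(nat_lit 3, [(nat_lit 5, nat_lit 1000)])],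
 ⟨p004_k54, nat_lit 0, nat_lit 0, nat_lit 0, nat_lit 0, nat_lit 205112, [nat_lit 1356666667, nat_lit 998533334, nat_lit 6400000], [], [nat_lit 6788185176, nat_lit 6830662258, nat_lit 6781764062, nat_lit 6824202682], nat_lit 1271250, nat_lit 1271250, nat_lit 21650, nat_lit 43600, nat_lit 0, nat_lit 0, [nat_lit 780000, nat_lit 1435000, nat_lit 1271250], [nat_lit 18, nat_lit 40, nat_lit 20, nat_lit 80]⟩, C1.Rw.none,
 ⟨nat_lit 6689, nat_lit 6709, ⟨.ofNat (nat_lit 99275), .ofNat (nat_lit 107890), .ofNat (nat_lit 100347), .ofNat (nat_lit 108962), .ofNat (nat_lit 100245), .ofNat (nat_lit 108840), .ofNat (nat_lit 101316), .ofNat (nat_lit 109912)⟩, ⟨.ofNat (nat_lit 0), .ofNat (nat_lit 0), .ofNat (nat_lit 0), .ofNat (nat_lit 0), .ofNat (nat_lit 0), .ofNat (nat_lit 0), .ofNat (nat_lit 0), .ofNat (nat_lit 0)⟩⟩, [⟨nat_lit 0, nat_lit 100, nat_lit 100, nat_lit 21, nat_lit 114122323⟩]⟩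
noncomputable def p004_l299 : Lf2 := ⟨nat_lit 0, nat_lit 1, [nat_lit 19, nat_lit 5, nat_lit 5, nat_lit 20], true, nat_lit 0, nat_lit 0, nat_lit 0, nat_lit 0, ⟨nat_lit 0, nat_lit 0, nat_lit 1000, nat_lit 5, nat_lit 42, nat_lit 0, nat_lit 0, nat_lit 0, nat_lit 0, nat_lit 215, nat_lit 16017, nat_lit 246, nat_lit 66274898, nat_lit 0, nat_lit 0, nat_lit 298556, false, false⟩,
 nat_lit 0, nat_lit 12478, nat_lit 0, nat_lit 0, nat_lit 5967, nat_lit 0, nat_lit 1916, nat_lit 0, nat_lit 0, nat_lit 0, nat_lit 0, nat_lit 0, nat_lit 0, nat_lit 29781145459480, nat_lit 53, nat_lit 1000000, nat_lit 0, nat_lit 0, [(nat_lit 3, [(nat_lit 6, nat_lit 1000)])],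
 ⟨p004_k54, nat_lit 0, nat_lit 0, nat_lit 0, nat_lit 0, nat_lit 205112, [nat_lit 1559200001, nat_lit 1418400001, nat_lit 13599999], [], [nat_lit 11981359633, nat_lit 11852006810, nat_lit 11964539029, nat_lit 11807268600], nat_lit 1271250, nat_lit 1271250, nat_lit 21650, nat_lit 43600, nat_lit 0, nat_lit 0, [nat_lit 780000, nat_lit 1435000, nat_lit 1271250], [nat_lit 18, nat_lit 40, nat_lit 20, nat_lit 80]⟩, C1.Rw.none,
 ⟨nat_lit 6689, nat_lit 6709, ⟨.ofNat (nat_lit 99275), .ofNat (nat_lit 107890), .ofNat (nat_lit 100347), .ofNat (nat_lit 108962), .ofNat (nat_lit 100245), .ofNat (nat_lit 108840), .ofNat (nat_lit 101316), .ofNat (nat_lit 109912)⟩, ⟨.ofNat (nat_lit 0), .ofNat (nat_lit 0), .ofNat (nat_lit 0), .ofNat (nat_lit 0), .ofNat (nat_lit 0), .ofNat (nat_lit 0), .ofNat (nat_lit 0), .ofNat (nat_lit 0)⟩⟩, [⟨nat_lit 0, nat_lit 100, nat_lit 100, nat_lit 20, nat_lit 127509441⟩]⟩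
noncomputable def p004_l300 : Lf2 := ⟨nat_lit 0, nat_lit 1, [nat_lit 19, nat_lit 5, nat_lit 5, nat_lit 20], false, nat_lit 0, nat_lit 0, nat_lit 0, nat_lit 0, ⟨nat_lit 1000, nat_lit 0, nat_lit 0, nat_lit 0, nat_lit 0, nat_lit 0, nat_lit 0, nat_lit 0, nat_lit 0, nat_lit 0, nat_lit 0, nat_lit 0, nat_lit 0, nat_lit 0, nat_lit 0, nat_lit 0, false, false⟩,
 nat_lit 0, nat_lit 100000, nat_lit 0, nat_lit 0, nat_lit 47826, nat_lit 9757, nat_lit 16467, nat_lit 22, nat_lit 0, nat_lit 7138, nat_lit 0, nat_lit 89, nat_lit 0, nat_lit 122701764894031, nat_lit 0, nat_lit 0, nat_lit 8847392532, nat_lit 0, [],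
 ⟨p004_k52, nat_lit 0, nat_lit 0, nat_lit 0, nat_lit 0, nat_lit 205112, [nat_lit 6690000000, nat_lit 8496000000], [], [nat_lit 1825212260, nat_lit 692220562, nat_lit 1223265688, nat_lit 0], nat_lit 1271250, nat_lit 1271250, nat_lit 21650, nat_lit 43600, nat_lit 0, nat_lit 0, [nat_lit 1412500, nat_lit 1271250], [nat_lit 26, nat_lit 40, nat_lit 20, nat_lit 80]⟩, ⟨p004_k52, nat_lit 0, nat_lit 0, nat_lit 0, nat_lit 0, nat_lit 0, [nat_lit 6250000000, nat_lit 7968000000], [], [nat_lit 16499786968, nat_lit 16596506576, nat_lit 15957686182, nat_lit 16046746530], nat_lit 0, nat_lit 0, nat_lit 0, nat_lit 0, nat_lit 0, nat_lit 0, [], [nat_lit 26, nat_lit 40, nat_lit 20, nat_lit 80]⟩,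
 zbF0, [⟨nat_lit 0, nat_lit 100, nat_lit 100, nat_lit 21, nat_lit 2332179136⟩]⟩
noncomputable def p004_l301 : Lf2 := ⟨nat_lit 0, nat_lit 1, [nat_lit 19, nat_lit 5, nat_lit 5, nat_lit 20], true, nat_lit 0, nat_lit 0, nat_lit 0, nat_lit 0, ⟨nat_lit 0, nat_lit 0, nat_lit 1000, nat_lit 5, nat_lit 42, nat_lit 0, nat_lit 0, nat_lit 0, nat_lit 0, nat_lit 215, nat_lit 16017, nat_lit 246, nat_lit 66274898, nat_lit 0, nat_lit 0, nat_lit 298556, false, false⟩,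
 nat_lit 0, nat_lit 100000, nat_lit 0, nat_lit 0, nat_lit 47826, nat_lit 0, nat_lit 0, nat_lit 919, nat_lit 0, nat_lit 0, nat_lit 0, nat_lit 0, nat_lit 0, nat_lit 122234213101589, nat_lit 0, nat_lit 1000000, nat_lit 0, nat_lit 0, [(nat_lit 3, [(nat_lit 6, nat_lit 1000)])],
 ⟨p004_k52, nat_lit 0, nat_lit 0, nat_lit 293, nat_lit 0, nat_lit 205112, [nat_lit 19421142858, nat_lit 20795600000], [], [nat_lit 31171248302, nat_lit 29946252138, nat_lit 30569301730, nat_lit 29346036042], nat_lit 1271250, nat_lit 1271250, nat_lit 21650, nat_lit 43600, nat_lit 0, nat_lit 0, [nat_lit 1412500, nat_lit 1271250], [nat_lit 26, nat_lit 40, nat_lit 20, nat_lit 80, nat_lit 2, nat_lit 272, nat_lit 60, nat_lit 10]⟩, C1.Rw.none,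
 ⟨nat_lit 6689, nat_lit 6709, ⟨.ofNat (nat_lit 99275), .ofNat (nat_lit 107890), .ofNat (nat_lit 100347), .ofNat (nat_lit 108962), .ofNat (nat_lit 100245), .ofNat (nat_lit 108840), .ofNat (nat_lit 101316), .ofNat (nat_lit 109912)⟩, ⟨.ofNat (nat_lit 0), .ofNat (nat_lit 0), .ofNat (nat_lit 0), .ofNat (nat_lit 0), .ofNat (nat_lit 0), .ofNat (nat_lit 0), .ofNat (nat_lit 0), .ofNat (nat_lit 0)⟩⟩, [⟨nat_lit 0, nat_lit 100, nat_lit 100, nat_lit 21, nat_lit 856166698⟩]⟩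
noncomputable def p004_l302 : Lf2 := ⟨nat_lit 0, nat_lit 1, [nat_lit 19, nat_lit 5, nat_lit 5, nat_lit 20], true, nat_lit 0, nat_lit 0, nat_lit 0, nat_lit 0, ⟨nat_lit 0, nat_lit 0, nat_lit 1000, nat_lit 5, nat_lit 42, nat_lit 0, nat_lit 0, nat_lit 0, nat_lit 0, nat_lit 215, nat_lit 17067, nat_lit 247, nat_lit 66261692, nat_lit 0, nat_lit 0, nat_lit 303004, false, false⟩,
 nat_lit 0, nat_lit 5909, nat_lit 0, nat_lit 0, nat_lit 2840, nat_lit 0, nat_lit 348, nat_lit 0, nat_lit 0, nat_lit 0, nat_lit 0, nat_lit 0, nat_lit 0, nat_lit 0, nat_lit 21, nat_lit 1000000, nat_lit 0, nat_lit 0, [(nat_lit 3, [(nat_lit 6, nat_lit 1000)])],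
 ⟨p004_k57, nat_lit 0, nat_lit 0, nat_lit 0, nat_lit 0, nat_lit 207977, [nat_lit 802533334, nat_lit 1243066667, nat_lit 12000000], [], [nat_lit 13816759412, nat_lit 13861589656, nat_lit 13789476053, nat_lit 13762433885], nat_lit 1271250, nat_lit 1271250, nat_lit 21650, nat_lit 43600, nat_lit 0, nat_lit 0, [nat_lit 631250, nat_lit 1271250, nat_lit 1271250], [nat_lit 90, nat_lit 40, nat_lit 20, nat_lit 40]⟩, C1.Rw.none,
 ⟨nat_lit 6670, nat_lit 6690, ⟨.ofNat (nat_lit 100245), .ofNat (nat_lit 108840), .ofNat (nat_lit 101316), .ofNat (nat_lit 109912), .ofNat (nat_lit 101212), .ofNat (nat_lit 109788), .ofNat (nat_lit 102284), .ofNat (nat_lit 110860)⟩, ⟨.ofNat (nat_lit 0), .ofNat (nat_lit 0), .ofNat (nat_lit 0), .ofNat (nat_lit 0), .ofNat (nat_lit 0), .ofNat (nat_lit 0), .ofNat (nat_lit 0), .ofNat (nat_lit 0)⟩⟩, [⟨nat_lit 0, nat_lit 100, nat_lit 100, nat_lit 21, nat_lit 140773714⟩]⟩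
noncomputable def p004_l303 : Lf2 := ⟨nat_lit 0, nat_lit 1, [nat_lit 19, nat_lit 5, nat_lit 5, nat_lit 20], true, nat_lit 0, nat_lit 0, nat_lit 0, nat_lit 0, ⟨nat_lit 0, nat_lit 0, nat_lit 1000, nat_lit 5, nat_lit 42, nat_lit 0, nat_lit 0, nat_lit 0, nat_lit 0, nat_lit 215, nat_lit 17067, nat_lit 247, nat_lit 66261692, nat_lit 0, nat_lit 0, nat_lit 303004, false, false⟩,
 nat_lit 0, nat_lit 100000, nat_lit 0, nat_lit 0, nat_lit 48078, nat_lit 0, nat_lit 0, nat_lit 5597, nat_lit 0, nat_lit 0, nat_lit 0, nat_lit 0, nat_lit 0, nat_lit 0, nat_lit 0, nat_lit 1000000, nat_lit 0, nat_lit 0, [(nat_lit 3, [(nat_lit 6, nat_lit 1000)])],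
 ⟨p004_k55, nat_lit 0, nat_lit 0, nat_lit 293, nat_lit 0, nat_lit 207977, [nat_lit 112981142858, nat_lit 133067600000], [], [nat_lit 310370526896, nat_lit 309758305986, nat_lit 309766760444, nat_lit 308537049245], nat_lit 1271250, nat_lit 1271250, nat_lit 21650, nat_lit 43600, nat_lit 0, nat_lit 0, [nat_lit 1412500, nat_lit 1271250], [nat_lit 26, nat_lit 40, nat_lit 20, nat_lit 80, nat_lit 2, nat_lit 272, nat_lit 60, nat_lit 10]⟩, C1.Rw.none,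
 ⟨nat_lit 6670, nat_lit 6690, ⟨.ofNat (nat_lit 100245), .ofNat (nat_lit 108840), .ofNat (nat_lit 101316), .ofNat (nat_lit 109912), .ofNat (nat_lit 101212), .ofNat (nat_lit 109788), .ofNat (nat_lit 102284), .ofNat (nat_lit 110860)⟩, ⟨.ofNat (nat_lit 0), .ofNat (nat_lit 0), .ofNat (nat_lit 0), .ofNat (nat_lit 0), .ofNat (nat_lit 0), .ofNat (nat_lit 0), .ofNat (nat_lit 0), .ofNat (nat_lit 0)⟩⟩, [⟨nat_lit 0, nat_lit 100, nat_lit 100, nat_lit 21, nat_lit 861131687⟩]⟩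
noncomputable def p004_l304 : Lf2 := ⟨nat_lit 0, nat_lit 1, [nat_lit 19, nat_lit 5, nat_lit 5, nat_lit 20], true, nat_lit 0, nat_lit 0, nat_lit 0, nat_lit 0, ⟨nat_lit 0, nat_lit 0, nat_lit 1000, nat_lit 5, nat_lit 43, nat_lit 0, nat_lit 0, nat_lit 0, nat_lit 0, nat_lit 215, nat_lit 17067, nat_lit 247, nat_lit 66246794, nat_lit 0, nat_lit 0, nat_lit 307996, false, false⟩,
 nat_lit 0, nat_lit 5902, nat_lit 0, nat_lit 0, nat_lit 2837, nat_lit 0, nat_lit 346, nat_lit 0, nat_lit 0, nat_lit 0, nat_lit 0, nat_lit 0, nat_lit 0, nat_lit 18762918833923, nat_lit 21, nat_lit 1000000, nat_lit 0, nat_lit 0, [(nat_lit 3, [(nat_lit 6, nat_lit 1000)])],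
 ⟨p004_k57, nat_lit 0, nat_lit 0, nat_lit 0, nat_lit 0, nat_lit 211910, [nat_lit 802533334, nat_lit 1243066667, nat_lit 12000000], [], [nat_lit 13821194074, nat_lit 13864114692, nat_lit 13794300986, nat_lit 13767013088], nat_lit 1271250, nat_lit 1271250, nat_lit 21650, nat_lit 43600, nat_lit 0, nat_lit 0, [nat_lit 631250, nat_lit 1271250, nat_lit 1271250], [nat_lit 90, nat_lit 40, nat_lit 20, nat_lit 40]⟩, C1.Rw.none,
 ⟨nat_lit 6670, nat_lit 6690, ⟨.ofNat (nat_lit 101316), .ofNat (nat_lit 109912), .ofNat (nat_lit 102388), .ofNat (nat_lit 110984), .ofNat (nat_lit 102284), .ofNat (nat_lit 110860), .ofNat (nat_lit 103355), .ofNat (nat_lit 111931)⟩, ⟨.ofNat (nat_lit 0), .ofNat (nat_lit 0), .ofNat (nat_lit 0), .ofNat (nat_lit 0), .ofNat (nat_lit 0), .ofNat (nat_lit 0), .ofNat (nat_lit 0), .ofNat (nat_lit 0)⟩⟩, [⟨nat_lit 0, nat_lit 100, nat_lit 100, nat_lit 22, nat_lit 216639644⟩]⟩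
noncomputable def p004_l305 : Lf2 := ⟨nat_lit 0, nat_lit 1, [nat_lit 19, nat_lit 5, nat_lit 5, nat_lit 20], true, nat_lit 0, nat_lit 0, nat_lit 0, nat_lit 0, ⟨nat_lit 0, nat_lit 0, nat_lit 1000, nat_lit 5, nat_lit 43, nat_lit 0, nat_lit 0, nat_lit 0, nat_lit 0, nat_lit 215, nat_lit 17067, nat_lit 247, nat_lit 66246794, nat_lit 0, nat_lit 0, nat_lit 307996, false, false⟩,
 nat_lit 0, nat_lit 100000, nat_lit 0, nat_lit 0, nat_lit 48078, nat_lit 0, nat_lit 0, nat_lit 5442, nat_lit 0, nat_lit 0, nat_lit 0, nat_lit 0, nat_lit 0, nat_lit 155474077463406, nat_lit 0, nat_lit 1000000, nat_lit 0, nat_lit 0, [(nat_lit 3, [(nat_lit 6, nat_lit 1000)])],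
 ⟨p004_k55, nat_lit 0, nat_lit 0, nat_lit 293, nat_lit 0, nat_lit 211910, [nat_lit 109881142858, nat_lit 129347600000], [], [nat_lit 301070526896, nat_lit 299839001234, nat_lit 300466760444, nat_lit 299237049245], nat_lit 1271250, nat_lit 1271250, nat_lit 21650, nat_lit 43600, nat_lit 0, nat_lit 0, [nat_lit 1412500, nat_lit 1271250], [nat_lit 26, nat_lit 40, nat_lit 20, nat_lit 80, nat_lit 2, nat_lit 272, nat_lit 60, nat_lit 10]⟩, C1.Rw.none,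
 ⟨nat_lit 6670, nat_lit 6690, ⟨.ofNat (nat_lit 101316), .ofNat (nat_lit 109912), .ofNat (nat_lit 102388), .ofNat (nat_lit 110984), .ofNat (nat_lit 102284), .ofNat (nat_lit 110860), .ofNat (nat_lit 103355), .ofNat (nat_lit 111931)⟩, ⟨.ofNat (nat_lit 0), .ofNat (nat_lit 0), .ofNat (nat_lit 0), .ofNat (nat_lit 0), .ofNat (nat_lit 0), .ofNat (nat_lit 0), .ofNat (nat_lit 0), .ofNat (nat_lit 0)⟩⟩, [⟨nat_lit 0, nat_lit 100, nat_lit 100, nat_lit 22, nat_lit 858778722⟩]⟩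
noncomputable def p004_l306 : Lf2 := ⟨nat_lit 0, nat_lit 1, [nat_lit 19, nat_lit 5, nat_lit 5, nat_lit 20], false, nat_lit 0, nat_lit 0, nat_lit 0, nat_lit 0, ⟨nat_lit 1000, nat_lit 0, nat_lit 0, nat_lit 0, nat_lit 0, nat_lit 0, nat_lit 0, nat_lit 0, nat_lit 0, nat_lit 0, nat_lit 0, nat_lit 0, nat_lit 0, nat_lit 0, nat_lit 0, nat_lit 0, false, false⟩,
 nat_lit 0, nat_lit 26869, nat_lit 0, nat_lit 0, nat_lit 12850, nat_lit 71515, nat_lit 0, nat_lit 0, nat_lit 0, nat_lit 60000, nat_lit 5936, nat_lit 0, nat_lit 0, nat_lit 67981156927173, nat_lit 0, nat_lit 0, nat_lit 0, nat_lit 0, [],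
 ⟨p004_k52, nat_lit 0, nat_lit 0, nat_lit 294, nat_lit 0, nat_lit 213045, [nat_lit 6250000000, nat_lit 7968000000], [], [nat_lit 26244606800, nat_lit 25987769213, nat_lit 26147084100, nat_lit 25489744406], nat_lit 1271250, nat_lit 1271250, nat_lit 21650, nat_lit 43600, nat_lit 0, nat_lit 0, [nat_lit 1412500, nat_lit 1271250], [nat_lit 26, nat_lit 40, nat_lit 20, nat_lit 80, nat_lit 2, nat_lit 272, nat_lit 60, nat_lit 10]⟩, ⟨p004_k54, nat_lit 0, nat_lit 0, nat_lit 0, nat_lit 0, nat_lit 0, [nat_lit 74514000000, nat_lit 124970000000, nat_lit 150432000000], [], [nat_lit 148041961723, nat_lit 149145246301, nat_lit 143627297754, nat_lit 144731098340], nat_lit 0, nat_lit 0, nat_lit 0, nat_lit 0, nat_lit 0, nat_lit 0, [], [nat_lit 18, nat_lit 40, nat_lit 20, nat_lit 80]⟩,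
 zbF0, [⟨nat_lit 0, nat_lit 100, nat_lit 100, nat_lit 21, nat_lit 6532533470⟩]⟩
noncomputable def p004_l307 : Lf2 := ⟨nat_lit 0, nat_lit 1, [nat_lit 19, nat_lit 5, nat_lit 5, nat_lit 20], false, nat_lit 0, nat_lit 0, nat_lit 0, nat_lit 0, ⟨nat_lit 0, nat_lit 0, nat_lit 1000, nat_lit 5, nat_lit 42, nat_lit 0, nat_lit 0, nat_lit 0, nat_lit 0, nat_lit 215, nat_lit 17067, nat_lit 247, nat_lit 66260919, nat_lit 0, nat_lit 0, nat_lit 303264, false, false⟩,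
 nat_lit 0, nat_lit 14610, nat_lit 0, nat_lit 48286, nat_lit 6987, nat_lit 100000, nat_lit 0, nat_lit 0, nat_lit 0, nat_lit 60000, nat_lit 9159, nat_lit 0, nat_lit 0, nat_lit 400000000000000, nat_lit 53, nat_lit 1000000, nat_lit 0, nat_lit 0, [(nat_lit 3, [(nat_lit 6, nat_lit 1000)])],
 ⟨p004_k52, nat_lit 0, nat_lit 0, nat_lit 294, nat_lit 0, nat_lit 213045, [nat_lit 2101142858, nat_lit 11600000], [], [nat_lit 16415791910, nat_lit 16057845665, nat_lit 16402825396, nat_lit 16045406529], nat_lit 1271250, nat_lit 1271250, nat_lit 21650, nat_lit 43600, nat_lit 0, nat_lit 0, [nat_lit 1412500, nat_lit 1271250], [nat_lit 26, nat_lit 40, nat_lit 20, nat_lit 80, nat_lit 2, nat_lit 272, nat_lit 60, nat_lit 10]⟩, ⟨p004_k54, nat_lit 0, nat_lit 0, nat_lit 0, nat_lit 0, nat_lit 0, [nat_lit 109908000000, nat_lit 183180000000, nat_lit 219816000000], [], [nat_lit 218988280000, nat_lit 220318992001,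 nat_lit 212760680000, nat_lit 213979912000], nat_lit 0, nat_lit 0, nat_lit 0, nat_lit 0, nat_lit 0, nat_lit 0, [], [nat_lit 18, nat_lit 40, nat_lit 20, nat_lit 80]⟩,
 ⟨nat_lit 6670, nat_lit 6709, ⟨.ofNat (nat_lit 99275), .ofNat (nat_lit 107890), .ofNat (nat_lit 101419), .ofNat (nat_lit 110034), .ofNat (nat_lit 101212), .ofNat (nat_lit 109788), .ofNat (nat_lit 103355), .ofNat (nat_lit 111931)⟩, ⟨.ofNat (nat_lit 0), .ofNat (nat_lit 0), .ofNat (nat_lit 0), .ofNat (nat_lit 0), .ofNat (nat_lit 0), .ofNat (nat_lit 0), .ofNat (nat_lit 0), .ofNat (nat_lit 0)⟩⟩, []⟩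
noncomputable def b_NL_550_550_0_9 : St := ⟨false, nat_lit 1, nat_lit 0, nat_lit 1, nat_lit 20, nat_lit 220, nat_lit 222, nat_lit 220, nat_lit 222, nat_lit 4, nat_lit 8, nat_lit 0, nat_lit 0, nat_lit 0, nat_lit 0, nat_lit 0, nat_lit 0, nat_lit 0, nat_lit 4, nat_lit 0, nat_lit 0, nat_lit 200, nat_lit 400⟩
theorem d_NL_550_550_0_9 (h : EB TB.env) : Dead b_NL_550_550_0_9 := chkB_sound0 h (T :=
(.spl (nat_lit 8) (nat_lit 300)
(.spl (nat_lit 8) (nat_lit 260)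
(.spl (nat_lit 8) (nat_lit 240)
(.spl (nat_lit 0) (nat_lit 221)
(.ord (.spl (nat_lit 8) (nat_lit 220)
(.spl (nat_lit 7) (nat_lit 600)
(.spl (nat_lit 7) (nat_lit 300)
(.leaf p004_l274)
(.spl (nat_lit 7) (nat_lit 460)
(.leaf p004_l275)
(.leaf p004_l276)))
(.leaf p004_l277))
(.spl (nat_lit 7) (nat_lit 600)
(.spl (nat_lit 7) (nat_lit 300)
(.leaf p004_l278)
(.spl (nat_lit 7) (nat_lit 460)
(.leaf p004_l279)
(.leaf p004_l280)))
(.leaf p004_l281))))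
(.spl (nat_lit 1) (nat_lit 221)
(.spl (nat_lit 8) (nat_lit 220)
(.spl (nat_lit 7) (nat_lit 600)
(.spl (nat_lit 7) (nat_lit 300)
(.leaf p004_l282)
(.spl (nat_lit 7) (nat_lit 460)
(.leaf p004_l283)
(.leaf p004_l284)))
(.leaf p004_l285))
(.spl (nat_lit 7) (nat_lit 600)
(.spl (nat_lit 7) (nat_lit 300)
(.leaf p004_l286)
(.spl (nat_lit 7) (nat_lit 460)
(.leaf p004_l287)
(.leaf p004_l288)))
(.leaf p004_l289)))
(.spl (nat_lit 8) (nat_lit 220)
(.spl (nat_lit 7) (nat_lit 600)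
(.spl (nat_lit 7) (nat_lit 300)
(.leaf p004_l290)
(.spl (nat_lit 7) (nat_lit 460)
(.leaf p004_l291)
(.leaf p004_l292)))
(.leaf p004_l293))
(.spl (nat_lit 7) (nat_lit 600)
(.spl (nat_lit 7) (nat_lit 300)
(.leaf p004_l294)
(.spl (nat_lit 7) (nat_lit 460)
(.leaf p004_l295)
(.leaf p004_l296)))
(.leaf p004_l297)))))
(.spl (nat_lit 1) (nat_lit 221)
(.spl (nat_lit 0) (nat_lit 221)
(.spl (nat_lit 7) (nat_lit 600)
(.spl (nat_lit 7) (nat_lit 300)
(.leaf p004_l298)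
(.spl (nat_lit 7) (nat_lit 460)
(.leaf p004_l299)
(.leaf p004_l300)))
(.leaf p004_l301))
(.spl (nat_lit 7) (nat_lit 600)
(.leaf p004_l302)
(.leaf p004_l303)))
(.ord (.spl (nat_lit 7) (nat_lit 600)
(.leaf p004_l304)
(.leaf p004_l305)))))
(.leaf p004_l306))
(.leaf p004_l307))) (by decide +kernel)

end B2
end Pool.Agent.Lib.MP_6947cd_al
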