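import Pool.Agent.Lib.MP_6947cd_al.ZB.Pre

/-!
Problem MP_6947cd_al (Chollet).  Case B, second entry in [2/5, 17/20]: certificates of the tree, part P026 (generated).
-/

set_option autoImplicit false
set_option linter.all false

namespace Pool.Agent.Lib.MP_6947cd_al
namespace B2

open Ent Fr B1 PkA

noncomputable def p026_k0 : C1.Kn := ⟨[nat_lit 100, nat_lit 120, nat_lit 140], [nat_lit 0, nat_lit 0, nat_lit 533], [(nat_lit 0, nat_lit 0, nat_lit 0), (nat_lit 0, nat_lit 0, nat_lit 0), (nat_lit 924, nat_lit 1000, nat_lit 383)], (nat_lit 100, nat_lit 96, nat_lit 28)⟩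
noncomputable def p026_k1 : C1.Kn := ⟨[nat_lit 100, nat_lit 140], [nat_lit 0, nat_lit 508], [(nat_lit 0, nat_lit 0, nat_lit 0), (nat_lit 1000, nat_lit 1000, nat_lit 198)], (nat_lit 100, nat_lit 94, nat_lit 44)⟩
noncomputable def p026_k2 : C1.Kn := ⟨[nat_lit 60, nat_lit 90, nat_lit 100, nat_lit 120], [nat_lit 0, nat_lit 0, nat_lit 0, nat_lit 254], [(nat_lit 0, nat_lit 0, nat_lit 0), (nat_lit 0, nat_lit 0, nat_lit 0), (nat_lit 0, nat_lit 0, nat_lit 0), (nat_lit 1000, nat_lit 1000, nat_lit 198)], (nat_lit 100, nat_lit 99, nat_lit 28)⟩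
noncomputable def p026_k3 : C1.Kn := ⟨[nat_lit 90, nat_lit 110, nat_lit 130], [nat_lit 0, nat_lit 0, nat_lit 517], [(nat_lit 0, nat_lit 0, nat_lit 0), (nat_lit 0, nat_lit 0, nat_lit 0), (nat_lit 962, nat_lit 1000, nat_lit 387)], (nat_lit 100, nat_lit 97, nat_lit 34)⟩
noncomputable def p026_k4 : C1.Kn := ⟨[nat_lit 100, nat_lit 140], [nat_lit 0, nat_lit 508], [(nat_lit 0, nat_lit 0, nat_lit 0), (nat_lit 1000, nat_lit 1000, nat_lit 198)], (nat_lit 100, nat_lit 97, nat_lit 34)⟩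
noncomputable def p026_k5 : C1.Kn := ⟨[nat_lit 90, nat_lit 110, nat_lit 130], [nat_lit 0, nat_lit 129, nat_lit 640], [(nat_lit 0, nat_lit 0, nat_lit 0), (nat_lit 1000, nat_lit 990, nat_lit 101), (nat_lit 981, nat_lit 1000, nat_lit 391)], (nat_lit 100, nat_lit 97, nat_lit 44)⟩
noncomputable def p026_k6 : C1.Kn := ⟨[nat_lit 90, nat_lit 110, nat_lit 130], [nat_lit 0, nat_lit 192, nat_lit 703], [(nat_lit 0, nat_lit 0, nat_lit 0), (nat_lit 1000, nat_lit 985, nat_lit 150), (nat_lit 990, nat_lit 1000, nat_lit 395)], (nat_lit 100, nat_lit 98, nat_lit 44)⟩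
noncomputable def p026_k7 : C1.Kn := ⟨[nat_lit 60, nat_lit 100, nat_lit 120, nat_lit 140], [nat_lit 0, nat_lit 0, nat_lit 383, nat_lit 902], [(nat_lit 0, nat_lit 0, nat_lit 0), (nat_lit 0, nat_lit 0, nat_lit 0), (nat_lit 1000, nat_lit 1000, nat_lit 299), (nat_lit 979, nat_lit 1000, nat_lit 397)], (nat_lit 100, nat_lit 97, nat_lit 44)⟩
noncomputable def p026_k8 : C1.Kn := ⟨[nat_lit 60, nat_lit 100, nat_lit 120, nat_lit 140], [nat_lit 0, nat_lit 0, nat_lit 448, nat_lit 962], [(nat_lit 0, nat_lit 0, nat_lit 0), (nat_lit 0, nat_lit 0, nat_lit 0), (nat_lit 1000, nat_lit 1000, nat_lit 350), (nat_lit 990, nat_lit 1000, nat_lit 398)], (nat_lit 100, nat_lit 98, nat_lit 44)⟩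
noncomputable def p026_k9 : C1.Kn := ⟨[nat_lit 100, nat_lit 120, nat_lit 140], [nat_lit 0, nat_lit 254, nat_lit 778], [(nat_lit 0, nat_lit 0, nat_lit 0), (nat_lit 1000, nat_lit 1000, nat_lit 198), (nat_lit 960, nat_lit 1000, nat_lit 392)], (nat_lit 100, nat_lit 94, nat_lit 44)⟩
noncomputable def p026_k10 : C1.Kn := ⟨[nat_lit 100, nat_lit 120, nat_lit 160], [nat_lit 0, nat_lit 0, nat_lit 1063], [(nat_lit 0, nat_lit 0, nat_lit 0), (nat_lit 0, nat_lit 0, nat_lit 0), (nat_lit 924, nat_lit 1000, nat_lit 383)], (nat_lit 100, nat_lit 90, nat_lit 44)⟩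
noncomputable def p026_k11 : C1.Kn := ⟨[nat_lit 60, nat_lit 100, nat_lit 120, nat_lit 140], [nat_lit 0, nat_lit 0, nat_lit 254, nat_lit 778], [(nat_lit 0, nat_lit 0, nat_lit 0), (nat_lit 0, nat_lit 0, nat_lit 0), (nat_lit 1000, nat_lit 1000, nat_lit 198), (nat_lit 960, nat_lit 1000, nat_lit 392)], (nat_lit 100, nat_lit 97, nat_lit 34)⟩
noncomputable def p026_k12 : C1.Kn := ⟨[nat_lit 60, nat_lit 100, nat_lit 120, nat_lit 140], [nat_lit 0, nat_lit 0, nat_lit 320, nat_lit 839], [(nat_lit 0, nat_lit 0, nat_lit 0), (nat_lit 0, nat_lit 0, nat_lit 0), (nat_lit 1000, nat_lit 1000, nat_lit 250), (nat_lit 970, nat_lit 1000, nat_lit 393)], (nat_lit 100, nat_lit 98, nat_lit 34)⟩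
noncomputable def p026_k13 : C1.Kn := ⟨[nat_lit 50, nat_lit 90, nat_lit 110, nat_lit 130], [nat_lit 0, nat_lit 0, nat_lit 102, nat_lit 615], [(nat_lit 0, nat_lit 0, nat_lit 0), (nat_lit 0, nat_lit 0, nat_lit 0), (nat_lit 1000, nat_lit 992, nat_lit 80), (nat_lit 977, nat_lit 1000, nat_lit 390)], (nat_lit 100, nat_lit 99, nat_lit 34)⟩
noncomputable def p026_k14 : C1.Kn := ⟨[nat_lit 100, nat_lit 120], [nat_lit 0, nat_lit 383], [(nat_lit 0, nat_lit 0, nat_lit 0), (nat_lit 1000, nat_lit 1000, nat_lit 299)], (nat_lit 100, nat_lit 100, nat_lit 28)⟩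
noncomputable def p026_k15 : C1.Kn := ⟨[nat_lit 100, nat_lit 140], [nat_lit 0, nat_lit 766], [(nat_lit 0, nat_lit 0, nat_lit 0), (nat_lit 1000, nat_lit 1000, nat_lit 299)], (nat_lit 100, nat_lit 97, nat_lit 44)⟩
noncomputable def p026_k16 : C1.Kn := ⟨[nat_lit 100, nat_lit 120], [nat_lit 0, nat_lit 383], [(nat_lit 0, nat_lit 0, nat_lit 0), (nat_lit 1000, nat_lit 1000, nat_lit 299)], (nat_lit 100, nat_lit 99, nat_lit 35)⟩
noncomputable def p026_k17 : C1.Kn := ⟨[nat_lit 100, nat_lit 120], [nat_lit 0, nat_lit 448], [(nat_lit 0, nat_lit 0, nat_lit 0), (nat_lit 1000, nat_lit 1000, nat_lit 350)], (nat_lit 100, nat_lit 100, nat_lit 35)⟩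
noncomputable def p026_k18 : C1.Kn := ⟨[nat_lit 100, nat_lit 120], [nat_lit 0, nat_lit 486], [(nat_lit 0, nat_lit 0, nat_lit 0), (nat_lit 1000, nat_lit 999, nat_lit 375)], (nat_lit 99, nat_lit 100, nat_lit 35)⟩
noncomputable def p026_k19 : C1.Kn := ⟨[nat_lit 100, nat_lit 140], [nat_lit 0, nat_lit 896], [(nat_lit 0, nat_lit 0, nat_lit 0), (nat_lit 1000, nat_lit 1000, nat_lit 350)], (nat_lit 100, nat_lit 98, nat_lit 44)⟩
noncomputable def p026_k20 : C1.Kn := ⟨[nat_lit 100, nat_lit 120], [nat_lit 0, nat_lit 448], [(nat_lit 0, nat_lit 0, nat_lit 0), (nat_lit 1000, nat_lit 1000, nat_lit 350)], (nat_lit 99, nat_lit 100, nat_lit 28)⟩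
noncomputable def p026_k21 : C1.Kn := ⟨[nat_lit 100, nat_lit 140], [nat_lit 0, nat_lit 970], [(nat_lit 0, nat_lit 0, nat_lit 0), (nat_lit 1000, nat_lit 1000, nat_lit 378)], (nat_lit 100, nat_lit 98, nat_lit 44)⟩
noncomputable def p026_k22 : C1.Kn := ⟨[nat_lit 100, nat_lit 140], [nat_lit 0, nat_lit 995], [(nat_lit 0, nat_lit 0, nat_lit 0), (nat_lit 1000, nat_lit 1000, nat_lit 388)], (nat_lit 100, nat_lit 99, nat_lit 44)⟩
noncomputable def p026_k23 : C1.Kn := ⟨[nat_lit 100, nat_lit 120, nat_lit 140], [nat_lit 0, nat_lit 383, nat_lit 902], [(nat_lit 0, nat_lit 0, nat_lit 0), (nat_lit 1000, nat_lit 1000, nat_lit 299), (nat_lit 979, nat_lit 1000, nat_lit 397)], (nat_lit 100, nat_lit 97, nat_lit 44)⟩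
noncomputable def p026_k24 : C1.Kn := ⟨[nat_lit 100, nat_lit 120], [nat_lit 0, nat_lit 254], [(nat_lit 0, nat_lit 0, nat_lit 0), (nat_lit 1000, nat_lit 1000, nat_lit 198)], (nat_lit 100, nat_lit 99, nat_lit 28)⟩
noncomputable def p026_k25 : C1.Kn := ⟨[nat_lit 100, nat_lit 160], [nat_lit 0, nat_lit 0], [(nat_lit 0, nat_lit 0, nat_lit 0), (nat_lit 0, nat_lit 0, nat_lit 0)], (nat_lit 100, nat_lit 90, nat_lit 44)⟩
noncomputable def p026_k26 : C1.Kn := ⟨[nat_lit 100, nat_lit 120], [nat_lit 0, nat_lit 320], [(nat_lit 0, nat_lit 0, nat_lit 0), (nat_lit 1000, nat_lit 1000, nat_lit 250)], (nat_lit 100, nat_lit 100, nat_lit 28)⟩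
noncomputable def p026_k27 : C1.Kn := ⟨[nat_lit 100, nat_lit 120], [nat_lit 0, nat_lit 486], [(nat_lit 0, nat_lit 0, nat_lit 0), (nat_lit 1000, nat_lit 999, nat_lit 375)], (nat_lit 99, nat_lit 100, nat_lit 28)⟩
noncomputable def p026_k28 : C1.Kn := ⟨[nat_lit 100, nat_lit 120], [nat_lit 0, nat_lit 422], [(nat_lit 0, nat_lit 0, nat_lit 0), (nat_lit 1000, nat_lit 1000, nat_lit 329)], (nat_lit 99, nat_lit 100, nat_lit 28)⟩
noncomputable def p026_k29 : C1.Kn := ⟨[nat_lit 100, nat_lit 120], [nat_lit 0, nat_lit 448], [(nat_lit 0, nat_lit 0, nat_lit 0), (nat_lit 1000, nat_lit 1000, nat_lit 350)], (nat_lit 98, nat_lit 100, nat_lit 20)⟩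
noncomputable def p026_k30 : C1.Kn := ⟨[nat_lit 100, nat_lit 120], [nat_lit 0, nat_lit 254], [(nat_lit 0, nat_lit 0, nat_lit 0), (nat_lit 1000, nat_lit 1000, nat_lit 198)], (nat_lit 100, nat_lit 100, nat_lit 20)⟩
noncomputable def p026_k31 : C1.Kn := ⟨[nat_lit 100, nat_lit 120], [nat_lit 0, nat_lit 486], [(nat_lit 0, nat_lit 0, nat_lit 0), (nat_lit 1000, nat_lit 999, nat_lit 375)], (nat_lit 98, nat_lit 100, nat_lit 20)⟩
noncomputable def p026_k32 : C1.Kn := ⟨[nat_lit 100, nat_lit 120], [nat_lit 0, nat_lit 499], [(nat_lit 0, nat_lit 0, nat_lit 0), (nat_lit 1000, nat_lit 1000, nat_lit 388)], (nat_lit 98, nat_lit 100, nat_lit 20)⟩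
noncomputable def p026_k33 : C1.Kn := ⟨[nat_lit 100, nat_lit 120], [nat_lit 0, nat_lit 0], [(nat_lit 0, nat_lit 0, nat_lit 0), (nat_lit 0, nat_lit 0, nat_lit 0)], (nat_lit 100, nat_lit 98, nat_lit 20)⟩
noncomputable def p026_k34 : C1.Kn := ⟨[nat_lit 100, nat_lit 140], [nat_lit 0, nat_lit 256], [(nat_lit 0, nat_lit 0, nat_lit 0), (nat_lit 1000, nat_lit 1000, nat_lit 100)], (nat_lit 100, nat_lit 97, nat_lit 28)⟩
noncomputable def p026_k35 : C1.Kn := ⟨[nat_lit 100, nat_lit 120, nat_lit 140], [nat_lit 0, nat_lit 128, nat_lit 655], [(nat_lit 0, nat_lit 0, nat_lit 0), (nat_lit 1000, nat_lit 1000, nat_lit 100), (nat_lit 941, nat_lit 1000, nat_lit 388)], (nat_lit 100, nat_lit 97, nat_lit 28)⟩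
noncomputable def p026_k36 : C1.Kn := ⟨[nat_lit 100, nat_lit 120], [nat_lit 0, nat_lit 281], [(nat_lit 0, nat_lit 0, nat_lit 0), (nat_lit 1000, nat_lit 1000, nat_lit 219)], (nat_lit 100, nat_lit 99, nat_lit 28)⟩
noncomputable def p026_k37 : C1.Kn := ⟨[nat_lit 100, nat_lit 120], [nat_lit 0, nat_lit 293], [(nat_lit 0, nat_lit 0, nat_lit 0), (nat_lit 1000, nat_lit 1000, nat_lit 229)], (nat_lit 100, nat_lit 99, nat_lit 28)⟩
noncomputable def p026_k38 : C1.Kn := ⟨[nat_lit 100, nat_lit 120], [nat_lit 0, nat_lit 306], [(nat_lit 0, nat_lit 0, nat_lit 0), (nat_lit 1000, nat_lit 1000, nat_lit 238)], (nat_lit 100, nat_lit 99, nat_lit 28)⟩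
noncomputable def p026_k39 : C1.Kn := ⟨[nat_lit 100, nat_lit 120], [nat_lit 0, nat_lit 320], [(nat_lit 0, nat_lit 0, nat_lit 0), (nat_lit 1000, nat_lit 1000, nat_lit 250)], (nat_lit 99, nat_lit 100, nat_lit 20)⟩
noncomputable def p026_k40 : C1.Kn := ⟨[nat_lit 100, nat_lit 120, nat_lit 140], [nat_lit 0, nat_lit 254, nat_lit 778], [(nat_lit 0, nat_lit 0, nat_lit 0), (nat_lit 1000, nat_lit 1000, nat_lit 198), (nat_lit 960, nat_lit 1000, nat_lit 392)], (nat_lit 100, nat_lit 97, nat_lit 34)⟩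
noncomputable def p026_l0 : Lf2 := ⟨nat_lit 0, nat_lit 2, [nat_lit 10, nat_lit 5, nat_lit 5, nat_lit 20], true, nat_lit 0, nat_lit 160, nat_lit 0, nat_lit 320, ⟨nat_lit 0, nat_lit 0, nat_lit 1000, nat_lit 5, nat_lit 84, nat_lit 0, nat_lit 46, nat_lit 991, nat_lit 5400, nat_lit 233, nat_lit 66150, nat_lit 278, nat_lit 64199723, nat_lit 0, nat_lit 0, nat_lit 868027, false, false⟩,
 nat_lit 0, nat_lit 0, nat_lit 0, nat_lit 10012, nat_lit 5039, nat_lit 0, nat_lit 923, nat_lit 0, nat_lit 0, nat_lit 0, nat_lit 0, nat_lit 0, nat_lit 0, nat_lit 74873118345, nat_lit 90, nat_lit 1000000, nat_lit 0, nat_lit 0, [(nat_lit 0, [(nat_lit 6, nat_lit 1000)]), (nat_lit 3, [(nat_lit 6, nat_lit 1000)])],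
 ⟨p026_k0, nat_lit 0, nat_lit 0, nat_lit 298, nat_lit 0, nat_lit 0, [nat_lit 2841142858, nat_lit 1352800000, nat_lit 26400000], [], [nat_lit 12936500146, nat_lit 15173921154, nat_lit 10711119962, nat_lit 12746381334, nat_lit 11582883438, nat_lit 13485620678, nat_lit 9873427278, nat_lit 11721770136], nat_lit 0, nat_lit 0, nat_lit 0, nat_lit 0, nat_lit 0, nat_lit 0, [], [nat_lit 25, nat_lit 40, nat_lit 20, nat_lit 80, nat_lit 17, nat_lit 373, nat_lit 150, nat_lit 11]⟩, C1.Rw.none,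
 ⟨nat_lit 6324, nat_lit 7072, ⟨.ofNat (nat_lit 48812), .ofNat (nat_lit 319525), .ofNat (nat_lit 70361), .ofNat (nat_lit 341073), .ofNat (nat_lit 88675), .ofNat (nat_lit 335470), .ofNat (nat_lit 110044), .ofNat (nat_lit 356838)⟩, ⟨.negSucc (nat_lit 145122), .ofNat (nat_lit 215827), .negSucc (nat_lit 123573), .ofNat (nat_lit 237375), .negSucc (nat_lit 103636), .ofNat (nat_lit 225422), .negSucc (nat_lit 82267), .ofNat (nat_lit 246790)⟩⟩, [⟨nat_lit 0, nat_lit 100, nat_lit 100, nat_lit 15, nat_lit 181661686⟩]⟩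
noncomputable def p026_l1 : Lf2 := ⟨nat_lit 1, nat_lit 5, [nat_lit 4, nat_lit 5, nat_lit 5, nat_lit 20], false, nat_lit 0, nat_lit 160, nat_lit 0, nat_lit 320, zbN0,
 nat_lit 0, nat_lit 0, nat_lit 0, nat_lit 0, nat_lit 0, nat_lit 0, nat_lit 0, nat_lit 0, nat_lit 0, nat_lit 0, nat_lit 0, nat_lit 0, nat_lit 0, nat_lit 0, nat_lit 0, nat_lit 0, nat_lit 0, nat_lit 0, [],
 C1.Rw.none, C1.Rw.none,
 zbF0, []⟩
noncomputable def p026_l2 : Lf2 := ⟨nat_lit 0, nat_lit 5, [nat_lit 4, nat_lit 5, nat_lit 5, nat_lit 20], true, nat_lit 0, nat_lit 80, nat_lit 0, nat_lit 304, ⟨nat_lit 0, nat_lit 0, nat_lit 1000, nat_lit 5, nat_lit 97, nat_lit 0, nat_lit 13, nat_lit 0, nat_lit 600, nat_lit 209, nat_lit 86400, nat_lit 287, nat_lit 63305460, nat_lit 0, nat_lit 0, nat_lit 1066926, false, false⟩,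
 nat_lit 0, nat_lit 0, nat_lit 0, nat_lit 6390, nat_lit 4823, nat_lit 0, nat_lit 0, nat_lit 0, nat_lit 0, nat_lit 0, nat_lit 0, nat_lit 0, nat_lit 0, nat_lit 8540846768756, nat_lit 115, nat_lit 1000000, nat_lit 0, nat_lit 0, [(nat_lit 3, [(nat_lit 6, nat_lit 1000)])],
 ⟨p026_k1, nat_lit 0, nat_lit 0, nat_lit 289, nat_lit 0, nat_lit 0, [nat_lit 3341142858, nat_lit 23600000], [], [nat_lit 14703902366, nat_lit 15468191129, nat_lit 12931075588, nat_lit 13621885388, nat_lit 12684904573, nat_lit 13411868925, nat_lit 11207075356, nat_lit 11859827336], nat_lit 0, nat_lit 0, nat_lit 0, nat_lit 0, nat_lit 0, nat_lit 0, [], [nat_lit 51, nat_lit 40, nat_lit 20, nat_lit 80, nat_lit 1, nat_lit 345, nat_lit 125, nat_lit 11]⟩, C1.Rw.none,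
 ⟨nat_lit 6324, nat_lit 6709, ⟨.ofNat (nat_lit 99275), .ofNat (nat_lit 349126), .ofNat (nat_lit 120713), .ofNat (nat_lit 370564), .ofNat (nat_lit 118272), .ofNat (nat_lit 356838), .ofNat (nat_lit 139640), .ofNat (nat_lit 378206)⟩, ⟨.negSucc (nat_lit 123724), .ofNat (nat_lit 48587), .negSucc (nat_lit 102285), .ofNat (nat_lit 70025), .negSucc (nat_lit 103634), .ofNat (nat_lit 60895), .negSucc (nat_lit 82265), .ofNat (nat_lit 82263)⟩⟩, [⟨nat_lit 0, nat_lit 100, nat_lit 100, nat_lit 40, nat_lit 182638987⟩]⟩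
noncomputable def p026_l3 : Lf2 := ⟨nat_lit 0, nat_lit 5, [nat_lit 4, nat_lit 5, nat_lit 5, nat_lit 20], true, nat_lit 80, nat_lit 160, nat_lit 0, nat_lit 304, ⟨nat_lit 0, nat_lit 0, nat_lit 1000, nat_lit 5, nat_lit 97, nat_lit 1000, nat_lit 60, nat_lit 1000, nat_lit 33750, nat_lit 260, nat_lit 86400, nat_lit 287, nat_lit 61035219, nat_lit 0, nat_lit 0, nat_lit 1873014, false, false⟩,
 nat_lit 0, nat_lit 0, nat_lit 0, nat_lit 2952, nat_lit 6701, nat_lit 0, nat_lit 0, nat_lit 0, nat_lit 0, nat_lit 0, nat_lit 0, nat_lit 0, nat_lit 0, nat_lit 7566213014108, nat_lit 60, nat_lit 400000, nat_lit 0, nat_lit 0, [(nat_lit 3, [(nat_lit 5, nat_lit 1000)])],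
 ⟨p026_k1, nat_lit 0, nat_lit 0, nat_lit 41, nat_lit 0, nat_lit 0, [nat_lit 2770400000, nat_lit 2000000], [], [nat_lit 8149901433, nat_lit 10177049498, nat_lit 4929968100, nat_lit 6538092568, nat_lit 9463693807, nat_lit 11033223815, nat_lit 6392197258, nat_lit 7809128528], nat_lit 0, nat_lit 0, nat_lit 0, nat_lit 0, nat_lit 0, nat_lit 0, [], [nat_lit 51, nat_lit 40, nat_lit 20, nat_lit 80, nat_lit 1, nat_lit 373, nat_lit 150, nat_lit 11]⟩, C1.Rw.none,
 ⟨nat_lit 6324, nat_lit 6709, ⟨.ofNat (nat_lit 99275), .ofNat (nat_lit 349126), .ofNat (nat_lit 120713), .ofNat (nat_lit 370564), .ofNat (nat_lit 118272), .ofNat (nat_lit 356838), .ofNat (nat_lit 139640), .ofNat (nat_lit 378206)⟩, ⟨.ofNat (nat_lit 48587), .ofNat (nat_lit 220898), .ofNat (nat_lit 70025), .ofNat (nat_lit 242336), .ofNat (nat_lit 60895), .ofNat (nat_lit 225423), .ofNat (nat_lit 82263), .ofNat (nat_lit 246791)⟩⟩, [⟨nat_lit 0, nat_lit 100, nat_lit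 100, nat_lit 40, nat_lit 253638375⟩]⟩
noncomputable def p026_l4 : Lf2 := ⟨nat_lit 1, nat_lit 5, [nat_lit 4, nat_lit 5, nat_lit 5, nat_lit 20], false, nat_lit 160, nat_lit 320, nat_lit 0, nat_lit 320, zbN0,
 nat_lit 0, nat_lit 0, nat_lit 0, nat_lit 0, nat_lit 0, nat_lit 0, nat_lit 0, nat_lit 0, nat_lit 0, nat_lit 0, nat_lit 0, nat_lit 0, nat_lit 0, nat_lit 0, nat_lit 0, nat_lit 0, nat_lit 0, nat_lit 0, [],
 C1.Rw.none, C1.Rw.none,
 zbF0, []⟩
noncomputable def p026_l5 : Lf2 := ⟨nat_lit 0, nat_lit 5, [nat_lit 4, nat_lit 5, nat_lit 5, nat_lit 20], true, nat_lit 160, nat_lit 240, nat_lit 0, nat_lit 320, ⟨nat_lit 0, nat_lit 0, nat_lit 1000, nat_lit 5, nat_lit 91, nat_lit 1000, nat_lit 127, nat_lit 1000, nat_lit 150417, nat_lit 310, nat_lit 77067, nat_lit 283, nat_lit 56567395, nat_lit 0, nat_lit 0, nat_lit 2837908, false, false⟩,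
 nat_lit 0, nat_lit 0, nat_lit 0, nat_lit 2952, nat_lit 5650, nat_lit 0, nat_lit 0, nat_lit 0, nat_lit 0, nat_lit 0, nat_lit 0, nat_lit 0, nat_lit 0, nat_lit 10978364585127, nat_lit 60, nat_lit 400000, nat_lit 0, nat_lit 0, [(nat_lit 3, [(nat_lit 5, nat_lit 1000)])],
 ⟨p026_k1, nat_lit 0, nat_lit 0, nat_lit 63, nat_lit 0, nat_lit 0, [nat_lit 2770400000, nat_lit 2000000], [], [nat_lit 10695085400, nat_lit 12127561800, nat_lit 8182409700, nat_lit 9479243200, nat_lit 15084535200, nat_lit 16261251600, nat_lit 12199182500, nat_lit 13267082600], nat_lit 0, nat_lit 0, nat_lit 0, nat_lit 0, nat_lit 0, nat_lit 0, [], [nat_lit 51, nat_lit 40, nat_lit 20, nat_lit 80, nat_lit 1, nat_lit 373, nat_lit 150, nat_lit 11]⟩, C1.Rw.none,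
 ⟨nat_lit 6324, nat_lit 6709, ⟨.ofNat (nat_lit 69221), .ofNat (nat_lit 327688), .ofNat (nat_lit 112098), .ofNat (nat_lit 370564), .ofNat (nat_lit 88677), .ofNat (nat_lit 335470), .ofNat (nat_lit 131413), .ofNat (nat_lit 378206)⟩, ⟨.ofNat (nat_lit 220898), .ofNat (nat_lit 393209), .ofNat (nat_lit 242336), .ofNat (nat_lit 414647), .ofNat (nat_lit 225423), .ofNat (nat_lit 389952), .ofNat (nat_lit 246791), .ofNat (nat_lit 411320)⟩⟩, [⟨nat_lit 0, nat_lit 100, nat_lit 100, nat_lit 40, nat_lit 236102517⟩]⟩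
noncomputable def p026_l6 : Lf2 := ⟨nat_lit 0, nat_lit 2, [nat_lit 10, nat_lit 5, nat_lit 5, nat_lit 20], true, nat_lit 240, nat_lit 304, nat_lit 0, nat_lit 288, ⟨nat_lit 0, nat_lit 0, nat_lit 1000, nat_lit 5, nat_lit 53, nat_lit 1000, nat_lit 188, nat_lit 1000, nat_lit 4965, nat_lit 231, nat_lit 26667, nat_lit 255, nat_lit 53150149, nat_lit 0, nat_lit 0, nat_lit 3057180, false, false⟩,
 nat_lit 0, nat_lit 0, nat_lit 0, nat_lit 13912, nat_lit 3610, nat_lit 0, nat_lit 1708, nat_lit 0, nat_lit 0, nat_lit 0, nat_lit 0, nat_lit 0, nat_lit 0, nat_lit 0, nat_lit 53, nat_lit 1000000, nat_lit 0, nat_lit 0, [(nat_lit 3, [(nat_lit 6, nat_lit 1000)])],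
 ⟨p026_k2, nat_lit 0, nat_lit 0, nat_lit 0, nat_lit 0, nat_lit 0, [nat_lit 1482000001, nat_lit 1492200001, nat_lit 1205600001, nat_lit 226399999], [], [nat_lit 14685186081, nat_lit 15668233041, nat_lit 13526698502, nat_lit 14412585642, nat_lit 18707816402, nat_lit 19683543328, nat_lit 17377331394, nat_lit 18183901202], nat_lit 0, nat_lit 0, nat_lit 0, nat_lit 0, nat_lit 0, nat_lit 0, [], [nat_lit 184, nat_lit 40, nat_lit 20, nat_lit 80]⟩, C1.Rw.none,
 ⟨nat_lit 6324, nat_lit 6709, ⟨.ofNat (nat_lit 69221), .ofNat (nat_lit 155377), .ofNat (nat_lit 90659), .ofNat (nat_lit 176815), .ofNat (nat_lit 88677), .ofNat (nat_lit 170942), .ofNat (nat_lit 110045), .ofNat (nat_lit 192309)⟩, ⟨.ofNat (nat_lit 393209), .ofNat (nat_lit 531043), .ofNat (nat_lit 414647), .ofNat (nat_lit 552474), .ofNat (nat_lit 389952), .ofNat (nat_lit 521560), .ofNat (nat_lit 411320), .ofNat (nat_lit 542921)⟩⟩, [⟨nat_lit 0, nat_lit 100, nat_lit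 99, nat_lit 20, nat_lit 257159474⟩, ⟨nat_lit 4, nat_lit 93, nat_lit 100, nat_lit 53, nat_lit 534566629⟩]⟩
noncomputable def p026_l7 : Lf2 := ⟨nat_lit 1, nat_lit 5, [nat_lit 4, nat_lit 5, nat_lit 5, nat_lit 20], false, nat_lit 240, nat_lit 304, nat_lit 0, nat_lit 288, zbN0,
 nat_lit 0, nat_lit 0, nat_lit 0, nat_lit 0, nat_lit 0, nat_lit 0, nat_lit 0, nat_lit 0, nat_lit 0, nat_lit 0, nat_lit 0, nat_lit 0, nat_lit 0, nat_lit 0, nat_lit 0, nat_lit 0, nat_lit 0, nat_lit 0, [],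
 C1.Rw.none, C1.Rw.none,
 zbF0, []⟩
noncomputable def p026_l8 : Lf2 := ⟨nat_lit 0, nat_lit 3, [nat_lit 45, nat_lit 5, nat_lit 5, nat_lit 20], true, nat_lit 240, nat_lit 280, nat_lit 0, nat_lit 288, ⟨nat_lit 0, nat_lit 0, nat_lit 1000, nat_lit 5, nat_lit 61, nat_lit 1000, nat_lit 178, nat_lit 1000, nat_lit 35833, nat_lit 261, nat_lit 35267, nat_lit 261, nat_lit 53747487, nat_lit 0, nat_lit 0, nat_lit 3060120, false, false⟩,
 nat_lit 0, nat_lit 0, nat_lit 0, nat_lit 6008, nat_lit 3945, nat_lit 0, nat_lit 0, nat_lit 0, nat_lit 0, nat_lit 0, nat_lit 0, nat_lit 0, nat_lit 0, nat_lit 11404769946822, nat_lit 91, nat_lit 1000000, nat_lit 0, nat_lit 0, [(nat_lit 3, [(nat_lit 6, nat_lit 1000)])],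
 ⟨p026_k3, nat_lit 0, nat_lit 0, nat_lit 0, nat_lit 0, nat_lit 0, [nat_lit 2575028572, nat_lit 1552000000, nat_lit 295200000], [], [nat_lit 14297798771, nat_lit 15354855532, nat_lit 13059996592, nat_lit 14106015092, nat_lit 16875977236, nat_lit 17816346273, nat_lit 15598283662, nat_lit 16530639772], nat_lit 0, nat_lit 0, nat_lit 0, nat_lit 0, nat_lit 0, nat_lit 0, [], [nat_lit 96, nat_lit 40, nat_lit 20, nat_lit 40]⟩, C1.Rw.none,
 ⟨nat_lit 6324, nat_lit 6709, ⟨.ofNat (nat_lit 99275), .ofNat (nat_lit 176815), .ofNat (nat_lit 109994), .ofNat (nat_lit 187534), .ofNat (nat_lit 118272), .ofNat (nat_lit 192309), .ofNat (nat_lit 128956), .ofNat (nat_lit 202993)⟩, ⟨.ofNat (nat_lit 393209), .ofNat (nat_lit 479364), .ofNat (nat_lit 414647), .ofNat (nat_lit 500798), .ofNat (nat_lit 389952), .ofNat (nat_lit 472216), .ofNat (nat_lit 411320), .ofNat (nat_lit 493579)⟩⟩, [⟨nat_lit 0, nat_lit 100, nat_lit 100, nat_lit 27, nat_lit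 283096317⟩, ⟨nat_lit 4, nat_lit 93, nat_lit 100, nat_lit 53, nat_lit 344561423⟩]⟩
noncomputable def p026_l9 : Lf2 := ⟨nat_lit 0, nat_lit 3, [nat_lit 45, nat_lit 5, nat_lit 5, nat_lit 20], false, nat_lit 280, nat_lit 304, nat_lit 0, nat_lit 160, ⟨nat_lit 1000, nat_lit 0, nat_lit 0, nat_lit 0, nat_lit 0, nat_lit 0, nat_lit 0, nat_lit 0, nat_lit 0, nat_lit 0, nat_lit 0, nat_lit 0, nat_lit 0, nat_lit 0, nat_lit 0, nat_lit 0, false, false⟩,
 nat_lit 0, nat_lit 0, nat_lit 0, nat_lit 69701, nat_lit 9847, nat_lit 9584, nat_lit 5477, nat_lit 0, nat_lit 0, nat_lit 7039, nat_lit 0, nat_lit 0, nat_lit 0, nat_lit 12220290032135, nat_lit 0, nat_lit 0, nat_lit 0, nat_lit 0, [],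
 ⟨p026_k4, nat_lit 0, nat_lit 0, nat_lit 0, nat_lit 0, nat_lit 0, [nat_lit 6250000000, nat_lit 9842000000], [], [nat_lit 22191505666, nat_lit 23902902204, nat_lit 18894032854, nat_lit 19872168214, nat_lit 25680853182, nat_lit 27201554085, nat_lit 20867358771, nat_lit 22135669317], nat_lit 0, nat_lit 0, nat_lit 0, nat_lit 0, nat_lit 0, nat_lit 0, [], [nat_lit 51, nat_lit 40, nat_lit 20, nat_lit 80]⟩, ⟨p026_k4, nat_lit 0, nat_lit 0, nat_lit 287, nat_lit 0, nat_lit 0, [nat_lit 6250000000, nat_lit 9842000000], [], [nat_lit 20225476483, nat_lit 21074116780, nat_lit 16458966416, nat_lit 17330685064, nat_lit 15010515773, nat_lit 15737386997, nat_lit 11933313328, nat_lit 12647727336], nat_lit 0, nat_lit 0, nat_lit 0, nat_lit 0, nat_lit 0, nat_lit 0, [], [nat_lit 51, nat_lit 40, nat_lit 20, nat_lit 80, nat_lit 1, nat_lit 345, nat_lit 125, nat_lit 11]⟩,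
 zbF0, [⟨nat_lit 0, nat_lit 100, nat_lit 100, nat_lit 27, nat_lit 1825142654⟩, ⟨nat_lit 4, nat_lit 93, nat_lit 100, nat_lit 53, nat_lit 4578726820⟩]⟩
noncomputable def p026_l10 : Lf2 := ⟨nat_lit 0, nat_lit 3, [nat_lit 45, nat_lit 5, nat_lit 5, nat_lit 20], false, nat_lit 280, nat_lit 304, nat_lit 160, nat_lit 248, ⟨nat_lit 1000, nat_lit 0, nat_lit 0, nat_lit 0, nat_lit 0, nat_lit 0, nat_lit 0, nat_lit 0, nat_lit 0, nat_lit 0, nat_lit 0, nat_lit 0, nat_lit 0, nat_lit 0, nat_lit 0, nat_lit 0, false, false⟩,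
 nat_lit 0, nat_lit 0, nat_lit 0, nat_lit 31504, nat_lit 9847, nat_lit 12013, nat_lit 5477, nat_lit 0, nat_lit 0, nat_lit 0, nat_lit 0, nat_lit 0, nat_lit 0, nat_lit 3842328933332, nat_lit 0, nat_lit 0, nat_lit 0, nat_lit 0, [],
 ⟨p026_k4, nat_lit 0, nat_lit 0, nat_lit 0, nat_lit 0, nat_lit 0, [nat_lit 6250000000, nat_lit 9842000000], [], [nat_lit 22191505666, nat_lit 23902902204, nat_lit 18894032854, nat_lit 19872168214, nat_lit 25680853182, nat_lit 27201554085, nat_lit 20867358771, nat_lit 22135669317], nat_lit 0, nat_lit 0, nat_lit 0, nat_lit 0, nat_lit 0, nat_lit 0, [], [nat_lit 51, nat_lit 40, nat_lit 20, nat_lit 80]⟩, ⟨p026_k4, nat_lit 0, nat_lit 0, nat_lit 58, nat_lit 0, nat_lit 0, [nat_lit 6250000000, nat_lit 9842000000], [], [nat_lit 9412035644, nat_lit 10544226696, nat_lit 4574464472, nat_lit 5695019132, nat_lit 18734405527, nat_lit 19857256429, nat_lit 12536169417, nat_lit 13663189416], nat_lit 0,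 nat_lit 0, nat_lit 0, nat_lit 0, nat_lit 0, nat_lit 0, [], [nat_lit 51, nat_lit 40, nat_lit 20, nat_lit 80, nat_lit 1, nat_lit 373, nat_lit 150, nat_lit 11]⟩,
 zbF0, [⟨nat_lit 0, nat_lit 100, nat_lit 100, nat_lit 27, nat_lit 379118086⟩, ⟨nat_lit 4, nat_lit 93, nat_lit 100, nat_lit 53, nat_lit 1949994647⟩, ⟨nat_lit 11, nat_lit 100, nat_lit 90, nat_lit 46, nat_lit 1778126488⟩]⟩
noncomputable def p026_l11 : Lf2 := ⟨nat_lit 1, nat_lit 5, [nat_lit 4, nat_lit 5, nat_lit 5, nat_lit 20], false, nat_lit 240, nat_lit 304, nat_lit 0, nat_lit 288, zbN0,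
 nat_lit 0, nat_lit 0, nat_lit 0, nat_lit 0, nat_lit 0, nat_lit 0, nat_lit 0, nat_lit 0, nat_lit 0, nat_lit 0, nat_lit 0, nat_lit 0, nat_lit 0, nat_lit 0, nat_lit 0, nat_lit 0, nat_lit 0, nat_lit 0, [],
 C1.Rw.none, C1.Rw.none,
 zbF0, []⟩
noncomputable def p026_l12 : Lf2 := ⟨nat_lit 0, nat_lit 5, [nat_lit 4, nat_lit 5, nat_lit 5, nat_lit 20], true, nat_lit 240, nat_lit 280, nat_lit 0, nat_lit 288, ⟨nat_lit 0, nat_lit 0, nat_lit 1000, nat_lit 5, nat_lit 67, nat_lit 1000, nat_lit 177, nat_lit 1000, nat_lit 41332, nat_lit 264, nat_lit 41667, nat_lit 265, nat_lit 53457604, nat_lit 0, nat_lit 0, nat_lit 3143508, false, false⟩,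
 nat_lit 0, nat_lit 0, nat_lit 0, nat_lit 6664, nat_lit 4029, nat_lit 0, nat_lit 0, nat_lit 0, nat_lit 0, nat_lit 0, nat_lit 0, nat_lit 0, nat_lit 0, nat_lit 17751114254725, nat_lit 91, nat_lit 1000000, nat_lit 0, nat_lit 0, [(nat_lit 3, [(nat_lit 6, nat_lit 1000)])],
 ⟨p026_k5, nat_lit 0, nat_lit 0, nat_lit 0, nat_lit 0, nat_lit 0, [nat_lit 2575028572, nat_lit 1552000000, nat_lit 295200000], [], [nat_lit 14582527904, nat_lit 14848869378, nat_lit 13497652266, nat_lit 13761300991, nat_lit 17124485644, nat_lit 17361261726, nat_lit 16003088041, nat_lit 16237873827], nat_lit 0, nat_lit 0, nat_lit 0, nat_lit 0, nat_lit 0, nat_lit 0, [], [nat_lit 96, nat_lit 40, nat_lit 20, nat_lit 40]⟩, C1.Rw.none,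
 ⟨nat_lit 6422, nat_lit 6520, ⟨.ofNat (nat_lit 127994), .ofNat (nat_lit 195344), .ofNat (nat_lit 133343), .ofNat (nat_lit 200693), .ofNat (nat_lit 132611), .ofNat (nat_lit 199188), .ofNat (nat_lit 137956), .ofNat (nat_lit 204533)⟩, ⟨.ofNat (nat_lit 391604), .ofNat (nat_lit 475792), .ofNat (nat_lit 413002), .ofNat (nat_lit 497190), .ofNat (nat_lit 390784), .ofNat (nat_lit 474005), .ofNat (nat_lit 412166), .ofNat (nat_lit 495386)⟩⟩, [⟨nat_lit 0, nat_lit 100, nat_lit 100, nat_lit 35, nat_lit 285966745⟩, ⟨nat_lit 4, nat_lit 94, nat_lit 100, nat_lit 53, nat_lit 386796962⟩]⟩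
noncomputable def p026_l13 : Lf2 := ⟨nat_lit 0, nat_lit 5, [nat_lit 4, nat_lit 5, nat_lit 5, nat_lit 20], true, nat_lit 240, nat_lit 280, nat_lit 0, nat_lit 288, ⟨nat_lit 0, nat_lit 0, nat_lit 1000, nat_lit 5, nat_lit 69, nat_lit 1000, nat_lit 177, nat_lit 1000, nat_lit 41667, nat_lit 265, nat_lit 45067, nat_lit 267, nat_lit 53354400, nat_lit 0, nat_lit 0, nat_lit 3178278, false, false⟩,
 nat_lit 0, nat_lit 0, nat_lit 0, nat_lit 4432, nat_lit 4245, nat_lit 0, nat_lit 0, nat_lit 0, nat_lit 0, nat_lit 0, nat_lit 0, nat_lit 0, nat_lit 0, nat_lit 13514248161133, nat_lit 68, nat_lit 625000, nat_lit 0, nat_lit 0, [(nat_lit 3, [(nat_lit 5, nat_lit 625), (nat_lit 6, nat_lit 375)])],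
 ⟨p026_k6, nat_lit 0, nat_lit 0, nat_lit 0, nat_lit 0, nat_lit 0, [nat_lit 2458735715, nat_lit 1188250001, nat_lit 208449999], [], [nat_lit 15016544564, nat_lit 15288441516, nat_lit 13845040910, nat_lit 14114203035, nat_lit 17590414595, nat_lit 17831567896, nat_lit 16382126038, nat_lit 16621274915], nat_lit 0, nat_lit 0, nat_lit 0, nat_lit 0, nat_lit 0, nat_lit 0, [], [nat_lit 96, nat_lit 40, nat_lit 20, nat_lit 40]⟩, C1.Rw.none,
 ⟨nat_lit 6324, nat_lit 6423, ⟨.ofNat (nat_lit 132611), .ofNat (nat_lit 199188), .ofNat (nat_lit 143302), .ofNat (nat_lit 209879), .ofNat (nat_lit 137182), .ofNat (nat_lit 202993), .ofNat (nat_lit 147866), .ofNat (nat_lit 213677)⟩, ⟨.ofNat (nat_lit 390784), .ofNat (nat_lit 474005), .ofNat (nat_lit 412166), .ofNat (nat_lit 495387), .ofNat (nat_lit 389952), .ofNat (nat_lit 472216), .ofNat (nat_lit 411320), .ofNat (nat_lit 493584)⟩⟩, [⟨nat_lit 0, nat_lit 100, nat_lit 100, nat_lit 40,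 nat_lit 298567587⟩, ⟨nat_lit 16, nat_lit 100, nat_lit 91, nat_lit 61, nat_lit 243750297⟩]⟩
noncomputable def p026_l14 : Lf2 := ⟨nat_lit 0, nat_lit 5, [nat_lit 4, nat_lit 5, nat_lit 5, nat_lit 20], true, nat_lit 280, nat_lit 296, nat_lit 0, nat_lit 248, ⟨nat_lit 0, nat_lit 0, nat_lit 1000, nat_lit 5, nat_lit 67, nat_lit 1000, nat_lit 201, nat_lit 1000, nat_lit 13437, nat_lit 242, nat_lit 43350, nat_lit 266, nat_lit 51121195, nat_lit 0, nat_lit 0, nat_lit 3410387, false, false⟩,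
 nat_lit 0, nat_lit 0, nat_lit 0, nat_lit 14728, nat_lit 2808, nat_lit 0, nat_lit 1956, nat_lit 0, nat_lit 0, nat_lit 0, nat_lit 0, nat_lit 0, nat_lit 0, nat_lit 9325193558105, nat_lit 60, nat_lit 400000, nat_lit 0, nat_lit 0, [(nat_lit 3, [(nat_lit 5, nat_lit 1000)])],
 ⟨p026_k7, nat_lit 0, nat_lit 0, nat_lit 0, nat_lit 0, nat_lit 0, [nat_lit 1704666667, nat_lit 1578533334, nat_lit 702400001, nat_lit 2000000], [], [nat_lit 16224457357, nat_lit 16684638552, nat_lit 15722656844, nat_lit 16067171392, nat_lit 17288903231, nat_lit 17754675810, nat_lit 16548457862, nat_lit 16984435381], nat_lit 0, nat_lit 0, nat_lit 0, nat_lit 0, nat_lit 0, nat_lit 0, [], [nat_lit 140, nat_lit 40, nat_lit 20, nat_lit 80]⟩, C1.Rw.none,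
 ⟨nat_lit 6324, nat_lit 6520, ⟨.ofNat (nat_lit 127994), .ofNat (nat_lit 195344), .ofNat (nat_lit 133343), .ofNat (nat_lit 200693), .ofNat (nat_lit 137182), .ofNat (nat_lit 202993), .ofNat (nat_lit 142524), .ofNat (nat_lit 208335)⟩, ⟨.ofNat (nat_lit 475792), .ofNat (nat_lit 509466), .ofNat (nat_lit 497189), .ofNat (nat_lit 530862), .ofNat (nat_lit 472216), .ofNat (nat_lit 505121), .ofNat (nat_lit 493584), .ofNat (nat_lit 526487)⟩⟩, [⟨nat_lit 0, nat_lit 100, nat_lit 100, nat_lit 34, nat_lit 191899782⟩, ⟨nat_lit 4, nat_lit 94, nat_lit 100, nat_lit 54, nat_lit 938762811⟩]⟩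
noncomputable def p026_l15 : Lf2 := ⟨nat_lit 0, nat_lit 5, [nat_lit 4, nat_lit 5, nat_lit 5, nat_lit 20], true, nat_lit 280, nat_lit 292, nat_lit 0, nat_lit 248, ⟨nat_lit 0, nat_lit 0, nat_lit 1000, nat_lit 5, nat_lit 72, nat_lit 1000, nat_lit 198, nat_lit 1000, nat_lit 19223, nat_lit 248, nat_lit 48600, nat_lit 269, nat_lit 51078025, nat_lit 0, nat_lit 0, nat_lit 3456265, false, false⟩,
 nat_lit 0, nat_lit 0, nat_lit 0, nat_lit 12566, nat_lit 2843, nat_lit 0, nat_lit 1591, nat_lit 0, nat_lit 0, nat_lit 0, nat_lit 0, nat_lit 0, nat_lit 0, nat_lit 28177384936972, nat_lit 60, nat_lit 400000, nat_lit 0, nat_lit 0, [(nat_lit 3, [(nat_lit 5, nat_lit 1000)])],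
 ⟨p026_k8, nat_lit 0, nat_lit 0, nat_lit 0, nat_lit 0, nat_lit 0, [nat_lit 1704666667, nat_lit 1578533334, nat_lit 702400001, nat_lit 2000000], [], [nat_lit 16373150520, nat_lit 16547752664, nat_lit 15958156556, nat_lit 16130851872, nat_lit 17115712880, nat_lit 17352558132, nat_lit 16506124408, nat_lit 16725055699], nat_lit 0, nat_lit 0, nat_lit 0, nat_lit 0, nat_lit 0, nat_lit 0, [], [nat_lit 140, nat_lit 40, nat_lit 20, nat_lit 80]⟩, C1.Rw.none,
 ⟨nat_lit 6324, nat_lit 6423, ⟨.ofNat (nat_lit 146279), .ofNat (nat_lit 204533), .ofNat (nat_lit 151624), .ofNat (nat_lit 209879), .ofNat (nat_lit 150750), .ofNat (nat_lit 208335), .ofNat (nat_lit 156092), .ofNat (nat_lit 213677)⟩, ⟨.ofNat (nat_lit 474005), .ofNat (nat_lit 498971), .ofNat (nat_lit 495387), .ofNat (nat_lit 520352), .ofNat (nat_lit 472216), .ofNat (nat_lit 496895), .ofNat (nat_lit 493584), .ofNat (nat_lit 518263)⟩⟩, [⟨nat_lit 0, nat_lit 100, nat_lit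 100, nat_lit 40, nat_lit 185197043⟩, ⟨nat_lit 16, nat_lit 100, nat_lit 91, nat_lit 61, nat_lit 819471838⟩]⟩
noncomputable def p026_l16 : Lf2 := ⟨nat_lit 0, nat_lit 5, [nat_lit 4, nat_lit 5, nat_lit 5, nat_lit 20], true, nat_lit 240, nat_lit 304, nat_lit 0, nat_lit 288, ⟨nat_lit 0, nat_lit 0, nat_lit 1000, nat_lit 5, nat_lit 57, nat_lit 1000, nat_lit 188, nat_lit 1000, nat_lit 4965, nat_lit 231, nat_lit 30817, nat_lit 258, nat_lit 52937101, nat_lit 0, nat_lit 0, nat_lit 3120840, false, false⟩,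
 nat_lit 0, nat_lit 0, nat_lit 0, nat_lit 363914, nat_lit 322268, nat_lit 0, nat_lit 60000, nat_lit 15896, nat_lit 0, nat_lit 0, nat_lit 0, nat_lit 0, nat_lit 0, nat_lit 237214112123952, nat_lit 0, nat_lit 1000000, nat_lit 0, nat_lit 0, [(nat_lit 3, [(nat_lit 6, nat_lit 1000)])],
 ⟨p026_k1, nat_lit 0, nat_lit 0, nat_lit 167, nat_lit 0, nat_lit 0, [nat_lit 318961142858, nat_lit 441891600000], [], [nat_lit 337706456760, nat_lit 357397875264, nat_lit 181412502234, nat_lit 192948746618, nat_lit 457833533196, nat_lit 468828653376, nat_lit 291461370706, nat_lit 302813549991], nat_lit 0, nat_lit 0, nat_lit 0, nat_lit 0, nat_lit 0, nat_lit 0, [], [nat_lit 51, nat_lit 40, nat_lit 20, nat_lit 80, nat_lit 1, nat_lit 373, nat_lit 150, nat_lit 11]⟩, C1.Rw.none,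
 ⟨nat_lit 6324, nat_lit 6709, ⟨.ofNat (nat_lit 69221), .ofNat (nat_lit 155377), .ofNat (nat_lit 112098), .ofNat (nat_lit 198253), .ofNat (nat_lit 88677), .ofNat (nat_lit 170942), .ofNat (nat_lit 131413), .ofNat (nat_lit 213677)⟩, ⟨.ofNat (nat_lit 393209), .ofNat (nat_lit 531043), .ofNat (nat_lit 414647), .ofNat (nat_lit 552474), .ofNat (nat_lit 389952), .ofNat (nat_lit 521560), .ofNat (nat_lit 411320), .ofNat (nat_lit 542921)⟩⟩, [⟨nat_lit 0, nat_lit 100, nat_lit 99, nat_lit 25, nat_lit 10101010101⟩, ⟨nat_lit 0, nat_lit 100, nat_lit 100, nat_lit 40, nat_lit 10000000000⟩, ⟨nat_lit 0, nat_lit 100, nat_lit 99, nat_lit 10, nat_lit 666442121⟩, ⟨nat_lit 16, nat_lit 100, nat_lit 93, nat_lit 53, nat_lit 10752688172⟩, ⟨nat_lit 16, nat_lit 100, nat_lit 86, nat_lit 60, nat_lit 11627906977⟩, ⟨nat_lit 4, nat_lit 93, nat_lit 100, nat_lit 53, nat_lit 7469693606⟩]⟩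
noncomputable def p026_l17 : Lf2 := ⟨nat_lit 0, nat_lit 5, [nat_lit 4, nat_lit 5, nat_lit 5, nat_lit 20], true, nat_lit 240, nat_lit 304, nat_lit 0, nat_lit 320, ⟨nat_lit 0, nat_lit 893, nat_lit 107, nat_lit 5, nat_lit 91, nat_lit 1000, nat_lit 188, nat_lit 107, nat_lit 4965, nat_lit 231, nat_lit 77067, nat_lit 283, nat_lit 51034228, nat_lit 3906118, nat_lit 12059654, nat_lit 3609490, false, false⟩,
 nat_lit 0, nat_lit 0, nat_lit 0, nat_lit 3477, nat_lit 6457, nat_lit 0, nat_lit 0, nat_lit 0, nat_lit 0, nat_lit 0, nat_lit 0, nat_lit 0, nat_lit 0, nat_lit 15241667581618, nat_lit 0, nat_lit 464200, nat_lit 0, nat_lit 0, [(nat_lit 3, [(nat_lit 1, nat_lit 893), (nat_lit 6, nat_lit 107)])],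
 ⟨p026_k1, nat_lit 0, nat_lit 0, nat_lit 60, nat_lit 0, nat_lit 0, [nat_lit 3097594286, nat_lit 2732170972], [], [nat_lit 13498278534, nat_lit 14739873206, nat_lit 12557037210, nat_lit 13755145358, nat_lit 18847368797, nat_lit 19828439206, nat_lit 17697583140, nat_lit 18647410638], nat_lit 0, nat_lit 0, nat_lit 0, nat_lit 0, nat_lit 0, nat_lit 0, [], [nat_lit 51, nat_lit 40, nat_lit 20, nat_lit 80, nat_lit 1, nat_lit 401, nat_lit 175, nat_lit 11]⟩, C1.Rw.none,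
 ⟨nat_lit 6324, nat_lit 6709, ⟨.ofNat (nat_lit 155377), .ofNat (nat_lit 241532), .ofNat (nat_lit 198253), .ofNat (nat_lit 284409), .ofNat (nat_lit 170942), .ofNat (nat_lit 253206), .ofNat (nat_lit 213677), .ofNat (nat_lit 295942)⟩, ⟨.ofNat (nat_lit 393209), .ofNat (nat_lit 531043), .ofNat (nat_lit 414647), .ofNat (nat_lit 552474), .ofNat (nat_lit 389952), .ofNat (nat_lit 521560), .ofNat (nat_lit 411320), .ofNat (nat_lit 542921)⟩⟩, [⟨nat_lit 16, nat_lit 100, nat_lit 86, nat_lit 60, nat_lit 540467372⟩]⟩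
noncomputable def p026_l18 : Lf2 := ⟨nat_lit 0, nat_lit 5, [nat_lit 4, nat_lit 5, nat_lit 5, nat_lit 20], true, nat_lit 240, nat_lit 304, nat_lit 0, nat_lit 320, ⟨nat_lit 0, nat_lit 1000, nat_lit 0, nat_lit 5, nat_lit 124, nat_lit 1000, nat_lit 188, nat_lit 0, nat_lit 0, nat_lit 0, nat_lit 0, nat_lit 0, nat_lit 48830601, nat_lit 6259517, nat_lit 11909882, nat_lit 4054254, false, false⟩,
 nat_lit 0, nat_lit 0, nat_lit 0, nat_lit 5017, nat_lit 8733, nat_lit 0, nat_lit 0, nat_lit 0, nat_lit 0, nat_lit 0, nat_lit 0, nat_lit 0, nat_lit 0, nat_lit 16702263836297, nat_lit 0, nat_lit 400000, nat_lit 0, nat_lit 0, [(nat_lit 3, [(nat_lit 1, nat_lit 1000)])],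
 ⟨p026_k1, nat_lit 0, nat_lit 0, nat_lit 30, nat_lit 0, nat_lit 0, [nat_lit 3344000000, nat_lit 3475733334], [], [nat_lit 9890008156, nat_lit 11292419168, nat_lit 9602969130, nat_lit 10924519972, nat_lit 17599415193, nat_lit 19004020644, nat_lit 16817557178, nat_lit 18156020352], nat_lit 0, nat_lit 0, nat_lit 0, nat_lit 0, nat_lit 0, nat_lit 0, [], [nat_lit 51, nat_lit 40, nat_lit 20, nat_lit 80, nat_lit 1, nat_lit 401, nat_lit 175, nat_lit 11]⟩, C1.Rw.none,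
 ⟨nat_lit 6324, nat_lit 6709, ⟨.ofNat (nat_lit 241532), .ofNat (nat_lit 327688), .ofNat (nat_lit 284409), .ofNat (nat_lit 370564), .ofNat (nat_lit 253206), .ofNat (nat_lit 335470), .ofNat (nat_lit 295942), .ofNat (nat_lit 378206)⟩, ⟨.ofNat (nat_lit 393209), .ofNat (nat_lit 531043), .ofNat (nat_lit 414647), .ofNat (nat_lit 552474), .ofNat (nat_lit 389952), .ofNat (nat_lit 521560), .ofNat (nat_lit 411320), .ofNat (nat_lit 542921)⟩⟩, [⟨nat_lit 16, nat_lit 100, nat_lit 86, nat_lit 60, nat_lit 874343937⟩]⟩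
noncomputable def p026_l19 : Lf2 := ⟨nat_lit 1, nat_lit 5, [nat_lit 4, nat_lit 5, nat_lit 5, nat_lit 20], false, nat_lit 0, nat_lit 320, nat_lit 0, nat_lit 320, zbN0,
 nat_lit 0, nat_lit 0, nat_lit 0, nat_lit 0, nat_lit 0, nat_lit 0, nat_lit 0, nat_lit 0, nat_lit 0, nat_lit 0, nat_lit 0, nat_lit 0, nat_lit 0, nat_lit 0, nat_lit 0, nat_lit 0, nat_lit 0, nat_lit 0, [],
 C1.Rw.none, C1.Rw.none,
 zbF0, []⟩
noncomputable def p026_l20 : Lf2 := ⟨nat_lit 0, nat_lit 5, [nat_lit 4, nat_lit 5, nat_lit 5, nat_lit 20], false, nat_lit 0, nat_lit 304, nat_lit 0, nat_lit 320, ⟨nat_lit 1000, nat_lit 0, nat_lit 0, nat_lit 0, nat_lit 0, nat_lit 0, nat_lit 0, nat_lit 0, nat_lit 0, nat_lit 0, nat_lit 0, nat_lit 0, nat_lit 0, nat_lit 0, nat_lit 0, nat_lit 0, false, false⟩,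
 nat_lit 0, nat_lit 0, nat_lit 0, nat_lit 33090, nat_lit 10695, nat_lit 9609, nat_lit 2732, nat_lit 0, nat_lit 0, nat_lit 2703, nat_lit 0, nat_lit 0, nat_lit 0, nat_lit 0, nat_lit 0, nat_lit 0, nat_lit 0, nat_lit 0, [],
 ⟨p026_k9, nat_lit 0, nat_lit 0, nat_lit 226, nat_lit 0, nat_lit 0, [nat_lit 6250000000, nat_lit 7968000001, nat_lit 9842000000], [], [nat_lit 16823641180, nat_lit 18086489020, nat_lit 44866871140, nat_lit 45593359440, nat_lit 18241336783, nat_lit 19054929904, nat_lit 36490745245, nat_lit 36789837892], nat_lit 0, nat_lit 0, nat_lit 0, nat_lit 0, nat_lit 0, nat_lit 0, [], [nat_lit 25, nat_lit 40, nat_lit 20, nat_lit 80, nat_lit 17, nat_lit 483, nat_lit 250, nat_lit 14]⟩, ⟨p026_k10, nat_lit 0, nat_lit 0, nat_lit 255, nat_lit 0, nat_lit 0, [nat_lit 6250000000, nat_lit 7968000000, nat_lit 11872000000], [], [nat_lit 20967461835, nat_lit 23107501595, nat_lit 41453280008, nat_lit 42874241328, nat_lit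 22335081891, nat_lit 23477912799, nat_lit 35836147116, nat_lit 36379505824], nat_lit 0, nat_lit 0, nat_lit 0, nat_lit 0, nat_lit 0, nat_lit 0, [], [nat_lit 53, nat_lit 40, nat_lit 20, nat_lit 80, nat_lit 14, nat_lit 483, nat_lit 250, nat_lit 13]⟩,
 zbF0, [⟨nat_lit 4, nat_lit 93, nat_lit 100, nat_lit 53, nat_lit 69417784⟩, ⟨nat_lit 7, nat_lit 90, nat_lit 100, nat_lit 53, nat_lit 158517097⟩]⟩
noncomputable def b_VL_500_500_5_0 : St := ⟨true, nat_lit 0, nat_lit 0, nat_lit 1, nat_lit 40, nat_lit 200, nat_lit 240, nat_lit 200, nat_lit 240, nat_lit 0, nat_lit 400, nat_lit 20, nat_lit 40, nat_lit 0, nat_lit 320, nat_lit 0, nat_lit 320, nat_lit 0, nat_lit 20, nat_lit 0, nat_lit 0, nat_lit 0, nat_lit 0⟩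
theorem d_VL_500_500_5_0 (h : EB TB.env) : Dead b_VL_500_500_5_0 := chkB_sound0 h (T :=
(.spl (nat_lit 2) (nat_lit 120)
(.spl (nat_lit 4) (nat_lit 160)
(.spl (nat_lit 1) (nat_lit 220)
(.spl (nat_lit 6) (nat_lit 8)
(.leaf p026_l0)
(.leaf p026_l1))
(.ord (.trZ (nat_lit 0) (nat_lit 100) (nat_lit 100) (nat_lit 20) (nat_lit 4) (.trX (nat_lit 19) (nat_lit 100) (nat_lit 86) (nat_lit 60) (nat_lit 304) (.spl (nat_lit 4) (nat_lit 80)
(.leaf p026_l2)
(.leaf p026_l3))))))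
(.spl (nat_lit 0) (nat_lit 220)
(.ord (.leaf p026_l4))
(.trX (nat_lit 16) (nat_lit 100) (nat_lit 86) (nat_lit 60) (nat_lit 304) (.spl (nat_lit 4) (nat_lit 240)
(.leaf p026_l5)
(.spl (nat_lit 2) (nat_lit 80)
(.spl (nat_lit 2) (nat_lit 40)
(.trX (nat_lit 23) (nat_lit 100) (nat_lit 92) (nat_lit 61) (nat_lit 288) (.spl (nat_lit 7) (nat_lit 600)
(.spl (nat_lit 1) (nat_lit 220)
(.spl (nat_lit 6) (nat_lit 8)
(.leaf p026_l6)
(.leaf p026_l7))
(.trZ (nat_lit 0) (nat_lit 100) (nat_lit 100) (nat_lit 20) (nat_lit 4) (.spl (nat_lit 1) (nat_lit 230)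
(.spl (nat_lit 6) (nat_lit 12)
(.spl (nat_lit 4) (nat_lit 280)
(.leaf p026_l8)
(.trX (nat_lit 23) (nat_lit 94) (nat_lit 100) (nat_lit 62) (nat_lit 248) (.spl (nat_lit 5) (nat_lit 160)
(.leaf p026_l9)
(.leaf p026_l10))))
(.leaf p026_l11))
(.ord (.trZ (nat_lit 0) (nat_lit 100) (nat_lit 100) (nat_lit 30) (nat_lit 8) (.trX (nat_lit 16) (nat_lit 100) (nat_lit 89) (nat_lit 61) (nat_lit 296) (.spl (nat_lit 4) (nat_lit 280)
(.spl (nat_lit 0) (nat_lit 235)
(.ord (.leaf p026_l12))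
(.leaf p026_l13))
(.trX (nat_lit 23) (nat_lit 94) (nat_lit 100) (nat_lit 62) (nat_lit 248) (.spl (nat_lit 1) (nat_lit 235)
(.leaf p026_l14)
(.ord (.trZ (nat_lit 0) (nat_lit 100) (nat_lit 100) (nat_lit 35) (nat_lit 12) (.trX (nat_lit 16) (nat_lit 100) (nat_lit 91) (nat_lit 61) (nat_lit 292) (.leaf p026_l15)))))))))))))
(.leaf p026_l16)))
(.leaf p026_l17))
(.leaf p026_l18))))))
(.spl (nat_lit 0) (nat_lit 220)
(.ord (.leaf p026_l19))
(.trX (nat_lit 16) (nat_lit 100) (nat_lit 86) (nat_lit 60) (nat_lit 304) (.leaf p026_l20))))) (by decide +kernel)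
noncomputable def p026_l21 : Lf2 := ⟨nat_lit 0, nat_lit 2, [nat_lit 10, nat_lit 5, nat_lit 5, nat_lit 20], true, nat_lit 0, nat_lit 160, nat_lit 0, nat_lit 320, ⟨nat_lit 0, nat_lit 0, nat_lit 1000, nat_lit 5, nat_lit 135, nat_lit 0, nat_lit 46, nat_lit 978, nat_lit 5400, nat_lit 233, nat_lit 945, nat_lit 208, nat_lit 60124751, nat_lit 0, nat_lit 0, nat_lit 1653959, false, false⟩,
 nat_lit 0, nat_lit 0, nat_lit 0, nat_lit 10012, nat_lit 5039, nat_lit 0, nat_lit 923, nat_lit 0, nat_lit 0, nat_lit 0, nat_lit 0, nat_lit 0, nat_lit 0, nat_lit 0, nat_lit 90, nat_lit 1000000, nat_lit 0, nat_lit 0, [(nat_lit 0, [(nat_lit 6, nat_lit 1000)]), (nat_lit 3, [(nat_lit 6, nat_lit 1000)])],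
 ⟨p026_k0, nat_lit 0, nat_lit 0, nat_lit 298, nat_lit 0, nat_lit 0, [nat_lit 2841142858, nat_lit 1352800000, nat_lit 26400000], [], [nat_lit 12936500146, nat_lit 15173921154, nat_lit 14784269600, nat_lit 16533604960, nat_lit 11582883438, nat_lit 13485620678, nat_lit 13603819820, nat_lit 15071592892], nat_lit 0, nat_lit 0, nat_lit 0, nat_lit 0, nat_lit 0, nat_lit 0, [], [nat_lit 25, nat_lit 40, nat_lit 20, nat_lit 80, nat_lit 17, nat_lit 401, nat_lit 175, nat_lit 12]⟩, C1.Rw.none,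
 ⟨nat_lit 6324, nat_lit 7072, ⟨.ofNat (nat_lit 48812), .ofNat (nat_lit 590110), .ofNat (nat_lit 70361), .ofNat (nat_lit 611632), .ofNat (nat_lit 88675), .ofNat (nat_lit 582138), .ofNat (nat_lit 110044), .ofNat (nat_lit 603479)⟩, ⟨.negSucc (nat_lit 145122), .ofNat (nat_lit 215827), .negSucc (nat_lit 123573), .ofNat (nat_lit 237375), .negSucc (nat_lit 103636), .ofNat (nat_lit 225422), .negSucc (nat_lit 82267), .ofNat (nat_lit 246790)⟩⟩, [⟨nat_lit 0, nat_lit 100, nat_lit 98, nat_lit 30, nat_lit 35122491⟩]⟩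
noncomputable def p026_l22 : Lf2 := ⟨nat_lit 1, nat_lit 5, [nat_lit 4, nat_lit 5, nat_lit 5, nat_lit 20], false, nat_lit 0, nat_lit 160, nat_lit 0, nat_lit 320, zbN0,
 nat_lit 0, nat_lit 0, nat_lit 0, nat_lit 0, nat_lit 0, nat_lit 0, nat_lit 0, nat_lit 0, nat_lit 0, nat_lit 0, nat_lit 0, nat_lit 0, nat_lit 0, nat_lit 0, nat_lit 0, nat_lit 0, nat_lit 0, nat_lit 0, [],
 C1.Rw.none, C1.Rw.none,
 zbF0, []⟩
noncomputable def p026_l23 : Lf2 := ⟨nat_lit 0, nat_lit 5, [nat_lit 4, nat_lit 5, nat_lit 5, nat_lit 20], true, nat_lit 0, nat_lit 80, nat_lit 0, nat_lit 304, ⟨nat_lit 0, nat_lit 0, nat_lit 1000, nat_lit 5, nat_lit 113, nat_lit 0, nat_lit 13, nat_lit 0, nat_lit 600, nat_lit 209, nat_lit 120417, nat_lit 300, nat_lit 62009668, nat_lit 0, nat_lit 0, nat_lit 1325408, false, false⟩,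
 nat_lit 0, nat_lit 0, nat_lit 0, nat_lit 7482, nat_lit 4618, nat_lit 0, nat_lit 191, nat_lit 0, nat_lit 0, nat_lit 0, nat_lit 0, nat_lit 0, nat_lit 0, nat_lit 4306664400304, nat_lit 115, nat_lit 1000000, nat_lit 0, nat_lit 0, [(nat_lit 3, [(nat_lit 6, nat_lit 1000)])],
 ⟨p026_k9, nat_lit 0, nat_lit 0, nat_lit 291, nat_lit 0, nat_lit 0, [nat_lit 3341142858, nat_lit 1499600000, nat_lit 23600000], [], [nat_lit 13851549125, nat_lit 14805636571, nat_lit 13057810232, nat_lit 14074421676, nat_lit 11530192996, nat_lit 12669549700, nat_lit 11424725400, nat_lit 12386594596], nat_lit 0, nat_lit 0, nat_lit 0, nat_lit 0, nat_lit 0, nat_lit 0, [], [nat_lit 25, nat_lit 40, nat_lit 20, nat_lit 80, nat_lit 17, nat_lit 345, nat_lit 125, nat_lit 11]⟩, C1.Rw.none,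
 ⟨nat_lit 6324, nat_lit 6709, ⟨.ofNat (nat_lit 99275), .ofNat (nat_lit 435281), .ofNat (nat_lit 120713), .ofNat (nat_lit 456720), .ofNat (nat_lit 118272), .ofNat (nat_lit 439102), .ofNat (nat_lit 139640), .ofNat (nat_lit 460470)⟩, ⟨.negSucc (nat_lit 123724), .ofNat (nat_lit 48587), .negSucc (nat_lit 102285), .ofNat (nat_lit 70025), .negSucc (nat_lit 103634), .ofNat (nat_lit 60895), .negSucc (nat_lit 82265), .ofNat (nat_lit 82263)⟩⟩, [⟨nat_lit 0, nat_lit 100, nat_lit 100, nat_lit 40, nat_lit 131331597⟩]⟩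
noncomputable def p026_l24 : Lf2 := ⟨nat_lit 0, nat_lit 5, [nat_lit 4, nat_lit 5, nat_lit 5, nat_lit 20], true, nat_lit 0, nat_lit 80, nat_lit 0, nat_lit 304, ⟨nat_lit 0, nat_lit 1000, nat_lit 0, nat_lit 5, nat_lit 213, nat_lit 0, nat_lit 13, nat_lit 0, nat_lit 0, nat_lit 0, nat_lit 0, nat_lit 0, nat_lit 52216747, nat_lit 14783253, nat_lit 0, nat_lit 2638618, false, false⟩,
 nat_lit 0, nat_lit 0, nat_lit 0, nat_lit 3092, nat_lit 7287, nat_lit 0, nat_lit 0, nat_lit 0, nat_lit 0, nat_lit 0, nat_lit 0, nat_lit 0, nat_lit 0, nat_lit 8738911221739, nat_lit 0, nat_lit 400000, nat_lit 0, nat_lit 0, [(nat_lit 3, [(nat_lit 1, nat_lit 1000)])],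
 ⟨p026_k1, nat_lit 0, nat_lit 0, nat_lit 63, nat_lit 0, nat_lit 0, [nat_lit 3344000000, nat_lit 3475733334], [], [nat_lit 11110951052, nat_lit 12757442284, nat_lit 16035261136, nat_lit 17367387768, nat_lit 6996282182, nat_lit 8565864512, nat_lit 11740986484, nat_lit 13013598752], nat_lit 0, nat_lit 0, nat_lit 0, nat_lit 0, nat_lit 0, nat_lit 0, [], [nat_lit 51, nat_lit 40, nat_lit 20, nat_lit 80, nat_lit 1, nat_lit 373, nat_lit 150, nat_lit 11]⟩, C1.Rw.none,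
 ⟨nat_lit 6324, nat_lit 6709, ⟨.ofNat (nat_lit 435281), .ofNat (nat_lit 607557), .ofNat (nat_lit 456720), .ofNat (nat_lit 628989), .ofNat (nat_lit 439102), .ofNat (nat_lit 603596), .ofNat (nat_lit 460470), .ofNat (nat_lit 624956)⟩, ⟨.negSucc (nat_lit 123724), .ofNat (nat_lit 48587), .negSucc (nat_lit 102285), .ofNat (nat_lit 70025), .negSucc (nat_lit 103634), .ofNat (nat_lit 60895), .negSucc (nat_lit 82265), .ofNat (nat_lit 82263)⟩⟩, []⟩
noncomputable def p026_l25 : Lf2 := ⟨nat_lit 0, nat_lit 5, [nat_lit 4, nat_lit 5, nat_lit 5, nat_lit 20], true, nat_lit 80, nat_lit 160, nat_lit 0, nat_lit 304, ⟨nat_lit 0, nat_lit 0, nat_lit 1000, nat_lit 5, nat_lit 147, nat_lit 1000, nat_lit 60, nat_lit 1000, nat_lit 33750, nat_lit 260, nat_lit 5598, nat_lit 203, nat_lit 56747708, nat_lit 0, nat_lit 0, nat_lit 2645996, false, false⟩,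
 nat_lit 0, nat_lit 0, nat_lit 0, nat_lit 2952, nat_lit 6701, nat_lit 0, nat_lit 0, nat_lit 0, nat_lit 0, nat_lit 0, nat_lit 0, nat_lit 0, nat_lit 0, nat_lit 3888003361283, nat_lit 60, nat_lit 400000, nat_lit 0, nat_lit 0, [(nat_lit 3, [(nat_lit 5, nat_lit 1000)])],
 ⟨p026_k1, nat_lit 0, nat_lit 0, nat_lit 41, nat_lit 0, nat_lit 0, [nat_lit 2770400000, nat_lit 2000000], [], [nat_lit 8149901433, nat_lit 10177049498, nat_lit 10717506332, nat_lit 11937516896, nat_lit 9463693807, nat_lit 11033223815, nat_lit 11452166800, nat_lit 12621531644], nat_lit 0, nat_lit 0, nat_lit 0, nat_lit 0, nat_lit 0, nat_lit 0, [], [nat_lit 51, nat_lit 40, nat_lit 20, nat_lit 80, nat_lit 1, nat_lit 401, nat_lit 175, nat_lit 12]⟩, C1.Rw.none,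
 ⟨nat_lit 6324, nat_lit 6709, ⟨.ofNat (nat_lit 99275), .ofNat (nat_lit 607557), .ofNat (nat_lit 120713), .ofNat (nat_lit 628989), .ofNat (nat_lit 118272), .ofNat (nat_lit 603596), .ofNat (nat_lit 139640), .ofNat (nat_lit 624956)⟩, ⟨.ofNat (nat_lit 48587), .ofNat (nat_lit 220898), .ofNat (nat_lit 70025), .ofNat (nat_lit 242336), .ofNat (nat_lit 60895), .ofNat (nat_lit 225423), .ofNat (nat_lit 82263), .ofNat (nat_lit 246791)⟩⟩, [⟨nat_lit 0, nat_lit 100, nat_lit 100, nat_lit 40, nat_lit 40349627⟩]⟩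
noncomputable def p026_l26 : Lf2 := ⟨nat_lit 1, nat_lit 5, [nat_lit 4, nat_lit 5, nat_lit 5, nat_lit 20], false, nat_lit 160, nat_lit 320, nat_lit 0, nat_lit 320, zbN0,
 nat_lit 0, nat_lit 0, nat_lit 0, nat_lit 0, nat_lit 0, nat_lit 0, nat_lit 0, nat_lit 0, nat_lit 0, nat_lit 0, nat_lit 0, nat_lit 0, nat_lit 0, nat_lit 0, nat_lit 0, nat_lit 0, nat_lit 0, nat_lit 0, [],
 C1.Rw.none, C1.Rw.none,
 zbF0, []⟩
noncomputable def p026_l27 : Lf2 := ⟨nat_lit 0, nat_lit 5, [nat_lit 4, nat_lit 5, nat_lit 5, nat_lit 20], true, nat_lit 160, nat_lit 240, nat_lit 0, nat_lit 320, ⟨nat_lit 0, nat_lit 0, nat_lit 1000, nat_lit 5, nat_lit 91, nat_lit 1000, nat_lit 127, nat_lit 1000, nat_lit 150417, nat_lit 310, nat_lit 77067, nat_lit 283, nat_lit 56567395, nat_lit 0, nat_lit 0, nat_lit 2837908, false, false⟩,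
 nat_lit 0, nat_lit 0, nat_lit 0, nat_lit 2952, nat_lit 5650, nat_lit 0, nat_lit 0, nat_lit 0, nat_lit 0, nat_lit 0, nat_lit 0, nat_lit 0, nat_lit 0, nat_lit 10978364585127, nat_lit 60, nat_lit 400000, nat_lit 0, nat_lit 0, [(nat_lit 3, [(nat_lit 5, nat_lit 1000)])],
 ⟨p026_k1, nat_lit 0, nat_lit 0, nat_lit 63, nat_lit 0, nat_lit 0, [nat_lit 2770400000, nat_lit 2000000], [], [nat_lit 10695085400, nat_lit 12127561800, nat_lit 8182409700, nat_lit 9479243200, nat_lit 15084535200, nat_lit 16261251600, nat_lit 12199182500, nat_lit 13267082600], nat_lit 0, nat_lit 0, nat_lit 0, nat_lit 0, nat_lit 0, nat_lit 0, [], [nat_lit 51, nat_lit 40, nat_lit 20, nat_lit 80, nat_lit 1, nat_lit 373, nat_lit 150, nat_lit 11]⟩, C1.Rw.none,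
 ⟨nat_lit 6324, nat_lit 6709, ⟨.ofNat (nat_lit 69221), .ofNat (nat_lit 327688), .ofNat (nat_lit 112098), .ofNat (nat_lit 370564), .ofNat (nat_lit 88677), .ofNat (nat_lit 335470), .ofNat (nat_lit 131413), .ofNat (nat_lit 378206)⟩, ⟨.ofNat (nat_lit 220898), .ofNat (nat_lit 393209), .ofNat (nat_lit 242336), .ofNat (nat_lit 414647), .ofNat (nat_lit 225423), .ofNat (nat_lit 389952), .ofNat (nat_lit 246791), .ofNat (nat_lit 411320)⟩⟩, [⟨nat_lit 0, nat_lit 100, nat_lit 100, nat_lit 40, nat_lit 236102517⟩]⟩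
noncomputable def p026_l28 : Lf2 := ⟨nat_lit 0, nat_lit 2, [nat_lit 10, nat_lit 5, nat_lit 5, nat_lit 20], true, nat_lit 240, nat_lit 304, nat_lit 0, nat_lit 288, ⟨nat_lit 0, nat_lit 0, nat_lit 1000, nat_lit 5, nat_lit 53, nat_lit 1000, nat_lit 188, nat_lit 1000, nat_lit 4965, nat_lit 231, nat_lit 26667, nat_lit 255, nat_lit 53150149, nat_lit 0, nat_lit 0, nat_lit 3057180, false, false⟩,
 nat_lit 0, nat_lit 0, nat_lit 0, nat_lit 13912, nat_lit 3610, nat_lit 0, nat_lit 1708, nat_lit 0, nat_lit 0, nat_lit 0, nat_lit 0, nat_lit 0, nat_lit 0, nat_lit 0, nat_lit 53, nat_lit 1000000, nat_lit 0, nat_lit 0, [(nat_lit 3, [(nat_lit 6, nat_lit 1000)])],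
 ⟨p026_k2, nat_lit 0, nat_lit 0, nat_lit 0, nat_lit 0, nat_lit 0, [nat_lit 1482000001, nat_lit 1492200001, nat_lit 1205600001, nat_lit 226399999], [], [nat_lit 14685186081, nat_lit 15668233041, nat_lit 13526698502, nat_lit 14412585642, nat_lit 18707816402, nat_lit 19683543328, nat_lit 17377331394, nat_lit 18183901202], nat_lit 0, nat_lit 0, nat_lit 0, nat_lit 0, nat_lit 0, nat_lit 0, [], [nat_lit 184, nat_lit 40, nat_lit 20, nat_lit 80]⟩, C1.Rw.none,
 ⟨nat_lit 6324, nat_lit 6709, ⟨.ofNat (nat_lit 69221), .ofNat (nat_lit 155377), .ofNat (nat_lit 90659), .ofNat (nat_lit 176815), .ofNat (nat_lit 88677), .ofNat (nat_lit 170942), .ofNat (nat_lit 110045), .ofNat (nat_lit 192309)⟩, ⟨.ofNat (nat_lit 393209), .ofNat (nat_lit 531043), .ofNat (nat_lit 414647), .ofNat (nat_lit 552474), .ofNat (nat_lit 389952), .ofNat (nat_lit 521560), .ofNat (nat_lit 411320), .ofNat (nat_lit 542921)⟩⟩, [⟨nat_lit 0, nat_lit 100, nat_lit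 99, nat_lit 20, nat_lit 257159474⟩, ⟨nat_lit 4, nat_lit 93, nat_lit 100, nat_lit 53, nat_lit 534566629⟩]⟩
noncomputable def p026_l29 : Lf2 := ⟨nat_lit 1, nat_lit 5, [nat_lit 4, nat_lit 5, nat_lit 5, nat_lit 20], false, nat_lit 240, nat_lit 304, nat_lit 0, nat_lit 288, zbN0,
 nat_lit 0, nat_lit 0, nat_lit 0, nat_lit 0, nat_lit 0, nat_lit 0, nat_lit 0, nat_lit 0, nat_lit 0, nat_lit 0, nat_lit 0, nat_lit 0, nat_lit 0, nat_lit 0, nat_lit 0, nat_lit 0, nat_lit 0, nat_lit 0, [],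
 C1.Rw.none, C1.Rw.none,
 zbF0, []⟩
noncomputable def p026_l30 : Lf2 := ⟨nat_lit 0, nat_lit 3, [nat_lit 45, nat_lit 5, nat_lit 5, nat_lit 20], true, nat_lit 240, nat_lit 280, nat_lit 0, nat_lit 288, ⟨nat_lit 0, nat_lit 0, nat_lit 1000, nat_lit 5, nat_lit 61, nat_lit 1000, nat_lit 178, nat_lit 1000, nat_lit 35833, nat_lit 261, nat_lit 35267, nat_lit 261, nat_lit 53747487, nat_lit 0, nat_lit 0, nat_lit 3060120, false, false⟩,
 nat_lit 0, nat_lit 0, nat_lit 0, nat_lit 8029, nat_lit 3708, nat_lit 0, nat_lit 426, nat_lit 0, nat_lit 0, nat_lit 0, nat_lit 0, nat_lit 0, nat_lit 0, nat_lit 11765547058117, nat_lit 115, nat_lit 1000000, nat_lit 0, nat_lit 0, [(nat_lit 3, [(nat_lit 6, nat_lit 1000)])],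
 ⟨p026_k11, nat_lit 0, nat_lit 0, nat_lit 0, nat_lit 0, nat_lit 0, [nat_lit 2303200001, nat_lit 2658400001, nat_lit 1501600001, nat_lit 23600000], [], [nat_lit 14613354631, nat_lit 15516873701, nat_lit 13460187205, nat_lit 14355339429, nat_lit 16948880880, nat_lit 17754535284, nat_lit 15759694857, nat_lit 16559527733], nat_lit 0, nat_lit 0, nat_lit 0, nat_lit 0, nat_lit 0, nat_lit 0, [], [nat_lit 140, nat_lit 40, nat_lit 20, nat_lit 80]⟩, C1.Rw.none,
 ⟨nat_lit 6324, nat_lit 6709, ⟨.ofNat (nat_lit 99275), .ofNat (nat_lit 176815), .ofNat (nat_lit 109994), .ofNat (nat_lit 187534), .ofNat (nat_lit 118272), .ofNat (nat_lit 192309), .ofNat (nat_lit 128956), .ofNat (nat_lit 202993)⟩, ⟨.ofNat (nat_lit 393209), .ofNat (nat_lit 479364), .ofNat (nat_lit 414647), .ofNat (nat_lit 500798), .ofNat (nat_lit 389952), .ofNat (nat_lit 472216), .ofNat (nat_lit 411320), .ofNat (nat_lit 493579)⟩⟩, [⟨nat_lit 0, nat_lit 100, nat_lit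 100, nat_lit 27, nat_lit 266315647⟩, ⟨nat_lit 4, nat_lit 93, nat_lit 100, nat_lit 53, nat_lit 464915616⟩]⟩
noncomputable def p026_l31 : Lf2 := ⟨nat_lit 0, nat_lit 3, [nat_lit 45, nat_lit 5, nat_lit 5, nat_lit 20], true, nat_lit 280, nat_lit 304, nat_lit 0, nat_lit 248, ⟨nat_lit 0, nat_lit 0, nat_lit 1000, nat_lit 5, nat_lit 60, nat_lit 1000, nat_lit 205, nat_lit 1000, nat_lit 4965, nat_lit 231, nat_lit 33750, nat_lit 260, nat_lit 51092087, nat_lit 0, nat_lit 0, nat_lit 3341177, false, false⟩,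
 nat_lit 0, nat_lit 0, nat_lit 0, nat_lit 468501, nat_lit 4788, nat_lit 0, nat_lit 0, nat_lit 0, nat_lit 0, nat_lit 0, nat_lit 0, nat_lit 0, nat_lit 0, nat_lit 0, nat_lit 115, nat_lit 1000000, nat_lit 0, nat_lit 0, [(nat_lit 3, [(nat_lit 6, nat_lit 1000)])],
 ⟨p026_k4, nat_lit 0, nat_lit 0, nat_lit 0, nat_lit 0, nat_lit 0, [nat_lit 3341142858, nat_lit 23600000], [], [nat_lit 18075442658, nat_lit 18836219513, nat_lit 16731179932, nat_lit 17482267372, nat_lit 19838391349, nat_lit 20918136052, nat_lit 18059106960, nat_lit 18753166929], nat_lit 0, nat_lit 0, nat_lit 0, nat_lit 0, nat_lit 0, nat_lit 0, [], [nat_lit 51, nat_lit 40, nat_lit 20, nat_lit 80]⟩, C1.Rw.none,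
 ⟨nat_lit 6324, nat_lit 6709, ⟨.ofNat (nat_lit 99275), .ofNat (nat_lit 176815), .ofNat (nat_lit 104635), .ofNat (nat_lit 182174), .ofNat (nat_lit 118272), .ofNat (nat_lit 192309), .ofNat (nat_lit 123614), .ofNat (nat_lit 197651)⟩, ⟨.ofNat (nat_lit 479364), .ofNat (nat_lit 531043), .ofNat (nat_lit 500798), .ofNat (nat_lit 552474), .ofNat (nat_lit 472216), .ofNat (nat_lit 521560), .ofNat (nat_lit 493579), .ofNat (nat_lit 542921)⟩⟩, [⟨nat_lit 0, nat_lit 100, nat_lit 99, nat_lit 32, nat_lit 294700655⟩, ⟨nat_lit 16, nat_lit 100, nat_lit 93, nat_lit 53, nat_lit 10752688172⟩, ⟨nat_lit 16, nat_lit 100, nat_lit 86, nat_lit 60, nat_lit 11627906977⟩, ⟨nat_lit 4, nat_lit 93, nat_lit 100, nat_lit 53, nat_lit 10752688172⟩]⟩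
noncomputable def p026_l32 : Lf2 := ⟨nat_lit 0, nat_lit 3, [nat_lit 45, nat_lit 5, nat_lit 5, nat_lit 20], true, nat_lit 280, nat_lit 300, nat_lit 0, nat_lit 248, ⟨nat_lit 0, nat_lit 0, nat_lit 1000, nat_lit 5, nat_lit 62, nat_lit 1000, nat_lit 203, nat_lit 1000, nat_lit 12269, nat_lit 237, nat_lit 36817, nat_lit 262, nat_lit 51175189, nat_lit 0, nat_lit 0, nat_lit 3357645, false, false⟩,
 nat_lit 0, nat_lit 0, nat_lit 0, nat_lit 58267, nat_lit 3948, nat_lit 0, nat_lit 424, nat_lit 0, nat_lit 0, nat_lit 0, nat_lit 0, nat_lit 0, nat_lit 0, nat_lit 0, nat_lit 89, nat_lit 712750, nat_lit 0, nat_lit 0, [(nat_lit 3, [(nat_lit 4, nat_lit 383), (nat_lit 6, nat_lit 617)])],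
 ⟨p026_k12, nat_lit 0, nat_lit 0, nat_lit 0, nat_lit 0, nat_lit 0, [nat_lit 2426288001, nat_lit 2077426401, nat_lit 1156424001, nat_lit 22687200], [], [nat_lit 17318889136, nat_lit 17994656808, nat_lit 16083101209, nat_lit 16702460281, nat_lit 18795114356, nat_lit 19561380158, nat_lit 17305391633, nat_lit 17934163781], nat_lit 0, nat_lit 0, nat_lit 0, nat_lit 0, nat_lit 0, nat_lit 0, [], [nat_lit 140, nat_lit 40, nat_lit 20, nat_lit 80]⟩, C1.Rw.none,
 ⟨nat_lit 6324, nat_lit 6615, ⟨.ofNat (nat_lit 109456), .ofNat (nat_lit 186106), .ofNat (nat_lit 112669), .ofNat (nat_lit 189318), .ofNat (nat_lit 123614), .ofNat (nat_lit 197651), .ofNat (nat_lit 126819), .ofNat (nat_lit 200857)⟩, ⟨.ofNat (nat_lit 477578), .ofNat (nat_lit 520155), .ofNat (nat_lit 498993), .ofNat (nat_lit 541569), .ofNat (nat_lit 472216), .ofNat (nat_lit 513343), .ofNat (nat_lit 493583), .ofNat (nat_lit 534708)⟩⟩, [⟨nat_lit 0, nat_lit 100, nat_lit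 100, nat_lit 29, nat_lit 284814829⟩, ⟨nat_lit 4, nat_lit 94, nat_lit 100, nat_lit 53, nat_lit 3908053104⟩]⟩
noncomputable def p026_l33 : Lf2 := ⟨nat_lit 0, nat_lit 3, [nat_lit 45, nat_lit 5, nat_lit 5, nat_lit 20], true, nat_lit 280, nat_lit 300, nat_lit 0, nat_lit 248, ⟨nat_lit 0, nat_lit 0, nat_lit 1000, nat_lit 5, nat_lit 64, nat_lit 1000, nat_lit 202, nat_lit 1000, nat_lit 9013, nat_lit 237, nat_lit 38400, nat_lit 263, nat_lit 51119077, nat_lit 0, nat_lit 0, nat_lit 3378218, false, false⟩,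
 nat_lit 0, nat_lit 0, nat_lit 0, nat_lit 14162, nat_lit 3746, nat_lit 0, nat_lit 2170, nat_lit 0, nat_lit 0, nat_lit 0, nat_lit 0, nat_lit 0, nat_lit 0, nat_lit 7902119841195, nat_lit 50, nat_lit 329350, nat_lit 0, nat_lit 0, [(nat_lit 3, [(nat_lit 4, nat_lit 471), (nat_lit 5, nat_lit 529)])],
 ⟨p026_k13, nat_lit 0, nat_lit 0, nat_lit 0, nat_lit 0, nat_lit 0, [nat_lit 1801052401, nat_lit 1503992400, nat_lit 904352800, nat_lit 143660800], [], [nat_lit 16975788332, nat_lit 17623952613, nat_lit 15785471638, nat_lit 16334961360, nat_lit 18631262710, nat_lit 19234668360, nat_lit 17131009795, nat_lit 17646623620], nat_lit 0, nat_lit 0, nat_lit 0, nat_lit 0, nat_lit 0, nat_lit 0, [], [nat_lit 117, nat_lit 40, nat_lit 20, nat_lit 40]⟩, C1.Rw.none,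
 ⟨nat_lit 6324, nat_lit 6558, ⟨.ofNat (nat_lit 115535), .ofNat (nat_lit 191655), .ofNat (nat_lit 117675), .ofNat (nat_lit 193795), .ofNat (nat_lit 126819), .ofNat (nat_lit 200857), .ofNat (nat_lit 128956), .ofNat (nat_lit 202993)⟩, ⟨.ofNat (nat_lit 476506), .ofNat (nat_lit 518792), .ofNat (nat_lit 497911), .ofNat (nat_lit 540195), .ofNat (nat_lit 472216), .ofNat (nat_lit 513346), .ofNat (nat_lit 493583), .ofNat (nat_lit 534711)⟩⟩, [⟨nat_lit 0, nat_lit 100, nat_lit 100, nat_lit 31, nat_lit 278154950⟩, ⟨nat_lit 4, nat_lit 94, nat_lit 100, nat_lit 53, nat_lit 895741923⟩]⟩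
noncomputable def p026_l34 : Lf2 := ⟨nat_lit 1, nat_lit 5, [nat_lit 4, nat_lit 5, nat_lit 5, nat_lit 20], false, nat_lit 240, nat_lit 304, nat_lit 0, nat_lit 288, zbN0,
 nat_lit 0, nat_lit 0, nat_lit 0, nat_lit 0, nat_lit 0, nat_lit 0, nat_lit 0, nat_lit 0, nat_lit 0, nat_lit 0, nat_lit 0, nat_lit 0, nat_lit 0, nat_lit 0, nat_lit 0, nat_lit 0, nat_lit 0, nat_lit 0, [],
 C1.Rw.none, C1.Rw.none,
 zbF0, []⟩
noncomputable def p026_l35 : Lf2 := ⟨nat_lit 0, nat_lit 5, [nat_lit 4, nat_lit 5, nat_lit 5, nat_lit 20], true, nat_lit 240, nat_lit 280, nat_lit 0, nat_lit 288, ⟨nat_lit 0, nat_lit 0, nat_lit 1000, nat_lit 5, nat_lit 67, nat_lit 1000, nat_lit 177, nat_lit 1000, nat_lit 41332, nat_lit 264, nat_lit 41667, nat_lit 265, nat_lit 53457604, nat_lit 0, nat_lit 0, nat_lit 3143508, false, false⟩,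
 nat_lit 0, nat_lit 0, nat_lit 0, nat_lit 8147, nat_lit 3609, nat_lit 0, nat_lit 907, nat_lit 0, nat_lit 0, nat_lit 0, nat_lit 0, nat_lit 0, nat_lit 0, nat_lit 12475634912854, nat_lit 60, nat_lit 400000, nat_lit 0, nat_lit 0, [(nat_lit 3, [(nat_lit 5, nat_lit 1000)])],
 ⟨p026_k7, nat_lit 0, nat_lit 0, nat_lit 0, nat_lit 0, nat_lit 0, [nat_lit 1704666667, nat_lit 1578533334, nat_lit 702400001, nat_lit 2000000], [], [nat_lit 14702643948, nat_lit 14926548092, nat_lit 13800253205, nat_lit 14002918546, nat_lit 16961199407, nat_lit 17161161881, nat_lit 15986623301, nat_lit 16185115157], nat_lit 0, nat_lit 0, nat_lit 0, nat_lit 0, nat_lit 0, nat_lit 0, [], [nat_lit 140, nat_lit 40, nat_lit 20, nat_lit 80]⟩, C1.Rw.none,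
 ⟨nat_lit 6422, nat_lit 6520, ⟨.ofNat (nat_lit 127994), .ofNat (nat_lit 195344), .ofNat (nat_lit 133343), .ofNat (nat_lit 200693), .ofNat (nat_lit 132611), .ofNat (nat_lit 199188), .ofNat (nat_lit 137956), .ofNat (nat_lit 204533)⟩, ⟨.ofNat (nat_lit 391604), .ofNat (nat_lit 475792), .ofNat (nat_lit 413002), .ofNat (nat_lit 497190), .ofNat (nat_lit 390784), .ofNat (nat_lit 474005), .ofNat (nat_lit 412166), .ofNat (nat_lit 495386)⟩⟩, [⟨nat_lit 0, nat_lit 100, nat_lit 100, nat_lit 35, nat_lit 254731445⟩, ⟨nat_lit 16, nat_lit 100, nat_lit 94, nat_lit 53, nat_lit 457459060⟩]⟩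
noncomputable def p026_l36 : Lf2 := ⟨nat_lit 0, nat_lit 5, [nat_lit 4, nat_lit 5, nat_lit 5, nat_lit 20], true, nat_lit 240, nat_lit 280, nat_lit 0, nat_lit 288, ⟨nat_lit 0, nat_lit 0, nat_lit 1000, nat_lit 5, nat_lit 69, nat_lit 1000, nat_lit 177, nat_lit 1000, nat_lit 41667, nat_lit 265, nat_lit 45067, nat_lit 267, nat_lit 53354400, nat_lit 0, nat_lit 0, nat_lit 3178278, false, false⟩,
 nat_lit 0, nat_lit 0, nat_lit 0, nat_lit 7465, nat_lit 3601, nat_lit 0, nat_lit 734, nat_lit 0, nat_lit 0, nat_lit 0, nat_lit 0, nat_lit 0, nat_lit 0, nat_lit 18757570825117, nat_lit 60, nat_lit 400000, nat_lit 0, nat_lit 0, [(nat_lit 3, [(nat_lit 5, nat_lit 1000)])],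
 ⟨p026_k8, nat_lit 0, nat_lit 0, nat_lit 0, nat_lit 0, nat_lit 0, [nat_lit 1704666667, nat_lit 1578533334, nat_lit 702400001, nat_lit 2000000], [], [nat_lit 14987646557, nat_lit 15211394342, nat_lit 14074153235, nat_lit 14276686184, nat_lit 17220201333, nat_lit 17420045519, nat_lit 16247296844, nat_lit 16445670205], nat_lit 0, nat_lit 0, nat_lit 0, nat_lit 0, nat_lit 0, nat_lit 0, [], [nat_lit 140, nat_lit 40, nat_lit 20, nat_lit 80]⟩, C1.Rw.none,
 ⟨nat_lit 6324, nat_lit 6423, ⟨.ofNat (nat_lit 132611), .ofNat (nat_lit 199188), .ofNat (nat_lit 143302), .ofNat (nat_lit 209879), .ofNat (nat_lit 137182), .ofNat (nat_lit 202993), .ofNat (nat_lit 147866), .ofNat (nat_lit 213677)⟩, ⟨.ofNat (nat_lit 390784), .ofNat (nat_lit 474005), .ofNat (nat_lit 412166), .ofNat (nat_lit 495387), .ofNat (nat_lit 389952), .ofNat (nat_lit 472216), .ofNat (nat_lit 411320), .ofNat (nat_lit 493584)⟩⟩, [⟨nat_lit 0, nat_lit 100, nat_lit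 100, nat_lit 40, nat_lit 261676508⟩, ⟨nat_lit 16, nat_lit 100, nat_lit 95, nat_lit 54, nat_lit 438821024⟩]⟩
noncomputable def p026_l37 : Lf2 := ⟨nat_lit 0, nat_lit 5, [nat_lit 4, nat_lit 5, nat_lit 5, nat_lit 20], true, nat_lit 280, nat_lit 296, nat_lit 0, nat_lit 248, ⟨nat_lit 0, nat_lit 0, nat_lit 1000, nat_lit 5, nat_lit 67, nat_lit 1000, nat_lit 201, nat_lit 1000, nat_lit 13437, nat_lit 242, nat_lit 43350, nat_lit 266, nat_lit 51121195, nat_lit 0, nat_lit 0, nat_lit 3410387, false, false⟩,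
 nat_lit 0, nat_lit 0, nat_lit 0, nat_lit 14728, nat_lit 2808, nat_lit 0, nat_lit 1956, nat_lit 0, nat_lit 0, nat_lit 0, nat_lit 0, nat_lit 0, nat_lit 0, nat_lit 9325193558105, nat_lit 60, nat_lit 400000, nat_lit 0, nat_lit 0, [(nat_lit 3, [(nat_lit 5, nat_lit 1000)])],
 ⟨p026_k7, nat_lit 0, nat_lit 0, nat_lit 0, nat_lit 0, nat_lit 0, [nat_lit 1704666667, nat_lit 1578533334, nat_lit 702400001, nat_lit 2000000], [], [nat_lit 16224457357, nat_lit 16684638552, nat_lit 15722656844, nat_lit 16067171392, nat_lit 17288903231, nat_lit 17754675810, nat_lit 16548457862, nat_lit 16984435381], nat_lit 0, nat_lit 0, nat_lit 0, nat_lit 0, nat_lit 0, nat_lit 0, [], [nat_lit 140, nat_lit 40, nat_lit 20, nat_lit 80]⟩, C1.Rw.none,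
 ⟨nat_lit 6324, nat_lit 6520, ⟨.ofNat (nat_lit 127994), .ofNat (nat_lit 195344), .ofNat (nat_lit 133343), .ofNat (nat_lit 200693), .ofNat (nat_lit 137182), .ofNat (nat_lit 202993), .ofNat (nat_lit 142524), .ofNat (nat_lit 208335)⟩, ⟨.ofNat (nat_lit 475792), .ofNat (nat_lit 509466), .ofNat (nat_lit 497189), .ofNat (nat_lit 530862), .ofNat (nat_lit 472216), .ofNat (nat_lit 505121), .ofNat (nat_lit 493584), .ofNat (nat_lit 526487)⟩⟩, [⟨nat_lit 0, nat_lit 100, nat_lit 100, nat_lit 34, nat_lit 191899782⟩, ⟨nat_lit 4, nat_lit 94, nat_lit 100, nat_lit 54, nat_lit 938762811⟩]⟩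
noncomputable def p026_l38 : Lf2 := ⟨nat_lit 0, nat_lit 5, [nat_lit 4, nat_lit 5, nat_lit 5, nat_lit 20], true, nat_lit 280, nat_lit 292, nat_lit 0, nat_lit 248, ⟨nat_lit 0, nat_lit 0, nat_lit 1000, nat_lit 5, nat_lit 72, nat_lit 1000, nat_lit 198, nat_lit 1000, nat_lit 19223, nat_lit 248, nat_lit 48600, nat_lit 269, nat_lit 51078025, nat_lit 0, nat_lit 0, nat_lit 3456265, false, false⟩,
 nat_lit 0, nat_lit 0, nat_lit 0, nat_lit 12566, nat_lit 2843, nat_lit 0, nat_lit 1591, nat_lit 0, nat_lit 0, nat_lit 0, nat_lit 0, nat_lit 0, nat_lit 0, nat_lit 28177384936972, nat_lit 60, nat_lit 400000, nat_lit 0, nat_lit 0, [(nat_lit 3, [(nat_lit 5, nat_lit 1000)])],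
 ⟨p026_k8, nat_lit 0, nat_lit 0, nat_lit 0, nat_lit 0, nat_lit 0, [nat_lit 1704666667, nat_lit 1578533334, nat_lit 702400001, nat_lit 2000000], [], [nat_lit 16373150520, nat_lit 16547752664, nat_lit 15958156556, nat_lit 16130851872, nat_lit 17115712880, nat_lit 17352558132, nat_lit 16506124408, nat_lit 16725055699], nat_lit 0, nat_lit 0, nat_lit 0, nat_lit 0, nat_lit 0, nat_lit 0, [], [nat_lit 140, nat_lit 40, nat_lit 20, nat_lit 80]⟩, C1.Rw.none,
 ⟨nat_lit 6324, nat_lit 6423, ⟨.ofNat (nat_lit 146279), .ofNat (nat_lit 204533), .ofNat (nat_lit 151624), .ofNat (nat_lit 209879), .ofNat (nat_lit 150750), .ofNat (nat_lit 208335), .ofNat (nat_lit 156092), .ofNat (nat_lit 213677)⟩, ⟨.ofNat (nat_lit 474005), .ofNat (nat_lit 498971), .ofNat (nat_lit 495387), .ofNat (nat_lit 520352), .ofNat (nat_lit 472216), .ofNat (nat_lit 496895), .ofNat (nat_lit 493584), .ofNat (nat_lit 518263)⟩⟩, [⟨nat_lit 0, nat_lit 100, nat_lit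 100, nat_lit 40, nat_lit 185197043⟩, ⟨nat_lit 16, nat_lit 100, nat_lit 91, nat_lit 61, nat_lit 819471838⟩]⟩
noncomputable def p026_l39 : Lf2 := ⟨nat_lit 0, nat_lit 5, [nat_lit 4, nat_lit 5, nat_lit 5, nat_lit 20], true, nat_lit 240, nat_lit 304, nat_lit 0, nat_lit 288, ⟨nat_lit 0, nat_lit 0, nat_lit 1000, nat_lit 5, nat_lit 57, nat_lit 1000, nat_lit 188, nat_lit 1000, nat_lit 4965, nat_lit 231, nat_lit 30817, nat_lit 258, nat_lit 52937101, nat_lit 0, nat_lit 0, nat_lit 3120840, false, false⟩,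
 nat_lit 0, nat_lit 0, nat_lit 0, nat_lit 363914, nat_lit 322268, nat_lit 0, nat_lit 60000, nat_lit 15896, nat_lit 0, nat_lit 0, nat_lit 0, nat_lit 0, nat_lit 0, nat_lit 237214112123952, nat_lit 0, nat_lit 1000000, nat_lit 0, nat_lit 0, [(nat_lit 3, [(nat_lit 6, nat_lit 1000)])],
 ⟨p026_k1, nat_lit 0, nat_lit 0, nat_lit 167, nat_lit 0, nat_lit 0, [nat_lit 318961142858, nat_lit 441891600000], [], [nat_lit 337706456760, nat_lit 357397875264, nat_lit 181412502234, nat_lit 192948746618, nat_lit 457833533196, nat_lit 468828653376, nat_lit 291461370706, nat_lit 302813549991], nat_lit 0, nat_lit 0, nat_lit 0, nat_lit 0, nat_lit 0, nat_lit 0, [], [nat_lit 51, nat_lit 40, nat_lit 20, nat_lit 80, nat_lit 1, nat_lit 373, nat_lit 150, nat_lit 11]⟩, C1.Rw.none,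
 ⟨nat_lit 6324, nat_lit 6709, ⟨.ofNat (nat_lit 69221), .ofNat (nat_lit 155377), .ofNat (nat_lit 112098), .ofNat (nat_lit 198253), .ofNat (nat_lit 88677), .ofNat (nat_lit 170942), .ofNat (nat_lit 131413), .ofNat (nat_lit 213677)⟩, ⟨.ofNat (nat_lit 393209), .ofNat (nat_lit 531043), .ofNat (nat_lit 414647), .ofNat (nat_lit 552474), .ofNat (nat_lit 389952), .ofNat (nat_lit 521560), .ofNat (nat_lit 411320), .ofNat (nat_lit 542921)⟩⟩, [⟨nat_lit 0, nat_lit 100, nat_lit 99, nat_lit 25, nat_lit 10101010101⟩, ⟨nat_lit 0, nat_lit 100, nat_lit 100, nat_lit 40, nat_lit 10000000000⟩, ⟨nat_lit 0, nat_lit 100, nat_lit 99, nat_lit 10, nat_lit 666442121⟩, ⟨nat_lit 16, nat_lit 100, nat_lit 93, nat_lit 53, nat_lit 10752688172⟩, ⟨nat_lit 16, nat_lit 100, nat_lit 86, nat_lit 60, nat_lit 11627906977⟩, ⟨nat_lit 4, nat_lit 93, nat_lit 100, nat_lit 53, nat_lit 7469693606⟩]⟩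
noncomputable def p026_l40 : Lf2 := ⟨nat_lit 0, nat_lit 5, [nat_lit 4, nat_lit 5, nat_lit 5, nat_lit 20], true, nat_lit 240, nat_lit 304, nat_lit 0, nat_lit 320, ⟨nat_lit 0, nat_lit 893, nat_lit 107, nat_lit 5, nat_lit 91, nat_lit 1000, nat_lit 188, nat_lit 107, nat_lit 4965, nat_lit 231, nat_lit 77067, nat_lit 283, nat_lit 51034228, nat_lit 3906118, nat_lit 12059654, nat_lit 3609490, false, false⟩,
 nat_lit 0, nat_lit 0, nat_lit 0, nat_lit 3477, nat_lit 6457, nat_lit 0, nat_lit 0, nat_lit 0, nat_lit 0, nat_lit 0, nat_lit 0, nat_lit 0, nat_lit 0, nat_lit 15241667581618, nat_lit 0, nat_lit 464200, nat_lit 0, nat_lit 0, [(nat_lit 3, [(nat_lit 1, nat_lit 893), (nat_lit 6, nat_lit 107)])],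
 ⟨p026_k1, nat_lit 0, nat_lit 0, nat_lit 60, nat_lit 0, nat_lit 0, [nat_lit 3097594286, nat_lit 2732170972], [], [nat_lit 13498278534, nat_lit 14739873206, nat_lit 12557037210, nat_lit 13755145358, nat_lit 18847368797, nat_lit 19828439206, nat_lit 17697583140, nat_lit 18647410638], nat_lit 0, nat_lit 0, nat_lit 0, nat_lit 0, nat_lit 0, nat_lit 0, [], [nat_lit 51, nat_lit 40, nat_lit 20, nat_lit 80, nat_lit 1, nat_lit 401, nat_lit 175, nat_lit 11]⟩, C1.Rw.none,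
 ⟨nat_lit 6324, nat_lit 6709, ⟨.ofNat (nat_lit 155377), .ofNat (nat_lit 241532), .ofNat (nat_lit 198253), .ofNat (nat_lit 284409), .ofNat (nat_lit 170942), .ofNat (nat_lit 253206), .ofNat (nat_lit 213677), .ofNat (nat_lit 295942)⟩, ⟨.ofNat (nat_lit 393209), .ofNat (nat_lit 531043), .ofNat (nat_lit 414647), .ofNat (nat_lit 552474), .ofNat (nat_lit 389952), .ofNat (nat_lit 521560), .ofNat (nat_lit 411320), .ofNat (nat_lit 542921)⟩⟩, [⟨nat_lit 16, nat_lit 100, nat_lit 86, nat_lit 60, nat_lit 540467372⟩]⟩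
noncomputable def p026_l41 : Lf2 := ⟨nat_lit 0, nat_lit 5, [nat_lit 4, nat_lit 5, nat_lit 5, nat_lit 20], true, nat_lit 240, nat_lit 304, nat_lit 0, nat_lit 320, ⟨nat_lit 0, nat_lit 1000, nat_lit 0, nat_lit 5, nat_lit 124, nat_lit 1000, nat_lit 188, nat_lit 0, nat_lit 0, nat_lit 0, nat_lit 0, nat_lit 0, nat_lit 48830601, nat_lit 6259517, nat_lit 11909882, nat_lit 4054254, false, false⟩,
 nat_lit 0, nat_lit 0, nat_lit 0, nat_lit 5017, nat_lit 8733, nat_lit 0, nat_lit 0, nat_lit 0, nat_lit 0, nat_lit 0, nat_lit 0, nat_lit 0, nat_lit 0, nat_lit 16702263836297, nat_lit 0, nat_lit 400000, nat_lit 0, nat_lit 0, [(nat_lit 3, [(nat_lit 1, nat_lit 1000)])],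
 ⟨p026_k1, nat_lit 0, nat_lit 0, nat_lit 30, nat_lit 0, nat_lit 0, [nat_lit 3344000000, nat_lit 3475733334], [], [nat_lit 9890008156, nat_lit 11292419168, nat_lit 9602969130, nat_lit 10924519972, nat_lit 17599415193, nat_lit 19004020644, nat_lit 16817557178, nat_lit 18156020352], nat_lit 0, nat_lit 0, nat_lit 0, nat_lit 0, nat_lit 0, nat_lit 0, [], [nat_lit 51, nat_lit 40, nat_lit 20, nat_lit 80, nat_lit 1, nat_lit 401, nat_lit 175, nat_lit 11]⟩, C1.Rw.none,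
 ⟨nat_lit 6324, nat_lit 6709, ⟨.ofNat (nat_lit 241532), .ofNat (nat_lit 327688), .ofNat (nat_lit 284409), .ofNat (nat_lit 370564), .ofNat (nat_lit 253206), .ofNat (nat_lit 335470), .ofNat (nat_lit 295942), .ofNat (nat_lit 378206)⟩, ⟨.ofNat (nat_lit 393209), .ofNat (nat_lit 531043), .ofNat (nat_lit 414647), .ofNat (nat_lit 552474), .ofNat (nat_lit 389952), .ofNat (nat_lit 521560), .ofNat (nat_lit 411320), .ofNat (nat_lit 542921)⟩⟩, [⟨nat_lit 16, nat_lit 100, nat_lit 86, nat_lit 60, nat_lit 874343937⟩]⟩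
noncomputable def p026_l42 : Lf2 := ⟨nat_lit 0, nat_lit 5, [nat_lit 4, nat_lit 5, nat_lit 5, nat_lit 20], true, nat_lit 160, nat_lit 304, nat_lit 0, nat_lit 320, ⟨nat_lit 0, nat_lit 1000, nat_lit 0, nat_lit 5, nat_lit 192, nat_lit 1000, nat_lit 154, nat_lit 0, nat_lit 0, nat_lit 0, nat_lit 0, nat_lit 0, nat_lit 46398602, nat_lit 12046567, nat_lit 8554831, nat_lit 4431176, false, false⟩,
 nat_lit 0, nat_lit 0, nat_lit 0, nat_lit 3719, nat_lit 8724, nat_lit 0, nat_lit 0, nat_lit 0, nat_lit 0, nat_lit 0, nat_lit 0, nat_lit 0, nat_lit 0, nat_lit 9609014168385, nat_lit 0, nat_lit 400000, nat_lit 0, nat_lit 0, [(nat_lit 3, [(nat_lit 1, nat_lit 1000)])],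
 ⟨p026_k1, nat_lit 0, nat_lit 0, nat_lit 14, nat_lit 0, nat_lit 0, [nat_lit 3344000000, nat_lit 3475733334], [], [nat_lit 4719936392, nat_lit 6368035872, nat_lit 10281897200, nat_lit 11652199056, nat_lit 16817183613, nat_lit 18154916714, nat_lit 20654434082, nat_lit 21638509860], nat_lit 0, nat_lit 0, nat_lit 0, nat_lit 0, nat_lit 0, nat_lit 0, [], [nat_lit 51, nat_lit 40, nat_lit 20, nat_lit 80, nat_lit 1, nat_lit 428, nat_lit 200, nat_lit 12]⟩, C1.Rw.none,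
 ⟨nat_lit 6324, nat_lit 6709, ⟨.ofNat (nat_lit 327688), .ofNat (nat_lit 586126), .ofNat (nat_lit 370564), .ofNat (nat_lit 628989), .ofNat (nat_lit 335470), .ofNat (nat_lit 582235), .ofNat (nat_lit 378206), .ofNat (nat_lit 624956)⟩, ⟨.ofNat (nat_lit 220898), .ofNat (nat_lit 531043), .ofNat (nat_lit 242336), .ofNat (nat_lit 552474), .ofNat (nat_lit 225423), .ofNat (nat_lit 521560), .ofNat (nat_lit 246791), .ofNat (nat_lit 542921)⟩⟩, [⟨nat_lit 16, nat_lit 100, nat_lit 86, nat_lit 60, nat_lit 462262683⟩]⟩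
noncomputable def p026_l43 : Lf2 := ⟨nat_lit 0, nat_lit 5, [nat_lit 4, nat_lit 5, nat_lit 5, nat_lit 20], false, nat_lit 0, nat_lit 320, nat_lit 0, nat_lit 320, ⟨nat_lit 1000, nat_lit 0, nat_lit 0, nat_lit 0, nat_lit 0, nat_lit 0, nat_lit 0, nat_lit 0, nat_lit 0, nat_lit 0, nat_lit 0, nat_lit 0, nat_lit 0, nat_lit 0, nat_lit 0, nat_lit 0, false, false⟩,
 nat_lit 0, nat_lit 0, nat_lit 21138, nat_lit 0, nat_lit 9715, nat_lit 9059, nat_lit 2339, nat_lit 0, nat_lit 0, nat_lit 1416, nat_lit 0, nat_lit 0, nat_lit 0, nat_lit 0, nat_lit 0, nat_lit 0, nat_lit 0, nat_lit 0, [],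
 ⟨p026_k10, nat_lit 0, nat_lit 0, nat_lit 255, nat_lit 0, nat_lit 0, [nat_lit 6250000000, nat_lit 7968000001, nat_lit 11872000000], [], [nat_lit 25503449735, nat_lit 27395048115, nat_lit 41715557080, nat_lit 43139643280, nat_lit 24272702295, nat_lit 25007750455, nat_lit 35958314660, nat_lit 36497286240], nat_lit 0, nat_lit 0, nat_lit 0, nat_lit 0, nat_lit 0, nat_lit 0, [], [nat_lit 53, nat_lit 40, nat_lit 20, nat_lit 80, nat_lit 14, nat_lit 483, nat_lit 250, nat_lit 12]⟩, ⟨p026_k10, nat_lit 0, nat_lit 0, nat_lit 380, nat_lit 0, nat_lit 245727, [nat_lit 6250000000, nat_lit 7968000000, nat_lit 11872000000], [], [nat_lit 31766844400, nat_lit 32174010760, nat_lit 42370483916, nat_lit 42653544970, nat_lit 34610073064, nat_lit 30508085392, nat_lit 35477237832, nat_lit 35485319970], nat_lit 1271250, nat_lit 1271250, nat_lit 1271250, nat_lit 1271250, nat_lit 0, nat_lit 2260000, [nat_lit 1412500, nat_lit 1271250, nat_lit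 1271250], [nat_lit 53, nat_lit 40, nat_lit 20, nat_lit 80, nat_lit 14, nat_lit 483, nat_lit 250, nat_lit 12]⟩,
 zbF0, [⟨nat_lit 4, nat_lit 90, nat_lit 100, nat_lit 53, nat_lit 154170363⟩, ⟨nat_lit 7, nat_lit 88, nat_lit 100, nat_lit 53, nat_lit 138658176⟩]⟩
noncomputable def p026_l44 : Lf2 := ⟨nat_lit 0, nat_lit 5, [nat_lit 4, nat_lit 5, nat_lit 5, nat_lit 20], false, nat_lit 0, nat_lit 304, nat_lit 0, nat_lit 304, ⟨nat_lit 1000, nat_lit 0, nat_lit 0, nat_lit 0, nat_lit 0, nat_lit 0, nat_lit 0, nat_lit 0, nat_lit 0, nat_lit 0, nat_lit 0, nat_lit 0, nat_lit 0, nat_lit 0, nat_lit 0, nat_lit 0, false, false⟩,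
 nat_lit 0, nat_lit 0, nat_lit 16651, nat_lit 0, nat_lit 8698, nat_lit 7963, nat_lit 3640, nat_lit 0, nat_lit 0, nat_lit 2184, nat_lit 0, nat_lit 0, nat_lit 0, nat_lit 0, nat_lit 0, nat_lit 0, nat_lit 0, nat_lit 0, [],
 ⟨p026_k1, nat_lit 0, nat_lit 0, nat_lit 214, nat_lit 0, nat_lit 0, [nat_lit 6250000000, nat_lit 9842000000], [], [nat_lit 23377495584, nat_lit 24202755496, nat_lit 39896234296, nat_lit 40593286816, nat_lit 22426456624, nat_lit 22792608004, nat_lit 34306907522, nat_lit 34639297349], nat_lit 0, nat_lit 0, nat_lit 0, nat_lit 0, nat_lit 0, nat_lit 0, [], [nat_lit 51, nat_lit 40, nat_lit 20, nat_lit 80, nat_lit 1, nat_lit 483, nat_lit 250, nat_lit 14]⟩, ⟨p026_k1, nat_lit 0, nat_lit 0, nat_lit 379, nat_lit 0, nat_lit 409043, [nat_lit 6250000000, nat_lit 9842000000], [], [nat_lit 32926841874, nat_lit 33210055160, nat_lit 38974225398, nat_lit 39160491704, nat_lit 30659885665, nat_lit 29647285852, nat_lit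 33503141510, nat_lit 33847786433], nat_lit 1271250, nat_lit 1271250, nat_lit 1271250, nat_lit 1271250, nat_lit 0, nat_lit 2147000, [nat_lit 1412500, nat_lit 1271250], [nat_lit 51, nat_lit 40, nat_lit 20, nat_lit 80, nat_lit 1, nat_lit 483, nat_lit 250, nat_lit 14]⟩,
 zbF0, [⟨nat_lit 4, nat_lit 93, nat_lit 100, nat_lit 53, nat_lit 157832294⟩, ⟨nat_lit 7, nat_lit 93, nat_lit 100, nat_lit 53, nat_lit 177798211⟩]⟩
noncomputable def b_VL_500_500_5_1 : St := ⟨true, nat_lit 0, nat_lit 1, nat_lit 1, nat_lit 40, nat_lit 200, nat_lit 240, nat_lit 200, nat_lit 240, nat_lit 0, nat_lit 400, nat_lit 20, nat_lit 40, nat_lit 0, nat_lit 320, nat_lit 0, nat_lit 320, nat_lit 0, nat_lit 20, nat_lit 0, nat_lit 0, nat_lit 0, nat_lit 0⟩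
theorem d_VL_500_500_5_1 (h : EB TB.env) : Dead b_VL_500_500_5_1 := chkB_sound0 h (T :=
(.spl (nat_lit 2) (nat_lit 240)
(.spl (nat_lit 4) (nat_lit 160)
(.spl (nat_lit 1) (nat_lit 220)
(.spl (nat_lit 6) (nat_lit 8)
(.leaf p026_l21)
(.leaf p026_l22))
(.ord (.trZ (nat_lit 0) (nat_lit 100) (nat_lit 100) (nat_lit 20) (nat_lit 4) (.trX (nat_lit 19) (nat_lit 100) (nat_lit 86) (nat_lit 60) (nat_lit 304) (.spl (nat_lit 4) (nat_lit 80)
(.spl (nat_lit 2) (nat_lit 160)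
(.leaf p026_l23)
(.leaf p026_l24))
(.leaf p026_l25))))))
(.spl (nat_lit 0) (nat_lit 220)
(.ord (.leaf p026_l26))
(.trX (nat_lit 16) (nat_lit 100) (nat_lit 86) (nat_lit 60) (nat_lit 304) (.spl (nat_lit 2) (nat_lit 120)
(.spl (nat_lit 4) (nat_lit 240)
(.leaf p026_l27)
(.spl (nat_lit 2) (nat_lit 80)
(.spl (nat_lit 2) (nat_lit 40)
(.trX (nat_lit 23) (nat_lit 100) (nat_lit 92) (nat_lit 61) (nat_lit 288) (.spl (nat_lit 7) (nat_lit 600)
(.spl (nat_lit 1) (nat_lit 220)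
(.spl (nat_lit 6) (nat_lit 8)
(.leaf p026_l28)
(.leaf p026_l29))
(.trZ (nat_lit 0) (nat_lit 100) (nat_lit 100) (nat_lit 20) (nat_lit 4) (.spl (nat_lit 1) (nat_lit 230)
(.spl (nat_lit 6) (nat_lit 12)
(.spl (nat_lit 4) (nat_lit 280)
(.leaf p026_l30)
(.trX (nat_lit 23) (nat_lit 94) (nat_lit 100) (nat_lit 62) (nat_lit 248) (.spl (nat_lit 1) (nat_lit 225)
(.leaf p026_l31)
(.ord (.trX (nat_lit 16) (nat_lit 100) (nat_lit 88) (nat_lit 60) (nat_lit 300) (.spl (nat_lit 1) (nat_lit 228)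
(.leaf p026_l32)
(.ord (.leaf p026_l33))))))))
(.leaf p026_l34))
(.ord (.trZ (nat_lit 0) (nat_lit 100) (nat_lit 100) (nat_lit 30) (nat_lit 8) (.trX (nat_lit 16) (nat_lit 100) (nat_lit 89) (nat_lit 61) (nat_lit 296) (.spl (nat_lit 4) (nat_lit 280)
(.spl (nat_lit 0) (nat_lit 235)
(.ord (.leaf p026_l35))
(.leaf p026_l36))
(.trX (nat_lit 23) (nat_lit 94) (nat_lit 100) (nat_lit 62) (nat_lit 248) (.spl (nat_lit 1) (nat_lit 235)
(.leaf p026_l37)
(.ord (.trZ (nat_lit 0) (nat_lit 100) (nat_lit 100) (nat_lit 35) (nat_lit 12) (.trX (nat_lit 16) (nat_lit 100) (nat_lit 91) (nat_lit 61) (nat_lit 292) (.leaf p026_l38)))))))))))))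
(.leaf p026_l39)))
(.leaf p026_l40))
(.leaf p026_l41)))
(.leaf p026_l42)))))
(.spl (nat_lit 1) (nat_lit 220)
(.leaf p026_l43)
(.ord (.trX (nat_lit 16) (nat_lit 100) (nat_lit 86) (nat_lit 60) (nat_lit 304) (.trX (nat_lit 19) (nat_lit 100) (nat_lit 86) (nat_lit 60) (nat_lit 304) (.leaf p026_l44))))))) (by decide +kernel)
noncomputable def p026_l45 : Lf2 := ⟨nat_lit 0, nat_lit 5, [nat_lit 4, nat_lit 5, nat_lit 5, nat_lit 20], true, nat_lit 0, nat_lit 320, nat_lit 0, nat_lit 320, ⟨nat_lit 0, nat_lit 1000, nat_lit 0, nat_lit 5, nat_lit 140, nat_lit 1000, nat_lit 115, nat_lit 0, nat_lit 0, nat_lit 0, nat_lit 0, nat_lit 0, nat_lit 0, nat_lit 0, nat_lit 0, nat_lit 5000000, false, false⟩,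
 nat_lit 0, nat_lit 0, nat_lit 0, nat_lit 10938, nat_lit 7390, nat_lit 0, nat_lit 1457, nat_lit 0, nat_lit 0, nat_lit 0, nat_lit 0, nat_lit 0, nat_lit 0, nat_lit 3906521996478, nat_lit 0, nat_lit 337000, nat_lit 0, nat_lit 0, [(nat_lit 0, [(nat_lit 0, nat_lit 420), (nat_lit 1, nat_lit 580)]), (nat_lit 3, [(nat_lit 0, nat_lit 420), (nat_lit 1, nat_lit 580)])],
 ⟨p026_k10, nat_lit 0, nat_lit 0, nat_lit 376, nat_lit 0, nat_lit 0, [nat_lit 3542240000, nat_lit 3684922667, nat_lit 3706053333], [], [nat_lit 23547062685, nat_lit 25330888658, nat_lit 20874712574, nat_lit 22050332974, nat_lit 25324087614, nat_lit 26465184654, nat_lit 21868282534, nat_lit 22780261987], nat_lit 0, nat_lit 0, nat_lit 0, nat_lit 0, nat_lit 0, nat_lit 0, [], [nat_lit 53, nat_lit 40, nat_lit 20, nat_lit 80, nat_lit 14, nat_lit 428, nat_lit 200, nat_lit 12]⟩, C1.Rw.none,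
 ⟨nat_lit 6324, nat_lit 7072, ⟨.ofNat (nat_lit 48812), .ofNat (nat_lit 590110), .ofNat (nat_lit 91909), .ofNat (nat_lit 633154), .ofNat (nat_lit 88675), .ofNat (nat_lit 582138), .ofNat (nat_lit 131412), .ofNat (nat_lit 624821)⟩, ⟨.negSucc (nat_lit 145122), .ofNat (nat_lit 576633), .negSucc (nat_lit 123573), .ofNat (nat_lit 598155), .negSucc (nat_lit 103636), .ofNat (nat_lit 554338), .negSucc (nat_lit 82267), .ofNat (nat_lit 575680)⟩⟩, [⟨nat_lit 0, nat_lit 100, nat_lit 100, nat_lit 40, nat_lit 60397170⟩, ⟨nat_lit 4, nat_lit 90, nat_lit 100, nat_lit 53, nat_lit 129598016⟩]⟩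
noncomputable def p026_l46 : Lf2 := ⟨nat_lit 0, nat_lit 5, [nat_lit 4, nat_lit 5, nat_lit 5, nat_lit 20], false, nat_lit 0, nat_lit 320, nat_lit 0, nat_lit 320, ⟨nat_lit 1000, nat_lit 0, nat_lit 0, nat_lit 0, nat_lit 0, nat_lit 0, nat_lit 0, nat_lit 0, nat_lit 0, nat_lit 0, nat_lit 0, nat_lit 0, nat_lit 0, nat_lit 0, nat_lit 0, nat_lit 0, false, false⟩,
 nat_lit 0, nat_lit 0, nat_lit 0, nat_lit 25603, nat_lit 8421, nat_lit 8189, nat_lit 2109, nat_lit 0, nat_lit 0, nat_lit 2020, nat_lit 0, nat_lit 0, nat_lit 0, nat_lit 0, nat_lit 0, nat_lit 0, nat_lit 0, nat_lit 0, [],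
 ⟨p026_k10, nat_lit 0, nat_lit 0, nat_lit 255, nat_lit 0, nat_lit 0, [nat_lit 6250000000, nat_lit 7968000001, nat_lit 11872000000], [], [nat_lit 26791859013, nat_lit 28135756917, nat_lit 39333114229, nat_lit 39925641881, nat_lit 25916798473, nat_lit 26675758281, nat_lit 34466948604, nat_lit 35059476256], nat_lit 0, nat_lit 0, nat_lit 0, nat_lit 0, nat_lit 0, nat_lit 0, [], [nat_lit 53, nat_lit 40, nat_lit 20, nat_lit 80, nat_lit 14, nat_lit 483, nat_lit 250, nat_lit 12]⟩, ⟨p026_k10, nat_lit 0, nat_lit 0, nat_lit 255, nat_lit 0, nat_lit 0, [nat_lit 6250000000, nat_lit 7968000000, nat_lit 11872000000], [], [nat_lit 27307064192, nat_lit 28641722928, nat_lit 39361375536, nat_lit 39963505204, nat_lit 26511708520, nat_lit 27134960520, nat_lit 34468392128, nat_lit 34802415572], nat_lit 0, nat_lit 0, nat_lit 0, nat_lit 0, nat_lit 0, nat_lit 0, [], [nat_lit 53, nat_lit 40, nat_lit 20, nat_lit 80, nat_lit 14, nat_lit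 483, nat_lit 250, nat_lit 12]⟩,
 zbF0, [⟨nat_lit 4, nat_lit 90, nat_lit 100, nat_lit 53, nat_lit 206549084⟩, ⟨nat_lit 7, nat_lit 90, nat_lit 100, nat_lit 53, nat_lit 197785064⟩]⟩
noncomputable def p026_l47 : Lf2 := ⟨nat_lit 0, nat_lit 5, [nat_lit 4, nat_lit 5, nat_lit 5, nat_lit 20], true, nat_lit 0, nat_lit 320, nat_lit 0, nat_lit 320, ⟨nat_lit 0, nat_lit 1000, nat_lit 0, nat_lit 5, nat_lit 140, nat_lit 1000, nat_lit 115, nat_lit 0, nat_lit 0, nat_lit 0, nat_lit 0, nat_lit 0, nat_lit 0, nat_lit 0, nat_lit 0, nat_lit 5000000, false, false⟩,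
 nat_lit 0, nat_lit 0, nat_lit 0, nat_lit 10938, nat_lit 7390, nat_lit 0, nat_lit 1457, nat_lit 0, nat_lit 0, nat_lit 0, nat_lit 0, nat_lit 0, nat_lit 0, nat_lit 3906521996478, nat_lit 0, nat_lit 337000, nat_lit 0, nat_lit 0, [(nat_lit 0, [(nat_lit 0, nat_lit 420), (nat_lit 1, nat_lit 580)]), (nat_lit 3, [(nat_lit 0, nat_lit 420), (nat_lit 1, nat_lit 580)])],
 ⟨p026_k10, nat_lit 0, nat_lit 0, nat_lit 376, nat_lit 0, nat_lit 0, [nat_lit 3542240000, nat_lit 3684922667, nat_lit 3706053333], [], [nat_lit 23547062685, nat_lit 25330888658, nat_lit 20874712574, nat_lit 22050332974, nat_lit 25324087614, nat_lit 26465184654, nat_lit 21868282534, nat_lit 22780261987], nat_lit 0, nat_lit 0, nat_lit 0, nat_lit 0, nat_lit 0, nat_lit 0, [], [nat_lit 53, nat_lit 40, nat_lit 20, nat_lit 80, nat_lit 14, nat_lit 428, nat_lit 200, nat_lit 12]⟩, C1.Rw.none,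
 ⟨nat_lit 6324, nat_lit 7072, ⟨.ofNat (nat_lit 48812), .ofNat (nat_lit 590110), .ofNat (nat_lit 91909), .ofNat (nat_lit 633154), .ofNat (nat_lit 88675), .ofNat (nat_lit 582138), .ofNat (nat_lit 131412), .ofNat (nat_lit 624821)⟩, ⟨.negSucc (nat_lit 145122), .ofNat (nat_lit 576633), .negSucc (nat_lit 123573), .ofNat (nat_lit 598155), .negSucc (nat_lit 103636), .ofNat (nat_lit 554338), .negSucc (nat_lit 82267), .ofNat (nat_lit 575680)⟩⟩, [⟨nat_lit 0, nat_lit 100, nat_lit 100, nat_lit 40, nat_lit 60397170⟩, ⟨nat_lit 4, nat_lit 90, nat_lit 100, nat_lit 53, nat_lit 129598016⟩]⟩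
noncomputable def p026_l48 : Lf2 := ⟨nat_lit 1, nat_lit 5, [nat_lit 4, nat_lit 5, nat_lit 5, nat_lit 20], false, nat_lit 0, nat_lit 320, nat_lit 0, nat_lit 320, zbN0,
 nat_lit 0, nat_lit 0, nat_lit 0, nat_lit 0, nat_lit 0, nat_lit 0, nat_lit 0, nat_lit 0, nat_lit 0, nat_lit 0, nat_lit 0, nat_lit 0, nat_lit 0, nat_lit 0, nat_lit 0, nat_lit 0, nat_lit 0, nat_lit 0, [],
 C1.Rw.none, C1.Rw.none,
 zbF0, []⟩
noncomputable def p026_l49 : Lf2 := ⟨nat_lit 0, nat_lit 5, [nat_lit 4, nat_lit 5, nat_lit 5, nat_lit 20], false, nat_lit 0, nat_lit 304, nat_lit 0, nat_lit 320, ⟨nat_lit 298, nat_lit 702, nat_lit 0, nat_lit 6, nat_lit 310, nat_lit 702, nat_lit 107, nat_lit 0, nat_lit 0, nat_lit 0, nat_lit 0, nat_lit 0, nat_lit 0, nat_lit 0, nat_lit 0, nat_lit 5000000, true, true⟩,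
 nat_lit 0, nat_lit 0, nat_lit 5960, nat_lit 0, nat_lit 5585, nat_lit 2554, nat_lit 964, nat_lit 0, nat_lit 0, nat_lit 536, nat_lit 0, nat_lit 0, nat_lit 0, nat_lit 10708485713654, nat_lit 0, nat_lit 702000, nat_lit 0, nat_lit 0, [(nat_lit 3, [(nat_lit 2, nat_lit 702)])],
 ⟨p026_k9, nat_lit 0, nat_lit 0, nat_lit 226, nat_lit 0, nat_lit 0, [nat_lit 4173835000, nat_lit 4534658401, nat_lit 4264188800], [], [nat_lit 22700863480, nat_lit 23418899220, nat_lit 32326213361, nat_lit 32798982320, nat_lit 24960789153, nat_lit 25409537733, nat_lit 31085934367, nat_lit 31288386542], nat_lit 0, nat_lit 0, nat_lit 0, nat_lit 0, nat_lit 0, nat_lit 0, [], [nat_lit 25, nat_lit 40, nat_lit 20, nat_lit 80, nat_lit 17, nat_lit 483, nat_lit 250, nat_lit 14]⟩, ⟨p026_k10, nat_lit 0, nat_lit 0, nat_lit 494, nat_lit 0, nat_lit 480035, [nat_lit 1862500000, nat_lit 2374464000, nat_lit 3537856000], [], [nat_lit 10321446968, nat_lit 10447684248,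 nat_lit 12168266152, nat_lit 12257599976, nat_lit 10417937160, nat_lit 9401796488, nat_lit 10541442552, nat_lit 10503918144], nat_lit 1271250, nat_lit 1271250, nat_lit 1271250, nat_lit 1271250, nat_lit 0, nat_lit 2260000, [nat_lit 1412500, nat_lit 1271250, nat_lit 1271250], [nat_lit 53, nat_lit 40, nat_lit 20, nat_lit 80, nat_lit 14, nat_lit 483, nat_lit 250, nat_lit 12]⟩,
 ⟨nat_lit 6324, nat_lit 6709, ⟨.ofNat (nat_lit 586126), .ofNat (nat_lit 930631), .ofNat (nat_lit 628989), .ofNat (nat_lit 973494), .ofNat (nat_lit 582235), .ofNat (nat_lit 911175), .ofNat (nat_lit 624956), .ofNat (nat_lit 953897)⟩, ⟨.negSucc (nat_lit 123724), .ofNat (nat_lit 531043), .negSucc (nat_lit 102285), .ofNat (nat_lit 552474), .negSucc (nat_lit 103634), .ofNat (nat_lit 521560), .negSucc (nat_lit 82265), .ofNat (nat_lit 542921)⟩⟩, [⟨nat_lit 4, nat_lit 93, nat_lit 100, nat_lit 53, nat_lit 121717711⟩, ⟨nat_lit 7, nat_lit 90, nat_lit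 100, nat_lit 53, nat_lit 52513852⟩]⟩
noncomputable def b_VL_500_500_5_2 : St := ⟨true, nat_lit 0, nat_lit 2, nat_lit 2, nat_lit 40, nat_lit 200, nat_lit 240, nat_lit 200, nat_lit 240, nat_lit 0, nat_lit 400, nat_lit 20, nat_lit 40, nat_lit 0, nat_lit 320, nat_lit 0, nat_lit 320, nat_lit 0, nat_lit 20, nat_lit 0, nat_lit 0, nat_lit 0, nat_lit 0⟩
theorem d_VL_500_500_5_2 (h : EB TB.env) : Dead b_VL_500_500_5_2 := chkB_sound0 h (T :=
(.st (nat_lit 1)
(.spl (nat_lit 2) (nat_lit 240)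
(.leaf p026_l45)
(.leaf p026_l46))
(.spl (nat_lit 2) (nat_lit 240)
(.leaf p026_l47)
(.spl (nat_lit 0) (nat_lit 220)
(.ord (.leaf p026_l48))
(.trX (nat_lit 16) (nat_lit 100) (nat_lit 86) (nat_lit 60) (nat_lit 304) (.leaf p026_l49)))))) (by decide +kernel)
noncomputable def p026_l50 : Lf2 := ⟨nat_lit 0, nat_lit 5, [nat_lit 4, nat_lit 5, nat_lit 5, nat_lit 20], true, nat_lit 0, nat_lit 40, nat_lit 0, nat_lit 320, ⟨nat_lit 0, nat_lit 0, nat_lit 1000, nat_lit 5, nat_lit 70, nat_lit 0, nat_lit 0, nat_lit 0, nat_lit 3750, nat_lit 200, nat_lit 46817, nat_lit 268, nat_lit 65000799, nat_lit 0, nat_lit 0, nat_lit 670882, false, false⟩,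
 nat_lit 0, nat_lit 10441, nat_lit 0, nat_lit 0, nat_lit 4993, nat_lit 0, nat_lit 883, nat_lit 0, nat_lit 0, nat_lit 0, nat_lit 0, nat_lit 0, nat_lit 0, nat_lit 22342597457075, nat_lit 115, nat_lit 1000000, nat_lit 0, nat_lit 0, [(nat_lit 3, [(nat_lit 6, nat_lit 1000)])],
 ⟨p026_k9, nat_lit 0, nat_lit 0, nat_lit 339, nat_lit 0, nat_lit 100096, [nat_lit 3341142858, nat_lit 1499600000, nat_lit 23600000], [], [nat_lit 13762632134, nat_lit 14198560214, nat_lit 11725781536, nat_lit 12139058697, nat_lit 12744206835, nat_lit 13168809456, nat_lit 11179794414, nat_lit 11260472062], nat_lit 1271250, nat_lit 1271250, nat_lit 0, nat_lit 490000, nat_lit 0, nat_lit 230001, [nat_lit 1412500, nat_lit 1271250, nat_lit 1271250], [nat_lit 25, nat_lit 40, nat_lit 20, nat_lit 80, nat_lit 17, nat_lit 317, nat_lit 100, nat_lit 10]⟩, C1.Rw.none,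
 ⟨nat_lit 6519, nat_lit 6709, ⟨.ofNat (nat_lit 69221), .ofNat (nat_lit 241532), .ofNat (nat_lit 101379), .ofNat (nat_lit 273690), .ofNat (nat_lit 79059), .ofNat (nat_lit 247435), .ofNat (nat_lit 111156), .ofNat (nat_lit 279532)⟩, ⟨.negSucc (nat_lit 123723), .negSucc (nat_lit 37568), .negSucc (nat_lit 102285), .negSucc (nat_lit 16130), .negSucc (nat_lit 113523), .negSucc (nat_lit 29335), .negSucc (nat_lit 92125), .negSucc (nat_lit 7937)⟩⟩, [⟨nat_lit 0, nat_lit 100, nat_lit 100, nat_lit 30, nat_lit 234584077⟩]⟩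
noncomputable def p026_l51 : Lf2 := ⟨nat_lit 0, nat_lit 2, [nat_lit 10, nat_lit 5, nat_lit 5, nat_lit 20], true, nat_lit 0, nat_lit 40, nat_lit 0, nat_lit 320, ⟨nat_lit 0, nat_lit 0, nat_lit 1000, nat_lit 5, nat_lit 54, nat_lit 0, nat_lit 0, nat_lit 0, nat_lit 3750, nat_lit 200, nat_lit 28017, nat_lit 256, nat_lit 65780238, nat_lit 0, nat_lit 0, nat_lit 454786, false, false⟩,
 nat_lit 0, nat_lit 9683, nat_lit 0, nat_lit 0, nat_lit 4876, nat_lit 0, nat_lit 0, nat_lit 0, nat_lit 0, nat_lit 0, nat_lit 0, nat_lit 0, nat_lit 0, nat_lit 0, nat_lit 53, nat_lit 1000000, nat_lit 0, nat_lit 0, [(nat_lit 3, [(nat_lit 6, nat_lit 1000)])],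
 ⟨p026_k14, nat_lit 0, nat_lit 0, nat_lit 282, nat_lit 0, nat_lit 95812, [nat_lit 2101142858, nat_lit 11600000], [], [nat_lit 14270063448, nat_lit 14882253108, nat_lit 12383803312, nat_lit 12989063284, nat_lit 13097274808, nat_lit 13695788996, nat_lit 11374508352, nat_lit 11964787108], nat_lit 1271250, nat_lit 1271250, nat_lit 0, nat_lit 230001, nat_lit 0, nat_lit 230001, [nat_lit 1412500, nat_lit 1271250], [nat_lit 26, nat_lit 40, nat_lit 20, nat_lit 80, nat_lit 2, nat_lit 317, nat_lit 100, nat_lit 11]⟩, C1.Rw.none,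
 ⟨nat_lit 6324, nat_lit 6520, ⟨.ofNat (nat_lit 79059), .ofNat (nat_lit 163247), .ofNat (nat_lit 100457), .ofNat (nat_lit 184645), .ofNat (nat_lit 88677), .ofNat (nat_lit 170942), .ofNat (nat_lit 110045), .ofNat (nat_lit 192309)⟩, ⟨.negSucc (nat_lit 113523), .negSucc (nat_lit 29335), .negSucc (nat_lit 92125), .negSucc (nat_lit 7937), .negSucc (nat_lit 103633), .negSucc (nat_lit 21368), .negSucc (nat_lit 82265), .negSucc (nat_lit 0)⟩⟩, [⟨nat_lit 0, nat_lit 100, nat_lit 98, nat_lit 30, nat_lit 343958016⟩]⟩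
noncomputable def p026_l52 : Lf2 := ⟨nat_lit 1, nat_lit 5, [nat_lit 4, nat_lit 5, nat_lit 5, nat_lit 20], false, nat_lit 0, nat_lit 40, nat_lit 0, nat_lit 320, zbN0,
 nat_lit 0, nat_lit 0, nat_lit 0, nat_lit 0, nat_lit 0, nat_lit 0, nat_lit 0, nat_lit 0, nat_lit 0, nat_lit 0, nat_lit 0, nat_lit 0, nat_lit 0, nat_lit 0, nat_lit 0, nat_lit 0, nat_lit 0, nat_lit 0, [],
 C1.Rw.none, C1.Rw.none,
 zbF0, []⟩
noncomputable def p026_l53 : Lf2 := ⟨nat_lit 0, nat_lit 5, [nat_lit 4, nat_lit 5, nat_lit 5, nat_lit 20], true, nat_lit 0, nat_lit 40, nat_lit 0, nat_lit 304, ⟨nat_lit 0, nat_lit 0, nat_lit 1000, nat_lit 5, nat_lit 65, nat_lit 0, nat_lit 0, nat_lit 0, nat_lit 3750, nat_lit 200, nat_lit 40017, nat_lit 264, nat_lit 65292447, nat_lit 0, nat_lit 0, nat_lit 593377, false, false⟩,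
 nat_lit 0, nat_lit 5196, nat_lit 0, nat_lit 0, nat_lit 2616, nat_lit 0, nat_lit 0, nat_lit 0, nat_lit 140, nat_lit 0, nat_lit 0, nat_lit 0, nat_lit 0, nat_lit 16215864421189, nat_lit 115, nat_lit 1000000, nat_lit 0, nat_lit 0, [(nat_lit 3, [(nat_lit 6, nat_lit 1000)])],
 ⟨p026_k15, nat_lit 0, nat_lit 0, nat_lit 0, nat_lit 0, nat_lit 196342, [nat_lit 3341142858, nat_lit 23600000], [], [nat_lit 10040307697, nat_lit 10609425671, nat_lit 9409988852, nat_lit 9887339604, nat_lit 9748123365, nat_lit 10220965627, nat_lit 9200360992, nat_lit 9666891188], nat_lit 1271250, nat_lit 1271250, nat_lit 21650, nat_lit 230001, nat_lit 0, nat_lit 230001, [nat_lit 1412500, nat_lit 1271250], [nat_lit 51, nat_lit 40, nat_lit 20, nat_lit 80]⟩, C1.Rw.none,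
 ⟨nat_lit 6324, nat_lit 6520, ⟨.ofNat (nat_lit 108876), .ofNat (nat_lit 184645), .ofNat (nat_lit 130274), .ofNat (nat_lit 206043), .ofNat (nat_lit 118272), .ofNat (nat_lit 192309), .ofNat (nat_lit 139640), .ofNat (nat_lit 213677)⟩, ⟨.negSucc (nat_lit 113523), .negSucc (nat_lit 29335), .negSucc (nat_lit 92125), .negSucc (nat_lit 7937), .negSucc (nat_lit 103633), .negSucc (nat_lit 21368), .negSucc (nat_lit 82265), .negSucc (nat_lit 0)⟩⟩, [⟨nat_lit 0, nat_lit 100, nat_lit 100, nat_lit 40, nat_lit 184350884⟩]⟩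
noncomputable def p026_l54 : Lf2 := ⟨nat_lit 0, nat_lit 3, [nat_lit 45, nat_lit 5, nat_lit 5, nat_lit 20], true, nat_lit 0, nat_lit 40, nat_lit 0, nat_lit 304, ⟨nat_lit 0, nat_lit 0, nat_lit 1000, nat_lit 5, nat_lit 62, nat_lit 0, nat_lit 0, nat_lit 0, nat_lit 3750, nat_lit 200, nat_lit 35267, nat_lit 261, nat_lit 65442883, nat_lit 0, nat_lit 0, nat_lit 551940, false, false⟩,
 nat_lit 0, nat_lit 11699, nat_lit 0, nat_lit 0, nat_lit 5892, nat_lit 0, nat_lit 634, nat_lit 0, nat_lit 0, nat_lit 0, nat_lit 0, nat_lit 0, nat_lit 0, nat_lit 0, nat_lit 53, nat_lit 1000000, nat_lit 0, nat_lit 0, [(nat_lit 3, [(nat_lit 6, nat_lit 1000)])],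
 ⟨p026_k16, nat_lit 0, nat_lit 0, nat_lit 0, nat_lit 0, nat_lit 116106, [nat_lit 2101142858, nat_lit 11600000], [], [nat_lit 13297128386, nat_lit 13632122328, nat_lit 11203181848, nat_lit 11534563110, nat_lit 11757313852, nat_lit 12084562247, nat_lit 9834390528, nat_lit 10157345954], nat_lit 1271250, nat_lit 1271250, nat_lit 21650, nat_lit 230001, nat_lit 0, nat_lit 230001, [nat_lit 1412500, nat_lit 1271250], [nat_lit 26, nat_lit 40, nat_lit 20, nat_lit 80]⟩, C1.Rw.none,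
 ⟨nat_lit 6422, nat_lit 6520, ⟨.ofNat (nat_lit 108876), .ofNat (nat_lit 184645), .ofNat (nat_lit 119575), .ofNat (nat_lit 195344), .ofNat (nat_lit 113598), .ofNat (nat_lit 188497), .ofNat (nat_lit 124289), .ofNat (nat_lit 199188)⟩, ⟨.negSucc (nat_lit 113523), .negSucc (nat_lit 29335), .negSucc (nat_lit 92125), .negSucc (nat_lit 7937), .negSucc (nat_lit 108540), .negSucc (nat_lit 25319), .negSucc (nat_lit 87158), .negSucc (nat_lit 3938)⟩⟩, [⟨nat_lit 0, nat_lit 100, nat_lit 100, nat_lit 32, nat_lit 398802690⟩]⟩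
noncomputable def p026_l55 : Lf2 := ⟨nat_lit 0, nat_lit 3, [nat_lit 45, nat_lit 5, nat_lit 5, nat_lit 20], true, nat_lit 0, nat_lit 20, nat_lit 0, nat_lit 304, ⟨nat_lit 0, nat_lit 0, nat_lit 1000, nat_lit 5, nat_lit 62, nat_lit 0, nat_lit 0, nat_lit 0, nat_lit 3750, nat_lit 200, nat_lit 36817, nat_lit 262, nat_lit 65411394, nat_lit 0, nat_lit 0, nat_lit 560702, false, false⟩,
 nat_lit 0, nat_lit 11239, nat_lit 0, nat_lit 0, nat_lit 5804, nat_lit 0, nat_lit 1403, nat_lit 0, nat_lit 0, nat_lit 0, nat_lit 0, nat_lit 0, nat_lit 0, nat_lit 0, nat_lit 53, nat_lit 1000000, nat_lit 0, nat_lit 0, [(nat_lit 3, [(nat_lit 6, nat_lit 1000)])],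
 ⟨p026_k17, nat_lit 0, nat_lit 0, nat_lit 0, nat_lit 0, nat_lit 115741, [nat_lit 2101142858, nat_lit 11600000], [], [nat_lit 13692553486, nat_lit 14025036040, nat_lit 11634331394, nat_lit 11963222388, nat_lit 12935566175, nat_lit 13264211747, nat_lit 10961332058, nat_lit 11286050636], nat_lit 1271250, nat_lit 1271250, nat_lit 21650, nat_lit 230001, nat_lit 0, nat_lit 111251, [nat_lit 1412500, nat_lit 1271250], [nat_lit 26, nat_lit 40, nat_lit 20, nat_lit 80]⟩, C1.Rw.none,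
 ⟨nat_lit 6324, nat_lit 6423, ⟨.ofNat (nat_lit 113598), .ofNat (nat_lit 188497), .ofNat (nat_lit 118944), .ofNat (nat_lit 193842), .ofNat (nat_lit 118272), .ofNat (nat_lit 192309), .ofNat (nat_lit 123614), .ofNat (nat_lit 197651)⟩, ⟨.negSucc (nat_lit 108540), .negSucc (nat_lit 66930), .negSucc (nat_lit 87158), .negSucc (nat_lit 45548), .negSucc (nat_lit 103633), .negSucc (nat_lit 62500), .negSucc (nat_lit 82265), .negSucc (nat_lit 41133)⟩⟩, [⟨nat_lit 0, nat_lit 100, nat_lit 99, nat_lit 32, nat_lit 395687843⟩]⟩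
noncomputable def p026_l56 : Lf2 := ⟨nat_lit 0, nat_lit 3, [nat_lit 45, nat_lit 5, nat_lit 5, nat_lit 20], true, nat_lit 0, nat_lit 20, nat_lit 0, nat_lit 300, ⟨nat_lit 0, nat_lit 0, nat_lit 1000, nat_lit 5, nat_lit 66, nat_lit 0, nat_lit 0, nat_lit 0, nat_lit 3750, nat_lit 200, nat_lit 40017, nat_lit 264, nat_lit 65235019, nat_lit 0, nat_lit 0, nat_lit 608922, false, false⟩,
 nat_lit 0, nat_lit 11486, nat_lit 0, nat_lit 0, nat_lit 5932, nat_lit 0, nat_lit 533, nat_lit 0, nat_lit 0, nat_lit 0, nat_lit 0, nat_lit 0, nat_lit 0, nat_lit 0, nat_lit 53, nat_lit 1000000, nat_lit 0, nat_lit 0, [(nat_lit 3, [(nat_lit 6, nat_lit 1000)])],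
 ⟨p026_k17, nat_lit 0, nat_lit 0, nat_lit 0, nat_lit 0, nat_lit 127729, [nat_lit 2101142858, nat_lit 11600000], [], [nat_lit 13294337490, nat_lit 13495974482, nat_lit 11489213890, nat_lit 11688721812, nat_lit 12524770006, nat_lit 12724044433, nat_lit 10793510202, nat_lit 10990479327], nat_lit 1271250, nat_lit 1271250, nat_lit 43600, nat_lit 230001, nat_lit 0, nat_lit 111251, [nat_lit 1412500, nat_lit 1271250], [nat_lit 26, nat_lit 40, nat_lit 20, nat_lit 80]⟩, C1.Rw.none,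
 ⟨nat_lit 6363, nat_lit 6423, ⟨.ofNat (nat_lit 127266), .ofNat (nat_lit 193842), .ofNat (nat_lit 132611), .ofNat (nat_lit 199188), .ofNat (nat_lit 130016), .ofNat (nat_lit 196132), .ofNat (nat_lit 135359), .ofNat (nat_lit 201476)⟩, ⟨.negSucc (nat_lit 108540), .negSucc (nat_lit 66930), .negSucc (nat_lit 87158), .negSucc (nat_lit 45548), .negSucc (nat_lit 105587), .negSucc (nat_lit 64264), .negSucc (nat_lit 84214), .negSucc (nat_lit 42891)⟩⟩, [⟨nat_lit 0, nat_lit 100, nat_lit 99, nat_lit 34, nat_lit 394388860⟩]⟩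
noncomputable def p026_l57 : Lf2 := ⟨nat_lit 0, nat_lit 3, [nat_lit 45, nat_lit 5, nat_lit 5, nat_lit 20], true, nat_lit 0, nat_lit 20, nat_lit 0, nat_lit 300, ⟨nat_lit 0, nat_lit 0, nat_lit 1000, nat_lit 5, nat_lit 67, nat_lit 0, nat_lit 0, nat_lit 0, nat_lit 3750, nat_lit 200, nat_lit 41667, nat_lit 265, nat_lit 65190997, nat_lit 0, nat_lit 0, nat_lit 620740, false, false⟩,
 nat_lit 0, nat_lit 13011, nat_lit 0, nat_lit 0, nat_lit 6820, nat_lit 0, nat_lit 635, nat_lit 0, nat_lit 0, nat_lit 0, nat_lit 0, nat_lit 0, nat_lit 0, nat_lit 0, nat_lit 53, nat_lit 1000000, nat_lit 0, nat_lit 0, [(nat_lit 3, [(nat_lit 6, nat_lit 1000)])],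
 ⟨p026_k18, nat_lit 0, nat_lit 0, nat_lit 0, nat_lit 0, nat_lit 135471, [nat_lit 2101142858, nat_lit 11600000], [], [nat_lit 13732238802, nat_lit 13895538230, nat_lit 13745152982, nat_lit 13400358334, nat_lit 13494641108, nat_lit 13148268994, nat_lit 13848416671, nat_lit 13506067334], nat_lit 1271250, nat_lit 1271250, nat_lit 43600, nat_lit 230001, nat_lit 0, nat_lit 111251, [nat_lit 1412500, nat_lit 1271250], [nat_lit 26, nat_lit 40, nat_lit 20, nat_lit 80]⟩, C1.Rw.none,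
 ⟨nat_lit 6324, nat_lit 6364, ⟨.ofNat (nat_lit 130016), .ofNat (nat_lit 196132), .ofNat (nat_lit 135359), .ofNat (nat_lit 201476), .ofNat (nat_lit 131840), .ofNat (nat_lit 197651), .ofNat (nat_lit 137182), .ofNat (nat_lit 202993)⟩, ⟨.negSucc (nat_lit 105587), .negSucc (nat_lit 64264), .negSucc (nat_lit 84214), .negSucc (nat_lit 42891), .negSucc (nat_lit 103633), .negSucc (nat_lit 62500), .negSucc (nat_lit 82265), .negSucc (nat_lit 41133)⟩⟩, [⟨nat_lit 0, nat_lit 100, nat_lit 99, nat_lit 35, nat_lit 54116044⟩]⟩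
noncomputable def p026_l58 : Lf2 := ⟨nat_lit 0, nat_lit 3, [nat_lit 45, nat_lit 5, nat_lit 5, nat_lit 20], true, nat_lit 20, nat_lit 40, nat_lit 0, nat_lit 304, ⟨nat_lit 0, nat_lit 0, nat_lit 1000, nat_lit 5, nat_lit 63, nat_lit 0, nat_lit 0, nat_lit 0, nat_lit 1667, nat_lit 205, nat_lit 38400, nat_lit 263, nat_lit 65357801, nat_lit 0, nat_lit 0, nat_lit 575506, false, false⟩,
 nat_lit 0, nat_lit 11774, nat_lit 0, nat_lit 0, nat_lit 6081, nat_lit 0, nat_lit 532, nat_lit 0, nat_lit 0, nat_lit 0, nat_lit 0, nat_lit 0, nat_lit 0, nat_lit 0, nat_lit 53, nat_lit 1000000, nat_lit 0, nat_lit 0, [(nat_lit 3, [(nat_lit 6, nat_lit 1000)])],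
 ⟨p026_k17, nat_lit 0, nat_lit 0, nat_lit 0, nat_lit 0, nat_lit 137799, [nat_lit 2101142858, nat_lit 11600000], [], [nat_lit 12692486438, nat_lit 13028924512, nat_lit 10598155073, nat_lit 10930584846, nat_lit 11882640194, nat_lit 12215128623, nat_lit 9876022100, nat_lit 10204151968], nat_lit 1271250, nat_lit 1271250, nat_lit 21650, nat_lit 230001, nat_lit 111251, nat_lit 230001, [nat_lit 1412500, nat_lit 1271250], [nat_lit 26, nat_lit 40, nat_lit 20, nat_lit 80]⟩, C1.Rw.none,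
 ⟨nat_lit 6324, nat_lit 6423, ⟨.ofNat (nat_lit 113598), .ofNat (nat_lit 188497), .ofNat (nat_lit 124289), .ofNat (nat_lit 199188), .ofNat (nat_lit 118272), .ofNat (nat_lit 192309), .ofNat (nat_lit 128956), .ofNat (nat_lit 202993)⟩, ⟨.negSucc (nat_lit 66930), .negSucc (nat_lit 25319), .negSucc (nat_lit 45548), .negSucc (nat_lit 3938), .negSucc (nat_lit 62500), .negSucc (nat_lit 21368), .negSucc (nat_lit 41133), .negSucc (nat_lit 0)⟩⟩, [⟨nat_lit 0, nat_lit 100, nat_lit 99, nat_lit 35, nat_lit 401583142⟩]⟩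
noncomputable def p026_l59 : Lf2 := ⟨nat_lit 1, nat_lit 5, [nat_lit 4, nat_lit 5, nat_lit 5, nat_lit 20], false, nat_lit 0, nat_lit 40, nat_lit 0, nat_lit 304, zbN0,
 nat_lit 0, nat_lit 0, nat_lit 0, nat_lit 0, nat_lit 0, nat_lit 0, nat_lit 0, nat_lit 0, nat_lit 0, nat_lit 0, nat_lit 0, nat_lit 0, nat_lit 0, nat_lit 0, nat_lit 0, nat_lit 0, nat_lit 0, nat_lit 0, [],
 C1.Rw.none, C1.Rw.none,
 zbF0, []⟩
noncomputable def p026_l60 : Lf2 := ⟨nat_lit 0, nat_lit 5, [nat_lit 4, nat_lit 5, nat_lit 5, nat_lit 20], false, nat_lit 0, nat_lit 40, nat_lit 0, nat_lit 160, ⟨nat_lit 1000, nat_lit 0, nat_lit 0, nat_lit 0, nat_lit 0, nat_lit 0, nat_lit 0, nat_lit 0, nat_lit 0, nat_lit 0, nat_lit 0, nat_lit 0, nat_lit 0, nat_lit 0, nat_lit 0, nat_lit 0, false, false⟩,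
 nat_lit 0, nat_lit 27907, nat_lit 0, nat_lit 32950, nat_lit 14055, nat_lit 9497, nat_lit 6526, nat_lit 0, nat_lit 0, nat_lit 4544, nat_lit 0, nat_lit 0, nat_lit 0, nat_lit 66431825656386, nat_lit 0, nat_lit 0, nat_lit 0, nat_lit 0, [],
 ⟨p026_k15, nat_lit 0, nat_lit 0, nat_lit 0, nat_lit 0, nat_lit 144843, [nat_lit 6250000000, nat_lit 9842000000], [], [nat_lit 21343208449, nat_lit 20240468765, nat_lit 21167060250, nat_lit 19390634745, nat_lit 21073757476, nat_lit 19302105049, nat_lit 21059791328, nat_lit 19308562924], nat_lit 1271250, nat_lit 1271250, nat_lit 43600, nat_lit 230001, nat_lit 0, nat_lit 230001, [nat_lit 1412500, nat_lit 1271250], [nat_lit 51, nat_lit 40, nat_lit 20, nat_lit 80]⟩, ⟨p026_k15, nat_lit 0, nat_lit 0, nat_lit 0, nat_lit 0, nat_lit 0, [nat_lit 6250000000, nat_lit 9842000000], [], [nat_lit 20625831831, nat_lit 21048214152, nat_lit 17431781587, nat_lit 17865178942, nat_lit 15442738452,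 nat_lit 15803966463, nat_lit 12821966238, nat_lit 13177291345], nat_lit 0, nat_lit 0, nat_lit 0, nat_lit 0, nat_lit 0, nat_lit 0, [], [nat_lit 51, nat_lit 40, nat_lit 20, nat_lit 80]⟩,
 zbF0, [⟨nat_lit 0, nat_lit 100, nat_lit 100, nat_lit 35, nat_lit 1306300389⟩]⟩
noncomputable def p026_l61 : Lf2 := ⟨nat_lit 0, nat_lit 5, [nat_lit 4, nat_lit 5, nat_lit 5, nat_lit 20], false, nat_lit 0, nat_lit 40, nat_lit 0, nat_lit 160, ⟨nat_lit 1000, nat_lit 0, nat_lit 0, nat_lit 0, nat_lit 0, nat_lit 0, nat_lit 0, nat_lit 0, nat_lit 0, nat_lit 0, nat_lit 0, nat_lit 0, nat_lit 0, nat_lit 0, nat_lit 0, nat_lit 0, false, false⟩,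
 nat_lit 0, nat_lit 24588, nat_lit 0, nat_lit 26401, nat_lit 12699, nat_lit 9181, nat_lit 5202, nat_lit 0, nat_lit 0, nat_lit 4326, nat_lit 0, nat_lit 0, nat_lit 0, nat_lit 46493905305405, nat_lit 0, nat_lit 0, nat_lit 0, nat_lit 0, [],
 ⟨p026_k19, nat_lit 0, nat_lit 0, nat_lit 0, nat_lit 0, nat_lit 190672, [nat_lit 6250000000, nat_lit 9842000000], [], [nat_lit 21426466646, nat_lit 20632327411, nat_lit 21358246341, nat_lit 19753207032, nat_lit 21295083609, nat_lit 19694356880, nat_lit 21372852913, nat_lit 19790579736], nat_lit 1271250, nat_lit 1271250, nat_lit 43600, nat_lit 230001, nat_lit 0, nat_lit 230001, [nat_lit 1412500, nat_lit 1271250], [nat_lit 51, nat_lit 40, nat_lit 20, nat_lit 80]⟩, ⟨p026_k15, nat_lit 0, nat_lit 0, nat_lit 0, nat_lit 0, nat_lit 0, [nat_lit 6250000000, nat_lit 9842000000], [], [nat_lit 21065310013, nat_lit 21712893378, nat_lit 17923585298, nat_lit 18647892808, nat_lit 15971928042,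 nat_lit 16680450675, nat_lit 13454833974, nat_lit 14151813396], nat_lit 0, nat_lit 0, nat_lit 0, nat_lit 0, nat_lit 0, nat_lit 0, [], [nat_lit 51, nat_lit 40, nat_lit 20, nat_lit 80]⟩,
 zbF0, [⟨nat_lit 0, nat_lit 100, nat_lit 100, nat_lit 40, nat_lit 1227892930⟩]⟩
noncomputable def p026_l62 : Lf2 := ⟨nat_lit 0, nat_lit 2, [nat_lit 10, nat_lit 5, nat_lit 5, nat_lit 20], false, nat_lit 0, nat_lit 40, nat_lit 160, nat_lit 240, ⟨nat_lit 1000, nat_lit 0, nat_lit 0, nat_lit 0, nat_lit 0, nat_lit 0, nat_lit 0, nat_lit 0, nat_lit 0, nat_lit 0, nat_lit 0, nat_lit 0, nat_lit 0, nat_lit 0, nat_lit 0, nat_lit 0, false, false⟩,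
 nat_lit 0, nat_lit 27054, nat_lit 0, nat_lit 0, nat_lit 13625, nat_lit 10476, nat_lit 6001, nat_lit 0, nat_lit 0, nat_lit 0, nat_lit 0, nat_lit 0, nat_lit 0, nat_lit 27769335331587, nat_lit 0, nat_lit 0, nat_lit 0, nat_lit 0, [],
 ⟨p026_k14, nat_lit 0, nat_lit 0, nat_lit 0, nat_lit 0, nat_lit 187172, [nat_lit 6250000000, nat_lit 7968000000], [], [nat_lit 21884607775, nat_lit 20871935600, nat_lit 21736659750, nat_lit 18292505000, nat_lit 21651547100, nat_lit 18216646450, nat_lit 21660819313, nat_lit 18265517000], nat_lit 1271250, nat_lit 1271250, nat_lit 43600, nat_lit 230001, nat_lit 0, nat_lit 230001, [nat_lit 1412500, nat_lit 1271250], [nat_lit 26, nat_lit 40, nat_lit 20, nat_lit 80]⟩, ⟨p026_k14, nat_lit 0, nat_lit 0, nat_lit 0, nat_lit 0, nat_lit 0, [nat_lit 6250000000, nat_lit 7968000000], [], [nat_lit 11221646277, nat_lit 12253272317, nat_lit 7654442064, nat_lit 8675368384, nat_lit 16985825449, nat_lit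 18045535585, nat_lit 13398419512, nat_lit 14209106560], nat_lit 0, nat_lit 0, nat_lit 0, nat_lit 0, nat_lit 0, nat_lit 0, [], [nat_lit 26, nat_lit 40, nat_lit 20, nat_lit 80]⟩,
 zbF0, [⟨nat_lit 0, nat_lit 100, nat_lit 100, nat_lit 35, nat_lit 1399198800⟩]⟩
noncomputable def p026_l63 : Lf2 := ⟨nat_lit 0, nat_lit 2, [nat_lit 10, nat_lit 5, nat_lit 5, nat_lit 20], false, nat_lit 0, nat_lit 40, nat_lit 240, nat_lit 296, ⟨nat_lit 1000, nat_lit 0, nat_lit 0, nat_lit 0, nat_lit 0, nat_lit 0, nat_lit 0, nat_lit 0, nat_lit 0, nat_lit 0, nat_lit 0, nat_lit 0, nat_lit 0, nat_lit 0, nat_lit 0, nat_lit 0, false, false⟩,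
 nat_lit 0, nat_lit 29705, nat_lit 0, nat_lit 0, nat_lit 14960, nat_lit 9542, nat_lit 6063, nat_lit 0, nat_lit 0, nat_lit 0, nat_lit 0, nat_lit 0, nat_lit 0, nat_lit 0, nat_lit 0, nat_lit 0, nat_lit 0, nat_lit 0, [],
 ⟨p026_k14, nat_lit 0, nat_lit 0, nat_lit 0, nat_lit 0, nat_lit 138079, [nat_lit 6250000000, nat_lit 7968000000], [], [nat_lit 20203751728, nat_lit 20438926900, nat_lit 19968252000, nat_lit 18077442640, nat_lit 19857711872, nat_lit 17971982928, nat_lit 19794837080, nat_lit 17930847260], nat_lit 1271250, nat_lit 1271250, nat_lit 43600, nat_lit 230001, nat_lit 0, nat_lit 230001, [nat_lit 1412500, nat_lit 1271250], [nat_lit 26, nat_lit 40, nat_lit 20, nat_lit 80]⟩, ⟨p026_k14, nat_lit 0, nat_lit 0, nat_lit 0, nat_lit 0, nat_lit 0, [nat_lit 6250000000, nat_lit 7968000000], [], [nat_lit 17523811317, nat_lit 17910542455, nat_lit 14298504104, nat_lit 14681782812, nat_lit 24298780126, nat_lit 24688752050,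 nat_lit 20143946913, nat_lit 20471734085], nat_lit 0, nat_lit 0, nat_lit 0, nat_lit 0, nat_lit 0, nat_lit 0, [], [nat_lit 26, nat_lit 40, nat_lit 20, nat_lit 80]⟩,
 zbF0, [⟨nat_lit 0, nat_lit 100, nat_lit 100, nat_lit 33, nat_lit 1340549420⟩, ⟨nat_lit 7, nat_lit 94, nat_lit 100, nat_lit 53, nat_lit 1590739424⟩]⟩
noncomputable def p026_l64 : Lf2 := ⟨nat_lit 0, nat_lit 2, [nat_lit 10, nat_lit 5, nat_lit 5, nat_lit 20], false, nat_lit 0, nat_lit 40, nat_lit 240, nat_lit 296, ⟨nat_lit 1000, nat_lit 0, nat_lit 0, nat_lit 0, nat_lit 0, nat_lit 0, nat_lit 0, nat_lit 0, nat_lit 0, nat_lit 0, nat_lit 0, nat_lit 0, nat_lit 0, nat_lit 0, nat_lit 0, nat_lit 0, false, false⟩,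
 nat_lit 0, nat_lit 26117, nat_lit 0, nat_lit 0, nat_lit 13489, nat_lit 10407, nat_lit 4831, nat_lit 0, nat_lit 0, nat_lit 0, nat_lit 0, nat_lit 0, nat_lit 0, nat_lit 0, nat_lit 0, nat_lit 0, nat_lit 0, nat_lit 0, [],
 ⟨p026_k20, nat_lit 0, nat_lit 0, nat_lit 0, nat_lit 0, nat_lit 181888, [nat_lit 6250000000, nat_lit 7968000000], [], [nat_lit 20330771959, nat_lit 20836733176, nat_lit 20211923951, nat_lit 18507035752, nat_lit 20133982531, nat_lit 18433675196, nat_lit 20170206091, nat_lit 18489500296], nat_lit 1271250, nat_lit 1271250, nat_lit 43600, nat_lit 230001, nat_lit 0, nat_lit 230001, [nat_lit 1412500, nat_lit 1271250], [nat_lit 26, nat_lit 40, nat_lit 20, nat_lit 80]⟩, ⟨p026_k14, nat_lit 0, nat_lit 0, nat_lit 0, nat_lit 0, nat_lit 0, [nat_lit 6250000000, nat_lit 7968000000], [], [nat_lit 17025569587, nat_lit 18009201288, nat_lit 13464913984, nat_lit 14272340920, nat_lit 25199217239, nat_lit 26019517212,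 nat_lit 20558738597, nat_lit 21384436196], nat_lit 0, nat_lit 0, nat_lit 0, nat_lit 0, nat_lit 0, nat_lit 0, [], [nat_lit 26, nat_lit 40, nat_lit 20, nat_lit 80]⟩,
 zbF0, [⟨nat_lit 0, nat_lit 100, nat_lit 100, nat_lit 32, nat_lit 1368985618⟩, ⟨nat_lit 7, nat_lit 94, nat_lit 100, nat_lit 54, nat_lit 1792501835⟩]⟩
noncomputable def p026_l65 : Lf2 := ⟨nat_lit 0, nat_lit 5, [nat_lit 4, nat_lit 5, nat_lit 5, nat_lit 20], true, nat_lit 0, nat_lit 20, nat_lit 160, nat_lit 296, ⟨nat_lit 0, nat_lit 0, nat_lit 1000, nat_lit 5, nat_lit 67, nat_lit 0, nat_lit 0, nat_lit 0, nat_lit 3750, nat_lit 200, nat_lit 41667, nat_lit 265, nat_lit 65193604, nat_lit 0, nat_lit 0, nat_lit 620043, false, false⟩,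
 nat_lit 0, nat_lit 10602, nat_lit 0, nat_lit 0, nat_lit 5339, nat_lit 0, nat_lit 652, nat_lit 0, nat_lit 0, nat_lit 0, nat_lit 0, nat_lit 0, nat_lit 0, nat_lit 23026115154462, nat_lit 115, nat_lit 1000000, nat_lit 0, nat_lit 0, [(nat_lit 3, [(nat_lit 6, nat_lit 1000)])],
 ⟨p026_k15, nat_lit 0, nat_lit 0, nat_lit 0, nat_lit 0, nat_lit 43707, [nat_lit 3341142858, nat_lit 23600000], [], [nat_lit 13422594720, nat_lit 13737492260, nat_lit 11845783885, nat_lit 12161516077, nat_lit 12764565642, nat_lit 13079999524, nat_lit 11259223603, nat_lit 11570997395], nat_lit 1271250, nat_lit 1271250, nat_lit 43600, nat_lit 230001, nat_lit 0, nat_lit 111251, [nat_lit 1412500, nat_lit 1271250], [nat_lit 51, nat_lit 40, nat_lit 20, nat_lit 80]⟩, C1.Rw.none,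
 ⟨nat_lit 6422, nat_lit 6520, ⟨.ofNat (nat_lit 127994), .ofNat (nat_lit 195344), .ofNat (nat_lit 133343), .ofNat (nat_lit 200693), .ofNat (nat_lit 132611), .ofNat (nat_lit 199188), .ofNat (nat_lit 137956), .ofNat (nat_lit 204533)⟩, ⟨.negSucc (nat_lit 113523), .negSucc (nat_lit 71429), .negSucc (nat_lit 92125), .negSucc (nat_lit 50031), .negSucc (nat_lit 108540), .negSucc (nat_lit 66930), .negSucc (nat_lit 87158), .negSucc (nat_lit 45548)⟩⟩, [⟨nat_lit 0, nat_lit 100, nat_lit 100, nat_lit 35, nat_lit 356715902⟩]⟩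
noncomputable def p026_l66 : Lf2 := ⟨nat_lit 0, nat_lit 5, [nat_lit 4, nat_lit 5, nat_lit 5, nat_lit 20], true, nat_lit 0, nat_lit 20, nat_lit 160, nat_lit 296, ⟨nat_lit 0, nat_lit 0, nat_lit 1000, nat_lit 5, nat_lit 59, nat_lit 0, nat_lit 0, nat_lit 0, nat_lit 3750, nat_lit 200, nat_lit 32267, nat_lit 259, nat_lit 65591231, nat_lit 0, nat_lit 0, nat_lit 509987, false, false⟩,
 nat_lit 0, nat_lit 14858, nat_lit 0, nat_lit 0, nat_lit 7673, nat_lit 0, nat_lit 1295, nat_lit 0, nat_lit 0, nat_lit 0, nat_lit 0, nat_lit 0, nat_lit 0, nat_lit 28143569267595, nat_lit 115, nat_lit 1000000, nat_lit 0, nat_lit 0, [(nat_lit 3, [(nat_lit 6, nat_lit 1000)])],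
 ⟨p026_k19, nat_lit 0, nat_lit 0, nat_lit 0, nat_lit 0, nat_lit 72594, [nat_lit 3341142858, nat_lit 23600000], [], [nat_lit 13685656360, nat_lit 13920186347, nat_lit 12764922716, nat_lit 12853778096, nat_lit 12783021943, nat_lit 12479628925, nat_lit 12788336417, nat_lit 12205507997], nat_lit 1271250, nat_lit 1271250, nat_lit 43600, nat_lit 88400, nat_lit 0, nat_lit 111251, [nat_lit 1412500, nat_lit 1271250], [nat_lit 51, nat_lit 40, nat_lit 20, nat_lit 80]⟩, C1.Rw.none,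
 ⟨nat_lit 6363, nat_lit 6423, ⟨.ofNat (nat_lit 132611), .ofNat (nat_lit 149255), .ofNat (nat_lit 141164), .ofNat (nat_lit 157808), .ofNat (nat_lit 135359), .ofNat (nat_lit 151888), .ofNat (nat_lit 143908), .ofNat (nat_lit 160437)⟩, ⟨.negSucc (nat_lit 108540), .negSucc (nat_lit 66930), .negSucc (nat_lit 87158), .negSucc (nat_lit 45548), .negSucc (nat_lit 105587), .negSucc (nat_lit 64264), .negSucc (nat_lit 84214), .negSucc (nat_lit 42891)⟩⟩, [⟨nat_lit 0, nat_lit 100, nat_lit 100, nat_lit 38, nat_lit 774243851⟩]⟩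
noncomputable def p026_l67 : Lf2 := ⟨nat_lit 0, nat_lit 5, [nat_lit 4, nat_lit 5, nat_lit 5, nat_lit 20], true, nat_lit 0, nat_lit 20, nat_lit 160, nat_lit 296, ⟨nat_lit 0, nat_lit 0, nat_lit 1000, nat_lit 5, nat_lit 60, nat_lit 0, nat_lit 0, nat_lit 0, nat_lit 3750, nat_lit 200, nat_lit 33750, nat_lit 260, nat_lit 65547155, nat_lit 0, nat_lit 0, nat_lit 522572, false, false⟩,
 nat_lit 0, nat_lit 14149, nat_lit 0, nat_lit 0, nat_lit 7417, nat_lit 0, nat_lit 1135, nat_lit 0, nat_lit 0, nat_lit 0, nat_lit 0, nat_lit 0, nat_lit 0, nat_lit 28435283555296, nat_lit 115, nat_lit 1000000, nat_lit 0, nat_lit 0, [(nat_lit 3, [(nat_lit 6, nat_lit 1000)])],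
 ⟨p026_k21, nat_lit 0, nat_lit 0, nat_lit 0, nat_lit 0, nat_lit 81232, [nat_lit 3341142858, nat_lit 23600000], [], [nat_lit 13870533757, nat_lit 13954150045, nat_lit 12851045033, nat_lit 12926421924, nat_lit 12587480922, nat_lit 12572728666, nat_lit 12600252343, nat_lit 12412457982], nat_lit 1271250, nat_lit 1271250, nat_lit 43600, nat_lit 88400, nat_lit 0, nat_lit 111251, [nat_lit 1412500, nat_lit 1271250], [nat_lit 51, nat_lit 40, nat_lit 20, nat_lit 80]⟩, C1.Rw.none,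
 ⟨nat_lit 6344, nat_lit 6364, ⟨.ofNat (nat_lit 135359), .ofNat (nat_lit 151888), .ofNat (nat_lit 144977), .ofNat (nat_lit 161506), .ofNat (nat_lit 136271), .ofNat (nat_lit 152762), .ofNat (nat_lit 145888), .ofNat (nat_lit 162379)⟩, ⟨.negSucc (nat_lit 105587), .negSucc (nat_lit 64264), .negSucc (nat_lit 84214), .negSucc (nat_lit 42891), .negSucc (nat_lit 104608), .negSucc (nat_lit 63381), .negSucc (nat_lit 83238), .negSucc (nat_lit 42010)⟩⟩, [⟨nat_lit 0, nat_lit 100, nat_lit 100, nat_lit 39, nat_lit 750305250⟩]⟩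
noncomputable def p026_l68 : Lf2 := ⟨nat_lit 0, nat_lit 5, [nat_lit 4, nat_lit 5, nat_lit 5, nat_lit 20], true, nat_lit 0, nat_lit 20, nat_lit 160, nat_lit 296, ⟨nat_lit 0, nat_lit 0, nat_lit 1000, nat_lit 5, nat_lit 60, nat_lit 0, nat_lit 0, nat_lit 0, nat_lit 3750, nat_lit 200, nat_lit 33750, nat_lit 260, nat_lit 65519803, nat_lit 0, nat_lit 0, nat_lit 530329, false, false⟩,
 nat_lit 0, nat_lit 13768, nat_lit 0, nat_lit 0, nat_lit 7253, nat_lit 0, nat_lit 1065, nat_lit 0, nat_lit 0, nat_lit 0, nat_lit 0, nat_lit 0, nat_lit 0, nat_lit 27552371018908, nat_lit 115, nat_lit 1000000, nat_lit 0, nat_lit 0, [(nat_lit 3, [(nat_lit 6, nat_lit 1000)])],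
 ⟨p026_k22, nat_lit 0, nat_lit 0, nat_lit 0, nat_lit 0, nat_lit 90537, [nat_lit 3341142858, nat_lit 23600000], [], [nat_lit 13927889948, nat_lit 14007969300, nat_lit 12932967610, nat_lit 13005804231, nat_lit 12652502462, nat_lit 12664210662, nat_lit 12669493468, nat_lit 12485851497], nat_lit 1271250, nat_lit 1271250, nat_lit 43600, nat_lit 88400, nat_lit 0, nat_lit 111251, [nat_lit 1412500, nat_lit 1271250], [nat_lit 51, nat_lit 40, nat_lit 20, nat_lit 80]⟩, C1.Rw.none,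
 ⟨nat_lit 6324, nat_lit 6345, ⟨.ofNat (nat_lit 136271), .ofNat (nat_lit 152762), .ofNat (nat_lit 146957), .ofNat (nat_lit 163448), .ofNat (nat_lit 137182), .ofNat (nat_lit 153635), .ofNat (nat_lit 147866), .ofNat (nat_lit 164319)⟩, ⟨.negSucc (nat_lit 104608), .negSucc (nat_lit 63381), .negSucc (nat_lit 83238), .negSucc (nat_lit 42010), .negSucc (nat_lit 103633), .negSucc (nat_lit 62500), .negSucc (nat_lit 82265), .negSucc (nat_lit 41133)⟩⟩, [⟨nat_lit 0, nat_lit 100, nat_lit 100, nat_lit 40, nat_lit 734271071⟩]⟩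
noncomputable def p026_l69 : Lf2 := ⟨nat_lit 0, nat_lit 5, [nat_lit 4, nat_lit 5, nat_lit 5, nat_lit 20], true, nat_lit 0, nat_lit 20, nat_lit 160, nat_lit 296, ⟨nat_lit 0, nat_lit 0, nat_lit 1000, nat_lit 5, nat_lit 64, nat_lit 0, nat_lit 0, nat_lit 0, nat_lit 3750, nat_lit 200, nat_lit 38400, nat_lit 263, nat_lit 65308694, nat_lit 0, nat_lit 0, nat_lit 588952, false, false⟩,
 nat_lit 0, nat_lit 11789, nat_lit 0, nat_lit 0, nat_lit 6088, nat_lit 0, nat_lit 920, nat_lit 0, nat_lit 0, nat_lit 0, nat_lit 0, nat_lit 0, nat_lit 0, nat_lit 33830797687146, nat_lit 115, nat_lit 1000000, nat_lit 0, nat_lit 0, [(nat_lit 3, [(nat_lit 6, nat_lit 1000)])],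
 ⟨p026_k19, nat_lit 0, nat_lit 0, nat_lit 0, nat_lit 0, nat_lit 92644, [nat_lit 3341142858, nat_lit 23600000], [], [nat_lit 12543994197, nat_lit 12878595950, nat_lit 12218451604, nat_lit 12558756884, nat_lit 11763431506, nat_lit 12099705648, nat_lit 11455794131, nat_lit 11791947988], nat_lit 1271250, nat_lit 1271250, nat_lit 88400, nat_lit 111251, nat_lit 0, nat_lit 111251, [nat_lit 1412500, nat_lit 1271250], [nat_lit 51, nat_lit 40, nat_lit 20, nat_lit 80]⟩, C1.Rw.none,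
 ⟨nat_lit 6324, nat_lit 6423, ⟨.ofNat (nat_lit 149255), .ofNat (nat_lit 157577), .ofNat (nat_lit 159946), .ofNat (nat_lit 168268), .ofNat (nat_lit 153635), .ofNat (nat_lit 161861), .ofNat (nat_lit 164319), .ofNat (nat_lit 172545)⟩, ⟨.negSucc (nat_lit 108540), .negSucc (nat_lit 66930), .negSucc (nat_lit 87158), .negSucc (nat_lit 45548), .negSucc (nat_lit 103633), .negSucc (nat_lit 62500), .negSucc (nat_lit 82265), .negSucc (nat_lit 41133)⟩⟩, []⟩
noncomputable def p026_l70 : Lf2 := ⟨nat_lit 0, nat_lit 5, [nat_lit 4, nat_lit 5, nat_lit 5, nat_lit 20], true, nat_lit 0, nat_lit 20, nat_lit 160, nat_lit 296, ⟨nat_lit 0, nat_lit 0, nat_lit 1000, nat_lit 5, nat_lit 74, nat_lit 0, nat_lit 0, nat_lit 0, nat_lit 3750, nat_lit 200, nat_lit 52267, nat_lit 271, nat_lit 64765430, nat_lit 0, nat_lit 0, nat_lit 731014, false, false⟩,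
 nat_lit 0, nat_lit 11984, nat_lit 0, nat_lit 0, nat_lit 6189, nat_lit 0, nat_lit 944, nat_lit 0, nat_lit 0, nat_lit 0, nat_lit 0, nat_lit 0, nat_lit 0, nat_lit 34287350924737, nat_lit 115, nat_lit 1000000, nat_lit 0, nat_lit 0, [(nat_lit 3, [(nat_lit 6, nat_lit 1000)])],
 ⟨p026_k19, nat_lit 0, nat_lit 0, nat_lit 0, nat_lit 0, nat_lit 92644, [nat_lit 3341142858, nat_lit 23600000], [], [nat_lit 12130156126, nat_lit 12467810020, nat_lit 11197845152, nat_lit 11537631068, nat_lit 11343422352, nat_lit 11682422982, nat_lit 10456555382, nat_lit 10791991686], nat_lit 1271250, nat_lit 1271250, nat_lit 111251, nat_lit 230001, nat_lit 0, nat_lit 111251, [nat_lit 1412500, nat_lit 1271250], [nat_lit 51, nat_lit 40, nat_lit 20, nat_lit 80]⟩, C1.Rw.none,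
 ⟨nat_lit 6324, nat_lit 6423, ⟨.ofNat (nat_lit 157577), .ofNat (nat_lit 199188), .ofNat (nat_lit 168268), .ofNat (nat_lit 209879), .ofNat (nat_lit 161861), .ofNat (nat_lit 202993), .ofNat (nat_lit 172545), .ofNat (nat_lit 213677)⟩, ⟨.negSucc (nat_lit 108540), .negSucc (nat_lit 66930), .negSucc (nat_lit 87158), .negSucc (nat_lit 45548), .negSucc (nat_lit 103633), .negSucc (nat_lit 62500), .negSucc (nat_lit 82265), .negSucc (nat_lit 41133)⟩⟩, []⟩
noncomputable def p026_l71 : Lf2 := ⟨nat_lit 0, nat_lit 5, [nat_lit 4, nat_lit 5, nat_lit 5, nat_lit 20], true, nat_lit 20, nat_lit 40, nat_lit 160, nat_lit 296, ⟨nat_lit 0, nat_lit 0, nat_lit 1000, nat_lit 5, nat_lit 68, nat_lit 0, nat_lit 0, nat_lit 0, nat_lit 2017, nat_lit 204, nat_lit 43350, nat_lit 266, nat_lit 65091665, nat_lit 0, nat_lit 0, nat_lit 647109, false, false⟩,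
 nat_lit 0, nat_lit 12261, nat_lit 0, nat_lit 0, nat_lit 6175, nat_lit 0, nat_lit 1071, nat_lit 0, nat_lit 0, nat_lit 0, nat_lit 0, nat_lit 0, nat_lit 0, nat_lit 0, nat_lit 115, nat_lit 1000000, nat_lit 0, nat_lit 0, [(nat_lit 3, [(nat_lit 6, nat_lit 1000)])],
 ⟨p026_k15, nat_lit 0, nat_lit 0, nat_lit 0, nat_lit 0, nat_lit 95399, [nat_lit 3341142858, nat_lit 23600000], [], [nat_lit 11970951974, nat_lit 12636553171, nat_lit 10139864329, nat_lit 10809957466, nat_lit 11146828972, nat_lit 11816679156, nat_lit 9405401016, nat_lit 10066807816], nat_lit 1271250, nat_lit 1271250, nat_lit 43600, nat_lit 230001, nat_lit 111251, nat_lit 230001, [nat_lit 1412500, nat_lit 1271250], [nat_lit 51, nat_lit 40, nat_lit 20, nat_lit 80]⟩, C1.Rw.none,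
 ⟨nat_lit 6324, nat_lit 6520, ⟨.ofNat (nat_lit 127994), .ofNat (nat_lit 195344), .ofNat (nat_lit 138693), .ofNat (nat_lit 206043), .ofNat (nat_lit 137182), .ofNat (nat_lit 202993), .ofNat (nat_lit 147866), .ofNat (nat_lit 213677)⟩, ⟨.negSucc (nat_lit 71429), .negSucc (nat_lit 29335), .negSucc (nat_lit 50031), .negSucc (nat_lit 7937), .negSucc (nat_lit 62500), .negSucc (nat_lit 21368), .negSucc (nat_lit 41133), .negSucc (nat_lit 0)⟩⟩, [⟨nat_lit 0, nat_lit 100, nat_lit 100, nat_lit 40, nat_lit 393973239⟩]⟩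
noncomputable def p026_l72 : Lf2 := ⟨nat_lit 0, nat_lit 5, [nat_lit 4, nat_lit 5, nat_lit 5, nat_lit 20], true, nat_lit 0, nat_lit 40, nat_lit 0, nat_lit 304, ⟨nat_lit 0, nat_lit 0, nat_lit 1000, nat_lit 5, nat_lit 65, nat_lit 0, nat_lit 0, nat_lit 0, nat_lit 3750, nat_lit 200, nat_lit 40017, nat_lit 264, nat_lit 65292447, nat_lit 0, nat_lit 0, nat_lit 593377, false, false⟩,
 nat_lit 0, nat_lit 790564, nat_lit 0, nat_lit 0, nat_lit 398167, nat_lit 0, nat_lit 60000, nat_lit 20000, nat_lit 0, nat_lit 0, nat_lit 0, nat_lit 0, nat_lit 0, nat_lit 400000000000000, nat_lit 0, nat_lit 1000000, nat_lit 0, nat_lit 0, [(nat_lit 3, [(nat_lit 6, nat_lit 1000)])],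
 ⟨p026_k15, nat_lit 0, nat_lit 0, nat_lit 359, nat_lit 0, nat_lit 196342, [nat_lit 401041142858, nat_lit 556803600000], [], [nat_lit 741138791567, nat_lit 750529221568, nat_lit 696726528024, nat_lit 597370709864, nat_lit 694242004439, nat_lit 614240285810, nat_lit 668544705078, nat_lit 569322882262], nat_lit 1271250, nat_lit 1271250, nat_lit 21650, nat_lit 230001, nat_lit 0, nat_lit 230001, [nat_lit 1412500, nat_lit 1271250], [nat_lit 51, nat_lit 40, nat_lit 20, nat_lit 80, nat_lit 1, nat_lit 317, nat_lit 100, nat_lit 10]⟩, C1.Rw.none,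
 ⟨nat_lit 6324, nat_lit 6520, ⟨.ofNat (nat_lit 108876), .ofNat (nat_lit 184645), .ofNat (nat_lit 130274), .ofNat (nat_lit 206043), .ofNat (nat_lit 118272), .ofNat (nat_lit 192309), .ofNat (nat_lit 139640), .ofNat (nat_lit 213677)⟩, ⟨.negSucc (nat_lit 113523), .negSucc (nat_lit 29335), .negSucc (nat_lit 92125), .negSucc (nat_lit 7937), .negSucc (nat_lit 103633), .negSucc (nat_lit 21368), .negSucc (nat_lit 82265), .negSucc (nat_lit 0)⟩⟩, [⟨nat_lit 0, nat_lit 100, nat_lit 100, nat_lit 32, nat_lit 2591203267⟩, ⟨nat_lit 0, nat_lit 100, nat_lit 100, nat_lit 40, nat_lit 10000000000⟩]⟩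
noncomputable def p026_l73 : Lf2 := ⟨nat_lit 0, nat_lit 5, [nat_lit 4, nat_lit 5, nat_lit 5, nat_lit 20], false, nat_lit 0, nat_lit 40, nat_lit 0, nat_lit 304, ⟨nat_lit 1000, nat_lit 0, nat_lit 0, nat_lit 0, nat_lit 0, nat_lit 0, nat_lit 0, nat_lit 0, nat_lit 0, nat_lit 0, nat_lit 0, nat_lit 0, nat_lit 0, nat_lit 0, nat_lit 0, nat_lit 0, false, false⟩,
 nat_lit 0, nat_lit 0, nat_lit 0, nat_lit 1000000, nat_lit 0, nat_lit 1000000, nat_lit 60000, nat_lit 0, nat_lit 0, nat_lit 60000, nat_lit 20000, nat_lit 0, nat_lit 0, nat_lit 400000000000000, nat_lit 0, nat_lit 0, nat_lit 0, nat_lit 266116747199, [],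
 ⟨p026_k15, nat_lit 0, nat_lit 0, nat_lit 359, nat_lit 0, nat_lit 196342, [nat_lit 6250000000, nat_lit 9842000000], [], [nat_lit 38951612000, nat_lit 38951612000, nat_lit 39785016000, nat_lit 39785016000, nat_lit 39871616000, nat_lit 39871616000, nat_lit 40705020000, nat_lit 40705020000], nat_lit 1271250, nat_lit 1271250, nat_lit 21650, nat_lit 230001, nat_lit 0, nat_lit 230001, [nat_lit 1412500, nat_lit 1271250], [nat_lit 51, nat_lit 40, nat_lit 20, nat_lit 80, nat_lit 1, nat_lit 317, nat_lit 100, nat_lit 10]⟩, ⟨p026_k1, nat_lit 0, nat_lit 0, nat_lit 289, nat_lit 0, nat_lit 0, [nat_lit 406250000000, nat_lit 569842000000], [], [nat_lit 1290237651199, nat_lit 1333993644800, nat_lit 836135155199, nat_lit 880506027199, nat_lit 393984719199, nat_lit 391294880959, nat_lit 2124524399, nat_lit 0], nat_lit 0, nat_lit 0, nat_lit 0, nat_lit 0, nat_lit 0, nat_lit 0, [], [nat_lit 51, nat_lit 40, nat_lit 20, nat_lit 80,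 nat_lit 1, nat_lit 373, nat_lit 150, nat_lit 11]⟩,
 zbF0, [⟨nat_lit 0, nat_lit 100, nat_lit 100, nat_lit 32, nat_lit 10000000000⟩, ⟨nat_lit 0, nat_lit 100, nat_lit 100, nat_lit 40, nat_lit 10000000000⟩, ⟨nat_lit 0, nat_lit 100, nat_lit 99, nat_lit 25, nat_lit 10101010101⟩]⟩
noncomputable def p026_l74 : Lf2 := ⟨nat_lit 0, nat_lit 5, [nat_lit 4, nat_lit 5, nat_lit 5, nat_lit 20], true, nat_lit 0, nat_lit 40, nat_lit 0, nat_lit 320, ⟨nat_lit 0, nat_lit 0, nat_lit 1000, nat_lit 5, nat_lit 92, nat_lit 0, nat_lit 0, nat_lit 0, nat_lit 3750, nat_lit 200, nat_lit 79350, nat_lit 284, nat_lit 63631260, nat_lit 0, nat_lit 0, nat_lit 996680, false, false⟩,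
 nat_lit 0, nat_lit 11400, nat_lit 0, nat_lit 0, nat_lit 5741, nat_lit 0, nat_lit 1199, nat_lit 0, nat_lit 0, nat_lit 0, nat_lit 0, nat_lit 0, nat_lit 0, nat_lit 27547873408139, nat_lit 115, nat_lit 1000000, nat_lit 0, nat_lit 0, [(nat_lit 3, [(nat_lit 6, nat_lit 1000)])],
 ⟨p026_k23, nat_lit 0, nat_lit 0, nat_lit 330, nat_lit 0, nat_lit 196342, [nat_lit 3341142858, nat_lit 1499600000, nat_lit 23600000], [], [nat_lit 11378648227, nat_lit 12032864604, nat_lit 10693009023, nat_lit 11324420204, nat_lit 10063285992, nat_lit 10700928688, nat_lit 9463536625, nat_lit 10077951604], nat_lit 1271250, nat_lit 1271250, nat_lit 230001, nat_lit 490000, nat_lit 0, nat_lit 230001, [nat_lit 1412500, nat_lit 1271250, nat_lit 1271250], [nat_lit 25, nat_lit 40, nat_lit 20, nat_lit 80, nat_lit 17, nat_lit 317, nat_lit 100, nat_lit 10]⟩, C1.Rw.none,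
 ⟨nat_lit 6324, nat_lit 6520, ⟨.ofNat (nat_lit 163247), .ofNat (nat_lit 247435), .ofNat (nat_lit 206043), .ofNat (nat_lit 290231), .ofNat (nat_lit 170942), .ofNat (nat_lit 253206), .ofNat (nat_lit 213677), .ofNat (nat_lit 295942)⟩, ⟨.negSucc (nat_lit 113523), .negSucc (nat_lit 29335), .negSucc (nat_lit 92125), .negSucc (nat_lit 7937), .negSucc (nat_lit 103633), .negSucc (nat_lit 21368), .negSucc (nat_lit 82265), .negSucc (nat_lit 0)⟩⟩, []⟩
noncomputable def b_VL_500_500_5_3 : St := ⟨true, nat_lit 1, nat_lit 0, nat_lit 1, nat_lit 40, nat_lit 220, nat_lit 240, nat_lit 200, nat_lit 240, nat_lit 0, nat_lit 80, nat_lit 20, nat_lit 40, nat_lit 0, nat_lit 40, nat_lit 0, nat_lit 320, nat_lit 0, nat_lit 20, nat_lit 0, nat_lit 0, nat_lit 0, nat_lit 0⟩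
theorem d_VL_500_500_5_3 (h : EB TB.env) : Dead b_VL_500_500_5_3 := chkB_sound0 h (T :=
(.spl (nat_lit 0) (nat_lit 230)
(.ord (.leaf p026_l50))
(.spl (nat_lit 2) (nat_lit 40)
(.spl (nat_lit 1) (nat_lit 220)
(.spl (nat_lit 6) (nat_lit 8)
(.leaf p026_l51)
(.leaf p026_l52))
(.trZ (nat_lit 0) (nat_lit 100) (nat_lit 99) (nat_lit 25) (nat_lit 4) (.trX (nat_lit 19) (nat_lit 100) (nat_lit 86) (nat_lit 60) (nat_lit 304) (.spl (nat_lit 8) (nat_lit 800)
(.spl (nat_lit 7) (nat_lit 600)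
(.spl (nat_lit 7) (nat_lit 300)
(.leaf p026_l53)
(.spl (nat_lit 1) (nat_lit 230)
(.spl (nat_lit 6) (nat_lit 12)
(.spl (nat_lit 0) (nat_lit 235)
(.leaf p026_l54)
(.spl (nat_lit 4) (nat_lit 20)
(.spl (nat_lit 1) (nat_lit 225)
(.leaf p026_l55)
(.trZ (nat_lit 0) (nat_lit 100) (nat_lit 99) (nat_lit 30) (nat_lit 8) (.trX (nat_lit 19) (nat_lit 100) (nat_lit 88) (nat_lit 60) (nat_lit 300) (.spl (nat_lit 0) (nat_lit 238)
(.leaf p026_l56)
(.leaf p026_l57)))))
(.leaf p026_l58)))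
(.leaf p026_l59))
(.trZ (nat_lit 0) (nat_lit 100) (nat_lit 100) (nat_lit 30) (nat_lit 8) (.trX (nat_lit 19) (nat_lit 100) (nat_lit 89) (nat_lit 61) (nat_lit 296) (.spl (nat_lit 5) (nat_lit 160)
(.spl (nat_lit 0) (nat_lit 235)
(.ord (.leaf p026_l60))
(.leaf p026_l61))
(.spl (nat_lit 6) (nat_lit 8)
(.spl (nat_lit 5) (nat_lit 240)
(.leaf p026_l62)
(.spl (nat_lit 0) (nat_lit 235)
(.ord (.leaf p026_l63))
(.leaf p026_l64)))
(.spl (nat_lit 4) (nat_lit 20)
(.spl (nat_lit 0) (nat_lit 235)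
(.ord (.leaf p026_l65))
(.spl (nat_lit 2) (nat_lit 20)
(.spl (nat_lit 2) (nat_lit 16)
(.spl (nat_lit 0) (nat_lit 238)
(.ord (.leaf p026_l66))
(.spl (nat_lit 0) (nat_lit 239)
(.ord (.leaf p026_l67))
(.leaf p026_l68)))
(.leaf p026_l69))
(.leaf p026_l70)))
(.leaf p026_l71))))))))
(.leaf p026_l72))
(.leaf p026_l73)))))
(.leaf p026_l74)))) (by decide +kernel)
noncomputable def p026_l75 : Lf2 := ⟨nat_lit 0, nat_lit 5, [nat_lit 4, nat_lit 5, nat_lit 5, nat_lit 20], true, nat_lit 40, nat_lit 80, nat_lit 0, nat_lit 320, ⟨nat_lit 0, nat_lit 0, nat_lit 1000, nat_lit 5, nat_lit 70, nat_lit 0, nat_lit 12, nat_lit 0, nat_lit 600, nat_lit 221, nat_lit 46817, nat_lit 268, nat_lit 65000799, nat_lit 0, nat_lit 0, nat_lit 670882, false, false⟩,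
 nat_lit 0, nat_lit 11852, nat_lit 0, nat_lit 0, nat_lit 5668, nat_lit 0, nat_lit 669, nat_lit 0, nat_lit 0, nat_lit 0, nat_lit 0, nat_lit 0, nat_lit 0, nat_lit 26105154747715, nat_lit 115, nat_lit 1000000, nat_lit 0, nat_lit 0, [(nat_lit 3, [(nat_lit 6, nat_lit 1000)])],
 ⟨p026_k9, nat_lit 0, nat_lit 0, nat_lit 295, nat_lit 0, nat_lit 100096, [nat_lit 3341142858, nat_lit 1499600000, nat_lit 23600000], [], [nat_lit 11640323858, nat_lit 12274702140, nat_lit 10064819964, nat_lit 9592188248, nat_lit 10169456364, nat_lit 10796937152, nat_lit 11005059164, nat_lit 9529174312], nat_lit 1271250, nat_lit 1271250, nat_lit 0, nat_lit 490000, nat_lit 230001, nat_lit 490000, [nat_lit 1412500, nat_lit 1271250, nat_lit 1271250], [nat_lit 25, nat_lit 40, nat_lit 20, nat_lit 80, nat_lit 17, nat_lit 317, nat_lit 100, nat_lit 10]⟩, C1.Rw.none,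
 ⟨nat_lit 6519, nat_lit 6709, ⟨.ofNat (nat_lit 69221), .ofNat (nat_lit 241532), .ofNat (nat_lit 101379), .ofNat (nat_lit 273690), .ofNat (nat_lit 79059), .ofNat (nat_lit 247435), .ofNat (nat_lit 111156), .ofNat (nat_lit 279532)⟩, ⟨.negSucc (nat_lit 37568), .ofNat (nat_lit 48587), .negSucc (nat_lit 16130), .ofNat (nat_lit 70025), .negSucc (nat_lit 29335), .ofNat (nat_lit 54852), .negSucc (nat_lit 7937), .ofNat (nat_lit 76250)⟩⟩, [⟨nat_lit 0, nat_lit 100, nat_lit 100, nat_lit 30, nat_lit 201625800⟩]⟩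
noncomputable def p026_l76 : Lf2 := ⟨nat_lit 0, nat_lit 5, [nat_lit 4, nat_lit 5, nat_lit 5, nat_lit 20], true, nat_lit 40, nat_lit 80, nat_lit 0, nat_lit 320, ⟨nat_lit 0, nat_lit 0, nat_lit 1000, nat_lit 5, nat_lit 50, nat_lit 0, nat_lit 14, nat_lit 0, nat_lit 1067, nat_lit 223, nat_lit 24067, nat_lit 253, nat_lit 65951990, nat_lit 0, nat_lit 0, nat_lit 402687, false, false⟩,
 nat_lit 0, nat_lit 11943, nat_lit 0, nat_lit 0, nat_lit 6015, nat_lit 0, nat_lit 982, nat_lit 0, nat_lit 0, nat_lit 0, nat_lit 0, nat_lit 0, nat_lit 0, nat_lit 20547278637306, nat_lit 115, nat_lit 1000000, nat_lit 0, nat_lit 0, [(nat_lit 3, [(nat_lit 6, nat_lit 1000)])],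
 ⟨p026_k23, nat_lit 0, nat_lit 0, nat_lit 341, nat_lit 0, nat_lit 196342, [nat_lit 3341142858, nat_lit 1499600000, nat_lit 23600000], [], [nat_lit 12635681498, nat_lit 13633371970, nat_lit 10457775019, nat_lit 11117728496, nat_lit 10302922621, nat_lit 10949086236, nat_lit 8967490956, nat_lit 9610966236], nat_lit 1271250, nat_lit 1271250, nat_lit 0, nat_lit 111251, nat_lit 230001, nat_lit 490000, [nat_lit 1412500, nat_lit 1271250, nat_lit 1271250], [nat_lit 25, nat_lit 40, nat_lit 20, nat_lit 80, nat_lit 17, nat_lit 317, nat_lit 100, nat_lit 10]⟩, C1.Rw.none,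
 ⟨nat_lit 6324, nat_lit 6520, ⟨.ofNat (nat_lit 79059), .ofNat (nat_lit 121153), .ofNat (nat_lit 121855), .ofNat (nat_lit 163949), .ofNat (nat_lit 88677), .ofNat (nat_lit 129809), .ofNat (nat_lit 131413), .ofNat (nat_lit 172545)⟩, ⟨.negSucc (nat_lit 29335), .ofNat (nat_lit 54852), .negSucc (nat_lit 7937), .ofNat (nat_lit 76250), .negSucc (nat_lit 21368), .ofNat (nat_lit 60895), .negSucc (nat_lit 0), .ofNat (nat_lit 82263)⟩⟩, [⟨nat_lit 0, nat_lit 100, nat_lit 100, nat_lit 40, nat_lit 730266850⟩]⟩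
noncomputable def p026_l77 : Lf2 := ⟨nat_lit 0, nat_lit 5, [nat_lit 4, nat_lit 5, nat_lit 5, nat_lit 20], true, nat_lit 40, nat_lit 80, nat_lit 0, nat_lit 320, ⟨nat_lit 0, nat_lit 0, nat_lit 1000, nat_lit 5, nat_lit 67, nat_lit 0, nat_lit 14, nat_lit 0, nat_lit 1067, nat_lit 223, nat_lit 41667, nat_lit 265, nat_lit 65167906, nat_lit 0, nat_lit 0, nat_lit 626907, false, false⟩,
 nat_lit 0, nat_lit 11943, nat_lit 0, nat_lit 0, nat_lit 6015, nat_lit 0, nat_lit 731, nat_lit 0, nat_lit 0, nat_lit 0, nat_lit 0, nat_lit 0, nat_lit 0, nat_lit 31987311995636, nat_lit 115, nat_lit 1000000, nat_lit 0, nat_lit 0, [(nat_lit 3, [(nat_lit 6, nat_lit 1000)])],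
 ⟨p026_k15, nat_lit 0, nat_lit 0, nat_lit 305, nat_lit 0, nat_lit 196342, [nat_lit 3341142858, nat_lit 23600000], [], [nat_lit 10461160043, nat_lit 11117728496, nat_lit 9647939256, nat_lit 10300585096, nat_lit 8967490956, nat_lit 9610966236, nat_lit 8235626231, nat_lit 8871193956], nat_lit 1271250, nat_lit 1271250, nat_lit 111251, nat_lit 230001, nat_lit 230001, nat_lit 490000, [nat_lit 1412500, nat_lit 1271250], [nat_lit 51, nat_lit 40, nat_lit 20, nat_lit 80, nat_lit 1, nat_lit 317, nat_lit 100, nat_lit 10]⟩, C1.Rw.none,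
 ⟨nat_lit 6324, nat_lit 6520, ⟨.ofNat (nat_lit 121153), .ofNat (nat_lit 163247), .ofNat (nat_lit 163949), .ofNat (nat_lit 206043), .ofNat (nat_lit 129809), .ofNat (nat_lit 170942), .ofNat (nat_lit 172545), .ofNat (nat_lit 213677)⟩, ⟨.negSucc (nat_lit 29335), .ofNat (nat_lit 54852), .negSucc (nat_lit 7937), .ofNat (nat_lit 76250), .negSucc (nat_lit 21368), .ofNat (nat_lit 60895), .negSucc (nat_lit 0), .ofNat (nat_lit 82263)⟩⟩, []⟩
noncomputable def p026_l78 : Lf2 := ⟨nat_lit 0, nat_lit 5, [nat_lit 4, nat_lit 5, nat_lit 5, nat_lit 20], true, nat_lit 40, nat_lit 80, nat_lit 0, nat_lit 320, ⟨nat_lit 0, nat_lit 0, nat_lit 1000, nat_lit 5, nat_lit 92, nat_lit 0, nat_lit 14, nat_lit 0, nat_lit 1067, nat_lit 223, nat_lit 79350, nat_lit 284, nat_lit 63631260, nat_lit 0, nat_lit 0, nat_lit 996680, false, false⟩,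
 nat_lit 0, nat_lit 12809, nat_lit 0, nat_lit 0, nat_lit 6451, nat_lit 0, nat_lit 857, nat_lit 0, nat_lit 0, nat_lit 0, nat_lit 0, nat_lit 0, nat_lit 0, nat_lit 33129010477322, nat_lit 115, nat_lit 1000000, nat_lit 0, nat_lit 0, [(nat_lit 3, [(nat_lit 6, nat_lit 1000)])],
 ⟨p026_k15, nat_lit 0, nat_lit 0, nat_lit 285, nat_lit 0, nat_lit 196342, [nat_lit 3341142858, nat_lit 23600000], [], [nat_lit 8987022552, nat_lit 9663542008, nat_lit 8212267415, nat_lit 8863544884, nat_lit 7420437467, nat_lit 8079076132, nat_lit 8018138563, nat_lit 7375250284], nat_lit 1271250, nat_lit 1271250, nat_lit 230001, nat_lit 490000, nat_lit 230001, nat_lit 490000, [nat_lit 1412500, nat_lit 1271250], [nat_lit 51, nat_lit 40, nat_lit 20, nat_lit 80, nat_lit 1, nat_lit 317, nat_lit 100, nat_lit 9]⟩, C1.Rw.none,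
 ⟨nat_lit 6324, nat_lit 6520, ⟨.ofNat (nat_lit 163247), .ofNat (nat_lit 247435), .ofNat (nat_lit 206043), .ofNat (nat_lit 290231), .ofNat (nat_lit 170942), .ofNat (nat_lit 253206), .ofNat (nat_lit 213677), .ofNat (nat_lit 295942)⟩, ⟨.negSucc (nat_lit 29335), .ofNat (nat_lit 54852), .negSucc (nat_lit 7937), .ofNat (nat_lit 76250), .negSucc (nat_lit 21368), .ofNat (nat_lit 60895), .negSucc (nat_lit 0), .ofNat (nat_lit 82263)⟩⟩, []⟩
noncomputable def b_VL_500_500_5_4 : St := ⟨true, nat_lit 1, nat_lit 0, nat_lit 1, nat_lit 40, nat_lit 220, nat_lit 240, nat_lit 200, nat_lit 240, nat_lit 0, nat_lit 80, nat_lit 20, nat_lit 40, nat_lit 40, nat_lit 80, nat_lit 0, nat_lit 320, nat_lit 0, nat_lit 20, nat_lit 0, nat_lit 0, nat_lit 0, nat_lit 0⟩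
theorem d_VL_500_500_5_4 (h : EB TB.env) : Dead b_VL_500_500_5_4 := chkB_sound0 h (T :=
(.spl (nat_lit 0) (nat_lit 230)
(.ord (.leaf p026_l75))
(.spl (nat_lit 2) (nat_lit 40)
(.spl (nat_lit 2) (nat_lit 20)
(.leaf p026_l76)
(.leaf p026_l77))
(.leaf p026_l78)))) (by decide +kernel)
noncomputable def p026_l79 : Lf2 := ⟨nat_lit 0, nat_lit 5, [nat_lit 4, nat_lit 5, nat_lit 5, nat_lit 20], true, nat_lit 80, nat_lit 120, nat_lit 0, nat_lit 320, ⟨nat_lit 0, nat_lit 0, nat_lit 1000, nat_lit 5, nat_lit 74, nat_lit 1000, nat_lit 43, nat_lit 1000, nat_lit 17067, nat_lit 247, nat_lit 50417, nat_lit 270, nat_lit 63494485, nat_lit 0, nat_lit 0, nat_lit 1240426, false, false⟩,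
 nat_lit 0, nat_lit 13307, nat_lit 0, nat_lit 0, nat_lit 6364, nat_lit 0, nat_lit 1225, nat_lit 0, nat_lit 0, nat_lit 0, nat_lit 0, nat_lit 0, nat_lit 0, nat_lit 29482226207788, nat_lit 115, nat_lit 1000000, nat_lit 0, nat_lit 0, [(nat_lit 3, [(nat_lit 6, nat_lit 1000)])],
 ⟨p026_k1, nat_lit 0, nat_lit 0, nat_lit 297, nat_lit 0, nat_lit 208593, [nat_lit 3341142858, nat_lit 23600000], [], [nat_lit 9179669452, nat_lit 10517439792, nat_lit 9843147020, nat_lit 7553690068, nat_lit 10682487964, nat_lit 10938966332, nat_lit 11854465664, nat_lit 8588645420], nat_lit 1271250, nat_lit 1271250, nat_lit 0, nat_lit 490000, nat_lit 490000, nat_lit 780000, [nat_lit 1412500, nat_lit 1271250], [nat_lit 51, nat_lit 40, nat_lit 20, nat_lit 80, nat_lit 1, nat_lit 345, nat_lit 125, nat_lit 10]⟩, C1.Rw.none,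
 ⟨nat_lit 6324, nat_lit 6709, ⟨.ofNat (nat_lit 69221), .ofNat (nat_lit 241532), .ofNat (nat_lit 112098), .ofNat (nat_lit 284409), .ofNat (nat_lit 88677), .ofNat (nat_lit 253206), .ofNat (nat_lit 131413), .ofNat (nat_lit 295942)⟩, ⟨.ofNat (nat_lit 48587), .ofNat (nat_lit 134742), .ofNat (nat_lit 70025), .ofNat (nat_lit 156180), .ofNat (nat_lit 60895), .ofNat (nat_lit 143159), .ofNat (nat_lit 82263), .ofNat (nat_lit 164527)⟩⟩, [⟨nat_lit 0, nat_lit 100, nat_lit 100, nat_lit 40, nat_lit 232782269⟩]⟩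
noncomputable def p026_l80 : Lf2 := ⟨nat_lit 0, nat_lit 5, [nat_lit 4, nat_lit 5, nat_lit 5, nat_lit 20], true, nat_lit 120, nat_lit 160, nat_lit 0, nat_lit 320, ⟨nat_lit 0, nat_lit 0, nat_lit 1000, nat_lit 5, nat_lit 70, nat_lit 1000, nat_lit 77, nat_lit 1000, nat_lit 56067, nat_lit 273, nat_lit 45067, nat_lit 267, nat_lit 61854889, nat_lit 0, nat_lit 0, nat_lit 1705218, false, false⟩,
 nat_lit 0, nat_lit 15128, nat_lit 0, nat_lit 0, nat_lit 7235, nat_lit 0, nat_lit 548, nat_lit 0, nat_lit 0, nat_lit 0, nat_lit 0, nat_lit 0, nat_lit 0, nat_lit 0, nat_lit 115, nat_lit 1000000, nat_lit 0, nat_lit 0, [(nat_lit 3, [(nat_lit 6, nat_lit 1000)])],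
 ⟨p026_k9, nat_lit 0, nat_lit 0, nat_lit 228, nat_lit 0, nat_lit 106778, [nat_lit 3341142858, nat_lit 1499600000, nat_lit 23600000], [], [nat_lit 9927832380, nat_lit 11268399720, nat_lit 10516920611, nat_lit 6804128426, nat_lit 12341920366, nat_lit 11593067860, nat_lit 13632986736, nat_lit 9975231196], nat_lit 1271250, nat_lit 1271250, nat_lit 0, nat_lit 490000, nat_lit 780000, nat_lit 1100001, [nat_lit 1412500, nat_lit 1271250, nat_lit 1271250], [nat_lit 25, nat_lit 40, nat_lit 20, nat_lit 80, nat_lit 17, nat_lit 345, nat_lit 125, nat_lit 10]⟩, C1.Rw.none,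
 ⟨nat_lit 6324, nat_lit 6709, ⟨.ofNat (nat_lit 69221), .ofNat (nat_lit 241532), .ofNat (nat_lit 90659), .ofNat (nat_lit 262970), .ofNat (nat_lit 88677), .ofNat (nat_lit 253206), .ofNat (nat_lit 110045), .ofNat (nat_lit 274574)⟩, ⟨.ofNat (nat_lit 134742), .ofNat (nat_lit 220898), .ofNat (nat_lit 156180), .ofNat (nat_lit 242336), .ofNat (nat_lit 143159), .ofNat (nat_lit 225423), .ofNat (nat_lit 164527), .ofNat (nat_lit 246791)⟩⟩, [⟨nat_lit 0, nat_lit 100, nat_lit 98, nat_lit 30, nat_lit 34536386⟩]⟩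
noncomputable def p026_l81 : Lf2 := ⟨nat_lit 0, nat_lit 2, [nat_lit 10, nat_lit 5, nat_lit 5, nat_lit 20], true, nat_lit 120, nat_lit 160, nat_lit 0, nat_lit 304, ⟨nat_lit 0, nat_lit 0, nat_lit 1000, nat_lit 5, nat_lit 76, nat_lit 1000, nat_lit 76, nat_lit 1000, nat_lit 54150, nat_lit 272, nat_lit 54150, nat_lit 272, nat_lit 61473940, nat_lit 0, nat_lit 0, nat_lit 1802068, false, false⟩,
 nat_lit 0, nat_lit 13378, nat_lit 0, nat_lit 0, nat_lit 6397, nat_lit 0, nat_lit 0, nat_lit 0, nat_lit 0, nat_lit 0, nat_lit 0, nat_lit 0, nat_lit 0, nat_lit 32228020866806, nat_lit 53, nat_lit 1000000, nat_lit 0, nat_lit 0, [(nat_lit 3, [(nat_lit 6, nat_lit 1000)])],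
 ⟨p026_k24, nat_lit 0, nat_lit 0, nat_lit 225, nat_lit 0, nat_lit 95287, [nat_lit 2101142858, nat_lit 11600000], [], [nat_lit 8529118900, nat_lit 9485562335, nat_lit 5335074111, nat_lit 6112388847, nat_lit 9205201439, nat_lit 9970083627, nat_lit 6111563500, nat_lit 6841357115], nat_lit 1271250, nat_lit 1271250, nat_lit 21650, nat_lit 490000, nat_lit 780000, nat_lit 1100001, [nat_lit 1412500, nat_lit 1271250], [nat_lit 26, nat_lit 40, nat_lit 20, nat_lit 80, nat_lit 2, nat_lit 345, nat_lit 125, nat_lit 12]⟩, C1.Rw.none,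
 ⟨nat_lit 6519, nat_lit 6709, ⟨.ofNat (nat_lit 99275), .ofNat (nat_lit 262970), .ofNat (nat_lit 109994), .ofNat (nat_lit 273690), .ofNat (nat_lit 108876), .ofNat (nat_lit 268833), .ofNat (nat_lit 119575), .ofNat (nat_lit 279532)⟩, ⟨.ofNat (nat_lit 134742), .ofNat (nat_lit 220898), .ofNat (nat_lit 156180), .ofNat (nat_lit 242336), .ofNat (nat_lit 139040), .ofNat (nat_lit 223228), .ofNat (nat_lit 160438), .ofNat (nat_lit 244626)⟩⟩, [⟨nat_lit 0, nat_lit 100, nat_lit 100, nat_lit 30, nat_lit 318821721⟩]⟩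
noncomputable def p026_l82 : Lf2 := ⟨nat_lit 0, nat_lit 2, [nat_lit 10, nat_lit 5, nat_lit 5, nat_lit 20], true, nat_lit 120, nat_lit 160, nat_lit 0, nat_lit 304, ⟨nat_lit 0, nat_lit 0, nat_lit 1000, nat_lit 5, nat_lit 80, nat_lit 1000, nat_lit 77, nat_lit 1000, nat_lit 56067, nat_lit 273, nat_lit 60000, nat_lit 275, nat_lit 61185025, nat_lit 0, nat_lit 0, nat_lit 1872846, false, false⟩,
 nat_lit 0, nat_lit 13093, nat_lit 0, nat_lit 0, nat_lit 6594, nat_lit 0, nat_lit 216, nat_lit 0, nat_lit 0, nat_lit 0, nat_lit 0, nat_lit 0, nat_lit 0, nat_lit 35084774091935, nat_lit 53, nat_lit 1000000, nat_lit 0, nat_lit 0, [(nat_lit 3, [(nat_lit 6, nat_lit 1000)])],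
 ⟨p026_k14, nat_lit 0, nat_lit 0, nat_lit 223, nat_lit 0, nat_lit 138079, [nat_lit 2101142858, nat_lit 11600000], [], [nat_lit 9676985062, nat_lit 10037685236, nat_lit 9809342987, nat_lit 8963380594, nat_lit 11363376063, nat_lit 10506154744, nat_lit 12787819616, nat_lit 11954397362], nat_lit 1271250, nat_lit 1271250, nat_lit 21650, nat_lit 490000, nat_lit 780000, nat_lit 1100001, [nat_lit 1412500, nat_lit 1271250], [nat_lit 26, nat_lit 40, nat_lit 20, nat_lit 80, nat_lit 2, nat_lit 345, nat_lit 125, nat_lit 12]⟩, C1.Rw.none,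
 ⟨nat_lit 6422, nat_lit 6520, ⟨.ofNat (nat_lit 108876), .ofNat (nat_lit 268833), .ofNat (nat_lit 124924), .ofNat (nat_lit 284881), .ofNat (nat_lit 113598), .ofNat (nat_lit 271718), .ofNat (nat_lit 129634), .ofNat (nat_lit 287754)⟩, ⟨.ofNat (nat_lit 139040), .ofNat (nat_lit 223228), .ofNat (nat_lit 160438), .ofNat (nat_lit 244626), .ofNat (nat_lit 141121), .ofNat (nat_lit 224342), .ofNat (nat_lit 162503), .ofNat (nat_lit 245724)⟩⟩, [⟨nat_lit 0, nat_lit 100, nat_lit 100, nat_lit 35, nat_lit 17820935⟩]⟩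
noncomputable def p026_l83 : Lf2 := ⟨nat_lit 0, nat_lit 2, [nat_lit 10, nat_lit 5, nat_lit 5, nat_lit 20], true, nat_lit 120, nat_lit 160, nat_lit 0, nat_lit 304, ⟨nat_lit 0, nat_lit 0, nat_lit 1000, nat_lit 5, nat_lit 82, nat_lit 1000, nat_lit 78, nat_lit 1000, nat_lit 56067, nat_lit 273, nat_lit 64067, nat_lit 277, nat_lit 60967803, nat_lit 0, nat_lit 0, nat_lit 1925037, false, false⟩,
 nat_lit 0, nat_lit 12531, nat_lit 0, nat_lit 0, nat_lit 6472, nat_lit 0, nat_lit 149, nat_lit 0, nat_lit 0, nat_lit 0, nat_lit 0, nat_lit 0, nat_lit 0, nat_lit 30933324043419, nat_lit 53, nat_lit 1000000, nat_lit 0, nat_lit 0, [(nat_lit 3, [(nat_lit 6, nat_lit 1000)])],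
 ⟨p026_k20, nat_lit 0, nat_lit 0, nat_lit 224, nat_lit 0, nat_lit 181888, [nat_lit 2101142858, nat_lit 11600000], [], [nat_lit 10181053412, nat_lit 10510790644, nat_lit 9197684186, nat_lit 8367373508, nat_lit 10700935625, nat_lit 10960917243, nat_lit 12157044364, nat_lit 11339041812], nat_lit 1271250, nat_lit 1271250, nat_lit 21650, nat_lit 490000, nat_lit 780000, nat_lit 1100001, [nat_lit 1412500, nat_lit 1271250], [nat_lit 26, nat_lit 40, nat_lit 20, nat_lit 80, nat_lit 2, nat_lit 345, nat_lit 125, nat_lit 12]⟩, C1.Rw.none,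
 ⟨nat_lit 6324, nat_lit 6423, ⟨.ofNat (nat_lit 113598), .ofNat (nat_lit 271718), .ofNat (nat_lit 134980), .ofNat (nat_lit 293099), .ofNat (nat_lit 118272), .ofNat (nat_lit 274574), .ofNat (nat_lit 139640), .ofNat (nat_lit 295942)⟩, ⟨.ofNat (nat_lit 141121), .ofNat (nat_lit 224342), .ofNat (nat_lit 162503), .ofNat (nat_lit 245724), .ofNat (nat_lit 143159), .ofNat (nat_lit 225423), .ofNat (nat_lit 164527), .ofNat (nat_lit 246791)⟩⟩, [⟨nat_lit 0, nat_lit 100, nat_lit 100, nat_lit 40, nat_lit 87129089⟩]⟩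
noncomputable def p026_l84 : Lf2 := ⟨nat_lit 0, nat_lit 5, [nat_lit 4, nat_lit 5, nat_lit 5, nat_lit 20], true, nat_lit 120, nat_lit 160, nat_lit 0, nat_lit 304, ⟨nat_lit 0, nat_lit 0, nat_lit 1000, nat_lit 5, nat_lit 80, nat_lit 1000, nat_lit 77, nat_lit 1000, nat_lit 56067, nat_lit 273, nat_lit 60000, nat_lit 275, nat_lit 61189267, nat_lit 0, nat_lit 0, nat_lit 1871719, false, false⟩,
 nat_lit 0, nat_lit 13536, nat_lit 0, nat_lit 0, nat_lit 6473, nat_lit 0, nat_lit 1119, nat_lit 0, nat_lit 0, nat_lit 0, nat_lit 0, nat_lit 0, nat_lit 0, nat_lit 31934173886298, nat_lit 115, nat_lit 1000000, nat_lit 0, nat_lit 0, [(nat_lit 3, [(nat_lit 6, nat_lit 1000)])],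
 ⟨p026_k1, nat_lit 0, nat_lit 0, nat_lit 225, nat_lit 0, nat_lit 101352, [nat_lit 3341142858, nat_lit 23600000], [], [nat_lit 10493783152, nat_lit 10511924449, nat_lit 11687080577, nat_lit 8365324694, nat_lit 13223812944, nat_lit 10959338074, nat_lit 14609770152, nat_lit 11337254380], nat_lit 1271250, nat_lit 1271250, nat_lit 21650, nat_lit 490000, nat_lit 780000, nat_lit 1100001, [nat_lit 1412500, nat_lit 1271250], [nat_lit 51, nat_lit 40, nat_lit 20, nat_lit 80, nat_lit 1, nat_lit 345, nat_lit 125, nat_lit 10]⟩, C1.Rw.none,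
 ⟨nat_lit 6324, nat_lit 6709, ⟨.ofNat (nat_lit 99275), .ofNat (nat_lit 262970), .ofNat (nat_lit 120713), .ofNat (nat_lit 284409), .ofNat (nat_lit 118272), .ofNat (nat_lit 274574), .ofNat (nat_lit 139640), .ofNat (nat_lit 295942)⟩, ⟨.ofNat (nat_lit 134742), .ofNat (nat_lit 220898), .ofNat (nat_lit 156180), .ofNat (nat_lit 242336), .ofNat (nat_lit 143159), .ofNat (nat_lit 225423), .ofNat (nat_lit 164527), .ofNat (nat_lit 246791)⟩⟩, [⟨nat_lit 0, nat_lit 100, nat_lit 100, nat_lit 40, nat_lit 85527766⟩]⟩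
noncomputable def b_VL_500_500_5_5 : St := ⟨true, nat_lit 1, nat_lit 0, nat_lit 1, nat_lit 40, nat_lit 220, nat_lit 240, nat_lit 200, nat_lit 240, nat_lit 0, nat_lit 80, nat_lit 20, nat_lit 40, nat_lit 80, nat_lit 160, nat_lit 0, nat_lit 320, nat_lit 0, nat_lit 20, nat_lit 0, nat_lit 0, nat_lit 0, nat_lit 0⟩
theorem d_VL_500_500_5_5 (h : EB TB.env) : Dead b_VL_500_500_5_5 := chkB_sound0 h (T :=
(.spl (nat_lit 4) (nat_lit 120)
(.leaf p026_l79)
(.spl (nat_lit 1) (nat_lit 220)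
(.leaf p026_l80)
(.trZ (nat_lit 0) (nat_lit 100) (nat_lit 100) (nat_lit 20) (nat_lit 4) (.trX (nat_lit 19) (nat_lit 100) (nat_lit 86) (nat_lit 60) (nat_lit 304) (.spl (nat_lit 6) (nat_lit 8)
(.spl (nat_lit 0) (nat_lit 230)
(.ord (.leaf p026_l81))
(.spl (nat_lit 0) (nat_lit 235)
(.ord (.leaf p026_l82))
(.leaf p026_l83)))
(.leaf p026_l84))))))) (by decide +kernel)
noncomputable def p026_l85 : Lf2 := ⟨nat_lit 0, nat_lit 5, [nat_lit 4, nat_lit 5, nat_lit 5, nat_lit 20], false, nat_lit 0, nat_lit 160, nat_lit 0, nat_lit 160, ⟨nat_lit 1000, nat_lit 0, nat_lit 0, nat_lit 0, nat_lit 0, nat_lit 0, nat_lit 0, nat_lit 0, nat_lit 0, nat_lit 0, nat_lit 0, nat_lit 0, nat_lit 0, nat_lit 0, nat_lit 0, nat_lit 0, false, false⟩,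
 nat_lit 0, nat_lit 8704, nat_lit 0, nat_lit 29647, nat_lit 4162, nat_lit 20422, nat_lit 0, nat_lit 0, nat_lit 0, nat_lit 7107, nat_lit 0, nat_lit 0, nat_lit 0, nat_lit 0, nat_lit 0, nat_lit 0, nat_lit 0, nat_lit 7596928384, [],
 ⟨p026_k9, nat_lit 0, nat_lit 0, nat_lit 298, nat_lit 0, nat_lit 200836, [nat_lit 6250000000, nat_lit 7968000001, nat_lit 9842000000], [], [nat_lit 41076970036, nat_lit 38842234080, nat_lit 36641626524, nat_lit 34812558065, nat_lit 33498551621, nat_lit 34156687929, nat_lit 33722526845, nat_lit 34348000473], nat_lit 1271250, nat_lit 1271250, nat_lit 490000, nat_lit 780000, nat_lit 0, nat_lit 1100001, [nat_lit 1412500, nat_lit 1271250, nat_lit 1271250], [nat_lit 25, nat_lit 40, nat_lit 20, nat_lit 80, nat_lit 17, nat_lit 373, nat_lit 150, nat_lit 11]⟩, ⟨p026_k10, nat_lit 0, nat_lit 0, nat_lit 208, nat_lit 0, nat_lit 0, [nat_lit 6250000000, nat_lit 7968000000, nat_lit 11872000000], [],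 [nat_lit 17966863415, nat_lit 20154137851, nat_lit 14848635000, nat_lit 18018603024, nat_lit 1480654656, nat_lit 4243724052, nat_lit 0, nat_lit 2579208996], nat_lit 0, nat_lit 0, nat_lit 0, nat_lit 0, nat_lit 0, nat_lit 0, [], [nat_lit 53, nat_lit 40, nat_lit 20, nat_lit 80, nat_lit 14, nat_lit 345, nat_lit 125, nat_lit 9]⟩,
 zbF0, []⟩
noncomputable def p026_l86 : Lf2 := ⟨nat_lit 0, nat_lit 5, [nat_lit 4, nat_lit 5, nat_lit 5, nat_lit 20], false, nat_lit 0, nat_lit 160, nat_lit 0, nat_lit 160, ⟨nat_lit 1000, nat_lit 0, nat_lit 0, nat_lit 0, nat_lit 0, nat_lit 0, nat_lit 0, nat_lit 0, nat_lit 0, nat_lit 0, nat_lit 0, nat_lit 0, nat_lit 0, nat_lit 0, nat_lit 0, nat_lit 0, false, false⟩,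
 nat_lit 0, nat_lit 11448, nat_lit 0, nat_lit 6133, nat_lit 5475, nat_lit 13494, nat_lit 209, nat_lit 0, nat_lit 0, nat_lit 4901, nat_lit 0, nat_lit 0, nat_lit 0, nat_lit 25044950383405, nat_lit 0, nat_lit 0, nat_lit 0, nat_lit 0, [],
 ⟨p026_k9, nat_lit 0, nat_lit 0, nat_lit 425, nat_lit 0, nat_lit 409043, [nat_lit 6250000000, nat_lit 7968000001, nat_lit 9842000000], [], [nat_lit 43782771550, nat_lit 40843036000, nat_lit 37948195450, nat_lit 38090239101, nat_lit 35591656051, nat_lit 36157012501, nat_lit 37645631451, nat_lit 36011153401], nat_lit 1271250, nat_lit 1271250, nat_lit 490000, nat_lit 780000, nat_lit 0, nat_lit 1100001, [nat_lit 1412500, nat_lit 1271250, nat_lit 1271250], [nat_lit 25, nat_lit 40, nat_lit 20, nat_lit 80, nat_lit 17, nat_lit 373, nat_lit 150, nat_lit 11]⟩, ⟨p026_k9, nat_lit 0, nat_lit 0, nat_lit 149, nat_lit 0, nat_lit 0, [nat_lit 6250000000, nat_lit 7968000000, nat_lit 9842000000],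 [], [nat_lit 11937887042, nat_lit 14007600114, nat_lit 10496592162, nat_lit 12799592378, nat_lit 2651425030, nat_lit 4262749178, nat_lit 1771265006, nat_lit 3354143066], nat_lit 0, nat_lit 0, nat_lit 0, nat_lit 0, nat_lit 0, nat_lit 0, [], [nat_lit 25, nat_lit 40, nat_lit 20, nat_lit 80, nat_lit 17, nat_lit 373, nat_lit 150, nat_lit 11]⟩,
 zbF0, []⟩
noncomputable def p026_l87 : Lf2 := ⟨nat_lit 0, nat_lit 5, [nat_lit 4, nat_lit 5, nat_lit 5, nat_lit 20], false, nat_lit 0, nat_lit 80, nat_lit 160, nat_lit 320, ⟨nat_lit 1000, nat_lit 0, nat_lit 0, nat_lit 0, nat_lit 0, nat_lit 0, nat_lit 0, nat_lit 0, nat_lit 0, nat_lit 0, nat_lit 0, nat_lit 0, nat_lit 0, nat_lit 0, nat_lit 0, nat_lit 0, false, false⟩,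
 nat_lit 0, nat_lit 19546, nat_lit 0, nat_lit 0, nat_lit 9347, nat_lit 14397, nat_lit 1679, nat_lit 0, nat_lit 0, nat_lit 0, nat_lit 0, nat_lit 0, nat_lit 0, nat_lit 0, nat_lit 0, nat_lit 0, nat_lit 0, nat_lit 4333475964, [],
 ⟨p026_k1, nat_lit 0, nat_lit 0, nat_lit 424, nat_lit 0, nat_lit 409043, [nat_lit 6250000000, nat_lit 9842000000], [], [nat_lit 31144118466, nat_lit 30562089660, nat_lit 33897707190, nat_lit 29647313276, nat_lit 33056560930, nat_lit 28529266704, nat_lit 36066836968, nat_lit 31601887232], nat_lit 1271250, nat_lit 1271250, nat_lit 490000, nat_lit 780000, nat_lit 0, nat_lit 490000, [nat_lit 1412500, nat_lit 1271250], [nat_lit 51, nat_lit 40, nat_lit 20, nat_lit 80, nat_lit 1, nat_lit 345, nat_lit 125, nat_lit 10]⟩, ⟨p026_k25, nat_lit 0, nat_lit 0, nat_lit 43, nat_lit 0, nat_lit 0, [nat_lit 6250000000, nat_lit 11872000000], [], [nat_lit 458277376, nat_lit 5354891836, nat_lit 0, nat_lit 4592706380,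 nat_lit 24498432420, nat_lit 27954313392, nat_lit 22540789780, nat_lit 25817208724], nat_lit 0, nat_lit 0, nat_lit 0, nat_lit 0, nat_lit 0, nat_lit 0, [], [nat_lit 107, nat_lit 40, nat_lit 20, nat_lit 80, nat_lit 12, nat_lit 401, nat_lit 175, nat_lit 10]⟩,
 zbF0, [⟨nat_lit 7, nat_lit 90, nat_lit 100, nat_lit 53, nat_lit 1756167631⟩]⟩
noncomputable def p026_l88 : Lf2 := ⟨nat_lit 0, nat_lit 5, [nat_lit 4, nat_lit 5, nat_lit 5, nat_lit 20], false, nat_lit 80, nat_lit 160, nat_lit 160, nat_lit 320, ⟨nat_lit 1000, nat_lit 0, nat_lit 0, nat_lit 0, nat_lit 0, nat_lit 0, nat_lit 0, nat_lit 0, nat_lit 0, nat_lit 0, nat_lit 0, nat_lit 0, nat_lit 0, nat_lit 0, nat_lit 0, nat_lit 0, false, false⟩,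
 nat_lit 0, nat_lit 14623, nat_lit 0, nat_lit 6588, nat_lit 6993, nat_lit 14397, nat_lit 3245, nat_lit 0, nat_lit 0, nat_lit 0, nat_lit 0, nat_lit 0, nat_lit 0, nat_lit 0, nat_lit 0, nat_lit 0, nat_lit 0, nat_lit 4333475964, [],
 ⟨p026_k1, nat_lit 0, nat_lit 0, nat_lit 306, nat_lit 0, nat_lit 409043, [nat_lit 6250000000, nat_lit 9842000000], [], [nat_lit 32119494898, nat_lit 28477694344, nat_lit 25210329018, nat_lit 25767349752, nat_lit 25309765956, nat_lit 25821381368, nat_lit 26612870026, nat_lit 25344559984], nat_lit 1271250, nat_lit 1271250, nat_lit 490000, nat_lit 780000, nat_lit 490000, nat_lit 1100001, [nat_lit 1412500, nat_lit 1271250], [nat_lit 51, nat_lit 40, nat_lit 20, nat_lit 80, nat_lit 1, nat_lit 373, nat_lit 150, nat_lit 11]⟩, ⟨p026_k25, nat_lit 0, nat_lit 0, nat_lit 43, nat_lit 0, nat_lit 0, [nat_lit 6250000000, nat_lit 11872000000], [], [nat_lit 458277376, nat_lit 5354891836, nat_lit 0, nat_lit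 4592706380, nat_lit 24498432420, nat_lit 27954313392, nat_lit 22540789780, nat_lit 25817208724], nat_lit 0, nat_lit 0, nat_lit 0, nat_lit 0, nat_lit 0, nat_lit 0, [], [nat_lit 107, nat_lit 40, nat_lit 20, nat_lit 80, nat_lit 12, nat_lit 401, nat_lit 175, nat_lit 10]⟩,
 zbF0, [⟨nat_lit 19, nat_lit 100, nat_lit 90, nat_lit 53, nat_lit 1756167631⟩]⟩
noncomputable def b_VL_500_500_5_6 : St := ⟨true, nat_lit 1, nat_lit 0, nat_lit 1, nat_lit 40, nat_lit 220, nat_lit 240, nat_lit 200, nat_lit 240, nat_lit 80, nat_lit 120, nat_lit 20, nat_lit 40, nat_lit 0, nat_lit 160, nat_lit 0, nat_lit 320, nat_lit 0, nat_lit 20, nat_lit 0, nat_lit 0, nat_lit 0, nat_lit 0⟩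
theorem d_VL_500_500_5_6 (h : EB TB.env) : Dead b_VL_500_500_5_6 := chkB_sound0 h (T :=
(.spl (nat_lit 5) (nat_lit 160)
(.spl (nat_lit 1) (nat_lit 220)
(.leaf p026_l85)
(.leaf p026_l86))
(.spl (nat_lit 4) (nat_lit 80)
(.leaf p026_l87)
(.leaf p026_l88)))) (by decide +kernel)
noncomputable def p026_l89 : Lf2 := ⟨nat_lit 0, nat_lit 5, [nat_lit 4, nat_lit 5, nat_lit 5, nat_lit 20], false, nat_lit 0, nat_lit 160, nat_lit 0, nat_lit 320, ⟨nat_lit 1000, nat_lit 0, nat_lit 0, nat_lit 0, nat_lit 0, nat_lit 0, nat_lit 0, nat_lit 0, nat_lit 0, nat_lit 0, nat_lit 0, nat_lit 0, nat_lit 0, nat_lit 0, nat_lit 0, nat_lit 0, false, false⟩,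
 nat_lit 0, nat_lit 11296, nat_lit 0, nat_lit 16142, nat_lit 5402, nat_lit 13344, nat_lit 2034, nat_lit 0, nat_lit 0, nat_lit 3149, nat_lit 0, nat_lit 0, nat_lit 0, nat_lit 0, nat_lit 0, nat_lit 0, nat_lit 0, nat_lit 0, [],
 ⟨p026_k9, nat_lit 0, nat_lit 0, nat_lit 235, nat_lit 0, nat_lit 200836, [nat_lit 6250000000, nat_lit 7968000001, nat_lit 9842000000], [], [nat_lit 37875553004, nat_lit 35019310328, nat_lit 33842701994, nat_lit 34399936754, nat_lit 29801174397, nat_lit 30333871569, nat_lit 37751369496, nat_lit 35170898920], nat_lit 1271250, nat_lit 1271250, nat_lit 780000, nat_lit 1762500, nat_lit 0, nat_lit 1100001, [nat_lit 1412500, nat_lit 1271250, nat_lit 1271250], [nat_lit 25, nat_lit 40, nat_lit 20, nat_lit 80, nat_lit 17, nat_lit 401, nat_lit 175, nat_lit 12]⟩, ⟨p026_k10, nat_lit 0, nat_lit 0, nat_lit 184, nat_lit 0, nat_lit 0, [nat_lit 6250000000, nat_lit 7968000000, nat_lit 11872000000], [], [nat_lit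 19489075657, nat_lit 21052547401, nat_lit 23445280201, nat_lit 24535027305, nat_lit 19040646281, nat_lit 19642711145, nat_lit 22033864576, nat_lit 23123611680], nat_lit 0, nat_lit 0, nat_lit 0, nat_lit 0, nat_lit 0, nat_lit 0, [], [nat_lit 53, nat_lit 40, nat_lit 20, nat_lit 80, nat_lit 14, nat_lit 428, nat_lit 200, nat_lit 11]⟩,
 zbF0, [⟨nat_lit 7, nat_lit 88, nat_lit 100, nat_lit 53, nat_lit 308436188⟩]⟩
noncomputable def p026_l90 : Lf2 := ⟨nat_lit 0, nat_lit 5, [nat_lit 4, nat_lit 5, nat_lit 5, nat_lit 20], false, nat_lit 0, nat_lit 160, nat_lit 0, nat_lit 304, ⟨nat_lit 1000, nat_lit 0, nat_lit 0, nat_lit 0, nat_lit 0, nat_lit 0, nat_lit 0, nat_lit 0, nat_lit 0, nat_lit 0, nat_lit 0, nat_lit 0, nat_lit 0, nat_lit 0, nat_lit 0, nat_lit 0, false, false⟩,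
 nat_lit 0, nat_lit 11007, nat_lit 0, nat_lit 0, nat_lit 5264, nat_lit 10239, nat_lit 2331, nat_lit 0, nat_lit 0, nat_lit 0, nat_lit 0, nat_lit 0, nat_lit 0, nat_lit 5592226392502, nat_lit 0, nat_lit 0, nat_lit 0, nat_lit 0, [],
 ⟨p026_k9, nat_lit 0, nat_lit 0, nat_lit 375, nat_lit 0, nat_lit 409043, [nat_lit 6250000000, nat_lit 7968000001, nat_lit 9842000000], [], [nat_lit 37738228928, nat_lit 34954952096, nat_lit 33672151646, nat_lit 34227263966, nat_lit 29670325214, nat_lit 30268157342, nat_lit 37768323072, nat_lit 35253773440], nat_lit 1271250, nat_lit 1271250, nat_lit 780000, nat_lit 1762500, nat_lit 0, nat_lit 1100001, [nat_lit 1412500, nat_lit 1271250, nat_lit 1271250], [nat_lit 25, nat_lit 40, nat_lit 20, nat_lit 80, nat_lit 17, nat_lit 401, nat_lit 175, nat_lit 12]⟩, ⟨p026_k9, nat_lit 0, nat_lit 0, nat_lit 88, nat_lit 0, nat_lit 0, [nat_lit 6250000000, nat_lit 7968000000, nat_lit 9842000000], [], [nat_lit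 10373011794, nat_lit 12565801292, nat_lit 17457373392, nat_lit 19360781456, nat_lit 16880531443, nat_lit 18340695710, nat_lit 20813824808, nat_lit 21869578872], nat_lit 0, nat_lit 0, nat_lit 0, nat_lit 0, nat_lit 0, nat_lit 0, [], [nat_lit 25, nat_lit 40, nat_lit 20, nat_lit 80, nat_lit 17, nat_lit 428, nat_lit 200, nat_lit 13]⟩,
 zbF0, [⟨nat_lit 19, nat_lit 100, nat_lit 93, nat_lit 53, nat_lit 521863905⟩]⟩
noncomputable def b_VL_500_500_5_7 : St := ⟨true, nat_lit 1, nat_lit 0, nat_lit 1, nat_lit 40, nat_lit 220, nat_lit 240, nat_lit 200, nat_lit 240, nat_lit 120, nat_lit 240, nat_lit 20, nat_lit 40, nat_lit 0, nat_lit 160, nat_lit 0, nat_lit 320, nat_lit 0, nat_lit 20, nat_lit 0, nat_lit 0, nat_lit 0, nat_lit 0⟩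
theorem d_VL_500_500_5_7 (h : EB TB.env) : Dead b_VL_500_500_5_7 := chkB_sound0 h (T :=
(.spl (nat_lit 1) (nat_lit 220)
(.leaf p026_l89)
(.trX (nat_lit 19) (nat_lit 100) (nat_lit 86) (nat_lit 60) (nat_lit 304) (.leaf p026_l90)))) (by decide +kernel)
noncomputable def p026_l91 : Lf2 := ⟨nat_lit 0, nat_lit 2, [nat_lit 10, nat_lit 5, nat_lit 5, nat_lit 20], true, nat_lit 160, nat_lit 180, nat_lit 0, nat_lit 320, ⟨nat_lit 0, nat_lit 0, nat_lit 1000, nat_lit 5, nat_lit 43, nat_lit 1000, nat_lit 101, nat_lit 1000, nat_lit 96267, nat_lit 291, nat_lit 17067, nat_lit 247, nat_lit 61591344, nat_lit 0, nat_lit 0, nat_lit 1678668, false, false⟩,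
 nat_lit 0, nat_lit 12783, nat_lit 0, nat_lit 0, nat_lit 6113, nat_lit 0, nat_lit 0, nat_lit 0, nat_lit 0, nat_lit 0, nat_lit 0, nat_lit 0, nat_lit 0, nat_lit 0, nat_lit 53, nat_lit 1000000, nat_lit 0, nat_lit 0, [(nat_lit 3, [(nat_lit 6, nat_lit 1000)])],
 ⟨p026_k24, nat_lit 0, nat_lit 0, nat_lit 203, nat_lit 0, nat_lit 45204, [nat_lit 2101142858, nat_lit 11600000], [], [nat_lit 9781814206, nat_lit 10155065998, nat_lit 8163506882, nat_lit 8536268344, nat_lit 10916995885, nat_lit 11273226715, nat_lit 9301529926, nat_lit 9657382062], nat_lit 1271250, nat_lit 1271250, nat_lit 0, nat_lit 111251, nat_lit 1100001, nat_lit 1271250, [nat_lit 1412500, nat_lit 1271250], [nat_lit 26, nat_lit 40, nat_lit 20, nat_lit 80, nat_lit 2, nat_lit 345, nat_lit 125, nat_lit 11]⟩, C1.Rw.none,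
 ⟨nat_lit 6614, nat_lit 6709, ⟨.ofNat (nat_lit 69221), .ofNat (nat_lit 112299), .ofNat (nat_lit 96019), .ofNat (nat_lit 139097), .ofNat (nat_lit 74168), .ofNat (nat_lit 116751), .ofNat (nat_lit 100940), .ofNat (nat_lit 143523)⟩, ⟨.ofNat (nat_lit 220898), .ofNat (nat_lit 263975), .ofNat (nat_lit 242336), .ofNat (nat_lit 285414), .ofNat (nat_lit 222080), .ofNat (nat_lit 264663), .ofNat (nat_lit 243497), .ofNat (nat_lit 286080)⟩⟩, [⟨nat_lit 0, nat_lit 100, nat_lit 100, nat_lit 25, nat_lit 507337679⟩]⟩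
noncomputable def p026_l92 : Lf2 := ⟨nat_lit 0, nat_lit 2, [nat_lit 10, nat_lit 5, nat_lit 5, nat_lit 20], true, nat_lit 160, nat_lit 180, nat_lit 0, nat_lit 320, ⟨nat_lit 0, nat_lit 0, nat_lit 1000, nat_lit 5, nat_lit 46, nat_lit 1000, nat_lit 102, nat_lit 1000, nat_lit 96267, nat_lit 291, nat_lit 19267, nat_lit 249, nat_lit 61418439, nat_lit 0, nat_lit 0, nat_lit 1729937, false, false⟩,
 nat_lit 0, nat_lit 12265, nat_lit 0, nat_lit 0, nat_lit 6020, nat_lit 0, nat_lit 0, nat_lit 0, nat_lit 0, nat_lit 0, nat_lit 0, nat_lit 0, nat_lit 0, nat_lit 0, nat_lit 53, nat_lit 1000000, nat_lit 0, nat_lit 0, [(nat_lit 3, [(nat_lit 6, nat_lit 1000)])],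
 ⟨p026_k26, nat_lit 0, nat_lit 0, nat_lit 204, nat_lit 0, nat_lit 92482, [nat_lit 2101142858, nat_lit 11600000], [], [nat_lit 10229160958, nat_lit 10599373138, nat_lit 8638845298, nat_lit 9008558778, nat_lit 11339933243, nat_lit 11693332548, nat_lit 9752474806, nat_lit 10105485803], nat_lit 1271250, nat_lit 1271250, nat_lit 0, nat_lit 111251, nat_lit 1100001, nat_lit 1271250, [nat_lit 1412500, nat_lit 1271250], [nat_lit 26, nat_lit 40, nat_lit 20, nat_lit 80, nat_lit 2, nat_lit 345, nat_lit 125, nat_lit 11]⟩, C1.Rw.none,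
 ⟨nat_lit 6519, nat_lit 6615, ⟨.ofNat (nat_lit 74168), .ofNat (nat_lit 116751), .ofNat (nat_lit 106294), .ofNat (nat_lit 148877), .ofNat (nat_lit 79059), .ofNat (nat_lit 121153), .ofNat (nat_lit 111156), .ofNat (nat_lit 153250)⟩, ⟨.ofNat (nat_lit 222080), .ofNat (nat_lit 264663), .ofNat (nat_lit 243497), .ofNat (nat_lit 286080), .ofNat (nat_lit 223228), .ofNat (nat_lit 265322), .ofNat (nat_lit 244626), .ofNat (nat_lit 286720)⟩⟩, [⟨nat_lit 0, nat_lit 100, nat_lit 100, nat_lit 30, nat_lit 499970545⟩]⟩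
noncomputable def p026_l93 : Lf2 := ⟨nat_lit 0, nat_lit 2, [nat_lit 10, nat_lit 5, nat_lit 5, nat_lit 20], true, nat_lit 180, nat_lit 200, nat_lit 0, nat_lit 308, ⟨nat_lit 0, nat_lit 0, nat_lit 1000, nat_lit 5, nat_lit 45, nat_lit 1000, nat_lit 119, nat_lit 1000, nat_lit 132017, nat_lit 304, nat_lit 18150, nat_lit 248, nat_lit 60104133, nat_lit 0, nat_lit 0, nat_lit 1982701, false, false⟩,
 nat_lit 0, nat_lit 12051, nat_lit 0, nat_lit 0, nat_lit 5763, nat_lit 0, nat_lit 1458, nat_lit 0, nat_lit 0, nat_lit 0, nat_lit 0, nat_lit 0, nat_lit 0, nat_lit 0, nat_lit 53, nat_lit 1000000, nat_lit 0, nat_lit 0, [(nat_lit 3, [(nat_lit 6, nat_lit 1000)])],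
 ⟨p026_k24, nat_lit 0, nat_lit 0, nat_lit 197, nat_lit 0, nat_lit 95287, [nat_lit 2101142858, nat_lit 11600000], [], [nat_lit 11178698235, nat_lit 11869847344, nat_lit 9670098301, nat_lit 10360417660, nat_lit 12285290864, nat_lit 12943964298, nat_lit 10779176519, nat_lit 11437234114], nat_lit 1271250, nat_lit 1271250, nat_lit 0, nat_lit 111251, nat_lit 1271250, nat_lit 1271250, [nat_lit 1412500, nat_lit 1271250], [nat_lit 26, nat_lit 40, nat_lit 20, nat_lit 80, nat_lit 2, nat_lit 345, nat_lit 125, nat_lit 11]⟩, C1.Rw.none,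
 ⟨nat_lit 6519, nat_lit 6709, ⟨.ofNat (nat_lit 69221), .ofNat (nat_lit 112299), .ofNat (nat_lit 101379), .ofNat (nat_lit 144456), .ofNat (nat_lit 79059), .ofNat (nat_lit 121153), .ofNat (nat_lit 111156), .ofNat (nat_lit 153250)⟩, ⟨.ofNat (nat_lit 263975), .ofNat (nat_lit 307053), .ofNat (nat_lit 285414), .ofNat (nat_lit 328491), .ofNat (nat_lit 265322), .ofNat (nat_lit 307416), .ofNat (nat_lit 286720), .ofNat (nat_lit 328814)⟩⟩, [⟨nat_lit 0, nat_lit 100, nat_lit 100, nat_lit 30, nat_lit 478845488⟩]⟩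
noncomputable def p026_l94 : Lf2 := ⟨nat_lit 1, nat_lit 5, [nat_lit 4, nat_lit 5, nat_lit 5, nat_lit 20], false, nat_lit 160, nat_lit 200, nat_lit 0, nat_lit 320, zbN0,
 nat_lit 0, nat_lit 0, nat_lit 0, nat_lit 0, nat_lit 0, nat_lit 0, nat_lit 0, nat_lit 0, nat_lit 0, nat_lit 0, nat_lit 0, nat_lit 0, nat_lit 0, nat_lit 0, nat_lit 0, nat_lit 0, nat_lit 0, nat_lit 0, [],
 C1.Rw.none, C1.Rw.none,
 zbF0, []⟩
noncomputable def p026_l95 : Lf2 := ⟨nat_lit 0, nat_lit 2, [nat_lit 10, nat_lit 5, nat_lit 5, nat_lit 20], true, nat_lit 160, nat_lit 200, nat_lit 0, nat_lit 320, ⟨nat_lit 0, nat_lit 0, nat_lit 1000, nat_lit 5, nat_lit 46, nat_lit 1000, nat_lit 111, nat_lit 1000, nat_lit 114817, nat_lit 298, nat_lit 20417, nat_lit 250, nat_lit 60688632, nat_lit 0, nat_lit 0, nat_lit 1880696, false, false⟩,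
 nat_lit 0, nat_lit 13844, nat_lit 0, nat_lit 0, nat_lit 6972, nat_lit 0, nat_lit 0, nat_lit 0, nat_lit 0, nat_lit 0, nat_lit 0, nat_lit 0, nat_lit 0, nat_lit 0, nat_lit 53, nat_lit 1000000, nat_lit 0, nat_lit 0, [(nat_lit 3, [(nat_lit 6, nat_lit 1000)])],
 ⟨p026_k14, nat_lit 0, nat_lit 0, nat_lit 202, nat_lit 0, nat_lit 95812, [nat_lit 2101142858, nat_lit 11600000], [], [nat_lit 10839303088, nat_lit 11522458672, nat_lit 10783557132, nat_lit 9347746688, nat_lit 14632560614, nat_lit 14338184280, nat_lit 14629059340, nat_lit 12853304884], nat_lit 1271250, nat_lit 1271250, nat_lit 0, nat_lit 111251, nat_lit 1100001, nat_lit 1442500, [nat_lit 1412500, nat_lit 1271250], [nat_lit 26, nat_lit 40, nat_lit 20, nat_lit 80, nat_lit 2, nat_lit 345, nat_lit 125, nat_lit 11]⟩, C1.Rw.none,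
 ⟨nat_lit 6324, nat_lit 6520, ⟨.ofNat (nat_lit 79059), .ofNat (nat_lit 121153), .ofNat (nat_lit 100457), .ofNat (nat_lit 142551), .ofNat (nat_lit 88677), .ofNat (nat_lit 129809), .ofNat (nat_lit 110045), .ofNat (nat_lit 151177)⟩, ⟨.ofNat (nat_lit 223228), .ofNat (nat_lit 307416), .ofNat (nat_lit 244626), .ofNat (nat_lit 328814), .ofNat (nat_lit 225423), .ofNat (nat_lit 307688), .ofNat (nat_lit 246791), .ofNat (nat_lit 329055)⟩⟩, [⟨nat_lit 0, nat_lit 100, nat_lit 98, nat_lit 30, nat_lit 106380999⟩]⟩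
noncomputable def p026_l96 : Lf2 := ⟨nat_lit 0, nat_lit 2, [nat_lit 10, nat_lit 5, nat_lit 5, nat_lit 20], true, nat_lit 160, nat_lit 180, nat_lit 0, nat_lit 304, ⟨nat_lit 0, nat_lit 0, nat_lit 1000, nat_lit 5, nat_lit 54, nat_lit 1000, nat_lit 102, nat_lit 1000, nat_lit 98817, nat_lit 292, nat_lit 28017, nat_lit 256, nat_lit 60923256, nat_lit 0, nat_lit 0, nat_lit 1875040, false, false⟩,
 nat_lit 0, nat_lit 14075, nat_lit 0, nat_lit 0, nat_lit 7088, nat_lit 0, nat_lit 0, nat_lit 0, nat_lit 0, nat_lit 0, nat_lit 0, nat_lit 0, nat_lit 0, nat_lit 34498746621125, nat_lit 53, nat_lit 1000000, nat_lit 0, nat_lit 0, [(nat_lit 3, [(nat_lit 6, nat_lit 1000)])],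
 ⟨p026_k14, nat_lit 0, nat_lit 0, nat_lit 203, nat_lit 0, nat_lit 138079, [nat_lit 2101142858, nat_lit 11600000], [], [nat_lit 10638893249, nat_lit 10545193470, nat_lit 10607048980, nat_lit 9691116356, nat_lit 12560976318, nat_lit 11991429329, nat_lit 12550377620, nat_lit 11641086452], nat_lit 1271250, nat_lit 1271250, nat_lit 21650, nat_lit 111251, nat_lit 1100001, nat_lit 1271250, [nat_lit 1412500, nat_lit 1271250], [nat_lit 26, nat_lit 40, nat_lit 20, nat_lit 80, nat_lit 2, nat_lit 345, nat_lit 125, nat_lit 11]⟩, C1.Rw.none,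
 ⟨nat_lit 6422, nat_lit 6520, ⟨.ofNat (nat_lit 108876), .ofNat (nat_lit 142551), .ofNat (nat_lit 124924), .ofNat (nat_lit 158599), .ofNat (nat_lit 113598), .ofNat (nat_lit 146886), .ofNat (nat_lit 129634), .ofNat (nat_lit 162923)⟩, ⟨.ofNat (nat_lit 223228), .ofNat (nat_lit 265322), .ofNat (nat_lit 244626), .ofNat (nat_lit 286720), .ofNat (nat_lit 224342), .ofNat (nat_lit 265953), .ofNat (nat_lit 245724), .ofNat (nat_lit 287334)⟩⟩, [⟨nat_lit 0, nat_lit 100, nat_lit 100, nat_lit 35, nat_lit 215888422⟩]⟩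
noncomputable def p026_l97 : Lf2 := ⟨nat_lit 0, nat_lit 2, [nat_lit 10, nat_lit 5, nat_lit 5, nat_lit 20], true, nat_lit 160, nat_lit 180, nat_lit 0, nat_lit 304, ⟨nat_lit 0, nat_lit 0, nat_lit 1000, nat_lit 5, nat_lit 56, nat_lit 1000, nat_lit 102, nat_lit 1000, nat_lit 98817, nat_lit 292, nat_lit 29400, nat_lit 257, nat_lit 60785703, nat_lit 0, nat_lit 0, nat_lit 1912600, false, false⟩,
 nat_lit 0, nat_lit 15055, nat_lit 0, nat_lit 0, nat_lit 7775, nat_lit 0, nat_lit 0, nat_lit 0, nat_lit 0, nat_lit 0, nat_lit 0, nat_lit 0, nat_lit 0, nat_lit 27227659782487, nat_lit 53, nat_lit 1000000, nat_lit 0, nat_lit 0, [(nat_lit 3, [(nat_lit 6, nat_lit 1000)])],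
 ⟨p026_k20, nat_lit 0, nat_lit 0, nat_lit 202, nat_lit 0, nat_lit 162834, [nat_lit 2101142858, nat_lit 11600000], [], [nat_lit 10646692018, nat_lit 10971528912, nat_lit 8556985841, nat_lit 8770827176, nat_lit 12165068802, nat_lit 12474634484, nat_lit 10629562766, nat_lit 10287348294], nat_lit 1271250, nat_lit 1271250, nat_lit 21650, nat_lit 111251, nat_lit 1100001, nat_lit 1271250, [nat_lit 1412500, nat_lit 1271250], [nat_lit 26, nat_lit 40, nat_lit 20, nat_lit 80, nat_lit 2, nat_lit 345, nat_lit 125, nat_lit 11]⟩, C1.Rw.none,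
 ⟨nat_lit 6363, nat_lit 6423, ⟨.ofNat (nat_lit 113598), .ofNat (nat_lit 146886), .ofNat (nat_lit 132842), .ofNat (nat_lit 166130), .ofNat (nat_lit 116408), .ofNat (nat_lit 149466), .ofNat (nat_lit 135644), .ofNat (nat_lit 168702)⟩, ⟨.ofNat (nat_lit 224342), .ofNat (nat_lit 265953), .ofNat (nat_lit 245724), .ofNat (nat_lit 287334), .ofNat (nat_lit 224995), .ofNat (nat_lit 266318), .ofNat (nat_lit 246368), .ofNat (nat_lit 287691)⟩⟩, [⟨nat_lit 0, nat_lit 100, nat_lit 100, nat_lit 38, nat_lit 789191330⟩]⟩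
noncomputable def p026_l98 : Lf2 := ⟨nat_lit 0, nat_lit 2, [nat_lit 10, nat_lit 5, nat_lit 5, nat_lit 20], true, nat_lit 160, nat_lit 180, nat_lit 0, nat_lit 304, ⟨nat_lit 0, nat_lit 0, nat_lit 1000, nat_lit 5, nat_lit 59, nat_lit 1000, nat_lit 103, nat_lit 1000, nat_lit 98817, nat_lit 292, nat_lit 33750, nat_lit 260, nat_lit 60602903, nat_lit 0, nat_lit 0, nat_lit 1962737, false, false⟩,
 nat_lit 0, nat_lit 14025, nat_lit 0, nat_lit 0, nat_lit 7352, nat_lit 0, nat_lit 0, nat_lit 0, nat_lit 0, nat_lit 0, nat_lit 0, nat_lit 0, nat_lit 0, nat_lit 25235720157810, nat_lit 53, nat_lit 1000000, nat_lit 0, nat_lit 0, [(nat_lit 3, [(nat_lit 6, nat_lit 1000)])],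
 ⟨p026_k27, nat_lit 0, nat_lit 0, nat_lit 200, nat_lit 0, nat_lit 178839, [nat_lit 2101142858, nat_lit 11600000], [], [nat_lit 10379968054, nat_lit 10589233703, nat_lit 8902712753, nat_lit 9049790208, nat_lit 11842498511, nat_lit 12042047069, nat_lit 10686483457, nat_lit 10498602648], nat_lit 1271250, nat_lit 1271250, nat_lit 43600, nat_lit 111251, nat_lit 1100001, nat_lit 1271250, [nat_lit 1412500, nat_lit 1271250], [nat_lit 26, nat_lit 40, nat_lit 20, nat_lit 80, nat_lit 2, nat_lit 345, nat_lit 125, nat_lit 11]⟩, C1.Rw.none,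
 ⟨nat_lit 6324, nat_lit 6364, ⟨.ofNat (nat_lit 124673), .ofNat (nat_lit 149466), .ofNat (nat_lit 146046), .ofNat (nat_lit 170839), .ofNat (nat_lit 126498), .ofNat (nat_lit 151177), .ofNat (nat_lit 147866), .ofNat (nat_lit 172545)⟩, ⟨.ofNat (nat_lit 224995), .ofNat (nat_lit 266318), .ofNat (nat_lit 246368), .ofNat (nat_lit 287691), .ofNat (nat_lit 225423), .ofNat (nat_lit 266555), .ofNat (nat_lit 246791), .ofNat (nat_lit 287923)⟩⟩, [⟨nat_lit 0, nat_lit 100, nat_lit 100, nat_lit 40, nat_lit 749393434⟩]⟩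
noncomputable def p026_l99 : Lf2 := ⟨nat_lit 0, nat_lit 2, [nat_lit 10, nat_lit 5, nat_lit 5, nat_lit 20], true, nat_lit 180, nat_lit 200, nat_lit 0, nat_lit 304, ⟨nat_lit 0, nat_lit 0, nat_lit 1000, nat_lit 5, nat_lit 56, nat_lit 1000, nat_lit 119, nat_lit 1000, nat_lit 132017, nat_lit 304, nat_lit 29400, nat_lit 257, nat_lit 59452336, nat_lit 0, nat_lit 0, nat_lit 2172462, false, false⟩,
 nat_lit 0, nat_lit 11778, nat_lit 0, nat_lit 0, nat_lit 5931, nat_lit 0, nat_lit 0, nat_lit 0, nat_lit 0, nat_lit 0, nat_lit 0, nat_lit 0, nat_lit 0, nat_lit 30083758021335, nat_lit 53, nat_lit 1000000, nat_lit 0, nat_lit 0, [(nat_lit 3, [(nat_lit 6, nat_lit 1000)])],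
 ⟨p026_k14, nat_lit 0, nat_lit 0, nat_lit 197, nat_lit 0, nat_lit 187172, [nat_lit 2101142858, nat_lit 11600000], [], [nat_lit 14055857111, nat_lit 12630033275, nat_lit 14105492064, nat_lit 12583763532, nat_lit 12929806753, nat_lit 13444818986, nat_lit 11917516423, nat_lit 12430896670], nat_lit 1271250, nat_lit 1271250, nat_lit 21650, nat_lit 111251, nat_lit 1271250, nat_lit 1271250, [nat_lit 1412500, nat_lit 1271250], [nat_lit 26, nat_lit 40, nat_lit 20, nat_lit 80, nat_lit 2, nat_lit 345, nat_lit 125, nat_lit 11]⟩, C1.Rw.none,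
 ⟨nat_lit 6324, nat_lit 6520, ⟨.ofNat (nat_lit 108876), .ofNat (nat_lit 142551), .ofNat (nat_lit 130274), .ofNat (nat_lit 163949), .ofNat (nat_lit 118272), .ofNat (nat_lit 151177), .ofNat (nat_lit 139640), .ofNat (nat_lit 172545)⟩, ⟨.ofNat (nat_lit 265322), .ofNat (nat_lit 307416), .ofNat (nat_lit 286720), .ofNat (nat_lit 328814), .ofNat (nat_lit 266555), .ofNat (nat_lit 307688), .ofNat (nat_lit 287923), .ofNat (nat_lit 329055)⟩⟩, [⟨nat_lit 0, nat_lit 100, nat_lit 100, nat_lit 32, nat_lit 249994558⟩]⟩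
noncomputable def p026_l100 : Lf2 := ⟨nat_lit 0, nat_lit 5, [nat_lit 4, nat_lit 5, nat_lit 5, nat_lit 20], true, nat_lit 160, nat_lit 200, nat_lit 0, nat_lit 320, ⟨nat_lit 0, nat_lit 0, nat_lit 1000, nat_lit 5, nat_lit 50, nat_lit 1000, nat_lit 111, nat_lit 1000, nat_lit 114817, nat_lit 298, nat_lit 24067, nat_lit 253, nat_lit 60466225, nat_lit 0, nat_lit 0, nat_lit 1947743, false, false⟩,
 nat_lit 0, nat_lit 16518, nat_lit 0, nat_lit 0, nat_lit 8319, nat_lit 0, nat_lit 0, nat_lit 0, nat_lit 0, nat_lit 0, nat_lit 0, nat_lit 0, nat_lit 0, nat_lit 22308356501787, nat_lit 113, nat_lit 978400, nat_lit 0, nat_lit 0, [(nat_lit 3, [(nat_lit 5, nat_lit 36), (nat_lit 6, nat_lit 964)])],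
 ⟨p026_k15, nat_lit 0, nat_lit 0, nat_lit 202, nat_lit 0, nat_lit 95399, [nat_lit 3320196115, nat_lit 22262400], [], [nat_lit 11872607823, nat_lit 12549925484, nat_lit 9563210379, nat_lit 10241977536, nat_lit 13951936612, nat_lit 14973954810, nat_lit 13095812228, nat_lit 12052826220], nat_lit 1271250, nat_lit 1271250, nat_lit 0, nat_lit 111251, nat_lit 1100001, nat_lit 1442500, [nat_lit 1412500, nat_lit 1271250], [nat_lit 51, nat_lit 40, nat_lit 20, nat_lit 80, nat_lit 1, nat_lit 345, nat_lit 125, nat_lit 10]⟩, C1.Rw.none,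
 ⟨nat_lit 6324, nat_lit 6520, ⟨.ofNat (nat_lit 79059), .ofNat (nat_lit 121153), .ofNat (nat_lit 121855), .ofNat (nat_lit 163949), .ofNat (nat_lit 88677), .ofNat (nat_lit 129809), .ofNat (nat_lit 131413), .ofNat (nat_lit 172545)⟩, ⟨.ofNat (nat_lit 223228), .ofNat (nat_lit 307416), .ofNat (nat_lit 244626), .ofNat (nat_lit 328814), .ofNat (nat_lit 225423), .ofNat (nat_lit 307688), .ofNat (nat_lit 246791), .ofNat (nat_lit 329055)⟩⟩, [⟨nat_lit 0, nat_lit 100, nat_lit 100, nat_lit 40, nat_lit 831717781⟩]⟩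
noncomputable def p026_l101 : Lf2 := ⟨nat_lit 0, nat_lit 5, [nat_lit 4, nat_lit 5, nat_lit 5, nat_lit 20], true, nat_lit 160, nat_lit 200, nat_lit 0, nat_lit 320, ⟨nat_lit 0, nat_lit 0, nat_lit 1000, nat_lit 5, nat_lit 62, nat_lit 1000, nat_lit 110, nat_lit 1000, nat_lit 114817, nat_lit 298, nat_lit 35267, nat_lit 261, nat_lit 59878006, nat_lit 0, nat_lit 0, nat_lit 2117777, false, false⟩,
 nat_lit 0, nat_lit 13072, nat_lit 0, nat_lit 0, nat_lit 6251, nat_lit 0, nat_lit 0, nat_lit 0, nat_lit 0, nat_lit 0, nat_lit 0, nat_lit 0, nat_lit 0, nat_lit 30445500477790, nat_lit 115, nat_lit 1000000, nat_lit 0, nat_lit 0, [(nat_lit 3, [(nat_lit 6, nat_lit 1000)])],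
 ⟨p026_k1, nat_lit 0, nat_lit 0, nat_lit 197, nat_lit 0, nat_lit 100096, [nat_lit 3341142858, nat_lit 23600000], [], [nat_lit 8006773106, nat_lit 8761341654, nat_lit 7084705202, nat_lit 7831767022, nat_lit 10305644255, nat_lit 10991347782, nat_lit 9367392562, nat_lit 10046455596], nat_lit 1271250, nat_lit 1271250, nat_lit 111251, nat_lit 230001, nat_lit 1100001, nat_lit 1442500, [nat_lit 1412500, nat_lit 1271250], [nat_lit 51, nat_lit 40, nat_lit 20, nat_lit 80, nat_lit 1, nat_lit 345, nat_lit 125, nat_lit 10]⟩, C1.Rw.none,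
 ⟨nat_lit 6519, nat_lit 6709, ⟨.ofNat (nat_lit 112299), .ofNat (nat_lit 155377), .ofNat (nat_lit 144456), .ofNat (nat_lit 187534), .ofNat (nat_lit 121153), .ofNat (nat_lit 163247), .ofNat (nat_lit 153250), .ofNat (nat_lit 195344)⟩, ⟨.ofNat (nat_lit 220898), .ofNat (nat_lit 307053), .ofNat (nat_lit 242336), .ofNat (nat_lit 328491), .ofNat (nat_lit 223228), .ofNat (nat_lit 307416), .ofNat (nat_lit 244626), .ofNat (nat_lit 328814)⟩⟩, []⟩
noncomputable def p026_l102 : Lf2 := ⟨nat_lit 0, nat_lit 5, [nat_lit 4, nat_lit 5, nat_lit 5, nat_lit 20], true, nat_lit 160, nat_lit 200, nat_lit 0, nat_lit 320, ⟨nat_lit 0, nat_lit 0, nat_lit 1000, nat_lit 5, nat_lit 65, nat_lit 1000, nat_lit 111, nat_lit 1000, nat_lit 114817, nat_lit 298, nat_lit 40017, nat_lit 264, nat_lit 59633656, nat_lit 0, nat_lit 0, nat_lit 2180832, false, false⟩,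
 nat_lit 0, nat_lit 17194, nat_lit 0, nat_lit 0, nat_lit 8659, nat_lit 0, nat_lit 0, nat_lit 0, nat_lit 0, nat_lit 0, nat_lit 0, nat_lit 0, nat_lit 0, nat_lit 39746831473802, nat_lit 115, nat_lit 1000000, nat_lit 0, nat_lit 0, [(nat_lit 3, [(nat_lit 6, nat_lit 1000)])],
 ⟨p026_k15, nat_lit 0, nat_lit 0, nat_lit 196, nat_lit 0, nat_lit 144843, [nat_lit 3341142858, nat_lit 23600000], [], [nat_lit 9327375919, nat_lit 9674206008, nat_lit 8361248627, nat_lit 8164823656, nat_lit 12661075994, nat_lit 11558361003, nat_lit 12869725154, nat_lit 11775071692], nat_lit 1271250, nat_lit 1271250, nat_lit 111251, nat_lit 230001, nat_lit 1100001, nat_lit 1442500, [nat_lit 1412500, nat_lit 1271250], [nat_lit 51, nat_lit 40, nat_lit 20, nat_lit 80, nat_lit 1, nat_lit 345, nat_lit 125, nat_lit 10]⟩, C1.Rw.none,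
 ⟨nat_lit 6422, nat_lit 6520, ⟨.ofNat (nat_lit 121153), .ofNat (nat_lit 163247), .ofNat (nat_lit 158599), .ofNat (nat_lit 200693), .ofNat (nat_lit 125505), .ofNat (nat_lit 167115), .ofNat (nat_lit 162923), .ofNat (nat_lit 204533)⟩, ⟨.ofNat (nat_lit 223228), .ofNat (nat_lit 307416), .ofNat (nat_lit 244626), .ofNat (nat_lit 328814), .ofNat (nat_lit 224342), .ofNat (nat_lit 307563), .ofNat (nat_lit 245724), .ofNat (nat_lit 328945)⟩⟩, []⟩
noncomputable def p026_l103 : Lf2 := ⟨nat_lit 0, nat_lit 5, [nat_lit 4, nat_lit 5, nat_lit 5, nat_lit 20], true, nat_lit 160, nat_lit 200, nat_lit 0, nat_lit 320, ⟨nat_lit 0, nat_lit 0, nat_lit 1000, nat_lit 5, nat_lit 68, nat_lit 1000, nat_lit 111, nat_lit 1000, nat_lit 114817, nat_lit 298, nat_lit 43350, nat_lit 266, nat_lit 59448396, nat_lit 0, nat_lit 0, nat_lit 2227898, false, false⟩,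
 nat_lit 0, nat_lit 14685, nat_lit 0, nat_lit 0, nat_lit 7584, nat_lit 0, nat_lit 113, nat_lit 0, nat_lit 0, nat_lit 0, nat_lit 0, nat_lit 0, nat_lit 0, nat_lit 36307095430499, nat_lit 115, nat_lit 1000000, nat_lit 0, nat_lit 0, [(nat_lit 3, [(nat_lit 6, nat_lit 1000)])],
 ⟨p026_k19, nat_lit 0, nat_lit 0, nat_lit 197, nat_lit 0, nat_lit 190672, [nat_lit 3341142858, nat_lit 23600000], [], [nat_lit 9907085320, nat_lit 10230371296, nat_lit 9065244484, nat_lit 8945953664, nat_lit 12949311028, nat_lit 11983496212, nat_lit 13198087892, nat_lit 12239333780], nat_lit 1271250, nat_lit 1271250, nat_lit 111251, nat_lit 230001, nat_lit 1100001, nat_lit 1442500, [nat_lit 1412500, nat_lit 1271250], [nat_lit 51, nat_lit 40, nat_lit 20, nat_lit 80, nat_lit 1, nat_lit 345, nat_lit 125, nat_lit 10]⟩, C1.Rw.none,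
 ⟨nat_lit 6324, nat_lit 6423, ⟨.ofNat (nat_lit 125505), .ofNat (nat_lit 167115), .ofNat (nat_lit 168268), .ofNat (nat_lit 209879), .ofNat (nat_lit 129809), .ofNat (nat_lit 170942), .ofNat (nat_lit 172545), .ofNat (nat_lit 213677)⟩, ⟨.ofNat (nat_lit 224342), .ofNat (nat_lit 307563), .ofNat (nat_lit 245724), .ofNat (nat_lit 328945), .ofNat (nat_lit 225423), .ofNat (nat_lit 307688), .ofNat (nat_lit 246791), .ofNat (nat_lit 329055)⟩⟩, []⟩
noncomputable def p026_l104 : Lf2 := ⟨nat_lit 0, nat_lit 5, [nat_lit 4, nat_lit 5, nat_lit 5, nat_lit 20], true, nat_lit 160, nat_lit 200, nat_lit 0, nat_lit 320, ⟨nat_lit 0, nat_lit 0, nat_lit 1000, nat_lit 5, nat_lit 91, nat_lit 1000, nat_lit 110, nat_lit 1000, nat_lit 114817, nat_lit 298, nat_lit 77067, nat_lit 283, nat_lit 57955914, nat_lit 0, nat_lit 0, nat_lit 2584528, false, false⟩,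
 nat_lit 0, nat_lit 19839, nat_lit 0, nat_lit 0, nat_lit 9488, nat_lit 0, nat_lit 0, nat_lit 0, nat_lit 0, nat_lit 0, nat_lit 0, nat_lit 0, nat_lit 0, nat_lit 29588472126198, nat_lit 115, nat_lit 1000000, nat_lit 0, nat_lit 0, [(nat_lit 3, [(nat_lit 6, nat_lit 1000)])],
 ⟨p026_k1, nat_lit 0, nat_lit 0, nat_lit 196, nat_lit 0, nat_lit 208593, [nat_lit 3341142858, nat_lit 23600000], [], [nat_lit 9502145620, nat_lit 7927642048, nat_lit 10744938132, nat_lit 6000065440, nat_lit 14276056500, nat_lit 10037212016, nat_lit 15656965828, nat_lit 10928213044], nat_lit 1271250, nat_lit 1271250, nat_lit 230001, nat_lit 490000, nat_lit 1100001, nat_lit 1442500, [nat_lit 1412500, nat_lit 1271250], [nat_lit 51, nat_lit 40, nat_lit 20, nat_lit 80, nat_lit 1, nat_lit 373, nat_lit 150, nat_lit 11]⟩, C1.Rw.none,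
 ⟨nat_lit 6324, nat_lit 6709, ⟨.ofNat (nat_lit 155377), .ofNat (nat_lit 241532), .ofNat (nat_lit 198253), .ofNat (nat_lit 284409), .ofNat (nat_lit 170942), .ofNat (nat_lit 253206), .ofNat (nat_lit 213677), .ofNat (nat_lit 295942)⟩, ⟨.ofNat (nat_lit 220898), .ofNat (nat_lit 307053), .ofNat (nat_lit 242336), .ofNat (nat_lit 328491), .ofNat (nat_lit 225423), .ofNat (nat_lit 307688), .ofNat (nat_lit 246791), .ofNat (nat_lit 329055)⟩⟩, []⟩
noncomputable def b_VL_500_500_5_8 : St := ⟨true, nat_lit 1, nat_lit 0, nat_lit 1, nat_lit 40, nat_lit 220, nat_lit 240, nat_lit 200, nat_lit 240, nat_lit 0, nat_lit 80, nat_lit 20, nat_lit 40, nat_lit 160, nat_lit 200, nat_lit 0, nat_lit 320, nat_lit 0, nat_lit 20, nat_lit 0, nat_lit 0, nat_lit 0, nat_lit 0⟩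
theorem d_VL_500_500_5_8 (h : EB TB.env) : Dead b_VL_500_500_5_8 := chkB_sound0 h (T :=
(.spl (nat_lit 2) (nat_lit 40)
(.spl (nat_lit 2) (nat_lit 20)
(.spl (nat_lit 0) (nat_lit 230)
(.ord (.spl (nat_lit 6) (nat_lit 8)
(.spl (nat_lit 4) (nat_lit 180)
(.spl (nat_lit 0) (nat_lit 225)
(.ord (.leaf p026_l91))
(.leaf p026_l92))
(.trX (nat_lit 23) (nat_lit 100) (nat_lit 86) (nat_lit 44) (nat_lit 308) (.leaf p026_l93)))
(.leaf p026_l94)))
(.spl (nat_lit 6) (nat_lit 8)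
(.spl (nat_lit 1) (nat_lit 220)
(.leaf p026_l95)
(.trZ (nat_lit 0) (nat_lit 100) (nat_lit 99) (nat_lit 25) (nat_lit 4) (.trX (nat_lit 19) (nat_lit 100) (nat_lit 86) (nat_lit 60) (nat_lit 304) (.spl (nat_lit 4) (nat_lit 180)
(.spl (nat_lit 0) (nat_lit 235)
(.ord (.leaf p026_l96))
(.spl (nat_lit 0) (nat_lit 238)
(.ord (.leaf p026_l97))
(.trZ (nat_lit 0) (nat_lit 100) (nat_lit 99) (nat_lit 29) (nat_lit 8) (.leaf p026_l98))))
(.leaf p026_l99)))))
(.leaf p026_l100)))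
(.spl (nat_lit 0) (nat_lit 230)
(.ord (.leaf p026_l101))
(.spl (nat_lit 0) (nat_lit 235)
(.ord (.leaf p026_l102))
(.leaf p026_l103))))
(.leaf p026_l104))) (by decide +kernel)
noncomputable def p026_l105 : Lf2 := ⟨nat_lit 0, nat_lit 5, [nat_lit 4, nat_lit 5, nat_lit 5, nat_lit 20], true, nat_lit 200, nat_lit 240, nat_lit 0, nat_lit 320, ⟨nat_lit 0, nat_lit 0, nat_lit 1000, nat_lit 5, nat_lit 70, nat_lit 1000, nat_lit 144, nat_lit 1000, nat_lit 194400, nat_lit 323, nat_lit 46817, nat_lit 268, nat_lit 56415132, nat_lit 0, nat_lit 0, nat_lit 2764494, false, false⟩,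
 nat_lit 0, nat_lit 11528, nat_lit 0, nat_lit 0, nat_lit 5513, nat_lit 0, nat_lit 165, nat_lit 0, nat_lit 0, nat_lit 0, nat_lit 0, nat_lit 0, nat_lit 0, nat_lit 25749548049894, nat_lit 115, nat_lit 1000000, nat_lit 0, nat_lit 0, [(nat_lit 3, [(nat_lit 6, nat_lit 1000)])],
 ⟨p026_k1, nat_lit 0, nat_lit 0, nat_lit 187, nat_lit 0, nat_lit 100096, [nat_lit 3341142858, nat_lit 23600000], [], [nat_lit 13310546092, nat_lit 13816991969, nat_lit 14807051053, nat_lit 13433230749, nat_lit 14989400904, nat_lit 15441220184, nat_lit 12602857586, nat_lit 13030682787], nat_lit 1271250, nat_lit 1271250, nat_lit 0, nat_lit 490000, nat_lit 1271250, nat_lit 1271250, [nat_lit 1412500, nat_lit 1271250], [nat_lit 51, nat_lit 40, nat_lit 20, nat_lit 80, nat_lit 1, nat_lit 373, nat_lit 150, nat_lit 11]⟩, C1.Rw.none,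
 ⟨nat_lit 6519, nat_lit 6709, ⟨.ofNat (nat_lit 69221), .ofNat (nat_lit 241532), .ofNat (nat_lit 101379), .ofNat (nat_lit 273690), .ofNat (nat_lit 79059), .ofNat (nat_lit 247435), .ofNat (nat_lit 111156), .ofNat (nat_lit 279532)⟩, ⟨.ofNat (nat_lit 307053), .ofNat (nat_lit 393209), .ofNat (nat_lit 328491), .ofNat (nat_lit 414647), .ofNat (nat_lit 307416), .ofNat (nat_lit 391604), .ofNat (nat_lit 328814), .ofNat (nat_lit 413002)⟩⟩, [⟨nat_lit 0, nat_lit 100, nat_lit 100, nat_lit 30, nat_lit 191573861⟩]⟩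
noncomputable def p026_l106 : Lf2 := ⟨nat_lit 0, nat_lit 2, [nat_lit 10, nat_lit 5, nat_lit 5, nat_lit 20], true, nat_lit 200, nat_lit 240, nat_lit 0, nat_lit 256, ⟨nat_lit 0, nat_lit 0, nat_lit 1000, nat_lit 5, nat_lit 43, nat_lit 1000, nat_lit 144, nat_lit 1000, nat_lit 194400, nat_lit 323, nat_lit 18150, nat_lit 248, nat_lit 57903854, nat_lit 0, nat_lit 0, nat_lit 2346661, false, false⟩,
 nat_lit 0, nat_lit 11226, nat_lit 0, nat_lit 0, nat_lit 5653, nat_lit 0, nat_lit 0, nat_lit 0, nat_lit 0, nat_lit 0, nat_lit 0, nat_lit 0, nat_lit 0, nat_lit 0, nat_lit 53, nat_lit 1000000, nat_lit 0, nat_lit 0, [(nat_lit 3, [(nat_lit 6, nat_lit 1000)])],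
 ⟨p026_k14, nat_lit 0, nat_lit 0, nat_lit 185, nat_lit 0, nat_lit 138079, [nat_lit 2101142858, nat_lit 11600000], [], [nat_lit 13593467682, nat_lit 13845986911, nat_lit 13115795500, nat_lit 13367907956, nat_lit 15525597726, nat_lit 15894258919, nat_lit 14769209924, nat_lit 15136497199], nat_lit 1271250, nat_lit 1271250, nat_lit 0, nat_lit 43600, nat_lit 1271250, nat_lit 1271250, [nat_lit 1412500, nat_lit 1271250], [nat_lit 26, nat_lit 40, nat_lit 20, nat_lit 80, nat_lit 2, nat_lit 345, nat_lit 125, nat_lit 11]⟩, C1.Rw.none,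
 ⟨nat_lit 6422, nat_lit 6520, ⟨.ofNat (nat_lit 79059), .ofNat (nat_lit 95896), .ofNat (nat_lit 116505), .ofNat (nat_lit 133343), .ofNat (nat_lit 83894), .ofNat (nat_lit 100538), .ofNat (nat_lit 121312), .ofNat (nat_lit 137956)⟩, ⟨.ofNat (nat_lit 307416), .ofNat (nat_lit 391604), .ofNat (nat_lit 328814), .ofNat (nat_lit 413002), .ofNat (nat_lit 307563), .ofNat (nat_lit 390784), .ofNat (nat_lit 328945), .ofNat (nat_lit 412166)⟩⟩, [⟨nat_lit 0, nat_lit 100, nat_lit 99, nat_lit 25, nat_lit 2950561182⟩]⟩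
noncomputable def p026_l107 : Lf2 := ⟨nat_lit 0, nat_lit 2, [nat_lit 10, nat_lit 5, nat_lit 5, nat_lit 20], true, nat_lit 200, nat_lit 240, nat_lit 0, nat_lit 288, ⟨nat_lit 0, nat_lit 0, nat_lit 1000, nat_lit 5, nat_lit 51, nat_lit 1000, nat_lit 144, nat_lit 1000, nat_lit 194400, nat_lit 323, nat_lit 24067, nat_lit 253, nat_lit 57518299, nat_lit 0, nat_lit 0, nat_lit 2464247, false, false⟩,
 nat_lit 0, nat_lit 11140, nat_lit 0, nat_lit 0, nat_lit 5610, nat_lit 0, nat_lit 0, nat_lit 0, nat_lit 0, nat_lit 0, nat_lit 0, nat_lit 0, nat_lit 0, nat_lit 23535238560885, nat_lit 53, nat_lit 1000000, nat_lit 0, nat_lit 0, [(nat_lit 3, [(nat_lit 6, nat_lit 1000)])],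
 ⟨p026_k14, nat_lit 0, nat_lit 0, nat_lit 180, nat_lit 0, nat_lit 118871, [nat_lit 2101142858, nat_lit 11600000], [], [nat_lit 13183707864, nat_lit 13334493707, nat_lit 12473805731, nat_lit 12624225649, nat_lit 14833024676, nat_lit 14969276404, nat_lit 14121807176, nat_lit 14257783875], nat_lit 1271250, nat_lit 1271250, nat_lit 43600, nat_lit 111251, nat_lit 1271250, nat_lit 1271250, [nat_lit 1412500, nat_lit 1271250], [nat_lit 26, nat_lit 40, nat_lit 20, nat_lit 80, nat_lit 2, nat_lit 345, nat_lit 125, nat_lit 11]⟩, C1.Rw.none,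
 ⟨nat_lit 6461, nat_lit 6520, ⟨.ofNat (nat_lit 95896), .ofNat (nat_lit 121153), .ofNat (nat_lit 131203), .ofNat (nat_lit 156460), .ofNat (nat_lit 98688), .ofNat (nat_lit 123770), .ofNat (nat_lit 133978), .ofNat (nat_lit 159060)⟩, ⟨.ofNat (nat_lit 307416), .ofNat (nat_lit 391604), .ofNat (nat_lit 328814), .ofNat (nat_lit 413002), .ofNat (nat_lit 307507), .ofNat (nat_lit 391113), .ofNat (nat_lit 328895), .ofNat (nat_lit 412501)⟩⟩, [⟨nat_lit 0, nat_lit 100, nat_lit 100, nat_lit 33, nat_lit 400168867⟩]⟩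
noncomputable def p026_l108 : Lf2 := ⟨nat_lit 0, nat_lit 2, [nat_lit 10, nat_lit 5, nat_lit 5, nat_lit 20], true, nat_lit 200, nat_lit 240, nat_lit 0, nat_lit 288, ⟨nat_lit 0, nat_lit 0, nat_lit 1000, nat_lit 5, nat_lit 52, nat_lit 1000, nat_lit 144, nat_lit 1000, nat_lit 194400, nat_lit 323, nat_lit 25350, nat_lit 254, nat_lit 57454827, nat_lit 0, nat_lit 0, nat_lit 2483829, false, false⟩,
 nat_lit 0, nat_lit 10916, nat_lit 0, nat_lit 0, nat_lit 5581, nat_lit 0, nat_lit 0, nat_lit 0, nat_lit 0, nat_lit 0, nat_lit 0, nat_lit 0, nat_lit 0, nat_lit 23189923959660, nat_lit 53, nat_lit 1000000, nat_lit 0, nat_lit 0, [(nat_lit 3, [(nat_lit 6, nat_lit 1000)])],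
 ⟨p026_k28, nat_lit 0, nat_lit 0, nat_lit 179, nat_lit 0, nat_lit 135717, [nat_lit 2101142858, nat_lit 11600000], [], [nat_lit 13379970248, nat_lit 13480277596, nat_lit 12674157610, nat_lit 12774221084, nat_lit 15012048228, nat_lit 15102705358, nat_lit 14304996808, nat_lit 14395470425], nat_lit 1271250, nat_lit 1271250, nat_lit 43600, nat_lit 111251, nat_lit 1271250, nat_lit 1271250, [nat_lit 1412500, nat_lit 1271250], [nat_lit 26, nat_lit 40, nat_lit 20, nat_lit 80, nat_lit 2, nat_lit 345, nat_lit 125, nat_lit 11]⟩, C1.Rw.none,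
 ⟨nat_lit 6422, nat_lit 6462, ⟨.ofNat (nat_lit 98688), .ofNat (nat_lit 123770), .ofNat (nat_lit 136117), .ofNat (nat_lit 161199), .ofNat (nat_lit 100538), .ofNat (nat_lit 125505), .ofNat (nat_lit 137956), .ofNat (nat_lit 162923)⟩, ⟨.ofNat (nat_lit 307507), .ofNat (nat_lit 391113), .ofNat (nat_lit 328895), .ofNat (nat_lit 412501), .ofNat (nat_lit 307563), .ofNat (nat_lit 390784), .ofNat (nat_lit 328945), .ofNat (nat_lit 412166)⟩⟩, [⟨nat_lit 0, nat_lit 100, nat_lit 100, nat_lit 35, nat_lit 398243012⟩]⟩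
noncomputable def p026_l109 : Lf2 := ⟨nat_lit 0, nat_lit 1, [nat_lit 19, nat_lit 5, nat_lit 5, nat_lit 20], true, nat_lit 200, nat_lit 240, nat_lit 0, nat_lit 288, ⟨nat_lit 0, nat_lit 0, nat_lit 1000, nat_lit 5, nat_lit 47, nat_lit 1000, nat_lit 144, nat_lit 1000, nat_lit 194400, nat_lit 323, nat_lit 20417, nat_lit 250, nat_lit 57737022, nat_lit 0, nat_lit 0, nat_lit 2400677, false, false⟩,
 nat_lit 0, nat_lit 10411, nat_lit 0, nat_lit 0, nat_lit 5377, nat_lit 0, nat_lit 0, nat_lit 0, nat_lit 0, nat_lit 0, nat_lit 0, nat_lit 0, nat_lit 0, nat_lit 0, nat_lit 53, nat_lit 1000000, nat_lit 0, nat_lit 0, [(nat_lit 3, [(nat_lit 6, nat_lit 1000)])],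
 ⟨p026_k29, nat_lit 0, nat_lit 0, nat_lit 179, nat_lit 0, nat_lit 91609, [nat_lit 2101142858, nat_lit 11600000], [], [nat_lit 14248467844, nat_lit 14495833532, nat_lit 13123943843, nat_lit 13370295634, nat_lit 15852998848, nat_lit 16076830408, nat_lit 14726340269, nat_lit 14949402500], nat_lit 1271250, nat_lit 1271250, nat_lit 0, nat_lit 111251, nat_lit 1271250, nat_lit 1271250, [nat_lit 1412500, nat_lit 1271250], [nat_lit 26, nat_lit 40, nat_lit 20, nat_lit 80, nat_lit 2, nat_lit 345, nat_lit 125, nat_lit 11]⟩, C1.Rw.none,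
 ⟨nat_lit 6324, nat_lit 6423, ⟨.ofNat (nat_lit 83894), .ofNat (nat_lit 125505), .ofNat (nat_lit 105276), .ofNat (nat_lit 146886), .ofNat (nat_lit 88677), .ofNat (nat_lit 129809), .ofNat (nat_lit 110045), .ofNat (nat_lit 151177)⟩, ⟨.ofNat (nat_lit 307563), .ofNat (nat_lit 390784), .ofNat (nat_lit 328945), .ofNat (nat_lit 412166), .ofNat (nat_lit 307688), .ofNat (nat_lit 389952), .ofNat (nat_lit 329055), .ofNat (nat_lit 411320)⟩⟩, [⟨nat_lit 0, nat_lit 100, nat_lit 98, nat_lit 30, nat_lit 388500525⟩]⟩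
noncomputable def p026_l110 : Lf2 := ⟨nat_lit 0, nat_lit 1, [nat_lit 19, nat_lit 5, nat_lit 5, nat_lit 20], false, nat_lit 200, nat_lit 240, nat_lit 0, nat_lit 160, ⟨nat_lit 1000, nat_lit 0, nat_lit 0, nat_lit 0, nat_lit 0, nat_lit 0, nat_lit 0, nat_lit 0, nat_lit 0, nat_lit 0, nat_lit 0, nat_lit 0, nat_lit 0, nat_lit 0, nat_lit 0, nat_lit 0, false, false⟩,
 nat_lit 0, nat_lit 21210, nat_lit 0, nat_lit 0, nat_lit 10954, nat_lit 9477, nat_lit 2791, nat_lit 0, nat_lit 0, nat_lit 6309, nat_lit 0, nat_lit 0, nat_lit 0, nat_lit 0, nat_lit 0, nat_lit 0, nat_lit 0, nat_lit 0, [],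
 ⟨p026_k29, nat_lit 0, nat_lit 0, nat_lit 184, nat_lit 0, nat_lit 178960, [nat_lit 6250000000, nat_lit 7968000000], [], [nat_lit 16333200560, nat_lit 16640113396, nat_lit 14287045942, nat_lit 14593498128, nat_lit 18546012147, nat_lit 19070504776, nat_lit 16098656906, nat_lit 16465971040], nat_lit 1271250, nat_lit 1271250, nat_lit 21650, nat_lit 111251, nat_lit 1271250, nat_lit 1271250, [nat_lit 1412500, nat_lit 1271250], [nat_lit 26, nat_lit 40, nat_lit 20, nat_lit 80, nat_lit 2, nat_lit 345, nat_lit 125, nat_lit 11]⟩, ⟨p026_k30, nat_lit 0, nat_lit 0, nat_lit 177, nat_lit 0, nat_lit 0, [nat_lit 6250000000, nat_lit 7968000000], [], [nat_lit 20276040264, nat_lit 22223139169, nat_lit 18176822192, nat_lit 19924798672, nat_lit 15188926589, nat_lit 16633229283, nat_lit 13451849446, nat_lit 14891534652], nat_lit 0, nat_lit 0, nat_lit 0, nat_lit 0, nat_lit 0, nat_lit 0, [], [nat_lit 26, nat_lit 40, nat_lit 20, nat_lit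 80, nat_lit 2, nat_lit 345, nat_lit 125, nat_lit 12]⟩,
 zbF0, [⟨nat_lit 0, nat_lit 100, nat_lit 99, nat_lit 34, nat_lit 2331396427⟩]⟩
noncomputable def p026_l111 : Lf2 := ⟨nat_lit 0, nat_lit 1, [nat_lit 19, nat_lit 5, nat_lit 5, nat_lit 20], true, nat_lit 200, nat_lit 220, nat_lit 160, nat_lit 288, ⟨nat_lit 0, nat_lit 0, nat_lit 1000, nat_lit 5, nat_lit 57, nat_lit 1000, nat_lit 136, nat_lit 1000, nat_lit 173400, nat_lit 317, nat_lit 30817, nat_lit 258, nat_lit 57951025, nat_lit 0, nat_lit 0, nat_lit 2438945, false, false⟩,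
 nat_lit 0, nat_lit 11593, nat_lit 0, nat_lit 0, nat_lit 5987, nat_lit 0, nat_lit 0, nat_lit 0, nat_lit 0, nat_lit 0, nat_lit 0, nat_lit 0, nat_lit 0, nat_lit 22704535494859, nat_lit 53, nat_lit 1000000, nat_lit 0, nat_lit 0, [(nat_lit 3, [(nat_lit 6, nat_lit 1000)])],
 ⟨p026_k29, nat_lit 0, nat_lit 0, nat_lit 184, nat_lit 0, nat_lit 178960, [nat_lit 2101142858, nat_lit 11600000], [], [nat_lit 13102782166, nat_lit 13464924996, nat_lit 12078204221, nat_lit 12335939374, nat_lit 14374393947, nat_lit 14775022112, nat_lit 12907589390, nat_lit 13152655497], nat_lit 1271250, nat_lit 1271250, nat_lit 21650, nat_lit 111251, nat_lit 1271250, nat_lit 1271250, [nat_lit 1412500, nat_lit 1271250], [nat_lit 26, nat_lit 40, nat_lit 20, nat_lit 80, nat_lit 2, nat_lit 345, nat_lit 125, nat_lit 11]⟩, C1.Rw.none,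
 ⟨nat_lit 6324, nat_lit 6423, ⟨.ofNat (nat_lit 113598), .ofNat (nat_lit 146886), .ofNat (nat_lit 134980), .ofNat (nat_lit 168268), .ofNat (nat_lit 118272), .ofNat (nat_lit 151177), .ofNat (nat_lit 139640), .ofNat (nat_lit 172545)⟩, ⟨.ofNat (nat_lit 307563), .ofNat (nat_lit 349174), .ofNat (nat_lit 328945), .ofNat (nat_lit 370555), .ofNat (nat_lit 307688), .ofNat (nat_lit 348820), .ofNat (nat_lit 329055), .ofNat (nat_lit 370188)⟩⟩, [⟨nat_lit 0, nat_lit 100, nat_lit 100, nat_lit 40, nat_lit 612823983⟩]⟩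
noncomputable def p026_l112 : Lf2 := ⟨nat_lit 0, nat_lit 1, [nat_lit 19, nat_lit 5, nat_lit 5, nat_lit 20], false, nat_lit 220, nat_lit 240, nat_lit 160, nat_lit 272, ⟨nat_lit 1000, nat_lit 0, nat_lit 0, nat_lit 0, nat_lit 0, nat_lit 0, nat_lit 0, nat_lit 0, nat_lit 0, nat_lit 0, nat_lit 0, nat_lit 0, nat_lit 0, nat_lit 0, nat_lit 0, nat_lit 0, false, false⟩,
 nat_lit 0, nat_lit 22088, nat_lit 0, nat_lit 0, nat_lit 11408, nat_lit 9685, nat_lit 3034, nat_lit 0, nat_lit 0, nat_lit 0, nat_lit 0, nat_lit 0, nat_lit 0, nat_lit 0, nat_lit 0, nat_lit 0, nat_lit 0, nat_lit 0, [],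
 ⟨p026_k29, nat_lit 0, nat_lit 0, nat_lit 174, nat_lit 0, nat_lit 178960, [nat_lit 6250000000, nat_lit 7968000000], [], [nat_lit 16883056971, nat_lit 17478970292, nat_lit 14282429897, nat_lit 14619556104, nat_lit 18782930090, nat_lit 19343378752, nat_lit 15551339312, nat_lit 16115111232], nat_lit 1271250, nat_lit 1271250, nat_lit 21650, nat_lit 111251, nat_lit 1271250, nat_lit 1271250, [nat_lit 1412500, nat_lit 1271250], [nat_lit 26, nat_lit 40, nat_lit 20, nat_lit 80, nat_lit 2, nat_lit 345, nat_lit 125, nat_lit 11]⟩, ⟨p026_k30, nat_lit 0, nat_lit 0, nat_lit 80, nat_lit 0, nat_lit 0, [nat_lit 6250000000, nat_lit 7968000000], [], [nat_lit 11485523785, nat_lit 13445384865, nat_lit 9315457880, nat_lit 11274778640, nat_lit 20894516013, nat_lit 22654062771, nat_lit 18562976506, nat_lit 19937410476], nat_lit 0, nat_lit 0, nat_lit 0, nat_lit 0, nat_lit 0, nat_lit 0, [], [nat_lit 26, nat_lit 40, nat_lit 20, nat_lit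 80, nat_lit 2, nat_lit 373, nat_lit 150, nat_lit 12]⟩,
 zbF0, [⟨nat_lit 0, nat_lit 100, nat_lit 100, nat_lit 40, nat_lit 975122366⟩, ⟨nat_lit 23, nat_lit 100, nat_lit 99, nat_lit 35, nat_lit 1712936573⟩]⟩
noncomputable def p026_l113 : Lf2 := ⟨nat_lit 0, nat_lit 2, [nat_lit 10, nat_lit 5, nat_lit 5, nat_lit 20], true, nat_lit 200, nat_lit 240, nat_lit 0, nat_lit 288, ⟨nat_lit 0, nat_lit 0, nat_lit 1000, nat_lit 5, nat_lit 51, nat_lit 1000, nat_lit 144, nat_lit 1000, nat_lit 194400, nat_lit 323, nat_lit 24067, nat_lit 253, nat_lit 57555374, nat_lit 0, nat_lit 0, nat_lit 2455088, false, false⟩,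
 nat_lit 0, nat_lit 11142, nat_lit 0, nat_lit 0, nat_lit 5754, nat_lit 0, nat_lit 0, nat_lit 0, nat_lit 0, nat_lit 0, nat_lit 0, nat_lit 0, nat_lit 0, nat_lit 0, nat_lit 53, nat_lit 1000000, nat_lit 0, nat_lit 0, [(nat_lit 3, [(nat_lit 6, nat_lit 1000)])],
 ⟨p026_k20, nat_lit 0, nat_lit 0, nat_lit 180, nat_lit 0, nat_lit 111181, [nat_lit 2101142858, nat_lit 11600000], [], [nat_lit 13698702222, nat_lit 13851345298, nat_lit 12477642470, nat_lit 12629674719, nat_lit 15959133542, nat_lit 16182341027, nat_lit 14114879822, nat_lit 14252178700], nat_lit 1271250, nat_lit 1271250, nat_lit 0, nat_lit 111251, nat_lit 1271250, nat_lit 1271250, [nat_lit 1412500, nat_lit 1271250], [nat_lit 26, nat_lit 40, nat_lit 20, nat_lit 80, nat_lit 2, nat_lit 345, nat_lit 125, nat_lit 11]⟩, C1.Rw.none,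
 ⟨nat_lit 6363, nat_lit 6423, ⟨.ofNat (nat_lit 83894), .ofNat (nat_lit 125505), .ofNat (nat_lit 124520), .ofNat (nat_lit 166130), .ofNat (nat_lit 86770), .ofNat (nat_lit 128093), .ofNat (nat_lit 127379), .ofNat (nat_lit 168702)⟩, ⟨.ofNat (nat_lit 307563), .ofNat (nat_lit 390784), .ofNat (nat_lit 328945), .ofNat (nat_lit 412166), .ofNat (nat_lit 307641), .ofNat (nat_lit 390286), .ofNat (nat_lit 329014), .ofNat (nat_lit 411659)⟩⟩, [⟨nat_lit 0, nat_lit 100, nat_lit 100, nat_lit 38, nat_lit 585489558⟩]⟩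
noncomputable def p026_l114 : Lf2 := ⟨nat_lit 0, nat_lit 2, [nat_lit 10, nat_lit 5, nat_lit 5, nat_lit 20], true, nat_lit 200, nat_lit 240, nat_lit 0, nat_lit 288, ⟨nat_lit 0, nat_lit 0, nat_lit 1000, nat_lit 5, nat_lit 52, nat_lit 1000, nat_lit 144, nat_lit 1000, nat_lit 194400, nat_lit 323, nat_lit 25350, nat_lit 254, nat_lit 57492015, nat_lit 0, nat_lit 0, nat_lit 2474756, false, false⟩,
 nat_lit 0, nat_lit 10919, nat_lit 0, nat_lit 0, nat_lit 5724, nat_lit 0, nat_lit 0, nat_lit 0, nat_lit 0, nat_lit 0, nat_lit 0, nat_lit 0, nat_lit 0, nat_lit 0, nat_lit 53, nat_lit 1000000, nat_lit 0, nat_lit 0, [(nat_lit 3, [(nat_lit 6, nat_lit 1000)])],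
 ⟨p026_k27, nat_lit 0, nat_lit 0, nat_lit 180, nat_lit 0, nat_lit 127992, [nat_lit 2101142858, nat_lit 11600000], [], [nat_lit 13894757125, nat_lit 13996295108, nat_lit 12680768634, nat_lit 12781899532, nat_lit 16162474079, nat_lit 16310880896, nat_lit 14300560576, nat_lit 14391909524], nat_lit 1271250, nat_lit 1271250, nat_lit 0, nat_lit 111251, nat_lit 1271250, nat_lit 1271250, [nat_lit 1412500, nat_lit 1271250], [nat_lit 26, nat_lit 40, nat_lit 20, nat_lit 80, nat_lit 2, nat_lit 345, nat_lit 125, nat_lit 11]⟩, C1.Rw.none,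
 ⟨nat_lit 6324, nat_lit 6364, ⟨.ofNat (nat_lit 86770), .ofNat (nat_lit 128093), .ofNat (nat_lit 129516), .ofNat (nat_lit 170839), .ofNat (nat_lit 88677), .ofNat (nat_lit 129809), .ofNat (nat_lit 131413), .ofNat (nat_lit 172545)⟩, ⟨.ofNat (nat_lit 307641), .ofNat (nat_lit 390286), .ofNat (nat_lit 329014), .ofNat (nat_lit 411659), .ofNat (nat_lit 307688), .ofNat (nat_lit 389952), .ofNat (nat_lit 329055), .ofNat (nat_lit 411320)⟩⟩, [⟨nat_lit 0, nat_lit 100, nat_lit 100, nat_lit 40, nat_lit 582318530⟩]⟩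
noncomputable def p026_l115 : Lf2 := ⟨nat_lit 0, nat_lit 2, [nat_lit 10, nat_lit 5, nat_lit 5, nat_lit 20], true, nat_lit 200, nat_lit 240, nat_lit 0, nat_lit 320, ⟨nat_lit 0, nat_lit 0, nat_lit 1000, nat_lit 5, nat_lit 65, nat_lit 1000, nat_lit 144, nat_lit 1000, nat_lit 194400, nat_lit 323, nat_lit 40017, nat_lit 264, nat_lit 56730469, nat_lit 0, nat_lit 0, nat_lit 2684603, false, false⟩,
 nat_lit 0, nat_lit 11162, nat_lit 0, nat_lit 0, nat_lit 5621, nat_lit 0, nat_lit 0, nat_lit 0, nat_lit 0, nat_lit 0, nat_lit 0, nat_lit 0, nat_lit 0, nat_lit 28994004542060, nat_lit 53, nat_lit 1000000, nat_lit 0, nat_lit 0, [(nat_lit 3, [(nat_lit 6, nat_lit 1000)])],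
 ⟨p026_k14, nat_lit 0, nat_lit 0, nat_lit 175, nat_lit 0, nat_lit 138079, [nat_lit 2101142858, nat_lit 11600000], [], [nat_lit 11566979727, nat_lit 11891986268, nat_lit 10751590656, nat_lit 11073471463, nat_lit 13698389279, nat_lit 13991765707, nat_lit 12868267610, nat_lit 13158916614], nat_lit 1271250, nat_lit 1271250, nat_lit 111251, nat_lit 230001, nat_lit 1271250, nat_lit 1271250, [nat_lit 1412500, nat_lit 1271250], [nat_lit 26, nat_lit 40, nat_lit 20, nat_lit 80, nat_lit 2, nat_lit 373, nat_lit 150, nat_lit 12]⟩, C1.Rw.none,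
 ⟨nat_lit 6422, nat_lit 6520, ⟨.ofNat (nat_lit 121153), .ofNat (nat_lit 163247), .ofNat (nat_lit 158599), .ofNat (nat_lit 200693), .ofNat (nat_lit 125505), .ofNat (nat_lit 167115), .ofNat (nat_lit 162923), .ofNat (nat_lit 204533)⟩, ⟨.ofNat (nat_lit 307416), .ofNat (nat_lit 391604), .ofNat (nat_lit 328814), .ofNat (nat_lit 413002), .ofNat (nat_lit 307563), .ofNat (nat_lit 390784), .ofNat (nat_lit 328945), .ofNat (nat_lit 412166)⟩⟩, []⟩
noncomputable def p026_l116 : Lf2 := ⟨nat_lit 0, nat_lit 2, [nat_lit 10, nat_lit 5, nat_lit 5, nat_lit 20], true, nat_lit 200, nat_lit 240, nat_lit 0, nat_lit 320, ⟨nat_lit 0, nat_lit 0, nat_lit 1000, nat_lit 5, nat_lit 67, nat_lit 1000, nat_lit 144, nat_lit 1000, nat_lit 194400, nat_lit 323, nat_lit 41667, nat_lit 265, nat_lit 56625189, nat_lit 0, nat_lit 0, nat_lit 2713327, false, false⟩,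
 nat_lit 0, nat_lit 11142, nat_lit 0, nat_lit 0, nat_lit 5754, nat_lit 0, nat_lit 0, nat_lit 0, nat_lit 0, nat_lit 0, nat_lit 0, nat_lit 0, nat_lit 0, nat_lit 0, nat_lit 53, nat_lit 1000000, nat_lit 0, nat_lit 0, [(nat_lit 3, [(nat_lit 6, nat_lit 1000)])],
 ⟨p026_k20, nat_lit 0, nat_lit 0, nat_lit 174, nat_lit 0, nat_lit 162834, [nat_lit 2101142858, nat_lit 11600000], [], [nat_lit 12477642470, nat_lit 12629674719, nat_lit 11794682637, nat_lit 11944804811, nat_lit 14114879822, nat_lit 14252178700, nat_lit 13414474767, nat_lit 13550102951], nat_lit 1271250, nat_lit 1271250, nat_lit 111251, nat_lit 230001, nat_lit 1271250, nat_lit 1271250, [nat_lit 1412500, nat_lit 1271250], [nat_lit 26, nat_lit 40, nat_lit 20, nat_lit 80, nat_lit 2, nat_lit 373, nat_lit 150, nat_lit 12]⟩, C1.Rw.none,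
 ⟨nat_lit 6363, nat_lit 6423, ⟨.ofNat (nat_lit 125505), .ofNat (nat_lit 167115), .ofNat (nat_lit 166130), .ofNat (nat_lit 207740), .ofNat (nat_lit 128093), .ofNat (nat_lit 169416), .ofNat (nat_lit 168702), .ofNat (nat_lit 210025)⟩, ⟨.ofNat (nat_lit 307563), .ofNat (nat_lit 390784), .ofNat (nat_lit 328945), .ofNat (nat_lit 412166), .ofNat (nat_lit 307641), .ofNat (nat_lit 390286), .ofNat (nat_lit 329014), .ofNat (nat_lit 411659)⟩⟩, []⟩
noncomputable def p026_l117 : Lf2 := ⟨nat_lit 0, nat_lit 1, [nat_lit 19, nat_lit 5, nat_lit 5, nat_lit 20], true, nat_lit 200, nat_lit 240, nat_lit 0, nat_lit 320, ⟨nat_lit 0, nat_lit 0, nat_lit 1000, nat_lit 5, nat_lit 68, nat_lit 1000, nat_lit 144, nat_lit 1000, nat_lit 194400, nat_lit 323, nat_lit 43350, nat_lit 266, nat_lit 56578768, nat_lit 0, nat_lit 0, nat_lit 2725928, false, false⟩,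
 nat_lit 0, nat_lit 10948, nat_lit 0, nat_lit 0, nat_lit 5739, nat_lit 0, nat_lit 0, nat_lit 0, nat_lit 0, nat_lit 0, nat_lit 0, nat_lit 0, nat_lit 0, nat_lit 28859112053753, nat_lit 53, nat_lit 1000000, nat_lit 0, nat_lit 0, [(nat_lit 3, [(nat_lit 6, nat_lit 1000)])],
 ⟨p026_k31, nat_lit 0, nat_lit 0, nat_lit 173, nat_lit 0, nat_lit 166794, [nat_lit 2101142858, nat_lit 11600000], [], [nat_lit 12655221677, nat_lit 12705843110, nat_lit 11972992738, nat_lit 12022978479, nat_lit 14276369638, nat_lit 14322090021, nat_lit 13576956758, nat_lit 13622121079], nat_lit 1271250, nat_lit 1271250, nat_lit 111251, nat_lit 230001, nat_lit 1271250, nat_lit 1271250, [nat_lit 1412500, nat_lit 1271250], [nat_lit 26, nat_lit 40, nat_lit 20, nat_lit 80, nat_lit 2, nat_lit 373, nat_lit 150, nat_lit 12]⟩, C1.Rw.none,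
 ⟨nat_lit 6344, nat_lit 6364, ⟨.ofNat (nat_lit 128093), .ofNat (nat_lit 169416), .ofNat (nat_lit 169771), .ofNat (nat_lit 211093), .ofNat (nat_lit 128952), .ofNat (nat_lit 170180), .ofNat (nat_lit 170625), .ofNat (nat_lit 211852)⟩, ⟨.ofNat (nat_lit 307641), .ofNat (nat_lit 390286), .ofNat (nat_lit 329014), .ofNat (nat_lit 411659), .ofNat (nat_lit 307665), .ofNat (nat_lit 390119), .ofNat (nat_lit 329035), .ofNat (nat_lit 411490)⟩⟩, []⟩
noncomputable def p026_l118 : Lf2 := ⟨nat_lit 0, nat_lit 1, [nat_lit 19, nat_lit 5, nat_lit 5, nat_lit 20], true, nat_lit 200, nat_lit 220, nat_lit 0, nat_lit 320, ⟨nat_lit 0, nat_lit 0, nat_lit 1000, nat_lit 5, nat_lit 69, nat_lit 1000, nat_lit 136, nat_lit 1000, nat_lit 173400, nat_lit 317, nat_lit 43350, nat_lit 266, nat_lit 57293249, nat_lit 0, nat_lit 0, nat_lit 2615553, false, false⟩,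
 nat_lit 0, nat_lit 11366, nat_lit 0, nat_lit 0, nat_lit 5987, nat_lit 0, nat_lit 0, nat_lit 0, nat_lit 0, nat_lit 0, nat_lit 0, nat_lit 0, nat_lit 0, nat_lit 29634643028135, nat_lit 53, nat_lit 1000000, nat_lit 0, nat_lit 0, [(nat_lit 3, [(nat_lit 6, nat_lit 1000)])],
 ⟨p026_k32, nat_lit 0, nat_lit 0, nat_lit 173, nat_lit 0, nat_lit 175012, [nat_lit 2101142858, nat_lit 11600000], [], [nat_lit 12284392344, nat_lit 12335939374, nat_lit 11557847151, nat_lit 11608741948, nat_lit 13103642276, nat_lit 13152655497, nat_lit 12368365251, nat_lit 12416767418], nat_lit 1271250, nat_lit 1271250, nat_lit 111251, nat_lit 230001, nat_lit 1271250, nat_lit 1271250, [nat_lit 1412500, nat_lit 1271250], [nat_lit 26, nat_lit 40, nat_lit 20, nat_lit 80, nat_lit 2, nat_lit 345, nat_lit 125, nat_lit 11]⟩, C1.Rw.none,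
 ⟨nat_lit 6324, nat_lit 6345, ⟨.ofNat (nat_lit 128952), .ofNat (nat_lit 170180), .ofNat (nat_lit 171693), .ofNat (nat_lit 212920), .ofNat (nat_lit 129809), .ofNat (nat_lit 170942), .ofNat (nat_lit 172545), .ofNat (nat_lit 213677)⟩, ⟨.ofNat (nat_lit 307665), .ofNat (nat_lit 348892), .ofNat (nat_lit 329035), .ofNat (nat_lit 370262), .ofNat (nat_lit 307688), .ofNat (nat_lit 348820), .ofNat (nat_lit 329055), .ofNat (nat_lit 370188)⟩⟩, []⟩
noncomputable def p026_l119 : Lf2 := ⟨nat_lit 0, nat_lit 1, [nat_lit 19, nat_lit 5, nat_lit 5, nat_lit 20], false, nat_lit 220, nat_lit 240, nat_lit 0, nat_lit 160, ⟨nat_lit 1000, nat_lit 0, nat_lit 0, nat_lit 0, nat_lit 0, nat_lit 0, nat_lit 0, nat_lit 0, nat_lit 0, nat_lit 0, nat_lit 0, nat_lit 0, nat_lit 0, nat_lit 0, nat_lit 0, nat_lit 0, false, false⟩,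
 nat_lit 0, nat_lit 21220, nat_lit 0, nat_lit 0, nat_lit 11178, nat_lit 10690, nat_lit 2696, nat_lit 0, nat_lit 0, nat_lit 0, nat_lit 0, nat_lit 0, nat_lit 0, nat_lit 25011312571200, nat_lit 0, nat_lit 0, nat_lit 0, nat_lit 0, [],
 ⟨p026_k32, nat_lit 0, nat_lit 0, nat_lit 163, nat_lit 0, nat_lit 175012, [nat_lit 6250000000, nat_lit 7968000000], [], [nat_lit 14932673551, nat_lit 14999317614, nat_lit 13279338068, nat_lit 13345053388, nat_lit 15984816790, nat_lit 16047183776, nat_lit 14318988596, nat_lit 14380496568], nat_lit 1271250, nat_lit 1271250, nat_lit 111251, nat_lit 230001, nat_lit 1271250, nat_lit 1271250, [nat_lit 1412500, nat_lit 1271250], [nat_lit 26, nat_lit 40, nat_lit 20, nat_lit 80, nat_lit 2, nat_lit 373, nat_lit 150, nat_lit 12]⟩, ⟨p026_k33, nat_lit 0, nat_lit 0, nat_lit 150, nat_lit 0, nat_lit 0, [nat_lit 6250000000, nat_lit 7968000000], [], [nat_lit 20550535840, nat_lit 23865827640, nat_lit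 18697795920, nat_lit 21980988400, nat_lit 14444664440, nat_lit 17160152840, nat_lit 12912952040, nat_lit 15591120800], nat_lit 0, nat_lit 0, nat_lit 0, nat_lit 0, nat_lit 0, nat_lit 0, [], [nat_lit 26, nat_lit 40, nat_lit 20, nat_lit 80, nat_lit 2, nat_lit 345, nat_lit 125, nat_lit 12]⟩,
 zbF0, []⟩
noncomputable def p026_l120 : Lf2 := ⟨nat_lit 0, nat_lit 1, [nat_lit 19, nat_lit 5, nat_lit 5, nat_lit 20], false, nat_lit 220, nat_lit 240, nat_lit 160, nat_lit 304, ⟨nat_lit 1000, nat_lit 0, nat_lit 0, nat_lit 0, nat_lit 0, nat_lit 0, nat_lit 0, nat_lit 0, nat_lit 0, nat_lit 0, nat_lit 0, nat_lit 0, nat_lit 0, nat_lit 0, nat_lit 0, nat_lit 0, false, false⟩,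
 nat_lit 0, nat_lit 21220, nat_lit 0, nat_lit 0, nat_lit 11178, nat_lit 8829, nat_lit 2696, nat_lit 0, nat_lit 0, nat_lit 0, nat_lit 0, nat_lit 0, nat_lit 0, nat_lit 15000428806364, nat_lit 0, nat_lit 0, nat_lit 0, nat_lit 0, [],
 ⟨p026_k32, nat_lit 0, nat_lit 0, nat_lit 163, nat_lit 0, nat_lit 175012, [nat_lit 6250000000, nat_lit 7968000000], [], [nat_lit 14932673551, nat_lit 14999317614, nat_lit 13279338068, nat_lit 13345053388, nat_lit 15984816790, nat_lit 16047183776, nat_lit 14318988596, nat_lit 14380496568], nat_lit 1271250, nat_lit 1271250, nat_lit 111251, nat_lit 230001, nat_lit 1271250, nat_lit 1271250, [nat_lit 1412500, nat_lit 1271250], [nat_lit 26, nat_lit 40, nat_lit 20, nat_lit 80, nat_lit 2, nat_lit 373, nat_lit 150, nat_lit 12]⟩, ⟨p026_k33, nat_lit 0, nat_lit 0, nat_lit 80, nat_lit 0, nat_lit 0, [nat_lit 6250000000, nat_lit 7968000000], [], [nat_lit 8440559008, nat_lit 12134764176, nat_lit 7011593616,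 nat_lit 10668264736, nat_lit 21205040141, nat_lit 23473839193, nat_lit 19638613778, nat_lit 21891527640], nat_lit 0, nat_lit 0, nat_lit 0, nat_lit 0, nat_lit 0, nat_lit 0, [], [nat_lit 26, nat_lit 40, nat_lit 20, nat_lit 80, nat_lit 2, nat_lit 373, nat_lit 150, nat_lit 12]⟩,
 zbF0, [⟨nat_lit 7, nat_lit 90, nat_lit 100, nat_lit 53, nat_lit 250445810⟩, ⟨nat_lit 11, nat_lit 100, nat_lit 100, nat_lit 55, nat_lit 875640159⟩]⟩
noncomputable def p026_l121 : Lf2 := ⟨nat_lit 0, nat_lit 2, [nat_lit 10, nat_lit 5, nat_lit 5, nat_lit 20], true, nat_lit 200, nat_lit 240, nat_lit 0, nat_lit 320, ⟨nat_lit 0, nat_lit 0, nat_lit 1000, nat_lit 5, nat_lit 68, nat_lit 1000, nat_lit 144, nat_lit 1000, nat_lit 194400, nat_lit 323, nat_lit 43350, nat_lit 266, nat_lit 56557552, nat_lit 0, nat_lit 0, nat_lit 2731549, false, false⟩,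
 nat_lit 0, nat_lit 10581, nat_lit 0, nat_lit 0, nat_lit 5546, nat_lit 0, nat_lit 0, nat_lit 0, nat_lit 0, nat_lit 0, nat_lit 0, nat_lit 0, nat_lit 0, nat_lit 27577069848268, nat_lit 53, nat_lit 1000000, nat_lit 0, nat_lit 0, [(nat_lit 3, [(nat_lit 6, nat_lit 1000)])],
 ⟨p026_k27, nat_lit 0, nat_lit 0, nat_lit 170, nat_lit 0, nat_lit 127992, [nat_lit 2101142858, nat_lit 11600000], [], [nat_lit 12152118715, nat_lit 12281271558, nat_lit 11347182558, nat_lit 11475094370, nat_lit 14221716189, nat_lit 14338350434, nat_lit 13402747737, nat_lit 13518298618], nat_lit 1271250, nat_lit 1271250, nat_lit 111251, nat_lit 230001, nat_lit 1271250, nat_lit 1271250, [nat_lit 1412500, nat_lit 1271250], [nat_lit 26, nat_lit 40, nat_lit 20, nat_lit 80, nat_lit 2, nat_lit 373, nat_lit 150, nat_lit 12]⟩, C1.Rw.none,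
 ⟨nat_lit 6324, nat_lit 6364, ⟨.ofNat (nat_lit 128093), .ofNat (nat_lit 169416), .ofNat (nat_lit 170839), .ofNat (nat_lit 212162), .ofNat (nat_lit 129809), .ofNat (nat_lit 170942), .ofNat (nat_lit 172545), .ofNat (nat_lit 213677)⟩, ⟨.ofNat (nat_lit 307641), .ofNat (nat_lit 390286), .ofNat (nat_lit 329014), .ofNat (nat_lit 411659), .ofNat (nat_lit 307688), .ofNat (nat_lit 389952), .ofNat (nat_lit 329055), .ofNat (nat_lit 411320)⟩⟩, []⟩
noncomputable def p026_l122 : Lf2 := ⟨nat_lit 0, nat_lit 5, [nat_lit 4, nat_lit 5, nat_lit 5, nat_lit 20], true, nat_lit 200, nat_lit 240, nat_lit 0, nat_lit 288, ⟨nat_lit 0, nat_lit 0, nat_lit 1000, nat_lit 5, nat_lit 50, nat_lit 1000, nat_lit 144, nat_lit 1000, nat_lit 194400, nat_lit 323, nat_lit 24067, nat_lit 253, nat_lit 57558300, nat_lit 0, nat_lit 0, nat_lit 2453693, false, false⟩,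
 nat_lit 0, nat_lit 11365, nat_lit 0, nat_lit 0, nat_lit 5723, nat_lit 0, nat_lit 111, nat_lit 0, nat_lit 0, nat_lit 0, nat_lit 0, nat_lit 0, nat_lit 0, nat_lit 19306006431256, nat_lit 115, nat_lit 1000000, nat_lit 0, nat_lit 0, [(nat_lit 3, [(nat_lit 6, nat_lit 1000)])],
 ⟨p026_k15, nat_lit 0, nat_lit 0, nat_lit 182, nat_lit 0, nat_lit 95399, [nat_lit 3341142858, nat_lit 23600000], [], [nat_lit 13783426949, nat_lit 14297543916, nat_lit 12277978031, nat_lit 12792196690, nat_lit 15568237666, nat_lit 16310205392, nat_lit 13936801994, nat_lit 14393516132], nat_lit 1271250, nat_lit 1271250, nat_lit 0, nat_lit 111251, nat_lit 1271250, nat_lit 1271250, [nat_lit 1412500, nat_lit 1271250], [nat_lit 51, nat_lit 40, nat_lit 20, nat_lit 80, nat_lit 1, nat_lit 345, nat_lit 125, nat_lit 10]⟩, C1.Rw.none,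
 ⟨nat_lit 6324, nat_lit 6520, ⟨.ofNat (nat_lit 79059), .ofNat (nat_lit 121153), .ofNat (nat_lit 121855), .ofNat (nat_lit 163949), .ofNat (nat_lit 88677), .ofNat (nat_lit 129809), .ofNat (nat_lit 131413), .ofNat (nat_lit 172545)⟩, ⟨.ofNat (nat_lit 307416), .ofNat (nat_lit 391604), .ofNat (nat_lit 328814), .ofNat (nat_lit 413002), .ofNat (nat_lit 307688), .ofNat (nat_lit 389952), .ofNat (nat_lit 329055), .ofNat (nat_lit 411320)⟩⟩, [⟨nat_lit 0, nat_lit 100, nat_lit 100, nat_lit 40, nat_lit 581105136⟩]⟩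
noncomputable def p026_l123 : Lf2 := ⟨nat_lit 0, nat_lit 5, [nat_lit 4, nat_lit 5, nat_lit 5, nat_lit 20], true, nat_lit 200, nat_lit 240, nat_lit 0, nat_lit 320, ⟨nat_lit 0, nat_lit 0, nat_lit 1000, nat_lit 5, nat_lit 67, nat_lit 1000, nat_lit 144, nat_lit 1000, nat_lit 194400, nat_lit 323, nat_lit 41667, nat_lit 265, nat_lit 56625621, nat_lit 0, nat_lit 0, nat_lit 2712830, false, false⟩,
 nat_lit 0, nat_lit 11365, nat_lit 0, nat_lit 0, nat_lit 5723, nat_lit 0, nat_lit 111, nat_lit 0, nat_lit 0, nat_lit 0, nat_lit 0, nat_lit 0, nat_lit 0, nat_lit 28359452365074, nat_lit 115, nat_lit 1000000, nat_lit 0, nat_lit 0, [(nat_lit 3, [(nat_lit 6, nat_lit 1000)])],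
 ⟨p026_k15, nat_lit 0, nat_lit 0, nat_lit 172, nat_lit 0, nat_lit 95399, [nat_lit 3341142858, nat_lit 23600000], [], [nat_lit 12277978031, nat_lit 12792196690, nat_lit 11779795802, nat_lit 12102914044, nat_lit 13936801994, nat_lit 14393516132, nat_lit 13244670877, nat_lit 13695833304], nat_lit 1271250, nat_lit 1271250, nat_lit 111251, nat_lit 230001, nat_lit 1271250, nat_lit 1271250, [nat_lit 1412500, nat_lit 1271250], [nat_lit 51, nat_lit 40, nat_lit 20, nat_lit 80, nat_lit 1, nat_lit 373, nat_lit 150, nat_lit 11]⟩, C1.Rw.none,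
 ⟨nat_lit 6324, nat_lit 6520, ⟨.ofNat (nat_lit 121153), .ofNat (nat_lit 163247), .ofNat (nat_lit 163949), .ofNat (nat_lit 206043), .ofNat (nat_lit 129809), .ofNat (nat_lit 170942), .ofNat (nat_lit 172545), .ofNat (nat_lit 213677)⟩, ⟨.ofNat (nat_lit 307416), .ofNat (nat_lit 391604), .ofNat (nat_lit 328814), .ofNat (nat_lit 413002), .ofNat (nat_lit 307688), .ofNat (nat_lit 389952), .ofNat (nat_lit 329055), .ofNat (nat_lit 411320)⟩⟩, []⟩
noncomputable def p026_l124 : Lf2 := ⟨nat_lit 0, nat_lit 5, [nat_lit 4, nat_lit 5, nat_lit 5, nat_lit 20], true, nat_lit 200, nat_lit 240, nat_lit 0, nat_lit 320, ⟨nat_lit 0, nat_lit 0, nat_lit 1000, nat_lit 5, nat_lit 92, nat_lit 1000, nat_lit 144, nat_lit 1000, nat_lit 194400, nat_lit 323, nat_lit 79350, nat_lit 284, nat_lit 55017798, nat_lit 0, nat_lit 0, nat_lit 3095074, false, false⟩,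
 nat_lit 0, nat_lit 11856, nat_lit 0, nat_lit 0, nat_lit 5971, nat_lit 0, nat_lit 154, nat_lit 0, nat_lit 0, nat_lit 0, nat_lit 0, nat_lit 0, nat_lit 0, nat_lit 31465190513329, nat_lit 115, nat_lit 1000000, nat_lit 0, nat_lit 0, [(nat_lit 3, [(nat_lit 6, nat_lit 1000)])],
 ⟨p026_k15, nat_lit 0, nat_lit 0, nat_lit 170, nat_lit 0, nat_lit 196342, [nat_lit 3341142858, nat_lit 23600000], [], [nat_lit 11312980938, nat_lit 11638691772, nat_lit 12589252394, nat_lit 11101300092, nat_lit 12794726213, nat_lit 13253340792, nat_lit 12088561673, nat_lit 12529200340], nat_lit 1271250, nat_lit 1271250, nat_lit 230001, nat_lit 490000, nat_lit 1271250, nat_lit 1271250, [nat_lit 1412500, nat_lit 1271250], [nat_lit 51, nat_lit 40, nat_lit 20, nat_lit 80, nat_lit 1, nat_lit 373, nat_lit 150, nat_lit 10]⟩, C1.Rw.none,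
 ⟨nat_lit 6324, nat_lit 6520, ⟨.ofNat (nat_lit 163247), .ofNat (nat_lit 247435), .ofNat (nat_lit 206043), .ofNat (nat_lit 290231), .ofNat (nat_lit 170942), .ofNat (nat_lit 253206), .ofNat (nat_lit 213677), .ofNat (nat_lit 295942)⟩, ⟨.ofNat (nat_lit 307416), .ofNat (nat_lit 391604), .ofNat (nat_lit 328814), .ofNat (nat_lit 413002), .ofNat (nat_lit 307688), .ofNat (nat_lit 389952), .ofNat (nat_lit 329055), .ofNat (nat_lit 411320)⟩⟩, []⟩
noncomputable def b_VL_500_500_5_9 : St := ⟨true, nat_lit 1, nat_lit 0, nat_lit 1, nat_lit 40, nat_lit 220, nat_lit 240, nat_lit 200, nat_lit 240, nat_lit 0, nat_lit 80, nat_lit 20, nat_lit 40, nat_lit 200, nat_lit 240, nat_lit 0, nat_lit 320, nat_lit 0, nat_lit 20, nat_lit 0, nat_lit 0, nat_lit 0, nat_lit 0⟩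
theorem d_VL_500_500_5_9 (h : EB TB.env) : Dead b_VL_500_500_5_9 := chkB_sound0 h (T :=
(.spl (nat_lit 0) (nat_lit 230)
(.ord (.leaf p026_l105))
(.spl (nat_lit 2) (nat_lit 40)
(.spl (nat_lit 6) (nat_lit 8)
(.spl (nat_lit 2) (nat_lit 20)
(.trX (nat_lit 23) (nat_lit 100) (nat_lit 90) (nat_lit 44) (nat_lit 288) (.spl (nat_lit 0) (nat_lit 235)
(.ord (.spl (nat_lit 2) (nat_lit 8)
(.trX (nat_lit 23) (nat_lit 100) (nat_lit 96) (nat_lit 28) (nat_lit 256) (.leaf p026_l106))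
(.spl (nat_lit 0) (nat_lit 233)
(.ord (.leaf p026_l107))
(.leaf p026_l108))))
(.spl (nat_lit 6) (nat_lit 4)
(.spl (nat_lit 1) (nat_lit 220)
(.leaf p026_l109)
(.trZ (nat_lit 0) (nat_lit 100) (nat_lit 99) (nat_lit 27) (nat_lit 4) (.spl (nat_lit 5) (nat_lit 160)
(.leaf p026_l110)
(.spl (nat_lit 4) (nat_lit 220)
(.leaf p026_l111)
(.trX (nat_lit 23) (nat_lit 100) (nat_lit 94) (nat_lit 44) (nat_lit 272) (.leaf p026_l112))))))
(.spl (nat_lit 0) (nat_lit 238)
(.ord (.leaf p026_l113))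
(.leaf p026_l114)))))
(.spl (nat_lit 0) (nat_lit 235)
(.ord (.leaf p026_l115))
(.spl (nat_lit 0) (nat_lit 238)
(.ord (.leaf p026_l116))
(.spl (nat_lit 6) (nat_lit 4)
(.spl (nat_lit 0) (nat_lit 239)
(.ord (.leaf p026_l117))
(.spl (nat_lit 4) (nat_lit 220)
(.leaf p026_l118)
(.trX (nat_lit 23) (nat_lit 100) (nat_lit 86) (nat_lit 60) (nat_lit 304) (.spl (nat_lit 5) (nat_lit 160)
(.leaf p026_l119)
(.leaf p026_l120)))))
(.leaf p026_l121)))))
(.spl (nat_lit 2) (nat_lit 20)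
(.trX (nat_lit 23) (nat_lit 100) (nat_lit 90) (nat_lit 44) (nat_lit 288) (.leaf p026_l122))
(.leaf p026_l123)))
(.leaf p026_l124)))) (by decide +kernel)
noncomputable def p026_l125 : Lf2 := ⟨nat_lit 0, nat_lit 5, [nat_lit 4, nat_lit 5, nat_lit 5, nat_lit 20], false, nat_lit 160, nat_lit 240, nat_lit 0, nat_lit 160, ⟨nat_lit 1000, nat_lit 0, nat_lit 0, nat_lit 0, nat_lit 0, nat_lit 0, nat_lit 0, nat_lit 0, nat_lit 0, nat_lit 0, nat_lit 0, nat_lit 0, nat_lit 0, nat_lit 0, nat_lit 0, nat_lit 0, false, false⟩,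
 nat_lit 0, nat_lit 19089, nat_lit 0, nat_lit 0, nat_lit 9129, nat_lit 18510, nat_lit 0, nat_lit 0, nat_lit 0, nat_lit 6317, nat_lit 0, nat_lit 0, nat_lit 0, nat_lit 25319719318248, nat_lit 0, nat_lit 0, nat_lit 0, nat_lit 4558622720, [],
 ⟨p026_k9, nat_lit 0, nat_lit 0, nat_lit 245, nat_lit 0, nat_lit 409043, [nat_lit 6250000000, nat_lit 7968000001, nat_lit 9842000000], [], [nat_lit 21622843028, nat_lit 21744016704, nat_lit 24208336378, nat_lit 21181471000, nat_lit 31178897330, nat_lit 26694531692, nat_lit 34022467510, nat_lit 29600763328], nat_lit 1271250, nat_lit 1271250, nat_lit 490000, nat_lit 780000, nat_lit 1100001, nat_lit 1785000, [nat_lit 1412500, nat_lit 1271250, nat_lit 1271250], [nat_lit 25, nat_lit 40, nat_lit 20, nat_lit 80, nat_lit 17, nat_lit 373, nat_lit 150, nat_lit 11]⟩, ⟨p026_k10, nat_lit 0, nat_lit 0, nat_lit 215, nat_lit 0, nat_lit 0, [nat_lit 6250000000, nat_lit 7968000000, nat_lit 11872000000],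 [], [nat_lit 16936700825, nat_lit 21021093280, nat_lit 14160077625, nat_lit 19005288840, nat_lit 1252652480, nat_lit 6381408840, nat_lit 0, nat_lit 4792392360], nat_lit 0, nat_lit 0, nat_lit 0, nat_lit 0, nat_lit 0, nat_lit 0, [], [nat_lit 53, nat_lit 40, nat_lit 20, nat_lit 80, nat_lit 14, nat_lit 373, nat_lit 150, nat_lit 10]⟩,
 zbF0, []⟩
noncomputable def p026_l126 : Lf2 := ⟨nat_lit 0, nat_lit 5, [nat_lit 4, nat_lit 5, nat_lit 5, nat_lit 20], false, nat_lit 160, nat_lit 200, nat_lit 160, nat_lit 320, ⟨nat_lit 1000, nat_lit 0, nat_lit 0, nat_lit 0, nat_lit 0, nat_lit 0, nat_lit 0, nat_lit 0, nat_lit 0, nat_lit 0, nat_lit 0, nat_lit 0, nat_lit 0, nat_lit 0, nat_lit 0, nat_lit 0, false, false⟩,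
 nat_lit 0, nat_lit 19695, nat_lit 0, nat_lit 0, nat_lit 9419, nat_lit 14397, nat_lit 440, nat_lit 0, nat_lit 0, nat_lit 0, nat_lit 0, nat_lit 0, nat_lit 0, nat_lit 0, nat_lit 0, nat_lit 0, nat_lit 0, nat_lit 4333475964, [],
 ⟨p026_k9, nat_lit 0, nat_lit 0, nat_lit 241, nat_lit 0, nat_lit 409043, [nat_lit 6250000000, nat_lit 7968000001, nat_lit 9842000000], [], [nat_lit 21251101308, nat_lit 20132017744, nat_lit 23881878158, nat_lit 19525631000, nat_lit 26137370131, nat_lit 21444413038, nat_lit 28901284546, nat_lit 24273522628], nat_lit 1271250, nat_lit 1271250, nat_lit 490000, nat_lit 780000, nat_lit 1100001, nat_lit 1442500, [nat_lit 1412500, nat_lit 1271250, nat_lit 1271250], [nat_lit 25, nat_lit 40, nat_lit 20, nat_lit 80, nat_lit 17, nat_lit 373, nat_lit 150, nat_lit 11]⟩, ⟨p026_k10, nat_lit 0, nat_lit 0, nat_lit 55, nat_lit 0, nat_lit 0, [nat_lit 6250000000, nat_lit 7968000000, nat_lit 11872000000], [],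 [nat_lit 458277376, nat_lit 5354891836, nat_lit 0, nat_lit 4592706380, nat_lit 24498432420, nat_lit 27954313392, nat_lit 22540789780, nat_lit 25817208724], nat_lit 0, nat_lit 0, nat_lit 0, nat_lit 0, nat_lit 0, nat_lit 0, [], [nat_lit 53, nat_lit 40, nat_lit 20, nat_lit 80, nat_lit 14, nat_lit 401, nat_lit 175, nat_lit 10]⟩,
 zbF0, [⟨nat_lit 7, nat_lit 90, nat_lit 100, nat_lit 53, nat_lit 1756167631⟩]⟩
noncomputable def p026_l127 : Lf2 := ⟨nat_lit 0, nat_lit 5, [nat_lit 4, nat_lit 5, nat_lit 5, nat_lit 20], false, nat_lit 200, nat_lit 240, nat_lit 160, nat_lit 320, ⟨nat_lit 1000, nat_lit 0, nat_lit 0, nat_lit 0, nat_lit 0, nat_lit 0, nat_lit 0, nat_lit 0, nat_lit 0, nat_lit 0, nat_lit 0, nat_lit 0, nat_lit 0, nat_lit 0, nat_lit 0, nat_lit 0, false, false⟩,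
 nat_lit 0, nat_lit 25519, nat_lit 0, nat_lit 0, nat_lit 12204, nat_lit 29134, nat_lit 5639, nat_lit 0, nat_lit 0, nat_lit 0, nat_lit 0, nat_lit 0, nat_lit 0, nat_lit 0, nat_lit 0, nat_lit 0, nat_lit 0, nat_lit 23187853360, [],
 ⟨p026_k9, nat_lit 0, nat_lit 0, nat_lit 245, nat_lit 0, nat_lit 409043, [nat_lit 6250000000, nat_lit 7968000001, nat_lit 9842000000], [], [nat_lit 14562315596, nat_lit 8479927424, nat_lit 17800473736, nat_lit 11804380048, nat_lit 9069769960, nat_lit 10299808576, nat_lit 8227872176, nat_lit 9371479488], nat_lit 1271250, nat_lit 1271250, nat_lit 490000, nat_lit 780000, nat_lit 1271250, nat_lit 1271250, [nat_lit 1412500, nat_lit 1271250, nat_lit 1271250], [nat_lit 25, nat_lit 40, nat_lit 20, nat_lit 80, nat_lit 17, nat_lit 373, nat_lit 150, nat_lit 10]⟩, ⟨p026_k10, nat_lit 0, nat_lit 0, nat_lit 55, nat_lit 0, nat_lit 0, [nat_lit 6250000000, nat_lit 7968000000, nat_lit 11872000000], [],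 [nat_lit 2284074576, nat_lit 13921666928, nat_lit 0, nat_lit 11012929632, nat_lit 48101778592, nat_lit 53804698376, nat_lit 43209704512, nat_lit 48578070080], nat_lit 0, nat_lit 0, nat_lit 0, nat_lit 0, nat_lit 0, nat_lit 0, [], [nat_lit 53, nat_lit 40, nat_lit 20, nat_lit 80, nat_lit 14, nat_lit 401, nat_lit 175, nat_lit 10]⟩,
 zbF0, [⟨nat_lit 19, nat_lit 100, nat_lit 90, nat_lit 53, nat_lit 2775213798⟩]⟩
noncomputable def b_VL_500_500_5_10 : St := ⟨true, nat_lit 1, nat_lit 0, nat_lit 1, nat_lit 40, nat_lit 220, nat_lit 240, nat_lit 200, nat_lit 240, nat_lit 80, nat_lit 120, nat_lit 20, nat_lit 40, nat_lit 160, nat_lit 240, nat_lit 0, nat_lit 320, nat_lit 0, nat_lit 20, nat_lit 0, nat_lit 0, nat_lit 0, nat_lit 0⟩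
theorem d_VL_500_500_5_10 (h : EB TB.env) : Dead b_VL_500_500_5_10 := chkB_sound0 h (T :=
(.spl (nat_lit 5) (nat_lit 160)
(.leaf p026_l125)
(.spl (nat_lit 4) (nat_lit 200)
(.leaf p026_l126)
(.leaf p026_l127)))) (by decide +kernel)
noncomputable def p026_l128 : Lf2 := ⟨nat_lit 0, nat_lit 2, [nat_lit 10, nat_lit 5, nat_lit 5, nat_lit 20], true, nat_lit 240, nat_lit 260, nat_lit 0, nat_lit 288, ⟨nat_lit 0, nat_lit 0, nat_lit 1000, nat_lit 5, nat_lit 53, nat_lit 1000, nat_lit 169, nat_lit 1000, nat_lit 156852, nat_lit 312, nat_lit 26667, nat_lit 255, nat_lit 55003825, nat_lit 0, nat_lit 0, nat_lit 2833527, false, false⟩,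
 nat_lit 0, nat_lit 10610, nat_lit 0, nat_lit 0, nat_lit 5074, nat_lit 0, nat_lit 1052, nat_lit 0, nat_lit 0, nat_lit 0, nat_lit 0, nat_lit 0, nat_lit 0, nat_lit 0, nat_lit 53, nat_lit 1000000, nat_lit 0, nat_lit 0, [(nat_lit 3, [(nat_lit 6, nat_lit 1000)])],
 ⟨p026_k24, nat_lit 0, nat_lit 0, nat_lit 167, nat_lit 0, nat_lit 101647, [nat_lit 2101142858, nat_lit 11600000], [], [nat_lit 15609498940, nat_lit 16486305820, nat_lit 13990486408, nat_lit 14853807660, nat_lit 16770633320, nat_lit 17665172352, nat_lit 15127497496, nat_lit 15941119682], nat_lit 1271250, nat_lit 1271250, nat_lit 0, nat_lit 230001, nat_lit 1271250, nat_lit 1271250, [nat_lit 1412500, nat_lit 1271250], [nat_lit 26, nat_lit 40, nat_lit 20, nat_lit 80, nat_lit 2, nat_lit 289, nat_lit 75, nat_lit 9]⟩, C1.Rw.none,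
 ⟨nat_lit 6324, nat_lit 6709, ⟨.ofNat (nat_lit 69221), .ofNat (nat_lit 155377), .ofNat (nat_lit 90659), .ofNat (nat_lit 176815), .ofNat (nat_lit 88677), .ofNat (nat_lit 170942), .ofNat (nat_lit 110045), .ofNat (nat_lit 192309)⟩, ⟨.ofNat (nat_lit 393209), .ofNat (nat_lit 436286), .ofNat (nat_lit 414647), .ofNat (nat_lit 457725), .ofNat (nat_lit 389952), .ofNat (nat_lit 431084), .ofNat (nat_lit 411320), .ofNat (nat_lit 452452)⟩⟩, [⟨nat_lit 0, nat_lit 100, nat_lit 98, nat_lit 30, nat_lit 321557893⟩, ⟨nat_lit 4, nat_lit 93, nat_lit 100, nat_lit 53, nat_lit 241126613⟩]⟩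
noncomputable def p026_l129 : Lf2 := ⟨nat_lit 0, nat_lit 2, [nat_lit 10, nat_lit 5, nat_lit 5, nat_lit 20], true, nat_lit 260, nat_lit 280, nat_lit 0, nat_lit 180, ⟨nat_lit 0, nat_lit 0, nat_lit 1000, nat_lit 5, nat_lit 35, nat_lit 1000, nat_lit 186, nat_lit 1000, nat_lit 35833, nat_lit 261, nat_lit 12150, nat_lit 242, nat_lit 54100643, nat_lit 0, nat_lit 0, nat_lit 2781346, false, false⟩,
 nat_lit 0, nat_lit 11161, nat_lit 0, nat_lit 4112, nat_lit 5337, nat_lit 0, nat_lit 2002, nat_lit 0, nat_lit 0, nat_lit 0, nat_lit 0, nat_lit 0, nat_lit 0, nat_lit 0, nat_lit 53, nat_lit 1000000, nat_lit 0, nat_lit 0, [(nat_lit 3, [(nat_lit 6, nat_lit 1000)])],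
 ⟨p026_k24, nat_lit 0, nat_lit 0, nat_lit 154, nat_lit 0, nat_lit 59728, [nat_lit 2101142858, nat_lit 11600000], [], [nat_lit 16558666104, nat_lit 17895494076, nat_lit 16203384089, nat_lit 17539930822, nat_lit 18500575348, nat_lit 19741527304, nat_lit 18142953095, nat_lit 19385421016], nat_lit 1271250, nat_lit 1271250, nat_lit 0, nat_lit 21650, nat_lit 1271250, nat_lit 1271250, [nat_lit 1412500, nat_lit 1271250], [nat_lit 26, nat_lit 40, nat_lit 20, nat_lit 80, nat_lit 2, nat_lit 289, nat_lit 75, nat_lit 9]⟩, C1.Rw.none,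
 ⟨nat_lit 6324, nat_lit 6709, ⟨.ofNat (nat_lit 69221), .ofNat (nat_lit 77837), .ofNat (nat_lit 79940), .ofNat (nat_lit 88556), .ofNat (nat_lit 88677), .ofNat (nat_lit 96904), .ofNat (nat_lit 99361), .ofNat (nat_lit 107588)⟩, ⟨.ofNat (nat_lit 436286), .ofNat (nat_lit 479364), .ofNat (nat_lit 457725), .ofNat (nat_lit 500798), .ofNat (nat_lit 431084), .ofNat (nat_lit 472216), .ofNat (nat_lit 452452), .ofNat (nat_lit 493579)⟩⟩, [⟨nat_lit 0, nat_lit 100, nat_lit 99, nat_lit 17, nat_lit 555989874⟩, ⟨nat_lit 4, nat_lit 93, nat_lit 100, nat_lit 53, nat_lit 832639871⟩]⟩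
noncomputable def p026_l130 : Lf2 := ⟨nat_lit 0, nat_lit 2, [nat_lit 10, nat_lit 5, nat_lit 5, nat_lit 20], false, nat_lit 260, nat_lit 280, nat_lit 0, nat_lit 180, ⟨nat_lit 1000, nat_lit 0, nat_lit 0, nat_lit 0, nat_lit 0, nat_lit 0, nat_lit 0, nat_lit 0, nat_lit 0, nat_lit 0, nat_lit 0, nat_lit 0, nat_lit 0, nat_lit 0, nat_lit 0, nat_lit 0, false, false⟩,
 nat_lit 0, nat_lit 21853, nat_lit 0, nat_lit 74060, nat_lit 10451, nat_lit 10150, nat_lit 4962, nat_lit 0, nat_lit 0, nat_lit 14114, nat_lit 0, nat_lit 0, nat_lit 0, nat_lit 0, nat_lit 0, nat_lit 0, nat_lit 0, nat_lit 0, [],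
 ⟨p026_k24, nat_lit 0, nat_lit 0, nat_lit 158, nat_lit 0, nat_lit 101647, [nat_lit 6250000000, nat_lit 7968000000], [], [nat_lit 20431968792, nat_lit 22374069348, nat_lit 19693635618, nat_lit 21638041882, nat_lit 23471403804, nat_lit 25244150392, nat_lit 22731645061, nat_lit 24507904119], nat_lit 1271250, nat_lit 1271250, nat_lit 0, nat_lit 21650, nat_lit 1271250, nat_lit 1271250, [nat_lit 1412500, nat_lit 1271250], [nat_lit 26, nat_lit 40, nat_lit 20, nat_lit 80, nat_lit 2, nat_lit 289, nat_lit 75, nat_lit 9]⟩, ⟨p026_k34, nat_lit 0, nat_lit 0, nat_lit 291, nat_lit 0, nat_lit 0, [nat_lit 6250000000, nat_lit 9842000000], [], [nat_lit 20434490100, nat_lit 21563934600, nat_lit 19717247400, nat_lit 20594868040, nat_lit 14903310063, nat_lit 15616012075, nat_lit 14435051783, nat_lit 15147245866], nat_lit 0, nat_lit 0, nat_lit 0, nat_lit 0, nat_lit 0, nat_lit 0, [], [nat_lit 51, nat_lit 40, nat_lit 20, nat_lit 80,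 nat_lit 1, nat_lit 345, nat_lit 125, nat_lit 11]⟩,
 zbF0, [⟨nat_lit 0, nat_lit 100, nat_lit 99, nat_lit 22, nat_lit 10101010101⟩, ⟨nat_lit 0, nat_lit 100, nat_lit 100, nat_lit 15, nat_lit 4399261704⟩, ⟨nat_lit 4, nat_lit 93, nat_lit 100, nat_lit 53, nat_lit 1884695820⟩]⟩
noncomputable def p026_l131 : Lf2 := ⟨nat_lit 0, nat_lit 2, [nat_lit 10, nat_lit 5, nat_lit 5, nat_lit 20], true, nat_lit 260, nat_lit 280, nat_lit 0, nat_lit 196, ⟨nat_lit 0, nat_lit 0, nat_lit 1000, nat_lit 5, nat_lit 39, nat_lit 1000, nat_lit 186, nat_lit 1000, nat_lit 35833, nat_lit 261, nat_lit 14017, nat_lit 244, nat_lit 53960275, nat_lit 0, nat_lit 0, nat_lit 2830867, false, false⟩,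
 nat_lit 0, nat_lit 11149, nat_lit 0, nat_lit 1894, nat_lit 5332, nat_lit 0, nat_lit 0, nat_lit 0, nat_lit 0, nat_lit 0, nat_lit 0, nat_lit 0, nat_lit 0, nat_lit 0, nat_lit 53, nat_lit 1000000, nat_lit 0, nat_lit 0, [(nat_lit 3, [(nat_lit 6, nat_lit 1000)])],
 ⟨p026_k24, nat_lit 0, nat_lit 0, nat_lit 152, nat_lit 0, nat_lit 59728, [nat_lit 2101142858, nat_lit 11600000], [], [nat_lit 16210157126, nat_lit 17535924065, nat_lit 15985959165, nat_lit 17180732794, nat_lit 18138466693, nat_lit 19380412722, nat_lit 17781218058, nat_lit 19024678100], nat_lit 1271250, nat_lit 1271250, nat_lit 21650, nat_lit 43600, nat_lit 1271250, nat_lit 1271250, [nat_lit 1412500, nat_lit 1271250], [nat_lit 26, nat_lit 40, nat_lit 20, nat_lit 80, nat_lit 2, nat_lit 289, nat_lit 75, nat_lit 9]⟩, C1.Rw.none,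
 ⟨nat_lit 6324, nat_lit 6709, ⟨.ofNat (nat_lit 77837), .ofNat (nat_lit 86452), .ofNat (nat_lit 88556), .ofNat (nat_lit 97171), .ofNat (nat_lit 96904), .ofNat (nat_lit 105130), .ofNat (nat_lit 107588), .ofNat (nat_lit 115814)⟩, ⟨.ofNat (nat_lit 436286), .ofNat (nat_lit 479364), .ofNat (nat_lit 457725), .ofNat (nat_lit 500798), .ofNat (nat_lit 431084), .ofNat (nat_lit 472216), .ofNat (nat_lit 452452), .ofNat (nat_lit 493579)⟩⟩, [⟨nat_lit 4, nat_lit 93, nat_lit 100, nat_lit 53, nat_lit 826622884⟩]⟩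
noncomputable def p026_l132 : Lf2 := ⟨nat_lit 0, nat_lit 2, [nat_lit 10, nat_lit 5, nat_lit 5, nat_lit 20], false, nat_lit 260, nat_lit 280, nat_lit 0, nat_lit 80, ⟨nat_lit 194, nat_lit 0, nat_lit 806, nat_lit 5, nat_lit 43, nat_lit 806, nat_lit 186, nat_lit 806, nat_lit 35833, nat_lit 261, nat_lit 17067, nat_lit 247, nat_lit 53773423, nat_lit 0, nat_lit 0, nat_lit 2894222, false, false⟩,
 nat_lit 0, nat_lit 13170, nat_lit 0, nat_lit 5717, nat_lit 6298, nat_lit 1901, nat_lit 412, nat_lit 0, nat_lit 0, nat_lit 2465, nat_lit 0, nat_lit 0, nat_lit 0, nat_lit 0, nat_lit 0, nat_lit 806000, nat_lit 0, nat_lit 0, [(nat_lit 3, [(nat_lit 6, nat_lit 806)])],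
 ⟨p026_k24, nat_lit 0, nat_lit 0, nat_lit 155, nat_lit 0, nat_lit 101647, [nat_lit 2051661143, nat_lit 529909600], [], [nat_lit 16922642851, nat_lit 18310029518, nat_lit 16648982309, nat_lit 17882971131, nat_lit 19005239560, nat_lit 20348015123, nat_lit 18575807927, nat_lit 19920474629], nat_lit 1271250, nat_lit 1271250, nat_lit 21650, nat_lit 43600, nat_lit 1271250, nat_lit 1271250, [nat_lit 1412500, nat_lit 1271250], [nat_lit 26, nat_lit 40, nat_lit 20, nat_lit 80, nat_lit 2, nat_lit 289, nat_lit 75, nat_lit 9]⟩, ⟨p026_k35, nat_lit 0, nat_lit 0, nat_lit 287, nat_lit 0, nat_lit 0, [nat_lit 1212500000, nat_lit 1545792000, nat_lit 1909348000], [], [nat_lit 3731467019, nat_lit 3892887232, nat_lit 3625848985, nat_lit 3779648928, nat_lit 2554260437, nat_lit 2719022944, nat_lit 2463581188, nat_lit 2628226321], nat_lit 0, nat_lit 0, nat_lit 0, nat_lit 0, nat_lit 0, nat_lit 0, [], [nat_lit 25, nat_lit 40, nat_lit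 20, nat_lit 80, nat_lit 17, nat_lit 317, nat_lit 100, nat_lit 10]⟩,
 ⟨nat_lit 6324, nat_lit 6709, ⟨.ofNat (nat_lit 88556), .ofNat (nat_lit 97171), .ofNat (nat_lit 99275), .ofNat (nat_lit 107890), .ofNat (nat_lit 107588), .ofNat (nat_lit 115814), .ofNat (nat_lit 118272), .ofNat (nat_lit 126498)⟩, ⟨.ofNat (nat_lit 436286), .ofNat (nat_lit 479364), .ofNat (nat_lit 457725), .ofNat (nat_lit 500798), .ofNat (nat_lit 431084), .ofNat (nat_lit 472216), .ofNat (nat_lit 452452), .ofNat (nat_lit 493579)⟩⟩, [⟨nat_lit 0, nat_lit 100, nat_lit 99, nat_lit 22, nat_lit 742354326⟩, ⟨nat_lit 4, nat_lit 93, nat_lit 100, nat_lit 53, nat_lit 1001566632⟩]⟩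
noncomputable def p026_l133 : Lf2 := ⟨nat_lit 0, nat_lit 2, [nat_lit 10, nat_lit 5, nat_lit 5, nat_lit 20], false, nat_lit 260, nat_lit 280, nat_lit 80, nat_lit 196, ⟨nat_lit 1000, nat_lit 0, nat_lit 0, nat_lit 0, nat_lit 0, nat_lit 0, nat_lit 0, nat_lit 0, nat_lit 0, nat_lit 0, nat_lit 0, nat_lit 0, nat_lit 0, nat_lit 0, nat_lit 0, nat_lit 0, false, false⟩,
 nat_lit 0, nat_lit 21758, nat_lit 0, nat_lit 3412, nat_lit 10406, nat_lit 11687, nat_lit 4776, nat_lit 0, nat_lit 0, nat_lit 0, nat_lit 0, nat_lit 0, nat_lit 0, nat_lit 0, nat_lit 0, nat_lit 0, nat_lit 0, nat_lit 0, [],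
 ⟨p026_k24, nat_lit 0, nat_lit 0, nat_lit 155, nat_lit 0, nat_lit 101647, [nat_lit 6250000000, nat_lit 7968000000], [], [nat_lit 19852411904, nat_lit 21601981069, nat_lit 19271238661, nat_lit 20869301449, nat_lit 22691267443, nat_lit 24462829473, nat_lit 21954871261, nat_lit 23729928194], nat_lit 1271250, nat_lit 1271250, nat_lit 21650, nat_lit 43600, nat_lit 1271250, nat_lit 1271250, [nat_lit 1412500, nat_lit 1271250], [nat_lit 26, nat_lit 40, nat_lit 20, nat_lit 80, nat_lit 2, nat_lit 289, nat_lit 75, nat_lit 9]⟩, ⟨p026_k35, nat_lit 0, nat_lit 0, nat_lit 37, nat_lit 0, nat_lit 0, [nat_lit 6250000000, nat_lit 7968000000, nat_lit 9842000000], [], [nat_lit 7751899212, nat_lit 9077388104, nat_lit 7049839815, nat_lit 8316218772, nat_lit 11563497407, nat_lit 12748831670, nat_lit 10901243245, nat_lit 11906211201], nat_lit 0, nat_lit 0, nat_lit 0, nat_lit 0, nat_lit 0, nat_lit 0, [], [nat_lit 25, nat_lit 40, nat_lit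 20, nat_lit 80, nat_lit 17, nat_lit 345, nat_lit 125, nat_lit 10]⟩,
 zbF0, [⟨nat_lit 0, nat_lit 100, nat_lit 99, nat_lit 22, nat_lit 1469727200⟩, ⟨nat_lit 4, nat_lit 93, nat_lit 100, nat_lit 53, nat_lit 1139225129⟩, ⟨nat_lit 23, nat_lit 94, nat_lit 100, nat_lit 24, nat_lit 1460622695⟩]⟩
noncomputable def p026_l134 : Lf2 := ⟨nat_lit 0, nat_lit 2, [nat_lit 10, nat_lit 5, nat_lit 5, nat_lit 20], true, nat_lit 260, nat_lit 280, nat_lit 0, nat_lit 232, ⟨nat_lit 0, nat_lit 0, nat_lit 1000, nat_lit 5, nat_lit 48, nat_lit 1000, nat_lit 186, nat_lit 1000, nat_lit 35833, nat_lit 261, nat_lit 21600, nat_lit 251, nat_lit 53562875, nat_lit 0, nat_lit 0, nat_lit 2962583, false, false⟩,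
 nat_lit 0, nat_lit 11042, nat_lit 0, nat_lit 290, nat_lit 5280, nat_lit 0, nat_lit 0, nat_lit 0, nat_lit 0, nat_lit 0, nat_lit 0, nat_lit 0, nat_lit 0, nat_lit 0, nat_lit 53, nat_lit 1000000, nat_lit 0, nat_lit 0, [(nat_lit 3, [(nat_lit 6, nat_lit 1000)])],
 ⟨p026_k24, nat_lit 0, nat_lit 0, nat_lit 153, nat_lit 0, nat_lit 101647, [nat_lit 2101142858, nat_lit 11600000], [], [nat_lit 16059061337, nat_lit 17142931144, nat_lit 15394455196, nat_lit 16228503396, nat_lit 17738445105, nat_lit 18976457169, nat_lit 16678356080, nat_lit 17920849280], nat_lit 1271250, nat_lit 1271250, nat_lit 43600, nat_lit 111251, nat_lit 1271250, nat_lit 1271250, [nat_lit 1412500, nat_lit 1271250], [nat_lit 26, nat_lit 40, nat_lit 20, nat_lit 80, nat_lit 2, nat_lit 289, nat_lit 75, nat_lit 9]⟩, C1.Rw.none,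
 ⟨nat_lit 6324, nat_lit 6709, ⟨.ofNat (nat_lit 86452), .ofNat (nat_lit 112299), .ofNat (nat_lit 107890), .ofNat (nat_lit 133737), .ofNat (nat_lit 105130), .ofNat (nat_lit 129809), .ofNat (nat_lit 126498), .ofNat (nat_lit 151177)⟩, ⟨.ofNat (nat_lit 436286), .ofNat (nat_lit 479364), .ofNat (nat_lit 457725), .ofNat (nat_lit 500798), .ofNat (nat_lit 431084), .ofNat (nat_lit 472216), .ofNat (nat_lit 452452), .ofNat (nat_lit 493579)⟩⟩, [⟨nat_lit 4, nat_lit 93, nat_lit 100, nat_lit 53, nat_lit 710162681⟩]⟩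
noncomputable def p026_l135 : Lf2 := ⟨nat_lit 0, nat_lit 2, [nat_lit 10, nat_lit 5, nat_lit 5, nat_lit 20], true, nat_lit 260, nat_lit 280, nat_lit 0, nat_lit 268, ⟨nat_lit 0, nat_lit 0, nat_lit 1000, nat_lit 5, nat_lit 61, nat_lit 1000, nat_lit 186, nat_lit 1000, nat_lit 35833, nat_lit 261, nat_lit 35267, nat_lit 261, nat_lit 52892427, nat_lit 0, nat_lit 0, nat_lit 3163252, false, false⟩,
 nat_lit 0, nat_lit 11680, nat_lit 0, nat_lit 1192, nat_lit 5586, nat_lit 0, nat_lit 0, nat_lit 0, nat_lit 0, nat_lit 0, nat_lit 0, nat_lit 0, nat_lit 0, nat_lit 0, nat_lit 53, nat_lit 1000000, nat_lit 0, nat_lit 0, [(nat_lit 3, [(nat_lit 6, nat_lit 1000)])],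
 ⟨p026_k24, nat_lit 0, nat_lit 0, nat_lit 147, nat_lit 0, nat_lit 101647, [nat_lit 2101142858, nat_lit 11600000], [], [nat_lit 14917272217, nat_lit 16243115290, nat_lit 14237626136, nat_lit 15109675680, nat_lit 16861462196, nat_lit 18136373036, nat_lit 15712764964, nat_lit 16984385552], nat_lit 1271250, nat_lit 1271250, nat_lit 111251, nat_lit 230001, nat_lit 1271250, nat_lit 1271250, [nat_lit 1412500, nat_lit 1271250], [nat_lit 26, nat_lit 40, nat_lit 20, nat_lit 80, nat_lit 2, nat_lit 289, nat_lit 75, nat_lit 9]⟩, C1.Rw.none,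
 ⟨nat_lit 6324, nat_lit 6709, ⟨.ofNat (nat_lit 112299), .ofNat (nat_lit 155377), .ofNat (nat_lit 133737), .ofNat (nat_lit 176815), .ofNat (nat_lit 129809), .ofNat (nat_lit 170942), .ofNat (nat_lit 151177), .ofNat (nat_lit 192309)⟩, ⟨.ofNat (nat_lit 436286), .ofNat (nat_lit 479364), .ofNat (nat_lit 457725), .ofNat (nat_lit 500798), .ofNat (nat_lit 431084), .ofNat (nat_lit 472216), .ofNat (nat_lit 452452), .ofNat (nat_lit 493579)⟩⟩, [⟨nat_lit 4, nat_lit 93, nat_lit 100, nat_lit 53, nat_lit 834077188⟩]⟩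
noncomputable def p026_l136 : Lf2 := ⟨nat_lit 1, nat_lit 5, [nat_lit 4, nat_lit 5, nat_lit 5, nat_lit 20], false, nat_lit 240, nat_lit 280, nat_lit 0, nat_lit 288, zbN0,
 nat_lit 0, nat_lit 0, nat_lit 0, nat_lit 0, nat_lit 0, nat_lit 0, nat_lit 0, nat_lit 0, nat_lit 0, nat_lit 0, nat_lit 0, nat_lit 0, nat_lit 0, nat_lit 0, nat_lit 0, nat_lit 0, nat_lit 0, nat_lit 0, [],
 C1.Rw.none, C1.Rw.none,
 zbF0, []⟩
noncomputable def b_VL_500_500_5_11 : St := ⟨true, nat_lit 1, nat_lit 0, nat_lit 1, nat_lit 40, nat_lit 220, nat_lit 240, nat_lit 200, nat_lit 220, nat_lit 0, nat_lit 40, nat_lit 20, nat_lit 40, nat_lit 240, nat_lit 280, nat_lit 0, nat_lit 288, nat_lit 0, nat_lit 20, nat_lit 0, nat_lit 0, nat_lit 0, nat_lit 0⟩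
theorem d_VL_500_500_5_11 (h : EB TB.env) : Dead b_VL_500_500_5_11 := chkB_sound0 h (T :=
(.spl (nat_lit 6) (nat_lit 8)
(.spl (nat_lit 4) (nat_lit 260)
(.leaf p026_l128)
(.trX (nat_lit 23) (nat_lit 100) (nat_lit 99) (nat_lit 63) (nat_lit 268) (.spl (nat_lit 2) (nat_lit 20)
(.trX (nat_lit 23) (nat_lit 96) (nat_lit 100) (nat_lit 44) (nat_lit 232) (.spl (nat_lit 2) (nat_lit 8)
(.trX (nat_lit 23) (nat_lit 95) (nat_lit 100) (nat_lit 28) (nat_lit 196) (.spl (nat_lit 2) (nat_lit 4)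
(.trX (nat_lit 23) (nat_lit 96) (nat_lit 100) (nat_lit 20) (nat_lit 180) (.spl (nat_lit 1) (nat_lit 210)
(.leaf p026_l129)
(.leaf p026_l130)))
(.spl (nat_lit 1) (nat_lit 210)
(.leaf p026_l131)
(.spl (nat_lit 5) (nat_lit 80)
(.leaf p026_l132)
(.leaf p026_l133)))))
(.leaf p026_l134)))
(.leaf p026_l135))))
(.leaf p026_l136))) (by decide +kernel)
noncomputable def p026_l137 : Lf2 := ⟨nat_lit 0, nat_lit 2, [nat_lit 10, nat_lit 5, nat_lit 5, nat_lit 20], false, nat_lit 240, nat_lit 260, nat_lit 0, nat_lit 40, ⟨nat_lit 220, nat_lit 0, nat_lit 780, nat_lit 5, nat_lit 50, nat_lit 780, nat_lit 169, nat_lit 780, nat_lit 156852, nat_lit 312, nat_lit 22817, nat_lit 252, nat_lit 55158387, nat_lit 0, nat_lit 0, nat_lit 2786920, false, false⟩,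
 nat_lit 0, nat_lit 13065, nat_lit 0, nat_lit 0, nat_lit 6248, nat_lit 2132, nat_lit 330, nat_lit 0, nat_lit 0, nat_lit 1386, nat_lit 0, nat_lit 0, nat_lit 0, nat_lit 0, nat_lit 0, nat_lit 780000, nat_lit 0, nat_lit 0, [(nat_lit 3, [(nat_lit 6, nat_lit 780)])],
 ⟨p026_k24, nat_lit 0, nat_lit 0, nat_lit 167, nat_lit 0, nat_lit 124355, [nat_lit 2187091429, nat_lit 769848000], [], [nat_lit 16090442448, nat_lit 16938353277, nat_lit 15279472819, nat_lit 16126240374, nat_lit 17262750358, nat_lit 18269961948, nat_lit 16447932695, nat_lit 17334163367], nat_lit 1271250, nat_lit 1271250, nat_lit 21650, nat_lit 88400, nat_lit 1271250, nat_lit 1271250, [nat_lit 1412500, nat_lit 1271250], [nat_lit 26, nat_lit 40, nat_lit 20, nat_lit 80, nat_lit 2, nat_lit 289, nat_lit 75, nat_lit 9]⟩, ⟨p026_k24, nat_lit 0, nat_lit 0, nat_lit 169, nat_lit 0, nat_lit 0, [nat_lit 1375000000, nat_lit 1752960000], [], [nat_lit 4435763744, nat_lit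 4526349053, nat_lit 4080884465, nat_lit 4166795495, nat_lit 3772100979, nat_lit 3867267113, nat_lit 3441981430, nat_lit 3537049740], nat_lit 0, nat_lit 0, nat_lit 0, nat_lit 0, nat_lit 0, nat_lit 0, [], [nat_lit 26, nat_lit 40, nat_lit 20, nat_lit 80, nat_lit 2, nat_lit 289, nat_lit 75, nat_lit 10]⟩,
 ⟨nat_lit 6324, nat_lit 6709, ⟨.ofNat (nat_lit 99275), .ofNat (nat_lit 125122), .ofNat (nat_lit 104635), .ofNat (nat_lit 130481), .ofNat (nat_lit 118272), .ofNat (nat_lit 142951), .ofNat (nat_lit 123614), .ofNat (nat_lit 148293)⟩, ⟨.ofNat (nat_lit 393209), .ofNat (nat_lit 436286), .ofNat (nat_lit 414647), .ofNat (nat_lit 457725), .ofNat (nat_lit 389952), .ofNat (nat_lit 431084), .ofNat (nat_lit 411320), .ofNat (nat_lit 452452)⟩⟩, [⟨nat_lit 0, nat_lit 100, nat_lit 100, nat_lit 26, nat_lit 767673782⟩, ⟨nat_lit 4, nat_lit 93, nat_lit 100, nat_lit 53, nat_lit 288591391⟩]⟩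
noncomputable def p026_l138 : Lf2 := ⟨nat_lit 0, nat_lit 2, [nat_lit 10, nat_lit 5, nat_lit 5, nat_lit 20], false, nat_lit 260, nat_lit 280, nat_lit 0, nat_lit 40, ⟨nat_lit 398, nat_lit 0, nat_lit 602, nat_lit 5, nat_lit 49, nat_lit 602, nat_lit 186, nat_lit 602, nat_lit 35833, nat_lit 261, nat_lit 22817, nat_lit 252, nat_lit 53499637, nat_lit 0, nat_lit 0, nat_lit 2982556, false, false⟩,
 nat_lit 0, nat_lit 15316, nat_lit 0, nat_lit 8629, nat_lit 7324, nat_lit 3872, nat_lit 1530, nat_lit 0, nat_lit 0, nat_lit 2525, nat_lit 0, nat_lit 0, nat_lit 0, nat_lit 0, nat_lit 0, nat_lit 602000, nat_lit 0, nat_lit 0, [(nat_lit 3, [(nat_lit 6, nat_lit 602)])],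
 ⟨p026_k24, nat_lit 0, nat_lit 0, nat_lit 156, nat_lit 0, nat_lit 110730, [nat_lit 3114268000, nat_lit 2412503200], [], [nat_lit 17658029270, nat_lit 19132216054, nat_lit 16679443269, nat_lit 17623146975, nat_lit 19925849250, nat_lit 21375717052, nat_lit 18407555111, nat_lit 19864297981], nat_lit 1271250, nat_lit 1271250, nat_lit 21650, nat_lit 88400, nat_lit 1271250, nat_lit 1271250, [nat_lit 1412500, nat_lit 1271250], [nat_lit 26, nat_lit 40, nat_lit 20, nat_lit 80, nat_lit 2, nat_lit 289, nat_lit 75, nat_lit 9]⟩, ⟨p026_k24, nat_lit 0, nat_lit 0, nat_lit 167, nat_lit 0, nat_lit 0, [nat_lit 2487500000, nat_lit 3171264000], [], [nat_lit 8002272698, nat_lit 8064532098, nat_lit 7357539986, nat_lit 7419844764, nat_lit 6806779464, nat_lit 6875811692, nat_lit 6206997343, nat_lit 6275958889], nat_lit 0, nat_lit 0, nat_lit 0, nat_lit 0, nat_lit 0, nat_lit 0, [], [nat_lit 26, nat_lit 40, nat_lit 20, nat_lit 80, nat_lit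 2, nat_lit 289, nat_lit 75, nat_lit 10]⟩,
 ⟨nat_lit 6324, nat_lit 6709, ⟨.ofNat (nat_lit 99275), .ofNat (nat_lit 125122), .ofNat (nat_lit 101419), .ofNat (nat_lit 127265), .ofNat (nat_lit 118272), .ofNat (nat_lit 142951), .ofNat (nat_lit 120408), .ofNat (nat_lit 145088)⟩, ⟨.ofNat (nat_lit 436286), .ofNat (nat_lit 479364), .ofNat (nat_lit 457725), .ofNat (nat_lit 500798), .ofNat (nat_lit 431084), .ofNat (nat_lit 472216), .ofNat (nat_lit 452452), .ofNat (nat_lit 493579)⟩⟩, [⟨nat_lit 0, nat_lit 100, nat_lit 99, nat_lit 25, nat_lit 1105993746⟩, ⟨nat_lit 16, nat_lit 100, nat_lit 93, nat_lit 53, nat_lit 1202186956⟩]⟩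
noncomputable def p026_l139 : Lf2 := ⟨nat_lit 0, nat_lit 2, [nat_lit 10, nat_lit 5, nat_lit 5, nat_lit 20], false, nat_lit 260, nat_lit 280, nat_lit 0, nat_lit 40, ⟨nat_lit 415, nat_lit 0, nat_lit 585, nat_lit 5, nat_lit 50, nat_lit 585, nat_lit 186, nat_lit 585, nat_lit 38950, nat_lit 262, nat_lit 24067, nat_lit 253, nat_lit 53463663, nat_lit 0, nat_lit 0, nat_lit 2996287, false, false⟩,
 nat_lit 0, nat_lit 15285, nat_lit 0, nat_lit 7503, nat_lit 7387, nat_lit 4035, nat_lit 1456, nat_lit 0, nat_lit 0, nat_lit 2376, nat_lit 0, nat_lit 0, nat_lit 0, nat_lit 0, nat_lit 0, nat_lit 585000, nat_lit 0, nat_lit 0, [(nat_lit 3, [(nat_lit 6, nat_lit 585)])],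
 ⟨p026_k36, nat_lit 0, nat_lit 0, nat_lit 157, nat_lit 0, nat_lit 113894, [nat_lit 3202818572, nat_lit 2569386000], [], [nat_lit 17844615862, nat_lit 19182701192, nat_lit 16856233555, nat_lit 17708595442, nat_lit 20128022279, nat_lit 21438821556, nat_lit 18596300265, nat_lit 19913353511], nat_lit 1271250, nat_lit 1271250, nat_lit 21650, nat_lit 88400, nat_lit 1271250, nat_lit 1271250, [nat_lit 1412500, nat_lit 1271250], [nat_lit 26, nat_lit 40, nat_lit 20, nat_lit 80, nat_lit 2, nat_lit 289, nat_lit 75, nat_lit 9]⟩, ⟨p026_k36, nat_lit 0, nat_lit 0, nat_lit 168, nat_lit 0, nat_lit 0, [nat_lit 2593750000, nat_lit 3306720000], [], [nat_lit 8413719583, nat_lit 8447396923, nat_lit 7741928187, nat_lit 7774399820, nat_lit 7172224335, nat_lit 7208201519, nat_lit 6547157467, nat_lit 6583097793], nat_lit 0, nat_lit 0, nat_lit 0, nat_lit 0, nat_lit 0, nat_lit 0, [], [nat_lit 26, nat_lit 40, nat_lit 20, nat_lit 80, nat_lit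 2, nat_lit 289, nat_lit 75, nat_lit 10]⟩,
 ⟨nat_lit 6324, nat_lit 6671, ⟨.ofNat (nat_lit 103355), .ofNat (nat_lit 129083), .ofNat (nat_lit 104427), .ofNat (nat_lit 130154), .ofNat (nat_lit 120408), .ofNat (nat_lit 145088), .ofNat (nat_lit 121477), .ofNat (nat_lit 146156)⟩, ⟨.ofNat (nat_lit 435770), .ofNat (nat_lit 478649), .ofNat (nat_lit 457200), .ofNat (nat_lit 500076), .ofNat (nat_lit 431084), .ofNat (nat_lit 472216), .ofNat (nat_lit 452452), .ofNat (nat_lit 493581)⟩⟩, [⟨nat_lit 0, nat_lit 100, nat_lit 100, nat_lit 22, nat_lit 1121278433⟩, ⟨nat_lit 4, nat_lit 93, nat_lit 100, nat_lit 53, nat_lit 1216587299⟩]⟩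
noncomputable def p026_l140 : Lf2 := ⟨nat_lit 0, nat_lit 2, [nat_lit 10, nat_lit 5, nat_lit 5, nat_lit 20], false, nat_lit 260, nat_lit 280, nat_lit 0, nat_lit 40, ⟨nat_lit 456, nat_lit 0, nat_lit 544, nat_lit 5, nat_lit 51, nat_lit 544, nat_lit 186, nat_lit 544, nat_lit 38004, nat_lit 262, nat_lit 24067, nat_lit 253, nat_lit 53440369, nat_lit 0, nat_lit 0, nat_lit 3004741, false, false⟩,
 nat_lit 0, nat_lit 15598, nat_lit 0, nat_lit 8090, nat_lit 7578, nat_lit 4420, nat_lit 1582, nat_lit 0, nat_lit 0, nat_lit 2494, nat_lit 0, nat_lit 0, nat_lit 0, nat_lit 0, nat_lit 0, nat_lit 544000, nat_lit 0, nat_lit 0, [(nat_lit 3, [(nat_lit 6, nat_lit 544)])],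
 ⟨p026_k37, nat_lit 0, nat_lit 0, nat_lit 159, nat_lit 0, nat_lit 117675, [nat_lit 3416381715, nat_lit 2947750400], [], [nat_lit 18061951932, nat_lit 19335759310, nat_lit 17044173941, nat_lit 17857854087, nat_lit 20375215459, nat_lit 21630138387, nat_lit 18801057820, nat_lit 20062077418], nat_lit 1271250, nat_lit 1271250, nat_lit 21650, nat_lit 88400, nat_lit 1271250, nat_lit 1271250, [nat_lit 1412500, nat_lit 1271250], [nat_lit 26, nat_lit 40, nat_lit 20, nat_lit 80, nat_lit 2, nat_lit 289, nat_lit 75, nat_lit 9]⟩, ⟨p026_k37, nat_lit 0, nat_lit 0, nat_lit 168, nat_lit 0, nat_lit 0, [nat_lit 2850000000, nat_lit 3633408000], [], [nat_lit 9297079043, nat_lit 9332667949, nat_lit 8561416753, nat_lit 8597031375, nat_lit 7935815633, nat_lit 7975271564, nat_lit 7251284662, nat_lit 7290700043], nat_lit 0, nat_lit 0, nat_lit 0, nat_lit 0, nat_lit 0, nat_lit 0, [], [nat_lit 26, nat_lit 40, nat_lit 20, nat_lit 80, nat_lit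 2, nat_lit 289, nat_lit 75, nat_lit 10]⟩,
 ⟨nat_lit 6324, nat_lit 6653, ⟨.ofNat (nat_lit 105392), .ofNat (nat_lit 131060), .ofNat (nat_lit 106463), .ofNat (nat_lit 132131), .ofNat (nat_lit 121477), .ofNat (nat_lit 146156), .ofNat (nat_lit 122545), .ofNat (nat_lit 147224)⟩, ⟨.ofNat (nat_lit 435512), .ofNat (nat_lit 478292), .ofNat (nat_lit 456937), .ofNat (nat_lit 499715), .ofNat (nat_lit 431084), .ofNat (nat_lit 472216), .ofNat (nat_lit 452452), .ofNat (nat_lit 493582)⟩⟩, [⟨nat_lit 0, nat_lit 100, nat_lit 100, nat_lit 23, nat_lit 1189453000⟩, ⟨nat_lit 4, nat_lit 93, nat_lit 100, nat_lit 53, nat_lit 1255308578⟩]⟩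
noncomputable def p026_l141 : Lf2 := ⟨nat_lit 0, nat_lit 2, [nat_lit 10, nat_lit 5, nat_lit 5, nat_lit 20], false, nat_lit 260, nat_lit 280, nat_lit 0, nat_lit 40, ⟨nat_lit 564, nat_lit 0, nat_lit 436, nat_lit 5, nat_lit 51, nat_lit 436, nat_lit 186, nat_lit 436, nat_lit 37058, nat_lit 262, nat_lit 24067, nat_lit 253, nat_lit 53416940, nat_lit 0, nat_lit 0, nat_lit 3013186, false, false⟩,
 nat_lit 0, nat_lit 16933, nat_lit 0, nat_lit 9986, nat_lit 8269, nat_lit 5463, nat_lit 1943, nat_lit 0, nat_lit 0, nat_lit 2949, nat_lit 0, nat_lit 0, nat_lit 0, nat_lit 0, nat_lit 0, nat_lit 436000, nat_lit 0, nat_lit 0, [(nat_lit 3, [(nat_lit 6, nat_lit 436)])],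
 ⟨p026_k38, nat_lit 0, nat_lit 0, nat_lit 160, nat_lit 0, nat_lit 121411, [nat_lit 3978938286, nat_lit 3944417600], [], [nat_lit 18540457310, nat_lit 19889493127, nat_lit 17182353742, nat_lit 18168410871, nat_lit 21083480306, nat_lit 22322284618, nat_lit 19354941131, nat_lit 20600130925], nat_lit 1271250, nat_lit 1271250, nat_lit 21650, nat_lit 88400, nat_lit 1271250, nat_lit 1271250, [nat_lit 1412500, nat_lit 1271250], [nat_lit 26, nat_lit 40, nat_lit 20, nat_lit 80, nat_lit 2, nat_lit 289, nat_lit 75, nat_lit 9]⟩, ⟨p026_k38, nat_lit 0, nat_lit 0, nat_lit 169, nat_lit 0, nat_lit 0, [nat_lit 3525000000, nat_lit 4493952000], [], [nat_lit 11549559963, nat_lit 11599769057, nat_lit 10640390249, nat_lit 10684622586, nat_lit 9868490813, nat_lit 9917270266, nat_lit 9022440298, nat_lit 9071169583], nat_lit 0, nat_lit 0, nat_lit 0, nat_lit 0, nat_lit 0, nat_lit 0, [], [nat_lit 26, nat_lit 40, nat_lit 20, nat_lit 80,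 nat_lit 2, nat_lit 289, nat_lit 75, nat_lit 10]⟩,
 ⟨nat_lit 6324, nat_lit 6634, ⟨.ofNat (nat_lit 107425), .ofNat (nat_lit 133034), .ofNat (nat_lit 108496), .ofNat (nat_lit 134105), .ofNat (nat_lit 122545), .ofNat (nat_lit 147224), .ofNat (nat_lit 123614), .ofNat (nat_lit 148293)⟩, ⟨.ofNat (nat_lit 435253), .ofNat (nat_lit 477935), .ofNat (nat_lit 456674), .ofNat (nat_lit 499354), .ofNat (nat_lit 431084), .ofNat (nat_lit 472216), .ofNat (nat_lit 452452), .ofNat (nat_lit 493582)⟩⟩, [⟨nat_lit 0, nat_lit 100, nat_lit 100, nat_lit 24, nat_lit 1483813779⟩, ⟨nat_lit 4, nat_lit 94, nat_lit 100, nat_lit 53, nat_lit 1419780161⟩]⟩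
noncomputable def p026_l142 : Lf2 := ⟨nat_lit 0, nat_lit 2, [nat_lit 10, nat_lit 5, nat_lit 5, nat_lit 20], false, nat_lit 240, nat_lit 260, nat_lit 0, nat_lit 40, ⟨nat_lit 389, nat_lit 0, nat_lit 611, nat_lit 5, nat_lit 53, nat_lit 611, nat_lit 169, nat_lit 611, nat_lit 166667, nat_lit 315, nat_lit 26667, nat_lit 255, nat_lit 55024401, nat_lit 0, nat_lit 0, nat_lit 2830906, false, false⟩,
 nat_lit 0, nat_lit 14840, nat_lit 0, nat_lit 0, nat_lit 7285, nat_lit 3731, nat_lit 1014, nat_lit 0, nat_lit 0, nat_lit 1917, nat_lit 0, nat_lit 0, nat_lit 0, nat_lit 0, nat_lit 0, nat_lit 611000, nat_lit 0, nat_lit 0, [(nat_lit 3, [(nat_lit 6, nat_lit 611)])],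
 ⟨p026_k26, nat_lit 0, nat_lit 0, nat_lit 166, nat_lit 0, nat_lit 143696, [nat_lit 3067388286, nat_lit 2329447600], [], [nat_lit 16598573876, nat_lit 17312834800, nat_lit 15628707827, nat_lit 16301482903, nat_lit 18058913707, nat_lit 19100963350, nat_lit 16879931382, nat_lit 17705811226], nat_lit 1271250, nat_lit 1271250, nat_lit 21650, nat_lit 88400, nat_lit 1271250, nat_lit 1271250, [nat_lit 1412500, nat_lit 1271250], [nat_lit 26, nat_lit 40, nat_lit 20, nat_lit 80, nat_lit 2, nat_lit 289, nat_lit 75, nat_lit 9]⟩, ⟨p026_k26, nat_lit 0, nat_lit 0, nat_lit 171, nat_lit 0, nat_lit 0, [nat_lit 2431250000, nat_lit 3099552000], [], [nat_lit 8044167708, nat_lit 8202216721, nat_lit 7423813428, nat_lit 7574918835, nat_lit 6881594775, nat_lit 7048791080, nat_lit 6304332458, nat_lit 6471355087], nat_lit 0, nat_lit 0, nat_lit 0, nat_lit 0, nat_lit 0, nat_lit 0, [], [nat_lit 26, nat_lit 40, nat_lit 20, nat_lit 80, nat_lit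 2, nat_lit 289, nat_lit 75, nat_lit 10]⟩,
 ⟨nat_lit 6324, nat_lit 6615, ⟨.ofNat (nat_lit 109456), .ofNat (nat_lit 135006), .ofNat (nat_lit 114811), .ofNat (nat_lit 140360), .ofNat (nat_lit 123614), .ofNat (nat_lit 148293), .ofNat (nat_lit 128956), .ofNat (nat_lit 153635)⟩, ⟨.ofNat (nat_lit 392412), .ofNat (nat_lit 434995), .ofNat (nat_lit 413829), .ofNat (nat_lit 456412), .ofNat (nat_lit 389952), .ofNat (nat_lit 431084), .ofNat (nat_lit 411320), .ofNat (nat_lit 452452)⟩⟩, [⟨nat_lit 0, nat_lit 100, nat_lit 100, nat_lit 30, nat_lit 1152376051⟩, ⟨nat_lit 16, nat_lit 100, nat_lit 94, nat_lit 53, nat_lit 95684935⟩]⟩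
noncomputable def p026_l143 : Lf2 := ⟨nat_lit 0, nat_lit 1, [nat_lit 19, nat_lit 5, nat_lit 5, nat_lit 20], false, nat_lit 260, nat_lit 280, nat_lit 0, nat_lit 40, ⟨nat_lit 1000, nat_lit 0, nat_lit 0, nat_lit 0, nat_lit 0, nat_lit 0, nat_lit 0, nat_lit 0, nat_lit 0, nat_lit 0, nat_lit 0, nat_lit 0, nat_lit 0, nat_lit 0, nat_lit 0, nat_lit 0, false, false⟩,
 nat_lit 0, nat_lit 21333, nat_lit 0, nat_lit 9585, nat_lit 10472, nat_lit 9593, nat_lit 3761, nat_lit 0, nat_lit 0, nat_lit 4979, nat_lit 0, nat_lit 0, nat_lit 0, nat_lit 13988013310632, nat_lit 0, nat_lit 0, nat_lit 0, nat_lit 0, [],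
 ⟨p026_k39, nat_lit 0, nat_lit 0, nat_lit 168, nat_lit 0, nat_lit 141315, [nat_lit 6250000000, nat_lit 7968000000], [], [nat_lit 20195069743, nat_lit 21654870261, nat_lit 18481252346, nat_lit 19442100876, nat_lit 23195100700, nat_lit 24528938954, nat_lit 20973757385, nat_lit 22315517143], nat_lit 1271250, nat_lit 1271250, nat_lit 21650, nat_lit 88400, nat_lit 1271250, nat_lit 1271250, [nat_lit 1412500, nat_lit 1271250], [nat_lit 26, nat_lit 40, nat_lit 20, nat_lit 80, nat_lit 2, nat_lit 289, nat_lit 75, nat_lit 9]⟩, ⟨p026_k39, nat_lit 0, nat_lit 0, nat_lit 171, nat_lit 0, nat_lit 0, [nat_lit 6250000000, nat_lit 7968000000], [], [nat_lit 20627176240, nat_lit 21088170915, nat_lit 19032119662, nat_lit 19471237791, nat_lit 17688519146, nat_lit 18118377950, nat_lit 16204257015, nat_lit 16633669382], nat_lit 0, nat_lit 0, nat_lit 0, nat_lit 0, nat_lit 0, nat_lit 0, [], [nat_lit 26, nat_lit 40, nat_lit 20, nat_lit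 80, nat_lit 2, nat_lit 289, nat_lit 75, nat_lit 10]⟩,
 zbF0, [⟨nat_lit 0, nat_lit 100, nat_lit 100, nat_lit 30, nat_lit 1157062524⟩, ⟨nat_lit 0, nat_lit 100, nat_lit 100, nat_lit 25, nat_lit 1091655631⟩, ⟨nat_lit 4, nat_lit 94, nat_lit 100, nat_lit 53, nat_lit 1866878754⟩]⟩
noncomputable def p026_l144 : Lf2 := ⟨nat_lit 0, nat_lit 2, [nat_lit 10, nat_lit 5, nat_lit 5, nat_lit 20], false, nat_lit 260, nat_lit 280, nat_lit 0, nat_lit 40, ⟨nat_lit 403, nat_lit 0, nat_lit 597, nat_lit 5, nat_lit 51, nat_lit 597, nat_lit 186, nat_lit 597, nat_lit 41105, nat_lit 263, nat_lit 24067, nat_lit 253, nat_lit 53377073, nat_lit 0, nat_lit 0, nat_lit 3014448, false, false⟩,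
 nat_lit 0, nat_lit 14988, nat_lit 0, nat_lit 4963, nat_lit 7357, nat_lit 3860, nat_lit 1089, nat_lit 0, nat_lit 0, nat_lit 1984, nat_lit 0, nat_lit 0, nat_lit 0, nat_lit 19270219155355, nat_lit 0, nat_lit 597000, nat_lit 0, nat_lit 0, [(nat_lit 3, [(nat_lit 6, nat_lit 597)])],
 ⟨p026_k26, nat_lit 0, nat_lit 0, nat_lit 148, nat_lit 0, nat_lit 37521, [nat_lit 3140312286, nat_lit 2458645200], [], [nat_lit 18096045559, nat_lit 18372182190, nat_lit 16918127235, nat_lit 17180589993, nat_lit 20318787575, nat_lit 20682115648, nat_lit 18794824229, nat_lit 19159880731], nat_lit 1271250, nat_lit 1271250, nat_lit 21650, nat_lit 88400, nat_lit 1271250, nat_lit 1271250, [nat_lit 1412500, nat_lit 1271250], [nat_lit 26, nat_lit 40, nat_lit 20, nat_lit 80, nat_lit 2, nat_lit 289, nat_lit 75, nat_lit 9]⟩, ⟨p026_k26, nat_lit 0, nat_lit 0, nat_lit 171, nat_lit 0, nat_lit 0, [nat_lit 2518750000, nat_lit 3211104000], [], [nat_lit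 8338513893, nat_lit 8494676728, nat_lit 7696789983, nat_lit 7853062467, nat_lit 7135192540, nat_lit 7308259870, nat_lit 6538056301, nat_lit 6710943609], nat_lit 0, nat_lit 0, nat_lit 0, nat_lit 0, nat_lit 0, nat_lit 0, [], [nat_lit 26, nat_lit 40, nat_lit 20, nat_lit 80, nat_lit 2, nat_lit 289, nat_lit 75, nat_lit 10]⟩,
 ⟨nat_lit 6519, nat_lit 6615, ⟨.ofNat (nat_lit 109456), .ofNat (nat_lit 135006), .ofNat (nat_lit 114811), .ofNat (nat_lit 140360), .ofNat (nat_lit 114225), .ofNat (nat_lit 139482), .ofNat (nat_lit 119575), .ofNat (nat_lit 144831)⟩, ⟨.ofNat (nat_lit 434995), .ofNat (nat_lit 477578), .ofNat (nat_lit 456412), .ofNat (nat_lit 498994), .ofNat (nat_lit 433698), .ofNat (nat_lit 475792), .ofNat (nat_lit 455096), .ofNat (nat_lit 497189)⟩⟩, [⟨nat_lit 0, nat_lit 100, nat_lit 100, nat_lit 28, nat_lit 463070257⟩, ⟨nat_lit 0, nat_lit 100, nat_lit 100, nat_lit 30, nat_lit 707682912⟩, ⟨nat_lit 4, nat_lit 92,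 nat_lit 100, nat_lit 53, nat_lit 1229302610⟩]⟩
noncomputable def p026_l145 : Lf2 := ⟨nat_lit 0, nat_lit 2, [nat_lit 10, nat_lit 5, nat_lit 5, nat_lit 20], false, nat_lit 260, nat_lit 280, nat_lit 0, nat_lit 40, ⟨nat_lit 524, nat_lit 0, nat_lit 476, nat_lit 5, nat_lit 54, nat_lit 476, nat_lit 186, nat_lit 476, nat_lit 41329, nat_lit 264, nat_lit 26667, nat_lit 255, nat_lit 53337180, nat_lit 0, nat_lit 0, nat_lit 3044591, false, false⟩,
 nat_lit 0, nat_lit 16300, nat_lit 0, nat_lit 6119, nat_lit 8209, nat_lit 5023, nat_lit 1368, nat_lit 0, nat_lit 0, nat_lit 2581, nat_lit 0, nat_lit 0, nat_lit 0, nat_lit 0, nat_lit 0, nat_lit 190400, nat_lit 0, nat_lit 0, [(nat_lit 3, [(nat_lit 5, nat_lit 476)])],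
 ⟨p026_k14, nat_lit 0, nat_lit 0, nat_lit 149, nat_lit 0, nat_lit 86259, [nat_lit 4022510400, nat_lit 3824134400], [], [nat_lit 19001992399, nat_lit 19841412043, nat_lit 17656642510, nat_lit 18239029313, nat_lit 21491063747, nat_lit 22262185090, nat_lit 19778334240, nat_lit 20553411373], nat_lit 1271250, nat_lit 1271250, nat_lit 21650, nat_lit 88400, nat_lit 1271250, nat_lit 1271250, [nat_lit 1412500, nat_lit 1271250], [nat_lit 26, nat_lit 40, nat_lit 20, nat_lit 80, nat_lit 2, nat_lit 289, nat_lit 75, nat_lit 9]⟩, ⟨p026_k26, nat_lit 0, nat_lit 0, nat_lit 171, nat_lit 0, nat_lit 0, [nat_lit 3275000000, nat_lit 4175232000], [], [nat_lit 10838649263, nat_lit 11044238269, nat_lit 10003516164, nat_lit 10206805572, nat_lit 9272978132, nat_lit 9498120675, nat_lit 8495862317, nat_lit 8720770860], nat_lit 0, nat_lit 0, nat_lit 0, nat_lit 0, nat_lit 0, nat_lit 0, [], [nat_lit 26, nat_lit 40, nat_lit 20, nat_lit 80,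 nat_lit 2, nat_lit 289, nat_lit 75, nat_lit 10]⟩,
 ⟨nat_lit 6324, nat_lit 6520, ⟨.ofNat (nat_lit 114225), .ofNat (nat_lit 139482), .ofNat (nat_lit 119575), .ofNat (nat_lit 144831), .ofNat (nat_lit 123614), .ofNat (nat_lit 148293), .ofNat (nat_lit 128956), .ofNat (nat_lit 153635)⟩, ⟨.ofNat (nat_lit 433698), .ofNat (nat_lit 475792), .ofNat (nat_lit 455096), .ofNat (nat_lit 497189), .ofNat (nat_lit 431084), .ofNat (nat_lit 472216), .ofNat (nat_lit 452452), .ofNat (nat_lit 493584)⟩⟩, [⟨nat_lit 0, nat_lit 100, nat_lit 99, nat_lit 31, nat_lit 1420575924⟩, ⟨nat_lit 4, nat_lit 94, nat_lit 100, nat_lit 54, nat_lit 1350333999⟩]⟩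
noncomputable def p026_l146 : Lf2 := ⟨nat_lit 1, nat_lit 3, [nat_lit 45, nat_lit 5, nat_lit 5, nat_lit 20], false, nat_lit 240, nat_lit 280, nat_lit 0, nat_lit 40, zbN0,
 nat_lit 0, nat_lit 0, nat_lit 0, nat_lit 0, nat_lit 0, nat_lit 0, nat_lit 0, nat_lit 0, nat_lit 0, nat_lit 0, nat_lit 0, nat_lit 0, nat_lit 0, nat_lit 0, nat_lit 0, nat_lit 0, nat_lit 0, nat_lit 0, [],
 C1.Rw.none, C1.Rw.none,
 zbF0, []⟩
noncomputable def p026_l147 : Lf2 := ⟨nat_lit 0, nat_lit 3, [nat_lit 45, nat_lit 5, nat_lit 5, nat_lit 20], false, nat_lit 240, nat_lit 280, nat_lit 0, nat_lit 40, ⟨nat_lit 129, nat_lit 0, nat_lit 871, nat_lit 5, nat_lit 53, nat_lit 871, nat_lit 177, nat_lit 871, nat_lit 41329, nat_lit 264, nat_lit 25350, nat_lit 254, nat_lit 54226643, nat_lit 0, nat_lit 0, nat_lit 2929780, false, false⟩,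
 nat_lit 0, nat_lit 13244, nat_lit 0, nat_lit 6944, nat_lit 6670, nat_lit 1328, nat_lit 0, nat_lit 0, nat_lit 0, nat_lit 570, nat_lit 0, nat_lit 0, nat_lit 0, nat_lit 0, nat_lit 0, nat_lit 348400, nat_lit 0, nat_lit 0, [(nat_lit 3, [(nat_lit 5, nat_lit 871)])],
 ⟨p026_k16, nat_lit 0, nat_lit 0, nat_lit 156, nat_lit 0, nat_lit 42019, [nat_lit 2174068400, nat_lit 385422400], [], [nat_lit 16007354602, nat_lit 16574689600, nat_lit 14943398099, nat_lit 15511114601, nat_lit 20029830032, nat_lit 20720632196, nat_lit 18661198149, nat_lit 19355054864], nat_lit 1271250, nat_lit 1271250, nat_lit 21650, nat_lit 88400, nat_lit 1271250, nat_lit 1271250, [nat_lit 1412500, nat_lit 1271250], [nat_lit 26, nat_lit 40, nat_lit 20, nat_lit 80, nat_lit 2, nat_lit 289, nat_lit 75, nat_lit 9]⟩, ⟨p026_k40, nat_lit 0, nat_lit 0, nat_lit 289, nat_lit 0, nat_lit 0, [nat_lit 806250000, nat_lit 1027872000, nat_lit 1269618000], [], [nat_lit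 2749761340, nat_lit 2864987055, nat_lit 2527549321, nat_lit 2632002796, nat_lit 2326992502, nat_lit 2428900114, nat_lit 2119833770, nat_lit 2221711214], nat_lit 0, nat_lit 0, nat_lit 0, nat_lit 0, nat_lit 0, nat_lit 0, [], [nat_lit 25, nat_lit 40, nat_lit 20, nat_lit 80, nat_lit 17, nat_lit 289, nat_lit 75, nat_lit 9]⟩,
 ⟨nat_lit 6324, nat_lit 6520, ⟨.ofNat (nat_lit 108876), .ofNat (nat_lit 134132), .ofNat (nat_lit 119575), .ofNat (nat_lit 144831), .ofNat (nat_lit 118272), .ofNat (nat_lit 142951), .ofNat (nat_lit 128956), .ofNat (nat_lit 153635)⟩, ⟨.ofNat (nat_lit 391604), .ofNat (nat_lit 475792), .ofNat (nat_lit 413002), .ofNat (nat_lit 497189), .ofNat (nat_lit 389952), .ofNat (nat_lit 472216), .ofNat (nat_lit 411320), .ofNat (nat_lit 493584)⟩⟩, [⟨nat_lit 0, nat_lit 100, nat_lit 99, nat_lit 30, nat_lit 747463135⟩, ⟨nat_lit 4, nat_lit 94, nat_lit 100, nat_lit 54, nat_lit 921943733⟩]⟩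
noncomputable def p026_l148 : Lf2 := ⟨nat_lit 0, nat_lit 3, [nat_lit 45, nat_lit 5, nat_lit 5, nat_lit 20], false, nat_lit 240, nat_lit 280, nat_lit 40, nat_lit 80, ⟨nat_lit 1000, nat_lit 0, nat_lit 0, nat_lit 0, nat_lit 0, nat_lit 0, nat_lit 0, nat_lit 0, nat_lit 0, nat_lit 0, nat_lit 0, nat_lit 0, nat_lit 0, nat_lit 0, nat_lit 0, nat_lit 0, false, false⟩,
 nat_lit 0, nat_lit 22033, nat_lit 0, nat_lit 16215, nat_lit 10537, nat_lit 11876, nat_lit 3148, nat_lit 0, nat_lit 0, nat_lit 4742, nat_lit 0, nat_lit 0, nat_lit 0, nat_lit 8267783355772, nat_lit 0, nat_lit 0, nat_lit 0, nat_lit 0, [],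
 ⟨p026_k40, nat_lit 0, nat_lit 0, nat_lit 219, nat_lit 0, nat_lit 150545, [nat_lit 6250000000, nat_lit 7968000001, nat_lit 9842000000], [], [nat_lit 19606707158, nat_lit 20820596260, nat_lit 17839816294, nat_lit 19055923909, nat_lit 23288890547, nat_lit 24594046776, nat_lit 21515035196, nat_lit 22647389688], nat_lit 1271250, nat_lit 1271250, nat_lit 21650, nat_lit 88400, nat_lit 1271250, nat_lit 1271250, [nat_lit 1412500, nat_lit 1271250, nat_lit 1271250], [nat_lit 25, nat_lit 40, nat_lit 20, nat_lit 80, nat_lit 17, nat_lit 373, nat_lit 150, nat_lit 10]⟩, ⟨p026_k40, nat_lit 0, nat_lit 0, nat_lit 195, nat_lit 0, nat_lit 0, [nat_lit 6250000000, nat_lit 7968000000, nat_lit 9842000000], [], [nat_lit 16759197516, nat_lit 17719121561, nat_lit 14418873693, nat_lit 15385899572, nat_lit 12396143357, nat_lit 13238037740, nat_lit 10654197628, nat_lit 11494966268], nat_lit 0, nat_lit 0, nat_lit 0, nat_lit 0, nat_lit 0,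 nat_lit 0, [], [nat_lit 25, nat_lit 40, nat_lit 20, nat_lit 80, nat_lit 17, nat_lit 317, nat_lit 100, nat_lit 10]⟩,
 zbF0, [⟨nat_lit 0, nat_lit 100, nat_lit 100, nat_lit 27, nat_lit 2578652464⟩, ⟨nat_lit 4, nat_lit 93, nat_lit 100, nat_lit 53, nat_lit 1310458012⟩]⟩
noncomputable def p026_l149 : Lf2 := ⟨nat_lit 0, nat_lit 3, [nat_lit 45, nat_lit 5, nat_lit 5, nat_lit 20], false, nat_lit 240, nat_lit 280, nat_lit 80, nat_lit 160, ⟨nat_lit 1000, nat_lit 0, nat_lit 0, nat_lit 0, nat_lit 0, nat_lit 0, nat_lit 0, nat_lit 0, nat_lit 0, nat_lit 0, nat_lit 0, nat_lit 0, nat_lit 0, nat_lit 0, nat_lit 0, nat_lit 0, false, false⟩,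
 nat_lit 0, nat_lit 20904, nat_lit 0, nat_lit 3457, nat_lit 9997, nat_lit 13004, nat_lit 4340, nat_lit 0, nat_lit 0, nat_lit 0, nat_lit 0, nat_lit 0, nat_lit 0, nat_lit 15497140529572, nat_lit 0, nat_lit 0, nat_lit 0, nat_lit 0, [],
 ⟨p026_k40, nat_lit 0, nat_lit 0, nat_lit 219, nat_lit 0, nat_lit 150545, [nat_lit 6250000000, nat_lit 7968000001, nat_lit 9842000000], [], [nat_lit 19092010129, nat_lit 20121131122, nat_lit 17707497486, nat_lit 18735988069, nat_lit 22324804982, nat_lit 24053151024, nat_lit 20746199254, nat_lit 21945654023], nat_lit 1271250, nat_lit 1271250, nat_lit 21650, nat_lit 88400, nat_lit 1271250, nat_lit 1271250, [nat_lit 1412500, nat_lit 1271250, nat_lit 1271250], [nat_lit 25, nat_lit 40, nat_lit 20, nat_lit 80, nat_lit 17, nat_lit 373, nat_lit 150, nat_lit 10]⟩, ⟨p026_k40, nat_lit 0, nat_lit 0, nat_lit 52, nat_lit 0, nat_lit 0, [nat_lit 6250000000, nat_lit 7968000000, nat_lit 9842000000],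 [], [nat_lit 9354672972, nat_lit 11050342041, nat_lit 6270964533, nat_lit 7976641920, nat_lit 9100241864, nat_lit 10646236200, nat_lit 6291767271, nat_lit 7791081897], nat_lit 0, nat_lit 0, nat_lit 0, nat_lit 0, nat_lit 0, nat_lit 0, [], [nat_lit 25, nat_lit 40, nat_lit 20, nat_lit 80, nat_lit 17, nat_lit 345, nat_lit 125, nat_lit 10]⟩,
 zbF0, [⟨nat_lit 0, nat_lit 100, nat_lit 100, nat_lit 27, nat_lit 2636215179⟩, ⟨nat_lit 4, nat_lit 93, nat_lit 100, nat_lit 53, nat_lit 1204615176⟩]⟩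
noncomputable def p026_l150 : Lf2 := ⟨nat_lit 0, nat_lit 3, [nat_lit 45, nat_lit 5, nat_lit 5, nat_lit 20], false, nat_lit 240, nat_lit 280, nat_lit 0, nat_lit 160, ⟨nat_lit 566, nat_lit 0, nat_lit 434, nat_lit 5, nat_lit 57, nat_lit 434, nat_lit 178, nat_lit 434, nat_lit 35833, nat_lit 261, nat_lit 30817, nat_lit 258, nat_lit 53925321, nat_lit 0, nat_lit 0, nat_lit 3009514, false, false⟩,
 nat_lit 0, nat_lit 17884, nat_lit 0, nat_lit 6179, nat_lit 8553, nat_lit 6103, nat_lit 2088, nat_lit 0, nat_lit 0, nat_lit 2588, nat_lit 0, nat_lit 0, nat_lit 0, nat_lit 0, nat_lit 0, nat_lit 434000, nat_lit 0, nat_lit 0, [(nat_lit 3, [(nat_lit 6, nat_lit 434)])],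
 ⟨p026_k40, nat_lit 0, nat_lit 0, nat_lit 201, nat_lit 0, nat_lit 150545, [nat_lit 3989356000, nat_lit 3962874401, nat_lit 4183334400], [], [nat_lit 15406136068, nat_lit 16504781108, nat_lit 15017630631, nat_lit 16036823681, nat_lit 19234806809, nat_lit 20821270138, nat_lit 18636873458, nat_lit 20226108278], nat_lit 1271250, nat_lit 1271250, nat_lit 88400, nat_lit 111251, nat_lit 1271250, nat_lit 1271250, [nat_lit 1412500, nat_lit 1271250, nat_lit 1271250], [nat_lit 25, nat_lit 40, nat_lit 20, nat_lit 80, nat_lit 17, nat_lit 373, nat_lit 150, nat_lit 10]⟩, ⟨p026_k40, nat_lit 0, nat_lit 0, nat_lit 224, nat_lit 0, nat_lit 0, [nat_lit 3537500000, nat_lit 4509888000, nat_lit 5570572000], [], [nat_lit 10815072602, nat_lit 11286549821, nat_lit 10473377978, nat_lit 10944996995, nat_lit 7084973472, nat_lit 7471332462, nat_lit 6800119216, nat_lit 7186264598], nat_lit 0, nat_lit 0, nat_lit 0, nat_lit 0, nat_lit 0, nat_lit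 0, [], [nat_lit 25, nat_lit 40, nat_lit 20, nat_lit 80, nat_lit 17, nat_lit 345, nat_lit 125, nat_lit 11]⟩,
 ⟨nat_lit 6324, nat_lit 6709, ⟨.ofNat (nat_lit 125122), .ofNat (nat_lit 133737), .ofNat (nat_lit 135841), .ofNat (nat_lit 144456), .ofNat (nat_lit 142951), .ofNat (nat_lit 151177), .ofNat (nat_lit 153635), .ofNat (nat_lit 161861)⟩, ⟨.ofNat (nat_lit 393209), .ofNat (nat_lit 479364), .ofNat (nat_lit 414647), .ofNat (nat_lit 500798), .ofNat (nat_lit 389952), .ofNat (nat_lit 472216), .ofNat (nat_lit 411320), .ofNat (nat_lit 493579)⟩⟩, [⟨nat_lit 4, nat_lit 93, nat_lit 100, nat_lit 53, nat_lit 1241300898⟩]⟩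
noncomputable def p026_l151 : Lf2 := ⟨nat_lit 0, nat_lit 3, [nat_lit 45, nat_lit 5, nat_lit 5, nat_lit 20], false, nat_lit 240, nat_lit 280, nat_lit 160, nat_lit 252, ⟨nat_lit 1000, nat_lit 0, nat_lit 0, nat_lit 0, nat_lit 0, nat_lit 0, nat_lit 0, nat_lit 0, nat_lit 0, nat_lit 0, nat_lit 0, nat_lit 0, nat_lit 0, nat_lit 0, nat_lit 0, nat_lit 0, false, false⟩,
 nat_lit 0, nat_lit 22542, nat_lit 0, nat_lit 0, nat_lit 10780, nat_lit 12785, nat_lit 4924, nat_lit 0, nat_lit 0, nat_lit 0, nat_lit 0, nat_lit 0, nat_lit 0, nat_lit 0, nat_lit 0, nat_lit 0, nat_lit 0, nat_lit 0, [],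
 ⟨p026_k40, nat_lit 0, nat_lit 0, nat_lit 219, nat_lit 0, nat_lit 150545, [nat_lit 6250000000, nat_lit 7968000001, nat_lit 9842000000], [], [nat_lit 17568192625, nat_lit 18966522201, nat_lit 15562458801, nat_lit 16686613760, nat_lit 23026850313, nat_lit 24837449864, nat_lit 19969479080, nat_lit 21794642280], nat_lit 1271250, nat_lit 1271250, nat_lit 21650, nat_lit 111251, nat_lit 1271250, nat_lit 1271250, [nat_lit 1412500, nat_lit 1271250, nat_lit 1271250], [nat_lit 25, nat_lit 40, nat_lit 20, nat_lit 80, nat_lit 17, nat_lit 373, nat_lit 150, nat_lit 10]⟩, ⟨p026_k40, nat_lit 0, nat_lit 0, nat_lit 85, nat_lit 0, nat_lit 0, [nat_lit 6250000000, nat_lit 7968000000, nat_lit 9842000000], [], [nat_lit 9096986211, nat_lit 10623580694, nat_lit 5794626680, nat_lit 6977485860, nat_lit 19869957108, nat_lit 21021700637, nat_lit 16215441732, nat_lit 17375161351], nat_lit 0, nat_lit 0, nat_lit 0, nat_lit 0, nat_lit 0, nat_lit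 0, [], [nat_lit 25, nat_lit 40, nat_lit 20, nat_lit 80, nat_lit 17, nat_lit 373, nat_lit 150, nat_lit 11]⟩,
 zbF0, [⟨nat_lit 0, nat_lit 100, nat_lit 99, nat_lit 35, nat_lit 412952092⟩, ⟨nat_lit 4, nat_lit 93, nat_lit 100, nat_lit 53, nat_lit 291505930⟩, ⟨nat_lit 23, nat_lit 95, nat_lit 100, nat_lit 34, nat_lit 2393360822⟩]⟩
noncomputable def p026_l152 : Lf2 := ⟨nat_lit 0, nat_lit 3, [nat_lit 45, nat_lit 5, nat_lit 5, nat_lit 20], false, nat_lit 240, nat_lit 280, nat_lit 0, nat_lit 160, ⟨nat_lit 175, nat_lit 0, nat_lit 825, nat_lit 5, nat_lit 68, nat_lit 825, nat_lit 178, nat_lit 825, nat_lit 35833, nat_lit 261, nat_lit 43350, nat_lit 266, nat_lit 53378620, nat_lit 0, nat_lit 0, nat_lit 3160908, false, false⟩,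
 nat_lit 0, nat_lit 12483, nat_lit 0, nat_lit 0, nat_lit 5970, nat_lit 1803, nat_lit 646, nat_lit 0, nat_lit 0, nat_lit 1294, nat_lit 0, nat_lit 0, nat_lit 0, nat_lit 5131367469419, nat_lit 33, nat_lit 825000, nat_lit 0, nat_lit 0, [(nat_lit 3, [(nat_lit 6, nat_lit 825)])],
 ⟨p026_k4, nat_lit 0, nat_lit 0, nat_lit 185, nat_lit 0, nat_lit 150545, [nat_lit 2612692858, nat_lit 9320000], [], [nat_lit 14891236316, nat_lit 15834232520, nat_lit 14161055976, nat_lit 15078225036, nat_lit 17519596990, nat_lit 18406834220, nat_lit 16625589256, nat_lit 17429724856], nat_lit 1271250, nat_lit 1271250, nat_lit 111251, nat_lit 230001, nat_lit 1271250, nat_lit 1271250, [nat_lit 1412500, nat_lit 1271250], [nat_lit 51, nat_lit 40, nat_lit 20, nat_lit 80, nat_lit 1, nat_lit 373, nat_lit 150, nat_lit 10]⟩, ⟨p026_k4, nat_lit 0, nat_lit 0, nat_lit 196, nat_lit 0, nat_lit 0, [nat_lit 1093750000, nat_lit 1722350000], [], [nat_lit 3039925526,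 nat_lit 3202328910, nat_lit 2727015972, nat_lit 2886686638, nat_lit 2083406944, nat_lit 2215744136, nat_lit 1830942026, nat_lit 1961406837], nat_lit 0, nat_lit 0, nat_lit 0, nat_lit 0, nat_lit 0, nat_lit 0, [], [nat_lit 51, nat_lit 40, nat_lit 20, nat_lit 80, nat_lit 1, nat_lit 345, nat_lit 125, nat_lit 10]⟩,
 ⟨nat_lit 6324, nat_lit 6709, ⟨.ofNat (nat_lit 133737), .ofNat (nat_lit 176815), .ofNat (nat_lit 144456), .ofNat (nat_lit 187534), .ofNat (nat_lit 151177), .ofNat (nat_lit 192309), .ofNat (nat_lit 161861), .ofNat (nat_lit 202993)⟩, ⟨.ofNat (nat_lit 393209), .ofNat (nat_lit 479364), .ofNat (nat_lit 414647), .ofNat (nat_lit 500798), .ofNat (nat_lit 389952), .ofNat (nat_lit 472216), .ofNat (nat_lit 411320), .ofNat (nat_lit 493579)⟩⟩, [⟨nat_lit 4, nat_lit 93, nat_lit 100, nat_lit 53, nat_lit 626820326⟩]⟩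
noncomputable def p026_l153 : Lf2 := ⟨nat_lit 0, nat_lit 3, [nat_lit 45, nat_lit 5, nat_lit 5, nat_lit 20], false, nat_lit 240, nat_lit 280, nat_lit 160, nat_lit 288, ⟨nat_lit 580, nat_lit 0, nat_lit 420, nat_lit 5, nat_lit 68, nat_lit 420, nat_lit 178, nat_lit 420, nat_lit 35833, nat_lit 261, nat_lit 43350, nat_lit 266, nat_lit 53378620, nat_lit 0, nat_lit 0, nat_lit 3160908, false, false⟩,
 nat_lit 0, nat_lit 18585, nat_lit 0, nat_lit 0, nat_lit 8888, nat_lit 5451, nat_lit 3676, nat_lit 0, nat_lit 0, nat_lit 0, nat_lit 0, nat_lit 0, nat_lit 0, nat_lit 0, nat_lit 0, nat_lit 420000, nat_lit 0, nat_lit 0, [(nat_lit 3, [(nat_lit 6, nat_lit 420)])],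
 ⟨p026_k4, nat_lit 0, nat_lit 0, nat_lit 185, nat_lit 0, nat_lit 150545, [nat_lit 4062280000, nat_lit 4365872000], [], [nat_lit 14243711840, nat_lit 15351037152, nat_lit 12998440304, nat_lit 14090975328, nat_lit 18837332768, nat_lit 20462057488, nat_lit 16824462512, nat_lit 18446616816], nat_lit 1271250, nat_lit 1271250, nat_lit 111251, nat_lit 230001, nat_lit 1271250, nat_lit 1271250, [nat_lit 1412500, nat_lit 1271250], [nat_lit 51, nat_lit 40, nat_lit 20, nat_lit 80, nat_lit 1, nat_lit 373, nat_lit 150, nat_lit 10]⟩, ⟨p026_k4, nat_lit 0, nat_lit 0, nat_lit 65, nat_lit 0, nat_lit 0, [nat_lit 3625000000, nat_lit 5708360000], [], [nat_lit 5591841128, nat_lit 6149143516, nat_lit 4684831304, nat_lit 5236450884, nat_lit 11857268447, nat_lit 12223972525, nat_lit 10887103795, nat_lit 11249863476], nat_lit 0, nat_lit 0, nat_lit 0, nat_lit 0, nat_lit 0, nat_lit 0, [], [nat_lit 51, nat_lit 40, nat_lit 20, nat_lit 80,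 nat_lit 1, nat_lit 373, nat_lit 150, nat_lit 11]⟩,
 ⟨nat_lit 6324, nat_lit 6709, ⟨.ofNat (nat_lit 133737), .ofNat (nat_lit 176815), .ofNat (nat_lit 144456), .ofNat (nat_lit 187534), .ofNat (nat_lit 151177), .ofNat (nat_lit 192309), .ofNat (nat_lit 161861), .ofNat (nat_lit 202993)⟩, ⟨.ofNat (nat_lit 393209), .ofNat (nat_lit 479364), .ofNat (nat_lit 414647), .ofNat (nat_lit 500798), .ofNat (nat_lit 389952), .ofNat (nat_lit 472216), .ofNat (nat_lit 411320), .ofNat (nat_lit 493579)⟩⟩, [⟨nat_lit 4, nat_lit 93, nat_lit 100, nat_lit 53, nat_lit 722380276⟩, ⟨nat_lit 11, nat_lit 100, nat_lit 96, nat_lit 42, nat_lit 900257756⟩]⟩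
noncomputable def p026_l154 : Lf2 := ⟨nat_lit 1, nat_lit 5, [nat_lit 4, nat_lit 5, nat_lit 5, nat_lit 20], false, nat_lit 240, nat_lit 280, nat_lit 0, nat_lit 288, zbN0,
 nat_lit 0, nat_lit 0, nat_lit 0, nat_lit 0, nat_lit 0, nat_lit 0, nat_lit 0, nat_lit 0, nat_lit 0, nat_lit 0, nat_lit 0, nat_lit 0, nat_lit 0, nat_lit 0, nat_lit 0, nat_lit 0, nat_lit 0, nat_lit 0, [],
 C1.Rw.none, C1.Rw.none,
 zbF0, []⟩
noncomputable def b_VL_500_500_5_12 : St := ⟨true, nat_lit 1, nat_lit 0, nat_lit 1, nat_lit 40, nat_lit 220, nat_lit 240, nat_lit 220, nat_lit 230, nat_lit 4, nat_lit 40, nat_lit 20, nat_lit 40, nat_lit 240, nat_lit 280, nat_lit 0, nat_lit 288, nat_lit 0, nat_lit 20, nat_lit 0, nat_lit 0, nat_lit 0, nat_lit 0⟩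
theorem d_VL_500_500_5_12 (h : EB TB.env) : Dead b_VL_500_500_5_12 := chkB_sound0 h (T :=
(.spl (nat_lit 6) (nat_lit 12)
(.spl (nat_lit 2) (nat_lit 20)
(.trX (nat_lit 23) (nat_lit 100) (nat_lit 99) (nat_lit 44) (nat_lit 252) (.spl (nat_lit 5) (nat_lit 160)
(.spl (nat_lit 2) (nat_lit 16)
(.spl (nat_lit 5) (nat_lit 80)
(.spl (nat_lit 5) (nat_lit 40)
(.spl (nat_lit 6) (nat_lit 8)
(.spl (nat_lit 1) (nat_lit 225)
(.spl (nat_lit 4) (nat_lit 260)
(.leaf p026_l137)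
(.spl (nat_lit 1) (nat_lit 223)
(.spl (nat_lit 1) (nat_lit 222)
(.leaf p026_l138)
(.ord (.leaf p026_l139)))
(.ord (.spl (nat_lit 1) (nat_lit 224)
(.leaf p026_l140)
(.ord (.leaf p026_l141))))))
(.ord (.spl (nat_lit 4) (nat_lit 260)
(.leaf p026_l142)
(.spl (nat_lit 6) (nat_lit 4)
(.leaf p026_l143)
(.spl (nat_lit 0) (nat_lit 230)
(.leaf p026_l144)
(.leaf p026_l145))))))
(.spl (nat_lit 0) (nat_lit 230)
(.leaf p026_l146)
(.leaf p026_l147)))
(.leaf p026_l148))
(.leaf p026_l149))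
(.leaf p026_l150))
(.leaf p026_l151)))
(.spl (nat_lit 5) (nat_lit 160)
(.leaf p026_l152)
(.leaf p026_l153)))
(.leaf p026_l154))) (by decide +kernel)

end B2
end Pool.Agent.Lib.MP_6947cd_al
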