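import Pool.Agent.Lib.MP_6947cd_al.ZB.Pre

/-!
Problem MP_6947cd_al (Chollet).  Case B, second entry in [2/5, 17/20]: certificates of the tree, part P036 (generated).
-/

set_option autoImplicit false
set_option linter.all false

namespace Pool.Agent.Lib.MP_6947cd_al
namespace B2

open Ent Fr B1 PkA

noncomputable def p036_k0 : C1.Kn := ⟨[nat_lit 80, nat_lit 100], [nat_lit 0, nat_lit 132], [(nat_lit 0, nat_lit 0, nat_lit 0), (nat_lit 1000, nat_lit 979, nat_lit 103)], (nat_lit 97, nat_lit 100, nat_lit 20)⟩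
noncomputable def p036_k1 : C1.Kn := ⟨[nat_lit 80, nat_lit 100], [nat_lit 0, nat_lit 106], [(nat_lit 0, nat_lit 0, nat_lit 0), (nat_lit 1000, nat_lit 983, nat_lit 83)], (nat_lit 97, nat_lit 100, nat_lit 20)⟩
noncomputable def p036_k2 : C1.Kn := ⟨[nat_lit 80, nat_lit 100], [nat_lit 0, nat_lit 119], [(nat_lit 0, nat_lit 0, nat_lit 0), (nat_lit 1000, nat_lit 981, nat_lit 93)], (nat_lit 97, nat_lit 100, nat_lit 20)⟩
noncomputable def p036_k3 : C1.Kn := ⟨[nat_lit 80, nat_lit 100], [nat_lit 0, nat_lit 171], [(nat_lit 0, nat_lit 0, nat_lit 0), (nat_lit 1000, nat_lit 973, nat_lit 133)], (nat_lit 97, nat_lit 100, nat_lit 20)⟩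
noncomputable def p036_k4 : C1.Kn := ⟨[nat_lit 80, nat_lit 100], [nat_lit 0, nat_lit 184], [(nat_lit 0, nat_lit 0, nat_lit 0), (nat_lit 1000, nat_lit 971, nat_lit 143)], (nat_lit 97, nat_lit 100, nat_lit 20)⟩
noncomputable def p036_k5 : C1.Kn := ⟨[nat_lit 80, nat_lit 100], [nat_lit 0, nat_lit 198], [(nat_lit 0, nat_lit 0, nat_lit 0), (nat_lit 1000, nat_lit 969, nat_lit 154)], (nat_lit 96, nat_lit 100, nat_lit 20)⟩
noncomputable def p036_k6 : C1.Kn := ⟨[nat_lit 80, nat_lit 100, nat_lit 120], [nat_lit 0, nat_lit 132, nat_lit 640], [(nat_lit 0, nat_lit 0, nat_lit 0), (nat_lit 1000, nat_lit 979, nat_lit 103), (nat_lit 1000, nat_lit 979, nat_lit 397)], (nat_lit 97, nat_lit 100, nat_lit 28)⟩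
noncomputable def p036_k7 : C1.Kn := ⟨[nat_lit 80, nat_lit 100, nat_lit 120], [nat_lit 0, nat_lit 132, nat_lit 640], [(nat_lit 0, nat_lit 0, nat_lit 0), (nat_lit 1000, nat_lit 979, nat_lit 103), (nat_lit 1000, nat_lit 979, nat_lit 397)], (nat_lit 99, nat_lit 100, nat_lit 44)⟩
noncomputable def p036_k8 : C1.Kn := ⟨[nat_lit 50, nat_lit 70, nat_lit 90, nat_lit 100, nat_lit 110], [nat_lit 0, nat_lit 0, nat_lit 0, nat_lit 203, nat_lit 366], [(nat_lit 0, nat_lit 0, nat_lit 0), (nat_lit 0, nat_lit 0, nat_lit 0), (nat_lit 0, nat_lit 0, nat_lit 0), (nat_lit 1000, nat_lit 968, nat_lit 244), (nat_lit 1000, nat_lit 968, nat_lit 256)], (nat_lit 97, nat_lit 100, nat_lit 28)⟩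
noncomputable def p036_k9 : C1.Kn := ⟨[nat_lit 50, nat_lit 70, nat_lit 90, nat_lit 100, nat_lit 110], [nat_lit 0, nat_lit 0, nat_lit 0, nat_lit 246, nat_lit 431], [(nat_lit 0, nat_lit 0, nat_lit 0), (nat_lit 0, nat_lit 0, nat_lit 0), (nat_lit 0, nat_lit 0, nat_lit 0), (nat_lit 1000, nat_lit 962, nat_lit 262), (nat_lit 1000, nat_lit 962, nat_lit 289)], (nat_lit 96, nat_lit 100, nat_lit 28)⟩
noncomputable def p036_k10 : C1.Kn := ⟨[nat_lit 50, nat_lit 70, nat_lit 90, nat_lit 100], [nat_lit 0, nat_lit 0, nat_lit 0, nat_lit 275], [(nat_lit 0, nat_lit 0, nat_lit 0), (nat_lit 0, nat_lit 0, nat_lit 0), (nat_lit 0, nat_lit 0, nat_lit 0), (nat_lit 1000, nat_lit 957, nat_lit 290)], (nat_lit 96, nat_lit 100, nat_lit 28)⟩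
noncomputable def p036_k11 : C1.Kn := ⟨[nat_lit 50, nat_lit 70, nat_lit 90, nat_lit 110, nat_lit 120], [nat_lit 0, nat_lit 0, nat_lit 0, nat_lit 387, nat_lit 639], [(nat_lit 0, nat_lit 0, nat_lit 0), (nat_lit 0, nat_lit 0, nat_lit 0), (nat_lit 0, nat_lit 0, nat_lit 0), (nat_lit 1000, nat_lit 970, nat_lit 302), (nat_lit 1000, nat_lit 979, nat_lit 394)], (nat_lit 99, nat_lit 100, nat_lit 44)⟩
noncomputable def p036_k12 : C1.Kn := ⟨[nat_lit 50, nat_lit 70, nat_lit 90, nat_lit 110, nat_lit 120], [nat_lit 0, nat_lit 0, nat_lit 0, nat_lit 452, nat_lit 702], [(nat_lit 0, nat_lit 0, nat_lit 0), (nat_lit 0, nat_lit 0, nat_lit 0), (nat_lit 0, nat_lit 0, nat_lit 0), (nat_lit 1000, nat_lit 964, nat_lit 351), (nat_lit 1000, nat_lit 968, nat_lit 391)], (nat_lit 98, nat_lit 100, nat_lit 44)⟩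
noncomputable def p036_k13 : C1.Kn := ⟨[nat_lit 50, nat_lit 70, nat_lit 90, nat_lit 110, nat_lit 120], [nat_lit 0, nat_lit 0, nat_lit 0, nat_lit 491, nat_lit 744], [(nat_lit 0, nat_lit 0, nat_lit 0), (nat_lit 0, nat_lit 0, nat_lit 0), (nat_lit 0, nat_lit 0, nat_lit 0), (nat_lit 1000, nat_lit 961, nat_lit 377), (nat_lit 1000, nat_lit 963, nat_lit 396)], (nat_lit 97, nat_lit 100, nat_lit 44)⟩
noncomputable def p036_k14 : C1.Kn := ⟨[nat_lit 80, nat_lit 100, nat_lit 140], [nat_lit 0, nat_lit 132, nat_lit 1148], [(nat_lit 0, nat_lit 0, nat_lit 0), (nat_lit 1000, nat_lit 979, nat_lit 103), (nat_lit 1000, nat_lit 979, nat_lit 397)], (nat_lit 100, nat_lit 95, nat_lit 62)⟩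
noncomputable def p036_k15 : C1.Kn := ⟨[nat_lit 80, nat_lit 100, nat_lit 160], [nat_lit 0, nat_lit 0, nat_lit 1533], [(nat_lit 0, nat_lit 0, nat_lit 0), (nat_lit 0, nat_lit 0, nat_lit 0), (nat_lit 1000, nat_lit 1000, nat_lit 399)], (nat_lit 100, nat_lit 92, nat_lit 61)⟩
noncomputable def p036_k16 : C1.Kn := ⟨[nat_lit 80, nat_lit 120, nat_lit 140], [nat_lit 0, nat_lit 264, nat_lit 1360], [(nat_lit 0, nat_lit 0, nat_lit 0), (nat_lit 1000, nat_lit 979, nat_lit 103), (nat_lit 951, nat_lit 1000, nat_lit 628)], (nat_lit 100, nat_lit 95, nat_lit 62)⟩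
noncomputable def p036_k17 : C1.Kn := ⟨[nat_lit 80, nat_lit 120, nat_lit 140], [nat_lit 0, nat_lit 341, nat_lit 1422], [(nat_lit 0, nat_lit 0, nat_lit 0), (nat_lit 1000, nat_lit 973, nat_lit 133), (nat_lit 955, nat_lit 1000, nat_lit 643)], (nat_lit 100, nat_lit 96, nat_lit 62)⟩
noncomputable def p036_k18 : C1.Kn := ⟨[nat_lit 80, nat_lit 120, nat_lit 140], [nat_lit 0, nat_lit 395, nat_lit 1464], [(nat_lit 0, nat_lit 0, nat_lit 0), (nat_lit 1000, nat_lit 969, nat_lit 154), (nat_lit 957, nat_lit 1000, nat_lit 654)], (nat_lit 98, nat_lit 100, nat_lit 49)⟩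
noncomputable def p036_k19 : C1.Kn := ⟨[nat_lit 80, nat_lit 120, nat_lit 140], [nat_lit 0, nat_lit 453, nat_lit 1507], [(nat_lit 0, nat_lit 0, nat_lit 0), (nat_lit 1000, nat_lit 965, nat_lit 177), (nat_lit 958, nat_lit 1000, nat_lit 669)], (nat_lit 98, nat_lit 100, nat_lit 49)⟩
noncomputable def p036_k20 : C1.Kn := ⟨[nat_lit 80, nat_lit 120], [nat_lit 0, nat_lit 475], [(nat_lit 0, nat_lit 0, nat_lit 0), (nat_lit 1000, nat_lit 963, nat_lit 185)], (nat_lit 98, nat_lit 100, nat_lit 48)⟩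
noncomputable def p036_k21 : C1.Kn := ⟨[nat_lit 80, nat_lit 120, nat_lit 140], [nat_lit 0, nat_lit 395, nat_lit 1464], [(nat_lit 0, nat_lit 0, nat_lit 0), (nat_lit 1000, nat_lit 969, nat_lit 154), (nat_lit 957, nat_lit 1000, nat_lit 654)], (nat_lit 100, nat_lit 100, nat_lit 56)⟩
noncomputable def p036_k22 : C1.Kn := ⟨[nat_lit 80, nat_lit 120, nat_lit 140], [nat_lit 0, nat_lit 475, nat_lit 1528], [(nat_lit 0, nat_lit 0, nat_lit 0), (nat_lit 1000, nat_lit 963, nat_lit 185), (nat_lit 963, nat_lit 1000, nat_lit 667)], (nat_lit 100, nat_lit 100, nat_lit 56)⟩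
noncomputable def p036_k23 : C1.Kn := ⟨[nat_lit 80, nat_lit 100, nat_lit 140], [nat_lit 0, nat_lit 198, nat_lit 1210], [(nat_lit 0, nat_lit 0, nat_lit 0), (nat_lit 1000, nat_lit 969, nat_lit 154), (nat_lit 1000, nat_lit 969, nat_lit 395)], (nat_lit 100, nat_lit 100, nat_lit 56)⟩
noncomputable def p036_k24 : C1.Kn := ⟨[nat_lit 80, nat_lit 120, nat_lit 140], [nat_lit 0, nat_lit 395, nat_lit 1464], [(nat_lit 0, nat_lit 0, nat_lit 0), (nat_lit 1000, nat_lit 969, nat_lit 154), (nat_lit 957, nat_lit 1000, nat_lit 654)], (nat_lit 100, nat_lit 97, nat_lit 62)⟩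
noncomputable def p036_k25 : C1.Kn := ⟨[nat_lit 80, nat_lit 100], [nat_lit 0, nat_lit 265], [(nat_lit 0, nat_lit 0, nat_lit 0), (nat_lit 1000, nat_lit 959, nat_lit 206)], (nat_lit 95, nat_lit 100, nat_lit 28)⟩
noncomputable def p036_k26 : C1.Kn := ⟨[nat_lit 80, nat_lit 100, nat_lit 120], [nat_lit 0, nat_lit 265, nat_lit 768], [(nat_lit 0, nat_lit 0, nat_lit 0), (nat_lit 1000, nat_lit 959, nat_lit 206), (nat_lit 1000, nat_lit 958, nat_lit 392)], (nat_lit 96, nat_lit 100, nat_lit 44)⟩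
noncomputable def p036_k27 : C1.Kn := ⟨[nat_lit 80, nat_lit 100, nat_lit 140], [nat_lit 0, nat_lit 265, nat_lit 1269], [(nat_lit 0, nat_lit 0, nat_lit 0), (nat_lit 1000, nat_lit 959, nat_lit 206), (nat_lit 1000, nat_lit 958, nat_lit 392)], (nat_lit 100, nat_lit 99, nat_lit 63)⟩
noncomputable def p036_k28 : C1.Kn := ⟨[nat_lit 80, nat_lit 100], [nat_lit 0, nat_lit 332], [(nat_lit 0, nat_lit 0, nat_lit 0), (nat_lit 1000, nat_lit 948, nat_lit 259)], (nat_lit 95, nat_lit 100, nat_lit 28)⟩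
noncomputable def p036_k29 : C1.Kn := ⟨[nat_lit 80, nat_lit 120], [nat_lit 0, nat_lit 0], [(nat_lit 0, nat_lit 0, nat_lit 0), (nat_lit 0, nat_lit 0, nat_lit 0)], (nat_lit 98, nat_lit 100, nat_lit 28)⟩
noncomputable def p036_k30 : C1.Kn := ⟨[nat_lit 80, nat_lit 100, nat_lit 140], [nat_lit 0, nat_lit 0, nat_lit 1022], [(nat_lit 0, nat_lit 0, nat_lit 0), (nat_lit 0, nat_lit 0, nat_lit 0), (nat_lit 1000, nat_lit 1000, nat_lit 399)], (nat_lit 100, nat_lit 99, nat_lit 44)⟩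
noncomputable def p036_k31 : C1.Kn := ⟨[nat_lit 80, nat_lit 100, nat_lit 120], [nat_lit 0, nat_lit 198, nat_lit 704], [(nat_lit 0, nat_lit 0, nat_lit 0), (nat_lit 1000, nat_lit 969, nat_lit 154), (nat_lit 1000, nat_lit 969, nat_lit 395)], (nat_lit 96, nat_lit 100, nat_lit 28)⟩
noncomputable def p036_k32 : C1.Kn := ⟨[nat_lit 80, nat_lit 100, nat_lit 120], [nat_lit 0, nat_lit 332, nat_lit 833], [(nat_lit 0, nat_lit 0, nat_lit 0), (nat_lit 1000, nat_lit 948, nat_lit 259), (nat_lit 1000, nat_lit 948, nat_lit 391)], (nat_lit 95, nat_lit 100, nat_lit 44)⟩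
noncomputable def p036_k33 : C1.Kn := ⟨[nat_lit 70, nat_lit 90], [nat_lit 0, nat_lit 0], [(nat_lit 0, nat_lit 0, nat_lit 0), (nat_lit 0, nat_lit 0, nat_lit 0)], (nat_lit 96, nat_lit 100, nat_lit 20)⟩
noncomputable def p036_k34 : C1.Kn := ⟨[nat_lit 70, nat_lit 80, nat_lit 90], [nat_lit 0, nat_lit 0, nat_lit 133], [(nat_lit 0, nat_lit 0, nat_lit 0), (nat_lit 0, nat_lit 0, nat_lit 0), (nat_lit 1000, nat_lit 960, nat_lit 196)], (nat_lit 96, nat_lit 100, nat_lit 20)⟩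
noncomputable def p036_k35 : C1.Kn := ⟨[nat_lit 70, nat_lit 90, nat_lit 100], [nat_lit 0, nat_lit 0, nat_lit 294], [(nat_lit 0, nat_lit 0, nat_lit 0), (nat_lit 0, nat_lit 0, nat_lit 0), (nat_lit 1000, nat_lit 954, nat_lit 287)], (nat_lit 95, nat_lit 100, nat_lit 28)⟩
noncomputable def p036_k36 : C1.Kn := ⟨[nat_lit 80, nat_lit 100, nat_lit 120], [nat_lit 0, nat_lit 265, nat_lit 768], [(nat_lit 0, nat_lit 0, nat_lit 0), (nat_lit 1000, nat_lit 959, nat_lit 206), (nat_lit 1000, nat_lit 958, nat_lit 392)], (nat_lit 95, nat_lit 100, nat_lit 34)⟩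
noncomputable def p036_k37 : C1.Kn := ⟨[nat_lit 80, nat_lit 100, nat_lit 120], [nat_lit 0, nat_lit 265, nat_lit 768], [(nat_lit 0, nat_lit 0, nat_lit 0), (nat_lit 1000, nat_lit 959, nat_lit 206), (nat_lit 1000, nat_lit 958, nat_lit 392)], (nat_lit 96, nat_lit 100, nat_lit 39)⟩
noncomputable def p036_k38 : C1.Kn := ⟨[nat_lit 80, nat_lit 100, nat_lit 120], [nat_lit 0, nat_lit 198, nat_lit 704], [(nat_lit 0, nat_lit 0, nat_lit 0), (nat_lit 1000, nat_lit 969, nat_lit 154), (nat_lit 1000, nat_lit 969, nat_lit 395)], (nat_lit 97, nat_lit 100, nat_lit 39)⟩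
noncomputable def p036_k39 : C1.Kn := ⟨[nat_lit 80, nat_lit 100, nat_lit 120], [nat_lit 0, nat_lit 332, nat_lit 833], [(nat_lit 0, nat_lit 0, nat_lit 0), (nat_lit 1000, nat_lit 948, nat_lit 259), (nat_lit 1000, nat_lit 948, nat_lit 391)], (nat_lit 95, nat_lit 100, nat_lit 39)⟩
noncomputable def p036_k40 : C1.Kn := ⟨[nat_lit 80, nat_lit 120], [nat_lit 0, nat_lit 528], [(nat_lit 0, nat_lit 0, nat_lit 0), (nat_lit 1000, nat_lit 959, nat_lit 206)], (nat_lit 96, nat_lit 100, nat_lit 44)⟩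
noncomputable def p036_k41 : C1.Kn := ⟨[nat_lit 80, nat_lit 120], [nat_lit 0, nat_lit 664], [(nat_lit 0, nat_lit 0, nat_lit 0), (nat_lit 1000, nat_lit 948, nat_lit 259)], (nat_lit 95, nat_lit 100, nat_lit 44)⟩
noncomputable def p036_k42 : C1.Kn := ⟨[nat_lit 80, nat_lit 100], [nat_lit 0, nat_lit 399], [(nat_lit 0, nat_lit 0, nat_lit 0), (nat_lit 1000, nat_lit 938, nat_lit 310)], (nat_lit 94, nat_lit 100, nat_lit 28)⟩
noncomputable def p036_k43 : C1.Kn := ⟨[nat_lit 80, nat_lit 100, nat_lit 120], [nat_lit 0, nat_lit 0, nat_lit 511], [(nat_lit 0, nat_lit 0, nat_lit 0), (nat_lit 0, nat_lit 0, nat_lit 0), (nat_lit 1000, nat_lit 997, nat_lit 383)], (nat_lit 98, nat_lit 100, nat_lit 28)⟩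
noncomputable def p036_k44 : C1.Kn := ⟨[nat_lit 80, nat_lit 100, nat_lit 120], [nat_lit 0, nat_lit 399, nat_lit 897], [(nat_lit 0, nat_lit 0, nat_lit 0), (nat_lit 1000, nat_lit 938, nat_lit 310), (nat_lit 1000, nat_lit 938, nat_lit 389)], (nat_lit 94, nat_lit 100, nat_lit 44)⟩
noncomputable def p036_k45 : C1.Kn := ⟨[nat_lit 80, nat_lit 100, nat_lit 120], [nat_lit 0, nat_lit 466, nat_lit 966], [(nat_lit 0, nat_lit 0, nat_lit 0), (nat_lit 1000, nat_lit 927, nat_lit 359), (nat_lit 1000, nat_lit 927, nat_lit 391)], (nat_lit 93, nat_lit 100, nat_lit 44)⟩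
noncomputable def p036_k46 : C1.Kn := ⟨[nat_lit 80, nat_lit 100], [nat_lit 0, nat_lit 399], [(nat_lit 0, nat_lit 0, nat_lit 0), (nat_lit 1000, nat_lit 938, nat_lit 310)], (nat_lit 95, nat_lit 100, nat_lit 20)⟩
noncomputable def p036_k47 : C1.Kn := ⟨[nat_lit 80, nat_lit 100], [nat_lit 0, nat_lit 412], [(nat_lit 0, nat_lit 0, nat_lit 0), (nat_lit 1000, nat_lit 936, nat_lit 318)], (nat_lit 95, nat_lit 100, nat_lit 20)⟩
noncomputable def p036_k48 : C1.Kn := ⟨[nat_lit 80, nat_lit 100], [nat_lit 0, nat_lit 426], [(nat_lit 0, nat_lit 0, nat_lit 0), (nat_lit 1000, nat_lit 933, nat_lit 332)], (nat_lit 95, nat_lit 100, nat_lit 20)⟩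
noncomputable def p036_k49 : C1.Kn := ⟨[nat_lit 80, nat_lit 100], [nat_lit 0, nat_lit 439], [(nat_lit 0, nat_lit 0, nat_lit 0), (nat_lit 1000, nat_lit 931, nat_lit 340)], (nat_lit 95, nat_lit 100, nat_lit 20)⟩
noncomputable def p036_k50 : C1.Kn := ⟨[nat_lit 80, nat_lit 100], [nat_lit 0, nat_lit 466], [(nat_lit 0, nat_lit 0, nat_lit 0), (nat_lit 1000, nat_lit 927, nat_lit 359)], (nat_lit 93, nat_lit 100, nat_lit 28)⟩
noncomputable def p036_k51 : C1.Kn := ⟨[nat_lit 80, nat_lit 100, nat_lit 140], [nat_lit 0, nat_lit 399, nat_lit 1395], [(nat_lit 0, nat_lit 0, nat_lit 0), (nat_lit 1000, nat_lit 938, nat_lit 310), (nat_lit 1000, nat_lit 938, nat_lit 389)], (nat_lit 98, nat_lit 100, nat_lit 63)⟩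
noncomputable def p036_k52 : C1.Kn := ⟨[nat_lit 80, nat_lit 100, nat_lit 140], [nat_lit 0, nat_lit 466, nat_lit 1467], [(nat_lit 0, nat_lit 0, nat_lit 0), (nat_lit 1000, nat_lit 927, nat_lit 359), (nat_lit 1000, nat_lit 927, nat_lit 391)], (nat_lit 96, nat_lit 100, nat_lit 62)⟩
noncomputable def p036_l0 : Lf2 := ⟨nat_lit 0, nat_lit 1, [nat_lit 19, nat_lit 5, nat_lit 5, nat_lit 20], true, nat_lit 200, nat_lit 220, nat_lit 0, nat_lit 288, ⟨nat_lit 0, nat_lit 0, nat_lit 1000, nat_lit 6, nat_lit 84, nat_lit 1000, nat_lit 135, nat_lit 1000, nat_lit 173400, nat_lit 317, nat_lit 66150, nat_lit 278, nat_lit 56311787, nat_lit 0, nat_lit 0, nat_lit 2855276, false, false⟩,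
 nat_lit 0, nat_lit 7697, nat_lit 0, nat_lit 0, nat_lit 4276, nat_lit 0, nat_lit 401, nat_lit 0, nat_lit 0, nat_lit 0, nat_lit 0, nat_lit 0, nat_lit 0, nat_lit 0, nat_lit 10, nat_lit 1000000, nat_lit 0, nat_lit 0, [(nat_lit 6, [(nat_lit 6, nat_lit 1000)])],
 ⟨p036_k0, nat_lit 0, nat_lit 0, nat_lit 178, nat_lit 0, nat_lit 299510, [nat_lit 1137066667, nat_lit 8000000], [], [nat_lit 13034994819, nat_lit 13599991182, nat_lit 12612069805, nat_lit 13179552722, nat_lit 13838867982, nat_lit 14422673830, nat_lit 13418252551, nat_lit 13994050808], nat_lit 1271250, nat_lit 1271250, nat_lit 111251, nat_lit 230001, nat_lit 1271250, nat_lit 1271250, [nat_lit 1100000, nat_lit 1442500], [nat_lit 31, nat_lit 40, nat_lit 20, nat_lit 80, nat_lit 3, nat_lit 215, nat_lit 10, nat_lit 8]⟩, C1.Rw.none,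
 ⟨nat_lit 5916, nat_lit 6124, ⟨.ofNat (nat_lit 180982), .ofNat (nat_lit 221172), .ofNat (nat_lit 191656), .ofNat (nat_lit 231846), .ofNat (nat_lit 189276), .ofNat (nat_lit 228543), .ofNat (nat_lit 199946), .ofNat (nat_lit 239212)⟩, ⟨.ofNat (nat_lit 307865), .ofNat (nat_lit 348056), .ofNat (nat_lit 329214), .ofNat (nat_lit 369404), .ofNat (nat_lit 307945), .ofNat (nat_lit 347212), .ofNat (nat_lit 329284), .ofNat (nat_lit 368551)⟩⟩, [⟨nat_lit 0, nat_lit 100, nat_lit 99, nat_lit 55, nat_lit 216319329⟩]⟩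
noncomputable def p036_l1 : Lf2 := ⟨nat_lit 0, nat_lit 1, [nat_lit 19, nat_lit 5, nat_lit 5, nat_lit 20], true, nat_lit 220, nat_lit 240, nat_lit 0, nat_lit 280, ⟨nat_lit 0, nat_lit 0, nat_lit 1000, nat_lit 6, nat_lit 77, nat_lit 1000, nat_lit 151, nat_lit 1000, nat_lit 216600, nat_lit 329, nat_lit 56067, nat_lit 273, nat_lit 55333273, nat_lit 0, nat_lit 0, nat_lit 2968312, false, false⟩,
 nat_lit 0, nat_lit 7729, nat_lit 0, nat_lit 0, nat_lit 4293, nat_lit 0, nat_lit 181, nat_lit 0, nat_lit 0, nat_lit 0, nat_lit 0, nat_lit 0, nat_lit 0, nat_lit 0, nat_lit 10, nat_lit 1000000, nat_lit 0, nat_lit 0, [(nat_lit 6, [(nat_lit 6, nat_lit 1000)])],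
 ⟨p036_k0, nat_lit 0, nat_lit 0, nat_lit 166, nat_lit 0, nat_lit 276042, [nat_lit 1137066667, nat_lit 8000000], [], [nat_lit 13878834579, nat_lit 14150239051, nat_lit 13792078126, nat_lit 14062751456, nat_lit 14728459970, nat_lit 15113782569, nat_lit 14572351428, nat_lit 14955335933], nat_lit 1271250, nat_lit 1271250, nat_lit 111251, nat_lit 134400, nat_lit 1271250, nat_lit 1271250, [nat_lit 1100000, nat_lit 1442500], [nat_lit 31, nat_lit 40, nat_lit 20, nat_lit 80, nat_lit 3, nat_lit 215, nat_lit 10, nat_lit 8]⟩, C1.Rw.none,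
 ⟨nat_lit 6020, nat_lit 6124, ⟨.ofNat (nat_lit 180982), .ofNat (nat_lit 189020), .ofNat (nat_lit 191656), .ofNat (nat_lit 199694), .ofNat (nat_lit 185145), .ofNat (nat_lit 193091), .ofNat (nat_lit 195817), .ofNat (nat_lit 203762)⟩, ⟨.ofNat (nat_lit 348056), .ofNat (nat_lit 388246), .ofNat (nat_lit 369404), .ofNat (nat_lit 409594), .ofNat (nat_lit 347644), .ofNat (nat_lit 387371), .ofNat (nat_lit 368987), .ofNat (nat_lit 408713)⟩⟩, [⟨nat_lit 0, nat_lit 100, nat_lit 99, nat_lit 49, nat_lit 1364616533⟩]⟩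
noncomputable def p036_l2 : Lf2 := ⟨nat_lit 0, nat_lit 1, [nat_lit 19, nat_lit 5, nat_lit 5, nat_lit 20], true, nat_lit 220, nat_lit 240, nat_lit 0, nat_lit 288, ⟨nat_lit 0, nat_lit 0, nat_lit 1000, nat_lit 6, nat_lit 79, nat_lit 1000, nat_lit 151, nat_lit 1000, nat_lit 216600, nat_lit 329, nat_lit 58017, nat_lit 274, nat_lit 55214448, nat_lit 0, nat_lit 0, nat_lit 2996537, false, false⟩,
 nat_lit 0, nat_lit 7672, nat_lit 0, nat_lit 0, nat_lit 4262, nat_lit 0, nat_lit 339, nat_lit 0, nat_lit 0, nat_lit 0, nat_lit 0, nat_lit 0, nat_lit 0, nat_lit 0, nat_lit 10, nat_lit 1000000, nat_lit 0, nat_lit 0, [(nat_lit 6, [(nat_lit 6, nat_lit 1000)])],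
 ⟨p036_k0, nat_lit 0, nat_lit 0, nat_lit 161, nat_lit 0, nat_lit 245205, [nat_lit 1137066667, nat_lit 8000000], [], [nat_lit 13778965974, nat_lit 13953367750, nat_lit 13695338487, nat_lit 13869260782, nat_lit 14624057450, nat_lit 14791002815, nat_lit 14538703576, nat_lit 14705196995], nat_lit 1271250, nat_lit 1271250, nat_lit 134400, nat_lit 157850, nat_lit 1271250, nat_lit 1271250, [nat_lit 1100000, nat_lit 1442500], [nat_lit 31, nat_lit 40, nat_lit 20, nat_lit 80, nat_lit 3, nat_lit 215, nat_lit 10, nat_lit 8]⟩, C1.Rw.none,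
 ⟨nat_lit 6062, nat_lit 6124, ⟨.ofNat (nat_lit 189020), .ofNat (nat_lit 197058), .ofNat (nat_lit 194357), .ofNat (nat_lit 202395), .ofNat (nat_lit 191466), .ofNat (nat_lit 199449), .ofNat (nat_lit 196802), .ofNat (nat_lit 204785)⟩, ⟨.ofNat (nat_lit 348056), .ofNat (nat_lit 388246), .ofNat (nat_lit 369404), .ofNat (nat_lit 409594), .ofNat (nat_lit 347811), .ofNat (nat_lit 387723), .ofNat (nat_lit 369156), .ofNat (nat_lit 409067)⟩⟩, [⟨nat_lit 0, nat_lit 100, nat_lit 99, nat_lit 49, nat_lit 54703289⟩, ⟨nat_lit 4, nat_lit 99, nat_lit 100, nat_lit 55, nat_lit 278471916⟩]⟩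
noncomputable def p036_l3 : Lf2 := ⟨nat_lit 0, nat_lit 1, [nat_lit 19, nat_lit 5, nat_lit 5, nat_lit 20], true, nat_lit 220, nat_lit 240, nat_lit 0, nat_lit 284, ⟨nat_lit 0, nat_lit 0, nat_lit 1000, nat_lit 6, nat_lit 80, nat_lit 1000, nat_lit 151, nat_lit 1000, nat_lit 216600, nat_lit 329, nat_lit 60000, nat_lit 275, nat_lit 55105722, nat_lit 0, nat_lit 0, nat_lit 3022453, false, false⟩,
 nat_lit 0, nat_lit 7673, nat_lit 0, nat_lit 0, nat_lit 4262, nat_lit 0, nat_lit 304, nat_lit 0, nat_lit 0, nat_lit 0, nat_lit 0, nat_lit 0, nat_lit 0, nat_lit 0, nat_lit 10, nat_lit 1000000, nat_lit 0, nat_lit 0, [(nat_lit 6, [(nat_lit 6, nat_lit 1000)])],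
 ⟨p036_k0, nat_lit 0, nat_lit 0, nat_lit 162, nat_lit 0, nat_lit 258194, [nat_lit 1137066667, nat_lit 8000000], [], [nat_lit 13793277867, nat_lit 13955174274, nat_lit 13707621925, nat_lit 13869260782, nat_lit 14624057450, nat_lit 14791002815, nat_lit 14538703576, nat_lit 14705196995], nat_lit 1271250, nat_lit 1271250, nat_lit 134400, nat_lit 157850, nat_lit 1271250, nat_lit 1271250, [nat_lit 1100000, nat_lit 1442500], [nat_lit 31, nat_lit 40, nat_lit 20, nat_lit 80, nat_lit 3, nat_lit 215, nat_lit 10, nat_lit 8]⟩, C1.Rw.none,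
 ⟨nat_lit 6062, nat_lit 6124, ⟨.ofNat (nat_lit 194357), .ofNat (nat_lit 202395), .ofNat (nat_lit 197559), .ofNat (nat_lit 205597), .ofNat (nat_lit 196802), .ofNat (nat_lit 204785), .ofNat (nat_lit 200004), .ofNat (nat_lit 207986)⟩, ⟨.ofNat (nat_lit 348056), .ofNat (nat_lit 388246), .ofNat (nat_lit 369404), .ofNat (nat_lit 409594), .ofNat (nat_lit 347811), .ofNat (nat_lit 387723), .ofNat (nat_lit 369156), .ofNat (nat_lit 409067)⟩⟩, [⟨nat_lit 0, nat_lit 100, nat_lit 99, nat_lit 50, nat_lit 219961171⟩, ⟨nat_lit 16, nat_lit 100, nat_lit 99, nat_lit 55, nat_lit 117491992⟩]⟩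
noncomputable def p036_l4 : Lf2 := ⟨nat_lit 0, nat_lit 1, [nat_lit 19, nat_lit 5, nat_lit 5, nat_lit 20], false, nat_lit 220, nat_lit 240, nat_lit 0, nat_lit 160, ⟨nat_lit 355, nat_lit 0, nat_lit 645, nat_lit 6, nat_lit 82, nat_lit 645, nat_lit 151, nat_lit 645, nat_lit 216600, nat_lit 329, nat_lit 62017, nat_lit 276, nat_lit 55037255, nat_lit 0, nat_lit 0, nat_lit 3038612, false, false⟩,
 nat_lit 10546, nat_lit 0, nat_lit 0, nat_lit 0, nat_lit 5858, nat_lit 5803, nat_lit 1449, nat_lit 0, nat_lit 0, nat_lit 489, nat_lit 0, nat_lit 0, nat_lit 0, nat_lit 0, nat_lit 0, nat_lit 645000, nat_lit 0, nat_lit 0, [(nat_lit 6, [(nat_lit 6, nat_lit 645)])],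
 ⟨p036_k0, nat_lit 0, nat_lit 0, nat_lit 163, nat_lit 0, nat_lit 266921, [nat_lit 2294448000, nat_lit 2094910000], [], [nat_lit 14251326519, nat_lit 14439355615, nat_lit 14109012019, nat_lit 14296505266, nat_lit 15111366539, nat_lit 15380444071, nat_lit 14967238806, nat_lit 15146027907], nat_lit 1271250, nat_lit 1271250, nat_lit 134400, nat_lit 157850, nat_lit 1271250, nat_lit 1271250, [nat_lit 1100000, nat_lit 1442500], [nat_lit 31, nat_lit 40, nat_lit 20, nat_lit 80, nat_lit 3, nat_lit 215, nat_lit 10, nat_lit 8]⟩, ⟨p036_k1, nat_lit 0, nat_lit 0, nat_lit 274, nat_lit 0, nat_lit 269778, [nat_lit 1664240000, nat_lit 2218750000], [], [nat_lit 10358325380, nat_lit 10348745031, nat_lit 9767960724, nat_lit 9957718286, nat_lit 6632576258, nat_lit 6353836348, nat_lit 6651470819, nat_lit 6373115300], nat_lit 1271250, nat_lit 1271250, nat_lit 134400, nat_lit 157850, nat_lit 0, nat_lit 1100001, [nat_lit 1100000, nat_lit 1442500],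 [nat_lit 31, nat_lit 40, nat_lit 20, nat_lit 80, nat_lit 3, nat_lit 260, nat_lit 50, nat_lit 11]⟩,
 ⟨nat_lit 6062, nat_lit 6124, ⟨.ofNat (nat_lit 197559), .ofNat (nat_lit 205597), .ofNat (nat_lit 199694), .ofNat (nat_lit 207732), .ofNat (nat_lit 200004), .ofNat (nat_lit 207986), .ofNat (nat_lit 202138), .ofNat (nat_lit 210121)⟩, ⟨.ofNat (nat_lit 348056), .ofNat (nat_lit 388246), .ofNat (nat_lit 369404), .ofNat (nat_lit 409594), .ofNat (nat_lit 347811), .ofNat (nat_lit 387723), .ofNat (nat_lit 369156), .ofNat (nat_lit 409067)⟩⟩, [⟨nat_lit 0, nat_lit 100, nat_lit 100, nat_lit 49, nat_lit 1011280284⟩]⟩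
noncomputable def p036_l5 : Lf2 := ⟨nat_lit 0, nat_lit 1, [nat_lit 19, nat_lit 5, nat_lit 5, nat_lit 20], true, nat_lit 220, nat_lit 240, nat_lit 160, nat_lit 280, ⟨nat_lit 0, nat_lit 0, nat_lit 1000, nat_lit 6, nat_lit 81, nat_lit 1000, nat_lit 151, nat_lit 1000, nat_lit 216600, nat_lit 329, nat_lit 62017, nat_lit 276, nat_lit 55050982, nat_lit 0, nat_lit 0, nat_lit 3035382, false, false⟩,
 nat_lit 0, nat_lit 7673, nat_lit 0, nat_lit 0, nat_lit 4262, nat_lit 0, nat_lit 334, nat_lit 0, nat_lit 0, nat_lit 0, nat_lit 0, nat_lit 0, nat_lit 0, nat_lit 0, nat_lit 10, nat_lit 1000000, nat_lit 0, nat_lit 0, [(nat_lit 6, [(nat_lit 6, nat_lit 1000)])],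
 ⟨p036_k0, nat_lit 0, nat_lit 0, nat_lit 163, nat_lit 0, nat_lit 262557, [nat_lit 1137066667, nat_lit 8000000], [], [nat_lit 13780902867, nat_lit 13953367750, nat_lit 13695338487, nat_lit 13869260782, nat_lit 14624057450, nat_lit 14791002815, nat_lit 14538703576, nat_lit 14705196995], nat_lit 1271250, nat_lit 1271250, nat_lit 134400, nat_lit 157850, nat_lit 1271250, nat_lit 1271250, [nat_lit 1100000, nat_lit 1442500], [nat_lit 31, nat_lit 40, nat_lit 20, nat_lit 80, nat_lit 3, nat_lit 215, nat_lit 10, nat_lit 8]⟩, C1.Rw.none,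
 ⟨nat_lit 6062, nat_lit 6124, ⟨.ofNat (nat_lit 197559), .ofNat (nat_lit 205597), .ofNat (nat_lit 198626), .ofNat (nat_lit 206664), .ofNat (nat_lit 200004), .ofNat (nat_lit 207986), .ofNat (nat_lit 201071), .ofNat (nat_lit 209054)⟩, ⟨.ofNat (nat_lit 348056), .ofNat (nat_lit 388246), .ofNat (nat_lit 369404), .ofNat (nat_lit 409594), .ofNat (nat_lit 347811), .ofNat (nat_lit 387723), .ofNat (nat_lit 369156), .ofNat (nat_lit 409067)⟩⟩, [⟨nat_lit 0, nat_lit 100, nat_lit 100, nat_lit 50, nat_lit 218554908⟩, ⟨nat_lit 4, nat_lit 99, nat_lit 100, nat_lit 55, nat_lit 116270702⟩]⟩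
noncomputable def p036_l6 : Lf2 := ⟨nat_lit 0, nat_lit 1, [nat_lit 19, nat_lit 5, nat_lit 5, nat_lit 20], false, nat_lit 220, nat_lit 240, nat_lit 160, nat_lit 200, ⟨nat_lit 185, nat_lit 0, nat_lit 815, nat_lit 6, nat_lit 82, nat_lit 815, nat_lit 151, nat_lit 815, nat_lit 216600, nat_lit 329, nat_lit 62017, nat_lit 276, nat_lit 55023515, nat_lit 0, nat_lit 0, nat_lit 3041840, false, false⟩,
 nat_lit 9337, nat_lit 0, nat_lit 0, nat_lit 0, nat_lit 5187, nat_lit 5162, nat_lit 469, nat_lit 0, nat_lit 0, nat_lit 1019, nat_lit 0, nat_lit 0, nat_lit 0, nat_lit 0, nat_lit 0, nat_lit 815000, nat_lit 0, nat_lit 0, [(nat_lit 6, [(nat_lit 6, nat_lit 815)])],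
 ⟨p036_k0, nat_lit 0, nat_lit 0, nat_lit 163, nat_lit 0, nat_lit 266921, [nat_lit 1663589334, nat_lit 999770000], [], [nat_lit 14053767798, nat_lit 14230810030, nat_lit 13935274032, nat_lit 14111822075, nat_lit 14879604633, nat_lit 15132208145, nat_lit 14759401673, nat_lit 14928366329], nat_lit 1271250, nat_lit 1271250, nat_lit 134400, nat_lit 157850, nat_lit 1271250, nat_lit 1271250, [nat_lit 1100000, nat_lit 1442500], [nat_lit 31, nat_lit 40, nat_lit 20, nat_lit 80, nat_lit 3, nat_lit 215, nat_lit 10, nat_lit 8]⟩, ⟨p036_k2, nat_lit 0, nat_lit 0, nat_lit 194, nat_lit 0, nat_lit 268343, [nat_lit 867280000, nat_lit 1156250000], [], [nat_lit 3319392704, nat_lit 3186180790, nat_lit 2785461544, nat_lit 2652447541, nat_lit 2866154760, nat_lit 2927076380, nat_lit 2610106056, nat_lit 2670918109], nat_lit 1271250, nat_lit 1271250, nat_lit 134400, nat_lit 157850, nat_lit 1100001, nat_lit 1442500, [nat_lit 1100000, nat_lit 1442500],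 [nat_lit 31, nat_lit 40, nat_lit 20, nat_lit 80, nat_lit 3, nat_lit 272, nat_lit 60, nat_lit 10]⟩,
 ⟨nat_lit 6062, nat_lit 6124, ⟨.ofNat (nat_lit 198626), .ofNat (nat_lit 206664), .ofNat (nat_lit 199694), .ofNat (nat_lit 207732), .ofNat (nat_lit 201071), .ofNat (nat_lit 209054), .ofNat (nat_lit 202138), .ofNat (nat_lit 210121)⟩, ⟨.ofNat (nat_lit 348056), .ofNat (nat_lit 388246), .ofNat (nat_lit 369404), .ofNat (nat_lit 409594), .ofNat (nat_lit 347811), .ofNat (nat_lit 387723), .ofNat (nat_lit 369156), .ofNat (nat_lit 409067)⟩⟩, [⟨nat_lit 0, nat_lit 100, nat_lit 100, nat_lit 50, nat_lit 776412515⟩]⟩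
noncomputable def p036_l7 : Lf2 := ⟨nat_lit 0, nat_lit 1, [nat_lit 19, nat_lit 5, nat_lit 5, nat_lit 20], false, nat_lit 220, nat_lit 240, nat_lit 200, nat_lit 240, ⟨nat_lit 1000, nat_lit 0, nat_lit 0, nat_lit 0, nat_lit 0, nat_lit 0, nat_lit 0, nat_lit 0, nat_lit 0, nat_lit 0, nat_lit 0, nat_lit 0, nat_lit 0, nat_lit 0, nat_lit 0, nat_lit 0, false, false⟩,
 nat_lit 17409, nat_lit 0, nat_lit 0, nat_lit 0, nat_lit 9671, nat_lit 9625, nat_lit 1824, nat_lit 0, nat_lit 0, nat_lit 2393, nat_lit 0, nat_lit 0, nat_lit 0, nat_lit 0, nat_lit 0, nat_lit 0, nat_lit 0, nat_lit 0, [],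
 ⟨p036_k0, nat_lit 0, nat_lit 0, nat_lit 163, nat_lit 0, nat_lit 266921, [nat_lit 4688000000, nat_lit 6250000000], [], [nat_lit 15218883644, nat_lit 15523853611, nat_lit 14883212608, nat_lit 15187398417, nat_lit 16495727914, nat_lit 16791060447, nat_lit 16158506892, nat_lit 16446422875], nat_lit 1271250, nat_lit 1271250, nat_lit 134400, nat_lit 157850, nat_lit 1271250, nat_lit 1271250, [nat_lit 1100000, nat_lit 1442500], [nat_lit 31, nat_lit 40, nat_lit 20, nat_lit 80, nat_lit 3, nat_lit 215, nat_lit 10, nat_lit 8]⟩, ⟨p036_k2, nat_lit 0, nat_lit 0, nat_lit 174, nat_lit 0, nat_lit 268343, [nat_lit 4688000000, nat_lit 6250000000], [], [nat_lit 13735659518, nat_lit 13842411751, nat_lit 13403723373, nat_lit 13510197751, nat_lit 16293853058, nat_lit 16397808125, nat_lit 15958788178, nat_lit 16054460950], nat_lit 1271250, nat_lit 1271250, nat_lit 134400, nat_lit 157850, nat_lit 1271250, nat_lit 1271250, [nat_lit 1100000, nat_lit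 1442500], [nat_lit 31, nat_lit 40, nat_lit 20, nat_lit 80, nat_lit 3, nat_lit 215, nat_lit 10, nat_lit 8]⟩,
 zbF0, [⟨nat_lit 0, nat_lit 100, nat_lit 100, nat_lit 50, nat_lit 1602329754⟩]⟩
noncomputable def p036_l8 : Lf2 := ⟨nat_lit 0, nat_lit 1, [nat_lit 19, nat_lit 5, nat_lit 5, nat_lit 20], false, nat_lit 220, nat_lit 240, nat_lit 240, nat_lit 280, ⟨nat_lit 1000, nat_lit 0, nat_lit 0, nat_lit 0, nat_lit 0, nat_lit 0, nat_lit 0, nat_lit 0, nat_lit 0, nat_lit 0, nat_lit 0, nat_lit 0, nat_lit 0, nat_lit 0, nat_lit 0, nat_lit 0, false, false⟩,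
 nat_lit 16433, nat_lit 0, nat_lit 0, nat_lit 0, nat_lit 9129, nat_lit 9086, nat_lit 3168, nat_lit 0, nat_lit 0, nat_lit 796, nat_lit 0, nat_lit 0, nat_lit 0, nat_lit 0, nat_lit 0, nat_lit 0, nat_lit 0, nat_lit 0, [],
 ⟨p036_k0, nat_lit 0, nat_lit 0, nat_lit 163, nat_lit 0, nat_lit 266921, [nat_lit 4688000000, nat_lit 6250000000], [], [nat_lit 15073381777, nat_lit 15366947012, nat_lit 14760216533, nat_lit 15053031138, nat_lit 16312925607, nat_lit 16590965481, nat_lit 15998246149, nat_lit 16275585294], nat_lit 1271250, nat_lit 1271250, nat_lit 134400, nat_lit 157850, nat_lit 1271250, nat_lit 1271250, [nat_lit 1100000, nat_lit 1442500], [nat_lit 31, nat_lit 40, nat_lit 20, nat_lit 80, nat_lit 3, nat_lit 215, nat_lit 10, nat_lit 8]⟩, ⟨p036_k2, nat_lit 0, nat_lit 0, nat_lit 154, nat_lit 0, nat_lit 268343, [nat_lit 4688000000, nat_lit 6250000000], [], [nat_lit 17260794673, nat_lit 17353194105, nat_lit 16948136325, nat_lit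 17040302999, nat_lit 21130167349, nat_lit 21234744949, nat_lit 20807352498, nat_lit 20887955980], nat_lit 1271250, nat_lit 1271250, nat_lit 134400, nat_lit 157850, nat_lit 1271250, nat_lit 1271250, [nat_lit 1100000, nat_lit 1442500], [nat_lit 31, nat_lit 40, nat_lit 20, nat_lit 80, nat_lit 3, nat_lit 215, nat_lit 10, nat_lit 8]⟩,
 zbF0, [⟨nat_lit 0, nat_lit 100, nat_lit 100, nat_lit 51, nat_lit 1307276146⟩, ⟨nat_lit 7, nat_lit 98, nat_lit 100, nat_lit 54, nat_lit 1092755963⟩, ⟨nat_lit 11, nat_lit 98, nat_lit 100, nat_lit 50, nat_lit 253137252⟩]⟩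
noncomputable def p036_l9 : Lf2 := ⟨nat_lit 0, nat_lit 1, [nat_lit 19, nat_lit 5, nat_lit 5, nat_lit 20], true, nat_lit 220, nat_lit 240, nat_lit 0, nat_lit 288, ⟨nat_lit 0, nat_lit 0, nat_lit 1000, nat_lit 6, nat_lit 83, nat_lit 1000, nat_lit 151, nat_lit 1000, nat_lit 216600, nat_lit 329, nat_lit 64067, nat_lit 277, nat_lit 54940605, nat_lit 0, nat_lit 0, nat_lit 3061215, false, false⟩,
 nat_lit 0, nat_lit 7736, nat_lit 0, nat_lit 0, nat_lit 4297, nat_lit 0, nat_lit 339, nat_lit 0, nat_lit 0, nat_lit 0, nat_lit 0, nat_lit 0, nat_lit 0, nat_lit 0, nat_lit 10, nat_lit 1000000, nat_lit 0, nat_lit 0, [(nat_lit 6, [(nat_lit 6, nat_lit 1000)])],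
 ⟨p036_k0, nat_lit 0, nat_lit 0, nat_lit 161, nat_lit 0, nat_lit 266921, [nat_lit 1137066667, nat_lit 8000000], [], [nat_lit 13633546795, nat_lit 13808115461, nat_lit 13548680310, nat_lit 13722767059, nat_lit 14479080467, nat_lit 14646174673, nat_lit 14392481250, nat_lit 14559121246], nat_lit 1271250, nat_lit 1271250, nat_lit 157850, nat_lit 181601, nat_lit 1271250, nat_lit 1271250, [nat_lit 1100000, nat_lit 1442500], [nat_lit 31, nat_lit 40, nat_lit 20, nat_lit 80, nat_lit 3, nat_lit 215, nat_lit 10, nat_lit 8]⟩, C1.Rw.none,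
 ⟨nat_lit 6062, nat_lit 6124, ⟨.ofNat (nat_lit 197058), .ofNat (nat_lit 205096), .ofNat (nat_lit 207732), .ofNat (nat_lit 215770), .ofNat (nat_lit 199449), .ofNat (nat_lit 207431), .ofNat (nat_lit 210121), .ofNat (nat_lit 218103)⟩, ⟨.ofNat (nat_lit 348056), .ofNat (nat_lit 388246), .ofNat (nat_lit 369404), .ofNat (nat_lit 409594), .ofNat (nat_lit 347811), .ofNat (nat_lit 387723), .ofNat (nat_lit 369156), .ofNat (nat_lit 409067)⟩⟩, [⟨nat_lit 16, nat_lit 100, nat_lit 99, nat_lit 55, nat_lit 278673173⟩]⟩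
noncomputable def p036_l10 : Lf2 := ⟨nat_lit 0, nat_lit 1, [nat_lit 19, nat_lit 5, nat_lit 5, nat_lit 20], true, nat_lit 220, nat_lit 240, nat_lit 0, nat_lit 288, ⟨nat_lit 0, nat_lit 0, nat_lit 1000, nat_lit 6, nat_lit 81, nat_lit 1000, nat_lit 151, nat_lit 1000, nat_lit 216600, nat_lit 329, nat_lit 62017, nat_lit 276, nat_lit 55081172, nat_lit 0, nat_lit 0, nat_lit 3029117, false, false⟩,
 nat_lit 0, nat_lit 7561, nat_lit 0, nat_lit 0, nat_lit 4260, nat_lit 0, nat_lit 238, nat_lit 0, nat_lit 0, nat_lit 0, nat_lit 0, nat_lit 0, nat_lit 0, nat_lit 0, nat_lit 10, nat_lit 1000000, nat_lit 0, nat_lit 0, [(nat_lit 6, [(nat_lit 6, nat_lit 1000)])],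
 ⟨p036_k3, nat_lit 0, nat_lit 0, nat_lit 160, nat_lit 0, nat_lit 245923, [nat_lit 1137066667, nat_lit 8000000], [], [nat_lit 13956790829, nat_lit 14014912397, nat_lit 13788718771, nat_lit 13846520777, nat_lit 14794304228, nat_lit 14865896366, nat_lit 14622835170, nat_lit 14678170927], nat_lit 1271250, nat_lit 1271250, nat_lit 134400, nat_lit 181601, nat_lit 1271250, nat_lit 1271250, [nat_lit 1100000, nat_lit 1442500], [nat_lit 31, nat_lit 40, nat_lit 20, nat_lit 80, nat_lit 3, nat_lit 215, nat_lit 10, nat_lit 8]⟩, C1.Rw.none,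
 ⟨nat_lit 6041, nat_lit 6063, ⟨.ofNat (nat_lit 191466), .ofNat (nat_lit 207431), .ofNat (nat_lit 196802), .ofNat (nat_lit 212767), .ofNat (nat_lit 192279), .ofNat (nat_lit 208207), .ofNat (nat_lit 197615), .ofNat (nat_lit 213543)⟩, ⟨.ofNat (nat_lit 347811), .ofNat (nat_lit 387723), .ofNat (nat_lit 369156), .ofNat (nat_lit 409067), .ofNat (nat_lit 347728), .ofNat (nat_lit 387547), .ofNat (nat_lit 369071), .ofNat (nat_lit 408890)⟩⟩, [⟨nat_lit 0, nat_lit 100, nat_lit 99, nat_lit 49, nat_lit 216727611⟩, ⟨nat_lit 4, nat_lit 100, nat_lit 100, nat_lit 55, nat_lit 278417944⟩]⟩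
noncomputable def p036_l11 : Lf2 := ⟨nat_lit 0, nat_lit 1, [nat_lit 19, nat_lit 5, nat_lit 5, nat_lit 20], true, nat_lit 220, nat_lit 240, nat_lit 0, nat_lit 284, ⟨nat_lit 0, nat_lit 0, nat_lit 1000, nat_lit 6, nat_lit 81, nat_lit 1000, nat_lit 151, nat_lit 1000, nat_lit 216600, nat_lit 329, nat_lit 62017, nat_lit 276, nat_lit 55073930, nat_lit 0, nat_lit 0, nat_lit 3030825, false, false⟩,
 nat_lit 0, nat_lit 7562, nat_lit 0, nat_lit 0, nat_lit 4260, nat_lit 0, nat_lit 235, nat_lit 0, nat_lit 0, nat_lit 0, nat_lit 0, nat_lit 0, nat_lit 0, nat_lit 0, nat_lit 10, nat_lit 1000000, nat_lit 0, nat_lit 0, [(nat_lit 6, [(nat_lit 6, nat_lit 1000)])],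
 ⟨p036_k3, nat_lit 0, nat_lit 0, nat_lit 161, nat_lit 0, nat_lit 258681, [nat_lit 1137066667, nat_lit 8000000], [], [nat_lit 13958314191, nat_lit 14014912397, nat_lit 13872754800, nat_lit 13930716587, nat_lit 14794304228, nat_lit 14865896366, nat_lit 14708569699, nat_lit 14764056062], nat_lit 1271250, nat_lit 1271250, nat_lit 134400, nat_lit 157850, nat_lit 1271250, nat_lit 1271250, [nat_lit 1100000, nat_lit 1442500], [nat_lit 31, nat_lit 40, nat_lit 20, nat_lit 80, nat_lit 3, nat_lit 215, nat_lit 10, nat_lit 8]⟩, C1.Rw.none,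
 ⟨nat_lit 6041, nat_lit 6063, ⟨.ofNat (nat_lit 196802), .ofNat (nat_lit 204785), .ofNat (nat_lit 200004), .ofNat (nat_lit 207986), .ofNat (nat_lit 197615), .ofNat (nat_lit 205579), .ofNat (nat_lit 200816), .ofNat (nat_lit 208780)⟩, ⟨.ofNat (nat_lit 347811), .ofNat (nat_lit 387723), .ofNat (nat_lit 369156), .ofNat (nat_lit 409067), .ofNat (nat_lit 347728), .ofNat (nat_lit 387547), .ofNat (nat_lit 369071), .ofNat (nat_lit 408890)⟩⟩, [⟨nat_lit 0, nat_lit 100, nat_lit 99, nat_lit 50, nat_lit 219642189⟩, ⟨nat_lit 4, nat_lit 100, nat_lit 100, nat_lit 55, nat_lit 277662215⟩]⟩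
noncomputable def p036_l12 : Lf2 := ⟨nat_lit 0, nat_lit 1, [nat_lit 19, nat_lit 5, nat_lit 5, nat_lit 20], true, nat_lit 220, nat_lit 240, nat_lit 0, nat_lit 280, ⟨nat_lit 0, nat_lit 0, nat_lit 1000, nat_lit 6, nat_lit 82, nat_lit 1000, nat_lit 151, nat_lit 1000, nat_lit 216600, nat_lit 329, nat_lit 62017, nat_lit 276, nat_lit 55018994, nat_lit 0, nat_lit 0, nat_lit 3043741, false, false⟩,
 nat_lit 0, nat_lit 7563, nat_lit 0, nat_lit 0, nat_lit 4261, nat_lit 0, nat_lit 238, nat_lit 0, nat_lit 0, nat_lit 0, nat_lit 0, nat_lit 0, nat_lit 0, nat_lit 0, nat_lit 10, nat_lit 1000000, nat_lit 0, nat_lit 0, [(nat_lit 6, [(nat_lit 6, nat_lit 1000)])],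
 ⟨p036_k3, nat_lit 0, nat_lit 0, nat_lit 161, nat_lit 0, nat_lit 262951, [nat_lit 1137066667, nat_lit 8000000], [], [nat_lit 13955079290, nat_lit 14013207036, nat_lit 13871007791, nat_lit 13928975734, nat_lit 14792653522, nat_lit 14866275408, nat_lit 14706883347, nat_lit 14762375431], nat_lit 1271250, nat_lit 1271250, nat_lit 134400, nat_lit 157850, nat_lit 1271250, nat_lit 1271250, [nat_lit 1100000, nat_lit 1442500], [nat_lit 31, nat_lit 40, nat_lit 20, nat_lit 80, nat_lit 3, nat_lit 215, nat_lit 10, nat_lit 8]⟩, C1.Rw.none,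
 ⟨nat_lit 6041, nat_lit 6063, ⟨.ofNat (nat_lit 200004), .ofNat (nat_lit 207986), .ofNat (nat_lit 201071), .ofNat (nat_lit 209054), .ofNat (nat_lit 200816), .ofNat (nat_lit 208780), .ofNat (nat_lit 201884), .ofNat (nat_lit 209847)⟩, ⟨.ofNat (nat_lit 347811), .ofNat (nat_lit 387723), .ofNat (nat_lit 369156), .ofNat (nat_lit 409067), .ofNat (nat_lit 347728), .ofNat (nat_lit 387547), .ofNat (nat_lit 369071), .ofNat (nat_lit 408890)⟩⟩, [⟨nat_lit 0, nat_lit 100, nat_lit 99, nat_lit 51, nat_lit 220086641⟩, ⟨nat_lit 16, nat_lit 100, nat_lit 100, nat_lit 55, nat_lit 277676037⟩]⟩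
noncomputable def p036_l13 : Lf2 := ⟨nat_lit 0, nat_lit 1, [nat_lit 19, nat_lit 5, nat_lit 5, nat_lit 20], false, nat_lit 220, nat_lit 240, nat_lit 0, nat_lit 160, ⟨nat_lit 372, nat_lit 0, nat_lit 628, nat_lit 6, nat_lit 82, nat_lit 628, nat_lit 151, nat_lit 628, nat_lit 216600, nat_lit 329, nat_lit 64067, nat_lit 277, nat_lit 54991428, nat_lit 0, nat_lit 0, nat_lit 3050192, false, false⟩,
 nat_lit 10519, nat_lit 0, nat_lit 0, nat_lit 0, nat_lit 5927, nat_lit 5816, nat_lit 1083, nat_lit 0, nat_lit 0, nat_lit 858, nat_lit 0, nat_lit 0, nat_lit 0, nat_lit 0, nat_lit 0, nat_lit 628000, nat_lit 0, nat_lit 0, [(nat_lit 6, [(nat_lit 6, nat_lit 628)])],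
 ⟨p036_k3, nat_lit 0, nat_lit 0, nat_lit 162, nat_lit 0, nat_lit 267220, [nat_lit 2357533867, nat_lit 2204424000], [], [nat_lit 14516467409, nat_lit 14579520374, nat_lit 14371163252, nat_lit 14434036172, nat_lit 15406099086, nat_lit 15497758647, nat_lit 15224110411, nat_lit 15295689645], nat_lit 1271250, nat_lit 1271250, nat_lit 134400, nat_lit 157850, nat_lit 1271250, nat_lit 1271250, [nat_lit 1100000, nat_lit 1442500], [nat_lit 31, nat_lit 40, nat_lit 20, nat_lit 80, nat_lit 3, nat_lit 215, nat_lit 10, nat_lit 8]⟩, ⟨p036_k2, nat_lit 0, nat_lit 0, nat_lit 274, nat_lit 0, nat_lit 272928, [nat_lit 1743936000, nat_lit 2325000000], [], [nat_lit 10652026089, nat_lit 10501936881, nat_lit 10050448478, nat_lit 10091445562, nat_lit 6862433923, nat_lit 6722751748, nat_lit 6883083441, nat_lit 6743593892], nat_lit 1271250, nat_lit 1271250, nat_lit 134400, nat_lit 157850, nat_lit 0, nat_lit 1100001, [nat_lit 1100000, nat_lit 1442500],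 [nat_lit 31, nat_lit 40, nat_lit 20, nat_lit 80, nat_lit 3, nat_lit 260, nat_lit 50, nat_lit 11]⟩,
 ⟨nat_lit 6041, nat_lit 6063, ⟨.ofNat (nat_lit 201071), .ofNat (nat_lit 209054), .ofNat (nat_lit 202138), .ofNat (nat_lit 210121), .ofNat (nat_lit 201884), .ofNat (nat_lit 209847), .ofNat (nat_lit 202951), .ofNat (nat_lit 210915)⟩, ⟨.ofNat (nat_lit 347811), .ofNat (nat_lit 387723), .ofNat (nat_lit 369156), .ofNat (nat_lit 409067), .ofNat (nat_lit 347728), .ofNat (nat_lit 387547), .ofNat (nat_lit 369071), .ofNat (nat_lit 408890)⟩⟩, [⟨nat_lit 0, nat_lit 100, nat_lit 99, nat_lit 51, nat_lit 1344604824⟩, ⟨nat_lit 4, nat_lit 100, nat_lit 100, nat_lit 55, nat_lit 472053674⟩]⟩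
noncomputable def p036_l14 : Lf2 := ⟨nat_lit 0, nat_lit 1, [nat_lit 19, nat_lit 5, nat_lit 5, nat_lit 20], false, nat_lit 220, nat_lit 240, nat_lit 160, nat_lit 200, ⟨nat_lit 197, nat_lit 0, nat_lit 803, nat_lit 6, nat_lit 82, nat_lit 803, nat_lit 151, nat_lit 803, nat_lit 216600, nat_lit 329, nat_lit 64067, nat_lit 277, nat_lit 54991428, nat_lit 0, nat_lit 0, nat_lit 3050192, false, false⟩,
 nat_lit 9292, nat_lit 0, nat_lit 0, nat_lit 0, nat_lit 5235, nat_lit 5137, nat_lit 319, nat_lit 0, nat_lit 0, nat_lit 1168, nat_lit 0, nat_lit 0, nat_lit 0, nat_lit 0, nat_lit 0, nat_lit 803000, nat_lit 0, nat_lit 0, [(nat_lit 6, [(nat_lit 6, nat_lit 803)])],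
 ⟨p036_k3, nat_lit 0, nat_lit 0, nat_lit 162, nat_lit 0, nat_lit 267220, [nat_lit 1708120534, nat_lit 1077074000], [], [nat_lit 14296009098, nat_lit 14355285157, nat_lit 14175314146, nat_lit 14234424482, nat_lit 15149965707, nat_lit 15235461887, nat_lit 14994698577, nat_lit 15061815189], nat_lit 1271250, nat_lit 1271250, nat_lit 134400, nat_lit 157850, nat_lit 1271250, nat_lit 1271250, [nat_lit 1100000, nat_lit 1442500], [nat_lit 31, nat_lit 40, nat_lit 20, nat_lit 80, nat_lit 3, nat_lit 215, nat_lit 10, nat_lit 8]⟩, ⟨p036_k2, nat_lit 0, nat_lit 0, nat_lit 194, nat_lit 0, nat_lit 272928, [nat_lit 923536000, nat_lit 1231250000], [], [nat_lit 3645047682, nat_lit 3512480924, nat_lit 3113702395, nat_lit 2981332590, nat_lit 3002995565, nat_lit 3064133765, nat_lit 2749031481, nat_lit 2810059774], nat_lit 1271250, nat_lit 1271250, nat_lit 134400, nat_lit 157850, nat_lit 1100001, nat_lit 1442500, [nat_lit 1100000, nat_lit 1442500],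 [nat_lit 31, nat_lit 40, nat_lit 20, nat_lit 80, nat_lit 3, nat_lit 272, nat_lit 60, nat_lit 10]⟩,
 ⟨nat_lit 6041, nat_lit 6063, ⟨.ofNat (nat_lit 201071), .ofNat (nat_lit 209054), .ofNat (nat_lit 202138), .ofNat (nat_lit 210121), .ofNat (nat_lit 201884), .ofNat (nat_lit 209847), .ofNat (nat_lit 202951), .ofNat (nat_lit 210915)⟩, ⟨.ofNat (nat_lit 347811), .ofNat (nat_lit 387723), .ofNat (nat_lit 369156), .ofNat (nat_lit 409067), .ofNat (nat_lit 347728), .ofNat (nat_lit 387547), .ofNat (nat_lit 369071), .ofNat (nat_lit 408890)⟩⟩, [⟨nat_lit 0, nat_lit 100, nat_lit 99, nat_lit 51, nat_lit 1105566208⟩, ⟨nat_lit 4, nat_lit 100, nat_lit 100, nat_lit 55, nat_lit 368848318⟩]⟩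
noncomputable def p036_l15 : Lf2 := ⟨nat_lit 0, nat_lit 1, [nat_lit 19, nat_lit 5, nat_lit 5, nat_lit 20], false, nat_lit 220, nat_lit 240, nat_lit 200, nat_lit 240, ⟨nat_lit 1000, nat_lit 0, nat_lit 0, nat_lit 0, nat_lit 0, nat_lit 0, nat_lit 0, nat_lit 0, nat_lit 0, nat_lit 0, nat_lit 0, nat_lit 0, nat_lit 0, nat_lit 0, nat_lit 0, nat_lit 0, false, false⟩,
 nat_lit 17174, nat_lit 0, nat_lit 0, nat_lit 0, nat_lit 9676, nat_lit 9495, nat_lit 1384, nat_lit 0, nat_lit 0, nat_lit 2772, nat_lit 0, nat_lit 0, nat_lit 0, nat_lit 0, nat_lit 0, nat_lit 0, nat_lit 0, nat_lit 0, [],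
 ⟨p036_k3, nat_lit 0, nat_lit 0, nat_lit 162, nat_lit 0, nat_lit 267220, [nat_lit 4688000000, nat_lit 6250000000], [], [nat_lit 15533011697, nat_lit 15634703423, nat_lit 15196348576, nat_lit 15297778813, nat_lit 16793870419, nat_lit 16918785455, nat_lit 16455709476, nat_lit 16551713995], nat_lit 1271250, nat_lit 1271250, nat_lit 134400, nat_lit 157850, nat_lit 1271250, nat_lit 1271250, [nat_lit 1100000, nat_lit 1442500], [nat_lit 31, nat_lit 40, nat_lit 20, nat_lit 80, nat_lit 3, nat_lit 215, nat_lit 10, nat_lit 8]⟩, ⟨p036_k2, nat_lit 0, nat_lit 0, nat_lit 174, nat_lit 0, nat_lit 272928, [nat_lit 4688000000, nat_lit 6250000000], [], [nat_lit 13702716224, nat_lit 13808492924, nat_lit 13376166681, nat_lit 13481668412, nat_lit 16242889133, nat_lit 16353260739, nat_lit 15913228426, nat_lit 16008055571], nat_lit 1271250, nat_lit 1271250, nat_lit 134400, nat_lit 157850, nat_lit 1271250, nat_lit 1271250, [nat_lit 1100000, nat_lit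 1442500], [nat_lit 31, nat_lit 40, nat_lit 20, nat_lit 80, nat_lit 3, nat_lit 215, nat_lit 10, nat_lit 8]⟩,
 zbF0, [⟨nat_lit 0, nat_lit 100, nat_lit 99, nat_lit 51, nat_lit 1608522815⟩, ⟨nat_lit 4, nat_lit 100, nat_lit 100, nat_lit 55, nat_lit 971781749⟩]⟩
noncomputable def p036_l16 : Lf2 := ⟨nat_lit 0, nat_lit 1, [nat_lit 19, nat_lit 5, nat_lit 5, nat_lit 20], false, nat_lit 220, nat_lit 240, nat_lit 240, nat_lit 280, ⟨nat_lit 1000, nat_lit 0, nat_lit 0, nat_lit 0, nat_lit 0, nat_lit 0, nat_lit 0, nat_lit 0, nat_lit 0, nat_lit 0, nat_lit 0, nat_lit 0, nat_lit 0, nat_lit 0, nat_lit 0, nat_lit 0, false, false⟩,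
 nat_lit 16141, nat_lit 0, nat_lit 0, nat_lit 0, nat_lit 9095, nat_lit 8924, nat_lit 2602, nat_lit 0, nat_lit 0, nat_lit 1287, nat_lit 0, nat_lit 0, nat_lit 0, nat_lit 0, nat_lit 0, nat_lit 0, nat_lit 0, nat_lit 0, [],
 ⟨p036_k3, nat_lit 0, nat_lit 0, nat_lit 162, nat_lit 0, nat_lit 267220, [nat_lit 4688000000, nat_lit 6250000000], [], [nat_lit 15308238273, nat_lit 15405854876, nat_lit 14995736304, nat_lit 15093103398, nat_lit 16577969696, nat_lit 16698562309, nat_lit 16216002655, nat_lit 16308227873], nat_lit 1271250, nat_lit 1271250, nat_lit 134400, nat_lit 157850, nat_lit 1271250, nat_lit 1271250, [nat_lit 1100000, nat_lit 1442500], [nat_lit 31, nat_lit 40, nat_lit 20, nat_lit 80, nat_lit 3, nat_lit 215, nat_lit 10, nat_lit 8]⟩, ⟨p036_k2, nat_lit 0, nat_lit 0, nat_lit 155, nat_lit 0, nat_lit 272928, [nat_lit 4688000000, nat_lit 6250000000], [], [nat_lit 17190328858, nat_lit 17281671425, nat_lit 16884404941, nat_lit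 16975517835, nat_lit 21014455093, nat_lit 21116857646, nat_lit 20698512208, nat_lit 20778241282], nat_lit 1271250, nat_lit 1271250, nat_lit 134400, nat_lit 157850, nat_lit 1271250, nat_lit 1271250, [nat_lit 1100000, nat_lit 1442500], [nat_lit 31, nat_lit 40, nat_lit 20, nat_lit 80, nat_lit 3, nat_lit 215, nat_lit 10, nat_lit 8]⟩,
 zbF0, [⟨nat_lit 0, nat_lit 100, nat_lit 99, nat_lit 51, nat_lit 1391940325⟩, ⟨nat_lit 7, nat_lit 98, nat_lit 100, nat_lit 54, nat_lit 1069882336⟩, ⟨nat_lit 11, nat_lit 98, nat_lit 100, nat_lit 50, nat_lit 266607101⟩]⟩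
noncomputable def p036_l17 : Lf2 := ⟨nat_lit 0, nat_lit 1, [nat_lit 19, nat_lit 5, nat_lit 5, nat_lit 20], true, nat_lit 220, nat_lit 240, nat_lit 0, nat_lit 284, ⟨nat_lit 0, nat_lit 0, nat_lit 1000, nat_lit 6, nat_lit 85, nat_lit 1000, nat_lit 151, nat_lit 1000, nat_lit 216600, nat_lit 329, nat_lit 68267, nat_lit 279, nat_lit 54839559, nat_lit 0, nat_lit 0, nat_lit 3085386, false, false⟩,
 nat_lit 0, nat_lit 7609, nat_lit 0, nat_lit 0, nat_lit 4287, nat_lit 0, nat_lit 231, nat_lit 0, nat_lit 0, nat_lit 0, nat_lit 0, nat_lit 0, nat_lit 0, nat_lit 0, nat_lit 10, nat_lit 1000000, nat_lit 0, nat_lit 0, [(nat_lit 6, [(nat_lit 6, nat_lit 1000)])],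
 ⟨p036_k3, nat_lit 0, nat_lit 0, nat_lit 160, nat_lit 0, nat_lit 267220, [nat_lit 1137066667, nat_lit 8000000], [], [nat_lit 13828676361, nat_lit 13883713549, nat_lit 13741694597, nat_lit 13798559435, nat_lit 14663038193, nat_lit 14718679044, nat_lit 14576341226, nat_lit 14631830889], nat_lit 1271250, nat_lit 1271250, nat_lit 157850, nat_lit 181601, nat_lit 1271250, nat_lit 1271250, [nat_lit 1100000, nat_lit 1442500], [nat_lit 31, nat_lit 40, nat_lit 20, nat_lit 80, nat_lit 3, nat_lit 215, nat_lit 10, nat_lit 8]⟩, C1.Rw.none,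
 ⟨nat_lit 6041, nat_lit 6063, ⟨.ofNat (nat_lit 204785), .ofNat (nat_lit 212767), .ofNat (nat_lit 210121), .ofNat (nat_lit 218103), .ofNat (nat_lit 205579), .ofNat (nat_lit 213543), .ofNat (nat_lit 210915), .ofNat (nat_lit 218878)⟩, ⟨.ofNat (nat_lit 347811), .ofNat (nat_lit 387723), .ofNat (nat_lit 369156), .ofNat (nat_lit 409067), .ofNat (nat_lit 347728), .ofNat (nat_lit 387547), .ofNat (nat_lit 369071), .ofNat (nat_lit 408890)⟩⟩, [⟨nat_lit 4, nat_lit 100, nat_lit 100, nat_lit 55, nat_lit 278421143⟩]⟩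
noncomputable def p036_l18 : Lf2 := ⟨nat_lit 0, nat_lit 1, [nat_lit 19, nat_lit 5, nat_lit 5, nat_lit 20], true, nat_lit 220, nat_lit 240, nat_lit 0, nat_lit 288, ⟨nat_lit 0, nat_lit 0, nat_lit 1000, nat_lit 6, nat_lit 82, nat_lit 1000, nat_lit 151, nat_lit 1000, nat_lit 212817, nat_lit 328, nat_lit 64067, nat_lit 277, nat_lit 54996788, nat_lit 0, nat_lit 0, nat_lit 3049359, false, false⟩,
 nat_lit 0, nat_lit 7511, nat_lit 0, nat_lit 0, nat_lit 4251, nat_lit 0, nat_lit 207, nat_lit 0, nat_lit 0, nat_lit 0, nat_lit 0, nat_lit 0, nat_lit 0, nat_lit 0, nat_lit 10, nat_lit 1000000, nat_lit 0, nat_lit 0, [(nat_lit 6, [(nat_lit 6, nat_lit 1000)])],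
 ⟨p036_k4, nat_lit 0, nat_lit 0, nat_lit 161, nat_lit 0, nat_lit 270290, [nat_lit 1137066667, nat_lit 8000000], [], [nat_lit 14033703937, nat_lit 14088326597, nat_lit 13862507891, nat_lit 13920254702, nat_lit 14864745862, nat_lit 14939034309, nat_lit 14693617607, nat_lit 14748902062], nat_lit 1271250, nat_lit 1271250, nat_lit 134400, nat_lit 181601, nat_lit 1271250, nat_lit 1271250, [nat_lit 1100000, nat_lit 1442500], [nat_lit 31, nat_lit 40, nat_lit 20, nat_lit 80, nat_lit 3, nat_lit 215, nat_lit 10, nat_lit 8]⟩, C1.Rw.none,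
 ⟨nat_lit 6020, nat_lit 6042, ⟨.ofNat (nat_lit 192279), .ofNat (nat_lit 208207), .ofNat (nat_lit 202951), .ofNat (nat_lit 218878), .ofNat (nat_lit 193091), .ofNat (nat_lit 208981), .ofNat (nat_lit 203762), .ofNat (nat_lit 219652)⟩, ⟨.ofNat (nat_lit 347728), .ofNat (nat_lit 387547), .ofNat (nat_lit 369071), .ofNat (nat_lit 408890), .ofNat (nat_lit 347644), .ofNat (nat_lit 387371), .ofNat (nat_lit 368987), .ofNat (nat_lit 408713)⟩⟩, [⟨nat_lit 0, nat_lit 100, nat_lit 99, nat_lit 52, nat_lit 218919727⟩, ⟨nat_lit 4, nat_lit 100, nat_lit 100, nat_lit 55, nat_lit 277408961⟩]⟩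
noncomputable def p036_l19 : Lf2 := ⟨nat_lit 0, nat_lit 1, [nat_lit 19, nat_lit 5, nat_lit 5, nat_lit 20], true, nat_lit 220, nat_lit 240, nat_lit 0, nat_lit 288, ⟨nat_lit 0, nat_lit 0, nat_lit 1000, nat_lit 6, nat_lit 88, nat_lit 1000, nat_lit 151, nat_lit 1000, nat_lit 216600, nat_lit 329, nat_lit 72600, nat_lit 281, nat_lit 54609825, nat_lit 0, nat_lit 0, nat_lit 3137178, false, false⟩,
 nat_lit 0, nat_lit 7762, nat_lit 0, nat_lit 0, nat_lit 4312, nat_lit 0, nat_lit 336, nat_lit 0, nat_lit 0, nat_lit 0, nat_lit 0, nat_lit 0, nat_lit 0, nat_lit 0, nat_lit 10, nat_lit 1000000, nat_lit 0, nat_lit 0, [(nat_lit 6, [(nat_lit 6, nat_lit 1000)])],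
 ⟨p036_k0, nat_lit 0, nat_lit 0, nat_lit 160, nat_lit 0, nat_lit 276042, [nat_lit 1137066667, nat_lit 8000000], [], [nat_lit 13521667157, nat_lit 13812271693, nat_lit 13350872188, nat_lit 13639866855, nat_lit 14366394771, nat_lit 14644555615, nat_lit 14192128902, nat_lit 14468772478], nat_lit 1271250, nat_lit 1271250, nat_lit 181601, nat_lit 230001, nat_lit 1271250, nat_lit 1271250, [nat_lit 1100000, nat_lit 1442500], [nat_lit 31, nat_lit 40, nat_lit 20, nat_lit 80, nat_lit 3, nat_lit 215, nat_lit 10, nat_lit 8]⟩, C1.Rw.none,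
 ⟨nat_lit 6020, nat_lit 6124, ⟨.ofNat (nat_lit 205096), .ofNat (nat_lit 221172), .ofNat (nat_lit 215770), .ofNat (nat_lit 231846), .ofNat (nat_lit 208981), .ofNat (nat_lit 224872), .ofNat (nat_lit 219652), .ofNat (nat_lit 235543)⟩, ⟨.ofNat (nat_lit 348056), .ofNat (nat_lit 388246), .ofNat (nat_lit 369404), .ofNat (nat_lit 409594), .ofNat (nat_lit 347644), .ofNat (nat_lit 387371), .ofNat (nat_lit 368987), .ofNat (nat_lit 408713)⟩⟩, [⟨nat_lit 4, nat_lit 99, nat_lit 100, nat_lit 55, nat_lit 278360501⟩]⟩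
noncomputable def p036_l20 : Lf2 := ⟨nat_lit 0, nat_lit 1, [nat_lit 19, nat_lit 5, nat_lit 5, nat_lit 20], true, nat_lit 220, nat_lit 240, nat_lit 0, nat_lit 288, ⟨nat_lit 0, nat_lit 0, nat_lit 1000, nat_lit 6, nat_lit 85, nat_lit 1000, nat_lit 151, nat_lit 1000, nat_lit 212817, nat_lit 328, nat_lit 68267, nat_lit 279, nat_lit 54846839, nat_lit 0, nat_lit 0, nat_lit 3085329, false, false⟩,
 nat_lit 0, nat_lit 7390, nat_lit 0, nat_lit 0, nat_lit 4202, nat_lit 0, nat_lit 190, nat_lit 0, nat_lit 0, nat_lit 0, nat_lit 0, nat_lit 0, nat_lit 0, nat_lit 0, nat_lit 10, nat_lit 1000000, nat_lit 0, nat_lit 0, [(nat_lit 6, [(nat_lit 6, nat_lit 1000)])],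
 ⟨p036_k5, nat_lit 0, nat_lit 0, nat_lit 164, nat_lit 0, nat_lit 291744, [nat_lit 1137066667, nat_lit 8000000], [], [nat_lit 14254076665, nat_lit 14543490226, nat_lit 13842403819, nat_lit 14128051007, nat_lit 15084618673, nat_lit 15454935952, nat_lit 14664789783, nat_lit 14938321954], nat_lit 1271250, nat_lit 1271250, nat_lit 111251, nat_lit 230001, nat_lit 1271250, nat_lit 1271250, [nat_lit 1100000, nat_lit 1442500], [nat_lit 31, nat_lit 40, nat_lit 20, nat_lit 80, nat_lit 3, nat_lit 215, nat_lit 10, nat_lit 8]⟩, C1.Rw.none,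
 ⟨nat_lit 5916, nat_lit 6021, ⟨.ofNat (nat_lit 185145), .ofNat (nat_lit 224872), .ofNat (nat_lit 195817), .ofNat (nat_lit 235543), .ofNat (nat_lit 189276), .ofNat (nat_lit 228543), .ofNat (nat_lit 199946), .ofNat (nat_lit 239212)⟩, ⟨.ofNat (nat_lit 347644), .ofNat (nat_lit 387371), .ofNat (nat_lit 368987), .ofNat (nat_lit 408713), .ofNat (nat_lit 347212), .ofNat (nat_lit 386479), .ofNat (nat_lit 368551), .ofNat (nat_lit 407818)⟩⟩, [⟨nat_lit 0, nat_lit 100, nat_lit 98, nat_lit 51, nat_lit 219817015⟩, ⟨nat_lit 4, nat_lit 100, nat_lit 99, nat_lit 55, nat_lit 277374563⟩]⟩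
noncomputable def p036_l21 : Lf2 := ⟨nat_lit 0, nat_lit 2, [nat_lit 10, nat_lit 5, nat_lit 5, nat_lit 20], true, nat_lit 200, nat_lit 240, nat_lit 0, nat_lit 288, ⟨nat_lit 0, nat_lit 0, nat_lit 1000, nat_lit 6, nat_lit 84, nat_lit 1000, nat_lit 143, nat_lit 1000, nat_lit 194400, nat_lit 323, nat_lit 66150, nat_lit 278, nat_lit 55606402, nat_lit 0, nat_lit 0, nat_lit 2967191, false, false⟩,
 nat_lit 0, nat_lit 7619, nat_lit 0, nat_lit 0, nat_lit 4232, nat_lit 0, nat_lit 84, nat_lit 0, nat_lit 0, nat_lit 0, nat_lit 0, nat_lit 0, nat_lit 0, nat_lit 0, nat_lit 80, nat_lit 1000000, nat_lit 0, nat_lit 0, [(nat_lit 6, [(nat_lit 6, nat_lit 1000)])],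
 ⟨p036_k6, nat_lit 0, nat_lit 0, nat_lit 180, nat_lit 0, nat_lit 256986, [nat_lit 2257066667, nat_lit 1408000000, nat_lit 211200000], [], [nat_lit 13313702635, nat_lit 13828877163, nat_lit 12878952215, nat_lit 13387349843, nat_lit 14797598955, nat_lit 15469497232, nat_lit 14366838691, nat_lit 14885711254], nat_lit 1271250, nat_lit 1271250, nat_lit 111251, nat_lit 230001, nat_lit 1271250, nat_lit 1271250, [nat_lit 1100000, nat_lit 1442500, nat_lit 1271250], [nat_lit 9, nat_lit 40, nat_lit 20, nat_lit 80, nat_lit 2, nat_lit 289, nat_lit 75, nat_lit 9]⟩, C1.Rw.none,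
 ⟨nat_lit 5916, nat_lit 6124, ⟨.ofNat (nat_lit 180982), .ofNat (nat_lit 221172), .ofNat (nat_lit 191656), .ofNat (nat_lit 231846), .ofNat (nat_lit 189276), .ofNat (nat_lit 228543), .ofNat (nat_lit 199946), .ofNat (nat_lit 239212)⟩, ⟨.ofNat (nat_lit 307865), .ofNat (nat_lit 388246), .ofNat (nat_lit 329214), .ofNat (nat_lit 409594), .ofNat (nat_lit 307945), .ofNat (nat_lit 386479), .ofNat (nat_lit 329284), .ofNat (nat_lit 407818)⟩⟩, [⟨nat_lit 0, nat_lit 100, nat_lit 99, nat_lit 50, nat_lit 222240914⟩, ⟨nat_lit 4, nat_lit 100, nat_lit 100, nat_lit 55, nat_lit 232736031⟩]⟩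
noncomputable def p036_l22 : Lf2 := ⟨nat_lit 0, nat_lit 2, [nat_lit 10, nat_lit 5, nat_lit 5, nat_lit 20], true, nat_lit 200, nat_lit 240, nat_lit 0, nat_lit 288, ⟨nat_lit 0, nat_lit 0, nat_lit 1000, nat_lit 6, nat_lit 108, nat_lit 1000, nat_lit 143, nat_lit 1000, nat_lit 194400, nat_lit 323, nat_lit 109350, nat_lit 296, nat_lit 53939748, nat_lit 0, nat_lit 0, nat_lit 3320226, false, false⟩,
 nat_lit 0, nat_lit 7796, nat_lit 0, nat_lit 0, nat_lit 4330, nat_lit 0, nat_lit 384, nat_lit 0, nat_lit 0, nat_lit 0, nat_lit 0, nat_lit 0, nat_lit 0, nat_lit 0, nat_lit 80, nat_lit 1000000, nat_lit 0, nat_lit 0, [(nat_lit 6, [(nat_lit 6, nat_lit 1000)])],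
 ⟨p036_k6, nat_lit 0, nat_lit 0, nat_lit 179, nat_lit 0, nat_lit 304209, [nat_lit 2257066667, nat_lit 1408000000, nat_lit 211200000], [], [nat_lit 12518223832, nat_lit 13078684124, nat_lit 12266177502, nat_lit 12846693384, nat_lit 14159544204, nat_lit 14713849634, nat_lit 13893376404, nat_lit 14426794954], nat_lit 1271250, nat_lit 1271250, nat_lit 230001, nat_lit 490000, nat_lit 1271250, nat_lit 1271250, [nat_lit 1100000, nat_lit 1442500, nat_lit 1271250], [nat_lit 9, nat_lit 40, nat_lit 20, nat_lit 80, nat_lit 2, nat_lit 317, nat_lit 100, nat_lit 10]⟩, C1.Rw.none,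
 ⟨nat_lit 5916, nat_lit 6124, ⟨.ofNat (nat_lit 221172), .ofNat (nat_lit 301553), .ofNat (nat_lit 231846), .ofNat (nat_lit 312227), .ofNat (nat_lit 228543), .ofNat (nat_lit 307076), .ofNat (nat_lit 239212), .ofNat (nat_lit 317746)⟩, ⟨.ofNat (nat_lit 307865), .ofNat (nat_lit 388246), .ofNat (nat_lit 329214), .ofNat (nat_lit 409594), .ofNat (nat_lit 307945), .ofNat (nat_lit 386479), .ofNat (nat_lit 329284), .ofNat (nat_lit 407818)⟩⟩, [⟨nat_lit 4, nat_lit 100, nat_lit 100, nat_lit 55, nat_lit 278463895⟩]⟩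
noncomputable def p036_l23 : Lf2 := ⟨nat_lit 0, nat_lit 5, [nat_lit 4, nat_lit 5, nat_lit 5, nat_lit 20], true, nat_lit 200, nat_lit 240, nat_lit 0, nat_lit 288, ⟨nat_lit 0, nat_lit 0, nat_lit 1000, nat_lit 6, nat_lit 100, nat_lit 1000, nat_lit 143, nat_lit 1000, nat_lit 194400, nat_lit 323, nat_lit 93750, nat_lit 290, nat_lit 54513948, nat_lit 0, nat_lit 0, nat_lit 3205032, false, false⟩,
 nat_lit 0, nat_lit 7560, nat_lit 0, nat_lit 0, nat_lit 4199, nat_lit 0, nat_lit 62, nat_lit 0, nat_lit 0, nat_lit 0, nat_lit 0, nat_lit 0, nat_lit 0, nat_lit 0, nat_lit 80, nat_lit 1000000, nat_lit 0, nat_lit 0, [(nat_lit 6, [(nat_lit 6, nat_lit 1000)])],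
 ⟨p036_k7, nat_lit 0, nat_lit 0, nat_lit 172, nat_lit 0, nat_lit 228670, [nat_lit 2257066667, nat_lit 1408000000, nat_lit 211200000], [], [nat_lit 13409037056, nat_lit 13922545364, nat_lit 12699563740, nat_lit 13206430412, nat_lit 14859103233, nat_lit 15453479824, nat_lit 14161824355, nat_lit 14688256020], nat_lit 1271250, nat_lit 1271250, nat_lit 111251, nat_lit 490000, nat_lit 1271250, nat_lit 1271250, [nat_lit 1100000, nat_lit 1442500, nat_lit 1271250], [nat_lit 9, nat_lit 40, nat_lit 20, nat_lit 80, nat_lit 2, nat_lit 317, nat_lit 100, nat_lit 10]⟩, C1.Rw.none,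
 ⟨nat_lit 5916, nat_lit 6124, ⟨.ofNat (nat_lit 180982), .ofNat (nat_lit 301553), .ofNat (nat_lit 191656), .ofNat (nat_lit 312227), .ofNat (nat_lit 189276), .ofNat (nat_lit 307076), .ofNat (nat_lit 199946), .ofNat (nat_lit 317746)⟩, ⟨.ofNat (nat_lit 307865), .ofNat (nat_lit 388246), .ofNat (nat_lit 329214), .ofNat (nat_lit 409594), .ofNat (nat_lit 307945), .ofNat (nat_lit 386479), .ofNat (nat_lit 329284), .ofNat (nat_lit 407818)⟩⟩, [⟨nat_lit 0, nat_lit 100, nat_lit 99, nat_lit 50, nat_lit 175806271⟩, ⟨nat_lit 4, nat_lit 100, nat_lit 100, nat_lit 55, nat_lit 224840298⟩]⟩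
noncomputable def b_VL_600_600_5_38 : St := ⟨true, nat_lit 1, nat_lit 1, nat_lit 1, nat_lit 40, nat_lit 250, nat_lit 260, nat_lit 240, nat_lit 250, nat_lit 20, nat_lit 80, nat_lit 20, nat_lit 40, nat_lit 200, nat_lit 240, nat_lit 0, nat_lit 288, nat_lit 0, nat_lit 20, nat_lit 0, nat_lit 0, nat_lit 0, nat_lit 0⟩
theorem d_VL_600_600_5_38 (h : EB TB.env) : Dead b_VL_600_600_5_38 := chkB_sound0 h (T :=
(.spl (nat_lit 6) (nat_lit 8)
(.spl (nat_lit 2) (nat_lit 40)
(.spl (nat_lit 6) (nat_lit 4)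
(.spl (nat_lit 4) (nat_lit 220)
(.leaf p036_l0)
(.spl (nat_lit 0) (nat_lit 255)
(.spl (nat_lit 2) (nat_lit 32)
(.spl (nat_lit 2) (nat_lit 24)
(.trX (nat_lit 23) (nat_lit 100) (nat_lit 93) (nat_lit 48) (nat_lit 280) (.leaf p036_l1))
(.spl (nat_lit 0) (nat_lit 253)
(.spl (nat_lit 2) (nat_lit 28)
(.spl (nat_lit 1) (nat_lit 245)
(.leaf p036_l2)
(.trX (nat_lit 19) (nat_lit 100) (nat_lit 94) (nat_lit 62) (nat_lit 284) (.spl (nat_lit 1) (nat_lit 248)
(.leaf p036_l3)
(.trX (nat_lit 19) (nat_lit 100) (nat_lit 95) (nat_lit 62) (nat_lit 280) (.spl (nat_lit 5) (nat_lit 160)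
(.leaf p036_l4)
(.spl (nat_lit 1) (nat_lit 249)
(.leaf p036_l5)
(.spl (nat_lit 5) (nat_lit 240)
(.spl (nat_lit 5) (nat_lit 200)
(.leaf p036_l6)
(.leaf p036_l7))
(.leaf p036_l8))))))))
(.leaf p036_l9))
(.spl (nat_lit 0) (nat_lit 254)
(.spl (nat_lit 1) (nat_lit 245)
(.leaf p036_l10)
(.trX (nat_lit 19) (nat_lit 100) (nat_lit 94) (nat_lit 62) (nat_lit 284) (.spl (nat_lit 2) (nat_lit 28)
(.spl (nat_lit 1) (nat_lit 248)
(.leaf p036_l11)
(.trX (nat_lit 19) (nat_lit 100) (nat_lit 95) (nat_lit 62) (nat_lit 280) (.spl (nat_lit 1) (nat_lit 249)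
(.leaf p036_l12)
(.spl (nat_lit 5) (nat_lit 160)
(.leaf p036_l13)
(.spl (nat_lit 5) (nat_lit 240)
(.spl (nat_lit 5) (nat_lit 200)
(.leaf p036_l14)
(.leaf p036_l15))
(.leaf p036_l16))))))
(.leaf p036_l17))))
(.leaf p036_l18))))
(.leaf p036_l19))
(.leaf p036_l20)))
(.leaf p036_l21))
(.leaf p036_l22))
(.leaf p036_l23))) (by decide +kernel)
noncomputable def p036_l24 : Lf2 := ⟨nat_lit 0, nat_lit 2, [nat_lit 10, nat_lit 5, nat_lit 5, nat_lit 20], true, nat_lit 200, nat_lit 240, nat_lit 0, nat_lit 280, ⟨nat_lit 0, nat_lit 0, nat_lit 1000, nat_lit 6, nat_lit 105, nat_lit 1000, nat_lit 143, nat_lit 1000, nat_lit 194400, nat_lit 323, nat_lit 104017, nat_lit 294, nat_lit 54169799, nat_lit 0, nat_lit 0, nat_lit 3274821, false, false⟩,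
 nat_lit 0, nat_lit 5212, nat_lit 0, nat_lit 0, nat_lit 2895, nat_lit 0, nat_lit 304, nat_lit 0, nat_lit 0, nat_lit 0, nat_lit 0, nat_lit 0, nat_lit 0, nat_lit 7669026080888, nat_lit 39, nat_lit 883600, nat_lit 0, nat_lit 0, [(nat_lit 6, [(nat_lit 5, nat_lit 194), (nat_lit 6, nat_lit 806)])],
 ⟨p036_k8, nat_lit 0, nat_lit 0, nat_lit 0, nat_lit 0, nat_lit 326284, [nat_lit 1003249601, nat_lit 1485531201, nat_lit 1036488001, nat_lit 631688801, nat_lit 10264800], [], [nat_lit 13590046442, nat_lit 14107722762, nat_lit 13581005382, nat_lit 14075369122, nat_lit 15262061722, nat_lit 15774890261, nat_lit 15209092102, nat_lit 15682519822], nat_lit 1271250, nat_lit 1271250, nat_lit 134400, nat_lit 490000, nat_lit 1271250, nat_lit 1271250, [nat_lit 631250, nat_lit 936250, nat_lit 1271250, nat_lit 1271250, nat_lit 1271250], [nat_lit 244, nat_lit 10, nat_lit 4, nat_lit 20]⟩, C1.Rw.none,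
 ⟨nat_lit 5916, nat_lit 6124, ⟨.ofNat (nat_lit 199694), .ofNat (nat_lit 312227), .ofNat (nat_lit 205031), .ofNat (nat_lit 317564), .ofNat (nat_lit 207799), .ofNat (nat_lit 317746), .ofNat (nat_lit 213134), .ofNat (nat_lit 323081)⟩, ⟨.ofNat (nat_lit 307865), .ofNat (nat_lit 388246), .ofNat (nat_lit 329214), .ofNat (nat_lit 409594), .ofNat (nat_lit 307945), .ofNat (nat_lit 386479), .ofNat (nat_lit 329284), .ofNat (nat_lit 407818)⟩⟩, [⟨nat_lit 0, nat_lit 100, nat_lit 100, nat_lit 54, nat_lit 121404017⟩, ⟨nat_lit 16, nat_lit 100, nat_lit 100, nat_lit 55, nat_lit 270652794⟩]⟩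
noncomputable def p036_l25 : Lf2 := ⟨nat_lit 0, nat_lit 2, [nat_lit 10, nat_lit 5, nat_lit 5, nat_lit 20], true, nat_lit 200, nat_lit 240, nat_lit 0, nat_lit 272, ⟨nat_lit 0, nat_lit 0, nat_lit 1000, nat_lit 6, nat_lit 109, nat_lit 1000, nat_lit 143, nat_lit 1000, nat_lit 190817, nat_lit 322, nat_lit 109350, nat_lit 296, nat_lit 53903609, nat_lit 0, nat_lit 0, nat_lit 3327440, false, false⟩,
 nat_lit 0, nat_lit 5134, nat_lit 0, nat_lit 0, nat_lit 2920, nat_lit 0, nat_lit 275, nat_lit 0, nat_lit 0, nat_lit 0, nat_lit 0, nat_lit 0, nat_lit 0, nat_lit 9132334052532, nat_lit 39, nat_lit 887800, nat_lit 0, nat_lit 0, [(nat_lit 6, [(nat_lit 5, nat_lit 187), (nat_lit 6, nat_lit 813)])],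
 ⟨p036_k9, nat_lit 0, nat_lit 0, nat_lit 0, nat_lit 0, nat_lit 322064, [nat_lit 1000880801, nat_lit 1486197601, nat_lit 1036124001, nat_lit 630112401, nat_lit 6560400], [], [nat_lit 13740548552, nat_lit 13896035624, nat_lit 13754866552, nat_lit 13903636265, nat_lit 15421594642, nat_lit 15570206242, nat_lit 15395037362, nat_lit 15537489699], nat_lit 1271250, nat_lit 1271250, nat_lit 157850, nat_lit 490000, nat_lit 1271250, nat_lit 1271250, [nat_lit 631250, nat_lit 936250, nat_lit 1271250, nat_lit 1271250, nat_lit 1271250], [nat_lit 244, nat_lit 10, nat_lit 4, nat_lit 20]⟩, C1.Rw.none,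
 ⟨nat_lit 5958, nat_lit 6021, ⟨.ofNat (nat_lit 217043), .ofNat (nat_lit 320331), .ofNat (nat_lit 220244), .ofNat (nat_lit 323533), .ofNat (nat_lit 219413), .ofNat (nat_lit 321983), .ofNat (nat_lit 222614), .ofNat (nat_lit 325184)⟩, ⟨.ofNat (nat_lit 307918), .ofNat (nat_lit 387371), .ofNat (nat_lit 329260), .ofNat (nat_lit 408713), .ofNat (nat_lit 307937), .ofNat (nat_lit 386838), .ofNat (nat_lit 329277), .ofNat (nat_lit 408178)⟩⟩, [⟨nat_lit 0, nat_lit 100, nat_lit 100, nat_lit 58, nat_lit 115042485⟩, ⟨nat_lit 4, nat_lit 100, nat_lit 99, nat_lit 55, nat_lit 288633253⟩]⟩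
noncomputable def p036_l26 : Lf2 := ⟨nat_lit 0, nat_lit 2, [nat_lit 10, nat_lit 5, nat_lit 5, nat_lit 20], true, nat_lit 200, nat_lit 240, nat_lit 0, nat_lit 272, ⟨nat_lit 0, nat_lit 0, nat_lit 1000, nat_lit 6, nat_lit 110, nat_lit 1000, nat_lit 143, nat_lit 1000, nat_lit 190817, nat_lit 322, nat_lit 112067, nat_lit 297, nat_lit 53830403, nat_lit 0, nat_lit 0, nat_lit 3341931, false, false⟩,
 nat_lit 0, nat_lit 5035, nat_lit 0, nat_lit 0, nat_lit 2903, nat_lit 0, nat_lit 237, nat_lit 0, nat_lit 0, nat_lit 0, nat_lit 0, nat_lit 0, nat_lit 0, nat_lit 18845418261676, nat_lit 8, nat_lit 898600, nat_lit 0, nat_lit 0, [(nat_lit 6, [(nat_lit 5, nat_lit 169), (nat_lit 6, nat_lit 831)])],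
 ⟨p036_k10, nat_lit 0, nat_lit 0, nat_lit 0, nat_lit 0, nat_lit 334731, [nat_lit 684789600, nat_lit 1053911201, nat_lit 477188001, nat_lit 6058800], [], [nat_lit 13922099490, nat_lit 14025533573, nat_lit 13935469726, nat_lit 14034440733, nat_lit 15589653958, nat_lit 15688522657, nat_lit 15562838508, nat_lit 15657614509], nat_lit 1271250, nat_lit 1271250, nat_lit 157850, nat_lit 490000, nat_lit 1271250, nat_lit 1271250, [nat_lit 631250, nat_lit 936250, nat_lit 1271250, nat_lit 1271250], [nat_lit 209, nat_lit 10, nat_lit 4, nat_lit 20]⟩, C1.Rw.none,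
 ⟨nat_lit 5916, nat_lit 5959, ⟨.ofNat (nat_lit 219413), .ofNat (nat_lit 321983), .ofNat (nat_lit 224748), .ofNat (nat_lit 327318), .ofNat (nat_lit 220987), .ofNat (nat_lit 323081), .ofNat (nat_lit 226322), .ofNat (nat_lit 328416)⟩, ⟨.ofNat (nat_lit 307937), .ofNat (nat_lit 386838), .ofNat (nat_lit 329277), .ofNat (nat_lit 408178), .ofNat (nat_lit 307945), .ofNat (nat_lit 386479), .ofNat (nat_lit 329284), .ofNat (nat_lit 407818)⟩⟩, [⟨nat_lit 0, nat_lit 100, nat_lit 100, nat_lit 60, nat_lit 114578179⟩, ⟨nat_lit 4, nat_lit 100, nat_lit 99, nat_lit 54, nat_lit 293738776⟩]⟩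
noncomputable def p036_l27 : Lf2 := ⟨nat_lit 0, nat_lit 5, [nat_lit 4, nat_lit 5, nat_lit 5, nat_lit 20], true, nat_lit 200, nat_lit 240, nat_lit 0, nat_lit 280, ⟨nat_lit 0, nat_lit 0, nat_lit 1000, nat_lit 6, nat_lit 105, nat_lit 1000, nat_lit 143, nat_lit 1000, nat_lit 194400, nat_lit 323, nat_lit 104017, nat_lit 294, nat_lit 54169799, nat_lit 0, nat_lit 0, nat_lit 3274821, false, false⟩,
 nat_lit 0, nat_lit 5797, nat_lit 0, nat_lit 0, nat_lit 3220, nat_lit 0, nat_lit 480, nat_lit 0, nat_lit 0, nat_lit 0, nat_lit 0, nat_lit 0, nat_lit 0, nat_lit 6385193567904, nat_lit 41, nat_lit 400000, nat_lit 0, nat_lit 0, [(nat_lit 6, [(nat_lit 5, nat_lit 1000)])],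
 ⟨p036_k11, nat_lit 0, nat_lit 0, nat_lit 0, nat_lit 0, nat_lit 251843, [nat_lit 1296000001, nat_lit 1436800001, nat_lit 1225600000, nat_lit 480800001, nat_lit 7600000], [], [nat_lit 13481734002, nat_lit 14000168242, nat_lit 13318084562, nat_lit 13818866081, nat_lit 15180104481, nat_lit 15693496801, nat_lit 15001302001, nat_lit 15493103921], nat_lit 1271250, nat_lit 1271250, nat_lit 134400, nat_lit 490000, nat_lit 1271250, nat_lit 1271250, [nat_lit 631250, nat_lit 936250, nat_lit 1271250, nat_lit 1271250, nat_lit 1271250], [nat_lit 226, nat_lit 10, nat_lit 4, nat_lit 20]⟩, C1.Rw.none,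
 ⟨nat_lit 5916, nat_lit 6124, ⟨.ofNat (nat_lit 199694), .ofNat (nat_lit 312227), .ofNat (nat_lit 205031), .ofNat (nat_lit 317564), .ofNat (nat_lit 207799), .ofNat (nat_lit 317746), .ofNat (nat_lit 213134), .ofNat (nat_lit 323081)⟩, ⟨.ofNat (nat_lit 307865), .ofNat (nat_lit 388246), .ofNat (nat_lit 329214), .ofNat (nat_lit 409594), .ofNat (nat_lit 307945), .ofNat (nat_lit 386479), .ofNat (nat_lit 329284), .ofNat (nat_lit 407818)⟩⟩, [⟨nat_lit 0, nat_lit 100, nat_lit 100, nat_lit 54, nat_lit 130975937⟩, ⟨nat_lit 16, nat_lit 100, nat_lit 100, nat_lit 55, nat_lit 281535183⟩]⟩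
noncomputable def p036_l28 : Lf2 := ⟨nat_lit 0, nat_lit 5, [nat_lit 4, nat_lit 5, nat_lit 5, nat_lit 20], true, nat_lit 200, nat_lit 240, nat_lit 0, nat_lit 272, ⟨nat_lit 0, nat_lit 0, nat_lit 1000, nat_lit 6, nat_lit 109, nat_lit 1000, nat_lit 143, nat_lit 1000, nat_lit 190817, nat_lit 322, nat_lit 109350, nat_lit 296, nat_lit 53903609, nat_lit 0, nat_lit 0, nat_lit 3327440, false, false⟩,
 nat_lit 0, nat_lit 5720, nat_lit 0, nat_lit 0, nat_lit 3253, nat_lit 0, nat_lit 418, nat_lit 0, nat_lit 0, nat_lit 0, nat_lit 0, nat_lit 0, nat_lit 0, nat_lit 7396295971567, nat_lit 41, nat_lit 400000, nat_lit 0, nat_lit 0, [(nat_lit 6, [(nat_lit 5, nat_lit 1000)])],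
 ⟨p036_k12, nat_lit 0, nat_lit 0, nat_lit 0, nat_lit 0, nat_lit 249637, [nat_lit 1296000001, nat_lit 1436800001, nat_lit 1225600000, nat_lit 480800001, nat_lit 7600000], [], [nat_lit 13647495764, nat_lit 13807979445, nat_lit 13490693448, nat_lit 13644112465, nat_lit 15325759173, nat_lit 15480204558, nat_lit 15183795705, nat_lit 15331895988], nat_lit 1271250, nat_lit 1271250, nat_lit 157850, nat_lit 490000, nat_lit 1271250, nat_lit 1271250, [nat_lit 631250, nat_lit 936250, nat_lit 1271250, nat_lit 1271250, nat_lit 1271250], [nat_lit 226, nat_lit 10, nat_lit 4, nat_lit 20]⟩, C1.Rw.none,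
 ⟨nat_lit 5958, nat_lit 6021, ⟨.ofNat (nat_lit 217043), .ofNat (nat_lit 320331), .ofNat (nat_lit 220244), .ofNat (nat_lit 323533), .ofNat (nat_lit 219413), .ofNat (nat_lit 321983), .ofNat (nat_lit 222614), .ofNat (nat_lit 325184)⟩, ⟨.ofNat (nat_lit 307918), .ofNat (nat_lit 387371), .ofNat (nat_lit 329260), .ofNat (nat_lit 408713), .ofNat (nat_lit 307937), .ofNat (nat_lit 386838), .ofNat (nat_lit 329277), .ofNat (nat_lit 408178)⟩⟩, [⟨nat_lit 0, nat_lit 100, nat_lit 100, nat_lit 58, nat_lit 130036946⟩, ⟨nat_lit 4, nat_lit 100, nat_lit 99, nat_lit 55, nat_lit 288185429⟩]⟩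
noncomputable def p036_l29 : Lf2 := ⟨nat_lit 0, nat_lit 5, [nat_lit 4, nat_lit 5, nat_lit 5, nat_lit 20], true, nat_lit 200, nat_lit 240, nat_lit 0, nat_lit 272, ⟨nat_lit 0, nat_lit 0, nat_lit 1000, nat_lit 6, nat_lit 110, nat_lit 1000, nat_lit 143, nat_lit 1000, nat_lit 190817, nat_lit 322, nat_lit 112067, nat_lit 297, nat_lit 53830403, nat_lit 0, nat_lit 0, nat_lit 3341931, false, false⟩,
 nat_lit 0, nat_lit 5624, nat_lit 0, nat_lit 0, nat_lit 3243, nat_lit 0, nat_lit 380, nat_lit 0, nat_lit 0, nat_lit 0, nat_lit 0, nat_lit 0, nat_lit 0, nat_lit 20207619397096, nat_lit 41, nat_lit 400000, nat_lit 0, nat_lit 0, [(nat_lit 6, [(nat_lit 5, nat_lit 1000)])],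
 ⟨p036_k13, nat_lit 0, nat_lit 0, nat_lit 0, nat_lit 0, nat_lit 264199, [nat_lit 1296000001, nat_lit 1436800001, nat_lit 1225600000, nat_lit 480800001, nat_lit 7600000], [], [nat_lit 13848366465, nat_lit 13955229184, nat_lit 13666588566, nat_lit 13771749753, nat_lit 15500151001, nat_lit 15598760737, nat_lit 15350940700, nat_lit 15449561149], nat_lit 1271250, nat_lit 1271250, nat_lit 157850, nat_lit 490000, nat_lit 1271250, nat_lit 1271250, [nat_lit 631250, nat_lit 936250, nat_lit 1271250, nat_lit 1271250, nat_lit 1271250], [nat_lit 226, nat_lit 10, nat_lit 4, nat_lit 20]⟩, C1.Rw.none,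
 ⟨nat_lit 5916, nat_lit 5959, ⟨.ofNat (nat_lit 219413), .ofNat (nat_lit 321983), .ofNat (nat_lit 224748), .ofNat (nat_lit 327318), .ofNat (nat_lit 220987), .ofNat (nat_lit 323081), .ofNat (nat_lit 226322), .ofNat (nat_lit 328416)⟩, ⟨.ofNat (nat_lit 307937), .ofNat (nat_lit 386838), .ofNat (nat_lit 329277), .ofNat (nat_lit 408178), .ofNat (nat_lit 307945), .ofNat (nat_lit 386479), .ofNat (nat_lit 329284), .ofNat (nat_lit 407818)⟩⟩, [⟨nat_lit 0, nat_lit 100, nat_lit 100, nat_lit 60, nat_lit 129781153⟩, ⟨nat_lit 4, nat_lit 100, nat_lit 99, nat_lit 54, nat_lit 289111714⟩]⟩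
noncomputable def p036_l30 : Lf2 := ⟨nat_lit 0, nat_lit 5, [nat_lit 4, nat_lit 5, nat_lit 5, nat_lit 20], true, nat_lit 200, nat_lit 240, nat_lit 0, nat_lit 280, ⟨nat_lit 0, nat_lit 0, nat_lit 1000, nat_lit 6, nat_lit 106, nat_lit 1000, nat_lit 143, nat_lit 1000, nat_lit 194400, nat_lit 323, nat_lit 104017, nat_lit 294, nat_lit 54092277, nat_lit 0, nat_lit 0, nat_lit 3290231, false, false⟩,
 nat_lit 0, nat_lit 497822, nat_lit 0, nat_lit 0, nat_lit 276567, nat_lit 0, nat_lit 60000, nat_lit 16857, nat_lit 0, nat_lit 0, nat_lit 0, nat_lit 0, nat_lit 0, nat_lit 0, nat_lit 0, nat_lit 1000000, nat_lit 0, nat_lit 0, [(nat_lit 6, [(nat_lit 6, nat_lit 1000)])],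
 ⟨p036_k7, nat_lit 0, nat_lit 0, nat_lit 246, nat_lit 0, nat_lit 365315, [nat_lit 270689066667, nat_lit 336948000001, nat_lit 402859199999], [], [nat_lit 134280697383, nat_lit 148493375533, nat_lit 27903988075, nat_lit 41092320718, nat_lit 156530570925, nat_lit 168760040688, nat_lit 48687415261, nat_lit 61950640994], nat_lit 1271250, nat_lit 1271250, nat_lit 134400, nat_lit 490000, nat_lit 1271250, nat_lit 1271250, [nat_lit 1100000, nat_lit 1442500, nat_lit 1271250], [nat_lit 9, nat_lit 40, nat_lit 20, nat_lit 80, nat_lit 2, nat_lit 317, nat_lit 100, nat_lit 10]⟩, C1.Rw.none,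
 ⟨nat_lit 5916, nat_lit 6124, ⟨.ofNat (nat_lit 199694), .ofNat (nat_lit 312227), .ofNat (nat_lit 210368), .ofNat (nat_lit 322901), .ofNat (nat_lit 207799), .ofNat (nat_lit 317746), .ofNat (nat_lit 218469), .ofNat (nat_lit 328416)⟩, ⟨.ofNat (nat_lit 307865), .ofNat (nat_lit 388246), .ofNat (nat_lit 329214), .ofNat (nat_lit 409594), .ofNat (nat_lit 307945), .ofNat (nat_lit 386479), .ofNat (nat_lit 329284), .ofNat (nat_lit 407818)⟩⟩, [⟨nat_lit 0, nat_lit 100, nat_lit 100, nat_lit 60, nat_lit 9649873865⟩, ⟨nat_lit 16, nat_lit 100, nat_lit 100, nat_lit 55, nat_lit 9837035288⟩, ⟨nat_lit 4, nat_lit 100, nat_lit 100, nat_lit 55, nat_lit 10000000000⟩]⟩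
noncomputable def b_VL_600_600_5_39 : St := ⟨true, nat_lit 1, nat_lit 1, nat_lit 1, nat_lit 40, nat_lit 250, nat_lit 260, nat_lit 250, nat_lit 260, nat_lit 20, nat_lit 80, nat_lit 20, nat_lit 40, nat_lit 200, nat_lit 240, nat_lit 0, nat_lit 288, nat_lit 0, nat_lit 20, nat_lit 0, nat_lit 0, nat_lit 0, nat_lit 0⟩
theorem d_VL_600_600_5_39 (h : EB TB.env) : Dead b_VL_600_600_5_39 := chkB_sound0 h (T :=
(.trZ (nat_lit 0) (nat_lit 100) (nat_lit 100) (nat_lit 50) (nat_lit 24) (.trX (nat_lit 19) (nat_lit 100) (nat_lit 95) (nat_lit 62) (nat_lit 280) (.spl (nat_lit 7) (nat_lit 600)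
(.spl (nat_lit 6) (nat_lit 8)
(.spl (nat_lit 1) (nat_lit 255)
(.leaf p036_l24)
(.ord (.trZ (nat_lit 0) (nat_lit 100) (nat_lit 100) (nat_lit 55) (nat_lit 28) (.trX (nat_lit 19) (nat_lit 100) (nat_lit 97) (nat_lit 62) (nat_lit 272) (.spl (nat_lit 0) (nat_lit 258)
(.ord (.leaf p036_l25))
(.leaf p036_l26))))))
(.spl (nat_lit 1) (nat_lit 255)
(.leaf p036_l27)
(.ord (.trZ (nat_lit 0) (nat_lit 100) (nat_lit 100) (nat_lit 55) (nat_lit 28) (.trX (nat_lit 19) (nat_lit 100) (nat_lit 97) (nat_lit 62) (nat_lit 272) (.spl (nat_lit 0) (nat_lit 258)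
(.ord (.leaf p036_l28))
(.leaf p036_l29)))))))
(.leaf p036_l30))))) (by decide +kernel)
noncomputable def p036_l31 : Lf2 := ⟨nat_lit 0, nat_lit 10, [nat_lit 0, nat_lit 5, nat_lit 5, nat_lit 20], true, nat_lit 160, nat_lit 200, nat_lit 0, nat_lit 288, ⟨nat_lit 0, nat_lit 0, nat_lit 1000, nat_lit 6, nat_lit 102, nat_lit 1000, nat_lit 112, nat_lit 1000, nat_lit 117600, nat_lit 299, nat_lit 98817, nat_lit 292, nat_lit 57019734, nat_lit 0, nat_lit 0, nat_lit 2780634, false, false⟩,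
 nat_lit 0, nat_lit 8486, nat_lit 0, nat_lit 0, nat_lit 4714, nat_lit 0, nat_lit 668, nat_lit 0, nat_lit 0, nat_lit 0, nat_lit 0, nat_lit 0, nat_lit 0, nat_lit 22953344083562, nat_lit 69, nat_lit 400000, nat_lit 0, nat_lit 0, [(nat_lit 6, [(nat_lit 5, nat_lit 1000)])],
 ⟨p036_k14, nat_lit 0, nat_lit 0, nat_lit 188, nat_lit 0, nat_lit 176297, [nat_lit 2521600001, nat_lit 1460000001, nat_lit 7200000], [], [nat_lit 11444482244, nat_lit 12063452472, nat_lit 10739134598, nat_lit 11124584250, nat_lit 12916168408, nat_lit 13487389896, nat_lit 13852044889, nat_lit 12677332588], nat_lit 1271250, nat_lit 1271250, nat_lit 111251, nat_lit 490000, nat_lit 1100001, nat_lit 1442500, [nat_lit 1100000, nat_lit 1442500, nat_lit 1271250], [nat_lit 11, nat_lit 40, nat_lit 20, nat_lit 80, nat_lit 1, nat_lit 373, nat_lit 150, nat_lit 11]⟩, C1.Rw.none,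
 ⟨nat_lit 5916, nat_lit 6124, ⟨.ofNat (nat_lit 180982), .ofNat (nat_lit 301553), .ofNat (nat_lit 202330), .ofNat (nat_lit 322901), .ofNat (nat_lit 189276), .ofNat (nat_lit 307076), .ofNat (nat_lit 210615), .ofNat (nat_lit 328416)⟩, ⟨.ofNat (nat_lit 227485), .ofNat (nat_lit 307865), .ofNat (nat_lit 248833), .ofNat (nat_lit 329214), .ofNat (nat_lit 229411), .ofNat (nat_lit 307945), .ofNat (nat_lit 250751), .ofNat (nat_lit 329284)⟩⟩, [⟨nat_lit 0, nat_lit 100, nat_lit 100, nat_lit 60, nat_lit 158188589⟩]⟩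
noncomputable def p036_l32 : Lf2 := ⟨nat_lit 0, nat_lit 10, [nat_lit 0, nat_lit 5, nat_lit 5, nat_lit 20], false, nat_lit 160, nat_lit 200, nat_lit 0, nat_lit 288, ⟨nat_lit 554, nat_lit 0, nat_lit 446, nat_lit 6, nat_lit 142, nat_lit 446, nat_lit 112, nat_lit 446, nat_lit 117600, nat_lit 299, nat_lit 187267, nat_lit 321, nat_lit 53799705, nat_lit 0, nat_lit 0, nat_lit 3352043, false, false⟩,
 nat_lit 7312, nat_lit 5032, nat_lit 0, nat_lit 0, nat_lit 6857, nat_lit 3870, nat_lit 0, nat_lit 0, nat_lit 0, nat_lit 77, nat_lit 0, nat_lit 0, nat_lit 0, nat_lit 0, nat_lit 0, nat_lit 178400, nat_lit 0, nat_lit 0, [(nat_lit 6, [(nat_lit 5, nat_lit 446)])],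
 ⟨p036_k14, nat_lit 0, nat_lit 0, nat_lit 158, nat_lit 0, nat_lit 176297, [nat_lit 3229401600, nat_lit 3498180001, nat_lit 4594007200], [], [nat_lit 7994395213, nat_lit 8969577726, nat_lit 8185780632, nat_lit 9107983460, nat_lit 10295876971, nat_lit 11187080649, nat_lit 10365754513, nat_lit 11208808349], nat_lit 1271250, nat_lit 1271250, nat_lit 490000, nat_lit 780000, nat_lit 1100001, nat_lit 1442500, [nat_lit 1100000, nat_lit 1442500, nat_lit 1271250], [nat_lit 11, nat_lit 40, nat_lit 20, nat_lit 80, nat_lit 1, nat_lit 373, nat_lit 150, nat_lit 10]⟩, ⟨p036_k15, nat_lit 0, nat_lit 0, nat_lit 366, nat_lit 0, nat_lit 186733, [nat_lit 2597152000, nat_lit 3462500000, nat_lit 6577088000], [], [nat_lit 27192819568, nat_lit 25114869508, nat_lit 23036919448, nat_lit 20990703388, nat_lit 21229322872, nat_lit 19461917954, nat_lit 22818985928, nat_lit 21070872873], nat_lit 1271250, nat_lit 1271250, nat_lit 490000, nat_lit 780000,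 nat_lit 0, nat_lit 2034000, [nat_lit 1100000, nat_lit 1442500, nat_lit 1271250], [nat_lit 48, nat_lit 40, nat_lit 20, nat_lit 80, nat_lit 12, nat_lit 401, nat_lit 175, nat_lit 11]⟩,
 ⟨nat_lit 5916, nat_lit 6124, ⟨.ofNat (nat_lit 301553), .ofNat (nat_lit 381933), .ofNat (nat_lit 322901), .ofNat (nat_lit 403281), .ofNat (nat_lit 307076), .ofNat (nat_lit 385610), .ofNat (nat_lit 328416), .ofNat (nat_lit 406949)⟩, ⟨.ofNat (nat_lit 227485), .ofNat (nat_lit 307865), .ofNat (nat_lit 248833), .ofNat (nat_lit 329214), .ofNat (nat_lit 229411), .ofNat (nat_lit 307945), .ofNat (nat_lit 250751), .ofNat (nat_lit 329284)⟩⟩, []⟩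
noncomputable def p036_l33 : Lf2 := ⟨nat_lit 0, nat_lit 10, [nat_lit 0, nat_lit 5, nat_lit 5, nat_lit 20], true, nat_lit 200, nat_lit 240, nat_lit 0, nat_lit 288, ⟨nat_lit 0, nat_lit 0, nat_lit 1000, nat_lit 6, nat_lit 100, nat_lit 1000, nat_lit 143, nat_lit 1000, nat_lit 194400, nat_lit 323, nat_lit 93750, nat_lit 290, nat_lit 54513948, nat_lit 0, nat_lit 0, nat_lit 3205032, false, false⟩,
 nat_lit 0, nat_lit 7946, nat_lit 0, nat_lit 0, nat_lit 4414, nat_lit 0, nat_lit 468, nat_lit 0, nat_lit 0, nat_lit 0, nat_lit 0, nat_lit 0, nat_lit 0, nat_lit 0, nat_lit 75, nat_lit 442600, nat_lit 0, nat_lit 0, [(nat_lit 6, [(nat_lit 5, nat_lit 929), (nat_lit 6, nat_lit 71)])],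
 ⟨p036_k14, nat_lit 0, nat_lit 0, nat_lit 166, nat_lit 0, nat_lit 125723, [nat_lit 2586322134, nat_lit 1581590401, nat_lit 20136000], [], [nat_lit 13604342868, nat_lit 14139866696, nat_lit 12737628928, nat_lit 13281106105, nat_lit 15034591172, nat_lit 15558859783, nat_lit 14244532841, nat_lit 14744055027], nat_lit 1271250, nat_lit 1271250, nat_lit 111251, nat_lit 490000, nat_lit 1271250, nat_lit 1271250, [nat_lit 1100000, nat_lit 1442500, nat_lit 1271250], [nat_lit 11, nat_lit 40, nat_lit 20, nat_lit 80, nat_lit 1, nat_lit 373, nat_lit 150, nat_lit 10]⟩, C1.Rw.none,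
 ⟨nat_lit 5916, nat_lit 6124, ⟨.ofNat (nat_lit 180982), .ofNat (nat_lit 301553), .ofNat (nat_lit 191656), .ofNat (nat_lit 312227), .ofNat (nat_lit 189276), .ofNat (nat_lit 307076), .ofNat (nat_lit 199946), .ofNat (nat_lit 317746)⟩, ⟨.ofNat (nat_lit 307865), .ofNat (nat_lit 388246), .ofNat (nat_lit 329214), .ofNat (nat_lit 409594), .ofNat (nat_lit 307945), .ofNat (nat_lit 386479), .ofNat (nat_lit 329284), .ofNat (nat_lit 407818)⟩⟩, [⟨nat_lit 0, nat_lit 100, nat_lit 99, nat_lit 55, nat_lit 180055530⟩, ⟨nat_lit 4, nat_lit 100, nat_lit 100, nat_lit 55, nat_lit 220625564⟩]⟩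
noncomputable def p036_l34 : Lf2 := ⟨nat_lit 0, nat_lit 10, [nat_lit 0, nat_lit 5, nat_lit 5, nat_lit 20], true, nat_lit 200, nat_lit 240, nat_lit 0, nat_lit 280, ⟨nat_lit 0, nat_lit 0, nat_lit 1000, nat_lit 6, nat_lit 104, nat_lit 1000, nat_lit 143, nat_lit 1000, nat_lit 194400, nat_lit 323, nat_lit 101400, nat_lit 293, nat_lit 54200723, nat_lit 0, nat_lit 0, nat_lit 3268643, false, false⟩,
 nat_lit 0, nat_lit 8532, nat_lit 0, nat_lit 0, nat_lit 4740, nat_lit 0, nat_lit 322, nat_lit 0, nat_lit 0, nat_lit 0, nat_lit 0, nat_lit 0, nat_lit 0, nat_lit 0, nat_lit 78, nat_lit 470200, nat_lit 0, nat_lit 0, [(nat_lit 6, [(nat_lit 5, nat_lit 883), (nat_lit 6, nat_lit 117)])],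
 ⟨p036_k16, nat_lit 0, nat_lit 0, nat_lit 174, nat_lit 0, nat_lit 140628, [nat_lit 2679218801, nat_lit 801750401, nat_lit 3672000], [], [nat_lit 13540350279, nat_lit 14111750981, nat_lit 12579613182, nat_lit 13092924642, nat_lit 15012598505, nat_lit 15536188912, nat_lit 13964844702, nat_lit 14516785962], nat_lit 1271250, nat_lit 1271250, nat_lit 134400, nat_lit 490000, nat_lit 1271250, nat_lit 1271250, [nat_lit 1100000, nat_lit 1785000, nat_lit 1271250], [nat_lit 29, nat_lit 40, nat_lit 20, nat_lit 80, nat_lit 17, nat_lit 373, nat_lit 150, nat_lit 10]⟩, C1.Rw.none,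
 ⟨nat_lit 5916, nat_lit 6124, ⟨.ofNat (nat_lit 199694), .ofNat (nat_lit 312227), .ofNat (nat_lit 202896), .ofNat (nat_lit 315429), .ofNat (nat_lit 207799), .ofNat (nat_lit 317746), .ofNat (nat_lit 211000), .ofNat (nat_lit 320947)⟩, ⟨.ofNat (nat_lit 307865), .ofNat (nat_lit 388246), .ofNat (nat_lit 329214), .ofNat (nat_lit 409594), .ofNat (nat_lit 307945), .ofNat (nat_lit 386479), .ofNat (nat_lit 329284), .ofNat (nat_lit 407818)⟩⟩, [⟨nat_lit 0, nat_lit 100, nat_lit 99, nat_lit 56, nat_lit 205171720⟩, ⟨nat_lit 4, nat_lit 100, nat_lit 100, nat_lit 55, nat_lit 230547924⟩]⟩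
noncomputable def p036_l35 : Lf2 := ⟨nat_lit 0, nat_lit 10, [nat_lit 0, nat_lit 5, nat_lit 5, nat_lit 20], true, nat_lit 200, nat_lit 240, nat_lit 0, nat_lit 276, ⟨nat_lit 0, nat_lit 0, nat_lit 1000, nat_lit 6, nat_lit 107, nat_lit 1000, nat_lit 143, nat_lit 1000, nat_lit 190817, nat_lit 322, nat_lit 109350, nat_lit 296, nat_lit 53982149, nat_lit 0, nat_lit 0, nat_lit 3312112, false, false⟩,
 nat_lit 0, nat_lit 8426, nat_lit 0, nat_lit 0, nat_lit 4747, nat_lit 0, nat_lit 374, nat_lit 0, nat_lit 0, nat_lit 0, nat_lit 0, nat_lit 0, nat_lit 0, nat_lit 0, nat_lit 69, nat_lit 400000, nat_lit 0, nat_lit 0, [(nat_lit 6, [(nat_lit 5, nat_lit 1000)])],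
 ⟨p036_k17, nat_lit 0, nat_lit 0, nat_lit 173, nat_lit 0, nat_lit 148130, [nat_lit 2521600001, nat_lit 679600001, nat_lit 7200000], [], [nat_lit 13531475186, nat_lit 13930860950, nat_lit 12667183880, nat_lit 13026730384, nat_lit 14988577944, nat_lit 15355112051, nat_lit 14086615689, nat_lit 14475577160], nat_lit 1271250, nat_lit 1271250, nat_lit 157850, nat_lit 490000, nat_lit 1271250, nat_lit 1271250, [nat_lit 1100000, nat_lit 1785000, nat_lit 1271250], [nat_lit 29, nat_lit 40, nat_lit 20, nat_lit 80, nat_lit 17, nat_lit 373, nat_lit 150, nat_lit 10]⟩, C1.Rw.none,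
 ⟨nat_lit 5916, nat_lit 6063, ⟨.ofNat (nat_lit 213322), .ofNat (nat_lit 317092), .ofNat (nat_lit 215457), .ofNat (nat_lit 319227), .ofNat (nat_lit 218853), .ofNat (nat_lit 320947), .ofNat (nat_lit 220987), .ofNat (nat_lit 323081)⟩, ⟨.ofNat (nat_lit 307900), .ofNat (nat_lit 387723), .ofNat (nat_lit 329244), .ofNat (nat_lit 409067), .ofNat (nat_lit 307945), .ofNat (nat_lit 386479), .ofNat (nat_lit 329284), .ofNat (nat_lit 407818)⟩⟩, [⟨nat_lit 0, nat_lit 100, nat_lit 99, nat_lit 57, nat_lit 200611430⟩, ⟨nat_lit 4, nat_lit 100, nat_lit 99, nat_lit 55, nat_lit 233441732⟩]⟩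
noncomputable def p036_l36 : Lf2 := ⟨nat_lit 0, nat_lit 6, [nat_lit 47, nat_lit 5, nat_lit 5, nat_lit 20], true, nat_lit 200, nat_lit 240, nat_lit 0, nat_lit 272, ⟨nat_lit 0, nat_lit 0, nat_lit 1000, nat_lit 6, nat_lit 92, nat_lit 1000, nat_lit 143, nat_lit 1000, nat_lit 190817, nat_lit 322, nat_lit 79350, nat_lit 284, nat_lit 55056323, nat_lit 0, nat_lit 0, nat_lit 3090388, false, false⟩,
 nat_lit 0, nat_lit 8336, nat_lit 0, nat_lit 0, nat_lit 4741, nat_lit 0, nat_lit 383, nat_lit 0, nat_lit 0, nat_lit 0, nat_lit 0, nat_lit 0, nat_lit 0, nat_lit 23385284641313, nat_lit 69, nat_lit 400000, nat_lit 0, nat_lit 0, [(nat_lit 6, [(nat_lit 5, nat_lit 1000)])],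
 ⟨p036_k18, nat_lit 0, nat_lit 0, nat_lit 165, nat_lit 0, nat_lit 135561, [nat_lit 2521600001, nat_lit 679600001, nat_lit 7200000], [], [nat_lit 13557796862, nat_lit 13671842578, nat_lit 13138735785, nat_lit 13252045887, nat_lit 15004937686, nat_lit 15109447340, nat_lit 14585371657, nat_lit 14700882879], nat_lit 1271250, nat_lit 1271250, nat_lit 157850, nat_lit 230001, nat_lit 1271250, nat_lit 1271250, [nat_lit 1100000, nat_lit 1785000, nat_lit 1271250], [nat_lit 29, nat_lit 40, nat_lit 20, nat_lit 80, nat_lit 17, nat_lit 373, nat_lit 150, nat_lit 10]⟩, C1.Rw.none,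
 ⟨nat_lit 5979, nat_lit 6021, ⟨.ofNat (nat_lit 217043), .ofNat (nat_lit 240879), .ofNat (nat_lit 219177), .ofNat (nat_lit 243013), .ofNat (nat_lit 218624), .ofNat (nat_lit 242349), .ofNat (nat_lit 220758), .ofNat (nat_lit 244483)⟩, ⟨.ofNat (nat_lit 307918), .ofNat (nat_lit 387371), .ofNat (nat_lit 329260), .ofNat (nat_lit 408713), .ofNat (nat_lit 307932), .ofNat (nat_lit 387016), .ofNat (nat_lit 329273), .ofNat (nat_lit 408357)⟩⟩, [⟨nat_lit 0, nat_lit 100, nat_lit 100, nat_lit 57, nat_lit 283110894⟩, ⟨nat_lit 4, nat_lit 100, nat_lit 100, nat_lit 55, nat_lit 230876998⟩]⟩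
noncomputable def p036_l37 : Lf2 := ⟨nat_lit 0, nat_lit 6, [nat_lit 47, nat_lit 5, nat_lit 5, nat_lit 20], true, nat_lit 200, nat_lit 240, nat_lit 0, nat_lit 272, ⟨nat_lit 0, nat_lit 0, nat_lit 1000, nat_lit 6, nat_lit 93, nat_lit 1000, nat_lit 143, nat_lit 1000, nat_lit 190817, nat_lit 322, nat_lit 81667, nat_lit 285, nat_lit 55014635, nat_lit 0, nat_lit 0, nat_lit 3099716, false, false⟩,
 nat_lit 0, nat_lit 8252, nat_lit 0, nat_lit 0, nat_lit 4737, nat_lit 0, nat_lit 367, nat_lit 0, nat_lit 0, nat_lit 0, nat_lit 0, nat_lit 0, nat_lit 0, nat_lit 22800209912450, nat_lit 69, nat_lit 400000, nat_lit 0, nat_lit 0, [(nat_lit 6, [(nat_lit 5, nat_lit 1000)])],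
 ⟨p036_k19, nat_lit 0, nat_lit 0, nat_lit 170, nat_lit 0, nat_lit 143581, [nat_lit 2521600001, nat_lit 679600001, nat_lit 7200000], [], [nat_lit 13697333256, nat_lit 13754334612, nat_lit 13278047928, nat_lit 13334681652, nat_lit 15134666289, nat_lit 15188749301, nat_lit 14711647859, nat_lit 14765698507], nat_lit 1271250, nat_lit 1271250, nat_lit 157850, nat_lit 230001, nat_lit 1271250, nat_lit 1271250, [nat_lit 1100000, nat_lit 1785000, nat_lit 1271250], [nat_lit 29, nat_lit 40, nat_lit 20, nat_lit 80, nat_lit 17, nat_lit 373, nat_lit 150, nat_lit 10]⟩, C1.Rw.none,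
 ⟨nat_lit 5958, nat_lit 5980, ⟨.ofNat (nat_lit 218624), .ofNat (nat_lit 242349), .ofNat (nat_lit 221825), .ofNat (nat_lit 245550), .ofNat (nat_lit 219413), .ofNat (nat_lit 243083), .ofNat (nat_lit 222614), .ofNat (nat_lit 246284)⟩, ⟨.ofNat (nat_lit 307932), .ofNat (nat_lit 387016), .ofNat (nat_lit 329273), .ofNat (nat_lit 408357), .ofNat (nat_lit 307937), .ofNat (nat_lit 386838), .ofNat (nat_lit 329277), .ofNat (nat_lit 408178)⟩⟩, [⟨nat_lit 0, nat_lit 100, nat_lit 100, nat_lit 58, nat_lit 289172773⟩, ⟨nat_lit 16, nat_lit 99, nat_lit 100, nat_lit 55, nat_lit 232337408⟩]⟩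
noncomputable def p036_l38 : Lf2 := ⟨nat_lit 0, nat_lit 6, [nat_lit 47, nat_lit 5, nat_lit 5, nat_lit 20], true, nat_lit 200, nat_lit 240, nat_lit 0, nat_lit 272, ⟨nat_lit 0, nat_lit 0, nat_lit 1000, nat_lit 6, nat_lit 94, nat_lit 1000, nat_lit 143, nat_lit 1000, nat_lit 190817, nat_lit 322, nat_lit 81667, nat_lit 285, nat_lit 54958184, nat_lit 0, nat_lit 0, nat_lit 3112179, false, false⟩,
 nat_lit 0, nat_lit 9098, nat_lit 0, nat_lit 0, nat_lit 5247, nat_lit 0, nat_lit 0, nat_lit 0, nat_lit 0, nat_lit 0, nat_lit 0, nat_lit 0, nat_lit 0, nat_lit 23664038373394, nat_lit 39, nat_lit 365650, nat_lit 0, nat_lit 0, [(nat_lit 6, [(nat_lit 4, nat_lit 229), (nat_lit 5, nat_lit 771)])],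
 ⟨p036_k20, nat_lit 0, nat_lit 0, nat_lit 159, nat_lit 0, nat_lit 161490, [nat_lit 2370627201, nat_lit 13460800], [], [nat_lit 13735053690, nat_lit 13868912851, nat_lit 13289051122, nat_lit 13400787572, nat_lit 15423432637, nat_lit 15545583400, nat_lit 14950344595, nat_lit 15071661644], nat_lit 1271250, nat_lit 1271250, nat_lit 157850, nat_lit 230001, nat_lit 1271250, nat_lit 1271250, [nat_lit 1100000, nat_lit 1785000], [nat_lit 39, nat_lit 40, nat_lit 20, nat_lit 80, nat_lit 7, nat_lit 289, nat_lit 75, nat_lit 9]⟩, C1.Rw.none,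
 ⟨nat_lit 5916, nat_lit 5959, ⟨.ofNat (nat_lit 219413), .ofNat (nat_lit 243083), .ofNat (nat_lit 224748), .ofNat (nat_lit 248418), .ofNat (nat_lit 220987), .ofNat (nat_lit 244547), .ofNat (nat_lit 226322), .ofNat (nat_lit 249882)⟩, ⟨.ofNat (nat_lit 307937), .ofNat (nat_lit 386838), .ofNat (nat_lit 329277), .ofNat (nat_lit 408178), .ofNat (nat_lit 307945), .ofNat (nat_lit 386479), .ofNat (nat_lit 329284), .ofNat (nat_lit 407818)⟩⟩, [⟨nat_lit 0, nat_lit 100, nat_lit 100, nat_lit 60, nat_lit 309566812⟩, ⟨nat_lit 4, nat_lit 100, nat_lit 99, nat_lit 54, nat_lit 295626308⟩]⟩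
noncomputable def p036_l39 : Lf2 := ⟨nat_lit 0, nat_lit 8, [nat_lit 50, nat_lit 5, nat_lit 5, nat_lit 20], true, nat_lit 200, nat_lit 240, nat_lit 0, nat_lit 272, ⟨nat_lit 0, nat_lit 0, nat_lit 1000, nat_lit 6, nat_lit 93, nat_lit 1000, nat_lit 143, nat_lit 1000, nat_lit 190817, nat_lit 322, nat_lit 81667, nat_lit 285, nat_lit 55014814, nat_lit 0, nat_lit 0, nat_lit 3099683, false, false⟩,
 nat_lit 0, nat_lit 8258, nat_lit 0, nat_lit 0, nat_lit 4696, nat_lit 0, nat_lit 371, nat_lit 0, nat_lit 0, nat_lit 0, nat_lit 0, nat_lit 0, nat_lit 0, nat_lit 2792908052794, nat_lit 69, nat_lit 400000, nat_lit 0, nat_lit 0, [(nat_lit 6, [(nat_lit 5, nat_lit 1000)])],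
 ⟨p036_k21, nat_lit 0, nat_lit 0, nat_lit 163, nat_lit 0, nat_lit 128173, [nat_lit 2521600001, nat_lit 679600001, nat_lit 7200000], [], [nat_lit 13631251546, nat_lit 13915156401, nat_lit 13222747963, nat_lit 13500014984, nat_lit 15075266863, nat_lit 15335502930, nat_lit 14658132340, nat_lit 14917969068], nat_lit 1271250, nat_lit 1271250, nat_lit 157850, nat_lit 230001, nat_lit 1271250, nat_lit 1271250, [nat_lit 1100000, nat_lit 1785000, nat_lit 1271250], [nat_lit 29, nat_lit 40, nat_lit 20, nat_lit 80, nat_lit 17, nat_lit 373, nat_lit 150, nat_lit 10]⟩, C1.Rw.none,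
 ⟨nat_lit 5916, nat_lit 6021, ⟨.ofNat (nat_lit 217043), .ofNat (nat_lit 240879), .ofNat (nat_lit 220244), .ofNat (nat_lit 244080), .ofNat (nat_lit 220987), .ofNat (nat_lit 244547), .ofNat (nat_lit 224188), .ofNat (nat_lit 247748)⟩, ⟨.ofNat (nat_lit 307918), .ofNat (nat_lit 387371), .ofNat (nat_lit 329260), .ofNat (nat_lit 408713), .ofNat (nat_lit 307945), .ofNat (nat_lit 386479), .ofNat (nat_lit 329284), .ofNat (nat_lit 407818)⟩⟩, [⟨nat_lit 0, nat_lit 100, nat_lit 100, nat_lit 59, nat_lit 285819755⟩, ⟨nat_lit 16, nat_lit 99, nat_lit 100, nat_lit 55, nat_lit 232068917⟩]⟩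
noncomputable def p036_l40 : Lf2 := ⟨nat_lit 0, nat_lit 8, [nat_lit 50, nat_lit 5, nat_lit 5, nat_lit 20], true, nat_lit 200, nat_lit 240, nat_lit 0, nat_lit 272, ⟨nat_lit 0, nat_lit 0, nat_lit 1000, nat_lit 6, nat_lit 96, nat_lit 1000, nat_lit 143, nat_lit 1000, nat_lit 190817, nat_lit 322, nat_lit 86400, nat_lit 287, nat_lit 54803847, nat_lit 0, nat_lit 0, nat_lit 3145114, false, false⟩,
 nat_lit 0, nat_lit 8055, nat_lit 0, nat_lit 0, nat_lit 4645, nat_lit 0, nat_lit 371, nat_lit 0, nat_lit 0, nat_lit 0, nat_lit 0, nat_lit 0, nat_lit 0, nat_lit 3836061297385, nat_lit 69, nat_lit 400000, nat_lit 0, nat_lit 0, [(nat_lit 6, [(nat_lit 5, nat_lit 1000)])],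
 ⟨p036_k22, nat_lit 0, nat_lit 0, nat_lit 162, nat_lit 0, nat_lit 135687, [nat_lit 2521600001, nat_lit 679600001, nat_lit 7200000], [], [nat_lit 13611638146, nat_lit 13724409385, nat_lit 13375859209, nat_lit 13481630862, nat_lit 15036790214, nat_lit 15140198729, nat_lit 14768342650, nat_lit 14865460897], nat_lit 1271250, nat_lit 1271250, nat_lit 181601, nat_lit 230001, nat_lit 1271250, nat_lit 1271250, [nat_lit 1100000, nat_lit 1785000, nat_lit 1271250], [nat_lit 29, nat_lit 40, nat_lit 20, nat_lit 80, nat_lit 17, nat_lit 373, nat_lit 150, nat_lit 10]⟩, C1.Rw.none,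
 ⟨nat_lit 5916, nat_lit 5959, ⟨.ofNat (nat_lit 230504), .ofNat (nat_lit 246284), .ofNat (nat_lit 232638), .ofNat (nat_lit 248418), .ofNat (nat_lit 232041), .ofNat (nat_lit 247748), .ofNat (nat_lit 234175), .ofNat (nat_lit 249882)⟩, ⟨.ofNat (nat_lit 307937), .ofNat (nat_lit 386838), .ofNat (nat_lit 329277), .ofNat (nat_lit 408178), .ofNat (nat_lit 307945), .ofNat (nat_lit 386479), .ofNat (nat_lit 329284), .ofNat (nat_lit 407818)⟩⟩, [⟨nat_lit 0, nat_lit 100, nat_lit 100, nat_lit 60, nat_lit 284698204⟩, ⟨nat_lit 4, nat_lit 100, nat_lit 99, nat_lit 54, nat_lit 228442828⟩]⟩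
noncomputable def p036_l41 : Lf2 := ⟨nat_lit 0, nat_lit 8, [nat_lit 50, nat_lit 5, nat_lit 5, nat_lit 20], true, nat_lit 200, nat_lit 240, nat_lit 0, nat_lit 272, ⟨nat_lit 0, nat_lit 0, nat_lit 1000, nat_lit 6, nat_lit 105, nat_lit 1000, nat_lit 143, nat_lit 1000, nat_lit 190817, nat_lit 322, nat_lit 104017, nat_lit 294, nat_lit 54135018, nat_lit 0, nat_lit 0, nat_lit 3281937, false, false⟩,
 nat_lit 0, nat_lit 8043, nat_lit 0, nat_lit 0, nat_lit 4574, nat_lit 0, nat_lit 517, nat_lit 0, nat_lit 0, nat_lit 0, nat_lit 0, nat_lit 0, nat_lit 0, nat_lit 0, nat_lit 69, nat_lit 400000, nat_lit 0, nat_lit 0, [(nat_lit 6, [(nat_lit 5, nat_lit 1000)])],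
 ⟨p036_k23, nat_lit 0, nat_lit 0, nat_lit 154, nat_lit 0, nat_lit 149984, [nat_lit 2521600001, nat_lit 1460000001, nat_lit 7200000], [], [nat_lit 13026247937, nat_lit 13193541833, nat_lit 12700979492, nat_lit 12840820509, nat_lit 14457947210, nat_lit 14611439160, nat_lit 14182732049, nat_lit 14338057999], nat_lit 1271250, nat_lit 1271250, nat_lit 230001, nat_lit 356250, nat_lit 1271250, nat_lit 1271250, [nat_lit 1100000, nat_lit 1442500, nat_lit 1271250], [nat_lit 11, nat_lit 40, nat_lit 20, nat_lit 80, nat_lit 1, nat_lit 373, nat_lit 150, nat_lit 10]⟩, C1.Rw.none,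
 ⟨nat_lit 5958, nat_lit 6021, ⟨.ofNat (nat_lit 240879), .ofNat (nat_lit 280605), .ofNat (nat_lit 244080), .ofNat (nat_lit 283806), .ofNat (nat_lit 243083), .ofNat (nat_lit 282533), .ofNat (nat_lit 246284), .ofNat (nat_lit 285734)⟩, ⟨.ofNat (nat_lit 307918), .ofNat (nat_lit 387371), .ofNat (nat_lit 329260), .ofNat (nat_lit 408713), .ofNat (nat_lit 307937), .ofNat (nat_lit 386838), .ofNat (nat_lit 329277), .ofNat (nat_lit 408178)⟩⟩, [⟨nat_lit 4, nat_lit 100, nat_lit 99, nat_lit 55, nat_lit 229829034⟩]⟩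
noncomputable def p036_l42 : Lf2 := ⟨nat_lit 0, nat_lit 8, [nat_lit 50, nat_lit 5, nat_lit 5, nat_lit 20], true, nat_lit 200, nat_lit 240, nat_lit 0, nat_lit 272, ⟨nat_lit 0, nat_lit 0, nat_lit 1000, nat_lit 6, nat_lit 106, nat_lit 1000, nat_lit 143, nat_lit 1000, nat_lit 190817, nat_lit 322, nat_lit 106667, nat_lit 295, nat_lit 54061422, nat_lit 0, nat_lit 0, nat_lit 3296846, false, false⟩,
 nat_lit 0, nat_lit 8281, nat_lit 0, nat_lit 0, nat_lit 4775, nat_lit 0, nat_lit 370, nat_lit 0, nat_lit 0, nat_lit 0, nat_lit 0, nat_lit 0, nat_lit 0, nat_lit 0, nat_lit 69, nat_lit 400000, nat_lit 0, nat_lit 0, [(nat_lit 6, [(nat_lit 5, nat_lit 1000)])],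
 ⟨p036_k22, nat_lit 0, nat_lit 0, nat_lit 167, nat_lit 0, nat_lit 166763, [nat_lit 2521600001, nat_lit 679600001, nat_lit 7200000], [], [nat_lit 13276357058, nat_lit 13390029725, nat_lit 12851541575, nat_lit 12956725327, nat_lit 14707792761, nat_lit 14814524252, nat_lit 14413972688, nat_lit 14527806652], nat_lit 1271250, nat_lit 1271250, nat_lit 230001, nat_lit 356250, nat_lit 1271250, nat_lit 1271250, [nat_lit 1100000, nat_lit 1785000, nat_lit 1271250], [nat_lit 29, nat_lit 40, nat_lit 20, nat_lit 80, nat_lit 17, nat_lit 373, nat_lit 150, nat_lit 10]⟩, C1.Rw.none,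
 ⟨nat_lit 5916, nat_lit 5959, ⟨.ofNat (nat_lit 243083), .ofNat (nat_lit 282533), .ofNat (nat_lit 248418), .ofNat (nat_lit 287868), .ofNat (nat_lit 244547), .ofNat (nat_lit 283814), .ofNat (nat_lit 249882), .ofNat (nat_lit 289149)⟩, ⟨.ofNat (nat_lit 307937), .ofNat (nat_lit 386838), .ofNat (nat_lit 329277), .ofNat (nat_lit 408178), .ofNat (nat_lit 307945), .ofNat (nat_lit 386479), .ofNat (nat_lit 329284), .ofNat (nat_lit 407818)⟩⟩, [⟨nat_lit 4, nat_lit 100, nat_lit 99, nat_lit 54, nat_lit 237349682⟩]⟩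
noncomputable def p036_l43 : Lf2 := ⟨nat_lit 0, nat_lit 10, [nat_lit 0, nat_lit 5, nat_lit 5, nat_lit 20], true, nat_lit 200, nat_lit 240, nat_lit 0, nat_lit 272, ⟨nat_lit 0, nat_lit 0, nat_lit 1000, nat_lit 6, nat_lit 101, nat_lit 1000, nat_lit 143, nat_lit 1000, nat_lit 190817, nat_lit 322, nat_lit 96267, nat_lit 291, nat_lit 54429245, nat_lit 0, nat_lit 0, nat_lit 3222790, false, false⟩,
 nat_lit 0, nat_lit 8378, nat_lit 0, nat_lit 0, nat_lit 4765, nat_lit 0, nat_lit 361, nat_lit 0, nat_lit 0, nat_lit 0, nat_lit 0, nat_lit 0, nat_lit 0, nat_lit 24435907635471, nat_lit 69, nat_lit 400000, nat_lit 0, nat_lit 0, [(nat_lit 6, [(nat_lit 5, nat_lit 1000)])],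
 ⟨p036_k24, nat_lit 0, nat_lit 0, nat_lit 154, nat_lit 0, nat_lit 81680, [nat_lit 2521600001, nat_lit 679600001, nat_lit 7200000], [], [nat_lit 13648551031, nat_lit 13934310351, nat_lit 12815859519, nat_lit 13078577772, nat_lit 15097358792, nat_lit 15361095428, nat_lit 14226997185, nat_lit 14483263940], nat_lit 1271250, nat_lit 1271250, nat_lit 157850, nat_lit 356250, nat_lit 1271250, nat_lit 1271250, [nat_lit 1100000, nat_lit 1785000, nat_lit 1271250], [nat_lit 29, nat_lit 40, nat_lit 20, nat_lit 80, nat_lit 17, nat_lit 373, nat_lit 150, nat_lit 10]⟩, C1.Rw.none,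
 ⟨nat_lit 5916, nat_lit 6021, ⟨.ofNat (nat_lit 217043), .ofNat (nat_lit 280605), .ofNat (nat_lit 222378), .ofNat (nat_lit 285941), .ofNat (nat_lit 220987), .ofNat (nat_lit 283814), .ofNat (nat_lit 226322), .ofNat (nat_lit 289149)⟩, ⟨.ofNat (nat_lit 307918), .ofNat (nat_lit 387371), .ofNat (nat_lit 329260), .ofNat (nat_lit 408713), .ofNat (nat_lit 307945), .ofNat (nat_lit 386479), .ofNat (nat_lit 329284), .ofNat (nat_lit 407818)⟩⟩, [⟨nat_lit 0, nat_lit 100, nat_lit 100, nat_lit 60, nat_lit 250230002⟩, ⟨nat_lit 4, nat_lit 100, nat_lit 99, nat_lit 55, nat_lit 229455846⟩]⟩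
noncomputable def p036_l44 : Lf2 := ⟨nat_lit 0, nat_lit 10, [nat_lit 0, nat_lit 5, nat_lit 5, nat_lit 20], true, nat_lit 200, nat_lit 240, nat_lit 0, nat_lit 272, ⟨nat_lit 0, nat_lit 0, nat_lit 1000, nat_lit 6, nat_lit 122, nat_lit 1000, nat_lit 143, nat_lit 1000, nat_lit 190817, nat_lit 322, nat_lit 138017, nat_lit 306, nat_lit 52905148, nat_lit 0, nat_lit 0, nat_lit 3513155, false, false⟩,
 nat_lit 0, nat_lit 8808, nat_lit 0, nat_lit 0, nat_lit 5009, nat_lit 0, nat_lit 393, nat_lit 0, nat_lit 0, nat_lit 0, nat_lit 0, nat_lit 0, nat_lit 0, nat_lit 31196294513367, nat_lit 66, nat_lit 377200, nat_lit 0, nat_lit 0, [(nat_lit 6, [(nat_lit 4, nat_lit 152), (nat_lit 5, nat_lit 848)])],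
 ⟨p036_k24, nat_lit 0, nat_lit 0, nat_lit 149, nat_lit 0, nat_lit 171444, [nat_lit 2691993601, nat_lit 643350400, nat_lit 6192000], [], [nat_lit 12579489099, nat_lit 12848090863, nat_lit 12424923900, nat_lit 12687851230, nat_lit 14008314661, nat_lit 14270038964, nat_lit 13806974655, nat_lit 14048012808], nat_lit 1271250, nat_lit 1271250, nat_lit 356250, nat_lit 490000, nat_lit 1271250, nat_lit 1271250, [nat_lit 1100000, nat_lit 1785000, nat_lit 1271250], [nat_lit 29, nat_lit 40, nat_lit 20, nat_lit 80, nat_lit 17, nat_lit 373, nat_lit 150, nat_lit 10]⟩, C1.Rw.none,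
 ⟨nat_lit 5916, nat_lit 6021, ⟨.ofNat (nat_lit 280605), .ofNat (nat_lit 320331), .ofNat (nat_lit 285941), .ofNat (nat_lit 325667), .ofNat (nat_lit 283814), .ofNat (nat_lit 323081), .ofNat (nat_lit 289149), .ofNat (nat_lit 328416)⟩, ⟨.ofNat (nat_lit 307918), .ofNat (nat_lit 387371), .ofNat (nat_lit 329260), .ofNat (nat_lit 408713), .ofNat (nat_lit 307945), .ofNat (nat_lit 386479), .ofNat (nat_lit 329284), .ofNat (nat_lit 407818)⟩⟩, [⟨nat_lit 4, nat_lit 100, nat_lit 99, nat_lit 55, nat_lit 233084532⟩]⟩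
noncomputable def p036_l45 : Lf2 := ⟨nat_lit 0, nat_lit 10, [nat_lit 0, nat_lit 5, nat_lit 5, nat_lit 20], false, nat_lit 200, nat_lit 240, nat_lit 0, nat_lit 288, ⟨nat_lit 0, nat_lit 0, nat_lit 1000, nat_lit 6, nat_lit 142, nat_lit 1000, nat_lit 143, nat_lit 1000, nat_lit 194400, nat_lit 323, nat_lit 187267, nat_lit 321, nat_lit 51323067, nat_lit 0, nat_lit 0, nat_lit 3775505, false, false⟩,
 nat_lit 0, nat_lit 8495, nat_lit 0, nat_lit 0, nat_lit 4719, nat_lit 0, nat_lit 0, nat_lit 0, nat_lit 0, nat_lit 0, nat_lit 0, nat_lit 0, nat_lit 0, nat_lit 29170376870964, nat_lit 69, nat_lit 400000, nat_lit 0, nat_lit 0, [(nat_lit 6, [(nat_lit 5, nat_lit 1000)])],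
 ⟨p036_k14, nat_lit 0, nat_lit 0, nat_lit 138, nat_lit 0, nat_lit 176297, [nat_lit 2521600001, nat_lit 1460000001, nat_lit 7200000], [], [nat_lit 11367368275, nat_lit 12089134384, nat_lit 11709400389, nat_lit 12395002284, nat_lit 13335968777, nat_lit 13995474925, nat_lit 13585058832, nat_lit 14211949947], nat_lit 1271250, nat_lit 1271250, nat_lit 490000, nat_lit 780000, nat_lit 1271250, nat_lit 1271250, [nat_lit 1100000, nat_lit 1442500, nat_lit 1271250], [nat_lit 11, nat_lit 40, nat_lit 20, nat_lit 80, nat_lit 1, nat_lit 401, nat_lit 175, nat_lit 11]⟩, ⟨p036_k15, nat_lit 0, nat_lit 0, nat_lit 366, nat_lit 0, nat_lit 186733, [nat_lit 0, nat_lit 0, nat_lit 0], [], [nat_lit 0, nat_lit 0, nat_lit 0, nat_lit 0, nat_lit 0, nat_lit 0, nat_lit 0, nat_lit 0], nat_lit 1271250, nat_lit 1271250, nat_lit 490000, nat_lit 780000, nat_lit 0, nat_lit 2034000, [nat_lit 1100000, nat_lit 1442500, nat_lit 1271250], [nat_lit 48, nat_lit 40,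 nat_lit 20, nat_lit 80, nat_lit 12, nat_lit 401, nat_lit 175, nat_lit 11]⟩,
 ⟨nat_lit 5916, nat_lit 6124, ⟨.ofNat (nat_lit 301553), .ofNat (nat_lit 381933), .ofNat (nat_lit 322901), .ofNat (nat_lit 403281), .ofNat (nat_lit 307076), .ofNat (nat_lit 385610), .ofNat (nat_lit 328416), .ofNat (nat_lit 406949)⟩, ⟨.ofNat (nat_lit 307865), .ofNat (nat_lit 388246), .ofNat (nat_lit 329214), .ofNat (nat_lit 409594), .ofNat (nat_lit 307945), .ofNat (nat_lit 386479), .ofNat (nat_lit 329284), .ofNat (nat_lit 407818)⟩⟩, [⟨nat_lit 4, nat_lit 100, nat_lit 100, nat_lit 55, nat_lit 340082782⟩]⟩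
noncomputable def b_VL_600_600_5_40 : St := ⟨true, nat_lit 1, nat_lit 1, nat_lit 1, nat_lit 40, nat_lit 250, nat_lit 260, nat_lit 240, nat_lit 260, nat_lit 20, nat_lit 120, nat_lit 20, nat_lit 40, nat_lit 160, nat_lit 240, nat_lit 0, nat_lit 288, nat_lit 20, nat_lit 40, nat_lit 0, nat_lit 0, nat_lit 0, nat_lit 0⟩
theorem d_VL_600_600_5_40 (h : EB TB.env) : Dead b_VL_600_600_5_40 := chkB_sound0 h (T :=
(.spl (nat_lit 4) (nat_lit 200)
(.spl (nat_lit 2) (nat_lit 80)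
(.leaf p036_l31)
(.leaf p036_l32))
(.spl (nat_lit 2) (nat_lit 80)
(.spl (nat_lit 1) (nat_lit 250)
(.leaf p036_l33)
(.trZ (nat_lit 0) (nat_lit 100) (nat_lit 100) (nat_lit 50) (nat_lit 24) (.trX (nat_lit 19) (nat_lit 100) (nat_lit 95) (nat_lit 62) (nat_lit 280) (.spl (nat_lit 1) (nat_lit 255)
(.spl (nat_lit 1) (nat_lit 253)
(.leaf p036_l34)
(.ord (.trZ (nat_lit 0) (nat_lit 100) (nat_lit 100) (nat_lit 53) (nat_lit 28) (.trX (nat_lit 19) (nat_lit 100) (nat_lit 96) (nat_lit 62) (nat_lit 276) (.leaf p036_l35)))))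
(.ord (.trZ (nat_lit 0) (nat_lit 100) (nat_lit 100) (nat_lit 55) (nat_lit 28) (.trX (nat_lit 19) (nat_lit 100) (nat_lit 97) (nat_lit 62) (nat_lit 272) (.spl (nat_lit 2) (nat_lit 60)
(.spl (nat_lit 6) (nat_lit 32)
(.spl (nat_lit 2) (nat_lit 40)
(.spl (nat_lit 6) (nat_lit 24)
(.spl (nat_lit 0) (nat_lit 258)
(.ord (.spl (nat_lit 0) (nat_lit 257)
(.ord (.leaf p036_l36))
(.leaf p036_l37)))
(.leaf p036_l38))
(.spl (nat_lit 1) (nat_lit 258)
(.leaf p036_l39)
(.ord (.trZ (nat_lit 0) (nat_lit 100) (nat_lit 100) (nat_lit 58) (nat_lit 32) (.leaf p036_l40)))))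
(.spl (nat_lit 0) (nat_lit 258)
(.ord (.leaf p036_l41))
(.leaf p036_l42)))
(.leaf p036_l43))
(.leaf p036_l44)))))))))
(.leaf p036_l45)))) (by decide +kernel)
noncomputable def p036_l46 : Lf2 := ⟨nat_lit 0, nat_lit 10, [nat_lit 0, nat_lit 5, nat_lit 5, nat_lit 20], false, nat_lit 160, nat_lit 200, nat_lit 0, nat_lit 160, ⟨nat_lit 1000, nat_lit 0, nat_lit 0, nat_lit 0, nat_lit 0, nat_lit 0, nat_lit 0, nat_lit 0, nat_lit 0, nat_lit 0, nat_lit 0, nat_lit 0, nat_lit 0, nat_lit 0, nat_lit 0, nat_lit 0, false, false⟩,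
 nat_lit 26550, nat_lit 0, nat_lit 0, nat_lit 0, nat_lit 14055, nat_lit 6624, nat_lit 3399, nat_lit 0, nat_lit 0, nat_lit 67, nat_lit 0, nat_lit 0, nat_lit 0, nat_lit 15523093852870, nat_lit 0, nat_lit 0, nat_lit 0, nat_lit 0, [],
 ⟨p036_k15, nat_lit 0, nat_lit 0, nat_lit 334, nat_lit 0, nat_lit 415503, [nat_lit 4688000000, nat_lit 6250000000, nat_lit 11872000000], [], [nat_lit 7092309240, nat_lit 6452927275, nat_lit 12355950000, nat_lit 6048111035, nat_lit 13810064080, nat_lit 7789247075, nat_lit 19269462880, nat_lit 12460447855], nat_lit 1271250, nat_lit 1271250, nat_lit 780000, nat_lit 1100001, nat_lit 1100001, nat_lit 1442500, [nat_lit 1100000, nat_lit 1442500, nat_lit 1271250], [nat_lit 48, nat_lit 40, nat_lit 20, nat_lit 80, nat_lit 12, nat_lit 401, nat_lit 175, nat_lit 10]⟩, ⟨p036_k15, nat_lit 0, nat_lit 0, nat_lit 489, nat_lit 0, nat_lit 415503, [nat_lit 4688000000, nat_lit 6250000000, nat_lit 11872000000], [],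 [nat_lit 41031928160, nat_lit 37529567648, nat_lit 35462158525, nat_lit 36292387357, nat_lit 32531199040, nat_lit 32872899117, nat_lit 36047412448, nat_lit 32967901600], nat_lit 1271250, nat_lit 1271250, nat_lit 780000, nat_lit 1100001, nat_lit 0, nat_lit 1100001, [nat_lit 1100000, nat_lit 1442500, nat_lit 1271250], [nat_lit 48, nat_lit 40, nat_lit 20, nat_lit 80, nat_lit 12, nat_lit 373, nat_lit 150, nat_lit 10]⟩,
 zbF0, []⟩
noncomputable def p036_l47 : Lf2 := ⟨nat_lit 0, nat_lit 10, [nat_lit 0, nat_lit 5, nat_lit 5, nat_lit 20], false, nat_lit 160, nat_lit 200, nat_lit 160, nat_lit 288, ⟨nat_lit 1000, nat_lit 0, nat_lit 0, nat_lit 0, nat_lit 0, nat_lit 0, nat_lit 0, nat_lit 0, nat_lit 0, nat_lit 0, nat_lit 0, nat_lit 0, nat_lit 0, nat_lit 0, nat_lit 0, nat_lit 0, false, false⟩,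
 nat_lit 40088, nat_lit 0, nat_lit 0, nat_lit 0, nat_lit 21223, nat_lit 21223, nat_lit 2996, nat_lit 0, nat_lit 0, nat_lit 3705, nat_lit 0, nat_lit 0, nat_lit 0, nat_lit 0, nat_lit 0, nat_lit 0, nat_lit 0, nat_lit 2770815145, [],
 ⟨p036_k15, nat_lit 0, nat_lit 0, nat_lit 334, nat_lit 0, nat_lit 415503, [nat_lit 4688000000, nat_lit 6250000000, nat_lit 11872000000], [], [nat_lit 625737980, nat_lit 3030701790, nat_lit 1790318000, nat_lit 1955190126, nat_lit 3940129488, nat_lit 4528731670, nat_lit 11531004768, nat_lit 5037765913], nat_lit 1271250, nat_lit 1271250, nat_lit 780000, nat_lit 1100001, nat_lit 1100001, nat_lit 1442500, [nat_lit 1100000, nat_lit 1442500, nat_lit 1271250], [nat_lit 48, nat_lit 40, nat_lit 20, nat_lit 80, nat_lit 12, nat_lit 401, nat_lit 175, nat_lit 10]⟩, ⟨p036_k15, nat_lit 0, nat_lit 0, nat_lit 334, nat_lit 0, nat_lit 415503, [nat_lit 4688000000, nat_lit 6250000000, nat_lit 11872000000], [], [nat_lit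 0, nat_lit 2404963810, nat_lit 4561133145, nat_lit 3353256251, nat_lit 28189735640, nat_lit 22283235461, nat_lit 36411154739, nat_lit 26435996682], nat_lit 1271250, nat_lit 1271250, nat_lit 780000, nat_lit 1100001, nat_lit 1100001, nat_lit 2196000, [nat_lit 1100000, nat_lit 1442500, nat_lit 1271250], [nat_lit 48, nat_lit 40, nat_lit 20, nat_lit 80, nat_lit 12, nat_lit 428, nat_lit 200, nat_lit 11]⟩,
 zbF0, [⟨nat_lit 7, nat_lit 99, nat_lit 100, nat_lit 54, nat_lit 2404210609⟩]⟩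
noncomputable def p036_l48 : Lf2 := ⟨nat_lit 0, nat_lit 10, [nat_lit 0, nat_lit 5, nat_lit 5, nat_lit 20], false, nat_lit 200, nat_lit 240, nat_lit 0, nat_lit 288, ⟨nat_lit 0, nat_lit 0, nat_lit 1000, nat_lit 6, nat_lit 170, nat_lit 1000, nat_lit 144, nat_lit 1000, nat_lit 194400, nat_lit 323, nat_lit 86400, nat_lit 287, nat_lit 48948960, nat_lit 0, nat_lit 0, nat_lit 4108057, false, false⟩,
 nat_lit 9359, nat_lit 0, nat_lit 0, nat_lit 0, nat_lit 4954, nat_lit 2, nat_lit 257, nat_lit 0, nat_lit 0, nat_lit 0, nat_lit 0, nat_lit 0, nat_lit 0, nat_lit 31422485306106, nat_lit 166, nat_lit 1000000, nat_lit 0, nat_lit 176228, [(nat_lit 6, [(nat_lit 6, nat_lit 1000)])],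
 ⟨p036_k15, nat_lit 0, nat_lit 0, nat_lit 207, nat_lit 0, nat_lit 306108, [nat_lit 3633066667, nat_lit 3172240001, nat_lit 348400000], [], [nat_lit 12154448092, nat_lit 12128307991, nat_lit 14907573532, nat_lit 13707578497, nat_lit 12868207479, nat_lit 13300459658, nat_lit 13458617176, nat_lit 14171301868], nat_lit 1271250, nat_lit 1271250, nat_lit 780000, nat_lit 1100001, nat_lit 1271250, nat_lit 1271250, [nat_lit 1100000, nat_lit 1442500, nat_lit 1271250], [nat_lit 48, nat_lit 40, nat_lit 20, nat_lit 80, nat_lit 12, nat_lit 401, nat_lit 175, nat_lit 10]⟩, ⟨p036_k15, nat_lit 0, nat_lit 0, nat_lit 387, nat_lit 0, nat_lit 306108, [nat_lit 0, nat_lit 0, nat_lit 0], [], [nat_lit 5371660, nat_lit 4834722, nat_lit 3223908, nat_lit 2695170, nat_lit 136574, nat_lit 266464, nat_lit 0, nat_lit 118007], nat_lit 1271250, nat_lit 1271250, nat_lit 780000, nat_lit 1100001, nat_lit 0, nat_lit 2034000, [nat_lit 1100000, nat_lit 1442500,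 nat_lit 1271250], [nat_lit 48, nat_lit 40, nat_lit 20, nat_lit 80, nat_lit 12, nat_lit 401, nat_lit 175, nat_lit 10]⟩,
 ⟨nat_lit 6123, nat_lit 6325, ⟨.ofNat (nat_lit 378206), .ofNat (nat_lit 460470), .ofNat (nat_lit 388890), .ofNat (nat_lit 471154), .ofNat (nat_lit 381933), .ofNat (nat_lit 462314), .ofNat (nat_lit 392607), .ofNat (nat_lit 472988)⟩, ⟨.ofNat (nat_lit 307688), .ofNat (nat_lit 389952), .ofNat (nat_lit 329055), .ofNat (nat_lit 411320), .ofNat (nat_lit 307865), .ofNat (nat_lit 388246), .ofNat (nat_lit 329214), .ofNat (nat_lit 409594)⟩⟩, []⟩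
noncomputable def p036_l49 : Lf2 := ⟨nat_lit 0, nat_lit 10, [nat_lit 0, nat_lit 5, nat_lit 5, nat_lit 20], false, nat_lit 200, nat_lit 240, nat_lit 0, nat_lit 288, ⟨nat_lit 0, nat_lit 0, nat_lit 1000, nat_lit 6, nat_lit 174, nat_lit 1000, nat_lit 143, nat_lit 1000, nat_lit 194400, nat_lit 323, nat_lit 58974, nat_lit 274, nat_lit 48701003, nat_lit 0, nat_lit 0, nat_lit 4138174, false, false⟩,
 nat_lit 0, nat_lit 8217, nat_lit 0, nat_lit 0, nat_lit 4565, nat_lit 0, nat_lit 499, nat_lit 0, nat_lit 0, nat_lit 0, nat_lit 0, nat_lit 0, nat_lit 0, nat_lit 24304773107578, nat_lit 147, nat_lit 1000000, nat_lit 0, nat_lit 0, [(nat_lit 6, [(nat_lit 6, nat_lit 1000)])],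
 ⟨p036_k14, nat_lit 0, nat_lit 0, nat_lit 205, nat_lit 0, nat_lit 392282, [nat_lit 3329066667, nat_lit 3042400001, nat_lit 177599999], [], [nat_lit 12298237896, nat_lit 12822246283, nat_lit 14532550671, nat_lit 13513590568, nat_lit 13742388608, nat_lit 14223907128, nat_lit 14383369074, nat_lit 15012885600], nat_lit 1271250, nat_lit 1271250, nat_lit 780000, nat_lit 1100001, nat_lit 1271250, nat_lit 1271250, [nat_lit 1100000, nat_lit 1442500, nat_lit 1271250], [nat_lit 11, nat_lit 40, nat_lit 20, nat_lit 80, nat_lit 1, nat_lit 401, nat_lit 175, nat_lit 11]⟩, ⟨p036_k15, nat_lit 0, nat_lit 0, nat_lit 489, nat_lit 0, nat_lit 415503, [nat_lit 0, nat_lit 0, nat_lit 0], [], [nat_lit 0, nat_lit 0, nat_lit 0, nat_lit 0, nat_lit 0, nat_lit 0, nat_lit 0, nat_lit 0], nat_lit 1271250, nat_lit 1271250, nat_lit 780000, nat_lit 1100001, nat_lit 0, nat_lit 2034000, [nat_lit 1100000, nat_lit 1442500, nat_lit 1271250], [nat_lit 48, nat_lit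 40, nat_lit 20, nat_lit 80, nat_lit 12, nat_lit 428, nat_lit 200, nat_lit 11]⟩,
 ⟨nat_lit 5916, nat_lit 6124, ⟨.ofNat (nat_lit 381933), .ofNat (nat_lit 462314), .ofNat (nat_lit 403281), .ofNat (nat_lit 483662), .ofNat (nat_lit 385610), .ofNat (nat_lit 464143), .ofNat (nat_lit 406949), .ofNat (nat_lit 485483)⟩, ⟨.ofNat (nat_lit 307865), .ofNat (nat_lit 388246), .ofNat (nat_lit 329214), .ofNat (nat_lit 409594), .ofNat (nat_lit 307945), .ofNat (nat_lit 386479), .ofNat (nat_lit 329284), .ofNat (nat_lit 407818)⟩⟩, [⟨nat_lit 16, nat_lit 100, nat_lit 100, nat_lit 55, nat_lit 225370645⟩]⟩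
noncomputable def b_VL_600_600_5_41 : St := ⟨true, nat_lit 1, nat_lit 1, nat_lit 1, nat_lit 40, nat_lit 240, nat_lit 260, nat_lit 240, nat_lit 260, nat_lit 120, nat_lit 160, nat_lit 20, nat_lit 40, nat_lit 160, nat_lit 240, nat_lit 0, nat_lit 288, nat_lit 0, nat_lit 40, nat_lit 0, nat_lit 0, nat_lit 0, nat_lit 0⟩
theorem d_VL_600_600_5_41 (h : EB TB.env) : Dead b_VL_600_600_5_41 := chkB_sound0 h (T :=
(.spl (nat_lit 4) (nat_lit 200)
(.spl (nat_lit 5) (nat_lit 160)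
(.leaf p036_l46)
(.leaf p036_l47))
(.spl (nat_lit 0) (nat_lit 250)
(.ord (.leaf p036_l48))
(.leaf p036_l49)))) (by decide +kernel)
noncomputable def p036_l50 : Lf2 := ⟨nat_lit 0, nat_lit 2, [nat_lit 10, nat_lit 5, nat_lit 5, nat_lit 20], true, nat_lit 160, nat_lit 200, nat_lit 0, nat_lit 288, ⟨nat_lit 0, nat_lit 0, nat_lit 1000, nat_lit 6, nat_lit 104, nat_lit 1000, nat_lit 112, nat_lit 1000, nat_lit 117600, nat_lit 299, nat_lit 101400, nat_lit 293, nat_lit 56826140, nat_lit 0, nat_lit 0, nat_lit 2819354, false, false⟩,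
 nat_lit 0, nat_lit 7626, nat_lit 0, nat_lit 0, nat_lit 4438, nat_lit 0, nat_lit 0, nat_lit 0, nat_lit 0, nat_lit 0, nat_lit 0, nat_lit 0, nat_lit 0, nat_lit 0, nat_lit 37, nat_lit 1000000, nat_lit 0, nat_lit 0, [(nat_lit 9, [(nat_lit 6, nat_lit 1000)])],
 ⟨p036_k25, nat_lit 0, nat_lit 0, nat_lit 193, nat_lit 0, nat_lit 335940, [nat_lit 1689600001, nat_lit 0], [], [nat_lit 11816533785, nat_lit 12485613217, nat_lit 11269049330, nat_lit 11904454666, nat_lit 13477346981, nat_lit 14095183111, nat_lit 12860677632, nat_lit 13447969665], nat_lit 1271250, nat_lit 1271250, nat_lit 134400, nat_lit 490000, nat_lit 1100001, nat_lit 1442500, [nat_lit 1100000, nat_lit 1442500], [nat_lit 31, nat_lit 40, nat_lit 20, nat_lit 80, nat_lit 3, nat_lit 289, nat_lit 75, nat_lit 11]⟩, C1.Rw.none,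
 ⟨nat_lit 5700, nat_lit 5917, ⟨.ofNat (nat_lit 197129), .ofNat (nat_lit 307076), .ofNat (nat_lit 207799), .ofNat (nat_lit 317746), .ofNat (nat_lit 205119), .ofNat (nat_lit 312525), .ofNat (nat_lit 215790), .ofNat (nat_lit 323196)⟩, ⟨.ofNat (nat_lit 229411), .ofNat (nat_lit 307945), .ofNat (nat_lit 250751), .ofNat (nat_lit 329284), .ofNat (nat_lit 231202), .ofNat (nat_lit 307921), .ofNat (nat_lit 252544), .ofNat (nat_lit 329263)⟩⟩, [⟨nat_lit 0, nat_lit 100, nat_lit 97, nat_lit 59, nat_lit 169670499⟩]⟩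
noncomputable def p036_l51 : Lf2 := ⟨nat_lit 0, nat_lit 5, [nat_lit 4, nat_lit 5, nat_lit 5, nat_lit 20], true, nat_lit 160, nat_lit 200, nat_lit 0, nat_lit 288, ⟨nat_lit 0, nat_lit 0, nat_lit 1000, nat_lit 6, nat_lit 104, nat_lit 1000, nat_lit 112, nat_lit 1000, nat_lit 117600, nat_lit 299, nat_lit 101400, nat_lit 293, nat_lit 56826140, nat_lit 0, nat_lit 0, nat_lit 2819354, false, false⟩,
 nat_lit 0, nat_lit 7626, nat_lit 0, nat_lit 0, nat_lit 4438, nat_lit 0, nat_lit 0, nat_lit 0, nat_lit 0, nat_lit 0, nat_lit 0, nat_lit 0, nat_lit 0, nat_lit 0, nat_lit 117, nat_lit 1000000, nat_lit 0, nat_lit 0, [(nat_lit 9, [(nat_lit 6, nat_lit 1000)])],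
 ⟨p036_k26, nat_lit 0, nat_lit 0, nat_lit 188, nat_lit 0, nat_lit 266258, [nat_lit 2969600000, nat_lit 1600000000, nat_lit 226400000], [], [nat_lit 11816533783, nat_lit 12485613215, nat_lit 11269049328, nat_lit 11904454664, nat_lit 13477346979, nat_lit 14095183109, nat_lit 12860677630, nat_lit 13447969663], nat_lit 1271250, nat_lit 1271250, nat_lit 134400, nat_lit 490000, nat_lit 1100001, nat_lit 1442500, [nat_lit 1100000, nat_lit 1442500, nat_lit 1271250], [nat_lit 9, nat_lit 40, nat_lit 20, nat_lit 80, nat_lit 2, nat_lit 289, nat_lit 75, nat_lit 9]⟩, C1.Rw.none,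
 ⟨nat_lit 5700, nat_lit 5917, ⟨.ofNat (nat_lit 197129), .ofNat (nat_lit 307076), .ofNat (nat_lit 207799), .ofNat (nat_lit 317746), .ofNat (nat_lit 205119), .ofNat (nat_lit 312525), .ofNat (nat_lit 215790), .ofNat (nat_lit 323196)⟩, ⟨.ofNat (nat_lit 229411), .ofNat (nat_lit 307945), .ofNat (nat_lit 250751), .ofNat (nat_lit 329284), .ofNat (nat_lit 231202), .ofNat (nat_lit 307921), .ofNat (nat_lit 252544), .ofNat (nat_lit 329263)⟩⟩, [⟨nat_lit 0, nat_lit 100, nat_lit 97, nat_lit 59, nat_lit 169670499⟩]⟩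
noncomputable def p036_l52 : Lf2 := ⟨nat_lit 0, nat_lit 10, [nat_lit 0, nat_lit 5, nat_lit 5, nat_lit 20], true, nat_lit 160, nat_lit 200, nat_lit 0, nat_lit 288, ⟨nat_lit 0, nat_lit 0, nat_lit 1000, nat_lit 6, nat_lit 104, nat_lit 1000, nat_lit 112, nat_lit 1000, nat_lit 117600, nat_lit 299, nat_lit 101400, nat_lit 293, nat_lit 56826140, nat_lit 0, nat_lit 0, nat_lit 2819354, false, false⟩,
 nat_lit 0, nat_lit 7901, nat_lit 0, nat_lit 0, nat_lit 4599, nat_lit 0, nat_lit 0, nat_lit 0, nat_lit 0, nat_lit 0, nat_lit 0, nat_lit 0, nat_lit 0, nat_lit 0, nat_lit 152, nat_lit 774400, nat_lit 0, nat_lit 0, [(nat_lit 9, [(nat_lit 5, nat_lit 376), (nat_lit 6, nat_lit 624)])],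
 ⟨p036_k27, nat_lit 0, nat_lit 0, nat_lit 181, nat_lit 0, nat_lit 171939, [nat_lit 3690828800, nat_lit 2723130667, nat_lit 117541333], [], [nat_lit 12155263228, nat_lit 12765797733, nat_lit 11235802544, nat_lit 11882425072, nat_lit 13570454127, nat_lit 14150393541, nat_lit 12844614215, nat_lit 13441808312], nat_lit 1271250, nat_lit 1271250, nat_lit 134400, nat_lit 490000, nat_lit 1100001, nat_lit 1442500, [nat_lit 1100000, nat_lit 1442500, nat_lit 1271250], [nat_lit 11, nat_lit 40, nat_lit 20, nat_lit 80, nat_lit 1, nat_lit 373, nat_lit 150, nat_lit 11]⟩, C1.Rw.none,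
 ⟨nat_lit 5700, nat_lit 5917, ⟨.ofNat (nat_lit 197129), .ofNat (nat_lit 307076), .ofNat (nat_lit 207799), .ofNat (nat_lit 317746), .ofNat (nat_lit 205119), .ofNat (nat_lit 312525), .ofNat (nat_lit 215790), .ofNat (nat_lit 323196)⟩, ⟨.ofNat (nat_lit 229411), .ofNat (nat_lit 307945), .ofNat (nat_lit 250751), .ofNat (nat_lit 329284), .ofNat (nat_lit 231202), .ofNat (nat_lit 307921), .ofNat (nat_lit 252544), .ofNat (nat_lit 329263)⟩⟩, [⟨nat_lit 0, nat_lit 100, nat_lit 97, nat_lit 59, nat_lit 175287896⟩]⟩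
noncomputable def p036_l53 : Lf2 := ⟨nat_lit 0, nat_lit 2, [nat_lit 10, nat_lit 5, nat_lit 5, nat_lit 20], true, nat_lit 200, nat_lit 240, nat_lit 0, nat_lit 288, ⟨nat_lit 0, nat_lit 0, nat_lit 1000, nat_lit 6, nat_lit 88, nat_lit 1000, nat_lit 143, nat_lit 1000, nat_lit 190817, nat_lit 322, nat_lit 72600, nat_lit 281, nat_lit 55368874, nat_lit 0, nat_lit 0, nat_lit 3022800, false, false⟩,
 nat_lit 0, nat_lit 7387, nat_lit 0, nat_lit 0, nat_lit 4299, nat_lit 0, nat_lit 0, nat_lit 0, nat_lit 0, nat_lit 0, nat_lit 0, nat_lit 0, nat_lit 0, nat_lit 0, nat_lit 37, nat_lit 1000000, nat_lit 0, nat_lit 0, [(nat_lit 9, [(nat_lit 6, nat_lit 1000)])],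
 ⟨p036_k25, nat_lit 0, nat_lit 0, nat_lit 172, nat_lit 0, nat_lit 311949, [nat_lit 1689600001, nat_lit 0], [], [nat_lit 13717270571, nat_lit 14021591302, nat_lit 13377656839, nat_lit 13678579087, nat_lit 15362020065, nat_lit 15727522233, nat_lit 15009280692, nat_lit 15285556557], nat_lit 1271250, nat_lit 1271250, nat_lit 134400, nat_lit 230001, nat_lit 1271250, nat_lit 1271250, [nat_lit 1100000, nat_lit 1442500], [nat_lit 31, nat_lit 40, nat_lit 20, nat_lit 80, nat_lit 3, nat_lit 215, nat_lit 10, nat_lit 8]⟩, C1.Rw.none,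
 ⟨nat_lit 5809, nat_lit 5917, ⟨.ofNat (nat_lit 197129), .ofNat (nat_lit 228543), .ofNat (nat_lit 207799), .ofNat (nat_lit 239212), .ofNat (nat_lit 201138), .ofNat (nat_lit 232187), .ofNat (nat_lit 211807), .ofNat (nat_lit 242856)⟩, ⟨.ofNat (nat_lit 307945), .ofNat (nat_lit 386479), .ofNat (nat_lit 329284), .ofNat (nat_lit 407818), .ofNat (nat_lit 307946), .ofNat (nat_lit 385569), .ofNat (nat_lit 329285), .ofNat (nat_lit 406908)⟩⟩, [⟨nat_lit 0, nat_lit 100, nat_lit 98, nat_lit 57, nat_lit 223700737⟩, ⟨nat_lit 4, nat_lit 100, nat_lit 98, nat_lit 54, nat_lit 289314852⟩]⟩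
noncomputable def p036_l54 : Lf2 := ⟨nat_lit 0, nat_lit 2, [nat_lit 10, nat_lit 5, nat_lit 5, nat_lit 20], true, nat_lit 200, nat_lit 240, nat_lit 0, nat_lit 288, ⟨nat_lit 0, nat_lit 0, nat_lit 1000, nat_lit 6, nat_lit 90, nat_lit 1000, nat_lit 143, nat_lit 1000, nat_lit 190817, nat_lit 322, nat_lit 74817, nat_lit 282, nat_lit 55282059, nat_lit 0, nat_lit 0, nat_lit 3043266, false, false⟩,
 nat_lit 0, nat_lit 7139, nat_lit 0, nat_lit 0, nat_lit 4251, nat_lit 0, nat_lit 0, nat_lit 0, nat_lit 0, nat_lit 0, nat_lit 0, nat_lit 0, nat_lit 0, nat_lit 0, nat_lit 37, nat_lit 1000000, nat_lit 0, nat_lit 0, [(nat_lit 9, [(nat_lit 6, nat_lit 1000)])],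
 ⟨p036_k28, nat_lit 0, nat_lit 0, nat_lit 170, nat_lit 0, nat_lit 327470, [nat_lit 1689600001, nat_lit 0], [], [nat_lit 14102855045, nat_lit 14405588207, nat_lit 13766676331, nat_lit 14066034846, nat_lit 15717250591, nat_lit 16087274069, nat_lit 15368375973, nat_lit 15643294133], nat_lit 1271250, nat_lit 1271250, nat_lit 134400, nat_lit 230001, nat_lit 1271250, nat_lit 1271250, [nat_lit 1100000, nat_lit 1442500], [nat_lit 31, nat_lit 40, nat_lit 20, nat_lit 80, nat_lit 3, nat_lit 215, nat_lit 10, nat_lit 8]⟩, C1.Rw.none,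
 ⟨nat_lit 5700, nat_lit 5810, ⟨.ofNat (nat_lit 201138), .ofNat (nat_lit 232187), .ofNat (nat_lit 211807), .ofNat (nat_lit 242856), .ofNat (nat_lit 205119), .ofNat (nat_lit 235806), .ofNat (nat_lit 215790), .ofNat (nat_lit 246477)⟩, ⟨.ofNat (nat_lit 307946), .ofNat (nat_lit 385569), .ofNat (nat_lit 329285), .ofNat (nat_lit 406908), .ofNat (nat_lit 307921), .ofNat (nat_lit 384640), .ofNat (nat_lit 329263), .ofNat (nat_lit 405982)⟩⟩, [⟨nat_lit 0, nat_lit 100, nat_lit 97, nat_lit 59, nat_lit 223190872⟩, ⟨nat_lit 4, nat_lit 100, nat_lit 96, nat_lit 54, nat_lit 294056372⟩]⟩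
noncomputable def p036_l55 : Lf2 := ⟨nat_lit 0, nat_lit 2, [nat_lit 10, nat_lit 5, nat_lit 5, nat_lit 20], true, nat_lit 200, nat_lit 240, nat_lit 0, nat_lit 288, ⟨nat_lit 0, nat_lit 0, nat_lit 1000, nat_lit 6, nat_lit 111, nat_lit 1000, nat_lit 143, nat_lit 1000, nat_lit 190817, nat_lit 322, nat_lit 114817, nat_lit 298, nat_lit 53781807, nat_lit 0, nat_lit 0, nat_lit 3352028, false, false⟩,
 nat_lit 0, nat_lit 7464, nat_lit 0, nat_lit 0, nat_lit 4344, nat_lit 0, nat_lit 0, nat_lit 0, nat_lit 0, nat_lit 0, nat_lit 0, nat_lit 0, nat_lit 0, nat_lit 0, nat_lit 37, nat_lit 1000000, nat_lit 0, nat_lit 0, [(nat_lit 9, [(nat_lit 6, nat_lit 1000)])],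
 ⟨p036_k25, nat_lit 0, nat_lit 0, nat_lit 165, nat_lit 0, nat_lit 335940, [nat_lit 1689600001, nat_lit 0], [], [nat_lit 13293599674, nat_lit 13898376166, nat_lit 13058323442, nat_lit 13639834146, nat_lit 14930364642, nat_lit 15485462066, nat_lit 14639919218, nat_lit 15174084458], nat_lit 1271250, nat_lit 1271250, nat_lit 230001, nat_lit 490000, nat_lit 1271250, nat_lit 1271250, [nat_lit 1100000, nat_lit 1442500], [nat_lit 31, nat_lit 40, nat_lit 20, nat_lit 80, nat_lit 3, nat_lit 226, nat_lit 20, nat_lit 8]⟩, C1.Rw.none,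
 ⟨nat_lit 5700, nat_lit 5917, ⟨.ofNat (nat_lit 228543), .ofNat (nat_lit 307076), .ofNat (nat_lit 239212), .ofNat (nat_lit 317746), .ofNat (nat_lit 235806), .ofNat (nat_lit 312525), .ofNat (nat_lit 246477), .ofNat (nat_lit 323196)⟩, ⟨.ofNat (nat_lit 307945), .ofNat (nat_lit 386479), .ofNat (nat_lit 329284), .ofNat (nat_lit 407818), .ofNat (nat_lit 307921), .ofNat (nat_lit 384640), .ofNat (nat_lit 329263), .ofNat (nat_lit 405982)⟩⟩, [⟨nat_lit 4, nat_lit 100, nat_lit 97, nat_lit 54, nat_lit 293383410⟩]⟩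
noncomputable def p036_l56 : Lf2 := ⟨nat_lit 0, nat_lit 5, [nat_lit 4, nat_lit 5, nat_lit 5, nat_lit 20], true, nat_lit 200, nat_lit 240, nat_lit 0, nat_lit 288, ⟨nat_lit 0, nat_lit 0, nat_lit 1000, nat_lit 6, nat_lit 104, nat_lit 1000, nat_lit 143, nat_lit 1000, nat_lit 190817, nat_lit 322, nat_lit 101400, nat_lit 293, nat_lit 54236616, nat_lit 0, nat_lit 0, nat_lit 3262900, false, false⟩,
 nat_lit 0, nat_lit 7287, nat_lit 0, nat_lit 0, nat_lit 4241, nat_lit 0, nat_lit 0, nat_lit 0, nat_lit 0, nat_lit 0, nat_lit 0, nat_lit 0, nat_lit 0, nat_lit 0, nat_lit 117, nat_lit 1000000, nat_lit 0, nat_lit 0, [(nat_lit 9, [(nat_lit 6, nat_lit 1000)])],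
 ⟨p036_k26, nat_lit 0, nat_lit 0, nat_lit 184, nat_lit 0, nat_lit 266258, [nat_lit 2969600000, nat_lit 1600000000, nat_lit 226400000], [], [nat_lit 13817382572, nat_lit 14422187408, nat_lit 13274892785, nat_lit 13850068629, nat_lit 15455429226, nat_lit 16082028879, nat_lit 14845495474, nat_lit 15374167209], nat_lit 1271250, nat_lit 1271250, nat_lit 134400, nat_lit 490000, nat_lit 1271250, nat_lit 1271250, [nat_lit 1100000, nat_lit 1442500, nat_lit 1271250], [nat_lit 9, nat_lit 40, nat_lit 20, nat_lit 80, nat_lit 2, nat_lit 317, nat_lit 100, nat_lit 10]⟩, C1.Rw.none,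
 ⟨nat_lit 5700, nat_lit 5917, ⟨.ofNat (nat_lit 197129), .ofNat (nat_lit 307076), .ofNat (nat_lit 207799), .ofNat (nat_lit 317746), .ofNat (nat_lit 205119), .ofNat (nat_lit 312525), .ofNat (nat_lit 215790), .ofNat (nat_lit 323196)⟩, ⟨.ofNat (nat_lit 307945), .ofNat (nat_lit 386479), .ofNat (nat_lit 329284), .ofNat (nat_lit 407818), .ofNat (nat_lit 307921), .ofNat (nat_lit 384640), .ofNat (nat_lit 329263), .ofNat (nat_lit 405982)⟩⟩, [⟨nat_lit 0, nat_lit 100, nat_lit 97, nat_lit 54, nat_lit 165721085⟩, ⟨nat_lit 4, nat_lit 100, nat_lit 97, nat_lit 54, nat_lit 293820316⟩]⟩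
noncomputable def p036_l57 : Lf2 := ⟨nat_lit 0, nat_lit 10, [nat_lit 0, nat_lit 5, nat_lit 5, nat_lit 20], true, nat_lit 200, nat_lit 240, nat_lit 0, nat_lit 288, ⟨nat_lit 0, nat_lit 0, nat_lit 1000, nat_lit 6, nat_lit 104, nat_lit 1000, nat_lit 143, nat_lit 1000, nat_lit 190817, nat_lit 322, nat_lit 101400, nat_lit 293, nat_lit 54236616, nat_lit 0, nat_lit 0, nat_lit 3262900, false, false⟩,
 nat_lit 0, nat_lit 7595, nat_lit 0, nat_lit 0, nat_lit 4420, nat_lit 0, nat_lit 0, nat_lit 0, nat_lit 0, nat_lit 0, nat_lit 0, nat_lit 0, nat_lit 0, nat_lit 0, nat_lit 138, nat_lit 688600, nat_lit 0, nat_lit 0, [(nat_lit 9, [(nat_lit 5, nat_lit 519), (nat_lit 6, nat_lit 481)])],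
 ⟨p036_k27, nat_lit 0, nat_lit 0, nat_lit 183, nat_lit 0, nat_lit 171939, [nat_lit 3528147201, nat_lit 2485649334, nat_lit 108018666], [], [nat_lit 14014291407, nat_lit 14570156076, nat_lit 13343619102, nat_lit 13929804072, nat_lit 15612243626, nat_lit 16177802654, nat_lit 14933326282, nat_lit 15471544982], nat_lit 1271250, nat_lit 1271250, nat_lit 134400, nat_lit 490000, nat_lit 1271250, nat_lit 1271250, [nat_lit 1100000, nat_lit 1442500, nat_lit 1271250], [nat_lit 11, nat_lit 40, nat_lit 20, nat_lit 80, nat_lit 1, nat_lit 373, nat_lit 150, nat_lit 10]⟩, C1.Rw.none,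
 ⟨nat_lit 5700, nat_lit 5917, ⟨.ofNat (nat_lit 197129), .ofNat (nat_lit 307076), .ofNat (nat_lit 207799), .ofNat (nat_lit 317746), .ofNat (nat_lit 205119), .ofNat (nat_lit 312525), .ofNat (nat_lit 215790), .ofNat (nat_lit 323196)⟩, ⟨.ofNat (nat_lit 307945), .ofNat (nat_lit 386479), .ofNat (nat_lit 329284), .ofNat (nat_lit 407818), .ofNat (nat_lit 307921), .ofNat (nat_lit 384640), .ofNat (nat_lit 329263), .ofNat (nat_lit 405982)⟩⟩, [⟨nat_lit 0, nat_lit 100, nat_lit 97, nat_lit 59, nat_lit 175111402⟩, ⟨nat_lit 4, nat_lit 100, nat_lit 97, nat_lit 54, nat_lit 282565438⟩]⟩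
noncomputable def p036_l58 : Lf2 := ⟨nat_lit 0, nat_lit 2, [nat_lit 10, nat_lit 5, nat_lit 5, nat_lit 20], false, nat_lit 160, nat_lit 200, nat_lit 0, nat_lit 288, ⟨nat_lit 0, nat_lit 0, nat_lit 1000, nat_lit 6, nat_lit 141, nat_lit 1000, nat_lit 112, nat_lit 1000, nat_lit 117600, nat_lit 299, nat_lit 187267, nat_lit 321, nat_lit 53843081, nat_lit 0, nat_lit 0, nat_lit 3346075, false, false⟩,
 nat_lit 0, nat_lit 8419, nat_lit 0, nat_lit 0, nat_lit 4900, nat_lit 0, nat_lit 704, nat_lit 0, nat_lit 0, nat_lit 0, nat_lit 0, nat_lit 0, nat_lit 0, nat_lit 0, nat_lit 37, nat_lit 1000000, nat_lit 0, nat_lit 0, [(nat_lit 9, [(nat_lit 6, nat_lit 1000)])],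
 ⟨p036_k25, nat_lit 0, nat_lit 0, nat_lit 164, nat_lit 0, nat_lit 311949, [nat_lit 1689600001, nat_lit 0], [], [nat_lit 10248332402, nat_lit 10582129302, nat_lit 10609069002, nat_lit 10925484252, nat_lit 11889269502, nat_lit 12197122827, nat_lit 12845108601, nat_lit 12457395877], nat_lit 1271250, nat_lit 1271250, nat_lit 490000, nat_lit 780000, nat_lit 1100001, nat_lit 1442500, [nat_lit 1100000, nat_lit 1442500], [nat_lit 31, nat_lit 40, nat_lit 20, nat_lit 80, nat_lit 3, nat_lit 317, nat_lit 100, nat_lit 12]⟩, ⟨p036_k29, nat_lit 0, nat_lit 0, nat_lit 275, nat_lit 0, nat_lit 347164, [nat_lit 0, nat_lit 0], [], [nat_lit 0, nat_lit 0, nat_lit 0, nat_lit 0, nat_lit 0, nat_lit 0, nat_lit 0, nat_lit 0], nat_lit 1271250, nat_lit 1271250, nat_lit 490000, nat_lit 780000, nat_lit 0, nat_lit 2034000, [nat_lit 1100000, nat_lit 1785000], [nat_lit 39, nat_lit 40, nat_lit 20, nat_lit 80, nat_lit 7, nat_lit 345, nat_lit 125, nat_lit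 12]⟩,
 ⟨nat_lit 5809, nat_lit 5917, ⟨.ofNat (nat_lit 307076), .ofNat (nat_lit 385610), .ofNat (nat_lit 317746), .ofNat (nat_lit 396280), .ofNat (nat_lit 309809), .ofNat (nat_lit 387432), .ofNat (nat_lit 320479), .ofNat (nat_lit 398101)⟩, ⟨.ofNat (nat_lit 229411), .ofNat (nat_lit 307945), .ofNat (nat_lit 250751), .ofNat (nat_lit 329284), .ofNat (nat_lit 230324), .ofNat (nat_lit 307946), .ofNat (nat_lit 251663), .ofNat (nat_lit 329285)⟩⟩, []⟩
noncomputable def p036_l59 : Lf2 := ⟨nat_lit 0, nat_lit 2, [nat_lit 10, nat_lit 5, nat_lit 5, nat_lit 20], false, nat_lit 160, nat_lit 200, nat_lit 0, nat_lit 288, ⟨nat_lit 0, nat_lit 0, nat_lit 1000, nat_lit 6, nat_lit 142, nat_lit 1000, nat_lit 112, nat_lit 1000, nat_lit 117600, nat_lit 299, nat_lit 190817, nat_lit 322, nat_lit 53752046, nat_lit 0, nat_lit 0, nat_lit 3360654, false, false⟩,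
 nat_lit 0, nat_lit 8114, nat_lit 0, nat_lit 0, nat_lit 4831, nat_lit 0, nat_lit 0, nat_lit 0, nat_lit 0, nat_lit 0, nat_lit 0, nat_lit 0, nat_lit 0, nat_lit 0, nat_lit 37, nat_lit 1000000, nat_lit 0, nat_lit 0, [(nat_lit 9, [(nat_lit 6, nat_lit 1000)])],
 ⟨p036_k28, nat_lit 0, nat_lit 0, nat_lit 162, nat_lit 0, nat_lit 327470, [nat_lit 1689600001, nat_lit 0], [], [nat_lit 10732170354, nat_lit 11063563570, nat_lit 11083400585, nat_lit 11397593517, nat_lit 12340081392, nat_lit 12645812846, nat_lit 12963624810, nat_lit 12899065668], nat_lit 1271250, nat_lit 1271250, nat_lit 490000, nat_lit 780000, nat_lit 1100001, nat_lit 1442500, [nat_lit 1100000, nat_lit 1442500], [nat_lit 31, nat_lit 40, nat_lit 20, nat_lit 80, nat_lit 3, nat_lit 317, nat_lit 100, nat_lit 12]⟩, ⟨p036_k29, nat_lit 0, nat_lit 0, nat_lit 284, nat_lit 0, nat_lit 373863, [nat_lit 0, nat_lit 0], [], [nat_lit 0, nat_lit 0, nat_lit 0, nat_lit 0, nat_lit 0, nat_lit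 0, nat_lit 0, nat_lit 0], nat_lit 1271250, nat_lit 1271250, nat_lit 490000, nat_lit 780000, nat_lit 0, nat_lit 2034000, [nat_lit 1100000, nat_lit 1785000], [nat_lit 39, nat_lit 40, nat_lit 20, nat_lit 80, nat_lit 7, nat_lit 345, nat_lit 125, nat_lit 12]⟩,
 ⟨nat_lit 5700, nat_lit 5810, ⟨.ofNat (nat_lit 309809), .ofNat (nat_lit 387432), .ofNat (nat_lit 320479), .ofNat (nat_lit 398101), .ofNat (nat_lit 312525), .ofNat (nat_lit 389244), .ofNat (nat_lit 323196), .ofNat (nat_lit 399915)⟩, ⟨.ofNat (nat_lit 230324), .ofNat (nat_lit 307946), .ofNat (nat_lit 251663), .ofNat (nat_lit 329285), .ofNat (nat_lit 231202), .ofNat (nat_lit 307921), .ofNat (nat_lit 252544), .ofNat (nat_lit 329263)⟩⟩, []⟩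
noncomputable def p036_l60 : Lf2 := ⟨nat_lit 0, nat_lit 2, [nat_lit 10, nat_lit 5, nat_lit 5, nat_lit 20], false, nat_lit 200, nat_lit 240, nat_lit 0, nat_lit 288, ⟨nat_lit 0, nat_lit 0, nat_lit 1000, nat_lit 6, nat_lit 142, nat_lit 1000, nat_lit 143, nat_lit 1000, nat_lit 190817, nat_lit 322, nat_lit 187267, nat_lit 321, nat_lit 51376472, nat_lit 0, nat_lit 0, nat_lit 3767278, false, false⟩,
 nat_lit 0, nat_lit 7814, nat_lit 0, nat_lit 0, nat_lit 4548, nat_lit 0, nat_lit 0, nat_lit 0, nat_lit 0, nat_lit 0, nat_lit 0, nat_lit 0, nat_lit 0, nat_lit 0, nat_lit 37, nat_lit 1000000, nat_lit 0, nat_lit 0, [(nat_lit 9, [(nat_lit 6, nat_lit 1000)])],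
 ⟨p036_k25, nat_lit 0, nat_lit 0, nat_lit 145, nat_lit 0, nat_lit 335940, [nat_lit 1689600001, nat_lit 0], [], [nat_lit 12629389982, nat_lit 13223447400, nat_lit 12948953838, nat_lit 13512963276, nat_lit 14232758474, nat_lit 14777804054, nat_lit 14471899474, nat_lit 14989761930], nat_lit 1271250, nat_lit 1271250, nat_lit 490000, nat_lit 780000, nat_lit 1271250, nat_lit 1271250, [nat_lit 1100000, nat_lit 1442500], [nat_lit 31, nat_lit 40, nat_lit 20, nat_lit 80, nat_lit 3, nat_lit 238, nat_lit 30, nat_lit 8]⟩, ⟨p036_k29, nat_lit 0, nat_lit 0, nat_lit 284, nat_lit 0, nat_lit 373863, [nat_lit 0, nat_lit 0], [], [nat_lit 0, nat_lit 0, nat_lit 0, nat_lit 0, nat_lit 0, nat_lit 0, nat_lit 0, nat_lit 0], nat_lit 1271250, nat_lit 1271250, nat_lit 490000, nat_lit 780000, nat_lit 0, nat_lit 2034000, [nat_lit 1100000, nat_lit 1785000], [nat_lit 39, nat_lit 40, nat_lit 20, nat_lit 80, nat_lit 7, nat_lit 345, nat_lit 125, nat_lit 12]⟩,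
 ⟨nat_lit 5700, nat_lit 5917, ⟨.ofNat (nat_lit 307076), .ofNat (nat_lit 385610), .ofNat (nat_lit 317746), .ofNat (nat_lit 396280), .ofNat (nat_lit 312525), .ofNat (nat_lit 389244), .ofNat (nat_lit 323196), .ofNat (nat_lit 399915)⟩, ⟨.ofNat (nat_lit 307945), .ofNat (nat_lit 386479), .ofNat (nat_lit 329284), .ofNat (nat_lit 407818), .ofNat (nat_lit 307921), .ofNat (nat_lit 384640), .ofNat (nat_lit 329263), .ofNat (nat_lit 405982)⟩⟩, [⟨nat_lit 4, nat_lit 100, nat_lit 97, nat_lit 54, nat_lit 285563754⟩]⟩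
noncomputable def p036_l61 : Lf2 := ⟨nat_lit 0, nat_lit 5, [nat_lit 4, nat_lit 5, nat_lit 5, nat_lit 20], false, nat_lit 160, nat_lit 240, nat_lit 0, nat_lit 288, ⟨nat_lit 0, nat_lit 0, nat_lit 1000, nat_lit 6, nat_lit 142, nat_lit 1000, nat_lit 127, nat_lit 1000, nat_lit 153600, nat_lit 311, nat_lit 187267, nat_lit 321, nat_lit 52611598, nat_lit 0, nat_lit 0, nat_lit 3567131, false, false⟩,
 nat_lit 0, nat_lit 9897, nat_lit 0, nat_lit 0, nat_lit 5760, nat_lit 0, nat_lit 0, nat_lit 0, nat_lit 0, nat_lit 0, nat_lit 0, nat_lit 0, nat_lit 0, nat_lit 0, nat_lit 117, nat_lit 1000000, nat_lit 0, nat_lit 0, [(nat_lit 9, [(nat_lit 6, nat_lit 1000)])],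
 ⟨p036_k26, nat_lit 0, nat_lit 0, nat_lit 160, nat_lit 0, nat_lit 266258, [nat_lit 2969600000, nat_lit 1600000000, nat_lit 226400000], [], [nat_lit 9137542400, nat_lit 10181319840, nat_lit 9285233520, nat_lit 10277797240, nat_lit 13877626400, nat_lit 14745036320, nat_lit 15423146400, nat_lit 14655467320], nat_lit 1271250, nat_lit 1271250, nat_lit 490000, nat_lit 780000, nat_lit 1100001, nat_lit 1785000, [nat_lit 1100000, nat_lit 1442500, nat_lit 1271250], [nat_lit 9, nat_lit 40, nat_lit 20, nat_lit 80, nat_lit 2, nat_lit 317, nat_lit 100, nat_lit 10]⟩, ⟨p036_k30, nat_lit 0, nat_lit 0, nat_lit 334, nat_lit 0, nat_lit 297014, [nat_lit 0, nat_lit 0, nat_lit 0], [], [nat_lit 0, nat_lit 0, nat_lit 0, nat_lit 0, nat_lit 0, nat_lit 0, nat_lit 0, nat_lit 0], nat_lit 1271250, nat_lit 1271250, nat_lit 490000, nat_lit 780000, nat_lit 0, nat_lit 2034000, [nat_lit 1100000, nat_lit 1442500, nat_lit 1271250], [nat_lit 11, nat_lit 40,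 nat_lit 20, nat_lit 80, nat_lit 1, nat_lit 401, nat_lit 175, nat_lit 12]⟩,
 ⟨nat_lit 5700, nat_lit 5917, ⟨.ofNat (nat_lit 307076), .ofNat (nat_lit 385610), .ofNat (nat_lit 317746), .ofNat (nat_lit 396280), .ofNat (nat_lit 312525), .ofNat (nat_lit 389244), .ofNat (nat_lit 323196), .ofNat (nat_lit 399915)⟩, ⟨.ofNat (nat_lit 229411), .ofNat (nat_lit 386479), .ofNat (nat_lit 250751), .ofNat (nat_lit 407818), .ofNat (nat_lit 231202), .ofNat (nat_lit 384640), .ofNat (nat_lit 252544), .ofNat (nat_lit 405982)⟩⟩, [⟨nat_lit 4, nat_lit 100, nat_lit 97, nat_lit 54, nat_lit 460060550⟩]⟩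
noncomputable def p036_l62 : Lf2 := ⟨nat_lit 0, nat_lit 10, [nat_lit 0, nat_lit 5, nat_lit 5, nat_lit 20], false, nat_lit 160, nat_lit 240, nat_lit 0, nat_lit 288, ⟨nat_lit 0, nat_lit 0, nat_lit 1000, nat_lit 6, nat_lit 142, nat_lit 1000, nat_lit 127, nat_lit 1000, nat_lit 153600, nat_lit 311, nat_lit 187267, nat_lit 321, nat_lit 52611598, nat_lit 0, nat_lit 0, nat_lit 3567131, false, false⟩,
 nat_lit 0, nat_lit 8093, nat_lit 0, nat_lit 0, nat_lit 4710, nat_lit 0, nat_lit 0, nat_lit 0, nat_lit 0, nat_lit 0, nat_lit 0, nat_lit 0, nat_lit 0, nat_lit 0, nat_lit 87, nat_lit 400000, nat_lit 0, nat_lit 0, [(nat_lit 9, [(nat_lit 5, nat_lit 1000)])],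
 ⟨p036_k27, nat_lit 0, nat_lit 0, nat_lit 153, nat_lit 0, nat_lit 171939, [nat_lit 2918400000, nat_lit 1608666667, nat_lit 9200000], [], [nat_lit 10304327780, nat_lit 11087549170, nat_lit 10700669800, nat_lit 11444233640, nat_lit 14114389160, nat_lit 14773273480, nat_lit 14332175140, nat_lit 14958489490], nat_lit 1271250, nat_lit 1271250, nat_lit 490000, nat_lit 780000, nat_lit 1100001, nat_lit 1785000, [nat_lit 1100000, nat_lit 1442500, nat_lit 1271250], [nat_lit 11, nat_lit 40, nat_lit 20, nat_lit 80, nat_lit 1, nat_lit 401, nat_lit 175, nat_lit 11]⟩, ⟨p036_k15, nat_lit 0, nat_lit 0, nat_lit 366, nat_lit 0, nat_lit 192471, [nat_lit 0, nat_lit 0, nat_lit 0], [], [nat_lit 0, nat_lit 0, nat_lit 0, nat_lit 0, nat_lit 0, nat_lit 0, nat_lit 0, nat_lit 0], nat_lit 1271250, nat_lit 1271250, nat_lit 490000, nat_lit 780000, nat_lit 0, nat_lit 2034000, [nat_lit 1100000, nat_lit 1442500, nat_lit 1271250], [nat_lit 48, nat_lit 40,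 nat_lit 20, nat_lit 80, nat_lit 12, nat_lit 401, nat_lit 175, nat_lit 11]⟩,
 ⟨nat_lit 5700, nat_lit 5917, ⟨.ofNat (nat_lit 307076), .ofNat (nat_lit 385610), .ofNat (nat_lit 317746), .ofNat (nat_lit 396280), .ofNat (nat_lit 312525), .ofNat (nat_lit 389244), .ofNat (nat_lit 323196), .ofNat (nat_lit 399915)⟩, ⟨.ofNat (nat_lit 229411), .ofNat (nat_lit 386479), .ofNat (nat_lit 250751), .ofNat (nat_lit 407818), .ofNat (nat_lit 231202), .ofNat (nat_lit 384640), .ofNat (nat_lit 252544), .ofNat (nat_lit 405982)⟩⟩, [⟨nat_lit 16, nat_lit 97, nat_lit 100, nat_lit 54, nat_lit 355290371⟩]⟩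
noncomputable def b_VL_600_600_5_42 : St := ⟨true, nat_lit 1, nat_lit 1, nat_lit 1, nat_lit 40, nat_lit 260, nat_lit 270, nat_lit 240, nat_lit 250, nat_lit 24, nat_lit 120, nat_lit 20, nat_lit 40, nat_lit 160, nat_lit 240, nat_lit 0, nat_lit 288, nat_lit 0, nat_lit 40, nat_lit 0, nat_lit 0, nat_lit 0, nat_lit 0⟩
theorem d_VL_600_600_5_42 (h : EB TB.env) : Dead b_VL_600_600_5_42 := chkB_sound0 h (T :=
(.spl (nat_lit 2) (nat_lit 80)
(.spl (nat_lit 4) (nat_lit 200)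
(.spl (nat_lit 6) (nat_lit 20)
(.spl (nat_lit 6) (nat_lit 8)
(.leaf p036_l50)
(.leaf p036_l51))
(.leaf p036_l52))
(.spl (nat_lit 6) (nat_lit 20)
(.spl (nat_lit 6) (nat_lit 8)
(.spl (nat_lit 2) (nat_lit 40)
(.spl (nat_lit 0) (nat_lit 265)
(.leaf p036_l53)
(.leaf p036_l54))
(.leaf p036_l55))
(.leaf p036_l56))
(.leaf p036_l57)))
(.spl (nat_lit 6) (nat_lit 20)
(.spl (nat_lit 6) (nat_lit 8)
(.spl (nat_lit 4) (nat_lit 200)
(.spl (nat_lit 0) (nat_lit 265)
(.leaf p036_l58)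
(.leaf p036_l59))
(.leaf p036_l60))
(.leaf p036_l61))
(.leaf p036_l62)))) (by decide +kernel)
noncomputable def p036_l63 : Lf2 := ⟨nat_lit 0, nat_lit 2, [nat_lit 10, nat_lit 5, nat_lit 5, nat_lit 20], true, nat_lit 160, nat_lit 200, nat_lit 0, nat_lit 280, ⟨nat_lit 0, nat_lit 0, nat_lit 1000, nat_lit 6, nat_lit 101, nat_lit 1000, nat_lit 112, nat_lit 1000, nat_lit 117600, nat_lit 299, nat_lit 96267, nat_lit 291, nat_lit 57053629, nat_lit 0, nat_lit 0, nat_lit 2773341, false, false⟩,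
 nat_lit 0, nat_lit 7692, nat_lit 0, nat_lit 0, nat_lit 4477, nat_lit 0, nat_lit 0, nat_lit 0, nat_lit 0, nat_lit 0, nat_lit 0, nat_lit 0, nat_lit 0, nat_lit 0, nat_lit 37, nat_lit 1000000, nat_lit 0, nat_lit 0, [(nat_lit 9, [(nat_lit 6, nat_lit 1000)])],
 ⟨p036_k25, nat_lit 0, nat_lit 0, nat_lit 193, nat_lit 0, nat_lit 355892, [nat_lit 1689600001, nat_lit 0], [], [nat_lit 11656833568, nat_lit 12326898659, nat_lit 11196853298, nat_lit 11848986058, nat_lit 13318813731, nat_lit 13937486221, nat_lit 12824022521, nat_lit 13426463467], nat_lit 1271250, nat_lit 1271250, nat_lit 157850, nat_lit 356250, nat_lit 1100001, nat_lit 1442500, [nat_lit 1100000, nat_lit 1442500], [nat_lit 31, nat_lit 40, nat_lit 20, nat_lit 80, nat_lit 3, nat_lit 289, nat_lit 75, nat_lit 11]⟩, C1.Rw.none,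
 ⟨nat_lit 5700, nat_lit 5917, ⟨.ofNat (nat_lit 215652), .ofNat (nat_lit 278479), .ofNat (nat_lit 220987), .ofNat (nat_lit 283814), .ofNat (nat_lit 223462), .ofNat (nat_lit 284837), .ofNat (nat_lit 228797), .ofNat (nat_lit 290172)⟩, ⟨.ofNat (nat_lit 229411), .ofNat (nat_lit 307945), .ofNat (nat_lit 250751), .ofNat (nat_lit 329284), .ofNat (nat_lit 231202), .ofNat (nat_lit 307921), .ofNat (nat_lit 252544), .ofNat (nat_lit 329263)⟩⟩, [⟨nat_lit 0, nat_lit 100, nat_lit 97, nat_lit 62, nat_lit 193538609⟩]⟩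
noncomputable def p036_l64 : Lf2 := ⟨nat_lit 0, nat_lit 2, [nat_lit 10, nat_lit 5, nat_lit 5, nat_lit 20], false, nat_lit 160, nat_lit 200, nat_lit 0, nat_lit 272, ⟨nat_lit 137, nat_lit 0, nat_lit 863, nat_lit 6, nat_lit 105, nat_lit 863, nat_lit 112, nat_lit 863, nat_lit 117600, nat_lit 299, nat_lit 104017, nat_lit 294, nat_lit 56774511, nat_lit 0, nat_lit 0, nat_lit 2829666, false, false⟩,
 nat_lit 3961, nat_lit 4664, nat_lit 0, nat_lit 0, nat_lit 5020, nat_lit 2252, nat_lit 0, nat_lit 0, nat_lit 0, nat_lit 1113, nat_lit 0, nat_lit 0, nat_lit 0, nat_lit 0, nat_lit 0, nat_lit 863000, nat_lit 0, nat_lit 0, [(nat_lit 9, [(nat_lit 6, nat_lit 863)])],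
 ⟨p036_k25, nat_lit 0, nat_lit 0, nat_lit 193, nat_lit 0, nat_lit 376573, [nat_lit 1589484800, nat_lit 217630000], [], [nat_lit 11658379457, nat_lit 12312985625, nat_lit 11151115280, nat_lit 11789929600, nat_lit 13235594141, nat_lit 13902133139, nat_lit 12720894540, nat_lit 13357811370], nat_lit 1271250, nat_lit 1271250, nat_lit 181601, nat_lit 356250, nat_lit 1100001, nat_lit 1442500, [nat_lit 1100000, nat_lit 1442500], [nat_lit 31, nat_lit 40, nat_lit 20, nat_lit 80, nat_lit 3, nat_lit 289, nat_lit 75, nat_lit 11]⟩, ⟨p036_k31, nat_lit 0, nat_lit 0, nat_lit 367, nat_lit 0, nat_lit 386491, [nat_lit 642256000, nat_lit 856250000, nat_lit 1091616000], [], [nat_lit 5309300150, nat_lit 5015212596, nat_lit 3666969472, nat_lit 3375959276, nat_lit 3321690702, nat_lit 3434852948, nat_lit 3069959916, nat_lit 2816413107], nat_lit 1271250, nat_lit 1271250, nat_lit 181601, nat_lit 356250, nat_lit 0, nat_lit 1921000, [nat_lit 1100000,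 nat_lit 1442500, nat_lit 1271250], [nat_lit 9, nat_lit 40, nat_lit 20, nat_lit 80, nat_lit 2, nat_lit 317, nat_lit 100, nat_lit 11]⟩,
 ⟨nat_lit 5700, nat_lit 5917, ⟨.ofNat (nat_lit 228840), .ofNat (nat_lit 283814), .ofNat (nat_lit 234175), .ofNat (nat_lit 289149), .ofNat (nat_lit 236469), .ofNat (nat_lit 290172), .ofNat (nat_lit 241804), .ofNat (nat_lit 295508)⟩, ⟨.ofNat (nat_lit 229411), .ofNat (nat_lit 307945), .ofNat (nat_lit 250751), .ofNat (nat_lit 329284), .ofNat (nat_lit 231202), .ofNat (nat_lit 307921), .ofNat (nat_lit 252544), .ofNat (nat_lit 329263)⟩⟩, [⟨nat_lit 0, nat_lit 100, nat_lit 99, nat_lit 61, nat_lit 453130633⟩]⟩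
noncomputable def p036_l65 : Lf2 := ⟨nat_lit 0, nat_lit 5, [nat_lit 4, nat_lit 5, nat_lit 5, nat_lit 20], true, nat_lit 160, nat_lit 200, nat_lit 0, nat_lit 280, ⟨nat_lit 0, nat_lit 0, nat_lit 1000, nat_lit 6, nat_lit 102, nat_lit 1000, nat_lit 112, nat_lit 1000, nat_lit 117600, nat_lit 299, nat_lit 96267, nat_lit 291, nat_lit 57033305, nat_lit 0, nat_lit 0, nat_lit 2777580, false, false⟩,
 nat_lit 0, nat_lit 7797, nat_lit 0, nat_lit 0, nat_lit 4538, nat_lit 0, nat_lit 0, nat_lit 0, nat_lit 0, nat_lit 0, nat_lit 0, nat_lit 0, nat_lit 0, nat_lit 0, nat_lit 117, nat_lit 1000000, nat_lit 0, nat_lit 0, [(nat_lit 9, [(nat_lit 6, nat_lit 1000)])],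
 ⟨p036_k26, nat_lit 0, nat_lit 0, nat_lit 187, nat_lit 0, nat_lit 284786, [nat_lit 2969600000, nat_lit 1600000000, nat_lit 226400000], [], [nat_lit 11542350449, nat_lit 11879657776, nat_lit 11067975424, nat_lit 11396234144, nat_lit 13211360033, nat_lit 13522706240, nat_lit 12701921686, nat_lit 13005078650], nat_lit 1271250, nat_lit 1271250, nat_lit 157850, nat_lit 356250, nat_lit 1100001, nat_lit 1442500, [nat_lit 1100000, nat_lit 1442500, nat_lit 1271250], [nat_lit 9, nat_lit 40, nat_lit 20, nat_lit 80, nat_lit 2, nat_lit 289, nat_lit 75, nat_lit 9]⟩, C1.Rw.none,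
 ⟨nat_lit 5809, nat_lit 5917, ⟨.ofNat (nat_lit 215652), .ofNat (nat_lit 278479), .ofNat (nat_lit 226322), .ofNat (nat_lit 289149), .ofNat (nat_lit 219570), .ofNat (nat_lit 281668), .ofNat (nat_lit 230239), .ofNat (nat_lit 292337)⟩, ⟨.ofNat (nat_lit 229411), .ofNat (nat_lit 307945), .ofNat (nat_lit 250751), .ofNat (nat_lit 329284), .ofNat (nat_lit 230324), .ofNat (nat_lit 307946), .ofNat (nat_lit 251663), .ofNat (nat_lit 329285)⟩⟩, [⟨nat_lit 0, nat_lit 100, nat_lit 99, nat_lit 62, nat_lit 193811078⟩]⟩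
noncomputable def p036_l66 : Lf2 := ⟨nat_lit 0, nat_lit 5, [nat_lit 4, nat_lit 5, nat_lit 5, nat_lit 20], true, nat_lit 160, nat_lit 200, nat_lit 0, nat_lit 280, ⟨nat_lit 0, nat_lit 0, nat_lit 1000, nat_lit 6, nat_lit 105, nat_lit 1000, nat_lit 112, nat_lit 1000, nat_lit 117600, nat_lit 299, nat_lit 101400, nat_lit 293, nat_lit 56795153, nat_lit 0, nat_lit 0, nat_lit 2825481, false, false⟩,
 nat_lit 0, nat_lit 7584, nat_lit 0, nat_lit 0, nat_lit 4516, nat_lit 0, nat_lit 0, nat_lit 0, nat_lit 0, nat_lit 0, nat_lit 0, nat_lit 0, nat_lit 0, nat_lit 0, nat_lit 117, nat_lit 1000000, nat_lit 0, nat_lit 0, [(nat_lit 9, [(nat_lit 6, nat_lit 1000)])],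
 ⟨p036_k32, nat_lit 0, nat_lit 0, nat_lit 184, nat_lit 0, nat_lit 300921, [nat_lit 2969600000, nat_lit 1600000000, nat_lit 226400000], [], [nat_lit 11829907063, nat_lit 12165421479, nat_lit 11441924008, nat_lit 11769392048, nat_lit 13467258794, nat_lit 13777003536, nat_lit 13048416609, nat_lit 13350875166], nat_lit 1271250, nat_lit 1271250, nat_lit 181601, nat_lit 356250, nat_lit 1100001, nat_lit 1442500, [nat_lit 1100000, nat_lit 1442500, nat_lit 1271250], [nat_lit 9, nat_lit 40, nat_lit 20, nat_lit 80, nat_lit 2, nat_lit 289, nat_lit 75, nat_lit 9]⟩, C1.Rw.none,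
 ⟨nat_lit 5700, nat_lit 5810, ⟨.ofNat (nat_lit 227332), .ofNat (nat_lit 281668), .ofNat (nat_lit 238001), .ofNat (nat_lit 292337), .ofNat (nat_lit 231133), .ofNat (nat_lit 284837), .ofNat (nat_lit 241804), .ofNat (nat_lit 295508)⟩, ⟨.ofNat (nat_lit 230324), .ofNat (nat_lit 307946), .ofNat (nat_lit 251663), .ofNat (nat_lit 329285), .ofNat (nat_lit 231202), .ofNat (nat_lit 307921), .ofNat (nat_lit 252544), .ofNat (nat_lit 329263)⟩⟩, [⟨nat_lit 0, nat_lit 100, nat_lit 98, nat_lit 64, nat_lit 189282958⟩]⟩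
noncomputable def p036_l67 : Lf2 := ⟨nat_lit 0, nat_lit 10, [nat_lit 0, nat_lit 5, nat_lit 5, nat_lit 20], true, nat_lit 160, nat_lit 200, nat_lit 0, nat_lit 280, ⟨nat_lit 0, nat_lit 0, nat_lit 1000, nat_lit 6, nat_lit 102, nat_lit 1000, nat_lit 112, nat_lit 1000, nat_lit 117600, nat_lit 299, nat_lit 98817, nat_lit 292, nat_lit 56973291, nat_lit 0, nat_lit 0, nat_lit 2789699, false, false⟩,
 nat_lit 0, nat_lit 8242, nat_lit 0, nat_lit 0, nat_lit 4797, nat_lit 0, nat_lit 0, nat_lit 0, nat_lit 0, nat_lit 0, nat_lit 0, nat_lit 0, nat_lit 0, nat_lit 0, nat_lit 149, nat_lit 755800, nat_lit 0, nat_lit 0, [(nat_lit 9, [(nat_lit 5, nat_lit 407), (nat_lit 6, nat_lit 593)])],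
 ⟨p036_k27, nat_lit 0, nat_lit 0, nat_lit 193, nat_lit 0, nat_lit 217687, [nat_lit 3656121601, nat_lit 2672348001, nat_lit 116455999], [], [nat_lit 12015830012, nat_lit 12637175546, nat_lit 11167527689, nat_lit 11775132024, nat_lit 13442806949, nat_lit 14033480846, nat_lit 12575987250, nat_lit 13155294987], nat_lit 1271250, nat_lit 1271250, nat_lit 157850, nat_lit 356250, nat_lit 1100001, nat_lit 1442500, [nat_lit 1100000, nat_lit 1442500, nat_lit 1271250], [nat_lit 11, nat_lit 40, nat_lit 20, nat_lit 80, nat_lit 1, nat_lit 373, nat_lit 150, nat_lit 11]⟩, C1.Rw.none,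
 ⟨nat_lit 5700, nat_lit 5917, ⟨.ofNat (nat_lit 215652), .ofNat (nat_lit 278479), .ofNat (nat_lit 226322), .ofNat (nat_lit 289149), .ofNat (nat_lit 223462), .ofNat (nat_lit 284837), .ofNat (nat_lit 234133), .ofNat (nat_lit 295508)⟩, ⟨.ofNat (nat_lit 229411), .ofNat (nat_lit 307945), .ofNat (nat_lit 250751), .ofNat (nat_lit 329284), .ofNat (nat_lit 231202), .ofNat (nat_lit 307921), .ofNat (nat_lit 252544), .ofNat (nat_lit 329263)⟩⟩, [⟨nat_lit 0, nat_lit 100, nat_lit 98, nat_lit 64, nat_lit 251067596⟩]⟩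
noncomputable def p036_l68 : Lf2 := ⟨nat_lit 0, nat_lit 10, [nat_lit 0, nat_lit 5, nat_lit 5, nat_lit 20], false, nat_lit 160, nat_lit 180, nat_lit 0, nat_lit 280, ⟨nat_lit 266, nat_lit 0, nat_lit 734, nat_lit 6, nat_lit 123, nat_lit 734, nat_lit 104, nat_lit 734, nat_lit 101400, nat_lit 293, nat_lit 141067, nat_lit 307, nat_lit 55979070, nat_lit 0, nat_lit 0, nat_lit 2974734, false, false⟩,
 nat_lit 11272, nat_lit 0, nat_lit 0, nat_lit 0, nat_lit 6561, nat_lit 6262, nat_lit 1025, nat_lit 0, nat_lit 0, nat_lit 263, nat_lit 0, nat_lit 0, nat_lit 0, nat_lit 0, nat_lit 47, nat_lit 734000, nat_lit 0, nat_lit 0, [(nat_lit 9, [(nat_lit 6, nat_lit 734)])],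
 ⟨p036_k27, nat_lit 0, nat_lit 0, nat_lit 303, nat_lit 0, nat_lit 421918, [nat_lit 2804646401, nat_lit 2287858667, nat_lit 116682133], [], [nat_lit 12058287983, nat_lit 10387581821, nat_lit 8789767194, nat_lit 9889803099, nat_lit 10499971737, nat_lit 11604806606, nat_lit 10597140450, nat_lit 11098376269], nat_lit 1271250, nat_lit 1271250, nat_lit 356250, nat_lit 490000, nat_lit 1100001, nat_lit 1271250, [nat_lit 1100000, nat_lit 1442500, nat_lit 1271250], [nat_lit 11, nat_lit 40, nat_lit 20, nat_lit 80, nat_lit 1, nat_lit 373, nat_lit 150, nat_lit 10]⟩, ⟨p036_k14, nat_lit 0, nat_lit 0, nat_lit 452, nat_lit 0, nat_lit 445905, [nat_lit 1247008000, nat_lit 1662500000, nat_lit 2617972000], [], [nat_lit 7497854684, nat_lit 8057317180, nat_lit 6661261140, nat_lit 7208883244, nat_lit 7975883479, nat_lit 6603949084, nat_lit 8613383046, nat_lit 7195396980], nat_lit 1271250, nat_lit 1271250, nat_lit 356250, nat_lit 490000, nat_lit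 0, nat_lit 1977500, [nat_lit 1100000, nat_lit 1442500, nat_lit 1271250], [nat_lit 11, nat_lit 40, nat_lit 20, nat_lit 80, nat_lit 1, nat_lit 401, nat_lit 175, nat_lit 12]⟩,
 ⟨nat_lit 5700, nat_lit 5917, ⟨.ofNat (nat_lit 278479), .ofNat (nat_lit 317746), .ofNat (nat_lit 289149), .ofNat (nat_lit 328416), .ofNat (nat_lit 284837), .ofNat (nat_lit 323196), .ofNat (nat_lit 295508), .ofNat (nat_lit 333867)⟩, ⟨.ofNat (nat_lit 229411), .ofNat (nat_lit 268678), .ofNat (nat_lit 250751), .ofNat (nat_lit 290018), .ofNat (nat_lit 231202), .ofNat (nat_lit 269561), .ofNat (nat_lit 252544), .ofNat (nat_lit 290903)⟩⟩, [⟨nat_lit 7, nat_lit 100, nat_lit 100, nat_lit 55, nat_lit 37848336⟩]⟩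
noncomputable def p036_l69 : Lf2 := ⟨nat_lit 0, nat_lit 10, [nat_lit 0, nat_lit 5, nat_lit 5, nat_lit 20], false, nat_lit 180, nat_lit 200, nat_lit 0, nat_lit 280, ⟨nat_lit 228, nat_lit 0, nat_lit 772, nat_lit 6, nat_lit 123, nat_lit 772, nat_lit 120, nat_lit 772, nat_lit 135000, nat_lit 305, nat_lit 141067, nat_lit 307, nat_lit 54780924, nat_lit 0, nat_lit 0, nat_lit 3202145, false, false⟩,
 nat_lit 9565, nat_lit 253, nat_lit 0, nat_lit 0, nat_lit 5714, nat_lit 5313, nat_lit 820, nat_lit 0, nat_lit 0, nat_lit 234, nat_lit 0, nat_lit 0, nat_lit 0, nat_lit 0, nat_lit 68, nat_lit 772000, nat_lit 0, nat_lit 0, [(nat_lit 9, [(nat_lit 6, nat_lit 772)])],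
 ⟨p036_k27, nat_lit 0, nat_lit 0, nat_lit 302, nat_lit 0, nat_lit 421918, [nat_lit 3004211200, nat_lit 2454069334, nat_lit 141137066], [], [nat_lit 11691896694, nat_lit 12234443200, nat_lit 11531445144, nat_lit 12061542146, nat_lit 12357891258, nat_lit 12878184642, nat_lit 12182060154, nat_lit 12690463904], nat_lit 1271250, nat_lit 1271250, nat_lit 356250, nat_lit 490000, nat_lit 1271250, nat_lit 1271250, [nat_lit 1100000, nat_lit 1442500, nat_lit 1271250], [nat_lit 11, nat_lit 40, nat_lit 20, nat_lit 80, nat_lit 1, nat_lit 373, nat_lit 150, nat_lit 10]⟩, ⟨p036_k14, nat_lit 0, nat_lit 0, nat_lit 452, nat_lit 0, nat_lit 445905, [nat_lit 1068864000, nat_lit 1425000000, nat_lit 2243976000], [], [nat_lit 6380522586, nat_lit 6856016628, nat_lit 5671656711, nat_lit 6137095626, nat_lit 6863682587, nat_lit 5652714405, nat_lit 7405806657, nat_lit 6202714998], nat_lit 1271250, nat_lit 1271250, nat_lit 356250, nat_lit 490000, nat_lit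 0, nat_lit 1977500, [nat_lit 1100000, nat_lit 1442500, nat_lit 1271250], [nat_lit 11, nat_lit 40, nat_lit 20, nat_lit 80, nat_lit 1, nat_lit 401, nat_lit 175, nat_lit 12]⟩,
 ⟨nat_lit 5700, nat_lit 5917, ⟨.ofNat (nat_lit 278479), .ofNat (nat_lit 317746), .ofNat (nat_lit 289149), .ofNat (nat_lit 328416), .ofNat (nat_lit 284837), .ofNat (nat_lit 323196), .ofNat (nat_lit 295508), .ofNat (nat_lit 333867)⟩, ⟨.ofNat (nat_lit 268678), .ofNat (nat_lit 307945), .ofNat (nat_lit 290018), .ofNat (nat_lit 329284), .ofNat (nat_lit 269561), .ofNat (nat_lit 307921), .ofNat (nat_lit 290903), .ofNat (nat_lit 329263)⟩⟩, [⟨nat_lit 7, nat_lit 100, nat_lit 100, nat_lit 55, nat_lit 33358410⟩]⟩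
noncomputable def p036_l70 : Lf2 := ⟨nat_lit 0, nat_lit 10, [nat_lit 0, nat_lit 5, nat_lit 5, nat_lit 20], false, nat_lit 160, nat_lit 200, nat_lit 0, nat_lit 160, ⟨nat_lit 1000, nat_lit 0, nat_lit 0, nat_lit 0, nat_lit 0, nat_lit 0, nat_lit 0, nat_lit 0, nat_lit 0, nat_lit 0, nat_lit 0, nat_lit 0, nat_lit 0, nat_lit 0, nat_lit 0, nat_lit 0, false, false⟩,
 nat_lit 29642, nat_lit 0, nat_lit 0, nat_lit 0, nat_lit 17254, nat_lit 16467, nat_lit 1799, nat_lit 0, nat_lit 0, nat_lit 3916, nat_lit 0, nat_lit 0, nat_lit 0, nat_lit 0, nat_lit 0, nat_lit 0, nat_lit 0, nat_lit 0, [],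
 ⟨p036_k27, nat_lit 0, nat_lit 0, nat_lit 291, nat_lit 0, nat_lit 421918, [nat_lit 4688000000, nat_lit 6250000000, nat_lit 9842000000], [], [nat_lit 10599346500, nat_lit 8200006037, nat_lit 5659428201, nat_lit 6937433117, nat_lit 9042622361, nat_lit 10223243595, nat_lit 7743229101, nat_lit 8931249347], nat_lit 1271250, nat_lit 1271250, nat_lit 490000, nat_lit 631250, nat_lit 1100001, nat_lit 1442500, [nat_lit 1100000, nat_lit 1442500, nat_lit 1271250], [nat_lit 11, nat_lit 40, nat_lit 20, nat_lit 80, nat_lit 1, nat_lit 373, nat_lit 150, nat_lit 10]⟩, ⟨p036_k14, nat_lit 0, nat_lit 0, nat_lit 440, nat_lit 0, nat_lit 445905, [nat_lit 4688000000, nat_lit 6250000000, nat_lit 9842000000], [], [nat_lit 20368062293, nat_lit 20719259722, nat_lit 16379391764, nat_lit 18955835176, nat_lit 18243399219, nat_lit 14363724618, nat_lit 20353777768, nat_lit 16500236296], nat_lit 1271250, nat_lit 1271250, nat_lit 490000, nat_lit 631250,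 nat_lit 0, nat_lit 1100001, [nat_lit 1100000, nat_lit 1442500, nat_lit 1271250], [nat_lit 11, nat_lit 40, nat_lit 20, nat_lit 80, nat_lit 1, nat_lit 373, nat_lit 150, nat_lit 11]⟩,
 zbF0, []⟩
noncomputable def p036_l71 : Lf2 := ⟨nat_lit 0, nat_lit 10, [nat_lit 0, nat_lit 5, nat_lit 5, nat_lit 20], false, nat_lit 160, nat_lit 200, nat_lit 0, nat_lit 160, ⟨nat_lit 1000, nat_lit 0, nat_lit 0, nat_lit 0, nat_lit 0, nat_lit 0, nat_lit 0, nat_lit 0, nat_lit 0, nat_lit 0, nat_lit 0, nat_lit 0, nat_lit 0, nat_lit 0, nat_lit 0, nat_lit 0, false, false⟩,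
 nat_lit 14420, nat_lit 2479, nat_lit 0, nat_lit 0, nat_lit 9836, nat_lit 8011, nat_lit 2838, nat_lit 0, nat_lit 0, nat_lit 174, nat_lit 0, nat_lit 0, nat_lit 0, nat_lit 0, nat_lit 0, nat_lit 0, nat_lit 0, nat_lit 0, [],
 ⟨p036_k27, nat_lit 0, nat_lit 0, nat_lit 281, nat_lit 0, nat_lit 421918, [nat_lit 4688000000, nat_lit 6250000000, nat_lit 9842000000], [], [nat_lit 13644707040, nat_lit 11140048328, nat_lit 8652819008, nat_lit 9306554814, nat_lit 10839840470, nat_lit 11134588362, nat_lit 12436528874, nat_lit 10991743908], nat_lit 1271250, nat_lit 1271250, nat_lit 631250, nat_lit 780000, nat_lit 1100001, nat_lit 1442500, [nat_lit 1100000, nat_lit 1442500, nat_lit 1271250], [nat_lit 11, nat_lit 40, nat_lit 20, nat_lit 80, nat_lit 1, nat_lit 373, nat_lit 150, nat_lit 10]⟩, ⟨p036_k14, nat_lit 0, nat_lit 0, nat_lit 430, nat_lit 0, nat_lit 445905, [nat_lit 4688000000, nat_lit 6250000000, nat_lit 9842000000], [], [nat_lit 38210900800,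 nat_lit 37242633564, nat_lit 36559105196, nat_lit 36962655804, nat_lit 33522982744, nat_lit 32634397464, nat_lit 35134522567, nat_lit 33272357606], nat_lit 1271250, nat_lit 1271250, nat_lit 631250, nat_lit 780000, nat_lit 0, nat_lit 1100001, [nat_lit 1100000, nat_lit 1442500, nat_lit 1271250], [nat_lit 11, nat_lit 40, nat_lit 20, nat_lit 80, nat_lit 1, nat_lit 373, nat_lit 150, nat_lit 11]⟩,
 zbF0, []⟩
noncomputable def p036_l72 : Lf2 := ⟨nat_lit 0, nat_lit 10, [nat_lit 0, nat_lit 5, nat_lit 5, nat_lit 20], false, nat_lit 160, nat_lit 200, nat_lit 160, nat_lit 280, ⟨nat_lit 1000, nat_lit 0, nat_lit 0, nat_lit 0, nat_lit 0, nat_lit 0, nat_lit 0, nat_lit 0, nat_lit 0, nat_lit 0, nat_lit 0, nat_lit 0, nat_lit 0, nat_lit 0, nat_lit 0, nat_lit 0, false, false⟩,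
 nat_lit 23582, nat_lit 0, nat_lit 0, nat_lit 0, nat_lit 13726, nat_lit 13101, nat_lit 2299, nat_lit 0, nat_lit 0, nat_lit 1976, nat_lit 0, nat_lit 0, nat_lit 0, nat_lit 0, nat_lit 0, nat_lit 0, nat_lit 0, nat_lit 0, [],
 ⟨p036_k27, nat_lit 0, nat_lit 0, nat_lit 291, nat_lit 0, nat_lit 421918, [nat_lit 4688000000, nat_lit 6250000000, nat_lit 9842000000], [], [nat_lit 14438692500, nat_lit 10917575446, nat_lit 6584161609, nat_lit 7629488799, nat_lit 9909784709, nat_lit 10911815055, nat_lit 8384313607, nat_lit 9584159078], nat_lit 1271250, nat_lit 1271250, nat_lit 490000, nat_lit 780000, nat_lit 1100001, nat_lit 1442500, [nat_lit 1100000, nat_lit 1442500, nat_lit 1271250], [nat_lit 11, nat_lit 40, nat_lit 20, nat_lit 80, nat_lit 1, nat_lit 373, nat_lit 150, nat_lit 10]⟩, ⟨p036_k14, nat_lit 0, nat_lit 0, nat_lit 302, nat_lit 0, nat_lit 445905, [nat_lit 4688000000, nat_lit 6250000000, nat_lit 9842000000], [], [nat_lit 18479635179,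 nat_lit 15118848750, nat_lit 8246738169, nat_lit 9258587234, nat_lit 20541107135, nat_lit 19118321273, nat_lit 24248288711, nat_lit 21118577720], nat_lit 1271250, nat_lit 1271250, nat_lit 490000, nat_lit 780000, nat_lit 1100001, nat_lit 2127500, [nat_lit 1100000, nat_lit 1442500, nat_lit 1271250], [nat_lit 11, nat_lit 40, nat_lit 20, nat_lit 80, nat_lit 1, nat_lit 401, nat_lit 175, nat_lit 11]⟩,
 zbF0, [⟨nat_lit 7, nat_lit 100, nat_lit 100, nat_lit 55, nat_lit 546608579⟩]⟩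
noncomputable def b_VL_600_600_5_43 : St := ⟨true, nat_lit 1, nat_lit 1, nat_lit 1, nat_lit 40, nat_lit 260, nat_lit 270, nat_lit 250, nat_lit 260, nat_lit 28, nat_lit 120, nat_lit 20, nat_lit 40, nat_lit 160, nat_lit 200, nat_lit 0, nat_lit 280, nat_lit 0, nat_lit 40, nat_lit 0, nat_lit 0, nat_lit 0, nat_lit 0⟩
theorem d_VL_600_600_5_43 (h : EB TB.env) : Dead b_VL_600_600_5_43 := chkB_sound0 h (T :=
(.spl (nat_lit 2) (nat_lit 80)
(.spl (nat_lit 2) (nat_lit 60)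
(.spl (nat_lit 6) (nat_lit 20)
(.spl (nat_lit 6) (nat_lit 8)
(.spl (nat_lit 1) (nat_lit 255)
(.leaf p036_l63)
(.trZ (nat_lit 0) (nat_lit 100) (nat_lit 99) (nat_lit 57) (nat_lit 32) (.trX (nat_lit 19) (nat_lit 100) (nat_lit 97) (nat_lit 62) (nat_lit 272) (.leaf p036_l64))))
(.spl (nat_lit 0) (nat_lit 265)
(.leaf p036_l65)
(.trZ (nat_lit 0) (nat_lit 100) (nat_lit 98) (nat_lit 57) (nat_lit 32) (.leaf p036_l66))))
(.leaf p036_l67))
(.spl (nat_lit 4) (nat_lit 180)
(.leaf p036_l68)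
(.leaf p036_l69)))
(.spl (nat_lit 5) (nat_lit 160)
(.spl (nat_lit 2) (nat_lit 100)
(.leaf p036_l70)
(.leaf p036_l71))
(.leaf p036_l72)))) (by decide +kernel)
noncomputable def p036_l73 : Lf2 := ⟨nat_lit 0, nat_lit 1, [nat_lit 19, nat_lit 5, nat_lit 5, nat_lit 20], true, nat_lit 200, nat_lit 240, nat_lit 0, nat_lit 280, ⟨nat_lit 0, nat_lit 0, nat_lit 1000, nat_lit 6, nat_lit 101, nat_lit 1000, nat_lit 143, nat_lit 1000, nat_lit 190817, nat_lit 322, nat_lit 96267, nat_lit 291, nat_lit 54453260, nat_lit 0, nat_lit 0, nat_lit 3219089, false, false⟩,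
 nat_lit 0, nat_lit 6461, nat_lit 0, nat_lit 0, nat_lit 3760, nat_lit 0, nat_lit 0, nat_lit 0, nat_lit 0, nat_lit 0, nat_lit 0, nat_lit 0, nat_lit 0, nat_lit 0, nat_lit 4, nat_lit 1000000, nat_lit 0, nat_lit 0, [(nat_lit 9, [(nat_lit 6, nat_lit 1000)])],
 ⟨p036_k33, nat_lit 0, nat_lit 0, nat_lit 0, nat_lit 0, nat_lit 350536, [nat_lit 1016400001, nat_lit 17200000], [], [nat_lit 13244891154, nat_lit 13816192474, nat_lit 12924719921, nat_lit 13481493401, nat_lit 14979675074, nat_lit 15696974360, nat_lit 14621296321, nat_lit 15147190242], nat_lit 1271250, nat_lit 1271250, nat_lit 157850, nat_lit 356250, nat_lit 1271250, nat_lit 1271250, [nat_lit 936250, nat_lit 1271250], [nat_lit 274, nat_lit 40, nat_lit 20, nat_lit 40]⟩, C1.Rw.none,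
 ⟨nat_lit 5700, nat_lit 5917, ⟨.ofNat (nat_lit 215652), .ofNat (nat_lit 278479), .ofNat (nat_lit 220987), .ofNat (nat_lit 283814), .ofNat (nat_lit 223462), .ofNat (nat_lit 284837), .ofNat (nat_lit 228797), .ofNat (nat_lit 290172)⟩, ⟨.ofNat (nat_lit 307945), .ofNat (nat_lit 386479), .ofNat (nat_lit 329284), .ofNat (nat_lit 407818), .ofNat (nat_lit 307921), .ofNat (nat_lit 384640), .ofNat (nat_lit 329263), .ofNat (nat_lit 405982)⟩⟩, [⟨nat_lit 0, nat_lit 100, nat_lit 98, nat_lit 58, nat_lit 166763472⟩, ⟨nat_lit 4, nat_lit 100, nat_lit 97, nat_lit 54, nat_lit 316929468⟩]⟩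
noncomputable def p036_l74 : Lf2 := ⟨nat_lit 0, nat_lit 1, [nat_lit 19, nat_lit 5, nat_lit 5, nat_lit 20], true, nat_lit 200, nat_lit 240, nat_lit 0, nat_lit 272, ⟨nat_lit 0, nat_lit 0, nat_lit 1000, nat_lit 6, nat_lit 105, nat_lit 1000, nat_lit 143, nat_lit 1000, nat_lit 190817, nat_lit 322, nat_lit 104017, nat_lit 294, nat_lit 54187491, nat_lit 0, nat_lit 0, nat_lit 3272710, false, false⟩,
 nat_lit 0, nat_lit 6487, nat_lit 0, nat_lit 0, nat_lit 3775, nat_lit 0, nat_lit 334, nat_lit 0, nat_lit 0, nat_lit 0, nat_lit 0, nat_lit 0, nat_lit 0, nat_lit 0, nat_lit 4, nat_lit 1000000, nat_lit 0, nat_lit 0, [(nat_lit 9, [(nat_lit 6, nat_lit 1000)])],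
 ⟨p036_k34, nat_lit 0, nat_lit 0, nat_lit 0, nat_lit 0, nat_lit 370905, [nat_lit 1016400001, nat_lit 502800001, nat_lit 17200000], [], [nat_lit 13013644272, nat_lit 13608408068, nat_lit 12764692952, nat_lit 13351254877, nat_lit 14852727453, nat_lit 15570522976, nat_lit 14572738802, nat_lit 15120002352], nat_lit 1271250, nat_lit 1271250, nat_lit 181601, nat_lit 356250, nat_lit 1271250, nat_lit 1271250, [nat_lit 936250, nat_lit 1100000, nat_lit 1271250], [nat_lit 219, nat_lit 40, nat_lit 20, nat_lit 40]⟩, C1.Rw.none,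
 ⟨nat_lit 5700, nat_lit 5917, ⟨.ofNat (nat_lit 228840), .ofNat (nat_lit 283814), .ofNat (nat_lit 234175), .ofNat (nat_lit 289149), .ofNat (nat_lit 236469), .ofNat (nat_lit 290172), .ofNat (nat_lit 241804), .ofNat (nat_lit 295508)⟩, ⟨.ofNat (nat_lit 307945), .ofNat (nat_lit 386479), .ofNat (nat_lit 329284), .ofNat (nat_lit 407818), .ofNat (nat_lit 307921), .ofNat (nat_lit 384640), .ofNat (nat_lit 329263), .ofNat (nat_lit 405982)⟩⟩, [⟨nat_lit 0, nat_lit 100, nat_lit 99, nat_lit 61, nat_lit 161424299⟩, ⟨nat_lit 4, nat_lit 100, nat_lit 97, nat_lit 54, nat_lit 341817053⟩]⟩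
noncomputable def p036_l75 : Lf2 := ⟨nat_lit 0, nat_lit 2, [nat_lit 10, nat_lit 5, nat_lit 5, nat_lit 20], true, nat_lit 200, nat_lit 240, nat_lit 0, nat_lit 280, ⟨nat_lit 0, nat_lit 0, nat_lit 1000, nat_lit 6, nat_lit 102, nat_lit 1000, nat_lit 143, nat_lit 1000, nat_lit 190817, nat_lit 322, nat_lit 98817, nat_lit 292, nat_lit 54376719, nat_lit 0, nat_lit 0, nat_lit 3234671, false, false⟩,
 nat_lit 0, nat_lit 6461, nat_lit 0, nat_lit 0, nat_lit 3760, nat_lit 0, nat_lit 0, nat_lit 0, nat_lit 0, nat_lit 0, nat_lit 0, nat_lit 0, nat_lit 0, nat_lit 0, nat_lit 37, nat_lit 1000000, nat_lit 0, nat_lit 0, [(nat_lit 9, [(nat_lit 6, nat_lit 1000)])],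
 ⟨p036_k35, nat_lit 0, nat_lit 0, nat_lit 0, nat_lit 0, nat_lit 331962, [nat_lit 1478400001, nat_lit 611200001, nat_lit 0], [], [nat_lit 13279084738, nat_lit 13829208769, nat_lit 12945066961, nat_lit 13481493402, nat_lit 14979675075, nat_lit 15696974360, nat_lit 14621296322, nat_lit 15147190242], nat_lit 1271250, nat_lit 1271250, nat_lit 157850, nat_lit 356250, nat_lit 1271250, nat_lit 1271250, [nat_lit 936250, nat_lit 1271250, nat_lit 1271250], [nat_lit 185, nat_lit 40, nat_lit 20, nat_lit 40]⟩, C1.Rw.none,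
 ⟨nat_lit 5700, nat_lit 5917, ⟨.ofNat (nat_lit 215652), .ofNat (nat_lit 278479), .ofNat (nat_lit 226322), .ofNat (nat_lit 289149), .ofNat (nat_lit 223462), .ofNat (nat_lit 284837), .ofNat (nat_lit 234133), .ofNat (nat_lit 295508)⟩, ⟨.ofNat (nat_lit 307945), .ofNat (nat_lit 386479), .ofNat (nat_lit 329284), .ofNat (nat_lit 407818), .ofNat (nat_lit 307921), .ofNat (nat_lit 384640), .ofNat (nat_lit 329263), .ofNat (nat_lit 405982)⟩⟩, [⟨nat_lit 0, nat_lit 100, nat_lit 98, nat_lit 60, nat_lit 173647589⟩, ⟨nat_lit 16, nat_lit 97, nat_lit 100, nat_lit 54, nat_lit 302943049⟩]⟩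
noncomputable def p036_l76 : Lf2 := ⟨nat_lit 0, nat_lit 2, [nat_lit 10, nat_lit 5, nat_lit 5, nat_lit 20], true, nat_lit 200, nat_lit 240, nat_lit 0, nat_lit 280, ⟨nat_lit 0, nat_lit 0, nat_lit 1000, nat_lit 6, nat_lit 102, nat_lit 1000, nat_lit 143, nat_lit 1000, nat_lit 190817, nat_lit 322, nat_lit 98817, nat_lit 292, nat_lit 54376719, nat_lit 0, nat_lit 0, nat_lit 3234671, false, false⟩,
 nat_lit 0, nat_lit 578947, nat_lit 0, nat_lit 0, nat_lit 336999, nat_lit 0, nat_lit 60000, nat_lit 20000, nat_lit 0, nat_lit 0, nat_lit 0, nat_lit 0, nat_lit 0, nat_lit 0, nat_lit 0, nat_lit 1000000, nat_lit 0, nat_lit 0, [(nat_lit 9, [(nat_lit 6, nat_lit 1000)])],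
 ⟨p036_k25, nat_lit 0, nat_lit 0, nat_lit 176, nat_lit 0, nat_lit 376573, [nat_lit 321097600000, nat_lit 399260000000], [], [nat_lit 116723612183, nat_lit 136693587851, nat_lit 35627709703, nat_lit 54861581541, nat_lit 149416175264, nat_lit 166706148850, nat_lit 67076199630, nat_lit 83719557121], nat_lit 1271250, nat_lit 1271250, nat_lit 157850, nat_lit 356250, nat_lit 1271250, nat_lit 1271250, [nat_lit 1100000, nat_lit 1442500], [nat_lit 31, nat_lit 40, nat_lit 20, nat_lit 80, nat_lit 3, nat_lit 226, nat_lit 20, nat_lit 8]⟩, C1.Rw.none,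
 ⟨nat_lit 5700, nat_lit 5917, ⟨.ofNat (nat_lit 215652), .ofNat (nat_lit 278479), .ofNat (nat_lit 226322), .ofNat (nat_lit 289149), .ofNat (nat_lit 223462), .ofNat (nat_lit 284837), .ofNat (nat_lit 234133), .ofNat (nat_lit 295508)⟩, ⟨.ofNat (nat_lit 307945), .ofNat (nat_lit 386479), .ofNat (nat_lit 329284), .ofNat (nat_lit 407818), .ofNat (nat_lit 307921), .ofNat (nat_lit 384640), .ofNat (nat_lit 329263), .ofNat (nat_lit 405982)⟩⟩, [⟨nat_lit 0, nat_lit 100, nat_lit 98, nat_lit 60, nat_lit 3138051684⟩, ⟨nat_lit 0, nat_lit 100, nat_lit 98, nat_lit 64, nat_lit 10204081633⟩, ⟨nat_lit 16, nat_lit 97, nat_lit 100, nat_lit 54, nat_lit 10309278351⟩, ⟨nat_lit 16, nat_lit 100, nat_lit 99, nat_lit 63, nat_lit 4384960476⟩, ⟨nat_lit 4, nat_lit 100, nat_lit 97, nat_lit 54, nat_lit 10309278351⟩]⟩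
noncomputable def p036_l77 : Lf2 := ⟨nat_lit 0, nat_lit 2, [nat_lit 10, nat_lit 5, nat_lit 5, nat_lit 20], false, nat_lit 200, nat_lit 240, nat_lit 0, nat_lit 280, ⟨nat_lit 216, nat_lit 0, nat_lit 784, nat_lit 6, nat_lit 123, nat_lit 784, nat_lit 143, nat_lit 784, nat_lit 190817, nat_lit 322, nat_lit 141067, nat_lit 307, nat_lit 52873686, nat_lit 0, nat_lit 0, nat_lit 3519282, false, false⟩,
 nat_lit 8135, nat_lit 906, nat_lit 0, nat_lit 0, nat_lit 5262, nat_lit 4519, nat_lit 254, nat_lit 0, nat_lit 0, nat_lit 1030, nat_lit 0, nat_lit 0, nat_lit 0, nat_lit 0, nat_lit 0, nat_lit 784000, nat_lit 0, nat_lit 0, [(nat_lit 9, [(nat_lit 6, nat_lit 784)])],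
 ⟨p036_k25, nat_lit 0, nat_lit 0, nat_lit 159, nat_lit 0, nat_lit 376573, [nat_lit 1873126401, nat_lit 769840000], [], [nat_lit 12851908465, nat_lit 13456059489, nat_lit 12700682461, nat_lit 13317146589, nat_lit 14518159654, nat_lit 15116054830, nat_lit 14358748670, nat_lit 14941875440], nat_lit 1271250, nat_lit 1271250, nat_lit 356250, nat_lit 490000, nat_lit 1271250, nat_lit 1271250, [nat_lit 1100000, nat_lit 1442500], [nat_lit 31, nat_lit 40, nat_lit 20, nat_lit 80, nat_lit 3, nat_lit 226, nat_lit 20, nat_lit 8]⟩, ⟨p036_k6, nat_lit 0, nat_lit 0, nat_lit 323, nat_lit 0, nat_lit 396861, [nat_lit 1012608000, nat_lit 1350000000, nat_lit 1721088000], [], [nat_lit 5935525570, nat_lit 5998100148, nat_lit 4506127127, nat_lit 5201541602, nat_lit 6159556474, nat_lit 5140421370, nat_lit 6632472215, nat_lit 5609176298], nat_lit 1271250, nat_lit 1271250, nat_lit 356250, nat_lit 490000, nat_lit 0, nat_lit 1977500, [nat_lit 1100000,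 nat_lit 1442500, nat_lit 1271250], [nat_lit 9, nat_lit 40, nat_lit 20, nat_lit 80, nat_lit 2, nat_lit 317, nat_lit 100, nat_lit 11]⟩,
 ⟨nat_lit 5700, nat_lit 5917, ⟨.ofNat (nat_lit 278479), .ofNat (nat_lit 317746), .ofNat (nat_lit 289149), .ofNat (nat_lit 328416), .ofNat (nat_lit 284837), .ofNat (nat_lit 323196), .ofNat (nat_lit 295508), .ofNat (nat_lit 333867)⟩, ⟨.ofNat (nat_lit 307945), .ofNat (nat_lit 386479), .ofNat (nat_lit 329284), .ofNat (nat_lit 407818), .ofNat (nat_lit 307921), .ofNat (nat_lit 384640), .ofNat (nat_lit 329263), .ofNat (nat_lit 405982)⟩⟩, [⟨nat_lit 4, nat_lit 100, nat_lit 97, nat_lit 54, nat_lit 417511227⟩, ⟨nat_lit 7, nat_lit 100, nat_lit 100, nat_lit 55, nat_lit 41388887⟩]⟩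
noncomputable def p036_l78 : Lf2 := ⟨nat_lit 0, nat_lit 3, [nat_lit 45, nat_lit 5, nat_lit 5, nat_lit 20], true, nat_lit 200, nat_lit 240, nat_lit 0, nat_lit 280, ⟨nat_lit 0, nat_lit 0, nat_lit 1000, nat_lit 6, nat_lit 90, nat_lit 1000, nat_lit 143, nat_lit 1000, nat_lit 190817, nat_lit 322, nat_lit 77067, nat_lit 283, nat_lit 55213757, nat_lit 0, nat_lit 0, nat_lit 3057814, false, false⟩,
 nat_lit 0, nat_lit 7524, nat_lit 0, nat_lit 0, nat_lit 4379, nat_lit 0, nat_lit 0, nat_lit 0, nat_lit 0, nat_lit 0, nat_lit 0, nat_lit 0, nat_lit 0, nat_lit 0, nat_lit 117, nat_lit 1000000, nat_lit 0, nat_lit 0, [(nat_lit 9, [(nat_lit 6, nat_lit 1000)])],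
 ⟨p036_k36, nat_lit 0, nat_lit 0, nat_lit 185, nat_lit 0, nat_lit 277448, [nat_lit 2969600000, nat_lit 1600000000, nat_lit 226400000], [], [nat_lit 13491444257, nat_lit 14103658508, nat_lit 13403703463, nat_lit 14014198609, nat_lit 15213714761, nat_lit 15989498904, nat_lit 15051082665, nat_lit 15824585308], nat_lit 1271250, nat_lit 1271250, nat_lit 157850, nat_lit 181601, nat_lit 1271250, nat_lit 1271250, [nat_lit 1100000, nat_lit 1442500, nat_lit 1271250], [nat_lit 9, nat_lit 40, nat_lit 20, nat_lit 80, nat_lit 2, nat_lit 289, nat_lit 75, nat_lit 9]⟩, C1.Rw.none,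
 ⟨nat_lit 5700, nat_lit 5917, ⟨.ofNat (nat_lit 215652), .ofNat (nat_lit 223506), .ofNat (nat_lit 220987), .ofNat (nat_lit 228840), .ofNat (nat_lit 223462), .ofNat (nat_lit 231133), .ofNat (nat_lit 228797), .ofNat (nat_lit 236469)⟩, ⟨.ofNat (nat_lit 307945), .ofNat (nat_lit 386479), .ofNat (nat_lit 329284), .ofNat (nat_lit 407818), .ofNat (nat_lit 307921), .ofNat (nat_lit 384640), .ofNat (nat_lit 329263), .ofNat (nat_lit 405982)⟩⟩, [⟨nat_lit 0, nat_lit 100, nat_lit 99, nat_lit 55, nat_lit 1216844640⟩, ⟨nat_lit 4, nat_lit 100, nat_lit 97, nat_lit 54, nat_lit 296042888⟩]⟩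
noncomputable def p036_l79 : Lf2 := ⟨nat_lit 0, nat_lit 3, [nat_lit 45, nat_lit 5, nat_lit 5, nat_lit 20], true, nat_lit 200, nat_lit 240, nat_lit 0, nat_lit 280, ⟨nat_lit 0, nat_lit 0, nat_lit 1000, nat_lit 6, nat_lit 95, nat_lit 1000, nat_lit 143, nat_lit 1000, nat_lit 190817, nat_lit 322, nat_lit 84017, nat_lit 286, nat_lit 54892197, nat_lit 0, nat_lit 0, nat_lit 3127482, false, false⟩,
 nat_lit 0, nat_lit 7482, nat_lit 0, nat_lit 0, nat_lit 4355, nat_lit 0, nat_lit 0, nat_lit 0, nat_lit 0, nat_lit 0, nat_lit 0, nat_lit 0, nat_lit 0, nat_lit 0, nat_lit 117, nat_lit 1000000, nat_lit 0, nat_lit 0, [(nat_lit 9, [(nat_lit 6, nat_lit 1000)])],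
 ⟨p036_k36, nat_lit 0, nat_lit 0, nat_lit 181, nat_lit 0, nat_lit 277448, [nat_lit 2969600000, nat_lit 1600000000, nat_lit 226400000], [], [nat_lit 13446831536, nat_lit 14055751031, nat_lit 13273052365, nat_lit 13878545568, nat_lit 15091452978, nat_lit 15814490116, nat_lit 14911074050, nat_lit 15487156185], nat_lit 1271250, nat_lit 1271250, nat_lit 181601, nat_lit 230001, nat_lit 1271250, nat_lit 1271250, [nat_lit 1100000, nat_lit 1442500, nat_lit 1271250], [nat_lit 9, nat_lit 40, nat_lit 20, nat_lit 80, nat_lit 2, nat_lit 289, nat_lit 75, nat_lit 9]⟩, C1.Rw.none,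
 ⟨nat_lit 5700, nat_lit 5917, ⟨.ofNat (nat_lit 223506), .ofNat (nat_lit 239212), .ofNat (nat_lit 228840), .ofNat (nat_lit 244547), .ofNat (nat_lit 231133), .ofNat (nat_lit 246477), .ofNat (nat_lit 236469), .ofNat (nat_lit 251813)⟩, ⟨.ofNat (nat_lit 307945), .ofNat (nat_lit 386479), .ofNat (nat_lit 329284), .ofNat (nat_lit 407818), .ofNat (nat_lit 307921), .ofNat (nat_lit 384640), .ofNat (nat_lit 329263), .ofNat (nat_lit 405982)⟩⟩, [⟨nat_lit 0, nat_lit 100, nat_lit 98, nat_lit 58, nat_lit 229436352⟩, ⟨nat_lit 4, nat_lit 100, nat_lit 97, nat_lit 54, nat_lit 293802615⟩]⟩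
noncomputable def p036_l80 : Lf2 := ⟨nat_lit 0, nat_lit 4, [nat_lit 38, nat_lit 5, nat_lit 5, nat_lit 20], true, nat_lit 200, nat_lit 240, nat_lit 0, nat_lit 280, ⟨nat_lit 0, nat_lit 0, nat_lit 1000, nat_lit 6, nat_lit 94, nat_lit 1000, nat_lit 143, nat_lit 1000, nat_lit 190817, nat_lit 322, nat_lit 81667, nat_lit 285, nat_lit 55000132, nat_lit 0, nat_lit 0, nat_lit 3104346, false, false⟩,
 nat_lit 0, nat_lit 8104, nat_lit 0, nat_lit 0, nat_lit 4717, nat_lit 0, nat_lit 0, nat_lit 0, nat_lit 0, nat_lit 0, nat_lit 0, nat_lit 0, nat_lit 0, nat_lit 0, nat_lit 77, nat_lit 613600, nat_lit 0, nat_lit 0, [(nat_lit 9, [(nat_lit 5, nat_lit 644), (nat_lit 6, nat_lit 356)])],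
 ⟨p036_k37, nat_lit 0, nat_lit 0, nat_lit 172, nat_lit 0, nat_lit 245621, [nat_lit 2605747200, nat_lit 1143638401, nat_lit 153574399], [], [nat_lit 13466427182, nat_lit 14082828075, nat_lit 13149153571, nat_lit 13778233065, nat_lit 15342768299, nat_lit 16149229592, nat_lit 14828532670, nat_lit 15601818599], nat_lit 1271250, nat_lit 1271250, nat_lit 157850, nat_lit 230001, nat_lit 1271250, nat_lit 1271250, [nat_lit 1100000, nat_lit 1442500, nat_lit 1271250], [nat_lit 9, nat_lit 40, nat_lit 20, nat_lit 80, nat_lit 2, nat_lit 289, nat_lit 75, nat_lit 9]⟩, C1.Rw.none,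
 ⟨nat_lit 5700, nat_lit 5917, ⟨.ofNat (nat_lit 215652), .ofNat (nat_lit 239212), .ofNat (nat_lit 220987), .ofNat (nat_lit 244547), .ofNat (nat_lit 223462), .ofNat (nat_lit 246477), .ofNat (nat_lit 228797), .ofNat (nat_lit 251813)⟩, ⟨.ofNat (nat_lit 307945), .ofNat (nat_lit 386479), .ofNat (nat_lit 329284), .ofNat (nat_lit 407818), .ofNat (nat_lit 307921), .ofNat (nat_lit 384640), .ofNat (nat_lit 329263), .ofNat (nat_lit 405982)⟩⟩, [⟨nat_lit 0, nat_lit 100, nat_lit 98, nat_lit 58, nat_lit 341655683⟩, ⟨nat_lit 16, nat_lit 97, nat_lit 100, nat_lit 54, nat_lit 303678272⟩]⟩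
noncomputable def p036_l81 : Lf2 := ⟨nat_lit 0, nat_lit 4, [nat_lit 38, nat_lit 5, nat_lit 5, nat_lit 20], true, nat_lit 200, nat_lit 240, nat_lit 0, nat_lit 280, ⟨nat_lit 0, nat_lit 0, nat_lit 1000, nat_lit 6, nat_lit 106, nat_lit 1000, nat_lit 143, nat_lit 1000, nat_lit 190817, nat_lit 322, nat_lit 104017, nat_lit 294, nat_lit 54116873, nat_lit 0, nat_lit 0, nat_lit 3286733, false, false⟩,
 nat_lit 0, nat_lit 7464, nat_lit 0, nat_lit 0, nat_lit 4344, nat_lit 0, nat_lit 0, nat_lit 0, nat_lit 0, nat_lit 0, nat_lit 0, nat_lit 0, nat_lit 0, nat_lit 0, nat_lit 117, nat_lit 1000000, nat_lit 0, nat_lit 0, [(nat_lit 9, [(nat_lit 6, nat_lit 1000)])],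
 ⟨p036_k37, nat_lit 0, nat_lit 0, nat_lit 174, nat_lit 0, nat_lit 280799, [nat_lit 2969600000, nat_lit 1600000000, nat_lit 226400000], [], [nat_lit 13293599672, nat_lit 13898376164, nat_lit 13090242368, nat_lit 13684238944, nat_lit 14930364640, nat_lit 15485462064, nat_lit 14702635424, nat_lit 15248055856], nat_lit 1271250, nat_lit 1271250, nat_lit 230001, nat_lit 356250, nat_lit 1271250, nat_lit 1271250, [nat_lit 1100000, nat_lit 1442500, nat_lit 1271250], [nat_lit 9, nat_lit 40, nat_lit 20, nat_lit 80, nat_lit 2, nat_lit 289, nat_lit 75, nat_lit 9]⟩, C1.Rw.none,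
 ⟨nat_lit 5700, nat_lit 5917, ⟨.ofNat (nat_lit 239212), .ofNat (nat_lit 278479), .ofNat (nat_lit 244547), .ofNat (nat_lit 283814), .ofNat (nat_lit 246477), .ofNat (nat_lit 284837), .ofNat (nat_lit 251813), .ofNat (nat_lit 290172)⟩, ⟨.ofNat (nat_lit 307945), .ofNat (nat_lit 386479), .ofNat (nat_lit 329284), .ofNat (nat_lit 407818), .ofNat (nat_lit 307921), .ofNat (nat_lit 384640), .ofNat (nat_lit 329263), .ofNat (nat_lit 405982)⟩⟩, [⟨nat_lit 4, nat_lit 100, nat_lit 97, nat_lit 54, nat_lit 293383410⟩]⟩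
noncomputable def p036_l82 : Lf2 := ⟨nat_lit 0, nat_lit 4, [nat_lit 38, nat_lit 5, nat_lit 5, nat_lit 20], false, nat_lit 200, nat_lit 240, nat_lit 0, nat_lit 160, ⟨nat_lit 479, nat_lit 0, nat_lit 521, nat_lit 6, nat_lit 97, nat_lit 521, nat_lit 143, nat_lit 521, nat_lit 190817, nat_lit 322, nat_lit 88817, nat_lit 288, nat_lit 54742640, nat_lit 0, nat_lit 0, nat_lit 3159135, false, false⟩,
 nat_lit 10980, nat_lit 0, nat_lit 0, nat_lit 0, nat_lit 6391, nat_lit 6245, nat_lit 1010, nat_lit 0, nat_lit 0, nat_lit 492, nat_lit 0, nat_lit 0, nat_lit 0, nat_lit 0, nat_lit 0, nat_lit 521000, nat_lit 0, nat_lit 0, [(nat_lit 9, [(nat_lit 6, nat_lit 521)])],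
 ⟨p036_k37, nat_lit 0, nat_lit 0, nat_lit 191, nat_lit 0, nat_lit 302183, [nat_lit 2817401600, nat_lit 2608210000, nat_lit 2452977400], [], [nat_lit 13904466846, nat_lit 14645896316, nat_lit 13496097712, nat_lit 14233957217, nat_lit 15714178407, nat_lit 16670898903, nat_lit 15279637732, nat_lit 16132053077], nat_lit 1271250, nat_lit 1271250, nat_lit 181601, nat_lit 230001, nat_lit 1271250, nat_lit 1271250, [nat_lit 1100000, nat_lit 1442500, nat_lit 1271250], [nat_lit 9, nat_lit 40, nat_lit 20, nat_lit 80, nat_lit 2, nat_lit 289, nat_lit 75, nat_lit 9]⟩, ⟨p036_k38, nat_lit 0, nat_lit 0, nat_lit 310, nat_lit 0, nat_lit 310258, [nat_lit 2245552000, nat_lit 2993750000, nat_lit 3816672000], [], [nat_lit 12054354502, nat_lit 12032273085, nat_lit 10765325301, nat_lit 11200987200, nat_lit 9895244306, nat_lit 9147385572, nat_lit 9997341210, nat_lit 9251550820], nat_lit 1271250, nat_lit 1271250, nat_lit 181601, nat_lit 230001,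 nat_lit 0, nat_lit 1100001, [nat_lit 1100000, nat_lit 1442500, nat_lit 1271250], [nat_lit 9, nat_lit 40, nat_lit 20, nat_lit 80, nat_lit 2, nat_lit 260, nat_lit 50, nat_lit 9]⟩,
 ⟨nat_lit 5700, nat_lit 5917, ⟨.ofNat (nat_lit 228840), .ofNat (nat_lit 244547), .ofNat (nat_lit 234175), .ofNat (nat_lit 249882), .ofNat (nat_lit 236469), .ofNat (nat_lit 251813), .ofNat (nat_lit 241804), .ofNat (nat_lit 257148)⟩, ⟨.ofNat (nat_lit 307945), .ofNat (nat_lit 386479), .ofNat (nat_lit 329284), .ofNat (nat_lit 407818), .ofNat (nat_lit 307921), .ofNat (nat_lit 384640), .ofNat (nat_lit 329263), .ofNat (nat_lit 405982)⟩⟩, [⟨nat_lit 0, nat_lit 100, nat_lit 99, nat_lit 57, nat_lit 606993679⟩, ⟨nat_lit 4, nat_lit 100, nat_lit 97, nat_lit 54, nat_lit 571623910⟩]⟩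
noncomputable def p036_l83 : Lf2 := ⟨nat_lit 0, nat_lit 4, [nat_lit 38, nat_lit 5, nat_lit 5, nat_lit 20], false, nat_lit 200, nat_lit 220, nat_lit 160, nat_lit 272, ⟨nat_lit 142, nat_lit 0, nat_lit 858, nat_lit 6, nat_lit 97, nat_lit 858, nat_lit 135, nat_lit 858, nat_lit 170017, nat_lit 316, nat_lit 88817, nat_lit 288, nat_lit 55419428, nat_lit 0, nat_lit 0, nat_lit 3051973, false, false⟩,
 nat_lit 3068, nat_lit 5569, nat_lit 0, nat_lit 0, nat_lit 5027, nat_lit 1744, nat_lit 139, nat_lit 0, nat_lit 0, nat_lit 0, nat_lit 0, nat_lit 0, nat_lit 0, nat_lit 0, nat_lit 53, nat_lit 858000, nat_lit 0, nat_lit 0, [(nat_lit 9, [(nat_lit 6, nat_lit 858)])],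
 ⟨p036_k37, nat_lit 0, nat_lit 0, nat_lit 188, nat_lit 0, nat_lit 302183, [nat_lit 2455436801, nat_lit 1312580001, nat_lit 182905199], [], [nat_lit 13366019219, nat_lit 14012283933, nat_lit 13132165111, nat_lit 13715415148, nat_lit 14185342227, nat_lit 15000518149, nat_lit 13894870138, nat_lit 14602882781], nat_lit 1271250, nat_lit 1271250, nat_lit 181601, nat_lit 230001, nat_lit 1271250, nat_lit 1271250, [nat_lit 1100000, nat_lit 1442500, nat_lit 1271250], [nat_lit 9, nat_lit 40, nat_lit 20, nat_lit 80, nat_lit 2, nat_lit 289, nat_lit 75, nat_lit 9]⟩, ⟨p036_k38, nat_lit 0, nat_lit 0, nat_lit 203, nat_lit 0, nat_lit 310258, [nat_lit 665696000, nat_lit 887500000, nat_lit 1131456000], [], [nat_lit 4668983936, nat_lit 4441235848, nat_lit 4303554896, nat_lit 4076495688, nat_lit 3581799836, nat_lit 3370426978, nat_lit 3610747079, nat_lit 3404704989], nat_lit 1271250, nat_lit 1271250, nat_lit 181601, nat_lit 230001, nat_lit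 1100001, nat_lit 2059000, [nat_lit 1100000, nat_lit 1442500, nat_lit 1271250], [nat_lit 9, nat_lit 40, nat_lit 20, nat_lit 80, nat_lit 2, nat_lit 317, nat_lit 100, nat_lit 10]⟩,
 ⟨nat_lit 5700, nat_lit 5917, ⟨.ofNat (nat_lit 228840), .ofNat (nat_lit 244547), .ofNat (nat_lit 234175), .ofNat (nat_lit 249882), .ofNat (nat_lit 236469), .ofNat (nat_lit 251813), .ofNat (nat_lit 241804), .ofNat (nat_lit 257148)⟩, ⟨.ofNat (nat_lit 307945), .ofNat (nat_lit 347212), .ofNat (nat_lit 329284), .ofNat (nat_lit 368551), .ofNat (nat_lit 307921), .ofNat (nat_lit 346280), .ofNat (nat_lit 329263), .ofNat (nat_lit 367622)⟩⟩, [⟨nat_lit 0, nat_lit 100, nat_lit 99, nat_lit 61, nat_lit 618610909⟩]⟩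
noncomputable def p036_l84 : Lf2 := ⟨nat_lit 0, nat_lit 4, [nat_lit 38, nat_lit 5, nat_lit 5, nat_lit 20], false, nat_lit 220, nat_lit 240, nat_lit 160, nat_lit 200, ⟨nat_lit 319, nat_lit 0, nat_lit 681, nat_lit 6, nat_lit 97, nat_lit 681, nat_lit 151, nat_lit 681, nat_lit 212817, nat_lit 328, nat_lit 88817, nat_lit 288, nat_lit 54053047, nat_lit 0, nat_lit 0, nat_lit 3262549, false, false⟩,
 nat_lit 9807, nat_lit 0, nat_lit 0, nat_lit 0, nat_lit 5708, nat_lit 5577, nat_lit 704, nat_lit 0, nat_lit 0, nat_lit 0, nat_lit 0, nat_lit 0, nat_lit 0, nat_lit 0, nat_lit 0, nat_lit 681000, nat_lit 0, nat_lit 0, [(nat_lit 9, [(nat_lit 6, nat_lit 681)])],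
 ⟨p036_k37, nat_lit 0, nat_lit 0, nat_lit 191, nat_lit 0, nat_lit 302183, [nat_lit 2242937601, nat_lit 1489810000, nat_lit 771281400], [], [nat_lit 14288466858, nat_lit 15228755265, nat_lit 13932707744, nat_lit 14760099973, nat_lit 15488764639, nat_lit 16383606565, nat_lit 15023999592, nat_lit 15915714876], nat_lit 1271250, nat_lit 1271250, nat_lit 181601, nat_lit 230001, nat_lit 1271250, nat_lit 1271250, [nat_lit 1100000, nat_lit 1442500, nat_lit 1271250], [nat_lit 9, nat_lit 40, nat_lit 20, nat_lit 80, nat_lit 2, nat_lit 289, nat_lit 75, nat_lit 9]⟩, ⟨p036_k38, nat_lit 0, nat_lit 0, nat_lit 190, nat_lit 0, nat_lit 310258, [nat_lit 1495472000, nat_lit 1993750000, nat_lit 2541792000], [], [nat_lit 5666534150, nat_lit 4949064811, nat_lit 4515386695, nat_lit 3800055578, nat_lit 4385790454, nat_lit 4724433283, nat_lit 3959571677, nat_lit 4190582242], nat_lit 1271250, nat_lit 1271250, nat_lit 181601, nat_lit 230001, nat_lit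 1100001, nat_lit 1442500, [nat_lit 1100000, nat_lit 1442500, nat_lit 1271250], [nat_lit 9, nat_lit 40, nat_lit 20, nat_lit 80, nat_lit 2, nat_lit 272, nat_lit 60, nat_lit 9]⟩,
 ⟨nat_lit 5700, nat_lit 5917, ⟨.ofNat (nat_lit 228840), .ofNat (nat_lit 244547), .ofNat (nat_lit 234175), .ofNat (nat_lit 249882), .ofNat (nat_lit 236469), .ofNat (nat_lit 251813), .ofNat (nat_lit 241804), .ofNat (nat_lit 257148)⟩, ⟨.ofNat (nat_lit 347212), .ofNat (nat_lit 386479), .ofNat (nat_lit 368551), .ofNat (nat_lit 407818), .ofNat (nat_lit 346280), .ofNat (nat_lit 384640), .ofNat (nat_lit 367622), .ofNat (nat_lit 405982)⟩⟩, [⟨nat_lit 0, nat_lit 100, nat_lit 99, nat_lit 57, nat_lit 1262015977⟩, ⟨nat_lit 4, nat_lit 100, nat_lit 97, nat_lit 54, nat_lit 640071495⟩]⟩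
noncomputable def p036_l85 : Lf2 := ⟨nat_lit 0, nat_lit 4, [nat_lit 38, nat_lit 5, nat_lit 5, nat_lit 20], false, nat_lit 220, nat_lit 240, nat_lit 200, nat_lit 240, ⟨nat_lit 1000, nat_lit 0, nat_lit 0, nat_lit 0, nat_lit 0, nat_lit 0, nat_lit 0, nat_lit 0, nat_lit 0, nat_lit 0, nat_lit 0, nat_lit 0, nat_lit 0, nat_lit 0, nat_lit 0, nat_lit 0, false, false⟩,
 nat_lit 18854, nat_lit 0, nat_lit 0, nat_lit 0, nat_lit 10974, nat_lit 10723, nat_lit 1587, nat_lit 0, nat_lit 0, nat_lit 1933, nat_lit 0, nat_lit 0, nat_lit 0, nat_lit 0, nat_lit 0, nat_lit 0, nat_lit 0, nat_lit 0, [],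
 ⟨p036_k37, nat_lit 0, nat_lit 0, nat_lit 191, nat_lit 0, nat_lit 302183, [nat_lit 4688000000, nat_lit 6250000000, nat_lit 7968000000], [], [nat_lit 16109617936, nat_lit 17092252302, nat_lit 15314307508, nat_lit 16292001359, nat_lit 17228476034, nat_lit 18598659942, nat_lit 16431148648, nat_lit 17583704578], nat_lit 1271250, nat_lit 1271250, nat_lit 181601, nat_lit 230001, nat_lit 1271250, nat_lit 1271250, [nat_lit 1100000, nat_lit 1442500, nat_lit 1271250], [nat_lit 9, nat_lit 40, nat_lit 20, nat_lit 80, nat_lit 2, nat_lit 289, nat_lit 75, nat_lit 9]⟩, ⟨p036_k38, nat_lit 0, nat_lit 0, nat_lit 190, nat_lit 0, nat_lit 310258, [nat_lit 4688000000, nat_lit 6250000000, nat_lit 7968000000], [], [nat_lit 14203403268, nat_lit 14713668617, nat_lit 13433783654, nat_lit 13941456536, nat_lit 16469426919, nat_lit 17143889161, nat_lit 15695458489, nat_lit 16159766702], nat_lit 1271250, nat_lit 1271250, nat_lit 181601, nat_lit 230001,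 nat_lit 1271250, nat_lit 1271250, [nat_lit 1100000, nat_lit 1442500, nat_lit 1271250], [nat_lit 9, nat_lit 40, nat_lit 20, nat_lit 80, nat_lit 2, nat_lit 289, nat_lit 75, nat_lit 9]⟩,
 zbF0, [⟨nat_lit 0, nat_lit 100, nat_lit 99, nat_lit 57, nat_lit 1724102088⟩, ⟨nat_lit 4, nat_lit 100, nat_lit 97, nat_lit 54, nat_lit 953324217⟩, ⟨nat_lit 19, nat_lit 99, nat_lit 100, nat_lit 55, nat_lit 358118473⟩]⟩
noncomputable def p036_l86 : Lf2 := ⟨nat_lit 0, nat_lit 4, [nat_lit 38, nat_lit 5, nat_lit 5, nat_lit 20], false, nat_lit 220, nat_lit 240, nat_lit 240, nat_lit 272, ⟨nat_lit 1000, nat_lit 0, nat_lit 0, nat_lit 0, nat_lit 0, nat_lit 0, nat_lit 0, nat_lit 0, nat_lit 0, nat_lit 0, nat_lit 0, nat_lit 0, nat_lit 0, nat_lit 0, nat_lit 0, nat_lit 0, false, false⟩,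
 nat_lit 17811, nat_lit 0, nat_lit 0, nat_lit 0, nat_lit 10367, nat_lit 10130, nat_lit 1745, nat_lit 0, nat_lit 0, nat_lit 1564, nat_lit 0, nat_lit 0, nat_lit 0, nat_lit 0, nat_lit 0, nat_lit 0, nat_lit 0, nat_lit 0, [],
 ⟨p036_k37, nat_lit 0, nat_lit 0, nat_lit 191, nat_lit 0, nat_lit 302183, [nat_lit 4688000000, nat_lit 6250000000, nat_lit 7968000000], [], [nat_lit 16103744788, nat_lit 17049909319, nat_lit 15359435714, nat_lit 16300869510, nat_lit 17192773449, nat_lit 18343335711, nat_lit 16446467084, nat_lit 17391439149], nat_lit 1271250, nat_lit 1271250, nat_lit 181601, nat_lit 230001, nat_lit 1271250, nat_lit 1271250, [nat_lit 1100000, nat_lit 1442500, nat_lit 1271250], [nat_lit 9, nat_lit 40, nat_lit 20, nat_lit 80, nat_lit 2, nat_lit 289, nat_lit 75, nat_lit 9]⟩, ⟨p036_k38, nat_lit 0, nat_lit 0, nat_lit 203, nat_lit 0, nat_lit 310258, [nat_lit 4688000000, nat_lit 6250000000, nat_lit 7968000000], [], [nat_lit 17633327667,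 nat_lit 18074090232, nat_lit 16909109090, nat_lit 17347704760, nat_lit 20553025873, nat_lit 21131498044, nat_lit 19813785152, nat_lit 20207107393], nat_lit 1271250, nat_lit 1271250, nat_lit 181601, nat_lit 230001, nat_lit 1271250, nat_lit 1271250, [nat_lit 1100000, nat_lit 1442500, nat_lit 1271250], [nat_lit 9, nat_lit 40, nat_lit 20, nat_lit 80, nat_lit 2, nat_lit 215, nat_lit 10, nat_lit 6]⟩,
 zbF0, [⟨nat_lit 0, nat_lit 100, nat_lit 99, nat_lit 61, nat_lit 1671128393⟩, ⟨nat_lit 19, nat_lit 99, nat_lit 100, nat_lit 55, nat_lit 938537636⟩, ⟨nat_lit 19, nat_lit 100, nat_lit 97, nat_lit 62, nat_lit 282479779⟩]⟩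
noncomputable def p036_l87 : Lf2 := ⟨nat_lit 0, nat_lit 4, [nat_lit 38, nat_lit 5, nat_lit 5, nat_lit 20], false, nat_lit 200, nat_lit 240, nat_lit 0, nat_lit 160, ⟨nat_lit 452, nat_lit 0, nat_lit 548, nat_lit 6, nat_lit 107, nat_lit 548, nat_lit 143, nat_lit 548, nat_lit 190817, nat_lit 322, nat_lit 109350, nat_lit 296, nat_lit 54002357, nat_lit 0, nat_lit 0, nat_lit 3308930, false, false⟩,
 nat_lit 10691, nat_lit 0, nat_lit 0, nat_lit 0, nat_lit 6223, nat_lit 6080, nat_lit 945, nat_lit 0, nat_lit 0, nat_lit 477, nat_lit 0, nat_lit 0, nat_lit 0, nat_lit 0, nat_lit 0, nat_lit 548000, nat_lit 0, nat_lit 0, [(nat_lit 9, [(nat_lit 6, nat_lit 548)])],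
 ⟨p036_k37, nat_lit 0, nat_lit 0, nat_lit 171, nat_lit 0, nat_lit 278434, [nat_lit 2720460800, nat_lit 2419480001, nat_lit 2169191199], [], [nat_lit 13553687138, nat_lit 13857552868, nat_lit 13044799538, nat_lit 13342674182, nat_lit 15261042795, nat_lit 15609736642, nat_lit 14610741353, nat_lit 14935581251], nat_lit 1271250, nat_lit 1271250, nat_lit 230001, nat_lit 356250, nat_lit 1271250, nat_lit 1271250, [nat_lit 1100000, nat_lit 1442500, nat_lit 1271250], [nat_lit 9, nat_lit 40, nat_lit 20, nat_lit 80, nat_lit 2, nat_lit 289, nat_lit 75, nat_lit 9]⟩, ⟨p036_k38, nat_lit 0, nat_lit 0, nat_lit 292, nat_lit 0, nat_lit 285875, [nat_lit 2118976000, nat_lit 2825000000, nat_lit 3601536000], [], [nat_lit 10282768412, nat_lit 10797482400, nat_lit 8828195654, nat_lit 9338856648, nat_lit 9138767460, nat_lit 8412681700, nat_lit 9538350932, nat_lit 8817223412], nat_lit 1271250, nat_lit 1271250, nat_lit 230001, nat_lit 356250, nat_lit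 0, nat_lit 1100001, [nat_lit 1100000, nat_lit 1442500, nat_lit 1271250], [nat_lit 9, nat_lit 40, nat_lit 20, nat_lit 80, nat_lit 2, nat_lit 272, nat_lit 60, nat_lit 9]⟩,
 ⟨nat_lit 5809, nat_lit 5917, ⟨.ofNat (nat_lit 244547), .ofNat (nat_lit 283814), .ofNat (nat_lit 249882), .ofNat (nat_lit 289149), .ofNat (nat_lit 248191), .ofNat (nat_lit 287002), .ofNat (nat_lit 253526), .ofNat (nat_lit 292337)⟩, ⟨.ofNat (nat_lit 307945), .ofNat (nat_lit 386479), .ofNat (nat_lit 329284), .ofNat (nat_lit 407818), .ofNat (nat_lit 307946), .ofNat (nat_lit 385569), .ofNat (nat_lit 329285), .ofNat (nat_lit 406908)⟩⟩, [⟨nat_lit 16, nat_lit 98, nat_lit 100, nat_lit 54, nat_lit 543535517⟩]⟩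
noncomputable def p036_l88 : Lf2 := ⟨nat_lit 0, nat_lit 4, [nat_lit 38, nat_lit 5, nat_lit 5, nat_lit 20], false, nat_lit 200, nat_lit 240, nat_lit 0, nat_lit 160, ⟨nat_lit 402, nat_lit 0, nat_lit 598, nat_lit 6, nat_lit 109, nat_lit 598, nat_lit 143, nat_lit 598, nat_lit 190817, nat_lit 322, nat_lit 112067, nat_lit 297, nat_lit 53918419, nat_lit 0, nat_lit 0, nat_lit 3325969, false, false⟩,
 nat_lit 5548, nat_lit 4155, nat_lit 0, nat_lit 0, nat_lit 5777, nat_lit 3155, nat_lit 871, nat_lit 0, nat_lit 0, nat_lit 0, nat_lit 0, nat_lit 0, nat_lit 0, nat_lit 0, nat_lit 0, nat_lit 598000, nat_lit 0, nat_lit 0, [(nat_lit 9, [(nat_lit 6, nat_lit 598)])],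
 ⟨p036_k39, nat_lit 0, nat_lit 0, nat_lit 180, nat_lit 0, nat_lit 294457, [nat_lit 2540940800, nat_lit 2069980001, nat_lit 1643661199], [], [nat_lit 13893342608, nat_lit 14201671875, nat_lit 13451045167, nat_lit 13793535115, nat_lit 15622090304, nat_lit 15940172137, nat_lit 15192344658, nat_lit 15504536173], nat_lit 1271250, nat_lit 1271250, nat_lit 230001, nat_lit 356250, nat_lit 1271250, nat_lit 1271250, [nat_lit 1100000, nat_lit 1442500, nat_lit 1271250], [nat_lit 9, nat_lit 40, nat_lit 20, nat_lit 80, nat_lit 2, nat_lit 289, nat_lit 75, nat_lit 9]⟩, ⟨p036_k38, nat_lit 0, nat_lit 0, nat_lit 302, nat_lit 0, nat_lit 310258, [nat_lit 1884576000, nat_lit 2512500000, nat_lit 3203136000], [], [nat_lit 13932820302, nat_lit 13522056654, nat_lit 12293035869, nat_lit 11885337304, nat_lit 12016675010, nat_lit 11639898600, nat_lit 12308586570, nat_lit 11934383062], nat_lit 1271250, nat_lit 1271250, nat_lit 230001, nat_lit 356250,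 nat_lit 0, nat_lit 1100001, [nat_lit 1100000, nat_lit 1442500, nat_lit 1271250], [nat_lit 9, nat_lit 40, nat_lit 20, nat_lit 80, nat_lit 2, nat_lit 272, nat_lit 60, nat_lit 9]⟩,
 ⟨nat_lit 5700, nat_lit 5810, ⟨.ofNat (nat_lit 248191), .ofNat (nat_lit 287002), .ofNat (nat_lit 253526), .ofNat (nat_lit 292337), .ofNat (nat_lit 251813), .ofNat (nat_lit 290172), .ofNat (nat_lit 257148), .ofNat (nat_lit 295508)⟩, ⟨.ofNat (nat_lit 307946), .ofNat (nat_lit 385569), .ofNat (nat_lit 329285), .ofNat (nat_lit 406908), .ofNat (nat_lit 307921), .ofNat (nat_lit 384640), .ofNat (nat_lit 329263), .ofNat (nat_lit 405982)⟩⟩, [⟨nat_lit 0, nat_lit 100, nat_lit 98, nat_lit 62, nat_lit 51787389⟩, ⟨nat_lit 16, nat_lit 96, nat_lit 100, nat_lit 54, nat_lit 534083033⟩]⟩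
noncomputable def p036_l89 : Lf2 := ⟨nat_lit 0, nat_lit 4, [nat_lit 38, nat_lit 5, nat_lit 5, nat_lit 20], false, nat_lit 200, nat_lit 240, nat_lit 160, nat_lit 272, ⟨nat_lit 249, nat_lit 0, nat_lit 751, nat_lit 6, nat_lit 107, nat_lit 751, nat_lit 143, nat_lit 751, nat_lit 190817, nat_lit 322, nat_lit 109350, nat_lit 296, nat_lit 54002357, nat_lit 0, nat_lit 0, nat_lit 3308930, false, false⟩,
 nat_lit 7376, nat_lit 1717, nat_lit 0, nat_lit 0, nat_lit 5292, nat_lit 4195, nat_lit 489, nat_lit 0, nat_lit 0, nat_lit 0, nat_lit 0, nat_lit 0, nat_lit 0, nat_lit 0, nat_lit 5, nat_lit 751000, nat_lit 0, nat_lit 0, [(nat_lit 9, [(nat_lit 6, nat_lit 751)])],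
 ⟨p036_k37, nat_lit 0, nat_lit 0, nat_lit 171, nat_lit 0, nat_lit 278434, [nat_lit 2071609600, nat_lit 1100510000, nat_lit 155539400], [], [nat_lit 13354418756, nat_lit 13644086549, nat_lit 12980694524, nat_lit 13307787783, nat_lit 15055885720, nat_lit 15360249086, nat_lit 14698409432, nat_lit 14997238470], nat_lit 1271250, nat_lit 1271250, nat_lit 230001, nat_lit 356250, nat_lit 1271250, nat_lit 1271250, [nat_lit 1100000, nat_lit 1442500, nat_lit 1271250], [nat_lit 9, nat_lit 40, nat_lit 20, nat_lit 80, nat_lit 2, nat_lit 289, nat_lit 75, nat_lit 9]⟩, ⟨p036_k38, nat_lit 0, nat_lit 0, nat_lit 187, nat_lit 0, nat_lit 285875, [nat_lit 1167312000, nat_lit 1556250000, nat_lit 1984032000], [], [nat_lit 7632526186, nat_lit 7086360258, nat_lit 5452210593, nat_lit 4910120108, nat_lit 5688614748, nat_lit 5897639891, nat_lit 5286381066, nat_lit 5151558919], nat_lit 1271250, nat_lit 1271250, nat_lit 230001, nat_lit 356250, nat_lit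 1100001, nat_lit 2059000, [nat_lit 1100000, nat_lit 1442500, nat_lit 1271250], [nat_lit 9, nat_lit 40, nat_lit 20, nat_lit 80, nat_lit 2, nat_lit 317, nat_lit 100, nat_lit 10]⟩,
 ⟨nat_lit 5809, nat_lit 5917, ⟨.ofNat (nat_lit 244547), .ofNat (nat_lit 283814), .ofNat (nat_lit 249882), .ofNat (nat_lit 289149), .ofNat (nat_lit 248191), .ofNat (nat_lit 287002), .ofNat (nat_lit 253526), .ofNat (nat_lit 292337)⟩, ⟨.ofNat (nat_lit 307945), .ofNat (nat_lit 386479), .ofNat (nat_lit 329284), .ofNat (nat_lit 407818), .ofNat (nat_lit 307946), .ofNat (nat_lit 385569), .ofNat (nat_lit 329285), .ofNat (nat_lit 406908)⟩⟩, [⟨nat_lit 4, nat_lit 100, nat_lit 98, nat_lit 54, nat_lit 438548035⟩]⟩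
noncomputable def p036_l90 : Lf2 := ⟨nat_lit 0, nat_lit 4, [nat_lit 38, nat_lit 5, nat_lit 5, nat_lit 20], false, nat_lit 200, nat_lit 240, nat_lit 160, nat_lit 272, ⟨nat_lit 295, nat_lit 0, nat_lit 705, nat_lit 6, nat_lit 109, nat_lit 705, nat_lit 143, nat_lit 705, nat_lit 190817, nat_lit 322, nat_lit 112067, nat_lit 297, nat_lit 53918419, nat_lit 0, nat_lit 0, nat_lit 3325969, false, false⟩,
 nat_lit 6395, nat_lit 2671, nat_lit 0, nat_lit 0, nat_lit 5398, nat_lit 3637, nat_lit 562, nat_lit 0, nat_lit 0, nat_lit 0, nat_lit 0, nat_lit 0, nat_lit 0, nat_lit 0, nat_lit 0, nat_lit 705000, nat_lit 0, nat_lit 0, [(nat_lit 9, [(nat_lit 6, nat_lit 705)])],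
 ⟨p036_k39, nat_lit 0, nat_lit 0, nat_lit 180, nat_lit 0, nat_lit 294457, [nat_lit 2156768000, nat_lit 1322050000, nat_lit 519027000], [], [nat_lit 13818168673, nat_lit 14116580463, nat_lit 13429294415, nat_lit 13759752723, nat_lit 15507673009, nat_lit 15817523306, nat_lit 15130077005, nat_lit 15431826502], nat_lit 1271250, nat_lit 1271250, nat_lit 230001, nat_lit 356250, nat_lit 1271250, nat_lit 1271250, [nat_lit 1100000, nat_lit 1442500, nat_lit 1271250], [nat_lit 9, nat_lit 40, nat_lit 20, nat_lit 80, nat_lit 2, nat_lit 289, nat_lit 75, nat_lit 9]⟩, ⟨p036_k38, nat_lit 0, nat_lit 0, nat_lit 196, nat_lit 0, nat_lit 310258, [nat_lit 1382960000, nat_lit 1843750000, nat_lit 2350560000], [], [nat_lit 8941537219, nat_lit 8468019822, nat_lit 7051237383, nat_lit 6581253332, nat_lit 7485175633, nat_lit 7055488087, nat_lit 7755166627, nat_lit 7328380316], nat_lit 1271250, nat_lit 1271250, nat_lit 230001, nat_lit 356250, nat_lit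 1100001, nat_lit 2059000, [nat_lit 1100000, nat_lit 1442500, nat_lit 1271250], [nat_lit 9, nat_lit 40, nat_lit 20, nat_lit 80, nat_lit 2, nat_lit 317, nat_lit 100, nat_lit 10]⟩,
 ⟨nat_lit 5700, nat_lit 5810, ⟨.ofNat (nat_lit 248191), .ofNat (nat_lit 287002), .ofNat (nat_lit 253526), .ofNat (nat_lit 292337), .ofNat (nat_lit 251813), .ofNat (nat_lit 290172), .ofNat (nat_lit 257148), .ofNat (nat_lit 295508)⟩, ⟨.ofNat (nat_lit 307946), .ofNat (nat_lit 385569), .ofNat (nat_lit 329285), .ofNat (nat_lit 406908), .ofNat (nat_lit 307921), .ofNat (nat_lit 384640), .ofNat (nat_lit 329263), .ofNat (nat_lit 405982)⟩⟩, [⟨nat_lit 0, nat_lit 100, nat_lit 98, nat_lit 62, nat_lit 38132718⟩, ⟨nat_lit 4, nat_lit 100, nat_lit 96, nat_lit 54, nat_lit 471146532⟩]⟩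
noncomputable def p036_l91 : Lf2 := ⟨nat_lit 0, nat_lit 5, [nat_lit 4, nat_lit 5, nat_lit 5, nat_lit 20], true, nat_lit 200, nat_lit 240, nat_lit 0, nat_lit 280, ⟨nat_lit 0, nat_lit 0, nat_lit 1000, nat_lit 6, nat_lit 102, nat_lit 1000, nat_lit 143, nat_lit 1000, nat_lit 190817, nat_lit 322, nat_lit 96267, nat_lit 291, nat_lit 54419100, nat_lit 0, nat_lit 0, nat_lit 3225643, false, false⟩,
 nat_lit 0, nat_lit 8135, nat_lit 0, nat_lit 0, nat_lit 4735, nat_lit 0, nat_lit 0, nat_lit 0, nat_lit 0, nat_lit 0, nat_lit 0, nat_lit 0, nat_lit 0, nat_lit 0, nat_lit 55, nat_lit 400000, nat_lit 0, nat_lit 0, [(nat_lit 9, [(nat_lit 5, nat_lit 1000)])],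
 ⟨p036_k40, nat_lit 0, nat_lit 0, nat_lit 162, nat_lit 0, nat_lit 212793, [nat_lit 2406400000, nat_lit 19600000], [], [nat_lit 13984717765, nat_lit 14253552692, nat_lit 13363716355, nat_lit 13625711227, nat_lit 15435942197, nat_lit 15753688467, nat_lit 14821028810, nat_lit 15104511663], nat_lit 1271250, nat_lit 1271250, nat_lit 157850, nat_lit 356250, nat_lit 1271250, nat_lit 1271250, [nat_lit 1100000, nat_lit 1785000], [nat_lit 39, nat_lit 40, nat_lit 20, nat_lit 80, nat_lit 7, nat_lit 289, nat_lit 75, nat_lit 9]⟩, C1.Rw.none,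
 ⟨nat_lit 5809, nat_lit 5917, ⟨.ofNat (nat_lit 215652), .ofNat (nat_lit 278479), .ofNat (nat_lit 226322), .ofNat (nat_lit 289149), .ofNat (nat_lit 219570), .ofNat (nat_lit 281668), .ofNat (nat_lit 230239), .ofNat (nat_lit 292337)⟩, ⟨.ofNat (nat_lit 307945), .ofNat (nat_lit 386479), .ofNat (nat_lit 329284), .ofNat (nat_lit 407818), .ofNat (nat_lit 307946), .ofNat (nat_lit 385569), .ofNat (nat_lit 329285), .ofNat (nat_lit 406908)⟩⟩, [⟨nat_lit 0, nat_lit 100, nat_lit 99, nat_lit 62, nat_lit 212923070⟩, ⟨nat_lit 4, nat_lit 100, nat_lit 98, nat_lit 54, nat_lit 248106075⟩]⟩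
noncomputable def p036_l92 : Lf2 := ⟨nat_lit 0, nat_lit 5, [nat_lit 4, nat_lit 5, nat_lit 5, nat_lit 20], true, nat_lit 200, nat_lit 240, nat_lit 0, nat_lit 280, ⟨nat_lit 0, nat_lit 0, nat_lit 1000, nat_lit 6, nat_lit 105, nat_lit 1000, nat_lit 143, nat_lit 1000, nat_lit 190817, nat_lit 322, nat_lit 101400, nat_lit 293, nat_lit 54221921, nat_lit 0, nat_lit 0, nat_lit 3266203, false, false⟩,
 nat_lit 0, nat_lit 7924, nat_lit 0, nat_lit 0, nat_lit 4718, nat_lit 0, nat_lit 0, nat_lit 0, nat_lit 0, nat_lit 0, nat_lit 0, nat_lit 0, nat_lit 0, nat_lit 0, nat_lit 55, nat_lit 400000, nat_lit 0, nat_lit 0, [(nat_lit 9, [(nat_lit 5, nat_lit 1000)])],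
 ⟨p036_k41, nat_lit 0, nat_lit 0, nat_lit 159, nat_lit 0, nat_lit 230770, [nat_lit 2406400000, nat_lit 19600000], [], [nat_lit 14173411165, nat_lit 14441096284, nat_lit 13656314529, nat_lit 13917899483, nat_lit 15628184275, nat_lit 15967179894, nat_lit 15136182705, nat_lit 15419197182], nat_lit 1271250, nat_lit 1271250, nat_lit 181601, nat_lit 356250, nat_lit 1271250, nat_lit 1271250, [nat_lit 1100000, nat_lit 1785000], [nat_lit 39, nat_lit 40, nat_lit 20, nat_lit 80, nat_lit 7, nat_lit 289, nat_lit 75, nat_lit 9]⟩, C1.Rw.none,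
 ⟨nat_lit 5700, nat_lit 5810, ⟨.ofNat (nat_lit 227332), .ofNat (nat_lit 281668), .ofNat (nat_lit 238001), .ofNat (nat_lit 292337), .ofNat (nat_lit 231133), .ofNat (nat_lit 284837), .ofNat (nat_lit 241804), .ofNat (nat_lit 295508)⟩, ⟨.ofNat (nat_lit 307946), .ofNat (nat_lit 385569), .ofNat (nat_lit 329285), .ofNat (nat_lit 406908), .ofNat (nat_lit 307921), .ofNat (nat_lit 384640), .ofNat (nat_lit 329263), .ofNat (nat_lit 405982)⟩⟩, [⟨nat_lit 0, nat_lit 100, nat_lit 98, nat_lit 64, nat_lit 208680313⟩, ⟨nat_lit 4, nat_lit 100, nat_lit 96, nat_lit 54, nat_lit 264656856⟩]⟩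
noncomputable def p036_l93 : Lf2 := ⟨nat_lit 0, nat_lit 5, [nat_lit 4, nat_lit 5, nat_lit 5, nat_lit 20], true, nat_lit 200, nat_lit 240, nat_lit 0, nat_lit 280, ⟨nat_lit 0, nat_lit 0, nat_lit 1000, nat_lit 6, nat_lit 123, nat_lit 1000, nat_lit 143, nat_lit 1000, nat_lit 190817, nat_lit 322, nat_lit 141067, nat_lit 307, nat_lit 52873686, nat_lit 0, nat_lit 0, nat_lit 3519282, false, false⟩,
 nat_lit 0, nat_lit 7676, nat_lit 0, nat_lit 0, nat_lit 4468, nat_lit 0, nat_lit 0, nat_lit 0, nat_lit 0, nat_lit 0, nat_lit 0, nat_lit 0, nat_lit 0, nat_lit 0, nat_lit 117, nat_lit 1000000, nat_lit 0, nat_lit 0, [(nat_lit 9, [(nat_lit 6, nat_lit 1000)])],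
 ⟨p036_k26, nat_lit 0, nat_lit 0, nat_lit 170, nat_lit 0, nat_lit 308870, [nat_lit 2969600000, nat_lit 1600000000, nat_lit 226400000], [], [nat_lit 12842037396, nat_lit 13443906918, nat_lit 12797599180, nat_lit 13386736318, nat_lit 14468206728, nat_lit 15020459932, nat_lit 14392429352, nat_lit 14933208132], nat_lit 1271250, nat_lit 1271250, nat_lit 356250, nat_lit 490000, nat_lit 1271250, nat_lit 1271250, [nat_lit 1100000, nat_lit 1442500, nat_lit 1271250], [nat_lit 9, nat_lit 40, nat_lit 20, nat_lit 80, nat_lit 2, nat_lit 317, nat_lit 100, nat_lit 10]⟩, C1.Rw.none,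
 ⟨nat_lit 5700, nat_lit 5917, ⟨.ofNat (nat_lit 278479), .ofNat (nat_lit 317746), .ofNat (nat_lit 289149), .ofNat (nat_lit 328416), .ofNat (nat_lit 284837), .ofNat (nat_lit 323196), .ofNat (nat_lit 295508), .ofNat (nat_lit 333867)⟩, ⟨.ofNat (nat_lit 307945), .ofNat (nat_lit 386479), .ofNat (nat_lit 329284), .ofNat (nat_lit 407818), .ofNat (nat_lit 307921), .ofNat (nat_lit 384640), .ofNat (nat_lit 329263), .ofNat (nat_lit 405982)⟩⟩, [⟨nat_lit 4, nat_lit 100, nat_lit 97, nat_lit 54, nat_lit 290853075⟩]⟩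
noncomputable def b_VL_600_600_5_44 : St := ⟨true, nat_lit 1, nat_lit 1, nat_lit 1, nat_lit 40, nat_lit 260, nat_lit 270, nat_lit 250, nat_lit 260, nat_lit 28, nat_lit 80, nat_lit 20, nat_lit 40, nat_lit 200, nat_lit 240, nat_lit 0, nat_lit 280, nat_lit 0, nat_lit 20, nat_lit 0, nat_lit 0, nat_lit 0, nat_lit 0⟩
theorem d_VL_600_600_5_44 (h : EB TB.env) : Dead b_VL_600_600_5_44 := chkB_sound0 h (T :=
(.spl (nat_lit 6) (nat_lit 8)
(.spl (nat_lit 2) (nat_lit 60)
(.spl (nat_lit 7) (nat_lit 600)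
(.spl (nat_lit 6) (nat_lit 4)
(.spl (nat_lit 1) (nat_lit 255)
(.leaf p036_l73)
(.trZ (nat_lit 0) (nat_lit 100) (nat_lit 99) (nat_lit 57) (nat_lit 32) (.trX (nat_lit 19) (nat_lit 100) (nat_lit 97) (nat_lit 62) (nat_lit 272) (.leaf p036_l74))))
(.leaf p036_l75))
(.leaf p036_l76))
(.leaf p036_l77))
(.spl (nat_lit 2) (nat_lit 60)
(.spl (nat_lit 6) (nat_lit 16)
(.spl (nat_lit 1) (nat_lit 255)
(.spl (nat_lit 2) (nat_lit 40)
(.spl (nat_lit 6) (nat_lit 12)
(.spl (nat_lit 2) (nat_lit 32)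
(.leaf p036_l78)
(.leaf p036_l79))
(.leaf p036_l80))
(.leaf p036_l81))
(.trZ (nat_lit 0) (nat_lit 100) (nat_lit 99) (nat_lit 57) (nat_lit 32) (.trX (nat_lit 19) (nat_lit 100) (nat_lit 97) (nat_lit 62) (nat_lit 272) (.spl (nat_lit 2) (nat_lit 40)
(.spl (nat_lit 5) (nat_lit 160)
(.leaf p036_l82)
(.spl (nat_lit 4) (nat_lit 220)
(.leaf p036_l83)
(.spl (nat_lit 5) (nat_lit 240)
(.spl (nat_lit 5) (nat_lit 200)
(.leaf p036_l84)
(.leaf p036_l85))
(.leaf p036_l86))))
(.spl (nat_lit 5) (nat_lit 160)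
(.spl (nat_lit 0) (nat_lit 265)
(.leaf p036_l87)
(.leaf p036_l88))
(.spl (nat_lit 0) (nat_lit 265)
(.leaf p036_l89)
(.leaf p036_l90)))))))
(.spl (nat_lit 0) (nat_lit 265)
(.leaf p036_l91)
(.trZ (nat_lit 0) (nat_lit 100) (nat_lit 98) (nat_lit 57) (nat_lit 32) (.leaf p036_l92))))
(.leaf p036_l93)))) (by decide +kernel)
noncomputable def p036_l94 : Lf2 := ⟨nat_lit 0, nat_lit 10, [nat_lit 0, nat_lit 5, nat_lit 5, nat_lit 20], true, nat_lit 200, nat_lit 240, nat_lit 0, nat_lit 280, ⟨nat_lit 0, nat_lit 0, nat_lit 1000, nat_lit 6, nat_lit 109, nat_lit 1000, nat_lit 143, nat_lit 1000, nat_lit 190817, nat_lit 322, nat_lit 112067, nat_lit 297, nat_lit 53889372, nat_lit 0, nat_lit 0, nat_lit 3331287, false, false⟩,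
 nat_lit 0, nat_lit 7647, nat_lit 0, nat_lit 0, nat_lit 4451, nat_lit 0, nat_lit 0, nat_lit 0, nat_lit 0, nat_lit 0, nat_lit 0, nat_lit 0, nat_lit 0, nat_lit 0, nat_lit 139, nat_lit 696400, nat_lit 0, nat_lit 0, [(nat_lit 9, [(nat_lit 5, nat_lit 506), (nat_lit 6, nat_lit 494)])],
 ⟨p036_k27, nat_lit 0, nat_lit 0, nat_lit 188, nat_lit 0, nat_lit 194469, [nat_lit 3538572801, nat_lit 2501784001, nat_lit 101247999], [], [nat_lit 13840964650, nat_lit 14415518347, nat_lit 13267289237, nat_lit 13855380816, nat_lit 15457543283, nat_lit 16023524376, nat_lit 14860305016, nat_lit 15400177101], nat_lit 1271250, nat_lit 1271250, nat_lit 157850, nat_lit 490000, nat_lit 1271250, nat_lit 1271250, [nat_lit 1100000, nat_lit 1442500, nat_lit 1271250], [nat_lit 11, nat_lit 40, nat_lit 20, nat_lit 80, nat_lit 1, nat_lit 373, nat_lit 150, nat_lit 10]⟩, C1.Rw.none,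
 ⟨nat_lit 5700, nat_lit 5917, ⟨.ofNat (nat_lit 215652), .ofNat (nat_lit 317746), .ofNat (nat_lit 220987), .ofNat (nat_lit 323081), .ofNat (nat_lit 223462), .ofNat (nat_lit 323196), .ofNat (nat_lit 228797), .ofNat (nat_lit 328532)⟩, ⟨.ofNat (nat_lit 307945), .ofNat (nat_lit 386479), .ofNat (nat_lit 329284), .ofNat (nat_lit 407818), .ofNat (nat_lit 307921), .ofNat (nat_lit 384640), .ofNat (nat_lit 329263), .ofNat (nat_lit 405982)⟩⟩, [⟨nat_lit 0, nat_lit 100, nat_lit 98, nat_lit 58, nat_lit 66603509⟩, ⟨nat_lit 0, nat_lit 100, nat_lit 97, nat_lit 62, nat_lit 107288130⟩, ⟨nat_lit 4, nat_lit 100, nat_lit 97, nat_lit 54, nat_lit 283271696⟩]⟩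
noncomputable def p036_l95 : Lf2 := ⟨nat_lit 0, nat_lit 10, [nat_lit 0, nat_lit 5, nat_lit 5, nat_lit 20], true, nat_lit 200, nat_lit 220, nat_lit 0, nat_lit 272, ⟨nat_lit 0, nat_lit 0, nat_lit 1000, nat_lit 6, nat_lit 97, nat_lit 1000, nat_lit 135, nat_lit 1000, nat_lit 170017, nat_lit 316, nat_lit 88817, nat_lit 288, nat_lit 55419428, nat_lit 0, nat_lit 0, nat_lit 3051973, false, false⟩,
 nat_lit 0, nat_lit 8010, nat_lit 0, nat_lit 0, nat_lit 4662, nat_lit 0, nat_lit 0, nat_lit 0, nat_lit 0, nat_lit 0, nat_lit 0, nat_lit 0, nat_lit 0, nat_lit 0, nat_lit 145, nat_lit 731200, nat_lit 0, nat_lit 0, [(nat_lit 9, [(nat_lit 5, nat_lit 448), (nat_lit 6, nat_lit 552)])],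
 ⟨p036_k27, nat_lit 0, nat_lit 0, nat_lit 191, nat_lit 0, nat_lit 217687, [nat_lit 3609702400, nat_lit 2604538667, nat_lit 114117333], [], [nat_lit 13467573900, nat_lit 14032341429, nat_lit 13193713631, nat_lit 13756051978, nat_lit 14176027135, nat_lit 14878188417, nat_lit 13920348263, nat_lit 14519639735], nat_lit 1271250, nat_lit 1271250, nat_lit 181601, nat_lit 230001, nat_lit 1271250, nat_lit 1271250, [nat_lit 1100000, nat_lit 1442500, nat_lit 1271250], [nat_lit 11, nat_lit 40, nat_lit 20, nat_lit 80, nat_lit 1, nat_lit 373, nat_lit 150, nat_lit 10]⟩, C1.Rw.none,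
 ⟨nat_lit 5700, nat_lit 5917, ⟨.ofNat (nat_lit 228840), .ofNat (nat_lit 244547), .ofNat (nat_lit 234175), .ofNat (nat_lit 249882), .ofNat (nat_lit 236469), .ofNat (nat_lit 251813), .ofNat (nat_lit 241804), .ofNat (nat_lit 257148)⟩, ⟨.ofNat (nat_lit 307945), .ofNat (nat_lit 347212), .ofNat (nat_lit 329284), .ofNat (nat_lit 368551), .ofNat (nat_lit 307921), .ofNat (nat_lit 346280), .ofNat (nat_lit 329263), .ofNat (nat_lit 367622)⟩⟩, [⟨nat_lit 0, nat_lit 100, nat_lit 98, nat_lit 64, nat_lit 442112331⟩]⟩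
noncomputable def p036_l96 : Lf2 := ⟨nat_lit 0, nat_lit 10, [nat_lit 0, nat_lit 5, nat_lit 5, nat_lit 20], true, nat_lit 220, nat_lit 240, nat_lit 0, nat_lit 272, ⟨nat_lit 0, nat_lit 0, nat_lit 1000, nat_lit 6, nat_lit 97, nat_lit 1000, nat_lit 151, nat_lit 1000, nat_lit 212817, nat_lit 328, nat_lit 88817, nat_lit 288, nat_lit 54053047, nat_lit 0, nat_lit 0, nat_lit 3262549, false, false⟩,
 nat_lit 0, nat_lit 7957, nat_lit 0, nat_lit 0, nat_lit 4631, nat_lit 0, nat_lit 0, nat_lit 0, nat_lit 0, nat_lit 0, nat_lit 0, nat_lit 0, nat_lit 0, nat_lit 0, nat_lit 143, nat_lit 718000, nat_lit 0, nat_lit 0, [(nat_lit 9, [(nat_lit 5, nat_lit 470), (nat_lit 6, nat_lit 530)])],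
 ⟨p036_k27, nat_lit 0, nat_lit 0, nat_lit 193, nat_lit 0, nat_lit 217687, [nat_lit 3587136000, nat_lit 2571080001, nat_lit 116959999], [], [nat_lit 14247122560, nat_lit 14867798769, nat_lit 13995350682, nat_lit 14592755393, nat_lit 15133317159, nat_lit 15930584823, nat_lit 14830127610, nat_lit 15574578357], nat_lit 1271250, nat_lit 1271250, nat_lit 181601, nat_lit 230001, nat_lit 1271250, nat_lit 1271250, [nat_lit 1100000, nat_lit 1442500, nat_lit 1271250], [nat_lit 11, nat_lit 40, nat_lit 20, nat_lit 80, nat_lit 1, nat_lit 373, nat_lit 150, nat_lit 10]⟩, C1.Rw.none,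
 ⟨nat_lit 5700, nat_lit 5917, ⟨.ofNat (nat_lit 228840), .ofNat (nat_lit 244547), .ofNat (nat_lit 234175), .ofNat (nat_lit 249882), .ofNat (nat_lit 236469), .ofNat (nat_lit 251813), .ofNat (nat_lit 241804), .ofNat (nat_lit 257148)⟩, ⟨.ofNat (nat_lit 347212), .ofNat (nat_lit 386479), .ofNat (nat_lit 368551), .ofNat (nat_lit 407818), .ofNat (nat_lit 346280), .ofNat (nat_lit 384640), .ofNat (nat_lit 367622), .ofNat (nat_lit 405982)⟩⟩, [⟨nat_lit 0, nat_lit 100, nat_lit 99, nat_lit 61, nat_lit 334108700⟩, ⟨nat_lit 16, nat_lit 97, nat_lit 100, nat_lit 54, nat_lit 300297854⟩]⟩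
noncomputable def p036_l97 : Lf2 := ⟨nat_lit 0, nat_lit 10, [nat_lit 0, nat_lit 5, nat_lit 5, nat_lit 20], true, nat_lit 200, nat_lit 240, nat_lit 0, nat_lit 272, ⟨nat_lit 0, nat_lit 0, nat_lit 1000, nat_lit 6, nat_lit 108, nat_lit 1000, nat_lit 143, nat_lit 1000, nat_lit 190817, nat_lit 322, nat_lit 109350, nat_lit 296, nat_lit 53960785, nat_lit 0, nat_lit 0, nat_lit 3317402, false, false⟩,
 nat_lit 0, nat_lit 7805, nat_lit 0, nat_lit 0, nat_lit 4543, nat_lit 0, nat_lit 0, nat_lit 0, nat_lit 0, nat_lit 0, nat_lit 0, nat_lit 0, nat_lit 0, nat_lit 0, nat_lit 143, nat_lit 720400, nat_lit 0, nat_lit 0, [(nat_lit 9, [(nat_lit 5, nat_lit 466), (nat_lit 6, nat_lit 534)])],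
 ⟨p036_k27, nat_lit 0, nat_lit 0, nat_lit 185, nat_lit 0, nat_lit 217687, [nat_lit 3585420801, nat_lit 2569890667, nat_lit 106261333], [], [nat_lit 13321521811, nat_lit 13939264248, nat_lit 13091555023, nat_lit 13698186408, nat_lit 14981021932, nat_lit 15547376985, nat_lit 14726056780, nat_lit 15282442709], nat_lit 1271250, nat_lit 1271250, nat_lit 230001, nat_lit 356250, nat_lit 1271250, nat_lit 1271250, [nat_lit 1100000, nat_lit 1442500, nat_lit 1271250], [nat_lit 11, nat_lit 40, nat_lit 20, nat_lit 80, nat_lit 1, nat_lit 373, nat_lit 150, nat_lit 10]⟩, C1.Rw.none,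
 ⟨nat_lit 5700, nat_lit 5917, ⟨.ofNat (nat_lit 244547), .ofNat (nat_lit 283814), .ofNat (nat_lit 249882), .ofNat (nat_lit 289149), .ofNat (nat_lit 251813), .ofNat (nat_lit 290172), .ofNat (nat_lit 257148), .ofNat (nat_lit 295508)⟩, ⟨.ofNat (nat_lit 307945), .ofNat (nat_lit 386479), .ofNat (nat_lit 329284), .ofNat (nat_lit 407818), .ofNat (nat_lit 307921), .ofNat (nat_lit 384640), .ofNat (nat_lit 329263), .ofNat (nat_lit 405982)⟩⟩, [⟨nat_lit 0, nat_lit 100, nat_lit 98, nat_lit 64, nat_lit 161013266⟩, ⟨nat_lit 4, nat_lit 100, nat_lit 97, nat_lit 54, nat_lit 298389543⟩]⟩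
noncomputable def p036_l98 : Lf2 := ⟨nat_lit 0, nat_lit 10, [nat_lit 0, nat_lit 5, nat_lit 5, nat_lit 20], true, nat_lit 200, nat_lit 240, nat_lit 0, nat_lit 272, ⟨nat_lit 0, nat_lit 0, nat_lit 1000, nat_lit 6, nat_lit 124, nat_lit 1000, nat_lit 143, nat_lit 1000, nat_lit 190817, nat_lit 322, nat_lit 144150, nat_lit 308, nat_lit 52791562, nat_lit 0, nat_lit 0, nat_lit 3533747, false, false⟩,
 nat_lit 0, nat_lit 7650, nat_lit 0, nat_lit 0, nat_lit 4452, nat_lit 0, nat_lit 0, nat_lit 0, nat_lit 0, nat_lit 0, nat_lit 0, nat_lit 0, nat_lit 0, nat_lit 0, nat_lit 142, nat_lit 712000, nat_lit 0, nat_lit 0, [(nat_lit 9, [(nat_lit 5, nat_lit 480), (nat_lit 6, nat_lit 520)])],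
 ⟨p036_k27, nat_lit 0, nat_lit 0, nat_lit 170, nat_lit 0, nat_lit 217687, [nat_lit 3575424000, nat_lit 2554053334, nat_lit 115706666], [], [nat_lit 13040356262, nat_lit 13569983528, nat_lit 12945830594, nat_lit 13491373280, nat_lit 14507766574, nat_lit 15019601642, nat_lit 14412052190, nat_lit 14913356538], nat_lit 1271250, nat_lit 1271250, nat_lit 356250, nat_lit 490000, nat_lit 1271250, nat_lit 1271250, [nat_lit 1100000, nat_lit 1442500, nat_lit 1271250], [nat_lit 11, nat_lit 40, nat_lit 20, nat_lit 80, nat_lit 1, nat_lit 373, nat_lit 150, nat_lit 10]⟩, C1.Rw.none,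
 ⟨nat_lit 5700, nat_lit 5917, ⟨.ofNat (nat_lit 283814), .ofNat (nat_lit 323081), .ofNat (nat_lit 289149), .ofNat (nat_lit 328416), .ofNat (nat_lit 290172), .ofNat (nat_lit 328532), .ofNat (nat_lit 295508), .ofNat (nat_lit 333867)⟩, ⟨.ofNat (nat_lit 307945), .ofNat (nat_lit 386479), .ofNat (nat_lit 329284), .ofNat (nat_lit 407818), .ofNat (nat_lit 307921), .ofNat (nat_lit 384640), .ofNat (nat_lit 329263), .ofNat (nat_lit 405982)⟩⟩, [⟨nat_lit 4, nat_lit 100, nat_lit 97, nat_lit 54, nat_lit 260572220⟩]⟩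
noncomputable def b_VL_600_600_5_45 : St := ⟨true, nat_lit 1, nat_lit 1, nat_lit 1, nat_lit 40, nat_lit 260, nat_lit 270, nat_lit 250, nat_lit 260, nat_lit 28, nat_lit 80, nat_lit 20, nat_lit 40, nat_lit 200, nat_lit 240, nat_lit 0, nat_lit 280, nat_lit 20, nat_lit 40, nat_lit 0, nat_lit 0, nat_lit 0, nat_lit 0⟩
theorem d_VL_600_600_5_45 (h : EB TB.env) : Dead b_VL_600_600_5_45 := chkB_sound0 h (T :=
(.spl (nat_lit 1) (nat_lit 255)
(.leaf p036_l94)
(.trZ (nat_lit 0) (nat_lit 100) (nat_lit 99) (nat_lit 57) (nat_lit 32) (.trX (nat_lit 19) (nat_lit 100) (nat_lit 97) (nat_lit 62) (nat_lit 272) (.spl (nat_lit 2) (nat_lit 60)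
(.spl (nat_lit 2) (nat_lit 40)
(.spl (nat_lit 4) (nat_lit 220)
(.leaf p036_l95)
(.leaf p036_l96))
(.leaf p036_l97))
(.leaf p036_l98)))))) (by decide +kernel)
noncomputable def p036_l99 : Lf2 := ⟨nat_lit 0, nat_lit 10, [nat_lit 0, nat_lit 5, nat_lit 5, nat_lit 20], false, nat_lit 200, nat_lit 240, nat_lit 0, nat_lit 160, ⟨nat_lit 201, nat_lit 0, nat_lit 799, nat_lit 6, nat_lit 146, nat_lit 799, nat_lit 143, nat_lit 799, nat_lit 190817, nat_lit 322, nat_lit 198017, nat_lit 324, nat_lit 51031809, nat_lit 0, nat_lit 0, nat_lit 3819929, false, false⟩,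
 nat_lit 2137, nat_lit 6973, nat_lit 0, nat_lit 0, nat_lit 5302, nat_lit 1187, nat_lit 295, nat_lit 0, nat_lit 0, nat_lit 585, nat_lit 0, nat_lit 0, nat_lit 0, nat_lit 0, nat_lit 83, nat_lit 799000, nat_lit 0, nat_lit 0, [(nat_lit 9, [(nat_lit 6, nat_lit 799)])],
 ⟨p036_k27, nat_lit 0, nat_lit 0, nat_lit 289, nat_lit 0, nat_lit 421918, [nat_lit 3147270401, nat_lit 2573745334, nat_lit 160723466], [], [nat_lit 12674788870, nat_lit 13266533731, nat_lit 12828959502, nat_lit 13389830787, nat_lit 14214215016, nat_lit 14757009814, nat_lit 14308363730, nat_lit 14863226474], nat_lit 1271250, nat_lit 1271250, nat_lit 490000, nat_lit 780000, nat_lit 1271250, nat_lit 1271250, [nat_lit 1100000, nat_lit 1442500, nat_lit 1271250], [nat_lit 11, nat_lit 40, nat_lit 20, nat_lit 80, nat_lit 1, nat_lit 401, nat_lit 175, nat_lit 11]⟩, ⟨p036_k14, nat_lit 0, nat_lit 0, nat_lit 440, nat_lit 0, nat_lit 445905, [nat_lit 942288000, nat_lit 1256250000,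 nat_lit 1978242000], [], [nat_lit 7544869489, nat_lit 7231063486, nat_lit 6294369737, nat_lit 5985287994, nat_lit 6563979475, nat_lit 6284318714, nat_lit 7059157855, nat_lit 6783238518], nat_lit 1271250, nat_lit 1271250, nat_lit 490000, nat_lit 780000, nat_lit 0, nat_lit 1100001, [nat_lit 1100000, nat_lit 1442500, nat_lit 1271250], [nat_lit 11, nat_lit 40, nat_lit 20, nat_lit 80, nat_lit 1, nat_lit 373, nat_lit 150, nat_lit 11]⟩,
 ⟨nat_lit 5700, nat_lit 5917, ⟨.ofNat (nat_lit 317746), .ofNat (nat_lit 396280), .ofNat (nat_lit 328416), .ofNat (nat_lit 406949), .ofNat (nat_lit 323196), .ofNat (nat_lit 399915), .ofNat (nat_lit 333867), .ofNat (nat_lit 410586)⟩, ⟨.ofNat (nat_lit 307945), .ofNat (nat_lit 386479), .ofNat (nat_lit 329284), .ofNat (nat_lit 407818), .ofNat (nat_lit 307921), .ofNat (nat_lit 384640), .ofNat (nat_lit 329263), .ofNat (nat_lit 405982)⟩⟩, [⟨nat_lit 4, nat_lit 100, nat_lit 97, nat_lit 54, nat_lit 369656869⟩]⟩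
noncomputable def p036_l100 : Lf2 := ⟨nat_lit 0, nat_lit 10, [nat_lit 0, nat_lit 5, nat_lit 5, nat_lit 20], false, nat_lit 200, nat_lit 240, nat_lit 160, nat_lit 280, ⟨nat_lit 636, nat_lit 0, nat_lit 364, nat_lit 6, nat_lit 146, nat_lit 364, nat_lit 143, nat_lit 364, nat_lit 190817, nat_lit 322, nat_lit 198017, nat_lit 324, nat_lit 51031809, nat_lit 0, nat_lit 0, nat_lit 3819929, false, false⟩,
 nat_lit 15262, nat_lit 0, nat_lit 0, nat_lit 0, nat_lit 8883, nat_lit 8478, nat_lit 1298, nat_lit 0, nat_lit 0, nat_lit 1011, nat_lit 0, nat_lit 0, nat_lit 0, nat_lit 0, nat_lit 0, nat_lit 364000, nat_lit 0, nat_lit 0, [(nat_lit 9, [(nat_lit 6, nat_lit 364)])],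
 ⟨p036_k27, nat_lit 0, nat_lit 0, nat_lit 289, nat_lit 0, nat_lit 421918, [nat_lit 3381094400, nat_lit 3818965334, nat_lit 4309491200], [], [nat_lit 12259119422, nat_lit 13015992265, nat_lit 11570407331, nat_lit 12284952384, nat_lit 13898805998, nat_lit 14663391731, nat_lit 13111105290, nat_lit 14018397181], nat_lit 1271250, nat_lit 1271250, nat_lit 490000, nat_lit 780000, nat_lit 1271250, nat_lit 1271250, [nat_lit 1100000, nat_lit 1442500, nat_lit 1271250], [nat_lit 11, nat_lit 40, nat_lit 20, nat_lit 80, nat_lit 1, nat_lit 401, nat_lit 175, nat_lit 11]⟩, ⟨p036_k14, nat_lit 0, nat_lit 0, nat_lit 302, nat_lit 0, nat_lit 445905, [nat_lit 2981568000, nat_lit 3975000000, nat_lit 6259512000], [], [nat_lit 11631812994, nat_lit 9456960132, nat_lit 6377878632, nat_lit 6738237720, nat_lit 13016566323, nat_lit 12194085990, nat_lit 15402674190, nat_lit 13377356292], nat_lit 1271250, nat_lit 1271250, nat_lit 490000, nat_lit 780000,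 nat_lit 1100001, nat_lit 2127500, [nat_lit 1100000, nat_lit 1442500, nat_lit 1271250], [nat_lit 11, nat_lit 40, nat_lit 20, nat_lit 80, nat_lit 1, nat_lit 401, nat_lit 175, nat_lit 11]⟩,
 ⟨nat_lit 5700, nat_lit 5917, ⟨.ofNat (nat_lit 317746), .ofNat (nat_lit 396280), .ofNat (nat_lit 328416), .ofNat (nat_lit 406949), .ofNat (nat_lit 323196), .ofNat (nat_lit 399915), .ofNat (nat_lit 333867), .ofNat (nat_lit 410586)⟩, ⟨.ofNat (nat_lit 307945), .ofNat (nat_lit 386479), .ofNat (nat_lit 329284), .ofNat (nat_lit 407818), .ofNat (nat_lit 307921), .ofNat (nat_lit 384640), .ofNat (nat_lit 329263), .ofNat (nat_lit 405982)⟩⟩, [⟨nat_lit 4, nat_lit 100, nat_lit 97, nat_lit 54, nat_lit 603153878⟩, ⟨nat_lit 7, nat_lit 100, nat_lit 100, nat_lit 55, nat_lit 353497177⟩]⟩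
noncomputable def b_VL_600_600_5_46 : St := ⟨true, nat_lit 1, nat_lit 1, nat_lit 1, nat_lit 40, nat_lit 260, nat_lit 270, nat_lit 250, nat_lit 260, nat_lit 80, nat_lit 120, nat_lit 20, nat_lit 40, nat_lit 200, nat_lit 240, nat_lit 0, nat_lit 280, nat_lit 0, nat_lit 40, nat_lit 0, nat_lit 0, nat_lit 0, nat_lit 0⟩
theorem d_VL_600_600_5_46 (h : EB TB.env) : Dead b_VL_600_600_5_46 := chkB_sound0 h (T :=
(.spl (nat_lit 5) (nat_lit 160)
(.leaf p036_l99)
(.leaf p036_l100))) (by decide +kernel)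
noncomputable def p036_l101 : Lf2 := ⟨nat_lit 0, nat_lit 2, [nat_lit 10, nat_lit 5, nat_lit 5, nat_lit 20], false, nat_lit 160, nat_lit 200, nat_lit 0, nat_lit 288, ⟨nat_lit 0, nat_lit 0, nat_lit 1000, nat_lit 6, nat_lit 124, nat_lit 1000, nat_lit 112, nat_lit 1000, nat_lit 117600, nat_lit 299, nat_lit 144150, nat_lit 308, nat_lit 55272165, nat_lit 0, nat_lit 0, nat_lit 3110659, false, false⟩,
 nat_lit 0, nat_lit 7157, nat_lit 0, nat_lit 0, nat_lit 4358, nat_lit 0, nat_lit 0, nat_lit 0, nat_lit 0, nat_lit 0, nat_lit 0, nat_lit 0, nat_lit 0, nat_lit 0, nat_lit 37, nat_lit 1000000, nat_lit 0, nat_lit 0, [(nat_lit 9, [(nat_lit 6, nat_lit 1000)])],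
 ⟨p036_k42, nat_lit 0, nat_lit 0, nat_lit 189, nat_lit 0, nat_lit 366693, [nat_lit 1689600001, nat_lit 0], [], [nat_lit 12541359197, nat_lit 13202548911, nat_lit 12464887272, nat_lit 13062804842, nat_lit 14139266858, nat_lit 14750097201, nat_lit 13925120681, nat_lit 14478348854], nat_lit 1271250, nat_lit 1271250, nat_lit 157850, nat_lit 780000, nat_lit 1100001, nat_lit 1442500, [nat_lit 1100000, nat_lit 1442500], [nat_lit 31, nat_lit 40, nat_lit 20, nat_lit 80, nat_lit 3, nat_lit 317, nat_lit 100, nat_lit 12]⟩, ⟨p036_k43, nat_lit 0, nat_lit 0, nat_lit 386, nat_lit 0, nat_lit 429281, [nat_lit 0, nat_lit 0, nat_lit 0], [], [nat_lit 0, nat_lit 0, nat_lit 0, nat_lit 0, nat_lit 0, nat_lit 0, nat_lit 0, nat_lit 0], nat_lit 1271250, nat_lit 1271250, nat_lit 157850, nat_lit 780000, nat_lit 0, nat_lit 2034000, [nat_lit 1100000, nat_lit 1442500, nat_lit 1271250], [nat_lit 9, nat_lit 40, nat_lit 20, nat_lit 80, nat_lit 2, nat_lit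 345, nat_lit 125, nat_lit 12]⟩,
 ⟨nat_lit 5477, nat_lit 5701, ⟨.ofNat (nat_lit 212791), .ofNat (nat_lit 389244), .ofNat (nat_lit 223462), .ofNat (nat_lit 399915), .ofNat (nat_lit 220501), .ofNat (nat_lit 392847), .ofNat (nat_lit 231179), .ofNat (nat_lit 403525)⟩, ⟨.ofNat (nat_lit 231202), .ofNat (nat_lit 307921), .ofNat (nat_lit 252544), .ofNat (nat_lit 329263), .ofNat (nat_lit 232852), .ofNat (nat_lit 307785), .ofNat (nat_lit 254209), .ofNat (nat_lit 329142)⟩⟩, [⟨nat_lit 0, nat_lit 100, nat_lit 95, nat_lit 64, nat_lit 127143594⟩]⟩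
noncomputable def p036_l102 : Lf2 := ⟨nat_lit 0, nat_lit 5, [nat_lit 4, nat_lit 5, nat_lit 5, nat_lit 20], true, nat_lit 160, nat_lit 200, nat_lit 0, nat_lit 288, ⟨nat_lit 0, nat_lit 0, nat_lit 1000, nat_lit 6, nat_lit 109, nat_lit 1000, nat_lit 112, nat_lit 1000, nat_lit 117600, nat_lit 299, nat_lit 109350, nat_lit 296, nat_lit 56478628, nat_lit 0, nat_lit 0, nat_lit 2887749, false, false⟩,
 nat_lit 0, nat_lit 7157, nat_lit 0, nat_lit 0, nat_lit 4358, nat_lit 0, nat_lit 0, nat_lit 0, nat_lit 0, nat_lit 0, nat_lit 0, nat_lit 0, nat_lit 0, nat_lit 0, nat_lit 117, nat_lit 1000000, nat_lit 0, nat_lit 0, [(nat_lit 9, [(nat_lit 6, nat_lit 1000)])],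
 ⟨p036_k44, nat_lit 0, nat_lit 0, nat_lit 194, nat_lit 0, nat_lit 302355, [nat_lit 2969600000, nat_lit 1600000000, nat_lit 226400000], [], [nat_lit 12541359195, nat_lit 13202548909, nat_lit 12075628424, nat_lit 12705460000, nat_lit 14139266856, nat_lit 14750097199, nat_lit 13611258583, nat_lit 14193630336], nat_lit 1271250, nat_lit 1271250, nat_lit 157850, nat_lit 490000, nat_lit 1100001, nat_lit 1442500, [nat_lit 1100000, nat_lit 1442500, nat_lit 1271250], [nat_lit 9, nat_lit 40, nat_lit 20, nat_lit 80, nat_lit 2, nat_lit 289, nat_lit 75, nat_lit 9]⟩, C1.Rw.none,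
 ⟨nat_lit 5477, nat_lit 5701, ⟨.ofNat (nat_lit 212791), .ofNat (nat_lit 312525), .ofNat (nat_lit 223462), .ofNat (nat_lit 323196), .ofNat (nat_lit 220501), .ofNat (nat_lit 317913), .ofNat (nat_lit 231179), .ofNat (nat_lit 328592)⟩, ⟨.ofNat (nat_lit 231202), .ofNat (nat_lit 307921), .ofNat (nat_lit 252544), .ofNat (nat_lit 329263), .ofNat (nat_lit 232852), .ofNat (nat_lit 307785), .ofNat (nat_lit 254209), .ofNat (nat_lit 329142)⟩⟩, [⟨nat_lit 0, nat_lit 100, nat_lit 95, nat_lit 64, nat_lit 165320371⟩]⟩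
noncomputable def p036_l103 : Lf2 := ⟨nat_lit 0, nat_lit 5, [nat_lit 4, nat_lit 5, nat_lit 5, nat_lit 20], false, nat_lit 160, nat_lit 200, nat_lit 0, nat_lit 288, ⟨nat_lit 0, nat_lit 0, nat_lit 1000, nat_lit 6, nat_lit 143, nat_lit 1000, nat_lit 112, nat_lit 1000, nat_lit 117600, nat_lit 299, nat_lit 194400, nat_lit 323, nat_lit 53618118, nat_lit 0, nat_lit 0, nat_lit 3381898, false, false⟩,
 nat_lit 0, nat_lit 7714, nat_lit 0, nat_lit 0, nat_lit 4697, nat_lit 0, nat_lit 0, nat_lit 0, nat_lit 0, nat_lit 0, nat_lit 0, nat_lit 0, nat_lit 0, nat_lit 0, nat_lit 117, nat_lit 1000000, nat_lit 0, nat_lit 0, [(nat_lit 9, [(nat_lit 6, nat_lit 1000)])],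
 ⟨p036_k44, nat_lit 0, nat_lit 0, nat_lit 158, nat_lit 0, nat_lit 302355, [nat_lit 2969600000, nat_lit 1600000000, nat_lit 226400000], [], [nat_lit 11350279616, nat_lit 12003730000, nat_lit 11699955805, nat_lit 12319710060, nat_lit 12919321785, nat_lit 13522543224, nat_lit 13189745099, nat_lit 13762209318], nat_lit 1271250, nat_lit 1271250, nat_lit 490000, nat_lit 780000, nat_lit 1100001, nat_lit 1442500, [nat_lit 1100000, nat_lit 1442500, nat_lit 1271250], [nat_lit 9, nat_lit 40, nat_lit 20, nat_lit 80, nat_lit 2, nat_lit 317, nat_lit 100, nat_lit 10]⟩, ⟨p036_k30, nat_lit 0, nat_lit 0, nat_lit 357, nat_lit 0, nat_lit 355172, [nat_lit 0, nat_lit 0, nat_lit 0], [], [nat_lit 0, nat_lit 0, nat_lit 0, nat_lit 0, nat_lit 0, nat_lit 0, nat_lit 0, nat_lit 0], nat_lit 1271250, nat_lit 1271250, nat_lit 490000, nat_lit 780000, nat_lit 0, nat_lit 2034000, [nat_lit 1100000, nat_lit 1442500, nat_lit 1271250], [nat_lit 11, nat_lit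 40, nat_lit 20, nat_lit 80, nat_lit 1, nat_lit 401, nat_lit 175, nat_lit 12]⟩,
 ⟨nat_lit 5477, nat_lit 5701, ⟨.ofNat (nat_lit 312525), .ofNat (nat_lit 389244), .ofNat (nat_lit 323196), .ofNat (nat_lit 399915), .ofNat (nat_lit 317913), .ofNat (nat_lit 392847), .ofNat (nat_lit 328592), .ofNat (nat_lit 403525)⟩, ⟨.ofNat (nat_lit 231202), .ofNat (nat_lit 307921), .ofNat (nat_lit 252544), .ofNat (nat_lit 329263), .ofNat (nat_lit 232852), .ofNat (nat_lit 307785), .ofNat (nat_lit 254209), .ofNat (nat_lit 329142)⟩⟩, []⟩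
noncomputable def p036_l104 : Lf2 := ⟨nat_lit 0, nat_lit 2, [nat_lit 10, nat_lit 5, nat_lit 5, nat_lit 20], false, nat_lit 200, nat_lit 240, nat_lit 0, nat_lit 288, ⟨nat_lit 0, nat_lit 0, nat_lit 1000, nat_lit 6, nat_lit 124, nat_lit 1000, nat_lit 143, nat_lit 1000, nat_lit 190817, nat_lit 322, nat_lit 144150, nat_lit 308, nat_lit 52820796, nat_lit 0, nat_lit 0, nat_lit 3529335, false, false⟩,
 nat_lit 0, nat_lit 6863, nat_lit 0, nat_lit 0, nat_lit 4179, nat_lit 0, nat_lit 0, nat_lit 0, nat_lit 0, nat_lit 0, nat_lit 0, nat_lit 0, nat_lit 0, nat_lit 0, nat_lit 37, nat_lit 1000000, nat_lit 0, nat_lit 0, [(nat_lit 9, [(nat_lit 6, nat_lit 1000)])],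
 ⟨p036_k42, nat_lit 0, nat_lit 0, nat_lit 177, nat_lit 0, nat_lit 366693, [nat_lit 1689600001, nat_lit 0], [], [nat_lit 14442785630, nat_lit 15041819802, nat_lit 14313416342, nat_lit 14856487428, nat_lit 16021620160, nat_lit 16652615688, nat_lit 15758043546, nat_lit 16257798434], nat_lit 1271250, nat_lit 1271250, nat_lit 157850, nat_lit 780000, nat_lit 1271250, nat_lit 1271250, [nat_lit 1100000, nat_lit 1442500], [nat_lit 31, nat_lit 40, nat_lit 20, nat_lit 80, nat_lit 3, nat_lit 238, nat_lit 30, nat_lit 9]⟩, ⟨p036_k43, nat_lit 0, nat_lit 0, nat_lit 386, nat_lit 0, nat_lit 429281, [nat_lit 0, nat_lit 0, nat_lit 0], [], [nat_lit 0, nat_lit 0, nat_lit 0, nat_lit 0, nat_lit 0, nat_lit 0, nat_lit 0, nat_lit 0], nat_lit 1271250, nat_lit 1271250, nat_lit 157850, nat_lit 780000, nat_lit 0, nat_lit 2034000, [nat_lit 1100000, nat_lit 1442500, nat_lit 1271250], [nat_lit 9, nat_lit 40, nat_lit 20, nat_lit 80, nat_lit 2, nat_lit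 345, nat_lit 125, nat_lit 12]⟩,
 ⟨nat_lit 5477, nat_lit 5701, ⟨.ofNat (nat_lit 212791), .ofNat (nat_lit 389244), .ofNat (nat_lit 223462), .ofNat (nat_lit 399915), .ofNat (nat_lit 220501), .ofNat (nat_lit 392847), .ofNat (nat_lit 231179), .ofNat (nat_lit 403525)⟩, ⟨.ofNat (nat_lit 307921), .ofNat (nat_lit 384640), .ofNat (nat_lit 329263), .ofNat (nat_lit 405982), .ofNat (nat_lit 307785), .ofNat (nat_lit 382718), .ofNat (nat_lit 329142), .ofNat (nat_lit 404075)⟩⟩, [⟨nat_lit 0, nat_lit 100, nat_lit 95, nat_lit 59, nat_lit 125044239⟩, ⟨nat_lit 4, nat_lit 100, nat_lit 94, nat_lit 53, nat_lit 306380890⟩]⟩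
noncomputable def p036_l105 : Lf2 := ⟨nat_lit 0, nat_lit 5, [nat_lit 4, nat_lit 5, nat_lit 5, nat_lit 20], false, nat_lit 200, nat_lit 240, nat_lit 0, nat_lit 288, ⟨nat_lit 0, nat_lit 0, nat_lit 1000, nat_lit 6, nat_lit 124, nat_lit 1000, nat_lit 143, nat_lit 1000, nat_lit 190817, nat_lit 322, nat_lit 144150, nat_lit 308, nat_lit 52820796, nat_lit 0, nat_lit 0, nat_lit 3529335, false, false⟩,
 nat_lit 0, nat_lit 6837, nat_lit 0, nat_lit 0, nat_lit 4163, nat_lit 0, nat_lit 0, nat_lit 0, nat_lit 0, nat_lit 0, nat_lit 0, nat_lit 0, nat_lit 0, nat_lit 0, nat_lit 117, nat_lit 1000000, nat_lit 0, nat_lit 0, [(nat_lit 9, [(nat_lit 6, nat_lit 1000)])],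
 ⟨p036_k44, nat_lit 0, nat_lit 0, nat_lit 199, nat_lit 0, nat_lit 302355, [nat_lit 2969600000, nat_lit 1600000000, nat_lit 226400000], [], [nat_lit 14469915798, nat_lit 15067895563, nat_lit 14348124332, nat_lit 14890287522, nat_lit 16047045467, nat_lit 16643602299, nat_lit 15791356568, nat_lit 16290326304], nat_lit 1271250, nat_lit 1271250, nat_lit 157850, nat_lit 780000, nat_lit 1271250, nat_lit 1271250, [nat_lit 1100000, nat_lit 1442500, nat_lit 1271250], [nat_lit 9, nat_lit 40, nat_lit 20, nat_lit 80, nat_lit 2, nat_lit 317, nat_lit 100, nat_lit 10]⟩, ⟨p036_k30, nat_lit 0, nat_lit 0, nat_lit 441, nat_lit 0, nat_lit 355172, [nat_lit 0, nat_lit 0, nat_lit 0], [], [nat_lit 0, nat_lit 0, nat_lit 0, nat_lit 0, nat_lit 0, nat_lit 0, nat_lit 0, nat_lit 0], nat_lit 1271250, nat_lit 1271250, nat_lit 157850, nat_lit 780000, nat_lit 0, nat_lit 2034000, [nat_lit 1100000, nat_lit 1442500, nat_lit 1271250], [nat_lit 11, nat_lit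 40, nat_lit 20, nat_lit 80, nat_lit 1, nat_lit 401, nat_lit 175, nat_lit 12]⟩,
 ⟨nat_lit 5477, nat_lit 5701, ⟨.ofNat (nat_lit 212791), .ofNat (nat_lit 389244), .ofNat (nat_lit 223462), .ofNat (nat_lit 399915), .ofNat (nat_lit 220501), .ofNat (nat_lit 392847), .ofNat (nat_lit 231179), .ofNat (nat_lit 403525)⟩, ⟨.ofNat (nat_lit 307921), .ofNat (nat_lit 384640), .ofNat (nat_lit 329263), .ofNat (nat_lit 405982), .ofNat (nat_lit 307785), .ofNat (nat_lit 382718), .ofNat (nat_lit 329142), .ofNat (nat_lit 404075)⟩⟩, [⟨nat_lit 0, nat_lit 100, nat_lit 95, nat_lit 59, nat_lit 124573323⟩, ⟨nat_lit 4, nat_lit 100, nat_lit 94, nat_lit 53, nat_lit 305965279⟩]⟩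
noncomputable def b_VL_600_600_5_47 : St := ⟨true, nat_lit 1, nat_lit 1, nat_lit 1, nat_lit 40, nat_lit 270, nat_lit 280, nat_lit 240, nat_lit 250, nat_lit 28, nat_lit 120, nat_lit 20, nat_lit 40, nat_lit 160, nat_lit 240, nat_lit 0, nat_lit 288, nat_lit 0, nat_lit 20, nat_lit 0, nat_lit 0, nat_lit 0, nat_lit 0⟩
theorem d_VL_600_600_5_47 (h : EB TB.env) : Dead b_VL_600_600_5_47 := chkB_sound0 h (T :=
(.spl (nat_lit 4) (nat_lit 200)
(.spl (nat_lit 6) (nat_lit 8)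
(.leaf p036_l101)
(.spl (nat_lit 2) (nat_lit 80)
(.leaf p036_l102)
(.leaf p036_l103)))
(.spl (nat_lit 6) (nat_lit 8)
(.leaf p036_l104)
(.leaf p036_l105)))) (by decide +kernel)
noncomputable def p036_l106 : Lf2 := ⟨nat_lit 0, nat_lit 2, [nat_lit 10, nat_lit 5, nat_lit 5, nat_lit 20], true, nat_lit 160, nat_lit 180, nat_lit 0, nat_lit 280, ⟨nat_lit 0, nat_lit 0, nat_lit 1000, nat_lit 6, nat_lit 116, nat_lit 1000, nat_lit 105, nat_lit 1000, nat_lit 101400, nat_lit 293, nat_lit 126150, nat_lit 302, nat_lit 56489366, nat_lit 0, nat_lit 0, nat_lit 2882961, false, false⟩,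
 nat_lit 0, nat_lit 7475, nat_lit 0, nat_lit 0, nat_lit 4552, nat_lit 0, nat_lit 0, nat_lit 0, nat_lit 0, nat_lit 0, nat_lit 0, nat_lit 0, nat_lit 0, nat_lit 0, nat_lit 37, nat_lit 1000000, nat_lit 0, nat_lit 0, [(nat_lit 9, [(nat_lit 6, nat_lit 1000)])],
 ⟨p036_k42, nat_lit 0, nat_lit 0, nat_lit 188, nat_lit 0, nat_lit 403404, [nat_lit 1689600001, nat_lit 0], [], [nat_lit 12006800761, nat_lit 12678549353, nat_lit 11660532058, nat_lit 12303880002, nat_lit 12812918511, nat_lit 13458838255, nat_lit 12437907506, nat_lit 13056733194], nat_lit 1271250, nat_lit 1271250, nat_lit 205650, nat_lit 490000, nat_lit 1100001, nat_lit 1271250, [nat_lit 1100000, nat_lit 1442500], [nat_lit 31, nat_lit 40, nat_lit 20, nat_lit 80, nat_lit 3, nat_lit 289, nat_lit 75, nat_lit 11]⟩, C1.Rw.none,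
 ⟨nat_lit 5477, nat_lit 5701, ⟨.ofNat (nat_lit 238805), .ofNat (nat_lit 323196), .ofNat (nat_lit 249476), .ofNat (nat_lit 333867), .ofNat (nat_lit 246166), .ofNat (nat_lit 328592), .ofNat (nat_lit 256844), .ofNat (nat_lit 339271)⟩, ⟨.ofNat (nat_lit 231202), .ofNat (nat_lit 269561), .ofNat (nat_lit 252544), .ofNat (nat_lit 290903), .ofNat (nat_lit 232852), .ofNat (nat_lit 270319), .ofNat (nat_lit 254209), .ofNat (nat_lit 291676)⟩⟩, [⟨nat_lit 0, nat_lit 100, nat_lit 96, nat_lit 69, nat_lit 158899183⟩]⟩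
noncomputable def p036_l107 : Lf2 := ⟨nat_lit 0, nat_lit 5, [nat_lit 4, nat_lit 5, nat_lit 5, nat_lit 20], true, nat_lit 160, nat_lit 180, nat_lit 0, nat_lit 280, ⟨nat_lit 0, nat_lit 0, nat_lit 1000, nat_lit 6, nat_lit 116, nat_lit 1000, nat_lit 105, nat_lit 1000, nat_lit 101400, nat_lit 293, nat_lit 126150, nat_lit 302, nat_lit 56489366, nat_lit 0, nat_lit 0, nat_lit 2882961, false, false⟩,
 nat_lit 0, nat_lit 7475, nat_lit 0, nat_lit 0, nat_lit 4552, nat_lit 0, nat_lit 0, nat_lit 0, nat_lit 0, nat_lit 0, nat_lit 0, nat_lit 0, nat_lit 0, nat_lit 0, nat_lit 117, nat_lit 1000000, nat_lit 0, nat_lit 0, [(nat_lit 9, [(nat_lit 6, nat_lit 1000)])],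
 ⟨p036_k44, nat_lit 0, nat_lit 0, nat_lit 199, nat_lit 0, nat_lit 340822, [nat_lit 2969600000, nat_lit 1600000000, nat_lit 226400000], [], [nat_lit 12006800759, nat_lit 12678549351, nat_lit 11660532056, nat_lit 12303880000, nat_lit 12812918509, nat_lit 13458838253, nat_lit 12437907504, nat_lit 13056733192], nat_lit 1271250, nat_lit 1271250, nat_lit 205650, nat_lit 490000, nat_lit 1100001, nat_lit 1271250, [nat_lit 1100000, nat_lit 1442500, nat_lit 1271250], [nat_lit 9, nat_lit 40, nat_lit 20, nat_lit 80, nat_lit 2, nat_lit 289, nat_lit 75, nat_lit 9]⟩, C1.Rw.none,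
 ⟨nat_lit 5477, nat_lit 5701, ⟨.ofNat (nat_lit 238805), .ofNat (nat_lit 323196), .ofNat (nat_lit 249476), .ofNat (nat_lit 333867), .ofNat (nat_lit 246166), .ofNat (nat_lit 328592), .ofNat (nat_lit 256844), .ofNat (nat_lit 339271)⟩, ⟨.ofNat (nat_lit 231202), .ofNat (nat_lit 269561), .ofNat (nat_lit 252544), .ofNat (nat_lit 290903), .ofNat (nat_lit 232852), .ofNat (nat_lit 270319), .ofNat (nat_lit 254209), .ofNat (nat_lit 291676)⟩⟩, [⟨nat_lit 0, nat_lit 100, nat_lit 96, nat_lit 69, nat_lit 158899183⟩]⟩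
noncomputable def p036_l108 : Lf2 := ⟨nat_lit 0, nat_lit 5, [nat_lit 4, nat_lit 5, nat_lit 5, nat_lit 20], false, nat_lit 160, nat_lit 180, nat_lit 0, nat_lit 280, ⟨nat_lit 52, nat_lit 0, nat_lit 948, nat_lit 6, nat_lit 148, nat_lit 948, nat_lit 105, nat_lit 948, nat_lit 101400, nat_lit 293, nat_lit 205350, nat_lit 326, nat_lit 53801261, nat_lit 0, nat_lit 0, nat_lit 3329986, false, false⟩,
 nat_lit 632, nat_lit 7640, nat_lit 0, nat_lit 0, nat_lit 5037, nat_lit 351, nat_lit 0, nat_lit 0, nat_lit 0, nat_lit 756, nat_lit 0, nat_lit 0, nat_lit 0, nat_lit 0, nat_lit 93, nat_lit 948000, nat_lit 0, nat_lit 0, [(nat_lit 9, [(nat_lit 6, nat_lit 948)])],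
 ⟨p036_k44, nat_lit 0, nat_lit 0, nat_lit 202, nat_lit 0, nat_lit 421173, [nat_lit 2772300801, nat_lit 1483480000, nat_lit 196951200], [], [nat_lit 10996192738, nat_lit 11673331602, nat_lit 11306169507, nat_lit 11947824862, nat_lit 11797469108, nat_lit 12448104854, nat_lit 12065885689, nat_lit 12682591871], nat_lit 1271250, nat_lit 1271250, nat_lit 490000, nat_lit 780000, nat_lit 1100001, nat_lit 1271250, [nat_lit 1100000, nat_lit 1442500, nat_lit 1271250], [nat_lit 9, nat_lit 40, nat_lit 20, nat_lit 80, nat_lit 2, nat_lit 289, nat_lit 75, nat_lit 9]⟩, ⟨p036_k7, nat_lit 0, nat_lit 0, nat_lit 366, nat_lit 0, nat_lit 467940, [nat_lit 243776000, nat_lit 325000000, nat_lit 414336000], [], [nat_lit 2114492321, nat_lit 2020259702, nat_lit 1739000945, nat_lit 1646207426, nat_lit 1586898203, nat_lit 1505292633, nat_lit 1734025299, nat_lit 1655563285], nat_lit 1271250, nat_lit 1271250, nat_lit 490000, nat_lit 780000, nat_lit 0,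 nat_lit 1977500, [nat_lit 1100000, nat_lit 1442500, nat_lit 1271250], [nat_lit 9, nat_lit 40, nat_lit 20, nat_lit 80, nat_lit 2, nat_lit 317, nat_lit 100, nat_lit 11]⟩,
 ⟨nat_lit 5477, nat_lit 5701, ⟨.ofNat (nat_lit 323196), .ofNat (nat_lit 399915), .ofNat (nat_lit 333867), .ofNat (nat_lit 410586), .ofNat (nat_lit 328592), .ofNat (nat_lit 403525), .ofNat (nat_lit 339271), .ofNat (nat_lit 414204)⟩, ⟨.ofNat (nat_lit 231202), .ofNat (nat_lit 269561), .ofNat (nat_lit 252544), .ofNat (nat_lit 290903), .ofNat (nat_lit 232852), .ofNat (nat_lit 270319), .ofNat (nat_lit 254209), .ofNat (nat_lit 291676)⟩⟩, []⟩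
noncomputable def p036_l109 : Lf2 := ⟨nat_lit 0, nat_lit 2, [nat_lit 10, nat_lit 5, nat_lit 5, nat_lit 20], false, nat_lit 180, nat_lit 200, nat_lit 0, nat_lit 280, ⟨nat_lit 43, nat_lit 0, nat_lit 957, nat_lit 6, nat_lit 116, nat_lit 957, nat_lit 120, nat_lit 957, nat_lit 135000, nat_lit 305, nat_lit 126150, nat_lit 302, nat_lit 55305513, nat_lit 0, nat_lit 0, nat_lit 3107342, false, false⟩,
 nat_lit 1171, nat_lit 6361, nat_lit 0, nat_lit 0, nat_lit 4587, nat_lit 650, nat_lit 0, nat_lit 0, nat_lit 0, nat_lit 764, nat_lit 0, nat_lit 0, nat_lit 0, nat_lit 0, nat_lit 22, nat_lit 957000, nat_lit 0, nat_lit 0, [(nat_lit 9, [(nat_lit 6, nat_lit 957)])],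
 ⟨p036_k42, nat_lit 0, nat_lit 0, nat_lit 178, nat_lit 0, nat_lit 403404, [nat_lit 1603987201, nat_lit 570000], [], [nat_lit 13057991301, nat_lit 13706350979, nat_lit 12673518195, nat_lit 13294639454, nat_lit 13865963343, nat_lit 14488343374, nat_lit 13452618452, nat_lit 14049074506], nat_lit 1271250, nat_lit 1271250, nat_lit 205650, nat_lit 490000, nat_lit 1271250, nat_lit 1271250, [nat_lit 1100000, nat_lit 1442500], [nat_lit 31, nat_lit 40, nat_lit 20, nat_lit 80, nat_lit 3, nat_lit 289, nat_lit 75, nat_lit 11]⟩, ⟨p036_k6, nat_lit 0, nat_lit 0, nat_lit 389, nat_lit 0, nat_lit 447215, [nat_lit 201584000, nat_lit 268750000, nat_lit 342624000], [], [nat_lit 1666863516, nat_lit 1497353916, nat_lit 924133866, nat_lit 847090604, nat_lit 1007482709, nat_lit 1071824155, nat_lit 996700566, nat_lit 849512616], nat_lit 1271250, nat_lit 1271250, nat_lit 205650, nat_lit 490000, nat_lit 0, nat_lit 1977500, [nat_lit 1100000, nat_lit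 1442500, nat_lit 1271250], [nat_lit 9, nat_lit 40, nat_lit 20, nat_lit 80, nat_lit 2, nat_lit 317, nat_lit 100, nat_lit 11]⟩,
 ⟨nat_lit 5477, nat_lit 5701, ⟨.ofNat (nat_lit 238805), .ofNat (nat_lit 323196), .ofNat (nat_lit 249476), .ofNat (nat_lit 333867), .ofNat (nat_lit 246166), .ofNat (nat_lit 328592), .ofNat (nat_lit 256844), .ofNat (nat_lit 339271)⟩, ⟨.ofNat (nat_lit 269561), .ofNat (nat_lit 307921), .ofNat (nat_lit 290903), .ofNat (nat_lit 329263), .ofNat (nat_lit 270319), .ofNat (nat_lit 307785), .ofNat (nat_lit 291676), .ofNat (nat_lit 329142)⟩⟩, [⟨nat_lit 0, nat_lit 100, nat_lit 96, nat_lit 69, nat_lit 215513588⟩]⟩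
noncomputable def p036_l110 : Lf2 := ⟨nat_lit 0, nat_lit 2, [nat_lit 10, nat_lit 5, nat_lit 5, nat_lit 20], false, nat_lit 180, nat_lit 200, nat_lit 0, nat_lit 280, ⟨nat_lit 12, nat_lit 0, nat_lit 988, nat_lit 6, nat_lit 148, nat_lit 988, nat_lit 120, nat_lit 988, nat_lit 135000, nat_lit 305, nat_lit 205350, nat_lit 326, nat_lit 52683454, nat_lit 0, nat_lit 0, nat_lit 3542239, false, false⟩,
 nat_lit 266, nat_lit 7521, nat_lit 0, nat_lit 0, nat_lit 4742, nat_lit 147, nat_lit 0, nat_lit 0, nat_lit 0, nat_lit 798, nat_lit 0, nat_lit 0, nat_lit 0, nat_lit 0, nat_lit 33, nat_lit 988000, nat_lit 0, nat_lit 0, [(nat_lit 9, [(nat_lit 6, nat_lit 988)])],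
 ⟨p036_k42, nat_lit 0, nat_lit 0, nat_lit 156, nat_lit 0, nat_lit 403404, [nat_lit 1668684801, nat_lit 3880000], [], [nat_lit 12126902674, nat_lit 12758190034, nat_lit 12431442153, nat_lit 13030277456, nat_lit 12913641369, nat_lit 13519630466, nat_lit 13178298473, nat_lit 13753316150], nat_lit 1271250, nat_lit 1271250, nat_lit 490000, nat_lit 780000, nat_lit 1271250, nat_lit 1271250, [nat_lit 1100000, nat_lit 1442500], [nat_lit 31, nat_lit 40, nat_lit 20, nat_lit 80, nat_lit 3, nat_lit 317, nat_lit 100, nat_lit 12]⟩, ⟨p036_k6, nat_lit 0, nat_lit 0, nat_lit 332, nat_lit 0, nat_lit 447215, [nat_lit 56256000, nat_lit 75000000, nat_lit 95616000], [], [nat_lit 384480453, nat_lit 345015510, nat_lit 227223381, nat_lit 190201188, nat_lit 270563609, nat_lit 236386917, nat_lit 318747692, nat_lit 285021849], nat_lit 1271250, nat_lit 1271250, nat_lit 490000, nat_lit 780000, nat_lit 0, nat_lit 1977500, [nat_lit 1100000, nat_lit 1442500,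 nat_lit 1271250], [nat_lit 9, nat_lit 40, nat_lit 20, nat_lit 80, nat_lit 2, nat_lit 317, nat_lit 100, nat_lit 11]⟩,
 ⟨nat_lit 5477, nat_lit 5701, ⟨.ofNat (nat_lit 323196), .ofNat (nat_lit 399915), .ofNat (nat_lit 333867), .ofNat (nat_lit 410586), .ofNat (nat_lit 328592), .ofNat (nat_lit 403525), .ofNat (nat_lit 339271), .ofNat (nat_lit 414204)⟩, ⟨.ofNat (nat_lit 269561), .ofNat (nat_lit 307921), .ofNat (nat_lit 290903), .ofNat (nat_lit 329263), .ofNat (nat_lit 270319), .ofNat (nat_lit 307785), .ofNat (nat_lit 291676), .ofNat (nat_lit 329142)⟩⟩, []⟩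
noncomputable def p036_l111 : Lf2 := ⟨nat_lit 0, nat_lit 5, [nat_lit 4, nat_lit 5, nat_lit 5, nat_lit 20], false, nat_lit 180, nat_lit 200, nat_lit 0, nat_lit 280, ⟨nat_lit 0, nat_lit 0, nat_lit 1000, nat_lit 6, nat_lit 130, nat_lit 1000, nat_lit 120, nat_lit 1000, nat_lit 135000, nat_lit 305, nat_lit 160067, nat_lit 313, nat_lit 54131784, nat_lit 0, nat_lit 0, nat_lit 3313815, false, false⟩,
 nat_lit 0, nat_lit 7380, nat_lit 0, nat_lit 0, nat_lit 4494, nat_lit 0, nat_lit 0, nat_lit 0, nat_lit 0, nat_lit 0, nat_lit 0, nat_lit 0, nat_lit 0, nat_lit 0, nat_lit 117, nat_lit 1000000, nat_lit 0, nat_lit 0, [(nat_lit 9, [(nat_lit 6, nat_lit 1000)])],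
 ⟨p036_k44, nat_lit 0, nat_lit 0, nat_lit 189, nat_lit 0, nat_lit 316794, [nat_lit 2969600000, nat_lit 1600000000, nat_lit 226400000], [], [nat_lit 12918481177, nat_lit 13239419389, nat_lit 12894057429, nat_lit 13185963254, nat_lit 13721526098, nat_lit 14029674836, nat_lit 13630102747, nat_lit 13910575392], nat_lit 1271250, nat_lit 1271250, nat_lit 205650, nat_lit 780000, nat_lit 1271250, nat_lit 1271250, [nat_lit 1100000, nat_lit 1442500, nat_lit 1271250], [nat_lit 9, nat_lit 40, nat_lit 20, nat_lit 80, nat_lit 2, nat_lit 317, nat_lit 100, nat_lit 10]⟩, ⟨p036_k7, nat_lit 0, nat_lit 0, nat_lit 323, nat_lit 0, nat_lit 351971, [nat_lit 0, nat_lit 0, nat_lit 0], [], [nat_lit 0, nat_lit 0, nat_lit 0, nat_lit 0, nat_lit 0, nat_lit 0, nat_lit 0, nat_lit 0], nat_lit 1271250, nat_lit 1271250, nat_lit 205650, nat_lit 780000, nat_lit 0, nat_lit 1977500, [nat_lit 1100000, nat_lit 1442500, nat_lit 1271250], [nat_lit 9, nat_lit 40,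 nat_lit 20, nat_lit 80, nat_lit 2, nat_lit 317, nat_lit 100, nat_lit 11]⟩,
 ⟨nat_lit 5590, nat_lit 5701, ⟨.ofNat (nat_lit 238805), .ofNat (nat_lit 399915), .ofNat (nat_lit 249476), .ofNat (nat_lit 410586), .ofNat (nat_lit 242495), .ofNat (nat_lit 401723), .ofNat (nat_lit 253169), .ofNat (nat_lit 412397)⟩, ⟨.ofNat (nat_lit 269561), .ofNat (nat_lit 307921), .ofNat (nat_lit 290903), .ofNat (nat_lit 329263), .ofNat (nat_lit 269956), .ofNat (nat_lit 307867), .ofNat (nat_lit 291304), .ofNat (nat_lit 329215)⟩⟩, [⟨nat_lit 0, nat_lit 100, nat_lit 97, nat_lit 67, nat_lit 122240081⟩]⟩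
noncomputable def p036_l112 : Lf2 := ⟨nat_lit 0, nat_lit 5, [nat_lit 4, nat_lit 5, nat_lit 5, nat_lit 20], false, nat_lit 180, nat_lit 200, nat_lit 0, nat_lit 280, ⟨nat_lit 0, nat_lit 0, nat_lit 1000, nat_lit 6, nat_lit 132, nat_lit 1000, nat_lit 120, nat_lit 1000, nat_lit 135000, nat_lit 305, nat_lit 163350, nat_lit 314, nat_lit 54036457, nat_lit 0, nat_lit 0, nat_lit 3329772, false, false⟩,
 nat_lit 0, nat_lit 7121, nat_lit 0, nat_lit 0, nat_lit 4433, nat_lit 0, nat_lit 0, nat_lit 0, nat_lit 0, nat_lit 0, nat_lit 0, nat_lit 0, nat_lit 0, nat_lit 0, nat_lit 117, nat_lit 1000000, nat_lit 0, nat_lit 0, [(nat_lit 9, [(nat_lit 6, nat_lit 1000)])],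
 ⟨p036_k45, nat_lit 0, nat_lit 0, nat_lit 198, nat_lit 0, nat_lit 332349, [nat_lit 2969600000, nat_lit 1600000000, nat_lit 226400000], [], [nat_lit 13348315967, nat_lit 13667127952, nat_lit 13319098964, nat_lit 13609157121, nat_lit 14135471059, nat_lit 14441624981, nat_lit 14041168935, nat_lit 14319910902], nat_lit 1271250, nat_lit 1271250, nat_lit 205650, nat_lit 780000, nat_lit 1271250, nat_lit 1271250, [nat_lit 1100000, nat_lit 1442500, nat_lit 1271250], [nat_lit 9, nat_lit 40, nat_lit 20, nat_lit 80, nat_lit 2, nat_lit 317, nat_lit 100, nat_lit 10]⟩, ⟨p036_k7, nat_lit 0, nat_lit 0, nat_lit 334, nat_lit 0, nat_lit 378667, [nat_lit 0, nat_lit 0, nat_lit 0], [], [nat_lit 0, nat_lit 0, nat_lit 0, nat_lit 0, nat_lit 0, nat_lit 0, nat_lit 0, nat_lit 0], nat_lit 1271250, nat_lit 1271250, nat_lit 205650, nat_lit 780000, nat_lit 0, nat_lit 1977500, [nat_lit 1100000, nat_lit 1442500, nat_lit 1271250], [nat_lit 9, nat_lit 40,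 nat_lit 20, nat_lit 80, nat_lit 2, nat_lit 317, nat_lit 100, nat_lit 11]⟩,
 ⟨nat_lit 5477, nat_lit 5591, ⟨.ofNat (nat_lit 242495), .ofNat (nat_lit 401723), .ofNat (nat_lit 253169), .ofNat (nat_lit 412397), .ofNat (nat_lit 246166), .ofNat (nat_lit 403525), .ofNat (nat_lit 256844), .ofNat (nat_lit 414204)⟩, ⟨.ofNat (nat_lit 269956), .ofNat (nat_lit 307867), .ofNat (nat_lit 291304), .ofNat (nat_lit 329215), .ofNat (nat_lit 270319), .ofNat (nat_lit 307785), .ofNat (nat_lit 291676), .ofNat (nat_lit 329142)⟩⟩, [⟨nat_lit 0, nat_lit 100, nat_lit 96, nat_lit 69, nat_lit 121805600⟩]⟩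
noncomputable def p036_l113 : Lf2 := ⟨nat_lit 0, nat_lit 2, [nat_lit 10, nat_lit 5, nat_lit 5, nat_lit 20], false, nat_lit 200, nat_lit 240, nat_lit 0, nat_lit 80, ⟨nat_lit 410, nat_lit 0, nat_lit 590, nat_lit 6, nat_lit 108, nat_lit 590, nat_lit 143, nat_lit 590, nat_lit 190817, nat_lit 322, nat_lit 109350, nat_lit 296, nat_lit 54026203, nat_lit 0, nat_lit 0, nat_lit 3305646, false, false⟩,
 nat_lit 9941, nat_lit 0, nat_lit 0, nat_lit 0, nat_lit 6054, nat_lit 5522, nat_lit 745, nat_lit 0, nat_lit 0, nat_lit 915, nat_lit 0, nat_lit 0, nat_lit 0, nat_lit 0, nat_lit 0, nat_lit 590000, nat_lit 0, nat_lit 0, [(nat_lit 9, [(nat_lit 6, nat_lit 590)])],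
 ⟨p036_k42, nat_lit 0, nat_lit 0, nat_lit 173, nat_lit 0, nat_lit 380430, [nat_lit 2569664001, nat_lit 2125900000], [], [nat_lit 13909030828, nat_lit 14417321487, nat_lit 13314110781, nat_lit 13665394302, nat_lit 16277227460, nat_lit 16739512122, nat_lit 15211859110, nat_lit 15666815995], nat_lit 1271250, nat_lit 1271250, nat_lit 205650, nat_lit 356250, nat_lit 1271250, nat_lit 1271250, [nat_lit 1100000, nat_lit 1442500], [nat_lit 31, nat_lit 40, nat_lit 20, nat_lit 80, nat_lit 3, nat_lit 226, nat_lit 20, nat_lit 8]⟩, ⟨p036_k6, nat_lit 0, nat_lit 0, nat_lit 378, nat_lit 0, nat_lit 421745, [nat_lit 1922080000, nat_lit 2562500000, nat_lit 3266880000], [], [nat_lit 10207420084, nat_lit 10170937271, nat_lit 7550348410, nat_lit 8477705292, nat_lit 4950716271, nat_lit 4233801810, nat_lit 5265476194, nat_lit 3918754268], nat_lit 1271250, nat_lit 1271250, nat_lit 205650, nat_lit 356250, nat_lit 0, nat_lit 490000, [nat_lit 1100000,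 nat_lit 1442500, nat_lit 1271250], [nat_lit 9, nat_lit 40, nat_lit 20, nat_lit 80, nat_lit 2, nat_lit 249, nat_lit 40, nat_lit 9]⟩,
 ⟨nat_lit 5590, nat_lit 5701, ⟨.ofNat (nat_lit 238805), .ofNat (nat_lit 284837), .ofNat (nat_lit 249476), .ofNat (nat_lit 295508), .ofNat (nat_lit 242495), .ofNat (nat_lit 287989), .ofNat (nat_lit 253169), .ofNat (nat_lit 298663)⟩, ⟨.ofNat (nat_lit 307921), .ofNat (nat_lit 384640), .ofNat (nat_lit 329263), .ofNat (nat_lit 405982), .ofNat (nat_lit 307867), .ofNat (nat_lit 383690), .ofNat (nat_lit 329215), .ofNat (nat_lit 405038)⟩⟩, [⟨nat_lit 0, nat_lit 100, nat_lit 97, nat_lit 59, nat_lit 897348553⟩, ⟨nat_lit 4, nat_lit 100, nat_lit 95, nat_lit 54, nat_lit 697608826⟩]⟩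
noncomputable def p036_l114 : Lf2 := ⟨nat_lit 0, nat_lit 2, [nat_lit 10, nat_lit 5, nat_lit 5, nat_lit 20], false, nat_lit 200, nat_lit 240, nat_lit 80, nat_lit 160, ⟨nat_lit 325, nat_lit 0, nat_lit 675, nat_lit 6, nat_lit 108, nat_lit 675, nat_lit 143, nat_lit 675, nat_lit 190817, nat_lit 322, nat_lit 109350, nat_lit 296, nat_lit 54026203, nat_lit 0, nat_lit 0, nat_lit 3305646, false, false⟩,
 nat_lit 10614, nat_lit 0, nat_lit 0, nat_lit 0, nat_lit 6464, nat_lit 5896, nat_lit 0, nat_lit 0, nat_lit 0, nat_lit 2163, nat_lit 0, nat_lit 0, nat_lit 0, nat_lit 0, nat_lit 0, nat_lit 270000, nat_lit 0, nat_lit 0, [(nat_lit 9, [(nat_lit 5, nat_lit 675)])],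
 ⟨p036_k42, nat_lit 0, nat_lit 0, nat_lit 173, nat_lit 0, nat_lit 380430, [nat_lit 2553920000, nat_lit 1891930000], [], [nat_lit 14021189827, nat_lit 14519387093, nat_lit 13196600708, nat_lit 13571566292, nat_lit 16428390361, nat_lit 16909214320, nat_lit 15261454760, nat_lit 15734606420], nat_lit 1271250, nat_lit 1271250, nat_lit 205650, nat_lit 356250, nat_lit 1271250, nat_lit 1271250, [nat_lit 1100000, nat_lit 1442500], [nat_lit 31, nat_lit 40, nat_lit 20, nat_lit 80, nat_lit 3, nat_lit 226, nat_lit 20, nat_lit 8]⟩, ⟨p036_k6, nat_lit 0, nat_lit 0, nat_lit 278, nat_lit 0, nat_lit 421745, [nat_lit 1523600000, nat_lit 2031250000, nat_lit 2589600000], [], [nat_lit 2608506388, nat_lit 3532323969, nat_lit 1169118604, nat_lit 2080247764, nat_lit 3599968168, nat_lit 3033543423, nat_lit 3964084864, nat_lit 2565477016], nat_lit 1271250, nat_lit 1271250, nat_lit 205650, nat_lit 356250, nat_lit 490000, nat_lit 1100001, [nat_lit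 1100000, nat_lit 1442500, nat_lit 1271250], [nat_lit 9, nat_lit 40, nat_lit 20, nat_lit 80, nat_lit 2, nat_lit 272, nat_lit 60, nat_lit 9]⟩,
 ⟨nat_lit 5590, nat_lit 5701, ⟨.ofNat (nat_lit 238805), .ofNat (nat_lit 284837), .ofNat (nat_lit 249476), .ofNat (nat_lit 295508), .ofNat (nat_lit 242495), .ofNat (nat_lit 287989), .ofNat (nat_lit 253169), .ofNat (nat_lit 298663)⟩, ⟨.ofNat (nat_lit 307921), .ofNat (nat_lit 384640), .ofNat (nat_lit 329263), .ofNat (nat_lit 405982), .ofNat (nat_lit 307867), .ofNat (nat_lit 383690), .ofNat (nat_lit 329215), .ofNat (nat_lit 405038)⟩⟩, [⟨nat_lit 0, nat_lit 100, nat_lit 97, nat_lit 63, nat_lit 66898066⟩, ⟨nat_lit 0, nat_lit 100, nat_lit 97, nat_lit 59, nat_lit 345164861⟩, ⟨nat_lit 4, nat_lit 100, nat_lit 95, nat_lit 54, nat_lit 663603961⟩]⟩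
noncomputable def p036_l115 : Lf2 := ⟨nat_lit 0, nat_lit 1, [nat_lit 19, nat_lit 5, nat_lit 5, nat_lit 20], false, nat_lit 200, nat_lit 220, nat_lit 160, nat_lit 280, ⟨nat_lit 174, nat_lit 0, nat_lit 826, nat_lit 6, nat_lit 108, nat_lit 826, nat_lit 135, nat_lit 826, nat_lit 170017, nat_lit 316, nat_lit 109350, nat_lit 296, nat_lit 54680293, nat_lit 0, nat_lit 0, nat_lit 3202184, false, false⟩,
 nat_lit 2908, nat_lit 5395, nat_lit 0, nat_lit 0, nat_lit 5056, nat_lit 1615, nat_lit 5, nat_lit 0, nat_lit 0, nat_lit 1180, nat_lit 0, nat_lit 0, nat_lit 0, nat_lit 0, nat_lit 0, nat_lit 826000, nat_lit 0, nat_lit 0, [(nat_lit 9, [(nat_lit 6, nat_lit 826)])],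
 ⟨p036_k46, nat_lit 0, nat_lit 0, nat_lit 168, nat_lit 0, nat_lit 374844, [nat_lit 1722329601, nat_lit 476260000], [], [nat_lit 14047639270, nat_lit 14349528939, nat_lit 13603578958, nat_lit 13899140508, nat_lit 14810713664, nat_lit 15247655503, nat_lit 14372200552, nat_lit 14678164625], nat_lit 1271250, nat_lit 1271250, nat_lit 205650, nat_lit 356250, nat_lit 1271250, nat_lit 1271250, [nat_lit 1100000, nat_lit 1442500], [nat_lit 31, nat_lit 40, nat_lit 20, nat_lit 80, nat_lit 3, nat_lit 226, nat_lit 20, nat_lit 8]⟩, ⟨p036_k0, nat_lit 0, nat_lit 0, nat_lit 216, nat_lit 0, nat_lit 415230, [nat_lit 815712000, nat_lit 1087500000], [], [nat_lit 5613594188, nat_lit 5192428028, nat_lit 4603124218, nat_lit 4185733928, nat_lit 3614776443, nat_lit 3681495069, nat_lit 3739219038, nat_lit 3345764082], nat_lit 1271250, nat_lit 1271250, nat_lit 205650, nat_lit 356250, nat_lit 1100001, nat_lit 2127500, [nat_lit 1100000, nat_lit 1442500],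 [nat_lit 31, nat_lit 40, nat_lit 20, nat_lit 80, nat_lit 3, nat_lit 317, nat_lit 100, nat_lit 12]⟩,
 ⟨nat_lit 5590, nat_lit 5701, ⟨.ofNat (nat_lit 238805), .ofNat (nat_lit 284837), .ofNat (nat_lit 249476), .ofNat (nat_lit 295508), .ofNat (nat_lit 242495), .ofNat (nat_lit 287989), .ofNat (nat_lit 253169), .ofNat (nat_lit 298663)⟩, ⟨.ofNat (nat_lit 307921), .ofNat (nat_lit 346280), .ofNat (nat_lit 329263), .ofNat (nat_lit 367622), .ofNat (nat_lit 307867), .ofNat (nat_lit 345779), .ofNat (nat_lit 329215), .ofNat (nat_lit 367127)⟩⟩, [⟨nat_lit 0, nat_lit 100, nat_lit 97, nat_lit 63, nat_lit 516985475⟩, ⟨nat_lit 4, nat_lit 100, nat_lit 95, nat_lit 54, nat_lit 164896234⟩]⟩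
noncomputable def p036_l116 : Lf2 := ⟨nat_lit 0, nat_lit 1, [nat_lit 19, nat_lit 5, nat_lit 5, nat_lit 20], false, nat_lit 220, nat_lit 240, nat_lit 160, nat_lit 200, ⟨nat_lit 302, nat_lit 0, nat_lit 698, nat_lit 6, nat_lit 107, nat_lit 698, nat_lit 150, nat_lit 698, nat_lit 212817, nat_lit 328, nat_lit 106667, nat_lit 295, nat_lit 53389779, nat_lit 0, nat_lit 0, nat_lit 3399206, false, false⟩,
 nat_lit 9058, nat_lit 0, nat_lit 0, nat_lit 0, nat_lit 5516, nat_lit 5032, nat_lit 368, nat_lit 0, nat_lit 0, nat_lit 1133, nat_lit 0, nat_lit 0, nat_lit 0, nat_lit 0, nat_lit 0, nat_lit 698000, nat_lit 0, nat_lit 0, [(nat_lit 9, [(nat_lit 6, nat_lit 698)])],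
 ⟨p036_k46, nat_lit 0, nat_lit 0, nat_lit 164, nat_lit 0, nat_lit 357123, [nat_lit 2181900800, nat_lit 1370980000], [], [nat_lit 14942079295, nat_lit 15032094481, nat_lit 14423412075, nat_lit 14487332564, nat_lit 16078872240, nat_lit 16166463737, nat_lit 15265508884, nat_lit 15326508999], nat_lit 1271250, nat_lit 1271250, nat_lit 205650, nat_lit 356250, nat_lit 1271250, nat_lit 1271250, [nat_lit 1100000, nat_lit 1442500], [nat_lit 31, nat_lit 40, nat_lit 20, nat_lit 80, nat_lit 3, nat_lit 226, nat_lit 20, nat_lit 8]⟩, ⟨p036_k0, nat_lit 0, nat_lit 0, nat_lit 197, nat_lit 0, nat_lit 395600, [nat_lit 1415776000, nat_lit 1887500000], [], [nat_lit 2235691896, nat_lit 2859106073, nat_lit 2520920636, nat_lit 1762207024, nat_lit 4712064596, nat_lit 4193525113, nat_lit 5037089412, nat_lit 3843207156], nat_lit 1271250, nat_lit 1271250, nat_lit 205650, nat_lit 356250, nat_lit 1100001, nat_lit 1442500, [nat_lit 1100000, nat_lit 1442500],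 [nat_lit 31, nat_lit 40, nat_lit 20, nat_lit 80, nat_lit 3, nat_lit 289, nat_lit 75, nat_lit 11]⟩,
 ⟨nat_lit 5678, nat_lit 5701, ⟨.ofNat (nat_lit 238805), .ofNat (nat_lit 284837), .ofNat (nat_lit 249476), .ofNat (nat_lit 295508), .ofNat (nat_lit 239545), .ofNat (nat_lit 285469), .ofNat (nat_lit 250216), .ofNat (nat_lit 296140)⟩, ⟨.ofNat (nat_lit 346280), .ofNat (nat_lit 384640), .ofNat (nat_lit 367622), .ofNat (nat_lit 405982), .ofNat (nat_lit 346182), .ofNat (nat_lit 384452), .ofNat (nat_lit 367525), .ofNat (nat_lit 405794)⟩⟩, [⟨nat_lit 0, nat_lit 100, nat_lit 97, nat_lit 62, nat_lit 339955299⟩, ⟨nat_lit 4, nat_lit 100, nat_lit 95, nat_lit 54, nat_lit 623299105⟩]⟩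
noncomputable def p036_l117 : Lf2 := ⟨nat_lit 0, nat_lit 1, [nat_lit 19, nat_lit 5, nat_lit 5, nat_lit 20], false, nat_lit 220, nat_lit 240, nat_lit 200, nat_lit 240, ⟨nat_lit 1000, nat_lit 0, nat_lit 0, nat_lit 0, nat_lit 0, nat_lit 0, nat_lit 0, nat_lit 0, nat_lit 0, nat_lit 0, nat_lit 0, nat_lit 0, nat_lit 0, nat_lit 0, nat_lit 0, nat_lit 0, false, false⟩,
 nat_lit 15428, nat_lit 0, nat_lit 0, nat_lit 0, nat_lit 8438, nat_lit 8571, nat_lit 1619, nat_lit 0, nat_lit 0, nat_lit 4932, nat_lit 0, nat_lit 0, nat_lit 0, nat_lit 0, nat_lit 0, nat_lit 0, nat_lit 0, nat_lit 0, [],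
 ⟨p036_k46, nat_lit 0, nat_lit 0, nat_lit 164, nat_lit 0, nat_lit 357123, [nat_lit 4688000000, nat_lit 6250000000], [], [nat_lit 15875992693, nat_lit 15967692445, nat_lit 14829178257, nat_lit 14903491088, nat_lit 17156184421, nat_lit 17270201200, nat_lit 15718249377, nat_lit 15788768572], nat_lit 1271250, nat_lit 1271250, nat_lit 205650, nat_lit 356250, nat_lit 1271250, nat_lit 1271250, [nat_lit 1100000, nat_lit 1442500], [nat_lit 31, nat_lit 40, nat_lit 20, nat_lit 80, nat_lit 3, nat_lit 226, nat_lit 20, nat_lit 8]⟩, ⟨p036_k0, nat_lit 0, nat_lit 0, nat_lit 177, nat_lit 0, nat_lit 395600, [nat_lit 4688000000, nat_lit 6250000000], [], [nat_lit 13110374602, nat_lit 13917630965, nat_lit 12095970300, nat_lit 12884504587, nat_lit 15093633281, nat_lit 16053024463, nat_lit 14038855631, nat_lit 14750499270], nat_lit 1271250, nat_lit 1271250, nat_lit 205650, nat_lit 356250, nat_lit 1271250, nat_lit 1271250, [nat_lit 1100000, nat_lit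 1442500], [nat_lit 31, nat_lit 40, nat_lit 20, nat_lit 80, nat_lit 3, nat_lit 226, nat_lit 20, nat_lit 8]⟩,
 zbF0, [⟨nat_lit 0, nat_lit 100, nat_lit 97, nat_lit 59, nat_lit 1177518884⟩, ⟨nat_lit 4, nat_lit 100, nat_lit 95, nat_lit 54, nat_lit 1052651949⟩]⟩
noncomputable def p036_l118 : Lf2 := ⟨nat_lit 0, nat_lit 1, [nat_lit 19, nat_lit 5, nat_lit 5, nat_lit 20], false, nat_lit 220, nat_lit 240, nat_lit 240, nat_lit 280, ⟨nat_lit 779, nat_lit 0, nat_lit 221, nat_lit 6, nat_lit 107, nat_lit 221, nat_lit 150, nat_lit 221, nat_lit 212817, nat_lit 328, nat_lit 106667, nat_lit 295, nat_lit 53389779, nat_lit 0, nat_lit 0, nat_lit 3399206, false, false⟩,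
 nat_lit 12324, nat_lit 0, nat_lit 0, nat_lit 0, nat_lit 7505, nat_lit 6846, nat_lit 1091, nat_lit 0, nat_lit 0, nat_lit 1665, nat_lit 0, nat_lit 0, nat_lit 0, nat_lit 0, nat_lit 0, nat_lit 88400, nat_lit 0, nat_lit 0, [(nat_lit 9, [(nat_lit 5, nat_lit 221)])],
 ⟨p036_k46, nat_lit 0, nat_lit 0, nat_lit 164, nat_lit 0, nat_lit 357123, [nat_lit 3989286401, nat_lit 4823135600], [], [nat_lit 15970586634, nat_lit 16041614148, nat_lit 15086442848, nat_lit 15155872753, nat_lit 16837829331, nat_lit 16917775788, nat_lit 15937065271, nat_lit 16003058576], nat_lit 1271250, nat_lit 1271250, nat_lit 205650, nat_lit 356250, nat_lit 1271250, nat_lit 1271250, [nat_lit 1100000, nat_lit 1442500], [nat_lit 31, nat_lit 40, nat_lit 20, nat_lit 80, nat_lit 3, nat_lit 226, nat_lit 20, nat_lit 8]⟩, ⟨p036_k0, nat_lit 0, nat_lit 0, nat_lit 210, nat_lit 0, nat_lit 395600, [nat_lit 3651952000, nat_lit 4868750000], [], [nat_lit 12708777550, nat_lit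 13218044283, nat_lit 11959327298, nat_lit 12416202012, nat_lit 15439641868, nat_lit 16233860989, nat_lit 14352570847, nat_lit 14953140121], nat_lit 1271250, nat_lit 1271250, nat_lit 205650, nat_lit 356250, nat_lit 1271250, nat_lit 1271250, [nat_lit 1100000, nat_lit 1442500], [nat_lit 31, nat_lit 40, nat_lit 20, nat_lit 80, nat_lit 3, nat_lit 226, nat_lit 20, nat_lit 8]⟩,
 ⟨nat_lit 5678, nat_lit 5701, ⟨.ofNat (nat_lit 238805), .ofNat (nat_lit 284837), .ofNat (nat_lit 249476), .ofNat (nat_lit 295508), .ofNat (nat_lit 239545), .ofNat (nat_lit 285469), .ofNat (nat_lit 250216), .ofNat (nat_lit 296140)⟩, ⟨.ofNat (nat_lit 346280), .ofNat (nat_lit 384640), .ofNat (nat_lit 367622), .ofNat (nat_lit 405982), .ofNat (nat_lit 346182), .ofNat (nat_lit 384452), .ofNat (nat_lit 367525), .ofNat (nat_lit 405794)⟩⟩, [⟨nat_lit 0, nat_lit 100, nat_lit 97, nat_lit 59, nat_lit 945380427⟩, ⟨nat_lit 19, nat_lit 100, nat_lit 95, nat_lit 62, nat_lit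 843551122⟩]⟩
noncomputable def p036_l119 : Lf2 := ⟨nat_lit 0, nat_lit 1, [nat_lit 19, nat_lit 5, nat_lit 5, nat_lit 20], false, nat_lit 220, nat_lit 240, nat_lit 160, nat_lit 280, ⟨nat_lit 174, nat_lit 0, nat_lit 826, nat_lit 6, nat_lit 107, nat_lit 826, nat_lit 150, nat_lit 826, nat_lit 212817, nat_lit 328, nat_lit 106667, nat_lit 295, nat_lit 53375062, nat_lit 0, nat_lit 0, nat_lit 3402359, false, false⟩,
 nat_lit 2922, nat_lit 5326, nat_lit 0, nat_lit 0, nat_lit 5045, nat_lit 1623, nat_lit 2, nat_lit 0, nat_lit 0, nat_lit 1167, nat_lit 0, nat_lit 0, nat_lit 0, nat_lit 0, nat_lit 0, nat_lit 826000, nat_lit 0, nat_lit 0, [(nat_lit 9, [(nat_lit 6, nat_lit 826)])],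
 ⟨p036_k47, nat_lit 0, nat_lit 0, nat_lit 165, nat_lit 0, nat_lit 359741, [nat_lit 1722329601, nat_lit 476260000], [], [nat_lit 14894237627, nat_lit 14981680680, nat_lit 14454083009, nat_lit 14515210596, nat_lit 15988551231, nat_lit 16071883211, nat_lit 15269268671, nat_lit 15327673435], nat_lit 1271250, nat_lit 1271250, nat_lit 205650, nat_lit 356250, nat_lit 1271250, nat_lit 1271250, [nat_lit 1100000, nat_lit 1442500], [nat_lit 31, nat_lit 40, nat_lit 20, nat_lit 80, nat_lit 3, nat_lit 226, nat_lit 20, nat_lit 8]⟩, ⟨p036_k0, nat_lit 0, nat_lit 0, nat_lit 211, nat_lit 0, nat_lit 400469, [nat_lit 815712000, nat_lit 1087500000], [], [nat_lit 5616081708, nat_lit 5192829276, nat_lit 4600606314, nat_lit 4181148456, nat_lit 3611490769, nat_lit 3686661600, nat_lit 3736030578, nat_lit 3348904866], nat_lit 1271250, nat_lit 1271250, nat_lit 205650, nat_lit 356250, nat_lit 1100001, nat_lit 2127500, [nat_lit 1100000, nat_lit 1442500],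 [nat_lit 31, nat_lit 40, nat_lit 20, nat_lit 80, nat_lit 3, nat_lit 317, nat_lit 100, nat_lit 12]⟩,
 ⟨nat_lit 5656, nat_lit 5679, ⟨.ofNat (nat_lit 239545), .ofNat (nat_lit 285469), .ofNat (nat_lit 250216), .ofNat (nat_lit 296140), .ofNat (nat_lit 240284), .ofNat (nat_lit 286100), .ofNat (nat_lit 250956), .ofNat (nat_lit 296772)⟩, ⟨.ofNat (nat_lit 346182), .ofNat (nat_lit 384452), .ofNat (nat_lit 367525), .ofNat (nat_lit 405794), .ofNat (nat_lit 346083), .ofNat (nat_lit 384262), .ofNat (nat_lit 367427), .ofNat (nat_lit 405606)⟩⟩, [⟨nat_lit 0, nat_lit 100, nat_lit 97, nat_lit 62, nat_lit 515961029⟩, ⟨nat_lit 4, nat_lit 100, nat_lit 95, nat_lit 54, nat_lit 589032329⟩]⟩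
noncomputable def p036_l120 : Lf2 := ⟨nat_lit 0, nat_lit 1, [nat_lit 19, nat_lit 5, nat_lit 5, nat_lit 20], false, nat_lit 220, nat_lit 240, nat_lit 160, nat_lit 280, ⟨nat_lit 171, nat_lit 0, nat_lit 829, nat_lit 6, nat_lit 108, nat_lit 829, nat_lit 150, nat_lit 829, nat_lit 212817, nat_lit 328, nat_lit 109350, nat_lit 296, nat_lit 53360376, nat_lit 0, nat_lit 0, nat_lit 3405499, false, false⟩,
 nat_lit 2864, nat_lit 5307, nat_lit 0, nat_lit 0, nat_lit 5020, nat_lit 1591, nat_lit 0, nat_lit 0, nat_lit 0, nat_lit 1145, nat_lit 0, nat_lit 0, nat_lit 0, nat_lit 0, nat_lit 0, nat_lit 829000, nat_lit 0, nat_lit 0, [(nat_lit 9, [(nat_lit 6, nat_lit 829)])],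
 ⟨p036_k48, nat_lit 0, nat_lit 0, nat_lit 167, nat_lit 0, nat_lit 362375, [nat_lit 1711558400, nat_lit 455290000], [], [nat_lit 14975449293, nat_lit 15061322309, nat_lit 14540541864, nat_lit 14601521209, nat_lit 16062213783, nat_lit 16145319674, nat_lit 15351741793, nat_lit 15410008798], nat_lit 1271250, nat_lit 1271250, nat_lit 205650, nat_lit 356250, nat_lit 1271250, nat_lit 1271250, [nat_lit 1100000, nat_lit 1442500], [nat_lit 31, nat_lit 40, nat_lit 20, nat_lit 80, nat_lit 3, nat_lit 226, nat_lit 20, nat_lit 8]⟩, ⟨p036_k0, nat_lit 0, nat_lit 0, nat_lit 213, nat_lit 0, nat_lit 405389, [nat_lit 801648000, nat_lit 1068750000], [], [nat_lit 5518003592, nat_lit 5103096248, nat_lit 4522549894, nat_lit 4111362308, nat_lit 3554341628, nat_lit 3620504069, nat_lit 3676685382, nat_lit 3289587966], nat_lit 1271250, nat_lit 1271250, nat_lit 205650, nat_lit 356250, nat_lit 1100001, nat_lit 2127500, [nat_lit 1100000, nat_lit 1442500],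 [nat_lit 31, nat_lit 40, nat_lit 20, nat_lit 80, nat_lit 3, nat_lit 317, nat_lit 100, nat_lit 12]⟩,
 ⟨nat_lit 5634, nat_lit 5657, ⟨.ofNat (nat_lit 240284), .ofNat (nat_lit 286100), .ofNat (nat_lit 250956), .ofNat (nat_lit 296772), .ofNat (nat_lit 241022), .ofNat (nat_lit 286730), .ofNat (nat_lit 251694), .ofNat (nat_lit 297402)⟩, ⟨.ofNat (nat_lit 346083), .ofNat (nat_lit 384262), .ofNat (nat_lit 367427), .ofNat (nat_lit 405606), .ofNat (nat_lit 345982), .ofNat (nat_lit 384073), .ofNat (nat_lit 367328), .ofNat (nat_lit 405418)⟩⟩, [⟨nat_lit 0, nat_lit 100, nat_lit 97, nat_lit 63, nat_lit 509232276⟩, ⟨nat_lit 4, nat_lit 100, nat_lit 95, nat_lit 54, nat_lit 583538735⟩]⟩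
noncomputable def p036_l121 : Lf2 := ⟨nat_lit 0, nat_lit 1, [nat_lit 19, nat_lit 5, nat_lit 5, nat_lit 20], false, nat_lit 220, nat_lit 240, nat_lit 160, nat_lit 280, ⟨nat_lit 168, nat_lit 0, nat_lit 832, nat_lit 6, nat_lit 108, nat_lit 832, nat_lit 150, nat_lit 832, nat_lit 212817, nat_lit 328, nat_lit 109350, nat_lit 296, nat_lit 53338418, nat_lit 0, nat_lit 0, nat_lit 3410185, false, false⟩,
 nat_lit 2815, nat_lit 5283, nat_lit 0, nat_lit 0, nat_lit 4997, nat_lit 1563, nat_lit 0, nat_lit 0, nat_lit 0, nat_lit 1124, nat_lit 0, nat_lit 0, nat_lit 0, nat_lit 0, nat_lit 0, nat_lit 832000, nat_lit 0, nat_lit 0, [(nat_lit 9, [(nat_lit 6, nat_lit 832)])],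
 ⟨p036_k49, nat_lit 0, nat_lit 0, nat_lit 170, nat_lit 0, nat_lit 369358, [nat_lit 1700787201, nat_lit 434320000], [], [nat_lit 15055194786, nat_lit 15228101478, nat_lit 14622966204, nat_lit 14744652125, nat_lit 16136215798, nat_lit 16302011577, nat_lit 15430301563, nat_lit 15546582101], nat_lit 1271250, nat_lit 1271250, nat_lit 205650, nat_lit 356250, nat_lit 1271250, nat_lit 1271250, [nat_lit 1100000, nat_lit 1442500], [nat_lit 31, nat_lit 40, nat_lit 20, nat_lit 80, nat_lit 3, nat_lit 226, nat_lit 20, nat_lit 8]⟩, ⟨p036_k0, nat_lit 0, nat_lit 0, nat_lit 216, nat_lit 0, nat_lit 415230, [nat_lit 787584000, nat_lit 1050000000], [], [nat_lit 5421169236, nat_lit 5013563844, nat_lit 4443234522, nat_lit 4039283424, nat_lit 3492455899, nat_lit 3556929803, nat_lit 3612652206, nat_lit 3231841458], nat_lit 1271250, nat_lit 1271250, nat_lit 205650, nat_lit 356250, nat_lit 1100001, nat_lit 2127500, [nat_lit 1100000, nat_lit 1442500],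 [nat_lit 31, nat_lit 40, nat_lit 20, nat_lit 80, nat_lit 3, nat_lit 317, nat_lit 100, nat_lit 12]⟩,
 ⟨nat_lit 5590, nat_lit 5635, ⟨.ofNat (nat_lit 241022), .ofNat (nat_lit 286730), .ofNat (nat_lit 251694), .ofNat (nat_lit 297402), .ofNat (nat_lit 242495), .ofNat (nat_lit 287989), .ofNat (nat_lit 253169), .ofNat (nat_lit 298663)⟩, ⟨.ofNat (nat_lit 345982), .ofNat (nat_lit 384073), .ofNat (nat_lit 367328), .ofNat (nat_lit 405418), .ofNat (nat_lit 345779), .ofNat (nat_lit 383690), .ofNat (nat_lit 367127), .ofNat (nat_lit 405038)⟩⟩, [⟨nat_lit 0, nat_lit 100, nat_lit 97, nat_lit 64, nat_lit 502731147⟩, ⟨nat_lit 16, nat_lit 94, nat_lit 100, nat_lit 54, nat_lit 584176935⟩]⟩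
noncomputable def p036_l122 : Lf2 := ⟨nat_lit 0, nat_lit 2, [nat_lit 10, nat_lit 5, nat_lit 5, nat_lit 20], false, nat_lit 200, nat_lit 240, nat_lit 160, nat_lit 280, ⟨nat_lit 155, nat_lit 0, nat_lit 845, nat_lit 6, nat_lit 108, nat_lit 845, nat_lit 143, nat_lit 845, nat_lit 190817, nat_lit 322, nat_lit 109350, nat_lit 296, nat_lit 54026203, nat_lit 0, nat_lit 0, nat_lit 3305646, false, false⟩,
 nat_lit 3808, nat_lit 4168, nat_lit 0, nat_lit 0, nat_lit 4857, nat_lit 2115, nat_lit 0, nat_lit 0, nat_lit 0, nat_lit 0, nat_lit 0, nat_lit 0, nat_lit 0, nat_lit 0, nat_lit 0, nat_lit 845000, nat_lit 0, nat_lit 0, [(nat_lit 9, [(nat_lit 6, nat_lit 845)])],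
 ⟨p036_k42, nat_lit 0, nat_lit 0, nat_lit 163, nat_lit 0, nat_lit 338042, [nat_lit 1654112000, nat_lit 343450000], [], [nat_lit 14194454976, nat_lit 14513124595, nat_lit 13802986095, nat_lit 14116269953, nat_lit 15837658244, nat_lit 16244064485, nat_lit 15419493493, nat_lit 15706337629], nat_lit 1271250, nat_lit 1271250, nat_lit 205650, nat_lit 356250, nat_lit 1271250, nat_lit 1271250, [nat_lit 1100000, nat_lit 1442500], [nat_lit 31, nat_lit 40, nat_lit 20, nat_lit 80, nat_lit 3, nat_lit 226, nat_lit 20, nat_lit 8]⟩, ⟨p036_k6, nat_lit 0, nat_lit 0, nat_lit 252, nat_lit 0, nat_lit 374754, [nat_lit 726640000, nat_lit 968750000, nat_lit 1235040000], [], [nat_lit 5210919960, nat_lit 4659361800, nat_lit 3887610990, nat_lit 3340997700, nat_lit 3501542471, nat_lit 3716291027, nat_lit 3106310805, nat_lit 3246950410], nat_lit 1271250, nat_lit 1271250, nat_lit 205650, nat_lit 356250, nat_lit 1100001, nat_lit 2127500, [nat_lit 1100000,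 nat_lit 1442500, nat_lit 1271250], [nat_lit 9, nat_lit 40, nat_lit 20, nat_lit 80, nat_lit 2, nat_lit 317, nat_lit 100, nat_lit 10]⟩,
 ⟨nat_lit 5590, nat_lit 5701, ⟨.ofNat (nat_lit 238805), .ofNat (nat_lit 284837), .ofNat (nat_lit 249476), .ofNat (nat_lit 295508), .ofNat (nat_lit 242495), .ofNat (nat_lit 287989), .ofNat (nat_lit 253169), .ofNat (nat_lit 298663)⟩, ⟨.ofNat (nat_lit 307921), .ofNat (nat_lit 384640), .ofNat (nat_lit 329263), .ofNat (nat_lit 405982), .ofNat (nat_lit 307867), .ofNat (nat_lit 383690), .ofNat (nat_lit 329215), .ofNat (nat_lit 405038)⟩⟩, [⟨nat_lit 0, nat_lit 100, nat_lit 97, nat_lit 63, nat_lit 423156168⟩, ⟨nat_lit 16, nat_lit 95, nat_lit 100, nat_lit 54, nat_lit 391632134⟩]⟩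
noncomputable def p036_l123 : Lf2 := ⟨nat_lit 0, nat_lit 2, [nat_lit 10, nat_lit 5, nat_lit 5, nat_lit 20], true, nat_lit 200, nat_lit 240, nat_lit 0, nat_lit 280, ⟨nat_lit 0, nat_lit 0, nat_lit 1000, nat_lit 6, nat_lit 108, nat_lit 1000, nat_lit 142, nat_lit 1000, nat_lit 190817, nat_lit 322, nat_lit 109350, nat_lit 296, nat_lit 54022008, nat_lit 0, nat_lit 0, nat_lit 3307199, false, false⟩,
 nat_lit 0, nat_lit 6817, nat_lit 0, nat_lit 0, nat_lit 4244, nat_lit 0, nat_lit 0, nat_lit 0, nat_lit 0, nat_lit 0, nat_lit 0, nat_lit 0, nat_lit 0, nat_lit 0, nat_lit 37, nat_lit 1000000, nat_lit 0, nat_lit 0, [(nat_lit 9, [(nat_lit 6, nat_lit 1000)])],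
 ⟨p036_k50, nat_lit 0, nat_lit 0, nat_lit 174, nat_lit 0, nat_lit 375377, [nat_lit 1689600001, nat_lit 0], [], [nat_lit 14463265913, nat_lit 14763239177, nat_lit 14171878809, nat_lit 14465702522, nat_lit 16018364057, nat_lit 16370779447, nat_lit 15701556024, nat_lit 15971511090], nat_lit 1271250, nat_lit 1271250, nat_lit 205650, nat_lit 356250, nat_lit 1271250, nat_lit 1271250, [nat_lit 1100000, nat_lit 1442500], [nat_lit 31, nat_lit 40, nat_lit 20, nat_lit 80, nat_lit 3, nat_lit 226, nat_lit 20, nat_lit 8]⟩, C1.Rw.none,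
 ⟨nat_lit 5477, nat_lit 5591, ⟨.ofNat (nat_lit 242495), .ofNat (nat_lit 287989), .ofNat (nat_lit 247832), .ofNat (nat_lit 293326), .ofNat (nat_lit 246166), .ofNat (nat_lit 291125), .ofNat (nat_lit 251505), .ofNat (nat_lit 296465)⟩, ⟨.ofNat (nat_lit 307867), .ofNat (nat_lit 383690), .ofNat (nat_lit 329215), .ofNat (nat_lit 405038), .ofNat (nat_lit 307785), .ofNat (nat_lit 382718), .ofNat (nat_lit 329142), .ofNat (nat_lit 404075)⟩⟩, [⟨nat_lit 0, nat_lit 100, nat_lit 96, nat_lit 64, nat_lit 175902491⟩, ⟨nat_lit 4, nat_lit 100, nat_lit 93, nat_lit 53, nat_lit 310545732⟩]⟩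
noncomputable def p036_l124 : Lf2 := ⟨nat_lit 0, nat_lit 2, [nat_lit 10, nat_lit 5, nat_lit 5, nat_lit 20], false, nat_lit 200, nat_lit 240, nat_lit 0, nat_lit 272, ⟨nat_lit 151, nat_lit 0, nat_lit 849, nat_lit 6, nat_lit 111, nat_lit 849, nat_lit 142, nat_lit 849, nat_lit 190817, nat_lit 322, nat_lit 117600, nat_lit 299, nat_lit 53752831, nat_lit 0, nat_lit 0, nat_lit 3359144, false, false⟩,
 nat_lit 4467, nat_lit 3283, nat_lit 0, nat_lit 0, nat_lit 4825, nat_lit 2540, nat_lit 0, nat_lit 0, nat_lit 0, nat_lit 905, nat_lit 0, nat_lit 0, nat_lit 0, nat_lit 0, nat_lit 0, nat_lit 849000, nat_lit 0, nat_lit 0, [(nat_lit 9, [(nat_lit 6, nat_lit 849)])],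
 ⟨p036_k50, nat_lit 0, nat_lit 0, nat_lit 177, nat_lit 0, nat_lit 393574, [nat_lit 1639750401, nat_lit 315490000], [], [nat_lit 14433597209, nat_lit 14751655352, nat_lit 14148552059, nat_lit 14460820052, nat_lit 16044602665, nat_lit 16448031500, nat_lit 15735467215, nat_lit 16021429702], nat_lit 1271250, nat_lit 1271250, nat_lit 230001, nat_lit 356250, nat_lit 1271250, nat_lit 1271250, [nat_lit 1100000, nat_lit 1442500], [nat_lit 31, nat_lit 40, nat_lit 20, nat_lit 80, nat_lit 3, nat_lit 226, nat_lit 20, nat_lit 8]⟩, ⟨p036_k31, nat_lit 0, nat_lit 0, nat_lit 380, nat_lit 0, nat_lit 435529, [nat_lit 707888000, nat_lit 943750000, nat_lit 1203168000], [], [nat_lit 5336148282, nat_lit 5005454252, nat_lit 4016004872, nat_lit 3687778452, nat_lit 3543845586, nat_lit 3574423652, nat_lit 3736273994, nat_lit 3446050800], nat_lit 1271250, nat_lit 1271250, nat_lit 230001, nat_lit 356250, nat_lit 0, nat_lit 1921000, [nat_lit 1100000,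 nat_lit 1442500, nat_lit 1271250], [nat_lit 9, nat_lit 40, nat_lit 20, nat_lit 80, nat_lit 2, nat_lit 317, nat_lit 100, nat_lit 11]⟩,
 ⟨nat_lit 5477, nat_lit 5591, ⟨.ofNat (nat_lit 255414), .ofNat (nat_lit 293326), .ofNat (nat_lit 260751), .ofNat (nat_lit 298663), .ofNat (nat_lit 258998), .ofNat (nat_lit 296465), .ofNat (nat_lit 264337), .ofNat (nat_lit 301804)⟩, ⟨.ofNat (nat_lit 307867), .ofNat (nat_lit 383690), .ofNat (nat_lit 329215), .ofNat (nat_lit 405038), .ofNat (nat_lit 307785), .ofNat (nat_lit 382718), .ofNat (nat_lit 329142), .ofNat (nat_lit 404075)⟩⟩, [⟨nat_lit 0, nat_lit 100, nat_lit 96, nat_lit 64, nat_lit 314577184⟩, ⟨nat_lit 4, nat_lit 100, nat_lit 93, nat_lit 53, nat_lit 403009979⟩]⟩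
noncomputable def p036_l125 : Lf2 := ⟨nat_lit 0, nat_lit 5, [nat_lit 4, nat_lit 5, nat_lit 5, nat_lit 20], false, nat_lit 200, nat_lit 240, nat_lit 0, nat_lit 160, ⟨nat_lit 142, nat_lit 0, nat_lit 858, nat_lit 6, nat_lit 108, nat_lit 858, nat_lit 143, nat_lit 858, nat_lit 190817, nat_lit 322, nat_lit 109350, nat_lit 296, nat_lit 53985236, nat_lit 0, nat_lit 0, nat_lit 3314021, false, false⟩,
 nat_lit 3226, nat_lit 4676, nat_lit 0, nat_lit 0, nat_lit 4812, nat_lit 1792, nat_lit 108, nat_lit 0, nat_lit 0, nat_lit 0, nat_lit 0, nat_lit 0, nat_lit 0, nat_lit 0, nat_lit 53, nat_lit 858000, nat_lit 0, nat_lit 0, [(nat_lit 9, [(nat_lit 6, nat_lit 858)])],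
 ⟨p036_k44, nat_lit 0, nat_lit 0, nat_lit 206, nat_lit 0, nat_lit 340822, [nat_lit 2455436801, nat_lit 1312580001, nat_lit 182905199], [], [nat_lit 14179272648, nat_lit 14816368534, nat_lit 13796852964, nat_lit 14420563562, nat_lit 15819314481, nat_lit 16631562788, nat_lit 15408738390, nat_lit 15979947026], nat_lit 1271250, nat_lit 1271250, nat_lit 205650, nat_lit 356250, nat_lit 1271250, nat_lit 1271250, [nat_lit 1100000, nat_lit 1442500, nat_lit 1271250], [nat_lit 9, nat_lit 40, nat_lit 20, nat_lit 80, nat_lit 2, nat_lit 289, nat_lit 75, nat_lit 9]⟩, ⟨p036_k7, nat_lit 0, nat_lit 0, nat_lit 334, nat_lit 0, nat_lit 378667, [nat_lit 665696000, nat_lit 887500000, nat_lit 1131456000], [], [nat_lit 5394294184, nat_lit 4926969256, nat_lit 4273079208, nat_lit 3809943976, nat_lit 3430873408, nat_lit 3002271450, nat_lit 3567577600, nat_lit 3142491904], nat_lit 1271250, nat_lit 1271250, nat_lit 205650, nat_lit 356250, nat_lit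 0, nat_lit 1100001, [nat_lit 1100000, nat_lit 1442500, nat_lit 1271250], [nat_lit 9, nat_lit 40, nat_lit 20, nat_lit 80, nat_lit 2, nat_lit 272, nat_lit 60, nat_lit 9]⟩,
 ⟨nat_lit 5477, nat_lit 5701, ⟨.ofNat (nat_lit 238805), .ofNat (nat_lit 284837), .ofNat (nat_lit 249476), .ofNat (nat_lit 295508), .ofNat (nat_lit 246166), .ofNat (nat_lit 291125), .ofNat (nat_lit 256844), .ofNat (nat_lit 301804)⟩, ⟨.ofNat (nat_lit 307921), .ofNat (nat_lit 384640), .ofNat (nat_lit 329263), .ofNat (nat_lit 405982), .ofNat (nat_lit 307785), .ofNat (nat_lit 382718), .ofNat (nat_lit 329142), .ofNat (nat_lit 404075)⟩⟩, [⟨nat_lit 0, nat_lit 100, nat_lit 96, nat_lit 64, nat_lit 527049868⟩, ⟨nat_lit 4, nat_lit 100, nat_lit 94, nat_lit 53, nat_lit 395707135⟩]⟩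
noncomputable def p036_l126 : Lf2 := ⟨nat_lit 0, nat_lit 5, [nat_lit 4, nat_lit 5, nat_lit 5, nat_lit 20], false, nat_lit 200, nat_lit 240, nat_lit 160, nat_lit 280, ⟨nat_lit 158, nat_lit 0, nat_lit 842, nat_lit 6, nat_lit 108, nat_lit 842, nat_lit 143, nat_lit 842, nat_lit 190817, nat_lit 322, nat_lit 109350, nat_lit 296, nat_lit 53985236, nat_lit 0, nat_lit 0, nat_lit 3314021, false, false⟩,
 nat_lit 3876, nat_lit 4117, nat_lit 0, nat_lit 0, nat_lit 4867, nat_lit 2153, nat_lit 140, nat_lit 0, nat_lit 0, nat_lit 0, nat_lit 0, nat_lit 0, nat_lit 0, nat_lit 0, nat_lit 46, nat_lit 842000, nat_lit 0, nat_lit 0, [(nat_lit 9, [(nat_lit 6, nat_lit 842)])],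
 ⟨p036_k44, nat_lit 0, nat_lit 0, nat_lit 206, nat_lit 0, nat_lit 340822, [nat_lit 2400883200, nat_lit 1284420000, nat_lit 183074800], [], [nat_lit 14221059976, nat_lit 14837669900, nat_lit 13805146880, nat_lit 14432349510, nat_lit 15842589578, nat_lit 16656814696, nat_lit 15422681383, nat_lit 15996920684], nat_lit 1271250, nat_lit 1271250, nat_lit 205650, nat_lit 356250, nat_lit 1271250, nat_lit 1271250, [nat_lit 1100000, nat_lit 1442500, nat_lit 1271250], [nat_lit 9, nat_lit 40, nat_lit 20, nat_lit 80, nat_lit 2, nat_lit 289, nat_lit 75, nat_lit 9]⟩, ⟨p036_k7, nat_lit 0, nat_lit 0, nat_lit 253, nat_lit 0, nat_lit 378667, [nat_lit 740704000, nat_lit 987500000, nat_lit 1258944000], [], [nat_lit 5310863716, nat_lit 4749395764, nat_lit 3963778982, nat_lit 3407344744, nat_lit 3567639645, nat_lit 3786323457, nat_lit 3168289924, nat_lit 3311520767], nat_lit 1271250, nat_lit 1271250, nat_lit 205650, nat_lit 356250, nat_lit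 1100001, nat_lit 2127500, [nat_lit 1100000, nat_lit 1442500, nat_lit 1271250], [nat_lit 9, nat_lit 40, nat_lit 20, nat_lit 80, nat_lit 2, nat_lit 317, nat_lit 100, nat_lit 10]⟩,
 ⟨nat_lit 5477, nat_lit 5701, ⟨.ofNat (nat_lit 238805), .ofNat (nat_lit 284837), .ofNat (nat_lit 249476), .ofNat (nat_lit 295508), .ofNat (nat_lit 246166), .ofNat (nat_lit 291125), .ofNat (nat_lit 256844), .ofNat (nat_lit 301804)⟩, ⟨.ofNat (nat_lit 307921), .ofNat (nat_lit 384640), .ofNat (nat_lit 329263), .ofNat (nat_lit 405982), .ofNat (nat_lit 307785), .ofNat (nat_lit 382718), .ofNat (nat_lit 329142), .ofNat (nat_lit 404075)⟩⟩, [⟨nat_lit 0, nat_lit 100, nat_lit 96, nat_lit 64, nat_lit 437799528⟩, ⟨nat_lit 4, nat_lit 100, nat_lit 94, nat_lit 53, nat_lit 398232935⟩]⟩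
noncomputable def p036_l127 : Lf2 := ⟨nat_lit 0, nat_lit 5, [nat_lit 4, nat_lit 5, nat_lit 5, nat_lit 20], false, nat_lit 200, nat_lit 240, nat_lit 0, nat_lit 280, ⟨nat_lit 202, nat_lit 0, nat_lit 798, nat_lit 6, nat_lit 125, nat_lit 798, nat_lit 143, nat_lit 798, nat_lit 190817, nat_lit 322, nat_lit 147267, nat_lit 309, nat_lit 52725213, nat_lit 0, nat_lit 0, nat_lit 3546032, false, false⟩,
 nat_lit 8146, nat_lit 661, nat_lit 0, nat_lit 0, nat_lit 5363, nat_lit 4525, nat_lit 496, nat_lit 0, nat_lit 0, nat_lit 515, nat_lit 0, nat_lit 0, nat_lit 0, nat_lit 0, nat_lit 26, nat_lit 798000, nat_lit 0, nat_lit 0, [(nat_lit 9, [(nat_lit 6, nat_lit 798)])],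
 ⟨p036_k44, nat_lit 0, nat_lit 0, nat_lit 245, nat_lit 0, nat_lit 421173, [nat_lit 2238860801, nat_lit 1191980000, nat_lit 165541200], [], [nat_lit 13276979738, nat_lit 13821495070, nat_lit 13123715617, nat_lit 13654645898, nat_lit 15128272295, nat_lit 15976856360, nat_lit 14755415091, nat_lit 15588418212], nat_lit 1271250, nat_lit 1271250, nat_lit 356250, nat_lit 490000, nat_lit 1271250, nat_lit 1271250, [nat_lit 1100000, nat_lit 1442500, nat_lit 1271250], [nat_lit 9, nat_lit 40, nat_lit 20, nat_lit 80, nat_lit 2, nat_lit 317, nat_lit 100, nat_lit 10]⟩, ⟨p036_k7, nat_lit 0, nat_lit 0, nat_lit 379, nat_lit 0, nat_lit 467940, [nat_lit 946976000, nat_lit 1262500000, nat_lit 1609536000], [], [nat_lit 5456740974, nat_lit 5893740768, nat_lit 4400006973, nat_lit 5090002806, nat_lit 5941860137, nat_lit 4924592726, nat_lit 6407760349, nat_lit 5383105774], nat_lit 1271250, nat_lit 1271250, nat_lit 356250, nat_lit 490000, nat_lit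 0, nat_lit 1977500, [nat_lit 1100000, nat_lit 1442500, nat_lit 1271250], [nat_lit 9, nat_lit 40, nat_lit 20, nat_lit 80, nat_lit 2, nat_lit 317, nat_lit 100, nat_lit 11]⟩,
 ⟨nat_lit 5477, nat_lit 5701, ⟨.ofNat (nat_lit 284837), .ofNat (nat_lit 323196), .ofNat (nat_lit 295508), .ofNat (nat_lit 333867), .ofNat (nat_lit 291125), .ofNat (nat_lit 328592), .ofNat (nat_lit 301804), .ofNat (nat_lit 339271)⟩, ⟨.ofNat (nat_lit 307921), .ofNat (nat_lit 384640), .ofNat (nat_lit 329263), .ofNat (nat_lit 405982), .ofNat (nat_lit 307785), .ofNat (nat_lit 382718), .ofNat (nat_lit 329142), .ofNat (nat_lit 404075)⟩⟩, [⟨nat_lit 4, nat_lit 100, nat_lit 94, nat_lit 53, nat_lit 566161865⟩, ⟨nat_lit 7, nat_lit 100, nat_lit 100, nat_lit 55, nat_lit 33359399⟩]⟩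
noncomputable def p036_l128 : Lf2 := ⟨nat_lit 0, nat_lit 5, [nat_lit 4, nat_lit 5, nat_lit 5, nat_lit 20], false, nat_lit 200, nat_lit 240, nat_lit 0, nat_lit 280, ⟨nat_lit 8, nat_lit 0, nat_lit 992, nat_lit 6, nat_lit 148, nat_lit 992, nat_lit 143, nat_lit 992, nat_lit 190817, nat_lit 322, nat_lit 205350, nat_lit 326, nat_lit 50915923, nat_lit 0, nat_lit 0, nat_lit 3837120, false, false⟩,
 nat_lit 171, nat_lit 7160, nat_lit 0, nat_lit 0, nat_lit 4464, nat_lit 94, nat_lit 0, nat_lit 0, nat_lit 0, nat_lit 512, nat_lit 0, nat_lit 0, nat_lit 0, nat_lit 0, nat_lit 113, nat_lit 992000, nat_lit 0, nat_lit 0, [(nat_lit 9, [(nat_lit 6, nat_lit 992)])],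
 ⟨p036_k44, nat_lit 0, nat_lit 0, nat_lit 208, nat_lit 0, nat_lit 421173, [nat_lit 2934323201, nat_lit 1575920000, nat_lit 214484800], [], [nat_lit 13452347166, nat_lit 14041238290, nat_lit 13752626634, nat_lit 14311869618, nat_lit 14998424738, nat_lit 15538990178, nat_lit 15222101706, nat_lit 15735842114], nat_lit 1271250, nat_lit 1271250, nat_lit 490000, nat_lit 780000, nat_lit 1271250, nat_lit 1271250, [nat_lit 1100000, nat_lit 1442500, nat_lit 1271250], [nat_lit 9, nat_lit 40, nat_lit 20, nat_lit 80, nat_lit 2, nat_lit 317, nat_lit 100, nat_lit 10]⟩, ⟨p036_k7, nat_lit 0, nat_lit 0, nat_lit 366, nat_lit 0, nat_lit 467940, [nat_lit 37504000, nat_lit 50000000, nat_lit 63744000], [], [nat_lit 255253314, nat_lit 230017228, nat_lit 154694370, nat_lit 129843684, nat_lit 186172325, nat_lit 164317842, nat_lit 217362691, nat_lit 195796506], nat_lit 1271250, nat_lit 1271250, nat_lit 490000, nat_lit 780000, nat_lit 0, nat_lit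 1977500, [nat_lit 1100000, nat_lit 1442500, nat_lit 1271250], [nat_lit 9, nat_lit 40, nat_lit 20, nat_lit 80, nat_lit 2, nat_lit 317, nat_lit 100, nat_lit 11]⟩,
 ⟨nat_lit 5477, nat_lit 5701, ⟨.ofNat (nat_lit 323196), .ofNat (nat_lit 399915), .ofNat (nat_lit 333867), .ofNat (nat_lit 410586), .ofNat (nat_lit 328592), .ofNat (nat_lit 403525), .ofNat (nat_lit 339271), .ofNat (nat_lit 414204)⟩, ⟨.ofNat (nat_lit 307921), .ofNat (nat_lit 384640), .ofNat (nat_lit 329263), .ofNat (nat_lit 405982), .ofNat (nat_lit 307785), .ofNat (nat_lit 382718), .ofNat (nat_lit 329142), .ofNat (nat_lit 404075)⟩⟩, [⟨nat_lit 16, nat_lit 94, nat_lit 100, nat_lit 53, nat_lit 301979247⟩]⟩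
noncomputable def b_VL_600_600_5_48 : St := ⟨true, nat_lit 1, nat_lit 1, nat_lit 1, nat_lit 40, nat_lit 270, nat_lit 280, nat_lit 250, nat_lit 260, nat_lit 28, nat_lit 120, nat_lit 20, nat_lit 40, nat_lit 160, nat_lit 240, nat_lit 0, nat_lit 288, nat_lit 0, nat_lit 20, nat_lit 0, nat_lit 0, nat_lit 0, nat_lit 0⟩
theorem d_VL_600_600_5_48 (h : EB TB.env) : Dead b_VL_600_600_5_48 := chkB_sound0 h (T :=
(.trZ (nat_lit 0) (nat_lit 100) (nat_lit 97) (nat_lit 59) (nat_lit 36) (.trX (nat_lit 19) (nat_lit 100) (nat_lit 95) (nat_lit 62) (nat_lit 280) (.spl (nat_lit 4) (nat_lit 200)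
(.spl (nat_lit 4) (nat_lit 180)
(.spl (nat_lit 2) (nat_lit 80)
(.spl (nat_lit 6) (nat_lit 8)
(.leaf p036_l106)
(.leaf p036_l107))
(.leaf p036_l108))
(.spl (nat_lit 6) (nat_lit 8)
(.spl (nat_lit 2) (nat_lit 80)
(.leaf p036_l109)
(.leaf p036_l110))
(.spl (nat_lit 0) (nat_lit 275)
(.leaf p036_l111)
(.leaf p036_l112))))
(.spl (nat_lit 2) (nat_lit 80)
(.spl (nat_lit 2) (nat_lit 60)
(.spl (nat_lit 6) (nat_lit 8)
(.spl (nat_lit 0) (nat_lit 275)
(.spl (nat_lit 5) (nat_lit 160)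
(.spl (nat_lit 5) (nat_lit 80)
(.leaf p036_l113)
(.leaf p036_l114))
(.spl (nat_lit 6) (nat_lit 4)
(.spl (nat_lit 4) (nat_lit 220)
(.leaf p036_l115)
(.spl (nat_lit 0) (nat_lit 273)
(.spl (nat_lit 0) (nat_lit 272)
(.spl (nat_lit 0) (nat_lit 271)
(.spl (nat_lit 5) (nat_lit 240)
(.spl (nat_lit 5) (nat_lit 200)
(.leaf p036_l116)
(.leaf p036_l117))
(.leaf p036_l118))
(.leaf p036_l119))
(.leaf p036_l120))
(.leaf p036_l121)))
(.leaf p036_l122)))
(.spl (nat_lit 1) (nat_lit 255)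
(.leaf p036_l123)
(.trZ (nat_lit 0) (nat_lit 100) (nat_lit 96) (nat_lit 64) (nat_lit 40) (.trX (nat_lit 19) (nat_lit 100) (nat_lit 97) (nat_lit 62) (nat_lit 272) (.leaf p036_l124)))))
(.spl (nat_lit 5) (nat_lit 160)
(.leaf p036_l125)
(.leaf p036_l126)))
(.leaf p036_l127))
(.leaf p036_l128)))))) (by decide +kernel)
noncomputable def p036_l129 : Lf2 := ⟨nat_lit 0, nat_lit 10, [nat_lit 0, nat_lit 5, nat_lit 5, nat_lit 20], true, nat_lit 160, nat_lit 240, nat_lit 0, nat_lit 288, ⟨nat_lit 0, nat_lit 0, nat_lit 1000, nat_lit 6, nat_lit 109, nat_lit 1000, nat_lit 127, nat_lit 1000, nat_lit 153600, nat_lit 311, nat_lit 109350, nat_lit 296, nat_lit 55250103, nat_lit 0, nat_lit 0, nat_lit 3109205, false, false⟩,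
 nat_lit 0, nat_lit 7123, nat_lit 0, nat_lit 0, nat_lit 4338, nat_lit 0, nat_lit 0, nat_lit 0, nat_lit 0, nat_lit 0, nat_lit 0, nat_lit 0, nat_lit 0, nat_lit 0, nat_lit 141, nat_lit 710800, nat_lit 0, nat_lit 0, [(nat_lit 9, [(nat_lit 5, nat_lit 482), (nat_lit 6, nat_lit 518)])],
 ⟨p036_k51, nat_lit 0, nat_lit 0, nat_lit 199, nat_lit 0, nat_lit 215969, [nat_lit 3560281600, nat_lit 2534648001, nat_lit 93055999], [], [nat_lit 13097113893, nat_lit 13650464237, nat_lit 12531785064, nat_lit 13160223200, nat_lit 16182319352, nat_lit 16742186239, nat_lit 15599102962, nat_lit 16132948192], nat_lit 1271250, nat_lit 1271250, nat_lit 157850, nat_lit 490000, nat_lit 1100001, nat_lit 1785000, [nat_lit 1100000, nat_lit 1442500, nat_lit 1271250], [nat_lit 11, nat_lit 40, nat_lit 20, nat_lit 80, nat_lit 1, nat_lit 373, nat_lit 150, nat_lit 11]⟩, C1.Rw.none,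
 ⟨nat_lit 5477, nat_lit 5701, ⟨.ofNat (nat_lit 212791), .ofNat (nat_lit 312525), .ofNat (nat_lit 223462), .ofNat (nat_lit 323196), .ofNat (nat_lit 220501), .ofNat (nat_lit 317913), .ofNat (nat_lit 231179), .ofNat (nat_lit 328592)⟩, ⟨.ofNat (nat_lit 231202), .ofNat (nat_lit 384640), .ofNat (nat_lit 252544), .ofNat (nat_lit 405982), .ofNat (nat_lit 232852), .ofNat (nat_lit 382718), .ofNat (nat_lit 254209), .ofNat (nat_lit 404075)⟩⟩, [⟨nat_lit 0, nat_lit 100, nat_lit 95, nat_lit 64, nat_lit 170722228⟩, ⟨nat_lit 4, nat_lit 100, nat_lit 94, nat_lit 53, nat_lit 295726435⟩]⟩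
noncomputable def p036_l130 : Lf2 := ⟨nat_lit 0, nat_lit 10, [nat_lit 0, nat_lit 5, nat_lit 5, nat_lit 20], true, nat_lit 160, nat_lit 240, nat_lit 0, nat_lit 280, ⟨nat_lit 0, nat_lit 0, nat_lit 1000, nat_lit 6, nat_lit 115, nat_lit 1000, nat_lit 127, nat_lit 1000, nat_lit 153600, nat_lit 311, nat_lit 123267, nat_lit 301, nat_lit 54738419, nat_lit 0, nat_lit 0, nat_lit 3206328, false, false⟩,
 nat_lit 0, nat_lit 7364, nat_lit 0, nat_lit 0, nat_lit 4484, nat_lit 0, nat_lit 0, nat_lit 0, nat_lit 0, nat_lit 0, nat_lit 0, nat_lit 0, nat_lit 0, nat_lit 0, nat_lit 135, nat_lit 674200, nat_lit 0, nat_lit 0, [(nat_lit 9, [(nat_lit 5, nat_lit 543), (nat_lit 6, nat_lit 457)])],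
 ⟨p036_k51, nat_lit 0, nat_lit 0, nat_lit 196, nat_lit 0, nat_lit 231468, [nat_lit 3490438400, nat_lit 2432785334, nat_lit 88210666], [], [nat_lit 12879911255, nat_lit 13163786503, nat_lit 12354970978, nat_lit 12599598054, nat_lit 15809903806, nat_lit 16092189663, nat_lit 15367804116, nat_lit 15638620186], nat_lit 1271250, nat_lit 1271250, nat_lit 205650, nat_lit 490000, nat_lit 1100001, nat_lit 1785000, [nat_lit 1100000, nat_lit 1442500, nat_lit 1271250], [nat_lit 11, nat_lit 40, nat_lit 20, nat_lit 80, nat_lit 1, nat_lit 373, nat_lit 150, nat_lit 10]⟩, C1.Rw.none,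
 ⟨nat_lit 5590, nat_lit 5701, ⟨.ofNat (nat_lit 238805), .ofNat (nat_lit 323196), .ofNat (nat_lit 249476), .ofNat (nat_lit 333867), .ofNat (nat_lit 242495), .ofNat (nat_lit 325900), .ofNat (nat_lit 253169), .ofNat (nat_lit 336574)⟩, ⟨.ofNat (nat_lit 231202), .ofNat (nat_lit 384640), .ofNat (nat_lit 252544), .ofNat (nat_lit 405982), .ofNat (nat_lit 232045), .ofNat (nat_lit 383690), .ofNat (nat_lit 253393), .ofNat (nat_lit 405038)⟩⟩, [⟨nat_lit 0, nat_lit 100, nat_lit 97, nat_lit 67, nat_lit 165419783⟩, ⟨nat_lit 4, nat_lit 100, nat_lit 95, nat_lit 54, nat_lit 267928365⟩]⟩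
noncomputable def p036_l131 : Lf2 := ⟨nat_lit 0, nat_lit 10, [nat_lit 0, nat_lit 5, nat_lit 5, nat_lit 20], true, nat_lit 160, nat_lit 240, nat_lit 0, nat_lit 280, ⟨nat_lit 0, nat_lit 0, nat_lit 1000, nat_lit 6, nat_lit 116, nat_lit 1000, nat_lit 127, nat_lit 1000, nat_lit 153600, nat_lit 311, nat_lit 126150, nat_lit 302, nat_lit 54641453, nat_lit 0, nat_lit 0, nat_lit 3224277, false, false⟩,
 nat_lit 0, nat_lit 7108, nat_lit 0, nat_lit 0, nat_lit 4425, nat_lit 0, nat_lit 0, nat_lit 0, nat_lit 0, nat_lit 0, nat_lit 0, nat_lit 0, nat_lit 0, nat_lit 0, nat_lit 139, nat_lit 698200, nat_lit 0, nat_lit 0, [(nat_lit 9, [(nat_lit 5, nat_lit 503), (nat_lit 6, nat_lit 497)])],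
 ⟨p036_k52, nat_lit 0, nat_lit 0, nat_lit 205, nat_lit 0, nat_lit 250637, [nat_lit 3537286401, nat_lit 2500892001, nat_lit 93223999], [], [nat_lit 13095258413, nat_lit 13381001399, nat_lit 12680893002, nat_lit 12998142802, nat_lit 16154215750, nat_lit 16453881181, nat_lit 15717353315, nat_lit 15986596002], nat_lit 1271250, nat_lit 1271250, nat_lit 205650, nat_lit 490000, nat_lit 1100001, nat_lit 1785000, [nat_lit 1100000, nat_lit 1442500, nat_lit 1271250], [nat_lit 11, nat_lit 40, nat_lit 20, nat_lit 80, nat_lit 1, nat_lit 373, nat_lit 150, nat_lit 10]⟩, C1.Rw.none,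
 ⟨nat_lit 5477, nat_lit 5591, ⟨.ofNat (nat_lit 242495), .ofNat (nat_lit 325900), .ofNat (nat_lit 253169), .ofNat (nat_lit 336574), .ofNat (nat_lit 246166), .ofNat (nat_lit 328592), .ofNat (nat_lit 256844), .ofNat (nat_lit 339271)⟩, ⟨.ofNat (nat_lit 232045), .ofNat (nat_lit 383690), .ofNat (nat_lit 253393), .ofNat (nat_lit 405038), .ofNat (nat_lit 232852), .ofNat (nat_lit 382718), .ofNat (nat_lit 254209), .ofNat (nat_lit 404075)⟩⟩, [⟨nat_lit 0, nat_lit 100, nat_lit 96, nat_lit 69, nat_lit 165928405⟩, ⟨nat_lit 4, nat_lit 100, nat_lit 93, nat_lit 53, nat_lit 301133513⟩]⟩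
noncomputable def p036_l132 : Lf2 := ⟨nat_lit 0, nat_lit 10, [nat_lit 0, nat_lit 5, nat_lit 5, nat_lit 20], false, nat_lit 160, nat_lit 240, nat_lit 0, nat_lit 288, ⟨nat_lit 0, nat_lit 0, nat_lit 1000, nat_lit 6, nat_lit 146, nat_lit 1000, nat_lit 127, nat_lit 1000, nat_lit 153600, nat_lit 311, nat_lit 198017, nat_lit 324, nat_lit 52284549, nat_lit 0, nat_lit 0, nat_lit 3617036, false, false⟩,
 nat_lit 0, nat_lit 8079, nat_lit 0, nat_lit 0, nat_lit 4920, nat_lit 0, nat_lit 0, nat_lit 0, nat_lit 0, nat_lit 0, nat_lit 0, nat_lit 0, nat_lit 0, nat_lit 0, nat_lit 115, nat_lit 559600, nat_lit 0, nat_lit 0, [(nat_lit 9, [(nat_lit 5, nat_lit 734), (nat_lit 6, nat_lit 266)])],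
 ⟨p036_k51, nat_lit 0, nat_lit 0, nat_lit 176, nat_lit 0, nat_lit 257220, [nat_lit 3252339201, nat_lit 2089576001, nat_lit 39071999], [], [nat_lit 12326716759, nat_lit 12929672479, nat_lit 12358705079, nat_lit 12932338879, nat_lit 15020719439, nat_lit 15561606080, nat_lit 16319821322, nat_lit 15583778240], nat_lit 1271250, nat_lit 1271250, nat_lit 490000, nat_lit 780000, nat_lit 1100001, nat_lit 1785000, [nat_lit 1100000, nat_lit 1442500, nat_lit 1271250], [nat_lit 11, nat_lit 40, nat_lit 20, nat_lit 80, nat_lit 1, nat_lit 401, nat_lit 175, nat_lit 11]⟩, ⟨p036_k15, nat_lit 0, nat_lit 0, nat_lit 405, nat_lit 0, nat_lit 303690, [nat_lit 0, nat_lit 0, nat_lit 0], [], [nat_lit 0, nat_lit 0, nat_lit 0, nat_lit 0, nat_lit 0, nat_lit 0, nat_lit 0, nat_lit 0], nat_lit 1271250, nat_lit 1271250, nat_lit 490000, nat_lit 780000, nat_lit 0, nat_lit 2034000, [nat_lit 1100000, nat_lit 1442500, nat_lit 1271250], [nat_lit 48, nat_lit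 40, nat_lit 20, nat_lit 80, nat_lit 12, nat_lit 401, nat_lit 175, nat_lit 11]⟩,
 ⟨nat_lit 5477, nat_lit 5701, ⟨.ofNat (nat_lit 312525), .ofNat (nat_lit 389244), .ofNat (nat_lit 333867), .ofNat (nat_lit 410586), .ofNat (nat_lit 317913), .ofNat (nat_lit 392847), .ofNat (nat_lit 339271), .ofNat (nat_lit 414204)⟩, ⟨.ofNat (nat_lit 231202), .ofNat (nat_lit 384640), .ofNat (nat_lit 252544), .ofNat (nat_lit 405982), .ofNat (nat_lit 232852), .ofNat (nat_lit 382718), .ofNat (nat_lit 254209), .ofNat (nat_lit 404075)⟩⟩, [⟨nat_lit 4, nat_lit 100, nat_lit 94, nat_lit 53, nat_lit 249041447⟩]⟩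
noncomputable def b_VL_600_600_5_49 : St := ⟨true, nat_lit 1, nat_lit 1, nat_lit 1, nat_lit 40, nat_lit 270, nat_lit 280, nat_lit 240, nat_lit 260, nat_lit 28, nat_lit 120, nat_lit 20, nat_lit 40, nat_lit 160, nat_lit 240, nat_lit 0, nat_lit 288, nat_lit 20, nat_lit 40, nat_lit 0, nat_lit 0, nat_lit 0, nat_lit 0⟩
theorem d_VL_600_600_5_49 (h : EB TB.env) : Dead b_VL_600_600_5_49 := chkB_sound0 h (T :=
(.spl (nat_lit 2) (nat_lit 80)
(.spl (nat_lit 1) (nat_lit 250)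
(.leaf p036_l129)
(.trZ (nat_lit 0) (nat_lit 100) (nat_lit 97) (nat_lit 59) (nat_lit 36) (.trX (nat_lit 19) (nat_lit 100) (nat_lit 95) (nat_lit 62) (nat_lit 280) (.spl (nat_lit 0) (nat_lit 275)
(.leaf p036_l130)
(.leaf p036_l131)))))
(.leaf p036_l132))) (by decide +kernel)
noncomputable def p036_l133 : Lf2 := ⟨nat_lit 0, nat_lit 10, [nat_lit 0, nat_lit 5, nat_lit 5, nat_lit 20], false, nat_lit 160, nat_lit 240, nat_lit 0, nat_lit 160, ⟨nat_lit 980, nat_lit 0, nat_lit 20, nat_lit 6, nat_lit 175, nat_lit 20, nat_lit 127, nat_lit 20, nat_lit 153600, nat_lit 311, nat_lit 54298, nat_lit 271, nat_lit 49724636, nat_lit 0, nat_lit 0, nat_lit 3963968, false, false⟩,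
 nat_lit 11931, nat_lit 6992, nat_lit 0, nat_lit 0, nat_lit 11014, nat_lit 6316, nat_lit 2479, nat_lit 0, nat_lit 0, nat_lit 757, nat_lit 0, nat_lit 0, nat_lit 0, nat_lit 0, nat_lit 0, nat_lit 20000, nat_lit 0, nat_lit 0, [(nat_lit 9, [(nat_lit 6, nat_lit 20)])],
 ⟨p036_k27, nat_lit 0, nat_lit 0, nat_lit 297, nat_lit 0, nat_lit 475451, [nat_lit 4616192000, nat_lit 6116426667, nat_lit 9538016000], [], [nat_lit 8371023301, nat_lit 10171141121, nat_lit 9169761684, nat_lit 10229943369, nat_lit 15965067452, nat_lit 14834655008, nat_lit 20747060864, nat_lit 15485805232], nat_lit 1271250, nat_lit 1271250, nat_lit 780000, nat_lit 1100001, nat_lit 1100001, nat_lit 1785000, [nat_lit 1100000, nat_lit 1442500, nat_lit 1271250], [nat_lit 11, nat_lit 40, nat_lit 20, nat_lit 80, nat_lit 1, nat_lit 401, nat_lit 175, nat_lit 11]⟩, ⟨p036_k15, nat_lit 0, nat_lit 0, nat_lit 529, nat_lit 0, nat_lit 532227, [nat_lit 4594240000, nat_lit 6125000000,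 nat_lit 11634560000], [], [nat_lit 39943825200, nat_lit 36604315992, nat_lit 35465432523, nat_lit 36077146483, nat_lit 32553677307, nat_lit 33091863987, nat_lit 35488460032, nat_lit 33077488475], nat_lit 1271250, nat_lit 1271250, nat_lit 780000, nat_lit 1100001, nat_lit 0, nat_lit 1100001, [nat_lit 1100000, nat_lit 1442500, nat_lit 1271250], [nat_lit 48, nat_lit 40, nat_lit 20, nat_lit 80, nat_lit 12, nat_lit 373, nat_lit 150, nat_lit 10]⟩,
 ⟨nat_lit 5477, nat_lit 5917, ⟨.ofNat (nat_lit 385610), .ofNat (nat_lit 464143), .ofNat (nat_lit 406949), .ofNat (nat_lit 485478), .ofNat (nat_lit 392847), .ofNat (nat_lit 467780), .ofNat (nat_lit 414204), .ofNat (nat_lit 489132)⟩, ⟨.ofNat (nat_lit 229411), .ofNat (nat_lit 386479), .ofNat (nat_lit 250751), .ofNat (nat_lit 407818), .ofNat (nat_lit 232852), .ofNat (nat_lit 382718), .ofNat (nat_lit 254209), .ofNat (nat_lit 404075)⟩⟩, [⟨nat_lit 4, nat_lit 100, nat_lit 96, nat_lit 54, nat_lit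 948161901⟩]⟩
noncomputable def p036_l134 : Lf2 := ⟨nat_lit 0, nat_lit 10, [nat_lit 0, nat_lit 5, nat_lit 5, nat_lit 20], false, nat_lit 160, nat_lit 240, nat_lit 160, nat_lit 288, ⟨nat_lit 520, nat_lit 0, nat_lit 480, nat_lit 6, nat_lit 175, nat_lit 480, nat_lit 127, nat_lit 480, nat_lit 153600, nat_lit 311, nat_lit 54298, nat_lit 271, nat_lit 49724636, nat_lit 0, nat_lit 0, nat_lit 3963968, false, false⟩,
 nat_lit 18860, nat_lit 0, nat_lit 0, nat_lit 0, nat_lit 10978, nat_lit 9984, nat_lit 321, nat_lit 0, nat_lit 0, nat_lit 1954, nat_lit 0, nat_lit 0, nat_lit 0, nat_lit 0, nat_lit 0, nat_lit 480000, nat_lit 0, nat_lit 696603810, [(nat_lit 9, [(nat_lit 6, nat_lit 480)])],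
 ⟨p036_k27, nat_lit 0, nat_lit 0, nat_lit 297, nat_lit 0, nat_lit 475451, [nat_lit 2964608001, nat_lit 3044240001, nat_lit 2567535999], [], [nat_lit 9995592026, nat_lit 11791853166, nat_lit 10191612898, nat_lit 11853509062, nat_lit 13301458814, nat_lit 14839080416, nat_lit 17852246621, nat_lit 15203566408], nat_lit 1271250, nat_lit 1271250, nat_lit 780000, nat_lit 1100001, nat_lit 1100001, nat_lit 1785000, [nat_lit 1100000, nat_lit 1442500, nat_lit 1271250], [nat_lit 11, nat_lit 40, nat_lit 20, nat_lit 80, nat_lit 1, nat_lit 401, nat_lit 175, nat_lit 11]⟩, ⟨p036_k15, nat_lit 0, nat_lit 0, nat_lit 377, nat_lit 0, nat_lit 532227, [nat_lit 2437760000, nat_lit 3250000000, nat_lit 6173440000], [], [nat_lit 0, nat_lit 1162530258, nat_lit 3178158210, nat_lit 1664919938, nat_lit 14447688566, nat_lit 10727281132, nat_lit 18378761519, nat_lit 13686117782], nat_lit 1271250, nat_lit 1271250, nat_lit 780000, nat_lit 1100001, nat_lit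 1100001, nat_lit 2196000, [nat_lit 1100000, nat_lit 1442500, nat_lit 1271250], [nat_lit 48, nat_lit 40, nat_lit 20, nat_lit 80, nat_lit 12, nat_lit 428, nat_lit 200, nat_lit 11]⟩,
 ⟨nat_lit 5477, nat_lit 5917, ⟨.ofNat (nat_lit 385610), .ofNat (nat_lit 464143), .ofNat (nat_lit 406949), .ofNat (nat_lit 485478), .ofNat (nat_lit 392847), .ofNat (nat_lit 467780), .ofNat (nat_lit 414204), .ofNat (nat_lit 489132)⟩, ⟨.ofNat (nat_lit 229411), .ofNat (nat_lit 386479), .ofNat (nat_lit 250751), .ofNat (nat_lit 407818), .ofNat (nat_lit 232852), .ofNat (nat_lit 382718), .ofNat (nat_lit 254209), .ofNat (nat_lit 404075)⟩⟩, [⟨nat_lit 16, nat_lit 96, nat_lit 100, nat_lit 54, nat_lit 366067080⟩, ⟨nat_lit 7, nat_lit 99, nat_lit 100, nat_lit 54, nat_lit 1222454946⟩]⟩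
noncomputable def b_VL_600_600_5_50 : St := ⟨true, nat_lit 1, nat_lit 1, nat_lit 1, nat_lit 40, nat_lit 260, nat_lit 280, nat_lit 240, nat_lit 260, nat_lit 120, nat_lit 160, nat_lit 20, nat_lit 40, nat_lit 160, nat_lit 240, nat_lit 0, nat_lit 288, nat_lit 0, nat_lit 40, nat_lit 0, nat_lit 0, nat_lit 0, nat_lit 0⟩
theorem d_VL_600_600_5_50 (h : EB TB.env) : Dead b_VL_600_600_5_50 := chkB_sound0 h (T :=
(.spl (nat_lit 5) (nat_lit 160)
(.leaf p036_l133)
(.leaf p036_l134))) (by decide +kernel)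

end B2
end Pool.Agent.Lib.MP_6947cd_al
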