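import Pool.Agent.Lib.MP_6947cd_al.ZB.Pre

/-!
Problem MP_6947cd_al (Chollet).  Case B, second entry in [2/5, 17/20]: certificates of the tree, part P053 (generated).
-/

set_option autoImplicit false
set_option linter.all false

namespace Pool.Agent.Lib.MP_6947cd_al
namespace B2

open Ent Fr B1 PkA

noncomputable def p053_k0 : C1.Kn := ⟨[nat_lit 60, nat_lit 140], [nat_lit 0, nat_lit 0], [(nat_lit 0, nat_lit 0, nat_lit 0), (nat_lit 0, nat_lit 0, nat_lit 0)], (nat_lit 97, nat_lit 100, nat_lit 71)⟩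
noncomputable def p053_k1 : C1.Kn := ⟨[nat_lit 60, nat_lit 100, nat_lit 140], [nat_lit 0, nat_lit 0, nat_lit 2047], [(nat_lit 0, nat_lit 0, nat_lit 0), (nat_lit 0, nat_lit 0, nat_lit 0), (nat_lit 1000, nat_lit 993, nat_lit 781)], (nat_lit 97, nat_lit 100, nat_lit 71)⟩
noncomputable def p053_k2 : C1.Kn := ⟨[nat_lit 120, nat_lit 160, nat_lit 200], [nat_lit 0, nat_lit 0, nat_lit 3198], [(nat_lit 0, nat_lit 0, nat_lit 0), (nat_lit 0, nat_lit 0, nat_lit 0), (nat_lit 572, nat_lit 1000, nat_lit 714)], (nat_lit 0, nat_lit 0, nat_lit 0)⟩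
noncomputable def p053_k3 : C1.Kn := ⟨[nat_lit 60, nat_lit 100, nat_lit 140], [nat_lit 0, nat_lit 609, nat_lit 2558], [(nat_lit 0, nat_lit 0, nat_lit 0), (nat_lit 1000, nat_lit 905, nat_lit 238), (nat_lit 1000, nat_lit 904, nat_lit 760)], (nat_lit 89, nat_lit 100, nat_lit 69)⟩
noncomputable def p053_k4 : C1.Kn := ⟨[nat_lit 60, nat_lit 140], [nat_lit 0, nat_lit 1218], [(nat_lit 0, nat_lit 0, nat_lit 0), (nat_lit 1000, nat_lit 905, nat_lit 238)], (nat_lit 89, nat_lit 100, nat_lit 69)⟩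
noncomputable def p053_k5 : C1.Kn := ⟨[nat_lit 120, nat_lit 160, nat_lit 180], [nat_lit 0, nat_lit 533, nat_lit 2066], [(nat_lit 0, nat_lit 0, nat_lit 0), (nat_lit 960, nat_lit 1000, nat_lit 200), (nat_lit 615, nat_lit 1000, nat_lit 729)], (nat_lit 100, nat_lit 67, nat_lit 68)⟩
noncomputable def p053_k6 : C1.Kn := ⟨[nat_lit 60, nat_lit 120], [nat_lit 0, nat_lit 0], [(nat_lit 0, nat_lit 0, nat_lit 0), (nat_lit 0, nat_lit 0, nat_lit 0)], (nat_lit 92, nat_lit 100, nat_lit 51)⟩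
noncomputable def p053_k7 : C1.Kn := ⟨[nat_lit 60, nat_lit 80, nat_lit 120], [nat_lit 0, nat_lit 0, nat_lit 1064], [(nat_lit 0, nat_lit 0, nat_lit 0), (nat_lit 0, nat_lit 0, nat_lit 0), (nat_lit 1000, nat_lit 917, nat_lit 415)], (nat_lit 92, nat_lit 100, nat_lit 51)⟩
noncomputable def p053_k8 : C1.Kn := ⟨[nat_lit 60, nat_lit 120], [nat_lit 0, nat_lit 913], [(nat_lit 0, nat_lit 0, nat_lit 0), (nat_lit 1000, nat_lit 905, nat_lit 238)], (nat_lit 87, nat_lit 100, nat_lit 51)⟩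
noncomputable def p053_k9 : C1.Kn := ⟨[nat_lit 120, nat_lit 140, nat_lit 180], [nat_lit 0, nat_lit 0, nat_lit 1219], [(nat_lit 0, nat_lit 0, nat_lit 0), (nat_lit 0, nat_lit 0, nat_lit 0), (nat_lit 840, nat_lit 1000, nat_lit 400)], (nat_lit 100, nat_lit 76, nat_lit 52)⟩
noncomputable def p053_k10 : C1.Kn := ⟨[nat_lit 60, nat_lit 80, nat_lit 120], [nat_lit 0, nat_lit 304, nat_lit 1346], [(nat_lit 0, nat_lit 0, nat_lit 0), (nat_lit 1000, nat_lit 905, nat_lit 238), (nat_lit 1000, nat_lit 871, nat_lit 407)], (nat_lit 87, nat_lit 100, nat_lit 51)⟩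
noncomputable def p053_k11 : C1.Kn := ⟨[nat_lit 60, nat_lit 80, nat_lit 100], [nat_lit 0, nat_lit 456, nat_lit 976], [(nat_lit 0, nat_lit 0, nat_lit 0), (nat_lit 1000, nat_lit 859, nat_lit 351), (nat_lit 1000, nat_lit 848, nat_lit 406)], (nat_lit 84, nat_lit 100, nat_lit 51)⟩
noncomputable def p053_k12 : C1.Kn := ⟨[nat_lit 60, nat_lit 100, nat_lit 120], [nat_lit 0, nat_lit 609, nat_lit 1609], [(nat_lit 0, nat_lit 0, nat_lit 0), (nat_lit 1000, nat_lit 905, nat_lit 238), (nat_lit 1000, nat_lit 882, nat_lit 668)], (nat_lit 87, nat_lit 100, nat_lit 51)⟩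
noncomputable def p053_k13 : C1.Kn := ⟨[nat_lit 120, nat_lit 160], [nat_lit 0, nat_lit 533], [(nat_lit 0, nat_lit 0, nat_lit 0), (nat_lit 960, nat_lit 1000, nat_lit 200)], (nat_lit 100, nat_lit 81, nat_lit 51)⟩
noncomputable def p053_k14 : C1.Kn := ⟨[nat_lit 60, nat_lit 100], [nat_lit 0, nat_lit 0], [(nat_lit 0, nat_lit 0, nat_lit 0), (nat_lit 0, nat_lit 0, nat_lit 0)], (nat_lit 92, nat_lit 100, nat_lit 28)⟩
noncomputable def p053_k15 : C1.Kn := ⟨[nat_lit 60, nat_lit 100], [nat_lit 0, nat_lit 302], [(nat_lit 0, nat_lit 0, nat_lit 0), (nat_lit 1000, nat_lit 953, nat_lit 118)], (nat_lit 91, nat_lit 100, nat_lit 28)⟩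
noncomputable def p053_k16 : C1.Kn := ⟨[nat_lit 120, nat_lit 140, nat_lit 160], [nat_lit 0, nat_lit 266, nat_lit 862], [(nat_lit 0, nat_lit 0, nat_lit 0), (nat_lit 960, nat_lit 1000, nat_lit 200), (nat_lit 874, nat_lit 1000, nat_lit 406)], (nat_lit 100, nat_lit 81, nat_lit 51)⟩
noncomputable def p053_k17 : C1.Kn := ⟨[nat_lit 60, nat_lit 80, nat_lit 100], [nat_lit 0, nat_lit 533, nat_lit 1067], [(nat_lit 0, nat_lit 0, nat_lit 0), (nat_lit 1000, nat_lit 837, nat_lit 397), (nat_lit 1000, nat_lit 833, nat_lit 417)], (nat_lit 82, nat_lit 100, nat_lit 51)⟩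
noncomputable def p053_k18 : C1.Kn := ⟨[nat_lit 120, nat_lit 180], [nat_lit 0, nat_lit 0], [(nat_lit 0, nat_lit 0, nat_lit 0), (nat_lit 0, nat_lit 0, nat_lit 0)], (nat_lit 100, nat_lit 76, nat_lit 52)⟩
noncomputable def p053_k19 : C1.Kn := ⟨[nat_lit 60, nat_lit 100], [nat_lit 0, nat_lit 909], [(nat_lit 0, nat_lit 0, nat_lit 0), (nat_lit 1000, nat_lit 858, nat_lit 354)], (nat_lit 84, nat_lit 100, nat_lit 51)⟩
noncomputable def p053_k20 : C1.Kn := ⟨[nat_lit 60, nat_lit 100, nat_lit 120], [nat_lit 0, nat_lit 0, nat_lit 1164], [(nat_lit 0, nat_lit 0, nat_lit 0), (nat_lit 0, nat_lit 0, nat_lit 0), (nat_lit 1000, nat_lit 933, nat_lit 572)], (nat_lit 92, nat_lit 100, nat_lit 51)⟩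
noncomputable def p053_k21 : C1.Kn := ⟨[nat_lit 120, nat_lit 160, nat_lit 180], [nat_lit 0, nat_lit 0, nat_lit 1613], [(nat_lit 0, nat_lit 0, nat_lit 0), (nat_lit 0, nat_lit 0, nat_lit 0), (nat_lit 620, nat_lit 1000, nat_lit 670)], (nat_lit 100, nat_lit 76, nat_lit 52)⟩
noncomputable def p053_k22 : C1.Kn := ⟨[nat_lit 60, nat_lit 140], [nat_lit 0, nat_lit 0], [(nat_lit 0, nat_lit 0, nat_lit 0), (nat_lit 0, nat_lit 0, nat_lit 0)], (nat_lit 94, nat_lit 100, nat_lit 62)⟩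
noncomputable def p053_k23 : C1.Kn := ⟨[nat_lit 60, nat_lit 100, nat_lit 140], [nat_lit 0, nat_lit 0, nat_lit 2047], [(nat_lit 0, nat_lit 0, nat_lit 0), (nat_lit 0, nat_lit 0, nat_lit 0), (nat_lit 1000, nat_lit 993, nat_lit 781)], (nat_lit 94, nat_lit 100, nat_lit 62)⟩
noncomputable def p053_k24 : C1.Kn := ⟨[nat_lit 60, nat_lit 120], [nat_lit 0, nat_lit 913], [(nat_lit 0, nat_lit 0, nat_lit 0), (nat_lit 1000, nat_lit 905, nat_lit 238)], (nat_lit 87, nat_lit 100, nat_lit 60)⟩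
noncomputable def p053_k25 : C1.Kn := ⟨[nat_lit 60, nat_lit 80, nat_lit 140], [nat_lit 0, nat_lit 0, nat_lit 1595], [(nat_lit 0, nat_lit 0, nat_lit 0), (nat_lit 0, nat_lit 0, nat_lit 0), (nat_lit 1000, nat_lit 917, nat_lit 415)], (nat_lit 94, nat_lit 100, nat_lit 62)⟩
noncomputable def p053_k26 : C1.Kn := ⟨[nat_lit 100, nat_lit 140, nat_lit 160], [nat_lit 0, nat_lit 0, nat_lit 1280], [(nat_lit 0, nat_lit 0, nat_lit 0), (nat_lit 0, nat_lit 0, nat_lit 0), (nat_lit 800, nat_lit 1000, nat_lit 600)], (nat_lit 100, nat_lit 80, nat_lit 60)⟩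
noncomputable def p053_k27 : C1.Kn := ⟨[nat_lit 60, nat_lit 100, nat_lit 120], [nat_lit 0, nat_lit 302, nat_lit 1376], [(nat_lit 0, nat_lit 0, nat_lit 0), (nat_lit 1000, nat_lit 953, nat_lit 118), (nat_lit 1000, nat_lit 911, nat_lit 628)], (nat_lit 91, nat_lit 100, nat_lit 61)⟩
noncomputable def p053_k28 : C1.Kn := ⟨[nat_lit 60, nat_lit 100, nat_lit 120], [nat_lit 0, nat_lit 609, nat_lit 1609], [(nat_lit 0, nat_lit 0, nat_lit 0), (nat_lit 1000, nat_lit 905, nat_lit 238), (nat_lit 1000, nat_lit 882, nat_lit 668)], (nat_lit 87, nat_lit 100, nat_lit 60)⟩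
noncomputable def p053_k29 : C1.Kn := ⟨[nat_lit 60, nat_lit 100, nat_lit 120], [nat_lit 0, nat_lit 909, nat_lit 1866], [(nat_lit 0, nat_lit 0, nat_lit 0), (nat_lit 1000, nat_lit 858, nat_lit 354), (nat_lit 1000, nat_lit 849, nat_lit 705)], (nat_lit 84, nat_lit 100, nat_lit 60)⟩
noncomputable def p053_k30 : C1.Kn := ⟨[nat_lit 100, nat_lit 140, nat_lit 160], [nat_lit 0, nat_lit 508, nat_lit 1689], [(nat_lit 0, nat_lit 0, nat_lit 0), (nat_lit 1000, nat_lit 1000, nat_lit 198), (nat_lit 811, nat_lit 1000, nat_lit 671)], (nat_lit 100, nat_lit 86, nat_lit 60)⟩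
noncomputable def p053_k31 : C1.Kn := ⟨[nat_lit 60, nat_lit 120], [nat_lit 0, nat_lit 453], [(nat_lit 0, nat_lit 0, nat_lit 0), (nat_lit 1000, nat_lit 953, nat_lit 118)], (nat_lit 91, nat_lit 100, nat_lit 61)⟩
noncomputable def p053_k32 : C1.Kn := ⟨[nat_lit 100, nat_lit 160], [nat_lit 0, nat_lit 0], [(nat_lit 0, nat_lit 0, nat_lit 0), (nat_lit 0, nat_lit 0, nat_lit 0)], (nat_lit 100, nat_lit 80, nat_lit 60)⟩
noncomputable def p053_k33 : C1.Kn := ⟨[nat_lit 60, nat_lit 120, nat_lit 140], [nat_lit 0, nat_lit 0, nat_lit 2047], [(nat_lit 0, nat_lit 0, nat_lit 0), (nat_lit 0, nat_lit 0, nat_lit 0), (nat_lit 1000, nat_lit 993, nat_lit 781)], (nat_lit 94, nat_lit 100, nat_lit 62)⟩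
noncomputable def p053_k34 : C1.Kn := ⟨[nat_lit 60, nat_lit 100, nat_lit 120], [nat_lit 0, nat_lit 302, nat_lit 1376], [(nat_lit 0, nat_lit 0, nat_lit 0), (nat_lit 1000, nat_lit 953, nat_lit 118), (nat_lit 1000, nat_lit 911, nat_lit 628)], (nat_lit 90, nat_lit 100, nat_lit 51)⟩
noncomputable def p053_k35 : C1.Kn := ⟨[nat_lit 100, nat_lit 120, nat_lit 160], [nat_lit 0, nat_lit 0, nat_lit 1063], [(nat_lit 0, nat_lit 0, nat_lit 0), (nat_lit 0, nat_lit 0, nat_lit 0), (nat_lit 924, nat_lit 1000, nat_lit 383)], (nat_lit 100, nat_lit 80, nat_lit 60)⟩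
noncomputable def p053_l0 : Lf2 := ⟨nat_lit 0, nat_lit 13, [nat_lit 136, nat_lit 5, nat_lit 5, nat_lit 20], true, nat_lit 0, nat_lit 300, nat_lit 0, nat_lit 384, ⟨nat_lit 0, nat_lit 0, nat_lit 1000, nat_lit 4, nat_lit 107, nat_lit 1000, nat_lit 106, nat_lit 1000, nat_lit 3701, nat_lit 228, nat_lit 106667, nat_lit 295, nat_lit 62518302, nat_lit 0, nat_lit 0, nat_lit 1227603, false, false⟩,
 nat_lit 0, nat_lit 0, nat_lit 0, nat_lit 7361, nat_lit 3237, nat_lit 0, nat_lit 0, nat_lit 0, nat_lit 0, nat_lit 0, nat_lit 0, nat_lit 0, nat_lit 0, nat_lit 0, nat_lit 95, nat_lit 400000, nat_lit 0, nat_lit 0, [(nat_lit 13, [(nat_lit 5, nat_lit 1000)]), (nat_lit 16, [(nat_lit 5, nat_lit 1000)])],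
 ⟨p053_k0, nat_lit 0, nat_lit 0, nat_lit 307, nat_lit 0, nat_lit 0, [nat_lit 2596400000, nat_lit 124400000], [], [nat_lit 17838413231, nat_lit 19779363965, nat_lit 17399473432, nat_lit 19296407888, nat_lit 21673107612, nat_lit 23596941781, nat_lit 21822875502, nat_lit 23490361349], nat_lit 0, nat_lit 0, nat_lit 0, nat_lit 0, nat_lit 0, nat_lit 0, [], [nat_lit 82, nat_lit 40, nat_lit 40, nat_lit 80, nat_lit 63, nat_lit 345, nat_lit 125, nat_lit 10]⟩, C1.Rw.none,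
 ⟨nat_lit 4472, nat_lit 5478, ⟨.ofNat (nat_lit 90113), .ofNat (nat_lit 382351), .ofNat (nat_lit 132827), .ofNat (nat_lit 425065), .ofNat (nat_lit 123773), .ofNat (nat_lit 388887), .ofNat (nat_lit 166906), .ofNat (nat_lit 432020)⟩, ⟨.negSucc (nat_lit 45522), .ofNat (nat_lit 516475), .negSucc (nat_lit 2834), .ofNat (nat_lit 559189), .negSucc (nat_lit 12423), .ofNat (nat_lit 497412), .ofNat (nat_lit 0), .ofNat (nat_lit 540545)⟩⟩, [⟨nat_lit 0, nat_lit 100, nat_lit 80, nat_lit 60, nat_lit 91204842⟩, ⟨nat_lit 4, nat_lit 100, nat_lit 90, nat_lit 74, nat_lit 87860628⟩]⟩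
noncomputable def p053_l1 : Lf2 := ⟨nat_lit 0, nat_lit 13, [nat_lit 136, nat_lit 5, nat_lit 5, nat_lit 20], false, nat_lit 0, nat_lit 160, nat_lit 0, nat_lit 160, ⟨nat_lit 628, nat_lit 0, nat_lit 372, nat_lit 4, nat_lit 243, nat_lit 372, nat_lit 56, nat_lit 372, nat_lit 25350, nat_lit 254, nat_lit 417790, nat_lit 200, nat_lit 48956722, nat_lit 0, nat_lit 0, nat_lit 2912819, false, true⟩,
 nat_lit 0, nat_lit 0, nat_lit 0, nat_lit 17756, nat_lit 4440, nat_lit 8547, nat_lit 346, nat_lit 0, nat_lit 0, nat_lit 879, nat_lit 0, nat_lit 0, nat_lit 0, nat_lit 0, nat_lit 0, nat_lit 372000, nat_lit 0, nat_lit 0, [(nat_lit 13, [(nat_lit 6, nat_lit 372)]), (nat_lit 16, [(nat_lit 6, nat_lit 372)])],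
 ⟨p053_k1, nat_lit 0, nat_lit 0, nat_lit 213, nat_lit 0, nat_lit 0, [nat_lit 2485820801, nat_lit 3505036801, nat_lit 3816492800], [], [nat_lit 20647239011, nat_lit 23143507490, nat_lit 30837411874, nat_lit 32381095584, nat_lit 19475830851, nat_lit 21559098243, nat_lit 28136627971, nat_lit 29453007012], nat_lit 0, nat_lit 0, nat_lit 0, nat_lit 0, nat_lit 0, nat_lit 0, [], [nat_lit 8, nat_lit 40, nat_lit 40, nat_lit 80, nat_lit 1, nat_lit 373, nat_lit 150, nat_lit 11]⟩, ⟨p053_k2, nat_lit 0, nat_lit 0, nat_lit 433, nat_lit 0, nat_lit 0, [nat_lit 5003904000, nat_lit 7455616000, nat_lit 10299200000], [], [nat_lit 25195771718, nat_lit 25326088540, nat_lit 31731673191, nat_lit 31476361894, nat_lit 17972874816, nat_lit 18011253948, nat_lit 23151746758, nat_lit 22553052853], nat_lit 0, nat_lit 0, nat_lit 0, nat_lit 0, nat_lit 0, nat_lit 0, [], [nat_lit 97, nat_lit 40, nat_lit 40, nat_lit 80, nat_lit 76, nat_lit 428,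 nat_lit 200, nat_lit 9]⟩,
 ⟨nat_lit 4472, nat_lit 5478, ⟨.ofNat (nat_lit 382351), .ofNat (nat_lit 801872), .ofNat (nat_lit 425065), .ofNat (nat_lit 844520), .ofNat (nat_lit 388887), .ofNat (nat_lit 769461), .ofNat (nat_lit 432020), .ofNat (nat_lit 812527)⟩, ⟨.negSucc (nat_lit 45522), .ofNat (nat_lit 254209), .negSucc (nat_lit 2834), .ofNat (nat_lit 296923), .negSucc (nat_lit 12423), .ofNat (nat_lit 259489), .ofNat (nat_lit 0), .ofNat (nat_lit 302621)⟩⟩, []⟩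
noncomputable def p053_l2 : Lf2 := ⟨nat_lit 1, nat_lit 13, [nat_lit 136, nat_lit 5, nat_lit 5, nat_lit 20], false, nat_lit 0, nat_lit 160, nat_lit 160, nat_lit 384, zbN0,
 nat_lit 0, nat_lit 0, nat_lit 0, nat_lit 0, nat_lit 0, nat_lit 0, nat_lit 0, nat_lit 0, nat_lit 0, nat_lit 0, nat_lit 0, nat_lit 0, nat_lit 0, nat_lit 0, nat_lit 0, nat_lit 0, nat_lit 0, nat_lit 0, [],
 C1.Rw.none, C1.Rw.none,
 zbF0, []⟩
noncomputable def p053_l3 : Lf2 := ⟨nat_lit 0, nat_lit 13, [nat_lit 136, nat_lit 5, nat_lit 5, nat_lit 20], false, nat_lit 0, nat_lit 160, nat_lit 160, nat_lit 384, ⟨nat_lit 321, nat_lit 0, nat_lit 679, nat_lit 4, nat_lit 239, nat_lit 679, nat_lit 56, nat_lit 679, nat_lit 26667, nat_lit 255, nat_lit 357276, nat_lit 200, nat_lit 49395528, nat_lit 0, nat_lit 0, nat_lit 2879584, false, true⟩,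
 nat_lit 0, nat_lit 0, nat_lit 0, nat_lit 9639, nat_lit 3562, nat_lit 3708, nat_lit 0, nat_lit 0, nat_lit 0, nat_lit 345, nat_lit 0, nat_lit 0, nat_lit 0, nat_lit 0, nat_lit 6, nat_lit 438400, nat_lit 0, nat_lit 0, [(nat_lit 16, [(nat_lit 5, nat_lit 401), (nat_lit 6, nat_lit 278)])],
 ⟨p053_k3, nat_lit 0, nat_lit 0, nat_lit 211, nat_lit 0, nat_lit 0, [nat_lit 1930023600, nat_lit 1096111601, nat_lit 18149200], [], [nat_lit 20192062384, nat_lit 21303770200, nat_lit 28560679403, nat_lit 29481563029, nat_lit 19686291532, nat_lit 20635626464, nat_lit 26673846149, nat_lit 27280436053], nat_lit 0, nat_lit 0, nat_lit 0, nat_lit 0, nat_lit 0, nat_lit 0, [], [nat_lit 8, nat_lit 40, nat_lit 40, nat_lit 80, nat_lit 1, nat_lit 373, nat_lit 150, nat_lit 11]⟩, ⟨p053_k2, nat_lit 0, nat_lit 0, nat_lit 226, nat_lit 0, nat_lit 0, [nat_lit 2557728000, nat_lit 3810912000, nat_lit 5264400000], [], [nat_lit 8245226406, nat_lit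 8369364966, nat_lit 11514661458, nat_lit 11307313727, nat_lit 11755798062, nat_lit 11534874361, nat_lit 13537625731, nat_lit 13234452422], nat_lit 0, nat_lit 0, nat_lit 0, nat_lit 0, nat_lit 0, nat_lit 0, [], [nat_lit 97, nat_lit 40, nat_lit 40, nat_lit 80, nat_lit 76, nat_lit 483, nat_lit 250, nat_lit 10]⟩,
 ⟨nat_lit 4472, nat_lit 5000, ⟨.ofNat (nat_lit 385713), .ofNat (nat_lit 771425), .ofNat (nat_lit 428570), .ofNat (nat_lit 814263), .ofNat (nat_lit 388887), .ofNat (nat_lit 755968), .ofNat (nat_lit 432020), .ofNat (nat_lit 799081)⟩, ⟨.negSucc (nat_lit 28572), .ofNat (nat_lit 257141), .ofNat (nat_lit 0), .ofNat (nat_lit 299999), .negSucc (nat_lit 12423), .ofNat (nat_lit 259489), .ofNat (nat_lit 0), .ofNat (nat_lit 302621)⟩⟩, [⟨nat_lit 19, nat_lit 100, nat_lit 63, nat_lit 72, nat_lit 109320724⟩, ⟨nat_lit 22, nat_lit 100, nat_lit 89, nat_lit 85, nat_lit 48630145⟩]⟩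
noncomputable def p053_l4 : Lf2 := ⟨nat_lit 1, nat_lit 13, [nat_lit 136, nat_lit 5, nat_lit 5, nat_lit 20], false, nat_lit 160, nat_lit 300, nat_lit 0, nat_lit 384, zbN0,
 nat_lit 0, nat_lit 0, nat_lit 0, nat_lit 0, nat_lit 0, nat_lit 0, nat_lit 0, nat_lit 0, nat_lit 0, nat_lit 0, nat_lit 0, nat_lit 0, nat_lit 0, nat_lit 0, nat_lit 0, nat_lit 0, nat_lit 0, nat_lit 0, [],
 C1.Rw.none, C1.Rw.none,
 zbF0, []⟩
noncomputable def p053_l5 : Lf2 := ⟨nat_lit 0, nat_lit 13, [nat_lit 136, nat_lit 5, nat_lit 5, nat_lit 20], true, nat_lit 160, nat_lit 280, nat_lit 0, nat_lit 384, ⟨nat_lit 0, nat_lit 1000, nat_lit 0, nat_lit 4, nat_lit 239, nat_lit 1000, nat_lit 154, nat_lit 0, nat_lit 0, nat_lit 0, nat_lit 0, nat_lit 0, nat_lit 42512356, nat_lit 16351673, nat_lit 8135971, nat_lit 4770617, false, true⟩,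
 nat_lit 0, nat_lit 0, nat_lit 0, nat_lit 5119, nat_lit 3644, nat_lit 0, nat_lit 0, nat_lit 0, nat_lit 0, nat_lit 0, nat_lit 0, nat_lit 0, nat_lit 0, nat_lit 0, nat_lit 0, nat_lit 250000, nat_lit 0, nat_lit 0, [(nat_lit 16, [(nat_lit 0, nat_lit 1000)])],
 ⟨p053_k3, nat_lit 0, nat_lit 0, nat_lit 79, nat_lit 0, nat_lit 0, [nat_lit 2335200000, nat_lit 2745733334, nat_lit 3400666666], [], [nat_lit 15888416232, nat_lit 17321294592, nat_lit 26185305410, nat_lit 27044003348, nat_lit 20865036316, nat_lit 21986674544, nat_lit 28949823428, nat_lit 29640138976], nat_lit 0, nat_lit 0, nat_lit 0, nat_lit 0, nat_lit 0, nat_lit 0, [], [nat_lit 8, nat_lit 40, nat_lit 40, nat_lit 80, nat_lit 1, nat_lit 401, nat_lit 175, nat_lit 11]⟩, C1.Rw.none,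
 ⟨nat_lit 4472, nat_lit 5000, ⟨.ofNat (nat_lit 385713), .ofNat (nat_lit 771425), .ofNat (nat_lit 428570), .ofNat (nat_lit 814263), .ofNat (nat_lit 388887), .ofNat (nat_lit 755968), .ofNat (nat_lit 432020), .ofNat (nat_lit 799081)⟩, ⟨.ofNat (nat_lit 257141), .ofNat (nat_lit 471427), .ofNat (nat_lit 299999), .ofNat (nat_lit 514284), .ofNat (nat_lit 259489), .ofNat (nat_lit 463423), .ofNat (nat_lit 302621), .ofNat (nat_lit 506556)⟩⟩, [⟨nat_lit 13, nat_lit 84, nat_lit 63, nat_lit 100, nat_lit 140277977⟩, ⟨nat_lit 4, nat_lit 100, nat_lit 85, nat_lit 73, nat_lit 131250561⟩]⟩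
noncomputable def p053_l6 : Lf2 := ⟨nat_lit 0, nat_lit 13, [nat_lit 136, nat_lit 5, nat_lit 5, nat_lit 20], true, nat_lit 0, nat_lit 160, nat_lit 0, nat_lit 384, ⟨nat_lit 0, nat_lit 0, nat_lit 1000, nat_lit 4, nat_lit 107, nat_lit 635, nat_lit 56, nat_lit 1000, nat_lit 25350, nat_lit 254, nat_lit 106667, nat_lit 295, nat_lit 62518302, nat_lit 0, nat_lit 0, nat_lit 1227603, false, false⟩,
 nat_lit 0, nat_lit 0, nat_lit 0, nat_lit 6078, nat_lit 3183, nat_lit 0, nat_lit 0, nat_lit 0, nat_lit 0, nat_lit 0, nat_lit 0, nat_lit 0, nat_lit 0, nat_lit 0, nat_lit 100, nat_lit 426400, nat_lit 0, nat_lit 0, [(nat_lit 13, [(nat_lit 5, nat_lit 956), (nat_lit 6, nat_lit 44)]), (nat_lit 16, [(nat_lit 5, nat_lit 956), (nat_lit 6, nat_lit 44)])],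
 ⟨p053_k0, nat_lit 0, nat_lit 0, nat_lit 307, nat_lit 0, nat_lit 0, [nat_lit 2737536000, nat_lit 96320000], [], [nat_lit 17624620434, nat_lit 19523262302, nat_lit 17455241064, nat_lit 19375238192, nat_lit 17384583515, nat_lit 19300341967, nat_lit 17667286952, nat_lit 19322638156], nat_lit 0, nat_lit 0, nat_lit 0, nat_lit 0, nat_lit 0, nat_lit 0, [], [nat_lit 82, nat_lit 40, nat_lit 40, nat_lit 80, nat_lit 63, nat_lit 317, nat_lit 100, nat_lit 10]⟩, C1.Rw.none,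
 ⟨nat_lit 4472, nat_lit 5478, ⟨.ofNat (nat_lit 90113), .ofNat (nat_lit 382351), .ofNat (nat_lit 132827), .ofNat (nat_lit 425065), .ofNat (nat_lit 123773), .ofNat (nat_lit 388887), .ofNat (nat_lit 166906), .ofNat (nat_lit 432020)⟩, ⟨.negSucc (nat_lit 45522), .ofNat (nat_lit 254209), .negSucc (nat_lit 2834), .ofNat (nat_lit 296923), .negSucc (nat_lit 12423), .ofNat (nat_lit 259489), .ofNat (nat_lit 0), .ofNat (nat_lit 302621)⟩⟩, [⟨nat_lit 0, nat_lit 100, nat_lit 80, nat_lit 60, nat_lit 92843352⟩]⟩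
noncomputable def p053_l7 : Lf2 := ⟨nat_lit 1, nat_lit 13, [nat_lit 136, nat_lit 5, nat_lit 5, nat_lit 20], false, nat_lit 0, nat_lit 160, nat_lit 0, nat_lit 384, zbN0,
 nat_lit 0, nat_lit 0, nat_lit 0, nat_lit 0, nat_lit 0, nat_lit 0, nat_lit 0, nat_lit 0, nat_lit 0, nat_lit 0, nat_lit 0, nat_lit 0, nat_lit 0, nat_lit 0, nat_lit 0, nat_lit 0, nat_lit 0, nat_lit 0, [],
 C1.Rw.none, C1.Rw.none,
 zbF0, []⟩
noncomputable def p053_l8 : Lf2 := ⟨nat_lit 0, nat_lit 13, [nat_lit 136, nat_lit 5, nat_lit 5, nat_lit 20], true, nat_lit 0, nat_lit 160, nat_lit 0, nat_lit 384, ⟨nat_lit 0, nat_lit 0, nat_lit 1000, nat_lit 4, nat_lit 191, nat_lit 608, nat_lit 56, nat_lit 1000, nat_lit 26667, nat_lit 255, nat_lit 3024, nat_lit 223, nat_lit 54517541, nat_lit 0, nat_lit 0, nat_lit 2404104, false, true⟩,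
 nat_lit 0, nat_lit 0, nat_lit 0, nat_lit 5428, nat_lit 3185, nat_lit 0, nat_lit 0, nat_lit 0, nat_lit 0, nat_lit 0, nat_lit 0, nat_lit 0, nat_lit 0, nat_lit 0, nat_lit 112, nat_lit 413200, nat_lit 0, nat_lit 0, [(nat_lit 16, [(nat_lit 5, nat_lit 978), (nat_lit 6, nat_lit 22)])],
 ⟨p053_k4, nat_lit 0, nat_lit 0, nat_lit 163, nat_lit 0, nat_lit 0, [nat_lit 2694507200, nat_lit 127683200], [], [nat_lit 17125481320, nat_lit 18187097900, nat_lit 19330767720, nat_lit 20256208800, nat_lit 16986360310, nat_lit 17896718720, nat_lit 19082249890, nat_lit 20126854440], nat_lit 0, nat_lit 0, nat_lit 0, nat_lit 0, nat_lit 0, nat_lit 0, [], [nat_lit 82, nat_lit 40, nat_lit 40, nat_lit 80, nat_lit 63, nat_lit 317, nat_lit 100, nat_lit 9]⟩, C1.Rw.none,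
 ⟨nat_lit 4472, nat_lit 5000, ⟨.ofNat (nat_lit 385713), .ofNat (nat_lit 528570), .ofNat (nat_lit 428570), .ofNat (nat_lit 571423), .ofNat (nat_lit 388887), .ofNat (nat_lit 524844), .ofNat (nat_lit 432020), .ofNat (nat_lit 567973)⟩, ⟨.negSucc (nat_lit 28572), .ofNat (nat_lit 257141), .ofNat (nat_lit 0), .ofNat (nat_lit 299999), .negSucc (nat_lit 12423), .ofNat (nat_lit 259489), .ofNat (nat_lit 0), .ofNat (nat_lit 302621)⟩⟩, []⟩
noncomputable def p053_l9 : Lf2 := ⟨nat_lit 0, nat_lit 13, [nat_lit 136, nat_lit 5, nat_lit 5, nat_lit 20], true, nat_lit 0, nat_lit 160, nat_lit 0, nat_lit 384, ⟨nat_lit 0, nat_lit 636, nat_lit 364, nat_lit 6, nat_lit 247, nat_lit 1000, nat_lit 56, nat_lit 364, nat_lit 26667, nat_lit 255, nat_lit 157290, nat_lit 200, nat_lit 48487325, nat_lit 18512675, nat_lit 0, nat_lit 2947164, false, true⟩,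
 nat_lit 0, nat_lit 0, nat_lit 0, nat_lit 7571, nat_lit 3229, nat_lit 0, nat_lit 25, nat_lit 0, nat_lit 0, nat_lit 0, nat_lit 0, nat_lit 0, nat_lit 0, nat_lit 0, nat_lit 52, nat_lit 618400, nat_lit 0, nat_lit 0, [(nat_lit 16, [(nat_lit 1, nat_lit 636), (nat_lit 6, nat_lit 364)])],
 ⟨p053_k3, nat_lit 0, nat_lit 0, nat_lit 192, nat_lit 0, nat_lit 0, [nat_lit 2267896800, nat_lit 1724820801, nat_lit 26696000], [], [nat_lit 20970611138, nat_lit 21900600346, nat_lit 24059134114, nat_lit 24878772444, nat_lit 20520553568, nat_lit 21322413830, nat_lit 23353638452, nat_lit 24139098652], nat_lit 0, nat_lit 0, nat_lit 0, nat_lit 0, nat_lit 0, nat_lit 0, [], [nat_lit 8, nat_lit 40, nat_lit 40, nat_lit 80, nat_lit 1, nat_lit 345, nat_lit 125, nat_lit 9]⟩, C1.Rw.none,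
 ⟨nat_lit 4472, nat_lit 5000, ⟨.ofNat (nat_lit 528570), .ofNat (nat_lit 671427), .ofNat (nat_lit 571423), .ofNat (nat_lit 714270), .ofNat (nat_lit 524844), .ofNat (nat_lit 660800), .ofNat (nat_lit 567973), .ofNat (nat_lit 703919)⟩, ⟨.negSucc (nat_lit 28572), .ofNat (nat_lit 257141), .ofNat (nat_lit 0), .ofNat (nat_lit 299999), .negSucc (nat_lit 12423), .ofNat (nat_lit 259489), .ofNat (nat_lit 0), .ofNat (nat_lit 302621)⟩⟩, []⟩
noncomputable def p053_l10 : Lf2 := ⟨nat_lit 0, nat_lit 13, [nat_lit 136, nat_lit 5, nat_lit 5, nat_lit 20], true, nat_lit 0, nat_lit 160, nat_lit 0, nat_lit 336, ⟨nat_lit 0, nat_lit 1000, nat_lit 0, nat_lit 8, nat_lit 286, nat_lit 1000, nat_lit 56, nat_lit 0, nat_lit 0, nat_lit 0, nat_lit 0, nat_lit 0, nat_lit 44326698, nat_lit 22673302, nat_lit 0, nat_lit 3199866, false, true⟩,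
 nat_lit 0, nat_lit 0, nat_lit 0, nat_lit 8003, nat_lit 3646, nat_lit 0, nat_lit 293, nat_lit 0, nat_lit 0, nat_lit 0, nat_lit 0, nat_lit 0, nat_lit 0, nat_lit 0, nat_lit 0, nat_lit 400000, nat_lit 0, nat_lit 0, [(nat_lit 16, [(nat_lit 1, nat_lit 1000)])],
 ⟨p053_k3, nat_lit 0, nat_lit 0, nat_lit 206, nat_lit 0, nat_lit 0, [nat_lit 2020200000, nat_lit 2399066667, nat_lit 2245733333], [], [nat_lit 25771582519, nat_lit 26651868199, nat_lit 28033812390, nat_lit 28809492523, nat_lit 24465665631, nat_lit 25166941711, nat_lit 26325632439, nat_lit 27052572635], nat_lit 0, nat_lit 0, nat_lit 0, nat_lit 0, nat_lit 0, nat_lit 0, [], [nat_lit 8, nat_lit 40, nat_lit 40, nat_lit 80, nat_lit 1, nat_lit 249, nat_lit 40, nat_lit 6]⟩, C1.Rw.none,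
 ⟨nat_lit 4472, nat_lit 5000, ⟨.ofNat (nat_lit 671427), .ofNat (nat_lit 749998), .ofNat (nat_lit 692851), .ofNat (nat_lit 771417), .ofNat (nat_lit 660800), .ofNat (nat_lit 735576), .ofNat (nat_lit 682362), .ofNat (nat_lit 757132)⟩, ⟨.negSucc (nat_lit 28572), .ofNat (nat_lit 257141), .ofNat (nat_lit 0), .ofNat (nat_lit 299999), .negSucc (nat_lit 12423), .ofNat (nat_lit 259489), .ofNat (nat_lit 0), .ofNat (nat_lit 302621)⟩⟩, [⟨nat_lit 13, nat_lit 84, nat_lit 68, nat_lit 100, nat_lit 191576176⟩]⟩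
noncomputable def p053_l11 : Lf2 := ⟨nat_lit 0, nat_lit 13, [nat_lit 136, nat_lit 5, nat_lit 5, nat_lit 20], false, nat_lit 0, nat_lit 160, nat_lit 0, nat_lit 336, ⟨nat_lit 269, nat_lit 731, nat_lit 0, nat_lit 8, nat_lit 299, nat_lit 731, nat_lit 56, nat_lit 0, nat_lit 0, nat_lit 0, nat_lit 0, nat_lit 0, nat_lit 42997861, nat_lit 24002139, nat_lit 0, nat_lit 3261995, true, true⟩,
 nat_lit 0, nat_lit 0, nat_lit 7614, nat_lit 0, nat_lit 4298, nat_lit 2895, nat_lit 388, nat_lit 0, nat_lit 0, nat_lit 229, nat_lit 0, nat_lit 0, nat_lit 0, nat_lit 0, nat_lit 0, nat_lit 292400, nat_lit 0, nat_lit 0, [(nat_lit 16, [(nat_lit 1, nat_lit 731)])],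
 ⟨p053_k3, nat_lit 0, nat_lit 0, nat_lit 211, nat_lit 0, nat_lit 0, [nat_lit 2359624200, nat_lit 3434967734, nat_lit 4248198889], [], [nat_lit 27400089105, nat_lit 28335481297, nat_lit 30537987359, nat_lit 31361043836, nat_lit 25079776066, nat_lit 25860401722, nat_lit 27653906777, nat_lit 28322369809], nat_lit 0, nat_lit 0, nat_lit 0, nat_lit 0, nat_lit 0, nat_lit 0, [], [nat_lit 8, nat_lit 40, nat_lit 40, nat_lit 80, nat_lit 1, nat_lit 249, nat_lit 40, nat_lit 6]⟩, ⟨p053_k5, nat_lit 0, nat_lit 0, nat_lit 458, nat_lit 0, nat_lit 276679, [nat_lit 2143392000, nat_lit 3193568000, nat_lit 3781602000], [], [nat_lit 11948098509, nat_lit 11883582229, nat_lit 12775321392, nat_lit 12680387345, nat_lit 9722720369, nat_lit 9620988938, nat_lit 10205517628, nat_lit 10088799025], nat_lit 1271250, nat_lit 1271250, nat_lit 1271250, nat_lit 1271250, nat_lit 0, nat_lit 2373000, [nat_lit 1695000, nat_lit 1271250, nat_lit 1271250],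 [nat_lit 62, nat_lit 40, nat_lit 40, nat_lit 80, nat_lit 58, nat_lit 483, nat_lit 250, nat_lit 11]⟩,
 ⟨nat_lit 4472, nat_lit 5000, ⟨.ofNat (nat_lit 692851), .ofNat (nat_lit 792844), .ofNat (nat_lit 714270), .ofNat (nat_lit 814263), .ofNat (nat_lit 682362), .ofNat (nat_lit 777524), .ofNat (nat_lit 703919), .ofNat (nat_lit 799081)⟩, ⟨.negSucc (nat_lit 28572), .ofNat (nat_lit 257141), .ofNat (nat_lit 0), .ofNat (nat_lit 299999), .negSucc (nat_lit 12423), .ofNat (nat_lit 259489), .ofNat (nat_lit 0), .ofNat (nat_lit 302621)⟩⟩, [⟨nat_lit 13, nat_lit 84, nat_lit 59, nat_lit 100, nat_lit 91342353⟩, ⟨nat_lit 22, nat_lit 68, nat_lit 100, nat_lit 80, nat_lit 22760081⟩]⟩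
noncomputable def p053_l12 : Lf2 := ⟨nat_lit 0, nat_lit 13, [nat_lit 136, nat_lit 5, nat_lit 5, nat_lit 20], true, nat_lit 160, nat_lit 300, nat_lit 0, nat_lit 384, ⟨nat_lit 0, nat_lit 0, nat_lit 1000, nat_lit 4, nat_lit 107, nat_lit 1000, nat_lit 161, nat_lit 1000, nat_lit 3701, nat_lit 228, nat_lit 106667, nat_lit 295, nat_lit 52411367, nat_lit 0, nat_lit 0, nat_lit 3536891, false, false⟩,
 nat_lit 0, nat_lit 0, nat_lit 0, nat_lit 8312, nat_lit 3022, nat_lit 0, nat_lit 0, nat_lit 0, nat_lit 0, nat_lit 0, nat_lit 0, nat_lit 0, nat_lit 0, nat_lit 0, nat_lit 95, nat_lit 400000, nat_lit 0, nat_lit 0, [(nat_lit 13, [(nat_lit 5, nat_lit 1000)]), (nat_lit 16, [(nat_lit 5, nat_lit 1000)])],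
 ⟨p053_k0, nat_lit 0, nat_lit 0, nat_lit 172, nat_lit 0, nat_lit 0, [nat_lit 2596400000, nat_lit 124400000], [], [nat_lit 16713073359, nat_lit 18788849255, nat_lit 16959437800, nat_lit 18746450784, nat_lit 21417740123, nat_lit 23204119958, nat_lit 21269652578, nat_lit 23069626442], nat_lit 0, nat_lit 0, nat_lit 0, nat_lit 0, nat_lit 0, nat_lit 0, [], [nat_lit 82, nat_lit 40, nat_lit 40, nat_lit 80, nat_lit 63, nat_lit 345, nat_lit 125, nat_lit 10]⟩, C1.Rw.none,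
 ⟨nat_lit 4472, nat_lit 5478, ⟨.ofNat (nat_lit 90113), .ofNat (nat_lit 382351), .ofNat (nat_lit 132827), .ofNat (nat_lit 425065), .ofNat (nat_lit 123773), .ofNat (nat_lit 388887), .ofNat (nat_lit 166906), .ofNat (nat_lit 432020)⟩, ⟨.ofNat (nat_lit 254209), .ofNat (nat_lit 516475), .ofNat (nat_lit 296923), .ofNat (nat_lit 559189), .ofNat (nat_lit 259489), .ofNat (nat_lit 497412), .ofNat (nat_lit 302621), .ofNat (nat_lit 540545)⟩⟩, [⟨nat_lit 0, nat_lit 100, nat_lit 80, nat_lit 60, nat_lit 88638352⟩, ⟨nat_lit 16, nat_lit 90, nat_lit 100, nat_lit 74, nat_lit 260351932⟩]⟩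
noncomputable def p053_l13 : Lf2 := ⟨nat_lit 1, nat_lit 13, [nat_lit 136, nat_lit 5, nat_lit 5, nat_lit 20], false, nat_lit 160, nat_lit 300, nat_lit 0, nat_lit 384, zbN0,
 nat_lit 0, nat_lit 0, nat_lit 0, nat_lit 0, nat_lit 0, nat_lit 0, nat_lit 0, nat_lit 0, nat_lit 0, nat_lit 0, nat_lit 0, nat_lit 0, nat_lit 0, nat_lit 0, nat_lit 0, nat_lit 0, nat_lit 0, nat_lit 0, [],
 C1.Rw.none, C1.Rw.none,
 zbF0, []⟩
noncomputable def p053_l14 : Lf2 := ⟨nat_lit 0, nat_lit 13, [nat_lit 136, nat_lit 5, nat_lit 5, nat_lit 20], true, nat_lit 160, nat_lit 280, nat_lit 0, nat_lit 384, ⟨nat_lit 0, nat_lit 1000, nat_lit 0, nat_lit 4, nat_lit 239, nat_lit 1000, nat_lit 154, nat_lit 0, nat_lit 0, nat_lit 0, nat_lit 0, nat_lit 0, nat_lit 42512356, nat_lit 16351673, nat_lit 8135971, nat_lit 4770617, false, true⟩,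
 nat_lit 0, nat_lit 0, nat_lit 0, nat_lit 5119, nat_lit 3644, nat_lit 0, nat_lit 0, nat_lit 0, nat_lit 0, nat_lit 0, nat_lit 0, nat_lit 0, nat_lit 0, nat_lit 0, nat_lit 0, nat_lit 250000, nat_lit 0, nat_lit 0, [(nat_lit 16, [(nat_lit 0, nat_lit 1000)])],
 ⟨p053_k4, nat_lit 0, nat_lit 0, nat_lit 57, nat_lit 0, nat_lit 0, [nat_lit 2335200000, nat_lit 3383600000], [], [nat_lit 15888416232, nat_lit 17321294592, nat_lit 26185305410, nat_lit 27044003348, nat_lit 20865036316, nat_lit 21986674544, nat_lit 28949823428, nat_lit 29640138976], nat_lit 0, nat_lit 0, nat_lit 0, nat_lit 0, nat_lit 0, nat_lit 0, [], [nat_lit 82, nat_lit 40, nat_lit 40, nat_lit 80, nat_lit 63, nat_lit 401, nat_lit 175, nat_lit 11]⟩, C1.Rw.none,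
 ⟨nat_lit 4472, nat_lit 5000, ⟨.ofNat (nat_lit 385713), .ofNat (nat_lit 771425), .ofNat (nat_lit 428570), .ofNat (nat_lit 814263), .ofNat (nat_lit 388887), .ofNat (nat_lit 755968), .ofNat (nat_lit 432020), .ofNat (nat_lit 799081)⟩, ⟨.ofNat (nat_lit 257141), .ofNat (nat_lit 471427), .ofNat (nat_lit 299999), .ofNat (nat_lit 514284), .ofNat (nat_lit 259489), .ofNat (nat_lit 463423), .ofNat (nat_lit 302621), .ofNat (nat_lit 506556)⟩⟩, [⟨nat_lit 13, nat_lit 84, nat_lit 63, nat_lit 100, nat_lit 140277977⟩, ⟨nat_lit 4, nat_lit 100, nat_lit 85, nat_lit 73, nat_lit 131250561⟩]⟩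
noncomputable def p053_l15 : Lf2 := ⟨nat_lit 0, nat_lit 13, [nat_lit 136, nat_lit 5, nat_lit 5, nat_lit 20], true, nat_lit 0, nat_lit 300, nat_lit 0, nat_lit 384, ⟨nat_lit 0, nat_lit 1000, nat_lit 0, nat_lit 4, nat_lit 187, nat_lit 1000, nat_lit 106, nat_lit 0, nat_lit 0, nat_lit 0, nat_lit 0, nat_lit 0, nat_lit 0, nat_lit 0, nat_lit 0, nat_lit 5000000, false, true⟩,
 nat_lit 0, nat_lit 0, nat_lit 0, nat_lit 6290, nat_lit 4693, nat_lit 0, nat_lit 0, nat_lit 0, nat_lit 0, nat_lit 0, nat_lit 0, nat_lit 0, nat_lit 0, nat_lit 0, nat_lit 0, nat_lit 463000, nat_lit 0, nat_lit 0, [(nat_lit 13, [(nat_lit 1, nat_lit 895), (nat_lit 2, nat_lit 105)]), (nat_lit 16, [(nat_lit 1, nat_lit 895), (nat_lit 2, nat_lit 105)])],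
 ⟨p053_k0, nat_lit 0, nat_lit 0, nat_lit 307, nat_lit 0, nat_lit 0, [nat_lit 2902168001, nat_lit 2305261333], [], [nat_lit 27854188493, nat_lit 29935218437, nat_lit 32493410330, nat_lit 33569947384, nat_lit 29209167948, nat_lit 30467811612, nat_lit 31118254557, nat_lit 31799188027], nat_lit 0, nat_lit 0, nat_lit 0, nat_lit 0, nat_lit 0, nat_lit 0, [], [nat_lit 82, nat_lit 40, nat_lit 40, nat_lit 80, nat_lit 63, nat_lit 401, nat_lit 175, nat_lit 12]⟩, C1.Rw.none,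
 ⟨nat_lit 4472, nat_lit 5478, ⟨.ofNat (nat_lit 90113), .ofNat (nat_lit 801872), .ofNat (nat_lit 132827), .ofNat (nat_lit 844520), .ofNat (nat_lit 123773), .ofNat (nat_lit 769461), .ofNat (nat_lit 166906), .ofNat (nat_lit 812527)⟩, ⟨.negSucc (nat_lit 45522), .ofNat (nat_lit 516475), .negSucc (nat_lit 2834), .ofNat (nat_lit 559189), .negSucc (nat_lit 12423), .ofNat (nat_lit 497412), .ofNat (nat_lit 0), .ofNat (nat_lit 540545)⟩⟩, [⟨nat_lit 13, nat_lit 87, nat_lit 59, nat_lit 100, nat_lit 84205765⟩, ⟨nat_lit 4, nat_lit 100, nat_lit 90, nat_lit 74, nat_lit 62610748⟩]⟩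
noncomputable def b_V_700_400_10_6 : St := ⟨true, nat_lit 0, nat_lit 2, nat_lit 0, nat_lit 80, nat_lit 280, nat_lit 320, nat_lit 160, nat_lit 200, nat_lit 4, nat_lit 384, nat_lit 40, nat_lit 80, nat_lit 0, nat_lit 300, nat_lit 0, nat_lit 384, nat_lit 40, nat_lit 52, nat_lit 0, nat_lit 0, nat_lit 0, nat_lit 0⟩
theorem d_V_700_400_10_6 (h : EB TB.env) : Dead b_V_700_400_10_6 := chkB_sound0 h (T :=
(.gv
(.st (nat_lit 1)
(.spl (nat_lit 2) (nat_lit 160)
(.leaf p053_l0)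
(.spl (nat_lit 4) (nat_lit 160)
(.spl (nat_lit 5) (nat_lit 160)
(.leaf p053_l1)
(.spl (nat_lit 0) (nat_lit 300)
(.leaf p053_l2)
(.trX (nat_lit 13) (nat_lit 87) (nat_lit 50) (nat_lit 100) (nat_lit 376) (.leaf p053_l3))))
(.spl (nat_lit 0) (nat_lit 300)
(.leaf p053_l4)
(.trX (nat_lit 13) (nat_lit 87) (nat_lit 50) (nat_lit 100) (nat_lit 376) (.trX (nat_lit 16) (nat_lit 94) (nat_lit 100) (nat_lit 87) (nat_lit 280) (.leaf p053_l5))))))
(.spl (nat_lit 4) (nat_lit 160)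
(.spl (nat_lit 2) (nat_lit 160)
(.leaf p053_l6)
(.spl (nat_lit 0) (nat_lit 300)
(.leaf p053_l7)
(.trX (nat_lit 13) (nat_lit 87) (nat_lit 50) (nat_lit 100) (nat_lit 376) (.spl (nat_lit 2) (nat_lit 240)
(.leaf p053_l8)
(.spl (nat_lit 2) (nat_lit 320)
(.leaf p053_l9)
(.trX (nat_lit 22) (nat_lit 82) (nat_lit 76) (nat_lit 100) (nat_lit 336) (.spl (nat_lit 1) (nat_lit 180)
(.trX (nat_lit 13) (nat_lit 87) (nat_lit 59) (nat_lit 100) (nat_lit 364) (.leaf p053_l10))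
(.leaf p053_l11))))))))
(.spl (nat_lit 2) (nat_lit 160)
(.leaf p053_l12)
(.spl (nat_lit 0) (nat_lit 300)
(.leaf p053_l13)
(.trX (nat_lit 13) (nat_lit 87) (nat_lit 50) (nat_lit 100) (nat_lit 376) (.trX (nat_lit 16) (nat_lit 94) (nat_lit 100) (nat_lit 87) (nat_lit 280) (.leaf p053_l14)))))))
(.leaf p053_l15))) (by decide +kernel)
noncomputable def p053_l16 : Lf2 := ⟨nat_lit 1, nat_lit 13, [nat_lit 136, nat_lit 5, nat_lit 5, nat_lit 20], false, nat_lit 0, nat_lit 300, nat_lit 0, nat_lit 384, zbN0,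
 nat_lit 0, nat_lit 0, nat_lit 0, nat_lit 0, nat_lit 0, nat_lit 0, nat_lit 0, nat_lit 0, nat_lit 0, nat_lit 0, nat_lit 0, nat_lit 0, nat_lit 0, nat_lit 0, nat_lit 0, nat_lit 0, nat_lit 0, nat_lit 0, [],
 C1.Rw.none, C1.Rw.none,
 zbF0, []⟩
noncomputable def p053_l17 : Lf2 := ⟨nat_lit 0, nat_lit 13, [nat_lit 136, nat_lit 5, nat_lit 5, nat_lit 20], true, nat_lit 0, nat_lit 280, nat_lit 0, nat_lit 384, ⟨nat_lit 0, nat_lit 0, nat_lit 1000, nat_lit 4, nat_lit 111, nat_lit 1000, nat_lit 98, nat_lit 1000, nat_lit 21600, nat_lit 251, nat_lit 114817, nat_lit 298, nat_lit 62245941, nat_lit 0, nat_lit 0, nat_lit 1280520, false, false⟩,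
 nat_lit 0, nat_lit 4640, nat_lit 0, nat_lit 920, nat_lit 3212, nat_lit 0, nat_lit 0, nat_lit 0, nat_lit 0, nat_lit 0, nat_lit 0, nat_lit 0, nat_lit 0, nat_lit 0, nat_lit 112, nat_lit 411400, nat_lit 0, nat_lit 0, [(nat_lit 16, [(nat_lit 5, nat_lit 981), (nat_lit 6, nat_lit 19)])],
 ⟨p053_k3, nat_lit 0, nat_lit 0, nat_lit 343, nat_lit 0, nat_lit 93743, [nat_lit 2660016000, nat_lit 1247279201, nat_lit 142126400], [], [nat_lit 17773685348, nat_lit 19122999882, nat_lit 17633254592, nat_lit 18596550688, nat_lit 21245553748, nat_lit 22257067568, nat_lit 24697816606, nat_lit 23279972354], nat_lit 1271250, nat_lit 1271250, nat_lit 43600, nat_lit 1100001, nat_lit 0, nat_lit 1977500, [nat_lit 780000, nat_lit 1435000, nat_lit 1271250], [nat_lit 8, nat_lit 40, nat_lit 40, nat_lit 80, nat_lit 1, nat_lit 345, nat_lit 125, nat_lit 10]⟩, C1.Rw.none,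
 ⟨nat_lit 4472, nat_lit 5000, ⟨.ofNat (nat_lit 114284), .ofNat (nat_lit 385713), .ofNat (nat_lit 157141), .ofNat (nat_lit 428570), .ofNat (nat_lit 130570), .ofNat (nat_lit 388887), .ofNat (nat_lit 173703), .ofNat (nat_lit 432020)⟩, ⟨.negSucc (nat_lit 28572), .ofNat (nat_lit 471427), .ofNat (nat_lit 0), .ofNat (nat_lit 514284), .negSucc (nat_lit 12423), .ofNat (nat_lit 463423), .ofNat (nat_lit 0), .ofNat (nat_lit 506556)⟩⟩, [⟨nat_lit 4, nat_lit 100, nat_lit 85, nat_lit 73, nat_lit 65856281⟩]⟩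
noncomputable def p053_l18 : Lf2 := ⟨nat_lit 1, nat_lit 13, [nat_lit 136, nat_lit 5, nat_lit 5, nat_lit 20], false, nat_lit 0, nat_lit 300, nat_lit 0, nat_lit 384, zbN0,
 nat_lit 0, nat_lit 0, nat_lit 0, nat_lit 0, nat_lit 0, nat_lit 0, nat_lit 0, nat_lit 0, nat_lit 0, nat_lit 0, nat_lit 0, nat_lit 0, nat_lit 0, nat_lit 0, nat_lit 0, nat_lit 0, nat_lit 0, nat_lit 0, [],
 C1.Rw.none, C1.Rw.none,
 zbF0, []⟩
noncomputable def p053_l19 : Lf2 := ⟨nat_lit 0, nat_lit 13, [nat_lit 136, nat_lit 5, nat_lit 5, nat_lit 20], true, nat_lit 0, nat_lit 280, nat_lit 0, nat_lit 384, ⟨nat_lit 0, nat_lit 0, nat_lit 1000, nat_lit 4, nat_lit 191, nat_lit 1000, nat_lit 98, nat_lit 1000, nat_lit 21600, nat_lit 251, nat_lit 3024, nat_lit 223, nat_lit 54517541, nat_lit 0, nat_lit 0, nat_lit 2404104, false, true⟩,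
 nat_lit 0, nat_lit 4817, nat_lit 0, nat_lit 4807, nat_lit 3334, nat_lit 0, nat_lit 0, nat_lit 0, nat_lit 0, nat_lit 0, nat_lit 0, nat_lit 0, nat_lit 0, nat_lit 0, nat_lit 109, nat_lit 400000, nat_lit 0, nat_lit 0, [(nat_lit 16, [(nat_lit 5, nat_lit 1000)])],
 ⟨p053_k4, nat_lit 0, nat_lit 0, nat_lit 185, nat_lit 0, nat_lit 93743, [nat_lit 2630400000, nat_lit 149600000], [], [nat_lit 20415282068, nat_lit 18652469576, nat_lit 19388954396, nat_lit 20476204320, nat_lit 20525863992, nat_lit 21502288668, nat_lit 24923743874, nat_lit 23433189156], nat_lit 1271250, nat_lit 1271250, nat_lit 1100001, nat_lit 1785000, nat_lit 0, nat_lit 1977500, [nat_lit 780000, nat_lit 2090000], [nat_lit 82, nat_lit 40, nat_lit 40, nat_lit 80, nat_lit 63, nat_lit 373, nat_lit 150, nat_lit 11]⟩, C1.Rw.none,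
 ⟨nat_lit 4472, nat_lit 5000, ⟨.ofNat (nat_lit 385713), .ofNat (nat_lit 528570), .ofNat (nat_lit 428570), .ofNat (nat_lit 571423), .ofNat (nat_lit 388887), .ofNat (nat_lit 524844), .ofNat (nat_lit 432020), .ofNat (nat_lit 567973)⟩, ⟨.negSucc (nat_lit 28572), .ofNat (nat_lit 471427), .ofNat (nat_lit 0), .ofNat (nat_lit 514284), .negSucc (nat_lit 12423), .ofNat (nat_lit 463423), .ofNat (nat_lit 0), .ofNat (nat_lit 506556)⟩⟩, [⟨nat_lit 4, nat_lit 100, nat_lit 85, nat_lit 73, nat_lit 60650888⟩]⟩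
noncomputable def p053_l20 : Lf2 := ⟨nat_lit 1, nat_lit 13, [nat_lit 136, nat_lit 5, nat_lit 5, nat_lit 20], false, nat_lit 0, nat_lit 160, nat_lit 0, nat_lit 384, zbN0,
 nat_lit 0, nat_lit 0, nat_lit 0, nat_lit 0, nat_lit 0, nat_lit 0, nat_lit 0, nat_lit 0, nat_lit 0, nat_lit 0, nat_lit 0, nat_lit 0, nat_lit 0, nat_lit 0, nat_lit 0, nat_lit 0, nat_lit 0, nat_lit 0, [],
 C1.Rw.none, C1.Rw.none,
 zbF0, []⟩
noncomputable def p053_l21 : Lf2 := ⟨nat_lit 0, nat_lit 13, [nat_lit 136, nat_lit 5, nat_lit 5, nat_lit 20], false, nat_lit 0, nat_lit 160, nat_lit 0, nat_lit 384, ⟨nat_lit 493, nat_lit 0, nat_lit 507, nat_lit 6, nat_lit 267, nat_lit 507, nat_lit 56, nat_lit 507, nat_lit 26667, nat_lit 255, nat_lit 357276, nat_lit 200, nat_lit 46383472, nat_lit 0, nat_lit 0, nat_lit 3086277, false, true⟩,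
 nat_lit 0, nat_lit 6844, nat_lit 0, nat_lit 2148, nat_lit 4738, nat_lit 4548, nat_lit 31, nat_lit 0, nat_lit 0, nat_lit 468, nat_lit 0, nat_lit 0, nat_lit 0, nat_lit 0, nat_lit 0, nat_lit 507000, nat_lit 0, nat_lit 0, [(nat_lit 16, [(nat_lit 6, nat_lit 507)])],
 ⟨p053_k3, nat_lit 0, nat_lit 0, nat_lit 237, nat_lit 0, nat_lit 93743, [nat_lit 2118130801, nat_lit 1909877201, nat_lit 939688400], [], [nat_lit 23425507992, nat_lit 24573070214, nat_lit 31313065027, nat_lit 32484646492, nat_lit 21387784853, nat_lit 22118173764, nat_lit 27047177601, nat_lit 28078663833], nat_lit 1271250, nat_lit 1271250, nat_lit 1271250, nat_lit 1271250, nat_lit 0, nat_lit 1100001, [nat_lit 780000, nat_lit 1435000, nat_lit 1271250], [nat_lit 8, nat_lit 40, nat_lit 40, nat_lit 80, nat_lit 1, nat_lit 373, nat_lit 150, nat_lit 10]⟩, ⟨p053_k2, nat_lit 0, nat_lit 0, nat_lit 411, nat_lit 0, nat_lit 0, [nat_lit 3928224000, nat_lit 5852896000,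 nat_lit 8085200000], [], [nat_lit 18807355360, nat_lit 18829001724, nat_lit 23068193894, nat_lit 22858658098, nat_lit 18279789222, nat_lit 18201575223, nat_lit 20864403543, nat_lit 20560815996], nat_lit 0, nat_lit 0, nat_lit 0, nat_lit 0, nat_lit 0, nat_lit 0, [], [nat_lit 97, nat_lit 40, nat_lit 40, nat_lit 80, nat_lit 76, nat_lit 483, nat_lit 250, nat_lit 10]⟩,
 ⟨nat_lit 4472, nat_lit 5000, ⟨.ofNat (nat_lit 528570), .ofNat (nat_lit 771425), .ofNat (nat_lit 571423), .ofNat (nat_lit 814263), .ofNat (nat_lit 524844), .ofNat (nat_lit 755968), .ofNat (nat_lit 567973), .ofNat (nat_lit 799081)⟩, ⟨.negSucc (nat_lit 28572), .ofNat (nat_lit 257141), .ofNat (nat_lit 0), .ofNat (nat_lit 299999), .negSucc (nat_lit 12423), .ofNat (nat_lit 259489), .ofNat (nat_lit 0), .ofNat (nat_lit 302621)⟩⟩, [⟨nat_lit 22, nat_lit 90, nat_lit 100, nat_lit 85, nat_lit 90568181⟩]⟩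
noncomputable def p053_l22 : Lf2 := ⟨nat_lit 0, nat_lit 13, [nat_lit 136, nat_lit 5, nat_lit 5, nat_lit 20], true, nat_lit 160, nat_lit 300, nat_lit 0, nat_lit 384, ⟨nat_lit 0, nat_lit 1000, nat_lit 0, nat_lit 6, nat_lit 264, nat_lit 1000, nat_lit 161, nat_lit 0, nat_lit 0, nat_lit 0, nat_lit 0, nat_lit 0, nat_lit 39997090, nat_lit 18559399, nat_lit 8443511, nat_lit 4966500, false, true⟩,
 nat_lit 0, nat_lit 7165, nat_lit 0, nat_lit 0, nat_lit 4559, nat_lit 0, nat_lit 0, nat_lit 0, nat_lit 0, nat_lit 0, nat_lit 0, nat_lit 0, nat_lit 0, nat_lit 0, nat_lit 0, nat_lit 250000, nat_lit 0, nat_lit 0, [(nat_lit 13, [(nat_lit 0, nat_lit 1000)]), (nat_lit 16, [(nat_lit 0, nat_lit 1000)])],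
 ⟨p053_k1, nat_lit 0, nat_lit 0, nat_lit 97, nat_lit 0, nat_lit 61098, [nat_lit 2378400000, nat_lit 2909733334, nat_lit 3539066666], [], [nat_lit 19613574334, nat_lit 21766625766, nat_lit 26503461837, nat_lit 28152894387, nat_lit 24184359970, nat_lit 25798591626, nat_lit 29699164885, nat_lit 31210152903], nat_lit 1271250, nat_lit 1271250, nat_lit 1271250, nat_lit 1271250, nat_lit 1100001, nat_lit 2298750, [nat_lit 780000, nat_lit 1435000, nat_lit 1271250], [nat_lit 8, nat_lit 40, nat_lit 40, nat_lit 80, nat_lit 1, nat_lit 401, nat_lit 175, nat_lit 11]⟩, C1.Rw.none,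
 ⟨nat_lit 4472, nat_lit 5478, ⟨.ofNat (nat_lit 532217), .ofNat (nat_lit 786893), .ofNat (nat_lit 553571), .ofNat (nat_lit 808217), .ofNat (nat_lit 524844), .ofNat (nat_lit 755873), .ofNat (nat_lit 546407), .ofNat (nat_lit 777406)⟩, ⟨.ofNat (nat_lit 254209), .ofNat (nat_lit 516475), .ofNat (nat_lit 296923), .ofNat (nat_lit 559189), .ofNat (nat_lit 259489), .ofNat (nat_lit 497412), .ofNat (nat_lit 302621), .ofNat (nat_lit 540545)⟩⟩, [⟨nat_lit 13, nat_lit 82, nat_lit 76, nat_lit 100, nat_lit 186067460⟩, ⟨nat_lit 4, nat_lit 100, nat_lit 90, nat_lit 74, nat_lit 128039001⟩]⟩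
noncomputable def p053_l23 : Lf2 := ⟨nat_lit 1, nat_lit 13, [nat_lit 136, nat_lit 5, nat_lit 5, nat_lit 20], false, nat_lit 160, nat_lit 300, nat_lit 0, nat_lit 372, zbN0,
 nat_lit 0, nat_lit 0, nat_lit 0, nat_lit 0, nat_lit 0, nat_lit 0, nat_lit 0, nat_lit 0, nat_lit 0, nat_lit 0, nat_lit 0, nat_lit 0, nat_lit 0, nat_lit 0, nat_lit 0, nat_lit 0, nat_lit 0, nat_lit 0, [],
 C1.Rw.none, C1.Rw.none,
 zbF0, []⟩
noncomputable def p053_l24 : Lf2 := ⟨nat_lit 0, nat_lit 13, [nat_lit 136, nat_lit 5, nat_lit 5, nat_lit 20], false, nat_lit 160, nat_lit 280, nat_lit 0, nat_lit 372, ⟨nat_lit 637, nat_lit 363, nat_lit 0, nat_lit 6, nat_lit 271, nat_lit 363, nat_lit 154, nat_lit 0, nat_lit 0, nat_lit 0, nat_lit 0, nat_lit 0, nat_lit 39874053, nat_lit 19307695, nat_lit 7818252, nat_lit 4924433, true, true⟩,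
 nat_lit 0, nat_lit 7576, nat_lit 0, nat_lit 6593, nat_lit 5244, nat_lit 7004, nat_lit 700, nat_lit 0, nat_lit 0, nat_lit 504, nat_lit 0, nat_lit 0, nat_lit 0, nat_lit 0, nat_lit 0, nat_lit 121350, nat_lit 0, nat_lit 0, [(nat_lit 16, [(nat_lit 0, nat_lit 159), (nat_lit 1, nat_lit 204)])],
 ⟨p053_k3, nat_lit 0, nat_lit 0, nat_lit 146, nat_lit 0, nat_lit 93743, [nat_lit 2874051600, nat_lit 4907231201, nat_lit 7249863200], [], [nat_lit 21500070448, nat_lit 22462481880, nat_lit 27774277713, nat_lit 28614964706, nat_lit 24576802632, nat_lit 25408564192, nat_lit 30414246148, nat_lit 31247826076], nat_lit 1271250, nat_lit 1271250, nat_lit 1271250, nat_lit 1271250, nat_lit 1100001, nat_lit 2127500, [nat_lit 780000, nat_lit 1435000, nat_lit 1271250], [nat_lit 8, nat_lit 40, nat_lit 40, nat_lit 80, nat_lit 1, nat_lit 401, nat_lit 175, nat_lit 10]⟩, ⟨p053_k5, nat_lit 0, nat_lit 0, nat_lit 317, nat_lit 0, nat_lit 0,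 [nat_lit 5075616000, nat_lit 7562464000, nat_lit 8954946000], [], [nat_lit 22739144696, nat_lit 22934213356, nat_lit 30072977110, nat_lit 29955704396, nat_lit 22351328263, nat_lit 22197815188, nat_lit 25355921638, nat_lit 25093805635], nat_lit 0, nat_lit 0, nat_lit 0, nat_lit 0, nat_lit 0, nat_lit 0, [], [nat_lit 62, nat_lit 40, nat_lit 40, nat_lit 80, nat_lit 58, nat_lit 483, nat_lit 250, nat_lit 11]⟩,
 ⟨nat_lit 4472, nat_lit 5000, ⟨.ofNat (nat_lit 549999), .ofNat (nat_lit 792844), .ofNat (nat_lit 571423), .ofNat (nat_lit 814263), .ofNat (nat_lit 546410), .ofNat (nat_lit 777524), .ofNat (nat_lit 567973), .ofNat (nat_lit 799081)⟩, ⟨.ofNat (nat_lit 257141), .ofNat (nat_lit 471427), .ofNat (nat_lit 299999), .ofNat (nat_lit 514284), .ofNat (nat_lit 259489), .ofNat (nat_lit 463423), .ofNat (nat_lit 302621), .ofNat (nat_lit 506556)⟩⟩, [⟨nat_lit 16, nat_lit 85, nat_lit 100, nat_lit 73, nat_lit 405380263⟩, ⟨nat_lit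 7, nat_lit 66, nat_lit 100, nat_lit 72, nat_lit 84532321⟩]⟩
noncomputable def p053_l25 : Lf2 := ⟨nat_lit 1, nat_lit 13, [nat_lit 136, nat_lit 5, nat_lit 5, nat_lit 20], false, nat_lit 0, nat_lit 300, nat_lit 0, nat_lit 384, zbN0,
 nat_lit 0, nat_lit 0, nat_lit 0, nat_lit 0, nat_lit 0, nat_lit 0, nat_lit 0, nat_lit 0, nat_lit 0, nat_lit 0, nat_lit 0, nat_lit 0, nat_lit 0, nat_lit 0, nat_lit 0, nat_lit 0, nat_lit 0, nat_lit 0, [],
 C1.Rw.none, C1.Rw.none,
 zbF0, []⟩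
noncomputable def p053_l26 : Lf2 := ⟨nat_lit 0, nat_lit 13, [nat_lit 136, nat_lit 5, nat_lit 5, nat_lit 20], true, nat_lit 0, nat_lit 280, nat_lit 0, nat_lit 384, ⟨nat_lit 0, nat_lit 0, nat_lit 1000, nat_lit 4, nat_lit 111, nat_lit 1000, nat_lit 98, nat_lit 1000, nat_lit 21600, nat_lit 251, nat_lit 114817, nat_lit 298, nat_lit 62245941, nat_lit 0, nat_lit 0, nat_lit 1280520, false, false⟩,
 nat_lit 0, nat_lit 4640, nat_lit 0, nat_lit 920, nat_lit 3212, nat_lit 0, nat_lit 0, nat_lit 0, nat_lit 0, nat_lit 0, nat_lit 0, nat_lit 0, nat_lit 0, nat_lit 0, nat_lit 112, nat_lit 411400, nat_lit 0, nat_lit 0, [(nat_lit 16, [(nat_lit 5, nat_lit 981), (nat_lit 6, nat_lit 19)])],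
 ⟨p053_k3, nat_lit 0, nat_lit 0, nat_lit 343, nat_lit 0, nat_lit 93743, [nat_lit 2660016000, nat_lit 1247279201, nat_lit 142126400], [], [nat_lit 17773685348, nat_lit 19122999882, nat_lit 17633254592, nat_lit 18596550688, nat_lit 21245553748, nat_lit 22257067568, nat_lit 24697816606, nat_lit 23279972354], nat_lit 1271250, nat_lit 1271250, nat_lit 43600, nat_lit 1100001, nat_lit 0, nat_lit 1977500, [nat_lit 780000, nat_lit 1435000, nat_lit 1271250], [nat_lit 8, nat_lit 40, nat_lit 40, nat_lit 80, nat_lit 1, nat_lit 345, nat_lit 125, nat_lit 10]⟩, C1.Rw.none,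
 ⟨nat_lit 4472, nat_lit 5000, ⟨.ofNat (nat_lit 114284), .ofNat (nat_lit 385713), .ofNat (nat_lit 157141), .ofNat (nat_lit 428570), .ofNat (nat_lit 130570), .ofNat (nat_lit 388887), .ofNat (nat_lit 173703), .ofNat (nat_lit 432020)⟩, ⟨.negSucc (nat_lit 28572), .ofNat (nat_lit 471427), .ofNat (nat_lit 0), .ofNat (nat_lit 514284), .negSucc (nat_lit 12423), .ofNat (nat_lit 463423), .ofNat (nat_lit 0), .ofNat (nat_lit 506556)⟩⟩, [⟨nat_lit 4, nat_lit 100, nat_lit 85, nat_lit 73, nat_lit 65856281⟩]⟩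
noncomputable def p053_l27 : Lf2 := ⟨nat_lit 0, nat_lit 13, [nat_lit 136, nat_lit 5, nat_lit 5, nat_lit 20], false, nat_lit 0, nat_lit 300, nat_lit 0, nat_lit 384, ⟨nat_lit 0, nat_lit 0, nat_lit 1000, nat_lit 4, nat_lit 191, nat_lit 1000, nat_lit 106, nat_lit 1000, nat_lit 3701, nat_lit 228, nat_lit 5017, nat_lit 222, nat_lit 54516379, nat_lit 0, nat_lit 0, nat_lit 2404232, false, true⟩,
 nat_lit 0, nat_lit 5123, nat_lit 0, nat_lit 7254, nat_lit 3260, nat_lit 0, nat_lit 0, nat_lit 0, nat_lit 0, nat_lit 0, nat_lit 0, nat_lit 0, nat_lit 0, nat_lit 0, nat_lit 95, nat_lit 400000, nat_lit 0, nat_lit 0, [(nat_lit 13, [(nat_lit 5, nat_lit 1000)]), (nat_lit 16, [(nat_lit 5, nat_lit 1000)])],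
 ⟨p053_k1, nat_lit 0, nat_lit 0, nat_lit 196, nat_lit 0, nat_lit 67848, [nat_lit 2462400000, nat_lit 1360400001, nat_lit 124400000], [], [nat_lit 22303158641, nat_lit 18992358240, nat_lit 19226805920, nat_lit 20921397600, nat_lit 21001909760, nat_lit 22453815860, nat_lit 24499509581, nat_lit 24272187020], nat_lit 1271250, nat_lit 1271250, nat_lit 1100001, nat_lit 1785000, nat_lit 0, nat_lit 2118750, [nat_lit 780000, nat_lit 1435000, nat_lit 1271250], [nat_lit 8, nat_lit 40, nat_lit 40, nat_lit 80, nat_lit 1, nat_lit 373, nat_lit 150, nat_lit 11]⟩, ⟨p053_k2, nat_lit 0, nat_lit 0, nat_lit 501, nat_lit 0, nat_lit 157985, [nat_lit 0, nat_lit 0, nat_lit 0], [], [nat_lit 0, nat_lit 0, nat_lit 0, nat_lit 0, nat_lit 0, nat_lit 0, nat_lit 0, nat_lit 0], nat_lit 1100001, nat_lit 1442500, nat_lit 1271250, nat_lit 1271250, nat_lit 0, nat_lit 2712000, [nat_lit 1695000, nat_lit 1271250, nat_lit 1271250], [nat_lit 97, nat_lit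 40, nat_lit 40, nat_lit 80, nat_lit 76, nat_lit 456, nat_lit 225, nat_lit 10]⟩,
 ⟨nat_lit 4472, nat_lit 5478, ⟨.ofNat (nat_lit 382351), .ofNat (nat_lit 532217), .ofNat (nat_lit 425065), .ofNat (nat_lit 574895), .ofNat (nat_lit 388887), .ofNat (nat_lit 524844), .ofNat (nat_lit 432020), .ofNat (nat_lit 567940)⟩, ⟨.negSucc (nat_lit 45522), .ofNat (nat_lit 516475), .negSucc (nat_lit 2834), .ofNat (nat_lit 559189), .negSucc (nat_lit 12423), .ofNat (nat_lit 497412), .ofNat (nat_lit 0), .ofNat (nat_lit 540545)⟩⟩, [⟨nat_lit 4, nat_lit 100, nat_lit 90, nat_lit 74, nat_lit 76234758⟩]⟩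
noncomputable def p053_l28 : Lf2 := ⟨nat_lit 0, nat_lit 13, [nat_lit 136, nat_lit 5, nat_lit 5, nat_lit 20], false, nat_lit 0, nat_lit 160, nat_lit 0, nat_lit 160, ⟨nat_lit 1000, nat_lit 0, nat_lit 0, nat_lit 0, nat_lit 0, nat_lit 0, nat_lit 0, nat_lit 0, nat_lit 0, nat_lit 0, nat_lit 0, nat_lit 0, nat_lit 0, nat_lit 0, nat_lit 0, nat_lit 0, false, false⟩,
 nat_lit 30057, nat_lit 0, nat_lit 0, nat_lit 0, nat_lit 6973, nat_lit 10018, nat_lit 651, nat_lit 0, nat_lit 0, nat_lit 1033, nat_lit 0, nat_lit 0, nat_lit 0, nat_lit 0, nat_lit 0, nat_lit 0, nat_lit 0, nat_lit 0, [],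
 ⟨p053_k1, nat_lit 0, nat_lit 0, nat_lit 233, nat_lit 0, nat_lit 67848, [nat_lit 3282000000, nat_lit 6250000000, nat_lit 9842000000], [], [nat_lit 29661007303, nat_lit 31943824019, nat_lit 37300974853, nat_lit 39056458495, nat_lit 25455595271, nat_lit 27360419523, nat_lit 31863355230, nat_lit 33064499331], nat_lit 1271250, nat_lit 1271250, nat_lit 1271250, nat_lit 1271250, nat_lit 0, nat_lit 1100001, [nat_lit 780000, nat_lit 1435000, nat_lit 1271250], [nat_lit 8, nat_lit 40, nat_lit 40, nat_lit 80, nat_lit 1, nat_lit 373, nat_lit 150, nat_lit 10]⟩, ⟨p053_k2, nat_lit 0, nat_lit 0, nat_lit 475, nat_lit 0, nat_lit 157985, [nat_lit 7968000000, nat_lit 11872000000, nat_lit 16400000000], [], [nat_lit 44228176346, nat_lit 43892461168, nat_lit 51272303615, nat_lit 50761677300, nat_lit 36475916064, nat_lit 37191362864, nat_lit 41845343740, nat_lit 41336513789], nat_lit 1100001, nat_lit 1442500, nat_lit 1271250, nat_lit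 1271250, nat_lit 0, nat_lit 1100001, [nat_lit 1695000, nat_lit 1271250, nat_lit 1271250], [nat_lit 97, nat_lit 40, nat_lit 40, nat_lit 80, nat_lit 76, nat_lit 428, nat_lit 200, nat_lit 9]⟩,
 zbF0, []⟩
noncomputable def p053_l29 : Lf2 := ⟨nat_lit 1, nat_lit 13, [nat_lit 136, nat_lit 5, nat_lit 5, nat_lit 20], false, nat_lit 0, nat_lit 160, nat_lit 160, nat_lit 384, zbN0,
 nat_lit 0, nat_lit 0, nat_lit 0, nat_lit 0, nat_lit 0, nat_lit 0, nat_lit 0, nat_lit 0, nat_lit 0, nat_lit 0, nat_lit 0, nat_lit 0, nat_lit 0, nat_lit 0, nat_lit 0, nat_lit 0, nat_lit 0, nat_lit 0, [],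
 C1.Rw.none, C1.Rw.none,
 zbF0, []⟩
noncomputable def p053_l30 : Lf2 := ⟨nat_lit 0, nat_lit 13, [nat_lit 136, nat_lit 5, nat_lit 5, nat_lit 20], false, nat_lit 0, nat_lit 160, nat_lit 160, nat_lit 384, ⟨nat_lit 497, nat_lit 0, nat_lit 503, nat_lit 6, nat_lit 267, nat_lit 503, nat_lit 56, nat_lit 503, nat_lit 26667, nat_lit 255, nat_lit 357276, nat_lit 200, nat_lit 46383472, nat_lit 0, nat_lit 0, nat_lit 3086277, false, true⟩,
 nat_lit 12621, nat_lit 0, nat_lit 0, nat_lit 0, nat_lit 4748, nat_lit 4207, nat_lit 80, nat_lit 0, nat_lit 0, nat_lit 411, nat_lit 0, nat_lit 0, nat_lit 0, nat_lit 0, nat_lit 0, nat_lit 503000, nat_lit 0, nat_lit 0, [(nat_lit 16, [(nat_lit 6, nat_lit 503)])],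
 ⟨p053_k3, nat_lit 0, nat_lit 0, nat_lit 228, nat_lit 0, nat_lit 61180, [nat_lit 2127313200, nat_lit 1944118801, nat_lit 1009923600], [], [nat_lit 23054295912, nat_lit 24255584944, nat_lit 31337504255, nat_lit 32510182916, nat_lit 20989141697, nat_lit 21719168449, nat_lit 27056852517, nat_lit 28089247473], nat_lit 1271250, nat_lit 1271250, nat_lit 1271250, nat_lit 1271250, nat_lit 0, nat_lit 1100001, [nat_lit 780000, nat_lit 1435000, nat_lit 1271250], [nat_lit 8, nat_lit 40, nat_lit 40, nat_lit 80, nat_lit 1, nat_lit 373, nat_lit 150, nat_lit 10]⟩, ⟨p053_k2, nat_lit 0, nat_lit 0, nat_lit 292, nat_lit 0, nat_lit 157985, [nat_lit 3960096000, nat_lit 5900384000, nat_lit 8150800000], [], [nat_lit 16284691298, nat_lit 16311557522, nat_lit 18821361905, nat_lit 18638607137, nat_lit 19019586623, nat_lit 18897724211, nat_lit 21057734127, nat_lit 20807069355], nat_lit 1100001, nat_lit 1442500, nat_lit 1271250, nat_lit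 1271250, nat_lit 1271250, nat_lit 1271250, [nat_lit 1695000, nat_lit 1271250, nat_lit 1271250], [nat_lit 97, nat_lit 40, nat_lit 40, nat_lit 80, nat_lit 76, nat_lit 483, nat_lit 250, nat_lit 10]⟩,
 ⟨nat_lit 4472, nat_lit 5000, ⟨.ofNat (nat_lit 528570), .ofNat (nat_lit 771425), .ofNat (nat_lit 571423), .ofNat (nat_lit 814263), .ofNat (nat_lit 524844), .ofNat (nat_lit 755968), .ofNat (nat_lit 567973), .ofNat (nat_lit 799081)⟩, ⟨.negSucc (nat_lit 28572), .ofNat (nat_lit 257141), .ofNat (nat_lit 0), .ofNat (nat_lit 299999), .negSucc (nat_lit 12423), .ofNat (nat_lit 259489), .ofNat (nat_lit 0), .ofNat (nat_lit 302621)⟩⟩, [⟨nat_lit 19, nat_lit 100, nat_lit 63, nat_lit 72, nat_lit 135799594⟩, ⟨nat_lit 22, nat_lit 90, nat_lit 100, nat_lit 86, nat_lit 90371877⟩]⟩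
noncomputable def p053_l31 : Lf2 := ⟨nat_lit 1, nat_lit 13, [nat_lit 136, nat_lit 5, nat_lit 5, nat_lit 20], false, nat_lit 160, nat_lit 300, nat_lit 0, nat_lit 384, zbN0,
 nat_lit 0, nat_lit 0, nat_lit 0, nat_lit 0, nat_lit 0, nat_lit 0, nat_lit 0, nat_lit 0, nat_lit 0, nat_lit 0, nat_lit 0, nat_lit 0, nat_lit 0, nat_lit 0, nat_lit 0, nat_lit 0, nat_lit 0, nat_lit 0, [],
 C1.Rw.none, C1.Rw.none,
 zbF0, []⟩
noncomputable def p053_l32 : Lf2 := ⟨nat_lit 0, nat_lit 13, [nat_lit 136, nat_lit 5, nat_lit 5, nat_lit 20], false, nat_lit 160, nat_lit 280, nat_lit 0, nat_lit 384, ⟨nat_lit 0, nat_lit 1000, nat_lit 0, nat_lit 6, nat_lit 267, nat_lit 1000, nat_lit 154, nat_lit 0, nat_lit 0, nat_lit 0, nat_lit 0, nat_lit 0, nat_lit 40222698, nat_lit 18914680, nat_lit 7862622, nat_lit 4907454, false, true⟩,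
 nat_lit 0, nat_lit 6211, nat_lit 0, nat_lit 0, nat_lit 4299, nat_lit 0, nat_lit 0, nat_lit 0, nat_lit 0, nat_lit 0, nat_lit 0, nat_lit 0, nat_lit 0, nat_lit 0, nat_lit 0, nat_lit 250000, nat_lit 0, nat_lit 0, [(nat_lit 16, [(nat_lit 0, nat_lit 1000)])],
 ⟨p053_k3, nat_lit 0, nat_lit 0, nat_lit 97, nat_lit 0, nat_lit 61180, [nat_lit 2335200000, nat_lit 2745733334, nat_lit 3400666666], [], [nat_lit 20980351810, nat_lit 22028869286, nat_lit 27278477991, nat_lit 28066036595, nat_lit 24491361728, nat_lit 25320606230, nat_lit 29657480322, nat_lit 30299000460], nat_lit 1271250, nat_lit 1271250, nat_lit 1271250, nat_lit 1271250, nat_lit 1100001, nat_lit 2127500, [nat_lit 780000, nat_lit 1435000, nat_lit 1271250], [nat_lit 8, nat_lit 40, nat_lit 40, nat_lit 80, nat_lit 1, nat_lit 401, nat_lit 175, nat_lit 10]⟩, ⟨p053_k2, nat_lit 0, nat_lit 0, nat_lit 475, nat_lit 0, nat_lit 157985, [nat_lit 0, nat_lit 0, nat_lit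 0], [], [nat_lit 0, nat_lit 0, nat_lit 0, nat_lit 0, nat_lit 0, nat_lit 0, nat_lit 0, nat_lit 0], nat_lit 1100001, nat_lit 1442500, nat_lit 1271250, nat_lit 1271250, nat_lit 0, nat_lit 2712000, [nat_lit 1695000, nat_lit 1271250, nat_lit 1271250], [nat_lit 97, nat_lit 40, nat_lit 40, nat_lit 80, nat_lit 76, nat_lit 483, nat_lit 250, nat_lit 10]⟩,
 ⟨nat_lit 4472, nat_lit 5000, ⟨.ofNat (nat_lit 528570), .ofNat (nat_lit 771425), .ofNat (nat_lit 571423), .ofNat (nat_lit 814263), .ofNat (nat_lit 524844), .ofNat (nat_lit 755968), .ofNat (nat_lit 567973), .ofNat (nat_lit 799081)⟩, ⟨.ofNat (nat_lit 257141), .ofNat (nat_lit 471427), .ofNat (nat_lit 299999), .ofNat (nat_lit 514284), .ofNat (nat_lit 259489), .ofNat (nat_lit 463423), .ofNat (nat_lit 302621), .ofNat (nat_lit 506556)⟩⟩, [⟨nat_lit 13, nat_lit 84, nat_lit 63, nat_lit 100, nat_lit 163613657⟩, ⟨nat_lit 4, nat_lit 100, nat_lit 85, nat_lit 73, nat_lit 113215312⟩]⟩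
noncomputable def p053_l33 : Lf2 := ⟨nat_lit 0, nat_lit 13, [nat_lit 136, nat_lit 5, nat_lit 5, nat_lit 20], true, nat_lit 0, nat_lit 300, nat_lit 0, nat_lit 384, ⟨nat_lit 0, nat_lit 1000, nat_lit 0, nat_lit 4, nat_lit 107, nat_lit 1000, nat_lit 106, nat_lit 0, nat_lit 0, nat_lit 0, nat_lit 0, nat_lit 0, nat_lit 0, nat_lit 0, nat_lit 0, nat_lit 5000000, false, false⟩,
 nat_lit 0, nat_lit 14145, nat_lit 0, nat_lit 10908, nat_lit 9001, nat_lit 0, nat_lit 0, nat_lit 0, nat_lit 0, nat_lit 0, nat_lit 0, nat_lit 0, nat_lit 0, nat_lit 0, nat_lit 0, nat_lit 250000, nat_lit 0, nat_lit 0, [(nat_lit 13, [(nat_lit 0, nat_lit 1000)]), (nat_lit 16, [(nat_lit 0, nat_lit 1000)])],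
 ⟨p053_k0, nat_lit 0, nat_lit 0, nat_lit 331, nat_lit 0, nat_lit 105230, [nat_lit 2378400000, nat_lit 3514857143], [], [nat_lit 48308715072, nat_lit 38657518836, nat_lit 24230258406, nat_lit 26771152942, nat_lit 29579486068, nat_lit 34112815711, nat_lit 40963788265, nat_lit 33353775802], nat_lit 1271250, nat_lit 1271250, nat_lit 21650, nat_lit 1100001, nat_lit 0, nat_lit 2118750, [nat_lit 780000, nat_lit 2090000], [nat_lit 82, nat_lit 40, nat_lit 40, nat_lit 80, nat_lit 63, nat_lit 345, nat_lit 125, nat_lit 10]⟩, C1.Rw.none,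
 ⟨nat_lit 4472, nat_lit 5478, ⟨.ofNat (nat_lit 90113), .ofNat (nat_lit 382351), .ofNat (nat_lit 132827), .ofNat (nat_lit 425065), .ofNat (nat_lit 123773), .ofNat (nat_lit 388887), .ofNat (nat_lit 166906), .ofNat (nat_lit 432020)⟩, ⟨.negSucc (nat_lit 45522), .ofNat (nat_lit 516475), .negSucc (nat_lit 2834), .ofNat (nat_lit 559189), .negSucc (nat_lit 12423), .ofNat (nat_lit 497412), .ofNat (nat_lit 0), .ofNat (nat_lit 540545)⟩⟩, []⟩
noncomputable def p053_l34 : Lf2 := ⟨nat_lit 0, nat_lit 13, [nat_lit 136, nat_lit 5, nat_lit 5, nat_lit 20], true, nat_lit 0, nat_lit 300, nat_lit 0, nat_lit 384, ⟨nat_lit 0, nat_lit 1000, nat_lit 0, nat_lit 4, nat_lit 243, nat_lit 1000, nat_lit 106, nat_lit 0, nat_lit 0, nat_lit 0, nat_lit 0, nat_lit 0, nat_lit 0, nat_lit 0, nat_lit 0, nat_lit 5000000, false, true⟩,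
 nat_lit 0, nat_lit 6516, nat_lit 0, nat_lit 0, nat_lit 4146, nat_lit 0, nat_lit 0, nat_lit 0, nat_lit 0, nat_lit 0, nat_lit 0, nat_lit 0, nat_lit 0, nat_lit 0, nat_lit 0, nat_lit 596200, nat_lit 0, nat_lit 0, [(nat_lit 13, [(nat_lit 1, nat_lit 673), (nat_lit 2, nat_lit 327)]), (nat_lit 16, [(nat_lit 1, nat_lit 673), (nat_lit 2, nat_lit 327)])],
 ⟨p053_k1, nat_lit 0, nat_lit 0, nat_lit 258, nat_lit 0, nat_lit 105230, [nat_lit 2154746267, nat_lit 2478098534, nat_lit 1465443866], [], [nat_lit 26566401945, nat_lit 24830410891, nat_lit 30580915996, nat_lit 31934606506, nat_lit 31138764088, nat_lit 27407836732, nat_lit 30372579863, nat_lit 31208065022], nat_lit 1271250, nat_lit 1271250, nat_lit 1271250, nat_lit 1271250, nat_lit 0, nat_lit 2118750, [nat_lit 780000, nat_lit 1435000, nat_lit 1271250], [nat_lit 8, nat_lit 40, nat_lit 40, nat_lit 80, nat_lit 1, nat_lit 401, nat_lit 175, nat_lit 11]⟩, C1.Rw.none,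
 ⟨nat_lit 4472, nat_lit 5478, ⟨.ofNat (nat_lit 382351), .ofNat (nat_lit 801872), .ofNat (nat_lit 425065), .ofNat (nat_lit 844520), .ofNat (nat_lit 388887), .ofNat (nat_lit 769461), .ofNat (nat_lit 432020), .ofNat (nat_lit 812527)⟩, ⟨.negSucc (nat_lit 45522), .ofNat (nat_lit 516475), .negSucc (nat_lit 2834), .ofNat (nat_lit 559189), .negSucc (nat_lit 12423), .ofNat (nat_lit 497412), .ofNat (nat_lit 0), .ofNat (nat_lit 540545)⟩⟩, [⟨nat_lit 13, nat_lit 87, nat_lit 59, nat_lit 100, nat_lit 93016656⟩, ⟨nat_lit 4, nat_lit 100, nat_lit 90, nat_lit 74, nat_lit 90517507⟩]⟩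
noncomputable def p053_l35 : Lf2 := ⟨nat_lit 0, nat_lit 13, [nat_lit 136, nat_lit 5, nat_lit 5, nat_lit 20], true, nat_lit 0, nat_lit 300, nat_lit 0, nat_lit 384, ⟨nat_lit 0, nat_lit 1000, nat_lit 0, nat_lit 4, nat_lit 107, nat_lit 1000, nat_lit 106, nat_lit 0, nat_lit 0, nat_lit 0, nat_lit 0, nat_lit 0, nat_lit 0, nat_lit 0, nat_lit 0, nat_lit 5000000, false, false⟩,
 nat_lit 0, nat_lit 14145, nat_lit 0, nat_lit 10908, nat_lit 9001, nat_lit 0, nat_lit 0, nat_lit 0, nat_lit 0, nat_lit 0, nat_lit 0, nat_lit 0, nat_lit 0, nat_lit 0, nat_lit 0, nat_lit 250000, nat_lit 0, nat_lit 0, [(nat_lit 13, [(nat_lit 0, nat_lit 1000)]), (nat_lit 16, [(nat_lit 0, nat_lit 1000)])],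
 ⟨p053_k0, nat_lit 0, nat_lit 0, nat_lit 331, nat_lit 0, nat_lit 105230, [nat_lit 2378400000, nat_lit 3514857143], [], [nat_lit 48308715072, nat_lit 38657518836, nat_lit 24230258406, nat_lit 26771152942, nat_lit 29579486068, nat_lit 34112815711, nat_lit 40963788265, nat_lit 33353775802], nat_lit 1271250, nat_lit 1271250, nat_lit 21650, nat_lit 1100001, nat_lit 0, nat_lit 2118750, [nat_lit 780000, nat_lit 2090000], [nat_lit 82, nat_lit 40, nat_lit 40, nat_lit 80, nat_lit 63, nat_lit 345, nat_lit 125, nat_lit 10]⟩, C1.Rw.none,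
 ⟨nat_lit 4472, nat_lit 5478, ⟨.ofNat (nat_lit 90113), .ofNat (nat_lit 382351), .ofNat (nat_lit 132827), .ofNat (nat_lit 425065), .ofNat (nat_lit 123773), .ofNat (nat_lit 388887), .ofNat (nat_lit 166906), .ofNat (nat_lit 432020)⟩, ⟨.negSucc (nat_lit 45522), .ofNat (nat_lit 516475), .negSucc (nat_lit 2834), .ofNat (nat_lit 559189), .negSucc (nat_lit 12423), .ofNat (nat_lit 497412), .ofNat (nat_lit 0), .ofNat (nat_lit 540545)⟩⟩, []⟩
noncomputable def p053_l36 : Lf2 := ⟨nat_lit 0, nat_lit 13, [nat_lit 136, nat_lit 5, nat_lit 5, nat_lit 20], true, nat_lit 0, nat_lit 300, nat_lit 0, nat_lit 384, ⟨nat_lit 0, nat_lit 1000, nat_lit 0, nat_lit 4, nat_lit 243, nat_lit 1000, nat_lit 106, nat_lit 0, nat_lit 0, nat_lit 0, nat_lit 0, nat_lit 0, nat_lit 0, nat_lit 0, nat_lit 0, nat_lit 5000000, false, true⟩,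
 nat_lit 0, nat_lit 6516, nat_lit 0, nat_lit 0, nat_lit 4146, nat_lit 0, nat_lit 0, nat_lit 0, nat_lit 0, nat_lit 0, nat_lit 0, nat_lit 0, nat_lit 0, nat_lit 0, nat_lit 0, nat_lit 596200, nat_lit 0, nat_lit 0, [(nat_lit 13, [(nat_lit 1, nat_lit 673), (nat_lit 2, nat_lit 327)]), (nat_lit 16, [(nat_lit 1, nat_lit 673), (nat_lit 2, nat_lit 327)])],
 ⟨p053_k1, nat_lit 0, nat_lit 0, nat_lit 258, nat_lit 0, nat_lit 105230, [nat_lit 2154746267, nat_lit 2478098534, nat_lit 1465443866], [], [nat_lit 26566401945, nat_lit 24830410891, nat_lit 30580915996, nat_lit 31934606506, nat_lit 31138764088, nat_lit 27407836732, nat_lit 30372579863, nat_lit 31208065022], nat_lit 1271250, nat_lit 1271250, nat_lit 1271250, nat_lit 1271250, nat_lit 0, nat_lit 2118750, [nat_lit 780000, nat_lit 1435000, nat_lit 1271250], [nat_lit 8, nat_lit 40, nat_lit 40, nat_lit 80, nat_lit 1, nat_lit 401, nat_lit 175, nat_lit 11]⟩, C1.Rw.none,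
 ⟨nat_lit 4472, nat_lit 5478, ⟨.ofNat (nat_lit 382351), .ofNat (nat_lit 801872), .ofNat (nat_lit 425065), .ofNat (nat_lit 844520), .ofNat (nat_lit 388887), .ofNat (nat_lit 769461), .ofNat (nat_lit 432020), .ofNat (nat_lit 812527)⟩, ⟨.negSucc (nat_lit 45522), .ofNat (nat_lit 516475), .negSucc (nat_lit 2834), .ofNat (nat_lit 559189), .negSucc (nat_lit 12423), .ofNat (nat_lit 497412), .ofNat (nat_lit 0), .ofNat (nat_lit 540545)⟩⟩, [⟨nat_lit 13, nat_lit 87, nat_lit 59, nat_lit 100, nat_lit 93016656⟩, ⟨nat_lit 4, nat_lit 100, nat_lit 90, nat_lit 74, nat_lit 90517507⟩]⟩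
noncomputable def b_V_700_400_10_7 : St := ⟨true, nat_lit 1, nat_lit 2, nat_lit 0, nat_lit 80, nat_lit 280, nat_lit 320, nat_lit 160, nat_lit 200, nat_lit 4, nat_lit 384, nat_lit 40, nat_lit 80, nat_lit 0, nat_lit 300, nat_lit 0, nat_lit 384, nat_lit 40, nat_lit 52, nat_lit 0, nat_lit 0, nat_lit 0, nat_lit 0⟩
theorem d_V_700_400_10_7 (h : EB TB.env) : Dead b_V_700_400_10_7 := chkB_sound0 h (T :=
(.gv
(.st (nat_lit 1)
(.spl (nat_lit 2) (nat_lit 160)
(.spl (nat_lit 0) (nat_lit 300)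
(.leaf p053_l16)
(.trZ (nat_lit 0) (nat_lit 100) (nat_lit 88) (nat_lit 32) (nat_lit 8) (.trX (nat_lit 16) (nat_lit 94) (nat_lit 100) (nat_lit 87) (nat_lit 280) (.leaf p053_l17))))
(.spl (nat_lit 2) (nat_lit 240)
(.spl (nat_lit 0) (nat_lit 300)
(.leaf p053_l18)
(.trX (nat_lit 16) (nat_lit 94) (nat_lit 100) (nat_lit 87) (nat_lit 280) (.leaf p053_l19)))
(.spl (nat_lit 4) (nat_lit 160)
(.spl (nat_lit 0) (nat_lit 300)
(.leaf p053_l20)
(.trX (nat_lit 13) (nat_lit 87) (nat_lit 50) (nat_lit 100) (nat_lit 376) (.leaf p053_l21)))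
(.spl (nat_lit 1) (nat_lit 180)
(.trX (nat_lit 13) (nat_lit 92) (nat_lit 49) (nat_lit 100) (nat_lit 376) (.leaf p053_l22))
(.trX (nat_lit 19) (nat_lit 100) (nat_lit 52) (nat_lit 80) (nat_lit 372) (.spl (nat_lit 0) (nat_lit 300)
(.leaf p053_l23)
(.trX (nat_lit 13) (nat_lit 87) (nat_lit 50) (nat_lit 100) (nat_lit 376) (.trX (nat_lit 16) (nat_lit 94) (nat_lit 100) (nat_lit 87) (nat_lit 280) (.leaf p053_l24)))))))))
(.spl (nat_lit 2) (nat_lit 160)
(.spl (nat_lit 0) (nat_lit 300)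
(.leaf p053_l25)
(.trZ (nat_lit 0) (nat_lit 100) (nat_lit 88) (nat_lit 32) (nat_lit 8) (.trX (nat_lit 16) (nat_lit 94) (nat_lit 100) (nat_lit 87) (nat_lit 280) (.leaf p053_l26))))
(.spl (nat_lit 2) (nat_lit 240)
(.leaf p053_l27)
(.spl (nat_lit 4) (nat_lit 160)
(.spl (nat_lit 5) (nat_lit 160)
(.leaf p053_l28)
(.spl (nat_lit 0) (nat_lit 300)
(.leaf p053_l29)
(.trX (nat_lit 13) (nat_lit 87) (nat_lit 50) (nat_lit 100) (nat_lit 376) (.leaf p053_l30))))
(.spl (nat_lit 0) (nat_lit 300)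
(.leaf p053_l31)
(.trX (nat_lit 13) (nat_lit 87) (nat_lit 50) (nat_lit 100) (nat_lit 376) (.trX (nat_lit 16) (nat_lit 94) (nat_lit 100) (nat_lit 87) (nat_lit 280) (.leaf p053_l32))))))))
(.st (nat_lit 1)
(.spl (nat_lit 2) (nat_lit 160)
(.leaf p053_l33)
(.leaf p053_l34))
(.spl (nat_lit 2) (nat_lit 160)
(.leaf p053_l35)
(.leaf p053_l36))))) (by decide +kernel)
noncomputable def p053_l37 : Lf2 := ⟨nat_lit 0, nat_lit 7, [nat_lit 80, nat_lit 5, nat_lit 5, nat_lit 20], true, nat_lit 0, nat_lit 160, nat_lit 0, nat_lit 396, ⟨nat_lit 0, nat_lit 0, nat_lit 1000, nat_lit 4, nat_lit 107, nat_lit 468, nat_lit 64, nat_lit 1000, nat_lit 38400, nat_lit 263, nat_lit 106667, nat_lit 295, nat_lit 62518302, nat_lit 0, nat_lit 0, nat_lit 1227603, false, false⟩,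
 nat_lit 0, nat_lit 0, nat_lit 0, nat_lit 4503, nat_lit 2976, nat_lit 0, nat_lit 0, nat_lit 0, nat_lit 0, nat_lit 0, nat_lit 0, nat_lit 0, nat_lit 0, nat_lit 0, nat_lit 91, nat_lit 524200, nat_lit 0, nat_lit 0, [(nat_lit 12, [(nat_lit 5, nat_lit 793), (nat_lit 6, nat_lit 207)]), (nat_lit 15, [(nat_lit 5, nat_lit 793), (nat_lit 6, nat_lit 207)])],
 ⟨p053_k6, nat_lit 0, nat_lit 0, nat_lit 252, nat_lit 0, nat_lit 0, [nat_lit 2539431601, nat_lit 344110200], [], [nat_lit 16299656398, nat_lit 18555459620, nat_lit 16804729626, nat_lit 18842224339, nat_lit 16745855230, nat_lit 18781606183, nat_lit 17495729235, nat_lit 19589255635], nat_lit 0, nat_lit 0, nat_lit 0, nat_lit 0, nat_lit 0, nat_lit 0, [], [nat_lit 74, nat_lit 40, nat_lit 40, nat_lit 80, nat_lit 43, nat_lit 317, nat_lit 100, nat_lit 11]⟩, C1.Rw.none,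
 ⟨nat_lit 4472, nat_lit 5478, ⟨.ofNat (nat_lit 90113), .ofNat (nat_lit 382351), .ofNat (nat_lit 132827), .ofNat (nat_lit 425065), .ofNat (nat_lit 123773), .ofNat (nat_lit 388887), .ofNat (nat_lit 166906), .ofNat (nat_lit 432020)⟩, ⟨.negSucc (nat_lit 2834), .ofNat (nat_lit 296923), .ofNat (nat_lit 0), .ofNat (nat_lit 339637), .ofNat (nat_lit 0), .ofNat (nat_lit 302621), .ofNat (nat_lit 0), .ofNat (nat_lit 345754)⟩⟩, [⟨nat_lit 0, nat_lit 100, nat_lit 80, nat_lit 60, nat_lit 75528671⟩]⟩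
noncomputable def p053_l38 : Lf2 := ⟨nat_lit 0, nat_lit 7, [nat_lit 80, nat_lit 5, nat_lit 5, nat_lit 20], true, nat_lit 160, nat_lit 336, nat_lit 0, nat_lit 396, ⟨nat_lit 0, nat_lit 0, nat_lit 1000, nat_lit 4, nat_lit 105, nat_lit 1000, nat_lit 192, nat_lit 1000, nat_lit 67422, nat_lit 200, nat_lit 104017, nat_lit 294, nat_lit 49702931, nat_lit 0, nat_lit 0, nat_lit 3852014, false, false⟩,
 nat_lit 0, nat_lit 0, nat_lit 0, nat_lit 15479, nat_lit 2689, nat_lit 0, nat_lit 0, nat_lit 0, nat_lit 0, nat_lit 0, nat_lit 0, nat_lit 0, nat_lit 0, nat_lit 0, nat_lit 162, nat_lit 1000000, nat_lit 0, nat_lit 0, [(nat_lit 12, [(nat_lit 6, nat_lit 1000)])],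
 ⟨p053_k7, nat_lit 0, nat_lit 0, nat_lit 158, nat_lit 0, nat_lit 0, [nat_lit 2853600000, nat_lit 3424400001, nat_lit 150266667], [], [nat_lit 15110490522, nat_lit 16354631951, nat_lit 16268086221, nat_lit 17329387401, nat_lit 22717644039, nat_lit 23587544472, nat_lit 22877106080, nat_lit 23636390103], nat_lit 0, nat_lit 0, nat_lit 0, nat_lit 0, nat_lit 0, nat_lit 0, [], [nat_lit 36, nat_lit 40, nat_lit 40, nat_lit 80, nat_lit 7, nat_lit 345, nat_lit 125, nat_lit 11]⟩, C1.Rw.none,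
 ⟨nat_lit 5000, nat_lit 5478, ⟨.ofNat (nat_lit 90113), .ofNat (nat_lit 382351), .ofNat (nat_lit 132827), .ofNat (nat_lit 425065), .ofNat (nat_lit 107141), .ofNat (nat_lit 385713), .ofNat (nat_lit 149999), .ofNat (nat_lit 428570)⟩, ⟨.ofNat (nat_lit 296923), .ofNat (nat_lit 626629), .ofNat (nat_lit 339637), .ofNat (nat_lit 669336), .ofNat (nat_lit 299999), .ofNat (nat_lit 614284), .ofNat (nat_lit 342856), .ofNat (nat_lit 657134)⟩⟩, [⟨nat_lit 0, nat_lit 100, nat_lit 87, nat_lit 50, nat_lit 54993681⟩, ⟨nat_lit 4, nat_lit 94, nat_lit 100, nat_lit 97, nat_lit 225588774⟩]⟩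
noncomputable def p053_l39 : Lf2 := ⟨nat_lit 0, nat_lit 7, [nat_lit 80, nat_lit 5, nat_lit 5, nat_lit 20], true, nat_lit 160, nat_lit 320, nat_lit 0, nat_lit 396, ⟨nat_lit 0, nat_lit 560, nat_lit 440, nat_lit 4, nat_lit 111, nat_lit 1000, nat_lit 185, nat_lit 440, nat_lit 4748, nat_lit 203, nat_lit 114817, nat_lit 298, nat_lit 50035175, nat_lit 5263101, nat_lit 11701724, nat_lit 3848248, false, false⟩,
 nat_lit 0, nat_lit 0, nat_lit 0, nat_lit 6435, nat_lit 3239, nat_lit 0, nat_lit 410, nat_lit 0, nat_lit 0, nat_lit 0, nat_lit 0, nat_lit 0, nat_lit 0, nat_lit 0, nat_lit 0, nat_lit 400000, nat_lit 0, nat_lit 0, [(nat_lit 15, [(nat_lit 1, nat_lit 560), (nat_lit 5, nat_lit 440)])],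
 ⟨p053_k8, nat_lit 0, nat_lit 0, nat_lit 148, nat_lit 0, nat_lit 0, [nat_lit 1761744000, nat_lit 437328000], [], [nat_lit 17756036928, nat_lit 18919137210, nat_lit 17998313502, nat_lit 18993725342, nat_lit 23561630573, nat_lit 24578171336, nat_lit 23319097858, nat_lit 24198634580], nat_lit 0, nat_lit 0, nat_lit 0, nat_lit 0, nat_lit 0, nat_lit 0, [], [nat_lit 74, nat_lit 40, nat_lit 40, nat_lit 80, nat_lit 43, nat_lit 345, nat_lit 125, nat_lit 11]⟩, C1.Rw.none,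
 ⟨nat_lit 4472, nat_lit 5000, ⟨.ofNat (nat_lit 114284), .ofNat (nat_lit 385713), .ofNat (nat_lit 157141), .ofNat (nat_lit 428570), .ofNat (nat_lit 130570), .ofNat (nat_lit 388887), .ofNat (nat_lit 173703), .ofNat (nat_lit 432020)⟩, ⟨.ofNat (nat_lit 299999), .ofNat (nat_lit 585713), .ofNat (nat_lit 342856), .ofNat (nat_lit 628570), .ofNat (nat_lit 302621), .ofNat (nat_lit 574534), .ofNat (nat_lit 345754), .ofNat (nat_lit 617667)⟩⟩, [⟨nat_lit 0, nat_lit 100, nat_lit 80, nat_lit 60, nat_lit 99519120⟩, ⟨nat_lit 16, nat_lit 94, nat_lit 88, nat_lit 100, nat_lit 161110567⟩]⟩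
noncomputable def p053_l40 : Lf2 := ⟨nat_lit 0, nat_lit 7, [nat_lit 80, nat_lit 5, nat_lit 5, nat_lit 20], false, nat_lit 0, nat_lit 160, nat_lit 0, nat_lit 396, ⟨nat_lit 468, nat_lit 0, nat_lit 532, nat_lit 4, nat_lit 243, nat_lit 532, nat_lit 64, nat_lit 532, nat_lit 38400, nat_lit 263, nat_lit 417790, nat_lit 200, nat_lit 48956722, nat_lit 0, nat_lit 0, nat_lit 2912819, false, true⟩,
 nat_lit 0, nat_lit 0, nat_lit 0, nat_lit 11611, nat_lit 5133, nat_lit 4301, nat_lit 26, nat_lit 0, nat_lit 0, nat_lit 993, nat_lit 0, nat_lit 0, nat_lit 0, nat_lit 0, nat_lit 0, nat_lit 532000, nat_lit 0, nat_lit 0, [(nat_lit 12, [(nat_lit 6, nat_lit 532)]), (nat_lit 15, [(nat_lit 6, nat_lit 532)])],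
 ⟨p053_k7, nat_lit 0, nat_lit 0, nat_lit 183, nat_lit 0, nat_lit 0, [nat_lit 2057336000, nat_lit 2636820801, nat_lit 1704045867], [], [nat_lit 18499939128, nat_lit 21243934012, nat_lit 31858996527, nat_lit 34207160009, nat_lit 17208601180, nat_lit 19255304076, nat_lit 27043649471, nat_lit 29112675392], nat_lit 0, nat_lit 0, nat_lit 0, nat_lit 0, nat_lit 0, nat_lit 0, [], [nat_lit 36, nat_lit 40, nat_lit 40, nat_lit 80, nat_lit 7, nat_lit 373, nat_lit 150, nat_lit 12]⟩, ⟨p053_k9, nat_lit 0, nat_lit 0, nat_lit 306, nat_lit 0, nat_lit 0, [nat_lit 3729024000, nat_lit 4606056000, nat_lit 6579144000], [], [nat_lit 14744135713, nat_lit 15018290949, nat_lit 20067853797, nat_lit 19965731946, nat_lit 16037091393, nat_lit 15985793091, nat_lit 18862109199, nat_lit 18589369897], nat_lit 0, nat_lit 0, nat_lit 0, nat_lit 0, nat_lit 0, nat_lit 0, [], [nat_lit 92, nat_lit 40, nat_lit 40, nat_lit 80, nat_lit 32, nat_lit 483,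 nat_lit 250, nat_lit 11]⟩,
 ⟨nat_lit 4472, nat_lit 5478, ⟨.ofNat (nat_lit 382351), .ofNat (nat_lit 801872), .ofNat (nat_lit 425065), .ofNat (nat_lit 844520), .ofNat (nat_lit 388887), .ofNat (nat_lit 769461), .ofNat (nat_lit 432020), .ofNat (nat_lit 812527)⟩, ⟨.negSucc (nat_lit 2834), .ofNat (nat_lit 296923), .ofNat (nat_lit 0), .ofNat (nat_lit 339637), .ofNat (nat_lit 0), .ofNat (nat_lit 302621), .ofNat (nat_lit 0), .ofNat (nat_lit 345754)⟩⟩, [⟨nat_lit 22, nat_lit 100, nat_lit 91, nat_lit 86, nat_lit 90816275⟩]⟩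
noncomputable def p053_l41 : Lf2 := ⟨nat_lit 0, nat_lit 7, [nat_lit 80, nat_lit 5, nat_lit 5, nat_lit 20], false, nat_lit 160, nat_lit 336, nat_lit 0, nat_lit 396, ⟨nat_lit 287, nat_lit 713, nat_lit 0, nat_lit 4, nat_lit 244, nat_lit 713, nat_lit 192, nat_lit 0, nat_lit 0, nat_lit 0, nat_lit 0, nat_lit 0, nat_lit 39719552, nat_lit 16212527, nat_lit 11067921, nat_lit 5127409, false, true⟩,
 nat_lit 0, nat_lit 0, nat_lit 0, nat_lit 15180, nat_lit 3564, nat_lit 2633, nat_lit 0, nat_lit 0, nat_lit 0, nat_lit 731, nat_lit 0, nat_lit 0, nat_lit 0, nat_lit 0, nat_lit 0, nat_lit 713000, nat_lit 0, nat_lit 0, [(nat_lit 12, [(nat_lit 2, nat_lit 713)])],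
 ⟨p053_k7, nat_lit 0, nat_lit 0, nat_lit 69, nat_lit 0, nat_lit 0, [nat_lit 2362914480, nat_lit 3315902800, nat_lit 2709627200], [], [nat_lit 14592741312, nat_lit 16010044472, nat_lit 25879119393, nat_lit 26709981647, nat_lit 22944530695, nat_lit 23905104520, nat_lit 30592823487, nat_lit 31179694099], nat_lit 0, nat_lit 0, nat_lit 0, nat_lit 0, nat_lit 0, nat_lit 0, [], [nat_lit 36, nat_lit 40, nat_lit 40, nat_lit 80, nat_lit 7, nat_lit 428, nat_lit 200, nat_lit 13]⟩, ⟨p053_k9, nat_lit 0, nat_lit 0, nat_lit 306, nat_lit 0, nat_lit 0, [nat_lit 2286816000, nat_lit 2824654000, nat_lit 4034646000], [], [nat_lit 8579612655, nat_lit 8747916003, nat_lit 11835500078, nat_lit 11778366969, nat_lit 9841253667, nat_lit 9810241510, nat_lit 11567235891, nat_lit 11400640173], nat_lit 0, nat_lit 0, nat_lit 0, nat_lit 0, nat_lit 0, nat_lit 0, [], [nat_lit 92, nat_lit 40, nat_lit 40, nat_lit 80, nat_lit 32, nat_lit 483, nat_lit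 250, nat_lit 11]⟩,
 ⟨nat_lit 5000, nat_lit 5478, ⟨.ofNat (nat_lit 382351), .ofNat (nat_lit 801938), .ofNat (nat_lit 425065), .ofNat (nat_lit 844633), .ofNat (nat_lit 385713), .ofNat (nat_lit 785675), .ofNat (nat_lit 428570), .ofNat (nat_lit 828512)⟩, ⟨.ofNat (nat_lit 296923), .ofNat (nat_lit 626629), .ofNat (nat_lit 339637), .ofNat (nat_lit 669336), .ofNat (nat_lit 299999), .ofNat (nat_lit 614284), .ofNat (nat_lit 342856), .ofNat (nat_lit 657134)⟩⟩, [⟨nat_lit 16, nat_lit 100, nat_lit 94, nat_lit 97, nat_lit 161768024⟩, ⟨nat_lit 7, nat_lit 41, nat_lit 100, nat_lit 87, nat_lit 61748203⟩]⟩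
noncomputable def p053_l42 : Lf2 := ⟨nat_lit 0, nat_lit 7, [nat_lit 80, nat_lit 5, nat_lit 5, nat_lit 20], true, nat_lit 160, nat_lit 320, nat_lit 0, nat_lit 396, ⟨nat_lit 0, nat_lit 1000, nat_lit 0, nat_lit 4, nat_lit 191, nat_lit 1000, nat_lit 185, nat_lit 0, nat_lit 0, nat_lit 0, nat_lit 0, nat_lit 0, nat_lit 44180943, nat_lit 11721787, nat_lit 11097270, nat_lit 4721458, false, true⟩,
 nat_lit 0, nat_lit 0, nat_lit 0, nat_lit 3582, nat_lit 3672, nat_lit 0, nat_lit 0, nat_lit 0, nat_lit 0, nat_lit 0, nat_lit 0, nat_lit 0, nat_lit 0, nat_lit 0, nat_lit 0, nat_lit 400000, nat_lit 0, nat_lit 0, [(nat_lit 15, [(nat_lit 1, nat_lit 1000)])],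
 ⟨p053_k10, nat_lit 0, nat_lit 0, nat_lit 43, nat_lit 0, nat_lit 0, [nat_lit 2020200000, nat_lit 2336800001, nat_lit 2343200000], [], [nat_lit 15540546416, nat_lit 16978876096, nat_lit 18498281904, nat_lit 19733294720, nat_lit 22558745712, nat_lit 23574437024, nat_lit 24506005360, nat_lit 25389380192], nat_lit 0, nat_lit 0, nat_lit 0, nat_lit 0, nat_lit 0, nat_lit 0, [], [nat_lit 36, nat_lit 40, nat_lit 40, nat_lit 80, nat_lit 7, nat_lit 373, nat_lit 150, nat_lit 11]⟩, C1.Rw.none,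
 ⟨nat_lit 4472, nat_lit 5000, ⟨.ofNat (nat_lit 385713), .ofNat (nat_lit 528570), .ofNat (nat_lit 428570), .ofNat (nat_lit 571423), .ofNat (nat_lit 388887), .ofNat (nat_lit 524844), .ofNat (nat_lit 432020), .ofNat (nat_lit 567973)⟩, ⟨.ofNat (nat_lit 299999), .ofNat (nat_lit 585713), .ofNat (nat_lit 342856), .ofNat (nat_lit 628570), .ofNat (nat_lit 302621), .ofNat (nat_lit 574534), .ofNat (nat_lit 345754), .ofNat (nat_lit 617667)⟩⟩, [⟨nat_lit 16, nat_lit 94, nat_lit 88, nat_lit 100, nat_lit 67205829⟩, ⟨nat_lit 4, nat_lit 100, nat_lit 93, nat_lit 97, nat_lit 91313879⟩]⟩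
noncomputable def p053_l43 : Lf2 := ⟨nat_lit 0, nat_lit 7, [nat_lit 80, nat_lit 5, nat_lit 5, nat_lit 20], false, nat_lit 160, nat_lit 320, nat_lit 0, nat_lit 396, ⟨nat_lit 481, nat_lit 519, nat_lit 0, nat_lit 6, nat_lit 268, nat_lit 519, nat_lit 185, nat_lit 0, nat_lit 0, nat_lit 0, nat_lit 0, nat_lit 0, nat_lit 38395790, nat_lit 18405279, nat_lit 10198931, nat_lit 5176360, false, true⟩,
 nat_lit 0, nat_lit 0, nat_lit 0, nat_lit 17834, nat_lit 3833, nat_lit 4487, nat_lit 0, nat_lit 0, nat_lit 0, nat_lit 1248, nat_lit 0, nat_lit 0, nat_lit 0, nat_lit 0, nat_lit 0, nat_lit 519000, nat_lit 0, nat_lit 0, [(nat_lit 15, [(nat_lit 2, nat_lit 519)])],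
 ⟨p053_k10, nat_lit 0, nat_lit 0, nat_lit 65, nat_lit 0, nat_lit 0, [nat_lit 2607009360, nat_lit 3380742800, nat_lit 3482928800], [], [nat_lit 18926221616, nat_lit 19556167528, nat_lit 26431053258, nat_lit 26867935804, nat_lit 25003561150, nat_lit 25452123749, nat_lit 30428293849, nat_lit 30746369793], nat_lit 0, nat_lit 0, nat_lit 0, nat_lit 0, nat_lit 0, nat_lit 0, [], [nat_lit 36, nat_lit 40, nat_lit 40, nat_lit 80, nat_lit 7, nat_lit 317, nat_lit 100, nat_lit 9]⟩, ⟨p053_k9, nat_lit 0, nat_lit 0, nat_lit 303, nat_lit 0, nat_lit 0, [nat_lit 3832608000, nat_lit 4734002000, nat_lit 6761898000], [], [nat_lit 15106061700, nat_lit 15257919380, nat_lit 19468141538, nat_lit 19382367544, nat_lit 16491314487, nat_lit 16364094291, nat_lit 19163210360, nat_lit 18888955517], nat_lit 0, nat_lit 0, nat_lit 0, nat_lit 0, nat_lit 0, nat_lit 0, [], [nat_lit 92, nat_lit 40, nat_lit 40, nat_lit 80, nat_lit 32, nat_lit 483,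 nat_lit 250, nat_lit 11]⟩,
 ⟨nat_lit 4743, nat_lit 5000, ⟨.ofNat (nat_lit 528570), .ofNat (nat_lit 771425), .ofNat (nat_lit 571426), .ofNat (nat_lit 814277), .ofNat (nat_lit 526722), .ofNat (nat_lit 763700), .ofNat (nat_lit 569697), .ofNat (nat_lit 806671)⟩, ⟨.ofNat (nat_lit 299999), .ofNat (nat_lit 585713), .ofNat (nat_lit 342856), .ofNat (nat_lit 628570), .ofNat (nat_lit 301370), .ofNat (nat_lit 580169), .ofNat (nat_lit 344346), .ofNat (nat_lit 623145)⟩⟩, [⟨nat_lit 13, nat_lit 86, nat_lit 61, nat_lit 100, nat_lit 16989809⟩, ⟨nat_lit 16, nat_lit 94, nat_lit 88, nat_lit 100, nat_lit 222906325⟩, ⟨nat_lit 7, nat_lit 41, nat_lit 100, nat_lit 87, nat_lit 105659911⟩]⟩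
noncomputable def p053_l44 : Lf2 := ⟨nat_lit 0, nat_lit 7, [nat_lit 80, nat_lit 5, nat_lit 5, nat_lit 20], false, nat_lit 160, nat_lit 312, nat_lit 0, nat_lit 396, ⟨nat_lit 353, nat_lit 647, nat_lit 0, nat_lit 6, nat_lit 263, nat_lit 647, nat_lit 182, nat_lit 0, nat_lit 0, nat_lit 0, nat_lit 0, nat_lit 0, nat_lit 38945743, nat_lit 18065591, nat_lit 9988666, nat_lit 5131088, false, true⟩,
 nat_lit 0, nat_lit 0, nat_lit 0, nat_lit 7454, nat_lit 3729, nat_lit 3338, nat_lit 0, nat_lit 0, nat_lit 0, nat_lit 629, nat_lit 0, nat_lit 0, nat_lit 0, nat_lit 0, nat_lit 0, nat_lit 258800, nat_lit 0, nat_lit 0, [(nat_lit 15, [(nat_lit 1, nat_lit 647)])],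
 ⟨p053_k11, nat_lit 0, nat_lit 0, nat_lit 64, nat_lit 0, nat_lit 0, [nat_lit 2465615400, nat_lit 3088616000, nat_lit 3711430800], [], [nat_lit 19509361984, nat_lit 20131272440, nat_lit 26251385105, nat_lit 26695214282, nat_lit 25020271006, nat_lit 25473651220, nat_lit 30002462563, nat_lit 30332734995], nat_lit 0, nat_lit 0, nat_lit 0, nat_lit 0, nat_lit 0, nat_lit 0, [], [nat_lit 59, nat_lit 40, nat_lit 40, nat_lit 80, nat_lit 3, nat_lit 317, nat_lit 100, nat_lit 11]⟩, ⟨p053_k9, nat_lit 0, nat_lit 0, nat_lit 299, nat_lit 0, nat_lit 0, [nat_lit 2812704000, nat_lit 3474226000, nat_lit 4962474000], [], [nat_lit 12151569605, nat_lit 12260226321, nat_lit 15156632842, nat_lit 15107946914, nat_lit 12560612623, nat_lit 12411513211, nat_lit 13901262508, nat_lit 13701702079], nat_lit 0, nat_lit 0, nat_lit 0, nat_lit 0, nat_lit 0, nat_lit 0, [], [nat_lit 92, nat_lit 40, nat_lit 40, nat_lit 80, nat_lit 32, nat_lit 483,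 nat_lit 250, nat_lit 11]⟩,
 ⟨nat_lit 4472, nat_lit 4744, ⟨.ofNat (nat_lit 526722), .ofNat (nat_lit 749761), .ofNat (nat_lit 569698), .ofNat (nat_lit 792736), .ofNat (nat_lit 524844), .ofNat (nat_lit 742374), .ofNat (nat_lit 567976), .ofNat (nat_lit 785505)⟩, ⟨.ofNat (nat_lit 301370), .ofNat (nat_lit 566229), .ofNat (nat_lit 344346), .ofNat (nat_lit 609205), .ofNat (nat_lit 302621), .ofNat (nat_lit 560938), .ofNat (nat_lit 345754), .ofNat (nat_lit 604071)⟩⟩, [⟨nat_lit 13, nat_lit 82, nat_lit 66, nat_lit 100, nat_lit 35461080⟩, ⟨nat_lit 16, nat_lit 91, nat_lit 91, nat_lit 100, nat_lit 203279268⟩, ⟨nat_lit 7, nat_lit 41, nat_lit 100, nat_lit 87, nat_lit 62271654⟩]⟩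
noncomputable def p053_l45 : Lf2 := ⟨nat_lit 0, nat_lit 7, [nat_lit 80, nat_lit 5, nat_lit 5, nat_lit 20], true, nat_lit 0, nat_lit 160, nat_lit 0, nat_lit 396, ⟨nat_lit 0, nat_lit 0, nat_lit 1000, nat_lit 4, nat_lit 107, nat_lit 468, nat_lit 64, nat_lit 1000, nat_lit 38400, nat_lit 263, nat_lit 106667, nat_lit 295, nat_lit 62518302, nat_lit 0, nat_lit 0, nat_lit 1227603, false, false⟩,
 nat_lit 0, nat_lit 0, nat_lit 0, nat_lit 4503, nat_lit 2976, nat_lit 0, nat_lit 0, nat_lit 0, nat_lit 0, nat_lit 0, nat_lit 0, nat_lit 0, nat_lit 0, nat_lit 0, nat_lit 91, nat_lit 524200, nat_lit 0, nat_lit 0, [(nat_lit 12, [(nat_lit 5, nat_lit 793), (nat_lit 6, nat_lit 207)]), (nat_lit 15, [(nat_lit 5, nat_lit 793), (nat_lit 6, nat_lit 207)])],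
 ⟨p053_k6, nat_lit 0, nat_lit 0, nat_lit 252, nat_lit 0, nat_lit 0, [nat_lit 2539431601, nat_lit 344110200], [], [nat_lit 16299656398, nat_lit 18555459620, nat_lit 16804729626, nat_lit 18842224339, nat_lit 16745855230, nat_lit 18781606183, nat_lit 17495729235, nat_lit 19589255635], nat_lit 0, nat_lit 0, nat_lit 0, nat_lit 0, nat_lit 0, nat_lit 0, [], [nat_lit 74, nat_lit 40, nat_lit 40, nat_lit 80, nat_lit 43, nat_lit 317, nat_lit 100, nat_lit 11]⟩, C1.Rw.none,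
 ⟨nat_lit 4472, nat_lit 5478, ⟨.ofNat (nat_lit 90113), .ofNat (nat_lit 382351), .ofNat (nat_lit 132827), .ofNat (nat_lit 425065), .ofNat (nat_lit 123773), .ofNat (nat_lit 388887), .ofNat (nat_lit 166906), .ofNat (nat_lit 432020)⟩, ⟨.negSucc (nat_lit 2834), .ofNat (nat_lit 296923), .ofNat (nat_lit 0), .ofNat (nat_lit 339637), .ofNat (nat_lit 0), .ofNat (nat_lit 302621), .ofNat (nat_lit 0), .ofNat (nat_lit 345754)⟩⟩, [⟨nat_lit 0, nat_lit 100, nat_lit 80, nat_lit 60, nat_lit 75528671⟩]⟩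
noncomputable def p053_l46 : Lf2 := ⟨nat_lit 0, nat_lit 7, [nat_lit 80, nat_lit 5, nat_lit 5, nat_lit 20], true, nat_lit 0, nat_lit 160, nat_lit 0, nat_lit 396, ⟨nat_lit 0, nat_lit 0, nat_lit 1000, nat_lit 4, nat_lit 191, nat_lit 285, nat_lit 64, nat_lit 1000, nat_lit 38400, nat_lit 263, nat_lit 5017, nat_lit 222, nat_lit 54516379, nat_lit 0, nat_lit 0, nat_lit 2404232, false, true⟩,
 nat_lit 0, nat_lit 0, nat_lit 0, nat_lit 3935, nat_lit 3143, nat_lit 0, nat_lit 0, nat_lit 0, nat_lit 0, nat_lit 0, nat_lit 0, nat_lit 0, nat_lit 0, nat_lit 0, nat_lit 80, nat_lit 451600, nat_lit 0, nat_lit 0, [(nat_lit 12, [(nat_lit 5, nat_lit 914), (nat_lit 6, nat_lit 86)]), (nat_lit 15, [(nat_lit 5, nat_lit 914), (nat_lit 6, nat_lit 86)])],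
 ⟨p053_k6, nat_lit 0, nat_lit 0, nat_lit 135, nat_lit 0, nat_lit 0, [nat_lit 2330136801, nat_lit 298079600], [], [nat_lit 15595031073, nat_lit 17901566081, nat_lit 18189657721, nat_lit 20194655134, nat_lit 15916994545, nat_lit 17884670705, nat_lit 18178277029, nat_lit 20238026714], nat_lit 0, nat_lit 0, nat_lit 0, nat_lit 0, nat_lit 0, nat_lit 0, [], [nat_lit 74, nat_lit 40, nat_lit 40, nat_lit 80, nat_lit 43, nat_lit 317, nat_lit 100, nat_lit 10]⟩, C1.Rw.none,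
 ⟨nat_lit 4472, nat_lit 5478, ⟨.ofNat (nat_lit 382351), .ofNat (nat_lit 532217), .ofNat (nat_lit 425065), .ofNat (nat_lit 574895), .ofNat (nat_lit 388887), .ofNat (nat_lit 524844), .ofNat (nat_lit 432020), .ofNat (nat_lit 567940)⟩, ⟨.negSucc (nat_lit 2834), .ofNat (nat_lit 296923), .ofNat (nat_lit 0), .ofNat (nat_lit 339637), .ofNat (nat_lit 0), .ofNat (nat_lit 302621), .ofNat (nat_lit 0), .ofNat (nat_lit 345754)⟩⟩, []⟩
noncomputable def p053_l47 : Lf2 := ⟨nat_lit 0, nat_lit 7, [nat_lit 80, nat_lit 5, nat_lit 5, nat_lit 20], true, nat_lit 0, nat_lit 160, nat_lit 0, nat_lit 384, ⟨nat_lit 0, nat_lit 1000, nat_lit 0, nat_lit 6, nat_lit 250, nat_lit 807, nat_lit 64, nat_lit 0, nat_lit 0, nat_lit 0, nat_lit 0, nat_lit 0, nat_lit 48181930, nat_lit 18818070, nat_lit 0, nat_lit 2968849, false, true⟩,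
 nat_lit 0, nat_lit 0, nat_lit 0, nat_lit 11868, nat_lit 4471, nat_lit 0, nat_lit 0, nat_lit 0, nat_lit 0, nat_lit 0, nat_lit 0, nat_lit 0, nat_lit 0, nat_lit 0, nat_lit 0, nat_lit 1000000, nat_lit 0, nat_lit 0, [(nat_lit 12, [(nat_lit 2, nat_lit 1000)])],
 ⟨p053_k6, nat_lit 0, nat_lit 0, nat_lit 149, nat_lit 0, nat_lit 0, [nat_lit 2957000001, nat_lit 994199999], [], [nat_lit 21055664040, nat_lit 22219322118, nat_lit 25042449504, nat_lit 25994063730, nat_lit 19789530516, nat_lit 20775065226, nat_lit 23179533220, nat_lit 23993646670], nat_lit 0, nat_lit 0, nat_lit 0, nat_lit 0, nat_lit 0, nat_lit 0, [], [nat_lit 74, nat_lit 40, nat_lit 40, nat_lit 80, nat_lit 43, nat_lit 249, nat_lit 40, nat_lit 8]⟩, C1.Rw.none,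
 ⟨nat_lit 5000, nat_lit 5478, ⟨.ofNat (nat_lit 532217), .ofNat (nat_lit 682065), .ofNat (nat_lit 574920), .ofNat (nat_lit 724760), .ofNat (nat_lit 528570), .ofNat (nat_lit 671409), .ofNat (nat_lit 571415), .ofNat (nat_lit 714246)⟩, ⟨.negSucc (nat_lit 2832), .ofNat (nat_lit 296923), .ofNat (nat_lit 0), .ofNat (nat_lit 339637), .ofNat (nat_lit 0), .ofNat (nat_lit 299999), .ofNat (nat_lit 0), .ofNat (nat_lit 342856)⟩⟩, []⟩
noncomputable def p053_l48 : Lf2 := ⟨nat_lit 0, nat_lit 7, [nat_lit 80, nat_lit 5, nat_lit 5, nat_lit 20], true, nat_lit 0, nat_lit 160, nat_lit 0, nat_lit 384, ⟨nat_lit 0, nat_lit 1000, nat_lit 0, nat_lit 6, nat_lit 247, nat_lit 1000, nat_lit 65, nat_lit 0, nat_lit 0, nat_lit 0, nat_lit 0, nat_lit 0, nat_lit 48487325, nat_lit 18512675, nat_lit 0, nat_lit 2947164, false, true⟩,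
 nat_lit 0, nat_lit 0, nat_lit 0, nat_lit 9442, nat_lit 3544, nat_lit 0, nat_lit 861, nat_lit 0, nat_lit 0, nat_lit 0, nat_lit 0, nat_lit 0, nat_lit 0, nat_lit 0, nat_lit 0, nat_lit 400000, nat_lit 0, nat_lit 0, [(nat_lit 15, [(nat_lit 1, nat_lit 1000)])],
 ⟨p053_k8, nat_lit 0, nat_lit 0, nat_lit 154, nat_lit 0, nat_lit 0, [nat_lit 2112600000, nat_lit 2433300000], [], [nat_lit 21178008127, nat_lit 22228926319, nat_lit 24646124095, nat_lit 25518566959, nat_lit 20635214239, nat_lit 21533601679, nat_lit 23623562255, nat_lit 24480123680], nat_lit 0, nat_lit 0, nat_lit 0, nat_lit 0, nat_lit 0, nat_lit 0, [], [nat_lit 74, nat_lit 40, nat_lit 40, nat_lit 80, nat_lit 43, nat_lit 249, nat_lit 40, nat_lit 8]⟩, C1.Rw.none,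
 ⟨nat_lit 4472, nat_lit 5000, ⟨.ofNat (nat_lit 528570), .ofNat (nat_lit 671427), .ofNat (nat_lit 571423), .ofNat (nat_lit 714270), .ofNat (nat_lit 524844), .ofNat (nat_lit 660800), .ofNat (nat_lit 567973), .ofNat (nat_lit 703919)⟩, ⟨.ofNat (nat_lit 0), .ofNat (nat_lit 299999), .ofNat (nat_lit 0), .ofNat (nat_lit 342856), .ofNat (nat_lit 0), .ofNat (nat_lit 302621), .ofNat (nat_lit 0), .ofNat (nat_lit 345754)⟩⟩, []⟩
noncomputable def p053_l49 : Lf2 := ⟨nat_lit 0, nat_lit 7, [nat_lit 80, nat_lit 5, nat_lit 5, nat_lit 20], true, nat_lit 0, nat_lit 160, nat_lit 0, nat_lit 336, ⟨nat_lit 0, nat_lit 1000, nat_lit 0, nat_lit 8, nat_lit 303, nat_lit 1000, nat_lit 64, nat_lit 0, nat_lit 0, nat_lit 0, nat_lit 0, nat_lit 0, nat_lit 42606598, nat_lit 24393402, nat_lit 0, nat_lit 3278649, true, true⟩,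
 nat_lit 0, nat_lit 0, nat_lit 0, nat_lit 11868, nat_lit 3699, nat_lit 0, nat_lit 477, nat_lit 0, nat_lit 0, nat_lit 0, nat_lit 0, nat_lit 0, nat_lit 0, nat_lit 0, nat_lit 0, nat_lit 400000, nat_lit 0, nat_lit 0, [(nat_lit 12, [(nat_lit 1, nat_lit 1000)])],
 ⟨p053_k7, nat_lit 0, nat_lit 0, nat_lit 180, nat_lit 0, nat_lit 0, [nat_lit 2033400000, nat_lit 2574800000, nat_lit 2711866667], [], [nat_lit 24836680176, nat_lit 25759823978, nat_lit 28436472548, nat_lit 29402653163, nat_lit 24302963164, nat_lit 25093159364, nat_lit 27379490602, nat_lit 28046317618], nat_lit 0, nat_lit 0, nat_lit 0, nat_lit 0, nat_lit 0, nat_lit 0, [], [nat_lit 36, nat_lit 40, nat_lit 40, nat_lit 80, nat_lit 7, nat_lit 249, nat_lit 40, nat_lit 7]⟩, C1.Rw.none,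
 ⟨nat_lit 5000, nat_lit 5478, ⟨.ofNat (nat_lit 682065), .ofNat (nat_lit 801938), .ofNat (nat_lit 724760), .ofNat (nat_lit 844633), .ofNat (nat_lit 671409), .ofNat (nat_lit 785675), .ofNat (nat_lit 714246), .ofNat (nat_lit 828512)⟩, ⟨.negSucc (nat_lit 2832), .ofNat (nat_lit 296923), .ofNat (nat_lit 0), .ofNat (nat_lit 339637), .ofNat (nat_lit 0), .ofNat (nat_lit 299999), .ofNat (nat_lit 0), .ofNat (nat_lit 342856)⟩⟩, [⟨nat_lit 13, nat_lit 90, nat_lit 54, nat_lit 100, nat_lit 176356942⟩]⟩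
noncomputable def p053_l50 : Lf2 := ⟨nat_lit 0, nat_lit 7, [nat_lit 80, nat_lit 5, nat_lit 5, nat_lit 20], true, nat_lit 0, nat_lit 160, nat_lit 0, nat_lit 336, ⟨nat_lit 0, nat_lit 1000, nat_lit 0, nat_lit 8, nat_lit 286, nat_lit 1000, nat_lit 65, nat_lit 0, nat_lit 0, nat_lit 0, nat_lit 0, nat_lit 0, nat_lit 44326698, nat_lit 22673302, nat_lit 0, nat_lit 3199866, false, true⟩,
 nat_lit 0, nat_lit 0, nat_lit 0, nat_lit 8857, nat_lit 3282, nat_lit 0, nat_lit 781, nat_lit 0, nat_lit 0, nat_lit 0, nat_lit 0, nat_lit 0, nat_lit 0, nat_lit 0, nat_lit 0, nat_lit 400000, nat_lit 0, nat_lit 0, [(nat_lit 15, [(nat_lit 1, nat_lit 1000)])],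
 ⟨p053_k8, nat_lit 0, nat_lit 0, nat_lit 168, nat_lit 0, nat_lit 0, [nat_lit 2112600000, nat_lit 2433300000], [], [nat_lit 25019619035, nat_lit 25869685527, nat_lit 27167312578, nat_lit 27922748320, nat_lit 24273430515, nat_lit 25010318415, nat_lit 26171906980, nat_lit 26958852155], nat_lit 0, nat_lit 0, nat_lit 0, nat_lit 0, nat_lit 0, nat_lit 0, [], [nat_lit 74, nat_lit 40, nat_lit 40, nat_lit 80, nat_lit 43, nat_lit 249, nat_lit 40, nat_lit 7]⟩, C1.Rw.none,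
 ⟨nat_lit 4472, nat_lit 5000, ⟨.ofNat (nat_lit 671427), .ofNat (nat_lit 749998), .ofNat (nat_lit 692851), .ofNat (nat_lit 771417), .ofNat (nat_lit 660800), .ofNat (nat_lit 735576), .ofNat (nat_lit 682362), .ofNat (nat_lit 757132)⟩, ⟨.ofNat (nat_lit 0), .ofNat (nat_lit 299999), .ofNat (nat_lit 0), .ofNat (nat_lit 342856), .ofNat (nat_lit 0), .ofNat (nat_lit 302621), .ofNat (nat_lit 0), .ofNat (nat_lit 345754)⟩⟩, [⟨nat_lit 13, nat_lit 84, nat_lit 68, nat_lit 100, nat_lit 210626948⟩]⟩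
noncomputable def p053_l51 : Lf2 := ⟨nat_lit 0, nat_lit 7, [nat_lit 80, nat_lit 5, nat_lit 5, nat_lit 20], false, nat_lit 0, nat_lit 160, nat_lit 0, nat_lit 336, ⟨nat_lit 163, nat_lit 837, nat_lit 0, nat_lit 8, nat_lit 299, nat_lit 837, nat_lit 65, nat_lit 0, nat_lit 0, nat_lit 0, nat_lit 0, nat_lit 0, nat_lit 42997861, nat_lit 24002139, nat_lit 0, nat_lit 3261995, true, true⟩,
 nat_lit 0, nat_lit 0, nat_lit 3955, nat_lit 0, nat_lit 4097, nat_lit 1504, nat_lit 243, nat_lit 0, nat_lit 0, nat_lit 508, nat_lit 0, nat_lit 0, nat_lit 0, nat_lit 0, nat_lit 0, nat_lit 334800, nat_lit 0, nat_lit 0, [(nat_lit 15, [(nat_lit 1, nat_lit 837)])],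
 ⟨p053_k12, nat_lit 0, nat_lit 0, nat_lit 189, nat_lit 0, nat_lit 0, [nat_lit 2225873400, nat_lit 2989773401, nat_lit 3241241999], [], [nat_lit 26653425000, nat_lit 27660941560, nat_lit 29995799751, nat_lit 30847761713, nat_lit 25136009074, nat_lit 25903977358, nat_lit 27659494860, nat_lit 28319257808], nat_lit 0, nat_lit 0, nat_lit 0, nat_lit 0, nat_lit 0, nat_lit 0, [], [nat_lit 18, nat_lit 40, nat_lit 40, nat_lit 80, nat_lit 2, nat_lit 249, nat_lit 40, nat_lit 7]⟩, ⟨p053_k13, nat_lit 0, nat_lit 0, nat_lit 653, nat_lit 0, nat_lit 832412, [nat_lit 1298784000, nat_lit 1935136000], [], [nat_lit 6303210200, nat_lit 6278259808, nat_lit 6579177826, nat_lit 6545907456, nat_lit 5495138907, nat_lit 5310624649, nat_lit 5615958211, nat_lit 5580631064], nat_lit 1271250, nat_lit 1271250, nat_lit 1271250, nat_lit 1271250, nat_lit 0, nat_lit 2373000, [nat_lit 1695000, nat_lit 1271250], [nat_lit 143, nat_lit 40, nat_lit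 40, nat_lit 80, nat_lit 14, nat_lit 373, nat_lit 150, nat_lit 9]⟩,
 ⟨nat_lit 4472, nat_lit 5000, ⟨.ofNat (nat_lit 692851), .ofNat (nat_lit 792844), .ofNat (nat_lit 714270), .ofNat (nat_lit 814263), .ofNat (nat_lit 682362), .ofNat (nat_lit 777524), .ofNat (nat_lit 703919), .ofNat (nat_lit 799081)⟩, ⟨.ofNat (nat_lit 0), .ofNat (nat_lit 299999), .ofNat (nat_lit 0), .ofNat (nat_lit 342856), .ofNat (nat_lit 0), .ofNat (nat_lit 302621), .ofNat (nat_lit 0), .ofNat (nat_lit 345754)⟩⟩, [⟨nat_lit 13, nat_lit 80, nat_lit 68, nat_lit 100, nat_lit 115017373⟩, ⟨nat_lit 22, nat_lit 68, nat_lit 100, nat_lit 80, nat_lit 30340229⟩]⟩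
noncomputable def p053_l52 : Lf2 := ⟨nat_lit 0, nat_lit 7, [nat_lit 80, nat_lit 5, nat_lit 5, nat_lit 20], true, nat_lit 160, nat_lit 336, nat_lit 0, nat_lit 396, ⟨nat_lit 0, nat_lit 0, nat_lit 1000, nat_lit 4, nat_lit 105, nat_lit 1000, nat_lit 192, nat_lit 1000, nat_lit 67422, nat_lit 200, nat_lit 104017, nat_lit 294, nat_lit 49702931, nat_lit 0, nat_lit 0, nat_lit 3852014, false, false⟩,
 nat_lit 0, nat_lit 0, nat_lit 0, nat_lit 15479, nat_lit 2689, nat_lit 0, nat_lit 0, nat_lit 0, nat_lit 0, nat_lit 0, nat_lit 0, nat_lit 0, nat_lit 0, nat_lit 0, nat_lit 162, nat_lit 1000000, nat_lit 0, nat_lit 0, [(nat_lit 12, [(nat_lit 6, nat_lit 1000)])],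
 ⟨p053_k7, nat_lit 0, nat_lit 0, nat_lit 158, nat_lit 0, nat_lit 0, [nat_lit 2853600000, nat_lit 3424400001, nat_lit 150266667], [], [nat_lit 15110490522, nat_lit 16354631951, nat_lit 16268086221, nat_lit 17329387401, nat_lit 22717644039, nat_lit 23587544472, nat_lit 22877106080, nat_lit 23636390103], nat_lit 0, nat_lit 0, nat_lit 0, nat_lit 0, nat_lit 0, nat_lit 0, [], [nat_lit 36, nat_lit 40, nat_lit 40, nat_lit 80, nat_lit 7, nat_lit 345, nat_lit 125, nat_lit 11]⟩, C1.Rw.none,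
 ⟨nat_lit 5000, nat_lit 5478, ⟨.ofNat (nat_lit 90113), .ofNat (nat_lit 382351), .ofNat (nat_lit 132827), .ofNat (nat_lit 425065), .ofNat (nat_lit 107141), .ofNat (nat_lit 385713), .ofNat (nat_lit 149999), .ofNat (nat_lit 428570)⟩, ⟨.ofNat (nat_lit 296923), .ofNat (nat_lit 626629), .ofNat (nat_lit 339637), .ofNat (nat_lit 669336), .ofNat (nat_lit 299999), .ofNat (nat_lit 614284), .ofNat (nat_lit 342856), .ofNat (nat_lit 657134)⟩⟩, [⟨nat_lit 0, nat_lit 100, nat_lit 87, nat_lit 50, nat_lit 54993681⟩, ⟨nat_lit 4, nat_lit 94, nat_lit 100, nat_lit 97, nat_lit 225588774⟩]⟩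
noncomputable def p053_l53 : Lf2 := ⟨nat_lit 0, nat_lit 7, [nat_lit 80, nat_lit 5, nat_lit 5, nat_lit 20], true, nat_lit 160, nat_lit 320, nat_lit 0, nat_lit 396, ⟨nat_lit 0, nat_lit 560, nat_lit 440, nat_lit 4, nat_lit 111, nat_lit 1000, nat_lit 185, nat_lit 440, nat_lit 4748, nat_lit 203, nat_lit 114817, nat_lit 298, nat_lit 50035175, nat_lit 5263101, nat_lit 11701724, nat_lit 3848248, false, false⟩,
 nat_lit 0, nat_lit 0, nat_lit 0, nat_lit 6435, nat_lit 3239, nat_lit 0, nat_lit 410, nat_lit 0, nat_lit 0, nat_lit 0, nat_lit 0, nat_lit 0, nat_lit 0, nat_lit 0, nat_lit 0, nat_lit 400000, nat_lit 0, nat_lit 0, [(nat_lit 15, [(nat_lit 1, nat_lit 560), (nat_lit 5, nat_lit 440)])],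
 ⟨p053_k8, nat_lit 0, nat_lit 0, nat_lit 148, nat_lit 0, nat_lit 0, [nat_lit 1761744000, nat_lit 437328000], [], [nat_lit 17756036928, nat_lit 18919137210, nat_lit 17998313502, nat_lit 18993725342, nat_lit 23561630573, nat_lit 24578171336, nat_lit 23319097858, nat_lit 24198634580], nat_lit 0, nat_lit 0, nat_lit 0, nat_lit 0, nat_lit 0, nat_lit 0, [], [nat_lit 74, nat_lit 40, nat_lit 40, nat_lit 80, nat_lit 43, nat_lit 345, nat_lit 125, nat_lit 11]⟩, C1.Rw.none,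
 ⟨nat_lit 4472, nat_lit 5000, ⟨.ofNat (nat_lit 114284), .ofNat (nat_lit 385713), .ofNat (nat_lit 157141), .ofNat (nat_lit 428570), .ofNat (nat_lit 130570), .ofNat (nat_lit 388887), .ofNat (nat_lit 173703), .ofNat (nat_lit 432020)⟩, ⟨.ofNat (nat_lit 299999), .ofNat (nat_lit 585713), .ofNat (nat_lit 342856), .ofNat (nat_lit 628570), .ofNat (nat_lit 302621), .ofNat (nat_lit 574534), .ofNat (nat_lit 345754), .ofNat (nat_lit 617667)⟩⟩, [⟨nat_lit 0, nat_lit 100, nat_lit 80, nat_lit 60, nat_lit 99519120⟩, ⟨nat_lit 16, nat_lit 94, nat_lit 88, nat_lit 100, nat_lit 161110567⟩]⟩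
noncomputable def p053_l54 : Lf2 := ⟨nat_lit 0, nat_lit 2, [nat_lit 10, nat_lit 5, nat_lit 5, nat_lit 20], true, nat_lit 160, nat_lit 336, nat_lit 0, nat_lit 396, ⟨nat_lit 0, nat_lit 1000, nat_lit 0, nat_lit 4, nat_lit 191, nat_lit 1000, nat_lit 192, nat_lit 0, nat_lit 0, nat_lit 0, nat_lit 0, nat_lit 0, nat_lit 43625555, nat_lit 11643874, nat_lit 11730571, nat_lit 4783950, false, true⟩,
 nat_lit 0, nat_lit 0, nat_lit 0, nat_lit 11343, nat_lit 3718, nat_lit 0, nat_lit 0, nat_lit 0, nat_lit 0, nat_lit 0, nat_lit 0, nat_lit 0, nat_lit 0, nat_lit 0, nat_lit 0, nat_lit 400000, nat_lit 0, nat_lit 0, [(nat_lit 12, [(nat_lit 1, nat_lit 1000)])],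
 ⟨p053_k14, nat_lit 0, nat_lit 0, nat_lit 36, nat_lit 0, nat_lit 0, [nat_lit 2068400000, nat_lit 2721200000], [], [nat_lit 14087460584, nat_lit 15534746004, nat_lit 17258969472, nat_lit 18501090576, nat_lit 22568135893, nat_lit 23544402381, nat_lit 24523183157, nat_lit 25372916644], nat_lit 0, nat_lit 0, nat_lit 0, nat_lit 0, nat_lit 0, nat_lit 0, [], [nat_lit 49, nat_lit 40, nat_lit 40, nat_lit 80, nat_lit 16, nat_lit 373, nat_lit 150, nat_lit 13]⟩, C1.Rw.none,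
 ⟨nat_lit 5000, nat_lit 5478, ⟨.ofNat (nat_lit 382351), .ofNat (nat_lit 532217), .ofNat (nat_lit 425065), .ofNat (nat_lit 574920), .ofNat (nat_lit 385713), .ofNat (nat_lit 528570), .ofNat (nat_lit 428570), .ofNat (nat_lit 571415)⟩, ⟨.ofNat (nat_lit 296923), .ofNat (nat_lit 626629), .ofNat (nat_lit 339637), .ofNat (nat_lit 669336), .ofNat (nat_lit 299999), .ofNat (nat_lit 614284), .ofNat (nat_lit 342856), .ofNat (nat_lit 657134)⟩⟩, [⟨nat_lit 4, nat_lit 94, nat_lit 100, nat_lit 97, nat_lit 141640996⟩]⟩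
noncomputable def p053_l55 : Lf2 := ⟨nat_lit 0, nat_lit 2, [nat_lit 10, nat_lit 5, nat_lit 5, nat_lit 20], true, nat_lit 160, nat_lit 336, nat_lit 0, nat_lit 396, ⟨nat_lit 0, nat_lit 1000, nat_lit 0, nat_lit 6, nat_lit 266, nat_lit 1000, nat_lit 192, nat_lit 0, nat_lit 0, nat_lit 0, nat_lit 0, nat_lit 0, nat_lit 38103491, nat_lit 18139979, nat_lit 10756530, nat_lit 5222814, false, true⟩,
 nat_lit 0, nat_lit 0, nat_lit 0, nat_lit 9577, nat_lit 3331, nat_lit 0, nat_lit 0, nat_lit 0, nat_lit 0, nat_lit 0, nat_lit 0, nat_lit 0, nat_lit 0, nat_lit 0, nat_lit 0, nat_lit 400000, nat_lit 0, nat_lit 0, [(nat_lit 12, [(nat_lit 1, nat_lit 1000)])],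
 ⟨p053_k14, nat_lit 0, nat_lit 0, nat_lit 58, nat_lit 0, nat_lit 0, [nat_lit 2068400000, nat_lit 2721200000], [], [nat_lit 17700651024, nat_lit 18882969792, nat_lit 25127920028, nat_lit 25961665481, nat_lit 24730012366, nat_lit 25549559698, nat_lit 29947982118, nat_lit 30541942165], nat_lit 0, nat_lit 0, nat_lit 0, nat_lit 0, nat_lit 0, nat_lit 0, [], [nat_lit 49, nat_lit 40, nat_lit 40, nat_lit 80, nat_lit 16, nat_lit 317, nat_lit 100, nat_lit 11]⟩, C1.Rw.none,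
 ⟨nat_lit 5000, nat_lit 5478, ⟨.ofNat (nat_lit 532217), .ofNat (nat_lit 786954), .ofNat (nat_lit 553572), .ofNat (nat_lit 808302), .ofNat (nat_lit 528570), .ofNat (nat_lit 771391), .ofNat (nat_lit 549996), .ofNat (nat_lit 792810)⟩, ⟨.ofNat (nat_lit 296923), .ofNat (nat_lit 626629), .ofNat (nat_lit 339637), .ofNat (nat_lit 669336), .ofNat (nat_lit 299999), .ofNat (nat_lit 614284), .ofNat (nat_lit 342856), .ofNat (nat_lit 657134)⟩⟩, [⟨nat_lit 13, nat_lit 90, nat_lit 59, nat_lit 100, nat_lit 140243893⟩, ⟨nat_lit 4, nat_lit 94, nat_lit 100, nat_lit 97, nat_lit 86732002⟩]⟩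
noncomputable def p053_l56 : Lf2 := ⟨nat_lit 0, nat_lit 2, [nat_lit 10, nat_lit 5, nat_lit 5, nat_lit 20], true, nat_lit 160, nat_lit 336, nat_lit 0, nat_lit 392, ⟨nat_lit 0, nat_lit 1000, nat_lit 0, nat_lit 6, nat_lit 278, nat_lit 1000, nat_lit 192, nat_lit 0, nat_lit 0, nat_lit 0, nat_lit 0, nat_lit 0, nat_lit 37273168, nat_lit 19137790, nat_lit 10589042, nat_lit 5261998, true, true⟩,
 nat_lit 0, nat_lit 0, nat_lit 0, nat_lit 9281, nat_lit 3304, nat_lit 0, nat_lit 0, nat_lit 0, nat_lit 0, nat_lit 0, nat_lit 0, nat_lit 0, nat_lit 0, nat_lit 0, nat_lit 0, nat_lit 400000, nat_lit 0, nat_lit 0, [(nat_lit 12, [(nat_lit 1, nat_lit 1000)])],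
 ⟨p053_k14, nat_lit 0, nat_lit 0, nat_lit 60, nat_lit 0, nat_lit 0, [nat_lit 2068400000, nat_lit 2721200000], [], [nat_lit 17731466016, nat_lit 18909612528, nat_lit 25623472833, nat_lit 26434751991, nat_lit 24744442311, nat_lit 25561883632, nat_lit 30306997042, nat_lit 30886574280], nat_lit 0, nat_lit 0, nat_lit 0, nat_lit 0, nat_lit 0, nat_lit 0, [], [nat_lit 49, nat_lit 40, nat_lit 40, nat_lit 80, nat_lit 16, nat_lit 317, nat_lit 100, nat_lit 11]⟩, C1.Rw.none,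
 ⟨nat_lit 5000, nat_lit 5478, ⟨.ofNat (nat_lit 553572), .ofNat (nat_lit 823285), .ofNat (nat_lit 574920), .ofNat (nat_lit 844633), .ofNat (nat_lit 549996), .ofNat (nat_lit 807093), .ofNat (nat_lit 571415), .ofNat (nat_lit 828512)⟩, ⟨.ofNat (nat_lit 296923), .ofNat (nat_lit 626629), .ofNat (nat_lit 339637), .ofNat (nat_lit 669336), .ofNat (nat_lit 299999), .ofNat (nat_lit 614284), .ofNat (nat_lit 342856), .ofNat (nat_lit 657134)⟩⟩, [⟨nat_lit 13, nat_lit 89, nat_lit 49, nat_lit 100, nat_lit 138822121⟩, ⟨nat_lit 4, nat_lit 94, nat_lit 100, nat_lit 97, nat_lit 85070097⟩]⟩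
noncomputable def p053_l57 : Lf2 := ⟨nat_lit 1, nat_lit 7, [nat_lit 80, nat_lit 5, nat_lit 5, nat_lit 20], false, nat_lit 160, nat_lit 336, nat_lit 0, nat_lit 396, zbN0,
 nat_lit 0, nat_lit 0, nat_lit 0, nat_lit 0, nat_lit 0, nat_lit 0, nat_lit 0, nat_lit 0, nat_lit 0, nat_lit 0, nat_lit 0, nat_lit 0, nat_lit 0, nat_lit 0, nat_lit 0, nat_lit 0, nat_lit 0, nat_lit 0, [],
 C1.Rw.none, C1.Rw.none,
 zbF0, []⟩
noncomputable def p053_l58 : Lf2 := ⟨nat_lit 0, nat_lit 7, [nat_lit 80, nat_lit 5, nat_lit 5, nat_lit 20], true, nat_lit 160, nat_lit 320, nat_lit 0, nat_lit 396, ⟨nat_lit 0, nat_lit 1000, nat_lit 0, nat_lit 4, nat_lit 191, nat_lit 1000, nat_lit 185, nat_lit 0, nat_lit 0, nat_lit 0, nat_lit 0, nat_lit 0, nat_lit 44180943, nat_lit 11721787, nat_lit 11097270, nat_lit 4721458, false, true⟩,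
 nat_lit 0, nat_lit 0, nat_lit 0, nat_lit 3582, nat_lit 3759, nat_lit 0, nat_lit 0, nat_lit 0, nat_lit 0, nat_lit 0, nat_lit 0, nat_lit 0, nat_lit 0, nat_lit 0, nat_lit 0, nat_lit 400000, nat_lit 0, nat_lit 0, [(nat_lit 15, [(nat_lit 1, nat_lit 1000)])],
 ⟨p053_k8, nat_lit 0, nat_lit 0, nat_lit 36, nat_lit 0, nat_lit 0, [nat_lit 2112600000, nat_lit 2433300000], [], [nat_lit 15530815202, nat_lit 16986082912, nat_lit 18504833088, nat_lit 19753289840, nat_lit 22603247514, nat_lit 23628573728, nat_lit 24550175170, nat_lit 25440980324], nat_lit 0, nat_lit 0, nat_lit 0, nat_lit 0, nat_lit 0, nat_lit 0, [], [nat_lit 74, nat_lit 40, nat_lit 40, nat_lit 80, nat_lit 43, nat_lit 373, nat_lit 150, nat_lit 11]⟩, C1.Rw.none,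
 ⟨nat_lit 4472, nat_lit 5000, ⟨.ofNat (nat_lit 385713), .ofNat (nat_lit 528570), .ofNat (nat_lit 428570), .ofNat (nat_lit 571423), .ofNat (nat_lit 388887), .ofNat (nat_lit 524844), .ofNat (nat_lit 432020), .ofNat (nat_lit 567973)⟩, ⟨.ofNat (nat_lit 299999), .ofNat (nat_lit 585713), .ofNat (nat_lit 342856), .ofNat (nat_lit 628570), .ofNat (nat_lit 302621), .ofNat (nat_lit 574534), .ofNat (nat_lit 345754), .ofNat (nat_lit 617667)⟩⟩, [⟨nat_lit 16, nat_lit 94, nat_lit 88, nat_lit 100, nat_lit 62671671⟩, ⟨nat_lit 4, nat_lit 100, nat_lit 93, nat_lit 97, nat_lit 97340243⟩]⟩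
noncomputable def p053_l59 : Lf2 := ⟨nat_lit 0, nat_lit 7, [nat_lit 80, nat_lit 5, nat_lit 5, nat_lit 20], true, nat_lit 160, nat_lit 320, nat_lit 0, nat_lit 396, ⟨nat_lit 0, nat_lit 1000, nat_lit 0, nat_lit 6, nat_lit 247, nat_lit 1000, nat_lit 185, nat_lit 0, nat_lit 0, nat_lit 0, nat_lit 0, nat_lit 0, nat_lit 39950542, nat_lit 16609471, nat_lit 10439987, nat_lit 5085839, false, true⟩,
 nat_lit 0, nat_lit 0, nat_lit 0, nat_lit 3582, nat_lit 3552, nat_lit 0, nat_lit 0, nat_lit 0, nat_lit 0, nat_lit 0, nat_lit 0, nat_lit 0, nat_lit 0, nat_lit 0, nat_lit 0, nat_lit 400000, nat_lit 0, nat_lit 0, [(nat_lit 15, [(nat_lit 1, nat_lit 1000)])],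
 ⟨p053_k8, nat_lit 0, nat_lit 0, nat_lit 45, nat_lit 0, nat_lit 0, [nat_lit 2112600000, nat_lit 2433300000], [], [nat_lit 18709094064, nat_lit 19925563520, nat_lit 22717212192, nat_lit 23719613984, nat_lit 24664929760, nat_lit 25538055872, nat_lit 27537188432, nat_lit 28267020864], nat_lit 0, nat_lit 0, nat_lit 0, nat_lit 0, nat_lit 0, nat_lit 0, [], [nat_lit 74, nat_lit 40, nat_lit 40, nat_lit 80, nat_lit 43, nat_lit 317, nat_lit 100, nat_lit 9]⟩, C1.Rw.none,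
 ⟨nat_lit 4472, nat_lit 5000, ⟨.ofNat (nat_lit 528570), .ofNat (nat_lit 671427), .ofNat (nat_lit 571423), .ofNat (nat_lit 714270), .ofNat (nat_lit 524844), .ofNat (nat_lit 660800), .ofNat (nat_lit 567973), .ofNat (nat_lit 703919)⟩, ⟨.ofNat (nat_lit 299999), .ofNat (nat_lit 585713), .ofNat (nat_lit 342856), .ofNat (nat_lit 628570), .ofNat (nat_lit 302621), .ofNat (nat_lit 574534), .ofNat (nat_lit 345754), .ofNat (nat_lit 617667)⟩⟩, [⟨nat_lit 4, nat_lit 100, nat_lit 93, nat_lit 97, nat_lit 132146766⟩]⟩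
noncomputable def p053_l60 : Lf2 := ⟨nat_lit 0, nat_lit 7, [nat_lit 80, nat_lit 5, nat_lit 5, nat_lit 20], true, nat_lit 160, nat_lit 320, nat_lit 16, nat_lit 396, ⟨nat_lit 0, nat_lit 1000, nat_lit 0, nat_lit 8, nat_lit 295, nat_lit 1000, nat_lit 185, nat_lit 0, nat_lit 0, nat_lit 0, nat_lit 0, nat_lit 0, nat_lit 36444695, nat_lit 20764827, nat_lit 9790478, nat_lit 5253799, true, true⟩,
 nat_lit 0, nat_lit 0, nat_lit 0, nat_lit 3626, nat_lit 3373, nat_lit 0, nat_lit 0, nat_lit 0, nat_lit 0, nat_lit 0, nat_lit 0, nat_lit 0, nat_lit 0, nat_lit 0, nat_lit 0, nat_lit 400000, nat_lit 0, nat_lit 0, [(nat_lit 15, [(nat_lit 1, nat_lit 1000)])],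
 ⟨p053_k8, nat_lit 0, nat_lit 0, nat_lit 57, nat_lit 0, nat_lit 0, [nat_lit 2112600000, nat_lit 2433300000], [], [nat_lit 22815761358, nat_lit 23798339616, nat_lit 26000074034, nat_lit 26837167743, nat_lit 27598618368, nat_lit 28318280736, nat_lit 29978719033, nat_lit 30598338152], nat_lit 0, nat_lit 0, nat_lit 0, nat_lit 0, nat_lit 0, nat_lit 0, [], [nat_lit 74, nat_lit 40, nat_lit 40, nat_lit 80, nat_lit 43, nat_lit 317, nat_lit 100, nat_lit 9]⟩, C1.Rw.none,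
 ⟨nat_lit 4472, nat_lit 5000, ⟨.ofNat (nat_lit 671427), .ofNat (nat_lit 771425), .ofNat (nat_lit 714270), .ofNat (nat_lit 814263), .ofNat (nat_lit 660800), .ofNat (nat_lit 755968), .ofNat (nat_lit 703919), .ofNat (nat_lit 799081)⟩, ⟨.ofNat (nat_lit 299999), .ofNat (nat_lit 585713), .ofNat (nat_lit 342856), .ofNat (nat_lit 628570), .ofNat (nat_lit 302621), .ofNat (nat_lit 574534), .ofNat (nat_lit 345754), .ofNat (nat_lit 617667)⟩⟩, [⟨nat_lit 13, nat_lit 84, nat_lit 63, nat_lit 100, nat_lit 66577164⟩, ⟨nat_lit 13, nat_lit 87, nat_lit 50, nat_lit 100, nat_lit 125535165⟩, ⟨nat_lit 16, nat_lit 94, nat_lit 88, nat_lit 100, nat_lit 103097573⟩]⟩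
noncomputable def p053_l61 : Lf2 := ⟨nat_lit 0, nat_lit 7, [nat_lit 80, nat_lit 5, nat_lit 5, nat_lit 20], true, nat_lit 0, nat_lit 336, nat_lit 0, nat_lit 396, ⟨nat_lit 0, nat_lit 1000, nat_lit 0, nat_lit 4, nat_lit 187, nat_lit 1000, nat_lit 127, nat_lit 0, nat_lit 0, nat_lit 0, nat_lit 0, nat_lit 0, nat_lit 0, nat_lit 0, nat_lit 0, nat_lit 5000000, false, true⟩,
 nat_lit 0, nat_lit 0, nat_lit 0, nat_lit 5469, nat_lit 4099, nat_lit 0, nat_lit 0, nat_lit 0, nat_lit 0, nat_lit 0, nat_lit 0, nat_lit 0, nat_lit 0, nat_lit 0, nat_lit 0, nat_lit 675400, nat_lit 0, nat_lit 0, [(nat_lit 12, [(nat_lit 1, nat_lit 541), (nat_lit 2, nat_lit 459)]), (nat_lit 15, [(nat_lit 1, nat_lit 541), (nat_lit 2, nat_lit 459)])],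
 ⟨p053_k6, nat_lit 0, nat_lit 0, nat_lit 252, nat_lit 0, nat_lit 0, [nat_lit 2575162200, nat_lit 1980226600], [], [nat_lit 23886972614, nat_lit 26119228758, nat_lit 30658862413, nat_lit 31809447140, nat_lit 28483036508, nat_lit 29800434937, nat_lit 31583511172, nat_lit 32429898475], nat_lit 0, nat_lit 0, nat_lit 0, nat_lit 0, nat_lit 0, nat_lit 0, [], [nat_lit 74, nat_lit 40, nat_lit 40, nat_lit 80, nat_lit 43, nat_lit 428, nat_lit 200, nat_lit 15]⟩, C1.Rw.none,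
 ⟨nat_lit 4472, nat_lit 5478, ⟨.ofNat (nat_lit 90113), .ofNat (nat_lit 801872), .ofNat (nat_lit 132827), .ofNat (nat_lit 844520), .ofNat (nat_lit 123773), .ofNat (nat_lit 769461), .ofNat (nat_lit 166906), .ofNat (nat_lit 812527)⟩, ⟨.negSucc (nat_lit 2834), .ofNat (nat_lit 626629), .ofNat (nat_lit 0), .ofNat (nat_lit 669343), .ofNat (nat_lit 0), .ofNat (nat_lit 601725), .ofNat (nat_lit 0), .ofNat (nat_lit 644858)⟩⟩, [⟨nat_lit 13, nat_lit 87, nat_lit 59, nat_lit 100, nat_lit 102559209⟩, ⟨nat_lit 4, nat_lit 100, nat_lit 100, nat_lit 100, nat_lit 68147117⟩]⟩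
noncomputable def b_V_700_400_20_0 : St := ⟨true, nat_lit 0, nat_lit 2, nat_lit 0, nat_lit 120, nat_lit 280, nat_lit 320, nat_lit 160, nat_lit 200, nat_lit 4, nat_lit 384, nat_lit 80, nat_lit 120, nat_lit 0, nat_lit 336, nat_lit 0, nat_lit 396, nat_lit 0, nat_lit 28, nat_lit 0, nat_lit 0, nat_lit 0, nat_lit 0⟩
theorem d_V_700_400_20_0 (h : EB TB.env) : Dead b_V_700_400_20_0 := chkB_sound0 h (T :=
(.gv
(.st (nat_lit 1)
(.spl (nat_lit 2) (nat_lit 160)
(.spl (nat_lit 4) (nat_lit 160)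
(.leaf p053_l37)
(.spl (nat_lit 0) (nat_lit 300)
(.leaf p053_l38)
(.trZ (nat_lit 0) (nat_lit 100) (nat_lit 88) (nat_lit 32) (nat_lit 8) (.trX (nat_lit 16) (nat_lit 94) (nat_lit 88) (nat_lit 100) (nat_lit 320) (.leaf p053_l39)))))
(.spl (nat_lit 4) (nat_lit 160)
(.leaf p053_l40)
(.spl (nat_lit 0) (nat_lit 300)
(.leaf p053_l41)
(.trX (nat_lit 13) (nat_lit 87) (nat_lit 50) (nat_lit 100) (nat_lit 376) (.trX (nat_lit 16) (nat_lit 94) (nat_lit 88) (nat_lit 100) (nat_lit 320) (.spl (nat_lit 2) (nat_lit 240)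
(.leaf p053_l42)
(.spl (nat_lit 0) (nat_lit 310)
(.leaf p053_l43)
(.trX (nat_lit 13) (nat_lit 84) (nat_lit 55) (nat_lit 100) (nat_lit 368) (.trX (nat_lit 16) (nat_lit 91) (nat_lit 91) (nat_lit 100) (nat_lit 312) (.leaf p053_l44))))))))))
(.spl (nat_lit 4) (nat_lit 160)
(.spl (nat_lit 2) (nat_lit 160)
(.leaf p053_l45)
(.spl (nat_lit 2) (nat_lit 240)
(.leaf p053_l46)
(.trX (nat_lit 22) (nat_lit 100) (nat_lit 40) (nat_lit 100) (nat_lit 384) (.spl (nat_lit 2) (nat_lit 320)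
(.spl (nat_lit 0) (nat_lit 300)
(.leaf p053_l47)
(.leaf p053_l48))
(.trX (nat_lit 22) (nat_lit 82) (nat_lit 76) (nat_lit 100) (nat_lit 336) (.spl (nat_lit 0) (nat_lit 300)
(.leaf p053_l49)
(.trX (nat_lit 13) (nat_lit 87) (nat_lit 50) (nat_lit 100) (nat_lit 376) (.spl (nat_lit 1) (nat_lit 180)
(.trX (nat_lit 13) (nat_lit 87) (nat_lit 59) (nat_lit 100) (nat_lit 364) (.leaf p053_l50))
(.leaf p053_l51)))))))))
(.spl (nat_lit 2) (nat_lit 160)
(.spl (nat_lit 0) (nat_lit 300)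
(.leaf p053_l52)
(.trZ (nat_lit 0) (nat_lit 100) (nat_lit 88) (nat_lit 32) (nat_lit 8) (.trX (nat_lit 16) (nat_lit 94) (nat_lit 88) (nat_lit 100) (nat_lit 320) (.leaf p053_l53))))
(.spl (nat_lit 0) (nat_lit 300)
(.spl (nat_lit 6) (nat_lit 8)
(.spl (nat_lit 2) (nat_lit 240)
(.leaf p053_l54)
(.spl (nat_lit 1) (nat_lit 180)
(.trX (nat_lit 13) (nat_lit 92) (nat_lit 49) (nat_lit 100) (nat_lit 376) (.leaf p053_l55))
(.trX (nat_lit 19) (nat_lit 100) (nat_lit 31) (nat_lit 92) (nat_lit 392) (.leaf p053_l56))))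
(.leaf p053_l57))
(.trX (nat_lit 13) (nat_lit 87) (nat_lit 50) (nat_lit 100) (nat_lit 376) (.trX (nat_lit 16) (nat_lit 94) (nat_lit 88) (nat_lit 100) (nat_lit 320) (.spl (nat_lit 2) (nat_lit 240)
(.leaf p053_l58)
(.spl (nat_lit 2) (nat_lit 320)
(.leaf p053_l59)
(.trZ (nat_lit 9) (nat_lit 100) (nat_lit 82) (nat_lit 44) (nat_lit 16) (.leaf p053_l60))))))))))
(.leaf p053_l61))) (by decide +kernel)
noncomputable def p053_l62 : Lf2 := ⟨nat_lit 0, nat_lit 2, [nat_lit 10, nat_lit 5, nat_lit 5, nat_lit 20], true, nat_lit 0, nat_lit 160, nat_lit 0, nat_lit 396, ⟨nat_lit 0, nat_lit 0, nat_lit 1000, nat_lit 4, nat_lit 90, nat_lit 850, nat_lit 64, nat_lit 1000, nat_lit 38400, nat_lit 263, nat_lit 77067, nat_lit 283, nat_lit 63740585, nat_lit 0, nat_lit 0, nat_lit 972564, false, false⟩,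
 nat_lit 0, nat_lit 4335, nat_lit 0, nat_lit 6196, nat_lit 2758, nat_lit 0, nat_lit 0, nat_lit 0, nat_lit 0, nat_lit 0, nat_lit 0, nat_lit 0, nat_lit 0, nat_lit 0, nat_lit 77, nat_lit 1000000, nat_lit 0, nat_lit 0, [(nat_lit 12, [(nat_lit 6, nat_lit 1000)])],
 ⟨p053_k14, nat_lit 0, nat_lit 0, nat_lit 253, nat_lit 0, nat_lit 76000, [nat_lit 2065200001, nat_lit 412399999], [], [nat_lit 14825599850, nat_lit 16070193953, nat_lit 14963696553, nat_lit 16163304483, nat_lit 15871957800, nat_lit 17066549339, nat_lit 18178014383, nat_lit 17373514067], nat_lit 1271250, nat_lit 1271250, nat_lit 21650, nat_lit 780000, nat_lit 0, nat_lit 1100001, [nat_lit 780000, nat_lit 1435000], [nat_lit 49, nat_lit 40, nat_lit 40, nat_lit 80, nat_lit 16, nat_lit 289, nat_lit 75, nat_lit 12]⟩, C1.Rw.none,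
 ⟨nat_lit 5000, nat_lit 5478, ⟨.ofNat (nat_lit 90113), .ofNat (nat_lit 307418), .ofNat (nat_lit 132827), .ofNat (nat_lit 350132), .ofNat (nat_lit 107141), .ofNat (nat_lit 314284), .ofNat (nat_lit 149999), .ofNat (nat_lit 357141)⟩, ⟨.negSucc (nat_lit 2832), .ofNat (nat_lit 296923), .ofNat (nat_lit 0), .ofNat (nat_lit 339637), .ofNat (nat_lit 0), .ofNat (nat_lit 299999), .ofNat (nat_lit 0), .ofNat (nat_lit 342856)⟩⟩, [⟨nat_lit 0, nat_lit 100, nat_lit 87, nat_lit 50, nat_lit 85592983⟩]⟩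
noncomputable def p053_l63 : Lf2 := ⟨nat_lit 1, nat_lit 2, [nat_lit 10, nat_lit 5, nat_lit 5, nat_lit 20], false, nat_lit 160, nat_lit 336, nat_lit 0, nat_lit 396, zbN0,
 nat_lit 0, nat_lit 0, nat_lit 0, nat_lit 0, nat_lit 0, nat_lit 0, nat_lit 0, nat_lit 0, nat_lit 0, nat_lit 0, nat_lit 0, nat_lit 0, nat_lit 0, nat_lit 0, nat_lit 0, nat_lit 0, nat_lit 0, nat_lit 0, [],
 C1.Rw.none, C1.Rw.none,
 zbF0, []⟩
noncomputable def p053_l64 : Lf2 := ⟨nat_lit 0, nat_lit 2, [nat_lit 10, nat_lit 5, nat_lit 5, nat_lit 20], true, nat_lit 160, nat_lit 328, nat_lit 0, nat_lit 396, ⟨nat_lit 0, nat_lit 556, nat_lit 444, nat_lit 4, nat_lit 92, nat_lit 1000, nat_lit 189, nat_lit 444, nat_lit 25958, nat_lit 200, nat_lit 79350, nat_lit 284, nat_lit 50863838, nat_lit 3968897, nat_lit 12167265, nat_lit 3635437, false, false⟩,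
 nat_lit 0, nat_lit 4763, nat_lit 0, nat_lit 7763, nat_lit 3163, nat_lit 0, nat_lit 1522, nat_lit 0, nat_lit 0, nat_lit 0, nat_lit 0, nat_lit 0, nat_lit 0, nat_lit 0, nat_lit 0, nat_lit 666400, nat_lit 0, nat_lit 0, [(nat_lit 12, [(nat_lit 1, nat_lit 556), (nat_lit 6, nat_lit 444)])],
 ⟨p053_k15, nat_lit 0, nat_lit 0, nat_lit 168, nat_lit 0, nat_lit 71665, [nat_lit 1656723201, nat_lit 1012332799], [], [nat_lit 15927011099, nat_lit 16550883195, nat_lit 15647728161, nat_lit 16209208562, nat_lit 23463289814, nat_lit 23957296760, nat_lit 22653631727, nat_lit 23103934237], nat_lit 1271250, nat_lit 1271250, nat_lit 21650, nat_lit 780000, nat_lit 1100001, nat_lit 2538500, [nat_lit 780000, nat_lit 1435000], [nat_lit 49, nat_lit 40, nat_lit 40, nat_lit 80, nat_lit 16, nat_lit 345, nat_lit 125, nat_lit 13]⟩, C1.Rw.none,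
 ⟨nat_lit 5000, nat_lit 5245, ⟨.ofNat (nat_lit 98689), .ofNat (nat_lit 310885), .ofNat (nat_lit 141460), .ofNat (nat_lit 353656), .ofNat (nat_lit 107141), .ofNat (nat_lit 314284), .ofNat (nat_lit 149999), .ofNat (nat_lit 357141)⟩, ⟨.ofNat (nat_lit 298515), .ofNat (nat_lit 605833), .ofNat (nat_lit 341286), .ofNat (nat_lit 648604), .ofNat (nat_lit 299999), .ofNat (nat_lit 599999), .ofNat (nat_lit 342856), .ofNat (nat_lit 642856)⟩⟩, [⟨nat_lit 0, nat_lit 100, nat_lit 87, nat_lit 50, nat_lit 100117004⟩, ⟨nat_lit 4, nat_lit 97, nat_lit 100, nat_lit 98, nat_lit 193177039⟩]⟩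
noncomputable def p053_l65 : Lf2 := ⟨nat_lit 1, nat_lit 7, [nat_lit 80, nat_lit 5, nat_lit 5, nat_lit 20], false, nat_lit 0, nat_lit 336, nat_lit 0, nat_lit 396, zbN0,
 nat_lit 0, nat_lit 0, nat_lit 0, nat_lit 0, nat_lit 0, nat_lit 0, nat_lit 0, nat_lit 0, nat_lit 0, nat_lit 0, nat_lit 0, nat_lit 0, nat_lit 0, nat_lit 0, nat_lit 0, nat_lit 0, nat_lit 0, nat_lit 0, [],
 C1.Rw.none, C1.Rw.none,
 zbF0, []⟩
noncomputable def p053_l66 : Lf2 := ⟨nat_lit 0, nat_lit 7, [nat_lit 80, nat_lit 5, nat_lit 5, nat_lit 20], true, nat_lit 0, nat_lit 160, nat_lit 0, nat_lit 396, ⟨nat_lit 0, nat_lit 0, nat_lit 1000, nat_lit 4, nat_lit 97, nat_lit 823, nat_lit 65, nat_lit 1000, nat_lit 38400, nat_lit 263, nat_lit 86400, nat_lit 287, nat_lit 63307482, nat_lit 0, nat_lit 0, nat_lit 1066498, false, false⟩,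
 nat_lit 0, nat_lit 4429, nat_lit 0, nat_lit 0, nat_lit 3066, nat_lit 0, nat_lit 312, nat_lit 0, nat_lit 0, nat_lit 0, nat_lit 0, nat_lit 0, nat_lit 0, nat_lit 0, nat_lit 94, nat_lit 400000, nat_lit 0, nat_lit 0, [(nat_lit 15, [(nat_lit 5, nat_lit 1000)])],
 ⟨p053_k8, nat_lit 0, nat_lit 0, nat_lit 371, nat_lit 0, nat_lit 282484, [nat_lit 2443200000, nat_lit 153000000], [], [nat_lit 17278441677, nat_lit 18600271549, nat_lit 17490592720, nat_lit 18676358000, nat_lit 18282293118, nat_lit 19396785634, nat_lit 19882351872, nat_lit 19549124112], nat_lit 1271250, nat_lit 1271250, nat_lit 43600, nat_lit 780000, nat_lit 0, nat_lit 1100001, [nat_lit 780000, nat_lit 1762500], [nat_lit 74, nat_lit 40, nat_lit 40, nat_lit 80, nat_lit 43, nat_lit 289, nat_lit 75, nat_lit 10]⟩, C1.Rw.none,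
 ⟨nat_lit 4472, nat_lit 5000, ⟨.ofNat (nat_lit 114284), .ofNat (nat_lit 314284), .ofNat (nat_lit 157141), .ofNat (nat_lit 357141), .ofNat (nat_lit 130570), .ofNat (nat_lit 320909), .ofNat (nat_lit 173703), .ofNat (nat_lit 364042)⟩, ⟨.ofNat (nat_lit 0), .ofNat (nat_lit 299999), .ofNat (nat_lit 0), .ofNat (nat_lit 342856), .ofNat (nat_lit 0), .ofNat (nat_lit 302621), .ofNat (nat_lit 0), .ofNat (nat_lit 345754)⟩⟩, [⟨nat_lit 0, nat_lit 100, nat_lit 80, nat_lit 60, nat_lit 84851236⟩]⟩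
noncomputable def p053_l67 : Lf2 := ⟨nat_lit 0, nat_lit 7, [nat_lit 80, nat_lit 5, nat_lit 5, nat_lit 20], true, nat_lit 160, nat_lit 320, nat_lit 0, nat_lit 384, ⟨nat_lit 0, nat_lit 225, nat_lit 775, nat_lit 4, nat_lit 83, nat_lit 1000, nat_lit 185, nat_lit 775, nat_lit 4748, nat_lit 203, nat_lit 64067, nat_lit 277, nat_lit 51806071, nat_lit 3402640, nat_lit 11791289, nat_lit 3463962, false, false⟩,
 nat_lit 0, nat_lit 4273, nat_lit 0, nat_lit 2097, nat_lit 2958, nat_lit 0, nat_lit 0, nat_lit 0, nat_lit 0, nat_lit 0, nat_lit 0, nat_lit 0, nat_lit 0, nat_lit 0, nat_lit 148, nat_lit 865000, nat_lit 0, nat_lit 0, [(nat_lit 15, [(nat_lit 1, nat_lit 225), (nat_lit 6, nat_lit 775)])],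
 ⟨p053_k12, nat_lit 0, nat_lit 0, nat_lit 219, nat_lit 0, nat_lit 187010, [nat_lit 2990045000, nat_lit 1711065001, nat_lit 630000], [], [nat_lit 19192548012, nat_lit 18054441740, nat_lit 16515066620, nat_lit 17672462528, nat_lit 23150505699, nat_lit 24044321020, nat_lit 22657755345, nat_lit 23395586856], nat_lit 1271250, nat_lit 1271250, nat_lit 43600, nat_lit 490000, nat_lit 1100001, nat_lit 2470000, [nat_lit 780000, nat_lit 1435000, nat_lit 1271250], [nat_lit 18, nat_lit 40, nat_lit 40, nat_lit 80, nat_lit 2, nat_lit 317, nat_lit 100, nat_lit 10]⟩, C1.Rw.none,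
 ⟨nat_lit 4472, nat_lit 5000, ⟨.ofNat (nat_lit 114284), .ofNat (nat_lit 242856), .ofNat (nat_lit 157141), .ofNat (nat_lit 285713), .ofNat (nat_lit 130570), .ofNat (nat_lit 252931), .ofNat (nat_lit 173703), .ofNat (nat_lit 296064)⟩, ⟨.ofNat (nat_lit 299999), .ofNat (nat_lit 585713), .ofNat (nat_lit 342856), .ofNat (nat_lit 628570), .ofNat (nat_lit 302621), .ofNat (nat_lit 574534), .ofNat (nat_lit 345754), .ofNat (nat_lit 617667)⟩⟩, [⟨nat_lit 0, nat_lit 100, nat_lit 80, nat_lit 60, nat_lit 139417666⟩, ⟨nat_lit 16, nat_lit 94, nat_lit 88, nat_lit 100, nat_lit 128476048⟩]⟩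
noncomputable def p053_l68 : Lf2 := ⟨nat_lit 0, nat_lit 7, [nat_lit 80, nat_lit 5, nat_lit 5, nat_lit 20], true, nat_lit 160, nat_lit 320, nat_lit 0, nat_lit 396, ⟨nat_lit 0, nat_lit 0, nat_lit 1000, nat_lit 4, nat_lit 122, nat_lit 1000, nat_lit 185, nat_lit 1000, nat_lit 4748, nat_lit 203, nat_lit 138017, nat_lit 306, nat_lit 49278535, nat_lit 0, nat_lit 0, nat_lit 3991636, false, false⟩,
 nat_lit 0, nat_lit 5308, nat_lit 0, nat_lit 2608, nat_lit 3674, nat_lit 0, nat_lit 862, nat_lit 0, nat_lit 0, nat_lit 0, nat_lit 0, nat_lit 0, nat_lit 0, nat_lit 0, nat_lit 94, nat_lit 400000, nat_lit 0, nat_lit 0, [(nat_lit 15, [(nat_lit 5, nat_lit 1000)])],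
 ⟨p053_k8, nat_lit 0, nat_lit 0, nat_lit 175, nat_lit 0, nat_lit 282484, [nat_lit 2443200000, nat_lit 153000000], [], [nat_lit 14966518860, nat_lit 16243147384, nat_lit 15421405392, nat_lit 16635882152, nat_lit 21934793552, nat_lit 23163763992, nat_lit 23103490170, nat_lit 23082765768], nat_lit 1271250, nat_lit 1271250, nat_lit 490000, nat_lit 780000, nat_lit 1100001, nat_lit 2470000, [nat_lit 780000, nat_lit 1762500], [nat_lit 74, nat_lit 40, nat_lit 40, nat_lit 80, nat_lit 43, nat_lit 345, nat_lit 125, nat_lit 11]⟩, C1.Rw.none,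
 ⟨nat_lit 4472, nat_lit 5000, ⟨.ofNat (nat_lit 242856), .ofNat (nat_lit 314284), .ofNat (nat_lit 285713), .ofNat (nat_lit 357141), .ofNat (nat_lit 252931), .ofNat (nat_lit 320909), .ofNat (nat_lit 296064), .ofNat (nat_lit 364042)⟩, ⟨.ofNat (nat_lit 299999), .ofNat (nat_lit 585713), .ofNat (nat_lit 342856), .ofNat (nat_lit 628570), .ofNat (nat_lit 302621), .ofNat (nat_lit 574534), .ofNat (nat_lit 345754), .ofNat (nat_lit 617667)⟩⟩, [⟨nat_lit 4, nat_lit 100, nat_lit 93, nat_lit 97, nat_lit 263276376⟩]⟩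
noncomputable def p053_l69 : Lf2 := ⟨nat_lit 0, nat_lit 7, [nat_lit 80, nat_lit 5, nat_lit 5, nat_lit 20], true, nat_lit 0, nat_lit 160, nat_lit 0, nat_lit 396, ⟨nat_lit 0, nat_lit 0, nat_lit 1000, nat_lit 4, nat_lit 177, nat_lit 414, nat_lit 64, nat_lit 1000, nat_lit 38400, nat_lit 263, nat_lit 600, nat_lit 221, nat_lit 56049370, nat_lit 0, nat_lit 0, nat_lit 2226668, false, true⟩,
 nat_lit 0, nat_lit 5581, nat_lit 0, nat_lit 8258, nat_lit 3551, nat_lit 0, nat_lit 0, nat_lit 0, nat_lit 0, nat_lit 0, nat_lit 0, nat_lit 0, nat_lit 0, nat_lit 0, nat_lit 162, nat_lit 1000000, nat_lit 0, nat_lit 0, [(nat_lit 12, [(nat_lit 6, nat_lit 1000)])],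
 ⟨p053_k6, nat_lit 0, nat_lit 0, nat_lit 195, nat_lit 0, nat_lit 78719, [nat_lit 3898000001, nat_lit 635599999], [], [nat_lit 20357670564, nat_lit 18508387886, nat_lit 18477344386, nat_lit 19766194656, nat_lit 14758631173, nat_lit 16038947394, nat_lit 18521167526, nat_lit 19614168256], nat_lit 1271250, nat_lit 1271250, nat_lit 780000, nat_lit 1762500, nat_lit 0, nat_lit 1100001, [nat_lit 780000, nat_lit 1762500], [nat_lit 74, nat_lit 40, nat_lit 40, nat_lit 80, nat_lit 43, nat_lit 317, nat_lit 100, nat_lit 10]⟩, C1.Rw.none,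
 ⟨nat_lit 5000, nat_lit 5478, ⟨.ofNat (nat_lit 307418), .ofNat (nat_lit 532217), .ofNat (nat_lit 350132), .ofNat (nat_lit 574920), .ofNat (nat_lit 314284), .ofNat (nat_lit 528570), .ofNat (nat_lit 357141), .ofNat (nat_lit 571415)⟩, ⟨.negSucc (nat_lit 2832), .ofNat (nat_lit 296923), .ofNat (nat_lit 0), .ofNat (nat_lit 339637), .ofNat (nat_lit 0), .ofNat (nat_lit 299999), .ofNat (nat_lit 0), .ofNat (nat_lit 342856)⟩⟩, []⟩
noncomputable def p053_l70 : Lf2 := ⟨nat_lit 0, nat_lit 7, [nat_lit 80, nat_lit 5, nat_lit 5, nat_lit 20], true, nat_lit 0, nat_lit 160, nat_lit 0, nat_lit 396, ⟨nat_lit 0, nat_lit 0, nat_lit 1000, nat_lit 4, nat_lit 177, nat_lit 509, nat_lit 65, nat_lit 1000, nat_lit 38400, nat_lit 263, nat_lit 3024, nat_lit 223, nat_lit 55981508, nat_lit 0, nat_lit 0, nat_lit 2234919, false, true⟩,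
 nat_lit 0, nat_lit 4805, nat_lit 0, nat_lit 0, nat_lit 3326, nat_lit 0, nat_lit 442, nat_lit 0, nat_lit 0, nat_lit 0, nat_lit 0, nat_lit 0, nat_lit 0, nat_lit 0, nat_lit 94, nat_lit 400000, nat_lit 0, nat_lit 0, [(nat_lit 15, [(nat_lit 5, nat_lit 1000)])],
 ⟨p053_k8, nat_lit 0, nat_lit 0, nat_lit 265, nat_lit 0, nat_lit 282484, [nat_lit 2443200000, nat_lit 153000000], [], [nat_lit 15579726560, nat_lit 16959959632, nat_lit 19340454444, nat_lit 20465050072, nat_lit 16361350608, nat_lit 17521977848, nat_lit 21007897542, nat_lit 20571696600], nat_lit 1271250, nat_lit 1271250, nat_lit 780000, nat_lit 1762500, nat_lit 0, nat_lit 1100001, [nat_lit 780000, nat_lit 1762500], [nat_lit 74, nat_lit 40, nat_lit 40, nat_lit 80, nat_lit 43, nat_lit 317, nat_lit 100, nat_lit 10]⟩, C1.Rw.none,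
 ⟨nat_lit 4472, nat_lit 5000, ⟨.ofNat (nat_lit 314284), .ofNat (nat_lit 528570), .ofNat (nat_lit 357141), .ofNat (nat_lit 571423), .ofNat (nat_lit 320909), .ofNat (nat_lit 524844), .ofNat (nat_lit 364042), .ofNat (nat_lit 567973)⟩, ⟨.ofNat (nat_lit 0), .ofNat (nat_lit 299999), .ofNat (nat_lit 0), .ofNat (nat_lit 342856), .ofNat (nat_lit 0), .ofNat (nat_lit 302621), .ofNat (nat_lit 0), .ofNat (nat_lit 345754)⟩⟩, []⟩
noncomputable def p053_l71 : Lf2 := ⟨nat_lit 0, nat_lit 7, [nat_lit 80, nat_lit 5, nat_lit 5, nat_lit 20], false, nat_lit 0, nat_lit 160, nat_lit 0, nat_lit 384, ⟨nat_lit 1000, nat_lit 0, nat_lit 0, nat_lit 0, nat_lit 0, nat_lit 0, nat_lit 0, nat_lit 0, nat_lit 0, nat_lit 0, nat_lit 0, nat_lit 0, nat_lit 0, nat_lit 0, nat_lit 0, nat_lit 0, false, false⟩,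
 nat_lit 0, nat_lit 12285, nat_lit 0, nat_lit 17829, nat_lit 7817, nat_lit 9402, nat_lit 1663, nat_lit 0, nat_lit 0, nat_lit 2578, nat_lit 0, nat_lit 0, nat_lit 0, nat_lit 0, nat_lit 0, nat_lit 0, nat_lit 0, nat_lit 0, [],
 ⟨p053_k7, nat_lit 0, nat_lit 0, nat_lit 200, nat_lit 0, nat_lit 78719, [nat_lit 3282000000, nat_lit 4688000000, nat_lit 7968000000], [], [nat_lit 22088797428, nat_lit 24592030794, nat_lit 38376663234, nat_lit 39828099873, nat_lit 16607899648, nat_lit 17892760868, nat_lit 29605014290, nat_lit 30869700649], nat_lit 1271250, nat_lit 1271250, nat_lit 1271250, nat_lit 1271250, nat_lit 0, nat_lit 1100001, [nat_lit 780000, nat_lit 1100000, nat_lit 1785000], [nat_lit 36, nat_lit 40, nat_lit 40, nat_lit 80, nat_lit 7, nat_lit 249, nat_lit 40, nat_lit 8]⟩, ⟨p053_k9, nat_lit 0, nat_lit 0, nat_lit 306, nat_lit 0, nat_lit 0, [nat_lit 7968000000, nat_lit 9842000000, nat_lit 14058000000], [], [nat_lit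 31423927930, nat_lit 31735087266, nat_lit 41426845567, nat_lit 41183710066, nat_lit 33431875930, nat_lit 33201529109, nat_lit 39621959120, nat_lit 39058613856], nat_lit 0, nat_lit 0, nat_lit 0, nat_lit 0, nat_lit 0, nat_lit 0, [], [nat_lit 92, nat_lit 40, nat_lit 40, nat_lit 80, nat_lit 32, nat_lit 483, nat_lit 250, nat_lit 11]⟩,
 zbF0, [⟨nat_lit 22, nat_lit 88, nat_lit 100, nat_lit 85, nat_lit 135922088⟩, ⟨nat_lit 10, nat_lit 40, nat_lit 84, nat_lit 100, nat_lit 85425685⟩]⟩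
noncomputable def p053_l72 : Lf2 := ⟨nat_lit 0, nat_lit 7, [nat_lit 80, nat_lit 5, nat_lit 5, nat_lit 20], false, nat_lit 0, nat_lit 160, nat_lit 0, nat_lit 384, ⟨nat_lit 1000, nat_lit 0, nat_lit 0, nat_lit 0, nat_lit 0, nat_lit 0, nat_lit 0, nat_lit 0, nat_lit 0, nat_lit 0, nat_lit 0, nat_lit 0, nat_lit 0, nat_lit 0, nat_lit 0, nat_lit 0, false, false⟩,
 nat_lit 0, nat_lit 9265, nat_lit 0, nat_lit 10153, nat_lit 6414, nat_lit 9670, nat_lit 1467, nat_lit 0, nat_lit 0, nat_lit 2238, nat_lit 0, nat_lit 0, nat_lit 0, nat_lit 0, nat_lit 0, nat_lit 0, nat_lit 0, nat_lit 0, [],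
 ⟨p053_k10, nat_lit 0, nat_lit 0, nat_lit 287, nat_lit 0, nat_lit 282484, [nat_lit 3282000000, nat_lit 4688000000, nat_lit 7968000000], [], [nat_lit 22827783548, nat_lit 25023762720, nat_lit 35409079640, nat_lit 36764551154, nat_lit 19081677970, nat_lit 19938696218, nat_lit 28668693523, nat_lit 29852481897], nat_lit 1271250, nat_lit 1271250, nat_lit 1271250, nat_lit 1271250, nat_lit 0, nat_lit 1100001, [nat_lit 780000, nat_lit 1100000, nat_lit 1785000], [nat_lit 36, nat_lit 40, nat_lit 40, nat_lit 80, nat_lit 7, nat_lit 249, nat_lit 40, nat_lit 8]⟩, ⟨p053_k9, nat_lit 0, nat_lit 0, nat_lit 303, nat_lit 0, nat_lit 0, [nat_lit 7968000000, nat_lit 9842000000, nat_lit 14058000000], [], [nat_lit 32555726550, nat_lit 32850288110, nat_lit 42272118742, nat_lit 42054077326, nat_lit 32996806017, nat_lit 32901981897, nat_lit 39115459407, nat_lit 38734041517], nat_lit 0, nat_lit 0, nat_lit 0, nat_lit 0, nat_lit 0, nat_lit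 0, [], [nat_lit 92, nat_lit 40, nat_lit 40, nat_lit 80, nat_lit 32, nat_lit 483, nat_lit 250, nat_lit 11]⟩,
 zbF0, [⟨nat_lit 22, nat_lit 90, nat_lit 100, nat_lit 85, nat_lit 10860238⟩, ⟨nat_lit 10, nat_lit 40, nat_lit 85, nat_lit 100, nat_lit 178435438⟩]⟩
noncomputable def p053_l73 : Lf2 := ⟨nat_lit 0, nat_lit 7, [nat_lit 80, nat_lit 5, nat_lit 5, nat_lit 20], true, nat_lit 160, nat_lit 336, nat_lit 0, nat_lit 396, ⟨nat_lit 0, nat_lit 994, nat_lit 6, nat_lit 4, nat_lit 177, nat_lit 1000, nat_lit 192, nat_lit 6, nat_lit 67422, nat_lit 200, nat_lit 600, nat_lit 221, nat_lit 44704105, nat_lit 10407971, nat_lit 11887924, nat_lit 4658002, false, true⟩,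
 nat_lit 0, nat_lit 7677, nat_lit 0, nat_lit 0, nat_lit 4885, nat_lit 0, nat_lit 0, nat_lit 0, nat_lit 0, nat_lit 0, nat_lit 0, nat_lit 0, nat_lit 0, nat_lit 0, nat_lit 0, nat_lit 1000000, nat_lit 0, nat_lit 0, [(nat_lit 12, [(nat_lit 2, nat_lit 994), (nat_lit 6, nat_lit 6)])],
 ⟨p053_k6, nat_lit 0, nat_lit 0, nat_lit 115, nat_lit 0, nat_lit 78719, [nat_lit 2950982001, nat_lit 968720399], [], [nat_lit 15895984140, nat_lit 17165379690, nat_lit 24282231960, nat_lit 21980390650, nat_lit 23101575953, nat_lit 23952925829, nat_lit 25083837555, nat_lit 26082079606], nat_lit 1271250, nat_lit 1271250, nat_lit 780000, nat_lit 1762500, nat_lit 1271250, nat_lit 1271250, [nat_lit 780000, nat_lit 1762500], [nat_lit 74, nat_lit 40, nat_lit 40, nat_lit 80, nat_lit 43, nat_lit 373, nat_lit 150, nat_lit 12]⟩, C1.Rw.none,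
 ⟨nat_lit 5000, nat_lit 5478, ⟨.ofNat (nat_lit 307418), .ofNat (nat_lit 532217), .ofNat (nat_lit 350132), .ofNat (nat_lit 574920), .ofNat (nat_lit 314284), .ofNat (nat_lit 528570), .ofNat (nat_lit 357141), .ofNat (nat_lit 571415)⟩, ⟨.ofNat (nat_lit 296923), .ofNat (nat_lit 626629), .ofNat (nat_lit 339637), .ofNat (nat_lit 669336), .ofNat (nat_lit 299999), .ofNat (nat_lit 614284), .ofNat (nat_lit 342856), .ofNat (nat_lit 657134)⟩⟩, [⟨nat_lit 4, nat_lit 94, nat_lit 100, nat_lit 97, nat_lit 13522219⟩]⟩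
noncomputable def p053_l74 : Lf2 := ⟨nat_lit 0, nat_lit 7, [nat_lit 80, nat_lit 5, nat_lit 5, nat_lit 20], true, nat_lit 160, nat_lit 320, nat_lit 0, nat_lit 396, ⟨nat_lit 0, nat_lit 1000, nat_lit 0, nat_lit 4, nat_lit 177, nat_lit 1000, nat_lit 185, nat_lit 0, nat_lit 0, nat_lit 0, nat_lit 0, nat_lit 0, nat_lit 45232822, nat_lit 10532023, nat_lit 11235155, nat_lit 4599838, false, true⟩,
 nat_lit 0, nat_lit 5777, nat_lit 0, nat_lit 0, nat_lit 3999, nat_lit 0, nat_lit 345, nat_lit 0, nat_lit 0, nat_lit 0, nat_lit 0, nat_lit 0, nat_lit 0, nat_lit 0, nat_lit 13, nat_lit 923200, nat_lit 0, nat_lit 0, [(nat_lit 15, [(nat_lit 1, nat_lit 128), (nat_lit 2, nat_lit 872)])],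
 ⟨p053_k10, nat_lit 0, nat_lit 0, nat_lit 170, nat_lit 0, nat_lit 282484, [nat_lit 2142401281, nat_lit 2398652800, nat_lit 87450667], [], [nat_lit 15961507417, nat_lit 17301024593, nat_lit 20165134448, nat_lit 20451915953, nat_lit 22525754659, nat_lit 23477337861, nat_lit 24651307311, nat_lit 25583293712], nat_lit 1271250, nat_lit 1271250, nat_lit 780000, nat_lit 1762500, nat_lit 1271250, nat_lit 1271250, [nat_lit 780000, nat_lit 1100000, nat_lit 1785000], [nat_lit 36, nat_lit 40, nat_lit 40, nat_lit 80, nat_lit 7, nat_lit 373, nat_lit 150, nat_lit 12]⟩, C1.Rw.none,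
 ⟨nat_lit 4472, nat_lit 5000, ⟨.ofNat (nat_lit 314284), .ofNat (nat_lit 528570), .ofNat (nat_lit 357141), .ofNat (nat_lit 571423), .ofNat (nat_lit 320909), .ofNat (nat_lit 524844), .ofNat (nat_lit 364042), .ofNat (nat_lit 567973)⟩, ⟨.ofNat (nat_lit 299999), .ofNat (nat_lit 585713), .ofNat (nat_lit 342856), .ofNat (nat_lit 628570), .ofNat (nat_lit 302621), .ofNat (nat_lit 574534), .ofNat (nat_lit 345754), .ofNat (nat_lit 617667)⟩⟩, [⟨nat_lit 4, nat_lit 100, nat_lit 93, nat_lit 97, nat_lit 128728320⟩]⟩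
noncomputable def p053_l75 : Lf2 := ⟨nat_lit 0, nat_lit 7, [nat_lit 80, nat_lit 5, nat_lit 5, nat_lit 20], false, nat_lit 160, nat_lit 336, nat_lit 0, nat_lit 396, ⟨nat_lit 617, nat_lit 383, nat_lit 0, nat_lit 6, nat_lit 273, nat_lit 383, nat_lit 192, nat_lit 0, nat_lit 0, nat_lit 0, nat_lit 0, nat_lit 0, nat_lit 37581553, nat_lit 18766628, nat_lit 10651819, nat_lit 5248208, false, true⟩,
 nat_lit 0, nat_lit 7810, nat_lit 0, nat_lit 14960, nat_lit 4969, nat_lit 5668, nat_lit 1028, nat_lit 0, nat_lit 0, nat_lit 1573, nat_lit 0, nat_lit 0, nat_lit 0, nat_lit 0, nat_lit 0, nat_lit 153200, nat_lit 0, nat_lit 0, [(nat_lit 12, [(nat_lit 1, nat_lit 383)])],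
 ⟨p053_k7, nat_lit 0, nat_lit 0, nat_lit 115, nat_lit 0, nat_lit 78719, [nat_lit 2803786200, nat_lit 3878644400, nat_lit 5943462000], [], [nat_lit 20195579924, nat_lit 21227931614, nat_lit 27340150784, nat_lit 28194449380, nat_lit 25967614061, nat_lit 26748618467, nat_lit 32088010505, nat_lit 32763239320], nat_lit 1271250, nat_lit 1271250, nat_lit 1271250, nat_lit 1271250, nat_lit 1100001, nat_lit 2607000, [nat_lit 780000, nat_lit 1100000, nat_lit 1785000], [nat_lit 36, nat_lit 40, nat_lit 40, nat_lit 80, nat_lit 7, nat_lit 317, nat_lit 100, nat_lit 9]⟩, ⟨p053_k9, nat_lit 0, nat_lit 0, nat_lit 306, nat_lit 0, nat_lit 0, [nat_lit 4916256000, nat_lit 6072514000, nat_lit 8673786000], [], [nat_lit 19536813085, nat_lit 19737037457, nat_lit 25448726240, nat_lit 25317904689, nat_lit 21292469354, nat_lit 21131661226, nat_lit 24867398111, nat_lit 24508162313], nat_lit 0, nat_lit 0, nat_lit 0, nat_lit 0, nat_lit 0,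 nat_lit 0, [], [nat_lit 92, nat_lit 40, nat_lit 40, nat_lit 80, nat_lit 32, nat_lit 483, nat_lit 250, nat_lit 11]⟩,
 ⟨nat_lit 5000, nat_lit 5478, ⟨.ofNat (nat_lit 532217), .ofNat (nat_lit 801938), .ofNat (nat_lit 574920), .ofNat (nat_lit 844633), .ofNat (nat_lit 528570), .ofNat (nat_lit 785675), .ofNat (nat_lit 571415), .ofNat (nat_lit 828512)⟩, ⟨.ofNat (nat_lit 296923), .ofNat (nat_lit 626629), .ofNat (nat_lit 339637), .ofNat (nat_lit 669336), .ofNat (nat_lit 299999), .ofNat (nat_lit 614284), .ofNat (nat_lit 342856), .ofNat (nat_lit 657134)⟩⟩, [⟨nat_lit 16, nat_lit 100, nat_lit 94, nat_lit 97, nat_lit 261394203⟩, ⟨nat_lit 7, nat_lit 41, nat_lit 100, nat_lit 87, nat_lit 132883802⟩]⟩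
noncomputable def p053_l76 : Lf2 := ⟨nat_lit 0, nat_lit 7, [nat_lit 80, nat_lit 5, nat_lit 5, nat_lit 20], true, nat_lit 160, nat_lit 320, nat_lit 0, nat_lit 396, ⟨nat_lit 0, nat_lit 1000, nat_lit 0, nat_lit 6, nat_lit 243, nat_lit 1000, nat_lit 185, nat_lit 0, nat_lit 0, nat_lit 0, nat_lit 0, nat_lit 0, nat_lit 40274628, nat_lit 16229781, nat_lit 10495591, nat_lit 5064465, false, true⟩,
 nat_lit 0, nat_lit 5288, nat_lit 0, nat_lit 0, nat_lit 3660, nat_lit 0, nat_lit 599, nat_lit 0, nat_lit 0, nat_lit 0, nat_lit 0, nat_lit 0, nat_lit 0, nat_lit 0, nat_lit 0, nat_lit 400000, nat_lit 0, nat_lit 0, [(nat_lit 15, [(nat_lit 1, nat_lit 1000)])],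
 ⟨p053_k10, nat_lit 0, nat_lit 0, nat_lit 146, nat_lit 0, nat_lit 238426, [nat_lit 2020200000, nat_lit 2336800001, nat_lit 2343200000], [], [nat_lit 20174230210, nat_lit 21083522810, nat_lit 23423562001, nat_lit 24294726481, nat_lit 25135482201, nat_lit 25896921201, nat_lit 27682050320, nat_lit 28356245600], nat_lit 1271250, nat_lit 1271250, nat_lit 1271250, nat_lit 1271250, nat_lit 1100001, nat_lit 2470000, [nat_lit 780000, nat_lit 1100000, nat_lit 1785000], [nat_lit 36, nat_lit 40, nat_lit 40, nat_lit 80, nat_lit 7, nat_lit 317, nat_lit 100, nat_lit 9]⟩, C1.Rw.none,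
 ⟨nat_lit 4472, nat_lit 5000, ⟨.ofNat (nat_lit 528570), .ofNat (nat_lit 671427), .ofNat (nat_lit 549999), .ofNat (nat_lit 692851), .ofNat (nat_lit 524844), .ofNat (nat_lit 660800), .ofNat (nat_lit 546410), .ofNat (nat_lit 682362)⟩, ⟨.ofNat (nat_lit 299999), .ofNat (nat_lit 585713), .ofNat (nat_lit 342856), .ofNat (nat_lit 628570), .ofNat (nat_lit 302621), .ofNat (nat_lit 574534), .ofNat (nat_lit 345754), .ofNat (nat_lit 617667)⟩⟩, [⟨nat_lit 4, nat_lit 100, nat_lit 93, nat_lit 97, nat_lit 101435781⟩]⟩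
noncomputable def p053_l77 : Lf2 := ⟨nat_lit 0, nat_lit 7, [nat_lit 80, nat_lit 5, nat_lit 5, nat_lit 20], false, nat_lit 160, nat_lit 320, nat_lit 0, nat_lit 392, ⟨nat_lit 278, nat_lit 722, nat_lit 0, nat_lit 6, nat_lit 251, nat_lit 722, nat_lit 185, nat_lit 0, nat_lit 0, nat_lit 0, nat_lit 0, nat_lit 0, nat_lit 39627162, nat_lit 16989128, nat_lit 10383710, nat_lit 5106146, true, true⟩,
 nat_lit 0, nat_lit 6116, nat_lit 0, nat_lit 1093, nat_lit 4234, nat_lit 2608, nat_lit 120, nat_lit 0, nat_lit 0, nat_lit 506, nat_lit 0, nat_lit 0, nat_lit 0, nat_lit 0, nat_lit 0, nat_lit 636200, nat_lit 0, nat_lit 0, [(nat_lit 15, [(nat_lit 1, nat_lit 143), (nat_lit 2, nat_lit 579)])],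
 ⟨p053_k10, nat_lit 0, nat_lit 0, nat_lit 160, nat_lit 0, nat_lit 282484, [nat_lit 2348538360, nat_lit 2893393200, nat_lit 2180248400], [], [nat_lit 21288151764, nat_lit 22251406104, nat_lit 24447870940, nat_lit 25246591240, nat_lit 25851645488, nat_lit 26546150880, nat_lit 28153895992, nat_lit 28818525712], nat_lit 1271250, nat_lit 1271250, nat_lit 1271250, nat_lit 1271250, nat_lit 1100001, nat_lit 2470000, [nat_lit 780000, nat_lit 1100000, nat_lit 1785000], [nat_lit 36, nat_lit 40, nat_lit 40, nat_lit 80, nat_lit 7, nat_lit 317, nat_lit 100, nat_lit 9]⟩, ⟨p053_k16, nat_lit 0, nat_lit 0, nat_lit 231, nat_lit 0, nat_lit 0, [nat_lit 2215104000, nat_lit 2736076000, nat_lit 3300416000], [], [nat_lit 8559938760, nat_lit 8641915012, nat_lit 9797338104, nat_lit 9822994372, nat_lit 9074366119, nat_lit 9043768596, nat_lit 9718663055, nat_lit 9670632440], nat_lit 0, nat_lit 0, nat_lit 0, nat_lit 0, nat_lit 0, nat_lit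 0, [], [nat_lit 106, nat_lit 40, nat_lit 40, nat_lit 80, nat_lit 41, nat_lit 483, nat_lit 250, nat_lit 12]⟩,
 ⟨nat_lit 4472, nat_lit 5000, ⟨.ofNat (nat_lit 549999), .ofNat (nat_lit 692851), .ofNat (nat_lit 571423), .ofNat (nat_lit 714270), .ofNat (nat_lit 546410), .ofNat (nat_lit 682362), .ofNat (nat_lit 567973), .ofNat (nat_lit 703919)⟩, ⟨.ofNat (nat_lit 299999), .ofNat (nat_lit 585713), .ofNat (nat_lit 342856), .ofNat (nat_lit 628570), .ofNat (nat_lit 302621), .ofNat (nat_lit 574534), .ofNat (nat_lit 345754), .ofNat (nat_lit 617667)⟩⟩, [⟨nat_lit 4, nat_lit 100, nat_lit 93, nat_lit 97, nat_lit 164839480⟩, ⟨nat_lit 7, nat_lit 46, nat_lit 100, nat_lit 87, nat_lit 62631463⟩]⟩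
noncomputable def p053_l78 : Lf2 := ⟨nat_lit 0, nat_lit 7, [nat_lit 80, nat_lit 5, nat_lit 5, nat_lit 20], false, nat_lit 160, nat_lit 240, nat_lit 16, nat_lit 384, ⟨nat_lit 533, nat_lit 467, nat_lit 0, nat_lit 8, nat_lit 295, nat_lit 467, nat_lit 157, nat_lit 0, nat_lit 0, nat_lit 0, nat_lit 0, nat_lit 0, nat_lit 37829649, nat_lit 21376469, nat_lit 7793882, nat_lit 5028241, true, true⟩,
 nat_lit 0, nat_lit 7132, nat_lit 0, nat_lit 2165, nat_lit 4937, nat_lit 5094, nat_lit 492, nat_lit 0, nat_lit 0, nat_lit 1062, nat_lit 0, nat_lit 0, nat_lit 0, nat_lit 0, nat_lit 0, nat_lit 467000, nat_lit 0, nat_lit 0, [(nat_lit 15, [(nat_lit 2, nat_lit 467)])],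
 ⟨p053_k10, nat_lit 0, nat_lit 0, nat_lit 177, nat_lit 0, nat_lit 282484, [nat_lit 2674638480, nat_lit 3511720400, nat_lit 3924485067], [], [nat_lit 23866325692, nat_lit 24766142123, nat_lit 27239708430, nat_lit 28289278268, nat_lit 25382102006, nat_lit 26140899396, nat_lit 28713036846, nat_lit 29615131876], nat_lit 1271250, nat_lit 1271250, nat_lit 1271250, nat_lit 1271250, nat_lit 1100001, nat_lit 1785000, [nat_lit 780000, nat_lit 1100000, nat_lit 1785000], [nat_lit 36, nat_lit 40, nat_lit 40, nat_lit 80, nat_lit 7, nat_lit 272, nat_lit 60, nat_lit 7]⟩, ⟨p053_k9, nat_lit 0, nat_lit 0, nat_lit 288, nat_lit 0, nat_lit 0, [nat_lit 4246944000, nat_lit 5245786000, nat_lit 7492914000], [], [nat_lit 19388744360, nat_lit 19491865557, nat_lit 22155025297, nat_lit 22055295807, nat_lit 19204037086, nat_lit 19035582001, nat_lit 20853792160, nat_lit 20565536884], nat_lit 0, nat_lit 0, nat_lit 0, nat_lit 0, nat_lit 0,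 nat_lit 0, [], [nat_lit 92, nat_lit 40, nat_lit 40, nat_lit 80, nat_lit 32, nat_lit 483, nat_lit 250, nat_lit 11]⟩,
 ⟨nat_lit 4472, nat_lit 5000, ⟨.ofNat (nat_lit 671427), .ofNat (nat_lit 771425), .ofNat (nat_lit 714270), .ofNat (nat_lit 814263), .ofNat (nat_lit 660800), .ofNat (nat_lit 755968), .ofNat (nat_lit 703919), .ofNat (nat_lit 799081)⟩, ⟨.ofNat (nat_lit 299999), .ofNat (nat_lit 442856), .ofNat (nat_lit 342856), .ofNat (nat_lit 485713), .ofNat (nat_lit 302621), .ofNat (nat_lit 438578), .ofNat (nat_lit 345754), .ofNat (nat_lit 481711)⟩⟩, [⟨nat_lit 13, nat_lit 82, nat_lit 76, nat_lit 100, nat_lit 153847953⟩, ⟨nat_lit 10, nat_lit 43, nat_lit 74, nat_lit 100, nat_lit 120302434⟩]⟩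
noncomputable def p053_l79 : Lf2 := ⟨nat_lit 0, nat_lit 7, [nat_lit 80, nat_lit 5, nat_lit 5, nat_lit 20], true, nat_lit 240, nat_lit 320, nat_lit 64, nat_lit 396, ⟨nat_lit 0, nat_lit 1000, nat_lit 0, nat_lit 8, nat_lit 296, nat_lit 1000, nat_lit 214, nat_lit 0, nat_lit 0, nat_lit 0, nat_lit 0, nat_lit 0, nat_lit 34902874, nat_lit 20204261, nat_lit 11892865, nat_lit 5447309, true, true⟩,
 nat_lit 0, nat_lit 5162, nat_lit 0, nat_lit 12, nat_lit 3573, nat_lit 0, nat_lit 349, nat_lit 0, nat_lit 0, nat_lit 0, nat_lit 0, nat_lit 0, nat_lit 0, nat_lit 0, nat_lit 0, nat_lit 400000, nat_lit 0, nat_lit 0, [(nat_lit 15, [(nat_lit 1, nat_lit 1000)])],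
 ⟨p053_k10, nat_lit 0, nat_lit 0, nat_lit 137, nat_lit 0, nat_lit 174760, [nat_lit 2020200000, nat_lit 2336800001, nat_lit 2343200000], [], [nat_lit 25838205866, nat_lit 26169829878, nat_lit 28025409966, nat_lit 28312377211, nat_lit 28029092888, nat_lit 28333825575, nat_lit 30137337748, nat_lit 30474252332], nat_lit 1271250, nat_lit 1271250, nat_lit 1271250, nat_lit 1271250, nat_lit 1271250, nat_lit 1271250, [nat_lit 780000, nat_lit 1100000, nat_lit 1785000], [nat_lit 36, nat_lit 40, nat_lit 40, nat_lit 80, nat_lit 7, nat_lit 203, nat_lit 0, nat_lit 5]⟩, C1.Rw.none,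
 ⟨nat_lit 4743, nat_lit 5000, ⟨.ofNat (nat_lit 671427), .ofNat (nat_lit 771425), .ofNat (nat_lit 714280), .ofNat (nat_lit 814277), .ofNat (nat_lit 666121), .ofNat (nat_lit 763700), .ofNat (nat_lit 709094), .ofNat (nat_lit 806671)⟩, ⟨.ofNat (nat_lit 442856), .ofNat (nat_lit 585713), .ofNat (nat_lit 485713), .ofNat (nat_lit 628570), .ofNat (nat_lit 440769), .ofNat (nat_lit 580169), .ofNat (nat_lit 483746), .ofNat (nat_lit 623145)⟩⟩, [⟨nat_lit 13, nat_lit 87, nat_lit 50, nat_lit 100, nat_lit 177139151⟩, ⟨nat_lit 16, nat_lit 97, nat_lit 100, nat_lit 98, nat_lit 115418966⟩]⟩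
noncomputable def p053_l80 : Lf2 := ⟨nat_lit 0, nat_lit 7, [nat_lit 80, nat_lit 5, nat_lit 5, nat_lit 20], true, nat_lit 240, nat_lit 312, nat_lit 64, nat_lit 396, ⟨nat_lit 0, nat_lit 1000, nat_lit 0, nat_lit 8, nat_lit 291, nat_lit 1000, nat_lit 210, nat_lit 0, nat_lit 0, nat_lit 0, nat_lit 0, nat_lit 0, nat_lit 35417497, nat_lit 19902236, nat_lit 11680267, nat_lit 5413142, true, true⟩,
 nat_lit 0, nat_lit 4879, nat_lit 0, nat_lit 0, nat_lit 3517, nat_lit 0, nat_lit 208, nat_lit 0, nat_lit 0, nat_lit 0, nat_lit 0, nat_lit 0, nat_lit 0, nat_lit 0, nat_lit 0, nat_lit 578200, nat_lit 0, nat_lit 0, [(nat_lit 15, [(nat_lit 1, nat_lit 703), (nat_lit 2, nat_lit 297)])],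
 ⟨p053_k11, nat_lit 0, nat_lit 0, nat_lit 132, nat_lit 0, nat_lit 216042, [nat_lit 2008688281, nat_lit 2064411201, nat_lit 1854051200], [], [nat_lit 25784340274, nat_lit 25961329090, nat_lit 27776065958, nat_lit 27942525144, nat_lit 27924085660, nat_lit 28094057931, nat_lit 29792135095, nat_lit 29942333053], nat_lit 1271250, nat_lit 1271250, nat_lit 1271250, nat_lit 1271250, nat_lit 1271250, nat_lit 1271250, [nat_lit 780000, nat_lit 1100000, nat_lit 1442500], [nat_lit 59, nat_lit 40, nat_lit 40, nat_lit 80, nat_lit 3, nat_lit 203, nat_lit 0, nat_lit 5]⟩, C1.Rw.none,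
 ⟨nat_lit 4609, nat_lit 4744, ⟨.ofNat (nat_lit 666122), .ofNat (nat_lit 749761), .ofNat (nat_lit 709097), .ofNat (nat_lit 792737), .ofNat (nat_lit 663464), .ofNat (nat_lit 746071), .ofNat (nat_lit 706514), .ofNat (nat_lit 789120)⟩, ⟨.ofNat (nat_lit 440769), .ofNat (nat_lit 566229), .ofNat (nat_lit 483746), .ofNat (nat_lit 609205), .ofNat (nat_lit 439688), .ofNat (nat_lit 563598), .ofNat (nat_lit 482738), .ofNat (nat_lit 606647)⟩⟩, [⟨nat_lit 13, nat_lit 84, nat_lit 55, nat_lit 100, nat_lit 189542661⟩, ⟨nat_lit 16, nat_lit 92, nat_lit 100, nat_lit 96, nat_lit 131591776⟩]⟩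
noncomputable def p053_l81 : Lf2 := ⟨nat_lit 0, nat_lit 7, [nat_lit 80, nat_lit 5, nat_lit 5, nat_lit 20], false, nat_lit 240, nat_lit 304, nat_lit 64, nat_lit 396, ⟨nat_lit 130, nat_lit 870, nat_lit 0, nat_lit 8, nat_lit 289, nat_lit 870, nat_lit 206, nat_lit 0, nat_lit 0, nat_lit 0, nat_lit 0, nat_lit 0, nat_lit 35775931, nat_lit 19761268, nat_lit 11462801, nat_lit 5385121, true, true⟩,
 nat_lit 0, nat_lit 5036, nat_lit 0, nat_lit 996, nat_lit 3703, nat_lit 1243, nat_lit 393, nat_lit 0, nat_lit 0, nat_lit 226, nat_lit 0, nat_lit 0, nat_lit 0, nat_lit 0, nat_lit 0, nat_lit 348000, nat_lit 0, nat_lit 0, [(nat_lit 15, [(nat_lit 1, nat_lit 870)])],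
 ⟨p053_k17, nat_lit 0, nat_lit 0, nat_lit 143, nat_lit 0, nat_lit 260219, [nat_lit 2184234000, nat_lit 2537360000, nat_lit 2836468000], [], [nat_lit 26140018627, nat_lit 26319634041, nat_lit 27913148043, nat_lit 28073289301, nat_lit 27967176383, nat_lit 28124149732, nat_lit 29690975974, nat_lit 29847627857], nat_lit 1271250, nat_lit 1271250, nat_lit 1271250, nat_lit 1271250, nat_lit 1271250, nat_lit 1271250, [nat_lit 780000, nat_lit 1100000, nat_lit 1442500], [nat_lit 59, nat_lit 40, nat_lit 40, nat_lit 80, nat_lit 3, nat_lit 203, nat_lit 0, nat_lit 5]⟩, ⟨p053_k9, nat_lit 0, nat_lit 0, nat_lit 232, nat_lit 0, nat_lit 0, [nat_lit 1035840000, nat_lit 1279460000, nat_lit 1827540000], [], [nat_lit 4367399138, nat_lit 4363523760, nat_lit 4796308483, nat_lit 4789502916, nat_lit 4895111828, nat_lit 4810373848, nat_lit 5117147969, nat_lit 5019264656], nat_lit 0, nat_lit 0, nat_lit 0, nat_lit 0, nat_lit 0, nat_lit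 0, [], [nat_lit 92, nat_lit 40, nat_lit 40, nat_lit 80, nat_lit 32, nat_lit 483, nat_lit 250, nat_lit 11]⟩,
 ⟨nat_lit 4472, nat_lit 4610, ⟨.ofNat (nat_lit 663464), .ofNat (nat_lit 739187), .ofNat (nat_lit 706514), .ofNat (nat_lit 782236), .ofNat (nat_lit 660800), .ofNat (nat_lit 735576), .ofNat (nat_lit 703933), .ofNat (nat_lit 778709)⟩, ⟨.ofNat (nat_lit 439688), .ofNat (nat_lit 549830), .ofNat (nat_lit 482738), .ofNat (nat_lit 592879), .ofNat (nat_lit 438578), .ofNat (nat_lit 547343), .ofNat (nat_lit 481711), .ofNat (nat_lit 590476)⟩⟩, [⟨nat_lit 13, nat_lit 82, nat_lit 57, nat_lit 100, nat_lit 161528502⟩, ⟨nat_lit 4, nat_lit 100, nat_lit 89, nat_lit 95, nat_lit 180697820⟩, ⟨nat_lit 19, nat_lit 100, nat_lit 41, nat_lit 87, nat_lit 36844823⟩]⟩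
noncomputable def b_V_700_400_20_1 : St := ⟨true, nat_lit 1, nat_lit 0, nat_lit 1, nat_lit 120, nat_lit 280, nat_lit 320, nat_lit 160, nat_lit 200, nat_lit 4, nat_lit 384, nat_lit 80, nat_lit 120, nat_lit 0, nat_lit 336, nat_lit 0, nat_lit 396, nat_lit 0, nat_lit 28, nat_lit 0, nat_lit 0, nat_lit 0, nat_lit 0⟩
theorem d_V_700_400_20_1 (h : EB TB.env) : Dead b_V_700_400_20_1 := chkB_sound0 h (T :=
(.spl (nat_lit 2) (nat_lit 120)
(.spl (nat_lit 0) (nat_lit 300)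
(.spl (nat_lit 6) (nat_lit 8)
(.spl (nat_lit 4) (nat_lit 160)
(.leaf p053_l62)
(.spl (nat_lit 0) (nat_lit 290)
(.leaf p053_l63)
(.trX (nat_lit 16) (nat_lit 97) (nat_lit 84) (nat_lit 100) (nat_lit 328) (.leaf p053_l64))))
(.leaf p053_l65))
(.trZ (nat_lit 0) (nat_lit 100) (nat_lit 88) (nat_lit 32) (nat_lit 8) (.trX (nat_lit 16) (nat_lit 94) (nat_lit 88) (nat_lit 100) (nat_lit 320) (.spl (nat_lit 4) (nat_lit 160)
(.leaf p053_l66)
(.spl (nat_lit 2) (nat_lit 80)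
(.trX (nat_lit 23) (nat_lit 100) (nat_lit 44) (nat_lit 82) (nat_lit 384) (.leaf p053_l67))
(.leaf p053_l68))))))
(.spl (nat_lit 4) (nat_lit 160)
(.spl (nat_lit 2) (nat_lit 240)
(.spl (nat_lit 0) (nat_lit 300)
(.leaf p053_l69)
(.leaf p053_l70))
(.trX (nat_lit 22) (nat_lit 100) (nat_lit 40) (nat_lit 100) (nat_lit 384) (.spl (nat_lit 0) (nat_lit 300)
(.leaf p053_l71)
(.trX (nat_lit 13) (nat_lit 87) (nat_lit 50) (nat_lit 100) (nat_lit 376) (.leaf p053_l72)))))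
(.spl (nat_lit 2) (nat_lit 240)
(.spl (nat_lit 0) (nat_lit 300)
(.leaf p053_l73)
(.trX (nat_lit 16) (nat_lit 94) (nat_lit 88) (nat_lit 100) (nat_lit 320) (.leaf p053_l74)))
(.spl (nat_lit 0) (nat_lit 300)
(.leaf p053_l75)
(.trX (nat_lit 13) (nat_lit 87) (nat_lit 50) (nat_lit 100) (nat_lit 376) (.trX (nat_lit 16) (nat_lit 94) (nat_lit 88) (nat_lit 100) (nat_lit 320) (.spl (nat_lit 2) (nat_lit 320)
(.spl (nat_lit 1) (nat_lit 180)
(.leaf p053_l76)
(.trX (nat_lit 19) (nat_lit 100) (nat_lit 31) (nat_lit 92) (nat_lit 392) (.leaf p053_l77)))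
(.trZ (nat_lit 9) (nat_lit 100) (nat_lit 82) (nat_lit 44) (nat_lit 16) (.spl (nat_lit 4) (nat_lit 240)
(.trX (nat_lit 22) (nat_lit 82) (nat_lit 44) (nat_lit 100) (nat_lit 384) (.leaf p053_l78))
(.trZ (nat_lit 9) (nat_lit 100) (nat_lit 82) (nat_lit 76) (nat_lit 64) (.spl (nat_lit 0) (nat_lit 310)
(.leaf p053_l79)
(.trX (nat_lit 13) (nat_lit 84) (nat_lit 55) (nat_lit 100) (nat_lit 368) (.trX (nat_lit 16) (nat_lit 91) (nat_lit 91) (nat_lit 100) (nat_lit 312) (.spl (nat_lit 0) (nat_lit 315)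
(.leaf p053_l80)
(.trX (nat_lit 13) (nat_lit 82) (nat_lit 57) (nat_lit 100) (nat_lit 364) (.trX (nat_lit 16) (nat_lit 89) (nat_lit 93) (nat_lit 100) (nat_lit 304) (.leaf p053_l81)))))))))))))))))) (by decide +kernel)
noncomputable def p053_l82 : Lf2 := ⟨nat_lit 1, nat_lit 2, [nat_lit 10, nat_lit 5, nat_lit 5, nat_lit 20], false, nat_lit 0, nat_lit 320, nat_lit 0, nat_lit 392, zbN0,
 nat_lit 0, nat_lit 0, nat_lit 0, nat_lit 0, nat_lit 0, nat_lit 0, nat_lit 0, nat_lit 0, nat_lit 0, nat_lit 0, nat_lit 0, nat_lit 0, nat_lit 0, nat_lit 0, nat_lit 0, nat_lit 0, nat_lit 0, nat_lit 0, [],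
 C1.Rw.none, C1.Rw.none,
 zbF0, []⟩
noncomputable def p053_l83 : Lf2 := ⟨nat_lit 0, nat_lit 2, [nat_lit 10, nat_lit 5, nat_lit 5, nat_lit 20], true, nat_lit 0, nat_lit 312, nat_lit 0, nat_lit 392, ⟨nat_lit 0, nat_lit 0, nat_lit 1000, nat_lit 4, nat_lit 92, nat_lit 1000, nat_lit 117, nat_lit 1000, nat_lit 2384, nat_lit 213, nat_lit 79350, nat_lit 284, nat_lit 63657179, nat_lit 0, nat_lit 0, nat_lit 990988, false, false⟩,
 nat_lit 0, nat_lit 4496, nat_lit 0, nat_lit 1570, nat_lit 2985, nat_lit 0, nat_lit 0, nat_lit 0, nat_lit 0, nat_lit 0, nat_lit 0, nat_lit 0, nat_lit 0, nat_lit 0, nat_lit 77, nat_lit 1000000, nat_lit 0, nat_lit 0, [(nat_lit 12, [(nat_lit 6, nat_lit 1000)])],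
 ⟨p053_k15, nat_lit 0, nat_lit 0, nat_lit 248, nat_lit 0, nat_lit 69130, [nat_lit 2065200001, nat_lit 412399999], [], [nat_lit 15684666690, nat_lit 16650288064, nat_lit 15072611116, nat_lit 15721462603, nat_lit 22144262735, nat_lit 22602209210, nat_lit 21805700347, nat_lit 22221551514], nat_lit 1271250, nat_lit 1271250, nat_lit 21650, nat_lit 780000, nat_lit 0, nat_lit 2203500, [nat_lit 780000, nat_lit 1435000], [nat_lit 49, nat_lit 40, nat_lit 40, nat_lit 80, nat_lit 16, nat_lit 345, nat_lit 125, nat_lit 14]⟩, C1.Rw.none,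
 ⟨nat_lit 5000, nat_lit 5245, ⟨.ofNat (nat_lit 98689), .ofNat (nat_lit 310885), .ofNat (nat_lit 141460), .ofNat (nat_lit 353656), .ofNat (nat_lit 107141), .ofNat (nat_lit 314284), .ofNat (nat_lit 149999), .ofNat (nat_lit 357141)⟩, ⟨.ofNat (nat_lit 0), .ofNat (nat_lit 576565), .ofNat (nat_lit 0), .ofNat (nat_lit 597950), .ofNat (nat_lit 0), .ofNat (nat_lit 571427), .ofNat (nat_lit 0), .ofNat (nat_lit 592856)⟩⟩, [⟨nat_lit 0, nat_lit 100, nat_lit 87, nat_lit 50, nat_lit 110265621⟩, ⟨nat_lit 4, nat_lit 100, nat_lit 100, nat_lit 95, nat_lit 76714973⟩]⟩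
noncomputable def p053_l84 : Lf2 := ⟨nat_lit 1, nat_lit 2, [nat_lit 10, nat_lit 5, nat_lit 5, nat_lit 20], false, nat_lit 0, nat_lit 336, nat_lit 0, nat_lit 396, zbN0,
 nat_lit 0, nat_lit 0, nat_lit 0, nat_lit 0, nat_lit 0, nat_lit 0, nat_lit 0, nat_lit 0, nat_lit 0, nat_lit 0, nat_lit 0, nat_lit 0, nat_lit 0, nat_lit 0, nat_lit 0, nat_lit 0, nat_lit 0, nat_lit 0, [],
 C1.Rw.none, C1.Rw.none,
 zbF0, []⟩
noncomputable def p053_l85 : Lf2 := ⟨nat_lit 1, nat_lit 7, [nat_lit 80, nat_lit 5, nat_lit 5, nat_lit 20], false, nat_lit 0, nat_lit 336, nat_lit 0, nat_lit 396, zbN0,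
 nat_lit 0, nat_lit 0, nat_lit 0, nat_lit 0, nat_lit 0, nat_lit 0, nat_lit 0, nat_lit 0, nat_lit 0, nat_lit 0, nat_lit 0, nat_lit 0, nat_lit 0, nat_lit 0, nat_lit 0, nat_lit 0, nat_lit 0, nat_lit 0, [],
 C1.Rw.none, C1.Rw.none,
 zbF0, []⟩
noncomputable def p053_l86 : Lf2 := ⟨nat_lit 0, nat_lit 7, [nat_lit 80, nat_lit 5, nat_lit 5, nat_lit 20], true, nat_lit 0, nat_lit 160, nat_lit 0, nat_lit 396, ⟨nat_lit 0, nat_lit 0, nat_lit 1000, nat_lit 4, nat_lit 97, nat_lit 823, nat_lit 65, nat_lit 1000, nat_lit 38400, nat_lit 263, nat_lit 86400, nat_lit 287, nat_lit 63307482, nat_lit 0, nat_lit 0, nat_lit 1066498, false, false⟩,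
 nat_lit 0, nat_lit 4429, nat_lit 0, nat_lit 0, nat_lit 3066, nat_lit 0, nat_lit 312, nat_lit 0, nat_lit 0, nat_lit 0, nat_lit 0, nat_lit 0, nat_lit 0, nat_lit 0, nat_lit 94, nat_lit 400000, nat_lit 0, nat_lit 0, [(nat_lit 15, [(nat_lit 5, nat_lit 1000)])],
 ⟨p053_k8, nat_lit 0, nat_lit 0, nat_lit 371, nat_lit 0, nat_lit 282484, [nat_lit 2443200000, nat_lit 153000000], [], [nat_lit 17278441677, nat_lit 18600271549, nat_lit 17490592720, nat_lit 18676358000, nat_lit 18282293118, nat_lit 19396785634, nat_lit 19882351872, nat_lit 19549124112], nat_lit 1271250, nat_lit 1271250, nat_lit 43600, nat_lit 780000, nat_lit 0, nat_lit 1100001, [nat_lit 780000, nat_lit 1762500], [nat_lit 74, nat_lit 40, nat_lit 40, nat_lit 80, nat_lit 43, nat_lit 289, nat_lit 75, nat_lit 10]⟩, C1.Rw.none,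
 ⟨nat_lit 4472, nat_lit 5000, ⟨.ofNat (nat_lit 114284), .ofNat (nat_lit 314284), .ofNat (nat_lit 157141), .ofNat (nat_lit 357141), .ofNat (nat_lit 130570), .ofNat (nat_lit 320909), .ofNat (nat_lit 173703), .ofNat (nat_lit 364042)⟩, ⟨.ofNat (nat_lit 0), .ofNat (nat_lit 299999), .ofNat (nat_lit 0), .ofNat (nat_lit 342856), .ofNat (nat_lit 0), .ofNat (nat_lit 302621), .ofNat (nat_lit 0), .ofNat (nat_lit 345754)⟩⟩, [⟨nat_lit 0, nat_lit 100, nat_lit 80, nat_lit 60, nat_lit 84851236⟩]⟩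
noncomputable def p053_l87 : Lf2 := ⟨nat_lit 0, nat_lit 7, [nat_lit 80, nat_lit 5, nat_lit 5, nat_lit 20], false, nat_lit 160, nat_lit 320, nat_lit 0, nat_lit 396, ⟨nat_lit 0, nat_lit 791, nat_lit 209, nat_lit 4, nat_lit 95, nat_lit 1000, nat_lit 185, nat_lit 209, nat_lit 4748, nat_lit 203, nat_lit 86400, nat_lit 287, nat_lit 50977945, nat_lit 4223554, nat_lit 11798501, nat_lit 3648856, false, false⟩,
 nat_lit 0, nat_lit 4972, nat_lit 0, nat_lit 3230, nat_lit 3441, nat_lit 0, nat_lit 673, nat_lit 0, nat_lit 0, nat_lit 0, nat_lit 0, nat_lit 0, nat_lit 0, nat_lit 0, nat_lit 0, nat_lit 400000, nat_lit 0, nat_lit 0, [(nat_lit 15, [(nat_lit 1, nat_lit 791), (nat_lit 5, nat_lit 209)])],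
 ⟨p053_k8, nat_lit 0, nat_lit 0, nat_lit 172, nat_lit 0, nat_lit 115694, [nat_lit 1945943400, nat_lit 1485213300], [], [nat_lit 18020203510, nat_lit 18617277513, nat_lit 17420060889, nat_lit 17959288604, nat_lit 23912427163, nat_lit 24342763378, nat_lit 22873706426, nat_lit 23347665657], nat_lit 1271250, nat_lit 1271250, nat_lit 43600, nat_lit 780000, nat_lit 1100001, nat_lit 2470000, [nat_lit 780000, nat_lit 1762500], [nat_lit 74, nat_lit 40, nat_lit 40, nat_lit 80, nat_lit 43, nat_lit 345, nat_lit 125, nat_lit 11]⟩, ⟨p053_k18, nat_lit 0, nat_lit 0, nat_lit 625, nat_lit 0, nat_lit 303171, [nat_lit 0, nat_lit 0], [], [nat_lit 0, nat_lit 0, nat_lit 0, nat_lit 0, nat_lit 0, nat_lit 0, nat_lit 0, nat_lit 0], nat_lit 1100001, nat_lit 1442500, nat_lit 43600, nat_lit 780000, nat_lit 0, nat_lit 2796750, [nat_lit 1695000, nat_lit 1271250], [nat_lit 121, nat_lit 40, nat_lit 40, nat_lit 80, nat_lit 28, nat_lit 428,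 nat_lit 200, nat_lit 11]⟩,
 ⟨nat_lit 4743, nat_lit 5000, ⟨.ofNat (nat_lit 114284), .ofNat (nat_lit 314284), .ofNat (nat_lit 157141), .ofNat (nat_lit 357141), .ofNat (nat_lit 122463), .ofNat (nat_lit 317623), .ofNat (nat_lit 165440), .ofNat (nat_lit 360599)⟩, ⟨.ofNat (nat_lit 299999), .ofNat (nat_lit 585713), .ofNat (nat_lit 342856), .ofNat (nat_lit 628570), .ofNat (nat_lit 301370), .ofNat (nat_lit 580169), .ofNat (nat_lit 344346), .ofNat (nat_lit 623145)⟩⟩, [⟨nat_lit 0, nat_lit 100, nat_lit 84, nat_lit 55, nat_lit 131457397⟩, ⟨nat_lit 4, nat_lit 100, nat_lit 97, nat_lit 98, nat_lit 132838410⟩]⟩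
noncomputable def p053_l88 : Lf2 := ⟨nat_lit 0, nat_lit 7, [nat_lit 80, nat_lit 5, nat_lit 5, nat_lit 20], true, nat_lit 160, nat_lit 312, nat_lit 0, nat_lit 396, ⟨nat_lit 0, nat_lit 132, nat_lit 868, nat_lit 4, nat_lit 99, nat_lit 1000, nat_lit 182, nat_lit 868, nat_lit 1989, nat_lit 209, nat_lit 91267, nat_lit 289, nat_lit 51078189, nat_lit 4477502, nat_lit 11444309, nat_lit 3661250, false, false⟩,
 nat_lit 0, nat_lit 4052, nat_lit 0, nat_lit 2233, nat_lit 2921, nat_lit 0, nat_lit 0, nat_lit 0, nat_lit 0, nat_lit 0, nat_lit 0, nat_lit 0, nat_lit 0, nat_lit 0, nat_lit 96, nat_lit 920800, nat_lit 0, nat_lit 0, [(nat_lit 15, [(nat_lit 1, nat_lit 132), (nat_lit 6, nat_lit 868)])],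
 ⟨p053_k19, nat_lit 0, nat_lit 0, nat_lit 216, nat_lit 0, nat_lit 267319, [nat_lit 2269306400, nat_lit 236725600], [], [nat_lit 17165906626, nat_lit 17774939458, nat_lit 17410550338, nat_lit 17959529108, nat_lit 22944537528, nat_lit 23397126626, nat_lit 22783081529, nat_lit 23119223579], nat_lit 1271250, nat_lit 1271250, nat_lit 65850, nat_lit 780000, nat_lit 1100001, nat_lit 2401500, [nat_lit 780000, nat_lit 1435000], [nat_lit 49, nat_lit 40, nat_lit 40, nat_lit 80, nat_lit 16, nat_lit 345, nat_lit 125, nat_lit 13]⟩, C1.Rw.none,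
 ⟨nat_lit 4472, nat_lit 4744, ⟨.ofNat (nat_lit 129433), .ofNat (nat_lit 317623), .ofNat (nat_lit 172410), .ofNat (nat_lit 360599), .ofNat (nat_lit 137368), .ofNat (nat_lit 320909), .ofNat (nat_lit 180501), .ofNat (nat_lit 364042)⟩, ⟨.ofNat (nat_lit 301370), .ofNat (nat_lit 566229), .ofNat (nat_lit 344346), .ofNat (nat_lit 609205), .ofNat (nat_lit 302621), .ofNat (nat_lit 560938), .ofNat (nat_lit 345754), .ofNat (nat_lit 604071)⟩⟩, [⟨nat_lit 0, nat_lit 100, nat_lit 80, nat_lit 60, nat_lit 104047037⟩, ⟨nat_lit 16, nat_lit 91, nat_lit 91, nat_lit 100, nat_lit 198065889⟩]⟩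
noncomputable def p053_l89 : Lf2 := ⟨nat_lit 0, nat_lit 7, [nat_lit 80, nat_lit 5, nat_lit 5, nat_lit 20], false, nat_lit 0, nat_lit 160, nat_lit 0, nat_lit 396, ⟨nat_lit 0, nat_lit 0, nat_lit 1000, nat_lit 4, nat_lit 177, nat_lit 804, nat_lit 64, nat_lit 1000, nat_lit 38400, nat_lit 263, nat_lit 5017, nat_lit 222, nat_lit 56016718, nat_lit 0, nat_lit 0, nat_lit 2230643, false, true⟩,
 nat_lit 0, nat_lit 5235, nat_lit 0, nat_lit 4781, nat_lit 3331, nat_lit 0, nat_lit 0, nat_lit 0, nat_lit 0, nat_lit 0, nat_lit 0, nat_lit 0, nat_lit 0, nat_lit 0, nat_lit 73, nat_lit 404800, nat_lit 0, nat_lit 0, [(nat_lit 12, [(nat_lit 5, nat_lit 992), (nat_lit 6, nat_lit 8)]), (nat_lit 15, [(nat_lit 5, nat_lit 992), (nat_lit 6, nat_lit 8)])],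
 ⟨p053_k6, nat_lit 0, nat_lit 0, nat_lit 245, nat_lit 0, nat_lit 207692, [nat_lit 2196310401, nat_lit 270588800], [], [nat_lit 21392369685, nat_lit 17922946649, nat_lit 18618721850, nat_lit 20472191334, nat_lit 16671686862, nat_lit 17772786702, nat_lit 24399826302, nat_lit 21383219406], nat_lit 1271250, nat_lit 1271250, nat_lit 780000, nat_lit 1762500, nat_lit 0, nat_lit 1100001, [nat_lit 780000, nat_lit 1762500], [nat_lit 74, nat_lit 40, nat_lit 40, nat_lit 80, nat_lit 43, nat_lit 317, nat_lit 100, nat_lit 10]⟩, ⟨p053_k18, nat_lit 0, nat_lit 0, nat_lit 614, nat_lit 0, nat_lit 490049, [nat_lit 0, nat_lit 0], [], [nat_lit 0, nat_lit 0, nat_lit 0, nat_lit 0, nat_lit 0, nat_lit 0, nat_lit 0, nat_lit 0], nat_lit 1100001, nat_lit 1442500, nat_lit 780000, nat_lit 1762500, nat_lit 0, nat_lit 2796750, [nat_lit 1695000, nat_lit 1271250], [nat_lit 121, nat_lit 40, nat_lit 40, nat_lit 80, nat_lit 28, nat_lit 456, nat_lit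 225, nat_lit 11]⟩,
 ⟨nat_lit 4472, nat_lit 5478, ⟨.ofNat (nat_lit 307418), .ofNat (nat_lit 532217), .ofNat (nat_lit 350132), .ofNat (nat_lit 574895), .ofNat (nat_lit 320909), .ofNat (nat_lit 524844), .ofNat (nat_lit 364042), .ofNat (nat_lit 567940)⟩, ⟨.negSucc (nat_lit 2834), .ofNat (nat_lit 296923), .ofNat (nat_lit 0), .ofNat (nat_lit 339637), .ofNat (nat_lit 0), .ofNat (nat_lit 302621), .ofNat (nat_lit 0), .ofNat (nat_lit 345754)⟩⟩, []⟩
noncomputable def p053_l90 : Lf2 := ⟨nat_lit 0, nat_lit 7, [nat_lit 80, nat_lit 5, nat_lit 5, nat_lit 20], false, nat_lit 0, nat_lit 160, nat_lit 0, nat_lit 160, ⟨nat_lit 790, nat_lit 210, nat_lit 0, nat_lit 6, nat_lit 271, nat_lit 210, nat_lit 64, nat_lit 0, nat_lit 0, nat_lit 0, nat_lit 0, nat_lit 0, nat_lit 45877557, nat_lit 21122443, nat_lit 0, nat_lit 3116224, false, true⟩,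
 nat_lit 22271, nat_lit 0, nat_lit 0, nat_lit 0, nat_lit 5597, nat_lit 7423, nat_lit 1307, nat_lit 0, nat_lit 0, nat_lit 1415, nat_lit 0, nat_lit 0, nat_lit 0, nat_lit 0, nat_lit 0, nat_lit 84000, nat_lit 0, nat_lit 0, [(nat_lit 12, [(nat_lit 1, nat_lit 210)]), (nat_lit 15, [(nat_lit 1, nat_lit 210)])],
 ⟨p053_k7, nat_lit 0, nat_lit 0, nat_lit 268, nat_lit 0, nat_lit 207692, [nat_lit 3019794000, nat_lit 4244228001, nat_lit 6857940000], [], [nat_lit 23417011413, nat_lit 25608176733, nat_lit 32985746658, nat_lit 35429806320, nat_lit 21381679065, nat_lit 23213931074, nat_lit 28257948257, nat_lit 29842374696], nat_lit 1271250, nat_lit 1271250, nat_lit 1271250, nat_lit 1271250, nat_lit 0, nat_lit 1100001, [nat_lit 780000, nat_lit 1100000, nat_lit 1785000], [nat_lit 36, nat_lit 40, nat_lit 40, nat_lit 80, nat_lit 7, nat_lit 249, nat_lit 40, nat_lit 8]⟩, ⟨p053_k9, nat_lit 0, nat_lit 0, nat_lit 580, nat_lit 0, nat_lit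 490049, [nat_lit 6294720000, nat_lit 7775180000, nat_lit 11105820000], [], [nat_lit 33504421192, nat_lit 33359166520, nat_lit 36792964718, nat_lit 36457433177, nat_lit 28487920984, nat_lit 29657709944, nat_lit 30935024173, nat_lit 30469275488], nat_lit 1100001, nat_lit 1442500, nat_lit 1271250, nat_lit 1271250, nat_lit 0, nat_lit 1100001, [nat_lit 1695000, nat_lit 1271250, nat_lit 1271250], [nat_lit 92, nat_lit 40, nat_lit 40, nat_lit 80, nat_lit 32, nat_lit 428, nat_lit 200, nat_lit 10]⟩,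
 ⟨nat_lit 4472, nat_lit 5478, ⟨.ofNat (nat_lit 532217), .ofNat (nat_lit 801872), .ofNat (nat_lit 574895), .ofNat (nat_lit 844520), .ofNat (nat_lit 524844), .ofNat (nat_lit 769461), .ofNat (nat_lit 567940), .ofNat (nat_lit 812527)⟩, ⟨.negSucc (nat_lit 2834), .ofNat (nat_lit 296923), .ofNat (nat_lit 0), .ofNat (nat_lit 339637), .ofNat (nat_lit 0), .ofNat (nat_lit 302621), .ofNat (nat_lit 0), .ofNat (nat_lit 345754)⟩⟩, []⟩
noncomputable def p053_l91 : Lf2 := ⟨nat_lit 0, nat_lit 7, [nat_lit 80, nat_lit 5, nat_lit 5, nat_lit 20], false, nat_lit 0, nat_lit 160, nat_lit 160, nat_lit 384, ⟨nat_lit 274, nat_lit 726, nat_lit 0, nat_lit 6, nat_lit 271, nat_lit 726, nat_lit 64, nat_lit 0, nat_lit 0, nat_lit 0, nat_lit 0, nat_lit 0, nat_lit 45877557, nat_lit 21122443, nat_lit 0, nat_lit 3116224, false, true⟩,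
 nat_lit 7811, nat_lit 0, nat_lit 0, nat_lit 0, nat_lit 4970, nat_lit 2603, nat_lit 822, nat_lit 0, nat_lit 0, nat_lit 495, nat_lit 0, nat_lit 0, nat_lit 0, nat_lit 0, nat_lit 0, nat_lit 290400, nat_lit 0, nat_lit 0, [(nat_lit 12, [(nat_lit 1, nat_lit 726)]), (nat_lit 15, [(nat_lit 1, nat_lit 726)])],
 ⟨p053_k7, nat_lit 0, nat_lit 0, nat_lit 268, nat_lit 0, nat_lit 207692, [nat_lit 2375516400, nat_lit 3153816800, nat_lit 4130675200], [], [nat_lit 21791338520, nat_lit 23948643320, nat_lit 31463176976, nat_lit 33777652792, nat_lit 20300671040, nat_lit 22061556720, nat_lit 26948558545, nat_lit 28929166081], nat_lit 1271250, nat_lit 1271250, nat_lit 1271250, nat_lit 1271250, nat_lit 0, nat_lit 1100001, [nat_lit 780000, nat_lit 1100000, nat_lit 1785000], [nat_lit 36, nat_lit 40, nat_lit 40, nat_lit 80, nat_lit 7, nat_lit 249, nat_lit 40, nat_lit 8]⟩, ⟨p053_k9, nat_lit 0, nat_lit 0, nat_lit 428, nat_lit 0, nat_lit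 490049, [nat_lit 2183232000, nat_lit 2696708000, nat_lit 3851892000], [], [nat_lit 8684138439, nat_lit 8627996387, nat_lit 9964984868, nat_lit 9837046815, nat_lit 9851222613, nat_lit 9756921458, nat_lit 10926390547, nat_lit 10738851203], nat_lit 1100001, nat_lit 1442500, nat_lit 1271250, nat_lit 1271250, nat_lit 1271250, nat_lit 1271250, [nat_lit 1695000, nat_lit 1271250, nat_lit 1271250], [nat_lit 92, nat_lit 40, nat_lit 40, nat_lit 80, nat_lit 32, nat_lit 483, nat_lit 250, nat_lit 11]⟩,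
 ⟨nat_lit 4472, nat_lit 5478, ⟨.ofNat (nat_lit 532217), .ofNat (nat_lit 801872), .ofNat (nat_lit 574895), .ofNat (nat_lit 844520), .ofNat (nat_lit 524844), .ofNat (nat_lit 769461), .ofNat (nat_lit 567940), .ofNat (nat_lit 812527)⟩, ⟨.negSucc (nat_lit 2834), .ofNat (nat_lit 296923), .ofNat (nat_lit 0), .ofNat (nat_lit 339637), .ofNat (nat_lit 0), .ofNat (nat_lit 302621), .ofNat (nat_lit 0), .ofNat (nat_lit 345754)⟩⟩, [⟨nat_lit 22, nat_lit 89, nat_lit 100, nat_lit 88, nat_lit 109508494⟩]⟩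
noncomputable def p053_l92 : Lf2 := ⟨nat_lit 0, nat_lit 7, [nat_lit 80, nat_lit 5, nat_lit 5, nat_lit 20], false, nat_lit 160, nat_lit 336, nat_lit 0, nat_lit 396, ⟨nat_lit 0, nat_lit 1000, nat_lit 0, nat_lit 4, nat_lit 177, nat_lit 1000, nat_lit 191, nat_lit 0, nat_lit 0, nat_lit 0, nat_lit 0, nat_lit 0, nat_lit 44755881, nat_lit 10443452, nat_lit 11800667, nat_lit 4652753, false, true⟩,
 nat_lit 0, nat_lit 7138, nat_lit 0, nat_lit 0, nat_lit 4542, nat_lit 0, nat_lit 0, nat_lit 0, nat_lit 0, nat_lit 0, nat_lit 0, nat_lit 0, nat_lit 0, nat_lit 0, nat_lit 0, nat_lit 904000, nat_lit 0, nat_lit 0, [(nat_lit 12, [(nat_lit 1, nat_lit 160), (nat_lit 2, nat_lit 840)]), (nat_lit 15, [(nat_lit 1, nat_lit 160), (nat_lit 2, nat_lit 840)])],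
 ⟨p053_k20, nat_lit 0, nat_lit 0, nat_lit 159, nat_lit 0, nat_lit 207692, [nat_lit 2292512001, nat_lit 2070368000, nat_lit 856176000], [], [nat_lit 15802969609, nat_lit 18251050929, nat_lit 22163328945, nat_lit 20872066817, nat_lit 22995888870, nat_lit 24919728340, nat_lit 24928912455, nat_lit 26874669620], nat_lit 1271250, nat_lit 1271250, nat_lit 780000, nat_lit 1762500, nat_lit 1271250, nat_lit 1271250, [nat_lit 780000, nat_lit 1435000, nat_lit 1271250], [nat_lit 18, nat_lit 40, nat_lit 40, nat_lit 80, nat_lit 2, nat_lit 373, nat_lit 150, nat_lit 12]⟩, ⟨p053_k21, nat_lit 0, nat_lit 0, nat_lit 632, nat_lit 0, nat_lit 490049, [nat_lit 0, nat_lit 0, nat_lit 0], [], [nat_lit 0, nat_lit 0, nat_lit 0, nat_lit 0, nat_lit 0, nat_lit 0, nat_lit 0, nat_lit 0], nat_lit 1100001, nat_lit 1442500, nat_lit 780000, nat_lit 1762500, nat_lit 0, nat_lit 2796750, [nat_lit 1695000, nat_lit 1271250, nat_lit 1271250], [nat_lit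 62, nat_lit 40, nat_lit 40, nat_lit 80, nat_lit 58, nat_lit 456, nat_lit 225, nat_lit 11]⟩,
 ⟨nat_lit 4472, nat_lit 5478, ⟨.ofNat (nat_lit 307418), .ofNat (nat_lit 532217), .ofNat (nat_lit 350132), .ofNat (nat_lit 574895), .ofNat (nat_lit 320909), .ofNat (nat_lit 524844), .ofNat (nat_lit 364042), .ofNat (nat_lit 567940)⟩, ⟨.ofNat (nat_lit 296923), .ofNat (nat_lit 626629), .ofNat (nat_lit 339637), .ofNat (nat_lit 669343), .ofNat (nat_lit 302621), .ofNat (nat_lit 601725), .ofNat (nat_lit 345754), .ofNat (nat_lit 644858)⟩⟩, [⟨nat_lit 4, nat_lit 100, nat_lit 100, nat_lit 100, nat_lit 107347332⟩]⟩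
noncomputable def p053_l93 : Lf2 := ⟨nat_lit 0, nat_lit 7, [nat_lit 80, nat_lit 5, nat_lit 5, nat_lit 20], true, nat_lit 160, nat_lit 336, nat_lit 0, nat_lit 396, ⟨nat_lit 0, nat_lit 1000, nat_lit 0, nat_lit 6, nat_lit 250, nat_lit 1000, nat_lit 192, nat_lit 0, nat_lit 0, nat_lit 0, nat_lit 0, nat_lit 0, nat_lit 39288442, nat_lit 16724750, nat_lit 10986808, nat_lit 5155386, false, true⟩,
 nat_lit 0, nat_lit 6399, nat_lit 0, nat_lit 1247, nat_lit 4071, nat_lit 0, nat_lit 0, nat_lit 0, nat_lit 0, nat_lit 0, nat_lit 0, nat_lit 0, nat_lit 0, nat_lit 0, nat_lit 0, nat_lit 400000, nat_lit 0, nat_lit 0, [(nat_lit 12, [(nat_lit 1, nat_lit 1000)])],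
 ⟨p053_k7, nat_lit 0, nat_lit 0, nat_lit 73, nat_lit 0, nat_lit 78719, [nat_lit 2033400000, nat_lit 2574800000, nat_lit 2711866667], [], [nat_lit 18890361568, nat_lit 19986079328, nat_lit 22689019712, nat_lit 23595459500, nat_lit 25294371197, nat_lit 26049841894, nat_lit 27982543013, nat_lit 28671831759], nat_lit 1271250, nat_lit 1271250, nat_lit 1271250, nat_lit 1271250, nat_lit 1100001, nat_lit 2607000, [nat_lit 780000, nat_lit 1100000, nat_lit 1785000], [nat_lit 36, nat_lit 40, nat_lit 40, nat_lit 80, nat_lit 7, nat_lit 317, nat_lit 100, nat_lit 9]⟩, C1.Rw.none,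
 ⟨nat_lit 5000, nat_lit 5478, ⟨.ofNat (nat_lit 532217), .ofNat (nat_lit 682065), .ofNat (nat_lit 574920), .ofNat (nat_lit 724760), .ofNat (nat_lit 528570), .ofNat (nat_lit 671409), .ofNat (nat_lit 571415), .ofNat (nat_lit 714246)⟩, ⟨.ofNat (nat_lit 296923), .ofNat (nat_lit 626629), .ofNat (nat_lit 339637), .ofNat (nat_lit 669336), .ofNat (nat_lit 299999), .ofNat (nat_lit 614284), .ofNat (nat_lit 342856), .ofNat (nat_lit 657134)⟩⟩, [⟨nat_lit 4, nat_lit 94, nat_lit 100, nat_lit 97, nat_lit 98405425⟩]⟩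
noncomputable def p053_l94 : Lf2 := ⟨nat_lit 0, nat_lit 7, [nat_lit 80, nat_lit 5, nat_lit 5, nat_lit 20], false, nat_lit 160, nat_lit 320, nat_lit 0, nat_lit 396, ⟨nat_lit 0, nat_lit 1000, nat_lit 0, nat_lit 6, nat_lit 247, nat_lit 1000, nat_lit 185, nat_lit 0, nat_lit 0, nat_lit 0, nat_lit 0, nat_lit 0, nat_lit 39950542, nat_lit 16609471, nat_lit 10439987, nat_lit 5085839, false, true⟩,
 nat_lit 0, nat_lit 5549, nat_lit 0, nat_lit 0, nat_lit 3841, nat_lit 0, nat_lit 349, nat_lit 0, nat_lit 0, nat_lit 0, nat_lit 0, nat_lit 0, nat_lit 0, nat_lit 0, nat_lit 0, nat_lit 493600, nat_lit 0, nat_lit 0, [(nat_lit 15, [(nat_lit 1, nat_lit 844), (nat_lit 2, nat_lit 156)])],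
 ⟨p053_k8, nat_lit 0, nat_lit 0, nat_lit 130, nat_lit 0, nat_lit 187010, [nat_lit 2207323201, nat_lit 2013784800], [], [nat_lit 21219516822, nat_lit 22145825232, nat_lit 24281628946, nat_lit 25054823896, nat_lit 25716009548, nat_lit 26391930756, nat_lit 27931824322, nat_lit 28501519762], nat_lit 1271250, nat_lit 1271250, nat_lit 1271250, nat_lit 1271250, nat_lit 1100001, nat_lit 2470000, [nat_lit 780000, nat_lit 1762500], [nat_lit 74, nat_lit 40, nat_lit 40, nat_lit 80, nat_lit 43, nat_lit 317, nat_lit 100, nat_lit 9]⟩, ⟨p053_k18, nat_lit 0, nat_lit 0, nat_lit 576, nat_lit 0, nat_lit 490049, [nat_lit 0, nat_lit 0], [], [nat_lit 0, nat_lit 0, nat_lit 0, nat_lit 0, nat_lit 0, nat_lit 0, nat_lit 0, nat_lit 0], nat_lit 1100001, nat_lit 1442500, nat_lit 1271250, nat_lit 1271250, nat_lit 0, nat_lit 2796750, [nat_lit 1695000, nat_lit 1271250], [nat_lit 121, nat_lit 40, nat_lit 40, nat_lit 80, nat_lit 28, nat_lit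 483, nat_lit 250, nat_lit 11]⟩,
 ⟨nat_lit 4472, nat_lit 5000, ⟨.ofNat (nat_lit 528570), .ofNat (nat_lit 671427), .ofNat (nat_lit 571423), .ofNat (nat_lit 714270), .ofNat (nat_lit 524844), .ofNat (nat_lit 660800), .ofNat (nat_lit 567973), .ofNat (nat_lit 703919)⟩, ⟨.ofNat (nat_lit 299999), .ofNat (nat_lit 585713), .ofNat (nat_lit 342856), .ofNat (nat_lit 628570), .ofNat (nat_lit 302621), .ofNat (nat_lit 574534), .ofNat (nat_lit 345754), .ofNat (nat_lit 617667)⟩⟩, [⟨nat_lit 16, nat_lit 93, nat_lit 100, nat_lit 97, nat_lit 80824520⟩]⟩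
noncomputable def p053_l95 : Lf2 := ⟨nat_lit 0, nat_lit 7, [nat_lit 80, nat_lit 5, nat_lit 5, nat_lit 20], false, nat_lit 160, nat_lit 336, nat_lit 16, nat_lit 396, ⟨nat_lit 255, nat_lit 745, nat_lit 0, nat_lit 8, nat_lit 303, nat_lit 745, nat_lit 192, nat_lit 0, nat_lit 0, nat_lit 0, nat_lit 0, nat_lit 0, nat_lit 35497570, nat_lit 21287382, nat_lit 10215048, nat_lit 5324255, true, true⟩,
 nat_lit 7116, nat_lit 0, nat_lit 0, nat_lit 5770, nat_lit 4182, nat_lit 2371, nat_lit 664, nat_lit 0, nat_lit 0, nat_lit 514, nat_lit 0, nat_lit 0, nat_lit 0, nat_lit 0, nat_lit 0, nat_lit 298000, nat_lit 0, nat_lit 0, [(nat_lit 12, [(nat_lit 1, nat_lit 745)])],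
 ⟨p053_k7, nat_lit 0, nat_lit 0, nat_lit 83, nat_lit 0, nat_lit 51528, [nat_lit 2351793000, nat_lit 3113666000, nat_lit 4032290667], [], [nat_lit 23888454907, nat_lit 24683797807, nat_lit 27050353789, nat_lit 27731837998, nat_lit 28581717242, nat_lit 29216575912, nat_lit 31302503243, nat_lit 31876426188], nat_lit 1271250, nat_lit 1271250, nat_lit 1271250, nat_lit 1271250, nat_lit 1100001, nat_lit 2607000, [nat_lit 780000, nat_lit 1100000, nat_lit 1785000], [nat_lit 36, nat_lit 40, nat_lit 40, nat_lit 80, nat_lit 7, nat_lit 317, nat_lit 100, nat_lit 9]⟩, ⟨p053_k9, nat_lit 0, nat_lit 0, nat_lit 386, nat_lit 0, nat_lit 121579, [nat_lit 2031840000, nat_lit 2509710000, nat_lit 3584790000], [], [nat_lit 10123294774, nat_lit 10108027558, nat_lit 11033735019, nat_lit 10922643321, nat_lit 9814205809, nat_lit 9672034147, nat_lit 10357738347, nat_lit 10171036824], nat_lit 1100001, nat_lit 1442500, nat_lit 1271250, nat_lit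 1271250, nat_lit 88400, nat_lit 2829150, [nat_lit 1695000, nat_lit 1271250, nat_lit 1271250], [nat_lit 92, nat_lit 40, nat_lit 40, nat_lit 80, nat_lit 32, nat_lit 483, nat_lit 250, nat_lit 11]⟩,
 ⟨nat_lit 5000, nat_lit 5478, ⟨.ofNat (nat_lit 682065), .ofNat (nat_lit 801938), .ofNat (nat_lit 724760), .ofNat (nat_lit 844633), .ofNat (nat_lit 671409), .ofNat (nat_lit 785675), .ofNat (nat_lit 714246), .ofNat (nat_lit 828512)⟩, ⟨.ofNat (nat_lit 296923), .ofNat (nat_lit 626629), .ofNat (nat_lit 339637), .ofNat (nat_lit 669336), .ofNat (nat_lit 299999), .ofNat (nat_lit 614284), .ofNat (nat_lit 342856), .ofNat (nat_lit 657134)⟩⟩, [⟨nat_lit 13, nat_lit 90, nat_lit 54, nat_lit 100, nat_lit 99374940⟩, ⟨nat_lit 4, nat_lit 94, nat_lit 100, nat_lit 97, nat_lit 151170560⟩, ⟨nat_lit 7, nat_lit 41, nat_lit 100, nat_lit 87, nat_lit 49572401⟩]⟩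
noncomputable def p053_l96 : Lf2 := ⟨nat_lit 0, nat_lit 7, [nat_lit 80, nat_lit 5, nat_lit 5, nat_lit 20], false, nat_lit 160, nat_lit 240, nat_lit 16, nat_lit 384, ⟨nat_lit 147, nat_lit 853, nat_lit 0, nat_lit 8, nat_lit 295, nat_lit 853, nat_lit 157, nat_lit 0, nat_lit 0, nat_lit 0, nat_lit 0, nat_lit 0, nat_lit 37829649, nat_lit 21376469, nat_lit 7793882, nat_lit 5028241, true, true⟩,
 nat_lit 4393, nat_lit 1181, nat_lit 0, nat_lit 0, nat_lit 3858, nat_lit 1464, nat_lit 560, nat_lit 0, nat_lit 0, nat_lit 234, nat_lit 0, nat_lit 0, nat_lit 0, nat_lit 0, nat_lit 0, nat_lit 341200, nat_lit 0, nat_lit 0, [(nat_lit 15, [(nat_lit 1, nat_lit 853)])],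
 ⟨p053_k10, nat_lit 0, nat_lit 0, nat_lit 150, nat_lit 0, nat_lit 187010, [nat_lit 2205684600, nat_lit 2682426400, nat_lit 3158579600], [], [nat_lit 24037668860, nat_lit 24811967960, nat_lit 26585172397, nat_lit 27336872234, nat_lit 25470725536, nat_lit 26159314760, nat_lit 27932519197, nat_lit 28596942544], nat_lit 1271250, nat_lit 1271250, nat_lit 1271250, nat_lit 1271250, nat_lit 1100001, nat_lit 1785000, [nat_lit 780000, nat_lit 1100000, nat_lit 1785000], [nat_lit 36, nat_lit 40, nat_lit 40, nat_lit 80, nat_lit 7, nat_lit 272, nat_lit 60, nat_lit 7]⟩, ⟨p053_k9, nat_lit 0, nat_lit 0, nat_lit 557, nat_lit 0, nat_lit 490049, [nat_lit 1171296000, nat_lit 1446774000, nat_lit 2066526000], [], [nat_lit 6242566519, nat_lit 6167722238, nat_lit 6558098862, nat_lit 6457219025, nat_lit 5513177771, nat_lit 5416392021, nat_lit 5868732720, nat_lit 5750273343], nat_lit 1100001, nat_lit 1442500, nat_lit 1271250, nat_lit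 1271250, nat_lit 88400, nat_lit 2742600, [nat_lit 1695000, nat_lit 1271250, nat_lit 1271250], [nat_lit 92, nat_lit 40, nat_lit 40, nat_lit 80, nat_lit 32, nat_lit 483, nat_lit 250, nat_lit 11]⟩,
 ⟨nat_lit 4472, nat_lit 5000, ⟨.ofNat (nat_lit 671427), .ofNat (nat_lit 771425), .ofNat (nat_lit 714270), .ofNat (nat_lit 814263), .ofNat (nat_lit 660800), .ofNat (nat_lit 755968), .ofNat (nat_lit 703919), .ofNat (nat_lit 799081)⟩, ⟨.ofNat (nat_lit 299999), .ofNat (nat_lit 442856), .ofNat (nat_lit 342856), .ofNat (nat_lit 485713), .ofNat (nat_lit 302621), .ofNat (nat_lit 438578), .ofNat (nat_lit 345754), .ofNat (nat_lit 481711)⟩⟩, [⟨nat_lit 13, nat_lit 84, nat_lit 63, nat_lit 100, nat_lit 148176027⟩, ⟨nat_lit 22, nat_lit 67, nat_lit 74, nat_lit 100, nat_lit 29705371⟩]⟩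
noncomputable def p053_l97 : Lf2 := ⟨nat_lit 0, nat_lit 7, [nat_lit 80, nat_lit 5, nat_lit 5, nat_lit 20], false, nat_lit 240, nat_lit 320, nat_lit 64, nat_lit 396, ⟨nat_lit 0, nat_lit 1000, nat_lit 0, nat_lit 8, nat_lit 295, nat_lit 1000, nat_lit 213, nat_lit 0, nat_lit 0, nat_lit 0, nat_lit 0, nat_lit 0, nat_lit 35027705, nat_lit 20114590, nat_lit 11857705, nat_lit 5439939, true, true⟩,
 nat_lit 0, nat_lit 5087, nat_lit 0, nat_lit 231, nat_lit 3521, nat_lit 0, nat_lit 347, nat_lit 0, nat_lit 0, nat_lit 0, nat_lit 0, nat_lit 0, nat_lit 0, nat_lit 0, nat_lit 0, nat_lit 400000, nat_lit 0, nat_lit 0, [(nat_lit 15, [(nat_lit 1, nat_lit 1000)])],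
 ⟨p053_k10, nat_lit 0, nat_lit 0, nat_lit 141, nat_lit 0, nat_lit 187010, [nat_lit 2020200000, nat_lit 2336800001, nat_lit 2343200000], [], [nat_lit 25934347982, nat_lit 26595137030, nat_lit 28110772482, nat_lit 28707134829, nat_lit 28120398276, nat_lit 28727959989, nat_lit 30197873664, nat_lit 30755802933], nat_lit 1271250, nat_lit 1271250, nat_lit 1271250, nat_lit 1271250, nat_lit 1271250, nat_lit 1271250, [nat_lit 780000, nat_lit 1100000, nat_lit 1785000], [nat_lit 36, nat_lit 40, nat_lit 40, nat_lit 80, nat_lit 7, nat_lit 203, nat_lit 0, nat_lit 5]⟩, ⟨p053_k9, nat_lit 0, nat_lit 0, nat_lit 482, nat_lit 0, nat_lit 490049, [nat_lit 0, nat_lit 0, nat_lit 0], [], [nat_lit 0, nat_lit 0, nat_lit 0, nat_lit 0, nat_lit 0, nat_lit 0, nat_lit 0, nat_lit 0], nat_lit 1100001, nat_lit 1442500, nat_lit 1271250, nat_lit 1271250, nat_lit 382400, nat_lit 2926350, [nat_lit 1695000, nat_lit 1271250, nat_lit 1271250], [nat_lit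 92, nat_lit 40, nat_lit 40, nat_lit 80, nat_lit 32, nat_lit 483, nat_lit 250, nat_lit 11]⟩,
 ⟨nat_lit 4472, nat_lit 5000, ⟨.ofNat (nat_lit 671427), .ofNat (nat_lit 771425), .ofNat (nat_lit 714270), .ofNat (nat_lit 814263), .ofNat (nat_lit 660800), .ofNat (nat_lit 755968), .ofNat (nat_lit 703919), .ofNat (nat_lit 799081)⟩, ⟨.ofNat (nat_lit 442856), .ofNat (nat_lit 585713), .ofNat (nat_lit 485713), .ofNat (nat_lit 628570), .ofNat (nat_lit 438578), .ofNat (nat_lit 574534), .ofNat (nat_lit 481711), .ofNat (nat_lit 617667)⟩⟩, [⟨nat_lit 13, nat_lit 84, nat_lit 63, nat_lit 100, nat_lit 180360732⟩, ⟨nat_lit 4, nat_lit 100, nat_lit 93, nat_lit 97, nat_lit 131284572⟩]⟩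
noncomputable def b_V_700_400_20_2 : St := ⟨true, nat_lit 1, nat_lit 1, nat_lit 1, nat_lit 120, nat_lit 280, nat_lit 320, nat_lit 160, nat_lit 200, nat_lit 4, nat_lit 384, nat_lit 80, nat_lit 120, nat_lit 0, nat_lit 336, nat_lit 0, nat_lit 396, nat_lit 0, nat_lit 28, nat_lit 0, nat_lit 0, nat_lit 0, nat_lit 0⟩
theorem d_V_700_400_20_2 (h : EB TB.env) : Dead b_V_700_400_20_2 := chkB_sound0 h (T :=
(.spl (nat_lit 2) (nat_lit 120)
(.spl (nat_lit 0) (nat_lit 300)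
(.spl (nat_lit 6) (nat_lit 8)
(.spl (nat_lit 3) (nat_lit 100)
(.trX (nat_lit 16) (nat_lit 100) (nat_lit 88) (nat_lit 94) (nat_lit 320) (.trX (nat_lit 19) (nat_lit 100) (nat_lit 32) (nat_lit 88) (nat_lit 392) (.spl (nat_lit 0) (nat_lit 290)
(.leaf p053_l82)
(.trX (nat_lit 16) (nat_lit 100) (nat_lit 94) (nat_lit 97) (nat_lit 312) (.leaf p053_l83)))))
(.leaf p053_l84))
(.leaf p053_l85))
(.trZ (nat_lit 0) (nat_lit 100) (nat_lit 88) (nat_lit 32) (nat_lit 8) (.trX (nat_lit 16) (nat_lit 94) (nat_lit 88) (nat_lit 100) (nat_lit 320) (.spl (nat_lit 4) (nat_lit 160)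
(.leaf p053_l86)
(.spl (nat_lit 0) (nat_lit 310)
(.leaf p053_l87)
(.trZ (nat_lit 0) (nat_lit 100) (nat_lit 85) (nat_lit 38) (nat_lit 12) (.trX (nat_lit 16) (nat_lit 91) (nat_lit 91) (nat_lit 100) (nat_lit 312) (.leaf p053_l88))))))))
(.spl (nat_lit 4) (nat_lit 160)
(.spl (nat_lit 2) (nat_lit 240)
(.leaf p053_l89)
(.trX (nat_lit 22) (nat_lit 100) (nat_lit 40) (nat_lit 100) (nat_lit 384) (.spl (nat_lit 5) (nat_lit 160)
(.leaf p053_l90)
(.leaf p053_l91))))
(.spl (nat_lit 2) (nat_lit 240)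
(.leaf p053_l92)
(.spl (nat_lit 2) (nat_lit 320)
(.spl (nat_lit 0) (nat_lit 300)
(.leaf p053_l93)
(.trX (nat_lit 16) (nat_lit 94) (nat_lit 88) (nat_lit 100) (nat_lit 320) (.leaf p053_l94)))
(.trZ (nat_lit 9) (nat_lit 100) (nat_lit 82) (nat_lit 44) (nat_lit 16) (.spl (nat_lit 0) (nat_lit 300)
(.leaf p053_l95)
(.trX (nat_lit 13) (nat_lit 87) (nat_lit 50) (nat_lit 100) (nat_lit 376) (.trX (nat_lit 16) (nat_lit 94) (nat_lit 88) (nat_lit 100) (nat_lit 320) (.spl (nat_lit 4) (nat_lit 240)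
(.trX (nat_lit 22) (nat_lit 82) (nat_lit 44) (nat_lit 100) (nat_lit 384) (.leaf p053_l96))
(.trZ (nat_lit 9) (nat_lit 100) (nat_lit 82) (nat_lit 76) (nat_lit 64) (.leaf p053_l97)))))))))))) (by decide +kernel)
noncomputable def p053_l98 : Lf2 := ⟨nat_lit 0, nat_lit 7, [nat_lit 80, nat_lit 5, nat_lit 5, nat_lit 20], true, nat_lit 0, nat_lit 336, nat_lit 0, nat_lit 396, ⟨nat_lit 0, nat_lit 1000, nat_lit 0, nat_lit 4, nat_lit 107, nat_lit 1000, nat_lit 127, nat_lit 0, nat_lit 0, nat_lit 0, nat_lit 0, nat_lit 0, nat_lit 0, nat_lit 0, nat_lit 0, nat_lit 5000000, false, false⟩,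
 nat_lit 0, nat_lit 8279, nat_lit 0, nat_lit 92, nat_lit 5268, nat_lit 0, nat_lit 88, nat_lit 0, nat_lit 0, nat_lit 0, nat_lit 0, nat_lit 0, nat_lit 0, nat_lit 0, nat_lit 0, nat_lit 400000, nat_lit 0, nat_lit 0, [(nat_lit 12, [(nat_lit 1, nat_lit 1000)]), (nat_lit 15, [(nat_lit 1, nat_lit 1000)])],
 ⟨p053_k7, nat_lit 0, nat_lit 0, nat_lit 387, nat_lit 0, nat_lit 317292, [nat_lit 2033400000, nat_lit 2574800000, nat_lit 2711866667], [], [nat_lit 39760662012, nat_lit 34112122764, nat_lit 20114103819, nat_lit 22316277739, nat_lit 27442229484, nat_lit 30118205233, nat_lit 35494480132, nat_lit 30980743943], nat_lit 1271250, nat_lit 1271250, nat_lit 21650, nat_lit 1100001, nat_lit 0, nat_lit 2373000, [nat_lit 780000, nat_lit 1100000, nat_lit 1785000], [nat_lit 36, nat_lit 40, nat_lit 40, nat_lit 80, nat_lit 7, nat_lit 345, nat_lit 125, nat_lit 12]⟩, C1.Rw.none,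
 ⟨nat_lit 4472, nat_lit 5478, ⟨.ofNat (nat_lit 90113), .ofNat (nat_lit 382351), .ofNat (nat_lit 132827), .ofNat (nat_lit 425065), .ofNat (nat_lit 123773), .ofNat (nat_lit 388887), .ofNat (nat_lit 166906), .ofNat (nat_lit 432020)⟩, ⟨.negSucc (nat_lit 2834), .ofNat (nat_lit 626629), .ofNat (nat_lit 0), .ofNat (nat_lit 669343), .ofNat (nat_lit 0), .ofNat (nat_lit 601725), .ofNat (nat_lit 0), .ofNat (nat_lit 644858)⟩⟩, []⟩
noncomputable def p053_l99 : Lf2 := ⟨nat_lit 0, nat_lit 7, [nat_lit 80, nat_lit 5, nat_lit 5, nat_lit 20], true, nat_lit 0, nat_lit 336, nat_lit 0, nat_lit 396, ⟨nat_lit 0, nat_lit 1000, nat_lit 0, nat_lit 4, nat_lit 244, nat_lit 1000, nat_lit 128, nat_lit 0, nat_lit 0, nat_lit 0, nat_lit 0, nat_lit 0, nat_lit 0, nat_lit 0, nat_lit 0, nat_lit 5000000, false, true⟩,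
 nat_lit 0, nat_lit 6261, nat_lit 0, nat_lit 3732, nat_lit 3984, nat_lit 0, nat_lit 320, nat_lit 0, nat_lit 0, nat_lit 0, nat_lit 0, nat_lit 0, nat_lit 0, nat_lit 0, nat_lit 0, nat_lit 400000, nat_lit 0, nat_lit 0, [(nat_lit 12, [(nat_lit 1, nat_lit 1000)])],
 ⟨p053_k7, nat_lit 0, nat_lit 0, nat_lit 200, nat_lit 0, nat_lit 78719, [nat_lit 2033400000, nat_lit 2574800000, nat_lit 2711866667], [], [nat_lit 30679190560, nat_lit 28572698368, nat_lit 29411424491, nat_lit 30125197244, nat_lit 33242446535, nat_lit 31470489229, nat_lit 31195267592, nat_lit 31652921965], nat_lit 1271250, nat_lit 1271250, nat_lit 1271250, nat_lit 1271250, nat_lit 0, nat_lit 2373000, [nat_lit 780000, nat_lit 1100000, nat_lit 1785000], [nat_lit 36, nat_lit 40, nat_lit 40, nat_lit 80, nat_lit 7, nat_lit 428, nat_lit 200, nat_lit 14]⟩, C1.Rw.none,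
 ⟨nat_lit 5000, nat_lit 5478, ⟨.ofNat (nat_lit 382351), .ofNat (nat_lit 801938), .ofNat (nat_lit 425065), .ofNat (nat_lit 844633), .ofNat (nat_lit 385713), .ofNat (nat_lit 785675), .ofNat (nat_lit 428570), .ofNat (nat_lit 828512)⟩, ⟨.negSucc (nat_lit 2832), .ofNat (nat_lit 626629), .ofNat (nat_lit 0), .ofNat (nat_lit 669336), .ofNat (nat_lit 0), .ofNat (nat_lit 614284), .ofNat (nat_lit 0), .ofNat (nat_lit 657134)⟩⟩, [⟨nat_lit 13, nat_lit 90, nat_lit 54, nat_lit 100, nat_lit 51629495⟩, ⟨nat_lit 16, nat_lit 100, nat_lit 94, nat_lit 97, nat_lit 81676874⟩]⟩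
noncomputable def p053_l100 : Lf2 := ⟨nat_lit 0, nat_lit 7, [nat_lit 80, nat_lit 5, nat_lit 5, nat_lit 20], true, nat_lit 0, nat_lit 320, nat_lit 0, nat_lit 396, ⟨nat_lit 0, nat_lit 1000, nat_lit 0, nat_lit 4, nat_lit 239, nat_lit 1000, nat_lit 120, nat_lit 0, nat_lit 0, nat_lit 0, nat_lit 0, nat_lit 0, nat_lit 0, nat_lit 0, nat_lit 0, nat_lit 5000000, false, true⟩,
 nat_lit 0, nat_lit 5450, nat_lit 0, nat_lit 0, nat_lit 3773, nat_lit 0, nat_lit 392, nat_lit 0, nat_lit 0, nat_lit 0, nat_lit 0, nat_lit 0, nat_lit 0, nat_lit 0, nat_lit 0, nat_lit 513400, nat_lit 0, nat_lit 0, [(nat_lit 15, [(nat_lit 1, nat_lit 811), (nat_lit 2, nat_lit 189)])],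
 ⟨p053_k10, nat_lit 0, nat_lit 0, nat_lit 287, nat_lit 0, nat_lit 282484, [nat_lit 2012874361, nat_lit 2305123601, nat_lit 1786658000], [], [nat_lit 27700129808, nat_lit 25705201334, nat_lit 28954679525, nat_lit 30020381576, nat_lit 31527417104, nat_lit 29862218646, nat_lit 30566619794, nat_lit 31025037149], nat_lit 1271250, nat_lit 1271250, nat_lit 1271250, nat_lit 1271250, nat_lit 0, nat_lit 2260000, [nat_lit 780000, nat_lit 1100000, nat_lit 1785000], [nat_lit 36, nat_lit 40, nat_lit 40, nat_lit 80, nat_lit 7, nat_lit 401, nat_lit 175, nat_lit 13]⟩, C1.Rw.none,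
 ⟨nat_lit 4472, nat_lit 5000, ⟨.ofNat (nat_lit 385713), .ofNat (nat_lit 771425), .ofNat (nat_lit 428570), .ofNat (nat_lit 814263), .ofNat (nat_lit 388887), .ofNat (nat_lit 755968), .ofNat (nat_lit 432020), .ofNat (nat_lit 799081)⟩, ⟨.ofNat (nat_lit 0), .ofNat (nat_lit 585713), .ofNat (nat_lit 0), .ofNat (nat_lit 628570), .ofNat (nat_lit 0), .ofNat (nat_lit 574534), .ofNat (nat_lit 0), .ofNat (nat_lit 617667)⟩⟩, [⟨nat_lit 13, nat_lit 84, nat_lit 63, nat_lit 100, nat_lit 74162939⟩, ⟨nat_lit 4, nat_lit 100, nat_lit 93, nat_lit 97, nat_lit 87781921⟩]⟩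
noncomputable def p053_l101 : Lf2 := ⟨nat_lit 0, nat_lit 7, [nat_lit 80, nat_lit 5, nat_lit 5, nat_lit 20], true, nat_lit 0, nat_lit 336, nat_lit 0, nat_lit 396, ⟨nat_lit 0, nat_lit 1000, nat_lit 0, nat_lit 4, nat_lit 107, nat_lit 1000, nat_lit 127, nat_lit 0, nat_lit 0, nat_lit 0, nat_lit 0, nat_lit 0, nat_lit 0, nat_lit 0, nat_lit 0, nat_lit 5000000, false, false⟩,
 nat_lit 0, nat_lit 8279, nat_lit 0, nat_lit 92, nat_lit 5268, nat_lit 0, nat_lit 88, nat_lit 0, nat_lit 0, nat_lit 0, nat_lit 0, nat_lit 0, nat_lit 0, nat_lit 0, nat_lit 0, nat_lit 400000, nat_lit 0, nat_lit 0, [(nat_lit 12, [(nat_lit 1, nat_lit 1000)]), (nat_lit 15, [(nat_lit 1, nat_lit 1000)])],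
 ⟨p053_k7, nat_lit 0, nat_lit 0, nat_lit 387, nat_lit 0, nat_lit 317292, [nat_lit 2033400000, nat_lit 2574800000, nat_lit 2711866667], [], [nat_lit 39760662012, nat_lit 34112122764, nat_lit 20114103819, nat_lit 22316277739, nat_lit 27442229484, nat_lit 30118205233, nat_lit 35494480132, nat_lit 30980743943], nat_lit 1271250, nat_lit 1271250, nat_lit 21650, nat_lit 1100001, nat_lit 0, nat_lit 2373000, [nat_lit 780000, nat_lit 1100000, nat_lit 1785000], [nat_lit 36, nat_lit 40, nat_lit 40, nat_lit 80, nat_lit 7, nat_lit 345, nat_lit 125, nat_lit 12]⟩, C1.Rw.none,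
 ⟨nat_lit 4472, nat_lit 5478, ⟨.ofNat (nat_lit 90113), .ofNat (nat_lit 382351), .ofNat (nat_lit 132827), .ofNat (nat_lit 425065), .ofNat (nat_lit 123773), .ofNat (nat_lit 388887), .ofNat (nat_lit 166906), .ofNat (nat_lit 432020)⟩, ⟨.negSucc (nat_lit 2834), .ofNat (nat_lit 626629), .ofNat (nat_lit 0), .ofNat (nat_lit 669343), .ofNat (nat_lit 0), .ofNat (nat_lit 601725), .ofNat (nat_lit 0), .ofNat (nat_lit 644858)⟩⟩, []⟩
noncomputable def p053_l102 : Lf2 := ⟨nat_lit 0, nat_lit 7, [nat_lit 80, nat_lit 5, nat_lit 5, nat_lit 20], false, nat_lit 0, nat_lit 336, nat_lit 0, nat_lit 396, ⟨nat_lit 0, nat_lit 1000, nat_lit 0, nat_lit 4, nat_lit 243, nat_lit 1000, nat_lit 127, nat_lit 0, nat_lit 0, nat_lit 0, nat_lit 0, nat_lit 0, nat_lit 0, nat_lit 0, nat_lit 0, nat_lit 5000000, false, true⟩,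
 nat_lit 0, nat_lit 6176, nat_lit 0, nat_lit 0, nat_lit 3930, nat_lit 0, nat_lit 499, nat_lit 0, nat_lit 0, nat_lit 0, nat_lit 0, nat_lit 0, nat_lit 0, nat_lit 0, nat_lit 0, nat_lit 400000, nat_lit 0, nat_lit 0, [(nat_lit 12, [(nat_lit 1, nat_lit 1000)]), (nat_lit 15, [(nat_lit 1, nat_lit 1000)])],
 ⟨p053_k7, nat_lit 0, nat_lit 0, nat_lit 268, nat_lit 0, nat_lit 207692, [nat_lit 2033400000, nat_lit 2574800000, nat_lit 2711866667], [], [nat_lit 30596903200, nat_lit 26441022520, nat_lit 29006399664, nat_lit 31037238648, nat_lit 34929688531, nat_lit 31477796611, nat_lit 31318722634, nat_lit 32233112119], nat_lit 1271250, nat_lit 1271250, nat_lit 1271250, nat_lit 1271250, nat_lit 0, nat_lit 2373000, [nat_lit 780000, nat_lit 1100000, nat_lit 1785000], [nat_lit 36, nat_lit 40, nat_lit 40, nat_lit 80, nat_lit 7, nat_lit 428, nat_lit 200, nat_lit 14]⟩, ⟨p053_k9, nat_lit 0, nat_lit 0, nat_lit 604, nat_lit 0, nat_lit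 490049, [nat_lit 0, nat_lit 0, nat_lit 0], [], [nat_lit 0, nat_lit 0, nat_lit 0, nat_lit 0, nat_lit 0, nat_lit 0, nat_lit 0, nat_lit 0], nat_lit 1100001, nat_lit 1442500, nat_lit 1271250, nat_lit 1271250, nat_lit 0, nat_lit 2796750, [nat_lit 1695000, nat_lit 1271250, nat_lit 1271250], [nat_lit 92, nat_lit 40, nat_lit 40, nat_lit 80, nat_lit 32, nat_lit 483, nat_lit 250, nat_lit 11]⟩,
 ⟨nat_lit 4472, nat_lit 5478, ⟨.ofNat (nat_lit 382351), .ofNat (nat_lit 801872), .ofNat (nat_lit 425065), .ofNat (nat_lit 844520), .ofNat (nat_lit 388887), .ofNat (nat_lit 769461), .ofNat (nat_lit 432020), .ofNat (nat_lit 812527)⟩, ⟨.negSucc (nat_lit 2834), .ofNat (nat_lit 626629), .ofNat (nat_lit 0), .ofNat (nat_lit 669343), .ofNat (nat_lit 0), .ofNat (nat_lit 601725), .ofNat (nat_lit 0), .ofNat (nat_lit 644858)⟩⟩, [⟨nat_lit 13, nat_lit 87, nat_lit 59, nat_lit 100, nat_lit 6793316⟩, ⟨nat_lit 16, nat_lit 100, nat_lit 100, nat_lit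 100, nat_lit 77125455⟩]⟩
noncomputable def b_V_700_400_20_3 : St := ⟨true, nat_lit 1, nat_lit 2, nat_lit 2, nat_lit 120, nat_lit 280, nat_lit 320, nat_lit 160, nat_lit 200, nat_lit 4, nat_lit 384, nat_lit 80, nat_lit 120, nat_lit 0, nat_lit 336, nat_lit 0, nat_lit 396, nat_lit 0, nat_lit 28, nat_lit 0, nat_lit 0, nat_lit 0, nat_lit 0⟩
theorem d_V_700_400_20_3 (h : EB TB.env) : Dead b_V_700_400_20_3 := chkB_sound0 h (T :=
(.st (nat_lit 1)
(.spl (nat_lit 2) (nat_lit 160)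
(.leaf p053_l98)
(.spl (nat_lit 0) (nat_lit 300)
(.leaf p053_l99)
(.trX (nat_lit 13) (nat_lit 87) (nat_lit 50) (nat_lit 100) (nat_lit 376) (.trX (nat_lit 16) (nat_lit 94) (nat_lit 88) (nat_lit 100) (nat_lit 320) (.leaf p053_l100)))))
(.spl (nat_lit 2) (nat_lit 160)
(.leaf p053_l101)
(.leaf p053_l102)))) (by decide +kernel)
noncomputable def p053_l103 : Lf2 := ⟨nat_lit 0, nat_lit 10, [nat_lit 0, nat_lit 5, nat_lit 5, nat_lit 20], true, nat_lit 0, nat_lit 160, nat_lit 0, nat_lit 360, ⟨nat_lit 0, nat_lit 0, nat_lit 1000, nat_lit 5, nat_lit 157, nat_lit 675, nat_lit 56, nat_lit 1000, nat_lit 25350, nat_lit 254, nat_lit 1350, nat_lit 206, nat_lit 58044227, nat_lit 0, nat_lit 0, nat_lit 1966502, false, false⟩,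
 nat_lit 0, nat_lit 0, nat_lit 0, nat_lit 4607, nat_lit 3362, nat_lit 0, nat_lit 0, nat_lit 0, nat_lit 0, nat_lit 0, nat_lit 0, nat_lit 0, nat_lit 0, nat_lit 0, nat_lit 110, nat_lit 522400, nat_lit 0, nat_lit 0, [(nat_lit 12, [(nat_lit 5, nat_lit 796), (nat_lit 6, nat_lit 204)]), (nat_lit 15, [(nat_lit 5, nat_lit 796), (nat_lit 6, nat_lit 204)])],
 ⟨p053_k22, nat_lit 0, nat_lit 0, nat_lit 298, nat_lit 0, nat_lit 0, [nat_lit 2815617600, nat_lit 230075200], [], [nat_lit 16853597954, nat_lit 19172639676, nat_lit 19081782304, nat_lit 20947305064, nat_lit 16592585697, nat_lit 18535838397, nat_lit 19105367864, nat_lit 21022809000], nat_lit 0, nat_lit 0, nat_lit 0, nat_lit 0, nat_lit 0, nat_lit 0, [], [nat_lit 82, nat_lit 40, nat_lit 40, nat_lit 80, nat_lit 63, nat_lit 317, nat_lit 100, nat_lit 9]⟩, C1.Rw.none,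
 ⟨nat_lit 4472, nat_lit 5478, ⟨.ofNat (nat_lit 155307), .ofNat (nat_lit 574895), .ofNat (nat_lit 198021), .ofNat (nat_lit 617523), .ofNat (nat_lit 187299), .ofNat (nat_lit 567940), .ofNat (nat_lit 230432), .ofNat (nat_lit 610987)⟩, ⟨.negSucc (nat_lit 45522), .ofNat (nat_lit 254209), .negSucc (nat_lit 2834), .ofNat (nat_lit 296923), .negSucc (nat_lit 12423), .ofNat (nat_lit 259489), .ofNat (nat_lit 0), .ofNat (nat_lit 302621)⟩⟩, []⟩
noncomputable def p053_l104 : Lf2 := ⟨nat_lit 0, nat_lit 10, [nat_lit 0, nat_lit 5, nat_lit 5, nat_lit 20], true, nat_lit 160, nat_lit 300, nat_lit 0, nat_lit 360, ⟨nat_lit 0, nat_lit 0, nat_lit 1000, nat_lit 5, nat_lit 110, nat_lit 1000, nat_lit 161, nat_lit 1000, nat_lit 3701, nat_lit 228, nat_lit 112067, nat_lit 297, nat_lit 52208510, nat_lit 0, nat_lit 0, nat_lit 3576635, false, false⟩,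
 nat_lit 0, nat_lit 0, nat_lit 0, nat_lit 5920, nat_lit 3319, nat_lit 0, nat_lit 0, nat_lit 0, nat_lit 0, nat_lit 0, nat_lit 0, nat_lit 0, nat_lit 0, nat_lit 0, nat_lit 109, nat_lit 517000, nat_lit 0, nat_lit 0, [(nat_lit 12, [(nat_lit 5, nat_lit 805), (nat_lit 6, nat_lit 195)]), (nat_lit 15, [(nat_lit 5, nat_lit 805), (nat_lit 6, nat_lit 195)])],
 ⟨p053_k22, nat_lit 0, nat_lit 0, nat_lit 163, nat_lit 0, nat_lit 0, [nat_lit 2795658000, nat_lit 229266000], [], [nat_lit 15886697840, nat_lit 18028176856, nat_lit 15504681352, nat_lit 17455607056, nat_lit 20666516187, nat_lit 23248948080, nat_lit 20206789783, nat_lit 22171356661], nat_lit 0, nat_lit 0, nat_lit 0, nat_lit 0, nat_lit 0, nat_lit 0, [], [nat_lit 82, nat_lit 40, nat_lit 40, nat_lit 80, nat_lit 63, nat_lit 345, nat_lit 125, nat_lit 10]⟩, C1.Rw.none,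
 ⟨nat_lit 4472, nat_lit 5478, ⟨.ofNat (nat_lit 155307), .ofNat (nat_lit 350132), .ofNat (nat_lit 176664), .ofNat (nat_lit 371489), .ofNat (nat_lit 187299), .ofNat (nat_lit 364042), .ofNat (nat_lit 208865), .ofNat (nat_lit 385609)⟩, ⟨.ofNat (nat_lit 254209), .ofNat (nat_lit 516475), .ofNat (nat_lit 296923), .ofNat (nat_lit 559189), .ofNat (nat_lit 259489), .ofNat (nat_lit 497412), .ofNat (nat_lit 302621), .ofNat (nat_lit 540545)⟩⟩, [⟨nat_lit 0, nat_lit 100, nat_lit 87, nat_lit 54, nat_lit 139211142⟩, ⟨nat_lit 16, nat_lit 100, nat_lit 95, nat_lit 87, nat_lit 187043753⟩]⟩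
noncomputable def p053_l105 : Lf2 := ⟨nat_lit 0, nat_lit 10, [nat_lit 0, nat_lit 5, nat_lit 5, nat_lit 20], true, nat_lit 160, nat_lit 300, nat_lit 0, nat_lit 348, ⟨nat_lit 0, nat_lit 0, nat_lit 1000, nat_lit 5, nat_lit 119, nat_lit 1000, nat_lit 162, nat_lit 1000, nat_lit 3701, nat_lit 228, nat_lit 132017, nat_lit 304, nat_lit 51484630, nat_lit 0, nat_lit 0, nat_lit 3709381, false, false⟩,
 nat_lit 0, nat_lit 0, nat_lit 0, nat_lit 4895, nat_lit 3129, nat_lit 0, nat_lit 0, nat_lit 0, nat_lit 0, nat_lit 0, nat_lit 0, nat_lit 0, nat_lit 0, nat_lit 0, nat_lit 119, nat_lit 524800, nat_lit 0, nat_lit 0, [(nat_lit 12, [(nat_lit 5, nat_lit 792), (nat_lit 6, nat_lit 208)])],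
 ⟨p053_k23, nat_lit 0, nat_lit 0, nat_lit 157, nat_lit 0, nat_lit 0, [nat_lit 2648083201, nat_lit 1722003201, nat_lit 263561600], [], [nat_lit 15413195394, nat_lit 16454730050, nat_lit 15332412633, nat_lit 16286270965, nat_lit 20121986869, nat_lit 21376231903, nat_lit 19973653355, nat_lit 20934185404], nat_lit 0, nat_lit 0, nat_lit 0, nat_lit 0, nat_lit 0, nat_lit 0, [], [nat_lit 8, nat_lit 40, nat_lit 40, nat_lit 80, nat_lit 1, nat_lit 345, nat_lit 125, nat_lit 10]⟩, C1.Rw.none,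
 ⟨nat_lit 5000, nat_lit 5478, ⟨.ofNat (nat_lit 191650), .ofNat (nat_lit 371489), .ofNat (nat_lit 213007), .ofNat (nat_lit 392847), .ofNat (nat_lit 207141), .ofNat (nat_lit 378570), .ofNat (nat_lit 228570), .ofNat (nat_lit 399998)⟩, ⟨.ofNat (nat_lit 254209), .ofNat (nat_lit 516475), .ofNat (nat_lit 296923), .ofNat (nat_lit 559189), .ofNat (nat_lit 257141), .ofNat (nat_lit 507141), .ofNat (nat_lit 299999), .ofNat (nat_lit 549998)⟩⟩, [⟨nat_lit 0, nat_lit 100, nat_lit 90, nat_lit 59, nat_lit 123429978⟩, ⟨nat_lit 16, nat_lit 100, nat_lit 95, nat_lit 87, nat_lit 184229408⟩]⟩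
noncomputable def p053_l106 : Lf2 := ⟨nat_lit 0, nat_lit 10, [nat_lit 0, nat_lit 5, nat_lit 5, nat_lit 20], true, nat_lit 160, nat_lit 280, nat_lit 0, nat_lit 348, ⟨nat_lit 0, nat_lit 0, nat_lit 1000, nat_lit 5, nat_lit 128, nat_lit 1000, nat_lit 154, nat_lit 1000, nat_lit 24746, nat_lit 252, nat_lit 153600, nat_lit 311, nat_lit 51555527, nat_lit 0, nat_lit 0, nat_lit 3724559, false, false⟩,
 nat_lit 0, nat_lit 0, nat_lit 0, nat_lit 3926, nat_lit 3300, nat_lit 0, nat_lit 0, nat_lit 0, nat_lit 0, nat_lit 0, nat_lit 0, nat_lit 0, nat_lit 0, nat_lit 0, nat_lit 94, nat_lit 400000, nat_lit 0, nat_lit 0, [(nat_lit 15, [(nat_lit 5, nat_lit 1000)])],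
 ⟨p053_k24, nat_lit 0, nat_lit 0, nat_lit 84, nat_lit 0, nat_lit 0, [nat_lit 2443200000, nat_lit 153000000], [], [nat_lit 15228873241, nat_lit 16383666200, nat_lit 15381324200, nat_lit 16551644800, nat_lit 19905098810, nat_lit 21257430860, nat_lit 19938665000, nat_lit 20965681000], nat_lit 0, nat_lit 0, nat_lit 0, nat_lit 0, nat_lit 0, nat_lit 0, [], [nat_lit 74, nat_lit 40, nat_lit 40, nat_lit 80, nat_lit 43, nat_lit 317, nat_lit 100, nat_lit 10]⟩, C1.Rw.none,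
 ⟨nat_lit 4472, nat_lit 5000, ⟨.ofNat (nat_lit 228570), .ofNat (nat_lit 378566), .ofNat (nat_lit 249989), .ofNat (nat_lit 399984), .ofNat (nat_lit 242855), .ofNat (nat_lit 385605), .ofNat (nat_lit 264412), .ofNat (nat_lit 407160)⟩, ⟨.ofNat (nat_lit 257141), .ofNat (nat_lit 471427), .ofNat (nat_lit 299999), .ofNat (nat_lit 514284), .ofNat (nat_lit 259489), .ofNat (nat_lit 463423), .ofNat (nat_lit 302621), .ofNat (nat_lit 506556)⟩⟩, [⟨nat_lit 0, nat_lit 100, nat_lit 84, nat_lit 68, nat_lit 111519644⟩, ⟨nat_lit 16, nat_lit 94, nat_lit 100, nat_lit 87, nat_lit 225275919⟩]⟩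
noncomputable def p053_l107 : Lf2 := ⟨nat_lit 0, nat_lit 10, [nat_lit 0, nat_lit 5, nat_lit 5, nat_lit 20], true, nat_lit 160, nat_lit 300, nat_lit 0, nat_lit 360, ⟨nat_lit 0, nat_lit 1000, nat_lit 0, nat_lit 5, nat_lit 194, nat_lit 1000, nat_lit 161, nat_lit 0, nat_lit 0, nat_lit 0, nat_lit 0, nat_lit 0, nat_lit 45673313, nat_lit 12211010, nat_lit 9115677, nat_lit 4526953, false, false⟩,
 nat_lit 0, nat_lit 0, nat_lit 0, nat_lit 3844, nat_lit 3972, nat_lit 0, nat_lit 0, nat_lit 0, nat_lit 0, nat_lit 0, nat_lit 0, nat_lit 0, nat_lit 0, nat_lit 0, nat_lit 0, nat_lit 382150, nat_lit 0, nat_lit 0, [(nat_lit 12, [(nat_lit 0, nat_lit 119), (nat_lit 1, nat_lit 881)]), (nat_lit 15, [(nat_lit 0, nat_lit 119), (nat_lit 1, nat_lit 881)])],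
 ⟨p053_k25, nat_lit 0, nat_lit 0, nat_lit 44, nat_lit 0, nat_lit 0, [nat_lit 2072741400, nat_lit 2721941600, nat_lit 2758847600], [], [nat_lit 12749870424, nat_lit 15933584792, nat_lit 16973421688, nat_lit 19536164120, nat_lit 19701026648, nat_lit 22161853468, nat_lit 22532324016, nat_lit 24634506500], nat_lit 0, nat_lit 0, nat_lit 0, nat_lit 0, nat_lit 0, nat_lit 0, [], [nat_lit 42, nat_lit 40, nat_lit 40, nat_lit 80, nat_lit 13, nat_lit 373, nat_lit 150, nat_lit 10]⟩, C1.Rw.none,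
 ⟨nat_lit 4472, nat_lit 5478, ⟨.ofNat (nat_lit 350132), .ofNat (nat_lit 574895), .ofNat (nat_lit 392815), .ofNat (nat_lit 617523), .ofNat (nat_lit 364042), .ofNat (nat_lit 567940), .ofNat (nat_lit 407143), .ofNat (nat_lit 610987)⟩, ⟨.ofNat (nat_lit 254209), .ofNat (nat_lit 516475), .ofNat (nat_lit 296923), .ofNat (nat_lit 559189), .ofNat (nat_lit 259489), .ofNat (nat_lit 497412), .ofNat (nat_lit 302621), .ofNat (nat_lit 540545)⟩⟩, [⟨nat_lit 16, nat_lit 100, nat_lit 95, nat_lit 87, nat_lit 179032065⟩]⟩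
noncomputable def p053_l108 : Lf2 := ⟨nat_lit 0, nat_lit 10, [nat_lit 0, nat_lit 5, nat_lit 5, nat_lit 20], false, nat_lit 0, nat_lit 300, nat_lit 0, nat_lit 360, ⟨nat_lit 1000, nat_lit 0, nat_lit 0, nat_lit 0, nat_lit 0, nat_lit 0, nat_lit 0, nat_lit 0, nat_lit 0, nat_lit 0, nat_lit 0, nat_lit 0, nat_lit 0, nat_lit 0, nat_lit 0, nat_lit 0, false, false⟩,
 nat_lit 0, nat_lit 0, nat_lit 0, nat_lit 10823, nat_lit 6507, nat_lit 11431, nat_lit 889, nat_lit 0, nat_lit 0, nat_lit 323, nat_lit 0, nat_lit 0, nat_lit 0, nat_lit 0, nat_lit 0, nat_lit 0, nat_lit 0, nat_lit 0, [],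
 ⟨p053_k23, nat_lit 0, nat_lit 0, nat_lit 217, nat_lit 0, nat_lit 0, [nat_lit 3282000000, nat_lit 6250000000, nat_lit 9842000000], [], [nat_lit 25915437145, nat_lit 28739239421, nat_lit 36582808431, nat_lit 39066111893, nat_lit 25993287750, nat_lit 27703527112, nat_lit 33309250891, nat_lit 34553913734], nat_lit 0, nat_lit 0, nat_lit 0, nat_lit 0, nat_lit 0, nat_lit 0, [], [nat_lit 8, nat_lit 40, nat_lit 40, nat_lit 80, nat_lit 1, nat_lit 401, nat_lit 175, nat_lit 11]⟩, ⟨p053_k26, nat_lit 0, nat_lit 0, nat_lit 269, nat_lit 0, nat_lit 0, [nat_lit 6250000000, nat_lit 9842000000, nat_lit 11872000000], [], [nat_lit 32280421024, nat_lit 34308153116, nat_lit 48033707768, nat_lit 48542476610, nat_lit 32837136920, nat_lit 33255245030, nat_lit 40923175626, nat_lit 41126090910], nat_lit 0, nat_lit 0, nat_lit 0, nat_lit 0, nat_lit 0, nat_lit 0, [], [nat_lit 46, nat_lit 40, nat_lit 40, nat_lit 80, nat_lit 41, nat_lit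 483, nat_lit 250, nat_lit 12]⟩,
 zbF0, [⟨nat_lit 16, nat_lit 90, nat_lit 100, nat_lit 74, nat_lit 158285706⟩, ⟨nat_lit 19, nat_lit 100, nat_lit 60, nat_lit 80, nat_lit 120589696⟩]⟩
noncomputable def b_V_700_500_10_0 : St := ⟨true, nat_lit 0, nat_lit 0, nat_lit 1, nat_lit 80, nat_lit 280, nat_lit 320, nat_lit 200, nat_lit 240, nat_lit 16, nat_lit 396, nat_lit 40, nat_lit 80, nat_lit 0, nat_lit 300, nat_lit 0, nat_lit 360, nat_lit 0, nat_lit 40, nat_lit 0, nat_lit 0, nat_lit 0, nat_lit 0⟩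
theorem d_V_700_500_10_0 (h : EB TB.env) : Dead b_V_700_500_10_0 := chkB_sound0 h (T :=
(.spl (nat_lit 2) (nat_lit 240)
(.spl (nat_lit 4) (nat_lit 160)
(.leaf p053_l103)
(.spl (nat_lit 2) (nat_lit 120)
(.spl (nat_lit 1) (nat_lit 220)
(.leaf p053_l104)
(.trZ (nat_lit 0) (nat_lit 100) (nat_lit 92) (nat_lit 49) (nat_lit 24) (.trX (nat_lit 19) (nat_lit 100) (nat_lit 68) (nat_lit 80) (nat_lit 348) (.spl (nat_lit 0) (nat_lit 300)
(.leaf p053_l105)
(.trZ (nat_lit 0) (nat_lit 100) (nat_lit 87) (nat_lit 59) (nat_lit 36) (.trX (nat_lit 16) (nat_lit 94) (nat_lit 100) (nat_lit 87) (nat_lit 280) (.leaf p053_l106)))))))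
(.leaf p053_l107)))
(.leaf p053_l108))) (by decide +kernel)
noncomputable def p053_l109 : Lf2 := ⟨nat_lit 0, nat_lit 10, [nat_lit 0, nat_lit 5, nat_lit 5, nat_lit 20], true, nat_lit 0, nat_lit 160, nat_lit 0, nat_lit 360, ⟨nat_lit 0, nat_lit 0, nat_lit 1000, nat_lit 5, nat_lit 157, nat_lit 675, nat_lit 56, nat_lit 1000, nat_lit 25350, nat_lit 254, nat_lit 1350, nat_lit 206, nat_lit 58044227, nat_lit 0, nat_lit 0, nat_lit 1966502, false, false⟩,
 nat_lit 0, nat_lit 0, nat_lit 0, nat_lit 4607, nat_lit 3362, nat_lit 0, nat_lit 0, nat_lit 0, nat_lit 0, nat_lit 0, nat_lit 0, nat_lit 0, nat_lit 0, nat_lit 0, nat_lit 110, nat_lit 522400, nat_lit 0, nat_lit 0, [(nat_lit 12, [(nat_lit 5, nat_lit 796), (nat_lit 6, nat_lit 204)]), (nat_lit 15, [(nat_lit 5, nat_lit 796), (nat_lit 6, nat_lit 204)])],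
 ⟨p053_k22, nat_lit 0, nat_lit 0, nat_lit 298, nat_lit 0, nat_lit 0, [nat_lit 2815617600, nat_lit 230075200], [], [nat_lit 16853597954, nat_lit 19172639676, nat_lit 19081782304, nat_lit 20947305064, nat_lit 16592585697, nat_lit 18535838397, nat_lit 19105367864, nat_lit 21022809000], nat_lit 0, nat_lit 0, nat_lit 0, nat_lit 0, nat_lit 0, nat_lit 0, [], [nat_lit 82, nat_lit 40, nat_lit 40, nat_lit 80, nat_lit 63, nat_lit 317, nat_lit 100, nat_lit 9]⟩, C1.Rw.none,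
 ⟨nat_lit 4472, nat_lit 5478, ⟨.ofNat (nat_lit 155307), .ofNat (nat_lit 574895), .ofNat (nat_lit 198021), .ofNat (nat_lit 617523), .ofNat (nat_lit 187299), .ofNat (nat_lit 567940), .ofNat (nat_lit 230432), .ofNat (nat_lit 610987)⟩, ⟨.negSucc (nat_lit 45522), .ofNat (nat_lit 254209), .negSucc (nat_lit 2834), .ofNat (nat_lit 296923), .negSucc (nat_lit 12423), .ofNat (nat_lit 259489), .ofNat (nat_lit 0), .ofNat (nat_lit 302621)⟩⟩, []⟩
noncomputable def p053_l110 : Lf2 := ⟨nat_lit 0, nat_lit 10, [nat_lit 0, nat_lit 5, nat_lit 5, nat_lit 20], true, nat_lit 160, nat_lit 300, nat_lit 0, nat_lit 360, ⟨nat_lit 0, nat_lit 0, nat_lit 1000, nat_lit 5, nat_lit 110, nat_lit 1000, nat_lit 161, nat_lit 1000, nat_lit 3701, nat_lit 228, nat_lit 112067, nat_lit 297, nat_lit 52208510, nat_lit 0, nat_lit 0, nat_lit 3576635, false, false⟩,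
 nat_lit 0, nat_lit 0, nat_lit 0, nat_lit 5920, nat_lit 3319, nat_lit 0, nat_lit 0, nat_lit 0, nat_lit 0, nat_lit 0, nat_lit 0, nat_lit 0, nat_lit 0, nat_lit 0, nat_lit 109, nat_lit 517000, nat_lit 0, nat_lit 0, [(nat_lit 12, [(nat_lit 5, nat_lit 805), (nat_lit 6, nat_lit 195)]), (nat_lit 15, [(nat_lit 5, nat_lit 805), (nat_lit 6, nat_lit 195)])],
 ⟨p053_k22, nat_lit 0, nat_lit 0, nat_lit 163, nat_lit 0, nat_lit 0, [nat_lit 2795658000, nat_lit 229266000], [], [nat_lit 15886697840, nat_lit 18028176856, nat_lit 15504681352, nat_lit 17455607056, nat_lit 20666516187, nat_lit 23248948080, nat_lit 20206789783, nat_lit 22171356661], nat_lit 0, nat_lit 0, nat_lit 0, nat_lit 0, nat_lit 0, nat_lit 0, [], [nat_lit 82, nat_lit 40, nat_lit 40, nat_lit 80, nat_lit 63, nat_lit 345, nat_lit 125, nat_lit 10]⟩, C1.Rw.none,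
 ⟨nat_lit 4472, nat_lit 5478, ⟨.ofNat (nat_lit 155307), .ofNat (nat_lit 350132), .ofNat (nat_lit 176664), .ofNat (nat_lit 371489), .ofNat (nat_lit 187299), .ofNat (nat_lit 364042), .ofNat (nat_lit 208865), .ofNat (nat_lit 385609)⟩, ⟨.ofNat (nat_lit 254209), .ofNat (nat_lit 516475), .ofNat (nat_lit 296923), .ofNat (nat_lit 559189), .ofNat (nat_lit 259489), .ofNat (nat_lit 497412), .ofNat (nat_lit 302621), .ofNat (nat_lit 540545)⟩⟩, [⟨nat_lit 0, nat_lit 100, nat_lit 87, nat_lit 54, nat_lit 139211142⟩, ⟨nat_lit 16, nat_lit 100, nat_lit 95, nat_lit 87, nat_lit 187043753⟩]⟩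
noncomputable def p053_l111 : Lf2 := ⟨nat_lit 0, nat_lit 10, [nat_lit 0, nat_lit 5, nat_lit 5, nat_lit 20], true, nat_lit 160, nat_lit 300, nat_lit 0, nat_lit 348, ⟨nat_lit 0, nat_lit 0, nat_lit 1000, nat_lit 5, nat_lit 119, nat_lit 1000, nat_lit 162, nat_lit 1000, nat_lit 3701, nat_lit 228, nat_lit 132017, nat_lit 304, nat_lit 51484630, nat_lit 0, nat_lit 0, nat_lit 3709381, false, false⟩,
 nat_lit 0, nat_lit 0, nat_lit 0, nat_lit 4895, nat_lit 3129, nat_lit 0, nat_lit 0, nat_lit 0, nat_lit 0, nat_lit 0, nat_lit 0, nat_lit 0, nat_lit 0, nat_lit 0, nat_lit 119, nat_lit 524800, nat_lit 0, nat_lit 0, [(nat_lit 12, [(nat_lit 5, nat_lit 792), (nat_lit 6, nat_lit 208)])],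
 ⟨p053_k23, nat_lit 0, nat_lit 0, nat_lit 157, nat_lit 0, nat_lit 0, [nat_lit 2648083201, nat_lit 1722003201, nat_lit 263561600], [], [nat_lit 15413195394, nat_lit 16454730050, nat_lit 15332412633, nat_lit 16286270965, nat_lit 20121986869, nat_lit 21376231903, nat_lit 19973653355, nat_lit 20934185404], nat_lit 0, nat_lit 0, nat_lit 0, nat_lit 0, nat_lit 0, nat_lit 0, [], [nat_lit 8, nat_lit 40, nat_lit 40, nat_lit 80, nat_lit 1, nat_lit 345, nat_lit 125, nat_lit 10]⟩, C1.Rw.none,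
 ⟨nat_lit 5000, nat_lit 5478, ⟨.ofNat (nat_lit 191650), .ofNat (nat_lit 371489), .ofNat (nat_lit 213007), .ofNat (nat_lit 392847), .ofNat (nat_lit 207141), .ofNat (nat_lit 378570), .ofNat (nat_lit 228570), .ofNat (nat_lit 399998)⟩, ⟨.ofNat (nat_lit 254209), .ofNat (nat_lit 516475), .ofNat (nat_lit 296923), .ofNat (nat_lit 559189), .ofNat (nat_lit 257141), .ofNat (nat_lit 507141), .ofNat (nat_lit 299999), .ofNat (nat_lit 549998)⟩⟩, [⟨nat_lit 0, nat_lit 100, nat_lit 90, nat_lit 59, nat_lit 123429978⟩, ⟨nat_lit 16, nat_lit 100, nat_lit 95, nat_lit 87, nat_lit 184229408⟩]⟩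
noncomputable def p053_l112 : Lf2 := ⟨nat_lit 0, nat_lit 10, [nat_lit 0, nat_lit 5, nat_lit 5, nat_lit 20], true, nat_lit 160, nat_lit 280, nat_lit 0, nat_lit 348, ⟨nat_lit 0, nat_lit 0, nat_lit 1000, nat_lit 5, nat_lit 128, nat_lit 1000, nat_lit 154, nat_lit 1000, nat_lit 24746, nat_lit 252, nat_lit 153600, nat_lit 311, nat_lit 51555527, nat_lit 0, nat_lit 0, nat_lit 3724559, false, false⟩,
 nat_lit 0, nat_lit 0, nat_lit 0, nat_lit 3926, nat_lit 3300, nat_lit 0, nat_lit 0, nat_lit 0, nat_lit 0, nat_lit 0, nat_lit 0, nat_lit 0, nat_lit 0, nat_lit 0, nat_lit 94, nat_lit 400000, nat_lit 0, nat_lit 0, [(nat_lit 15, [(nat_lit 5, nat_lit 1000)])],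
 ⟨p053_k24, nat_lit 0, nat_lit 0, nat_lit 84, nat_lit 0, nat_lit 0, [nat_lit 2443200000, nat_lit 153000000], [], [nat_lit 15228873241, nat_lit 16383666200, nat_lit 15381324200, nat_lit 16551644800, nat_lit 19905098810, nat_lit 21257430860, nat_lit 19938665000, nat_lit 20965681000], nat_lit 0, nat_lit 0, nat_lit 0, nat_lit 0, nat_lit 0, nat_lit 0, [], [nat_lit 74, nat_lit 40, nat_lit 40, nat_lit 80, nat_lit 43, nat_lit 317, nat_lit 100, nat_lit 10]⟩, C1.Rw.none,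
 ⟨nat_lit 4472, nat_lit 5000, ⟨.ofNat (nat_lit 228570), .ofNat (nat_lit 378566), .ofNat (nat_lit 249989), .ofNat (nat_lit 399984), .ofNat (nat_lit 242855), .ofNat (nat_lit 385605), .ofNat (nat_lit 264412), .ofNat (nat_lit 407160)⟩, ⟨.ofNat (nat_lit 257141), .ofNat (nat_lit 471427), .ofNat (nat_lit 299999), .ofNat (nat_lit 514284), .ofNat (nat_lit 259489), .ofNat (nat_lit 463423), .ofNat (nat_lit 302621), .ofNat (nat_lit 506556)⟩⟩, [⟨nat_lit 0, nat_lit 100, nat_lit 84, nat_lit 68, nat_lit 111519644⟩, ⟨nat_lit 16, nat_lit 94, nat_lit 100, nat_lit 87, nat_lit 225275919⟩]⟩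
noncomputable def p053_l113 : Lf2 := ⟨nat_lit 0, nat_lit 10, [nat_lit 0, nat_lit 5, nat_lit 5, nat_lit 20], true, nat_lit 160, nat_lit 300, nat_lit 0, nat_lit 360, ⟨nat_lit 0, nat_lit 1000, nat_lit 0, nat_lit 5, nat_lit 194, nat_lit 1000, nat_lit 161, nat_lit 0, nat_lit 0, nat_lit 0, nat_lit 0, nat_lit 0, nat_lit 45673313, nat_lit 12211010, nat_lit 9115677, nat_lit 4526953, false, false⟩,
 nat_lit 0, nat_lit 0, nat_lit 0, nat_lit 2873, nat_lit 4271, nat_lit 0, nat_lit 0, nat_lit 0, nat_lit 0, nat_lit 0, nat_lit 0, nat_lit 0, nat_lit 0, nat_lit 0, nat_lit 0, nat_lit 250000, nat_lit 0, nat_lit 0, [(nat_lit 12, [(nat_lit 0, nat_lit 1000)]), (nat_lit 15, [(nat_lit 0, nat_lit 1000)])],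
 ⟨p053_k22, nat_lit 0, nat_lit 0, nat_lit 36, nat_lit 0, nat_lit 0, [nat_lit 2378800001, nat_lit 3513428572], [], [nat_lit 12651499233, nat_lit 15962092457, nat_lit 16938232785, nat_lit 19593382961, nat_lit 19799245565, nat_lit 22351948399, nat_lit 22619657539, nat_lit 24786734875], nat_lit 0, nat_lit 0, nat_lit 0, nat_lit 0, nat_lit 0, nat_lit 0, [], [nat_lit 82, nat_lit 40, nat_lit 40, nat_lit 80, nat_lit 63, nat_lit 373, nat_lit 150, nat_lit 10]⟩, C1.Rw.none,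
 ⟨nat_lit 4472, nat_lit 5478, ⟨.ofNat (nat_lit 350132), .ofNat (nat_lit 574895), .ofNat (nat_lit 392815), .ofNat (nat_lit 617523), .ofNat (nat_lit 364042), .ofNat (nat_lit 567940), .ofNat (nat_lit 407143), .ofNat (nat_lit 610987)⟩, ⟨.ofNat (nat_lit 254209), .ofNat (nat_lit 516475), .ofNat (nat_lit 296923), .ofNat (nat_lit 559189), .ofNat (nat_lit 259489), .ofNat (nat_lit 497412), .ofNat (nat_lit 302621), .ofNat (nat_lit 540545)⟩⟩, [⟨nat_lit 16, nat_lit 100, nat_lit 95, nat_lit 87, nat_lit 184063999⟩]⟩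
noncomputable def p053_l114 : Lf2 := ⟨nat_lit 0, nat_lit 10, [nat_lit 0, nat_lit 5, nat_lit 5, nat_lit 20], false, nat_lit 0, nat_lit 160, nat_lit 0, nat_lit 360, ⟨nat_lit 145, nat_lit 855, nat_lit 0, nat_lit 6, nat_lit 268, nat_lit 855, nat_lit 55, nat_lit 0, nat_lit 0, nat_lit 0, nat_lit 0, nat_lit 0, nat_lit 46264854, nat_lit 20735146, nat_lit 0, nat_lit 3093418, true, true⟩,
 nat_lit 0, nat_lit 0, nat_lit 3520, nat_lit 0, nat_lit 4695, nat_lit 1508, nat_lit 232, nat_lit 0, nat_lit 0, nat_lit 115, nat_lit 0, nat_lit 0, nat_lit 0, nat_lit 0, nat_lit 0, nat_lit 855000, nat_lit 0, nat_lit 0, [(nat_lit 12, [(nat_lit 2, nat_lit 855)])],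
 ⟨p053_k23, nat_lit 0, nat_lit 0, nat_lit 184, nat_lit 0, nat_lit 0, [nat_lit 2472486001, nat_lit 2570422000, nat_lit 1175720000], [], [nat_lit 21165861700, nat_lit 21763333265, nat_lit 25212461160, nat_lit 25696534300, nat_lit 19180111481, nat_lit 19639445586, nat_lit 22844115081, nat_lit 23292406581], nat_lit 0, nat_lit 0, nat_lit 0, nat_lit 0, nat_lit 0, nat_lit 0, [], [nat_lit 8, nat_lit 40, nat_lit 40, nat_lit 80, nat_lit 1, nat_lit 345, nat_lit 125, nat_lit 9]⟩, ⟨p053_k26, nat_lit 0, nat_lit 0, nat_lit 726, nat_lit 0, nat_lit 993093, [nat_lit 906250000, nat_lit 1427090000, nat_lit 1721440000], [], [nat_lit 6029412504, nat_lit 6031737724, nat_lit 6211854288, nat_lit 6182619504, nat_lit 5390352844, nat_lit 4952041160, nat_lit 5028337144, nat_lit 4977279918], nat_lit 1271250, nat_lit 1271250, nat_lit 1271250, nat_lit 1271250, nat_lit 0, nat_lit 2542500, [nat_lit 1412500, nat_lit 1271250, nat_lit 1271250],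 [nat_lit 46, nat_lit 40, nat_lit 40, nat_lit 80, nat_lit 41, nat_lit 483, nat_lit 250, nat_lit 12]⟩,
 ⟨nat_lit 5244, nat_lit 5478, ⟨.ofNat (nat_lit 574929), .ofNat (nat_lit 724787), .ofNat (nat_lit 617638), .ofNat (nat_lit 767497), .ofNat (nat_lit 573167), .ofNat (nat_lit 719502), .ofNat (nat_lit 615933), .ofNat (nat_lit 762268)⟩, ⟨.negSucc (nat_lit 45522), .ofNat (nat_lit 254209), .negSucc (nat_lit 2827), .ofNat (nat_lit 296923), .negSucc (nat_lit 36940), .ofNat (nat_lit 255744), .ofNat (nat_lit 0), .ofNat (nat_lit 298515)⟩⟩, [⟨nat_lit 22, nat_lit 100, nat_lit 95, nat_lit 87, nat_lit 13350262⟩]⟩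
noncomputable def p053_l115 : Lf2 := ⟨nat_lit 0, nat_lit 10, [nat_lit 0, nat_lit 5, nat_lit 5, nat_lit 20], false, nat_lit 0, nat_lit 160, nat_lit 0, nat_lit 360, ⟨nat_lit 97, nat_lit 903, nat_lit 0, nat_lit 6, nat_lit 266, nat_lit 903, nat_lit 56, nat_lit 0, nat_lit 0, nat_lit 0, nat_lit 0, nat_lit 0, nat_lit 46413238, nat_lit 20586762, nat_lit 0, nat_lit 3084473, true, true⟩,
 nat_lit 0, nat_lit 0, nat_lit 2453, nat_lit 0, nat_lit 4405, nat_lit 1051, nat_lit 401, nat_lit 0, nat_lit 0, nat_lit 84, nat_lit 0, nat_lit 0, nat_lit 0, nat_lit 0, nat_lit 0, nat_lit 361200, nat_lit 0, nat_lit 0, [(nat_lit 12, [(nat_lit 1, nat_lit 903)])],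
 ⟨p053_k27, nat_lit 0, nat_lit 0, nat_lit 160, nat_lit 0, nat_lit 0, [nat_lit 2186119200, nat_lit 3063493600, nat_lit 3194742000], [], [nat_lit 21497137225, nat_lit 22136941010, nat_lit 25738244040, nat_lit 26257168240, nat_lit 20113362605, nat_lit 20603027630, nat_lit 23601416870, nat_lit 24038717370], nat_lit 0, nat_lit 0, nat_lit 0, nat_lit 0, nat_lit 0, nat_lit 0, [], [nat_lit 18, nat_lit 40, nat_lit 40, nat_lit 80, nat_lit 2, nat_lit 249, nat_lit 40, nat_lit 8]⟩, ⟨p053_k26, nat_lit 0, nat_lit 0, nat_lit 836, nat_lit 0, nat_lit 1221095, [nat_lit 606250000, nat_lit 954674000, nat_lit 1151584000], [], [nat_lit 4020268972, nat_lit 3985471068, nat_lit 4050597068, nat_lit 4000509312, nat_lit 3585488452, nat_lit 3142288320, nat_lit 3269977132, nat_lit 3279143380], nat_lit 1271250, nat_lit 1271250, nat_lit 1271250, nat_lit 1271250, nat_lit 0, nat_lit 2542500, [nat_lit 1412500, nat_lit 1271250, nat_lit 1271250],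 [nat_lit 46, nat_lit 40, nat_lit 40, nat_lit 80, nat_lit 41, nat_lit 483, nat_lit 250, nat_lit 12]⟩,
 ⟨nat_lit 5000, nat_lit 5245, ⟨.ofNat (nat_lit 573168), .ofNat (nat_lit 719505), .ofNat (nat_lit 615934), .ofNat (nat_lit 762271), .ofNat (nat_lit 571425), .ofNat (nat_lit 714277), .ofNat (nat_lit 614277), .ofNat (nat_lit 757129)⟩, ⟨.negSucc (nat_lit 36940), .ofNat (nat_lit 255744), .ofNat (nat_lit 0), .ofNat (nat_lit 298515), .negSucc (nat_lit 28572), .ofNat (nat_lit 257141), .ofNat (nat_lit 0), .ofNat (nat_lit 299999)⟩⟩, [⟨nat_lit 22, nat_lit 100, nat_lit 95, nat_lit 87, nat_lit 10316730⟩]⟩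
noncomputable def p053_l116 : Lf2 := ⟨nat_lit 0, nat_lit 10, [nat_lit 0, nat_lit 5, nat_lit 5, nat_lit 20], false, nat_lit 0, nat_lit 160, nat_lit 0, nat_lit 360, ⟨nat_lit 72, nat_lit 928, nat_lit 0, nat_lit 6, nat_lit 264, nat_lit 928, nat_lit 56, nat_lit 0, nat_lit 0, nat_lit 0, nat_lit 0, nat_lit 0, nat_lit 46632560, nat_lit 20367440, nat_lit 0, nat_lit 3071042, true, true⟩,
 nat_lit 0, nat_lit 0, nat_lit 1781, nat_lit 0, nat_lit 4095, nat_lit 763, nat_lit 98, nat_lit 0, nat_lit 0, nat_lit 43, nat_lit 0, nat_lit 0, nat_lit 0, nat_lit 0, nat_lit 0, nat_lit 619600, nat_lit 0, nat_lit 0, [(nat_lit 15, [(nat_lit 1, nat_lit 514), (nat_lit 2, nat_lit 414)])],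
 ⟨p053_k28, nat_lit 0, nat_lit 0, nat_lit 167, nat_lit 0, nat_lit 0, [nat_lit 2149717201, nat_lit 2094273467, nat_lit 1475479200], [], [nat_lit 21733375661, nat_lit 22851305371, nat_lit 25615748710, nat_lit 26633146420, nat_lit 20654760721, nat_lit 21604947671, nat_lit 23779957301, nat_lit 24578291098], nat_lit 0, nat_lit 0, nat_lit 0, nat_lit 0, nat_lit 0, nat_lit 0, [], [nat_lit 18, nat_lit 40, nat_lit 40, nat_lit 80, nat_lit 2, nat_lit 249, nat_lit 40, nat_lit 8]⟩, ⟨p053_k26, nat_lit 0, nat_lit 0, nat_lit 1059, nat_lit 0, nat_lit 1721410, [nat_lit 450000000, nat_lit 708624000, nat_lit 854784000], [], [nat_lit 3141283384, nat_lit 3088466476, nat_lit 3093081152, nat_lit 3054392092, nat_lit 2669700408, nat_lit 2429152548, nat_lit 2515766680, nat_lit 2519092946], nat_lit 1271250, nat_lit 1271250, nat_lit 1271250, nat_lit 1271250, nat_lit 0, nat_lit 2542500, [nat_lit 1412500, nat_lit 1271250, nat_lit 1271250],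 [nat_lit 46, nat_lit 40, nat_lit 40, nat_lit 80, nat_lit 41, nat_lit 483, nat_lit 250, nat_lit 12]⟩,
 ⟨nat_lit 4472, nat_lit 5000, ⟨.ofNat (nat_lit 571423), .ofNat (nat_lit 714270), .ofNat (nat_lit 614256), .ofNat (nat_lit 757103), .ofNat (nat_lit 567973), .ofNat (nat_lit 703919), .ofNat (nat_lit 611081), .ofNat (nat_lit 747027)⟩, ⟨.negSucc (nat_lit 28572), .ofNat (nat_lit 257141), .ofNat (nat_lit 0), .ofNat (nat_lit 299999), .negSucc (nat_lit 12423), .ofNat (nat_lit 259489), .ofNat (nat_lit 0), .ofNat (nat_lit 302621)⟩⟩, [⟨nat_lit 22, nat_lit 100, nat_lit 95, nat_lit 87, nat_lit 7602619⟩]⟩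
noncomputable def p053_l117 : Lf2 := ⟨nat_lit 0, nat_lit 10, [nat_lit 0, nat_lit 5, nat_lit 5, nat_lit 20], false, nat_lit 0, nat_lit 80, nat_lit 0, nat_lit 260, ⟨nat_lit 161, nat_lit 839, nat_lit 0, nat_lit 8, nat_lit 320, nat_lit 240, nat_lit 26, nat_lit 0, nat_lit 0, nat_lit 0, nat_lit 0, nat_lit 0, nat_lit 40874677, nat_lit 26125323, nat_lit 0, nat_lit 3343583, true, true⟩,
 nat_lit 0, nat_lit 0, nat_lit 3926, nat_lit 0, nat_lit 4051, nat_lit 1682, nat_lit 97, nat_lit 0, nat_lit 0, nat_lit 135, nat_lit 0, nat_lit 0, nat_lit 0, nat_lit 0, nat_lit 0, nat_lit 839000, nat_lit 0, nat_lit 0, [(nat_lit 12, [(nat_lit 2, nat_lit 839)])],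
 ⟨p053_k23, nat_lit 0, nat_lit 0, nat_lit 213, nat_lit 0, nat_lit 0, [nat_lit 2487634801, nat_lit 2639279600, nat_lit 1337896000], [], [nat_lit 26090186054, nat_lit 26538122992, nat_lit 30076307023, nat_lit 30439347305, nat_lit 24646784226, nat_lit 25069805362, nat_lit 28399928905, nat_lit 28744956910], nat_lit 0, nat_lit 0, nat_lit 0, nat_lit 0, nat_lit 0, nat_lit 0, [], [nat_lit 8, nat_lit 40, nat_lit 40, nat_lit 80, nat_lit 1, nat_lit 226, nat_lit 20, nat_lit 6]⟩, ⟨p053_k26, nat_lit 0, nat_lit 0, nat_lit 608, nat_lit 0, nat_lit 774605, [nat_lit 1006250000, nat_lit 1584562000, nat_lit 1911392000], [], [nat_lit 6873303096, nat_lit 6856744172, nat_lit 7215043330, nat_lit 7198002506, nat_lit 5429129034, nat_lit 5393448906, nat_lit 5637434447, nat_lit 5606307655], nat_lit 1271250, nat_lit 1271250, nat_lit 1271250, nat_lit 1271250, nat_lit 0, nat_lit 1836250, [nat_lit 1412500, nat_lit 1271250, nat_lit 1271250],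 [nat_lit 46, nat_lit 40, nat_lit 40, nat_lit 80, nat_lit 41, nat_lit 345, nat_lit 125, nat_lit 8]⟩,
 ⟨nat_lit 5244, nat_lit 5478, ⟨.ofNat (nat_lit 724787), .ofNat (nat_lit 859660), .ofNat (nat_lit 746143), .ofNat (nat_lit 881015), .ofNat (nat_lit 719502), .ofNat (nat_lit 851203), .ofNat (nat_lit 740885), .ofNat (nat_lit 872587)⟩, ⟨.negSucc (nat_lit 45522), .ofNat (nat_lit 104343), .negSucc (nat_lit 2827), .ofNat (nat_lit 147057), .negSucc (nat_lit 36940), .ofNat (nat_lit 109402), .ofNat (nat_lit 0), .ofNat (nat_lit 152172)⟩⟩, [⟨nat_lit 13, nat_lit 91, nat_lit 38, nat_lit 100, nat_lit 141285660⟩]⟩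
noncomputable def p053_l118 : Lf2 := ⟨nat_lit 0, nat_lit 10, [nat_lit 0, nat_lit 5, nat_lit 5, nat_lit 20], false, nat_lit 0, nat_lit 80, nat_lit 0, nat_lit 260, ⟨nat_lit 110, nat_lit 890, nat_lit 0, nat_lit 8, nat_lit 316, nat_lit 343, nat_lit 27, nat_lit 0, nat_lit 0, nat_lit 0, nat_lit 0, nat_lit 0, nat_lit 41291932, nat_lit 25708068, nat_lit 0, nat_lit 3329237, true, true⟩,
 nat_lit 0, nat_lit 0, nat_lit 2691, nat_lit 0, nat_lit 3849, nat_lit 1153, nat_lit 312, nat_lit 0, nat_lit 0, nat_lit 89, nat_lit 0, nat_lit 0, nat_lit 0, nat_lit 0, nat_lit 0, nat_lit 356000, nat_lit 0, nat_lit 0, [(nat_lit 12, [(nat_lit 1, nat_lit 890)])],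
 ⟨p053_k27, nat_lit 0, nat_lit 0, nat_lit 191, nat_lit 0, nat_lit 0, [nat_lit 2201896000, nat_lit 3109368000, nat_lit 3263460000], [], [nat_lit 26455325210, nat_lit 26894770472, nat_lit 30048308732, nat_lit 30410363098, nat_lit 25120353840, nat_lit 25535631104, nat_lit 28507278375, nat_lit 28851632261], nat_lit 0, nat_lit 0, nat_lit 0, nat_lit 0, nat_lit 0, nat_lit 0, [], [nat_lit 18, nat_lit 40, nat_lit 40, nat_lit 80, nat_lit 2, nat_lit 226, nat_lit 20, nat_lit 6]⟩, ⟨p053_k26, nat_lit 0, nat_lit 0, nat_lit 721, nat_lit 0, nat_lit 1013285, [nat_lit 687500000, nat_lit 1082620000, nat_lit 1305920000], [], [nat_lit 4684023468, nat_lit 4672545306, nat_lit 4903238787, nat_lit 4887157620, nat_lit 3692692379, nat_lit 3668119282, nat_lit 3824702207, nat_lit 3803953047], nat_lit 1271250, nat_lit 1271250, nat_lit 1271250, nat_lit 1271250, nat_lit 0, nat_lit 1836250, [nat_lit 1412500, nat_lit 1271250, nat_lit 1271250],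 [nat_lit 46, nat_lit 40, nat_lit 40, nat_lit 80, nat_lit 41, nat_lit 345, nat_lit 125, nat_lit 8]⟩,
 ⟨nat_lit 5000, nat_lit 5245, ⟨.ofNat (nat_lit 719505), .ofNat (nat_lit 843891), .ofNat (nat_lit 740887), .ofNat (nat_lit 865274), .ofNat (nat_lit 714277), .ofNat (nat_lit 835701), .ofNat (nat_lit 735703), .ofNat (nat_lit 857127)⟩, ⟨.negSucc (nat_lit 36940), .ofNat (nat_lit 109402), .ofNat (nat_lit 0), .ofNat (nat_lit 152172), .negSucc (nat_lit 28572), .ofNat (nat_lit 114284), .ofNat (nat_lit 0), .ofNat (nat_lit 157141)⟩⟩, [⟨nat_lit 13, nat_lit 88, nat_lit 43, nat_lit 100, nat_lit 157110463⟩]⟩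
noncomputable def p053_l119 : Lf2 := ⟨nat_lit 0, nat_lit 10, [nat_lit 0, nat_lit 5, nat_lit 5, nat_lit 20], false, nat_lit 0, nat_lit 80, nat_lit 0, nat_lit 260, ⟨nat_lit 91, nat_lit 909, nat_lit 0, nat_lit 8, nat_lit 312, nat_lit 449, nat_lit 28, nat_lit 0, nat_lit 0, nat_lit 0, nat_lit 0, nat_lit 0, nat_lit 41702204, nat_lit 25297796, nat_lit 0, nat_lit 3314331, true, true⟩,
 nat_lit 0, nat_lit 0, nat_lit 2244, nat_lit 0, nat_lit 3709, nat_lit 961, nat_lit 281, nat_lit 0, nat_lit 0, nat_lit 74, nat_lit 0, nat_lit 0, nat_lit 0, nat_lit 0, nat_lit 0, nat_lit 363600, nat_lit 0, nat_lit 0, [(nat_lit 15, [(nat_lit 1, nat_lit 909)])],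
 ⟨p053_k28, nat_lit 0, nat_lit 0, nat_lit 191, nat_lit 0, nat_lit 0, [nat_lit 2135023801, nat_lit 2709323801, nat_lit 2837993999], [], [nat_lit 26331727830, nat_lit 26765287772, nat_lit 29580352576, nat_lit 29943015296, nat_lit 25065524942, nat_lit 25475435166, nat_lit 28130997609, nat_lit 28475938371], nat_lit 0, nat_lit 0, nat_lit 0, nat_lit 0, nat_lit 0, nat_lit 0, [], [nat_lit 18, nat_lit 40, nat_lit 40, nat_lit 80, nat_lit 2, nat_lit 226, nat_lit 20, nat_lit 6]⟩, ⟨p053_k26, nat_lit 0, nat_lit 0, nat_lit 838, nat_lit 0, nat_lit 1267770, [nat_lit 568750000, nat_lit 895622000, nat_lit 1080352000], [], [nat_lit 3910336772, nat_lit 3888155458, nat_lit 4022101875, nat_lit 4009480733, nat_lit 3053038840, nat_lit 3023290854, nat_lit 3129449207, nat_lit 3112516841], nat_lit 1271250, nat_lit 1271250, nat_lit 1271250, nat_lit 1271250, nat_lit 0, nat_lit 1836250, [nat_lit 1412500, nat_lit 1271250, nat_lit 1271250],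 [nat_lit 46, nat_lit 40, nat_lit 40, nat_lit 80, nat_lit 41, nat_lit 345, nat_lit 125, nat_lit 8]⟩,
 ⟨nat_lit 4743, nat_lit 5000, ⟨.ofNat (nat_lit 714280), .ofNat (nat_lit 828563), .ofNat (nat_lit 735706), .ofNat (nat_lit 849988), .ofNat (nat_lit 709094), .ofNat (nat_lit 820610), .ofNat (nat_lit 730579), .ofNat (nat_lit 842095)⟩, ⟨.negSucc (nat_lit 28572), .ofNat (nat_lit 114284), .ofNat (nat_lit 0), .ofNat (nat_lit 157141), .negSucc (nat_lit 20404), .ofNat (nat_lit 118994), .ofNat (nat_lit 0), .ofNat (nat_lit 161970)⟩⟩, [⟨nat_lit 13, nat_lit 85, nat_lit 48, nat_lit 100, nat_lit 167069754⟩]⟩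
noncomputable def p053_l120 : Lf2 := ⟨nat_lit 0, nat_lit 10, [nat_lit 0, nat_lit 5, nat_lit 5, nat_lit 20], false, nat_lit 0, nat_lit 80, nat_lit 0, nat_lit 260, ⟨nat_lit 76, nat_lit 924, nat_lit 0, nat_lit 8, nat_lit 308, nat_lit 537, nat_lit 29, nat_lit 0, nat_lit 0, nat_lit 0, nat_lit 0, nat_lit 0, nat_lit 42106182, nat_lit 24893818, nat_lit 0, nat_lit 3298875, true, true⟩,
 nat_lit 0, nat_lit 0, nat_lit 1884, nat_lit 0, nat_lit 3639, nat_lit 807, nat_lit 240, nat_lit 0, nat_lit 0, nat_lit 62, nat_lit 0, nat_lit 0, nat_lit 0, nat_lit 0, nat_lit 0, nat_lit 369600, nat_lit 0, nat_lit 0, [(nat_lit 15, [(nat_lit 1, nat_lit 924)])],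
 ⟨p053_k29, nat_lit 0, nat_lit 0, nat_lit 191, nat_lit 0, nat_lit 0, [nat_lit 2116096801, nat_lit 2650896801, nat_lit 2753983999], [], [nat_lit 26624629277, nat_lit 27055246559, nat_lit 29572163532, nat_lit 29974321592, nat_lit 25381504051, nat_lit 25788730755, nat_lit 28165236750, nat_lit 28512384649], nat_lit 0, nat_lit 0, nat_lit 0, nat_lit 0, nat_lit 0, nat_lit 0, [], [nat_lit 18, nat_lit 40, nat_lit 40, nat_lit 80, nat_lit 2, nat_lit 226, nat_lit 20, nat_lit 6]⟩, ⟨p053_k26, nat_lit 0, nat_lit 0, nat_lit 958, nat_lit 0, nat_lit 1537496, [nat_lit 475000000, nat_lit 747992000, nat_lit 902272000], [], [nat_lit 3255775152, nat_lit 3229781516, nat_lit 3335364134, nat_lit 3326016987, nat_lit 2524997678, nat_lit 2499898521, nat_lit 2589446786, nat_lit 2575583202], nat_lit 1271250, nat_lit 1271250, nat_lit 1271250, nat_lit 1271250, nat_lit 0, nat_lit 1836250, [nat_lit 1412500, nat_lit 1271250, nat_lit 1271250],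 [nat_lit 46, nat_lit 40, nat_lit 40, nat_lit 80, nat_lit 41, nat_lit 347, nat_lit 125, nat_lit 9]⟩,
 ⟨nat_lit 4472, nat_lit 4744, ⟨.ofNat (nat_lit 709096), .ofNat (nat_lit 813645), .ofNat (nat_lit 730582), .ofNat (nat_lit 835131), .ofNat (nat_lit 703932), .ofNat (nat_lit 805898), .ofNat (nat_lit 725496), .ofNat (nat_lit 827462)⟩, ⟨.negSucc (nat_lit 20404), .ofNat (nat_lit 118994), .ofNat (nat_lit 0), .ofNat (nat_lit 161970), .negSucc (nat_lit 12423), .ofNat (nat_lit 123532), .ofNat (nat_lit 0), .ofNat (nat_lit 166665)⟩⟩, [⟨nat_lit 13, nat_lit 84, nat_lit 47, nat_lit 100, nat_lit 185823128⟩]⟩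
noncomputable def p053_l121 : Lf2 := ⟨nat_lit 0, nat_lit 10, [nat_lit 0, nat_lit 5, nat_lit 5, nat_lit 20], false, nat_lit 0, nat_lit 80, nat_lit 0, nat_lit 260, ⟨nat_lit 234, nat_lit 766, nat_lit 0, nat_lit 8, nat_lit 328, nat_lit 504, nat_lit 26, nat_lit 0, nat_lit 0, nat_lit 0, nat_lit 0, nat_lit 0, nat_lit 40019494, nat_lit 26980506, nat_lit 0, nat_lit 3370443, true, true⟩,
 nat_lit 0, nat_lit 0, nat_lit 3891, nat_lit 0, nat_lit 4102, nat_lit 1860, nat_lit 160, nat_lit 0, nat_lit 0, nat_lit 570, nat_lit 0, nat_lit 0, nat_lit 0, nat_lit 0, nat_lit 0, nat_lit 766000, nat_lit 0, nat_lit 0, [(nat_lit 12, [(nat_lit 2, nat_lit 766)])],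
 ⟨p053_k23, nat_lit 0, nat_lit 0, nat_lit 215, nat_lit 0, nat_lit 0, [nat_lit 2556751201, nat_lit 2953442400, nat_lit 2077824000], [], [nat_lit 26461402506, nat_lit 27361564258, nat_lit 30701334747, nat_lit 31420780609, nat_lit 24984522850, nat_lit 25834475394, nat_lit 28976129709, nat_lit 29659898415], nat_lit 0, nat_lit 0, nat_lit 0, nat_lit 0, nat_lit 0, nat_lit 0, [], [nat_lit 8, nat_lit 40, nat_lit 40, nat_lit 80, nat_lit 1, nat_lit 226, nat_lit 20, nat_lit 6]⟩, ⟨p053_k30, nat_lit 0, nat_lit 0, nat_lit 723, nat_lit 0, nat_lit 1034187, [nat_lit 1462500000, nat_lit 2303028000, nat_lit 2778048000], [], [nat_lit 8496671568, nat_lit 8496567048, nat_lit 8937355143, nat_lit 8936940694, nat_lit 7377558816, nat_lit 7378838910, nat_lit 7750576055, nat_lit 7734435557], nat_lit 1271250, nat_lit 1271250, nat_lit 1271250, nat_lit 1271250, nat_lit 0, nat_lit 1836250, [nat_lit 1412500, nat_lit 1271250, nat_lit 1271250],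 [nat_lit 46, nat_lit 40, nat_lit 40, nat_lit 80, nat_lit 41, nat_lit 345, nat_lit 125, nat_lit 8]⟩,
 ⟨nat_lit 5000, nat_lit 5478, ⟨.ofNat (nat_lit 746107), .ofNat (nat_lit 888456), .ofNat (nat_lit 767454), .ofNat (nat_lit 909802), .ofNat (nat_lit 735665), .ofNat (nat_lit 871355), .ofNat (nat_lit 757084), .ofNat (nat_lit 892774)⟩, ⟨.negSucc (nat_lit 45522), .ofNat (nat_lit 104343), .negSucc (nat_lit 2832), .ofNat (nat_lit 147057), .negSucc (nat_lit 28572), .ofNat (nat_lit 114284), .ofNat (nat_lit 0), .ofNat (nat_lit 157141)⟩⟩, [⟨nat_lit 13, nat_lit 90, nat_lit 31, nat_lit 100, nat_lit 86394829⟩, ⟨nat_lit 10, nat_lit 100, nat_lit 58, nat_lit 64, nat_lit 45280577⟩]⟩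
noncomputable def p053_l122 : Lf2 := ⟨nat_lit 0, nat_lit 10, [nat_lit 0, nat_lit 5, nat_lit 5, nat_lit 20], false, nat_lit 0, nat_lit 80, nat_lit 0, nat_lit 260, ⟨nat_lit 177, nat_lit 823, nat_lit 0, nat_lit 8, nat_lit 323, nat_lit 630, nat_lit 28, nat_lit 0, nat_lit 0, nat_lit 0, nat_lit 0, nat_lit 0, nat_lit 40560436, nat_lit 26439564, nat_lit 0, nat_lit 3353849, true, true⟩,
 nat_lit 0, nat_lit 0, nat_lit 3018, nat_lit 0, nat_lit 3687, nat_lit 1443, nat_lit 510, nat_lit 0, nat_lit 0, nat_lit 412, nat_lit 0, nat_lit 0, nat_lit 0, nat_lit 0, nat_lit 0, nat_lit 329200, nat_lit 0, nat_lit 0, [(nat_lit 15, [(nat_lit 1, nat_lit 823)])],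
 ⟨p053_k28, nat_lit 0, nat_lit 0, nat_lit 194, nat_lit 0, nat_lit 0, [nat_lit 2243538600, nat_lit 3044305267, nat_lit 3319651333], [], [nat_lit 26481092053, nat_lit 26913727159, nat_lit 30142705456, nat_lit 30496568134, nat_lit 25229493469, nat_lit 25638560301, nat_lit 28684991531, nat_lit 29021303484], nat_lit 0, nat_lit 0, nat_lit 0, nat_lit 0, nat_lit 0, nat_lit 0, [], [nat_lit 18, nat_lit 40, nat_lit 40, nat_lit 80, nat_lit 2, nat_lit 226, nat_lit 20, nat_lit 6]⟩, ⟨p053_k30, nat_lit 0, nat_lit 0, nat_lit 819, nat_lit 0, nat_lit 1239359, [nat_lit 1106250000, nat_lit 1742034000, nat_lit 2101344000], [], [nat_lit 6473421382, nat_lit 6470244580, nat_lit 6742252131, nat_lit 6747810228, nat_lit 5600656992, nat_lit 5588894076, nat_lit 5793258481, nat_lit 5771174725], nat_lit 1271250, nat_lit 1271250, nat_lit 1271250, nat_lit 1271250, nat_lit 0, nat_lit 1836250, [nat_lit 1412500, nat_lit 1271250, nat_lit 1271250],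 [nat_lit 46, nat_lit 40, nat_lit 40, nat_lit 80, nat_lit 41, nat_lit 345, nat_lit 125, nat_lit 8]⟩,
 ⟨nat_lit 4743, nat_lit 5000, ⟨.ofNat (nat_lit 735706), .ofNat (nat_lit 864274), .ofNat (nat_lit 757131), .ofNat (nat_lit 885699), .ofNat (nat_lit 730579), .ofNat (nat_lit 856035), .ofNat (nat_lit 752064), .ofNat (nat_lit 877520)⟩, ⟨.negSucc (nat_lit 28572), .ofNat (nat_lit 114284), .ofNat (nat_lit 0), .ofNat (nat_lit 157141), .negSucc (nat_lit 20404), .ofNat (nat_lit 118994), .ofNat (nat_lit 0), .ofNat (nat_lit 161970)⟩⟩, [⟨nat_lit 13, nat_lit 86, nat_lit 40, nat_lit 100, nat_lit 103706410⟩, ⟨nat_lit 10, nat_lit 100, nat_lit 58, nat_lit 64, nat_lit 31656454⟩]⟩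
noncomputable def p053_l123 : Lf2 := ⟨nat_lit 0, nat_lit 10, [nat_lit 0, nat_lit 5, nat_lit 5, nat_lit 20], false, nat_lit 0, nat_lit 80, nat_lit 0, nat_lit 260, ⟨nat_lit 125, nat_lit 875, nat_lit 0, nat_lit 8, nat_lit 319, nat_lit 617, nat_lit 29, nat_lit 0, nat_lit 0, nat_lit 0, nat_lit 0, nat_lit 0, nat_lit 40960846, nat_lit 26039154, nat_lit 0, nat_lit 3340687, true, true⟩,
 nat_lit 0, nat_lit 0, nat_lit 2138, nat_lit 0, nat_lit 3645, nat_lit 1022, nat_lit 261, nat_lit 0, nat_lit 0, nat_lit 259, nat_lit 0, nat_lit 0, nat_lit 0, nat_lit 0, nat_lit 0, nat_lit 350000, nat_lit 0, nat_lit 0, [(nat_lit 15, [(nat_lit 1, nat_lit 875)])],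
 ⟨p053_k29, nat_lit 0, nat_lit 0, nat_lit 194, nat_lit 0, nat_lit 0, [nat_lit 2177925000, nat_lit 2841758334, nat_lit 3028416666], [], [nat_lit 26870700279, nat_lit 27301569789, nat_lit 30230607832, nat_lit 30587115196, nat_lit 25623569849, nat_lit 26031026569, nat_lit 28796763944, nat_lit 29136070096], nat_lit 0, nat_lit 0, nat_lit 0, nat_lit 0, nat_lit 0, nat_lit 0, [], [nat_lit 18, nat_lit 40, nat_lit 40, nat_lit 80, nat_lit 2, nat_lit 226, nat_lit 20, nat_lit 6]⟩, ⟨p053_k30, nat_lit 0, nat_lit 0, nat_lit 909, nat_lit 0, nat_lit 1456774, [nat_lit 781250000, nat_lit 1230250000, nat_lit 1484000000], [], [nat_lit 4755756472, nat_lit 4745762044, nat_lit 4875648623, nat_lit 4858977922, nat_lit 4092923581, nat_lit 4077974303, nat_lit 4179947186, nat_lit 4159358677], nat_lit 1271250, nat_lit 1271250, nat_lit 1271250, nat_lit 1271250, nat_lit 0, nat_lit 1836250, [nat_lit 1412500, nat_lit 1271250, nat_lit 1271250],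 [nat_lit 46, nat_lit 40, nat_lit 40, nat_lit 80, nat_lit 41, nat_lit 345, nat_lit 125, nat_lit 8]⟩,
 ⟨nat_lit 4472, nat_lit 4744, ⟨.ofNat (nat_lit 730582), .ofNat (nat_lit 849070), .ofNat (nat_lit 752067), .ofNat (nat_lit 870555), .ofNat (nat_lit 725496), .ofNat (nat_lit 841057), .ofNat (nat_lit 747059), .ofNat (nat_lit 862620)⟩, ⟨.negSucc (nat_lit 20404), .ofNat (nat_lit 118994), .ofNat (nat_lit 0), .ofNat (nat_lit 161970), .negSucc (nat_lit 12423), .ofNat (nat_lit 123532), .ofNat (nat_lit 0), .ofNat (nat_lit 166665)⟩⟩, [⟨nat_lit 13, nat_lit 83, nat_lit 45, nat_lit 100, nat_lit 136132888⟩, ⟨nat_lit 22, nat_lit 68, nat_lit 100, nat_lit 53, nat_lit 21691419⟩]⟩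
noncomputable def p053_l124 : Lf2 := ⟨nat_lit 0, nat_lit 10, [nat_lit 0, nat_lit 5, nat_lit 5, nat_lit 20], false, nat_lit 80, nat_lit 160, nat_lit 0, nat_lit 336, ⟨nat_lit 106, nat_lit 894, nat_lit 0, nat_lit 8, nat_lit 324, nat_lit 894, nat_lit 82, nat_lit 0, nat_lit 0, nat_lit 0, nat_lit 0, nat_lit 0, nat_lit 38515762, nat_lit 25589219, nat_lit 2895019, nat_lit 4305332, true, true⟩,
 nat_lit 0, nat_lit 0, nat_lit 2475, nat_lit 0, nat_lit 4244, nat_lit 1060, nat_lit 81, nat_lit 0, nat_lit 0, nat_lit 72, nat_lit 0, nat_lit 0, nat_lit 0, nat_lit 0, nat_lit 0, nat_lit 841800, nat_lit 0, nat_lit 0, [(nat_lit 12, [(nat_lit 1, nat_lit 87), (nat_lit 2, nat_lit 807)])],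
 ⟨p053_k23, nat_lit 0, nat_lit 0, nat_lit 155, nat_lit 0, nat_lit 0, [nat_lit 2412349201, nat_lit 2469989200, nat_lit 1035360800], [], [nat_lit 23649662358, nat_lit 24459808342, nat_lit 27666261596, nat_lit 28367737209, nat_lit 23809386278, nat_lit 24542643398, nat_lit 27530292438, nat_lit 28218698308], nat_lit 0, nat_lit 0, nat_lit 0, nat_lit 0, nat_lit 0, nat_lit 0, [], [nat_lit 8, nat_lit 40, nat_lit 40, nat_lit 80, nat_lit 1, nat_lit 249, nat_lit 40, nat_lit 6]⟩, ⟨p053_k26, nat_lit 0, nat_lit 0, nat_lit 818, nat_lit 0, nat_lit 1221095, [nat_lit 662500000, nat_lit 1043252000, nat_lit 1258432000], [], [nat_lit 4817089016, nat_lit 4771658688, nat_lit 4948407668, nat_lit 4886216492, nat_lit 3870988476, nat_lit 3798318946, nat_lit 3993588269, nat_lit 3983065693], nat_lit 1271250, nat_lit 1271250, nat_lit 1271250, nat_lit 1271250, nat_lit 0, nat_lit 2373000, [nat_lit 1412500, nat_lit 1271250, nat_lit 1271250],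 [nat_lit 46, nat_lit 40, nat_lit 40, nat_lit 80, nat_lit 41, nat_lit 373, nat_lit 150, nat_lit 9]⟩,
 ⟨nat_lit 5000, nat_lit 5478, ⟨.ofNat (nat_lit 724760), .ofNat (nat_lit 867109), .ofNat (nat_lit 767454), .ofNat (nat_lit 909802), .ofNat (nat_lit 714246), .ofNat (nat_lit 849937), .ofNat (nat_lit 757084), .ofNat (nat_lit 892774)⟩, ⟨.ofNat (nat_lit 104343), .ofNat (nat_lit 254209), .ofNat (nat_lit 147057), .ofNat (nat_lit 296923), .ofNat (nat_lit 114284), .ofNat (nat_lit 257141), .ofNat (nat_lit 157141), .ofNat (nat_lit 299999)⟩⟩, [⟨nat_lit 13, nat_lit 90, nat_lit 36, nat_lit 100, nat_lit 112167533⟩, ⟨nat_lit 10, nat_lit 100, nat_lit 25, nat_lit 93, nat_lit 28644164⟩]⟩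
noncomputable def p053_l125 : Lf2 := ⟨nat_lit 0, nat_lit 10, [nat_lit 0, nat_lit 5, nat_lit 5, nat_lit 20], false, nat_lit 80, nat_lit 160, nat_lit 0, nat_lit 336, ⟨nat_lit 63, nat_lit 937, nat_lit 0, nat_lit 8, nat_lit 317, nat_lit 937, nat_lit 84, nat_lit 0, nat_lit 0, nat_lit 0, nat_lit 0, nat_lit 0, nat_lit 39039993, nat_lit 24902527, nat_lit 3057480, nat_lit 4320887, true, true⟩,
 nat_lit 0, nat_lit 0, nat_lit 1477, nat_lit 0, nat_lit 3832, nat_lit 633, nat_lit 0, nat_lit 0, nat_lit 0, nat_lit 43, nat_lit 0, nat_lit 0, nat_lit 0, nat_lit 0, nat_lit 0, nat_lit 673000, nat_lit 0, nat_lit 0, [(nat_lit 15, [(nat_lit 1, nat_lit 440), (nat_lit 2, nat_lit 497)])],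
 ⟨p053_k28, nat_lit 0, nat_lit 0, nat_lit 135, nat_lit 0, nat_lit 0, [nat_lit 2146113201, nat_lit 1950747334, nat_lit 1174515600], [], [nat_lit 24048713809, nat_lit 24900739393, nat_lit 27680498738, nat_lit 28381438916, nat_lit 24391373441, nat_lit 25163983841, nat_lit 27726975646, nat_lit 28405388055], nat_lit 0, nat_lit 0, nat_lit 0, nat_lit 0, nat_lit 0, nat_lit 0, [], [nat_lit 18, nat_lit 40, nat_lit 40, nat_lit 80, nat_lit 2, nat_lit 249, nat_lit 40, nat_lit 7]⟩, ⟨p053_k26, nat_lit 0, nat_lit 0, nat_lit 1037, nat_lit 0, nat_lit 1721410, [nat_lit 393750000, nat_lit 620046000, nat_lit 747936000], [], [nat_lit 2940550092, nat_lit 2893536576, nat_lit 2940979853, nat_lit 2888838399, nat_lit 2316530477, nat_lit 2261152952, nat_lit 2356542930, nat_lit 2350581094], nat_lit 1271250, nat_lit 1271250, nat_lit 1271250, nat_lit 1271250, nat_lit 0, nat_lit 2373000, [nat_lit 1412500, nat_lit 1271250, nat_lit 1271250],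 [nat_lit 46, nat_lit 40, nat_lit 40, nat_lit 80, nat_lit 41, nat_lit 381, nat_lit 150, nat_lit 9]⟩,
 ⟨nat_lit 4472, nat_lit 5000, ⟨.ofNat (nat_lit 714270), .ofNat (nat_lit 842833), .ofNat (nat_lit 757103), .ofNat (nat_lit 885667), .ofNat (nat_lit 703919), .ofNat (nat_lit 826271), .ofNat (nat_lit 747027), .ofNat (nat_lit 869380)⟩, ⟨.ofNat (nat_lit 114284), .ofNat (nat_lit 257141), .ofNat (nat_lit 157141), .ofNat (nat_lit 299999), .ofNat (nat_lit 123532), .ofNat (nat_lit 259489), .ofNat (nat_lit 166665), .ofNat (nat_lit 302621)⟩⟩, [⟨nat_lit 13, nat_lit 84, nat_lit 47, nat_lit 100, nat_lit 158379707⟩, ⟨nat_lit 22, nat_lit 65, nat_lit 100, nat_lit 95, nat_lit 6499942⟩]⟩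
noncomputable def p053_l126 : Lf2 := ⟨nat_lit 0, nat_lit 10, [nat_lit 0, nat_lit 5, nat_lit 5, nat_lit 20], true, nat_lit 160, nat_lit 300, nat_lit 0, nat_lit 360, ⟨nat_lit 0, nat_lit 1000, nat_lit 0, nat_lit 6, nat_lit 266, nat_lit 1000, nat_lit 161, nat_lit 0, nat_lit 0, nat_lit 0, nat_lit 0, nat_lit 0, nat_lit 39883060, nat_lit 18689193, nat_lit 8427747, nat_lit 4972341, true, true⟩,
 nat_lit 0, nat_lit 0, nat_lit 0, nat_lit 2873, nat_lit 3915, nat_lit 0, nat_lit 0, nat_lit 0, nat_lit 0, nat_lit 0, nat_lit 0, nat_lit 0, nat_lit 0, nat_lit 0, nat_lit 0, nat_lit 250000, nat_lit 0, nat_lit 0, [(nat_lit 12, [(nat_lit 0, nat_lit 1000)]), (nat_lit 15, [(nat_lit 0, nat_lit 1000)])],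
 ⟨p053_k23, nat_lit 0, nat_lit 0, nat_lit 57, nat_lit 0, nat_lit 0, [nat_lit 2364000000, nat_lit 2954000000, nat_lit 3510800000], [], [nat_lit 17329734160, nat_lit 19874860400, nat_lit 21726158500, nat_lit 23811363680, nat_lit 22865279370, nat_lit 24769491340, nat_lit 26137908240, nat_lit 27803278610], nat_lit 0, nat_lit 0, nat_lit 0, nat_lit 0, nat_lit 0, nat_lit 0, [], [nat_lit 8, nat_lit 40, nat_lit 40, nat_lit 80, nat_lit 1, nat_lit 401, nat_lit 175, nat_lit 11]⟩, C1.Rw.none,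
 ⟨nat_lit 4472, nat_lit 5478, ⟨.ofNat (nat_lit 574895), .ofNat (nat_lit 724687), .ofNat (nat_lit 617523), .ofNat (nat_lit 767319), .ofNat (nat_lit 567940), .ofNat (nat_lit 703822), .ofNat (nat_lit 610987), .ofNat (nat_lit 746873)⟩, ⟨.ofNat (nat_lit 254209), .ofNat (nat_lit 516475), .ofNat (nat_lit 296923), .ofNat (nat_lit 559189), .ofNat (nat_lit 259489), .ofNat (nat_lit 497412), .ofNat (nat_lit 302621), .ofNat (nat_lit 540545)⟩⟩, [⟨nat_lit 16, nat_lit 100, nat_lit 95, nat_lit 87, nat_lit 142612935⟩]⟩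
noncomputable def p053_l127 : Lf2 := ⟨nat_lit 0, nat_lit 10, [nat_lit 0, nat_lit 5, nat_lit 5, nat_lit 20], true, nat_lit 160, nat_lit 300, nat_lit 16, nat_lit 360, ⟨nat_lit 0, nat_lit 1000, nat_lit 0, nat_lit 8, nat_lit 309, nat_lit 1000, nat_lit 161, nat_lit 0, nat_lit 0, nat_lit 0, nat_lit 0, nat_lit 0, nat_lit 36544732, nat_lit 22522220, nat_lit 7933048, nat_lit 5095730, true, true⟩,
 nat_lit 0, nat_lit 0, nat_lit 0, nat_lit 2786, nat_lit 3692, nat_lit 0, nat_lit 0, nat_lit 0, nat_lit 0, nat_lit 0, nat_lit 0, nat_lit 0, nat_lit 0, nat_lit 0, nat_lit 0, nat_lit 250000, nat_lit 0, nat_lit 0, [(nat_lit 12, [(nat_lit 0, nat_lit 1000)]), (nat_lit 15, [(nat_lit 0, nat_lit 1000)])],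
 ⟨p053_k23, nat_lit 0, nat_lit 0, nat_lit 70, nat_lit 0, nat_lit 0, [nat_lit 2364000000, nat_lit 2954000000, nat_lit 3510800000], [], [nat_lit 21873628400, nat_lit 23909440864, nat_lit 24312746416, nat_lit 26125880864, nat_lit 26240475752, nat_lit 27789697236, nat_lit 28117222296, nat_lit 29505427808], nat_lit 0, nat_lit 0, nat_lit 0, nat_lit 0, nat_lit 0, nat_lit 0, [], [nat_lit 8, nat_lit 40, nat_lit 40, nat_lit 80, nat_lit 1, nat_lit 289, nat_lit 75, nat_lit 7]⟩, C1.Rw.none,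
 ⟨nat_lit 4472, nat_lit 5478, ⟨.ofNat (nat_lit 724687), .ofNat (nat_lit 799582), .ofNat (nat_lit 767319), .ofNat (nat_lit 842216), .ofNat (nat_lit 703822), .ofNat (nat_lit 771763), .ofNat (nat_lit 746873), .ofNat (nat_lit 814816)⟩, ⟨.ofNat (nat_lit 254209), .ofNat (nat_lit 516475), .ofNat (nat_lit 296923), .ofNat (nat_lit 559189), .ofNat (nat_lit 259489), .ofNat (nat_lit 497412), .ofNat (nat_lit 302621), .ofNat (nat_lit 540545)⟩⟩, [⟨nat_lit 16, nat_lit 100, nat_lit 95, nat_lit 87, nat_lit 68477790⟩, ⟨nat_lit 4, nat_lit 100, nat_lit 90, nat_lit 74, nat_lit 74303318⟩]⟩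
noncomputable def p053_l128 : Lf2 := ⟨nat_lit 0, nat_lit 10, [nat_lit 0, nat_lit 5, nat_lit 5, nat_lit 20], true, nat_lit 160, nat_lit 240, nat_lit 48, nat_lit 352, ⟨nat_lit 0, nat_lit 1000, nat_lit 0, nat_lit 9, nat_lit 336, nat_lit 1000, nat_lit 140, nat_lit 0, nat_lit 0, nat_lit 0, nat_lit 0, nat_lit 0, nat_lit 35384051, nat_lit 25400061, nat_lit 6215888, nat_lit 4938642, true, true⟩,
 nat_lit 0, nat_lit 0, nat_lit 0, nat_lit 2549, nat_lit 4446, nat_lit 0, nat_lit 0, nat_lit 0, nat_lit 0, nat_lit 0, nat_lit 0, nat_lit 0, nat_lit 0, nat_lit 0, nat_lit 0, nat_lit 250000, nat_lit 0, nat_lit 0, [(nat_lit 12, [(nat_lit 0, nat_lit 1000)]), (nat_lit 15, [(nat_lit 0, nat_lit 1000)])],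
 ⟨p053_k23, nat_lit 0, nat_lit 0, nat_lit 88, nat_lit 0, nat_lit 0, [nat_lit 2364000000, nat_lit 2954000000, nat_lit 3510800000], [], [nat_lit 25666669992, nat_lit 27309454560, nat_lit 27856248698, nat_lit 29382230348, nat_lit 27082675712, nat_lit 28574397992, nat_lit 29070504877, nat_lit 30394681653], nat_lit 0, nat_lit 0, nat_lit 0, nat_lit 0, nat_lit 0, nat_lit 0, [], [nat_lit 8, nat_lit 40, nat_lit 40, nat_lit 80, nat_lit 1, nat_lit 272, nat_lit 60, nat_lit 6]⟩, C1.Rw.none,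
 ⟨nat_lit 4472, nat_lit 5478, ⟨.ofNat (nat_lit 799582), .ofNat (nat_lit 866988), .ofNat (nat_lit 842216), .ofNat (nat_lit 909625), .ofNat (nat_lit 771763), .ofNat (nat_lit 832909), .ofNat (nat_lit 814816), .ofNat (nat_lit 875965)⟩, ⟨.ofNat (nat_lit 254209), .ofNat (nat_lit 404075), .ofNat (nat_lit 296923), .ofNat (nat_lit 446789), .ofNat (nat_lit 259489), .ofNat (nat_lit 395445), .ofNat (nat_lit 302621), .ofNat (nat_lit 438578)⟩⟩, [⟨nat_lit 13, nat_lit 87, nat_lit 41, nat_lit 100, nat_lit 233519385⟩]⟩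
noncomputable def p053_l129 : Lf2 := ⟨nat_lit 0, nat_lit 10, [nat_lit 0, nat_lit 5, nat_lit 5, nat_lit 20], true, nat_lit 240, nat_lit 300, nat_lit 112, nat_lit 360, ⟨nat_lit 0, nat_lit 1000, nat_lit 0, nat_lit 9, nat_lit 339, nat_lit 1000, nat_lit 191, nat_lit 0, nat_lit 0, nat_lit 0, nat_lit 0, nat_lit 0, nat_lit 33066722, nat_lit 24342050, nat_lit 9591228, nat_lit 5356925, true, true⟩,
 nat_lit 0, nat_lit 0, nat_lit 0, nat_lit 2873, nat_lit 3653, nat_lit 0, nat_lit 0, nat_lit 0, nat_lit 0, nat_lit 0, nat_lit 0, nat_lit 0, nat_lit 0, nat_lit 0, nat_lit 0, nat_lit 250000, nat_lit 0, nat_lit 0, [(nat_lit 12, [(nat_lit 0, nat_lit 1000)])],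
 ⟨p053_k22, nat_lit 0, nat_lit 0, nat_lit 59, nat_lit 0, nat_lit 0, [nat_lit 2378800001, nat_lit 3513428572], [], [nat_lit 26112193589, nat_lit 26900999781, nat_lit 28142477389, nat_lit 28848035958, nat_lit 28142248565, nat_lit 28834472769, nat_lit 29947527843, nat_lit 30612589895], nat_lit 0, nat_lit 0, nat_lit 0, nat_lit 0, nat_lit 0, nat_lit 0, [], [nat_lit 82, nat_lit 40, nat_lit 40, nat_lit 80, nat_lit 63, nat_lit 289, nat_lit 75, nat_lit 7]⟩, C1.Rw.none,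
 ⟨nat_lit 5000, nat_lit 5478, ⟨.ofNat (nat_lit 799680), .ofNat (nat_lit 867109), .ofNat (nat_lit 842374), .ofNat (nat_lit 909802), .ofNat (nat_lit 785662), .ofNat (nat_lit 849937), .ofNat (nat_lit 828500), .ofNat (nat_lit 892774)⟩, ⟨.ofNat (nat_lit 404075), .ofNat (nat_lit 516475), .ofNat (nat_lit 446789), .ofNat (nat_lit 559189), .ofNat (nat_lit 399998), .ofNat (nat_lit 507141), .ofNat (nat_lit 442856), .ofNat (nat_lit 549998)⟩⟩, [⟨nat_lit 13, nat_lit 94, nat_lit 21, nat_lit 100, nat_lit 194414732⟩, ⟨nat_lit 16, nat_lit 100, nat_lit 95, nat_lit 87, nat_lit 151892200⟩]⟩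
noncomputable def p053_l130 : Lf2 := ⟨nat_lit 0, nat_lit 10, [nat_lit 0, nat_lit 5, nat_lit 5, nat_lit 20], true, nat_lit 240, nat_lit 280, nat_lit 112, nat_lit 360, ⟨nat_lit 0, nat_lit 1000, nat_lit 0, nat_lit 9, nat_lit 331, nat_lit 1000, nat_lit 182, nat_lit 0, nat_lit 0, nat_lit 0, nat_lit 0, nat_lit 0, nat_lit 33990483, nat_lit 23974885, nat_lit 9034632, nat_lit 5283792, true, true⟩,
 nat_lit 0, nat_lit 0, nat_lit 0, nat_lit 2831, nat_lit 3611, nat_lit 0, nat_lit 0, nat_lit 0, nat_lit 0, nat_lit 0, nat_lit 0, nat_lit 0, nat_lit 0, nat_lit 0, nat_lit 0, nat_lit 250000, nat_lit 0, nat_lit 0, [(nat_lit 15, [(nat_lit 0, nat_lit 1000)])],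
 ⟨p053_k24, nat_lit 0, nat_lit 0, nat_lit 59, nat_lit 0, nat_lit 0, [nat_lit 2318400000, nat_lit 3071600000], [], [nat_lit 26854280860, nat_lit 27640278764, nat_lit 28576209749, nat_lit 29288830896, nat_lit 28140135364, nat_lit 28862268764, nat_lit 29736431970, nat_lit 30441232596], nat_lit 0, nat_lit 0, nat_lit 0, nat_lit 0, nat_lit 0, nat_lit 0, [], [nat_lit 74, nat_lit 40, nat_lit 40, nat_lit 80, nat_lit 43, nat_lit 203, nat_lit 0, nat_lit 5]⟩, C1.Rw.none,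
 ⟨nat_lit 4472, nat_lit 5000, ⟨.ofNat (nat_lit 785694), .ofNat (nat_lit 842833), .ofNat (nat_lit 828527), .ofNat (nat_lit 885667), .ofNat (nat_lit 771892), .ofNat (nat_lit 826271), .ofNat (nat_lit 815001), .ofNat (nat_lit 869380)⟩, ⟨.ofNat (nat_lit 399998), .ofNat (nat_lit 471427), .ofNat (nat_lit 442856), .ofNat (nat_lit 514284), .ofNat (nat_lit 395445), .ofNat (nat_lit 463423), .ofNat (nat_lit 438578), .ofNat (nat_lit 506556)⟩⟩, [⟨nat_lit 13, nat_lit 88, nat_lit 32, nat_lit 100, nat_lit 226184282⟩, ⟨nat_lit 16, nat_lit 94, nat_lit 100, nat_lit 87, nat_lit 169115252⟩]⟩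
noncomputable def b_V_700_500_10_1 : St := ⟨true, nat_lit 0, nat_lit 1, nat_lit 1, nat_lit 80, nat_lit 280, nat_lit 320, nat_lit 200, nat_lit 240, nat_lit 16, nat_lit 396, nat_lit 40, nat_lit 80, nat_lit 0, nat_lit 300, nat_lit 0, nat_lit 360, nat_lit 0, nat_lit 40, nat_lit 0, nat_lit 0, nat_lit 0, nat_lit 0⟩
theorem d_V_700_500_10_1 (h : EB TB.env) : Dead b_V_700_500_10_1 := chkB_sound0 h (T :=
(.spl (nat_lit 2) (nat_lit 240)
(.spl (nat_lit 4) (nat_lit 160)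
(.leaf p053_l109)
(.spl (nat_lit 2) (nat_lit 120)
(.spl (nat_lit 1) (nat_lit 220)
(.leaf p053_l110)
(.trZ (nat_lit 0) (nat_lit 100) (nat_lit 92) (nat_lit 49) (nat_lit 24) (.trX (nat_lit 19) (nat_lit 100) (nat_lit 68) (nat_lit 80) (nat_lit 348) (.spl (nat_lit 0) (nat_lit 300)
(.leaf p053_l111)
(.trZ (nat_lit 0) (nat_lit 100) (nat_lit 87) (nat_lit 59) (nat_lit 36) (.trX (nat_lit 16) (nat_lit 94) (nat_lit 100) (nat_lit 87) (nat_lit 280) (.leaf p053_l112)))))))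
(.leaf p053_l113)))
(.spl (nat_lit 4) (nat_lit 160)
(.spl (nat_lit 2) (nat_lit 320)
(.spl (nat_lit 0) (nat_lit 300)
(.spl (nat_lit 0) (nat_lit 290)
(.leaf p053_l114)
(.leaf p053_l115))
(.leaf p053_l116))
(.trX (nat_lit 22) (nat_lit 82) (nat_lit 76) (nat_lit 100) (nat_lit 336) (.spl (nat_lit 4) (nat_lit 80)
(.trX (nat_lit 22) (nat_lit 83) (nat_lit 100) (nat_lit 83) (nat_lit 260) (.spl (nat_lit 1) (nat_lit 220)
(.trX (nat_lit 13) (nat_lit 92) (nat_lit 31) (nat_lit 100) (nat_lit 392) (.spl (nat_lit 0) (nat_lit 300)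
(.spl (nat_lit 0) (nat_lit 290)
(.leaf p053_l117)
(.trX (nat_lit 13) (nat_lit 90) (nat_lit 36) (nat_lit 100) (nat_lit 388) (.leaf p053_l118)))
(.trX (nat_lit 13) (nat_lit 87) (nat_lit 41) (nat_lit 100) (nat_lit 384) (.spl (nat_lit 0) (nat_lit 310)
(.leaf p053_l119)
(.trX (nat_lit 13) (nat_lit 84) (nat_lit 47) (nat_lit 100) (nat_lit 380) (.leaf p053_l120))))))
(.spl (nat_lit 0) (nat_lit 300)
(.leaf p053_l121)
(.trX (nat_lit 13) (nat_lit 88) (nat_lit 32) (nat_lit 100) (nat_lit 392) (.spl (nat_lit 0) (nat_lit 310)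
(.leaf p053_l122)
(.trX (nat_lit 13) (nat_lit 85) (nat_lit 38) (nat_lit 100) (nat_lit 388) (.leaf p053_l123)))))))
(.spl (nat_lit 0) (nat_lit 300)
(.leaf p053_l124)
(.trX (nat_lit 13) (nat_lit 88) (nat_lit 32) (nat_lit 100) (nat_lit 392) (.leaf p053_l125))))))
(.spl (nat_lit 2) (nat_lit 320)
(.leaf p053_l126)
(.trZ (nat_lit 9) (nat_lit 100) (nat_lit 82) (nat_lit 44) (nat_lit 16) (.spl (nat_lit 2) (nat_lit 360)
(.leaf p053_l127)
(.trZ (nat_lit 9) (nat_lit 100) (nat_lit 61) (nat_lit 68) (nat_lit 48) (.spl (nat_lit 4) (nat_lit 240)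
(.trX (nat_lit 22) (nat_lit 61) (nat_lit 68) (nat_lit 100) (nat_lit 352) (.leaf p053_l128))
(.trZ (nat_lit 9) (nat_lit 100) (nat_lit 61) (nat_lit 92) (nat_lit 112) (.spl (nat_lit 0) (nat_lit 300)
(.leaf p053_l129)
(.trX (nat_lit 13) (nat_lit 88) (nat_lit 32) (nat_lit 100) (nat_lit 392) (.trX (nat_lit 16) (nat_lit 94) (nat_lit 100) (nat_lit 87) (nat_lit 280) (.leaf p053_l130))))))))))))) (by decide +kernel)
noncomputable def p053_l131 : Lf2 := ⟨nat_lit 0, nat_lit 10, [nat_lit 0, nat_lit 5, nat_lit 5, nat_lit 20], false, nat_lit 0, nat_lit 300, nat_lit 0, nat_lit 360, ⟨nat_lit 145, nat_lit 855, nat_lit 0, nat_lit 5, nat_lit 213, nat_lit 855, nat_lit 107, nat_lit 0, nat_lit 0, nat_lit 0, nat_lit 0, nat_lit 0, nat_lit 0, nat_lit 0, nat_lit 0, nat_lit 5000000, false, true⟩,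
 nat_lit 0, nat_lit 0, nat_lit 0, nat_lit 6388, nat_lit 4545, nat_lit 1367, nat_lit 135, nat_lit 0, nat_lit 0, nat_lit 102, nat_lit 0, nat_lit 0, nat_lit 0, nat_lit 0, nat_lit 0, nat_lit 501000, nat_lit 0, nat_lit 0, [(nat_lit 12, [(nat_lit 1, nat_lit 590), (nat_lit 2, nat_lit 265)])],
 ⟨p053_k23, nat_lit 0, nat_lit 0, nat_lit 297, nat_lit 0, nat_lit 0, [nat_lit 2315074000, nat_lit 3027554000, nat_lit 2904656000], [], [nat_lit 24295690787, nat_lit 25546014340, nat_lit 32146430261, nat_lit 32875384214, nat_lit 27052331687, nat_lit 27784397890, nat_lit 31199677868, nat_lit 31602738359], nat_lit 0, nat_lit 0, nat_lit 0, nat_lit 0, nat_lit 0, nat_lit 0, [], [nat_lit 8, nat_lit 40, nat_lit 40, nat_lit 80, nat_lit 1, nat_lit 401, nat_lit 175, nat_lit 12]⟩, ⟨p053_k26, nat_lit 0, nat_lit 0, nat_lit 364, nat_lit 0, nat_lit 0, [nat_lit 906250000, nat_lit 1427090000, nat_lit 1721440000], [], [nat_lit 6367015538, nat_lit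 6547263288, nat_lit 6680979456, nat_lit 6681584466, nat_lit 6159104581, nat_lit 6186720610, nat_lit 5647958194, nat_lit 5605147820], nat_lit 0, nat_lit 0, nat_lit 0, nat_lit 0, nat_lit 0, nat_lit 0, [], [nat_lit 46, nat_lit 40, nat_lit 40, nat_lit 80, nat_lit 41, nat_lit 483, nat_lit 250, nat_lit 13]⟩,
 ⟨nat_lit 5000, nat_lit 5478, ⟨.ofNat (nat_lit 155307), .ofNat (nat_lit 867109), .ofNat (nat_lit 198021), .ofNat (nat_lit 909802), .ofNat (nat_lit 171427), .ofNat (nat_lit 849937), .ofNat (nat_lit 214284), .ofNat (nat_lit 892774)⟩, ⟨.negSucc (nat_lit 45522), .ofNat (nat_lit 516475), .negSucc (nat_lit 2832), .ofNat (nat_lit 559189), .negSucc (nat_lit 28572), .ofNat (nat_lit 507141), .ofNat (nat_lit 0), .ofNat (nat_lit 549998)⟩⟩, [⟨nat_lit 4, nat_lit 100, nat_lit 94, nat_lit 75, nat_lit 83917953⟩, ⟨nat_lit 19, nat_lit 100, nat_lit 77, nat_lit 72, nat_lit 18495963⟩]⟩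
noncomputable def p053_l132 : Lf2 := ⟨nat_lit 0, nat_lit 10, [nat_lit 0, nat_lit 5, nat_lit 5, nat_lit 20], true, nat_lit 0, nat_lit 280, nat_lit 0, nat_lit 360, ⟨nat_lit 0, nat_lit 1000, nat_lit 0, nat_lit 5, nat_lit 214, nat_lit 1000, nat_lit 98, nat_lit 0, nat_lit 0, nat_lit 0, nat_lit 0, nat_lit 0, nat_lit 0, nat_lit 0, nat_lit 0, nat_lit 5000000, false, true⟩,
 nat_lit 0, nat_lit 0, nat_lit 0, nat_lit 4803, nat_lit 3829, nat_lit 0, nat_lit 0, nat_lit 0, nat_lit 0, nat_lit 0, nat_lit 0, nat_lit 0, nat_lit 0, nat_lit 0, nat_lit 0, nat_lit 528400, nat_lit 0, nat_lit 0, [(nat_lit 15, [(nat_lit 1, nat_lit 786), (nat_lit 2, nat_lit 214)])],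
 ⟨p053_k28, nat_lit 0, nat_lit 0, nat_lit 209, nat_lit 0, nat_lit 0, [nat_lit 2040187601, nat_lit 2075197201, nat_lit 1671175200], [], [nat_lit 20092360849, nat_lit 21709033455, nat_lit 30382958151, nat_lit 31378819000, nat_lit 23603847515, nat_lit 24583740595, nat_lit 30130537662, nat_lit 30681477229], nat_lit 0, nat_lit 0, nat_lit 0, nat_lit 0, nat_lit 0, nat_lit 0, [], [nat_lit 18, nat_lit 40, nat_lit 40, nat_lit 80, nat_lit 2, nat_lit 401, nat_lit 175, nat_lit 14]⟩, C1.Rw.none,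
 ⟨nat_lit 4472, nat_lit 5000, ⟨.ofNat (nat_lit 185713), .ofNat (nat_lit 842833), .ofNat (nat_lit 228562), .ofNat (nat_lit 885667), .ofNat (nat_lit 200895), .ofNat (nat_lit 826271), .ofNat (nat_lit 244020), .ofNat (nat_lit 869380)⟩, ⟨.negSucc (nat_lit 28572), .ofNat (nat_lit 471427), .ofNat (nat_lit 0), .ofNat (nat_lit 514284), .negSucc (nat_lit 12423), .ofNat (nat_lit 463423), .ofNat (nat_lit 0), .ofNat (nat_lit 506556)⟩⟩, [⟨nat_lit 13, nat_lit 84, nat_lit 47, nat_lit 100, nat_lit 45393376⟩, ⟨nat_lit 13, nat_lit 88, nat_lit 32, nat_lit 100, nat_lit 103493542⟩, ⟨nat_lit 16, nat_lit 94, nat_lit 100, nat_lit 87, nat_lit 62253044⟩]⟩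
noncomputable def p053_l133 : Lf2 := ⟨nat_lit 0, nat_lit 10, [nat_lit 0, nat_lit 5, nat_lit 5, nat_lit 20], true, nat_lit 0, nat_lit 300, nat_lit 0, nat_lit 360, ⟨nat_lit 0, nat_lit 1000, nat_lit 0, nat_lit 5, nat_lit 157, nat_lit 1000, nat_lit 106, nat_lit 0, nat_lit 0, nat_lit 0, nat_lit 0, nat_lit 0, nat_lit 0, nat_lit 0, nat_lit 0, nat_lit 5000000, false, false⟩,
 nat_lit 0, nat_lit 0, nat_lit 0, nat_lit 6206, nat_lit 5468, nat_lit 0, nat_lit 0, nat_lit 0, nat_lit 0, nat_lit 0, nat_lit 0, nat_lit 0, nat_lit 0, nat_lit 0, nat_lit 0, nat_lit 806800, nat_lit 0, nat_lit 0, [(nat_lit 12, [(nat_lit 1, nat_lit 322), (nat_lit 2, nat_lit 678)]), (nat_lit 15, [(nat_lit 1, nat_lit 322), (nat_lit 2, nat_lit 678)])],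
 ⟨p053_k22, nat_lit 0, nat_lit 0, nat_lit 298, nat_lit 0, nat_lit 0, [nat_lit 3261516801, nat_lit 680089600], [], [nat_lit 24024920589, nat_lit 26334858010, nat_lit 23227871761, nat_lit 24851327104, nat_lit 24580380408, nat_lit 26760337148, nat_lit 23781109934, nat_lit 25399428047], nat_lit 0, nat_lit 0, nat_lit 0, nat_lit 0, nat_lit 0, nat_lit 0, [], [nat_lit 82, nat_lit 40, nat_lit 40, nat_lit 80, nat_lit 63, nat_lit 373, nat_lit 150, nat_lit 11]⟩, C1.Rw.none,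
 ⟨nat_lit 4472, nat_lit 5478, ⟨.ofNat (nat_lit 155307), .ofNat (nat_lit 574895), .ofNat (nat_lit 198021), .ofNat (nat_lit 617523), .ofNat (nat_lit 187299), .ofNat (nat_lit 567940), .ofNat (nat_lit 230432), .ofNat (nat_lit 610987)⟩, ⟨.negSucc (nat_lit 45522), .ofNat (nat_lit 516475), .negSucc (nat_lit 2834), .ofNat (nat_lit 559189), .negSucc (nat_lit 12423), .ofNat (nat_lit 497412), .ofNat (nat_lit 0), .ofNat (nat_lit 540545)⟩⟩, [⟨nat_lit 4, nat_lit 100, nat_lit 90, nat_lit 74, nat_lit 109586579⟩]⟩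
noncomputable def p053_l134 : Lf2 := ⟨nat_lit 0, nat_lit 10, [nat_lit 0, nat_lit 5, nat_lit 5, nat_lit 20], true, nat_lit 0, nat_lit 300, nat_lit 0, nat_lit 360, ⟨nat_lit 0, nat_lit 1000, nat_lit 0, nat_lit 6, nat_lit 293, nat_lit 1000, nat_lit 106, nat_lit 0, nat_lit 0, nat_lit 0, nat_lit 0, nat_lit 0, nat_lit 0, nat_lit 0, nat_lit 0, nat_lit 5000000, true, true⟩,
 nat_lit 0, nat_lit 0, nat_lit 0, nat_lit 5293, nat_lit 4071, nat_lit 0, nat_lit 200, nat_lit 0, nat_lit 0, nat_lit 0, nat_lit 0, nat_lit 0, nat_lit 0, nat_lit 0, nat_lit 0, nat_lit 400000, nat_lit 0, nat_lit 0, [(nat_lit 12, [(nat_lit 1, nat_lit 1000)]), (nat_lit 15, [(nat_lit 1, nat_lit 1000)])],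
 ⟨p053_k23, nat_lit 0, nat_lit 0, nat_lit 217, nat_lit 0, nat_lit 0, [nat_lit 2068400000, nat_lit 2721200001, nat_lit 2642799999], [], [nat_lit 22744288119, nat_lit 24979595287, nat_lit 30978752166, nat_lit 32415533209, nat_lit 25284383004, nat_lit 26630028510, nat_lit 30625676633, nat_lit 31758842538], nat_lit 0, nat_lit 0, nat_lit 0, nat_lit 0, nat_lit 0, nat_lit 0, [], [nat_lit 8, nat_lit 40, nat_lit 40, nat_lit 80, nat_lit 1, nat_lit 401, nat_lit 175, nat_lit 11]⟩, C1.Rw.none,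
 ⟨nat_lit 4472, nat_lit 5478, ⟨.ofNat (nat_lit 574895), .ofNat (nat_lit 866988), .ofNat (nat_lit 617523), .ofNat (nat_lit 909625), .ofNat (nat_lit 567940), .ofNat (nat_lit 832909), .ofNat (nat_lit 610987), .ofNat (nat_lit 875965)⟩, ⟨.negSucc (nat_lit 45522), .ofNat (nat_lit 516475), .negSucc (nat_lit 2834), .ofNat (nat_lit 559189), .negSucc (nat_lit 12423), .ofNat (nat_lit 497412), .ofNat (nat_lit 0), .ofNat (nat_lit 540545)⟩⟩, [⟨nat_lit 13, nat_lit 87, nat_lit 41, nat_lit 100, nat_lit 132533091⟩, ⟨nat_lit 13, nat_lit 94, nat_lit 21, nat_lit 100, nat_lit 131982718⟩, ⟨nat_lit 4, nat_lit 100, nat_lit 90, nat_lit 74, nat_lit 83241782⟩]⟩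
noncomputable def b_V_700_500_10_2 : St := ⟨true, nat_lit 0, nat_lit 2, nat_lit 2, nat_lit 80, nat_lit 280, nat_lit 320, nat_lit 200, nat_lit 240, nat_lit 16, nat_lit 396, nat_lit 40, nat_lit 80, nat_lit 0, nat_lit 300, nat_lit 0, nat_lit 360, nat_lit 0, nat_lit 40, nat_lit 0, nat_lit 0, nat_lit 0, nat_lit 0⟩
theorem d_V_700_500_10_2 (h : EB TB.env) : Dead b_V_700_500_10_2 := chkB_sound0 h (T :=
(.st (nat_lit 1)
(.spl (nat_lit 0) (nat_lit 300)
(.leaf p053_l131)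
(.trZ (nat_lit 0) (nat_lit 100) (nat_lit 87) (nat_lit 50) (nat_lit 24) (.trX (nat_lit 13) (nat_lit 88) (nat_lit 32) (nat_lit 100) (nat_lit 392) (.trX (nat_lit 16) (nat_lit 94) (nat_lit 100) (nat_lit 87) (nat_lit 280) (.leaf p053_l132)))))
(.spl (nat_lit 2) (nat_lit 240)
(.leaf p053_l133)
(.leaf p053_l134)))) (by decide +kernel)
noncomputable def p053_l135 : Lf2 := ⟨nat_lit 0, nat_lit 10, [nat_lit 0, nat_lit 5, nat_lit 5, nat_lit 20], true, nat_lit 0, nat_lit 80, nat_lit 0, nat_lit 360, ⟨nat_lit 0, nat_lit 0, nat_lit 1000, nat_lit 5, nat_lit 97, nat_lit 1000, nat_lit 26, nat_lit 1000, nat_lit 4817, nat_lit 232, nat_lit 88817, nat_lit 288, nat_lit 63255469, nat_lit 0, nat_lit 0, nat_lit 1077499, false, false⟩,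
 nat_lit 0, nat_lit 5225, nat_lit 0, nat_lit 0, nat_lit 3325, nat_lit 0, nat_lit 0, nat_lit 0, nat_lit 0, nat_lit 0, nat_lit 0, nat_lit 0, nat_lit 0, nat_lit 0, nat_lit 182, nat_lit 860200, nat_lit 0, nat_lit 0, [(nat_lit 12, [(nat_lit 5, nat_lit 233), (nat_lit 6, nat_lit 767)])],
 ⟨p053_k23, nat_lit 0, nat_lit 0, nat_lit 465, nat_lit 0, nat_lit 367523, [nat_lit 3348406801, nat_lit 2650553467, nat_lit 387008400], [], [nat_lit 15908278055, nat_lit 16811970271, nat_lit 14508836170, nat_lit 15660203454, nat_lit 14425668856, nat_lit 15427065275, nat_lit 16333853836, nat_lit 15210498704], nat_lit 1271250, nat_lit 1271250, nat_lit 88400, nat_lit 490000, nat_lit 0, nat_lit 490000, [nat_lit 780000, nat_lit 1435000, nat_lit 1271250], [nat_lit 8, nat_lit 40, nat_lit 40, nat_lit 80, nat_lit 1, nat_lit 249, nat_lit 40, nat_lit 8]⟩, C1.Rw.none,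
 ⟨nat_lit 5000, nat_lit 5478, ⟨.ofNat (nat_lit 155307), .ofNat (nat_lit 275199), .ofNat (nat_lit 198021), .ofNat (nat_lit 317913), .ofNat (nat_lit 171427), .ofNat (nat_lit 285713), .ofNat (nat_lit 214284), .ofNat (nat_lit 328570)⟩, ⟨.negSucc (nat_lit 45522), .ofNat (nat_lit 104343), .negSucc (nat_lit 2832), .ofNat (nat_lit 147057), .negSucc (nat_lit 28572), .ofNat (nat_lit 114284), .ofNat (nat_lit 0), .ofNat (nat_lit 157141)⟩⟩, [⟨nat_lit 0, nat_lit 100, nat_lit 90, nat_lit 54, nat_lit 141795608⟩]⟩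
noncomputable def p053_l136 : Lf2 := ⟨nat_lit 0, nat_lit 10, [nat_lit 0, nat_lit 5, nat_lit 5, nat_lit 20], false, nat_lit 0, nat_lit 80, nat_lit 0, nat_lit 160, ⟨nat_lit 258, nat_lit 0, nat_lit 742, nat_lit 5, nat_lit 135, nat_lit 0, nat_lit 26, nat_lit 397, nat_lit 4817, nat_lit 232, nat_lit 173400, nat_lit 317, nat_lit 60114431, nat_lit 0, nat_lit 0, nat_lit 1655629, false, false⟩,
 nat_lit 0, nat_lit 7789, nat_lit 0, nat_lit 0, nat_lit 4956, nat_lit 2727, nat_lit 286, nat_lit 0, nat_lit 0, nat_lit 512, nat_lit 0, nat_lit 0, nat_lit 0, nat_lit 0, nat_lit 66, nat_lit 742000, nat_lit 0, nat_lit 0, [(nat_lit 12, [(nat_lit 6, nat_lit 742)])],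
 ⟨p053_k23, nat_lit 0, nat_lit 0, nat_lit 508, nat_lit 0, nat_lit 618820, [nat_lit 2485526401, nat_lit 2095820800, nat_lit 385778400], [], [nat_lit 15885020193, nat_lit 16723032384, nat_lit 16501450338, nat_lit 16680479280, nat_lit 16595656466, nat_lit 15208634385, nat_lit 18896507842, nat_lit 16622833810], nat_lit 1271250, nat_lit 1271250, nat_lit 490000, nat_lit 780000, nat_lit 0, nat_lit 490000, [nat_lit 780000, nat_lit 1435000, nat_lit 1271250], [nat_lit 8, nat_lit 40, nat_lit 40, nat_lit 80, nat_lit 1, nat_lit 260, nat_lit 50, nat_lit 8]⟩, ⟨p053_k26, nat_lit 0, nat_lit 0, nat_lit 234, nat_lit 0, nat_lit 0, [nat_lit 1612500000, nat_lit 2539236000, nat_lit 3062976000], [], [nat_lit 5948692284, nat_lit 6642352572, nat_lit 5768326452, nat_lit 6415813020, nat_lit 4355643180, nat_lit 4914909072, nat_lit 4191727152, nat_lit 4713577440], nat_lit 0, nat_lit 0, nat_lit 0, nat_lit 0, nat_lit 0, nat_lit 0, [], [nat_lit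 46, nat_lit 40, nat_lit 40, nat_lit 80, nat_lit 41, nat_lit 373, nat_lit 150, nat_lit 10]⟩,
 ⟨nat_lit 5000, nat_lit 5478, ⟨.ofNat (nat_lit 275199), .ofNat (nat_lit 350132), .ofNat (nat_lit 317913), .ofNat (nat_lit 392847), .ofNat (nat_lit 285713), .ofNat (nat_lit 357141), .ofNat (nat_lit 328570), .ofNat (nat_lit 399998)⟩, ⟨.negSucc (nat_lit 45522), .ofNat (nat_lit 104343), .negSucc (nat_lit 2832), .ofNat (nat_lit 147057), .negSucc (nat_lit 28572), .ofNat (nat_lit 114284), .ofNat (nat_lit 0), .ofNat (nat_lit 157141)⟩⟩, []⟩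
noncomputable def p053_l137 : Lf2 := ⟨nat_lit 0, nat_lit 10, [nat_lit 0, nat_lit 5, nat_lit 5, nat_lit 20], false, nat_lit 0, nat_lit 80, nat_lit 160, nat_lit 360, ⟨nat_lit 245, nat_lit 0, nat_lit 755, nat_lit 5, nat_lit 134, nat_lit 755, nat_lit 26, nat_lit 755, nat_lit 4267, nat_lit 231, nat_lit 170017, nat_lit 316, nat_lit 60194586, nat_lit 0, nat_lit 0, nat_lit 1642628, false, false⟩,
 nat_lit 0, nat_lit 7864, nat_lit 0, nat_lit 0, nat_lit 5004, nat_lit 2004, nat_lit 318, nat_lit 0, nat_lit 0, nat_lit 0, nat_lit 0, nat_lit 0, nat_lit 0, nat_lit 0, nat_lit 73, nat_lit 755000, nat_lit 0, nat_lit 0, [(nat_lit 12, [(nat_lit 6, nat_lit 755)])],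
 ⟨p053_k23, nat_lit 0, nat_lit 0, nat_lit 468, nat_lit 0, nat_lit 511877, [nat_lit 2541696001, nat_lit 2139912001, nat_lit 383726000], [], [nat_lit 14931829619, nat_lit 15535030736, nat_lit 16133465828, nat_lit 15583257111, nat_lit 16220836180, nat_lit 15057651376, nat_lit 18532736964, nat_lit 17384889420], nat_lit 1271250, nat_lit 1271250, nat_lit 490000, nat_lit 780000, nat_lit 0, nat_lit 490000, [nat_lit 780000, nat_lit 1435000, nat_lit 1271250], [nat_lit 8, nat_lit 40, nat_lit 40, nat_lit 80, nat_lit 1, nat_lit 260, nat_lit 50, nat_lit 8]⟩, ⟨p053_k26, nat_lit 0, nat_lit 0, nat_lit 121, nat_lit 0, nat_lit 0, [nat_lit 1531250000, nat_lit 2411290000, nat_lit 2908640000], [], [nat_lit 1666028444, nat_lit 2489178344, nat_lit 1707003132, nat_lit 2484089212, nat_lit 6035154118, nat_lit 6417720040, nat_lit 5836295492, nat_lit 6196803852], nat_lit 0, nat_lit 0, nat_lit 0, nat_lit 0, nat_lit 0, nat_lit 0, [], [nat_lit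 46, nat_lit 40, nat_lit 40, nat_lit 80, nat_lit 41, nat_lit 428, nat_lit 200, nat_lit 11]⟩,
 ⟨nat_lit 5244, nat_lit 5478, ⟨.ofNat (nat_lit 275199), .ofNat (nat_lit 350132), .ofNat (nat_lit 317913), .ofNat (nat_lit 392847), .ofNat (nat_lit 280485), .ofNat (nat_lit 353656), .ofNat (nat_lit 323256), .ofNat (nat_lit 396427)⟩, ⟨.negSucc (nat_lit 45522), .ofNat (nat_lit 104343), .negSucc (nat_lit 2827), .ofNat (nat_lit 147057), .negSucc (nat_lit 36940), .ofNat (nat_lit 109402), .ofNat (nat_lit 0), .ofNat (nat_lit 152172)⟩⟩, [⟨nat_lit 19, nat_lit 100, nat_lit 77, nat_lit 72, nat_lit 216248906⟩]⟩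
noncomputable def p053_l138 : Lf2 := ⟨nat_lit 0, nat_lit 10, [nat_lit 0, nat_lit 5, nat_lit 5, nat_lit 20], false, nat_lit 0, nat_lit 80, nat_lit 160, nat_lit 360, ⟨nat_lit 459, nat_lit 0, nat_lit 541, nat_lit 5, nat_lit 136, nat_lit 0, nat_lit 27, nat_lit 200, nat_lit 5400, nat_lit 233, nat_lit 173400, nat_lit 317, nat_lit 60033350, nat_lit 0, nat_lit 0, nat_lit 1668700, false, false⟩,
 nat_lit 0, nat_lit 7981, nat_lit 0, nat_lit 0, nat_lit 5300, nat_lit 3906, nat_lit 1581, nat_lit 0, nat_lit 0, nat_lit 0, nat_lit 0, nat_lit 0, nat_lit 0, nat_lit 0, nat_lit 0, nat_lit 541000, nat_lit 0, nat_lit 0, [(nat_lit 12, [(nat_lit 6, nat_lit 541)])],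
 ⟨p053_k31, nat_lit 0, nat_lit 0, nat_lit 408, nat_lit 0, nat_lit 583162, [nat_lit 2563552001, nat_lit 1781701600], [], [nat_lit 16432398752, nat_lit 17182363200, nat_lit 16556472678, nat_lit 17181897278, nat_lit 14694007078, nat_lit 15308592878, nat_lit 15801609378, nat_lit 15436776278], nat_lit 1271250, nat_lit 1271250, nat_lit 490000, nat_lit 780000, nat_lit 0, nat_lit 490000, [nat_lit 780000, nat_lit 1762500], [nat_lit 74, nat_lit 40, nat_lit 40, nat_lit 80, nat_lit 43, nat_lit 260, nat_lit 50, nat_lit 9]⟩, ⟨p053_k32, nat_lit 0, nat_lit 0, nat_lit 77, nat_lit 0, nat_lit 0, [nat_lit 2868750000, nat_lit 5449248000], [], [nat_lit 2861011548, nat_lit 4440622104, nat_lit 2922527484, nat_lit 4413013668, nat_lit 11253666114, nat_lit 12168717228, nat_lit 10851010200, nat_lit 11620341198], nat_lit 0, nat_lit 0, nat_lit 0, nat_lit 0, nat_lit 0, nat_lit 0, [], [nat_lit 107, nat_lit 40, nat_lit 40, nat_lit 80, nat_lit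 12, nat_lit 428, nat_lit 200, nat_lit 11]⟩,
 ⟨nat_lit 5000, nat_lit 5245, ⟨.ofNat (nat_lit 280485), .ofNat (nat_lit 353656), .ofNat (nat_lit 323256), .ofNat (nat_lit 396427), .ofNat (nat_lit 285713), .ofNat (nat_lit 357141), .ofNat (nat_lit 328570), .ofNat (nat_lit 399998)⟩, ⟨.negSucc (nat_lit 36940), .ofNat (nat_lit 109402), .ofNat (nat_lit 0), .ofNat (nat_lit 152172), .negSucc (nat_lit 28572), .ofNat (nat_lit 114284), .ofNat (nat_lit 0), .ofNat (nat_lit 157141)⟩⟩, [⟨nat_lit 7, nat_lit 77, nat_lit 100, nat_lit 72, nat_lit 417655597⟩]⟩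
noncomputable def p053_l139 : Lf2 := ⟨nat_lit 0, nat_lit 10, [nat_lit 0, nat_lit 5, nat_lit 5, nat_lit 20], true, nat_lit 80, nat_lit 160, nat_lit 0, nat_lit 360, ⟨nat_lit 0, nat_lit 0, nat_lit 1000, nat_lit 5, nat_lit 97, nat_lit 1000, nat_lit 82, nat_lit 1000, nat_lit 62017, nat_lit 276, nat_lit 88817, nat_lit 288, nat_lit 59608389, nat_lit 0, nat_lit 0, nat_lit 2233866, false, false⟩,
 nat_lit 0, nat_lit 5687, nat_lit 0, nat_lit 0, nat_lit 3618, nat_lit 0, nat_lit 0, nat_lit 0, nat_lit 0, nat_lit 0, nat_lit 0, nat_lit 0, nat_lit 0, nat_lit 0, nat_lit 198, nat_lit 948400, nat_lit 0, nat_lit 0, [(nat_lit 12, [(nat_lit 5, nat_lit 86), (nat_lit 6, nat_lit 914)])],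
 ⟨p053_k23, nat_lit 0, nat_lit 0, nat_lit 359, nat_lit 0, nat_lit 367523, [nat_lit 3525765601, nat_lit 2883392267, nat_lit 403592800], [], [nat_lit 12448260927, nat_lit 14127870864, nat_lit 11957284365, nat_lit 13200620013, nat_lit 13793725618, nat_lit 15115324912, nat_lit 14472592415, nat_lit 14615065823], nat_lit 1271250, nat_lit 1271250, nat_lit 88400, nat_lit 490000, nat_lit 490000, nat_lit 1100001, [nat_lit 780000, nat_lit 1435000, nat_lit 1271250], [nat_lit 8, nat_lit 40, nat_lit 40, nat_lit 80, nat_lit 1, nat_lit 272, nat_lit 60, nat_lit 8]⟩, C1.Rw.none,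
 ⟨nat_lit 5000, nat_lit 5478, ⟨.ofNat (nat_lit 155307), .ofNat (nat_lit 275199), .ofNat (nat_lit 198021), .ofNat (nat_lit 317913), .ofNat (nat_lit 171427), .ofNat (nat_lit 285713), .ofNat (nat_lit 214284), .ofNat (nat_lit 328570)⟩, ⟨.ofNat (nat_lit 104343), .ofNat (nat_lit 254209), .ofNat (nat_lit 147057), .ofNat (nat_lit 296923), .ofNat (nat_lit 114284), .ofNat (nat_lit 257141), .ofNat (nat_lit 157141), .ofNat (nat_lit 299999)⟩⟩, [⟨nat_lit 0, nat_lit 100, nat_lit 88, nat_lit 68, nat_lit 121890614⟩]⟩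
noncomputable def p053_l140 : Lf2 := ⟨nat_lit 0, nat_lit 10, [nat_lit 0, nat_lit 5, nat_lit 5, nat_lit 20], true, nat_lit 80, nat_lit 160, nat_lit 0, nat_lit 360, ⟨nat_lit 0, nat_lit 0, nat_lit 1000, nat_lit 5, nat_lit 134, nat_lit 1000, nat_lit 81, nat_lit 1000, nat_lit 62017, nat_lit 276, nat_lit 170017, nat_lit 316, nat_lit 56602801, nat_lit 0, nat_lit 0, nat_lit 2792975, false, false⟩,
 nat_lit 0, nat_lit 7156, nat_lit 0, nat_lit 0, nat_lit 4553, nat_lit 0, nat_lit 0, nat_lit 0, nat_lit 0, nat_lit 0, nat_lit 0, nat_lit 0, nat_lit 0, nat_lit 0, nat_lit 208, nat_lit 1000000, nat_lit 0, nat_lit 0, [(nat_lit 12, [(nat_lit 6, nat_lit 1000)])],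
 ⟨p053_k23, nat_lit 0, nat_lit 0, nat_lit 362, nat_lit 0, nat_lit 511877, [nat_lit 3637200001, nat_lit 3032400001, nat_lit 431200000], [], [nat_lit 10454056678, nat_lit 11411361191, nat_lit 10482828260, nat_lit 11556757578, nat_lit 12126887383, nat_lit 12538166721, nat_lit 14277565547, nat_lit 13219216144], nat_lit 1271250, nat_lit 1271250, nat_lit 490000, nat_lit 780000, nat_lit 490000, nat_lit 1100001, [nat_lit 780000, nat_lit 1435000, nat_lit 1271250], [nat_lit 8, nat_lit 40, nat_lit 40, nat_lit 80, nat_lit 1, nat_lit 289, nat_lit 75, nat_lit 8]⟩, C1.Rw.none,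
 ⟨nat_lit 5244, nat_lit 5478, ⟨.ofNat (nat_lit 275199), .ofNat (nat_lit 350132), .ofNat (nat_lit 317913), .ofNat (nat_lit 392847), .ofNat (nat_lit 280485), .ofNat (nat_lit 353656), .ofNat (nat_lit 323256), .ofNat (nat_lit 396427)⟩, ⟨.ofNat (nat_lit 104343), .ofNat (nat_lit 254209), .ofNat (nat_lit 147057), .ofNat (nat_lit 296923), .ofNat (nat_lit 109402), .ofNat (nat_lit 255744), .ofNat (nat_lit 152172), .ofNat (nat_lit 298515)⟩⟩, []⟩
noncomputable def p053_l141 : Lf2 := ⟨nat_lit 0, nat_lit 10, [nat_lit 0, nat_lit 5, nat_lit 5, nat_lit 20], true, nat_lit 80, nat_lit 160, nat_lit 0, nat_lit 360, ⟨nat_lit 0, nat_lit 0, nat_lit 1000, nat_lit 5, nat_lit 136, nat_lit 1000, nat_lit 82, nat_lit 1000, nat_lit 64067, nat_lit 277, nat_lit 173400, nat_lit 317, nat_lit 56361245, nat_lit 0, nat_lit 0, nat_lit 2838487, false, false⟩,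
 nat_lit 0, nat_lit 6057, nat_lit 0, nat_lit 0, nat_lit 4022, nat_lit 0, nat_lit 1060, nat_lit 0, nat_lit 0, nat_lit 0, nat_lit 0, nat_lit 0, nat_lit 0, nat_lit 0, nat_lit 162, nat_lit 1000000, nat_lit 0, nat_lit 0, [(nat_lit 12, [(nat_lit 6, nat_lit 1000)])],
 ⟨p053_k27, nat_lit 0, nat_lit 0, nat_lit 337, nat_lit 0, nat_lit 583162, [nat_lit 3085200001, nat_lit 2112400000, nat_lit 400000], [], [nat_lit 11408750661, nat_lit 12408805500, nat_lit 11927403017, nat_lit 12636649663, nat_lit 12877088797, nat_lit 13544378583, nat_lit 13325297039, nat_lit 13959460179], nat_lit 1271250, nat_lit 1271250, nat_lit 490000, nat_lit 780000, nat_lit 490000, nat_lit 1100001, [nat_lit 780000, nat_lit 1435000, nat_lit 1271250], [nat_lit 18, nat_lit 40, nat_lit 40, nat_lit 80, nat_lit 2, nat_lit 289, nat_lit 75, nat_lit 9]⟩, C1.Rw.none,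
 ⟨nat_lit 5000, nat_lit 5245, ⟨.ofNat (nat_lit 280485), .ofNat (nat_lit 353656), .ofNat (nat_lit 323256), .ofNat (nat_lit 396427), .ofNat (nat_lit 285713), .ofNat (nat_lit 357141), .ofNat (nat_lit 328570), .ofNat (nat_lit 399998)⟩, ⟨.ofNat (nat_lit 109402), .ofNat (nat_lit 255744), .ofNat (nat_lit 152172), .ofNat (nat_lit 298515), .ofNat (nat_lit 114284), .ofNat (nat_lit 257141), .ofNat (nat_lit 157141), .ofNat (nat_lit 299999)⟩⟩, []⟩
noncomputable def p053_l142 : Lf2 := ⟨nat_lit 0, nat_lit 10, [nat_lit 0, nat_lit 5, nat_lit 5, nat_lit 20], true, nat_lit 160, nat_lit 240, nat_lit 0, nat_lit 360, ⟨nat_lit 0, nat_lit 0, nat_lit 1000, nat_lit 5, nat_lit 96, nat_lit 1000, nat_lit 140, nat_lit 1000, nat_lit 183750, nat_lit 320, nat_lit 86400, nat_lit 287, nat_lit 55076785, nat_lit 0, nat_lit 0, nat_lit 3102279, false, false⟩,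
 nat_lit 0, nat_lit 5988, nat_lit 0, nat_lit 0, nat_lit 3810, nat_lit 0, nat_lit 0, nat_lit 0, nat_lit 0, nat_lit 0, nat_lit 0, nat_lit 0, nat_lit 0, nat_lit 0, nat_lit 131, nat_lit 593200, nat_lit 0, nat_lit 0, [(nat_lit 12, [(nat_lit 5, nat_lit 678), (nat_lit 6, nat_lit 322)])],
 ⟨p053_k33, nat_lit 0, nat_lit 0, nat_lit 307, nat_lit 0, nat_lit 304008, [nat_lit 3045569201, nat_lit 1129221201, nat_lit 264994400], [], [nat_lit 15703520098, nat_lit 15630544358, nat_lit 14366213242, nat_lit 14851609162, nat_lit 17388881507, nat_lit 17980431470, nat_lit 19237109243, nat_lit 18351470933], nat_lit 1271250, nat_lit 1271250, nat_lit 88400, nat_lit 490000, nat_lit 1100001, nat_lit 1785000, [nat_lit 780000, nat_lit 1762500, nat_lit 1271250], [nat_lit 99, nat_lit 40, nat_lit 40, nat_lit 80, nat_lit 17, nat_lit 317, nat_lit 100, nat_lit 9]⟩, C1.Rw.none,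
 ⟨nat_lit 5244, nat_lit 5478, ⟨.ofNat (nat_lit 155307), .ofNat (nat_lit 275199), .ofNat (nat_lit 198021), .ofNat (nat_lit 317913), .ofNat (nat_lit 163411), .ofNat (nat_lit 280485), .ofNat (nat_lit 206182), .ofNat (nat_lit 323256)⟩, ⟨.ofNat (nat_lit 254209), .ofNat (nat_lit 404075), .ofNat (nat_lit 296923), .ofNat (nat_lit 446789), .ofNat (nat_lit 255744), .ofNat (nat_lit 402086), .ofNat (nat_lit 298515), .ofNat (nat_lit 444857)⟩⟩, []⟩
noncomputable def p053_l143 : Lf2 := ⟨nat_lit 0, nat_lit 10, [nat_lit 0, nat_lit 5, nat_lit 5, nat_lit 20], true, nat_lit 160, nat_lit 240, nat_lit 0, nat_lit 360, ⟨nat_lit 0, nat_lit 0, nat_lit 1000, nat_lit 5, nat_lit 100, nat_lit 1000, nat_lit 140, nat_lit 1000, nat_lit 183750, nat_lit 320, nat_lit 93750, nat_lit 290, nat_lit 54792688, nat_lit 0, nat_lit 0, nat_lit 3162047, false, false⟩,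
 nat_lit 0, nat_lit 5519, nat_lit 0, nat_lit 0, nat_lit 3665, nat_lit 0, nat_lit 0, nat_lit 0, nat_lit 0, nat_lit 0, nat_lit 0, nat_lit 0, nat_lit 0, nat_lit 0, nat_lit 160, nat_lit 983800, nat_lit 0, nat_lit 0, [(nat_lit 12, [(nat_lit 5, nat_lit 27), (nat_lit 6, nat_lit 973)])],
 ⟨p053_k27, nat_lit 0, nat_lit 0, nat_lit 260, nat_lit 0, nat_lit 348897, [nat_lit 3063889201, nat_lit 2088409201, nat_lit 11044000], [], [nat_lit 14239872178, nat_lit 14962092380, nat_lit 13838301058, nat_lit 14475865953, nat_lit 17668036515, nat_lit 18459622950, nat_lit 19364104513, nat_lit 18523404823], nat_lit 1271250, nat_lit 1271250, nat_lit 111251, nat_lit 490000, nat_lit 1100001, nat_lit 1785000, [nat_lit 780000, nat_lit 1435000, nat_lit 1271250], [nat_lit 18, nat_lit 40, nat_lit 40, nat_lit 80, nat_lit 2, nat_lit 317, nat_lit 100, nat_lit 10]⟩, C1.Rw.none,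
 ⟨nat_lit 5000, nat_lit 5245, ⟨.ofNat (nat_lit 170728), .ofNat (nat_lit 280485), .ofNat (nat_lit 213499), .ofNat (nat_lit 323256), .ofNat (nat_lit 178570), .ofNat (nat_lit 285713), .ofNat (nat_lit 221427), .ofNat (nat_lit 328570)⟩, ⟨.ofNat (nat_lit 255744), .ofNat (nat_lit 402086), .ofNat (nat_lit 298515), .ofNat (nat_lit 444857), .ofNat (nat_lit 257141), .ofNat (nat_lit 399998), .ofNat (nat_lit 299999), .ofNat (nat_lit 442856)⟩⟩, [⟨nat_lit 4, nat_lit 100, nat_lit 92, nat_lit 75, nat_lit 142516599⟩]⟩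
noncomputable def p053_l144 : Lf2 := ⟨nat_lit 0, nat_lit 10, [nat_lit 0, nat_lit 5, nat_lit 5, nat_lit 20], true, nat_lit 240, nat_lit 300, nat_lit 0, nat_lit 288, ⟨nat_lit 0, nat_lit 27, nat_lit 973, nat_lit 5, nat_lit 83, nat_lit 1000, nat_lit 191, nat_lit 973, nat_lit 3701, nat_lit 228, nat_lit 64067, nat_lit 277, nat_lit 51180233, nat_lit 3396932, nat_lit 12422835, nat_lit 3533737, false, false⟩,
 nat_lit 0, nat_lit 5449, nat_lit 0, nat_lit 0, nat_lit 3467, nat_lit 0, nat_lit 0, nat_lit 0, nat_lit 0, nat_lit 0, nat_lit 0, nat_lit 0, nat_lit 0, nat_lit 0, nat_lit 130, nat_lit 614800, nat_lit 0, nat_lit 0, [(nat_lit 12, [(nat_lit 1, nat_lit 27), (nat_lit 5, nat_lit 615), (nat_lit 6, nat_lit 358)])],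
 ⟨p053_k23, nat_lit 0, nat_lit 0, nat_lit 329, nat_lit 0, nat_lit 367523, [nat_lit 2787488401, nat_lit 1940971601, nat_lit 268890400], [], [nat_lit 17503260900, nat_lit 18500860723, nat_lit 16995159350, nat_lit 18013405005, nat_lit 20857271626, nat_lit 22174007545, nat_lit 19828038139, nat_lit 21135518262], nat_lit 1271250, nat_lit 1271250, nat_lit 88400, nat_lit 230001, nat_lit 1271250, nat_lit 1271250, [nat_lit 780000, nat_lit 1435000, nat_lit 1271250], [nat_lit 8, nat_lit 40, nat_lit 40, nat_lit 80, nat_lit 1, nat_lit 317, nat_lit 100, nat_lit 9]⟩, C1.Rw.none,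
 ⟨nat_lit 5000, nat_lit 5478, ⟨.ofNat (nat_lit 155307), .ofNat (nat_lit 200266), .ofNat (nat_lit 198021), .ofNat (nat_lit 242980), .ofNat (nat_lit 171427), .ofNat (nat_lit 214284), .ofNat (nat_lit 214284), .ofNat (nat_lit 257141)⟩, ⟨.ofNat (nat_lit 404075), .ofNat (nat_lit 516475), .ofNat (nat_lit 446789), .ofNat (nat_lit 559189), .ofNat (nat_lit 399998), .ofNat (nat_lit 507141), .ofNat (nat_lit 442856), .ofNat (nat_lit 549998)⟩⟩, [⟨nat_lit 0, nat_lit 100, nat_lit 90, nat_lit 54, nat_lit 345289373⟩, ⟨nat_lit 16, nat_lit 100, nat_lit 95, nat_lit 87, nat_lit 273103304⟩]⟩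
noncomputable def p053_l145 : Lf2 := ⟨nat_lit 0, nat_lit 10, [nat_lit 0, nat_lit 5, nat_lit 5, nat_lit 20], true, nat_lit 240, nat_lit 300, nat_lit 0, nat_lit 336, ⟨nat_lit 0, nat_lit 0, nat_lit 1000, nat_lit 5, nat_lit 106, nat_lit 1000, nat_lit 191, nat_lit 1000, nat_lit 3701, nat_lit 228, nat_lit 106667, nat_lit 295, nat_lit 49732037, nat_lit 0, nat_lit 0, nat_lit 3855310, false, false⟩,
 nat_lit 0, nat_lit 5406, nat_lit 0, nat_lit 0, nat_lit 3440, nat_lit 0, nat_lit 0, nat_lit 0, nat_lit 0, nat_lit 0, nat_lit 0, nat_lit 0, nat_lit 0, nat_lit 0, nat_lit 134, nat_lit 608800, nat_lit 0, nat_lit 0, [(nat_lit 12, [(nat_lit 5, nat_lit 652), (nat_lit 6, nat_lit 348)])],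
 ⟨p053_k23, nat_lit 0, nat_lit 0, nat_lit 307, nat_lit 0, nat_lit 367523, [nat_lit 2814139201, nat_lit 1938992534, nat_lit 272689600], [], [nat_lit 16901963362, nat_lit 18008406243, nat_lit 16884684803, nat_lit 17956774483, nat_lit 19817947123, nat_lit 21106307340, nat_lit 19702737443, nat_lit 20642585623], nat_lit 1271250, nat_lit 1271250, nat_lit 230001, nat_lit 490000, nat_lit 1271250, nat_lit 1271250, [nat_lit 780000, nat_lit 1435000, nat_lit 1271250], [nat_lit 8, nat_lit 40, nat_lit 40, nat_lit 80, nat_lit 1, nat_lit 317, nat_lit 100, nat_lit 9]⟩, C1.Rw.none,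
 ⟨nat_lit 5000, nat_lit 5478, ⟨.ofNat (nat_lit 200266), .ofNat (nat_lit 275199), .ofNat (nat_lit 242980), .ofNat (nat_lit 317913), .ofNat (nat_lit 214284), .ofNat (nat_lit 285713), .ofNat (nat_lit 257141), .ofNat (nat_lit 328570)⟩, ⟨.ofNat (nat_lit 404075), .ofNat (nat_lit 516475), .ofNat (nat_lit 446789), .ofNat (nat_lit 559189), .ofNat (nat_lit 399998), .ofNat (nat_lit 507141), .ofNat (nat_lit 442856), .ofNat (nat_lit 549998)⟩⟩, [⟨nat_lit 0, nat_lit 100, nat_lit 88, nat_lit 68, nat_lit 115738999⟩, ⟨nat_lit 16, nat_lit 100, nat_lit 95, nat_lit 87, nat_lit 283281671⟩]⟩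
noncomputable def p053_l146 : Lf2 := ⟨nat_lit 0, nat_lit 10, [nat_lit 0, nat_lit 5, nat_lit 5, nat_lit 20], false, nat_lit 160, nat_lit 240, nat_lit 0, nat_lit 160, ⟨nat_lit 249, nat_lit 0, nat_lit 751, nat_lit 5, nat_lit 135, nat_lit 751, nat_lit 136, nat_lit 751, nat_lit 173400, nat_lit 317, nat_lit 173400, nat_lit 317, nat_lit 52453999, nat_lit 0, nat_lit 0, nat_lit 3597236, false, false⟩,
 nat_lit 0, nat_lit 7489, nat_lit 0, nat_lit 0, nat_lit 4765, nat_lit 2626, nat_lit 165, nat_lit 0, nat_lit 0, nat_lit 493, nat_lit 0, nat_lit 0, nat_lit 0, nat_lit 0, nat_lit 71, nat_lit 751000, nat_lit 0, nat_lit 0, [(nat_lit 12, [(nat_lit 6, nat_lit 751)])],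
 ⟨p053_k23, nat_lit 0, nat_lit 0, nat_lit 369, nat_lit 0, nat_lit 597878, [nat_lit 2526259201, nat_lit 2129422401, nat_lit 388665200], [], [nat_lit 14753460982, nat_lit 15377085824, nat_lit 14551055404, nat_lit 15493776224, nat_lit 17483810643, nat_lit 17305386974, nat_lit 19680617463, nat_lit 17465359433], nat_lit 1271250, nat_lit 1271250, nat_lit 490000, nat_lit 780000, nat_lit 1100001, nat_lit 1785000, [nat_lit 780000, nat_lit 1435000, nat_lit 1271250], [nat_lit 8, nat_lit 40, nat_lit 40, nat_lit 80, nat_lit 1, nat_lit 317, nat_lit 100, nat_lit 9]⟩, ⟨p053_k26, nat_lit 0, nat_lit 0, nat_lit 234, nat_lit 0, nat_lit 0, [nat_lit 1556250000, nat_lit 2450658000, nat_lit 2956128000], [], [nat_lit 5747558852, nat_lit 6411924796, nat_lit 5574368296, nat_lit 6198515180, nat_lit 4215283480, nat_lit 4754438536, nat_lit 4057906536, nat_lit 4561017820], nat_lit 0, nat_lit 0, nat_lit 0, nat_lit 0, nat_lit 0, nat_lit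 0, [], [nat_lit 46, nat_lit 40, nat_lit 40, nat_lit 80, nat_lit 41, nat_lit 373, nat_lit 150, nat_lit 10]⟩,
 ⟨nat_lit 5000, nat_lit 5478, ⟨.ofNat (nat_lit 275199), .ofNat (nat_lit 350132), .ofNat (nat_lit 317913), .ofNat (nat_lit 392847), .ofNat (nat_lit 285713), .ofNat (nat_lit 357141), .ofNat (nat_lit 328570), .ofNat (nat_lit 399998)⟩, ⟨.ofNat (nat_lit 254209), .ofNat (nat_lit 404075), .ofNat (nat_lit 275566), .ofNat (nat_lit 425432), .ofNat (nat_lit 257141), .ofNat (nat_lit 399998), .ofNat (nat_lit 278570), .ofNat (nat_lit 421427)⟩⟩, [⟨nat_lit 4, nat_lit 100, nat_lit 92, nat_lit 68, nat_lit 235366338⟩]⟩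
noncomputable def p053_l147 : Lf2 := ⟨nat_lit 0, nat_lit 10, [nat_lit 0, nat_lit 5, nat_lit 5, nat_lit 20], false, nat_lit 160, nat_lit 240, nat_lit 160, nat_lit 344, ⟨nat_lit 220, nat_lit 0, nat_lit 780, nat_lit 5, nat_lit 134, nat_lit 780, nat_lit 136, nat_lit 780, nat_lit 173400, nat_lit 317, nat_lit 170017, nat_lit 316, nat_lit 52519629, nat_lit 0, nat_lit 0, nat_lit 3586585, false, false⟩,
 nat_lit 0, nat_lit 7416, nat_lit 0, nat_lit 0, nat_lit 4718, nat_lit 1927, nat_lit 149, nat_lit 0, nat_lit 0, nat_lit 0, nat_lit 0, nat_lit 0, nat_lit 0, nat_lit 0, nat_lit 87, nat_lit 780000, nat_lit 0, nat_lit 0, [(nat_lit 12, [(nat_lit 6, nat_lit 780)])],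
 ⟨p053_k23, nat_lit 0, nat_lit 0, nat_lit 326, nat_lit 0, nat_lit 494554, [nat_lit 2656176001, nat_lit 2235472000, nat_lit 394856000], [], [nat_lit 14552688857, nat_lit 14101576899, nat_lit 13732538481, nat_lit 14260741595, nat_lit 17252409410, nat_lit 16422627892, nat_lit 19438989594, nat_lit 18342285776], nat_lit 1271250, nat_lit 1271250, nat_lit 490000, nat_lit 780000, nat_lit 1100001, nat_lit 1785000, [nat_lit 780000, nat_lit 1435000, nat_lit 1271250], [nat_lit 8, nat_lit 40, nat_lit 40, nat_lit 80, nat_lit 1, nat_lit 317, nat_lit 100, nat_lit 9]⟩, ⟨p053_k26, nat_lit 0, nat_lit 0, nat_lit 104, nat_lit 0, nat_lit 0, [nat_lit 1375000000, nat_lit 2165240000, nat_lit 2611840000], [], [nat_lit 1277125052, nat_lit 2047792992, nat_lit 1301092156, nat_lit 2028020256, nat_lit 4943075211, nat_lit 5374154922, nat_lit 4761988708, nat_lit 5126730233], nat_lit 0, nat_lit 0, nat_lit 0, nat_lit 0, nat_lit 0, nat_lit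 0, [], [nat_lit 46, nat_lit 40, nat_lit 40, nat_lit 80, nat_lit 41, nat_lit 428, nat_lit 200, nat_lit 11]⟩,
 ⟨nat_lit 5244, nat_lit 5478, ⟨.ofNat (nat_lit 275199), .ofNat (nat_lit 350132), .ofNat (nat_lit 317913), .ofNat (nat_lit 392847), .ofNat (nat_lit 280485), .ofNat (nat_lit 353656), .ofNat (nat_lit 323256), .ofNat (nat_lit 396427)⟩, ⟨.ofNat (nat_lit 254209), .ofNat (nat_lit 404075), .ofNat (nat_lit 275566), .ofNat (nat_lit 425432), .ofNat (nat_lit 255744), .ofNat (nat_lit 402086), .ofNat (nat_lit 277129), .ofNat (nat_lit 423472)⟩⟩, [⟨nat_lit 7, nat_lit 82, nat_lit 100, nat_lit 66, nat_lit 204301854⟩]⟩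
noncomputable def p053_l148 : Lf2 := ⟨nat_lit 0, nat_lit 10, [nat_lit 0, nat_lit 5, nat_lit 5, nat_lit 20], false, nat_lit 160, nat_lit 240, nat_lit 160, nat_lit 344, ⟨nat_lit 406, nat_lit 0, nat_lit 594, nat_lit 5, nat_lit 136, nat_lit 594, nat_lit 136, nat_lit 594, nat_lit 173400, nat_lit 317, nat_lit 173400, nat_lit 317, nat_lit 52385868, nat_lit 0, nat_lit 0, nat_lit 3608220, false, false⟩,
 nat_lit 0, nat_lit 7259, nat_lit 0, nat_lit 0, nat_lit 4820, nat_lit 3574, nat_lit 1264, nat_lit 0, nat_lit 0, nat_lit 0, nat_lit 0, nat_lit 0, nat_lit 0, nat_lit 0, nat_lit 0, nat_lit 594000, nat_lit 0, nat_lit 0, [(nat_lit 12, [(nat_lit 6, nat_lit 594)])],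
 ⟨p053_k27, nat_lit 0, nat_lit 0, nat_lit 301, nat_lit 0, nat_lit 563640, [nat_lit 2010364801, nat_lit 1867705601, nat_lit 925773600], [], [nat_lit 14586349023, nat_lit 15147726523, nat_lit 14731598063, nat_lit 15265076923, nat_lit 16860918663, nat_lit 17314979680, nat_lit 19084885463, nat_lit 17964471643], nat_lit 1271250, nat_lit 1271250, nat_lit 490000, nat_lit 780000, nat_lit 1100001, nat_lit 1785000, [nat_lit 780000, nat_lit 1435000, nat_lit 1271250], [nat_lit 18, nat_lit 40, nat_lit 40, nat_lit 80, nat_lit 2, nat_lit 317, nat_lit 100, nat_lit 10]⟩, ⟨p053_k26, nat_lit 0, nat_lit 0, nat_lit 104, nat_lit 0, nat_lit 0, [nat_lit 2537500000, nat_lit 3995852000, nat_lit 4820032000], [], [nat_lit 2326297952, nat_lit 3752932656, nat_lit 2368736416, nat_lit 3714319272, nat_lit 9113154920, nat_lit 9931385068, nat_lit 8775609565, nat_lit 9466704170], nat_lit 0, nat_lit 0, nat_lit 0, nat_lit 0, nat_lit 0, nat_lit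 0, [], [nat_lit 46, nat_lit 40, nat_lit 40, nat_lit 80, nat_lit 41, nat_lit 428, nat_lit 200, nat_lit 11]⟩,
 ⟨nat_lit 5000, nat_lit 5245, ⟨.ofNat (nat_lit 280485), .ofNat (nat_lit 353656), .ofNat (nat_lit 323256), .ofNat (nat_lit 396427), .ofNat (nat_lit 285713), .ofNat (nat_lit 357141), .ofNat (nat_lit 328570), .ofNat (nat_lit 399998)⟩, ⟨.ofNat (nat_lit 255744), .ofNat (nat_lit 402086), .ofNat (nat_lit 277129), .ofNat (nat_lit 423472), .ofNat (nat_lit 257141), .ofNat (nat_lit 399998), .ofNat (nat_lit 278570), .ofNat (nat_lit 421427)⟩⟩, [⟨nat_lit 4, nat_lit 100, nat_lit 90, nat_lit 68, nat_lit 325417842⟩, ⟨nat_lit 7, nat_lit 82, nat_lit 100, nat_lit 66, nat_lit 396166190⟩]⟩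
noncomputable def p053_l149 : Lf2 := ⟨nat_lit 0, nat_lit 10, [nat_lit 0, nat_lit 5, nat_lit 5, nat_lit 20], true, nat_lit 160, nat_lit 240, nat_lit 0, nat_lit 360, ⟨nat_lit 0, nat_lit 0, nat_lit 1000, nat_lit 5, nat_lit 135, nat_lit 1000, nat_lit 144, nat_lit 1000, nat_lit 194400, nat_lit 323, nat_lit 173400, nat_lit 317, nat_lit 51756211, nat_lit 0, nat_lit 0, nat_lit 3706437, false, false⟩,
 nat_lit 0, nat_lit 5883, nat_lit 0, nat_lit 0, nat_lit 3743, nat_lit 0, nat_lit 0, nat_lit 0, nat_lit 0, nat_lit 0, nat_lit 0, nat_lit 0, nat_lit 0, nat_lit 0, nat_lit 208, nat_lit 1000000, nat_lit 0, nat_lit 0, [(nat_lit 12, [(nat_lit 6, nat_lit 1000)])],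
 ⟨p053_k23, nat_lit 0, nat_lit 0, nat_lit 298, nat_lit 0, nat_lit 416450, [nat_lit 3637200001, nat_lit 3032400001, nat_lit 431200000], [], [nat_lit 14019916158, nat_lit 14266042773, nat_lit 13487883127, nat_lit 14713036947, nat_lit 16901165811, nat_lit 17029197439, nat_lit 18875597695, nat_lit 17347827031], nat_lit 1271250, nat_lit 1271250, nat_lit 490000, nat_lit 780000, nat_lit 1100001, nat_lit 1785000, [nat_lit 780000, nat_lit 1435000, nat_lit 1271250], [nat_lit 8, nat_lit 40, nat_lit 40, nat_lit 80, nat_lit 1, nat_lit 317, nat_lit 100, nat_lit 9]⟩, C1.Rw.none,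
 ⟨nat_lit 5000, nat_lit 5478, ⟨.ofNat (nat_lit 275199), .ofNat (nat_lit 350132), .ofNat (nat_lit 317913), .ofNat (nat_lit 392847), .ofNat (nat_lit 285713), .ofNat (nat_lit 357141), .ofNat (nat_lit 328570), .ofNat (nat_lit 399998)⟩, ⟨.ofNat (nat_lit 275566), .ofNat (nat_lit 425432), .ofNat (nat_lit 296923), .ofNat (nat_lit 446789), .ofNat (nat_lit 278570), .ofNat (nat_lit 421427), .ofNat (nat_lit 299999), .ofNat (nat_lit 442856)⟩⟩, []⟩
noncomputable def p053_l150 : Lf2 := ⟨nat_lit 0, nat_lit 10, [nat_lit 0, nat_lit 5, nat_lit 5, nat_lit 20], true, nat_lit 240, nat_lit 276, nat_lit 0, nat_lit 344, ⟨nat_lit 0, nat_lit 0, nat_lit 1000, nat_lit 5, nat_lit 134, nat_lit 1000, nat_lit 179, nat_lit 1000, nat_lit 45067, nat_lit 267, nat_lit 170017, nat_lit 316, nat_lit 48907710, nat_lit 0, nat_lit 0, nat_lit 4087312, false, false⟩,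
 nat_lit 0, nat_lit 6009, nat_lit 0, nat_lit 0, nat_lit 3823, nat_lit 0, nat_lit 0, nat_lit 0, nat_lit 0, nat_lit 0, nat_lit 0, nat_lit 0, nat_lit 0, nat_lit 0, nat_lit 208, nat_lit 1000000, nat_lit 0, nat_lit 0, [(nat_lit 12, [(nat_lit 6, nat_lit 1000)])],
 ⟨p053_k23, nat_lit 0, nat_lit 0, nat_lit 323, nat_lit 0, nat_lit 494554, [nat_lit 3637200001, nat_lit 3032400001, nat_lit 431200000], [], [nat_lit 15712941443, nat_lit 16274335521, nat_lit 16073920859, nat_lit 16608713785, nat_lit 17887376725, nat_lit 18595919293, nat_lit 18005354936, nat_lit 18682162470], nat_lit 1271250, nat_lit 1271250, nat_lit 490000, nat_lit 780000, nat_lit 1271250, nat_lit 1271250, [nat_lit 780000, nat_lit 1435000, nat_lit 1271250], [nat_lit 8, nat_lit 40, nat_lit 40, nat_lit 80, nat_lit 1, nat_lit 317, nat_lit 100, nat_lit 8]⟩, C1.Rw.none,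
 ⟨nat_lit 5244, nat_lit 5478, ⟨.ofNat (nat_lit 275199), .ofNat (nat_lit 350132), .ofNat (nat_lit 317913), .ofNat (nat_lit 392847), .ofNat (nat_lit 280485), .ofNat (nat_lit 353656), .ofNat (nat_lit 323256), .ofNat (nat_lit 396427)⟩, ⟨.ofNat (nat_lit 404075), .ofNat (nat_lit 471515), .ofNat (nat_lit 425432), .ofNat (nat_lit 492872), .ofNat (nat_lit 402086), .ofNat (nat_lit 467940), .ofNat (nat_lit 423472), .ofNat (nat_lit 489326)⟩⟩, [⟨nat_lit 4, nat_lit 100, nat_lit 94, nat_lit 69, nat_lit 699507061⟩]⟩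
noncomputable def p053_l151 : Lf2 := ⟨nat_lit 0, nat_lit 10, [nat_lit 0, nat_lit 5, nat_lit 5, nat_lit 20], true, nat_lit 240, nat_lit 268, nat_lit 0, nat_lit 344, ⟨nat_lit 0, nat_lit 0, nat_lit 1000, nat_lit 5, nat_lit 136, nat_lit 1000, nat_lit 175, nat_lit 1000, nat_lit 81667, nat_lit 285, nat_lit 173400, nat_lit 317, nat_lit 49124952, nat_lit 0, nat_lit 0, nat_lit 4067007, false, false⟩,
 nat_lit 0, nat_lit 5637, nat_lit 0, nat_lit 0, nat_lit 3743, nat_lit 0, nat_lit 0, nat_lit 0, nat_lit 0, nat_lit 0, nat_lit 0, nat_lit 0, nat_lit 0, nat_lit 0, nat_lit 162, nat_lit 1000000, nat_lit 0, nat_lit 0, [(nat_lit 12, [(nat_lit 6, nat_lit 1000)])],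
 ⟨p053_k27, nat_lit 0, nat_lit 0, nat_lit 303, nat_lit 0, nat_lit 563640, [nat_lit 3085200001, nat_lit 2112400000, nat_lit 400000], [], [nat_lit 16473098241, nat_lit 17029197439, nat_lit 16817943065, nat_lit 17347827031, nat_lit 18049028010, nat_lit 18765208934, nat_lit 18174076971, nat_lit 18858060205], nat_lit 1271250, nat_lit 1271250, nat_lit 490000, nat_lit 780000, nat_lit 1271250, nat_lit 1271250, [nat_lit 780000, nat_lit 1435000, nat_lit 1271250], [nat_lit 18, nat_lit 40, nat_lit 40, nat_lit 80, nat_lit 2, nat_lit 238, nat_lit 30, nat_lit 7]⟩, C1.Rw.none,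
 ⟨nat_lit 5000, nat_lit 5245, ⟨.ofNat (nat_lit 280485), .ofNat (nat_lit 353656), .ofNat (nat_lit 323256), .ofNat (nat_lit 396427), .ofNat (nat_lit 285713), .ofNat (nat_lit 357141), .ofNat (nat_lit 328570), .ofNat (nat_lit 399998)⟩, ⟨.ofNat (nat_lit 402086), .ofNat (nat_lit 453306), .ofNat (nat_lit 423472), .ofNat (nat_lit 474691), .ofNat (nat_lit 399998), .ofNat (nat_lit 449999), .ofNat (nat_lit 421427), .ofNat (nat_lit 471427)⟩⟩, [⟨nat_lit 4, nat_lit 100, nat_lit 90, nat_lit 68, nat_lit 680042617⟩]⟩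
noncomputable def p053_l152 : Lf2 := ⟨nat_lit 0, nat_lit 7, [nat_lit 80, nat_lit 5, nat_lit 5, nat_lit 20], true, nat_lit 240, nat_lit 300, nat_lit 0, nat_lit 360, ⟨nat_lit 0, nat_lit 0, nat_lit 1000, nat_lit 5, nat_lit 134, nat_lit 1000, nat_lit 196, nat_lit 1000, nat_lit 3701, nat_lit 228, nat_lit 170017, nat_lit 316, nat_lit 47391487, nat_lit 0, nat_lit 0, nat_lit 4254673, false, false⟩,
 nat_lit 0, nat_lit 5156, nat_lit 0, nat_lit 0, nat_lit 3280, nat_lit 0, nat_lit 0, nat_lit 0, nat_lit 0, nat_lit 0, nat_lit 0, nat_lit 0, nat_lit 0, nat_lit 0, nat_lit 156, nat_lit 958600, nat_lit 0, nat_lit 0, [(nat_lit 12, [(nat_lit 5, nat_lit 69), (nat_lit 6, nat_lit 931)])],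
 ⟨p053_k20, nat_lit 0, nat_lit 0, nat_lit 188, nat_lit 0, nat_lit 305268, [nat_lit 3020072401, nat_lit 2033312401, nat_lit 6268000], [], [nat_lit 16223904162, nat_lit 16809802842, nat_lit 16655109282, nat_lit 17214077202, nat_lit 19295504322, nat_lit 19806769002, nat_lit 19589610762, nat_lit 20078520102], nat_lit 1271250, nat_lit 1271250, nat_lit 490000, nat_lit 780000, nat_lit 1271250, nat_lit 1271250, [nat_lit 780000, nat_lit 1435000, nat_lit 1271250], [nat_lit 18, nat_lit 40, nat_lit 40, nat_lit 80, nat_lit 2, nat_lit 238, nat_lit 30, nat_lit 7]⟩, C1.Rw.none,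
 ⟨nat_lit 5244, nat_lit 5478, ⟨.ofNat (nat_lit 275199), .ofNat (nat_lit 350132), .ofNat (nat_lit 317913), .ofNat (nat_lit 392847), .ofNat (nat_lit 280485), .ofNat (nat_lit 353656), .ofNat (nat_lit 323256), .ofNat (nat_lit 396427)⟩, ⟨.ofNat (nat_lit 425432), .ofNat (nat_lit 537832), .ofNat (nat_lit 446789), .ofNat (nat_lit 559189), .ofNat (nat_lit 423472), .ofNat (nat_lit 533228), .ofNat (nat_lit 444857), .ofNat (nat_lit 554614)⟩⟩, [⟨nat_lit 4, nat_lit 100, nat_lit 99, nat_lit 83, nat_lit 312654831⟩]⟩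
noncomputable def p053_l153 : Lf2 := ⟨nat_lit 0, nat_lit 7, [nat_lit 80, nat_lit 5, nat_lit 5, nat_lit 20], true, nat_lit 240, nat_lit 292, nat_lit 0, nat_lit 360, ⟨nat_lit 0, nat_lit 0, nat_lit 1000, nat_lit 5, nat_lit 136, nat_lit 1000, nat_lit 192, nat_lit 1000, nat_lit 8501, nat_lit 237, nat_lit 173400, nat_lit 317, nat_lit 47636380, nat_lit 0, nat_lit 0, nat_lit 4236712, false, false⟩,
 nat_lit 0, nat_lit 5637, nat_lit 0, nat_lit 0, nat_lit 3743, nat_lit 0, nat_lit 0, nat_lit 0, nat_lit 0, nat_lit 0, nat_lit 0, nat_lit 0, nat_lit 0, nat_lit 0, nat_lit 162, nat_lit 1000000, nat_lit 0, nat_lit 0, [(nat_lit 12, [(nat_lit 6, nat_lit 1000)])],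
 ⟨p053_k34, nat_lit 0, nat_lit 0, nat_lit 219, nat_lit 0, nat_lit 384571, [nat_lit 3085200001, nat_lit 2112400000, nat_lit 400000], [], [nat_lit 16473098241, nat_lit 17029197439, nat_lit 16817943065, nat_lit 17347827031, nat_lit 19583715747, nat_lit 20255317763, nat_lit 19642222103, nat_lit 20284382550], nat_lit 1271250, nat_lit 1271250, nat_lit 490000, nat_lit 780000, nat_lit 1271250, nat_lit 1271250, [nat_lit 780000, nat_lit 1435000, nat_lit 1271250], [nat_lit 18, nat_lit 40, nat_lit 40, nat_lit 80, nat_lit 2, nat_lit 238, nat_lit 30, nat_lit 7]⟩, C1.Rw.none,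
 ⟨nat_lit 5000, nat_lit 5245, ⟨.ofNat (nat_lit 280485), .ofNat (nat_lit 353656), .ofNat (nat_lit 323256), .ofNat (nat_lit 396427), .ofNat (nat_lit 285713), .ofNat (nat_lit 357141), .ofNat (nat_lit 328570), .ofNat (nat_lit 399998)⟩, ⟨.ofNat (nat_lit 423472), .ofNat (nat_lit 518594), .ofNat (nat_lit 444857), .ofNat (nat_lit 539979), .ofNat (nat_lit 421427), .ofNat (nat_lit 514284), .ofNat (nat_lit 442856), .ofNat (nat_lit 535713)⟩⟩, [⟨nat_lit 4, nat_lit 100, nat_lit 94, nat_lit 81, nat_lit 419441079⟩]⟩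
noncomputable def p053_l154 : Lf2 := ⟨nat_lit 1, nat_lit 10, [nat_lit 0, nat_lit 5, nat_lit 5, nat_lit 20], false, nat_lit 240, nat_lit 300, nat_lit 0, nat_lit 360, zbN0,
 nat_lit 0, nat_lit 0, nat_lit 0, nat_lit 0, nat_lit 0, nat_lit 0, nat_lit 0, nat_lit 0, nat_lit 0, nat_lit 0, nat_lit 0, nat_lit 0, nat_lit 0, nat_lit 0, nat_lit 0, nat_lit 0, nat_lit 0, nat_lit 0, [],
 C1.Rw.none, C1.Rw.none,
 zbF0, []⟩
noncomputable def b_V_700_500_10_3 : St := ⟨true, nat_lit 1, nat_lit 0, nat_lit 1, nat_lit 80, nat_lit 280, nat_lit 300, nat_lit 200, nat_lit 240, nat_lit 16, nat_lit 120, nat_lit 40, nat_lit 80, nat_lit 0, nat_lit 300, nat_lit 0, nat_lit 360, nat_lit 0, nat_lit 40, nat_lit 0, nat_lit 0, nat_lit 0, nat_lit 0⟩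
theorem d_V_700_500_10_3 (h : EB TB.env) : Dead b_V_700_500_10_3 := chkB_sound0 h (T :=
(.spl (nat_lit 4) (nat_lit 160)
(.spl (nat_lit 4) (nat_lit 80)
(.spl (nat_lit 2) (nat_lit 80)
(.leaf p053_l135)
(.spl (nat_lit 5) (nat_lit 160)
(.leaf p053_l136)
(.spl (nat_lit 0) (nat_lit 290)
(.leaf p053_l137)
(.leaf p053_l138))))
(.spl (nat_lit 2) (nat_lit 80)
(.leaf p053_l139)
(.spl (nat_lit 0) (nat_lit 290)
(.leaf p053_l140)
(.leaf p053_l141))))
(.spl (nat_lit 2) (nat_lit 80)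
(.spl (nat_lit 4) (nat_lit 240)
(.spl (nat_lit 0) (nat_lit 290)
(.leaf p053_l142)
(.trZ (nat_lit 0) (nat_lit 100) (nat_lit 89) (nat_lit 45) (nat_lit 20) (.leaf p053_l143)))
(.trX (nat_lit 23) (nat_lit 100) (nat_lit 76) (nat_lit 82) (nat_lit 336) (.spl (nat_lit 2) (nat_lit 40)
(.trX (nat_lit 23) (nat_lit 100) (nat_lit 92) (nat_lit 61) (nat_lit 288) (.leaf p053_l144))
(.leaf p053_l145))))
(.spl (nat_lit 4) (nat_lit 240)
(.spl (nat_lit 3) (nat_lit 60)
(.trX (nat_lit 19) (nat_lit 100) (nat_lit 70) (nat_lit 71) (nat_lit 344) (.spl (nat_lit 5) (nat_lit 160)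
(.leaf p053_l146)
(.spl (nat_lit 0) (nat_lit 290)
(.leaf p053_l147)
(.leaf p053_l148))))
(.leaf p053_l149))
(.spl (nat_lit 3) (nat_lit 60)
(.trX (nat_lit 16) (nat_lit 99) (nat_lit 100) (nat_lit 77) (nat_lit 276) (.trX (nat_lit 19) (nat_lit 100) (nat_lit 70) (nat_lit 71) (nat_lit 344) (.spl (nat_lit 0) (nat_lit 290)
(.leaf p053_l150)
(.trX (nat_lit 16) (nat_lit 94) (nat_lit 100) (nat_lit 75) (nat_lit 268) (.leaf p053_l151)))))
(.spl (nat_lit 6) (nat_lit 28)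
(.spl (nat_lit 0) (nat_lit 290)
(.leaf p053_l152)
(.trX (nat_lit 16) (nat_lit 100) (nat_lit 100) (nat_lit 89) (nat_lit 292) (.leaf p053_l153)))
(.leaf p053_l154))))))) (by decide +kernel)
noncomputable def p053_l155 : Lf2 := ⟨nat_lit 0, nat_lit 10, [nat_lit 0, nat_lit 5, nat_lit 5, nat_lit 20], false, nat_lit 0, nat_lit 300, nat_lit 0, nat_lit 160, ⟨nat_lit 1000, nat_lit 0, nat_lit 0, nat_lit 0, nat_lit 0, nat_lit 0, nat_lit 0, nat_lit 0, nat_lit 0, nat_lit 0, nat_lit 0, nat_lit 0, nat_lit 0, nat_lit 0, nat_lit 0, nat_lit 0, false, false⟩,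
 nat_lit 0, nat_lit 11769, nat_lit 0, nat_lit 0, nat_lit 7489, nat_lit 13811, nat_lit 829, nat_lit 0, nat_lit 0, nat_lit 2315, nat_lit 0, nat_lit 0, nat_lit 0, nat_lit 0, nat_lit 0, nat_lit 0, nat_lit 0, nat_lit 0, [],
 ⟨p053_k23, nat_lit 0, nat_lit 0, nat_lit 445, nat_lit 0, nat_lit 496130, [nat_lit 3282000000, nat_lit 6250000000, nat_lit 9842000000], [], [nat_lit 40944049760, nat_lit 36984330878, nat_lit 30002617589, nat_lit 30911130563, nat_lit 27714884536, nat_lit 28394552806, nat_lit 39037727176, nat_lit 35711027253], nat_lit 1271250, nat_lit 1271250, nat_lit 780000, nat_lit 1762500, nat_lit 0, nat_lit 2118750, [nat_lit 780000, nat_lit 1435000, nat_lit 1271250], [nat_lit 8, nat_lit 40, nat_lit 40, nat_lit 80, nat_lit 1, nat_lit 373, nat_lit 150, nat_lit 11]⟩, ⟨p053_k26, nat_lit 0, nat_lit 0, nat_lit 192, nat_lit 0, nat_lit 0, [nat_lit 6250000000, nat_lit 9842000000, nat_lit 11872000000], [], [nat_lit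 20747160808, nat_lit 22343778344, nat_lit 26160090812, nat_lit 27566795270, nat_lit 10227098540, nat_lit 11870283742, nat_lit 15002350480, nat_lit 16143967076], nat_lit 0, nat_lit 0, nat_lit 0, nat_lit 0, nat_lit 0, nat_lit 0, [], [nat_lit 46, nat_lit 40, nat_lit 40, nat_lit 80, nat_lit 41, nat_lit 401, nat_lit 175, nat_lit 11]⟩,
 zbF0, []⟩
noncomputable def p053_l156 : Lf2 := ⟨nat_lit 0, nat_lit 10, [nat_lit 0, nat_lit 5, nat_lit 5, nat_lit 20], false, nat_lit 0, nat_lit 300, nat_lit 0, nat_lit 160, ⟨nat_lit 1000, nat_lit 0, nat_lit 0, nat_lit 0, nat_lit 0, nat_lit 0, nat_lit 0, nat_lit 0, nat_lit 0, nat_lit 0, nat_lit 0, nat_lit 0, nat_lit 0, nat_lit 0, nat_lit 0, nat_lit 0, false, false⟩,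
 nat_lit 0, nat_lit 11478, nat_lit 0, nat_lit 0, nat_lit 7304, nat_lit 17704, nat_lit 829, nat_lit 0, nat_lit 0, nat_lit 2812, nat_lit 0, nat_lit 0, nat_lit 0, nat_lit 0, nat_lit 0, nat_lit 0, nat_lit 0, nat_lit 0, [],
 ⟨p053_k23, nat_lit 0, nat_lit 0, nat_lit 490, nat_lit 0, nat_lit 618820, [nat_lit 3282000000, nat_lit 6250000000, nat_lit 9842000000], [], [nat_lit 40662139360, nat_lit 36800237008, nat_lit 30378486529, nat_lit 31276941793, nat_lit 28226298721, nat_lit 28900352148, nat_lit 39127455136, nat_lit 35882934340], nat_lit 1271250, nat_lit 1271250, nat_lit 780000, nat_lit 1762500, nat_lit 0, nat_lit 2118750, [nat_lit 780000, nat_lit 1435000, nat_lit 1271250], [nat_lit 8, nat_lit 40, nat_lit 40, nat_lit 80, nat_lit 1, nat_lit 373, nat_lit 150, nat_lit 11]⟩, ⟨p053_k30, nat_lit 0, nat_lit 0, nat_lit 202, nat_lit 0, nat_lit 0, [nat_lit 6250000000, nat_lit 9842000000, nat_lit 11872000000], [], [nat_lit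 17517337716, nat_lit 19390264820, nat_lit 22766273280, nat_lit 24403746992, nat_lit 2668149088, nat_lit 4606353616, nat_lit 7261813664, nat_lit 8572526608], nat_lit 0, nat_lit 0, nat_lit 0, nat_lit 0, nat_lit 0, nat_lit 0, [], [nat_lit 46, nat_lit 40, nat_lit 40, nat_lit 80, nat_lit 41, nat_lit 401, nat_lit 175, nat_lit 10]⟩,
 zbF0, [⟨nat_lit 4, nat_lit 100, nat_lit 94, nat_lit 75, nat_lit 13436276⟩]⟩
noncomputable def p053_l157 : Lf2 := ⟨nat_lit 0, nat_lit 10, [nat_lit 0, nat_lit 5, nat_lit 5, nat_lit 20], false, nat_lit 0, nat_lit 160, nat_lit 160, nat_lit 360, ⟨nat_lit 1000, nat_lit 0, nat_lit 0, nat_lit 0, nat_lit 0, nat_lit 0, nat_lit 0, nat_lit 0, nat_lit 0, nat_lit 0, nat_lit 0, nat_lit 0, nat_lit 0, nat_lit 0, nat_lit 0, nat_lit 0, false, false⟩,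
 nat_lit 0, nat_lit 6068, nat_lit 0, nat_lit 9203, nat_lit 3861, nat_lit 8718, nat_lit 1706, nat_lit 0, nat_lit 0, nat_lit 0, nat_lit 0, nat_lit 0, nat_lit 0, nat_lit 0, nat_lit 0, nat_lit 0, nat_lit 0, nat_lit 0, [],
 ⟨p053_k25, nat_lit 0, nat_lit 0, nat_lit 446, nat_lit 0, nat_lit 511877, [nat_lit 3282000000, nat_lit 4688000000, nat_lit 9842000000], [], [nat_lit 35259558240, nat_lit 34238829531, nat_lit 31870511104, nat_lit 32323639212, nat_lit 29565161334, nat_lit 29552440158, nat_lit 38177936574, nat_lit 37325918121], nat_lit 1271250, nat_lit 1271250, nat_lit 780000, nat_lit 1762500, nat_lit 0, nat_lit 1100001, [nat_lit 780000, nat_lit 1100000, nat_lit 2127500], [nat_lit 42, nat_lit 40, nat_lit 40, nat_lit 80, nat_lit 13, nat_lit 317, nat_lit 100, nat_lit 9]⟩, ⟨p053_k35, nat_lit 0, nat_lit 0, nat_lit 73, nat_lit 0, nat_lit 0, [nat_lit 6250000000, nat_lit 7968000000, nat_lit 11872000000], [], [nat_lit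 5988742584, nat_lit 9283570304, nat_lit 11978237960, nat_lit 14415018840, nat_lit 23526382444, nat_lit 25466584060, nat_lit 25987076548, nat_lit 27393139680], nat_lit 0, nat_lit 0, nat_lit 0, nat_lit 0, nat_lit 0, nat_lit 0, [], [nat_lit 53, nat_lit 40, nat_lit 40, nat_lit 80, nat_lit 14, nat_lit 456, nat_lit 225, nat_lit 11]⟩,
 zbF0, [⟨nat_lit 7, nat_lit 77, nat_lit 100, nat_lit 72, nat_lit 919979376⟩]⟩
noncomputable def p053_l158 : Lf2 := ⟨nat_lit 0, nat_lit 10, [nat_lit 0, nat_lit 5, nat_lit 5, nat_lit 20], false, nat_lit 0, nat_lit 160, nat_lit 160, nat_lit 360, ⟨nat_lit 1000, nat_lit 0, nat_lit 0, nat_lit 0, nat_lit 0, nat_lit 0, nat_lit 0, nat_lit 0, nat_lit 0, nat_lit 0, nat_lit 0, nat_lit 0, nat_lit 0, nat_lit 0, nat_lit 0, nat_lit 0, false, false⟩,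
 nat_lit 0, nat_lit 11630, nat_lit 0, nat_lit 0, nat_lit 7723, nat_lit 8718, nat_lit 1708, nat_lit 0, nat_lit 0, nat_lit 0, nat_lit 0, nat_lit 0, nat_lit 0, nat_lit 0, nat_lit 0, nat_lit 0, nat_lit 0, nat_lit 0, [],
 ⟨p053_k31, nat_lit 0, nat_lit 0, nat_lit 395, nat_lit 0, nat_lit 583162, [nat_lit 3282000000, nat_lit 7968000000], [], [nat_lit 31436756925, nat_lit 29425772678, nat_lit 29919960556, nat_lit 30344577296, nat_lit 24292795523, nat_lit 24739721442, nat_lit 27456093508, nat_lit 25707575416], nat_lit 1271250, nat_lit 1271250, nat_lit 780000, nat_lit 1762500, nat_lit 0, nat_lit 1100001, [nat_lit 780000, nat_lit 1762500], [nat_lit 74, nat_lit 40, nat_lit 40, nat_lit 80, nat_lit 43, nat_lit 317, nat_lit 100, nat_lit 10]⟩, ⟨p053_k32, nat_lit 0, nat_lit 0, nat_lit 60, nat_lit 0, nat_lit 0, [nat_lit 6250000000, nat_lit 11872000000], [], [nat_lit 5988742584, nat_lit 9283570304, nat_lit 11978237960, nat_lit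 14415018840, nat_lit 23526382444, nat_lit 25466584060, nat_lit 25987076548, nat_lit 27393139680], nat_lit 0, nat_lit 0, nat_lit 0, nat_lit 0, nat_lit 0, nat_lit 0, [], [nat_lit 107, nat_lit 40, nat_lit 40, nat_lit 80, nat_lit 12, nat_lit 456, nat_lit 225, nat_lit 11]⟩,
 zbF0, [⟨nat_lit 7, nat_lit 77, nat_lit 100, nat_lit 72, nat_lit 897637210⟩]⟩
noncomputable def p053_l159 : Lf2 := ⟨nat_lit 0, nat_lit 10, [nat_lit 0, nat_lit 5, nat_lit 5, nat_lit 20], false, nat_lit 160, nat_lit 300, nat_lit 160, nat_lit 360, ⟨nat_lit 1000, nat_lit 0, nat_lit 0, nat_lit 0, nat_lit 0, nat_lit 0, nat_lit 0, nat_lit 0, nat_lit 0, nat_lit 0, nat_lit 0, nat_lit 0, nat_lit 0, nat_lit 0, nat_lit 0, nat_lit 0, false, false⟩,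
 nat_lit 0, nat_lit 11388, nat_lit 0, nat_lit 2736, nat_lit 7246, nat_lit 8718, nat_lit 1770, nat_lit 0, nat_lit 0, nat_lit 0, nat_lit 0, nat_lit 0, nat_lit 0, nat_lit 0, nat_lit 0, nat_lit 0, nat_lit 0, nat_lit 0, [],
 ⟨p053_k25, nat_lit 0, nat_lit 0, nat_lit 309, nat_lit 0, nat_lit 511877, [nat_lit 3282000000, nat_lit 4688000000, nat_lit 9842000000], [], [nat_lit 22396170768, nat_lit 20537361634, nat_lit 27406099074, nat_lit 25721759128, nat_lit 20988629834, nat_lit 21559583829, nat_lit 23485703168, nat_lit 24189622814], nat_lit 1271250, nat_lit 1271250, nat_lit 780000, nat_lit 1762500, nat_lit 1271250, nat_lit 1271250, [nat_lit 780000, nat_lit 1100000, nat_lit 2127500], [nat_lit 42, nat_lit 40, nat_lit 40, nat_lit 80, nat_lit 13, nat_lit 373, nat_lit 150, nat_lit 10]⟩, ⟨p053_k35, nat_lit 0, nat_lit 0, nat_lit 73, nat_lit 0, nat_lit 0, [nat_lit 6250000000, nat_lit 7968000000, nat_lit 11872000000], [], [nat_lit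 5988742584, nat_lit 9283570304, nat_lit 11978237960, nat_lit 14415018840, nat_lit 23526382444, nat_lit 25466584060, nat_lit 25987076548, nat_lit 27393139680], nat_lit 0, nat_lit 0, nat_lit 0, nat_lit 0, nat_lit 0, nat_lit 0, [], [nat_lit 53, nat_lit 40, nat_lit 40, nat_lit 80, nat_lit 14, nat_lit 456, nat_lit 225, nat_lit 11]⟩,
 zbF0, [⟨nat_lit 4, nat_lit 100, nat_lit 97, nat_lit 76, nat_lit 267276753⟩, ⟨nat_lit 7, nat_lit 77, nat_lit 100, nat_lit 72, nat_lit 887317974⟩]⟩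
noncomputable def p053_l160 : Lf2 := ⟨nat_lit 0, nat_lit 10, [nat_lit 0, nat_lit 5, nat_lit 5, nat_lit 20], false, nat_lit 160, nat_lit 292, nat_lit 160, nat_lit 360, ⟨nat_lit 1000, nat_lit 0, nat_lit 0, nat_lit 0, nat_lit 0, nat_lit 0, nat_lit 0, nat_lit 0, nat_lit 0, nat_lit 0, nat_lit 0, nat_lit 0, nat_lit 0, nat_lit 0, nat_lit 0, nat_lit 0, false, false⟩,
 nat_lit 0, nat_lit 12235, nat_lit 0, nat_lit 0, nat_lit 8125, nat_lit 8707, nat_lit 1295, nat_lit 0, nat_lit 0, nat_lit 0, nat_lit 0, nat_lit 0, nat_lit 0, nat_lit 0, nat_lit 0, nat_lit 0, nat_lit 0, nat_lit 0, [],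
 ⟨p053_k27, nat_lit 0, nat_lit 0, nat_lit 296, nat_lit 0, nat_lit 583162, [nat_lit 3282000000, nat_lit 6250000000, nat_lit 7968000000], [], [nat_lit 19806278875, nat_lit 17721980750, nat_lit 18916085000, nat_lit 19544378500, nat_lit 21598742601, nat_lit 22180795801, nat_lit 29064427969, nat_lit 27207699313], nat_lit 1271250, nat_lit 1271250, nat_lit 780000, nat_lit 1762500, nat_lit 1100001, nat_lit 2230250, [nat_lit 780000, nat_lit 1435000, nat_lit 1271250], [nat_lit 18, nat_lit 40, nat_lit 40, nat_lit 80, nat_lit 2, nat_lit 373, nat_lit 150, nat_lit 12]⟩, ⟨p053_k26, nat_lit 0, nat_lit 0, nat_lit 92, nat_lit 0, nat_lit 0, [nat_lit 6250000000, nat_lit 9842000000, nat_lit 11872000000], [], [nat_lit 6008736316, nat_lit 9301050096, nat_lit 11995043540, nat_lit 14430227660, nat_lit 23532414206, nat_lit 25458662190, nat_lit 25980942002, nat_lit 27386575320], nat_lit 0, nat_lit 0, nat_lit 0, nat_lit 0, nat_lit 0,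 nat_lit 0, [], [nat_lit 46, nat_lit 40, nat_lit 40, nat_lit 80, nat_lit 41, nat_lit 456, nat_lit 225, nat_lit 11]⟩,
 zbF0, [⟨nat_lit 4, nat_lit 100, nat_lit 92, nat_lit 75, nat_lit 474360865⟩, ⟨nat_lit 7, nat_lit 77, nat_lit 100, nat_lit 72, nat_lit 886127240⟩]⟩
noncomputable def b_V_700_500_10_4 : St := ⟨true, nat_lit 1, nat_lit 0, nat_lit 1, nat_lit 80, nat_lit 280, nat_lit 300, nat_lit 200, nat_lit 240, nat_lit 120, nat_lit 240, nat_lit 40, nat_lit 80, nat_lit 0, nat_lit 300, nat_lit 0, nat_lit 360, nat_lit 0, nat_lit 40, nat_lit 0, nat_lit 0, nat_lit 0, nat_lit 0⟩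
theorem d_V_700_500_10_4 (h : EB TB.env) : Dead b_V_700_500_10_4 := chkB_sound0 h (T :=
(.spl (nat_lit 5) (nat_lit 160)
(.spl (nat_lit 1) (nat_lit 220)
(.leaf p053_l155)
(.leaf p053_l156))
(.spl (nat_lit 4) (nat_lit 160)
(.spl (nat_lit 0) (nat_lit 290)
(.leaf p053_l157)
(.leaf p053_l158))
(.spl (nat_lit 0) (nat_lit 290)
(.leaf p053_l159)
(.trX (nat_lit 16) (nat_lit 100) (nat_lit 100) (nat_lit 89) (nat_lit 292) (.leaf p053_l160)))))) (by decide +kernel)
noncomputable def p053_l161 : Lf2 := ⟨nat_lit 0, nat_lit 10, [nat_lit 0, nat_lit 5, nat_lit 5, nat_lit 20], false, nat_lit 0, nat_lit 300, nat_lit 0, nat_lit 160, ⟨nat_lit 1000, nat_lit 0, nat_lit 0, nat_lit 0, nat_lit 0, nat_lit 0, nat_lit 0, nat_lit 0, nat_lit 0, nat_lit 0, nat_lit 0, nat_lit 0, nat_lit 0, nat_lit 0, nat_lit 0, nat_lit 0, false, false⟩,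
 nat_lit 0, nat_lit 11249, nat_lit 0, nat_lit 0, nat_lit 7158, nat_lit 10322, nat_lit 686, nat_lit 0, nat_lit 0, nat_lit 3090, nat_lit 0, nat_lit 0, nat_lit 0, nat_lit 0, nat_lit 0, nat_lit 0, nat_lit 0, nat_lit 0, [],
 ⟨p053_k23, nat_lit 0, nat_lit 0, nat_lit 470, nat_lit 0, nat_lit 618820, [nat_lit 3282000000, nat_lit 6250000000, nat_lit 9842000000], [], [nat_lit 34038432158, nat_lit 34717386550, nat_lit 39123431215, nat_lit 39562169137, nat_lit 31685401144, nat_lit 32071824835, nat_lit 35221082365, nat_lit 35487273721], nat_lit 1271250, nat_lit 1271250, nat_lit 1271250, nat_lit 1271250, nat_lit 0, nat_lit 2118750, [nat_lit 780000, nat_lit 1435000, nat_lit 1271250], [nat_lit 8, nat_lit 40, nat_lit 40, nat_lit 80, nat_lit 1, nat_lit 401, nat_lit 175, nat_lit 11]⟩, ⟨p053_k26, nat_lit 0, nat_lit 0, nat_lit 269, nat_lit 0, nat_lit 0, [nat_lit 6250000000, nat_lit 9842000000, nat_lit 11872000000], [], [nat_lit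 26668466024, nat_lit 29068233056, nat_lit 43499948363, nat_lit 44309636757, nat_lit 19695148032, nat_lit 21094181000, nat_lit 33106640404, nat_lit 33784173112], nat_lit 0, nat_lit 0, nat_lit 0, nat_lit 0, nat_lit 0, nat_lit 0, [], [nat_lit 46, nat_lit 40, nat_lit 40, nat_lit 80, nat_lit 41, nat_lit 428, nat_lit 200, nat_lit 11]⟩,
 zbF0, [⟨nat_lit 16, nat_lit 94, nat_lit 100, nat_lit 75, nat_lit 21116773⟩, ⟨nat_lit 21, nat_lit 84, nat_lit 100, nat_lit 84, nat_lit 138616694⟩]⟩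
noncomputable def p053_l162 : Lf2 := ⟨nat_lit 0, nat_lit 10, [nat_lit 0, nat_lit 5, nat_lit 5, nat_lit 20], false, nat_lit 0, nat_lit 300, nat_lit 160, nat_lit 360, ⟨nat_lit 1000, nat_lit 0, nat_lit 0, nat_lit 0, nat_lit 0, nat_lit 0, nat_lit 0, nat_lit 0, nat_lit 0, nat_lit 0, nat_lit 0, nat_lit 0, nat_lit 0, nat_lit 0, nat_lit 0, nat_lit 0, false, false⟩,
 nat_lit 0, nat_lit 10937, nat_lit 0, nat_lit 0, nat_lit 6959, nat_lit 7912, nat_lit 761, nat_lit 0, nat_lit 0, nat_lit 0, nat_lit 0, nat_lit 0, nat_lit 0, nat_lit 0, nat_lit 0, nat_lit 0, nat_lit 0, nat_lit 0, [],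
 ⟨p053_k23, nat_lit 0, nat_lit 0, nat_lit 434, nat_lit 0, nat_lit 511877, [nat_lit 3282000000, nat_lit 6250000000, nat_lit 9842000000], [], [nat_lit 31514418809, nat_lit 31954268306, nat_lit 38066204453, nat_lit 38389660020, nat_lit 29982733840, nat_lit 30240966446, nat_lit 34681380004, nat_lit 34866220176], nat_lit 1271250, nat_lit 1271250, nat_lit 1271250, nat_lit 1271250, nat_lit 0, nat_lit 2118750, [nat_lit 780000, nat_lit 1435000, nat_lit 1271250], [nat_lit 8, nat_lit 40, nat_lit 40, nat_lit 80, nat_lit 1, nat_lit 401, nat_lit 175, nat_lit 11]⟩, ⟨p053_k26, nat_lit 0, nat_lit 0, nat_lit 120, nat_lit 0, nat_lit 0, [nat_lit 6250000000, nat_lit 9842000000, nat_lit 11872000000], [], [nat_lit 13209628640, nat_lit 15529410560, nat_lit 27787958852, nat_lit 29123121008, nat_lit 25869365680, nat_lit 26912588112, nat_lit 36270191952, nat_lit 36690335810], nat_lit 0, nat_lit 0, nat_lit 0, nat_lit 0, nat_lit 0, nat_lit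 0, [], [nat_lit 46, nat_lit 40, nat_lit 40, nat_lit 80, nat_lit 41, nat_lit 483, nat_lit 250, nat_lit 12]⟩,
 zbF0, [⟨nat_lit 4, nat_lit 100, nat_lit 97, nat_lit 76, nat_lit 165334145⟩, ⟨nat_lit 7, nat_lit 77, nat_lit 100, nat_lit 72, nat_lit 600357856⟩]⟩
noncomputable def p053_l163 : Lf2 := ⟨nat_lit 0, nat_lit 10, [nat_lit 0, nat_lit 5, nat_lit 5, nat_lit 20], false, nat_lit 0, nat_lit 292, nat_lit 160, nat_lit 360, ⟨nat_lit 1000, nat_lit 0, nat_lit 0, nat_lit 0, nat_lit 0, nat_lit 0, nat_lit 0, nat_lit 0, nat_lit 0, nat_lit 0, nat_lit 0, nat_lit 0, nat_lit 0, nat_lit 0, nat_lit 0, nat_lit 0, false, false⟩,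
 nat_lit 0, nat_lit 10681, nat_lit 0, nat_lit 0, nat_lit 7093, nat_lit 6472, nat_lit 2315, nat_lit 0, nat_lit 0, nat_lit 0, nat_lit 0, nat_lit 0, nat_lit 0, nat_lit 0, nat_lit 0, nat_lit 0, nat_lit 0, nat_lit 0, [],
 ⟨p053_k31, nat_lit 0, nat_lit 0, nat_lit 400, nat_lit 0, nat_lit 583162, [nat_lit 3282000000, nat_lit 7968000000], [], [nat_lit 28646162071, nat_lit 29056049411, nat_lit 38736861104, nat_lit 39385159119, nat_lit 26247735500, nat_lit 26491607031, nat_lit 33730044696, nat_lit 34141514770], nat_lit 1271250, nat_lit 1271250, nat_lit 1271250, nat_lit 1271250, nat_lit 0, nat_lit 2062250, [nat_lit 780000, nat_lit 1762500], [nat_lit 74, nat_lit 40, nat_lit 40, nat_lit 80, nat_lit 43, nat_lit 289, nat_lit 75, nat_lit 9]⟩, ⟨p053_k32, nat_lit 0, nat_lit 0, nat_lit 92, nat_lit 0, nat_lit 0, [nat_lit 6250000000, nat_lit 11872000000], [], [nat_lit 15409631840, nat_lit 17520383360, nat_lit 28139852260, nat_lit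 29171387799, nat_lit 26828204080, nat_lit 27857262672, nat_lit 34480561708, nat_lit 34875312941], nat_lit 0, nat_lit 0, nat_lit 0, nat_lit 0, nat_lit 0, nat_lit 0, [], [nat_lit 107, nat_lit 40, nat_lit 40, nat_lit 80, nat_lit 12, nat_lit 483, nat_lit 250, nat_lit 12]⟩,
 zbF0, [⟨nat_lit 4, nat_lit 100, nat_lit 92, nat_lit 75, nat_lit 128799598⟩, ⟨nat_lit 7, nat_lit 77, nat_lit 100, nat_lit 72, nat_lit 523400580⟩]⟩
noncomputable def b_V_700_500_10_5 : St := ⟨true, nat_lit 1, nat_lit 0, nat_lit 1, nat_lit 80, nat_lit 280, nat_lit 300, nat_lit 200, nat_lit 240, nat_lit 240, nat_lit 396, nat_lit 40, nat_lit 80, nat_lit 0, nat_lit 300, nat_lit 0, nat_lit 360, nat_lit 0, nat_lit 40, nat_lit 0, nat_lit 0, nat_lit 0, nat_lit 0⟩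
theorem d_V_700_500_10_5 (h : EB TB.env) : Dead b_V_700_500_10_5 := chkB_sound0 h (T :=
(.spl (nat_lit 5) (nat_lit 160)
(.leaf p053_l161)
(.spl (nat_lit 0) (nat_lit 290)
(.leaf p053_l162)
(.trX (nat_lit 16) (nat_lit 100) (nat_lit 100) (nat_lit 89) (nat_lit 292) (.leaf p053_l163))))) (by decide +kernel)

end B2
end Pool.Agent.Lib.MP_6947cd_al
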