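import Pool.Agent.Lib.MP_6947cd_al.ZB.Pre

/-!
Problem MP_6947cd_al (Chollet).  Case B, second entry in [2/5, 17/20]: certificates of the tree, part P064 (generated).
-/

set_option autoImplicit false
set_option linter.all false

namespace Pool.Agent.Lib.MP_6947cd_al
namespace B2

open Ent Fr B1 PkA

noncomputable def p064_k0 : C1.Kn := ⟨[nat_lit 50, nat_lit 70, nat_lit 80], [nat_lit 0, nat_lit 0, nat_lit 329], [(nat_lit 0, nat_lit 0, nat_lit 0), (nat_lit 0, nat_lit 0, nat_lit 0), (nat_lit 1000, nat_lit 886, nat_lit 313)], (nat_lit 89, nat_lit 100, nat_lit 29)⟩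
noncomputable def p064_k1 : C1.Kn := ⟨[nat_lit 50, nat_lit 60, nat_lit 70], [nat_lit 0, nat_lit 0, nat_lit 152], [(nat_lit 0, nat_lit 0, nat_lit 0), (nat_lit 0, nat_lit 0, nat_lit 0), (nat_lit 1000, nat_lit 912, nat_lit 215)], (nat_lit 91, nat_lit 100, nat_lit 21)⟩
noncomputable def p064_k2 : C1.Kn := ⟨[nat_lit 40, nat_lit 60, nat_lit 80], [nat_lit 0, nat_lit 0, nat_lit 304], [(nat_lit 0, nat_lit 0, nat_lit 0), (nat_lit 0, nat_lit 0, nat_lit 0), (nat_lit 1000, nat_lit 905, nat_lit 238)], (nat_lit 89, nat_lit 100, nat_lit 29)⟩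
noncomputable def p064_k3 : C1.Kn := ⟨[nat_lit 50, nat_lit 70, nat_lit 90], [nat_lit 0, nat_lit 0, nat_lit 565], [(nat_lit 0, nat_lit 0, nat_lit 0), (nat_lit 0, nat_lit 0, nat_lit 0), (nat_lit 1000, nat_lit 871, nat_lit 407)], (nat_lit 87, nat_lit 100, nat_lit 39)⟩
noncomputable def p064_k4 : C1.Kn := ⟨[nat_lit 50, nat_lit 70, nat_lit 90], [nat_lit 0, nat_lit 83, nat_lit 644], [(nat_lit 0, nat_lit 0, nat_lit 0), (nat_lit 1000, nat_lit 967, nat_lit 65), (nat_lit 1000, nat_lit 856, nat_lit 435)], (nat_lit 86, nat_lit 100, nat_lit 44)⟩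
noncomputable def p064_k5 : C1.Kn := ⟨[nat_lit 60, nat_lit 80, nat_lit 100], [nat_lit 0, nat_lit 304, nat_lit 825], [(nat_lit 0, nat_lit 0, nat_lit 0), (nat_lit 1000, nat_lit 905, nat_lit 238), (nat_lit 1000, nat_lit 871, nat_lit 407)], (nat_lit 87, nat_lit 100, nat_lit 44)⟩
noncomputable def p064_k6 : C1.Kn := ⟨[nat_lit 80, nat_lit 100, nat_lit 120], [nat_lit 0, nat_lit 132, nat_lit 640], [(nat_lit 0, nat_lit 0, nat_lit 0), (nat_lit 1000, nat_lit 979, nat_lit 103), (nat_lit 1000, nat_lit 979, nat_lit 397)], (nat_lit 99, nat_lit 100, nat_lit 44)⟩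
noncomputable def p064_k7 : C1.Kn := ⟨[nat_lit 60, nat_lit 80, nat_lit 100], [nat_lit 0, nat_lit 379, nat_lit 901], [(nat_lit 0, nat_lit 0, nat_lit 0), (nat_lit 1000, nat_lit 882, nat_lit 294), (nat_lit 1000, nat_lit 859, nat_lit 408)], (nat_lit 86, nat_lit 100, nat_lit 44)⟩
noncomputable def p064_k8 : C1.Kn := ⟨[nat_lit 50, nat_lit 60, nat_lit 80, nat_lit 100], [nat_lit 0, nat_lit 0, nat_lit 304, nat_lit 825], [(nat_lit 0, nat_lit 0, nat_lit 0), (nat_lit 0, nat_lit 0, nat_lit 0), (nat_lit 1000, nat_lit 905, nat_lit 238), (nat_lit 1000, nat_lit 871, nat_lit 407)], (nat_lit 87, nat_lit 100, nat_lit 44)⟩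
noncomputable def p064_k9 : C1.Kn := ⟨[nat_lit 80, nat_lit 100, nat_lit 140], [nat_lit 0, nat_lit 0, nat_lit 1022], [(nat_lit 0, nat_lit 0, nat_lit 0), (nat_lit 0, nat_lit 0, nat_lit 0), (nat_lit 1000, nat_lit 1000, nat_lit 399)], (nat_lit 100, nat_lit 99, nat_lit 44)⟩
noncomputable def p064_k10 : C1.Kn := ⟨[nat_lit 30, nat_lit 50, nat_lit 70, nat_lit 80], [nat_lit 0, nat_lit 0, nat_lit 0, nat_lit 329], [(nat_lit 0, nat_lit 0, nat_lit 0), (nat_lit 0, nat_lit 0, nat_lit 0), (nat_lit 0, nat_lit 0, nat_lit 0), (nat_lit 1000, nat_lit 886, nat_lit 313)], (nat_lit 89, nat_lit 100, nat_lit 29)⟩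
noncomputable def p064_k11 : C1.Kn := ⟨[nat_lit 80, nat_lit 100, nat_lit 120], [nat_lit 0, nat_lit 132, nat_lit 640], [(nat_lit 0, nat_lit 0, nat_lit 0), (nat_lit 1000, nat_lit 979, nat_lit 103), (nat_lit 1000, nat_lit 979, nat_lit 397)], (nat_lit 97, nat_lit 100, nat_lit 28)⟩
noncomputable def p064_k12 : C1.Kn := ⟨[nat_lit 30, nat_lit 50, nat_lit 70, nat_lit 100], [nat_lit 0, nat_lit 0, nat_lit 0, nat_lit 842], [(nat_lit 0, nat_lit 0, nat_lit 0), (nat_lit 0, nat_lit 0, nat_lit 0), (nat_lit 0, nat_lit 0, nat_lit 0), (nat_lit 1000, nat_lit 868, nat_lit 437)], (nat_lit 87, nat_lit 100, nat_lit 44)⟩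
noncomputable def p064_k13 : C1.Kn := ⟨[nat_lit 80, nat_lit 90, nat_lit 110, nat_lit 120], [nat_lit 0, nat_lit 66, nat_lit 324, nat_lit 648], [(nat_lit 0, nat_lit 0, nat_lit 0), (nat_lit 1000, nat_lit 979, nat_lit 103), (nat_lit 1000, nat_lit 969, nat_lit 202), (nat_lit 1000, nat_lit 986, nat_lit 438)], (nat_lit 99, nat_lit 100, nat_lit 44)⟩
noncomputable def p064_k14 : C1.Kn := ⟨[nat_lit 60, nat_lit 100], [nat_lit 0, nat_lit 609], [(nat_lit 0, nat_lit 0, nat_lit 0), (nat_lit 1000, nat_lit 905, nat_lit 238)], (nat_lit 87, nat_lit 100, nat_lit 44)⟩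
noncomputable def p064_k15 : C1.Kn := ⟨[nat_lit 80, nat_lit 120], [nat_lit 0, nat_lit 264], [(nat_lit 0, nat_lit 0, nat_lit 0), (nat_lit 1000, nat_lit 979, nat_lit 103)], (nat_lit 99, nat_lit 100, nat_lit 44)⟩
noncomputable def p064_k16 : C1.Kn := ⟨[nat_lit 30, nat_lit 50, nat_lit 70, nat_lit 90], [nat_lit 0, nat_lit 0, nat_lit 167, nat_lit 726], [(nat_lit 0, nat_lit 0, nat_lit 0), (nat_lit 0, nat_lit 0, nat_lit 0), (nat_lit 1000, nat_lit 935, nat_lit 130), (nat_lit 1000, nat_lit 843, nat_lit 436)], (nat_lit 84, nat_lit 100, nat_lit 44)⟩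
noncomputable def p064_k17 : C1.Kn := ⟨[nat_lit 50, nat_lit 70, nat_lit 90], [nat_lit 0, nat_lit 167, nat_lit 726], [(nat_lit 0, nat_lit 0, nat_lit 0), (nat_lit 1000, nat_lit 935, nat_lit 130), (nat_lit 1000, nat_lit 843, nat_lit 436)], (nat_lit 84, nat_lit 100, nat_lit 44)⟩
noncomputable def p064_k18 : C1.Kn := ⟨[nat_lit 60, nat_lit 80], [nat_lit 0, nat_lit 456], [(nat_lit 0, nat_lit 0, nat_lit 0), (nat_lit 1000, nat_lit 859, nat_lit 351)], (nat_lit 87, nat_lit 100, nat_lit 29)⟩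
noncomputable def p064_k19 : C1.Kn := ⟨[nat_lit 80, nat_lit 120], [nat_lit 0, nat_lit 264], [(nat_lit 0, nat_lit 0, nat_lit 0), (nat_lit 1000, nat_lit 979, nat_lit 103)], (nat_lit 97, nat_lit 100, nat_lit 28)⟩
noncomputable def p064_k20 : C1.Kn := ⟨[nat_lit 60, nat_lit 80, nat_lit 100], [nat_lit 0, nat_lit 456, nat_lit 976], [(nat_lit 0, nat_lit 0, nat_lit 0), (nat_lit 1000, nat_lit 859, nat_lit 351), (nat_lit 1000, nat_lit 848, nat_lit 406)], (nat_lit 84, nat_lit 100, nat_lit 44)⟩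
noncomputable def p064_k21 : C1.Kn := ⟨[nat_lit 60, nat_lit 100, nat_lit 120], [nat_lit 0, nat_lit 609, nat_lit 1609], [(nat_lit 0, nat_lit 0, nat_lit 0), (nat_lit 1000, nat_lit 905, nat_lit 238), (nat_lit 1000, nat_lit 882, nat_lit 668)], (nat_lit 87, nat_lit 100, nat_lit 60)⟩
noncomputable def p064_k22 : C1.Kn := ⟨[nat_lit 80, nat_lit 120, nat_lit 160], [nat_lit 0, nat_lit 0, nat_lit 2132], [(nat_lit 0, nat_lit 0, nat_lit 0), (nat_lit 0, nat_lit 0, nat_lit 0), (nat_lit 858, nat_lit 1000, nat_lit 713)], (nat_lit 100, nat_lit 92, nat_lit 61)⟩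
noncomputable def p064_k23 : C1.Kn := ⟨[nat_lit 60, nat_lit 100], [nat_lit 0, nat_lit 909], [(nat_lit 0, nat_lit 0, nat_lit 0), (nat_lit 1000, nat_lit 858, nat_lit 354)], (nat_lit 84, nat_lit 100, nat_lit 54)⟩
noncomputable def p064_k24 : C1.Kn := ⟨[nat_lit 80, nat_lit 120, nat_lit 140], [nat_lit 0, nat_lit 0, nat_lit 1164], [(nat_lit 0, nat_lit 0, nat_lit 0), (nat_lit 0, nat_lit 0, nat_lit 0), (nat_lit 941, nat_lit 1000, nat_lit 576)], (nat_lit 100, nat_lit 95, nat_lit 55)⟩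
noncomputable def p064_k25 : C1.Kn := ⟨[nat_lit 60, nat_lit 80, nat_lit 100], [nat_lit 0, nat_lit 379, nat_lit 901], [(nat_lit 0, nat_lit 0, nat_lit 0), (nat_lit 1000, nat_lit 882, nat_lit 294), (nat_lit 1000, nat_lit 859, nat_lit 408)], (nat_lit 85, nat_lit 100, nat_lit 48)⟩
noncomputable def p064_k26 : C1.Kn := ⟨[nat_lit 80, nat_lit 100, nat_lit 140], [nat_lit 0, nat_lit 132, nat_lit 1148], [(nat_lit 0, nat_lit 0, nat_lit 0), (nat_lit 1000, nat_lit 979, nat_lit 103), (nat_lit 1000, nat_lit 979, nat_lit 397)], (nat_lit 100, nat_lit 100, nat_lit 49)⟩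
noncomputable def p064_k27 : C1.Kn := ⟨[nat_lit 60, nat_lit 80, nat_lit 100], [nat_lit 0, nat_lit 456, nat_lit 976], [(nat_lit 0, nat_lit 0, nat_lit 0), (nat_lit 1000, nat_lit 859, nat_lit 351), (nat_lit 1000, nat_lit 848, nat_lit 406)], (nat_lit 84, nat_lit 100, nat_lit 54)⟩
noncomputable def p064_k28 : C1.Kn := ⟨[nat_lit 80, nat_lit 100, nat_lit 140], [nat_lit 0, nat_lit 132, nat_lit 1148], [(nat_lit 0, nat_lit 0, nat_lit 0), (nat_lit 1000, nat_lit 979, nat_lit 103), (nat_lit 1000, nat_lit 979, nat_lit 397)], (nat_lit 100, nat_lit 98, nat_lit 56)⟩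
noncomputable def p064_k29 : C1.Kn := ⟨[nat_lit 80, nat_lit 120, nat_lit 140], [nat_lit 0, nat_lit 264, nat_lit 1360], [(nat_lit 0, nat_lit 0, nat_lit 0), (nat_lit 1000, nat_lit 979, nat_lit 103), (nat_lit 951, nat_lit 1000, nat_lit 628)], (nat_lit 100, nat_lit 98, nat_lit 56)⟩
noncomputable def p064_k30 : C1.Kn := ⟨[nat_lit 80, nat_lit 100, nat_lit 120], [nat_lit 0, nat_lit 265, nat_lit 768], [(nat_lit 0, nat_lit 0, nat_lit 0), (nat_lit 1000, nat_lit 959, nat_lit 206), (nat_lit 1000, nat_lit 958, nat_lit 392)], (nat_lit 96, nat_lit 100, nat_lit 44)⟩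
noncomputable def p064_k31 : C1.Kn := ⟨[nat_lit 80, nat_lit 100, nat_lit 120], [nat_lit 0, nat_lit 399, nat_lit 897], [(nat_lit 0, nat_lit 0, nat_lit 0), (nat_lit 1000, nat_lit 938, nat_lit 310), (nat_lit 1000, nat_lit 938, nat_lit 389)], (nat_lit 94, nat_lit 100, nat_lit 44)⟩
noncomputable def p064_k32 : C1.Kn := ⟨[nat_lit 60, nat_lit 100], [nat_lit 0, nat_lit 909], [(nat_lit 0, nat_lit 0, nat_lit 0), (nat_lit 1000, nat_lit 858, nat_lit 354)], (nat_lit 84, nat_lit 100, nat_lit 44)⟩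
noncomputable def p064_k33 : C1.Kn := ⟨[nat_lit 80, nat_lit 120], [nat_lit 0, nat_lit 796], [(nat_lit 0, nat_lit 0, nat_lit 0), (nat_lit 1000, nat_lit 938, nat_lit 310)], (nat_lit 94, nat_lit 100, nat_lit 44)⟩
noncomputable def p064_k34 : C1.Kn := ⟨[nat_lit 60, nat_lit 100, nat_lit 120], [nat_lit 0, nat_lit 609, nat_lit 1609], [(nat_lit 0, nat_lit 0, nat_lit 0), (nat_lit 1000, nat_lit 905, nat_lit 238), (nat_lit 1000, nat_lit 882, nat_lit 668)], (nat_lit 87, nat_lit 100, nat_lit 54)⟩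
noncomputable def p064_k35 : C1.Kn := ⟨[nat_lit 80, nat_lit 120, nat_lit 140], [nat_lit 0, nat_lit 528, nat_lit 1572], [(nat_lit 0, nat_lit 0, nat_lit 0), (nat_lit 1000, nat_lit 959, nat_lit 206), (nat_lit 966, nat_lit 1000, nat_lit 679)], (nat_lit 99, nat_lit 100, nat_lit 56)⟩
noncomputable def p064_k36 : C1.Kn := ⟨[nat_lit 80, nat_lit 120, nat_lit 140], [nat_lit 0, nat_lit 796, nat_lit 1801], [(nat_lit 0, nat_lit 0, nat_lit 0), (nat_lit 1000, nat_lit 938, nat_lit 310), (nat_lit 982, nat_lit 1000, nat_lit 736)], (nat_lit 96, nat_lit 100, nat_lit 56)⟩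
noncomputable def p064_k37 : C1.Kn := ⟨[nat_lit 80, nat_lit 120, nat_lit 140], [nat_lit 0, nat_lit 528, nat_lit 1572], [(nat_lit 0, nat_lit 0, nat_lit 0), (nat_lit 1000, nat_lit 959, nat_lit 206), (nat_lit 966, nat_lit 1000, nat_lit 679)], (nat_lit 100, nat_lit 99, nat_lit 63)⟩
noncomputable def p064_k38 : C1.Kn := ⟨[nat_lit 80, nat_lit 120, nat_lit 140], [nat_lit 0, nat_lit 796, nat_lit 1801], [(nat_lit 0, nat_lit 0, nat_lit 0), (nat_lit 1000, nat_lit 938, nat_lit 310), (nat_lit 982, nat_lit 1000, nat_lit 736)], (nat_lit 98, nat_lit 100, nat_lit 63)⟩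
noncomputable def p064_k39 : C1.Kn := ⟨[nat_lit 60, nat_lit 100, nat_lit 120], [nat_lit 0, nat_lit 909, nat_lit 1866], [(nat_lit 0, nat_lit 0, nat_lit 0), (nat_lit 1000, nat_lit 858, nat_lit 354), (nat_lit 1000, nat_lit 849, nat_lit 705)], (nat_lit 84, nat_lit 100, nat_lit 60)⟩
noncomputable def p064_k40 : C1.Kn := ⟨[nat_lit 50, nat_lit 70, nat_lit 110], [nat_lit 0, nat_lit 83, nat_lit 1204], [(nat_lit 0, nat_lit 0, nat_lit 0), (nat_lit 1000, nat_lit 967, nat_lit 65), (nat_lit 1000, nat_lit 856, nat_lit 438)], (nat_lit 85, nat_lit 100, nat_lit 60)⟩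
noncomputable def p064_k41 : C1.Kn := ⟨[nat_lit 80, nat_lit 100, nat_lit 140], [nat_lit 0, nat_lit 265, nat_lit 1269], [(nat_lit 0, nat_lit 0, nat_lit 0), (nat_lit 1000, nat_lit 959, nat_lit 206), (nat_lit 1000, nat_lit 958, nat_lit 392)], (nat_lit 100, nat_lit 99, nat_lit 63)⟩
noncomputable def p064_k42 : C1.Kn := ⟨[nat_lit 60, nat_lit 100, nat_lit 120], [nat_lit 0, nat_lit 1063, nat_lit 2005], [(nat_lit 0, nat_lit 0, nat_lit 0), (nat_lit 1000, nat_lit 834, nat_lit 414), (nat_lit 1000, nat_lit 833, nat_lit 732)], (nat_lit 82, nat_lit 100, nat_lit 60)⟩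
noncomputable def p064_k43 : C1.Kn := ⟨[nat_lit 30, nat_lit 50, nat_lit 70, nat_lit 100], [nat_lit 0, nat_lit 0, nat_lit 167, nat_lit 1005], [(nat_lit 0, nat_lit 0, nat_lit 0), (nat_lit 0, nat_lit 0, nat_lit 0), (nat_lit 1000, nat_lit 935, nat_lit 130), (nat_lit 1000, nat_lit 843, nat_lit 436)], (nat_lit 84, nat_lit 100, nat_lit 54)⟩
noncomputable def p064_k44 : C1.Kn := ⟨[nat_lit 80, nat_lit 100, nat_lit 140], [nat_lit 0, nat_lit 265, nat_lit 1269], [(nat_lit 0, nat_lit 0, nat_lit 0), (nat_lit 1000, nat_lit 959, nat_lit 206), (nat_lit 1000, nat_lit 958, nat_lit 392)], (nat_lit 99, nat_lit 100, nat_lit 56)⟩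
noncomputable def p064_k45 : C1.Kn := ⟨[nat_lit 30, nat_lit 50, nat_lit 70, nat_lit 110], [nat_lit 0, nat_lit 0, nat_lit 167, nat_lit 1284], [(nat_lit 0, nat_lit 0, nat_lit 0), (nat_lit 0, nat_lit 0, nat_lit 0), (nat_lit 1000, nat_lit 935, nat_lit 130), (nat_lit 1000, nat_lit 843, nat_lit 436)], (nat_lit 84, nat_lit 100, nat_lit 60)⟩
noncomputable def p064_k46 : C1.Kn := ⟨[nat_lit 60, nat_lit 80, nat_lit 120], [nat_lit 0, nat_lit 0, nat_lit 1064], [(nat_lit 0, nat_lit 0, nat_lit 0), (nat_lit 0, nat_lit 0, nat_lit 0), (nat_lit 1000, nat_lit 917, nat_lit 415)], (nat_lit 92, nat_lit 100, nat_lit 44)⟩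
noncomputable def p064_k47 : C1.Kn := ⟨[nat_lit 60, nat_lit 80, nat_lit 100], [nat_lit 0, nat_lit 0, nat_lit 534], [(nat_lit 0, nat_lit 0, nat_lit 0), (nat_lit 0, nat_lit 0, nat_lit 0), (nat_lit 1000, nat_lit 917, nat_lit 393)], (nat_lit 92, nat_lit 100, nat_lit 28)⟩
noncomputable def p064_k48 : C1.Kn := ⟨[nat_lit 80, nat_lit 100, nat_lit 120], [nat_lit 0, nat_lit 0, nat_lit 511], [(nat_lit 0, nat_lit 0, nat_lit 0), (nat_lit 0, nat_lit 0, nat_lit 0), (nat_lit 1000, nat_lit 997, nat_lit 383)], (nat_lit 98, nat_lit 100, nat_lit 28)⟩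
noncomputable def p064_k49 : C1.Kn := ⟨[nat_lit 60, nat_lit 80, nat_lit 100], [nat_lit 0, nat_lit 151, nat_lit 679], [(nat_lit 0, nat_lit 0, nat_lit 0), (nat_lit 1000, nat_lit 953, nat_lit 118), (nat_lit 1000, nat_lit 894, nat_lit 411)], (nat_lit 89, nat_lit 100, nat_lit 44)⟩
noncomputable def p064_k50 : C1.Kn := ⟨[nat_lit 60, nat_lit 80, nat_lit 100], [nat_lit 0, nat_lit 228, nat_lit 751], [(nat_lit 0, nat_lit 0, nat_lit 0), (nat_lit 1000, nat_lit 929, nat_lit 178), (nat_lit 1000, nat_lit 883, nat_lit 407)], (nat_lit 88, nat_lit 100, nat_lit 44)⟩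
noncomputable def p064_k51 : C1.Kn := ⟨[nat_lit 60, nat_lit 80, nat_lit 120], [nat_lit 0, nat_lit 0, nat_lit 1064], [(nat_lit 0, nat_lit 0, nat_lit 0), (nat_lit 0, nat_lit 0, nat_lit 0), (nat_lit 1000, nat_lit 917, nat_lit 415)], (nat_lit 93, nat_lit 100, nat_lit 55)⟩
noncomputable def p064_k52 : C1.Kn := ⟨[nat_lit 80, nat_lit 100, nat_lit 140], [nat_lit 0, nat_lit 0, nat_lit 1022], [(nat_lit 0, nat_lit 0, nat_lit 0), (nat_lit 0, nat_lit 0, nat_lit 0), (nat_lit 1000, nat_lit 1000, nat_lit 399)], (nat_lit 100, nat_lit 95, nat_lit 55)⟩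
noncomputable def p064_k53 : C1.Kn := ⟨[nat_lit 60, nat_lit 100, nat_lit 120], [nat_lit 0, nat_lit 0, nat_lit 1164], [(nat_lit 0, nat_lit 0, nat_lit 0), (nat_lit 0, nat_lit 0, nat_lit 0), (nat_lit 1000, nat_lit 933, nat_lit 572)], (nat_lit 92, nat_lit 100, nat_lit 48)⟩
noncomputable def p064_k54 : C1.Kn := ⟨[nat_lit 80, nat_lit 120, nat_lit 140], [nat_lit 0, nat_lit 0, nat_lit 1164], [(nat_lit 0, nat_lit 0, nat_lit 0), (nat_lit 0, nat_lit 0, nat_lit 0), (nat_lit 941, nat_lit 1000, nat_lit 576)], (nat_lit 100, nat_lit 98, nat_lit 48)⟩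
noncomputable def p064_k55 : C1.Kn := ⟨[nat_lit 60, nat_lit 80, nat_lit 120], [nat_lit 0, nat_lit 151, nat_lit 1205], [(nat_lit 0, nat_lit 0, nat_lit 0), (nat_lit 1000, nat_lit 953, nat_lit 118), (nat_lit 1000, nat_lit 894, nat_lit 411)], (nat_lit 91, nat_lit 100, nat_lit 61)⟩
noncomputable def p064_k56 : C1.Kn := ⟨[nat_lit 80, nat_lit 100, nat_lit 160], [nat_lit 0, nat_lit 0, nat_lit 1533], [(nat_lit 0, nat_lit 0, nat_lit 0), (nat_lit 0, nat_lit 0, nat_lit 0), (nat_lit 1000, nat_lit 1000, nat_lit 399)], (nat_lit 100, nat_lit 92, nat_lit 61)⟩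
noncomputable def p064_k57 : C1.Kn := ⟨[nat_lit 60, nat_lit 80, nat_lit 120], [nat_lit 0, nat_lit 228, nat_lit 1272], [(nat_lit 0, nat_lit 0, nat_lit 0), (nat_lit 1000, nat_lit 929, nat_lit 178), (nat_lit 1000, nat_lit 883, nat_lit 407)], (nat_lit 89, nat_lit 100, nat_lit 61)⟩
noncomputable def p064_k58 : C1.Kn := ⟨[nat_lit 60, nat_lit 100, nat_lit 120], [nat_lit 0, nat_lit 302, nat_lit 1376], [(nat_lit 0, nat_lit 0, nat_lit 0), (nat_lit 1000, nat_lit 953, nat_lit 118), (nat_lit 1000, nat_lit 911, nat_lit 628)], (nat_lit 90, nat_lit 100, nat_lit 51)⟩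
noncomputable def p064_k59 : C1.Kn := ⟨[nat_lit 80, nat_lit 120, nat_lit 140], [nat_lit 0, nat_lit 0, nat_lit 1164], [(nat_lit 0, nat_lit 0, nat_lit 0), (nat_lit 0, nat_lit 0, nat_lit 0), (nat_lit 941, nat_lit 1000, nat_lit 576)], (nat_lit 100, nat_lit 96, nat_lit 52)⟩
noncomputable def p064_k60 : C1.Kn := ⟨[nat_lit 80, nat_lit 120, nat_lit 140], [nat_lit 0, nat_lit 528, nat_lit 1572], [(nat_lit 0, nat_lit 0, nat_lit 0), (nat_lit 1000, nat_lit 959, nat_lit 206), (nat_lit 966, nat_lit 1000, nat_lit 679)], (nat_lit 98, nat_lit 100, nat_lit 52)⟩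
noncomputable def p064_k61 : C1.Kn := ⟨[nat_lit 60, nat_lit 80], [nat_lit 0, nat_lit 304], [(nat_lit 0, nat_lit 0, nat_lit 0), (nat_lit 1000, nat_lit 905, nat_lit 238)], (nat_lit 89, nat_lit 100, nat_lit 29)⟩
noncomputable def p064_k62 : C1.Kn := ⟨[nat_lit 80, nat_lit 100], [nat_lit 0, nat_lit 265], [(nat_lit 0, nat_lit 0, nat_lit 0), (nat_lit 1000, nat_lit 959, nat_lit 206)], (nat_lit 95, nat_lit 100, nat_lit 28)⟩
noncomputable def p064_k63 : C1.Kn := ⟨[nat_lit 60, nat_lit 80, nat_lit 100], [nat_lit 0, nat_lit 533, nat_lit 1067], [(nat_lit 0, nat_lit 0, nat_lit 0), (nat_lit 1000, nat_lit 837, nat_lit 397), (nat_lit 1000, nat_lit 833, nat_lit 417)], (nat_lit 83, nat_lit 100, nat_lit 44)⟩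
noncomputable def p064_k64 : C1.Kn := ⟨[nat_lit 60, nat_lit 80, nat_lit 120], [nat_lit 0, nat_lit 304, nat_lit 1346], [(nat_lit 0, nat_lit 0, nat_lit 0), (nat_lit 1000, nat_lit 905, nat_lit 238), (nat_lit 1000, nat_lit 871, nat_lit 407)], (nat_lit 87, nat_lit 100, nat_lit 60)⟩
noncomputable def p064_k65 : C1.Kn := ⟨[nat_lit 80, nat_lit 120, nat_lit 140], [nat_lit 0, nat_lit 664, nat_lit 1684], [(nat_lit 0, nat_lit 0, nat_lit 0), (nat_lit 1000, nat_lit 948, nat_lit 259), (nat_lit 975, nat_lit 1000, nat_lit 704)], (nat_lit 99, nat_lit 100, nat_lit 63)⟩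
noncomputable def p064_k66 : C1.Kn := ⟨[nat_lit 50, nat_lit 70, nat_lit 120], [nat_lit 0, nat_lit 0, nat_lit 1402], [(nat_lit 0, nat_lit 0, nat_lit 0), (nat_lit 0, nat_lit 0, nat_lit 0), (nat_lit 1000, nat_lit 868, nat_lit 437)], (nat_lit 87, nat_lit 100, nat_lit 60)⟩
noncomputable def p064_k67 : C1.Kn := ⟨[nat_lit 70, nat_lit 90, nat_lit 140], [nat_lit 0, nat_lit 0, nat_lit 1289], [(nat_lit 0, nat_lit 0, nat_lit 0), (nat_lit 0, nat_lit 0, nat_lit 0), (nat_lit 1000, nat_lit 959, nat_lit 402)], (nat_lit 100, nat_lit 99, nat_lit 63)⟩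
noncomputable def p064_k68 : C1.Kn := ⟨[nat_lit 60, nat_lit 100, nat_lit 140], [nat_lit 0, nat_lit 0, nat_lit 2047], [(nat_lit 0, nat_lit 0, nat_lit 0), (nat_lit 0, nat_lit 0, nat_lit 0), (nat_lit 1000, nat_lit 993, nat_lit 781)], (nat_lit 94, nat_lit 100, nat_lit 62)⟩
noncomputable def p064_k69 : C1.Kn := ⟨[nat_lit 60, nat_lit 80, nat_lit 140], [nat_lit 0, nat_lit 0, nat_lit 1595], [(nat_lit 0, nat_lit 0, nat_lit 0), (nat_lit 0, nat_lit 0, nat_lit 0), (nat_lit 1000, nat_lit 917, nat_lit 415)], (nat_lit 94, nat_lit 100, nat_lit 62)⟩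
noncomputable def p064_k70 : C1.Kn := ⟨[nat_lit 60, nat_lit 80, nat_lit 120], [nat_lit 0, nat_lit 456, nat_lit 1495], [(nat_lit 0, nat_lit 0, nat_lit 0), (nat_lit 1000, nat_lit 859, nat_lit 351), (nat_lit 1000, nat_lit 848, nat_lit 406)], (nat_lit 84, nat_lit 100, nat_lit 60)⟩
noncomputable def p064_l0 : Lf2 := ⟨nat_lit 0, nat_lit 2, [nat_lit 10, nat_lit 5, nat_lit 5, nat_lit 20], true, nat_lit 280, nat_lit 300, nat_lit 0, nat_lit 300, ⟨nat_lit 0, nat_lit 216, nat_lit 784, nat_lit 6, nat_lit 123, nat_lit 1000, nat_lit 225, nat_lit 784, nat_lit 3391, nat_lit 215, nat_lit 144150, nat_lit 308, nat_lit 45569661, nat_lit 6007632, nat_lit 15422707, nat_lit 4357618, false, false⟩,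
 nat_lit 0, nat_lit 3948, nat_lit 0, nat_lit 0, nat_lit 2733, nat_lit 0, nat_lit 0, nat_lit 0, nat_lit 0, nat_lit 0, nat_lit 0, nat_lit 0, nat_lit 0, nat_lit 0, nat_lit 6, nat_lit 915400, nat_lit 0, nat_lit 0, [(nat_lit 15, [(nat_lit 1, nat_lit 141), (nat_lit 2, nat_lit 76), (nat_lit 6, nat_lit 783)])],
 ⟨p064_k0, nat_lit 0, nat_lit 0, nat_lit 0, nat_lit 0, nat_lit 165737, [nat_lit 1062314701, nat_lit 592474101, nat_lit 8676400], [], [nat_lit 19311556048, nat_lit 19824434438, nat_lit 19330458194, nat_lit 19829174642, nat_lit 20291300839, nat_lit 20781173235, nat_lit 20283807511, nat_lit 20760482170], nat_lit 1271250, nat_lit 1271250, nat_lit 279600, nat_lit 490000, nat_lit 1271250, nat_lit 1271250, [nat_lit 631250, nat_lit 936250, nat_lit 1100000], [nat_lit 214, nat_lit 40, nat_lit 20, nat_lit 40]⟩, C1.Rw.none,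
 ⟨nat_lit 4743, nat_lit 5000, ⟨.ofNat (nat_lit 271427), .ofNat (nat_lit 328569), .ofNat (nat_lit 282141), .ofNat (nat_lit 339283), .ofNat (nat_lit 278116), .ofNat (nat_lit 333875), .ofNat (nat_lit 288859), .ofNat (nat_lit 344618)⟩, ⟨.ofNat (nat_lit 535713), .ofNat (nat_lit 571427), .ofNat (nat_lit 557141), .ofNat (nat_lit 592856), .ofNat (nat_lit 531957), .ofNat (nat_lit 566807), .ofNat (nat_lit 553445), .ofNat (nat_lit 588295)⟩⟩, [⟨nat_lit 0, nat_lit 100, nat_lit 86, nat_lit 77, nat_lit 109278920⟩, ⟨nat_lit 4, nat_lit 95, nat_lit 95, nat_lit 100, nat_lit 3953095⟩]⟩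
noncomputable def p064_l1 : Lf2 := ⟨nat_lit 0, nat_lit 1, [nat_lit 19, nat_lit 5, nat_lit 5, nat_lit 20], true, nat_lit 300, nat_lit 320, nat_lit 0, nat_lit 256, ⟨nat_lit 0, nat_lit 1000, nat_lit 0, nat_lit 6, nat_lit 116, nat_lit 1000, nat_lit 239, nat_lit 0, nat_lit 0, nat_lit 0, nat_lit 0, nat_lit 0, nat_lit 44704200, nat_lit 5436079, nat_lit 16859721, nat_lit 4371688, false, false⟩,
 nat_lit 0, nat_lit 5153, nat_lit 0, nat_lit 0, nat_lit 3567, nat_lit 0, nat_lit 439, nat_lit 0, nat_lit 0, nat_lit 0, nat_lit 0, nat_lit 0, nat_lit 0, nat_lit 0, nat_lit 0, nat_lit 1000000, nat_lit 0, nat_lit 0, [(nat_lit 15, [(nat_lit 2, nat_lit 1000)])],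
 ⟨p064_k1, nat_lit 0, nat_lit 0, nat_lit 0, nat_lit 0, nat_lit 163954, [nat_lit 1651200001, nat_lit 1813600001, nat_lit 1769200000], [], [nat_lit 21092408465, nat_lit 21667496064, nat_lit 20970673480, nat_lit 21521092242, nat_lit 22326860246, nat_lit 22948466515, nat_lit 22073632020, nat_lit 22690081721], nat_lit 1271250, nat_lit 1271250, nat_lit 279600, nat_lit 356250, nat_lit 1271250, nat_lit 1271250, [nat_lit 631250, nat_lit 780000, nat_lit 936250], [nat_lit 268, nat_lit 40, nat_lit 20, nat_lit 40]⟩, C1.Rw.none,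
 ⟨nat_lit 4743, nat_lit 5000, ⟨.ofNat (nat_lit 271427), .ofNat (nat_lit 292856), .ofNat (nat_lit 282141), .ofNat (nat_lit 303569), .ofNat (nat_lit 278116), .ofNat (nat_lit 299026), .ofNat (nat_lit 288859), .ofNat (nat_lit 309769)⟩, ⟨.ofNat (nat_lit 571427), .ofNat (nat_lit 607141), .ofNat (nat_lit 592856), .ofNat (nat_lit 628570), .ofNat (nat_lit 566807), .ofNat (nat_lit 601657), .ofNat (nat_lit 588295), .ofNat (nat_lit 623145)⟩⟩, [⟨nat_lit 0, nat_lit 100, nat_lit 87, nat_lit 72, nat_lit 223055519⟩, ⟨nat_lit 16, nat_lit 94, nat_lit 88, nat_lit 100, nat_lit 241681368⟩]⟩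
noncomputable def p064_l2 : Lf2 := ⟨nat_lit 0, nat_lit 2, [nat_lit 10, nat_lit 5, nat_lit 5, nat_lit 20], true, nat_lit 300, nat_lit 320, nat_lit 0, nat_lit 256, ⟨nat_lit 0, nat_lit 1000, nat_lit 0, nat_lit 6, nat_lit 116, nat_lit 1000, nat_lit 239, nat_lit 0, nat_lit 0, nat_lit 0, nat_lit 0, nat_lit 0, nat_lit 44704200, nat_lit 5436079, nat_lit 16859721, nat_lit 4371688, false, false⟩,
 nat_lit 0, nat_lit 5428, nat_lit 0, nat_lit 567, nat_lit 3757, nat_lit 0, nat_lit 0, nat_lit 0, nat_lit 0, nat_lit 0, nat_lit 0, nat_lit 0, nat_lit 0, nat_lit 0, nat_lit 0, nat_lit 891400, nat_lit 0, nat_lit 0, [(nat_lit 15, [(nat_lit 1, nat_lit 181), (nat_lit 2, nat_lit 819)])],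
 ⟨p064_k0, nat_lit 0, nat_lit 0, nat_lit 0, nat_lit 0, nat_lit 122313, [nat_lit 1657046301, nat_lit 1989701700, nat_lit 1689327600], [], [nat_lit 21358587079, nat_lit 21911128596, nat_lit 21218478137, nat_lit 21752726022, nat_lit 22545386466, nat_lit 23181543809, nat_lit 22297845042, nat_lit 22898903691], nat_lit 1271250, nat_lit 1271250, nat_lit 279600, nat_lit 356250, nat_lit 1271250, nat_lit 1271250, [nat_lit 631250, nat_lit 936250, nat_lit 1100000], [nat_lit 214, nat_lit 40, nat_lit 20, nat_lit 40]⟩, C1.Rw.none,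
 ⟨nat_lit 4743, nat_lit 5000, ⟨.ofNat (nat_lit 271427), .ofNat (nat_lit 292856), .ofNat (nat_lit 282141), .ofNat (nat_lit 303569), .ofNat (nat_lit 278116), .ofNat (nat_lit 299026), .ofNat (nat_lit 288859), .ofNat (nat_lit 309769)⟩, ⟨.ofNat (nat_lit 571427), .ofNat (nat_lit 607141), .ofNat (nat_lit 592856), .ofNat (nat_lit 628570), .ofNat (nat_lit 566807), .ofNat (nat_lit 601657), .ofNat (nat_lit 588295), .ofNat (nat_lit 623145)⟩⟩, [⟨nat_lit 0, nat_lit 100, nat_lit 87, nat_lit 72, nat_lit 221062960⟩, ⟨nat_lit 16, nat_lit 94, nat_lit 88, nat_lit 100, nat_lit 235696226⟩]⟩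
noncomputable def p064_l3 : Lf2 := ⟨nat_lit 0, nat_lit 2, [nat_lit 10, nat_lit 5, nat_lit 5, nat_lit 20], true, nat_lit 300, nat_lit 320, nat_lit 0, nat_lit 280, ⟨nat_lit 0, nat_lit 1000, nat_lit 0, nat_lit 6, nat_lit 128, nat_lit 1000, nat_lit 239, nat_lit 0, nat_lit 0, nat_lit 0, nat_lit 0, nat_lit 0, nat_lit 44056298, nat_lit 6220269, nat_lit 16723433, nat_lit 4500269, false, false⟩,
 nat_lit 0, nat_lit 5079, nat_lit 0, nat_lit 0, nat_lit 3516, nat_lit 0, nat_lit 798, nat_lit 0, nat_lit 0, nat_lit 0, nat_lit 0, nat_lit 0, nat_lit 0, nat_lit 0, nat_lit 0, nat_lit 400000, nat_lit 0, nat_lit 0, [(nat_lit 15, [(nat_lit 1, nat_lit 1000)])],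
 ⟨p064_k2, nat_lit 0, nat_lit 0, nat_lit 0, nat_lit 0, nat_lit 165737, [nat_lit 1405200000, nat_lit 1867600000, nat_lit 2222000000], [], [nat_lit 21141445379, nat_lit 21696562103, nat_lit 21050777532, nat_lit 21570067406, nat_lit 22198524108, nat_lit 22728793346, nat_lit 22040042400, nat_lit 22533925176], nat_lit 1271250, nat_lit 1271250, nat_lit 356250, nat_lit 490000, nat_lit 1271250, nat_lit 1271250, [nat_lit 490000, nat_lit 780000, nat_lit 1100000], [nat_lit 78, nat_lit 40, nat_lit 40, nat_lit 80]⟩, C1.Rw.none,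
 ⟨nat_lit 4743, nat_lit 5000, ⟨.ofNat (nat_lit 292856), .ofNat (nat_lit 328569), .ofNat (nat_lit 303569), .ofNat (nat_lit 339283), .ofNat (nat_lit 299026), .ofNat (nat_lit 333875), .ofNat (nat_lit 309769), .ofNat (nat_lit 344618)⟩, ⟨.ofNat (nat_lit 571427), .ofNat (nat_lit 607141), .ofNat (nat_lit 592856), .ofNat (nat_lit 628570), .ofNat (nat_lit 566807), .ofNat (nat_lit 601657), .ofNat (nat_lit 588295), .ofNat (nat_lit 623145)⟩⟩, [⟨nat_lit 0, nat_lit 100, nat_lit 87, nat_lit 72, nat_lit 21030487⟩, ⟨nat_lit 16, nat_lit 94, nat_lit 88, nat_lit 100, nat_lit 230750122⟩]⟩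
noncomputable def p064_l4 : Lf2 := ⟨nat_lit 0, nat_lit 4, [nat_lit 38, nat_lit 5, nat_lit 5, nat_lit 20], true, nat_lit 280, nat_lit 320, nat_lit 0, nat_lit 276, ⟨nat_lit 0, nat_lit 1000, nat_lit 0, nat_lit 6, nat_lit 116, nat_lit 1000, nat_lit 232, nat_lit 0, nat_lit 0, nat_lit 0, nat_lit 0, nat_lit 0, nat_lit 45343640, nat_lit 5428264, nat_lit 16228096, nat_lit 4320378, false, false⟩,
 nat_lit 0, nat_lit 5413, nat_lit 0, nat_lit 4214, nat_lit 3747, nat_lit 0, nat_lit 0, nat_lit 0, nat_lit 0, nat_lit 0, nat_lit 0, nat_lit 0, nat_lit 0, nat_lit 0, nat_lit 0, nat_lit 961000, nat_lit 0, nat_lit 0, [(nat_lit 15, [(nat_lit 1, nat_lit 65), (nat_lit 2, nat_lit 935)])],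
 ⟨p064_k3, nat_lit 0, nat_lit 0, nat_lit 0, nat_lit 0, nat_lit 59152, [nat_lit 1653299501, nat_lit 1983384000, nat_lit 1289076000], [], [nat_lit 20342722639, nat_lit 20617077404, nat_lit 20212229055, nat_lit 20483829949, nat_lit 22533885086, nat_lit 22851580835, nat_lit 22292881662, nat_lit 22573456031], nat_lit 1271250, nat_lit 1271250, nat_lit 279600, nat_lit 356250, nat_lit 1271250, nat_lit 1271250, [nat_lit 631250, nat_lit 936250, nat_lit 1271250], [nat_lit 208, nat_lit 40, nat_lit 20, nat_lit 40]⟩, C1.Rw.none,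
 ⟨nat_lit 4873, nat_lit 5000, ⟨.ofNat (nat_lit 271427), .ofNat (nat_lit 292856), .ofNat (nat_lit 282141), .ofNat (nat_lit 303570), .ofNat (nat_lit 274772), .ofNat (nat_lit 295941), .ofNat (nat_lit 285500), .ofNat (nat_lit 306669)⟩, ⟨.ofNat (nat_lit 535713), .ofNat (nat_lit 607141), .ofNat (nat_lit 557141), .ofNat (nat_lit 628570), .ofNat (nat_lit 533843), .ofNat (nat_lit 604406), .ofNat (nat_lit 555299), .ofNat (nat_lit 625862)⟩⟩, [⟨nat_lit 0, nat_lit 100, nat_lit 88, nat_lit 74, nat_lit 228204463⟩, ⟨nat_lit 16, nat_lit 94, nat_lit 88, nat_lit 100, nat_lit 223676451⟩]⟩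
noncomputable def p064_l5 : Lf2 := ⟨nat_lit 0, nat_lit 4, [nat_lit 38, nat_lit 5, nat_lit 5, nat_lit 20], true, nat_lit 280, nat_lit 320, nat_lit 0, nat_lit 300, ⟨nat_lit 0, nat_lit 1000, nat_lit 0, nat_lit 6, nat_lit 127, nat_lit 1000, nat_lit 232, nat_lit 0, nat_lit 0, nat_lit 0, nat_lit 0, nat_lit 0, nat_lit 44676485, nat_lit 6222508, nat_lit 16101007, nat_lit 4451512, false, false⟩,
 nat_lit 0, nat_lit 5416, nat_lit 0, nat_lit 2019, nat_lit 3749, nat_lit 0, nat_lit 0, nat_lit 0, nat_lit 0, nat_lit 0, nat_lit 0, nat_lit 0, nat_lit 0, nat_lit 0, nat_lit 0, nat_lit 950200, nat_lit 0, nat_lit 0, [(nat_lit 15, [(nat_lit 1, nat_lit 83), (nat_lit 2, nat_lit 917)])],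
 ⟨p064_k3, nat_lit 0, nat_lit 0, nat_lit 0, nat_lit 0, nat_lit 59152, [nat_lit 1653880901, nat_lit 1985428800, nat_lit 1307983200], [], [nat_lit 20229047619, nat_lit 20500710834, nat_lit 20152083149, nat_lit 20418474664, nat_lit 22311313576, nat_lit 22575482564, nat_lit 22181314281, nat_lit 22431013758], nat_lit 1271250, nat_lit 1271250, nat_lit 356250, nat_lit 490000, nat_lit 1271250, nat_lit 1271250, [nat_lit 631250, nat_lit 936250, nat_lit 1271250], [nat_lit 208, nat_lit 40, nat_lit 20, nat_lit 40]⟩, C1.Rw.none,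
 ⟨nat_lit 4873, nat_lit 5000, ⟨.ofNat (nat_lit 292856), .ofNat (nat_lit 328570), .ofNat (nat_lit 303570), .ofNat (nat_lit 339284), .ofNat (nat_lit 295941), .ofNat (nat_lit 331222), .ofNat (nat_lit 306669), .ofNat (nat_lit 341950)⟩, ⟨.ofNat (nat_lit 535713), .ofNat (nat_lit 607141), .ofNat (nat_lit 557141), .ofNat (nat_lit 628570), .ofNat (nat_lit 533843), .ofNat (nat_lit 604406), .ofNat (nat_lit 555299), .ofNat (nat_lit 625862)⟩⟩, [⟨nat_lit 0, nat_lit 100, nat_lit 88, nat_lit 74, nat_lit 55300067⟩, ⟨nat_lit 16, nat_lit 94, nat_lit 88, nat_lit 100, nat_lit 225064677⟩]⟩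
noncomputable def p064_l6 : Lf2 := ⟨nat_lit 1, nat_lit 5, [nat_lit 4, nat_lit 5, nat_lit 5, nat_lit 20], false, nat_lit 280, nat_lit 320, nat_lit 0, nat_lit 300, zbN0,
 nat_lit 0, nat_lit 0, nat_lit 0, nat_lit 0, nat_lit 0, nat_lit 0, nat_lit 0, nat_lit 0, nat_lit 0, nat_lit 0, nat_lit 0, nat_lit 0, nat_lit 0, nat_lit 0, nat_lit 0, nat_lit 0, nat_lit 0, nat_lit 0, [],
 C1.Rw.none, C1.Rw.none,
 zbF0, []⟩
noncomputable def p064_l7 : Lf2 := ⟨nat_lit 0, nat_lit 5, [nat_lit 4, nat_lit 5, nat_lit 5, nat_lit 20], true, nat_lit 280, nat_lit 316, nat_lit 0, nat_lit 300, ⟨nat_lit 0, nat_lit 1000, nat_lit 0, nat_lit 6, nat_lit 125, nat_lit 1000, nat_lit 230, nat_lit 0, nat_lit 0, nat_lit 0, nat_lit 0, nat_lit 0, nat_lit 44982437, nat_lit 6119315, nat_lit 15898248, nat_lit 4417156, false, false⟩,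
 nat_lit 0, nat_lit 5313, nat_lit 0, nat_lit 1451, nat_lit 3753, nat_lit 0, nat_lit 445, nat_lit 0, nat_lit 0, nat_lit 0, nat_lit 0, nat_lit 0, nat_lit 0, nat_lit 0, nat_lit 0, nat_lit 400000, nat_lit 0, nat_lit 0, [(nat_lit 15, [(nat_lit 1, nat_lit 1000)])],
 ⟨p064_k4, nat_lit 0, nat_lit 0, nat_lit 0, nat_lit 0, nat_lit 88294, [nat_lit 1683500001, nat_lit 2089600000, nat_lit 2271200000], [], [nat_lit 20681963267, nat_lit 20955588909, nat_lit 20510048812, nat_lit 20776561267, nat_lit 22552594969, nat_lit 22821453120, nat_lit 22314209823, nat_lit 22557776545], nat_lit 1271250, nat_lit 1271250, nat_lit 304850, nat_lit 490000, nat_lit 1271250, nat_lit 1271250, [nat_lit 631250, nat_lit 936250, nat_lit 1271250], [nat_lit 208, nat_lit 40, nat_lit 20, nat_lit 40]⟩, C1.Rw.none,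
 ⟨nat_lit 4743, nat_lit 4874, ⟨.ofNat (nat_lit 281828), .ofNat (nat_lit 331222), .ofNat (nat_lit 292556), .ofNat (nat_lit 341950), .ofNat (nat_lit 285086), .ofNat (nat_lit 333875), .ofNat (nat_lit 295829), .ofNat (nat_lit 344619)⟩, ⟨.ofNat (nat_lit 533843), .ofNat (nat_lit 597350), .ofNat (nat_lit 555299), .ofNat (nat_lit 618806), .ofNat (nat_lit 531957), .ofNat (nat_lit 594687), .ofNat (nat_lit 553445), .ofNat (nat_lit 616175)⟩⟩, [⟨nat_lit 0, nat_lit 100, nat_lit 86, nat_lit 77, nat_lit 152427465⟩, ⟨nat_lit 16, nat_lit 93, nat_lit 90, nat_lit 100, nat_lit 221128481⟩]⟩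
noncomputable def p064_l8 : Lf2 := ⟨nat_lit 0, nat_lit 5, [nat_lit 4, nat_lit 5, nat_lit 5, nat_lit 20], false, nat_lit 280, nat_lit 320, nat_lit 0, nat_lit 160, ⟨nat_lit 1000, nat_lit 0, nat_lit 0, nat_lit 0, nat_lit 0, nat_lit 0, nat_lit 0, nat_lit 0, nat_lit 0, nat_lit 0, nat_lit 0, nat_lit 0, nat_lit 0, nat_lit 0, nat_lit 0, nat_lit 0, false, false⟩,
 nat_lit 26386, nat_lit 0, nat_lit 0, nat_lit 0, nat_lit 5493, nat_lit 14658, nat_lit 1526, nat_lit 0, nat_lit 0, nat_lit 3477, nat_lit 0, nat_lit 0, nat_lit 0, nat_lit 0, nat_lit 0, nat_lit 0, nat_lit 0, nat_lit 0, [],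
 ⟨p064_k5, nat_lit 0, nat_lit 0, nat_lit 0, nat_lit 0, nat_lit 176560, [nat_lit 3282000000, nat_lit 4688000000, nat_lit 6250000000], [], [nat_lit 21394347691, nat_lit 21700605252, nat_lit 20925524703, nat_lit 21240301852, nat_lit 24320277194, nat_lit 24702111877, nat_lit 23489762064, nat_lit 23864334959], nat_lit 1271250, nat_lit 1271250, nat_lit 330400, nat_lit 490000, nat_lit 1271250, nat_lit 1271250, [nat_lit 780000, nat_lit 1100000, nat_lit 1442500], [nat_lit 59, nat_lit 40, nat_lit 40, nat_lit 80]⟩, ⟨p064_k6, nat_lit 0, nat_lit 0, nat_lit 258, nat_lit 0, nat_lit 232507, [nat_lit 4688000000, nat_lit 6250000000, nat_lit 7968000000], [], [nat_lit 20536486041, nat_lit 22956651324, nat_lit 16965321826, nat_lit 19353888028, nat_lit 19309976604, nat_lit 15828003884, nat_lit 20932206906, nat_lit 17478738132], nat_lit 1271250, nat_lit 1271250, nat_lit 330400, nat_lit 490000, nat_lit 0, nat_lit 1100001, [nat_lit 1100000, nat_lit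 1442500, nat_lit 1271250], [nat_lit 9, nat_lit 40, nat_lit 40, nat_lit 80, nat_lit 2, nat_lit 272, nat_lit 60, nat_lit 9]⟩,
 zbF0, [⟨nat_lit 0, nat_lit 100, nat_lit 89, nat_lit 76, nat_lit 449532363⟩, ⟨nat_lit 4, nat_lit 95, nat_lit 96, nat_lit 100, nat_lit 655393382⟩]⟩
noncomputable def p064_l9 : Lf2 := ⟨nat_lit 0, nat_lit 5, [nat_lit 4, nat_lit 5, nat_lit 5, nat_lit 20], false, nat_lit 280, nat_lit 316, nat_lit 0, nat_lit 160, ⟨nat_lit 181, nat_lit 819, nat_lit 0, nat_lit 6, nat_lit 132, nat_lit 819, nat_lit 230, nat_lit 0, nat_lit 0, nat_lit 0, nat_lit 0, nat_lit 0, nat_lit 44554425, nat_lit 6628934, nat_lit 15816641, nat_lit 4496559, false, false⟩,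
 nat_lit 6105, nat_lit 0, nat_lit 0, nat_lit 0, nat_lit 4111, nat_lit 3391, nat_lit 726, nat_lit 0, nat_lit 0, nat_lit 0, nat_lit 0, nat_lit 0, nat_lit 0, nat_lit 0, nat_lit 0, nat_lit 327600, nat_lit 0, nat_lit 0, [(nat_lit 15, [(nat_lit 1, nat_lit 819)])],
 ⟨p064_k7, nat_lit 0, nat_lit 0, nat_lit 0, nat_lit 0, nat_lit 198893, [nat_lit 2248585800, nat_lit 2663432000, nat_lit 3036571600], [], [nat_lit 21111610312, nat_lit 21377391922, nat_lit 20903030782, nat_lit 21163918882, nat_lit 22809834512, nat_lit 23139846356, nat_lit 22579943091, nat_lit 22834618613], nat_lit 1271250, nat_lit 1271250, nat_lit 356250, nat_lit 490000, nat_lit 1271250, nat_lit 1271250, [nat_lit 780000, nat_lit 1100000, nat_lit 1442500], [nat_lit 59, nat_lit 40, nat_lit 40, nat_lit 80]⟩, ⟨p064_k6, nat_lit 0, nat_lit 0, nat_lit 270, nat_lit 0, nat_lit 268543, [nat_lit 848528000, nat_lit 1131250000, nat_lit 1442208000], [], [nat_lit 5104633829, nat_lit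 4774486857, nat_lit 3529769871, nat_lit 4059997074, nat_lit 3062209876, nat_lit 2257784987, nat_lit 3358884983, nat_lit 2559955210], nat_lit 1271250, nat_lit 1271250, nat_lit 356250, nat_lit 490000, nat_lit 0, nat_lit 1100001, [nat_lit 1100000, nat_lit 1442500, nat_lit 1271250], [nat_lit 9, nat_lit 40, nat_lit 40, nat_lit 80, nat_lit 2, nat_lit 272, nat_lit 60, nat_lit 9]⟩,
 ⟨nat_lit 4743, nat_lit 4874, ⟨.ofNat (nat_lit 306669), .ofNat (nat_lit 341950), .ofNat (nat_lit 317396), .ofNat (nat_lit 352678), .ofNat (nat_lit 309769), .ofNat (nat_lit 344619), .ofNat (nat_lit 320513), .ofNat (nat_lit 355363)⟩, ⟨.ofNat (nat_lit 533843), .ofNat (nat_lit 597350), .ofNat (nat_lit 555299), .ofNat (nat_lit 618806), .ofNat (nat_lit 531957), .ofNat (nat_lit 594687), .ofNat (nat_lit 553445), .ofNat (nat_lit 616175)⟩⟩, [⟨nat_lit 0, nat_lit 100, nat_lit 88, nat_lit 74, nat_lit 541191550⟩, ⟨nat_lit 16, nat_lit 93, nat_lit 90, nat_lit 100, nat_lit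 260707110⟩]⟩
noncomputable def p064_l10 : Lf2 := ⟨nat_lit 0, nat_lit 5, [nat_lit 4, nat_lit 5, nat_lit 5, nat_lit 20], false, nat_lit 280, nat_lit 320, nat_lit 160, nat_lit 240, ⟨nat_lit 131, nat_lit 869, nat_lit 0, nat_lit 6, nat_lit 130, nat_lit 869, nat_lit 232, nat_lit 0, nat_lit 0, nat_lit 0, nat_lit 0, nat_lit 0, nat_lit 44510670, nat_lit 6472735, nat_lit 16016595, nat_lit 4487001, false, false⟩,
 nat_lit 6594, nat_lit 0, nat_lit 0, nat_lit 0, nat_lit 3910, nat_lit 3663, nat_lit 669, nat_lit 0, nat_lit 0, nat_lit 0, nat_lit 0, nat_lit 0, nat_lit 0, nat_lit 0, nat_lit 0, nat_lit 387800, nat_lit 0, nat_lit 138002178, [(nat_lit 15, [(nat_lit 1, nat_lit 802), (nat_lit 2, nat_lit 67)])],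
 ⟨p064_k8, nat_lit 0, nat_lit 0, nat_lit 0, nat_lit 0, nat_lit 203925, [nat_lit 1806309901, nat_lit 2049268401, nat_lit 2511733600, nat_lit 2733834800], [], [nat_lit 20448146349, nat_lit 20984326265, nat_lit 20312297383, nat_lit 20858076413, nat_lit 22523390919, nat_lit 23167784342, nat_lit 22391280003, nat_lit 22884992283], nat_lit 1271250, nat_lit 1271250, nat_lit 330400, nat_lit 490000, nat_lit 1271250, nat_lit 1271250, [nat_lit 631250, nat_lit 780000, nat_lit 1100000, nat_lit 1442500], [nat_lit 207, nat_lit 40, nat_lit 20, nat_lit 40]⟩, ⟨p064_k6, nat_lit 0, nat_lit 0, nat_lit 177, nat_lit 0, nat_lit 268543, [nat_lit 614128000, nat_lit 818750000, nat_lit 1043808000], [], [nat_lit 3220313996, nat_lit 2272164761, nat_lit 939665727, nat_lit 0, nat_lit 1936704457, nat_lit 2310972992, nat_lit 1262173651, nat_lit 1627870120], nat_lit 1271250, nat_lit 1271250, nat_lit 330400, nat_lit 490000, nat_lit 1100001, nat_lit 1785000,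 [nat_lit 1100000, nat_lit 1442500, nat_lit 1271250], [nat_lit 9, nat_lit 40, nat_lit 40, nat_lit 80, nat_lit 2, nat_lit 317, nat_lit 100, nat_lit 10]⟩,
 ⟨nat_lit 4743, nat_lit 5000, ⟨.ofNat (nat_lit 296426), .ofNat (nat_lit 339283), .ofNat (nat_lit 307140), .ofNat (nat_lit 349996), .ofNat (nat_lit 302799), .ofNat (nat_lit 344618), .ofNat (nat_lit 313542), .ofNat (nat_lit 355361)⟩, ⟨.ofNat (nat_lit 535713), .ofNat (nat_lit 607141), .ofNat (nat_lit 557141), .ofNat (nat_lit 628570), .ofNat (nat_lit 531957), .ofNat (nat_lit 601657), .ofNat (nat_lit 553445), .ofNat (nat_lit 623145)⟩⟩, [⟨nat_lit 0, nat_lit 100, nat_lit 89, nat_lit 72, nat_lit 376592643⟩, ⟨nat_lit 16, nat_lit 94, nat_lit 88, nat_lit 100, nat_lit 266923209⟩]⟩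
noncomputable def p064_l11 : Lf2 := ⟨nat_lit 0, nat_lit 5, [nat_lit 4, nat_lit 5, nat_lit 5, nat_lit 20], false, nat_lit 280, nat_lit 320, nat_lit 240, nat_lit 300, ⟨nat_lit 1000, nat_lit 0, nat_lit 0, nat_lit 0, nat_lit 0, nat_lit 0, nat_lit 0, nat_lit 0, nat_lit 0, nat_lit 0, nat_lit 0, nat_lit 0, nat_lit 0, nat_lit 0, nat_lit 0, nat_lit 0, false, false⟩,
 nat_lit 15510, nat_lit 0, nat_lit 0, nat_lit 0, nat_lit 5421, nat_lit 8616, nat_lit 1545, nat_lit 0, nat_lit 0, nat_lit 2199, nat_lit 0, nat_lit 0, nat_lit 0, nat_lit 0, nat_lit 0, nat_lit 0, nat_lit 0, nat_lit 0, [],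
 ⟨p064_k8, nat_lit 0, nat_lit 0, nat_lit 0, nat_lit 0, nat_lit 203925, [nat_lit 2637500000, nat_lit 3282000000, nat_lit 4688000000, nat_lit 6250000000], [], [nat_lit 20908088979, nat_lit 21751788699, nat_lit 20433318647, nat_lit 21096847007, nat_lit 24133378234, nat_lit 24892766421, nat_lit 23428213008, nat_lit 24172028638], nat_lit 1271250, nat_lit 1271250, nat_lit 330400, nat_lit 490000, nat_lit 1271250, nat_lit 1271250, [nat_lit 631250, nat_lit 780000, nat_lit 1100000, nat_lit 1442500], [nat_lit 207, nat_lit 40, nat_lit 20, nat_lit 40]⟩, ⟨p064_k6, nat_lit 0, nat_lit 0, nat_lit 181, nat_lit 0, nat_lit 268543, [nat_lit 4688000000, nat_lit 6250000000, nat_lit 7968000000], [], [nat_lit 15900811221, nat_lit 16681566544, nat_lit 14880171736, nat_lit 15642127312, nat_lit 20810616186, nat_lit 21714689629, nat_lit 19671288844, nat_lit 20292883792], nat_lit 1271250, nat_lit 1271250, nat_lit 330400, nat_lit 490000, nat_lit 1271250,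 nat_lit 1271250, [nat_lit 1100000, nat_lit 1442500, nat_lit 1271250], [nat_lit 9, nat_lit 40, nat_lit 40, nat_lit 80, nat_lit 2, nat_lit 226, nat_lit 20, nat_lit 7]⟩,
 zbF0, [⟨nat_lit 0, nat_lit 100, nat_lit 88, nat_lit 81, nat_lit 335990337⟩, ⟨nat_lit 4, nat_lit 95, nat_lit 95, nat_lit 100, nat_lit 20712162⟩, ⟨nat_lit 11, nat_lit 100, nat_lit 100, nat_lit 82, nat_lit 764277499⟩]⟩
noncomputable def p064_l12 : Lf2 := ⟨nat_lit 0, nat_lit 5, [nat_lit 4, nat_lit 5, nat_lit 5, nat_lit 20], false, nat_lit 280, nat_lit 320, nat_lit 0, nat_lit 336, ⟨nat_lit 0, nat_lit 1000, nat_lit 0, nat_lit 6, nat_lit 149, nat_lit 1000, nat_lit 232, nat_lit 0, nat_lit 0, nat_lit 0, nat_lit 0, nat_lit 0, nat_lit 43392694, nat_lit 7820200, nat_lit 15787106, nat_lit 4680083, false, false⟩,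
 nat_lit 0, nat_lit 5477, nat_lit 0, nat_lit 0, nat_lit 3791, nat_lit 0, nat_lit 502, nat_lit 0, nat_lit 0, nat_lit 0, nat_lit 0, nat_lit 0, nat_lit 0, nat_lit 0, nat_lit 0, nat_lit 466600, nat_lit 0, nat_lit 0, [(nat_lit 15, [(nat_lit 1, nat_lit 889), (nat_lit 2, nat_lit 111)])],
 ⟨p064_k8, nat_lit 0, nat_lit 0, nat_lit 0, nat_lit 0, nat_lit 171087, [nat_lit 1679914701, nat_lit 1861606000, nat_lit 2166810800, nat_lit 2149865600], [], [nat_lit 20186951679, nat_lit 20704142065, nat_lit 20339273787, nat_lit 20833006883, nat_lit 22157266647, nat_lit 22659147153, nat_lit 22256169589, nat_lit 22733335407], nat_lit 1271250, nat_lit 1271250, nat_lit 490000, nat_lit 780000, nat_lit 1271250, nat_lit 1271250, [nat_lit 631250, nat_lit 780000, nat_lit 1100000, nat_lit 1442500], [nat_lit 207, nat_lit 40, nat_lit 20, nat_lit 40]⟩, ⟨p064_k9, nat_lit 0, nat_lit 0, nat_lit 313, nat_lit 0, nat_lit 239633, [nat_lit 0, nat_lit 0, nat_lit 0],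 [], [nat_lit 0, nat_lit 0, nat_lit 0, nat_lit 0, nat_lit 0, nat_lit 0, nat_lit 0, nat_lit 0], nat_lit 1271250, nat_lit 1271250, nat_lit 490000, nat_lit 780000, nat_lit 0, nat_lit 2373000, [nat_lit 1100000, nat_lit 1442500, nat_lit 1271250], [nat_lit 11, nat_lit 40, nat_lit 40, nat_lit 80, nat_lit 1, nat_lit 428, nat_lit 200, nat_lit 13]⟩,
 ⟨nat_lit 4743, nat_lit 5000, ⟨.ofNat (nat_lit 328569), .ofNat (nat_lit 399997), .ofNat (nat_lit 339283), .ofNat (nat_lit 410710), .ofNat (nat_lit 333875), .ofNat (nat_lit 403574), .ofNat (nat_lit 344618), .ofNat (nat_lit 414317)⟩, ⟨.ofNat (nat_lit 535713), .ofNat (nat_lit 607141), .ofNat (nat_lit 557141), .ofNat (nat_lit 628570), .ofNat (nat_lit 531957), .ofNat (nat_lit 601657), .ofNat (nat_lit 553445), .ofNat (nat_lit 623145)⟩⟩, [⟨nat_lit 16, nat_lit 94, nat_lit 88, nat_lit 100, nat_lit 213164989⟩]⟩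
noncomputable def p064_l13 : Lf2 := ⟨nat_lit 0, nat_lit 2, [nat_lit 10, nat_lit 5, nat_lit 5, nat_lit 20], false, nat_lit 280, nat_lit 300, nat_lit 0, nat_lit 336, ⟨nat_lit 0, nat_lit 373, nat_lit 627, nat_lit 6, nat_lit 153, nat_lit 1000, nat_lit 225, nat_lit 627, nat_lit 3391, nat_lit 215, nat_lit 220417, nat_lit 330, nat_lit 43713354, nat_lit 8206719, nat_lit 15079927, nat_lit 4677181, false, false⟩,
 nat_lit 0, nat_lit 3559, nat_lit 0, nat_lit 0, nat_lit 2463, nat_lit 0, nat_lit 0, nat_lit 0, nat_lit 0, nat_lit 0, nat_lit 0, nat_lit 0, nat_lit 0, nat_lit 0, nat_lit 0, nat_lit 887200, nat_lit 0, nat_lit 0, [(nat_lit 15, [(nat_lit 1, nat_lit 188), (nat_lit 2, nat_lit 185), (nat_lit 6, nat_lit 627)])],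
 ⟨p064_k10, nat_lit 0, nat_lit 0, nat_lit 0, nat_lit 0, nat_lit 197548, [nat_lit 671668800, nat_lit 1117662400, nat_lit 822896801, nat_lit 290048000], [], [nat_lit 19436416389, nat_lit 19935798619, nat_lit 19863489887, nat_lit 20342101656, nat_lit 20391578829, nat_lit 20869160049, nat_lit 20779774099, nat_lit 21237916205], nat_lit 1271250, nat_lit 1271250, nat_lit 490000, nat_lit 780000, nat_lit 1271250, nat_lit 1271250, [nat_lit 356250, nat_lit 631250, nat_lit 936250, nat_lit 1100000], [nat_lit 235, nat_lit 40, nat_lit 20, nat_lit 40]⟩, ⟨p064_k11, nat_lit 0, nat_lit 0, nat_lit 251, nat_lit 0, nat_lit 259361, [nat_lit 0, nat_lit 0, nat_lit 0], [], [nat_lit 0, nat_lit 0, nat_lit 0, nat_lit 0, nat_lit 0, nat_lit 0, nat_lit 0, nat_lit 0], nat_lit 1271250, nat_lit 1271250, nat_lit 490000, nat_lit 780000, nat_lit 0, nat_lit 2373000, [nat_lit 1100000, nat_lit 1442500, nat_lit 1271250], [nat_lit 9, nat_lit 40, nat_lit 40, nat_lit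 80, nat_lit 2, nat_lit 345, nat_lit 125, nat_lit 12]⟩,
 ⟨nat_lit 4743, nat_lit 5000, ⟨.ofNat (nat_lit 339283), .ofNat (nat_lit 410710), .ofNat (nat_lit 349996), .ofNat (nat_lit 421423), .ofNat (nat_lit 344618), .ofNat (nat_lit 414317), .ofNat (nat_lit 355361), .ofNat (nat_lit 425060)⟩, ⟨.ofNat (nat_lit 535713), .ofNat (nat_lit 571427), .ofNat (nat_lit 557141), .ofNat (nat_lit 592856), .ofNat (nat_lit 531957), .ofNat (nat_lit 566807), .ofNat (nat_lit 553445), .ofNat (nat_lit 588295)⟩⟩, []⟩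
noncomputable def p064_l14 : Lf2 := ⟨nat_lit 0, nat_lit 5, [nat_lit 4, nat_lit 5, nat_lit 5, nat_lit 20], false, nat_lit 280, nat_lit 300, nat_lit 0, nat_lit 336, ⟨nat_lit 0, nat_lit 0, nat_lit 1000, nat_lit 6, nat_lit 153, nat_lit 1000, nat_lit 225, nat_lit 1000, nat_lit 3391, nat_lit 215, nat_lit 220417, nat_lit 330, nat_lit 43713354, nat_lit 0, nat_lit 0, nat_lit 4677181, false, false⟩,
 nat_lit 0, nat_lit 3685, nat_lit 0, nat_lit 0, nat_lit 2551, nat_lit 0, nat_lit 0, nat_lit 0, nat_lit 0, nat_lit 0, nat_lit 0, nat_lit 0, nat_lit 0, nat_lit 0, nat_lit 48, nat_lit 393700, nat_lit 0, nat_lit 0, [(nat_lit 15, [(nat_lit 4, nat_lit 142), (nat_lit 5, nat_lit 833), (nat_lit 6, nat_lit 25)])],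
 ⟨p064_k12, nat_lit 0, nat_lit 0, nat_lit 0, nat_lit 0, nat_lit 123488, [nat_lit 1015193201, nat_lit 1200861201, nat_lit 1074681400, nat_lit 71949100], [], [nat_lit 19082111791, nat_lit 19545699732, nat_lit 19447477501, nat_lit 19892048817, nat_lit 19969760472, nat_lit 20416158887, nat_lit 20305298347, nat_lit 20768796309], nat_lit 1271250, nat_lit 1271250, nat_lit 490000, nat_lit 780000, nat_lit 1271250, nat_lit 1271250, [nat_lit 356250, nat_lit 631250, nat_lit 936250, nat_lit 1438750], [nat_lit 177, nat_lit 40, nat_lit 20, nat_lit 40]⟩, ⟨p064_k6, nat_lit 0, nat_lit 0, nat_lit 237, nat_lit 0, nat_lit 162618, [nat_lit 0, nat_lit 0, nat_lit 0], [], [nat_lit 0, nat_lit 0, nat_lit 0, nat_lit 0, nat_lit 0, nat_lit 0, nat_lit 0, nat_lit 0], nat_lit 1271250, nat_lit 1271250, nat_lit 490000, nat_lit 780000, nat_lit 0, nat_lit 2373000, [nat_lit 1100000, nat_lit 1442500, nat_lit 1271250], [nat_lit 9, nat_lit 40, nat_lit 40, nat_lit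 80, nat_lit 2, nat_lit 345, nat_lit 125, nat_lit 12]⟩,
 ⟨nat_lit 4743, nat_lit 5000, ⟨.ofNat (nat_lit 339283), .ofNat (nat_lit 410710), .ofNat (nat_lit 349996), .ofNat (nat_lit 421423), .ofNat (nat_lit 344618), .ofNat (nat_lit 414317), .ofNat (nat_lit 355361), .ofNat (nat_lit 425060)⟩, ⟨.ofNat (nat_lit 535713), .ofNat (nat_lit 571427), .ofNat (nat_lit 557141), .ofNat (nat_lit 592856), .ofNat (nat_lit 531957), .ofNat (nat_lit 566807), .ofNat (nat_lit 553445), .ofNat (nat_lit 588295)⟩⟩, []⟩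
noncomputable def p064_l15 : Lf2 := ⟨nat_lit 0, nat_lit 5, [nat_lit 4, nat_lit 5, nat_lit 5, nat_lit 20], false, nat_lit 300, nat_lit 320, nat_lit 0, nat_lit 160, ⟨nat_lit 1000, nat_lit 0, nat_lit 0, nat_lit 0, nat_lit 0, nat_lit 0, nat_lit 0, nat_lit 0, nat_lit 0, nat_lit 0, nat_lit 0, nat_lit 0, nat_lit 0, nat_lit 0, nat_lit 0, nat_lit 0, false, false⟩,
 nat_lit 27299, nat_lit 0, nat_lit 0, nat_lit 0, nat_lit 4951, nat_lit 15165, nat_lit 4985, nat_lit 0, nat_lit 0, nat_lit 517, nat_lit 0, nat_lit 0, nat_lit 0, nat_lit 0, nat_lit 0, nat_lit 0, nat_lit 0, nat_lit 0, [],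
 ⟨p064_k8, nat_lit 0, nat_lit 0, nat_lit 0, nat_lit 0, nat_lit 203925, [nat_lit 2637500000, nat_lit 3282000000, nat_lit 4688000000, nat_lit 6250000000], [], [nat_lit 21641441308, nat_lit 22272265693, nat_lit 21611732881, nat_lit 22212050859, nat_lit 23026434448, nat_lit 23735455978, nat_lit 22812368836, nat_lit 23379545862], nat_lit 1271250, nat_lit 1271250, nat_lit 490000, nat_lit 780000, nat_lit 1271250, nat_lit 1271250, [nat_lit 631250, nat_lit 780000, nat_lit 1100000, nat_lit 1442500], [nat_lit 207, nat_lit 40, nat_lit 20, nat_lit 40]⟩, ⟨p064_k13, nat_lit 0, nat_lit 0, nat_lit 0, nat_lit 0, nat_lit 268543, [nat_lit 4688000000, nat_lit 5449500000, nat_lit 7089500000, nat_lit 7968000000], [], [nat_lit 21450963035, nat_lit 19737723350, nat_lit 16483052705, nat_lit 18070520430, nat_lit 6378452160, nat_lit 7759693340, nat_lit 5158260085, nat_lit 6454583110], nat_lit 1271250, nat_lit 1271250, nat_lit 490000, nat_lit 780000,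 nat_lit 0, nat_lit 1100001, [nat_lit 1100000, nat_lit 1271250, nat_lit 1271250, nat_lit 1271250], [nat_lit 129, nat_lit 40, nat_lit 20, nat_lit 40]⟩,
 zbF0, [⟨nat_lit 16, nat_lit 95, nat_lit 95, nat_lit 100, nat_lit 787614646⟩]⟩
noncomputable def p064_l16 : Lf2 := ⟨nat_lit 0, nat_lit 5, [nat_lit 4, nat_lit 5, nat_lit 5, nat_lit 20], false, nat_lit 300, nat_lit 320, nat_lit 0, nat_lit 160, ⟨nat_lit 0, nat_lit 1000, nat_lit 0, nat_lit 6, nat_lit 153, nat_lit 1000, nat_lit 239, nat_lit 0, nat_lit 0, nat_lit 0, nat_lit 0, nat_lit 0, nat_lit 42539045, nat_lit 8080765, nat_lit 16380190, nat_lit 4764914, false, false⟩,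
 nat_lit 80000, nat_lit 0, nat_lit 100000, nat_lit 100000, nat_lit 5517, nat_lit 100000, nat_lit 0, nat_lit 0, nat_lit 0, nat_lit 57079, nat_lit 9675, nat_lit 0, nat_lit 0, nat_lit 0, nat_lit 0, nat_lit 250000, nat_lit 0, nat_lit 0, [(nat_lit 15, [(nat_lit 0, nat_lit 1000)])],
 ⟨p064_k14, nat_lit 0, nat_lit 0, nat_lit 0, nat_lit 0, nat_lit 203925, [nat_lit 2318400000, nat_lit 2724800000], [], [nat_lit 22177206461, nat_lit 22809264502, nat_lit 21892050184, nat_lit 22493439452, nat_lit 23510278416, nat_lit 24261200926, nat_lit 23049373234, nat_lit 23765793939], nat_lit 1271250, nat_lit 1271250, nat_lit 490000, nat_lit 780000, nat_lit 1271250, nat_lit 1271250, [nat_lit 780000, nat_lit 1435000], [nat_lit 49, nat_lit 40, nat_lit 40, nat_lit 80]⟩, ⟨p064_k15, nat_lit 0, nat_lit 0, nat_lit 252, nat_lit 0, nat_lit 268543, [nat_lit 154800000000, nat_lit 232200000000], [], [nat_lit 465856925000, nat_lit 439420025000, nat_lit 360507325000,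 nat_lit 357054825000, nat_lit 292088025000, nat_lit 294945425000, nat_lit 279023925000, nat_lit 281588425000], nat_lit 1271250, nat_lit 1271250, nat_lit 490000, nat_lit 780000, nat_lit 0, nat_lit 1100001, [nat_lit 1100000, nat_lit 1785000], [nat_lit 39, nat_lit 40, nat_lit 40, nat_lit 80, nat_lit 7, nat_lit 289, nat_lit 75, nat_lit 10]⟩,
 ⟨nat_lit 4743, nat_lit 5000, ⟨.ofNat (nat_lit 339283), .ofNat (nat_lit 410710), .ofNat (nat_lit 349996), .ofNat (nat_lit 421423), .ofNat (nat_lit 344618), .ofNat (nat_lit 414317), .ofNat (nat_lit 355361), .ofNat (nat_lit 425060)⟩, ⟨.ofNat (nat_lit 571427), .ofNat (nat_lit 607141), .ofNat (nat_lit 592856), .ofNat (nat_lit 628570), .ofNat (nat_lit 566807), .ofNat (nat_lit 601657), .ofNat (nat_lit 588295), .ofNat (nat_lit 623145)⟩⟩, [⟨nat_lit 16, nat_lit 95, nat_lit 95, nat_lit 100, nat_lit 9857028792⟩]⟩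
noncomputable def p064_l17 : Lf2 := ⟨nat_lit 0, nat_lit 5, [nat_lit 4, nat_lit 5, nat_lit 5, nat_lit 20], false, nat_lit 300, nat_lit 320, nat_lit 160, nat_lit 320, ⟨nat_lit 230, nat_lit 770, nat_lit 0, nat_lit 6, nat_lit 153, nat_lit 770, nat_lit 239, nat_lit 0, nat_lit 0, nat_lit 0, nat_lit 0, nat_lit 0, nat_lit 42539045, nat_lit 8080765, nat_lit 16380190, nat_lit 4764914, false, false⟩,
 nat_lit 5894, nat_lit 0, nat_lit 0, nat_lit 0, nat_lit 4080, nat_lit 3274, nat_lit 788, nat_lit 0, nat_lit 0, nat_lit 0, nat_lit 0, nat_lit 0, nat_lit 0, nat_lit 0, nat_lit 0, nat_lit 308000, nat_lit 0, nat_lit 0, [(nat_lit 15, [(nat_lit 1, nat_lit 770)])],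
 ⟨p064_k8, nat_lit 0, nat_lit 0, nat_lit 0, nat_lit 0, nat_lit 203925, [nat_lit 1902920001, nat_lit 2192912000, nat_lit 2789180000, nat_lit 3228828000], [], [nat_lit 21348413061, nat_lit 21856095521, nat_lit 21405253061, nat_lit 21909398901, nat_lit 22380891601, nat_lit 22926403240, nat_lit 22427373441, nat_lit 22918815281], nat_lit 1271250, nat_lit 1271250, nat_lit 490000, nat_lit 780000, nat_lit 1271250, nat_lit 1271250, [nat_lit 631250, nat_lit 780000, nat_lit 1100000, nat_lit 1442500], [nat_lit 207, nat_lit 40, nat_lit 20, nat_lit 40]⟩, ⟨p064_k6, nat_lit 0, nat_lit 0, nat_lit 174, nat_lit 0, nat_lit 268543, [nat_lit 1078240000, nat_lit 1437500000, nat_lit 1832640000], [], [nat_lit 4033428206, nat_lit 3193552260, nat_lit 1712505806, nat_lit 1996949116, nat_lit 6262977472, nat_lit 5947096944, nat_lit 7210327482, nat_lit 6438963260], nat_lit 1271250, nat_lit 1271250, nat_lit 490000, nat_lit 780000, nat_lit 1100001, nat_lit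 2470000, [nat_lit 1100000, nat_lit 1442500, nat_lit 1271250], [nat_lit 9, nat_lit 40, nat_lit 40, nat_lit 80, nat_lit 2, nat_lit 345, nat_lit 125, nat_lit 11]⟩,
 ⟨nat_lit 4743, nat_lit 5000, ⟨.ofNat (nat_lit 339283), .ofNat (nat_lit 410710), .ofNat (nat_lit 349996), .ofNat (nat_lit 421423), .ofNat (nat_lit 344618), .ofNat (nat_lit 414317), .ofNat (nat_lit 355361), .ofNat (nat_lit 425060)⟩, ⟨.ofNat (nat_lit 571427), .ofNat (nat_lit 607141), .ofNat (nat_lit 592856), .ofNat (nat_lit 628570), .ofNat (nat_lit 566807), .ofNat (nat_lit 601657), .ofNat (nat_lit 588295), .ofNat (nat_lit 623145)⟩⟩, [⟨nat_lit 4, nat_lit 95, nat_lit 95, nat_lit 100, nat_lit 155616288⟩, ⟨nat_lit 23, nat_lit 93, nat_lit 100, nat_lit 97, nat_lit 148048885⟩]⟩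
noncomputable def b_V_700_600_20_39 : St := ⟨true, nat_lit 1, nat_lit 1, nat_lit 1, nat_lit 120, nat_lit 300, nat_lit 310, nat_lit 240, nat_lit 260, nat_lit 48, nat_lit 120, nat_lit 100, nat_lit 120, nat_lit 280, nat_lit 320, nat_lit 0, nat_lit 336, nat_lit 0, nat_lit 20, nat_lit 0, nat_lit 600, nat_lit 0, nat_lit 0⟩
theorem d_V_700_600_20_39 (h : EB TB.env) : Dead b_V_700_600_20_39 := chkB_sound0 h (T :=
(.spl (nat_lit 2) (nat_lit 80)
(.trX (nat_lit 23) (nat_lit 100) (nat_lit 95) (nat_lit 87) (nat_lit 300) (.spl (nat_lit 1) (nat_lit 250)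
(.spl (nat_lit 6) (nat_lit 8)
(.spl (nat_lit 4) (nat_lit 300)
(.leaf p064_l0)
(.trX (nat_lit 23) (nat_lit 94) (nat_lit 100) (nat_lit 87) (nat_lit 280) (.spl (nat_lit 2) (nat_lit 60)
(.trX (nat_lit 23) (nat_lit 90) (nat_lit 100) (nat_lit 74) (nat_lit 256) (.spl (nat_lit 6) (nat_lit 4)
(.leaf p064_l1)
(.leaf p064_l2)))
(.leaf p064_l3))))
(.spl (nat_lit 0) (nat_lit 305)
(.spl (nat_lit 6) (nat_lit 16)
(.spl (nat_lit 2) (nat_lit 60)
(.trX (nat_lit 23) (nat_lit 99) (nat_lit 100) (nat_lit 77) (nat_lit 276) (.leaf p064_l4))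
(.leaf p064_l5))
(.leaf p064_l6))
(.trZ (nat_lit 0) (nat_lit 100) (nat_lit 87) (nat_lit 70) (nat_lit 52) (.trX (nat_lit 16) (nat_lit 93) (nat_lit 90) (nat_lit 100) (nat_lit 316) (.leaf p064_l7)))))
(.trZ (nat_lit 0) (nat_lit 100) (nat_lit 89) (nat_lit 72) (nat_lit 56) (.spl (nat_lit 5) (nat_lit 160)
(.spl (nat_lit 0) (nat_lit 305)
(.leaf p064_l8)
(.trZ (nat_lit 0) (nat_lit 100) (nat_lit 88) (nat_lit 74) (nat_lit 60) (.trX (nat_lit 16) (nat_lit 93) (nat_lit 90) (nat_lit 100) (nat_lit 316) (.leaf p064_l9))))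
(.spl (nat_lit 5) (nat_lit 240)
(.leaf p064_l10)
(.leaf p064_l11))))))
(.spl (nat_lit 1) (nat_lit 250)
(.leaf p064_l12)
(.spl (nat_lit 4) (nat_lit 300)
(.spl (nat_lit 6) (nat_lit 8)
(.leaf p064_l13)
(.leaf p064_l14))
(.trX (nat_lit 23) (nat_lit 94) (nat_lit 88) (nat_lit 100) (nat_lit 320) (.spl (nat_lit 5) (nat_lit 160)
(.spl (nat_lit 8) (nat_lit 800)
(.leaf p064_l15)
(.leaf p064_l16))
(.leaf p064_l17))))))) (by decide +kernel)
noncomputable def p064_l18 : Lf2 := ⟨nat_lit 0, nat_lit 5, [nat_lit 4, nat_lit 5, nat_lit 5, nat_lit 20], true, nat_lit 280, nat_lit 312, nat_lit 0, nat_lit 300, ⟨nat_lit 0, nat_lit 1000, nat_lit 0, nat_lit 6, nat_lit 129, nat_lit 1000, nat_lit 227, nat_lit 0, nat_lit 0, nat_lit 0, nat_lit 0, nat_lit 0, nat_lit 45036606, nat_lit 6361987, nat_lit 15601407, nat_lit 4433964, false, false⟩,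
 nat_lit 0, nat_lit 5005, nat_lit 0, nat_lit 0, nat_lit 3607, nat_lit 0, nat_lit 662, nat_lit 0, nat_lit 0, nat_lit 0, nat_lit 0, nat_lit 0, nat_lit 0, nat_lit 0, nat_lit 0, nat_lit 250000, nat_lit 0, nat_lit 0, [(nat_lit 15, [(nat_lit 0, nat_lit 1000)])],
 ⟨p064_k16, nat_lit 0, nat_lit 0, nat_lit 0, nat_lit 0, nat_lit 218103, [nat_lit 1159200000, nat_lit 1631600000, nat_lit 2131600001, nat_lit 2533200000], [], [nat_lit 20713619190, nat_lit 21231468511, nat_lit 20637759274, nat_lit 21149177343, nat_lit 22348158018, nat_lit 22946156905, nat_lit 22210038788, nat_lit 22724325107], nat_lit 1271250, nat_lit 1271250, nat_lit 330400, nat_lit 490000, nat_lit 1271250, nat_lit 1271250, [nat_lit 356250, nat_lit 631250, nat_lit 936250, nat_lit 1271250], [nat_lit 173, nat_lit 40, nat_lit 20, nat_lit 40]⟩, C1.Rw.none,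
 ⟨nat_lit 4472, nat_lit 4744, ⟨.ofNat (nat_lit 292052), .ofNat (nat_lit 333872), .ofNat (nat_lit 302794), .ofNat (nat_lit 344614), .ofNat (nat_lit 298407), .ofNat (nat_lit 339193), .ofNat (nat_lit 309188), .ofNat (nat_lit 349974)⟩, ⟨.ofNat (nat_lit 531957), .ofNat (nat_lit 587717), .ofNat (nat_lit 553445), .ofNat (nat_lit 609205), .ofNat (nat_lit 528122), .ofNat (nat_lit 582505), .ofNat (nat_lit 549689), .ofNat (nat_lit 604071)⟩⟩, [⟨nat_lit 0, nat_lit 100, nat_lit 84, nat_lit 76, nat_lit 139211372⟩, ⟨nat_lit 16, nat_lit 91, nat_lit 91, nat_lit 100, nat_lit 226267522⟩]⟩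
noncomputable def p064_l19 : Lf2 := ⟨nat_lit 0, nat_lit 5, [nat_lit 4, nat_lit 5, nat_lit 5, nat_lit 20], false, nat_lit 280, nat_lit 312, nat_lit 0, nat_lit 336, ⟨nat_lit 0, nat_lit 1000, nat_lit 0, nat_lit 6, nat_lit 151, nat_lit 1000, nat_lit 227, nat_lit 0, nat_lit 0, nat_lit 0, nat_lit 0, nat_lit 0, nat_lit 43667674, nat_lit 7994361, nat_lit 15337965, nat_lit 4668439, false, false⟩,
 nat_lit 0, nat_lit 5116, nat_lit 0, nat_lit 0, nat_lit 3688, nat_lit 0, nat_lit 582, nat_lit 0, nat_lit 0, nat_lit 0, nat_lit 0, nat_lit 0, nat_lit 0, nat_lit 0, nat_lit 0, nat_lit 400000, nat_lit 0, nat_lit 0, [(nat_lit 15, [(nat_lit 1, nat_lit 1000)])],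
 ⟨p064_k17, nat_lit 0, nat_lit 0, nat_lit 0, nat_lit 0, nat_lit 218103, [nat_lit 1683500001, nat_lit 2089600000, nat_lit 2271200000], [], [nat_lit 20498007991, nat_lit 21060571919, nat_lit 20697956407, nat_lit 21234767215, nat_lit 22167513976, nat_lit 22686511708, nat_lit 22293089489, nat_lit 22789013129], nat_lit 1271250, nat_lit 1271250, nat_lit 490000, nat_lit 780000, nat_lit 1271250, nat_lit 1271250, [nat_lit 631250, nat_lit 936250, nat_lit 1271250], [nat_lit 208, nat_lit 40, nat_lit 20, nat_lit 40]⟩, ⟨p064_k9, nat_lit 0, nat_lit 0, nat_lit 344, nat_lit 0, nat_lit 321015, [nat_lit 0, nat_lit 0, nat_lit 0], [], [nat_lit 0, nat_lit 0, nat_lit 0, nat_lit 0, nat_lit 0, nat_lit 0, nat_lit 0, nat_lit 0], nat_lit 1271250, nat_lit 1271250, nat_lit 490000, nat_lit 780000, nat_lit 0, nat_lit 2373000, [nat_lit 1100000, nat_lit 1442500, nat_lit 1271250], [nat_lit 11, nat_lit 40, nat_lit 40, nat_lit 80, nat_lit 1, nat_lit 428, nat_lit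 200, nat_lit 13]⟩,
 ⟨nat_lit 4472, nat_lit 4744, ⟨.ofNat (nat_lit 333872), .ofNat (nat_lit 403571), .ofNat (nat_lit 344614), .ofNat (nat_lit 414313), .ofNat (nat_lit 339193), .ofNat (nat_lit 407171), .ofNat (nat_lit 349974), .ofNat (nat_lit 417952)⟩, ⟨.ofNat (nat_lit 531957), .ofNat (nat_lit 587717), .ofNat (nat_lit 553445), .ofNat (nat_lit 609205), .ofNat (nat_lit 528122), .ofNat (nat_lit 582505), .ofNat (nat_lit 549689), .ofNat (nat_lit 604071)⟩⟩, [⟨nat_lit 4, nat_lit 99, nat_lit 92, nat_lit 100, nat_lit 241941613⟩]⟩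
noncomputable def p064_l20 : Lf2 := ⟨nat_lit 0, nat_lit 2, [nat_lit 10, nat_lit 5, nat_lit 5, nat_lit 20], false, nat_lit 280, nat_lit 312, nat_lit 0, nat_lit 160, ⟨nat_lit 182, nat_lit 818, nat_lit 0, nat_lit 6, nat_lit 149, nat_lit 818, nat_lit 227, nat_lit 0, nat_lit 0, nat_lit 0, nat_lit 0, nat_lit 0, nat_lit 43743705, nat_lit 7903019, nat_lit 15353276, nat_lit 4656352, false, false⟩,
 nat_lit 5666, nat_lit 0, nat_lit 0, nat_lit 0, nat_lit 4084, nat_lit 3147, nat_lit 343, nat_lit 0, nat_lit 0, nat_lit 350, nat_lit 0, nat_lit 0, nat_lit 0, nat_lit 0, nat_lit 0, nat_lit 818000, nat_lit 0, nat_lit 0, [(nat_lit 15, [(nat_lit 2, nat_lit 818)])],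
 ⟨p064_k18, nat_lit 0, nat_lit 0, nat_lit 0, nat_lit 0, nat_lit 239798, [nat_lit 2218141920, nat_lit 2146310400], [], [nat_lit 21093531338, nat_lit 21692567280, nat_lit 21069810760, nat_lit 21632154120, nat_lit 22772337275, nat_lit 23439790574, nat_lit 22648592479, nat_lit 23167075586], nat_lit 1271250, nat_lit 1271250, nat_lit 382400, nat_lit 780000, nat_lit 1271250, nat_lit 1271250, [nat_lit 780000, nat_lit 1100000], [nat_lit 40, nat_lit 40, nat_lit 40, nat_lit 80]⟩, ⟨p064_k19, nat_lit 0, nat_lit 0, nat_lit 283, nat_lit 0, nat_lit 330665, [nat_lit 853216000, nat_lit 1450176000], [], [nat_lit 4888475922, nat_lit 4410145171, nat_lit 2899205346, nat_lit 3374967628, nat_lit 3220744829, nat_lit 2475222418, nat_lit 4360787671, nat_lit 3629264374], nat_lit 1271250, nat_lit 1271250, nat_lit 382400, nat_lit 780000, nat_lit 0, nat_lit 1100001, [nat_lit 1100000, nat_lit 1785000], [nat_lit 39, nat_lit 40, nat_lit 40, nat_lit 80, nat_lit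 7, nat_lit 289, nat_lit 75, nat_lit 10]⟩,
 ⟨nat_lit 4472, nat_lit 4744, ⟨.ofNat (nat_lit 316734), .ofNat (nat_lit 414313), .ofNat (nat_lit 327477), .ofNat (nat_lit 425056), .ofNat (nat_lit 322783), .ofNat (nat_lit 417952), .ofNat (nat_lit 333565), .ofNat (nat_lit 428734)⟩, ⟨.ofNat (nat_lit 531957), .ofNat (nat_lit 587717), .ofNat (nat_lit 553445), .ofNat (nat_lit 609205), .ofNat (nat_lit 528122), .ofNat (nat_lit 582505), .ofNat (nat_lit 549689), .ofNat (nat_lit 604071)⟩⟩, [⟨nat_lit 0, nat_lit 100, nat_lit 86, nat_lit 77, nat_lit 190705199⟩, ⟨nat_lit 16, nat_lit 91, nat_lit 91, nat_lit 100, nat_lit 304668744⟩]⟩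
noncomputable def p064_l21 : Lf2 := ⟨nat_lit 0, nat_lit 2, [nat_lit 10, nat_lit 5, nat_lit 5, nat_lit 20], false, nat_lit 280, nat_lit 312, nat_lit 160, nat_lit 240, ⟨nat_lit 158, nat_lit 842, nat_lit 0, nat_lit 6, nat_lit 149, nat_lit 842, nat_lit 227, nat_lit 0, nat_lit 0, nat_lit 0, nat_lit 0, nat_lit 0, nat_lit 43743705, nat_lit 7903019, nat_lit 15353276, nat_lit 4656352, false, false⟩,
 nat_lit 5625, nat_lit 0, nat_lit 0, nat_lit 0, nat_lit 4055, nat_lit 3125, nat_lit 315, nat_lit 0, nat_lit 0, nat_lit 346, nat_lit 0, nat_lit 0, nat_lit 0, nat_lit 0, nat_lit 0, nat_lit 842000, nat_lit 0, nat_lit 0, [(nat_lit 15, [(nat_lit 2, nat_lit 842)])],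
 ⟨p064_k18, nat_lit 0, nat_lit 0, nat_lit 0, nat_lit 0, nat_lit 239798, [nat_lit 2186928480, nat_lit 2071737600], [], [nat_lit 21067014158, nat_lit 21664062861, nat_lit 21051336860, nat_lit 21611873810, nat_lit 22741076331, nat_lit 23407784429, nat_lit 22625580729, nat_lit 23142491722], nat_lit 1271250, nat_lit 1271250, nat_lit 382400, nat_lit 780000, nat_lit 1271250, nat_lit 1271250, [nat_lit 780000, nat_lit 1100000], [nat_lit 40, nat_lit 40, nat_lit 40, nat_lit 80]⟩, ⟨p064_k19, nat_lit 0, nat_lit 0, nat_lit 178, nat_lit 0, nat_lit 330665, [nat_lit 740704000, nat_lit 1258944000], [], [nat_lit 3339401772, nat_lit 2532923647, nat_lit 133203653, nat_lit 84518262, nat_lit 2071679821, nat_lit 2316589683, nat_lit 3052382396, nat_lit 2305994896], nat_lit 1271250, nat_lit 1271250, nat_lit 382400, nat_lit 780000, nat_lit 1100001, nat_lit 1785000, [nat_lit 1100000, nat_lit 1785000], [nat_lit 39, nat_lit 40, nat_lit 40, nat_lit 80,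 nat_lit 7, nat_lit 317, nat_lit 100, nat_lit 10]⟩,
 ⟨nat_lit 4472, nat_lit 4744, ⟨.ofNat (nat_lit 316734), .ofNat (nat_lit 414313), .ofNat (nat_lit 327477), .ofNat (nat_lit 425056), .ofNat (nat_lit 322783), .ofNat (nat_lit 417952), .ofNat (nat_lit 333565), .ofNat (nat_lit 428734)⟩, ⟨.ofNat (nat_lit 531957), .ofNat (nat_lit 587717), .ofNat (nat_lit 553445), .ofNat (nat_lit 609205), .ofNat (nat_lit 528122), .ofNat (nat_lit 582505), .ofNat (nat_lit 549689), .ofNat (nat_lit 604071)⟩⟩, [⟨nat_lit 0, nat_lit 100, nat_lit 86, nat_lit 77, nat_lit 184794655⟩, ⟨nat_lit 16, nat_lit 91, nat_lit 91, nat_lit 100, nat_lit 296359899⟩]⟩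
noncomputable def p064_l22 : Lf2 := ⟨nat_lit 0, nat_lit 2, [nat_lit 10, nat_lit 5, nat_lit 5, nat_lit 20], false, nat_lit 280, nat_lit 312, nat_lit 240, nat_lit 336, ⟨nat_lit 332, nat_lit 668, nat_lit 0, nat_lit 6, nat_lit 149, nat_lit 668, nat_lit 227, nat_lit 0, nat_lit 0, nat_lit 0, nat_lit 0, nat_lit 0, nat_lit 43743705, nat_lit 7903019, nat_lit 15353276, nat_lit 4656352, false, false⟩,
 nat_lit 5879, nat_lit 0, nat_lit 0, nat_lit 0, nat_lit 4238, nat_lit 3265, nat_lit 697, nat_lit 0, nat_lit 0, nat_lit 574, nat_lit 0, nat_lit 0, nat_lit 0, nat_lit 0, nat_lit 0, nat_lit 267200, nat_lit 0, nat_lit 0, [(nat_lit 15, [(nat_lit 1, nat_lit 668)])],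
 ⟨p064_k18, nat_lit 0, nat_lit 0, nat_lit 0, nat_lit 0, nat_lit 239798, [nat_lit 2439117601, nat_lit 3012923200], [], [nat_lit 21472877868, nat_lit 22047739775, nat_lit 21380105611, nat_lit 21919626277, nat_lit 23081790122, nat_lit 23611047649, nat_lit 22892373282, nat_lit 23408067482], nat_lit 1271250, nat_lit 1271250, nat_lit 382400, nat_lit 780000, nat_lit 1271250, nat_lit 1271250, [nat_lit 780000, nat_lit 1100000], [nat_lit 40, nat_lit 40, nat_lit 40, nat_lit 80]⟩, ⟨p064_k19, nat_lit 0, nat_lit 0, nat_lit 200, nat_lit 0, nat_lit 330665, [nat_lit 1556416000, nat_lit 2645376000], [], [nat_lit 5798270409, nat_lit 6077123214, nat_lit 5282730226, nat_lit 5541101156, nat_lit 8728478218, nat_lit 8921589034, nat_lit 8003601247, nat_lit 8182921646], nat_lit 1271250, nat_lit 1271250, nat_lit 382400, nat_lit 780000, nat_lit 1271250, nat_lit 1271250, [nat_lit 1100000, nat_lit 1785000], [nat_lit 39, nat_lit 40, nat_lit 40, nat_lit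 80, nat_lit 7, nat_lit 238, nat_lit 30, nat_lit 7]⟩,
 ⟨nat_lit 4472, nat_lit 4744, ⟨.ofNat (nat_lit 316734), .ofNat (nat_lit 414313), .ofNat (nat_lit 327477), .ofNat (nat_lit 425056), .ofNat (nat_lit 322783), .ofNat (nat_lit 417952), .ofNat (nat_lit 333565), .ofNat (nat_lit 428734)⟩, ⟨.ofNat (nat_lit 531957), .ofNat (nat_lit 587717), .ofNat (nat_lit 553445), .ofNat (nat_lit 609205), .ofNat (nat_lit 528122), .ofNat (nat_lit 582505), .ofNat (nat_lit 549689), .ofNat (nat_lit 604071)⟩⟩, [⟨nat_lit 0, nat_lit 100, nat_lit 84, nat_lit 85, nat_lit 73060202⟩, ⟨nat_lit 4, nat_lit 99, nat_lit 92, nat_lit 100, nat_lit 77832937⟩, ⟨nat_lit 11, nat_lit 100, nat_lit 98, nat_lit 91, nat_lit 258297835⟩]⟩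
noncomputable def p064_l23 : Lf2 := ⟨nat_lit 0, nat_lit 5, [nat_lit 4, nat_lit 5, nat_lit 5, nat_lit 20], false, nat_lit 280, nat_lit 312, nat_lit 0, nat_lit 160, ⟨nat_lit 1000, nat_lit 0, nat_lit 0, nat_lit 0, nat_lit 0, nat_lit 0, nat_lit 0, nat_lit 0, nat_lit 0, nat_lit 0, nat_lit 0, nat_lit 0, nat_lit 0, nat_lit 0, nat_lit 0, nat_lit 0, false, false⟩,
 nat_lit 7103, nat_lit 0, nat_lit 9283, nat_lit 7274, nat_lit 5120, nat_lit 9103, nat_lit 1075, nat_lit 0, nat_lit 0, nat_lit 2926, nat_lit 0, nat_lit 0, nat_lit 0, nat_lit 0, nat_lit 0, nat_lit 0, nat_lit 0, nat_lit 0, [],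
 ⟨p064_k16, nat_lit 0, nat_lit 0, nat_lit 0, nat_lit 0, nat_lit 170854, [nat_lit 1465500000, nat_lit 2637500000, nat_lit 3965500000, nat_lit 5449500000], [], [nat_lit 21732009263, nat_lit 22412128758, nat_lit 21473277070, nat_lit 22142408310, nat_lit 23729429275, nat_lit 24442404884, nat_lit 23439470895, nat_lit 24050260087], nat_lit 1271250, nat_lit 1271250, nat_lit 382400, nat_lit 490000, nat_lit 1271250, nat_lit 1271250, [nat_lit 356250, nat_lit 631250, nat_lit 936250, nat_lit 1271250], [nat_lit 173, nat_lit 40, nat_lit 20, nat_lit 40]⟩, ⟨p064_k6, nat_lit 0, nat_lit 0, nat_lit 254, nat_lit 0, nat_lit 236430, [nat_lit 4688000000, nat_lit 6250000000, nat_lit 7968000000], [], [nat_lit 15359893603, nat_lit 16533453071, nat_lit 14459364869, nat_lit 15616502570, nat_lit 9899358389, nat_lit 10793013606, nat_lit 9771881142, nat_lit 10259234596], nat_lit 1271250, nat_lit 1271250, nat_lit 382400, nat_lit 490000, nat_lit 0, nat_lit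 1100001, [nat_lit 1100000, nat_lit 1442500, nat_lit 1271250], [nat_lit 9, nat_lit 40, nat_lit 40, nat_lit 80, nat_lit 2, nat_lit 272, nat_lit 60, nat_lit 9]⟩,
 zbF0, [⟨nat_lit 0, nat_lit 100, nat_lit 85, nat_lit 81, nat_lit 187605275⟩, ⟨nat_lit 0, nat_lit 100, nat_lit 86, nat_lit 77, nat_lit 983208116⟩, ⟨nat_lit 16, nat_lit 91, nat_lit 91, nat_lit 100, nat_lit 614336473⟩]⟩
noncomputable def p064_l24 : Lf2 := ⟨nat_lit 0, nat_lit 5, [nat_lit 4, nat_lit 5, nat_lit 5, nat_lit 20], false, nat_lit 280, nat_lit 312, nat_lit 160, nat_lit 300, ⟨nat_lit 208, nat_lit 792, nat_lit 0, nat_lit 6, nat_lit 136, nat_lit 792, nat_lit 227, nat_lit 0, nat_lit 0, nat_lit 0, nat_lit 0, nat_lit 0, nat_lit 44603974, nat_lit 6875022, nat_lit 15521004, nat_lit 4512059, false, false⟩,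
 nat_lit 5577, nat_lit 0, nat_lit 0, nat_lit 0, nat_lit 3970, nat_lit 3098, nat_lit 709, nat_lit 0, nat_lit 0, nat_lit 0, nat_lit 0, nat_lit 0, nat_lit 0, nat_lit 0, nat_lit 0, nat_lit 198000, nat_lit 0, nat_lit 0, [(nat_lit 15, [(nat_lit 0, nat_lit 792)])],
 ⟨p064_k16, nat_lit 0, nat_lit 0, nat_lit 0, nat_lit 0, nat_lit 170854, [nat_lit 1222910400, nat_lit 1840827200, nat_lit 2513051201, nat_lit 3139790400], [], [nat_lit 20764754173, nat_lit 21365206498, nat_lit 20631661626, nat_lit 21222435010, nat_lit 22539182929, nat_lit 23200272220, nat_lit 22379372165, nat_lit 22951506281], nat_lit 1271250, nat_lit 1271250, nat_lit 382400, nat_lit 490000, nat_lit 1271250, nat_lit 1271250, [nat_lit 356250, nat_lit 631250, nat_lit 936250, nat_lit 1271250], [nat_lit 173, nat_lit 40, nat_lit 20, nat_lit 40]⟩, ⟨p064_k6, nat_lit 0, nat_lit 0, nat_lit 171, nat_lit 0, nat_lit 236430, [nat_lit 975104000, nat_lit 1300000000, nat_lit 1657344000],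 [], [nat_lit 4819451722, nat_lit 4019941568, nat_lit 3533538838, nat_lit 2738811996, nat_lit 4872409096, nat_lit 5148790016, nat_lit 4819639699, nat_lit 4762510605], nat_lit 1271250, nat_lit 1271250, nat_lit 382400, nat_lit 490000, nat_lit 1100001, nat_lit 2298750, [nat_lit 1100000, nat_lit 1442500, nat_lit 1271250], [nat_lit 9, nat_lit 40, nat_lit 40, nat_lit 80, nat_lit 2, nat_lit 317, nat_lit 100, nat_lit 10]⟩,
 ⟨nat_lit 4472, nat_lit 4744, ⟨.ofNat (nat_lit 316734), .ofNat (nat_lit 344614), .ofNat (nat_lit 327477), .ofNat (nat_lit 355356), .ofNat (nat_lit 322783), .ofNat (nat_lit 349974), .ofNat (nat_lit 333565), .ofNat (nat_lit 360756)⟩, ⟨.ofNat (nat_lit 531957), .ofNat (nat_lit 587717), .ofNat (nat_lit 553445), .ofNat (nat_lit 609205), .ofNat (nat_lit 528122), .ofNat (nat_lit 582505), .ofNat (nat_lit 549689), .ofNat (nat_lit 604071)⟩⟩, [⟨nat_lit 0, nat_lit 100, nat_lit 86, nat_lit 77, nat_lit 350773341⟩, ⟨nat_lit 16,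 nat_lit 91, nat_lit 91, nat_lit 100, nat_lit 254645875⟩, ⟨nat_lit 23, nat_lit 94, nat_lit 100, nat_lit 83, nat_lit 75663713⟩]⟩
noncomputable def p064_l25 : Lf2 := ⟨nat_lit 0, nat_lit 5, [nat_lit 4, nat_lit 5, nat_lit 5, nat_lit 20], false, nat_lit 280, nat_lit 312, nat_lit 0, nat_lit 160, ⟨nat_lit 1000, nat_lit 0, nat_lit 0, nat_lit 0, nat_lit 0, nat_lit 0, nat_lit 0, nat_lit 0, nat_lit 0, nat_lit 0, nat_lit 0, nat_lit 0, nat_lit 0, nat_lit 0, nat_lit 0, nat_lit 0, false, false⟩,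
 nat_lit 25445, nat_lit 0, nat_lit 0, nat_lit 0, nat_lit 5323, nat_lit 14135, nat_lit 1385, nat_lit 0, nat_lit 0, nat_lit 0, nat_lit 0, nat_lit 0, nat_lit 0, nat_lit 0, nat_lit 0, nat_lit 0, nat_lit 0, nat_lit 0, [],
 ⟨p064_k20, nat_lit 0, nat_lit 0, nat_lit 0, nat_lit 0, nat_lit 170854, [nat_lit 3282000000, nat_lit 4688000000, nat_lit 6250000000], [], [nat_lit 21478608030, nat_lit 22067356432, nat_lit 21329911781, nat_lit 21959194410, nat_lit 23511038055, nat_lit 24267122541, nat_lit 23092331205, nat_lit 23809253497], nat_lit 1271250, nat_lit 1271250, nat_lit 490000, nat_lit 780000, nat_lit 1271250, nat_lit 1271250, [nat_lit 780000, nat_lit 1100000, nat_lit 1442500], [nat_lit 59, nat_lit 40, nat_lit 40, nat_lit 80]⟩, ⟨p064_k6, nat_lit 0, nat_lit 0, nat_lit 243, nat_lit 0, nat_lit 236430, [nat_lit 4688000000, nat_lit 6250000000, nat_lit 7968000000], [], [nat_lit 22307635665, nat_lit 20900842650, nat_lit 17907084395, nat_lit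 19411055170, nat_lit 8654060040, nat_lit 9964136460, nat_lit 7578742615, nat_lit 8809058090], nat_lit 1271250, nat_lit 1271250, nat_lit 490000, nat_lit 780000, nat_lit 0, nat_lit 1100001, [nat_lit 1100000, nat_lit 1442500, nat_lit 1271250], [nat_lit 9, nat_lit 40, nat_lit 40, nat_lit 80, nat_lit 2, nat_lit 289, nat_lit 75, nat_lit 10]⟩,
 zbF0, [⟨nat_lit 4, nat_lit 99, nat_lit 92, nat_lit 100, nat_lit 728342599⟩]⟩
noncomputable def p064_l26 : Lf2 := ⟨nat_lit 0, nat_lit 5, [nat_lit 4, nat_lit 5, nat_lit 5, nat_lit 20], false, nat_lit 280, nat_lit 312, nat_lit 160, nat_lit 336, ⟨nat_lit 156, nat_lit 831, nat_lit 13, nat_lit 6, nat_lit 155, nat_lit 844, nat_lit 227, nat_lit 13, nat_lit 1989, nat_lit 209, nat_lit 224267, nat_lit 331, nat_lit 43394389, nat_lit 8323314, nat_lit 15282297, nat_lit 4711030, false, false⟩,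
 nat_lit 3784, nat_lit 1219, nat_lit 0, nat_lit 0, nat_lit 3606, nat_lit 2102, nat_lit 742, nat_lit 0, nat_lit 0, nat_lit 0, nat_lit 0, nat_lit 0, nat_lit 0, nat_lit 0, nat_lit 0, nat_lit 210090, nat_lit 0, nat_lit 0, [(nat_lit 15, [(nat_lit 0, nat_lit 831), (nat_lit 3, nat_lit 13)])],
 ⟨p064_k16, nat_lit 0, nat_lit 0, nat_lit 0, nat_lit 0, nat_lit 170854, [nat_lit 1319084401, nat_lit 1775681600, nat_lit 2395422001, nat_lit 2954124400], [], [nat_lit 20572361666, nat_lit 21138954228, nat_lit 20722846201, nat_lit 21248635279, nat_lit 22294478713, nat_lit 22848815519, nat_lit 22378563121, nat_lit 22908671324], nat_lit 1271250, nat_lit 1271250, nat_lit 490000, nat_lit 780000, nat_lit 1271250, nat_lit 1271250, [nat_lit 356250, nat_lit 631250, nat_lit 936250, nat_lit 1271250], [nat_lit 173, nat_lit 40, nat_lit 20, nat_lit 40]⟩, ⟨p064_k6, nat_lit 0, nat_lit 0, nat_lit 171, nat_lit 0, nat_lit 236430, [nat_lit 731328000, nat_lit 975000000,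 nat_lit 1243008000], [], [nat_lit 2834380330, nat_lit 2295156372, nat_lit 1319719614, nat_lit 1505044228, nat_lit 4764198190, nat_lit 4441422509, nat_lit 5392766899, nat_lit 4900143020], nat_lit 1271250, nat_lit 1271250, nat_lit 490000, nat_lit 780000, nat_lit 1100001, nat_lit 2607000, [nat_lit 1100000, nat_lit 1442500, nat_lit 1271250], [nat_lit 9, nat_lit 40, nat_lit 40, nat_lit 80, nat_lit 2, nat_lit 345, nat_lit 125, nat_lit 11]⟩,
 ⟨nat_lit 4472, nat_lit 4744, ⟨.ofNat (nat_lit 344614), .ofNat (nat_lit 414313), .ofNat (nat_lit 355356), .ofNat (nat_lit 425056), .ofNat (nat_lit 349974), .ofNat (nat_lit 417952), .ofNat (nat_lit 360756), .ofNat (nat_lit 428734)⟩, ⟨.ofNat (nat_lit 531957), .ofNat (nat_lit 587717), .ofNat (nat_lit 553445), .ofNat (nat_lit 609205), .ofNat (nat_lit 528122), .ofNat (nat_lit 582505), .ofNat (nat_lit 549689), .ofNat (nat_lit 604071)⟩⟩, [⟨nat_lit 16, nat_lit 92, nat_lit 99, nat_lit 100, nat_lit 196955684⟩,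 ⟨nat_lit 11, nat_lit 100, nat_lit 100, nat_lit 100, nat_lit 96603962⟩]⟩
noncomputable def b_V_700_600_20_40 : St := ⟨true, nat_lit 1, nat_lit 1, nat_lit 1, nat_lit 120, nat_lit 310, nat_lit 320, nat_lit 240, nat_lit 260, nat_lit 48, nat_lit 120, nat_lit 100, nat_lit 120, nat_lit 280, nat_lit 320, nat_lit 0, nat_lit 336, nat_lit 0, nat_lit 20, nat_lit 0, nat_lit 600, nat_lit 0, nat_lit 0⟩
theorem d_V_700_600_20_40 (h : EB TB.env) : Dead b_V_700_600_20_40 := chkB_sound0 h (T :=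
(.trZ (nat_lit 0) (nat_lit 100) (nat_lit 85) (nat_lit 72) (nat_lit 56) (.trX (nat_lit 16) (nat_lit 91) (nat_lit 91) (nat_lit 100) (nat_lit 312) (.spl (nat_lit 1) (nat_lit 250)
(.spl (nat_lit 2) (nat_lit 80)
(.trX (nat_lit 23) (nat_lit 100) (nat_lit 95) (nat_lit 87) (nat_lit 300) (.leaf p064_l18))
(.leaf p064_l19))
(.trZ (nat_lit 0) (nat_lit 100) (nat_lit 86) (nat_lit 77) (nat_lit 64) (.spl (nat_lit 6) (nat_lit 8)
(.spl (nat_lit 5) (nat_lit 160)
(.leaf p064_l20)
(.spl (nat_lit 5) (nat_lit 240)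
(.leaf p064_l21)
(.leaf p064_l22)))
(.spl (nat_lit 2) (nat_lit 80)
(.trX (nat_lit 23) (nat_lit 100) (nat_lit 95) (nat_lit 87) (nat_lit 300) (.spl (nat_lit 5) (nat_lit 160)
(.leaf p064_l23)
(.leaf p064_l24)))
(.spl (nat_lit 5) (nat_lit 160)
(.leaf p064_l25)
(.leaf p064_l26))))))))) (by decide +kernel)
noncomputable def p064_l27 : Lf2 := ⟨nat_lit 0, nat_lit 10, [nat_lit 0, nat_lit 5, nat_lit 5, nat_lit 20], false, nat_lit 240, nat_lit 280, nat_lit 0, nat_lit 364, ⟨nat_lit 0, nat_lit 153, nat_lit 847, nat_lit 6, nat_lit 141, nat_lit 1000, nat_lit 199, nat_lit 847, nat_lit 4603, nat_lit 229, nat_lit 183750, nat_lit 320, nat_lit 46748716, nat_lit 7442068, nat_lit 12809216, nat_lit 4346999, false, false⟩,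
 nat_lit 0, nat_lit 4943, nat_lit 0, nat_lit 0, nat_lit 3421, nat_lit 0, nat_lit 0, nat_lit 0, nat_lit 0, nat_lit 0, nat_lit 0, nat_lit 0, nat_lit 0, nat_lit 0, nat_lit 62, nat_lit 386200, nat_lit 0, nat_lit 0, [(nat_lit 15, [(nat_lit 0, nat_lit 92), (nat_lit 1, nat_lit 61), (nat_lit 5, nat_lit 847)])],
 ⟨p064_k21, nat_lit 0, nat_lit 0, nat_lit 161, nat_lit 0, nat_lit 155514, [nat_lit 2194499400, nat_lit 818159267, nat_lit 104755933], [], [nat_lit 18229809207, nat_lit 19237866806, nat_lit 18294498423, nat_lit 19264760212, nat_lit 19903320681, nat_lit 21115453073, nat_lit 20018336690, nat_lit 21060426870], nat_lit 1271250, nat_lit 1271250, nat_lit 279600, nat_lit 780000, nat_lit 1271250, nat_lit 1271250, [nat_lit 780000, nat_lit 1435000, nat_lit 1271250], [nat_lit 18, nat_lit 40, nat_lit 40, nat_lit 80, nat_lit 2, nat_lit 238, nat_lit 30, nat_lit 7]⟩, ⟨p064_k22, nat_lit 0, nat_lit 0, nat_lit 410, nat_lit 0, nat_lit 219068,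 [nat_lit 0, nat_lit 0, nat_lit 0], [], [nat_lit 0, nat_lit 0, nat_lit 0, nat_lit 0, nat_lit 0, nat_lit 0, nat_lit 0, nat_lit 0], nat_lit 1271250, nat_lit 1271250, nat_lit 279600, nat_lit 780000, nat_lit 0, nat_lit 2570750, [nat_lit 1100000, nat_lit 1785000, nat_lit 1271250], [nat_lit 21, nat_lit 40, nat_lit 40, nat_lit 80, nat_lit 14, nat_lit 428, nat_lit 200, nat_lit 11]⟩,
 ⟨nat_lit 4472, nat_lit 5000, ⟨.ofNat (nat_lit 271418), .ofNat (nat_lit 399984), .ofNat (nat_lit 292837), .ofNat (nat_lit 421400), .ofNat (nat_lit 284805), .ofNat (nat_lit 407160), .ofNat (nat_lit 306362), .ofNat (nat_lit 428715)⟩, ⟨.ofNat (nat_lit 442856), .ofNat (nat_lit 514284), .ofNat (nat_lit 485713), .ofNat (nat_lit 557141), .ofNat (nat_lit 438578), .ofNat (nat_lit 506556), .ofNat (nat_lit 481711), .ofNat (nat_lit 549689)⟩⟩, [⟨nat_lit 0, nat_lit 100, nat_lit 84, nat_lit 85, nat_lit 110464608⟩, ⟨nat_lit 4, nat_lit 100, nat_lit 93, nat_lit 97, nat_lit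 72167876⟩]⟩
noncomputable def p064_l28 : Lf2 := ⟨nat_lit 0, nat_lit 10, [nat_lit 0, nat_lit 5, nat_lit 5, nat_lit 20], true, nat_lit 280, nat_lit 300, nat_lit 0, nat_lit 300, ⟨nat_lit 0, nat_lit 178, nat_lit 822, nat_lit 6, nat_lit 127, nat_lit 1000, nat_lit 215, nat_lit 822, nat_lit 3033, nat_lit 223, nat_lit 150417, nat_lit 310, nat_lit 46209762, nat_lit 6301579, nat_lit 14488659, nat_lit 4325394, false, false⟩,
 nat_lit 0, nat_lit 5051, nat_lit 0, nat_lit 3460, nat_lit 3496, nat_lit 0, nat_lit 0, nat_lit 0, nat_lit 0, nat_lit 0, nat_lit 0, nat_lit 0, nat_lit 0, nat_lit 0, nat_lit 60, nat_lit 400000, nat_lit 0, nat_lit 0, [(nat_lit 15, [(nat_lit 1, nat_lit 178), (nat_lit 5, nat_lit 822)])],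
 ⟨p064_k21, nat_lit 0, nat_lit 0, nat_lit 165, nat_lit 0, nat_lit 147811, [nat_lit 2160690000, nat_lit 827087067, nat_lit 98980133], [], [nat_lit 19843695721, nat_lit 21193395473, nat_lit 19623539112, nat_lit 20724787264, nat_lit 21048941232, nat_lit 22354003276, nat_lit 20621660716, nat_lit 21850402552], nat_lit 1271250, nat_lit 1271250, nat_lit 279600, nat_lit 490000, nat_lit 1271250, nat_lit 1271250, [nat_lit 780000, nat_lit 1435000, nat_lit 1271250], [nat_lit 18, nat_lit 40, nat_lit 40, nat_lit 80, nat_lit 2, nat_lit 226, nat_lit 20, nat_lit 6]⟩, C1.Rw.none,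
 ⟨nat_lit 4472, nat_lit 5000, ⟨.ofNat (nat_lit 271418), .ofNat (nat_lit 328559), .ofNat (nat_lit 292837), .ofNat (nat_lit 349976), .ofNat (nat_lit 284805), .ofNat (nat_lit 339186), .ofNat (nat_lit 306362), .ofNat (nat_lit 360741)⟩, ⟨.ofNat (nat_lit 514284), .ofNat (nat_lit 549998), .ofNat (nat_lit 535713), .ofNat (nat_lit 571427), .ofNat (nat_lit 506556), .ofNat (nat_lit 540545), .ofNat (nat_lit 528122), .ofNat (nat_lit 562111)⟩⟩, [⟨nat_lit 0, nat_lit 100, nat_lit 86, nat_lit 77, nat_lit 193108912⟩, ⟨nat_lit 16, nat_lit 100, nat_lit 100, nat_lit 100, nat_lit 256443846⟩]⟩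
noncomputable def p064_l29 : Lf2 := ⟨nat_lit 0, nat_lit 10, [nat_lit 0, nat_lit 5, nat_lit 5, nat_lit 20], false, nat_lit 280, nat_lit 300, nat_lit 0, nat_lit 336, ⟨nat_lit 0, nat_lit 179, nat_lit 821, nat_lit 6, nat_lit 152, nat_lit 1000, nat_lit 215, nat_lit 821, nat_lit 3033, nat_lit 223, nat_lit 216600, nat_lit 329, nat_lit 44584429, nat_lit 8188667, nat_lit 14226904, nat_lit 4598549, false, false⟩,
 nat_lit 0, nat_lit 5082, nat_lit 0, nat_lit 241, nat_lit 3518, nat_lit 0, nat_lit 0, nat_lit 0, nat_lit 0, nat_lit 0, nat_lit 0, nat_lit 0, nat_lit 0, nat_lit 0, nat_lit 60, nat_lit 400000, nat_lit 0, nat_lit 0, [(nat_lit 15, [(nat_lit 1, nat_lit 179), (nat_lit 5, nat_lit 821)])],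
 ⟨p064_k21, nat_lit 0, nat_lit 0, nat_lit 143, nat_lit 0, nat_lit 147811, [nat_lit 2161395000, nat_lit 830405534, nat_lit 103444066], [], [nat_lit 19595548970, nat_lit 20731812688, nat_lit 19847070620, nat_lit 20901245060, nat_lit 20594388403, nat_lit 21869561516, nat_lit 20803009884, nat_lit 21873214342], nat_lit 1271250, nat_lit 1271250, nat_lit 490000, nat_lit 780000, nat_lit 1271250, nat_lit 1271250, [nat_lit 780000, nat_lit 1435000, nat_lit 1271250], [nat_lit 18, nat_lit 40, nat_lit 40, nat_lit 80, nat_lit 2, nat_lit 238, nat_lit 30, nat_lit 7]⟩, ⟨p064_k22, nat_lit 0, nat_lit 0, nat_lit 382, nat_lit 0, nat_lit 207031, [nat_lit 0, nat_lit 0, nat_lit 0], [], [nat_lit 0, nat_lit 0, nat_lit 0, nat_lit 0, nat_lit 0, nat_lit 0, nat_lit 0, nat_lit 0], nat_lit 1271250, nat_lit 1271250, nat_lit 490000, nat_lit 780000, nat_lit 0, nat_lit 2373000, [nat_lit 1100000, nat_lit 1785000, nat_lit 1271250], [nat_lit 21, nat_lit 40, nat_lit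 40, nat_lit 80, nat_lit 14, nat_lit 428, nat_lit 200, nat_lit 11]⟩,
 ⟨nat_lit 4472, nat_lit 5000, ⟨.ofNat (nat_lit 328559), .ofNat (nat_lit 399984), .ofNat (nat_lit 349976), .ofNat (nat_lit 421400), .ofNat (nat_lit 339186), .ofNat (nat_lit 407160), .ofNat (nat_lit 360741), .ofNat (nat_lit 428715)⟩, ⟨.ofNat (nat_lit 514284), .ofNat (nat_lit 549998), .ofNat (nat_lit 535713), .ofNat (nat_lit 571427), .ofNat (nat_lit 506556), .ofNat (nat_lit 540545), .ofNat (nat_lit 528122), .ofNat (nat_lit 562111)⟩⟩, [⟨nat_lit 16, nat_lit 100, nat_lit 100, nat_lit 100, nat_lit 257489937⟩]⟩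
noncomputable def p064_l30 : Lf2 := ⟨nat_lit 1, nat_lit 8, [nat_lit 50, nat_lit 5, nat_lit 5, nat_lit 20], false, nat_lit 280, nat_lit 320, nat_lit 0, nat_lit 336, zbN0,
 nat_lit 0, nat_lit 0, nat_lit 0, nat_lit 0, nat_lit 0, nat_lit 0, nat_lit 0, nat_lit 0, nat_lit 0, nat_lit 0, nat_lit 0, nat_lit 0, nat_lit 0, nat_lit 0, nat_lit 0, nat_lit 0, nat_lit 0, nat_lit 0, [],
 C1.Rw.none, C1.Rw.none,
 zbF0, []⟩
noncomputable def p064_l31 : Lf2 := ⟨nat_lit 0, nat_lit 8, [nat_lit 50, nat_lit 5, nat_lit 5, nat_lit 20], false, nat_lit 280, nat_lit 312, nat_lit 0, nat_lit 336, ⟨nat_lit 0, nat_lit 608, nat_lit 392, nat_lit 6, nat_lit 142, nat_lit 1000, nat_lit 227, nat_lit 392, nat_lit 1989, nat_lit 209, nat_lit 190817, nat_lit 322, nat_lit 44187240, nat_lit 7371728, nat_lit 15441032, nat_lit 4583722, false, false⟩,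
 nat_lit 0, nat_lit 5286, nat_lit 0, nat_lit 4346, nat_lit 3810, nat_lit 0, nat_lit 0, nat_lit 0, nat_lit 0, nat_lit 0, nat_lit 0, nat_lit 0, nat_lit 0, nat_lit 0, nat_lit 0, nat_lit 400000, nat_lit 0, nat_lit 0, [(nat_lit 15, [(nat_lit 1, nat_lit 608), (nat_lit 5, nat_lit 392)])],
 ⟨p064_k23, nat_lit 0, nat_lit 0, nat_lit 106, nat_lit 0, nat_lit 50269, [nat_lit 1743840000, nat_lit 1036720000], [], [nat_lit 21345308845, nat_lit 21861795789, nat_lit 21254921070, nat_lit 21737318320, nat_lit 22797377094, nat_lit 23291263047, nat_lit 22613564583, nat_lit 23060288657], nat_lit 1271250, nat_lit 1271250, nat_lit 330400, nat_lit 780000, nat_lit 1271250, nat_lit 1271250, [nat_lit 780000, nat_lit 1435000], [nat_lit 49, nat_lit 40, nat_lit 40, nat_lit 80, nat_lit 16, nat_lit 238, nat_lit 30, nat_lit 8]⟩, ⟨p064_k24, nat_lit 0, nat_lit 0, nat_lit 247, nat_lit 0, nat_lit 74283, [nat_lit 0, nat_lit 0, nat_lit 0], [], [nat_lit 0, nat_lit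 0, nat_lit 0, nat_lit 0, nat_lit 0, nat_lit 0, nat_lit 0, nat_lit 0], nat_lit 1271250, nat_lit 1271250, nat_lit 330400, nat_lit 780000, nat_lit 0, nat_lit 2373000, [nat_lit 1100000, nat_lit 1785000, nat_lit 1271250], [nat_lit 29, nat_lit 40, nat_lit 40, nat_lit 80, nat_lit 17, nat_lit 428, nat_lit 200, nat_lit 13]⟩,
 ⟨nat_lit 4472, nat_lit 4744, ⟨.ofNat (nat_lit 292052), .ofNat (nat_lit 403571), .ofNat (nat_lit 302794), .ofNat (nat_lit 414313), .ofNat (nat_lit 298407), .ofNat (nat_lit 407171), .ofNat (nat_lit 309188), .ofNat (nat_lit 417952)⟩, ⟨.ofNat (nat_lit 531957), .ofNat (nat_lit 587717), .ofNat (nat_lit 553445), .ofNat (nat_lit 609205), .ofNat (nat_lit 528122), .ofNat (nat_lit 582505), .ofNat (nat_lit 549689), .ofNat (nat_lit 604071)⟩⟩, [⟨nat_lit 0, nat_lit 100, nat_lit 83, nat_lit 81, nat_lit 114810840⟩, ⟨nat_lit 4, nat_lit 99, nat_lit 92, nat_lit 100, nat_lit 232641163⟩]⟩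
noncomputable def p064_l32 : Lf2 := ⟨nat_lit 1, nat_lit 6, [nat_lit 47, nat_lit 5, nat_lit 5, nat_lit 20], false, nat_lit 280, nat_lit 320, nat_lit 0, nat_lit 336, zbN0,
 nat_lit 0, nat_lit 0, nat_lit 0, nat_lit 0, nat_lit 0, nat_lit 0, nat_lit 0, nat_lit 0, nat_lit 0, nat_lit 0, nat_lit 0, nat_lit 0, nat_lit 0, nat_lit 0, nat_lit 0, nat_lit 0, nat_lit 0, nat_lit 0, [],
 C1.Rw.none, C1.Rw.none,
 zbF0, []⟩
noncomputable def p064_l33 : Lf2 := ⟨nat_lit 0, nat_lit 6, [nat_lit 47, nat_lit 5, nat_lit 5, nat_lit 20], false, nat_lit 280, nat_lit 316, nat_lit 0, nat_lit 336, ⟨nat_lit 0, nat_lit 1000, nat_lit 0, nat_lit 6, nat_lit 146, nat_lit 1000, nat_lit 230, nat_lit 0, nat_lit 0, nat_lit 0, nat_lit 0, nat_lit 0, nat_lit 43691223, nat_lit 7664722, nat_lit 15644055, nat_lit 4645228, false, false⟩,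
 nat_lit 0, nat_lit 6162, nat_lit 0, nat_lit 7682, nat_lit 4353, nat_lit 0, nat_lit 0, nat_lit 0, nat_lit 0, nat_lit 0, nat_lit 0, nat_lit 0, nat_lit 0, nat_lit 0, nat_lit 0, nat_lit 250000, nat_lit 0, nat_lit 0, [(nat_lit 15, [(nat_lit 0, nat_lit 1000)])],
 ⟨p064_k25, nat_lit 0, nat_lit 0, nat_lit 77, nat_lit 0, nat_lit 25479, [nat_lit 2318400000, nat_lit 2341600000, nat_lit 2724800000], [], [nat_lit 21276778134, nat_lit 21568909933, nat_lit 21124064125, nat_lit 21397087985, nat_lit 23140044684, nat_lit 23405857042, nat_lit 22867705463, nat_lit 23116664731], nat_lit 1271250, nat_lit 1271250, nat_lit 356250, nat_lit 780000, nat_lit 1271250, nat_lit 1271250, [nat_lit 780000, nat_lit 1100000, nat_lit 1442500], [nat_lit 59, nat_lit 40, nat_lit 40, nat_lit 80, nat_lit 3, nat_lit 238, nat_lit 30, nat_lit 8]⟩, ⟨p064_k26, nat_lit 0, nat_lit 0, nat_lit 237, nat_lit 0, nat_lit 34438, [nat_lit 0, nat_lit 0, nat_lit 0], [], [nat_lit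 0, nat_lit 0, nat_lit 0, nat_lit 0, nat_lit 0, nat_lit 0, nat_lit 0, nat_lit 0], nat_lit 1271250, nat_lit 1271250, nat_lit 356250, nat_lit 780000, nat_lit 0, nat_lit 2373000, [nat_lit 1100000, nat_lit 1442500, nat_lit 1271250], [nat_lit 11, nat_lit 40, nat_lit 40, nat_lit 80, nat_lit 1, nat_lit 428, nat_lit 200, nat_lit 13]⟩,
 ⟨nat_lit 4743, nat_lit 4874, ⟨.ofNat (nat_lit 306669), .ofNat (nat_lit 412512), .ofNat (nat_lit 317396), .ofNat (nat_lit 423240), .ofNat (nat_lit 309769), .ofNat (nat_lit 414318), .ofNat (nat_lit 320513), .ofNat (nat_lit 425062)⟩, ⟨.ofNat (nat_lit 533843), .ofNat (nat_lit 597350), .ofNat (nat_lit 555299), .ofNat (nat_lit 618806), .ofNat (nat_lit 531957), .ofNat (nat_lit 594687), .ofNat (nat_lit 553445), .ofNat (nat_lit 616175)⟩⟩, [⟨nat_lit 0, nat_lit 100, nat_lit 88, nat_lit 81, nat_lit 119634241⟩, ⟨nat_lit 4, nat_lit 96, nat_lit 94, nat_lit 100, nat_lit 223667103⟩]⟩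
noncomputable def p064_l34 : Lf2 := ⟨nat_lit 1, nat_lit 8, [nat_lit 50, nat_lit 5, nat_lit 5, nat_lit 20], false, nat_lit 280, nat_lit 320, nat_lit 0, nat_lit 336, zbN0,
 nat_lit 0, nat_lit 0, nat_lit 0, nat_lit 0, nat_lit 0, nat_lit 0, nat_lit 0, nat_lit 0, nat_lit 0, nat_lit 0, nat_lit 0, nat_lit 0, nat_lit 0, nat_lit 0, nat_lit 0, nat_lit 0, nat_lit 0, nat_lit 0, [],
 C1.Rw.none, C1.Rw.none,
 zbF0, []⟩
noncomputable def p064_l35 : Lf2 := ⟨nat_lit 0, nat_lit 8, [nat_lit 50, nat_lit 5, nat_lit 5, nat_lit 20], false, nat_lit 280, nat_lit 312, nat_lit 0, nat_lit 160, ⟨nat_lit 1000, nat_lit 0, nat_lit 0, nat_lit 0, nat_lit 0, nat_lit 0, nat_lit 0, nat_lit 0, nat_lit 0, nat_lit 0, nat_lit 0, nat_lit 0, nat_lit 0, nat_lit 0, nat_lit 0, nat_lit 0, false, false⟩,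
 nat_lit 18364, nat_lit 0, nat_lit 0, nat_lit 10754, nat_lit 7949, nat_lit 10202, nat_lit 0, nat_lit 0, nat_lit 0, nat_lit 3197, nat_lit 0, nat_lit 0, nat_lit 0, nat_lit 0, nat_lit 0, nat_lit 0, nat_lit 0, nat_lit 0, [],
 ⟨p064_k27, nat_lit 0, nat_lit 0, nat_lit 111, nat_lit 0, nat_lit 80646, [nat_lit 3282000000, nat_lit 4688000000, nat_lit 6250000000], [], [nat_lit 24611661893, nat_lit 25448976719, nat_lit 23180719952, nat_lit 23960793504, nat_lit 26868395158, nat_lit 27705437092, nat_lit 25284888061, nat_lit 25990426042], nat_lit 1271250, nat_lit 1271250, nat_lit 382400, nat_lit 780000, nat_lit 1271250, nat_lit 1271250, [nat_lit 780000, nat_lit 1100000, nat_lit 1442500], [nat_lit 59, nat_lit 40, nat_lit 40, nat_lit 80, nat_lit 3, nat_lit 238, nat_lit 30, nat_lit 8]⟩, ⟨p064_k28, nat_lit 0, nat_lit 0, nat_lit 241, nat_lit 0, nat_lit 111970, [nat_lit 4688000000, nat_lit 6250000000, nat_lit 9842000000], [], [nat_lit 16461395886,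 nat_lit 17566621748, nat_lit 14340065158, nat_lit 15372895272, nat_lit 8641464008, nat_lit 9565115782, nat_lit 10003175350, nat_lit 7876296968], nat_lit 1271250, nat_lit 1271250, nat_lit 382400, nat_lit 780000, nat_lit 0, nat_lit 1100001, [nat_lit 1100000, nat_lit 1442500, nat_lit 1271250], [nat_lit 11, nat_lit 40, nat_lit 40, nat_lit 80, nat_lit 1, nat_lit 373, nat_lit 150, nat_lit 11]⟩,
 zbF0, [⟨nat_lit 0, nat_lit 100, nat_lit 85, nat_lit 81, nat_lit 1087455867⟩, ⟨nat_lit 4, nat_lit 99, nat_lit 92, nat_lit 100, nat_lit 656978223⟩]⟩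
noncomputable def p064_l36 : Lf2 := ⟨nat_lit 0, nat_lit 8, [nat_lit 50, nat_lit 5, nat_lit 5, nat_lit 20], false, nat_lit 280, nat_lit 312, nat_lit 160, nat_lit 240, ⟨nat_lit 1000, nat_lit 0, nat_lit 0, nat_lit 0, nat_lit 0, nat_lit 0, nat_lit 0, nat_lit 0, nat_lit 0, nat_lit 0, nat_lit 0, nat_lit 0, nat_lit 0, nat_lit 0, nat_lit 0, nat_lit 0, false, false⟩,
 nat_lit 14629, nat_lit 0, nat_lit 0, nat_lit 10915, nat_lit 5864, nat_lit 8127, nat_lit 908, nat_lit 0, nat_lit 0, nat_lit 0, nat_lit 0, nat_lit 0, nat_lit 0, nat_lit 0, nat_lit 0, nat_lit 0, nat_lit 0, nat_lit 0, [],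
 ⟨p064_k27, nat_lit 0, nat_lit 0, nat_lit 111, nat_lit 0, nat_lit 80646, [nat_lit 3282000000, nat_lit 4688000000, nat_lit 6250000000], [], [nat_lit 22677434914, nat_lit 23378923248, nat_lit 21907934408, nat_lit 22563957344, nat_lit 24597283887, nat_lit 25404305659, nat_lit 23706597896, nat_lit 24305145978], nat_lit 1271250, nat_lit 1271250, nat_lit 382400, nat_lit 780000, nat_lit 1271250, nat_lit 1271250, [nat_lit 780000, nat_lit 1100000, nat_lit 1442500], [nat_lit 59, nat_lit 40, nat_lit 40, nat_lit 80, nat_lit 3, nat_lit 238, nat_lit 30, nat_lit 8]⟩, ⟨p064_k28, nat_lit 0, nat_lit 0, nat_lit 161, nat_lit 0, nat_lit 111970, [nat_lit 4688000000, nat_lit 6250000000, nat_lit 9842000000], [], [nat_lit 8047743303, nat_lit 9154763071, nat_lit 7589234552, nat_lit 8617106460, nat_lit 13307534464, nat_lit 14395099158, nat_lit 12310717023, nat_lit 13156009818], nat_lit 1271250, nat_lit 1271250, nat_lit 382400, nat_lit 780000, nat_lit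 1100001, nat_lit 1785000, [nat_lit 1100000, nat_lit 1442500, nat_lit 1271250], [nat_lit 11, nat_lit 40, nat_lit 40, nat_lit 80, nat_lit 1, nat_lit 401, nat_lit 175, nat_lit 11]⟩,
 zbF0, [⟨nat_lit 0, nat_lit 100, nat_lit 85, nat_lit 81, nat_lit 922365570⟩, ⟨nat_lit 16, nat_lit 91, nat_lit 91, nat_lit 100, nat_lit 606358851⟩]⟩
noncomputable def p064_l37 : Lf2 := ⟨nat_lit 0, nat_lit 8, [nat_lit 50, nat_lit 5, nat_lit 5, nat_lit 20], false, nat_lit 280, nat_lit 312, nat_lit 240, nat_lit 336, ⟨nat_lit 419, nat_lit 0, nat_lit 581, nat_lit 6, nat_lit 149, nat_lit 581, nat_lit 227, nat_lit 581, nat_lit 1989, nat_lit 209, nat_lit 209067, nat_lit 327, nat_lit 43743705, nat_lit 0, nat_lit 0, nat_lit 4656352, false, false⟩,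
 nat_lit 7669, nat_lit 0, nat_lit 0, nat_lit 0, nat_lit 4664, nat_lit 4260, nat_lit 0, nat_lit 0, nat_lit 0, nat_lit 537, nat_lit 0, nat_lit 0, nat_lit 0, nat_lit 0, nat_lit 0, nat_lit 215300, nat_lit 0, nat_lit 0, [(nat_lit 15, [(nat_lit 4, nat_lit 114), (nat_lit 5, nat_lit 467)])],
 ⟨p064_k23, nat_lit 0, nat_lit 0, nat_lit 109, nat_lit 0, nat_lit 80646, [nat_lit 2257758000, nat_lit 2104407200], [], [nat_lit 21781917234, nat_lit 22405232048, nat_lit 21452403208, nat_lit 21978034208, nat_lit 23507875967, nat_lit 24079913467, nat_lit 23015935936, nat_lit 23552907098], nat_lit 1271250, nat_lit 1271250, nat_lit 382400, nat_lit 780000, nat_lit 1271250, nat_lit 1271250, [nat_lit 780000, nat_lit 1435000], [nat_lit 49, nat_lit 40, nat_lit 40, nat_lit 80, nat_lit 16, nat_lit 238, nat_lit 30, nat_lit 8]⟩, ⟨p064_k29, nat_lit 0, nat_lit 0, nat_lit 171, nat_lit 0, nat_lit 111970, [nat_lit 1964272000, nat_lit 3338592000, nat_lit 4123798000],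 [], [nat_lit 7688349576, nat_lit 8002326402, nat_lit 6896476319, nat_lit 7187418966, nat_lit 11130406842, nat_lit 11381664018, nat_lit 10169619137, nat_lit 10399737204], nat_lit 1271250, nat_lit 1271250, nat_lit 382400, nat_lit 780000, nat_lit 1271250, nat_lit 1271250, [nat_lit 1100000, nat_lit 1785000, nat_lit 1271250], [nat_lit 29, nat_lit 40, nat_lit 40, nat_lit 80, nat_lit 17, nat_lit 428, nat_lit 200, nat_lit 12]⟩,
 ⟨nat_lit 4472, nat_lit 4744, ⟨.ofNat (nat_lit 316734), .ofNat (nat_lit 414313), .ofNat (nat_lit 327477), .ofNat (nat_lit 425056), .ofNat (nat_lit 322783), .ofNat (nat_lit 417952), .ofNat (nat_lit 333565), .ofNat (nat_lit 428734)⟩, ⟨.ofNat (nat_lit 531957), .ofNat (nat_lit 587717), .ofNat (nat_lit 553445), .ofNat (nat_lit 609205), .ofNat (nat_lit 528122), .ofNat (nat_lit 582505), .ofNat (nat_lit 549689), .ofNat (nat_lit 604071)⟩⟩, [⟨nat_lit 0, nat_lit 100, nat_lit 84, nat_lit 85, nat_lit 126700453⟩, ⟨nat_lit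 4, nat_lit 99, nat_lit 92, nat_lit 100, nat_lit 109211264⟩, ⟨nat_lit 11, nat_lit 100, nat_lit 98, nat_lit 91, nat_lit 313690957⟩]⟩
noncomputable def p064_l38 : Lf2 := ⟨nat_lit 0, nat_lit 10, [nat_lit 0, nat_lit 5, nat_lit 5, nat_lit 20], true, nat_lit 280, nat_lit 320, nat_lit 0, nat_lit 336, ⟨nat_lit 0, nat_lit 234, nat_lit 766, nat_lit 6, nat_lit 141, nat_lit 1000, nat_lit 231, nat_lit 766, nat_lit 4748, nat_lit 203, nat_lit 183750, nat_lit 320, nat_lit 43973256, nat_lit 7221994, nat_lit 15804750, nat_lit 4590728, false, false⟩,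
 nat_lit 0, nat_lit 5328, nat_lit 0, nat_lit 14582, nat_lit 3688, nat_lit 0, nat_lit 0, nat_lit 0, nat_lit 0, nat_lit 0, nat_lit 0, nat_lit 0, nat_lit 0, nat_lit 0, nat_lit 42, nat_lit 364900, nat_lit 0, nat_lit 0, [(nat_lit 15, [(nat_lit 0, nat_lit 234), (nat_lit 5, nat_lit 766)])],
 ⟨p064_k21, nat_lit 0, nat_lit 0, nat_lit 130, nat_lit 0, nat_lit 26433, [nat_lit 2053948800, nat_lit 739485600, nat_lit 93412000], [], [nat_lit 20143764602, nat_lit 21392928017, nat_lit 19987711544, nat_lit 20871920896, nat_lit 22505576874, nat_lit 23766463316, nat_lit 21914292176, nat_lit 23093396416], nat_lit 1271250, nat_lit 1271250, nat_lit 279600, nat_lit 780000, nat_lit 1271250, nat_lit 1271250, [nat_lit 780000, nat_lit 1435000, nat_lit 1271250], [nat_lit 18, nat_lit 40, nat_lit 40, nat_lit 80, nat_lit 2, nat_lit 238, nat_lit 30, nat_lit 7]⟩, C1.Rw.none,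
 ⟨nat_lit 4472, nat_lit 5000, ⟨.ofNat (nat_lit 271418), .ofNat (nat_lit 399984), .ofNat (nat_lit 292837), .ofNat (nat_lit 421400), .ofNat (nat_lit 284805), .ofNat (nat_lit 407160), .ofNat (nat_lit 306362), .ofNat (nat_lit 428715)⟩, ⟨.ofNat (nat_lit 535713), .ofNat (nat_lit 607141), .ofNat (nat_lit 557141), .ofNat (nat_lit 628570), .ofNat (nat_lit 528122), .ofNat (nat_lit 596101), .ofNat (nat_lit 549689), .ofNat (nat_lit 617667)⟩⟩, [⟨nat_lit 0, nat_lit 100, nat_lit 84, nat_lit 85, nat_lit 147682306⟩, ⟨nat_lit 4, nat_lit 97, nat_lit 94, nat_lit 100, nat_lit 335981255⟩]⟩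
noncomputable def b_V_700_600_20_41 : St := ⟨true, nat_lit 1, nat_lit 1, nat_lit 1, nat_lit 120, nat_lit 300, nat_lit 320, nat_lit 240, nat_lit 260, nat_lit 48, nat_lit 120, nat_lit 80, nat_lit 120, nat_lit 240, nat_lit 320, nat_lit 0, nat_lit 364, nat_lit 20, nat_lit 40, nat_lit 0, nat_lit 0, nat_lit 0, nat_lit 0⟩
theorem d_V_700_600_20_41 (h : EB TB.env) : Dead b_V_700_600_20_41 := chkB_sound0 h (T :=
(.spl (nat_lit 4) (nat_lit 280)
(.leaf p064_l27)
(.trX (nat_lit 23) (nat_lit 100) (nat_lit 80) (nat_lit 100) (nat_lit 336) (.spl (nat_lit 3) (nat_lit 100)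
(.trX (nat_lit 16) (nat_lit 100) (nat_lit 100) (nat_lit 100) (nat_lit 300) (.spl (nat_lit 2) (nat_lit 80)
(.trX (nat_lit 23) (nat_lit 100) (nat_lit 95) (nat_lit 87) (nat_lit 300) (.leaf p064_l28))
(.leaf p064_l29)))
(.spl (nat_lit 6) (nat_lit 32)
(.spl (nat_lit 1) (nat_lit 250)
(.spl (nat_lit 0) (nat_lit 310)
(.leaf p064_l30)
(.trZ (nat_lit 0) (nat_lit 100) (nat_lit 85) (nat_lit 72) (nat_lit 56) (.trX (nat_lit 16) (nat_lit 91) (nat_lit 91) (nat_lit 100) (nat_lit 312) (.leaf p064_l31))))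
(.trZ (nat_lit 0) (nat_lit 100) (nat_lit 89) (nat_lit 72) (nat_lit 56) (.spl (nat_lit 0) (nat_lit 310)
(.spl (nat_lit 6) (nat_lit 24)
(.spl (nat_lit 0) (nat_lit 305)
(.leaf p064_l32)
(.trZ (nat_lit 0) (nat_lit 100) (nat_lit 88) (nat_lit 74) (nat_lit 60) (.trX (nat_lit 16) (nat_lit 93) (nat_lit 90) (nat_lit 100) (nat_lit 316) (.leaf p064_l33))))
(.leaf p064_l34))
(.trZ (nat_lit 0) (nat_lit 100) (nat_lit 86) (nat_lit 77) (nat_lit 64) (.trX (nat_lit 16) (nat_lit 91) (nat_lit 91) (nat_lit 100) (nat_lit 312) (.spl (nat_lit 5) (nat_lit 160)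
(.leaf p064_l35)
(.spl (nat_lit 5) (nat_lit 240)
(.leaf p064_l36)
(.leaf p064_l37))))))))
(.leaf p064_l38)))))) (by decide +kernel)
noncomputable def p064_l39 : Lf2 := ⟨nat_lit 0, nat_lit 5, [nat_lit 4, nat_lit 5, nat_lit 5, nat_lit 20], false, nat_lit 240, nat_lit 320, nat_lit 0, nat_lit 160, ⟨nat_lit 428, nat_lit 572, nat_lit 0, nat_lit 6, nat_lit 155, nat_lit 572, nat_lit 213, nat_lit 0, nat_lit 0, nat_lit 0, nat_lit 0, nat_lit 0, nat_lit 44606312, nat_lit 8445445, nat_lit 13948243, nat_lit 4609312, false, false⟩,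
 nat_lit 8971, nat_lit 0, nat_lit 0, nat_lit 0, nat_lit 4630, nat_lit 5221, nat_lit 1113, nat_lit 0, nat_lit 0, nat_lit 492, nat_lit 0, nat_lit 0, nat_lit 0, nat_lit 0, nat_lit 0, nat_lit 228800, nat_lit 0, nat_lit 0, [(nat_lit 15, [(nat_lit 1, nat_lit 572)])],
 ⟨p064_k5, nat_lit 0, nat_lit 0, nat_lit 0, nat_lit 0, nat_lit 401809, [nat_lit 2560250401, nat_lit 3274016000, nat_lit 4005700800], [], [nat_lit 19821019498, nat_lit 20928976993, nat_lit 19803100241, nat_lit 20839785041, nat_lit 23451374733, nat_lit 24562328697, nat_lit 23208643902, nat_lit 24135040083], nat_lit 1271250, nat_lit 1271250, nat_lit 382400, nat_lit 780000, nat_lit 1271250, nat_lit 1271250, [nat_lit 780000, nat_lit 1100000, nat_lit 1442500], [nat_lit 59, nat_lit 40, nat_lit 40, nat_lit 80]⟩, ⟨p064_k30, nat_lit 0, nat_lit 0, nat_lit 396, nat_lit 0, nat_lit 498708, [nat_lit 2006464000, nat_lit 2675000000, nat_lit 3410304000], [], [nat_lit 11056706989, nat_lit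 10102536376, nat_lit 7363381982, nat_lit 8516410864, nat_lit 9045920612, nat_lit 6572217077, nat_lit 11161000114, nat_lit 8733746772], nat_lit 1271250, nat_lit 1271250, nat_lit 382400, nat_lit 780000, nat_lit 0, nat_lit 1100001, [nat_lit 1100000, nat_lit 1442500, nat_lit 1271250], [nat_lit 9, nat_lit 40, nat_lit 40, nat_lit 80, nat_lit 2, nat_lit 289, nat_lit 75, nat_lit 10]⟩,
 ⟨nat_lit 4472, nat_lit 5000, ⟨.ofNat (nat_lit 321407), .ofNat (nat_lit 421400), .ofNat (nat_lit 342823), .ofNat (nat_lit 442816), .ofNat (nat_lit 333552), .ofNat (nat_lit 428715), .ofNat (nat_lit 355106), .ofNat (nat_lit 450269)⟩, ⟨.ofNat (nat_lit 442856), .ofNat (nat_lit 585713), .ofNat (nat_lit 485713), .ofNat (nat_lit 628570), .ofNat (nat_lit 438578), .ofNat (nat_lit 574534), .ofNat (nat_lit 481711), .ofNat (nat_lit 617667)⟩⟩, [⟨nat_lit 0, nat_lit 100, nat_lit 89, nat_lit 86, nat_lit 178712695⟩, ⟨nat_lit 16, nat_lit 94, nat_lit 88, nat_lit 100,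 nat_lit 312618252⟩]⟩
noncomputable def p064_l40 : Lf2 := ⟨nat_lit 0, nat_lit 5, [nat_lit 4, nat_lit 5, nat_lit 5, nat_lit 20], false, nat_lit 240, nat_lit 320, nat_lit 160, nat_lit 240, ⟨nat_lit 1000, nat_lit 0, nat_lit 0, nat_lit 0, nat_lit 0, nat_lit 0, nat_lit 0, nat_lit 0, nat_lit 0, nat_lit 0, nat_lit 0, nat_lit 0, nat_lit 0, nat_lit 0, nat_lit 0, nat_lit 0, false, false⟩,
 nat_lit 17379, nat_lit 0, nat_lit 0, nat_lit 0, nat_lit 5384, nat_lit 10116, nat_lit 1984, nat_lit 0, nat_lit 0, nat_lit 1182, nat_lit 0, nat_lit 0, nat_lit 0, nat_lit 0, nat_lit 0, nat_lit 0, nat_lit 0, nat_lit 0, [],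
 ⟨p064_k5, nat_lit 0, nat_lit 0, nat_lit 0, nat_lit 0, nat_lit 401809, [nat_lit 3282000000, nat_lit 4688000000, nat_lit 6250000000], [], [nat_lit 19870376253, nat_lit 21076938183, nat_lit 19673856112, nat_lit 20840270400, nat_lit 24066571792, nat_lit 25434947373, nat_lit 23673610864, nat_lit 24702092384], nat_lit 1271250, nat_lit 1271250, nat_lit 382400, nat_lit 780000, nat_lit 1271250, nat_lit 1271250, [nat_lit 780000, nat_lit 1100000, nat_lit 1442500], [nat_lit 59, nat_lit 40, nat_lit 40, nat_lit 80]⟩, ⟨p064_k30, nat_lit 0, nat_lit 0, nat_lit 276, nat_lit 0, nat_lit 498708, [nat_lit 4688000000, nat_lit 6250000000, nat_lit 7968000000], [], [nat_lit 22550588991, nat_lit 17329256055, nat_lit 12056588394, nat_lit 13497100250, nat_lit 16662461801, nat_lit 18372550682, nat_lit 18574294290, nat_lit 16552503840], nat_lit 1271250, nat_lit 1271250, nat_lit 382400, nat_lit 780000, nat_lit 1100001, nat_lit 1785000, [nat_lit 1100000,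 nat_lit 1442500, nat_lit 1271250], [nat_lit 9, nat_lit 40, nat_lit 40, nat_lit 80, nat_lit 2, nat_lit 317, nat_lit 100, nat_lit 10]⟩,
 zbF0, [⟨nat_lit 0, nat_lit 100, nat_lit 89, nat_lit 86, nat_lit 799077731⟩, ⟨nat_lit 4, nat_lit 100, nat_lit 93, nat_lit 97, nat_lit 547617302⟩]⟩
noncomputable def p064_l41 : Lf2 := ⟨nat_lit 0, nat_lit 5, [nat_lit 4, nat_lit 5, nat_lit 5, nat_lit 20], false, nat_lit 240, nat_lit 320, nat_lit 240, nat_lit 320, ⟨nat_lit 525, nat_lit 0, nat_lit 475, nat_lit 6, nat_lit 139, nat_lit 475, nat_lit 213, nat_lit 475, nat_lit 4748, nat_lit 203, nat_lit 180267, nat_lit 319, nat_lit 45671921, nat_lit 0, nat_lit 0, nat_lit 4440298, false, false⟩,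
 nat_lit 7684, nat_lit 0, nat_lit 0, nat_lit 0, nat_lit 5319, nat_lit 4472, nat_lit 160, nat_lit 0, nat_lit 0, nat_lit 1005, nat_lit 0, nat_lit 0, nat_lit 0, nat_lit 0, nat_lit 0, nat_lit 475000, nat_lit 0, nat_lit 0, [(nat_lit 15, [(nat_lit 6, nat_lit 475)])],
 ⟨p064_k5, nat_lit 0, nat_lit 0, nat_lit 0, nat_lit 0, nat_lit 365125, [nat_lit 2188550000, nat_lit 2232250000, nat_lit 2066960000], [], [nat_lit 18041210249, nat_lit 19790614088, nat_lit 17769911548, nat_lit 19311292956, nat_lit 23868256035, nat_lit 25359721625, nat_lit 23341018512, nat_lit 24813547652], nat_lit 1271250, nat_lit 1271250, nat_lit 382400, nat_lit 490000, nat_lit 1271250, nat_lit 1271250, [nat_lit 780000, nat_lit 1100000, nat_lit 1442500], [nat_lit 59, nat_lit 40, nat_lit 40, nat_lit 80]⟩, ⟨p064_k30, nat_lit 0, nat_lit 0, nat_lit 276, nat_lit 0, nat_lit 453178, [nat_lit 2461200000, nat_lit 3281250000, nat_lit 4183200000], [], [nat_lit 8878497125, nat_lit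 9151516553, nat_lit 8598887719, nat_lit 8842171081, nat_lit 12309276933, nat_lit 12747614433, nat_lit 11801882332, nat_lit 12234953684], nat_lit 1271250, nat_lit 1271250, nat_lit 382400, nat_lit 490000, nat_lit 1271250, nat_lit 1271250, [nat_lit 1100000, nat_lit 1442500, nat_lit 1271250], [nat_lit 9, nat_lit 40, nat_lit 40, nat_lit 80, nat_lit 2, nat_lit 226, nat_lit 20, nat_lit 7]⟩,
 ⟨nat_lit 4472, nat_lit 5000, ⟨.ofNat (nat_lit 321407), .ofNat (nat_lit 349976), .ofNat (nat_lit 332115), .ofNat (nat_lit 360684), .ofNat (nat_lit 333552), .ofNat (nat_lit 360741), .ofNat (nat_lit 344329), .ofNat (nat_lit 371518)⟩, ⟨.ofNat (nat_lit 442856), .ofNat (nat_lit 585713), .ofNat (nat_lit 485713), .ofNat (nat_lit 628570), .ofNat (nat_lit 438578), .ofNat (nat_lit 574534), .ofNat (nat_lit 481711), .ofNat (nat_lit 617667)⟩⟩, [⟨nat_lit 0, nat_lit 100, nat_lit 88, nat_lit 84, nat_lit 339918104⟩, ⟨nat_lit 4, nat_lit 100, nat_lit 93, nat_lit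 97, nat_lit 160414658⟩, ⟨nat_lit 11, nat_lit 100, nat_lit 100, nat_lit 85, nat_lit 402183518⟩]⟩
noncomputable def p064_l42 : Lf2 := ⟨nat_lit 0, nat_lit 5, [nat_lit 4, nat_lit 5, nat_lit 5, nat_lit 20], false, nat_lit 240, nat_lit 320, nat_lit 240, nat_lit 320, ⟨nat_lit 614, nat_lit 342, nat_lit 44, nat_lit 6, nat_lit 157, nat_lit 386, nat_lit 214, nat_lit 44, nat_lit 4748, nat_lit 203, nat_lit 232067, nat_lit 333, nat_lit 44373510, nat_lit 8637124, nat_lit 13989366, nat_lit 4640102, false, false⟩,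
 nat_lit 8261, nat_lit 0, nat_lit 0, nat_lit 0, nat_lit 5429, nat_lit 4808, nat_lit 437, nat_lit 0, nat_lit 0, nat_lit 1108, nat_lit 0, nat_lit 0, nat_lit 0, nat_lit 0, nat_lit 0, nat_lit 386000, nat_lit 0, nat_lit 0, [(nat_lit 15, [(nat_lit 2, nat_lit 342), (nat_lit 6, nat_lit 44)])],
 ⟨p064_k5, nat_lit 0, nat_lit 0, nat_lit 0, nat_lit 0, nat_lit 309439, [nat_lit 2735920481, nat_lit 3440539201, nat_lit 3976730400], [], [nat_lit 18896705858, nat_lit 19553181349, nat_lit 18864077220, nat_lit 19486930168, nat_lit 23520838263, nat_lit 24179459662, nat_lit 23195795775, nat_lit 23758433623], nat_lit 1271250, nat_lit 1271250, nat_lit 490000, nat_lit 780000, nat_lit 1271250, nat_lit 1271250, [nat_lit 780000, nat_lit 1100000, nat_lit 1442500], [nat_lit 59, nat_lit 40, nat_lit 40, nat_lit 80]⟩, ⟨p064_k30, nat_lit 0, nat_lit 0, nat_lit 218, nat_lit 0, nat_lit 384063, [nat_lit 2878432000, nat_lit 3837500000, nat_lit 4892352000], [],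 [nat_lit 11431829980, nat_lit 11704570244, nat_lit 11142655032, nat_lit 11399065014, nat_lit 13794590212, nat_lit 14035216184, nat_lit 13416624680, nat_lit 13635524528], nat_lit 1271250, nat_lit 1271250, nat_lit 490000, nat_lit 780000, nat_lit 1271250, nat_lit 1271250, [nat_lit 1100000, nat_lit 1442500, nat_lit 1271250], [nat_lit 9, nat_lit 40, nat_lit 40, nat_lit 80, nat_lit 2, nat_lit 238, nat_lit 30, nat_lit 7]⟩,
 ⟨nat_lit 4743, nat_lit 5000, ⟨.ofNat (nat_lit 349996), .ofNat (nat_lit 421423), .ofNat (nat_lit 360709), .ofNat (nat_lit 432135), .ofNat (nat_lit 355361), .ofNat (nat_lit 425060), .ofNat (nat_lit 366104), .ofNat (nat_lit 435802)⟩, ⟨.ofNat (nat_lit 442856), .ofNat (nat_lit 585713), .ofNat (nat_lit 485713), .ofNat (nat_lit 628570), .ofNat (nat_lit 440769), .ofNat (nat_lit 580169), .ofNat (nat_lit 483746), .ofNat (nat_lit 623145)⟩⟩, [⟨nat_lit 0, nat_lit 100, nat_lit 89, nat_lit 86, nat_lit 168323413⟩, ⟨nat_lit 16,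 nat_lit 97, nat_lit 100, nat_lit 98, nat_lit 135566098⟩, ⟨nat_lit 11, nat_lit 100, nat_lit 100, nat_lit 100, nat_lit 295145765⟩]⟩
noncomputable def p064_l43 : Lf2 := ⟨nat_lit 0, nat_lit 5, [nat_lit 4, nat_lit 5, nat_lit 5, nat_lit 20], false, nat_lit 240, nat_lit 312, nat_lit 240, nat_lit 320, ⟨nat_lit 477, nat_lit 89, nat_lit 434, nat_lit 6, nat_lit 159, nat_lit 523, nat_lit 209, nat_lit 434, nat_lit 1989, nat_lit 209, nat_lit 236017, nat_lit 334, nat_lit 44602455, nat_lit 8816550, nat_lit 13580995, nat_lit 4626067, false, false⟩,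
 nat_lit 6415, nat_lit 0, nat_lit 0, nat_lit 0, nat_lit 4624, nat_lit 3733, nat_lit 360, nat_lit 0, nat_lit 0, nat_lit 861, nat_lit 0, nat_lit 0, nat_lit 0, nat_lit 0, nat_lit 0, nat_lit 209200, nat_lit 0, nat_lit 0, [(nat_lit 15, [(nat_lit 1, nat_lit 89), (nat_lit 5, nat_lit 434)])],
 ⟨p064_k20, nat_lit 0, nat_lit 0, nat_lit 0, nat_lit 0, nat_lit 347462, [nat_lit 2316108600, nat_lit 2445031200, nat_lit 2770097200], [], [nat_lit 20043329312, nat_lit 20551615016, nat_lit 20096993088, nat_lit 20580634504, nat_lit 23039273845, nat_lit 23603009911, nat_lit 22975771364, nat_lit 23408850173], nat_lit 1271250, nat_lit 1271250, nat_lit 490000, nat_lit 780000, nat_lit 1271250, nat_lit 1271250, [nat_lit 780000, nat_lit 1100000, nat_lit 1442500], [nat_lit 59, nat_lit 40, nat_lit 40, nat_lit 80]⟩, ⟨p064_k30, nat_lit 0, nat_lit 0, nat_lit 265, nat_lit 0, nat_lit 453178, [nat_lit 2236176000, nat_lit 2981250000, nat_lit 3800736000], [],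 [nat_lit 8886402443, nat_lit 9098232591, nat_lit 8662092559, nat_lit 8861242069, nat_lit 10721863334, nat_lit 10902791964, nat_lit 10428607696, nat_lit 10598631147], nat_lit 1271250, nat_lit 1271250, nat_lit 490000, nat_lit 780000, nat_lit 1271250, nat_lit 1271250, [nat_lit 1100000, nat_lit 1442500, nat_lit 1271250], [nat_lit 9, nat_lit 40, nat_lit 40, nat_lit 80, nat_lit 2, nat_lit 238, nat_lit 30, nat_lit 7]⟩,
 ⟨nat_lit 4472, nat_lit 4744, ⟨.ofNat (nat_lit 355356), .ofNat (nat_lit 425056), .ofNat (nat_lit 366099), .ofNat (nat_lit 435798), .ofNat (nat_lit 360756), .ofNat (nat_lit 428734), .ofNat (nat_lit 371538), .ofNat (nat_lit 439515)⟩, ⟨.ofNat (nat_lit 440769), .ofNat (nat_lit 566229), .ofNat (nat_lit 483746), .ofNat (nat_lit 609205), .ofNat (nat_lit 438578), .ofNat (nat_lit 560938), .ofNat (nat_lit 481711), .ofNat (nat_lit 604071)⟩⟩, [⟨nat_lit 0, nat_lit 100, nat_lit 85, nat_lit 90, nat_lit 190542404⟩, ⟨nat_lit 4, nat_lit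 100, nat_lit 90, nat_lit 95, nat_lit 114031166⟩, ⟨nat_lit 11, nat_lit 100, nat_lit 100, nat_lit 100, nat_lit 224972714⟩]⟩
noncomputable def p064_l44 : Lf2 := ⟨nat_lit 0, nat_lit 5, [nat_lit 4, nat_lit 5, nat_lit 5, nat_lit 20], false, nat_lit 240, nat_lit 320, nat_lit 240, nat_lit 320, ⟨nat_lit 914, nat_lit 0, nat_lit 86, nat_lit 6, nat_lit 159, nat_lit 86, nat_lit 214, nat_lit 86, nat_lit 4748, nat_lit 203, nat_lit 236017, nat_lit 334, nat_lit 44274931, nat_lit 0, nat_lit 0, nat_lit 4654527, false, false⟩,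
 nat_lit 10974, nat_lit 0, nat_lit 0, nat_lit 0, nat_lit 6588, nat_lit 6683, nat_lit 929, nat_lit 0, nat_lit 0, nat_lit 1531, nat_lit 0, nat_lit 0, nat_lit 0, nat_lit 0, nat_lit 0, nat_lit 86000, nat_lit 0, nat_lit 0, [(nat_lit 15, [(nat_lit 6, nat_lit 86)])],
 ⟨p064_k5, nat_lit 0, nat_lit 0, nat_lit 0, nat_lit 0, nat_lit 348256, [nat_lit 3084028001, nat_lit 4243380000, nat_lit 5492649600], [], [nat_lit 18427069226, nat_lit 19211117149, nat_lit 17978331187, nat_lit 18625880043, nat_lit 24785851407, nat_lit 25621575102, nat_lit 23714037976, nat_lit 24504748596], nat_lit 1271250, nat_lit 1271250, nat_lit 435600, nat_lit 780000, nat_lit 1271250, nat_lit 1271250, [nat_lit 780000, nat_lit 1100000, nat_lit 1442500], [nat_lit 59, nat_lit 40, nat_lit 40, nat_lit 80]⟩, ⟨p064_k31, nat_lit 0, nat_lit 0, nat_lit 255, nat_lit 0, nat_lit 408308, [nat_lit 4284832000, nat_lit 5712500000, nat_lit 7282752000], [], [nat_lit 18031191785, nat_lit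 18429152770, nat_lit 17456213639, nat_lit 17827482296, nat_lit 21316990977, nat_lit 21653165113, nat_lit 20578839001, nat_lit 20893009588], nat_lit 1271250, nat_lit 1271250, nat_lit 435600, nat_lit 780000, nat_lit 1271250, nat_lit 1271250, [nat_lit 1100000, nat_lit 1442500, nat_lit 1271250], [nat_lit 9, nat_lit 40, nat_lit 40, nat_lit 80, nat_lit 2, nat_lit 238, nat_lit 30, nat_lit 7]⟩,
 ⟨nat_lit 4743, nat_lit 5000, ⟨.ofNat (nat_lit 346424), .ofNat (nat_lit 432135), .ofNat (nat_lit 357137), .ofNat (nat_lit 442849), .ofNat (nat_lit 352164), .ofNat (nat_lit 435802), .ofNat (nat_lit 362907), .ofNat (nat_lit 446544)⟩, ⟨.ofNat (nat_lit 442856), .ofNat (nat_lit 585713), .ofNat (nat_lit 485713), .ofNat (nat_lit 628570), .ofNat (nat_lit 440769), .ofNat (nat_lit 580169), .ofNat (nat_lit 483746), .ofNat (nat_lit 623145)⟩⟩, [⟨nat_lit 0, nat_lit 100, nat_lit 91, nat_lit 91, nat_lit 284608725⟩, ⟨nat_lit 4, nat_lit 100, nat_lit 97, nat_lit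 98, nat_lit 222399614⟩, ⟨nat_lit 11, nat_lit 100, nat_lit 100, nat_lit 98, nat_lit 423071404⟩]⟩
noncomputable def p064_l45 : Lf2 := ⟨nat_lit 0, nat_lit 5, [nat_lit 4, nat_lit 5, nat_lit 5, nat_lit 20], false, nat_lit 240, nat_lit 312, nat_lit 240, nat_lit 320, ⟨nat_lit 637, nat_lit 186, nat_lit 177, nat_lit 6, nat_lit 163, nat_lit 363, nat_lit 209, nat_lit 177, nat_lit 1989, nat_lit 209, nat_lit 252150, nat_lit 338, nat_lit 44308136, nat_lit 9159458, nat_lit 13532406, nat_lit 4667852, false, false⟩,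
 nat_lit 7810, nat_lit 0, nat_lit 0, nat_lit 0, nat_lit 5630, nat_lit 4756, nat_lit 410, nat_lit 0, nat_lit 0, nat_lit 1173, nat_lit 0, nat_lit 0, nat_lit 0, nat_lit 0, nat_lit 0, nat_lit 145200, nat_lit 0, nat_lit 0, [(nat_lit 15, [(nat_lit 1, nat_lit 186), (nat_lit 5, nat_lit 177)])],
 ⟨p064_k32, nat_lit 0, nat_lit 0, nat_lit 0, nat_lit 0, nat_lit 382371, [nat_lit 2699181600, nat_lit 4243403200], [], [nat_lit 19685963220, nat_lit 20387115430, nat_lit 19618419070, nat_lit 20181707070, nat_lit 23810840330, nat_lit 24558800049, nat_lit 23438423359, nat_lit 24027194885], nat_lit 1271250, nat_lit 1271250, nat_lit 490000, nat_lit 780000, nat_lit 1271250, nat_lit 1271250, [nat_lit 780000, nat_lit 1435000], [nat_lit 49, nat_lit 40, nat_lit 40, nat_lit 80]⟩, ⟨p064_k33, nat_lit 0, nat_lit 0, nat_lit 269, nat_lit 0, nat_lit 471096, [nat_lit 2986256000, nat_lit 5075616000], [], [nat_lit 12122392789, nat_lit 12425000352, nat_lit 11879902103,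 nat_lit 12164841000, nat_lit 14534950326, nat_lit 14896970236, nat_lit 14156070665, nat_lit 14376121400], nat_lit 1271250, nat_lit 1271250, nat_lit 490000, nat_lit 780000, nat_lit 1271250, nat_lit 1271250, [nat_lit 1100000, nat_lit 1785000], [nat_lit 39, nat_lit 40, nat_lit 40, nat_lit 80, nat_lit 7, nat_lit 238, nat_lit 30, nat_lit 7]⟩,
 ⟨nat_lit 4472, nat_lit 4744, ⟨.ofNat (nat_lit 366099), .ofNat (nat_lit 435798), .ofNat (nat_lit 376841), .ofNat (nat_lit 446540), .ofNat (nat_lit 371538), .ofNat (nat_lit 439515), .ofNat (nat_lit 382319), .ofNat (nat_lit 450297)⟩, ⟨.ofNat (nat_lit 440769), .ofNat (nat_lit 566229), .ofNat (nat_lit 483746), .ofNat (nat_lit 609205), .ofNat (nat_lit 438578), .ofNat (nat_lit 560938), .ofNat (nat_lit 481711), .ofNat (nat_lit 604071)⟩⟩, [⟨nat_lit 0, nat_lit 100, nat_lit 87, nat_lit 95, nat_lit 285300613⟩, ⟨nat_lit 4, nat_lit 100, nat_lit 90, nat_lit 95, nat_lit 169507168⟩, ⟨nat_lit 23, nat_lit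 100, nat_lit 86, nat_lit 94, nat_lit 131620242⟩, ⟨nat_lit 11, nat_lit 100, nat_lit 100, nat_lit 100, nat_lit 169828383⟩]⟩
noncomputable def p064_l46 : Lf2 := ⟨nat_lit 0, nat_lit 5, [nat_lit 4, nat_lit 5, nat_lit 5, nat_lit 20], false, nat_lit 240, nat_lit 300, nat_lit 320, nat_lit 352, ⟨nat_lit 586, nat_lit 0, nat_lit 414, nat_lit 6, nat_lit 154, nat_lit 414, nat_lit 206, nat_lit 414, nat_lit 3391, nat_lit 215, nat_lit 220417, nat_lit 330, nat_lit 45195541, nat_lit 0, nat_lit 0, nat_lit 4551277, false, false⟩,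
 nat_lit 7839, nat_lit 0, nat_lit 0, nat_lit 0, nat_lit 5427, nat_lit 4563, nat_lit 376, nat_lit 0, nat_lit 0, nat_lit 990, nat_lit 0, nat_lit 0, nat_lit 0, nat_lit 0, nat_lit 0, nat_lit 414000, nat_lit 0, nat_lit 0, [(nat_lit 15, [(nat_lit 6, nat_lit 414)])],
 ⟨p064_k5, nat_lit 0, nat_lit 0, nat_lit 0, nat_lit 0, nat_lit 348256, [nat_lit 2328972000, nat_lit 2547620000, nat_lit 2604150400], [], [nat_lit 17958968726, nat_lit 18901389115, nat_lit 17683661206, nat_lit 18209837306, nat_lit 22469023990, nat_lit 23273485632, nat_lit 21573566654, nat_lit 22330232009], nat_lit 1271250, nat_lit 1271250, nat_lit 382400, nat_lit 780000, nat_lit 1271250, nat_lit 1271250, [nat_lit 780000, nat_lit 1100000, nat_lit 1442500], [nat_lit 59, nat_lit 40, nat_lit 40, nat_lit 80]⟩, ⟨p064_k30, nat_lit 0, nat_lit 0, nat_lit 281, nat_lit 0, nat_lit 432241, [nat_lit 2747168000, nat_lit 3662500000, nat_lit 4669248000], [], [nat_lit 13711731148, nat_lit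 14351030811, nat_lit 12986198354, nat_lit 13409639280, nat_lit 15836290413, nat_lit 16637621554, nat_lit 14693108992, nat_lit 15449379972], nat_lit 1271250, nat_lit 1271250, nat_lit 382400, nat_lit 780000, nat_lit 1271250, nat_lit 1271250, [nat_lit 1100000, nat_lit 1442500, nat_lit 1271250], [nat_lit 9, nat_lit 40, nat_lit 40, nat_lit 80, nat_lit 2, nat_lit 238, nat_lit 30, nat_lit 7]⟩,
 ⟨nat_lit 4743, nat_lit 5000, ⟨.ofNat (nat_lit 321425), .ofNat (nat_lit 421423), .ofNat (nat_lit 342851), .ofNat (nat_lit 442849), .ofNat (nat_lit 327482), .ofNat (nat_lit 425060), .ofNat (nat_lit 348968), .ofNat (nat_lit 446544)⟩, ⟨.ofNat (nat_lit 442856), .ofNat (nat_lit 549998), .ofNat (nat_lit 485713), .ofNat (nat_lit 592856), .ofNat (nat_lit 440769), .ofNat (nat_lit 545319), .ofNat (nat_lit 483746), .ofNat (nat_lit 588295)⟩⟩, [⟨nat_lit 19, nat_lit 100, nat_lit 82, nat_lit 92, nat_lit 173463363⟩, ⟨nat_lit 23, nat_lit 100, nat_lit 85, nat_lit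 90, nat_lit 646808779⟩]⟩
noncomputable def p064_l47 : Lf2 := ⟨nat_lit 0, nat_lit 5, [nat_lit 4, nat_lit 5, nat_lit 5, nat_lit 20], false, nat_lit 240, nat_lit 300, nat_lit 320, nat_lit 352, ⟨nat_lit 434, nat_lit 0, nat_lit 566, nat_lit 6, nat_lit 159, nat_lit 566, nat_lit 205, nat_lit 566, nat_lit 17, nat_lit 216, nat_lit 236017, nat_lit 334, nat_lit 44982977, nat_lit 0, nat_lit 0, nat_lit 4588175, false, false⟩,
 nat_lit 5823, nat_lit 0, nat_lit 0, nat_lit 0, nat_lit 4197, nat_lit 3389, nat_lit 300, nat_lit 0, nat_lit 0, nat_lit 761, nat_lit 0, nat_lit 0, nat_lit 0, nat_lit 0, nat_lit 0, nat_lit 226400, nat_lit 0, nat_lit 0, [(nat_lit 15, [(nat_lit 5, nat_lit 566)])],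
 ⟨p064_k17, nat_lit 0, nat_lit 0, nat_lit 0, nat_lit 0, nat_lit 382371, [nat_lit 1765011000, nat_lit 1925919000, nat_lit 2099968600], [], [nat_lit 19242233536, nat_lit 19780270380, nat_lit 19382142620, nat_lit 19890165248, nat_lit 21817216575, nat_lit 22516322080, nat_lit 21786842829, nat_lit 22230704428], nat_lit 1271250, nat_lit 1271250, nat_lit 435600, nat_lit 780000, nat_lit 1271250, nat_lit 1271250, [nat_lit 631250, nat_lit 936250, nat_lit 1271250], [nat_lit 208, nat_lit 40, nat_lit 20, nat_lit 40]⟩, ⟨p064_k30, nat_lit 0, nat_lit 0, nat_lit 300, nat_lit 0, nat_lit 498708, [nat_lit 2034592000, nat_lit 2712500000, nat_lit 3458112000], [], [nat_lit 9923036850, nat_lit 10445713249, nat_lit 9545821144, nat_lit 9860855304, nat_lit 11538749369, nat_lit 12129987887, nat_lit 10888780834, nat_lit 11449714400], nat_lit 1271250, nat_lit 1271250, nat_lit 435600, nat_lit 780000, nat_lit 1271250, nat_lit 1271250, [nat_lit 1100000,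 nat_lit 1442500, nat_lit 1271250], [nat_lit 9, nat_lit 40, nat_lit 40, nat_lit 80, nat_lit 2, nat_lit 238, nat_lit 30, nat_lit 7]⟩,
 ⟨nat_lit 4472, nat_lit 4744, ⟨.ofNat (nat_lit 341417), .ofNat (nat_lit 425056), .ofNat (nat_lit 362901), .ofNat (nat_lit 446540), .ofNat (nat_lit 347161), .ofNat (nat_lit 428734), .ofNat (nat_lit 368724), .ofNat (nat_lit 450297)⟩, ⟨.ofNat (nat_lit 440769), .ofNat (nat_lit 545319), .ofNat (nat_lit 483746), .ofNat (nat_lit 588295), .ofNat (nat_lit 438578), .ofNat (nat_lit 540545), .ofNat (nat_lit 481711), .ofNat (nat_lit 583678)⟩⟩, [⟨nat_lit 0, nat_lit 100, nat_lit 87, nat_lit 95, nat_lit 103768535⟩, ⟨nat_lit 16, nat_lit 90, nat_lit 100, nat_lit 95, nat_lit 42001453⟩, ⟨nat_lit 7, nat_lit 82, nat_lit 100, nat_lit 92, nat_lit 55825886⟩, ⟨nat_lit 23, nat_lit 100, nat_lit 84, nat_lit 91, nat_lit 362350412⟩]⟩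
noncomputable def b_V_700_600_20_42 : St := ⟨true, nat_lit 1, nat_lit 1, nat_lit 1, nat_lit 120, nat_lit 300, nat_lit 320, nat_lit 260, nat_lit 280, nat_lit 64, nat_lit 120, nat_lit 80, nat_lit 120, nat_lit 240, nat_lit 320, nat_lit 0, nat_lit 352, nat_lit 0, nat_lit 20, nat_lit 0, nat_lit 600, nat_lit 0, nat_lit 0⟩
theorem d_V_700_600_20_42 (h : EB TB.env) : Dead b_V_700_600_20_42 := chkB_sound0 h (T :=
(.spl (nat_lit 5) (nat_lit 160)
(.leaf p064_l39)
(.spl (nat_lit 5) (nat_lit 240)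
(.leaf p064_l40)
(.spl (nat_lit 5) (nat_lit 320)
(.spl (nat_lit 1) (nat_lit 270)
(.spl (nat_lit 2) (nat_lit 80)
(.leaf p064_l41)
(.spl (nat_lit 0) (nat_lit 310)
(.leaf p064_l42)
(.trX (nat_lit 16) (nat_lit 91) (nat_lit 91) (nat_lit 100) (nat_lit 312) (.leaf p064_l43))))
(.trZ (nat_lit 0) (nat_lit 100) (nat_lit 92) (nat_lit 82) (nat_lit 72) (.spl (nat_lit 0) (nat_lit 310)
(.leaf p064_l44)
(.trZ (nat_lit 0) (nat_lit 100) (nat_lit 89) (nat_lit 86) (nat_lit 80) (.trX (nat_lit 16) (nat_lit 91) (nat_lit 91) (nat_lit 100) (nat_lit 312) (.leaf p064_l45))))))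
(.trX (nat_lit 11) (nat_lit 87) (nat_lit 95) (nat_lit 100) (nat_lit 300) (.spl (nat_lit 0) (nat_lit 310)
(.leaf p064_l46)
(.trZ (nat_lit 0) (nat_lit 100) (nat_lit 88) (nat_lit 81) (nat_lit 72) (.leaf p064_l47)))))))) (by decide +kernel)
noncomputable def p064_l48 : Lf2 := ⟨nat_lit 0, nat_lit 8, [nat_lit 50, nat_lit 5, nat_lit 5, nat_lit 20], false, nat_lit 240, nat_lit 280, nat_lit 240, nat_lit 336, ⟨nat_lit 215, nat_lit 0, nat_lit 785, nat_lit 6, nat_lit 153, nat_lit 785, nat_lit 195, nat_lit 785, nat_lit 14462, nat_lit 240, nat_lit 216600, nat_lit 329, nat_lit 46272995, nat_lit 0, nat_lit 0, nat_lit 4439983, false, false⟩,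
 nat_lit 3382, nat_lit 2117, nat_lit 0, nat_lit 0, nat_lit 3807, nat_lit 1968, nat_lit 0, nat_lit 0, nat_lit 0, nat_lit 257, nat_lit 0, nat_lit 0, nat_lit 0, nat_lit 0, nat_lit 45, nat_lit 518000, nat_lit 0, nat_lit 0, [(nat_lit 15, [(nat_lit 5, nat_lit 445), (nat_lit 6, nat_lit 340)])],
 ⟨p064_k34, nat_lit 0, nat_lit 0, nat_lit 0, nat_lit 0, nat_lit 180703, [nat_lit 2164094000, nat_lit 1034580001, nat_lit 32120999], [], [nat_lit 18081862137, nat_lit 19119913312, nat_lit 18121508029, nat_lit 19097595403, nat_lit 19813512012, nat_lit 21230963569, nat_lit 19756452630, nat_lit 20930146242], nat_lit 1271250, nat_lit 1271250, nat_lit 382400, nat_lit 780000, nat_lit 1271250, nat_lit 1271250, [nat_lit 780000, nat_lit 1435000, nat_lit 1271250], [nat_lit 18, nat_lit 40, nat_lit 40, nat_lit 80]⟩, ⟨p064_k35, nat_lit 0, nat_lit 0, nat_lit 218, nat_lit 0, nat_lit 223934, [nat_lit 1007920000, nat_lit 1713120000, nat_lit 2116030000], [],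 [nat_lit 4151297214, nat_lit 4302746088, nat_lit 3798640650, nat_lit 3939242605, nat_lit 5713165155, nat_lit 5818193785, nat_lit 5268025461, nat_lit 5380154209], nat_lit 1271250, nat_lit 1271250, nat_lit 382400, nat_lit 780000, nat_lit 1271250, nat_lit 1271250, [nat_lit 1100000, nat_lit 1785000, nat_lit 1271250], [nat_lit 29, nat_lit 40, nat_lit 40, nat_lit 80, nat_lit 17, nat_lit 428, nat_lit 200, nat_lit 12]⟩,
 ⟨nat_lit 4472, nat_lit 5000, ⟨.ofNat (nat_lit 321407), .ofNat (nat_lit 421400), .ofNat (nat_lit 332115), .ofNat (nat_lit 432108), .ofNat (nat_lit 333552), .ofNat (nat_lit 428715), .ofNat (nat_lit 344329), .ofNat (nat_lit 439491)⟩, ⟨.ofNat (nat_lit 442856), .ofNat (nat_lit 514284), .ofNat (nat_lit 464284), .ofNat (nat_lit 535713), .ofNat (nat_lit 438578), .ofNat (nat_lit 506556), .ofNat (nat_lit 460144), .ofNat (nat_lit 528122)⟩⟩, [⟨nat_lit 0, nat_lit 100, nat_lit 88, nat_lit 84, nat_lit 128185666⟩, ⟨nat_lit 4, nat_lit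 100, nat_lit 91, nat_lit 91, nat_lit 129417594⟩, ⟨nat_lit 11, nat_lit 100, nat_lit 100, nat_lit 96, nat_lit 137581747⟩]⟩
noncomputable def p064_l49 : Lf2 := ⟨nat_lit 0, nat_lit 8, [nat_lit 50, nat_lit 5, nat_lit 5, nat_lit 20], false, nat_lit 240, nat_lit 280, nat_lit 240, nat_lit 328, ⟨nat_lit 380, nat_lit 0, nat_lit 620, nat_lit 6, nat_lit 160, nat_lit 620, nat_lit 195, nat_lit 620, nat_lit 14462, nat_lit 240, nat_lit 240000, nat_lit 335, nat_lit 45767662, nat_lit 0, nat_lit 0, nat_lit 4513022, false, false⟩,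
 nat_lit 5362, nat_lit 722, nat_lit 0, nat_lit 0, nat_lit 4212, nat_lit 3265, nat_lit 0, nat_lit 0, nat_lit 0, nat_lit 448, nat_lit 0, nat_lit 0, nat_lit 0, nat_lit 0, nat_lit 10, nat_lit 620000, nat_lit 0, nat_lit 0, [(nat_lit 15, [(nat_lit 6, nat_lit 620)])],
 ⟨p064_k34, nat_lit 0, nat_lit 0, nat_lit 0, nat_lit 0, nat_lit 216709, [nat_lit 1974760000, nat_lit 1151976001, nat_lit 9864000], [], [nat_lit 18443066493, nat_lit 19525243706, nat_lit 18454399480, nat_lit 19472478064, nat_lit 20273227062, nat_lit 21417784640, nat_lit 20126805865, nat_lit 21142600272], nat_lit 1271250, nat_lit 1271250, nat_lit 435600, nat_lit 780000, nat_lit 1271250, nat_lit 1271250, [nat_lit 780000, nat_lit 1435000, nat_lit 1271250], [nat_lit 18, nat_lit 40, nat_lit 40, nat_lit 80]⟩, ⟨p064_k36, nat_lit 0, nat_lit 0, nat_lit 221, nat_lit 0, nat_lit 253791, [nat_lit 1781440000, nat_lit 3027840000, nat_lit 3739960000], [], [nat_lit 7297079460, nat_lit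 7553270681, nat_lit 6861651510, nat_lit 7101652000, nat_lit 9595758536, nat_lit 9781542880, nat_lit 9019116001, nat_lit 9193348406], nat_lit 1271250, nat_lit 1271250, nat_lit 435600, nat_lit 780000, nat_lit 1271250, nat_lit 1271250, [nat_lit 1100000, nat_lit 1785000, nat_lit 1271250], [nat_lit 29, nat_lit 40, nat_lit 40, nat_lit 80, nat_lit 17, nat_lit 428, nat_lit 200, nat_lit 12]⟩,
 ⟨nat_lit 4472, nat_lit 5000, ⟨.ofNat (nat_lit 346399), .ofNat (nat_lit 432108), .ofNat (nat_lit 357107), .ofNat (nat_lit 442816), .ofNat (nat_lit 357923), .ofNat (nat_lit 439491), .ofNat (nat_lit 368700), .ofNat (nat_lit 450269)⟩, ⟨.ofNat (nat_lit 442856), .ofNat (nat_lit 514284), .ofNat (nat_lit 464284), .ofNat (nat_lit 535713), .ofNat (nat_lit 438578), .ofNat (nat_lit 506556), .ofNat (nat_lit 460144), .ofNat (nat_lit 528122)⟩⟩, [⟨nat_lit 0, nat_lit 100, nat_lit 90, nat_lit 89, nat_lit 268779033⟩, ⟨nat_lit 4, nat_lit 100, nat_lit 91, nat_lit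 91, nat_lit 556187⟩, ⟨nat_lit 7, nat_lit 89, nat_lit 100, nat_lit 90, nat_lit 97776829⟩, ⟨nat_lit 11, nat_lit 100, nat_lit 100, nat_lit 98, nat_lit 126714745⟩]⟩
noncomputable def p064_l50 : Lf2 := ⟨nat_lit 0, nat_lit 10, [nat_lit 0, nat_lit 5, nat_lit 5, nat_lit 20], false, nat_lit 240, nat_lit 280, nat_lit 240, nat_lit 336, ⟨nat_lit 111, nat_lit 0, nat_lit 889, nat_lit 6, nat_lit 153, nat_lit 889, nat_lit 195, nat_lit 889, nat_lit 14462, nat_lit 240, nat_lit 216600, nat_lit 329, nat_lit 46272995, nat_lit 0, nat_lit 0, nat_lit 4439983, false, false⟩,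
 nat_lit 2250, nat_lit 3193, nat_lit 0, nat_lit 0, nat_lit 3767, nat_lit 1309, nat_lit 0, nat_lit 0, nat_lit 0, nat_lit 67, nat_lit 0, nat_lit 0, nat_lit 0, nat_lit 0, nat_lit 46, nat_lit 355600, nat_lit 0, nat_lit 0, [(nat_lit 15, [(nat_lit 5, nat_lit 889)])],
 ⟨p064_k21, nat_lit 0, nat_lit 0, nat_lit 0, nat_lit 0, nat_lit 103069, [nat_lit 2085514800, nat_lit 757109600, nat_lit 85570600], [], [nat_lit 18080478266, nat_lit 19113944897, nat_lit 18131046830, nat_lit 19102986924, nat_lit 19785932816, nat_lit 21195402609, nat_lit 19738892321, nat_lit 20909658002], nat_lit 1271250, nat_lit 1271250, nat_lit 382400, nat_lit 780000, nat_lit 1271250, nat_lit 1271250, [nat_lit 780000, nat_lit 1435000, nat_lit 1271250], [nat_lit 18, nat_lit 40, nat_lit 40, nat_lit 80]⟩, ⟨p064_k37, nat_lit 0, nat_lit 0, nat_lit 179, nat_lit 0, nat_lit 127925, [nat_lit 520368000, nat_lit 884448000, nat_lit 1092462000], [], [nat_lit 2282364752, nat_lit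 2373542496, nat_lit 2012247574, nat_lit 2096517847, nat_lit 3229234145, nat_lit 3290433391, nat_lit 2889868138, nat_lit 2946410388], nat_lit 1271250, nat_lit 1271250, nat_lit 382400, nat_lit 780000, nat_lit 1271250, nat_lit 1271250, [nat_lit 1100000, nat_lit 1785000, nat_lit 1271250], [nat_lit 29, nat_lit 40, nat_lit 40, nat_lit 80, nat_lit 17, nat_lit 428, nat_lit 200, nat_lit 12]⟩,
 ⟨nat_lit 4472, nat_lit 5000, ⟨.ofNat (nat_lit 321407), .ofNat (nat_lit 421400), .ofNat (nat_lit 332115), .ofNat (nat_lit 432108), .ofNat (nat_lit 333552), .ofNat (nat_lit 428715), .ofNat (nat_lit 344329), .ofNat (nat_lit 439491)⟩, ⟨.ofNat (nat_lit 442856), .ofNat (nat_lit 514284), .ofNat (nat_lit 464284), .ofNat (nat_lit 535713), .ofNat (nat_lit 438578), .ofNat (nat_lit 506556), .ofNat (nat_lit 460144), .ofNat (nat_lit 528122)⟩⟩, [⟨nat_lit 0, nat_lit 100, nat_lit 88, nat_lit 84, nat_lit 126698894⟩, ⟨nat_lit 16, nat_lit 91, nat_lit 100, nat_lit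 91, nat_lit 121384580⟩, ⟨nat_lit 11, nat_lit 100, nat_lit 100, nat_lit 96, nat_lit 78317726⟩]⟩
noncomputable def p064_l51 : Lf2 := ⟨nat_lit 0, nat_lit 10, [nat_lit 0, nat_lit 5, nat_lit 5, nat_lit 20], false, nat_lit 240, nat_lit 280, nat_lit 240, nat_lit 328, ⟨nat_lit 1000, nat_lit 0, nat_lit 0, nat_lit 0, nat_lit 0, nat_lit 0, nat_lit 0, nat_lit 0, nat_lit 0, nat_lit 0, nat_lit 0, nat_lit 0, nat_lit 0, nat_lit 0, nat_lit 0, nat_lit 0, false, false⟩,
 nat_lit 13771, nat_lit 0, nat_lit 0, nat_lit 0, nat_lit 4983, nat_lit 8386, nat_lit 0, nat_lit 0, nat_lit 0, nat_lit 1235, nat_lit 0, nat_lit 0, nat_lit 0, nat_lit 0, nat_lit 0, nat_lit 0, nat_lit 0, nat_lit 0, [],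
 ⟨p064_k21, nat_lit 0, nat_lit 0, nat_lit 0, nat_lit 0, nat_lit 86686, [nat_lit 3282000000, nat_lit 6250000000, nat_lit 7968000000], [], [nat_lit 17900244602, nat_lit 18711983045, nat_lit 17819824782, nat_lit 18585089237, nat_lit 20504857146, nat_lit 21236135601, nat_lit 20282751572, nat_lit 20973403722], nat_lit 1271250, nat_lit 1271250, nat_lit 435600, nat_lit 780000, nat_lit 1271250, nat_lit 1271250, [nat_lit 780000, nat_lit 1435000, nat_lit 1271250], [nat_lit 18, nat_lit 40, nat_lit 40, nat_lit 80]⟩, ⟨p064_k38, nat_lit 0, nat_lit 0, nat_lit 160, nat_lit 0, nat_lit 101634, [nat_lit 4688000000, nat_lit 7968000000, nat_lit 9842000000], [], [nat_lit 19019741809, nat_lit 19684890608, nat_lit 17924352725, nat_lit 18547715545, nat_lit 24987208590, nat_lit 25539515864, nat_lit 23650925664, nat_lit 24169203749], nat_lit 1271250, nat_lit 1271250, nat_lit 435600, nat_lit 780000, nat_lit 1271250, nat_lit 1271250, [nat_lit 1100000,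 nat_lit 1785000, nat_lit 1271250], [nat_lit 29, nat_lit 40, nat_lit 40, nat_lit 80, nat_lit 17, nat_lit 428, nat_lit 200, nat_lit 12]⟩,
 zbF0, [⟨nat_lit 0, nat_lit 100, nat_lit 91, nat_lit 91, nat_lit 371045372⟩, ⟨nat_lit 4, nat_lit 100, nat_lit 94, nat_lit 92, nat_lit 144881769⟩, ⟨nat_lit 7, nat_lit 89, nat_lit 100, nat_lit 90, nat_lit 175326465⟩, ⟨nat_lit 11, nat_lit 100, nat_lit 100, nat_lit 98, nat_lit 415819641⟩]⟩
noncomputable def p064_l52 : Lf2 := ⟨nat_lit 0, nat_lit 10, [nat_lit 0, nat_lit 5, nat_lit 5, nat_lit 20], false, nat_lit 240, nat_lit 280, nat_lit 240, nat_lit 328, ⟨nat_lit 234, nat_lit 0, nat_lit 766, nat_lit 6, nat_lit 163, nat_lit 766, nat_lit 194, nat_lit 766, nat_lit 16086, nat_lit 242, nat_lit 252150, nat_lit 338, nat_lit 45548739, nat_lit 0, nat_lit 0, nat_lit 4545031, false, false⟩,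
 nat_lit 5648, nat_lit 0, nat_lit 0, nat_lit 0, nat_lit 4071, nat_lit 3439, nat_lit 108, nat_lit 0, nat_lit 0, nat_lit 10, nat_lit 0, nat_lit 0, nat_lit 0, nat_lit 0, nat_lit 0, nat_lit 306400, nat_lit 0, nat_lit 0, [(nat_lit 15, [(nat_lit 5, nat_lit 766)])],
 ⟨p064_k39, nat_lit 0, nat_lit 0, nat_lit 0, nat_lit 0, nat_lit 132815, [nat_lit 1775431200, nat_lit 724382401, nat_lit 219516399], [], [nat_lit 18853133777, nat_lit 19379319203, nat_lit 18945783900, nat_lit 19447513611, nat_lit 20576504145, nat_lit 21140377936, nat_lit 20553301677, nat_lit 21065368626], nat_lit 1271250, nat_lit 1271250, nat_lit 490000, nat_lit 780000, nat_lit 1271250, nat_lit 1271250, [nat_lit 780000, nat_lit 1435000, nat_lit 1271250], [nat_lit 18, nat_lit 40, nat_lit 40, nat_lit 80]⟩, ⟨p064_k38, nat_lit 0, nat_lit 0, nat_lit 179, nat_lit 0, nat_lit 163633, [nat_lit 1096992000, nat_lit 1864512000, nat_lit 2303028000], [], [nat_lit 4899110930, nat_lit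 5117581966, nat_lit 4454456018, nat_lit 4659197990, nat_lit 6872699133, nat_lit 7030711023, nat_lit 6308532013, nat_lit 6448135688], nat_lit 1271250, nat_lit 1271250, nat_lit 490000, nat_lit 780000, nat_lit 1271250, nat_lit 1271250, [nat_lit 1100000, nat_lit 1785000, nat_lit 1271250], [nat_lit 29, nat_lit 40, nat_lit 40, nat_lit 80, nat_lit 17, nat_lit 428, nat_lit 200, nat_lit 12]⟩,
 ⟨nat_lit 4472, nat_lit 4744, ⟨.ofNat (nat_lit 366099), .ofNat (nat_lit 435798), .ofNat (nat_lit 376841), .ofNat (nat_lit 446540), .ofNat (nat_lit 371538), .ofNat (nat_lit 439515), .ofNat (nat_lit 382319), .ofNat (nat_lit 450297)⟩, ⟨.ofNat (nat_lit 440769), .ofNat (nat_lit 510469), .ofNat (nat_lit 462258), .ofNat (nat_lit 531957), .ofNat (nat_lit 438578), .ofNat (nat_lit 506556), .ofNat (nat_lit 460144), .ofNat (nat_lit 528122)⟩⟩, [⟨nat_lit 0, nat_lit 100, nat_lit 88, nat_lit 91, nat_lit 295458185⟩, ⟨nat_lit 19, nat_lit 100, nat_lit 89, nat_lit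 90, nat_lit 144477112⟩, ⟨nat_lit 11, nat_lit 100, nat_lit 100, nat_lit 100, nat_lit 29351023⟩]⟩
noncomputable def p064_l53 : Lf2 := ⟨nat_lit 0, nat_lit 10, [nat_lit 0, nat_lit 5, nat_lit 5, nat_lit 20], false, nat_lit 240, nat_lit 280, nat_lit 240, nat_lit 352, ⟨nat_lit 1000, nat_lit 0, nat_lit 0, nat_lit 0, nat_lit 0, nat_lit 0, nat_lit 0, nat_lit 0, nat_lit 0, nat_lit 0, nat_lit 0, nat_lit 0, nat_lit 0, nat_lit 0, nat_lit 0, nat_lit 0, false, false⟩,
 nat_lit 7171, nat_lit 0, nat_lit 7100, nat_lit 0, nat_lit 4964, nat_lit 8306, nat_lit 0, nat_lit 0, nat_lit 0, nat_lit 1335, nat_lit 0, nat_lit 0, nat_lit 0, nat_lit 0, nat_lit 0, nat_lit 0, nat_lit 0, nat_lit 0, [],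
 ⟨p064_k21, nat_lit 0, nat_lit 0, nat_lit 0, nat_lit 0, nat_lit 75702, [nat_lit 3282000000, nat_lit 6250000000, nat_lit 7968000000], [], [nat_lit 18054476826, nat_lit 18462626888, nat_lit 17837343656, nat_lit 18219174226, nat_lit 20672548597, nat_lit 21040160977, nat_lit 20295707976, nat_lit 20640344826], nat_lit 1271250, nat_lit 1271250, nat_lit 382400, nat_lit 780000, nat_lit 1271250, nat_lit 1271250, [nat_lit 780000, nat_lit 1435000, nat_lit 1271250], [nat_lit 18, nat_lit 40, nat_lit 40, nat_lit 80]⟩, ⟨p064_k37, nat_lit 0, nat_lit 0, nat_lit 177, nat_lit 0, nat_lit 94297, [nat_lit 4688000000, nat_lit 7968000000, nat_lit 9842000000], [], [nat_lit 19153254600, nat_lit 20486938273, nat_lit 17767698380, nat_lit 19008789440, nat_lit 28023856714, nat_lit 29017249505, nat_lit 26206542360, nat_lit 27133064308], nat_lit 1271250, nat_lit 1271250, nat_lit 382400, nat_lit 780000, nat_lit 1271250, nat_lit 1271250, [nat_lit 1100000,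 nat_lit 1785000, nat_lit 1271250], [nat_lit 29, nat_lit 40, nat_lit 40, nat_lit 80, nat_lit 17, nat_lit 428, nat_lit 200, nat_lit 12]⟩,
 zbF0, [⟨nat_lit 0, nat_lit 100, nat_lit 93, nat_lit 90, nat_lit 222012037⟩, ⟨nat_lit 23, nat_lit 100, nat_lit 80, nat_lit 88, nat_lit 440936449⟩, ⟨nat_lit 11, nat_lit 100, nat_lit 100, nat_lit 96, nat_lit 235926357⟩]⟩
noncomputable def p064_l54 : Lf2 := ⟨nat_lit 0, nat_lit 10, [nat_lit 0, nat_lit 5, nat_lit 5, nat_lit 20], false, nat_lit 240, nat_lit 280, nat_lit 240, nat_lit 352, ⟨nat_lit 893, nat_lit 107, nat_lit 0, nat_lit 6, nat_lit 156, nat_lit 107, nat_lit 203, nat_lit 0, nat_lit 0, nat_lit 0, nat_lit 0, nat_lit 0, nat_lit 45318674, nat_lit 8592334, nat_lit 13088992, nat_lit 4546249, false, false⟩,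
 nat_lit 11739, nat_lit 0, nat_lit 0, nat_lit 0, nat_lit 5575, nat_lit 6833, nat_lit 0, nat_lit 0, nat_lit 0, nat_lit 1493, nat_lit 0, nat_lit 0, nat_lit 0, nat_lit 0, nat_lit 0, nat_lit 26750, nat_lit 0, nat_lit 0, [(nat_lit 15, [(nat_lit 0, nat_lit 107)])],
 ⟨p064_k40, nat_lit 0, nat_lit 0, nat_lit 0, nat_lit 0, nat_lit 99689, [nat_lit 2562011500, nat_lit 3772611101, nat_lit 6641608700], [], [nat_lit 18654183662, nat_lit 19076119282, nat_lit 18392704714, nat_lit 18788014676, nat_lit 21128082409, nat_lit 21507738966, nat_lit 20717950951, nat_lit 21074279201], nat_lit 1271250, nat_lit 1271250, nat_lit 408851, nat_lit 780000, nat_lit 1271250, nat_lit 1271250, [nat_lit 631250, nat_lit 936250, nat_lit 1606250], [nat_lit 210, nat_lit 40, nat_lit 20, nat_lit 40]⟩, ⟨p064_k41, nat_lit 0, nat_lit 0, nat_lit 180, nat_lit 0, nat_lit 127368, [nat_lit 4186384000, nat_lit 5581250000, nat_lit 8788906000], [], [nat_lit 17329703478, nat_lit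 18401072702, nat_lit 16531794521, nat_lit 17408678163, nat_lit 24263574802, nat_lit 25012036257, nat_lit 22902175518, nat_lit 23603954736], nat_lit 1271250, nat_lit 1271250, nat_lit 408851, nat_lit 780000, nat_lit 1271250, nat_lit 1271250, [nat_lit 1100000, nat_lit 1442500, nat_lit 1271250], [nat_lit 11, nat_lit 40, nat_lit 40, nat_lit 80, nat_lit 1, nat_lit 428, nat_lit 200, nat_lit 12]⟩,
 ⟨nat_lit 4743, nat_lit 4874, ⟨.ofNat (nat_lit 331509), .ofNat (nat_lit 423240), .ofNat (nat_lit 352965), .ofNat (nat_lit 444696), .ofNat (nat_lit 334453), .ofNat (nat_lit 425062), .ofNat (nat_lit 355941), .ofNat (nat_lit 446550)⟩, ⟨.ofNat (nat_lit 463280), .ofNat (nat_lit 533843), .ofNat (nat_lit 484737), .ofNat (nat_lit 555299), .ofNat (nat_lit 462258), .ofNat (nat_lit 531957), .ofNat (nat_lit 483746), .ofNat (nat_lit 553445)⟩⟩, [⟨nat_lit 0, nat_lit 100, nat_lit 91, nat_lit 91, nat_lit 200943454⟩, ⟨nat_lit 23, nat_lit 100, nat_lit 80,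 nat_lit 89, nat_lit 104312744⟩, ⟨nat_lit 11, nat_lit 100, nat_lit 100, nat_lit 97, nat_lit 428432559⟩]⟩
noncomputable def p064_l55 : Lf2 := ⟨nat_lit 0, nat_lit 8, [nat_lit 50, nat_lit 5, nat_lit 5, nat_lit 20], false, nat_lit 240, nat_lit 280, nat_lit 240, nat_lit 352, ⟨nat_lit 440, nat_lit 0, nat_lit 560, nat_lit 6, nat_lit 158, nat_lit 560, nat_lit 203, nat_lit 560, nat_lit 7208, nat_lit 231, nat_lit 236017, nat_lit 334, nat_lit 45203525, nat_lit 0, nat_lit 0, nat_lit 4565277, false, false⟩,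
 nat_lit 6396, nat_lit 0, nat_lit 0, nat_lit 0, nat_lit 4611, nat_lit 3723, nat_lit 252, nat_lit 0, nat_lit 0, nat_lit 557, nat_lit 0, nat_lit 0, nat_lit 0, nat_lit 0, nat_lit 0, nat_lit 224000, nat_lit 0, nat_lit 0, [(nat_lit 15, [(nat_lit 5, nat_lit 560)])],
 ⟨p064_k23, nat_lit 0, nat_lit 0, nat_lit 0, nat_lit 0, nat_lit 122732, [nat_lit 2180592000, nat_lit 2210384000], [], [nat_lit 19061118922, nat_lit 19365452885, nat_lit 19028721708, nat_lit 19315930474, nat_lit 21049457159, nat_lit 21357143980, nat_lit 20851276417, nat_lit 21112750355], nat_lit 1271250, nat_lit 1271250, nat_lit 435600, nat_lit 780000, nat_lit 1271250, nat_lit 1271250, [nat_lit 780000, nat_lit 1435000], [nat_lit 49, nat_lit 40, nat_lit 40, nat_lit 80]⟩, ⟨p064_k35, nat_lit 0, nat_lit 0, nat_lit 196, nat_lit 0, nat_lit 160503, [nat_lit 2062720000, nat_lit 3505920000, nat_lit 4330480000], [], [nat_lit 8375330129, nat_lit 8963569496, nat_lit 7903756200,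 nat_lit 8454959660, nat_lit 12190006265, nat_lit 12627635047, nat_lit 11548467368, nat_lit 11959374418], nat_lit 1271250, nat_lit 1271250, nat_lit 435600, nat_lit 780000, nat_lit 1271250, nat_lit 1271250, [nat_lit 1100000, nat_lit 1785000, nat_lit 1271250], [nat_lit 29, nat_lit 40, nat_lit 40, nat_lit 80, nat_lit 17, nat_lit 428, nat_lit 200, nat_lit 12]⟩,
 ⟨nat_lit 4609, nat_lit 4744, ⟨.ofNat (nat_lit 341422), .ofNat (nat_lit 425062), .ofNat (nat_lit 362910), .ofNat (nat_lit 446549), .ofNat (nat_lit 344288), .ofNat (nat_lit 426894), .ofNat (nat_lit 365813), .ofNat (nat_lit 448419)⟩, ⟨.ofNat (nat_lit 462258), .ofNat (nat_lit 531957), .ofNat (nat_lit 483746), .ofNat (nat_lit 553445), .ofNat (nat_lit 461213), .ofNat (nat_lit 530052), .ofNat (nat_lit 482738), .ofNat (nat_lit 551576)⟩⟩, [⟨nat_lit 0, nat_lit 100, nat_lit 89, nat_lit 93, nat_lit 148684301⟩, ⟨nat_lit 11, nat_lit 100, nat_lit 100, nat_lit 98, nat_lit 272616269⟩]⟩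
noncomputable def p064_l56 : Lf2 := ⟨nat_lit 0, nat_lit 10, [nat_lit 0, nat_lit 5, nat_lit 5, nat_lit 20], true, nat_lit 240, nat_lit 280, nat_lit 240, nat_lit 352, ⟨nat_lit 0, nat_lit 1000, nat_lit 0, nat_lit 6, nat_lit 158, nat_lit 1000, nat_lit 203, nat_lit 0, nat_lit 0, nat_lit 0, nat_lit 0, nat_lit 0, nat_lit 45203525, nat_lit 8783817, nat_lit 13012658, nat_lit 4565277, false, false⟩,
 nat_lit 0, nat_lit 5634, nat_lit 0, nat_lit 0, nat_lit 4061, nat_lit 0, nat_lit 0, nat_lit 0, nat_lit 0, nat_lit 0, nat_lit 0, nat_lit 0, nat_lit 0, nat_lit 0, nat_lit 0, nat_lit 250000, nat_lit 0, nat_lit 0, [(nat_lit 15, [(nat_lit 0, nat_lit 1000)])],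
 ⟨p064_k39, nat_lit 0, nat_lit 0, nat_lit 0, nat_lit 0, nat_lit 76023, [nat_lit 2318400000, nat_lit 2724800000, nat_lit 3082400000], [], [nat_lit 18307312722, nat_lit 18671069409, nat_lit 18393812679, nat_lit 18737543422, nat_lit 20602893641, nat_lit 20932316016, nat_lit 20571639174, nat_lit 20883519699], nat_lit 1271250, nat_lit 1271250, nat_lit 435600, nat_lit 780000, nat_lit 1271250, nat_lit 1271250, [nat_lit 780000, nat_lit 1435000, nat_lit 1271250], [nat_lit 18, nat_lit 40, nat_lit 40, nat_lit 80]⟩, C1.Rw.none,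
 ⟨nat_lit 4609, nat_lit 4744, ⟨.ofNat (nat_lit 341422), .ofNat (nat_lit 425062), .ofNat (nat_lit 362910), .ofNat (nat_lit 446549), .ofNat (nat_lit 344288), .ofNat (nat_lit 426894), .ofNat (nat_lit 365813), .ofNat (nat_lit 448419)⟩, ⟨.ofNat (nat_lit 462258), .ofNat (nat_lit 531957), .ofNat (nat_lit 483746), .ofNat (nat_lit 553445), .ofNat (nat_lit 461213), .ofNat (nat_lit 530052), .ofNat (nat_lit 482738), .ofNat (nat_lit 551576)⟩⟩, [⟨nat_lit 0, nat_lit 100, nat_lit 89, nat_lit 93, nat_lit 112190438⟩]⟩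
noncomputable def p064_l57 : Lf2 := ⟨nat_lit 0, nat_lit 10, [nat_lit 0, nat_lit 5, nat_lit 5, nat_lit 20], false, nat_lit 240, nat_lit 280, nat_lit 240, nat_lit 320, ⟨nat_lit 316, nat_lit 0, nat_lit 684, nat_lit 6, nat_lit 160, nat_lit 684, nat_lit 202, nat_lit 684, nat_lit 8407, nat_lit 232, nat_lit 240000, nat_lit 335, nat_lit 45089949, nat_lit 0, nat_lit 0, nat_lit 4583651, false, false⟩,
 nat_lit 5756, nat_lit 0, nat_lit 0, nat_lit 0, nat_lit 4232, nat_lit 3350, nat_lit 208, nat_lit 0, nat_lit 0, nat_lit 320, nat_lit 0, nat_lit 0, nat_lit 0, nat_lit 0, nat_lit 0, nat_lit 273600, nat_lit 0, nat_lit 0, [(nat_lit 15, [(nat_lit 5, nat_lit 684)])],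
 ⟨p064_k42, nat_lit 0, nat_lit 0, nat_lit 0, nat_lit 0, nat_lit 145401, [nat_lit 1936708800, nat_lit 1315897600, nat_lit 1044813600], [], [nat_lit 19229976340, nat_lit 19498599860, nat_lit 19237827848, nat_lit 19492865904, nat_lit 20988373901, nat_lit 21346695176, nat_lit 20844553862, nat_lit 21147833792], nat_lit 1271250, nat_lit 1271250, nat_lit 462650, nat_lit 780000, nat_lit 1271250, nat_lit 1271250, [nat_lit 780000, nat_lit 1435000, nat_lit 1271250], [nat_lit 18, nat_lit 40, nat_lit 40, nat_lit 80]⟩, ⟨p064_k37, nat_lit 0, nat_lit 0, nat_lit 190, nat_lit 0, nat_lit 195215, [nat_lit 1481408000, nat_lit 2517888000, nat_lit 3110072000], [], [nat_lit 5867069774, nat_lit 6346851455, nat_lit 5442608624, nat_lit 5892393840, nat_lit 7839514928, nat_lit 8192747322, nat_lit 7294428600, nat_lit 7625301392], nat_lit 1271250, nat_lit 1271250, nat_lit 462650, nat_lit 780000, nat_lit 1271250, nat_lit 1271250, [nat_lit 1100000, nat_lit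 1785000, nat_lit 1271250], [nat_lit 29, nat_lit 40, nat_lit 40, nat_lit 80, nat_lit 17, nat_lit 428, nat_lit 200, nat_lit 12]⟩,
 ⟨nat_lit 4472, nat_lit 4610, ⟨.ofNat (nat_lit 351172), .ofNat (nat_lit 426894), .ofNat (nat_lit 372696), .ofNat (nat_lit 448418), .ofNat (nat_lit 353964), .ofNat (nat_lit 428740), .ofNat (nat_lit 375530), .ofNat (nat_lit 450306)⟩, ⟨.ofNat (nat_lit 461213), .ofNat (nat_lit 530052), .ofNat (nat_lit 482738), .ofNat (nat_lit 551576), .ofNat (nat_lit 460144), .ofNat (nat_lit 528122), .ofNat (nat_lit 481711), .ofNat (nat_lit 549689)⟩⟩, [⟨nat_lit 0, nat_lit 100, nat_lit 87, nat_lit 95, nat_lit 195667436⟩, ⟨nat_lit 23, nat_lit 100, nat_lit 78, nat_lit 90, nat_lit 206000502⟩]⟩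
noncomputable def p064_l58 : Lf2 := ⟨nat_lit 0, nat_lit 10, [nat_lit 0, nat_lit 5, nat_lit 5, nat_lit 20], false, nat_lit 240, nat_lit 280, nat_lit 320, nat_lit 352, ⟨nat_lit 312, nat_lit 0, nat_lit 688, nat_lit 6, nat_lit 160, nat_lit 688, nat_lit 202, nat_lit 688, nat_lit 8407, nat_lit 232, nat_lit 240000, nat_lit 335, nat_lit 45089949, nat_lit 0, nat_lit 0, nat_lit 4583651, false, false⟩,
 nat_lit 5708, nat_lit 0, nat_lit 0, nat_lit 0, nat_lit 4197, nat_lit 3322, nat_lit 203, nat_lit 0, nat_lit 0, nat_lit 314, nat_lit 0, nat_lit 0, nat_lit 0, nat_lit 0, nat_lit 0, nat_lit 275200, nat_lit 0, nat_lit 0, [(nat_lit 15, [(nat_lit 5, nat_lit 688)])],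
 ⟨p064_k42, nat_lit 0, nat_lit 0, nat_lit 0, nat_lit 0, nat_lit 145401, [nat_lit 1928841601, nat_lit 1287043200, nat_lit 1004555200], [], [nat_lit 19265293166, nat_lit 19532930890, nat_lit 19280143572, nat_lit 19534274410, nat_lit 20993697075, nat_lit 21319522296, nat_lit 20882394110, nat_lit 21129906582], nat_lit 1271250, nat_lit 1271250, nat_lit 462650, nat_lit 780000, nat_lit 1271250, nat_lit 1271250, [nat_lit 780000, nat_lit 1435000, nat_lit 1271250], [nat_lit 18, nat_lit 40, nat_lit 40, nat_lit 80]⟩, ⟨p064_k37, nat_lit 0, nat_lit 0, nat_lit 207, nat_lit 0, nat_lit 195215, [nat_lit 1462656000, nat_lit 2486016000, nat_lit 3070704000], [], [nat_lit 7744815586, nat_lit 8099761332, nat_lit 7203153016, nat_lit 7530536248, nat_lit 9102698791, nat_lit 9608964603, nat_lit 8461713781, nat_lit 8941580112], nat_lit 1271250, nat_lit 1271250, nat_lit 462650, nat_lit 780000, nat_lit 1271250, nat_lit 1271250, [nat_lit 1100000, nat_lit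 1785000, nat_lit 1271250], [nat_lit 29, nat_lit 40, nat_lit 40, nat_lit 80, nat_lit 17, nat_lit 317, nat_lit 100, nat_lit 8]⟩,
 ⟨nat_lit 4472, nat_lit 4610, ⟨.ofNat (nat_lit 351172), .ofNat (nat_lit 426894), .ofNat (nat_lit 372696), .ofNat (nat_lit 448418), .ofNat (nat_lit 353964), .ofNat (nat_lit 428740), .ofNat (nat_lit 375530), .ofNat (nat_lit 450306)⟩, ⟨.ofNat (nat_lit 461213), .ofNat (nat_lit 530052), .ofNat (nat_lit 482738), .ofNat (nat_lit 551576), .ofNat (nat_lit 460144), .ofNat (nat_lit 528122), .ofNat (nat_lit 481711), .ofNat (nat_lit 549689)⟩⟩, [⟨nat_lit 0, nat_lit 100, nat_lit 87, nat_lit 95, nat_lit 60440444⟩, ⟨nat_lit 23, nat_lit 100, nat_lit 78, nat_lit 90, nat_lit 356356305⟩]⟩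
noncomputable def b_V_700_600_20_43 : St := ⟨true, nat_lit 1, nat_lit 1, nat_lit 1, nat_lit 120, nat_lit 300, nat_lit 320, nat_lit 260, nat_lit 280, nat_lit 64, nat_lit 120, nat_lit 80, nat_lit 120, nat_lit 240, nat_lit 280, nat_lit 240, nat_lit 352, nat_lit 20, nat_lit 40, nat_lit 0, nat_lit 600, nat_lit 0, nat_lit 0⟩
theorem d_V_700_600_20_43 (h : EB TB.env) : Dead b_V_700_600_20_43 := chkB_sound0 h (T :=
(.spl (nat_lit 3) (nat_lit 100)
(.trX (nat_lit 19) (nat_lit 100) (nat_lit 77) (nat_lit 91) (nat_lit 336) (.spl (nat_lit 6) (nat_lit 32)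
(.spl (nat_lit 1) (nat_lit 270)
(.leaf p064_l48)
(.trZ (nat_lit 0) (nat_lit 100) (nat_lit 92) (nat_lit 82) (nat_lit 72) (.trX (nat_lit 19) (nat_lit 100) (nat_lit 82) (nat_lit 92) (nat_lit 328) (.leaf p064_l49))))
(.spl (nat_lit 1) (nat_lit 270)
(.leaf p064_l50)
(.trZ (nat_lit 0) (nat_lit 100) (nat_lit 92) (nat_lit 82) (nat_lit 72) (.trX (nat_lit 19) (nat_lit 100) (nat_lit 82) (nat_lit 92) (nat_lit 328) (.spl (nat_lit 0) (nat_lit 310)
(.leaf p064_l51)
(.trZ (nat_lit 0) (nat_lit 100) (nat_lit 89) (nat_lit 86) (nat_lit 80) (.leaf p064_l52))))))))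
(.spl (nat_lit 0) (nat_lit 310)
(.spl (nat_lit 0) (nat_lit 305)
(.leaf p064_l53)
(.trZ (nat_lit 0) (nat_lit 100) (nat_lit 89) (nat_lit 79) (nat_lit 68) (.leaf p064_l54)))
(.trZ (nat_lit 0) (nat_lit 100) (nat_lit 88) (nat_lit 81) (nat_lit 72) (.spl (nat_lit 0) (nat_lit 315)
(.spl (nat_lit 6) (nat_lit 32)
(.leaf p064_l55)
(.leaf p064_l56))
(.trZ (nat_lit 0) (nat_lit 100) (nat_lit 86) (nat_lit 83) (nat_lit 76) (.spl (nat_lit 5) (nat_lit 320)
(.leaf p064_l57)
(.leaf p064_l58)))))))) (by decide +kernel)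
noncomputable def p064_l59 : Lf2 := ⟨nat_lit 0, nat_lit 10, [nat_lit 0, nat_lit 5, nat_lit 5, nat_lit 20], false, nat_lit 280, nat_lit 300, nat_lit 240, nat_lit 300, ⟨nat_lit 458, nat_lit 0, nat_lit 542, nat_lit 6, nat_lit 141, nat_lit 542, nat_lit 215, nat_lit 542, nat_lit 3033, nat_lit 223, nat_lit 187267, nat_lit 321, nat_lit 45300813, nat_lit 0, nat_lit 0, nat_lit 4484095, false, false⟩,
 nat_lit 8017, nat_lit 0, nat_lit 0, nat_lit 2606, nat_lit 5550, nat_lit 4666, nat_lit 0, nat_lit 0, nat_lit 0, nat_lit 597, nat_lit 0, nat_lit 0, nat_lit 0, nat_lit 0, nat_lit 0, nat_lit 519860, nat_lit 0, nat_lit 0, [(nat_lit 15, [(nat_lit 3, nat_lit 27), (nat_lit 6, nat_lit 515)])],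
 ⟨p064_k21, nat_lit 0, nat_lit 0, nat_lit 0, nat_lit 0, nat_lit 219070, [nat_lit 2536105600, nat_lit 1670222801, nat_lit 912709200], [], [nat_lit 21048186280, nat_lit 22780532401, nat_lit 20594840400, nat_lit 22233086800, nat_lit 22574506281, nat_lit 24203797381, nat_lit 22031452600, nat_lit 23639153100], nat_lit 1271250, nat_lit 1271250, nat_lit 382400, nat_lit 490000, nat_lit 1271250, nat_lit 1271250, [nat_lit 780000, nat_lit 1435000, nat_lit 1271250], [nat_lit 18, nat_lit 40, nat_lit 40, nat_lit 80]⟩, ⟨p064_k37, nat_lit 0, nat_lit 0, nat_lit 225, nat_lit 0, nat_lit 271900, [nat_lit 2147104000, nat_lit 3649344000, nat_lit 4507636000], [], [nat_lit 8303147699, nat_lit 8990391446, nat_lit 7878634116, nat_lit 8554699676, nat_lit 10421070449, nat_lit 11062759414, nat_lit 9962150787, nat_lit 10512184512], nat_lit 1271250, nat_lit 1271250, nat_lit 382400, nat_lit 490000, nat_lit 1271250, nat_lit 1271250, [nat_lit 1100000, nat_lit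 1785000, nat_lit 1271250], [nat_lit 29, nat_lit 40, nat_lit 40, nat_lit 80, nat_lit 17, nat_lit 401, nat_lit 175, nat_lit 11]⟩,
 ⟨nat_lit 4472, nat_lit 5000, ⟨.ofNat (nat_lit 321407), .ofNat (nat_lit 349976), .ofNat (nat_lit 342823), .ofNat (nat_lit 371392), .ofNat (nat_lit 333552), .ofNat (nat_lit 360741), .ofNat (nat_lit 355106), .ofNat (nat_lit 382295)⟩, ⟨.ofNat (nat_lit 514284), .ofNat (nat_lit 549998), .ofNat (nat_lit 535713), .ofNat (nat_lit 571427), .ofNat (nat_lit 506556), .ofNat (nat_lit 540545), .ofNat (nat_lit 528122), .ofNat (nat_lit 562111)⟩⟩, [⟨nat_lit 0, nat_lit 100, nat_lit 89, nat_lit 86, nat_lit 559104286⟩, ⟨nat_lit 4, nat_lit 100, nat_lit 91, nat_lit 91, nat_lit 268718482⟩, ⟨nat_lit 23, nat_lit 100, nat_lit 95, nat_lit 87, nat_lit 312955368⟩]⟩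
noncomputable def p064_l60 : Lf2 := ⟨nat_lit 0, nat_lit 10, [nat_lit 0, nat_lit 5, nat_lit 5, nat_lit 20], false, nat_lit 280, nat_lit 320, nat_lit 240, nat_lit 300, ⟨nat_lit 787, nat_lit 0, nat_lit 213, nat_lit 6, nat_lit 141, nat_lit 213, nat_lit 231, nat_lit 213, nat_lit 4748, nat_lit 203, nat_lit 187267, nat_lit 321, nat_lit 43959080, nat_lit 0, nat_lit 0, nat_lit 4593151, false, false⟩,
 nat_lit 13800, nat_lit 0, nat_lit 0, nat_lit 6744, nat_lit 5993, nat_lit 8032, nat_lit 662, nat_lit 0, nat_lit 0, nat_lit 1069, nat_lit 0, nat_lit 0, nat_lit 0, nat_lit 0, nat_lit 0, nat_lit 213000, nat_lit 0, nat_lit 0, [(nat_lit 15, [(nat_lit 6, nat_lit 213)])],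
 ⟨p064_k21, nat_lit 0, nat_lit 0, nat_lit 0, nat_lit 0, nat_lit 156720, [nat_lit 2791674000, nat_lit 4429872401, nat_lit 5151543600], [], [nat_lit 21739127573, nat_lit 23174370032, nat_lit 21273652342, nat_lit 22560382288, nat_lit 24546837617, nat_lit 26139754766, nat_lit 23917186064, nat_lit 25489507644], nat_lit 1271250, nat_lit 1271250, nat_lit 382400, nat_lit 490000, nat_lit 1271250, nat_lit 1271250, [nat_lit 780000, nat_lit 1435000, nat_lit 1271250], [nat_lit 18, nat_lit 40, nat_lit 40, nat_lit 80]⟩, ⟨p064_k37, nat_lit 0, nat_lit 0, nat_lit 193, nat_lit 0, nat_lit 195215, [nat_lit 3689456000, nat_lit 6270816000, nat_lit 7745654000], [], [nat_lit 14046748104, nat_lit 15228928009, nat_lit 13315592872, nat_lit 14478537628, nat_lit 17690027825, nat_lit 19019430712, nat_lit 16902495345, nat_lit 18071268094], nat_lit 1271250, nat_lit 1271250, nat_lit 382400, nat_lit 490000, nat_lit 1271250, nat_lit 1271250, [nat_lit 1100000,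 nat_lit 1785000, nat_lit 1271250], [nat_lit 29, nat_lit 40, nat_lit 40, nat_lit 80, nat_lit 17, nat_lit 401, nat_lit 175, nat_lit 11]⟩,
 ⟨nat_lit 4472, nat_lit 5000, ⟨.ofNat (nat_lit 321407), .ofNat (nat_lit 349976), .ofNat (nat_lit 342823), .ofNat (nat_lit 371392), .ofNat (nat_lit 333552), .ofNat (nat_lit 360741), .ofNat (nat_lit 355106), .ofNat (nat_lit 382295)⟩, ⟨.ofNat (nat_lit 535713), .ofNat (nat_lit 607141), .ofNat (nat_lit 557141), .ofNat (nat_lit 628570), .ofNat (nat_lit 528122), .ofNat (nat_lit 596101), .ofNat (nat_lit 549689), .ofNat (nat_lit 617667)⟩⟩, [⟨nat_lit 0, nat_lit 100, nat_lit 89, nat_lit 86, nat_lit 1222858371⟩, ⟨nat_lit 4, nat_lit 97, nat_lit 94, nat_lit 100, nat_lit 91872984⟩, ⟨nat_lit 11, nat_lit 100, nat_lit 100, nat_lit 85, nat_lit 573025589⟩]⟩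
noncomputable def p064_l61 : Lf2 := ⟨nat_lit 0, nat_lit 10, [nat_lit 0, nat_lit 5, nat_lit 5, nat_lit 20], false, nat_lit 280, nat_lit 320, nat_lit 240, nat_lit 280, ⟨nat_lit 1000, nat_lit 0, nat_lit 0, nat_lit 0, nat_lit 0, nat_lit 0, nat_lit 0, nat_lit 0, nat_lit 0, nat_lit 0, nat_lit 0, nat_lit 0, nat_lit 0, nat_lit 0, nat_lit 0, nat_lit 0, false, false⟩,
 nat_lit 18512, nat_lit 0, nat_lit 0, nat_lit 5501, nat_lit 6977, nat_lit 10775, nat_lit 995, nat_lit 0, nat_lit 0, nat_lit 1386, nat_lit 0, nat_lit 0, nat_lit 0, nat_lit 0, nat_lit 0, nat_lit 0, nat_lit 0, nat_lit 0, [],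
 ⟨p064_k21, nat_lit 0, nat_lit 0, nat_lit 0, nat_lit 0, nat_lit 230487, [nat_lit 3282000000, nat_lit 6250000000, nat_lit 7968000000], [], [nat_lit 21901744813, nat_lit 23290083841, nat_lit 21316800013, nat_lit 22707055617, nat_lit 24758356496, nat_lit 26476369116, nat_lit 23955452154, nat_lit 25590839364], nat_lit 1271250, nat_lit 1271250, nat_lit 490000, nat_lit 780000, nat_lit 1271250, nat_lit 1271250, [nat_lit 780000, nat_lit 1435000, nat_lit 1271250], [nat_lit 18, nat_lit 40, nat_lit 40, nat_lit 80]⟩, ⟨p064_k37, nat_lit 0, nat_lit 0, nat_lit 213, nat_lit 0, nat_lit 287101, [nat_lit 4688000000, nat_lit 7968000000, nat_lit 9842000000], [], [nat_lit 16359023400, nat_lit 17886092200, nat_lit 15228348500, nat_lit 16665573000, nat_lit 19498669975, nat_lit 20823302950, nat_lit 18187608850, nat_lit 19589075300], nat_lit 1271250, nat_lit 1271250, nat_lit 490000, nat_lit 780000, nat_lit 1271250, nat_lit 1271250, [nat_lit 1100000,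 nat_lit 1785000, nat_lit 1271250], [nat_lit 29, nat_lit 40, nat_lit 40, nat_lit 80, nat_lit 17, nat_lit 401, nat_lit 175, nat_lit 11]⟩,
 zbF0, [⟨nat_lit 0, nat_lit 100, nat_lit 89, nat_lit 86, nat_lit 897164765⟩, ⟨nat_lit 4, nat_lit 100, nat_lit 93, nat_lit 97, nat_lit 723205711⟩]⟩
noncomputable def p064_l62 : Lf2 := ⟨nat_lit 0, nat_lit 10, [nat_lit 0, nat_lit 5, nat_lit 5, nat_lit 20], false, nat_lit 280, nat_lit 300, nat_lit 280, nat_lit 336, ⟨nat_lit 374, nat_lit 0, nat_lit 626, nat_lit 6, nat_lit 157, nat_lit 626, nat_lit 221, nat_lit 626, nat_lit 3391, nat_lit 215, nat_lit 232067, nat_lit 333, nat_lit 43786178, nat_lit 0, nat_lit 0, nat_lit 4688764, false, false⟩,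
 nat_lit 7117, nat_lit 0, nat_lit 0, nat_lit 2073, nat_lit 4210, nat_lit 4142, nat_lit 0, nat_lit 0, nat_lit 0, nat_lit 535, nat_lit 0, nat_lit 0, nat_lit 0, nat_lit 0, nat_lit 13, nat_lit 626000, nat_lit 0, nat_lit 0, [(nat_lit 15, [(nat_lit 6, nat_lit 626)])],
 ⟨p064_k21, nat_lit 0, nat_lit 0, nat_lit 0, nat_lit 0, nat_lit 104990, [nat_lit 1996948000, nat_lit 1160704801, nat_lit 2527200], [], [nat_lit 20072615440, nat_lit 20342525800, nat_lit 20065065421, nat_lit 20316389046, nat_lit 21082676320, nat_lit 21430056745, nat_lit 20985487305, nat_lit 21317407102], nat_lit 1271250, nat_lit 1271250, nat_lit 490000, nat_lit 780000, nat_lit 1271250, nat_lit 1271250, [nat_lit 780000, nat_lit 1435000, nat_lit 1271250], [nat_lit 18, nat_lit 40, nat_lit 40, nat_lit 80]⟩, ⟨p064_k37, nat_lit 0, nat_lit 0, nat_lit 168, nat_lit 0, nat_lit 130778, [nat_lit 1753312000, nat_lit 2980032000, nat_lit 3680908000], [], [nat_lit 7147553546, nat_lit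 7399501163, nat_lit 6661407814, nat_lit 6933971535, nat_lit 9954608340, nat_lit 10291602407, nat_lit 9326751740, nat_lit 9646597766], nat_lit 1271250, nat_lit 1271250, nat_lit 490000, nat_lit 780000, nat_lit 1271250, nat_lit 1271250, [nat_lit 1100000, nat_lit 1785000, nat_lit 1271250], [nat_lit 29, nat_lit 40, nat_lit 40, nat_lit 80, nat_lit 17, nat_lit 317, nat_lit 100, nat_lit 8]⟩,
 ⟨nat_lit 4873, nat_lit 5000, ⟨.ofNat (nat_lit 349998), .ofNat (nat_lit 421426), .ofNat (nat_lit 360712), .ofNat (nat_lit 432140), .ofNat (nat_lit 352678), .ofNat (nat_lit 423241), .ofNat (nat_lit 363406), .ofNat (nat_lit 433968)⟩, ⟨.ofNat (nat_lit 514284), .ofNat (nat_lit 549998), .ofNat (nat_lit 557141), .ofNat (nat_lit 592856), .ofNat (nat_lit 512387), .ofNat (nat_lit 547669), .ofNat (nat_lit 555299), .ofNat (nat_lit 590581)⟩⟩, [⟨nat_lit 4, nat_lit 100, nat_lit 98, nat_lit 99, nat_lit 45945467⟩, ⟨nat_lit 11, nat_lit 94, nat_lit 100, nat_lit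 96, nat_lit 369428313⟩]⟩
noncomputable def p064_l63 : Lf2 := ⟨nat_lit 0, nat_lit 10, [nat_lit 0, nat_lit 5, nat_lit 5, nat_lit 20], false, nat_lit 280, nat_lit 300, nat_lit 280, nat_lit 336, ⟨nat_lit 201, nat_lit 0, nat_lit 799, nat_lit 6, nat_lit 158, nat_lit 799, nat_lit 220, nat_lit 799, nat_lit 4405, nat_lit 216, nat_lit 232067, nat_lit 333, nat_lit 43796163, nat_lit 0, nat_lit 0, nat_lit 4691797, false, false⟩,
 nat_lit 5675, nat_lit 0, nat_lit 0, nat_lit 0, nat_lit 4009, nat_lit 3303, nat_lit 33, nat_lit 0, nat_lit 0, nat_lit 127, nat_lit 0, nat_lit 0, nat_lit 0, nat_lit 0, nat_lit 0, nat_lit 266050, nat_lit 0, nat_lit 0, [(nat_lit 15, [(nat_lit 4, nat_lit 357), (nat_lit 5, nat_lit 442)])],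
 ⟨p064_k40, nat_lit 0, nat_lit 0, nat_lit 0, nat_lit 0, nat_lit 130039, [nat_lit 1715003500, nat_lit 1271555900, nat_lit 414612034], [], [nat_lit 20230486788, nat_lit 20506201734, nat_lit 20269120042, nat_lit 20517489752, nat_lit 21264467116, nat_lit 21542359146, nat_lit 21242388110, nat_lit 21492658874], nat_lit 1271250, nat_lit 1271250, nat_lit 490000, nat_lit 780000, nat_lit 1271250, nat_lit 1271250, [nat_lit 631250, nat_lit 936250, nat_lit 1606250], [nat_lit 210, nat_lit 40, nat_lit 20, nat_lit 40]⟩, ⟨p064_k41, nat_lit 0, nat_lit 0, nat_lit 176, nat_lit 0, nat_lit 166145, [nat_lit 942288000, nat_lit 1256250000, nat_lit 1978242000], [], [nat_lit 4143040284, nat_lit 4316064869, nat_lit 3657308919, nat_lit 3833226494, nat_lit 6182083494, nat_lit 6419386751, nat_lit 5598977418, nat_lit 5823347972], nat_lit 1271250, nat_lit 1271250, nat_lit 490000, nat_lit 780000, nat_lit 1271250, nat_lit 1271250, [nat_lit 1100000, nat_lit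 1442500, nat_lit 1271250], [nat_lit 11, nat_lit 40, nat_lit 40, nat_lit 80, nat_lit 1, nat_lit 317, nat_lit 100, nat_lit 8]⟩,
 ⟨nat_lit 4743, nat_lit 4874, ⟨.ofNat (nat_lit 352678), .ofNat (nat_lit 423240), .ofNat (nat_lit 363405), .ofNat (nat_lit 433968), .ofNat (nat_lit 355363), .ofNat (nat_lit 425062), .ofNat (nat_lit 366107), .ofNat (nat_lit 435806)⟩, ⟨.ofNat (nat_lit 512387), .ofNat (nat_lit 547669), .ofNat (nat_lit 555299), .ofNat (nat_lit 590581), .ofNat (nat_lit 510469), .ofNat (nat_lit 545319), .ofNat (nat_lit 553445), .ofNat (nat_lit 588295)⟩⟩, [⟨nat_lit 0, nat_lit 100, nat_lit 89, nat_lit 86, nat_lit 18450210⟩, ⟨nat_lit 4, nat_lit 100, nat_lit 95, nat_lit 98, nat_lit 91874152⟩, ⟨nat_lit 11, nat_lit 100, nat_lit 100, nat_lit 100, nat_lit 239802984⟩]⟩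
noncomputable def p064_l64 : Lf2 := ⟨nat_lit 0, nat_lit 8, [nat_lit 50, nat_lit 5, nat_lit 5, nat_lit 20], false, nat_lit 280, nat_lit 300, nat_lit 280, nat_lit 336, ⟨nat_lit 434, nat_lit 0, nat_lit 566, nat_lit 6, nat_lit 159, nat_lit 566, nat_lit 219, nat_lit 566, nat_lit 5351, nat_lit 217, nat_lit 236017, nat_lit 334, nat_lit 43811337, nat_lit 0, nat_lit 0, nat_lit 4696166, false, false⟩,
 nat_lit 7040, nat_lit 0, nat_lit 0, nat_lit 0, nat_lit 5075, nat_lit 4097, nat_lit 41, nat_lit 0, nat_lit 0, nat_lit 724, nat_lit 0, nat_lit 0, nat_lit 0, nat_lit 0, nat_lit 0, nat_lit 134010, nat_lit 0, nat_lit 0, [(nat_lit 15, [(nat_lit 3, nat_lit 107), (nat_lit 4, nat_lit 459)])],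
 ⟨p064_k43, nat_lit 0, nat_lit 0, nat_lit 0, nat_lit 0, nat_lit 181027, [nat_lit 2223078600, nat_lit 1509913400, nat_lit 1963861200, nat_lit 2412823200], [], [nat_lit 21304101675, nat_lit 21945294875, nat_lit 21162021875, nat_lit 21749239575, nat_lit 22482596350, nat_lit 23132435600, nat_lit 22258788375, nat_lit 22836499575], nat_lit 1271250, nat_lit 1271250, nat_lit 490000, nat_lit 780000, nat_lit 1271250, nat_lit 1271250, [nat_lit 356250, nat_lit 631250, nat_lit 936250, nat_lit 1438750], [nat_lit 177, nat_lit 40, nat_lit 20, nat_lit 40]⟩, ⟨p064_k44, nat_lit 0, nat_lit 0, nat_lit 200, nat_lit 0, nat_lit 236739, [nat_lit 2034592000, nat_lit 2712500000, nat_lit 4271428000], [], [nat_lit 8872906061, nat_lit 9140025212, nat_lit 8417107626, nat_lit 8668992891, nat_lit 11003388960, nat_lit 11357427509, nat_lit 10436656580, nat_lit 10773244664], nat_lit 1271250, nat_lit 1271250, nat_lit 490000, nat_lit 780000, nat_lit 1271250,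 nat_lit 1271250, [nat_lit 1100000, nat_lit 1442500, nat_lit 1271250], [nat_lit 11, nat_lit 40, nat_lit 40, nat_lit 80, nat_lit 1, nat_lit 317, nat_lit 100, nat_lit 8]⟩,
 ⟨nat_lit 4472, nat_lit 4744, ⟨.ofNat (nat_lit 355356), .ofNat (nat_lit 425056), .ofNat (nat_lit 366099), .ofNat (nat_lit 435798), .ofNat (nat_lit 360756), .ofNat (nat_lit 428734), .ofNat (nat_lit 371538), .ofNat (nat_lit 439515)⟩, ⟨.ofNat (nat_lit 510469), .ofNat (nat_lit 545319), .ofNat (nat_lit 553445), .ofNat (nat_lit 588295), .ofNat (nat_lit 506556), .ofNat (nat_lit 540545), .ofNat (nat_lit 549689), .ofNat (nat_lit 583678)⟩⟩, [⟨nat_lit 0, nat_lit 100, nat_lit 87, nat_lit 86, nat_lit 98501794⟩, ⟨nat_lit 4, nat_lit 100, nat_lit 90, nat_lit 95, nat_lit 146337641⟩, ⟨nat_lit 11, nat_lit 94, nat_lit 100, nat_lit 96, nat_lit 322616250⟩]⟩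
noncomputable def p064_l65 : Lf2 := ⟨nat_lit 0, nat_lit 10, [nat_lit 0, nat_lit 5, nat_lit 5, nat_lit 20], false, nat_lit 280, nat_lit 300, nat_lit 280, nat_lit 336, ⟨nat_lit 245, nat_lit 0, nat_lit 755, nat_lit 6, nat_lit 159, nat_lit 755, nat_lit 219, nat_lit 755, nat_lit 5351, nat_lit 217, nat_lit 236017, nat_lit 334, nat_lit 43811337, nat_lit 0, nat_lit 0, nat_lit 4696166, false, false⟩,
 nat_lit 7049, nat_lit 0, nat_lit 0, nat_lit 0, nat_lit 4487, nat_lit 4103, nat_lit 0, nat_lit 0, nat_lit 0, nat_lit 0, nat_lit 0, nat_lit 0, nat_lit 0, nat_lit 0, nat_lit 0, nat_lit 183640, nat_lit 0, nat_lit 0, [(nat_lit 15, [(nat_lit 3, nat_lit 73), (nat_lit 4, nat_lit 682)])],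
 ⟨p064_k45, nat_lit 0, nat_lit 0, nat_lit 0, nat_lit 0, nat_lit 103114, [nat_lit 1876013101, nat_lit 1133498700, nat_lit 1401294300, nat_lit 1024393100], [], [nat_lit 20987665700, nat_lit 21567769856, nat_lit 20927544977, nat_lit 21460469133, nat_lit 22057844320, nat_lit 22629784976, nat_lit 21926781720, nat_lit 22451649624], nat_lit 1271250, nat_lit 1271250, nat_lit 490000, nat_lit 780000, nat_lit 1271250, nat_lit 1271250, [nat_lit 356250, nat_lit 631250, nat_lit 936250, nat_lit 1606250], [nat_lit 165, nat_lit 40, nat_lit 20, nat_lit 40]⟩, ⟨p064_k41, nat_lit 0, nat_lit 0, nat_lit 165, nat_lit 0, nat_lit 135076, [nat_lit 1148560000, nat_lit 1531250000, nat_lit 2411290000], [], [nat_lit 5620473587, nat_lit 5834074136, nat_lit 5013376302, nat_lit 5212964475, nat_lit 7594837720, nat_lit 7888103204, nat_lit 6866531446, nat_lit 7143767600], nat_lit 1271250, nat_lit 1271250, nat_lit 490000, nat_lit 780000, nat_lit 1271250, nat_lit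 1271250, [nat_lit 1100000, nat_lit 1442500, nat_lit 1271250], [nat_lit 11, nat_lit 40, nat_lit 40, nat_lit 80, nat_lit 1, nat_lit 317, nat_lit 100, nat_lit 8]⟩,
 ⟨nat_lit 4472, nat_lit 4744, ⟨.ofNat (nat_lit 355356), .ofNat (nat_lit 425056), .ofNat (nat_lit 366099), .ofNat (nat_lit 435798), .ofNat (nat_lit 360756), .ofNat (nat_lit 428734), .ofNat (nat_lit 371538), .ofNat (nat_lit 439515)⟩, ⟨.ofNat (nat_lit 510469), .ofNat (nat_lit 545319), .ofNat (nat_lit 553445), .ofNat (nat_lit 588295), .ofNat (nat_lit 506556), .ofNat (nat_lit 540545), .ofNat (nat_lit 549689), .ofNat (nat_lit 583678)⟩⟩, [⟨nat_lit 0, nat_lit 100, nat_lit 85, nat_lit 90, nat_lit 75030163⟩, ⟨nat_lit 4, nat_lit 100, nat_lit 90, nat_lit 95, nat_lit 128211162⟩, ⟨nat_lit 11, nat_lit 95, nat_lit 100, nat_lit 97, nat_lit 253674761⟩]⟩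
noncomputable def p064_l66 : Lf2 := ⟨nat_lit 0, nat_lit 10, [nat_lit 0, nat_lit 5, nat_lit 5, nat_lit 20], false, nat_lit 300, nat_lit 320, nat_lit 280, nat_lit 320, ⟨nat_lit 1000, nat_lit 0, nat_lit 0, nat_lit 0, nat_lit 0, nat_lit 0, nat_lit 0, nat_lit 0, nat_lit 0, nat_lit 0, nat_lit 0, nat_lit 0, nat_lit 0, nat_lit 0, nat_lit 0, nat_lit 0, false, false⟩,
 nat_lit 19256, nat_lit 0, nat_lit 0, nat_lit 0, nat_lit 6844, nat_lit 11208, nat_lit 935, nat_lit 0, nat_lit 0, nat_lit 1307, nat_lit 0, nat_lit 0, nat_lit 0, nat_lit 0, nat_lit 0, nat_lit 0, nat_lit 0, nat_lit 0, [],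
 ⟨p064_k21, nat_lit 0, nat_lit 0, nat_lit 0, nat_lit 0, nat_lit 191775, [nat_lit 3282000000, nat_lit 6250000000, nat_lit 7968000000], [], [nat_lit 23474451917, nat_lit 24768759117, nat_lit 22854130953, nat_lit 24082907349, nat_lit 24675998173, nat_lit 26342982352, nat_lit 23994046845, nat_lit 25489848208], nat_lit 1271250, nat_lit 1271250, nat_lit 490000, nat_lit 780000, nat_lit 1271250, nat_lit 1271250, [nat_lit 780000, nat_lit 1435000, nat_lit 1271250], [nat_lit 18, nat_lit 40, nat_lit 40, nat_lit 80]⟩, ⟨p064_k37, nat_lit 0, nat_lit 0, nat_lit 203, nat_lit 0, nat_lit 238879, [nat_lit 4688000000, nat_lit 7968000000, nat_lit 9842000000], [], [nat_lit 19642653292, nat_lit 20320161368, nat_lit 18246986132, nat_lit 18884047820, nat_lit 24068853248, nat_lit 25049808576, nat_lit 22498629008, nat_lit 23428747192], nat_lit 1271250, nat_lit 1271250, nat_lit 490000, nat_lit 780000, nat_lit 1271250, nat_lit 1271250, [nat_lit 1100000,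 nat_lit 1785000, nat_lit 1271250], [nat_lit 29, nat_lit 40, nat_lit 40, nat_lit 80, nat_lit 17, nat_lit 317, nat_lit 100, nat_lit 8]⟩,
 zbF0, [⟨nat_lit 4, nat_lit 100, nat_lit 93, nat_lit 97, nat_lit 768726301⟩, ⟨nat_lit 11, nat_lit 100, nat_lit 100, nat_lit 100, nat_lit 845153381⟩]⟩
noncomputable def p064_l67 : Lf2 := ⟨nat_lit 0, nat_lit 10, [nat_lit 0, nat_lit 5, nat_lit 5, nat_lit 20], false, nat_lit 280, nat_lit 300, nat_lit 280, nat_lit 328, ⟨nat_lit 768, nat_lit 0, nat_lit 232, nat_lit 6, nat_lit 162, nat_lit 232, nat_lit 216, nat_lit 232, nat_lit 3033, nat_lit 223, nat_lit 244017, nat_lit 336, nat_lit 43859622, nat_lit 0, nat_lit 0, nat_lit 4701721, false, false⟩,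
 nat_lit 10743, nat_lit 0, nat_lit 0, nat_lit 0, nat_lit 7437, nat_lit 6542, nat_lit 341, nat_lit 0, nat_lit 0, nat_lit 932, nat_lit 0, nat_lit 0, nat_lit 0, nat_lit 0, nat_lit 0, nat_lit 232000, nat_lit 0, nat_lit 0, [(nat_lit 15, [(nat_lit 6, nat_lit 232)])],
 ⟨p064_k21, nat_lit 0, nat_lit 0, nat_lit 0, nat_lit 0, nat_lit 165674, [nat_lit 2747936000, nat_lit 4267513601, nat_lit 4900310400], [], [nat_lit 21882165203, nat_lit 22605350862, nat_lit 21206416403, nat_lit 21888742775, nat_lit 23367527854, nat_lit 24324998774, nat_lit 22544839859, nat_lit 23454816456], nat_lit 1271250, nat_lit 1271250, nat_lit 490000, nat_lit 780000, nat_lit 1271250, nat_lit 1271250, [nat_lit 780000, nat_lit 1435000, nat_lit 1271250], [nat_lit 18, nat_lit 40, nat_lit 40, nat_lit 80]⟩, ⟨p064_k38, nat_lit 0, nat_lit 0, nat_lit 191, nat_lit 0, nat_lit 194243, [nat_lit 3600384000, nat_lit 6119424000, nat_lit 7558656000], [], [nat_lit 16383610681, nat_lit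 16831461288, nat_lit 15690557302, nat_lit 16113590860, nat_lit 18937769694, nat_lit 19317542502, nat_lit 18142325349, nat_lit 18543320366], nat_lit 1271250, nat_lit 1271250, nat_lit 490000, nat_lit 780000, nat_lit 1271250, nat_lit 1271250, [nat_lit 1100000, nat_lit 1785000, nat_lit 1271250], [nat_lit 29, nat_lit 40, nat_lit 40, nat_lit 80, nat_lit 17, nat_lit 317, nat_lit 100, nat_lit 8]⟩,
 ⟨nat_lit 4743, nat_lit 5000, ⟨.ofNat (nat_lit 360709), .ofNat (nat_lit 432135), .ofNat (nat_lit 371422), .ofNat (nat_lit 442849), .ofNat (nat_lit 366104), .ofNat (nat_lit 435802), .ofNat (nat_lit 376847), .ofNat (nat_lit 446544)⟩, ⟨.ofNat (nat_lit 514284), .ofNat (nat_lit 549998), .ofNat (nat_lit 535713), .ofNat (nat_lit 571427), .ofNat (nat_lit 510469), .ofNat (nat_lit 545319), .ofNat (nat_lit 531957), .ofNat (nat_lit 566807)⟩⟩, [⟨nat_lit 0, nat_lit 100, nat_lit 91, nat_lit 91, nat_lit 207319243⟩, ⟨nat_lit 4, nat_lit 100, nat_lit 94,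 nat_lit 92, nat_lit 219692922⟩, ⟨nat_lit 11, nat_lit 96, nat_lit 100, nat_lit 95, nat_lit 478578512⟩]⟩
noncomputable def p064_l68 : Lf2 := ⟨nat_lit 0, nat_lit 10, [nat_lit 0, nat_lit 5, nat_lit 5, nat_lit 20], false, nat_lit 280, nat_lit 292, nat_lit 280, nat_lit 328, ⟨nat_lit 533, nat_lit 0, nat_lit 467, nat_lit 6, nat_lit 163, nat_lit 467, nat_lit 212, nat_lit 467, nat_lit 5873, nat_lit 231, nat_lit 252150, nat_lit 338, nat_lit 44099048, nat_lit 0, nat_lit 0, nat_lit 4687002, false, false⟩,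
 nat_lit 7762, nat_lit 0, nat_lit 0, nat_lit 0, nat_lit 5595, nat_lit 4727, nat_lit 417, nat_lit 0, nat_lit 0, nat_lit 609, nat_lit 0, nat_lit 0, nat_lit 0, nat_lit 0, nat_lit 0, nat_lit 115490, nat_lit 0, nat_lit 0, [(nat_lit 15, [(nat_lit 3, nat_lit 18), (nat_lit 4, nat_lit 449)])],
 ⟨p064_k39, nat_lit 0, nat_lit 0, nat_lit 0, nat_lit 0, nat_lit 208472, [nat_lit 3158598001, nat_lit 3071001600, nat_lit 3573074200], [], [nat_lit 21417146920, nat_lit 22266333520, nat_lit 21075529439, nat_lit 21845970570, nat_lit 22285698102, nat_lit 23113538543, nat_lit 21866073431, nat_lit 22654612162], nat_lit 1271250, nat_lit 1271250, nat_lit 490000, nat_lit 780000, nat_lit 1271250, nat_lit 1271250, [nat_lit 780000, nat_lit 1435000, nat_lit 1271250], [nat_lit 18, nat_lit 40, nat_lit 40, nat_lit 80]⟩, ⟨p064_k38, nat_lit 0, nat_lit 0, nat_lit 216, nat_lit 0, nat_lit 256846, [nat_lit 2498704000, nat_lit 4246944000, nat_lit 5245786000], [],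 [nat_lit 11484492899, nat_lit 11801859103, nat_lit 10966445262, nat_lit 11266023435, nat_lit 13299091937, nat_lit 13561471195, nat_lit 12683023154, nat_lit 12930741572], nat_lit 1271250, nat_lit 1271250, nat_lit 490000, nat_lit 780000, nat_lit 1271250, nat_lit 1271250, [nat_lit 1100000, nat_lit 1785000, nat_lit 1271250], [nat_lit 29, nat_lit 40, nat_lit 40, nat_lit 80, nat_lit 17, nat_lit 317, nat_lit 100, nat_lit 8]⟩,
 ⟨nat_lit 4472, nat_lit 4744, ⟨.ofNat (nat_lit 366099), .ofNat (nat_lit 435798), .ofNat (nat_lit 376841), .ofNat (nat_lit 446540), .ofNat (nat_lit 371538), .ofNat (nat_lit 439515), .ofNat (nat_lit 382319), .ofNat (nat_lit 450297)⟩, ⟨.ofNat (nat_lit 510469), .ofNat (nat_lit 531379), .ofNat (nat_lit 531957), .ofNat (nat_lit 552867), .ofNat (nat_lit 506556), .ofNat (nat_lit 526949), .ofNat (nat_lit 528122), .ofNat (nat_lit 548516)⟩⟩, [⟨nat_lit 0, nat_lit 100, nat_lit 88, nat_lit 91, nat_lit 159723909⟩, ⟨nat_lit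 16, nat_lit 93, nat_lit 100, nat_lit 97, nat_lit 213742845⟩, ⟨nat_lit 11, nat_lit 95, nat_lit 100, nat_lit 93, nat_lit 343446283⟩]⟩
noncomputable def p064_l69 : Lf2 := ⟨nat_lit 0, nat_lit 8, [nat_lit 50, nat_lit 5, nat_lit 5, nat_lit 20], false, nat_lit 280, nat_lit 300, nat_lit 280, nat_lit 336, ⟨nat_lit 1000, nat_lit 0, nat_lit 0, nat_lit 0, nat_lit 0, nat_lit 0, nat_lit 0, nat_lit 0, nat_lit 0, nat_lit 0, nat_lit 0, nat_lit 0, nat_lit 0, nat_lit 0, nat_lit 0, nat_lit 0, false, false⟩,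
 nat_lit 13342, nat_lit 0, nat_lit 0, nat_lit 0, nat_lit 7029, nat_lit 8125, nat_lit 979, nat_lit 0, nat_lit 0, nat_lit 1282, nat_lit 0, nat_lit 0, nat_lit 0, nat_lit 0, nat_lit 0, nat_lit 0, nat_lit 0, nat_lit 0, [],
 ⟨p064_k34, nat_lit 0, nat_lit 0, nat_lit 0, nat_lit 0, nat_lit 102554, [nat_lit 3282000000, nat_lit 6250000000, nat_lit 7968000000], [], [nat_lit 21955032301, nat_lit 22652102479, nat_lit 21359822701, nat_lit 22021032625, nat_lit 23173163622, nat_lit 24002902358, nat_lit 22525213365, nat_lit 23226542598], nat_lit 1271250, nat_lit 1271250, nat_lit 490000, nat_lit 780000, nat_lit 1271250, nat_lit 1271250, [nat_lit 780000, nat_lit 1435000, nat_lit 1271250], [nat_lit 18, nat_lit 40, nat_lit 40, nat_lit 80]⟩, ⟨p064_k36, nat_lit 0, nat_lit 0, nat_lit 166, nat_lit 0, nat_lit 120432, [nat_lit 4688000000, nat_lit 7968000000, nat_lit 9842000000], [], [nat_lit 21155421438, nat_lit 21724764000, nat_lit 20331032125, nat_lit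 20869249750, nat_lit 25311192126, nat_lit 25832763500, nat_lit 24385077401, nat_lit 24878520500], nat_lit 1271250, nat_lit 1271250, nat_lit 490000, nat_lit 780000, nat_lit 1271250, nat_lit 1271250, [nat_lit 1100000, nat_lit 1785000, nat_lit 1271250], [nat_lit 29, nat_lit 40, nat_lit 40, nat_lit 80, nat_lit 17, nat_lit 317, nat_lit 100, nat_lit 8]⟩,
 zbF0, [⟨nat_lit 0, nat_lit 100, nat_lit 91, nat_lit 91, nat_lit 169473591⟩, ⟨nat_lit 11, nat_lit 94, nat_lit 100, nat_lit 96, nat_lit 650524448⟩]⟩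
noncomputable def p064_l70 : Lf2 := ⟨nat_lit 0, nat_lit 8, [nat_lit 50, nat_lit 5, nat_lit 5, nat_lit 20], false, nat_lit 280, nat_lit 300, nat_lit 280, nat_lit 336, ⟨nat_lit 825, nat_lit 0, nat_lit 175, nat_lit 6, nat_lit 163, nat_lit 175, nat_lit 223, nat_lit 175, nat_lit 5351, nat_lit 217, nat_lit 252150, nat_lit 338, nat_lit 43177733, nat_lit 0, nat_lit 0, nat_lit 4766243, false, false⟩,
 nat_lit 10338, nat_lit 0, nat_lit 0, nat_lit 0, nat_lit 7452, nat_lit 6295, nat_lit 54, nat_lit 0, nat_lit 0, nat_lit 1257, nat_lit 0, nat_lit 0, nat_lit 0, nat_lit 0, nat_lit 0, nat_lit 36890, nat_lit 0, nat_lit 0, [(nat_lit 15, [(nat_lit 3, nat_lit 98), (nat_lit 4, nat_lit 77)])],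
 ⟨p064_k23, nat_lit 0, nat_lit 0, nat_lit 0, nat_lit 0, nat_lit 148304, [nat_lit 4806289200, nat_lit 5075590400], [], [nat_lit 22844042962, nat_lit 23638314832, nat_lit 22300064494, nat_lit 22966837994, nat_lit 24336840554, nat_lit 25295532624, nat_lit 23479221823, nat_lit 24374329588], nat_lit 1271250, nat_lit 1271250, nat_lit 490000, nat_lit 780000, nat_lit 1271250, nat_lit 1271250, [nat_lit 780000, nat_lit 1435000], [nat_lit 49, nat_lit 40, nat_lit 40, nat_lit 80]⟩, ⟨p064_k36, nat_lit 0, nat_lit 0, nat_lit 191, nat_lit 0, nat_lit 183097, [nat_lit 3867600000, nat_lit 6573600000, nat_lit 8119650000], [], [nat_lit 17088921275, nat_lit 17582567350, nat_lit 16650524873, nat_lit 17056758040, nat_lit 20529838429, nat_lit 20953092080, nat_lit 19851070113, nat_lit 20247015592], nat_lit 1271250, nat_lit 1271250, nat_lit 490000, nat_lit 780000, nat_lit 1271250, nat_lit 1271250, [nat_lit 1100000, nat_lit 1785000, nat_lit 1271250],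 [nat_lit 29, nat_lit 40, nat_lit 40, nat_lit 80, nat_lit 17, nat_lit 317, nat_lit 100, nat_lit 8]⟩,
 ⟨nat_lit 4472, nat_lit 4744, ⟨.ofNat (nat_lit 366099), .ofNat (nat_lit 435798), .ofNat (nat_lit 376841), .ofNat (nat_lit 446540), .ofNat (nat_lit 371538), .ofNat (nat_lit 439515), .ofNat (nat_lit 382319), .ofNat (nat_lit 450297)⟩, ⟨.ofNat (nat_lit 531957), .ofNat (nat_lit 566807), .ofNat (nat_lit 553445), .ofNat (nat_lit 588295), .ofNat (nat_lit 528122), .ofNat (nat_lit 562111), .ofNat (nat_lit 549689), .ofNat (nat_lit 583678)⟩⟩, [⟨nat_lit 0, nat_lit 100, nat_lit 87, nat_lit 95, nat_lit 205325026⟩, ⟨nat_lit 16, nat_lit 92, nat_lit 99, nat_lit 100, nat_lit 170566556⟩, ⟨nat_lit 23, nat_lit 100, nat_lit 94, nat_lit 97, nat_lit 512996182⟩]⟩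
noncomputable def p064_l71 : Lf2 := ⟨nat_lit 0, nat_lit 10, [nat_lit 0, nat_lit 5, nat_lit 5, nat_lit 20], false, nat_lit 280, nat_lit 300, nat_lit 280, nat_lit 336, ⟨nat_lit 1000, nat_lit 0, nat_lit 0, nat_lit 0, nat_lit 0, nat_lit 0, nat_lit 0, nat_lit 0, nat_lit 0, nat_lit 0, nat_lit 0, nat_lit 0, nat_lit 0, nat_lit 0, nat_lit 0, nat_lit 0, false, false⟩,
 nat_lit 13673, nat_lit 0, nat_lit 0, nat_lit 0, nat_lit 8557, nat_lit 8327, nat_lit 0, nat_lit 0, nat_lit 0, nat_lit 1185, nat_lit 0, nat_lit 0, nat_lit 0, nat_lit 0, nat_lit 0, nat_lit 0, nat_lit 0, nat_lit 0, [],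
 ⟨p064_k21, nat_lit 0, nat_lit 0, nat_lit 0, nat_lit 0, nat_lit 74771, [nat_lit 3282000000, nat_lit 6250000000, nat_lit 7968000000], [], [nat_lit 22729924658, nat_lit 24455299226, nat_lit 21928261407, nat_lit 23560544672, nat_lit 24231754781, nat_lit 26257835134, nat_lit 23348607704, nat_lit 25076854333], nat_lit 1271250, nat_lit 1271250, nat_lit 490000, nat_lit 780000, nat_lit 1271250, nat_lit 1271250, [nat_lit 780000, nat_lit 1435000, nat_lit 1271250], [nat_lit 18, nat_lit 40, nat_lit 40, nat_lit 80]⟩, ⟨p064_k38, nat_lit 0, nat_lit 0, nat_lit 153, nat_lit 0, nat_lit 87895, [nat_lit 4688000000, nat_lit 7968000000, nat_lit 9842000000], [], [nat_lit 21594558930, nat_lit 22170988561, nat_lit 20730089080, nat_lit 21274783027, nat_lit 25546836672, nat_lit 26008846208, nat_lit 24512891320, nat_lit 25011850636], nat_lit 1271250, nat_lit 1271250, nat_lit 490000, nat_lit 780000, nat_lit 1271250, nat_lit 1271250, [nat_lit 1100000,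 nat_lit 1785000, nat_lit 1271250], [nat_lit 29, nat_lit 40, nat_lit 40, nat_lit 80, nat_lit 17, nat_lit 317, nat_lit 100, nat_lit 8]⟩,
 zbF0, [⟨nat_lit 0, nat_lit 100, nat_lit 87, nat_lit 95, nat_lit 307110228⟩, ⟨nat_lit 4, nat_lit 97, nat_lit 94, nat_lit 100, nat_lit 186187157⟩, ⟨nat_lit 19, nat_lit 100, nat_lit 81, nat_lit 96, nat_lit 34544518⟩, ⟨nat_lit 23, nat_lit 100, nat_lit 94, nat_lit 97, nat_lit 575408581⟩]⟩
noncomputable def p064_l72 : Lf2 := ⟨nat_lit 0, nat_lit 10, [nat_lit 0, nat_lit 5, nat_lit 5, nat_lit 20], false, nat_lit 300, nat_lit 320, nat_lit 280, nat_lit 320, ⟨nat_lit 1000, nat_lit 0, nat_lit 0, nat_lit 0, nat_lit 0, nat_lit 0, nat_lit 0, nat_lit 0, nat_lit 0, nat_lit 0, nat_lit 0, nat_lit 0, nat_lit 0, nat_lit 0, nat_lit 0, nat_lit 0, false, false⟩,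
 nat_lit 16072, nat_lit 0, nat_lit 0, nat_lit 0, nat_lit 9877, nat_lit 9788, nat_lit 281, nat_lit 0, nat_lit 0, nat_lit 1350, nat_lit 0, nat_lit 0, nat_lit 0, nat_lit 0, nat_lit 0, nat_lit 0, nat_lit 0, nat_lit 0, [],
 ⟨p064_k21, nat_lit 0, nat_lit 0, nat_lit 0, nat_lit 0, nat_lit 174309, [nat_lit 3282000000, nat_lit 6250000000, nat_lit 7968000000], [], [nat_lit 25450445336, nat_lit 26252168199, nat_lit 24210312624, nat_lit 24967947896, nat_lit 27237415696, nat_lit 28311109006, nat_lit 25755197954, nat_lit 26774050059], nat_lit 1271250, nat_lit 1271250, nat_lit 490000, nat_lit 780000, nat_lit 1271250, nat_lit 1271250, [nat_lit 780000, nat_lit 1435000, nat_lit 1271250], [nat_lit 18, nat_lit 40, nat_lit 40, nat_lit 80]⟩, ⟨p064_k38, nat_lit 0, nat_lit 0, nat_lit 191, nat_lit 0, nat_lit 204902, [nat_lit 4688000000, nat_lit 7968000000, nat_lit 9842000000], [], [nat_lit 19893536548, nat_lit 20521224634, nat_lit 18739177270, nat_lit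 19330712338, nat_lit 24128552336, nat_lit 25027124944, nat_lit 22821450112, nat_lit 23674607136], nat_lit 1271250, nat_lit 1271250, nat_lit 490000, nat_lit 780000, nat_lit 1271250, nat_lit 1271250, [nat_lit 1100000, nat_lit 1785000, nat_lit 1271250], [nat_lit 29, nat_lit 40, nat_lit 40, nat_lit 80, nat_lit 17, nat_lit 317, nat_lit 100, nat_lit 8]⟩,
 zbF0, [⟨nat_lit 0, nat_lit 100, nat_lit 91, nat_lit 91, nat_lit 79275129⟩, ⟨nat_lit 4, nat_lit 100, nat_lit 97, nat_lit 98, nat_lit 473230330⟩, ⟨nat_lit 11, nat_lit 100, nat_lit 100, nat_lit 100, nat_lit 817085532⟩]⟩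
noncomputable def p064_l73 : Lf2 := ⟨nat_lit 0, nat_lit 10, [nat_lit 0, nat_lit 5, nat_lit 5, nat_lit 20], false, nat_lit 300, nat_lit 312, nat_lit 280, nat_lit 320, ⟨nat_lit 1000, nat_lit 0, nat_lit 0, nat_lit 0, nat_lit 0, nat_lit 0, nat_lit 0, nat_lit 0, nat_lit 0, nat_lit 0, nat_lit 0, nat_lit 0, nat_lit 0, nat_lit 0, nat_lit 0, nat_lit 0, false, false⟩,
 nat_lit 14085, nat_lit 0, nat_lit 0, nat_lit 4023, nat_lit 6048, nat_lit 8577, nat_lit 985, nat_lit 0, nat_lit 0, nat_lit 1301, nat_lit 0, nat_lit 0, nat_lit 0, nat_lit 0, nat_lit 0, nat_lit 0, nat_lit 0, nat_lit 0, [],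
 ⟨p064_k39, nat_lit 0, nat_lit 0, nat_lit 0, nat_lit 0, nat_lit 219165, [nat_lit 3282000000, nat_lit 6250000000, nat_lit 7968000000], [], [nat_lit 23382989764, nat_lit 24072842376, nat_lit 22895542242, nat_lit 23518366055, nat_lit 24144041065, nat_lit 24955937501, nat_lit 23572867542, nat_lit 24323935927], nat_lit 1271250, nat_lit 1271250, nat_lit 490000, nat_lit 780000, nat_lit 1271250, nat_lit 1271250, [nat_lit 780000, nat_lit 1435000, nat_lit 1271250], [nat_lit 18, nat_lit 40, nat_lit 40, nat_lit 80]⟩, ⟨p064_k38, nat_lit 0, nat_lit 0, nat_lit 218, nat_lit 0, nat_lit 270941, [nat_lit 4688000000, nat_lit 7968000000, nat_lit 9842000000], [], [nat_lit 20809529805, nat_lit 21394730561, nat_lit 19895455330, nat_lit 20449280864, nat_lit 23598005753, nat_lit 24171493012, nat_lit 22654197099, nat_lit 23196091748], nat_lit 1271250, nat_lit 1271250, nat_lit 490000, nat_lit 780000, nat_lit 1271250, nat_lit 1271250, [nat_lit 1100000,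 nat_lit 1785000, nat_lit 1271250], [nat_lit 29, nat_lit 40, nat_lit 40, nat_lit 80, nat_lit 17, nat_lit 317, nat_lit 100, nat_lit 8]⟩,
 zbF0, [⟨nat_lit 0, nat_lit 100, nat_lit 88, nat_lit 91, nat_lit 180030486⟩, ⟨nat_lit 16, nat_lit 91, nat_lit 91, nat_lit 100, nat_lit 600510956⟩, ⟨nat_lit 11, nat_lit 100, nat_lit 100, nat_lit 100, nat_lit 600727740⟩]⟩
noncomputable def b_V_700_600_20_44 : St := ⟨true, nat_lit 1, nat_lit 1, nat_lit 1, nat_lit 120, nat_lit 300, nat_lit 320, nat_lit 260, nat_lit 280, nat_lit 64, nat_lit 120, nat_lit 80, nat_lit 120, nat_lit 280, nat_lit 320, nat_lit 240, nat_lit 352, nat_lit 20, nat_lit 40, nat_lit 0, nat_lit 600, nat_lit 0, nat_lit 0⟩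
theorem d_V_700_600_20_44 (h : EB TB.env) : Dead b_V_700_600_20_44 := chkB_sound0 h (T :=
(.trX (nat_lit 23) (nat_lit 100) (nat_lit 80) (nat_lit 100) (nat_lit 336) (.spl (nat_lit 2) (nat_lit 80)
(.trX (nat_lit 23) (nat_lit 100) (nat_lit 95) (nat_lit 87) (nat_lit 300) (.spl (nat_lit 3) (nat_lit 100)
(.trX (nat_lit 16) (nat_lit 100) (nat_lit 100) (nat_lit 100) (nat_lit 300) (.leaf p064_l59))
(.leaf p064_l60)))
(.spl (nat_lit 5) (nat_lit 280)
(.leaf p064_l61)
(.spl (nat_lit 1) (nat_lit 270)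
(.spl (nat_lit 4) (nat_lit 300)
(.spl (nat_lit 0) (nat_lit 310)
(.spl (nat_lit 0) (nat_lit 305)
(.leaf p064_l62)
(.leaf p064_l63))
(.spl (nat_lit 6) (nat_lit 32)
(.leaf p064_l64)
(.leaf p064_l65)))
(.trX (nat_lit 23) (nat_lit 94) (nat_lit 88) (nat_lit 100) (nat_lit 320) (.leaf p064_l66)))
(.spl (nat_lit 4) (nat_lit 300)
(.spl (nat_lit 3) (nat_lit 100)
(.trX (nat_lit 19) (nat_lit 100) (nat_lit 82) (nat_lit 92) (nat_lit 328) (.spl (nat_lit 0) (nat_lit 310)
(.leaf p064_l67)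
(.trX (nat_lit 16) (nat_lit 93) (nat_lit 100) (nat_lit 97) (nat_lit 292) (.leaf p064_l68))))
(.spl (nat_lit 6) (nat_lit 32)
(.spl (nat_lit 0) (nat_lit 310)
(.leaf p064_l69)
(.leaf p064_l70))
(.leaf p064_l71)))
(.trX (nat_lit 23) (nat_lit 94) (nat_lit 88) (nat_lit 100) (nat_lit 320) (.spl (nat_lit 0) (nat_lit 310)
(.leaf p064_l72)
(.trX (nat_lit 16) (nat_lit 91) (nat_lit 91) (nat_lit 100) (nat_lit 312) (.leaf p064_l73)))))))))) (by decide +kernel)
noncomputable def p064_l74 : Lf2 := ⟨nat_lit 0, nat_lit 5, [nat_lit 4, nat_lit 5, nat_lit 5, nat_lit 20], false, nat_lit 240, nat_lit 280, nat_lit 0, nat_lit 364, ⟨nat_lit 24, nat_lit 976, nat_lit 0, nat_lit 6, nat_lit 207, nat_lit 976, nat_lit 202, nat_lit 0, nat_lit 0, nat_lit 0, nat_lit 0, nat_lit 0, nat_lit 41843089, nat_lit 12817335, nat_lit 12339576, nat_lit 4970694, false, false⟩,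
 nat_lit 134, nat_lit 6099, nat_lit 0, nat_lit 0, nat_lit 3966, nat_lit 70, nat_lit 0, nat_lit 0, nat_lit 0, nat_lit 46, nat_lit 0, nat_lit 0, nat_lit 0, nat_lit 0, nat_lit 0, nat_lit 976000, nat_lit 0, nat_lit 0, [(nat_lit 12, [(nat_lit 2, nat_lit 976)])],
 ⟨p064_k46, nat_lit 0, nat_lit 0, nat_lit 83, nat_lit 0, nat_lit 181286, [nat_lit 2023896960, nat_lit 2809785601, nat_lit 798774400], [], [nat_lit 16140552704, nat_lit 16819997614, nat_lit 19636774800, nat_lit 20187895294, nat_lit 18484419504, nat_lit 19101288304, nat_lit 21537504072, nat_lit 22040185368], nat_lit 1271250, nat_lit 1271250, nat_lit 780000, nat_lit 1762500, nat_lit 1271250, nat_lit 1271250, [nat_lit 780000, nat_lit 1100000, nat_lit 1785000], [nat_lit 36, nat_lit 40, nat_lit 40, nat_lit 80, nat_lit 7, nat_lit 272, nat_lit 60, nat_lit 8]⟩, ⟨p064_k9, nat_lit 0, nat_lit 0, nat_lit 293, nat_lit 0, nat_lit 228793, [nat_lit 112512000, nat_lit 150000000, nat_lit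 236208000], [], [nat_lit 886864408, nat_lit 849278748, nat_lit 838957028, nat_lit 855896568, nat_lit 944468937, nat_lit 956572890, nat_lit 1024647792, nat_lit 994963549], nat_lit 1271250, nat_lit 1271250, nat_lit 780000, nat_lit 1762500, nat_lit 0, nat_lit 2570750, [nat_lit 1100000, nat_lit 1442500, nat_lit 1271250], [nat_lit 11, nat_lit 40, nat_lit 40, nat_lit 80, nat_lit 1, nat_lit 456, nat_lit 225, nat_lit 13]⟩,
 ⟨nat_lit 5244, nat_lit 5478, ⟨.ofNat (nat_lit 392847), .ofNat (nat_lit 617638), .ofNat (nat_lit 414204), .ofNat (nat_lit 638993), .ofNat (nat_lit 396427), .ofNat (nat_lit 615933), .ofNat (nat_lit 417813), .ofNat (nat_lit 637316)⟩, ⟨.ofNat (nat_lit 446789), .ofNat (nat_lit 521722), .ofNat (nat_lit 489503), .ofNat (nat_lit 564436), .ofNat (nat_lit 444857), .ofNat (nat_lit 518028), .ofNat (nat_lit 487628), .ofNat (nat_lit 560799)⟩⟩, [⟨nat_lit 7, nat_lit 72, nat_lit 100, nat_lit 89, nat_lit 7448364⟩]⟩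
noncomputable def p064_l75 : Lf2 := ⟨nat_lit 0, nat_lit 2, [nat_lit 10, nat_lit 5, nat_lit 5, nat_lit 20], false, nat_lit 280, nat_lit 336, nat_lit 0, nat_lit 160, ⟨nat_lit 1000, nat_lit 0, nat_lit 0, nat_lit 0, nat_lit 0, nat_lit 0, nat_lit 0, nat_lit 0, nat_lit 0, nat_lit 0, nat_lit 0, nat_lit 0, nat_lit 0, nat_lit 0, nat_lit 0, nat_lit 0, false, false⟩,
 nat_lit 7058, nat_lit 3005, nat_lit 0, nat_lit 10459, nat_lit 6403, nat_lit 3736, nat_lit 1534, nat_lit 0, nat_lit 0, nat_lit 1861, nat_lit 0, nat_lit 0, nat_lit 0, nat_lit 0, nat_lit 0, nat_lit 0, nat_lit 0, nat_lit 0, [],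
 ⟨p064_k47, nat_lit 0, nat_lit 0, nat_lit 114, nat_lit 0, nat_lit 175423, [nat_lit 3282000000, nat_lit 4688000000, nat_lit 6250000000], [], [nat_lit 19665225118, nat_lit 20353586086, nat_lit 20026296364, nat_lit 20723385469, nat_lit 23760147169, nat_lit 24385081700, nat_lit 23918043961, nat_lit 24504745093], nat_lit 1271250, nat_lit 1271250, nat_lit 780000, nat_lit 1100001, nat_lit 1271250, nat_lit 1271250, [nat_lit 780000, nat_lit 1100000, nat_lit 1442500], [nat_lit 59, nat_lit 40, nat_lit 40, nat_lit 80, nat_lit 3, nat_lit 249, nat_lit 40, nat_lit 8]⟩, ⟨p064_k48, nat_lit 0, nat_lit 0, nat_lit 226, nat_lit 0, nat_lit 220812, [nat_lit 4688000000, nat_lit 6250000000, nat_lit 7968000000], [], [nat_lit 36631078240, nat_lit 34655713072, nat_lit 32680347904, nat_lit 31684591785, nat_lit 30180102185, nat_lit 30936713456, nat_lit 30797443936, nat_lit 31569019264], nat_lit 1271250, nat_lit 1271250, nat_lit 780000, nat_lit 1100001,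 nat_lit 0, nat_lit 1100001, [nat_lit 1100000, nat_lit 1442500, nat_lit 1271250], [nat_lit 9, nat_lit 40, nat_lit 40, nat_lit 80, nat_lit 2, nat_lit 317, nat_lit 100, nat_lit 11]⟩,
 zbF0, [⟨nat_lit 16, nat_lit 100, nat_lit 80, nat_lit 100, nat_lit 617658786⟩]⟩
noncomputable def p064_l76 : Lf2 := ⟨nat_lit 0, nat_lit 2, [nat_lit 10, nat_lit 5, nat_lit 5, nat_lit 20], false, nat_lit 280, nat_lit 336, nat_lit 160, nat_lit 364, ⟨nat_lit 576, nat_lit 424, nat_lit 0, nat_lit 6, nat_lit 177, nat_lit 424, nat_lit 237, nat_lit 0, nat_lit 0, nat_lit 0, nat_lit 0, nat_lit 0, nat_lit 41200897, nat_lit 9939623, nat_lit 15859480, nat_lit 4970388, false, false⟩,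
 nat_lit 8737, nat_lit 0, nat_lit 0, nat_lit 3143, nat_lit 5559, nat_lit 4625, nat_lit 802, nat_lit 0, nat_lit 0, nat_lit 1032, nat_lit 0, nat_lit 0, nat_lit 0, nat_lit 0, nat_lit 0, nat_lit 424000, nat_lit 0, nat_lit 0, [(nat_lit 12, [(nat_lit 2, nat_lit 424)])],
 ⟨p064_k47, nat_lit 0, nat_lit 0, nat_lit 114, nat_lit 0, nat_lit 175423, [nat_lit 2735447041, nat_lit 3687292161, nat_lit 4293664000], [], [nat_lit 19686295454, nat_lit 20324588232, nat_lit 20091774486, nat_lit 20691513263, nat_lit 23250259941, nat_lit 23791289991, nat_lit 23461063204, nat_lit 24008723090], nat_lit 1271250, nat_lit 1271250, nat_lit 780000, nat_lit 1100001, nat_lit 1271250, nat_lit 1271250, [nat_lit 780000, nat_lit 1100000, nat_lit 1442500], [nat_lit 59, nat_lit 40, nat_lit 40, nat_lit 80, nat_lit 3, nat_lit 249, nat_lit 40, nat_lit 8]⟩, ⟨p064_k48, nat_lit 0, nat_lit 0, nat_lit 163, nat_lit 0, nat_lit 220812, [nat_lit 2700288000, nat_lit 3600000000,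 nat_lit 4589568000], [], [nat_lit 13747318412, nat_lit 11442745662, nat_lit 15795473716, nat_lit 13523571966, nat_lit 14901606551, nat_lit 15398260166, nat_lit 14771175800, nat_lit 15287038789], nat_lit 1271250, nat_lit 1271250, nat_lit 780000, nat_lit 1100001, nat_lit 1271250, nat_lit 1271250, [nat_lit 1100000, nat_lit 1442500, nat_lit 1271250], [nat_lit 9, nat_lit 40, nat_lit 40, nat_lit 80, nat_lit 2, nat_lit 373, nat_lit 150, nat_lit 12]⟩,
 ⟨nat_lit 5244, nat_lit 5478, ⟨.ofNat (nat_lit 392847), .ofNat (nat_lit 467779), .ofNat (nat_lit 414204), .ofNat (nat_lit 489134), .ofNat (nat_lit 396427), .ofNat (nat_lit 469597), .ofNat (nat_lit 417813), .ofNat (nat_lit 490981)⟩, ⟨.ofNat (nat_lit 521722), .ofNat (nat_lit 626629), .ofNat (nat_lit 564436), .ofNat (nat_lit 669340), .ofNat (nat_lit 518028), .ofNat (nat_lit 620468), .ofNat (nat_lit 560799), .ofNat (nat_lit 663236)⟩⟩, [⟨nat_lit 4, nat_lit 91, nat_lit 100, nat_lit 96, nat_lit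 259116530⟩, ⟨nat_lit 11, nat_lit 85, nat_lit 85, nat_lit 100, nat_lit 216327449⟩]⟩
noncomputable def p064_l77 : Lf2 := ⟨nat_lit 0, nat_lit 2, [nat_lit 10, nat_lit 5, nat_lit 5, nat_lit 20], false, nat_lit 280, nat_lit 336, nat_lit 4, nat_lit 364, ⟨nat_lit 0, nat_lit 1000, nat_lit 0, nat_lit 6, nat_lit 207, nat_lit 1000, nat_lit 237, nat_lit 0, nat_lit 0, nat_lit 0, nat_lit 0, nat_lit 0, nat_lit 39323956, nat_lit 12307719, nat_lit 15368325, nat_lit 5192183, false, false⟩,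
 nat_lit 0, nat_lit 6953, nat_lit 0, nat_lit 0, nat_lit 4424, nat_lit 0, nat_lit 123, nat_lit 0, nat_lit 0, nat_lit 0, nat_lit 0, nat_lit 0, nat_lit 0, nat_lit 0, nat_lit 0, nat_lit 1000000, nat_lit 0, nat_lit 0, [(nat_lit 12, [(nat_lit 2, nat_lit 1000)])],
 ⟨p064_k47, nat_lit 0, nat_lit 0, nat_lit 105, nat_lit 0, nat_lit 175423, [nat_lit 1992960000, nat_lit 2327840000, nat_lit 1636000000], [], [nat_lit 19853206678, nat_lit 20368643288, nat_lit 20750302928, nat_lit 21234808972, nat_lit 22832808007, nat_lit 23327965744, nat_lit 23591259885, nat_lit 24127318904], nat_lit 1271250, nat_lit 1271250, nat_lit 1100001, nat_lit 1442500, nat_lit 1271250, nat_lit 1271250, [nat_lit 780000, nat_lit 1100000, nat_lit 1442500], [nat_lit 59, nat_lit 40, nat_lit 40, nat_lit 80, nat_lit 3, nat_lit 260, nat_lit 50, nat_lit 8]⟩, ⟨p064_k48, nat_lit 0, nat_lit 0, nat_lit 204, nat_lit 0, nat_lit 220812, [nat_lit 0, nat_lit 0, nat_lit 0], [], [nat_lit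 0, nat_lit 0, nat_lit 0, nat_lit 0, nat_lit 0, nat_lit 0, nat_lit 0, nat_lit 0], nat_lit 1271250, nat_lit 1271250, nat_lit 1100001, nat_lit 1442500, nat_lit 21650, nat_lit 2577650, [nat_lit 1100000, nat_lit 1442500, nat_lit 1271250], [nat_lit 9, nat_lit 40, nat_lit 40, nat_lit 80, nat_lit 2, nat_lit 373, nat_lit 150, nat_lit 12]⟩,
 ⟨nat_lit 5244, nat_lit 5478, ⟨.ofNat (nat_lit 467779), .ofNat (nat_lit 542709), .ofNat (nat_lit 489134), .ofNat (nat_lit 564063), .ofNat (nat_lit 469597), .ofNat (nat_lit 542766), .ofNat (nat_lit 490981), .ofNat (nat_lit 564149)⟩, ⟨.ofNat (nat_lit 521722), .ofNat (nat_lit 626629), .ofNat (nat_lit 564436), .ofNat (nat_lit 669340), .ofNat (nat_lit 518028), .ofNat (nat_lit 620468), .ofNat (nat_lit 560799), .ofNat (nat_lit 663236)⟩⟩, [⟨nat_lit 16, nat_lit 100, nat_lit 91, nat_lit 96, nat_lit 74176544⟩, ⟨nat_lit 16, nat_lit 100, nat_lit 80, nat_lit 100, nat_lit 147844037⟩]⟩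
noncomputable def p064_l78 : Lf2 := ⟨nat_lit 0, nat_lit 2, [nat_lit 10, nat_lit 5, nat_lit 5, nat_lit 20], false, nat_lit 280, nat_lit 336, nat_lit 16, nat_lit 364, ⟨nat_lit 355, nat_lit 645, nat_lit 0, nat_lit 6, nat_lit 236, nat_lit 645, nat_lit 237, nat_lit 0, nat_lit 0, nat_lit 0, nat_lit 0, nat_lit 0, nat_lit 37435253, nat_lit 14729219, nat_lit 14835528, nat_lit 5364680, true, false⟩,
 nat_lit 7973, nat_lit 0, nat_lit 0, nat_lit 0, nat_lit 5073, nat_lit 4220, nat_lit 567, nat_lit 0, nat_lit 0, nat_lit 0, nat_lit 0, nat_lit 0, nat_lit 0, nat_lit 0, nat_lit 0, nat_lit 645000, nat_lit 0, nat_lit 0, [(nat_lit 12, [(nat_lit 2, nat_lit 645)])],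
 ⟨p064_k47, nat_lit 0, nat_lit 0, nat_lit 101, nat_lit 0, nat_lit 175423, [nat_lit 2450569200, nat_lit 3165696800, nat_lit 3273970000], [], [nat_lit 20839714056, nat_lit 21354834447, nat_lit 22124719002, nat_lit 22651994903, nat_lit 23984860090, nat_lit 24474204329, nat_lit 25147541993, nat_lit 25671937946], nat_lit 1271250, nat_lit 1271250, nat_lit 1271250, nat_lit 1271250, nat_lit 1271250, nat_lit 1271250, [nat_lit 780000, nat_lit 1100000, nat_lit 1442500], [nat_lit 59, nat_lit 40, nat_lit 40, nat_lit 80, nat_lit 3, nat_lit 203, nat_lit 0, nat_lit 6]⟩, ⟨p064_k48, nat_lit 0, nat_lit 0, nat_lit 178, nat_lit 0, nat_lit 220812, [nat_lit 1664240000, nat_lit 2218750000, nat_lit 2828640000], [], [nat_lit 10651425172, nat_lit 8466582628, nat_lit 7660504832, nat_lit 8354642212, nat_lit 11676397700, nat_lit 10522831050, nat_lit 10589125542, nat_lit 10991616311], nat_lit 1271250, nat_lit 1271250, nat_lit 1271250, nat_lit 1271250,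 nat_lit 88400, nat_lit 2598350, [nat_lit 1100000, nat_lit 1442500, nat_lit 1271250], [nat_lit 9, nat_lit 40, nat_lit 40, nat_lit 80, nat_lit 2, nat_lit 401, nat_lit 175, nat_lit 13]⟩,
 ⟨nat_lit 5244, nat_lit 5478, ⟨.ofNat (nat_lit 542709), .ofNat (nat_lit 617638), .ofNat (nat_lit 564063), .ofNat (nat_lit 638993), .ofNat (nat_lit 542766), .ofNat (nat_lit 615933), .ofNat (nat_lit 564149), .ofNat (nat_lit 637316)⟩, ⟨.ofNat (nat_lit 521722), .ofNat (nat_lit 626629), .ofNat (nat_lit 564436), .ofNat (nat_lit 669340), .ofNat (nat_lit 518028), .ofNat (nat_lit 620468), .ofNat (nat_lit 560799), .ofNat (nat_lit 663236)⟩⟩, [⟨nat_lit 16, nat_lit 100, nat_lit 80, nat_lit 100, nat_lit 294515414⟩, ⟨nat_lit 19, nat_lit 100, nat_lit 59, nat_lit 94, nat_lit 37141369⟩, ⟨nat_lit 11, nat_lit 67, nat_lit 67, nat_lit 100, nat_lit 75775131⟩]⟩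
noncomputable def p064_l79 : Lf2 := ⟨nat_lit 0, nat_lit 5, [nat_lit 4, nat_lit 5, nat_lit 5, nat_lit 20], false, nat_lit 280, nat_lit 336, nat_lit 0, nat_lit 364, ⟨nat_lit 0, nat_lit 1000, nat_lit 0, nat_lit 6, nat_lit 207, nat_lit 1000, nat_lit 237, nat_lit 0, nat_lit 0, nat_lit 0, nat_lit 0, nat_lit 0, nat_lit 39323978, nat_lit 12307691, nat_lit 15368331, nat_lit 5192180, false, false⟩,
 nat_lit 0, nat_lit 5941, nat_lit 0, nat_lit 3941, nat_lit 3780, nat_lit 0, nat_lit 0, nat_lit 0, nat_lit 0, nat_lit 0, nat_lit 0, nat_lit 0, nat_lit 0, nat_lit 0, nat_lit 0, nat_lit 400000, nat_lit 0, nat_lit 0, [(nat_lit 12, [(nat_lit 1, nat_lit 1000)])],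
 ⟨p064_k46, nat_lit 0, nat_lit 0, nat_lit 73, nat_lit 0, nat_lit 90707, [nat_lit 2033400000, nat_lit 2574800000, nat_lit 2711866667], [], [nat_lit 18647747520, nat_lit 19251122020, nat_lit 21700134960, nat_lit 22193189640, nat_lit 22014759760, nat_lit 22533539001, nat_lit 24478009009, nat_lit 24944270388], nat_lit 1271250, nat_lit 1271250, nat_lit 780000, nat_lit 1762500, nat_lit 1271250, nat_lit 1271250, [nat_lit 780000, nat_lit 1100000, nat_lit 1785000], [nat_lit 36, nat_lit 40, nat_lit 40, nat_lit 80, nat_lit 7, nat_lit 272, nat_lit 60, nat_lit 8]⟩, ⟨p064_k9, nat_lit 0, nat_lit 0, nat_lit 218, nat_lit 0, nat_lit 114478, [nat_lit 0, nat_lit 0, nat_lit 0], [], [nat_lit 0, nat_lit 0, nat_lit 0, nat_lit 0, nat_lit 0, nat_lit 0, nat_lit 0, nat_lit 0], nat_lit 1271250, nat_lit 1271250, nat_lit 780000, nat_lit 1762500, nat_lit 0, nat_lit 2570750, [nat_lit 1100000, nat_lit 1442500, nat_lit 1271250], [nat_lit 11, nat_lit 40, nat_lit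 40, nat_lit 80, nat_lit 1, nat_lit 456, nat_lit 225, nat_lit 13]⟩,
 ⟨nat_lit 5244, nat_lit 5478, ⟨.ofNat (nat_lit 392847), .ofNat (nat_lit 617638), .ofNat (nat_lit 414204), .ofNat (nat_lit 638993), .ofNat (nat_lit 396427), .ofNat (nat_lit 615933), .ofNat (nat_lit 417813), .ofNat (nat_lit 637316)⟩, ⟨.ofNat (nat_lit 521722), .ofNat (nat_lit 626629), .ofNat (nat_lit 564436), .ofNat (nat_lit 669340), .ofNat (nat_lit 518028), .ofNat (nat_lit 620468), .ofNat (nat_lit 560799), .ofNat (nat_lit 663236)⟩⟩, [⟨nat_lit 4, nat_lit 91, nat_lit 100, nat_lit 96, nat_lit 225221193⟩]⟩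
noncomputable def p064_l80 : Lf2 := ⟨nat_lit 0, nat_lit 5, [nat_lit 4, nat_lit 5, nat_lit 5, nat_lit 20], false, nat_lit 240, nat_lit 280, nat_lit 0, nat_lit 364, ⟨nat_lit 0, nat_lit 1000, nat_lit 0, nat_lit 6, nat_lit 207, nat_lit 1000, nat_lit 201, nat_lit 0, nat_lit 0, nat_lit 0, nat_lit 0, nat_lit 0, nat_lit 41881617, nat_lit 12853263, nat_lit 12265120, nat_lit 4966602, false, false⟩,
 nat_lit 0, nat_lit 6597, nat_lit 0, nat_lit 0, nat_lit 4381, nat_lit 0, nat_lit 1116, nat_lit 0, nat_lit 0, nat_lit 0, nat_lit 0, nat_lit 0, nat_lit 0, nat_lit 0, nat_lit 0, nat_lit 400000, nat_lit 0, nat_lit 0, [(nat_lit 12, [(nat_lit 1, nat_lit 1000)])],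
 ⟨p064_k49, nat_lit 0, nat_lit 0, nat_lit 80, nat_lit 0, nat_lit 199973, [nat_lit 2033400000, nat_lit 2439600000, nat_lit 2628400000], [], [nat_lit 17520289759, nat_lit 17820977667, nat_lit 20448899281, nat_lit 20693167734, nat_lit 19543352511, nat_lit 19817170970, nat_lit 22141373277, nat_lit 22430338651], nat_lit 1271250, nat_lit 1271250, nat_lit 780000, nat_lit 1762500, nat_lit 1271250, nat_lit 1271250, [nat_lit 780000, nat_lit 1100000, nat_lit 1442500], [nat_lit 59, nat_lit 40, nat_lit 40, nat_lit 80, nat_lit 3, nat_lit 272, nat_lit 60, nat_lit 9]⟩, ⟨p064_k9, nat_lit 0, nat_lit 0, nat_lit 307, nat_lit 0, nat_lit 266108, [nat_lit 0, nat_lit 0, nat_lit 0], [], [nat_lit 0, nat_lit 0, nat_lit 0, nat_lit 0, nat_lit 0, nat_lit 0, nat_lit 0, nat_lit 0], nat_lit 1271250, nat_lit 1271250, nat_lit 780000, nat_lit 1762500, nat_lit 0, nat_lit 2570750, [nat_lit 1100000, nat_lit 1442500, nat_lit 1271250], [nat_lit 11, nat_lit 40, nat_lit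 40, nat_lit 80, nat_lit 1, nat_lit 456, nat_lit 225, nat_lit 13]⟩,
 ⟨nat_lit 5123, nat_lit 5245, ⟨.ofNat (nat_lit 396427), .ofNat (nat_lit 615939), .ofNat (nat_lit 417812), .ofNat (nat_lit 637324), .ofNat (nat_lit 398213), .ofNat (nat_lit 615105), .ofNat (nat_lit 419618), .ofNat (nat_lit 636510)⟩, ⟨.ofNat (nat_lit 444857), .ofNat (nat_lit 518028), .ofNat (nat_lit 487628), .ofNat (nat_lit 560799), .ofNat (nat_lit 443866), .ofNat (nat_lit 516164), .ofNat (nat_lit 486676), .ofNat (nat_lit 558974)⟩⟩, []⟩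
noncomputable def p064_l81 : Lf2 := ⟨nat_lit 0, nat_lit 5, [nat_lit 4, nat_lit 5, nat_lit 5, nat_lit 20], false, nat_lit 240, nat_lit 280, nat_lit 0, nat_lit 364, ⟨nat_lit 0, nat_lit 1000, nat_lit 0, nat_lit 6, nat_lit 207, nat_lit 1000, nat_lit 200, nat_lit 0, nat_lit 0, nat_lit 0, nat_lit 0, nat_lit 0, nat_lit 41907482, nat_lit 12877602, nat_lit 12214916, nat_lit 4963823, false, false⟩,
 nat_lit 0, nat_lit 6215, nat_lit 0, nat_lit 0, nat_lit 4214, nat_lit 0, nat_lit 1064, nat_lit 0, nat_lit 0, nat_lit 0, nat_lit 0, nat_lit 0, nat_lit 0, nat_lit 0, nat_lit 0, nat_lit 400000, nat_lit 0, nat_lit 0, [(nat_lit 12, [(nat_lit 1, nat_lit 1000)])],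
 ⟨p064_k50, nat_lit 0, nat_lit 0, nat_lit 110, nat_lit 0, nat_lit 222691, [nat_lit 2033400000, nat_lit 2439600000, nat_lit 2628400000], [], [nat_lit 17903033251, nat_lit 18198200556, nat_lit 20775823349, nat_lit 21016166884, nat_lit 19867394183, nat_lit 20136473432, nat_lit 22384469471, nat_lit 22668448350], nat_lit 1271250, nat_lit 1271250, nat_lit 780000, nat_lit 1762500, nat_lit 1271250, nat_lit 1271250, [nat_lit 780000, nat_lit 1100000, nat_lit 1442500], [nat_lit 59, nat_lit 40, nat_lit 40, nat_lit 80, nat_lit 3, nat_lit 272, nat_lit 60, nat_lit 9]⟩, ⟨p064_k9, nat_lit 0, nat_lit 0, nat_lit 322, nat_lit 0, nat_lit 304090, [nat_lit 0, nat_lit 0, nat_lit 0], [], [nat_lit 0, nat_lit 0, nat_lit 0, nat_lit 0, nat_lit 0, nat_lit 0, nat_lit 0, nat_lit 0], nat_lit 1271250, nat_lit 1271250, nat_lit 780000, nat_lit 1762500, nat_lit 0, nat_lit 2570750, [nat_lit 1100000, nat_lit 1442500, nat_lit 1271250], [nat_lit 11, nat_lit 40,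 nat_lit 40, nat_lit 80, nat_lit 1, nat_lit 456, nat_lit 225, nat_lit 13]⟩,
 ⟨nat_lit 5000, nat_lit 5124, ⟨.ofNat (nat_lit 398213), .ofNat (nat_lit 615105), .ofNat (nat_lit 419618), .ofNat (nat_lit 636510), .ofNat (nat_lit 399998), .ofNat (nat_lit 614283), .ofNat (nat_lit 421427), .ofNat (nat_lit 635711)⟩, ⟨.ofNat (nat_lit 443866), .ofNat (nat_lit 516164), .ofNat (nat_lit 486676), .ofNat (nat_lit 558974), .ofNat (nat_lit 442856), .ofNat (nat_lit 514284), .ofNat (nat_lit 485713), .ofNat (nat_lit 557141)⟩⟩, []⟩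
noncomputable def p064_l82 : Lf2 := ⟨nat_lit 0, nat_lit 5, [nat_lit 4, nat_lit 5, nat_lit 5, nat_lit 20], false, nat_lit 280, nat_lit 328, nat_lit 0, nat_lit 160, ⟨nat_lit 467, nat_lit 533, nat_lit 0, nat_lit 6, nat_lit 178, nat_lit 533, nat_lit 232, nat_lit 0, nat_lit 0, nat_lit 0, nat_lit 0, nat_lit 0, nat_lit 41508167, nat_lit 10082213, nat_lit 15409620, nat_lit 4951913, false, false⟩,
 nat_lit 4734, nat_lit 2820, nat_lit 0, nat_lit 1981, nat_lit 5016, nat_lit 2506, nat_lit 959, nat_lit 0, nat_lit 0, nat_lit 155, nat_lit 0, nat_lit 0, nat_lit 0, nat_lit 0, nat_lit 0, nat_lit 213200, nat_lit 0, nat_lit 0, [(nat_lit 12, [(nat_lit 1, nat_lit 533)])],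
 ⟨p064_k49, nat_lit 0, nat_lit 0, nat_lit 130, nat_lit 0, nat_lit 228515, [nat_lit 2616496201, nat_lit 3489602800, nat_lit 4319687200], [], [nat_lit 20334136228, nat_lit 20877587228, nat_lit 20742345624, nat_lit 21254013220, nat_lit 22866154102, nat_lit 23395520671, nat_lit 23143064010, nat_lit 23676889887], nat_lit 1271250, nat_lit 1271250, nat_lit 780000, nat_lit 1100001, nat_lit 1271250, nat_lit 1271250, [nat_lit 780000, nat_lit 1100000, nat_lit 1442500], [nat_lit 59, nat_lit 40, nat_lit 40, nat_lit 80, nat_lit 3, nat_lit 249, nat_lit 40, nat_lit 8]⟩, ⟨p064_k9, nat_lit 0, nat_lit 0, nat_lit 322, nat_lit 0, nat_lit 304090, [nat_lit 2189296000, nat_lit 2918750000, nat_lit 4596214000], [], [nat_lit 18266794644, nat_lit 16941777216, nat_lit 15616759788, nat_lit 15768478690, nat_lit 15932521232, nat_lit 14752303200, nat_lit 17376288652, nat_lit 16211244240], nat_lit 1271250, nat_lit 1271250, nat_lit 780000, nat_lit 1100001,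 nat_lit 0, nat_lit 1100001, [nat_lit 1100000, nat_lit 1442500, nat_lit 1271250], [nat_lit 11, nat_lit 40, nat_lit 40, nat_lit 80, nat_lit 1, nat_lit 373, nat_lit 150, nat_lit 11]⟩,
 ⟨nat_lit 5000, nat_lit 5245, ⟨.ofNat (nat_lit 396427), .ofNat (nat_lit 469596), .ofNat (nat_lit 417811), .ofNat (nat_lit 490980), .ofNat (nat_lit 399998), .ofNat (nat_lit 471425), .ofNat (nat_lit 421425), .ofNat (nat_lit 492852)⟩, ⟨.ofNat (nat_lit 518028), .ofNat (nat_lit 605833), .ofNat (nat_lit 560799), .ofNat (nat_lit 648604), .ofNat (nat_lit 514284), .ofNat (nat_lit 599999), .ofNat (nat_lit 557141), .ofNat (nat_lit 642856)⟩⟩, [⟨nat_lit 16, nat_lit 97, nat_lit 84, nat_lit 100, nat_lit 372133323⟩]⟩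
noncomputable def p064_l83 : Lf2 := ⟨nat_lit 0, nat_lit 5, [nat_lit 4, nat_lit 5, nat_lit 5, nat_lit 20], false, nat_lit 280, nat_lit 328, nat_lit 160, nat_lit 364, ⟨nat_lit 318, nat_lit 682, nat_lit 0, nat_lit 6, nat_lit 178, nat_lit 682, nat_lit 233, nat_lit 0, nat_lit 0, nat_lit 0, nat_lit 0, nat_lit 0, nat_lit 41488732, nat_lit 10055135, nat_lit 15456133, nat_lit 4952401, false, false⟩,
 nat_lit 4904, nat_lit 3045, nat_lit 0, nat_lit 1040, nat_lit 5279, nat_lit 2596, nat_lit 666, nat_lit 0, nat_lit 0, nat_lit 619, nat_lit 0, nat_lit 0, nat_lit 0, nat_lit 0, nat_lit 0, nat_lit 170500, nat_lit 0, nat_lit 0, [(nat_lit 12, [(nat_lit 0, nat_lit 682)])],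
 ⟨p064_k49, nat_lit 0, nat_lit 0, nat_lit 119, nat_lit 0, nat_lit 199973, [nat_lit 2655924000, nat_lit 3178324801, nat_lit 3948386400], [], [nat_lit 20171085813, nat_lit 20449476641, nat_lit 20555508437, nat_lit 20824609611, nat_lit 22964964980, nat_lit 23237040887, nat_lit 23190167044, nat_lit 23485089021], nat_lit 1271250, nat_lit 1271250, nat_lit 780000, nat_lit 1100001, nat_lit 1271250, nat_lit 1271250, [nat_lit 780000, nat_lit 1100000, nat_lit 1442500], [nat_lit 59, nat_lit 40, nat_lit 40, nat_lit 80, nat_lit 3, nat_lit 249, nat_lit 40, nat_lit 8]⟩, ⟨p064_k9, nat_lit 0, nat_lit 0, nat_lit 203, nat_lit 0, nat_lit 266108, [nat_lit 1490784000, nat_lit 1987500000, nat_lit 3129756000], [], [nat_lit 7543963960, nat_lit 6250413504, nat_lit 8686794704, nat_lit 7411582392, nat_lit 8289217533, nat_lit 8533965478, nat_lit 8171757670, nat_lit 8465339622], nat_lit 1271250, nat_lit 1271250, nat_lit 780000, nat_lit 1100001, nat_lit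 1271250, nat_lit 1271250, [nat_lit 1100000, nat_lit 1442500, nat_lit 1271250], [nat_lit 11, nat_lit 40, nat_lit 40, nat_lit 80, nat_lit 1, nat_lit 428, nat_lit 200, nat_lit 12]⟩,
 ⟨nat_lit 5123, nat_lit 5245, ⟨.ofNat (nat_lit 396427), .ofNat (nat_lit 469598), .ofNat (nat_lit 417812), .ofNat (nat_lit 490983), .ofNat (nat_lit 398213), .ofNat (nat_lit 470510), .ofNat (nat_lit 419618), .ofNat (nat_lit 491915)⟩, ⟨.ofNat (nat_lit 518028), .ofNat (nat_lit 605833), .ofNat (nat_lit 560799), .ofNat (nat_lit 648604), .ofNat (nat_lit 516164), .ofNat (nat_lit 602921), .ofNat (nat_lit 558974), .ofNat (nat_lit 645731)⟩⟩, [⟨nat_lit 4, nat_lit 95, nat_lit 100, nat_lit 98, nat_lit 217511272⟩, ⟨nat_lit 11, nat_lit 85, nat_lit 85, nat_lit 100, nat_lit 143552154⟩]⟩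
noncomputable def p064_l84 : Lf2 := ⟨nat_lit 0, nat_lit 5, [nat_lit 4, nat_lit 5, nat_lit 5, nat_lit 20], false, nat_lit 280, nat_lit 324, nat_lit 160, nat_lit 364, ⟨nat_lit 293, nat_lit 707, nat_lit 0, nat_lit 6, nat_lit 178, nat_lit 707, nat_lit 230, nat_lit 0, nat_lit 0, nat_lit 0, nat_lit 0, nat_lit 0, nat_lit 41638590, nat_lit 10126080, nat_lit 15235330, nat_lit 4942973, false, false⟩,
 nat_lit 4454, nat_lit 3229, nat_lit 0, nat_lit 0, nat_lit 5210, nat_lit 2358, nat_lit 600, nat_lit 0, nat_lit 0, nat_lit 581, nat_lit 0, nat_lit 0, nat_lit 0, nat_lit 0, nat_lit 0, nat_lit 176750, nat_lit 0, nat_lit 0, [(nat_lit 12, [(nat_lit 0, nat_lit 707)])],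
 ⟨p064_k50, nat_lit 0, nat_lit 0, nat_lit 126, nat_lit 0, nat_lit 222691, [nat_lit 2632974000, nat_lit 3122984800, nat_lit 3864016400], [], [nat_lit 20464263895, nat_lit 20740900020, nat_lit 20838575285, nat_lit 21098859540, nat_lit 22924127513, nat_lit 23196721831, nat_lit 23156965565, nat_lit 23450573322], nat_lit 1271250, nat_lit 1271250, nat_lit 780000, nat_lit 1100001, nat_lit 1271250, nat_lit 1271250, [nat_lit 780000, nat_lit 1100000, nat_lit 1442500], [nat_lit 59, nat_lit 40, nat_lit 40, nat_lit 80, nat_lit 3, nat_lit 249, nat_lit 40, nat_lit 8]⟩, ⟨p064_k9, nat_lit 0, nat_lit 0, nat_lit 216, nat_lit 0, nat_lit 304090, [nat_lit 1373584000, nat_lit 1831250000, nat_lit 2883706000], [], [nat_lit 6987253428, nat_lit 5812295040, nat_lit 8030627256, nat_lit 6872325780, nat_lit 7615365730, nat_lit 7836191524, nat_lit 7512038524, nat_lit 7775882315], nat_lit 1271250, nat_lit 1271250, nat_lit 780000, nat_lit 1100001, nat_lit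 1271250, nat_lit 1271250, [nat_lit 1100000, nat_lit 1442500, nat_lit 1271250], [nat_lit 11, nat_lit 40, nat_lit 40, nat_lit 80, nat_lit 1, nat_lit 428, nat_lit 200, nat_lit 12]⟩,
 ⟨nat_lit 5000, nat_lit 5124, ⟨.ofNat (nat_lit 398213), .ofNat (nat_lit 470510), .ofNat (nat_lit 419618), .ofNat (nat_lit 491915), .ofNat (nat_lit 399998), .ofNat (nat_lit 471427), .ofNat (nat_lit 421427), .ofNat (nat_lit 492855)⟩, ⟨.ofNat (nat_lit 516164), .ofNat (nat_lit 595691), .ofNat (nat_lit 558974), .ofNat (nat_lit 638501), .ofNat (nat_lit 514284), .ofNat (nat_lit 592856), .ofNat (nat_lit 557141), .ofNat (nat_lit 635713)⟩⟩, [⟨nat_lit 16, nat_lit 96, nat_lit 86, nat_lit 100, nat_lit 215316136⟩, ⟨nat_lit 11, nat_lit 85, nat_lit 85, nat_lit 100, nat_lit 131287528⟩]⟩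
noncomputable def p064_l85 : Lf2 := ⟨nat_lit 0, nat_lit 5, [nat_lit 4, nat_lit 5, nat_lit 5, nat_lit 20], false, nat_lit 280, nat_lit 328, nat_lit 4, nat_lit 160, ⟨nat_lit 1000, nat_lit 0, nat_lit 0, nat_lit 0, nat_lit 0, nat_lit 0, nat_lit 0, nat_lit 0, nat_lit 0, nat_lit 0, nat_lit 0, nat_lit 0, nat_lit 0, nat_lit 0, nat_lit 0, nat_lit 0, false, false⟩,
 nat_lit 8393, nat_lit 553, nat_lit 0, nat_lit 13758, nat_lit 5941, nat_lit 4443, nat_lit 1321, nat_lit 0, nat_lit 0, nat_lit 1957, nat_lit 0, nat_lit 0, nat_lit 0, nat_lit 0, nat_lit 0, nat_lit 0, nat_lit 0, nat_lit 0, [],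
 ⟨p064_k49, nat_lit 0, nat_lit 0, nat_lit 121, nat_lit 0, nat_lit 228515, [nat_lit 3282000000, nat_lit 4688000000, nat_lit 6250000000], [], [nat_lit 20893529998, nat_lit 21447637519, nat_lit 22868589923, nat_lit 23395584480, nat_lit 23641172980, nat_lit 24180117961, nat_lit 25557078394, nat_lit 26136067864], nat_lit 1271250, nat_lit 1271250, nat_lit 1100001, nat_lit 1785000, nat_lit 1271250, nat_lit 1271250, [nat_lit 780000, nat_lit 1100000, nat_lit 1442500], [nat_lit 59, nat_lit 40, nat_lit 40, nat_lit 80, nat_lit 3, nat_lit 272, nat_lit 60, nat_lit 9]⟩, ⟨p064_k9, nat_lit 0, nat_lit 0, nat_lit 308, nat_lit 0, nat_lit 304090, [nat_lit 4688000000, nat_lit 6250000000, nat_lit 9842000000], [], [nat_lit 35680133162, nat_lit 33334433540, nat_lit 31595356323, nat_lit 32288021985, nat_lit 28725192962, nat_lit 29410531046, nat_lit 32768832348, nat_lit 31420155460], nat_lit 1271250, nat_lit 1271250, nat_lit 1100001, nat_lit 1785000,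 nat_lit 21650, nat_lit 1100001, [nat_lit 1100000, nat_lit 1442500, nat_lit 1271250], [nat_lit 11, nat_lit 40, nat_lit 40, nat_lit 80, nat_lit 1, nat_lit 401, nat_lit 175, nat_lit 12]⟩,
 zbF0, [⟨nat_lit 16, nat_lit 100, nat_lit 97, nat_lit 98, nat_lit 95579776⟩, ⟨nat_lit 16, nat_lit 97, nat_lit 84, nat_lit 100, nat_lit 460449949⟩]⟩
noncomputable def p064_l86 : Lf2 := ⟨nat_lit 0, nat_lit 5, [nat_lit 4, nat_lit 5, nat_lit 5, nat_lit 20], false, nat_lit 280, nat_lit 328, nat_lit 160, nat_lit 364, ⟨nat_lit 542, nat_lit 458, nat_lit 0, nat_lit 6, nat_lit 221, nat_lit 458, nat_lit 232, nat_lit 0, nat_lit 0, nat_lit 0, nat_lit 0, nat_lit 0, nat_lit 38703760, nat_lit 13598320, nat_lit 14697920, nat_lit 5259398, false, false⟩,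
 nat_lit 8234, nat_lit 0, nat_lit 0, nat_lit 3745, nat_lit 5468, nat_lit 4358, nat_lit 864, nat_lit 0, nat_lit 0, nat_lit 1042, nat_lit 0, nat_lit 0, nat_lit 0, nat_lit 0, nat_lit 0, nat_lit 114500, nat_lit 0, nat_lit 0, [(nat_lit 12, [(nat_lit 0, nat_lit 458)])],
 ⟨p064_k49, nat_lit 0, nat_lit 0, nat_lit 121, nat_lit 0, nat_lit 228515, [nat_lit 2861556000, nat_lit 3674171201, nat_lit 4704341600], [], [nat_lit 20754411904, nat_lit 21286845028, nat_lit 22726772630, nat_lit 23234134140, nat_lit 23394439132, nat_lit 23912956020, nat_lit 25318368869, nat_lit 25875079803], nat_lit 1271250, nat_lit 1271250, nat_lit 1100001, nat_lit 1785000, nat_lit 1271250, nat_lit 1271250, [nat_lit 780000, nat_lit 1100000, nat_lit 1442500], [nat_lit 59, nat_lit 40, nat_lit 40, nat_lit 80, nat_lit 3, nat_lit 272, nat_lit 60, nat_lit 9]⟩, ⟨p064_k9, nat_lit 0, nat_lit 0, nat_lit 203, nat_lit 0, nat_lit 304090, [nat_lit 2540896000, nat_lit 3387500000,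 nat_lit 5334364000], [], [nat_lit 20021797224, nat_lit 17717557020, nat_lit 16443250688, nat_lit 14332418524, nat_lit 14002514963, nat_lit 14381436985, nat_lit 14851317765, nat_lit 15364089618], nat_lit 1271250, nat_lit 1271250, nat_lit 1100001, nat_lit 1785000, nat_lit 1271250, nat_lit 1271250, [nat_lit 1100000, nat_lit 1442500, nat_lit 1271250], [nat_lit 11, nat_lit 40, nat_lit 40, nat_lit 80, nat_lit 1, nat_lit 456, nat_lit 225, nat_lit 13]⟩,
 ⟨nat_lit 5000, nat_lit 5245, ⟨.ofNat (nat_lit 469596), .ofNat (nat_lit 615934), .ofNat (nat_lit 490980), .ofNat (nat_lit 637316), .ofNat (nat_lit 471425), .ofNat (nat_lit 614277), .ofNat (nat_lit 492852), .ofNat (nat_lit 635703)⟩, ⟨.ofNat (nat_lit 518028), .ofNat (nat_lit 605833), .ofNat (nat_lit 560799), .ofNat (nat_lit 648604), .ofNat (nat_lit 514284), .ofNat (nat_lit 599999), .ofNat (nat_lit 557141), .ofNat (nat_lit 642856)⟩⟩, [⟨nat_lit 16, nat_lit 97, nat_lit 84, nat_lit 100,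 nat_lit 398258066⟩, ⟨nat_lit 11, nat_lit 71, nat_lit 71, nat_lit 100, nat_lit 15331927⟩]⟩
noncomputable def p064_l87 : Lf2 := ⟨nat_lit 0, nat_lit 5, [nat_lit 4, nat_lit 5, nat_lit 5, nat_lit 20], false, nat_lit 240, nat_lit 336, nat_lit 0, nat_lit 160, ⟨nat_lit 1000, nat_lit 0, nat_lit 0, nat_lit 0, nat_lit 0, nat_lit 0, nat_lit 0, nat_lit 0, nat_lit 0, nat_lit 0, nat_lit 0, nat_lit 0, nat_lit 0, nat_lit 0, nat_lit 0, nat_lit 0, false, false⟩,
 nat_lit 5772, nat_lit 4291, nat_lit 0, nat_lit 11632, nat_lit 6403, nat_lit 3359, nat_lit 1544, nat_lit 0, nat_lit 0, nat_lit 1837, nat_lit 0, nat_lit 0, nat_lit 0, nat_lit 0, nat_lit 0, nat_lit 0, nat_lit 0, nat_lit 0, [],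
 ⟨p064_k46, nat_lit 0, nat_lit 0, nat_lit 166, nat_lit 0, nat_lit 274090, [nat_lit 3282000000, nat_lit 4688000000, nat_lit 7968000000], [], [nat_lit 17993603720, nat_lit 18692915747, nat_lit 20583741208, nat_lit 21138419397, nat_lit 23854005313, nat_lit 24385081700, nat_lit 25836234081, nat_lit 26420428164], nat_lit 1271250, nat_lit 1271250, nat_lit 780000, nat_lit 1762500, nat_lit 1271250, nat_lit 1271250, [nat_lit 780000, nat_lit 1100000, nat_lit 1785000], [nat_lit 36, nat_lit 40, nat_lit 40, nat_lit 80, nat_lit 7, nat_lit 272, nat_lit 60, nat_lit 8]⟩, ⟨p064_k30, nat_lit 0, nat_lit 0, nat_lit 263, nat_lit 0, nat_lit 306527, [nat_lit 4688000000, nat_lit 6250000000, nat_lit 7968000000], [], [nat_lit 36298165302, nat_lit 34494590560, nat_lit 31900351210, nat_lit 32419267854, nat_lit 30717586132, nat_lit 29812400619, nat_lit 38414113448, nat_lit 36873098300], nat_lit 1271250, nat_lit 1271250, nat_lit 780000, nat_lit 1762500,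 nat_lit 0, nat_lit 1100001, [nat_lit 1100000, nat_lit 1442500, nat_lit 1271250], [nat_lit 9, nat_lit 40, nat_lit 40, nat_lit 80, nat_lit 2, nat_lit 317, nat_lit 100, nat_lit 10]⟩,
 zbF0, [⟨nat_lit 16, nat_lit 100, nat_lit 80, nat_lit 100, nat_lit 369602517⟩, ⟨nat_lit 4, nat_lit 91, nat_lit 100, nat_lit 96, nat_lit 181987708⟩]⟩
noncomputable def p064_l88 : Lf2 := ⟨nat_lit 0, nat_lit 5, [nat_lit 4, nat_lit 5, nat_lit 5, nat_lit 20], false, nat_lit 240, nat_lit 328, nat_lit 0, nat_lit 160, ⟨nat_lit 1000, nat_lit 0, nat_lit 0, nat_lit 0, nat_lit 0, nat_lit 0, nat_lit 0, nat_lit 0, nat_lit 0, nat_lit 0, nat_lit 0, nat_lit 0, nat_lit 0, nat_lit 0, nat_lit 0, nat_lit 0, false, false⟩,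
 nat_lit 5407, nat_lit 4638, nat_lit 0, nat_lit 3482, nat_lit 6671, nat_lit 3147, nat_lit 914, nat_lit 0, nat_lit 0, nat_lit 1659, nat_lit 0, nat_lit 0, nat_lit 0, nat_lit 0, nat_lit 0, nat_lit 0, nat_lit 0, nat_lit 0, [],
 ⟨p064_k49, nat_lit 0, nat_lit 0, nat_lit 155, nat_lit 0, nat_lit 312187, [nat_lit 3282000000, nat_lit 4688000000, nat_lit 6250000000], [], [nat_lit 18192767249, nat_lit 18977402692, nat_lit 21056729292, nat_lit 21676705042, nat_lit 23937980976, nat_lit 24545594787, nat_lit 25925488443, nat_lit 26538861278], nat_lit 1271250, nat_lit 1271250, nat_lit 780000, nat_lit 1762500, nat_lit 1271250, nat_lit 1271250, [nat_lit 780000, nat_lit 1100000, nat_lit 1442500], [nat_lit 59, nat_lit 40, nat_lit 40, nat_lit 80, nat_lit 3, nat_lit 272, nat_lit 60, nat_lit 9]⟩, ⟨p064_k30, nat_lit 0, nat_lit 0, nat_lit 289, nat_lit 0, nat_lit 368127, [nat_lit 4688000000, nat_lit 6250000000, nat_lit 7968000000], [], [nat_lit 35861280366,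 nat_lit 34171536480, nat_lit 32678842843, nat_lit 33372684125, nat_lit 31173990756, nat_lit 30993429477, nat_lit 38632797384, nat_lit 37189041900], nat_lit 1271250, nat_lit 1271250, nat_lit 780000, nat_lit 1762500, nat_lit 0, nat_lit 1100001, [nat_lit 1100000, nat_lit 1442500, nat_lit 1271250], [nat_lit 9, nat_lit 40, nat_lit 40, nat_lit 80, nat_lit 2, nat_lit 317, nat_lit 100, nat_lit 10]⟩,
 zbF0, [⟨nat_lit 16, nat_lit 97, nat_lit 84, nat_lit 100, nat_lit 579721143⟩]⟩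
noncomputable def p064_l89 : Lf2 := ⟨nat_lit 0, nat_lit 5, [nat_lit 4, nat_lit 5, nat_lit 5, nat_lit 20], false, nat_lit 240, nat_lit 336, nat_lit 160, nat_lit 240, ⟨nat_lit 1000, nat_lit 0, nat_lit 0, nat_lit 0, nat_lit 0, nat_lit 0, nat_lit 0, nat_lit 0, nat_lit 0, nat_lit 0, nat_lit 0, nat_lit 0, nat_lit 0, nat_lit 0, nat_lit 0, nat_lit 0, false, false⟩,
 nat_lit 8023, nat_lit 1896, nat_lit 0, nat_lit 5283, nat_lit 6312, nat_lit 4670, nat_lit 1516, nat_lit 0, nat_lit 0, nat_lit 994, nat_lit 0, nat_lit 0, nat_lit 0, nat_lit 0, nat_lit 0, nat_lit 0, nat_lit 0, nat_lit 0, [],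
 ⟨p064_k46, nat_lit 0, nat_lit 0, nat_lit 185, nat_lit 0, nat_lit 329172, [nat_lit 3282000000, nat_lit 4688000000, nat_lit 7968000000], [], [nat_lit 18178318880, nat_lit 19565875696, nat_lit 20772852032, nat_lit 21874443744, nat_lit 23995739572, nat_lit 25049127120, nat_lit 25789113044, nat_lit 26949318308], nat_lit 1271250, nat_lit 1271250, nat_lit 780000, nat_lit 1762500, nat_lit 1271250, nat_lit 1271250, [nat_lit 780000, nat_lit 1100000, nat_lit 1785000], [nat_lit 36, nat_lit 40, nat_lit 40, nat_lit 80, nat_lit 7, nat_lit 272, nat_lit 60, nat_lit 8]⟩, ⟨p064_k30, nat_lit 0, nat_lit 0, nat_lit 169, nat_lit 0, nat_lit 368127, [nat_lit 4688000000, nat_lit 6250000000, nat_lit 7968000000], [], [nat_lit 30073982090, nat_lit 27604775630, nat_lit 29049040910, nat_lit 26818237950, nat_lit 26794473050, nat_lit 25720361320, nat_lit 35781858890, nat_lit 33610766550], nat_lit 1271250, nat_lit 1271250, nat_lit 780000, nat_lit 1762500,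 nat_lit 1100001, nat_lit 1785000, [nat_lit 1100000, nat_lit 1442500, nat_lit 1271250], [nat_lit 9, nat_lit 40, nat_lit 40, nat_lit 80, nat_lit 2, nat_lit 345, nat_lit 125, nat_lit 11]⟩,
 zbF0, [⟨nat_lit 4, nat_lit 94, nat_lit 100, nat_lit 97, nat_lit 549914825⟩]⟩
noncomputable def p064_l90 : Lf2 := ⟨nat_lit 0, nat_lit 5, [nat_lit 4, nat_lit 5, nat_lit 5, nat_lit 20], false, nat_lit 240, nat_lit 336, nat_lit 240, nat_lit 352, ⟨nat_lit 1000, nat_lit 0, nat_lit 0, nat_lit 0, nat_lit 0, nat_lit 0, nat_lit 0, nat_lit 0, nat_lit 0, nat_lit 0, nat_lit 0, nat_lit 0, nat_lit 0, nat_lit 0, nat_lit 0, nat_lit 0, false, false⟩,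
 nat_lit 13053, nat_lit 0, nat_lit 0, nat_lit 0, nat_lit 6312, nat_lit 7598, nat_lit 1516, nat_lit 0, nat_lit 0, nat_lit 1428, nat_lit 0, nat_lit 0, nat_lit 0, nat_lit 0, nat_lit 0, nat_lit 0, nat_lit 0, nat_lit 0, [],
 ⟨p064_k46, nat_lit 0, nat_lit 0, nat_lit 185, nat_lit 0, nat_lit 329172, [nat_lit 3282000000, nat_lit 4688000000, nat_lit 7968000000], [], [nat_lit 18178318880, nat_lit 19565875696, nat_lit 20772852032, nat_lit 21874443744, nat_lit 23995739572, nat_lit 25049127120, nat_lit 25789113044, nat_lit 26949318308], nat_lit 1271250, nat_lit 1271250, nat_lit 780000, nat_lit 1762500, nat_lit 1271250, nat_lit 1271250, [nat_lit 780000, nat_lit 1100000, nat_lit 1785000], [nat_lit 36, nat_lit 40, nat_lit 40, nat_lit 80, nat_lit 7, nat_lit 272, nat_lit 60, nat_lit 8]⟩, ⟨p064_k30, nat_lit 0, nat_lit 0, nat_lit 211, nat_lit 0, nat_lit 368127, [nat_lit 4688000000, nat_lit 6250000000, nat_lit 7968000000], [], [nat_lit 18155774824,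 nat_lit 19154312068, nat_lit 20265600044, nat_lit 21030471588, nat_lit 25319430854, nat_lit 26212770237, nat_lit 26911752286, nat_lit 27892496522], nat_lit 1271250, nat_lit 1271250, nat_lit 780000, nat_lit 1762500, nat_lit 1271250, nat_lit 1271250, [nat_lit 1100000, nat_lit 1442500, nat_lit 1271250], [nat_lit 9, nat_lit 40, nat_lit 40, nat_lit 80, nat_lit 2, nat_lit 272, nat_lit 60, nat_lit 8]⟩,
 zbF0, [⟨nat_lit 4, nat_lit 94, nat_lit 100, nat_lit 97, nat_lit 138815902⟩, ⟨nat_lit 7, nat_lit 82, nat_lit 100, nat_lit 92, nat_lit 179368335⟩, ⟨nat_lit 11, nat_lit 98, nat_lit 100, nat_lit 91, nat_lit 173473502⟩, ⟨nat_lit 11, nat_lit 75, nat_lit 75, nat_lit 100, nat_lit 325416381⟩]⟩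
noncomputable def p064_l91 : Lf2 := ⟨nat_lit 0, nat_lit 8, [nat_lit 50, nat_lit 5, nat_lit 5, nat_lit 20], false, nat_lit 240, nat_lit 320, nat_lit 0, nat_lit 352, ⟨nat_lit 428, nat_lit 572, nat_lit 0, nat_lit 6, nat_lit 211, nat_lit 572, nat_lit 212, nat_lit 0, nat_lit 0, nat_lit 0, nat_lit 0, nat_lit 0, nat_lit 40798534, nat_lit 13031899, nat_lit 13169567, nat_lit 5073181, false, false⟩,
 nat_lit 6592, nat_lit 592, nat_lit 0, nat_lit 8633, nat_lit 4571, nat_lit 3489, nat_lit 0, nat_lit 0, nat_lit 0, nat_lit 631, nat_lit 0, nat_lit 0, nat_lit 0, nat_lit 0, nat_lit 0, nat_lit 143000, nat_lit 0, nat_lit 0, [(nat_lit 12, [(nat_lit 0, nat_lit 572)])],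
 ⟨p064_k51, nat_lit 0, nat_lit 0, nat_lit 75, nat_lit 0, nat_lit 72784, [nat_lit 2756904000, nat_lit 3451336001, nat_lit 5254660800], [], [nat_lit 16213616064, nat_lit 16944113899, nat_lit 19760692040, nat_lit 20348601979, nat_lit 21220547664, nat_lit 21811572929, nat_lit 23814834288, nat_lit 24341932328], nat_lit 1271250, nat_lit 1271250, nat_lit 780000, nat_lit 1762500, nat_lit 1271250, nat_lit 1271250, [nat_lit 780000, nat_lit 1100000, nat_lit 1785000], [nat_lit 36, nat_lit 40, nat_lit 40, nat_lit 80, nat_lit 7, nat_lit 272, nat_lit 60, nat_lit 8]⟩, ⟨p064_k52, nat_lit 0, nat_lit 0, nat_lit 216, nat_lit 0, nat_lit 91699, [nat_lit 2006464000, nat_lit 2675000000, nat_lit 4212376000], [], [nat_lit 21636364260, nat_lit 17889610896, nat_lit 11074668826, nat_lit 11966698902, nat_lit 12960754471, nat_lit 12058733765, nat_lit 18722412391, nat_lit 15594710901], nat_lit 1271250, nat_lit 1271250, nat_lit 780000, nat_lit 1762500, nat_lit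 0, nat_lit 2486000, [nat_lit 1100000, nat_lit 1442500, nat_lit 1271250], [nat_lit 11, nat_lit 40, nat_lit 40, nat_lit 80, nat_lit 1, nat_lit 456, nat_lit 225, nat_lit 13]⟩,
 ⟨nat_lit 5244, nat_lit 5478, ⟨.ofNat (nat_lit 392847), .ofNat (nat_lit 617638), .ofNat (nat_lit 435559), .ofNat (nat_lit 660348), .ofNat (nat_lit 396427), .ofNat (nat_lit 615933), .ofNat (nat_lit 439196), .ofNat (nat_lit 658700)⟩, ⟨.ofNat (nat_lit 446789), .ofNat (nat_lit 596655), .ofNat (nat_lit 468146), .ofNat (nat_lit 618012), .ofNat (nat_lit 444857), .ofNat (nat_lit 591199), .ofNat (nat_lit 466242), .ofNat (nat_lit 612585)⟩⟩, [⟨nat_lit 4, nat_lit 94, nat_lit 100, nat_lit 92, nat_lit 416687908⟩]⟩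
noncomputable def p064_l92 : Lf2 := ⟨nat_lit 0, nat_lit 6, [nat_lit 47, nat_lit 5, nat_lit 5, nat_lit 20], false, nat_lit 240, nat_lit 336, nat_lit 0, nat_lit 364, ⟨nat_lit 0, nat_lit 1000, nat_lit 0, nat_lit 6, nat_lit 181, nat_lit 1000, nat_lit 227, nat_lit 0, nat_lit 0, nat_lit 0, nat_lit 0, nat_lit 0, nat_lit 41739820, nat_lit 10402914, nat_lit 14857266, nat_lit 4944447, false, false⟩,
 nat_lit 0, nat_lit 6426, nat_lit 0, nat_lit 8786, nat_lit 4089, nat_lit 0, nat_lit 0, nat_lit 0, nat_lit 0, nat_lit 0, nat_lit 0, nat_lit 0, nat_lit 0, nat_lit 0, nat_lit 0, nat_lit 250000, nat_lit 0, nat_lit 0, [(nat_lit 12, [(nat_lit 0, nat_lit 1000)])],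
 ⟨p064_k53, nat_lit 0, nat_lit 0, nat_lit 70, nat_lit 0, nat_lit 10475, [nat_lit 2364000000, nat_lit 2875200000, nat_lit 3241600000], [], [nat_lit 16346485376, nat_lit 17036309641, nat_lit 17131148656, nat_lit 17780874152, nat_lit 22214681188, nat_lit 22750748361, nat_lit 22666478755, nat_lit 23173514523], nat_lit 1271250, nat_lit 1271250, nat_lit 780000, nat_lit 1100001, nat_lit 1271250, nat_lit 1271250, [nat_lit 780000, nat_lit 1435000, nat_lit 1271250], [nat_lit 18, nat_lit 40, nat_lit 40, nat_lit 80, nat_lit 2, nat_lit 249, nat_lit 40, nat_lit 7]⟩, ⟨p064_k54, nat_lit 0, nat_lit 0, nat_lit 211, nat_lit 0, nat_lit 14149, [nat_lit 0, nat_lit 0, nat_lit 0], [], [nat_lit 0, nat_lit 0, nat_lit 0, nat_lit 0, nat_lit 0, nat_lit 0, nat_lit 0, nat_lit 0], nat_lit 1271250, nat_lit 1271250, nat_lit 780000, nat_lit 1100001, nat_lit 0, nat_lit 2570750, [nat_lit 1100000, nat_lit 1785000, nat_lit 1271250], [nat_lit 29, nat_lit 40, nat_lit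 40, nat_lit 80, nat_lit 17, nat_lit 456, nat_lit 225, nat_lit 13]⟩,
 ⟨nat_lit 5244, nat_lit 5478, ⟨.ofNat (nat_lit 392847), .ofNat (nat_lit 467779), .ofNat (nat_lit 435559), .ofNat (nat_lit 510489), .ofNat (nat_lit 396427), .ofNat (nat_lit 469597), .ofNat (nat_lit 439196), .ofNat (nat_lit 512365)⟩, ⟨.ofNat (nat_lit 468146), .ofNat (nat_lit 647985), .ofNat (nat_lit 489503), .ofNat (nat_lit 669340), .ofNat (nat_lit 466242), .ofNat (nat_lit 641853), .ofNat (nat_lit 487628), .ofNat (nat_lit 663236)⟩⟩, [⟨nat_lit 4, nat_lit 87, nat_lit 100, nat_lit 99, nat_lit 240628204⟩]⟩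
noncomputable def p064_l93 : Lf2 := ⟨nat_lit 0, nat_lit 6, [nat_lit 47, nat_lit 5, nat_lit 5, nat_lit 20], false, nat_lit 240, nat_lit 336, nat_lit 0, nat_lit 364, ⟨nat_lit 24, nat_lit 976, nat_lit 0, nat_lit 6, nat_lit 226, nat_lit 976, nat_lit 227, nat_lit 0, nat_lit 0, nat_lit 0, nat_lit 0, nat_lit 0, nat_lit 38805824, nat_lit 14044290, nat_lit 14149886, nat_lit 5252704, false, false⟩,
 nat_lit 734, nat_lit 5783, nat_lit 0, nat_lit 7779, nat_lit 4146, nat_lit 388, nat_lit 0, nat_lit 0, nat_lit 0, nat_lit 0, nat_lit 0, nat_lit 0, nat_lit 0, nat_lit 0, nat_lit 0, nat_lit 244000, nat_lit 0, nat_lit 0, [(nat_lit 12, [(nat_lit 0, nat_lit 976)])],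
 ⟨p064_k53, nat_lit 0, nat_lit 0, nat_lit 51, nat_lit 0, nat_lit 10475, [nat_lit 2386032000, nat_lit 2956195201, nat_lit 3354097599], [], [nat_lit 17088126784, nat_lit 17742256328, nat_lit 19817693040, nat_lit 20379759154, nat_lit 22658204402, nat_lit 23168144331, nat_lit 24667528786, nat_lit 25150245892], nat_lit 1271250, nat_lit 1271250, nat_lit 1100001, nat_lit 1785000, nat_lit 1271250, nat_lit 1271250, [nat_lit 780000, nat_lit 1435000, nat_lit 1271250], [nat_lit 18, nat_lit 40, nat_lit 40, nat_lit 80, nat_lit 2, nat_lit 272, nat_lit 60, nat_lit 8]⟩, ⟨p064_k54, nat_lit 0, nat_lit 0, nat_lit 191, nat_lit 0, nat_lit 14149, [nat_lit 112512000, nat_lit 191232000, nat_lit 236208000], [], [nat_lit 1296274208, nat_lit 885973520, nat_lit 693828928, nat_lit 795051216, nat_lit 1290307064, nat_lit 939324282, nat_lit 780698346, nat_lit 845142641], nat_lit 1271250, nat_lit 1271250, nat_lit 1271250, nat_lit 1271250, nat_lit 0, nat_lit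 2570750, [nat_lit 1100000, nat_lit 1785000, nat_lit 1271250], [nat_lit 29, nat_lit 40, nat_lit 40, nat_lit 80, nat_lit 17, nat_lit 456, nat_lit 225, nat_lit 13]⟩,
 ⟨nat_lit 5244, nat_lit 5478, ⟨.ofNat (nat_lit 467779), .ofNat (nat_lit 617638), .ofNat (nat_lit 510489), .ofNat (nat_lit 660348), .ofNat (nat_lit 469597), .ofNat (nat_lit 615933), .ofNat (nat_lit 512365), .ofNat (nat_lit 658700)⟩, ⟨.ofNat (nat_lit 468146), .ofNat (nat_lit 647985), .ofNat (nat_lit 489503), .ofNat (nat_lit 669340), .ofNat (nat_lit 466242), .ofNat (nat_lit 641853), .ofNat (nat_lit 487628), .ofNat (nat_lit 663236)⟩⟩, [⟨nat_lit 16, nat_lit 100, nat_lit 87, nat_lit 99, nat_lit 205389271⟩, ⟨nat_lit 19, nat_lit 100, nat_lit 73, nat_lit 94, nat_lit 5733115⟩]⟩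
noncomputable def p064_l94 : Lf2 := ⟨nat_lit 1, nat_lit 8, [nat_lit 50, nat_lit 5, nat_lit 5, nat_lit 20], false, nat_lit 240, nat_lit 336, nat_lit 0, nat_lit 364, zbN0,
 nat_lit 0, nat_lit 0, nat_lit 0, nat_lit 0, nat_lit 0, nat_lit 0, nat_lit 0, nat_lit 0, nat_lit 0, nat_lit 0, nat_lit 0, nat_lit 0, nat_lit 0, nat_lit 0, nat_lit 0, nat_lit 0, nat_lit 0, nat_lit 0, [],
 C1.Rw.none, C1.Rw.none,
 zbF0, []⟩
noncomputable def p064_l95 : Lf2 := ⟨nat_lit 1, nat_lit 10, [nat_lit 0, nat_lit 5, nat_lit 5, nat_lit 20], false, nat_lit 240, nat_lit 336, nat_lit 0, nat_lit 364, zbN0,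
 nat_lit 0, nat_lit 0, nat_lit 0, nat_lit 0, nat_lit 0, nat_lit 0, nat_lit 0, nat_lit 0, nat_lit 0, nat_lit 0, nat_lit 0, nat_lit 0, nat_lit 0, nat_lit 0, nat_lit 0, nat_lit 0, nat_lit 0, nat_lit 0, [],
 C1.Rw.none, C1.Rw.none,
 zbF0, []⟩
noncomputable def p064_l96 : Lf2 := ⟨nat_lit 0, nat_lit 10, [nat_lit 0, nat_lit 5, nat_lit 5, nat_lit 20], false, nat_lit 240, nat_lit 312, nat_lit 0, nat_lit 352, ⟨nat_lit 280, nat_lit 720, nat_lit 0, nat_lit 6, nat_lit 211, nat_lit 720, nat_lit 208, nat_lit 0, nat_lit 0, nat_lit 0, nat_lit 0, nat_lit 0, nat_lit 41058657, nat_lit 13114714, nat_lit 12826629, nat_lit 5048159, false, false⟩,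
 nat_lit 4150, nat_lit 2609, nat_lit 0, nat_lit 1695, nat_lit 4488, nat_lit 2197, nat_lit 0, nat_lit 0, nat_lit 0, nat_lit 541, nat_lit 0, nat_lit 0, nat_lit 0, nat_lit 0, nat_lit 0, nat_lit 180000, nat_lit 0, nat_lit 0, [(nat_lit 12, [(nat_lit 0, nat_lit 720)])],
 ⟨p064_k55, nat_lit 0, nat_lit 0, nat_lit 72, nat_lit 0, nat_lit 93875, [nat_lit 2621040000, nat_lit 3131360001, nat_lit 4552608000], [], [nat_lit 16891783672, nat_lit 17253530612, nat_lit 20291251912, nat_lit 20582683308, nat_lit 21234853228, nat_lit 21563871305, nat_lit 23877407262, nat_lit 24145043773], nat_lit 1271250, nat_lit 1271250, nat_lit 780000, nat_lit 1762500, nat_lit 1271250, nat_lit 1271250, [nat_lit 780000, nat_lit 1100000, nat_lit 1785000], [nat_lit 36, nat_lit 40, nat_lit 40, nat_lit 80, nat_lit 7, nat_lit 272, nat_lit 60, nat_lit 8]⟩, ⟨p064_k56, nat_lit 0, nat_lit 0, nat_lit 329, nat_lit 0, nat_lit 124921, [nat_lit 1312640000, nat_lit 1750000000,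 nat_lit 3324160000], [], [nat_lit 13932465412, nat_lit 11573159840, nat_lit 7393762879, nat_lit 7887606511, nat_lit 8553012772, nat_lit 7767026861, nat_lit 12222320932, nat_lit 10252828191], nat_lit 1271250, nat_lit 1271250, nat_lit 780000, nat_lit 1762500, nat_lit 0, nat_lit 2486000, [nat_lit 1100000, nat_lit 1442500, nat_lit 1271250], [nat_lit 48, nat_lit 40, nat_lit 40, nat_lit 80, nat_lit 12, nat_lit 456, nat_lit 225, nat_lit 12]⟩,
 ⟨nat_lit 5123, nat_lit 5245, ⟨.ofNat (nat_lit 396427), .ofNat (nat_lit 615939), .ofNat (nat_lit 439197), .ofNat (nat_lit 658709), .ofNat (nat_lit 398213), .ofNat (nat_lit 615105), .ofNat (nat_lit 441022), .ofNat (nat_lit 657914)⟩, ⟨.ofNat (nat_lit 444857), .ofNat (nat_lit 576565), .ofNat (nat_lit 466242), .ofNat (nat_lit 597950), .ofNat (nat_lit 443866), .ofNat (nat_lit 574002), .ofNat (nat_lit 465271), .ofNat (nat_lit 595407)⟩⟩, [⟨nat_lit 16, nat_lit 100, nat_lit 94, nat_lit 97, nat_lit 320868940⟩]⟩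
noncomputable def p064_l97 : Lf2 := ⟨nat_lit 0, nat_lit 10, [nat_lit 0, nat_lit 5, nat_lit 5, nat_lit 20], false, nat_lit 240, nat_lit 308, nat_lit 0, nat_lit 352, ⟨nat_lit 191, nat_lit 809, nat_lit 0, nat_lit 6, nat_lit 211, nat_lit 809, nat_lit 206, nat_lit 0, nat_lit 0, nat_lit 0, nat_lit 0, nat_lit 0, nat_lit 41194369, nat_lit 13162425, nat_lit 12643206, nat_lit 5034689, false, false⟩,
 nat_lit 2831, nat_lit 3622, nat_lit 0, nat_lit 0, nat_lit 4376, nat_lit 1498, nat_lit 0, nat_lit 0, nat_lit 0, nat_lit 369, nat_lit 0, nat_lit 0, nat_lit 0, nat_lit 0, nat_lit 0, nat_lit 202250, nat_lit 0, nat_lit 0, [(nat_lit 12, [(nat_lit 0, nat_lit 809)])],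
 ⟨p064_k57, nat_lit 0, nat_lit 0, nat_lit 71, nat_lit 0, nat_lit 117081, [nat_lit 2539338000, nat_lit 2938942001, nat_lit 4130427600], [], [nat_lit 17279823324, nat_lit 17636844704, nat_lit 20603522516, nat_lit 20891548608, nat_lit 21276322911, nat_lit 21576030100, nat_lit 23888209379, nat_lit 24155977886], nat_lit 1271250, nat_lit 1271250, nat_lit 780000, nat_lit 1762500, nat_lit 1271250, nat_lit 1271250, [nat_lit 780000, nat_lit 1100000, nat_lit 1785000], [nat_lit 36, nat_lit 40, nat_lit 40, nat_lit 80, nat_lit 7, nat_lit 272, nat_lit 60, nat_lit 8]⟩, ⟨p064_k56, nat_lit 0, nat_lit 0, nat_lit 341, nat_lit 0, nat_lit 159878, [nat_lit 895408000, nat_lit 1193750000, nat_lit 2267552000], [], [nat_lit 9502196860, nat_lit 7893530612, nat_lit 5044396183, nat_lit 5381207063, nat_lit 5834954553, nat_lit 5299269582, nat_lit 8337165993, nat_lit 6994289286], nat_lit 1271250, nat_lit 1271250, nat_lit 780000, nat_lit 1762500, nat_lit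 0, nat_lit 2486000, [nat_lit 1100000, nat_lit 1442500, nat_lit 1271250], [nat_lit 48, nat_lit 40, nat_lit 40, nat_lit 80, nat_lit 12, nat_lit 456, nat_lit 225, nat_lit 12]⟩,
 ⟨nat_lit 5000, nat_lit 5124, ⟨.ofNat (nat_lit 398213), .ofNat (nat_lit 615105), .ofNat (nat_lit 441022), .ofNat (nat_lit 657914), .ofNat (nat_lit 399998), .ofNat (nat_lit 614283), .ofNat (nat_lit 442855), .ofNat (nat_lit 657139)⟩, ⟨.ofNat (nat_lit 443866), .ofNat (nat_lit 566772), .ofNat (nat_lit 465271), .ofNat (nat_lit 588177), .ofNat (nat_lit 442856), .ofNat (nat_lit 564284), .ofNat (nat_lit 464284), .ofNat (nat_lit 585713)⟩⟩, [⟨nat_lit 16, nat_lit 100, nat_lit 97, nat_lit 98, nat_lit 274565371⟩]⟩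
noncomputable def p064_l98 : Lf2 := ⟨nat_lit 0, nat_lit 7, [nat_lit 80, nat_lit 5, nat_lit 5, nat_lit 20], false, nat_lit 240, nat_lit 328, nat_lit 0, nat_lit 160, ⟨nat_lit 1000, nat_lit 0, nat_lit 0, nat_lit 0, nat_lit 0, nat_lit 0, nat_lit 0, nat_lit 0, nat_lit 0, nat_lit 0, nat_lit 0, nat_lit 0, nat_lit 0, nat_lit 0, nat_lit 0, nat_lit 0, false, false⟩,
 nat_lit 11601, nat_lit 0, nat_lit 0, nat_lit 26856, nat_lit 4949, nat_lit 6141, nat_lit 0, nat_lit 0, nat_lit 0, nat_lit 0, nat_lit 0, nat_lit 0, nat_lit 0, nat_lit 0, nat_lit 0, nat_lit 0, nat_lit 0, nat_lit 0, [],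
 ⟨p064_k58, nat_lit 0, nat_lit 0, nat_lit 75, nat_lit 0, nat_lit 53386, [nat_lit 3282000000, nat_lit 6250000000, nat_lit 7968000000], [], [nat_lit 17088778981, nat_lit 17851174346, nat_lit 20516128501, nat_lit 21127024242, nat_lit 22749943156, nat_lit 23349022149, nat_lit 25057708138, nat_lit 25588710239], nat_lit 1271250, nat_lit 1271250, nat_lit 780000, nat_lit 1762500, nat_lit 1271250, nat_lit 1271250, [nat_lit 780000, nat_lit 1435000, nat_lit 1271250], [nat_lit 18, nat_lit 40, nat_lit 40, nat_lit 80, nat_lit 2, nat_lit 272, nat_lit 60, nat_lit 8]⟩, ⟨p064_k59, nat_lit 0, nat_lit 0, nat_lit 215, nat_lit 0, nat_lit 71185, [nat_lit 4688000000, nat_lit 7968000000, nat_lit 9842000000], [], [nat_lit 45328585956, nat_lit 38733913440, nat_lit 37228849204, nat_lit 38622452580, nat_lit 32569255392, nat_lit 34049245852, nat_lit 36596939860, nat_lit 35434208116], nat_lit 1271250, nat_lit 1271250, nat_lit 780000, nat_lit 1762500, nat_lit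 0, nat_lit 1100001, [nat_lit 1100000, nat_lit 1785000, nat_lit 1271250], [nat_lit 29, nat_lit 40, nat_lit 40, nat_lit 80, nat_lit 17, nat_lit 401, nat_lit 175, nat_lit 12]⟩,
 zbF0, [⟨nat_lit 4, nat_lit 92, nat_lit 99, nat_lit 100, nat_lit 563982899⟩]⟩
noncomputable def p064_l99 : Lf2 := ⟨nat_lit 1, nat_lit 7, [nat_lit 80, nat_lit 5, nat_lit 5, nat_lit 20], false, nat_lit 240, nat_lit 328, nat_lit 160, nat_lit 364, zbN0,
 nat_lit 0, nat_lit 0, nat_lit 0, nat_lit 0, nat_lit 0, nat_lit 0, nat_lit 0, nat_lit 0, nat_lit 0, nat_lit 0, nat_lit 0, nat_lit 0, nat_lit 0, nat_lit 0, nat_lit 0, nat_lit 0, nat_lit 0, nat_lit 0, [],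
 C1.Rw.none, C1.Rw.none,
 zbF0, []⟩
noncomputable def p064_l100 : Lf2 := ⟨nat_lit 0, nat_lit 7, [nat_lit 80, nat_lit 5, nat_lit 5, nat_lit 20], false, nat_lit 240, nat_lit 328, nat_lit 160, nat_lit 352, ⟨nat_lit 1000, nat_lit 0, nat_lit 0, nat_lit 0, nat_lit 0, nat_lit 0, nat_lit 0, nat_lit 0, nat_lit 0, nat_lit 0, nat_lit 0, nat_lit 0, nat_lit 0, nat_lit 0, nat_lit 0, nat_lit 0, false, false⟩,
 nat_lit 15339, nat_lit 0, nat_lit 0, nat_lit 4164, nat_lit 4949, nat_lit 8928, nat_lit 0, nat_lit 0, nat_lit 0, nat_lit 1084, nat_lit 0, nat_lit 0, nat_lit 0, nat_lit 0, nat_lit 0, nat_lit 0, nat_lit 0, nat_lit 0, [],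
 ⟨p064_k58, nat_lit 0, nat_lit 0, nat_lit 75, nat_lit 0, nat_lit 53386, [nat_lit 3282000000, nat_lit 6250000000, nat_lit 7968000000], [], [nat_lit 17088778981, nat_lit 17851174346, nat_lit 20516128501, nat_lit 21127024242, nat_lit 22749943156, nat_lit 23349022149, nat_lit 25057708138, nat_lit 25588710239], nat_lit 1271250, nat_lit 1271250, nat_lit 780000, nat_lit 1762500, nat_lit 1271250, nat_lit 1271250, [nat_lit 780000, nat_lit 1435000, nat_lit 1271250], [nat_lit 18, nat_lit 40, nat_lit 40, nat_lit 80, nat_lit 2, nat_lit 272, nat_lit 60, nat_lit 8]⟩, ⟨p064_k60, nat_lit 0, nat_lit 0, nat_lit 124, nat_lit 0, nat_lit 63024, [nat_lit 4688000000, nat_lit 7968000000, nat_lit 9842000000], [], [nat_lit 25693603808, nat_lit 21044097824, nat_lit 36397228000, nat_lit 32190300832, nat_lit 26448878887, nat_lit 27280308634, nat_lit 27687431162, nat_lit 28741434458], nat_lit 1271250, nat_lit 1271250, nat_lit 780000, nat_lit 1762500, nat_lit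 1271250, nat_lit 1271250, [nat_lit 1100000, nat_lit 1785000, nat_lit 1271250], [nat_lit 29, nat_lit 40, nat_lit 40, nat_lit 80, nat_lit 17, nat_lit 456, nat_lit 225, nat_lit 13]⟩,
 zbF0, [⟨nat_lit 4, nat_lit 92, nat_lit 99, nat_lit 100, nat_lit 299363230⟩, ⟨nat_lit 11, nat_lit 75, nat_lit 75, nat_lit 100, nat_lit 270834296⟩]⟩
noncomputable def p064_l101 : Lf2 := ⟨nat_lit 1, nat_lit 10, [nat_lit 0, nat_lit 5, nat_lit 5, nat_lit 20], false, nat_lit 240, nat_lit 328, nat_lit 0, nat_lit 364, zbN0,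
 nat_lit 0, nat_lit 0, nat_lit 0, nat_lit 0, nat_lit 0, nat_lit 0, nat_lit 0, nat_lit 0, nat_lit 0, nat_lit 0, nat_lit 0, nat_lit 0, nat_lit 0, nat_lit 0, nat_lit 0, nat_lit 0, nat_lit 0, nat_lit 0, [],
 C1.Rw.none, C1.Rw.none,
 zbF0, []⟩
noncomputable def b_V_700_600_20_45 : St := ⟨true, nat_lit 1, nat_lit 1, nat_lit 1, nat_lit 120, nat_lit 280, nat_lit 300, nat_lit 240, nat_lit 280, nat_lit 120, nat_lit 240, nat_lit 80, nat_lit 120, nat_lit 240, nat_lit 336, nat_lit 0, nat_lit 364, nat_lit 0, nat_lit 40, nat_lit 0, nat_lit 0, nat_lit 0, nat_lit 0⟩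
theorem d_V_700_600_20_45 (h : EB TB.env) : Dead b_V_700_600_20_45 := chkB_sound0 h (T :=
(.spl (nat_lit 6) (nat_lit 20)
(.spl (nat_lit 1) (nat_lit 260)
(.spl (nat_lit 0) (nat_lit 290)
(.spl (nat_lit 4) (nat_lit 280)
(.leaf p064_l74)
(.spl (nat_lit 6) (nat_lit 8)
(.spl (nat_lit 2) (nat_lit 160)
(.spl (nat_lit 5) (nat_lit 160)
(.leaf p064_l75)
(.leaf p064_l76))
(.trZ (nat_lit 9) (nat_lit 94) (nat_lit 100) (nat_lit 21) (nat_lit 4) (.spl (nat_lit 2) (nat_lit 200)
(.leaf p064_l77)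
(.trZ (nat_lit 9) (nat_lit 92) (nat_lit 100) (nat_lit 40) (nat_lit 16) (.leaf p064_l78)))))
(.leaf p064_l79)))
(.trX (nat_lit 16) (nat_lit 97) (nat_lit 84) (nat_lit 100) (nat_lit 328) (.spl (nat_lit 4) (nat_lit 280)
(.spl (nat_lit 0) (nat_lit 295)
(.leaf p064_l80)
(.leaf p064_l81))
(.spl (nat_lit 2) (nat_lit 160)
(.spl (nat_lit 5) (nat_lit 160)
(.leaf p064_l82)
(.spl (nat_lit 0) (nat_lit 295)
(.leaf p064_l83)
(.trX (nat_lit 16) (nat_lit 96) (nat_lit 86) (nat_lit 100) (nat_lit 324) (.leaf p064_l84))))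
(.trZ (nat_lit 9) (nat_lit 94) (nat_lit 100) (nat_lit 21) (nat_lit 4) (.spl (nat_lit 5) (nat_lit 160)
(.leaf p064_l85)
(.leaf p064_l86)))))))
(.trX (nat_lit 19) (nat_lit 100) (nat_lit 69) (nat_lit 96) (nat_lit 352) (.spl (nat_lit 5) (nat_lit 160)
(.spl (nat_lit 0) (nat_lit 290)
(.leaf p064_l87)
(.trX (nat_lit 16) (nat_lit 97) (nat_lit 84) (nat_lit 100) (nat_lit 328) (.leaf p064_l88)))
(.spl (nat_lit 5) (nat_lit 240)
(.leaf p064_l89)
(.leaf p064_l90)))))
(.spl (nat_lit 0) (nat_lit 290)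
(.spl (nat_lit 6) (nat_lit 32)
(.spl (nat_lit 3) (nat_lit 100)
(.trX (nat_lit 16) (nat_lit 100) (nat_lit 88) (nat_lit 94) (nat_lit 320) (.trX (nat_lit 19) (nat_lit 100) (nat_lit 68) (nat_lit 88) (nat_lit 352) (.leaf p064_l91)))
(.spl (nat_lit 6) (nat_lit 24)
(.spl (nat_lit 2) (nat_lit 160)
(.leaf p064_l92)
(.leaf p064_l93))
(.leaf p064_l94)))
(.leaf p064_l95))
(.trX (nat_lit 16) (nat_lit 97) (nat_lit 84) (nat_lit 100) (nat_lit 328) (.spl (nat_lit 3) (nat_lit 100)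
(.trX (nat_lit 16) (nat_lit 100) (nat_lit 94) (nat_lit 97) (nat_lit 312) (.trX (nat_lit 19) (nat_lit 100) (nat_lit 68) (nat_lit 88) (nat_lit 352) (.spl (nat_lit 0) (nat_lit 295)
(.leaf p064_l96)
(.trX (nat_lit 16) (nat_lit 100) (nat_lit 97) (nat_lit 98) (nat_lit 308) (.leaf p064_l97)))))
(.spl (nat_lit 6) (nat_lit 28)
(.spl (nat_lit 5) (nat_lit 160)
(.leaf p064_l98)
(.spl (nat_lit 1) (nat_lit 260)
(.leaf p064_l99)
(.trX (nat_lit 19) (nat_lit 100) (nat_lit 69) (nat_lit 96) (nat_lit 352) (.leaf p064_l100))))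
(.leaf p064_l101))))))) (by decide +kernel)
noncomputable def p064_l102 : Lf2 := ⟨nat_lit 0, nat_lit 5, [nat_lit 4, nat_lit 5, nat_lit 5, nat_lit 20], false, nat_lit 240, nat_lit 300, nat_lit 0, nat_lit 352, ⟨nat_lit 0, nat_lit 851, nat_lit 149, nat_lit 6, nat_lit 180, nat_lit 1000, nat_lit 201, nat_lit 149, nat_lit 3033, nat_lit 223, nat_lit 40017, nat_lit 264, nat_lit 43787963, nat_lit 10555664, nat_lit 12656373, nat_lit 4757115, false, false⟩,
 nat_lit 0, nat_lit 5601, nat_lit 0, nat_lit 0, nat_lit 3877, nat_lit 0, nat_lit 181, nat_lit 0, nat_lit 0, nat_lit 0, nat_lit 0, nat_lit 0, nat_lit 0, nat_lit 0, nat_lit 0, nat_lit 1000000, nat_lit 0, nat_lit 0, [(nat_lit 15, [(nat_lit 2, nat_lit 851), (nat_lit 6, nat_lit 149)])],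
 ⟨p064_k5, nat_lit 0, nat_lit 0, nat_lit 153, nat_lit 0, nat_lit 313579, [nat_lit 1832225441, nat_lit 1379647600, nat_lit 245432400], [], [nat_lit 18144801899, nat_lit 19280909609, nat_lit 18788814177, nat_lit 19905437450, nat_lit 21055123508, nat_lit 22101455413, nat_lit 21582749417, nat_lit 22571789729], nat_lit 1271250, nat_lit 1271250, nat_lit 780000, nat_lit 1100001, nat_lit 1271250, nat_lit 1271250, [nat_lit 780000, nat_lit 1100000, nat_lit 1442500], [nat_lit 59, nat_lit 40, nat_lit 40, nat_lit 80, nat_lit 3, nat_lit 249, nat_lit 40, nat_lit 8]⟩, ⟨p064_k9, nat_lit 0, nat_lit 0, nat_lit 372, nat_lit 0, nat_lit 436424, [nat_lit 0, nat_lit 0, nat_lit 0], [], [nat_lit 0, nat_lit 0, nat_lit 0, nat_lit 0, nat_lit 0, nat_lit 0, nat_lit 0, nat_lit 0], nat_lit 1271250, nat_lit 1271250, nat_lit 780000, nat_lit 1100001, nat_lit 0, nat_lit 2486000, [nat_lit 1100000, nat_lit 1442500, nat_lit 1271250], [nat_lit 11, nat_lit 40, nat_lit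 40, nat_lit 80, nat_lit 1, nat_lit 428, nat_lit 200, nat_lit 12]⟩,
 ⟨nat_lit 4472, nat_lit 5000, ⟨.ofNat (nat_lit 399984), .ofNat (nat_lit 471408), .ofNat (nat_lit 421400), .ofNat (nat_lit 492824), .ofNat (nat_lit 407160), .ofNat (nat_lit 475134), .ofNat (nat_lit 428715), .ofNat (nat_lit 496688)⟩, ⟨.ofNat (nat_lit 442856), .ofNat (nat_lit 549998), .ofNat (nat_lit 464284), .ofNat (nat_lit 571427), .ofNat (nat_lit 438578), .ofNat (nat_lit 540545), .ofNat (nat_lit 460144), .ofNat (nat_lit 562111)⟩⟩, [⟨nat_lit 4, nat_lit 100, nat_lit 91, nat_lit 91, nat_lit 260728249⟩]⟩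
noncomputable def p064_l103 : Lf2 := ⟨nat_lit 0, nat_lit 5, [nat_lit 4, nat_lit 5, nat_lit 5, nat_lit 20], false, nat_lit 240, nat_lit 300, nat_lit 0, nat_lit 352, ⟨nat_lit 37, nat_lit 963, nat_lit 0, nat_lit 6, nat_lit 221, nat_lit 963, nat_lit 201, nat_lit 0, nat_lit 0, nat_lit 0, nat_lit 0, nat_lit 0, nat_lit 40779957, nat_lit 14098201, nat_lit 12121842, nat_lit 5068013, false, false⟩,
 nat_lit 578, nat_lit 5336, nat_lit 0, nat_lit 0, nat_lit 4094, nat_lit 305, nat_lit 261, nat_lit 0, nat_lit 0, nat_lit 63, nat_lit 0, nat_lit 0, nat_lit 0, nat_lit 0, nat_lit 0, nat_lit 963000, nat_lit 0, nat_lit 0, [(nat_lit 15, [(nat_lit 2, nat_lit 963)])],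
 ⟨p064_k5, nat_lit 0, nat_lit 0, nat_lit 144, nat_lit 0, nat_lit 313579, [nat_lit 2029560721, nat_lit 1815948800, nat_lit 940018000], [], [nat_lit 18931452913, nat_lit 20029943553, nat_lit 21121737685, nat_lit 22103212810, nat_lit 21644265619, nat_lit 22650046644, nat_lit 23632217651, nat_lit 24696619750], nat_lit 1271250, nat_lit 1271250, nat_lit 1100001, nat_lit 1785000, nat_lit 1271250, nat_lit 1271250, [nat_lit 780000, nat_lit 1100000, nat_lit 1442500], [nat_lit 59, nat_lit 40, nat_lit 40, nat_lit 80, nat_lit 3, nat_lit 272, nat_lit 60, nat_lit 9]⟩, ⟨p064_k9, nat_lit 0, nat_lit 0, nat_lit 361, nat_lit 0, nat_lit 436424, [nat_lit 173456000, nat_lit 231250000, nat_lit 364154000], [], [nat_lit 1551683644, nat_lit 1390418554, nat_lit 926668502, nat_lit 965431912, nat_lit 1505141408, nat_lit 1364821766, nat_lit 981610453, nat_lit 1009658563], nat_lit 1271250, nat_lit 1271250, nat_lit 1271250, nat_lit 1271250, nat_lit 0, nat_lit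 2486000, [nat_lit 1100000, nat_lit 1442500, nat_lit 1271250], [nat_lit 11, nat_lit 40, nat_lit 40, nat_lit 80, nat_lit 1, nat_lit 456, nat_lit 225, nat_lit 13]⟩,
 ⟨nat_lit 4472, nat_lit 5000, ⟨.ofNat (nat_lit 471408), .ofNat (nat_lit 614256), .ofNat (nat_lit 492824), .ofNat (nat_lit 635672), .ofNat (nat_lit 475134), .ofNat (nat_lit 611081), .ofNat (nat_lit 496688), .ofNat (nat_lit 632635)⟩, ⟨.ofNat (nat_lit 442856), .ofNat (nat_lit 549998), .ofNat (nat_lit 464284), .ofNat (nat_lit 571427), .ofNat (nat_lit 438578), .ofNat (nat_lit 540545), .ofNat (nat_lit 460144), .ofNat (nat_lit 562111)⟩⟩, [⟨nat_lit 4, nat_lit 100, nat_lit 91, nat_lit 91, nat_lit 249628357⟩, ⟨nat_lit 7, nat_lit 77, nat_lit 100, nat_lit 86, nat_lit 8058039⟩]⟩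
noncomputable def p064_l104 : Lf2 := ⟨nat_lit 0, nat_lit 5, [nat_lit 4, nat_lit 5, nat_lit 5, nat_lit 20], false, nat_lit 240, nat_lit 320, nat_lit 0, nat_lit 160, ⟨nat_lit 258, nat_lit 742, nat_lit 0, nat_lit 6, nat_lit 205, nat_lit 742, nat_lit 217, nat_lit 0, nat_lit 0, nat_lit 0, nat_lit 0, nat_lit 0, nat_lit 40831921, nat_lit 12507132, nat_lit 13660947, nat_lit 5067659, false, false⟩,
 nat_lit 1558, nat_lit 5134, nat_lit 0, nat_lit 0, nat_lit 4632, nat_lit 824, nat_lit 179, nat_lit 0, nat_lit 0, nat_lit 504, nat_lit 0, nat_lit 0, nat_lit 0, nat_lit 0, nat_lit 0, nat_lit 742000, nat_lit 0, nat_lit 0, [(nat_lit 15, [(nat_lit 2, nat_lit 742)])],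
 ⟨p064_k5, nat_lit 0, nat_lit 0, nat_lit 133, nat_lit 0, nat_lit 229190, [nat_lit 2316984480, nat_lit 2475059200, nat_lit 2158612000], [], [nat_lit 18754741017, nat_lit 19906062985, nat_lit 21312923737, nat_lit 22247027657, nat_lit 22509665401, nat_lit 23810205824, nat_lit 24899274656, nat_lit 25959478016], nat_lit 1271250, nat_lit 1271250, nat_lit 780000, nat_lit 1762500, nat_lit 1271250, nat_lit 1271250, [nat_lit 780000, nat_lit 1100000, nat_lit 1442500], [nat_lit 59, nat_lit 40, nat_lit 40, nat_lit 80, nat_lit 3, nat_lit 272, nat_lit 60, nat_lit 9]⟩, ⟨p064_k9, nat_lit 0, nat_lit 0, nat_lit 326, nat_lit 0, nat_lit 321015, [nat_lit 1209504000, nat_lit 1612500000, nat_lit 2539236000], [], [nat_lit 9719529080, nat_lit 9498310624, nat_lit 8852036536, nat_lit 8948763986, nat_lit 8410510992, nat_lit 8303071130, nat_lit 10332835184, nat_lit 10143821120], nat_lit 1271250, nat_lit 1271250, nat_lit 780000, nat_lit 1762500, nat_lit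 0, nat_lit 1100001, [nat_lit 1100000, nat_lit 1442500, nat_lit 1271250], [nat_lit 11, nat_lit 40, nat_lit 40, nat_lit 80, nat_lit 1, nat_lit 401, nat_lit 175, nat_lit 12]⟩,
 ⟨nat_lit 4472, nat_lit 5000, ⟨.ofNat (nat_lit 399984), .ofNat (nat_lit 614256), .ofNat (nat_lit 410692), .ofNat (nat_lit 624963), .ofNat (nat_lit 407160), .ofNat (nat_lit 611081), .ofNat (nat_lit 417938), .ofNat (nat_lit 621858)⟩, ⟨.ofNat (nat_lit 464284), .ofNat (nat_lit 607141), .ofNat (nat_lit 485713), .ofNat (nat_lit 628570), .ofNat (nat_lit 460144), .ofNat (nat_lit 596101), .ofNat (nat_lit 481711), .ofNat (nat_lit 617667)⟩⟩, [⟨nat_lit 4, nat_lit 97, nat_lit 94, nat_lit 100, nat_lit 285161645⟩]⟩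
noncomputable def p064_l105 : Lf2 := ⟨nat_lit 0, nat_lit 5, [nat_lit 4, nat_lit 5, nat_lit 5, nat_lit 20], false, nat_lit 240, nat_lit 320, nat_lit 0, nat_lit 160, ⟨nat_lit 1000, nat_lit 0, nat_lit 0, nat_lit 0, nat_lit 0, nat_lit 0, nat_lit 0, nat_lit 0, nat_lit 0, nat_lit 0, nat_lit 0, nat_lit 0, nat_lit 0, nat_lit 0, nat_lit 0, nat_lit 0, false, false⟩,
 nat_lit 6725, nat_lit 1477, nat_lit 0, nat_lit 0, nat_lit 5678, nat_lit 3735, nat_lit 1280, nat_lit 0, nat_lit 0, nat_lit 163, nat_lit 0, nat_lit 0, nat_lit 0, nat_lit 0, nat_lit 0, nat_lit 0, nat_lit 0, nat_lit 0, [],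
 ⟨p064_k5, nat_lit 0, nat_lit 0, nat_lit 142, nat_lit 0, nat_lit 259989, [nat_lit 3282000000, nat_lit 4688000000, nat_lit 6250000000], [], [nat_lit 19053131048, nat_lit 20328324520, nat_lit 21557664428, nat_lit 22578910608, nat_lit 23150528384, nat_lit 24604467096, nat_lit 25417889824, nat_lit 26581103264], nat_lit 1271250, nat_lit 1271250, nat_lit 780000, nat_lit 1762500, nat_lit 1271250, nat_lit 1271250, [nat_lit 780000, nat_lit 1100000, nat_lit 1442500], [nat_lit 59, nat_lit 40, nat_lit 40, nat_lit 80, nat_lit 3, nat_lit 272, nat_lit 60, nat_lit 9]⟩, ⟨p064_k6, nat_lit 0, nat_lit 0, nat_lit 269, nat_lit 0, nat_lit 342372, [nat_lit 4688000000, nat_lit 6250000000, nat_lit 7968000000], [], [nat_lit 38075749545, nat_lit 37073017830, nat_lit 36030938385, nat_lit 36394089590, nat_lit 33139648015, nat_lit 33517660930, nat_lit 38883015630, nat_lit 38026258920], nat_lit 1271250, nat_lit 1271250, nat_lit 780000, nat_lit 1762500,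 nat_lit 0, nat_lit 1100001, [nat_lit 1100000, nat_lit 1442500, nat_lit 1271250], [nat_lit 9, nat_lit 40, nat_lit 40, nat_lit 80, nat_lit 2, nat_lit 317, nat_lit 100, nat_lit 11]⟩,
 zbF0, [⟨nat_lit 16, nat_lit 94, nat_lit 88, nat_lit 100, nat_lit 532013420⟩]⟩
noncomputable def p064_l106 : Lf2 := ⟨nat_lit 0, nat_lit 5, [nat_lit 4, nat_lit 5, nat_lit 5, nat_lit 20], false, nat_lit 240, nat_lit 320, nat_lit 160, nat_lit 240, ⟨nat_lit 930, nat_lit 70, nat_lit 0, nat_lit 6, nat_lit 208, nat_lit 70, nat_lit 217, nat_lit 0, nat_lit 0, nat_lit 0, nat_lit 0, nat_lit 0, nat_lit 40684888, nat_lit 12686331, nat_lit 13628781, nat_lit 5082412, false, false⟩,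
 nat_lit 8060, nat_lit 0, nat_lit 0, nat_lit 486, nat_lit 5579, nat_lit 4266, nat_lit 1177, nat_lit 0, nat_lit 0, nat_lit 255, nat_lit 0, nat_lit 0, nat_lit 0, nat_lit 0, nat_lit 0, nat_lit 70000, nat_lit 0, nat_lit 0, [(nat_lit 15, [(nat_lit 2, nat_lit 70)])],
 ⟨p064_k5, nat_lit 0, nat_lit 0, nat_lit 142, nat_lit 0, nat_lit 259989, [nat_lit 3190960801, nat_lit 4479232000, nat_lit 5864020000], [], [nat_lit 19023332040, nat_lit 20286801536, nat_lit 21532943130, nat_lit 22545941620, nat_lit 23088315588, nat_lit 24529293228, nat_lit 25368804832, nat_lit 26522268752], nat_lit 1271250, nat_lit 1271250, nat_lit 780000, nat_lit 1762500, nat_lit 1271250, nat_lit 1271250, [nat_lit 780000, nat_lit 1100000, nat_lit 1442500], [nat_lit 59, nat_lit 40, nat_lit 40, nat_lit 80, nat_lit 3, nat_lit 272, nat_lit 60, nat_lit 9]⟩, ⟨p064_k9, nat_lit 0, nat_lit 0, nat_lit 194, nat_lit 0, nat_lit 364153, [nat_lit 4359840000, nat_lit 5812500000,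 nat_lit 9153060000], [], [nat_lit 30913212600, nat_lit 28657616292, nat_lit 29915555256, nat_lit 28341427530, nat_lit 27864836928, nat_lit 27962388690, nat_lit 36056610864, nat_lit 34073338932], nat_lit 1271250, nat_lit 1271250, nat_lit 780000, nat_lit 1762500, nat_lit 1100001, nat_lit 1785000, [nat_lit 1100000, nat_lit 1442500, nat_lit 1271250], [nat_lit 11, nat_lit 40, nat_lit 40, nat_lit 80, nat_lit 1, nat_lit 428, nat_lit 200, nat_lit 12]⟩,
 ⟨nat_lit 4472, nat_lit 5000, ⟨.ofNat (nat_lit 399984), .ofNat (nat_lit 614256), .ofNat (nat_lit 421400), .ofNat (nat_lit 635672), .ofNat (nat_lit 407160), .ofNat (nat_lit 611081), .ofNat (nat_lit 428715), .ofNat (nat_lit 632635)⟩, ⟨.ofNat (nat_lit 464284), .ofNat (nat_lit 607141), .ofNat (nat_lit 485713), .ofNat (nat_lit 628570), .ofNat (nat_lit 460144), .ofNat (nat_lit 596101), .ofNat (nat_lit 481711), .ofNat (nat_lit 617667)⟩⟩, [⟨nat_lit 16, nat_lit 94, nat_lit 88, nat_lit 100,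 nat_lit 508760947⟩]⟩
noncomputable def p064_l107 : Lf2 := ⟨nat_lit 0, nat_lit 5, [nat_lit 4, nat_lit 5, nat_lit 5, nat_lit 20], false, nat_lit 240, nat_lit 320, nat_lit 240, nat_lit 364, ⟨nat_lit 362, nat_lit 638, nat_lit 0, nat_lit 6, nat_lit 205, nat_lit 638, nat_lit 217, nat_lit 0, nat_lit 0, nat_lit 0, nat_lit 0, nat_lit 0, nat_lit 40831921, nat_lit 12507132, nat_lit 13660947, nat_lit 5067659, false, false⟩,
 nat_lit 5576, nat_lit 1487, nat_lit 0, nat_lit 0, nat_lit 4889, nat_lit 2952, nat_lit 179, nat_lit 0, nat_lit 0, nat_lit 734, nat_lit 0, nat_lit 0, nat_lit 0, nat_lit 0, nat_lit 0, nat_lit 638000, nat_lit 0, nat_lit 0, [(nat_lit 15, [(nat_lit 2, nat_lit 638)])],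
 ⟨p064_k5, nat_lit 0, nat_lit 0, nat_lit 133, nat_lit 0, nat_lit 229190, [nat_lit 2452242720, nat_lit 2785228801, nat_lit 2732068000], [], [nat_lit 18991838669, nat_lit 20173595605, nat_lit 21536839859, nat_lit 22492354449, nat_lit 22931649625, nat_lit 24005354148, nat_lit 25026697312, nat_lit 26112210032], nat_lit 1271250, nat_lit 1271250, nat_lit 780000, nat_lit 1762500, nat_lit 1271250, nat_lit 1271250, [nat_lit 780000, nat_lit 1100000, nat_lit 1442500], [nat_lit 59, nat_lit 40, nat_lit 40, nat_lit 80, nat_lit 3, nat_lit 272, nat_lit 60, nat_lit 9]⟩, ⟨p064_k9, nat_lit 0, nat_lit 0, nat_lit 221, nat_lit 0, nat_lit 321015, [nat_lit 1697056000, nat_lit 2262500000, nat_lit 3562804000], [], [nat_lit 6067895036, nat_lit 6290213982, nat_lit 7311254232, nat_lit 7143897890, nat_lit 9343528285, nat_lit 9486756401, nat_lit 9945213063, nat_lit 10117460151], nat_lit 1271250, nat_lit 1271250, nat_lit 780000, nat_lit 1762500, nat_lit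 1271250, nat_lit 1271250, [nat_lit 1100000, nat_lit 1442500, nat_lit 1271250], [nat_lit 11, nat_lit 40, nat_lit 40, nat_lit 80, nat_lit 1, nat_lit 456, nat_lit 225, nat_lit 12]⟩,
 ⟨nat_lit 4472, nat_lit 5000, ⟨.ofNat (nat_lit 399984), .ofNat (nat_lit 614256), .ofNat (nat_lit 410692), .ofNat (nat_lit 624963), .ofNat (nat_lit 407160), .ofNat (nat_lit 611081), .ofNat (nat_lit 417938), .ofNat (nat_lit 621858)⟩, ⟨.ofNat (nat_lit 464284), .ofNat (nat_lit 607141), .ofNat (nat_lit 485713), .ofNat (nat_lit 628570), .ofNat (nat_lit 460144), .ofNat (nat_lit 596101), .ofNat (nat_lit 481711), .ofNat (nat_lit 617667)⟩⟩, [⟨nat_lit 4, nat_lit 97, nat_lit 94, nat_lit 100, nat_lit 132922892⟩, ⟨nat_lit 23, nat_lit 92, nat_lit 49, nat_lit 100, nat_lit 93151838⟩, ⟨nat_lit 11, nat_lit 75, nat_lit 75, nat_lit 100, nat_lit 168446055⟩]⟩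
noncomputable def p064_l108 : Lf2 := ⟨nat_lit 0, nat_lit 5, [nat_lit 4, nat_lit 5, nat_lit 5, nat_lit 20], false, nat_lit 240, nat_lit 320, nat_lit 240, nat_lit 360, ⟨nat_lit 549, nat_lit 451, nat_lit 0, nat_lit 6, nat_lit 210, nat_lit 451, nat_lit 217, nat_lit 0, nat_lit 0, nat_lit 0, nat_lit 0, nat_lit 0, nat_lit 40537816, nat_lit 12865799, nat_lit 13596385, nat_lit 5096893, false, false⟩,
 nat_lit 7651, nat_lit 0, nat_lit 0, nat_lit 0, nat_lit 5296, nat_lit 4250, nat_lit 382, nat_lit 0, nat_lit 0, nat_lit 924, nat_lit 0, nat_lit 0, nat_lit 0, nat_lit 0, nat_lit 0, nat_lit 451000, nat_lit 0, nat_lit 0, [(nat_lit 15, [(nat_lit 2, nat_lit 451)])],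
 ⟨p064_k5, nat_lit 0, nat_lit 0, nat_lit 142, nat_lit 0, nat_lit 259989, [nat_lit 2695447441, nat_lit 3342937600, nat_lit 3763186000], [], [nat_lit 18995922827, nat_lit 20225878331, nat_lit 21526382042, nat_lit 22630896042, nat_lit 23201720250, nat_lit 24314402272, nat_lit 25228491168, nat_lit 26354085248], nat_lit 1271250, nat_lit 1271250, nat_lit 780000, nat_lit 1762500, nat_lit 1271250, nat_lit 1271250, [nat_lit 780000, nat_lit 1100000, nat_lit 1442500], [nat_lit 59, nat_lit 40, nat_lit 40, nat_lit 80, nat_lit 3, nat_lit 272, nat_lit 60, nat_lit 9]⟩, ⟨p064_k6, nat_lit 0, nat_lit 0, nat_lit 203, nat_lit 0, nat_lit 342372, [nat_lit 2573712000, nat_lit 3431250000, nat_lit 4374432000], [], [nat_lit 9373376312, nat_lit 9679396424, nat_lit 10692469001, nat_lit 10926826076, nat_lit 14035031933, nat_lit 14274228068, nat_lit 14979781633, nat_lit 15240701551], nat_lit 1271250, nat_lit 1271250, nat_lit 780000, nat_lit 1762500, nat_lit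 1271250, nat_lit 1271250, [nat_lit 1100000, nat_lit 1442500, nat_lit 1271250], [nat_lit 9, nat_lit 40, nat_lit 40, nat_lit 80, nat_lit 2, nat_lit 272, nat_lit 60, nat_lit 8]⟩,
 ⟨nat_lit 4472, nat_lit 5000, ⟨.ofNat (nat_lit 410692), .ofNat (nat_lit 624963), .ofNat (nat_lit 421400), .ofNat (nat_lit 635672), .ofNat (nat_lit 417938), .ofNat (nat_lit 621858), .ofNat (nat_lit 428715), .ofNat (nat_lit 632635)⟩, ⟨.ofNat (nat_lit 464284), .ofNat (nat_lit 607141), .ofNat (nat_lit 485713), .ofNat (nat_lit 628570), .ofNat (nat_lit 460144), .ofNat (nat_lit 596101), .ofNat (nat_lit 481711), .ofNat (nat_lit 617667)⟩⟩, [⟨nat_lit 4, nat_lit 97, nat_lit 94, nat_lit 100, nat_lit 84980787⟩, ⟨nat_lit 7, nat_lit 71, nat_lit 100, nat_lit 93, nat_lit 47854412⟩, ⟨nat_lit 11, nat_lit 75, nat_lit 75, nat_lit 100, nat_lit 366085091⟩]⟩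
noncomputable def p064_l109 : Lf2 := ⟨nat_lit 0, nat_lit 5, [nat_lit 4, nat_lit 5, nat_lit 5, nat_lit 20], false, nat_lit 240, nat_lit 320, nat_lit 0, nat_lit 160, ⟨nat_lit 1000, nat_lit 0, nat_lit 0, nat_lit 0, nat_lit 0, nat_lit 0, nat_lit 0, nat_lit 0, nat_lit 0, nat_lit 0, nat_lit 0, nat_lit 0, nat_lit 0, nat_lit 0, nat_lit 0, nat_lit 0, false, false⟩,
 nat_lit 6120, nat_lit 3001, nat_lit 0, nat_lit 0, nat_lit 6314, nat_lit 3562, nat_lit 983, nat_lit 0, nat_lit 0, nat_lit 992, nat_lit 0, nat_lit 0, nat_lit 0, nat_lit 0, nat_lit 0, nat_lit 0, nat_lit 0, nat_lit 0, [],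
 ⟨p064_k5, nat_lit 0, nat_lit 0, nat_lit 201, nat_lit 0, nat_lit 401809, [nat_lit 3282000000, nat_lit 4688000000, nat_lit 6250000000], [], [nat_lit 19891394617, nat_lit 21011483869, nat_lit 21876360653, nat_lit 22770209205, nat_lit 23545096341, nat_lit 25087402248, nat_lit 25733223712, nat_lit 26959070432], nat_lit 1271250, nat_lit 1271250, nat_lit 780000, nat_lit 1762500, nat_lit 1271250, nat_lit 1271250, [nat_lit 780000, nat_lit 1100000, nat_lit 1442500], [nat_lit 59, nat_lit 40, nat_lit 40, nat_lit 80, nat_lit 3, nat_lit 272, nat_lit 60, nat_lit 9]⟩, ⟨p064_k30, nat_lit 0, nat_lit 0, nat_lit 367, nat_lit 0, nat_lit 498708, [nat_lit 4688000000, nat_lit 6250000000, nat_lit 7968000000], [], [nat_lit 36716503236, nat_lit 34803930080, nat_lit 33951909228, nat_lit 34668661000, nat_lit 31214322756, nat_lit 31959487992, nat_lit 38204713264, nat_lit 36570567400], nat_lit 1271250, nat_lit 1271250, nat_lit 780000, nat_lit 1762500,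 nat_lit 0, nat_lit 1100001, [nat_lit 1100000, nat_lit 1442500, nat_lit 1271250], [nat_lit 9, nat_lit 40, nat_lit 40, nat_lit 80, nat_lit 2, nat_lit 317, nat_lit 100, nat_lit 10]⟩,
 zbF0, [⟨nat_lit 16, nat_lit 94, nat_lit 88, nat_lit 100, nat_lit 502544773⟩]⟩
noncomputable def p064_l110 : Lf2 := ⟨nat_lit 0, nat_lit 2, [nat_lit 10, nat_lit 5, nat_lit 5, nat_lit 20], false, nat_lit 240, nat_lit 320, nat_lit 160, nat_lit 352, ⟨nat_lit 656, nat_lit 344, nat_lit 0, nat_lit 6, nat_lit 188, nat_lit 344, nat_lit 213, nat_lit 0, nat_lit 0, nat_lit 0, nat_lit 0, nat_lit 0, nat_lit 42325237, nat_lit 11141303, nat_lit 13533460, nat_lit 4911210, false, false⟩,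
 nat_lit 7862, nat_lit 0, nat_lit 0, nat_lit 0, nat_lit 5442, nat_lit 4576, nat_lit 109, nat_lit 0, nat_lit 0, nat_lit 1555, nat_lit 0, nat_lit 0, nat_lit 0, nat_lit 0, nat_lit 0, nat_lit 344000, nat_lit 0, nat_lit 0, [(nat_lit 15, [(nat_lit 2, nat_lit 344)])],
 ⟨p064_k61, nat_lit 0, nat_lit 0, nat_lit 165, nat_lit 0, nat_lit 389244, [nat_lit 2834607361, nat_lit 3619123200], [], [nat_lit 19321442434, nat_lit 20512632122, nat_lit 19814546978, nat_lit 20933698498, nat_lit 23184905462, nat_lit 24425264744, nat_lit 23442403434, nat_lit 24587977336], nat_lit 1271250, nat_lit 1271250, nat_lit 780000, nat_lit 1100001, nat_lit 1271250, nat_lit 1271250, [nat_lit 780000, nat_lit 1100000], [nat_lit 40, nat_lit 40, nat_lit 40, nat_lit 80, nat_lit 22, nat_lit 249, nat_lit 40, nat_lit 10]⟩, ⟨p064_k62, nat_lit 0, nat_lit 0, nat_lit 230, nat_lit 0, nat_lit 481980, [nat_lit 3075328000, nat_lit 4100000000], [], [nat_lit 12830217625, nat_lit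 11666767769, nat_lit 14999209945, nat_lit 12751378073, nat_lit 16445028781, nat_lit 16879675430, nat_lit 16407549158, nat_lit 16847150733], nat_lit 1271250, nat_lit 1271250, nat_lit 780000, nat_lit 1100001, nat_lit 1271250, nat_lit 1271250, [nat_lit 1100000, nat_lit 1442500], [nat_lit 31, nat_lit 40, nat_lit 40, nat_lit 80, nat_lit 3, nat_lit 373, nat_lit 150, nat_lit 14]⟩,
 ⟨nat_lit 4472, nat_lit 5000, ⟨.ofNat (nat_lit 421400), .ofNat (nat_lit 492824), .ofNat (nat_lit 442816), .ofNat (nat_lit 514240), .ofNat (nat_lit 428715), .ofNat (nat_lit 496688), .ofNat (nat_lit 450269), .ofNat (nat_lit 518242)⟩, ⟨.ofNat (nat_lit 442856), .ofNat (nat_lit 585713), .ofNat (nat_lit 485713), .ofNat (nat_lit 628570), .ofNat (nat_lit 438578), .ofNat (nat_lit 574534), .ofNat (nat_lit 481711), .ofNat (nat_lit 617667)⟩⟩, [⟨nat_lit 4, nat_lit 100, nat_lit 93, nat_lit 97, nat_lit 164119693⟩, ⟨nat_lit 11, nat_lit 85, nat_lit 85, nat_lit 100, nat_lit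 291954189⟩]⟩
noncomputable def p064_l111 : Lf2 := ⟨nat_lit 0, nat_lit 5, [nat_lit 4, nat_lit 5, nat_lit 5, nat_lit 20], false, nat_lit 240, nat_lit 320, nat_lit 160, nat_lit 352, ⟨nat_lit 842, nat_lit 158, nat_lit 0, nat_lit 6, nat_lit 188, nat_lit 158, nat_lit 214, nat_lit 0, nat_lit 0, nat_lit 0, nat_lit 0, nat_lit 0, nat_lit 42306048, nat_lit 11086036, nat_lit 13607916, nat_lit 4911976, false, false⟩,
 nat_lit 10045, nat_lit 0, nat_lit 0, nat_lit 0, nat_lit 6655, nat_lit 5847, nat_lit 418, nat_lit 0, nat_lit 0, nat_lit 1483, nat_lit 0, nat_lit 0, nat_lit 0, nat_lit 0, nat_lit 0, nat_lit 158000, nat_lit 0, nat_lit 0, [(nat_lit 15, [(nat_lit 2, nat_lit 158)])],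
 ⟨p064_k5, nat_lit 0, nat_lit 0, nat_lit 141, nat_lit 0, nat_lit 266866, [nat_lit 3076511520, nat_lit 4216780800, nat_lit 5378788000], [], [nat_lit 18983446560, nat_lit 19766972675, nat_lit 19360474540, nat_lit 20093941735, nat_lit 23930853750, nat_lit 24553948110, nat_lit 23989548470, nat_lit 24597022000], nat_lit 1271250, nat_lit 1271250, nat_lit 780000, nat_lit 1100001, nat_lit 1271250, nat_lit 1271250, [nat_lit 780000, nat_lit 1100000, nat_lit 1442500], [nat_lit 59, nat_lit 40, nat_lit 40, nat_lit 80, nat_lit 3, nat_lit 249, nat_lit 40, nat_lit 8]⟩, ⟨p064_k30, nat_lit 0, nat_lit 0, nat_lit 198, nat_lit 0, nat_lit 331222, [nat_lit 3947296000, nat_lit 5262500000, nat_lit 6709056000], [], [nat_lit 16934365195, nat_lit 14204481200, nat_lit 19710658675, nat_lit 16838483641, nat_lit 20960390880, nat_lit 21634854426, nat_lit 20954404717, nat_lit 21593251697], nat_lit 1271250, nat_lit 1271250, nat_lit 780000, nat_lit 1100001,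 nat_lit 1271250, nat_lit 1271250, [nat_lit 1100000, nat_lit 1442500, nat_lit 1271250], [nat_lit 9, nat_lit 40, nat_lit 40, nat_lit 80, nat_lit 2, nat_lit 373, nat_lit 150, nat_lit 12]⟩,
 ⟨nat_lit 4743, nat_lit 5000, ⟨.ofNat (nat_lit 421423), .ofNat (nat_lit 492849), .ofNat (nat_lit 442849), .ofNat (nat_lit 514275), .ofNat (nat_lit 425060), .ofNat (nat_lit 494757), .ofNat (nat_lit 446544), .ofNat (nat_lit 516242)⟩, ⟨.ofNat (nat_lit 442856), .ofNat (nat_lit 585713), .ofNat (nat_lit 485713), .ofNat (nat_lit 628570), .ofNat (nat_lit 440769), .ofNat (nat_lit 580169), .ofNat (nat_lit 483746), .ofNat (nat_lit 623145)⟩⟩, [⟨nat_lit 4, nat_lit 100, nat_lit 97, nat_lit 98, nat_lit 212932190⟩, ⟨nat_lit 11, nat_lit 85, nat_lit 85, nat_lit 100, nat_lit 347457031⟩]⟩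
noncomputable def p064_l112 : Lf2 := ⟨nat_lit 0, nat_lit 5, [nat_lit 4, nat_lit 5, nat_lit 5, nat_lit 20], false, nat_lit 240, nat_lit 312, nat_lit 160, nat_lit 240, ⟨nat_lit 1000, nat_lit 0, nat_lit 0, nat_lit 0, nat_lit 0, nat_lit 0, nat_lit 0, nat_lit 0, nat_lit 0, nat_lit 0, nat_lit 0, nat_lit 0, nat_lit 0, nat_lit 0, nat_lit 0, nat_lit 0, false, false⟩,
 nat_lit 19507, nat_lit 0, nat_lit 0, nat_lit 0, nat_lit 6029, nat_lit 11354, nat_lit 1202, nat_lit 0, nat_lit 0, nat_lit 1395, nat_lit 0, nat_lit 0, nat_lit 0, nat_lit 0, nat_lit 0, nat_lit 0, nat_lit 0, nat_lit 0, [],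
 ⟨p064_k20, nat_lit 0, nat_lit 0, nat_lit 154, nat_lit 0, nat_lit 304926, [nat_lit 3282000000, nat_lit 4688000000, nat_lit 6250000000], [], [nat_lit 18701296712, nat_lit 19359676860, nat_lit 19072790994, nat_lit 19690230992, nat_lit 23538253365, nat_lit 24310447698, nat_lit 23701647218, nat_lit 24427185581], nat_lit 1271250, nat_lit 1271250, nat_lit 780000, nat_lit 1100001, nat_lit 1271250, nat_lit 1271250, [nat_lit 780000, nat_lit 1100000, nat_lit 1442500], [nat_lit 59, nat_lit 40, nat_lit 40, nat_lit 80, nat_lit 3, nat_lit 249, nat_lit 40, nat_lit 8]⟩, ⟨p064_k30, nat_lit 0, nat_lit 0, nat_lit 181, nat_lit 0, nat_lit 397700, [nat_lit 4688000000, nat_lit 6250000000, nat_lit 7968000000], [], [nat_lit 8991443036, nat_lit 11095633216, nat_lit 9604655037, nat_lit 11404179480, nat_lit 16564660885, nat_lit 14794934960, nat_lit 21454760017, nat_lit 16031090465], nat_lit 1271250, nat_lit 1271250, nat_lit 780000, nat_lit 1100001,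 nat_lit 1100001, nat_lit 1785000, [nat_lit 1100000, nat_lit 1442500, nat_lit 1271250], [nat_lit 9, nat_lit 40, nat_lit 40, nat_lit 80, nat_lit 2, nat_lit 317, nat_lit 100, nat_lit 10]⟩,
 zbF0, [⟨nat_lit 4, nat_lit 100, nat_lit 90, nat_lit 95, nat_lit 667954889⟩]⟩
noncomputable def p064_l113 : Lf2 := ⟨nat_lit 0, nat_lit 5, [nat_lit 4, nat_lit 5, nat_lit 5, nat_lit 20], false, nat_lit 240, nat_lit 312, nat_lit 240, nat_lit 352, ⟨nat_lit 608, nat_lit 392, nat_lit 0, nat_lit 6, nat_lit 189, nat_lit 392, nat_lit 210, nat_lit 0, nat_lit 0, nat_lit 0, nat_lit 0, nat_lit 0, nat_lit 42541285, nat_lit 11202153, nat_lit 13256562, nat_lit 4891653, false, false⟩,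
 nat_lit 7841, nat_lit 0, nat_lit 0, nat_lit 0, nat_lit 5652, nat_lit 4564, nat_lit 602, nat_lit 0, nat_lit 0, nat_lit 895, nat_lit 0, nat_lit 0, nat_lit 0, nat_lit 0, nat_lit 0, nat_lit 98000, nat_lit 0, nat_lit 0, [(nat_lit 15, [(nat_lit 0, nat_lit 392)])],
 ⟨p064_k20, nat_lit 0, nat_lit 0, nat_lit 144, nat_lit 0, nat_lit 279247, [nat_lit 2904268800, nat_lit 3768211200, nat_lit 4868121600], [], [nat_lit 19441190856, nat_lit 19759219468, nat_lit 19844180472, nat_lit 20151314318, nat_lit 23379129944, nat_lit 23672964691, nat_lit 23550883182, nat_lit 23859009910], nat_lit 1271250, nat_lit 1271250, nat_lit 780000, nat_lit 1100001, nat_lit 1271250, nat_lit 1271250, [nat_lit 780000, nat_lit 1100000, nat_lit 1442500], [nat_lit 59, nat_lit 40, nat_lit 40, nat_lit 80, nat_lit 3, nat_lit 249, nat_lit 40, nat_lit 8]⟩, ⟨p064_k30, nat_lit 0, nat_lit 0, nat_lit 210, nat_lit 0, nat_lit 364209, [nat_lit 2850304000, nat_lit 3800000000,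 nat_lit 4844544000], [], [nat_lit 11179023813, nat_lit 11782645005, nat_lit 11348757285, nat_lit 11909507229, nat_lit 15356435490, nat_lit 15896742573, nat_lit 15261893975, nat_lit 15819734353], nat_lit 1271250, nat_lit 1271250, nat_lit 780000, nat_lit 1100001, nat_lit 1271250, nat_lit 1271250, [nat_lit 1100000, nat_lit 1442500, nat_lit 1271250], [nat_lit 9, nat_lit 40, nat_lit 40, nat_lit 80, nat_lit 2, nat_lit 249, nat_lit 40, nat_lit 7]⟩,
 ⟨nat_lit 4609, nat_lit 4744, ⟨.ofNat (nat_lit 425062), .ofNat (nat_lit 494762), .ofNat (nat_lit 446549), .ofNat (nat_lit 516249), .ofNat (nat_lit 426894), .ofNat (nat_lit 495733), .ofNat (nat_lit 448419), .ofNat (nat_lit 517257)⟩, ⟨.ofNat (nat_lit 440769), .ofNat (nat_lit 566229), .ofNat (nat_lit 483746), .ofNat (nat_lit 609205), .ofNat (nat_lit 439688), .ofNat (nat_lit 563598), .ofNat (nat_lit 482738), .ofNat (nat_lit 606647)⟩⟩, [⟨nat_lit 16, nat_lit 92, nat_lit 100, nat_lit 96, nat_lit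 124265860⟩, ⟨nat_lit 19, nat_lit 100, nat_lit 82, nat_lit 92, nat_lit 46551411⟩, ⟨nat_lit 11, nat_lit 85, nat_lit 85, nat_lit 100, nat_lit 345870791⟩]⟩
noncomputable def p064_l114 : Lf2 := ⟨nat_lit 0, nat_lit 5, [nat_lit 4, nat_lit 5, nat_lit 5, nat_lit 20], false, nat_lit 240, nat_lit 304, nat_lit 240, nat_lit 352, ⟨nat_lit 600, nat_lit 400, nat_lit 0, nat_lit 6, nat_lit 189, nat_lit 400, nat_lit 206, nat_lit 0, nat_lit 0, nat_lit 0, nat_lit 0, nat_lit 0, nat_lit 42761746, nat_lit 11290300, nat_lit 12947954, nat_lit 4871384, false, false⟩,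
 nat_lit 7615, nat_lit 0, nat_lit 0, nat_lit 0, nat_lit 5600, nat_lit 4432, nat_lit 572, nat_lit 0, nat_lit 0, nat_lit 921, nat_lit 0, nat_lit 0, nat_lit 0, nat_lit 0, nat_lit 0, nat_lit 100000, nat_lit 0, nat_lit 0, [(nat_lit 15, [(nat_lit 0, nat_lit 400)])],
 ⟨p064_k63, nat_lit 0, nat_lit 0, nat_lit 149, nat_lit 0, nat_lit 297630, [nat_lit 2896560001, nat_lit 3749440000, nat_lit 4839920000], [], [nat_lit 19742952401, nat_lit 20059441501, nat_lit 20130963701, nat_lit 20435067100, nat_lit 23168840720, nat_lit 23468306781, nat_lit 23355810860, nat_lit 23672157440], nat_lit 1271250, nat_lit 1271250, nat_lit 780000, nat_lit 1100001, nat_lit 1271250, nat_lit 1271250, [nat_lit 780000, nat_lit 1100000, nat_lit 1442500], [nat_lit 59, nat_lit 40, nat_lit 40, nat_lit 80, nat_lit 3, nat_lit 249, nat_lit 40, nat_lit 8]⟩, ⟨p064_k30, nat_lit 0, nat_lit 0, nat_lit 231, nat_lit 0, nat_lit 397700, [nat_lit 2812800000, nat_lit 3750000000,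 nat_lit 4780800000], [], [nat_lit 12182630779, nat_lit 12672047563, nat_lit 12243163771, nat_lit 12697315467, nat_lit 15244900379, nat_lit 15629693752, nat_lit 15131424454, nat_lit 15563720506], nat_lit 1271250, nat_lit 1271250, nat_lit 780000, nat_lit 1100001, nat_lit 1271250, nat_lit 1271250, [nat_lit 1100000, nat_lit 1442500, nat_lit 1271250], [nat_lit 9, nat_lit 40, nat_lit 40, nat_lit 80, nat_lit 2, nat_lit 249, nat_lit 40, nat_lit 7]⟩,
 ⟨nat_lit 4472, nat_lit 4610, ⟨.ofNat (nat_lit 426894), .ofNat (nat_lit 495732), .ofNat (nat_lit 448418), .ofNat (nat_lit 517257), .ofNat (nat_lit 428740), .ofNat (nat_lit 496718), .ofNat (nat_lit 450306), .ofNat (nat_lit 518284)⟩, ⟨.ofNat (nat_lit 439688), .ofNat (nat_lit 549830), .ofNat (nat_lit 482738), .ofNat (nat_lit 592879), .ofNat (nat_lit 438578), .ofNat (nat_lit 547343), .ofNat (nat_lit 481711), .ofNat (nat_lit 590476)⟩⟩, [⟨nat_lit 16, nat_lit 89, nat_lit 100, nat_lit 95, nat_lit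 147596224⟩, ⟨nat_lit 19, nat_lit 100, nat_lit 82, nat_lit 92, nat_lit 12582984⟩, ⟨nat_lit 11, nat_lit 85, nat_lit 85, nat_lit 100, nat_lit 319507116⟩]⟩
noncomputable def p064_l115 : Lf2 := ⟨nat_lit 0, nat_lit 5, [nat_lit 4, nat_lit 5, nat_lit 5, nat_lit 20], false, nat_lit 240, nat_lit 320, nat_lit 160, nat_lit 352, ⟨nat_lit 731, nat_lit 269, nat_lit 0, nat_lit 6, nat_lit 230, nat_lit 269, nat_lit 213, nat_lit 0, nat_lit 0, nat_lit 0, nat_lit 0, nat_lit 0, nat_lit 39423819, nat_lit 14651837, nat_lit 12924344, nat_lit 5194140, false, false⟩,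
 nat_lit 9122, nat_lit 0, nat_lit 0, nat_lit 0, nat_lit 6315, nat_lit 5309, nat_lit 719, nat_lit 0, nat_lit 0, nat_lit 1242, nat_lit 0, nat_lit 0, nat_lit 0, nat_lit 0, nat_lit 0, nat_lit 107600, nat_lit 0, nat_lit 0, [(nat_lit 15, [(nat_lit 1, nat_lit 269)])],
 ⟨p064_k5, nat_lit 0, nat_lit 0, nat_lit 176, nat_lit 0, nat_lit 401809, [nat_lit 2942575800, nat_lit 4023032000, nat_lit 5194551600], [], [nat_lit 19054813975, nat_lit 20241061225, nat_lit 21064775605, nat_lit 22430551340, nat_lit 23681875980, nat_lit 25131776020, nat_lit 25733719520, nat_lit 26959664720], nat_lit 1271250, nat_lit 1271250, nat_lit 1100001, nat_lit 1785000, nat_lit 1271250, nat_lit 1271250, [nat_lit 780000, nat_lit 1100000, nat_lit 1442500], [nat_lit 59, nat_lit 40, nat_lit 40, nat_lit 80, nat_lit 3, nat_lit 272, nat_lit 60, nat_lit 9]⟩, ⟨p064_k30, nat_lit 0, nat_lit 0, nat_lit 263, nat_lit 0, nat_lit 498708, [nat_lit 3426928000, nat_lit 4568750000,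 nat_lit 5824608000], [], [nat_lit 23329933290, nat_lit 20522863248, nat_lit 19833989482, nat_lit 17262532860, nat_lit 18480137507, nat_lit 18901496813, nat_lit 19529522223, nat_lit 20232943568], nat_lit 1271250, nat_lit 1271250, nat_lit 1100001, nat_lit 1785000, nat_lit 1271250, nat_lit 1271250, [nat_lit 1100000, nat_lit 1442500, nat_lit 1271250], [nat_lit 9, nat_lit 40, nat_lit 40, nat_lit 80, nat_lit 2, nat_lit 373, nat_lit 150, nat_lit 12]⟩,
 ⟨nat_lit 4472, nat_lit 5000, ⟨.ofNat (nat_lit 492824), .ofNat (nat_lit 635672), .ofNat (nat_lit 514240), .ofNat (nat_lit 657088), .ofNat (nat_lit 496688), .ofNat (nat_lit 632635), .ofNat (nat_lit 518242), .ofNat (nat_lit 654189)⟩, ⟨.ofNat (nat_lit 442856), .ofNat (nat_lit 585713), .ofNat (nat_lit 485713), .ofNat (nat_lit 628570), .ofNat (nat_lit 438578), .ofNat (nat_lit 574534), .ofNat (nat_lit 481711), .ofNat (nat_lit 617667)⟩⟩, [⟨nat_lit 16, nat_lit 93, nat_lit 100, nat_lit 97,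 nat_lit 530606045⟩, ⟨nat_lit 19, nat_lit 100, nat_lit 69, nat_lit 96, nat_lit 60827118⟩]⟩
noncomputable def b_V_700_600_20_46 : St := ⟨true, nat_lit 1, nat_lit 1, nat_lit 1, nat_lit 120, nat_lit 300, nat_lit 320, nat_lit 240, nat_lit 280, nat_lit 120, nat_lit 240, nat_lit 80, nat_lit 120, nat_lit 240, nat_lit 320, nat_lit 0, nat_lit 364, nat_lit 0, nat_lit 20, nat_lit 0, nat_lit 0, nat_lit 0, nat_lit 0⟩
theorem d_V_700_600_20_46 (h : EB TB.env) : Dead b_V_700_600_20_46 := chkB_sound0 h (T :=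
(.spl (nat_lit 1) (nat_lit 260)
(.spl (nat_lit 3) (nat_lit 100)
(.trX (nat_lit 16) (nat_lit 100) (nat_lit 100) (nat_lit 100) (nat_lit 300) (.trX (nat_lit 19) (nat_lit 100) (nat_lit 68) (nat_lit 88) (nat_lit 352) (.spl (nat_lit 2) (nat_lit 160)
(.leaf p064_l102)
(.leaf p064_l103))))
(.spl (nat_lit 5) (nat_lit 160)
(.spl (nat_lit 1) (nat_lit 250)
(.leaf p064_l104)
(.leaf p064_l105))
(.spl (nat_lit 5) (nat_lit 240)
(.leaf p064_l106)
(.spl (nat_lit 1) (nat_lit 250)
(.leaf p064_l107)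
(.trX (nat_lit 19) (nat_lit 100) (nat_lit 64) (nat_lit 95) (nat_lit 360) (.leaf p064_l108))))))
(.trX (nat_lit 19) (nat_lit 100) (nat_lit 69) (nat_lit 96) (nat_lit 352) (.spl (nat_lit 5) (nat_lit 160)
(.leaf p064_l109)
(.spl (nat_lit 2) (nat_lit 160)
(.spl (nat_lit 6) (nat_lit 8)
(.leaf p064_l110)
(.spl (nat_lit 0) (nat_lit 310)
(.leaf p064_l111)
(.trX (nat_lit 16) (nat_lit 91) (nat_lit 91) (nat_lit 100) (nat_lit 312) (.spl (nat_lit 5) (nat_lit 240)
(.leaf p064_l112)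
(.spl (nat_lit 0) (nat_lit 315)
(.leaf p064_l113)
(.trX (nat_lit 16) (nat_lit 89) (nat_lit 93) (nat_lit 100) (nat_lit 304) (.leaf p064_l114)))))))
(.leaf p064_l115)))))) (by decide +kernel)
noncomputable def p064_l116 : Lf2 := ⟨nat_lit 0, nat_lit 10, [nat_lit 0, nat_lit 5, nat_lit 5, nat_lit 20], false, nat_lit 240, nat_lit 300, nat_lit 0, nat_lit 352, ⟨nat_lit 0, nat_lit 1000, nat_lit 0, nat_lit 6, nat_lit 208, nat_lit 1000, nat_lit 201, nat_lit 0, nat_lit 0, nat_lit 0, nat_lit 0, nat_lit 0, nat_lit 41785469, nat_lit 12904040, nat_lit 12310491, nat_lit 4976241, false, false⟩,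
 nat_lit 0, nat_lit 6569, nat_lit 0, nat_lit 0, nat_lit 4547, nat_lit 0, nat_lit 306, nat_lit 0, nat_lit 0, nat_lit 0, nat_lit 0, nat_lit 0, nat_lit 0, nat_lit 0, nat_lit 0, nat_lit 433600, nat_lit 0, nat_lit 0, [(nat_lit 15, [(nat_lit 1, nat_lit 944), (nat_lit 2, nat_lit 56)])],
 ⟨p064_k21, nat_lit 0, nat_lit 0, nat_lit 125, nat_lit 0, nat_lit 147811, [nat_lit 2025430401, nat_lit 2281682134, nat_lit 2149473066], [], [nat_lit 18874224847, nat_lit 19984619188, nat_lit 21269598130, nat_lit 22230884128, nat_lit 21661628355, nat_lit 22673432428, nat_lit 23813493076, nat_lit 24927253375], nat_lit 1271250, nat_lit 1271250, nat_lit 780000, nat_lit 1762500, nat_lit 1271250, nat_lit 1271250, [nat_lit 780000, nat_lit 1435000, nat_lit 1271250], [nat_lit 18, nat_lit 40, nat_lit 40, nat_lit 80, nat_lit 2, nat_lit 272, nat_lit 60, nat_lit 8]⟩, ⟨p064_k22, nat_lit 0, nat_lit 0, nat_lit 360, nat_lit 0, nat_lit 207031, [nat_lit 0, nat_lit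 0, nat_lit 0], [], [nat_lit 0, nat_lit 0, nat_lit 0, nat_lit 0, nat_lit 0, nat_lit 0, nat_lit 0, nat_lit 0], nat_lit 1271250, nat_lit 1271250, nat_lit 780000, nat_lit 1762500, nat_lit 0, nat_lit 2486000, [nat_lit 1100000, nat_lit 1785000, nat_lit 1271250], [nat_lit 21, nat_lit 40, nat_lit 40, nat_lit 80, nat_lit 14, nat_lit 456, nat_lit 225, nat_lit 12]⟩,
 ⟨nat_lit 4472, nat_lit 5000, ⟨.ofNat (nat_lit 399984), .ofNat (nat_lit 614256), .ofNat (nat_lit 421400), .ofNat (nat_lit 635672), .ofNat (nat_lit 407160), .ofNat (nat_lit 611081), .ofNat (nat_lit 428715), .ofNat (nat_lit 632635)⟩, ⟨.ofNat (nat_lit 442856), .ofNat (nat_lit 549998), .ofNat (nat_lit 464284), .ofNat (nat_lit 571427), .ofNat (nat_lit 438578), .ofNat (nat_lit 540545), .ofNat (nat_lit 460144), .ofNat (nat_lit 562111)⟩⟩, [⟨nat_lit 4, nat_lit 100, nat_lit 91, nat_lit 91, nat_lit 238501356⟩]⟩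
noncomputable def p064_l117 : Lf2 := ⟨nat_lit 0, nat_lit 10, [nat_lit 0, nat_lit 5, nat_lit 5, nat_lit 20], false, nat_lit 240, nat_lit 320, nat_lit 0, nat_lit 364, ⟨nat_lit 0, nat_lit 1000, nat_lit 0, nat_lit 6, nat_lit 208, nat_lit 1000, nat_lit 217, nat_lit 0, nat_lit 0, nat_lit 0, nat_lit 0, nat_lit 0, nat_lit 40684888, nat_lit 12686331, nat_lit 13628781, nat_lit 5082412, false, false⟩,
 nat_lit 0, nat_lit 6433, nat_lit 0, nat_lit 0, nat_lit 4453, nat_lit 0, nat_lit 0, nat_lit 0, nat_lit 0, nat_lit 0, nat_lit 0, nat_lit 0, nat_lit 0, nat_lit 0, nat_lit 0, nat_lit 250000, nat_lit 0, nat_lit 0, [(nat_lit 15, [(nat_lit 0, nat_lit 1000)])],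
 ⟨p064_k64, nat_lit 0, nat_lit 0, nat_lit 74, nat_lit 0, nat_lit 84106, [nat_lit 2318400000, nat_lit 2378000001, nat_lit 3078800000], [], [nat_lit 18738877963, nat_lit 19951150153, nat_lit 21553701919, nat_lit 22537544449, nat_lit 22704300167, nat_lit 23698921661, nat_lit 24810525024, nat_lit 25853100464], nat_lit 1271250, nat_lit 1271250, nat_lit 780000, nat_lit 1762500, nat_lit 1271250, nat_lit 1271250, [nat_lit 780000, nat_lit 1100000, nat_lit 1785000], [nat_lit 36, nat_lit 40, nat_lit 40, nat_lit 80, nat_lit 7, nat_lit 272, nat_lit 60, nat_lit 8]⟩, ⟨p064_k56, nat_lit 0, nat_lit 0, nat_lit 324, nat_lit 0, nat_lit 118477, [nat_lit 0, nat_lit 0, nat_lit 0], [], [nat_lit 0, nat_lit 0, nat_lit 0, nat_lit 0, nat_lit 0, nat_lit 0, nat_lit 0, nat_lit 0], nat_lit 1271250, nat_lit 1271250, nat_lit 780000, nat_lit 1762500, nat_lit 0, nat_lit 2570750, [nat_lit 1100000, nat_lit 1442500, nat_lit 1271250], [nat_lit 48, nat_lit 40, nat_lit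 40, nat_lit 80, nat_lit 12, nat_lit 456, nat_lit 225, nat_lit 12]⟩,
 ⟨nat_lit 4472, nat_lit 5000, ⟨.ofNat (nat_lit 399984), .ofNat (nat_lit 614256), .ofNat (nat_lit 421400), .ofNat (nat_lit 635672), .ofNat (nat_lit 407160), .ofNat (nat_lit 611081), .ofNat (nat_lit 428715), .ofNat (nat_lit 632635)⟩, ⟨.ofNat (nat_lit 464284), .ofNat (nat_lit 607141), .ofNat (nat_lit 485713), .ofNat (nat_lit 628570), .ofNat (nat_lit 460144), .ofNat (nat_lit 596101), .ofNat (nat_lit 481711), .ofNat (nat_lit 617667)⟩⟩, [⟨nat_lit 4, nat_lit 97, nat_lit 94, nat_lit 100, nat_lit 191346231⟩]⟩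
noncomputable def p064_l118 : Lf2 := ⟨nat_lit 0, nat_lit 10, [nat_lit 0, nat_lit 5, nat_lit 5, nat_lit 20], true, nat_lit 240, nat_lit 320, nat_lit 0, nat_lit 352, ⟨nat_lit 0, nat_lit 1000, nat_lit 0, nat_lit 6, nat_lit 216, nat_lit 1000, nat_lit 213, nat_lit 0, nat_lit 0, nat_lit 0, nat_lit 0, nat_lit 0, nat_lit 40391815, nat_lit 13471344, nat_lit 13136841, nat_lit 5111276, false, false⟩,
 nat_lit 0, nat_lit 47, nat_lit 0, nat_lit 3363, nat_lit 32, nat_lit 0, nat_lit 0, nat_lit 0, nat_lit 362, nat_lit 0, nat_lit 0, nat_lit 0, nat_lit 0, nat_lit 0, nat_lit 0, nat_lit 250000, nat_lit 0, nat_lit 0, [(nat_lit 15, [(nat_lit 0, nat_lit 1000)])],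
 ⟨p064_k21, nat_lit 0, nat_lit 0, nat_lit 0, nat_lit 0, nat_lit 390330, [nat_lit 2318400000, nat_lit 2724800000, nat_lit 3082400000], [], [nat_lit 17077274528, nat_lit 17772223168, nat_lit 20171667456, nat_lit 20836956352, nat_lit 19645371264, nat_lit 20317278624, nat_lit 22618557856, nat_lit 23225753216], nat_lit 1271250, nat_lit 1271250, nat_lit 780000, nat_lit 1762500, nat_lit 1271250, nat_lit 1271250, [nat_lit 780000, nat_lit 1435000, nat_lit 1271250], [nat_lit 18, nat_lit 40, nat_lit 40, nat_lit 80]⟩, C1.Rw.none,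
 ⟨nat_lit 4472, nat_lit 5000, ⟨.ofNat (nat_lit 421400), .ofNat (nat_lit 635672), .ofNat (nat_lit 442816), .ofNat (nat_lit 657088), .ofNat (nat_lit 428715), .ofNat (nat_lit 632635), .ofNat (nat_lit 450269), .ofNat (nat_lit 654189)⟩, ⟨.ofNat (nat_lit 442856), .ofNat (nat_lit 585713), .ofNat (nat_lit 485713), .ofNat (nat_lit 628570), .ofNat (nat_lit 438578), .ofNat (nat_lit 574534), .ofNat (nat_lit 481711), .ofNat (nat_lit 617667)⟩⟩, []⟩
noncomputable def p064_l119 : Lf2 := ⟨nat_lit 0, nat_lit 10, [nat_lit 0, nat_lit 5, nat_lit 5, nat_lit 20], false, nat_lit 240, nat_lit 320, nat_lit 0, nat_lit 352, ⟨nat_lit 1000, nat_lit 0, nat_lit 0, nat_lit 0, nat_lit 0, nat_lit 0, nat_lit 0, nat_lit 0, nat_lit 0, nat_lit 0, nat_lit 0, nat_lit 0, nat_lit 0, nat_lit 0, nat_lit 0, nat_lit 0, false, false⟩,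
 nat_lit 0, nat_lit 9614, nat_lit 0, nat_lit 426, nat_lit 6655, nat_lit 0, nat_lit 935, nat_lit 0, nat_lit 0, nat_lit 0, nat_lit 0, nat_lit 560, nat_lit 0, nat_lit 0, nat_lit 0, nat_lit 0, nat_lit 0, nat_lit 0, [],
 ⟨p064_k21, nat_lit 0, nat_lit 0, nat_lit 0, nat_lit 0, nat_lit 230487, [nat_lit 3282000000, nat_lit 6250000000, nat_lit 7968000000], [], [nat_lit 19601675115, nat_lit 21030946905, nat_lit 21881226735, nat_lit 23091133185, nat_lit 24100300125, nat_lit 25346488845, nat_lit 25902294240, nat_lit 27161722640], nat_lit 1271250, nat_lit 1271250, nat_lit 780000, nat_lit 1762500, nat_lit 1271250, nat_lit 1271250, [nat_lit 780000, nat_lit 1435000, nat_lit 1271250], [nat_lit 18, nat_lit 40, nat_lit 40, nat_lit 80]⟩, ⟨p064_k37, nat_lit 0, nat_lit 0, nat_lit 0, nat_lit 0, nat_lit 287101, [nat_lit 4688000000, nat_lit 7968000000, nat_lit 9842000000], [], [nat_lit 11456012000, nat_lit 11712796000, nat_lit 14281780000, nat_lit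 14895064000, nat_lit 19608546800, nat_lit 20123101600, nat_lit 22480468000, nat_lit 23042699200], nat_lit 1271250, nat_lit 1271250, nat_lit 780000, nat_lit 1762500, nat_lit 0, nat_lit 2486000, [nat_lit 1100000, nat_lit 1785000, nat_lit 1271250], [nat_lit 29, nat_lit 40, nat_lit 40, nat_lit 80]⟩,
 zbF0, [⟨nat_lit 16, nat_lit 94, nat_lit 88, nat_lit 100, nat_lit 513274078⟩, ⟨nat_lit 11, nat_lit 75, nat_lit 75, nat_lit 100, nat_lit 41556615⟩]⟩
noncomputable def p064_l120 : Lf2 := ⟨nat_lit 0, nat_lit 10, [nat_lit 0, nat_lit 5, nat_lit 5, nat_lit 20], false, nat_lit 240, nat_lit 320, nat_lit 0, nat_lit 160, ⟨nat_lit 1000, nat_lit 0, nat_lit 0, nat_lit 0, nat_lit 0, nat_lit 0, nat_lit 0, nat_lit 0, nat_lit 0, nat_lit 0, nat_lit 0, nat_lit 0, nat_lit 0, nat_lit 0, nat_lit 0, nat_lit 0, false, false⟩,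
 nat_lit 23305, nat_lit 0, nat_lit 0, nat_lit 0, nat_lit 12507, nat_lit 13565, nat_lit 0, nat_lit 0, nat_lit 0, nat_lit 297, nat_lit 0, nat_lit 0, nat_lit 0, nat_lit 0, nat_lit 0, nat_lit 0, nat_lit 0, nat_lit 0, [],
 ⟨p064_k21, nat_lit 0, nat_lit 0, nat_lit 0, nat_lit 0, nat_lit 230487, [nat_lit 3282000000, nat_lit 6250000000, nat_lit 7968000000], [], [nat_lit 19123121006, nat_lit 21264101332, nat_lit 18821305778, nat_lit 20807779692, nat_lit 27387381214, nat_lit 29789945324, nat_lit 26752439244, nat_lit 28988822356], nat_lit 1271250, nat_lit 1271250, nat_lit 780000, nat_lit 1100001, nat_lit 1271250, nat_lit 1271250, [nat_lit 780000, nat_lit 1435000, nat_lit 1271250], [nat_lit 18, nat_lit 40, nat_lit 40, nat_lit 80]⟩, ⟨p064_k37, nat_lit 0, nat_lit 0, nat_lit 0, nat_lit 0, nat_lit 287101, [nat_lit 4688000000, nat_lit 7968000000, nat_lit 9842000000], [], [nat_lit 31427836090, nat_lit 27948186000, nat_lit 25445670670, nat_lit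 27779667500, nat_lit 25873576490, nat_lit 19567180860, nat_lit 31987196940, nat_lit 25763954760], nat_lit 1271250, nat_lit 1271250, nat_lit 780000, nat_lit 1100001, nat_lit 0, nat_lit 1100001, [nat_lit 1100000, nat_lit 1785000, nat_lit 1271250], [nat_lit 29, nat_lit 40, nat_lit 40, nat_lit 80]⟩,
 zbF0, [⟨nat_lit 4, nat_lit 100, nat_lit 93, nat_lit 97, nat_lit 837341920⟩]⟩
noncomputable def p064_l121 : Lf2 := ⟨nat_lit 0, nat_lit 10, [nat_lit 0, nat_lit 5, nat_lit 5, nat_lit 20], false, nat_lit 240, nat_lit 320, nat_lit 0, nat_lit 160, ⟨nat_lit 1000, nat_lit 0, nat_lit 0, nat_lit 0, nat_lit 0, nat_lit 0, nat_lit 0, nat_lit 0, nat_lit 0, nat_lit 0, nat_lit 0, nat_lit 0, nat_lit 0, nat_lit 0, nat_lit 0, nat_lit 0, false, false⟩,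
 nat_lit 12368, nat_lit 0, nat_lit 0, nat_lit 0, nat_lit 6686, nat_lit 7199, nat_lit 906, nat_lit 0, nat_lit 0, nat_lit 53, nat_lit 0, nat_lit 0, nat_lit 0, nat_lit 0, nat_lit 0, nat_lit 0, nat_lit 0, nat_lit 0, [],
 ⟨p064_k21, nat_lit 0, nat_lit 0, nat_lit 0, nat_lit 0, nat_lit 230487, [nat_lit 3282000000, nat_lit 6250000000, nat_lit 7968000000], [], [nat_lit 19974746994, nat_lit 21316824566, nat_lit 21996980482, nat_lit 23130484118, nat_lit 24192368414, nat_lit 25363824070, nat_lit 25917664288, nat_lit 27180145568], nat_lit 1271250, nat_lit 1271250, nat_lit 1100001, nat_lit 1785000, nat_lit 1271250, nat_lit 1271250, [nat_lit 780000, nat_lit 1435000, nat_lit 1271250], [nat_lit 18, nat_lit 40, nat_lit 40, nat_lit 80]⟩, ⟨p064_k37, nat_lit 0, nat_lit 0, nat_lit 0, nat_lit 0, nat_lit 287101, [nat_lit 4688000000, nat_lit 7968000000, nat_lit 9842000000], [], [nat_lit 36539751298, nat_lit 34668926184, nat_lit 35454656688, nat_lit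 36187608120, nat_lit 30098398864, nat_lit 30825889964, nat_lit 33473736546, nat_lit 32007061224], nat_lit 1271250, nat_lit 1271250, nat_lit 1100001, nat_lit 1785000, nat_lit 0, nat_lit 1100001, [nat_lit 1100000, nat_lit 1785000, nat_lit 1271250], [nat_lit 29, nat_lit 40, nat_lit 40, nat_lit 80]⟩,
 zbF0, [⟨nat_lit 16, nat_lit 93, nat_lit 100, nat_lit 97, nat_lit 513091336⟩, ⟨nat_lit 16, nat_lit 94, nat_lit 88, nat_lit 100, nat_lit 36242678⟩]⟩
noncomputable def p064_l122 : Lf2 := ⟨nat_lit 0, nat_lit 10, [nat_lit 0, nat_lit 5, nat_lit 5, nat_lit 20], false, nat_lit 240, nat_lit 320, nat_lit 160, nat_lit 240, ⟨nat_lit 1000, nat_lit 0, nat_lit 0, nat_lit 0, nat_lit 0, nat_lit 0, nat_lit 0, nat_lit 0, nat_lit 0, nat_lit 0, nat_lit 0, nat_lit 0, nat_lit 0, nat_lit 0, nat_lit 0, nat_lit 0, false, false⟩,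
 nat_lit 22672, nat_lit 0, nat_lit 0, nat_lit 0, nat_lit 11741, nat_lit 13196, nat_lit 159, nat_lit 0, nat_lit 0, nat_lit 243, nat_lit 0, nat_lit 0, nat_lit 0, nat_lit 0, nat_lit 0, nat_lit 0, nat_lit 0, nat_lit 0, [],
 ⟨p064_k21, nat_lit 0, nat_lit 0, nat_lit 0, nat_lit 0, nat_lit 230487, [nat_lit 3282000000, nat_lit 6250000000, nat_lit 7968000000], [], [nat_lit 19001667903, nat_lit 21049488841, nat_lit 18773085339, nat_lit 20675013780, nat_lit 26912000082, nat_lit 29208297012, nat_lit 26372585972, nat_lit 28511674828], nat_lit 1271250, nat_lit 1271250, nat_lit 780000, nat_lit 1100001, nat_lit 1271250, nat_lit 1271250, [nat_lit 780000, nat_lit 1435000, nat_lit 1271250], [nat_lit 18, nat_lit 40, nat_lit 40, nat_lit 80]⟩, ⟨p064_k37, nat_lit 0, nat_lit 0, nat_lit 0, nat_lit 0, nat_lit 287101, [nat_lit 4688000000, nat_lit 7968000000, nat_lit 9842000000], [], [nat_lit 26849014856, nat_lit 19976828368, nat_lit 15099201468, nat_lit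 16975218916, nat_lit 23062654224, nat_lit 20229295620, nat_lit 28711985784, nat_lit 22493951408], nat_lit 1271250, nat_lit 1271250, nat_lit 780000, nat_lit 1100001, nat_lit 1100001, nat_lit 1785000, [nat_lit 1100000, nat_lit 1785000, nat_lit 1271250], [nat_lit 29, nat_lit 40, nat_lit 40, nat_lit 80]⟩,
 zbF0, [⟨nat_lit 4, nat_lit 100, nat_lit 93, nat_lit 97, nat_lit 813456000⟩]⟩
noncomputable def p064_l123 : Lf2 := ⟨nat_lit 0, nat_lit 10, [nat_lit 0, nat_lit 5, nat_lit 5, nat_lit 20], false, nat_lit 240, nat_lit 280, nat_lit 240, nat_lit 352, ⟨nat_lit 187, nat_lit 0, nat_lit 813, nat_lit 6, nat_lit 186, nat_lit 813, nat_lit 199, nat_lit 813, nat_lit 4603, nat_lit 229, nat_lit 28017, nat_lit 256, nat_lit 43529235, nat_lit 0, nat_lit 0, nat_lit 4791476, false, false⟩,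
 nat_lit 3180, nat_lit 2438, nat_lit 0, nat_lit 0, nat_lit 3889, nat_lit 1851, nat_lit 0, nat_lit 0, nat_lit 0, nat_lit 172, nat_lit 0, nat_lit 0, nat_lit 0, nat_lit 0, nat_lit 28, nat_lit 393600, nat_lit 0, nat_lit 0, [(nat_lit 15, [(nat_lit 5, nat_lit 699), (nat_lit 6, nat_lit 114)])],
 ⟨p064_k21, nat_lit 0, nat_lit 0, nat_lit 0, nat_lit 0, nat_lit 191775, [nat_lit 1980778800, nat_lit 793540801, nat_lit 57647399], [], [nat_lit 18430849009, nat_lit 19415438307, nat_lit 18935411133, nat_lit 19866232023, nat_lit 20055722406, nat_lit 20972147134, nat_lit 20472427931, nat_lit 21470258416], nat_lit 1271250, nat_lit 1271250, nat_lit 780000, nat_lit 1100001, nat_lit 1271250, nat_lit 1271250, [nat_lit 780000, nat_lit 1435000, nat_lit 1271250], [nat_lit 18, nat_lit 40, nat_lit 40, nat_lit 80]⟩, ⟨p064_k37, nat_lit 0, nat_lit 0, nat_lit 0, nat_lit 0, nat_lit 238879, [nat_lit 876656000, nat_lit 1490016000, nat_lit 1840454000], [], [nat_lit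 3427944498, nat_lit 3555789299, nat_lit 3422608838, nat_lit 3540903399, nat_lit 5025359881, nat_lit 5109109389, nat_lit 4910108739, nat_lit 5034920536], nat_lit 1271250, nat_lit 1271250, nat_lit 780000, nat_lit 1100001, nat_lit 1271250, nat_lit 1271250, [nat_lit 1100000, nat_lit 1785000, nat_lit 1271250], [nat_lit 29, nat_lit 40, nat_lit 40, nat_lit 80]⟩,
 ⟨nat_lit 4472, nat_lit 5000, ⟨.ofNat (nat_lit 421400), .ofNat (nat_lit 492824), .ofNat (nat_lit 432108), .ofNat (nat_lit 503532), .ofNat (nat_lit 428715), .ofNat (nat_lit 496688), .ofNat (nat_lit 439491), .ofNat (nat_lit 507465)⟩, ⟨.ofNat (nat_lit 442856), .ofNat (nat_lit 514284), .ofNat (nat_lit 485713), .ofNat (nat_lit 557141), .ofNat (nat_lit 438578), .ofNat (nat_lit 506556), .ofNat (nat_lit 481711), .ofNat (nat_lit 549689)⟩⟩, [⟨nat_lit 19, nat_lit 100, nat_lit 80, nat_lit 92, nat_lit 126501543⟩]⟩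
noncomputable def p064_l124 : Lf2 := ⟨nat_lit 0, nat_lit 10, [nat_lit 0, nat_lit 5, nat_lit 5, nat_lit 20], false, nat_lit 280, nat_lit 320, nat_lit 240, nat_lit 352, ⟨nat_lit 575, nat_lit 0, nat_lit 425, nat_lit 6, nat_lit 185, nat_lit 425, nat_lit 227, nat_lit 425, nat_lit 4748, nat_lit 203, nat_lit 34148, nat_lit 260, nat_lit 41488253, nat_lit 0, nat_lit 0, nat_lit 4975561, false, false⟩,
 nat_lit 9699, nat_lit 0, nat_lit 0, nat_lit 0, nat_lit 6714, nat_lit 5645, nat_lit 0, nat_lit 0, nat_lit 0, nat_lit 555, nat_lit 0, nat_lit 0, nat_lit 0, nat_lit 0, nat_lit 0, nat_lit 377440, nat_lit 0, nat_lit 0, [(nat_lit 15, [(nat_lit 3, nat_lit 58), (nat_lit 6, nat_lit 367)])],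
 ⟨p064_k21, nat_lit 0, nat_lit 0, nat_lit 0, nat_lit 0, nat_lit 173355, [nat_lit 3381568400, nat_lit 2729394801, nat_lit 2587757200], [], [nat_lit 21128837416, nat_lit 22419129084, nat_lit 21235277472, nat_lit 22593885216, nat_lit 23792233828, nat_lit 25391135048, nat_lit 23879736888, nat_lit 25380316312], nat_lit 1271250, nat_lit 1271250, nat_lit 780000, nat_lit 1100001, nat_lit 1271250, nat_lit 1271250, [nat_lit 780000, nat_lit 1435000, nat_lit 1271250], [nat_lit 18, nat_lit 40, nat_lit 40, nat_lit 80]⟩, ⟨p064_k37, nat_lit 0, nat_lit 0, nat_lit 0, nat_lit 0, nat_lit 215935, [nat_lit 2695600000, nat_lit 4581600000, nat_lit 5659150000], [], [nat_lit 10455320150, nat_lit 10650944463, nat_lit 10443264610, nat_lit 10624307653, nat_lit 15342315887, nat_lit 15466322677, nat_lit 15060114658, nat_lit 15256326278], nat_lit 1271250, nat_lit 1271250, nat_lit 780000, nat_lit 1100001, nat_lit 1271250, nat_lit 1271250, [nat_lit 1100000,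 nat_lit 1785000, nat_lit 1271250], [nat_lit 29, nat_lit 40, nat_lit 40, nat_lit 80]⟩,
 ⟨nat_lit 4472, nat_lit 5000, ⟨.ofNat (nat_lit 421400), .ofNat (nat_lit 492824), .ofNat (nat_lit 426754), .ofNat (nat_lit 498178), .ofNat (nat_lit 428715), .ofNat (nat_lit 496688), .ofNat (nat_lit 434103), .ofNat (nat_lit 502076)⟩, ⟨.ofNat (nat_lit 514284), .ofNat (nat_lit 585713), .ofNat (nat_lit 557141), .ofNat (nat_lit 628570), .ofNat (nat_lit 506556), .ofNat (nat_lit 574534), .ofNat (nat_lit 549689), .ofNat (nat_lit 617667)⟩⟩, [⟨nat_lit 4, nat_lit 100, nat_lit 93, nat_lit 97, nat_lit 253331275⟩, ⟨nat_lit 23, nat_lit 91, nat_lit 77, nat_lit 100, nat_lit 395252502⟩]⟩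
noncomputable def p064_l125 : Lf2 := ⟨nat_lit 0, nat_lit 10, [nat_lit 0, nat_lit 5, nat_lit 5, nat_lit 20], false, nat_lit 280, nat_lit 320, nat_lit 240, nat_lit 348, ⟨nat_lit 1000, nat_lit 0, nat_lit 0, nat_lit 0, nat_lit 0, nat_lit 0, nat_lit 0, nat_lit 0, nat_lit 0, nat_lit 0, nat_lit 0, nat_lit 0, nat_lit 0, nat_lit 0, nat_lit 0, nat_lit 0, false, false⟩,
 nat_lit 14710, nat_lit 1019, nat_lit 0, nat_lit 0, nat_lit 10889, nat_lit 8759, nat_lit 212, nat_lit 0, nat_lit 0, nat_lit 1136, nat_lit 0, nat_lit 0, nat_lit 0, nat_lit 0, nat_lit 0, nat_lit 0, nat_lit 0, nat_lit 0, [],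
 ⟨p064_k21, nat_lit 0, nat_lit 0, nat_lit 0, nat_lit 0, nat_lit 133383, [nat_lit 3282000000, nat_lit 6250000000, nat_lit 7968000000], [], [nat_lit 22438136416, nat_lit 23300088003, nat_lit 22074070672, nat_lit 23083239608, nat_lit 26383247178, nat_lit 27472296663, nat_lit 25950085988, nat_lit 26965521600], nat_lit 1271250, nat_lit 1271250, nat_lit 780000, nat_lit 1100001, nat_lit 1271250, nat_lit 1271250, [nat_lit 780000, nat_lit 1435000, nat_lit 1271250], [nat_lit 18, nat_lit 40, nat_lit 40, nat_lit 80]⟩, ⟨p064_k65, nat_lit 0, nat_lit 0, nat_lit 0, nat_lit 0, nat_lit 161357, [nat_lit 4688000000, nat_lit 7968000000, nat_lit 9842000000], [], [nat_lit 18246862985, nat_lit 18565980150, nat_lit 18301712898, nat_lit 18597779684, nat_lit 25736161390, nat_lit 25947856007, nat_lit 25406529212, nat_lit 25733535672], nat_lit 1271250, nat_lit 1271250, nat_lit 780000, nat_lit 1100001, nat_lit 1271250, nat_lit 1271250, [nat_lit 1100000,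 nat_lit 1785000, nat_lit 1271250], [nat_lit 29, nat_lit 40, nat_lit 40, nat_lit 80]⟩,
 zbF0, [⟨nat_lit 4, nat_lit 100, nat_lit 97, nat_lit 98, nat_lit 348704352⟩, ⟨nat_lit 19, nat_lit 100, nat_lit 81, nat_lit 92, nat_lit 73964162⟩, ⟨nat_lit 23, nat_lit 91, nat_lit 77, nat_lit 100, nat_lit 576370635⟩]⟩
noncomputable def p064_l126 : Lf2 := ⟨nat_lit 0, nat_lit 10, [nat_lit 0, nat_lit 5, nat_lit 5, nat_lit 20], false, nat_lit 280, nat_lit 312, nat_lit 240, nat_lit 348, ⟨nat_lit 766, nat_lit 0, nat_lit 234, nat_lit 6, nat_lit 188, nat_lit 234, nat_lit 223, nat_lit 234, nat_lit 1989, nat_lit 209, nat_lit 28017, nat_lit 256, nat_lit 41586652, nat_lit 0, nat_lit 0, nat_lit 4974526, false, false⟩,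
 nat_lit 11264, nat_lit 0, nat_lit 0, nat_lit 0, nat_lit 8120, nat_lit 6707, nat_lit 282, nat_lit 0, nat_lit 0, nat_lit 870, nat_lit 0, nat_lit 0, nat_lit 0, nat_lit 0, nat_lit 0, nat_lit 48420, nat_lit 0, nat_lit 0, [(nat_lit 15, [(nat_lit 3, nat_lit 144), (nat_lit 4, nat_lit 90)])],
 ⟨p064_k39, nat_lit 0, nat_lit 0, nat_lit 0, nat_lit 0, nat_lit 182354, [nat_lit 5543239201, nat_lit 4682041600, nat_lit 5808482400], [], [nat_lit 22485476401, nat_lit 23139290720, nat_lit 22410167961, nat_lit 23153113280, nat_lit 24871847373, nat_lit 25794862817, nat_lit 24771851129, nat_lit 25635522624], nat_lit 1271250, nat_lit 1271250, nat_lit 780000, nat_lit 1100001, nat_lit 1271250, nat_lit 1271250, [nat_lit 780000, nat_lit 1435000, nat_lit 1271250], [nat_lit 18, nat_lit 40, nat_lit 40, nat_lit 80]⟩, ⟨p064_k65, nat_lit 0, nat_lit 0, nat_lit 0, nat_lit 0, nat_lit 231995, [nat_lit 3591008000, nat_lit 6103488000, nat_lit 7538972000], [],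 [nat_lit 13980194808, nat_lit 14224590832, nat_lit 14022438691, nat_lit 14249183346, nat_lit 19715805167, nat_lit 19877572090, nat_lit 19460041947, nat_lit 19710480767], nat_lit 1271250, nat_lit 1271250, nat_lit 780000, nat_lit 1100001, nat_lit 1271250, nat_lit 1271250, [nat_lit 1100000, nat_lit 1785000, nat_lit 1271250], [nat_lit 29, nat_lit 40, nat_lit 40, nat_lit 80]⟩,
 ⟨nat_lit 4472, nat_lit 4744, ⟨.ofNat (nat_lit 430427), .ofNat (nat_lit 500125), .ofNat (nat_lit 435798), .ofNat (nat_lit 505497), .ofNat (nat_lit 434125), .ofNat (nat_lit 502102), .ofNat (nat_lit 439515), .ofNat (nat_lit 507493)⟩, ⟨.ofNat (nat_lit 510469), .ofNat (nat_lit 566229), .ofNat (nat_lit 553445), .ofNat (nat_lit 609205), .ofNat (nat_lit 506556), .ofNat (nat_lit 560938), .ofNat (nat_lit 549689), .ofNat (nat_lit 604071)⟩⟩, [⟨nat_lit 4, nat_lit 100, nat_lit 90, nat_lit 95, nat_lit 297791270⟩, ⟨nat_lit 19, nat_lit 100, nat_lit 81, nat_lit 92, nat_lit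 18092219⟩, ⟨nat_lit 23, nat_lit 92, nat_lit 76, nat_lit 100, nat_lit 475104181⟩]⟩
noncomputable def p064_l127 : Lf2 := ⟨nat_lit 0, nat_lit 10, [nat_lit 0, nat_lit 5, nat_lit 5, nat_lit 20], false, nat_lit 240, nat_lit 320, nat_lit 240, nat_lit 344, ⟨nat_lit 1000, nat_lit 0, nat_lit 0, nat_lit 0, nat_lit 0, nat_lit 0, nat_lit 0, nat_lit 0, nat_lit 0, nat_lit 0, nat_lit 0, nat_lit 0, nat_lit 0, nat_lit 0, nat_lit 0, nat_lit 0, false, false⟩,
 nat_lit 13653, nat_lit 331, nat_lit 0, nat_lit 0, nat_lit 9681, nat_lit 8314, nat_lit 235, nat_lit 0, nat_lit 0, nat_lit 1132, nat_lit 0, nat_lit 0, nat_lit 0, nat_lit 0, nat_lit 0, nat_lit 0, nat_lit 0, nat_lit 0, [],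
 ⟨p064_k21, nat_lit 0, nat_lit 0, nat_lit 0, nat_lit 0, nat_lit 174309, [nat_lit 3282000000, nat_lit 6250000000, nat_lit 7968000000], [], [nat_lit 20442922923, nat_lit 21341566852, nat_lit 20411284599, nat_lit 21248099630, nat_lit 25940986655, nat_lit 26639276398, nat_lit 25516767027, nat_lit 26289766400], nat_lit 1271250, nat_lit 1271250, nat_lit 780000, nat_lit 1100001, nat_lit 1271250, nat_lit 1271250, [nat_lit 780000, nat_lit 1435000, nat_lit 1271250], [nat_lit 18, nat_lit 40, nat_lit 40, nat_lit 80]⟩, ⟨p064_k38, nat_lit 0, nat_lit 0, nat_lit 0, nat_lit 0, nat_lit 204902, [nat_lit 4688000000, nat_lit 7968000000, nat_lit 9842000000], [], [nat_lit 18567924400, nat_lit 19188416580, nat_lit 18643233364, nat_lit 19219565876, nat_lit 25413960705, nat_lit 25834482220, nat_lit 25100075434, nat_lit 25659637555], nat_lit 1271250, nat_lit 1271250, nat_lit 780000, nat_lit 1100001, nat_lit 1271250, nat_lit 1271250, [nat_lit 1100000,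 nat_lit 1785000, nat_lit 1271250], [nat_lit 29, nat_lit 40, nat_lit 40, nat_lit 80]⟩,
 zbF0, [⟨nat_lit 4, nat_lit 100, nat_lit 97, nat_lit 98, nat_lit 201148991⟩, ⟨nat_lit 7, nat_lit 85, nat_lit 100, nat_lit 93, nat_lit 199458287⟩, ⟨nat_lit 11, nat_lit 85, nat_lit 85, nat_lit 100, nat_lit 451647778⟩]⟩
noncomputable def p064_l128 : Lf2 := ⟨nat_lit 0, nat_lit 8, [nat_lit 50, nat_lit 5, nat_lit 5, nat_lit 20], false, nat_lit 240, nat_lit 312, nat_lit 240, nat_lit 344, ⟨nat_lit 1000, nat_lit 0, nat_lit 0, nat_lit 0, nat_lit 0, nat_lit 0, nat_lit 0, nat_lit 0, nat_lit 0, nat_lit 0, nat_lit 0, nat_lit 0, nat_lit 0, nat_lit 0, nat_lit 0, nat_lit 0, false, false⟩,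
 nat_lit 11384, nat_lit 0, nat_lit 0, nat_lit 0, nat_lit 8206, nat_lit 6932, nat_lit 0, nat_lit 0, nat_lit 0, nat_lit 1801, nat_lit 0, nat_lit 0, nat_lit 0, nat_lit 0, nat_lit 0, nat_lit 0, nat_lit 0, nat_lit 0, [],
 ⟨p064_k23, nat_lit 0, nat_lit 0, nat_lit 0, nat_lit 0, nat_lit 217097, [nat_lit 3282000000, nat_lit 6250000000], [], [nat_lit 20319064610, nat_lit 21210126208, nat_lit 20509626322, nat_lit 21341223736, nat_lit 25138070206, nat_lit 25856795911, nat_lit 25001438672, nat_lit 25685219892], nat_lit 1271250, nat_lit 1271250, nat_lit 780000, nat_lit 1100001, nat_lit 1271250, nat_lit 1271250, [nat_lit 780000, nat_lit 1435000], [nat_lit 49, nat_lit 40, nat_lit 40, nat_lit 80]⟩, ⟨p064_k36, nat_lit 0, nat_lit 0, nat_lit 0, nat_lit 0, nat_lit 268031, [nat_lit 4688000000, nat_lit 7968000000, nat_lit 9842000000], [], [nat_lit 18683527764, nat_lit 19211445572, nat_lit 18970055360, nat_lit 19461774708, nat_lit 24451750976, nat_lit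 24835260041, nat_lit 24368978964, nat_lit 24842710268], nat_lit 1271250, nat_lit 1271250, nat_lit 780000, nat_lit 1100001, nat_lit 1271250, nat_lit 1271250, [nat_lit 1100000, nat_lit 1785000, nat_lit 1271250], [nat_lit 29, nat_lit 40, nat_lit 40, nat_lit 80]⟩,
 zbF0, [⟨nat_lit 16, nat_lit 90, nat_lit 100, nat_lit 95, nat_lit 174661897⟩, ⟨nat_lit 7, nat_lit 85, nat_lit 100, nat_lit 93, nat_lit 112761588⟩, ⟨nat_lit 11, nat_lit 85, nat_lit 85, nat_lit 100, nat_lit 488723483⟩]⟩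
noncomputable def p064_l129 : Lf2 := ⟨nat_lit 0, nat_lit 10, [nat_lit 0, nat_lit 5, nat_lit 5, nat_lit 20], false, nat_lit 240, nat_lit 312, nat_lit 240, nat_lit 344, ⟨nat_lit 1000, nat_lit 0, nat_lit 0, nat_lit 0, nat_lit 0, nat_lit 0, nat_lit 0, nat_lit 0, nat_lit 0, nat_lit 0, nat_lit 0, nat_lit 0, nat_lit 0, nat_lit 0, nat_lit 0, nat_lit 0, false, false⟩,
 nat_lit 14090, nat_lit 0, nat_lit 0, nat_lit 0, nat_lit 10157, nat_lit 8581, nat_lit 91, nat_lit 0, nat_lit 0, nat_lit 1079, nat_lit 0, nat_lit 0, nat_lit 0, nat_lit 0, nat_lit 0, nat_lit 0, nat_lit 0, nat_lit 0, [],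
 ⟨p064_k39, nat_lit 0, nat_lit 0, nat_lit 0, nat_lit 0, nat_lit 139628, [nat_lit 3282000000, nat_lit 6250000000, nat_lit 7968000000], [], [nat_lit 21600149969, nat_lit 22527738982, nat_lit 21458577235, nat_lit 22321739342, nat_lit 26502034675, nat_lit 27241548310, nat_lit 26005504424, nat_lit 26812654407], nat_lit 1271250, nat_lit 1271250, nat_lit 780000, nat_lit 1100001, nat_lit 1271250, nat_lit 1271250, [nat_lit 780000, nat_lit 1435000, nat_lit 1271250], [nat_lit 18, nat_lit 40, nat_lit 40, nat_lit 80]⟩, ⟨p064_k38, nat_lit 0, nat_lit 0, nat_lit 0, nat_lit 0, nat_lit 172613, [nat_lit 4688000000, nat_lit 7968000000, nat_lit 9842000000], [], [nat_lit 18629345975, nat_lit 19260483445, nat_lit 18678549281, nat_lit 19264362429, nat_lit 25599124285, nat_lit 26024814812, nat_lit 25181301016, nat_lit 25817466488], nat_lit 1271250, nat_lit 1271250, nat_lit 780000, nat_lit 1100001, nat_lit 1271250, nat_lit 1271250, [nat_lit 1100000,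 nat_lit 1785000, nat_lit 1271250], [nat_lit 29, nat_lit 40, nat_lit 40, nat_lit 80]⟩,
 zbF0, [⟨nat_lit 4, nat_lit 100, nat_lit 90, nat_lit 95, nat_lit 215504758⟩, ⟨nat_lit 7, nat_lit 85, nat_lit 100, nat_lit 93, nat_lit 204196796⟩, ⟨nat_lit 11, nat_lit 85, nat_lit 85, nat_lit 100, nat_lit 453124007⟩]⟩
noncomputable def p064_l130 : Lf2 := ⟨nat_lit 0, nat_lit 10, [nat_lit 0, nat_lit 5, nat_lit 5, nat_lit 20], false, nat_lit 240, nat_lit 320, nat_lit 160, nat_lit 352, ⟨nat_lit 1000, nat_lit 0, nat_lit 0, nat_lit 0, nat_lit 0, nat_lit 0, nat_lit 0, nat_lit 0, nat_lit 0, nat_lit 0, nat_lit 0, nat_lit 0, nat_lit 0, nat_lit 0, nat_lit 0, nat_lit 0, false, false⟩,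
 nat_lit 13833, nat_lit 0, nat_lit 0, nat_lit 0, nat_lit 9576, nat_lit 8051, nat_lit 205, nat_lit 0, nat_lit 0, nat_lit 1525, nat_lit 0, nat_lit 0, nat_lit 0, nat_lit 0, nat_lit 0, nat_lit 0, nat_lit 0, nat_lit 0, [],
 ⟨p064_k66, nat_lit 0, nat_lit 0, nat_lit 0, nat_lit 0, nat_lit 230487, [nat_lit 2637500000, nat_lit 3965500000, nat_lit 7968000000], [], [nat_lit 20797716054, nat_lit 22459722406, nat_lit 22851762662, nat_lit 24231858438, nat_lit 25872056742, nat_lit 27164583238, nat_lit 27350549408, nat_lit 28897637888], nat_lit 1271250, nat_lit 1271250, nat_lit 1100001, nat_lit 1785000, nat_lit 1271250, nat_lit 1271250, [nat_lit 631250, nat_lit 936250, nat_lit 1773750], [nat_lit 215, nat_lit 40, nat_lit 20, nat_lit 40]⟩, ⟨p064_k67, nat_lit 0, nat_lit 0, nat_lit 0, nat_lit 0, nat_lit 287101, [nat_lit 3965500000, nat_lit 5449500000, nat_lit 9842000000], [], [nat_lit 17766105382, nat_lit 17203499871, nat_lit 26744885690, nat_lit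 22845319432, nat_lit 25517010762, nat_lit 26259178656, nat_lit 27054615899, nat_lit 28060015898], nat_lit 1271250, nat_lit 1271250, nat_lit 1100001, nat_lit 1785000, nat_lit 1271250, nat_lit 1271250, [nat_lit 936250, nat_lit 1271250, nat_lit 1271250], [nat_lit 169, nat_lit 40, nat_lit 20, nat_lit 40]⟩,
 zbF0, [⟨nat_lit 4, nat_lit 100, nat_lit 93, nat_lit 97, nat_lit 596454961⟩, ⟨nat_lit 19, nat_lit 100, nat_lit 69, nat_lit 96, nat_lit 383348548⟩]⟩
noncomputable def p064_l131 : Lf2 := ⟨nat_lit 0, nat_lit 10, [nat_lit 0, nat_lit 5, nat_lit 5, nat_lit 20], false, nat_lit 240, nat_lit 320, nat_lit 0, nat_lit 352, ⟨nat_lit 0, nat_lit 1000, nat_lit 0, nat_lit 6, nat_lit 216, nat_lit 1000, nat_lit 213, nat_lit 0, nat_lit 0, nat_lit 0, nat_lit 0, nat_lit 0, nat_lit 40391815, nat_lit 13471344, nat_lit 13136841, nat_lit 5111276, false, false⟩,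
 nat_lit 71795, nat_lit 0, nat_lit 100000, nat_lit 0, nat_lit 8030, nat_lit 100000, nat_lit 0, nat_lit 0, nat_lit 0, nat_lit 31551, nat_lit 7921, nat_lit 0, nat_lit 0, nat_lit 0, nat_lit 0, nat_lit 250000, nat_lit 0, nat_lit 0, [(nat_lit 15, [(nat_lit 0, nat_lit 1000)])],
 ⟨p064_k21, nat_lit 0, nat_lit 0, nat_lit 0, nat_lit 0, nat_lit 230487, [nat_lit 2318400000, nat_lit 2724800000, nat_lit 3082400000], [], [nat_lit 18200301740, nat_lit 19796798280, nat_lit 21077001260, nat_lit 22865537080, nat_lit 24608946060, nat_lit 26390415960, nat_lit 26584030240, nat_lit 27978868640], nat_lit 1271250, nat_lit 1271250, nat_lit 780000, nat_lit 1762500, nat_lit 1271250, nat_lit 1271250, [nat_lit 780000, nat_lit 1435000, nat_lit 1271250], [nat_lit 18, nat_lit 40, nat_lit 40, nat_lit 80]⟩, ⟨p064_k37, nat_lit 0, nat_lit 0, nat_lit 328, nat_lit 0, nat_lit 287101, [nat_lit 126736000000, nat_lit 190104000000, nat_lit 221788000000], [], [nat_lit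 459549800000, nat_lit 405856000000, nat_lit 194229900000, nat_lit 198730100000, nat_lit 141723340001, nat_lit 142491650000, nat_lit 116736450000, nat_lit 118184880000], nat_lit 1271250, nat_lit 1271250, nat_lit 780000, nat_lit 1762500, nat_lit 0, nat_lit 2486000, [nat_lit 1100000, nat_lit 1785000, nat_lit 1271250], [nat_lit 29, nat_lit 40, nat_lit 40, nat_lit 80, nat_lit 17, nat_lit 456, nat_lit 225, nat_lit 13]⟩,
 ⟨nat_lit 4472, nat_lit 5000, ⟨.ofNat (nat_lit 421400), .ofNat (nat_lit 635672), .ofNat (nat_lit 442816), .ofNat (nat_lit 657088), .ofNat (nat_lit 428715), .ofNat (nat_lit 632635), .ofNat (nat_lit 450269), .ofNat (nat_lit 654189)⟩, ⟨.ofNat (nat_lit 442856), .ofNat (nat_lit 585713), .ofNat (nat_lit 485713), .ofNat (nat_lit 628570), .ofNat (nat_lit 438578), .ofNat (nat_lit 574534), .ofNat (nat_lit 481711), .ofNat (nat_lit 617667)⟩⟩, [⟨nat_lit 4, nat_lit 100, nat_lit 93, nat_lit 97, nat_lit 421411729⟩]⟩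
noncomputable def p064_l132 : Lf2 := ⟨nat_lit 0, nat_lit 10, [nat_lit 0, nat_lit 5, nat_lit 5, nat_lit 20], true, nat_lit 240, nat_lit 320, nat_lit 0, nat_lit 352, ⟨nat_lit 0, nat_lit 0, nat_lit 1000, nat_lit 6, nat_lit 216, nat_lit 1000, nat_lit 213, nat_lit 1000, nat_lit 4748, nat_lit 203, nat_lit 42926, nat_lit 200, nat_lit 40391815, nat_lit 0, nat_lit 0, nat_lit 5111276, false, false⟩,
 nat_lit 0, nat_lit 100000, nat_lit 0, nat_lit 0, nat_lit 69230, nat_lit 0, nat_lit 14195, nat_lit 4609, nat_lit 0, nat_lit 0, nat_lit 0, nat_lit 0, nat_lit 0, nat_lit 0, nat_lit 0, nat_lit 1000000, nat_lit 0, nat_lit 0, [(nat_lit 15, [(nat_lit 6, nat_lit 1000)])],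
 ⟨p064_k21, nat_lit 0, nat_lit 0, nat_lit 216, nat_lit 0, nat_lit 390330, [nat_lit 56288000001, nat_lit 89884800001, nat_lit 105361200000], [], [nat_lit 21034021333, nat_lit 27115904293, nat_lit 17595174503, nat_lit 26274729481, nat_lit 47368253221, nat_lit 56401846121, nat_lit 42430416901, nat_lit 48912838281], nat_lit 1271250, nat_lit 1271250, nat_lit 780000, nat_lit 1762500, nat_lit 1271250, nat_lit 1271250, [nat_lit 780000, nat_lit 1435000, nat_lit 1271250], [nat_lit 18, nat_lit 40, nat_lit 40, nat_lit 80, nat_lit 2, nat_lit 272, nat_lit 60, nat_lit 8]⟩, C1.Rw.none,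
 ⟨nat_lit 4472, nat_lit 5000, ⟨.ofNat (nat_lit 421400), .ofNat (nat_lit 635672), .ofNat (nat_lit 442816), .ofNat (nat_lit 657088), .ofNat (nat_lit 428715), .ofNat (nat_lit 632635), .ofNat (nat_lit 450269), .ofNat (nat_lit 654189)⟩, ⟨.ofNat (nat_lit 442856), .ofNat (nat_lit 585713), .ofNat (nat_lit 485713), .ofNat (nat_lit 628570), .ofNat (nat_lit 438578), .ofNat (nat_lit 574534), .ofNat (nat_lit 481711), .ofNat (nat_lit 617667)⟩⟩, [⟨nat_lit 4, nat_lit 100, nat_lit 93, nat_lit 97, nat_lit 4619185964⟩]⟩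
noncomputable def b_V_700_600_20_47 : St := ⟨true, nat_lit 1, nat_lit 1, nat_lit 1, nat_lit 120, nat_lit 300, nat_lit 320, nat_lit 240, nat_lit 280, nat_lit 120, nat_lit 240, nat_lit 80, nat_lit 120, nat_lit 240, nat_lit 320, nat_lit 0, nat_lit 364, nat_lit 20, nat_lit 40, nat_lit 0, nat_lit 0, nat_lit 0, nat_lit 0⟩
theorem d_V_700_600_20_47 (h : EB TB.env) : Dead b_V_700_600_20_47 := chkB_sound0 h (T :=
(.spl (nat_lit 1) (nat_lit 260)
(.spl (nat_lit 3) (nat_lit 100)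
(.trX (nat_lit 16) (nat_lit 100) (nat_lit 100) (nat_lit 100) (nat_lit 300) (.trX (nat_lit 19) (nat_lit 100) (nat_lit 68) (nat_lit 88) (nat_lit 352) (.leaf p064_l116)))
(.leaf p064_l117))
(.trX (nat_lit 19) (nat_lit 100) (nat_lit 69) (nat_lit 96) (nat_lit 352) (.spl (nat_lit 7) (nat_lit 600)
(.spl (nat_lit 7) (nat_lit 300)
(.leaf p064_l118)
(.spl (nat_lit 8) (nat_lit 800)
(.spl (nat_lit 8) (nat_lit 400)
(.leaf p064_l119)
(.spl (nat_lit 5) (nat_lit 160)
(.spl (nat_lit 2) (nat_lit 160)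
(.leaf p064_l120)
(.leaf p064_l121))
(.spl (nat_lit 2) (nat_lit 160)
(.spl (nat_lit 5) (nat_lit 240)
(.leaf p064_l122)
(.spl (nat_lit 1) (nat_lit 270)
(.spl (nat_lit 4) (nat_lit 280)
(.leaf p064_l123)
(.spl (nat_lit 1) (nat_lit 265)
(.leaf p064_l124)
(.trX (nat_lit 19) (nat_lit 100) (nat_lit 71) (nat_lit 97) (nat_lit 348) (.spl (nat_lit 0) (nat_lit 310)
(.leaf p064_l125)
(.trX (nat_lit 16) (nat_lit 91) (nat_lit 91) (nat_lit 100) (nat_lit 312) (.leaf p064_l126))))))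
(.trX (nat_lit 19) (nat_lit 100) (nat_lit 74) (nat_lit 98) (nat_lit 344) (.spl (nat_lit 0) (nat_lit 310)
(.leaf p064_l127)
(.trX (nat_lit 16) (nat_lit 91) (nat_lit 91) (nat_lit 100) (nat_lit 312) (.spl (nat_lit 6) (nat_lit 32)
(.leaf p064_l128)
(.leaf p064_l129)))))))
(.leaf p064_l130))))
(.leaf p064_l131)))
(.leaf p064_l132))))) (by decide +kernel)
noncomputable def p064_l133 : Lf2 := ⟨nat_lit 0, nat_lit 10, [nat_lit 0, nat_lit 5, nat_lit 5, nat_lit 20], false, nat_lit 0, nat_lit 160, nat_lit 0, nat_lit 364, ⟨nat_lit 1000, nat_lit 0, nat_lit 0, nat_lit 0, nat_lit 0, nat_lit 0, nat_lit 0, nat_lit 0, nat_lit 0, nat_lit 0, nat_lit 0, nat_lit 0, nat_lit 0, nat_lit 0, nat_lit 0, nat_lit 0, false, false⟩,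
 nat_lit 15905, nat_lit 0, nat_lit 0, nat_lit 0, nat_lit 9406, nat_lit 8420, nat_lit 880, nat_lit 0, nat_lit 0, nat_lit 899, nat_lit 0, nat_lit 0, nat_lit 0, nat_lit 0, nat_lit 0, nat_lit 0, nat_lit 0, nat_lit 0, [],
 ⟨p064_k68, nat_lit 0, nat_lit 0, nat_lit 354, nat_lit 0, nat_lit 346917, [nat_lit 3282000000, nat_lit 6250000000, nat_lit 9842000000], [], [nat_lit 26430645160, nat_lit 28189655164, nat_lit 44630802096, nat_lit 46110211516, nat_lit 19616348608, nat_lit 20439261752, nat_lit 33148733328, nat_lit 34440241696], nat_lit 1271250, nat_lit 1271250, nat_lit 1271250, nat_lit 1271250, nat_lit 0, nat_lit 1100001, [nat_lit 780000, nat_lit 1435000, nat_lit 1271250], [nat_lit 8, nat_lit 40, nat_lit 40, nat_lit 80, nat_lit 1, nat_lit 373, nat_lit 150, nat_lit 10]⟩, ⟨p064_k22, nat_lit 0, nat_lit 0, nat_lit 438, nat_lit 0, nat_lit 439586, [nat_lit 4688000000, nat_lit 7968000000, nat_lit 11872000000], [], [nat_lit 34968033540,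 nat_lit 36024123460, nat_lit 41392168160, nat_lit 42053280500, nat_lit 33364877504, nat_lit 33844246841, nat_lit 37906402532, nat_lit 38747584956], nat_lit 1271250, nat_lit 1271250, nat_lit 1271250, nat_lit 1271250, nat_lit 0, nat_lit 2570750, [nat_lit 1100000, nat_lit 1785000, nat_lit 1271250], [nat_lit 21, nat_lit 40, nat_lit 40, nat_lit 80, nat_lit 14, nat_lit 538, nat_lit 300, nat_lit 13]⟩,
 zbF0, [⟨nat_lit 22, nat_lit 83, nat_lit 100, nat_lit 83, nat_lit 218972580⟩]⟩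
noncomputable def p064_l134 : Lf2 := ⟨nat_lit 0, nat_lit 10, [nat_lit 0, nat_lit 5, nat_lit 5, nat_lit 20], false, nat_lit 0, nat_lit 160, nat_lit 0, nat_lit 364, ⟨nat_lit 1000, nat_lit 0, nat_lit 0, nat_lit 0, nat_lit 0, nat_lit 0, nat_lit 0, nat_lit 0, nat_lit 0, nat_lit 0, nat_lit 0, nat_lit 0, nat_lit 0, nat_lit 0, nat_lit 0, nat_lit 0, false, false⟩,
 nat_lit 15055, nat_lit 0, nat_lit 0, nat_lit 0, nat_lit 6536, nat_lit 7970, nat_lit 2558, nat_lit 0, nat_lit 0, nat_lit 795, nat_lit 0, nat_lit 0, nat_lit 0, nat_lit 0, nat_lit 0, nat_lit 0, nat_lit 0, nat_lit 0, [],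
 ⟨p064_k21, nat_lit 0, nat_lit 0, nat_lit 351, nat_lit 0, nat_lit 422750, [nat_lit 3282000000, nat_lit 6250000000, nat_lit 7968000000], [], [nat_lit 22981196352, nat_lit 25203893280, nat_lit 38340587696, nat_lit 39560061216, nat_lit 18763213296, nat_lit 19778377760, nat_lit 31038671776, nat_lit 32113414784], nat_lit 1271250, nat_lit 1271250, nat_lit 1271250, nat_lit 1271250, nat_lit 0, nat_lit 1100001, [nat_lit 780000, nat_lit 1435000, nat_lit 1271250], [nat_lit 18, nat_lit 40, nat_lit 40, nat_lit 80, nat_lit 2, nat_lit 249, nat_lit 40, nat_lit 8]⟩, ⟨p064_k22, nat_lit 0, nat_lit 0, nat_lit 525, nat_lit 0, nat_lit 595515, [nat_lit 4688000000, nat_lit 7968000000, nat_lit 11872000000], [], [nat_lit 36560838140, nat_lit 37608118860, nat_lit 42401541620, nat_lit 42835561000, nat_lit 34725789464, nat_lit 35220530441, nat_lit 38081900986, nat_lit 38168461948], nat_lit 1271250, nat_lit 1271250, nat_lit 1271250, nat_lit 1271250, nat_lit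 0, nat_lit 2570750, [nat_lit 1100000, nat_lit 1785000, nat_lit 1271250], [nat_lit 21, nat_lit 40, nat_lit 40, nat_lit 80, nat_lit 14, nat_lit 538, nat_lit 300, nat_lit 13]⟩,
 zbF0, [⟨nat_lit 19, nat_lit 100, nat_lit 77, nat_lit 91, nat_lit 86804246⟩, ⟨nat_lit 22, nat_lit 83, nat_lit 100, nat_lit 83, nat_lit 77109151⟩]⟩
noncomputable def p064_l135 : Lf2 := ⟨nat_lit 0, nat_lit 10, [nat_lit 0, nat_lit 5, nat_lit 5, nat_lit 20], false, nat_lit 160, nat_lit 336, nat_lit 0, nat_lit 364, ⟨nat_lit 1000, nat_lit 0, nat_lit 0, nat_lit 0, nat_lit 0, nat_lit 0, nat_lit 0, nat_lit 0, nat_lit 0, nat_lit 0, nat_lit 0, nat_lit 0, nat_lit 0, nat_lit 0, nat_lit 0, nat_lit 0, false, false⟩,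
 nat_lit 13643, nat_lit 0, nat_lit 0, nat_lit 9205, nat_lit 5715, nat_lit 7222, nat_lit 1513, nat_lit 0, nat_lit 0, nat_lit 1720, nat_lit 0, nat_lit 0, nat_lit 0, nat_lit 0, nat_lit 0, nat_lit 0, nat_lit 0, nat_lit 0, [],
 ⟨p064_k69, nat_lit 0, nat_lit 0, nat_lit 195, nat_lit 0, nat_lit 253938, [nat_lit 3282000000, nat_lit 4688000000, nat_lit 9842000000], [], [nat_lit 20728414385, nat_lit 21728354155, nat_lit 29135128460, nat_lit 30065609440, nat_lit 26391835433, nat_lit 27124161912, nat_lit 33900875069, nat_lit 34554340153], nat_lit 1271250, nat_lit 1271250, nat_lit 1271250, nat_lit 1271250, nat_lit 1100001, nat_lit 2607000, [nat_lit 780000, nat_lit 1100000, nat_lit 2127500], [nat_lit 42, nat_lit 40, nat_lit 40, nat_lit 80, nat_lit 13, nat_lit 428, nat_lit 200, nat_lit 11]⟩, ⟨p064_k56, nat_lit 0, nat_lit 0, nat_lit 390, nat_lit 0, nat_lit 321770, [nat_lit 4688000000, nat_lit 6250000000, nat_lit 11872000000], [], [nat_lit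 28126101336, nat_lit 28842002080, nat_lit 37359349192, nat_lit 37906901288, nat_lit 29278035349, nat_lit 29623994626, nat_lit 36347643282, nat_lit 36775424171], nat_lit 1271250, nat_lit 1271250, nat_lit 1271250, nat_lit 1271250, nat_lit 0, nat_lit 2570750, [nat_lit 1100000, nat_lit 1442500, nat_lit 1271250], [nat_lit 48, nat_lit 40, nat_lit 40, nat_lit 80, nat_lit 12, nat_lit 538, nat_lit 300, nat_lit 13]⟩,
 zbF0, [⟨nat_lit 16, nat_lit 100, nat_lit 94, nat_lit 97, nat_lit 366928964⟩, ⟨nat_lit 7, nat_lit 72, nat_lit 100, nat_lit 89, nat_lit 202998125⟩]⟩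
noncomputable def p064_l136 : Lf2 := ⟨nat_lit 0, nat_lit 10, [nat_lit 0, nat_lit 5, nat_lit 5, nat_lit 20], false, nat_lit 160, nat_lit 336, nat_lit 0, nat_lit 352, ⟨nat_lit 1000, nat_lit 0, nat_lit 0, nat_lit 0, nat_lit 0, nat_lit 0, nat_lit 0, nat_lit 0, nat_lit 0, nat_lit 0, nat_lit 0, nat_lit 0, nat_lit 0, nat_lit 0, nat_lit 0, nat_lit 0, false, false⟩,
 nat_lit 12589, nat_lit 0, nat_lit 0, nat_lit 2095, nat_lit 6465, nat_lit 7327, nat_lit 1231, nat_lit 0, nat_lit 0, nat_lit 980, nat_lit 0, nat_lit 0, nat_lit 0, nat_lit 0, nat_lit 0, nat_lit 0, nat_lit 0, nat_lit 0, [],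
 ⟨p064_k69, nat_lit 0, nat_lit 0, nat_lit 222, nat_lit 0, nat_lit 346917, [nat_lit 3282000000, nat_lit 4688000000, nat_lit 9842000000], [], [nat_lit 22340294355, nat_lit 23327093335, nat_lit 30202255935, nat_lit 30954521440, nat_lit 27396128483, nat_lit 28037208482, nat_lit 34790056469, nat_lit 35463439753], nat_lit 1271250, nat_lit 1271250, nat_lit 1271250, nat_lit 1271250, nat_lit 1100001, nat_lit 2607000, [nat_lit 780000, nat_lit 1100000, nat_lit 2127500], [nat_lit 42, nat_lit 40, nat_lit 40, nat_lit 80, nat_lit 13, nat_lit 428, nat_lit 200, nat_lit 11]⟩, ⟨p064_k41, nat_lit 0, nat_lit 0, nat_lit 368, nat_lit 0, nat_lit 388707, [nat_lit 4688000000, nat_lit 6250000000, nat_lit 9842000000], [], [nat_lit 29970755614, nat_lit 30580978236, nat_lit 38540992614, nat_lit 39192309516, nat_lit 29544113566, nat_lit 29857125271, nat_lit 36224246788, nat_lit 36684331781], nat_lit 1271250, nat_lit 1271250, nat_lit 1271250, nat_lit 1271250,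 nat_lit 0, nat_lit 2486000, [nat_lit 1100000, nat_lit 1442500, nat_lit 1271250], [nat_lit 11, nat_lit 40, nat_lit 40, nat_lit 80, nat_lit 1, nat_lit 538, nat_lit 300, nat_lit 15]⟩,
 zbF0, [⟨nat_lit 4, nat_lit 94, nat_lit 100, nat_lit 97, nat_lit 367519927⟩, ⟨nat_lit 19, nat_lit 100, nat_lit 82, nat_lit 92, nat_lit 171388776⟩]⟩
noncomputable def p064_l137 : Lf2 := ⟨nat_lit 0, nat_lit 10, [nat_lit 0, nat_lit 5, nat_lit 5, nat_lit 20], false, nat_lit 160, nat_lit 320, nat_lit 0, nat_lit 364, ⟨nat_lit 1000, nat_lit 0, nat_lit 0, nat_lit 0, nat_lit 0, nat_lit 0, nat_lit 0, nat_lit 0, nat_lit 0, nat_lit 0, nat_lit 0, nat_lit 0, nat_lit 0, nat_lit 0, nat_lit 0, nat_lit 0, false, false⟩,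
 nat_lit 15127, nat_lit 0, nat_lit 0, nat_lit 0, nat_lit 6526, nat_lit 8008, nat_lit 996, nat_lit 0, nat_lit 0, nat_lit 1710, nat_lit 0, nat_lit 0, nat_lit 0, nat_lit 0, nat_lit 0, nat_lit 0, nat_lit 0, nat_lit 0, [],
 ⟨p064_k64, nat_lit 0, nat_lit 0, nat_lit 182, nat_lit 0, nat_lit 366406, [nat_lit 3282000000, nat_lit 4688000000, nat_lit 7968000000], [], [nat_lit 20766230372, nat_lit 21290672698, nat_lit 24667469892, nat_lit 25196237990, nat_lit 26016244392, nat_lit 26463637952, nat_lit 29681192456, nat_lit 30174634636], nat_lit 1271250, nat_lit 1271250, nat_lit 1271250, nat_lit 1271250, nat_lit 1100001, nat_lit 2470000, [nat_lit 780000, nat_lit 1100000, nat_lit 1785000], [nat_lit 36, nat_lit 40, nat_lit 40, nat_lit 80, nat_lit 7, nat_lit 317, nat_lit 100, nat_lit 9]⟩, ⟨p064_k56, nat_lit 0, nat_lit 0, nat_lit 493, nat_lit 0, nat_lit 516145, [nat_lit 4688000000, nat_lit 6250000000, nat_lit 11872000000], [], [nat_lit 28632592050,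 nat_lit 29962651314, nat_lit 31645825554, nat_lit 33375720818, nat_lit 28577769125, nat_lit 29355378845, nat_lit 31614924836, nat_lit 33001795466], nat_lit 1271250, nat_lit 1271250, nat_lit 1271250, nat_lit 1271250, nat_lit 0, nat_lit 2570750, [nat_lit 1100000, nat_lit 1442500, nat_lit 1271250], [nat_lit 48, nat_lit 40, nat_lit 40, nat_lit 80, nat_lit 12, nat_lit 483, nat_lit 250, nat_lit 12]⟩,
 zbF0, [⟨nat_lit 16, nat_lit 94, nat_lit 88, nat_lit 100, nat_lit 404402997⟩, ⟨nat_lit 19, nat_lit 100, nat_lit 77, nat_lit 91, nat_lit 206435730⟩]⟩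
noncomputable def p064_l138 : Lf2 := ⟨nat_lit 0, nat_lit 10, [nat_lit 0, nat_lit 5, nat_lit 5, nat_lit 20], false, nat_lit 160, nat_lit 312, nat_lit 0, nat_lit 364, ⟨nat_lit 1000, nat_lit 0, nat_lit 0, nat_lit 0, nat_lit 0, nat_lit 0, nat_lit 0, nat_lit 0, nat_lit 0, nat_lit 0, nat_lit 0, nat_lit 0, nat_lit 0, nat_lit 0, nat_lit 0, nat_lit 0, false, false⟩,
 nat_lit 15172, nat_lit 0, nat_lit 0, nat_lit 0, nat_lit 5431, nat_lit 8032, nat_lit 1264, nat_lit 0, nat_lit 0, nat_lit 1721, nat_lit 0, nat_lit 0, nat_lit 0, nat_lit 0, nat_lit 0, nat_lit 0, nat_lit 0, nat_lit 0, [],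
 ⟨p064_k70, nat_lit 0, nat_lit 0, nat_lit 195, nat_lit 0, nat_lit 401983, [nat_lit 3282000000, nat_lit 4688000000, nat_lit 7968000000], [], [nat_lit 21792868921, nat_lit 22271889032, nat_lit 24796551683, nat_lit 25189157468, nat_lit 25664304199, nat_lit 26012692299, nat_lit 28980402189, nat_lit 29448992080], nat_lit 1271250, nat_lit 1271250, nat_lit 1271250, nat_lit 1271250, nat_lit 1100001, nat_lit 2401500, [nat_lit 780000, nat_lit 1100000, nat_lit 1785000], [nat_lit 36, nat_lit 40, nat_lit 40, nat_lit 80, nat_lit 7, nat_lit 317, nat_lit 100, nat_lit 9]⟩, ⟨p064_k56, nat_lit 0, nat_lit 0, nat_lit 521, nat_lit 0, nat_lit 595515, [nat_lit 4688000000, nat_lit 6250000000, nat_lit 11872000000], [], [nat_lit 28532581575, nat_lit 29863802631, nat_lit 31607391591, nat_lit 33339240647, nat_lit 28509398300, nat_lit 29287668375, nat_lit 31636010141, nat_lit 33023961463], nat_lit 1271250, nat_lit 1271250, nat_lit 1271250, nat_lit 1271250,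 nat_lit 0, nat_lit 2570750, [nat_lit 1100000, nat_lit 1442500, nat_lit 1271250], [nat_lit 48, nat_lit 40, nat_lit 40, nat_lit 80, nat_lit 12, nat_lit 483, nat_lit 250, nat_lit 12]⟩,
 zbF0, [⟨nat_lit 16, nat_lit 91, nat_lit 91, nat_lit 100, nat_lit 188759767⟩, ⟨nat_lit 4, nat_lit 100, nat_lit 90, nat_lit 95, nat_lit 203401015⟩, ⟨nat_lit 7, nat_lit 77, nat_lit 100, nat_lit 91, nat_lit 206935400⟩]⟩
noncomputable def p064_l139 : Lf2 := ⟨nat_lit 0, nat_lit 10, [nat_lit 0, nat_lit 5, nat_lit 5, nat_lit 20], false, nat_lit 160, nat_lit 320, nat_lit 16, nat_lit 364, ⟨nat_lit 1000, nat_lit 0, nat_lit 0, nat_lit 0, nat_lit 0, nat_lit 0, nat_lit 0, nat_lit 0, nat_lit 0, nat_lit 0, nat_lit 0, nat_lit 0, nat_lit 0, nat_lit 0, nat_lit 0, nat_lit 0, false, false⟩,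
 nat_lit 12946, nat_lit 0, nat_lit 0, nat_lit 0, nat_lit 5469, nat_lit 6853, nat_lit 1064, nat_lit 0, nat_lit 0, nat_lit 1410, nat_lit 0, nat_lit 0, nat_lit 0, nat_lit 0, nat_lit 0, nat_lit 0, nat_lit 0, nat_lit 0, [],
 ⟨p064_k64, nat_lit 0, nat_lit 0, nat_lit 253, nat_lit 0, nat_lit 422750, [nat_lit 3282000000, nat_lit 4688000000, nat_lit 7968000000], [], [nat_lit 26230776574, nat_lit 26971709552, nat_lit 29902605536, nat_lit 30768200936, nat_lit 29300496578, nat_lit 29819374648, nat_lit 33529979164, nat_lit 34213096728], nat_lit 1271250, nat_lit 1271250, nat_lit 1271250, nat_lit 1271250, nat_lit 1100001, nat_lit 2470000, [nat_lit 780000, nat_lit 1100000, nat_lit 1785000], [nat_lit 36, nat_lit 40, nat_lit 40, nat_lit 80, nat_lit 7, nat_lit 317, nat_lit 100, nat_lit 9]⟩, ⟨p064_k56, nat_lit 0, nat_lit 0, nat_lit 510, nat_lit 0, nat_lit 595515, [nat_lit 4688000000, nat_lit 6250000000, nat_lit 11872000000], [], [nat_lit 34886492022,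 nat_lit 35664223021, nat_lit 38222104517, nat_lit 38858276259, nat_lit 33995576749, nat_lit 34438931871, nat_lit 36293081310, nat_lit 36727515426], nat_lit 1271250, nat_lit 1271250, nat_lit 1271250, nat_lit 1271250, nat_lit 88400, nat_lit 2598350, [nat_lit 1100000, nat_lit 1442500, nat_lit 1271250], [nat_lit 48, nat_lit 40, nat_lit 40, nat_lit 80, nat_lit 12, nat_lit 401, nat_lit 175, nat_lit 10]⟩,
 zbF0, [⟨nat_lit 4, nat_lit 100, nat_lit 93, nat_lit 97, nat_lit 347508232⟩, ⟨nat_lit 19, nat_lit 100, nat_lit 77, nat_lit 91, nat_lit 186334977⟩]⟩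
noncomputable def b_V_700_600_20_48 : St := ⟨true, nat_lit 1, nat_lit 1, nat_lit 1, nat_lit 120, nat_lit 280, nat_lit 320, nat_lit 240, nat_lit 280, nat_lit 240, nat_lit 400, nat_lit 80, nat_lit 120, nat_lit 0, nat_lit 336, nat_lit 0, nat_lit 364, nat_lit 0, nat_lit 40, nat_lit 0, nat_lit 0, nat_lit 0, nat_lit 0⟩
theorem d_V_700_600_20_48 (h : EB TB.env) : Dead b_V_700_600_20_48 := chkB_sound0 h (T :=
(.spl (nat_lit 4) (nat_lit 160)
(.spl (nat_lit 0) (nat_lit 300)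
(.leaf p064_l133)
(.leaf p064_l134))
(.spl (nat_lit 0) (nat_lit 300)
(.spl (nat_lit 1) (nat_lit 260)
(.leaf p064_l135)
(.trX (nat_lit 19) (nat_lit 100) (nat_lit 69) (nat_lit 96) (nat_lit 352) (.leaf p064_l136)))
(.trX (nat_lit 16) (nat_lit 94) (nat_lit 88) (nat_lit 100) (nat_lit 320) (.spl (nat_lit 2) (nat_lit 320)
(.spl (nat_lit 0) (nat_lit 310)
(.leaf p064_l137)
(.trX (nat_lit 16) (nat_lit 91) (nat_lit 91) (nat_lit 100) (nat_lit 312) (.leaf p064_l138)))
(.trZ (nat_lit 9) (nat_lit 100) (nat_lit 82) (nat_lit 44) (nat_lit 16) (.leaf p064_l139))))))) (by decide +kernel)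

end B2
end Pool.Agent.Lib.MP_6947cd_al
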