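import Pool.Agent.Lib.MP_6947cd_al.ZB.Pre

/-!
Problem MP_6947cd_al (Chollet).  Case B, second entry in [2/5, 17/20]: certificates of the tree, part P079 (generated).
-/

set_option autoImplicit false
set_option linter.all false

namespace Pool.Agent.Lib.MP_6947cd_al
namespace B2

open Ent Fr B1 PkA

noncomputable def p079_k0 : C1.Kn := ⟨[nat_lit 40, nat_lit 100, nat_lit 140], [nat_lit 0, nat_lit 0, nat_lit 3243], [(nat_lit 0, nat_lit 0, nat_lit 0), (nat_lit 0, nat_lit 0, nat_lit 0), (nat_lit 1000, nat_lit 870, nat_lit 941)], (nat_lit 83, nat_lit 100, nat_lit 83)⟩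
noncomputable def p079_k1 : C1.Kn := ⟨[nat_lit 40, nat_lit 100, nat_lit 140], [nat_lit 0, nat_lit 592, nat_lit 3606], [(nat_lit 0, nat_lit 0, nat_lit 0), (nat_lit 1000, nat_lit 908, nat_lit 154), (nat_lit 1000, nat_lit 825, nat_lit 971)], (nat_lit 78, nat_lit 100, nat_lit 82)⟩
noncomputable def p079_k2 : C1.Kn := ⟨[nat_lit 40, nat_lit 100, nat_lit 120], [nat_lit 0, nat_lit 1192, nat_lit 2817], [(nat_lit 0, nat_lit 0, nat_lit 0), (nat_lit 1000, nat_lit 814, nat_lit 310), (nat_lit 1000, nat_lit 727, nat_lit 834)], (nat_lit 72, nat_lit 100, nat_lit 81)⟩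
noncomputable def p079_k3 : C1.Kn := ⟨[nat_lit 100, nat_lit 160, nat_lit 180], [nat_lit 0, nat_lit 0, nat_lit 2560], [(nat_lit 0, nat_lit 0, nat_lit 0), (nat_lit 0, nat_lit 0, nat_lit 0), (nat_lit 600, nat_lit 1000, nat_lit 800)], (nat_lit 100, nat_lit 60, nat_lit 80)⟩
noncomputable def p079_k4 : C1.Kn := ⟨[nat_lit 40, nat_lit 80, nat_lit 140], [nat_lit 0, nat_lit 0, nat_lit 3199], [(nat_lit 0, nat_lit 0, nat_lit 0), (nat_lit 0, nat_lit 0, nat_lit 0), (nat_lit 1000, nat_lit 833, nat_lit 833)], (nat_lit 83, nat_lit 100, nat_lit 83)⟩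
noncomputable def p079_k5 : C1.Kn := ⟨[nat_lit 100, nat_lit 140, nat_lit 180], [nat_lit 0, nat_lit 0, nat_lit 2434], [(nat_lit 0, nat_lit 0, nat_lit 0), (nat_lit 0, nat_lit 0, nat_lit 0), (nat_lit 726, nat_lit 1000, nat_lit 688)], (nat_lit 100, nat_lit 60, nat_lit 80)⟩
noncomputable def p079_k6 : C1.Kn := ⟨[nat_lit 40, nat_lit 120], [nat_lit 0, nat_lit 1589], [(nat_lit 0, nat_lit 0, nat_lit 0), (nat_lit 1000, nat_lit 814, nat_lit 310)], (nat_lit 72, nat_lit 100, nat_lit 81)⟩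
noncomputable def p079_k7 : C1.Kn := ⟨[nat_lit 100, nat_lit 180], [nat_lit 0, nat_lit 0], [(nat_lit 0, nat_lit 0, nat_lit 0), (nat_lit 0, nat_lit 0, nat_lit 0)], (nat_lit 100, nat_lit 60, nat_lit 80)⟩
noncomputable def p079_k8 : C1.Kn := ⟨[nat_lit 40, nat_lit 140], [nat_lit 0, nat_lit 0], [(nat_lit 0, nat_lit 0, nat_lit 0), (nat_lit 0, nat_lit 0, nat_lit 0)], (nat_lit 83, nat_lit 100, nat_lit 83)⟩
noncomputable def p079_k9 : C1.Kn := ⟨[nat_lit 40, nat_lit 80, nat_lit 120], [nat_lit 0, nat_lit 0, nat_lit 2151], [(nat_lit 0, nat_lit 0, nat_lit 0), (nat_lit 0, nat_lit 0, nat_lit 0), (nat_lit 1000, nat_lit 815, nat_lit 753)], (nat_lit 81, nat_lit 100, nat_lit 72)⟩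
noncomputable def p079_k10 : C1.Kn := ⟨[nat_lit 100, nat_lit 140, nat_lit 180], [nat_lit 0, nat_lit 0, nat_lit 2434], [(nat_lit 0, nat_lit 0, nat_lit 0), (nat_lit 0, nat_lit 0, nat_lit 0), (nat_lit 726, nat_lit 1000, nat_lit 688)], (nat_lit 100, nat_lit 70, nat_lit 71)⟩
noncomputable def p079_k11 : C1.Kn := ⟨[nat_lit 40, nat_lit 80, nat_lit 120], [nat_lit 0, nat_lit 795, nat_lit 2800], [(nat_lit 0, nat_lit 0, nat_lit 0), (nat_lit 1000, nat_lit 814, nat_lit 310), (nat_lit 1000, nat_lit 719, nat_lit 783)], (nat_lit 71, nat_lit 100, nat_lit 71)⟩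
noncomputable def p079_k12 : C1.Kn := ⟨[nat_lit 40, nat_lit 80, nat_lit 120], [nat_lit 0, nat_lit 795, nat_lit 2800], [(nat_lit 0, nat_lit 0, nat_lit 0), (nat_lit 1000, nat_lit 814, nat_lit 310), (nat_lit 1000, nat_lit 719, nat_lit 783)], (nat_lit 72, nat_lit 100, nat_lit 81)⟩
noncomputable def p079_k13 : C1.Kn := ⟨[nat_lit 100, nat_lit 140, nat_lit 180], [nat_lit 0, nat_lit 508, nat_lit 2854], [(nat_lit 0, nat_lit 0, nat_lit 0), (nat_lit 1000, nat_lit 1000, nat_lit 198), (nat_lit 777, nat_lit 1000, nat_lit 712)], (nat_lit 100, nat_lit 68, nat_lit 80)⟩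
noncomputable def p079_k14 : C1.Kn := ⟨[nat_lit 40, nat_lit 100], [nat_lit 0, nat_lit 0], [(nat_lit 0, nat_lit 0, nat_lit 0), (nat_lit 0, nat_lit 0, nat_lit 0)], (nat_lit 80, nat_lit 100, nat_lit 60)⟩
noncomputable def p079_k15 : C1.Kn := ⟨[nat_lit 40, nat_lit 80, nat_lit 100], [nat_lit 0, nat_lit 0, nat_lit 1280], [(nat_lit 0, nat_lit 0, nat_lit 0), (nat_lit 0, nat_lit 0, nat_lit 0), (nat_lit 1000, nat_lit 800, nat_lit 600)], (nat_lit 80, nat_lit 100, nat_lit 60)⟩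
noncomputable def p079_k16 : C1.Kn := ⟨[nat_lit 100, nat_lit 160], [nat_lit 0, nat_lit 0], [(nat_lit 0, nat_lit 0, nat_lit 0), (nat_lit 0, nat_lit 0, nat_lit 0)], (nat_lit 100, nat_lit 80, nat_lit 60)⟩
noncomputable def p079_k17 : C1.Kn := ⟨[nat_lit 100, nat_lit 140, nat_lit 160], [nat_lit 0, nat_lit 0, nat_lit 1280], [(nat_lit 0, nat_lit 0, nat_lit 0), (nat_lit 0, nat_lit 0, nat_lit 0), (nat_lit 800, nat_lit 1000, nat_lit 600)], (nat_lit 100, nat_lit 80, nat_lit 60)⟩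
noncomputable def p079_k18 : C1.Kn := ⟨[nat_lit 40, nat_lit 80, nat_lit 100], [nat_lit 0, nat_lit 395, nat_lit 1536], [(nat_lit 0, nat_lit 0, nat_lit 0), (nat_lit 1000, nat_lit 908, nat_lit 154), (nat_lit 1000, nat_lit 760, nat_lit 642)], (nat_lit 76, nat_lit 100, nat_lit 60)⟩
noncomputable def p079_k19 : C1.Kn := ⟨[nat_lit 40, nat_lit 80, nat_lit 100], [nat_lit 0, nat_lit 795, nat_lit 1829], [(nat_lit 0, nat_lit 0, nat_lit 0), (nat_lit 1000, nat_lit 814, nat_lit 310), (nat_lit 1000, nat_lit 714, nat_lit 692)], (nat_lit 72, nat_lit 100, nat_lit 61)⟩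
noncomputable def p079_k20 : C1.Kn := ⟨[nat_lit 100, nat_lit 140, nat_lit 160], [nat_lit 0, nat_lit 508, nat_lit 1689], [(nat_lit 0, nat_lit 0, nat_lit 0), (nat_lit 1000, nat_lit 1000, nat_lit 198), (nat_lit 811, nat_lit 1000, nat_lit 671)], (nat_lit 100, nat_lit 86, nat_lit 60)⟩
noncomputable def p079_k21 : C1.Kn := ⟨[nat_lit 100, nat_lit 140, nat_lit 160], [nat_lit 0, nat_lit 256, nat_lit 1478], [(nat_lit 0, nat_lit 0, nat_lit 0), (nat_lit 1000, nat_lit 1000, nat_lit 100), (nat_lit 806, nat_lit 1000, nat_lit 633)], (nat_lit 100, nat_lit 83, nat_lit 60)⟩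
noncomputable def p079_k22 : C1.Kn := ⟨[nat_lit 40, nat_lit 80, nat_lit 100], [nat_lit 0, nat_lit 0, nat_lit 1280], [(nat_lit 0, nat_lit 0, nat_lit 0), (nat_lit 0, nat_lit 0, nat_lit 0), (nat_lit 1000, nat_lit 800, nat_lit 600)], (nat_lit 82, nat_lit 100, nat_lit 44)⟩
noncomputable def p079_k23 : C1.Kn := ⟨[nat_lit 100, nat_lit 140], [nat_lit 0, nat_lit 766], [(nat_lit 0, nat_lit 0, nat_lit 0), (nat_lit 1000, nat_lit 1000, nat_lit 299)], (nat_lit 100, nat_lit 97, nat_lit 44)⟩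
noncomputable def p079_k24 : C1.Kn := ⟨[nat_lit 40, nat_lit 80], [nat_lit 0, nat_lit 395], [(nat_lit 0, nat_lit 0, nat_lit 0), (nat_lit 1000, nat_lit 908, nat_lit 154)], (nat_lit 79, nat_lit 100, nat_lit 45)⟩
noncomputable def p079_k25 : C1.Kn := ⟨[nat_lit 40, nat_lit 100], [nat_lit 0, nat_lit 1192], [(nat_lit 0, nat_lit 0, nat_lit 0), (nat_lit 1000, nat_lit 814, nat_lit 310)], (nat_lit 72, nat_lit 100, nat_lit 61)⟩
noncomputable def p079_k26 : C1.Kn := ⟨[nat_lit 40, nat_lit 80], [nat_lit 0, nat_lit 1195], [(nat_lit 0, nat_lit 0, nat_lit 0), (nat_lit 1000, nat_lit 720, nat_lit 465)], (nat_lit 68, nat_lit 100, nat_lit 61)⟩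
noncomputable def p079_k27 : C1.Kn := ⟨[nat_lit 40, nat_lit 60, nat_lit 100], [nat_lit 0, nat_lit 0, nat_lit 1216], [(nat_lit 0, nat_lit 0, nat_lit 0), (nat_lit 0, nat_lit 0, nat_lit 0), (nat_lit 1000, nat_lit 810, nat_lit 474)], (nat_lit 80, nat_lit 100, nat_lit 60)⟩
noncomputable def p079_k28 : C1.Kn := ⟨[nat_lit 40, nat_lit 60, nat_lit 100], [nat_lit 0, nat_lit 0, nat_lit 1216], [(nat_lit 0, nat_lit 0, nat_lit 0), (nat_lit 0, nat_lit 0, nat_lit 0), (nat_lit 1000, nat_lit 810, nat_lit 474)], (nat_lit 82, nat_lit 100, nat_lit 44)⟩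
noncomputable def p079_k29 : C1.Kn := ⟨[nat_lit 40, nat_lit 80], [nat_lit 0, nat_lit 192], [(nat_lit 0, nat_lit 0, nat_lit 0), (nat_lit 1000, nat_lit 955, nat_lit 75)], (nat_lit 80, nat_lit 100, nat_lit 45)⟩
noncomputable def p079_k30 : C1.Kn := ⟨[nat_lit 40, nat_lit 80], [nat_lit 0, nat_lit 315], [(nat_lit 0, nat_lit 0, nat_lit 0), (nat_lit 1000, nat_lit 926, nat_lit 123)], (nat_lit 79, nat_lit 100, nat_lit 45)⟩
noncomputable def p079_k31 : C1.Kn := ⟨[nat_lit 40, nat_lit 60, nat_lit 80], [nat_lit 0, nat_lit 197, nat_lit 800], [(nat_lit 0, nat_lit 0, nat_lit 0), (nat_lit 1000, nat_lit 908, nat_lit 154), (nat_lit 1000, nat_lit 781, nat_lit 471)], (nat_lit 79, nat_lit 100, nat_lit 45)⟩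
noncomputable def p079_k32 : C1.Kn := ⟨[nat_lit 40, nat_lit 80], [nat_lit 0, nat_lit 593], [(nat_lit 0, nat_lit 0, nat_lit 0), (nat_lit 1000, nat_lit 861, nat_lit 231)], (nat_lit 77, nat_lit 100, nat_lit 45)⟩
noncomputable def p079_k33 : C1.Kn := ⟨[nat_lit 40, nat_lit 80], [nat_lit 0, nat_lit 795], [(nat_lit 0, nat_lit 0, nat_lit 0), (nat_lit 1000, nat_lit 814, nat_lit 310)], (nat_lit 75, nat_lit 100, nat_lit 46)⟩
noncomputable def p079_k34 : C1.Kn := ⟨[nat_lit 40, nat_lit 80], [nat_lit 0, nat_lit 994], [(nat_lit 0, nat_lit 0, nat_lit 0), (nat_lit 1000, nat_lit 767, nat_lit 387)], (nat_lit 74, nat_lit 100, nat_lit 47)⟩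
noncomputable def p079_k35 : C1.Kn := ⟨[nat_lit 40, nat_lit 80], [nat_lit 0, nat_lit 1399], [(nat_lit 0, nat_lit 0, nat_lit 0), (nat_lit 1000, nat_lit 672, nat_lit 546)], (nat_lit 65, nat_lit 100, nat_lit 62)⟩
noncomputable def p079_k36 : C1.Kn := ⟨[nat_lit 100, nat_lit 120, nat_lit 160], [nat_lit 0, nat_lit 0, nat_lit 1063], [(nat_lit 0, nat_lit 0, nat_lit 0), (nat_lit 0, nat_lit 0, nat_lit 0), (nat_lit 924, nat_lit 1000, nat_lit 383)], (nat_lit 100, nat_lit 80, nat_lit 60)⟩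
noncomputable def p079_k37 : C1.Kn := ⟨[nat_lit 40, nat_lit 60, nat_lit 100], [nat_lit 0, nat_lit 197, nat_lit 1403], [(nat_lit 0, nat_lit 0, nat_lit 0), (nat_lit 1000, nat_lit 908, nat_lit 154), (nat_lit 1000, nat_lit 781, nat_lit 471)], (nat_lit 76, nat_lit 100, nat_lit 60)⟩
noncomputable def p079_k38 : C1.Kn := ⟨[nat_lit 40, nat_lit 60, nat_lit 100], [nat_lit 0, nat_lit 398, nat_lit 1586], [(nat_lit 0, nat_lit 0, nat_lit 0), (nat_lit 1000, nat_lit 814, nat_lit 310), (nat_lit 1000, nat_lit 752, nat_lit 464)], (nat_lit 72, nat_lit 100, nat_lit 61)⟩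
noncomputable def p079_k39 : C1.Kn := ⟨[nat_lit 40, nat_lit 80, nat_lit 100], [nat_lit 0, nat_lit 192, nat_lit 1404], [(nat_lit 0, nat_lit 0, nat_lit 0), (nat_lit 1000, nat_lit 955, nat_lit 75), (nat_lit 1000, nat_lit 781, nat_lit 625)], (nat_lit 78, nat_lit 100, nat_lit 60)⟩
noncomputable def p079_k40 : C1.Kn := ⟨[nat_lit 100, nat_lit 120, nat_lit 160], [nat_lit 0, nat_lit 0, nat_lit 1063], [(nat_lit 0, nat_lit 0, nat_lit 0), (nat_lit 0, nat_lit 0, nat_lit 0), (nat_lit 924, nat_lit 1000, nat_lit 383)], (nat_lit 100, nat_lit 90, nat_lit 44)⟩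
noncomputable def p079_k41 : C1.Kn := ⟨[nat_lit 100, nat_lit 140, nat_lit 160], [nat_lit 0, nat_lit 0, nat_lit 1280], [(nat_lit 0, nat_lit 0, nat_lit 0), (nat_lit 0, nat_lit 0, nat_lit 0), (nat_lit 800, nat_lit 1000, nat_lit 600)], (nat_lit 100, nat_lit 90, nat_lit 44)⟩
noncomputable def p079_k42 : C1.Kn := ⟨[nat_lit 100, nat_lit 140], [nat_lit 0, nat_lit 256], [(nat_lit 0, nat_lit 0, nat_lit 0), (nat_lit 1000, nat_lit 1000, nat_lit 100)], (nat_lit 100, nat_lit 92, nat_lit 44)⟩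
noncomputable def p079_k43 : C1.Kn := ⟨[nat_lit 100, nat_lit 140], [nat_lit 0, nat_lit 508], [(nat_lit 0, nat_lit 0, nat_lit 0), (nat_lit 1000, nat_lit 1000, nat_lit 198)], (nat_lit 100, nat_lit 94, nat_lit 44)⟩
noncomputable def p079_k44 : C1.Kn := ⟨[nat_lit 100, nat_lit 120, nat_lit 160], [nat_lit 0, nat_lit 254, nat_lit 1301], [(nat_lit 0, nat_lit 0, nat_lit 0), (nat_lit 1000, nat_lit 1000, nat_lit 198), (nat_lit 960, nat_lit 1000, nat_lit 392)], (nat_lit 100, nat_lit 86, nat_lit 60)⟩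
noncomputable def p079_l0 : Lf2 := ⟨nat_lit 0, nat_lit 20, [nat_lit 5, nat_lit 5, nat_lit 5, nat_lit 20], true, nat_lit 0, nat_lit 160, nat_lit 0, nat_lit 360, ⟨nat_lit 0, nat_lit 0, nat_lit 1000, nat_lit 5, nat_lit 168, nat_lit 774, nat_lit 56, nat_lit 1000, nat_lit 29400, nat_lit 257, nat_lit 817, nat_lit 208, nat_lit 56915376, nat_lit 0, nat_lit 0, nat_lit 2118020, false, false⟩,
 nat_lit 0, nat_lit 3691, nat_lit 0, nat_lit 1761, nat_lit 2768, nat_lit 0, nat_lit 0, nat_lit 0, nat_lit 0, nat_lit 0, nat_lit 0, nat_lit 0, nat_lit 0, nat_lit 0, nat_lit 129, nat_lit 400000, nat_lit 0, nat_lit 0, [(nat_lit 19, [(nat_lit 5, nat_lit 1000)])],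
 ⟨p079_k0, nat_lit 0, nat_lit 0, nat_lit 296, nat_lit 0, nat_lit 32212, [nat_lit 2117400001, nat_lit 1311300000, nat_lit 268000000], [], [nat_lit 17038866144, nat_lit 17711463752, nat_lit 19917785346, nat_lit 20387494706, nat_lit 17226083522, nat_lit 17746367298, nat_lit 20092893923, nat_lit 20635156443], nat_lit 1271250, nat_lit 1271250, nat_lit 230001, nat_lit 1717500, nat_lit 0, nat_lit 1100001, [nat_lit 490000, nat_lit 1427500, nat_lit 1271250], [nat_lit 61, nat_lit 40, nat_lit 40, nat_lit 80, nat_lit 1, nat_lit 317, nat_lit 100, nat_lit 9]⟩, C1.Rw.none,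
 ⟨nat_lit 4183, nat_lit 4473, ⟨.ofNat (nat_lit 228083), .ofNat (nat_lit 567977), .ofNat (nat_lit 271208), .ofNat (nat_lit 611104), .ofNat (nat_lit 234973), .ofNat (nat_lit 566254), .ofNat (nat_lit 278299), .ofNat (nat_lit 609582)⟩, ⟨.negSucc (nat_lit 12423), .ofNat (nat_lit 259489), .ofNat (nat_lit 0), .ofNat (nat_lit 302621), .negSucc (nat_lit 4612), .ofNat (nat_lit 260409), .ofNat (nat_lit 0), .ofNat (nat_lit 303743)⟩⟩, []⟩
noncomputable def p079_l1 : Lf2 := ⟨nat_lit 0, nat_lit 20, [nat_lit 5, nat_lit 5, nat_lit 5, nat_lit 20], true, nat_lit 0, nat_lit 160, nat_lit 0, nat_lit 360, ⟨nat_lit 0, nat_lit 0, nat_lit 1000, nat_lit 5, nat_lit 172, nat_lit 855, nat_lit 56, nat_lit 1000, nat_lit 29400, nat_lit 257, nat_lit 2777, nat_lit 209, nat_lit 56537653, nat_lit 0, nat_lit 0, nat_lit 2166186, false, false⟩,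
 nat_lit 0, nat_lit 3423, nat_lit 0, nat_lit 591, nat_lit 2668, nat_lit 0, nat_lit 0, nat_lit 0, nat_lit 0, nat_lit 0, nat_lit 0, nat_lit 0, nat_lit 0, nat_lit 0, nat_lit 129, nat_lit 400000, nat_lit 0, nat_lit 0, [(nat_lit 19, [(nat_lit 5, nat_lit 1000)])],
 ⟨p079_k1, nat_lit 0, nat_lit 0, nat_lit 324, nat_lit 0, nat_lit 119582, [nat_lit 2117400001, nat_lit 1311300000, nat_lit 268000000], [], [nat_lit 17550013686, nat_lit 18190513378, nat_lit 20499976906, nat_lit 20963559266, nat_lit 17905276191, nat_lit 18414678370, nat_lit 20832998443, nat_lit 21367296963], nat_lit 1271250, nat_lit 1271250, nat_lit 279600, nat_lit 1722000, nat_lit 0, nat_lit 1100001, [nat_lit 490000, nat_lit 1427500, nat_lit 1271250], [nat_lit 61, nat_lit 40, nat_lit 40, nat_lit 80, nat_lit 1, nat_lit 317, nat_lit 100, nat_lit 9]⟩, C1.Rw.none,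
 ⟨nat_lit 3872, nat_lit 4184, ⟨.ofNat (nat_lit 248217), .ofNat (nat_lit 566254), .ofNat (nat_lit 291541), .ofNat (nat_lit 609582), .ofNat (nat_lit 254806), .ofNat (nat_lit 564520), .ofNat (nat_lit 298383), .ofNat (nat_lit 608101)⟩, ⟨.negSucc (nat_lit 4619), .ofNat (nat_lit 260409), .ofNat (nat_lit 0), .ofNat (nat_lit 303743), .ofNat (nat_lit 0), .ofNat (nat_lit 261131), .ofNat (nat_lit 0), .ofNat (nat_lit 304717)⟩⟩, []⟩
noncomputable def p079_l2 : Lf2 := ⟨nat_lit 1, nat_lit 20, [nat_lit 5, nat_lit 5, nat_lit 5, nat_lit 20], false, nat_lit 0, nat_lit 160, nat_lit 0, nat_lit 360, zbN0,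
 nat_lit 0, nat_lit 0, nat_lit 0, nat_lit 0, nat_lit 0, nat_lit 0, nat_lit 0, nat_lit 0, nat_lit 0, nat_lit 0, nat_lit 0, nat_lit 0, nat_lit 0, nat_lit 0, nat_lit 0, nat_lit 0, nat_lit 0, nat_lit 0, [],
 C1.Rw.none, C1.Rw.none,
 zbF0, []⟩
noncomputable def p079_l3 : Lf2 := ⟨nat_lit 0, nat_lit 20, [nat_lit 5, nat_lit 5, nat_lit 5, nat_lit 20], true, nat_lit 0, nat_lit 160, nat_lit 0, nat_lit 360, ⟨nat_lit 0, nat_lit 0, nat_lit 1000, nat_lit 5, nat_lit 151, nat_lit 1000, nat_lit 57, nat_lit 1000, nat_lit 30817, nat_lit 258, nat_lit 62567, nat_lit 276, nat_lit 58640108, nat_lit 0, nat_lit 0, nat_lit 1881653, false, false⟩,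
 nat_lit 0, nat_lit 3256, nat_lit 0, nat_lit 0, nat_lit 2635, nat_lit 0, nat_lit 0, nat_lit 0, nat_lit 0, nat_lit 0, nat_lit 0, nat_lit 0, nat_lit 0, nat_lit 0, nat_lit 150, nat_lit 400000, nat_lit 0, nat_lit 0, [(nat_lit 22, [(nat_lit 5, nat_lit 1000)])],
 ⟨p079_k2, nat_lit 0, nat_lit 0, nat_lit 339, nat_lit 0, nat_lit 304956, [nat_lit 2176000000, nat_lit 915400001, nat_lit 20000000], [], [nat_lit 17620851259, nat_lit 19524876720, nat_lit 19095052950, nat_lit 20349324440, nat_lit 18841395522, nat_lit 20042609637, nat_lit 20282365960, nat_lit 21346004260], nat_lit 1271250, nat_lit 1271250, nat_lit 330400, nat_lit 1100001, nat_lit 0, nat_lit 1100001, [nat_lit 490000, nat_lit 1427500, nat_lit 1271250], [nat_lit 102, nat_lit 40, nat_lit 40, nat_lit 80, nat_lit 2, nat_lit 317, nat_lit 100, nat_lit 10]⟩, C1.Rw.none,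
 ⟨nat_lit 3162, nat_lit 3873, ⟨.ofNat (nat_lit 267606), .ofNat (nat_lit 435446), .ofNat (nat_lit 311135), .ofNat (nat_lit 478975), .ofNat (nat_lit 280451), .ofNat (nat_lit 439014), .ofNat (nat_lit 324704), .ofNat (nat_lit 483267)⟩, ⟨.ofNat (nat_lit 0), .ofNat (nat_lit 261131), .ofNat (nat_lit 0), .ofNat (nat_lit 304717), .ofNat (nat_lit 0), .ofNat (nat_lit 261806), .ofNat (nat_lit 0), .ofNat (nat_lit 306116)⟩⟩, []⟩
noncomputable def p079_l4 : Lf2 := ⟨nat_lit 0, nat_lit 20, [nat_lit 5, nat_lit 5, nat_lit 5, nat_lit 20], false, nat_lit 0, nat_lit 160, nat_lit 0, nat_lit 360, ⟨nat_lit 176, nat_lit 0, nat_lit 824, nat_lit 5, nat_lit 209, nat_lit 824, nat_lit 57, nat_lit 824, nat_lit 30817, nat_lit 258, nat_lit 5723, nat_lit 210, nat_lit 52655659, nat_lit 0, nat_lit 0, nat_lit 2596656, false, false⟩,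
 nat_lit 0, nat_lit 3602, nat_lit 0, nat_lit 0, nat_lit 2915, nat_lit 3772, nat_lit 0, nat_lit 0, nat_lit 0, nat_lit 0, nat_lit 0, nat_lit 0, nat_lit 0, nat_lit 0, nat_lit 65, nat_lit 329600, nat_lit 0, nat_lit 0, [(nat_lit 22, [(nat_lit 5, nat_lit 824)])],
 ⟨p079_k2, nat_lit 0, nat_lit 0, nat_lit 295, nat_lit 0, nat_lit 304956, [nat_lit 1681856001, nat_lit 682289600, nat_lit 12448000], [], [nat_lit 19607411722, nat_lit 20688053503, nat_lit 21652485413, nat_lit 22917059820, nat_lit 20003675733, nat_lit 20950374183, nat_lit 21817765083, nat_lit 22794926924], nat_lit 1271250, nat_lit 1271250, nat_lit 1100001, nat_lit 1785000, nat_lit 0, nat_lit 1100001, [nat_lit 490000, nat_lit 1427500, nat_lit 1271250], [nat_lit 102, nat_lit 40, nat_lit 40, nat_lit 80, nat_lit 2, nat_lit 317, nat_lit 100, nat_lit 10]⟩, ⟨p079_k3, nat_lit 0, nat_lit 0, nat_lit 273, nat_lit 0, nat_lit 0, [nat_lit 1100000000, nat_lit 2089472000, nat_lit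 2474208000], [], [nat_lit 7697092752, nat_lit 8185625328, nat_lit 8227711328, nat_lit 8562785088, nat_lit 6512713480, nat_lit 6514245248, nat_lit 6237471040, nat_lit 6162667864], nat_lit 0, nat_lit 0, nat_lit 0, nat_lit 0, nat_lit 0, nat_lit 0, [], [nat_lit 137, nat_lit 40, nat_lit 40, nat_lit 80, nat_lit 58, nat_lit 456, nat_lit 225, nat_lit 11]⟩,
 ⟨nat_lit 3162, nat_lit 3873, ⟨.ofNat (nat_lit 435446), .ofNat (nat_lit 564520), .ofNat (nat_lit 478975), .ofNat (nat_lit 608082), .ofNat (nat_lit 439014), .ofNat (nat_lit 560952), .ofNat (nat_lit 483267), .ofNat (nat_lit 605237)⟩, ⟨.ofNat (nat_lit 0), .ofNat (nat_lit 261131), .ofNat (nat_lit 0), .ofNat (nat_lit 304717), .ofNat (nat_lit 0), .ofNat (nat_lit 261806), .ofNat (nat_lit 0), .ofNat (nat_lit 306116)⟩⟩, [⟨nat_lit 7, nat_lit 77, nat_lit 100, nat_lit 72, nat_lit 1310859⟩]⟩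
noncomputable def p079_l5 : Lf2 := ⟨nat_lit 0, nat_lit 20, [nat_lit 5, nat_lit 5, nat_lit 5, nat_lit 20], true, nat_lit 160, nat_lit 260, nat_lit 0, nat_lit 360, ⟨nat_lit 0, nat_lit 0, nat_lit 1000, nat_lit 5, nat_lit 169, nat_lit 1000, nat_lit 146, nat_lit 1000, nat_lit 89743, nat_lit 288, nat_lit 817, nat_lit 208, nat_lit 48904036, nat_lit 0, nat_lit 0, nat_lit 4118323, false, false⟩,
 nat_lit 0, nat_lit 4942, nat_lit 0, nat_lit 150, nat_lit 3706, nat_lit 0, nat_lit 0, nat_lit 0, nat_lit 0, nat_lit 0, nat_lit 0, nat_lit 0, nat_lit 0, nat_lit 0, nat_lit 81, nat_lit 250000, nat_lit 0, nat_lit 0, [(nat_lit 19, [(nat_lit 4, nat_lit 1000)])],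
 ⟨p079_k0, nat_lit 0, nat_lit 0, nat_lit 190, nat_lit 0, nat_lit 129826, [nat_lit 2166400000, nat_lit 713200000, nat_lit 172800000], [], [nat_lit 17738790176, nat_lit 19063821416, nat_lit 19883214232, nat_lit 20893678836, nat_lit 20770283016, nat_lit 21971822691, nat_lit 22678903094, nat_lit 23904429527], nat_lit 1271250, nat_lit 1271250, nat_lit 230001, nat_lit 1717500, nat_lit 1100001, nat_lit 1956250, [nat_lit 490000, nat_lit 1427500, nat_lit 1271250], [nat_lit 61, nat_lit 40, nat_lit 40, nat_lit 80, nat_lit 1, nat_lit 345, nat_lit 125, nat_lit 9]⟩, C1.Rw.none,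
 ⟨nat_lit 3872, nat_lit 4473, ⟨.ofNat (nat_lit 228056), .ofNat (nat_lit 567977), .ofNat (nat_lit 271153), .ofNat (nat_lit 611083), .ofNat (nat_lit 241882), .ofNat (nat_lit 564520), .ofNat (nat_lit 285433), .ofNat (nat_lit 608080)⟩, ⟨.ofNat (nat_lit 259489), .ofNat (nat_lit 429434), .ofNat (nat_lit 302621), .ofNat (nat_lit 472567), .ofNat (nat_lit 261131), .ofNat (nat_lit 422435), .ofNat (nat_lit 304717), .ofNat (nat_lit 466021)⟩⟩, [⟨nat_lit 4, nat_lit 100, nat_lit 76, nat_lit 72, nat_lit 278241175⟩]⟩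
noncomputable def p079_l6 : Lf2 := ⟨nat_lit 0, nat_lit 20, [nat_lit 5, nat_lit 5, nat_lit 5, nat_lit 20], true, nat_lit 160, nat_lit 232, nat_lit 0, nat_lit 360, ⟨nat_lit 0, nat_lit 344, nat_lit 656, nat_lit 5, nat_lit 176, nat_lit 1000, nat_lit 136, nat_lit 656, nat_lit 173400, nat_lit 317, nat_lit 600, nat_lit 209, nat_lit 49034076, nat_lit 10772052, nat_lit 7193872, nat_lit 4077087, false, false⟩,
 nat_lit 0, nat_lit 3899, nat_lit 0, nat_lit 0, nat_lit 3156, nat_lit 0, nat_lit 0, nat_lit 0, nat_lit 0, nat_lit 0, nat_lit 0, nat_lit 0, nat_lit 0, nat_lit 0, nat_lit 57, nat_lit 342700, nat_lit 0, nat_lit 0, [(nat_lit 22, [(nat_lit 0, nat_lit 344), (nat_lit 4, nat_lit 38), (nat_lit 5, nat_lit 618)])],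
 ⟨p079_k2, nat_lit 0, nat_lit 0, nat_lit 245, nat_lit 0, nat_lit 304956, [nat_lit 1655225601, nat_lit 602744401, nat_lit 2760800], [], [nat_lit 18292672706, nat_lit 19441888806, nat_lit 21010827066, nat_lit 21928494803, nat_lit 20174405506, nat_lit 21355822351, nat_lit 22656246777, nat_lit 23800379743], nat_lit 1271250, nat_lit 1271250, nat_lit 330400, nat_lit 1726500, nat_lit 1100001, nat_lit 1716500, [nat_lit 490000, nat_lit 1427500, nat_lit 1271250], [nat_lit 102, nat_lit 40, nat_lit 40, nat_lit 80, nat_lit 2, nat_lit 345, nat_lit 125, nat_lit 11]⟩, C1.Rw.none,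
 ⟨nat_lit 3162, nat_lit 3873, ⟨.ofNat (nat_lit 267606), .ofNat (nat_lit 564520), .ofNat (nat_lit 311135), .ofNat (nat_lit 608082), .ofNat (nat_lit 280451), .ofNat (nat_lit 560952), .ofNat (nat_lit 324704), .ofNat (nat_lit 605237)⟩, ⟨.ofNat (nat_lit 261131), .ofNat (nat_lit 377270), .ofNat (nat_lit 304717), .ofNat (nat_lit 420856), .ofNat (nat_lit 261806), .ofNat (nat_lit 371522), .ofNat (nat_lit 306116), .ofNat (nat_lit 415832)⟩⟩, [⟨nat_lit 4, nat_lit 100, nat_lit 66, nat_lit 72, nat_lit 401463029⟩]⟩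
noncomputable def p079_l7 : Lf2 := ⟨nat_lit 0, nat_lit 20, [nat_lit 5, nat_lit 5, nat_lit 5, nat_lit 20], false, nat_lit 0, nat_lit 260, nat_lit 0, nat_lit 160, ⟨nat_lit 1000, nat_lit 0, nat_lit 0, nat_lit 0, nat_lit 0, nat_lit 0, nat_lit 0, nat_lit 0, nat_lit 0, nat_lit 0, nat_lit 0, nat_lit 0, nat_lit 0, nat_lit 0, nat_lit 0, nat_lit 0, false, false⟩,
 nat_lit 0, nat_lit 7133, nat_lit 0, nat_lit 0, nat_lit 5349, nat_lit 7703, nat_lit 661, nat_lit 0, nat_lit 0, nat_lit 0, nat_lit 0, nat_lit 0, nat_lit 0, nat_lit 0, nat_lit 0, nat_lit 0, nat_lit 0, nat_lit 0, [],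
 ⟨p079_k4, nat_lit 0, nat_lit 0, nat_lit 344, nat_lit 0, nat_lit 338486, [nat_lit 2032000001, nat_lit 4688000000, nat_lit 9842000000], [], [nat_lit 31472413946, nat_lit 33088226142, nat_lit 36095108922, nat_lit 37505740868, nat_lit 29675133598, nat_lit 31097899380, nat_lit 33929519662, nat_lit 35188085291], nat_lit 1271250, nat_lit 1271250, nat_lit 1271250, nat_lit 1271250, nat_lit 0, nat_lit 1836250, [nat_lit 490000, nat_lit 1100000, nat_lit 2127500], [nat_lit 27, nat_lit 40, nat_lit 40, nat_lit 80, nat_lit 13, nat_lit 401, nat_lit 175, nat_lit 11]⟩, ⟨p079_k5, nat_lit 0, nat_lit 0, nat_lit 294, nat_lit 0, nat_lit 0, [nat_lit 6250000000, nat_lit 9842000000, nat_lit 14058000000], [], [nat_lit 39936493696, nat_lit 40978690824, nat_lit 48922005938, nat_lit 49434898439, nat_lit 34594722960, nat_lit 35445579684, nat_lit 41291826670, nat_lit 41739494689], nat_lit 0, nat_lit 0, nat_lit 0, nat_lit 0, nat_lit 0, nat_lit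 0, [], [nat_lit 60, nat_lit 40, nat_lit 40, nat_lit 80, nat_lit 32, nat_lit 428, nat_lit 200, nat_lit 10]⟩,
 zbF0, [⟨nat_lit 4, nat_lit 100, nat_lit 71, nat_lit 71, nat_lit 249890564⟩, ⟨nat_lit 9, nat_lit 100, nat_lit 88, nat_lit 25, nat_lit 30039294⟩]⟩
noncomputable def p079_l8 : Lf2 := ⟨nat_lit 0, nat_lit 20, [nat_lit 5, nat_lit 5, nat_lit 5, nat_lit 20], false, nat_lit 0, nat_lit 260, nat_lit 160, nat_lit 360, ⟨nat_lit 1000, nat_lit 0, nat_lit 0, nat_lit 0, nat_lit 0, nat_lit 0, nat_lit 0, nat_lit 0, nat_lit 0, nat_lit 0, nat_lit 0, nat_lit 0, nat_lit 0, nat_lit 0, nat_lit 0, nat_lit 0, false, false⟩,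
 nat_lit 0, nat_lit 8340, nat_lit 0, nat_lit 0, nat_lit 6254, nat_lit 7213, nat_lit 615, nat_lit 0, nat_lit 0, nat_lit 0, nat_lit 0, nat_lit 0, nat_lit 0, nat_lit 0, nat_lit 0, nat_lit 0, nat_lit 0, nat_lit 0, [],
 ⟨p079_k4, nat_lit 0, nat_lit 0, nat_lit 344, nat_lit 0, nat_lit 338486, [nat_lit 2032000001, nat_lit 4688000000, nat_lit 9842000000], [], [nat_lit 30728468566, nat_lit 32450350382, nat_lit 37161010255, nat_lit 40125524616, nat_lit 27894192158, nat_lit 29086956832, nat_lit 32132921468, nat_lit 34249992984], nat_lit 1271250, nat_lit 1271250, nat_lit 1271250, nat_lit 1271250, nat_lit 0, nat_lit 1836250, [nat_lit 490000, nat_lit 1100000, nat_lit 2127500], [nat_lit 27, nat_lit 40, nat_lit 40, nat_lit 80, nat_lit 13, nat_lit 401, nat_lit 175, nat_lit 11]⟩, ⟨p079_k5, nat_lit 0, nat_lit 0, nat_lit 116, nat_lit 0, nat_lit 0, [nat_lit 6250000000, nat_lit 9842000000, nat_lit 14058000000], [], [nat_lit 14277546860,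 nat_lit 16495861940, nat_lit 26698450312, nat_lit 27828691371, nat_lit 26334801820, nat_lit 27371148888, nat_lit 34407824509, nat_lit 34943335244], nat_lit 0, nat_lit 0, nat_lit 0, nat_lit 0, nat_lit 0, nat_lit 0, [], [nat_lit 60, nat_lit 40, nat_lit 40, nat_lit 80, nat_lit 32, nat_lit 483, nat_lit 250, nat_lit 11]⟩,
 zbF0, [⟨nat_lit 4, nat_lit 100, nat_lit 71, nat_lit 71, nat_lit 114771183⟩, ⟨nat_lit 7, nat_lit 77, nat_lit 100, nat_lit 72, nat_lit 593075105⟩]⟩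
noncomputable def p079_l9 : Lf2 := ⟨nat_lit 0, nat_lit 20, [nat_lit 5, nat_lit 5, nat_lit 5, nat_lit 20], false, nat_lit 0, nat_lit 160, nat_lit 0, nat_lit 360, ⟨nat_lit 0, nat_lit 0, nat_lit 1000, nat_lit 5, nat_lit 169, nat_lit 855, nat_lit 56, nat_lit 1000, nat_lit 29400, nat_lit 257, nat_lit 817, nat_lit 208, nat_lit 56860881, nat_lit 0, nat_lit 0, nat_lit 2125045, false, false⟩,
 nat_lit 0, nat_lit 3558, nat_lit 0, nat_lit 1184, nat_lit 2668, nat_lit 0, nat_lit 0, nat_lit 0, nat_lit 0, nat_lit 0, nat_lit 0, nat_lit 0, nat_lit 0, nat_lit 0, nat_lit 129, nat_lit 400000, nat_lit 0, nat_lit 0, [(nat_lit 19, [(nat_lit 5, nat_lit 1000)])],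
 ⟨p079_k0, nat_lit 0, nat_lit 0, nat_lit 318, nat_lit 0, nat_lit 84538, [nat_lit 2117400001, nat_lit 1311300000, nat_lit 268000000], [], [nat_lit 17045672177, nat_lit 18254784360, nat_lit 20036394546, nat_lit 20963559266, nat_lit 17390419522, nat_lit 18416225674, nat_lit 20298699923, nat_lit 21367296963], nat_lit 1271250, nat_lit 1271250, nat_lit 230001, nat_lit 1717500, nat_lit 0, nat_lit 1100001, [nat_lit 490000, nat_lit 1427500, nat_lit 1271250], [nat_lit 61, nat_lit 40, nat_lit 40, nat_lit 80, nat_lit 1, nat_lit 317, nat_lit 100, nat_lit 9]⟩, ⟨p079_k3, nat_lit 0, nat_lit 0, nat_lit 511, nat_lit 0, nat_lit 177288, [nat_lit 0, nat_lit 0, nat_lit 0], [], [nat_lit 0, nat_lit 0, nat_lit 0, nat_lit 0, nat_lit 0, nat_lit 0, nat_lit 0, nat_lit 0], nat_lit 1271250, nat_lit 1271250, nat_lit 230001, nat_lit 1717500, nat_lit 0, nat_lit 2542500, [nat_lit 1412500, nat_lit 1271250, nat_lit 1271250], [nat_lit 137, nat_lit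 40, nat_lit 40, nat_lit 80, nat_lit 58, nat_lit 456, nat_lit 225, nat_lit 11]⟩,
 ⟨nat_lit 3872, nat_lit 4473, ⟨.ofNat (nat_lit 228056), .ofNat (nat_lit 567977), .ofNat (nat_lit 271153), .ofNat (nat_lit 611083), .ofNat (nat_lit 241882), .ofNat (nat_lit 564520), .ofNat (nat_lit 285433), .ofNat (nat_lit 608080)⟩, ⟨.negSucc (nat_lit 12427), .ofNat (nat_lit 259489), .ofNat (nat_lit 0), .ofNat (nat_lit 302621), .ofNat (nat_lit 0), .ofNat (nat_lit 261131), .ofNat (nat_lit 0), .ofNat (nat_lit 304717)⟩⟩, []⟩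
noncomputable def p079_l10 : Lf2 := ⟨nat_lit 0, nat_lit 20, [nat_lit 5, nat_lit 5, nat_lit 5, nat_lit 20], true, nat_lit 0, nat_lit 160, nat_lit 0, nat_lit 360, ⟨nat_lit 0, nat_lit 69, nat_lit 931, nat_lit 5, nat_lit 151, nat_lit 981, nat_lit 57, nat_lit 931, nat_lit 30817, nat_lit 258, nat_lit 62567, nat_lit 276, nat_lit 58640108, nat_lit 8359892, nat_lit 0, nat_lit 1881653, false, false⟩,
 nat_lit 0, nat_lit 3871, nat_lit 0, nat_lit 0, nat_lit 3133, nat_lit 0, nat_lit 0, nat_lit 0, nat_lit 0, nat_lit 0, nat_lit 0, nat_lit 0, nat_lit 0, nat_lit 0, nat_lit 80, nat_lit 250000, nat_lit 0, nat_lit 0, [(nat_lit 22, [(nat_lit 0, nat_lit 69), (nat_lit 4, nat_lit 931)])],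
 ⟨p079_k6, nat_lit 0, nat_lit 0, nat_lit 357, nat_lit 0, nat_lit 304956, [nat_lit 2136499201, nat_lit 12653715], [], [nat_lit 19632158421, nat_lit 20848496976, nat_lit 20634745503, nat_lit 21836670957, nat_lit 20092567915, nat_lit 21300253454, nat_lit 21297783773, nat_lit 22442586113], nat_lit 1271250, nat_lit 1271250, nat_lit 330400, nat_lit 1100001, nat_lit 0, nat_lit 1100001, [nat_lit 490000, nat_lit 1740000], [nat_lit 110, nat_lit 40, nat_lit 40, nat_lit 80, nat_lit 109, nat_lit 317, nat_lit 100, nat_lit 10]⟩, C1.Rw.none,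
 ⟨nat_lit 3162, nat_lit 3873, ⟨.ofNat (nat_lit 267606), .ofNat (nat_lit 435446), .ofNat (nat_lit 311135), .ofNat (nat_lit 478975), .ofNat (nat_lit 280451), .ofNat (nat_lit 439014), .ofNat (nat_lit 324704), .ofNat (nat_lit 483267)⟩, ⟨.ofNat (nat_lit 0), .ofNat (nat_lit 261131), .ofNat (nat_lit 0), .ofNat (nat_lit 304717), .ofNat (nat_lit 0), .ofNat (nat_lit 261806), .ofNat (nat_lit 0), .ofNat (nat_lit 306116)⟩⟩, []⟩
noncomputable def p079_l11 : Lf2 := ⟨nat_lit 0, nat_lit 20, [nat_lit 5, nat_lit 5, nat_lit 5, nat_lit 20], false, nat_lit 0, nat_lit 160, nat_lit 0, nat_lit 360, ⟨nat_lit 99, nat_lit 0, nat_lit 901, nat_lit 5, nat_lit 209, nat_lit 809, nat_lit 57, nat_lit 901, nat_lit 30817, nat_lit 258, nat_lit 5723, nat_lit 210, nat_lit 52655659, nat_lit 0, nat_lit 0, nat_lit 2596656, false, false⟩,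
 nat_lit 3396, nat_lit 597, nat_lit 0, nat_lit 0, nat_lit 3232, nat_lit 1455, nat_lit 0, nat_lit 0, nat_lit 0, nat_lit 0, nat_lit 0, nat_lit 0, nat_lit 0, nat_lit 0, nat_lit 52, nat_lit 225250, nat_lit 0, nat_lit 0, [(nat_lit 22, [(nat_lit 4, nat_lit 901)])],
 ⟨p079_k6, nat_lit 0, nat_lit 0, nat_lit 251, nat_lit 0, nat_lit 200362, [nat_lit 1960739201, nat_lit 932400], [], [nat_lit 20427335043, nat_lit 21585766003, nat_lit 22512777331, nat_lit 23541647456, nat_lit 20579874787, nat_lit 21566080947, nat_lit 22485200340, nat_lit 23572585540], nat_lit 1271250, nat_lit 1271250, nat_lit 1100001, nat_lit 1785000, nat_lit 0, nat_lit 1100001, [nat_lit 490000, nat_lit 1740000], [nat_lit 110, nat_lit 40, nat_lit 40, nat_lit 80, nat_lit 109, nat_lit 317, nat_lit 100, nat_lit 10]⟩, ⟨p079_k7, nat_lit 0, nat_lit 0, nat_lit 572, nat_lit 0, nat_lit 462230, [nat_lit 618750000, nat_lit 1391742000], [], [nat_lit 5408027712, nat_lit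 5338973208, nat_lit 5194571136, nat_lit 5110136940, nat_lit 6127109538, nat_lit 4791841488, nat_lit 3822102684, nat_lit 3741381696], nat_lit 1271250, nat_lit 1271250, nat_lit 1271250, nat_lit 1271250, nat_lit 0, nat_lit 2542500, [nat_lit 1412500, nat_lit 1271250], [nat_lit 149, nat_lit 40, nat_lit 40, nat_lit 80, nat_lit 68, nat_lit 456, nat_lit 225, nat_lit 11]⟩,
 ⟨nat_lit 3162, nat_lit 3873, ⟨.ofNat (nat_lit 435446), .ofNat (nat_lit 564520), .ofNat (nat_lit 478975), .ofNat (nat_lit 608082), .ofNat (nat_lit 439014), .ofNat (nat_lit 560952), .ofNat (nat_lit 483267), .ofNat (nat_lit 605237)⟩, ⟨.ofNat (nat_lit 0), .ofNat (nat_lit 261131), .ofNat (nat_lit 0), .ofNat (nat_lit 304717), .ofNat (nat_lit 0), .ofNat (nat_lit 261806), .ofNat (nat_lit 0), .ofNat (nat_lit 306116)⟩⟩, [⟨nat_lit 10, nat_lit 60, nat_lit 100, nat_lit 80, nat_lit 399224⟩]⟩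
noncomputable def p079_l12 : Lf2 := ⟨nat_lit 0, nat_lit 20, [nat_lit 5, nat_lit 5, nat_lit 5, nat_lit 20], false, nat_lit 160, nat_lit 260, nat_lit 0, nat_lit 360, ⟨nat_lit 0, nat_lit 0, nat_lit 1000, nat_lit 5, nat_lit 170, nat_lit 1000, nat_lit 145, nat_lit 1000, nat_lit 89743, nat_lit 288, nat_lit 817, nat_lit 208, nat_lit 48867133, nat_lit 0, nat_lit 0, nat_lit 4121686, false, false⟩,
 nat_lit 0, nat_lit 5601, nat_lit 0, nat_lit 0, nat_lit 4200, nat_lit 0, nat_lit 0, nat_lit 0, nat_lit 0, nat_lit 0, nat_lit 0, nat_lit 0, nat_lit 0, nat_lit 0, nat_lit 81, nat_lit 250000, nat_lit 0, nat_lit 0, [(nat_lit 19, [(nat_lit 4, nat_lit 1000)]), (nat_lit 22, [(nat_lit 4, nat_lit 1000)])],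
 ⟨p079_k8, nat_lit 0, nat_lit 0, nat_lit 264, nat_lit 0, nat_lit 220409, [nat_lit 2166400000, nat_lit 172800000], [], [nat_lit 17660983200, nat_lit 20485994400, nat_lit 19506719200, nat_lit 22528120000, nat_lit 20833639200, nat_lit 24300174200, nat_lit 24406853200, nat_lit 25447677000], nat_lit 1271250, nat_lit 1271250, nat_lit 230001, nat_lit 1717500, nat_lit 1100001, nat_lit 1956250, [nat_lit 490000, nat_lit 2052500], [nat_lit 94, nat_lit 40, nat_lit 40, nat_lit 80, nat_lit 95, nat_lit 345, nat_lit 125, nat_lit 9]⟩, ⟨p079_k7, nat_lit 0, nat_lit 0, nat_lit 628, nat_lit 0, nat_lit 462230, [nat_lit 0, nat_lit 0], [], [nat_lit 0, nat_lit 0, nat_lit 0, nat_lit 0, nat_lit 0, nat_lit 0, nat_lit 0, nat_lit 0], nat_lit 1271250, nat_lit 1271250, nat_lit 230001, nat_lit 1717500, nat_lit 0, nat_lit 2542500, [nat_lit 1412500, nat_lit 1271250], [nat_lit 149, nat_lit 40, nat_lit 40, nat_lit 80, nat_lit 68, nat_lit 456, nat_lit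 225, nat_lit 11]⟩,
 ⟨nat_lit 3162, nat_lit 4473, ⟨.ofNat (nat_lit 227776), .ofNat (nat_lit 567977), .ofNat (nat_lit 270729), .ofNat (nat_lit 611007), .ofNat (nat_lit 255876), .ofNat (nat_lit 560952), .ofNat (nat_lit 300005), .ofNat (nat_lit 605159)⟩, ⟨.ofNat (nat_lit 259488), .ofNat (nat_lit 429433), .ofNat (nat_lit 302621), .ofNat (nat_lit 472567), .ofNat (nat_lit 261805), .ofNat (nat_lit 414188), .ofNat (nat_lit 306116), .ofNat (nat_lit 458499)⟩⟩, [⟨nat_lit 4, nat_lit 100, nat_lit 71, nat_lit 71, nat_lit 465116434⟩]⟩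
noncomputable def p079_l13 : Lf2 := ⟨nat_lit 0, nat_lit 15, [nat_lit 30, nat_lit 5, nat_lit 5, nat_lit 20], false, nat_lit 0, nat_lit 160, nat_lit 0, nat_lit 344, ⟨nat_lit 1000, nat_lit 0, nat_lit 0, nat_lit 0, nat_lit 0, nat_lit 0, nat_lit 0, nat_lit 0, nat_lit 0, nat_lit 0, nat_lit 0, nat_lit 0, nat_lit 0, nat_lit 0, nat_lit 0, nat_lit 0, false, false⟩,
 nat_lit 27362, nat_lit 0, nat_lit 0, nat_lit 0, nat_lit 7237, nat_lit 11726, nat_lit 0, nat_lit 0, nat_lit 0, nat_lit 0, nat_lit 0, nat_lit 0, nat_lit 0, nat_lit 0, nat_lit 0, nat_lit 0, nat_lit 0, nat_lit 0, [],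
 ⟨p079_k9, nat_lit 0, nat_lit 0, nat_lit 191, nat_lit 0, nat_lit 13135, [nat_lit 2032000001, nat_lit 4688000000, nat_lit 7968000000], [], [nat_lit 30632403732, nat_lit 32486362962, nat_lit 40409074381, nat_lit 41603795588, nat_lit 25649774492, nat_lit 26950186678, nat_lit 33670834905, nat_lit 34693812420], nat_lit 1271250, nat_lit 1271250, nat_lit 1271250, nat_lit 1271250, nat_lit 0, nat_lit 1100001, [nat_lit 490000, nat_lit 1100000, nat_lit 1785000], [nat_lit 34, nat_lit 40, nat_lit 40, nat_lit 80, nat_lit 7, nat_lit 249, nat_lit 40, nat_lit 7]⟩, ⟨p079_k10, nat_lit 0, nat_lit 0, nat_lit 305, nat_lit 0, nat_lit 29399, [nat_lit 6250000000, nat_lit 9842000000, nat_lit 14058000000], [], [nat_lit 41506363888, nat_lit 43030422816, nat_lit 53852189220, nat_lit 54151836973, nat_lit 37711104215, nat_lit 37965386641, nat_lit 43457508681, nat_lit 43039629863], nat_lit 1271250, nat_lit 1271250, nat_lit 1271250, nat_lit 1271250,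 nat_lit 0, nat_lit 2429500, [nat_lit 1412500, nat_lit 1271250, nat_lit 1271250], [nat_lit 60, nat_lit 40, nat_lit 40, nat_lit 80, nat_lit 32, nat_lit 483, nat_lit 250, nat_lit 11]⟩,
 zbF0, [⟨nat_lit 22, nat_lit 88, nat_lit 100, nat_lit 85, nat_lit 39864564⟩]⟩
noncomputable def p079_l14 : Lf2 := ⟨nat_lit 1, nat_lit 20, [nat_lit 5, nat_lit 5, nat_lit 5, nat_lit 20], false, nat_lit 0, nat_lit 160, nat_lit 0, nat_lit 360, zbN0,
 nat_lit 0, nat_lit 0, nat_lit 0, nat_lit 0, nat_lit 0, nat_lit 0, nat_lit 0, nat_lit 0, nat_lit 0, nat_lit 0, nat_lit 0, nat_lit 0, nat_lit 0, nat_lit 0, nat_lit 0, nat_lit 0, nat_lit 0, nat_lit 0, [],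
 C1.Rw.none, C1.Rw.none,
 zbF0, []⟩
noncomputable def p079_l15 : Lf2 := ⟨nat_lit 1, nat_lit 20, [nat_lit 5, nat_lit 5, nat_lit 5, nat_lit 20], false, nat_lit 0, nat_lit 160, nat_lit 0, nat_lit 360, zbN0,
 nat_lit 0, nat_lit 0, nat_lit 0, nat_lit 0, nat_lit 0, nat_lit 0, nat_lit 0, nat_lit 0, nat_lit 0, nat_lit 0, nat_lit 0, nat_lit 0, nat_lit 0, nat_lit 0, nat_lit 0, nat_lit 0, nat_lit 0, nat_lit 0, [],
 C1.Rw.none, C1.Rw.none,
 zbF0, []⟩
noncomputable def p079_l16 : Lf2 := ⟨nat_lit 0, nat_lit 15, [nat_lit 30, nat_lit 5, nat_lit 5, nat_lit 20], false, nat_lit 0, nat_lit 160, nat_lit 0, nat_lit 160, ⟨nat_lit 1000, nat_lit 0, nat_lit 0, nat_lit 0, nat_lit 0, nat_lit 0, nat_lit 0, nat_lit 0, nat_lit 0, nat_lit 0, nat_lit 0, nat_lit 0, nat_lit 0, nat_lit 0, nat_lit 0, nat_lit 0, false, false⟩,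
 nat_lit 17910, nat_lit 0, nat_lit 0, nat_lit 0, nat_lit 6407, nat_lit 7675, nat_lit 185, nat_lit 0, nat_lit 0, nat_lit 977, nat_lit 0, nat_lit 0, nat_lit 0, nat_lit 0, nat_lit 0, nat_lit 0, nat_lit 0, nat_lit 0, [],
 ⟨p079_k11, nat_lit 0, nat_lit 0, nat_lit 248, nat_lit 0, nat_lit 125545, [nat_lit 2032000001, nat_lit 4688000000, nat_lit 7968000000], [], [nat_lit 30521979382, nat_lit 32240822912, nat_lit 37938274975, nat_lit 39128883612, nat_lit 26338193283, nat_lit 27553797729, nat_lit 32270749858, nat_lit 33291044131], nat_lit 1271250, nat_lit 1271250, nat_lit 1271250, nat_lit 1271250, nat_lit 0, nat_lit 1100001, [nat_lit 490000, nat_lit 1100000, nat_lit 1785000], [nat_lit 34, nat_lit 40, nat_lit 40, nat_lit 80, nat_lit 7, nat_lit 249, nat_lit 40, nat_lit 7]⟩, ⟨p079_k10, nat_lit 0, nat_lit 0, nat_lit 443, nat_lit 0, nat_lit 284881, [nat_lit 6250000000, nat_lit 9842000000, nat_lit 14058000000], [], [nat_lit 39362660000,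 nat_lit 39757438950, nat_lit 43893741030, nat_lit 44215681720, nat_lit 34011098350, nat_lit 34625634800, nat_lit 38350229640, nat_lit 38605194180], nat_lit 1271250, nat_lit 1271250, nat_lit 1271250, nat_lit 1271250, nat_lit 0, nat_lit 1100001, [nat_lit 1412500, nat_lit 1271250, nat_lit 1271250], [nat_lit 60, nat_lit 40, nat_lit 40, nat_lit 80, nat_lit 32, nat_lit 428, nat_lit 200, nat_lit 10]⟩,
 zbF0, []⟩
noncomputable def p079_l17 : Lf2 := ⟨nat_lit 0, nat_lit 15, [nat_lit 30, nat_lit 5, nat_lit 5, nat_lit 20], false, nat_lit 0, nat_lit 160, nat_lit 160, nat_lit 344, ⟨nat_lit 762, nat_lit 0, nat_lit 238, nat_lit 6, nat_lit 274, nat_lit 238, nat_lit 54, nat_lit 238, nat_lit 28017, nat_lit 256, nat_lit 357902, nat_lit 200, nat_lit 45598707, nat_lit 0, nat_lit 0, nat_lit 3132165, true, true⟩,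
 nat_lit 13523, nat_lit 0, nat_lit 0, nat_lit 0, nat_lit 5770, nat_lit 5795, nat_lit 0, nat_lit 0, nat_lit 0, nat_lit 0, nat_lit 0, nat_lit 0, nat_lit 0, nat_lit 0, nat_lit 0, nat_lit 89500, nat_lit 0, nat_lit 0, [(nat_lit 22, [(nat_lit 4, nat_lit 198), (nat_lit 6, nat_lit 40)])],
 ⟨p079_k11, nat_lit 0, nat_lit 0, nat_lit 248, nat_lit 0, nat_lit 125545, [nat_lit 1873913601, nat_lit 3395928800, nat_lit 5270375200], [], [nat_lit 29177841220, nat_lit 30792987520, nat_lit 36232146785, nat_lit 37370944521, nat_lit 25552248380, nat_lit 26703157000, nat_lit 31379879493, nat_lit 32352304744], nat_lit 1271250, nat_lit 1271250, nat_lit 1271250, nat_lit 1271250, nat_lit 0, nat_lit 1100001, [nat_lit 490000, nat_lit 1100000, nat_lit 1785000], [nat_lit 34, nat_lit 40, nat_lit 40, nat_lit 80, nat_lit 7, nat_lit 249, nat_lit 40, nat_lit 7]⟩, ⟨p079_k10, nat_lit 0, nat_lit 0, nat_lit 282, nat_lit 0, nat_lit 284881, [nat_lit 4762500000,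 nat_lit 7499604000, nat_lit 10712196000], [], [nat_lit 26490063032, nat_lit 27138885780, nat_lit 30631771003, nat_lit 31041019180, nat_lit 30039129781, nat_lit 30394813626, nat_lit 33238361428, nat_lit 33280928861], nat_lit 1271250, nat_lit 1271250, nat_lit 1271250, nat_lit 1271250, nat_lit 1271250, nat_lit 1271250, [nat_lit 1412500, nat_lit 1271250, nat_lit 1271250], [nat_lit 60, nat_lit 40, nat_lit 40, nat_lit 80, nat_lit 32, nat_lit 483, nat_lit 250, nat_lit 11]⟩,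
 ⟨nat_lit 3162, nat_lit 3873, ⟨.ofNat (nat_lit 564520), .ofNat (nat_lit 770989), .ofNat (nat_lit 608082), .ofNat (nat_lit 814576), .ofNat (nat_lit 560952), .ofNat (nat_lit 756003), .ofNat (nat_lit 605237), .ofNat (nat_lit 800312)⟩, ⟨.ofNat (nat_lit 0), .ofNat (nat_lit 261131), .ofNat (nat_lit 0), .ofNat (nat_lit 282924), .ofNat (nat_lit 0), .ofNat (nat_lit 261806), .ofNat (nat_lit 0), .ofNat (nat_lit 283961)⟩⟩, [⟨nat_lit 7, nat_lit 82, nat_lit 100, nat_lit 66, nat_lit 316504295⟩, ⟨nat_lit 22, nat_lit 92, nat_lit 100, nat_lit 86, nat_lit 34857062⟩]⟩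
noncomputable def p079_l18 : Lf2 := ⟨nat_lit 1, nat_lit 15, [nat_lit 30, nat_lit 5, nat_lit 5, nat_lit 20], false, nat_lit 0, nat_lit 160, nat_lit 0, nat_lit 344, zbN0,
 nat_lit 0, nat_lit 0, nat_lit 0, nat_lit 0, nat_lit 0, nat_lit 0, nat_lit 0, nat_lit 0, nat_lit 0, nat_lit 0, nat_lit 0, nat_lit 0, nat_lit 0, nat_lit 0, nat_lit 0, nat_lit 0, nat_lit 0, nat_lit 0, [],
 C1.Rw.none, C1.Rw.none,
 zbF0, []⟩
noncomputable def p079_l19 : Lf2 := ⟨nat_lit 0, nat_lit 20, [nat_lit 5, nat_lit 5, nat_lit 5, nat_lit 20], false, nat_lit 0, nat_lit 160, nat_lit 0, nat_lit 160, ⟨nat_lit 1000, nat_lit 0, nat_lit 0, nat_lit 0, nat_lit 0, nat_lit 0, nat_lit 0, nat_lit 0, nat_lit 0, nat_lit 0, nat_lit 0, nat_lit 0, nat_lit 0, nat_lit 0, nat_lit 0, nat_lit 0, false, false⟩,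
 nat_lit 17910, nat_lit 0, nat_lit 0, nat_lit 0, nat_lit 6407, nat_lit 7675, nat_lit 185, nat_lit 0, nat_lit 0, nat_lit 977, nat_lit 0, nat_lit 0, nat_lit 0, nat_lit 0, nat_lit 0, nat_lit 0, nat_lit 0, nat_lit 0, [],
 ⟨p079_k12, nat_lit 0, nat_lit 0, nat_lit 239, nat_lit 0, nat_lit 97206, [nat_lit 2032000001, nat_lit 4688000000, nat_lit 7968000000], [], [nat_lit 30521979382, nat_lit 32240822912, nat_lit 37938274975, nat_lit 39128883612, nat_lit 26338193283, nat_lit 27553797729, nat_lit 32270749858, nat_lit 33291044131], nat_lit 1271250, nat_lit 1271250, nat_lit 1271250, nat_lit 1271250, nat_lit 0, nat_lit 1100001, [nat_lit 490000, nat_lit 1100000, nat_lit 1785000], [nat_lit 34, nat_lit 40, nat_lit 40, nat_lit 80, nat_lit 7, nat_lit 249, nat_lit 40, nat_lit 7]⟩, ⟨p079_k5, nat_lit 0, nat_lit 0, nat_lit 420, nat_lit 0, nat_lit 222207, [nat_lit 6250000000, nat_lit 9842000000, nat_lit 14058000000], [], [nat_lit 39362660000,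 nat_lit 39757438950, nat_lit 43893741030, nat_lit 44215681720, nat_lit 34011098350, nat_lit 34625634800, nat_lit 38350229640, nat_lit 38605194180], nat_lit 1271250, nat_lit 1271250, nat_lit 1271250, nat_lit 1271250, nat_lit 0, nat_lit 1100001, [nat_lit 1412500, nat_lit 1271250, nat_lit 1271250], [nat_lit 60, nat_lit 40, nat_lit 40, nat_lit 80, nat_lit 32, nat_lit 428, nat_lit 200, nat_lit 10]⟩,
 zbF0, []⟩
noncomputable def p079_l20 : Lf2 := ⟨nat_lit 0, nat_lit 20, [nat_lit 5, nat_lit 5, nat_lit 5, nat_lit 20], false, nat_lit 0, nat_lit 160, nat_lit 160, nat_lit 360, ⟨nat_lit 701, nat_lit 0, nat_lit 299, nat_lit 6, nat_lit 274, nat_lit 299, nat_lit 59, nat_lit 299, nat_lit 32267, nat_lit 259, nat_lit 357902, nat_lit 200, nat_lit 45598707, nat_lit 0, nat_lit 0, nat_lit 3132165, true, true⟩,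
 nat_lit 11991, nat_lit 0, nat_lit 0, nat_lit 0, nat_lit 5543, nat_lit 5138, nat_lit 2, nat_lit 0, nat_lit 0, nat_lit 0, nat_lit 0, nat_lit 0, nat_lit 0, nat_lit 0, nat_lit 0, nat_lit 74750, nat_lit 0, nat_lit 0, [(nat_lit 22, [(nat_lit 4, nat_lit 299)])],
 ⟨p079_k12, nat_lit 0, nat_lit 0, nat_lit 239, nat_lit 0, nat_lit 97206, [nat_lit 1870300801, nat_lit 3162980400, nat_lit 4909947600], [], [nat_lit 28705384918, nat_lit 30283577888, nat_lit 35630692466, nat_lit 36744488988, nat_lit 25337445892, nat_lit 26464768546, nat_lit 31068948763, nat_lit 32024315510], nat_lit 1271250, nat_lit 1271250, nat_lit 1271250, nat_lit 1271250, nat_lit 0, nat_lit 1100001, [nat_lit 490000, nat_lit 1100000, nat_lit 1785000], [nat_lit 34, nat_lit 40, nat_lit 40, nat_lit 80, nat_lit 7, nat_lit 249, nat_lit 40, nat_lit 7]⟩, ⟨p079_k5, nat_lit 0, nat_lit 0, nat_lit 256, nat_lit 0, nat_lit 222207, [nat_lit 4381250000, nat_lit 6899242000,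 nat_lit 9854658000], [], [nat_lit 24702688996, nat_lit 25300786824, nat_lit 28437530206, nat_lit 28701893069, nat_lit 28440861112, nat_lit 28622767786, nat_lit 31063134695, nat_lit 31085285138], nat_lit 1271250, nat_lit 1271250, nat_lit 1271250, nat_lit 1271250, nat_lit 1271250, nat_lit 1271250, [nat_lit 1412500, nat_lit 1271250, nat_lit 1271250], [nat_lit 60, nat_lit 40, nat_lit 40, nat_lit 80, nat_lit 32, nat_lit 483, nat_lit 250, nat_lit 11]⟩,
 ⟨nat_lit 3162, nat_lit 3873, ⟨.ofNat (nat_lit 564520), .ofNat (nat_lit 770989), .ofNat (nat_lit 608082), .ofNat (nat_lit 814576), .ofNat (nat_lit 560952), .ofNat (nat_lit 756003), .ofNat (nat_lit 605237), .ofNat (nat_lit 800312)⟩, ⟨.ofNat (nat_lit 0), .ofNat (nat_lit 282924), .ofNat (nat_lit 0), .ofNat (nat_lit 304717), .ofNat (nat_lit 0), .ofNat (nat_lit 283961), .ofNat (nat_lit 0), .ofNat (nat_lit 306116)⟩⟩, [⟨nat_lit 19, nat_lit 100, nat_lit 73, nat_lit 76, nat_lit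 248835785⟩, ⟨nat_lit 22, nat_lit 92, nat_lit 100, nat_lit 86, nat_lit 43861987⟩]⟩
noncomputable def p079_l21 : Lf2 := ⟨nat_lit 1, nat_lit 20, [nat_lit 5, nat_lit 5, nat_lit 5, nat_lit 20], false, nat_lit 0, nat_lit 160, nat_lit 0, nat_lit 360, zbN0,
 nat_lit 0, nat_lit 0, nat_lit 0, nat_lit 0, nat_lit 0, nat_lit 0, nat_lit 0, nat_lit 0, nat_lit 0, nat_lit 0, nat_lit 0, nat_lit 0, nat_lit 0, nat_lit 0, nat_lit 0, nat_lit 0, nat_lit 0, nat_lit 0, [],
 C1.Rw.none, C1.Rw.none,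
 zbF0, []⟩
noncomputable def p079_l22 : Lf2 := ⟨nat_lit 0, nat_lit 20, [nat_lit 5, nat_lit 5, nat_lit 5, nat_lit 20], false, nat_lit 160, nat_lit 260, nat_lit 0, nat_lit 360, ⟨nat_lit 971, nat_lit 29, nat_lit 0, nat_lit 6, nat_lit 275, nat_lit 29, nat_lit 146, nat_lit 0, nat_lit 0, nat_lit 0, nat_lit 0, nat_lit 0, nat_lit 39996107, nat_lit 19779028, nat_lit 7224865, nat_lit 4864400, true, true⟩,
 nat_lit 28214, nat_lit 0, nat_lit 0, nat_lit 0, nat_lit 10646, nat_lit 12091, nat_lit 0, nat_lit 0, nat_lit 0, nat_lit 432, nat_lit 0, nat_lit 0, nat_lit 0, nat_lit 0, nat_lit 0, nat_lit 7250, nat_lit 0, nat_lit 0, [(nat_lit 19, [(nat_lit 0, nat_lit 29)])],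
 ⟨p079_k4, nat_lit 0, nat_lit 0, nat_lit 87, nat_lit 0, nat_lit 39428, [nat_lit 2017801601, nat_lit 4620731600, nat_lit 9645867200], [], [nat_lit 26341065416, nat_lit 28138361676, nat_lit 34518870086, nat_lit 35699916938, nat_lit 28519001170, nat_lit 29949658003, nat_lit 35445432408, nat_lit 36925280612], nat_lit 1271250, nat_lit 1271250, nat_lit 1271250, nat_lit 1271250, nat_lit 1100001, nat_lit 1956250, [nat_lit 490000, nat_lit 1100000, nat_lit 2127500], [nat_lit 27, nat_lit 40, nat_lit 40, nat_lit 80, nat_lit 13, nat_lit 401, nat_lit 175, nat_lit 10]⟩, ⟨p079_k5, nat_lit 0, nat_lit 0, nat_lit 369, nat_lit 0, nat_lit 81832, [nat_lit 6068750000, nat_lit 9556582000, nat_lit 13650318000], [], [nat_lit 44371995796, nat_lit 44426264992, nat_lit 48998286067, nat_lit 48755613113, nat_lit 35130142460, nat_lit 34298339388, nat_lit 38822275955, nat_lit 38608843441], nat_lit 1271250, nat_lit 1271250, nat_lit 1271250, nat_lit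 1271250, nat_lit 0, nat_lit 2542500, [nat_lit 1412500, nat_lit 1271250, nat_lit 1271250], [nat_lit 60, nat_lit 40, nat_lit 40, nat_lit 80, nat_lit 32, nat_lit 483, nat_lit 250, nat_lit 11]⟩,
 ⟨nat_lit 3872, nat_lit 4473, ⟨.ofNat (nat_lit 567977), .ofNat (nat_lit 792305), .ofNat (nat_lit 589534), .ofNat (nat_lit 813871), .ofNat (nat_lit 564520), .ofNat (nat_lit 777441), .ofNat (nat_lit 586304), .ofNat (nat_lit 799235)⟩, ⟨.ofNat (nat_lit 259489), .ofNat (nat_lit 429434), .ofNat (nat_lit 302621), .ofNat (nat_lit 472567), .ofNat (nat_lit 261131), .ofNat (nat_lit 422435), .ofNat (nat_lit 304717), .ofNat (nat_lit 466021)⟩⟩, [⟨nat_lit 4, nat_lit 100, nat_lit 76, nat_lit 72, nat_lit 537296624⟩, ⟨nat_lit 19, nat_lit 100, nat_lit 74, nat_lit 72, nat_lit 67791526⟩]⟩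
noncomputable def p079_l23 : Lf2 := ⟨nat_lit 0, nat_lit 20, [nat_lit 5, nat_lit 5, nat_lit 5, nat_lit 20], false, nat_lit 160, nat_lit 260, nat_lit 0, nat_lit 348, ⟨nat_lit 1000, nat_lit 0, nat_lit 0, nat_lit 0, nat_lit 0, nat_lit 0, nat_lit 0, nat_lit 0, nat_lit 0, nat_lit 0, nat_lit 0, nat_lit 0, nat_lit 0, nat_lit 0, nat_lit 0, nat_lit 0, false, false⟩,
 nat_lit 20078, nat_lit 0, nat_lit 0, nat_lit 0, nat_lit 10444, nat_lit 9602, nat_lit 0, nat_lit 0, nat_lit 0, nat_lit 781, nat_lit 0, nat_lit 0, nat_lit 0, nat_lit 0, nat_lit 0, nat_lit 0, nat_lit 0, nat_lit 0, [],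
 ⟨p079_k4, nat_lit 0, nat_lit 0, nat_lit 148, nat_lit 0, nat_lit 80764, [nat_lit 2032000001, nat_lit 4688000000, nat_lit 9842000000], [], [nat_lit 26690961424, nat_lit 28465369064, nat_lit 35730188589, nat_lit 36841004372, nat_lit 28872048580, nat_lit 30285901942, nat_lit 36436540860, nat_lit 37827064145], nat_lit 1271250, nat_lit 1271250, nat_lit 1271250, nat_lit 1271250, nat_lit 1100001, nat_lit 1956250, [nat_lit 490000, nat_lit 1100000, nat_lit 2127500], [nat_lit 27, nat_lit 40, nat_lit 40, nat_lit 80, nat_lit 13, nat_lit 401, nat_lit 175, nat_lit 10]⟩, ⟨p079_k13, nat_lit 0, nat_lit 0, nat_lit 390, nat_lit 0, nat_lit 144423, [nat_lit 6250000000, nat_lit 9842000000, nat_lit 14058000000], [], [nat_lit 37020648698, nat_lit 37370010102, nat_lit 44489801842, nat_lit 44695918516, nat_lit 32356596797, nat_lit 32331139965, nat_lit 37006266797, nat_lit 36897263943], nat_lit 1271250, nat_lit 1271250, nat_lit 1271250,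 nat_lit 1271250, nat_lit 0, nat_lit 2457750, [nat_lit 1412500, nat_lit 1271250, nat_lit 1271250], [nat_lit 60, nat_lit 40, nat_lit 40, nat_lit 80, nat_lit 32, nat_lit 483, nat_lit 250, nat_lit 11]⟩,
 zbF0, [⟨nat_lit 4, nat_lit 100, nat_lit 76, nat_lit 72, nat_lit 549892854⟩, ⟨nat_lit 19, nat_lit 100, nat_lit 81, nat_lit 72, nat_lit 111482485⟩]⟩
noncomputable def p079_l24 : Lf2 := ⟨nat_lit 1, nat_lit 20, [nat_lit 5, nat_lit 5, nat_lit 5, nat_lit 20], false, nat_lit 160, nat_lit 260, nat_lit 0, nat_lit 360, zbN0,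
 nat_lit 0, nat_lit 0, nat_lit 0, nat_lit 0, nat_lit 0, nat_lit 0, nat_lit 0, nat_lit 0, nat_lit 0, nat_lit 0, nat_lit 0, nat_lit 0, nat_lit 0, nat_lit 0, nat_lit 0, nat_lit 0, nat_lit 0, nat_lit 0, [],
 C1.Rw.none, C1.Rw.none,
 zbF0, []⟩
noncomputable def p079_l25 : Lf2 := ⟨nat_lit 0, nat_lit 15, [nat_lit 30, nat_lit 5, nat_lit 5, nat_lit 20], false, nat_lit 160, nat_lit 208, nat_lit 0, nat_lit 344, ⟨nat_lit 611, nat_lit 389, nat_lit 0, nat_lit 6, nat_lit 274, nat_lit 389, nat_lit 124, nat_lit 0, nat_lit 0, nat_lit 0, nat_lit 0, nat_lit 0, nat_lit 41162280, nat_lit 20109816, nat_lit 5727904, nat_lit 4640227, true, true⟩,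
 nat_lit 13302, nat_lit 0, nat_lit 0, nat_lit 0, nat_lit 7061, nat_lit 5700, nat_lit 0, nat_lit 0, nat_lit 0, nat_lit 447, nat_lit 0, nat_lit 0, nat_lit 0, nat_lit 0, nat_lit 0, nat_lit 97250, nat_lit 0, nat_lit 0, [(nat_lit 22, [(nat_lit 0, nat_lit 389)])],
 ⟨p079_k11, nat_lit 0, nat_lit 0, nat_lit 141, nat_lit 0, nat_lit 127871, [nat_lit 1851504001, nat_lit 3631009200, nat_lit 5923571600], [], [nat_lit 25035446628, nat_lit 26569282340, nat_lit 31652049636, nat_lit 32721930005, nat_lit 25985335126, nat_lit 27384096404, nat_lit 31979132573, nat_lit 33179446703], nat_lit 1271250, nat_lit 1271250, nat_lit 1271250, nat_lit 1271250, nat_lit 1100001, nat_lit 1511000, [nat_lit 490000, nat_lit 1100000, nat_lit 1785000], [nat_lit 34, nat_lit 40, nat_lit 40, nat_lit 80, nat_lit 7, nat_lit 272, nat_lit 60, nat_lit 7]⟩, ⟨p079_k10, nat_lit 0, nat_lit 0, nat_lit 445, nat_lit 0, nat_lit 291604, [nat_lit 3818750000, nat_lit 6013462000,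 nat_lit 8589438000], [], [nat_lit 25959337956, nat_lit 26140244600, nat_lit 28495183009, nat_lit 28393709427, nat_lit 22230279173, nat_lit 21885435940, nat_lit 23123395801, nat_lit 22910981867], nat_lit 1271250, nat_lit 1271250, nat_lit 1271250, nat_lit 1271250, nat_lit 0, nat_lit 2429500, [nat_lit 1412500, nat_lit 1271250, nat_lit 1271250], [nat_lit 60, nat_lit 40, nat_lit 40, nat_lit 80, nat_lit 32, nat_lit 483, nat_lit 250, nat_lit 11]⟩,
 ⟨nat_lit 3162, nat_lit 3873, ⟨.ofNat (nat_lit 564520), .ofNat (nat_lit 770989), .ofNat (nat_lit 608082), .ofNat (nat_lit 814576), .ofNat (nat_lit 560952), .ofNat (nat_lit 756003), .ofNat (nat_lit 605237), .ofNat (nat_lit 800312)⟩, ⟨.ofNat (nat_lit 261131), .ofNat (nat_lit 338557), .ofNat (nat_lit 282924), .ofNat (nat_lit 360350), .ofNat (nat_lit 261806), .ofNat (nat_lit 334950), .ofNat (nat_lit 283961), .ofNat (nat_lit 357105)⟩⟩, [⟨nat_lit 4, nat_lit 100, nat_lit 67, nat_lit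 67, nat_lit 1428282661⟩, ⟨nat_lit 7, nat_lit 82, nat_lit 100, nat_lit 66, nat_lit 56364897⟩]⟩
noncomputable def p079_l26 : Lf2 := ⟨nat_lit 0, nat_lit 20, [nat_lit 5, nat_lit 5, nat_lit 5, nat_lit 20], false, nat_lit 160, nat_lit 232, nat_lit 0, nat_lit 160, ⟨nat_lit 1000, nat_lit 0, nat_lit 0, nat_lit 0, nat_lit 0, nat_lit 0, nat_lit 0, nat_lit 0, nat_lit 0, nat_lit 0, nat_lit 0, nat_lit 0, nat_lit 0, nat_lit 0, nat_lit 0, nat_lit 0, false, false⟩,
 nat_lit 17893, nat_lit 0, nat_lit 0, nat_lit 0, nat_lit 8697, nat_lit 7668, nat_lit 0, nat_lit 0, nat_lit 0, nat_lit 976, nat_lit 0, nat_lit 0, nat_lit 0, nat_lit 0, nat_lit 0, nat_lit 0, nat_lit 0, nat_lit 0, [],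
 ⟨p079_k12, nat_lit 0, nat_lit 0, nat_lit 132, nat_lit 0, nat_lit 97206, [nat_lit 2032000001, nat_lit 4688000000, nat_lit 7968000000], [], [nat_lit 25869477156, nat_lit 27616306980, nat_lit 33213628342, nat_lit 34733223170, nat_lit 27234436229, nat_lit 28739936172, nat_lit 33766865772, nat_lit 35198315466], nat_lit 1271250, nat_lit 1271250, nat_lit 1271250, nat_lit 1271250, nat_lit 1100001, nat_lit 1716500, [nat_lit 490000, nat_lit 1100000, nat_lit 1785000], [nat_lit 34, nat_lit 40, nat_lit 40, nat_lit 80, nat_lit 7, nat_lit 272, nat_lit 60, nat_lit 7]⟩, ⟨p079_k5, nat_lit 0, nat_lit 0, nat_lit 420, nat_lit 0, nat_lit 222207, [nat_lit 6250000000, nat_lit 9842000000, nat_lit 14058000000], [], [nat_lit 39380451440, nat_lit 39777811072, nat_lit 43903739533, nat_lit 44219962093, nat_lit 34038166336, nat_lit 34646517088, nat_lit 38369587015, nat_lit 38625006493], nat_lit 1271250, nat_lit 1271250, nat_lit 1271250, nat_lit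 1271250, nat_lit 0, nat_lit 1100001, [nat_lit 1412500, nat_lit 1271250, nat_lit 1271250], [nat_lit 60, nat_lit 40, nat_lit 40, nat_lit 80, nat_lit 32, nat_lit 428, nat_lit 200, nat_lit 10]⟩,
 zbF0, [⟨nat_lit 16, nat_lit 66, nat_lit 100, nat_lit 76, nat_lit 546456033⟩, ⟨nat_lit 9, nat_lit 100, nat_lit 85, nat_lit 50, nat_lit 16415413⟩]⟩
noncomputable def p079_l27 : Lf2 := ⟨nat_lit 0, nat_lit 20, [nat_lit 5, nat_lit 5, nat_lit 5, nat_lit 20], false, nat_lit 160, nat_lit 232, nat_lit 160, nat_lit 360, ⟨nat_lit 694, nat_lit 306, nat_lit 0, nat_lit 6, nat_lit 274, nat_lit 306, nat_lit 140, nat_lit 0, nat_lit 0, nat_lit 0, nat_lit 0, nat_lit 0, nat_lit 40329483, nat_lit 19830355, nat_lit 6840162, nat_lit 4808282, true, true⟩,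
 nat_lit 12856, nat_lit 0, nat_lit 0, nat_lit 0, nat_lit 7360, nat_lit 5509, nat_lit 0, nat_lit 0, nat_lit 0, nat_lit 0, nat_lit 0, nat_lit 0, nat_lit 0, nat_lit 0, nat_lit 0, nat_lit 76500, nat_lit 0, nat_lit 0, [(nat_lit 22, [(nat_lit 0, nat_lit 306)])],
 ⟨p079_k12, nat_lit 0, nat_lit 0, nat_lit 132, nat_lit 0, nat_lit 97206, [nat_lit 1890016000, nat_lit 3856536800, nat_lit 6359786400], [], [nat_lit 25250445680, nat_lit 26823208800, nat_lit 32000017457, nat_lit 33091927392, nat_lit 26664335745, nat_lit 28027410960, nat_lit 32447733329, nat_lit 33735370708], nat_lit 1271250, nat_lit 1271250, nat_lit 1271250, nat_lit 1271250, nat_lit 1100001, nat_lit 1716500, [nat_lit 490000, nat_lit 1100000, nat_lit 1785000], [nat_lit 34, nat_lit 40, nat_lit 40, nat_lit 80, nat_lit 7, nat_lit 272, nat_lit 60, nat_lit 7]⟩, ⟨p079_k5, nat_lit 0, nat_lit 0, nat_lit 256, nat_lit 0, nat_lit 222207, [nat_lit 4337500000, nat_lit 6830348000,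 nat_lit 9756252000], [], [nat_lit 23727248264, nat_lit 24316716492, nat_lit 27857861555, nat_lit 28220105537, nat_lit 27900690656, nat_lit 28161297246, nat_lit 30656521184, nat_lit 30635959965], nat_lit 1271250, nat_lit 1271250, nat_lit 1271250, nat_lit 1271250, nat_lit 1271250, nat_lit 1271250, [nat_lit 1412500, nat_lit 1271250, nat_lit 1271250], [nat_lit 60, nat_lit 40, nat_lit 40, nat_lit 80, nat_lit 32, nat_lit 483, nat_lit 250, nat_lit 11]⟩,
 ⟨nat_lit 3162, nat_lit 3873, ⟨.ofNat (nat_lit 564520), .ofNat (nat_lit 770989), .ofNat (nat_lit 608082), .ofNat (nat_lit 814576), .ofNat (nat_lit 560952), .ofNat (nat_lit 756003), .ofNat (nat_lit 605237), .ofNat (nat_lit 800312)⟩, ⟨.ofNat (nat_lit 282924), .ofNat (nat_lit 399063), .ofNat (nat_lit 304717), .ofNat (nat_lit 420856), .ofNat (nat_lit 283961), .ofNat (nat_lit 393677), .ofNat (nat_lit 306116), .ofNat (nat_lit 415832)⟩⟩, [⟨nat_lit 16, nat_lit 66, nat_lit 100,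 nat_lit 76, nat_lit 375726024⟩, ⟨nat_lit 7, nat_lit 73, nat_lit 100, nat_lit 76, nat_lit 293207435⟩]⟩
noncomputable def p079_l28 : Lf2 := ⟨nat_lit 1, nat_lit 20, [nat_lit 5, nat_lit 5, nat_lit 5, nat_lit 20], false, nat_lit 160, nat_lit 232, nat_lit 0, nat_lit 360, zbN0,
 nat_lit 0, nat_lit 0, nat_lit 0, nat_lit 0, nat_lit 0, nat_lit 0, nat_lit 0, nat_lit 0, nat_lit 0, nat_lit 0, nat_lit 0, nat_lit 0, nat_lit 0, nat_lit 0, nat_lit 0, nat_lit 0, nat_lit 0, nat_lit 0, [],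
 C1.Rw.none, C1.Rw.none,
 zbF0, []⟩
noncomputable def b_V_800_500_10_21 : St := ⟨true, nat_lit 1, nat_lit 2, nat_lit 1, nat_lit 80, nat_lit 320, nat_lit 360, nat_lit 200, nat_lit 240, nat_lit 40, nat_lit 384, nat_lit 40, nat_lit 80, nat_lit 0, nat_lit 260, nat_lit 0, nat_lit 360, nat_lit 80, nat_lit 112, nat_lit 0, nat_lit 0, nat_lit 0, nat_lit 0⟩
theorem d_V_800_500_10_21 (h : EB TB.env) : Dead b_V_800_500_10_21 := chkB_sound0 h (T :=
(.st (nat_lit 1)
(.spl (nat_lit 2) (nat_lit 240)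
(.spl (nat_lit 4) (nat_lit 160)
(.spl (nat_lit 0) (nat_lit 340)
(.spl (nat_lit 6) (nat_lit 92)
(.spl (nat_lit 0) (nat_lit 330)
(.leaf p079_l0)
(.trZ (nat_lit 0) (nat_lit 100) (nat_lit 76) (nat_lit 65) (nat_lit 48) (.leaf p079_l1)))
(.leaf p079_l2))
(.trZ (nat_lit 0) (nat_lit 100) (nat_lit 71) (nat_lit 70) (nat_lit 56) (.spl (nat_lit 2) (nat_lit 160)
(.leaf p079_l3)
(.leaf p079_l4))))
(.spl (nat_lit 0) (nat_lit 340)
(.leaf p079_l5)
(.trZ (nat_lit 0) (nat_lit 100) (nat_lit 71) (nat_lit 70) (nat_lit 56) (.trX (nat_lit 16) (nat_lit 72) (nat_lit 100) (nat_lit 81) (nat_lit 232) (.leaf p079_l6)))))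
(.spl (nat_lit 5) (nat_lit 160)
(.leaf p079_l7)
(.leaf p079_l8)))
(.spl (nat_lit 2) (nat_lit 240)
(.spl (nat_lit 4) (nat_lit 160)
(.spl (nat_lit 0) (nat_lit 340)
(.leaf p079_l9)
(.trZ (nat_lit 0) (nat_lit 100) (nat_lit 71) (nat_lit 70) (nat_lit 56) (.spl (nat_lit 2) (nat_lit 160)
(.leaf p079_l10)
(.leaf p079_l11))))
(.leaf p079_l12))
(.spl (nat_lit 4) (nat_lit 160)
(.spl (nat_lit 0) (nat_lit 340)
(.spl (nat_lit 6) (nat_lit 92)
(.spl (nat_lit 3) (nat_lit 60)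
(.trX (nat_lit 19) (nat_lit 100) (nat_lit 70) (nat_lit 71) (nat_lit 344) (.leaf p079_l13))
(.leaf p079_l14))
(.leaf p079_l15))
(.trX (nat_lit 13) (nat_lit 73) (nat_lit 55) (nat_lit 100) (nat_lit 368) (.spl (nat_lit 3) (nat_lit 60)
(.trX (nat_lit 19) (nat_lit 100) (nat_lit 70) (nat_lit 71) (nat_lit 344) (.spl (nat_lit 6) (nat_lit 104)
(.spl (nat_lit 5) (nat_lit 160)
(.leaf p079_l16)
(.leaf p079_l17))
(.leaf p079_l18)))
(.spl (nat_lit 6) (nat_lit 96)
(.spl (nat_lit 5) (nat_lit 160)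
(.leaf p079_l19)
(.leaf p079_l20))
(.leaf p079_l21)))))
(.spl (nat_lit 0) (nat_lit 340)
(.spl (nat_lit 6) (nat_lit 92)
(.spl (nat_lit 1) (nat_lit 220)
(.trX (nat_lit 13) (nat_lit 80) (nat_lit 52) (nat_lit 100) (nat_lit 372) (.leaf p079_l22))
(.trX (nat_lit 19) (nat_lit 100) (nat_lit 68) (nat_lit 80) (nat_lit 348) (.leaf p079_l23)))
(.leaf p079_l24))
(.trX (nat_lit 13) (nat_lit 73) (nat_lit 55) (nat_lit 100) (nat_lit 368) (.trX (nat_lit 16) (nat_lit 72) (nat_lit 100) (nat_lit 81) (nat_lit 232) (.spl (nat_lit 3) (nat_lit 60)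
(.trX (nat_lit 16) (nat_lit 71) (nat_lit 100) (nat_lit 71) (nat_lit 208) (.trX (nat_lit 19) (nat_lit 100) (nat_lit 70) (nat_lit 71) (nat_lit 344) (.leaf p079_l25)))
(.spl (nat_lit 6) (nat_lit 96)
(.spl (nat_lit 5) (nat_lit 160)
(.leaf p079_l26)
(.leaf p079_l27))
(.leaf p079_l28)))))))))) (by decide +kernel)
noncomputable def p079_l29 : Lf2 := ⟨nat_lit 0, nat_lit 20, [nat_lit 5, nat_lit 5, nat_lit 5, nat_lit 20], true, nat_lit 0, nat_lit 260, nat_lit 0, nat_lit 360, ⟨nat_lit 0, nat_lit 1000, nat_lit 0, nat_lit 5, nat_lit 170, nat_lit 1000, nat_lit 89, nat_lit 0, nat_lit 0, nat_lit 0, nat_lit 0, nat_lit 0, nat_lit 0, nat_lit 0, nat_lit 0, nat_lit 5000000, false, false⟩,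
 nat_lit 0, nat_lit 8863, nat_lit 0, nat_lit 0, nat_lit 6647, nat_lit 0, nat_lit 0, nat_lit 0, nat_lit 0, nat_lit 0, nat_lit 0, nat_lit 0, nat_lit 0, nat_lit 0, nat_lit 0, nat_lit 258400, nat_lit 0, nat_lit 0, [(nat_lit 19, [(nat_lit 0, nat_lit 944), (nat_lit 1, nat_lit 56)]), (nat_lit 22, [(nat_lit 0, nat_lit 944), (nat_lit 1, nat_lit 56)])],
 ⟨p079_k8, nat_lit 0, nat_lit 0, nat_lit 438, nat_lit 0, nat_lit 338486, [nat_lit 1664371200, nat_lit 3158380089], [], [nat_lit 34951727769, nat_lit 32704198598, nat_lit 28879904042, nat_lit 30977976269, nat_lit 27106309035, nat_lit 29013846394, nat_lit 32887132266, nat_lit 27334301583], nat_lit 1271250, nat_lit 1271250, nat_lit 230001, nat_lit 1717500, nat_lit 0, nat_lit 1836250, [nat_lit 490000, nat_lit 2052500], [nat_lit 94, nat_lit 40, nat_lit 40, nat_lit 80, nat_lit 95, nat_lit 345, nat_lit 125, nat_lit 10]⟩, C1.Rw.none,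
 ⟨nat_lit 3162, nat_lit 4473, ⟨.ofNat (nat_lit 227776), .ofNat (nat_lit 567977), .ofNat (nat_lit 270729), .ofNat (nat_lit 611007), .ofNat (nat_lit 255876), .ofNat (nat_lit 560952), .ofNat (nat_lit 300005), .ofNat (nat_lit 605159)⟩, ⟨.negSucc (nat_lit 12437), .ofNat (nat_lit 429433), .ofNat (nat_lit 0), .ofNat (nat_lit 472567), .ofNat (nat_lit 0), .ofNat (nat_lit 414188), .ofNat (nat_lit 0), .ofNat (nat_lit 458499)⟩⟩, [⟨nat_lit 4, nat_lit 100, nat_lit 71, nat_lit 71, nat_lit 9221498⟩]⟩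
noncomputable def p079_l30 : Lf2 := ⟨nat_lit 0, nat_lit 20, [nat_lit 5, nat_lit 5, nat_lit 5, nat_lit 20], true, nat_lit 0, nat_lit 260, nat_lit 0, nat_lit 360, ⟨nat_lit 0, nat_lit 1000, nat_lit 0, nat_lit 6, nat_lit 283, nat_lit 1000, nat_lit 90, nat_lit 0, nat_lit 0, nat_lit 0, nat_lit 0, nat_lit 0, nat_lit 0, nat_lit 0, nat_lit 0, nat_lit 5000000, true, true⟩,
 nat_lit 0, nat_lit 4836, nat_lit 0, nat_lit 448, nat_lit 3626, nat_lit 0, nat_lit 131, nat_lit 0, nat_lit 0, nat_lit 0, nat_lit 0, nat_lit 0, nat_lit 0, nat_lit 0, nat_lit 0, nat_lit 400000, nat_lit 0, nat_lit 0, [(nat_lit 19, [(nat_lit 1, nat_lit 1000)])],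
 ⟨p079_k4, nat_lit 0, nat_lit 0, nat_lit 286, nat_lit 0, nat_lit 129826, [nat_lit 1398133334, nat_lit 2037600000, nat_lit 1832000000], [], [nat_lit 25909022062, nat_lit 26723403934, nat_lit 30505623354, nat_lit 31374196309, nat_lit 26095839352, nat_lit 26671156960, nat_lit 29749162617, nat_lit 30290220949], nat_lit 1271250, nat_lit 1271250, nat_lit 1271250, nat_lit 1271250, nat_lit 0, nat_lit 1836250, [nat_lit 490000, nat_lit 1100000, nat_lit 2127500], [nat_lit 27, nat_lit 40, nat_lit 40, nat_lit 80, nat_lit 13, nat_lit 401, nat_lit 175, nat_lit 11]⟩, C1.Rw.none,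
 ⟨nat_lit 3872, nat_lit 4473, ⟨.ofNat (nat_lit 567977), .ofNat (nat_lit 812698), .ofNat (nat_lit 611083), .ofNat (nat_lit 855824), .ofNat (nat_lit 564520), .ofNat (nat_lit 796798), .ofNat (nat_lit 608080), .ofNat (nat_lit 840378)⟩, ⟨.negSucc (nat_lit 12427), .ofNat (nat_lit 429434), .ofNat (nat_lit 0), .ofNat (nat_lit 472567), .ofNat (nat_lit 0), .ofNat (nat_lit 422435), .ofNat (nat_lit 0), .ofNat (nat_lit 466021)⟩⟩, [⟨nat_lit 13, nat_lit 76, nat_lit 57, nat_lit 100, nat_lit 295596017⟩, ⟨nat_lit 16, nat_lit 76, nat_lit 100, nat_lit 72, nat_lit 94130793⟩]⟩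
noncomputable def p079_l31 : Lf2 := ⟨nat_lit 0, nat_lit 20, [nat_lit 5, nat_lit 5, nat_lit 5, nat_lit 20], true, nat_lit 0, nat_lit 232, nat_lit 0, nat_lit 360, ⟨nat_lit 0, nat_lit 1000, nat_lit 0, nat_lit 6, nat_lit 274, nat_lit 1000, nat_lit 79, nat_lit 0, nat_lit 0, nat_lit 0, nat_lit 0, nat_lit 0, nat_lit 0, nat_lit 0, nat_lit 0, nat_lit 5000000, true, true⟩,
 nat_lit 0, nat_lit 4280, nat_lit 0, nat_lit 0, nat_lit 3464, nat_lit 0, nat_lit 0, nat_lit 0, nat_lit 0, nat_lit 0, nat_lit 0, nat_lit 0, nat_lit 0, nat_lit 0, nat_lit 0, nat_lit 400000, nat_lit 0, nat_lit 0, [(nat_lit 22, [(nat_lit 1, nat_lit 1000)])],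
 ⟨p079_k12, nat_lit 0, nat_lit 0, nat_lit 297, nat_lit 0, nat_lit 304956, [nat_lit 1358400001, nat_lit 1554800000, nat_lit 1406000000], [], [nat_lit 25739685249, nat_lit 26603113953, nat_lit 30097055229, nat_lit 31008656007, nat_lit 26407268757, nat_lit 27074426993, nat_lit 29671864032, nat_lit 30210785500], nat_lit 1271250, nat_lit 1271250, nat_lit 1271250, nat_lit 1271250, nat_lit 0, nat_lit 1638500, [nat_lit 490000, nat_lit 1100000, nat_lit 1785000], [nat_lit 34, nat_lit 40, nat_lit 40, nat_lit 80, nat_lit 7, nat_lit 272, nat_lit 60, nat_lit 8]⟩, C1.Rw.none,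
 ⟨nat_lit 3162, nat_lit 3873, ⟨.ofNat (nat_lit 564520), .ofNat (nat_lit 770989), .ofNat (nat_lit 608082), .ofNat (nat_lit 814576), .ofNat (nat_lit 560952), .ofNat (nat_lit 756003), .ofNat (nat_lit 605237), .ofNat (nat_lit 800312)⟩, ⟨.ofNat (nat_lit 0), .ofNat (nat_lit 377270), .ofNat (nat_lit 0), .ofNat (nat_lit 420856), .ofNat (nat_lit 0), .ofNat (nat_lit 371522), .ofNat (nat_lit 0), .ofNat (nat_lit 415832)⟩⟩, [⟨nat_lit 13, nat_lit 66, nat_lit 68, nat_lit 100, nat_lit 347732112⟩, ⟨nat_lit 4, nat_lit 100, nat_lit 66, nat_lit 72, nat_lit 112018318⟩]⟩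
noncomputable def p079_l32 : Lf2 := ⟨nat_lit 0, nat_lit 20, [nat_lit 5, nat_lit 5, nat_lit 5, nat_lit 20], true, nat_lit 0, nat_lit 260, nat_lit 0, nat_lit 360, ⟨nat_lit 0, nat_lit 1000, nat_lit 0, nat_lit 5, nat_lit 170, nat_lit 1000, nat_lit 89, nat_lit 0, nat_lit 0, nat_lit 0, nat_lit 0, nat_lit 0, nat_lit 0, nat_lit 0, nat_lit 0, nat_lit 5000000, false, false⟩,
 nat_lit 0, nat_lit 8863, nat_lit 0, nat_lit 0, nat_lit 6647, nat_lit 0, nat_lit 0, nat_lit 0, nat_lit 0, nat_lit 0, nat_lit 0, nat_lit 0, nat_lit 0, nat_lit 0, nat_lit 0, nat_lit 258400, nat_lit 0, nat_lit 0, [(nat_lit 19, [(nat_lit 0, nat_lit 944), (nat_lit 1, nat_lit 56)]), (nat_lit 22, [(nat_lit 0, nat_lit 944), (nat_lit 1, nat_lit 56)])],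
 ⟨p079_k8, nat_lit 0, nat_lit 0, nat_lit 438, nat_lit 0, nat_lit 338486, [nat_lit 1664371200, nat_lit 3158380089], [], [nat_lit 34951727769, nat_lit 32704198598, nat_lit 28879904042, nat_lit 30977976269, nat_lit 27106309035, nat_lit 29013846394, nat_lit 32887132266, nat_lit 27334301583], nat_lit 1271250, nat_lit 1271250, nat_lit 230001, nat_lit 1717500, nat_lit 0, nat_lit 1836250, [nat_lit 490000, nat_lit 2052500], [nat_lit 94, nat_lit 40, nat_lit 40, nat_lit 80, nat_lit 95, nat_lit 345, nat_lit 125, nat_lit 10]⟩, C1.Rw.none,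
 ⟨nat_lit 3162, nat_lit 4473, ⟨.ofNat (nat_lit 227776), .ofNat (nat_lit 567977), .ofNat (nat_lit 270729), .ofNat (nat_lit 611007), .ofNat (nat_lit 255876), .ofNat (nat_lit 560952), .ofNat (nat_lit 300005), .ofNat (nat_lit 605159)⟩, ⟨.negSucc (nat_lit 12437), .ofNat (nat_lit 429433), .ofNat (nat_lit 0), .ofNat (nat_lit 472567), .ofNat (nat_lit 0), .ofNat (nat_lit 414188), .ofNat (nat_lit 0), .ofNat (nat_lit 458499)⟩⟩, [⟨nat_lit 4, nat_lit 100, nat_lit 71, nat_lit 71, nat_lit 9221498⟩]⟩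
noncomputable def p079_l33 : Lf2 := ⟨nat_lit 0, nat_lit 20, [nat_lit 5, nat_lit 5, nat_lit 5, nat_lit 20], false, nat_lit 0, nat_lit 260, nat_lit 0, nat_lit 360, ⟨nat_lit 0, nat_lit 1000, nat_lit 0, nat_lit 6, nat_lit 281, nat_lit 1000, nat_lit 89, nat_lit 0, nat_lit 0, nat_lit 0, nat_lit 0, nat_lit 0, nat_lit 0, nat_lit 0, nat_lit 0, nat_lit 5000000, true, true⟩,
 nat_lit 0, nat_lit 4974, nat_lit 0, nat_lit 23, nat_lit 3730, nat_lit 0, nat_lit 87, nat_lit 0, nat_lit 0, nat_lit 0, nat_lit 0, nat_lit 0, nat_lit 0, nat_lit 0, nat_lit 0, nat_lit 400000, nat_lit 0, nat_lit 0, [(nat_lit 19, [(nat_lit 1, nat_lit 1000)]), (nat_lit 22, [(nat_lit 1, nat_lit 1000)])],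
 ⟨p079_k4, nat_lit 0, nat_lit 0, nat_lit 313, nat_lit 0, nat_lit 220409, [nat_lit 1398133334, nat_lit 2037600000, nat_lit 1832000000], [], [nat_lit 26709531510, nat_lit 28354284630, nat_lit 31336479086, nat_lit 32813486521, nat_lit 26874975219, nat_lit 28086212939, nat_lit 30335791493, nat_lit 31263448111], nat_lit 1271250, nat_lit 1271250, nat_lit 1271250, nat_lit 1271250, nat_lit 0, nat_lit 1836250, [nat_lit 490000, nat_lit 1100000, nat_lit 2127500], [nat_lit 27, nat_lit 40, nat_lit 40, nat_lit 80, nat_lit 13, nat_lit 401, nat_lit 175, nat_lit 11]⟩, ⟨p079_k5, nat_lit 0, nat_lit 0, nat_lit 555, nat_lit 0, nat_lit 462230, [nat_lit 0, nat_lit 0, nat_lit 0], [], [nat_lit 0, nat_lit 0, nat_lit 0, nat_lit 0, nat_lit 0, nat_lit 0, nat_lit 0, nat_lit 0], nat_lit 1271250, nat_lit 1271250, nat_lit 1271250, nat_lit 1271250, nat_lit 0, nat_lit 2542500, [nat_lit 1412500, nat_lit 1271250, nat_lit 1271250], [nat_lit 60, nat_lit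 40, nat_lit 40, nat_lit 80, nat_lit 32, nat_lit 483, nat_lit 250, nat_lit 11]⟩,
 ⟨nat_lit 3162, nat_lit 4473, ⟨.ofNat (nat_lit 567977), .ofNat (nat_lit 812698), .ofNat (nat_lit 611007), .ofNat (nat_lit 855831), .ofNat (nat_lit 560952), .ofNat (nat_lit 780384), .ofNat (nat_lit 605159), .ofNat (nat_lit 824694)⟩, ⟨.negSucc (nat_lit 12437), .ofNat (nat_lit 429433), .ofNat (nat_lit 0), .ofNat (nat_lit 472567), .ofNat (nat_lit 0), .ofNat (nat_lit 414188), .ofNat (nat_lit 0), .ofNat (nat_lit 458499)⟩⟩, [⟨nat_lit 13, nat_lit 72, nat_lit 63, nat_lit 100, nat_lit 297166463⟩, ⟨nat_lit 16, nat_lit 71, nat_lit 100, nat_lit 71, nat_lit 88845429⟩]⟩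
noncomputable def b_V_800_500_10_22 : St := ⟨true, nat_lit 1, nat_lit 2, nat_lit 2, nat_lit 80, nat_lit 320, nat_lit 360, nat_lit 200, nat_lit 240, nat_lit 40, nat_lit 384, nat_lit 40, nat_lit 80, nat_lit 0, nat_lit 260, nat_lit 0, nat_lit 360, nat_lit 80, nat_lit 112, nat_lit 0, nat_lit 0, nat_lit 0, nat_lit 0⟩
theorem d_V_800_500_10_22 (h : EB TB.env) : Dead b_V_800_500_10_22 := chkB_sound0 h (T :=
(.st (nat_lit 1)
(.spl (nat_lit 2) (nat_lit 240)
(.leaf p079_l29)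
(.spl (nat_lit 0) (nat_lit 340)
(.leaf p079_l30)
(.trX (nat_lit 13) (nat_lit 73) (nat_lit 55) (nat_lit 100) (nat_lit 368) (.trX (nat_lit 16) (nat_lit 72) (nat_lit 100) (nat_lit 81) (nat_lit 232) (.leaf p079_l31)))))
(.spl (nat_lit 2) (nat_lit 240)
(.leaf p079_l32)
(.leaf p079_l33)))) (by decide +kernel)
noncomputable def p079_l34 : Lf2 := ⟨nat_lit 0, nat_lit 10, [nat_lit 0, nat_lit 5, nat_lit 5, nat_lit 20], true, nat_lit 0, nat_lit 160, nat_lit 0, nat_lit 384, ⟨nat_lit 0, nat_lit 129, nat_lit 871, nat_lit 5, nat_lit 170, nat_lit 1000, nat_lit 65, nat_lit 871, nat_lit 40017, nat_lit 264, nat_lit 817, nat_lit 208, nat_lit 56752254, nat_lit 10247746, nat_lit 0, nat_lit 2138971, false, false⟩,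
 nat_lit 0, nat_lit 0, nat_lit 0, nat_lit 1637, nat_lit 2602, nat_lit 0, nat_lit 0, nat_lit 0, nat_lit 0, nat_lit 0, nat_lit 0, nat_lit 0, nat_lit 0, nat_lit 0, nat_lit 50, nat_lit 380650, nat_lit 0, nat_lit 0, [(nat_lit 18, [(nat_lit 0, nat_lit 129), (nat_lit 5, nat_lit 871)]), (nat_lit 21, [(nat_lit 0, nat_lit 129), (nat_lit 5, nat_lit 871)])],
 ⟨p079_k14, nat_lit 0, nat_lit 0, nat_lit 191, nat_lit 0, nat_lit 0, [nat_lit 1546068601, nat_lit 214127700], [], [nat_lit 16814587337, nat_lit 19699218112, nat_lit 20132854422, nat_lit 22302308371, nat_lit 17529169161, nat_lit 19541045822, nat_lit 20722338214, nat_lit 22732706803], nat_lit 0, nat_lit 0, nat_lit 0, nat_lit 0, nat_lit 0, nat_lit 0, [], [nat_lit 69, nat_lit 40, nat_lit 40, nat_lit 80, nat_lit 64, nat_lit 317, nat_lit 100, nat_lit 12]⟩, C1.Rw.none,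
 ⟨nat_lit 3162, nat_lit 4473, ⟨.ofNat (nat_lit 227776), .ofNat (nat_lit 567977), .ofNat (nat_lit 270729), .ofNat (nat_lit 611007), .ofNat (nat_lit 255876), .ofNat (nat_lit 560952), .ofNat (nat_lit 300005), .ofNat (nat_lit 605159)⟩, ⟨.ofNat (nat_lit 0), .ofNat (nat_lit 302621), .ofNat (nat_lit 0), .ofNat (nat_lit 345754), .ofNat (nat_lit 0), .ofNat (nat_lit 306116), .ofNat (nat_lit 0), .ofNat (nat_lit 350426)⟩⟩, [⟨nat_lit 3, nat_lit 100, nat_lit 82, nat_lit 29, nat_lit 66766475⟩]⟩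
noncomputable def p079_l35 : Lf2 := ⟨nat_lit 0, nat_lit 10, [nat_lit 0, nat_lit 5, nat_lit 5, nat_lit 20], true, nat_lit 160, nat_lit 300, nat_lit 0, nat_lit 384, ⟨nat_lit 0, nat_lit 159, nat_lit 841, nat_lit 5, nat_lit 144, nat_lit 1000, nat_lit 176, nat_lit 841, nat_lit 1169, nat_lit 218, nat_lit 62098, nat_lit 276, nat_lit 48474325, nat_lit 7846166, nat_lit 10679509, nat_lit 4167904, false, false⟩,
 nat_lit 0, nat_lit 0, nat_lit 0, nat_lit 3818, nat_lit 2712, nat_lit 0, nat_lit 0, nat_lit 0, nat_lit 0, nat_lit 0, nat_lit 0, nat_lit 0, nat_lit 0, nat_lit 0, nat_lit 43, nat_lit 376150, nat_lit 0, nat_lit 0, [(nat_lit 18, [(nat_lit 0, nat_lit 159), (nat_lit 5, nat_lit 841)]), (nat_lit 21, [(nat_lit 0, nat_lit 159), (nat_lit 5, nat_lit 841)])],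
 ⟨p079_k14, nat_lit 0, nat_lit 0, nat_lit 112, nat_lit 0, nat_lit 0, [nat_lit 1504270601, nat_lit 186366700], [], [nat_lit 16455249301, nat_lit 18998355765, nat_lit 17722049365, nat_lit 19944138037, nat_lit 21498620832, nat_lit 24038815640, nat_lit 22347611138, nat_lit 24371556226], nat_lit 0, nat_lit 0, nat_lit 0, nat_lit 0, nat_lit 0, nat_lit 0, [], [nat_lit 69, nat_lit 40, nat_lit 40, nat_lit 80, nat_lit 64, nat_lit 345, nat_lit 125, nat_lit 13]⟩, C1.Rw.none,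
 ⟨nat_lit 3162, nat_lit 4473, ⟨.ofNat (nat_lit 227776), .ofNat (nat_lit 431944), .ofNat (nat_lit 270729), .ofNat (nat_lit 474896), .ofNat (nat_lit 255876), .ofNat (nat_lit 438969), .ofNat (nat_lit 300005), .ofNat (nat_lit 483097)⟩, ⟨.ofNat (nat_lit 302621), .ofNat (nat_lit 540545), .ofNat (nat_lit 345754), .ofNat (nat_lit 583678), .ofNat (nat_lit 306116), .ofNat (nat_lit 519453), .ofNat (nat_lit 350426), .ofNat (nat_lit 563762)⟩⟩, [⟨nat_lit 0, nat_lit 100, nat_lit 72, nat_lit 77, nat_lit 51359364⟩, ⟨nat_lit 16, nat_lit 87, nat_lit 95, nat_lit 100, nat_lit 197243924⟩]⟩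
noncomputable def p079_l36 : Lf2 := ⟨nat_lit 0, nat_lit 10, [nat_lit 0, nat_lit 5, nat_lit 5, nat_lit 20], true, nat_lit 160, nat_lit 300, nat_lit 0, nat_lit 384, ⟨nat_lit 0, nat_lit 1000, nat_lit 0, nat_lit 5, nat_lit 209, nat_lit 1000, nat_lit 176, nat_lit 0, nat_lit 0, nat_lit 0, nat_lit 0, nat_lit 0, nat_lit 43513051, nat_lit 13338413, nat_lit 10148536, nat_lit 4775791, false, false⟩,
 nat_lit 0, nat_lit 0, nat_lit 0, nat_lit 2876, nat_lit 3229, nat_lit 0, nat_lit 0, nat_lit 0, nat_lit 0, nat_lit 0, nat_lit 0, nat_lit 0, nat_lit 0, nat_lit 0, nat_lit 0, nat_lit 250000, nat_lit 0, nat_lit 0, [(nat_lit 18, [(nat_lit 0, nat_lit 1000)]), (nat_lit 21, [(nat_lit 0, nat_lit 1000)])],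
 ⟨p079_k15, nat_lit 0, nat_lit 0, nat_lit 55, nat_lit 0, nat_lit 0, [nat_lit 1558400000, nat_lit 2168000000, nat_lit 2562000000], [], [nat_lit 16571579228, nat_lit 19586101100, nat_lit 19367888748, nat_lit 21981233028, nat_lit 22238410836, nat_lit 24622163492, nat_lit 24256232922, nat_lit 26367856992], nat_lit 0, nat_lit 0, nat_lit 0, nat_lit 0, nat_lit 0, nat_lit 0, [], [nat_lit 6, nat_lit 40, nat_lit 40, nat_lit 80, nat_lit 3, nat_lit 373, nat_lit 150, nat_lit 13]⟩, C1.Rw.none,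
 ⟨nat_lit 3162, nat_lit 4473, ⟨.ofNat (nat_lit 431944), .ofNat (nat_lit 567977), .ofNat (nat_lit 474896), .ofNat (nat_lit 611007), .ofNat (nat_lit 438969), .ofNat (nat_lit 560952), .ofNat (nat_lit 483097), .ofNat (nat_lit 605159)⟩, ⟨.ofNat (nat_lit 302621), .ofNat (nat_lit 540545), .ofNat (nat_lit 345754), .ofNat (nat_lit 583678), .ofNat (nat_lit 306116), .ofNat (nat_lit 519453), .ofNat (nat_lit 350426), .ofNat (nat_lit 563762)⟩⟩, [⟨nat_lit 16, nat_lit 87, nat_lit 95, nat_lit 100, nat_lit 171841341⟩]⟩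
noncomputable def p079_l37 : Lf2 := ⟨nat_lit 0, nat_lit 10, [nat_lit 0, nat_lit 5, nat_lit 5, nat_lit 20], false, nat_lit 0, nat_lit 300, nat_lit 0, nat_lit 160, ⟨nat_lit 1000, nat_lit 0, nat_lit 0, nat_lit 0, nat_lit 0, nat_lit 0, nat_lit 0, nat_lit 0, nat_lit 0, nat_lit 0, nat_lit 0, nat_lit 0, nat_lit 0, nat_lit 0, nat_lit 0, nat_lit 0, false, false⟩,
 nat_lit 0, nat_lit 0, nat_lit 0, nat_lit 2184, nat_lit 6650, nat_lit 9939, nat_lit 0, nat_lit 0, nat_lit 0, nat_lit 0, nat_lit 0, nat_lit 0, nat_lit 0, nat_lit 0, nat_lit 0, nat_lit 0, nat_lit 0, nat_lit 0, [],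
 ⟨p079_k14, nat_lit 0, nat_lit 0, nat_lit 178, nat_lit 0, nat_lit 0, [nat_lit 2032000001, nat_lit 6250000000], [], [nat_lit 29851718200, nat_lit 32846184800, nat_lit 38204475640, nat_lit 41272738200, nat_lit 29728656250, nat_lit 31590742000, nat_lit 34628013791, nat_lit 35875549121], nat_lit 0, nat_lit 0, nat_lit 0, nat_lit 0, nat_lit 0, nat_lit 0, [], [nat_lit 69, nat_lit 40, nat_lit 40, nat_lit 80, nat_lit 64, nat_lit 289, nat_lit 75, nat_lit 10]⟩, ⟨p079_k16, nat_lit 0, nat_lit 0, nat_lit 235, nat_lit 0, nat_lit 0, [nat_lit 6250000000, nat_lit 11872000000], [], [nat_lit 33312359456, nat_lit 35221728204, nat_lit 46342849030, nat_lit 47016907418, nat_lit 25360046864, nat_lit 26946052684, nat_lit 36254010604, nat_lit 36816091689], nat_lit 0, nat_lit 0, nat_lit 0, nat_lit 0, nat_lit 0, nat_lit 0, [], [nat_lit 107, nat_lit 40, nat_lit 40, nat_lit 80, nat_lit 12, nat_lit 428, nat_lit 200, nat_lit 11]⟩,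
 zbF0, [⟨nat_lit 13, nat_lit 60, nat_lit 80, nat_lit 100, nat_lit 55638050⟩, ⟨nat_lit 21, nat_lit 88, nat_lit 100, nat_lit 85, nat_lit 121161044⟩]⟩
noncomputable def p079_l38 : Lf2 := ⟨nat_lit 0, nat_lit 10, [nat_lit 0, nat_lit 5, nat_lit 5, nat_lit 20], false, nat_lit 0, nat_lit 300, nat_lit 160, nat_lit 384, ⟨nat_lit 1000, nat_lit 0, nat_lit 0, nat_lit 0, nat_lit 0, nat_lit 0, nat_lit 0, nat_lit 0, nat_lit 0, nat_lit 0, nat_lit 0, nat_lit 0, nat_lit 0, nat_lit 0, nat_lit 0, nat_lit 0, false, false⟩,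
 nat_lit 0, nat_lit 0, nat_lit 0, nat_lit 2670, nat_lit 7534, nat_lit 6461, nat_lit 0, nat_lit 0, nat_lit 0, nat_lit 0, nat_lit 0, nat_lit 0, nat_lit 0, nat_lit 0, nat_lit 0, nat_lit 0, nat_lit 0, nat_lit 0, [],
 ⟨p079_k14, nat_lit 0, nat_lit 0, nat_lit 178, nat_lit 0, nat_lit 0, [nat_lit 2032000001, nat_lit 6250000000], [], [nat_lit 29015125352, nat_lit 32243678688, nat_lit 40533827663, nat_lit 43833689736, nat_lit 28074502190, nat_lit 30050389680, nat_lit 34866341183, nat_lit 36945124897], nat_lit 0, nat_lit 0, nat_lit 0, nat_lit 0, nat_lit 0, nat_lit 0, [], [nat_lit 69, nat_lit 40, nat_lit 40, nat_lit 80, nat_lit 64, nat_lit 289, nat_lit 75, nat_lit 10]⟩, ⟨p079_k16, nat_lit 0, nat_lit 0, nat_lit 94, nat_lit 0, nat_lit 0, [nat_lit 6250000000, nat_lit 11872000000], [], [nat_lit 15426437420, nat_lit 17535592180, nat_lit 27041811707, nat_lit 28157765969, nat_lit 28668496160, nat_lit 29555311075, nat_lit 35021624840,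 nat_lit 35478225458], nat_lit 0, nat_lit 0, nat_lit 0, nat_lit 0, nat_lit 0, nat_lit 0, [], [nat_lit 107, nat_lit 40, nat_lit 40, nat_lit 80, nat_lit 12, nat_lit 538, nat_lit 300, nat_lit 13]⟩,
 zbF0, [⟨nat_lit 4, nat_lit 100, nat_lit 74, nat_lit 90, nat_lit 98791935⟩, ⟨nat_lit 19, nat_lit 100, nat_lit 40, nat_lit 92, nat_lit 454588880⟩]⟩
noncomputable def b_V_800_500_20_0 : St := ⟨true, nat_lit 0, nat_lit 0, nat_lit 1, nat_lit 120, nat_lit 320, nat_lit 360, nat_lit 200, nat_lit 240, nat_lit 40, nat_lit 384, nat_lit 80, nat_lit 120, nat_lit 0, nat_lit 300, nat_lit 0, nat_lit 384, nat_lit 0, nat_lit 40, nat_lit 0, nat_lit 0, nat_lit 0, nat_lit 0⟩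
theorem d_V_800_500_20_0 (h : EB TB.env) : Dead b_V_800_500_20_0 := chkB_sound0 h (T :=
(.spl (nat_lit 2) (nat_lit 240)
(.spl (nat_lit 4) (nat_lit 160)
(.leaf p079_l34)
(.spl (nat_lit 2) (nat_lit 160)
(.leaf p079_l35)
(.leaf p079_l36)))
(.spl (nat_lit 5) (nat_lit 160)
(.leaf p079_l37)
(.leaf p079_l38)))) (by decide +kernel)
noncomputable def p079_l39 : Lf2 := ⟨nat_lit 0, nat_lit 10, [nat_lit 0, nat_lit 5, nat_lit 5, nat_lit 20], true, nat_lit 0, nat_lit 160, nat_lit 0, nat_lit 384, ⟨nat_lit 0, nat_lit 129, nat_lit 871, nat_lit 5, nat_lit 170, nat_lit 1000, nat_lit 65, nat_lit 871, nat_lit 40017, nat_lit 264, nat_lit 817, nat_lit 208, nat_lit 56752254, nat_lit 10247746, nat_lit 0, nat_lit 2138971, false, false⟩,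
 nat_lit 0, nat_lit 0, nat_lit 0, nat_lit 1637, nat_lit 2602, nat_lit 0, nat_lit 0, nat_lit 0, nat_lit 0, nat_lit 0, nat_lit 0, nat_lit 0, nat_lit 0, nat_lit 0, nat_lit 50, nat_lit 380650, nat_lit 0, nat_lit 0, [(nat_lit 18, [(nat_lit 0, nat_lit 129), (nat_lit 5, nat_lit 871)]), (nat_lit 21, [(nat_lit 0, nat_lit 129), (nat_lit 5, nat_lit 871)])],
 ⟨p079_k14, nat_lit 0, nat_lit 0, nat_lit 191, nat_lit 0, nat_lit 0, [nat_lit 1546068601, nat_lit 214127700], [], [nat_lit 16814587337, nat_lit 19699218112, nat_lit 20132854422, nat_lit 22302308371, nat_lit 17529169161, nat_lit 19541045822, nat_lit 20722338214, nat_lit 22732706803], nat_lit 0, nat_lit 0, nat_lit 0, nat_lit 0, nat_lit 0, nat_lit 0, [], [nat_lit 69, nat_lit 40, nat_lit 40, nat_lit 80, nat_lit 64, nat_lit 317, nat_lit 100, nat_lit 12]⟩, C1.Rw.none,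
 ⟨nat_lit 3162, nat_lit 4473, ⟨.ofNat (nat_lit 227776), .ofNat (nat_lit 567977), .ofNat (nat_lit 270729), .ofNat (nat_lit 611007), .ofNat (nat_lit 255876), .ofNat (nat_lit 560952), .ofNat (nat_lit 300005), .ofNat (nat_lit 605159)⟩, ⟨.ofNat (nat_lit 0), .ofNat (nat_lit 302621), .ofNat (nat_lit 0), .ofNat (nat_lit 345754), .ofNat (nat_lit 0), .ofNat (nat_lit 306116), .ofNat (nat_lit 0), .ofNat (nat_lit 350426)⟩⟩, [⟨nat_lit 3, nat_lit 100, nat_lit 82, nat_lit 29, nat_lit 66766475⟩]⟩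
noncomputable def p079_l40 : Lf2 := ⟨nat_lit 0, nat_lit 10, [nat_lit 0, nat_lit 5, nat_lit 5, nat_lit 20], false, nat_lit 0, nat_lit 80, nat_lit 0, nat_lit 336, ⟨nat_lit 94, nat_lit 906, nat_lit 0, nat_lit 6, nat_lit 262, nat_lit 906, nat_lit 37, nat_lit 0, nat_lit 0, nat_lit 0, nat_lit 0, nat_lit 0, nat_lit 46848736, nat_lit 20151264, nat_lit 0, nat_lit 3057555, true, true⟩,
 nat_lit 0, nat_lit 0, nat_lit 2493, nat_lit 0, nat_lit 3337, nat_lit 1068, nat_lit 0, nat_lit 0, nat_lit 0, nat_lit 86, nat_lit 0, nat_lit 0, nat_lit 0, nat_lit 0, nat_lit 0, nat_lit 670200, nat_lit 0, nat_lit 0, [(nat_lit 18, [(nat_lit 1, nat_lit 393), (nat_lit 2, nat_lit 513)])],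
 ⟨p079_k15, nat_lit 0, nat_lit 0, nat_lit 143, nat_lit 0, nat_lit 0, [nat_lit 1613532001, nat_lit 1749828000, nat_lit 1130732800], [], [nat_lit 21556243390, nat_lit 22181391279, nat_lit 25239578954, nat_lit 25766079374, nat_lit 20642549782, nat_lit 21230127462, nat_lit 24132281434, nat_lit 24628533797], nat_lit 0, nat_lit 0, nat_lit 0, nat_lit 0, nat_lit 0, nat_lit 0, [], [nat_lit 6, nat_lit 40, nat_lit 40, nat_lit 80, nat_lit 3, nat_lit 226, nat_lit 20, nat_lit 8]⟩, ⟨p079_k17, nat_lit 0, nat_lit 0, nat_lit 870, nat_lit 0, nat_lit 1300958, [nat_lit 587500000, nat_lit 925148000, nat_lit 1115968000], [], [nat_lit 3682315024, nat_lit 3643985008, nat_lit 3741555024, nat_lit 3719212968, nat_lit 3239342479, nat_lit 2818588284, nat_lit 2984204261, nat_lit 3002116871], nat_lit 1271250, nat_lit 1271250, nat_lit 1271250, nat_lit 1271250, nat_lit 0, nat_lit 2373000, [nat_lit 1412500, nat_lit 1271250, nat_lit 1271250], [nat_lit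 46, nat_lit 40, nat_lit 40, nat_lit 80, nat_lit 41, nat_lit 456, nat_lit 225, nat_lit 12]⟩,
 ⟨nat_lit 4183, nat_lit 4473, ⟨.ofNat (nat_lit 567977), .ofNat (nat_lit 703933), .ofNat (nat_lit 611104), .ofNat (nat_lit 747062), .ofNat (nat_lit 566254), .ofNat (nat_lit 698765), .ofNat (nat_lit 609582), .ofNat (nat_lit 742095)⟩, ⟨.ofNat (nat_lit 0), .ofNat (nat_lit 166665), .ofNat (nat_lit 0), .ofNat (nat_lit 200000), .ofNat (nat_lit 0), .ofNat (nat_lit 171231), .ofNat (nat_lit 0), .ofNat (nat_lit 200000)⟩⟩, [⟨nat_lit 3, nat_lit 100, nat_lit 83, nat_lit 32, nat_lit 17911201⟩, ⟨nat_lit 22, nat_lit 93, nat_lit 100, nat_lit 25, nat_lit 30459444⟩]⟩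
noncomputable def p079_l41 : Lf2 := ⟨nat_lit 0, nat_lit 10, [nat_lit 0, nat_lit 5, nat_lit 5, nat_lit 20], false, nat_lit 0, nat_lit 80, nat_lit 0, nat_lit 336, ⟨nat_lit 71, nat_lit 929, nat_lit 0, nat_lit 6, nat_lit 261, nat_lit 929, nat_lit 37, nat_lit 0, nat_lit 0, nat_lit 0, nat_lit 0, nat_lit 0, nat_lit 46992433, nat_lit 20007567, nat_lit 0, nat_lit 3048453, true, true⟩,
 nat_lit 0, nat_lit 0, nat_lit 1807, nat_lit 0, nat_lit 3189, nat_lit 774, nat_lit 240, nat_lit 0, nat_lit 0, nat_lit 50, nat_lit 0, nat_lit 0, nat_lit 0, nat_lit 0, nat_lit 0, nat_lit 371600, nat_lit 0, nat_lit 0, [(nat_lit 18, [(nat_lit 1, nat_lit 929)])],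
 ⟨p079_k18, nat_lit 0, nat_lit 0, nat_lit 147, nat_lit 0, nat_lit 0, [nat_lit 1443137867, nat_lit 2159881334, nat_lit 2265333200], [], [nat_lit 22147454437, nat_lit 22759771170, nat_lit 25675757638, nat_lit 26191201864, nat_lit 21295948688, nat_lit 21871739648, nat_lit 24643819683, nat_lit 25131177394], nat_lit 0, nat_lit 0, nat_lit 0, nat_lit 0, nat_lit 0, nat_lit 0, [], [nat_lit 6, nat_lit 40, nat_lit 40, nat_lit 80, nat_lit 3, nat_lit 226, nat_lit 20, nat_lit 8]⟩, ⟨p079_k17, nat_lit 0, nat_lit 0, nat_lit 999, nat_lit 0, nat_lit 1579523, [nat_lit 443750000, nat_lit 698782000, nat_lit 842912000], [], [nat_lit 2952361732, nat_lit 2909510068, nat_lit 2944076500, nat_lit 2923168112, nat_lit 2467105000, nat_lit 2238106931, nat_lit 2330064544, nat_lit 2345472567], nat_lit 1271250, nat_lit 1271250, nat_lit 1271250, nat_lit 1271250, nat_lit 0, nat_lit 2373000, [nat_lit 1412500, nat_lit 1271250, nat_lit 1271250], [nat_lit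 46, nat_lit 40, nat_lit 40, nat_lit 80, nat_lit 41, nat_lit 456, nat_lit 225, nat_lit 12]⟩,
 ⟨nat_lit 3872, nat_lit 4184, ⟨.ofNat (nat_lit 566254), .ofNat (nat_lit 698765), .ofNat (nat_lit 609582), .ofNat (nat_lit 742098), .ofNat (nat_lit 564520), .ofNat (nat_lit 693563), .ofNat (nat_lit 608101), .ofNat (nat_lit 737149)⟩, ⟨.ofNat (nat_lit 0), .ofNat (nat_lit 171231), .ofNat (nat_lit 0), .ofNat (nat_lit 200000), .ofNat (nat_lit 0), .ofNat (nat_lit 175674), .ofNat (nat_lit 0), .ofNat (nat_lit 200000)⟩⟩, [⟨nat_lit 3, nat_lit 100, nat_lit 78, nat_lit 39, nat_lit 46557397⟩, ⟨nat_lit 22, nat_lit 93, nat_lit 100, nat_lit 25, nat_lit 21006650⟩]⟩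
noncomputable def p079_l42 : Lf2 := ⟨nat_lit 0, nat_lit 10, [nat_lit 0, nat_lit 5, nat_lit 5, nat_lit 20], false, nat_lit 0, nat_lit 80, nat_lit 0, nat_lit 336, ⟨nat_lit 64, nat_lit 936, nat_lit 0, nat_lit 6, nat_lit 255, nat_lit 936, nat_lit 38, nat_lit 0, nat_lit 0, nat_lit 0, nat_lit 0, nat_lit 0, nat_lit 47684056, nat_lit 19315944, nat_lit 0, nat_lit 3003101, true, true⟩,
 nat_lit 0, nat_lit 0, nat_lit 1626, nat_lit 0, nat_lit 2804, nat_lit 696, nat_lit 149, nat_lit 0, nat_lit 0, nat_lit 45, nat_lit 0, nat_lit 0, nat_lit 0, nat_lit 0, nat_lit 0, nat_lit 541800, nat_lit 0, nat_lit 0, [(nat_lit 21, [(nat_lit 1, nat_lit 657), (nat_lit 2, nat_lit 279)])],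
 ⟨p079_k19, nat_lit 0, nat_lit 0, nat_lit 155, nat_lit 0, nat_lit 0, [nat_lit 1411349200, nat_lit 1240514001, nat_lit 1064192800], [], [nat_lit 22818051913, nat_lit 23809181009, nat_lit 25660825033, nat_lit 26508401825, nat_lit 22183474513, nat_lit 23118824801, nat_lit 24889388033, nat_lit 25703940876], nat_lit 0, nat_lit 0, nat_lit 0, nat_lit 0, nat_lit 0, nat_lit 0, [], [nat_lit 6, nat_lit 40, nat_lit 40, nat_lit 80, nat_lit 3, nat_lit 226, nat_lit 20, nat_lit 8]⟩, ⟨p079_k17, nat_lit 0, nat_lit 0, nat_lit 1207, nat_lit 0, nat_lit 2042202, [nat_lit 400000000, nat_lit 629888000, nat_lit 759808000], [], [nat_lit 2672183488, nat_lit 2651409440, nat_lit 2661274880, nat_lit 2644616704, nat_lit 2224922637, nat_lit 2040610500, nat_lit 2101459789, nat_lit 2108452820], nat_lit 1271250, nat_lit 1271250, nat_lit 1271250, nat_lit 1271250, nat_lit 0, nat_lit 2373000, [nat_lit 1412500, nat_lit 1271250, nat_lit 1271250], [nat_lit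 46, nat_lit 40, nat_lit 40, nat_lit 80, nat_lit 41, nat_lit 456, nat_lit 225, nat_lit 12]⟩,
 ⟨nat_lit 3162, nat_lit 3873, ⟨.ofNat (nat_lit 564520), .ofNat (nat_lit 693563), .ofNat (nat_lit 586313), .ofNat (nat_lit 715356), .ofNat (nat_lit 560952), .ofNat (nat_lit 682859), .ofNat (nat_lit 583107), .ofNat (nat_lit 705013)⟩, ⟨.ofNat (nat_lit 0), .ofNat (nat_lit 175674), .ofNat (nat_lit 0), .ofNat (nat_lit 200000), .ofNat (nat_lit 0), .ofNat (nat_lit 184209), .ofNat (nat_lit 0), .ofNat (nat_lit 200000)⟩⟩, [⟨nat_lit 3, nat_lit 100, nat_lit 65, nat_lit 54, nat_lit 52274882⟩, ⟨nat_lit 10, nat_lit 100, nat_lit 70, nat_lit 61, nat_lit 10309773⟩]⟩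
noncomputable def p079_l43 : Lf2 := ⟨nat_lit 0, nat_lit 10, [nat_lit 0, nat_lit 5, nat_lit 5, nat_lit 20], false, nat_lit 0, nat_lit 80, nat_lit 0, nat_lit 336, ⟨nat_lit 122, nat_lit 878, nat_lit 0, nat_lit 6, nat_lit 263, nat_lit 878, nat_lit 38, nat_lit 0, nat_lit 0, nat_lit 0, nat_lit 0, nat_lit 0, nat_lit 46737846, nat_lit 20262154, nat_lit 0, nat_lit 3064504, true, true⟩,
 nat_lit 0, nat_lit 0, nat_lit 2203, nat_lit 0, nat_lit 2812, nat_lit 1053, nat_lit 165, nat_lit 0, nat_lit 0, nat_lit 241, nat_lit 0, nat_lit 0, nat_lit 0, nat_lit 0, nat_lit 0, nat_lit 575000, nat_lit 0, nat_lit 0, [(nat_lit 21, [(nat_lit 1, nat_lit 505), (nat_lit 2, nat_lit 373)])],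
 ⟨p079_k19, nat_lit 0, nat_lit 0, nat_lit 155, nat_lit 0, nat_lit 0, [nat_lit 1454927600, nat_lit 1271938800, nat_lit 1093425600], [], [nat_lit 22779070936, nat_lit 23771279824, nat_lit 25627476458, nat_lit 26524498106, nat_lit 22139194736, nat_lit 23075534400, nat_lit 24866927778, nat_lit 25716666122], nat_lit 0, nat_lit 0, nat_lit 0, nat_lit 0, nat_lit 0, nat_lit 0, [], [nat_lit 6, nat_lit 40, nat_lit 40, nat_lit 80, nat_lit 3, nat_lit 226, nat_lit 20, nat_lit 8]⟩, ⟨p079_k20, nat_lit 0, nat_lit 0, nat_lit 1103, nat_lit 0, nat_lit 1838108, [nat_lit 762500000, nat_lit 1200724000, nat_lit 1448384000], [], [nat_lit 4381980582, nat_lit 4363390676, nat_lit 4378603620, nat_lit 4360027576, nat_lit 3937474296, nat_lit 3668801097, nat_lit 3717910070, nat_lit 3724474703], nat_lit 1271250, nat_lit 1271250, nat_lit 1271250, nat_lit 1271250, nat_lit 0, nat_lit 2373000, [nat_lit 1412500, nat_lit 1271250, nat_lit 1271250], [nat_lit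 46, nat_lit 40, nat_lit 40, nat_lit 80, nat_lit 41, nat_lit 456, nat_lit 225, nat_lit 11]⟩,
 ⟨nat_lit 3162, nat_lit 3873, ⟨.ofNat (nat_lit 586313), .ofNat (nat_lit 715356), .ofNat (nat_lit 608082), .ofNat (nat_lit 737150), .ofNat (nat_lit 583107), .ofNat (nat_lit 705013), .ofNat (nat_lit 605237), .ofNat (nat_lit 727168)⟩, ⟨.ofNat (nat_lit 0), .ofNat (nat_lit 175674), .ofNat (nat_lit 0), .ofNat (nat_lit 200000), .ofNat (nat_lit 0), .ofNat (nat_lit 184209), .ofNat (nat_lit 0), .ofNat (nat_lit 200000)⟩⟩, [⟨nat_lit 3, nat_lit 100, nat_lit 65, nat_lit 54, nat_lit 17524038⟩, ⟨nat_lit 10, nat_lit 100, nat_lit 70, nat_lit 61, nat_lit 32617800⟩]⟩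
noncomputable def p079_l44 : Lf2 := ⟨nat_lit 0, nat_lit 10, [nat_lit 0, nat_lit 5, nat_lit 5, nat_lit 20], true, nat_lit 80, nat_lit 160, nat_lit 0, nat_lit 384, ⟨nat_lit 0, nat_lit 1000, nat_lit 0, nat_lit 6, nat_lit 260, nat_lit 1000, nat_lit 103, nat_lit 0, nat_lit 0, nat_lit 0, nat_lit 0, nat_lit 0, nat_lit 43462454, nat_lit 19103466, nat_lit 4434080, nat_lit 4335938, true, true⟩,
 nat_lit 0, nat_lit 0, nat_lit 0, nat_lit 0, nat_lit 4567, nat_lit 0, nat_lit 0, nat_lit 0, nat_lit 0, nat_lit 0, nat_lit 0, nat_lit 0, nat_lit 0, nat_lit 0, nat_lit 0, nat_lit 250000, nat_lit 0, nat_lit 0, [(nat_lit 18, [(nat_lit 0, nat_lit 1000)]), (nat_lit 21, [(nat_lit 0, nat_lit 1000)])],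
 ⟨p079_k15, nat_lit 0, nat_lit 0, nat_lit 95, nat_lit 0, nat_lit 0, [nat_lit 1558400000, nat_lit 2168000000, nat_lit 2562000000], [], [nat_lit 20558665232, nat_lit 23465289928, nat_lit 24649781580, nat_lit 27048091824, nat_lit 21020186652, nat_lit 23632826396, nat_lit 24701926540, nat_lit 26869461120], nat_lit 0, nat_lit 0, nat_lit 0, nat_lit 0, nat_lit 0, nat_lit 0, [], [nat_lit 6, nat_lit 40, nat_lit 40, nat_lit 80, nat_lit 3, nat_lit 249, nat_lit 40, nat_lit 8]⟩, C1.Rw.none,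
 ⟨nat_lit 3162, nat_lit 4473, ⟨.ofNat (nat_lit 567977), .ofNat (nat_lit 703933), .ofNat (nat_lit 611007), .ofNat (nat_lit 747055), .ofNat (nat_lit 560952), .ofNat (nat_lit 682859), .ofNat (nat_lit 605159), .ofNat (nat_lit 727157)⟩, ⟨.ofNat (nat_lit 166665), .ofNat (nat_lit 302621), .ofNat (nat_lit 200000), .ofNat (nat_lit 345754), .ofNat (nat_lit 184209), .ofNat (nat_lit 306116), .ofNat (nat_lit 200000), .ofNat (nat_lit 350426)⟩⟩, []⟩
noncomputable def p079_l45 : Lf2 := ⟨nat_lit 0, nat_lit 10, [nat_lit 0, nat_lit 5, nat_lit 5, nat_lit 20], false, nat_lit 0, nat_lit 80, nat_lit 0, nat_lit 260, ⟨nat_lit 97, nat_lit 903, nat_lit 0, nat_lit 8, nat_lit 298, nat_lit 903, nat_lit 37, nat_lit 0, nat_lit 0, nat_lit 0, nat_lit 0, nat_lit 0, nat_lit 43130808, nat_lit 23869192, nat_lit 0, nat_lit 3256168, true, true⟩,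
 nat_lit 0, nat_lit 0, nat_lit 2461, nat_lit 0, nat_lit 3225, nat_lit 1054, nat_lit 0, nat_lit 0, nat_lit 0, nat_lit 82, nat_lit 0, nat_lit 0, nat_lit 0, nat_lit 0, nat_lit 0, nat_lit 695400, nat_lit 0, nat_lit 0, [(nat_lit 18, [(nat_lit 1, nat_lit 346), (nat_lit 2, nat_lit 557)])],
 ⟨p079_k15, nat_lit 0, nat_lit 0, nat_lit 164, nat_lit 0, nat_lit 0, [nat_lit 1628797867, nat_lit 1717453334, nat_lit 1037824400], [], [nat_lit 26134322101, nat_lit 27024250651, nat_lit 28364596976, nat_lit 29204942161, nat_lit 25121767601, nat_lit 25976095685, nat_lit 27247423895, nat_lit 28044906826], nat_lit 0, nat_lit 0, nat_lit 0, nat_lit 0, nat_lit 0, nat_lit 0, [], [nat_lit 6, nat_lit 40, nat_lit 40, nat_lit 80, nat_lit 3, nat_lit 226, nat_lit 20, nat_lit 7]⟩, ⟨p079_k17, nat_lit 0, nat_lit 0, nat_lit 872, nat_lit 0, nat_lit 1351173, [nat_lit 606250000, nat_lit 954674000, nat_lit 1151584000], [], [nat_lit 4037356556, nat_lit 4024755777,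 nat_lit 4143404501, nat_lit 4138280937, nat_lit 3093325038, nat_lit 3081534491, nat_lit 3190030768, nat_lit 3181563459], nat_lit 1271250, nat_lit 1271250, nat_lit 1271250, nat_lit 1271250, nat_lit 0, nat_lit 1836250, [nat_lit 1412500, nat_lit 1271250, nat_lit 1271250], [nat_lit 46, nat_lit 40, nat_lit 40, nat_lit 80, nat_lit 41, nat_lit 345, nat_lit 125, nat_lit 8]⟩,
 ⟨nat_lit 3872, nat_lit 4473, ⟨.ofNat (nat_lit 703933), .ofNat (nat_lit 785507), .ofNat (nat_lit 714716), .ofNat (nat_lit 796290), .ofNat (nat_lit 693563), .ofNat (nat_lit 770989), .ofNat (nat_lit 704460), .ofNat (nat_lit 781886)⟩, ⟨.ofNat (nat_lit 0), .ofNat (nat_lit 166665), .ofNat (nat_lit 0), .ofNat (nat_lit 200000), .ofNat (nat_lit 0), .ofNat (nat_lit 175674), .ofNat (nat_lit 0), .ofNat (nat_lit 200000)⟩⟩, [⟨nat_lit 13, nat_lit 76, nat_lit 63, nat_lit 100, nat_lit 193576062⟩, ⟨nat_lit 3, nat_lit 100, nat_lit 88, nat_lit 21, nat_lit 49300530⟩]⟩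
noncomputable def p079_l46 : Lf2 := ⟨nat_lit 0, nat_lit 10, [nat_lit 0, nat_lit 5, nat_lit 5, nat_lit 20], false, nat_lit 0, nat_lit 80, nat_lit 0, nat_lit 260, ⟨nat_lit 199, nat_lit 801, nat_lit 0, nat_lit 8, nat_lit 303, nat_lit 801, nat_lit 37, nat_lit 0, nat_lit 0, nat_lit 0, nat_lit 0, nat_lit 0, nat_lit 42548579, nat_lit 24451421, nat_lit 0, nat_lit 3281055, true, true⟩,
 nat_lit 0, nat_lit 0, nat_lit 3782, nat_lit 0, nat_lit 3332, nat_lit 1714, nat_lit 0, nat_lit 0, nat_lit 0, nat_lit 821, nat_lit 0, nat_lit 0, nat_lit 0, nat_lit 0, nat_lit 0, nat_lit 718200, nat_lit 0, nat_lit 0, [(nat_lit 18, [(nat_lit 1, nat_lit 138), (nat_lit 2, nat_lit 663)])],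
 ⟨p079_k15, nat_lit 0, nat_lit 0, nat_lit 166, nat_lit 0, nat_lit 0, [nat_lit 1725648001, nat_lit 1897368001, nat_lit 1220498800], [], [nat_lit 26449210722, nat_lit 27349903258, nat_lit 28914461471, nat_lit 29755066935, nat_lit 25364227922, nat_lit 26231839211, nat_lit 27711283216, nat_lit 28509503167], nat_lit 0, nat_lit 0, nat_lit 0, nat_lit 0, nat_lit 0, nat_lit 0, [], [nat_lit 6, nat_lit 40, nat_lit 40, nat_lit 80, nat_lit 3, nat_lit 226, nat_lit 20, nat_lit 7]⟩, ⟨p079_k21, nat_lit 0, nat_lit 0, nat_lit 846, nat_lit 0, nat_lit 1297744, [nat_lit 1243750000, nat_lit 1958558000, nat_lit 2362528000], [], [nat_lit 7018506490, nat_lit 7016162940, nat_lit 7380786883, nat_lit 7385672915, nat_lit 5709224024, nat_lit 5695905636, nat_lit 6032520081, nat_lit 6039849696], nat_lit 1271250, nat_lit 1271250, nat_lit 1271250, nat_lit 1271250, nat_lit 0, nat_lit 1836250, [nat_lit 1412500, nat_lit 1271250, nat_lit 1271250], [nat_lit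 46, nat_lit 40, nat_lit 40, nat_lit 80, nat_lit 41, nat_lit 345, nat_lit 125, nat_lit 8]⟩,
 ⟨nat_lit 3872, nat_lit 4473, ⟨.ofNat (nat_lit 714716), .ofNat (nat_lit 803088), .ofNat (nat_lit 725499), .ofNat (nat_lit 813871), .ofNat (nat_lit 704460), .ofNat (nat_lit 788338), .ofNat (nat_lit 715356), .ofNat (nat_lit 799235)⟩, ⟨.ofNat (nat_lit 0), .ofNat (nat_lit 166665), .ofNat (nat_lit 0), .ofNat (nat_lit 200000), .ofNat (nat_lit 0), .ofNat (nat_lit 175674), .ofNat (nat_lit 0), .ofNat (nat_lit 200000)⟩⟩, [⟨nat_lit 13, nat_lit 72, nat_lit 66, nat_lit 100, nat_lit 181632260⟩, ⟨nat_lit 3, nat_lit 100, nat_lit 88, nat_lit 21, nat_lit 15823182⟩, ⟨nat_lit 22, nat_lit 73, nat_lit 100, nat_lit 47, nat_lit 23696531⟩]⟩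
noncomputable def p079_l47 : Lf2 := ⟨nat_lit 0, nat_lit 10, [nat_lit 0, nat_lit 5, nat_lit 5, nat_lit 20], false, nat_lit 0, nat_lit 80, nat_lit 0, nat_lit 260, ⟨nat_lit 181, nat_lit 819, nat_lit 0, nat_lit 8, nat_lit 314, nat_lit 819, nat_lit 37, nat_lit 0, nat_lit 0, nat_lit 0, nat_lit 0, nat_lit 0, nat_lit 41484320, nat_lit 25515680, nat_lit 0, nat_lit 3322346, true, true⟩,
 nat_lit 0, nat_lit 0, nat_lit 3114, nat_lit 0, nat_lit 3172, nat_lit 1489, nat_lit 0, nat_lit 0, nat_lit 0, nat_lit 434, nat_lit 0, nat_lit 0, nat_lit 0, nat_lit 0, nat_lit 0, nat_lit 819000, nat_lit 0, nat_lit 0, [(nat_lit 18, [(nat_lit 2, nat_lit 819)])],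
 ⟨p079_k15, nat_lit 0, nat_lit 0, nat_lit 170, nat_lit 0, nat_lit 0, [nat_lit 1761620801, nat_lit 1704656001, nat_lit 768269200], [], [nat_lit 26253626963, nat_lit 27190862051, nat_lit 29322723530, nat_lit 30124040626, nat_lit 25296192307, nat_lit 26182852971, nat_lit 28199753469, nat_lit 28961911586], nat_lit 0, nat_lit 0, nat_lit 0, nat_lit 0, nat_lit 0, nat_lit 0, [], [nat_lit 6, nat_lit 40, nat_lit 40, nat_lit 80, nat_lit 3, nat_lit 226, nat_lit 20, nat_lit 7]⟩, ⟨p079_k20, nat_lit 0, nat_lit 0, nat_lit 858, nat_lit 0, nat_lit 1333916, [nat_lit 1131250000, nat_lit 1781402000, nat_lit 2148832000], [], [nat_lit 6521064766, nat_lit 6517268260, nat_lit 6779994357, nat_lit 6774531745, nat_lit 5636767606, nat_lit 5624142398, nat_lit 5808749217, nat_lit 5786698518], nat_lit 1271250, nat_lit 1271250, nat_lit 1271250, nat_lit 1271250, nat_lit 0, nat_lit 1836250, [nat_lit 1412500, nat_lit 1271250, nat_lit 1271250], [nat_lit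 46, nat_lit 40, nat_lit 40, nat_lit 80, nat_lit 41, nat_lit 345, nat_lit 125, nat_lit 8]⟩,
 ⟨nat_lit 3872, nat_lit 4473, ⟨.ofNat (nat_lit 725499), .ofNat (nat_lit 834264), .ofNat (nat_lit 747053), .ofNat (nat_lit 855824), .ofNat (nat_lit 715356), .ofNat (nat_lit 818591), .ofNat (nat_lit 737137), .ofNat (nat_lit 840378)⟩, ⟨.ofNat (nat_lit 0), .ofNat (nat_lit 166665), .ofNat (nat_lit 0), .ofNat (nat_lit 200000), .ofNat (nat_lit 0), .ofNat (nat_lit 175674), .ofNat (nat_lit 0), .ofNat (nat_lit 200000)⟩⟩, [⟨nat_lit 13, nat_lit 77, nat_lit 53, nat_lit 100, nat_lit 143201753⟩, ⟨nat_lit 3, nat_lit 100, nat_lit 88, nat_lit 21, nat_lit 4143175⟩, ⟨nat_lit 22, nat_lit 69, nat_lit 100, nat_lit 52, nat_lit 32955540⟩]⟩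
noncomputable def p079_l48 : Lf2 := ⟨nat_lit 0, nat_lit 10, [nat_lit 0, nat_lit 5, nat_lit 5, nat_lit 20], false, nat_lit 0, nat_lit 80, nat_lit 0, nat_lit 260, ⟨nat_lit 65, nat_lit 935, nat_lit 0, nat_lit 8, nat_lit 292, nat_lit 935, nat_lit 38, nat_lit 0, nat_lit 0, nat_lit 0, nat_lit 0, nat_lit 0, nat_lit 43684420, nat_lit 23315580, nat_lit 0, nat_lit 3230978, true, true⟩,
 nat_lit 0, nat_lit 0, nat_lit 1666, nat_lit 0, nat_lit 2656, nat_lit 714, nat_lit 175, nat_lit 0, nat_lit 0, nat_lit 55, nat_lit 0, nat_lit 0, nat_lit 0, nat_lit 0, nat_lit 0, nat_lit 528200, nat_lit 0, nat_lit 0, [(nat_lit 21, [(nat_lit 1, nat_lit 678), (nat_lit 2, nat_lit 257)])],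
 ⟨p079_k19, nat_lit 0, nat_lit 0, nat_lit 167, nat_lit 0, nat_lit 0, [nat_lit 1411014001, nat_lit 1279727601, nat_lit 1126696400], [], [nat_lit 25735173457, nat_lit 26614769281, nat_lit 27418896897, nat_lit 28316555987, nat_lit 25081857617, nat_lit 25915596289, nat_lit 26680224529, nat_lit 27463805786], nat_lit 0, nat_lit 0, nat_lit 0, nat_lit 0, nat_lit 0, nat_lit 0, [], [nat_lit 6, nat_lit 40, nat_lit 40, nat_lit 80, nat_lit 3, nat_lit 226, nat_lit 20, nat_lit 7]⟩, ⟨p079_k17, nat_lit 0, nat_lit 0, nat_lit 1182, nat_lit 0, nat_lit 2042202, [nat_lit 406250000, nat_lit 639730000, nat_lit 771680000], [], [nat_lit 2671411084, nat_lit 2656442908, nat_lit 2734965672, nat_lit 2735216438, nat_lit 2039124082, nat_lit 2022926630, nat_lit 2095372773, nat_lit 2084532505], nat_lit 1271250, nat_lit 1271250, nat_lit 1271250, nat_lit 1271250, nat_lit 0, nat_lit 1836250, [nat_lit 1412500, nat_lit 1271250, nat_lit 1271250], [nat_lit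 46, nat_lit 40, nat_lit 40, nat_lit 80, nat_lit 41, nat_lit 401, nat_lit 125, nat_lit 10]⟩,
 ⟨nat_lit 3162, nat_lit 3873, ⟨.ofNat (nat_lit 693563), .ofNat (nat_lit 758085), .ofNat (nat_lit 715356), .ofNat (nat_lit 779878), .ofNat (nat_lit 682859), .ofNat (nat_lit 743812), .ofNat (nat_lit 705013), .ofNat (nat_lit 765967)⟩, ⟨.ofNat (nat_lit 0), .ofNat (nat_lit 175674), .ofNat (nat_lit 0), .ofNat (nat_lit 200000), .ofNat (nat_lit 0), .ofNat (nat_lit 184209), .ofNat (nat_lit 0), .ofNat (nat_lit 200000)⟩⟩, [⟨nat_lit 13, nat_lit 66, nat_lit 72, nat_lit 100, nat_lit 234553688⟩, ⟨nat_lit 3, nat_lit 100, nat_lit 76, nat_lit 37, nat_lit 41679100⟩]⟩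
noncomputable def p079_l49 : Lf2 := ⟨nat_lit 0, nat_lit 10, [nat_lit 0, nat_lit 5, nat_lit 5, nat_lit 20], false, nat_lit 0, nat_lit 80, nat_lit 0, nat_lit 260, ⟨nat_lit 116, nat_lit 884, nat_lit 0, nat_lit 8, nat_lit 304, nat_lit 884, nat_lit 38, nat_lit 0, nat_lit 0, nat_lit 0, nat_lit 0, nat_lit 0, nat_lit 42518106, nat_lit 24481894, nat_lit 0, nat_lit 3282313, true, true⟩,
 nat_lit 0, nat_lit 0, nat_lit 2119, nat_lit 0, nat_lit 2674, nat_lit 1013, nat_lit 174, nat_lit 0, nat_lit 0, nat_lit 222, nat_lit 0, nat_lit 0, nat_lit 0, nat_lit 0, nat_lit 0, nat_lit 528200, nat_lit 0, nat_lit 0, [(nat_lit 21, [(nat_lit 1, nat_lit 593), (nat_lit 2, nat_lit 291)])],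
 ⟨p079_k19, nat_lit 0, nat_lit 0, nat_lit 170, nat_lit 0, nat_lit 0, [nat_lit 1447094800, nat_lit 1387018001, nat_lit 1280111200], [], [nat_lit 26016537493, nat_lit 26851036545, nat_lit 28014626580, nat_lit 28828377395, nat_lit 25334182993, nat_lit 26139270446, nat_lit 27245046972, nat_lit 27997427907], nat_lit 0, nat_lit 0, nat_lit 0, nat_lit 0, nat_lit 0, nat_lit 0, [], [nat_lit 6, nat_lit 40, nat_lit 40, nat_lit 80, nat_lit 3, nat_lit 226, nat_lit 20, nat_lit 7]⟩, ⟨p079_k20, nat_lit 0, nat_lit 0, nat_lit 1079, nat_lit 0, nat_lit 1838108, [nat_lit 725000000, nat_lit 1141672000, nat_lit 1377152000], [], [nat_lit 4121025262, nat_lit 4137552064, nat_lit 4349487915, nat_lit 4355545356, nat_lit 3390529943, nat_lit 3368395643, nat_lit 3533809391, nat_lit 3542785320], nat_lit 1271250, nat_lit 1271250, nat_lit 1271250, nat_lit 1271250, nat_lit 0, nat_lit 1836250, [nat_lit 1412500, nat_lit 1271250, nat_lit 1271250], [nat_lit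 46, nat_lit 40, nat_lit 40, nat_lit 80, nat_lit 41, nat_lit 379, nat_lit 125, nat_lit 9]⟩,
 ⟨nat_lit 3162, nat_lit 3873, ⟨.ofNat (nat_lit 715356), .ofNat (nat_lit 792782), .ofNat (nat_lit 737150), .ofNat (nat_lit 814576), .ofNat (nat_lit 705013), .ofNat (nat_lit 778158), .ofNat (nat_lit 727168), .ofNat (nat_lit 800312)⟩, ⟨.ofNat (nat_lit 0), .ofNat (nat_lit 175674), .ofNat (nat_lit 0), .ofNat (nat_lit 200000), .ofNat (nat_lit 0), .ofNat (nat_lit 184209), .ofNat (nat_lit 0), .ofNat (nat_lit 200000)⟩⟩, [⟨nat_lit 13, nat_lit 67, nat_lit 65, nat_lit 100, nat_lit 218695938⟩, ⟨nat_lit 3, nat_lit 100, nat_lit 65, nat_lit 54, nat_lit 28355626⟩, ⟨nat_lit 22, nat_lit 74, nat_lit 100, nat_lit 46, nat_lit 12319053⟩]⟩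
noncomputable def p079_l50 : Lf2 := ⟨nat_lit 0, nat_lit 10, [nat_lit 0, nat_lit 5, nat_lit 5, nat_lit 20], false, nat_lit 80, nat_lit 160, nat_lit 0, nat_lit 336, ⟨nat_lit 55, nat_lit 945, nat_lit 0, nat_lit 8, nat_lit 307, nat_lit 945, nat_lit 103, nat_lit 0, nat_lit 0, nat_lit 0, nat_lit 0, nat_lit 0, nat_lit 39262184, nat_lit 23568810, nat_lit 4169006, nat_lit 4512695, true, true⟩,
 nat_lit 0, nat_lit 0, nat_lit 1321, nat_lit 0, nat_lit 3361, nat_lit 566, nat_lit 0, nat_lit 0, nat_lit 0, nat_lit 40, nat_lit 0, nat_lit 0, nat_lit 0, nat_lit 0, nat_lit 0, nat_lit 534000, nat_lit 0, nat_lit 0, [(nat_lit 18, [(nat_lit 1, nat_lit 685), (nat_lit 2, nat_lit 260)]), (nat_lit 21, [(nat_lit 1, nat_lit 685), (nat_lit 2, nat_lit 260)])],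
 ⟨p079_k15, nat_lit 0, nat_lit 0, nat_lit 123, nat_lit 0, nat_lit 0, [nat_lit 1511966667, nat_lit 1876793334, nat_lit 1571666000], [], [nat_lit 24124281595, nat_lit 26108190723, nat_lit 27415971044, nat_lit 29184823839, nat_lit 24651677720, nat_lit 26463767484, nat_lit 27620593721, nat_lit 29195650896], nat_lit 0, nat_lit 0, nat_lit 0, nat_lit 0, nat_lit 0, nat_lit 0, [], [nat_lit 6, nat_lit 40, nat_lit 40, nat_lit 80, nat_lit 3, nat_lit 249, nat_lit 40, nat_lit 8]⟩, ⟨p079_k17, nat_lit 0, nat_lit 0, nat_lit 1241, nat_lit 0, nat_lit 2177890, [nat_lit 343750000, nat_lit 541310000, nat_lit 652960000], [], [nat_lit 2484184580, nat_lit 2436385816, nat_lit 2484188825, nat_lit 2466623639, nat_lit 1916363475, nat_lit 1880297944, nat_lit 2016544648, nat_lit 2020768172], nat_lit 1271250, nat_lit 1271250, nat_lit 1271250, nat_lit 1271250, nat_lit 0, nat_lit 2373000, [nat_lit 1412500, nat_lit 1271250, nat_lit 1271250], [nat_lit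 46, nat_lit 40, nat_lit 40, nat_lit 80, nat_lit 41, nat_lit 431, nat_lit 150, nat_lit 11]⟩,
 ⟨nat_lit 3162, nat_lit 4473, ⟨.ofNat (nat_lit 703933), .ofNat (nat_lit 812698), .ofNat (nat_lit 747055), .ofNat (nat_lit 855831), .ofNat (nat_lit 682859), .ofNat (nat_lit 780384), .ofNat (nat_lit 727157), .ofNat (nat_lit 824694)⟩, ⟨.ofNat (nat_lit 166665), .ofNat (nat_lit 302621), .ofNat (nat_lit 200000), .ofNat (nat_lit 345754), .ofNat (nat_lit 184209), .ofNat (nat_lit 306116), .ofNat (nat_lit 200000), .ofNat (nat_lit 350426)⟩⟩, [⟨nat_lit 13, nat_lit 72, nat_lit 63, nat_lit 100, nat_lit 197437296⟩, ⟨nat_lit 13, nat_lit 82, nat_lit 44, nat_lit 100, nat_lit 31007902⟩, ⟨nat_lit 22, nat_lit 68, nat_lit 100, nat_lit 96, nat_lit 5608717⟩]⟩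
noncomputable def b_V_800_500_20_1 : St := ⟨true, nat_lit 0, nat_lit 1, nat_lit 1, nat_lit 120, nat_lit 320, nat_lit 360, nat_lit 200, nat_lit 240, nat_lit 40, nat_lit 384, nat_lit 80, nat_lit 120, nat_lit 0, nat_lit 160, nat_lit 0, nat_lit 384, nat_lit 0, nat_lit 40, nat_lit 0, nat_lit 0, nat_lit 0, nat_lit 0⟩
theorem d_V_800_500_20_1 (h : EB TB.env) : Dead b_V_800_500_20_1 := chkB_sound0 h (T :=
(.spl (nat_lit 2) (nat_lit 240)
(.leaf p079_l39)
(.spl (nat_lit 2) (nat_lit 320)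
(.spl (nat_lit 4) (nat_lit 80)
(.trX (nat_lit 22) (nat_lit 100) (nat_lit 76) (nat_lit 82) (nat_lit 336) (.spl (nat_lit 0) (nat_lit 340)
(.spl (nat_lit 0) (nat_lit 330)
(.leaf p079_l40)
(.leaf p079_l41))
(.spl (nat_lit 1) (nat_lit 220)
(.leaf p079_l42)
(.leaf p079_l43))))
(.leaf p079_l44))
(.trX (nat_lit 22) (nat_lit 82) (nat_lit 76) (nat_lit 100) (nat_lit 336) (.spl (nat_lit 4) (nat_lit 80)
(.trX (nat_lit 22) (nat_lit 83) (nat_lit 100) (nat_lit 83) (nat_lit 260) (.spl (nat_lit 0) (nat_lit 340)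
(.spl (nat_lit 1) (nat_lit 220)
(.trX (nat_lit 13) (nat_lit 80) (nat_lit 52) (nat_lit 100) (nat_lit 372) (.spl (nat_lit 1) (nat_lit 210)
(.trX (nat_lit 13) (nat_lit 80) (nat_lit 56) (nat_lit 100) (nat_lit 368) (.leaf p079_l45))
(.leaf p079_l46)))
(.leaf p079_l47))
(.trX (nat_lit 13) (nat_lit 73) (nat_lit 55) (nat_lit 100) (nat_lit 368) (.spl (nat_lit 1) (nat_lit 220)
(.trX (nat_lit 13) (nat_lit 72) (nat_lit 63) (nat_lit 100) (nat_lit 360) (.leaf p079_l48))
(.leaf p079_l49)))))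
(.leaf p079_l50)))))) (by decide +kernel)
noncomputable def p079_l51 : Lf2 := ⟨nat_lit 0, nat_lit 10, [nat_lit 0, nat_lit 5, nat_lit 5, nat_lit 20], true, nat_lit 160, nat_lit 300, nat_lit 0, nat_lit 384, ⟨nat_lit 0, nat_lit 159, nat_lit 841, nat_lit 5, nat_lit 144, nat_lit 1000, nat_lit 176, nat_lit 841, nat_lit 1169, nat_lit 218, nat_lit 62098, nat_lit 276, nat_lit 48474325, nat_lit 7846166, nat_lit 10679509, nat_lit 4167904, false, false⟩,
 nat_lit 0, nat_lit 0, nat_lit 0, nat_lit 3818, nat_lit 2712, nat_lit 0, nat_lit 0, nat_lit 0, nat_lit 0, nat_lit 0, nat_lit 0, nat_lit 0, nat_lit 0, nat_lit 0, nat_lit 43, nat_lit 376150, nat_lit 0, nat_lit 0, [(nat_lit 18, [(nat_lit 0, nat_lit 159), (nat_lit 5, nat_lit 841)]), (nat_lit 21, [(nat_lit 0, nat_lit 159), (nat_lit 5, nat_lit 841)])],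
 ⟨p079_k14, nat_lit 0, nat_lit 0, nat_lit 112, nat_lit 0, nat_lit 0, [nat_lit 1504270601, nat_lit 186366700], [], [nat_lit 16455249301, nat_lit 18998355765, nat_lit 17722049365, nat_lit 19944138037, nat_lit 21498620832, nat_lit 24038815640, nat_lit 22347611138, nat_lit 24371556226], nat_lit 0, nat_lit 0, nat_lit 0, nat_lit 0, nat_lit 0, nat_lit 0, [], [nat_lit 69, nat_lit 40, nat_lit 40, nat_lit 80, nat_lit 64, nat_lit 345, nat_lit 125, nat_lit 13]⟩, C1.Rw.none,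
 ⟨nat_lit 3162, nat_lit 4473, ⟨.ofNat (nat_lit 227776), .ofNat (nat_lit 431944), .ofNat (nat_lit 270729), .ofNat (nat_lit 474896), .ofNat (nat_lit 255876), .ofNat (nat_lit 438969), .ofNat (nat_lit 300005), .ofNat (nat_lit 483097)⟩, ⟨.ofNat (nat_lit 302621), .ofNat (nat_lit 540545), .ofNat (nat_lit 345754), .ofNat (nat_lit 583678), .ofNat (nat_lit 306116), .ofNat (nat_lit 519453), .ofNat (nat_lit 350426), .ofNat (nat_lit 563762)⟩⟩, [⟨nat_lit 0, nat_lit 100, nat_lit 72, nat_lit 77, nat_lit 51359364⟩, ⟨nat_lit 16, nat_lit 87, nat_lit 95, nat_lit 100, nat_lit 197243924⟩]⟩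
noncomputable def p079_l52 : Lf2 := ⟨nat_lit 0, nat_lit 10, [nat_lit 0, nat_lit 5, nat_lit 5, nat_lit 20], true, nat_lit 160, nat_lit 300, nat_lit 0, nat_lit 384, ⟨nat_lit 0, nat_lit 1000, nat_lit 0, nat_lit 5, nat_lit 209, nat_lit 1000, nat_lit 176, nat_lit 0, nat_lit 0, nat_lit 0, nat_lit 0, nat_lit 0, nat_lit 43513051, nat_lit 13338413, nat_lit 10148536, nat_lit 4775791, false, false⟩,
 nat_lit 0, nat_lit 0, nat_lit 0, nat_lit 2876, nat_lit 3229, nat_lit 0, nat_lit 0, nat_lit 0, nat_lit 0, nat_lit 0, nat_lit 0, nat_lit 0, nat_lit 0, nat_lit 0, nat_lit 0, nat_lit 250000, nat_lit 0, nat_lit 0, [(nat_lit 18, [(nat_lit 0, nat_lit 1000)]), (nat_lit 21, [(nat_lit 0, nat_lit 1000)])],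
 ⟨p079_k14, nat_lit 0, nat_lit 0, nat_lit 39, nat_lit 0, nat_lit 0, [nat_lit 1558400000, nat_lit 2562000000], [], [nat_lit 16571579228, nat_lit 19586101100, nat_lit 19367888748, nat_lit 21981233028, nat_lit 22238410836, nat_lit 24622163492, nat_lit 24256232922, nat_lit 26367856992], nat_lit 0, nat_lit 0, nat_lit 0, nat_lit 0, nat_lit 0, nat_lit 0, [], [nat_lit 69, nat_lit 40, nat_lit 40, nat_lit 80, nat_lit 64, nat_lit 373, nat_lit 150, nat_lit 13]⟩, C1.Rw.none,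
 ⟨nat_lit 3162, nat_lit 4473, ⟨.ofNat (nat_lit 431944), .ofNat (nat_lit 567977), .ofNat (nat_lit 474896), .ofNat (nat_lit 611007), .ofNat (nat_lit 438969), .ofNat (nat_lit 560952), .ofNat (nat_lit 483097), .ofNat (nat_lit 605159)⟩, ⟨.ofNat (nat_lit 302621), .ofNat (nat_lit 540545), .ofNat (nat_lit 345754), .ofNat (nat_lit 583678), .ofNat (nat_lit 306116), .ofNat (nat_lit 519453), .ofNat (nat_lit 350426), .ofNat (nat_lit 563762)⟩⟩, [⟨nat_lit 16, nat_lit 87, nat_lit 95, nat_lit 100, nat_lit 171841341⟩]⟩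
noncomputable def p079_l53 : Lf2 := ⟨nat_lit 0, nat_lit 10, [nat_lit 0, nat_lit 5, nat_lit 5, nat_lit 20], true, nat_lit 160, nat_lit 300, nat_lit 0, nat_lit 384, ⟨nat_lit 0, nat_lit 1000, nat_lit 0, nat_lit 6, nat_lit 262, nat_lit 1000, nat_lit 177, nat_lit 0, nat_lit 0, nat_lit 0, nat_lit 0, nat_lit 0, nat_lit 39343415, nat_lit 18047277, nat_lit 9609308, nat_lit 5084444, true, true⟩,
 nat_lit 0, nat_lit 0, nat_lit 0, nat_lit 2827, nat_lit 3021, nat_lit 0, nat_lit 0, nat_lit 0, nat_lit 0, nat_lit 0, nat_lit 0, nat_lit 0, nat_lit 0, nat_lit 0, nat_lit 0, nat_lit 250000, nat_lit 0, nat_lit 0, [(nat_lit 18, [(nat_lit 0, nat_lit 1000)])],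
 ⟨p079_k15, nat_lit 0, nat_lit 0, nat_lit 54, nat_lit 0, nat_lit 0, [nat_lit 1532800000, nat_lit 2168000000, nat_lit 2562000000], [], [nat_lit 19478318252, nat_lit 20745957112, nat_lit 23217635468, nat_lit 24281354488, nat_lit 24299435578, nat_lit 25279502272, nat_lit 27166616224, nat_lit 28000551435], nat_lit 0, nat_lit 0, nat_lit 0, nat_lit 0, nat_lit 0, nat_lit 0, [], [nat_lit 6, nat_lit 40, nat_lit 40, nat_lit 80, nat_lit 3, nat_lit 289, nat_lit 75, nat_lit 9]⟩, C1.Rw.none,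
 ⟨nat_lit 3872, nat_lit 4473, ⟨.ofNat (nat_lit 567977), .ofNat (nat_lit 703933), .ofNat (nat_lit 611083), .ofNat (nat_lit 747053), .ofNat (nat_lit 564520), .ofNat (nat_lit 693563), .ofNat (nat_lit 608080), .ofNat (nat_lit 737137)⟩, ⟨.ofNat (nat_lit 302621), .ofNat (nat_lit 540545), .ofNat (nat_lit 345754), .ofNat (nat_lit 583678), .ofNat (nat_lit 304717), .ofNat (nat_lit 530543), .ofNat (nat_lit 348304), .ofNat (nat_lit 574129)⟩⟩, [⟨nat_lit 16, nat_lit 87, nat_lit 95, nat_lit 100, nat_lit 113716889⟩, ⟨nat_lit 4, nat_lit 100, nat_lit 81, nat_lit 92, nat_lit 30477131⟩]⟩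
noncomputable def p079_l54 : Lf2 := ⟨nat_lit 0, nat_lit 10, [nat_lit 0, nat_lit 5, nat_lit 5, nat_lit 20], true, nat_lit 160, nat_lit 276, nat_lit 0, nat_lit 384, ⟨nat_lit 0, nat_lit 1000, nat_lit 0, nat_lit 6, nat_lit 259, nat_lit 1000, nat_lit 167, nat_lit 0, nat_lit 0, nat_lit 0, nat_lit 0, nat_lit 0, nat_lit 40077412, nat_lit 17973006, nat_lit 8949582, nat_lit 4996528, true, true⟩,
 nat_lit 0, nat_lit 0, nat_lit 0, nat_lit 1914, nat_lit 3788, nat_lit 0, nat_lit 0, nat_lit 0, nat_lit 0, nat_lit 0, nat_lit 0, nat_lit 0, nat_lit 0, nat_lit 0, nat_lit 0, nat_lit 250000, nat_lit 0, nat_lit 0, [(nat_lit 21, [(nat_lit 0, nat_lit 1000)])],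
 ⟨p079_k19, nat_lit 0, nat_lit 0, nat_lit 60, nat_lit 0, nat_lit 0, [nat_lit 1558400000, nat_lit 2146000001, nat_lit 2146000000], [], [nat_lit 21693206345, nat_lit 22913399457, nat_lit 25107479505, nat_lit 26170170449, nat_lit 25032267323, nat_lit 26060486629, nat_lit 27804659099, nat_lit 28800029309], nat_lit 0, nat_lit 0, nat_lit 0, nat_lit 0, nat_lit 0, nat_lit 0, [], [nat_lit 6, nat_lit 40, nat_lit 40, nat_lit 80, nat_lit 3, nat_lit 289, nat_lit 75, nat_lit 9]⟩, C1.Rw.none,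
 ⟨nat_lit 3162, nat_lit 3873, ⟨.ofNat (nat_lit 564520), .ofNat (nat_lit 693563), .ofNat (nat_lit 608082), .ofNat (nat_lit 737150), .ofNat (nat_lit 560952), .ofNat (nat_lit 682859), .ofNat (nat_lit 605237), .ofNat (nat_lit 727168)⟩, ⟨.ofNat (nat_lit 304717), .ofNat (nat_lit 491830), .ofNat (nat_lit 348304), .ofNat (nat_lit 535416), .ofNat (nat_lit 306116), .ofNat (nat_lit 482881), .ofNat (nat_lit 350426), .ofNat (nat_lit 527190)⟩⟩, [⟨nat_lit 16, nat_lit 77, nat_lit 100, nat_lit 99, nat_lit 143146280⟩]⟩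
noncomputable def p079_l55 : Lf2 := ⟨nat_lit 0, nat_lit 10, [nat_lit 0, nat_lit 5, nat_lit 5, nat_lit 20], true, nat_lit 160, nat_lit 240, nat_lit 16, nat_lit 384, ⟨nat_lit 0, nat_lit 1000, nat_lit 0, nat_lit 8, nat_lit 301, nat_lit 1000, nat_lit 157, nat_lit 0, nat_lit 0, nat_lit 0, nat_lit 0, nat_lit 0, nat_lit 37312588, nat_lit 21996451, nat_lit 7690961, nat_lit 5041103, true, true⟩,
 nat_lit 0, nat_lit 0, nat_lit 0, nat_lit 2827, nat_lit 3716, nat_lit 0, nat_lit 0, nat_lit 0, nat_lit 0, nat_lit 0, nat_lit 0, nat_lit 0, nat_lit 0, nat_lit 0, nat_lit 0, nat_lit 250000, nat_lit 0, nat_lit 0, [(nat_lit 18, [(nat_lit 0, nat_lit 1000)])],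
 ⟨p079_k15, nat_lit 0, nat_lit 0, nat_lit 67, nat_lit 0, nat_lit 0, [nat_lit 1532800000, nat_lit 2168000000, nat_lit 2562000000], [], [nat_lit 24107279920, nat_lit 25161274128, nat_lit 26215268336, nat_lit 27165037368, nat_lit 25820415808, nat_lit 26744555880, nat_lit 27668695952, nat_lit 28504379304], nat_lit 0, nat_lit 0, nat_lit 0, nat_lit 0, nat_lit 0, nat_lit 0, [], [nat_lit 6, nat_lit 40, nat_lit 40, nat_lit 80, nat_lit 3, nat_lit 272, nat_lit 60, nat_lit 8]⟩, C1.Rw.none,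
 ⟨nat_lit 3872, nat_lit 4473, ⟨.ofNat (nat_lit 703933), .ofNat (nat_lit 771911), .ofNat (nat_lit 747053), .ofNat (nat_lit 815035), .ofNat (nat_lit 693563), .ofNat (nat_lit 758085), .ofNat (nat_lit 737137), .ofNat (nat_lit 801662)⟩, ⟨.ofNat (nat_lit 302621), .ofNat (nat_lit 438578), .ofNat (nat_lit 345754), .ofNat (nat_lit 481711), .ofNat (nat_lit 304717), .ofNat (nat_lit 433760), .ofNat (nat_lit 348304), .ofNat (nat_lit 477347)⟩⟩, []⟩
noncomputable def p079_l56 : Lf2 := ⟨nat_lit 0, nat_lit 10, [nat_lit 0, nat_lit 5, nat_lit 5, nat_lit 20], true, nat_lit 160, nat_lit 240, nat_lit 16, nat_lit 384, ⟨nat_lit 0, nat_lit 1000, nat_lit 0, nat_lit 8, nat_lit 297, nat_lit 1000, nat_lit 156, nat_lit 0, nat_lit 0, nat_lit 0, nat_lit 0, nat_lit 0, nat_lit 37714544, nat_lit 21581274, nat_lit 7704182, nat_lit 5024926, true, true⟩,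
 nat_lit 0, nat_lit 0, nat_lit 0, nat_lit 0, nat_lit 3605, nat_lit 0, nat_lit 0, nat_lit 0, nat_lit 0, nat_lit 0, nat_lit 0, nat_lit 0, nat_lit 0, nat_lit 0, nat_lit 0, nat_lit 250000, nat_lit 0, nat_lit 0, [(nat_lit 21, [(nat_lit 0, nat_lit 1000)])],
 ⟨p079_k19, nat_lit 0, nat_lit 0, nat_lit 73, nat_lit 0, nat_lit 0, [nat_lit 1558400000, nat_lit 2146000001, nat_lit 2146000000], [], [nat_lit 25208835821, nat_lit 26228877581, nat_lit 27167535291, nat_lit 28106193001, nat_lit 26779284651, nat_lit 27692764061, nat_lit 28519720371, nat_lit 29346676681], nat_lit 0, nat_lit 0, nat_lit 0, nat_lit 0, nat_lit 0, nat_lit 0, [], [nat_lit 6, nat_lit 40, nat_lit 40, nat_lit 80, nat_lit 3, nat_lit 272, nat_lit 60, nat_lit 8]⟩, C1.Rw.none,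
 ⟨nat_lit 3162, nat_lit 3873, ⟨.ofNat (nat_lit 693563), .ofNat (nat_lit 758085), .ofNat (nat_lit 737150), .ofNat (nat_lit 801671), .ofNat (nat_lit 682859), .ofNat (nat_lit 743812), .ofNat (nat_lit 727168), .ofNat (nat_lit 788122)⟩, ⟨.ofNat (nat_lit 304717), .ofNat (nat_lit 433760), .ofNat (nat_lit 348304), .ofNat (nat_lit 477347), .ofNat (nat_lit 306116), .ofNat (nat_lit 428022), .ofNat (nat_lit 350426), .ofNat (nat_lit 472332)⟩⟩, [⟨nat_lit 13, nat_lit 66, nat_lit 68, nat_lit 100, nat_lit 19954678⟩]⟩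
noncomputable def p079_l57 : Lf2 := ⟨nat_lit 0, nat_lit 10, [nat_lit 0, nat_lit 5, nat_lit 5, nat_lit 20], true, nat_lit 160, nat_lit 240, nat_lit 48, nat_lit 352, ⟨nat_lit 0, nat_lit 1000, nat_lit 0, nat_lit 9, nat_lit 320, nat_lit 1000, nat_lit 156, nat_lit 0, nat_lit 0, nat_lit 0, nat_lit 0, nat_lit 0, nat_lit 35932605, nat_lit 23609511, nat_lit 7457884, nat_lit 5069467, true, true⟩,
 nat_lit 0, nat_lit 0, nat_lit 0, nat_lit 2777, nat_lit 4031, nat_lit 0, nat_lit 0, nat_lit 0, nat_lit 0, nat_lit 0, nat_lit 0, nat_lit 0, nat_lit 0, nat_lit 0, nat_lit 0, nat_lit 250000, nat_lit 0, nat_lit 0, [(nat_lit 18, [(nat_lit 0, nat_lit 1000)]), (nat_lit 21, [(nat_lit 0, nat_lit 1000)])],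
 ⟨p079_k15, nat_lit 0, nat_lit 0, nat_lit 84, nat_lit 0, nat_lit 0, [nat_lit 1558400000, nat_lit 2168000000, nat_lit 2562000000], [], [nat_lit 27082060160, nat_lit 28928100132, nat_lit 28401698533, nat_lit 30125780840, nat_lit 28393279412, nat_lit 30013794980, nat_lit 29556279752, nat_lit 31072379228], nat_lit 0, nat_lit 0, nat_lit 0, nat_lit 0, nat_lit 0, nat_lit 0, [], [nat_lit 6, nat_lit 40, nat_lit 40, nat_lit 80, nat_lit 3, nat_lit 272, nat_lit 60, nat_lit 8]⟩, C1.Rw.none,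
 ⟨nat_lit 3162, nat_lit 4473, ⟨.ofNat (nat_lit 771911), .ofNat (nat_lit 812698), .ofNat (nat_lit 815044), .ofNat (nat_lit 855831), .ofNat (nat_lit 743812), .ofNat (nat_lit 780384), .ofNat (nat_lit 788122), .ofNat (nat_lit 824694)⟩, ⟨.ofNat (nat_lit 302621), .ofNat (nat_lit 438578), .ofNat (nat_lit 345754), .ofNat (nat_lit 481711), .ofNat (nat_lit 306116), .ofNat (nat_lit 428022), .ofNat (nat_lit 350426), .ofNat (nat_lit 472332)⟩⟩, [⟨nat_lit 13, nat_lit 72, nat_lit 63, nat_lit 100, nat_lit 189936349⟩, ⟨nat_lit 13, nat_lit 82, nat_lit 44, nat_lit 100, nat_lit 87668418⟩]⟩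
noncomputable def p079_l58 : Lf2 := ⟨nat_lit 0, nat_lit 5, [nat_lit 4, nat_lit 5, nat_lit 5, nat_lit 20], true, nat_lit 240, nat_lit 300, nat_lit 64, nat_lit 384, ⟨nat_lit 0, nat_lit 1000, nat_lit 0, nat_lit 8, nat_lit 301, nat_lit 1000, nat_lit 203, nat_lit 0, nat_lit 0, nat_lit 0, nat_lit 0, nat_lit 0, nat_lit 35057617, nat_lit 20925448, nat_lit 11016935, nat_lit 5393445, true, true⟩,
 nat_lit 0, nat_lit 0, nat_lit 0, nat_lit 2218, nat_lit 3632, nat_lit 0, nat_lit 0, nat_lit 0, nat_lit 0, nat_lit 0, nat_lit 0, nat_lit 0, nat_lit 0, nat_lit 0, nat_lit 0, nat_lit 250000, nat_lit 0, nat_lit 0, [(nat_lit 18, [(nat_lit 0, nat_lit 1000)])],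
 ⟨p079_k22, nat_lit 0, nat_lit 0, nat_lit 63, nat_lit 0, nat_lit 0, [nat_lit 1532800000, nat_lit 2168000000, nat_lit 2562000000], [], [nat_lit 25871413216, nat_lit 26787485760, nat_lit 27703558304, nat_lit 28532637408, nat_lit 27825495520, nat_lit 28637006328, nat_lit 29448517136, nat_lit 30285313524], nat_lit 0, nat_lit 0, nat_lit 0, nat_lit 0, nat_lit 0, nat_lit 0, [], [nat_lit 6, nat_lit 40, nat_lit 40, nat_lit 80, nat_lit 3, nat_lit 203, nat_lit 0, nat_lit 5]⟩, C1.Rw.none,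
 ⟨nat_lit 3872, nat_lit 4473, ⟨.ofNat (nat_lit 703933), .ofNat (nat_lit 771911), .ofNat (nat_lit 747053), .ofNat (nat_lit 815035), .ofNat (nat_lit 693563), .ofNat (nat_lit 758085), .ofNat (nat_lit 737137), .ofNat (nat_lit 801662)⟩, ⟨.ofNat (nat_lit 438578), .ofNat (nat_lit 540545), .ofNat (nat_lit 481711), .ofNat (nat_lit 583678), .ofNat (nat_lit 433760), .ofNat (nat_lit 530543), .ofNat (nat_lit 477347), .ofNat (nat_lit 574129)⟩⟩, [⟨nat_lit 16, nat_lit 87, nat_lit 95, nat_lit 100, nat_lit 159715354⟩]⟩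
noncomputable def p079_l59 : Lf2 := ⟨nat_lit 0, nat_lit 10, [nat_lit 0, nat_lit 5, nat_lit 5, nat_lit 20], true, nat_lit 240, nat_lit 300, nat_lit 64, nat_lit 384, ⟨nat_lit 0, nat_lit 1000, nat_lit 0, nat_lit 8, nat_lit 297, nat_lit 1000, nat_lit 203, nat_lit 0, nat_lit 0, nat_lit 0, nat_lit 0, nat_lit 0, nat_lit 35352884, nat_lit 20559662, nat_lit 11087454, nat_lit 5384740, true, true⟩,
 nat_lit 0, nat_lit 0, nat_lit 0, nat_lit 3697, nat_lit 3554, nat_lit 0, nat_lit 0, nat_lit 0, nat_lit 0, nat_lit 0, nat_lit 0, nat_lit 0, nat_lit 0, nat_lit 0, nat_lit 0, nat_lit 250000, nat_lit 0, nat_lit 0, [(nat_lit 18, [(nat_lit 0, nat_lit 1000)])],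
 ⟨p079_k15, nat_lit 0, nat_lit 0, nat_lit 63, nat_lit 0, nat_lit 0, [nat_lit 1532800000, nat_lit 2168000000, nat_lit 2562000000], [], [nat_lit 25962385472, nat_lit 26827349220, nat_lit 27735930488, nat_lit 28558877076, nat_lit 27863589940, nat_lit 28669213191, nat_lit 29474836442, nat_lit 30206153064], nat_lit 0, nat_lit 0, nat_lit 0, nat_lit 0, nat_lit 0, nat_lit 0, [], [nat_lit 6, nat_lit 40, nat_lit 40, nat_lit 80, nat_lit 3, nat_lit 203, nat_lit 0, nat_lit 5]⟩, C1.Rw.none,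
 ⟨nat_lit 3872, nat_lit 4473, ⟨.ofNat (nat_lit 703933), .ofNat (nat_lit 771911), .ofNat (nat_lit 725499), .ofNat (nat_lit 793478), .ofNat (nat_lit 693563), .ofNat (nat_lit 758085), .ofNat (nat_lit 715356), .ofNat (nat_lit 779878)⟩, ⟨.ofNat (nat_lit 438578), .ofNat (nat_lit 540545), .ofNat (nat_lit 481711), .ofNat (nat_lit 583678), .ofNat (nat_lit 433760), .ofNat (nat_lit 530543), .ofNat (nat_lit 477347), .ofNat (nat_lit 574129)⟩⟩, [⟨nat_lit 13, nat_lit 76, nat_lit 61, nat_lit 100, nat_lit 61013439⟩, ⟨nat_lit 4, nat_lit 100, nat_lit 81, nat_lit 92, nat_lit 189685721⟩]⟩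
noncomputable def p079_l60 : Lf2 := ⟨nat_lit 0, nat_lit 10, [nat_lit 0, nat_lit 5, nat_lit 5, nat_lit 20], false, nat_lit 240, nat_lit 300, nat_lit 64, nat_lit 376, ⟨nat_lit 123, nat_lit 877, nat_lit 0, nat_lit 8, nat_lit 306, nat_lit 877, nat_lit 203, nat_lit 0, nat_lit 0, nat_lit 0, nat_lit 0, nat_lit 0, nat_lit 34763655, nat_lit 21290198, nat_lit 10946147, nat_lit 5401294, true, true⟩,
 nat_lit 0, nat_lit 0, nat_lit 2296, nat_lit 0, nat_lit 3793, nat_lit 1098, nat_lit 0, nat_lit 0, nat_lit 0, nat_lit 102, nat_lit 0, nat_lit 0, nat_lit 0, nat_lit 0, nat_lit 0, nat_lit 219250, nat_lit 0, nat_lit 0, [(nat_lit 18, [(nat_lit 0, nat_lit 877)])],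
 ⟨p079_k15, nat_lit 0, nat_lit 0, nat_lit 63, nat_lit 0, nat_lit 0, [nat_lit 1594201600, nat_lit 2477960000, nat_lit 3015624000], [], [nat_lit 26083628184, nat_lit 27015163490, nat_lit 27946698796, nat_lit 28788436042, nat_lit 28056824730, nat_lit 28880488060, nat_lit 29704151389, nat_lit 30449925838], nat_lit 0, nat_lit 0, nat_lit 0, nat_lit 0, nat_lit 0, nat_lit 0, [], [nat_lit 6, nat_lit 40, nat_lit 40, nat_lit 80, nat_lit 3, nat_lit 203, nat_lit 0, nat_lit 5]⟩, ⟨p079_k20, nat_lit 0, nat_lit 0, nat_lit 527, nat_lit 0, nat_lit 718579, [nat_lit 768750000, nat_lit 1210566000, nat_lit 1460256000], [], [nat_lit 4485586864, nat_lit 4494438972, nat_lit 4667252403, nat_lit 4674111421, nat_lit 4380571376, nat_lit 4361942482, nat_lit 4462073927, nat_lit 4459648004], nat_lit 1271250, nat_lit 1271250, nat_lit 1271250, nat_lit 1271250, nat_lit 382400, nat_lit 2773100, [nat_lit 1412500, nat_lit 1271250, nat_lit 1271250],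 [nat_lit 46, nat_lit 40, nat_lit 40, nat_lit 80, nat_lit 41, nat_lit 401, nat_lit 175, nat_lit 10]⟩,
 ⟨nat_lit 3872, nat_lit 4473, ⟨.ofNat (nat_lit 725499), .ofNat (nat_lit 793478), .ofNat (nat_lit 747053), .ofNat (nat_lit 815035), .ofNat (nat_lit 715356), .ofNat (nat_lit 779878), .ofNat (nat_lit 737137), .ofNat (nat_lit 801662)⟩, ⟨.ofNat (nat_lit 438578), .ofNat (nat_lit 540545), .ofNat (nat_lit 481711), .ofNat (nat_lit 583678), .ofNat (nat_lit 433760), .ofNat (nat_lit 530543), .ofNat (nat_lit 477347), .ofNat (nat_lit 574129)⟩⟩, [⟨nat_lit 16, nat_lit 87, nat_lit 95, nat_lit 100, nat_lit 196409492⟩, ⟨nat_lit 19, nat_lit 100, nat_lit 63, nat_lit 88, nat_lit 25941646⟩]⟩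
noncomputable def p079_l61 : Lf2 := ⟨nat_lit 0, nat_lit 10, [nat_lit 0, nat_lit 5, nat_lit 5, nat_lit 20], true, nat_lit 240, nat_lit 276, nat_lit 64, nat_lit 384, ⟨nat_lit 0, nat_lit 1000, nat_lit 0, nat_lit 8, nat_lit 292, nat_lit 1000, nat_lit 192, nat_lit 0, nat_lit 0, nat_lit 0, nat_lit 0, nat_lit 0, nat_lit 36228170, nat_lit 20391975, nat_lit 10379855, nat_lit 5302659, true, true⟩,
 nat_lit 0, nat_lit 0, nat_lit 0, nat_lit 3652, nat_lit 3228, nat_lit 0, nat_lit 0, nat_lit 0, nat_lit 0, nat_lit 0, nat_lit 0, nat_lit 0, nat_lit 0, nat_lit 0, nat_lit 0, nat_lit 360250, nat_lit 0, nat_lit 0, [(nat_lit 21, [(nat_lit 0, nat_lit 265), (nat_lit 1, nat_lit 735)])],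
 ⟨p079_k19, nat_lit 0, nat_lit 0, nat_lit 66, nat_lit 0, nat_lit 0, [nat_lit 1409048000, nat_lit 1665898001, nat_lit 1665310000], [], [nat_lit 26608855793, nat_lit 27442634481, nat_lit 28202809625, nat_lit 28963759249, nat_lit 27650930132, nat_lit 28431176705, nat_lit 29143457748, nat_lit 29990068942], nat_lit 0, nat_lit 0, nat_lit 0, nat_lit 0, nat_lit 0, nat_lit 0, [], [nat_lit 6, nat_lit 40, nat_lit 40, nat_lit 80, nat_lit 3, nat_lit 203, nat_lit 0, nat_lit 5]⟩, C1.Rw.none,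
 ⟨nat_lit 3162, nat_lit 3873, ⟨.ofNat (nat_lit 693563), .ofNat (nat_lit 758085), .ofNat (nat_lit 715356), .ofNat (nat_lit 779878), .ofNat (nat_lit 682859), .ofNat (nat_lit 743812), .ofNat (nat_lit 705013), .ofNat (nat_lit 765967)⟩, ⟨.ofNat (nat_lit 433760), .ofNat (nat_lit 491830), .ofNat (nat_lit 477347), .ofNat (nat_lit 535416), .ofNat (nat_lit 428022), .ofNat (nat_lit 482881), .ofNat (nat_lit 472332), .ofNat (nat_lit 527190)⟩⟩, [⟨nat_lit 13, nat_lit 72, nat_lit 63, nat_lit 100, nat_lit 232220436⟩, ⟨nat_lit 16, nat_lit 77, nat_lit 100, nat_lit 99, nat_lit 177572982⟩]⟩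
noncomputable def p079_l62 : Lf2 := ⟨nat_lit 0, nat_lit 10, [nat_lit 0, nat_lit 5, nat_lit 5, nat_lit 20], false, nat_lit 240, nat_lit 276, nat_lit 64, nat_lit 376, ⟨nat_lit 47, nat_lit 953, nat_lit 0, nat_lit 8, nat_lit 301, nat_lit 953, nat_lit 192, nat_lit 0, nat_lit 0, nat_lit 0, nat_lit 0, nat_lit 0, nat_lit 35608118, nat_lit 21144666, nat_lit 10247216, nat_lit 5321771, true, true⟩,
 nat_lit 0, nat_lit 0, nat_lit 879, nat_lit 0, nat_lit 3694, nat_lit 420, nat_lit 0, nat_lit 0, nat_lit 0, nat_lit 39, nat_lit 0, nat_lit 0, nat_lit 0, nat_lit 0, nat_lit 0, nat_lit 238250, nat_lit 0, nat_lit 0, [(nat_lit 21, [(nat_lit 0, nat_lit 953)])],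
 ⟨p079_k19, nat_lit 0, nat_lit 0, nat_lit 66, nat_lit 0, nat_lit 0, [nat_lit 1580659201, nat_lit 2265474001, nat_lit 2338888000], [], [nat_lit 26853273421, nat_lit 27775300569, nat_lit 28609254237, nat_lit 29443207905, nat_lit 27966637370, nat_lit 28825162626, nat_lit 29602615478, nat_lit 30489659247], nat_lit 0, nat_lit 0, nat_lit 0, nat_lit 0, nat_lit 0, nat_lit 0, [], [nat_lit 6, nat_lit 40, nat_lit 40, nat_lit 80, nat_lit 3, nat_lit 203, nat_lit 0, nat_lit 5]⟩, ⟨p079_k20, nat_lit 0, nat_lit 0, nat_lit 1035, nat_lit 0, nat_lit 1838108, [nat_lit 293750000, nat_lit 462574000, nat_lit 557984000], [], [nat_lit 1712719559, nat_lit 1716167928, nat_lit 1782246232, nat_lit 1784851389, nat_lit 1672359795, nat_lit 1665217848, nat_lit 1703498749, nat_lit 1704592119], nat_lit 1271250, nat_lit 1271250, nat_lit 1271250, nat_lit 1271250, nat_lit 382400, nat_lit 2773100, [nat_lit 1412500, nat_lit 1271250, nat_lit 1271250],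 [nat_lit 46, nat_lit 40, nat_lit 40, nat_lit 80, nat_lit 41, nat_lit 401, nat_lit 175, nat_lit 10]⟩,
 ⟨nat_lit 3162, nat_lit 3873, ⟨.ofNat (nat_lit 715356), .ofNat (nat_lit 779878), .ofNat (nat_lit 737150), .ofNat (nat_lit 801671), .ofNat (nat_lit 705013), .ofNat (nat_lit 765967), .ofNat (nat_lit 727168), .ofNat (nat_lit 788122)⟩, ⟨.ofNat (nat_lit 433760), .ofNat (nat_lit 491830), .ofNat (nat_lit 477347), .ofNat (nat_lit 535416), .ofNat (nat_lit 428022), .ofNat (nat_lit 482881), .ofNat (nat_lit 472332), .ofNat (nat_lit 527190)⟩⟩, [⟨nat_lit 16, nat_lit 77, nat_lit 100, nat_lit 99, nat_lit 202903409⟩, ⟨nat_lit 19, nat_lit 100, nat_lit 63, nat_lit 88, nat_lit 9925732⟩]⟩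
noncomputable def p079_l63 : Lf2 := ⟨nat_lit 0, nat_lit 10, [nat_lit 0, nat_lit 5, nat_lit 5, nat_lit 20], true, nat_lit 240, nat_lit 280, nat_lit 112, nat_lit 376, ⟨nat_lit 0, nat_lit 1000, nat_lit 0, nat_lit 9, nat_lit 320, nat_lit 1000, nat_lit 191, nat_lit 0, nat_lit 0, nat_lit 0, nat_lit 0, nat_lit 0, nat_lit 34401169, nat_lit 22767122, nat_lit 9831709, nat_lit 5337621, true, true⟩,
 nat_lit 0, nat_lit 0, nat_lit 0, nat_lit 2837, nat_lit 3567, nat_lit 0, nat_lit 0, nat_lit 0, nat_lit 0, nat_lit 0, nat_lit 0, nat_lit 0, nat_lit 0, nat_lit 0, nat_lit 0, nat_lit 250000, nat_lit 0, nat_lit 0, [(nat_lit 18, [(nat_lit 0, nat_lit 1000)]), (nat_lit 21, [(nat_lit 0, nat_lit 1000)])],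
 ⟨p079_k15, nat_lit 0, nat_lit 0, nat_lit 73, nat_lit 0, nat_lit 0, [nat_lit 1558400000, nat_lit 2168000000, nat_lit 2562000000], [], [nat_lit 27730535124, nat_lit 29378472472, nat_lit 28901400265, nat_lit 30527468218, nat_lit 28890478302, nat_lit 30469785026, nat_lit 29978139659, nat_lit 31601192559], nat_lit 0, nat_lit 0, nat_lit 0, nat_lit 0, nat_lit 0, nat_lit 0, [], [nat_lit 6, nat_lit 40, nat_lit 40, nat_lit 80, nat_lit 3, nat_lit 203, nat_lit 0, nat_lit 5]⟩, C1.Rw.none,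
 ⟨nat_lit 3162, nat_lit 4473, ⟨.ofNat (nat_lit 771911), .ofNat (nat_lit 812698), .ofNat (nat_lit 815044), .ofNat (nat_lit 855831), .ofNat (nat_lit 743812), .ofNat (nat_lit 780384), .ofNat (nat_lit 788122), .ofNat (nat_lit 824694)⟩, ⟨.ofNat (nat_lit 438578), .ofNat (nat_lit 506556), .ofNat (nat_lit 460144), .ofNat (nat_lit 528122), .ofNat (nat_lit 428022), .ofNat (nat_lit 488976), .ofNat (nat_lit 450177), .ofNat (nat_lit 511131)⟩⟩, [⟨nat_lit 13, nat_lit 82, nat_lit 44, nat_lit 100, nat_lit 241535266⟩, ⟨nat_lit 16, nat_lit 87, nat_lit 100, nat_lit 94, nat_lit 160645459⟩]⟩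
noncomputable def p079_l64 : Lf2 := ⟨nat_lit 0, nat_lit 10, [nat_lit 0, nat_lit 5, nat_lit 5, nat_lit 20], true, nat_lit 240, nat_lit 300, nat_lit 112, nat_lit 384, ⟨nat_lit 0, nat_lit 1000, nat_lit 0, nat_lit 9, nat_lit 314, nat_lit 1000, nat_lit 207, nat_lit 0, nat_lit 0, nat_lit 0, nat_lit 0, nat_lit 0, nat_lit 33984420, nat_lit 21895355, nat_lit 11120225, nat_lit 5441662, true, true⟩,
 nat_lit 0, nat_lit 0, nat_lit 0, nat_lit 4403, nat_lit 3552, nat_lit 0, nat_lit 0, nat_lit 0, nat_lit 0, nat_lit 0, nat_lit 0, nat_lit 0, nat_lit 0, nat_lit 0, nat_lit 0, nat_lit 452800, nat_lit 0, nat_lit 0, [(nat_lit 18, [(nat_lit 1, nat_lit 912), (nat_lit 2, nat_lit 88)])],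
 ⟨p079_k14, nat_lit 0, nat_lit 0, nat_lit 63, nat_lit 0, nat_lit 0, [nat_lit 1608214400, nat_lit 1879273600], [], [nat_lit 27981818112, nat_lit 28730748832, nat_lit 28506581578, nat_lit 29259303256, nat_lit 29590390072, nat_lit 30281579968, nat_lit 30084673425, nat_lit 30773215714], nat_lit 0, nat_lit 0, nat_lit 0, nat_lit 0, nat_lit 0, nat_lit 0, [], [nat_lit 69, nat_lit 40, nat_lit 40, nat_lit 80, nat_lit 64, nat_lit 203, nat_lit 0, nat_lit 5]⟩, C1.Rw.none,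
 ⟨nat_lit 3872, nat_lit 4473, ⟨.ofNat (nat_lit 771911), .ofNat (nat_lit 792305), .ofNat (nat_lit 793478), .ofNat (nat_lit 813871), .ofNat (nat_lit 758085), .ofNat (nat_lit 777441), .ofNat (nat_lit 779878), .ofNat (nat_lit 799235)⟩, ⟨.ofNat (nat_lit 460144), .ofNat (nat_lit 562111), .ofNat (nat_lit 481711), .ofNat (nat_lit 583678), .ofNat (nat_lit 455554), .ofNat (nat_lit 552336), .ofNat (nat_lit 477347), .ofNat (nat_lit 574129)⟩⟩, [⟨nat_lit 13, nat_lit 76, nat_lit 61, nat_lit 100, nat_lit 11800770⟩, ⟨nat_lit 13, nat_lit 80, nat_lit 52, nat_lit 100, nat_lit 225339452⟩, ⟨nat_lit 16, nat_lit 87, nat_lit 95, nat_lit 100, nat_lit 144019624⟩]⟩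
noncomputable def p079_l65 : Lf2 := ⟨nat_lit 0, nat_lit 5, [nat_lit 4, nat_lit 5, nat_lit 5, nat_lit 20], true, nat_lit 240, nat_lit 300, nat_lit 112, nat_lit 376, ⟨nat_lit 0, nat_lit 1000, nat_lit 0, nat_lit 9, nat_lit 323, nat_lit 1000, nat_lit 207, nat_lit 0, nat_lit 0, nat_lit 0, nat_lit 0, nat_lit 0, nat_lit 33383233, nat_lit 22651460, nat_lit 10965307, nat_lit 5452051, true, true⟩,
 nat_lit 0, nat_lit 0, nat_lit 0, nat_lit 2319, nat_lit 3535, nat_lit 0, nat_lit 0, nat_lit 0, nat_lit 0, nat_lit 0, nat_lit 0, nat_lit 0, nat_lit 0, nat_lit 0, nat_lit 0, nat_lit 250000, nat_lit 0, nat_lit 0, [(nat_lit 18, [(nat_lit 0, nat_lit 1000)])],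
 ⟨p079_k22, nat_lit 0, nat_lit 0, nat_lit 69, nat_lit 0, nat_lit 0, [nat_lit 1532800000, nat_lit 2168000000, nat_lit 2562000000], [], [nat_lit 27743816020, nat_lit 28565268790, nat_lit 28715957770, nat_lit 29494954530, nat_lit 29481247555, nat_lit 30211414810, nat_lit 30350049760, nat_lit 31133839182], nat_lit 0, nat_lit 0, nat_lit 0, nat_lit 0, nat_lit 0, nat_lit 0, [], [nat_lit 6, nat_lit 40, nat_lit 40, nat_lit 80, nat_lit 3, nat_lit 203, nat_lit 0, nat_lit 5]⟩, C1.Rw.none,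
 ⟨nat_lit 3872, nat_lit 4473, ⟨.ofNat (nat_lit 793478), .ofNat (nat_lit 827467), .ofNat (nat_lit 804258), .ofNat (nat_lit 838250), .ofNat (nat_lit 779878), .ofNat (nat_lit 812139), .ofNat (nat_lit 790772), .ofNat (nat_lit 823035)⟩, ⟨.ofNat (nat_lit 460144), .ofNat (nat_lit 562111), .ofNat (nat_lit 481711), .ofNat (nat_lit 583678), .ofNat (nat_lit 455554), .ofNat (nat_lit 552336), .ofNat (nat_lit 477347), .ofNat (nat_lit 574129)⟩⟩, [⟨nat_lit 13, nat_lit 81, nat_lit 48, nat_lit 100, nat_lit 228407013⟩, ⟨nat_lit 16, nat_lit 87, nat_lit 95, nat_lit 100, nat_lit 148141020⟩]⟩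
noncomputable def p079_l66 : Lf2 := ⟨nat_lit 0, nat_lit 5, [nat_lit 4, nat_lit 5, nat_lit 5, nat_lit 20], false, nat_lit 240, nat_lit 300, nat_lit 112, nat_lit 372, ⟨nat_lit 99, nat_lit 901, nat_lit 0, nat_lit 9, nat_lit 331, nat_lit 901, nat_lit 208, nat_lit 0, nat_lit 0, nat_lit 0, nat_lit 0, nat_lit 0, nat_lit 32889782, nat_lit 23214349, nat_lit 10895869, nat_lit 5462187, true, true⟩,
 nat_lit 0, nat_lit 0, nat_lit 1439, nat_lit 0, nat_lit 3517, nat_lit 724, nat_lit 0, nat_lit 0, nat_lit 0, nat_lit 134, nat_lit 0, nat_lit 0, nat_lit 0, nat_lit 0, nat_lit 0, nat_lit 361000, nat_lit 0, nat_lit 0, [(nat_lit 18, [(nat_lit 0, nat_lit 720), (nat_lit 2, nat_lit 181)])],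
 ⟨p079_k22, nat_lit 0, nat_lit 0, nat_lit 68, nat_lit 0, nat_lit 0, [nat_lit 1612821867, nat_lit 2214277334, nat_lit 2383170800], [], [nat_lit 27857281921, nat_lit 28247874354, nat_lit 28962486822, nat_lit 29346356988, nat_lit 29533598575, nat_lit 29898137766, nat_lit 30574194261, nat_lit 30916586875], nat_lit 0, nat_lit 0, nat_lit 0, nat_lit 0, nat_lit 0, nat_lit 0, [], [nat_lit 6, nat_lit 40, nat_lit 40, nat_lit 80, nat_lit 3, nat_lit 203, nat_lit 0, nat_lit 5]⟩, ⟨p079_k23, nat_lit 0, nat_lit 0, nat_lit 460, nat_lit 0, nat_lit 777146, [nat_lit 618750000, nat_lit 974358000], [], [nat_lit 3337638121, nat_lit 3346172011, nat_lit 3434577316, nat_lit 3441223915, nat_lit 3498164544, nat_lit 3496107212, nat_lit 3553854323, nat_lit 3550599229], nat_lit 1271250, nat_lit 1271250, nat_lit 1271250, nat_lit 1271250, nat_lit 719601, nat_lit 2828850, [nat_lit 1412500, nat_lit 1271250], [nat_lit 51, nat_lit 40, nat_lit 40, nat_lit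 80, nat_lit 1, nat_lit 401, nat_lit 175, nat_lit 10]⟩,
 ⟨nat_lit 4183, nat_lit 4473, ⟨.ofNat (nat_lit 804259), .ofNat (nat_lit 845046), .ofNat (nat_lit 815041), .ofNat (nat_lit 855828), .ofNat (nat_lit 797519), .ofNat (nat_lit 837273), .ofNat (nat_lit 808351), .ofNat (nat_lit 848105)⟩, ⟨.ofNat (nat_lit 460144), .ofNat (nat_lit 562111), .ofNat (nat_lit 481711), .ofNat (nat_lit 583678), .ofNat (nat_lit 457921), .ofNat (nat_lit 557304), .ofNat (nat_lit 479587), .ofNat (nat_lit 578971)⟩⟩, [⟨nat_lit 13, nat_lit 82, nat_lit 44, nat_lit 100, nat_lit 188071782⟩, ⟨nat_lit 16, nat_lit 87, nat_lit 95, nat_lit 100, nat_lit 174458430⟩, ⟨nat_lit 19, nat_lit 100, nat_lit 61, nat_lit 91, nat_lit 26837344⟩]⟩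
noncomputable def p079_l67 : Lf2 := ⟨nat_lit 0, nat_lit 5, [nat_lit 4, nat_lit 5, nat_lit 5, nat_lit 20], true, nat_lit 240, nat_lit 288, nat_lit 112, nat_lit 372, ⟨nat_lit 0, nat_lit 1000, nat_lit 0, nat_lit 9, nat_lit 325, nat_lit 1000, nat_lit 203, nat_lit 0, nat_lit 0, nat_lit 0, nat_lit 0, nat_lit 0, nat_lit 33485963, nat_lit 22905217, nat_lit 10608820, nat_lit 5424445, true, true⟩,
 nat_lit 0, nat_lit 0, nat_lit 0, nat_lit 0, nat_lit 3549, nat_lit 0, nat_lit 0, nat_lit 0, nat_lit 0, nat_lit 0, nat_lit 0, nat_lit 0, nat_lit 0, nat_lit 0, nat_lit 0, nat_lit 250000, nat_lit 0, nat_lit 0, [(nat_lit 18, [(nat_lit 0, nat_lit 1000)])],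
 ⟨p079_k24, nat_lit 0, nat_lit 0, nat_lit 60, nat_lit 0, nat_lit 0, [nat_lit 1532800000, nat_lit 2168000000], [], [nat_lit 28149282367, nat_lit 28560559106, nat_lit 28911217442, nat_lit 29305463135, nat_lit 29503480998, nat_lit 29878142009, nat_lit 30200828839, nat_lit 30608144641], nat_lit 0, nat_lit 0, nat_lit 0, nat_lit 0, nat_lit 0, nat_lit 0, [], [nat_lit 24, nat_lit 40, nat_lit 40, nat_lit 80, nat_lit 33, nat_lit 203, nat_lit 0, nat_lit 6]⟩, C1.Rw.none,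
 ⟨nat_lit 3872, nat_lit 4184, ⟨.ofNat (nat_lit 797521), .ofNat (nat_lit 824023), .ofNat (nat_lit 808354), .ofNat (nat_lit 834857), .ofNat (nat_lit 790775), .ofNat (nat_lit 816583), .ofNat (nat_lit 801671), .ofNat (nat_lit 827480)⟩, ⟨.ofNat (nat_lit 457921), .ofNat (nat_lit 537427), .ofNat (nat_lit 479587), .ofNat (nat_lit 559094), .ofNat (nat_lit 455554), .ofNat (nat_lit 532980), .ofNat (nat_lit 477347), .ofNat (nat_lit 554773)⟩⟩, [⟨nat_lit 13, nat_lit 78, nat_lit 49, nat_lit 100, nat_lit 244572003⟩, ⟨nat_lit 16, nat_lit 83, nat_lit 98, nat_lit 100, nat_lit 159688906⟩]⟩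
noncomputable def p079_l68 : Lf2 := ⟨nat_lit 0, nat_lit 10, [nat_lit 0, nat_lit 5, nat_lit 5, nat_lit 20], false, nat_lit 240, nat_lit 300, nat_lit 112, nat_lit 376, ⟨nat_lit 1000, nat_lit 0, nat_lit 0, nat_lit 0, nat_lit 0, nat_lit 0, nat_lit 0, nat_lit 0, nat_lit 0, nat_lit 0, nat_lit 0, nat_lit 0, nat_lit 0, nat_lit 0, nat_lit 0, nat_lit 0, false, false⟩,
 nat_lit 0, nat_lit 0, nat_lit 14392, nat_lit 0, nat_lit 5527, nat_lit 6883, nat_lit 0, nat_lit 0, nat_lit 0, nat_lit 792, nat_lit 0, nat_lit 0, nat_lit 0, nat_lit 0, nat_lit 0, nat_lit 0, nat_lit 0, nat_lit 0, [],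
 ⟨p079_k15, nat_lit 0, nat_lit 0, nat_lit 68, nat_lit 0, nat_lit 0, [nat_lit 2032000001, nat_lit 4688000000, nat_lit 6250000000], [], [nat_lit 29437080244, nat_lit 29926114141, nat_lit 30871016585, nat_lit 31324195368, nat_lit 31329092971, nat_lit 31754427627, nat_lit 32698794028, nat_lit 33152373857], nat_lit 0, nat_lit 0, nat_lit 0, nat_lit 0, nat_lit 0, nat_lit 0, [], [nat_lit 6, nat_lit 40, nat_lit 40, nat_lit 80, nat_lit 3, nat_lit 203, nat_lit 0, nat_lit 5]⟩, ⟨p079_k20, nat_lit 0, nat_lit 0, nat_lit 274, nat_lit 0, nat_lit 270262, [nat_lit 6250000000, nat_lit 9842000000, nat_lit 11872000000], [], [nat_lit 33488957280, nat_lit 33811613750, nat_lit 34910816465, nat_lit 35179132500, nat_lit 37176514619, nat_lit 37255889490, nat_lit 38083623663, nat_lit 38127250749], nat_lit 1271250, nat_lit 1271250, nat_lit 1271250, nat_lit 1271250, nat_lit 719601, nat_lit 2861300, [nat_lit 1412500, nat_lit 1271250, nat_lit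 1271250], [nat_lit 46, nat_lit 40, nat_lit 40, nat_lit 80, nat_lit 41, nat_lit 401, nat_lit 175, nat_lit 9]⟩,
 zbF0, [⟨nat_lit 4, nat_lit 100, nat_lit 86, nat_lit 98, nat_lit 495338906⟩, ⟨nat_lit 7, nat_lit 59, nat_lit 100, nat_lit 90, nat_lit 270562547⟩, ⟨nat_lit 22, nat_lit 54, nat_lit 67, nat_lit 100, nat_lit 71825803⟩]⟩
noncomputable def p079_l69 : Lf2 := ⟨nat_lit 0, nat_lit 10, [nat_lit 0, nat_lit 5, nat_lit 5, nat_lit 20], false, nat_lit 240, nat_lit 288, nat_lit 112, nat_lit 376, ⟨nat_lit 140, nat_lit 860, nat_lit 0, nat_lit 9, nat_lit 323, nat_lit 860, nat_lit 203, nat_lit 0, nat_lit 0, nat_lit 0, nat_lit 0, nat_lit 0, nat_lit 33629690, nat_lit 22725708, nat_lit 10644602, nat_lit 5422426, true, true⟩,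
 nat_lit 0, nat_lit 0, nat_lit 2552, nat_lit 0, nat_lit 3781, nat_lit 1220, nat_lit 0, nat_lit 0, nat_lit 0, nat_lit 110, nat_lit 0, nat_lit 0, nat_lit 0, nat_lit 0, nat_lit 0, nat_lit 215000, nat_lit 0, nat_lit 0, [(nat_lit 18, [(nat_lit 0, nat_lit 860)])],
 ⟨p079_k18, nat_lit 0, nat_lit 0, nat_lit 67, nat_lit 0, nat_lit 0, [nat_lit 1602688000, nat_lit 2520800001, nat_lit 3078320000], [], [nat_lit 28414916024, nat_lit 28835312915, nat_lit 29196804398, nat_lit 29599364183, nat_lit 29781835030, nat_lit 30163933821, nat_lit 30496136298, nat_lit 30862220893], nat_lit 0, nat_lit 0, nat_lit 0, nat_lit 0, nat_lit 0, nat_lit 0, [], [nat_lit 6, nat_lit 40, nat_lit 40, nat_lit 80, nat_lit 3, nat_lit 203, nat_lit 0, nat_lit 5]⟩, ⟨p079_k20, nat_lit 0, nat_lit 0, nat_lit 384, nat_lit 0, nat_lit 485345, [nat_lit 875000000, nat_lit 1377880000, nat_lit 1662080000], [], [nat_lit 4869441371, nat_lit 4893305410, nat_lit 4997121300,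 nat_lit 5015752700, nat_lit 5149166704, nat_lit 5138348321, nat_lit 5226812074, nat_lit 5213873956], nat_lit 1271250, nat_lit 1271250, nat_lit 1271250, nat_lit 1271250, nat_lit 719601, nat_lit 2861300, [nat_lit 1412500, nat_lit 1271250, nat_lit 1271250], [nat_lit 46, nat_lit 40, nat_lit 40, nat_lit 80, nat_lit 41, nat_lit 401, nat_lit 175, nat_lit 9]⟩,
 ⟨nat_lit 3872, nat_lit 4184, ⟨.ofNat (nat_lit 786688), .ofNat (nat_lit 813190), .ofNat (nat_lit 808354), .ofNat (nat_lit 834857), .ofNat (nat_lit 779878), .ofNat (nat_lit 805687), .ofNat (nat_lit 801671), .ofNat (nat_lit 827480)⟩, ⟨.ofNat (nat_lit 457921), .ofNat (nat_lit 537427), .ofNat (nat_lit 479587), .ofNat (nat_lit 559094), .ofNat (nat_lit 455554), .ofNat (nat_lit 532980), .ofNat (nat_lit 477347), .ofNat (nat_lit 554773)⟩⟩, [⟨nat_lit 13, nat_lit 75, nat_lit 56, nat_lit 100, nat_lit 221998053⟩, ⟨nat_lit 4, nat_lit 100, nat_lit 79, nat_lit 96, nat_lit 220415269⟩,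 ⟨nat_lit 19, nat_lit 100, nat_lit 59, nat_lit 90, nat_lit 39387504⟩]⟩
noncomputable def p079_l70 : Lf2 := ⟨nat_lit 0, nat_lit 10, [nat_lit 0, nat_lit 5, nat_lit 5, nat_lit 20], true, nat_lit 240, nat_lit 276, nat_lit 112, nat_lit 372, ⟨nat_lit 0, nat_lit 1000, nat_lit 0, nat_lit 9, nat_lit 312, nat_lit 1000, nat_lit 197, nat_lit 0, nat_lit 0, nat_lit 0, nat_lit 0, nat_lit 0, nat_lit 34657164, nat_lit 21941347, nat_lit 10401489, nat_lit 5370093, true, true⟩,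
 nat_lit 0, nat_lit 0, nat_lit 0, nat_lit 2827, nat_lit 3562, nat_lit 0, nat_lit 0, nat_lit 0, nat_lit 0, nat_lit 0, nat_lit 0, nat_lit 0, nat_lit 0, nat_lit 0, nat_lit 0, nat_lit 250000, nat_lit 0, nat_lit 0, [(nat_lit 21, [(nat_lit 0, nat_lit 1000)])],
 ⟨p079_k19, nat_lit 0, nat_lit 0, nat_lit 68, nat_lit 0, nat_lit 0, [nat_lit 1558400000, nat_lit 2146000001, nat_lit 2146000000], [], [nat_lit 28534185829, nat_lit 29357761393, nat_lit 28907174297, nat_lit 29713673648, nat_lit 29522836888, nat_lit 30348144397, nat_lit 29872195048, nat_lit 30728042880], nat_lit 0, nat_lit 0, nat_lit 0, nat_lit 0, nat_lit 0, nat_lit 0, [], [nat_lit 6, nat_lit 40, nat_lit 40, nat_lit 80, nat_lit 3, nat_lit 203, nat_lit 0, nat_lit 5]⟩, C1.Rw.none,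
 ⟨nat_lit 3162, nat_lit 3873, ⟨.ofNat (nat_lit 758085), .ofNat (nat_lit 770989), .ofNat (nat_lit 801671), .ofNat (nat_lit 814576), .ofNat (nat_lit 743812), .ofNat (nat_lit 756003), .ofNat (nat_lit 788122), .ofNat (nat_lit 800312)⟩, ⟨.ofNat (nat_lit 455554), .ofNat (nat_lit 513623), .ofNat (nat_lit 477347), .ofNat (nat_lit 535416), .ofNat (nat_lit 450177), .ofNat (nat_lit 505035), .ofNat (nat_lit 472332), .ofNat (nat_lit 527190)⟩⟩, [⟨nat_lit 13, nat_lit 73, nat_lit 55, nat_lit 100, nat_lit 280908232⟩, ⟨nat_lit 16, nat_lit 77, nat_lit 100, nat_lit 99, nat_lit 179680995⟩]⟩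
noncomputable def b_V_800_500_20_2 : St := ⟨true, nat_lit 0, nat_lit 1, nat_lit 1, nat_lit 120, nat_lit 320, nat_lit 360, nat_lit 200, nat_lit 240, nat_lit 40, nat_lit 384, nat_lit 80, nat_lit 120, nat_lit 160, nat_lit 300, nat_lit 0, nat_lit 384, nat_lit 0, nat_lit 40, nat_lit 0, nat_lit 0, nat_lit 0, nat_lit 0⟩
theorem d_V_800_500_20_2 (h : EB TB.env) : Dead b_V_800_500_20_2 := chkB_sound0 h (T :=
(.spl (nat_lit 2) (nat_lit 240)
(.spl (nat_lit 2) (nat_lit 160)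
(.leaf p079_l51)
(.leaf p079_l52))
(.spl (nat_lit 2) (nat_lit 320)
(.spl (nat_lit 0) (nat_lit 340)
(.leaf p079_l53)
(.trX (nat_lit 16) (nat_lit 77) (nat_lit 100) (nat_lit 99) (nat_lit 276) (.leaf p079_l54)))
(.trZ (nat_lit 9) (nat_lit 100) (nat_lit 82) (nat_lit 44) (nat_lit 16) (.spl (nat_lit 4) (nat_lit 240)
(.spl (nat_lit 2) (nat_lit 360)
(.spl (nat_lit 0) (nat_lit 340)
(.leaf p079_l55)
(.leaf p079_l56))
(.trZ (nat_lit 9) (nat_lit 100) (nat_lit 61) (nat_lit 68) (nat_lit 48) (.trX (nat_lit 22) (nat_lit 61) (nat_lit 68) (nat_lit 100) (nat_lit 352) (.leaf p079_l57))))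
(.trZ (nat_lit 9) (nat_lit 100) (nat_lit 82) (nat_lit 76) (nat_lit 64) (.spl (nat_lit 2) (nat_lit 360)
(.spl (nat_lit 0) (nat_lit 340)
(.spl (nat_lit 6) (nat_lit 20)
(.leaf p079_l58)
(.spl (nat_lit 1) (nat_lit 220)
(.leaf p079_l59)
(.trX (nat_lit 19) (nat_lit 100) (nat_lit 49) (nat_lit 92) (nat_lit 376) (.leaf p079_l60))))
(.trX (nat_lit 16) (nat_lit 77) (nat_lit 100) (nat_lit 99) (nat_lit 276) (.spl (nat_lit 1) (nat_lit 220)
(.leaf p079_l61)
(.trX (nat_lit 19) (nat_lit 100) (nat_lit 49) (nat_lit 92) (nat_lit 376) (.leaf p079_l62)))))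
(.trZ (nat_lit 9) (nat_lit 100) (nat_lit 61) (nat_lit 92) (nat_lit 112) (.spl (nat_lit 3) (nat_lit 100)
(.trX (nat_lit 16) (nat_lit 87) (nat_lit 100) (nat_lit 94) (nat_lit 280) (.trX (nat_lit 19) (nat_lit 100) (nat_lit 50) (nat_lit 87) (nat_lit 376) (.leaf p079_l63)))
(.spl (nat_lit 0) (nat_lit 340)
(.spl (nat_lit 1) (nat_lit 220)
(.trX (nat_lit 13) (nat_lit 80) (nat_lit 52) (nat_lit 100) (nat_lit 372) (.leaf p079_l64))
(.trX (nat_lit 19) (nat_lit 100) (nat_lit 49) (nat_lit 92) (nat_lit 376) (.spl (nat_lit 6) (nat_lit 20)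
(.spl (nat_lit 1) (nat_lit 230)
(.trX (nat_lit 13) (nat_lit 81) (nat_lit 48) (nat_lit 100) (nat_lit 380) (.leaf p079_l65))
(.trX (nat_lit 19) (nat_lit 100) (nat_lit 54) (nat_lit 93) (nat_lit 372) (.spl (nat_lit 0) (nat_lit 330)
(.leaf p079_l66)
(.trX (nat_lit 13) (nat_lit 78) (nat_lit 49) (nat_lit 100) (nat_lit 376) (.trX (nat_lit 16) (nat_lit 83) (nat_lit 98) (nat_lit 100) (nat_lit 288) (.leaf p079_l67))))))
(.spl (nat_lit 0) (nat_lit 330)
(.leaf p079_l68)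
(.trX (nat_lit 13) (nat_lit 78) (nat_lit 49) (nat_lit 100) (nat_lit 376) (.trX (nat_lit 16) (nat_lit 83) (nat_lit 98) (nat_lit 100) (nat_lit 288) (.leaf p079_l69)))))))
(.trX (nat_lit 13) (nat_lit 73) (nat_lit 55) (nat_lit 100) (nat_lit 368) (.trX (nat_lit 16) (nat_lit 77) (nat_lit 100) (nat_lit 99) (nat_lit 276) (.trX (nat_lit 22) (nat_lit 65) (nat_lit 55) (nat_lit 100) (nat_lit 372) (.leaf p079_l70)))))))))))))) (by decide +kernel)
noncomputable def p079_l71 : Lf2 := ⟨nat_lit 0, nat_lit 10, [nat_lit 0, nat_lit 5, nat_lit 5, nat_lit 20], true, nat_lit 0, nat_lit 300, nat_lit 0, nat_lit 384, ⟨nat_lit 0, nat_lit 1000, nat_lit 0, nat_lit 5, nat_lit 217, nat_lit 1000, nat_lit 111, nat_lit 0, nat_lit 0, nat_lit 0, nat_lit 0, nat_lit 0, nat_lit 0, nat_lit 0, nat_lit 0, nat_lit 5000000, false, true⟩,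
 nat_lit 0, nat_lit 0, nat_lit 0, nat_lit 3671, nat_lit 3739, nat_lit 0, nat_lit 0, nat_lit 0, nat_lit 0, nat_lit 0, nat_lit 0, nat_lit 0, nat_lit 0, nat_lit 0, nat_lit 0, nat_lit 356500, nat_lit 0, nat_lit 0, [(nat_lit 18, [(nat_lit 0, nat_lit 858), (nat_lit 2, nat_lit 142)])],
 ⟨p079_k15, nat_lit 0, nat_lit 0, nat_lit 170, nat_lit 0, nat_lit 0, [nat_lit 1556807467, nat_lit 2008581334, nat_lit 2135261600], [], [nat_lit 20394755401, nat_lit 21924100554, nat_lit 30533951051, nat_lit 31686755304, nat_lit 24929814858, nat_lit 25893870602, nat_lit 30770519639, nat_lit 31557121855], nat_lit 0, nat_lit 0, nat_lit 0, nat_lit 0, nat_lit 0, nat_lit 0, [], [nat_lit 6, nat_lit 40, nat_lit 40, nat_lit 80, nat_lit 3, nat_lit 401, nat_lit 175, nat_lit 16]⟩, C1.Rw.none,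
 ⟨nat_lit 3872, nat_lit 4473, ⟨.ofNat (nat_lit 228056), .ofNat (nat_lit 812698), .ofNat (nat_lit 271153), .ofNat (nat_lit 855824), .ofNat (nat_lit 241882), .ofNat (nat_lit 796798), .ofNat (nat_lit 285433), .ofNat (nat_lit 840378)⟩, ⟨.ofNat (nat_lit 0), .ofNat (nat_lit 540545), .ofNat (nat_lit 0), .ofNat (nat_lit 583678), .ofNat (nat_lit 0), .ofNat (nat_lit 530543), .ofNat (nat_lit 0), .ofNat (nat_lit 574129)⟩⟩, [⟨nat_lit 13, nat_lit 82, nat_lit 44, nat_lit 100, nat_lit 159140604⟩, ⟨nat_lit 16, nat_lit 87, nat_lit 95, nat_lit 100, nat_lit 62905335⟩]⟩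
noncomputable def p079_l72 : Lf2 := ⟨nat_lit 0, nat_lit 10, [nat_lit 0, nat_lit 5, nat_lit 5, nat_lit 20], true, nat_lit 0, nat_lit 276, nat_lit 0, nat_lit 384, ⟨nat_lit 0, nat_lit 1000, nat_lit 0, nat_lit 5, nat_lit 216, nat_lit 1000, nat_lit 102, nat_lit 0, nat_lit 0, nat_lit 0, nat_lit 0, nat_lit 0, nat_lit 0, nat_lit 0, nat_lit 0, nat_lit 5000000, false, true⟩,
 nat_lit 0, nat_lit 0, nat_lit 0, nat_lit 2827, nat_lit 3873, nat_lit 0, nat_lit 0, nat_lit 0, nat_lit 0, nat_lit 0, nat_lit 0, nat_lit 0, nat_lit 0, nat_lit 0, nat_lit 0, nat_lit 250000, nat_lit 0, nat_lit 0, [(nat_lit 21, [(nat_lit 0, nat_lit 1000)])],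
 ⟨p079_k19, nat_lit 0, nat_lit 0, nat_lit 170, nat_lit 0, nat_lit 0, [nat_lit 1558400000, nat_lit 2146000001, nat_lit 2146000000], [], [nat_lit 21860087808, nat_lit 23441047843, nat_lit 30900106013, nat_lit 32135763269, nat_lit 24758908963, nat_lit 25774420928, nat_lit 30194070676, nat_lit 31074312382], nat_lit 0, nat_lit 0, nat_lit 0, nat_lit 0, nat_lit 0, nat_lit 0, [], [nat_lit 6, nat_lit 40, nat_lit 40, nat_lit 80, nat_lit 3, nat_lit 401, nat_lit 175, nat_lit 16]⟩, C1.Rw.none,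
 ⟨nat_lit 3162, nat_lit 3873, ⟨.ofNat (nat_lit 267606), .ofNat (nat_lit 770989), .ofNat (nat_lit 311135), .ofNat (nat_lit 814576), .ofNat (nat_lit 280451), .ofNat (nat_lit 756003), .ofNat (nat_lit 324704), .ofNat (nat_lit 800312)⟩, ⟨.ofNat (nat_lit 0), .ofNat (nat_lit 491830), .ofNat (nat_lit 0), .ofNat (nat_lit 535416), .ofNat (nat_lit 0), .ofNat (nat_lit 482881), .ofNat (nat_lit 0), .ofNat (nat_lit 527190)⟩⟩, [⟨nat_lit 13, nat_lit 73, nat_lit 55, nat_lit 100, nat_lit 183449328⟩, ⟨nat_lit 16, nat_lit 77, nat_lit 100, nat_lit 99, nat_lit 49101812⟩]⟩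
noncomputable def p079_l73 : Lf2 := ⟨nat_lit 0, nat_lit 10, [nat_lit 0, nat_lit 5, nat_lit 5, nat_lit 20], true, nat_lit 0, nat_lit 300, nat_lit 0, nat_lit 384, ⟨nat_lit 0, nat_lit 1000, nat_lit 0, nat_lit 5, nat_lit 217, nat_lit 1000, nat_lit 111, nat_lit 0, nat_lit 0, nat_lit 0, nat_lit 0, nat_lit 0, nat_lit 0, nat_lit 0, nat_lit 0, nat_lit 5000000, false, true⟩,
 nat_lit 0, nat_lit 0, nat_lit 0, nat_lit 3671, nat_lit 3739, nat_lit 0, nat_lit 0, nat_lit 0, nat_lit 0, nat_lit 0, nat_lit 0, nat_lit 0, nat_lit 0, nat_lit 0, nat_lit 0, nat_lit 356500, nat_lit 0, nat_lit 0, [(nat_lit 18, [(nat_lit 0, nat_lit 858), (nat_lit 2, nat_lit 142)])],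
 ⟨p079_k15, nat_lit 0, nat_lit 0, nat_lit 170, nat_lit 0, nat_lit 0, [nat_lit 1556807467, nat_lit 2008581334, nat_lit 2135261600], [], [nat_lit 20394755401, nat_lit 21924100554, nat_lit 30533951051, nat_lit 31686755304, nat_lit 24929814858, nat_lit 25893870602, nat_lit 30770519639, nat_lit 31557121855], nat_lit 0, nat_lit 0, nat_lit 0, nat_lit 0, nat_lit 0, nat_lit 0, [], [nat_lit 6, nat_lit 40, nat_lit 40, nat_lit 80, nat_lit 3, nat_lit 401, nat_lit 175, nat_lit 16]⟩, C1.Rw.none,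
 ⟨nat_lit 3872, nat_lit 4473, ⟨.ofNat (nat_lit 228056), .ofNat (nat_lit 812698), .ofNat (nat_lit 271153), .ofNat (nat_lit 855824), .ofNat (nat_lit 241882), .ofNat (nat_lit 796798), .ofNat (nat_lit 285433), .ofNat (nat_lit 840378)⟩, ⟨.ofNat (nat_lit 0), .ofNat (nat_lit 540545), .ofNat (nat_lit 0), .ofNat (nat_lit 583678), .ofNat (nat_lit 0), .ofNat (nat_lit 530543), .ofNat (nat_lit 0), .ofNat (nat_lit 574129)⟩⟩, [⟨nat_lit 13, nat_lit 82, nat_lit 44, nat_lit 100, nat_lit 159140604⟩, ⟨nat_lit 16, nat_lit 87, nat_lit 95, nat_lit 100, nat_lit 62905335⟩]⟩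
noncomputable def p079_l74 : Lf2 := ⟨nat_lit 0, nat_lit 10, [nat_lit 0, nat_lit 5, nat_lit 5, nat_lit 20], true, nat_lit 0, nat_lit 276, nat_lit 0, nat_lit 384, ⟨nat_lit 0, nat_lit 1000, nat_lit 0, nat_lit 5, nat_lit 216, nat_lit 1000, nat_lit 102, nat_lit 0, nat_lit 0, nat_lit 0, nat_lit 0, nat_lit 0, nat_lit 0, nat_lit 0, nat_lit 0, nat_lit 5000000, false, true⟩,
 nat_lit 0, nat_lit 0, nat_lit 0, nat_lit 3520, nat_lit 3712, nat_lit 0, nat_lit 0, nat_lit 0, nat_lit 0, nat_lit 0, nat_lit 0, nat_lit 0, nat_lit 0, nat_lit 0, nat_lit 0, nat_lit 351250, nat_lit 0, nat_lit 0, [(nat_lit 21, [(nat_lit 0, nat_lit 325), (nat_lit 1, nat_lit 675)])],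
 ⟨p079_k25, nat_lit 0, nat_lit 0, nat_lit 168, nat_lit 0, nat_lit 0, [nat_lit 1421240000, nat_lit 1761212000], [], [nat_lit 22232329661, nat_lit 23676647655, nat_lit 30478931044, nat_lit 31691448993, nat_lit 24857583987, nat_lit 25798833111, nat_lit 30026156110, nat_lit 30895053894], nat_lit 0, nat_lit 0, nat_lit 0, nat_lit 0, nat_lit 0, nat_lit 0, [], [nat_lit 69, nat_lit 40, nat_lit 40, nat_lit 80, nat_lit 64, nat_lit 401, nat_lit 175, nat_lit 16]⟩, C1.Rw.none,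
 ⟨nat_lit 3162, nat_lit 3873, ⟨.ofNat (nat_lit 267606), .ofNat (nat_lit 770989), .ofNat (nat_lit 311135), .ofNat (nat_lit 814576), .ofNat (nat_lit 280451), .ofNat (nat_lit 756003), .ofNat (nat_lit 324704), .ofNat (nat_lit 800312)⟩, ⟨.ofNat (nat_lit 0), .ofNat (nat_lit 491830), .ofNat (nat_lit 0), .ofNat (nat_lit 535416), .ofNat (nat_lit 0), .ofNat (nat_lit 482881), .ofNat (nat_lit 0), .ofNat (nat_lit 527190)⟩⟩, [⟨nat_lit 13, nat_lit 73, nat_lit 55, nat_lit 100, nat_lit 176378926⟩, ⟨nat_lit 16, nat_lit 77, nat_lit 100, nat_lit 99, nat_lit 52733256⟩]⟩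
noncomputable def b_V_800_500_20_3 : St := ⟨true, nat_lit 0, nat_lit 2, nat_lit 2, nat_lit 120, nat_lit 320, nat_lit 360, nat_lit 200, nat_lit 240, nat_lit 40, nat_lit 384, nat_lit 80, nat_lit 120, nat_lit 0, nat_lit 300, nat_lit 0, nat_lit 384, nat_lit 0, nat_lit 40, nat_lit 0, nat_lit 0, nat_lit 0, nat_lit 0⟩
theorem d_V_800_500_20_3 (h : EB TB.env) : Dead b_V_800_500_20_3 := chkB_sound0 h (T :=
(.st (nat_lit 1)
(.spl (nat_lit 0) (nat_lit 340)
(.leaf p079_l71)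
(.trZ (nat_lit 0) (nat_lit 100) (nat_lit 71) (nat_lit 70) (nat_lit 56) (.trX (nat_lit 13) (nat_lit 73) (nat_lit 55) (nat_lit 100) (nat_lit 368) (.trX (nat_lit 16) (nat_lit 77) (nat_lit 100) (nat_lit 99) (nat_lit 276) (.leaf p079_l72)))))
(.spl (nat_lit 0) (nat_lit 340)
(.leaf p079_l73)
(.trZ (nat_lit 0) (nat_lit 100) (nat_lit 71) (nat_lit 70) (nat_lit 56) (.trX (nat_lit 13) (nat_lit 73) (nat_lit 55) (nat_lit 100) (nat_lit 368) (.trX (nat_lit 16) (nat_lit 77) (nat_lit 100) (nat_lit 99) (nat_lit 276) (.leaf p079_l74))))))) (by decide +kernel)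
noncomputable def p079_l75 : Lf2 := ⟨nat_lit 0, nat_lit 10, [nat_lit 0, nat_lit 5, nat_lit 5, nat_lit 20], true, nat_lit 0, nat_lit 160, nat_lit 0, nat_lit 384, ⟨nat_lit 0, nat_lit 0, nat_lit 1000, nat_lit 5, nat_lit 128, nat_lit 987, nat_lit 65, nat_lit 1000, nat_lit 40017, nat_lit 264, nat_lit 153600, nat_lit 311, nat_lit 60767360, nat_lit 0, nat_lit 0, nat_lit 1547397, false, false⟩,
 nat_lit 0, nat_lit 3733, nat_lit 0, nat_lit 0, nat_lit 2799, nat_lit 0, nat_lit 0, nat_lit 0, nat_lit 0, nat_lit 0, nat_lit 0, nat_lit 0, nat_lit 0, nat_lit 0, nat_lit 76, nat_lit 400000, nat_lit 0, nat_lit 0, [(nat_lit 18, [(nat_lit 5, nat_lit 1000)])],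
 ⟨p079_k14, nat_lit 0, nat_lit 0, nat_lit 338, nat_lit 0, nat_lit 501309, [nat_lit 1693000001, nat_lit 251500000], [], [nat_lit 16713240155, nat_lit 17289572013, nat_lit 17330884488, nat_lit 17908613962, nat_lit 17757349904, nat_lit 18290756514, nat_lit 19970371119, nat_lit 19352707392], nat_lit 1271250, nat_lit 1271250, nat_lit 230001, nat_lit 780000, nat_lit 0, nat_lit 1100001, [nat_lit 490000, nat_lit 1427500], [nat_lit 69, nat_lit 40, nat_lit 40, nat_lit 80, nat_lit 64, nat_lit 289, nat_lit 75, nat_lit 11]⟩, C1.Rw.none,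
 ⟨nat_lit 4183, nat_lit 4473, ⟨.ofNat (nat_lit 228083), .ofNat (nat_lit 364041), .ofNat (nat_lit 271208), .ofNat (nat_lit 407167), .ofNat (nat_lit 234973), .ofNat (nat_lit 367486), .ofNat (nat_lit 278299), .ofNat (nat_lit 410812)⟩, ⟨.ofNat (nat_lit 0), .ofNat (nat_lit 302621), .ofNat (nat_lit 0), .ofNat (nat_lit 345754), .ofNat (nat_lit 0), .ofNat (nat_lit 303743), .ofNat (nat_lit 0), .ofNat (nat_lit 347076)⟩⟩, [⟨nat_lit 0, nat_lit 100, nat_lit 78, nat_lit 81, nat_lit 50555227⟩]⟩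
noncomputable def p079_l76 : Lf2 := ⟨nat_lit 0, nat_lit 10, [nat_lit 0, nat_lit 5, nat_lit 5, nat_lit 20], true, nat_lit 0, nat_lit 160, nat_lit 0, nat_lit 384, ⟨nat_lit 0, nat_lit 0, nat_lit 1000, nat_lit 5, nat_lit 133, nat_lit 1000, nat_lit 65, nat_lit 1000, nat_lit 40017, nat_lit 264, nat_lit 166667, nat_lit 315, nat_lit 60344969, nat_lit 0, nat_lit 0, nat_lit 1618025, false, false⟩,
 nat_lit 0, nat_lit 3453, nat_lit 0, nat_lit 0, nat_lit 2691, nat_lit 0, nat_lit 86, nat_lit 0, nat_lit 0, nat_lit 0, nat_lit 0, nat_lit 0, nat_lit 0, nat_lit 0, nat_lit 76, nat_lit 400000, nat_lit 0, nat_lit 0, [(nat_lit 18, [(nat_lit 5, nat_lit 1000)])],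
 ⟨p079_k18, nat_lit 0, nat_lit 0, nat_lit 379, nat_lit 0, nat_lit 568947, [nat_lit 1536800000, nat_lit 802000001, nat_lit 14800000], [], [nat_lit 17663468982, nat_lit 17883607866, nat_lit 18010872720, nat_lit 18635844700, nat_lit 18685207574, nat_lit 19256121187, nat_lit 19427354169, nat_lit 19956159250], nat_lit 1271250, nat_lit 1271250, nat_lit 279600, nat_lit 780000, nat_lit 0, nat_lit 1100001, [nat_lit 490000, nat_lit 1100000, nat_lit 1442500], [nat_lit 6, nat_lit 40, nat_lit 40, nat_lit 80, nat_lit 3, nat_lit 289, nat_lit 75, nat_lit 11]⟩, C1.Rw.none,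
 ⟨nat_lit 3872, nat_lit 4184, ⟨.ofNat (nat_lit 248217), .ofNat (nat_lit 367482), .ofNat (nat_lit 291541), .ofNat (nat_lit 410806), .ofNat (nat_lit 254806), .ofNat (nat_lit 370950), .ofNat (nat_lit 298383), .ofNat (nat_lit 414527)⟩, ⟨.ofNat (nat_lit 0), .ofNat (nat_lit 303743), .ofNat (nat_lit 0), .ofNat (nat_lit 347076), .ofNat (nat_lit 0), .ofNat (nat_lit 304717), .ofNat (nat_lit 0), .ofNat (nat_lit 348304)⟩⟩, [⟨nat_lit 0, nat_lit 100, nat_lit 73, nat_lit 85, nat_lit 29598393⟩, ⟨nat_lit 3, nat_lit 100, nat_lit 78, nat_lit 39, nat_lit 25833433⟩]⟩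
noncomputable def p079_l77 : Lf2 := ⟨nat_lit 0, nat_lit 10, [nat_lit 0, nat_lit 5, nat_lit 5, nat_lit 20], true, nat_lit 0, nat_lit 160, nat_lit 0, nat_lit 384, ⟨nat_lit 0, nat_lit 0, nat_lit 1000, nat_lit 5, nat_lit 137, nat_lit 1000, nat_lit 65, nat_lit 1000, nat_lit 40017, nat_lit 264, nat_lit 176817, nat_lit 318, nat_lit 59923196, nat_lit 0, nat_lit 0, nat_lit 1686333, false, false⟩,
 nat_lit 0, nat_lit 3213, nat_lit 0, nat_lit 0, nat_lit 2600, nat_lit 0, nat_lit 0, nat_lit 0, nat_lit 0, nat_lit 0, nat_lit 0, nat_lit 0, nat_lit 0, nat_lit 0, nat_lit 224, nat_lit 956200, nat_lit 0, nat_lit 0, [(nat_lit 21, [(nat_lit 5, nat_lit 73), (nat_lit 6, nat_lit 927)])],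
 ⟨p079_k19, nat_lit 0, nat_lit 0, nat_lit 418, nat_lit 0, nat_lit 631406, [nat_lit 2565660001, nat_lit 999632401, nat_lit 453268800], [], [nat_lit 17540306081, nat_lit 18486078640, nat_lit 17977122006, nat_lit 18592741006, nat_lit 18683102566, nat_lit 19241528966, nat_lit 19359130006, nat_lit 19880628606], nat_lit 1271250, nat_lit 1271250, nat_lit 330400, nat_lit 780000, nat_lit 0, nat_lit 1100001, [nat_lit 490000, nat_lit 1100000, nat_lit 1442500], [nat_lit 6, nat_lit 40, nat_lit 40, nat_lit 80, nat_lit 3, nat_lit 289, nat_lit 75, nat_lit 11]⟩, C1.Rw.none,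
 ⟨nat_lit 3535, nat_lit 3873, ⟨.ofNat (nat_lit 267701), .ofNat (nat_lit 370945), .ofNat (nat_lit 311275), .ofNat (nat_lit 414519), .ofNat (nat_lit 274037), .ofNat (nat_lit 374465), .ofNat (nat_lit 317930), .ofNat (nat_lit 418358)⟩, ⟨.ofNat (nat_lit 0), .ofNat (nat_lit 304717), .ofNat (nat_lit 0), .ofNat (nat_lit 348304), .ofNat (nat_lit 0), .ofNat (nat_lit 305521), .ofNat (nat_lit 0), .ofNat (nat_lit 349427)⟩⟩, [⟨nat_lit 0, nat_lit 100, nat_lit 68, nat_lit 89, nat_lit 89391086⟩, ⟨nat_lit 3, nat_lit 100, nat_lit 72, nat_lit 46, nat_lit 35059283⟩]⟩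
noncomputable def p079_l78 : Lf2 := ⟨nat_lit 0, nat_lit 10, [nat_lit 0, nat_lit 5, nat_lit 5, nat_lit 20], true, nat_lit 4, nat_lit 160, nat_lit 0, nat_lit 384, ⟨nat_lit 0, nat_lit 0, nat_lit 1000, nat_lit 5, nat_lit 142, nat_lit 1000, nat_lit 68, nat_lit 1000, nat_lit 43350, nat_lit 266, nat_lit 190817, nat_lit 322, nat_lit 56772658, nat_lit 0, nat_lit 0, nat_lit 2693146, false, false⟩,
 nat_lit 0, nat_lit 3282, nat_lit 0, nat_lit 0, nat_lit 2756, nat_lit 0, nat_lit 0, nat_lit 0, nat_lit 0, nat_lit 0, nat_lit 0, nat_lit 0, nat_lit 0, nat_lit 0, nat_lit 181, nat_lit 973000, nat_lit 0, nat_lit 0, [(nat_lit 21, [(nat_lit 5, nat_lit 45), (nat_lit 6, nat_lit 955)])],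
 ⟨p079_k26, nat_lit 0, nat_lit 0, nat_lit 356, nat_lit 0, nat_lit 689084, [nat_lit 2215500001, nat_lit 251327999], [], [nat_lit 18630867894, nat_lit 19596386499, nat_lit 18766930372, nat_lit 19354649854, nat_lit 19431688000, nat_lit 19962250404, nat_lit 19994112859, nat_lit 20493431575], nat_lit 1271250, nat_lit 1271250, nat_lit 382400, nat_lit 780000, nat_lit 21650, nat_lit 1100001, [nat_lit 490000, nat_lit 1100000], [nat_lit 24, nat_lit 40, nat_lit 40, nat_lit 80, nat_lit 33, nat_lit 289, nat_lit 75, nat_lit 13]⟩, C1.Rw.none,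
 ⟨nat_lit 3162, nat_lit 3536, ⟨.ofNat (nat_lit 286575), .ofNat (nat_lit 374456), .ofNat (nat_lit 330464), .ofNat (nat_lit 418344), .ofNat (nat_lit 292723), .ofNat (nat_lit 378072), .ofNat (nat_lit 337016), .ofNat (nat_lit 422365)⟩, ⟨.ofNat (nat_lit 10000), .ofNat (nat_lit 305521), .ofNat (nat_lit 10000), .ofNat (nat_lit 349427), .ofNat (nat_lit 10000), .ofNat (nat_lit 306116), .ofNat (nat_lit 10000), .ofNat (nat_lit 350426)⟩⟩, [⟨nat_lit 0, nat_lit 100, nat_lit 61, nat_lit 92, nat_lit 141105096⟩, ⟨nat_lit 3, nat_lit 100, nat_lit 65, nat_lit 54, nat_lit 39176422⟩]⟩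
noncomputable def p079_l79 : Lf2 := ⟨nat_lit 0, nat_lit 10, [nat_lit 0, nat_lit 5, nat_lit 5, nat_lit 20], false, nat_lit 0, nat_lit 160, nat_lit 0, nat_lit 384, ⟨nat_lit 287, nat_lit 0, nat_lit 713, nat_lit 5, nat_lit 195, nat_lit 713, nat_lit 65, nat_lit 713, nat_lit 40017, nat_lit 264, nat_lit 817, nat_lit 208, nat_lit 54110998, nat_lit 0, nat_lit 0, nat_lit 2448228, false, false⟩,
 nat_lit 0, nat_lit 4884, nat_lit 0, nat_lit 0, nat_lit 3663, nat_lit 3709, nat_lit 0, nat_lit 0, nat_lit 0, nat_lit 325, nat_lit 0, nat_lit 0, nat_lit 0, nat_lit 0, nat_lit 25, nat_lit 588200, nat_lit 0, nat_lit 0, [(nat_lit 18, [(nat_lit 5, nat_lit 208), (nat_lit 6, nat_lit 505)])],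
 ⟨p079_k15, nat_lit 0, nat_lit 0, nat_lit 318, nat_lit 0, nat_lit 501309, [nat_lit 1511539734, nat_lit 1033278667, nat_lit 10764400], [], [nat_lit 18702318665, nat_lit 18096996101, nat_lit 20961966240, nat_lit 21819187231, nat_lit 17577582948, nat_lit 18107273131, nat_lit 22681246227, nat_lit 21872921028], nat_lit 1271250, nat_lit 1271250, nat_lit 780000, nat_lit 1762500, nat_lit 0, nat_lit 1100001, [nat_lit 490000, nat_lit 1100000, nat_lit 1442500], [nat_lit 6, nat_lit 40, nat_lit 40, nat_lit 80, nat_lit 3, nat_lit 317, nat_lit 100, nat_lit 12]⟩, ⟨p079_k17, nat_lit 0, nat_lit 0, nat_lit 202, nat_lit 0, nat_lit 0, [nat_lit 1793750000, nat_lit 2824654000, nat_lit 3407264000], [], [nat_lit 7280687432, nat_lit 8160982632, nat_lit 8409939760, nat_lit 9025877004, nat_lit 9291095298, nat_lit 9452740476, nat_lit 9228604407, nat_lit 9580161833], nat_lit 0, nat_lit 0, nat_lit 0, nat_lit 0, nat_lit 0, nat_lit 0, [], [nat_lit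 46, nat_lit 40, nat_lit 40, nat_lit 80, nat_lit 41, nat_lit 456, nat_lit 225, nat_lit 12]⟩,
 ⟨nat_lit 4183, nat_lit 4473, ⟨.ofNat (nat_lit 364041), .ofNat (nat_lit 567977), .ofNat (nat_lit 407167), .ofNat (nat_lit 611104), .ofNat (nat_lit 367486), .ofNat (nat_lit 566254), .ofNat (nat_lit 410812), .ofNat (nat_lit 609582)⟩, ⟨.ofNat (nat_lit 0), .ofNat (nat_lit 302621), .ofNat (nat_lit 0), .ofNat (nat_lit 345754), .ofNat (nat_lit 0), .ofNat (nat_lit 303743), .ofNat (nat_lit 0), .ofNat (nat_lit 347076)⟩⟩, [⟨nat_lit 19, nat_lit 100, nat_lit 59, nat_lit 87, nat_lit 76645808⟩]⟩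
noncomputable def p079_l80 : Lf2 := ⟨nat_lit 0, nat_lit 10, [nat_lit 0, nat_lit 5, nat_lit 5, nat_lit 20], false, nat_lit 0, nat_lit 160, nat_lit 0, nat_lit 384, ⟨nat_lit 231, nat_lit 0, nat_lit 769, nat_lit 5, nat_lit 196, nat_lit 769, nat_lit 65, nat_lit 769, nat_lit 40017, nat_lit 264, nat_lit 2777, nat_lit 209, nat_lit 54069403, nat_lit 0, nat_lit 0, nat_lit 2452675, false, false⟩,
 nat_lit 0, nat_lit 4127, nat_lit 0, nat_lit 0, nat_lit 3217, nat_lit 2705, nat_lit 501, nat_lit 0, nat_lit 0, nat_lit 254, nat_lit 0, nat_lit 0, nat_lit 0, nat_lit 0, nat_lit 0, nat_lit 307600, nat_lit 0, nat_lit 0, [(nat_lit 18, [(nat_lit 5, nat_lit 769)])],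
 ⟨p079_k18, nat_lit 0, nat_lit 0, nat_lit 347, nat_lit 0, nat_lit 568947, [nat_lit 1183639200, nat_lit 764562000, nat_lit 286251200], [], [nat_lit 17758829521, nat_lit 18397482098, nat_lit 21105615329, nat_lit 21907774498, nat_lit 18339478455, nat_lit 18840160352, nat_lit 21169011639, nat_lit 21677811842], nat_lit 1271250, nat_lit 1271250, nat_lit 780000, nat_lit 1762500, nat_lit 0, nat_lit 1100001, [nat_lit 490000, nat_lit 1100000, nat_lit 1442500], [nat_lit 6, nat_lit 40, nat_lit 40, nat_lit 80, nat_lit 3, nat_lit 317, nat_lit 100, nat_lit 12]⟩, ⟨p079_k17, nat_lit 0, nat_lit 0, nat_lit 202, nat_lit 0, nat_lit 0, [nat_lit 1443750000, nat_lit 2273502000, nat_lit 2742432000], [], [nat_lit 5855895080, nat_lit 6524637256, nat_lit 6750461232, nat_lit 7223979420, nat_lit 7530683688, nat_lit 7668357848, nat_lit 7381598150, nat_lit 7486582103], nat_lit 0, nat_lit 0, nat_lit 0, nat_lit 0, nat_lit 0, nat_lit 0, [], [nat_lit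 46, nat_lit 40, nat_lit 40, nat_lit 80, nat_lit 41, nat_lit 456, nat_lit 225, nat_lit 12]⟩,
 ⟨nat_lit 3872, nat_lit 4184, ⟨.ofNat (nat_lit 367482), .ofNat (nat_lit 566254), .ofNat (nat_lit 410806), .ofNat (nat_lit 609582), .ofNat (nat_lit 370950), .ofNat (nat_lit 564520), .ofNat (nat_lit 414527), .ofNat (nat_lit 608101)⟩, ⟨.ofNat (nat_lit 0), .ofNat (nat_lit 303743), .ofNat (nat_lit 0), .ofNat (nat_lit 347076), .ofNat (nat_lit 0), .ofNat (nat_lit 304717), .ofNat (nat_lit 0), .ofNat (nat_lit 348304)⟩⟩, [⟨nat_lit 7, nat_lit 59, nat_lit 100, nat_lit 87, nat_lit 57317401⟩]⟩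
noncomputable def p079_l81 : Lf2 := ⟨nat_lit 0, nat_lit 10, [nat_lit 0, nat_lit 5, nat_lit 5, nat_lit 20], false, nat_lit 0, nat_lit 160, nat_lit 0, nat_lit 384, ⟨nat_lit 250, nat_lit 0, nat_lit 750, nat_lit 5, nat_lit 196, nat_lit 750, nat_lit 65, nat_lit 750, nat_lit 40017, nat_lit 264, nat_lit 600, nat_lit 209, nat_lit 54026156, nat_lit 0, nat_lit 0, nat_lit 2457285, false, false⟩,
 nat_lit 0, nat_lit 3887, nat_lit 0, nat_lit 0, nat_lit 3146, nat_lit 3227, nat_lit 0, nat_lit 0, nat_lit 0, nat_lit 376, nat_lit 0, nat_lit 0, nat_lit 0, nat_lit 0, nat_lit 101, nat_lit 750000, nat_lit 0, nat_lit 0, [(nat_lit 21, [(nat_lit 6, nat_lit 750)])],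
 ⟨p079_k19, nat_lit 0, nat_lit 0, nat_lit 373, nat_lit 0, nat_lit 631406, [nat_lit 1884200001, nat_lit 760000001, nat_lit 418700000], [], [nat_lit 18275916324, nat_lit 19254856306, nat_lit 21785413524, nat_lit 22578807246, nat_lit 19171505506, nat_lit 19736842992, nat_lit 21998749670, nat_lit 22471291598], nat_lit 1271250, nat_lit 1271250, nat_lit 780000, nat_lit 1762500, nat_lit 0, nat_lit 1100001, [nat_lit 490000, nat_lit 1100000, nat_lit 1442500], [nat_lit 6, nat_lit 40, nat_lit 40, nat_lit 80, nat_lit 3, nat_lit 317, nat_lit 100, nat_lit 12]⟩, ⟨p079_k17, nat_lit 0, nat_lit 0, nat_lit 202, nat_lit 0, nat_lit 0, [nat_lit 1562500000, nat_lit 2460500000, nat_lit 2968000000], [], [nat_lit 5969994056, nat_lit 6736257160, nat_lit 6953467008, nat_lit 7489693372, nat_lit 8018633474, nat_lit 8233662957, nat_lit 8035832151, nat_lit 8342009609], nat_lit 0, nat_lit 0, nat_lit 0, nat_lit 0, nat_lit 0, nat_lit 0, [], [nat_lit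 46, nat_lit 40, nat_lit 40, nat_lit 80, nat_lit 41, nat_lit 456, nat_lit 225, nat_lit 12]⟩,
 ⟨nat_lit 3535, nat_lit 3873, ⟨.ofNat (nat_lit 370945), .ofNat (nat_lit 564520), .ofNat (nat_lit 414519), .ofNat (nat_lit 608101), .ofNat (nat_lit 374465), .ofNat (nat_lit 562760), .ofNat (nat_lit 418358), .ofNat (nat_lit 606659)⟩, ⟨.ofNat (nat_lit 0), .ofNat (nat_lit 304717), .ofNat (nat_lit 0), .ofNat (nat_lit 348304), .ofNat (nat_lit 0), .ofNat (nat_lit 305521), .ofNat (nat_lit 0), .ofNat (nat_lit 349427)⟩⟩, [⟨nat_lit 19, nat_lit 100, nat_lit 59, nat_lit 87, nat_lit 70497606⟩]⟩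
noncomputable def p079_l82 : Lf2 := ⟨nat_lit 0, nat_lit 10, [nat_lit 0, nat_lit 5, nat_lit 5, nat_lit 20], false, nat_lit 4, nat_lit 160, nat_lit 0, nat_lit 384, ⟨nat_lit 246, nat_lit 0, nat_lit 754, nat_lit 5, nat_lit 192, nat_lit 754, nat_lit 68, nat_lit 754, nat_lit 43350, nat_lit 266, nat_lit 3425, nat_lit 218, nat_lit 51963645, nat_lit 0, nat_lit 0, nat_lit 3323338, false, false⟩,
 nat_lit 0, nat_lit 3607, nat_lit 0, nat_lit 0, nat_lit 3029, nat_lit 2949, nat_lit 0, nat_lit 0, nat_lit 0, nat_lit 281, nat_lit 0, nat_lit 0, nat_lit 0, nat_lit 0, nat_lit 67, nat_lit 746800, nat_lit 0, nat_lit 0, [(nat_lit 21, [(nat_lit 5, nat_lit 12), (nat_lit 6, nat_lit 742)])],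
 ⟨p079_k26, nat_lit 0, nat_lit 0, nat_lit 323, nat_lit 0, nat_lit 626963, [nat_lit 1609742401, nat_lit 163876799], [], [nat_lit 19141845571, nat_lit 19891063663, nat_lit 22285418947, nat_lit 23044093160, nat_lit 20141888595, nat_lit 20697832034, nat_lit 22876101914, nat_lit 23341615886], nat_lit 1271250, nat_lit 1271250, nat_lit 780000, nat_lit 1762500, nat_lit 21650, nat_lit 1100001, [nat_lit 490000, nat_lit 1100000], [nat_lit 24, nat_lit 40, nat_lit 40, nat_lit 80, nat_lit 33, nat_lit 317, nat_lit 100, nat_lit 14]⟩, ⟨p079_k17, nat_lit 0, nat_lit 0, nat_lit 192, nat_lit 0, nat_lit 0, [nat_lit 1537500000, nat_lit 2421132000, nat_lit 2920512000], [], [nat_lit 6202537912, nat_lit 6563472664, nat_lit 7158690688, nat_lit 7413534946, nat_lit 7972263338, nat_lit 8044758761, nat_lit 7829192201, nat_lit 7883834248], nat_lit 0, nat_lit 0, nat_lit 0, nat_lit 0, nat_lit 0, nat_lit 0, [], [nat_lit 46, nat_lit 40, nat_lit 40,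 nat_lit 80, nat_lit 41, nat_lit 456, nat_lit 225, nat_lit 12]⟩,
 ⟨nat_lit 3162, nat_lit 3536, ⟨.ofNat (nat_lit 374456), .ofNat (nat_lit 562760), .ofNat (nat_lit 396400), .ofNat (nat_lit 584713), .ofNat (nat_lit 378072), .ofNat (nat_lit 560952), .ofNat (nat_lit 400219), .ofNat (nat_lit 583107)⟩, ⟨.ofNat (nat_lit 10000), .ofNat (nat_lit 305521), .ofNat (nat_lit 10000), .ofNat (nat_lit 349427), .ofNat (nat_lit 10000), .ofNat (nat_lit 306116), .ofNat (nat_lit 10000), .ofNat (nat_lit 350426)⟩⟩, [⟨nat_lit 7, nat_lit 54, nat_lit 100, nat_lit 87, nat_lit 63769664⟩]⟩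
noncomputable def p079_l83 : Lf2 := ⟨nat_lit 0, nat_lit 10, [nat_lit 0, nat_lit 5, nat_lit 5, nat_lit 20], false, nat_lit 4, nat_lit 160, nat_lit 0, nat_lit 376, ⟨nat_lit 405, nat_lit 0, nat_lit 595, nat_lit 5, nat_lit 201, nat_lit 595, nat_lit 68, nat_lit 595, nat_lit 43350, nat_lit 266, nat_lit 2736, nat_lit 210, nat_lit 51081237, nat_lit 0, nat_lit 0, nat_lit 3415841, false, false⟩,
 nat_lit 0, nat_lit 4096, nat_lit 0, nat_lit 0, nat_lit 3440, nat_lit 4610, nat_lit 0, nat_lit 0, nat_lit 0, nat_lit 600, nat_lit 0, nat_lit 0, nat_lit 0, nat_lit 0, nat_lit 0, nat_lit 595000, nat_lit 0, nat_lit 0, [(nat_lit 21, [(nat_lit 6, nat_lit 595)])],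
 ⟨p079_k26, nat_lit 0, nat_lit 0, nat_lit 340, nat_lit 0, nat_lit 689084, [nat_lit 1273732001, nat_lit 226579999], [], [nat_lit 19683069261, nat_lit 20707846265, nat_lit 23005049530, nat_lit 23832719384, nat_lit 19867175046, nat_lit 20456118086, nat_lit 22602214886, nat_lit 23092416806], nat_lit 1271250, nat_lit 1271250, nat_lit 780000, nat_lit 1762500, nat_lit 21650, nat_lit 1100001, [nat_lit 490000, nat_lit 1100000], [nat_lit 24, nat_lit 40, nat_lit 40, nat_lit 80, nat_lit 33, nat_lit 317, nat_lit 100, nat_lit 14]⟩, ⟨p079_k20, nat_lit 0, nat_lit 0, nat_lit 202, nat_lit 0, nat_lit 0, [nat_lit 2531250000, nat_lit 3986010000, nat_lit 4808160000], [], [nat_lit 9441762680, nat_lit 10018591080, nat_lit 10836387080, nat_lit 11246227160, nat_lit 11986267687, nat_lit 12178924376, nat_lit 12327373236, nat_lit 12591574438], nat_lit 0, nat_lit 0, nat_lit 0, nat_lit 0, nat_lit 0, nat_lit 0, [], [nat_lit 46, nat_lit 40, nat_lit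 40, nat_lit 80, nat_lit 41, nat_lit 456, nat_lit 225, nat_lit 12]⟩,
 ⟨nat_lit 3162, nat_lit 3536, ⟨.ofNat (nat_lit 396400), .ofNat (nat_lit 584713), .ofNat (nat_lit 418344), .ofNat (nat_lit 606660), .ofNat (nat_lit 400219), .ofNat (nat_lit 583107), .ofNat (nat_lit 422365), .ofNat (nat_lit 605256)⟩, ⟨.ofNat (nat_lit 10000), .ofNat (nat_lit 305521), .ofNat (nat_lit 10000), .ofNat (nat_lit 349427), .ofNat (nat_lit 10000), .ofNat (nat_lit 306116), .ofNat (nat_lit 10000), .ofNat (nat_lit 350426)⟩⟩, [⟨nat_lit 19, nat_lit 100, nat_lit 63, nat_lit 88, nat_lit 124271497⟩]⟩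
noncomputable def b_V_800_500_20_4 : St := ⟨true, nat_lit 1, nat_lit 0, nat_lit 1, nat_lit 120, nat_lit 320, nat_lit 360, nat_lit 200, nat_lit 240, nat_lit 40, nat_lit 240, nat_lit 80, nat_lit 120, nat_lit 0, nat_lit 160, nat_lit 0, nat_lit 384, nat_lit 0, nat_lit 40, nat_lit 0, nat_lit 0, nat_lit 0, nat_lit 0⟩
theorem d_V_800_500_20_4 (h : EB TB.env) : Dead b_V_800_500_20_4 := chkB_sound0 h (T :=
(.spl (nat_lit 2) (nat_lit 120)
(.spl (nat_lit 0) (nat_lit 340)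
(.spl (nat_lit 0) (nat_lit 330)
(.leaf p079_l75)
(.trZ (nat_lit 0) (nat_lit 100) (nat_lit 76) (nat_lit 65) (nat_lit 48) (.leaf p079_l76)))
(.trZ (nat_lit 0) (nat_lit 100) (nat_lit 71) (nat_lit 70) (nat_lit 56) (.spl (nat_lit 0) (nat_lit 350)
(.leaf p079_l77)
(.trZ (nat_lit 0) (nat_lit 100) (nat_lit 66) (nat_lit 75) (nat_lit 64) (.trZ (nat_lit 3) (nat_lit 100) (nat_lit 83) (nat_lit 25) (nat_lit 4) (.leaf p079_l78))))))
(.spl (nat_lit 0) (nat_lit 340)
(.spl (nat_lit 0) (nat_lit 330)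
(.leaf p079_l79)
(.leaf p079_l80))
(.spl (nat_lit 0) (nat_lit 350)
(.leaf p079_l81)
(.trZ (nat_lit 3) (nat_lit 100) (nat_lit 83) (nat_lit 25) (nat_lit 4) (.spl (nat_lit 1) (nat_lit 220)
(.leaf p079_l82)
(.trX (nat_lit 19) (nat_lit 100) (nat_lit 49) (nat_lit 92) (nat_lit 376) (.leaf p079_l83)))))))) (by decide +kernel)
noncomputable def p079_l84 : Lf2 := ⟨nat_lit 0, nat_lit 10, [nat_lit 0, nat_lit 5, nat_lit 5, nat_lit 20], true, nat_lit 160, nat_lit 300, nat_lit 0, nat_lit 384, ⟨nat_lit 0, nat_lit 227, nat_lit 773, nat_lit 5, nat_lit 116, nat_lit 1000, nat_lit 177, nat_lit 773, nat_lit 1169, nat_lit 218, nat_lit 126150, nat_lit 302, nat_lit 50430695, nat_lit 5671030, nat_lit 10898275, nat_lit 3829800, false, false⟩,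
 nat_lit 0, nat_lit 4017, nat_lit 0, nat_lit 0, nat_lit 3012, nat_lit 0, nat_lit 144, nat_lit 0, nat_lit 0, nat_lit 0, nat_lit 0, nat_lit 0, nat_lit 0, nat_lit 0, nat_lit 36, nat_lit 400000, nat_lit 0, nat_lit 0, [(nat_lit 18, [(nat_lit 1, nat_lit 227), (nat_lit 5, nat_lit 773)])],
 ⟨p079_k15, nat_lit 0, nat_lit 0, nat_lit 235, nat_lit 0, nat_lit 380256, [nat_lit 1323338667, nat_lit 702411334, nat_lit 1582000], [], [nat_lit 17373960972, nat_lit 17977991042, nat_lit 16941325570, nat_lit 18029553098, nat_lit 21874111632, nat_lit 23203115386, nat_lit 21431336480, nat_lit 22716903358], nat_lit 1271250, nat_lit 1271250, nat_lit 230001, nat_lit 490000, nat_lit 1100001, nat_lit 2298750, [nat_lit 490000, nat_lit 1100000, nat_lit 1442500], [nat_lit 6, nat_lit 40, nat_lit 40, nat_lit 80, nat_lit 3, nat_lit 317, nat_lit 100, nat_lit 12]⟩, C1.Rw.none,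
 ⟨nat_lit 3872, nat_lit 4473, ⟨.ofNat (nat_lit 228056), .ofNat (nat_lit 296041), .ofNat (nat_lit 271153), .ofNat (nat_lit 339140), .ofNat (nat_lit 241882), .ofNat (nat_lit 306411), .ofNat (nat_lit 285433), .ofNat (nat_lit 349963)⟩, ⟨.ofNat (nat_lit 302621), .ofNat (nat_lit 540545), .ofNat (nat_lit 345754), .ofNat (nat_lit 583678), .ofNat (nat_lit 304717), .ofNat (nat_lit 530543), .ofNat (nat_lit 348304), .ofNat (nat_lit 574129)⟩⟩, [⟨nat_lit 0, nat_lit 100, nat_lit 76, nat_lit 73, nat_lit 181677345⟩, ⟨nat_lit 16, nat_lit 87, nat_lit 95, nat_lit 100, nat_lit 187756042⟩]⟩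
noncomputable def p079_l85 : Lf2 := ⟨nat_lit 0, nat_lit 10, [nat_lit 0, nat_lit 5, nat_lit 5, nat_lit 20], true, nat_lit 160, nat_lit 240, nat_lit 0, nat_lit 384, ⟨nat_lit 0, nat_lit 0, nat_lit 1000, nat_lit 5, nat_lit 156, nat_lit 1000, nat_lit 157, nat_lit 1000, nat_lit 67907, nat_lit 278, nat_lit 70417, nat_lit 280, nat_lit 49148141, nat_lit 0, nat_lit 0, nat_lit 4095412, false, false⟩,
 nat_lit 0, nat_lit 4055, nat_lit 0, nat_lit 0, nat_lit 3040, nat_lit 0, nat_lit 0, nat_lit 0, nat_lit 0, nat_lit 0, nat_lit 0, nat_lit 0, nat_lit 0, nat_lit 0, nat_lit 196, nat_lit 1000000, nat_lit 0, nat_lit 0, [(nat_lit 18, [(nat_lit 6, nat_lit 1000)])],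
 ⟨p079_k27, nat_lit 0, nat_lit 0, nat_lit 270, nat_lit 0, nat_lit 599634, [nat_lit 2430000000, nat_lit 2647466667, nat_lit 354133333], [], [nat_lit 15923610400, nat_lit 17173782720, nat_lit 17292024640, nat_lit 18421669840, nat_lit 18497964640, nat_lit 19714888880, nat_lit 19624768320, nat_lit 20618913040], nat_lit 1271250, nat_lit 1271250, nat_lit 490000, nat_lit 1100001, nat_lit 1100001, nat_lit 1785000, [nat_lit 490000, nat_lit 780000, nat_lit 1435000], [nat_lit 85, nat_lit 40, nat_lit 40, nat_lit 80, nat_lit 16, nat_lit 317, nat_lit 100, nat_lit 11]⟩, C1.Rw.none,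
 ⟨nat_lit 3872, nat_lit 4473, ⟨.ofNat (nat_lit 296041), .ofNat (nat_lit 432013), .ofNat (nat_lit 339140), .ofNat (nat_lit 475111), .ofNat (nat_lit 306411), .ofNat (nat_lit 435470), .ofNat (nat_lit 349963), .ofNat (nat_lit 479021)⟩, ⟨.ofNat (nat_lit 302621), .ofNat (nat_lit 438578), .ofNat (nat_lit 345754), .ofNat (nat_lit 481711), .ofNat (nat_lit 304717), .ofNat (nat_lit 433760), .ofNat (nat_lit 348304), .ofNat (nat_lit 477347)⟩⟩, [⟨nat_lit 4, nat_lit 100, nat_lit 81, nat_lit 92, nat_lit 179688455⟩]⟩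
noncomputable def p079_l86 : Lf2 := ⟨nat_lit 0, nat_lit 10, [nat_lit 0, nat_lit 5, nat_lit 5, nat_lit 20], true, nat_lit 240, nat_lit 280, nat_lit 0, nat_lit 376, ⟨nat_lit 0, nat_lit 0, nat_lit 1000, nat_lit 5, nat_lit 155, nat_lit 1000, nat_lit 193, nat_lit 1000, nat_lit 17368, nat_lit 244, nat_lit 74817, nat_lit 282, nat_lit 46259924, nat_lit 0, nat_lit 0, nat_lit 4448153, false, false⟩,
 nat_lit 0, nat_lit 3855, nat_lit 0, nat_lit 0, nat_lit 2891, nat_lit 0, nat_lit 0, nat_lit 0, nat_lit 0, nat_lit 0, nat_lit 0, nat_lit 0, nat_lit 0, nat_lit 0, nat_lit 76, nat_lit 400000, nat_lit 0, nat_lit 0, [(nat_lit 18, [(nat_lit 5, nat_lit 1000)])],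
 ⟨p079_k15, nat_lit 0, nat_lit 0, nat_lit 239, nat_lit 0, nat_lit 486025, [nat_lit 1536800000, nat_lit 802000001, nat_lit 14800000], [], [nat_lit 18673404020, nat_lit 19245298578, nat_lit 19844307368, nat_lit 20363175168, nat_lit 20403743534, nat_lit 20932632710, nat_lit 21419566592, nat_lit 21900756303], nat_lit 1271250, nat_lit 1271250, nat_lit 490000, nat_lit 1100001, nat_lit 1271250, nat_lit 1271250, [nat_lit 490000, nat_lit 1100000, nat_lit 1442500], [nat_lit 6, nat_lit 40, nat_lit 40, nat_lit 80, nat_lit 3, nat_lit 249, nat_lit 40, nat_lit 8]⟩, C1.Rw.none,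
 ⟨nat_lit 4183, nat_lit 4473, ⟨.ofNat (nat_lit 296062), .ofNat (nat_lit 432020), .ofNat (nat_lit 339187), .ofNat (nat_lit 475145), .ofNat (nat_lit 301229), .ofNat (nat_lit 433742), .ofNat (nat_lit 344555), .ofNat (nat_lit 477068)⟩, ⟨.ofNat (nat_lit 438578), .ofNat (nat_lit 506556), .ofNat (nat_lit 460144), .ofNat (nat_lit 528122), .ofNat (nat_lit 436254), .ofNat (nat_lit 502509), .ofNat (nat_lit 457921), .ofNat (nat_lit 524176)⟩⟩, [⟨nat_lit 4, nat_lit 100, nat_lit 82, nat_lit 88, nat_lit 298603806⟩]⟩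
noncomputable def p079_l87 : Lf2 := ⟨nat_lit 0, nat_lit 10, [nat_lit 0, nat_lit 5, nat_lit 5, nat_lit 20], true, nat_lit 240, nat_lit 268, nat_lit 0, nat_lit 376, ⟨nat_lit 0, nat_lit 0, nat_lit 1000, nat_lit 5, nat_lit 156, nat_lit 1000, nat_lit 188, nat_lit 1000, nat_lit 34885, nat_lit 259, nat_lit 70417, nat_lit 280, nat_lit 46586353, nat_lit 0, nat_lit 0, nat_lit 4416435, false, false⟩,
 nat_lit 0, nat_lit 3877, nat_lit 0, nat_lit 0, nat_lit 3022, nat_lit 0, nat_lit 0, nat_lit 0, nat_lit 0, nat_lit 0, nat_lit 0, nat_lit 0, nat_lit 0, nat_lit 0, nat_lit 76, nat_lit 400000, nat_lit 0, nat_lit 0, [(nat_lit 18, [(nat_lit 5, nat_lit 1000)])],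
 ⟨p079_k18, nat_lit 0, nat_lit 0, nat_lit 263, nat_lit 0, nat_lit 551756, [nat_lit 1536800000, nat_lit 802000001, nat_lit 14800000], [], [nat_lit 19433312712, nat_lit 19979735872, nat_lit 20512894074, nat_lit 21008773772, nat_lit 20565234479, nat_lit 21113980053, nat_lit 21543376107, nat_lit 22014462757], nat_lit 1271250, nat_lit 1271250, nat_lit 490000, nat_lit 1100001, nat_lit 1271250, nat_lit 1271250, [nat_lit 490000, nat_lit 1100000, nat_lit 1442500], [nat_lit 6, nat_lit 40, nat_lit 40, nat_lit 80, nat_lit 3, nat_lit 249, nat_lit 40, nat_lit 8]⟩, C1.Rw.none,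
 ⟨nat_lit 3872, nat_lit 4184, ⟨.ofNat (nat_lit 301224), .ofNat (nat_lit 433741), .ofNat (nat_lit 344547), .ofNat (nat_lit 477065), .ofNat (nat_lit 306426), .ofNat (nat_lit 435475), .ofNat (nat_lit 350002), .ofNat (nat_lit 479052)⟩, ⟨.ofNat (nat_lit 436254), .ofNat (nat_lit 482633), .ofNat (nat_lit 457921), .ofNat (nat_lit 504299), .ofNat (nat_lit 433760), .ofNat (nat_lit 478926), .ofNat (nat_lit 455554), .ofNat (nat_lit 500719)⟩⟩, [⟨nat_lit 4, nat_lit 100, nat_lit 76, nat_lit 86, nat_lit 304258403⟩]⟩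
noncomputable def p079_l88 : Lf2 := ⟨nat_lit 0, nat_lit 5, [nat_lit 4, nat_lit 5, nat_lit 5, nat_lit 20], true, nat_lit 240, nat_lit 300, nat_lit 0, nat_lit 384, ⟨nat_lit 0, nat_lit 255, nat_lit 745, nat_lit 5, nat_lit 155, nat_lit 1000, nat_lit 208, nat_lit 745, nat_lit 1169, nat_lit 218, nat_lit 80894, nat_lit 284, nat_lit 44981573, nat_lit 8464209, nat_lit 13554218, nat_lit 4574243, false, false⟩,
 nat_lit 0, nat_lit 3715, nat_lit 0, nat_lit 0, nat_lit 2786, nat_lit 0, nat_lit 0, nat_lit 0, nat_lit 0, nat_lit 0, nat_lit 0, nat_lit 0, nat_lit 0, nat_lit 0, nat_lit 121, nat_lit 847000, nat_lit 0, nat_lit 0, [(nat_lit 18, [(nat_lit 1, nat_lit 255), (nat_lit 6, nat_lit 745)])],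
 ⟨p079_k28, nat_lit 0, nat_lit 0, nat_lit 177, nat_lit 0, nat_lit 337449, [nat_lit 1955970001, nat_lit 2118134667, nat_lit 277441333], [], [nat_lit 18806180215, nat_lit 19080121893, nat_lit 19919447311, nat_lit 20168393958, nat_lit 21295798051, nat_lit 21545862368, nat_lit 22231675985, nat_lit 22473314671], nat_lit 1271250, nat_lit 1271250, nat_lit 490000, nat_lit 1100001, nat_lit 1271250, nat_lit 1271250, [nat_lit 490000, nat_lit 780000, nat_lit 1435000], [nat_lit 85, nat_lit 40, nat_lit 40, nat_lit 80, nat_lit 16, nat_lit 249, nat_lit 40, nat_lit 8]⟩, C1.Rw.none,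
 ⟨nat_lit 4330, nat_lit 4473, ⟨.ofNat (nat_lit 296064), .ofNat (nat_lit 432020), .ofNat (nat_lit 339195), .ofNat (nat_lit 475152), .ofNat (nat_lit 298645), .ofNat (nat_lit 432881), .ofNat (nat_lit 341871), .ofNat (nat_lit 476107)⟩, ⟨.ofNat (nat_lit 460144), .ofNat (nat_lit 562111), .ofNat (nat_lit 481711), .ofNat (nat_lit 583678), .ofNat (nat_lit 459048), .ofNat (nat_lit 559724), .ofNat (nat_lit 480662), .ofNat (nat_lit 581338)⟩⟩, [⟨nat_lit 16, nat_lit 87, nat_lit 95, nat_lit 100, nat_lit 249730445⟩]⟩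
noncomputable def p079_l89 : Lf2 := ⟨nat_lit 0, nat_lit 5, [nat_lit 4, nat_lit 5, nat_lit 5, nat_lit 20], true, nat_lit 240, nat_lit 296, nat_lit 0, nat_lit 384, ⟨nat_lit 0, nat_lit 559, nat_lit 441, nat_lit 5, nat_lit 155, nat_lit 1000, nat_lit 207, nat_lit 441, nat_lit 4420, nat_lit 222, nat_lit 77775, nat_lit 283, nat_lit 45099835, nat_lit 8523872, nat_lit 13376293, nat_lit 4565259, false, false⟩,
 nat_lit 0, nat_lit 3975, nat_lit 0, nat_lit 0, nat_lit 3039, nat_lit 0, nat_lit 964, nat_lit 0, nat_lit 0, nat_lit 0, nat_lit 0, nat_lit 0, nat_lit 0, nat_lit 0, nat_lit 0, nat_lit 400000, nat_lit 0, nat_lit 0, [(nat_lit 18, [(nat_lit 1, nat_lit 559), (nat_lit 5, nat_lit 441)])],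
 ⟨p079_k29, nat_lit 0, nat_lit 0, nat_lit 165, nat_lit 0, nat_lit 355215, [nat_lit 1191157334, nat_lit 891001422], [], [nat_lit 19383346105, nat_lit 19536812773, nat_lit 20288606840, nat_lit 20428142299, nat_lit 21594648576, nat_lit 21760957788, nat_lit 22471936799, nat_lit 22623134846], nat_lit 1271250, nat_lit 1271250, nat_lit 490000, nat_lit 1100001, nat_lit 1271250, nat_lit 1271250, [nat_lit 490000, nat_lit 1100000], [nat_lit 24, nat_lit 40, nat_lit 40, nat_lit 80, nat_lit 33, nat_lit 249, nat_lit 40, nat_lit 10]⟩, C1.Rw.none,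
 ⟨nat_lit 4242, nat_lit 4331, ⟨.ofNat (nat_lit 298645), .ofNat (nat_lit 432881), .ofNat (nat_lit 341872), .ofNat (nat_lit 476108), .ofNat (nat_lit 300196), .ofNat (nat_lit 433398), .ofNat (nat_lit 343485), .ofNat (nat_lit 476687)⟩, ⟨.ofNat (nat_lit 459048), .ofNat (nat_lit 553013), .ofNat (nat_lit 480662), .ofNat (nat_lit 574626), .ofNat (nat_lit 458376), .ofNat (nat_lit 551616), .ofNat (nat_lit 480020), .ofNat (nat_lit 573261)⟩⟩, [⟨nat_lit 16, nat_lit 85, nat_lit 97, nat_lit 100, nat_lit 225482926⟩]⟩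
noncomputable def p079_l90 : Lf2 := ⟨nat_lit 0, nat_lit 5, [nat_lit 4, nat_lit 5, nat_lit 5, nat_lit 20], true, nat_lit 240, nat_lit 292, nat_lit 0, nat_lit 384, ⟨nat_lit 0, nat_lit 831, nat_lit 169, nat_lit 5, nat_lit 156, nat_lit 1000, nat_lit 205, nat_lit 169, nat_lit 3603, nat_lit 225, nat_lit 74817, nat_lit 282, nat_lit 45213855, nat_lit 8565135, nat_lit 13221010, nat_lit 4555671, false, false⟩,
 nat_lit 0, nat_lit 4139, nat_lit 0, nat_lit 0, nat_lit 3201, nat_lit 0, nat_lit 1085, nat_lit 0, nat_lit 0, nat_lit 0, nat_lit 0, nat_lit 0, nat_lit 0, nat_lit 0, nat_lit 0, nat_lit 400000, nat_lit 0, nat_lit 0, [(nat_lit 18, [(nat_lit 1, nat_lit 831), (nat_lit 5, nat_lit 169)])],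
 ⟨p079_k30, nat_lit 0, nat_lit 0, nat_lit 167, nat_lit 0, nat_lit 367131, [nat_lit 1318816001, nat_lit 1552233599], [], [nat_lit 19647319959, nat_lit 19751844703, nat_lit 20499506657, nat_lit 20594421289, nat_lit 21719076281, nat_lit 21831950136, nat_lit 22553705558, nat_lit 22657528079], nat_lit 1271250, nat_lit 1271250, nat_lit 490000, nat_lit 1100001, nat_lit 1271250, nat_lit 1271250, [nat_lit 490000, nat_lit 1100000], [nat_lit 24, nat_lit 40, nat_lit 40, nat_lit 80, nat_lit 33, nat_lit 249, nat_lit 40, nat_lit 10]⟩, C1.Rw.none,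
 ⟨nat_lit 4183, nat_lit 4243, ⟨.ofNat (nat_lit 300196), .ofNat (nat_lit 433398), .ofNat (nat_lit 343486), .ofNat (nat_lit 476687), .ofNat (nat_lit 301231), .ofNat (nat_lit 433743), .ofNat (nat_lit 344565), .ofNat (nat_lit 477076)⟩, ⟨.ofNat (nat_lit 458376), .ofNat (nat_lit 544956), .ofNat (nat_lit 480020), .ofNat (nat_lit 566601), .ofNat (nat_lit 457921), .ofNat (nat_lit 544053), .ofNat (nat_lit 479587), .ofNat (nat_lit 565720)⟩⟩, [⟨nat_lit 16, nat_lit 84, nat_lit 98, nat_lit 100, nat_lit 215766409⟩]⟩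
noncomputable def p079_l91 : Lf2 := ⟨nat_lit 0, nat_lit 5, [nat_lit 4, nat_lit 5, nat_lit 5, nat_lit 20], true, nat_lit 240, nat_lit 288, nat_lit 0, nat_lit 352, ⟨nat_lit 0, nat_lit 513, nat_lit 487, nat_lit 5, nat_lit 137, nat_lit 1000, nat_lit 203, nat_lit 487, nat_lit 3485, nat_lit 228, nat_lit 176817, nat_lit 318, nat_lit 46673934, nat_lit 7122225, nat_lit 13203841, nat_lit 4337033, false, false⟩,
 nat_lit 0, nat_lit 3868, nat_lit 0, nat_lit 0, nat_lit 3015, nat_lit 0, nat_lit 420, nat_lit 0, nat_lit 0, nat_lit 0, nat_lit 0, nat_lit 0, nat_lit 0, nat_lit 0, nat_lit 0, nat_lit 400000, nat_lit 0, nat_lit 0, [(nat_lit 18, [(nat_lit 1, nat_lit 513), (nat_lit 5, nat_lit 487)])],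
 ⟨p079_k24, nat_lit 0, nat_lit 0, nat_lit 137, nat_lit 0, nat_lit 282474, [nat_lit 1169568001, nat_lit 781934400], [], [nat_lit 19572378611, nat_lit 20082294441, nat_lit 19727746531, nat_lit 20226667171, nat_lit 21481058725, nat_lit 22115505124, nat_lit 21627962262, nat_lit 22178073162], nat_lit 1271250, nat_lit 1271250, nat_lit 490000, nat_lit 631250, nat_lit 1271250, nat_lit 1271250, [nat_lit 490000, nat_lit 1100000], [nat_lit 24, nat_lit 40, nat_lit 40, nat_lit 80, nat_lit 33, nat_lit 232, nat_lit 25, nat_lit 9]⟩, C1.Rw.none,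
 ⟨nat_lit 3872, nat_lit 4184, ⟨.ofNat (nat_lit 301224), .ofNat (nat_lit 334353), .ofNat (nat_lit 344547), .ofNat (nat_lit 377677), .ofNat (nat_lit 306426), .ofNat (nat_lit 338688), .ofNat (nat_lit 350002), .ofNat (nat_lit 382265)⟩, ⟨.ofNat (nat_lit 457921), .ofNat (nat_lit 537427), .ofNat (nat_lit 479587), .ofNat (nat_lit 559094), .ofNat (nat_lit 455554), .ofNat (nat_lit 532980), .ofNat (nat_lit 477347), .ofNat (nat_lit 554773)⟩⟩, [⟨nat_lit 0, nat_lit 100, nat_lit 73, nat_lit 85, nat_lit 50370875⟩, ⟨nat_lit 16, nat_lit 83, nat_lit 98, nat_lit 100, nat_lit 233378208⟩]⟩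
noncomputable def p079_l92 : Lf2 := ⟨nat_lit 0, nat_lit 5, [nat_lit 4, nat_lit 5, nat_lit 5, nat_lit 20], true, nat_lit 240, nat_lit 288, nat_lit 0, nat_lit 364, ⟨nat_lit 0, nat_lit 0, nat_lit 1000, nat_lit 5, nat_lit 150, nat_lit 1000, nat_lit 203, nat_lit 1000, nat_lit 3485, nat_lit 228, nat_lit 209067, nat_lit 327, nat_lit 45782901, nat_lit 0, nat_lit 0, nat_lit 4479765, false, false⟩,
 nat_lit 0, nat_lit 3551, nat_lit 0, nat_lit 0, nat_lit 2768, nat_lit 0, nat_lit 0, nat_lit 0, nat_lit 0, nat_lit 0, nat_lit 0, nat_lit 0, nat_lit 0, nat_lit 0, nat_lit 103, nat_lit 1000000, nat_lit 0, nat_lit 0, [(nat_lit 18, [(nat_lit 6, nat_lit 1000)])],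
 ⟨p079_k31, nat_lit 0, nat_lit 0, nat_lit 189, nat_lit 0, nat_lit 451142, [nat_lit 1686000000, nat_lit 1146000000, nat_lit 230800000], [], [nat_lit 19490825804, nat_lit 20040004328, nat_lit 19709454864, nat_lit 20246340128, nat_lit 21447053636, nat_lit 21947642053, nat_lit 21624747154, nat_lit 22114552036], nat_lit 1271250, nat_lit 1271250, nat_lit 631250, nat_lit 780000, nat_lit 1271250, nat_lit 1271250, [nat_lit 490000, nat_lit 780000, nat_lit 1100000], [nat_lit 78, nat_lit 40, nat_lit 40, nat_lit 80, nat_lit 22, nat_lit 238, nat_lit 30, nat_lit 9]⟩, C1.Rw.none,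
 ⟨nat_lit 3872, nat_lit 4184, ⟨.ofNat (nat_lit 334353), .ofNat (nat_lit 367482), .ofNat (nat_lit 377677), .ofNat (nat_lit 410806), .ofNat (nat_lit 338688), .ofNat (nat_lit 370950), .ofNat (nat_lit 382265), .ofNat (nat_lit 414527)⟩, ⟨.ofNat (nat_lit 457921), .ofNat (nat_lit 537427), .ofNat (nat_lit 479587), .ofNat (nat_lit 559094), .ofNat (nat_lit 455554), .ofNat (nat_lit 532980), .ofNat (nat_lit 477347), .ofNat (nat_lit 554773)⟩⟩, [⟨nat_lit 16, nat_lit 79, nat_lit 100, nat_lit 96, nat_lit 300831548⟩]⟩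
noncomputable def p079_l93 : Lf2 := ⟨nat_lit 0, nat_lit 5, [nat_lit 4, nat_lit 5, nat_lit 5, nat_lit 20], true, nat_lit 240, nat_lit 288, nat_lit 0, nat_lit 384, ⟨nat_lit 0, nat_lit 1000, nat_lit 0, nat_lit 5, nat_lit 169, nat_lit 1000, nat_lit 203, nat_lit 0, nat_lit 0, nat_lit 0, nat_lit 0, nat_lit 0, nat_lit 44407324, nat_lit 9678633, nat_lit 12914043, nat_lit 4674685, false, false⟩,
 nat_lit 0, nat_lit 4327, nat_lit 0, nat_lit 0, nat_lit 3373, nat_lit 0, nat_lit 1155, nat_lit 0, nat_lit 0, nat_lit 0, nat_lit 0, nat_lit 0, nat_lit 0, nat_lit 0, nat_lit 0, nat_lit 400000, nat_lit 0, nat_lit 0, [(nat_lit 18, [(nat_lit 1, nat_lit 1000)])],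
 ⟨p079_k24, nat_lit 0, nat_lit 0, nat_lit 167, nat_lit 0, nat_lit 407015, [nat_lit 1398133334, nat_lit 1966666666], [], [nat_lit 19819194846, nat_lit 20093856385, nat_lit 20421671551, nat_lit 20688859104, nat_lit 21858238612, nat_lit 22140439371, nat_lit 22422831572, nat_lit 22690445294], nat_lit 1271250, nat_lit 1271250, nat_lit 780000, nat_lit 1100001, nat_lit 1271250, nat_lit 1271250, [nat_lit 490000, nat_lit 1100000], [nat_lit 24, nat_lit 40, nat_lit 40, nat_lit 80, nat_lit 33, nat_lit 249, nat_lit 40, nat_lit 10]⟩, C1.Rw.none,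
 ⟨nat_lit 4031, nat_lit 4184, ⟨.ofNat (nat_lit 367486), .ofNat (nat_lit 433742), .ofNat (nat_lit 410818), .ofNat (nat_lit 477074), .ofNat (nat_lit 369216), .ofNat (nat_lit 434607), .ofNat (nat_lit 412667), .ofNat (nat_lit 478058)⟩, ⟨.ofNat (nat_lit 457921), .ofNat (nat_lit 537427), .ofNat (nat_lit 479587), .ofNat (nat_lit 559094), .ofNat (nat_lit 456758), .ofNat (nat_lit 535227), .ofNat (nat_lit 478484), .ofNat (nat_lit 556953)⟩⟩, [⟨nat_lit 16, nat_lit 83, nat_lit 98, nat_lit 100, nat_lit 227861077⟩]⟩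
noncomputable def p079_l94 : Lf2 := ⟨nat_lit 0, nat_lit 5, [nat_lit 4, nat_lit 5, nat_lit 5, nat_lit 20], true, nat_lit 240, nat_lit 284, nat_lit 0, nat_lit 384, ⟨nat_lit 0, nat_lit 1000, nat_lit 0, nat_lit 5, nat_lit 170, nat_lit 1000, nat_lit 201, nat_lit 0, nat_lit 0, nat_lit 0, nat_lit 0, nat_lit 0, nat_lit 44525466, nat_lit 9741239, nat_lit 12733295, nat_lit 4664291, false, false⟩,
 nat_lit 0, nat_lit 4437, nat_lit 0, nat_lit 0, nat_lit 3525, nat_lit 0, nat_lit 763, nat_lit 0, nat_lit 0, nat_lit 0, nat_lit 0, nat_lit 0, nat_lit 0, nat_lit 0, nat_lit 0, nat_lit 400000, nat_lit 0, nat_lit 0, [(nat_lit 18, [(nat_lit 1, nat_lit 1000)])],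
 ⟨p079_k32, nat_lit 0, nat_lit 0, nat_lit 176, nat_lit 0, nat_lit 439768, [nat_lit 1398133334, nat_lit 1966666666], [], [nat_lit 20305617656, nat_lit 20575337943, nat_lit 20877331156, nat_lit 21159317536, nat_lit 22110102647, nat_lit 22382923392, nat_lit 22652685973, nat_lit 22911376499], nat_lit 1271250, nat_lit 1271250, nat_lit 780000, nat_lit 1100001, nat_lit 1271250, nat_lit 1271250, [nat_lit 490000, nat_lit 1100000], [nat_lit 24, nat_lit 40, nat_lit 40, nat_lit 80, nat_lit 33, nat_lit 249, nat_lit 40, nat_lit 10]⟩, C1.Rw.none,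
 ⟨nat_lit 3872, nat_lit 4032, ⟨.ofNat (nat_lit 369216), .ofNat (nat_lit 434607), .ofNat (nat_lit 412666), .ofNat (nat_lit 478058), .ofNat (nat_lit 370954), .ofNat (nat_lit 435476), .ofNat (nat_lit 414539), .ofNat (nat_lit 479061)⟩, ⟨.ofNat (nat_lit 456758), .ofNat (nat_lit 528687), .ofNat (nat_lit 478484), .ofNat (nat_lit 550414), .ofNat (nat_lit 455554), .ofNat (nat_lit 526527), .ofNat (nat_lit 477347), .ofNat (nat_lit 548321)⟩⟩, [⟨nat_lit 16, nat_lit 81, nat_lit 100, nat_lit 100, nat_lit 226863351⟩]⟩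
noncomputable def p079_l95 : Lf2 := ⟨nat_lit 0, nat_lit 10, [nat_lit 0, nat_lit 5, nat_lit 5, nat_lit 20], true, nat_lit 240, nat_lit 300, nat_lit 0, nat_lit 384, ⟨nat_lit 0, nat_lit 140, nat_lit 860, nat_lit 5, nat_lit 156, nat_lit 1000, nat_lit 207, nat_lit 860, nat_lit 1169, nat_lit 218, nat_lit 70417, nat_lit 280, nat_lit 44998024, nat_lit 8556458, nat_lit 13445518, nat_lit 4576667, false, false⟩,
 nat_lit 0, nat_lit 3682, nat_lit 0, nat_lit 476, nat_lit 2761, nat_lit 0, nat_lit 0, nat_lit 0, nat_lit 0, nat_lit 0, nat_lit 0, nat_lit 0, nat_lit 0, nat_lit 0, nat_lit 47, nat_lit 379000, nat_lit 0, nat_lit 0, [(nat_lit 18, [(nat_lit 0, nat_lit 140), (nat_lit 5, nat_lit 860)])],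
 ⟨p079_k27, nat_lit 0, nat_lit 0, nat_lit 141, nat_lit 0, nat_lit 218177, [nat_lit 1389360000, nat_lit 1136560001, nat_lit 141999999], [], [nat_lit 19073735039, nat_lit 20094804797, nat_lit 20080978415, nat_lit 21011010807, nat_lit 21394562898, nat_lit 22451445959, nat_lit 22352528807, nat_lit 23315834336], nat_lit 1271250, nat_lit 1271250, nat_lit 490000, nat_lit 1100001, nat_lit 1271250, nat_lit 1271250, [nat_lit 490000, nat_lit 780000, nat_lit 1435000], [nat_lit 85, nat_lit 40, nat_lit 40, nat_lit 80, nat_lit 16, nat_lit 249, nat_lit 40, nat_lit 8]⟩, C1.Rw.none,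
 ⟨nat_lit 3872, nat_lit 4473, ⟨.ofNat (nat_lit 296041), .ofNat (nat_lit 432013), .ofNat (nat_lit 339140), .ofNat (nat_lit 475111), .ofNat (nat_lit 306411), .ofNat (nat_lit 435470), .ofNat (nat_lit 349963), .ofNat (nat_lit 479021)⟩, ⟨.ofNat (nat_lit 460144), .ofNat (nat_lit 562111), .ofNat (nat_lit 481711), .ofNat (nat_lit 583678), .ofNat (nat_lit 455554), .ofNat (nat_lit 552336), .ofNat (nat_lit 477347), .ofNat (nat_lit 574129)⟩⟩, [⟨nat_lit 4, nat_lit 100, nat_lit 82, nat_lit 97, nat_lit 262881642⟩]⟩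
noncomputable def p079_l96 : Lf2 := ⟨nat_lit 0, nat_lit 5, [nat_lit 4, nat_lit 5, nat_lit 5, nat_lit 20], true, nat_lit 160, nat_lit 276, nat_lit 0, nat_lit 384, ⟨nat_lit 0, nat_lit 0, nat_lit 1000, nat_lit 5, nat_lit 137, nat_lit 1000, nat_lit 168, nat_lit 1000, nat_lit 13749, nat_lit 240, nat_lit 176817, nat_lit 318, nat_lit 49666737, nat_lit 0, nat_lit 0, nat_lit 4001210, false, false⟩,
 nat_lit 0, nat_lit 3295, nat_lit 0, nat_lit 0, nat_lit 2667, nat_lit 0, nat_lit 0, nat_lit 0, nat_lit 0, nat_lit 0, nat_lit 0, nat_lit 0, nat_lit 0, nat_lit 0, nat_lit 186, nat_lit 1000000, nat_lit 0, nat_lit 0, [(nat_lit 21, [(nat_lit 6, nat_lit 1000)])],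
 ⟨p079_k33, nat_lit 0, nat_lit 0, nat_lit 250, nat_lit 0, nat_lit 568216, [nat_lit 2245600001, nat_lit 271999999], [], [nat_lit 17656704878, nat_lit 17958577018, nat_lit 18306618229, nat_lit 18588224305, nat_lit 21467399898, nat_lit 21715543707, nat_lit 21898272994, nat_lit 22130923792], nat_lit 1271250, nat_lit 1271250, nat_lit 330400, nat_lit 780000, nat_lit 1100001, nat_lit 2093250, [nat_lit 490000, nat_lit 1100000], [nat_lit 24, nat_lit 40, nat_lit 40, nat_lit 80, nat_lit 33, nat_lit 238, nat_lit 30, nat_lit 10]⟩, C1.Rw.none,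
 ⟨nat_lit 3708, nat_lit 3873, ⟨.ofNat (nat_lit 267717), .ofNat (nat_lit 370953), .ofNat (nat_lit 311301), .ofNat (nat_lit 414538), .ofNat (nat_lit 270870), .ofNat (nat_lit 372705), .ofNat (nat_lit 314603), .ofNat (nat_lit 416439)⟩, ⟨.ofNat (nat_lit 304717), .ofNat (nat_lit 491830), .ofNat (nat_lit 348304), .ofNat (nat_lit 535416), .ofNat (nat_lit 305143), .ofNat (nat_lit 489716), .ofNat (nat_lit 348879), .ofNat (nat_lit 533452)⟩⟩, [⟨nat_lit 0, nat_lit 100, nat_lit 70, nat_lit 87, nat_lit 55979023⟩, ⟨nat_lit 16, nat_lit 77, nat_lit 100, nat_lit 99, nat_lit 222432899⟩]⟩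
noncomputable def p079_l97 : Lf2 := ⟨nat_lit 0, nat_lit 5, [nat_lit 4, nat_lit 5, nat_lit 5, nat_lit 20], true, nat_lit 160, nat_lit 272, nat_lit 0, nat_lit 384, ⟨nat_lit 0, nat_lit 0, nat_lit 1000, nat_lit 5, nat_lit 139, nat_lit 1000, nat_lit 166, nat_lit 1000, nat_lit 14845, nat_lit 244, nat_lit 180267, nat_lit 319, nat_lit 49629249, nat_lit 0, nat_lit 0, nat_lit 4011428, false, false⟩,
 nat_lit 0, nat_lit 3234, nat_lit 0, nat_lit 0, nat_lit 2667, nat_lit 0, nat_lit 0, nat_lit 0, nat_lit 0, nat_lit 0, nat_lit 0, nat_lit 0, nat_lit 0, nat_lit 0, nat_lit 186, nat_lit 1000000, nat_lit 0, nat_lit 0, [(nat_lit 21, [(nat_lit 6, nat_lit 1000)])],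
 ⟨p079_k34, nat_lit 0, nat_lit 0, nat_lit 257, nat_lit 0, nat_lit 597496, [nat_lit 2245600001, nat_lit 271999999], [], [nat_lit 17977838716, nat_lit 18278543298, nat_lit 18588224305, nat_lit 18869830381, nat_lit 21570775518, nat_lit 21819935483, nat_lit 21986805228, nat_lit 22221198679], nat_lit 1271250, nat_lit 1271250, nat_lit 356250, nat_lit 780000, nat_lit 1100001, nat_lit 2059000, [nat_lit 490000, nat_lit 1100000], [nat_lit 24, nat_lit 40, nat_lit 40, nat_lit 80, nat_lit 33, nat_lit 238, nat_lit 30, nat_lit 10]⟩, C1.Rw.none,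
 ⟨nat_lit 3535, nat_lit 3709, ⟨.ofNat (nat_lit 277233), .ofNat (nat_lit 372704), .ofNat (nat_lit 320966), .ofNat (nat_lit 416437), .ofNat (nat_lit 280329), .ofNat (nat_lit 374473), .ofNat (nat_lit 324230), .ofNat (nat_lit 418375)⟩, ⟨.ofNat (nat_lit 305143), .ofNat (nat_lit 483351), .ofNat (nat_lit 348879), .ofNat (nat_lit 527088), .ofNat (nat_lit 305521), .ofNat (nat_lit 481253), .ofNat (nat_lit 349427), .ofNat (nat_lit 525159)⟩⟩, [⟨nat_lit 0, nat_lit 100, nat_lit 68, nat_lit 89, nat_lit 52089525⟩, ⟨nat_lit 16, nat_lit 73, nat_lit 100, nat_lit 98, nat_lit 234257817⟩]⟩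
noncomputable def p079_l98 : Lf2 := ⟨nat_lit 0, nat_lit 5, [nat_lit 4, nat_lit 5, nat_lit 5, nat_lit 20], true, nat_lit 160, nat_lit 276, nat_lit 0, nat_lit 384, ⟨nat_lit 0, nat_lit 0, nat_lit 1000, nat_lit 5, nat_lit 170, nat_lit 1000, nat_lit 168, nat_lit 1000, nat_lit 13749, nat_lit 240, nat_lit 68267, nat_lit 279, nat_lit 47104326, nat_lit 0, nat_lit 0, nat_lit 4370003, false, false⟩,
 nat_lit 0, nat_lit 3454, nat_lit 0, nat_lit 0, nat_lit 2796, nat_lit 0, nat_lit 0, nat_lit 0, nat_lit 0, nat_lit 0, nat_lit 0, nat_lit 0, nat_lit 0, nat_lit 0, nat_lit 186, nat_lit 1000000, nat_lit 0, nat_lit 0, [(nat_lit 21, [(nat_lit 6, nat_lit 1000)])],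
 ⟨p079_k33, nat_lit 0, nat_lit 0, nat_lit 216, nat_lit 0, nat_lit 568216, [nat_lit 2245600001, nat_lit 271999999], [], [nat_lit 17901386917, nat_lit 18188698405, nat_lit 18677274421, nat_lit 18949743941, nat_lit 21524026605, nat_lit 21792107662, nat_lit 22120311111, nat_lit 22345646483], nat_lit 1271250, nat_lit 1271250, nat_lit 780000, nat_lit 1100001, nat_lit 1100001, nat_lit 2093250, [nat_lit 490000, nat_lit 1100000], [nat_lit 24, nat_lit 40, nat_lit 40, nat_lit 80, nat_lit 33, nat_lit 249, nat_lit 40, nat_lit 10]⟩, C1.Rw.none,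
 ⟨nat_lit 3708, nat_lit 3873, ⟨.ofNat (nat_lit 370953), .ofNat (nat_lit 435476), .ofNat (nat_lit 414538), .ofNat (nat_lit 479060), .ofNat (nat_lit 372705), .ofNat (nat_lit 436352), .ofNat (nat_lit 416439), .ofNat (nat_lit 480086)⟩, ⟨.ofNat (nat_lit 304717), .ofNat (nat_lit 491830), .ofNat (nat_lit 348304), .ofNat (nat_lit 535416), .ofNat (nat_lit 305143), .ofNat (nat_lit 489716), .ofNat (nat_lit 348879), .ofNat (nat_lit 533452)⟩⟩, [⟨nat_lit 16, nat_lit 77, nat_lit 100, nat_lit 99, nat_lit 214132167⟩]⟩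
noncomputable def p079_l99 : Lf2 := ⟨nat_lit 0, nat_lit 5, [nat_lit 4, nat_lit 5, nat_lit 5, nat_lit 20], true, nat_lit 160, nat_lit 272, nat_lit 0, nat_lit 384, ⟨nat_lit 0, nat_lit 0, nat_lit 1000, nat_lit 5, nat_lit 171, nat_lit 1000, nat_lit 166, nat_lit 1000, nat_lit 14845, nat_lit 244, nat_lit 66314, nat_lit 278, nat_lit 47183164, nat_lit 0, nat_lit 0, nat_lit 4359549, false, false⟩,
 nat_lit 0, nat_lit 3378, nat_lit 0, nat_lit 0, nat_lit 2785, nat_lit 0, nat_lit 0, nat_lit 0, nat_lit 0, nat_lit 0, nat_lit 0, nat_lit 0, nat_lit 0, nat_lit 0, nat_lit 186, nat_lit 1000000, nat_lit 0, nat_lit 0, [(nat_lit 21, [(nat_lit 6, nat_lit 1000)])],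
 ⟨p079_k34, nat_lit 0, nat_lit 0, nat_lit 234, nat_lit 0, nat_lit 597496, [nat_lit 2245600001, nat_lit 271999999], [], [nat_lit 18222766505, nat_lit 18509591485, nat_lit 18984351690, nat_lit 19256373015, nat_lit 21646571922, nat_lit 21916461989, nat_lit 22239286480, nat_lit 22465972644], nat_lit 1271250, nat_lit 1271250, nat_lit 780000, nat_lit 1100001, nat_lit 1100001, nat_lit 2059000, [nat_lit 490000, nat_lit 1100000], [nat_lit 24, nat_lit 40, nat_lit 40, nat_lit 80, nat_lit 33, nat_lit 249, nat_lit 40, nat_lit 10]⟩, C1.Rw.none,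
 ⟨nat_lit 3535, nat_lit 3709, ⟨.ofNat (nat_lit 372704), .ofNat (nat_lit 436351), .ofNat (nat_lit 416437), .ofNat (nat_lit 480085), .ofNat (nat_lit 374473), .ofNat (nat_lit 437236), .ofNat (nat_lit 418375), .ofNat (nat_lit 481138)⟩, ⟨.ofNat (nat_lit 305143), .ofNat (nat_lit 483351), .ofNat (nat_lit 348879), .ofNat (nat_lit 527088), .ofNat (nat_lit 305521), .ofNat (nat_lit 481253), .ofNat (nat_lit 349427), .ofNat (nat_lit 525159)⟩⟩, [⟨nat_lit 16, nat_lit 73, nat_lit 100, nat_lit 98, nat_lit 225420080⟩]⟩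
noncomputable def p079_l100 : Lf2 := ⟨nat_lit 0, nat_lit 10, [nat_lit 0, nat_lit 5, nat_lit 5, nat_lit 20], true, nat_lit 160, nat_lit 276, nat_lit 0, nat_lit 384, ⟨nat_lit 0, nat_lit 0, nat_lit 1000, nat_lit 5, nat_lit 150, nat_lit 1000, nat_lit 168, nat_lit 1000, nat_lit 13749, nat_lit 240, nat_lit 66278, nat_lit 278, nat_lit 48677717, nat_lit 0, nat_lit 0, nat_lit 4154345, false, false⟩,
 nat_lit 0, nat_lit 3461, nat_lit 0, nat_lit 0, nat_lit 2801, nat_lit 0, nat_lit 0, nat_lit 0, nat_lit 0, nat_lit 0, nat_lit 0, nat_lit 0, nat_lit 0, nat_lit 0, nat_lit 89, nat_lit 400000, nat_lit 0, nat_lit 0, [(nat_lit 21, [(nat_lit 5, nat_lit 1000)])],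
 ⟨p079_k25, nat_lit 0, nat_lit 0, nat_lit 219, nat_lit 0, nat_lit 381514, [nat_lit 1689600000, nat_lit 187200000], [], [nat_lit 17638494235, nat_lit 18298311825, nat_lit 19022972382, nat_lit 19605435907, nat_lit 21676621454, nat_lit 22214615608, nat_lit 22642427294, nat_lit 23121552458], nat_lit 1271250, nat_lit 1271250, nat_lit 330400, nat_lit 1100001, nat_lit 1100001, nat_lit 2093250, [nat_lit 490000, nat_lit 1427500], [nat_lit 69, nat_lit 40, nat_lit 40, nat_lit 80, nat_lit 64, nat_lit 345, nat_lit 125, nat_lit 13]⟩, C1.Rw.none,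
 ⟨nat_lit 3535, nat_lit 3873, ⟨.ofNat (nat_lit 267701), .ofNat (nat_lit 435472), .ofNat (nat_lit 311275), .ofNat (nat_lit 479046), .ofNat (nat_lit 274037), .ofNat (nat_lit 437232), .ofNat (nat_lit 317930), .ofNat (nat_lit 481125)⟩, ⟨.ofNat (nat_lit 304717), .ofNat (nat_lit 491830), .ofNat (nat_lit 348304), .ofNat (nat_lit 535416), .ofNat (nat_lit 305521), .ofNat (nat_lit 487529), .ofNat (nat_lit 349427), .ofNat (nat_lit 531435)⟩⟩, [⟨nat_lit 0, nat_lit 100, nat_lit 68, nat_lit 89, nat_lit 13285041⟩, ⟨nat_lit 16, nat_lit 77, nat_lit 100, nat_lit 99, nat_lit 224525099⟩]⟩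
noncomputable def p079_l101 : Lf2 := ⟨nat_lit 0, nat_lit 10, [nat_lit 0, nat_lit 5, nat_lit 5, nat_lit 20], true, nat_lit 160, nat_lit 264, nat_lit 0, nat_lit 384, ⟨nat_lit 0, nat_lit 0, nat_lit 1000, nat_lit 5, nat_lit 142, nat_lit 1000, nat_lit 163, nat_lit 1000, nat_lit 25644, nat_lit 253, nat_lit 190817, nat_lit 322, nat_lit 49669065, nat_lit 0, nat_lit 0, nat_lit 4011688, false, false⟩,
 nat_lit 0, nat_lit 3404, nat_lit 0, nat_lit 0, nat_lit 2859, nat_lit 0, nat_lit 0, nat_lit 0, nat_lit 0, nat_lit 0, nat_lit 0, nat_lit 0, nat_lit 0, nat_lit 0, nat_lit 186, nat_lit 1000000, nat_lit 0, nat_lit 0, [(nat_lit 21, [(nat_lit 6, nat_lit 1000)])],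
 ⟨p079_k26, nat_lit 0, nat_lit 0, nat_lit 282, nat_lit 0, nat_lit 689084, [nat_lit 2245600001, nat_lit 271999999], [], [nat_lit 18311689415, nat_lit 18888655472, nat_lit 18854987225, nat_lit 19397281194, nat_lit 21620181155, nat_lit 22314124944, nat_lit 21800824752, nat_lit 22259595234], nat_lit 1271250, nat_lit 1271250, nat_lit 382400, nat_lit 780000, nat_lit 1100001, nat_lit 1990500, [nat_lit 490000, nat_lit 1100000], [nat_lit 24, nat_lit 40, nat_lit 40, nat_lit 80, nat_lit 33, nat_lit 238, nat_lit 30, nat_lit 10]⟩, C1.Rw.none,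
 ⟨nat_lit 3162, nat_lit 3536, ⟨.ofNat (nat_lit 286575), .ofNat (nat_lit 374456), .ofNat (nat_lit 330464), .ofNat (nat_lit 418344), .ofNat (nat_lit 292723), .ofNat (nat_lit 378072), .ofNat (nat_lit 337016), .ofNat (nat_lit 422365)⟩, ⟨.ofNat (nat_lit 305521), .ofNat (nat_lit 468701), .ofNat (nat_lit 349427), .ofNat (nat_lit 512606), .ofNat (nat_lit 306116), .ofNat (nat_lit 464594), .ofNat (nat_lit 350426), .ofNat (nat_lit 508904)⟩⟩, [⟨nat_lit 0, nat_lit 100, nat_lit 61, nat_lit 92, nat_lit 112869216⟩, ⟨nat_lit 16, nat_lit 69, nat_lit 100, nat_lit 96, nat_lit 237617197⟩]⟩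
noncomputable def p079_l102 : Lf2 := ⟨nat_lit 0, nat_lit 10, [nat_lit 0, nat_lit 5, nat_lit 5, nat_lit 20], true, nat_lit 160, nat_lit 264, nat_lit 0, nat_lit 384, ⟨nat_lit 0, nat_lit 0, nat_lit 1000, nat_lit 5, nat_lit 171, nat_lit 1000, nat_lit 163, nat_lit 1000, nat_lit 25644, nat_lit 253, nat_lit 64508, nat_lit 277, nat_lit 47355777, nat_lit 0, nat_lit 0, nat_lit 4336337, false, false⟩,
 nat_lit 0, nat_lit 3326, nat_lit 0, nat_lit 0, nat_lit 2793, nat_lit 0, nat_lit 0, nat_lit 0, nat_lit 0, nat_lit 0, nat_lit 0, nat_lit 0, nat_lit 0, nat_lit 0, nat_lit 183, nat_lit 983800, nat_lit 0, nat_lit 0, [(nat_lit 21, [(nat_lit 5, nat_lit 27), (nat_lit 6, nat_lit 973)])],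
 ⟨p079_k26, nat_lit 0, nat_lit 0, nat_lit 251, nat_lit 0, nat_lit 644815, [nat_lit 2227540001, nat_lit 259596799], [], [nat_lit 18514868509, nat_lit 18802047313, nat_lit 19261229703, nat_lit 19533576988, nat_lit 21603449783, nat_lit 21880334321, nat_lit 22197589958, nat_lit 22427872278], nat_lit 1271250, nat_lit 1271250, nat_lit 780000, nat_lit 1100001, nat_lit 1100001, nat_lit 1990500, [nat_lit 490000, nat_lit 1100000], [nat_lit 24, nat_lit 40, nat_lit 40, nat_lit 80, nat_lit 33, nat_lit 249, nat_lit 40, nat_lit 10]⟩, C1.Rw.none,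
 ⟨nat_lit 3354, nat_lit 3536, ⟨.ofNat (nat_lit 374472), .ofNat (nat_lit 437235), .ofNat (nat_lit 418374), .ofNat (nat_lit 481137), .ofNat (nat_lit 376265), .ofNat (nat_lit 438132), .ofNat (nat_lit 420356), .ofNat (nat_lit 482223)⟩, ⟨.ofNat (nat_lit 305521), .ofNat (nat_lit 468701), .ofNat (nat_lit 349427), .ofNat (nat_lit 512606), .ofNat (nat_lit 305848), .ofNat (nat_lit 466697), .ofNat (nat_lit 349943), .ofNat (nat_lit 510793)⟩⟩, [⟨nat_lit 16, nat_lit 69, nat_lit 100, nat_lit 96, nat_lit 235623305⟩]⟩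
noncomputable def p079_l103 : Lf2 := ⟨nat_lit 0, nat_lit 10, [nat_lit 0, nat_lit 5, nat_lit 5, nat_lit 20], true, nat_lit 160, nat_lit 256, nat_lit 0, nat_lit 384, ⟨nat_lit 0, nat_lit 0, nat_lit 1000, nat_lit 5, nat_lit 172, nat_lit 1000, nat_lit 161, nat_lit 1000, nat_lit 39595, nat_lit 263, nat_lit 62791, nat_lit 276, nat_lit 47522322, nat_lit 0, nat_lit 0, nat_lit 4313288, false, false⟩,
 nat_lit 0, nat_lit 3275, nat_lit 0, nat_lit 0, nat_lit 2801, nat_lit 0, nat_lit 0, nat_lit 0, nat_lit 0, nat_lit 0, nat_lit 0, nat_lit 0, nat_lit 0, nat_lit 0, nat_lit 179, nat_lit 964000, nat_lit 0, nat_lit 0, [(nat_lit 21, [(nat_lit 5, nat_lit 60), (nat_lit 6, nat_lit 940)])],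
 ⟨p079_k35, nat_lit 0, nat_lit 0, nat_lit 258, nat_lit 0, nat_lit 672592, [nat_lit 2202800001, nat_lit 239103999], [], [nat_lit 18814278161, nat_lit 19101810789, nat_lit 19545359636, nat_lit 19818032881, nat_lit 21574207438, nat_lit 21855719795, nat_lit 22169302025, nat_lit 22403193420], nat_lit 1271250, nat_lit 1271250, nat_lit 780000, nat_lit 1100001, nat_lit 1100001, nat_lit 1922000, [nat_lit 490000, nat_lit 1100000], [nat_lit 24, nat_lit 40, nat_lit 40, nat_lit 80, nat_lit 33, nat_lit 249, nat_lit 40, nat_lit 10]⟩, C1.Rw.none,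
 ⟨nat_lit 3162, nat_lit 3355, ⟨.ofNat (nat_lit 376264), .ofNat (nat_lit 438131), .ofNat (nat_lit 420353), .ofNat (nat_lit 482222), .ofNat (nat_lit 378087), .ofNat (nat_lit 439043), .ofNat (nat_lit 422392), .ofNat (nat_lit 483348)⟩, ⟨.ofNat (nat_lit 305848), .ofNat (nat_lit 454324), .ofNat (nat_lit 349943), .ofNat (nat_lit 498420), .ofNat (nat_lit 306116), .ofNat (nat_lit 452404), .ofNat (nat_lit 350426), .ofNat (nat_lit 496714)⟩⟩, [⟨nat_lit 16, nat_lit 66, nat_lit 100, nat_lit 95, nat_lit 239280739⟩]⟩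
noncomputable def b_V_800_500_20_5 : St := ⟨true, nat_lit 1, nat_lit 0, nat_lit 1, nat_lit 120, nat_lit 320, nat_lit 360, nat_lit 200, nat_lit 240, nat_lit 40, nat_lit 160, nat_lit 80, nat_lit 120, nat_lit 160, nat_lit 300, nat_lit 0, nat_lit 384, nat_lit 0, nat_lit 40, nat_lit 0, nat_lit 0, nat_lit 0, nat_lit 0⟩
theorem d_V_800_500_20_5 (h : EB TB.env) : Dead b_V_800_500_20_5 := chkB_sound0 h (T :=
(.spl (nat_lit 0) (nat_lit 340)
(.spl (nat_lit 2) (nat_lit 80)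
(.leaf p079_l84)
(.spl (nat_lit 4) (nat_lit 240)
(.leaf p079_l85)
(.spl (nat_lit 3) (nat_lit 100)
(.trX (nat_lit 16) (nat_lit 87) (nat_lit 100) (nat_lit 94) (nat_lit 280) (.trX (nat_lit 19) (nat_lit 100) (nat_lit 50) (nat_lit 87) (nat_lit 376) (.spl (nat_lit 0) (nat_lit 330)
(.leaf p079_l86)
(.trX (nat_lit 16) (nat_lit 81) (nat_lit 100) (nat_lit 92) (nat_lit 268) (.leaf p079_l87)))))
(.spl (nat_lit 6) (nat_lit 20)
(.spl (nat_lit 0) (nat_lit 330)
(.spl (nat_lit 0) (nat_lit 325)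
(.leaf p079_l88)
(.trX (nat_lit 16) (nat_lit 85) (nat_lit 97) (nat_lit 100) (nat_lit 296) (.spl (nat_lit 0) (nat_lit 328)
(.leaf p079_l89)
(.trX (nat_lit 16) (nat_lit 84) (nat_lit 98) (nat_lit 100) (nat_lit 292) (.leaf p079_l90)))))
(.trX (nat_lit 16) (nat_lit 83) (nat_lit 98) (nat_lit 100) (nat_lit 288) (.spl (nat_lit 2) (nat_lit 120)
(.trX (nat_lit 23) (nat_lit 100) (nat_lit 59) (nat_lit 94) (nat_lit 364) (.spl (nat_lit 2) (nat_lit 100)
(.trX (nat_lit 23) (nat_lit 100) (nat_lit 68) (nat_lit 88) (nat_lit 352) (.leaf p079_l91))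
(.leaf p079_l92)))
(.spl (nat_lit 0) (nat_lit 335)
(.leaf p079_l93)
(.trX (nat_lit 16) (nat_lit 81) (nat_lit 100) (nat_lit 100) (nat_lit 284) (.leaf p079_l94))))))
(.leaf p079_l95)))))
(.trZ (nat_lit 0) (nat_lit 100) (nat_lit 71) (nat_lit 70) (nat_lit 56) (.trX (nat_lit 16) (nat_lit 77) (nat_lit 100) (nat_lit 99) (nat_lit 276) (.spl (nat_lit 0) (nat_lit 350)
(.spl (nat_lit 6) (nat_lit 20)
(.spl (nat_lit 2) (nat_lit 120)
(.spl (nat_lit 0) (nat_lit 345)
(.leaf p079_l96)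
(.trZ (nat_lit 0) (nat_lit 100) (nat_lit 69) (nat_lit 73) (nat_lit 60) (.trX (nat_lit 16) (nat_lit 73) (nat_lit 100) (nat_lit 98) (nat_lit 272) (.leaf p079_l97))))
(.spl (nat_lit 0) (nat_lit 345)
(.leaf p079_l98)
(.trX (nat_lit 16) (nat_lit 73) (nat_lit 100) (nat_lit 98) (nat_lit 272) (.leaf p079_l99))))
(.leaf p079_l100))
(.trZ (nat_lit 0) (nat_lit 100) (nat_lit 66) (nat_lit 75) (nat_lit 64) (.trX (nat_lit 16) (nat_lit 69) (nat_lit 100) (nat_lit 96) (nat_lit 264) (.spl (nat_lit 2) (nat_lit 120)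
(.leaf p079_l101)
(.spl (nat_lit 0) (nat_lit 355)
(.leaf p079_l102)
(.trX (nat_lit 16) (nat_lit 66) (nat_lit 100) (nat_lit 95) (nat_lit 256) (.leaf p079_l103))))))))))) (by decide +kernel)
noncomputable def p079_l104 : Lf2 := ⟨nat_lit 0, nat_lit 10, [nat_lit 0, nat_lit 5, nat_lit 5, nat_lit 20], false, nat_lit 160, nat_lit 300, nat_lit 0, nat_lit 160, ⟨nat_lit 516, nat_lit 0, nat_lit 484, nat_lit 5, nat_lit 209, nat_lit 484, nat_lit 177, nat_lit 484, nat_lit 1169, nat_lit 218, nat_lit 5914, nat_lit 209, nat_lit 43453584, nat_lit 0, nat_lit 0, nat_lit 4783433, false, false⟩,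
 nat_lit 0, nat_lit 6078, nat_lit 0, nat_lit 0, nat_lit 4558, nat_lit 4832, nat_lit 0, nat_lit 0, nat_lit 0, nat_lit 0, nat_lit 0, nat_lit 0, nat_lit 0, nat_lit 0, nat_lit 0, nat_lit 484000, nat_lit 0, nat_lit 0, [(nat_lit 18, [(nat_lit 6, nat_lit 484)])],
 ⟨p079_k14, nat_lit 0, nat_lit 0, nat_lit 246, nat_lit 0, nat_lit 599634, [nat_lit 1927165601, nat_lit 1477774000], [], [nat_lit 20145273169, nat_lit 21031049413, nat_lit 21572862993, nat_lit 22349147401, nat_lit 23283169176, nat_lit 24310386846, nat_lit 27511094274, nat_lit 26162716767], nat_lit 1271250, nat_lit 1271250, nat_lit 1100001, nat_lit 1785000, nat_lit 1100001, nat_lit 2298750, [nat_lit 490000, nat_lit 1427500], [nat_lit 69, nat_lit 40, nat_lit 40, nat_lit 80, nat_lit 64, nat_lit 373, nat_lit 150, nat_lit 13]⟩, ⟨p079_k16, nat_lit 0, nat_lit 0, nat_lit 182, nat_lit 0, nat_lit 0, [nat_lit 3225000000, nat_lit 6125952000], [], [nat_lit 15662247232, nat_lit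 16585001408, nat_lit 17137492160, nat_lit 18099202592, nat_lit 12612122800, nat_lit 13358598288, nat_lit 13659090800, nat_lit 14228336880], nat_lit 0, nat_lit 0, nat_lit 0, nat_lit 0, nat_lit 0, nat_lit 0, [], [nat_lit 107, nat_lit 40, nat_lit 40, nat_lit 80, nat_lit 12, nat_lit 401, nat_lit 175, nat_lit 10]⟩,
 ⟨nat_lit 3872, nat_lit 4473, ⟨.ofNat (nat_lit 432013), .ofNat (nat_lit 567977), .ofNat (nat_lit 475111), .ofNat (nat_lit 611083), .ofNat (nat_lit 435470), .ofNat (nat_lit 564520), .ofNat (nat_lit 479021), .ofNat (nat_lit 608080)⟩, ⟨.ofNat (nat_lit 302621), .ofNat (nat_lit 540545), .ofNat (nat_lit 345754), .ofNat (nat_lit 583678), .ofNat (nat_lit 304717), .ofNat (nat_lit 530543), .ofNat (nat_lit 348304), .ofNat (nat_lit 574129)⟩⟩, [⟨nat_lit 4, nat_lit 100, nat_lit 81, nat_lit 92, nat_lit 300188624⟩, ⟨nat_lit 9, nat_lit 99, nat_lit 100, nat_lit 15, nat_lit 25542240⟩]⟩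
noncomputable def p079_l105 : Lf2 := ⟨nat_lit 0, nat_lit 10, [nat_lit 0, nat_lit 5, nat_lit 5, nat_lit 20], false, nat_lit 160, nat_lit 300, nat_lit 160, nat_lit 384, ⟨nat_lit 994, nat_lit 6, nat_lit 0, nat_lit 5, nat_lit 209, nat_lit 6, nat_lit 177, nat_lit 0, nat_lit 0, nat_lit 0, nat_lit 0, nat_lit 0, nat_lit 43428197, nat_lit 13317822, nat_lit 10253981, nat_lit 4786688, false, false⟩,
 nat_lit 0, nat_lit 7038, nat_lit 0, nat_lit 0, nat_lit 5278, nat_lit 7767, nat_lit 1127, nat_lit 0, nat_lit 0, nat_lit 0, nat_lit 0, nat_lit 0, nat_lit 0, nat_lit 0, nat_lit 0, nat_lit 6000, nat_lit 0, nat_lit 0, [(nat_lit 18, [(nat_lit 2, nat_lit 6)])],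
 ⟨p079_k27, nat_lit 0, nat_lit 0, nat_lit 219, nat_lit 0, nat_lit 501309, [nat_lit 2029091201, nat_lit 3272314400, nat_lit 6209840800], [], [nat_lit 18293273258, nat_lit 18930509528, nat_lit 20479096618, nat_lit 21105026210, nat_lit 23404561658, nat_lit 24027674942, nat_lit 25299423750, nat_lit 25961501399], nat_lit 1271250, nat_lit 1271250, nat_lit 1100001, nat_lit 1785000, nat_lit 1100001, nat_lit 2298750, [nat_lit 490000, nat_lit 780000, nat_lit 1435000], [nat_lit 85, nat_lit 40, nat_lit 40, nat_lit 80, nat_lit 16, nat_lit 373, nat_lit 150, nat_lit 13]⟩, ⟨p079_k36, nat_lit 0, nat_lit 0, nat_lit 80, nat_lit 0, nat_lit 0, [nat_lit 6212500000, nat_lit 7920192000, nat_lit 11800768000], [], [nat_lit 8753381372, nat_lit 11597258424, nat_lit 13279372196, nat_lit 15571078260, nat_lit 26318686513, nat_lit 27453439804, nat_lit 27961831754, nat_lit 29103649184], nat_lit 0, nat_lit 0, nat_lit 0, nat_lit 0, nat_lit 0, nat_lit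 0, [], [nat_lit 53, nat_lit 40, nat_lit 40, nat_lit 80, nat_lit 14, nat_lit 456, nat_lit 225, nat_lit 11]⟩,
 ⟨nat_lit 4183, nat_lit 4473, ⟨.ofNat (nat_lit 432020), .ofNat (nat_lit 567977), .ofNat (nat_lit 475145), .ofNat (nat_lit 611104), .ofNat (nat_lit 433742), .ofNat (nat_lit 566254), .ofNat (nat_lit 477068), .ofNat (nat_lit 609582)⟩, ⟨.ofNat (nat_lit 302621), .ofNat (nat_lit 540545), .ofNat (nat_lit 345754), .ofNat (nat_lit 583678), .ofNat (nat_lit 303743), .ofNat (nat_lit 535637), .ofNat (nat_lit 347076), .ofNat (nat_lit 578971)⟩⟩, [⟨nat_lit 4, nat_lit 100, nat_lit 84, nat_lit 93, nat_lit 233604423⟩, ⟨nat_lit 19, nat_lit 100, nat_lit 59, nat_lit 87, nat_lit 47502782⟩, ⟨nat_lit 11, nat_lit 38, nat_lit 92, nat_lit 100, nat_lit 572829225⟩]⟩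
noncomputable def p079_l106 : Lf2 := ⟨nat_lit 0, nat_lit 10, [nat_lit 0, nat_lit 5, nat_lit 5, nat_lit 20], false, nat_lit 160, nat_lit 288, nat_lit 160, nat_lit 384, ⟨nat_lit 888, nat_lit 0, nat_lit 112, nat_lit 5, nat_lit 209, nat_lit 112, nat_lit 172, nat_lit 112, nat_lit 3485, nat_lit 228, nat_lit 2777, nat_lit 209, nat_lit 43748638, nat_lit 0, nat_lit 0, nat_lit 4745420, false, false⟩,
 nat_lit 0, nat_lit 5875, nat_lit 0, nat_lit 0, nat_lit 4579, nat_lit 6944, nat_lit 1133, nat_lit 0, nat_lit 0, nat_lit 0, nat_lit 0, nat_lit 0, nat_lit 0, nat_lit 0, nat_lit 0, nat_lit 44800, nat_lit 0, nat_lit 0, [(nat_lit 18, [(nat_lit 5, nat_lit 112)])],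
 ⟨p079_k37, nat_lit 0, nat_lit 0, nat_lit 240, nat_lit 0, nat_lit 568947, [nat_lit 1908441601, nat_lit 2956632534, nat_lit 5381417600], [], [nat_lit 19120691936, nat_lit 19758089072, nat_lit 21307606407, nat_lit 21861748762, nat_lit 23174519645, nat_lit 23678159895, nat_lit 24988055774, nat_lit 25623227398], nat_lit 1271250, nat_lit 1271250, nat_lit 1100001, nat_lit 1785000, nat_lit 1100001, nat_lit 2196000, [nat_lit 490000, nat_lit 780000, nat_lit 1435000], [nat_lit 85, nat_lit 40, nat_lit 40, nat_lit 80, nat_lit 16, nat_lit 373, nat_lit 150, nat_lit 13]⟩, ⟨p079_k36, nat_lit 0, nat_lit 0, nat_lit 80, nat_lit 0, nat_lit 0, [nat_lit 5550000000, nat_lit 7075584000, nat_lit 10542336000], [], [nat_lit 7810400384, nat_lit 10352085568, nat_lit 11855208192, nat_lit 13903292320, nat_lit 23509692672, nat_lit 24526152013, nat_lit 24984139060, nat_lit 26004271911], nat_lit 0, nat_lit 0, nat_lit 0, nat_lit 0, nat_lit 0, nat_lit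 0, [], [nat_lit 53, nat_lit 40, nat_lit 40, nat_lit 80, nat_lit 14, nat_lit 456, nat_lit 225, nat_lit 11]⟩,
 ⟨nat_lit 3872, nat_lit 4184, ⟨.ofNat (nat_lit 433741), .ofNat (nat_lit 566254), .ofNat (nat_lit 477065), .ofNat (nat_lit 609582), .ofNat (nat_lit 435475), .ofNat (nat_lit 564520), .ofNat (nat_lit 479052), .ofNat (nat_lit 608101)⟩, ⟨.ofNat (nat_lit 303743), .ofNat (nat_lit 515761), .ofNat (nat_lit 347076), .ofNat (nat_lit 559094), .ofNat (nat_lit 304717), .ofNat (nat_lit 511186), .ofNat (nat_lit 348304), .ofNat (nat_lit 554773)⟩⟩, [⟨nat_lit 4, nat_lit 100, nat_lit 77, nat_lit 91, nat_lit 207248320⟩, ⟨nat_lit 7, nat_lit 59, nat_lit 100, nat_lit 87, nat_lit 11484824⟩, ⟨nat_lit 11, nat_lit 38, nat_lit 92, nat_lit 100, nat_lit 532977746⟩]⟩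
noncomputable def p079_l107 : Lf2 := ⟨nat_lit 0, nat_lit 10, [nat_lit 0, nat_lit 5, nat_lit 5, nat_lit 20], false, nat_lit 160, nat_lit 276, nat_lit 0, nat_lit 160, ⟨nat_lit 1000, nat_lit 0, nat_lit 0, nat_lit 0, nat_lit 0, nat_lit 0, nat_lit 0, nat_lit 0, nat_lit 0, nat_lit 0, nat_lit 0, nat_lit 0, nat_lit 0, nat_lit 0, nat_lit 0, nat_lit 0, false, false⟩,
 nat_lit 0, nat_lit 5770, nat_lit 0, nat_lit 0, nat_lit 4670, nat_lit 9928, nat_lit 1520, nat_lit 0, nat_lit 0, nat_lit 0, nat_lit 0, nat_lit 0, nat_lit 0, nat_lit 0, nat_lit 0, nat_lit 0, nat_lit 0, nat_lit 0, [],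
 ⟨p079_k25, nat_lit 0, nat_lit 0, nat_lit 316, nat_lit 0, nat_lit 724048, [nat_lit 2032000001, nat_lit 6250000000], [], [nat_lit 20186936665, nat_lit 21278597645, nat_lit 22177021286, nat_lit 23305192406, nat_lit 23572798076, nat_lit 24621036057, nat_lit 25216169398, nat_lit 26441552185], nat_lit 1271250, nat_lit 1271250, nat_lit 1100001, nat_lit 1785000, nat_lit 1100001, nat_lit 2093250, [nat_lit 490000, nat_lit 1427500], [nat_lit 69, nat_lit 40, nat_lit 40, nat_lit 80, nat_lit 64, nat_lit 373, nat_lit 150, nat_lit 13]⟩, ⟨p079_k16, nat_lit 0, nat_lit 0, nat_lit 182, nat_lit 0, nat_lit 0, [nat_lit 6250000000, nat_lit 11872000000], [], [nat_lit 29788613504, nat_lit 32234126240, nat_lit 33310442112, nat_lit 35218938208, nat_lit 23343779744, nat_lit 24817860800, nat_lit 25381314528, nat_lit 26955623168], nat_lit 0, nat_lit 0, nat_lit 0, nat_lit 0, nat_lit 0, nat_lit 0, [], [nat_lit 107, nat_lit 40, nat_lit 40, nat_lit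 80, nat_lit 12, nat_lit 401, nat_lit 175, nat_lit 10]⟩,
 zbF0, [⟨nat_lit 16, nat_lit 67, nat_lit 100, nat_lit 88, nat_lit 598615956⟩, ⟨nat_lit 9, nat_lit 100, nat_lit 100, nat_lit 9, nat_lit 54920850⟩]⟩
noncomputable def p079_l108 : Lf2 := ⟨nat_lit 0, nat_lit 10, [nat_lit 0, nat_lit 5, nat_lit 5, nat_lit 20], false, nat_lit 160, nat_lit 276, nat_lit 160, nat_lit 384, ⟨nat_lit 874, nat_lit 126, nat_lit 0, nat_lit 5, nat_lit 209, nat_lit 126, nat_lit 168, nat_lit 0, nat_lit 0, nat_lit 0, nat_lit 0, nat_lit 0, nat_lit 44056791, nat_lit 13436813, nat_lit 9506396, nat_lit 4704264, false, false⟩,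
 nat_lit 0, nat_lit 5479, nat_lit 0, nat_lit 0, nat_lit 4435, nat_lit 7062, nat_lit 1018, nat_lit 0, nat_lit 0, nat_lit 0, nat_lit 0, nat_lit 0, nat_lit 0, nat_lit 0, nat_lit 0, nat_lit 126000, nat_lit 0, nat_lit 0, [(nat_lit 21, [(nat_lit 2, nat_lit 126)])],
 ⟨p079_k38, nat_lit 0, nat_lit 0, nat_lit 259, nat_lit 0, nat_lit 631406, [nat_lit 1942153601, nat_lit 2947646400, nat_lit 5319767200], [], [nat_lit 19479995074, nat_lit 20055207915, nat_lit 21690474315, nat_lit 22279977980, nat_lit 23151399203, nat_lit 23698757751, nat_lit 24991006601, nat_lit 25634697357], nat_lit 1271250, nat_lit 1271250, nat_lit 1100001, nat_lit 1785000, nat_lit 1100001, nat_lit 2093250, [nat_lit 490000, nat_lit 780000, nat_lit 1435000], [nat_lit 85, nat_lit 40, nat_lit 40, nat_lit 80, nat_lit 16, nat_lit 373, nat_lit 150, nat_lit 13]⟩, ⟨p079_k36, nat_lit 0, nat_lit 0, nat_lit 80, nat_lit 0, nat_lit 0, [nat_lit 5462500000, nat_lit 6964032000,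 nat_lit 10376128000], [], [nat_lit 7276385432, nat_lit 9824547264, nat_lit 11320766216, nat_lit 13369581360, nat_lit 23039594634, nat_lit 24331990815, nat_lit 24769432442, nat_lit 25776875900], nat_lit 0, nat_lit 0, nat_lit 0, nat_lit 0, nat_lit 0, nat_lit 0, [], [nat_lit 53, nat_lit 40, nat_lit 40, nat_lit 80, nat_lit 14, nat_lit 456, nat_lit 225, nat_lit 11]⟩,
 ⟨nat_lit 3535, nat_lit 3873, ⟨.ofNat (nat_lit 435472), .ofNat (nat_lit 564520), .ofNat (nat_lit 479046), .ofNat (nat_lit 608101), .ofNat (nat_lit 437232), .ofNat (nat_lit 562760), .ofNat (nat_lit 481125), .ofNat (nat_lit 606659)⟩, ⟨.ofNat (nat_lit 304717), .ofNat (nat_lit 491830), .ofNat (nat_lit 348304), .ofNat (nat_lit 535416), .ofNat (nat_lit 305521), .ofNat (nat_lit 487529), .ofNat (nat_lit 349427), .ofNat (nat_lit 531435)⟩⟩, [⟨nat_lit 16, nat_lit 77, nat_lit 100, nat_lit 99, nat_lit 189463196⟩, ⟨nat_lit 19, nat_lit 100, nat_lit 40, nat_lit 92, nat_lit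 21655758⟩, ⟨nat_lit 11, nat_lit 38, nat_lit 92, nat_lit 100, nat_lit 522570166⟩]⟩
noncomputable def p079_l109 : Lf2 := ⟨nat_lit 0, nat_lit 10, [nat_lit 0, nat_lit 5, nat_lit 5, nat_lit 20], false, nat_lit 160, nat_lit 264, nat_lit 160, nat_lit 384, ⟨nat_lit 504, nat_lit 0, nat_lit 496, nat_lit 5, nat_lit 209, nat_lit 496, nat_lit 163, nat_lit 496, nat_lit 25644, nat_lit 253, nat_lit 2736, nat_lit 210, nat_lit 44353360, nat_lit 0, nat_lit 0, nat_lit 4663228, false, false⟩,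
 nat_lit 0, nat_lit 4358, nat_lit 0, nat_lit 0, nat_lit 3660, nat_lit 4074, nat_lit 137, nat_lit 0, nat_lit 0, nat_lit 0, nat_lit 0, nat_lit 0, nat_lit 0, nat_lit 0, nat_lit 0, nat_lit 496000, nat_lit 0, nat_lit 0, [(nat_lit 21, [(nat_lit 6, nat_lit 496)])],
 ⟨p079_k26, nat_lit 0, nat_lit 0, nat_lit 256, nat_lit 0, nat_lit 689084, [nat_lit 1399897601, nat_lit 947734400], [], [nat_lit 19750623765, nat_lit 20365970165, nat_lit 21922462105, nat_lit 22460615045, nat_lit 22810678304, nat_lit 23324489142, nat_lit 24656401670, nat_lit 25260351408], nat_lit 1271250, nat_lit 1271250, nat_lit 1100001, nat_lit 1785000, nat_lit 1100001, nat_lit 1990500, [nat_lit 490000, nat_lit 1100000], [nat_lit 24, nat_lit 40, nat_lit 40, nat_lit 80, nat_lit 33, nat_lit 203, nat_lit 0, nat_lit 7]⟩, ⟨p079_k16, nat_lit 0, nat_lit 0, nat_lit 67, nat_lit 0, nat_lit 0, [nat_lit 3150000000, nat_lit 5983488000], [], [nat_lit 4193042280, nat_lit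 5662797168, nat_lit 6525725976, nat_lit 7707430920, nat_lit 13287295728, nat_lit 14032645167, nat_lit 14284804128, nat_lit 14865779881], nat_lit 0, nat_lit 0, nat_lit 0, nat_lit 0, nat_lit 0, nat_lit 0, [], [nat_lit 107, nat_lit 40, nat_lit 40, nat_lit 80, nat_lit 12, nat_lit 456, nat_lit 225, nat_lit 11]⟩,
 ⟨nat_lit 3162, nat_lit 3536, ⟨.ofNat (nat_lit 437228), .ofNat (nat_lit 562760), .ofNat (nat_lit 481116), .ofNat (nat_lit 606660), .ofNat (nat_lit 439036), .ofNat (nat_lit 560952), .ofNat (nat_lit 483329), .ofNat (nat_lit 605256)⟩, ⟨.ofNat (nat_lit 305521), .ofNat (nat_lit 468701), .ofNat (nat_lit 349427), .ofNat (nat_lit 512606), .ofNat (nat_lit 306116), .ofNat (nat_lit 464594), .ofNat (nat_lit 350426), .ofNat (nat_lit 508904)⟩⟩, [⟨nat_lit 16, nat_lit 69, nat_lit 100, nat_lit 96, nat_lit 390095154⟩, ⟨nat_lit 19, nat_lit 100, nat_lit 40, nat_lit 92, nat_lit 333485858⟩]⟩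
noncomputable def b_V_800_500_20_6 : St := ⟨true, nat_lit 1, nat_lit 0, nat_lit 1, nat_lit 120, nat_lit 320, nat_lit 360, nat_lit 200, nat_lit 240, nat_lit 160, nat_lit 240, nat_lit 80, nat_lit 120, nat_lit 160, nat_lit 300, nat_lit 0, nat_lit 384, nat_lit 0, nat_lit 40, nat_lit 0, nat_lit 0, nat_lit 0, nat_lit 0⟩
theorem d_V_800_500_20_6 (h : EB TB.env) : Dead b_V_800_500_20_6 := chkB_sound0 h (T :=
(.spl (nat_lit 0) (nat_lit 340)
(.spl (nat_lit 5) (nat_lit 160)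
(.leaf p079_l104)
(.spl (nat_lit 0) (nat_lit 330)
(.leaf p079_l105)
(.trX (nat_lit 16) (nat_lit 83) (nat_lit 98) (nat_lit 100) (nat_lit 288) (.leaf p079_l106))))
(.trX (nat_lit 16) (nat_lit 77) (nat_lit 100) (nat_lit 99) (nat_lit 276) (.spl (nat_lit 5) (nat_lit 160)
(.leaf p079_l107)
(.spl (nat_lit 0) (nat_lit 350)
(.leaf p079_l108)
(.trX (nat_lit 16) (nat_lit 69) (nat_lit 100) (nat_lit 96) (nat_lit 264) (.leaf p079_l109))))))) (by decide +kernel)
noncomputable def p079_l110 : Lf2 := ⟨nat_lit 0, nat_lit 10, [nat_lit 0, nat_lit 5, nat_lit 5, nat_lit 20], false, nat_lit 0, nat_lit 300, nat_lit 0, nat_lit 160, ⟨nat_lit 1000, nat_lit 0, nat_lit 0, nat_lit 0, nat_lit 0, nat_lit 0, nat_lit 0, nat_lit 0, nat_lit 0, nat_lit 0, nat_lit 0, nat_lit 0, nat_lit 0, nat_lit 0, nat_lit 0, nat_lit 0, false, false⟩,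
 nat_lit 0, nat_lit 7829, nat_lit 0, nat_lit 0, nat_lit 5871, nat_lit 10322, nat_lit 410, nat_lit 0, nat_lit 0, nat_lit 1678, nat_lit 0, nat_lit 0, nat_lit 0, nat_lit 0, nat_lit 0, nat_lit 0, nat_lit 0, nat_lit 0, [],
 ⟨p079_k15, nat_lit 0, nat_lit 0, nat_lit 445, nat_lit 0, nat_lit 802999, [nat_lit 2032000001, nat_lit 4688000000, nat_lit 6250000000], [], [nat_lit 33288983820, nat_lit 34939383928, nat_lit 37794146817, nat_lit 39021480120, nat_lit 32834475784, nat_lit 33922957138, nat_lit 35929964147, nat_lit 36765015178], nat_lit 1271250, nat_lit 1271250, nat_lit 1271250, nat_lit 1271250, nat_lit 0, nat_lit 2118750, [nat_lit 490000, nat_lit 1100000, nat_lit 1442500], [nat_lit 6, nat_lit 40, nat_lit 40, nat_lit 80, nat_lit 3, nat_lit 289, nat_lit 75, nat_lit 10]⟩, ⟨p079_k17, nat_lit 0, nat_lit 0, nat_lit 263, nat_lit 0, nat_lit 0, [nat_lit 6250000000, nat_lit 9842000000, nat_lit 11872000000], [], [nat_lit 26668466024,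 nat_lit 29068233056, nat_lit 41991537042, nat_lit 42927774732, nat_lit 19695148032, nat_lit 21094181000, nat_lit 31843219789, nat_lit 32624447393], nat_lit 0, nat_lit 0, nat_lit 0, nat_lit 0, nat_lit 0, nat_lit 0, [], [nat_lit 46, nat_lit 40, nat_lit 40, nat_lit 80, nat_lit 41, nat_lit 428, nat_lit 200, nat_lit 11]⟩,
 zbF0, [⟨nat_lit 4, nat_lit 100, nat_lit 74, nat_lit 90, nat_lit 58292671⟩, ⟨nat_lit 21, nat_lit 88, nat_lit 100, nat_lit 85, nat_lit 139273545⟩]⟩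
noncomputable def p079_l111 : Lf2 := ⟨nat_lit 0, nat_lit 10, [nat_lit 0, nat_lit 5, nat_lit 5, nat_lit 20], false, nat_lit 0, nat_lit 300, nat_lit 160, nat_lit 384, ⟨nat_lit 1000, nat_lit 0, nat_lit 0, nat_lit 0, nat_lit 0, nat_lit 0, nat_lit 0, nat_lit 0, nat_lit 0, nat_lit 0, nat_lit 0, nat_lit 0, nat_lit 0, nat_lit 0, nat_lit 0, nat_lit 0, false, false⟩,
 nat_lit 0, nat_lit 8971, nat_lit 0, nat_lit 0, nat_lit 6728, nat_lit 6461, nat_lit 452, nat_lit 0, nat_lit 0, nat_lit 0, nat_lit 0, nat_lit 0, nat_lit 0, nat_lit 0, nat_lit 0, nat_lit 0, nat_lit 0, nat_lit 0, [],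
 ⟨p079_k15, nat_lit 0, nat_lit 0, nat_lit 320, nat_lit 0, nat_lit 453106, [nat_lit 2032000001, nat_lit 4688000000, nat_lit 6250000000], [], [nat_lit 27018271328, nat_lit 27333645032, nat_lit 38410006701, nat_lit 38796093928, nat_lit 26590184192, nat_lit 26800876097, nat_lit 33995866341, nat_lit 34242438377], nat_lit 1271250, nat_lit 1271250, nat_lit 1271250, nat_lit 1271250, nat_lit 0, nat_lit 2118750, [nat_lit 490000, nat_lit 1100000, nat_lit 1442500], [nat_lit 6, nat_lit 40, nat_lit 40, nat_lit 80, nat_lit 3, nat_lit 289, nat_lit 75, nat_lit 10]⟩, ⟨p079_k17, nat_lit 0, nat_lit 0, nat_lit 123, nat_lit 0, nat_lit 0, [nat_lit 6250000000, nat_lit 9842000000, nat_lit 11872000000], [], [nat_lit 15426437420, nat_lit 17535592180, nat_lit 27041811707, nat_lit 28157765969, nat_lit 28668496160, nat_lit 29555311075, nat_lit 35021624840, nat_lit 35478225458], nat_lit 0, nat_lit 0, nat_lit 0, nat_lit 0, nat_lit 0, nat_lit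 0, [], [nat_lit 46, nat_lit 40, nat_lit 40, nat_lit 80, nat_lit 41, nat_lit 538, nat_lit 300, nat_lit 13]⟩,
 zbF0, [⟨nat_lit 16, nat_lit 85, nat_lit 100, nat_lit 94, nat_lit 131069457⟩, ⟨nat_lit 19, nat_lit 100, nat_lit 40, nat_lit 92, nat_lit 271029052⟩, ⟨nat_lit 7, nat_lit 59, nat_lit 100, nat_lit 87, nat_lit 177196462⟩]⟩
noncomputable def p079_l112 : Lf2 := ⟨nat_lit 0, nat_lit 10, [nat_lit 0, nat_lit 5, nat_lit 5, nat_lit 20], false, nat_lit 0, nat_lit 296, nat_lit 160, nat_lit 384, ⟨nat_lit 1000, nat_lit 0, nat_lit 0, nat_lit 0, nat_lit 0, nat_lit 0, nat_lit 0, nat_lit 0, nat_lit 0, nat_lit 0, nat_lit 0, nat_lit 0, nat_lit 0, nat_lit 0, nat_lit 0, nat_lit 0, false, false⟩,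
 nat_lit 0, nat_lit 7963, nat_lit 0, nat_lit 0, nat_lit 6089, nat_lit 6514, nat_lit 1323, nat_lit 0, nat_lit 0, nat_lit 0, nat_lit 0, nat_lit 0, nat_lit 0, nat_lit 0, nat_lit 0, nat_lit 0, nat_lit 0, nat_lit 0, [],
 ⟨p079_k39, nat_lit 0, nat_lit 0, nat_lit 330, nat_lit 0, nat_lit 488214, [nat_lit 2032000001, nat_lit 4688000000, nat_lit 6250000000], [], [nat_lit 25232612524, nat_lit 25700634393, nat_lit 36701429881, nat_lit 37072434569, nat_lit 25994964541, nat_lit 26213427584, nat_lit 33154913024, nat_lit 33396946326], nat_lit 1271250, nat_lit 1271250, nat_lit 1271250, nat_lit 1271250, nat_lit 0, nat_lit 2090500, [nat_lit 490000, nat_lit 1100000, nat_lit 1442500], [nat_lit 6, nat_lit 40, nat_lit 40, nat_lit 80, nat_lit 3, nat_lit 289, nat_lit 75, nat_lit 10]⟩, ⟨p079_k17, nat_lit 0, nat_lit 0, nat_lit 122, nat_lit 0, nat_lit 0, [nat_lit 6250000000, nat_lit 9842000000, nat_lit 11872000000], [], [nat_lit 15345465080,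 nat_lit 17462313320, nat_lit 26648409788, nat_lit 27793731048, nat_lit 28642125861, nat_lit 29528508466, nat_lit 34821657998, nat_lit 35295096797], nat_lit 0, nat_lit 0, nat_lit 0, nat_lit 0, nat_lit 0, nat_lit 0, [], [nat_lit 46, nat_lit 40, nat_lit 40, nat_lit 80, nat_lit 41, nat_lit 538, nat_lit 300, nat_lit 13]⟩,
 zbF0, [⟨nat_lit 16, nat_lit 85, nat_lit 97, nat_lit 100, nat_lit 138297982⟩, ⟨nat_lit 19, nat_lit 100, nat_lit 40, nat_lit 92, nat_lit 454704679⟩]⟩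
noncomputable def p079_l113 : Lf2 := ⟨nat_lit 0, nat_lit 10, [nat_lit 0, nat_lit 5, nat_lit 5, nat_lit 20], false, nat_lit 0, nat_lit 288, nat_lit 160, nat_lit 384, ⟨nat_lit 1000, nat_lit 0, nat_lit 0, nat_lit 0, nat_lit 0, nat_lit 0, nat_lit 0, nat_lit 0, nat_lit 0, nat_lit 0, nat_lit 0, nat_lit 0, nat_lit 0, nat_lit 0, nat_lit 0, nat_lit 0, false, false⟩,
 nat_lit 0, nat_lit 6869, nat_lit 0, nat_lit 0, nat_lit 5354, nat_lit 6765, nat_lit 1409, nat_lit 0, nat_lit 0, nat_lit 0, nat_lit 0, nat_lit 0, nat_lit 0, nat_lit 0, nat_lit 0, nat_lit 0, nat_lit 0, nat_lit 0, [],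
 ⟨p079_k18, nat_lit 0, nat_lit 0, nat_lit 355, nat_lit 0, nat_lit 568947, [nat_lit 2032000001, nat_lit 4688000000, nat_lit 6250000000], [], [nat_lit 25102804723, nat_lit 25606318961, nat_lit 34760908118, nat_lit 35464126025, nat_lit 25753597659, nat_lit 26087201219, nat_lit 32102502181, nat_lit 32576820597], nat_lit 1271250, nat_lit 1271250, nat_lit 1271250, nat_lit 1271250, nat_lit 0, nat_lit 2034000, [nat_lit 490000, nat_lit 1100000, nat_lit 1442500], [nat_lit 6, nat_lit 40, nat_lit 40, nat_lit 80, nat_lit 3, nat_lit 289, nat_lit 75, nat_lit 10]⟩, ⟨p079_k17, nat_lit 0, nat_lit 0, nat_lit 120, nat_lit 0, nat_lit 0, [nat_lit 6250000000, nat_lit 9842000000, nat_lit 11872000000], [], [nat_lit 14961992300, nat_lit 17115275700, nat_lit 26146499224, nat_lit 27326752149, nat_lit 28517240109, nat_lit 29401575357, nat_lit 34881944586, nat_lit 35359796509], nat_lit 0, nat_lit 0, nat_lit 0, nat_lit 0, nat_lit 0, nat_lit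 0, [], [nat_lit 46, nat_lit 40, nat_lit 40, nat_lit 80, nat_lit 41, nat_lit 483, nat_lit 250, nat_lit 12]⟩,
 zbF0, [⟨nat_lit 16, nat_lit 83, nat_lit 98, nat_lit 100, nat_lit 153670679⟩, ⟨nat_lit 19, nat_lit 100, nat_lit 40, nat_lit 92, nat_lit 472931814⟩]⟩
noncomputable def p079_l114 : Lf2 := ⟨nat_lit 0, nat_lit 10, [nat_lit 0, nat_lit 5, nat_lit 5, nat_lit 20], false, nat_lit 0, nat_lit 276, nat_lit 160, nat_lit 384, ⟨nat_lit 1000, nat_lit 0, nat_lit 0, nat_lit 0, nat_lit 0, nat_lit 0, nat_lit 0, nat_lit 0, nat_lit 0, nat_lit 0, nat_lit 0, nat_lit 0, nat_lit 0, nat_lit 0, nat_lit 0, nat_lit 0, false, false⟩,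
 nat_lit 0, nat_lit 6026, nat_lit 0, nat_lit 0, nat_lit 4878, nat_lit 7022, nat_lit 1694, nat_lit 0, nat_lit 0, nat_lit 0, nat_lit 0, nat_lit 0, nat_lit 0, nat_lit 0, nat_lit 0, nat_lit 0, nat_lit 0, nat_lit 0, [],
 ⟨p079_k19, nat_lit 0, nat_lit 0, nat_lit 416, nat_lit 0, nat_lit 724048, [nat_lit 2032000001, nat_lit 4688000000, nat_lit 6250000000], [], [nat_lit 24770331932, nat_lit 26784774424, nat_lit 33529179581, nat_lit 34909277848, nat_lit 25774162155, nat_lit 26589036638, nat_lit 31229093008, nat_lit 32193286176], nat_lit 1271250, nat_lit 1271250, nat_lit 1271250, nat_lit 1271250, nat_lit 0, nat_lit 1949250, [nat_lit 490000, nat_lit 1100000, nat_lit 1442500], [nat_lit 6, nat_lit 40, nat_lit 40, nat_lit 80, nat_lit 3, nat_lit 289, nat_lit 75, nat_lit 10]⟩, ⟨p079_k17, nat_lit 0, nat_lit 0, nat_lit 118, nat_lit 0, nat_lit 0, [nat_lit 6250000000, nat_lit 9842000000, nat_lit 11872000000], [], [nat_lit 14569352840,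 nat_lit 16759942360, nat_lit 25235576738, nat_lit 26482927564, nat_lit 28389369039, nat_lit 29271607989, nat_lit 34653963872, nat_lit 35158695538], nat_lit 0, nat_lit 0, nat_lit 0, nat_lit 0, nat_lit 0, nat_lit 0, [], [nat_lit 46, nat_lit 40, nat_lit 40, nat_lit 80, nat_lit 41, nat_lit 483, nat_lit 250, nat_lit 12]⟩,
 zbF0, [⟨nat_lit 4, nat_lit 100, nat_lit 67, nat_lit 88, nat_lit 212949039⟩, ⟨nat_lit 19, nat_lit 100, nat_lit 40, nat_lit 92, nat_lit 489528200⟩]⟩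
noncomputable def b_V_800_500_20_7 : St := ⟨true, nat_lit 1, nat_lit 0, nat_lit 1, nat_lit 120, nat_lit 320, nat_lit 360, nat_lit 200, nat_lit 240, nat_lit 240, nat_lit 384, nat_lit 80, nat_lit 120, nat_lit 0, nat_lit 300, nat_lit 0, nat_lit 384, nat_lit 0, nat_lit 40, nat_lit 0, nat_lit 0, nat_lit 0, nat_lit 0⟩
theorem d_V_800_500_20_7 (h : EB TB.env) : Dead b_V_800_500_20_7 := chkB_sound0 h (T :=
(.spl (nat_lit 5) (nat_lit 160)
(.leaf p079_l110)
(.spl (nat_lit 0) (nat_lit 340)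
(.spl (nat_lit 0) (nat_lit 330)
(.spl (nat_lit 0) (nat_lit 325)
(.leaf p079_l111)
(.trX (nat_lit 13) (nat_lit 80) (nat_lit 47) (nat_lit 100) (nat_lit 380) (.trX (nat_lit 16) (nat_lit 85) (nat_lit 97) (nat_lit 100) (nat_lit 296) (.leaf p079_l112))))
(.trX (nat_lit 13) (nat_lit 78) (nat_lit 49) (nat_lit 100) (nat_lit 376) (.trX (nat_lit 16) (nat_lit 83) (nat_lit 98) (nat_lit 100) (nat_lit 288) (.leaf p079_l113))))
(.trX (nat_lit 13) (nat_lit 73) (nat_lit 55) (nat_lit 100) (nat_lit 368) (.trX (nat_lit 16) (nat_lit 77) (nat_lit 100) (nat_lit 99) (nat_lit 276) (.leaf p079_l114)))))) (by decide +kernel)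
noncomputable def p079_l115 : Lf2 := ⟨nat_lit 0, nat_lit 10, [nat_lit 0, nat_lit 5, nat_lit 5, nat_lit 20], false, nat_lit 0, nat_lit 160, nat_lit 0, nat_lit 384, ⟨nat_lit 0, nat_lit 0, nat_lit 1000, nat_lit 5, nat_lit 144, nat_lit 1000, nat_lit 65, nat_lit 1000, nat_lit 40017, nat_lit 264, nat_lit 62098, nat_lit 276, nat_lit 59297469, nat_lit 0, nat_lit 0, nat_lit 1783836, false, false⟩,
 nat_lit 0, nat_lit 3819, nat_lit 0, nat_lit 0, nat_lit 2863, nat_lit 0, nat_lit 41, nat_lit 0, nat_lit 0, nat_lit 0, nat_lit 0, nat_lit 0, nat_lit 0, nat_lit 0, nat_lit 76, nat_lit 400000, nat_lit 0, nat_lit 0, [(nat_lit 18, [(nat_lit 5, nat_lit 1000)]), (nat_lit 21, [(nat_lit 5, nat_lit 1000)])],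
 ⟨p079_k15, nat_lit 0, nat_lit 0, nat_lit 373, nat_lit 0, nat_lit 509219, [nat_lit 1585600001, nat_lit 802000001, nat_lit 14800000], [], [nat_lit 18911867201, nat_lit 20446788928, nat_lit 18048954114, nat_lit 20481035694, nat_lit 17744192906, nat_lit 20108065062, nat_lit 20533161949, nat_lit 21393634670], nat_lit 1271250, nat_lit 1271250, nat_lit 230001, nat_lit 1100001, nat_lit 0, nat_lit 1100001, [nat_lit 490000, nat_lit 1100000, nat_lit 1442500], [nat_lit 6, nat_lit 40, nat_lit 40, nat_lit 80, nat_lit 3, nat_lit 317, nat_lit 100, nat_lit 12]⟩, ⟨p079_k17, nat_lit 0, nat_lit 0, nat_lit 860, nat_lit 0, nat_lit 1049774, [nat_lit 0, nat_lit 0, nat_lit 0], [], [nat_lit 0, nat_lit 0, nat_lit 0, nat_lit 0, nat_lit 0, nat_lit 0, nat_lit 0, nat_lit 0], nat_lit 1271250, nat_lit 1271250, nat_lit 230001, nat_lit 1100001, nat_lit 0, nat_lit 2712000, [nat_lit 1412500, nat_lit 1271250, nat_lit 1271250], [nat_lit 46, nat_lit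 40, nat_lit 40, nat_lit 80, nat_lit 41, nat_lit 428, nat_lit 200, nat_lit 11]⟩,
 ⟨nat_lit 3162, nat_lit 4473, ⟨.ofNat (nat_lit 227776), .ofNat (nat_lit 431944), .ofNat (nat_lit 270729), .ofNat (nat_lit 474896), .ofNat (nat_lit 255876), .ofNat (nat_lit 438969), .ofNat (nat_lit 300005), .ofNat (nat_lit 483097)⟩, ⟨.ofNat (nat_lit 0), .ofNat (nat_lit 302621), .ofNat (nat_lit 0), .ofNat (nat_lit 345754), .ofNat (nat_lit 0), .ofNat (nat_lit 306116), .ofNat (nat_lit 0), .ofNat (nat_lit 350426)⟩⟩, [⟨nat_lit 0, nat_lit 100, nat_lit 61, nat_lit 92, nat_lit 76192618⟩, ⟨nat_lit 3, nat_lit 100, nat_lit 82, nat_lit 29, nat_lit 58621331⟩]⟩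
noncomputable def p079_l116 : Lf2 := ⟨nat_lit 0, nat_lit 10, [nat_lit 0, nat_lit 5, nat_lit 5, nat_lit 20], false, nat_lit 0, nat_lit 160, nat_lit 0, nat_lit 160, ⟨nat_lit 170, nat_lit 193, nat_lit 637, nat_lit 5, nat_lit 209, nat_lit 830, nat_lit 65, nat_lit 637, nat_lit 40017, nat_lit 264, nat_lit 5755, nat_lit 209, nat_lit 52663715, nat_lit 14336285, nat_lit 0, nat_lit 2595874, false, false⟩,
 nat_lit 4140, nat_lit 0, nat_lit 0, nat_lit 0, nat_lit 3105, nat_lit 1774, nat_lit 0, nat_lit 0, nat_lit 0, nat_lit 107, nat_lit 0, nat_lit 0, nat_lit 0, nat_lit 0, nat_lit 41, nat_lit 657800, nat_lit 0, nat_lit 0, [(nat_lit 18, [(nat_lit 1, nat_lit 193), (nat_lit 5, nat_lit 94), (nat_lit 6, nat_lit 543)]), (nat_lit 21, [(nat_lit 1, nat_lit 193), (nat_lit 5, nat_lit 94), (nat_lit 6, nat_lit 543)])],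
 ⟨p079_k15, nat_lit 0, nat_lit 0, nat_lit 326, nat_lit 0, nat_lit 509219, [nat_lit 1610609334, nat_lit 1120435467, nat_lit 1311200], [], [nat_lit 21243694975, nat_lit 21414791409, nat_lit 21436009789, nat_lit 23291418340, nat_lit 19993314489, nat_lit 21720169096, nat_lit 22399219623, nat_lit 23522998790], nat_lit 1271250, nat_lit 1271250, nat_lit 1100001, nat_lit 1785000, nat_lit 0, nat_lit 1100001, [nat_lit 490000, nat_lit 1100000, nat_lit 1442500], [nat_lit 6, nat_lit 40, nat_lit 40, nat_lit 80, nat_lit 3, nat_lit 317, nat_lit 100, nat_lit 12]⟩, ⟨p079_k17, nat_lit 0, nat_lit 0, nat_lit 777, nat_lit 0, nat_lit 1049774, [nat_lit 1062500000, nat_lit 1673140000, nat_lit 2018240000], [], [nat_lit 7499061960, nat_lit 7449754408, nat_lit 7339075640, nat_lit 7284415768, nat_lit 6235055800, nat_lit 6185233248, nat_lit 7334991784, nat_lit 5998574664], nat_lit 1271250, nat_lit 1271250, nat_lit 1100001, nat_lit 1785000,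 nat_lit 0, nat_lit 1100001, [nat_lit 1412500, nat_lit 1271250, nat_lit 1271250], [nat_lit 46, nat_lit 40, nat_lit 40, nat_lit 80, nat_lit 41, nat_lit 401, nat_lit 175, nat_lit 10]⟩,
 ⟨nat_lit 3162, nat_lit 4473, ⟨.ofNat (nat_lit 431944), .ofNat (nat_lit 567977), .ofNat (nat_lit 474896), .ofNat (nat_lit 611007), .ofNat (nat_lit 438969), .ofNat (nat_lit 560952), .ofNat (nat_lit 483097), .ofNat (nat_lit 605159)⟩, ⟨.ofNat (nat_lit 0), .ofNat (nat_lit 302621), .ofNat (nat_lit 0), .ofNat (nat_lit 345754), .ofNat (nat_lit 0), .ofNat (nat_lit 306116), .ofNat (nat_lit 0), .ofNat (nat_lit 350426)⟩⟩, [⟨nat_lit 3, nat_lit 100, nat_lit 65, nat_lit 54, nat_lit 7066536⟩]⟩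
noncomputable def p079_l117 : Lf2 := ⟨nat_lit 0, nat_lit 10, [nat_lit 0, nat_lit 5, nat_lit 5, nat_lit 20], false, nat_lit 0, nat_lit 160, nat_lit 160, nat_lit 384, ⟨nat_lit 166, nat_lit 0, nat_lit 834, nat_lit 5, nat_lit 209, nat_lit 834, nat_lit 65, nat_lit 834, nat_lit 40017, nat_lit 264, nat_lit 5914, nat_lit 209, nat_lit 52667635, nat_lit 0, nat_lit 0, nat_lit 2595493, false, false⟩,
 nat_lit 4549, nat_lit 0, nat_lit 0, nat_lit 0, nat_lit 3411, nat_lit 1949, nat_lit 0, nat_lit 0, nat_lit 0, nat_lit 168, nat_lit 0, nat_lit 0, nat_lit 0, nat_lit 0, nat_lit 24, nat_lit 395400, nat_lit 0, nat_lit 0, [(nat_lit 18, [(nat_lit 5, nat_lit 731), (nat_lit 6, nat_lit 103)])],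
 ⟨p079_k15, nat_lit 0, nat_lit 0, nat_lit 256, nat_lit 0, nat_lit 380256, [nat_lit 1317417334, nat_lit 731881467, nat_lit 15416400], [], [nat_lit 20636748223, nat_lit 19369174184, nat_lit 20589893280, nat_lit 22242112934, nat_lit 17605192448, nat_lit 18537515125, nat_lit 20868854126, nat_lit 20655594420], nat_lit 1271250, nat_lit 1271250, nat_lit 1100001, nat_lit 1785000, nat_lit 0, nat_lit 1100001, [nat_lit 490000, nat_lit 1100000, nat_lit 1442500], [nat_lit 6, nat_lit 40, nat_lit 40, nat_lit 80, nat_lit 3, nat_lit 317, nat_lit 100, nat_lit 12]⟩, ⟨p079_k17, nat_lit 0, nat_lit 0, nat_lit 531, nat_lit 0, nat_lit 783912, [nat_lit 1037500000, nat_lit 1633772000, nat_lit 1970752000], [], [nat_lit 7327466152, nat_lit 5266445428, nat_lit 5436052784, nat_lit 4544693016, nat_lit 5339906633, nat_lit 5368429229, nat_lit 5302135593, nat_lit 5383601624], nat_lit 1271250, nat_lit 1271250, nat_lit 1100001, nat_lit 1785000, nat_lit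 1271250, nat_lit 1271250, [nat_lit 1412500, nat_lit 1271250, nat_lit 1271250], [nat_lit 46, nat_lit 40, nat_lit 40, nat_lit 80, nat_lit 41, nat_lit 456, nat_lit 225, nat_lit 11]⟩,
 ⟨nat_lit 3872, nat_lit 4473, ⟨.ofNat (nat_lit 432013), .ofNat (nat_lit 567977), .ofNat (nat_lit 475111), .ofNat (nat_lit 611083), .ofNat (nat_lit 435470), .ofNat (nat_lit 564520), .ofNat (nat_lit 479021), .ofNat (nat_lit 608080)⟩, ⟨.ofNat (nat_lit 0), .ofNat (nat_lit 302621), .ofNat (nat_lit 0), .ofNat (nat_lit 345754), .ofNat (nat_lit 0), .ofNat (nat_lit 304717), .ofNat (nat_lit 0), .ofNat (nat_lit 348304)⟩⟩, [⟨nat_lit 22, nat_lit 100, nat_lit 93, nat_lit 36, nat_lit 81822426⟩, ⟨nat_lit 22, nat_lit 100, nat_lit 60, nat_lit 80, nat_lit 16099249⟩]⟩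
noncomputable def p079_l118 : Lf2 := ⟨nat_lit 0, nat_lit 10, [nat_lit 0, nat_lit 5, nat_lit 5, nat_lit 20], false, nat_lit 0, nat_lit 160, nat_lit 160, nat_lit 384, ⟨nat_lit 138, nat_lit 355, nat_lit 507, nat_lit 5, nat_lit 209, nat_lit 862, nat_lit 65, nat_lit 507, nat_lit 40017, nat_lit 264, nat_lit 5723, nat_lit 210, nat_lit 52655659, nat_lit 14344341, nat_lit 0, nat_lit 2596656, false, false⟩,
 nat_lit 3603, nat_lit 0, nat_lit 0, nat_lit 0, nat_lit 2916, nat_lit 1544, nat_lit 0, nat_lit 0, nat_lit 0, nat_lit 130, nat_lit 0, nat_lit 0, nat_lit 0, nat_lit 0, nat_lit 48, nat_lit 649000, nat_lit 0, nat_lit 0, [(nat_lit 21, [(nat_lit 1, nat_lit 355), (nat_lit 6, nat_lit 507)])],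
 ⟨p079_k19, nat_lit 0, nat_lit 0, nat_lit 311, nat_lit 0, nat_lit 463814, [nat_lit 1529615200, nat_lit 573960001, nat_lit 213431200], [], [nat_lit 19688369312, nat_lit 20803268832, nat_lit 21837489848, nat_lit 22920437552, nat_lit 20393422792, nat_lit 21344357616, nat_lit 22421807416, nat_lit 23399519904], nat_lit 1271250, nat_lit 1271250, nat_lit 1100001, nat_lit 1785000, nat_lit 0, nat_lit 1100001, [nat_lit 490000, nat_lit 1100000, nat_lit 1442500], [nat_lit 6, nat_lit 40, nat_lit 40, nat_lit 80, nat_lit 3, nat_lit 317, nat_lit 100, nat_lit 12]⟩, ⟨p079_k17, nat_lit 0, nat_lit 0, nat_lit 672, nat_lit 0, nat_lit 1049774, [nat_lit 862500000, nat_lit 1358196000, nat_lit 1638336000], [], [nat_lit 5975310616, nat_lit 4342567672, nat_lit 4483685208, nat_lit 4230125944, nat_lit 4616802037, nat_lit 4582365242, nat_lit 4507911788, nat_lit 4508566612], nat_lit 1271250, nat_lit 1271250, nat_lit 1100001, nat_lit 1785000,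 nat_lit 1271250, nat_lit 1271250, [nat_lit 1412500, nat_lit 1271250, nat_lit 1271250], [nat_lit 46, nat_lit 40, nat_lit 40, nat_lit 80, nat_lit 41, nat_lit 456, nat_lit 225, nat_lit 11]⟩,
 ⟨nat_lit 3162, nat_lit 3873, ⟨.ofNat (nat_lit 435446), .ofNat (nat_lit 564520), .ofNat (nat_lit 478975), .ofNat (nat_lit 608082), .ofNat (nat_lit 439014), .ofNat (nat_lit 560952), .ofNat (nat_lit 483267), .ofNat (nat_lit 605237)⟩, ⟨.ofNat (nat_lit 0), .ofNat (nat_lit 304717), .ofNat (nat_lit 0), .ofNat (nat_lit 348304), .ofNat (nat_lit 0), .ofNat (nat_lit 306116), .ofNat (nat_lit 0), .ofNat (nat_lit 350426)⟩⟩, [⟨nat_lit 19, nat_lit 100, nat_lit 59, nat_lit 87, nat_lit 42441830⟩, ⟨nat_lit 22, nat_lit 100, nat_lit 60, nat_lit 80, nat_lit 2739218⟩]⟩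
noncomputable def p079_l119 : Lf2 := ⟨nat_lit 0, nat_lit 10, [nat_lit 0, nat_lit 5, nat_lit 5, nat_lit 20], false, nat_lit 160, nat_lit 240, nat_lit 0, nat_lit 384, ⟨nat_lit 0, nat_lit 0, nat_lit 1000, nat_lit 5, nat_lit 131, nat_lit 1000, nat_lit 156, nat_lit 1000, nat_lit 67907, nat_lit 278, nat_lit 160067, nat_lit 313, nat_lit 51081912, nat_lit 0, nat_lit 0, nat_lit 3798582, false, false⟩,
 nat_lit 0, nat_lit 4360, nat_lit 0, nat_lit 0, nat_lit 3269, nat_lit 0, nat_lit 0, nat_lit 0, nat_lit 0, nat_lit 0, nat_lit 0, nat_lit 0, nat_lit 0, nat_lit 0, nat_lit 76, nat_lit 400000, nat_lit 0, nat_lit 0, [(nat_lit 18, [(nat_lit 5, nat_lit 1000)]), (nat_lit 21, [(nat_lit 5, nat_lit 1000)])],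
 ⟨p079_k14, nat_lit 0, nat_lit 0, nat_lit 282, nat_lit 0, nat_lit 509219, [nat_lit 1693000001, nat_lit 251500000], [], [nat_lit 16293816904, nat_lit 19338562968, nat_lit 16819613445, nat_lit 19285464101, nat_lit 18870492273, nat_lit 21972820736, nat_lit 19468289524, nat_lit 21476198729], nat_lit 1271250, nat_lit 1271250, nat_lit 230001, nat_lit 780000, nat_lit 1100001, nat_lit 1785000, [nat_lit 490000, nat_lit 1427500], [nat_lit 69, nat_lit 40, nat_lit 40, nat_lit 80, nat_lit 64, nat_lit 317, nat_lit 100, nat_lit 12]⟩, ⟨p079_k16, nat_lit 0, nat_lit 0, nat_lit 851, nat_lit 0, nat_lit 1049774, [nat_lit 0, nat_lit 0], [], [nat_lit 0, nat_lit 0, nat_lit 0, nat_lit 0, nat_lit 0, nat_lit 0, nat_lit 0, nat_lit 0], nat_lit 1271250, nat_lit 1271250, nat_lit 230001, nat_lit 780000, nat_lit 0, nat_lit 2712000, [nat_lit 1412500, nat_lit 1271250], [nat_lit 107, nat_lit 40, nat_lit 40, nat_lit 80, nat_lit 12, nat_lit 428, nat_lit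 200, nat_lit 11]⟩,
 ⟨nat_lit 3162, nat_lit 4473, ⟨.ofNat (nat_lit 227776), .ofNat (nat_lit 363888), .ofNat (nat_lit 270729), .ofNat (nat_lit 406840), .ofNat (nat_lit 255876), .ofNat (nat_lit 377938), .ofNat (nat_lit 300005), .ofNat (nat_lit 422066)⟩, ⟨.ofNat (nat_lit 302621), .ofNat (nat_lit 438578), .ofNat (nat_lit 345754), .ofNat (nat_lit 481711), .ofNat (nat_lit 306116), .ofNat (nat_lit 428022), .ofNat (nat_lit 350426), .ofNat (nat_lit 472332)⟩⟩, [⟨nat_lit 0, nat_lit 100, nat_lit 61, nat_lit 92, nat_lit 153862944⟩, ⟨nat_lit 4, nat_lit 100, nat_lit 74, nat_lit 90, nat_lit 125725273⟩]⟩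
noncomputable def p079_l120 : Lf2 := ⟨nat_lit 0, nat_lit 10, [nat_lit 0, nat_lit 5, nat_lit 5, nat_lit 20], false, nat_lit 240, nat_lit 300, nat_lit 0, nat_lit 364, ⟨nat_lit 0, nat_lit 274, nat_lit 726, nat_lit 5, nat_lit 129, nat_lit 1000, nat_lit 203, nat_lit 726, nat_lit 1169, nat_lit 218, nat_lit 156817, nat_lit 312, nat_lit 47157329, nat_lit 6549042, nat_lit 13293629, nat_lit 4251900, false, false⟩,
 nat_lit 0, nat_lit 3909, nat_lit 0, nat_lit 0, nat_lit 2931, nat_lit 0, nat_lit 0, nat_lit 0, nat_lit 0, nat_lit 52, nat_lit 0, nat_lit 0, nat_lit 0, nat_lit 0, nat_lit 43, nat_lit 473800, nat_lit 0, nat_lit 0, [(nat_lit 18, [(nat_lit 1, nat_lit 274), (nat_lit 5, nat_lit 603), (nat_lit 6, nat_lit 123)])],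
 ⟨p079_k15, nat_lit 0, nat_lit 0, nat_lit 235, nat_lit 0, nat_lit 380256, [nat_lit 1417502134, nat_lit 824737467, nat_lit 9825200], [], [nat_lit 19452538934, nat_lit 20436230728, nat_lit 19845589898, nat_lit 20773124795, nat_lit 21774769941, nat_lit 23085828156, nat_lit 22090605641, nat_lit 23067784365], nat_lit 1271250, nat_lit 1271250, nat_lit 230001, nat_lit 780000, nat_lit 1271250, nat_lit 1271250, [nat_lit 490000, nat_lit 1100000, nat_lit 1442500], [nat_lit 6, nat_lit 40, nat_lit 40, nat_lit 80, nat_lit 3, nat_lit 238, nat_lit 30, nat_lit 8]⟩, ⟨p079_k17, nat_lit 0, nat_lit 0, nat_lit 733, nat_lit 0, nat_lit 783912, [nat_lit 0, nat_lit 0, nat_lit 0], [], [nat_lit 0, nat_lit 0, nat_lit 0, nat_lit 0, nat_lit 0, nat_lit 0, nat_lit 0, nat_lit 0], nat_lit 1271250, nat_lit 1271250, nat_lit 230001, nat_lit 780000, nat_lit 0, nat_lit 2570750, [nat_lit 1412500, nat_lit 1271250, nat_lit 1271250], [nat_lit 46, nat_lit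 40, nat_lit 40, nat_lit 80, nat_lit 41, nat_lit 428, nat_lit 200, nat_lit 11]⟩,
 ⟨nat_lit 3872, nat_lit 4473, ⟨.ofNat (nat_lit 228056), .ofNat (nat_lit 364028), .ofNat (nat_lit 271153), .ofNat (nat_lit 407125), .ofNat (nat_lit 241882), .ofNat (nat_lit 370941), .ofNat (nat_lit 285433), .ofNat (nat_lit 414492)⟩, ⟨.ofNat (nat_lit 438578), .ofNat (nat_lit 540545), .ofNat (nat_lit 481711), .ofNat (nat_lit 583678), .ofNat (nat_lit 433760), .ofNat (nat_lit 530543), .ofNat (nat_lit 477347), .ofNat (nat_lit 574129)⟩⟩, [⟨nat_lit 0, nat_lit 100, nat_lit 76, nat_lit 73, nat_lit 82649431⟩, ⟨nat_lit 16, nat_lit 87, nat_lit 95, nat_lit 100, nat_lit 226800605⟩]⟩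
noncomputable def p079_l121 : Lf2 := ⟨nat_lit 0, nat_lit 10, [nat_lit 0, nat_lit 5, nat_lit 5, nat_lit 20], false, nat_lit 240, nat_lit 276, nat_lit 0, nat_lit 364, ⟨nat_lit 0, nat_lit 540, nat_lit 460, nat_lit 5, nat_lit 138, nat_lit 1000, nat_lit 192, nat_lit 460, nat_lit 13749, nat_lit 240, nat_lit 180267, nat_lit 319, nat_lit 47449137, nat_lit 7311704, nat_lit 12239159, nat_lit 4265652, false, false⟩,
 nat_lit 0, nat_lit 4027, nat_lit 0, nat_lit 0, nat_lit 3259, nat_lit 0, nat_lit 0, nat_lit 0, nat_lit 0, nat_lit 0, nat_lit 0, nat_lit 0, nat_lit 0, nat_lit 0, nat_lit 64, nat_lit 676000, nat_lit 0, nat_lit 0, [(nat_lit 21, [(nat_lit 1, nat_lit 540), (nat_lit 6, nat_lit 460)])],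
 ⟨p079_k25, nat_lit 0, nat_lit 0, nat_lit 241, nat_lit 0, nat_lit 463814, [nat_lit 1592304001, nat_lit 145216000], [], [nat_lit 20169715396, nat_lit 21738242410, nat_lit 20402967315, nat_lit 21481616769, nat_lit 22064601577, nat_lit 23508190159, nat_lit 21794321192, nat_lit 23145093057], nat_lit 1271250, nat_lit 1271250, nat_lit 330400, nat_lit 780000, nat_lit 1271250, nat_lit 1271250, [nat_lit 490000, nat_lit 1427500], [nat_lit 69, nat_lit 40, nat_lit 40, nat_lit 80, nat_lit 64, nat_lit 238, nat_lit 30, nat_lit 8]⟩, ⟨p079_k16, nat_lit 0, nat_lit 0, nat_lit 842, nat_lit 0, nat_lit 1049774, [nat_lit 0, nat_lit 0], [], [nat_lit 0, nat_lit 0, nat_lit 0, nat_lit 0, nat_lit 0, nat_lit 0, nat_lit 0, nat_lit 0], nat_lit 1271250, nat_lit 1271250, nat_lit 330400, nat_lit 780000, nat_lit 0, nat_lit 2570750, [nat_lit 1412500, nat_lit 1271250], [nat_lit 107, nat_lit 40, nat_lit 40, nat_lit 80, nat_lit 12, nat_lit 428, nat_lit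 200, nat_lit 11]⟩,
 ⟨nat_lit 3162, nat_lit 3873, ⟨.ofNat (nat_lit 267606), .ofNat (nat_lit 370892), .ofNat (nat_lit 311135), .ofNat (nat_lit 414421), .ofNat (nat_lit 280451), .ofNat (nat_lit 378028), .ofNat (nat_lit 324704), .ofNat (nat_lit 422280)⟩, ⟨.ofNat (nat_lit 433760), .ofNat (nat_lit 491830), .ofNat (nat_lit 477347), .ofNat (nat_lit 535416), .ofNat (nat_lit 428022), .ofNat (nat_lit 482881), .ofNat (nat_lit 472332), .ofNat (nat_lit 527190)⟩⟩, [⟨nat_lit 0, nat_lit 100, nat_lit 66, nat_lit 82, nat_lit 142218795⟩, ⟨nat_lit 16, nat_lit 77, nat_lit 100, nat_lit 99, nat_lit 260058352⟩]⟩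
noncomputable def p079_l122 : Lf2 := ⟨nat_lit 0, nat_lit 10, [nat_lit 0, nat_lit 5, nat_lit 5, nat_lit 20], false, nat_lit 160, nat_lit 240, nat_lit 0, nat_lit 384, ⟨nat_lit 0, nat_lit 562, nat_lit 438, nat_lit 5, nat_lit 195, nat_lit 1000, nat_lit 157, nat_lit 438, nat_lit 67907, nat_lit 278, nat_lit 817, nat_lit 208, nat_lit 45916455, nat_lit 12356862, nat_lit 8726683, nat_lit 4489044, false, false⟩,
 nat_lit 0, nat_lit 4324, nat_lit 0, nat_lit 0, nat_lit 3243, nat_lit 0, nat_lit 0, nat_lit 0, nat_lit 0, nat_lit 0, nat_lit 0, nat_lit 0, nat_lit 0, nat_lit 0, nat_lit 31, nat_lit 662800, nat_lit 0, nat_lit 0, [(nat_lit 18, [(nat_lit 1, nat_lit 562), (nat_lit 6, nat_lit 438)])],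
 ⟨p079_k15, nat_lit 0, nat_lit 0, nat_lit 168, nat_lit 0, nat_lit 380256, [nat_lit 1497914134, nat_lit 1058263467, nat_lit 13419200], [], [nat_lit 17267142020, nat_lit 18412050256, nat_lit 20101573736, nat_lit 21055622640, nat_lit 19518864108, nat_lit 20523730288, nat_lit 21931607396, nat_lit 22855157518], nat_lit 1271250, nat_lit 1271250, nat_lit 780000, nat_lit 1762500, nat_lit 1100001, nat_lit 1785000, [nat_lit 490000, nat_lit 1100000, nat_lit 1442500], [nat_lit 6, nat_lit 40, nat_lit 40, nat_lit 80, nat_lit 3, nat_lit 345, nat_lit 125, nat_lit 12]⟩, ⟨p079_k17, nat_lit 0, nat_lit 0, nat_lit 681, nat_lit 0, nat_lit 783912, [nat_lit 0, nat_lit 0, nat_lit 0], [], [nat_lit 0, nat_lit 0, nat_lit 0, nat_lit 0, nat_lit 0, nat_lit 0, nat_lit 0, nat_lit 0], nat_lit 1271250, nat_lit 1271250, nat_lit 780000, nat_lit 1762500, nat_lit 0, nat_lit 2712000, [nat_lit 1412500, nat_lit 1271250, nat_lit 1271250], [nat_lit 46, nat_lit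 40, nat_lit 40, nat_lit 80, nat_lit 41, nat_lit 456, nat_lit 225, nat_lit 12]⟩,
 ⟨nat_lit 3872, nat_lit 4473, ⟨.ofNat (nat_lit 364028), .ofNat (nat_lit 567977), .ofNat (nat_lit 407125), .ofNat (nat_lit 611083), .ofNat (nat_lit 370941), .ofNat (nat_lit 564520), .ofNat (nat_lit 414492), .ofNat (nat_lit 608080)⟩, ⟨.ofNat (nat_lit 302621), .ofNat (nat_lit 438578), .ofNat (nat_lit 345754), .ofNat (nat_lit 481711), .ofNat (nat_lit 304717), .ofNat (nat_lit 433760), .ofNat (nat_lit 348304), .ofNat (nat_lit 477347)⟩⟩, [⟨nat_lit 4, nat_lit 100, nat_lit 81, nat_lit 92, nat_lit 92193747⟩]⟩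
noncomputable def p079_l123 : Lf2 := ⟨nat_lit 0, nat_lit 10, [nat_lit 0, nat_lit 5, nat_lit 5, nat_lit 20], false, nat_lit 240, nat_lit 300, nat_lit 0, nat_lit 384, ⟨nat_lit 0, nat_lit 1000, nat_lit 0, nat_lit 5, nat_lit 195, nat_lit 1000, nat_lit 203, nat_lit 0, nat_lit 0, nat_lit 0, nat_lit 0, nat_lit 0, nat_lit 42547953, nat_lit 11855497, nat_lit 12596550, nat_lit 4898020, false, false⟩,
 nat_lit 0, nat_lit 4826, nat_lit 0, nat_lit 0, nat_lit 3619, nat_lit 0, nat_lit 0, nat_lit 0, nat_lit 0, nat_lit 0, nat_lit 0, nat_lit 0, nat_lit 0, nat_lit 0, nat_lit 0, nat_lit 826000, nat_lit 0, nat_lit 0, [(nat_lit 18, [(nat_lit 1, nat_lit 290), (nat_lit 2, nat_lit 710)])],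
 ⟨p079_k15, nat_lit 0, nat_lit 0, nat_lit 185, nat_lit 0, nat_lit 380256, [nat_lit 1613784000, nat_lit 1312520000, nat_lit 253960000], [], [nat_lit 20469296320, nat_lit 21522012260, nat_lit 22851890424, nat_lit 23729778458, nat_lit 22799965576, nat_lit 23732678803, nat_lit 24781327413, nat_lit 25563152923], nat_lit 1271250, nat_lit 1271250, nat_lit 780000, nat_lit 1762500, nat_lit 1271250, nat_lit 1271250, [nat_lit 490000, nat_lit 1100000, nat_lit 1442500], [nat_lit 6, nat_lit 40, nat_lit 40, nat_lit 80, nat_lit 3, nat_lit 272, nat_lit 60, nat_lit 9]⟩, ⟨p079_k17, nat_lit 0, nat_lit 0, nat_lit 681, nat_lit 0, nat_lit 783912, [nat_lit 0, nat_lit 0, nat_lit 0], [], [nat_lit 0, nat_lit 0, nat_lit 0, nat_lit 0, nat_lit 0, nat_lit 0, nat_lit 0, nat_lit 0], nat_lit 1271250, nat_lit 1271250, nat_lit 780000, nat_lit 1762500, nat_lit 0, nat_lit 2712000, [nat_lit 1412500, nat_lit 1271250, nat_lit 1271250], [nat_lit 46, nat_lit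 40, nat_lit 40, nat_lit 80, nat_lit 41, nat_lit 456, nat_lit 225, nat_lit 12]⟩,
 ⟨nat_lit 3872, nat_lit 4473, ⟨.ofNat (nat_lit 364028), .ofNat (nat_lit 567977), .ofNat (nat_lit 407125), .ofNat (nat_lit 611083), .ofNat (nat_lit 370941), .ofNat (nat_lit 564520), .ofNat (nat_lit 414492), .ofNat (nat_lit 608080)⟩, ⟨.ofNat (nat_lit 438578), .ofNat (nat_lit 540545), .ofNat (nat_lit 481711), .ofNat (nat_lit 583678), .ofNat (nat_lit 433760), .ofNat (nat_lit 530543), .ofNat (nat_lit 477347), .ofNat (nat_lit 574129)⟩⟩, [⟨nat_lit 4, nat_lit 100, nat_lit 81, nat_lit 92, nat_lit 191903492⟩]⟩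
noncomputable def p079_l124 : Lf2 := ⟨nat_lit 0, nat_lit 10, [nat_lit 0, nat_lit 5, nat_lit 5, nat_lit 20], false, nat_lit 160, nat_lit 276, nat_lit 0, nat_lit 384, ⟨nat_lit 0, nat_lit 1000, nat_lit 0, nat_lit 5, nat_lit 196, nat_lit 1000, nat_lit 167, nat_lit 0, nat_lit 0, nat_lit 0, nat_lit 0, nat_lit 0, nat_lit 45085175, nat_lit 12325332, nat_lit 9589493, nat_lit 4602099, false, false⟩,
 nat_lit 0, nat_lit 4160, nat_lit 0, nat_lit 0, nat_lit 3367, nat_lit 0, nat_lit 377, nat_lit 0, nat_lit 0, nat_lit 0, nat_lit 0, nat_lit 0, nat_lit 0, nat_lit 0, nat_lit 0, nat_lit 400000, nat_lit 0, nat_lit 0, [(nat_lit 21, [(nat_lit 1, nat_lit 1000)])],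
 ⟨p079_k19, nat_lit 0, nat_lit 0, nat_lit 227, nat_lit 0, nat_lit 463814, [nat_lit 1355200000, nat_lit 1492800001, nat_lit 1492000000], [], [nat_lit 18868206716, nat_lit 19958934752, nat_lit 21442760780, nat_lit 22493378216, nat_lit 22239384705, nat_lit 23326982159, nat_lit 24629335292, nat_lit 25538084490], nat_lit 1271250, nat_lit 1271250, nat_lit 780000, nat_lit 1762500, nat_lit 1100001, nat_lit 2093250, [nat_lit 490000, nat_lit 1100000, nat_lit 1442500], [nat_lit 6, nat_lit 40, nat_lit 40, nat_lit 80, nat_lit 3, nat_lit 373, nat_lit 150, nat_lit 13]⟩, ⟨p079_k17, nat_lit 0, nat_lit 0, nat_lit 811, nat_lit 0, nat_lit 1049774, [nat_lit 0, nat_lit 0, nat_lit 0], [], [nat_lit 0, nat_lit 0, nat_lit 0, nat_lit 0, nat_lit 0, nat_lit 0, nat_lit 0, nat_lit 0], nat_lit 1271250, nat_lit 1271250, nat_lit 780000, nat_lit 1762500, nat_lit 0, nat_lit 2712000, [nat_lit 1412500, nat_lit 1271250, nat_lit 1271250], [nat_lit 46,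 nat_lit 40, nat_lit 40, nat_lit 80, nat_lit 41, nat_lit 456, nat_lit 225, nat_lit 12]⟩,
 ⟨nat_lit 3162, nat_lit 3873, ⟨.ofNat (nat_lit 370892), .ofNat (nat_lit 564520), .ofNat (nat_lit 414421), .ofNat (nat_lit 608082), .ofNat (nat_lit 378028), .ofNat (nat_lit 560952), .ofNat (nat_lit 422280), .ofNat (nat_lit 605237)⟩, ⟨.ofNat (nat_lit 304717), .ofNat (nat_lit 491830), .ofNat (nat_lit 348304), .ofNat (nat_lit 535416), .ofNat (nat_lit 306116), .ofNat (nat_lit 482881), .ofNat (nat_lit 350426), .ofNat (nat_lit 527190)⟩⟩, [⟨nat_lit 4, nat_lit 100, nat_lit 67, nat_lit 88, nat_lit 218931580⟩]⟩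
noncomputable def b_V_800_500_20_8 : St := ⟨true, nat_lit 1, nat_lit 1, nat_lit 1, nat_lit 120, nat_lit 320, nat_lit 360, nat_lit 200, nat_lit 240, nat_lit 40, nat_lit 240, nat_lit 80, nat_lit 120, nat_lit 0, nat_lit 300, nat_lit 0, nat_lit 384, nat_lit 0, nat_lit 40, nat_lit 0, nat_lit 0, nat_lit 0, nat_lit 0⟩
theorem d_V_800_500_20_8 (h : EB TB.env) : Dead b_V_800_500_20_8 := chkB_sound0 h (T :=
(.spl (nat_lit 4) (nat_lit 160)
(.spl (nat_lit 2) (nat_lit 160)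
(.leaf p079_l115)
(.spl (nat_lit 5) (nat_lit 160)
(.leaf p079_l116)
(.spl (nat_lit 0) (nat_lit 340)
(.leaf p079_l117)
(.leaf p079_l118))))
(.spl (nat_lit 2) (nat_lit 120)
(.spl (nat_lit 4) (nat_lit 240)
(.leaf p079_l119)
(.trX (nat_lit 23) (nat_lit 100) (nat_lit 59) (nat_lit 94) (nat_lit 364) (.spl (nat_lit 0) (nat_lit 340)
(.leaf p079_l120)
(.trZ (nat_lit 0) (nat_lit 100) (nat_lit 71) (nat_lit 70) (nat_lit 56) (.trX (nat_lit 16) (nat_lit 77) (nat_lit 100) (nat_lit 99) (nat_lit 276) (.leaf p079_l121))))))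
(.spl (nat_lit 0) (nat_lit 340)
(.spl (nat_lit 4) (nat_lit 240)
(.leaf p079_l122)
(.leaf p079_l123))
(.trX (nat_lit 16) (nat_lit 77) (nat_lit 100) (nat_lit 99) (nat_lit 276) (.leaf p079_l124)))))) (by decide +kernel)
noncomputable def p079_l125 : Lf2 := ⟨nat_lit 0, nat_lit 10, [nat_lit 0, nat_lit 5, nat_lit 5, nat_lit 20], false, nat_lit 0, nat_lit 160, nat_lit 0, nat_lit 384, ⟨nat_lit 218, nat_lit 632, nat_lit 150, nat_lit 6, nat_lit 257, nat_lit 782, nat_lit 65, nat_lit 150, nat_lit 40017, nat_lit 264, nat_lit 179748, nat_lit 200, nat_lit 47387302, nat_lit 19612698, nat_lit 0, nat_lit 3022875, true, true⟩,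
 nat_lit 5248, nat_lit 0, nat_lit 0, nat_lit 0, nat_lit 3935, nat_lit 2248, nat_lit 0, nat_lit 0, nat_lit 0, nat_lit 182, nat_lit 0, nat_lit 0, nat_lit 0, nat_lit 0, nat_lit 0, nat_lit 782000, nat_lit 0, nat_lit 0, [(nat_lit 18, [(nat_lit 2, nat_lit 632), (nat_lit 6, nat_lit 150)])],
 ⟨p079_k15, nat_lit 0, nat_lit 0, nat_lit 259, nat_lit 0, nat_lit 340689, [nat_lit 1677515734, nat_lit 1496674667, nat_lit 497277600], [], [nat_lit 22156005795, nat_lit 23190830475, nat_lit 26309012660, nat_lit 27755200080, nat_lit 21677672495, nat_lit 22557141385, nat_lit 24421075123, nat_lit 25275671613], nat_lit 1271250, nat_lit 1271250, nat_lit 1271250, nat_lit 1271250, nat_lit 0, nat_lit 1100001, [nat_lit 490000, nat_lit 1100000, nat_lit 1442500], [nat_lit 6, nat_lit 40, nat_lit 40, nat_lit 80, nat_lit 3, nat_lit 249, nat_lit 40, nat_lit 9]⟩, ⟨p079_k17, nat_lit 0, nat_lit 0, nat_lit 585, nat_lit 0, nat_lit 702344, [nat_lit 1362500000,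 nat_lit 2145556000, nat_lit 2588096000], [], [nat_lit 8588802752, nat_lit 8607280216, nat_lit 9037428880, nat_lit 9058485780, nat_lit 8571717810, nat_lit 7613211858, nat_lit 7770986808, nat_lit 7747985895], nat_lit 1271250, nat_lit 1271250, nat_lit 1271250, nat_lit 1271250, nat_lit 0, nat_lit 2712000, [nat_lit 1412500, nat_lit 1271250, nat_lit 1271250], [nat_lit 46, nat_lit 40, nat_lit 40, nat_lit 80, nat_lit 41, nat_lit 483, nat_lit 250, nat_lit 12]⟩,
 ⟨nat_lit 3872, nat_lit 4473, ⟨.ofNat (nat_lit 567977), .ofNat (nat_lit 703933), .ofNat (nat_lit 589534), .ofNat (nat_lit 725499), .ofNat (nat_lit 564520), .ofNat (nat_lit 693563), .ofNat (nat_lit 586304), .ofNat (nat_lit 715356)⟩, ⟨.ofNat (nat_lit 0), .ofNat (nat_lit 302621), .ofNat (nat_lit 0), .ofNat (nat_lit 345754), .ofNat (nat_lit 0), .ofNat (nat_lit 304717), .ofNat (nat_lit 0), .ofNat (nat_lit 348304)⟩⟩, [⟨nat_lit 22, nat_lit 100, nat_lit 95, nat_lit 87, nat_lit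 30731642⟩]⟩
noncomputable def p079_l126 : Lf2 := ⟨nat_lit 0, nat_lit 10, [nat_lit 0, nat_lit 5, nat_lit 5, nat_lit 20], false, nat_lit 0, nat_lit 160, nat_lit 0, nat_lit 376, ⟨nat_lit 393, nat_lit 382, nat_lit 225, nat_lit 6, nat_lit 266, nat_lit 607, nat_lit 65, nat_lit 225, nat_lit 40017, nat_lit 264, nat_lit 222856, nat_lit 200, nat_lit 46455750, nat_lit 20544250, nat_lit 0, nat_lit 3081889, true, true⟩,
 nat_lit 6584, nat_lit 0, nat_lit 0, nat_lit 0, nat_lit 4802, nat_lit 3148, nat_lit 0, nat_lit 0, nat_lit 0, nat_lit 804, nat_lit 0, nat_lit 0, nat_lit 0, nat_lit 0, nat_lit 0, nat_lit 607000, nat_lit 0, nat_lit 0, [(nat_lit 18, [(nat_lit 2, nat_lit 382), (nat_lit 6, nat_lit 225)])],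
 ⟨p079_k15, nat_lit 0, nat_lit 0, nat_lit 270, nat_lit 0, nat_lit 380256, [nat_lit 1687129067, nat_lit 1962761334, nat_lit 1409267600], [], [nat_lit 22643676960, nat_lit 24639353988, nat_lit 28065412472, nat_lit 29669855136, nat_lit 20308759217, nat_lit 21179573523, nat_lit 24189316216, nat_lit 25574229152], nat_lit 1271250, nat_lit 1271250, nat_lit 1271250, nat_lit 1271250, nat_lit 0, nat_lit 1100001, [nat_lit 490000, nat_lit 1100000, nat_lit 1442500], [nat_lit 6, nat_lit 40, nat_lit 40, nat_lit 80, nat_lit 3, nat_lit 249, nat_lit 40, nat_lit 9]⟩, ⟨p079_k20, nat_lit 0, nat_lit 0, nat_lit 569, nat_lit 0, nat_lit 676386, [nat_lit 2456250000, nat_lit 3867906000, nat_lit 4665696000], [], [nat_lit 13714573982, nat_lit 13784793776, nat_lit 14362830828, nat_lit 14392839248, nat_lit 14132643986, nat_lit 12732462065, nat_lit 12934671795, nat_lit 12939687014], nat_lit 1271250, nat_lit 1271250, nat_lit 1271250, nat_lit 1271250,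 nat_lit 0, nat_lit 2655500, [nat_lit 1412500, nat_lit 1271250, nat_lit 1271250], [nat_lit 46, nat_lit 40, nat_lit 40, nat_lit 80, nat_lit 41, nat_lit 483, nat_lit 250, nat_lit 12]⟩,
 ⟨nat_lit 3872, nat_lit 4473, ⟨.ofNat (nat_lit 589534), .ofNat (nat_lit 725499), .ofNat (nat_lit 611083), .ofNat (nat_lit 747053), .ofNat (nat_lit 586304), .ofNat (nat_lit 715356), .ofNat (nat_lit 608080), .ofNat (nat_lit 737137)⟩, ⟨.ofNat (nat_lit 0), .ofNat (nat_lit 302621), .ofNat (nat_lit 0), .ofNat (nat_lit 345754), .ofNat (nat_lit 0), .ofNat (nat_lit 304717), .ofNat (nat_lit 0), .ofNat (nat_lit 348304)⟩⟩, [⟨nat_lit 22, nat_lit 100, nat_lit 95, nat_lit 87, nat_lit 67759656⟩]⟩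
noncomputable def p079_l127 : Lf2 := ⟨nat_lit 0, nat_lit 10, [nat_lit 0, nat_lit 5, nat_lit 5, nat_lit 20], false, nat_lit 0, nat_lit 160, nat_lit 0, nat_lit 336, ⟨nat_lit 214, nat_lit 786, nat_lit 0, nat_lit 8, nat_lit 301, nat_lit 786, nat_lit 65, nat_lit 0, nat_lit 0, nat_lit 0, nat_lit 0, nat_lit 0, nat_lit 42770983, nat_lit 24229017, nat_lit 0, nat_lit 3271742, true, true⟩,
 nat_lit 5150, nat_lit 0, nat_lit 0, nat_lit 0, nat_lit 3862, nat_lit 2207, nat_lit 0, nat_lit 0, nat_lit 0, nat_lit 178, nat_lit 0, nat_lit 0, nat_lit 0, nat_lit 0, nat_lit 0, nat_lit 778200, nat_lit 0, nat_lit 0, [(nat_lit 18, [(nat_lit 1, nat_lit 13), (nat_lit 2, nat_lit 773)])],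
 ⟨p079_k15, nat_lit 0, nat_lit 0, nat_lit 273, nat_lit 0, nat_lit 340689, [nat_lit 1768566667, nat_lit 1836841334, nat_lit 1020396800], [], [nat_lit 26506231829, nat_lit 27593989216, nat_lit 29942454762, nat_lit 31160241159, nat_lit 25866679093, nat_lit 26638101493, nat_lit 27906197776, nat_lit 28590767335], nat_lit 1271250, nat_lit 1271250, nat_lit 1271250, nat_lit 1271250, nat_lit 0, nat_lit 1100001, [nat_lit 490000, nat_lit 1100000, nat_lit 1442500], [nat_lit 6, nat_lit 40, nat_lit 40, nat_lit 80, nat_lit 3, nat_lit 249, nat_lit 40, nat_lit 8]⟩, ⟨p079_k17, nat_lit 0, nat_lit 0, nat_lit 579, nat_lit 0, nat_lit 702344, [nat_lit 1337500000, nat_lit 2106188000, nat_lit 2540608000], [], [nat_lit 8871127340, nat_lit 8891790678, nat_lit 9392959203, nat_lit 9389482210, nat_lit 7346586801, nat_lit 7310102672, nat_lit 7618483129, nat_lit 7595246546], nat_lit 1271250, nat_lit 1271250, nat_lit 1271250, nat_lit 1271250,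 nat_lit 0, nat_lit 2373000, [nat_lit 1412500, nat_lit 1271250, nat_lit 1271250], [nat_lit 46, nat_lit 40, nat_lit 40, nat_lit 80, nat_lit 41, nat_lit 373, nat_lit 150, nat_lit 9]⟩,
 ⟨nat_lit 3872, nat_lit 4473, ⟨.ofNat (nat_lit 703933), .ofNat (nat_lit 792305), .ofNat (nat_lit 725499), .ofNat (nat_lit 813871), .ofNat (nat_lit 693563), .ofNat (nat_lit 777441), .ofNat (nat_lit 715356), .ofNat (nat_lit 799235)⟩, ⟨.ofNat (nat_lit 0), .ofNat (nat_lit 302621), .ofNat (nat_lit 0), .ofNat (nat_lit 345754), .ofNat (nat_lit 0), .ofNat (nat_lit 304717), .ofNat (nat_lit 0), .ofNat (nat_lit 348304)⟩⟩, [⟨nat_lit 13, nat_lit 76, nat_lit 61, nat_lit 100, nat_lit 89175503⟩, ⟨nat_lit 22, nat_lit 69, nat_lit 100, nat_lit 80, nat_lit 25044951⟩]⟩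
noncomputable def p079_l128 : Lf2 := ⟨nat_lit 0, nat_lit 10, [nat_lit 0, nat_lit 5, nat_lit 5, nat_lit 20], false, nat_lit 0, nat_lit 160, nat_lit 0, nat_lit 336, ⟨nat_lit 1000, nat_lit 0, nat_lit 0, nat_lit 0, nat_lit 0, nat_lit 0, nat_lit 0, nat_lit 0, nat_lit 0, nat_lit 0, nat_lit 0, nat_lit 0, nat_lit 0, nat_lit 0, nat_lit 0, nat_lit 0, false, false⟩,
 nat_lit 9037, nat_lit 0, nat_lit 6803, nat_lit 0, nat_lit 6777, nat_lit 7575, nat_lit 461, nat_lit 0, nat_lit 0, nat_lit 2961, nat_lit 0, nat_lit 0, nat_lit 0, nat_lit 0, nat_lit 0, nat_lit 0, nat_lit 0, nat_lit 0, [],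
 ⟨p079_k15, nat_lit 0, nat_lit 0, nat_lit 299, nat_lit 0, nat_lit 380256, [nat_lit 2032000001, nat_lit 4688000000, nat_lit 6250000000], [], [nat_lit 32066438572, nat_lit 34031381936, nat_lit 38539122368, nat_lit 40089890038, nat_lit 26171591744, nat_lit 27104958660, nat_lit 30963530048, nat_lit 32312631783], nat_lit 1271250, nat_lit 1271250, nat_lit 1271250, nat_lit 1271250, nat_lit 0, nat_lit 1100001, [nat_lit 490000, nat_lit 1100000, nat_lit 1442500], [nat_lit 6, nat_lit 40, nat_lit 40, nat_lit 80, nat_lit 3, nat_lit 249, nat_lit 40, nat_lit 8]⟩, ⟨p079_k20, nat_lit 0, nat_lit 0, nat_lit 564, nat_lit 0, nat_lit 676386, [nat_lit 6250000000, nat_lit 9842000000, nat_lit 11872000000], [], [nat_lit 33745858400, nat_lit 33920442500, nat_lit 36394614840, nat_lit 36550397621, nat_lit 31679558540, nat_lit 31773555280, nat_lit 33548349493, nat_lit 33817297405], nat_lit 1271250, nat_lit 1271250, nat_lit 1271250, nat_lit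 1271250, nat_lit 0, nat_lit 2373000, [nat_lit 1412500, nat_lit 1271250, nat_lit 1271250], [nat_lit 46, nat_lit 40, nat_lit 40, nat_lit 80, nat_lit 41, nat_lit 373, nat_lit 150, nat_lit 9]⟩,
 zbF0, [⟨nat_lit 22, nat_lit 82, nat_lit 76, nat_lit 100, nat_lit 181449134⟩]⟩
noncomputable def p079_l129 : Lf2 := ⟨nat_lit 0, nat_lit 10, [nat_lit 0, nat_lit 5, nat_lit 5, nat_lit 20], false, nat_lit 0, nat_lit 80, nat_lit 0, nat_lit 336, ⟨nat_lit 158, nat_lit 842, nat_lit 0, nat_lit 6, nat_lit 262, nat_lit 842, nat_lit 38, nat_lit 0, nat_lit 0, nat_lit 0, nat_lit 0, nat_lit 0, nat_lit 46839482, nat_lit 20160518, nat_lit 0, nat_lit 3058137, true, true⟩,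
 nat_lit 3917, nat_lit 0, nat_lit 0, nat_lit 0, nat_lit 3170, nat_lit 1678, nat_lit 411, nat_lit 0, nat_lit 0, nat_lit 110, nat_lit 0, nat_lit 0, nat_lit 0, nat_lit 0, nat_lit 0, nat_lit 336800, nat_lit 0, nat_lit 0, [(nat_lit 21, [(nat_lit 1, nat_lit 842)])],
 ⟨p079_k19, nat_lit 0, nat_lit 0, nat_lit 309, nat_lit 0, nat_lit 424304, [nat_lit 1462134400, nat_lit 1997641601, nat_lit 2243764000], [], [nat_lit 24192709896, nat_lit 25204081956, nat_lit 28430007453, nat_lit 29235878068, nat_lit 23741280756, nat_lit 24689247876, nat_lit 27738609165, nat_lit 28499074621], nat_lit 1271250, nat_lit 1271250, nat_lit 1271250, nat_lit 1271250, nat_lit 0, nat_lit 490000, [nat_lit 490000, nat_lit 1100000, nat_lit 1442500], [nat_lit 6, nat_lit 40, nat_lit 40, nat_lit 80, nat_lit 3, nat_lit 226, nat_lit 20, nat_lit 8]⟩, ⟨p079_k17, nat_lit 0, nat_lit 0, nat_lit 713, nat_lit 0, nat_lit 960349, [nat_lit 987500000, nat_lit 1555036000,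 nat_lit 1875776000], [], [nat_lit 6490865032, nat_lit 6483806762, nat_lit 6794512201, nat_lit 6789373000, nat_lit 5517862655, nat_lit 5232932321, nat_lit 5488550967, nat_lit 5491220615], nat_lit 1271250, nat_lit 1271250, nat_lit 1271250, nat_lit 1271250, nat_lit 0, nat_lit 2373000, [nat_lit 1412500, nat_lit 1271250, nat_lit 1271250], [nat_lit 46, nat_lit 40, nat_lit 40, nat_lit 80, nat_lit 41, nat_lit 456, nat_lit 225, nat_lit 12]⟩,
 ⟨nat_lit 3162, nat_lit 3873, ⟨.ofNat (nat_lit 564520), .ofNat (nat_lit 745180), .ofNat (nat_lit 575417), .ofNat (nat_lit 756077), .ofNat (nat_lit 560952), .ofNat (nat_lit 731621), .ofNat (nat_lit 572029), .ofNat (nat_lit 742699)⟩, ⟨.ofNat (nat_lit 0), .ofNat (nat_lit 175674), .ofNat (nat_lit 0), .ofNat (nat_lit 200000), .ofNat (nat_lit 0), .ofNat (nat_lit 184209), .ofNat (nat_lit 0), .ofNat (nat_lit 200000)⟩⟩, [⟨nat_lit 13, nat_lit 60, nat_lit 80, nat_lit 100, nat_lit 109866718⟩, ⟨nat_lit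 3, nat_lit 100, nat_lit 65, nat_lit 54, nat_lit 11905596⟩, ⟨nat_lit 10, nat_lit 100, nat_lit 70, nat_lit 61, nat_lit 24890657⟩]⟩
noncomputable def p079_l130 : Lf2 := ⟨nat_lit 0, nat_lit 10, [nat_lit 0, nat_lit 5, nat_lit 5, nat_lit 20], false, nat_lit 0, nat_lit 80, nat_lit 0, nat_lit 336, ⟨nat_lit 217, nat_lit 783, nat_lit 0, nat_lit 6, nat_lit 269, nat_lit 783, nat_lit 38, nat_lit 0, nat_lit 0, nat_lit 0, nat_lit 0, nat_lit 0, nat_lit 46099965, nat_lit 20900035, nat_lit 0, nat_lit 3103223, true, true⟩,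
 nat_lit 4540, nat_lit 0, nat_lit 0, nat_lit 0, nat_lit 3298, nat_lit 2057, nat_lit 279, nat_lit 0, nat_lit 0, nat_lit 390, nat_lit 0, nat_lit 0, nat_lit 0, nat_lit 0, nat_lit 0, nat_lit 313200, nat_lit 0, nat_lit 0, [(nat_lit 21, [(nat_lit 1, nat_lit 783)])],
 ⟨p079_k19, nat_lit 0, nat_lit 0, nat_lit 314, nat_lit 0, nat_lit 434917, [nat_lit 1502065601, nat_lit 2186158400, nat_lit 2524486000], [], [nat_lit 24748550431, nat_lit 25685803203, nat_lit 29137453836, nat_lit 30042399456, nat_lit 24073322923, nat_lit 24954045540, nat_lit 28351801736, nat_lit 29108504532], nat_lit 1271250, nat_lit 1271250, nat_lit 1271250, nat_lit 1271250, nat_lit 0, nat_lit 490000, [nat_lit 490000, nat_lit 1100000, nat_lit 1442500], [nat_lit 6, nat_lit 40, nat_lit 40, nat_lit 80, nat_lit 3, nat_lit 226, nat_lit 20, nat_lit 8]⟩, ⟨p079_k21, nat_lit 0, nat_lit 0, nat_lit 690, nat_lit 0, nat_lit 912676, [nat_lit 1356250000, nat_lit 2135714000,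 nat_lit 2576224000], [], [nat_lit 8404613986, nat_lit 8408927492, nat_lit 8893314605, nat_lit 8880728050, nat_lit 7269282959, nat_lit 7002057460, nat_lit 7305711854, nat_lit 7300460148], nat_lit 1271250, nat_lit 1271250, nat_lit 1271250, nat_lit 1271250, nat_lit 0, nat_lit 2373000, [nat_lit 1412500, nat_lit 1271250, nat_lit 1271250], [nat_lit 46, nat_lit 40, nat_lit 40, nat_lit 80, nat_lit 41, nat_lit 483, nat_lit 250, nat_lit 12]⟩,
 ⟨nat_lit 3162, nat_lit 3873, ⟨.ofNat (nat_lit 575417), .ofNat (nat_lit 768981), .ofNat (nat_lit 586313), .ofNat (nat_lit 779878), .ofNat (nat_lit 572029), .ofNat (nat_lit 754889), .ofNat (nat_lit 583107), .ofNat (nat_lit 765967)⟩, ⟨.ofNat (nat_lit 0), .ofNat (nat_lit 175674), .ofNat (nat_lit 0), .ofNat (nat_lit 200000), .ofNat (nat_lit 0), .ofNat (nat_lit 184209), .ofNat (nat_lit 0), .ofNat (nat_lit 200000)⟩⟩, [⟨nat_lit 13, nat_lit 60, nat_lit 77, nat_lit 100, nat_lit 58074960⟩, ⟨nat_lit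 10, nat_lit 100, nat_lit 70, nat_lit 61, nat_lit 41238509⟩]⟩
noncomputable def p079_l131 : Lf2 := ⟨nat_lit 0, nat_lit 10, [nat_lit 0, nat_lit 5, nat_lit 5, nat_lit 20], false, nat_lit 0, nat_lit 80, nat_lit 0, nat_lit 336, ⟨nat_lit 391, nat_lit 609, nat_lit 0, nat_lit 6, nat_lit 278, nat_lit 609, nat_lit 38, nat_lit 0, nat_lit 0, nat_lit 0, nat_lit 0, nat_lit 0, nat_lit 45132596, nat_lit 21867404, nat_lit 0, nat_lit 3157922, true, true⟩,
 nat_lit 6488, nat_lit 0, nat_lit 0, nat_lit 0, nat_lit 3792, nat_lit 3102, nat_lit 406, nat_lit 0, nat_lit 0, nat_lit 815, nat_lit 0, nat_lit 0, nat_lit 0, nat_lit 0, nat_lit 0, nat_lit 243600, nat_lit 0, nat_lit 0, [(nat_lit 21, [(nat_lit 1, nat_lit 609)])],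
 ⟨p079_k19, nat_lit 0, nat_lit 0, nat_lit 325, nat_lit 0, nat_lit 463814, [nat_lit 1619828800, nat_lit 2742123200, nat_lit 3352378000], [], [nat_lit 24072106112, nat_lit 25065039600, nat_lit 30688210532, nat_lit 31912226273, nat_lit 23113744480, nat_lit 24044967056, nat_lit 27934840477, nat_lit 28937239258], nat_lit 1271250, nat_lit 1271250, nat_lit 1271250, nat_lit 1271250, nat_lit 0, nat_lit 490000, [nat_lit 490000, nat_lit 1100000, nat_lit 1442500], [nat_lit 6, nat_lit 40, nat_lit 40, nat_lit 80, nat_lit 3, nat_lit 226, nat_lit 20, nat_lit 8]⟩, ⟨p079_k20, nat_lit 0, nat_lit 0, nat_lit 684, nat_lit 0, nat_lit 905782, [nat_lit 2443750000, nat_lit 3848222000, nat_lit 4641952000], [], [nat_lit 14093310374, nat_lit 14127263976, nat_lit 14968463713, nat_lit 14955617411, nat_lit 12912176527, nat_lit 12407093319, nat_lit 12923975499, nat_lit 12944187214], nat_lit 1271250, nat_lit 1271250, nat_lit 1271250, nat_lit 1271250,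 nat_lit 0, nat_lit 2373000, [nat_lit 1412500, nat_lit 1271250, nat_lit 1271250], [nat_lit 46, nat_lit 40, nat_lit 40, nat_lit 80, nat_lit 41, nat_lit 483, nat_lit 250, nat_lit 12]⟩,
 ⟨nat_lit 3162, nat_lit 3873, ⟨.ofNat (nat_lit 586313), .ofNat (nat_lit 792782), .ofNat (nat_lit 608082), .ofNat (nat_lit 814576), .ofNat (nat_lit 583107), .ofNat (nat_lit 778158), .ofNat (nat_lit 605237), .ofNat (nat_lit 800312)⟩, ⟨.ofNat (nat_lit 0), .ofNat (nat_lit 175674), .ofNat (nat_lit 0), .ofNat (nat_lit 200000), .ofNat (nat_lit 0), .ofNat (nat_lit 184209), .ofNat (nat_lit 0), .ofNat (nat_lit 200000)⟩⟩, [⟨nat_lit 22, nat_lit 86, nat_lit 100, nat_lit 60, nat_lit 85375542⟩]⟩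
noncomputable def p079_l132 : Lf2 := ⟨nat_lit 0, nat_lit 10, [nat_lit 0, nat_lit 5, nat_lit 5, nat_lit 20], false, nat_lit 80, nat_lit 160, nat_lit 0, nat_lit 384, ⟨nat_lit 193, nat_lit 807, nat_lit 0, nat_lit 6, nat_lit 275, nat_lit 807, nat_lit 103, nat_lit 0, nat_lit 0, nat_lit 0, nat_lit 0, nat_lit 0, nat_lit 42096425, nat_lit 20523833, nat_lit 4379742, nat_lit 4410170, true, true⟩,
 nat_lit 4314, nat_lit 0, nat_lit 0, nat_lit 0, nat_lit 3492, nat_lit 1848, nat_lit 523, nat_lit 0, nat_lit 0, nat_lit 134, nat_lit 0, nat_lit 0, nat_lit 0, nat_lit 0, nat_lit 0, nat_lit 322800, nat_lit 0, nat_lit 0, [(nat_lit 21, [(nat_lit 1, nat_lit 807)])],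
 ⟨p079_k19, nat_lit 0, nat_lit 0, nat_lit 241, nat_lit 0, nat_lit 404469, [nat_lit 1485822401, nat_lit 2109473601, nat_lit 2410294000], [], [nat_lit 21659623072, nat_lit 22186644500, nat_lit 27288950559, nat_lit 27857768989, nat_lit 22479276296, nat_lit 22956924672, nat_lit 27413873063, nat_lit 27815076269], nat_lit 1271250, nat_lit 1271250, nat_lit 1271250, nat_lit 1271250, nat_lit 490000, nat_lit 1100001, [nat_lit 490000, nat_lit 1100000, nat_lit 1442500], [nat_lit 6, nat_lit 40, nat_lit 40, nat_lit 80, nat_lit 3, nat_lit 249, nat_lit 40, nat_lit 8]⟩, ⟨p079_k17, nat_lit 0, nat_lit 0, nat_lit 694, nat_lit 0, nat_lit 915456, [nat_lit 1206250000, nat_lit 1899506000, nat_lit 2291296000], [], [nat_lit 8560808152, nat_lit 8548334664, nat_lit 9022189463, nat_lit 8971183292, nat_lit 7638066230, nat_lit 7377347342, nat_lit 7528714487, nat_lit 7403500696], nat_lit 1271250, nat_lit 1271250, nat_lit 1271250, nat_lit 1271250,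 nat_lit 0, nat_lit 2712000, [nat_lit 1412500, nat_lit 1271250, nat_lit 1271250], [nat_lit 46, nat_lit 40, nat_lit 40, nat_lit 80, nat_lit 41, nat_lit 483, nat_lit 250, nat_lit 12]⟩,
 ⟨nat_lit 3535, nat_lit 3873, ⟨.ofNat (nat_lit 564520), .ofNat (nat_lit 770989), .ofNat (nat_lit 608101), .ofNat (nat_lit 814576), .ofNat (nat_lit 562760), .ofNat (nat_lit 763596), .ofNat (nat_lit 606659), .ofNat (nat_lit 807502)⟩, ⟨.ofNat (nat_lit 175674), .ofNat (nat_lit 304717), .ofNat (nat_lit 200000), .ofNat (nat_lit 348304), .ofNat (nat_lit 179999), .ofNat (nat_lit 305521), .ofNat (nat_lit 200000), .ofNat (nat_lit 349427)⟩⟩, [⟨nat_lit 13, nat_lit 69, nat_lit 66, nat_lit 100, nat_lit 84417678⟩, ⟨nat_lit 22, nat_lit 93, nat_lit 89, nat_lit 100, nat_lit 19708015⟩]⟩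
noncomputable def p079_l133 : Lf2 := ⟨nat_lit 0, nat_lit 10, [nat_lit 0, nat_lit 5, nat_lit 5, nat_lit 20], false, nat_lit 80, nat_lit 160, nat_lit 0, nat_lit 384, ⟨nat_lit 173, nat_lit 827, nat_lit 0, nat_lit 6, nat_lit 263, nat_lit 827, nat_lit 104, nat_lit 0, nat_lit 0, nat_lit 0, nat_lit 0, nat_lit 0, nat_lit 43204576, nat_lit 19310362, nat_lit 4485062, nat_lit 4359374, true, true⟩,
 nat_lit 4019, nat_lit 0, nat_lit 0, nat_lit 0, nat_lit 3375, nat_lit 1722, nat_lit 354, nat_lit 0, nat_lit 0, nat_lit 137, nat_lit 0, nat_lit 0, nat_lit 0, nat_lit 0, nat_lit 0, nat_lit 330800, nat_lit 0, nat_lit 0, [(nat_lit 21, [(nat_lit 1, nat_lit 827)])],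
 ⟨p079_k26, nat_lit 0, nat_lit 0, nat_lit 201, nat_lit 0, nat_lit 415877, [nat_lit 1472286401, nat_lit 2038292000], [], [nat_lit 21678173677, nat_lit 22186735453, nat_lit 26451521200, nat_lit 27046668200, nat_lit 22434136828, nat_lit 22942698604, nat_lit 26673878704, nat_lit 27114430554], nat_lit 1271250, nat_lit 1271250, nat_lit 1271250, nat_lit 1271250, nat_lit 490000, nat_lit 1100001, [nat_lit 490000, nat_lit 1100000], [nat_lit 24, nat_lit 40, nat_lit 40, nat_lit 80, nat_lit 33, nat_lit 249, nat_lit 40, nat_lit 10]⟩, ⟨p079_k17, nat_lit 0, nat_lit 0, nat_lit 723, nat_lit 0, nat_lit 984371, [nat_lit 1081250000, nat_lit 1702666000, nat_lit 2053856000], [], [nat_lit 7435193832, nat_lit 7439242030, nat_lit 7783068250, nat_lit 7762027033, nat_lit 6823827587, nat_lit 6364529526, nat_lit 6429903542, nat_lit 6400360793], nat_lit 1271250, nat_lit 1271250, nat_lit 1271250, nat_lit 1271250, nat_lit 0, nat_lit 2712000, [nat_lit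 1412500, nat_lit 1271250, nat_lit 1271250], [nat_lit 46, nat_lit 40, nat_lit 40, nat_lit 80, nat_lit 41, nat_lit 483, nat_lit 250, nat_lit 12]⟩,
 ⟨nat_lit 3162, nat_lit 3536, ⟨.ofNat (nat_lit 562760), .ofNat (nat_lit 732216), .ofNat (nat_lit 584713), .ofNat (nat_lit 754168), .ofNat (nat_lit 560952), .ofNat (nat_lit 725526), .ofNat (nat_lit 583107), .ofNat (nat_lit 747681)⟩, ⟨.ofNat (nat_lit 179999), .ofNat (nat_lit 305521), .ofNat (nat_lit 200000), .ofNat (nat_lit 349427), .ofNat (nat_lit 184209), .ofNat (nat_lit 306116), .ofNat (nat_lit 200000), .ofNat (nat_lit 350426)⟩⟩, [⟨nat_lit 13, nat_lit 63, nat_lit 74, nat_lit 100, nat_lit 125508877⟩, ⟨nat_lit 22, nat_lit 96, nat_lit 86, nat_lit 100, nat_lit 17769987⟩]⟩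
noncomputable def p079_l134 : Lf2 := ⟨nat_lit 0, nat_lit 10, [nat_lit 0, nat_lit 5, nat_lit 5, nat_lit 20], false, nat_lit 80, nat_lit 160, nat_lit 0, nat_lit 376, ⟨nat_lit 267, nat_lit 733, nat_lit 0, nat_lit 6, nat_lit 275, nat_lit 733, nat_lit 104, nat_lit 0, nat_lit 0, nat_lit 0, nat_lit 0, nat_lit 0, nat_lit 42054044, nat_lit 20529706, nat_lit 4416250, nat_lit 4417866, true, true⟩,
 nat_lit 4376, nat_lit 0, nat_lit 0, nat_lit 0, nat_lit 3675, nat_lit 2092, nat_lit 167, nat_lit 0, nat_lit 0, nat_lit 483, nat_lit 0, nat_lit 0, nat_lit 0, nat_lit 0, nat_lit 0, nat_lit 293200, nat_lit 0, nat_lit 0, [(nat_lit 21, [(nat_lit 1, nat_lit 733)])],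
 ⟨p079_k26, nat_lit 0, nat_lit 0, nat_lit 220, nat_lit 0, nat_lit 443508, [nat_lit 1535905600, nat_lit 2339468000], [], [nat_lit 22996993425, nat_lit 23517702050, nat_lit 27631031050, nat_lit 28226926100, nat_lit 23627906350, nat_lit 24099592750, nat_lit 27716127100, nat_lit 28092277300], nat_lit 1271250, nat_lit 1271250, nat_lit 1271250, nat_lit 1271250, nat_lit 490000, nat_lit 1100001, [nat_lit 490000, nat_lit 1100000], [nat_lit 24, nat_lit 40, nat_lit 40, nat_lit 80, nat_lit 33, nat_lit 249, nat_lit 40, nat_lit 10]⟩, ⟨p079_k20, nat_lit 0, nat_lit 0, nat_lit 684, nat_lit 0, nat_lit 905782, [nat_lit 1668750000, nat_lit 2627814000, nat_lit 3169824000], [], [nat_lit 10081833574, nat_lit 10105903336, nat_lit 10623694488, nat_lit 10614698356, nat_lit 9640708183, nat_lit 9127178699, nat_lit 9373069020, nat_lit 9363893658], nat_lit 1271250, nat_lit 1271250, nat_lit 1271250, nat_lit 1271250, nat_lit 0, nat_lit 2655500,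 [nat_lit 1412500, nat_lit 1271250, nat_lit 1271250], [nat_lit 46, nat_lit 40, nat_lit 40, nat_lit 80, nat_lit 41, nat_lit 483, nat_lit 250, nat_lit 12]⟩,
 ⟨nat_lit 3162, nat_lit 3536, ⟨.ofNat (nat_lit 584713), .ofNat (nat_lit 772997), .ofNat (nat_lit 606660), .ofNat (nat_lit 794949), .ofNat (nat_lit 583107), .ofNat (nat_lit 765967), .ofNat (nat_lit 605256), .ofNat (nat_lit 788122)⟩, ⟨.ofNat (nat_lit 179999), .ofNat (nat_lit 305521), .ofNat (nat_lit 200000), .ofNat (nat_lit 349427), .ofNat (nat_lit 184209), .ofNat (nat_lit 306116), .ofNat (nat_lit 200000), .ofNat (nat_lit 350426)⟩⟩, [⟨nat_lit 13, nat_lit 64, nat_lit 68, nat_lit 100, nat_lit 534586⟩, ⟨nat_lit 22, nat_lit 94, nat_lit 88, nat_lit 100, nat_lit 38922486⟩]⟩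
noncomputable def b_V_800_500_20_9 : St := ⟨true, nat_lit 1, nat_lit 1, nat_lit 1, nat_lit 120, nat_lit 320, nat_lit 360, nat_lit 200, nat_lit 240, nat_lit 240, nat_lit 384, nat_lit 80, nat_lit 120, nat_lit 0, nat_lit 160, nat_lit 0, nat_lit 384, nat_lit 0, nat_lit 40, nat_lit 0, nat_lit 0, nat_lit 0, nat_lit 0⟩
theorem d_V_800_500_20_9 (h : EB TB.env) : Dead b_V_800_500_20_9 := chkB_sound0 h (T :=
(.spl (nat_lit 0) (nat_lit 340)
(.spl (nat_lit 2) (nat_lit 320)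
(.spl (nat_lit 1) (nat_lit 220)
(.leaf p079_l125)
(.trX (nat_lit 19) (nat_lit 100) (nat_lit 49) (nat_lit 92) (nat_lit 376) (.leaf p079_l126)))
(.trX (nat_lit 22) (nat_lit 82) (nat_lit 76) (nat_lit 100) (nat_lit 336) (.spl (nat_lit 1) (nat_lit 220)
(.trX (nat_lit 13) (nat_lit 80) (nat_lit 52) (nat_lit 100) (nat_lit 372) (.leaf p079_l127))
(.leaf p079_l128))))
(.trX (nat_lit 13) (nat_lit 73) (nat_lit 55) (nat_lit 100) (nat_lit 368) (.spl (nat_lit 4) (nat_lit 80)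
(.trX (nat_lit 22) (nat_lit 100) (nat_lit 76) (nat_lit 82) (nat_lit 336) (.spl (nat_lit 1) (nat_lit 220)
(.trX (nat_lit 13) (nat_lit 72) (nat_lit 63) (nat_lit 100) (nat_lit 360) (.spl (nat_lit 1) (nat_lit 210)
(.trX (nat_lit 13) (nat_lit 72) (nat_lit 66) (nat_lit 100) (nat_lit 352) (.leaf p079_l129))
(.leaf p079_l130)))
(.leaf p079_l131)))
(.spl (nat_lit 0) (nat_lit 350)
(.leaf p079_l132)
(.trX (nat_lit 13) (nat_lit 68) (nat_lit 61) (nat_lit 100) (nat_lit 360) (.spl (nat_lit 1) (nat_lit 220)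
(.trX (nat_lit 13) (nat_lit 66) (nat_lit 68) (nat_lit 100) (nat_lit 348) (.leaf p079_l133))
(.trX (nat_lit 19) (nat_lit 100) (nat_lit 49) (nat_lit 92) (nat_lit 376) (.leaf p079_l134))))))))) (by decide +kernel)
noncomputable def p079_l135 : Lf2 := ⟨nat_lit 0, nat_lit 5, [nat_lit 4, nat_lit 5, nat_lit 5, nat_lit 20], false, nat_lit 160, nat_lit 300, nat_lit 0, nat_lit 384, ⟨nat_lit 218, nat_lit 782, nat_lit 0, nat_lit 6, nat_lit 262, nat_lit 782, nat_lit 177, nat_lit 0, nat_lit 0, nat_lit 0, nat_lit 0, nat_lit 0, nat_lit 39270014, nat_lit 18099816, nat_lit 9630170, nat_lit 5090305, true, true⟩,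
 nat_lit 4479, nat_lit 518, nat_lit 0, nat_lit 0, nat_lit 3747, nat_lit 1919, nat_lit 461, nat_lit 0, nat_lit 0, nat_lit 355, nat_lit 0, nat_lit 0, nat_lit 0, nat_lit 0, nat_lit 0, nat_lit 312800, nat_lit 0, nat_lit 0, [(nat_lit 18, [(nat_lit 1, nat_lit 782)])],
 ⟨p079_k28, nat_lit 0, nat_lit 0, nat_lit 142, nat_lit 0, nat_lit 302620, [nat_lit 1503368001, nat_lit 2083246134, nat_lit 2904795466], [], [nat_lit 21516143649, nat_lit 22018581836, nat_lit 24463203369, nat_lit 24889590149, nat_lit 25248711318, nat_lit 25677707586, nat_lit 27772396970, nat_lit 28146607269], nat_lit 1271250, nat_lit 1271250, nat_lit 1271250, nat_lit 1271250, nat_lit 1100001, nat_lit 2298750, [nat_lit 490000, nat_lit 780000, nat_lit 1435000], [nat_lit 85, nat_lit 40, nat_lit 40, nat_lit 80, nat_lit 16, nat_lit 289, nat_lit 75, nat_lit 9]⟩, ⟨p079_k40, nat_lit 0, nat_lit 0, nat_lit 541, nat_lit 0, nat_lit 616243, [nat_lit 1362500000, nat_lit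 1737024000, nat_lit 2588096000], [], [nat_lit 7521164263, nat_lit 7611360243, nat_lit 8035434631, nat_lit 8118366427, nat_lit 8685879757, nat_lit 7191809676, nat_lit 7442867128, nat_lit 7428250852], nat_lit 1271250, nat_lit 1271250, nat_lit 1271250, nat_lit 1271250, nat_lit 0, nat_lit 2712000, [nat_lit 1412500, nat_lit 1271250, nat_lit 1271250], [nat_lit 53, nat_lit 40, nat_lit 40, nat_lit 80, nat_lit 14, nat_lit 483, nat_lit 250, nat_lit 12]⟩,
 ⟨nat_lit 4183, nat_lit 4473, ⟨.ofNat (nat_lit 567977), .ofNat (nat_lit 703933), .ofNat (nat_lit 611104), .ofNat (nat_lit 747062), .ofNat (nat_lit 566254), .ofNat (nat_lit 698765), .ofNat (nat_lit 609582), .ofNat (nat_lit 742095)⟩, ⟨.ofNat (nat_lit 302621), .ofNat (nat_lit 540545), .ofNat (nat_lit 345754), .ofNat (nat_lit 583678), .ofNat (nat_lit 303743), .ofNat (nat_lit 535637), .ofNat (nat_lit 347076), .ofNat (nat_lit 578971)⟩⟩, [⟨nat_lit 16, nat_lit 87, nat_lit 95, nat_lit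 100, nat_lit 174833271⟩, ⟨nat_lit 7, nat_lit 59, nat_lit 100, nat_lit 87, nat_lit 40023342⟩]⟩
noncomputable def p079_l136 : Lf2 := ⟨nat_lit 0, nat_lit 5, [nat_lit 4, nat_lit 5, nat_lit 5, nat_lit 20], false, nat_lit 160, nat_lit 288, nat_lit 0, nat_lit 384, ⟨nat_lit 219, nat_lit 781, nat_lit 0, nat_lit 6, nat_lit 261, nat_lit 781, nat_lit 172, nat_lit 0, nat_lit 0, nat_lit 0, nat_lit 0, nat_lit 0, nat_lit 39639472, nat_lit 18066874, nat_lit 9293654, nat_lit 5046572, true, true⟩,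
 nat_lit 4498, nat_lit 0, nat_lit 0, nat_lit 0, nat_lit 3505, nat_lit 1927, nat_lit 445, nat_lit 0, nat_lit 0, nat_lit 357, nat_lit 0, nat_lit 0, nat_lit 0, nat_lit 0, nat_lit 0, nat_lit 312400, nat_lit 0, nat_lit 0, [(nat_lit 18, [(nat_lit 1, nat_lit 781)])],
 ⟨p079_k31, nat_lit 0, nat_lit 0, nat_lit 140, nat_lit 0, nat_lit 345472, [nat_lit 1504044001, nat_lit 2032712401, nat_lit 2518900599], [], [nat_lit 21695882426, nat_lit 22214986576, nat_lit 24694162031, nat_lit 25135089626, nat_lit 25147607405, nat_lit 25564053544, nat_lit 27622508209, nat_lit 27996864255], nat_lit 1271250, nat_lit 1271250, nat_lit 1271250, nat_lit 1271250, nat_lit 1100001, nat_lit 2196000, [nat_lit 490000, nat_lit 780000, nat_lit 1100000], [nat_lit 78, nat_lit 40, nat_lit 40, nat_lit 80, nat_lit 22, nat_lit 203, nat_lit 0, nat_lit 7]⟩, ⟨p079_k40, nat_lit 0, nat_lit 0, nat_lit 588, nat_lit 0, nat_lit 737111, [nat_lit 1368750000, nat_lit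 1744992000, nat_lit 2599968000], [], [nat_lit 7672456565, nat_lit 7714748417, nat_lit 8072566773, nat_lit 8155918341, nat_lit 8726001795, nat_lit 7227196288, nat_lit 7479376304, nat_lit 7461516410], nat_lit 1271250, nat_lit 1271250, nat_lit 1271250, nat_lit 1271250, nat_lit 0, nat_lit 2712000, [nat_lit 1412500, nat_lit 1271250, nat_lit 1271250], [nat_lit 53, nat_lit 40, nat_lit 40, nat_lit 80, nat_lit 14, nat_lit 483, nat_lit 250, nat_lit 12]⟩,
 ⟨nat_lit 3872, nat_lit 4184, ⟨.ofNat (nat_lit 566254), .ofNat (nat_lit 698765), .ofNat (nat_lit 609582), .ofNat (nat_lit 742098), .ofNat (nat_lit 564520), .ofNat (nat_lit 693563), .ofNat (nat_lit 608101), .ofNat (nat_lit 737149)⟩, ⟨.ofNat (nat_lit 303743), .ofNat (nat_lit 515761), .ofNat (nat_lit 347076), .ofNat (nat_lit 559094), .ofNat (nat_lit 304717), .ofNat (nat_lit 511186), .ofNat (nat_lit 348304), .ofNat (nat_lit 554773)⟩⟩, [⟨nat_lit 16, nat_lit 83, nat_lit 98, nat_lit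 100, nat_lit 184298798⟩, ⟨nat_lit 7, nat_lit 59, nat_lit 100, nat_lit 87, nat_lit 40193678⟩]⟩
noncomputable def p079_l137 : Lf2 := ⟨nat_lit 0, nat_lit 10, [nat_lit 0, nat_lit 5, nat_lit 5, nat_lit 20], false, nat_lit 160, nat_lit 300, nat_lit 0, nat_lit 384, ⟨nat_lit 266, nat_lit 734, nat_lit 0, nat_lit 6, nat_lit 262, nat_lit 734, nat_lit 177, nat_lit 0, nat_lit 0, nat_lit 0, nat_lit 0, nat_lit 0, nat_lit 39270014, nat_lit 18099816, nat_lit 9630170, nat_lit 5090305, true, true⟩,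
 nat_lit 6434, nat_lit 0, nat_lit 0, nat_lit 0, nat_lit 4825, nat_lit 2757, nat_lit 0, nat_lit 0, nat_lit 0, nat_lit 210, nat_lit 0, nat_lit 0, nat_lit 0, nat_lit 0, nat_lit 0, nat_lit 283850, nat_lit 0, nat_lit 0, [(nat_lit 18, [(nat_lit 0, nat_lit 65), (nat_lit 1, nat_lit 669)])],
 ⟨p079_k15, nat_lit 0, nat_lit 0, nat_lit 102, nat_lit 0, nat_lit 142896, [nat_lit 1575495201, nat_lit 2703628000, nat_lit 3140805200], [], [nat_lit 21360278900, nat_lit 22032326500, nat_lit 25122221700, nat_lit 25678149575, nat_lit 25832926375, nat_lit 26340331225, nat_lit 28589083925, nat_lit 29011886700], nat_lit 1271250, nat_lit 1271250, nat_lit 1271250, nat_lit 1271250, nat_lit 1100001, nat_lit 2298750, [nat_lit 490000, nat_lit 1100000, nat_lit 1442500], [nat_lit 6, nat_lit 40, nat_lit 40, nat_lit 80, nat_lit 3, nat_lit 289, nat_lit 75, nat_lit 9]⟩, ⟨p079_k17, nat_lit 0, nat_lit 0, nat_lit 387, nat_lit 0, nat_lit 294585, [nat_lit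 1662500000, nat_lit 2617972000, nat_lit 3157952000], [], [nat_lit 9883744912, nat_lit 10076126728, nat_lit 10767101660, nat_lit 10855950708, nat_lit 10454201015, nat_lit 9077409370, nat_lit 9491121945, nat_lit 9488301227], nat_lit 1271250, nat_lit 1271250, nat_lit 1271250, nat_lit 1271250, nat_lit 0, nat_lit 2712000, [nat_lit 1412500, nat_lit 1271250, nat_lit 1271250], [nat_lit 46, nat_lit 40, nat_lit 40, nat_lit 80, nat_lit 41, nat_lit 483, nat_lit 250, nat_lit 12]⟩,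
 ⟨nat_lit 4183, nat_lit 4473, ⟨.ofNat (nat_lit 567977), .ofNat (nat_lit 703933), .ofNat (nat_lit 611104), .ofNat (nat_lit 747062), .ofNat (nat_lit 566254), .ofNat (nat_lit 698765), .ofNat (nat_lit 609582), .ofNat (nat_lit 742095)⟩, ⟨.ofNat (nat_lit 302621), .ofNat (nat_lit 540545), .ofNat (nat_lit 345754), .ofNat (nat_lit 583678), .ofNat (nat_lit 303743), .ofNat (nat_lit 535637), .ofNat (nat_lit 347076), .ofNat (nat_lit 578971)⟩⟩, [⟨nat_lit 16, nat_lit 87, nat_lit 95, nat_lit 100, nat_lit 164046907⟩, ⟨nat_lit 4, nat_lit 100, nat_lit 84, nat_lit 93, nat_lit 31429485⟩, ⟨nat_lit 7, nat_lit 59, nat_lit 100, nat_lit 87, nat_lit 41025361⟩]⟩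
noncomputable def p079_l138 : Lf2 := ⟨nat_lit 0, nat_lit 10, [nat_lit 0, nat_lit 5, nat_lit 5, nat_lit 20], false, nat_lit 160, nat_lit 288, nat_lit 0, nat_lit 384, ⟨nat_lit 220, nat_lit 780, nat_lit 0, nat_lit 6, nat_lit 261, nat_lit 780, nat_lit 172, nat_lit 0, nat_lit 0, nat_lit 0, nat_lit 0, nat_lit 0, nat_lit 39639472, nat_lit 18066874, nat_lit 9293654, nat_lit 5046572, true, true⟩,
 nat_lit 5233, nat_lit 0, nat_lit 0, nat_lit 0, nat_lit 3907, nat_lit 2242, nat_lit 305, nat_lit 0, nat_lit 0, nat_lit 179, nat_lit 0, nat_lit 0, nat_lit 0, nat_lit 0, nat_lit 0, nat_lit 195000, nat_lit 0, nat_lit 0, [(nat_lit 18, [(nat_lit 0, nat_lit 780)])],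
 ⟨p079_k18, nat_lit 0, nat_lit 0, nat_lit 121, nat_lit 0, nat_lit 195366, [nat_lit 1642624001, nat_lit 2722400001, nat_lit 3373360000], [], [nat_lit 21648936638, nat_lit 22218939347, nat_lit 24960733885, nat_lit 25466690430, nat_lit 25303329847, nat_lit 25780205059, nat_lit 27922525155, nat_lit 28326069121], nat_lit 1271250, nat_lit 1271250, nat_lit 1271250, nat_lit 1271250, nat_lit 1100001, nat_lit 2196000, [nat_lit 490000, nat_lit 1100000, nat_lit 1442500], [nat_lit 6, nat_lit 40, nat_lit 40, nat_lit 80, nat_lit 3, nat_lit 289, nat_lit 75, nat_lit 9]⟩, ⟨p079_k17, nat_lit 0, nat_lit 0, nat_lit 441, nat_lit 0, nat_lit 422293, [nat_lit 1375000000, nat_lit 2165240000, nat_lit 2611840000], [], [nat_lit 8157997216, nat_lit 8317804784, nat_lit 8883636696, nat_lit 8959043464, nat_lit 8659595815, nat_lit 7577026132, nat_lit 7889221952, nat_lit 7845235493], nat_lit 1271250, nat_lit 1271250, nat_lit 1271250, nat_lit 1271250,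 nat_lit 0, nat_lit 2712000, [nat_lit 1412500, nat_lit 1271250, nat_lit 1271250], [nat_lit 46, nat_lit 40, nat_lit 40, nat_lit 80, nat_lit 41, nat_lit 483, nat_lit 250, nat_lit 12]⟩,
 ⟨nat_lit 3872, nat_lit 4184, ⟨.ofNat (nat_lit 566254), .ofNat (nat_lit 698765), .ofNat (nat_lit 609582), .ofNat (nat_lit 742098), .ofNat (nat_lit 564520), .ofNat (nat_lit 693563), .ofNat (nat_lit 608101), .ofNat (nat_lit 737149)⟩, ⟨.ofNat (nat_lit 303743), .ofNat (nat_lit 515761), .ofNat (nat_lit 347076), .ofNat (nat_lit 559094), .ofNat (nat_lit 304717), .ofNat (nat_lit 511186), .ofNat (nat_lit 348304), .ofNat (nat_lit 554773)⟩⟩, [⟨nat_lit 16, nat_lit 83, nat_lit 98, nat_lit 100, nat_lit 184704396⟩, ⟨nat_lit 7, nat_lit 59, nat_lit 100, nat_lit 87, nat_lit 34124412⟩]⟩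
noncomputable def p079_l139 : Lf2 := ⟨nat_lit 0, nat_lit 5, [nat_lit 4, nat_lit 5, nat_lit 5, nat_lit 20], false, nat_lit 160, nat_lit 300, nat_lit 16, nat_lit 384, ⟨nat_lit 210, nat_lit 790, nat_lit 0, nat_lit 8, nat_lit 299, nat_lit 790, nat_lit 177, nat_lit 0, nat_lit 0, nat_lit 0, nat_lit 0, nat_lit 0, nat_lit 36531669, nat_lit 21315235, nat_lit 9153096, nat_lit 5202853, true, true⟩,
 nat_lit 4756, nat_lit 0, nat_lit 0, nat_lit 0, nat_lit 3566, nat_lit 2038, nat_lit 0, nat_lit 0, nat_lit 0, nat_lit 156, nat_lit 0, nat_lit 0, nat_lit 0, nat_lit 0, nat_lit 0, nat_lit 790000, nat_lit 0, nat_lit 0, [(nat_lit 18, [(nat_lit 2, nat_lit 790)])],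
 ⟨p079_k22, nat_lit 0, nat_lit 0, nat_lit 149, nat_lit 0, nat_lit 244816, [nat_lit 1771194667, nat_lit 1810293334, nat_lit 962372000], [], [nat_lit 24697637780, nat_lit 25161172826, nat_lit 26946999078, nat_lit 27359696787, nat_lit 28092917630, nat_lit 28457638792, nat_lit 29866895071, nat_lit 30193430098], nat_lit 1271250, nat_lit 1271250, nat_lit 1271250, nat_lit 1271250, nat_lit 1100001, nat_lit 2298750, [nat_lit 490000, nat_lit 1100000, nat_lit 1442500], [nat_lit 6, nat_lit 40, nat_lit 40, nat_lit 80, nat_lit 3, nat_lit 289, nat_lit 75, nat_lit 9]⟩, ⟨p079_k41, nat_lit 0, nat_lit 0, nat_lit 484, nat_lit 0, nat_lit 498534, [nat_lit 1312500000, nat_lit 2066820000, nat_lit 2493120000], [], [nat_lit 8784958391, nat_lit 8789382658, nat_lit 9181368240, nat_lit 9176475427, nat_lit 7870613546, nat_lit 7849215274, nat_lit 8049029173, nat_lit 8021992500], nat_lit 1271250, nat_lit 1271250, nat_lit 1271250, nat_lit 1271250,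 nat_lit 88400, nat_lit 2742600, [nat_lit 1412500, nat_lit 1271250, nat_lit 1271250], [nat_lit 46, nat_lit 40, nat_lit 40, nat_lit 80, nat_lit 41, nat_lit 373, nat_lit 150, nat_lit 9]⟩,
 ⟨nat_lit 4183, nat_lit 4473, ⟨.ofNat (nat_lit 703933), .ofNat (nat_lit 785507), .ofNat (nat_lit 714716), .ofNat (nat_lit 796290), .ofNat (nat_lit 698765), .ofNat (nat_lit 778272), .ofNat (nat_lit 709599), .ofNat (nat_lit 789105)⟩, ⟨.ofNat (nat_lit 302621), .ofNat (nat_lit 540545), .ofNat (nat_lit 345754), .ofNat (nat_lit 583678), .ofNat (nat_lit 303743), .ofNat (nat_lit 535637), .ofNat (nat_lit 347076), .ofNat (nat_lit 578971)⟩⟩, [⟨nat_lit 13, nat_lit 78, nat_lit 61, nat_lit 100, nat_lit 99290991⟩, ⟨nat_lit 16, nat_lit 87, nat_lit 95, nat_lit 100, nat_lit 161464628⟩, ⟨nat_lit 19, nat_lit 100, nat_lit 40, nat_lit 92, nat_lit 29717784⟩]⟩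
noncomputable def p079_l140 : Lf2 := ⟨nat_lit 0, nat_lit 5, [nat_lit 4, nat_lit 5, nat_lit 5, nat_lit 20], false, nat_lit 160, nat_lit 300, nat_lit 16, nat_lit 380, ⟨nat_lit 439, nat_lit 561, nat_lit 0, nat_lit 8, nat_lit 305, nat_lit 561, nat_lit 177, nat_lit 0, nat_lit 0, nat_lit 0, nat_lit 0, nat_lit 0, nat_lit 36061854, nat_lit 21856924, nat_lit 9081222, nat_lit 5216843, true, true⟩,
 nat_lit 8076, nat_lit 0, nat_lit 0, nat_lit 0, nat_lit 3921, nat_lit 3660, nat_lit 43, nat_lit 0, nat_lit 0, nat_lit 1071, nat_lit 0, nat_lit 0, nat_lit 0, nat_lit 0, nat_lit 0, nat_lit 561000, nat_lit 0, nat_lit 0, [(nat_lit 18, [(nat_lit 2, nat_lit 561)])],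
 ⟨p079_k22, nat_lit 0, nat_lit 0, nat_lit 145, nat_lit 0, nat_lit 230348, [nat_lit 1846795201, nat_lit 2644464001, nat_lit 2495114800], [], [nat_lit 24979943375, nat_lit 25220813276, nat_lit 27538379563, nat_lit 27759198861, nat_lit 28393851850, nat_lit 28581864963, nat_lit 30387134860, nat_lit 30553095728], nat_lit 1271250, nat_lit 1271250, nat_lit 1271250, nat_lit 1271250, nat_lit 1100001, nat_lit 2298750, [nat_lit 490000, nat_lit 1100000, nat_lit 1442500], [nat_lit 6, nat_lit 40, nat_lit 40, nat_lit 80, nat_lit 3, nat_lit 289, nat_lit 75, nat_lit 9]⟩, ⟨p079_k42, nat_lit 0, nat_lit 0, nat_lit 369, nat_lit 0, nat_lit 435509, [nat_lit 2743750000, nat_lit 4320638000], [], [nat_lit 15630526136, nat_lit 15687971670, nat_lit 17025470575, nat_lit 17080765454, nat_lit 15392870535, nat_lit 15391017420, nat_lit 16077590961, nat_lit 16059594714], nat_lit 1271250, nat_lit 1271250, nat_lit 1271250, nat_lit 1271250, nat_lit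 88400, nat_lit 2713750, [nat_lit 1412500, nat_lit 1271250], [nat_lit 51, nat_lit 40, nat_lit 40, nat_lit 80, nat_lit 1, nat_lit 373, nat_lit 150, nat_lit 10]⟩,
 ⟨nat_lit 4330, nat_lit 4473, ⟨.ofNat (nat_lit 714716), .ofNat (nat_lit 803088), .ofNat (nat_lit 725499), .ofNat (nat_lit 813871), .ofNat (nat_lit 712158), .ofNat (nat_lit 799411), .ofNat (nat_lit 722964), .ofNat (nat_lit 810217)⟩, ⟨.ofNat (nat_lit 302621), .ofNat (nat_lit 540545), .ofNat (nat_lit 345754), .ofNat (nat_lit 583678), .ofNat (nat_lit 303199), .ofNat (nat_lit 538111), .ofNat (nat_lit 346426), .ofNat (nat_lit 581338)⟩⟩, [⟨nat_lit 13, nat_lit 79, nat_lit 55, nat_lit 100, nat_lit 44404409⟩, ⟨nat_lit 16, nat_lit 87, nat_lit 95, nat_lit 100, nat_lit 218520373⟩, ⟨nat_lit 19, nat_lit 100, nat_lit 45, nat_lit 92, nat_lit 81972655⟩]⟩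
noncomputable def p079_l141 : Lf2 := ⟨nat_lit 0, nat_lit 5, [nat_lit 4, nat_lit 5, nat_lit 5, nat_lit 20], false, nat_lit 160, nat_lit 296, nat_lit 16, nat_lit 380, ⟨nat_lit 276, nat_lit 724, nat_lit 0, nat_lit 8, nat_lit 303, nat_lit 724, nat_lit 175, nat_lit 0, nat_lit 0, nat_lit 0, nat_lit 0, nat_lit 0, nat_lit 36332012, nat_lit 21672658, nat_lit 8995330, nat_lit 5198770, true, true⟩,
 nat_lit 5148, nat_lit 0, nat_lit 0, nat_lit 0, nat_lit 3936, nat_lit 2333, nat_lit 0, nat_lit 0, nat_lit 0, nat_lit 643, nat_lit 0, nat_lit 0, nat_lit 0, nat_lit 0, nat_lit 0, nat_lit 497200, nat_lit 0, nat_lit 0, [(nat_lit 18, [(nat_lit 1, nat_lit 378), (nat_lit 2, nat_lit 346)])],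
 ⟨p079_k29, nat_lit 0, nat_lit 0, nat_lit 125, nat_lit 0, nat_lit 255242, [nat_lit 1678172267, nat_lit 2355917333], [], [nat_lit 25616037717, nat_lit 25835007509, nat_lit 27719321482, nat_lit 27914132422, nat_lit 28541418362, nat_lit 28714447413, nat_lit 30232493339, nat_lit 30444712686], nat_lit 1271250, nat_lit 1271250, nat_lit 1271250, nat_lit 1271250, nat_lit 1100001, nat_lit 2264500, [nat_lit 490000, nat_lit 1100000], [nat_lit 24, nat_lit 40, nat_lit 40, nat_lit 80, nat_lit 33, nat_lit 203, nat_lit 0, nat_lit 7]⟩, ⟨p079_k42, nat_lit 0, nat_lit 0, nat_lit 421, nat_lit 0, nat_lit 494049, [nat_lit 1725000000, nat_lit 2716392000], [], [nat_lit 10656347516, nat_lit 10676827353, nat_lit 11197579502, nat_lit 11206096334, nat_lit 9837940000, nat_lit 9819904599, nat_lit 10072167945, nat_lit 10051449333], nat_lit 1271250, nat_lit 1271250, nat_lit 1271250, nat_lit 1271250, nat_lit 88400, nat_lit 2713750, [nat_lit 1412500,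 nat_lit 1271250], [nat_lit 51, nat_lit 40, nat_lit 40, nat_lit 80, nat_lit 1, nat_lit 373, nat_lit 150, nat_lit 10]⟩,
 ⟨nat_lit 4183, nat_lit 4331, ⟨.ofNat (nat_lit 712158), .ofNat (nat_lit 792699), .ofNat (nat_lit 722965), .ofNat (nat_lit 803506), .ofNat (nat_lit 709599), .ofNat (nat_lit 789105), .ofNat (nat_lit 720432), .ofNat (nat_lit 799939)⟩, ⟨.ofNat (nat_lit 303199), .ofNat (nat_lit 531399), .ofNat (nat_lit 346426), .ofNat (nat_lit 574626), .ofNat (nat_lit 303743), .ofNat (nat_lit 529012), .ofNat (nat_lit 347076), .ofNat (nat_lit 572345)⟩⟩, [⟨nat_lit 13, nat_lit 77, nat_lit 58, nat_lit 100, nat_lit 61605499⟩, ⟨nat_lit 16, nat_lit 85, nat_lit 97, nat_lit 100, nat_lit 170151371⟩, ⟨nat_lit 19, nat_lit 100, nat_lit 45, nat_lit 92, nat_lit 43952859⟩]⟩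
noncomputable def p079_l142 : Lf2 := ⟨nat_lit 0, nat_lit 5, [nat_lit 4, nat_lit 5, nat_lit 5, nat_lit 20], false, nat_lit 160, nat_lit 240, nat_lit 16, nat_lit 384, ⟨nat_lit 199, nat_lit 801, nat_lit 0, nat_lit 8, nat_lit 299, nat_lit 801, nat_lit 157, nat_lit 0, nat_lit 0, nat_lit 0, nat_lit 0, nat_lit 0, nat_lit 37543997, nat_lit 21739032, nat_lit 7716971, nat_lit 5033686, true, true⟩,
 nat_lit 4493, nat_lit 0, nat_lit 0, nat_lit 0, nat_lit 3502, nat_lit 1925, nat_lit 367, nat_lit 0, nat_lit 0, nat_lit 146, nat_lit 0, nat_lit 0, nat_lit 0, nat_lit 0, nat_lit 0, nat_lit 645600, nat_lit 0, nat_lit 0, [(nat_lit 18, [(nat_lit 1, nat_lit 259), (nat_lit 2, nat_lit 542)])],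
 ⟨p079_k24, nat_lit 0, nat_lit 0, nat_lit 154, nat_lit 0, nat_lit 309525, [nat_lit 1688896267, nat_lit 1977805333], [], [nat_lit 25149726915, nat_lit 25568811803, nat_lit 27139874450, nat_lit 27514593028, nat_lit 26568666463, nat_lit 26939592435, nat_lit 28333969278, nat_lit 28728473799], nat_lit 1271250, nat_lit 1271250, nat_lit 1271250, nat_lit 1271250, nat_lit 1100001, nat_lit 1785000, [nat_lit 490000, nat_lit 1100000], [nat_lit 24, nat_lit 40, nat_lit 40, nat_lit 80, nat_lit 33, nat_lit 203, nat_lit 0, nat_lit 7]⟩, ⟨p079_k41, nat_lit 0, nat_lit 0, nat_lit 549, nat_lit 0, nat_lit 660413, [nat_lit 1243750000, nat_lit 1958558000, nat_lit 2362528000], [], [nat_lit 8344747468, nat_lit 8353351981, nat_lit 8719875901, nat_lit 8710870684, nat_lit 7477914309, nat_lit 7437700850, nat_lit 7647021366, nat_lit 7606052701], nat_lit 1271250, nat_lit 1271250, nat_lit 1271250, nat_lit 1271250, nat_lit 88400, nat_lit 2742600,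 [nat_lit 1412500, nat_lit 1271250, nat_lit 1271250], [nat_lit 46, nat_lit 40, nat_lit 40, nat_lit 80, nat_lit 41, nat_lit 401, nat_lit 175, nat_lit 10]⟩,
 ⟨nat_lit 3872, nat_lit 4184, ⟨.ofNat (nat_lit 698765), .ofNat (nat_lit 778272), .ofNat (nat_lit 720432), .ofNat (nat_lit 799939), .ofNat (nat_lit 693563), .ofNat (nat_lit 770989), .ofNat (nat_lit 715356), .ofNat (nat_lit 792782)⟩, ⟨.ofNat (nat_lit 303743), .ofNat (nat_lit 436254), .ofNat (nat_lit 347076), .ofNat (nat_lit 479587), .ofNat (nat_lit 304717), .ofNat (nat_lit 433760), .ofNat (nat_lit 348304), .ofNat (nat_lit 477347)⟩⟩, [⟨nat_lit 13, nat_lit 74, nat_lit 64, nat_lit 100, nat_lit 116762071⟩, ⟨nat_lit 4, nat_lit 100, nat_lit 77, nat_lit 91, nat_lit 50076610⟩, ⟨nat_lit 19, nat_lit 100, nat_lit 54, nat_lit 87, nat_lit 29528702⟩]⟩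
noncomputable def p079_l143 : Lf2 := ⟨nat_lit 0, nat_lit 5, [nat_lit 4, nat_lit 5, nat_lit 5, nat_lit 20], false, nat_lit 240, nat_lit 288, nat_lit 64, nat_lit 384, ⟨nat_lit 197, nat_lit 803, nat_lit 0, nat_lit 8, nat_lit 299, nat_lit 803, nat_lit 199, nat_lit 0, nat_lit 0, nat_lit 0, nat_lit 0, nat_lit 0, nat_lit 35427646, nat_lit 20834159, nat_lit 10738195, nat_lit 5360880, true, true⟩,
 nat_lit 4433, nat_lit 0, nat_lit 0, nat_lit 0, nat_lit 3455, nat_lit 1899, nat_lit 291, nat_lit 0, nat_lit 0, nat_lit 144, nat_lit 0, nat_lit 0, nat_lit 0, nat_lit 0, nat_lit 0, nat_lit 662000, nat_lit 0, nat_lit 0, [(nat_lit 18, [(nat_lit 1, nat_lit 235), (nat_lit 2, nat_lit 568)])],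
 ⟨p079_k24, nat_lit 0, nat_lit 0, nat_lit 129, nat_lit 0, nat_lit 279312, [nat_lit 1695525601, nat_lit 1948719999], [], [nat_lit 26813066799, nat_lit 26997731114, nat_lit 28569868631, nat_lit 28735589849, nat_lit 28070193174, nat_lit 28239378145, nat_lit 29711281616, nat_lit 29913886753], nat_lit 1271250, nat_lit 1271250, nat_lit 1271250, nat_lit 1271250, nat_lit 1271250, nat_lit 1271250, [nat_lit 490000, nat_lit 1100000], [nat_lit 24, nat_lit 40, nat_lit 40, nat_lit 80, nat_lit 33, nat_lit 203, nat_lit 0, nat_lit 6]⟩, ⟨p079_k41, nat_lit 0, nat_lit 0, nat_lit 483, nat_lit 0, nat_lit 595948, [nat_lit 1231250000, nat_lit 1938874000, nat_lit 2338784000], [], [nat_lit 7636135160, nat_lit 7644083118, nat_lit 7992438862, nat_lit 7986923626, nat_lit 7423601100, nat_lit 7384155319, nat_lit 7591048000, nat_lit 7541082087], nat_lit 1271250, nat_lit 1271250, nat_lit 1271250, nat_lit 1271250, nat_lit 382400, nat_lit 2834400,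 [nat_lit 1412500, nat_lit 1271250, nat_lit 1271250], [nat_lit 46, nat_lit 40, nat_lit 40, nat_lit 80, nat_lit 41, nat_lit 401, nat_lit 175, nat_lit 10]⟩,
 ⟨nat_lit 4031, nat_lit 4184, ⟨.ofNat (nat_lit 698765), .ofNat (nat_lit 778272), .ofNat (nat_lit 720432), .ofNat (nat_lit 799939), .ofNat (nat_lit 696171), .ofNat (nat_lit 774640), .ofNat (nat_lit 717897), .ofNat (nat_lit 796366)⟩, ⟨.ofNat (nat_lit 436254), .ofNat (nat_lit 515761), .ofNat (nat_lit 479587), .ofNat (nat_lit 559094), .ofNat (nat_lit 435031), .ofNat (nat_lit 513500), .ofNat (nat_lit 478484), .ofNat (nat_lit 556953)⟩⟩, [⟨nat_lit 13, nat_lit 76, nat_lit 57, nat_lit 100, nat_lit 96714769⟩, ⟨nat_lit 16, nat_lit 83, nat_lit 98, nat_lit 100, nat_lit 193822945⟩, ⟨nat_lit 7, nat_lit 54, nat_lit 100, nat_lit 87, nat_lit 40923944⟩]⟩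
noncomputable def p079_l144 : Lf2 := ⟨nat_lit 0, nat_lit 5, [nat_lit 4, nat_lit 5, nat_lit 5, nat_lit 20], false, nat_lit 240, nat_lit 284, nat_lit 64, nat_lit 384, ⟨nat_lit 183, nat_lit 817, nat_lit 0, nat_lit 8, nat_lit 297, nat_lit 817, nat_lit 197, nat_lit 0, nat_lit 0, nat_lit 0, nat_lit 0, nat_lit 0, nat_lit 35702698, nat_lit 20665421, nat_lit 10631881, nat_lit 5342275, true, true⟩,
 nat_lit 4160, nat_lit 0, nat_lit 0, nat_lit 0, nat_lit 3304, nat_lit 1782, nat_lit 638, nat_lit 0, nat_lit 0, nat_lit 136, nat_lit 0, nat_lit 0, nat_lit 0, nat_lit 0, nat_lit 0, nat_lit 253750, nat_lit 0, nat_lit 0, [(nat_lit 18, [(nat_lit 0, nat_lit 487), (nat_lit 1, nat_lit 330)])],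
 ⟨p079_k32, nat_lit 0, nat_lit 0, nat_lit 138, nat_lit 0, nat_lit 302538, [nat_lit 1579713600, nat_lit 2534912000], [], [nat_lit 26753552032, nat_lit 26935650404, nat_lit 28316089665, nat_lit 28491894731, nat_lit 27885302193, nat_lit 28053642735, nat_lit 29472957353, nat_lit 29654475113], nat_lit 1271250, nat_lit 1271250, nat_lit 1271250, nat_lit 1271250, nat_lit 1271250, nat_lit 1271250, [nat_lit 490000, nat_lit 1100000], [nat_lit 24, nat_lit 40, nat_lit 40, nat_lit 80, nat_lit 33, nat_lit 203, nat_lit 0, nat_lit 6]⟩, ⟨p079_k41, nat_lit 0, nat_lit 0, nat_lit 508, nat_lit 0, nat_lit 660413, [nat_lit 1143750000, nat_lit 1801086000, nat_lit 2172576000], [], [nat_lit 7041032420, nat_lit 7047787888, nat_lit 7341769281, nat_lit 7342509622, nat_lit 6839792701, nat_lit 6802169179, nat_lit 6978850104, nat_lit 6948206800], nat_lit 1271250, nat_lit 1271250, nat_lit 1271250, nat_lit 1271250, nat_lit 382400, nat_lit 2834400,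 [nat_lit 1412500, nat_lit 1271250, nat_lit 1271250], [nat_lit 46, nat_lit 40, nat_lit 40, nat_lit 80, nat_lit 41, nat_lit 401, nat_lit 175, nat_lit 10]⟩,
 ⟨nat_lit 3872, nat_lit 4032, ⟨.ofNat (nat_lit 696171), .ofNat (nat_lit 768101), .ofNat (nat_lit 717897), .ofNat (nat_lit 789827), .ofNat (nat_lit 693563), .ofNat (nat_lit 764537), .ofNat (nat_lit 715356), .ofNat (nat_lit 786330)⟩, ⟨.ofNat (nat_lit 435031), .ofNat (nat_lit 506961), .ofNat (nat_lit 478484), .ofNat (nat_lit 550414), .ofNat (nat_lit 433760), .ofNat (nat_lit 504734), .ofNat (nat_lit 477347), .ofNat (nat_lit 548321)⟩⟩, [⟨nat_lit 13, nat_lit 73, nat_lit 65, nat_lit 100, nat_lit 96123513⟩, ⟨nat_lit 16, nat_lit 81, nat_lit 100, nat_lit 100, nat_lit 233854777⟩, ⟨nat_lit 22, nat_lit 74, nat_lit 48, nat_lit 100, nat_lit 45101619⟩]⟩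
noncomputable def p079_l145 : Lf2 := ⟨nat_lit 0, nat_lit 10, [nat_lit 0, nat_lit 5, nat_lit 5, nat_lit 20], false, nat_lit 160, nat_lit 300, nat_lit 16, nat_lit 384, ⟨nat_lit 485, nat_lit 515, nat_lit 0, nat_lit 8, nat_lit 302, nat_lit 515, nat_lit 177, nat_lit 0, nat_lit 0, nat_lit 0, nat_lit 0, nat_lit 0, nat_lit 36274236, nat_lit 21619889, nat_lit 9105875, nat_lit 5210099, true, true⟩,
 nat_lit 10839, nat_lit 0, nat_lit 0, nat_lit 0, nat_lit 4032, nat_lit 4645, nat_lit 72, nat_lit 0, nat_lit 0, nat_lit 354, nat_lit 0, nat_lit 0, nat_lit 0, nat_lit 0, nat_lit 0, nat_lit 515000, nat_lit 0, nat_lit 0, [(nat_lit 18, [(nat_lit 2, nat_lit 515)])],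
 ⟨p079_k15, nat_lit 0, nat_lit 0, nat_lit 109, nat_lit 0, nat_lit 98871, [nat_lit 1861981334, nat_lit 2812026667, nat_lit 2803002000], [], [nat_lit 25037021254, nat_lit 25522576822, nat_lit 27694559661, nat_lit 28140867007, nat_lit 28425494256, nat_lit 28821765630, nat_lit 30528516977, nat_lit 30875410559], nat_lit 1271250, nat_lit 1271250, nat_lit 1271250, nat_lit 1271250, nat_lit 1100001, nat_lit 2298750, [nat_lit 490000, nat_lit 1100000, nat_lit 1442500], [nat_lit 6, nat_lit 40, nat_lit 40, nat_lit 80, nat_lit 3, nat_lit 289, nat_lit 75, nat_lit 9]⟩, ⟨p079_k17, nat_lit 0, nat_lit 0, nat_lit 348, nat_lit 0, nat_lit 203826, [nat_lit 3031250000, nat_lit 4773370000, nat_lit 5757920000], [], [nat_lit 19481765565, nat_lit 19571993059, nat_lit 20889156663, nat_lit 20917261706, nat_lit 17916844020, nat_lit 17881981110, nat_lit 18711600680, nat_lit 18639139463], nat_lit 1271250, nat_lit 1271250, nat_lit 1271250, nat_lit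 1271250, nat_lit 88400, nat_lit 2742600, [nat_lit 1412500, nat_lit 1271250, nat_lit 1271250], [nat_lit 46, nat_lit 40, nat_lit 40, nat_lit 80, nat_lit 41, nat_lit 401, nat_lit 175, nat_lit 10]⟩,
 ⟨nat_lit 4183, nat_lit 4473, ⟨.ofNat (nat_lit 703933), .ofNat (nat_lit 792305), .ofNat (nat_lit 725499), .ofNat (nat_lit 813871), .ofNat (nat_lit 698765), .ofNat (nat_lit 784898), .ofNat (nat_lit 720431), .ofNat (nat_lit 806564)⟩, ⟨.ofNat (nat_lit 302621), .ofNat (nat_lit 540545), .ofNat (nat_lit 345754), .ofNat (nat_lit 583678), .ofNat (nat_lit 303743), .ofNat (nat_lit 535637), .ofNat (nat_lit 347076), .ofNat (nat_lit 578971)⟩⟩, [⟨nat_lit 13, nat_lit 78, nat_lit 59, nat_lit 100, nat_lit 46926557⟩, ⟨nat_lit 4, nat_lit 100, nat_lit 84, nat_lit 93, nat_lit 248933741⟩, ⟨nat_lit 7, nat_lit 54, nat_lit 100, nat_lit 87, nat_lit 78680106⟩]⟩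
noncomputable def p079_l146 : Lf2 := ⟨nat_lit 0, nat_lit 10, [nat_lit 0, nat_lit 5, nat_lit 5, nat_lit 20], false, nat_lit 160, nat_lit 288, nat_lit 16, nat_lit 384, ⟨nat_lit 284, nat_lit 716, nat_lit 0, nat_lit 8, nat_lit 299, nat_lit 716, nat_lit 172, nat_lit 0, nat_lit 0, nat_lit 0, nat_lit 0, nat_lit 0, nat_lit 36783148, nat_lit 21394052, nat_lit 8822800, nat_lit 5165413, true, true⟩,
 nat_lit 6496, nat_lit 0, nat_lit 0, nat_lit 0, nat_lit 3817, nat_lit 2784, nat_lit 297, nat_lit 0, nat_lit 0, nat_lit 194, nat_lit 0, nat_lit 0, nat_lit 0, nat_lit 0, nat_lit 0, nat_lit 179000, nat_lit 0, nat_lit 0, [(nat_lit 18, [(nat_lit 0, nat_lit 716)])],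
 ⟨p079_k18, nat_lit 0, nat_lit 0, nat_lit 127, nat_lit 0, nat_lit 157070, [nat_lit 1674572801, nat_lit 2883680000, nat_lit 3609392000], [], [nat_lit 25285560935, nat_lit 25786618330, nat_lit 27660062183, nat_lit 28102205282, nat_lit 28247982853, nat_lit 28647153078, nat_lit 30145975239, nat_lit 30500209689], nat_lit 1271250, nat_lit 1271250, nat_lit 1271250, nat_lit 1271250, nat_lit 1100001, nat_lit 2196000, [nat_lit 490000, nat_lit 1100000, nat_lit 1442500], [nat_lit 6, nat_lit 40, nat_lit 40, nat_lit 80, nat_lit 3, nat_lit 289, nat_lit 75, nat_lit 9]⟩, ⟨p079_k17, nat_lit 0, nat_lit 0, nat_lit 402, nat_lit 0, nat_lit 339514, [nat_lit 1775000000, nat_lit 2795128000, nat_lit 3371648000], [], [nat_lit 11469392161, nat_lit 11520625092, nat_lit 12232995236, nat_lit 12250044942, nat_lit 10391270253, nat_lit 10355252820, nat_lit 10917396733, nat_lit 10900835492], nat_lit 1271250, nat_lit 1271250, nat_lit 1271250, nat_lit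 1271250, nat_lit 88400, nat_lit 2742600, [nat_lit 1412500, nat_lit 1271250, nat_lit 1271250], [nat_lit 46, nat_lit 40, nat_lit 40, nat_lit 80, nat_lit 41, nat_lit 401, nat_lit 175, nat_lit 10]⟩,
 ⟨nat_lit 3872, nat_lit 4184, ⟨.ofNat (nat_lit 698765), .ofNat (nat_lit 778272), .ofNat (nat_lit 720432), .ofNat (nat_lit 799939), .ofNat (nat_lit 693563), .ofNat (nat_lit 770989), .ofNat (nat_lit 715356), .ofNat (nat_lit 792782)⟩, ⟨.ofNat (nat_lit 303743), .ofNat (nat_lit 515761), .ofNat (nat_lit 347076), .ofNat (nat_lit 559094), .ofNat (nat_lit 304717), .ofNat (nat_lit 511186), .ofNat (nat_lit 348304), .ofNat (nat_lit 554773)⟩⟩, [⟨nat_lit 13, nat_lit 74, nat_lit 64, nat_lit 100, nat_lit 142280149⟩, ⟨nat_lit 16, nat_lit 83, nat_lit 98, nat_lit 100, nat_lit 109473267⟩, ⟨nat_lit 4, nat_lit 100, nat_lit 77, nat_lit 91, nat_lit 89335031⟩, ⟨nat_lit 19, nat_lit 100, nat_lit 54, nat_lit 87, nat_lit 45731122⟩]⟩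
noncomputable def p079_l147 : Lf2 := ⟨nat_lit 0, nat_lit 5, [nat_lit 4, nat_lit 5, nat_lit 5, nat_lit 20], false, nat_lit 160, nat_lit 300, nat_lit 16, nat_lit 376, ⟨nat_lit 508, nat_lit 492, nat_lit 0, nat_lit 8, nat_lit 315, nat_lit 492, nat_lit 177, nat_lit 0, nat_lit 0, nat_lit 0, nat_lit 0, nat_lit 0, nat_lit 35352670, nat_lit 22713620, nat_lit 8933710, nat_lit 5231474, true, true⟩,
 nat_lit 5664, nat_lit 0, nat_lit 1998, nat_lit 0, nat_lit 4248, nat_lit 3664, nat_lit 115, nat_lit 0, nat_lit 0, nat_lit 1258, nat_lit 0, nat_lit 0, nat_lit 0, nat_lit 0, nat_lit 0, nat_lit 492000, nat_lit 0, nat_lit 0, [(nat_lit 18, [(nat_lit 2, nat_lit 492)])],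
 ⟨p079_k22, nat_lit 0, nat_lit 0, nat_lit 171, nat_lit 0, nat_lit 302620, [nat_lit 1869574401, nat_lit 2895808001, nat_lit 2956945600], [], [nat_lit 26152938850, nat_lit 26577596362, nat_lit 28950494819, nat_lit 29314195563, nat_lit 29041261643, nat_lit 29392661573, nat_lit 31411710209, nat_lit 31728928265], nat_lit 1271250, nat_lit 1271250, nat_lit 1271250, nat_lit 1271250, nat_lit 1100001, nat_lit 2298750, [nat_lit 490000, nat_lit 1100000, nat_lit 1442500], [nat_lit 6, nat_lit 40, nat_lit 40, nat_lit 80, nat_lit 3, nat_lit 289, nat_lit 75, nat_lit 9]⟩, ⟨p079_k43, nat_lit 0, nat_lit 0, nat_lit 436, nat_lit 0, nat_lit 533140, [nat_lit 3175000000, nat_lit 4999736000], [], [nat_lit 18138969455, nat_lit 18231163517, nat_lit 19301851263, nat_lit 19346280205, nat_lit 17462836397, nat_lit 17463757069, nat_lit 18261944423, nat_lit 18264295475], nat_lit 1271250, nat_lit 1271250, nat_lit 1271250, nat_lit 1271250, nat_lit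 88400, nat_lit 2684900, [nat_lit 1412500, nat_lit 1271250], [nat_lit 51, nat_lit 40, nat_lit 40, nat_lit 80, nat_lit 1, nat_lit 401, nat_lit 175, nat_lit 11]⟩,
 ⟨nat_lit 4183, nat_lit 4473, ⟨.ofNat (nat_lit 725499), .ofNat (nat_lit 834264), .ofNat (nat_lit 747062), .ofNat (nat_lit 855828), .ofNat (nat_lit 720431), .ofNat (nat_lit 826441), .ofNat (nat_lit 742095), .ofNat (nat_lit 848105)⟩, ⟨.ofNat (nat_lit 302621), .ofNat (nat_lit 540545), .ofNat (nat_lit 345754), .ofNat (nat_lit 583678), .ofNat (nat_lit 303743), .ofNat (nat_lit 535637), .ofNat (nat_lit 347076), .ofNat (nat_lit 578971)⟩⟩, [⟨nat_lit 13, nat_lit 79, nat_lit 51, nat_lit 100, nat_lit 7797494⟩, ⟨nat_lit 16, nat_lit 87, nat_lit 95, nat_lit 100, nat_lit 223829662⟩, ⟨nat_lit 7, nat_lit 63, nat_lit 100, nat_lit 88, nat_lit 100017404⟩]⟩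
noncomputable def p079_l148 : Lf2 := ⟨nat_lit 0, nat_lit 5, [nat_lit 4, nat_lit 5, nat_lit 5, nat_lit 20], false, nat_lit 160, nat_lit 288, nat_lit 16, nat_lit 376, ⟨nat_lit 739, nat_lit 261, nat_lit 0, nat_lit 8, nat_lit 310, nat_lit 261, nat_lit 172, nat_lit 0, nat_lit 0, nat_lit 0, nat_lit 0, nat_lit 0, nat_lit 35891397, nat_lit 22429283, nat_lit 8679320, nat_lit 5189560, true, true⟩,
 nat_lit 11248, nat_lit 0, nat_lit 0, nat_lit 0, nat_lit 4460, nat_lit 5379, nat_lit 816, nat_lit 0, nat_lit 0, nat_lit 1717, nat_lit 0, nat_lit 0, nat_lit 0, nat_lit 0, nat_lit 0, nat_lit 261000, nat_lit 0, nat_lit 0, [(nat_lit 18, [(nat_lit 2, nat_lit 261)])],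
 ⟨p079_k24, nat_lit 0, nat_lit 0, nat_lit 159, nat_lit 0, nat_lit 316956, [nat_lit 1945835200, nat_lit 3656528000], [], [nat_lit 25522766560, nat_lit 25753118680, nat_lit 28347358504, nat_lit 28628818436, nat_lit 28261605317, nat_lit 28520969270, nat_lit 31160371796, nat_lit 31381062594], nat_lit 1271250, nat_lit 1271250, nat_lit 1271250, nat_lit 1271250, nat_lit 1100001, nat_lit 2196000, [nat_lit 490000, nat_lit 1100000], [nat_lit 24, nat_lit 40, nat_lit 40, nat_lit 80, nat_lit 33, nat_lit 203, nat_lit 0, nat_lit 7]⟩, ⟨p079_k43, nat_lit 0, nat_lit 0, nat_lit 452, nat_lit 0, nat_lit 585069, [nat_lit 4618750000, nat_lit 7273238000], [], [nat_lit 26593769732, nat_lit 26726535509, nat_lit 28061905698, nat_lit 28133572026, nat_lit 25423716510, nat_lit 25383877639, nat_lit 26244499629, nat_lit 26224251692], nat_lit 1271250, nat_lit 1271250, nat_lit 1271250, nat_lit 1271250, nat_lit 88400, nat_lit 2684900, [nat_lit 1412500,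 nat_lit 1271250], [nat_lit 51, nat_lit 40, nat_lit 40, nat_lit 80, nat_lit 1, nat_lit 401, nat_lit 175, nat_lit 11]⟩,
 ⟨nat_lit 4031, nat_lit 4184, ⟨.ofNat (nat_lit 720432), .ofNat (nat_lit 813190), .ofNat (nat_lit 742098), .ofNat (nat_lit 834857), .ofNat (nat_lit 717897), .ofNat (nat_lit 809444), .ofNat (nat_lit 739623), .ofNat (nat_lit 831171)⟩, ⟨.ofNat (nat_lit 303743), .ofNat (nat_lit 515761), .ofNat (nat_lit 347076), .ofNat (nat_lit 559094), .ofNat (nat_lit 304250), .ofNat (nat_lit 513500), .ofNat (nat_lit 347702), .ofNat (nat_lit 556953)⟩⟩, [⟨nat_lit 16, nat_lit 83, nat_lit 98, nat_lit 100, nat_lit 314418395⟩, ⟨nat_lit 19, nat_lit 100, nat_lit 63, nat_lit 88, nat_lit 140199569⟩]⟩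
noncomputable def p079_l149 : Lf2 := ⟨nat_lit 0, nat_lit 5, [nat_lit 4, nat_lit 5, nat_lit 5, nat_lit 20], false, nat_lit 160, nat_lit 284, nat_lit 16, nat_lit 376, ⟨nat_lit 443, nat_lit 557, nat_lit 0, nat_lit 8, nat_lit 308, nat_lit 557, nat_lit 171, nat_lit 0, nat_lit 0, nat_lit 0, nat_lit 0, nat_lit 0, nat_lit 36155362, nat_lit 22246818, nat_lit 8597820, nat_lit 5172249, true, true⟩,
 nat_lit 6802, nat_lit 0, nat_lit 0, nat_lit 0, nat_lit 3862, nat_lit 3253, nat_lit 541, nat_lit 0, nat_lit 0, nat_lit 970, nat_lit 0, nat_lit 0, nat_lit 0, nat_lit 0, nat_lit 0, nat_lit 139250, nat_lit 0, nat_lit 0, [(nat_lit 18, [(nat_lit 0, nat_lit 557)])],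
 ⟨p079_k32, nat_lit 0, nat_lit 0, nat_lit 165, nat_lit 0, nat_lit 337674, [nat_lit 1753945601, nat_lit 3284360000], [], [nat_lit 26144699707, nat_lit 26362062071, nat_lit 28365244944, nat_lit 28556806729, nat_lit 28665193619, nat_lit 28841421450, nat_lit 30472819645, nat_lit 30628748453], nat_lit 1271250, nat_lit 1271250, nat_lit 1271250, nat_lit 1271250, nat_lit 1100001, nat_lit 2161750, [nat_lit 490000, nat_lit 1100000], [nat_lit 24, nat_lit 40, nat_lit 40, nat_lit 80, nat_lit 33, nat_lit 203, nat_lit 0, nat_lit 7]⟩, ⟨p079_k43, nat_lit 0, nat_lit 0, nat_lit 470, nat_lit 0, nat_lit 637708, [nat_lit 2768750000, nat_lit 4360006000], [], [nat_lit 16041207536, nat_lit 16120007162, nat_lit 16855198731, nat_lit 16899796559, nat_lit 15310272361, nat_lit 15283545360, nat_lit 15692720232, nat_lit 15646343198], nat_lit 1271250, nat_lit 1271250, nat_lit 1271250, nat_lit 1271250, nat_lit 88400, nat_lit 2684900, [nat_lit 1412500,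 nat_lit 1271250], [nat_lit 51, nat_lit 40, nat_lit 40, nat_lit 80, nat_lit 1, nat_lit 401, nat_lit 175, nat_lit 11]⟩,
 ⟨nat_lit 3872, nat_lit 4032, ⟨.ofNat (nat_lit 717897), .ofNat (nat_lit 802905), .ofNat (nat_lit 739624), .ofNat (nat_lit 824632), .ofNat (nat_lit 715356), .ofNat (nat_lit 799235), .ofNat (nat_lit 737150), .ofNat (nat_lit 821028)⟩, ⟨.ofNat (nat_lit 304250), .ofNat (nat_lit 506961), .ofNat (nat_lit 347702), .ofNat (nat_lit 550414), .ofNat (nat_lit 304717), .ofNat (nat_lit 504734), .ofNat (nat_lit 348304), .ofNat (nat_lit 548321)⟩⟩, [⟨nat_lit 16, nat_lit 81, nat_lit 100, nat_lit 100, nat_lit 220123727⟩, ⟨nat_lit 7, nat_lit 63, nat_lit 100, nat_lit 88, nat_lit 82340804⟩]⟩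
noncomputable def p079_l150 : Lf2 := ⟨nat_lit 0, nat_lit 10, [nat_lit 0, nat_lit 5, nat_lit 5, nat_lit 20], false, nat_lit 160, nat_lit 300, nat_lit 16, nat_lit 376, ⟨nat_lit 1000, nat_lit 0, nat_lit 0, nat_lit 0, nat_lit 0, nat_lit 0, nat_lit 0, nat_lit 0, nat_lit 0, nat_lit 0, nat_lit 0, nat_lit 0, nat_lit 0, nat_lit 0, nat_lit 0, nat_lit 0, false, false⟩,
 nat_lit 15650, nat_lit 0, nat_lit 0, nat_lit 0, nat_lit 5165, nat_lit 7484, nat_lit 642, nat_lit 0, nat_lit 0, nat_lit 1433, nat_lit 0, nat_lit 0, nat_lit 0, nat_lit 0, nat_lit 0, nat_lit 0, nat_lit 0, nat_lit 0, [],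
 ⟨p079_k27, nat_lit 0, nat_lit 0, nat_lit 140, nat_lit 0, nat_lit 204844, [nat_lit 2032000001, nat_lit 3282000000, nat_lit 6250000000], [], [nat_lit 25961066760, nat_lit 26995847040, nat_lit 29374608481, nat_lit 30322051648, nat_lit 29142016095, nat_lit 29929210530, nat_lit 32307836345, nat_lit 33191145452], nat_lit 1271250, nat_lit 1271250, nat_lit 1271250, nat_lit 1271250, nat_lit 1100001, nat_lit 2298750, [nat_lit 490000, nat_lit 780000, nat_lit 1435000], [nat_lit 85, nat_lit 40, nat_lit 40, nat_lit 80, nat_lit 16, nat_lit 289, nat_lit 75, nat_lit 9]⟩, ⟨p079_k44, nat_lit 0, nat_lit 0, nat_lit 401, nat_lit 0, nat_lit 364369, [nat_lit 6250000000, nat_lit 7968000000, nat_lit 11872000000], [], [nat_lit 35018641648, nat_lit 35285901981, nat_lit 37972255273, nat_lit 38117607915, nat_lit 33966288962, nat_lit 33957831283, nat_lit 36283421471, nat_lit 36297140298], nat_lit 1271250, nat_lit 1271250, nat_lit 1271250, nat_lit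 1271250, nat_lit 88400, nat_lit 2684900, [nat_lit 1412500, nat_lit 1271250, nat_lit 1271250], [nat_lit 53, nat_lit 40, nat_lit 40, nat_lit 80, nat_lit 14, nat_lit 401, nat_lit 175, nat_lit 10]⟩,
 zbF0, [⟨nat_lit 4, nat_lit 100, nat_lit 81, nat_lit 92, nat_lit 432221532⟩, ⟨nat_lit 7, nat_lit 63, nat_lit 100, nat_lit 88, nat_lit 202021072⟩]⟩
noncomputable def b_V_800_500_20_10 : St := ⟨true, nat_lit 1, nat_lit 1, nat_lit 1, nat_lit 120, nat_lit 320, nat_lit 340, nat_lit 200, nat_lit 240, nat_lit 240, nat_lit 384, nat_lit 80, nat_lit 120, nat_lit 160, nat_lit 300, nat_lit 0, nat_lit 384, nat_lit 0, nat_lit 40, nat_lit 0, nat_lit 0, nat_lit 0, nat_lit 0⟩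
theorem d_V_800_500_20_10 (h : EB TB.env) : Dead b_V_800_500_20_10 := chkB_sound0 h (T :=
(.spl (nat_lit 2) (nat_lit 320)
(.spl (nat_lit 6) (nat_lit 20)
(.spl (nat_lit 0) (nat_lit 330)
(.leaf p079_l135)
(.trX (nat_lit 16) (nat_lit 83) (nat_lit 98) (nat_lit 100) (nat_lit 288) (.leaf p079_l136)))
(.spl (nat_lit 0) (nat_lit 330)
(.leaf p079_l137)
(.trX (nat_lit 16) (nat_lit 83) (nat_lit 98) (nat_lit 100) (nat_lit 288) (.leaf p079_l138))))
(.trZ (nat_lit 9) (nat_lit 100) (nat_lit 82) (nat_lit 44) (nat_lit 16) (.spl (nat_lit 1) (nat_lit 220)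
(.trX (nat_lit 13) (nat_lit 80) (nat_lit 52) (nat_lit 100) (nat_lit 372) (.spl (nat_lit 6) (nat_lit 20)
(.spl (nat_lit 0) (nat_lit 330)
(.spl (nat_lit 1) (nat_lit 210)
(.trX (nat_lit 13) (nat_lit 80) (nat_lit 56) (nat_lit 100) (nat_lit 368) (.leaf p079_l139))
(.trX (nat_lit 19) (nat_lit 100) (nat_lit 45) (nat_lit 92) (nat_lit 380) (.spl (nat_lit 0) (nat_lit 325)
(.leaf p079_l140)
(.trX (nat_lit 13) (nat_lit 78) (nat_lit 55) (nat_lit 100) (nat_lit 368) (.trX (nat_lit 16) (nat_lit 85) (nat_lit 97) (nat_lit 100) (nat_lit 296) (.leaf p079_l141))))))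
(.trX (nat_lit 13) (nat_lit 76) (nat_lit 57) (nat_lit 100) (nat_lit 368) (.trX (nat_lit 16) (nat_lit 83) (nat_lit 98) (nat_lit 100) (nat_lit 288) (.spl (nat_lit 4) (nat_lit 240)
(.leaf p079_l142)
(.trZ (nat_lit 9) (nat_lit 100) (nat_lit 82) (nat_lit 76) (nat_lit 64) (.spl (nat_lit 0) (nat_lit 335)
(.leaf p079_l143)
(.trX (nat_lit 13) (nat_lit 74) (nat_lit 60) (nat_lit 100) (nat_lit 364) (.trX (nat_lit 16) (nat_lit 81) (nat_lit 100) (nat_lit 100) (nat_lit 284) (.leaf p079_l144)))))))))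
(.spl (nat_lit 0) (nat_lit 330)
(.leaf p079_l145)
(.trX (nat_lit 13) (nat_lit 76) (nat_lit 57) (nat_lit 100) (nat_lit 368) (.trX (nat_lit 16) (nat_lit 83) (nat_lit 98) (nat_lit 100) (nat_lit 288) (.leaf p079_l146))))))
(.trX (nat_lit 19) (nat_lit 100) (nat_lit 49) (nat_lit 92) (nat_lit 376) (.spl (nat_lit 6) (nat_lit 20)
(.spl (nat_lit 0) (nat_lit 330)
(.leaf p079_l147)
(.trX (nat_lit 13) (nat_lit 78) (nat_lit 49) (nat_lit 100) (nat_lit 376) (.trX (nat_lit 16) (nat_lit 83) (nat_lit 98) (nat_lit 100) (nat_lit 288) (.spl (nat_lit 0) (nat_lit 335)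
(.leaf p079_l148)
(.trX (nat_lit 13) (nat_lit 75) (nat_lit 52) (nat_lit 100) (nat_lit 372) (.trX (nat_lit 16) (nat_lit 81) (nat_lit 100) (nat_lit 100) (nat_lit 284) (.leaf p079_l149)))))))
(.leaf p079_l150))))))) (by decide +kernel)

end B2
end Pool.Agent.Lib.MP_6947cd_al
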