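import Pool.Agent.Lib.MP_6947cd_al.ZB.Pre

/-!
Problem MP_6947cd_al (Chollet).  Case B, second entry in [2/5, 17/20]: certificates of the tree, part P090 (generated).
-/

set_option autoImplicit false
set_option linter.all false

namespace Pool.Agent.Lib.MP_6947cd_al
namespace B2

open Ent Fr B1 PkA

noncomputable def p090_k0 : C1.Kn := ⟨[nat_lit 40, nat_lit 80, nat_lit 100], [nat_lit 0, nat_lit 0, nat_lit 1280], [(nat_lit 0, nat_lit 0, nat_lit 0), (nat_lit 0, nat_lit 0, nat_lit 0), (nat_lit 1000, nat_lit 800, nat_lit 600)], (nat_lit 80, nat_lit 100, nat_lit 60)⟩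
noncomputable def p090_k1 : C1.Kn := ⟨[nat_lit 60, nat_lit 100, nat_lit 140], [nat_lit 0, nat_lit 0, nat_lit 2047], [(nat_lit 0, nat_lit 0, nat_lit 0), (nat_lit 0, nat_lit 0, nat_lit 0), (nat_lit 1000, nat_lit 993, nat_lit 781)], (nat_lit 94, nat_lit 100, nat_lit 62)⟩
noncomputable def p090_k2 : C1.Kn := ⟨[nat_lit 40, nat_lit 80, nat_lit 100], [nat_lit 0, nat_lit 395, nat_lit 1536], [(nat_lit 0, nat_lit 0, nat_lit 0), (nat_lit 1000, nat_lit 908, nat_lit 154), (nat_lit 1000, nat_lit 760, nat_lit 642)], (nat_lit 76, nat_lit 100, nat_lit 60)⟩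
noncomputable def p090_k3 : C1.Kn := ⟨[nat_lit 60, nat_lit 100, nat_lit 120], [nat_lit 0, nat_lit 609, nat_lit 1609], [(nat_lit 0, nat_lit 0, nat_lit 0), (nat_lit 1000, nat_lit 905, nat_lit 238), (nat_lit 1000, nat_lit 882, nat_lit 668)], (nat_lit 87, nat_lit 100, nat_lit 60)⟩
noncomputable def p090_k4 : C1.Kn := ⟨[nat_lit 40, nat_lit 80, nat_lit 100], [nat_lit 0, nat_lit 795, nat_lit 1829], [(nat_lit 0, nat_lit 0, nat_lit 0), (nat_lit 1000, nat_lit 814, nat_lit 310), (nat_lit 1000, nat_lit 714, nat_lit 692)], (nat_lit 72, nat_lit 100, nat_lit 61)⟩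
noncomputable def p090_k5 : C1.Kn := ⟨[nat_lit 40, nat_lit 80, nat_lit 100], [nat_lit 0, nat_lit 192, nat_lit 1404], [(nat_lit 0, nat_lit 0, nat_lit 0), (nat_lit 1000, nat_lit 955, nat_lit 75), (nat_lit 1000, nat_lit 781, nat_lit 625)], (nat_lit 78, nat_lit 100, nat_lit 60)⟩
noncomputable def p090_k6 : C1.Kn := ⟨[nat_lit 60, nat_lit 100, nat_lit 120], [nat_lit 0, nat_lit 302, nat_lit 1376], [(nat_lit 0, nat_lit 0, nat_lit 0), (nat_lit 1000, nat_lit 953, nat_lit 118), (nat_lit 1000, nat_lit 911, nat_lit 628)], (nat_lit 91, nat_lit 100, nat_lit 61)⟩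
noncomputable def p090_k7 : C1.Kn := ⟨[nat_lit 40, nat_lit 80, nat_lit 100], [nat_lit 0, nat_lit 0, nat_lit 1280], [(nat_lit 0, nat_lit 0, nat_lit 0), (nat_lit 0, nat_lit 0, nat_lit 0), (nat_lit 1000, nat_lit 800, nat_lit 600)], (nat_lit 82, nat_lit 100, nat_lit 44)⟩
noncomputable def p090_k8 : C1.Kn := ⟨[nat_lit 60, nat_lit 100, nat_lit 120], [nat_lit 0, nat_lit 0, nat_lit 1164], [(nat_lit 0, nat_lit 0, nat_lit 0), (nat_lit 0, nat_lit 0, nat_lit 0), (nat_lit 1000, nat_lit 933, nat_lit 572)], (nat_lit 92, nat_lit 100, nat_lit 44)⟩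
noncomputable def p090_k9 : C1.Kn := ⟨[nat_lit 40, nat_lit 80], [nat_lit 0, nat_lit 192], [(nat_lit 0, nat_lit 0, nat_lit 0), (nat_lit 1000, nat_lit 955, nat_lit 75)], (nat_lit 80, nat_lit 100, nat_lit 45)⟩
noncomputable def p090_k10 : C1.Kn := ⟨[nat_lit 40, nat_lit 60], [nat_lit 0, nat_lit 0], [(nat_lit 0, nat_lit 0, nat_lit 0), (nat_lit 0, nat_lit 0, nat_lit 0)], (nat_lit 89, nat_lit 100, nat_lit 22)⟩
noncomputable def p090_k11 : C1.Kn := ⟨[nat_lit 60, nat_lit 80], [nat_lit 0, nat_lit 0], [(nat_lit 0, nat_lit 0, nat_lit 0), (nat_lit 0, nat_lit 0, nat_lit 0)], (nat_lit 94, nat_lit 100, nat_lit 20)⟩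
noncomputable def p090_k12 : C1.Kn := ⟨[nat_lit 40, nat_lit 80], [nat_lit 0, nat_lit 0], [(nat_lit 0, nat_lit 0, nat_lit 0), (nat_lit 0, nat_lit 0, nat_lit 0)], (nat_lit 85, nat_lit 100, nat_lit 30)⟩
noncomputable def p090_k13 : C1.Kn := ⟨[nat_lit 60, nat_lit 100], [nat_lit 0, nat_lit 0], [(nat_lit 0, nat_lit 0, nat_lit 0), (nat_lit 0, nat_lit 0, nat_lit 0)], (nat_lit 92, nat_lit 100, nat_lit 28)⟩
noncomputable def p090_k14 : C1.Kn := ⟨[nat_lit 40, nat_lit 80], [nat_lit 0, nat_lit 112], [(nat_lit 0, nat_lit 0, nat_lit 0), (nat_lit 1000, nat_lit 974, nat_lit 44)], (nat_lit 81, nat_lit 100, nat_lit 45)⟩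
noncomputable def p090_k15 : C1.Kn := ⟨[nat_lit 60, nat_lit 80], [nat_lit 0, nat_lit 304], [(nat_lit 0, nat_lit 0, nat_lit 0), (nat_lit 1000, nat_lit 905, nat_lit 238)], (nat_lit 91, nat_lit 100, nat_lit 21)⟩
noncomputable def p090_k16 : C1.Kn := ⟨[nat_lit 60, nat_lit 80], [nat_lit 0, nat_lit 304], [(nat_lit 0, nat_lit 0, nat_lit 0), (nat_lit 1000, nat_lit 905, nat_lit 238)], (nat_lit 89, nat_lit 100, nat_lit 29)⟩
noncomputable def p090_k17 : C1.Kn := ⟨[nat_lit 60, nat_lit 100], [nat_lit 0, nat_lit 609], [(nat_lit 0, nat_lit 0, nat_lit 0), (nat_lit 1000, nat_lit 905, nat_lit 238)], (nat_lit 87, nat_lit 100, nat_lit 44)⟩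
noncomputable def p090_k18 : C1.Kn := ⟨[nat_lit 40, nat_lit 100, nat_lit 140], [nat_lit 0, nat_lit 0, nat_lit 3243], [(nat_lit 0, nat_lit 0, nat_lit 0), (nat_lit 0, nat_lit 0, nat_lit 0), (nat_lit 1000, nat_lit 870, nat_lit 941)], (nat_lit 83, nat_lit 100, nat_lit 83)⟩
noncomputable def p090_k19 : C1.Kn := ⟨[nat_lit 60, nat_lit 120, nat_lit 160], [nat_lit 0, nat_lit 0, nat_lit 3243], [(nat_lit 0, nat_lit 0, nat_lit 0), (nat_lit 0, nat_lit 0, nat_lit 0), (nat_lit 878, nat_lit 1000, nat_lit 945)], (nat_lit 100, nat_lit 95, nat_lit 87)⟩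
noncomputable def p090_k20 : C1.Kn := ⟨[nat_lit 40, nat_lit 80, nat_lit 140], [nat_lit 0, nat_lit 0, nat_lit 3199], [(nat_lit 0, nat_lit 0, nat_lit 0), (nat_lit 0, nat_lit 0, nat_lit 0), (nat_lit 1000, nat_lit 833, nat_lit 833)], (nat_lit 83, nat_lit 100, nat_lit 83)⟩
noncomputable def p090_k21 : C1.Kn := ⟨[nat_lit 60, nat_lit 100, nat_lit 160], [nat_lit 0, nat_lit 0, nat_lit 3069], [(nat_lit 0, nat_lit 0, nat_lit 0), (nat_lit 0, nat_lit 0, nat_lit 0), (nat_lit 1000, nat_lit 999, nat_lit 798)], (nat_lit 100, nat_lit 95, nat_lit 87)⟩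
noncomputable def p090_k22 : C1.Kn := ⟨[nat_lit 40, nat_lit 80, nat_lit 120], [nat_lit 0, nat_lit 0, nat_lit 2151], [(nat_lit 0, nat_lit 0, nat_lit 0), (nat_lit 0, nat_lit 0, nat_lit 0), (nat_lit 1000, nat_lit 815, nat_lit 753)], (nat_lit 81, nat_lit 100, nat_lit 72)⟩
noncomputable def p090_k23 : C1.Kn := ⟨[nat_lit 60, nat_lit 100, nat_lit 140], [nat_lit 0, nat_lit 0, nat_lit 2047], [(nat_lit 0, nat_lit 0, nat_lit 0), (nat_lit 0, nat_lit 0, nat_lit 0), (nat_lit 1000, nat_lit 993, nat_lit 781)], (nat_lit 99, nat_lit 100, nat_lit 77)⟩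
noncomputable def p090_k24 : C1.Kn := ⟨[nat_lit 60, nat_lit 100, nat_lit 160], [nat_lit 0, nat_lit 302, nat_lit 3303], [(nat_lit 0, nat_lit 0, nat_lit 0), (nat_lit 1000, nat_lit 953, nat_lit 118), (nat_lit 1000, nat_lit 952, nat_lit 781)], (nat_lit 100, nat_lit 100, nat_lit 89)⟩
noncomputable def p090_k25 : C1.Kn := ⟨[nat_lit 40, nat_lit 80, nat_lit 120], [nat_lit 0, nat_lit 795, nat_lit 2800], [(nat_lit 0, nat_lit 0, nat_lit 0), (nat_lit 1000, nat_lit 814, nat_lit 310), (nat_lit 1000, nat_lit 719, nat_lit 783)], (nat_lit 72, nat_lit 100, nat_lit 81)⟩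
noncomputable def p090_k26 : C1.Kn := ⟨[nat_lit 60, nat_lit 100, nat_lit 140], [nat_lit 0, nat_lit 609, nat_lit 2558], [(nat_lit 0, nat_lit 0, nat_lit 0), (nat_lit 1000, nat_lit 905, nat_lit 238), (nat_lit 1000, nat_lit 904, nat_lit 760)], (nat_lit 90, nat_lit 100, nat_lit 74)⟩
noncomputable def p090_k27 : C1.Kn := ⟨[nat_lit 40, nat_lit 80, nat_lit 120], [nat_lit 0, nat_lit 395, nat_lit 2466], [(nat_lit 0, nat_lit 0, nat_lit 0), (nat_lit 1000, nat_lit 908, nat_lit 154), (nat_lit 1000, nat_lit 773, nat_lit 792)], (nat_lit 76, nat_lit 100, nat_lit 72)⟩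
noncomputable def p090_k28 : C1.Kn := ⟨[nat_lit 60, nat_lit 100, nat_lit 140], [nat_lit 0, nat_lit 609, nat_lit 2558], [(nat_lit 0, nat_lit 0, nat_lit 0), (nat_lit 1000, nat_lit 905, nat_lit 238), (nat_lit 1000, nat_lit 904, nat_lit 760)], (nat_lit 94, nat_lit 100, nat_lit 87)⟩
noncomputable def p090_k29 : C1.Kn := ⟨[nat_lit 40, nat_lit 80, nat_lit 140], [nat_lit 0, nat_lit 395, nat_lit 3500], [(nat_lit 0, nat_lit 0, nat_lit 0), (nat_lit 1000, nat_lit 908, nat_lit 154), (nat_lit 1000, nat_lit 776, nat_lit 808)], (nat_lit 78, nat_lit 100, nat_lit 82)⟩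
noncomputable def p090_k30 : C1.Kn := ⟨[nat_lit 60, nat_lit 100, nat_lit 140], [nat_lit 0, nat_lit 909, nat_lit 2819], [(nat_lit 0, nat_lit 0, nat_lit 0), (nat_lit 1000, nat_lit 858, nat_lit 354), (nat_lit 1000, nat_lit 858, nat_lit 746)], (nat_lit 89, nat_lit 100, nat_lit 85)⟩
noncomputable def p090_k31 : C1.Kn := ⟨[nat_lit 60, nat_lit 100, nat_lit 140], [nat_lit 0, nat_lit 302, nat_lit 2304], [(nat_lit 0, nat_lit 0, nat_lit 0), (nat_lit 1000, nat_lit 953, nat_lit 118), (nat_lit 1000, nat_lit 952, nat_lit 781)], (nat_lit 94, nat_lit 100, nat_lit 75)⟩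
noncomputable def p090_k32 : C1.Kn := ⟨[nat_lit 40, nat_lit 80, nat_lit 120], [nat_lit 0, nat_lit 795, nat_lit 2800], [(nat_lit 0, nat_lit 0, nat_lit 0), (nat_lit 1000, nat_lit 814, nat_lit 310), (nat_lit 1000, nat_lit 719, nat_lit 783)], (nat_lit 71, nat_lit 100, nat_lit 71)⟩
noncomputable def p090_k33 : C1.Kn := ⟨[nat_lit 40, nat_lit 80, nat_lit 120], [nat_lit 0, nat_lit 1195, nat_lit 3135], [(nat_lit 0, nat_lit 0, nat_lit 0), (nat_lit 1000, nat_lit 720, nat_lit 465), (nat_lit 1000, nat_lit 661, nat_lit 757)], (nat_lit 66, nat_lit 100, nat_lit 80)⟩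
noncomputable def p090_k34 : C1.Kn := ⟨[nat_lit 40, nat_lit 80, nat_lit 100], [nat_lit 0, nat_lit 1195, nat_lit 2166], [(nat_lit 0, nat_lit 0, nat_lit 0), (nat_lit 1000, nat_lit 720, nat_lit 465), (nat_lit 1000, nat_lit 662, nat_lit 740)], (nat_lit 66, nat_lit 100, nat_lit 72)⟩
noncomputable def p090_k35 : C1.Kn := ⟨[nat_lit 40, nat_lit 80, nat_lit 100], [nat_lit 0, nat_lit 1399, nat_lit 2349], [(nat_lit 0, nat_lit 0, nat_lit 0), (nat_lit 1000, nat_lit 672, nat_lit 546), (nat_lit 1000, nat_lit 633, nat_lit 742)], (nat_lit 63, nat_lit 100, nat_lit 72)⟩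
noncomputable def p090_k36 : C1.Kn := ⟨[nat_lit 40, nat_lit 100, nat_lit 120], [nat_lit 0, nat_lit 1192, nat_lit 2817], [(nat_lit 0, nat_lit 0, nat_lit 0), (nat_lit 1000, nat_lit 814, nat_lit 310), (nat_lit 1000, nat_lit 727, nat_lit 834)], (nat_lit 72, nat_lit 100, nat_lit 81)⟩
noncomputable def p090_k37 : C1.Kn := ⟨[nat_lit 60, nat_lit 120, nat_lit 160], [nat_lit 0, nat_lit 453, nat_lit 3555], [(nat_lit 0, nat_lit 0, nat_lit 0), (nat_lit 1000, nat_lit 953, nat_lit 118), (nat_lit 904, nat_lit 1000, nat_lit 997)], (nat_lit 100, nat_lit 100, nat_lit 89)⟩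
noncomputable def p090_k38 : C1.Kn := ⟨[nat_lit 60, nat_lit 120, nat_lit 140], [nat_lit 0, nat_lit 913, nat_lit 2600], [(nat_lit 0, nat_lit 0, nat_lit 0), (nat_lit 1000, nat_lit 905, nat_lit 238), (nat_lit 1000, nat_lit 943, nat_lit 874)], (nat_lit 94, nat_lit 100, nat_lit 87)⟩
noncomputable def p090_k39 : C1.Kn := ⟨[nat_lit 60, nat_lit 100, nat_lit 140], [nat_lit 0, nat_lit 455, nat_lit 2431], [(nat_lit 0, nat_lit 0, nat_lit 0), (nat_lit 1000, nat_lit 929, nat_lit 178), (nat_lit 1000, nat_lit 928, nat_lit 770)], (nat_lit 92, nat_lit 100, nat_lit 75)⟩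
noncomputable def p090_l0 : Lf2 := ⟨nat_lit 0, nat_lit 10, [nat_lit 0, nat_lit 5, nat_lit 5, nat_lit 20], false, nat_lit 0, nat_lit 260, nat_lit 0, nat_lit 160, ⟨nat_lit 1000, nat_lit 0, nat_lit 0, nat_lit 0, nat_lit 0, nat_lit 0, nat_lit 0, nat_lit 0, nat_lit 0, nat_lit 0, nat_lit 0, nat_lit 0, nat_lit 0, nat_lit 0, nat_lit 0, nat_lit 0, false, false⟩,
 nat_lit 0, nat_lit 8188, nat_lit 0, nat_lit 0, nat_lit 6141, nat_lit 6164, nat_lit 459, nat_lit 0, nat_lit 0, nat_lit 1006, nat_lit 0, nat_lit 0, nat_lit 0, nat_lit 0, nat_lit 0, nat_lit 0, nat_lit 0, nat_lit 0, [],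
 ⟨p090_k0, nat_lit 0, nat_lit 0, nat_lit 576, nat_lit 0, nat_lit 1162853, [nat_lit 2032000001, nat_lit 4688000000, nat_lit 6250000000], [], [nat_lit 34027179182, nat_lit 34357653660, nat_lit 38874423228, nat_lit 39141674003, nat_lit 32748334733, nat_lit 32987940997, nat_lit 36019791302, nat_lit 36201760770], nat_lit 1271250, nat_lit 1271250, nat_lit 1271250, nat_lit 1271250, nat_lit 0, nat_lit 1836250, [nat_lit 490000, nat_lit 1100000, nat_lit 1442500], [nat_lit 6, nat_lit 40, nat_lit 40, nat_lit 80, nat_lit 3, nat_lit 289, nat_lit 75, nat_lit 10]⟩, ⟨p090_k1, nat_lit 0, nat_lit 0, nat_lit 217, nat_lit 0, nat_lit 0, [nat_lit 3282000000, nat_lit 6250000000, nat_lit 9842000000], [], [nat_lit 25112856790, nat_lit 26483689166, nat_lit 36169642032, nat_lit 37333514504, nat_lit 21251178240, nat_lit 22357704792, nat_lit 30975014496, nat_lit 31815682304], nat_lit 0, nat_lit 0, nat_lit 0, nat_lit 0, nat_lit 0, nat_lit 0,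 [], [nat_lit 8, nat_lit 40, nat_lit 40, nat_lit 80, nat_lit 1, nat_lit 373, nat_lit 150, nat_lit 10]⟩,
 zbF0, [⟨nat_lit 16, nat_lit 79, nat_lit 100, nat_lit 72, nat_lit 201016106⟩]⟩
noncomputable def p090_l1 : Lf2 := ⟨nat_lit 0, nat_lit 10, [nat_lit 0, nat_lit 5, nat_lit 5, nat_lit 20], false, nat_lit 0, nat_lit 244, nat_lit 0, nat_lit 160, ⟨nat_lit 1000, nat_lit 0, nat_lit 0, nat_lit 0, nat_lit 0, nat_lit 0, nat_lit 0, nat_lit 0, nat_lit 0, nat_lit 0, nat_lit 0, nat_lit 0, nat_lit 0, nat_lit 0, nat_lit 0, nat_lit 0, false, false⟩,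
 nat_lit 0, nat_lit 6643, nat_lit 0, nat_lit 0, nat_lit 5178, nat_lit 6046, nat_lit 1204, nat_lit 0, nat_lit 0, nat_lit 972, nat_lit 0, nat_lit 0, nat_lit 0, nat_lit 0, nat_lit 0, nat_lit 0, nat_lit 0, nat_lit 0, [],
 ⟨p090_k2, nat_lit 0, nat_lit 0, nat_lit 586, nat_lit 0, nat_lit 1183922, [nat_lit 2032000001, nat_lit 4688000000, nat_lit 6250000000], [], [nat_lit 28837755047, nat_lit 29212907433, nat_lit 36390407420, nat_lit 37020106272, nat_lit 28544438554, nat_lit 28818687912, nat_lit 32053471611, nat_lit 32530342507], nat_lit 1271250, nat_lit 1271250, nat_lit 1271250, nat_lit 1271250, nat_lit 0, nat_lit 1723250, [nat_lit 490000, nat_lit 1100000, nat_lit 1442500], [nat_lit 6, nat_lit 40, nat_lit 40, nat_lit 80, nat_lit 3, nat_lit 289, nat_lit 75, nat_lit 10]⟩, ⟨p090_k1, nat_lit 0, nat_lit 0, nat_lit 217, nat_lit 0, nat_lit 0, [nat_lit 3282000000, nat_lit 6250000000, nat_lit 9842000000], [], [nat_lit 25311723060,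 nat_lit 26668426824, nat_lit 36049283448, nat_lit 37014493776, nat_lit 21579789360, nat_lit 22675646588, nat_lit 31004506944, nat_lit 31839089256], nat_lit 0, nat_lit 0, nat_lit 0, nat_lit 0, nat_lit 0, nat_lit 0, [], [nat_lit 8, nat_lit 40, nat_lit 40, nat_lit 80, nat_lit 1, nat_lit 373, nat_lit 150, nat_lit 10]⟩,
 zbF0, [⟨nat_lit 4, nat_lit 100, nat_lit 74, nat_lit 72, nat_lit 140708945⟩]⟩
noncomputable def p090_l2 : Lf2 := ⟨nat_lit 0, nat_lit 10, [nat_lit 0, nat_lit 5, nat_lit 5, nat_lit 20], false, nat_lit 0, nat_lit 232, nat_lit 0, nat_lit 160, ⟨nat_lit 1000, nat_lit 0, nat_lit 0, nat_lit 0, nat_lit 0, nat_lit 0, nat_lit 0, nat_lit 0, nat_lit 0, nat_lit 0, nat_lit 0, nat_lit 0, nat_lit 0, nat_lit 0, nat_lit 0, nat_lit 0, false, false⟩,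
 nat_lit 0, nat_lit 8438, nat_lit 0, nat_lit 0, nat_lit 6328, nat_lit 5393, nat_lit 437, nat_lit 0, nat_lit 0, nat_lit 2255, nat_lit 0, nat_lit 0, nat_lit 0, nat_lit 0, nat_lit 0, nat_lit 0, nat_lit 0, nat_lit 0, [],
 ⟨p090_k0, nat_lit 0, nat_lit 0, nat_lit 634, nat_lit 0, nat_lit 1298217, [nat_lit 2032000001, nat_lit 4688000000, nat_lit 6250000000], [], [nat_lit 35349420896, nat_lit 35665616008, nat_lit 39458542688, nat_lit 39682293024, nat_lit 33292041029, nat_lit 33519740398, nat_lit 36205430778, nat_lit 36364620919], nat_lit 1271250, nat_lit 1271250, nat_lit 1271250, nat_lit 1271250, nat_lit 0, nat_lit 1638500, [nat_lit 490000, nat_lit 1100000, nat_lit 1442500], [nat_lit 6, nat_lit 40, nat_lit 40, nat_lit 80, nat_lit 3, nat_lit 279, nat_lit 60, nat_lit 10]⟩, ⟨p090_k3, nat_lit 0, nat_lit 0, nat_lit 199, nat_lit 0, nat_lit 0, [nat_lit 3282000000, nat_lit 6250000000, nat_lit 7968000000], [], [nat_lit 21866583113,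 nat_lit 23516276640, nat_lit 35246274098, nat_lit 36362226108, nat_lit 20143557279, nat_lit 21296535300, nat_lit 29683969888, nat_lit 30672384392], nat_lit 0, nat_lit 0, nat_lit 0, nat_lit 0, nat_lit 0, nat_lit 0, [], [nat_lit 18, nat_lit 40, nat_lit 40, nat_lit 80, nat_lit 2, nat_lit 249, nat_lit 40, nat_lit 8]⟩,
 zbF0, [⟨nat_lit 4, nat_lit 100, nat_lit 78, nat_lit 66, nat_lit 179740236⟩]⟩
noncomputable def p090_l3 : Lf2 := ⟨nat_lit 0, nat_lit 10, [nat_lit 0, nat_lit 5, nat_lit 5, nat_lit 20], false, nat_lit 0, nat_lit 220, nat_lit 0, nat_lit 160, ⟨nat_lit 1000, nat_lit 0, nat_lit 0, nat_lit 0, nat_lit 0, nat_lit 0, nat_lit 0, nat_lit 0, nat_lit 0, nat_lit 0, nat_lit 0, nat_lit 0, nat_lit 0, nat_lit 0, nat_lit 0, nat_lit 0, false, false⟩,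
 nat_lit 0, nat_lit 6593, nat_lit 0, nat_lit 0, nat_lit 5139, nat_lit 6184, nat_lit 1319, nat_lit 0, nat_lit 0, nat_lit 847, nat_lit 0, nat_lit 0, nat_lit 0, nat_lit 0, nat_lit 0, nat_lit 0, nat_lit 0, nat_lit 0, [],
 ⟨p090_k2, nat_lit 0, nat_lit 0, nat_lit 638, nat_lit 0, nat_lit 1305792, [nat_lit 2032000001, nat_lit 4688000000, nat_lit 6250000000], [], [nat_lit 29258363826, nat_lit 29606673510, nat_lit 36278988710, nat_lit 36906381336, nat_lit 28681438169, nat_lit 28947237788, nat_lit 31964557114, nat_lit 32150032271], nat_lit 1271250, nat_lit 1271250, nat_lit 1271250, nat_lit 1271250, nat_lit 0, nat_lit 1553750, [nat_lit 490000, nat_lit 1100000, nat_lit 1442500], [nat_lit 6, nat_lit 40, nat_lit 40, nat_lit 80, nat_lit 3, nat_lit 280, nat_lit 60, nat_lit 10]⟩, ⟨p090_k3, nat_lit 0, nat_lit 0, nat_lit 199, nat_lit 0, nat_lit 0, [nat_lit 3282000000, nat_lit 6250000000, nat_lit 7968000000], [], [nat_lit 26202788418,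 nat_lit 27394770418, nat_lit 37387658224, nat_lit 38575251104, nat_lit 23116718018, nat_lit 24003217642, nat_lit 30621475744, nat_lit 31669632896], nat_lit 0, nat_lit 0, nat_lit 0, nat_lit 0, nat_lit 0, nat_lit 0, [], [nat_lit 18, nat_lit 40, nat_lit 40, nat_lit 80, nat_lit 2, nat_lit 249, nat_lit 40, nat_lit 8]⟩,
 zbF0, [⟨nat_lit 4, nat_lit 100, nat_lit 74, nat_lit 66, nat_lit 108187233⟩]⟩
noncomputable def p090_l4 : Lf2 := ⟨nat_lit 0, nat_lit 10, [nat_lit 0, nat_lit 5, nat_lit 5, nat_lit 20], false, nat_lit 0, nat_lit 260, nat_lit 0, nat_lit 160, ⟨nat_lit 1000, nat_lit 0, nat_lit 0, nat_lit 0, nat_lit 0, nat_lit 0, nat_lit 0, nat_lit 0, nat_lit 0, nat_lit 0, nat_lit 0, nat_lit 0, nat_lit 0, nat_lit 0, nat_lit 0, nat_lit 0, false, false⟩,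
 nat_lit 0, nat_lit 8359, nat_lit 0, nat_lit 0, nat_lit 6268, nat_lit 5416, nat_lit 392, nat_lit 0, nat_lit 0, nat_lit 2193, nat_lit 0, nat_lit 0, nat_lit 0, nat_lit 0, nat_lit 0, nat_lit 0, nat_lit 0, nat_lit 0, [],
 ⟨p090_k0, nat_lit 0, nat_lit 0, nat_lit 606, nat_lit 0, nat_lit 1220349, [nat_lit 2032000001, nat_lit 4688000000, nat_lit 6250000000], [], [nat_lit 36027151920, nat_lit 36615584528, nat_lit 39758722928, nat_lit 40205601160, nat_lit 33990405277, nat_lit 34423929764, nat_lit 36713121384, nat_lit 37010773566], nat_lit 1271250, nat_lit 1271250, nat_lit 1271250, nat_lit 1271250, nat_lit 0, nat_lit 1836250, [nat_lit 490000, nat_lit 1100000, nat_lit 1442500], [nat_lit 6, nat_lit 40, nat_lit 40, nat_lit 80, nat_lit 3, nat_lit 289, nat_lit 75, nat_lit 10]⟩, ⟨p090_k3, nat_lit 0, nat_lit 0, nat_lit 199, nat_lit 0, nat_lit 0, [nat_lit 3282000000, nat_lit 6250000000, nat_lit 7968000000], [], [nat_lit 22057985254,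 nat_lit 23550235680, nat_lit 35308539376, nat_lit 36426574496, nat_lit 20199579323, nat_lit 21238945600, nat_lit 29711229856, nat_lit 30701381504], nat_lit 0, nat_lit 0, nat_lit 0, nat_lit 0, nat_lit 0, nat_lit 0, [], [nat_lit 18, nat_lit 40, nat_lit 40, nat_lit 80, nat_lit 2, nat_lit 249, nat_lit 40, nat_lit 8]⟩,
 zbF0, [⟨nat_lit 16, nat_lit 77, nat_lit 100, nat_lit 77, nat_lit 184546321⟩]⟩
noncomputable def p090_l5 : Lf2 := ⟨nat_lit 0, nat_lit 10, [nat_lit 0, nat_lit 5, nat_lit 5, nat_lit 20], false, nat_lit 0, nat_lit 232, nat_lit 0, nat_lit 160, ⟨nat_lit 1000, nat_lit 0, nat_lit 0, nat_lit 0, nat_lit 0, nat_lit 0, nat_lit 0, nat_lit 0, nat_lit 0, nat_lit 0, nat_lit 0, nat_lit 0, nat_lit 0, nat_lit 0, nat_lit 0, nat_lit 0, false, false⟩,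
 nat_lit 0, nat_lit 5713, nat_lit 0, nat_lit 0, nat_lit 4624, nat_lit 6814, nat_lit 932, nat_lit 0, nat_lit 0, nat_lit 944, nat_lit 0, nat_lit 0, nat_lit 0, nat_lit 0, nat_lit 0, nat_lit 0, nat_lit 0, nat_lit 0, [],
 ⟨p090_k4, nat_lit 0, nat_lit 0, nat_lit 692, nat_lit 0, nat_lit 1428878, [nat_lit 2032000001, nat_lit 4688000000, nat_lit 6250000000], [], [nat_lit 32012861683, nat_lit 32675284115, nat_lit 36130762243, nat_lit 36605870963, nat_lit 32155227450, nat_lit 32657011210, nat_lit 35252641237, nat_lit 35613579543], nat_lit 1271250, nat_lit 1271250, nat_lit 1271250, nat_lit 1271250, nat_lit 0, nat_lit 1638500, [nat_lit 490000, nat_lit 1100000, nat_lit 1442500], [nat_lit 6, nat_lit 40, nat_lit 40, nat_lit 80, nat_lit 3, nat_lit 297, nat_lit 60, nat_lit 10]⟩, ⟨p090_k1, nat_lit 0, nat_lit 0, nat_lit 219, nat_lit 0, nat_lit 0, [nat_lit 3282000000, nat_lit 6250000000, nat_lit 9842000000], [], [nat_lit 27942807504,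 nat_lit 30199151992, nat_lit 37848533424, nat_lit 40337837384, nat_lit 23895947728, nat_lit 25780845464, nat_lit 32158422192, nat_lit 33527957648], nat_lit 0, nat_lit 0, nat_lit 0, nat_lit 0, nat_lit 0, nat_lit 0, [], [nat_lit 8, nat_lit 40, nat_lit 40, nat_lit 80, nat_lit 1, nat_lit 373, nat_lit 150, nat_lit 10]⟩,
 zbF0, [⟨nat_lit 16, nat_lit 66, nat_lit 100, nat_lit 72, nat_lit 300194805⟩]⟩
noncomputable def p090_l6 : Lf2 := ⟨nat_lit 0, nat_lit 10, [nat_lit 0, nat_lit 5, nat_lit 5, nat_lit 20], false, nat_lit 0, nat_lit 160, nat_lit 160, nat_lit 300, ⟨nat_lit 1000, nat_lit 0, nat_lit 0, nat_lit 0, nat_lit 0, nat_lit 0, nat_lit 0, nat_lit 0, nat_lit 0, nat_lit 0, nat_lit 0, nat_lit 0, nat_lit 0, nat_lit 0, nat_lit 0, nat_lit 0, false, false⟩,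
 nat_lit 0, nat_lit 8438, nat_lit 0, nat_lit 0, nat_lit 6328, nat_lit 7044, nat_lit 429, nat_lit 0, nat_lit 0, nat_lit 0, nat_lit 0, nat_lit 0, nat_lit 0, nat_lit 0, nat_lit 0, nat_lit 0, nat_lit 0, nat_lit 0, [],
 ⟨p090_k0, nat_lit 0, nat_lit 0, nat_lit 576, nat_lit 0, nat_lit 1162853, [nat_lit 2032000001, nat_lit 4688000000, nat_lit 6250000000], [], [nat_lit 33401645568, nat_lit 33756829672, nat_lit 38978127968, nat_lit 39675830920, nat_lit 30749524962, nat_lit 31022701346, nat_lit 34770542688, nat_lit 34994293024], nat_lit 1271250, nat_lit 1271250, nat_lit 1271250, nat_lit 1271250, nat_lit 0, nat_lit 1100001, [nat_lit 490000, nat_lit 1100000, nat_lit 1442500], [nat_lit 6, nat_lit 40, nat_lit 40, nat_lit 80, nat_lit 3, nat_lit 256, nat_lit 40, nat_lit 9]⟩, ⟨p090_k1, nat_lit 0, nat_lit 0, nat_lit 86, nat_lit 0, nat_lit 0, [nat_lit 3282000000, nat_lit 6250000000, nat_lit 9842000000], [], [nat_lit 19384041920, nat_lit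 20900199592, nat_lit 30755070816, nat_lit 31641121984, nat_lit 25147365296, nat_lit 26227351286, nat_lit 33878470516, nat_lit 34663118554], nat_lit 0, nat_lit 0, nat_lit 0, nat_lit 0, nat_lit 0, nat_lit 0, [], [nat_lit 8, nat_lit 40, nat_lit 40, nat_lit 80, nat_lit 1, nat_lit 401, nat_lit 175, nat_lit 11]⟩,
 zbF0, [⟨nat_lit 7, nat_lit 100, nat_lit 94, nat_lit 75, nat_lit 520199857⟩]⟩
noncomputable def p090_l7 : Lf2 := ⟨nat_lit 0, nat_lit 10, [nat_lit 0, nat_lit 5, nat_lit 5, nat_lit 20], false, nat_lit 0, nat_lit 160, nat_lit 160, nat_lit 280, ⟨nat_lit 1000, nat_lit 0, nat_lit 0, nat_lit 0, nat_lit 0, nat_lit 0, nat_lit 0, nat_lit 0, nat_lit 0, nat_lit 0, nat_lit 0, nat_lit 0, nat_lit 0, nat_lit 0, nat_lit 0, nat_lit 0, false, false⟩,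
 nat_lit 0, nat_lit 8700, nat_lit 0, nat_lit 0, nat_lit 6524, nat_lit 5209, nat_lit 418, nat_lit 0, nat_lit 0, nat_lit 2683, nat_lit 0, nat_lit 0, nat_lit 0, nat_lit 0, nat_lit 0, nat_lit 0, nat_lit 0, nat_lit 0, [],
 ⟨p090_k0, nat_lit 0, nat_lit 0, nat_lit 634, nat_lit 0, nat_lit 1297343, [nat_lit 2032000001, nat_lit 4688000000, nat_lit 6250000000], [], [nat_lit 34460544560, nat_lit 34609493096, nat_lit 39526488144, nat_lit 39881134752, nat_lit 31690985872, nat_lit 31822944124, nat_lit 35107374112, nat_lit 35199658882], nat_lit 1271250, nat_lit 1271250, nat_lit 1271250, nat_lit 1271250, nat_lit 0, nat_lit 1100001, [nat_lit 490000, nat_lit 1100000, nat_lit 1442500], [nat_lit 6, nat_lit 40, nat_lit 40, nat_lit 80, nat_lit 3, nat_lit 270, nat_lit 40, nat_lit 9]⟩, ⟨p090_k3, nat_lit 0, nat_lit 0, nat_lit 90, nat_lit 0, nat_lit 0, [nat_lit 3282000000, nat_lit 6250000000, nat_lit 7968000000], [], [nat_lit 19212076786,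 nat_lit 20524314856, nat_lit 29465890144, nat_lit 30440407496, nat_lit 23441475367, nat_lit 24459652878, nat_lit 31941182409, nat_lit 32697113516], nat_lit 0, nat_lit 0, nat_lit 0, nat_lit 0, nat_lit 0, nat_lit 0, [], [nat_lit 18, nat_lit 40, nat_lit 40, nat_lit 80, nat_lit 2, nat_lit 289, nat_lit 75, nat_lit 8]⟩,
 zbF0, [⟨nat_lit 19, nat_lit 85, nat_lit 100, nat_lit 73, nat_lit 610357058⟩]⟩
noncomputable def p090_l8 : Lf2 := ⟨nat_lit 0, nat_lit 10, [nat_lit 0, nat_lit 5, nat_lit 5, nat_lit 20], false, nat_lit 0, nat_lit 160, nat_lit 160, nat_lit 280, ⟨nat_lit 1000, nat_lit 0, nat_lit 0, nat_lit 0, nat_lit 0, nat_lit 0, nat_lit 0, nat_lit 0, nat_lit 0, nat_lit 0, nat_lit 0, nat_lit 0, nat_lit 0, nat_lit 0, nat_lit 0, nat_lit 0, false, false⟩,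
 nat_lit 0, nat_lit 7052, nat_lit 0, nat_lit 0, nat_lit 5392, nat_lit 7074, nat_lit 2433, nat_lit 0, nat_lit 0, nat_lit 0, nat_lit 0, nat_lit 0, nat_lit 0, nat_lit 0, nat_lit 0, nat_lit 0, nat_lit 0, nat_lit 0, [],
 ⟨p090_k5, nat_lit 0, nat_lit 0, nat_lit 636, nat_lit 0, nat_lit 1301372, [nat_lit 2032000001, nat_lit 4688000000, nat_lit 6250000000], [], [nat_lit 31057421174, nat_lit 31196438218, nat_lit 36680605116, nat_lit 37001781880, nat_lit 29383910190, nat_lit 29500232474, nat_lit 32241294442, nat_lit 32320970002], nat_lit 1271250, nat_lit 1271250, nat_lit 1271250, nat_lit 1271250, nat_lit 0, nat_lit 1100001, [nat_lit 490000, nat_lit 1100000, nat_lit 1442500], [nat_lit 6, nat_lit 40, nat_lit 40, nat_lit 80, nat_lit 3, nat_lit 271, nat_lit 40, nat_lit 10]⟩, ⟨p090_k3, nat_lit 0, nat_lit 0, nat_lit 90, nat_lit 0, nat_lit 0, [nat_lit 3282000000, nat_lit 6250000000, nat_lit 7968000000], [], [nat_lit 20868646132,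 nat_lit 22388599944, nat_lit 31676317984, nat_lit 32791695056, nat_lit 25205682470, nat_lit 26353727580, nat_lit 34005366274, nat_lit 34842840776], nat_lit 0, nat_lit 0, nat_lit 0, nat_lit 0, nat_lit 0, nat_lit 0, [], [nat_lit 18, nat_lit 40, nat_lit 40, nat_lit 80, nat_lit 2, nat_lit 289, nat_lit 75, nat_lit 8]⟩,
 zbF0, [⟨nat_lit 7, nat_lit 100, nat_lit 85, nat_lit 73, nat_lit 612359210⟩]⟩
noncomputable def p090_l9 : Lf2 := ⟨nat_lit 0, nat_lit 10, [nat_lit 0, nat_lit 5, nat_lit 5, nat_lit 20], false, nat_lit 160, nat_lit 260, nat_lit 160, nat_lit 300, ⟨nat_lit 1000, nat_lit 0, nat_lit 0, nat_lit 0, nat_lit 0, nat_lit 0, nat_lit 0, nat_lit 0, nat_lit 0, nat_lit 0, nat_lit 0, nat_lit 0, nat_lit 0, nat_lit 0, nat_lit 0, nat_lit 0, false, false⟩,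
 nat_lit 0, nat_lit 8328, nat_lit 0, nat_lit 0, nat_lit 6245, nat_lit 7044, nat_lit 472, nat_lit 0, nat_lit 0, nat_lit 0, nat_lit 0, nat_lit 0, nat_lit 0, nat_lit 0, nat_lit 0, nat_lit 0, nat_lit 0, nat_lit 0, [],
 ⟨p090_k0, nat_lit 0, nat_lit 0, nat_lit 492, nat_lit 0, nat_lit 1162853, [nat_lit 2032000001, nat_lit 4688000000, nat_lit 6250000000], [], [nat_lit 28774255200, nat_lit 29152658665, nat_lit 33756706460, nat_lit 34025025835, nat_lit 30151192460, nat_lit 30486842748, nat_lit 34243009165, nat_lit 34462905339], nat_lit 1271250, nat_lit 1271250, nat_lit 1271250, nat_lit 1271250, nat_lit 1100001, nat_lit 1956250, [nat_lit 490000, nat_lit 1100000, nat_lit 1442500], [nat_lit 6, nat_lit 40, nat_lit 40, nat_lit 80, nat_lit 3, nat_lit 289, nat_lit 75, nat_lit 9]⟩, ⟨p090_k1, nat_lit 0, nat_lit 0, nat_lit 86, nat_lit 0, nat_lit 0, [nat_lit 3282000000, nat_lit 6250000000, nat_lit 9842000000], [], [nat_lit 19384041920,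 nat_lit 20900199592, nat_lit 30755070816, nat_lit 31641121984, nat_lit 25147365296, nat_lit 26227351286, nat_lit 33878470516, nat_lit 34663118554], nat_lit 0, nat_lit 0, nat_lit 0, nat_lit 0, nat_lit 0, nat_lit 0, [], [nat_lit 8, nat_lit 40, nat_lit 40, nat_lit 80, nat_lit 1, nat_lit 401, nat_lit 175, nat_lit 11]⟩,
 zbF0, [⟨nat_lit 4, nat_lit 100, nat_lit 79, nat_lit 72, nat_lit 486415113⟩, ⟨nat_lit 7, nat_lit 100, nat_lit 94, nat_lit 75, nat_lit 474512651⟩]⟩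
noncomputable def p090_l10 : Lf2 := ⟨nat_lit 0, nat_lit 10, [nat_lit 0, nat_lit 5, nat_lit 5, nat_lit 20], false, nat_lit 160, nat_lit 260, nat_lit 160, nat_lit 280, ⟨nat_lit 1000, nat_lit 0, nat_lit 0, nat_lit 0, nat_lit 0, nat_lit 0, nat_lit 0, nat_lit 0, nat_lit 0, nat_lit 0, nat_lit 0, nat_lit 0, nat_lit 0, nat_lit 0, nat_lit 0, nat_lit 0, false, false⟩,
 nat_lit 0, nat_lit 8648, nat_lit 0, nat_lit 0, nat_lit 6485, nat_lit 5376, nat_lit 2928, nat_lit 0, nat_lit 0, nat_lit 0, nat_lit 0, nat_lit 0, nat_lit 0, nat_lit 0, nat_lit 0, nat_lit 0, nat_lit 0, nat_lit 0, [],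
 ⟨p090_k0, nat_lit 0, nat_lit 0, nat_lit 559, nat_lit 0, nat_lit 1336626, [nat_lit 2032000001, nat_lit 4688000000, nat_lit 6250000000], [], [nat_lit 29802873400, nat_lit 30144624060, nat_lit 31567418620, nat_lit 31851596320, nat_lit 30840317595, nat_lit 31122423205, nat_lit 32221798765, nat_lit 32454930759], nat_lit 1271250, nat_lit 1271250, nat_lit 1271250, nat_lit 1271250, nat_lit 1100001, nat_lit 1956250, [nat_lit 490000, nat_lit 1100000, nat_lit 1442500], [nat_lit 6, nat_lit 40, nat_lit 40, nat_lit 80, nat_lit 3, nat_lit 289, nat_lit 75, nat_lit 9]⟩, ⟨p090_k3, nat_lit 0, nat_lit 0, nat_lit 54, nat_lit 0, nat_lit 0, [nat_lit 3282000000, nat_lit 6250000000, nat_lit 7968000000], [], [nat_lit 18078629232, nat_lit 19576957760, nat_lit 23216233392, nat_lit 24546865408, nat_lit 23022306400, nat_lit 24297007712, nat_lit 27048279432, nat_lit 28070588352], nat_lit 0, nat_lit 0, nat_lit 0, nat_lit 0, nat_lit 0, nat_lit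 0, [], [nat_lit 18, nat_lit 40, nat_lit 40, nat_lit 80, nat_lit 2, nat_lit 289, nat_lit 75, nat_lit 8]⟩,
 zbF0, [⟨nat_lit 4, nat_lit 100, nat_lit 79, nat_lit 72, nat_lit 454922200⟩, ⟨nat_lit 7, nat_lit 100, nat_lit 85, nat_lit 73, nat_lit 663078809⟩]⟩
noncomputable def p090_l11 : Lf2 := ⟨nat_lit 0, nat_lit 10, [nat_lit 0, nat_lit 5, nat_lit 5, nat_lit 20], false, nat_lit 160, nat_lit 260, nat_lit 160, nat_lit 280, ⟨nat_lit 1000, nat_lit 0, nat_lit 0, nat_lit 0, nat_lit 0, nat_lit 0, nat_lit 0, nat_lit 0, nat_lit 0, nat_lit 0, nat_lit 0, nat_lit 0, nat_lit 0, nat_lit 0, nat_lit 0, nat_lit 0, false, false⟩,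
 nat_lit 0, nat_lit 7987, nat_lit 0, nat_lit 0, nat_lit 5990, nat_lit 4729, nat_lit 406, nat_lit 0, nat_lit 0, nat_lit 2256, nat_lit 0, nat_lit 0, nat_lit 0, nat_lit 0, nat_lit 0, nat_lit 0, nat_lit 0, nat_lit 0, [],
 ⟨p090_k0, nat_lit 0, nat_lit 0, nat_lit 559, nat_lit 0, nat_lit 1336626, [nat_lit 2032000001, nat_lit 4688000000, nat_lit 6250000000], [], [nat_lit 34306817842, nat_lit 34531238422, nat_lit 36461558040, nat_lit 36683555170, nat_lit 34870754912, nat_lit 35069399537, nat_lit 36807524780, nat_lit 36989474203], nat_lit 1271250, nat_lit 1271250, nat_lit 1271250, nat_lit 1271250, nat_lit 1100001, nat_lit 1956250, [nat_lit 490000, nat_lit 1100000, nat_lit 1442500], [nat_lit 6, nat_lit 40, nat_lit 40, nat_lit 80, nat_lit 3, nat_lit 289, nat_lit 75, nat_lit 9]⟩, ⟨p090_k3, nat_lit 0, nat_lit 0, nat_lit 90, nat_lit 0, nat_lit 0, [nat_lit 3282000000, nat_lit 6250000000, nat_lit 7968000000], [], [nat_lit 24165468638,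 nat_lit 25186254380, nat_lit 29045385594, nat_lit 29836095824, nat_lit 27383576176, nat_lit 28186125344, nat_lit 31409917929, nat_lit 32144861996], nat_lit 0, nat_lit 0, nat_lit 0, nat_lit 0, nat_lit 0, nat_lit 0, [], [nat_lit 18, nat_lit 40, nat_lit 40, nat_lit 80, nat_lit 2, nat_lit 289, nat_lit 75, nat_lit 8]⟩,
 zbF0, [⟨nat_lit 16, nat_lit 79, nat_lit 100, nat_lit 72, nat_lit 416455835⟩, ⟨nat_lit 7, nat_lit 100, nat_lit 85, nat_lit 73, nat_lit 516342962⟩]⟩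
noncomputable def p090_l12 : Lf2 := ⟨nat_lit 0, nat_lit 10, [nat_lit 0, nat_lit 5, nat_lit 5, nat_lit 20], false, nat_lit 0, nat_lit 244, nat_lit 160, nat_lit 300, ⟨nat_lit 1000, nat_lit 0, nat_lit 0, nat_lit 0, nat_lit 0, nat_lit 0, nat_lit 0, nat_lit 0, nat_lit 0, nat_lit 0, nat_lit 0, nat_lit 0, nat_lit 0, nat_lit 0, nat_lit 0, nat_lit 0, false, false⟩,
 nat_lit 0, nat_lit 6355, nat_lit 0, nat_lit 0, nat_lit 4953, nat_lit 6882, nat_lit 2029, nat_lit 0, nat_lit 0, nat_lit 0, nat_lit 0, nat_lit 0, nat_lit 0, nat_lit 0, nat_lit 0, nat_lit 0, nat_lit 0, nat_lit 0, [],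
 ⟨p090_k2, nat_lit 0, nat_lit 0, nat_lit 653, nat_lit 0, nat_lit 1344089, [nat_lit 2032000001, nat_lit 4688000000, nat_lit 6250000000], [], [nat_lit 28035177578, nat_lit 28400203328, nat_lit 35747607170, nat_lit 36364000872, nat_lit 28269444144, nat_lit 28537956545, nat_lit 31920235943, nat_lit 32262331979], nat_lit 1271250, nat_lit 1271250, nat_lit 1271250, nat_lit 1271250, nat_lit 0, nat_lit 1723250, [nat_lit 490000, nat_lit 1100000, nat_lit 1442500], [nat_lit 6, nat_lit 40, nat_lit 40, nat_lit 80, nat_lit 3, nat_lit 289, nat_lit 75, nat_lit 10]⟩, ⟨p090_k1, nat_lit 0, nat_lit 0, nat_lit 90, nat_lit 0, nat_lit 0, [nat_lit 3282000000, nat_lit 6250000000, nat_lit 9842000000], [], [nat_lit 19574929760, nat_lit 22566246792, nat_lit 30795560448, nat_lit 32550953456, nat_lit 25291102388, nat_lit 27426686078, nat_lit 33701122798, nat_lit 35258191276], nat_lit 0, nat_lit 0, nat_lit 0, nat_lit 0, nat_lit 0, nat_lit 0, [],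 [nat_lit 8, nat_lit 40, nat_lit 40, nat_lit 80, nat_lit 1, nat_lit 401, nat_lit 175, nat_lit 11]⟩,
 zbF0, [⟨nat_lit 16, nat_lit 74, nat_lit 100, nat_lit 72, nat_lit 155571119⟩, ⟨nat_lit 7, nat_lit 100, nat_lit 90, nat_lit 74, nat_lit 556689054⟩]⟩
noncomputable def p090_l13 : Lf2 := ⟨nat_lit 0, nat_lit 10, [nat_lit 0, nat_lit 5, nat_lit 5, nat_lit 20], false, nat_lit 0, nat_lit 232, nat_lit 160, nat_lit 300, ⟨nat_lit 1000, nat_lit 0, nat_lit 0, nat_lit 0, nat_lit 0, nat_lit 0, nat_lit 0, nat_lit 0, nat_lit 0, nat_lit 0, nat_lit 0, nat_lit 0, nat_lit 0, nat_lit 0, nat_lit 0, nat_lit 0, false, false⟩,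
 nat_lit 0, nat_lit 6113, nat_lit 0, nat_lit 0, nat_lit 4948, nat_lit 6882, nat_lit 1192, nat_lit 0, nat_lit 0, nat_lit 0, nat_lit 0, nat_lit 0, nat_lit 0, nat_lit 0, nat_lit 0, nat_lit 0, nat_lit 0, nat_lit 0, [],
 ⟨p090_k4, nat_lit 0, nat_lit 0, nat_lit 692, nat_lit 0, nat_lit 1428878, [nat_lit 2032000001, nat_lit 4688000000, nat_lit 6250000000], [], [nat_lit 28608236500, nat_lit 29359460884, nat_lit 36349420752, nat_lit 37581616816, nat_lit 28988508226, nat_lit 29612180604, nat_lit 32826611346, nat_lit 33269777495], nat_lit 1271250, nat_lit 1271250, nat_lit 1271250, nat_lit 1271250, nat_lit 0, nat_lit 1638500, [nat_lit 490000, nat_lit 1100000, nat_lit 1442500], [nat_lit 6, nat_lit 40, nat_lit 40, nat_lit 80, nat_lit 3, nat_lit 297, nat_lit 60, nat_lit 10]⟩, ⟨p090_k1, nat_lit 0, nat_lit 0, nat_lit 90, nat_lit 0, nat_lit 0, [nat_lit 3282000000, nat_lit 6250000000, nat_lit 9842000000], [], [nat_lit 19574929760,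 nat_lit 22566246792, nat_lit 30795560448, nat_lit 32550953456, nat_lit 25291102388, nat_lit 27426686078, nat_lit 33701122798, nat_lit 35258191276], nat_lit 0, nat_lit 0, nat_lit 0, nat_lit 0, nat_lit 0, nat_lit 0, [], [nat_lit 8, nat_lit 40, nat_lit 40, nat_lit 80, nat_lit 1, nat_lit 401, nat_lit 175, nat_lit 11]⟩,
 zbF0, [⟨nat_lit 4, nat_lit 100, nat_lit 66, nat_lit 72, nat_lit 149379610⟩, ⟨nat_lit 7, nat_lit 100, nat_lit 90, nat_lit 74, nat_lit 546675841⟩]⟩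
noncomputable def b_V_800_700_10_8 : St := ⟨true, nat_lit 1, nat_lit 0, nat_lit 1, nat_lit 80, nat_lit 320, nat_lit 360, nat_lit 280, nat_lit 320, nat_lit 240, nat_lit 400, nat_lit 40, nat_lit 80, nat_lit 0, nat_lit 260, nat_lit 0, nat_lit 300, nat_lit 0, nat_lit 40, nat_lit 0, nat_lit 0, nat_lit 0, nat_lit 0⟩
theorem d_V_800_700_10_8 (h : EB TB.env) : Dead b_V_800_700_10_8 := chkB_sound0 h (T :=
(.spl (nat_lit 5) (nat_lit 160)
(.spl (nat_lit 0) (nat_lit 340)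
(.spl (nat_lit 1) (nat_lit 300)
(.spl (nat_lit 0) (nat_lit 330)
(.leaf p090_l0)
(.trX (nat_lit 16) (nat_lit 78) (nat_lit 100) (nat_lit 82) (nat_lit 244) (.leaf p090_l1)))
(.spl (nat_lit 3) (nat_lit 60)
(.trX (nat_lit 16) (nat_lit 81) (nat_lit 100) (nat_lit 72) (nat_lit 232) (.spl (nat_lit 0) (nat_lit 330)
(.leaf p090_l2)
(.trX (nat_lit 16) (nat_lit 76) (nat_lit 100) (nat_lit 72) (nat_lit 220) (.leaf p090_l3))))
(.leaf p090_l4)))
(.trX (nat_lit 16) (nat_lit 72) (nat_lit 100) (nat_lit 81) (nat_lit 232) (.leaf p090_l5)))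
(.spl (nat_lit 0) (nat_lit 340)
(.spl (nat_lit 0) (nat_lit 330)
(.spl (nat_lit 4) (nat_lit 160)
(.spl (nat_lit 1) (nat_lit 300)
(.leaf p090_l6)
(.trX (nat_lit 19) (nat_lit 94) (nat_lit 100) (nat_lit 87) (nat_lit 280) (.spl (nat_lit 0) (nat_lit 325)
(.leaf p090_l7)
(.leaf p090_l8))))
(.spl (nat_lit 1) (nat_lit 300)
(.leaf p090_l9)
(.trX (nat_lit 19) (nat_lit 94) (nat_lit 100) (nat_lit 87) (nat_lit 280) (.spl (nat_lit 2) (nat_lit 320)
(.leaf p090_l10)
(.leaf p090_l11)))))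
(.trX (nat_lit 16) (nat_lit 78) (nat_lit 100) (nat_lit 82) (nat_lit 244) (.leaf p090_l12)))
(.trX (nat_lit 16) (nat_lit 72) (nat_lit 100) (nat_lit 81) (nat_lit 232) (.leaf p090_l13))))) (by decide +kernel)
noncomputable def p090_l14 : Lf2 := ⟨nat_lit 0, nat_lit 10, [nat_lit 0, nat_lit 5, nat_lit 5, nat_lit 20], false, nat_lit 0, nat_lit 160, nat_lit 0, nat_lit 160, ⟨nat_lit 540, nat_lit 0, nat_lit 460, nat_lit 7, nat_lit 223, nat_lit 427, nat_lit 56, nat_lit 460, nat_lit 29400, nat_lit 257, nat_lit 123308, nat_lit 200, nat_lit 51064996, nat_lit 0, nat_lit 0, nat_lit 2742861, false, false⟩,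
 nat_lit 6648, nat_lit 0, nat_lit 0, nat_lit 0, nat_lit 4986, nat_lit 4230, nat_lit 143, nat_lit 0, nat_lit 0, nat_lit 416, nat_lit 0, nat_lit 0, nat_lit 0, nat_lit 0, nat_lit 0, nat_lit 460000, nat_lit 0, nat_lit 0, [(nat_lit 18, [(nat_lit 6, nat_lit 460)])],
 ⟨p090_k0, nat_lit 0, nat_lit 0, nat_lit 441, nat_lit 0, nat_lit 765677, [nat_lit 1584757334, nat_lit 1961242667, nat_lit 1580632000], [], [nat_lit 21289512169, nat_lit 21689185122, nat_lit 22915349280, nat_lit 24956458484, nat_lit 18478739200, nat_lit 19428122396, nat_lit 22612051849, nat_lit 21244990920], nat_lit 1271250, nat_lit 1271250, nat_lit 631250, nat_lit 1751250, nat_lit 0, nat_lit 1100001, [nat_lit 490000, nat_lit 1100000, nat_lit 1442500], [nat_lit 6, nat_lit 40, nat_lit 40, nat_lit 80, nat_lit 3, nat_lit 317, nat_lit 100, nat_lit 12]⟩, ⟨p090_k1, nat_lit 0, nat_lit 0, nat_lit 649, nat_lit 0, nat_lit 933573, [nat_lit 1772280000, nat_lit 3375000000,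 nat_lit 5314680000], [], [nat_lit 20326127940, nat_lit 18700922360, nat_lit 17949825360, nat_lit 18645010200, nat_lit 15745045160, nat_lit 16392203640, nat_lit 19871013960, nat_lit 16318347840], nat_lit 1271250, nat_lit 1271250, nat_lit 631250, nat_lit 1751250, nat_lit 0, nat_lit 1100001, [nat_lit 780000, nat_lit 1435000, nat_lit 1271250], [nat_lit 8, nat_lit 40, nat_lit 40, nat_lit 80, nat_lit 1, nat_lit 317, nat_lit 100, nat_lit 9]⟩,
 ⟨nat_lit 3872, nat_lit 4473, ⟨.ofNat (nat_lit 416230), .ofNat (nat_lit 654181), .ofNat (nat_lit 459327), .ofNat (nat_lit 697279), .ofNat (nat_lit 425778), .ofNat (nat_lit 651631), .ofNat (nat_lit 469330), .ofNat (nat_lit 695183)⟩, ⟨.negSucc (nat_lit 12427), .ofNat (nat_lit 259489), .ofNat (nat_lit 0), .ofNat (nat_lit 302621), .ofNat (nat_lit 0), .ofNat (nat_lit 261131), .ofNat (nat_lit 0), .ofNat (nat_lit 304717)⟩⟩, [⟨nat_lit 0, nat_lit 92, nat_lit 81, nat_lit 100, nat_lit 131948967⟩]⟩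
noncomputable def p090_l15 : Lf2 := ⟨nat_lit 0, nat_lit 10, [nat_lit 0, nat_lit 5, nat_lit 5, nat_lit 20], false, nat_lit 0, nat_lit 160, nat_lit 0, nat_lit 160, ⟨nat_lit 559, nat_lit 441, nat_lit 0, nat_lit 7, nat_lit 233, nat_lit 441, nat_lit 57, nat_lit 0, nat_lit 0, nat_lit 0, nat_lit 0, nat_lit 0, nat_lit 50070286, nat_lit 16929714, nat_lit 0, nat_lit 2826313, false, false⟩,
 nat_lit 6022, nat_lit 0, nat_lit 0, nat_lit 0, nat_lit 4874, nat_lit 3832, nat_lit 408, nat_lit 0, nat_lit 0, nat_lit 375, nat_lit 0, nat_lit 0, nat_lit 0, nat_lit 0, nat_lit 0, nat_lit 319200, nat_lit 0, nat_lit 0, [(nat_lit 21, [(nat_lit 1, nat_lit 203), (nat_lit 2, nat_lit 238)])],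
 ⟨p090_k4, nat_lit 0, nat_lit 0, nat_lit 446, nat_lit 0, nat_lit 782830, [nat_lit 1744479200, nat_lit 2889263200, nat_lit 3527019600], [], [nat_lit 21280830586, nat_lit 23792882309, nat_lit 24763438356, nat_lit 26776893192, nat_lit 19374698825, nat_lit 20358869136, nat_lit 21469212212, nat_lit 22916249640], nat_lit 1271250, nat_lit 1271250, nat_lit 810650, nat_lit 1764750, nat_lit 0, nat_lit 1100001, [nat_lit 490000, nat_lit 1100000, nat_lit 1442500], [nat_lit 6, nat_lit 40, nat_lit 40, nat_lit 80, nat_lit 3, nat_lit 317, nat_lit 100, nat_lit 12]⟩, ⟨p090_k1, nat_lit 0, nat_lit 0, nat_lit 708, nat_lit 0, nat_lit 1044875, [nat_lit 1834638000, nat_lit 3493750000, nat_lit 5501678000], [], [nat_lit 21942524785, nat_lit 21523936000, nat_lit 21124566311, nat_lit 21690605223, nat_lit 19131238895, nat_lit 19641223393, nat_lit 19204992547, nat_lit 19601427003], nat_lit 1271250, nat_lit 1271250, nat_lit 810650, nat_lit 1764750,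 nat_lit 0, nat_lit 1100001, [nat_lit 780000, nat_lit 1435000, nat_lit 1271250], [nat_lit 8, nat_lit 40, nat_lit 40, nat_lit 80, nat_lit 1, nat_lit 317, nat_lit 100, nat_lit 9]⟩,
 ⟨nat_lit 3162, nat_lit 3873, ⟨.ofNat (nat_lit 464406), .ofNat (nat_lit 651611), .ofNat (nat_lit 507934), .ofNat (nat_lit 695141), .ofNat (nat_lit 472632), .ofNat (nat_lit 649490), .ofNat (nat_lit 516884), .ofNat (nat_lit 693742)⟩, ⟨.ofNat (nat_lit 0), .ofNat (nat_lit 261131), .ofNat (nat_lit 0), .ofNat (nat_lit 304717), .ofNat (nat_lit 0), .ofNat (nat_lit 261806), .ofNat (nat_lit 0), .ofNat (nat_lit 306116)⟩⟩, [⟨nat_lit 0, nat_lit 80, nat_lit 60, nat_lit 100, nat_lit 356964851⟩]⟩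
noncomputable def p090_l16 : Lf2 := ⟨nat_lit 0, nat_lit 10, [nat_lit 0, nat_lit 5, nat_lit 5, nat_lit 20], false, nat_lit 0, nat_lit 160, nat_lit 160, nat_lit 300, ⟨nat_lit 563, nat_lit 0, nat_lit 437, nat_lit 7, nat_lit 223, nat_lit 437, nat_lit 56, nat_lit 437, nat_lit 29400, nat_lit 257, nat_lit 123308, nat_lit 200, nat_lit 51064996, nat_lit 0, nat_lit 0, nat_lit 2742861, false, false⟩,
 nat_lit 6782, nat_lit 0, nat_lit 0, nat_lit 0, nat_lit 5086, nat_lit 4315, nat_lit 83, nat_lit 0, nat_lit 0, nat_lit 508, nat_lit 0, nat_lit 0, nat_lit 0, nat_lit 0, nat_lit 0, nat_lit 437000, nat_lit 0, nat_lit 0, [(nat_lit 18, [(nat_lit 6, nat_lit 437)])],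
 ⟨p090_k0, nat_lit 0, nat_lit 0, nat_lit 441, nat_lit 0, nat_lit 765677, [nat_lit 1607119467, nat_lit 2097580534, nat_lit 1814100400], [], [nat_lit 21384111435, nat_lit 21874762822, nat_lit 23062997280, nat_lit 25128797884, nat_lit 18682365932, nat_lit 19581269130, nat_lit 23019093092, nat_lit 21282412920], nat_lit 1271250, nat_lit 1271250, nat_lit 631250, nat_lit 1751250, nat_lit 0, nat_lit 1100001, [nat_lit 490000, nat_lit 1100000, nat_lit 1442500], [nat_lit 6, nat_lit 40, nat_lit 40, nat_lit 80, nat_lit 3, nat_lit 317, nat_lit 100, nat_lit 12]⟩, ⟨p090_k1, nat_lit 0, nat_lit 0, nat_lit 556, nat_lit 0, nat_lit 933573, [nat_lit 1847766000, nat_lit 3518750000, nat_lit 5541046000], [], [nat_lit 14915024976, nat_lit 15943884800, nat_lit 15441917336, nat_lit 16224294680, nat_lit 16721951346, nat_lit 17453857449, nat_lit 18588512651, nat_lit 17197614156], nat_lit 1271250, nat_lit 1271250, nat_lit 631250, nat_lit 1751250,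 nat_lit 1100001, nat_lit 2298750, [nat_lit 780000, nat_lit 1435000, nat_lit 1271250], [nat_lit 8, nat_lit 40, nat_lit 40, nat_lit 80, nat_lit 1, nat_lit 373, nat_lit 150, nat_lit 10]⟩,
 ⟨nat_lit 3872, nat_lit 4473, ⟨.ofNat (nat_lit 416230), .ofNat (nat_lit 654181), .ofNat (nat_lit 459327), .ofNat (nat_lit 697279), .ofNat (nat_lit 425778), .ofNat (nat_lit 651631), .ofNat (nat_lit 469330), .ofNat (nat_lit 695183)⟩, ⟨.negSucc (nat_lit 12427), .ofNat (nat_lit 259489), .ofNat (nat_lit 0), .ofNat (nat_lit 302621), .ofNat (nat_lit 0), .ofNat (nat_lit 261131), .ofNat (nat_lit 0), .ofNat (nat_lit 304717)⟩⟩, [⟨nat_lit 0, nat_lit 92, nat_lit 81, nat_lit 100, nat_lit 169236773⟩, ⟨nat_lit 7, nat_lit 100, nat_lit 90, nat_lit 74, nat_lit 266841549⟩]⟩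
noncomputable def p090_l17 : Lf2 := ⟨nat_lit 0, nat_lit 10, [nat_lit 0, nat_lit 5, nat_lit 5, nat_lit 20], false, nat_lit 0, nat_lit 160, nat_lit 160, nat_lit 300, ⟨nat_lit 468, nat_lit 532, nat_lit 0, nat_lit 7, nat_lit 233, nat_lit 532, nat_lit 57, nat_lit 0, nat_lit 0, nat_lit 0, nat_lit 0, nat_lit 0, nat_lit 50070286, nat_lit 16929714, nat_lit 0, nat_lit 2826313, false, false⟩,
 nat_lit 6366, nat_lit 0, nat_lit 0, nat_lit 0, nat_lit 4630, nat_lit 4051, nat_lit 313, nat_lit 0, nat_lit 0, nat_lit 355, nat_lit 0, nat_lit 0, nat_lit 0, nat_lit 0, nat_lit 0, nat_lit 532000, nat_lit 0, nat_lit 0, [(nat_lit 21, [(nat_lit 2, nat_lit 532)])],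
 ⟨p090_k4, nat_lit 0, nat_lit 0, nat_lit 446, nat_lit 0, nat_lit 782830, [nat_lit 1696414401, nat_lit 2117163201, nat_lit 2322350400], [], [nat_lit 20866008871, nat_lit 23298247657, nat_lit 24342930220, nat_lit 26296138040, nat_lit 19101354711, nat_lit 20123071581, nat_lit 21120099157, nat_lit 22775739800], nat_lit 1271250, nat_lit 1271250, nat_lit 810650, nat_lit 1764750, nat_lit 0, nat_lit 1100001, [nat_lit 490000, nat_lit 1100000, nat_lit 1442500], [nat_lit 6, nat_lit 40, nat_lit 40, nat_lit 80, nat_lit 3, nat_lit 317, nat_lit 100, nat_lit 12]⟩, ⟨p090_k1, nat_lit 0, nat_lit 0, nat_lit 592, nat_lit 0, nat_lit 1044875, [nat_lit 1535976000, nat_lit 2925000000, nat_lit 4606056000], [], [nat_lit 10962674471, nat_lit 11672409882, nat_lit 11135267551, nat_lit 11705863608, nat_lit 11998140871, nat_lit 12607476240, nat_lit 11994262456, nat_lit 12646396226], nat_lit 1271250, nat_lit 1271250, nat_lit 810650, nat_lit 1764750,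 nat_lit 1271250, nat_lit 1271250, [nat_lit 780000, nat_lit 1435000, nat_lit 1271250], [nat_lit 8, nat_lit 40, nat_lit 40, nat_lit 80, nat_lit 1, nat_lit 373, nat_lit 150, nat_lit 10]⟩,
 ⟨nat_lit 3162, nat_lit 3873, ⟨.ofNat (nat_lit 464406), .ofNat (nat_lit 651611), .ofNat (nat_lit 507934), .ofNat (nat_lit 695141), .ofNat (nat_lit 472632), .ofNat (nat_lit 649490), .ofNat (nat_lit 516884), .ofNat (nat_lit 693742)⟩, ⟨.ofNat (nat_lit 0), .ofNat (nat_lit 261131), .ofNat (nat_lit 0), .ofNat (nat_lit 304717), .ofNat (nat_lit 0), .ofNat (nat_lit 261806), .ofNat (nat_lit 0), .ofNat (nat_lit 306116)⟩⟩, [⟨nat_lit 0, nat_lit 80, nat_lit 60, nat_lit 100, nat_lit 277528782⟩, ⟨nat_lit 7, nat_lit 100, nat_lit 90, nat_lit 74, nat_lit 204612782⟩]⟩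
noncomputable def p090_l18 : Lf2 := ⟨nat_lit 0, nat_lit 10, [nat_lit 0, nat_lit 5, nat_lit 5, nat_lit 20], false, nat_lit 160, nat_lit 260, nat_lit 0, nat_lit 160, ⟨nat_lit 505, nat_lit 0, nat_lit 495, nat_lit 7, nat_lit 224, nat_lit 495, nat_lit 145, nat_lit 495, nat_lit 89743, nat_lit 288, nat_lit 122572, nat_lit 200, nat_lit 44270590, nat_lit 0, nat_lit 0, nat_lit 4593231, false, false⟩,
 nat_lit 6229, nat_lit 0, nat_lit 0, nat_lit 0, nat_lit 4671, nat_lit 3963, nat_lit 52, nat_lit 0, nat_lit 0, nat_lit 383, nat_lit 0, nat_lit 0, nat_lit 0, nat_lit 0, nat_lit 0, nat_lit 495000, nat_lit 0, nat_lit 0, [(nat_lit 18, [(nat_lit 6, nat_lit 495)]), (nat_lit 21, [(nat_lit 6, nat_lit 495)])],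
 ⟨p090_k0, nat_lit 0, nat_lit 0, nat_lit 402, nat_lit 0, nat_lit 856961, [nat_lit 1550728000, nat_lit 1753772001, nat_lit 1225354000], [], [nat_lit 18570367228, nat_lit 20546205036, nat_lit 20563740192, nat_lit 22799350060, nat_lit 20879003888, nat_lit 23686316070, nat_lit 23563553598, nat_lit 25750605360], nat_lit 1271250, nat_lit 1271250, nat_lit 631250, nat_lit 1751250, nat_lit 1100001, nat_lit 1956250, [nat_lit 490000, nat_lit 1100000, nat_lit 1442500], [nat_lit 6, nat_lit 40, nat_lit 40, nat_lit 80, nat_lit 3, nat_lit 345, nat_lit 125, nat_lit 12]⟩, ⟨p090_k1, nat_lit 0, nat_lit 0, nat_lit 719, nat_lit 0, nat_lit 1044875, [nat_lit 1657410000, nat_lit 3156250000, nat_lit 4970210000], [], [nat_lit 19015825286, nat_lit 17501534635, nat_lit 16795308571, nat_lit 17408469296, nat_lit 14730837677, nat_lit 15299228417, nat_lit 18575617972, nat_lit 15226554124], nat_lit 1271250, nat_lit 1271250, nat_lit 631250, nat_lit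 1751250, nat_lit 0, nat_lit 1100001, [nat_lit 780000, nat_lit 1435000, nat_lit 1271250], [nat_lit 8, nat_lit 40, nat_lit 40, nat_lit 80, nat_lit 1, nat_lit 317, nat_lit 100, nat_lit 9]⟩,
 ⟨nat_lit 3162, nat_lit 4473, ⟨.ofNat (nat_lit 415764), .ofNat (nat_lit 653959), .ofNat (nat_lit 458716), .ofNat (nat_lit 696911), .ofNat (nat_lit 435680), .ofNat (nat_lit 649288), .ofNat (nat_lit 479808), .ofNat (nat_lit 693416)⟩, ⟨.ofNat (nat_lit 259488), .ofNat (nat_lit 429433), .ofNat (nat_lit 302621), .ofNat (nat_lit 472567), .ofNat (nat_lit 261805), .ofNat (nat_lit 414188), .ofNat (nat_lit 306116), .ofNat (nat_lit 458499)⟩⟩, [⟨nat_lit 0, nat_lit 90, nat_lit 74, nat_lit 100, nat_lit 177679371⟩, ⟨nat_lit 4, nat_lit 100, nat_lit 71, nat_lit 71, nat_lit 430418218⟩]⟩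
noncomputable def p090_l19 : Lf2 := ⟨nat_lit 0, nat_lit 10, [nat_lit 0, nat_lit 5, nat_lit 5, nat_lit 20], false, nat_lit 160, nat_lit 260, nat_lit 160, nat_lit 300, ⟨nat_lit 364, nat_lit 0, nat_lit 636, nat_lit 7, nat_lit 220, nat_lit 636, nat_lit 145, nat_lit 636, nat_lit 89743, nat_lit 288, nat_lit 79620, nat_lit 200, nat_lit 44641643, nat_lit 0, nat_lit 0, nat_lit 4562736, false, false⟩,
 nat_lit 5366, nat_lit 0, nat_lit 0, nat_lit 0, nat_lit 4024, nat_lit 3414, nat_lit 0, nat_lit 0, nat_lit 0, nat_lit 358, nat_lit 0, nat_lit 0, nat_lit 0, nat_lit 0, nat_lit 0, nat_lit 560400, nat_lit 0, nat_lit 0, [(nat_lit 18, [(nat_lit 5, nat_lit 126), (nat_lit 6, nat_lit 510)]), (nat_lit 21, [(nat_lit 5, nat_lit 126), (nat_lit 6, nat_lit 510)])],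
 ⟨p090_k0, nat_lit 0, nat_lit 0, nat_lit 364, nat_lit 0, nat_lit 793297, [nat_lit 1403289600, nat_lit 1022004001, nat_lit 95936800], [], [nat_lit 18053613460, nat_lit 19942845170, nat_lit 20397805282, nat_lit 22426768640, nat_lit 20519807894, nat_lit 23090966080, nat_lit 23929390569, nat_lit 25334480840], nat_lit 1271250, nat_lit 1271250, nat_lit 631250, nat_lit 1751250, nat_lit 1100001, nat_lit 1956250, [nat_lit 490000, nat_lit 1100000, nat_lit 1442500], [nat_lit 6, nat_lit 40, nat_lit 40, nat_lit 80, nat_lit 3, nat_lit 345, nat_lit 125, nat_lit 12]⟩, ⟨p090_k1, nat_lit 0, nat_lit 0, nat_lit 572, nat_lit 0, nat_lit 967250, [nat_lit 1194648000, nat_lit 2275000000, nat_lit 3582488000], [], [nat_lit 9483530972, nat_lit 7719927834, nat_lit 7547761952, nat_lit 7821175752, nat_lit 8539497080, nat_lit 8793361645, nat_lit 11632106030, nat_lit 10075897289], nat_lit 1271250, nat_lit 1271250, nat_lit 631250, nat_lit 1751250,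 nat_lit 1100001, nat_lit 2298750, [nat_lit 780000, nat_lit 1435000, nat_lit 1271250], [nat_lit 8, nat_lit 40, nat_lit 40, nat_lit 80, nat_lit 1, nat_lit 373, nat_lit 150, nat_lit 10]⟩,
 ⟨nat_lit 3162, nat_lit 4473, ⟨.ofNat (nat_lit 415764), .ofNat (nat_lit 653959), .ofNat (nat_lit 437240), .ofNat (nat_lit 675435), .ofNat (nat_lit 435680), .ofNat (nat_lit 649288), .ofNat (nat_lit 457744), .ofNat (nat_lit 671352)⟩, ⟨.ofNat (nat_lit 259488), .ofNat (nat_lit 429433), .ofNat (nat_lit 302621), .ofNat (nat_lit 472567), .ofNat (nat_lit 261805), .ofNat (nat_lit 414188), .ofNat (nat_lit 306116), .ofNat (nat_lit 458499)⟩⟩, [⟨nat_lit 0, nat_lit 94, nat_lit 75, nat_lit 100, nat_lit 47556373⟩, ⟨nat_lit 16, nat_lit 71, nat_lit 100, nat_lit 71, nat_lit 16111487⟩, ⟨nat_lit 16, nat_lit 83, nat_lit 100, nat_lit 83, nat_lit 290759503⟩, ⟨nat_lit 19, nat_lit 100, nat_lit 95, nat_lit 87, nat_lit 88285143⟩]⟩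
noncomputable def p090_l20 : Lf2 := ⟨nat_lit 0, nat_lit 10, [nat_lit 0, nat_lit 5, nat_lit 5, nat_lit 20], false, nat_lit 160, nat_lit 260, nat_lit 160, nat_lit 280, ⟨nat_lit 1000, nat_lit 0, nat_lit 0, nat_lit 0, nat_lit 0, nat_lit 0, nat_lit 0, nat_lit 0, nat_lit 0, nat_lit 0, nat_lit 0, nat_lit 0, nat_lit 0, nat_lit 0, nat_lit 0, nat_lit 0, false, false⟩,
 nat_lit 10355, nat_lit 0, nat_lit 0, nat_lit 0, nat_lit 7766, nat_lit 7168, nat_lit 537, nat_lit 0, nat_lit 0, nat_lit 1276, nat_lit 0, nat_lit 0, nat_lit 0, nat_lit 0, nat_lit 0, nat_lit 0, nat_lit 0, nat_lit 0, [],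
 ⟨p090_k0, nat_lit 0, nat_lit 0, nat_lit 380, nat_lit 0, nat_lit 856961, [nat_lit 2032000001, nat_lit 4688000000, nat_lit 6250000000], [], [nat_lit 19363417232, nat_lit 21970979496, nat_lit 21019536424, nat_lit 24581636760, nat_lit 21767752584, nat_lit 25994734078, nat_lit 24054427034, nat_lit 27741185560], nat_lit 1271250, nat_lit 1271250, nat_lit 780000, nat_lit 1762500, nat_lit 1100001, nat_lit 1956250, [nat_lit 490000, nat_lit 1100000, nat_lit 1442500], [nat_lit 6, nat_lit 40, nat_lit 40, nat_lit 80, nat_lit 3, nat_lit 345, nat_lit 125, nat_lit 12]⟩, ⟨p090_k3, nat_lit 0, nat_lit 0, nat_lit 483, nat_lit 0, nat_lit 943265, [nat_lit 3282000000, nat_lit 6250000000, nat_lit 7968000000], [], [nat_lit 18763436000, nat_lit 19297588156, nat_lit 19764050156, nat_lit 20659489180, nat_lit 21239089660, nat_lit 22651670608, nat_lit 25980336032, nat_lit 25056747616], nat_lit 1271250, nat_lit 1271250, nat_lit 780000, nat_lit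 1762500, nat_lit 1100001, nat_lit 2127500, [nat_lit 780000, nat_lit 1435000, nat_lit 1271250], [nat_lit 18, nat_lit 40, nat_lit 40, nat_lit 80, nat_lit 2, nat_lit 373, nat_lit 150, nat_lit 12]⟩,
 zbF0, [⟨nat_lit 0, nat_lit 85, nat_lit 73, nat_lit 100, nat_lit 332946768⟩, ⟨nat_lit 16, nat_lit 71, nat_lit 100, nat_lit 71, nat_lit 729724847⟩, ⟨nat_lit 19, nat_lit 94, nat_lit 100, nat_lit 87, nat_lit 388582732⟩]⟩
noncomputable def p090_l21 : Lf2 := ⟨nat_lit 0, nat_lit 10, [nat_lit 0, nat_lit 5, nat_lit 5, nat_lit 20], false, nat_lit 0, nat_lit 260, nat_lit 0, nat_lit 160, ⟨nat_lit 1000, nat_lit 0, nat_lit 0, nat_lit 0, nat_lit 0, nat_lit 0, nat_lit 0, nat_lit 0, nat_lit 0, nat_lit 0, nat_lit 0, nat_lit 0, nat_lit 0, nat_lit 0, nat_lit 0, nat_lit 0, false, false⟩,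
 nat_lit 11319, nat_lit 0, nat_lit 0, nat_lit 0, nat_lit 7334, nat_lit 7202, nat_lit 404, nat_lit 0, nat_lit 0, nat_lit 692, nat_lit 0, nat_lit 0, nat_lit 0, nat_lit 0, nat_lit 0, nat_lit 0, nat_lit 0, nat_lit 0, [],
 ⟨p090_k0, nat_lit 0, nat_lit 0, nat_lit 434, nat_lit 0, nat_lit 765677, [nat_lit 2032000001, nat_lit 4688000000, nat_lit 6250000000], [], [nat_lit 27927424280, nat_lit 29002987596, nat_lit 41792670504, nat_lit 43307054016, nat_lit 25338796822, nat_lit 26000915262, nat_lit 34496824220, nat_lit 35570204101], nat_lit 1271250, nat_lit 1271250, nat_lit 1271250, nat_lit 1271250, nat_lit 0, nat_lit 1836250, [nat_lit 490000, nat_lit 1100000, nat_lit 1442500], [nat_lit 6, nat_lit 40, nat_lit 40, nat_lit 80, nat_lit 3, nat_lit 289, nat_lit 75, nat_lit 10]⟩, ⟨p090_k1, nat_lit 0, nat_lit 0, nat_lit 607, nat_lit 0, nat_lit 933573, [nat_lit 3282000000, nat_lit 6250000000, nat_lit 9842000000], [], [nat_lit 36266272924,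 nat_lit 37288565652, nat_lit 40596799920, nat_lit 41423366712, nat_lit 32401064916, nat_lit 33225162896, nat_lit 36167850872, nat_lit 36742046520], nat_lit 1271250, nat_lit 1271250, nat_lit 1271250, nat_lit 1271250, nat_lit 0, nat_lit 1100001, [nat_lit 780000, nat_lit 1435000, nat_lit 1271250], [nat_lit 8, nat_lit 40, nat_lit 40, nat_lit 80, nat_lit 1, nat_lit 373, nat_lit 150, nat_lit 10]⟩,
 zbF0, [⟨nat_lit 4, nat_lit 100, nat_lit 76, nat_lit 72, nat_lit 40330104⟩]⟩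
noncomputable def p090_l22 : Lf2 := ⟨nat_lit 0, nat_lit 10, [nat_lit 0, nat_lit 5, nat_lit 5, nat_lit 20], false, nat_lit 0, nat_lit 260, nat_lit 160, nat_lit 300, ⟨nat_lit 1000, nat_lit 0, nat_lit 0, nat_lit 0, nat_lit 0, nat_lit 0, nat_lit 0, nat_lit 0, nat_lit 0, nat_lit 0, nat_lit 0, nat_lit 0, nat_lit 0, nat_lit 0, nat_lit 0, nat_lit 0, false, false⟩,
 nat_lit 11770, nat_lit 0, nat_lit 0, nat_lit 0, nat_lit 7174, nat_lit 7490, nat_lit 1376, nat_lit 0, nat_lit 0, nat_lit 758, nat_lit 0, nat_lit 0, nat_lit 0, nat_lit 0, nat_lit 0, nat_lit 0, nat_lit 0, nat_lit 0, [],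
 ⟨p090_k0, nat_lit 0, nat_lit 0, nat_lit 419, nat_lit 0, nat_lit 722085, [nat_lit 2032000001, nat_lit 4688000000, nat_lit 6250000000], [], [nat_lit 27831653736, nat_lit 28352813540, nat_lit 41345029544, nat_lit 42092759860, nat_lit 26002007192, nat_lit 26355417637, nat_lit 34315891420, nat_lit 34846895641], nat_lit 1271250, nat_lit 1271250, nat_lit 1271250, nat_lit 1271250, nat_lit 0, nat_lit 1836250, [nat_lit 490000, nat_lit 1100000, nat_lit 1442500], [nat_lit 6, nat_lit 40, nat_lit 40, nat_lit 80, nat_lit 3, nat_lit 289, nat_lit 75, nat_lit 10]⟩, ⟨p090_k1, nat_lit 0, nat_lit 0, nat_lit 471, nat_lit 0, nat_lit 880424, [nat_lit 3282000000, nat_lit 6250000000, nat_lit 9842000000], [], [nat_lit 28363615790, nat_lit 29487168990, nat_lit 33424327160, nat_lit 34220295200, nat_lit 30270567200, nat_lit 31236625650, nat_lit 34366724110, nat_lit 35969683820], nat_lit 1271250, nat_lit 1271250, nat_lit 1271250, nat_lit 1271250,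 nat_lit 1100001, nat_lit 2298750, [nat_lit 780000, nat_lit 1435000, nat_lit 1271250], [nat_lit 8, nat_lit 40, nat_lit 40, nat_lit 80, nat_lit 1, nat_lit 401, nat_lit 175, nat_lit 11]⟩,
 zbF0, [⟨nat_lit 4, nat_lit 100, nat_lit 79, nat_lit 72, nat_lit 55430347⟩, ⟨nat_lit 7, nat_lit 100, nat_lit 90, nat_lit 74, nat_lit 423624734⟩]⟩
noncomputable def p090_l23 : Lf2 := ⟨nat_lit 0, nat_lit 10, [nat_lit 0, nat_lit 5, nat_lit 5, nat_lit 20], false, nat_lit 0, nat_lit 244, nat_lit 160, nat_lit 300, ⟨nat_lit 1000, nat_lit 0, nat_lit 0, nat_lit 0, nat_lit 0, nat_lit 0, nat_lit 0, nat_lit 0, nat_lit 0, nat_lit 0, nat_lit 0, nat_lit 0, nat_lit 0, nat_lit 0, nat_lit 0, nat_lit 0, false, false⟩,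
 nat_lit 11601, nat_lit 0, nat_lit 0, nat_lit 0, nat_lit 5482, nat_lit 7382, nat_lit 1558, nat_lit 0, nat_lit 0, nat_lit 676, nat_lit 0, nat_lit 0, nat_lit 0, nat_lit 0, nat_lit 0, nat_lit 0, nat_lit 0, nat_lit 0, [],
 ⟨p090_k2, nat_lit 0, nat_lit 0, nat_lit 423, nat_lit 0, nat_lit 731344, [nat_lit 2032000001, nat_lit 4688000000, nat_lit 6250000000], [], [nat_lit 24729472634, nat_lit 25811261908, nat_lit 37258901980, nat_lit 37906577568, nat_lit 23645144696, nat_lit 23989593786, nat_lit 32404018981, nat_lit 32892454508], nat_lit 1271250, nat_lit 1271250, nat_lit 1271250, nat_lit 1271250, nat_lit 0, nat_lit 1723250, [nat_lit 490000, nat_lit 1100000, nat_lit 1442500], [nat_lit 6, nat_lit 40, nat_lit 40, nat_lit 80, nat_lit 3, nat_lit 289, nat_lit 75, nat_lit 10]⟩, ⟨p090_k1, nat_lit 0, nat_lit 0, nat_lit 489, nat_lit 0, nat_lit 933573, [nat_lit 3282000000, nat_lit 6250000000, nat_lit 9842000000], [], [nat_lit 29311163572,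 nat_lit 30430625732, nat_lit 33819230888, nat_lit 34615048160, nat_lit 30838976326, nat_lit 31664318070, nat_lit 34468050106, nat_lit 35843300276], nat_lit 1271250, nat_lit 1271250, nat_lit 1271250, nat_lit 1271250, nat_lit 1100001, nat_lit 2298750, [nat_lit 780000, nat_lit 1435000, nat_lit 1271250], [nat_lit 8, nat_lit 40, nat_lit 40, nat_lit 80, nat_lit 1, nat_lit 401, nat_lit 175, nat_lit 11]⟩,
 zbF0, [⟨nat_lit 16, nat_lit 74, nat_lit 100, nat_lit 72, nat_lit 120495451⟩, ⟨nat_lit 19, nat_lit 90, nat_lit 100, nat_lit 74, nat_lit 395816724⟩]⟩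
noncomputable def p090_l24 : Lf2 := ⟨nat_lit 0, nat_lit 10, [nat_lit 0, nat_lit 5, nat_lit 5, nat_lit 20], false, nat_lit 0, nat_lit 232, nat_lit 0, nat_lit 160, ⟨nat_lit 1000, nat_lit 0, nat_lit 0, nat_lit 0, nat_lit 0, nat_lit 0, nat_lit 0, nat_lit 0, nat_lit 0, nat_lit 0, nat_lit 0, nat_lit 0, nat_lit 0, nat_lit 0, nat_lit 0, nat_lit 0, false, false⟩,
 nat_lit 11319, nat_lit 0, nat_lit 0, nat_lit 0, nat_lit 5000, nat_lit 7202, nat_lit 1131, nat_lit 0, nat_lit 0, nat_lit 692, nat_lit 0, nat_lit 0, nat_lit 0, nat_lit 0, nat_lit 0, nat_lit 0, nat_lit 0, nat_lit 0, [],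
 ⟨p090_k4, nat_lit 0, nat_lit 0, nat_lit 441, nat_lit 0, nat_lit 782830, [nat_lit 2032000001, nat_lit 4688000000, nat_lit 6250000000], [], [nat_lit 24980586000, nat_lit 27025152000, nat_lit 36501054000, nat_lit 37739400000, nat_lit 24063735882, nat_lit 24872490008, nat_lit 32112793200, nat_lit 33075443200], nat_lit 1271250, nat_lit 1271250, nat_lit 1271250, nat_lit 1271250, nat_lit 0, nat_lit 1638500, [nat_lit 490000, nat_lit 1100000, nat_lit 1442500], [nat_lit 6, nat_lit 40, nat_lit 40, nat_lit 80, nat_lit 3, nat_lit 272, nat_lit 60, nat_lit 9]⟩, ⟨p090_k1, nat_lit 0, nat_lit 0, nat_lit 648, nat_lit 0, nat_lit 1044875, [nat_lit 3282000000, nat_lit 6250000000, nat_lit 9842000000], [], [nat_lit 36266272924, nat_lit 37288565652, nat_lit 40596799920, nat_lit 41423366712, nat_lit 32401064916, nat_lit 33225162896, nat_lit 36167850872, nat_lit 36742046520], nat_lit 1271250, nat_lit 1271250, nat_lit 1271250, nat_lit 1271250,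 nat_lit 0, nat_lit 1100001, [nat_lit 780000, nat_lit 1435000, nat_lit 1271250], [nat_lit 8, nat_lit 40, nat_lit 40, nat_lit 80, nat_lit 1, nat_lit 373, nat_lit 150, nat_lit 10]⟩,
 zbF0, [⟨nat_lit 4, nat_lit 100, nat_lit 66, nat_lit 72, nat_lit 183616542⟩]⟩
noncomputable def p090_l25 : Lf2 := ⟨nat_lit 0, nat_lit 10, [nat_lit 0, nat_lit 5, nat_lit 5, nat_lit 20], false, nat_lit 0, nat_lit 232, nat_lit 160, nat_lit 300, ⟨nat_lit 1000, nat_lit 0, nat_lit 0, nat_lit 0, nat_lit 0, nat_lit 0, nat_lit 0, nat_lit 0, nat_lit 0, nat_lit 0, nat_lit 0, nat_lit 0, nat_lit 0, nat_lit 0, nat_lit 0, nat_lit 0, false, false⟩,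
 nat_lit 11114, nat_lit 0, nat_lit 0, nat_lit 0, nat_lit 5000, nat_lit 7072, nat_lit 1131, nat_lit 0, nat_lit 0, nat_lit 755, nat_lit 0, nat_lit 0, nat_lit 0, nat_lit 0, nat_lit 0, nat_lit 0, nat_lit 0, nat_lit 0, [],
 ⟨p090_k4, nat_lit 0, nat_lit 0, nat_lit 441, nat_lit 0, nat_lit 782830, [nat_lit 2032000001, nat_lit 4688000000, nat_lit 6250000000], [], [nat_lit 24980586000, nat_lit 27025152000, nat_lit 36501054000, nat_lit 37739400000, nat_lit 24063735882, nat_lit 24872490008, nat_lit 32112793200, nat_lit 33075443200], nat_lit 1271250, nat_lit 1271250, nat_lit 1271250, nat_lit 1271250, nat_lit 0, nat_lit 1638500, [nat_lit 490000, nat_lit 1100000, nat_lit 1442500], [nat_lit 6, nat_lit 40, nat_lit 40, nat_lit 80, nat_lit 3, nat_lit 272, nat_lit 60, nat_lit 9]⟩, ⟨p090_k1, nat_lit 0, nat_lit 0, nat_lit 556, nat_lit 0, nat_lit 1044875, [nat_lit 3282000000, nat_lit 6250000000, nat_lit 9842000000], [], [nat_lit 30102959584,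 nat_lit 31129873120, nat_lit 34952750848, nat_lit 35748135360, nat_lit 31934633560, nat_lit 32891953720, nat_lit 35677582376, nat_lit 36201049136], nat_lit 1271250, nat_lit 1271250, nat_lit 1271250, nat_lit 1271250, nat_lit 1100001, nat_lit 2298750, [nat_lit 780000, nat_lit 1435000, nat_lit 1271250], [nat_lit 8, nat_lit 40, nat_lit 40, nat_lit 80, nat_lit 1, nat_lit 401, nat_lit 175, nat_lit 11]⟩,
 zbF0, [⟨nat_lit 4, nat_lit 100, nat_lit 66, nat_lit 72, nat_lit 133627211⟩, ⟨nat_lit 7, nat_lit 100, nat_lit 90, nat_lit 74, nat_lit 424298038⟩]⟩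
noncomputable def b_V_800_700_10_9 : St := ⟨true, nat_lit 1, nat_lit 1, nat_lit 1, nat_lit 80, nat_lit 320, nat_lit 360, nat_lit 280, nat_lit 320, nat_lit 100, nat_lit 400, nat_lit 40, nat_lit 80, nat_lit 0, nat_lit 260, nat_lit 0, nat_lit 300, nat_lit 0, nat_lit 40, nat_lit 0, nat_lit 0, nat_lit 0, nat_lit 0⟩
theorem d_V_800_700_10_9 (h : EB TB.env) : Dead b_V_800_700_10_9 := chkB_sound0 h (T :=
(.spl (nat_lit 2) (nat_lit 240)
(.spl (nat_lit 4) (nat_lit 160)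
(.spl (nat_lit 5) (nat_lit 160)
(.spl (nat_lit 0) (nat_lit 340)
(.leaf p090_l14)
(.trZ (nat_lit 0) (nat_lit 99) (nat_lit 77) (nat_lit 100) (nat_lit 124) (.leaf p090_l15)))
(.spl (nat_lit 0) (nat_lit 340)
(.leaf p090_l16)
(.trZ (nat_lit 0) (nat_lit 99) (nat_lit 77) (nat_lit 100) (nat_lit 124) (.leaf p090_l17))))
(.spl (nat_lit 5) (nat_lit 160)
(.leaf p090_l18)
(.spl (nat_lit 1) (nat_lit 300)
(.leaf p090_l19)
(.trZ (nat_lit 0) (nat_lit 94) (nat_lit 87) (nat_lit 100) (nat_lit 120) (.trX (nat_lit 19) (nat_lit 94) (nat_lit 100) (nat_lit 87) (nat_lit 280) (.leaf p090_l20))))))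
(.spl (nat_lit 0) (nat_lit 340)
(.spl (nat_lit 5) (nat_lit 160)
(.leaf p090_l21)
(.spl (nat_lit 0) (nat_lit 330)
(.leaf p090_l22)
(.trX (nat_lit 16) (nat_lit 78) (nat_lit 100) (nat_lit 82) (nat_lit 244) (.leaf p090_l23))))
(.trX (nat_lit 16) (nat_lit 72) (nat_lit 100) (nat_lit 81) (nat_lit 232) (.spl (nat_lit 5) (nat_lit 160)
(.leaf p090_l24)
(.leaf p090_l25)))))) (by decide +kernel)
noncomputable def p090_l26 : Lf2 := ⟨nat_lit 0, nat_lit 10, [nat_lit 0, nat_lit 5, nat_lit 5, nat_lit 20], false, nat_lit 0, nat_lit 160, nat_lit 0, nat_lit 160, ⟨nat_lit 1000, nat_lit 0, nat_lit 0, nat_lit 0, nat_lit 0, nat_lit 0, nat_lit 0, nat_lit 0, nat_lit 0, nat_lit 0, nat_lit 0, nat_lit 0, nat_lit 0, nat_lit 0, nat_lit 0, nat_lit 0, false, false⟩,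
 nat_lit 0, nat_lit 10334, nat_lit 0, nat_lit 0, nat_lit 7750, nat_lit 8699, nat_lit 429, nat_lit 0, nat_lit 0, nat_lit 1595, nat_lit 0, nat_lit 0, nat_lit 0, nat_lit 0, nat_lit 0, nat_lit 0, nat_lit 0, nat_lit 0, [],
 ⟨p090_k0, nat_lit 0, nat_lit 0, nat_lit 622, nat_lit 0, nat_lit 1171209, [nat_lit 2032000001, nat_lit 4688000000, nat_lit 6250000000], [], [nat_lit 27738332000, nat_lit 28551080250, nat_lit 27971114000, nat_lit 29719919500, nat_lit 24355835500, nat_lit 25071749250, nat_lit 24439941000, nat_lit 25038133500], nat_lit 1271250, nat_lit 1271250, nat_lit 631250, nat_lit 1751250, nat_lit 0, nat_lit 1100001, [nat_lit 490000, nat_lit 1100000, nat_lit 1442500], [nat_lit 6, nat_lit 40, nat_lit 40, nat_lit 80, nat_lit 3, nat_lit 317, nat_lit 100, nat_lit 12]⟩, ⟨p090_k1, nat_lit 0, nat_lit 0, nat_lit 171, nat_lit 0, nat_lit 0, [nat_lit 3282000000, nat_lit 6250000000, nat_lit 9842000000], [], [nat_lit 18917825665,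 nat_lit 20024025510, nat_lit 23312950108, nat_lit 24353268205, nat_lit 13403469124, nat_lit 14546667659, nat_lit 17433922320, nat_lit 18296711351], nat_lit 0, nat_lit 0, nat_lit 0, nat_lit 0, nat_lit 0, nat_lit 0, [], [nat_lit 8, nat_lit 40, nat_lit 40, nat_lit 80, nat_lit 1, nat_lit 317, nat_lit 100, nat_lit 9]⟩,
 zbF0, [⟨nat_lit 0, nat_lit 94, nat_lit 75, nat_lit 100, nat_lit 493299731⟩]⟩
noncomputable def p090_l27 : Lf2 := ⟨nat_lit 0, nat_lit 10, [nat_lit 0, nat_lit 5, nat_lit 5, nat_lit 20], false, nat_lit 0, nat_lit 160, nat_lit 0, nat_lit 160, ⟨nat_lit 1000, nat_lit 0, nat_lit 0, nat_lit 0, nat_lit 0, nat_lit 0, nat_lit 0, nat_lit 0, nat_lit 0, nat_lit 0, nat_lit 0, nat_lit 0, nat_lit 0, nat_lit 0, nat_lit 0, nat_lit 0, false, false⟩,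
 nat_lit 0, nat_lit 10334, nat_lit 0, nat_lit 0, nat_lit 7750, nat_lit 7079, nat_lit 427, nat_lit 0, nat_lit 0, nat_lit 3213, nat_lit 0, nat_lit 0, nat_lit 0, nat_lit 0, nat_lit 0, nat_lit 0, nat_lit 0, nat_lit 0, [],
 ⟨p090_k0, nat_lit 0, nat_lit 0, nat_lit 649, nat_lit 0, nat_lit 1248111, [nat_lit 2032000001, nat_lit 4688000000, nat_lit 6250000000], [], [nat_lit 27650488400, nat_lit 28454154551, nat_lit 27971114000, nat_lit 29719919500, nat_lit 24259618900, nat_lit 24967190000, nat_lit 24439941000, nat_lit 25038133500], nat_lit 1271250, nat_lit 1271250, nat_lit 689850, nat_lit 1755750, nat_lit 0, nat_lit 1100001, [nat_lit 490000, nat_lit 1100000, nat_lit 1442500], [nat_lit 6, nat_lit 40, nat_lit 40, nat_lit 80, nat_lit 3, nat_lit 317, nat_lit 100, nat_lit 12]⟩, ⟨p090_k6, nat_lit 0, nat_lit 0, nat_lit 133, nat_lit 0, nat_lit 0, [nat_lit 3282000000, nat_lit 6250000000, nat_lit 7968000000], [], [nat_lit 17463347734,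 nat_lit 18990235072, nat_lit 22493202657, nat_lit 23664009078, nat_lit 13318021008, nat_lit 14303066340, nat_lit 17070825221, nat_lit 17894864132], nat_lit 0, nat_lit 0, nat_lit 0, nat_lit 0, nat_lit 0, nat_lit 0, [], [nat_lit 18, nat_lit 40, nat_lit 40, nat_lit 80, nat_lit 2, nat_lit 317, nat_lit 100, nat_lit 10]⟩,
 zbF0, [⟨nat_lit 0, nat_lit 90, nat_lit 74, nat_lit 100, nat_lit 469609488⟩]⟩
noncomputable def p090_l28 : Lf2 := ⟨nat_lit 0, nat_lit 10, [nat_lit 0, nat_lit 5, nat_lit 5, nat_lit 20], false, nat_lit 0, nat_lit 160, nat_lit 0, nat_lit 160, ⟨nat_lit 1000, nat_lit 0, nat_lit 0, nat_lit 0, nat_lit 0, nat_lit 0, nat_lit 0, nat_lit 0, nat_lit 0, nat_lit 0, nat_lit 0, nat_lit 0, nat_lit 0, nat_lit 0, nat_lit 0, nat_lit 0, false, false⟩,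
 nat_lit 0, nat_lit 11130, nat_lit 0, nat_lit 0, nat_lit 8347, nat_lit 5991, nat_lit 421, nat_lit 0, nat_lit 0, nat_lit 3628, nat_lit 0, nat_lit 0, nat_lit 0, nat_lit 0, nat_lit 0, nat_lit 0, nat_lit 0, nat_lit 0, [],
 ⟨p090_k0, nat_lit 0, nat_lit 0, nat_lit 677, nat_lit 0, nat_lit 1336626, [nat_lit 2032000001, nat_lit 4688000000, nat_lit 6250000000], [], [nat_lit 24506727260, nat_lit 25345144169, nat_lit 24282526288, nat_lit 25505710992, nat_lit 20691196024, nat_lit 21051626844, nat_lit 20457710920, nat_lit 20819394026], nat_lit 1271250, nat_lit 1271250, nat_lit 780000, nat_lit 1100001, nat_lit 0, nat_lit 1100001, [nat_lit 490000, nat_lit 1100000, nat_lit 1442500], [nat_lit 6, nat_lit 40, nat_lit 40, nat_lit 80, nat_lit 3, nat_lit 317, nat_lit 100, nat_lit 12]⟩, ⟨p090_k3, nat_lit 0, nat_lit 0, nat_lit 145, nat_lit 0, nat_lit 0, [nat_lit 3282000000, nat_lit 6250000000, nat_lit 7968000000], [], [nat_lit 17566859862,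 nat_lit 20251704060, nat_lit 18241705320, nat_lit 20758714648, nat_lit 13892519872, nat_lit 15711046348, nat_lit 14693526024, nat_lit 16365356608], nat_lit 0, nat_lit 0, nat_lit 0, nat_lit 0, nat_lit 0, nat_lit 0, [], [nat_lit 18, nat_lit 40, nat_lit 40, nat_lit 80, nat_lit 2, nat_lit 317, nat_lit 100, nat_lit 10]⟩,
 zbF0, [⟨nat_lit 0, nat_lit 82, nat_lit 78, nat_lit 100, nat_lit 709690145⟩]⟩
noncomputable def p090_l29 : Lf2 := ⟨nat_lit 0, nat_lit 10, [nat_lit 0, nat_lit 5, nat_lit 5, nat_lit 20], false, nat_lit 0, nat_lit 160, nat_lit 0, nat_lit 160, ⟨nat_lit 1000, nat_lit 0, nat_lit 0, nat_lit 0, nat_lit 0, nat_lit 0, nat_lit 0, nat_lit 0, nat_lit 0, nat_lit 0, nat_lit 0, nat_lit 0, nat_lit 0, nat_lit 0, nat_lit 0, nat_lit 0, false, false⟩,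
 nat_lit 0, nat_lit 11130, nat_lit 0, nat_lit 0, nat_lit 8347, nat_lit 5991, nat_lit 414, nat_lit 0, nat_lit 0, nat_lit 3662, nat_lit 0, nat_lit 0, nat_lit 0, nat_lit 0, nat_lit 0, nat_lit 0, nat_lit 0, nat_lit 0, [],
 ⟨p090_k0, nat_lit 0, nat_lit 0, nat_lit 665, nat_lit 0, nat_lit 1336626, [nat_lit 2032000001, nat_lit 4688000000, nat_lit 6250000000], [], [nat_lit 24338526288, nat_lit 25505710992, nat_lit 27877798560, nat_lit 29313292139, nat_lit 20459577516, nat_lit 20819394026, nat_lit 20913846468, nat_lit 21296010800], nat_lit 1271250, nat_lit 1271250, nat_lit 1100001, nat_lit 1785000, nat_lit 0, nat_lit 1100001, [nat_lit 490000, nat_lit 1100000, nat_lit 1442500], [nat_lit 6, nat_lit 40, nat_lit 40, nat_lit 80, nat_lit 3, nat_lit 317, nat_lit 100, nat_lit 12]⟩, ⟨p090_k3, nat_lit 0, nat_lit 0, nat_lit 142, nat_lit 0, nat_lit 0, [nat_lit 3282000000, nat_lit 6250000000, nat_lit 7968000000], [], [nat_lit 18241705320,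 nat_lit 20758714648, nat_lit 22295868662, nat_lit 24399211680, nat_lit 14693526024, nat_lit 16365356608, nat_lit 17900839428, nat_lit 19682678780], nat_lit 0, nat_lit 0, nat_lit 0, nat_lit 0, nat_lit 0, nat_lit 0, [], [nat_lit 18, nat_lit 40, nat_lit 40, nat_lit 80, nat_lit 2, nat_lit 317, nat_lit 100, nat_lit 10]⟩,
 zbF0, []⟩
noncomputable def p090_l30 : Lf2 := ⟨nat_lit 0, nat_lit 10, [nat_lit 0, nat_lit 5, nat_lit 5, nat_lit 20], false, nat_lit 0, nat_lit 160, nat_lit 0, nat_lit 160, ⟨nat_lit 1000, nat_lit 0, nat_lit 0, nat_lit 0, nat_lit 0, nat_lit 0, nat_lit 0, nat_lit 0, nat_lit 0, nat_lit 0, nat_lit 0, nat_lit 0, nat_lit 0, nat_lit 0, nat_lit 0, nat_lit 0, false, false⟩,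
 nat_lit 0, nat_lit 7580, nat_lit 0, nat_lit 0, nat_lit 5908, nat_lit 7099, nat_lit 1654, nat_lit 0, nat_lit 0, nat_lit 974, nat_lit 0, nat_lit 0, nat_lit 0, nat_lit 0, nat_lit 0, nat_lit 0, nat_lit 0, nat_lit 0, [],
 ⟨p090_k2, nat_lit 0, nat_lit 0, nat_lit 678, nat_lit 0, nat_lit 1344089, [nat_lit 2032000001, nat_lit 4688000000, nat_lit 6250000000], [], [nat_lit 21774649410, nat_lit 23106175533, nat_lit 25411045796, nat_lit 26545427752, nat_lit 20446888239, nat_lit 20813034387, nat_lit 21544937006, nat_lit 21861037874], nat_lit 1271250, nat_lit 1271250, nat_lit 872850, nat_lit 1769250, nat_lit 0, nat_lit 1100001, [nat_lit 490000, nat_lit 1100000, nat_lit 1442500], [nat_lit 6, nat_lit 40, nat_lit 40, nat_lit 80, nat_lit 3, nat_lit 317, nat_lit 100, nat_lit 12]⟩, ⟨p090_k3, nat_lit 0, nat_lit 0, nat_lit 142, nat_lit 0, nat_lit 0, [nat_lit 3282000000, nat_lit 6250000000, nat_lit 7968000000], [], [nat_lit 20641816505,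 nat_lit 22717200720, nat_lit 24042179208, nat_lit 26035151520, nat_lit 16299290880, nat_lit 18029419708, nat_lit 19227786396, nat_lit 20615583894], nat_lit 0, nat_lit 0, nat_lit 0, nat_lit 0, nat_lit 0, nat_lit 0, [], [nat_lit 18, nat_lit 40, nat_lit 40, nat_lit 80, nat_lit 2, nat_lit 317, nat_lit 100, nat_lit 10]⟩,
 zbF0, [⟨nat_lit 0, nat_lit 81, nat_lit 72, nat_lit 100, nat_lit 465151494⟩]⟩
noncomputable def p090_l31 : Lf2 := ⟨nat_lit 0, nat_lit 10, [nat_lit 0, nat_lit 5, nat_lit 5, nat_lit 20], false, nat_lit 0, nat_lit 160, nat_lit 0, nat_lit 160, ⟨nat_lit 1000, nat_lit 0, nat_lit 0, nat_lit 0, nat_lit 0, nat_lit 0, nat_lit 0, nat_lit 0, nat_lit 0, nat_lit 0, nat_lit 0, nat_lit 0, nat_lit 0, nat_lit 0, nat_lit 0, nat_lit 0, false, false⟩,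
 nat_lit 0, nat_lit 7028, nat_lit 0, nat_lit 0, nat_lit 5689, nat_lit 7207, nat_lit 1067, nat_lit 0, nat_lit 0, nat_lit 1323, nat_lit 0, nat_lit 0, nat_lit 0, nat_lit 0, nat_lit 0, nat_lit 0, nat_lit 0, nat_lit 0, [],
 ⟨p090_k4, nat_lit 0, nat_lit 0, nat_lit 726, nat_lit 0, nat_lit 1428878, [nat_lit 2032000001, nat_lit 4688000000, nat_lit 6250000000], [], [nat_lit 22666403121, nat_lit 25445043137, nat_lit 26168004466, nat_lit 28382694212, nat_lit 21713349867, nat_lit 22510884271, nat_lit 23033390509, nat_lit 23697456261], nat_lit 1271250, nat_lit 1271250, nat_lit 810650, nat_lit 1764750, nat_lit 0, nat_lit 1100001, [nat_lit 490000, nat_lit 1100000, nat_lit 1442500], [nat_lit 6, nat_lit 40, nat_lit 40, nat_lit 80, nat_lit 3, nat_lit 317, nat_lit 100, nat_lit 12]⟩, ⟨p090_k1, nat_lit 0, nat_lit 0, nat_lit 181, nat_lit 0, nat_lit 0, [nat_lit 3282000000, nat_lit 6250000000, nat_lit 9842000000], [], [nat_lit 20037351765,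 nat_lit 23822841662, nat_lit 23530346444, nat_lit 27214160928, nat_lit 15408127476, nat_lit 19137626151, nat_lit 19191975760, nat_lit 22265542492], nat_lit 0, nat_lit 0, nat_lit 0, nat_lit 0, nat_lit 0, nat_lit 0, [], [nat_lit 8, nat_lit 40, nat_lit 40, nat_lit 80, nat_lit 1, nat_lit 317, nat_lit 100, nat_lit 9]⟩,
 zbF0, [⟨nat_lit 0, nat_lit 80, nat_lit 60, nat_lit 100, nat_lit 557397916⟩]⟩
noncomputable def p090_l32 : Lf2 := ⟨nat_lit 0, nat_lit 10, [nat_lit 0, nat_lit 5, nat_lit 5, nat_lit 20], false, nat_lit 160, nat_lit 260, nat_lit 0, nat_lit 160, ⟨nat_lit 1000, nat_lit 0, nat_lit 0, nat_lit 0, nat_lit 0, nat_lit 0, nat_lit 0, nat_lit 0, nat_lit 0, nat_lit 0, nat_lit 0, nat_lit 0, nat_lit 0, nat_lit 0, nat_lit 0, nat_lit 0, false, false⟩,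
 nat_lit 0, nat_lit 10207, nat_lit 0, nat_lit 0, nat_lit 7654, nat_lit 8699, nat_lit 480, nat_lit 0, nat_lit 0, nat_lit 1639, nat_lit 0, nat_lit 0, nat_lit 0, nat_lit 0, nat_lit 0, nat_lit 0, nat_lit 0, nat_lit 0, [],
 ⟨p090_k0, nat_lit 0, nat_lit 0, nat_lit 530, nat_lit 0, nat_lit 1171209, [nat_lit 2032000001, nat_lit 4688000000, nat_lit 6250000000], [], [nat_lit 23193699380, nat_lit 24126202878, nat_lit 23777894160, nat_lit 24507585008, nat_lit 24702031414, nat_lit 25467112670, nat_lit 25011559968, nat_lit 25842816593], nat_lit 1271250, nat_lit 1271250, nat_lit 631250, nat_lit 1751250, nat_lit 1100001, nat_lit 1956250, [nat_lit 490000, nat_lit 1100000, nat_lit 1442500], [nat_lit 6, nat_lit 40, nat_lit 40, nat_lit 80, nat_lit 3, nat_lit 345, nat_lit 125, nat_lit 12]⟩, ⟨p090_k1, nat_lit 0, nat_lit 0, nat_lit 171, nat_lit 0, nat_lit 0, [nat_lit 3282000000, nat_lit 6250000000, nat_lit 9842000000], [], [nat_lit 18639258682,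 nat_lit 20021258740, nat_lit 23312950108, nat_lit 24353268205, nat_lit 13403469124, nat_lit 14546667659, nat_lit 17433922320, nat_lit 18296711351], nat_lit 0, nat_lit 0, nat_lit 0, nat_lit 0, nat_lit 0, nat_lit 0, [], [nat_lit 8, nat_lit 40, nat_lit 40, nat_lit 80, nat_lit 1, nat_lit 317, nat_lit 100, nat_lit 9]⟩,
 zbF0, [⟨nat_lit 0, nat_lit 94, nat_lit 75, nat_lit 100, nat_lit 472277810⟩, ⟨nat_lit 4, nat_lit 100, nat_lit 76, nat_lit 72, nat_lit 506061348⟩]⟩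
noncomputable def p090_l33 : Lf2 := ⟨nat_lit 0, nat_lit 10, [nat_lit 0, nat_lit 5, nat_lit 5, nat_lit 20], false, nat_lit 160, nat_lit 260, nat_lit 0, nat_lit 160, ⟨nat_lit 1000, nat_lit 0, nat_lit 0, nat_lit 0, nat_lit 0, nat_lit 0, nat_lit 0, nat_lit 0, nat_lit 0, nat_lit 0, nat_lit 0, nat_lit 0, nat_lit 0, nat_lit 0, nat_lit 0, nat_lit 0, false, false⟩,
 nat_lit 0, nat_lit 10201, nat_lit 0, nat_lit 0, nat_lit 7650, nat_lit 7116, nat_lit 462, nat_lit 0, nat_lit 0, nat_lit 3126, nat_lit 0, nat_lit 0, nat_lit 0, nat_lit 0, nat_lit 0, nat_lit 0, nat_lit 0, nat_lit 0, [],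
 ⟨p090_k0, nat_lit 0, nat_lit 0, nat_lit 557, nat_lit 0, nat_lit 1248111, [nat_lit 2032000001, nat_lit 4688000000, nat_lit 6250000000], [], [nat_lit 23193488900, nat_lit 24052871900, nat_lit 23798510000, nat_lit 24528042800, nat_lit 24611887951, nat_lit 25368256988, nat_lit 25245620800, nat_lit 25840852675], nat_lit 1271250, nat_lit 1271250, nat_lit 689850, nat_lit 1755750, nat_lit 1100001, nat_lit 1956250, [nat_lit 490000, nat_lit 1100000, nat_lit 1442500], [nat_lit 6, nat_lit 40, nat_lit 40, nat_lit 80, nat_lit 3, nat_lit 345, nat_lit 125, nat_lit 12]⟩, ⟨p090_k6, nat_lit 0, nat_lit 0, nat_lit 133, nat_lit 0, nat_lit 0, [nat_lit 3282000000, nat_lit 6250000000, nat_lit 7968000000], [], [nat_lit 17500654475, nat_lit 19033149766, nat_lit 22535678028, nat_lit 23710535912, nat_lit 13357179512, nat_lit 14345538138, nat_lit 17111674584, nat_lit 17894660928], nat_lit 0, nat_lit 0, nat_lit 0, nat_lit 0, nat_lit 0, nat_lit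 0, [], [nat_lit 18, nat_lit 40, nat_lit 40, nat_lit 80, nat_lit 2, nat_lit 317, nat_lit 100, nat_lit 10]⟩,
 zbF0, [⟨nat_lit 0, nat_lit 90, nat_lit 74, nat_lit 100, nat_lit 446408707⟩, ⟨nat_lit 4, nat_lit 100, nat_lit 76, nat_lit 72, nat_lit 503742868⟩]⟩
noncomputable def p090_l34 : Lf2 := ⟨nat_lit 0, nat_lit 10, [nat_lit 0, nat_lit 5, nat_lit 5, nat_lit 20], false, nat_lit 160, nat_lit 232, nat_lit 0, nat_lit 160, ⟨nat_lit 1000, nat_lit 0, nat_lit 0, nat_lit 0, nat_lit 0, nat_lit 0, nat_lit 0, nat_lit 0, nat_lit 0, nat_lit 0, nat_lit 0, nat_lit 0, nat_lit 0, nat_lit 0, nat_lit 0, nat_lit 0, false, false⟩,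
 nat_lit 0, nat_lit 7076, nat_lit 0, nat_lit 0, nat_lit 5727, nat_lit 7799, nat_lit 860, nat_lit 0, nat_lit 0, nat_lit 1463, nat_lit 0, nat_lit 0, nat_lit 0, nat_lit 0, nat_lit 0, nat_lit 0, nat_lit 0, nat_lit 0, [],
 ⟨p090_k4, nat_lit 0, nat_lit 0, nat_lit 569, nat_lit 0, nat_lit 1285347, [nat_lit 2032000001, nat_lit 4688000000, nat_lit 6250000000], [], [nat_lit 19480012412, nat_lit 20465492448, nat_lit 21522287940, nat_lit 23407458220, nat_lit 20913857724, nat_lit 22944244500, nat_lit 23652832526, nat_lit 25288681251], nat_lit 1271250, nat_lit 1271250, nat_lit 810650, nat_lit 1764750, nat_lit 1100001, nat_lit 1716500, [nat_lit 490000, nat_lit 1100000, nat_lit 1442500], [nat_lit 6, nat_lit 40, nat_lit 40, nat_lit 80, nat_lit 3, nat_lit 345, nat_lit 125, nat_lit 12]⟩, ⟨p090_k1, nat_lit 0, nat_lit 0, nat_lit 168, nat_lit 0, nat_lit 0, [nat_lit 3282000000, nat_lit 6250000000, nat_lit 9842000000], [], [nat_lit 19224651506,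 nat_lit 21215254764, nat_lit 23444087308, nat_lit 25380718102, nat_lit 14476869725, nat_lit 16526280949, nat_lit 18494410320, nat_lit 20106104182], nat_lit 0, nat_lit 0, nat_lit 0, nat_lit 0, nat_lit 0, nat_lit 0, [], [nat_lit 8, nat_lit 40, nat_lit 40, nat_lit 80, nat_lit 1, nat_lit 317, nat_lit 100, nat_lit 9]⟩,
 zbF0, [⟨nat_lit 0, nat_lit 92, nat_lit 68, nat_lit 100, nat_lit 270764049⟩, ⟨nat_lit 4, nat_lit 100, nat_lit 66, nat_lit 72, nat_lit 789543175⟩]⟩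
noncomputable def p090_l35 : Lf2 := ⟨nat_lit 0, nat_lit 10, [nat_lit 0, nat_lit 5, nat_lit 5, nat_lit 20], false, nat_lit 160, nat_lit 260, nat_lit 0, nat_lit 160, ⟨nat_lit 1000, nat_lit 0, nat_lit 0, nat_lit 0, nat_lit 0, nat_lit 0, nat_lit 0, nat_lit 0, nat_lit 0, nat_lit 0, nat_lit 0, nat_lit 0, nat_lit 0, nat_lit 0, nat_lit 0, nat_lit 0, false, false⟩,
 nat_lit 0, nat_lit 8876, nat_lit 0, nat_lit 0, nat_lit 6657, nat_lit 5991, nat_lit 475, nat_lit 0, nat_lit 0, nat_lit 2696, nat_lit 0, nat_lit 0, nat_lit 0, nat_lit 0, nat_lit 0, nat_lit 0, nat_lit 0, nat_lit 0, [],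
 ⟨p090_k0, nat_lit 0, nat_lit 0, nat_lit 593, nat_lit 0, nat_lit 1336626, [nat_lit 2032000001, nat_lit 4688000000, nat_lit 6250000000], [], [nat_lit 27992772640, nat_lit 28389505708, nat_lit 28000174008, nat_lit 28400138330, nat_lit 29445126432, nat_lit 29796608169, nat_lit 29358803621, nat_lit 29689252225], nat_lit 1271250, nat_lit 1271250, nat_lit 780000, nat_lit 1100001, nat_lit 1100001, nat_lit 1956250, [nat_lit 490000, nat_lit 1100000, nat_lit 1442500], [nat_lit 6, nat_lit 40, nat_lit 40, nat_lit 80, nat_lit 3, nat_lit 345, nat_lit 125, nat_lit 12]⟩, ⟨p090_k3, nat_lit 0, nat_lit 0, nat_lit 145, nat_lit 0, nat_lit 0, [nat_lit 3282000000, nat_lit 6250000000, nat_lit 7968000000], [], [nat_lit 17566859862, nat_lit 20251704060, nat_lit 18241705320, nat_lit 20758714648, nat_lit 13892519872, nat_lit 15711046348, nat_lit 14693526024, nat_lit 16365356608], nat_lit 0, nat_lit 0, nat_lit 0, nat_lit 0, nat_lit 0, nat_lit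 0, [], [nat_lit 18, nat_lit 40, nat_lit 40, nat_lit 80, nat_lit 2, nat_lit 317, nat_lit 100, nat_lit 10]⟩,
 zbF0, [⟨nat_lit 0, nat_lit 82, nat_lit 78, nat_lit 100, nat_lit 691325462⟩, ⟨nat_lit 4, nat_lit 100, nat_lit 79, nat_lit 72, nat_lit 488407922⟩]⟩
noncomputable def p090_l36 : Lf2 := ⟨nat_lit 0, nat_lit 10, [nat_lit 0, nat_lit 5, nat_lit 5, nat_lit 20], false, nat_lit 160, nat_lit 260, nat_lit 0, nat_lit 160, ⟨nat_lit 1000, nat_lit 0, nat_lit 0, nat_lit 0, nat_lit 0, nat_lit 0, nat_lit 0, nat_lit 0, nat_lit 0, nat_lit 0, nat_lit 0, nat_lit 0, nat_lit 0, nat_lit 0, nat_lit 0, nat_lit 0, false, false⟩,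
 nat_lit 0, nat_lit 8784, nat_lit 0, nat_lit 0, nat_lit 6588, nat_lit 5991, nat_lit 469, nat_lit 0, nat_lit 0, nat_lit 2673, nat_lit 0, nat_lit 0, nat_lit 0, nat_lit 0, nat_lit 0, nat_lit 0, nat_lit 0, nat_lit 0, [],
 ⟨p090_k0, nat_lit 0, nat_lit 0, nat_lit 574, nat_lit 0, nat_lit 1336626, [nat_lit 2032000001, nat_lit 4688000000, nat_lit 6250000000], [], [nat_lit 28406203282, nat_lit 28749017412, nat_lit 29272015520, nat_lit 29615801048, nat_lit 29713915364, nat_lit 30043123900, nat_lit 30297314676, nat_lit 30580705314], nat_lit 1271250, nat_lit 1271250, nat_lit 1100001, nat_lit 1785000, nat_lit 1100001, nat_lit 1956250, [nat_lit 490000, nat_lit 1100000, nat_lit 1442500], [nat_lit 6, nat_lit 40, nat_lit 40, nat_lit 80, nat_lit 3, nat_lit 345, nat_lit 125, nat_lit 12]⟩, ⟨p090_k3, nat_lit 0, nat_lit 0, nat_lit 142, nat_lit 0, nat_lit 0, [nat_lit 3282000000, nat_lit 6250000000, nat_lit 7968000000], [], [nat_lit 18241705320,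 nat_lit 20758714648, nat_lit 22295868662, nat_lit 24399211680, nat_lit 14693526024, nat_lit 16365356608, nat_lit 17900839428, nat_lit 19682678780], nat_lit 0, nat_lit 0, nat_lit 0, nat_lit 0, nat_lit 0, nat_lit 0, [], [nat_lit 18, nat_lit 40, nat_lit 40, nat_lit 80, nat_lit 2, nat_lit 317, nat_lit 100, nat_lit 10]⟩,
 zbF0, [⟨nat_lit 4, nat_lit 100, nat_lit 79, nat_lit 72, nat_lit 482826128⟩]⟩
noncomputable def p090_l37 : Lf2 := ⟨nat_lit 0, nat_lit 10, [nat_lit 0, nat_lit 5, nat_lit 5, nat_lit 20], false, nat_lit 160, nat_lit 244, nat_lit 0, nat_lit 160, ⟨nat_lit 1000, nat_lit 0, nat_lit 0, nat_lit 0, nat_lit 0, nat_lit 0, nat_lit 0, nat_lit 0, nat_lit 0, nat_lit 0, nat_lit 0, nat_lit 0, nat_lit 0, nat_lit 0, nat_lit 0, nat_lit 0, false, false⟩,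
 nat_lit 0, nat_lit 7734, nat_lit 0, nat_lit 0, nat_lit 6028, nat_lit 7099, nat_lit 1553, nat_lit 0, nat_lit 0, nat_lit 1136, nat_lit 0, nat_lit 0, nat_lit 0, nat_lit 0, nat_lit 0, nat_lit 0, nat_lit 0, nat_lit 0, [],
 ⟨p090_k2, nat_lit 0, nat_lit 0, nat_lit 594, nat_lit 0, nat_lit 1344089, [nat_lit 2032000001, nat_lit 4688000000, nat_lit 6250000000], [], [nat_lit 19653980891, nat_lit 20051821293, nat_lit 20764047849, nat_lit 21634928160, nat_lit 20814815564, nat_lit 21682118344, nat_lit 23400072525, nat_lit 24220819928], nat_lit 1271250, nat_lit 1271250, nat_lit 872850, nat_lit 1769250, nat_lit 1100001, nat_lit 1819250, [nat_lit 490000, nat_lit 1100000, nat_lit 1442500], [nat_lit 6, nat_lit 40, nat_lit 40, nat_lit 80, nat_lit 3, nat_lit 345, nat_lit 125, nat_lit 12]⟩, ⟨p090_k3, nat_lit 0, nat_lit 0, nat_lit 142, nat_lit 0, nat_lit 0, [nat_lit 3282000000, nat_lit 6250000000, nat_lit 7968000000], [], [nat_lit 19827260255,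 nat_lit 21903640800, nat_lit 23689158718, nat_lit 26035151520, nat_lit 15484734630, nat_lit 17214863458, nat_lit 18680401582, nat_lit 20203518844], nat_lit 0, nat_lit 0, nat_lit 0, nat_lit 0, nat_lit 0, nat_lit 0, [], [nat_lit 18, nat_lit 40, nat_lit 40, nat_lit 80, nat_lit 2, nat_lit 317, nat_lit 100, nat_lit 10]⟩,
 zbF0, [⟨nat_lit 0, nat_lit 81, nat_lit 72, nat_lit 100, nat_lit 357694403⟩, ⟨nat_lit 4, nat_lit 100, nat_lit 74, nat_lit 72, nat_lit 675489576⟩]⟩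
noncomputable def p090_l38 : Lf2 := ⟨nat_lit 0, nat_lit 10, [nat_lit 0, nat_lit 5, nat_lit 5, nat_lit 20], false, nat_lit 160, nat_lit 232, nat_lit 0, nat_lit 160, ⟨nat_lit 1000, nat_lit 0, nat_lit 0, nat_lit 0, nat_lit 0, nat_lit 0, nat_lit 0, nat_lit 0, nat_lit 0, nat_lit 0, nat_lit 0, nat_lit 0, nat_lit 0, nat_lit 0, nat_lit 0, nat_lit 0, false, false⟩,
 nat_lit 0, nat_lit 6807, nat_lit 0, nat_lit 0, nat_lit 5510, nat_lit 7087, nat_lit 1167, nat_lit 0, nat_lit 0, nat_lit 1136, nat_lit 0, nat_lit 0, nat_lit 0, nat_lit 0, nat_lit 0, nat_lit 0, nat_lit 0, nat_lit 0, [],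
 ⟨p090_k4, nat_lit 0, nat_lit 0, nat_lit 630, nat_lit 0, nat_lit 1428878, [nat_lit 2032000001, nat_lit 4688000000, nat_lit 6250000000], [], [nat_lit 20959880771, nat_lit 21793110609, nat_lit 22412988751, nat_lit 23282496600, nat_lit 22139439671, nat_lit 23014574676, nat_lit 23563383955, nat_lit 25163064204], nat_lit 1271250, nat_lit 1271250, nat_lit 968401, nat_lit 1776000, nat_lit 1100001, nat_lit 1716500, [nat_lit 490000, nat_lit 1100000, nat_lit 1442500], [nat_lit 6, nat_lit 40, nat_lit 40, nat_lit 80, nat_lit 3, nat_lit 345, nat_lit 125, nat_lit 12]⟩, ⟨p090_k3, nat_lit 0, nat_lit 0, nat_lit 142, nat_lit 0, nat_lit 0, [nat_lit 3282000000, nat_lit 6250000000, nat_lit 7968000000], [], [nat_lit 19965620363, nat_lit 22007694810, nat_lit 23674068934, nat_lit 26017433760, nat_lit 15629346141, nat_lit 17323264618, nat_lit 18693022966, nat_lit 20214621772], nat_lit 0, nat_lit 0, nat_lit 0, nat_lit 0, nat_lit 0, nat_lit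 0, [], [nat_lit 18, nat_lit 40, nat_lit 40, nat_lit 80, nat_lit 2, nat_lit 317, nat_lit 100, nat_lit 10]⟩,
 zbF0, [⟨nat_lit 0, nat_lit 84, nat_lit 67, nat_lit 100, nat_lit 329557383⟩, ⟨nat_lit 4, nat_lit 100, nat_lit 66, nat_lit 72, nat_lit 702115176⟩]⟩
noncomputable def b_V_800_700_10_10 : St := ⟨true, nat_lit 1, nat_lit 0, nat_lit 2, nat_lit 80, nat_lit 320, nat_lit 360, nat_lit 280, nat_lit 320, nat_lit 100, nat_lit 240, nat_lit 40, nat_lit 80, nat_lit 0, nat_lit 260, nat_lit 0, nat_lit 160, nat_lit 0, nat_lit 40, nat_lit 0, nat_lit 0, nat_lit 0, nat_lit 0⟩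
theorem d_V_800_700_10_10 (h : EB TB.env) : Dead b_V_800_700_10_10 := chkB_sound0 h (T :=
(.spl (nat_lit 4) (nat_lit 160)
(.spl (nat_lit 0) (nat_lit 340)
(.spl (nat_lit 1) (nat_lit 300)
(.spl (nat_lit 1) (nat_lit 290)
(.leaf p090_l26)
(.trZ (nat_lit 0) (nat_lit 100) (nat_lit 89) (nat_lit 100) (nat_lit 108) (.leaf p090_l27)))
(.trZ (nat_lit 0) (nat_lit 94) (nat_lit 87) (nat_lit 100) (nat_lit 120) (.spl (nat_lit 0) (nat_lit 330)
(.spl (nat_lit 2) (nat_lit 160)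
(.leaf p090_l28)
(.leaf p090_l29))
(.trZ (nat_lit 0) (nat_lit 92) (nat_lit 81) (nat_lit 100) (nat_lit 132) (.leaf p090_l30)))))
(.trZ (nat_lit 0) (nat_lit 99) (nat_lit 77) (nat_lit 100) (nat_lit 124) (.leaf p090_l31)))
(.spl (nat_lit 1) (nat_lit 300)
(.spl (nat_lit 0) (nat_lit 340)
(.spl (nat_lit 1) (nat_lit 290)
(.leaf p090_l32)
(.trZ (nat_lit 0) (nat_lit 100) (nat_lit 89) (nat_lit 100) (nat_lit 108) (.leaf p090_l33)))
(.trZ (nat_lit 0) (nat_lit 99) (nat_lit 77) (nat_lit 100) (nat_lit 124) (.trX (nat_lit 16) (nat_lit 72) (nat_lit 100) (nat_lit 81) (nat_lit 232) (.leaf p090_l34))))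
(.trZ (nat_lit 0) (nat_lit 94) (nat_lit 87) (nat_lit 100) (nat_lit 120) (.spl (nat_lit 0) (nat_lit 340)
(.spl (nat_lit 0) (nat_lit 330)
(.spl (nat_lit 2) (nat_lit 160)
(.leaf p090_l35)
(.leaf p090_l36))
(.trZ (nat_lit 0) (nat_lit 92) (nat_lit 81) (nat_lit 100) (nat_lit 132) (.trX (nat_lit 16) (nat_lit 78) (nat_lit 100) (nat_lit 82) (nat_lit 244) (.leaf p090_l37))))
(.trZ (nat_lit 0) (nat_lit 90) (nat_lit 74) (nat_lit 100) (nat_lit 144) (.trX (nat_lit 16) (nat_lit 72) (nat_lit 100) (nat_lit 81) (nat_lit 232) (.leaf p090_l38)))))))) (by decide +kernel)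
noncomputable def p090_l39 : Lf2 := ⟨nat_lit 0, nat_lit 5, [nat_lit 4, nat_lit 5, nat_lit 5, nat_lit 20], false, nat_lit 0, nat_lit 80, nat_lit 160, nat_lit 276, ⟨nat_lit 948, nat_lit 52, nat_lit 0, nat_lit 7, nat_lit 196, nat_lit 0, nat_lit 27, nat_lit 0, nat_lit 0, nat_lit 0, nat_lit 0, nat_lit 0, nat_lit 0, nat_lit 0, nat_lit 0, nat_lit 5000000, false, false⟩,
 nat_lit 0, nat_lit 10779, nat_lit 0, nat_lit 0, nat_lit 8084, nat_lit 5299, nat_lit 435, nat_lit 0, nat_lit 0, nat_lit 0, nat_lit 0, nat_lit 0, nat_lit 0, nat_lit 0, nat_lit 0, nat_lit 52000, nat_lit 0, nat_lit 0, [(nat_lit 18, [(nat_lit 2, nat_lit 52)])],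
 ⟨p090_k7, nat_lit 0, nat_lit 0, nat_lit 640, nat_lit 0, nat_lit 1222783, [nat_lit 2014833067, nat_lit 4498581334, nat_lit 5901953600], [], [nat_lit 24447983084, nat_lit 24687018221, nat_lit 24130698234, nat_lit 24349478266, nat_lit 21702657946, nat_lit 21924375234, nat_lit 21363196058, nat_lit 21565041132], nat_lit 1271250, nat_lit 1271250, nat_lit 631250, nat_lit 1100001, nat_lit 0, nat_lit 490000, [nat_lit 490000, nat_lit 1100000, nat_lit 1442500], [nat_lit 6, nat_lit 40, nat_lit 40, nat_lit 80, nat_lit 3, nat_lit 272, nat_lit 60, nat_lit 10]⟩, ⟨p090_k8, nat_lit 0, nat_lit 0, nat_lit 51, nat_lit 0, nat_lit 0, [nat_lit 3111336000, nat_lit 5925000000, nat_lit 7553664000], [], [nat_lit 11044632930, nat_lit 14941457698, nat_lit 12077027892, nat_lit 15511972000, nat_lit 17432335144, nat_lit 20644572627, nat_lit 17812878770, nat_lit 20754904925], nat_lit 0, nat_lit 0, nat_lit 0, nat_lit 0, nat_lit 0, nat_lit 0, [],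 [nat_lit 18, nat_lit 40, nat_lit 40, nat_lit 80, nat_lit 2, nat_lit 345, nat_lit 125, nat_lit 11]⟩,
 ⟨nat_lit 4330, nat_lit 4473, ⟨.ofNat (nat_lit 416316), .ofNat (nat_lit 518283), .ofNat (nat_lit 459447), .ofNat (nat_lit 561415), .ofNat (nat_lit 418656), .ofNat (nat_lit 519332), .ofNat (nat_lit 461882), .ofNat (nat_lit 562558)⟩, ⟨.negSucc (nat_lit 12423), .ofNat (nat_lit 123532), .ofNat (nat_lit 0), .ofNat (nat_lit 145099), .negSucc (nat_lit 8497), .ofNat (nat_lit 125737), .ofNat (nat_lit 0), .ofNat (nat_lit 147350)⟩⟩, [⟨nat_lit 0, nat_lit 83, nat_lit 81, nat_lit 100, nat_lit 754640475⟩, ⟨nat_lit 7, nat_lit 100, nat_lit 88, nat_lit 67, nat_lit 727043827⟩]⟩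
noncomputable def p090_l40 : Lf2 := ⟨nat_lit 0, nat_lit 5, [nat_lit 4, nat_lit 5, nat_lit 5, nat_lit 20], false, nat_lit 0, nat_lit 80, nat_lit 160, nat_lit 276, ⟨nat_lit 1000, nat_lit 0, nat_lit 0, nat_lit 0, nat_lit 0, nat_lit 0, nat_lit 0, nat_lit 0, nat_lit 0, nat_lit 0, nat_lit 0, nat_lit 0, nat_lit 0, nat_lit 0, nat_lit 0, nat_lit 0, false, false⟩,
 nat_lit 0, nat_lit 7860, nat_lit 0, nat_lit 0, nat_lit 6010, nat_lit 6067, nat_lit 3034, nat_lit 0, nat_lit 0, nat_lit 0, nat_lit 0, nat_lit 0, nat_lit 0, nat_lit 0, nat_lit 0, nat_lit 0, nat_lit 0, nat_lit 0, [],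
 ⟨p090_k9, nat_lit 0, nat_lit 0, nat_lit 562, nat_lit 0, nat_lit 1226900, [nat_lit 2032000001, nat_lit 4688000000], [], [nat_lit 21287462794, nat_lit 22027484731, nat_lit 21522405510, nat_lit 22143852360, nat_lit 19768523812, nat_lit 19998743067, nat_lit 20000361315, nat_lit 20213046825], nat_lit 1271250, nat_lit 1271250, nat_lit 660400, nat_lit 1100001, nat_lit 0, nat_lit 490000, [nat_lit 490000, nat_lit 1100000], [nat_lit 24, nat_lit 40, nat_lit 40, nat_lit 80, nat_lit 33, nat_lit 272, nat_lit 60, nat_lit 12]⟩, ⟨p090_k8, nat_lit 0, nat_lit 0, nat_lit 50, nat_lit 0, nat_lit 0, [nat_lit 3282000000, nat_lit 6250000000, nat_lit 7968000000], [], [nat_lit 11144759070, nat_lit 15817089025, nat_lit 12086190996, nat_lit 16364090480, nat_lit 18474454914, nat_lit 22011987297, nat_lit 18820999678, nat_lit 22072469850], nat_lit 0, nat_lit 0, nat_lit 0, nat_lit 0, nat_lit 0, nat_lit 0, [], [nat_lit 18, nat_lit 40, nat_lit 40,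 nat_lit 80, nat_lit 2, nat_lit 345, nat_lit 125, nat_lit 11]⟩,
 zbF0, [⟨nat_lit 0, nat_lit 100, nat_lit 85, nat_lit 97, nat_lit 513220640⟩, ⟨nat_lit 7, nat_lit 100, nat_lit 88, nat_lit 67, nat_lit 898461698⟩]⟩
noncomputable def p090_l41 : Lf2 := ⟨nat_lit 0, nat_lit 5, [nat_lit 4, nat_lit 5, nat_lit 5, nat_lit 20], false, nat_lit 80, nat_lit 160, nat_lit 160, nat_lit 276, ⟨nat_lit 1000, nat_lit 0, nat_lit 0, nat_lit 0, nat_lit 0, nat_lit 0, nat_lit 0, nat_lit 0, nat_lit 0, nat_lit 0, nat_lit 0, nat_lit 0, nat_lit 0, nat_lit 0, nat_lit 0, nat_lit 0, false, false⟩,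
 nat_lit 0, nat_lit 11795, nat_lit 0, nat_lit 0, nat_lit 8846, nat_lit 5591, nat_lit 465, nat_lit 0, nat_lit 0, nat_lit 0, nat_lit 0, nat_lit 0, nat_lit 0, nat_lit 0, nat_lit 0, nat_lit 0, nat_lit 0, nat_lit 0, [],
 ⟨p090_k7, nat_lit 0, nat_lit 0, nat_lit 576, nat_lit 0, nat_lit 1222783, [nat_lit 2032000001, nat_lit 4688000000, nat_lit 6250000000], [], [nat_lit 18085934792, nat_lit 18350337524, nat_lit 17668765320, nat_lit 17909039132, nat_lit 17351475620, nat_lit 17602897590, nat_lit 16907075024, nat_lit 17135892882], nat_lit 1271250, nat_lit 1271250, nat_lit 631250, nat_lit 1100001, nat_lit 490000, nat_lit 1100001, [nat_lit 490000, nat_lit 1100000, nat_lit 1442500], [nat_lit 6, nat_lit 40, nat_lit 40, nat_lit 80, nat_lit 3, nat_lit 317, nat_lit 100, nat_lit 12]⟩, ⟨p090_k8, nat_lit 0, nat_lit 0, nat_lit 51, nat_lit 0, nat_lit 0, [nat_lit 3282000000, nat_lit 6250000000, nat_lit 7968000000], [], [nat_lit 11648733714,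 nat_lit 15761258826, nat_lit 12737650308, nat_lit 16361529888, nat_lit 18388873954, nat_lit 21777777810, nat_lit 18790043494, nat_lit 21893861512], nat_lit 0, nat_lit 0, nat_lit 0, nat_lit 0, nat_lit 0, nat_lit 0, [], [nat_lit 18, nat_lit 40, nat_lit 40, nat_lit 80, nat_lit 2, nat_lit 345, nat_lit 125, nat_lit 11]⟩,
 zbF0, [⟨nat_lit 0, nat_lit 83, nat_lit 81, nat_lit 100, nat_lit 811622790⟩, ⟨nat_lit 7, nat_lit 100, nat_lit 88, nat_lit 67, nat_lit 767122807⟩]⟩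
noncomputable def p090_l42 : Lf2 := ⟨nat_lit 0, nat_lit 5, [nat_lit 4, nat_lit 5, nat_lit 5, nat_lit 20], false, nat_lit 80, nat_lit 160, nat_lit 160, nat_lit 276, ⟨nat_lit 1000, nat_lit 0, nat_lit 0, nat_lit 0, nat_lit 0, nat_lit 0, nat_lit 0, nat_lit 0, nat_lit 0, nat_lit 0, nat_lit 0, nat_lit 0, nat_lit 0, nat_lit 0, nat_lit 0, nat_lit 0, false, false⟩,
 nat_lit 0, nat_lit 8344, nat_lit 0, nat_lit 0, nat_lit 6380, nat_lit 6067, nat_lit 3241, nat_lit 0, nat_lit 0, nat_lit 0, nat_lit 0, nat_lit 0, nat_lit 0, nat_lit 0, nat_lit 0, nat_lit 0, nat_lit 0, nat_lit 0, [],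
 ⟨p090_k9, nat_lit 0, nat_lit 0, nat_lit 502, nat_lit 0, nat_lit 1226900, [nat_lit 2032000001, nat_lit 4688000000], [], [nat_lit 16801559233, nat_lit 17057715676, nat_lit 17026352694, nat_lit 17392584240, nat_lit 16941705324, nat_lit 17170725908, nat_lit 17057126674, nat_lit 17558058040], nat_lit 1271250, nat_lit 1271250, nat_lit 660400, nat_lit 1100001, nat_lit 490000, nat_lit 1100001, [nat_lit 490000, nat_lit 1100000], [nat_lit 24, nat_lit 40, nat_lit 40, nat_lit 80, nat_lit 33, nat_lit 317, nat_lit 100, nat_lit 14]⟩, ⟨p090_k8, nat_lit 0, nat_lit 0, nat_lit 50, nat_lit 0, nat_lit 0, [nat_lit 3282000000, nat_lit 6250000000, nat_lit 7968000000], [], [nat_lit 11144759070, nat_lit 15817089025, nat_lit 12086190996, nat_lit 16364090480, nat_lit 18474454914, nat_lit 22011987297, nat_lit 18820999678, nat_lit 22072469850], nat_lit 0, nat_lit 0, nat_lit 0, nat_lit 0, nat_lit 0, nat_lit 0, [], [nat_lit 18, nat_lit 40, nat_lit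 40, nat_lit 80, nat_lit 2, nat_lit 345, nat_lit 125, nat_lit 11]⟩,
 zbF0, [⟨nat_lit 0, nat_lit 100, nat_lit 85, nat_lit 97, nat_lit 494335415⟩, ⟨nat_lit 19, nat_lit 88, nat_lit 100, nat_lit 67, nat_lit 898461698⟩]⟩
noncomputable def p090_l43 : Lf2 := ⟨nat_lit 0, nat_lit 10, [nat_lit 0, nat_lit 5, nat_lit 5, nat_lit 20], false, nat_lit 0, nat_lit 160, nat_lit 160, nat_lit 276, ⟨nat_lit 1000, nat_lit 0, nat_lit 0, nat_lit 0, nat_lit 0, nat_lit 0, nat_lit 0, nat_lit 0, nat_lit 0, nat_lit 0, nat_lit 0, nat_lit 0, nat_lit 0, nat_lit 0, nat_lit 0, nat_lit 0, false, false⟩,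
 nat_lit 0, nat_lit 10930, nat_lit 0, nat_lit 0, nat_lit 8197, nat_lit 5591, nat_lit 444, nat_lit 0, nat_lit 0, nat_lit 0, nat_lit 0, nat_lit 0, nat_lit 0, nat_lit 0, nat_lit 0, nat_lit 0, nat_lit 0, nat_lit 0, [],
 ⟨p090_k0, nat_lit 0, nat_lit 0, nat_lit 542, nat_lit 0, nat_lit 1002462, [nat_lit 2032000001, nat_lit 4688000000, nat_lit 6250000000], [], [nat_lit 24423038402, nat_lit 25789784922, nat_lit 24036541996, nat_lit 25289930592, nat_lit 20690665320, nat_lit 21107728780, nat_lit 20227841420, nat_lit 20636679803], nat_lit 1271250, nat_lit 1271250, nat_lit 631250, nat_lit 1100001, nat_lit 0, nat_lit 1100001, [nat_lit 490000, nat_lit 1100000, nat_lit 1442500], [nat_lit 6, nat_lit 40, nat_lit 40, nat_lit 80, nat_lit 3, nat_lit 317, nat_lit 100, nat_lit 12]⟩, ⟨p090_k1, nat_lit 0, nat_lit 0, nat_lit 51, nat_lit 0, nat_lit 0, [nat_lit 3282000000, nat_lit 6250000000, nat_lit 9842000000], [], [nat_lit 11648733714,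 nat_lit 15761258826, nat_lit 12737650308, nat_lit 16361529888, nat_lit 18388873954, nat_lit 21777777810, nat_lit 18790043494, nat_lit 21893861512], nat_lit 0, nat_lit 0, nat_lit 0, nat_lit 0, nat_lit 0, nat_lit 0, [], [nat_lit 8, nat_lit 40, nat_lit 40, nat_lit 80, nat_lit 1, nat_lit 345, nat_lit 125, nat_lit 9]⟩,
 zbF0, [⟨nat_lit 0, nat_lit 93, nat_lit 84, nat_lit 100, nat_lit 638096231⟩, ⟨nat_lit 0, nat_lit 82, nat_lit 78, nat_lit 100, nat_lit 69092478⟩, ⟨nat_lit 7, nat_lit 100, nat_lit 88, nat_lit 67, nat_lit 767122807⟩]⟩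
noncomputable def p090_l44 : Lf2 := ⟨nat_lit 0, nat_lit 5, [nat_lit 4, nat_lit 5, nat_lit 5, nat_lit 20], false, nat_lit 0, nat_lit 160, nat_lit 160, nat_lit 276, ⟨nat_lit 1000, nat_lit 0, nat_lit 0, nat_lit 0, nat_lit 0, nat_lit 0, nat_lit 0, nat_lit 0, nat_lit 0, nat_lit 0, nat_lit 0, nat_lit 0, nat_lit 0, nat_lit 0, nat_lit 0, nat_lit 0, false, false⟩,
 nat_lit 0, nat_lit 11256, nat_lit 0, nat_lit 0, nat_lit 8442, nat_lit 5591, nat_lit 409, nat_lit 0, nat_lit 0, nat_lit 0, nat_lit 0, nat_lit 0, nat_lit 0, nat_lit 0, nat_lit 0, nat_lit 0, nat_lit 0, nat_lit 0, [],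
 ⟨p090_k7, nat_lit 0, nat_lit 0, nat_lit 619, nat_lit 0, nat_lit 1222783, [nat_lit 2032000001, nat_lit 4688000000, nat_lit 6250000000], [], [nat_lit 23910524176, nat_lit 24776448044, nat_lit 28018064160, nat_lit 28741675157, nat_lit 19922443176, nat_lit 20090651926, nat_lit 20352742648, nat_lit 20713828080], nat_lit 1271250, nat_lit 1271250, nat_lit 1100001, nat_lit 1785000, nat_lit 0, nat_lit 1100001, [nat_lit 490000, nat_lit 1100000, nat_lit 1442500], [nat_lit 6, nat_lit 40, nat_lit 40, nat_lit 80, nat_lit 3, nat_lit 317, nat_lit 100, nat_lit 12]⟩, ⟨p090_k8, nat_lit 0, nat_lit 0, nat_lit 34, nat_lit 0, nat_lit 0, [nat_lit 3282000000, nat_lit 6250000000, nat_lit 7968000000], [], [nat_lit 12737650308, nat_lit 16361529888, nat_lit 16334922064, nat_lit 19613646780, nat_lit 18790043494, nat_lit 21893861512, nat_lit 21544128025, nat_lit 24174035476], nat_lit 0, nat_lit 0, nat_lit 0, nat_lit 0, nat_lit 0, nat_lit 0,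 [], [nat_lit 18, nat_lit 40, nat_lit 40, nat_lit 80, nat_lit 2, nat_lit 373, nat_lit 150, nat_lit 11]⟩,
 zbF0, [⟨nat_lit 7, nat_lit 100, nat_lit 88, nat_lit 67, nat_lit 767122807⟩]⟩
noncomputable def p090_l45 : Lf2 := ⟨nat_lit 0, nat_lit 5, [nat_lit 4, nat_lit 5, nat_lit 5, nat_lit 20], false, nat_lit 0, nat_lit 160, nat_lit 160, nat_lit 276, ⟨nat_lit 1000, nat_lit 0, nat_lit 0, nat_lit 0, nat_lit 0, nat_lit 0, nat_lit 0, nat_lit 0, nat_lit 0, nat_lit 0, nat_lit 0, nat_lit 0, nat_lit 0, nat_lit 0, nat_lit 0, nat_lit 0, false, false⟩,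
 nat_lit 0, nat_lit 8278, nat_lit 0, nat_lit 0, nat_lit 6330, nat_lit 5591, nat_lit 3214, nat_lit 0, nat_lit 0, nat_lit 0, nat_lit 0, nat_lit 0, nat_lit 0, nat_lit 0, nat_lit 0, nat_lit 0, nat_lit 0, nat_lit 0, [],
 ⟨p090_k9, nat_lit 0, nat_lit 0, nat_lit 539, nat_lit 0, nat_lit 1226900, [nat_lit 2032000001, nat_lit 4688000000], [], [nat_lit 21899414060, nat_lit 22604183880, nat_lit 25492978805, nat_lit 26086219210, nat_lit 17723973395, nat_lit 17918906665, nat_lit 20242873200, nat_lit 20744563000], nat_lit 1271250, nat_lit 1271250, nat_lit 1100001, nat_lit 1785000, nat_lit 0, nat_lit 1100001, [nat_lit 490000, nat_lit 1100000], [nat_lit 24, nat_lit 40, nat_lit 40, nat_lit 80, nat_lit 33, nat_lit 249, nat_lit 40, nat_lit 11]⟩, ⟨p090_k8, nat_lit 0, nat_lit 0, nat_lit 34, nat_lit 0, nat_lit 0, [nat_lit 3282000000, nat_lit 6250000000, nat_lit 7968000000], [], [nat_lit 12737650308, nat_lit 16361529888, nat_lit 16334922064,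 nat_lit 19613646780, nat_lit 18790043494, nat_lit 21893861512, nat_lit 21544128025, nat_lit 24174035476], nat_lit 0, nat_lit 0, nat_lit 0, nat_lit 0, nat_lit 0, nat_lit 0, [], [nat_lit 18, nat_lit 40, nat_lit 40, nat_lit 80, nat_lit 2, nat_lit 373, nat_lit 150, nat_lit 11]⟩,
 zbF0, [⟨nat_lit 7, nat_lit 100, nat_lit 88, nat_lit 67, nat_lit 767122807⟩]⟩
noncomputable def p090_l46 : Lf2 := ⟨nat_lit 0, nat_lit 10, [nat_lit 0, nat_lit 5, nat_lit 5, nat_lit 20], false, nat_lit 0, nat_lit 160, nat_lit 160, nat_lit 276, ⟨nat_lit 1000, nat_lit 0, nat_lit 0, nat_lit 0, nat_lit 0, nat_lit 0, nat_lit 0, nat_lit 0, nat_lit 0, nat_lit 0, nat_lit 0, nat_lit 0, nat_lit 0, nat_lit 0, nat_lit 0, nat_lit 0, false, false⟩,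
 nat_lit 0, nat_lit 10692, nat_lit 0, nat_lit 0, nat_lit 8019, nat_lit 5591, nat_lit 485, nat_lit 0, nat_lit 0, nat_lit 0, nat_lit 0, nat_lit 0, nat_lit 0, nat_lit 0, nat_lit 0, nat_lit 0, nat_lit 0, nat_lit 0, [],
 ⟨p090_k0, nat_lit 0, nat_lit 0, nat_lit 522, nat_lit 0, nat_lit 1002462, [nat_lit 2032000001, nat_lit 4688000000, nat_lit 6250000000], [], [nat_lit 24139547354, nat_lit 25033871184, nat_lit 27393513120, nat_lit 28788512803, nat_lit 19852830884, nat_lit 20346999720, nat_lit 20969919048, nat_lit 21424545566], nat_lit 1271250, nat_lit 1271250, nat_lit 1100001, nat_lit 1785000, nat_lit 0, nat_lit 1100001, [nat_lit 490000, nat_lit 1100000, nat_lit 1442500], [nat_lit 6, nat_lit 40, nat_lit 40, nat_lit 80, nat_lit 3, nat_lit 317, nat_lit 100, nat_lit 12]⟩, ⟨p090_k1, nat_lit 0, nat_lit 0, nat_lit 34, nat_lit 0, nat_lit 0, [nat_lit 3282000000, nat_lit 6250000000, nat_lit 9842000000], [], [nat_lit 12737650308,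 nat_lit 16361529888, nat_lit 16334922064, nat_lit 19613646780, nat_lit 18790043494, nat_lit 21893861512, nat_lit 21544128025, nat_lit 24174035476], nat_lit 0, nat_lit 0, nat_lit 0, nat_lit 0, nat_lit 0, nat_lit 0, [], [nat_lit 8, nat_lit 40, nat_lit 40, nat_lit 80, nat_lit 1, nat_lit 373, nat_lit 150, nat_lit 10]⟩,
 zbF0, [⟨nat_lit 7, nat_lit 100, nat_lit 88, nat_lit 67, nat_lit 767122807⟩]⟩
noncomputable def p090_l47 : Lf2 := ⟨nat_lit 0, nat_lit 10, [nat_lit 0, nat_lit 5, nat_lit 5, nat_lit 20], false, nat_lit 0, nat_lit 160, nat_lit 160, nat_lit 300, ⟨nat_lit 952, nat_lit 48, nat_lit 0, nat_lit 7, nat_lit 196, nat_lit 48, nat_lit 58, nat_lit 0, nat_lit 0, nat_lit 0, nat_lit 0, nat_lit 0, nat_lit 0, nat_lit 0, nat_lit 0, nat_lit 5000000, false, false⟩,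
 nat_lit 0, nat_lit 10806, nat_lit 0, nat_lit 0, nat_lit 8104, nat_lit 5322, nat_lit 434, nat_lit 0, nat_lit 0, nat_lit 0, nat_lit 0, nat_lit 0, nat_lit 0, nat_lit 0, nat_lit 0, nat_lit 48000, nat_lit 0, nat_lit 0, [(nat_lit 18, [(nat_lit 2, nat_lit 48)])],
 ⟨p090_k0, nat_lit 0, nat_lit 0, nat_lit 579, nat_lit 0, nat_lit 1102545, [nat_lit 2016153601, nat_lit 4513152000, nat_lit 5928726400], [], [nat_lit 23790446368, nat_lit 24711709228, nat_lit 23475880512, nat_lit 24316013628, nat_lit 19953997280, nat_lit 20178169248, nat_lit 19618187776, nat_lit 19837231268], nat_lit 1271250, nat_lit 1271250, nat_lit 631250, nat_lit 1100001, nat_lit 0, nat_lit 1100001, [nat_lit 490000, nat_lit 1100000, nat_lit 1442500], [nat_lit 6, nat_lit 40, nat_lit 40, nat_lit 80, nat_lit 3, nat_lit 317, nat_lit 100, nat_lit 12]⟩, ⟨p090_k1, nat_lit 0, nat_lit 0, nat_lit 62, nat_lit 0, nat_lit 0, [nat_lit 3124464000, nat_lit 5950000000, nat_lit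 9369584000], [], [nat_lit 11090408604, nat_lit 15004610908, nat_lit 12127108056, nat_lit 15576795328, nat_lit 19306555658, nat_lit 22307750339, nat_lit 19536597004, nat_lit 22289809916], nat_lit 0, nat_lit 0, nat_lit 0, nat_lit 0, nat_lit 0, nat_lit 0, [], [nat_lit 8, nat_lit 40, nat_lit 40, nat_lit 80, nat_lit 1, nat_lit 345, nat_lit 125, nat_lit 9]⟩,
 ⟨nat_lit 4330, nat_lit 4473, ⟨.ofNat (nat_lit 416316), .ofNat (nat_lit 518283), .ofNat (nat_lit 459447), .ofNat (nat_lit 561415), .ofNat (nat_lit 418656), .ofNat (nat_lit 519332), .ofNat (nat_lit 461882), .ofNat (nat_lit 562558)⟩, ⟨.ofNat (nat_lit 0), .ofNat (nat_lit 281055), .ofNat (nat_lit 0), .ofNat (nat_lit 302621), .ofNat (nat_lit 0), .ofNat (nat_lit 281586), .ofNat (nat_lit 0), .ofNat (nat_lit 303199)⟩⟩, [⟨nat_lit 0, nat_lit 83, nat_lit 81, nat_lit 100, nat_lit 774201085⟩, ⟨nat_lit 7, nat_lit 100, nat_lit 92, nat_lit 81, nat_lit 602303334⟩]⟩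
noncomputable def p090_l48 : Lf2 := ⟨nat_lit 0, nat_lit 10, [nat_lit 0, nat_lit 5, nat_lit 5, nat_lit 20], false, nat_lit 0, nat_lit 160, nat_lit 160, nat_lit 300, ⟨nat_lit 1000, nat_lit 0, nat_lit 0, nat_lit 0, nat_lit 0, nat_lit 0, nat_lit 0, nat_lit 0, nat_lit 0, nat_lit 0, nat_lit 0, nat_lit 0, nat_lit 0, nat_lit 0, nat_lit 0, nat_lit 0, false, false⟩,
 nat_lit 0, nat_lit 8615, nat_lit 0, nat_lit 0, nat_lit 6587, nat_lit 5210, nat_lit 2936, nat_lit 0, nat_lit 0, nat_lit 0, nat_lit 0, nat_lit 0, nat_lit 0, nat_lit 0, nat_lit 0, nat_lit 0, nat_lit 0, nat_lit 0, [],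
 ⟨p090_k5, nat_lit 0, nat_lit 0, nat_lit 585, nat_lit 0, nat_lit 1111069, [nat_lit 2032000001, nat_lit 4688000000, nat_lit 6250000000], [], [nat_lit 22195712320, nat_lit 22984389032, nat_lit 22249507684, nat_lit 22973887632, nat_lit 18116991621, nat_lit 18302546319, nat_lit 18013520810, nat_lit 18184431398], nat_lit 1271250, nat_lit 1271250, nat_lit 660400, nat_lit 1100001, nat_lit 0, nat_lit 1100001, [nat_lit 490000, nat_lit 1100000, nat_lit 1442500], [nat_lit 6, nat_lit 40, nat_lit 40, nat_lit 80, nat_lit 3, nat_lit 317, nat_lit 100, nat_lit 12]⟩, ⟨p090_k1, nat_lit 0, nat_lit 0, nat_lit 60, nat_lit 0, nat_lit 0, [nat_lit 3282000000, nat_lit 6250000000, nat_lit 9842000000], [], [nat_lit 12168533937, nat_lit 15958501744, nat_lit 13259091480, nat_lit 16734617280, nat_lit 20089417140, nat_lit 23106585302, nat_lit 20533270210, nat_lit 23219570460], nat_lit 0, nat_lit 0, nat_lit 0, nat_lit 0, nat_lit 0, nat_lit 0, [],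 [nat_lit 8, nat_lit 40, nat_lit 40, nat_lit 80, nat_lit 1, nat_lit 345, nat_lit 125, nat_lit 9]⟩,
 zbF0, [⟨nat_lit 0, nat_lit 100, nat_lit 85, nat_lit 97, nat_lit 521088500⟩, ⟨nat_lit 7, nat_lit 100, nat_lit 92, nat_lit 81, nat_lit 674364636⟩]⟩
noncomputable def p090_l49 : Lf2 := ⟨nat_lit 0, nat_lit 10, [nat_lit 0, nat_lit 5, nat_lit 5, nat_lit 20], false, nat_lit 0, nat_lit 160, nat_lit 160, nat_lit 300, ⟨nat_lit 1000, nat_lit 0, nat_lit 0, nat_lit 0, nat_lit 0, nat_lit 0, nat_lit 0, nat_lit 0, nat_lit 0, nat_lit 0, nat_lit 0, nat_lit 0, nat_lit 0, nat_lit 0, nat_lit 0, nat_lit 0, false, false⟩,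
 nat_lit 0, nat_lit 10936, nat_lit 0, nat_lit 0, nat_lit 8202, nat_lit 5591, nat_lit 444, nat_lit 0, nat_lit 0, nat_lit 0, nat_lit 0, nat_lit 0, nat_lit 0, nat_lit 0, nat_lit 0, nat_lit 0, nat_lit 0, nat_lit 0, [],
 ⟨p090_k0, nat_lit 0, nat_lit 0, nat_lit 576, nat_lit 0, nat_lit 1141168, [nat_lit 2032000001, nat_lit 4688000000, nat_lit 6250000000], [], [nat_lit 24034287218, nat_lit 25297123272, nat_lit 27663708960, nat_lit 29081301274, nat_lit 20202205720, nat_lit 20611314380, nat_lit 20953524080, nat_lit 21329195792], nat_lit 1271250, nat_lit 1271250, nat_lit 1100001, nat_lit 1785000, nat_lit 0, nat_lit 1100001, [nat_lit 490000, nat_lit 1100000, nat_lit 1442500], [nat_lit 6, nat_lit 40, nat_lit 40, nat_lit 80, nat_lit 3, nat_lit 317, nat_lit 100, nat_lit 12]⟩, ⟨p090_k1, nat_lit 0, nat_lit 0, nat_lit 43, nat_lit 0, nat_lit 0, [nat_lit 3282000000, nat_lit 6250000000, nat_lit 9842000000], [], [nat_lit 12737650308,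 nat_lit 16361529888, nat_lit 16334922064, nat_lit 19613646780, nat_lit 20521788706, nat_lit 23414004666, nat_lit 23003753928, nat_lit 25458779875], nat_lit 0, nat_lit 0, nat_lit 0, nat_lit 0, nat_lit 0, nat_lit 0, [], [nat_lit 8, nat_lit 40, nat_lit 40, nat_lit 80, nat_lit 1, nat_lit 373, nat_lit 150, nat_lit 10]⟩,
 zbF0, [⟨nat_lit 7, nat_lit 100, nat_lit 92, nat_lit 81, nat_lit 632785807⟩]⟩
noncomputable def p090_l50 : Lf2 := ⟨nat_lit 0, nat_lit 10, [nat_lit 0, nat_lit 5, nat_lit 5, nat_lit 20], false, nat_lit 0, nat_lit 160, nat_lit 160, nat_lit 300, ⟨nat_lit 1000, nat_lit 0, nat_lit 0, nat_lit 0, nat_lit 0, nat_lit 0, nat_lit 0, nat_lit 0, nat_lit 0, nat_lit 0, nat_lit 0, nat_lit 0, nat_lit 0, nat_lit 0, nat_lit 0, nat_lit 0, false, false⟩,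
 nat_lit 0, nat_lit 7554, nat_lit 0, nat_lit 0, nat_lit 5888, nat_lit 5512, nat_lit 2480, nat_lit 0, nat_lit 0, nat_lit 0, nat_lit 0, nat_lit 0, nat_lit 0, nat_lit 0, nat_lit 0, nat_lit 0, nat_lit 0, nat_lit 0, [],
 ⟨p090_k2, nat_lit 0, nat_lit 0, nat_lit 690, nat_lit 0, nat_lit 1344089, [nat_lit 2032000001, nat_lit 4688000000, nat_lit 6250000000], [], [nat_lit 21682589761, nat_lit 23127689754, nat_lit 25379047056, nat_lit 26510959872, nat_lit 18605398869, nat_lit 19080081753, nat_lit 20623720200, nat_lit 21582537360], nat_lit 1271250, nat_lit 1271250, nat_lit 719601, nat_lit 1758000, nat_lit 0, nat_lit 1100001, [nat_lit 490000, nat_lit 1100000, nat_lit 1442500], [nat_lit 6, nat_lit 40, nat_lit 40, nat_lit 80, nat_lit 3, nat_lit 317, nat_lit 100, nat_lit 12]⟩, ⟨p090_k1, nat_lit 0, nat_lit 0, nat_lit 57, nat_lit 0, nat_lit 0, [nat_lit 3282000000, nat_lit 6250000000, nat_lit 9842000000], [], [nat_lit 11825866522,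 nat_lit 15705331495, nat_lit 16425084448, nat_lit 19600012960, nat_lit 20151281184, nat_lit 23233962252, nat_lit 22980748496, nat_lit 25418559000], nat_lit 0, nat_lit 0, nat_lit 0, nat_lit 0, nat_lit 0, nat_lit 0, [], [nat_lit 8, nat_lit 40, nat_lit 40, nat_lit 80, nat_lit 1, nat_lit 373, nat_lit 150, nat_lit 10]⟩,
 zbF0, [⟨nat_lit 0, nat_lit 91, nat_lit 77, nat_lit 100, nat_lit 313824803⟩, ⟨nat_lit 7, nat_lit 100, nat_lit 90, nat_lit 74, nat_lit 771710632⟩]⟩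
noncomputable def b_V_800_700_10_11 : St := ⟨true, nat_lit 1, nat_lit 0, nat_lit 2, nat_lit 80, nat_lit 320, nat_lit 340, nat_lit 280, nat_lit 320, nat_lit 100, nat_lit 240, nat_lit 40, nat_lit 80, nat_lit 0, nat_lit 160, nat_lit 160, nat_lit 300, nat_lit 0, nat_lit 40, nat_lit 0, nat_lit 0, nat_lit 0, nat_lit 0⟩
theorem d_V_800_700_10_11 (h : EB TB.env) : Dead b_V_800_700_10_11 := chkB_sound0 h (T :=
(.spl (nat_lit 0) (nat_lit 330)
(.spl (nat_lit 3) (nat_lit 60)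
(.trX (nat_lit 19) (nat_lit 99) (nat_lit 100) (nat_lit 77) (nat_lit 276) (.spl (nat_lit 2) (nat_lit 160)
(.spl (nat_lit 6) (nat_lit 20)
(.spl (nat_lit 4) (nat_lit 80)
(.spl (nat_lit 0) (nat_lit 325)
(.leaf p090_l39)
(.trZ (nat_lit 0) (nat_lit 100) (nat_lit 85) (nat_lit 97) (nat_lit 104) (.leaf p090_l40)))
(.spl (nat_lit 0) (nat_lit 325)
(.leaf p090_l41)
(.trZ (nat_lit 0) (nat_lit 100) (nat_lit 85) (nat_lit 97) (nat_lit 104) (.leaf p090_l42))))
(.leaf p090_l43))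
(.spl (nat_lit 6) (nat_lit 20)
(.spl (nat_lit 0) (nat_lit 325)
(.leaf p090_l44)
(.leaf p090_l45))
(.leaf p090_l46))))
(.spl (nat_lit 2) (nat_lit 160)
(.spl (nat_lit 0) (nat_lit 325)
(.leaf p090_l47)
(.trZ (nat_lit 0) (nat_lit 100) (nat_lit 85) (nat_lit 97) (nat_lit 104) (.leaf p090_l48)))
(.leaf p090_l49)))
(.trZ (nat_lit 0) (nat_lit 100) (nat_lit 83) (nat_lit 98) (nat_lit 112) (.leaf p090_l50)))) (by decide +kernel)
noncomputable def p090_l51 : Lf2 := ⟨nat_lit 0, nat_lit 1, [nat_lit 19, nat_lit 5, nat_lit 5, nat_lit 20], false, nat_lit 160, nat_lit 232, nat_lit 160, nat_lit 276, ⟨nat_lit 1000, nat_lit 0, nat_lit 0, nat_lit 0, nat_lit 0, nat_lit 0, nat_lit 0, nat_lit 0, nat_lit 0, nat_lit 0, nat_lit 0, nat_lit 0, nat_lit 0, nat_lit 0, nat_lit 0, nat_lit 0, false, false⟩,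
 nat_lit 0, nat_lit 9121, nat_lit 0, nat_lit 0, nat_lit 6840, nat_lit 5368, nat_lit 0, nat_lit 0, nat_lit 0, nat_lit 0, nat_lit 0, nat_lit 0, nat_lit 0, nat_lit 0, nat_lit 0, nat_lit 0, nat_lit 0, nat_lit 0, [],
 ⟨p090_k10, nat_lit 0, nat_lit 0, nat_lit 410, nat_lit 0, nat_lit 1229081, [nat_lit 2032000001, nat_lit 3282000000], [], [nat_lit 18758048001, nat_lit 19276420841, nat_lit 18938102401, nat_lit 19412825761, nat_lit 20103846081, nat_lit 20558973527, nat_lit 20109039122, nat_lit 20557473172], nat_lit 1271250, nat_lit 1271250, nat_lit 631250, nat_lit 1100001, nat_lit 1100001, nat_lit 1716500, [nat_lit 490000, nat_lit 780000], [nat_lit 112, nat_lit 40, nat_lit 40, nat_lit 80, nat_lit 113, nat_lit 249, nat_lit 40, nat_lit 13]⟩, ⟨p090_k11, nat_lit 0, nat_lit 0, nat_lit 34, nat_lit 0, nat_lit 0, [nat_lit 3282000000, nat_lit 4688000000], [], [nat_lit 11935990272, nat_lit 15815591632, nat_lit 13042850784, nat_lit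 16579898624, nat_lit 18333468996, nat_lit 21643988937, nat_lit 18881667410, nat_lit 21810185757], nat_lit 0, nat_lit 0, nat_lit 0, nat_lit 0, nat_lit 0, nat_lit 0, [], [nat_lit 40, nat_lit 40, nat_lit 40, nat_lit 80, nat_lit 22, nat_lit 249, nat_lit 40, nat_lit 11]⟩,
 zbF0, [⟨nat_lit 0, nat_lit 100, nat_lit 87, nat_lit 95, nat_lit 568931044⟩, ⟨nat_lit 16, nat_lit 81, nat_lit 100, nat_lit 72, nat_lit 484921841⟩, ⟨nat_lit 19, nat_lit 99, nat_lit 100, nat_lit 77, nat_lit 610594001⟩]⟩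
noncomputable def p090_l52 : Lf2 := ⟨nat_lit 0, nat_lit 2, [nat_lit 10, nat_lit 5, nat_lit 5, nat_lit 20], false, nat_lit 160, nat_lit 232, nat_lit 160, nat_lit 276, ⟨nat_lit 977, nat_lit 23, nat_lit 0, nat_lit 7, nat_lit 196, nat_lit 23, nat_lit 132, nat_lit 0, nat_lit 0, nat_lit 0, nat_lit 0, nat_lit 0, nat_lit 0, nat_lit 0, nat_lit 0, nat_lit 5000000, false, false⟩,
 nat_lit 0, nat_lit 10939, nat_lit 0, nat_lit 0, nat_lit 8204, nat_lit 5464, nat_lit 0, nat_lit 0, nat_lit 0, nat_lit 0, nat_lit 0, nat_lit 0, nat_lit 0, nat_lit 0, nat_lit 0, nat_lit 23000, nat_lit 0, nat_lit 0, [(nat_lit 18, [(nat_lit 2, nat_lit 23)])],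
 ⟨p090_k12, nat_lit 0, nat_lit 0, nat_lit 447, nat_lit 0, nat_lit 1168749, [nat_lit 2024406934, nat_lit 4597104000], [], [nat_lit 19951354688, nat_lit 20435491458, nat_lit 19615134176, nat_lit 20055855760, nat_lit 20822719633, nat_lit 21243153683, nat_lit 20319569562, nat_lit 20911098084], nat_lit 1271250, nat_lit 1271250, nat_lit 631250, nat_lit 1100001, nat_lit 1100001, nat_lit 1716500, [nat_lit 490000, nat_lit 1100000], [nat_lit 24, nat_lit 40, nat_lit 40, nat_lit 80, nat_lit 33, nat_lit 249, nat_lit 40, nat_lit 10]⟩, ⟨p090_k13, nat_lit 0, nat_lit 0, nat_lit 34, nat_lit 0, nat_lit 0, [nat_lit 3206514000, nat_lit 6106250000], [], [nat_lit 11378760822, nat_lit 15399020820, nat_lit 12442504152, nat_lit 15984268264, nat_lit 17966328561, nat_lit 21277844640, nat_lit 18357976093, nat_lit 21390900435], nat_lit 0, nat_lit 0, nat_lit 0, nat_lit 0, nat_lit 0, nat_lit 0, [], [nat_lit 49, nat_lit 40, nat_lit 40, nat_lit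 80, nat_lit 16, nat_lit 345, nat_lit 125, nat_lit 13]⟩,
 ⟨nat_lit 4183, nat_lit 4473, ⟨.ofNat (nat_lit 416301), .ofNat (nat_lit 518271), .ofNat (nat_lit 459427), .ofNat (nat_lit 561395), .ofNat (nat_lit 421009), .ofNat (nat_lit 520394), .ofNat (nat_lit 464335), .ofNat (nat_lit 563719)⟩, ⟨.ofNat (nat_lit 259489), .ofNat (nat_lit 381849), .ofNat (nat_lit 281055), .ofNat (nat_lit 403416), .ofNat (nat_lit 260409), .ofNat (nat_lit 379669), .ofNat (nat_lit 282076), .ofNat (nat_lit 401336)⟩⟩, [⟨nat_lit 0, nat_lit 93, nat_lit 84, nat_lit 100, nat_lit 674646170⟩, ⟨nat_lit 4, nat_lit 100, nat_lit 78, nat_lit 66, nat_lit 498346494⟩, ⟨nat_lit 7, nat_lit 100, nat_lit 88, nat_lit 67, nat_lit 749686576⟩]⟩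
noncomputable def p090_l53 : Lf2 := ⟨nat_lit 0, nat_lit 5, [nat_lit 4, nat_lit 5, nat_lit 5, nat_lit 20], false, nat_lit 160, nat_lit 232, nat_lit 160, nat_lit 276, ⟨nat_lit 1000, nat_lit 0, nat_lit 0, nat_lit 0, nat_lit 0, nat_lit 0, nat_lit 0, nat_lit 0, nat_lit 0, nat_lit 0, nat_lit 0, nat_lit 0, nat_lit 0, nat_lit 0, nat_lit 0, nat_lit 0, false, false⟩,
 nat_lit 0, nat_lit 10850, nat_lit 0, nat_lit 0, nat_lit 8137, nat_lit 5591, nat_lit 484, nat_lit 0, nat_lit 0, nat_lit 0, nat_lit 0, nat_lit 0, nat_lit 0, nat_lit 0, nat_lit 0, nat_lit 0, nat_lit 0, nat_lit 0, [],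
 ⟨p090_k7, nat_lit 0, nat_lit 0, nat_lit 513, nat_lit 0, nat_lit 1133294, [nat_lit 2032000001, nat_lit 4688000000, nat_lit 6250000000], [], [nat_lit 19623412954, nat_lit 20169967248, nat_lit 19340679532, nat_lit 19840439983, nat_lit 20715599793, nat_lit 21226959085, nat_lit 20337859714, nat_lit 20893727945], nat_lit 1271250, nat_lit 1271250, nat_lit 631250, nat_lit 1100001, nat_lit 1100001, nat_lit 1716500, [nat_lit 490000, nat_lit 1100000, nat_lit 1442500], [nat_lit 6, nat_lit 40, nat_lit 40, nat_lit 80, nat_lit 3, nat_lit 317, nat_lit 100, nat_lit 11]⟩, ⟨p090_k8, nat_lit 0, nat_lit 0, nat_lit 51, nat_lit 0, nat_lit 0, [nat_lit 3282000000, nat_lit 6250000000, nat_lit 7968000000], [], [nat_lit 11648733714, nat_lit 15761258826, nat_lit 12737650308, nat_lit 16361529888, nat_lit 18388873954, nat_lit 21777777810, nat_lit 18790043494, nat_lit 21893861512], nat_lit 0, nat_lit 0, nat_lit 0, nat_lit 0, nat_lit 0, nat_lit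 0, [], [nat_lit 18, nat_lit 40, nat_lit 40, nat_lit 80, nat_lit 2, nat_lit 345, nat_lit 125, nat_lit 11]⟩,
 zbF0, [⟨nat_lit 0, nat_lit 93, nat_lit 84, nat_lit 100, nat_lit 684893646⟩, ⟨nat_lit 4, nat_lit 100, nat_lit 78, nat_lit 66, nat_lit 536762076⟩, ⟨nat_lit 7, nat_lit 100, nat_lit 88, nat_lit 67, nat_lit 782813220⟩]⟩
noncomputable def p090_l54 : Lf2 := ⟨nat_lit 0, nat_lit 10, [nat_lit 0, nat_lit 5, nat_lit 5, nat_lit 20], false, nat_lit 160, nat_lit 232, nat_lit 160, nat_lit 276, ⟨nat_lit 1000, nat_lit 0, nat_lit 0, nat_lit 0, nat_lit 0, nat_lit 0, nat_lit 0, nat_lit 0, nat_lit 0, nat_lit 0, nat_lit 0, nat_lit 0, nat_lit 0, nat_lit 0, nat_lit 0, nat_lit 0, false, false⟩,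
 nat_lit 0, nat_lit 10847, nat_lit 0, nat_lit 0, nat_lit 8135, nat_lit 5591, nat_lit 484, nat_lit 0, nat_lit 0, nat_lit 0, nat_lit 0, nat_lit 0, nat_lit 0, nat_lit 0, nat_lit 0, nat_lit 0, nat_lit 0, nat_lit 0, [],
 ⟨p090_k0, nat_lit 0, nat_lit 0, nat_lit 448, nat_lit 0, nat_lit 1002462, [nat_lit 2032000001, nat_lit 4688000000, nat_lit 6250000000], [], [nat_lit 19678645910, nat_lit 20186194725, nat_lit 19349427860, nat_lit 19849024465, nat_lit 20724001361, nat_lit 21235294005, nat_lit 20346615128, nat_lit 20893209433], nat_lit 1271250, nat_lit 1271250, nat_lit 631250, nat_lit 1100001, nat_lit 1100001, nat_lit 1716500, [nat_lit 490000, nat_lit 1100000, nat_lit 1442500], [nat_lit 6, nat_lit 40, nat_lit 40, nat_lit 80, nat_lit 3, nat_lit 317, nat_lit 100, nat_lit 11]⟩, ⟨p090_k1, nat_lit 0, nat_lit 0, nat_lit 51, nat_lit 0, nat_lit 0, [nat_lit 3282000000, nat_lit 6250000000, nat_lit 9842000000], [], [nat_lit 11648733714,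 nat_lit 15761258826, nat_lit 12737650308, nat_lit 16361529888, nat_lit 18388873954, nat_lit 21777777810, nat_lit 18790043494, nat_lit 21893861512], nat_lit 0, nat_lit 0, nat_lit 0, nat_lit 0, nat_lit 0, nat_lit 0, [], [nat_lit 8, nat_lit 40, nat_lit 40, nat_lit 80, nat_lit 1, nat_lit 345, nat_lit 125, nat_lit 9]⟩,
 zbF0, [⟨nat_lit 0, nat_lit 93, nat_lit 84, nat_lit 100, nat_lit 592043183⟩, ⟨nat_lit 0, nat_lit 82, nat_lit 78, nat_lit 100, nat_lit 108351727⟩, ⟨nat_lit 4, nat_lit 100, nat_lit 78, nat_lit 66, nat_lit 535480638⟩, ⟨nat_lit 7, nat_lit 100, nat_lit 88, nat_lit 67, nat_lit 767122807⟩]⟩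
noncomputable def p090_l55 : Lf2 := ⟨nat_lit 0, nat_lit 5, [nat_lit 4, nat_lit 5, nat_lit 5, nat_lit 20], false, nat_lit 160, nat_lit 232, nat_lit 160, nat_lit 276, ⟨nat_lit 1000, nat_lit 0, nat_lit 0, nat_lit 0, nat_lit 0, nat_lit 0, nat_lit 0, nat_lit 0, nat_lit 0, nat_lit 0, nat_lit 0, nat_lit 0, nat_lit 0, nat_lit 0, nat_lit 0, nat_lit 0, false, false⟩,
 nat_lit 0, nat_lit 11169, nat_lit 0, nat_lit 0, nat_lit 8376, nat_lit 5591, nat_lit 447, nat_lit 0, nat_lit 0, nat_lit 0, nat_lit 0, nat_lit 0, nat_lit 0, nat_lit 0, nat_lit 0, nat_lit 0, nat_lit 0, nat_lit 0, [],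
 ⟨p090_k7, nat_lit 0, nat_lit 0, nat_lit 521, nat_lit 0, nat_lit 1208215, [nat_lit 2032000001, nat_lit 4688000000, nat_lit 6250000000], [], [nat_lit 19298083360, nat_lit 19422449273, nat_lit 20094282080, nat_lit 20457179277, nat_lit 19979948871, nat_lit 20095665963, nat_lit 22667393831, nat_lit 22978999451], nat_lit 1271250, nat_lit 1271250, nat_lit 1100001, nat_lit 1785000, nat_lit 1100001, nat_lit 1716500, [nat_lit 490000, nat_lit 1100000, nat_lit 1442500], [nat_lit 6, nat_lit 40, nat_lit 40, nat_lit 80, nat_lit 3, nat_lit 345, nat_lit 125, nat_lit 12]⟩, ⟨p090_k8, nat_lit 0, nat_lit 0, nat_lit 34, nat_lit 0, nat_lit 0, [nat_lit 3282000000, nat_lit 6250000000, nat_lit 7968000000], [], [nat_lit 12737650308, nat_lit 16361529888, nat_lit 16334922064, nat_lit 19613646780, nat_lit 18790043494, nat_lit 21893861512, nat_lit 21544128025, nat_lit 24174035476], nat_lit 0, nat_lit 0, nat_lit 0, nat_lit 0, nat_lit 0, nat_lit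 0, [], [nat_lit 18, nat_lit 40, nat_lit 40, nat_lit 80, nat_lit 2, nat_lit 373, nat_lit 150, nat_lit 11]⟩,
 zbF0, [⟨nat_lit 4, nat_lit 100, nat_lit 80, nat_lit 66, nat_lit 473102620⟩, ⟨nat_lit 19, nat_lit 88, nat_lit 100, nat_lit 67, nat_lit 767122807⟩]⟩
noncomputable def p090_l56 : Lf2 := ⟨nat_lit 0, nat_lit 5, [nat_lit 4, nat_lit 5, nat_lit 5, nat_lit 20], false, nat_lit 160, nat_lit 228, nat_lit 160, nat_lit 276, ⟨nat_lit 1000, nat_lit 0, nat_lit 0, nat_lit 0, nat_lit 0, nat_lit 0, nat_lit 0, nat_lit 0, nat_lit 0, nat_lit 0, nat_lit 0, nat_lit 0, nat_lit 0, nat_lit 0, nat_lit 0, nat_lit 0, false, false⟩,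
 nat_lit 0, nat_lit 9203, nat_lit 0, nat_lit 0, nat_lit 6983, nat_lit 5591, nat_lit 3523, nat_lit 0, nat_lit 0, nat_lit 0, nat_lit 0, nat_lit 0, nat_lit 0, nat_lit 0, nat_lit 0, nat_lit 0, nat_lit 0, nat_lit 0, [],
 ⟨p090_k14, nat_lit 0, nat_lit 0, nat_lit 441, nat_lit 0, nat_lit 1203457, [nat_lit 2032000001, nat_lit 4688000000], [], [nat_lit 19072384088, nat_lit 19154094711, nat_lit 20174642659, nat_lit 20388485670, nat_lit 19812728968, nat_lit 19884755717, nat_lit 22467287407, nat_lit 22653435757], nat_lit 1271250, nat_lit 1271250, nat_lit 1100001, nat_lit 1785000, nat_lit 1100001, nat_lit 1682250, [nat_lit 490000, nat_lit 1100000], [nat_lit 24, nat_lit 40, nat_lit 40, nat_lit 80, nat_lit 33, nat_lit 210, nat_lit 0, nat_lit 8]⟩, ⟨p090_k8, nat_lit 0, nat_lit 0, nat_lit 34, nat_lit 0, nat_lit 0, [nat_lit 3282000000, nat_lit 6250000000, nat_lit 7968000000], [], [nat_lit 12737650308, nat_lit 16361529888, nat_lit 16334922064,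 nat_lit 19613646780, nat_lit 18790043494, nat_lit 21893861512, nat_lit 21544128025, nat_lit 24174035476], nat_lit 0, nat_lit 0, nat_lit 0, nat_lit 0, nat_lit 0, nat_lit 0, [], [nat_lit 18, nat_lit 40, nat_lit 40, nat_lit 80, nat_lit 2, nat_lit 373, nat_lit 150, nat_lit 11]⟩,
 zbF0, [⟨nat_lit 16, nat_lit 79, nat_lit 100, nat_lit 66, nat_lit 288262000⟩, ⟨nat_lit 16, nat_lit 80, nat_lit 100, nat_lit 72, nat_lit 183153486⟩, ⟨nat_lit 7, nat_lit 100, nat_lit 88, nat_lit 67, nat_lit 767122807⟩]⟩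
noncomputable def p090_l57 : Lf2 := ⟨nat_lit 0, nat_lit 5, [nat_lit 4, nat_lit 5, nat_lit 5, nat_lit 20], false, nat_lit 160, nat_lit 224, nat_lit 160, nat_lit 276, ⟨nat_lit 1000, nat_lit 0, nat_lit 0, nat_lit 0, nat_lit 0, nat_lit 0, nat_lit 0, nat_lit 0, nat_lit 0, nat_lit 0, nat_lit 0, nat_lit 0, nat_lit 0, nat_lit 0, nat_lit 0, nat_lit 0, false, false⟩,
 nat_lit 0, nat_lit 8016, nat_lit 0, nat_lit 0, nat_lit 6129, nat_lit 5591, nat_lit 3019, nat_lit 0, nat_lit 0, nat_lit 0, nat_lit 0, nat_lit 0, nat_lit 0, nat_lit 0, nat_lit 0, nat_lit 0, nat_lit 0, nat_lit 0, [],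
 ⟨p090_k9, nat_lit 0, nat_lit 0, nat_lit 459, nat_lit 0, nat_lit 1226900, [nat_lit 2032000001, nat_lit 4688000000], [], [nat_lit 18978208553, nat_lit 19185632385, nat_lit 20198052210, nat_lit 20689609600, nat_lit 19874374418, nat_lit 20060023361, nat_lit 22281028060, nat_lit 22714057120], nat_lit 1271250, nat_lit 1271250, nat_lit 1100001, nat_lit 1785000, nat_lit 1100001, nat_lit 1648000, [nat_lit 490000, nat_lit 1100000], [nat_lit 24, nat_lit 40, nat_lit 40, nat_lit 80, nat_lit 33, nat_lit 214, nat_lit 0, nat_lit 8]⟩, ⟨p090_k8, nat_lit 0, nat_lit 0, nat_lit 34, nat_lit 0, nat_lit 0, [nat_lit 3282000000, nat_lit 6250000000, nat_lit 7968000000], [], [nat_lit 12737650308, nat_lit 16361529888, nat_lit 16334922064, nat_lit 19613646780, nat_lit 18790043494, nat_lit 21893861512, nat_lit 21544128025, nat_lit 24174035476], nat_lit 0, nat_lit 0, nat_lit 0, nat_lit 0, nat_lit 0, nat_lit 0, [], [nat_lit 18, nat_lit 40, nat_lit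 40, nat_lit 80, nat_lit 2, nat_lit 373, nat_lit 150, nat_lit 11]⟩,
 zbF0, [⟨nat_lit 16, nat_lit 79, nat_lit 100, nat_lit 72, nat_lit 473644420⟩, ⟨nat_lit 7, nat_lit 100, nat_lit 88, nat_lit 67, nat_lit 767122807⟩]⟩
noncomputable def p090_l58 : Lf2 := ⟨nat_lit 0, nat_lit 10, [nat_lit 0, nat_lit 5, nat_lit 5, nat_lit 20], false, nat_lit 160, nat_lit 232, nat_lit 160, nat_lit 276, ⟨nat_lit 1000, nat_lit 0, nat_lit 0, nat_lit 0, nat_lit 0, nat_lit 0, nat_lit 0, nat_lit 0, nat_lit 0, nat_lit 0, nat_lit 0, nat_lit 0, nat_lit 0, nat_lit 0, nat_lit 0, nat_lit 0, false, false⟩,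
 nat_lit 0, nat_lit 9684, nat_lit 0, nat_lit 0, nat_lit 7263, nat_lit 5591, nat_lit 514, nat_lit 0, nat_lit 0, nat_lit 0, nat_lit 0, nat_lit 0, nat_lit 0, nat_lit 0, nat_lit 0, nat_lit 0, nat_lit 0, nat_lit 0, [],
 ⟨p090_k0, nat_lit 0, nat_lit 0, nat_lit 429, nat_lit 0, nat_lit 1002462, [nat_lit 2032000001, nat_lit 4688000000, nat_lit 6250000000], [], [nat_lit 21408427340, nat_lit 21939691605, nat_lit 22824318532, nat_lit 23348837730, nat_lit 22666196054, nat_lit 23199406317, nat_lit 23886446873, nat_lit 24343736653], nat_lit 1271250, nat_lit 1271250, nat_lit 1100001, nat_lit 1785000, nat_lit 1100001, nat_lit 1716500, [nat_lit 490000, nat_lit 1100000, nat_lit 1442500], [nat_lit 6, nat_lit 40, nat_lit 40, nat_lit 80, nat_lit 3, nat_lit 345, nat_lit 125, nat_lit 12]⟩, ⟨p090_k1, nat_lit 0, nat_lit 0, nat_lit 34, nat_lit 0, nat_lit 0, [nat_lit 3282000000, nat_lit 6250000000, nat_lit 9842000000], [], [nat_lit 12737650308,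 nat_lit 16361529888, nat_lit 16334922064, nat_lit 19613646780, nat_lit 18790043494, nat_lit 21893861512, nat_lit 21544128025, nat_lit 24174035476], nat_lit 0, nat_lit 0, nat_lit 0, nat_lit 0, nat_lit 0, nat_lit 0, [], [nat_lit 8, nat_lit 40, nat_lit 40, nat_lit 80, nat_lit 1, nat_lit 373, nat_lit 150, nat_lit 10]⟩,
 zbF0, [⟨nat_lit 4, nat_lit 100, nat_lit 78, nat_lit 66, nat_lit 564118743⟩, ⟨nat_lit 7, nat_lit 100, nat_lit 88, nat_lit 67, nat_lit 767122807⟩]⟩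
noncomputable def p090_l59 : Lf2 := ⟨nat_lit 0, nat_lit 5, [nat_lit 4, nat_lit 5, nat_lit 5, nat_lit 20], false, nat_lit 160, nat_lit 260, nat_lit 160, nat_lit 300, ⟨nat_lit 430, nat_lit 570, nat_lit 0, nat_lit 7, nat_lit 192, nat_lit 570, nat_lit 151, nat_lit 0, nat_lit 0, nat_lit 0, nat_lit 0, nat_lit 0, nat_lit 0, nat_lit 0, nat_lit 0, nat_lit 5000000, false, false⟩,
 nat_lit 0, nat_lit 7398, nat_lit 0, nat_lit 0, nat_lit 5548, nat_lit 2504, nat_lit 155, nat_lit 0, nat_lit 0, nat_lit 0, nat_lit 0, nat_lit 0, nat_lit 0, nat_lit 0, nat_lit 0, nat_lit 570000, nat_lit 0, nat_lit 0, [(nat_lit 18, [(nat_lit 2, nat_lit 570)])],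
 ⟨p090_k7, nat_lit 0, nat_lit 0, nat_lit 426, nat_lit 0, nat_lit 946449, [nat_lit 1843824001, nat_lit 2611680001, nat_lit 2434876000], [], [nat_lit 19093632758, nat_lit 19593048422, nat_lit 19402806070, nat_lit 19862277986, nat_lit 21264833538, nat_lit 21682194516, nat_lit 21389484210, nat_lit 21748701154], nat_lit 1271250, nat_lit 1271250, nat_lit 631250, nat_lit 1100001, nat_lit 1100001, nat_lit 1956250, [nat_lit 490000, nat_lit 1100000, nat_lit 1442500], [nat_lit 6, nat_lit 40, nat_lit 40, nat_lit 80, nat_lit 3, nat_lit 345, nat_lit 125, nat_lit 12]⟩, ⟨p090_k8, nat_lit 0, nat_lit 0, nat_lit 51, nat_lit 0, nat_lit 0, [nat_lit 1411260000, nat_lit 2687500000, nat_lit 3426240000], [], [nat_lit 4880308356, nat_lit 5810884776, nat_lit 5340506352, nat_lit 6139359520, nat_lit 8764260823, nat_lit 9457844578, nat_lit 8847415744, nat_lit 9483202004], nat_lit 0, nat_lit 0, nat_lit 0, nat_lit 0, nat_lit 0, nat_lit 0, [],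 [nat_lit 18, nat_lit 40, nat_lit 40, nat_lit 80, nat_lit 2, nat_lit 345, nat_lit 125, nat_lit 11]⟩,
 ⟨nat_lit 4183, nat_lit 4473, ⟨.ofNat (nat_lit 416301), .ofNat (nat_lit 518271), .ofNat (nat_lit 437865), .ofNat (nat_lit 539833), .ofNat (nat_lit 421009), .ofNat (nat_lit 520394), .ofNat (nat_lit 442672), .ofNat (nat_lit 542057)⟩, ⟨.ofNat (nat_lit 281055), .ofNat (nat_lit 451000), .ofNat (nat_lit 302621), .ofNat (nat_lit 472567), .ofNat (nat_lit 282076), .ofNat (nat_lit 447715), .ofNat (nat_lit 303743), .ofNat (nat_lit 469382)⟩⟩, [⟨nat_lit 0, nat_lit 92, nat_lit 81, nat_lit 100, nat_lit 276139298⟩, ⟨nat_lit 16, nat_lit 79, nat_lit 100, nat_lit 77, nat_lit 387592793⟩, ⟨nat_lit 7, nat_lit 100, nat_lit 97, nat_lit 82, nat_lit 268930092⟩]⟩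
noncomputable def p090_l60 : Lf2 := ⟨nat_lit 0, nat_lit 1, [nat_lit 19, nat_lit 5, nat_lit 5, nat_lit 20], false, nat_lit 160, nat_lit 260, nat_lit 160, nat_lit 280, ⟨nat_lit 1000, nat_lit 0, nat_lit 0, nat_lit 0, nat_lit 0, nat_lit 0, nat_lit 0, nat_lit 0, nat_lit 0, nat_lit 0, nat_lit 0, nat_lit 0, nat_lit 0, nat_lit 0, nat_lit 0, nat_lit 0, false, false⟩,
 nat_lit 0, nat_lit 8672, nat_lit 0, nat_lit 0, nat_lit 6504, nat_lit 5258, nat_lit 0, nat_lit 0, nat_lit 0, nat_lit 0, nat_lit 0, nat_lit 0, nat_lit 0, nat_lit 0, nat_lit 0, nat_lit 0, nat_lit 0, nat_lit 0, [],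
 ⟨p090_k10, nat_lit 0, nat_lit 0, nat_lit 351, nat_lit 0, nat_lit 1082142, [nat_lit 2032000001, nat_lit 3282000000], [], [nat_lit 19045440289, nat_lit 19605584393, nat_lit 19384383041, nat_lit 19911628433, nat_lit 21414099393, nat_lit 21886195994, nat_lit 21562516049, nat_lit 22111560992], nat_lit 1271250, nat_lit 1271250, nat_lit 780000, nat_lit 1100001, nat_lit 1100001, nat_lit 1956250, [nat_lit 490000, nat_lit 780000], [nat_lit 112, nat_lit 40, nat_lit 40, nat_lit 80, nat_lit 113, nat_lit 203, nat_lit 0, nat_lit 10]⟩, ⟨p090_k15, nat_lit 0, nat_lit 0, nat_lit 30, nat_lit 0, nat_lit 0, [nat_lit 3282000000, nat_lit 4688000000], [], [nat_lit 14084385512, nat_lit 15949095888, nat_lit 14940506124, nat_lit 16687614144, nat_lit 20095224672, nat_lit 21673357148, nat_lit 20571217462, nat_lit 22014769952], nat_lit 0, nat_lit 0, nat_lit 0, nat_lit 0, nat_lit 0, nat_lit 0, [], [nat_lit 40, nat_lit 40, nat_lit 40, nat_lit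 80, nat_lit 22, nat_lit 249, nat_lit 40, nat_lit 10]⟩,
 zbF0, [⟨nat_lit 0, nat_lit 88, nat_lit 82, nat_lit 100, nat_lit 29016983⟩, ⟨nat_lit 0, nat_lit 94, nat_lit 87, nat_lit 100, nat_lit 502466220⟩, ⟨nat_lit 16, nat_lit 83, nat_lit 100, nat_lit 83, nat_lit 464369745⟩, ⟨nat_lit 19, nat_lit 94, nat_lit 100, nat_lit 87, nat_lit 548633738⟩]⟩
noncomputable def p090_l61 : Lf2 := ⟨nat_lit 0, nat_lit 2, [nat_lit 10, nat_lit 5, nat_lit 5, nat_lit 20], false, nat_lit 160, nat_lit 260, nat_lit 160, nat_lit 280, ⟨nat_lit 1000, nat_lit 0, nat_lit 0, nat_lit 0, nat_lit 0, nat_lit 0, nat_lit 0, nat_lit 0, nat_lit 0, nat_lit 0, nat_lit 0, nat_lit 0, nat_lit 0, nat_lit 0, nat_lit 0, nat_lit 0, false, false⟩,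
 nat_lit 0, nat_lit 10491, nat_lit 0, nat_lit 0, nat_lit 7867, nat_lit 5296, nat_lit 0, nat_lit 0, nat_lit 0, nat_lit 0, nat_lit 0, nat_lit 0, nat_lit 0, nat_lit 0, nat_lit 0, nat_lit 0, nat_lit 0, nat_lit 0, [],
 ⟨p090_k12, nat_lit 0, nat_lit 0, nat_lit 379, nat_lit 0, nat_lit 1019820, [nat_lit 2032000001, nat_lit 4688000000], [], [nat_lit 20418790288, nat_lit 20980078291, nat_lit 20472906600, nat_lit 20999345053, nat_lit 22347231909, nat_lit 22806024588, nat_lit 22206019259, nat_lit 22636036727], nat_lit 1271250, nat_lit 1271250, nat_lit 780000, nat_lit 1100001, nat_lit 1100001, nat_lit 1956250, [nat_lit 490000, nat_lit 1100000], [nat_lit 24, nat_lit 40, nat_lit 40, nat_lit 80, nat_lit 33, nat_lit 249, nat_lit 40, nat_lit 10]⟩, ⟨p090_k16, nat_lit 0, nat_lit 0, nat_lit 30, nat_lit 0, nat_lit 0, [nat_lit 3282000000, nat_lit 4688000000], [], [nat_lit 14041048944, nat_lit 15913821856, nat_lit 14895897088, nat_lit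 16650403328, nat_lit 20108309344, nat_lit 21692820976, nat_lit 20542008344, nat_lit 22029884224], nat_lit 0, nat_lit 0, nat_lit 0, nat_lit 0, nat_lit 0, nat_lit 0, [], [nat_lit 40, nat_lit 40, nat_lit 40, nat_lit 80, nat_lit 22, nat_lit 249, nat_lit 40, nat_lit 10]⟩,
 zbF0, [⟨nat_lit 0, nat_lit 88, nat_lit 82, nat_lit 100, nat_lit 674561456⟩, ⟨nat_lit 4, nat_lit 100, nat_lit 79, nat_lit 77, nat_lit 479515048⟩, ⟨nat_lit 7, nat_lit 100, nat_lit 87, nat_lit 79, nat_lit 638595562⟩]⟩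
noncomputable def p090_l62 : Lf2 := ⟨nat_lit 0, nat_lit 5, [nat_lit 4, nat_lit 5, nat_lit 5, nat_lit 20], false, nat_lit 160, nat_lit 260, nat_lit 160, nat_lit 280, ⟨nat_lit 1000, nat_lit 0, nat_lit 0, nat_lit 0, nat_lit 0, nat_lit 0, nat_lit 0, nat_lit 0, nat_lit 0, nat_lit 0, nat_lit 0, nat_lit 0, nat_lit 0, nat_lit 0, nat_lit 0, nat_lit 0, false, false⟩,
 nat_lit 0, nat_lit 10236, nat_lit 0, nat_lit 0, nat_lit 7677, nat_lit 5287, nat_lit 485, nat_lit 0, nat_lit 0, nat_lit 0, nat_lit 0, nat_lit 0, nat_lit 0, nat_lit 0, nat_lit 0, nat_lit 0, nat_lit 0, nat_lit 0, [],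
 ⟨p090_k7, nat_lit 0, nat_lit 0, nat_lit 432, nat_lit 0, nat_lit 980727, [nat_lit 2032000001, nat_lit 4688000000, nat_lit 6250000000], [], [nat_lit 19883279712, nat_lit 20508637924, nat_lit 19996316248, nat_lit 20583025295, nat_lit 22112655553, nat_lit 22624934576, nat_lit 22041820374, nat_lit 22557668312], nat_lit 1271250, nat_lit 1271250, nat_lit 780000, nat_lit 1100001, nat_lit 1100001, nat_lit 1956250, [nat_lit 490000, nat_lit 1100000, nat_lit 1442500], [nat_lit 6, nat_lit 40, nat_lit 40, nat_lit 80, nat_lit 3, nat_lit 345, nat_lit 125, nat_lit 12]⟩, ⟨p090_k17, nat_lit 0, nat_lit 0, nat_lit 30, nat_lit 0, nat_lit 0, [nat_lit 3282000000, nat_lit 6250000000], [], [nat_lit 14051312868, nat_lit 15922176232, nat_lit 14906462386, nat_lit 16659216416, nat_lit 20105196793, nat_lit 21688211122, nat_lit 20548926293, nat_lit 22026304528], nat_lit 0, nat_lit 0, nat_lit 0, nat_lit 0, nat_lit 0, nat_lit 0, [], [nat_lit 49,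 nat_lit 40, nat_lit 40, nat_lit 80, nat_lit 16, nat_lit 345, nat_lit 125, nat_lit 12]⟩,
 zbF0, [⟨nat_lit 0, nat_lit 88, nat_lit 82, nat_lit 100, nat_lit 654922428⟩, ⟨nat_lit 16, nat_lit 79, nat_lit 100, nat_lit 77, nat_lit 64071583⟩, ⟨nat_lit 16, nat_lit 83, nat_lit 100, nat_lit 83, nat_lit 391304458⟩, ⟨nat_lit 19, nat_lit 94, nat_lit 100, nat_lit 87, nat_lit 34576658⟩, ⟨nat_lit 7, nat_lit 100, nat_lit 87, nat_lit 79, nat_lit 596715091⟩]⟩
noncomputable def p090_l63 : Lf2 := ⟨nat_lit 0, nat_lit 10, [nat_lit 0, nat_lit 5, nat_lit 5, nat_lit 20], false, nat_lit 160, nat_lit 260, nat_lit 160, nat_lit 300, ⟨nat_lit 909, nat_lit 91, nat_lit 0, nat_lit 7, nat_lit 196, nat_lit 91, nat_lit 151, nat_lit 0, nat_lit 0, nat_lit 0, nat_lit 0, nat_lit 0, nat_lit 0, nat_lit 0, nat_lit 0, nat_lit 5000000, false, false⟩,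
 nat_lit 0, nat_lit 9786, nat_lit 0, nat_lit 0, nat_lit 7339, nat_lit 4750, nat_lit 426, nat_lit 0, nat_lit 0, nat_lit 0, nat_lit 0, nat_lit 0, nat_lit 0, nat_lit 0, nat_lit 0, nat_lit 91000, nat_lit 0, nat_lit 0, [(nat_lit 18, [(nat_lit 2, nat_lit 91)])],
 ⟨p090_k0, nat_lit 0, nat_lit 0, nat_lit 372, nat_lit 0, nat_lit 843836, [nat_lit 2001957867, nat_lit 4356517334, nat_lit 5640918800], [], [nat_lit 20073841488, nat_lit 20656607326, nat_lit 19954673288, nat_lit 20487097938, nat_lit 22175191146, nat_lit 22693542411, nat_lit 21917729154, nat_lit 22428494010], nat_lit 1271250, nat_lit 1271250, nat_lit 631250, nat_lit 1100001, nat_lit 1100001, nat_lit 1956250, [nat_lit 490000, nat_lit 1100000, nat_lit 1442500], [nat_lit 6, nat_lit 40, nat_lit 40, nat_lit 80, nat_lit 3, nat_lit 345, nat_lit 125, nat_lit 12]⟩, ⟨p090_k1, nat_lit 0, nat_lit 0, nat_lit 62, nat_lit 0, nat_lit 0, [nat_lit 2983338000, nat_lit 5681250000,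 nat_lit 8946378000], [], [nat_lit 11016645522, nat_lit 14486312422, nat_lit 12033203040, nat_lit 15197950144, nat_lit 18289285821, nat_lit 21050341241, nat_lit 18653718492, nat_lit 21113790248], nat_lit 0, nat_lit 0, nat_lit 0, nat_lit 0, nat_lit 0, nat_lit 0, [], [nat_lit 8, nat_lit 40, nat_lit 40, nat_lit 80, nat_lit 1, nat_lit 345, nat_lit 125, nat_lit 9]⟩,
 ⟨nat_lit 4183, nat_lit 4473, ⟨.ofNat (nat_lit 416301), .ofNat (nat_lit 518271), .ofNat (nat_lit 459427), .ofNat (nat_lit 561395), .ofNat (nat_lit 421009), .ofNat (nat_lit 520394), .ofNat (nat_lit 464335), .ofNat (nat_lit 563719)⟩, ⟨.ofNat (nat_lit 281055), .ofNat (nat_lit 451000), .ofNat (nat_lit 302621), .ofNat (nat_lit 472567), .ofNat (nat_lit 282076), .ofNat (nat_lit 447715), .ofNat (nat_lit 303743), .ofNat (nat_lit 469382)⟩⟩, [⟨nat_lit 0, nat_lit 93, nat_lit 84, nat_lit 100, nat_lit 616206655⟩, ⟨nat_lit 16, nat_lit 83, nat_lit 100, nat_lit 83, nat_lit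 6840563⟩, ⟨nat_lit 4, nat_lit 100, nat_lit 79, nat_lit 77, nat_lit 478448408⟩, ⟨nat_lit 7, nat_lit 100, nat_lit 92, nat_lit 81, nat_lit 551519495⟩]⟩
noncomputable def p090_l64 : Lf2 := ⟨nat_lit 0, nat_lit 5, [nat_lit 4, nat_lit 5, nat_lit 5, nat_lit 20], false, nat_lit 160, nat_lit 260, nat_lit 160, nat_lit 240, ⟨nat_lit 1000, nat_lit 0, nat_lit 0, nat_lit 0, nat_lit 0, nat_lit 0, nat_lit 0, nat_lit 0, nat_lit 0, nat_lit 0, nat_lit 0, nat_lit 0, nat_lit 0, nat_lit 0, nat_lit 0, nat_lit 0, false, false⟩,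
 nat_lit 0, nat_lit 9561, nat_lit 0, nat_lit 0, nat_lit 7170, nat_lit 5376, nat_lit 496, nat_lit 0, nat_lit 0, nat_lit 0, nat_lit 0, nat_lit 0, nat_lit 0, nat_lit 0, nat_lit 0, nat_lit 0, nat_lit 0, nat_lit 0, [],
 ⟨p090_k7, nat_lit 0, nat_lit 0, nat_lit 471, nat_lit 0, nat_lit 1108376, [nat_lit 2032000001, nat_lit 4688000000, nat_lit 6250000000], [], [nat_lit 23522496120, nat_lit 23991037030, nat_lit 24691262640, nat_lit 25122183380, nat_lit 25248022090, nat_lit 25660089020, nat_lit 26019872360, nat_lit 26373206335], nat_lit 1271250, nat_lit 1271250, nat_lit 1100001, nat_lit 1785000, nat_lit 1100001, nat_lit 1956250, [nat_lit 490000, nat_lit 1100000, nat_lit 1442500], [nat_lit 6, nat_lit 40, nat_lit 40, nat_lit 80, nat_lit 3, nat_lit 345, nat_lit 125, nat_lit 12]⟩, ⟨p090_k8, nat_lit 0, nat_lit 0, nat_lit 22, nat_lit 0, nat_lit 0, [nat_lit 3282000000, nat_lit 6250000000, nat_lit 7968000000], [], [nat_lit 13031901888,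 nat_lit 16572064768, nat_lit 16580300704, nat_lit 19576957760, nat_lit 16580300704, nat_lit 19576957760, nat_lit 19475346240, nat_lit 22192387136], nat_lit 0, nat_lit 0, nat_lit 0, nat_lit 0, nat_lit 0, nat_lit 0, [], [nat_lit 18, nat_lit 40, nat_lit 40, nat_lit 80, nat_lit 2, nat_lit 345, nat_lit 125, nat_lit 10]⟩,
 zbF0, [⟨nat_lit 16, nat_lit 79, nat_lit 100, nat_lit 77, nat_lit 482206958⟩, ⟨nat_lit 7, nat_lit 100, nat_lit 92, nat_lit 81, nat_lit 527119716⟩]⟩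
noncomputable def p090_l65 : Lf2 := ⟨nat_lit 0, nat_lit 5, [nat_lit 4, nat_lit 5, nat_lit 5, nat_lit 20], false, nat_lit 160, nat_lit 260, nat_lit 240, nat_lit 300, ⟨nat_lit 1000, nat_lit 0, nat_lit 0, nat_lit 0, nat_lit 0, nat_lit 0, nat_lit 0, nat_lit 0, nat_lit 0, nat_lit 0, nat_lit 0, nat_lit 0, nat_lit 0, nat_lit 0, nat_lit 0, nat_lit 0, false, false⟩,
 nat_lit 0, nat_lit 10587, nat_lit 0, nat_lit 0, nat_lit 7939, nat_lit 5376, nat_lit 491, nat_lit 0, nat_lit 0, nat_lit 0, nat_lit 0, nat_lit 0, nat_lit 0, nat_lit 0, nat_lit 0, nat_lit 0, nat_lit 0, nat_lit 0, [],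
 ⟨p090_k7, nat_lit 0, nat_lit 0, nat_lit 455, nat_lit 0, nat_lit 1070862, [nat_lit 2032000001, nat_lit 4688000000, nat_lit 6250000000], [], [nat_lit 20178764004, nat_lit 20425789951, nat_lit 21320575688, nat_lit 21546772067, nat_lit 21891780803, nat_lit 22107716681, nat_lit 24113039261, nat_lit 24580465884], nat_lit 1271250, nat_lit 1271250, nat_lit 1100001, nat_lit 1785000, nat_lit 1100001, nat_lit 1956250, [nat_lit 490000, nat_lit 1100000, nat_lit 1442500], [nat_lit 6, nat_lit 40, nat_lit 40, nat_lit 80, nat_lit 3, nat_lit 345, nat_lit 125, nat_lit 12]⟩, ⟨p090_k8, nat_lit 0, nat_lit 0, nat_lit 43, nat_lit 0, nat_lit 0, [nat_lit 3282000000, nat_lit 6250000000, nat_lit 7968000000], [], [nat_lit 16580300704, nat_lit 19576957760, nat_lit 19475346240, nat_lit 22192387136, nat_lit 20472174016, nat_lit 23304284576, nat_lit 22941144208, nat_lit 25349318000], nat_lit 0, nat_lit 0, nat_lit 0, nat_lit 0, nat_lit 0, nat_lit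 0, [], [nat_lit 18, nat_lit 40, nat_lit 40, nat_lit 80, nat_lit 2, nat_lit 272, nat_lit 60, nat_lit 8]⟩,
 zbF0, [⟨nat_lit 16, nat_lit 83, nat_lit 100, nat_lit 83, nat_lit 426722754⟩, ⟨nat_lit 7, nat_lit 100, nat_lit 92, nat_lit 81, nat_lit 737764159⟩]⟩
noncomputable def p090_l66 : Lf2 := ⟨nat_lit 0, nat_lit 5, [nat_lit 4, nat_lit 5, nat_lit 5, nat_lit 20], false, nat_lit 160, nat_lit 252, nat_lit 240, nat_lit 300, ⟨nat_lit 1000, nat_lit 0, nat_lit 0, nat_lit 0, nat_lit 0, nat_lit 0, nat_lit 0, nat_lit 0, nat_lit 0, nat_lit 0, nat_lit 0, nat_lit 0, nat_lit 0, nat_lit 0, nat_lit 0, nat_lit 0, false, false⟩,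
 nat_lit 0, nat_lit 7754, nat_lit 0, nat_lit 0, nat_lit 5929, nat_lit 5376, nat_lit 2945, nat_lit 0, nat_lit 0, nat_lit 0, nat_lit 0, nat_lit 0, nat_lit 0, nat_lit 0, nat_lit 0, nat_lit 0, nat_lit 0, nat_lit 0, [],
 ⟨p090_k9, nat_lit 0, nat_lit 0, nat_lit 402, nat_lit 0, nat_lit 1079278, [nat_lit 2032000001, nat_lit 4688000000], [], [nat_lit 19499632496, nat_lit 19736696417, nat_lit 20847904597, nat_lit 21053730556, nat_lit 21179256751, nat_lit 21393025659, nat_lit 23390967644, nat_lit 23789644188], nat_lit 1271250, nat_lit 1271250, nat_lit 1100001, nat_lit 1785000, nat_lit 1100001, nat_lit 1887750, [nat_lit 490000, nat_lit 1100000], [nat_lit 24, nat_lit 40, nat_lit 40, nat_lit 80, nat_lit 33, nat_lit 204, nat_lit 0, nat_lit 8]⟩, ⟨p090_k8, nat_lit 0, nat_lit 0, nat_lit 43, nat_lit 0, nat_lit 0, [nat_lit 3282000000, nat_lit 6250000000, nat_lit 7968000000], [], [nat_lit 16580300704, nat_lit 19576957760, nat_lit 19475346240,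 nat_lit 22192387136, nat_lit 20472174016, nat_lit 23304284576, nat_lit 22941144208, nat_lit 25349318000], nat_lit 0, nat_lit 0, nat_lit 0, nat_lit 0, nat_lit 0, nat_lit 0, [], [nat_lit 18, nat_lit 40, nat_lit 40, nat_lit 80, nat_lit 2, nat_lit 272, nat_lit 60, nat_lit 8]⟩,
 zbF0, [⟨nat_lit 16, nat_lit 81, nat_lit 100, nat_lit 83, nat_lit 443238086⟩, ⟨nat_lit 7, nat_lit 100, nat_lit 92, nat_lit 81, nat_lit 737764159⟩]⟩
noncomputable def p090_l67 : Lf2 := ⟨nat_lit 0, nat_lit 10, [nat_lit 0, nat_lit 5, nat_lit 5, nat_lit 20], false, nat_lit 160, nat_lit 260, nat_lit 160, nat_lit 300, ⟨nat_lit 1000, nat_lit 0, nat_lit 0, nat_lit 0, nat_lit 0, nat_lit 0, nat_lit 0, nat_lit 0, nat_lit 0, nat_lit 0, nat_lit 0, nat_lit 0, nat_lit 0, nat_lit 0, nat_lit 0, nat_lit 0, false, false⟩,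
 nat_lit 0, nat_lit 10236, nat_lit 0, nat_lit 0, nat_lit 7677, nat_lit 5086, nat_lit 469, nat_lit 0, nat_lit 0, nat_lit 0, nat_lit 0, nat_lit 0, nat_lit 0, nat_lit 0, nat_lit 0, nat_lit 0, nat_lit 0, nat_lit 0, [],
 ⟨p090_k0, nat_lit 0, nat_lit 0, nat_lit 354, nat_lit 0, nat_lit 843836, [nat_lit 2032000001, nat_lit 4688000000, nat_lit 6250000000], [], [nat_lit 20261541860, nat_lit 20806928810, nat_lit 21451154340, nat_lit 21937065928, nat_lit 22079144578, nat_lit 22558503811, nat_lit 24024273923, nat_lit 24939191523], nat_lit 1271250, nat_lit 1271250, nat_lit 1100001, nat_lit 1785000, nat_lit 1100001, nat_lit 1956250, [nat_lit 490000, nat_lit 1100000, nat_lit 1442500], [nat_lit 6, nat_lit 40, nat_lit 40, nat_lit 80, nat_lit 3, nat_lit 345, nat_lit 125, nat_lit 12]⟩, ⟨p090_k1, nat_lit 0, nat_lit 0, nat_lit 43, nat_lit 0, nat_lit 0, [nat_lit 3282000000, nat_lit 6250000000, nat_lit 9842000000], [], [nat_lit 13428799368,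 nat_lit 16856042048, nat_lit 16911276544, nat_lit 19818307360, nat_lit 20630151286, nat_lit 23156290036, nat_lit 22926667108, nat_lit 25201671750], nat_lit 0, nat_lit 0, nat_lit 0, nat_lit 0, nat_lit 0, nat_lit 0, [], [nat_lit 8, nat_lit 40, nat_lit 40, nat_lit 80, nat_lit 1, nat_lit 373, nat_lit 150, nat_lit 10]⟩,
 zbF0, [⟨nat_lit 4, nat_lit 100, nat_lit 79, nat_lit 77, nat_lit 489059777⟩, ⟨nat_lit 7, nat_lit 100, nat_lit 92, nat_lit 81, nat_lit 596675889⟩]⟩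
noncomputable def p090_l68 : Lf2 := ⟨nat_lit 0, nat_lit 10, [nat_lit 0, nat_lit 5, nat_lit 5, nat_lit 20], false, nat_lit 160, nat_lit 244, nat_lit 160, nat_lit 300, ⟨nat_lit 1000, nat_lit 0, nat_lit 0, nat_lit 0, nat_lit 0, nat_lit 0, nat_lit 0, nat_lit 0, nat_lit 0, nat_lit 0, nat_lit 0, nat_lit 0, nat_lit 0, nat_lit 0, nat_lit 0, nat_lit 0, false, false⟩,
 nat_lit 0, nat_lit 7096, nat_lit 0, nat_lit 0, nat_lit 5531, nat_lit 5240, nat_lit 2288, nat_lit 0, nat_lit 0, nat_lit 0, nat_lit 0, nat_lit 0, nat_lit 0, nat_lit 0, nat_lit 0, nat_lit 0, nat_lit 0, nat_lit 0, [],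
 ⟨p090_k2, nat_lit 0, nat_lit 0, nat_lit 605, nat_lit 0, nat_lit 1344089, [nat_lit 2032000001, nat_lit 4688000000, nat_lit 6250000000], [], [nat_lit 19496561686, nat_lit 19948946043, nat_lit 21136458070, nat_lit 21547725759, nat_lit 21036609741, nat_lit 21428946019, nat_lit 23225624208, nat_lit 24006445588], nat_lit 1271250, nat_lit 1271250, nat_lit 719601, nat_lit 1758000, nat_lit 1100001, nat_lit 1819250, [nat_lit 490000, nat_lit 1100000, nat_lit 1442500], [nat_lit 6, nat_lit 40, nat_lit 40, nat_lit 80, nat_lit 3, nat_lit 345, nat_lit 125, nat_lit 12]⟩, ⟨p090_k1, nat_lit 0, nat_lit 0, nat_lit 57, nat_lit 0, nat_lit 0, [nat_lit 3282000000, nat_lit 6250000000, nat_lit 9842000000], [], [nat_lit 12186762432, nat_lit 15949181888, nat_lit 16735516960, nat_lit 19690142400, nat_lit 20049815761, nat_lit 23048244024, nat_lit 22901539920, nat_lit 25280077000], nat_lit 0, nat_lit 0, nat_lit 0, nat_lit 0, nat_lit 0, nat_lit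 0, [], [nat_lit 8, nat_lit 40, nat_lit 40, nat_lit 80, nat_lit 1, nat_lit 373, nat_lit 150, nat_lit 10]⟩,
 zbF0, [⟨nat_lit 0, nat_lit 100, nat_lit 83, nat_lit 98, nat_lit 351022526⟩, ⟨nat_lit 16, nat_lit 78, nat_lit 100, nat_lit 82, nat_lit 459770805⟩, ⟨nat_lit 19, nat_lit 100, nat_lit 95, nat_lit 87, nat_lit 500888044⟩]⟩
noncomputable def b_V_800_700_10_12 : St := ⟨true, nat_lit 1, nat_lit 0, nat_lit 2, nat_lit 80, nat_lit 320, nat_lit 340, nat_lit 280, nat_lit 320, nat_lit 100, nat_lit 240, nat_lit 40, nat_lit 80, nat_lit 160, nat_lit 260, nat_lit 160, nat_lit 300, nat_lit 0, nat_lit 40, nat_lit 0, nat_lit 0, nat_lit 0, nat_lit 0⟩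
theorem d_V_800_700_10_12 (h : EB TB.env) : Dead b_V_800_700_10_12 := chkB_sound0 h (T :=
(.spl (nat_lit 0) (nat_lit 330)
(.spl (nat_lit 3) (nat_lit 60)
(.trX (nat_lit 16) (nat_lit 81) (nat_lit 100) (nat_lit 72) (nat_lit 232) (.trX (nat_lit 19) (nat_lit 99) (nat_lit 100) (nat_lit 77) (nat_lit 276) (.spl (nat_lit 2) (nat_lit 160)
(.spl (nat_lit 6) (nat_lit 20)
(.spl (nat_lit 6) (nat_lit 8)
(.spl (nat_lit 6) (nat_lit 4)
(.leaf p090_l51)
(.leaf p090_l52))
(.leaf p090_l53))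
(.leaf p090_l54))
(.spl (nat_lit 6) (nat_lit 20)
(.spl (nat_lit 0) (nat_lit 325)
(.spl (nat_lit 0) (nat_lit 323)
(.leaf p090_l55)
(.trX (nat_lit 16) (nat_lit 80) (nat_lit 100) (nat_lit 72) (nat_lit 228) (.leaf p090_l56)))
(.trX (nat_lit 16) (nat_lit 79) (nat_lit 100) (nat_lit 72) (nat_lit 224) (.leaf p090_l57)))
(.leaf p090_l58)))))
(.spl (nat_lit 2) (nat_lit 160)
(.spl (nat_lit 6) (nat_lit 20)
(.spl (nat_lit 1) (nat_lit 300)
(.leaf p090_l59)
(.trZ (nat_lit 0) (nat_lit 94) (nat_lit 87) (nat_lit 100) (nat_lit 120) (.trX (nat_lit 19) (nat_lit 94) (nat_lit 100) (nat_lit 87) (nat_lit 280) (.spl (nat_lit 6) (nat_lit 8)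
(.spl (nat_lit 6) (nat_lit 4)
(.leaf p090_l60)
(.leaf p090_l61))
(.leaf p090_l62)))))
(.leaf p090_l63))
(.spl (nat_lit 6) (nat_lit 20)
(.spl (nat_lit 5) (nat_lit 240)
(.leaf p090_l64)
(.spl (nat_lit 0) (nat_lit 325)
(.leaf p090_l65)
(.trX (nat_lit 16) (nat_lit 81) (nat_lit 100) (nat_lit 83) (nat_lit 252) (.leaf p090_l66))))
(.leaf p090_l67))))
(.trZ (nat_lit 0) (nat_lit 100) (nat_lit 83) (nat_lit 98) (nat_lit 112) (.trX (nat_lit 16) (nat_lit 78) (nat_lit 100) (nat_lit 82) (nat_lit 244) (.leaf p090_l68))))) (by decide +kernel)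
noncomputable def p090_l69 : Lf2 := ⟨nat_lit 0, nat_lit 10, [nat_lit 0, nat_lit 5, nat_lit 5, nat_lit 20], false, nat_lit 0, nat_lit 260, nat_lit 0, nat_lit 160, ⟨nat_lit 1000, nat_lit 0, nat_lit 0, nat_lit 0, nat_lit 0, nat_lit 0, nat_lit 0, nat_lit 0, nat_lit 0, nat_lit 0, nat_lit 0, nat_lit 0, nat_lit 0, nat_lit 0, nat_lit 0, nat_lit 0, false, false⟩,
 nat_lit 0, nat_lit 8188, nat_lit 0, nat_lit 0, nat_lit 6141, nat_lit 6164, nat_lit 404, nat_lit 0, nat_lit 0, nat_lit 1006, nat_lit 0, nat_lit 0, nat_lit 0, nat_lit 0, nat_lit 0, nat_lit 0, nat_lit 0, nat_lit 0, [],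
 ⟨p090_k0, nat_lit 0, nat_lit 0, nat_lit 576, nat_lit 0, nat_lit 1162853, [nat_lit 2032000001, nat_lit 4688000000, nat_lit 6250000000], [], [nat_lit 34446145796, nat_lit 34797324734, nat_lit 38874423228, nat_lit 39141674003, nat_lit 32763269688, nat_lit 32987940997, nat_lit 36019791302, nat_lit 36201760770], nat_lit 1271250, nat_lit 1271250, nat_lit 1271250, nat_lit 1271250, nat_lit 0, nat_lit 1836250, [nat_lit 490000, nat_lit 1100000, nat_lit 1442500], [nat_lit 6, nat_lit 40, nat_lit 40, nat_lit 80, nat_lit 3, nat_lit 289, nat_lit 75, nat_lit 10]⟩, ⟨p090_k1, nat_lit 0, nat_lit 0, nat_lit 217, nat_lit 0, nat_lit 0, [nat_lit 3282000000, nat_lit 6250000000, nat_lit 9842000000], [], [nat_lit 25112856790, nat_lit 26483689166, nat_lit 36169642032, nat_lit 37333514504, nat_lit 21251178240, nat_lit 22357704792, nat_lit 30975014496, nat_lit 31815682304], nat_lit 0, nat_lit 0, nat_lit 0, nat_lit 0, nat_lit 0, nat_lit 0,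 [], [nat_lit 8, nat_lit 40, nat_lit 40, nat_lit 80, nat_lit 1, nat_lit 373, nat_lit 150, nat_lit 10]⟩,
 zbF0, [⟨nat_lit 16, nat_lit 79, nat_lit 100, nat_lit 72, nat_lit 201016106⟩]⟩
noncomputable def p090_l70 : Lf2 := ⟨nat_lit 0, nat_lit 10, [nat_lit 0, nat_lit 5, nat_lit 5, nat_lit 20], false, nat_lit 0, nat_lit 244, nat_lit 0, nat_lit 160, ⟨nat_lit 1000, nat_lit 0, nat_lit 0, nat_lit 0, nat_lit 0, nat_lit 0, nat_lit 0, nat_lit 0, nat_lit 0, nat_lit 0, nat_lit 0, nat_lit 0, nat_lit 0, nat_lit 0, nat_lit 0, nat_lit 0, false, false⟩,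
 nat_lit 0, nat_lit 6643, nat_lit 0, nat_lit 0, nat_lit 5178, nat_lit 6046, nat_lit 1204, nat_lit 0, nat_lit 0, nat_lit 972, nat_lit 0, nat_lit 0, nat_lit 0, nat_lit 0, nat_lit 0, nat_lit 0, nat_lit 0, nat_lit 0, [],
 ⟨p090_k2, nat_lit 0, nat_lit 0, nat_lit 586, nat_lit 0, nat_lit 1183922, [nat_lit 2032000001, nat_lit 4688000000, nat_lit 6250000000], [], [nat_lit 28837755047, nat_lit 29212907433, nat_lit 36390407420, nat_lit 37020106272, nat_lit 28544438554, nat_lit 28818687912, nat_lit 32053471611, nat_lit 32530342507], nat_lit 1271250, nat_lit 1271250, nat_lit 1271250, nat_lit 1271250, nat_lit 0, nat_lit 1723250, [nat_lit 490000, nat_lit 1100000, nat_lit 1442500], [nat_lit 6, nat_lit 40, nat_lit 40, nat_lit 80, nat_lit 3, nat_lit 289, nat_lit 75, nat_lit 10]⟩, ⟨p090_k1, nat_lit 0, nat_lit 0, nat_lit 217, nat_lit 0, nat_lit 0, [nat_lit 3282000000, nat_lit 6250000000, nat_lit 9842000000], [], [nat_lit 25311723060,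 nat_lit 26668426824, nat_lit 36049283448, nat_lit 37014493776, nat_lit 21579789360, nat_lit 22675646588, nat_lit 31004506944, nat_lit 31839089256], nat_lit 0, nat_lit 0, nat_lit 0, nat_lit 0, nat_lit 0, nat_lit 0, [], [nat_lit 8, nat_lit 40, nat_lit 40, nat_lit 80, nat_lit 1, nat_lit 373, nat_lit 150, nat_lit 10]⟩,
 zbF0, [⟨nat_lit 16, nat_lit 74, nat_lit 100, nat_lit 72, nat_lit 140708945⟩]⟩
noncomputable def p090_l71 : Lf2 := ⟨nat_lit 0, nat_lit 10, [nat_lit 0, nat_lit 5, nat_lit 5, nat_lit 20], false, nat_lit 0, nat_lit 232, nat_lit 0, nat_lit 160, ⟨nat_lit 1000, nat_lit 0, nat_lit 0, nat_lit 0, nat_lit 0, nat_lit 0, nat_lit 0, nat_lit 0, nat_lit 0, nat_lit 0, nat_lit 0, nat_lit 0, nat_lit 0, nat_lit 0, nat_lit 0, nat_lit 0, false, false⟩,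
 nat_lit 0, nat_lit 8438, nat_lit 0, nat_lit 0, nat_lit 6328, nat_lit 5393, nat_lit 432, nat_lit 0, nat_lit 0, nat_lit 2469, nat_lit 0, nat_lit 0, nat_lit 0, nat_lit 0, nat_lit 0, nat_lit 0, nat_lit 0, nat_lit 0, [],
 ⟨p090_k0, nat_lit 0, nat_lit 0, nat_lit 634, nat_lit 0, nat_lit 1298217, [nat_lit 2032000001, nat_lit 4688000000, nat_lit 6250000000], [], [nat_lit 35388728320, nat_lit 35685616008, nat_lit 39458542688, nat_lit 39682293024, nat_lit 33292041029, nat_lit 33519740398, nat_lit 36205430778, nat_lit 36364620919], nat_lit 1271250, nat_lit 1271250, nat_lit 1271250, nat_lit 1271250, nat_lit 0, nat_lit 1638500, [nat_lit 490000, nat_lit 1100000, nat_lit 1442500], [nat_lit 6, nat_lit 40, nat_lit 40, nat_lit 80, nat_lit 3, nat_lit 279, nat_lit 60, nat_lit 10]⟩, ⟨p090_k3, nat_lit 0, nat_lit 0, nat_lit 199, nat_lit 0, nat_lit 0, [nat_lit 3282000000, nat_lit 6250000000, nat_lit 7968000000], [], [nat_lit 21554140842,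 nat_lit 23516276640, nat_lit 35246274098, nat_lit 36362226108, nat_lit 20110822048, nat_lit 21296535300, nat_lit 29683969888, nat_lit 30672384392], nat_lit 0, nat_lit 0, nat_lit 0, nat_lit 0, nat_lit 0, nat_lit 0, [], [nat_lit 18, nat_lit 40, nat_lit 40, nat_lit 80, nat_lit 2, nat_lit 249, nat_lit 40, nat_lit 8]⟩,
 zbF0, [⟨nat_lit 16, nat_lit 78, nat_lit 100, nat_lit 66, nat_lit 179740236⟩]⟩
noncomputable def p090_l72 : Lf2 := ⟨nat_lit 0, nat_lit 10, [nat_lit 0, nat_lit 5, nat_lit 5, nat_lit 20], false, nat_lit 0, nat_lit 220, nat_lit 0, nat_lit 160, ⟨nat_lit 1000, nat_lit 0, nat_lit 0, nat_lit 0, nat_lit 0, nat_lit 0, nat_lit 0, nat_lit 0, nat_lit 0, nat_lit 0, nat_lit 0, nat_lit 0, nat_lit 0, nat_lit 0, nat_lit 0, nat_lit 0, false, false⟩,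
 nat_lit 0, nat_lit 6593, nat_lit 0, nat_lit 0, nat_lit 5139, nat_lit 6184, nat_lit 1319, nat_lit 0, nat_lit 0, nat_lit 847, nat_lit 0, nat_lit 0, nat_lit 0, nat_lit 0, nat_lit 0, nat_lit 0, nat_lit 0, nat_lit 0, [],
 ⟨p090_k2, nat_lit 0, nat_lit 0, nat_lit 638, nat_lit 0, nat_lit 1305792, [nat_lit 2032000001, nat_lit 4688000000, nat_lit 6250000000], [], [nat_lit 29258363826, nat_lit 29606673510, nat_lit 36278988710, nat_lit 36906381336, nat_lit 28681438169, nat_lit 28947237788, nat_lit 31964557114, nat_lit 32150032271], nat_lit 1271250, nat_lit 1271250, nat_lit 1271250, nat_lit 1271250, nat_lit 0, nat_lit 1553750, [nat_lit 490000, nat_lit 1100000, nat_lit 1442500], [nat_lit 6, nat_lit 40, nat_lit 40, nat_lit 80, nat_lit 3, nat_lit 280, nat_lit 60, nat_lit 10]⟩, ⟨p090_k3, nat_lit 0, nat_lit 0, nat_lit 199, nat_lit 0, nat_lit 0, [nat_lit 3282000000, nat_lit 6250000000, nat_lit 7968000000], [], [nat_lit 26202788418,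 nat_lit 27394770418, nat_lit 37387658224, nat_lit 38575251104, nat_lit 23116718018, nat_lit 24003217642, nat_lit 30621475744, nat_lit 31669632896], nat_lit 0, nat_lit 0, nat_lit 0, nat_lit 0, nat_lit 0, nat_lit 0, [], [nat_lit 18, nat_lit 40, nat_lit 40, nat_lit 80, nat_lit 2, nat_lit 249, nat_lit 40, nat_lit 8]⟩,
 zbF0, [⟨nat_lit 16, nat_lit 74, nat_lit 100, nat_lit 66, nat_lit 108187233⟩]⟩
noncomputable def p090_l73 : Lf2 := ⟨nat_lit 0, nat_lit 10, [nat_lit 0, nat_lit 5, nat_lit 5, nat_lit 20], false, nat_lit 0, nat_lit 260, nat_lit 0, nat_lit 160, ⟨nat_lit 1000, nat_lit 0, nat_lit 0, nat_lit 0, nat_lit 0, nat_lit 0, nat_lit 0, nat_lit 0, nat_lit 0, nat_lit 0, nat_lit 0, nat_lit 0, nat_lit 0, nat_lit 0, nat_lit 0, nat_lit 0, false, false⟩,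
 nat_lit 0, nat_lit 8359, nat_lit 0, nat_lit 0, nat_lit 6268, nat_lit 5416, nat_lit 389, nat_lit 0, nat_lit 0, nat_lit 2506, nat_lit 0, nat_lit 0, nat_lit 0, nat_lit 0, nat_lit 0, nat_lit 0, nat_lit 0, nat_lit 0, [],
 ⟨p090_k0, nat_lit 0, nat_lit 0, nat_lit 606, nat_lit 0, nat_lit 1220349, [nat_lit 2032000001, nat_lit 4688000000, nat_lit 6250000000], [], [nat_lit 36051151920, nat_lit 36639584528, nat_lit 39758722928, nat_lit 40205601160, nat_lit 34000855773, nat_lit 34423929764, nat_lit 36713121384, nat_lit 37010773566], nat_lit 1271250, nat_lit 1271250, nat_lit 1271250, nat_lit 1271250, nat_lit 0, nat_lit 1836250, [nat_lit 490000, nat_lit 1100000, nat_lit 1442500], [nat_lit 6, nat_lit 40, nat_lit 40, nat_lit 80, nat_lit 3, nat_lit 289, nat_lit 75, nat_lit 10]⟩, ⟨p090_k3, nat_lit 0, nat_lit 0, nat_lit 199, nat_lit 0, nat_lit 0, [nat_lit 3282000000, nat_lit 6250000000, nat_lit 7968000000], [], [nat_lit 21572816512,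 nat_lit 23550235680, nat_lit 35308539376, nat_lit 36426574496, nat_lit 20050661776, nat_lit 21238945600, nat_lit 29711229856, nat_lit 30701381504], nat_lit 0, nat_lit 0, nat_lit 0, nat_lit 0, nat_lit 0, nat_lit 0, [], [nat_lit 18, nat_lit 40, nat_lit 40, nat_lit 80, nat_lit 2, nat_lit 249, nat_lit 40, nat_lit 8]⟩,
 zbF0, [⟨nat_lit 4, nat_lit 100, nat_lit 77, nat_lit 77, nat_lit 184546321⟩]⟩
noncomputable def p090_l74 : Lf2 := ⟨nat_lit 0, nat_lit 10, [nat_lit 0, nat_lit 5, nat_lit 5, nat_lit 20], false, nat_lit 0, nat_lit 232, nat_lit 0, nat_lit 160, ⟨nat_lit 1000, nat_lit 0, nat_lit 0, nat_lit 0, nat_lit 0, nat_lit 0, nat_lit 0, nat_lit 0, nat_lit 0, nat_lit 0, nat_lit 0, nat_lit 0, nat_lit 0, nat_lit 0, nat_lit 0, nat_lit 0, false, false⟩,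
 nat_lit 0, nat_lit 5713, nat_lit 0, nat_lit 0, nat_lit 4624, nat_lit 6814, nat_lit 932, nat_lit 0, nat_lit 0, nat_lit 944, nat_lit 0, nat_lit 0, nat_lit 0, nat_lit 0, nat_lit 0, nat_lit 0, nat_lit 0, nat_lit 0, [],
 ⟨p090_k4, nat_lit 0, nat_lit 0, nat_lit 692, nat_lit 0, nat_lit 1428878, [nat_lit 2032000001, nat_lit 4688000000, nat_lit 6250000000], [], [nat_lit 32012861683, nat_lit 32675284115, nat_lit 36130762243, nat_lit 36605870963, nat_lit 32155227450, nat_lit 32657011210, nat_lit 35252641237, nat_lit 35613579543], nat_lit 1271250, nat_lit 1271250, nat_lit 1271250, nat_lit 1271250, nat_lit 0, nat_lit 1638500, [nat_lit 490000, nat_lit 1100000, nat_lit 1442500], [nat_lit 6, nat_lit 40, nat_lit 40, nat_lit 80, nat_lit 3, nat_lit 297, nat_lit 60, nat_lit 10]⟩, ⟨p090_k1, nat_lit 0, nat_lit 0, nat_lit 219, nat_lit 0, nat_lit 0, [nat_lit 3282000000, nat_lit 6250000000, nat_lit 9842000000], [], [nat_lit 27942807504,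 nat_lit 30199151992, nat_lit 37848533424, nat_lit 40337837384, nat_lit 23895947728, nat_lit 25780845464, nat_lit 32158422192, nat_lit 33527957648], nat_lit 0, nat_lit 0, nat_lit 0, nat_lit 0, nat_lit 0, nat_lit 0, [], [nat_lit 8, nat_lit 40, nat_lit 40, nat_lit 80, nat_lit 1, nat_lit 373, nat_lit 150, nat_lit 10]⟩,
 zbF0, [⟨nat_lit 4, nat_lit 100, nat_lit 66, nat_lit 72, nat_lit 300194805⟩]⟩
noncomputable def p090_l75 : Lf2 := ⟨nat_lit 0, nat_lit 10, [nat_lit 0, nat_lit 5, nat_lit 5, nat_lit 20], false, nat_lit 0, nat_lit 160, nat_lit 160, nat_lit 300, ⟨nat_lit 1000, nat_lit 0, nat_lit 0, nat_lit 0, nat_lit 0, nat_lit 0, nat_lit 0, nat_lit 0, nat_lit 0, nat_lit 0, nat_lit 0, nat_lit 0, nat_lit 0, nat_lit 0, nat_lit 0, nat_lit 0, false, false⟩,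
 nat_lit 0, nat_lit 8438, nat_lit 0, nat_lit 0, nat_lit 6328, nat_lit 7044, nat_lit 429, nat_lit 0, nat_lit 0, nat_lit 0, nat_lit 0, nat_lit 0, nat_lit 0, nat_lit 0, nat_lit 0, nat_lit 0, nat_lit 0, nat_lit 0, [],
 ⟨p090_k0, nat_lit 0, nat_lit 0, nat_lit 576, nat_lit 0, nat_lit 1162853, [nat_lit 2032000001, nat_lit 4688000000, nat_lit 6250000000], [], [nat_lit 33401645568, nat_lit 33756829672, nat_lit 38978127968, nat_lit 39675830920, nat_lit 30749524962, nat_lit 31022701346, nat_lit 34770542688, nat_lit 34994293024], nat_lit 1271250, nat_lit 1271250, nat_lit 1271250, nat_lit 1271250, nat_lit 0, nat_lit 1100001, [nat_lit 490000, nat_lit 1100000, nat_lit 1442500], [nat_lit 6, nat_lit 40, nat_lit 40, nat_lit 80, nat_lit 3, nat_lit 256, nat_lit 40, nat_lit 9]⟩, ⟨p090_k1, nat_lit 0, nat_lit 0, nat_lit 86, nat_lit 0, nat_lit 0, [nat_lit 3282000000, nat_lit 6250000000, nat_lit 9842000000], [], [nat_lit 19384041920, nat_lit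 20900199592, nat_lit 30755070816, nat_lit 31641121984, nat_lit 25147365296, nat_lit 26227351286, nat_lit 33878470516, nat_lit 34663118554], nat_lit 0, nat_lit 0, nat_lit 0, nat_lit 0, nat_lit 0, nat_lit 0, [], [nat_lit 8, nat_lit 40, nat_lit 40, nat_lit 80, nat_lit 1, nat_lit 401, nat_lit 175, nat_lit 11]⟩,
 zbF0, [⟨nat_lit 19, nat_lit 94, nat_lit 100, nat_lit 75, nat_lit 520199857⟩]⟩
noncomputable def p090_l76 : Lf2 := ⟨nat_lit 0, nat_lit 10, [nat_lit 0, nat_lit 5, nat_lit 5, nat_lit 20], false, nat_lit 0, nat_lit 160, nat_lit 160, nat_lit 280, ⟨nat_lit 1000, nat_lit 0, nat_lit 0, nat_lit 0, nat_lit 0, nat_lit 0, nat_lit 0, nat_lit 0, nat_lit 0, nat_lit 0, nat_lit 0, nat_lit 0, nat_lit 0, nat_lit 0, nat_lit 0, nat_lit 0, false, false⟩,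
 nat_lit 0, nat_lit 8700, nat_lit 0, nat_lit 0, nat_lit 6524, nat_lit 5209, nat_lit 418, nat_lit 0, nat_lit 0, nat_lit 2687, nat_lit 0, nat_lit 0, nat_lit 0, nat_lit 0, nat_lit 0, nat_lit 0, nat_lit 0, nat_lit 0, [],
 ⟨p090_k0, nat_lit 0, nat_lit 0, nat_lit 634, nat_lit 0, nat_lit 1297343, [nat_lit 2032000001, nat_lit 4688000000, nat_lit 6250000000], [], [nat_lit 34460544560, nat_lit 34609493096, nat_lit 39526488144, nat_lit 39881134752, nat_lit 31690985872, nat_lit 31822944124, nat_lit 35107374112, nat_lit 35199658882], nat_lit 1271250, nat_lit 1271250, nat_lit 1271250, nat_lit 1271250, nat_lit 0, nat_lit 1100001, [nat_lit 490000, nat_lit 1100000, nat_lit 1442500], [nat_lit 6, nat_lit 40, nat_lit 40, nat_lit 80, nat_lit 3, nat_lit 270, nat_lit 40, nat_lit 9]⟩, ⟨p090_k3, nat_lit 0, nat_lit 0, nat_lit 90, nat_lit 0, nat_lit 0, [nat_lit 3282000000, nat_lit 6250000000, nat_lit 7968000000], [], [nat_lit 19212076786,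 nat_lit 20524314856, nat_lit 29465890144, nat_lit 30440407496, nat_lit 23441475367, nat_lit 24459652878, nat_lit 31941182409, nat_lit 32697113516], nat_lit 0, nat_lit 0, nat_lit 0, nat_lit 0, nat_lit 0, nat_lit 0, [], [nat_lit 18, nat_lit 40, nat_lit 40, nat_lit 80, nat_lit 2, nat_lit 289, nat_lit 75, nat_lit 8]⟩,
 zbF0, [⟨nat_lit 19, nat_lit 85, nat_lit 100, nat_lit 73, nat_lit 610357058⟩]⟩
noncomputable def p090_l77 : Lf2 := ⟨nat_lit 0, nat_lit 10, [nat_lit 0, nat_lit 5, nat_lit 5, nat_lit 20], false, nat_lit 0, nat_lit 160, nat_lit 160, nat_lit 280, ⟨nat_lit 1000, nat_lit 0, nat_lit 0, nat_lit 0, nat_lit 0, nat_lit 0, nat_lit 0, nat_lit 0, nat_lit 0, nat_lit 0, nat_lit 0, nat_lit 0, nat_lit 0, nat_lit 0, nat_lit 0, nat_lit 0, false, false⟩,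
 nat_lit 0, nat_lit 7052, nat_lit 0, nat_lit 0, nat_lit 5392, nat_lit 7074, nat_lit 2433, nat_lit 0, nat_lit 0, nat_lit 0, nat_lit 0, nat_lit 0, nat_lit 0, nat_lit 0, nat_lit 0, nat_lit 0, nat_lit 0, nat_lit 0, [],
 ⟨p090_k5, nat_lit 0, nat_lit 0, nat_lit 636, nat_lit 0, nat_lit 1301372, [nat_lit 2032000001, nat_lit 4688000000, nat_lit 6250000000], [], [nat_lit 31057421174, nat_lit 31196438218, nat_lit 36680605116, nat_lit 37001781880, nat_lit 29383910190, nat_lit 29500232474, nat_lit 32241294442, nat_lit 32320970002], nat_lit 1271250, nat_lit 1271250, nat_lit 1271250, nat_lit 1271250, nat_lit 0, nat_lit 1100001, [nat_lit 490000, nat_lit 1100000, nat_lit 1442500], [nat_lit 6, nat_lit 40, nat_lit 40, nat_lit 80, nat_lit 3, nat_lit 271, nat_lit 40, nat_lit 10]⟩, ⟨p090_k3, nat_lit 0, nat_lit 0, nat_lit 90, nat_lit 0, nat_lit 0, [nat_lit 3282000000, nat_lit 6250000000, nat_lit 7968000000], [], [nat_lit 20868646132,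 nat_lit 22388599944, nat_lit 31676317984, nat_lit 32791695056, nat_lit 25205682470, nat_lit 26353727580, nat_lit 34005366274, nat_lit 34842840776], nat_lit 0, nat_lit 0, nat_lit 0, nat_lit 0, nat_lit 0, nat_lit 0, [], [nat_lit 18, nat_lit 40, nat_lit 40, nat_lit 80, nat_lit 2, nat_lit 289, nat_lit 75, nat_lit 8]⟩,
 zbF0, [⟨nat_lit 7, nat_lit 100, nat_lit 85, nat_lit 73, nat_lit 612359210⟩]⟩
noncomputable def p090_l78 : Lf2 := ⟨nat_lit 0, nat_lit 10, [nat_lit 0, nat_lit 5, nat_lit 5, nat_lit 20], false, nat_lit 160, nat_lit 260, nat_lit 160, nat_lit 300, ⟨nat_lit 1000, nat_lit 0, nat_lit 0, nat_lit 0, nat_lit 0, nat_lit 0, nat_lit 0, nat_lit 0, nat_lit 0, nat_lit 0, nat_lit 0, nat_lit 0, nat_lit 0, nat_lit 0, nat_lit 0, nat_lit 0, false, false⟩,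
 nat_lit 0, nat_lit 8328, nat_lit 0, nat_lit 0, nat_lit 6245, nat_lit 7044, nat_lit 472, nat_lit 0, nat_lit 0, nat_lit 0, nat_lit 0, nat_lit 0, nat_lit 0, nat_lit 0, nat_lit 0, nat_lit 0, nat_lit 0, nat_lit 0, [],
 ⟨p090_k0, nat_lit 0, nat_lit 0, nat_lit 492, nat_lit 0, nat_lit 1162853, [nat_lit 2032000001, nat_lit 4688000000, nat_lit 6250000000], [], [nat_lit 28774255200, nat_lit 29152658665, nat_lit 33756706460, nat_lit 34025025835, nat_lit 30151192460, nat_lit 30486842748, nat_lit 34243009165, nat_lit 34462905339], nat_lit 1271250, nat_lit 1271250, nat_lit 1271250, nat_lit 1271250, nat_lit 1100001, nat_lit 1956250, [nat_lit 490000, nat_lit 1100000, nat_lit 1442500], [nat_lit 6, nat_lit 40, nat_lit 40, nat_lit 80, nat_lit 3, nat_lit 289, nat_lit 75, nat_lit 9]⟩, ⟨p090_k1, nat_lit 0, nat_lit 0, nat_lit 86, nat_lit 0, nat_lit 0, [nat_lit 3282000000, nat_lit 6250000000, nat_lit 9842000000], [], [nat_lit 19384041920,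 nat_lit 20900199592, nat_lit 30755070816, nat_lit 31641121984, nat_lit 25147365296, nat_lit 26227351286, nat_lit 33878470516, nat_lit 34663118554], nat_lit 0, nat_lit 0, nat_lit 0, nat_lit 0, nat_lit 0, nat_lit 0, [], [nat_lit 8, nat_lit 40, nat_lit 40, nat_lit 80, nat_lit 1, nat_lit 401, nat_lit 175, nat_lit 11]⟩,
 zbF0, [⟨nat_lit 4, nat_lit 100, nat_lit 79, nat_lit 72, nat_lit 486415113⟩, ⟨nat_lit 7, nat_lit 100, nat_lit 94, nat_lit 75, nat_lit 474512651⟩]⟩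
noncomputable def p090_l79 : Lf2 := ⟨nat_lit 0, nat_lit 10, [nat_lit 0, nat_lit 5, nat_lit 5, nat_lit 20], false, nat_lit 160, nat_lit 260, nat_lit 160, nat_lit 280, ⟨nat_lit 1000, nat_lit 0, nat_lit 0, nat_lit 0, nat_lit 0, nat_lit 0, nat_lit 0, nat_lit 0, nat_lit 0, nat_lit 0, nat_lit 0, nat_lit 0, nat_lit 0, nat_lit 0, nat_lit 0, nat_lit 0, false, false⟩,
 nat_lit 0, nat_lit 8648, nat_lit 0, nat_lit 0, nat_lit 6485, nat_lit 5376, nat_lit 441, nat_lit 0, nat_lit 0, nat_lit 0, nat_lit 0, nat_lit 0, nat_lit 0, nat_lit 0, nat_lit 0, nat_lit 0, nat_lit 0, nat_lit 0, [],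
 ⟨p090_k0, nat_lit 0, nat_lit 0, nat_lit 559, nat_lit 0, nat_lit 1336626, [nat_lit 2032000001, nat_lit 4688000000, nat_lit 6250000000], [], [nat_lit 29824677020, nat_lit 30144624060, nat_lit 31567418620, nat_lit 31851596320, nat_lit 30840317595, nat_lit 31122423205, nat_lit 32221798765, nat_lit 32454930759], nat_lit 1271250, nat_lit 1271250, nat_lit 1271250, nat_lit 1271250, nat_lit 1100001, nat_lit 1956250, [nat_lit 490000, nat_lit 1100000, nat_lit 1442500], [nat_lit 6, nat_lit 40, nat_lit 40, nat_lit 80, nat_lit 3, nat_lit 289, nat_lit 75, nat_lit 9]⟩, ⟨p090_k3, nat_lit 0, nat_lit 0, nat_lit 54, nat_lit 0, nat_lit 0, [nat_lit 3282000000, nat_lit 6250000000, nat_lit 7968000000], [], [nat_lit 18078629232, nat_lit 19576957760, nat_lit 23216233392, nat_lit 24546865408, nat_lit 23022306400, nat_lit 24297007712, nat_lit 27048279432, nat_lit 28070588352], nat_lit 0, nat_lit 0, nat_lit 0, nat_lit 0, nat_lit 0, nat_lit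 0, [], [nat_lit 18, nat_lit 40, nat_lit 40, nat_lit 80, nat_lit 2, nat_lit 289, nat_lit 75, nat_lit 8]⟩,
 zbF0, [⟨nat_lit 4, nat_lit 100, nat_lit 79, nat_lit 72, nat_lit 454922200⟩, ⟨nat_lit 7, nat_lit 100, nat_lit 85, nat_lit 73, nat_lit 663078809⟩]⟩
noncomputable def p090_l80 : Lf2 := ⟨nat_lit 0, nat_lit 10, [nat_lit 0, nat_lit 5, nat_lit 5, nat_lit 20], false, nat_lit 160, nat_lit 260, nat_lit 160, nat_lit 280, ⟨nat_lit 1000, nat_lit 0, nat_lit 0, nat_lit 0, nat_lit 0, nat_lit 0, nat_lit 0, nat_lit 0, nat_lit 0, nat_lit 0, nat_lit 0, nat_lit 0, nat_lit 0, nat_lit 0, nat_lit 0, nat_lit 0, false, false⟩,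
 nat_lit 0, nat_lit 7987, nat_lit 0, nat_lit 0, nat_lit 5990, nat_lit 4729, nat_lit 406, nat_lit 0, nat_lit 0, nat_lit 2405, nat_lit 0, nat_lit 0, nat_lit 0, nat_lit 0, nat_lit 0, nat_lit 0, nat_lit 0, nat_lit 0, [],
 ⟨p090_k0, nat_lit 0, nat_lit 0, nat_lit 559, nat_lit 0, nat_lit 1336626, [nat_lit 2032000001, nat_lit 4688000000, nat_lit 6250000000], [], [nat_lit 34306817842, nat_lit 34531238422, nat_lit 36461558040, nat_lit 36683555170, nat_lit 34870754912, nat_lit 35069399537, nat_lit 36807524780, nat_lit 36989474203], nat_lit 1271250, nat_lit 1271250, nat_lit 1271250, nat_lit 1271250, nat_lit 1100001, nat_lit 1956250, [nat_lit 490000, nat_lit 1100000, nat_lit 1442500], [nat_lit 6, nat_lit 40, nat_lit 40, nat_lit 80, nat_lit 3, nat_lit 289, nat_lit 75, nat_lit 9]⟩, ⟨p090_k3, nat_lit 0, nat_lit 0, nat_lit 90, nat_lit 0, nat_lit 0, [nat_lit 3282000000, nat_lit 6250000000, nat_lit 7968000000], [], [nat_lit 24165468638,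 nat_lit 25186254380, nat_lit 29045385594, nat_lit 29836095824, nat_lit 27383576176, nat_lit 28186125344, nat_lit 31409917929, nat_lit 32144861996], nat_lit 0, nat_lit 0, nat_lit 0, nat_lit 0, nat_lit 0, nat_lit 0, [], [nat_lit 18, nat_lit 40, nat_lit 40, nat_lit 80, nat_lit 2, nat_lit 289, nat_lit 75, nat_lit 8]⟩,
 zbF0, [⟨nat_lit 16, nat_lit 79, nat_lit 100, nat_lit 72, nat_lit 416455835⟩, ⟨nat_lit 7, nat_lit 100, nat_lit 85, nat_lit 73, nat_lit 516342962⟩]⟩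
noncomputable def p090_l81 : Lf2 := ⟨nat_lit 0, nat_lit 10, [nat_lit 0, nat_lit 5, nat_lit 5, nat_lit 20], false, nat_lit 0, nat_lit 244, nat_lit 160, nat_lit 300, ⟨nat_lit 1000, nat_lit 0, nat_lit 0, nat_lit 0, nat_lit 0, nat_lit 0, nat_lit 0, nat_lit 0, nat_lit 0, nat_lit 0, nat_lit 0, nat_lit 0, nat_lit 0, nat_lit 0, nat_lit 0, nat_lit 0, false, false⟩,
 nat_lit 0, nat_lit 6355, nat_lit 0, nat_lit 0, nat_lit 4953, nat_lit 6882, nat_lit 2029, nat_lit 0, nat_lit 0, nat_lit 0, nat_lit 0, nat_lit 0, nat_lit 0, nat_lit 0, nat_lit 0, nat_lit 0, nat_lit 0, nat_lit 0, [],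
 ⟨p090_k2, nat_lit 0, nat_lit 0, nat_lit 653, nat_lit 0, nat_lit 1344089, [nat_lit 2032000001, nat_lit 4688000000, nat_lit 6250000000], [], [nat_lit 28035177578, nat_lit 28400203328, nat_lit 35747607170, nat_lit 36364000872, nat_lit 28269444144, nat_lit 28537956545, nat_lit 31920235943, nat_lit 32262331979], nat_lit 1271250, nat_lit 1271250, nat_lit 1271250, nat_lit 1271250, nat_lit 0, nat_lit 1723250, [nat_lit 490000, nat_lit 1100000, nat_lit 1442500], [nat_lit 6, nat_lit 40, nat_lit 40, nat_lit 80, nat_lit 3, nat_lit 289, nat_lit 75, nat_lit 10]⟩, ⟨p090_k1, nat_lit 0, nat_lit 0, nat_lit 90, nat_lit 0, nat_lit 0, [nat_lit 3282000000, nat_lit 6250000000, nat_lit 9842000000], [], [nat_lit 19574929760, nat_lit 22566246792, nat_lit 30795560448, nat_lit 32550953456, nat_lit 25291102388, nat_lit 27426686078, nat_lit 33701122798, nat_lit 35258191276], nat_lit 0, nat_lit 0, nat_lit 0, nat_lit 0, nat_lit 0, nat_lit 0, [],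 [nat_lit 8, nat_lit 40, nat_lit 40, nat_lit 80, nat_lit 1, nat_lit 401, nat_lit 175, nat_lit 11]⟩,
 zbF0, [⟨nat_lit 16, nat_lit 74, nat_lit 100, nat_lit 72, nat_lit 155571119⟩, ⟨nat_lit 7, nat_lit 100, nat_lit 90, nat_lit 74, nat_lit 556689054⟩]⟩
noncomputable def p090_l82 : Lf2 := ⟨nat_lit 0, nat_lit 10, [nat_lit 0, nat_lit 5, nat_lit 5, nat_lit 20], false, nat_lit 0, nat_lit 232, nat_lit 160, nat_lit 300, ⟨nat_lit 1000, nat_lit 0, nat_lit 0, nat_lit 0, nat_lit 0, nat_lit 0, nat_lit 0, nat_lit 0, nat_lit 0, nat_lit 0, nat_lit 0, nat_lit 0, nat_lit 0, nat_lit 0, nat_lit 0, nat_lit 0, false, false⟩,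
 nat_lit 0, nat_lit 6113, nat_lit 0, nat_lit 0, nat_lit 4948, nat_lit 6882, nat_lit 1083, nat_lit 0, nat_lit 0, nat_lit 0, nat_lit 0, nat_lit 0, nat_lit 0, nat_lit 0, nat_lit 0, nat_lit 0, nat_lit 0, nat_lit 0, [],
 ⟨p090_k4, nat_lit 0, nat_lit 0, nat_lit 692, nat_lit 0, nat_lit 1428878, [nat_lit 2032000001, nat_lit 4688000000, nat_lit 6250000000], [], [nat_lit 29116105705, nat_lit 29794831169, nat_lit 36349420752, nat_lit 37581616816, nat_lit 29047515857, nat_lit 29612180604, nat_lit 32826611346, nat_lit 33269777495], nat_lit 1271250, nat_lit 1271250, nat_lit 1271250, nat_lit 1271250, nat_lit 0, nat_lit 1638500, [nat_lit 490000, nat_lit 1100000, nat_lit 1442500], [nat_lit 6, nat_lit 40, nat_lit 40, nat_lit 80, nat_lit 3, nat_lit 297, nat_lit 60, nat_lit 10]⟩, ⟨p090_k1, nat_lit 0, nat_lit 0, nat_lit 90, nat_lit 0, nat_lit 0, [nat_lit 3282000000, nat_lit 6250000000, nat_lit 9842000000], [], [nat_lit 19574929760,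 nat_lit 22566246792, nat_lit 30795560448, nat_lit 32550953456, nat_lit 25291102388, nat_lit 27426686078, nat_lit 33701122798, nat_lit 35258191276], nat_lit 0, nat_lit 0, nat_lit 0, nat_lit 0, nat_lit 0, nat_lit 0, [], [nat_lit 8, nat_lit 40, nat_lit 40, nat_lit 80, nat_lit 1, nat_lit 401, nat_lit 175, nat_lit 11]⟩,
 zbF0, [⟨nat_lit 4, nat_lit 100, nat_lit 66, nat_lit 72, nat_lit 149379610⟩, ⟨nat_lit 7, nat_lit 100, nat_lit 90, nat_lit 74, nat_lit 546675841⟩]⟩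
noncomputable def b_V_800_700_10_13 : St := ⟨true, nat_lit 1, nat_lit 0, nat_lit 2, nat_lit 80, nat_lit 320, nat_lit 360, nat_lit 280, nat_lit 320, nat_lit 240, nat_lit 400, nat_lit 40, nat_lit 80, nat_lit 0, nat_lit 260, nat_lit 0, nat_lit 300, nat_lit 0, nat_lit 40, nat_lit 0, nat_lit 0, nat_lit 0, nat_lit 0⟩
theorem d_V_800_700_10_13 (h : EB TB.env) : Dead b_V_800_700_10_13 := chkB_sound0 h (T :=
(.spl (nat_lit 5) (nat_lit 160)
(.spl (nat_lit 0) (nat_lit 340)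
(.spl (nat_lit 1) (nat_lit 300)
(.spl (nat_lit 0) (nat_lit 330)
(.leaf p090_l69)
(.trX (nat_lit 16) (nat_lit 78) (nat_lit 100) (nat_lit 82) (nat_lit 244) (.leaf p090_l70)))
(.spl (nat_lit 3) (nat_lit 60)
(.trX (nat_lit 16) (nat_lit 81) (nat_lit 100) (nat_lit 72) (nat_lit 232) (.spl (nat_lit 0) (nat_lit 330)
(.leaf p090_l71)
(.trX (nat_lit 16) (nat_lit 76) (nat_lit 100) (nat_lit 72) (nat_lit 220) (.leaf p090_l72))))
(.leaf p090_l73)))
(.trX (nat_lit 16) (nat_lit 72) (nat_lit 100) (nat_lit 81) (nat_lit 232) (.leaf p090_l74)))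
(.spl (nat_lit 0) (nat_lit 340)
(.spl (nat_lit 0) (nat_lit 330)
(.spl (nat_lit 4) (nat_lit 160)
(.spl (nat_lit 1) (nat_lit 300)
(.leaf p090_l75)
(.trX (nat_lit 19) (nat_lit 94) (nat_lit 100) (nat_lit 87) (nat_lit 280) (.spl (nat_lit 0) (nat_lit 325)
(.leaf p090_l76)
(.leaf p090_l77))))
(.spl (nat_lit 1) (nat_lit 300)
(.leaf p090_l78)
(.trX (nat_lit 19) (nat_lit 94) (nat_lit 100) (nat_lit 87) (nat_lit 280) (.spl (nat_lit 2) (nat_lit 320)
(.leaf p090_l79)
(.leaf p090_l80)))))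
(.trX (nat_lit 16) (nat_lit 78) (nat_lit 100) (nat_lit 82) (nat_lit 244) (.leaf p090_l81)))
(.trX (nat_lit 16) (nat_lit 72) (nat_lit 100) (nat_lit 81) (nat_lit 232) (.leaf p090_l82))))) (by decide +kernel)
noncomputable def p090_l83 : Lf2 := ⟨nat_lit 0, nat_lit 10, [nat_lit 0, nat_lit 5, nat_lit 5, nat_lit 20], false, nat_lit 0, nat_lit 260, nat_lit 0, nat_lit 300, ⟨nat_lit 317, nat_lit 683, nat_lit 0, nat_lit 7, nat_lit 198, nat_lit 683, nat_lit 89, nat_lit 0, nat_lit 0, nat_lit 0, nat_lit 0, nat_lit 0, nat_lit 0, nat_lit 0, nat_lit 0, nat_lit 5000000, false, false⟩,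
 nat_lit 5547, nat_lit 942, nat_lit 0, nat_lit 0, nat_lit 4866, nat_lit 3529, nat_lit 21, nat_lit 0, nat_lit 0, nat_lit 465, nat_lit 0, nat_lit 0, nat_lit 0, nat_lit 0, nat_lit 0, nat_lit 683000, nat_lit 0, nat_lit 0, [(nat_lit 18, [(nat_lit 2, nat_lit 683)]), (nat_lit 21, [(nat_lit 2, nat_lit 683)])],
 ⟨p090_k0, nat_lit 0, nat_lit 0, nat_lit 483, nat_lit 0, nat_lit 856961, [nat_lit 1806518934, nat_lit 2200058667, nat_lit 1678544400], [], [nat_lit 22324202969, nat_lit 24054467741, nat_lit 22522244642, nat_lit 24334090077, nat_lit 23131261350, nat_lit 24571944556, nat_lit 25635177914, nat_lit 24645161140], nat_lit 1271250, nat_lit 1271250, nat_lit 631250, nat_lit 1100001, nat_lit 0, nat_lit 1836250, [nat_lit 490000, nat_lit 1100000, nat_lit 1442500], [nat_lit 6, nat_lit 40, nat_lit 40, nat_lit 80, nat_lit 3, nat_lit 345, nat_lit 125, nat_lit 13]⟩, ⟨p090_k1, nat_lit 0, nat_lit 0, nat_lit 719, nat_lit 0, nat_lit 1044875,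 [nat_lit 1040394000, nat_lit 1981250000, nat_lit 3119914000], [], [nat_lit 10110476798, nat_lit 8997500348, nat_lit 6245380849, nat_lit 8676386152, nat_lit 9039385187, nat_lit 8751578408, nat_lit 11527556957, nat_lit 8431695830], nat_lit 1271250, nat_lit 1271250, nat_lit 631250, nat_lit 1100001, nat_lit 0, nat_lit 2118750, [nat_lit 780000, nat_lit 1435000, nat_lit 1271250], [nat_lit 8, nat_lit 40, nat_lit 40, nat_lit 80, nat_lit 1, nat_lit 345, nat_lit 125, nat_lit 10]⟩,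
 ⟨nat_lit 3162, nat_lit 4473, ⟨.ofNat (nat_lit 415764), .ofNat (nat_lit 517847), .ofNat (nat_lit 458716), .ofNat (nat_lit 560799), .ofNat (nat_lit 435680), .ofNat (nat_lit 527226), .ofNat (nat_lit 479808), .ofNat (nat_lit 571355)⟩, ⟨.negSucc (nat_lit 12437), .ofNat (nat_lit 429433), .ofNat (nat_lit 0), .ofNat (nat_lit 472567), .ofNat (nat_lit 0), .ofNat (nat_lit 414188), .ofNat (nat_lit 0), .ofNat (nat_lit 458499)⟩⟩, [⟨nat_lit 0, nat_lit 90, nat_lit 74, nat_lit 100, nat_lit 78205833⟩, ⟨nat_lit 4, nat_lit 100, nat_lit 71, nat_lit 71, nat_lit 267890936⟩, ⟨nat_lit 7, nat_lit 100, nat_lit 90, nat_lit 74, nat_lit 79814136⟩]⟩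
noncomputable def p090_l84 : Lf2 := ⟨nat_lit 0, nat_lit 10, [nat_lit 0, nat_lit 5, nat_lit 5, nat_lit 20], false, nat_lit 0, nat_lit 260, nat_lit 0, nat_lit 300, ⟨nat_lit 392, nat_lit 608, nat_lit 0, nat_lit 7, nat_lit 244, nat_lit 608, nat_lit 89, nat_lit 0, nat_lit 0, nat_lit 0, nat_lit 0, nat_lit 0, nat_lit 0, nat_lit 0, nat_lit 0, nat_lit 5000000, false, false⟩,
 nat_lit 5989, nat_lit 557, nat_lit 0, nat_lit 0, nat_lit 4909, nat_lit 3810, nat_lit 86, nat_lit 0, nat_lit 0, nat_lit 408, nat_lit 0, nat_lit 0, nat_lit 0, nat_lit 0, nat_lit 0, nat_lit 608000, nat_lit 0, nat_lit 0, [(nat_lit 18, [(nat_lit 2, nat_lit 608)]), (nat_lit 21, [(nat_lit 2, nat_lit 608)])],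
 ⟨p090_k0, nat_lit 0, nat_lit 0, nat_lit 463, nat_lit 0, nat_lit 856961, [nat_lit 1831278934, nat_lit 2473258667, nat_lit 2180534400], [], [nat_lit 23704034362, nat_lit 25555932661, nat_lit 25212896321, nat_lit 26845853972, nat_lit 24438847423, nat_lit 25762950184, nat_lit 27264831564, nat_lit 26532338394], nat_lit 1271250, nat_lit 1271250, nat_lit 1100001, nat_lit 1785000, nat_lit 0, nat_lit 1836250, [nat_lit 490000, nat_lit 1100000, nat_lit 1442500], [nat_lit 6, nat_lit 40, nat_lit 40, nat_lit 80, nat_lit 3, nat_lit 345, nat_lit 125, nat_lit 13]⟩, ⟨p090_k1, nat_lit 0, nat_lit 0, nat_lit 681, nat_lit 0, nat_lit 1044875, [nat_lit 1286544000, nat_lit 2450000000, nat_lit 3858064000], [], [nat_lit 13353395544, nat_lit 10455345968, nat_lit 10094812272, nat_lit 11722407840, nat_lit 9396104212, nat_lit 10004164684, nat_lit 14096110114, nat_lit 10803772954], nat_lit 1271250, nat_lit 1271250, nat_lit 1100001, nat_lit 1785000,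 nat_lit 0, nat_lit 2118750, [nat_lit 780000, nat_lit 1435000, nat_lit 1271250], [nat_lit 8, nat_lit 40, nat_lit 40, nat_lit 80, nat_lit 1, nat_lit 373, nat_lit 150, nat_lit 11]⟩,
 ⟨nat_lit 3162, nat_lit 4473, ⟨.ofNat (nat_lit 517847), .ofNat (nat_lit 653959), .ofNat (nat_lit 560799), .ofNat (nat_lit 696911), .ofNat (nat_lit 527226), .ofNat (nat_lit 649288), .ofNat (nat_lit 571355), .ofNat (nat_lit 693416)⟩, ⟨.negSucc (nat_lit 12437), .ofNat (nat_lit 429433), .ofNat (nat_lit 0), .ofNat (nat_lit 472567), .ofNat (nat_lit 0), .ofNat (nat_lit 414188), .ofNat (nat_lit 0), .ofNat (nat_lit 458499)⟩⟩, [⟨nat_lit 4, nat_lit 100, nat_lit 71, nat_lit 71, nat_lit 217462796⟩, ⟨nat_lit 7, nat_lit 100, nat_lit 90, nat_lit 74, nat_lit 84335475⟩]⟩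
noncomputable def p090_l85 : Lf2 := ⟨nat_lit 0, nat_lit 10, [nat_lit 0, nat_lit 5, nat_lit 5, nat_lit 20], false, nat_lit 0, nat_lit 260, nat_lit 0, nat_lit 300, ⟨nat_lit 469, nat_lit 531, nat_lit 0, nat_lit 7, nat_lit 317, nat_lit 531, nat_lit 89, nat_lit 0, nat_lit 0, nat_lit 0, nat_lit 0, nat_lit 0, nat_lit 0, nat_lit 0, nat_lit 0, nat_lit 5000000, true, true⟩,
 nat_lit 5660, nat_lit 0, nat_lit 0, nat_lit 0, nat_lit 4245, nat_lit 3601, nat_lit 54, nat_lit 0, nat_lit 0, nat_lit 292, nat_lit 0, nat_lit 0, nat_lit 0, nat_lit 0, nat_lit 0, nat_lit 531000, nat_lit 0, nat_lit 0, [(nat_lit 18, [(nat_lit 2, nat_lit 531)]), (nat_lit 21, [(nat_lit 2, nat_lit 531)])],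
 ⟨p090_k0, nat_lit 0, nat_lit 0, nat_lit 444, nat_lit 0, nat_lit 793297, [nat_lit 1856699201, nat_lit 2753744000, nat_lit 2695910800], [], [nat_lit 29888017201, nat_lit 31256123301, nat_lit 34354235881, nat_lit 35448509540, nat_lit 30197787911, nat_lit 31227314326, nat_lit 33704219676, nat_lit 34502515296], nat_lit 1271250, nat_lit 1271250, nat_lit 1271250, nat_lit 1271250, nat_lit 0, nat_lit 1836250, [nat_lit 490000, nat_lit 1100000, nat_lit 1442500], [nat_lit 6, nat_lit 40, nat_lit 40, nat_lit 80, nat_lit 3, nat_lit 289, nat_lit 75, nat_lit 10]⟩, ⟨p090_k1, nat_lit 0, nat_lit 0, nat_lit 619, nat_lit 0, nat_lit 967250, [nat_lit 1539258000, nat_lit 2931250000, nat_lit 4615898000], [], [nat_lit 16323595644, nat_lit 16566444938, nat_lit 18811303944, nat_lit 19431747766, nat_lit 14703162826, nat_lit 14829765059, nat_lit 16214538640, nat_lit 16593760939], nat_lit 1271250, nat_lit 1271250, nat_lit 1271250, nat_lit 1271250,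 nat_lit 0, nat_lit 2118750, [nat_lit 780000, nat_lit 1435000, nat_lit 1271250], [nat_lit 8, nat_lit 40, nat_lit 40, nat_lit 80, nat_lit 1, nat_lit 401, nat_lit 175, nat_lit 11]⟩,
 ⟨nat_lit 3162, nat_lit 4473, ⟨.ofNat (nat_lit 653959), .ofNat (nat_lit 926092), .ofNat (nat_lit 675435), .ofNat (nat_lit 947591), .ofNat (nat_lit 649288), .ofNat (nat_lit 893321), .ofNat (nat_lit 671352), .ofNat (nat_lit 915409)⟩, ⟨.negSucc (nat_lit 12437), .ofNat (nat_lit 429433), .ofNat (nat_lit 0), .ofNat (nat_lit 472567), .ofNat (nat_lit 0), .ofNat (nat_lit 414188), .ofNat (nat_lit 0), .ofNat (nat_lit 458499)⟩⟩, [⟨nat_lit 16, nat_lit 71, nat_lit 100, nat_lit 71, nat_lit 201925616⟩, ⟨nat_lit 7, nat_lit 100, nat_lit 94, nat_lit 75, nat_lit 53209092⟩]⟩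
noncomputable def p090_l86 : Lf2 := ⟨nat_lit 0, nat_lit 10, [nat_lit 0, nat_lit 5, nat_lit 5, nat_lit 20], false, nat_lit 0, nat_lit 260, nat_lit 0, nat_lit 280, ⟨nat_lit 1000, nat_lit 0, nat_lit 0, nat_lit 0, nat_lit 0, nat_lit 0, nat_lit 0, nat_lit 0, nat_lit 0, nat_lit 0, nat_lit 0, nat_lit 0, nat_lit 0, nat_lit 0, nat_lit 0, nat_lit 0, false, false⟩,
 nat_lit 8980, nat_lit 0, nat_lit 0, nat_lit 0, nat_lit 6734, nat_lit 6216, nat_lit 394, nat_lit 0, nat_lit 0, nat_lit 1232, nat_lit 0, nat_lit 0, nat_lit 0, nat_lit 0, nat_lit 0, nat_lit 0, nat_lit 0, nat_lit 0, [],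
 ⟨p090_k0, nat_lit 0, nat_lit 0, nat_lit 464, nat_lit 0, nat_lit 856961, [nat_lit 2032000001, nat_lit 4688000000, nat_lit 6250000000], [], [nat_lit 30225972280, nat_lit 31979369712, nat_lit 40114016904, nat_lit 43000862328, nat_lit 28197441136, nat_lit 29393300662, nat_lit 33818326220, nat_lit 35879800182], nat_lit 1271250, nat_lit 1271250, nat_lit 1271250, nat_lit 1271250, nat_lit 0, nat_lit 1836250, [nat_lit 490000, nat_lit 1100000, nat_lit 1442500], [nat_lit 6, nat_lit 40, nat_lit 40, nat_lit 80, nat_lit 3, nat_lit 289, nat_lit 75, nat_lit 10]⟩, ⟨p090_k3, nat_lit 0, nat_lit 0, nat_lit 548, nat_lit 0, nat_lit 943265, [nat_lit 3282000000, nat_lit 6250000000, nat_lit 7968000000], [], [nat_lit 28196200064, nat_lit 28810574832, nat_lit 37474288176, nat_lit 38664779296, nat_lit 27137424648, nat_lit 27523534528, nat_lit 33055731016, nat_lit 33855691184], nat_lit 1271250, nat_lit 1271250, nat_lit 1271250, nat_lit 1271250,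 nat_lit 0, nat_lit 1977500, [nat_lit 780000, nat_lit 1435000, nat_lit 1271250], [nat_lit 18, nat_lit 40, nat_lit 40, nat_lit 80, nat_lit 2, nat_lit 289, nat_lit 75, nat_lit 9]⟩,
 zbF0, [⟨nat_lit 4, nat_lit 100, nat_lit 71, nat_lit 71, nat_lit 67253783⟩, ⟨nat_lit 7, nat_lit 100, nat_lit 85, nat_lit 73, nat_lit 144803042⟩]⟩
noncomputable def b_V_800_700_10_14 : St := ⟨true, nat_lit 1, nat_lit 1, nat_lit 2, nat_lit 80, nat_lit 320, nat_lit 360, nat_lit 280, nat_lit 320, nat_lit 100, nat_lit 400, nat_lit 40, nat_lit 80, nat_lit 0, nat_lit 260, nat_lit 0, nat_lit 300, nat_lit 0, nat_lit 40, nat_lit 0, nat_lit 0, nat_lit 0, nat_lit 0⟩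
theorem d_V_800_700_10_14 (h : EB TB.env) : Dead b_V_800_700_10_14 := chkB_sound0 h (T :=
(.spl (nat_lit 2) (nat_lit 240)
(.spl (nat_lit 2) (nat_lit 160)
(.leaf p090_l83)
(.leaf p090_l84))
(.spl (nat_lit 1) (nat_lit 300)
(.leaf p090_l85)
(.trX (nat_lit 19) (nat_lit 94) (nat_lit 100) (nat_lit 87) (nat_lit 280) (.leaf p090_l86))))) (by decide +kernel)
noncomputable def p090_l87 : Lf2 := ⟨nat_lit 0, nat_lit 20, [nat_lit 5, nat_lit 5, nat_lit 5, nat_lit 20], false, nat_lit 0, nat_lit 260, nat_lit 0, nat_lit 300, ⟨nat_lit 1000, nat_lit 0, nat_lit 0, nat_lit 0, nat_lit 0, nat_lit 0, nat_lit 0, nat_lit 0, nat_lit 0, nat_lit 0, nat_lit 0, nat_lit 0, nat_lit 0, nat_lit 0, nat_lit 0, nat_lit 0, false, false⟩,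
 nat_lit 0, nat_lit 0, nat_lit 0, nat_lit 4968, nat_lit 11688, nat_lit 17716, nat_lit 399, nat_lit 0, nat_lit 0, nat_lit 391, nat_lit 0, nat_lit 0, nat_lit 0, nat_lit 0, nat_lit 0, nat_lit 0, nat_lit 0, nat_lit 0, [],
 ⟨p090_k18, nat_lit 0, nat_lit 0, nat_lit 217, nat_lit 0, nat_lit 0, [nat_lit 2032000001, nat_lit 6250000000, nat_lit 9842000000], [], [nat_lit 31278477415, nat_lit 39027472256, nat_lit 32810718240, nat_lit 40202571904, nat_lit 24358358115, nat_lit 30143148960, nat_lit 25383196712, nat_lit 30263659080], nat_lit 0, nat_lit 0, nat_lit 0, nat_lit 0, nat_lit 0, nat_lit 0, [], [nat_lit 61, nat_lit 40, nat_lit 40, nat_lit 80, nat_lit 1, nat_lit 345, nat_lit 125, nat_lit 10]⟩, ⟨p090_k19, nat_lit 0, nat_lit 0, nat_lit 246, nat_lit 0, nat_lit 0, [nat_lit 3282000000, nat_lit 7968000000, nat_lit 11872000000], [], [nat_lit 36972173655, nat_lit 43405411295, nat_lit 36947170223, nat_lit 41710939680, nat_lit 26923971585,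 nat_lit 32566961398, nat_lit 26534650928, nat_lit 31631920500], nat_lit 0, nat_lit 0, nat_lit 0, nat_lit 0, nat_lit 0, nat_lit 0, [], [nat_lit 79, nat_lit 40, nat_lit 40, nat_lit 80, nat_lit 14, nat_lit 456, nat_lit 225, nat_lit 12]⟩,
 zbF0, [⟨nat_lit 0, nat_lit 90, nat_lit 74, nat_lit 100, nat_lit 415631525⟩, ⟨nat_lit 0, nat_lit 100, nat_lit 87, nat_lit 95, nat_lit 218554109⟩]⟩
noncomputable def p090_l88 : Lf2 := ⟨nat_lit 0, nat_lit 20, [nat_lit 5, nat_lit 5, nat_lit 5, nat_lit 20], false, nat_lit 0, nat_lit 260, nat_lit 0, nat_lit 300, ⟨nat_lit 1000, nat_lit 0, nat_lit 0, nat_lit 0, nat_lit 0, nat_lit 0, nat_lit 0, nat_lit 0, nat_lit 0, nat_lit 0, nat_lit 0, nat_lit 0, nat_lit 0, nat_lit 0, nat_lit 0, nat_lit 0, false, false⟩,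
 nat_lit 0, nat_lit 0, nat_lit 0, nat_lit 158, nat_lit 8154, nat_lit 10302, nat_lit 102, nat_lit 0, nat_lit 0, nat_lit 219, nat_lit 0, nat_lit 0, nat_lit 0, nat_lit 0, nat_lit 0, nat_lit 0, nat_lit 0, nat_lit 0, [],
 ⟨p090_k18, nat_lit 0, nat_lit 0, nat_lit 225, nat_lit 0, nat_lit 0, [nat_lit 2032000001, nat_lit 6250000000, nat_lit 9842000000], [], [nat_lit 34111765262, nat_lit 37654066510, nat_lit 44679539350, nat_lit 47309556968, nat_lit 29824324498, nat_lit 32063942914, nat_lit 36773136682, nat_lit 38244424204], nat_lit 0, nat_lit 0, nat_lit 0, nat_lit 0, nat_lit 0, nat_lit 0, [], [nat_lit 61, nat_lit 40, nat_lit 40, nat_lit 80, nat_lit 1, nat_lit 401, nat_lit 175, nat_lit 11]⟩, ⟨p090_k19, nat_lit 0, nat_lit 0, nat_lit 252, nat_lit 0, nat_lit 0, [nat_lit 3282000000, nat_lit 7968000000, nat_lit 11872000000], [], [nat_lit 35895348419, nat_lit 38981662851, nat_lit 47943324675, nat_lit 50096410312, nat_lit 30524083457,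 nat_lit 32342460709, nat_lit 37523168487, nat_lit 39260336836], nat_lit 0, nat_lit 0, nat_lit 0, nat_lit 0, nat_lit 0, nat_lit 0, [], [nat_lit 79, nat_lit 40, nat_lit 40, nat_lit 80, nat_lit 14, nat_lit 538, nat_lit 300, nat_lit 13]⟩,
 zbF0, []⟩
noncomputable def b_V_800_700_10_15 : St := ⟨true, nat_lit 0, nat_lit 0, nat_lit 1, nat_lit 80, nat_lit 320, nat_lit 360, nat_lit 280, nat_lit 320, nat_lit 100, nat_lit 400, nat_lit 40, nat_lit 80, nat_lit 0, nat_lit 260, nat_lit 0, nat_lit 300, nat_lit 40, nat_lit 80, nat_lit 0, nat_lit 0, nat_lit 0, nat_lit 0⟩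
theorem d_V_800_700_10_15 (h : EB TB.env) : Dead b_V_800_700_10_15 := chkB_sound0 h (T :=
(.spl (nat_lit 2) (nat_lit 240)
(.leaf p090_l87)
(.leaf p090_l88))) (by decide +kernel)
noncomputable def p090_l89 : Lf2 := ⟨nat_lit 0, nat_lit 20, [nat_lit 5, nat_lit 5, nat_lit 5, nat_lit 20], false, nat_lit 0, nat_lit 80, nat_lit 0, nat_lit 300, ⟨nat_lit 135, nat_lit 0, nat_lit 865, nat_lit 7, nat_lit 193, nat_lit 213, nat_lit 30, nat_lit 865, nat_lit 8067, nat_lit 237, nat_lit 7971, nat_lit 235, nat_lit 54388864, nat_lit 0, nat_lit 0, nat_lit 2418200, false, false⟩,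
 nat_lit 0, nat_lit 0, nat_lit 1917, nat_lit 0, nat_lit 2671, nat_lit 1219, nat_lit 231, nat_lit 0, nat_lit 0, nat_lit 0, nat_lit 0, nat_lit 0, nat_lit 0, nat_lit 0, nat_lit 66, nat_lit 346000, nat_lit 0, nat_lit 0, [(nat_lit 19, [(nat_lit 5, nat_lit 865)])],
 ⟨p090_k20, nat_lit 0, nat_lit 0, nat_lit 193, nat_lit 0, nat_lit 0, [nat_lit 1605732001, nat_lit 1313124001, nat_lit 284110000], [], [nat_lit 16259207710, nat_lit 17504320496, nat_lit 17084948444, nat_lit 18193767874, nat_lit 15481126476, nat_lit 16610080302, nat_lit 16338943240, nat_lit 17521128914], nat_lit 0, nat_lit 0, nat_lit 0, nat_lit 0, nat_lit 0, nat_lit 0, [], [nat_lit 27, nat_lit 40, nat_lit 40, nat_lit 80, nat_lit 13, nat_lit 272, nat_lit 60, nat_lit 8]⟩, ⟨p090_k21, nat_lit 0, nat_lit 0, nat_lit 786, nat_lit 0, nat_lit 1034629, [nat_lit 443070000, nat_lit 843750000, nat_lit 1602720000], [], [nat_lit 5030697560, nat_lit 5117418118, nat_lit 4902867960,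 nat_lit 4981505278, nat_lit 4579380168, nat_lit 4734288096, nat_lit 5165684895, nat_lit 4630993097], nat_lit 1271250, nat_lit 1271250, nat_lit 631250, nat_lit 1100001, nat_lit 0, nat_lit 2118750, [nat_lit 780000, nat_lit 1435000, nat_lit 1271250], [nat_lit 23, nat_lit 40, nat_lit 40, nat_lit 80, nat_lit 12, nat_lit 428, nat_lit 200, nat_lit 11]⟩,
 ⟨nat_lit 3872, nat_lit 4473, ⟨.ofNat (nat_lit 416230), .ofNat (nat_lit 518209), .ofNat (nat_lit 437779), .ofNat (nat_lit 539758), .ofNat (nat_lit 425778), .ofNat (nat_lit 522572), .ofNat (nat_lit 447554), .ofNat (nat_lit 544349)⟩, ⟨.negSucc (nat_lit 12427), .ofNat (nat_lit 123532), .ofNat (nat_lit 0), .ofNat (nat_lit 166665), .ofNat (nat_lit 0), .ofNat (nat_lit 132088), .ofNat (nat_lit 0), .ofNat (nat_lit 175674)⟩⟩, [⟨nat_lit 0, nat_lit 97, nat_lit 82, nat_lit 100, nat_lit 81152366⟩, ⟨nat_lit 19, nat_lit 94, nat_lit 100, nat_lit 75, nat_lit 25847008⟩]⟩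
noncomputable def p090_l90 : Lf2 := ⟨nat_lit 0, nat_lit 15, [nat_lit 30, nat_lit 5, nat_lit 5, nat_lit 20], false, nat_lit 0, nat_lit 80, nat_lit 0, nat_lit 276, ⟨nat_lit 108, nat_lit 0, nat_lit 892, nat_lit 7, nat_lit 239, nat_lit 341, nat_lit 28, nat_lit 892, nat_lit 6667, nat_lit 235, nat_lit 80210, nat_lit 200, nat_lit 49374277, nat_lit 0, nat_lit 0, nat_lit 2881219, false, false⟩,
 nat_lit 0, nat_lit 0, nat_lit 1443, nat_lit 0, nat_lit 2674, nat_lit 918, nat_lit 3, nat_lit 0, nat_lit 0, nat_lit 30, nat_lit 0, nat_lit 0, nat_lit 0, nat_lit 0, nat_lit 70, nat_lit 356800, nat_lit 0, nat_lit 0, [(nat_lit 19, [(nat_lit 5, nat_lit 892)])],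
 ⟨p090_k22, nat_lit 0, nat_lit 0, nat_lit 149, nat_lit 0, nat_lit 0, [nat_lit 1607945600, nat_lit 1465387200, nat_lit 49148800], [], [nat_lit 17569380863, nat_lit 18771901703, nat_lit 19912213487, nat_lit 20971971556, nat_lit 16898563551, nat_lit 18033899107, nat_lit 19169589071, nat_lit 20169210875], nat_lit 0, nat_lit 0, nat_lit 0, nat_lit 0, nat_lit 0, nat_lit 0, [], [nat_lit 34, nat_lit 40, nat_lit 40, nat_lit 80, nat_lit 7, nat_lit 317, nat_lit 100, nat_lit 10]⟩, ⟨p090_k23, nat_lit 0, nat_lit 0, nat_lit 658, nat_lit 0, nat_lit 1019294, [nat_lit 354456000, nat_lit 675000000, nat_lit 1062936000], [], [nat_lit 3922103868, nat_lit 3977640492, nat_lit 3934519548, nat_lit 3979399056, nat_lit 3408082675, nat_lit 3438179045, nat_lit 3780469271, nat_lit 3383980903], nat_lit 1271250, nat_lit 1271250, nat_lit 1100001, nat_lit 1785000, nat_lit 0, nat_lit 1949250, [nat_lit 780000, nat_lit 1435000, nat_lit 1271250], [nat_lit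 8, nat_lit 40, nat_lit 40, nat_lit 80, nat_lit 1, nat_lit 373, nat_lit 150, nat_lit 11]⟩,
 ⟨nat_lit 3872, nat_lit 4473, ⟨.ofNat (nat_lit 518209), .ofNat (nat_lit 654181), .ofNat (nat_lit 539758), .ofNat (nat_lit 675730), .ofNat (nat_lit 522572), .ofNat (nat_lit 651631), .ofNat (nat_lit 544349), .ofNat (nat_lit 673407)⟩, ⟨.negSucc (nat_lit 12427), .ofNat (nat_lit 123532), .ofNat (nat_lit 0), .ofNat (nat_lit 145099), .ofNat (nat_lit 0), .ofNat (nat_lit 132088), .ofNat (nat_lit 0), .ofNat (nat_lit 153881)⟩⟩, [⟨nat_lit 10, nat_lit 92, nat_lit 100, nat_lit 38, nat_lit 21167634⟩]⟩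
noncomputable def p090_l91 : Lf2 := ⟨nat_lit 0, nat_lit 20, [nat_lit 5, nat_lit 5, nat_lit 5, nat_lit 20], false, nat_lit 0, nat_lit 80, nat_lit 0, nat_lit 300, ⟨nat_lit 217, nat_lit 0, nat_lit 783, nat_lit 7, nat_lit 237, nat_lit 474, nat_lit 32, nat_lit 783, nat_lit 9600, nat_lit 239, nat_lit 58660, nat_lit 200, nat_lit 49609799, nat_lit 0, nat_lit 0, nat_lit 2862955, false, false⟩,
 nat_lit 0, nat_lit 0, nat_lit 2910, nat_lit 0, nat_lit 2786, nat_lit 1851, nat_lit 250, nat_lit 0, nat_lit 0, nat_lit 0, nat_lit 0, nat_lit 0, nat_lit 0, nat_lit 0, nat_lit 27, nat_lit 313200, nat_lit 0, nat_lit 0, [(nat_lit 19, [(nat_lit 5, nat_lit 783)])],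
 ⟨p090_k20, nat_lit 0, nat_lit 0, nat_lit 178, nat_lit 0, nat_lit 0, [nat_lit 1384194400, nat_lit 1109160800, nat_lit 273362000], [], [nat_lit 18012811138, nat_lit 19140528518, nat_lit 20147145266, nat_lit 21168099392, nat_lit 17180541674, nat_lit 18247606702, nat_lit 19255973338, nat_lit 20345945148], nat_lit 0, nat_lit 0, nat_lit 0, nat_lit 0, nat_lit 0, nat_lit 0, [], [nat_lit 27, nat_lit 40, nat_lit 40, nat_lit 80, nat_lit 13, nat_lit 317, nat_lit 100, nat_lit 9]⟩, ⟨p090_k21, nat_lit 0, nat_lit 0, nat_lit 572, nat_lit 0, nat_lit 704850, [nat_lit 712194000, nat_lit 1356250000, nat_lit 2576224000], [], [nat_lit 8049750884, nat_lit 8132820636, nat_lit 8189951184, nat_lit 8258525850, nat_lit 7264712018, nat_lit 7309492968, nat_lit 8005415015, nat_lit 7599461562], nat_lit 1271250, nat_lit 1271250, nat_lit 1100001, nat_lit 1785000, nat_lit 0, nat_lit 2118750, [nat_lit 780000, nat_lit 1435000, nat_lit 1271250], [nat_lit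 23, nat_lit 40, nat_lit 40, nat_lit 80, nat_lit 12, nat_lit 456, nat_lit 225, nat_lit 12]⟩,
 ⟨nat_lit 3872, nat_lit 4473, ⟨.ofNat (nat_lit 518209), .ofNat (nat_lit 654181), .ofNat (nat_lit 528983), .ofNat (nat_lit 664955), .ofNat (nat_lit 522572), .ofNat (nat_lit 651631), .ofNat (nat_lit 533461), .ofNat (nat_lit 662519)⟩, ⟨.ofNat (nat_lit 0), .ofNat (nat_lit 145099), .ofNat (nat_lit 0), .ofNat (nat_lit 166665), .ofNat (nat_lit 0), .ofNat (nat_lit 153881), .ofNat (nat_lit 0), .ofNat (nat_lit 175674)⟩⟩, [⟨nat_lit 7, nat_lit 100, nat_lit 99, nat_lit 83, nat_lit 1929843⟩, ⟨nat_lit 10, nat_lit 87, nat_lit 100, nat_lit 50, nat_lit 47544008⟩]⟩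
noncomputable def p090_l92 : Lf2 := ⟨nat_lit 0, nat_lit 20, [nat_lit 5, nat_lit 5, nat_lit 5, nat_lit 20], false, nat_lit 0, nat_lit 80, nat_lit 0, nat_lit 292, ⟨nat_lit 504, nat_lit 0, nat_lit 496, nat_lit 7, nat_lit 241, nat_lit 337, nat_lit 32, nat_lit 496, nat_lit 9600, nat_lit 239, nat_lit 80210, nat_lit 200, nat_lit 49138871, nat_lit 0, nat_lit 0, nat_lit 2899156, false, false⟩,
 nat_lit 0, nat_lit 0, nat_lit 5193, nat_lit 0, nat_lit 3163, nat_lit 3448, nat_lit 488, nat_lit 0, nat_lit 0, nat_lit 411, nat_lit 0, nat_lit 0, nat_lit 0, nat_lit 0, nat_lit 0, nat_lit 198400, nat_lit 0, nat_lit 0, [(nat_lit 19, [(nat_lit 5, nat_lit 496)])],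
 ⟨p090_k20, nat_lit 0, nat_lit 0, nat_lit 178, nat_lit 0, nat_lit 0, [nat_lit 1484812800, nat_lit 2147289600, nat_lit 3301744000], [], [nat_lit 19557820704, nat_lit 20747490494, nat_lit 21704764728, nat_lit 22779040936, nat_lit 18442754492, nat_lit 19567160466, nat_lit 20530560804, nat_lit 21673626234], nat_lit 0, nat_lit 0, nat_lit 0, nat_lit 0, nat_lit 0, nat_lit 0, [], [nat_lit 27, nat_lit 40, nat_lit 40, nat_lit 80, nat_lit 13, nat_lit 317, nat_lit 100, nat_lit 9]⟩, ⟨p090_k24, nat_lit 0, nat_lit 0, nat_lit 594, nat_lit 0, nat_lit 739765, [nat_lit 1654128000, nat_lit 3150000000, nat_lit 5983488000], [], [nat_lit 15901328473, nat_lit 16079065785, nat_lit 16292105561, nat_lit 16441692825, nat_lit 14799694026, nat_lit 14905313744, nat_lit 17833450183, nat_lit 17075325838], nat_lit 1271250, nat_lit 1271250, nat_lit 1100001, nat_lit 1785000, nat_lit 0, nat_lit 2062250, [nat_lit 780000, nat_lit 1435000, nat_lit 1271250],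 [nat_lit 23, nat_lit 40, nat_lit 40, nat_lit 80, nat_lit 12, nat_lit 456, nat_lit 225, nat_lit 11]⟩,
 ⟨nat_lit 3872, nat_lit 4473, ⟨.ofNat (nat_lit 528983), .ofNat (nat_lit 664955), .ofNat (nat_lit 539758), .ofNat (nat_lit 675730), .ofNat (nat_lit 533461), .ofNat (nat_lit 662519), .ofNat (nat_lit 544349), .ofNat (nat_lit 673407)⟩, ⟨.ofNat (nat_lit 0), .ofNat (nat_lit 145099), .ofNat (nat_lit 0), .ofNat (nat_lit 166665), .ofNat (nat_lit 0), .ofNat (nat_lit 153881), .ofNat (nat_lit 0), .ofNat (nat_lit 175674)⟩⟩, [⟨nat_lit 19, nat_lit 94, nat_lit 100, nat_lit 81, nat_lit 78543631⟩, ⟨nat_lit 10, nat_lit 89, nat_lit 100, nat_lit 46, nat_lit 22070147⟩]⟩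
noncomputable def p090_l93 : Lf2 := ⟨nat_lit 0, nat_lit 20, [nat_lit 5, nat_lit 5, nat_lit 5, nat_lit 20], true, nat_lit 80, nat_lit 160, nat_lit 0, nat_lit 300, ⟨nat_lit 0, nat_lit 1000, nat_lit 0, nat_lit 7, nat_lit 219, nat_lit 1000, nat_lit 86, nat_lit 0, nat_lit 0, nat_lit 0, nat_lit 0, nat_lit 0, nat_lit 48261967, nat_lit 15172707, nat_lit 3565326, nat_lit 3847004, false, false⟩,
 nat_lit 0, nat_lit 0, nat_lit 0, nat_lit 312, nat_lit 3405, nat_lit 0, nat_lit 0, nat_lit 0, nat_lit 0, nat_lit 0, nat_lit 0, nat_lit 0, nat_lit 0, nat_lit 0, nat_lit 0, nat_lit 250000, nat_lit 0, nat_lit 0, [(nat_lit 19, [(nat_lit 0, nat_lit 1000)])],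
 ⟨p090_k20, nat_lit 0, nat_lit 0, nat_lit 52, nat_lit 0, nat_lit 0, [nat_lit 1542400001, nat_lit 2368400000, nat_lit 3220880000], [], [nat_lit 14282891250, nat_lit 16270005535, nat_lit 18402671220, nat_lit 19973097910, nat_lit 15389450830, nat_lit 17174312135, nat_lit 19236786861, nat_lit 20653349100], nat_lit 0, nat_lit 0, nat_lit 0, nat_lit 0, nat_lit 0, nat_lit 0, [], [nat_lit 27, nat_lit 40, nat_lit 40, nat_lit 80, nat_lit 13, nat_lit 317, nat_lit 100, nat_lit 9]⟩, C1.Rw.none,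
 ⟨nat_lit 3872, nat_lit 4473, ⟨.ofNat (nat_lit 416230), .ofNat (nat_lit 654181), .ofNat (nat_lit 437779), .ofNat (nat_lit 675730), .ofNat (nat_lit 425778), .ofNat (nat_lit 651631), .ofNat (nat_lit 447554), .ofNat (nat_lit 673407)⟩, ⟨.ofNat (nat_lit 123532), .ofNat (nat_lit 259489), .ofNat (nat_lit 166665), .ofNat (nat_lit 302621), .ofNat (nat_lit 132088), .ofNat (nat_lit 261131), .ofNat (nat_lit 175674), .ofNat (nat_lit 304717)⟩⟩, []⟩
noncomputable def p090_l94 : Lf2 := ⟨nat_lit 0, nat_lit 20, [nat_lit 5, nat_lit 5, nat_lit 5, nat_lit 20], false, nat_lit 0, nat_lit 80, nat_lit 0, nat_lit 160, ⟨nat_lit 114, nat_lit 122, nat_lit 764, nat_lit 7, nat_lit 226, nat_lit 296, nat_lit 32, nat_lit 764, nat_lit 9600, nat_lit 239, nat_lit 53738, nat_lit 200, nat_lit 50786481, nat_lit 16213519, nat_lit 0, nat_lit 2766829, false, false⟩,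
 nat_lit 0, nat_lit 0, nat_lit 1580, nat_lit 0, nat_lit 2627, nat_lit 1005, nat_lit 0, nat_lit 0, nat_lit 0, nat_lit 62, nat_lit 0, nat_lit 0, nat_lit 0, nat_lit 0, nat_lit 63, nat_lit 336100, nat_lit 0, nat_lit 0, [(nat_lit 22, [(nat_lit 0, nat_lit 122), (nat_lit 5, nat_lit 764)])],
 ⟨p090_k25, nat_lit 0, nat_lit 0, nat_lit 167, nat_lit 0, nat_lit 0, [nat_lit 1672608001, nat_lit 1166780000, nat_lit 41637334], [], [nat_lit 18470652647, nat_lit 19722942693, nat_lit 21288816587, nat_lit 22350928671, nat_lit 17759840278, nat_lit 18941679241, nat_lit 20684942942, nat_lit 21747009502], nat_lit 0, nat_lit 0, nat_lit 0, nat_lit 0, nat_lit 0, nat_lit 0, [], [nat_lit 34, nat_lit 40, nat_lit 40, nat_lit 80, nat_lit 7, nat_lit 317, nat_lit 100, nat_lit 10]⟩, ⟨p090_k21, nat_lit 0, nat_lit 0, nat_lit 858, nat_lit 0, nat_lit 1241211, [nat_lit 374148000, nat_lit 712500000, nat_lit 1353408000], [], [nat_lit 4791832230, nat_lit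 4526541376, nat_lit 3718493130, nat_lit 3749866470, nat_lit 3209572960, nat_lit 3228757297, nat_lit 3110642646, nat_lit 3124008303], nat_lit 1271250, nat_lit 1271250, nat_lit 810650, nat_lit 1764750, nat_lit 0, nat_lit 1100001, [nat_lit 780000, nat_lit 1435000, nat_lit 1271250], [nat_lit 23, nat_lit 40, nat_lit 40, nat_lit 80, nat_lit 12, nat_lit 401, nat_lit 175, nat_lit 10]⟩,
 ⟨nat_lit 3162, nat_lit 3873, ⟨.ofNat (nat_lit 464406), .ofNat (nat_lit 651611), .ofNat (nat_lit 475288), .ofNat (nat_lit 662494), .ofNat (nat_lit 472632), .ofNat (nat_lit 649490), .ofNat (nat_lit 483694), .ofNat (nat_lit 660553)⟩, ⟨.ofNat (nat_lit 0), .ofNat (nat_lit 132088), .ofNat (nat_lit 0), .ofNat (nat_lit 175674), .ofNat (nat_lit 0), .ofNat (nat_lit 139899), .ofNat (nat_lit 0), .ofNat (nat_lit 184209)⟩⟩, []⟩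
noncomputable def p090_l95 : Lf2 := ⟨nat_lit 0, nat_lit 20, [nat_lit 5, nat_lit 5, nat_lit 5, nat_lit 20], false, nat_lit 0, nat_lit 80, nat_lit 0, nat_lit 160, ⟨nat_lit 166, nat_lit 26, nat_lit 808, nat_lit 7, nat_lit 233, nat_lit 269, nat_lit 32, nat_lit 808, nat_lit 9600, nat_lit 239, nat_lit 75502, nat_lit 200, nat_lit 50035875, nat_lit 16964125, nat_lit 0, nat_lit 2829094, false, false⟩,
 nat_lit 0, nat_lit 0, nat_lit 1989, nat_lit 0, nat_lit 2625, nat_lit 1320, nat_lit 0, nat_lit 0, nat_lit 0, nat_lit 117, nat_lit 0, nat_lit 0, nat_lit 0, nat_lit 0, nat_lit 63, nat_lit 329700, nat_lit 0, nat_lit 0, [(nat_lit 22, [(nat_lit 0, nat_lit 26), (nat_lit 5, nat_lit 808)])],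
 ⟨p090_k25, nat_lit 0, nat_lit 0, nat_lit 166, nat_lit 0, nat_lit 0, [nat_lit 1670688001, nat_lit 1185877600, nat_lit 37058667], [], [nat_lit 18603729419, nat_lit 19842602168, nat_lit 21283156168, nat_lit 22346688503, nat_lit 17896240018, nat_lit 19065566468, nat_lit 20703998102, nat_lit 21765746102], nat_lit 0, nat_lit 0, nat_lit 0, nat_lit 0, nat_lit 0, nat_lit 0, [], [nat_lit 34, nat_lit 40, nat_lit 40, nat_lit 80, nat_lit 7, nat_lit 317, nat_lit 100, nat_lit 10]⟩, ⟨p090_k24, nat_lit 0, nat_lit 0, nat_lit 852, nat_lit 0, nat_lit 1238281, [nat_lit 544812000, nat_lit 1037500000, nat_lit 1970752000], [], [nat_lit 6037212547, nat_lit 5689821546, nat_lit 5257571009, nat_lit 5284405023, nat_lit 4578828092, nat_lit 4606496297, nat_lit 4486640307, nat_lit 4506994515], nat_lit 1271250, nat_lit 1271250, nat_lit 872850, nat_lit 1769250, nat_lit 0, nat_lit 1100001, [nat_lit 780000, nat_lit 1435000, nat_lit 1271250], [nat_lit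 23, nat_lit 40, nat_lit 40, nat_lit 80, nat_lit 12, nat_lit 401, nat_lit 175, nat_lit 10]⟩,
 ⟨nat_lit 3162, nat_lit 3873, ⟨.ofNat (nat_lit 488199), .ofNat (nat_lit 662494), .ofNat (nat_lit 499081), .ofNat (nat_lit 673376), .ofNat (nat_lit 495892), .ofNat (nat_lit 660553), .ofNat (nat_lit 506955), .ofNat (nat_lit 671616)⟩, ⟨.ofNat (nat_lit 0), .ofNat (nat_lit 132088), .ofNat (nat_lit 0), .ofNat (nat_lit 175674), .ofNat (nat_lit 0), .ofNat (nat_lit 139899), .ofNat (nat_lit 0), .ofNat (nat_lit 184209)⟩⟩, []⟩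
noncomputable def p090_l96 : Lf2 := ⟨nat_lit 0, nat_lit 20, [nat_lit 5, nat_lit 5, nat_lit 5, nat_lit 20], false, nat_lit 0, nat_lit 80, nat_lit 160, nat_lit 300, ⟨nat_lit 117, nat_lit 149, nat_lit 734, nat_lit 7, nat_lit 226, nat_lit 883, nat_lit 32, nat_lit 733, nat_lit 9600, nat_lit 239, nat_lit 53738, nat_lit 200, nat_lit 50786481, nat_lit 16213519, nat_lit 0, nat_lit 2766829, false, false⟩,
 nat_lit 0, nat_lit 0, nat_lit 1580, nat_lit 0, nat_lit 2728, nat_lit 1005, nat_lit 0, nat_lit 0, nat_lit 0, nat_lit 90, nat_lit 0, nat_lit 0, nat_lit 0, nat_lit 0, nat_lit 54, nat_lit 330850, nat_lit 0, nat_lit 0, [(nat_lit 22, [(nat_lit 0, nat_lit 149), (nat_lit 5, nat_lit 734)])],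
 ⟨p090_k25, nat_lit 0, nat_lit 0, nat_lit 167, nat_lit 0, nat_lit 0, [nat_lit 1619760000, nat_lit 1114247600, nat_lit 28261334], [], [nat_lit 18653849757, nat_lit 19926531501, nat_lit 21468261062, nat_lit 22548612224, nat_lit 17866172914, nat_lit 19066864173, nat_lit 20629050534, nat_lit 21701091600], nat_lit 0, nat_lit 0, nat_lit 0, nat_lit 0, nat_lit 0, nat_lit 0, [], [nat_lit 34, nat_lit 40, nat_lit 40, nat_lit 80, nat_lit 7, nat_lit 317, nat_lit 100, nat_lit 10]⟩, ⟨p090_k21, nat_lit 0, nat_lit 0, nat_lit 735, nat_lit 0, nat_lit 1241211, [nat_lit 383994000, nat_lit 731250000, nat_lit 1389024000], [], [nat_lit 3042311924, nat_lit 3070541870, nat_lit 2992743090, nat_lit 3021461355, nat_lit 3183736196, nat_lit 3211235357, nat_lit 3131202009, nat_lit 3158311531], nat_lit 1271250, nat_lit 1271250, nat_lit 810650, nat_lit 1764750, nat_lit 1271250, nat_lit 1271250, [nat_lit 780000, nat_lit 1435000, nat_lit 1271250],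 [nat_lit 23, nat_lit 40, nat_lit 40, nat_lit 80, nat_lit 12, nat_lit 456, nat_lit 225, nat_lit 11]⟩,
 ⟨nat_lit 3162, nat_lit 3873, ⟨.ofNat (nat_lit 464406), .ofNat (nat_lit 651611), .ofNat (nat_lit 475288), .ofNat (nat_lit 662494), .ofNat (nat_lit 472632), .ofNat (nat_lit 649490), .ofNat (nat_lit 483694), .ofNat (nat_lit 660553)⟩, ⟨.ofNat (nat_lit 0), .ofNat (nat_lit 132088), .ofNat (nat_lit 0), .ofNat (nat_lit 175674), .ofNat (nat_lit 0), .ofNat (nat_lit 139899), .ofNat (nat_lit 0), .ofNat (nat_lit 184209)⟩⟩, [⟨nat_lit 10, nat_lit 87, nat_lit 100, nat_lit 42, nat_lit 72541723⟩]⟩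
noncomputable def p090_l97 : Lf2 := ⟨nat_lit 0, nat_lit 20, [nat_lit 5, nat_lit 5, nat_lit 5, nat_lit 20], false, nat_lit 0, nat_lit 80, nat_lit 160, nat_lit 292, ⟨nat_lit 161, nat_lit 35, nat_lit 804, nat_lit 7, nat_lit 233, nat_lit 839, nat_lit 32, nat_lit 804, nat_lit 9600, nat_lit 239, nat_lit 75502, nat_lit 200, nat_lit 50035875, nat_lit 16964125, nat_lit 0, nat_lit 2829094, false, false⟩,
 nat_lit 0, nat_lit 0, nat_lit 1832, nat_lit 0, nat_lit 2625, nat_lit 1216, nat_lit 0, nat_lit 0, nat_lit 0, nat_lit 121, nat_lit 0, nat_lit 0, nat_lit 0, nat_lit 0, nat_lit 63, nat_lit 330350, nat_lit 0, nat_lit 0, [(nat_lit 22, [(nat_lit 0, nat_lit 35), (nat_lit 5, nat_lit 804)])],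
 ⟨p090_k25, nat_lit 0, nat_lit 0, nat_lit 166, nat_lit 0, nat_lit 0, [nat_lit 1670736001, nat_lit 1183400400, nat_lit 36060000], [], [nat_lit 18602778752, nat_lit 19841651501, nat_lit 21282205501, nat_lit 22346832503, nat_lit 17895289351, nat_lit 19064615801, nat_lit 20701616902, nat_lit 21763364902], nat_lit 0, nat_lit 0, nat_lit 0, nat_lit 0, nat_lit 0, nat_lit 0, [], [nat_lit 34, nat_lit 40, nat_lit 40, nat_lit 80, nat_lit 7, nat_lit 317, nat_lit 100, nat_lit 10]⟩, ⟨p090_k24, nat_lit 0, nat_lit 0, nat_lit 730, nat_lit 0, nat_lit 1238281, [nat_lit 528402000, nat_lit 1006250000, nat_lit 1911392000], [], [nat_lit 4457994914, nat_lit 4495441137, nat_lit 4438203216, nat_lit 4467158419, nat_lit 4601957097, nat_lit 4627778429, nat_lit 4881231960, nat_lit 4603351093], nat_lit 1271250, nat_lit 1271250, nat_lit 872850, nat_lit 1769250, nat_lit 1100001, nat_lit 2230250, [nat_lit 780000, nat_lit 1435000, nat_lit 1271250],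 [nat_lit 23, nat_lit 40, nat_lit 40, nat_lit 80, nat_lit 12, nat_lit 456, nat_lit 225, nat_lit 11]⟩,
 ⟨nat_lit 3162, nat_lit 3873, ⟨.ofNat (nat_lit 488199), .ofNat (nat_lit 662494), .ofNat (nat_lit 499081), .ofNat (nat_lit 673376), .ofNat (nat_lit 495892), .ofNat (nat_lit 660553), .ofNat (nat_lit 506955), .ofNat (nat_lit 671616)⟩, ⟨.ofNat (nat_lit 0), .ofNat (nat_lit 132088), .ofNat (nat_lit 0), .ofNat (nat_lit 175674), .ofNat (nat_lit 0), .ofNat (nat_lit 139899), .ofNat (nat_lit 0), .ofNat (nat_lit 184209)⟩⟩, [⟨nat_lit 19, nat_lit 92, nat_lit 100, nat_lit 75, nat_lit 26322093⟩, ⟨nat_lit 10, nat_lit 89, nat_lit 100, nat_lit 40, nat_lit 54858764⟩]⟩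
noncomputable def p090_l98 : Lf2 := ⟨nat_lit 0, nat_lit 20, [nat_lit 5, nat_lit 5, nat_lit 5, nat_lit 20], true, nat_lit 80, nat_lit 160, nat_lit 0, nat_lit 300, ⟨nat_lit 0, nat_lit 1000, nat_lit 0, nat_lit 7, nat_lit 228, nat_lit 1000, nat_lit 88, nat_lit 0, nat_lit 0, nat_lit 0, nat_lit 0, nat_lit 0, nat_lit 47268660, nat_lit 16069800, nat_lit 3661540, nat_lit 3946714, false, false⟩,
 nat_lit 0, nat_lit 0, nat_lit 0, nat_lit 0, nat_lit 4225, nat_lit 0, nat_lit 0, nat_lit 0, nat_lit 0, nat_lit 0, nat_lit 0, nat_lit 0, nat_lit 0, nat_lit 0, nat_lit 0, nat_lit 250000, nat_lit 0, nat_lit 0, [(nat_lit 22, [(nat_lit 0, nat_lit 1000)])],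
 ⟨p090_k25, nat_lit 0, nat_lit 0, nat_lit 62, nat_lit 0, nat_lit 0, [nat_lit 1568000001, nat_lit 1970800000, nat_lit 2712400000], [], [nat_lit 17270078260, nat_lit 19112375201, nat_lit 20622498200, nat_lit 22314423000, nat_lit 18104836055, nat_lit 19747831451, nat_lit 21135823000, nat_lit 22542516500], nat_lit 0, nat_lit 0, nat_lit 0, nat_lit 0, nat_lit 0, nat_lit 0, [], [nat_lit 34, nat_lit 40, nat_lit 40, nat_lit 80, nat_lit 7, nat_lit 317, nat_lit 100, nat_lit 10]⟩, C1.Rw.none,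
 ⟨nat_lit 3162, nat_lit 3873, ⟨.ofNat (nat_lit 464406), .ofNat (nat_lit 651611), .ofNat (nat_lit 486170), .ofNat (nat_lit 673376), .ofNat (nat_lit 472632), .ofNat (nat_lit 649490), .ofNat (nat_lit 494758), .ofNat (nat_lit 671616)⟩, ⟨.ofNat (nat_lit 132088), .ofNat (nat_lit 261131), .ofNat (nat_lit 175674), .ofNat (nat_lit 304717), .ofNat (nat_lit 139899), .ofNat (nat_lit 261806), .ofNat (nat_lit 184209), .ofNat (nat_lit 306116)⟩⟩, []⟩
noncomputable def p090_l99 : Lf2 := ⟨nat_lit 0, nat_lit 15, [nat_lit 30, nat_lit 5, nat_lit 5, nat_lit 20], false, nat_lit 0, nat_lit 160, nat_lit 0, nat_lit 256, ⟨nat_lit 307, nat_lit 0, nat_lit 693, nat_lit 7, nat_lit 234, nat_lit 693, nat_lit 54, nat_lit 693, nat_lit 26667, nat_lit 255, nat_lit 123458, nat_lit 200, nat_lit 49903627, nat_lit 0, nat_lit 0, nat_lit 2839717, false, false⟩,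
 nat_lit 0, nat_lit 0, nat_lit 3142, nat_lit 0, nat_lit 3496, nat_lit 2175, nat_lit 193, nat_lit 0, nat_lit 0, nat_lit 308, nat_lit 0, nat_lit 0, nat_lit 0, nat_lit 0, nat_lit 0, nat_lit 277200, nat_lit 0, nat_lit 0, [(nat_lit 19, [(nat_lit 5, nat_lit 693)])],
 ⟨p090_k22, nat_lit 0, nat_lit 0, nat_lit 147, nat_lit 0, nat_lit 0, [nat_lit 1267482401, nat_lit 1314198800, nat_lit 493195200], [], [nat_lit 17789969005, nat_lit 18549581045, nat_lit 20911424781, nat_lit 21551997752, nat_lit 17093522670, nat_lit 17703314166, nat_lit 19875619501, nat_lit 20425424473], nat_lit 0, nat_lit 0, nat_lit 0, nat_lit 0, nat_lit 0, nat_lit 0, [], [nat_lit 34, nat_lit 40, nat_lit 40, nat_lit 80, nat_lit 7, nat_lit 317, nat_lit 100, nat_lit 10]⟩, ⟨p090_k26, nat_lit 0, nat_lit 0, nat_lit 646, nat_lit 0, nat_lit 951257, [nat_lit 1007574000, nat_lit 1918750000, nat_lit 3021494000], [], [nat_lit 10644512034, nat_lit 9494506884, nat_lit 8377938172,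 nat_lit 8569355972, nat_lit 7475126512, nat_lit 7614116629, nat_lit 8960252094, nat_lit 7982360924], nat_lit 1271250, nat_lit 1271250, nat_lit 780000, nat_lit 1762500, nat_lit 0, nat_lit 1808000, [nat_lit 780000, nat_lit 1435000, nat_lit 1271250], [nat_lit 8, nat_lit 40, nat_lit 40, nat_lit 80, nat_lit 1, nat_lit 345, nat_lit 125, nat_lit 10]⟩,
 ⟨nat_lit 4183, nat_lit 4473, ⟨.ofNat (nat_lit 471853), .ofNat (nat_lit 675791), .ofNat (nat_lit 493417), .ofNat (nat_lit 697354), .ofNat (nat_lit 475800), .ofNat (nat_lit 674569), .ofNat (nat_lit 497463), .ofNat (nat_lit 696233)⟩, ⟨.negSucc (nat_lit 12423), .ofNat (nat_lit 259489), .ofNat (nat_lit 0), .ofNat (nat_lit 281055), .negSucc (nat_lit 4612), .ofNat (nat_lit 260409), .ofNat (nat_lit 0), .ofNat (nat_lit 282076)⟩⟩, [⟨nat_lit 0, nat_lit 82, nat_lit 78, nat_lit 100, nat_lit 54023005⟩, ⟨nat_lit 7, nat_lit 100, nat_lit 84, nat_lit 67, nat_lit 26985050⟩]⟩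
noncomputable def p090_l100 : Lf2 := ⟨nat_lit 0, nat_lit 15, [nat_lit 30, nat_lit 5, nat_lit 5, nat_lit 20], false, nat_lit 0, nat_lit 160, nat_lit 0, nat_lit 256, ⟨nat_lit 220, nat_lit 0, nat_lit 780, nat_lit 7, nat_lit 239, nat_lit 780, nat_lit 54, nat_lit 780, nat_lit 28017, nat_lit 256, nat_lit 121208, nat_lit 200, nat_lit 49412502, nat_lit 0, nat_lit 0, nat_lit 2878277, false, false⟩,
 nat_lit 0, nat_lit 0, nat_lit 2180, nat_lit 0, nat_lit 3135, nat_lit 1509, nat_lit 81, nat_lit 0, nat_lit 0, nat_lit 210, nat_lit 0, nat_lit 0, nat_lit 0, nat_lit 0, nat_lit 19, nat_lit 312000, nat_lit 0, nat_lit 0, [(nat_lit 19, [(nat_lit 5, nat_lit 780)])],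
 ⟨p090_k27, nat_lit 0, nat_lit 0, nat_lit 152, nat_lit 0, nat_lit 0, [nat_lit 1323504000, nat_lit 1194648000, nat_lit 20592000], [], [nat_lit 18354705490, nat_lit 19063206881, nat_lit 21157471935, nat_lit 21766456190, nat_lit 18073137976, nat_lit 18644632476, nat_lit 20549912690, nat_lit 21033714930], nat_lit 0, nat_lit 0, nat_lit 0, nat_lit 0, nat_lit 0, nat_lit 0, [], [nat_lit 34, nat_lit 40, nat_lit 40, nat_lit 80, nat_lit 7, nat_lit 317, nat_lit 100, nat_lit 10]⟩, ⟨p090_k26, nat_lit 0, nat_lit 0, nat_lit 708, nat_lit 0, nat_lit 1058520, [nat_lit 722040000, nat_lit 1375000000, nat_lit 2165240000], [], [nat_lit 7123879415, nat_lit 6329617265, nat_lit 6323288664, nat_lit 6442126158, nat_lit 5707622657, nat_lit 5804662253, nat_lit 6567500255, nat_lit 5887672215], nat_lit 1271250, nat_lit 1271250, nat_lit 872850, nat_lit 1769250, nat_lit 0, nat_lit 1808000, [nat_lit 780000, nat_lit 1435000, nat_lit 1271250], [nat_lit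 8, nat_lit 40, nat_lit 40, nat_lit 80, nat_lit 1, nat_lit 345, nat_lit 125, nat_lit 10]⟩,
 ⟨nat_lit 3872, nat_lit 4184, ⟨.ofNat (nat_lit 495669), .ofNat (nat_lit 674568), .ofNat (nat_lit 517331), .ofNat (nat_lit 696229), .ofNat (nat_lit 499249), .ofNat (nat_lit 673466), .ofNat (nat_lit 521038), .ofNat (nat_lit 695254)⟩, ⟨.negSucc (nat_lit 4619), .ofNat (nat_lit 260409), .ofNat (nat_lit 0), .ofNat (nat_lit 282076), .ofNat (nat_lit 0), .ofNat (nat_lit 261131), .ofNat (nat_lit 0), .ofNat (nat_lit 282924)⟩⟩, [⟨nat_lit 7, nat_lit 100, nat_lit 84, nat_lit 67, nat_lit 47497275⟩]⟩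
noncomputable def p090_l101 : Lf2 := ⟨nat_lit 0, nat_lit 20, [nat_lit 5, nat_lit 5, nat_lit 5, nat_lit 20], false, nat_lit 0, nat_lit 160, nat_lit 0, nat_lit 280, ⟨nat_lit 830, nat_lit 0, nat_lit 170, nat_lit 7, nat_lit 234, nat_lit 170, nat_lit 58, nat_lit 170, nat_lit 32267, nat_lit 259, nat_lit 123458, nat_lit 200, nat_lit 49903627, nat_lit 0, nat_lit 0, nat_lit 2839717, false, false⟩,
 nat_lit 0, nat_lit 0, nat_lit 8777, nat_lit 0, nat_lit 5707, nat_lit 6076, nat_lit 897, nat_lit 0, nat_lit 0, nat_lit 943, nat_lit 0, nat_lit 0, nat_lit 0, nat_lit 0, nat_lit 0, nat_lit 38840, nat_lit 0, nat_lit 0, [(nat_lit 19, [(nat_lit 3, nat_lit 61), (nat_lit 4, nat_lit 109)])],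
 ⟨p090_k20, nat_lit 0, nat_lit 0, nat_lit 180, nat_lit 0, nat_lit 0, [nat_lit 2767944000, nat_lit 3863971201, nat_lit 7843151600], [], [nat_lit 20584042229, nat_lit 21488741933, nat_lit 23979891360, nat_lit 25089458459, nat_lit 17053063625, nat_lit 17817720059, nat_lit 20327226977, nat_lit 21118537029], nat_lit 0, nat_lit 0, nat_lit 0, nat_lit 0, nat_lit 0, nat_lit 0, [], [nat_lit 27, nat_lit 40, nat_lit 40, nat_lit 80, nat_lit 13, nat_lit 317, nat_lit 100, nat_lit 9]⟩, ⟨p090_k28, nat_lit 0, nat_lit 0, nat_lit 571, nat_lit 0, nat_lit 748395, [nat_lit 2724060000, nat_lit 5187500000, nat_lit 8168860000], [], [nat_lit 28763162837, nat_lit 25550550749, nat_lit 20419983660, nat_lit 21880597080, nat_lit 18310348434, nat_lit 18865711396, nat_lit 25282496516, nat_lit 22633901280], nat_lit 1271250, nat_lit 1271250, nat_lit 780000, nat_lit 1762500, nat_lit 0, nat_lit 1977500, [nat_lit 780000, nat_lit 1435000, nat_lit 1271250],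 [nat_lit 8, nat_lit 40, nat_lit 40, nat_lit 80, nat_lit 1, nat_lit 373, nat_lit 150, nat_lit 11]⟩,
 ⟨nat_lit 4183, nat_lit 4473, ⟨.ofNat (nat_lit 471853), .ofNat (nat_lit 675791), .ofNat (nat_lit 493417), .ofNat (nat_lit 697354), .ofNat (nat_lit 475800), .ofNat (nat_lit 674569), .ofNat (nat_lit 497463), .ofNat (nat_lit 696233)⟩, ⟨.ofNat (nat_lit 0), .ofNat (nat_lit 281055), .ofNat (nat_lit 0), .ofNat (nat_lit 302621), .ofNat (nat_lit 0), .ofNat (nat_lit 282076), .ofNat (nat_lit 0), .ofNat (nat_lit 303743)⟩⟩, [⟨nat_lit 0, nat_lit 82, nat_lit 78, nat_lit 100, nat_lit 156416280⟩, ⟨nat_lit 7, nat_lit 100, nat_lit 87, nat_lit 79, nat_lit 17686551⟩]⟩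
noncomputable def p090_l102 : Lf2 := ⟨nat_lit 0, nat_lit 20, [nat_lit 5, nat_lit 5, nat_lit 5, nat_lit 20], false, nat_lit 0, nat_lit 160, nat_lit 0, nat_lit 280, ⟨nat_lit 529, nat_lit 0, nat_lit 471, nat_lit 7, nat_lit 239, nat_lit 471, nat_lit 59, nat_lit 471, nat_lit 32267, nat_lit 259, nat_lit 121208, nat_lit 200, nat_lit 49412502, nat_lit 0, nat_lit 0, nat_lit 2878277, false, false⟩,
 nat_lit 0, nat_lit 0, nat_lit 5376, nat_lit 0, nat_lit 4052, nat_lit 3721, nat_lit 613, nat_lit 0, nat_lit 0, nat_lit 413, nat_lit 0, nat_lit 0, nat_lit 0, nat_lit 0, nat_lit 0, nat_lit 117750, nat_lit 0, nat_lit 0, [(nat_lit 19, [(nat_lit 4, nat_lit 471)])],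
 ⟨p090_k29, nat_lit 0, nat_lit 0, nat_lit 184, nat_lit 0, nat_lit 0, [nat_lit 1790094401, nat_lit 2384810000, nat_lit 4219578800], [], [nat_lit 19305779607, nat_lit 20040092508, nat_lit 22441562724, nat_lit 23346808488, nat_lit 17593028963, nat_lit 18191076824, nat_lit 20397566490, nat_lit 21016276102], nat_lit 0, nat_lit 0, nat_lit 0, nat_lit 0, nat_lit 0, nat_lit 0, [], [nat_lit 27, nat_lit 40, nat_lit 40, nat_lit 80, nat_lit 13, nat_lit 317, nat_lit 100, nat_lit 9]⟩, ⟨p090_k28, nat_lit 0, nat_lit 0, nat_lit 605, nat_lit 0, nat_lit 853323, [nat_lit 1736178000, nat_lit 3306250000, nat_lit 5206418000], [], [nat_lit 17367643555, nat_lit 15409095205, nat_lit 15224266649, nat_lit 15581352999, nat_lit 13695750268, nat_lit 13973485655, nat_lit 16919729829, nat_lit 15256156312], nat_lit 1271250, nat_lit 1271250, nat_lit 872850, nat_lit 1769250, nat_lit 0, nat_lit 1977500, [nat_lit 780000, nat_lit 1435000, nat_lit 1271250],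 [nat_lit 8, nat_lit 40, nat_lit 40, nat_lit 80, nat_lit 1, nat_lit 373, nat_lit 150, nat_lit 11]⟩,
 ⟨nat_lit 3872, nat_lit 4184, ⟨.ofNat (nat_lit 495669), .ofNat (nat_lit 674568), .ofNat (nat_lit 517331), .ofNat (nat_lit 696229), .ofNat (nat_lit 499249), .ofNat (nat_lit 673466), .ofNat (nat_lit 521038), .ofNat (nat_lit 695254)⟩, ⟨.ofNat (nat_lit 0), .ofNat (nat_lit 282076), .ofNat (nat_lit 0), .ofNat (nat_lit 303743), .ofNat (nat_lit 0), .ofNat (nat_lit 282924), .ofNat (nat_lit 0), .ofNat (nat_lit 304717)⟩⟩, [⟨nat_lit 0, nat_lit 86, nat_lit 76, nat_lit 100, nat_lit 79856802⟩, ⟨nat_lit 7, nat_lit 100, nat_lit 87, nat_lit 79, nat_lit 86308459⟩]⟩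
noncomputable def p090_l103 : Lf2 := ⟨nat_lit 0, nat_lit 20, [nat_lit 5, nat_lit 5, nat_lit 5, nat_lit 20], false, nat_lit 0, nat_lit 160, nat_lit 0, nat_lit 280, ⟨nat_lit 167, nat_lit 0, nat_lit 833, nat_lit 7, nat_lit 229, nat_lit 833, nat_lit 57, nat_lit 833, nat_lit 30817, nat_lit 258, nat_lit 3223, nat_lit 205, nat_lit 50514418, nat_lit 0, nat_lit 0, nat_lit 2789787, false, false⟩,
 nat_lit 0, nat_lit 0, nat_lit 1794, nat_lit 0, nat_lit 2752, nat_lit 1241, nat_lit 0, nat_lit 0, nat_lit 0, nat_lit 118, nat_lit 0, nat_lit 0, nat_lit 0, nat_lit 0, nat_lit 65, nat_lit 321800, nat_lit 0, nat_lit 0, [(nat_lit 22, [(nat_lit 4, nat_lit 76), (nat_lit 5, nat_lit 757)])],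
 ⟨p090_k25, nat_lit 0, nat_lit 0, nat_lit 163, nat_lit 0, nat_lit 0, [nat_lit 1711507201, nat_lit 1181108800, nat_lit 33132934], [], [nat_lit 18730378065, nat_lit 19974367041, nat_lit 19980844615, nat_lit 21133061152, nat_lit 18931626254, nat_lit 19997430830, nat_lit 20066546391, nat_lit 21050656839], nat_lit 0, nat_lit 0, nat_lit 0, nat_lit 0, nat_lit 0, nat_lit 0, [], [nat_lit 34, nat_lit 40, nat_lit 40, nat_lit 80, nat_lit 7, nat_lit 317, nat_lit 100, nat_lit 10]⟩, ⟨p090_k28, nat_lit 0, nat_lit 0, nat_lit 772, nat_lit 0, nat_lit 1237900, [nat_lit 548094000, nat_lit 1043750000, nat_lit 1643614000], [], [nat_lit 5160729223, nat_lit 4872225368, nat_lit 4821813588, nat_lit 4869213164, nat_lit 4317817978, nat_lit 4349287907, nat_lit 4580556038, nat_lit 4312049676], nat_lit 1271250, nat_lit 1271250, nat_lit 968401, nat_lit 1439500, nat_lit 0, nat_lit 1977500, [nat_lit 780000, nat_lit 1435000, nat_lit 1271250], [nat_lit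 8, nat_lit 40, nat_lit 40, nat_lit 80, nat_lit 1, nat_lit 345, nat_lit 125, nat_lit 10]⟩,
 ⟨nat_lit 3162, nat_lit 3873, ⟨.ofNat (nat_lit 518447), .ofNat (nat_lit 608822), .ofNat (nat_lit 529329), .ofNat (nat_lit 619705), .ofNat (nat_lit 525251), .ofNat (nat_lit 610630), .ofNat (nat_lit 536314), .ofNat (nat_lit 621694)⟩, ⟨.ofNat (nat_lit 0), .ofNat (nat_lit 261131), .ofNat (nat_lit 0), .ofNat (nat_lit 304717), .ofNat (nat_lit 0), .ofNat (nat_lit 261806), .ofNat (nat_lit 0), .ofNat (nat_lit 306116)⟩⟩, [⟨nat_lit 0, nat_lit 84, nat_lit 60, nat_lit 100, nat_lit 16523832⟩, ⟨nat_lit 7, nat_lit 100, nat_lit 88, nat_lit 74, nat_lit 29772494⟩]⟩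
noncomputable def p090_l104 : Lf2 := ⟨nat_lit 0, nat_lit 20, [nat_lit 5, nat_lit 5, nat_lit 5, nat_lit 20], false, nat_lit 0, nat_lit 160, nat_lit 0, nat_lit 268, ⟨nat_lit 370, nat_lit 0, nat_lit 630, nat_lit 7, nat_lit 237, nat_lit 630, nat_lit 57, nat_lit 630, nat_lit 30817, nat_lit 258, nat_lit 6920, nat_lit 202, nat_lit 49627269, nat_lit 0, nat_lit 0, nat_lit 2861587, false, false⟩,
 nat_lit 0, nat_lit 0, nat_lit 3519, nat_lit 0, nat_lit 3449, nat_lit 2536, nat_lit 84, nat_lit 0, nat_lit 0, nat_lit 350, nat_lit 0, nat_lit 0, nat_lit 0, nat_lit 0, nat_lit 0, nat_lit 311400, nat_lit 0, nat_lit 0, [(nat_lit 22, [(nat_lit 5, nat_lit 531), (nat_lit 6, nat_lit 99)])],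
 ⟨p090_k25, nat_lit 0, nat_lit 0, nat_lit 161, nat_lit 0, nat_lit 0, [nat_lit 1345019200, nat_lit 1072048400, nat_lit 176137200], [], [nat_lit 20053029747, nat_lit 21487176222, nat_lit 21084728204, nat_lit 22443822624, nat_lit 19219188630, nat_lit 20373166874, nat_lit 20141083622, nat_lit 21219270948], nat_lit 0, nat_lit 0, nat_lit 0, nat_lit 0, nat_lit 0, nat_lit 0, [], [nat_lit 34, nat_lit 40, nat_lit 40, nat_lit 80, nat_lit 7, nat_lit 317, nat_lit 100, nat_lit 10]⟩, ⟨p090_k30, nat_lit 0, nat_lit 0, nat_lit 767, nat_lit 0, nat_lit 1239451, [nat_lit 1214340000, nat_lit 2312500000, nat_lit 3641540000], [], [nat_lit 9399433212, nat_lit 9031935578, nat_lit 9017917786, nat_lit 9176350998, nat_lit 8359059587, nat_lit 8436222179, nat_lit 8895752460, nat_lit 8430750194], nat_lit 1271250, nat_lit 1271250, nat_lit 1066650, nat_lit 1441750, nat_lit 0, nat_lit 1892750, [nat_lit 780000, nat_lit 1435000, nat_lit 1271250], [nat_lit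 8, nat_lit 40, nat_lit 40, nat_lit 80, nat_lit 1, nat_lit 345, nat_lit 125, nat_lit 10]⟩,
 ⟨nat_lit 3162, nat_lit 3873, ⟨.ofNat (nat_lit 548695), .ofNat (nat_lit 619705), .ofNat (nat_lit 559578), .ofNat (nat_lit 630587), .ofNat (nat_lit 554609), .ofNat (nat_lit 621694), .ofNat (nat_lit 565673), .ofNat (nat_lit 632757)⟩, ⟨.ofNat (nat_lit 0), .ofNat (nat_lit 261131), .ofNat (nat_lit 0), .ofNat (nat_lit 304717), .ofNat (nat_lit 0), .ofNat (nat_lit 261806), .ofNat (nat_lit 0), .ofNat (nat_lit 306116)⟩⟩, [⟨nat_lit 0, nat_lit 80, nat_lit 60, nat_lit 100, nat_lit 191085987⟩, ⟨nat_lit 7, nat_lit 100, nat_lit 83, nat_lit 73, nat_lit 82349476⟩]⟩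
noncomputable def p090_l105 : Lf2 := ⟨nat_lit 0, nat_lit 20, [nat_lit 5, nat_lit 5, nat_lit 5, nat_lit 20], false, nat_lit 0, nat_lit 160, nat_lit 0, nat_lit 280, ⟨nat_lit 254, nat_lit 0, nat_lit 746, nat_lit 7, nat_lit 259, nat_lit 746, nat_lit 57, nat_lit 746, nat_lit 30817, nat_lit 258, nat_lit 97266, nat_lit 200, nat_lit 47246704, nat_lit 0, nat_lit 0, nat_lit 3032078, true, false⟩,
 nat_lit 0, nat_lit 0, nat_lit 2720, nat_lit 0, nat_lit 2972, nat_lit 1882, nat_lit 0, nat_lit 0, nat_lit 0, nat_lit 227, nat_lit 0, nat_lit 0, nat_lit 0, nat_lit 0, nat_lit 39, nat_lit 329000, nat_lit 0, nat_lit 0, [(nat_lit 22, [(nat_lit 5, nat_lit 695), (nat_lit 6, nat_lit 51)])],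
 ⟨p090_k25, nat_lit 0, nat_lit 0, nat_lit 159, nat_lit 0, nat_lit 0, [nat_lit 1545044801, nat_lit 1133597200, nat_lit 37776134], [], [nat_lit 20574984646, nat_lit 21822209670, nat_lit 21844082206, nat_lit 23029367376, nat_lit 20406260351, nat_lit 21420065079, nat_lit 21495723431, nat_lit 22467491042], nat_lit 0, nat_lit 0, nat_lit 0, nat_lit 0, nat_lit 0, nat_lit 0, [], [nat_lit 34, nat_lit 40, nat_lit 40, nat_lit 80, nat_lit 7, nat_lit 317, nat_lit 100, nat_lit 10]⟩, ⟨p090_k28, nat_lit 0, nat_lit 0, nat_lit 753, nat_lit 0, nat_lit 1237900, [nat_lit 833628000, nat_lit 1587500000, nat_lit 2499868000], [], [nat_lit 6724449301, nat_lit 6812644405, nat_lit 6871091405, nat_lit 6951388969, nat_lit 6080081279, nat_lit 6133030916, nat_lit 6132260239, nat_lit 6197683203], nat_lit 1271250, nat_lit 1271250, nat_lit 1271250, nat_lit 1271250, nat_lit 0, nat_lit 1977500, [nat_lit 780000, nat_lit 1435000, nat_lit 1271250], [nat_lit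 8, nat_lit 40, nat_lit 40, nat_lit 80, nat_lit 1, nat_lit 373, nat_lit 150, nat_lit 10]⟩,
 ⟨nat_lit 3162, nat_lit 3873, ⟨.ofNat (nat_lit 608822), .ofNat (nat_lit 673376), .ofNat (nat_lit 619705), .ofNat (nat_lit 684258), .ofNat (nat_lit 610630), .ofNat (nat_lit 671616), .ofNat (nat_lit 621694), .ofNat (nat_lit 682679)⟩, ⟨.ofNat (nat_lit 0), .ofNat (nat_lit 261131), .ofNat (nat_lit 0), .ofNat (nat_lit 304717), .ofNat (nat_lit 0), .ofNat (nat_lit 261806), .ofNat (nat_lit 0), .ofNat (nat_lit 306116)⟩⟩, [⟨nat_lit 7, nat_lit 100, nat_lit 88, nat_lit 74, nat_lit 47527220⟩]⟩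
noncomputable def p090_l106 : Lf2 := ⟨nat_lit 0, nat_lit 20, [nat_lit 5, nat_lit 5, nat_lit 5, nat_lit 20], false, nat_lit 0, nat_lit 160, nat_lit 0, nat_lit 268, ⟨nat_lit 368, nat_lit 0, nat_lit 632, nat_lit 7, nat_lit 263, nat_lit 632, nat_lit 57, nat_lit 632, nat_lit 30817, nat_lit 258, nat_lit 119032, nat_lit 200, nat_lit 46774683, nat_lit 0, nat_lit 0, nat_lit 3062203, true, false⟩,
 nat_lit 0, nat_lit 0, nat_lit 3423, nat_lit 0, nat_lit 3421, nat_lit 2467, nat_lit 0, nat_lit 0, nat_lit 0, nat_lit 358, nat_lit 0, nat_lit 0, nat_lit 0, nat_lit 0, nat_lit 12, nat_lit 360800, nat_lit 0, nat_lit 0, [(nat_lit 22, [(nat_lit 5, nat_lit 452), (nat_lit 6, nat_lit 180)])],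
 ⟨p090_k25, nat_lit 0, nat_lit 0, nat_lit 159, nat_lit 0, nat_lit 0, [nat_lit 1421152001, nat_lit 1126667200, nat_lit 18157334], [], [nat_lit 21363746850, nat_lit 22693090382, nat_lit 22659438680, nat_lit 23914035668, nat_lit 20452295973, nat_lit 21526704027, nat_lit 21557649163, nat_lit 22595030474], nat_lit 0, nat_lit 0, nat_lit 0, nat_lit 0, nat_lit 0, nat_lit 0, [], [nat_lit 34, nat_lit 40, nat_lit 40, nat_lit 80, nat_lit 7, nat_lit 317, nat_lit 100, nat_lit 10]⟩, ⟨p090_k30, nat_lit 0, nat_lit 0, nat_lit 753, nat_lit 0, nat_lit 1239451, [nat_lit 1207776000, nat_lit 2300000000, nat_lit 3621856000], [], [nat_lit 9191532995, nat_lit 9301665366, nat_lit 9385872963, nat_lit 9543810390, nat_lit 8585244879, nat_lit 8655166324, nat_lit 8681827898, nat_lit 8891142107], nat_lit 1271250, nat_lit 1271250, nat_lit 1271250, nat_lit 1271250, nat_lit 0, nat_lit 1892750, [nat_lit 780000, nat_lit 1435000, nat_lit 1271250], [nat_lit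 8, nat_lit 40, nat_lit 40, nat_lit 80, nat_lit 1, nat_lit 373, nat_lit 150, nat_lit 10]⟩,
 ⟨nat_lit 3162, nat_lit 3873, ⟨.ofNat (nat_lit 619705), .ofNat (nat_lit 684258), .ofNat (nat_lit 630587), .ofNat (nat_lit 695141), .ofNat (nat_lit 621694), .ofNat (nat_lit 682679), .ofNat (nat_lit 632757), .ofNat (nat_lit 693742)⟩, ⟨.ofNat (nat_lit 0), .ofNat (nat_lit 261131), .ofNat (nat_lit 0), .ofNat (nat_lit 304717), .ofNat (nat_lit 0), .ofNat (nat_lit 261806), .ofNat (nat_lit 0), .ofNat (nat_lit 306116)⟩⟩, [⟨nat_lit 19, nat_lit 83, nat_lit 100, nat_lit 73, nat_lit 84876571⟩]⟩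
noncomputable def p090_l107 : Lf2 := ⟨nat_lit 0, nat_lit 20, [nat_lit 5, nat_lit 5, nat_lit 5, nat_lit 20], true, nat_lit 160, nat_lit 260, nat_lit 0, nat_lit 300, ⟨nat_lit 0, nat_lit 334, nat_lit 666, nat_lit 7, nat_lit 185, nat_lit 1000, nat_lit 145, nat_lit 666, nat_lit 89743, nat_lit 288, nat_lit 25350, nat_lit 254, nat_lit 47566233, nat_lit 11553787, nat_lit 7879980, nat_lit 4276855, false, false⟩,
 nat_lit 0, nat_lit 0, nat_lit 0, nat_lit 5004, nat_lit 3514, nat_lit 0, nat_lit 0, nat_lit 0, nat_lit 0, nat_lit 0, nat_lit 0, nat_lit 0, nat_lit 0, nat_lit 0, nat_lit 15, nat_lit 250000, nat_lit 0, nat_lit 0, [(nat_lit 19, [(nat_lit 0, nat_lit 334), (nat_lit 4, nat_lit 666)]), (nat_lit 22, [(nat_lit 0, nat_lit 334), (nat_lit 4, nat_lit 666)])],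
 ⟨p090_k20, nat_lit 0, nat_lit 0, nat_lit 61, nat_lit 0, nat_lit 0, [nat_lit 1654966401, nat_lit 896513601, nat_lit 52916000], [], [nat_lit 15967251590, nat_lit 19038399872, nat_lit 16159300994, nat_lit 19073791104, nat_lit 19640552641, nat_lit 22621679380, nat_lit 19691173796, nat_lit 22602348162], nat_lit 0, nat_lit 0, nat_lit 0, nat_lit 0, nat_lit 0, nat_lit 0, [], [nat_lit 27, nat_lit 40, nat_lit 40, nat_lit 80, nat_lit 13, nat_lit 317, nat_lit 100, nat_lit 8]⟩, C1.Rw.none,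
 ⟨nat_lit 3162, nat_lit 4473, ⟨.ofNat (nat_lit 415764), .ofNat (nat_lit 449792), .ofNat (nat_lit 458716), .ofNat (nat_lit 492744), .ofNat (nat_lit 435680), .ofNat (nat_lit 466195), .ofNat (nat_lit 479808), .ofNat (nat_lit 510324)⟩, ⟨.ofNat (nat_lit 259488), .ofNat (nat_lit 429433), .ofNat (nat_lit 302621), .ofNat (nat_lit 472567), .ofNat (nat_lit 261805), .ofNat (nat_lit 414188), .ofNat (nat_lit 306116), .ofNat (nat_lit 458499)⟩⟩, [⟨nat_lit 0, nat_lit 100, nat_lit 87, nat_lit 95, nat_lit 539368465⟩, ⟨nat_lit 16, nat_lit 83, nat_lit 100, nat_lit 83, nat_lit 239715789⟩]⟩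
noncomputable def p090_l108 : Lf2 := ⟨nat_lit 0, nat_lit 20, [nat_lit 5, nat_lit 5, nat_lit 5, nat_lit 20], false, nat_lit 160, nat_lit 260, nat_lit 0, nat_lit 300, ⟨nat_lit 138, nat_lit 862, nat_lit 0, nat_lit 7, nat_lit 231, nat_lit 862, nat_lit 145, nat_lit 0, nat_lit 0, nat_lit 0, nat_lit 0, nat_lit 0, nat_lit 43721201, nat_lit 15711397, nat_lit 7567402, nat_lit 4636120, false, false⟩,
 nat_lit 0, nat_lit 0, nat_lit 1898, nat_lit 0, nat_lit 3417, nat_lit 1207, nat_lit 0, nat_lit 0, nat_lit 0, nat_lit 96, nat_lit 0, nat_lit 0, nat_lit 0, nat_lit 0, nat_lit 0, nat_lit 215500, nat_lit 0, nat_lit 0, [(nat_lit 19, [(nat_lit 0, nat_lit 862)]), (nat_lit 22, [(nat_lit 0, nat_lit 862)])],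
 ⟨p090_k20, nat_lit 0, nat_lit 0, nat_lit 54, nat_lit 0, nat_lit 0, [nat_lit 1632032001, nat_lit 2688504800, nat_lit 4118448560], [], [nat_lit 15635499505, nat_lit 19014433312, nat_lit 19318571005, nat_lit 22077221620, nat_lit 19652310700, nat_lit 22524958361, nat_lit 22580990183, nat_lit 24944082720], nat_lit 0, nat_lit 0, nat_lit 0, nat_lit 0, nat_lit 0, nat_lit 0, [], [nat_lit 27, nat_lit 40, nat_lit 40, nat_lit 80, nat_lit 13, nat_lit 345, nat_lit 125, nat_lit 9]⟩, ⟨p090_k21, nat_lit 0, nat_lit 0, nat_lit 979, nat_lit 0, nat_lit 1481907, [nat_lit 452916000, nat_lit 862500000, nat_lit 1638336000], [], [nat_lit 5914692536, nat_lit 4656053816, nat_lit 4456475520, nat_lit 4637471184, nat_lit 3953801942, nat_lit 4012387095, nat_lit 5303047344, nat_lit 4230720783], nat_lit 1271250, nat_lit 1271250, nat_lit 780000, nat_lit 1762500, nat_lit 0, nat_lit 2118750, [nat_lit 780000, nat_lit 1435000, nat_lit 1271250], [nat_lit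 23, nat_lit 40, nat_lit 40, nat_lit 80, nat_lit 12, nat_lit 456, nat_lit 225, nat_lit 12]⟩,
 ⟨nat_lit 3162, nat_lit 4473, ⟨.ofNat (nat_lit 449792), .ofNat (nat_lit 653959), .ofNat (nat_lit 492744), .ofNat (nat_lit 696911), .ofNat (nat_lit 466195), .ofNat (nat_lit 649288), .ofNat (nat_lit 510324), .ofNat (nat_lit 693416)⟩, ⟨.ofNat (nat_lit 259488), .ofNat (nat_lit 429433), .ofNat (nat_lit 302621), .ofNat (nat_lit 472567), .ofNat (nat_lit 261805), .ofNat (nat_lit 414188), .ofNat (nat_lit 306116), .ofNat (nat_lit 458499)⟩⟩, [⟨nat_lit 0, nat_lit 90, nat_lit 74, nat_lit 100, nat_lit 46035074⟩, ⟨nat_lit 16, nat_lit 83, nat_lit 100, nat_lit 83, nat_lit 263853134⟩, ⟨nat_lit 7, nat_lit 100, nat_lit 90, nat_lit 74, nat_lit 21218161⟩]⟩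
noncomputable def b_V_800_700_10_16 : St := ⟨true, nat_lit 0, nat_lit 1, nat_lit 1, nat_lit 80, nat_lit 320, nat_lit 360, nat_lit 280, nat_lit 320, nat_lit 100, nat_lit 240, nat_lit 40, nat_lit 80, nat_lit 0, nat_lit 260, nat_lit 0, nat_lit 300, nat_lit 40, nat_lit 80, nat_lit 0, nat_lit 0, nat_lit 0, nat_lit 0⟩
theorem d_V_800_700_10_16 (h : EB TB.env) : Dead b_V_800_700_10_16 := chkB_sound0 h (T :=
(.spl (nat_lit 4) (nat_lit 160)
(.spl (nat_lit 1) (nat_lit 300)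
(.spl (nat_lit 0) (nat_lit 340)
(.spl (nat_lit 4) (nat_lit 80)
(.spl (nat_lit 2) (nat_lit 160)
(.leaf p090_l89)
(.spl (nat_lit 3) (nat_lit 60)
(.trX (nat_lit 19) (nat_lit 99) (nat_lit 100) (nat_lit 77) (nat_lit 276) (.leaf p090_l90))
(.spl (nat_lit 1) (nat_lit 290)
(.leaf p090_l91)
(.trX (nat_lit 19) (nat_lit 100) (nat_lit 100) (nat_lit 89) (nat_lit 292) (.leaf p090_l92)))))
(.leaf p090_l93))
(.trZ (nat_lit 0) (nat_lit 99) (nat_lit 77) (nat_lit 100) (nat_lit 124) (.spl (nat_lit 4) (nat_lit 80)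
(.spl (nat_lit 5) (nat_lit 160)
(.spl (nat_lit 1) (nat_lit 290)
(.leaf p090_l94)
(.trZ (nat_lit 0) (nat_lit 94) (nat_lit 75) (nat_lit 100) (nat_lit 132) (.leaf p090_l95)))
(.spl (nat_lit 1) (nat_lit 290)
(.leaf p090_l96)
(.trZ (nat_lit 0) (nat_lit 94) (nat_lit 75) (nat_lit 100) (nat_lit 132) (.trX (nat_lit 19) (nat_lit 100) (nat_lit 100) (nat_lit 89) (nat_lit 292) (.leaf p090_l97)))))
(.leaf p090_l98))))
(.trZ (nat_lit 0) (nat_lit 94) (nat_lit 87) (nat_lit 100) (nat_lit 120) (.trX (nat_lit 19) (nat_lit 94) (nat_lit 100) (nat_lit 87) (nat_lit 280) (.spl (nat_lit 0) (nat_lit 340)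
(.spl (nat_lit 3) (nat_lit 60)
(.trX (nat_lit 19) (nat_lit 90) (nat_lit 100) (nat_lit 74) (nat_lit 256) (.spl (nat_lit 0) (nat_lit 330)
(.leaf p090_l99)
(.trZ (nat_lit 0) (nat_lit 92) (nat_lit 81) (nat_lit 100) (nat_lit 132) (.leaf p090_l100))))
(.spl (nat_lit 0) (nat_lit 330)
(.leaf p090_l101)
(.trZ (nat_lit 0) (nat_lit 92) (nat_lit 81) (nat_lit 100) (nat_lit 132) (.leaf p090_l102))))
(.trZ (nat_lit 0) (nat_lit 90) (nat_lit 74) (nat_lit 100) (nat_lit 144) (.spl (nat_lit 2) (nat_lit 200)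
(.spl (nat_lit 1) (nat_lit 310)
(.leaf p090_l103)
(.trZ (nat_lit 0) (nat_lit 85) (nat_lit 73) (nat_lit 100) (nat_lit 156) (.trX (nat_lit 19) (nat_lit 89) (nat_lit 100) (nat_lit 85) (nat_lit 268) (.leaf p090_l104))))
(.spl (nat_lit 1) (nat_lit 310)
(.leaf p090_l105)
(.trX (nat_lit 19) (nat_lit 89) (nat_lit 100) (nat_lit 85) (nat_lit 268) (.leaf p090_l106)))))))))
(.spl (nat_lit 2) (nat_lit 120)
(.leaf p090_l107)
(.leaf p090_l108)))) (by decide +kernel)
noncomputable def p090_l109 : Lf2 := ⟨nat_lit 0, nat_lit 15, [nat_lit 30, nat_lit 5, nat_lit 5, nat_lit 20], false, nat_lit 0, nat_lit 80, nat_lit 0, nat_lit 276, ⟨nat_lit 275, nat_lit 725, nat_lit 0, nat_lit 7, nat_lit 290, nat_lit 725, nat_lit 28, nat_lit 0, nat_lit 0, nat_lit 0, nat_lit 0, nat_lit 0, nat_lit 43933986, nat_lit 23066014, nat_lit 0, nat_lit 3219131, true, false⟩,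
 nat_lit 0, nat_lit 0, nat_lit 3529, nat_lit 0, nat_lit 3653, nat_lit 2245, nat_lit 2, nat_lit 0, nat_lit 0, nat_lit 175, nat_lit 0, nat_lit 0, nat_lit 0, nat_lit 0, nat_lit 0, nat_lit 725000, nat_lit 0, nat_lit 0, [(nat_lit 19, [(nat_lit 2, nat_lit 725)])],
 ⟨p090_k22, nat_lit 0, nat_lit 0, nat_lit 167, nat_lit 0, nat_lit 0, [nat_lit 1790333334, nat_lit 2186750000, nat_lit 693553334], [], [nat_lit 22435481892, nat_lit 23706001762, nat_lit 26057779648, nat_lit 27132440304, nat_lit 20959050730, nat_lit 22095973368, nat_lit 24386533876, nat_lit 25417021170], nat_lit 0, nat_lit 0, nat_lit 0, nat_lit 0, nat_lit 0, nat_lit 0, [], [nat_lit 34, nat_lit 40, nat_lit 40, nat_lit 80, nat_lit 7, nat_lit 226, nat_lit 20, nat_lit 7]⟩, ⟨p090_k23, nat_lit 0, nat_lit 0, nat_lit 609, nat_lit 0, nat_lit 938568, [nat_lit 902550000, nat_lit 1718750000, nat_lit 2706550000], [], [nat_lit 9133679070, nat_lit 9190682005, nat_lit 9468544950,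 nat_lit 9511894570, nat_lit 7843201891, nat_lit 7885189041, nat_lit 8139169600, nat_lit 8177862046], nat_lit 1271250, nat_lit 1271250, nat_lit 1271250, nat_lit 1271250, nat_lit 0, nat_lit 1949250, [nat_lit 780000, nat_lit 1435000, nat_lit 1271250], [nat_lit 8, nat_lit 40, nat_lit 40, nat_lit 80, nat_lit 1, nat_lit 373, nat_lit 150, nat_lit 10]⟩,
 ⟨nat_lit 3872, nat_lit 4473, ⟨.ofNat (nat_lit 654181), .ofNat (nat_lit 790153), .ofNat (nat_lit 664955), .ofNat (nat_lit 800927), .ofNat (nat_lit 651631), .ofNat (nat_lit 780691), .ofNat (nat_lit 662519), .ofNat (nat_lit 791578)⟩, ⟨.negSucc (nat_lit 12427), .ofNat (nat_lit 123532), .ofNat (nat_lit 0), .ofNat (nat_lit 145099), .ofNat (nat_lit 0), .ofNat (nat_lit 132088), .ofNat (nat_lit 0), .ofNat (nat_lit 153881)⟩⟩, [⟨nat_lit 22, nat_lit 94, nat_lit 100, nat_lit 62, nat_lit 40843974⟩]⟩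
noncomputable def p090_l110 : Lf2 := ⟨nat_lit 0, nat_lit 15, [nat_lit 30, nat_lit 5, nat_lit 5, nat_lit 20], false, nat_lit 0, nat_lit 80, nat_lit 0, nat_lit 268, ⟨nat_lit 446, nat_lit 554, nat_lit 0, nat_lit 7, nat_lit 294, nat_lit 554, nat_lit 28, nat_lit 0, nat_lit 0, nat_lit 0, nat_lit 0, nat_lit 0, nat_lit 43483097, nat_lit 23516903, nat_lit 0, nat_lit 3240312, true, false⟩,
 nat_lit 0, nat_lit 0, nat_lit 5207, nat_lit 0, nat_lit 3909, nat_lit 3458, nat_lit 230, nat_lit 0, nat_lit 0, nat_lit 369, nat_lit 0, nat_lit 0, nat_lit 0, nat_lit 0, nat_lit 0, nat_lit 522800, nat_lit 0, nat_lit 0, [(nat_lit 19, [(nat_lit 1, nat_lit 52), (nat_lit 2, nat_lit 502)])],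
 ⟨p090_k22, nat_lit 0, nat_lit 0, nat_lit 167, nat_lit 0, nat_lit 0, [nat_lit 1831705600, nat_lit 2816116000, nat_lit 2596349867], [], [nat_lit 22870621741, nat_lit 24182815851, nat_lit 26580126409, nat_lit 27699898984, nat_lit 21034863453, nat_lit 22234238180, nat_lit 24664196024, nat_lit 25725454006], nat_lit 0, nat_lit 0, nat_lit 0, nat_lit 0, nat_lit 0, nat_lit 0, [], [nat_lit 34, nat_lit 40, nat_lit 40, nat_lit 80, nat_lit 7, nat_lit 226, nat_lit 20, nat_lit 7]⟩, ⟨p090_k31, nat_lit 0, nat_lit 0, nat_lit 616, nat_lit 0, nat_lit 958813, [nat_lit 1463772000, nat_lit 2787500000, nat_lit 4389532000], [], [nat_lit 13368679574, nat_lit 13511741690, nat_lit 14254567312, nat_lit 14367012254, nat_lit 11894906318, nat_lit 11981865745, nat_lit 12394184419, nat_lit 12459738830], nat_lit 1271250, nat_lit 1271250, nat_lit 1271250, nat_lit 1271250, nat_lit 0, nat_lit 1892750, [nat_lit 780000, nat_lit 1435000, nat_lit 1271250],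 [nat_lit 8, nat_lit 40, nat_lit 40, nat_lit 80, nat_lit 1, nat_lit 373, nat_lit 150, nat_lit 10]⟩,
 ⟨nat_lit 3872, nat_lit 4473, ⟨.ofNat (nat_lit 664955), .ofNat (nat_lit 800927), .ofNat (nat_lit 675730), .ofNat (nat_lit 811702), .ofNat (nat_lit 662519), .ofNat (nat_lit 791578), .ofNat (nat_lit 673407), .ofNat (nat_lit 802466)⟩, ⟨.negSucc (nat_lit 12427), .ofNat (nat_lit 123532), .ofNat (nat_lit 0), .ofNat (nat_lit 145099), .ofNat (nat_lit 0), .ofNat (nat_lit 132088), .ofNat (nat_lit 0), .ofNat (nat_lit 153881)⟩⟩, [⟨nat_lit 19, nat_lit 90, nat_lit 100, nat_lit 68, nat_lit 26250507⟩, ⟨nat_lit 22, nat_lit 94, nat_lit 100, nat_lit 62, nat_lit 43487890⟩]⟩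
noncomputable def p090_l111 : Lf2 := ⟨nat_lit 0, nat_lit 20, [nat_lit 5, nat_lit 5, nat_lit 5, nat_lit 20], false, nat_lit 0, nat_lit 80, nat_lit 0, nat_lit 300, ⟨nat_lit 539, nat_lit 461, nat_lit 0, nat_lit 7, nat_lit 292, nat_lit 461, nat_lit 32, nat_lit 0, nat_lit 0, nat_lit 0, nat_lit 0, nat_lit 0, nat_lit 43708207, nat_lit 23291793, nat_lit 0, nat_lit 3229862, true, false⟩,
 nat_lit 0, nat_lit 0, nat_lit 6678, nat_lit 0, nat_lit 4269, nat_lit 4249, nat_lit 601, nat_lit 0, nat_lit 0, nat_lit 397, nat_lit 0, nat_lit 0, nat_lit 0, nat_lit 0, nat_lit 0, nat_lit 266000, nat_lit 0, nat_lit 0, [(nat_lit 19, [(nat_lit 1, nat_lit 325), (nat_lit 2, nat_lit 136)])],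
 ⟨p090_k20, nat_lit 0, nat_lit 0, nat_lit 191, nat_lit 0, nat_lit 0, [nat_lit 1780660001, nat_lit 3331978934, nat_lit 5471457200], [], [nat_lit 23158176557, nat_lit 24410916371, nat_lit 27189285186, nat_lit 28494105278, nat_lit 20778527789, nat_lit 21967260009, nat_lit 24728910786, nat_lit 25968123566], nat_lit 0, nat_lit 0, nat_lit 0, nat_lit 0, nat_lit 0, nat_lit 0, [], [nat_lit 27, nat_lit 40, nat_lit 40, nat_lit 80, nat_lit 13, nat_lit 317, nat_lit 100, nat_lit 9]⟩, ⟨p090_k21, nat_lit 0, nat_lit 0, nat_lit 584, nat_lit 0, nat_lit 786621, [nat_lit 1768998000, nat_lit 3368750000, nat_lit 6399008000], [], [nat_lit 17570318371, nat_lit 17903046543, nat_lit 18611535947, nat_lit 19132130441, nat_lit 15556568101, nat_lit 15734864926, nat_lit 16275929866, nat_lit 16476489694], nat_lit 1271250, nat_lit 1271250, nat_lit 1271250, nat_lit 1271250, nat_lit 0, nat_lit 2118750, [nat_lit 780000, nat_lit 1435000, nat_lit 1271250],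 [nat_lit 23, nat_lit 40, nat_lit 40, nat_lit 80, nat_lit 12, nat_lit 483, nat_lit 250, nat_lit 12]⟩,
 ⟨nat_lit 3872, nat_lit 4473, ⟨.ofNat (nat_lit 654181), .ofNat (nat_lit 790153), .ofNat (nat_lit 675730), .ofNat (nat_lit 811702), .ofNat (nat_lit 651631), .ofNat (nat_lit 780691), .ofNat (nat_lit 673407), .ofNat (nat_lit 802466)⟩, ⟨.ofNat (nat_lit 0), .ofNat (nat_lit 145099), .ofNat (nat_lit 0), .ofNat (nat_lit 166665), .ofNat (nat_lit 0), .ofNat (nat_lit 153881), .ofNat (nat_lit 0), .ofNat (nat_lit 175674)⟩⟩, [⟨nat_lit 7, nat_lit 100, nat_lit 97, nat_lit 82, nat_lit 12472539⟩, ⟨nat_lit 22, nat_lit 94, nat_lit 100, nat_lit 62, nat_lit 73874808⟩]⟩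
noncomputable def p090_l112 : Lf2 := ⟨nat_lit 0, nat_lit 20, [nat_lit 5, nat_lit 5, nat_lit 5, nat_lit 20], false, nat_lit 80, nat_lit 160, nat_lit 0, nat_lit 300, ⟨nat_lit 148, nat_lit 852, nat_lit 0, nat_lit 7, nat_lit 292, nat_lit 852, nat_lit 86, nat_lit 0, nat_lit 0, nat_lit 0, nat_lit 0, nat_lit 0, nat_lit 41266627, nat_lit 22436687, nat_lit 3296686, nat_lit 4275734, true, false⟩,
 nat_lit 0, nat_lit 0, nat_lit 1827, nat_lit 0, nat_lit 4514, nat_lit 1162, nat_lit 0, nat_lit 0, nat_lit 0, nat_lit 93, nat_lit 0, nat_lit 0, nat_lit 0, nat_lit 0, nat_lit 0, nat_lit 213000, nat_lit 0, nat_lit 0, [(nat_lit 19, [(nat_lit 0, nat_lit 852)])],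
 ⟨p090_k20, nat_lit 0, nat_lit 0, nat_lit 75, nat_lit 0, nat_lit 0, [nat_lit 1614860800, nat_lit 2711700800, nat_lit 4183489760], [], [nat_lit 19680814968, nat_lit 21228630208, nat_lit 24052113112, nat_lit 25490962032, nat_lit 20268737152, nat_lit 21658482560, nat_lit 24202201480, nat_lit 25352584512], nat_lit 0, nat_lit 0, nat_lit 0, nat_lit 0, nat_lit 0, nat_lit 0, [], [nat_lit 27, nat_lit 40, nat_lit 40, nat_lit 80, nat_lit 13, nat_lit 345, nat_lit 125, nat_lit 9]⟩, ⟨p090_k21, nat_lit 0, nat_lit 0, nat_lit 710, nat_lit 0, nat_lit 1034629, [nat_lit 485736000, nat_lit 925000000, nat_lit 1757056000], [], [nat_lit 5200442339, nat_lit 5267710283, nat_lit 5403814331, nat_lit 5454828239, nat_lit 4587191379, nat_lit 4620340363, nat_lit 4670028499, nat_lit 4692183782], nat_lit 1271250, nat_lit 1271250, nat_lit 1271250, nat_lit 1271250, nat_lit 0, nat_lit 2118750, [nat_lit 780000, nat_lit 1435000, nat_lit 1271250], [nat_lit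 23, nat_lit 40, nat_lit 40, nat_lit 80, nat_lit 12, nat_lit 483, nat_lit 250, nat_lit 12]⟩,
 ⟨nat_lit 3872, nat_lit 4473, ⟨.ofNat (nat_lit 654181), .ofNat (nat_lit 790153), .ofNat (nat_lit 675730), .ofNat (nat_lit 811702), .ofNat (nat_lit 651631), .ofNat (nat_lit 780691), .ofNat (nat_lit 673407), .ofNat (nat_lit 802466)⟩, ⟨.ofNat (nat_lit 123532), .ofNat (nat_lit 259489), .ofNat (nat_lit 166665), .ofNat (nat_lit 302621), .ofNat (nat_lit 132088), .ofNat (nat_lit 261131), .ofNat (nat_lit 175674), .ofNat (nat_lit 304717)⟩⟩, [⟨nat_lit 7, nat_lit 100, nat_lit 94, nat_lit 75, nat_lit 19767389⟩]⟩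
noncomputable def p090_l113 : Lf2 := ⟨nat_lit 0, nat_lit 20, [nat_lit 5, nat_lit 5, nat_lit 5, nat_lit 20], false, nat_lit 0, nat_lit 160, nat_lit 0, nat_lit 280, ⟨nat_lit 1000, nat_lit 0, nat_lit 0, nat_lit 0, nat_lit 0, nat_lit 0, nat_lit 0, nat_lit 0, nat_lit 0, nat_lit 0, nat_lit 0, nat_lit 0, nat_lit 0, nat_lit 0, nat_lit 0, nat_lit 0, false, false⟩,
 nat_lit 0, nat_lit 0, nat_lit 9326, nat_lit 0, nat_lit 5639, nat_lit 6456, nat_lit 880, nat_lit 0, nat_lit 0, nat_lit 1283, nat_lit 0, nat_lit 0, nat_lit 0, nat_lit 0, nat_lit 0, nat_lit 0, nat_lit 0, nat_lit 0, [],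
 ⟨p090_k20, nat_lit 0, nat_lit 0, nat_lit 191, nat_lit 0, nat_lit 0, [nat_lit 2032000001, nat_lit 4688000000, nat_lit 9842000000], [], [nat_lit 25283930592, nat_lit 26730944626, nat_lit 29761037204, nat_lit 31518259152, nat_lit 21551296644, nat_lit 22785226760, nat_lit 25545823180, nat_lit 26832092712], nat_lit 0, nat_lit 0, nat_lit 0, nat_lit 0, nat_lit 0, nat_lit 0, [], [nat_lit 27, nat_lit 40, nat_lit 40, nat_lit 80, nat_lit 13, nat_lit 345, nat_lit 125, nat_lit 9]⟩, ⟨p090_k28, nat_lit 0, nat_lit 0, nat_lit 658, nat_lit 0, nat_lit 1076197, [nat_lit 3282000000, nat_lit 6250000000, nat_lit 9842000000], [], [nat_lit 27492277941, nat_lit 28024851717, nat_lit 29706391040, nat_lit 31416145216, nat_lit 25734135444, nat_lit 26064210836, nat_lit 27716455992, nat_lit 28827508512], nat_lit 1271250, nat_lit 1271250, nat_lit 1271250, nat_lit 1271250, nat_lit 0, nat_lit 1977500, [nat_lit 780000, nat_lit 1435000, nat_lit 1271250],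 [nat_lit 8, nat_lit 40, nat_lit 40, nat_lit 80, nat_lit 1, nat_lit 373, nat_lit 150, nat_lit 10]⟩,
 zbF0, [⟨nat_lit 7, nat_lit 100, nat_lit 85, nat_lit 73, nat_lit 208718981⟩]⟩
noncomputable def p090_l114 : Lf2 := ⟨nat_lit 0, nat_lit 15, [nat_lit 30, nat_lit 5, nat_lit 5, nat_lit 20], false, nat_lit 0, nat_lit 80, nat_lit 0, nat_lit 276, ⟨nat_lit 138, nat_lit 862, nat_lit 0, nat_lit 7, nat_lit 277, nat_lit 862, nat_lit 29, nat_lit 0, nat_lit 0, nat_lit 0, nat_lit 0, nat_lit 0, nat_lit 45266554, nat_lit 21733446, nat_lit 0, nat_lit 3150633, true, false⟩,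
 nat_lit 0, nat_lit 0, nat_lit 1891, nat_lit 0, nat_lit 3028, nat_lit 1203, nat_lit 270, nat_lit 0, nat_lit 0, nat_lit 86, nat_lit 0, nat_lit 0, nat_lit 0, nat_lit 0, nat_lit 0, nat_lit 344800, nat_lit 0, nat_lit 0, [(nat_lit 22, [(nat_lit 1, nat_lit 862)])],
 ⟨p090_k32, nat_lit 0, nat_lit 0, nat_lit 165, nat_lit 0, nat_lit 0, [nat_lit 1451356801, nat_lit 1987181600, nat_lit 2301901600], [], [nat_lit 22813260929, nat_lit 23922546193, nat_lit 24270661409, nat_lit 25295110049, nat_lit 21748382601, nat_lit 22797651489, nat_lit 23167154144, nat_lit 24208311008], nat_lit 0, nat_lit 0, nat_lit 0, nat_lit 0, nat_lit 0, nat_lit 0, [], [nat_lit 34, nat_lit 40, nat_lit 40, nat_lit 80, nat_lit 7, nat_lit 226, nat_lit 20, nat_lit 7]⟩, ⟨p090_k23, nat_lit 0, nat_lit 0, nat_lit 767, nat_lit 0, nat_lit 1294969, [nat_lit 452916000, nat_lit 862500000, nat_lit 1358196000], [], [nat_lit 4361147020, nat_lit 4406222444, nat_lit 4426973740,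 nat_lit 4554271432, nat_lit 3675743657, nat_lit 3710740628, nat_lit 3706695188, nat_lit 3751408921], nat_lit 1271250, nat_lit 1271250, nat_lit 1271250, nat_lit 1271250, nat_lit 0, nat_lit 1949250, [nat_lit 780000, nat_lit 1435000, nat_lit 1271250], [nat_lit 8, nat_lit 40, nat_lit 40, nat_lit 80, nat_lit 1, nat_lit 373, nat_lit 150, nat_lit 10]⟩,
 ⟨nat_lit 3162, nat_lit 3873, ⟨.ofNat (nat_lit 651611), .ofNat (nat_lit 716165), .ofNat (nat_lit 673376), .ofNat (nat_lit 737930), .ofNat (nat_lit 649490), .ofNat (nat_lit 710475), .ofNat (nat_lit 671616), .ofNat (nat_lit 732601)⟩, ⟨.ofNat (nat_lit 0), .ofNat (nat_lit 132088), .ofNat (nat_lit 0), .ofNat (nat_lit 153881), .ofNat (nat_lit 0), .ofNat (nat_lit 139899), .ofNat (nat_lit 0), .ofNat (nat_lit 162054)⟩⟩, [⟨nat_lit 22, nat_lit 100, nat_lit 99, nat_lit 63, nat_lit 15221470⟩]⟩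
noncomputable def p090_l115 : Lf2 := ⟨nat_lit 0, nat_lit 20, [nat_lit 5, nat_lit 5, nat_lit 5, nat_lit 20], false, nat_lit 0, nat_lit 80, nat_lit 0, nat_lit 300, ⟨nat_lit 323, nat_lit 677, nat_lit 0, nat_lit 7, nat_lit 278, nat_lit 677, nat_lit 33, nat_lit 0, nat_lit 0, nat_lit 0, nat_lit 0, nat_lit 0, nat_lit 45225748, nat_lit 21774252, nat_lit 0, nat_lit 3152863, true, false⟩,
 nat_lit 0, nat_lit 0, nat_lit 4149, nat_lit 0, nat_lit 3402, nat_lit 2640, nat_lit 409, nat_lit 0, nat_lit 0, nat_lit 237, nat_lit 0, nat_lit 0, nat_lit 0, nat_lit 0, nat_lit 0, nat_lit 270800, nat_lit 0, nat_lit 0, [(nat_lit 22, [(nat_lit 1, nat_lit 677)])],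
 ⟨p090_k25, nat_lit 0, nat_lit 0, nat_lit 161, nat_lit 0, nat_lit 0, [nat_lit 1575972800, nat_lit 2566823600, nat_lit 3517943600], [], [nat_lit 22860562852, nat_lit 23475392642, nat_lit 24419345468, nat_lit 25007527614, nat_lit 21434705700, nat_lit 22012806545, nat_lit 22992409153, nat_lit 23539146641], nat_lit 0, nat_lit 0, nat_lit 0, nat_lit 0, nat_lit 0, nat_lit 0, [], [nat_lit 34, nat_lit 40, nat_lit 40, nat_lit 80, nat_lit 7, nat_lit 226, nat_lit 20, nat_lit 7]⟩, ⟨p090_k21, nat_lit 0, nat_lit 0, nat_lit 670, nat_lit 0, nat_lit 918609, [nat_lit 1060086000, nat_lit 2018750000, nat_lit 3834656000], [], [nat_lit 10259511975, nat_lit 10461035217, nat_lit 10528903455, nat_lit 10784072853, nat_lit 8950020127, nat_lit 9056988281, nat_lit 9146438970, nat_lit 9382433915], nat_lit 1271250, nat_lit 1271250, nat_lit 1271250, nat_lit 1271250, nat_lit 0, nat_lit 2118750, [nat_lit 780000, nat_lit 1435000, nat_lit 1271250],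 [nat_lit 23, nat_lit 40, nat_lit 40, nat_lit 80, nat_lit 12, nat_lit 456, nat_lit 225, nat_lit 11]⟩,
 ⟨nat_lit 3535, nat_lit 3873, ⟨.ofNat (nat_lit 651675), .ofNat (nat_lit 716203), .ofNat (nat_lit 673463), .ofNat (nat_lit 737990), .ofNat (nat_lit 650552), .ofNat (nat_lit 713320), .ofNat (nat_lit 672499), .ofNat (nat_lit 735266)⟩, ⟨.ofNat (nat_lit 0), .ofNat (nat_lit 153881), .ofNat (nat_lit 0), .ofNat (nat_lit 175674), .ofNat (nat_lit 0), .ofNat (nat_lit 158046), .ofNat (nat_lit 0), .ofNat (nat_lit 179999)⟩⟩, [⟨nat_lit 19, nat_lit 97, nat_lit 100, nat_lit 82, nat_lit 19044758⟩, ⟨nat_lit 22, nat_lit 100, nat_lit 99, nat_lit 63, nat_lit 31373274⟩]⟩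
noncomputable def p090_l116 : Lf2 := ⟨nat_lit 0, nat_lit 20, [nat_lit 5, nat_lit 5, nat_lit 5, nat_lit 20], false, nat_lit 0, nat_lit 80, nat_lit 0, nat_lit 300, ⟨nat_lit 287, nat_lit 713, nat_lit 0, nat_lit 7, nat_lit 277, nat_lit 713, nat_lit 34, nat_lit 0, nat_lit 0, nat_lit 0, nat_lit 0, nat_lit 0, nat_lit 45304801, nat_lit 21695199, nat_lit 0, nat_lit 3148535, true, false⟩,
 nat_lit 0, nat_lit 0, nat_lit 3721, nat_lit 0, nat_lit 3154, nat_lit 2367, nat_lit 357, nat_lit 0, nat_lit 0, nat_lit 192, nat_lit 0, nat_lit 0, nat_lit 0, nat_lit 0, nat_lit 0, nat_lit 285200, nat_lit 0, nat_lit 0, [(nat_lit 22, [(nat_lit 1, nat_lit 713)])],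
 ⟨p090_k33, nat_lit 0, nat_lit 0, nat_lit 165, nat_lit 0, nat_lit 0, [nat_lit 1551723201, nat_lit 2454028400, nat_lit 3281308400], [], [nat_lit 23269439106, nat_lit 23833638082, nat_lit 24697841030, nat_lit 25225696912, nat_lit 22079051268, nat_lit 22612521210, nat_lit 23479957359, nat_lit 24009348735], nat_lit 0, nat_lit 0, nat_lit 0, nat_lit 0, nat_lit 0, nat_lit 0, [], [nat_lit 34, nat_lit 40, nat_lit 40, nat_lit 80, nat_lit 7, nat_lit 226, nat_lit 20, nat_lit 7]⟩, ⟨p090_k21, nat_lit 0, nat_lit 0, nat_lit 718, nat_lit 0, nat_lit 1057066, [nat_lit 941934000, nat_lit 1793750000, nat_lit 3407264000], [], [nat_lit 9521162780, nat_lit 9652410050, nat_lit 9682805320, nat_lit 9797981482, nat_lit 8205849753, nat_lit 8268359002, nat_lit 8290739436, nat_lit 8501081496], nat_lit 1271250, nat_lit 1271250, nat_lit 1271250, nat_lit 1271250, nat_lit 0, nat_lit 2118750, [nat_lit 780000, nat_lit 1435000, nat_lit 1271250], [nat_lit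 23, nat_lit 40, nat_lit 40, nat_lit 80, nat_lit 12, nat_lit 456, nat_lit 225, nat_lit 11]⟩,
 ⟨nat_lit 3162, nat_lit 3536, ⟨.ofNat (nat_lit 650549), .ofNat (nat_lit 713320), .ofNat (nat_lit 672493), .ofNat (nat_lit 735265), .ofNat (nat_lit 649550), .ofNat (nat_lit 710513), .ofNat (nat_lit 671696), .ofNat (nat_lit 732660)⟩, ⟨.ofNat (nat_lit 0), .ofNat (nat_lit 158046), .ofNat (nat_lit 0), .ofNat (nat_lit 179999), .ofNat (nat_lit 0), .ofNat (nat_lit 162054), .ofNat (nat_lit 0), .ofNat (nat_lit 184209)⟩⟩, [⟨nat_lit 7, nat_lit 100, nat_lit 97, nat_lit 82, nat_lit 19154892⟩, ⟨nat_lit 22, nat_lit 100, nat_lit 99, nat_lit 63, nat_lit 21281428⟩]⟩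
noncomputable def p090_l117 : Lf2 := ⟨nat_lit 0, nat_lit 15, [nat_lit 30, nat_lit 5, nat_lit 5, nat_lit 20], false, nat_lit 0, nat_lit 80, nat_lit 0, nat_lit 276, ⟨nat_lit 151, nat_lit 849, nat_lit 0, nat_lit 7, nat_lit 303, nat_lit 849, nat_lit 29, nat_lit 0, nat_lit 0, nat_lit 0, nat_lit 0, nat_lit 0, nat_lit 42571191, nat_lit 24428809, nat_lit 0, nat_lit 3280119, true, true⟩,
 nat_lit 0, nat_lit 0, nat_lit 1939, nat_lit 0, nat_lit 3071, nat_lit 1233, nat_lit 276, nat_lit 0, nat_lit 0, nat_lit 87, nat_lit 0, nat_lit 0, nat_lit 0, nat_lit 0, nat_lit 0, nat_lit 339600, nat_lit 0, nat_lit 0, [(nat_lit 22, [(nat_lit 1, nat_lit 849)])],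
 ⟨p090_k32, nat_lit 0, nat_lit 0, nat_lit 171, nat_lit 0, nat_lit 0, [nat_lit 1460113600, nat_lit 2027913200, nat_lit 2387353200], [], [nat_lit 24299342356, nat_lit 24815479827, nat_lit 25992386640, nat_lit 26491410014, nat_lit 23140614608, nat_lit 23658393268, nat_lit 24829793414, nat_lit 25310059443], nat_lit 0, nat_lit 0, nat_lit 0, nat_lit 0, nat_lit 0, nat_lit 0, [], [nat_lit 34, nat_lit 40, nat_lit 40, nat_lit 80, nat_lit 7, nat_lit 226, nat_lit 20, nat_lit 6]⟩, ⟨p090_k23, nat_lit 0, nat_lit 0, nat_lit 707, nat_lit 0, nat_lit 1153880, [nat_lit 495582000, nat_lit 943750000, nat_lit 1486142000], [], [nat_lit 5204810810, nat_lit 5259507072, nat_lit 5314203334, nat_lit 5392427146, nat_lit 4408822528, nat_lit 4445530521, nat_lit 4483231192, nat_lit 4514266477], nat_lit 1271250, nat_lit 1271250, nat_lit 1271250, nat_lit 1271250, nat_lit 0, nat_lit 1949250, [nat_lit 780000, nat_lit 1435000, nat_lit 1271250], [nat_lit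 8, nat_lit 40, nat_lit 40, nat_lit 80, nat_lit 1, nat_lit 289, nat_lit 75, nat_lit 8]⟩,
 ⟨nat_lit 3535, nat_lit 3873, ⟨.ofNat (nat_lit 716203), .ofNat (nat_lit 780730), .ofNat (nat_lit 737990), .ofNat (nat_lit 802518), .ofNat (nat_lit 713320), .ofNat (nat_lit 776087), .ofNat (nat_lit 735266), .ofNat (nat_lit 798034)⟩, ⟨.ofNat (nat_lit 0), .ofNat (nat_lit 132088), .ofNat (nat_lit 0), .ofNat (nat_lit 153881), .ofNat (nat_lit 0), .ofNat (nat_lit 136093), .ofNat (nat_lit 0), .ofNat (nat_lit 158046)⟩⟩, [⟨nat_lit 22, nat_lit 87, nat_lit 100, nat_lit 60, nat_lit 19858622⟩]⟩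
noncomputable def p090_l118 : Lf2 := ⟨nat_lit 0, nat_lit 15, [nat_lit 30, nat_lit 5, nat_lit 5, nat_lit 20], false, nat_lit 0, nat_lit 80, nat_lit 0, nat_lit 276, ⟨nat_lit 124, nat_lit 876, nat_lit 0, nat_lit 7, nat_lit 302, nat_lit 876, nat_lit 30, nat_lit 0, nat_lit 0, nat_lit 0, nat_lit 0, nat_lit 0, nat_lit 42683515, nat_lit 24316485, nat_lit 0, nat_lit 3275433, true, true⟩,
 nat_lit 0, nat_lit 0, nat_lit 1611, nat_lit 0, nat_lit 3191, nat_lit 1025, nat_lit 286, nat_lit 0, nat_lit 0, nat_lit 67, nat_lit 0, nat_lit 0, nat_lit 0, nat_lit 0, nat_lit 0, nat_lit 219000, nat_lit 0, nat_lit 0, [(nat_lit 22, [(nat_lit 0, nat_lit 876)])],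
 ⟨p090_k34, nat_lit 0, nat_lit 0, nat_lit 153, nat_lit 0, nat_lit 0, [nat_lit 1625536001, nat_lit 2307732800, nat_lit 2816780800], [], [nat_lit 25357798646, nat_lit 25599182259, nat_lit 26872096638, nat_lit 27094961997, nat_lit 24373147199, nat_lit 24601114547, nat_lit 25811923463, nat_lit 26021778305], nat_lit 0, nat_lit 0, nat_lit 0, nat_lit 0, nat_lit 0, nat_lit 0, [], [nat_lit 6, nat_lit 40, nat_lit 40, nat_lit 80, nat_lit 3, nat_lit 226, nat_lit 20, nat_lit 7]⟩, ⟨p090_k23, nat_lit 0, nat_lit 0, nat_lit 733, nat_lit 0, nat_lit 1223568, [nat_lit 406968000, nat_lit 775000000, nat_lit 1220408000], [], [nat_lit 4368430154, nat_lit 4398817060, nat_lit 4429203966, nat_lit 4476417668, nat_lit 3683188532, nat_lit 3702079787, nat_lit 3720971042, nat_lit 3738315593], nat_lit 1271250, nat_lit 1271250, nat_lit 1271250, nat_lit 1271250, nat_lit 0, nat_lit 1949250, [nat_lit 780000, nat_lit 1435000, nat_lit 1271250], [nat_lit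 8, nat_lit 40, nat_lit 40, nat_lit 80, nat_lit 1, nat_lit 296, nat_lit 75, nat_lit 8]⟩,
 ⟨nat_lit 3354, nat_lit 3536, ⟨.ofNat (nat_lit 713329), .ofNat (nat_lit 776093), .ofNat (nat_lit 735280), .ofNat (nat_lit 798044), .ofNat (nat_lit 711917), .ofNat (nat_lit 773784), .ofNat (nat_lit 733962), .ofNat (nat_lit 795830)⟩, ⟨.ofNat (nat_lit 0), .ofNat (nat_lit 136093), .ofNat (nat_lit 0), .ofNat (nat_lit 158046), .ofNat (nat_lit 0), .ofNat (nat_lit 138023), .ofNat (nat_lit 0), .ofNat (nat_lit 160070)⟩⟩, [⟨nat_lit 22, nat_lit 87, nat_lit 100, nat_lit 60, nat_lit 15910822⟩]⟩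
noncomputable def p090_l119 : Lf2 := ⟨nat_lit 0, nat_lit 15, [nat_lit 30, nat_lit 5, nat_lit 5, nat_lit 20], false, nat_lit 0, nat_lit 80, nat_lit 0, nat_lit 276, ⟨nat_lit 116, nat_lit 884, nat_lit 0, nat_lit 7, nat_lit 301, nat_lit 884, nat_lit 30, nat_lit 0, nat_lit 0, nat_lit 0, nat_lit 0, nat_lit 0, nat_lit 42757642, nat_lit 24242358, nat_lit 0, nat_lit 3272307, true, true⟩,
 nat_lit 0, nat_lit 0, nat_lit 1499, nat_lit 0, nat_lit 3177, nat_lit 953, nat_lit 246, nat_lit 0, nat_lit 0, nat_lit 62, nat_lit 0, nat_lit 0, nat_lit 0, nat_lit 0, nat_lit 0, nat_lit 221000, nat_lit 0, nat_lit 0, [(nat_lit 22, [(nat_lit 0, nat_lit 884)])],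
 ⟨p090_k35, nat_lit 0, nat_lit 0, nat_lit 155, nat_lit 0, nat_lit 0, [nat_lit 1621824001, nat_lit 2285995200, nat_lit 2785427200], [], [nat_lit 25683327554, nat_lit 25924298341, nat_lit 27175987752, nat_lit 27397262713, nat_lit 24694775313, nat_lit 24922364269, nat_lit 26113723539, nat_lit 26323255513], nat_lit 0, nat_lit 0, nat_lit 0, nat_lit 0, nat_lit 0, nat_lit 0, [], [nat_lit 6, nat_lit 40, nat_lit 40, nat_lit 80, nat_lit 3, nat_lit 226, nat_lit 20, nat_lit 7]⟩, ⟨p090_k23, nat_lit 0, nat_lit 0, nat_lit 760, nat_lit 0, nat_lit 1294969, [nat_lit 380712000, nat_lit 725000000, nat_lit 1141672000], [], [nat_lit 4125247384, nat_lit 4153749122, nat_lit 4182250860, nat_lit 4205642802, nat_lit 3486063356, nat_lit 3503305913, nat_lit 3521101426, nat_lit 3534727503], nat_lit 1271250, nat_lit 1271250, nat_lit 1271250, nat_lit 1271250, nat_lit 0, nat_lit 1949250, [nat_lit 780000, nat_lit 1435000, nat_lit 1271250], [nat_lit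 8, nat_lit 40, nat_lit 40, nat_lit 80, nat_lit 1, nat_lit 302, nat_lit 75, nat_lit 8]⟩,
 ⟨nat_lit 3162, nat_lit 3355, ⟨.ofNat (nat_lit 711917), .ofNat (nat_lit 773784), .ofNat (nat_lit 733962), .ofNat (nat_lit 795830), .ofNat (nat_lit 710523), .ofNat (nat_lit 771478), .ofNat (nat_lit 732675), .ofNat (nat_lit 793631)⟩, ⟨.ofNat (nat_lit 0), .ofNat (nat_lit 138023), .ofNat (nat_lit 0), .ofNat (nat_lit 160070), .ofNat (nat_lit 0), .ofNat (nat_lit 139899), .ofNat (nat_lit 0), .ofNat (nat_lit 162054)⟩⟩, [⟨nat_lit 22, nat_lit 91, nat_lit 100, nat_lit 22, nat_lit 4924494⟩, ⟨nat_lit 22, nat_lit 87, nat_lit 100, nat_lit 60, nat_lit 12913572⟩]⟩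
noncomputable def p090_l120 : Lf2 := ⟨nat_lit 0, nat_lit 20, [nat_lit 5, nat_lit 5, nat_lit 5, nat_lit 20], false, nat_lit 0, nat_lit 80, nat_lit 0, nat_lit 300, ⟨nat_lit 337, nat_lit 663, nat_lit 0, nat_lit 7, nat_lit 301, nat_lit 663, nat_lit 33, nat_lit 0, nat_lit 0, nat_lit 0, nat_lit 0, nat_lit 0, nat_lit 42795591, nat_lit 24204409, nat_lit 0, nat_lit 3270697, true, true⟩,
 nat_lit 0, nat_lit 0, nat_lit 4143, nat_lit 0, nat_lit 3434, nat_lit 2636, nat_lit 394, nat_lit 0, nat_lit 0, nat_lit 241, nat_lit 0, nat_lit 0, nat_lit 0, nat_lit 0, nat_lit 0, nat_lit 265200, nat_lit 0, nat_lit 0, [(nat_lit 22, [(nat_lit 1, nat_lit 663)])],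
 ⟨p090_k25, nat_lit 0, nat_lit 0, nat_lit 171, nat_lit 0, nat_lit 0, [nat_lit 1585403201, nat_lit 2610688401, nat_lit 3609968400], [], [nat_lit 24659872556, nat_lit 25227038458, nat_lit 26648807712, nat_lit 27326177156, nat_lit 23069950033, nat_lit 23585051725, nat_lit 24797589209, nat_lit 25299671175], nat_lit 0, nat_lit 0, nat_lit 0, nat_lit 0, nat_lit 0, nat_lit 0, [], [nat_lit 34, nat_lit 40, nat_lit 40, nat_lit 80, nat_lit 7, nat_lit 226, nat_lit 20, nat_lit 6]⟩, ⟨p090_k21, nat_lit 0, nat_lit 0, nat_lit 626, nat_lit 0, nat_lit 840451, [nat_lit 1106034000, nat_lit 2106250000, nat_lit 4000864000], [], [nat_lit 11396946019, nat_lit 11489278660, nat_lit 11766276583, nat_lit 11846695835, nat_lit 9999059179, nat_lit 10047147119, nat_lit 10258460849, nat_lit 10321174803], nat_lit 1271250, nat_lit 1271250, nat_lit 1271250, nat_lit 1271250, nat_lit 0, nat_lit 2118750, [nat_lit 780000, nat_lit 1435000, nat_lit 1271250],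 [nat_lit 23, nat_lit 40, nat_lit 40, nat_lit 80, nat_lit 12, nat_lit 483, nat_lit 250, nat_lit 12]⟩,
 ⟨nat_lit 3535, nat_lit 3873, ⟨.ofNat (nat_lit 716203), .ofNat (nat_lit 780730), .ofNat (nat_lit 727096), .ofNat (nat_lit 791624), .ofNat (nat_lit 713320), .ofNat (nat_lit 776087), .ofNat (nat_lit 724293), .ofNat (nat_lit 787061)⟩, ⟨.ofNat (nat_lit 0), .ofNat (nat_lit 153881), .ofNat (nat_lit 0), .ofNat (nat_lit 175674), .ofNat (nat_lit 0), .ofNat (nat_lit 158046), .ofNat (nat_lit 0), .ofNat (nat_lit 179999)⟩⟩, [⟨nat_lit 22, nat_lit 87, nat_lit 100, nat_lit 60, nat_lit 67922781⟩]⟩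
noncomputable def p090_l121 : Lf2 := ⟨nat_lit 0, nat_lit 20, [nat_lit 5, nat_lit 5, nat_lit 5, nat_lit 20], false, nat_lit 0, nat_lit 80, nat_lit 0, nat_lit 300, ⟨nat_lit 308, nat_lit 692, nat_lit 0, nat_lit 7, nat_lit 299, nat_lit 692, nat_lit 34, nat_lit 0, nat_lit 0, nat_lit 0, nat_lit 0, nat_lit 0, nat_lit 42947460, nat_lit 24052540, nat_lit 0, nat_lit 3264182, true, true⟩,
 nat_lit 0, nat_lit 0, nat_lit 3869, nat_lit 0, nat_lit 3250, nat_lit 2462, nat_lit 384, nat_lit 0, nat_lit 0, nat_lit 202, nat_lit 0, nat_lit 0, nat_lit 0, nat_lit 0, nat_lit 0, nat_lit 276800, nat_lit 0, nat_lit 0, [(nat_lit 22, [(nat_lit 1, nat_lit 692)])],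
 ⟨p090_k33, nat_lit 0, nat_lit 0, nat_lit 174, nat_lit 0, nat_lit 0, [nat_lit 1565868801, nat_lit 2519825600, nat_lit 3419345600], [], [nat_lit 24810985501, nat_lit 25431706000, nat_lit 26903044500, nat_lit 27563621000, nat_lit 23749155501, nat_lit 24179058001, nat_lit 25187961452, nat_lit 25621581202], nat_lit 0, nat_lit 0, nat_lit 0, nat_lit 0, nat_lit 0, nat_lit 0, [], [nat_lit 34, nat_lit 40, nat_lit 40, nat_lit 80, nat_lit 7, nat_lit 226, nat_lit 20, nat_lit 6]⟩, ⟨p090_k21, nat_lit 0, nat_lit 0, nat_lit 685, nat_lit 0, nat_lit 982630, [nat_lit 1010856000, nat_lit 1925000000, nat_lit 3656576000], [], [nat_lit 10742750822, nat_lit 10804495348, nat_lit 10989728926, nat_lit 11042714860, nat_lit 9296690572, nat_lit 9325178833, nat_lit 9461153672, nat_lit 9533297083], nat_lit 1271250, nat_lit 1271250, nat_lit 1271250, nat_lit 1271250, nat_lit 0, nat_lit 2118750, [nat_lit 780000, nat_lit 1435000, nat_lit 1271250],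 [nat_lit 23, nat_lit 40, nat_lit 40, nat_lit 80, nat_lit 12, nat_lit 483, nat_lit 250, nat_lit 12]⟩,
 ⟨nat_lit 3162, nat_lit 3536, ⟨.ofNat (nat_lit 713320), .ofNat (nat_lit 776092), .ofNat (nat_lit 724293), .ofNat (nat_lit 787064), .ofNat (nat_lit 710513), .ofNat (nat_lit 771477), .ofNat (nat_lit 721587), .ofNat (nat_lit 782550)⟩, ⟨.ofNat (nat_lit 0), .ofNat (nat_lit 158046), .ofNat (nat_lit 0), .ofNat (nat_lit 179999), .ofNat (nat_lit 0), .ofNat (nat_lit 162054), .ofNat (nat_lit 0), .ofNat (nat_lit 184209)⟩⟩, [⟨nat_lit 22, nat_lit 87, nat_lit 100, nat_lit 60, nat_lit 58630050⟩]⟩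
noncomputable def p090_l122 : Lf2 := ⟨nat_lit 0, nat_lit 20, [nat_lit 5, nat_lit 5, nat_lit 5, nat_lit 20], false, nat_lit 0, nat_lit 80, nat_lit 0, nat_lit 292, ⟨nat_lit 429, nat_lit 571, nat_lit 0, nat_lit 7, nat_lit 304, nat_lit 571, nat_lit 34, nat_lit 0, nat_lit 0, nat_lit 0, nat_lit 0, nat_lit 0, nat_lit 42421946, nat_lit 24578054, nat_lit 0, nat_lit 3286252, true, true⟩,
 nat_lit 0, nat_lit 0, nat_lit 4846, nat_lit 0, nat_lit 3804, nat_lit 3218, nat_lit 129, nat_lit 0, nat_lit 0, nat_lit 397, nat_lit 0, nat_lit 0, nat_lit 0, nat_lit 0, nat_lit 0, nat_lit 571000, nat_lit 0, nat_lit 0, [(nat_lit 22, [(nat_lit 2, nat_lit 571)])],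
 ⟨p090_k25, nat_lit 0, nat_lit 0, nat_lit 174, nat_lit 0, nat_lit 0, [nat_lit 1668082667, nat_lit 2007954400, nat_lit 1208273600], [], [nat_lit 25033384344, nat_lit 26620550112, nat_lit 27465903872, nat_lit 28888179600, nat_lit 23304973364, nat_lit 24250427581, nat_lit 24868106293, nat_lit 26017453072], nat_lit 0, nat_lit 0, nat_lit 0, nat_lit 0, nat_lit 0, nat_lit 0, [], [nat_lit 34, nat_lit 40, nat_lit 40, nat_lit 80, nat_lit 7, nat_lit 226, nat_lit 20, nat_lit 6]⟩, ⟨p090_k24, nat_lit 0, nat_lit 0, nat_lit 687, nat_lit 0, nat_lit 993869, [nat_lit 1407978000, nat_lit 2681250000, nat_lit 5093088000], [], [nat_lit 13462504185, nat_lit 13584564132, nat_lit 13936176915, nat_lit 14043669804, nat_lit 12116154848, nat_lit 12184011847, nat_lit 12377801166, nat_lit 12435876487], nat_lit 1271250, nat_lit 1271250, nat_lit 1271250, nat_lit 1271250, nat_lit 0, nat_lit 2062250, [nat_lit 780000, nat_lit 1435000, nat_lit 1271250],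 [nat_lit 23, nat_lit 40, nat_lit 40, nat_lit 80, nat_lit 12, nat_lit 483, nat_lit 250, nat_lit 12]⟩,
 ⟨nat_lit 3162, nat_lit 3873, ⟨.ofNat (nat_lit 727048), .ofNat (nat_lit 791601), .ofNat (nat_lit 737930), .ofNat (nat_lit 802484), .ofNat (nat_lit 721539), .ofNat (nat_lit 782524), .ofNat (nat_lit 732601), .ofNat (nat_lit 793588)⟩, ⟨.ofNat (nat_lit 0), .ofNat (nat_lit 153881), .ofNat (nat_lit 0), .ofNat (nat_lit 175674), .ofNat (nat_lit 0), .ofNat (nat_lit 162054), .ofNat (nat_lit 0), .ofNat (nat_lit 184209)⟩⟩, [⟨nat_lit 22, nat_lit 87, nat_lit 100, nat_lit 60, nat_lit 94045773⟩]⟩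
noncomputable def p090_l123 : Lf2 := ⟨nat_lit 0, nat_lit 15, [nat_lit 30, nat_lit 5, nat_lit 5, nat_lit 20], false, nat_lit 0, nat_lit 80, nat_lit 0, nat_lit 256, ⟨nat_lit 912, nat_lit 88, nat_lit 0, nat_lit 7, nat_lit 299, nat_lit 88, nat_lit 29, nat_lit 0, nat_lit 0, nat_lit 0, nat_lit 0, nat_lit 0, nat_lit 42980442, nat_lit 24019558, nat_lit 0, nat_lit 3262753, true, false⟩,
 nat_lit 0, nat_lit 0, nat_lit 8045, nat_lit 0, nat_lit 4101, nat_lit 5569, nat_lit 792, nat_lit 0, nat_lit 0, nat_lit 1372, nat_lit 0, nat_lit 0, nat_lit 0, nat_lit 0, nat_lit 0, nat_lit 35200, nat_lit 0, nat_lit 0, [(nat_lit 22, [(nat_lit 1, nat_lit 88)])],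
 ⟨p090_k32, nat_lit 0, nat_lit 0, nat_lit 171, nat_lit 0, nat_lit 0, [nat_lit 1972723201, nat_lit 4412278400, nat_lit 7389558400], [], [nat_lit 23672009426, nat_lit 24343734321, nat_lit 28121789168, nat_lit 28860033034, nat_lit 21780245022, nat_lit 22428667662, nat_lit 25333268336, nat_lit 25875436335], nat_lit 0, nat_lit 0, nat_lit 0, nat_lit 0, nat_lit 0, nat_lit 0, [], [nat_lit 34, nat_lit 40, nat_lit 40, nat_lit 80, nat_lit 7, nat_lit 226, nat_lit 20, nat_lit 7]⟩, ⟨p090_k26, nat_lit 0, nat_lit 0, nat_lit 718, nat_lit 0, nat_lit 1171380, [nat_lit 2993184000, nat_lit 5700000000, nat_lit 8975904000], [], [nat_lit 25782823822, nat_lit 26271427832, nat_lit 27317881042, nat_lit 28005542060, nat_lit 24429729244, nat_lit 24755202312, nat_lit 25558900738, nat_lit 25913514414], nat_lit 1271250, nat_lit 1271250, nat_lit 1271250, nat_lit 1271250, nat_lit 0, nat_lit 1808000, [nat_lit 780000, nat_lit 1435000, nat_lit 1271250],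 [nat_lit 8, nat_lit 40, nat_lit 40, nat_lit 80, nat_lit 1, nat_lit 373, nat_lit 150, nat_lit 10]⟩,
 ⟨nat_lit 3535, nat_lit 3873, ⟨.ofNat (nat_lit 673463), .ofNat (nat_lit 802518), .ofNat (nat_lit 695250), .ofNat (nat_lit 824304), .ofNat (nat_lit 672499), .ofNat (nat_lit 798034), .ofNat (nat_lit 694446), .ofNat (nat_lit 819980)⟩, ⟨.ofNat (nat_lit 0), .ofNat (nat_lit 132088), .ofNat (nat_lit 0), .ofNat (nat_lit 153881), .ofNat (nat_lit 0), .ofNat (nat_lit 136093), .ofNat (nat_lit 0), .ofNat (nat_lit 158046)⟩⟩, [⟨nat_lit 7, nat_lit 100, nat_lit 84, nat_lit 67, nat_lit 222633558⟩]⟩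
noncomputable def p090_l124 : Lf2 := ⟨nat_lit 0, nat_lit 15, [nat_lit 30, nat_lit 5, nat_lit 5, nat_lit 20], false, nat_lit 0, nat_lit 80, nat_lit 0, nat_lit 256, ⟨nat_lit 409, nat_lit 591, nat_lit 0, nat_lit 7, nat_lit 298, nat_lit 591, nat_lit 30, nat_lit 0, nat_lit 0, nat_lit 0, nat_lit 0, nat_lit 0, nat_lit 43086738, nat_lit 23913262, nat_lit 0, nat_lit 3258109, true, false⟩,
 nat_lit 0, nat_lit 0, nat_lit 3834, nat_lit 0, nat_lit 3597, nat_lit 2654, nat_lit 364, nat_lit 0, nat_lit 0, nat_lit 490, nat_lit 0, nat_lit 0, nat_lit 0, nat_lit 0, nat_lit 0, nat_lit 147750, nat_lit 0, nat_lit 0, [(nat_lit 22, [(nat_lit 0, nat_lit 591)])],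
 ⟨p090_k34, nat_lit 0, nat_lit 0, nat_lit 155, nat_lit 0, nat_lit 0, [nat_lit 1757776001, nat_lit 3082134801, nat_lit 3933752800], [], [nat_lit 24632221007, nat_lit 25181302746, nat_lit 27701017498, nat_lit 28393263300, nat_lit 23440029410, nat_lit 23956740502, nat_lit 26249169706, nat_lit 26687605734], nat_lit 0, nat_lit 0, nat_lit 0, nat_lit 0, nat_lit 0, nat_lit 0, [], [nat_lit 6, nat_lit 40, nat_lit 40, nat_lit 80, nat_lit 3, nat_lit 226, nat_lit 20, nat_lit 8]⟩, ⟨p090_k26, nat_lit 0, nat_lit 0, nat_lit 763, nat_lit 0, nat_lit 1289753, [nat_lit 1342338000, nat_lit 2556250000, nat_lit 4025378000], [], [nat_lit 11991428754, nat_lit 12156945966, nat_lit 12487505050, nat_lit 12876544076, nat_lit 10970038804, nat_lit 11074616023, nat_lit 11257397127, nat_lit 11361241098], nat_lit 1271250, nat_lit 1271250, nat_lit 1271250, nat_lit 1271250, nat_lit 0, nat_lit 1808000, [nat_lit 780000, nat_lit 1435000, nat_lit 1271250],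 [nat_lit 8, nat_lit 40, nat_lit 40, nat_lit 80, nat_lit 1, nat_lit 373, nat_lit 150, nat_lit 10]⟩,
 ⟨nat_lit 3162, nat_lit 3536, ⟨.ofNat (nat_lit 672493), .ofNat (nat_lit 798037), .ofNat (nat_lit 694437), .ofNat (nat_lit 819981), .ofNat (nat_lit 671696), .ofNat (nat_lit 793624), .ofNat (nat_lit 693843), .ofNat (nat_lit 815770)⟩, ⟨.ofNat (nat_lit 0), .ofNat (nat_lit 136093), .ofNat (nat_lit 0), .ofNat (nat_lit 158046), .ofNat (nat_lit 0), .ofNat (nat_lit 139899), .ofNat (nat_lit 0), .ofNat (nat_lit 162054)⟩⟩, [⟨nat_lit 7, nat_lit 100, nat_lit 84, nat_lit 67, nat_lit 71063947⟩]⟩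
noncomputable def p090_l125 : Lf2 := ⟨nat_lit 0, nat_lit 20, [nat_lit 5, nat_lit 5, nat_lit 5, nat_lit 20], false, nat_lit 0, nat_lit 80, nat_lit 0, nat_lit 280, ⟨nat_lit 1000, nat_lit 0, nat_lit 0, nat_lit 0, nat_lit 0, nat_lit 0, nat_lit 0, nat_lit 0, nat_lit 0, nat_lit 0, nat_lit 0, nat_lit 0, nat_lit 0, nat_lit 0, nat_lit 0, nat_lit 0, false, false⟩,
 nat_lit 0, nat_lit 0, nat_lit 9113, nat_lit 0, nat_lit 4460, nat_lit 6308, nat_lit 802, nat_lit 0, nat_lit 0, nat_lit 1337, nat_lit 0, nat_lit 0, nat_lit 0, nat_lit 0, nat_lit 0, nat_lit 0, nat_lit 0, nat_lit 0, [],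
 ⟨p090_k25, nat_lit 0, nat_lit 0, nat_lit 174, nat_lit 0, nat_lit 0, [nat_lit 2032000001, nat_lit 4688000000, nat_lit 7968000000], [], [nat_lit 24682261330, nat_lit 25961185680, nat_lit 28914593280, nat_lit 30456610000, nat_lit 22872902491, nat_lit 23932132531, nat_lit 26016239741, nat_lit 27035000261], nat_lit 0, nat_lit 0, nat_lit 0, nat_lit 0, nat_lit 0, nat_lit 0, [], [nat_lit 34, nat_lit 40, nat_lit 40, nat_lit 80, nat_lit 7, nat_lit 226, nat_lit 20, nat_lit 7]⟩, ⟨p090_k28, nat_lit 0, nat_lit 0, nat_lit 660, nat_lit 0, nat_lit 1080178, [nat_lit 3282000000, nat_lit 6250000000, nat_lit 9842000000], [], [nat_lit 27810801348, nat_lit 28346630044, nat_lit 29473716764, nat_lit 31116321488, nat_lit 26220510392, nat_lit 26552863227, nat_lit 27624891056, nat_lit 28723782416], nat_lit 1271250, nat_lit 1271250, nat_lit 1271250, nat_lit 1271250, nat_lit 0, nat_lit 1977500, [nat_lit 780000, nat_lit 1435000, nat_lit 1271250],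 [nat_lit 8, nat_lit 40, nat_lit 40, nat_lit 80, nat_lit 1, nat_lit 373, nat_lit 150, nat_lit 10]⟩,
 zbF0, [⟨nat_lit 19, nat_lit 87, nat_lit 100, nat_lit 79, nat_lit 193524624⟩]⟩
noncomputable def p090_l126 : Lf2 := ⟨nat_lit 0, nat_lit 20, [nat_lit 5, nat_lit 5, nat_lit 5, nat_lit 20], false, nat_lit 80, nat_lit 160, nat_lit 0, nat_lit 300, ⟨nat_lit 55, nat_lit 945, nat_lit 0, nat_lit 7, nat_lit 288, nat_lit 945, nat_lit 88, nat_lit 0, nat_lit 0, nat_lit 0, nat_lit 0, nat_lit 0, nat_lit 41599928, nat_lit 21970773, nat_lit 3429299, nat_lit 4283444, true, false⟩,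
 nat_lit 0, nat_lit 0, nat_lit 790, nat_lit 0, nat_lit 4555, nat_lit 502, nat_lit 0, nat_lit 0, nat_lit 0, nat_lit 22, nat_lit 0, nat_lit 0, nat_lit 0, nat_lit 0, nat_lit 0, nat_lit 236250, nat_lit 0, nat_lit 0, [(nat_lit 22, [(nat_lit 0, nat_lit 945)])],
 ⟨p090_k36, nat_lit 0, nat_lit 0, nat_lit 99, nat_lit 0, nat_lit 0, [nat_lit 1593520001, nat_lit 2546356000, nat_lit 3001458000], [], [nat_lit 22002060700, nat_lit 23453330120, nat_lit 25835045830, nat_lit 27032674960, nat_lit 22320208460, nat_lit 23624771340, nat_lit 25776115950, nat_lit 26858576800], nat_lit 0, nat_lit 0, nat_lit 0, nat_lit 0, nat_lit 0, nat_lit 0, [], [nat_lit 102, nat_lit 40, nat_lit 40, nat_lit 80, nat_lit 2, nat_lit 249, nat_lit 40, nat_lit 7]⟩, ⟨p090_k19, nat_lit 0, nat_lit 0, nat_lit 820, nat_lit 0, nat_lit 1241211, [nat_lit 180510000, nat_lit 438240000, nat_lit 652960000], [], [nat_lit 2206106142, nat_lit 2209603580, nat_lit 2214807150,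 nat_lit 2217839830, nat_lit 1826450332, nat_lit 1827404282, nat_lit 1817675714, nat_lit 1817011166], nat_lit 1271250, nat_lit 1271250, nat_lit 1271250, nat_lit 1271250, nat_lit 0, nat_lit 2118750, [nat_lit 780000, nat_lit 1762500, nat_lit 1271250], [nat_lit 79, nat_lit 40, nat_lit 40, nat_lit 80, nat_lit 14, nat_lit 483, nat_lit 250, nat_lit 12]⟩,
 ⟨nat_lit 3162, nat_lit 3873, ⟨.ofNat (nat_lit 651611), .ofNat (nat_lit 780717), .ofNat (nat_lit 662494), .ofNat (nat_lit 791601), .ofNat (nat_lit 649490), .ofNat (nat_lit 771459), .ofNat (nat_lit 660553), .ofNat (nat_lit 782524)⟩, ⟨.ofNat (nat_lit 132088), .ofNat (nat_lit 261131), .ofNat (nat_lit 175674), .ofNat (nat_lit 304717), .ofNat (nat_lit 139899), .ofNat (nat_lit 261806), .ofNat (nat_lit 184209), .ofNat (nat_lit 306116)⟩⟩, [⟨nat_lit 7, nat_lit 100, nat_lit 97, nat_lit 76, nat_lit 4255154⟩]⟩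
noncomputable def p090_l127 : Lf2 := ⟨nat_lit 0, nat_lit 20, [nat_lit 5, nat_lit 5, nat_lit 5, nat_lit 20], false, nat_lit 80, nat_lit 160, nat_lit 0, nat_lit 292, ⟨nat_lit 62, nat_lit 938, nat_lit 0, nat_lit 7, nat_lit 292, nat_lit 938, nat_lit 88, nat_lit 0, nat_lit 0, nat_lit 0, nat_lit 0, nat_lit 0, nat_lit 41193104, nat_lit 22397890, nat_lit 3409006, nat_lit 4299431, true, false⟩,
 nat_lit 0, nat_lit 0, nat_lit 825, nat_lit 0, nat_lit 4577, nat_lit 547, nat_lit 0, nat_lit 0, nat_lit 0, nat_lit 39, nat_lit 0, nat_lit 0, nat_lit 0, nat_lit 0, nat_lit 0, nat_lit 234500, nat_lit 0, nat_lit 0, [(nat_lit 22, [(nat_lit 0, nat_lit 938)])],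
 ⟨p090_k36, nat_lit 0, nat_lit 0, nat_lit 99, nat_lit 0, nat_lit 0, [nat_lit 1596768001, nat_lit 2573790400, nat_lit 3038247200], [], [nat_lit 22018995380, nat_lit 23474010168, nat_lit 25859266162, nat_lit 27060746436, nat_lit 22330508644, nat_lit 23638292676, nat_lit 25792429130, nat_lit 26877285120], nat_lit 0, nat_lit 0, nat_lit 0, nat_lit 0, nat_lit 0, nat_lit 0, [], [nat_lit 102, nat_lit 40, nat_lit 40, nat_lit 80, nat_lit 2, nat_lit 249, nat_lit 40, nat_lit 7]⟩, ⟨p090_k37, nat_lit 0, nat_lit 0, nat_lit 817, nat_lit 0, nat_lit 1238281, [nat_lit 203484000, nat_lit 494016000, nat_lit 736064000], [], [nat_lit 2242616533, nat_lit 2249306572, nat_lit 2270710013, nat_lit 2274863232, nat_lit 1850726633, nat_lit 1852277135, nat_lit 1843247885, nat_lit 1850539604], nat_lit 1271250, nat_lit 1271250, nat_lit 1271250, nat_lit 1271250, nat_lit 0, nat_lit 2062250, [nat_lit 780000, nat_lit 1762500, nat_lit 1271250], [nat_lit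 79, nat_lit 40, nat_lit 40, nat_lit 80, nat_lit 14, nat_lit 483, nat_lit 250, nat_lit 12]⟩,
 ⟨nat_lit 3162, nat_lit 3873, ⟨.ofNat (nat_lit 662494), .ofNat (nat_lit 791601), .ofNat (nat_lit 673376), .ofNat (nat_lit 802484), .ofNat (nat_lit 660553), .ofNat (nat_lit 782524), .ofNat (nat_lit 671616), .ofNat (nat_lit 793588)⟩, ⟨.ofNat (nat_lit 132088), .ofNat (nat_lit 261131), .ofNat (nat_lit 175674), .ofNat (nat_lit 304717), .ofNat (nat_lit 139899), .ofNat (nat_lit 261806), .ofNat (nat_lit 184209), .ofNat (nat_lit 306116)⟩⟩, [⟨nat_lit 7, nat_lit 100, nat_lit 92, nat_lit 75, nat_lit 5396838⟩]⟩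
noncomputable def p090_l128 : Lf2 := ⟨nat_lit 0, nat_lit 20, [nat_lit 5, nat_lit 5, nat_lit 5, nat_lit 20], false, nat_lit 80, nat_lit 160, nat_lit 0, nat_lit 280, ⟨nat_lit 292, nat_lit 708, nat_lit 0, nat_lit 7, nat_lit 298, nat_lit 708, nat_lit 88, nat_lit 0, nat_lit 0, nat_lit 0, nat_lit 0, nat_lit 0, nat_lit 40587309, nat_lit 23034689, nat_lit 3378002, nat_lit 4321317, true, false⟩,
 nat_lit 0, nat_lit 0, nat_lit 2733, nat_lit 0, nat_lit 5356, nat_lit 1892, nat_lit 0, nat_lit 0, nat_lit 0, nat_lit 378, nat_lit 0, nat_lit 0, nat_lit 0, nat_lit 0, nat_lit 0, nat_lit 177000, nat_lit 0, nat_lit 0, [(nat_lit 22, [(nat_lit 0, nat_lit 708)])],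
 ⟨p090_k36, nat_lit 0, nat_lit 0, nat_lit 99, nat_lit 0, nat_lit 0, [nat_lit 1703488001, nat_lit 3475206400, nat_lit 4247035200], [], [nat_lit 22548625840, nat_lit 24136260704, nat_lit 26646874936, nat_lit 28112137808, nat_lit 22625217632, nat_lit 24047059728, nat_lit 26300052840, nat_lit 27470730064], nat_lit 0, nat_lit 0, nat_lit 0, nat_lit 0, nat_lit 0, nat_lit 0, [], [nat_lit 102, nat_lit 40, nat_lit 40, nat_lit 80, nat_lit 2, nat_lit 249, nat_lit 40, nat_lit 7]⟩, ⟨p090_k38, nat_lit 0, nat_lit 0, nat_lit 778, nat_lit 0, nat_lit 1312822, [nat_lit 958344000, nat_lit 2326656000, nat_lit 2873864000], [], [nat_lit 8792619674, nat_lit 8914208938, nat_lit 9199728026, nat_lit 9384796874, nat_lit 8121560878, nat_lit 8193179962, nat_lit 8332309996, nat_lit 8422431920], nat_lit 1271250, nat_lit 1271250, nat_lit 1271250, nat_lit 1271250, nat_lit 0, nat_lit 1977500, [nat_lit 780000, nat_lit 1762500, nat_lit 1271250], [nat_lit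 99, nat_lit 40, nat_lit 40, nat_lit 80, nat_lit 17, nat_lit 373, nat_lit 150, nat_lit 10]⟩,
 ⟨nat_lit 3162, nat_lit 3873, ⟨.ofNat (nat_lit 673376), .ofNat (nat_lit 802484), .ofNat (nat_lit 695141), .ofNat (nat_lit 824248), .ofNat (nat_lit 671616), .ofNat (nat_lit 793588), .ofNat (nat_lit 693742), .ofNat (nat_lit 815713)⟩, ⟨.ofNat (nat_lit 132088), .ofNat (nat_lit 261131), .ofNat (nat_lit 175674), .ofNat (nat_lit 304717), .ofNat (nat_lit 139899), .ofNat (nat_lit 261806), .ofNat (nat_lit 184209), .ofNat (nat_lit 306116)⟩⟩, [⟨nat_lit 4, nat_lit 100, nat_lit 66, nat_lit 72, nat_lit 10824643⟩, ⟨nat_lit 19, nat_lit 85, nat_lit 100, nat_lit 73, nat_lit 54621522⟩]⟩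
noncomputable def b_V_800_700_10_17 : St := ⟨true, nat_lit 0, nat_lit 1, nat_lit 1, nat_lit 80, nat_lit 320, nat_lit 360, nat_lit 280, nat_lit 320, nat_lit 240, nat_lit 320, nat_lit 40, nat_lit 80, nat_lit 0, nat_lit 160, nat_lit 0, nat_lit 300, nat_lit 40, nat_lit 80, nat_lit 0, nat_lit 0, nat_lit 0, nat_lit 0⟩
theorem d_V_800_700_10_17 (h : EB TB.env) : Dead b_V_800_700_10_17 := chkB_sound0 h (T :=
(.spl (nat_lit 0) (nat_lit 340)
(.spl (nat_lit 1) (nat_lit 300)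
(.spl (nat_lit 4) (nat_lit 80)
(.spl (nat_lit 3) (nat_lit 60)
(.trX (nat_lit 19) (nat_lit 99) (nat_lit 100) (nat_lit 77) (nat_lit 276) (.spl (nat_lit 1) (nat_lit 290)
(.leaf p090_l109)
(.trX (nat_lit 19) (nat_lit 94) (nat_lit 100) (nat_lit 75) (nat_lit 268) (.leaf p090_l110))))
(.leaf p090_l111))
(.leaf p090_l112))
(.trX (nat_lit 19) (nat_lit 94) (nat_lit 100) (nat_lit 87) (nat_lit 280) (.leaf p090_l113)))
(.spl (nat_lit 4) (nat_lit 80)
(.spl (nat_lit 1) (nat_lit 300)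
(.spl (nat_lit 2) (nat_lit 280)
(.spl (nat_lit 3) (nat_lit 60)
(.trX (nat_lit 19) (nat_lit 99) (nat_lit 100) (nat_lit 77) (nat_lit 276) (.leaf p090_l114))
(.spl (nat_lit 0) (nat_lit 350)
(.leaf p090_l115)
(.leaf p090_l116)))
(.spl (nat_lit 3) (nat_lit 60)
(.trX (nat_lit 19) (nat_lit 99) (nat_lit 100) (nat_lit 77) (nat_lit 276) (.spl (nat_lit 0) (nat_lit 350)
(.leaf p090_l117)
(.spl (nat_lit 0) (nat_lit 355)
(.leaf p090_l118)
(.leaf p090_l119))))
(.spl (nat_lit 1) (nat_lit 290)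
(.spl (nat_lit 0) (nat_lit 350)
(.leaf p090_l120)
(.leaf p090_l121))
(.trX (nat_lit 19) (nat_lit 100) (nat_lit 100) (nat_lit 89) (nat_lit 292) (.leaf p090_l122)))))
(.trX (nat_lit 19) (nat_lit 94) (nat_lit 100) (nat_lit 87) (nat_lit 280) (.spl (nat_lit 3) (nat_lit 60)
(.trX (nat_lit 19) (nat_lit 90) (nat_lit 100) (nat_lit 74) (nat_lit 256) (.spl (nat_lit 0) (nat_lit 350)
(.leaf p090_l123)
(.leaf p090_l124)))
(.leaf p090_l125))))
(.spl (nat_lit 1) (nat_lit 300)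
(.spl (nat_lit 1) (nat_lit 290)
(.leaf p090_l126)
(.trX (nat_lit 19) (nat_lit 100) (nat_lit 100) (nat_lit 89) (nat_lit 292) (.leaf p090_l127)))
(.trX (nat_lit 19) (nat_lit 94) (nat_lit 100) (nat_lit 87) (nat_lit 280) (.leaf p090_l128)))))) (by decide +kernel)
noncomputable def p090_l129 : Lf2 := ⟨nat_lit 0, nat_lit 20, [nat_lit 5, nat_lit 5, nat_lit 5, nat_lit 20], false, nat_lit 0, nat_lit 80, nat_lit 0, nat_lit 160, ⟨nat_lit 1000, nat_lit 0, nat_lit 0, nat_lit 0, nat_lit 0, nat_lit 0, nat_lit 0, nat_lit 0, nat_lit 0, nat_lit 0, nat_lit 0, nat_lit 0, nat_lit 0, nat_lit 0, nat_lit 0, nat_lit 0, false, false⟩,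
 nat_lit 0, nat_lit 0, nat_lit 10537, nat_lit 0, nat_lit 5071, nat_lit 6705, nat_lit 734, nat_lit 0, nat_lit 0, nat_lit 751, nat_lit 0, nat_lit 0, nat_lit 0, nat_lit 0, nat_lit 0, nat_lit 0, nat_lit 0, nat_lit 0, [],
 ⟨p090_k20, nat_lit 0, nat_lit 0, nat_lit 211, nat_lit 0, nat_lit 0, [nat_lit 2032000001, nat_lit 4688000000, nat_lit 9842000000], [], [nat_lit 31314490090, nat_lit 31797539828, nat_lit 35609473056, nat_lit 36086689714, nat_lit 28648219578, nat_lit 29105983317, nat_lit 32758596760, nat_lit 33212627973], nat_lit 0, nat_lit 0, nat_lit 0, nat_lit 0, nat_lit 0, nat_lit 0, [], [nat_lit 27, nat_lit 40, nat_lit 40, nat_lit 80, nat_lit 13, nat_lit 226, nat_lit 20, nat_lit 6]⟩, ⟨p090_k21, nat_lit 0, nat_lit 0, nat_lit 590, nat_lit 0, nat_lit 816906, [nat_lit 3282000000, nat_lit 6250000000, nat_lit 11872000000], [], [nat_lit 37851372865, nat_lit 38085468575, nat_lit 40546668705, nat_lit 40718727690, nat_lit 33745422985,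 nat_lit 33936765040, nat_lit 36294692220, nat_lit 36493410265], nat_lit 1271250, nat_lit 1271250, nat_lit 1271250, nat_lit 1271250, nat_lit 0, nat_lit 1100001, [nat_lit 780000, nat_lit 1435000, nat_lit 1271250], [nat_lit 23, nat_lit 40, nat_lit 40, nat_lit 80, nat_lit 12, nat_lit 345, nat_lit 125, nat_lit 8]⟩,
 zbF0, [⟨nat_lit 22, nat_lit 75, nat_lit 100, nat_lit 35, nat_lit 55005836⟩]⟩
noncomputable def p090_l130 : Lf2 := ⟨nat_lit 0, nat_lit 20, [nat_lit 5, nat_lit 5, nat_lit 5, nat_lit 20], false, nat_lit 0, nat_lit 80, nat_lit 0, nat_lit 160, ⟨nat_lit 1000, nat_lit 0, nat_lit 0, nat_lit 0, nat_lit 0, nat_lit 0, nat_lit 0, nat_lit 0, nat_lit 0, nat_lit 0, nat_lit 0, nat_lit 0, nat_lit 0, nat_lit 0, nat_lit 0, nat_lit 0, false, false⟩,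
 nat_lit 0, nat_lit 0, nat_lit 11560, nat_lit 0, nat_lit 4369, nat_lit 7356, nat_lit 792, nat_lit 0, nat_lit 0, nat_lit 715, nat_lit 0, nat_lit 0, nat_lit 0, nat_lit 0, nat_lit 0, nat_lit 0, nat_lit 0, nat_lit 0, [],
 ⟨p090_k29, nat_lit 0, nat_lit 0, nat_lit 211, nat_lit 0, nat_lit 0, [nat_lit 2032000001, nat_lit 4688000000, nat_lit 9842000000], [], [nat_lit 29851864842, nat_lit 30305937424, nat_lit 33899117436, nat_lit 34354224834, nat_lit 27809220533, nat_lit 28217056873, nat_lit 31585954012, nat_lit 32019357110], nat_lit 0, nat_lit 0, nat_lit 0, nat_lit 0, nat_lit 0, nat_lit 0, [], [nat_lit 27, nat_lit 40, nat_lit 40, nat_lit 80, nat_lit 13, nat_lit 226, nat_lit 20, nat_lit 6]⟩, ⟨p090_k21, nat_lit 0, nat_lit 0, nat_lit 669, nat_lit 0, nat_lit 951493, [nat_lit 3282000000, nat_lit 6250000000, nat_lit 11872000000], [], [nat_lit 37660422245, nat_lit 37833853825, nat_lit 39865349455, nat_lit 40066241133, nat_lit 33151009157,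 nat_lit 33291580752, nat_lit 35321175285, nat_lit 35466841814], nat_lit 1271250, nat_lit 1271250, nat_lit 1271250, nat_lit 1271250, nat_lit 0, nat_lit 1100001, [nat_lit 780000, nat_lit 1435000, nat_lit 1271250], [nat_lit 23, nat_lit 40, nat_lit 40, nat_lit 80, nat_lit 12, nat_lit 345, nat_lit 125, nat_lit 8]⟩,
 zbF0, [⟨nat_lit 22, nat_lit 64, nat_lit 100, nat_lit 62, nat_lit 6332835⟩]⟩
noncomputable def p090_l131 : Lf2 := ⟨nat_lit 0, nat_lit 20, [nat_lit 5, nat_lit 5, nat_lit 5, nat_lit 20], false, nat_lit 16, nat_lit 80, nat_lit 160, nat_lit 260, ⟨nat_lit 441, nat_lit 559, nat_lit 0, nat_lit 8, nat_lit 338, nat_lit 559, nat_lit 36, nat_lit 0, nat_lit 0, nat_lit 0, nat_lit 0, nat_lit 0, nat_lit 38593735, nat_lit 27559968, nat_lit 846297, nat_lit 3775138, true, true⟩,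
 nat_lit 0, nat_lit 0, nat_lit 5334, nat_lit 0, nat_lit 4246, nat_lit 3394, nat_lit 246, nat_lit 0, nat_lit 0, nat_lit 322, nat_lit 0, nat_lit 0, nat_lit 0, nat_lit 0, nat_lit 0, nat_lit 559000, nat_lit 0, nat_lit 0, [(nat_lit 19, [(nat_lit 2, nat_lit 559)])],
 ⟨p090_k20, nat_lit 0, nat_lit 0, nat_lit 198, nat_lit 0, nat_lit 0, [nat_lit 1845666667, nat_lit 2654879734, nat_lit 2577906800], [], [nat_lit 26938474902, nat_lit 27827397049, nat_lit 31186609376, nat_lit 32397348620, nat_lit 25342152079, nat_lit 26150475259, nat_lit 28466823424, nat_lit 29630256038], nat_lit 0, nat_lit 0, nat_lit 0, nat_lit 0, nat_lit 0, nat_lit 0, [], [nat_lit 27, nat_lit 40, nat_lit 40, nat_lit 80, nat_lit 13, nat_lit 226, nat_lit 20, nat_lit 6]⟩, ⟨p090_k21, nat_lit 0, nat_lit 0, nat_lit 543, nat_lit 0, nat_lit 951493, [nat_lit 1447362000, nat_lit 2756250000, nat_lit 5235552000], [], [nat_lit 13272198494, nat_lit 13356436536, nat_lit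 14116275868, nat_lit 14210811821, nat_lit 13341928209, nat_lit 13435950728, nat_lit 14223705200, nat_lit 14296824856], nat_lit 1271250, nat_lit 1271250, nat_lit 1271250, nat_lit 1271250, nat_lit 1100001, nat_lit 1956250, [nat_lit 780000, nat_lit 1435000, nat_lit 1271250], [nat_lit 23, nat_lit 40, nat_lit 40, nat_lit 80, nat_lit 12, nat_lit 373, nat_lit 150, nat_lit 8]⟩,
 ⟨nat_lit 3872, nat_lit 4473, ⟨.ofNat (nat_lit 790153), .ofNat (nat_lit 898930), .ofNat (nat_lit 800927), .ofNat (nat_lit 909705), .ofNat (nat_lit 780691), .ofNat (nat_lit 883937), .ofNat (nat_lit 791578), .ofNat (nat_lit 894825)⟩, ⟨.ofNat (nat_lit 14767), .ofNat (nat_lit 123532), .ofNat (nat_lit 40000), .ofNat (nat_lit 166665), .ofNat (nat_lit 28853), .ofNat (nat_lit 132088), .ofNat (nat_lit 40000), .ofNat (nat_lit 175674)⟩⟩, [⟨nat_lit 22, nat_lit 66, nat_lit 100, nat_lit 66, nat_lit 222110012⟩]⟩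
noncomputable def p090_l132 : Lf2 := ⟨nat_lit 0, nat_lit 20, [nat_lit 5, nat_lit 5, nat_lit 5, nat_lit 20], false, nat_lit 0, nat_lit 80, nat_lit 0, nat_lit 260, ⟨nat_lit 1000, nat_lit 0, nat_lit 0, nat_lit 0, nat_lit 0, nat_lit 0, nat_lit 0, nat_lit 0, nat_lit 0, nat_lit 0, nat_lit 0, nat_lit 0, nat_lit 0, nat_lit 0, nat_lit 0, nat_lit 0, false, false⟩,
 nat_lit 0, nat_lit 0, nat_lit 9996, nat_lit 0, nat_lit 5822, nat_lit 6638, nat_lit 788, nat_lit 0, nat_lit 0, nat_lit 788, nat_lit 0, nat_lit 0, nat_lit 0, nat_lit 0, nat_lit 0, nat_lit 0, nat_lit 0, nat_lit 0, [],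
 ⟨p090_k20, nat_lit 0, nat_lit 0, nat_lit 211, nat_lit 0, nat_lit 0, [nat_lit 2032000001, nat_lit 4688000000, nat_lit 9842000000], [], [nat_lit 30362014380, nat_lit 31027077844, nat_lit 37562463432, nat_lit 38230244580, nat_lit 27137396396, nat_lit 27624436504, nat_lit 32414894152, nat_lit 33060993462], nat_lit 0, nat_lit 0, nat_lit 0, nat_lit 0, nat_lit 0, nat_lit 0, [], [nat_lit 27, nat_lit 40, nat_lit 40, nat_lit 80, nat_lit 13, nat_lit 226, nat_lit 20, nat_lit 6]⟩, ⟨p090_k24, nat_lit 0, nat_lit 0, nat_lit 619, nat_lit 0, nat_lit 849909, [nat_lit 3282000000, nat_lit 6250000000, nat_lit 11872000000], [], [nat_lit 35119877120, nat_lit 35353700676, nat_lit 38262105864, nat_lit 38622226028, nat_lit 31752967650, nat_lit 31912245001, nat_lit 34067239733, nat_lit 34221085348], nat_lit 1271250, nat_lit 1271250, nat_lit 1271250, nat_lit 1271250, nat_lit 0, nat_lit 1836250, [nat_lit 780000, nat_lit 1435000, nat_lit 1271250],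 [nat_lit 23, nat_lit 40, nat_lit 40, nat_lit 80, nat_lit 12, nat_lit 373, nat_lit 150, nat_lit 9]⟩,
 zbF0, [⟨nat_lit 22, nat_lit 63, nat_lit 100, nat_lit 62, nat_lit 220845591⟩]⟩
noncomputable def p090_l133 : Lf2 := ⟨nat_lit 0, nat_lit 20, [nat_lit 5, nat_lit 5, nat_lit 5, nat_lit 20], false, nat_lit 0, nat_lit 80, nat_lit 0, nat_lit 260, ⟨nat_lit 1000, nat_lit 0, nat_lit 0, nat_lit 0, nat_lit 0, nat_lit 0, nat_lit 0, nat_lit 0, nat_lit 0, nat_lit 0, nat_lit 0, nat_lit 0, nat_lit 0, nat_lit 0, nat_lit 0, nat_lit 0, false, false⟩,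
 nat_lit 0, nat_lit 0, nat_lit 10118, nat_lit 0, nat_lit 5500, nat_lit 6719, nat_lit 799, nat_lit 0, nat_lit 0, nat_lit 835, nat_lit 0, nat_lit 0, nat_lit 0, nat_lit 0, nat_lit 0, nat_lit 0, nat_lit 0, nat_lit 0, [],
 ⟨p090_k29, nat_lit 0, nat_lit 0, nat_lit 212, nat_lit 0, nat_lit 0, [nat_lit 2032000001, nat_lit 4688000000, nat_lit 9842000000], [], [nat_lit 30345371000, nat_lit 31211296000, nat_lit 37310326000, nat_lit 37959066000, nat_lit 26180042375, nat_lit 26654154875, nat_lit 32483769500, nat_lit 33111481000], nat_lit 0, nat_lit 0, nat_lit 0, nat_lit 0, nat_lit 0, nat_lit 0, [], [nat_lit 27, nat_lit 40, nat_lit 40, nat_lit 80, nat_lit 13, nat_lit 226, nat_lit 20, nat_lit 6]⟩, ⟨p090_k24, nat_lit 0, nat_lit 0, nat_lit 675, nat_lit 0, nat_lit 972999, [nat_lit 3282000000, nat_lit 6250000000, nat_lit 11872000000], [], [nat_lit 35973071938, nat_lit 36218823102, nat_lit 38658442350, nat_lit 38840277710, nat_lit 32828537866,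 nat_lit 32961652686, nat_lit 34643333035, nat_lit 34752594851], nat_lit 1271250, nat_lit 1271250, nat_lit 1271250, nat_lit 1271250, nat_lit 0, nat_lit 1836250, [nat_lit 780000, nat_lit 1435000, nat_lit 1271250], [nat_lit 23, nat_lit 40, nat_lit 40, nat_lit 80, nat_lit 12, nat_lit 373, nat_lit 150, nat_lit 9]⟩,
 zbF0, [⟨nat_lit 22, nat_lit 63, nat_lit 100, nat_lit 62, nat_lit 242834042⟩, ⟨nat_lit 22, nat_lit 83, nat_lit 100, nat_lit 83, nat_lit 6097298⟩]⟩
noncomputable def p090_l134 : Lf2 := ⟨nat_lit 0, nat_lit 15, [nat_lit 30, nat_lit 5, nat_lit 5, nat_lit 20], false, nat_lit 80, nat_lit 160, nat_lit 0, nat_lit 160, ⟨nat_lit 973, nat_lit 27, nat_lit 0, nat_lit 8, nat_lit 343, nat_lit 27, nat_lit 82, nat_lit 0, nat_lit 0, nat_lit 0, nat_lit 0, nat_lit 0, nat_lit 36864743, nat_lit 27304776, nat_lit 2830481, nat_lit 4336667, true, true⟩,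
 nat_lit 0, nat_lit 0, nat_lit 11322, nat_lit 0, nat_lit 5385, nat_lit 7204, nat_lit 583, nat_lit 0, nat_lit 0, nat_lit 605, nat_lit 0, nat_lit 0, nat_lit 0, nat_lit 0, nat_lit 0, nat_lit 27000, nat_lit 0, nat_lit 0, [(nat_lit 19, [(nat_lit 2, nat_lit 27)])],
 ⟨p090_k22, nat_lit 0, nat_lit 0, nat_lit 141, nat_lit 0, nat_lit 0, [nat_lit 2023000000, nat_lit 4594850000, nat_lit 7695397200], [], [nat_lit 26766828855, nat_lit 27970495415, nat_lit 31781363015, nat_lit 32898762510, nat_lit 26415689955, nat_lit 27500124125, nat_lit 30942686795, nat_lit 31793159820], nat_lit 0, nat_lit 0, nat_lit 0, nat_lit 0, nat_lit 0, nat_lit 0, [], [nat_lit 34, nat_lit 40, nat_lit 40, nat_lit 80, nat_lit 7, nat_lit 249, nat_lit 40, nat_lit 7]⟩, ⟨p090_k23, nat_lit 0, nat_lit 0, nat_lit 602, nat_lit 0, nat_lit 938568, [nat_lit 3193386000, nat_lit 6081250000, nat_lit 9576266000], [], [nat_lit 36720556282, nat_lit 36873105260, nat_lit 38837317949,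 nat_lit 38973398449, nat_lit 32240762166, nat_lit 32392511923, nat_lit 34271881960, nat_lit 34410544492], nat_lit 1271250, nat_lit 1271250, nat_lit 1271250, nat_lit 1271250, nat_lit 0, nat_lit 1100001, [nat_lit 780000, nat_lit 1435000, nat_lit 1271250], [nat_lit 8, nat_lit 40, nat_lit 40, nat_lit 80, nat_lit 1, nat_lit 257, nat_lit 40, nat_lit 7]⟩,
 ⟨nat_lit 3872, nat_lit 4473, ⟨.ofNat (nat_lit 790153), .ofNat (nat_lit 926124), .ofNat (nat_lit 800927), .ofNat (nat_lit 936900), .ofNat (nat_lit 780691), .ofNat (nat_lit 909748), .ofNat (nat_lit 791578), .ofNat (nat_lit 920637)⟩, ⟨.ofNat (nat_lit 123532), .ofNat (nat_lit 259489), .ofNat (nat_lit 145099), .ofNat (nat_lit 281055), .ofNat (nat_lit 132088), .ofNat (nat_lit 261131), .ofNat (nat_lit 153881), .ofNat (nat_lit 282924)⟩⟩, []⟩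
noncomputable def p090_l135 : Lf2 := ⟨nat_lit 0, nat_lit 15, [nat_lit 30, nat_lit 5, nat_lit 5, nat_lit 20], false, nat_lit 80, nat_lit 160, nat_lit 160, nat_lit 276, ⟨nat_lit 1000, nat_lit 0, nat_lit 0, nat_lit 0, nat_lit 0, nat_lit 0, nat_lit 0, nat_lit 0, nat_lit 0, nat_lit 0, nat_lit 0, nat_lit 0, nat_lit 0, nat_lit 0, nat_lit 0, nat_lit 0, false, false⟩,
 nat_lit 0, nat_lit 0, nat_lit 9488, nat_lit 0, nat_lit 5513, nat_lit 6037, nat_lit 616, nat_lit 0, nat_lit 0, nat_lit 675, nat_lit 0, nat_lit 0, nat_lit 0, nat_lit 0, nat_lit 0, nat_lit 0, nat_lit 0, nat_lit 0, [],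
 ⟨p090_k22, nat_lit 0, nat_lit 0, nat_lit 138, nat_lit 0, nat_lit 0, [nat_lit 2032000001, nat_lit 4688000000, nat_lit 7968000000], [], [nat_lit 26785510964, nat_lit 27394554228, nat_lit 31878619708, nat_lit 32507073573, nat_lit 26388760544, nat_lit 26937124317, nat_lit 30968977736, nat_lit 31397824361], nat_lit 0, nat_lit 0, nat_lit 0, nat_lit 0, nat_lit 0, nat_lit 0, [], [nat_lit 34, nat_lit 40, nat_lit 40, nat_lit 80, nat_lit 7, nat_lit 249, nat_lit 40, nat_lit 7]⟩, ⟨p090_k23, nat_lit 0, nat_lit 0, nat_lit 445, nat_lit 0, nat_lit 807325, [nat_lit 3282000000, nat_lit 6250000000, nat_lit 9842000000], [], [nat_lit 33870536375, nat_lit 34090696570, nat_lit 36304893163, nat_lit 36471331767, nat_lit 34803227895, nat_lit 34971360515, nat_lit 37004291867, nat_lit 37192555981], nat_lit 1271250, nat_lit 1271250, nat_lit 1271250, nat_lit 1271250, nat_lit 1100001, nat_lit 2093250, [nat_lit 780000, nat_lit 1435000, nat_lit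 1271250], [nat_lit 8, nat_lit 40, nat_lit 40, nat_lit 80, nat_lit 1, nat_lit 289, nat_lit 75, nat_lit 7]⟩,
 zbF0, [⟨nat_lit 7, nat_lit 100, nat_lit 94, nat_lit 69, nat_lit 370687507⟩, ⟨nat_lit 10, nat_lit 100, nat_lit 48, nat_lit 92, nat_lit 10159219⟩]⟩
noncomputable def p090_l136 : Lf2 := ⟨nat_lit 0, nat_lit 15, [nat_lit 30, nat_lit 5, nat_lit 5, nat_lit 20], false, nat_lit 80, nat_lit 160, nat_lit 160, nat_lit 276, ⟨nat_lit 248, nat_lit 752, nat_lit 0, nat_lit 8, nat_lit 340, nat_lit 752, nat_lit 82, nat_lit 0, nat_lit 0, nat_lit 0, nat_lit 0, nat_lit 0, nat_lit 37071019, nat_lit 27059047, nat_lit 2869934, nat_lit 4340188, true, true⟩,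
 nat_lit 0, nat_lit 0, nat_lit 2936, nat_lit 0, nat_lit 3710, nat_lit 1868, nat_lit 381, nat_lit 0, nat_lit 0, nat_lit 150, nat_lit 0, nat_lit 0, nat_lit 0, nat_lit 0, nat_lit 0, nat_lit 188000, nat_lit 0, nat_lit 0, [(nat_lit 19, [(nat_lit 0, nat_lit 752)])],
 ⟨p090_k27, nat_lit 0, nat_lit 0, nat_lit 139, nat_lit 0, nat_lit 0, [nat_lit 1663820801, nat_lit 2809804800, nat_lit 4158067200], [], [nat_lit 25139797710, nat_lit 25647281590, nat_lit 29031396791, nat_lit 29529164114, nat_lit 25375801111, nat_lit 25814066191, nat_lit 28888287327, nat_lit 29267876431], nat_lit 0, nat_lit 0, nat_lit 0, nat_lit 0, nat_lit 0, nat_lit 0, [], [nat_lit 34, nat_lit 40, nat_lit 40, nat_lit 80, nat_lit 7, nat_lit 249, nat_lit 40, nat_lit 7]⟩, ⟨p090_k23, nat_lit 0, nat_lit 0, nat_lit 491, nat_lit 0, nat_lit 938568, [nat_lit 813936000, nat_lit 1550000000, nat_lit 2440816000], [], [nat_lit 7784866428, nat_lit 7827844992, nat_lit 8293320636,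 nat_lit 8325523866, nat_lit 7826489982, nat_lit 7856152930, nat_lit 8303407106, nat_lit 8339080563], nat_lit 1271250, nat_lit 1271250, nat_lit 1271250, nat_lit 1271250, nat_lit 1100001, nat_lit 2093250, [nat_lit 780000, nat_lit 1435000, nat_lit 1271250], [nat_lit 8, nat_lit 40, nat_lit 40, nat_lit 80, nat_lit 1, nat_lit 289, nat_lit 75, nat_lit 7]⟩,
 ⟨nat_lit 3872, nat_lit 4184, ⟨.ofNat (nat_lit 785423), .ofNat (nat_lit 911314), .ofNat (nat_lit 796254), .ofNat (nat_lit 922145), .ofNat (nat_lit 780727), .ofNat (nat_lit 903324), .ofNat (nat_lit 791621), .ofNat (nat_lit 914217)⟩, ⟨.ofNat (nat_lit 127898), .ofNat (nat_lit 260409), .ofNat (nat_lit 149565), .ofNat (nat_lit 282076), .ofNat (nat_lit 132088), .ofNat (nat_lit 261131), .ofNat (nat_lit 153881), .ofNat (nat_lit 282924)⟩⟩, [⟨nat_lit 13, nat_lit 82, nat_lit 33, nat_lit 100, nat_lit 13686812⟩, ⟨nat_lit 10, nat_lit 100, nat_lit 48, nat_lit 92, nat_lit 121067642⟩]⟩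
noncomputable def p090_l137 : Lf2 := ⟨nat_lit 0, nat_lit 15, [nat_lit 30, nat_lit 5, nat_lit 5, nat_lit 20], false, nat_lit 80, nat_lit 160, nat_lit 0, nat_lit 268, ⟨nat_lit 889, nat_lit 111, nat_lit 0, nat_lit 8, nat_lit 346, nat_lit 111, nat_lit 82, nat_lit 0, nat_lit 0, nat_lit 0, nat_lit 0, nat_lit 0, nat_lit 36585695, nat_lit 27598934, nat_lit 2815371, nat_lit 4339654, true, true⟩,
 nat_lit 0, nat_lit 0, nat_lit 9608, nat_lit 0, nat_lit 5167, nat_lit 6380, nat_lit 507, nat_lit 0, nat_lit 0, nat_lit 554, nat_lit 0, nat_lit 0, nat_lit 0, nat_lit 0, nat_lit 0, nat_lit 111000, nat_lit 0, nat_lit 0, [(nat_lit 19, [(nat_lit 2, nat_lit 111)])],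
 ⟨p090_k22, nat_lit 0, nat_lit 0, nat_lit 141, nat_lit 0, nat_lit 0, [nat_lit 1995000000, nat_lit 4305050000, nat_lit 6847299600], [], [nat_lit 26484262051, nat_lit 27663369603, nat_lit 31393280723, nat_lit 32495522242, nat_lit 26210805271, nat_lit 27274302285, nat_lit 30647161199, nat_lit 31496137044], nat_lit 0, nat_lit 0, nat_lit 0, nat_lit 0, nat_lit 0, nat_lit 0, [], [nat_lit 34, nat_lit 40, nat_lit 40, nat_lit 80, nat_lit 7, nat_lit 249, nat_lit 40, nat_lit 7]⟩, ⟨p090_k31, nat_lit 0, nat_lit 0, nat_lit 595, nat_lit 0, nat_lit 920377, [nat_lit 2917698000, nat_lit 5556250000, nat_lit 8749538000], [], [nat_lit 31795513198, nat_lit 31884355613, nat_lit 35058668454, nat_lit 35342591257, nat_lit 28129560346, nat_lit 28180552458, nat_lit 29734164609, nat_lit 29779315534], nat_lit 1271250, nat_lit 1271250, nat_lit 1271250, nat_lit 1271250, nat_lit 0, nat_lit 1892750, [nat_lit 780000, nat_lit 1435000, nat_lit 1271250],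 [nat_lit 8, nat_lit 40, nat_lit 40, nat_lit 80, nat_lit 1, nat_lit 289, nat_lit 75, nat_lit 8]⟩,
 ⟨nat_lit 3872, nat_lit 4473, ⟨.ofNat (nat_lit 800927), .ofNat (nat_lit 936900), .ofNat (nat_lit 806314), .ofNat (nat_lit 942287), .ofNat (nat_lit 791578), .ofNat (nat_lit 920637), .ofNat (nat_lit 797022), .ofNat (nat_lit 926081)⟩, ⟨.ofNat (nat_lit 123532), .ofNat (nat_lit 259489), .ofNat (nat_lit 145099), .ofNat (nat_lit 281055), .ofNat (nat_lit 132088), .ofNat (nat_lit 261131), .ofNat (nat_lit 153881), .ofNat (nat_lit 282924)⟩⟩, [⟨nat_lit 7, nat_lit 100, nat_lit 91, nat_lit 68, nat_lit 80090392⟩]⟩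
noncomputable def p090_l138 : Lf2 := ⟨nat_lit 0, nat_lit 15, [nat_lit 30, nat_lit 5, nat_lit 5, nat_lit 20], false, nat_lit 80, nat_lit 160, nat_lit 0, nat_lit 260, ⟨nat_lit 1000, nat_lit 0, nat_lit 0, nat_lit 0, nat_lit 0, nat_lit 0, nat_lit 0, nat_lit 0, nat_lit 0, nat_lit 0, nat_lit 0, nat_lit 0, nat_lit 0, nat_lit 0, nat_lit 0, nat_lit 0, false, false⟩,
 nat_lit 0, nat_lit 0, nat_lit 8621, nat_lit 0, nat_lit 5456, nat_lit 5846, nat_lit 608, nat_lit 0, nat_lit 0, nat_lit 1682, nat_lit 0, nat_lit 0, nat_lit 0, nat_lit 0, nat_lit 0, nat_lit 0, nat_lit 0, nat_lit 0, [],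
 ⟨p090_k22, nat_lit 0, nat_lit 0, nat_lit 141, nat_lit 0, nat_lit 0, [nat_lit 2032000001, nat_lit 4688000000, nat_lit 7968000000], [], [nat_lit 26853579968, nat_lit 28065245104, nat_lit 31902479264, nat_lit 33030093056, nat_lit 26477140928, nat_lit 27568394080, nat_lit 31033658432, nat_lit 31888662192], nat_lit 0, nat_lit 0, nat_lit 0, nat_lit 0, nat_lit 0, nat_lit 0, [], [nat_lit 34, nat_lit 40, nat_lit 40, nat_lit 80, nat_lit 7, nat_lit 249, nat_lit 40, nat_lit 7]⟩, ⟨p090_k39, nat_lit 0, nat_lit 0, nat_lit 598, nat_lit 0, nat_lit 930683, [nat_lit 3282000000, nat_lit 6250000000, nat_lit 9842000000], [], [nat_lit 32100859309, nat_lit 32206997694, nat_lit 36183384301, nat_lit 36472629356, nat_lit 29834849859, nat_lit 29904013174, nat_lit 31778987682, nat_lit 31986019981], nat_lit 1271250, nat_lit 1271250, nat_lit 1271250, nat_lit 1271250, nat_lit 0, nat_lit 1836250, [nat_lit 780000, nat_lit 1435000, nat_lit 1271250],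 [nat_lit 8, nat_lit 40, nat_lit 40, nat_lit 80, nat_lit 1, nat_lit 289, nat_lit 75, nat_lit 8]⟩,
 zbF0, [⟨nat_lit 19, nat_lit 89, nat_lit 100, nat_lit 68, nat_lit 139763312⟩]⟩
noncomputable def p090_l139 : Lf2 := ⟨nat_lit 0, nat_lit 20, [nat_lit 5, nat_lit 5, nat_lit 5, nat_lit 20], false, nat_lit 80, nat_lit 160, nat_lit 0, nat_lit 300, ⟨nat_lit 1000, nat_lit 0, nat_lit 0, nat_lit 0, nat_lit 0, nat_lit 0, nat_lit 0, nat_lit 0, nat_lit 0, nat_lit 0, nat_lit 0, nat_lit 0, nat_lit 0, nat_lit 0, nat_lit 0, nat_lit 0, false, false⟩,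
 nat_lit 0, nat_lit 0, nat_lit 11501, nat_lit 0, nat_lit 5513, nat_lit 7318, nat_lit 715, nat_lit 0, nat_lit 0, nat_lit 689, nat_lit 0, nat_lit 0, nat_lit 0, nat_lit 0, nat_lit 0, nat_lit 0, nat_lit 0, nat_lit 0, [],
 ⟨p090_k20, nat_lit 0, nat_lit 0, nat_lit 159, nat_lit 0, nat_lit 0, [nat_lit 2032000001, nat_lit 4688000000, nat_lit 9842000000], [], [nat_lit 27125711475, nat_lit 27681712523, nat_lit 31878619708, nat_lit 32507073573, nat_lit 26573569395, nat_lit 27074864009, nat_lit 30900935968, nat_lit 31395743342], nat_lit 0, nat_lit 0, nat_lit 0, nat_lit 0, nat_lit 0, nat_lit 0, [], [nat_lit 27, nat_lit 40, nat_lit 40, nat_lit 80, nat_lit 13, nat_lit 249, nat_lit 40, nat_lit 6]⟩, ⟨p090_k21, nat_lit 0, nat_lit 0, nat_lit 534, nat_lit 0, nat_lit 661198, [nat_lit 3282000000, nat_lit 6250000000, nat_lit 11872000000], [], [nat_lit 36645566479, nat_lit 37118737911, nat_lit 40193634575, nat_lit 40935468983, nat_lit 32574377215,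 nat_lit 32824160299, nat_lit 34717759994, nat_lit 34975966964], nat_lit 1271250, nat_lit 1271250, nat_lit 1271250, nat_lit 1271250, nat_lit 0, nat_lit 2118750, [nat_lit 780000, nat_lit 1435000, nat_lit 1271250], [nat_lit 23, nat_lit 40, nat_lit 40, nat_lit 80, nat_lit 12, nat_lit 373, nat_lit 150, nat_lit 9]⟩,
 zbF0, [⟨nat_lit 7, nat_lit 100, nat_lit 97, nat_lit 82, nat_lit 102082157⟩]⟩
noncomputable def p090_l140 : Lf2 := ⟨nat_lit 0, nat_lit 20, [nat_lit 5, nat_lit 5, nat_lit 5, nat_lit 20], false, nat_lit 80, nat_lit 160, nat_lit 0, nat_lit 300, ⟨nat_lit 1000, nat_lit 0, nat_lit 0, nat_lit 0, nat_lit 0, nat_lit 0, nat_lit 0, nat_lit 0, nat_lit 0, nat_lit 0, nat_lit 0, nat_lit 0, nat_lit 0, nat_lit 0, nat_lit 0, nat_lit 0, false, false⟩,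
 nat_lit 0, nat_lit 0, nat_lit 11501, nat_lit 0, nat_lit 4739, nat_lit 7318, nat_lit 770, nat_lit 0, nat_lit 0, nat_lit 689, nat_lit 0, nat_lit 0, nat_lit 0, nat_lit 0, nat_lit 0, nat_lit 0, nat_lit 0, nat_lit 0, [],
 ⟨p090_k29, nat_lit 0, nat_lit 0, nat_lit 161, nat_lit 0, nat_lit 0, [nat_lit 2032000001, nat_lit 4688000000, nat_lit 9842000000], [], [nat_lit 26504046644, nat_lit 27022356988, nat_lit 31119584919, nat_lit 31703839514, nat_lit 26194087502, nat_lit 26663432944, nat_lit 30450434076, nat_lit 30914437798], nat_lit 0, nat_lit 0, nat_lit 0, nat_lit 0, nat_lit 0, nat_lit 0, [], [nat_lit 27, nat_lit 40, nat_lit 40, nat_lit 80, nat_lit 13, nat_lit 249, nat_lit 40, nat_lit 6]⟩, ⟨p090_k21, nat_lit 0, nat_lit 0, nat_lit 574, nat_lit 0, nat_lit 786621, [nat_lit 3282000000, nat_lit 6250000000, nat_lit 11872000000], [], [nat_lit 36645566479, nat_lit 37118737911, nat_lit 40193634575, nat_lit 40935468983, nat_lit 32574377215,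 nat_lit 32824160299, nat_lit 34717759994, nat_lit 34975966964], nat_lit 1271250, nat_lit 1271250, nat_lit 1271250, nat_lit 1271250, nat_lit 0, nat_lit 2118750, [nat_lit 780000, nat_lit 1435000, nat_lit 1271250], [nat_lit 23, nat_lit 40, nat_lit 40, nat_lit 80, nat_lit 12, nat_lit 373, nat_lit 150, nat_lit 9]⟩,
 zbF0, [⟨nat_lit 7, nat_lit 100, nat_lit 97, nat_lit 82, nat_lit 102082157⟩]⟩
noncomputable def b_V_800_700_10_18 : St := ⟨true, nat_lit 0, nat_lit 1, nat_lit 1, nat_lit 80, nat_lit 320, nat_lit 340, nat_lit 280, nat_lit 300, nat_lit 320, nat_lit 400, nat_lit 40, nat_lit 80, nat_lit 0, nat_lit 160, nat_lit 0, nat_lit 300, nat_lit 40, nat_lit 80, nat_lit 0, nat_lit 0, nat_lit 0, nat_lit 0⟩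
theorem d_V_800_700_10_18 (h : EB TB.env) : Dead b_V_800_700_10_18 := chkB_sound0 h (T :=
(.spl (nat_lit 4) (nat_lit 80)
(.trX (nat_lit 22) (nat_lit 83) (nat_lit 100) (nat_lit 83) (nat_lit 260) (.spl (nat_lit 1) (nat_lit 290)
(.spl (nat_lit 5) (nat_lit 160)
(.spl (nat_lit 0) (nat_lit 330)
(.leaf p090_l129)
(.trX (nat_lit 13) (nat_lit 85) (nat_lit 27) (nat_lit 100) (nat_lit 396) (.leaf p090_l130)))
(.trX (nat_lit 10) (nat_lit 100) (nat_lit 44) (nat_lit 82) (nat_lit 384) (.trZ (nat_lit 22) (nat_lit 82) (nat_lit 100) (nat_lit 44) (nat_lit 16) (.leaf p090_l131))))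
(.spl (nat_lit 0) (nat_lit 330)
(.leaf p090_l132)
(.leaf p090_l133))))
(.spl (nat_lit 3) (nat_lit 60)
(.trX (nat_lit 19) (nat_lit 99) (nat_lit 100) (nat_lit 77) (nat_lit 276) (.spl (nat_lit 1) (nat_lit 290)
(.spl (nat_lit 5) (nat_lit 160)
(.leaf p090_l134)
(.spl (nat_lit 0) (nat_lit 330)
(.leaf p090_l135)
(.trX (nat_lit 13) (nat_lit 85) (nat_lit 27) (nat_lit 100) (nat_lit 396) (.leaf p090_l136))))
(.trX (nat_lit 19) (nat_lit 94) (nat_lit 100) (nat_lit 75) (nat_lit 268) (.spl (nat_lit 1) (nat_lit 295)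
(.leaf p090_l137)
(.trX (nat_lit 19) (nat_lit 92) (nat_lit 100) (nat_lit 75) (nat_lit 260) (.leaf p090_l138))))))
(.spl (nat_lit 0) (nat_lit 330)
(.leaf p090_l139)
(.leaf p090_l140))))) (by decide +kernel)

end B2
end Pool.Agent.Lib.MP_6947cd_al
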