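import Pool.Agent.Lib.MP_6947cd_al.ZB.Pre

/-!
Problem MP_6947cd_al (Chollet).  Case B, second entry in [2/5, 17/20]: certificates of the tree, part P102 (generated).
-/

set_option autoImplicit false
set_option linter.all false

namespace Pool.Agent.Lib.MP_6947cd_al
namespace B2

open Ent Fr B1 PkA

noncomputable def p102_k0 : C1.Kn := ⟨[nat_lit 40, nat_lit 100, nat_lit 160], [nat_lit 0, nat_lit 0, nat_lit 4607], [(nat_lit 0, nat_lit 0, nat_lit 0), (nat_lit 0, nat_lit 0, nat_lit 0), (nat_lit 846, nat_lit 837, nat_lit 1000)], (nat_lit 87, nat_lit 95, nat_lit 100)⟩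
noncomputable def p102_k1 : C1.Kn := ⟨[nat_lit 40, nat_lit 80, nat_lit 140], [nat_lit 0, nat_lit 795, nat_lit 3803], [(nat_lit 0, nat_lit 0, nat_lit 0), (nat_lit 1000, nat_lit 814, nat_lit 310), (nat_lit 1000, nat_lit 719, nat_lit 783)], (nat_lit 77, nat_lit 100, nat_lit 99)⟩
noncomputable def p102_k2 : C1.Kn := ⟨[nat_lit 40, nat_lit 80, nat_lit 160], [nat_lit 0, nat_lit 0, nat_lit 4265], [(nat_lit 0, nat_lit 0, nat_lit 0), (nat_lit 0, nat_lit 0, nat_lit 0), (nat_lit 1000, nat_lit 833, nat_lit 833)], (nat_lit 87, nat_lit 95, nat_lit 100)⟩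
noncomputable def p102_k3 : C1.Kn := ⟨[nat_lit 40, nat_lit 80, nat_lit 140], [nat_lit 0, nat_lit 1195, nat_lit 4104], [(nat_lit 0, nat_lit 0, nat_lit 0), (nat_lit 1000, nat_lit 720, nat_lit 465), (nat_lit 1000, nat_lit 661, nat_lit 757)], (nat_lit 69, nat_lit 100, nat_lit 96)⟩
noncomputable def p102_k4 : C1.Kn := ⟨[nat_lit 40, nat_lit 100, nat_lit 160], [nat_lit 0, nat_lit 288, nat_lit 4799], [(nat_lit 0, nat_lit 0, nat_lit 0), (nat_lit 1000, nat_lit 955, nat_lit 75), (nat_lit 854, nat_lit 813, nat_lit 1000)], (nat_lit 85, nat_lit 97, nat_lit 100)⟩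
noncomputable def p102_k5 : C1.Kn := ⟨[nat_lit 40, nat_lit 100, nat_lit 160], [nat_lit 0, nat_lit 592, nat_lit 4992], [(nat_lit 0, nat_lit 0, nat_lit 0), (nat_lit 1000, nat_lit 908, nat_lit 154), (nat_lit 873, nat_lit 792, nat_lit 1000)], (nat_lit 83, nat_lit 98, nat_lit 100)⟩
noncomputable def p102_k6 : C1.Kn := ⟨[nat_lit 40, nat_lit 100, nat_lit 140], [nat_lit 0, nat_lit 1192, nat_lit 4003], [(nat_lit 0, nat_lit 0, nat_lit 0), (nat_lit 1000, nat_lit 814, nat_lit 310), (nat_lit 992, nat_lit 771, nat_lit 1000)], (nat_lit 77, nat_lit 100, nat_lit 99)⟩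
noncomputable def p102_k7 : C1.Kn := ⟨[nat_lit 40, nat_lit 80, nat_lit 160], [nat_lit 0, nat_lit 395, nat_lit 4535], [(nat_lit 0, nat_lit 0, nat_lit 0), (nat_lit 1000, nat_lit 908, nat_lit 154), (nat_lit 1000, nat_lit 776, nat_lit 808)], (nat_lit 83, nat_lit 98, nat_lit 100)⟩
noncomputable def p102_k8 : C1.Kn := ⟨[nat_lit 20, nat_lit 60, nat_lit 80], [nat_lit 0, nat_lit 0, nat_lit 1613], [(nat_lit 0, nat_lit 0, nat_lit 0), (nat_lit 0, nat_lit 0, nat_lit 0), (nat_lit 1000, nat_lit 614, nat_lit 668)], (nat_lit 63, nat_lit 100, nat_lit 62)⟩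
noncomputable def p102_k9 : C1.Kn := ⟨[nat_lit 20, nat_lit 60, nat_lit 80], [nat_lit 0, nat_lit 698, nat_lit 2008], [(nat_lit 0, nat_lit 0, nat_lit 0), (nat_lit 1000, nat_lit 782, nat_lit 272), (nat_lit 1000, nat_lit 540, nat_lit 733)], (nat_lit 57, nat_lit 100, nat_lit 64)⟩
noncomputable def p102_k10 : C1.Kn := ⟨[nat_lit 20, nat_lit 60], [nat_lit 0, nat_lit 1056], [(nat_lit 0, nat_lit 0, nat_lit 0), (nat_lit 1000, nat_lit 671, nat_lit 411)], (nat_lit 53, nat_lit 100, nat_lit 66)⟩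
noncomputable def p102_k11 : C1.Kn := ⟨[nat_lit 120, nat_lit 160, nat_lit 180], [nat_lit 0, nat_lit 0, nat_lit 1613], [(nat_lit 0, nat_lit 0, nat_lit 0), (nat_lit 0, nat_lit 0, nat_lit 0), (nat_lit 620, nat_lit 1000, nat_lit 670)], (nat_lit 100, nat_lit 68, nat_lit 61)⟩
noncomputable def p102_k12 : C1.Kn := ⟨[nat_lit 120, nat_lit 160, nat_lit 180], [nat_lit 0, nat_lit 533, nat_lit 2066], [(nat_lit 0, nat_lit 0, nat_lit 0), (nat_lit 960, nat_lit 1000, nat_lit 200), (nat_lit 615, nat_lit 1000, nat_lit 729)], (nat_lit 100, nat_lit 74, nat_lit 60)⟩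
noncomputable def p102_k13 : C1.Kn := ⟨[nat_lit 20, nat_lit 60], [nat_lit 0, nat_lit 1415], [(nat_lit 0, nat_lit 0, nat_lit 0), (nat_lit 1000, nat_lit 558, nat_lit 551)], (nat_lit 49, nat_lit 100, nat_lit 68)⟩
noncomputable def p102_k14 : C1.Kn := ⟨[nat_lit 20, nat_lit 60], [nat_lit 0, nat_lit 2136], [(nat_lit 0, nat_lit 0, nat_lit 0), (nat_lit 1000, nat_lit 343, nat_lit 808)], (nat_lit 38, nat_lit 100, nat_lit 73)⟩
noncomputable def p102_k15 : C1.Kn := ⟨[nat_lit 20, nat_lit 60], [nat_lit 0, nat_lit 1776], [(nat_lit 0, nat_lit 0, nat_lit 0), (nat_lit 1000, nat_lit 445, nat_lit 693)], (nat_lit 44, nat_lit 100, nat_lit 70)⟩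
noncomputable def p102_k16 : C1.Kn := ⟨[nat_lit 20, nat_lit 40], [nat_lit 0, nat_lit 1351], [(nat_lit 0, nat_lit 0, nat_lit 0), (nat_lit 1000, nat_lit 333, nat_lit 760)], (nat_lit 33, nat_lit 100, nat_lit 76)⟩
noncomputable def p102_k17 : C1.Kn := ⟨[nat_lit 20, nat_lit 40], [nat_lit 0, nat_lit 1518], [(nat_lit 0, nat_lit 0, nat_lit 0), (nat_lit 1000, nat_lit 282, nat_lit 802)], (nat_lit 29, nat_lit 100, nat_lit 79)⟩
noncomputable def p102_k18 : C1.Kn := ⟨[nat_lit 120, nat_lit 140, nat_lit 180], [nat_lit 0, nat_lit 0, nat_lit 1219], [(nat_lit 0, nat_lit 0, nat_lit 0), (nat_lit 0, nat_lit 0, nat_lit 0), (nat_lit 840, nat_lit 1000, nat_lit 400)], (nat_lit 100, nat_lit 68, nat_lit 61)⟩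
noncomputable def p102_k19 : C1.Kn := ⟨[nat_lit 20, nat_lit 80], [nat_lit 0, nat_lit 0], [(nat_lit 0, nat_lit 0, nat_lit 0), (nat_lit 0, nat_lit 0, nat_lit 0)], (nat_lit 63, nat_lit 100, nat_lit 62)⟩
noncomputable def p102_k20 : C1.Kn := ⟨[nat_lit 120, nat_lit 180], [nat_lit 0, nat_lit 0], [(nat_lit 0, nat_lit 0, nat_lit 0), (nat_lit 0, nat_lit 0, nat_lit 0)], (nat_lit 100, nat_lit 68, nat_lit 61)⟩
noncomputable def p102_k21 : C1.Kn := ⟨[nat_lit 20, nat_lit 60, nat_lit 80], [nat_lit 0, nat_lit 339, nat_lit 1800], [(nat_lit 0, nat_lit 0, nat_lit 0), (nat_lit 1000, nat_lit 894, nat_lit 132), (nat_lit 1000, nat_lit 578, nat_lit 704)], (nat_lit 60, nat_lit 100, nat_lit 63)⟩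
noncomputable def p102_k22 : C1.Kn := ⟨[nat_lit 20, nat_lit 60, nat_lit 100], [nat_lit 0, nat_lit 0, nat_lit 2559], [(nat_lit 0, nat_lit 0, nat_lit 0), (nat_lit 0, nat_lit 0, nat_lit 0), (nat_lit 1000, nat_lit 600, nat_lit 787)], (nat_lit 60, nat_lit 100, nat_lit 80)⟩
noncomputable def p102_k23 : C1.Kn := ⟨[nat_lit 120, nat_lit 160, nat_lit 200], [nat_lit 0, nat_lit 0, nat_lit 3198], [(nat_lit 0, nat_lit 0, nat_lit 0), (nat_lit 0, nat_lit 0, nat_lit 0), (nat_lit 572, nat_lit 1000, nat_lit 714)], (nat_lit 0, nat_lit 0, nat_lit 0)⟩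
noncomputable def p102_k24 : C1.Kn := ⟨[nat_lit 20, nat_lit 100], [nat_lit 0, nat_lit 0], [(nat_lit 0, nat_lit 0, nat_lit 0), (nat_lit 0, nat_lit 0, nat_lit 0)], (nat_lit 60, nat_lit 100, nat_lit 80)⟩
noncomputable def p102_k25 : C1.Kn := ⟨[nat_lit 20, nat_lit 60, nat_lit 100], [nat_lit 0, nat_lit 339, nat_lit 2783], [(nat_lit 0, nat_lit 0, nat_lit 0), (nat_lit 1000, nat_lit 894, nat_lit 132), (nat_lit 1000, nat_lit 565, nat_lit 820)], (nat_lit 57, nat_lit 100, nat_lit 80)⟩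
noncomputable def p102_k26 : C1.Kn := ⟨[nat_lit 20, nat_lit 60, nat_lit 100], [nat_lit 0, nat_lit 698, nat_lit 3028], [(nat_lit 0, nat_lit 0, nat_lit 0), (nat_lit 1000, nat_lit 782, nat_lit 272), (nat_lit 1000, nat_lit 527, nat_lit 841)], (nat_lit 53, nat_lit 100, nat_lit 80)⟩
noncomputable def p102_k27 : C1.Kn := ⟨[nat_lit 20, nat_lit 60, nat_lit 100], [nat_lit 0, nat_lit 1056, nat_lit 3301], [(nat_lit 0, nat_lit 0, nat_lit 0), (nat_lit 1000, nat_lit 671, nat_lit 411), (nat_lit 1000, nat_lit 484, nat_lit 867)], (nat_lit 49, nat_lit 100, nat_lit 81)⟩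
noncomputable def p102_k28 : C1.Kn := ⟨[nat_lit 20, nat_lit 100], [nat_lit 0, nat_lit 2826], [(nat_lit 0, nat_lit 0, nat_lit 0), (nat_lit 1000, nat_lit 558, nat_lit 551)], (nat_lit 44, nat_lit 100, nat_lit 82)⟩
noncomputable def p102_k29 : C1.Kn := ⟨[nat_lit 20, nat_lit 60, nat_lit 100], [nat_lit 0, nat_lit 1415, nat_lit 3591], [(nat_lit 0, nat_lit 0, nat_lit 0), (nat_lit 1000, nat_lit 558, nat_lit 551), (nat_lit 1000, nat_lit 439, nat_lit 849)], (nat_lit 44, nat_lit 100, nat_lit 82)⟩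
noncomputable def p102_k30 : C1.Kn := ⟨[nat_lit 20, nat_lit 60, nat_lit 80], [nat_lit 0, nat_lit 2136, nat_lit 3185], [(nat_lit 0, nat_lit 0, nat_lit 0), (nat_lit 1000, nat_lit 343, nat_lit 808), (nat_lit 1000, nat_lit 338, nat_lit 820)], (nat_lit 33, nat_lit 100, nat_lit 84)⟩
noncomputable def p102_k31 : C1.Kn := ⟨[nat_lit 120, nat_lit 200], [nat_lit 0, nat_lit 0], [(nat_lit 0, nat_lit 0, nat_lit 0), (nat_lit 0, nat_lit 0, nat_lit 0)], (nat_lit 0, nat_lit 0, nat_lit 0)⟩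
noncomputable def p102_k32 : C1.Kn := ⟨[nat_lit 120, nat_lit 160, nat_lit 200], [nat_lit 0, nat_lit 533, nat_lit 3597], [(nat_lit 0, nat_lit 0, nat_lit 0), (nat_lit 960, nat_lit 1000, nat_lit 200), (nat_lit 612, nat_lit 1000, nat_lit 732)], (nat_lit 0, nat_lit 0, nat_lit 0)⟩
noncomputable def p102_k33 : C1.Kn := ⟨[nat_lit 20, nat_lit 40, nat_lit 100], [nat_lit 0, nat_lit 0, nat_lit 2396], [(nat_lit 0, nat_lit 0, nat_lit 0), (nat_lit 0, nat_lit 0, nat_lit 0), (nat_lit 1000, nat_lit 625, nat_lit 623)], (nat_lit 60, nat_lit 100, nat_lit 80)⟩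
noncomputable def p102_k34 : C1.Kn := ⟨[nat_lit 20, nat_lit 40, nat_lit 100], [nat_lit 0, nat_lit 710, nat_lit 2998], [(nat_lit 0, nat_lit 0, nat_lit 0), (nat_lit 1000, nat_lit 558, nat_lit 551), (nat_lit 1000, nat_lit 532, nat_lit 596)], (nat_lit 44, nat_lit 100, nat_lit 82)⟩
noncomputable def p102_l0 : Lf2 := ⟨nat_lit 0, nat_lit 30, [nat_lit 15, nat_lit 5, nat_lit 5, nat_lit 20], false, nat_lit 0, nat_lit 160, nat_lit 0, nat_lit 160, ⟨nat_lit 1000, nat_lit 0, nat_lit 0, nat_lit 0, nat_lit 0, nat_lit 0, nat_lit 0, nat_lit 0, nat_lit 0, nat_lit 0, nat_lit 0, nat_lit 0, nat_lit 0, nat_lit 0, nat_lit 0, nat_lit 0, false, false⟩,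
 nat_lit 0, nat_lit 9132, nat_lit 0, nat_lit 0, nat_lit 6848, nat_lit 7127, nat_lit 642, nat_lit 0, nat_lit 0, nat_lit 753, nat_lit 0, nat_lit 0, nat_lit 0, nat_lit 0, nat_lit 0, nat_lit 0, nat_lit 0, nat_lit 0, [],
 ⟨p102_k0, nat_lit 0, nat_lit 0, nat_lit 502, nat_lit 0, nat_lit 469274, [nat_lit 2032000001, nat_lit 6250000000, nat_lit 11872000000], [], [nat_lit 35096470497, nat_lit 32856630482, nat_lit 40432961088, nat_lit 41889866352, nat_lit 27681419354, nat_lit 28583645866, nat_lit 40189996416, nat_lit 37205350400], nat_lit 1271250, nat_lit 1271250, nat_lit 936251, nat_lit 3113750, nat_lit 0, nat_lit 1100001, [nat_lit 490000, nat_lit 1427500, nat_lit 1271250], [nat_lit 72, nat_lit 40, nat_lit 40, nat_lit 80, nat_lit 12, nat_lit 373, nat_lit 150, nat_lit 9]⟩, ⟨p102_k0, nat_lit 0, nat_lit 0, nat_lit 244, nat_lit 0, nat_lit 0, [nat_lit 2032000000, nat_lit 6250000000, nat_lit 11872000000], [], [nat_lit 27888116619,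 nat_lit 29294122251, nat_lit 41213535012, nat_lit 42703437048, nat_lit 23075588839, nat_lit 24610970301, nat_lit 33088953864, nat_lit 34159813104], nat_lit 0, nat_lit 0, nat_lit 0, nat_lit 0, nat_lit 0, nat_lit 0, [], [nat_lit 72, nat_lit 40, nat_lit 40, nat_lit 80, nat_lit 12, nat_lit 373, nat_lit 150, nat_lit 9]⟩,
 zbF0, []⟩
noncomputable def p102_l1 : Lf2 := ⟨nat_lit 0, nat_lit 30, [nat_lit 15, nat_lit 5, nat_lit 5, nat_lit 20], false, nat_lit 0, nat_lit 160, nat_lit 160, nat_lit 300, ⟨nat_lit 1000, nat_lit 0, nat_lit 0, nat_lit 0, nat_lit 0, nat_lit 0, nat_lit 0, nat_lit 0, nat_lit 0, nat_lit 0, nat_lit 0, nat_lit 0, nat_lit 0, nat_lit 0, nat_lit 0, nat_lit 0, false, false⟩,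
 nat_lit 0, nat_lit 9304, nat_lit 0, nat_lit 0, nat_lit 6977, nat_lit 7370, nat_lit 605, nat_lit 0, nat_lit 0, nat_lit 0, nat_lit 0, nat_lit 0, nat_lit 0, nat_lit 0, nat_lit 0, nat_lit 0, nat_lit 0, nat_lit 0, [],
 ⟨p102_k0, nat_lit 0, nat_lit 0, nat_lit 502, nat_lit 0, nat_lit 469274, [nat_lit 2032000001, nat_lit 6250000000, nat_lit 11872000000], [], [nat_lit 35224838655, nat_lit 33184167318, nat_lit 40793871612, nat_lit 42266033448, nat_lit 27873233871, nat_lit 28783257659, nat_lit 40119354984, nat_lit 37078485350], nat_lit 1271250, nat_lit 1271250, nat_lit 936251, nat_lit 3113750, nat_lit 0, nat_lit 1100001, [nat_lit 490000, nat_lit 1427500, nat_lit 1271250], [nat_lit 72, nat_lit 40, nat_lit 40, nat_lit 80, nat_lit 12, nat_lit 373, nat_lit 150, nat_lit 9]⟩, ⟨p102_k0, nat_lit 0, nat_lit 0, nat_lit 95, nat_lit 0, nat_lit 0, [nat_lit 2032000000, nat_lit 6250000000, nat_lit 11872000000], [], [nat_lit 19160838960,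 nat_lit 21251761900, nat_lit 33164875280, nat_lit 34490184240, nat_lit 25544977840, nat_lit 27063643345, nat_lit 35829257660, nat_lit 36793752385], nat_lit 0, nat_lit 0, nat_lit 0, nat_lit 0, nat_lit 0, nat_lit 0, [], [nat_lit 72, nat_lit 40, nat_lit 40, nat_lit 80, nat_lit 12, nat_lit 401, nat_lit 175, nat_lit 10]⟩,
 zbF0, [⟨nat_lit 7, nat_lit 100, nat_lit 81, nat_lit 92, nat_lit 573266692⟩]⟩
noncomputable def p102_l2 : Lf2 := ⟨nat_lit 0, nat_lit 30, [nat_lit 15, nat_lit 5, nat_lit 5, nat_lit 20], false, nat_lit 0, nat_lit 160, nat_lit 0, nat_lit 300, ⟨nat_lit 1000, nat_lit 0, nat_lit 0, nat_lit 0, nat_lit 0, nat_lit 0, nat_lit 0, nat_lit 0, nat_lit 0, nat_lit 0, nat_lit 0, nat_lit 0, nat_lit 0, nat_lit 0, nat_lit 0, nat_lit 0, false, false⟩,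
 nat_lit 0, nat_lit 7553, nat_lit 0, nat_lit 0, nat_lit 6114, nat_lit 6354, nat_lit 530, nat_lit 0, nat_lit 0, nat_lit 546, nat_lit 0, nat_lit 0, nat_lit 0, nat_lit 0, nat_lit 0, nat_lit 0, nat_lit 0, nat_lit 0, [],
 ⟨p102_k1, nat_lit 0, nat_lit 0, nat_lit 437, nat_lit 0, nat_lit 495589, [nat_lit 2032000001, nat_lit 4688000000, nat_lit 9842000000], [], [nat_lit 30203998715, nat_lit 28592513393, nat_lit 39749504736, nat_lit 40434553012, nat_lit 23998078736, nat_lit 24433543310, nat_lit 39288290948, nat_lit 37972325816], nat_lit 1271250, nat_lit 1271250, nat_lit 1167600, nat_lit 3171500, nat_lit 0, nat_lit 1100001, [nat_lit 490000, nat_lit 1100000, nat_lit 2127500], [nat_lit 27, nat_lit 40, nat_lit 40, nat_lit 80, nat_lit 13, nat_lit 373, nat_lit 150, nat_lit 10]⟩, ⟨p102_k2, nat_lit 0, nat_lit 0, nat_lit 234, nat_lit 0, nat_lit 0, [nat_lit 2032000000, nat_lit 4688000000, nat_lit 11872000000], [], [nat_lit 29882472835,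 nat_lit 31478011635, nat_lit 39861012598, nat_lit 40716671010, nat_lit 29120972059, nat_lit 29972567486, nat_lit 34917150234, nat_lit 35545331717], nat_lit 0, nat_lit 0, nat_lit 0, nat_lit 0, nat_lit 0, nat_lit 0, [], [nat_lit 75, nat_lit 40, nat_lit 40, nat_lit 80, nat_lit 65, nat_lit 401, nat_lit 175, nat_lit 10]⟩,
 zbF0, [⟨nat_lit 7, nat_lit 100, nat_lit 81, nat_lit 92, nat_lit 126816404⟩]⟩
noncomputable def p102_l3 : Lf2 := ⟨nat_lit 0, nat_lit 30, [nat_lit 15, nat_lit 5, nat_lit 5, nat_lit 20], false, nat_lit 4, nat_lit 160, nat_lit 0, nat_lit 300, ⟨nat_lit 1000, nat_lit 0, nat_lit 0, nat_lit 0, nat_lit 0, nat_lit 0, nat_lit 0, nat_lit 0, nat_lit 0, nat_lit 0, nat_lit 0, nat_lit 0, nat_lit 0, nat_lit 0, nat_lit 0, nat_lit 0, false, false⟩,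
 nat_lit 0, nat_lit 5967, nat_lit 0, nat_lit 0, nat_lit 5011, nat_lit 6339, nat_lit 705, nat_lit 0, nat_lit 0, nat_lit 568, nat_lit 0, nat_lit 0, nat_lit 0, nat_lit 0, nat_lit 0, nat_lit 0, nat_lit 0, nat_lit 0, [],
 ⟨p102_k3, nat_lit 0, nat_lit 0, nat_lit 447, nat_lit 0, nat_lit 543408, [nat_lit 2032000001, nat_lit 4688000000, nat_lit 9842000000], [], [nat_lit 25212377377, nat_lit 25968074001, nat_lit 36935643659, nat_lit 37554465317, nat_lit 22498462532, nat_lit 22879159981, nat_lit 31829111516, nat_lit 32375221960], nat_lit 1271250, nat_lit 1271250, nat_lit 1271250, nat_lit 1271250, nat_lit 21650, nat_lit 1100001, [nat_lit 490000, nat_lit 1100000, nat_lit 2127500], [nat_lit 27, nat_lit 40, nat_lit 40, nat_lit 80, nat_lit 13, nat_lit 373, nat_lit 150, nat_lit 10]⟩, ⟨p102_k2, nat_lit 0, nat_lit 0, nat_lit 234, nat_lit 0, nat_lit 0, [nat_lit 2032000000, nat_lit 4688000000, nat_lit 11872000000], [], [nat_lit 29843480527,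 nat_lit 31391714223, nat_lit 39549945168, nat_lit 40405610136, nat_lit 28922662361, nat_lit 29750078239, nat_lit 34629978794, nat_lit 35526900310], nat_lit 0, nat_lit 0, nat_lit 0, nat_lit 0, nat_lit 0, nat_lit 0, [], [nat_lit 75, nat_lit 40, nat_lit 40, nat_lit 80, nat_lit 65, nat_lit 401, nat_lit 175, nat_lit 10]⟩,
 zbF0, [⟨nat_lit 19, nat_lit 81, nat_lit 100, nat_lit 92, nat_lit 169936413⟩]⟩
noncomputable def p102_l4 : Lf2 := ⟨nat_lit 0, nat_lit 30, [nat_lit 15, nat_lit 5, nat_lit 5, nat_lit 20], false, nat_lit 160, nat_lit 300, nat_lit 0, nat_lit 160, ⟨nat_lit 1000, nat_lit 0, nat_lit 0, nat_lit 0, nat_lit 0, nat_lit 0, nat_lit 0, nat_lit 0, nat_lit 0, nat_lit 0, nat_lit 0, nat_lit 0, nat_lit 0, nat_lit 0, nat_lit 0, nat_lit 0, false, false⟩,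
 nat_lit 0, nat_lit 8995, nat_lit 0, nat_lit 4123, nat_lit 6746, nat_lit 6200, nat_lit 737, nat_lit 0, nat_lit 0, nat_lit 981, nat_lit 0, nat_lit 0, nat_lit 0, nat_lit 1244900845388, nat_lit 0, nat_lit 0, nat_lit 0, nat_lit 0, [],
 ⟨p102_k2, nat_lit 0, nat_lit 0, nat_lit 435, nat_lit 0, nat_lit 636791, [nat_lit 2032000001, nat_lit 4688000000, nat_lit 11872000000], [], [nat_lit 23555512179, nat_lit 25620208455, nat_lit 24571746035, nat_lit 26292332987, nat_lit 26323474868, nat_lit 28481477856, nat_lit 26962033657, nat_lit 29079632808], nat_lit 1271250, nat_lit 1271250, nat_lit 936251, nat_lit 1773750, nat_lit 1271250, nat_lit 1271250, [nat_lit 490000, nat_lit 1100000, nat_lit 2470000], [nat_lit 75, nat_lit 40, nat_lit 40, nat_lit 80, nat_lit 65, nat_lit 373, nat_lit 150, nat_lit 9]⟩, ⟨p102_k2, nat_lit 0, nat_lit 0, nat_lit 216, nat_lit 0, nat_lit 0, [nat_lit 2032000000, nat_lit 4688000000, nat_lit 11872000000],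 [], [nat_lit 23827599375, nat_lit 25472066175, nat_lit 25688430975, nat_lit 27053251375, nat_lit 19289474575, nat_lit 20685501375, nat_lit 20941458975, nat_lit 22361582000], nat_lit 0, nat_lit 0, nat_lit 0, nat_lit 0, nat_lit 0, nat_lit 0, [], [nat_lit 75, nat_lit 40, nat_lit 40, nat_lit 80, nat_lit 65, nat_lit 317, nat_lit 100, nat_lit 8]⟩,
 zbF0, [⟨nat_lit 0, nat_lit 76, nat_lit 72, nat_lit 100, nat_lit 623655133⟩, ⟨nat_lit 16, nat_lit 74, nat_lit 100, nat_lit 90, nat_lit 478199317⟩]⟩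
noncomputable def p102_l5 : Lf2 := ⟨nat_lit 0, nat_lit 30, [nat_lit 15, nat_lit 5, nat_lit 5, nat_lit 20], false, nat_lit 160, nat_lit 300, nat_lit 160, nat_lit 300, ⟨nat_lit 1000, nat_lit 0, nat_lit 0, nat_lit 0, nat_lit 0, nat_lit 0, nat_lit 0, nat_lit 0, nat_lit 0, nat_lit 0, nat_lit 0, nat_lit 0, nat_lit 0, nat_lit 0, nat_lit 0, nat_lit 0, false, false⟩,
 nat_lit 0, nat_lit 8995, nat_lit 0, nat_lit 5555, nat_lit 6746, nat_lit 3797, nat_lit 736, nat_lit 0, nat_lit 0, nat_lit 0, nat_lit 0, nat_lit 0, nat_lit 0, nat_lit 0, nat_lit 0, nat_lit 0, nat_lit 0, nat_lit 0, [],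
 ⟨p102_k2, nat_lit 0, nat_lit 0, nat_lit 435, nat_lit 0, nat_lit 636791, [nat_lit 2032000001, nat_lit 4688000000, nat_lit 11872000000], [], [nat_lit 23568840304, nat_lit 25633536580, nat_lit 24585074160, nat_lit 26305661112, nat_lit 26336802993, nat_lit 28494805981, nat_lit 26975361782, nat_lit 29079632808], nat_lit 1271250, nat_lit 1271250, nat_lit 936251, nat_lit 1773750, nat_lit 1271250, nat_lit 1271250, [nat_lit 490000, nat_lit 1100000, nat_lit 2470000], [nat_lit 75, nat_lit 40, nat_lit 40, nat_lit 80, nat_lit 65, nat_lit 373, nat_lit 150, nat_lit 9]⟩, ⟨p102_k2, nat_lit 0, nat_lit 0, nat_lit 50, nat_lit 0, nat_lit 0, [nat_lit 2032000000, nat_lit 4688000000, nat_lit 11872000000], [], [nat_lit 16161562134, nat_lit 17850697796, nat_lit 19470023564, nat_lit 20883286584, nat_lit 22274639285, nat_lit 23610771354, nat_lit 24545409625, nat_lit 25675610941], nat_lit 0, nat_lit 0, nat_lit 0, nat_lit 0, nat_lit 0, nat_lit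 0, [], [nat_lit 75, nat_lit 40, nat_lit 40, nat_lit 80, nat_lit 65, nat_lit 373, nat_lit 150, nat_lit 9]⟩,
 zbF0, [⟨nat_lit 0, nat_lit 76, nat_lit 72, nat_lit 100, nat_lit 580647352⟩, ⟨nat_lit 4, nat_lit 100, nat_lit 74, nat_lit 90, nat_lit 478199317⟩, ⟨nat_lit 7, nat_lit 100, nat_lit 81, nat_lit 92, nat_lit 524401740⟩]⟩
noncomputable def p102_l6 : Lf2 := ⟨nat_lit 0, nat_lit 30, [nat_lit 15, nat_lit 5, nat_lit 5, nat_lit 20], false, nat_lit 160, nat_lit 300, nat_lit 0, nat_lit 160, ⟨nat_lit 1000, nat_lit 0, nat_lit 0, nat_lit 0, nat_lit 0, nat_lit 0, nat_lit 0, nat_lit 0, nat_lit 0, nat_lit 0, nat_lit 0, nat_lit 0, nat_lit 0, nat_lit 0, nat_lit 0, nat_lit 0, false, false⟩,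
 nat_lit 0, nat_lit 7917, nat_lit 0, nat_lit 0, nat_lit 5937, nat_lit 6305, nat_lit 631, nat_lit 0, nat_lit 0, nat_lit 605, nat_lit 0, nat_lit 0, nat_lit 0, nat_lit 0, nat_lit 0, nat_lit 0, nat_lit 0, nat_lit 0, [],
 ⟨p102_k2, nat_lit 0, nat_lit 0, nat_lit 388, nat_lit 0, nat_lit 636791, [nat_lit 2032000001, nat_lit 4688000000, nat_lit 11872000000], [], [nat_lit 28133263645, nat_lit 29762368525, nat_lit 33109987805, nat_lit 34174213817, nat_lit 30278822180, nat_lit 31506052351, nat_lit 34152335266, nat_lit 35913541911], nat_lit 1271250, nat_lit 1271250, nat_lit 1271250, nat_lit 1271250, nat_lit 1100001, nat_lit 2298750, [nat_lit 490000, nat_lit 1100000, nat_lit 2470000], [nat_lit 75, nat_lit 40, nat_lit 40, nat_lit 80, nat_lit 65, nat_lit 401, nat_lit 175, nat_lit 9]⟩, ⟨p102_k2, nat_lit 0, nat_lit 0, nat_lit 234, nat_lit 0, nat_lit 0, [nat_lit 2032000000, nat_lit 4688000000, nat_lit 11872000000], [], [nat_lit 30762206215,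 nat_lit 32139663575, nat_lit 39016347535, nat_lit 40306465320, nat_lit 26460905295, nat_lit 27452945955, nat_lit 32972668315, nat_lit 33713241655], nat_lit 0, nat_lit 0, nat_lit 0, nat_lit 0, nat_lit 0, nat_lit 0, [], [nat_lit 75, nat_lit 40, nat_lit 40, nat_lit 80, nat_lit 65, nat_lit 373, nat_lit 150, nat_lit 9]⟩,
 zbF0, [⟨nat_lit 4, nat_lit 100, nat_lit 74, nat_lit 90, nat_lit 423265326⟩]⟩
noncomputable def p102_l7 : Lf2 := ⟨nat_lit 0, nat_lit 30, [nat_lit 15, nat_lit 5, nat_lit 5, nat_lit 20], false, nat_lit 160, nat_lit 300, nat_lit 160, nat_lit 300, ⟨nat_lit 1000, nat_lit 0, nat_lit 0, nat_lit 0, nat_lit 0, nat_lit 0, nat_lit 0, nat_lit 0, nat_lit 0, nat_lit 0, nat_lit 0, nat_lit 0, nat_lit 0, nat_lit 0, nat_lit 0, nat_lit 0, false, false⟩,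
 nat_lit 0, nat_lit 9210, nat_lit 0, nat_lit 0, nat_lit 6907, nat_lit 6706, nat_lit 485, nat_lit 0, nat_lit 0, nat_lit 0, nat_lit 0, nat_lit 0, nat_lit 0, nat_lit 0, nat_lit 0, nat_lit 0, nat_lit 0, nat_lit 0, [],
 ⟨p102_k0, nat_lit 0, nat_lit 0, nat_lit 396, nat_lit 0, nat_lit 636791, [nat_lit 2032000001, nat_lit 6250000000, nat_lit 11872000000], [], [nat_lit 30437583061, nat_lit 31942346905, nat_lit 34889627485, nat_lit 36007219332, nat_lit 31994545319, nat_lit 33100249272, nat_lit 35704931725, nat_lit 37162225821], nat_lit 1271250, nat_lit 1271250, nat_lit 1271250, nat_lit 1271250, nat_lit 1100001, nat_lit 2298750, [nat_lit 490000, nat_lit 1427500, nat_lit 1271250], [nat_lit 72, nat_lit 40, nat_lit 40, nat_lit 80, nat_lit 12, nat_lit 401, nat_lit 175, nat_lit 9]⟩, ⟨p102_k0, nat_lit 0, nat_lit 0, nat_lit 95, nat_lit 0, nat_lit 0, [nat_lit 2032000000, nat_lit 6250000000, nat_lit 11872000000], [], [nat_lit 22729089736,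 nat_lit 24348593432, nat_lit 32576788848, nat_lit 33587722596, nat_lit 27556348974, nat_lit 28747701810, nat_lit 35052232908, nat_lit 35977855413], nat_lit 0, nat_lit 0, nat_lit 0, nat_lit 0, nat_lit 0, nat_lit 0, [], [nat_lit 72, nat_lit 40, nat_lit 40, nat_lit 80, nat_lit 12, nat_lit 401, nat_lit 175, nat_lit 9]⟩,
 zbF0, [⟨nat_lit 4, nat_lit 100, nat_lit 74, nat_lit 90, nat_lit 391851650⟩, ⟨nat_lit 7, nat_lit 100, nat_lit 81, nat_lit 92, nat_lit 470504109⟩]⟩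
noncomputable def p102_l8 : Lf2 := ⟨nat_lit 0, nat_lit 30, [nat_lit 15, nat_lit 5, nat_lit 5, nat_lit 20], false, nat_lit 0, nat_lit 160, nat_lit 0, nat_lit 300, ⟨nat_lit 427, nat_lit 573, nat_lit 0, nat_lit 8, nat_lit 250, nat_lit 573, nat_lit 65, nat_lit 0, nat_lit 0, nat_lit 0, nat_lit 0, nat_lit 0, nat_lit 0, nat_lit 0, nat_lit 0, nat_lit 5000000, false, false⟩,
 nat_lit 6792, nat_lit 0, nat_lit 0, nat_lit 0, nat_lit 5093, nat_lit 5093, nat_lit 179, nat_lit 0, nat_lit 0, nat_lit 114, nat_lit 0, nat_lit 0, nat_lit 0, nat_lit 0, nat_lit 0, nat_lit 524400, nat_lit 0, nat_lit 0, [(nat_lit 20, [(nat_lit 1, nat_lit 81), (nat_lit 2, nat_lit 492)]), (nat_lit 23, [(nat_lit 1, nat_lit 81), (nat_lit 2, nat_lit 492)])],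
 ⟨p102_k0, nat_lit 0, nat_lit 0, nat_lit 429, nat_lit 0, nat_lit 377809, [nat_lit 2116069001, nat_lit 2831727400, nat_lit 2426304400], [], [nat_lit 25094618625, nat_lit 27056896279, nat_lit 26302505315, nat_lit 28545890031, nat_lit 22834028722, nat_lit 24330948848, nat_lit 24763064613, nat_lit 25581364569], nat_lit 1271250, nat_lit 1271250, nat_lit 936251, nat_lit 1773750, nat_lit 0, nat_lit 1100001, [nat_lit 490000, nat_lit 1427500, nat_lit 1271250], [nat_lit 72, nat_lit 40, nat_lit 40, nat_lit 80, nat_lit 12, nat_lit 317, nat_lit 100, nat_lit 8]⟩, ⟨p102_k0, nat_lit 0, nat_lit 0, nat_lit 418, nat_lit 0, nat_lit 377809, [nat_lit 867664000, nat_lit 2668750000, nat_lit 5069344000], [], [nat_lit 15806322552, nat_lit 16891500618, nat_lit 16364085306, nat_lit 17241196468, nat_lit 12885618457, nat_lit 13521772493, nat_lit 13948824847, nat_lit 13192809345], nat_lit 1271250, nat_lit 1271250, nat_lit 936251, nat_lit 1773750,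 nat_lit 0, nat_lit 2118750, [nat_lit 490000, nat_lit 1427500, nat_lit 1271250], [nat_lit 72, nat_lit 40, nat_lit 40, nat_lit 80, nat_lit 12, nat_lit 373, nat_lit 150, nat_lit 9]⟩,
 ⟨nat_lit 3162, nat_lit 4473, ⟨.ofNat (nat_lit 526772), .ofNat (nat_lit 696911), .ofNat (nat_lit 548248), .ofNat (nat_lit 718387), .ofNat (nat_lit 540839), .ofNat (nat_lit 693416), .ofNat (nat_lit 562904), .ofNat (nat_lit 715481)⟩, ⟨.ofNat (nat_lit 0), .ofNat (nat_lit 302621), .ofNat (nat_lit 0), .ofNat (nat_lit 345754), .ofNat (nat_lit 0), .ofNat (nat_lit 306116), .ofNat (nat_lit 0), .ofNat (nat_lit 350426)⟩⟩, [⟨nat_lit 0, nat_lit 72, nat_lit 61, nat_lit 100, nat_lit 254483009⟩, ⟨nat_lit 19, nat_lit 81, nat_lit 100, nat_lit 92, nat_lit 12783093⟩]⟩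
noncomputable def p102_l9 : Lf2 := ⟨nat_lit 0, nat_lit 30, [nat_lit 15, nat_lit 5, nat_lit 5, nat_lit 20], false, nat_lit 160, nat_lit 300, nat_lit 0, nat_lit 300, ⟨nat_lit 75, nat_lit 925, nat_lit 0, nat_lit 8, nat_lit 233, nat_lit 925, nat_lit 177, nat_lit 0, nat_lit 0, nat_lit 0, nat_lit 0, nat_lit 0, nat_lit 0, nat_lit 0, nat_lit 0, nat_lit 5000000, false, false⟩,
 nat_lit 7039, nat_lit 0, nat_lit 0, nat_lit 3143, nat_lit 5279, nat_lit 1078, nat_lit 339, nat_lit 0, nat_lit 0, nat_lit 16, nat_lit 0, nat_lit 0, nat_lit 0, nat_lit 0, nat_lit 0, nat_lit 231250, nat_lit 0, nat_lit 0, [(nat_lit 20, [(nat_lit 0, nat_lit 925)])],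
 ⟨p102_k0, nat_lit 0, nat_lit 0, nat_lit 201, nat_lit 0, nat_lit 208307, [nat_lit 1571720001, nat_lit 2982900000, nat_lit 4196751000], [], [nat_lit 20270083149, nat_lit 21549931325, nat_lit 21018698355, nat_lit 22179981085, nat_lit 24192162099, nat_lit 25154925603, nat_lit 24499867482, nat_lit 25493004573], nat_lit 1271250, nat_lit 1271250, nat_lit 936251, nat_lit 1438750, nat_lit 1100001, nat_lit 2298750, [nat_lit 490000, nat_lit 1427500, nat_lit 1271250], [nat_lit 72, nat_lit 40, nat_lit 40, nat_lit 80, nat_lit 12, nat_lit 345, nat_lit 125, nat_lit 8]⟩, ⟨p102_k0, nat_lit 0, nat_lit 0, nat_lit 360, nat_lit 0, nat_lit 208307, [nat_lit 152400000, nat_lit 468750000, nat_lit 890400000], [], [nat_lit 2960993310, nat_lit 3015826626, nat_lit 2940615072, nat_lit 2989275643, nat_lit 2245956827, nat_lit 2277526688, nat_lit 2151265274, nat_lit 2179100076], nat_lit 1271250, nat_lit 1271250, nat_lit 936251, nat_lit 1438750,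 nat_lit 0, nat_lit 2118750, [nat_lit 490000, nat_lit 1427500, nat_lit 1271250], [nat_lit 72, nat_lit 40, nat_lit 40, nat_lit 80, nat_lit 12, nat_lit 345, nat_lit 125, nat_lit 9]⟩,
 ⟨nat_lit 3872, nat_lit 4473, ⟨.ofNat (nat_lit 527314), .ofNat (nat_lit 629293), .ofNat (nat_lit 532701), .ofNat (nat_lit 634680), .ofNat (nat_lit 533860), .ofNat (nat_lit 630654), .ofNat (nat_lit 539303), .ofNat (nat_lit 636097)⟩, ⟨.ofNat (nat_lit 302621), .ofNat (nat_lit 540545), .ofNat (nat_lit 345754), .ofNat (nat_lit 583678), .ofNat (nat_lit 304717), .ofNat (nat_lit 530543), .ofNat (nat_lit 348304), .ofNat (nat_lit 574129)⟩⟩, [⟨nat_lit 4, nat_lit 100, nat_lit 81, nat_lit 92, nat_lit 298024618⟩]⟩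
noncomputable def p102_l10 : Lf2 := ⟨nat_lit 0, nat_lit 30, [nat_lit 15, nat_lit 5, nat_lit 5, nat_lit 20], false, nat_lit 160, nat_lit 296, nat_lit 0, nat_lit 296, ⟨nat_lit 429, nat_lit 571, nat_lit 0, nat_lit 8, nat_lit 241, nat_lit 571, nat_lit 175, nat_lit 0, nat_lit 0, nat_lit 0, nat_lit 0, nat_lit 0, nat_lit 0, nat_lit 0, nat_lit 0, nat_lit 5000000, false, false⟩,
 nat_lit 8130, nat_lit 0, nat_lit 0, nat_lit 5904, nat_lit 6217, nat_lit 6217, nat_lit 507, nat_lit 0, nat_lit 0, nat_lit 110, nat_lit 0, nat_lit 0, nat_lit 0, nat_lit 4163181827637, nat_lit 0, nat_lit 142750, nat_lit 0, nat_lit 0, [(nat_lit 20, [(nat_lit 0, nat_lit 571)])],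
 ⟨p102_k4, nat_lit 0, nat_lit 0, nat_lit 183, nat_lit 0, nat_lit 177376, [nat_lit 1747870401, nat_lit 4233228000, nat_lit 7089313320], [], [nat_lit 20350006609, nat_lit 20691132171, nat_lit 20927947933, nat_lit 21243798630, nat_lit 24004231386, nat_lit 24311991234, nat_lit 24650454140, nat_lit 25048654723], nat_lit 1271250, nat_lit 1271250, nat_lit 1066650, nat_lit 1441750, nat_lit 1100001, nat_lit 2264500, [nat_lit 490000, nat_lit 1427500, nat_lit 1271250], [nat_lit 72, nat_lit 40, nat_lit 40, nat_lit 80, nat_lit 12, nat_lit 345, nat_lit 125, nat_lit 8]⟩, ⟨p102_k4, nat_lit 0, nat_lit 0, nat_lit 346, nat_lit 0, nat_lit 177376, [nat_lit 871728000, nat_lit 2681250000, nat_lit 5093088000], [], [nat_lit 16762909475, nat_lit 17069793477, nat_lit 16797452445, nat_lit 17077518556, nat_lit 12323927074, nat_lit 12502563806, nat_lit 12317240849, nat_lit 12621205677], nat_lit 1271250, nat_lit 1271250, nat_lit 1066650, nat_lit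 1441750, nat_lit 0, nat_lit 2090500, [nat_lit 490000, nat_lit 1427500, nat_lit 1271250], [nat_lit 72, nat_lit 40, nat_lit 40, nat_lit 80, nat_lit 12, nat_lit 345, nat_lit 125, nat_lit 9]⟩,
 ⟨nat_lit 4183, nat_lit 4331, ⟨.ofNat (nat_lit 561248), .ofNat (nat_lit 635078), .ofNat (nat_lit 566651), .ofNat (nat_lit 640481), .ofNat (nat_lit 562528), .ofNat (nat_lit 635410), .ofNat (nat_lit 567945), .ofNat (nat_lit 640826)⟩, ⟨.ofNat (nat_lit 303199), .ofNat (nat_lit 531399), .ofNat (nat_lit 346426), .ofNat (nat_lit 574626), .ofNat (nat_lit 303743), .ofNat (nat_lit 529012), .ofNat (nat_lit 347076), .ofNat (nat_lit 572345)⟩⟩, [⟨nat_lit 0, nat_lit 77, nat_lit 77, nat_lit 100, nat_lit 157316992⟩, ⟨nat_lit 4, nat_lit 100, nat_lit 82, nat_lit 92, nat_lit 367116840⟩]⟩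
noncomputable def p102_l11 : Lf2 := ⟨nat_lit 0, nat_lit 30, [nat_lit 15, nat_lit 5, nat_lit 5, nat_lit 20], false, nat_lit 160, nat_lit 288, nat_lit 0, nat_lit 296, ⟨nat_lit 621, nat_lit 379, nat_lit 0, nat_lit 8, nat_lit 242, nat_lit 379, nat_lit 172, nat_lit 0, nat_lit 0, nat_lit 0, nat_lit 0, nat_lit 0, nat_lit 0, nat_lit 0, nat_lit 0, nat_lit 5000000, true, false⟩,
 nat_lit 11744, nat_lit 0, nat_lit 0, nat_lit 0, nat_lit 9154, nat_lit 8980, nat_lit 379, nat_lit 0, nat_lit 0, nat_lit 149, nat_lit 0, nat_lit 0, nat_lit 0, nat_lit 0, nat_lit 0, nat_lit 94750, nat_lit 0, nat_lit 0, [(nat_lit 20, [(nat_lit 0, nat_lit 379)])],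
 ⟨p102_k5, nat_lit 0, nat_lit 0, nat_lit 199, nat_lit 0, nat_lit 220060, [nat_lit 1843409600, nat_lit 4911372000, nat_lit 8676120400], [], [nat_lit 22500197556, nat_lit 23355617232, nat_lit 22877062870, nat_lit 23668639860, nat_lit 25838362810, nat_lit 26485350615, nat_lit 26013383012, nat_lit 27054688759], nat_lit 1271250, nat_lit 1271250, nat_lit 1100001, nat_lit 1442500, nat_lit 1100001, nat_lit 2196000, [nat_lit 490000, nat_lit 1427500, nat_lit 1271250], [nat_lit 72, nat_lit 40, nat_lit 40, nat_lit 80, nat_lit 12, nat_lit 345, nat_lit 125, nat_lit 8]⟩, ⟨p102_k4, nat_lit 0, nat_lit 0, nat_lit 360, nat_lit 0, nat_lit 225549, [nat_lit 1261872000, nat_lit 3881250000, nat_lit 7372512000], [], [nat_lit 24336052039, nat_lit 24776385060, nat_lit 24456830562, nat_lit 24861580555, nat_lit 17909235771, nat_lit 18165503731, nat_lit 17820314682, nat_lit 18259590870], nat_lit 1271250, nat_lit 1271250, nat_lit 1100001, nat_lit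 1442500, nat_lit 0, nat_lit 2090500, [nat_lit 490000, nat_lit 1427500, nat_lit 1271250], [nat_lit 72, nat_lit 40, nat_lit 40, nat_lit 80, nat_lit 12, nat_lit 345, nat_lit 125, nat_lit 9]⟩,
 ⟨nat_lit 3872, nat_lit 4184, ⟨.ofNat (nat_lit 569127), .ofNat (nat_lit 635386), .ofNat (nat_lit 574543), .ofNat (nat_lit 640802), .ofNat (nat_lit 571652), .ofNat (nat_lit 636177), .ofNat (nat_lit 577099), .ofNat (nat_lit 641624)⟩, ⟨.ofNat (nat_lit 303743), .ofNat (nat_lit 515761), .ofNat (nat_lit 347076), .ofNat (nat_lit 559094), .ofNat (nat_lit 304717), .ofNat (nat_lit 511186), .ofNat (nat_lit 348304), .ofNat (nat_lit 554773)⟩⟩, [⟨nat_lit 0, nat_lit 78, nat_lit 74, nat_lit 100, nat_lit 510632121⟩, ⟨nat_lit 4, nat_lit 100, nat_lit 77, nat_lit 91, nat_lit 426864530⟩]⟩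
noncomputable def p102_l12 : Lf2 := ⟨nat_lit 0, nat_lit 30, [nat_lit 15, nat_lit 5, nat_lit 5, nat_lit 20], false, nat_lit 160, nat_lit 300, nat_lit 0, nat_lit 300, ⟨nat_lit 1000, nat_lit 0, nat_lit 0, nat_lit 0, nat_lit 0, nat_lit 0, nat_lit 0, nat_lit 0, nat_lit 0, nat_lit 0, nat_lit 0, nat_lit 0, nat_lit 0, nat_lit 0, nat_lit 0, nat_lit 0, false, false⟩,
 nat_lit 14309, nat_lit 0, nat_lit 0, nat_lit 0, nat_lit 10731, nat_lit 10731, nat_lit 433, nat_lit 0, nat_lit 0, nat_lit 468, nat_lit 0, nat_lit 0, nat_lit 0, nat_lit 0, nat_lit 0, nat_lit 0, nat_lit 0, nat_lit 0, [],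
 ⟨p102_k0, nat_lit 0, nat_lit 0, nat_lit 197, nat_lit 0, nat_lit 231260, [nat_lit 2032000001, nat_lit 6250000000, nat_lit 11872000000], [], [nat_lit 23991041345, nat_lit 25745883315, nat_lit 25031678253, nat_lit 26629552955, nat_lit 27644019348, nat_lit 28884818982, nat_lit 28075682375, nat_lit 30113970732], nat_lit 1271250, nat_lit 1271250, nat_lit 1271250, nat_lit 1271250, nat_lit 1100001, nat_lit 2298750, [nat_lit 490000, nat_lit 1427500, nat_lit 1271250], [nat_lit 72, nat_lit 40, nat_lit 40, nat_lit 80, nat_lit 12, nat_lit 373, nat_lit 150, nat_lit 9]⟩, ⟨p102_k0, nat_lit 0, nat_lit 0, nat_lit 353, nat_lit 0, nat_lit 231260, [nat_lit 2032000000, nat_lit 6250000000, nat_lit 11872000000], [], [nat_lit 33455380844, nat_lit 34505448528, nat_lit 34718303028, nat_lit 35673370684, nat_lit 27140128723, nat_lit 27760528540, nat_lit 28075682375, nat_lit 29094826554], nat_lit 1271250, nat_lit 1271250, nat_lit 1271250,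 nat_lit 1271250, nat_lit 0, nat_lit 2118750, [nat_lit 490000, nat_lit 1427500, nat_lit 1271250], [nat_lit 72, nat_lit 40, nat_lit 40, nat_lit 80, nat_lit 12, nat_lit 373, nat_lit 150, nat_lit 9]⟩,
 zbF0, [⟨nat_lit 4, nat_lit 100, nat_lit 81, nat_lit 92, nat_lit 445154910⟩, ⟨nat_lit 7, nat_lit 100, nat_lit 84, nat_lit 93, nat_lit 87286275⟩]⟩
noncomputable def p102_l13 : Lf2 := ⟨nat_lit 0, nat_lit 30, [nat_lit 15, nat_lit 5, nat_lit 5, nat_lit 20], false, nat_lit 160, nat_lit 276, nat_lit 0, nat_lit 300, ⟨nat_lit 852, nat_lit 148, nat_lit 0, nat_lit 8, nat_lit 257, nat_lit 148, nat_lit 167, nat_lit 0, nat_lit 0, nat_lit 0, nat_lit 0, nat_lit 0, nat_lit 0, nat_lit 0, nat_lit 0, nat_lit 5000000, true, false⟩,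
 nat_lit 11880, nat_lit 0, nat_lit 0, nat_lit 0, nat_lit 9617, nat_lit 8910, nat_lit 212, nat_lit 0, nat_lit 0, nat_lit 434, nat_lit 0, nat_lit 0, nat_lit 0, nat_lit 0, nat_lit 0, nat_lit 37000, nat_lit 0, nat_lit 0, [(nat_lit 23, [(nat_lit 0, nat_lit 148)])],
 ⟨p102_k6, nat_lit 0, nat_lit 0, nat_lit 205, nat_lit 0, nat_lit 303778, [nat_lit 1964512000, nat_lit 5669958400, nat_lit 8848979200], [], [nat_lit 23792848582, nat_lit 25755203486, nat_lit 25356169102, nat_lit 27036869372, nat_lit 27088910209, nat_lit 28593691939, nat_lit 27844331360, nat_lit 29876329479], nat_lit 1271250, nat_lit 1271250, nat_lit 1167600, nat_lit 1789500, nat_lit 1100001, nat_lit 2093250, [nat_lit 490000, nat_lit 1427500, nat_lit 1271250], [nat_lit 61, nat_lit 40, nat_lit 40, nat_lit 80, nat_lit 1, nat_lit 373, nat_lit 150, nat_lit 10]⟩, ⟨p102_k0, nat_lit 0, nat_lit 0, nat_lit 394, nat_lit 0, nat_lit 335001, [nat_lit 1731264000, nat_lit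 5325000000, nat_lit 10114944000], [], [nat_lit 27554668119, nat_lit 28492051739, nat_lit 28933945402, nat_lit 29733653350, nat_lit 22859588786, nat_lit 23415896112, nat_lit 24586084734, nat_lit 24655017110], nat_lit 1271250, nat_lit 1271250, nat_lit 1167600, nat_lit 1789500, nat_lit 0, nat_lit 2118750, [nat_lit 490000, nat_lit 1427500, nat_lit 1271250], [nat_lit 72, nat_lit 40, nat_lit 40, nat_lit 80, nat_lit 12, nat_lit 373, nat_lit 150, nat_lit 9]⟩,
 ⟨nat_lit 3162, nat_lit 3873, ⟨.ofNat (nat_lit 578944), .ofNat (nat_lit 695141), .ofNat (nat_lit 589826), .ofNat (nat_lit 706023), .ofNat (nat_lit 583969), .ofNat (nat_lit 693742), .ofNat (nat_lit 595032), .ofNat (nat_lit 704805)⟩, ⟨.ofNat (nat_lit 304717), .ofNat (nat_lit 491830), .ofNat (nat_lit 348304), .ofNat (nat_lit 535416), .ofNat (nat_lit 306116), .ofNat (nat_lit 482881), .ofNat (nat_lit 350426), .ofNat (nat_lit 527190)⟩⟩, [⟨nat_lit 0, nat_lit 78, nat_lit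 66, nat_lit 100, nat_lit 416366877⟩, ⟨nat_lit 4, nat_lit 100, nat_lit 67, nat_lit 88, nat_lit 541096340⟩, ⟨nat_lit 7, nat_lit 100, nat_lit 84, nat_lit 93, nat_lit 88534699⟩]⟩
noncomputable def p102_l14 : Lf2 := ⟨nat_lit 0, nat_lit 30, [nat_lit 15, nat_lit 5, nat_lit 5, nat_lit 20], false, nat_lit 160, nat_lit 288, nat_lit 0, nat_lit 288, ⟨nat_lit 1000, nat_lit 0, nat_lit 0, nat_lit 0, nat_lit 0, nat_lit 0, nat_lit 0, nat_lit 0, nat_lit 0, nat_lit 0, nat_lit 0, nat_lit 0, nat_lit 0, nat_lit 0, nat_lit 0, nat_lit 0, false, false⟩,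
 nat_lit 12395, nat_lit 0, nat_lit 0, nat_lit 0, nat_lit 9662, nat_lit 9662, nat_lit 555, nat_lit 0, nat_lit 0, nat_lit 540, nat_lit 0, nat_lit 0, nat_lit 0, nat_lit 735358788426, nat_lit 0, nat_lit 0, nat_lit 0, nat_lit 0, [],
 ⟨p102_k5, nat_lit 0, nat_lit 0, nat_lit 254, nat_lit 0, nat_lit 359511, [nat_lit 2032000001, nat_lit 6250000000, nat_lit 11872000000], [], [nat_lit 22764952697, nat_lit 25383130266, nat_lit 24004130758, nat_lit 26246939464, nat_lit 26031826976, nat_lit 29211008828, nat_lit 27665225110, nat_lit 30617791220], nat_lit 1271250, nat_lit 1271250, nat_lit 1167600, nat_lit 1789500, nat_lit 1100001, nat_lit 2196000, [nat_lit 490000, nat_lit 1427500, nat_lit 1271250], [nat_lit 72, nat_lit 40, nat_lit 40, nat_lit 80, nat_lit 12, nat_lit 373, nat_lit 150, nat_lit 9]⟩, ⟨p102_k5, nat_lit 0, nat_lit 0, nat_lit 404, nat_lit 0, nat_lit 359511, [nat_lit 2032000000, nat_lit 6250000000, nat_lit 11872000000],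 [], [nat_lit 31804642175, nat_lit 32846211175, nat_lit 33287486168, nat_lit 34178225680, nat_lit 26265826976, nat_lit 26911950329, nat_lit 27665225110, nat_lit 28649413813], nat_lit 1271250, nat_lit 1271250, nat_lit 1167600, nat_lit 1789500, nat_lit 0, nat_lit 2034000, [nat_lit 490000, nat_lit 1427500, nat_lit 1271250], [nat_lit 72, nat_lit 40, nat_lit 40, nat_lit 80, nat_lit 12, nat_lit 373, nat_lit 150, nat_lit 9]⟩,
 zbF0, [⟨nat_lit 0, nat_lit 74, nat_lit 69, nat_lit 100, nat_lit 438641042⟩, ⟨nat_lit 16, nat_lit 83, nat_lit 98, nat_lit 100, nat_lit 303694812⟩, ⟨nat_lit 4, nat_lit 100, nat_lit 71, nat_lit 89, nat_lit 145981537⟩, ⟨nat_lit 7, nat_lit 100, nat_lit 77, nat_lit 91, nat_lit 106566301⟩]⟩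
noncomputable def p102_l15 : Lf2 := ⟨nat_lit 0, nat_lit 30, [nat_lit 15, nat_lit 5, nat_lit 5, nat_lit 20], false, nat_lit 0, nat_lit 160, nat_lit 0, nat_lit 300, ⟨nat_lit 1000, nat_lit 0, nat_lit 0, nat_lit 0, nat_lit 0, nat_lit 0, nat_lit 0, nat_lit 0, nat_lit 0, nat_lit 0, nat_lit 0, nat_lit 0, nat_lit 0, nat_lit 0, nat_lit 0, nat_lit 0, false, false⟩,
 nat_lit 8630, nat_lit 0, nat_lit 0, nat_lit 0, nat_lit 6406, nat_lit 6472, nat_lit 518, nat_lit 0, nat_lit 0, nat_lit 551, nat_lit 0, nat_lit 0, nat_lit 0, nat_lit 0, nat_lit 0, nat_lit 0, nat_lit 0, nat_lit 0, [],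
 ⟨p102_k2, nat_lit 0, nat_lit 0, nat_lit 394, nat_lit 0, nat_lit 377809, [nat_lit 2032000001, nat_lit 4688000000, nat_lit 11872000000], [], [nat_lit 32139130114, nat_lit 34761002002, nat_lit 40296075522, nat_lit 42012829258, nat_lit 28393659010, nat_lit 30075404450, nat_lit 34117742698, nat_lit 35607007354], nat_lit 1271250, nat_lit 1271250, nat_lit 1271250, nat_lit 1271250, nat_lit 0, nat_lit 1100001, [nat_lit 490000, nat_lit 1100000, nat_lit 2470000], [nat_lit 75, nat_lit 40, nat_lit 40, nat_lit 80, nat_lit 65, nat_lit 373, nat_lit 150, nat_lit 9]⟩, ⟨p102_k2, nat_lit 0, nat_lit 0, nat_lit 394, nat_lit 0, nat_lit 377809, [nat_lit 2032000000, nat_lit 4688000000, nat_lit 11872000000], [], [nat_lit 31588655893, nat_lit 32978727205, nat_lit 39934781589, nat_lit 40796608805, nat_lit 29863665205, nat_lit 30493138493, nat_lit 34802937437, nat_lit 35690325456], nat_lit 1271250, nat_lit 1271250, nat_lit 1271250, nat_lit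 1271250, nat_lit 0, nat_lit 2118750, [nat_lit 490000, nat_lit 1100000, nat_lit 2470000], [nat_lit 75, nat_lit 40, nat_lit 40, nat_lit 80, nat_lit 65, nat_lit 401, nat_lit 175, nat_lit 10]⟩,
 zbF0, [⟨nat_lit 19, nat_lit 81, nat_lit 100, nat_lit 92, nat_lit 130964531⟩]⟩
noncomputable def p102_l16 : Lf2 := ⟨nat_lit 0, nat_lit 30, [nat_lit 15, nat_lit 5, nat_lit 5, nat_lit 20], false, nat_lit 160, nat_lit 300, nat_lit 0, nat_lit 300, ⟨nat_lit 1000, nat_lit 0, nat_lit 0, nat_lit 0, nat_lit 0, nat_lit 0, nat_lit 0, nat_lit 0, nat_lit 0, nat_lit 0, nat_lit 0, nat_lit 0, nat_lit 0, nat_lit 0, nat_lit 0, nat_lit 0, false, false⟩,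
 nat_lit 11334, nat_lit 0, nat_lit 0, nat_lit 0, nat_lit 8500, nat_lit 8500, nat_lit 384, nat_lit 0, nat_lit 0, nat_lit 274, nat_lit 0, nat_lit 0, nat_lit 0, nat_lit 2380567041180, nat_lit 0, nat_lit 0, nat_lit 0, nat_lit 0, [],
 ⟨p102_k0, nat_lit 0, nat_lit 0, nat_lit 236, nat_lit 0, nat_lit 278421, [nat_lit 2032000001, nat_lit 6250000000, nat_lit 11872000000], [], [nat_lit 27091592000, nat_lit 28475197000, nat_lit 35193258000, nat_lit 36026478000, nat_lit 30159978500, nat_lit 31156983750, nat_lit 37151604000, nat_lit 38182251750], nat_lit 1271250, nat_lit 1271250, nat_lit 1271250, nat_lit 1271250, nat_lit 1100001, nat_lit 2298750, [nat_lit 490000, nat_lit 1427500, nat_lit 1271250], [nat_lit 72, nat_lit 40, nat_lit 40, nat_lit 80, nat_lit 12, nat_lit 401, nat_lit 175, nat_lit 9]⟩, ⟨p102_k0, nat_lit 0, nat_lit 0, nat_lit 372, nat_lit 0, nat_lit 278421, [nat_lit 2032000000, nat_lit 6250000000, nat_lit 11872000000],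 [], [nat_lit 36185440250, nat_lit 37827070250, nat_lit 45746976250, nat_lit 46714823250, nat_lit 31743634750, nat_lit 32740640000, nat_lit 37384394250, nat_lit 38182251750], nat_lit 1271250, nat_lit 1271250, nat_lit 1271250, nat_lit 1271250, nat_lit 0, nat_lit 2118750, [nat_lit 490000, nat_lit 1427500, nat_lit 1271250], [nat_lit 72, nat_lit 40, nat_lit 40, nat_lit 80, nat_lit 12, nat_lit 401, nat_lit 175, nat_lit 10]⟩,
 zbF0, [⟨nat_lit 16, nat_lit 81, nat_lit 100, nat_lit 92, nat_lit 415148631⟩, ⟨nat_lit 7, nat_lit 100, nat_lit 81, nat_lit 92, nat_lit 51707686⟩]⟩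
noncomputable def p102_l17 : Lf2 := ⟨nat_lit 0, nat_lit 30, [nat_lit 15, nat_lit 5, nat_lit 5, nat_lit 20], false, nat_lit 160, nat_lit 276, nat_lit 0, nat_lit 300, ⟨nat_lit 1000, nat_lit 0, nat_lit 0, nat_lit 0, nat_lit 0, nat_lit 0, nat_lit 0, nat_lit 0, nat_lit 0, nat_lit 0, nat_lit 0, nat_lit 0, nat_lit 0, nat_lit 0, nat_lit 0, nat_lit 0, false, false⟩,
 nat_lit 10285, nat_lit 0, nat_lit 0, nat_lit 0, nat_lit 6716, nat_lit 7713, nat_lit 362, nat_lit 0, nat_lit 0, nat_lit 428, nat_lit 0, nat_lit 0, nat_lit 0, nat_lit 0, nat_lit 0, nat_lit 0, nat_lit 0, nat_lit 0, [],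
 ⟨p102_k6, nat_lit 0, nat_lit 0, nat_lit 237, nat_lit 0, nat_lit 342596, [nat_lit 2032000001, nat_lit 6250000000, nat_lit 9842000000], [], [nat_lit 27182141922, nat_lit 28239986778, nat_lit 34014576522, nat_lit 34861725760, nat_lit 29041510447, nat_lit 29951752338, nat_lit 35292514592, nat_lit 36280672381], nat_lit 1271250, nat_lit 1271250, nat_lit 1271250, nat_lit 1271250, nat_lit 1100001, nat_lit 2093250, [nat_lit 490000, nat_lit 1427500, nat_lit 1271250], [nat_lit 61, nat_lit 40, nat_lit 40, nat_lit 80, nat_lit 1, nat_lit 401, nat_lit 175, nat_lit 10]⟩, ⟨p102_k0, nat_lit 0, nat_lit 0, nat_lit 402, nat_lit 0, nat_lit 377809, [nat_lit 2032000000, nat_lit 6250000000, nat_lit 11872000000], [], [nat_lit 34184835840, nat_lit 35129900412, nat_lit 42853020028, nat_lit 44412227112, nat_lit 30402681846, nat_lit 30971242360, nat_lit 36230642434, nat_lit 37215217237], nat_lit 1271250, nat_lit 1271250, nat_lit 1271250, nat_lit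 1271250, nat_lit 0, nat_lit 2118750, [nat_lit 490000, nat_lit 1427500, nat_lit 1271250], [nat_lit 72, nat_lit 40, nat_lit 40, nat_lit 80, nat_lit 12, nat_lit 401, nat_lit 175, nat_lit 10]⟩,
 zbF0, [⟨nat_lit 4, nat_lit 100, nat_lit 67, nat_lit 88, nat_lit 466298194⟩, ⟨nat_lit 7, nat_lit 100, nat_lit 81, nat_lit 92, nat_lit 81404231⟩]⟩
noncomputable def b_V_800_800_20_25 : St := ⟨true, nat_lit 1, nat_lit 2, nat_lit 2, nat_lit 120, nat_lit 320, nat_lit 360, nat_lit 320, nat_lit 340, nat_lit 140, nat_lit 400, nat_lit 80, nat_lit 120, nat_lit 0, nat_lit 300, nat_lit 0, nat_lit 300, nat_lit 80, nat_lit 120, nat_lit 0, nat_lit 0, nat_lit 0, nat_lit 0⟩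
theorem d_V_800_800_20_25 (h : EB TB.env) : Dead b_V_800_800_20_25 := chkB_sound0 h (T :=
(.st (nat_lit 1)
(.spl (nat_lit 4) (nat_lit 160)
(.spl (nat_lit 0) (nat_lit 340)
(.spl (nat_lit 5) (nat_lit 160)
(.leaf p102_l0)
(.leaf p102_l1))
(.trZ (nat_lit 0) (nat_lit 81) (nat_lit 72) (nat_lit 100) (nat_lit 168) (.spl (nat_lit 0) (nat_lit 350)
(.leaf p102_l2)
(.trZ (nat_lit 0) (nat_lit 80) (nat_lit 66) (nat_lit 100) (nat_lit 184) (.trZ (nat_lit 3) (nat_lit 100) (nat_lit 83) (nat_lit 25) (nat_lit 4) (.leaf p102_l3))))))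
(.spl (nat_lit 2) (nat_lit 240)
(.spl (nat_lit 5) (nat_lit 160)
(.leaf p102_l4)
(.leaf p102_l5))
(.spl (nat_lit 5) (nat_lit 160)
(.leaf p102_l6)
(.leaf p102_l7))))
(.spl (nat_lit 2) (nat_lit 240)
(.spl (nat_lit 4) (nat_lit 160)
(.leaf p102_l8)
(.spl (nat_lit 1) (nat_lit 330)
(.spl (nat_lit 0) (nat_lit 340)
(.spl (nat_lit 2) (nat_lit 200)
(.spl (nat_lit 1) (nat_lit 325)
(.leaf p102_l9)
(.ord (.trZ (nat_lit 0) (nat_lit 80) (nat_lit 80) (nat_lit 100) (nat_lit 156) (.trX (nat_lit 16) (nat_lit 85) (nat_lit 97) (nat_lit 100) (nat_lit 296) (.trX (nat_lit 19) (nat_lit 85) (nat_lit 97) (nat_lit 100) (nat_lit 296) (.spl (nat_lit 0) (nat_lit 330)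
(.leaf p102_l10)
(.trZ (nat_lit 0) (nat_lit 79) (nat_lit 77) (nat_lit 100) (nat_lit 160) (.trX (nat_lit 16) (nat_lit 83) (nat_lit 98) (nat_lit 100) (nat_lit 288) (.leaf p102_l11)))))))))
(.leaf p102_l12))
(.trZ (nat_lit 0) (nat_lit 81) (nat_lit 72) (nat_lit 100) (nat_lit 168) (.trX (nat_lit 16) (nat_lit 77) (nat_lit 100) (nat_lit 99) (nat_lit 276) (.leaf p102_l13))))
(.ord (.trZ (nat_lit 0) (nat_lit 77) (nat_lit 77) (nat_lit 100) (nat_lit 168) (.trX (nat_lit 16) (nat_lit 83) (nat_lit 98) (nat_lit 100) (nat_lit 288) (.trX (nat_lit 19) (nat_lit 83) (nat_lit 98) (nat_lit 100) (nat_lit 288) (.leaf p102_l14)))))))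
(.spl (nat_lit 4) (nat_lit 160)
(.leaf p102_l15)
(.spl (nat_lit 0) (nat_lit 340)
(.leaf p102_l16)
(.trX (nat_lit 16) (nat_lit 77) (nat_lit 100) (nat_lit 99) (nat_lit 276) (.leaf p102_l17))))))) (by decide +kernel)
noncomputable def p102_l18 : Lf2 := ⟨nat_lit 0, nat_lit 30, [nat_lit 15, nat_lit 5, nat_lit 5, nat_lit 20], false, nat_lit 0, nat_lit 300, nat_lit 0, nat_lit 160, ⟨nat_lit 1000, nat_lit 0, nat_lit 0, nat_lit 0, nat_lit 0, nat_lit 0, nat_lit 0, nat_lit 0, nat_lit 0, nat_lit 0, nat_lit 0, nat_lit 0, nat_lit 0, nat_lit 0, nat_lit 0, nat_lit 0, false, false⟩,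
 nat_lit 0, nat_lit 0, nat_lit 0, nat_lit 14086, nat_lit 12491, nat_lit 6210, nat_lit 180, nat_lit 0, nat_lit 0, nat_lit 981, nat_lit 0, nat_lit 0, nat_lit 0, nat_lit 0, nat_lit 0, nat_lit 0, nat_lit 0, nat_lit 0, [],
 ⟨p102_k2, nat_lit 0, nat_lit 0, nat_lit 225, nat_lit 0, nat_lit 0, [nat_lit 2032000001, nat_lit 4688000000, nat_lit 11872000000], [], [nat_lit 38851263420, nat_lit 44110588548, nat_lit 40102924908, nat_lit 44346834572, nat_lit 31390501582, nat_lit 34459505614, nat_lit 30794410197, nat_lit 33509303568], nat_lit 0, nat_lit 0, nat_lit 0, nat_lit 0, nat_lit 0, nat_lit 0, [], [nat_lit 75, nat_lit 40, nat_lit 40, nat_lit 80, nat_lit 65, nat_lit 373, nat_lit 150, nat_lit 9]⟩, ⟨p102_k2, nat_lit 0, nat_lit 0, nat_lit 216, nat_lit 0, nat_lit 0, [nat_lit 2032000000, nat_lit 4688000000, nat_lit 11872000000], [], [nat_lit 23834510575, nat_lit 25480543415, nat_lit 25694373855, nat_lit 27065892740, nat_lit 19284463635,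 nat_lit 20681751875, nat_lit 20935387855, nat_lit 22354030400], nat_lit 0, nat_lit 0, nat_lit 0, nat_lit 0, nat_lit 0, nat_lit 0, [], [nat_lit 75, nat_lit 40, nat_lit 40, nat_lit 80, nat_lit 65, nat_lit 317, nat_lit 100, nat_lit 8]⟩,
 zbF0, [⟨nat_lit 0, nat_lit 76, nat_lit 72, nat_lit 100, nat_lit 770585859⟩]⟩
noncomputable def p102_l19 : Lf2 := ⟨nat_lit 0, nat_lit 30, [nat_lit 15, nat_lit 5, nat_lit 5, nat_lit 20], false, nat_lit 0, nat_lit 300, nat_lit 0, nat_lit 160, ⟨nat_lit 1000, nat_lit 0, nat_lit 0, nat_lit 0, nat_lit 0, nat_lit 0, nat_lit 0, nat_lit 0, nat_lit 0, nat_lit 0, nat_lit 0, nat_lit 0, nat_lit 0, nat_lit 0, nat_lit 0, nat_lit 0, false, false⟩,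
 nat_lit 0, nat_lit 0, nat_lit 0, nat_lit 8436, nat_lit 9519, nat_lit 6269, nat_lit 0, nat_lit 0, nat_lit 0, nat_lit 556, nat_lit 0, nat_lit 0, nat_lit 0, nat_lit 0, nat_lit 0, nat_lit 0, nat_lit 0, nat_lit 0, [],
 ⟨p102_k2, nat_lit 0, nat_lit 0, nat_lit 237, nat_lit 0, nat_lit 0, [nat_lit 2032000001, nat_lit 4688000000, nat_lit 11872000000], [], [nat_lit 40735763472, nat_lit 44264300848, nat_lit 50904240328, nat_lit 52946476892, nat_lit 35051367973, nat_lit 37162737722, nat_lit 40918324074, nat_lit 42108999958], nat_lit 0, nat_lit 0, nat_lit 0, nat_lit 0, nat_lit 0, nat_lit 0, [], [nat_lit 75, nat_lit 40, nat_lit 40, nat_lit 80, nat_lit 65, nat_lit 401, nat_lit 175, nat_lit 10]⟩, ⟨p102_k2, nat_lit 0, nat_lit 0, nat_lit 234, nat_lit 0, nat_lit 0, [nat_lit 2032000000, nat_lit 4688000000, nat_lit 11872000000], [], [nat_lit 31393889972, nat_lit 32767014660, nat_lit 39626588828, nat_lit 40477803610, nat_lit 27174335836,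 nat_lit 28163690464, nat_lit 33630904952, nat_lit 34370031524], nat_lit 0, nat_lit 0, nat_lit 0, nat_lit 0, nat_lit 0, nat_lit 0, [], [nat_lit 75, nat_lit 40, nat_lit 40, nat_lit 80, nat_lit 65, nat_lit 373, nat_lit 150, nat_lit 9]⟩,
 zbF0, []⟩
noncomputable def p102_l20 : Lf2 := ⟨nat_lit 0, nat_lit 30, [nat_lit 15, nat_lit 5, nat_lit 5, nat_lit 20], false, nat_lit 0, nat_lit 300, nat_lit 160, nat_lit 300, ⟨nat_lit 1000, nat_lit 0, nat_lit 0, nat_lit 0, nat_lit 0, nat_lit 0, nat_lit 0, nat_lit 0, nat_lit 0, nat_lit 0, nat_lit 0, nat_lit 0, nat_lit 0, nat_lit 0, nat_lit 0, nat_lit 0, false, false⟩,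
 nat_lit 0, nat_lit 0, nat_lit 0, nat_lit 14611, nat_lit 7528, nat_lit 8007, nat_lit 344, nat_lit 0, nat_lit 0, nat_lit 0, nat_lit 0, nat_lit 0, nat_lit 0, nat_lit 0, nat_lit 0, nat_lit 0, nat_lit 0, nat_lit 0, [],
 ⟨p102_k0, nat_lit 0, nat_lit 0, nat_lit 247, nat_lit 0, nat_lit 0, [nat_lit 2032000001, nat_lit 6250000000, nat_lit 11872000000], [], [nat_lit 33555937416, nat_lit 36572646184, nat_lit 43582600536, nat_lit 45416666104, nat_lit 31370833972, nat_lit 33155798836, nat_lit 36768478688, nat_lit 37961640984], nat_lit 0, nat_lit 0, nat_lit 0, nat_lit 0, nat_lit 0, nat_lit 0, [], [nat_lit 72, nat_lit 40, nat_lit 40, nat_lit 80, nat_lit 12, nat_lit 401, nat_lit 175, nat_lit 10]⟩, ⟨p102_k0, nat_lit 0, nat_lit 0, nat_lit 95, nat_lit 0, nat_lit 0, [nat_lit 2032000000, nat_lit 6250000000, nat_lit 11872000000], [], [nat_lit 18538495056, nat_lit 20749786790, nat_lit 33967969208, nat_lit 35356218864, nat_lit 25142414224,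 nat_lit 26739788405, nat_lit 36574686526, nat_lit 37576472824], nat_lit 0, nat_lit 0, nat_lit 0, nat_lit 0, nat_lit 0, nat_lit 0, [], [nat_lit 72, nat_lit 40, nat_lit 40, nat_lit 80, nat_lit 12, nat_lit 401, nat_lit 175, nat_lit 10]⟩,
 zbF0, [⟨nat_lit 0, nat_lit 72, nat_lit 61, nat_lit 100, nat_lit 253356650⟩, ⟨nat_lit 16, nat_lit 74, nat_lit 100, nat_lit 90, nat_lit 84782938⟩, ⟨nat_lit 19, nat_lit 87, nat_lit 95, nat_lit 100, nat_lit 349155187⟩]⟩
noncomputable def p102_l21 : Lf2 := ⟨nat_lit 0, nat_lit 30, [nat_lit 15, nat_lit 5, nat_lit 5, nat_lit 20], false, nat_lit 0, nat_lit 160, nat_lit 0, nat_lit 160, ⟨nat_lit 1000, nat_lit 0, nat_lit 0, nat_lit 0, nat_lit 0, nat_lit 0, nat_lit 0, nat_lit 0, nat_lit 0, nat_lit 0, nat_lit 0, nat_lit 0, nat_lit 0, nat_lit 0, nat_lit 0, nat_lit 0, false, false⟩,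
 nat_lit 0, nat_lit 0, nat_lit 8338, nat_lit 2956, nat_lit 7751, nat_lit 6253, nat_lit 362, nat_lit 0, nat_lit 0, nat_lit 616, nat_lit 0, nat_lit 0, nat_lit 0, nat_lit 0, nat_lit 0, nat_lit 0, nat_lit 0, nat_lit 0, [],
 ⟨p102_k0, nat_lit 0, nat_lit 0, nat_lit 244, nat_lit 0, nat_lit 0, [nat_lit 2032000001, nat_lit 6250000000, nat_lit 11872000000], [], [nat_lit 33174170872, nat_lit 34651197688, nat_lit 43588807162, nat_lit 44523036024, nat_lit 27702611732, nat_lit 28939813526, nat_lit 35617314958, nat_lit 36416000146], nat_lit 0, nat_lit 0, nat_lit 0, nat_lit 0, nat_lit 0, nat_lit 0, [], [nat_lit 72, nat_lit 40, nat_lit 40, nat_lit 80, nat_lit 12, nat_lit 373, nat_lit 150, nat_lit 9]⟩, ⟨p102_k0, nat_lit 0, nat_lit 0, nat_lit 359, nat_lit 0, nat_lit 194491, [nat_lit 2032000000, nat_lit 6250000000, nat_lit 11872000000], [], [nat_lit 34504384806, nat_lit 32249184535, nat_lit 39053952492, nat_lit 40154832072, nat_lit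 26723264448, nat_lit 27561955687, nat_lit 40515823176, nat_lit 37790503150], nat_lit 1271250, nat_lit 1271250, nat_lit 936251, nat_lit 3113750, nat_lit 0, nat_lit 1100001, [nat_lit 490000, nat_lit 1427500, nat_lit 1271250], [nat_lit 72, nat_lit 40, nat_lit 40, nat_lit 80, nat_lit 12, nat_lit 373, nat_lit 150, nat_lit 9]⟩,
 zbF0, [⟨nat_lit 0, nat_lit 71, nat_lit 71, nat_lit 100, nat_lit 73340202⟩, ⟨nat_lit 3, nat_lit 100, nat_lit 88, nat_lit 21, nat_lit 36374341⟩]⟩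
noncomputable def p102_l22 : Lf2 := ⟨nat_lit 0, nat_lit 30, [nat_lit 15, nat_lit 5, nat_lit 5, nat_lit 20], false, nat_lit 0, nat_lit 160, nat_lit 0, nat_lit 160, ⟨nat_lit 1000, nat_lit 0, nat_lit 0, nat_lit 0, nat_lit 0, nat_lit 0, nat_lit 0, nat_lit 0, nat_lit 0, nat_lit 0, nat_lit 0, nat_lit 0, nat_lit 0, nat_lit 0, nat_lit 0, nat_lit 0, false, false⟩,
 nat_lit 0, nat_lit 0, nat_lit 7499, nat_lit 0, nat_lit 6229, nat_lit 5623, nat_lit 322, nat_lit 0, nat_lit 0, nat_lit 739, nat_lit 0, nat_lit 0, nat_lit 0, nat_lit 0, nat_lit 0, nat_lit 0, nat_lit 0, nat_lit 0, [],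
 ⟨p102_k1, nat_lit 0, nat_lit 0, nat_lit 215, nat_lit 0, nat_lit 0, [nat_lit 2032000001, nat_lit 4688000000, nat_lit 9842000000], [], [nat_lit 30159548307, nat_lit 31928479779, nat_lit 40666669620, nat_lit 41615182390, nat_lit 25989560789, nat_lit 27243083112, nat_lit 34782924418, nat_lit 35604180090], nat_lit 0, nat_lit 0, nat_lit 0, nat_lit 0, nat_lit 0, nat_lit 0, [], [nat_lit 27, nat_lit 40, nat_lit 40, nat_lit 80, nat_lit 13, nat_lit 373, nat_lit 150, nat_lit 10]⟩, ⟨p102_k2, nat_lit 0, nat_lit 0, nat_lit 395, nat_lit 0, nat_lit 366536, [nat_lit 2032000000, nat_lit 4688000000, nat_lit 11872000000], [], [nat_lit 30363712065, nat_lit 31134653748, nat_lit 37005709988, nat_lit 38317736952, nat_lit 29199628557, nat_lit 27636072489, nat_lit 32903491664, nat_lit 33634364622], nat_lit 1271250, nat_lit 1271250, nat_lit 1271250, nat_lit 1271250, nat_lit 0, nat_lit 1100001, [nat_lit 490000, nat_lit 1100000, nat_lit 2470000],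 [nat_lit 75, nat_lit 40, nat_lit 40, nat_lit 80, nat_lit 65, nat_lit 373, nat_lit 150, nat_lit 9]⟩,
 zbF0, [⟨nat_lit 0, nat_lit 76, nat_lit 66, nat_lit 100, nat_lit 140420296⟩]⟩
noncomputable def p102_l23 : Lf2 := ⟨nat_lit 0, nat_lit 30, [nat_lit 15, nat_lit 5, nat_lit 5, nat_lit 20], false, nat_lit 0, nat_lit 160, nat_lit 160, nat_lit 300, ⟨nat_lit 1000, nat_lit 0, nat_lit 0, nat_lit 0, nat_lit 0, nat_lit 0, nat_lit 0, nat_lit 0, nat_lit 0, nat_lit 0, nat_lit 0, nat_lit 0, nat_lit 0, nat_lit 0, nat_lit 0, nat_lit 0, false, false⟩,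
 nat_lit 0, nat_lit 0, nat_lit 18529, nat_lit 5459, nat_lit 6583, nat_lit 13896, nat_lit 558, nat_lit 0, nat_lit 0, nat_lit 0, nat_lit 0, nat_lit 0, nat_lit 0, nat_lit 0, nat_lit 0, nat_lit 0, nat_lit 0, nat_lit 0, [],
 ⟨p102_k2, nat_lit 0, nat_lit 0, nat_lit 233, nat_lit 0, nat_lit 0, [nat_lit 2032000001, nat_lit 4688000000, nat_lit 11872000000], [], [nat_lit 29730095210, nat_lit 30582318276, nat_lit 39973564946, nat_lit 40407379983, nat_lit 25288213422, nat_lit 25896291385, nat_lit 33559255014, nat_lit 33935127816], nat_lit 0, nat_lit 0, nat_lit 0, nat_lit 0, nat_lit 0, nat_lit 0, [], [nat_lit 75, nat_lit 40, nat_lit 40, nat_lit 80, nat_lit 65, nat_lit 373, nat_lit 150, nat_lit 9]⟩, ⟨p102_k2, nat_lit 0, nat_lit 0, nat_lit 163, nat_lit 0, nat_lit 41014, [nat_lit 2032000000, nat_lit 4688000000, nat_lit 11872000000], [], [nat_lit 28507945776, nat_lit 29691361288, nat_lit 41392490624, nat_lit 42377555608, nat_lit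 33213228164, nat_lit 34036170562, nat_lit 43466100328, nat_lit 44139371868], nat_lit 1271250, nat_lit 1271250, nat_lit 1271250, nat_lit 1271250, nat_lit 1271250, nat_lit 1271250, [nat_lit 490000, nat_lit 1100000, nat_lit 2470000], [nat_lit 75, nat_lit 40, nat_lit 40, nat_lit 80, nat_lit 65, nat_lit 401, nat_lit 175, nat_lit 10]⟩,
 zbF0, [⟨nat_lit 7, nat_lit 100, nat_lit 84, nat_lit 93, nat_lit 479772944⟩]⟩
noncomputable def p102_l24 : Lf2 := ⟨nat_lit 0, nat_lit 30, [nat_lit 15, nat_lit 5, nat_lit 5, nat_lit 20], false, nat_lit 0, nat_lit 160, nat_lit 160, nat_lit 300, ⟨nat_lit 1000, nat_lit 0, nat_lit 0, nat_lit 0, nat_lit 0, nat_lit 0, nat_lit 0, nat_lit 0, nat_lit 0, nat_lit 0, nat_lit 0, nat_lit 0, nat_lit 0, nat_lit 0, nat_lit 0, nat_lit 0, false, false⟩,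
 nat_lit 0, nat_lit 0, nat_lit 9180, nat_lit 3954, nat_lit 6137, nat_lit 6884, nat_lit 650, nat_lit 0, nat_lit 0, nat_lit 592, nat_lit 0, nat_lit 0, nat_lit 0, nat_lit 0, nat_lit 0, nat_lit 0, nat_lit 0, nat_lit 0, [],
 ⟨p102_k7, nat_lit 0, nat_lit 0, nat_lit 234, nat_lit 0, nat_lit 0, [nat_lit 2032000001, nat_lit 4688000000, nat_lit 11872000000], [], [nat_lit 28472058217, nat_lit 29269726578, nat_lit 39130164930, nat_lit 39816573288, nat_lit 24010625933, nat_lit 24582531160, nat_lit 32215449124, nat_lit 32813856624], nat_lit 0, nat_lit 0, nat_lit 0, nat_lit 0, nat_lit 0, nat_lit 0, [], [nat_lit 75, nat_lit 40, nat_lit 40, nat_lit 80, nat_lit 65, nat_lit 373, nat_lit 150, nat_lit 9]⟩, ⟨p102_k2, nat_lit 0, nat_lit 0, nat_lit 204, nat_lit 0, nat_lit 190906, [nat_lit 2032000000, nat_lit 4688000000, nat_lit 11872000000], [], [nat_lit 24369132580, nat_lit 25584578989, nat_lit 33062967872, nat_lit 33829441968, nat_lit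 28080666014, nat_lit 29144247627, nat_lit 35260531712, nat_lit 36196574782], nat_lit 1271250, nat_lit 1271250, nat_lit 1271250, nat_lit 1271250, nat_lit 1100001, nat_lit 2298750, [nat_lit 490000, nat_lit 1100000, nat_lit 2470000], [nat_lit 75, nat_lit 40, nat_lit 40, nat_lit 80, nat_lit 65, nat_lit 401, nat_lit 175, nat_lit 10]⟩,
 zbF0, [⟨nat_lit 0, nat_lit 77, nat_lit 74, nat_lit 100, nat_lit 60899673⟩, ⟨nat_lit 19, nat_lit 81, nat_lit 100, nat_lit 92, nat_lit 465368515⟩]⟩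
noncomputable def p102_l25 : Lf2 := ⟨nat_lit 1, nat_lit 30, [nat_lit 15, nat_lit 5, nat_lit 5, nat_lit 20], false, nat_lit 0, nat_lit 160, nat_lit 160, nat_lit 300, zbN0,
 nat_lit 0, nat_lit 0, nat_lit 0, nat_lit 0, nat_lit 0, nat_lit 0, nat_lit 0, nat_lit 0, nat_lit 0, nat_lit 0, nat_lit 0, nat_lit 0, nat_lit 0, nat_lit 0, nat_lit 0, nat_lit 0, nat_lit 0, nat_lit 0, [],
 C1.Rw.none, C1.Rw.none,
 zbF0, []⟩
noncomputable def p102_l26 : Lf2 := ⟨nat_lit 0, nat_lit 30, [nat_lit 15, nat_lit 5, nat_lit 5, nat_lit 20], false, nat_lit 0, nat_lit 160, nat_lit 160, nat_lit 300, ⟨nat_lit 1000, nat_lit 0, nat_lit 0, nat_lit 0, nat_lit 0, nat_lit 0, nat_lit 0, nat_lit 0, nat_lit 0, nat_lit 0, nat_lit 0, nat_lit 0, nat_lit 0, nat_lit 0, nat_lit 0, nat_lit 0, false, false⟩,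
 nat_lit 0, nat_lit 0, nat_lit 7701, nat_lit 0, nat_lit 6554, nat_lit 5775, nat_lit 26, nat_lit 0, nat_lit 0, nat_lit 774, nat_lit 0, nat_lit 0, nat_lit 0, nat_lit 0, nat_lit 0, nat_lit 0, nat_lit 0, nat_lit 0, [],
 ⟨p102_k1, nat_lit 0, nat_lit 0, nat_lit 215, nat_lit 0, nat_lit 0, [nat_lit 2032000001, nat_lit 4688000000, nat_lit 9842000000], [], [nat_lit 33851900047, nat_lit 35677015179, nat_lit 44571691870, nat_lit 45541371890, nat_lit 29702259189, nat_lit 30991291272, nat_lit 38256171818, nat_lit 39093992090], nat_lit 0, nat_lit 0, nat_lit 0, nat_lit 0, nat_lit 0, nat_lit 0, [], [nat_lit 27, nat_lit 40, nat_lit 40, nat_lit 80, nat_lit 13, nat_lit 373, nat_lit 150, nat_lit 10]⟩, ⟨p102_k2, nat_lit 0, nat_lit 0, nat_lit 282, nat_lit 0, nat_lit 366536, [nat_lit 2032000000, nat_lit 4688000000, nat_lit 11872000000], [], [nat_lit 24501047021, nat_lit 25279703981, nat_lit 31457717900, nat_lit 32324036200, nat_lit 27017564630,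 nat_lit 27836560678, nat_lit 33962759950, nat_lit 34833879388], nat_lit 1271250, nat_lit 1271250, nat_lit 1271250, nat_lit 1271250, nat_lit 1100001, nat_lit 2298750, [nat_lit 490000, nat_lit 1100000, nat_lit 2470000], [nat_lit 75, nat_lit 40, nat_lit 40, nat_lit 80, nat_lit 65, nat_lit 401, nat_lit 175, nat_lit 9]⟩,
 zbF0, [⟨nat_lit 0, nat_lit 72, nat_lit 61, nat_lit 100, nat_lit 102538715⟩, ⟨nat_lit 19, nat_lit 81, nat_lit 100, nat_lit 92, nat_lit 415111868⟩]⟩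
noncomputable def p102_l27 : Lf2 := ⟨nat_lit 0, nat_lit 30, [nat_lit 15, nat_lit 5, nat_lit 5, nat_lit 20], false, nat_lit 160, nat_lit 300, nat_lit 0, nat_lit 160, ⟨nat_lit 1000, nat_lit 0, nat_lit 0, nat_lit 0, nat_lit 0, nat_lit 0, nat_lit 0, nat_lit 0, nat_lit 0, nat_lit 0, nat_lit 0, nat_lit 0, nat_lit 0, nat_lit 0, nat_lit 0, nat_lit 0, false, false⟩,
 nat_lit 0, nat_lit 0, nat_lit 9321, nat_lit 200, nat_lit 7651, nat_lit 6990, nat_lit 0, nat_lit 0, nat_lit 0, nat_lit 581, nat_lit 0, nat_lit 0, nat_lit 0, nat_lit 0, nat_lit 0, nat_lit 0, nat_lit 0, nat_lit 0, [],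
 ⟨p102_k0, nat_lit 0, nat_lit 0, nat_lit 100, nat_lit 0, nat_lit 0, [nat_lit 2032000001, nat_lit 6250000000, nat_lit 11872000000], [], [nat_lit 18886304208, nat_lit 23174346732, nat_lit 33519144344, nat_lit 36225292360, nat_lit 25367394832, nat_lit 28474167405, nat_lit 36158088918, nat_lit 38119979253], nat_lit 0, nat_lit 0, nat_lit 0, nat_lit 0, nat_lit 0, nat_lit 0, [], [nat_lit 72, nat_lit 40, nat_lit 40, nat_lit 80, nat_lit 12, nat_lit 401, nat_lit 175, nat_lit 10]⟩, ⟨p102_k0, nat_lit 0, nat_lit 0, nat_lit 414, nat_lit 0, nat_lit 366536, [nat_lit 2032000000, nat_lit 6250000000, nat_lit 11872000000], [], [nat_lit 35237774980, nat_lit 33778576160, nat_lit 40830242440, nat_lit 42303941760, nat_lit 28184407645, nat_lit 29095217205, nat_lit 40112236080, nat_lit 37065700500], nat_lit 1271250, nat_lit 1271250, nat_lit 936251, nat_lit 3113750, nat_lit 0, nat_lit 1100001, [nat_lit 490000, nat_lit 1427500, nat_lit 1271250],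 [nat_lit 72, nat_lit 40, nat_lit 40, nat_lit 80, nat_lit 12, nat_lit 373, nat_lit 150, nat_lit 9]⟩,
 zbF0, [⟨nat_lit 16, nat_lit 74, nat_lit 100, nat_lit 90, nat_lit 613979138⟩]⟩
noncomputable def p102_l28 : Lf2 := ⟨nat_lit 0, nat_lit 30, [nat_lit 15, nat_lit 5, nat_lit 5, nat_lit 20], false, nat_lit 160, nat_lit 300, nat_lit 160, nat_lit 300, ⟨nat_lit 1000, nat_lit 0, nat_lit 0, nat_lit 0, nat_lit 0, nat_lit 0, nat_lit 0, nat_lit 0, nat_lit 0, nat_lit 0, nat_lit 0, nat_lit 0, nat_lit 0, nat_lit 0, nat_lit 0, nat_lit 0, false, false⟩,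
 nat_lit 0, nat_lit 0, nat_lit 10326, nat_lit 839, nat_lit 7480, nat_lit 7744, nat_lit 0, nat_lit 0, nat_lit 0, nat_lit 591, nat_lit 0, nat_lit 0, nat_lit 0, nat_lit 0, nat_lit 0, nat_lit 0, nat_lit 0, nat_lit 0, [],
 ⟨p102_k0, nat_lit 0, nat_lit 0, nat_lit 100, nat_lit 0, nat_lit 0, [nat_lit 2032000001, nat_lit 6250000000, nat_lit 11872000000], [], [nat_lit 19053369840, nat_lit 23276787360, nat_lit 33303557120, nat_lit 35975912800, nat_lit 25475461360, nat_lit 28539975900, nat_lit 35957981640, nat_lit 37899850440], nat_lit 0, nat_lit 0, nat_lit 0, nat_lit 0, nat_lit 0, nat_lit 0, [], [nat_lit 72, nat_lit 40, nat_lit 40, nat_lit 80, nat_lit 12, nat_lit 401, nat_lit 175, nat_lit 10]⟩, ⟨p102_k0, nat_lit 0, nat_lit 0, nat_lit 323, nat_lit 0, nat_lit 366536, [nat_lit 2032000000, nat_lit 6250000000, nat_lit 11872000000], [], [nat_lit 25216770854, nat_lit 26137710126, nat_lit 33636393536, nat_lit 34998656688, nat_lit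 27465763131, nat_lit 28386425815, nat_lit 36266919192, nat_lit 37253308812], nat_lit 1271250, nat_lit 1271250, nat_lit 1271250, nat_lit 1271250, nat_lit 1100001, nat_lit 2298750, [nat_lit 490000, nat_lit 1427500, nat_lit 1271250], [nat_lit 72, nat_lit 40, nat_lit 40, nat_lit 80, nat_lit 12, nat_lit 401, nat_lit 175, nat_lit 10]⟩,
 zbF0, [⟨nat_lit 4, nat_lit 100, nat_lit 74, nat_lit 90, nat_lit 612011999⟩, ⟨nat_lit 7, nat_lit 100, nat_lit 81, nat_lit 92, nat_lit 402774074⟩]⟩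
noncomputable def p102_l29 : Lf2 := ⟨nat_lit 0, nat_lit 30, [nat_lit 15, nat_lit 5, nat_lit 5, nat_lit 20], false, nat_lit 0, nat_lit 300, nat_lit 0, nat_lit 160, ⟨nat_lit 1000, nat_lit 0, nat_lit 0, nat_lit 0, nat_lit 0, nat_lit 0, nat_lit 0, nat_lit 0, nat_lit 0, nat_lit 0, nat_lit 0, nat_lit 0, nat_lit 0, nat_lit 0, nat_lit 0, nat_lit 0, false, false⟩,
 nat_lit 0, nat_lit 0, nat_lit 0, nat_lit 14086, nat_lit 12491, nat_lit 6210, nat_lit 180, nat_lit 0, nat_lit 0, nat_lit 981, nat_lit 0, nat_lit 0, nat_lit 0, nat_lit 0, nat_lit 0, nat_lit 0, nat_lit 0, nat_lit 0, [],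
 ⟨p102_k2, nat_lit 0, nat_lit 0, nat_lit 225, nat_lit 0, nat_lit 0, [nat_lit 2032000001, nat_lit 4688000000, nat_lit 11872000000], [], [nat_lit 38851263420, nat_lit 44110588548, nat_lit 40102924908, nat_lit 44346834572, nat_lit 31390501582, nat_lit 34459505614, nat_lit 30794410197, nat_lit 33509303568], nat_lit 0, nat_lit 0, nat_lit 0, nat_lit 0, nat_lit 0, nat_lit 0, [], [nat_lit 75, nat_lit 40, nat_lit 40, nat_lit 80, nat_lit 65, nat_lit 373, nat_lit 150, nat_lit 9]⟩, ⟨p102_k2, nat_lit 0, nat_lit 0, nat_lit 216, nat_lit 0, nat_lit 0, [nat_lit 2032000000, nat_lit 4688000000, nat_lit 11872000000], [], [nat_lit 23834510575, nat_lit 25480543415, nat_lit 25694373855, nat_lit 27065892740, nat_lit 19284463635, nat_lit 20681751875, nat_lit 20935387855, nat_lit 22354030400], nat_lit 0, nat_lit 0, nat_lit 0, nat_lit 0, nat_lit 0, nat_lit 0, [], [nat_lit 75, nat_lit 40, nat_lit 40, nat_lit 80, nat_lit 65, nat_lit 317, nat_lit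 100, nat_lit 8]⟩,
 zbF0, [⟨nat_lit 0, nat_lit 76, nat_lit 72, nat_lit 100, nat_lit 770585859⟩]⟩
noncomputable def p102_l30 : Lf2 := ⟨nat_lit 0, nat_lit 30, [nat_lit 15, nat_lit 5, nat_lit 5, nat_lit 20], false, nat_lit 0, nat_lit 300, nat_lit 0, nat_lit 160, ⟨nat_lit 1000, nat_lit 0, nat_lit 0, nat_lit 0, nat_lit 0, nat_lit 0, nat_lit 0, nat_lit 0, nat_lit 0, nat_lit 0, nat_lit 0, nat_lit 0, nat_lit 0, nat_lit 0, nat_lit 0, nat_lit 0, false, false⟩,
 nat_lit 0, nat_lit 0, nat_lit 0, nat_lit 8436, nat_lit 9519, nat_lit 6269, nat_lit 112, nat_lit 0, nat_lit 0, nat_lit 444, nat_lit 0, nat_lit 0, nat_lit 0, nat_lit 0, nat_lit 0, nat_lit 0, nat_lit 0, nat_lit 0, [],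
 ⟨p102_k2, nat_lit 0, nat_lit 0, nat_lit 237, nat_lit 0, nat_lit 0, [nat_lit 2032000001, nat_lit 4688000000, nat_lit 11872000000], [], [nat_lit 39243013472, nat_lit 42771550848, nat_lit 49411490328, nat_lit 51453726892, nat_lit 33558617973, nat_lit 35669987722, nat_lit 39425574074, nat_lit 40616249958], nat_lit 0, nat_lit 0, nat_lit 0, nat_lit 0, nat_lit 0, nat_lit 0, [], [nat_lit 75, nat_lit 40, nat_lit 40, nat_lit 80, nat_lit 65, nat_lit 401, nat_lit 175, nat_lit 10]⟩, ⟨p102_k2, nat_lit 0, nat_lit 0, nat_lit 234, nat_lit 0, nat_lit 0, [nat_lit 2032000000, nat_lit 4688000000, nat_lit 11872000000], [], [nat_lit 32886639972, nat_lit 34259764660, nat_lit 41119338828, nat_lit 41970553610, nat_lit 28667085836, nat_lit 29656440464, nat_lit 35123654952, nat_lit 35862781524], nat_lit 0, nat_lit 0, nat_lit 0, nat_lit 0, nat_lit 0, nat_lit 0, [], [nat_lit 75, nat_lit 40, nat_lit 40, nat_lit 80, nat_lit 65, nat_lit 373,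 nat_lit 150, nat_lit 9]⟩,
 zbF0, []⟩
noncomputable def p102_l31 : Lf2 := ⟨nat_lit 0, nat_lit 30, [nat_lit 15, nat_lit 5, nat_lit 5, nat_lit 20], false, nat_lit 0, nat_lit 300, nat_lit 160, nat_lit 300, ⟨nat_lit 1000, nat_lit 0, nat_lit 0, nat_lit 0, nat_lit 0, nat_lit 0, nat_lit 0, nat_lit 0, nat_lit 0, nat_lit 0, nat_lit 0, nat_lit 0, nat_lit 0, nat_lit 0, nat_lit 0, nat_lit 0, false, false⟩,
 nat_lit 0, nat_lit 0, nat_lit 0, nat_lit 14611, nat_lit 7528, nat_lit 8007, nat_lit 344, nat_lit 0, nat_lit 0, nat_lit 0, nat_lit 0, nat_lit 0, nat_lit 0, nat_lit 0, nat_lit 0, nat_lit 0, nat_lit 0, nat_lit 0, [],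
 ⟨p102_k0, nat_lit 0, nat_lit 0, nat_lit 247, nat_lit 0, nat_lit 0, [nat_lit 2032000001, nat_lit 6250000000, nat_lit 11872000000], [], [nat_lit 33555937416, nat_lit 36572646184, nat_lit 43582600536, nat_lit 45416666104, nat_lit 31370833972, nat_lit 33155798836, nat_lit 36768478688, nat_lit 37961640984], nat_lit 0, nat_lit 0, nat_lit 0, nat_lit 0, nat_lit 0, nat_lit 0, [], [nat_lit 72, nat_lit 40, nat_lit 40, nat_lit 80, nat_lit 12, nat_lit 401, nat_lit 175, nat_lit 10]⟩, ⟨p102_k0, nat_lit 0, nat_lit 0, nat_lit 95, nat_lit 0, nat_lit 0, [nat_lit 2032000000, nat_lit 6250000000, nat_lit 11872000000], [], [nat_lit 18538495056, nat_lit 20749786790, nat_lit 33967969208, nat_lit 35356218864, nat_lit 25142414224, nat_lit 26739788405, nat_lit 36574686526, nat_lit 37576472824], nat_lit 0, nat_lit 0, nat_lit 0, nat_lit 0, nat_lit 0, nat_lit 0, [], [nat_lit 72, nat_lit 40, nat_lit 40, nat_lit 80, nat_lit 12, nat_lit 401, nat_lit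 175, nat_lit 10]⟩,
 zbF0, [⟨nat_lit 0, nat_lit 72, nat_lit 61, nat_lit 100, nat_lit 253356650⟩, ⟨nat_lit 4, nat_lit 100, nat_lit 74, nat_lit 90, nat_lit 84782938⟩, ⟨nat_lit 19, nat_lit 87, nat_lit 95, nat_lit 100, nat_lit 349155187⟩]⟩
noncomputable def p102_l32 : Lf2 := ⟨nat_lit 0, nat_lit 30, [nat_lit 15, nat_lit 5, nat_lit 5, nat_lit 20], true, nat_lit 0, nat_lit 160, nat_lit 0, nat_lit 300, ⟨nat_lit 0, nat_lit 1000, nat_lit 0, nat_lit 8, nat_lit 250, nat_lit 1000, nat_lit 65, nat_lit 0, nat_lit 0, nat_lit 0, nat_lit 0, nat_lit 0, nat_lit 0, nat_lit 0, nat_lit 0, nat_lit 5000000, false, false⟩,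
 nat_lit 0, nat_lit 0, nat_lit 0, nat_lit 6757, nat_lit 3103, nat_lit 0, nat_lit 325, nat_lit 0, nat_lit 0, nat_lit 0, nat_lit 0, nat_lit 0, nat_lit 0, nat_lit 0, nat_lit 0, nat_lit 250000, nat_lit 0, nat_lit 0, [(nat_lit 20, [(nat_lit 0, nat_lit 1000)])],
 ⟨p102_k0, nat_lit 0, nat_lit 0, nat_lit 227, nat_lit 0, nat_lit 0, [nat_lit 1534400001, nat_lit 2718000000, nat_lit 3583920000], [], [nat_lit 21846502212, nat_lit 22954491197, nat_lit 24001882110, nat_lit 24948467678, nat_lit 21366039084, nat_lit 22319457995, nat_lit 23307620730, nat_lit 24130312418], nat_lit 0, nat_lit 0, nat_lit 0, nat_lit 0, nat_lit 0, nat_lit 0, [], [nat_lit 72, nat_lit 40, nat_lit 40, nat_lit 80, nat_lit 12, nat_lit 317, nat_lit 100, nat_lit 8]⟩, C1.Rw.none,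
 ⟨nat_lit 3872, nat_lit 4473, ⟨.ofNat (nat_lit 527314), .ofNat (nat_lit 697279), .ofNat (nat_lit 548863), .ofNat (nat_lit 718828), .ofNat (nat_lit 533860), .ofNat (nat_lit 695183), .ofNat (nat_lit 555635), .ofNat (nat_lit 716959)⟩, ⟨.ofNat (nat_lit 0), .ofNat (nat_lit 302621), .ofNat (nat_lit 0), .ofNat (nat_lit 345754), .ofNat (nat_lit 0), .ofNat (nat_lit 304717), .ofNat (nat_lit 0), .ofNat (nat_lit 348304)⟩⟩, []⟩
noncomputable def p102_l33 : Lf2 := ⟨nat_lit 0, nat_lit 30, [nat_lit 15, nat_lit 5, nat_lit 5, nat_lit 20], true, nat_lit 0, nat_lit 160, nat_lit 0, nat_lit 300, ⟨nat_lit 0, nat_lit 1000, nat_lit 0, nat_lit 8, nat_lit 260, nat_lit 1000, nat_lit 65, nat_lit 0, nat_lit 0, nat_lit 0, nat_lit 0, nat_lit 0, nat_lit 0, nat_lit 0, nat_lit 0, nat_lit 5000000, true, false⟩,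
 nat_lit 0, nat_lit 0, nat_lit 0, nat_lit 4897, nat_lit 3044, nat_lit 0, nat_lit 0, nat_lit 0, nat_lit 0, nat_lit 0, nat_lit 0, nat_lit 0, nat_lit 0, nat_lit 0, nat_lit 0, nat_lit 400000, nat_lit 0, nat_lit 0, [(nat_lit 23, [(nat_lit 1, nat_lit 1000)])],
 ⟨p102_k6, nat_lit 0, nat_lit 0, nat_lit 197, nat_lit 0, nat_lit 0, [nat_lit 1360600001, nat_lit 1554600001, nat_lit 1260466667], [], [nat_lit 23693931672, nat_lit 24912263276, nat_lit 25547608563, nat_lit 26626636027, nat_lit 23326108984, nat_lit 24320234493, nat_lit 24953187548, nat_lit 25840881660], nat_lit 0, nat_lit 0, nat_lit 0, nat_lit 0, nat_lit 0, nat_lit 0, [], [nat_lit 61, nat_lit 40, nat_lit 40, nat_lit 80, nat_lit 1, nat_lit 317, nat_lit 100, nat_lit 9]⟩, C1.Rw.none,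
 ⟨nat_lit 3162, nat_lit 3873, ⟨.ofNat (nat_lit 578944), .ofNat (nat_lit 695141), .ofNat (nat_lit 600708), .ofNat (nat_lit 716905), .ofNat (nat_lit 583969), .ofNat (nat_lit 693742), .ofNat (nat_lit 606094), .ofNat (nat_lit 715869)⟩, ⟨.ofNat (nat_lit 0), .ofNat (nat_lit 304717), .ofNat (nat_lit 0), .ofNat (nat_lit 348304), .ofNat (nat_lit 0), .ofNat (nat_lit 306116), .ofNat (nat_lit 0), .ofNat (nat_lit 350426)⟩⟩, []⟩
noncomputable def p102_l34 : Lf2 := ⟨nat_lit 0, nat_lit 30, [nat_lit 15, nat_lit 5, nat_lit 5, nat_lit 20], true, nat_lit 160, nat_lit 300, nat_lit 0, nat_lit 300, ⟨nat_lit 0, nat_lit 1000, nat_lit 0, nat_lit 8, nat_lit 250, nat_lit 1000, nat_lit 176, nat_lit 0, nat_lit 0, nat_lit 0, nat_lit 0, nat_lit 0, nat_lit 0, nat_lit 0, nat_lit 0, nat_lit 5000000, false, false⟩,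
 nat_lit 0, nat_lit 0, nat_lit 0, nat_lit 11700, nat_lit 4923, nat_lit 0, nat_lit 0, nat_lit 0, nat_lit 0, nat_lit 0, nat_lit 0, nat_lit 0, nat_lit 0, nat_lit 0, nat_lit 0, nat_lit 250000, nat_lit 0, nat_lit 0, [(nat_lit 20, [(nat_lit 0, nat_lit 1000)]), (nat_lit 23, [(nat_lit 0, nat_lit 1000)])],
 ⟨p102_k0, nat_lit 0, nat_lit 0, nat_lit 71, nat_lit 0, nat_lit 0, [nat_lit 1576000001, nat_lit 2718000000, nat_lit 3583920000], [], [nat_lit 18019538384, nat_lit 21276604236, nat_lit 20846799788, nat_lit 23563687724, nat_lit 23559403536, nat_lit 25992024565, nat_lit 25337922517, nat_lit 27674012304], nat_lit 0, nat_lit 0, nat_lit 0, nat_lit 0, nat_lit 0, nat_lit 0, [], [nat_lit 72, nat_lit 40, nat_lit 40, nat_lit 80, nat_lit 12, nat_lit 373, nat_lit 150, nat_lit 9]⟩, C1.Rw.none,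
 ⟨nat_lit 3162, nat_lit 4473, ⟨.ofNat (nat_lit 526772), .ofNat (nat_lit 696911), .ofNat (nat_lit 548248), .ofNat (nat_lit 718387), .ofNat (nat_lit 540839), .ofNat (nat_lit 693416), .ofNat (nat_lit 562904), .ofNat (nat_lit 715481)⟩, ⟨.ofNat (nat_lit 302621), .ofNat (nat_lit 540545), .ofNat (nat_lit 345754), .ofNat (nat_lit 583678), .ofNat (nat_lit 306116), .ofNat (nat_lit 519453), .ofNat (nat_lit 350426), .ofNat (nat_lit 563762)⟩⟩, [⟨nat_lit 16, nat_lit 74, nat_lit 100, nat_lit 90, nat_lit 373308362⟩]⟩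
noncomputable def p102_l35 : Lf2 := ⟨nat_lit 0, nat_lit 30, [nat_lit 15, nat_lit 5, nat_lit 5, nat_lit 20], false, nat_lit 0, nat_lit 160, nat_lit 0, nat_lit 300, ⟨nat_lit 1000, nat_lit 0, nat_lit 0, nat_lit 0, nat_lit 0, nat_lit 0, nat_lit 0, nat_lit 0, nat_lit 0, nat_lit 0, nat_lit 0, nat_lit 0, nat_lit 0, nat_lit 0, nat_lit 0, nat_lit 0, false, false⟩,
 nat_lit 0, nat_lit 0, nat_lit 8268, nat_lit 977, nat_lit 6305, nat_lit 6200, nat_lit 572, nat_lit 0, nat_lit 0, nat_lit 624, nat_lit 0, nat_lit 0, nat_lit 0, nat_lit 0, nat_lit 0, nat_lit 0, nat_lit 0, nat_lit 0, [],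
 ⟨p102_k2, nat_lit 0, nat_lit 0, nat_lit 234, nat_lit 0, nat_lit 0, [nat_lit 2032000001, nat_lit 4688000000, nat_lit 11872000000], [], [nat_lit 31202034340, nat_lit 32579491700, nat_lit 39456175660, nat_lit 40309272450, nat_lit 26900733420, nat_lit 27892774080, nat_lit 33412496440, nat_lit 34153069780], nat_lit 0, nat_lit 0, nat_lit 0, nat_lit 0, nat_lit 0, nat_lit 0, [], [nat_lit 75, nat_lit 40, nat_lit 40, nat_lit 80, nat_lit 65, nat_lit 373, nat_lit 150, nat_lit 9]⟩, ⟨p102_k2, nat_lit 0, nat_lit 0, nat_lit 345, nat_lit 0, nat_lit 194491, [nat_lit 2032000000, nat_lit 4688000000, nat_lit 11872000000], [], [nat_lit 32996046400, nat_lit 33815603200, nat_lit 38638172400, nat_lit 40000282800, nat_lit 29751764400, nat_lit 30268472800, nat_lit 34460102600, nat_lit 35356102600], nat_lit 1271250, nat_lit 1271250, nat_lit 1271250, nat_lit 1271250, nat_lit 0, nat_lit 2118750, [nat_lit 490000, nat_lit 1100000, nat_lit 2470000],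 [nat_lit 75, nat_lit 40, nat_lit 40, nat_lit 80, nat_lit 65, nat_lit 401, nat_lit 175, nat_lit 10]⟩,
 zbF0, [⟨nat_lit 7, nat_lit 100, nat_lit 81, nat_lit 92, nat_lit 138489466⟩]⟩
noncomputable def p102_l36 : Lf2 := ⟨nat_lit 0, nat_lit 30, [nat_lit 15, nat_lit 5, nat_lit 5, nat_lit 20], false, nat_lit 0, nat_lit 160, nat_lit 0, nat_lit 300, ⟨nat_lit 912, nat_lit 88, nat_lit 0, nat_lit 8, nat_lit 332, nat_lit 88, nat_lit 65, nat_lit 0, nat_lit 0, nat_lit 0, nat_lit 0, nat_lit 0, nat_lit 0, nat_lit 0, nat_lit 0, nat_lit 5000000, true, false⟩,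
 nat_lit 0, nat_lit 0, nat_lit 7043, nat_lit 0, nat_lit 5758, nat_lit 5282, nat_lit 287, nat_lit 0, nat_lit 0, nat_lit 589, nat_lit 0, nat_lit 0, nat_lit 0, nat_lit 0, nat_lit 0, nat_lit 88000, nat_lit 0, nat_lit 0, [(nat_lit 23, [(nat_lit 2, nat_lit 88)])],
 ⟨p102_k1, nat_lit 0, nat_lit 0, nat_lit 215, nat_lit 0, nat_lit 0, [nat_lit 1976090667, nat_lit 4320300800, nat_lit 8427699200], [], [nat_lit 30767235147, nat_lit 32231124095, nat_lit 39107111315, nat_lit 40039393336, nat_lit 26868890890, nat_lit 27920173854, nat_lit 33849107511, nat_lit 34646357255], nat_lit 0, nat_lit 0, nat_lit 0, nat_lit 0, nat_lit 0, nat_lit 0, [], [nat_lit 27, nat_lit 40, nat_lit 40, nat_lit 80, nat_lit 13, nat_lit 373, nat_lit 150, nat_lit 10]⟩, ⟨p102_k2, nat_lit 0, nat_lit 0, nat_lit 391, nat_lit 0, nat_lit 366536, [nat_lit 1853184000, nat_lit 4275456000, nat_lit 10827264000], [], [nat_lit 30273994014, nat_lit 30896548014, nat_lit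 34529500375, nat_lit 35394330576, nat_lit 27961994404, nat_lit 28356981452, nat_lit 31281345172, nat_lit 31789333333], nat_lit 1271250, nat_lit 1271250, nat_lit 1271250, nat_lit 1271250, nat_lit 0, nat_lit 2118750, [nat_lit 490000, nat_lit 1100000, nat_lit 2470000], [nat_lit 75, nat_lit 40, nat_lit 40, nat_lit 80, nat_lit 65, nat_lit 401, nat_lit 175, nat_lit 10]⟩,
 ⟨nat_lit 3162, nat_lit 3873, ⟨.ofNat (nat_lit 695141), .ofNat (nat_lit 953347), .ofNat (nat_lit 716905), .ofNat (nat_lit 975119), .ofNat (nat_lit 693742), .ofNat (nat_lit 937676), .ofNat (nat_lit 715869), .ofNat (nat_lit 959810)⟩, ⟨.ofNat (nat_lit 0), .ofNat (nat_lit 304717), .ofNat (nat_lit 0), .ofNat (nat_lit 348304), .ofNat (nat_lit 0), .ofNat (nat_lit 306116), .ofNat (nat_lit 0), .ofNat (nat_lit 350426)⟩⟩, [⟨nat_lit 19, nat_lit 81, nat_lit 100, nat_lit 92, nat_lit 140356341⟩]⟩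
noncomputable def p102_l37 : Lf2 := ⟨nat_lit 0, nat_lit 30, [nat_lit 15, nat_lit 5, nat_lit 5, nat_lit 20], false, nat_lit 160, nat_lit 300, nat_lit 0, nat_lit 300, ⟨nat_lit 1000, nat_lit 0, nat_lit 0, nat_lit 0, nat_lit 0, nat_lit 0, nat_lit 0, nat_lit 0, nat_lit 0, nat_lit 0, nat_lit 0, nat_lit 0, nat_lit 0, nat_lit 0, nat_lit 0, nat_lit 0, false, false⟩,
 nat_lit 0, nat_lit 0, nat_lit 9190, nat_lit 0, nat_lit 6882, nat_lit 6892, nat_lit 0, nat_lit 0, nat_lit 0, nat_lit 465, nat_lit 0, nat_lit 0, nat_lit 0, nat_lit 0, nat_lit 0, nat_lit 0, nat_lit 0, nat_lit 0, [],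
 ⟨p102_k0, nat_lit 0, nat_lit 0, nat_lit 100, nat_lit 0, nat_lit 0, [nat_lit 2032000001, nat_lit 6250000000, nat_lit 11872000000], [], [nat_lit 22566246792, nat_lit 25856792616, nat_lit 32550953456, nat_lit 35103813520, nat_lit 27426686078, nat_lit 29842429062, nat_lit 35258191276, nat_lit 37130043246], nat_lit 0, nat_lit 0, nat_lit 0, nat_lit 0, nat_lit 0, nat_lit 0, [], [nat_lit 72, nat_lit 40, nat_lit 40, nat_lit 80, nat_lit 12, nat_lit 401, nat_lit 175, nat_lit 9]⟩, ⟨p102_k0, nat_lit 0, nat_lit 0, nat_lit 398, nat_lit 0, nat_lit 366536, [nat_lit 2032000000, nat_lit 6250000000, nat_lit 11872000000], [], [nat_lit 36634778522, nat_lit 37307614578, nat_lit 41083794629, nat_lit 42018171408, nat_lit 32471717790, nat_lit 32879939823, nat_lit 35746884100, nat_lit 36208443008], nat_lit 1271250, nat_lit 1271250, nat_lit 1271250, nat_lit 1271250, nat_lit 0, nat_lit 2118750, [nat_lit 490000, nat_lit 1427500, nat_lit 1271250],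 [nat_lit 72, nat_lit 40, nat_lit 40, nat_lit 80, nat_lit 12, nat_lit 401, nat_lit 175, nat_lit 10]⟩,
 zbF0, [⟨nat_lit 4, nat_lit 100, nat_lit 74, nat_lit 90, nat_lit 543501148⟩, ⟨nat_lit 7, nat_lit 100, nat_lit 81, nat_lit 92, nat_lit 112383195⟩]⟩
noncomputable def b_V_800_800_20_26 : St := ⟨true, nat_lit 0, nat_lit 2, nat_lit 0, nat_lit 120, nat_lit 320, nat_lit 360, nat_lit 320, nat_lit 340, nat_lit 140, nat_lit 400, nat_lit 80, nat_lit 120, nat_lit 0, nat_lit 300, nat_lit 0, nat_lit 300, nat_lit 120, nat_lit 152, nat_lit 0, nat_lit 0, nat_lit 0, nat_lit 0⟩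
theorem d_V_800_800_20_26 (h : EB TB.env) : Dead b_V_800_800_20_26 := chkB_sound0 h (T :=
(.gv
(.st (nat_lit 1)
(.spl (nat_lit 5) (nat_lit 160)
(.spl (nat_lit 2) (nat_lit 240)
(.leaf p102_l18)
(.leaf p102_l19))
(.leaf p102_l20))
(.spl (nat_lit 4) (nat_lit 160)
(.spl (nat_lit 5) (nat_lit 160)
(.spl (nat_lit 0) (nat_lit 340)
(.leaf p102_l21)
(.trZ (nat_lit 0) (nat_lit 81) (nat_lit 72) (nat_lit 100) (nat_lit 168) (.leaf p102_l22)))
(.spl (nat_lit 0) (nat_lit 340)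
(.spl (nat_lit 6) (nat_lit 136)
(.spl (nat_lit 0) (nat_lit 330)
(.ord (.leaf p102_l23))
(.trZ (nat_lit 0) (nat_lit 82) (nat_lit 78) (nat_lit 100) (nat_lit 156) (.leaf p102_l24)))
(.leaf p102_l25))
(.trZ (nat_lit 0) (nat_lit 81) (nat_lit 72) (nat_lit 100) (nat_lit 168) (.leaf p102_l26))))
(.spl (nat_lit 5) (nat_lit 160)
(.leaf p102_l27)
(.leaf p102_l28))))
(.st (nat_lit 1)
(.spl (nat_lit 5) (nat_lit 160)
(.spl (nat_lit 2) (nat_lit 240)
(.leaf p102_l29)
(.leaf p102_l30))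
(.leaf p102_l31))
(.spl (nat_lit 2) (nat_lit 240)
(.spl (nat_lit 4) (nat_lit 160)
(.spl (nat_lit 0) (nat_lit 340)
(.leaf p102_l32)
(.trZ (nat_lit 0) (nat_lit 81) (nat_lit 72) (nat_lit 100) (nat_lit 168) (.leaf p102_l33)))
(.leaf p102_l34))
(.spl (nat_lit 4) (nat_lit 160)
(.spl (nat_lit 0) (nat_lit 340)
(.leaf p102_l35)
(.leaf p102_l36))
(.leaf p102_l37)))))) (by decide +kernel)
noncomputable def p102_l38 : Lf2 := ⟨nat_lit 0, nat_lit 30, [nat_lit 15, nat_lit 5, nat_lit 5, nat_lit 20], false, nat_lit 0, nat_lit 160, nat_lit 0, nat_lit 160, ⟨nat_lit 1000, nat_lit 0, nat_lit 0, nat_lit 0, nat_lit 0, nat_lit 0, nat_lit 0, nat_lit 0, nat_lit 0, nat_lit 0, nat_lit 0, nat_lit 0, nat_lit 0, nat_lit 0, nat_lit 0, nat_lit 0, false, false⟩,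
 nat_lit 0, nat_lit 10013, nat_lit 0, nat_lit 0, nat_lit 7509, nat_lit 5986, nat_lit 616, nat_lit 0, nat_lit 0, nat_lit 721, nat_lit 0, nat_lit 0, nat_lit 0, nat_lit 0, nat_lit 0, nat_lit 0, nat_lit 0, nat_lit 0, [],
 ⟨p102_k0, nat_lit 0, nat_lit 0, nat_lit 416, nat_lit 0, nat_lit 358281, [nat_lit 2032000001, nat_lit 6250000000, nat_lit 11872000000], [], [nat_lit 31126308666, nat_lit 33309191112, nat_lit 31853138620, nat_lit 33725227140, nat_lit 26309110382, nat_lit 28193470374, nat_lit 26956692840, nat_lit 29029224332], nat_lit 1271250, nat_lit 1271250, nat_lit 936251, nat_lit 1773750, nat_lit 0, nat_lit 1100001, [nat_lit 490000, nat_lit 1427500, nat_lit 1271250], [nat_lit 72, nat_lit 40, nat_lit 40, nat_lit 80, nat_lit 12, nat_lit 317, nat_lit 100, nat_lit 8]⟩, ⟨p102_k0, nat_lit 0, nat_lit 0, nat_lit 227, nat_lit 0, nat_lit 0, [nat_lit 2032000000, nat_lit 6250000000, nat_lit 11872000000], [], [nat_lit 26374443445,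 nat_lit 27985396989, nat_lit 28255997093, nat_lit 29595062165, nat_lit 22091452441, nat_lit 23460484425, nat_lit 23766124693, nat_lit 24909349592], nat_lit 0, nat_lit 0, nat_lit 0, nat_lit 0, nat_lit 0, nat_lit 0, [], [nat_lit 72, nat_lit 40, nat_lit 40, nat_lit 80, nat_lit 12, nat_lit 317, nat_lit 100, nat_lit 8]⟩,
 zbF0, [⟨nat_lit 0, nat_lit 72, nat_lit 61, nat_lit 100, nat_lit 812899107⟩, ⟨nat_lit 3, nat_lit 100, nat_lit 82, nat_lit 29, nat_lit 332744⟩]⟩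
noncomputable def p102_l39 : Lf2 := ⟨nat_lit 0, nat_lit 30, [nat_lit 15, nat_lit 5, nat_lit 5, nat_lit 20], false, nat_lit 160, nat_lit 300, nat_lit 0, nat_lit 160, ⟨nat_lit 1000, nat_lit 0, nat_lit 0, nat_lit 0, nat_lit 0, nat_lit 0, nat_lit 0, nat_lit 0, nat_lit 0, nat_lit 0, nat_lit 0, nat_lit 0, nat_lit 0, nat_lit 0, nat_lit 0, nat_lit 0, false, false⟩,
 nat_lit 0, nat_lit 10238, nat_lit 0, nat_lit 3260, nat_lit 7678, nat_lit 5986, nat_lit 577, nat_lit 0, nat_lit 0, nat_lit 721, nat_lit 0, nat_lit 0, nat_lit 0, nat_lit 0, nat_lit 0, nat_lit 0, nat_lit 0, nat_lit 0, [],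
 ⟨p102_k0, nat_lit 0, nat_lit 0, nat_lit 325, nat_lit 0, nat_lit 358281, [nat_lit 2032000001, nat_lit 6250000000, nat_lit 11872000000], [], [nat_lit 25718433498, nat_lit 27553030526, nat_lit 25847531578, nat_lit 27734235357, nat_lit 27773971322, nat_lit 29762769908, nat_lit 27895240951, nat_lit 29799472560], nat_lit 1271250, nat_lit 1271250, nat_lit 936251, nat_lit 1773750, nat_lit 1100001, nat_lit 2298750, [nat_lit 490000, nat_lit 1427500, nat_lit 1271250], [nat_lit 72, nat_lit 40, nat_lit 40, nat_lit 80, nat_lit 12, nat_lit 373, nat_lit 150, nat_lit 9]⟩, ⟨p102_k0, nat_lit 0, nat_lit 0, nat_lit 227, nat_lit 0, nat_lit 0, [nat_lit 2032000000, nat_lit 6250000000, nat_lit 11872000000], [], [nat_lit 26374443445, nat_lit 27985396989, nat_lit 28255997093, nat_lit 29595062165, nat_lit 22091452441, nat_lit 23460484425, nat_lit 23766124693, nat_lit 24909349592], nat_lit 0, nat_lit 0, nat_lit 0, nat_lit 0, nat_lit 0, nat_lit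 0, [], [nat_lit 72, nat_lit 40, nat_lit 40, nat_lit 80, nat_lit 12, nat_lit 317, nat_lit 100, nat_lit 8]⟩,
 zbF0, [⟨nat_lit 0, nat_lit 76, nat_lit 72, nat_lit 100, nat_lit 687033347⟩, ⟨nat_lit 4, nat_lit 100, nat_lit 74, nat_lit 90, nat_lit 440282401⟩]⟩
noncomputable def p102_l40 : Lf2 := ⟨nat_lit 0, nat_lit 30, [nat_lit 15, nat_lit 5, nat_lit 5, nat_lit 20], false, nat_lit 0, nat_lit 300, nat_lit 0, nat_lit 160, ⟨nat_lit 1000, nat_lit 0, nat_lit 0, nat_lit 0, nat_lit 0, nat_lit 0, nat_lit 0, nat_lit 0, nat_lit 0, nat_lit 0, nat_lit 0, nat_lit 0, nat_lit 0, nat_lit 0, nat_lit 0, nat_lit 0, false, false⟩,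
 nat_lit 0, nat_lit 8268, nat_lit 0, nat_lit 977, nat_lit 6200, nat_lit 6305, nat_lit 624, nat_lit 0, nat_lit 0, nat_lit 572, nat_lit 0, nat_lit 0, nat_lit 0, nat_lit 0, nat_lit 0, nat_lit 0, nat_lit 0, nat_lit 0, [],
 ⟨p102_k2, nat_lit 0, nat_lit 0, nat_lit 345, nat_lit 0, nat_lit 194491, [nat_lit 2032000001, nat_lit 4688000000, nat_lit 11872000000], [], [nat_lit 32996046400, nat_lit 33815603200, nat_lit 38638172400, nat_lit 40000282800, nat_lit 29751764400, nat_lit 30268472800, nat_lit 34460102600, nat_lit 35356102600], nat_lit 1271250, nat_lit 1271250, nat_lit 1271250, nat_lit 1271250, nat_lit 0, nat_lit 2118750, [nat_lit 490000, nat_lit 1100000, nat_lit 2470000], [nat_lit 75, nat_lit 40, nat_lit 40, nat_lit 80, nat_lit 65, nat_lit 401, nat_lit 175, nat_lit 10]⟩, ⟨p102_k2, nat_lit 0, nat_lit 0, nat_lit 234, nat_lit 0, nat_lit 0, [nat_lit 2032000000, nat_lit 4688000000, nat_lit 11872000000], [], [nat_lit 31202034340,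 nat_lit 32579491700, nat_lit 39456175660, nat_lit 40309272450, nat_lit 26900733420, nat_lit 27892774080, nat_lit 33412496440, nat_lit 34153069780], nat_lit 0, nat_lit 0, nat_lit 0, nat_lit 0, nat_lit 0, nat_lit 0, [], [nat_lit 75, nat_lit 40, nat_lit 40, nat_lit 80, nat_lit 65, nat_lit 373, nat_lit 150, nat_lit 9]⟩,
 zbF0, [⟨nat_lit 4, nat_lit 100, nat_lit 81, nat_lit 92, nat_lit 138489466⟩]⟩
noncomputable def p102_l41 : Lf2 := ⟨nat_lit 0, nat_lit 30, [nat_lit 15, nat_lit 5, nat_lit 5, nat_lit 20], false, nat_lit 0, nat_lit 276, nat_lit 0, nat_lit 160, ⟨nat_lit 1000, nat_lit 0, nat_lit 0, nat_lit 0, nat_lit 0, nat_lit 0, nat_lit 0, nat_lit 0, nat_lit 0, nat_lit 0, nat_lit 0, nat_lit 0, nat_lit 0, nat_lit 0, nat_lit 0, nat_lit 0, false, false⟩,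
 nat_lit 0, nat_lit 6513, nat_lit 0, nat_lit 0, nat_lit 5272, nat_lit 6305, nat_lit 569, nat_lit 0, nat_lit 0, nat_lit 551, nat_lit 0, nat_lit 0, nat_lit 0, nat_lit 0, nat_lit 0, nat_lit 0, nat_lit 0, nat_lit 0, [],
 ⟨p102_k1, nat_lit 0, nat_lit 0, nat_lit 342, nat_lit 0, nat_lit 321666, [nat_lit 2032000001, nat_lit 4688000000, nat_lit 9842000000], [], [nat_lit 30710959298, nat_lit 31651872482, nat_lit 37294212528, nat_lit 38564727424, nat_lit 29034481913, nat_lit 29585252868, nat_lit 33541455068, nat_lit 34434222360], nat_lit 1271250, nat_lit 1271250, nat_lit 1271250, nat_lit 1271250, nat_lit 0, nat_lit 1949250, [nat_lit 490000, nat_lit 1100000, nat_lit 2127500], [nat_lit 27, nat_lit 40, nat_lit 40, nat_lit 80, nat_lit 13, nat_lit 401, nat_lit 175, nat_lit 11]⟩, ⟨p102_k2, nat_lit 0, nat_lit 0, nat_lit 234, nat_lit 0, nat_lit 0, [nat_lit 2032000000, nat_lit 4688000000, nat_lit 11872000000], [], [nat_lit 31481924965,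 nat_lit 32859382325, nat_lit 39736066285, nat_lit 40589163075, nat_lit 27180624045, nat_lit 28172664705, nat_lit 33692387065, nat_lit 34432960405], nat_lit 0, nat_lit 0, nat_lit 0, nat_lit 0, nat_lit 0, nat_lit 0, [], [nat_lit 75, nat_lit 40, nat_lit 40, nat_lit 80, nat_lit 65, nat_lit 373, nat_lit 150, nat_lit 9]⟩,
 zbF0, [⟨nat_lit 4, nat_lit 100, nat_lit 67, nat_lit 88, nat_lit 169486078⟩]⟩
noncomputable def p102_l42 : Lf2 := ⟨nat_lit 0, nat_lit 30, [nat_lit 15, nat_lit 5, nat_lit 5, nat_lit 20], false, nat_lit 0, nat_lit 300, nat_lit 160, nat_lit 300, ⟨nat_lit 1000, nat_lit 0, nat_lit 0, nat_lit 0, nat_lit 0, nat_lit 0, nat_lit 0, nat_lit 0, nat_lit 0, nat_lit 0, nat_lit 0, nat_lit 0, nat_lit 0, nat_lit 0, nat_lit 0, nat_lit 0, false, false⟩,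
 nat_lit 0, nat_lit 13645, nat_lit 0, nat_lit 0, nat_lit 10233, nat_lit 3718, nat_lit 268, nat_lit 0, nat_lit 0, nat_lit 0, nat_lit 0, nat_lit 0, nat_lit 0, nat_lit 0, nat_lit 0, nat_lit 0, nat_lit 0, nat_lit 0, [],
 ⟨p102_k0, nat_lit 0, nat_lit 0, nat_lit 416, nat_lit 0, nat_lit 358281, [nat_lit 2032000001, nat_lit 6250000000, nat_lit 11872000000], [], [nat_lit 39820984064, nat_lit 42366411206, nat_lit 39490004716, nat_lit 41546485420, nat_lit 32101197682, nat_lit 33572426530, nat_lit 34653025264, nat_lit 32940262354], nat_lit 1271250, nat_lit 1271250, nat_lit 936251, nat_lit 1773750, nat_lit 0, nat_lit 2118750, [nat_lit 490000, nat_lit 1427500, nat_lit 1271250], [nat_lit 72, nat_lit 40, nat_lit 40, nat_lit 80, nat_lit 12, nat_lit 373, nat_lit 150, nat_lit 9]⟩, ⟨p102_k0, nat_lit 0, nat_lit 0, nat_lit 60, nat_lit 0, nat_lit 0, [nat_lit 2032000000, nat_lit 6250000000, nat_lit 11872000000], [], [nat_lit 16224302196,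 nat_lit 17894395224, nat_lit 19521688616, nat_lit 20920126496, nat_lit 22296890543, nat_lit 23552113633, nat_lit 24568080524, nat_lit 25633469776], nat_lit 0, nat_lit 0, nat_lit 0, nat_lit 0, nat_lit 0, nat_lit 0, [], [nat_lit 72, nat_lit 40, nat_lit 40, nat_lit 80, nat_lit 12, nat_lit 373, nat_lit 150, nat_lit 9]⟩,
 zbF0, [⟨nat_lit 0, nat_lit 76, nat_lit 72, nat_lit 100, nat_lit 659009387⟩, ⟨nat_lit 4, nat_lit 100, nat_lit 74, nat_lit 90, nat_lit 51113661⟩, ⟨nat_lit 7, nat_lit 100, nat_lit 81, nat_lit 92, nat_lit 536572494⟩]⟩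
noncomputable def p102_l43 : Lf2 := ⟨nat_lit 0, nat_lit 30, [nat_lit 15, nat_lit 5, nat_lit 5, nat_lit 20], false, nat_lit 0, nat_lit 300, nat_lit 160, nat_lit 300, ⟨nat_lit 1000, nat_lit 0, nat_lit 0, nat_lit 0, nat_lit 0, nat_lit 0, nat_lit 0, nat_lit 0, nat_lit 0, nat_lit 0, nat_lit 0, nat_lit 0, nat_lit 0, nat_lit 0, nat_lit 0, nat_lit 0, false, false⟩,
 nat_lit 0, nat_lit 8612, nat_lit 0, nat_lit 0, nat_lit 6458, nat_lit 6729, nat_lit 474, nat_lit 0, nat_lit 0, nat_lit 0, nat_lit 0, nat_lit 0, nat_lit 0, nat_lit 0, nat_lit 0, nat_lit 0, nat_lit 0, nat_lit 0, [],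
 ⟨p102_k0, nat_lit 0, nat_lit 0, nat_lit 396, nat_lit 0, nat_lit 358281, [nat_lit 2032000001, nat_lit 6250000000, nat_lit 11872000000], [], [nat_lit 37175272828, nat_lit 38493153316, nat_lit 41056536058, nat_lit 42163397736, nat_lit 33574793710, nat_lit 34585041268, nat_lit 36960706150, nat_lit 37876425134], nat_lit 1271250, nat_lit 1271250, nat_lit 1271250, nat_lit 1271250, nat_lit 0, nat_lit 2118750, [nat_lit 490000, nat_lit 1427500, nat_lit 1271250], [nat_lit 72, nat_lit 40, nat_lit 40, nat_lit 80, nat_lit 12, nat_lit 401, nat_lit 175, nat_lit 10]⟩, ⟨p102_k0, nat_lit 0, nat_lit 0, nat_lit 95, nat_lit 0, nat_lit 0, [nat_lit 2032000000, nat_lit 6250000000, nat_lit 11872000000], [], [nat_lit 22707809124, nat_lit 24330680388, nat_lit 32573412632, nat_lit 33618711408, nat_lit 27539404391, nat_lit 28732915915, nat_lit 35079147922, nat_lit 36006116905], nat_lit 0, nat_lit 0, nat_lit 0, nat_lit 0, nat_lit 0, nat_lit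 0, [], [nat_lit 72, nat_lit 40, nat_lit 40, nat_lit 80, nat_lit 12, nat_lit 401, nat_lit 175, nat_lit 9]⟩,
 zbF0, [⟨nat_lit 4, nat_lit 100, nat_lit 74, nat_lit 90, nat_lit 163790893⟩, ⟨nat_lit 19, nat_lit 81, nat_lit 100, nat_lit 92, nat_lit 505701002⟩]⟩
noncomputable def p102_l44 : Lf2 := ⟨nat_lit 0, nat_lit 30, [nat_lit 15, nat_lit 5, nat_lit 5, nat_lit 20], false, nat_lit 0, nat_lit 160, nat_lit 0, nat_lit 300, ⟨nat_lit 1000, nat_lit 0, nat_lit 0, nat_lit 0, nat_lit 0, nat_lit 0, nat_lit 0, nat_lit 0, nat_lit 0, nat_lit 0, nat_lit 0, nat_lit 0, nat_lit 0, nat_lit 0, nat_lit 0, nat_lit 0, false, false⟩,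
 nat_lit 16247, nat_lit 0, nat_lit 0, nat_lit 0, nat_lit 7751, nat_lit 12185, nat_lit 672, nat_lit 0, nat_lit 0, nat_lit 208, nat_lit 0, nat_lit 0, nat_lit 0, nat_lit 0, nat_lit 0, nat_lit 0, nat_lit 0, nat_lit 0, [],
 ⟨p102_k0, nat_lit 0, nat_lit 0, nat_lit 335, nat_lit 0, nat_lit 118308, [nat_lit 2032000001, nat_lit 6250000000, nat_lit 11872000000], [], [nat_lit 29100672408, nat_lit 30194217845, nat_lit 30010362288, nat_lit 31561848640, nat_lit 23239580482, nat_lit 24476782276, nat_lit 25745246085, nat_lit 25336134448], nat_lit 1271250, nat_lit 1271250, nat_lit 936251, nat_lit 1773750, nat_lit 0, nat_lit 1100001, [nat_lit 490000, nat_lit 1427500, nat_lit 1271250], [nat_lit 72, nat_lit 40, nat_lit 40, nat_lit 80, nat_lit 12, nat_lit 317, nat_lit 100, nat_lit 8]⟩, ⟨p102_k0, nat_lit 0, nat_lit 0, nat_lit 335, nat_lit 0, nat_lit 118308, [nat_lit 2032000000, nat_lit 6250000000, nat_lit 11872000000], [], [nat_lit 40831069480,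 nat_lit 42244692075, nat_lit 40044969620, nat_lit 41410712400, nat_lit 30920536353, nat_lit 32430779913, nat_lit 32365107535, nat_lit 31599421213], nat_lit 1271250, nat_lit 1271250, nat_lit 936251, nat_lit 1773750, nat_lit 0, nat_lit 2118750, [nat_lit 490000, nat_lit 1427500, nat_lit 1271250], [nat_lit 72, nat_lit 40, nat_lit 40, nat_lit 80, nat_lit 12, nat_lit 373, nat_lit 150, nat_lit 9]⟩,
 zbF0, [⟨nat_lit 0, nat_lit 71, nat_lit 71, nat_lit 100, nat_lit 859188673⟩, ⟨nat_lit 7, nat_lit 100, nat_lit 81, nat_lit 92, nat_lit 22940129⟩]⟩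
noncomputable def p102_l45 : Lf2 := ⟨nat_lit 0, nat_lit 30, [nat_lit 15, nat_lit 5, nat_lit 5, nat_lit 20], false, nat_lit 0, nat_lit 160, nat_lit 0, nat_lit 300, ⟨nat_lit 1000, nat_lit 0, nat_lit 0, nat_lit 0, nat_lit 0, nat_lit 0, nat_lit 0, nat_lit 0, nat_lit 0, nat_lit 0, nat_lit 0, nat_lit 0, nat_lit 0, nat_lit 0, nat_lit 0, nat_lit 0, false, false⟩,
 nat_lit 12967, nat_lit 0, nat_lit 0, nat_lit 0, nat_lit 6177, nat_lit 9725, nat_lit 639, nat_lit 0, nat_lit 0, nat_lit 418, nat_lit 0, nat_lit 0, nat_lit 0, nat_lit 0, nat_lit 0, nat_lit 0, nat_lit 0, nat_lit 0, [],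
 ⟨p102_k6, nat_lit 0, nat_lit 0, nat_lit 305, nat_lit 0, nat_lit 197351, [nat_lit 2032000001, nat_lit 6250000000, nat_lit 9842000000], [], [nat_lit 26135327449, nat_lit 27724836240, nat_lit 27824758093, nat_lit 29348063755, nat_lit 22433739398, nat_lit 23596978463, nat_lit 23641599009, nat_lit 24659560640], nat_lit 1271250, nat_lit 1271250, nat_lit 1167600, nat_lit 1789500, nat_lit 0, nat_lit 1100001, [nat_lit 490000, nat_lit 1427500, nat_lit 1271250], [nat_lit 61, nat_lit 40, nat_lit 40, nat_lit 80, nat_lit 1, nat_lit 317, nat_lit 100, nat_lit 9]⟩, ⟨p102_k0, nat_lit 0, nat_lit 0, nat_lit 358, nat_lit 0, nat_lit 217941, [nat_lit 2032000000, nat_lit 6250000000, nat_lit 11872000000], [], [nat_lit 35247932480, nat_lit 36424236831, nat_lit 35476122200, nat_lit 36629354250, nat_lit 28517940536, nat_lit 29769773035, nat_lit 29828117725, nat_lit 29972244313], nat_lit 1271250, nat_lit 1271250, nat_lit 1167600, nat_lit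 1789500, nat_lit 0, nat_lit 2118750, [nat_lit 490000, nat_lit 1427500, nat_lit 1271250], [nat_lit 72, nat_lit 40, nat_lit 40, nat_lit 80, nat_lit 12, nat_lit 373, nat_lit 150, nat_lit 9]⟩,
 zbF0, [⟨nat_lit 0, nat_lit 72, nat_lit 61, nat_lit 100, nat_lit 807607091⟩, ⟨nat_lit 7, nat_lit 100, nat_lit 81, nat_lit 92, nat_lit 93487514⟩]⟩
noncomputable def p102_l46 : Lf2 := ⟨nat_lit 0, nat_lit 30, [nat_lit 15, nat_lit 5, nat_lit 5, nat_lit 20], false, nat_lit 160, nat_lit 300, nat_lit 0, nat_lit 160, ⟨nat_lit 1000, nat_lit 0, nat_lit 0, nat_lit 0, nat_lit 0, nat_lit 0, nat_lit 0, nat_lit 0, nat_lit 0, nat_lit 0, nat_lit 0, nat_lit 0, nat_lit 0, nat_lit 0, nat_lit 0, nat_lit 0, false, false⟩,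
 nat_lit 15606, nat_lit 0, nat_lit 0, nat_lit 0, nat_lit 11704, nat_lit 7751, nat_lit 289, nat_lit 0, nat_lit 0, nat_lit 741, nat_lit 0, nat_lit 0, nat_lit 0, nat_lit 0, nat_lit 0, nat_lit 0, nat_lit 0, nat_lit 0, [],
 ⟨p102_k0, nat_lit 0, nat_lit 0, nat_lit 213, nat_lit 0, nat_lit 217941, [nat_lit 2032000001, nat_lit 6250000000, nat_lit 11872000000], [], [nat_lit 25445646949, nat_lit 29626293701, nat_lit 26514108277, nat_lit 29896755413, nat_lit 29951697361, nat_lit 32895920969, nat_lit 29524755493, nat_lit 32902488792], nat_lit 1271250, nat_lit 1271250, nat_lit 936251, nat_lit 1773750, nat_lit 1100001, nat_lit 2298750, [nat_lit 490000, nat_lit 1427500, nat_lit 1271250], [nat_lit 72, nat_lit 40, nat_lit 40, nat_lit 80, nat_lit 12, nat_lit 373, nat_lit 150, nat_lit 9]⟩, ⟨p102_k0, nat_lit 0, nat_lit 0, nat_lit 367, nat_lit 0, nat_lit 217941, [nat_lit 2032000000, nat_lit 6250000000, nat_lit 11872000000], [], [nat_lit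 27717755247, nat_lit 29194782063, nat_lit 29016977913, nat_lit 30568464265, nat_lit 22246196107, nat_lit 23505219213, nat_lit 25745246084, nat_lit 25336134448], nat_lit 1271250, nat_lit 1271250, nat_lit 936251, nat_lit 1773750, nat_lit 0, nat_lit 1100001, [nat_lit 490000, nat_lit 1427500, nat_lit 1271250], [nat_lit 72, nat_lit 40, nat_lit 40, nat_lit 80, nat_lit 12, nat_lit 317, nat_lit 100, nat_lit 8]⟩,
 zbF0, [⟨nat_lit 0, nat_lit 76, nat_lit 72, nat_lit 100, nat_lit 695557122⟩, ⟨nat_lit 16, nat_lit 74, nat_lit 100, nat_lit 90, nat_lit 491212964⟩]⟩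
noncomputable def p102_l47 : Lf2 := ⟨nat_lit 0, nat_lit 30, [nat_lit 15, nat_lit 5, nat_lit 5, nat_lit 20], false, nat_lit 160, nat_lit 300, nat_lit 160, nat_lit 300, ⟨nat_lit 1000, nat_lit 0, nat_lit 0, nat_lit 0, nat_lit 0, nat_lit 0, nat_lit 0, nat_lit 0, nat_lit 0, nat_lit 0, nat_lit 0, nat_lit 0, nat_lit 0, nat_lit 0, nat_lit 0, nat_lit 0, false, false⟩,
 nat_lit 22250, nat_lit 0, nat_lit 0, nat_lit 3501, nat_lit 16687, nat_lit 16687, nat_lit 0, nat_lit 0, nat_lit 0, nat_lit 0, nat_lit 0, nat_lit 0, nat_lit 0, nat_lit 0, nat_lit 0, nat_lit 0, nat_lit 0, nat_lit 0, [],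
 ⟨p102_k0, nat_lit 0, nat_lit 0, nat_lit 172, nat_lit 0, nat_lit 118308, [nat_lit 2032000001, nat_lit 6250000000, nat_lit 11872000000], [], [nat_lit 27109392422, nat_lit 29828291350, nat_lit 27649566056, nat_lit 29819466910, nat_lit 32068350196, nat_lit 33935494308, nat_lit 31108030875, nat_lit 33926325926], nat_lit 1271250, nat_lit 1271250, nat_lit 936251, nat_lit 1773750, nat_lit 1100001, nat_lit 2298750, [nat_lit 490000, nat_lit 1427500, nat_lit 1271250], [nat_lit 72, nat_lit 40, nat_lit 40, nat_lit 80, nat_lit 12, nat_lit 373, nat_lit 150, nat_lit 9]⟩, ⟨p102_k0, nat_lit 0, nat_lit 0, nat_lit 172, nat_lit 0, nat_lit 118308, [nat_lit 2032000000, nat_lit 6250000000, nat_lit 11872000000], [], [nat_lit 27109392422, nat_lit 29828291350, nat_lit 27649566056, nat_lit 29819466910, nat_lit 32068350196, nat_lit 33935494308, nat_lit 31108030875, nat_lit 33926325926], nat_lit 1271250, nat_lit 1271250, nat_lit 936251, nat_lit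 1773750, nat_lit 1100001, nat_lit 2298750, [nat_lit 490000, nat_lit 1427500, nat_lit 1271250], [nat_lit 72, nat_lit 40, nat_lit 40, nat_lit 80, nat_lit 12, nat_lit 373, nat_lit 150, nat_lit 9]⟩,
 zbF0, [⟨nat_lit 0, nat_lit 77, nat_lit 77, nat_lit 100, nat_lit 777810746⟩, ⟨nat_lit 4, nat_lit 100, nat_lit 81, nat_lit 92, nat_lit 491561069⟩, ⟨nat_lit 7, nat_lit 100, nat_lit 81, nat_lit 92, nat_lit 491561069⟩]⟩
noncomputable def p102_l48 : Lf2 := ⟨nat_lit 0, nat_lit 30, [nat_lit 15, nat_lit 5, nat_lit 5, nat_lit 20], false, nat_lit 160, nat_lit 276, nat_lit 160, nat_lit 300, ⟨nat_lit 1000, nat_lit 0, nat_lit 0, nat_lit 0, nat_lit 0, nat_lit 0, nat_lit 0, nat_lit 0, nat_lit 0, nat_lit 0, nat_lit 0, nat_lit 0, nat_lit 0, nat_lit 0, nat_lit 0, nat_lit 0, false, false⟩,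
 nat_lit 17534, nat_lit 0, nat_lit 0, nat_lit 0, nat_lit 13367, nat_lit 13150, nat_lit 0, nat_lit 0, nat_lit 0, nat_lit 247, nat_lit 0, nat_lit 0, nat_lit 0, nat_lit 0, nat_lit 0, nat_lit 0, nat_lit 0, nat_lit 0, [],
 ⟨p102_k6, nat_lit 0, nat_lit 0, nat_lit 167, nat_lit 0, nat_lit 197351, [nat_lit 2032000001, nat_lit 6250000000, nat_lit 9842000000], [], [nat_lit 25071545382, nat_lit 27553999786, nat_lit 26571574902, nat_lit 28677187672, nat_lit 28550494734, nat_lit 31031859188, nat_lit 29909164985, nat_lit 32480011479], nat_lit 1271250, nat_lit 1271250, nat_lit 1167600, nat_lit 1789500, nat_lit 1100001, nat_lit 2093250, [nat_lit 490000, nat_lit 1427500, nat_lit 1271250], [nat_lit 61, nat_lit 40, nat_lit 40, nat_lit 80, nat_lit 1, nat_lit 373, nat_lit 150, nat_lit 10]⟩, ⟨p102_k0, nat_lit 0, nat_lit 0, nat_lit 197, nat_lit 0, nat_lit 217941, [nat_lit 2032000000, nat_lit 6250000000, nat_lit 11872000000], [], [nat_lit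 24996342076, nat_lit 27154788335, nat_lit 26240893075, nat_lit 28071093375, nat_lit 29242353666, nat_lit 30746841565, nat_lit 29307255750, nat_lit 31662339975], nat_lit 1271250, nat_lit 1271250, nat_lit 1167600, nat_lit 1789500, nat_lit 1100001, nat_lit 2298750, [nat_lit 490000, nat_lit 1427500, nat_lit 1271250], [nat_lit 72, nat_lit 40, nat_lit 40, nat_lit 80, nat_lit 12, nat_lit 373, nat_lit 150, nat_lit 9]⟩,
 zbF0, [⟨nat_lit 0, nat_lit 76, nat_lit 66, nat_lit 100, nat_lit 555258269⟩, ⟨nat_lit 16, nat_lit 67, nat_lit 100, nat_lit 88, nat_lit 616912620⟩, ⟨nat_lit 7, nat_lit 100, nat_lit 81, nat_lit 92, nat_lit 466872028⟩]⟩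
noncomputable def p102_l49 : Lf2 := ⟨nat_lit 0, nat_lit 30, [nat_lit 15, nat_lit 5, nat_lit 5, nat_lit 20], false, nat_lit 0, nat_lit 160, nat_lit 0, nat_lit 300, ⟨nat_lit 1000, nat_lit 0, nat_lit 0, nat_lit 0, nat_lit 0, nat_lit 0, nat_lit 0, nat_lit 0, nat_lit 0, nat_lit 0, nat_lit 0, nat_lit 0, nat_lit 0, nat_lit 0, nat_lit 0, nat_lit 0, false, false⟩,
 nat_lit 8743, nat_lit 0, nat_lit 0, nat_lit 0, nat_lit 6446, nat_lit 6556, nat_lit 585, nat_lit 0, nat_lit 0, nat_lit 503, nat_lit 0, nat_lit 0, nat_lit 0, nat_lit 0, nat_lit 0, nat_lit 0, nat_lit 0, nat_lit 0, [],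
 ⟨p102_k0, nat_lit 0, nat_lit 0, nat_lit 355, nat_lit 0, nat_lit 217941, [nat_lit 2032000001, nat_lit 6250000000, nat_lit 11872000000], [], [nat_lit 32637418642, nat_lit 34303930117, nat_lit 39308263176, nat_lit 42126986232, nat_lit 27747275821, nat_lit 29616324549, nat_lit 34044102672, nat_lit 35623573648], nat_lit 1271250, nat_lit 1271250, nat_lit 1271250, nat_lit 1271250, nat_lit 0, nat_lit 1100001, [nat_lit 490000, nat_lit 1427500, nat_lit 1271250], [nat_lit 72, nat_lit 40, nat_lit 40, nat_lit 80, nat_lit 12, nat_lit 373, nat_lit 150, nat_lit 9]⟩, ⟨p102_k0, nat_lit 0, nat_lit 0, nat_lit 355, nat_lit 0, nat_lit 217941, [nat_lit 2032000000, nat_lit 6250000000, nat_lit 11872000000], [], [nat_lit 34932423862, nat_lit 35770401526, nat_lit 40136902947, nat_lit 41038387344, nat_lit 31209387722, nat_lit 31735325579, nat_lit 35465725828, nat_lit 36052371210], nat_lit 1271250, nat_lit 1271250, nat_lit 1271250, nat_lit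 1271250, nat_lit 0, nat_lit 2118750, [nat_lit 490000, nat_lit 1427500, nat_lit 1271250], [nat_lit 72, nat_lit 40, nat_lit 40, nat_lit 80, nat_lit 12, nat_lit 401, nat_lit 175, nat_lit 10]⟩,
 zbF0, [⟨nat_lit 19, nat_lit 81, nat_lit 100, nat_lit 92, nat_lit 140597276⟩]⟩
noncomputable def p102_l50 : Lf2 := ⟨nat_lit 0, nat_lit 30, [nat_lit 15, nat_lit 5, nat_lit 5, nat_lit 20], false, nat_lit 160, nat_lit 300, nat_lit 0, nat_lit 300, ⟨nat_lit 1000, nat_lit 0, nat_lit 0, nat_lit 0, nat_lit 0, nat_lit 0, nat_lit 0, nat_lit 0, nat_lit 0, nat_lit 0, nat_lit 0, nat_lit 0, nat_lit 0, nat_lit 0, nat_lit 0, nat_lit 0, false, false⟩,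
 nat_lit 12751, nat_lit 0, nat_lit 0, nat_lit 0, nat_lit 9562, nat_lit 7508, nat_lit 179, nat_lit 0, nat_lit 0, nat_lit 495, nat_lit 0, nat_lit 0, nat_lit 0, nat_lit 0, nat_lit 0, nat_lit 0, nat_lit 0, nat_lit 0, [],
 ⟨p102_k0, nat_lit 0, nat_lit 0, nat_lit 188, nat_lit 0, nat_lit 118308, [nat_lit 2032000001, nat_lit 6250000000, nat_lit 11872000000], [], [nat_lit 29398198431, nat_lit 30883800035, nat_lit 37992441271, nat_lit 38863906927, nat_lit 32447446629, nat_lit 33505607680, nat_lit 38394375516, nat_lit 39487195401], nat_lit 1271250, nat_lit 1271250, nat_lit 1271250, nat_lit 1271250, nat_lit 1100001, nat_lit 2298750, [nat_lit 490000, nat_lit 1427500, nat_lit 1271250], [nat_lit 72, nat_lit 40, nat_lit 40, nat_lit 80, nat_lit 12, nat_lit 401, nat_lit 175, nat_lit 9]⟩, ⟨p102_k0, nat_lit 0, nat_lit 0, nat_lit 326, nat_lit 0, nat_lit 118308, [nat_lit 2032000000, nat_lit 6250000000, nat_lit 11872000000], [], [nat_lit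 34590861766, nat_lit 35478099718, nat_lit 42279480048, nat_lit 43814442192, nat_lit 29587561746, nat_lit 30124020292, nat_lit 35990747744, nat_lit 36963321334], nat_lit 1271250, nat_lit 1271250, nat_lit 1271250, nat_lit 1271250, nat_lit 0, nat_lit 2118750, [nat_lit 490000, nat_lit 1427500, nat_lit 1271250], [nat_lit 72, nat_lit 40, nat_lit 40, nat_lit 80, nat_lit 12, nat_lit 401, nat_lit 175, nat_lit 10]⟩,
 zbF0, [⟨nat_lit 4, nat_lit 100, nat_lit 81, nat_lit 92, nat_lit 324663924⟩, ⟨nat_lit 7, nat_lit 100, nat_lit 81, nat_lit 92, nat_lit 89122920⟩]⟩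
noncomputable def p102_l51 : Lf2 := ⟨nat_lit 0, nat_lit 30, [nat_lit 15, nat_lit 5, nat_lit 5, nat_lit 20], false, nat_lit 160, nat_lit 276, nat_lit 0, nat_lit 300, ⟨nat_lit 1000, nat_lit 0, nat_lit 0, nat_lit 0, nat_lit 0, nat_lit 0, nat_lit 0, nat_lit 0, nat_lit 0, nat_lit 0, nat_lit 0, nat_lit 0, nat_lit 0, nat_lit 0, nat_lit 0, nat_lit 0, false, false⟩,
 nat_lit 9816, nat_lit 0, nat_lit 0, nat_lit 0, nat_lit 7946, nat_lit 7362, nat_lit 164, nat_lit 0, nat_lit 0, nat_lit 496, nat_lit 0, nat_lit 0, nat_lit 0, nat_lit 0, nat_lit 0, nat_lit 0, nat_lit 0, nat_lit 0, [],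
 ⟨p102_k6, nat_lit 0, nat_lit 0, nat_lit 193, nat_lit 0, nat_lit 197351, [nat_lit 2032000001, nat_lit 6250000000, nat_lit 9842000000], [], [nat_lit 28214087832, nat_lit 29523630036, nat_lit 36322912932, nat_lit 37231680660, nat_lit 30543101833, nat_lit 31700101728, nat_lit 36842653036, nat_lit 37853479531], nat_lit 1271250, nat_lit 1271250, nat_lit 1271250, nat_lit 1271250, nat_lit 1100001, nat_lit 2093250, [nat_lit 490000, nat_lit 1427500, nat_lit 1271250], [nat_lit 61, nat_lit 40, nat_lit 40, nat_lit 80, nat_lit 1, nat_lit 401, nat_lit 175, nat_lit 10]⟩, ⟨p102_k0, nat_lit 0, nat_lit 0, nat_lit 355, nat_lit 0, nat_lit 217941, [nat_lit 2032000000, nat_lit 6250000000, nat_lit 11872000000], [], [nat_lit 34649777224, nat_lit 35529460552, nat_lit 41871007672, nat_lit 43388702688, nat_lit 29842820194, nat_lit 30377074213, nat_lit 35819895916, nat_lit 36783922301], nat_lit 1271250, nat_lit 1271250, nat_lit 1271250, nat_lit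 1271250, nat_lit 0, nat_lit 2118750, [nat_lit 490000, nat_lit 1427500, nat_lit 1271250], [nat_lit 72, nat_lit 40, nat_lit 40, nat_lit 80, nat_lit 12, nat_lit 401, nat_lit 175, nat_lit 10]⟩,
 zbF0, [⟨nat_lit 4, nat_lit 100, nat_lit 67, nat_lit 88, nat_lit 408503072⟩, ⟨nat_lit 19, nat_lit 81, nat_lit 100, nat_lit 92, nat_lit 94654625⟩]⟩
noncomputable def b_V_800_800_20_27 : St := ⟨true, nat_lit 1, nat_lit 2, nat_lit 1, nat_lit 120, nat_lit 320, nat_lit 360, nat_lit 320, nat_lit 340, nat_lit 140, nat_lit 400, nat_lit 80, nat_lit 120, nat_lit 0, nat_lit 300, nat_lit 0, nat_lit 300, nat_lit 120, nat_lit 152, nat_lit 0, nat_lit 0, nat_lit 0, nat_lit 0⟩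
theorem d_V_800_800_20_27 (h : EB TB.env) : Dead b_V_800_800_20_27 := chkB_sound0 h (T :=
(.st (nat_lit 1)
(.spl (nat_lit 5) (nat_lit 160)
(.spl (nat_lit 2) (nat_lit 240)
(.spl (nat_lit 4) (nat_lit 160)
(.leaf p102_l38)
(.leaf p102_l39))
(.spl (nat_lit 0) (nat_lit 340)
(.leaf p102_l40)
(.trX (nat_lit 16) (nat_lit 77) (nat_lit 100) (nat_lit 99) (nat_lit 276) (.leaf p102_l41))))
(.spl (nat_lit 2) (nat_lit 240)
(.leaf p102_l42)
(.leaf p102_l43)))
(.spl (nat_lit 2) (nat_lit 240)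
(.spl (nat_lit 4) (nat_lit 160)
(.spl (nat_lit 0) (nat_lit 340)
(.leaf p102_l44)
(.trZ (nat_lit 0) (nat_lit 81) (nat_lit 72) (nat_lit 100) (nat_lit 168) (.leaf p102_l45)))
(.spl (nat_lit 5) (nat_lit 160)
(.leaf p102_l46)
(.spl (nat_lit 0) (nat_lit 340)
(.leaf p102_l47)
(.trZ (nat_lit 0) (nat_lit 81) (nat_lit 72) (nat_lit 100) (nat_lit 168) (.trX (nat_lit 16) (nat_lit 77) (nat_lit 100) (nat_lit 99) (nat_lit 276) (.leaf p102_l48))))))
(.spl (nat_lit 4) (nat_lit 160)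
(.leaf p102_l49)
(.spl (nat_lit 0) (nat_lit 340)
(.leaf p102_l50)
(.trX (nat_lit 16) (nat_lit 77) (nat_lit 100) (nat_lit 99) (nat_lit 276) (.leaf p102_l51))))))) (by decide +kernel)
noncomputable def p102_l52 : Lf2 := ⟨nat_lit 0, nat_lit 30, [nat_lit 15, nat_lit 5, nat_lit 5, nat_lit 20], false, nat_lit 0, nat_lit 160, nat_lit 0, nat_lit 160, ⟨nat_lit 1000, nat_lit 0, nat_lit 0, nat_lit 0, nat_lit 0, nat_lit 0, nat_lit 0, nat_lit 0, nat_lit 0, nat_lit 0, nat_lit 0, nat_lit 0, nat_lit 0, nat_lit 0, nat_lit 0, nat_lit 0, false, false⟩,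
 nat_lit 0, nat_lit 8626, nat_lit 0, nat_lit 1353, nat_lit 6469, nat_lit 7751, nat_lit 635, nat_lit 0, nat_lit 0, nat_lit 362, nat_lit 0, nat_lit 0, nat_lit 0, nat_lit 13590646158122, nat_lit 0, nat_lit 0, nat_lit 0, nat_lit 0, [],
 ⟨p102_k0, nat_lit 0, nat_lit 0, nat_lit 359, nat_lit 0, nat_lit 194491, [nat_lit 2032000001, nat_lit 6250000000, nat_lit 11872000000], [], [nat_lit 34719326839, nat_lit 31638295805, nat_lit 39372611564, nat_lit 40784693256, nat_lit 25853655454, nat_lit 26953906819, nat_lit 40397539848, nat_lit 37578077950], nat_lit 1271250, nat_lit 1271250, nat_lit 936251, nat_lit 3113750, nat_lit 0, nat_lit 1100001, [nat_lit 490000, nat_lit 1427500, nat_lit 1271250], [nat_lit 72, nat_lit 40, nat_lit 40, nat_lit 80, nat_lit 12, nat_lit 373, nat_lit 150, nat_lit 9]⟩, ⟨p102_k0, nat_lit 0, nat_lit 0, nat_lit 244, nat_lit 0, nat_lit 0, [nat_lit 2032000000, nat_lit 6250000000, nat_lit 11872000000], [], [nat_lit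 33174170872, nat_lit 34651197688, nat_lit 43588807162, nat_lit 44523036024, nat_lit 27702611732, nat_lit 28939813526, nat_lit 35617314958, nat_lit 36416000146], nat_lit 0, nat_lit 0, nat_lit 0, nat_lit 0, nat_lit 0, nat_lit 0, [], [nat_lit 72, nat_lit 40, nat_lit 40, nat_lit 80, nat_lit 12, nat_lit 373, nat_lit 150, nat_lit 9]⟩,
 zbF0, [⟨nat_lit 0, nat_lit 77, nat_lit 77, nat_lit 100, nat_lit 50090647⟩, ⟨nat_lit 6, nat_lit 100, nat_lit 88, nat_lit 21, nat_lit 27857088⟩]⟩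
noncomputable def p102_l53 : Lf2 := ⟨nat_lit 0, nat_lit 30, [nat_lit 15, nat_lit 5, nat_lit 5, nat_lit 20], false, nat_lit 0, nat_lit 160, nat_lit 0, nat_lit 160, ⟨nat_lit 1000, nat_lit 0, nat_lit 0, nat_lit 0, nat_lit 0, nat_lit 0, nat_lit 0, nat_lit 0, nat_lit 0, nat_lit 0, nat_lit 0, nat_lit 0, nat_lit 0, nat_lit 0, nat_lit 0, nat_lit 0, false, false⟩,
 nat_lit 0, nat_lit 6557, nat_lit 0, nat_lit 0, nat_lit 5307, nat_lit 6790, nat_lit 616, nat_lit 0, nat_lit 0, nat_lit 473, nat_lit 0, nat_lit 0, nat_lit 0, nat_lit 0, nat_lit 0, nat_lit 0, nat_lit 0, nat_lit 0, [],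
 ⟨p102_k6, nat_lit 0, nat_lit 0, nat_lit 350, nat_lit 0, nat_lit 321666, [nat_lit 2032000001, nat_lit 6250000000, nat_lit 9842000000], [], [nat_lit 28776128559, nat_lit 29784097769, nat_lit 37396273368, nat_lit 38670927644, nat_lit 26240828319, nat_lit 27096846246, nat_lit 34203804227, nat_lit 33130977732], nat_lit 1271250, nat_lit 1271250, nat_lit 1167600, nat_lit 3171500, nat_lit 0, nat_lit 1100001, [nat_lit 490000, nat_lit 1427500, nat_lit 1271250], [nat_lit 61, nat_lit 40, nat_lit 40, nat_lit 80, nat_lit 1, nat_lit 373, nat_lit 150, nat_lit 10]⟩, ⟨p102_k0, nat_lit 0, nat_lit 0, nat_lit 244, nat_lit 0, nat_lit 0, [nat_lit 2032000000, nat_lit 6250000000, nat_lit 11872000000], [], [nat_lit 32181989029, nat_lit 33489311886, nat_lit 40847248605, nat_lit 41725700225, nat_lit 27700760893, nat_lit 28801544878, nat_lit 34486513405, nat_lit 35089214265], nat_lit 0, nat_lit 0, nat_lit 0, nat_lit 0, nat_lit 0, nat_lit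 0, [], [nat_lit 72, nat_lit 40, nat_lit 40, nat_lit 80, nat_lit 12, nat_lit 373, nat_lit 150, nat_lit 9]⟩,
 zbF0, [⟨nat_lit 0, nat_lit 72, nat_lit 61, nat_lit 100, nat_lit 187719821⟩]⟩
noncomputable def p102_l54 : Lf2 := ⟨nat_lit 0, nat_lit 30, [nat_lit 15, nat_lit 5, nat_lit 5, nat_lit 20], false, nat_lit 0, nat_lit 160, nat_lit 160, nat_lit 300, ⟨nat_lit 1000, nat_lit 0, nat_lit 0, nat_lit 0, nat_lit 0, nat_lit 0, nat_lit 0, nat_lit 0, nat_lit 0, nat_lit 0, nat_lit 0, nat_lit 0, nat_lit 0, nat_lit 0, nat_lit 0, nat_lit 0, false, false⟩,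
 nat_lit 0, nat_lit 8852, nat_lit 0, nat_lit 0, nat_lit 6639, nat_lit 8007, nat_lit 549, nat_lit 0, nat_lit 0, nat_lit 0, nat_lit 0, nat_lit 0, nat_lit 0, nat_lit 0, nat_lit 0, nat_lit 0, nat_lit 0, nat_lit 0, [],
 ⟨p102_k0, nat_lit 0, nat_lit 0, nat_lit 416, nat_lit 0, nat_lit 358281, [nat_lit 2032000001, nat_lit 6250000000, nat_lit 11872000000], [], [nat_lit 34888494179, nat_lit 36043060066, nat_lit 40060576132, nat_lit 42712604588, nat_lit 29970221564, nat_lit 31351778179, nat_lit 40304446488, nat_lit 36678485364], nat_lit 1271250, nat_lit 1271250, nat_lit 936251, nat_lit 3113750, nat_lit 0, nat_lit 1100001, [nat_lit 490000, nat_lit 1427500, nat_lit 1271250], [nat_lit 72, nat_lit 40, nat_lit 40, nat_lit 80, nat_lit 12, nat_lit 373, nat_lit 150, nat_lit 9]⟩, ⟨p102_k0, nat_lit 0, nat_lit 0, nat_lit 95, nat_lit 0, nat_lit 0, [nat_lit 2032000000, nat_lit 6250000000, nat_lit 11872000000], [], [nat_lit 18538495056,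 nat_lit 20749786790, nat_lit 33967969208, nat_lit 35356218864, nat_lit 25142414224, nat_lit 26739788405, nat_lit 36574686526, nat_lit 37576472824], nat_lit 0, nat_lit 0, nat_lit 0, nat_lit 0, nat_lit 0, nat_lit 0, [], [nat_lit 72, nat_lit 40, nat_lit 40, nat_lit 80, nat_lit 12, nat_lit 401, nat_lit 175, nat_lit 10]⟩,
 zbF0, [⟨nat_lit 0, nat_lit 72, nat_lit 61, nat_lit 100, nat_lit 12572084⟩, ⟨nat_lit 7, nat_lit 100, nat_lit 81, nat_lit 92, nat_lit 581804864⟩]⟩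
noncomputable def p102_l55 : Lf2 := ⟨nat_lit 0, nat_lit 30, [nat_lit 15, nat_lit 5, nat_lit 5, nat_lit 20], false, nat_lit 160, nat_lit 300, nat_lit 0, nat_lit 160, ⟨nat_lit 1000, nat_lit 0, nat_lit 0, nat_lit 0, nat_lit 0, nat_lit 0, nat_lit 0, nat_lit 0, nat_lit 0, nat_lit 0, nat_lit 0, nat_lit 0, nat_lit 0, nat_lit 0, nat_lit 0, nat_lit 0, false, false⟩,
 nat_lit 0, nat_lit 8363, nat_lit 0, nat_lit 7951, nat_lit 6272, nat_lit 5986, nat_lit 758, nat_lit 0, nat_lit 0, nat_lit 958, nat_lit 0, nat_lit 0, nat_lit 0, nat_lit 0, nat_lit 0, nat_lit 0, nat_lit 0, nat_lit 0, [],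
 ⟨p102_k2, nat_lit 0, nat_lit 0, nat_lit 324, nat_lit 0, nat_lit 358281, [nat_lit 2032000001, nat_lit 4688000000, nat_lit 11872000000], [], [nat_lit 24226406452, nat_lit 25905885124, nat_lit 24686814372, nat_lit 26456182146, nat_lit 26485046190, nat_lit 28320870042, nat_lit 27072035066, nat_lit 28715865586], nat_lit 1271250, nat_lit 1271250, nat_lit 936251, nat_lit 1773750, nat_lit 1271250, nat_lit 1271250, [nat_lit 490000, nat_lit 1100000, nat_lit 2470000], [nat_lit 75, nat_lit 40, nat_lit 40, nat_lit 80, nat_lit 65, nat_lit 373, nat_lit 150, nat_lit 9]⟩, ⟨p102_k2, nat_lit 0, nat_lit 0, nat_lit 216, nat_lit 0, nat_lit 0, [nat_lit 2032000000, nat_lit 4688000000, nat_lit 11872000000], [], [nat_lit 23986246570, nat_lit 25597200114, nat_lit 25867800218, nat_lit 27206865290, nat_lit 19703255566, nat_lit 21072287550, nat_lit 21377927818, nat_lit 22523186240], nat_lit 0, nat_lit 0, nat_lit 0, nat_lit 0, nat_lit 0, nat_lit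 0, [], [nat_lit 75, nat_lit 40, nat_lit 40, nat_lit 80, nat_lit 65, nat_lit 317, nat_lit 100, nat_lit 8]⟩,
 zbF0, [⟨nat_lit 0, nat_lit 76, nat_lit 72, nat_lit 100, nat_lit 675078264⟩, ⟨nat_lit 4, nat_lit 100, nat_lit 74, nat_lit 90, nat_lit 450958518⟩]⟩
noncomputable def p102_l56 : Lf2 := ⟨nat_lit 0, nat_lit 30, [nat_lit 15, nat_lit 5, nat_lit 5, nat_lit 20], false, nat_lit 160, nat_lit 300, nat_lit 0, nat_lit 160, ⟨nat_lit 1000, nat_lit 0, nat_lit 0, nat_lit 0, nat_lit 0, nat_lit 0, nat_lit 0, nat_lit 0, nat_lit 0, nat_lit 0, nat_lit 0, nat_lit 0, nat_lit 0, nat_lit 0, nat_lit 0, nat_lit 0, false, false⟩,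
 nat_lit 0, nat_lit 7297, nat_lit 0, nat_lit 3244, nat_lit 5472, nat_lit 6305, nat_lit 713, nat_lit 0, nat_lit 0, nat_lit 572, nat_lit 0, nat_lit 0, nat_lit 0, nat_lit 0, nat_lit 0, nat_lit 0, nat_lit 0, nat_lit 0, [],
 ⟨p102_k2, nat_lit 0, nat_lit 0, nat_lit 278, nat_lit 0, nat_lit 358281, [nat_lit 2032000001, nat_lit 4688000000, nat_lit 11872000000], [], [nat_lit 27269404822, nat_lit 28610426646, nat_lit 32146843099, nat_lit 33516412800, nat_lit 29065898291, nat_lit 30474768995, nat_lit 34006645672, nat_lit 35314946016], nat_lit 1271250, nat_lit 1271250, nat_lit 1271250, nat_lit 1271250, nat_lit 1100001, nat_lit 2298750, [nat_lit 490000, nat_lit 1100000, nat_lit 2470000], [nat_lit 75, nat_lit 40, nat_lit 40, nat_lit 80, nat_lit 65, nat_lit 401, nat_lit 175, nat_lit 9]⟩, ⟨p102_k2, nat_lit 0, nat_lit 0, nat_lit 234, nat_lit 0, nat_lit 0, [nat_lit 2032000000, nat_lit 4688000000, nat_lit 11872000000], [], [nat_lit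 31202034340, nat_lit 32579491700, nat_lit 39456175660, nat_lit 40309272450, nat_lit 26900733420, nat_lit 27892774080, nat_lit 33412496440, nat_lit 34153069780], nat_lit 0, nat_lit 0, nat_lit 0, nat_lit 0, nat_lit 0, nat_lit 0, [], [nat_lit 75, nat_lit 40, nat_lit 40, nat_lit 80, nat_lit 65, nat_lit 373, nat_lit 150, nat_lit 9]⟩,
 zbF0, [⟨nat_lit 4, nat_lit 100, nat_lit 74, nat_lit 90, nat_lit 426274606⟩]⟩
noncomputable def p102_l57 : Lf2 := ⟨nat_lit 0, nat_lit 30, [nat_lit 15, nat_lit 5, nat_lit 5, nat_lit 20], false, nat_lit 160, nat_lit 300, nat_lit 160, nat_lit 300, ⟨nat_lit 1000, nat_lit 0, nat_lit 0, nat_lit 0, nat_lit 0, nat_lit 0, nat_lit 0, nat_lit 0, nat_lit 0, nat_lit 0, nat_lit 0, nat_lit 0, nat_lit 0, nat_lit 0, nat_lit 0, nat_lit 0, false, false⟩,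
 nat_lit 0, nat_lit 10073, nat_lit 0, nat_lit 712, nat_lit 7554, nat_lit 8007, nat_lit 601, nat_lit 0, nat_lit 0, nat_lit 0, nat_lit 0, nat_lit 0, nat_lit 0, nat_lit 0, nat_lit 0, nat_lit 0, nat_lit 0, nat_lit 0, [],
 ⟨p102_k0, nat_lit 0, nat_lit 0, nat_lit 325, nat_lit 0, nat_lit 358281, [nat_lit 2032000001, nat_lit 6250000000, nat_lit 11872000000], [], [nat_lit 25212538314, nat_lit 27033454918, nat_lit 33396852176, nat_lit 36083831440, nat_lit 27628822696, nat_lit 29454631056, nat_lit 36044577772, nat_lit 37995110862], nat_lit 1271250, nat_lit 1271250, nat_lit 1271250, nat_lit 1271250, nat_lit 1100001, nat_lit 2298750, [nat_lit 490000, nat_lit 1427500, nat_lit 1271250], [nat_lit 72, nat_lit 40, nat_lit 40, nat_lit 80, nat_lit 12, nat_lit 401, nat_lit 175, nat_lit 10]⟩, ⟨p102_k0, nat_lit 0, nat_lit 0, nat_lit 95, nat_lit 0, nat_lit 0, [nat_lit 2032000000, nat_lit 6250000000, nat_lit 11872000000], [], [nat_lit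 18538495056, nat_lit 20749786790, nat_lit 33967969208, nat_lit 35356218864, nat_lit 25142414224, nat_lit 26739788405, nat_lit 36574686526, nat_lit 37576472824], nat_lit 0, nat_lit 0, nat_lit 0, nat_lit 0, nat_lit 0, nat_lit 0, [], [nat_lit 72, nat_lit 40, nat_lit 40, nat_lit 80, nat_lit 12, nat_lit 401, nat_lit 175, nat_lit 10]⟩,
 zbF0, [⟨nat_lit 16, nat_lit 74, nat_lit 100, nat_lit 90, nat_lit 459073951⟩, ⟨nat_lit 19, nat_lit 81, nat_lit 100, nat_lit 92, nat_lit 482189569⟩]⟩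
noncomputable def p102_l58 : Lf2 := ⟨nat_lit 0, nat_lit 30, [nat_lit 15, nat_lit 5, nat_lit 5, nat_lit 20], false, nat_lit 0, nat_lit 160, nat_lit 0, nat_lit 300, ⟨nat_lit 426, nat_lit 574, nat_lit 0, nat_lit 8, nat_lit 250, nat_lit 574, nat_lit 65, nat_lit 0, nat_lit 0, nat_lit 0, nat_lit 0, nat_lit 0, nat_lit 0, nat_lit 0, nat_lit 0, nat_lit 5000000, false, false⟩,
 nat_lit 7376, nat_lit 0, nat_lit 0, nat_lit 0, nat_lit 5532, nat_lit 5532, nat_lit 332, nat_lit 0, nat_lit 0, nat_lit 64, nat_lit 0, nat_lit 0, nat_lit 0, nat_lit 8260752294012, nat_lit 0, nat_lit 358000, nat_lit 0, nat_lit 0, [(nat_lit 20, [(nat_lit 1, nat_lit 360), (nat_lit 2, nat_lit 214)])],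
 ⟨p102_k0, nat_lit 0, nat_lit 0, nat_lit 335, nat_lit 0, nat_lit 118308, [nat_lit 1913262400, nat_lit 3401047200, nat_lit 4434891200], [], [nat_lit 24832016456, nat_lit 25765378940, nat_lit 26149465916, nat_lit 27433891180, nat_lit 21412210324, nat_lit 22451268732, nat_lit 24745865488, nat_lit 23698004736], nat_lit 1271250, nat_lit 1271250, nat_lit 936251, nat_lit 1773750, nat_lit 0, nat_lit 1100001, [nat_lit 490000, nat_lit 1427500, nat_lit 1271250], [nat_lit 72, nat_lit 40, nat_lit 40, nat_lit 80, nat_lit 12, nat_lit 317, nat_lit 100, nat_lit 8]⟩, ⟨p102_k0, nat_lit 0, nat_lit 0, nat_lit 335, nat_lit 0, nat_lit 118308, [nat_lit 865632000, nat_lit 2662500000, nat_lit 5057472000], [], [nat_lit 17977173484, nat_lit 18604006192, nat_lit 17562744448, nat_lit 18239069804, nat_lit 13386469454, nat_lit 14056881389, nat_lit 13387630764, nat_lit 13621990205], nat_lit 1271250, nat_lit 1271250, nat_lit 936251, nat_lit 1773750,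 nat_lit 0, nat_lit 2118750, [nat_lit 490000, nat_lit 1427500, nat_lit 1271250], [nat_lit 72, nat_lit 40, nat_lit 40, nat_lit 80, nat_lit 12, nat_lit 373, nat_lit 150, nat_lit 9]⟩,
 ⟨nat_lit 3872, nat_lit 4473, ⟨.ofNat (nat_lit 527314), .ofNat (nat_lit 697279), .ofNat (nat_lit 548863), .ofNat (nat_lit 718828), .ofNat (nat_lit 533860), .ofNat (nat_lit 695183), .ofNat (nat_lit 555635), .ofNat (nat_lit 716959)⟩, ⟨.ofNat (nat_lit 0), .ofNat (nat_lit 302621), .ofNat (nat_lit 0), .ofNat (nat_lit 345754), .ofNat (nat_lit 0), .ofNat (nat_lit 304717), .ofNat (nat_lit 0), .ofNat (nat_lit 348304)⟩⟩, [⟨nat_lit 0, nat_lit 71, nat_lit 71, nat_lit 100, nat_lit 231470221⟩]⟩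
noncomputable def p102_l59 : Lf2 := ⟨nat_lit 0, nat_lit 30, [nat_lit 15, nat_lit 5, nat_lit 5, nat_lit 20], true, nat_lit 0, nat_lit 160, nat_lit 0, nat_lit 300, ⟨nat_lit 0, nat_lit 1000, nat_lit 0, nat_lit 8, nat_lit 260, nat_lit 1000, nat_lit 65, nat_lit 0, nat_lit 0, nat_lit 0, nat_lit 0, nat_lit 0, nat_lit 0, nat_lit 0, nat_lit 0, nat_lit 5000000, true, false⟩,
 nat_lit 0, nat_lit 4446, nat_lit 0, nat_lit 0, nat_lit 3598, nat_lit 0, nat_lit 67, nat_lit 0, nat_lit 0, nat_lit 0, nat_lit 0, nat_lit 0, nat_lit 0, nat_lit 0, nat_lit 11, nat_lit 525400, nat_lit 0, nat_lit 0, [(nat_lit 23, [(nat_lit 1, nat_lit 791), (nat_lit 2, nat_lit 209)])],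
 ⟨p102_k6, nat_lit 0, nat_lit 0, nat_lit 346, nat_lit 0, nat_lit 321666, [nat_lit 1564971201, nat_lit 1116521701, nat_lit 22862900], [], [nat_lit 21943554283, nat_lit 22921889112, nat_lit 23462556907, nat_lit 24620144895, nat_lit 21364590678, nat_lit 22173818758, nat_lit 22617210058, nat_lit 23346157444], nat_lit 1271250, nat_lit 1271250, nat_lit 1167600, nat_lit 1789500, nat_lit 0, nat_lit 1100001, [nat_lit 490000, nat_lit 1427500, nat_lit 1271250], [nat_lit 61, nat_lit 40, nat_lit 40, nat_lit 80, nat_lit 1, nat_lit 317, nat_lit 100, nat_lit 9]⟩, C1.Rw.none,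
 ⟨nat_lit 3162, nat_lit 3873, ⟨.ofNat (nat_lit 578944), .ofNat (nat_lit 695141), .ofNat (nat_lit 600708), .ofNat (nat_lit 716905), .ofNat (nat_lit 583969), .ofNat (nat_lit 693742), .ofNat (nat_lit 606094), .ofNat (nat_lit 715869)⟩, ⟨.ofNat (nat_lit 0), .ofNat (nat_lit 304717), .ofNat (nat_lit 0), .ofNat (nat_lit 348304), .ofNat (nat_lit 0), .ofNat (nat_lit 306116), .ofNat (nat_lit 0), .ofNat (nat_lit 350426)⟩⟩, []⟩
noncomputable def p102_l60 : Lf2 := ⟨nat_lit 0, nat_lit 30, [nat_lit 15, nat_lit 5, nat_lit 5, nat_lit 20], false, nat_lit 160, nat_lit 300, nat_lit 0, nat_lit 160, ⟨nat_lit 1000, nat_lit 0, nat_lit 0, nat_lit 0, nat_lit 0, nat_lit 0, nat_lit 0, nat_lit 0, nat_lit 0, nat_lit 0, nat_lit 0, nat_lit 0, nat_lit 0, nat_lit 0, nat_lit 0, nat_lit 0, false, false⟩,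
 nat_lit 15606, nat_lit 0, nat_lit 0, nat_lit 0, nat_lit 11704, nat_lit 7751, nat_lit 289, nat_lit 0, nat_lit 0, nat_lit 741, nat_lit 0, nat_lit 0, nat_lit 0, nat_lit 0, nat_lit 0, nat_lit 0, nat_lit 0, nat_lit 0, [],
 ⟨p102_k0, nat_lit 0, nat_lit 0, nat_lit 213, nat_lit 0, nat_lit 217941, [nat_lit 2032000001, nat_lit 6250000000, nat_lit 11872000000], [], [nat_lit 25445646949, nat_lit 29626293701, nat_lit 26514108277, nat_lit 29896755413, nat_lit 29951697361, nat_lit 32895920969, nat_lit 29524755493, nat_lit 32902488792], nat_lit 1271250, nat_lit 1271250, nat_lit 936251, nat_lit 1773750, nat_lit 1100001, nat_lit 2298750, [nat_lit 490000, nat_lit 1427500, nat_lit 1271250], [nat_lit 72, nat_lit 40, nat_lit 40, nat_lit 80, nat_lit 12, nat_lit 373, nat_lit 150, nat_lit 9]⟩, ⟨p102_k0, nat_lit 0, nat_lit 0, nat_lit 367, nat_lit 0, nat_lit 217941, [nat_lit 2032000000, nat_lit 6250000000, nat_lit 11872000000], [], [nat_lit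 27717755247, nat_lit 29194782063, nat_lit 29016977913, nat_lit 30568464265, nat_lit 22246196107, nat_lit 23505219213, nat_lit 25745246084, nat_lit 25336134448], nat_lit 1271250, nat_lit 1271250, nat_lit 936251, nat_lit 1773750, nat_lit 0, nat_lit 1100001, [nat_lit 490000, nat_lit 1427500, nat_lit 1271250], [nat_lit 72, nat_lit 40, nat_lit 40, nat_lit 80, nat_lit 12, nat_lit 317, nat_lit 100, nat_lit 8]⟩,
 zbF0, [⟨nat_lit 0, nat_lit 76, nat_lit 72, nat_lit 100, nat_lit 695557122⟩, ⟨nat_lit 4, nat_lit 100, nat_lit 74, nat_lit 90, nat_lit 491212964⟩]⟩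
noncomputable def p102_l61 : Lf2 := ⟨nat_lit 0, nat_lit 30, [nat_lit 15, nat_lit 5, nat_lit 5, nat_lit 20], false, nat_lit 160, nat_lit 300, nat_lit 160, nat_lit 300, ⟨nat_lit 1000, nat_lit 0, nat_lit 0, nat_lit 0, nat_lit 0, nat_lit 0, nat_lit 0, nat_lit 0, nat_lit 0, nat_lit 0, nat_lit 0, nat_lit 0, nat_lit 0, nat_lit 0, nat_lit 0, nat_lit 0, false, false⟩,
 nat_lit 22250, nat_lit 0, nat_lit 0, nat_lit 3501, nat_lit 16687, nat_lit 16687, nat_lit 0, nat_lit 0, nat_lit 0, nat_lit 0, nat_lit 0, nat_lit 0, nat_lit 0, nat_lit 0, nat_lit 0, nat_lit 0, nat_lit 0, nat_lit 0, [],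
 ⟨p102_k0, nat_lit 0, nat_lit 0, nat_lit 172, nat_lit 0, nat_lit 118308, [nat_lit 2032000001, nat_lit 6250000000, nat_lit 11872000000], [], [nat_lit 27109392422, nat_lit 29828291350, nat_lit 27649566056, nat_lit 29819466910, nat_lit 32068350196, nat_lit 33935494308, nat_lit 31108030875, nat_lit 33926325926], nat_lit 1271250, nat_lit 1271250, nat_lit 936251, nat_lit 1773750, nat_lit 1100001, nat_lit 2298750, [nat_lit 490000, nat_lit 1427500, nat_lit 1271250], [nat_lit 72, nat_lit 40, nat_lit 40, nat_lit 80, nat_lit 12, nat_lit 373, nat_lit 150, nat_lit 9]⟩, ⟨p102_k0, nat_lit 0, nat_lit 0, nat_lit 172, nat_lit 0, nat_lit 118308, [nat_lit 2032000000, nat_lit 6250000000, nat_lit 11872000000], [], [nat_lit 27109392422, nat_lit 29828291350, nat_lit 27649566056, nat_lit 29819466910, nat_lit 32068350196, nat_lit 33935494308, nat_lit 31108030875, nat_lit 33926325926], nat_lit 1271250, nat_lit 1271250, nat_lit 936251, nat_lit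 1773750, nat_lit 1100001, nat_lit 2298750, [nat_lit 490000, nat_lit 1427500, nat_lit 1271250], [nat_lit 72, nat_lit 40, nat_lit 40, nat_lit 80, nat_lit 12, nat_lit 373, nat_lit 150, nat_lit 9]⟩,
 zbF0, [⟨nat_lit 0, nat_lit 77, nat_lit 77, nat_lit 100, nat_lit 777810746⟩, ⟨nat_lit 4, nat_lit 100, nat_lit 81, nat_lit 92, nat_lit 491561069⟩, ⟨nat_lit 7, nat_lit 100, nat_lit 81, nat_lit 92, nat_lit 491561069⟩]⟩
noncomputable def p102_l62 : Lf2 := ⟨nat_lit 0, nat_lit 30, [nat_lit 15, nat_lit 5, nat_lit 5, nat_lit 20], false, nat_lit 160, nat_lit 276, nat_lit 160, nat_lit 300, ⟨nat_lit 1000, nat_lit 0, nat_lit 0, nat_lit 0, nat_lit 0, nat_lit 0, nat_lit 0, nat_lit 0, nat_lit 0, nat_lit 0, nat_lit 0, nat_lit 0, nat_lit 0, nat_lit 0, nat_lit 0, nat_lit 0, false, false⟩,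
 nat_lit 17534, nat_lit 0, nat_lit 0, nat_lit 0, nat_lit 13367, nat_lit 13150, nat_lit 0, nat_lit 0, nat_lit 0, nat_lit 247, nat_lit 0, nat_lit 0, nat_lit 0, nat_lit 0, nat_lit 0, nat_lit 0, nat_lit 0, nat_lit 0, [],
 ⟨p102_k6, nat_lit 0, nat_lit 0, nat_lit 167, nat_lit 0, nat_lit 197351, [nat_lit 2032000001, nat_lit 6250000000, nat_lit 9842000000], [], [nat_lit 25071545382, nat_lit 27553999786, nat_lit 26571574902, nat_lit 28677187672, nat_lit 28550494734, nat_lit 31031859188, nat_lit 29909164985, nat_lit 32480011479], nat_lit 1271250, nat_lit 1271250, nat_lit 1167600, nat_lit 1789500, nat_lit 1100001, nat_lit 2093250, [nat_lit 490000, nat_lit 1427500, nat_lit 1271250], [nat_lit 61, nat_lit 40, nat_lit 40, nat_lit 80, nat_lit 1, nat_lit 373, nat_lit 150, nat_lit 10]⟩, ⟨p102_k0, nat_lit 0, nat_lit 0, nat_lit 197, nat_lit 0, nat_lit 217941, [nat_lit 2032000000, nat_lit 6250000000, nat_lit 11872000000], [], [nat_lit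 24996342076, nat_lit 27154788335, nat_lit 26240893075, nat_lit 28071093375, nat_lit 29242353666, nat_lit 30746841565, nat_lit 29307255750, nat_lit 31662339975], nat_lit 1271250, nat_lit 1271250, nat_lit 1167600, nat_lit 1789500, nat_lit 1100001, nat_lit 2298750, [nat_lit 490000, nat_lit 1427500, nat_lit 1271250], [nat_lit 72, nat_lit 40, nat_lit 40, nat_lit 80, nat_lit 12, nat_lit 373, nat_lit 150, nat_lit 9]⟩,
 zbF0, [⟨nat_lit 0, nat_lit 76, nat_lit 66, nat_lit 100, nat_lit 555258269⟩, ⟨nat_lit 4, nat_lit 100, nat_lit 67, nat_lit 88, nat_lit 616912620⟩, ⟨nat_lit 19, nat_lit 81, nat_lit 100, nat_lit 92, nat_lit 466872028⟩]⟩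
noncomputable def p102_l63 : Lf2 := ⟨nat_lit 0, nat_lit 30, [nat_lit 15, nat_lit 5, nat_lit 5, nat_lit 20], false, nat_lit 0, nat_lit 160, nat_lit 0, nat_lit 300, ⟨nat_lit 1000, nat_lit 0, nat_lit 0, nat_lit 0, nat_lit 0, nat_lit 0, nat_lit 0, nat_lit 0, nat_lit 0, nat_lit 0, nat_lit 0, nat_lit 0, nat_lit 0, nat_lit 0, nat_lit 0, nat_lit 0, false, false⟩,
 nat_lit 8743, nat_lit 0, nat_lit 0, nat_lit 0, nat_lit 6446, nat_lit 6556, nat_lit 585, nat_lit 0, nat_lit 0, nat_lit 503, nat_lit 0, nat_lit 0, nat_lit 0, nat_lit 0, nat_lit 0, nat_lit 0, nat_lit 0, nat_lit 0, [],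
 ⟨p102_k0, nat_lit 0, nat_lit 0, nat_lit 355, nat_lit 0, nat_lit 217941, [nat_lit 2032000001, nat_lit 6250000000, nat_lit 11872000000], [], [nat_lit 32637418642, nat_lit 34303930117, nat_lit 39308263176, nat_lit 42126986232, nat_lit 27747275821, nat_lit 29616324549, nat_lit 34044102672, nat_lit 35623573648], nat_lit 1271250, nat_lit 1271250, nat_lit 1271250, nat_lit 1271250, nat_lit 0, nat_lit 1100001, [nat_lit 490000, nat_lit 1427500, nat_lit 1271250], [nat_lit 72, nat_lit 40, nat_lit 40, nat_lit 80, nat_lit 12, nat_lit 373, nat_lit 150, nat_lit 9]⟩, ⟨p102_k0, nat_lit 0, nat_lit 0, nat_lit 355, nat_lit 0, nat_lit 217941, [nat_lit 2032000000, nat_lit 6250000000, nat_lit 11872000000], [], [nat_lit 34932423862, nat_lit 35770401526, nat_lit 40136902947, nat_lit 41038387344, nat_lit 31209387722, nat_lit 31735325579, nat_lit 35465725828, nat_lit 36052371210], nat_lit 1271250, nat_lit 1271250, nat_lit 1271250, nat_lit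 1271250, nat_lit 0, nat_lit 2118750, [nat_lit 490000, nat_lit 1427500, nat_lit 1271250], [nat_lit 72, nat_lit 40, nat_lit 40, nat_lit 80, nat_lit 12, nat_lit 401, nat_lit 175, nat_lit 10]⟩,
 zbF0, [⟨nat_lit 19, nat_lit 81, nat_lit 100, nat_lit 92, nat_lit 140597276⟩]⟩
noncomputable def p102_l64 : Lf2 := ⟨nat_lit 0, nat_lit 30, [nat_lit 15, nat_lit 5, nat_lit 5, nat_lit 20], false, nat_lit 160, nat_lit 300, nat_lit 0, nat_lit 300, ⟨nat_lit 1000, nat_lit 0, nat_lit 0, nat_lit 0, nat_lit 0, nat_lit 0, nat_lit 0, nat_lit 0, nat_lit 0, nat_lit 0, nat_lit 0, nat_lit 0, nat_lit 0, nat_lit 0, nat_lit 0, nat_lit 0, false, false⟩,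
 nat_lit 12751, nat_lit 0, nat_lit 0, nat_lit 0, nat_lit 9562, nat_lit 7508, nat_lit 179, nat_lit 0, nat_lit 0, nat_lit 495, nat_lit 0, nat_lit 0, nat_lit 0, nat_lit 6797149704872, nat_lit 0, nat_lit 0, nat_lit 0, nat_lit 0, [],
 ⟨p102_k0, nat_lit 0, nat_lit 0, nat_lit 188, nat_lit 0, nat_lit 118308, [nat_lit 2032000001, nat_lit 6250000000, nat_lit 11872000000], [], [nat_lit 29398198431, nat_lit 30883800035, nat_lit 37992441271, nat_lit 38863906927, nat_lit 32447446629, nat_lit 33505607680, nat_lit 38394375516, nat_lit 39487195401], nat_lit 1271250, nat_lit 1271250, nat_lit 1271250, nat_lit 1271250, nat_lit 1100001, nat_lit 2298750, [nat_lit 490000, nat_lit 1427500, nat_lit 1271250], [nat_lit 72, nat_lit 40, nat_lit 40, nat_lit 80, nat_lit 12, nat_lit 401, nat_lit 175, nat_lit 9]⟩, ⟨p102_k0, nat_lit 0, nat_lit 0, nat_lit 326, nat_lit 0, nat_lit 118308, [nat_lit 2032000000, nat_lit 6250000000, nat_lit 11872000000],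 [], [nat_lit 34590861766, nat_lit 35478099718, nat_lit 42279480048, nat_lit 43814442192, nat_lit 29587561746, nat_lit 30124020292, nat_lit 35990747744, nat_lit 36963321334], nat_lit 1271250, nat_lit 1271250, nat_lit 1271250, nat_lit 1271250, nat_lit 0, nat_lit 2118750, [nat_lit 490000, nat_lit 1427500, nat_lit 1271250], [nat_lit 72, nat_lit 40, nat_lit 40, nat_lit 80, nat_lit 12, nat_lit 401, nat_lit 175, nat_lit 10]⟩,
 zbF0, [⟨nat_lit 16, nat_lit 81, nat_lit 100, nat_lit 92, nat_lit 324663924⟩, ⟨nat_lit 7, nat_lit 100, nat_lit 81, nat_lit 92, nat_lit 89122920⟩]⟩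
noncomputable def p102_l65 : Lf2 := ⟨nat_lit 0, nat_lit 30, [nat_lit 15, nat_lit 5, nat_lit 5, nat_lit 20], false, nat_lit 160, nat_lit 276, nat_lit 0, nat_lit 300, ⟨nat_lit 1000, nat_lit 0, nat_lit 0, nat_lit 0, nat_lit 0, nat_lit 0, nat_lit 0, nat_lit 0, nat_lit 0, nat_lit 0, nat_lit 0, nat_lit 0, nat_lit 0, nat_lit 0, nat_lit 0, nat_lit 0, false, false⟩,
 nat_lit 9816, nat_lit 0, nat_lit 0, nat_lit 0, nat_lit 7946, nat_lit 7362, nat_lit 164, nat_lit 0, nat_lit 0, nat_lit 496, nat_lit 0, nat_lit 0, nat_lit 0, nat_lit 0, nat_lit 0, nat_lit 0, nat_lit 0, nat_lit 0, [],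
 ⟨p102_k6, nat_lit 0, nat_lit 0, nat_lit 193, nat_lit 0, nat_lit 197351, [nat_lit 2032000001, nat_lit 6250000000, nat_lit 9842000000], [], [nat_lit 28214087832, nat_lit 29523630036, nat_lit 36322912932, nat_lit 37231680660, nat_lit 30543101833, nat_lit 31700101728, nat_lit 36842653036, nat_lit 37853479531], nat_lit 1271250, nat_lit 1271250, nat_lit 1271250, nat_lit 1271250, nat_lit 1100001, nat_lit 2093250, [nat_lit 490000, nat_lit 1427500, nat_lit 1271250], [nat_lit 61, nat_lit 40, nat_lit 40, nat_lit 80, nat_lit 1, nat_lit 401, nat_lit 175, nat_lit 10]⟩, ⟨p102_k0, nat_lit 0, nat_lit 0, nat_lit 355, nat_lit 0, nat_lit 217941, [nat_lit 2032000000, nat_lit 6250000000, nat_lit 11872000000], [], [nat_lit 34649777224, nat_lit 35529460552, nat_lit 41871007672, nat_lit 43388702688, nat_lit 29842820194, nat_lit 30377074213, nat_lit 35819895916, nat_lit 36783922301], nat_lit 1271250, nat_lit 1271250, nat_lit 1271250, nat_lit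 1271250, nat_lit 0, nat_lit 2118750, [nat_lit 490000, nat_lit 1427500, nat_lit 1271250], [nat_lit 72, nat_lit 40, nat_lit 40, nat_lit 80, nat_lit 12, nat_lit 401, nat_lit 175, nat_lit 10]⟩,
 zbF0, [⟨nat_lit 16, nat_lit 67, nat_lit 100, nat_lit 88, nat_lit 408503072⟩, ⟨nat_lit 19, nat_lit 81, nat_lit 100, nat_lit 92, nat_lit 94654625⟩]⟩
noncomputable def b_V_800_800_20_28 : St := ⟨true, nat_lit 1, nat_lit 2, nat_lit 2, nat_lit 120, nat_lit 320, nat_lit 360, nat_lit 320, nat_lit 340, nat_lit 140, nat_lit 400, nat_lit 80, nat_lit 120, nat_lit 0, nat_lit 300, nat_lit 0, nat_lit 300, nat_lit 120, nat_lit 152, nat_lit 0, nat_lit 0, nat_lit 0, nat_lit 0⟩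
theorem d_V_800_800_20_28 (h : EB TB.env) : Dead b_V_800_800_20_28 := chkB_sound0 h (T :=
(.st (nat_lit 1)
(.spl (nat_lit 4) (nat_lit 160)
(.spl (nat_lit 5) (nat_lit 160)
(.spl (nat_lit 0) (nat_lit 340)
(.leaf p102_l52)
(.trZ (nat_lit 0) (nat_lit 81) (nat_lit 72) (nat_lit 100) (nat_lit 168) (.leaf p102_l53)))
(.leaf p102_l54))
(.spl (nat_lit 5) (nat_lit 160)
(.spl (nat_lit 2) (nat_lit 240)
(.leaf p102_l55)
(.leaf p102_l56))
(.leaf p102_l57)))
(.spl (nat_lit 2) (nat_lit 240)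
(.spl (nat_lit 4) (nat_lit 160)
(.spl (nat_lit 0) (nat_lit 340)
(.leaf p102_l58)
(.trZ (nat_lit 0) (nat_lit 81) (nat_lit 72) (nat_lit 100) (nat_lit 168) (.leaf p102_l59)))
(.spl (nat_lit 5) (nat_lit 160)
(.leaf p102_l60)
(.spl (nat_lit 0) (nat_lit 340)
(.leaf p102_l61)
(.trZ (nat_lit 0) (nat_lit 81) (nat_lit 72) (nat_lit 100) (nat_lit 168) (.trX (nat_lit 16) (nat_lit 77) (nat_lit 100) (nat_lit 99) (nat_lit 276) (.leaf p102_l62))))))
(.spl (nat_lit 4) (nat_lit 160)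
(.leaf p102_l63)
(.spl (nat_lit 0) (nat_lit 340)
(.leaf p102_l64)
(.trX (nat_lit 16) (nat_lit 77) (nat_lit 100) (nat_lit 99) (nat_lit 276) (.leaf p102_l65))))))) (by decide +kernel)
noncomputable def p102_l66 : Lf2 := ⟨nat_lit 0, nat_lit 10, [nat_lit 0, nat_lit 5, nat_lit 5, nat_lit 20], true, nat_lit 0, nat_lit 200, nat_lit 0, nat_lit 384, ⟨nat_lit 0, nat_lit 549, nat_lit 451, nat_lit 4, nat_lit 180, nat_lit 1000, nat_lit 67, nat_lit 451, nat_lit 41667, nat_lit 265, nat_lit 94460, nat_lit 200, nat_lit 55716995, nat_lit 11283005, nat_lit 0, nat_lit 2266723, false, true⟩,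
 nat_lit 0, nat_lit 0, nat_lit 0, nat_lit 0, nat_lit 2758, nat_lit 0, nat_lit 0, nat_lit 0, nat_lit 0, nat_lit 0, nat_lit 0, nat_lit 0, nat_lit 0, nat_lit 0, nat_lit 0, nat_lit 250000, nat_lit 0, nat_lit 0, [(nat_lit 24, [(nat_lit 0, nat_lit 549), (nat_lit 4, nat_lit 451)]), (nat_lit 27, [(nat_lit 0, nat_lit 549), (nat_lit 4, nat_lit 451)])],
 ⟨p102_k8, nat_lit 0, nat_lit 0, nat_lit 184, nat_lit 0, nat_lit 0, [nat_lit 772140801, nat_lit 557023601, nat_lit 461428399], [], [nat_lit 19998918512, nat_lit 24058918060, nat_lit 26387298200, nat_lit 28990139048, nat_lit 20560016502, nat_lit 23203709480, nat_lit 26010063346, nat_lit 28058718520], nat_lit 0, nat_lit 0, nat_lit 0, nat_lit 0, nat_lit 0, nat_lit 0, [], [nat_lit 35, nat_lit 40, nat_lit 40, nat_lit 80, nat_lit 22, nat_lit 373, nat_lit 150, nat_lit 18]⟩, C1.Rw.none,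
 ⟨nat_lit 0, nat_lit 3163, ⟨.ofNat (nat_lit 216927), .ofNat (nat_lit 638543), .ofNat (nat_lit 258627), .ofNat (nat_lit 682855), .ofNat (nat_lit 252860), .ofNat (nat_lit 599993), .ofNat (nat_lit 300250), .ofNat (nat_lit 649995)⟩, ⟨.ofNat (nat_lit 0), .ofNat (nat_lit 322753), .ofNat (nat_lit 0), .ofNat (nat_lit 367065), .ofNat (nat_lit 0), .ofNat (nat_lit 299993), .ofNat (nat_lit 0), .ofNat (nat_lit 349995)⟩⟩, [⟨nat_lit 13, nat_lit 44, nat_lit 94, nat_lit 100, nat_lit 114437854⟩, ⟨nat_lit 13, nat_lit 60, nat_lit 80, nat_lit 100, nat_lit 11402628⟩]⟩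
noncomputable def p102_l67 : Lf2 := ⟨nat_lit 0, nat_lit 10, [nat_lit 0, nat_lit 5, nat_lit 5, nat_lit 20], true, nat_lit 0, nat_lit 200, nat_lit 0, nat_lit 384, ⟨nat_lit 0, nat_lit 1000, nat_lit 0, nat_lit 4, nat_lit 180, nat_lit 1000, nat_lit 67, nat_lit 0, nat_lit 0, nat_lit 0, nat_lit 0, nat_lit 0, nat_lit 0, nat_lit 0, nat_lit 0, nat_lit 5000000, false, true⟩,
 nat_lit 0, nat_lit 0, nat_lit 0, nat_lit 0, nat_lit 3497, nat_lit 0, nat_lit 0, nat_lit 0, nat_lit 0, nat_lit 0, nat_lit 0, nat_lit 0, nat_lit 0, nat_lit 0, nat_lit 0, nat_lit 250000, nat_lit 0, nat_lit 0, [(nat_lit 24, [(nat_lit 0, nat_lit 1000)]), (nat_lit 27, [(nat_lit 0, nat_lit 1000)])],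
 ⟨p102_k8, nat_lit 0, nat_lit 0, nat_lit 184, nat_lit 0, nat_lit 0, [nat_lit 780800001, nat_lit 1367200000, nat_lit 1705600000], [], [nat_lit 22039344808, nat_lit 26661884753, nat_lit 28154173300, nat_lit 31057680732, nat_lit 21646305609, nat_lit 24517843620, nat_lit 26560155748, nat_lit 28935128180], nat_lit 0, nat_lit 0, nat_lit 0, nat_lit 0, nat_lit 0, nat_lit 0, [], [nat_lit 35, nat_lit 40, nat_lit 40, nat_lit 80, nat_lit 22, nat_lit 373, nat_lit 150, nat_lit 18]⟩, C1.Rw.none,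
 ⟨nat_lit 0, nat_lit 3163, ⟨.ofNat (nat_lit 216927), .ofNat (nat_lit 638543), .ofNat (nat_lit 258627), .ofNat (nat_lit 682855), .ofNat (nat_lit 252860), .ofNat (nat_lit 599993), .ofNat (nat_lit 300250), .ofNat (nat_lit 649995)⟩, ⟨.ofNat (nat_lit 0), .ofNat (nat_lit 322753), .ofNat (nat_lit 0), .ofNat (nat_lit 367065), .ofNat (nat_lit 0), .ofNat (nat_lit 299993), .ofNat (nat_lit 0), .ofNat (nat_lit 349995)⟩⟩, [⟨nat_lit 13, nat_lit 60, nat_lit 80, nat_lit 100, nat_lit 93326149⟩]⟩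
noncomputable def b_V_900_400_10_0 : St := ⟨true, nat_lit 0, nat_lit 2, nat_lit 0, nat_lit 80, nat_lit 360, nat_lit 400, nat_lit 160, nat_lit 200, nat_lit 48, nat_lit 320, nat_lit 40, nat_lit 80, nat_lit 0, nat_lit 200, nat_lit 0, nat_lit 384, nat_lit 0, nat_lit 40, nat_lit 0, nat_lit 0, nat_lit 0, nat_lit 0⟩
theorem d_V_900_400_10_0 (h : EB TB.env) : Dead b_V_900_400_10_0 := chkB_sound0 h (T :=
(.gv
(.leaf p102_l66)
(.leaf p102_l67))) (by decide +kernel)
noncomputable def p102_l68 : Lf2 := ⟨nat_lit 0, nat_lit 10, [nat_lit 0, nat_lit 5, nat_lit 5, nat_lit 20], true, nat_lit 0, nat_lit 80, nat_lit 0, nat_lit 384, ⟨nat_lit 0, nat_lit 0, nat_lit 1000, nat_lit 4, nat_lit 133, nat_lit 500, nat_lit 33, nat_lit 1000, nat_lit 10417, nat_lit 240, nat_lit 166667, nat_lit 315, nat_lit 60288101, nat_lit 0, nat_lit 0, nat_lit 1627362, false, false⟩,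
 nat_lit 0, nat_lit 3152, nat_lit 0, nat_lit 0, nat_lit 2745, nat_lit 0, nat_lit 0, nat_lit 0, nat_lit 0, nat_lit 0, nat_lit 0, nat_lit 0, nat_lit 0, nat_lit 0, nat_lit 69, nat_lit 250000, nat_lit 0, nat_lit 0, [(nat_lit 24, [(nat_lit 4, nat_lit 1000)])],
 ⟨p102_k8, nat_lit 0, nat_lit 0, nat_lit 446, nat_lit 0, nat_lit 856091, [nat_lit 1002400001, nat_lit 398800001, nat_lit 54799999], [], [nat_lit 19963024680, nat_lit 20975550607, nat_lit 21391679713, nat_lit 22027746798, nat_lit 19842651613, nat_lit 20518090394, nat_lit 21490009053, nat_lit 22083090728], nat_lit 1271250, nat_lit 1271250, nat_lit 279600, nat_lit 1100001, nat_lit 0, nat_lit 490000, [nat_lit 230000, nat_lit 780000, nat_lit 1100000], [nat_lit 35, nat_lit 40, nat_lit 40, nat_lit 80, nat_lit 22, nat_lit 272, nat_lit 60, nat_lit 13]⟩, C1.Rw.none,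
 ⟨nat_lit 2738, nat_lit 3163, ⟨.ofNat (nat_lit 224021), .ofNat (nat_lit 394735), .ofNat (nat_lit 268308), .ofNat (nat_lit 439028), .ofNat (nat_lit 230686), .ofNat (nat_lit 396102), .ofNat (nat_lit 275497), .ofNat (nat_lit 440920)⟩, ⟨.ofNat (nat_lit 0), .ofNat (nat_lit 139899), .ofNat (nat_lit 0), .ofNat (nat_lit 184209), .ofNat (nat_lit 0), .ofNat (nat_lit 143475), .ofNat (nat_lit 0), .ofNat (nat_lit 188310)⟩⟩, []⟩
noncomputable def p102_l69 : Lf2 := ⟨nat_lit 0, nat_lit 10, [nat_lit 0, nat_lit 5, nat_lit 5, nat_lit 20], true, nat_lit 0, nat_lit 80, nat_lit 0, nat_lit 384, ⟨nat_lit 0, nat_lit 0, nat_lit 1000, nat_lit 4, nat_lit 138, nat_lit 457, nat_lit 33, nat_lit 1000, nat_lit 10417, nat_lit 240, nat_lit 180267, nat_lit 319, nat_lit 59846903, nat_lit 0, nat_lit 0, nat_lit 1698461, false, false⟩,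
 nat_lit 0, nat_lit 3079, nat_lit 0, nat_lit 0, nat_lit 2778, nat_lit 0, nat_lit 0, nat_lit 0, nat_lit 0, nat_lit 0, nat_lit 0, nat_lit 0, nat_lit 0, nat_lit 0, nat_lit 69, nat_lit 250000, nat_lit 0, nat_lit 0, [(nat_lit 24, [(nat_lit 4, nat_lit 1000)])],
 ⟨p102_k9, nat_lit 0, nat_lit 0, nat_lit 445, nat_lit 0, nat_lit 864368, [nat_lit 1002400001, nat_lit 398800001, nat_lit 54799999], [], [nat_lit 20839914118, nat_lit 21344691813, nat_lit 21902914167, nat_lit 22222712104, nat_lit 20463959141, nat_lit 20799567877, nat_lit 21942303059, nat_lit 22240446294], nat_lit 1271250, nat_lit 1271250, nat_lit 356250, nat_lit 1100001, nat_lit 0, nat_lit 490000, [nat_lit 230000, nat_lit 780000, nat_lit 1100000], [nat_lit 35, nat_lit 40, nat_lit 40, nat_lit 80, nat_lit 22, nat_lit 272, nat_lit 60, nat_lit 12]⟩, C1.Rw.none,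
 ⟨nat_lit 2500, nat_lit 2739, ⟨.ofNat (nat_lit 248434), .ofNat (nat_lit 396102), .ofNat (nat_lit 293259), .ofNat (nat_lit 440931), .ofNat (nat_lit 251596), .ofNat (nat_lit 396773), .ofNat (nat_lit 296748), .ofNat (nat_lit 441928)⟩, ⟨.ofNat (nat_lit 0), .ofNat (nat_lit 143475), .ofNat (nat_lit 0), .ofNat (nat_lit 188310), .ofNat (nat_lit 0), .ofNat (nat_lit 145160), .ofNat (nat_lit 0), .ofNat (nat_lit 190321)⟩⟩, []⟩
noncomputable def p102_l70 : Lf2 := ⟨nat_lit 0, nat_lit 10, [nat_lit 0, nat_lit 5, nat_lit 5, nat_lit 20], false, nat_lit 0, nat_lit 80, nat_lit 0, nat_lit 384, ⟨nat_lit 37, nat_lit 0, nat_lit 963, nat_lit 4, nat_lit 141, nat_lit 963, nat_lit 34, nat_lit 963, nat_lit 10417, nat_lit 240, nat_lit 187267, nat_lit 321, nat_lit 59554031, nat_lit 0, nat_lit 0, nat_lit 1744394, false, false⟩,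
 nat_lit 0, nat_lit 3041, nat_lit 0, nat_lit 0, nat_lit 2792, nat_lit 669, nat_lit 0, nat_lit 0, nat_lit 0, nat_lit 63, nat_lit 0, nat_lit 0, nat_lit 0, nat_lit 0, nat_lit 25, nat_lit 240750, nat_lit 0, nat_lit 0, [(nat_lit 24, [(nat_lit 4, nat_lit 963)])],
 ⟨p102_k10, nat_lit 0, nat_lit 0, nat_lit 384, nat_lit 0, nat_lit 891058, [nat_lit 834229201, nat_lit 8114400], [], [nat_lit 21388425010, nat_lit 21735827254, nat_lit 22802862810, nat_lit 23113612222, nat_lit 21471659366, nat_lit 21794882120, nat_lit 22857413846, nat_lit 23147089838], nat_lit 1271250, nat_lit 1271250, nat_lit 408851, nat_lit 1100001, nat_lit 0, nat_lit 490000, [nat_lit 230000, nat_lit 780000], [nat_lit 66, nat_lit 40, nat_lit 40, nat_lit 80, nat_lit 67, nat_lit 272, nat_lit 60, nat_lit 16]⟩, ⟨p102_k11, nat_lit 0, nat_lit 0, nat_lit 410, nat_lit 0, nat_lit 0, [nat_lit 294816000, nat_lit 439264000, nat_lit 520146000], [], [nat_lit 1611414709,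 nat_lit 1616332052, nat_lit 1391371888, nat_lit 1390502380, nat_lit 1571236325, nat_lit 1545982435, nat_lit 1300450368, nat_lit 1271506608], nat_lit 0, nat_lit 0, nat_lit 0, nat_lit 0, nat_lit 0, nat_lit 0, [], [nat_lit 62, nat_lit 40, nat_lit 40, nat_lit 80, nat_lit 58, nat_lit 428, nat_lit 200, nat_lit 10]⟩,
 ⟨nat_lit 2236, nat_lit 2500, ⟨.ofNat (nat_lit 263203), .ofNat (nat_lit 396773), .ofNat (nat_lit 308352), .ofNat (nat_lit 441925), .ofNat (nat_lit 266278), .ofNat (nat_lit 397434), .ofNat (nat_lit 311814), .ofNat (nat_lit 442974)⟩, ⟨.ofNat (nat_lit 0), .ofNat (nat_lit 145160), .ofNat (nat_lit 0), .ofNat (nat_lit 190321), .ofNat (nat_lit 0), .ofNat (nat_lit 146758), .ofNat (nat_lit 0), .ofNat (nat_lit 192306)⟩⟩, [⟨nat_lit 3, nat_lit 100, nat_lit 81, nat_lit 23, nat_lit 51621165⟩, ⟨nat_lit 19, nat_lit 100, nat_lit 63, nat_lit 72, nat_lit 8190653⟩]⟩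
noncomputable def p102_l71 : Lf2 := ⟨nat_lit 0, nat_lit 10, [nat_lit 0, nat_lit 5, nat_lit 5, nat_lit 20], true, nat_lit 80, nat_lit 200, nat_lit 0, nat_lit 384, ⟨nat_lit 0, nat_lit 0, nat_lit 1000, nat_lit 4, nat_lit 133, nat_lit 1000, nat_lit 102, nat_lit 1000, nat_lit 96267, nat_lit 291, nat_lit 166667, nat_lit 315, nat_lit 55254121, nat_lit 0, nat_lit 0, nat_lit 3092573, false, false⟩,
 nat_lit 0, nat_lit 3495, nat_lit 0, nat_lit 0, nat_lit 3044, nat_lit 0, nat_lit 0, nat_lit 0, nat_lit 0, nat_lit 0, nat_lit 0, nat_lit 0, nat_lit 0, nat_lit 0, nat_lit 69, nat_lit 250000, nat_lit 0, nat_lit 0, [(nat_lit 24, [(nat_lit 4, nat_lit 1000)])],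
 ⟨p102_k8, nat_lit 0, nat_lit 0, nat_lit 395, nat_lit 0, nat_lit 856091, [nat_lit 1002400001, nat_lit 398800001, nat_lit 54799999], [], [nat_lit 18261687693, nat_lit 19281278182, nat_lit 19692071052, nat_lit 20334021536, nat_lit 20733382145, nat_lit 21357129272, nat_lit 22002620636, nat_lit 22551771906], nat_lit 1271250, nat_lit 1271250, nat_lit 279600, nat_lit 1100001, nat_lit 490000, nat_lit 1427500, [nat_lit 230000, nat_lit 780000, nat_lit 1100000], [nat_lit 35, nat_lit 40, nat_lit 40, nat_lit 80, nat_lit 22, nat_lit 317, nat_lit 100, nat_lit 14]⟩, C1.Rw.none,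
 ⟨nat_lit 2738, nat_lit 3163, ⟨.ofNat (nat_lit 224021), .ofNat (nat_lit 394735), .ofNat (nat_lit 268308), .ofNat (nat_lit 439028), .ofNat (nat_lit 230686), .ofNat (nat_lit 396102), .ofNat (nat_lit 275497), .ofNat (nat_lit 440920)⟩, ⟨.ofNat (nat_lit 139899), .ofNat (nat_lit 322759), .ofNat (nat_lit 184209), .ofNat (nat_lit 367069), .ofNat (nat_lit 143475), .ofNat (nat_lit 320659), .ofNat (nat_lit 188310), .ofNat (nat_lit 365494)⟩⟩, [⟨nat_lit 4, nat_lit 100, nat_lit 57, nat_lit 73, nat_lit 214759906⟩]⟩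
noncomputable def p102_l72 : Lf2 := ⟨nat_lit 0, nat_lit 10, [nat_lit 0, nat_lit 5, nat_lit 5, nat_lit 20], true, nat_lit 80, nat_lit 184, nat_lit 0, nat_lit 384, ⟨nat_lit 0, nat_lit 0, nat_lit 1000, nat_lit 4, nat_lit 139, nat_lit 1000, nat_lit 97, nat_lit 1000, nat_lit 88817, nat_lit 288, nat_lit 180267, nat_lit 319, nat_lit 55113852, nat_lit 0, nat_lit 0, nat_lit 3101188, false, false⟩,
 nat_lit 0, nat_lit 3468, nat_lit 0, nat_lit 0, nat_lit 3129, nat_lit 0, nat_lit 0, nat_lit 0, nat_lit 0, nat_lit 0, nat_lit 0, nat_lit 0, nat_lit 0, nat_lit 0, nat_lit 69, nat_lit 250000, nat_lit 0, nat_lit 0, [(nat_lit 24, [(nat_lit 4, nat_lit 1000)])],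
 ⟨p102_k9, nat_lit 0, nat_lit 0, nat_lit 417, nat_lit 0, nat_lit 911275, [nat_lit 1002400001, nat_lit 398800001, nat_lit 54799999], [], [nat_lit 19234695392, nat_lit 20259041143, nat_lit 20444834216, nat_lit 21075208051, nat_lit 21037854536, nat_lit 21658540285, nat_lit 22221659848, nat_lit 22774054714], nat_lit 1271250, nat_lit 1271250, nat_lit 356250, nat_lit 1100001, nat_lit 490000, nat_lit 1302500, [nat_lit 230000, nat_lit 780000, nat_lit 1100000], [nat_lit 35, nat_lit 40, nat_lit 40, nat_lit 80, nat_lit 22, nat_lit 317, nat_lit 100, nat_lit 14]⟩, C1.Rw.none,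
 ⟨nat_lit 2236, nat_lit 2739, ⟨.ofNat (nat_lit 248369), .ofNat (nat_lit 396102), .ofNat (nat_lit 293163), .ofNat (nat_lit 440903), .ofNat (nat_lit 254815), .ofNat (nat_lit 397434), .ofNat (nat_lit 300323), .ofNat (nat_lit 442949)⟩, ⟨.ofNat (nat_lit 143475), .ofNat (nat_lit 297035), .ofNat (nat_lit 188310), .ofNat (nat_lit 341870), .ofNat (nat_lit 146758), .ofNat (nat_lit 294998), .ofNat (nat_lit 192306), .ofNat (nat_lit 340547)⟩⟩, [⟨nat_lit 4, nat_lit 100, nat_lit 50, nat_lit 74, nat_lit 224773178⟩]⟩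
noncomputable def p102_l73 : Lf2 := ⟨nat_lit 0, nat_lit 10, [nat_lit 0, nat_lit 5, nat_lit 5, nat_lit 20], false, nat_lit 0, nat_lit 80, nat_lit 0, nat_lit 368, ⟨nat_lit 265, nat_lit 0, nat_lit 735, nat_lit 4, nat_lit 191, nat_lit 735, nat_lit 31, nat_lit 735, nat_lit 8817, nat_lit 238, nat_lit 2400, nat_lit 227, nat_lit 54559638, nat_lit 0, nat_lit 0, nat_lit 2399466, false, true⟩,
 nat_lit 0, nat_lit 3534, nat_lit 0, nat_lit 0, nat_lit 3078, nat_lit 4819, nat_lit 0, nat_lit 0, nat_lit 0, nat_lit 559, nat_lit 0, nat_lit 0, nat_lit 0, nat_lit 0, nat_lit 7, nat_lit 294000, nat_lit 0, nat_lit 0, [(nat_lit 24, [(nat_lit 5, nat_lit 735)])],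
 ⟨p102_k8, nat_lit 0, nat_lit 0, nat_lit 435, nat_lit 0, nat_lit 922094, [nat_lit 812238000, nat_lit 384742001, nat_lit 744000], [], [nat_lit 21587384857, nat_lit 22782127865, nat_lit 23773350577, nat_lit 24880626048, nat_lit 21572095113, nat_lit 22685715725, nat_lit 23638111873, nat_lit 24666669636], nat_lit 1271250, nat_lit 1271250, nat_lit 1100001, nat_lit 1785000, nat_lit 0, nat_lit 490000, [nat_lit 230000, nat_lit 780000, nat_lit 1100000], [nat_lit 35, nat_lit 40, nat_lit 40, nat_lit 80, nat_lit 22, nat_lit 226, nat_lit 20, nat_lit 10]⟩, ⟨p102_k11, nat_lit 0, nat_lit 0, nat_lit 278, nat_lit 0, nat_lit 0, [nat_lit 2111520000, nat_lit 3146080000, nat_lit 3725370000], [], [nat_lit 8089292073, nat_lit 8342084045, nat_lit 9011749585, nat_lit 9208658256, nat_lit 8683358835, nat_lit 8524098508, nat_lit 8676192244, nat_lit 8730275010], nat_lit 0, nat_lit 0, nat_lit 0, nat_lit 0, nat_lit 0, nat_lit 0, [], [nat_lit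 62, nat_lit 40, nat_lit 40, nat_lit 80, nat_lit 58, nat_lit 456, nat_lit 225, nat_lit 11]⟩,
 ⟨nat_lit 2236, nat_lit 3163, ⟨.ofNat (nat_lit 394735), .ofNat (nat_lit 516642), .ofNat (nat_lit 438942), .ofNat (nat_lit 560952), .ofNat (nat_lit 397434), .ofNat (nat_lit 511466), .ofNat (nat_lit 442880), .ofNat (nat_lit 557014)⟩, ⟨.ofNat (nat_lit 0), .ofNat (nat_lit 139899), .ofNat (nat_lit 0), .ofNat (nat_lit 162054), .ofNat (nat_lit 0), .ofNat (nat_lit 146758), .ofNat (nat_lit 0), .ofNat (nat_lit 169532)⟩⟩, [⟨nat_lit 19, nat_lit 100, nat_lit 68, nat_lit 66, nat_lit 61760273⟩, ⟨nat_lit 22, nat_lit 100, nat_lit 80, nat_lit 60, nat_lit 11580909⟩]⟩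
noncomputable def p102_l74 : Lf2 := ⟨nat_lit 0, nat_lit 10, [nat_lit 0, nat_lit 5, nat_lit 5, nat_lit 20], false, nat_lit 0, nat_lit 80, nat_lit 0, nat_lit 384, ⟨nat_lit 272, nat_lit 0, nat_lit 728, nat_lit 4, nat_lit 191, nat_lit 728, nat_lit 35, nat_lit 728, nat_lit 12150, nat_lit 242, nat_lit 2400, nat_lit 227, nat_lit 54559638, nat_lit 0, nat_lit 0, nat_lit 2399466, false, true⟩,
 nat_lit 0, nat_lit 3361, nat_lit 0, nat_lit 0, nat_lit 2927, nat_lit 4816, nat_lit 0, nat_lit 0, nat_lit 0, nat_lit 575, nat_lit 0, nat_lit 0, nat_lit 0, nat_lit 0, nat_lit 5, nat_lit 291200, nat_lit 0, nat_lit 0, [(nat_lit 24, [(nat_lit 5, nat_lit 728)])],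
 ⟨p102_k8, nat_lit 0, nat_lit 0, nat_lit 399, nat_lit 0, nat_lit 815190, [nat_lit 805702400, nat_lit 389134934, nat_lit 14451200], [], [nat_lit 21172163434, nat_lit 22408263954, nat_lit 23430556930, nat_lit 24543647482, nat_lit 21140251990, nat_lit 22298160694, nat_lit 23288051518, nat_lit 24315620078], nat_lit 1271250, nat_lit 1271250, nat_lit 1100001, nat_lit 1785000, nat_lit 0, nat_lit 490000, [nat_lit 230000, nat_lit 780000, nat_lit 1100000], [nat_lit 35, nat_lit 40, nat_lit 40, nat_lit 80, nat_lit 22, nat_lit 226, nat_lit 20, nat_lit 10]⟩, ⟨p102_k11, nat_lit 0, nat_lit 0, nat_lit 278, nat_lit 0, nat_lit 0, [nat_lit 2167296000, nat_lit 3229184000, nat_lit 3823776000], [], [nat_lit 8230886193, nat_lit 8491170289, nat_lit 9168544561, nat_lit 9429195008, nat_lit 9575339674, nat_lit 9371816385, nat_lit 9788201844, nat_lit 9770972621], nat_lit 0, nat_lit 0, nat_lit 0, nat_lit 0, nat_lit 0, nat_lit 0, [], [nat_lit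 62, nat_lit 40, nat_lit 40, nat_lit 80, nat_lit 58, nat_lit 456, nat_lit 225, nat_lit 11]⟩,
 ⟨nat_lit 2236, nat_lit 3163, ⟨.ofNat (nat_lit 394735), .ofNat (nat_lit 516642), .ofNat (nat_lit 438942), .ofNat (nat_lit 560952), .ofNat (nat_lit 397434), .ofNat (nat_lit 511466), .ofNat (nat_lit 442880), .ofNat (nat_lit 557014)⟩, ⟨.ofNat (nat_lit 0), .ofNat (nat_lit 162054), .ofNat (nat_lit 0), .ofNat (nat_lit 184209), .ofNat (nat_lit 0), .ofNat (nat_lit 169532), .ofNat (nat_lit 0), .ofNat (nat_lit 192306)⟩⟩, [⟨nat_lit 7, nat_lit 57, nat_lit 100, nat_lit 76, nat_lit 49524836⟩, ⟨nat_lit 22, nat_lit 100, nat_lit 80, nat_lit 60, nat_lit 39334905⟩]⟩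
noncomputable def p102_l75 : Lf2 := ⟨nat_lit 0, nat_lit 10, [nat_lit 0, nat_lit 5, nat_lit 5, nat_lit 20], false, nat_lit 0, nat_lit 80, nat_lit 0, nat_lit 336, ⟨nat_lit 719, nat_lit 0, nat_lit 281, nat_lit 6, nat_lit 238, nat_lit 281, nat_lit 33, nat_lit 281, nat_lit 10417, nat_lit 240, nat_lit 94468, nat_lit 200, nat_lit 49460226, nat_lit 0, nat_lit 0, nat_lit 2874591, false, true⟩,
 nat_lit 0, nat_lit 4812, nat_lit 0, nat_lit 0, nat_lit 4190, nat_lit 13797, nat_lit 49, nat_lit 0, nat_lit 0, nat_lit 958, nat_lit 0, nat_lit 0, nat_lit 0, nat_lit 0, nat_lit 0, nat_lit 281000, nat_lit 0, nat_lit 0, [(nat_lit 24, [(nat_lit 6, nat_lit 281)])],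
 ⟨p102_k8, nat_lit 0, nat_lit 0, nat_lit 442, nat_lit 0, nat_lit 953945, [nat_lit 1053996801, nat_lit 1730580267, nat_lit 1995120800], [], [nat_lit 25819720738, nat_lit 27367697500, nat_lit 29811067000, nat_lit 31403796320, nat_lit 24909424458, nat_lit 25696344538, nat_lit 27138575519, nat_lit 28060478480], nat_lit 1271250, nat_lit 1271250, nat_lit 1271250, nat_lit 1271250, nat_lit 0, nat_lit 490000, [nat_lit 230000, nat_lit 780000, nat_lit 1100000], [nat_lit 35, nat_lit 40, nat_lit 40, nat_lit 80, nat_lit 22, nat_lit 226, nat_lit 20, nat_lit 9]⟩, ⟨p102_k11, nat_lit 0, nat_lit 0, nat_lit 300, nat_lit 0, nat_lit 0, [nat_lit 5728992000, nat_lit 8535968000, nat_lit 10107702000], [], [nat_lit 27682659922, nat_lit 27912272334, nat_lit 34214845434, nat_lit 33798508242, nat_lit 20267252277, nat_lit 19759695008, nat_lit 25980425367, nat_lit 25818154564], nat_lit 0, nat_lit 0, nat_lit 0, nat_lit 0, nat_lit 0, nat_lit 0,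 [], [nat_lit 62, nat_lit 40, nat_lit 40, nat_lit 80, nat_lit 58, nat_lit 456, nat_lit 225, nat_lit 11]⟩,
 ⟨nat_lit 2236, nat_lit 3163, ⟨.ofNat (nat_lit 516642), .ofNat (nat_lit 638549), .ofNat (nat_lit 560952), .ofNat (nat_lit 682859), .ofNat (nat_lit 511466), .ofNat (nat_lit 625497), .ofNat (nat_lit 557014), .ofNat (nat_lit 671045)⟩, ⟨.ofNat (nat_lit 0), .ofNat (nat_lit 139899), .ofNat (nat_lit 0), .ofNat (nat_lit 184209), .ofNat (nat_lit 0), .ofNat (nat_lit 146758), .ofNat (nat_lit 0), .ofNat (nat_lit 192306)⟩⟩, [⟨nat_lit 13, nat_lit 44, nat_lit 99, nat_lit 100, nat_lit 641503453⟩, ⟨nat_lit 22, nat_lit 94, nat_lit 100, nat_lit 62, nat_lit 29966478⟩]⟩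
noncomputable def p102_l76 : Lf2 := ⟨nat_lit 0, nat_lit 10, [nat_lit 0, nat_lit 5, nat_lit 5, nat_lit 20], false, nat_lit 80, nat_lit 176, nat_lit 0, nat_lit 368, ⟨nat_lit 277, nat_lit 0, nat_lit 723, nat_lit 4, nat_lit 191, nat_lit 723, nat_lit 90, nat_lit 723, nat_lit 77067, nat_lit 283, nat_lit 2400, nat_lit 227, nat_lit 50765336, nat_lit 0, nat_lit 0, nat_lit 3635171, false, true⟩,
 nat_lit 0, nat_lit 3753, nat_lit 0, nat_lit 0, nat_lit 3268, nat_lit 5008, nat_lit 0, nat_lit 0, nat_lit 0, nat_lit 601, nat_lit 0, nat_lit 0, nat_lit 0, nat_lit 0, nat_lit 3, nat_lit 289200, nat_lit 0, nat_lit 0, [(nat_lit 24, [(nat_lit 5, nat_lit 723)])],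
 ⟨p102_k8, nat_lit 0, nat_lit 0, nat_lit 377, nat_lit 0, nat_lit 922094, [nat_lit 798748400, nat_lit 385415600, nat_lit 15099200], [], [nat_lit 19683958304, nat_lit 20903094240, nat_lit 21861992256, nat_lit 23027985704, nat_lit 21211837079, nat_lit 22325588709, nat_lit 23225939799, nat_lit 24267458053], nat_lit 1271250, nat_lit 1271250, nat_lit 1100001, nat_lit 1785000, nat_lit 490000, nat_lit 1236400, [nat_lit 230000, nat_lit 780000, nat_lit 1100000], [nat_lit 35, nat_lit 40, nat_lit 40, nat_lit 80, nat_lit 22, nat_lit 260, nat_lit 50, nat_lit 11]⟩, ⟨p102_k11, nat_lit 0, nat_lit 0, nat_lit 278, nat_lit 0, nat_lit 0, [nat_lit 2207136000, nat_lit 3288544000, nat_lit 3894066000], [], [nat_lit 8356717287, nat_lit 8621139119, nat_lit 9318890971, nat_lit 9620561136, nat_lit 9083954955, nat_lit 8919849474, nat_lit 9054379456, nat_lit 9107072867], nat_lit 0, nat_lit 0, nat_lit 0, nat_lit 0, nat_lit 0, nat_lit 0, [], [nat_lit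 62, nat_lit 40, nat_lit 40, nat_lit 80, nat_lit 58, nat_lit 456, nat_lit 225, nat_lit 11]⟩,
 ⟨nat_lit 2236, nat_lit 3163, ⟨.ofNat (nat_lit 394735), .ofNat (nat_lit 516642), .ofNat (nat_lit 438942), .ofNat (nat_lit 560952), .ofNat (nat_lit 397434), .ofNat (nat_lit 511466), .ofNat (nat_lit 442880), .ofNat (nat_lit 557014)⟩, ⟨.ofNat (nat_lit 139899), .ofNat (nat_lit 286187), .ofNat (nat_lit 162054), .ofNat (nat_lit 308342), .ofNat (nat_lit 146758), .ofNat (nat_lit 283595), .ofNat (nat_lit 169532), .ofNat (nat_lit 306369)⟩⟩, [⟨nat_lit 4, nat_lit 100, nat_lit 55, nat_lit 69, nat_lit 324827357⟩, ⟨nat_lit 7, nat_lit 68, nat_lit 100, nat_lit 66, nat_lit 77201888⟩]⟩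
noncomputable def p102_l77 : Lf2 := ⟨nat_lit 0, nat_lit 10, [nat_lit 0, nat_lit 5, nat_lit 5, nat_lit 20], false, nat_lit 80, nat_lit 200, nat_lit 0, nat_lit 384, ⟨nat_lit 255, nat_lit 72, nat_lit 673, nat_lit 4, nat_lit 191, nat_lit 745, nat_lit 106, nat_lit 673, nat_lit 106667, nat_lit 295, nat_lit 2400, nat_lit 227, nat_lit 49755748, nat_lit 12302207, nat_lit 4942045, nat_lit 3853366, false, true⟩,
 nat_lit 0, nat_lit 3657, nat_lit 0, nat_lit 0, nat_lit 3185, nat_lit 4239, nat_lit 0, nat_lit 0, nat_lit 0, nat_lit 506, nat_lit 0, nat_lit 0, nat_lit 0, nat_lit 0, nat_lit 0, nat_lit 287200, nat_lit 0, nat_lit 0, [(nat_lit 24, [(nat_lit 0, nat_lit 72), (nat_lit 5, nat_lit 673)])],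
 ⟨p102_k8, nat_lit 0, nat_lit 0, nat_lit 342, nat_lit 0, nat_lit 815190, [nat_lit 784622800, nat_lit 414356667, nat_lit 78846400], [], [nat_lit 19690672787, nat_lit 20836685667, nat_lit 21812019327, nat_lit 22925563900, nat_lit 21755141227, nat_lit 22819044505, nat_lit 23691342290, nat_lit 24715181370], nat_lit 1271250, nat_lit 1271250, nat_lit 1100001, nat_lit 1785000, nat_lit 490000, nat_lit 1427500, [nat_lit 230000, nat_lit 780000, nat_lit 1100000], [nat_lit 35, nat_lit 40, nat_lit 40, nat_lit 80, nat_lit 22, nat_lit 260, nat_lit 50, nat_lit 11]⟩, ⟨p102_k11, nat_lit 0, nat_lit 0, nat_lit 278, nat_lit 0, nat_lit 0, [nat_lit 2031840000, nat_lit 3027360000, nat_lit 3584790000], [], [nat_lit 7743590158, nat_lit 7989332050, nat_lit 8603228830, nat_lit 8791762416, nat_lit 9018183572, nat_lit 8852403310, nat_lit 8942862636, nat_lit 8942877437], nat_lit 0, nat_lit 0, nat_lit 0, nat_lit 0, nat_lit 0, nat_lit 0, [], [nat_lit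 62, nat_lit 40, nat_lit 40, nat_lit 80, nat_lit 58, nat_lit 456, nat_lit 225, nat_lit 11]⟩,
 ⟨nat_lit 2236, nat_lit 3163, ⟨.ofNat (nat_lit 394735), .ofNat (nat_lit 516642), .ofNat (nat_lit 438942), .ofNat (nat_lit 560952), .ofNat (nat_lit 397434), .ofNat (nat_lit 511466), .ofNat (nat_lit 442880), .ofNat (nat_lit 557014)⟩, ⟨.ofNat (nat_lit 162054), .ofNat (nat_lit 344914), .ofNat (nat_lit 184209), .ofNat (nat_lit 367069), .ofNat (nat_lit 169532), .ofNat (nat_lit 340579), .ofNat (nat_lit 192306), .ofNat (nat_lit 363353)⟩⟩, [⟨nat_lit 4, nat_lit 100, nat_lit 53, nat_lit 77, nat_lit 308824384⟩, ⟨nat_lit 7, nat_lit 57, nat_lit 100, nat_lit 76, nat_lit 73328660⟩]⟩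
noncomputable def p102_l78 : Lf2 := ⟨nat_lit 0, nat_lit 10, [nat_lit 0, nat_lit 5, nat_lit 5, nat_lit 20], false, nat_lit 80, nat_lit 200, nat_lit 0, nat_lit 160, ⟨nat_lit 879, nat_lit 0, nat_lit 121, nat_lit 6, nat_lit 239, nat_lit 121, nat_lit 102, nat_lit 121, nat_lit 96267, nat_lit 291, nat_lit 94468, nat_lit 200, nat_lit 45509003, nat_lit 0, nat_lit 0, nat_lit 4195341, false, true⟩,
 nat_lit 0, nat_lit 5487, nat_lit 0, nat_lit 0, nat_lit 4778, nat_lit 9611, nat_lit 222, nat_lit 0, nat_lit 0, nat_lit 1118, nat_lit 0, nat_lit 0, nat_lit 0, nat_lit 0, nat_lit 0, nat_lit 121000, nat_lit 0, nat_lit 0, [(nat_lit 24, [(nat_lit 6, nat_lit 121)])],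
 ⟨p102_k8, nat_lit 0, nat_lit 0, nat_lit 354, nat_lit 0, nat_lit 856091, [nat_lit 987948800, nat_lit 2613950934, nat_lit 3528432800], [], [nat_lit 25090697770, nat_lit 25597917976, nat_lit 27662615918, nat_lit 28149776140, nat_lit 25955189162, nat_lit 26393608272, nat_lit 28201064294, nat_lit 28613986061], nat_lit 1271250, nat_lit 1271250, nat_lit 1271250, nat_lit 1271250, nat_lit 490000, nat_lit 1427500, [nat_lit 230000, nat_lit 780000, nat_lit 1100000], [nat_lit 35, nat_lit 40, nat_lit 40, nat_lit 80, nat_lit 22, nat_lit 260, nat_lit 50, nat_lit 10]⟩, ⟨p102_k11, nat_lit 0, nat_lit 0, nat_lit 300, nat_lit 0, nat_lit 0, [nat_lit 7003872000, nat_lit 10435488000, nat_lit 12356982000], [], [nat_lit 29932411242, nat_lit 30472690686, nat_lit 35396051090, nat_lit 35458598242, nat_lit 22787618428, nat_lit 23105011884, nat_lit 26408745788, nat_lit 26458040020], nat_lit 0, nat_lit 0, nat_lit 0, nat_lit 0, nat_lit 0, nat_lit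 0, [], [nat_lit 62, nat_lit 40, nat_lit 40, nat_lit 80, nat_lit 58, nat_lit 401, nat_lit 175, nat_lit 9]⟩,
 ⟨nat_lit 2738, nat_lit 3163, ⟨.ofNat (nat_lit 516642), .ofNat (nat_lit 638549), .ofNat (nat_lit 560952), .ofNat (nat_lit 682859), .ofNat (nat_lit 514225), .ofNat (nat_lit 632348), .ofNat (nat_lit 559060), .ofNat (nat_lit 677182)⟩, ⟨.ofNat (nat_lit 139899), .ofNat (nat_lit 322759), .ofNat (nat_lit 184209), .ofNat (nat_lit 367069), .ofNat (nat_lit 143475), .ofNat (nat_lit 320659), .ofNat (nat_lit 188310), .ofNat (nat_lit 365494)⟩⟩, [⟨nat_lit 13, nat_lit 54, nat_lit 96, nat_lit 100, nat_lit 133831474⟩, ⟨nat_lit 4, nat_lit 100, nat_lit 57, nat_lit 73, nat_lit 449591156⟩]⟩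
noncomputable def p102_l79 : Lf2 := ⟨nat_lit 0, nat_lit 10, [nat_lit 0, nat_lit 5, nat_lit 5, nat_lit 20], false, nat_lit 80, nat_lit 200, nat_lit 160, nat_lit 384, ⟨nat_lit 724, nat_lit 0, nat_lit 276, nat_lit 6, nat_lit 239, nat_lit 276, nat_lit 102, nat_lit 276, nat_lit 96267, nat_lit 291, nat_lit 94468, nat_lit 200, nat_lit 45509003, nat_lit 0, nat_lit 0, nat_lit 4195341, false, true⟩,
 nat_lit 0, nat_lit 4815, nat_lit 0, nat_lit 0, nat_lit 4193, nat_lit 6361, nat_lit 124, nat_lit 0, nat_lit 0, nat_lit 0, nat_lit 0, nat_lit 0, nat_lit 0, nat_lit 0, nat_lit 0, nat_lit 276000, nat_lit 0, nat_lit 0, [(nat_lit 24, [(nat_lit 6, nat_lit 276)])],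
 ⟨p102_k8, nat_lit 0, nat_lit 0, nat_lit 354, nat_lit 0, nat_lit 856091, [nat_lit 1051932801, nat_lit 1758185600, nat_lit 2043036800], [], [nat_lit 23266613806, nat_lit 23743749217, nat_lit 26542473924, nat_lit 27303790090, nat_lit 24352823946, nat_lit 24783399339, nat_lit 27170949074, nat_lit 27818347411], nat_lit 1271250, nat_lit 1271250, nat_lit 1271250, nat_lit 1271250, nat_lit 490000, nat_lit 1427500, [nat_lit 230000, nat_lit 780000, nat_lit 1100000], [nat_lit 35, nat_lit 40, nat_lit 40, nat_lit 80, nat_lit 22, nat_lit 260, nat_lit 50, nat_lit 10]⟩, ⟨p102_k11, nat_lit 0, nat_lit 0, nat_lit 136, nat_lit 0, nat_lit 0, [nat_lit 5768832000, nat_lit 8595328000, nat_lit 10177992000], [], [nat_lit 10523980736, nat_lit 11612324980, nat_lit 15644489632, nat_lit 16306408740, nat_lit 21654318171, nat_lit 21790648614, nat_lit 24105757244, nat_lit 24146413160], nat_lit 0, nat_lit 0, nat_lit 0, nat_lit 0, nat_lit 0, nat_lit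 0, [], [nat_lit 62, nat_lit 40, nat_lit 40, nat_lit 80, nat_lit 58, nat_lit 483, nat_lit 250, nat_lit 11]⟩,
 ⟨nat_lit 2738, nat_lit 3163, ⟨.ofNat (nat_lit 516642), .ofNat (nat_lit 638549), .ofNat (nat_lit 560952), .ofNat (nat_lit 682859), .ofNat (nat_lit 514225), .ofNat (nat_lit 632348), .ofNat (nat_lit 559060), .ofNat (nat_lit 677182)⟩, ⟨.ofNat (nat_lit 139899), .ofNat (nat_lit 322759), .ofNat (nat_lit 184209), .ofNat (nat_lit 367069), .ofNat (nat_lit 143475), .ofNat (nat_lit 320659), .ofNat (nat_lit 188310), .ofNat (nat_lit 365494)⟩⟩, [⟨nat_lit 16, nat_lit 60, nat_lit 100, nat_lit 80, nat_lit 307949932⟩, ⟨nat_lit 19, nat_lit 100, nat_lit 44, nat_lit 82, nat_lit 442295061⟩]⟩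
noncomputable def p102_l80 : Lf2 := ⟨nat_lit 0, nat_lit 10, [nat_lit 0, nat_lit 5, nat_lit 5, nat_lit 20], false, nat_lit 80, nat_lit 184, nat_lit 0, nat_lit 384, ⟨nat_lit 350, nat_lit 375, nat_lit 275, nat_lit 6, nat_lit 224, nat_lit 650, nat_lit 97, nat_lit 275, nat_lit 88817, nat_lit 288, nat_lit 4534, nat_lit 210, nat_lit 47219862, nat_lit 15537754, nat_lit 4242384, nat_lit 4028025, false, true⟩,
 nat_lit 0, nat_lit 3718, nat_lit 0, nat_lit 0, nat_lit 3355, nat_lit 5160, nat_lit 435, nat_lit 0, nat_lit 0, nat_lit 365, nat_lit 0, nat_lit 0, nat_lit 0, nat_lit 0, nat_lit 0, nat_lit 162500, nat_lit 0, nat_lit 0, [(nat_lit 24, [(nat_lit 0, nat_lit 375), (nat_lit 4, nat_lit 275)])],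
 ⟨p102_k9, nat_lit 0, nat_lit 0, nat_lit 361, nat_lit 0, nat_lit 881122, [nat_lit 814260001, nat_lit 1543370000, nat_lit 1978890000], [], [nat_lit 22583517621, nat_lit 23129247821, nat_lit 24477151631, nat_lit 25212045376, nat_lit 23943069468, nat_lit 24423472268, nat_lit 25437422078, nat_lit 25928057828], nat_lit 1271250, nat_lit 1271250, nat_lit 1271250, nat_lit 1271250, nat_lit 490000, nat_lit 1302500, [nat_lit 230000, nat_lit 780000, nat_lit 1100000], [nat_lit 35, nat_lit 40, nat_lit 40, nat_lit 80, nat_lit 22, nat_lit 260, nat_lit 50, nat_lit 10]⟩, ⟨p102_k11, nat_lit 0, nat_lit 0, nat_lit 288, nat_lit 0, nat_lit 0, [nat_lit 2788800000, nat_lit 4155200000, nat_lit 4920300000], [], [nat_lit 13090237275, nat_lit 13173957715, nat_lit 14550482603, nat_lit 14562617199, nat_lit 12447453832, nat_lit 12317591732, nat_lit 12974095591, nat_lit 12930095172], nat_lit 0, nat_lit 0, nat_lit 0, nat_lit 0, nat_lit 0, nat_lit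 0, [], [nat_lit 62, nat_lit 40, nat_lit 40, nat_lit 80, nat_lit 58, nat_lit 456, nat_lit 225, nat_lit 11]⟩,
 ⟨nat_lit 2236, nat_lit 2739, ⟨.ofNat (nat_lit 514225), .ofNat (nat_lit 585099), .ofNat (nat_lit 536642), .ofNat (nat_lit 607516), .ofNat (nat_lit 511466), .ofNat (nat_lit 579884), .ofNat (nat_lit 534240), .ofNat (nat_lit 602658)⟩, ⟨.ofNat (nat_lit 143475), .ofNat (nat_lit 297035), .ofNat (nat_lit 188310), .ofNat (nat_lit 341870), .ofNat (nat_lit 146758), .ofNat (nat_lit 294998), .ofNat (nat_lit 192306), .ofNat (nat_lit 340547)⟩⟩, [⟨nat_lit 13, nat_lit 44, nat_lit 99, nat_lit 100, nat_lit 173007975⟩, ⟨nat_lit 4, nat_lit 100, nat_lit 50, nat_lit 74, nat_lit 420160058⟩, ⟨nat_lit 22, nat_lit 100, nat_lit 66, nat_lit 99, nat_lit 50308077⟩]⟩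
noncomputable def p102_l81 : Lf2 := ⟨nat_lit 0, nat_lit 10, [nat_lit 0, nat_lit 5, nat_lit 5, nat_lit 20], false, nat_lit 80, nat_lit 184, nat_lit 0, nat_lit 372, ⟨nat_lit 728, nat_lit 0, nat_lit 272, nat_lit 6, nat_lit 238, nat_lit 272, nat_lit 97, nat_lit 272, nat_lit 88817, nat_lit 288, nat_lit 47678, nat_lit 200, nat_lit 45804377, nat_lit 0, nat_lit 0, nat_lit 4136769, true, true⟩,
 nat_lit 0, nat_lit 4332, nat_lit 0, nat_lit 0, nat_lit 3909, nat_lit 9465, nat_lit 264, nat_lit 0, nat_lit 0, nat_lit 767, nat_lit 0, nat_lit 0, nat_lit 0, nat_lit 0, nat_lit 0, nat_lit 68000, nat_lit 0, nat_lit 0, [(nat_lit 24, [(nat_lit 4, nat_lit 272)])],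
 ⟨p102_k9, nat_lit 0, nat_lit 0, nat_lit 367, nat_lit 0, nat_lit 894249, [nat_lit 880444801, nat_lit 2272553600, nat_lit 3114643200], [], [nat_lit 22985349288, nat_lit 23788052232, nat_lit 26250719504, nat_lit 27007489043, nat_lit 24040813586, nat_lit 24521607712, nat_lit 26685931685, nat_lit 27346997669], nat_lit 1271250, nat_lit 1271250, nat_lit 1271250, nat_lit 1271250, nat_lit 490000, nat_lit 1302500, [nat_lit 230000, nat_lit 780000, nat_lit 1100000], [nat_lit 35, nat_lit 40, nat_lit 40, nat_lit 80, nat_lit 22, nat_lit 260, nat_lit 50, nat_lit 10]⟩, ⟨p102_k12, nat_lit 0, nat_lit 0, nat_lit 289, nat_lit 0, nat_lit 0, [nat_lit 5800704000, nat_lit 8642816000, nat_lit 10234224000], [], [nat_lit 25569331360, nat_lit 25766145746, nat_lit 29581292972, nat_lit 29584303387, nat_lit 23950555484, nat_lit 23780108476, nat_lit 25675966705, nat_lit 25629191290], nat_lit 0, nat_lit 0, nat_lit 0, nat_lit 0, nat_lit 0, nat_lit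 0, [], [nat_lit 62, nat_lit 40, nat_lit 40, nat_lit 80, nat_lit 58, nat_lit 456, nat_lit 225, nat_lit 10]⟩,
 ⟨nat_lit 2236, nat_lit 2739, ⟨.ofNat (nat_lit 536642), .ofNat (nat_lit 637047), .ofNat (nat_lit 559060), .ofNat (nat_lit 659464), .ofNat (nat_lit 534240), .ofNat (nat_lit 631166), .ofNat (nat_lit 557014), .ofNat (nat_lit 653941)⟩, ⟨.ofNat (nat_lit 143475), .ofNat (nat_lit 297035), .ofNat (nat_lit 188310), .ofNat (nat_lit 341870), .ofNat (nat_lit 146758), .ofNat (nat_lit 294998), .ofNat (nat_lit 192306), .ofNat (nat_lit 340547)⟩⟩, [⟨nat_lit 16, nat_lit 53, nat_lit 100, nat_lit 80, nat_lit 334647447⟩, ⟨nat_lit 19, nat_lit 100, nat_lit 52, nat_lit 80, nat_lit 114719248⟩]⟩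
noncomputable def b_V_900_400_10_1 : St := ⟨true, nat_lit 1, nat_lit 0, nat_lit 1, nat_lit 80, nat_lit 360, nat_lit 380, nat_lit 160, nat_lit 200, nat_lit 48, nat_lit 320, nat_lit 40, nat_lit 80, nat_lit 0, nat_lit 200, nat_lit 0, nat_lit 384, nat_lit 0, nat_lit 40, nat_lit 0, nat_lit 0, nat_lit 0, nat_lit 0⟩
theorem d_V_900_400_10_1 (h : EB TB.env) : Dead b_V_900_400_10_1 := chkB_sound0 h (T :=
(.spl (nat_lit 2) (nat_lit 160)
(.spl (nat_lit 4) (nat_lit 80)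
(.spl (nat_lit 0) (nat_lit 370)
(.leaf p102_l68)
(.trZ (nat_lit 0) (nat_lit 100) (nat_lit 54) (nat_lit 74) (nat_lit 60) (.spl (nat_lit 0) (nat_lit 375)
(.leaf p102_l69)
(.trZ (nat_lit 0) (nat_lit 100) (nat_lit 49) (nat_lit 78) (nat_lit 68) (.leaf p102_l70)))))
(.spl (nat_lit 0) (nat_lit 370)
(.leaf p102_l71)
(.trZ (nat_lit 0) (nat_lit 100) (nat_lit 54) (nat_lit 74) (nat_lit 60) (.trX (nat_lit 16) (nat_lit 53) (nat_lit 100) (nat_lit 80) (nat_lit 184) (.leaf p102_l72)))))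
(.spl (nat_lit 4) (nat_lit 80)
(.spl (nat_lit 2) (nat_lit 240)
(.spl (nat_lit 3) (nat_lit 60)
(.trX (nat_lit 19) (nat_lit 100) (nat_lit 55) (nat_lit 73) (nat_lit 368) (.leaf p102_l73))
(.leaf p102_l74))
(.trX (nat_lit 22) (nat_lit 100) (nat_lit 76) (nat_lit 82) (nat_lit 336) (.leaf p102_l75)))
(.spl (nat_lit 2) (nat_lit 240)
(.spl (nat_lit 3) (nat_lit 60)
(.trX (nat_lit 16) (nat_lit 61) (nat_lit 100) (nat_lit 72) (nat_lit 176) (.trX (nat_lit 19) (nat_lit 100) (nat_lit 55) (nat_lit 73) (nat_lit 368) (.leaf p102_l76)))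
(.leaf p102_l77))
(.spl (nat_lit 0) (nat_lit 370)
(.spl (nat_lit 5) (nat_lit 160)
(.leaf p102_l78)
(.leaf p102_l79))
(.trX (nat_lit 13) (nat_lit 53) (nat_lit 85) (nat_lit 100) (nat_lit 308) (.trX (nat_lit 16) (nat_lit 53) (nat_lit 100) (nat_lit 80) (nat_lit 184) (.spl (nat_lit 1) (nat_lit 180)
(.trX (nat_lit 13) (nat_lit 53) (nat_lit 90) (nat_lit 100) (nat_lit 288) (.leaf p102_l80))
(.trX (nat_lit 19) (nat_lit 100) (nat_lit 52) (nat_lit 80) (nat_lit 372) (.leaf p102_l81)))))))))) (by decide +kernel)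
noncomputable def p102_l82 : Lf2 := ⟨nat_lit 0, nat_lit 10, [nat_lit 0, nat_lit 5, nat_lit 5, nat_lit 20], true, nat_lit 0, nat_lit 164, nat_lit 0, nat_lit 384, ⟨nat_lit 0, nat_lit 0, nat_lit 1000, nat_lit 4, nat_lit 145, nat_lit 1000, nat_lit 58, nat_lit 1000, nat_lit 30817, nat_lit 258, nat_lit 198017, nat_lit 324, nat_lit 59222865, nat_lit 0, nat_lit 0, nat_lit 1795169, false, false⟩,
 nat_lit 0, nat_lit 2771, nat_lit 0, nat_lit 0, nat_lit 2589, nat_lit 0, nat_lit 0, nat_lit 0, nat_lit 0, nat_lit 0, nat_lit 0, nat_lit 0, nat_lit 0, nat_lit 0, nat_lit 291, nat_lit 759400, nat_lit 0, nat_lit 0, [(nat_lit 27, [(nat_lit 5, nat_lit 401), (nat_lit 6, nat_lit 599)])],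
 ⟨p102_k13, nat_lit 0, nat_lit 0, nat_lit 419, nat_lit 0, nat_lit 961951, [nat_lit 1724693601, nat_lit 7598133], [], [nat_lit 21002719540, nat_lit 21964877116, nat_lit 21930123515, nat_lit 22512552267, nat_lit 22169719916, nat_lit 22712341785, nat_lit 23371732476, nat_lit 23864747832], nat_lit 1271250, nat_lit 1271250, nat_lit 462650, nat_lit 1100001, nat_lit 0, nat_lit 1133651, [nat_lit 230000, nat_lit 780000], [nat_lit 66, nat_lit 40, nat_lit 40, nat_lit 80, nat_lit 67, nat_lit 317, nat_lit 100, nat_lit 19]⟩, C1.Rw.none,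
 ⟨nat_lit 1581, nat_lit 2237, ⟨.ofNat (nat_lit 277529), .ofNat (nat_lit 397434), .ofNat (nat_lit 322986), .ofNat (nat_lit 442898), .ofNat (nat_lit 283825), .ofNat (nat_lit 398733), .ofNat (nat_lit 330363), .ofNat (nat_lit 445278)⟩, ⟨.ofNat (nat_lit 0), .ofNat (nat_lit 266490), .ofNat (nat_lit 0), .ofNat (nat_lit 312039), .ofNat (nat_lit 0), .ofNat (nat_lit 264306), .ofNat (nat_lit 0), .ofNat (nat_lit 310936)⟩⟩, [⟨nat_lit 4, nat_lit 100, nat_lit 41, nat_lit 77, nat_lit 57045313⟩]⟩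
noncomputable def p102_l83 : Lf2 := ⟨nat_lit 0, nat_lit 10, [nat_lit 0, nat_lit 5, nat_lit 5, nat_lit 20], true, nat_lit 8, nat_lit 136, nat_lit 0, nat_lit 384, ⟨nat_lit 0, nat_lit 0, nat_lit 1000, nat_lit 4, nat_lit 153, nat_lit 1000, nat_lit 53, nat_lit 1000, nat_lit 26667, nat_lit 255, nat_lit 220417, nat_lit 330, nat_lit 56542906, nat_lit 0, nat_lit 0, nat_lit 2628807, false, false⟩,
 nat_lit 0, nat_lit 2763, nat_lit 0, nat_lit 0, nat_lit 2671, nat_lit 0, nat_lit 0, nat_lit 0, nat_lit 0, nat_lit 0, nat_lit 0, nat_lit 0, nat_lit 0, nat_lit 0, nat_lit 287, nat_lit 748600, nat_lit 0, nat_lit 0, [(nat_lit 27, [(nat_lit 5, nat_lit 419), (nat_lit 6, nat_lit 581)])],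
 ⟨p102_k14, nat_lit 0, nat_lit 0, nat_lit 427, nat_lit 0, nat_lit 1008432, [nat_lit 1709658400, nat_lit 9004534], [], [nat_lit 21904196234, nat_lit 22852905319, nat_lit 22620822498, nat_lit 23245664722, nat_lit 22600085397, nat_lit 23138151244, nat_lit 23505829607, nat_lit 24006963460], nat_lit 1271250, nat_lit 1271250, nat_lit 631250, nat_lit 1100001, nat_lit 43600, nat_lit 904401, [nat_lit 230000, nat_lit 780000], [nat_lit 66, nat_lit 40, nat_lit 40, nat_lit 80, nat_lit 67, nat_lit 289, nat_lit 75, nat_lit 17]⟩, C1.Rw.none,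
 ⟨nat_lit 0, nat_lit 1582, ⟨.ofNat (nat_lit 314816), .ofNat (nat_lit 398733), .ofNat (nat_lit 360133), .ofNat (nat_lit 444052), .ofNat (nat_lit 323036), .ofNat (nat_lit 399999), .ofNat (nat_lit 371722), .ofNat (nat_lit 448688)⟩, ⟨.ofNat (nat_lit 20000), .ofNat (nat_lit 226057), .ofNat (nat_lit 20000), .ofNat (nat_lit 272689), .ofNat (nat_lit 20000), .ofNat (nat_lit 219995), .ofNat (nat_lit 20000), .ofNat (nat_lit 269997)⟩⟩, [⟨nat_lit 0, nat_lit 100, nat_lit 22, nat_lit 95, nat_lit 369288918⟩, ⟨nat_lit 4, nat_lit 100, nat_lit 26, nat_lit 84, nat_lit 42134218⟩]⟩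
noncomputable def p102_l84 : Lf2 := ⟨nat_lit 0, nat_lit 10, [nat_lit 0, nat_lit 5, nat_lit 5, nat_lit 20], false, nat_lit 0, nat_lit 80, nat_lit 0, nat_lit 384, ⟨nat_lit 266, nat_lit 0, nat_lit 734, nat_lit 4, nat_lit 191, nat_lit 734, nat_lit 34, nat_lit 734, nat_lit 11267, nat_lit 241, nat_lit 4313, nat_lit 229, nat_lit 54576858, nat_lit 0, nat_lit 0, nat_lit 2397565, false, true⟩,
 nat_lit 0, nat_lit 2998, nat_lit 0, nat_lit 0, nat_lit 2801, nat_lit 4410, nat_lit 0, nat_lit 0, nat_lit 0, nat_lit 328, nat_lit 0, nat_lit 0, nat_lit 0, nat_lit 0, nat_lit 94, nat_lit 437600, nat_lit 0, nat_lit 0, [(nat_lit 27, [(nat_lit 5, nat_lit 494), (nat_lit 6, nat_lit 240)])],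
 ⟨p102_k13, nat_lit 0, nat_lit 0, nat_lit 373, nat_lit 0, nat_lit 916599, [nat_lit 1047759201, nat_lit 10440800], [], [nat_lit 22203220988, nat_lit 22514432087, nat_lit 24383005230, nat_lit 24658483323, nat_lit 22232422236, nat_lit 22522517075, nat_lit 24305043076, nat_lit 24562662625], nat_lit 1271250, nat_lit 1271250, nat_lit 1100001, nat_lit 1785000, nat_lit 0, nat_lit 490000, [nat_lit 230000, nat_lit 780000], [nat_lit 66, nat_lit 40, nat_lit 40, nat_lit 80, nat_lit 67, nat_lit 226, nat_lit 20, nat_lit 12]⟩, ⟨p102_k11, nat_lit 0, nat_lit 0, nat_lit 278, nat_lit 0, nat_lit 0, [nat_lit 2119488000, nat_lit 3157952000, nat_lit 3739428000], [], [nat_lit 9078887848, nat_lit 9335304512, nat_lit 9974774728, nat_lit 10084558752, nat_lit 9410637168, nat_lit 9237121477, nat_lit 9326006536, nat_lit 9319307245], nat_lit 0, nat_lit 0, nat_lit 0, nat_lit 0, nat_lit 0, nat_lit 0, [], [nat_lit 62, nat_lit 40, nat_lit 40, nat_lit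 80, nat_lit 58, nat_lit 456, nat_lit 225, nat_lit 11]⟩,
 ⟨nat_lit 1936, nat_lit 2237, ⟨.ofNat (nat_lit 397434), .ofNat (nat_lit 511466), .ofNat (nat_lit 442968), .ofNat (nat_lit 557014), .ofNat (nat_lit 398088), .ofNat (nat_lit 509866), .ofNat (nat_lit 444094), .ofNat (nat_lit 555888)⟩, ⟨.ofNat (nat_lit 0), .ofNat (nat_lit 146758), .ofNat (nat_lit 0), .ofNat (nat_lit 192306), .ofNat (nat_lit 0), .ofNat (nat_lit 148244), .ofNat (nat_lit 0), .ofNat (nat_lit 194266)⟩⟩, [⟨nat_lit 19, nat_lit 100, nat_lit 63, nat_lit 72, nat_lit 54047298⟩, ⟨nat_lit 22, nat_lit 100, nat_lit 80, nat_lit 60, nat_lit 10055289⟩]⟩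
noncomputable def p102_l85 : Lf2 := ⟨nat_lit 0, nat_lit 10, [nat_lit 0, nat_lit 5, nat_lit 5, nat_lit 20], false, nat_lit 4, nat_lit 80, nat_lit 0, nat_lit 384, ⟨nat_lit 262, nat_lit 0, nat_lit 738, nat_lit 4, nat_lit 191, nat_lit 738, nat_lit 36, nat_lit 738, nat_lit 12150, nat_lit 242, nat_lit 7293, nat_lit 230, nat_lit 53588605, nat_lit 0, nat_lit 0, nat_lit 2849064, false, true⟩,
 nat_lit 0, nat_lit 2942, nat_lit 0, nat_lit 0, nat_lit 2796, nat_lit 4349, nat_lit 0, nat_lit 0, nat_lit 0, nat_lit 324, nat_lit 0, nat_lit 0, nat_lit 0, nat_lit 0, nat_lit 90, nat_lit 424800, nat_lit 0, nat_lit 0, [(nat_lit 27, [(nat_lit 5, nat_lit 522), (nat_lit 6, nat_lit 216)])],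
 ⟨p102_k15, nat_lit 0, nat_lit 0, nat_lit 379, nat_lit 0, nat_lit 941138, [nat_lit 1031664800, nat_lit 10845600], [], [nat_lit 22533273338, nat_lit 22843173321, nat_lit 24671722854, nat_lit 24946095541, nat_lit 22543233658, nat_lit 22833095804, nat_lit 24583043958, nat_lit 24840469764], nat_lit 1271250, nat_lit 1271250, nat_lit 1100001, nat_lit 1785000, nat_lit 21650, nat_lit 490000, [nat_lit 230000, nat_lit 780000], [nat_lit 66, nat_lit 40, nat_lit 40, nat_lit 80, nat_lit 67, nat_lit 226, nat_lit 20, nat_lit 12]⟩, ⟨p102_k11, nat_lit 0, nat_lit 0, nat_lit 278, nat_lit 0, nat_lit 0, [nat_lit 2087616000, nat_lit 3110464000, nat_lit 3683196000], [], [nat_lit 8940350884, nat_lit 9192878424, nat_lit 9823139736, nat_lit 9931082716, nat_lit 9266694012, nat_lit 9096939960, nat_lit 9184306733, nat_lit 9183354615], nat_lit 0, nat_lit 0, nat_lit 0, nat_lit 0, nat_lit 0, nat_lit 0, [], [nat_lit 62, nat_lit 40, nat_lit 40,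 nat_lit 80, nat_lit 58, nat_lit 456, nat_lit 225, nat_lit 11]⟩,
 ⟨nat_lit 1581, nat_lit 1937, ⟨.ofNat (nat_lit 398088), .ofNat (nat_lit 509866), .ofNat (nat_lit 444083), .ofNat (nat_lit 555888), .ofNat (nat_lit 398733), .ofNat (nat_lit 508004), .ofNat (nat_lit 445336), .ofNat (nat_lit 554634)⟩, ⟨.ofNat (nat_lit 10000), .ofNat (nat_lit 148244), .ofNat (nat_lit 10000), .ofNat (nat_lit 194266), .ofNat (nat_lit 10000), .ofNat (nat_lit 149571), .ofNat (nat_lit 10000), .ofNat (nat_lit 196201)⟩⟩, [⟨nat_lit 7, nat_lit 63, nat_lit 100, nat_lit 72, nat_lit 50377542⟩, ⟨nat_lit 22, nat_lit 100, nat_lit 79, nat_lit 61, nat_lit 13202072⟩]⟩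
noncomputable def p102_l86 : Lf2 := ⟨nat_lit 0, nat_lit 10, [nat_lit 0, nat_lit 5, nat_lit 5, nat_lit 20], false, nat_lit 8, nat_lit 80, nat_lit 0, nat_lit 384, ⟨nat_lit 249, nat_lit 0, nat_lit 751, nat_lit 4, nat_lit 191, nat_lit 751, nat_lit 39, nat_lit 751, nat_lit 14017, nat_lit 244, nat_lit 4409, nat_lit 230, nat_lit 53506293, nat_lit 0, nat_lit 0, nat_lit 2880872, false, true⟩,
 nat_lit 0, nat_lit 2883, nat_lit 0, nat_lit 0, nat_lit 2787, nat_lit 4142, nat_lit 0, nat_lit 0, nat_lit 0, nat_lit 291, nat_lit 0, nat_lit 0, nat_lit 0, nat_lit 0, nat_lit 99, nat_lit 439000, nat_lit 0, nat_lit 0, [(nat_lit 27, [(nat_lit 5, nat_lit 520), (nat_lit 6, nat_lit 231)])],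
 ⟨p102_k14, nat_lit 0, nat_lit 0, nat_lit 381, nat_lit 0, nat_lit 947163, [nat_lit 1062373200, nat_lit 10181200], [], [nat_lit 22803884591, nat_lit 22988917366, nat_lit 24901129830, nat_lit 25064989866, nat_lit 22798263313, nat_lit 22971929293, nat_lit 24805103933, nat_lit 24959350175], nat_lit 1271250, nat_lit 1271250, nat_lit 1100001, nat_lit 1785000, nat_lit 43600, nat_lit 490000, [nat_lit 230000, nat_lit 780000], [nat_lit 66, nat_lit 40, nat_lit 40, nat_lit 80, nat_lit 67, nat_lit 226, nat_lit 20, nat_lit 12]⟩, ⟨p102_k11, nat_lit 0, nat_lit 0, nat_lit 278, nat_lit 0, nat_lit 0, [nat_lit 1984032000, nat_lit 2956128000, nat_lit 3500442000], [], [nat_lit 8586495021, nat_lit 8826437613, nat_lit 9426099737, nat_lit 9528372329, nat_lit 8890405161, nat_lit 8643452737, nat_lit 8734762175, nat_lit 8734616058], nat_lit 0, nat_lit 0, nat_lit 0, nat_lit 0, nat_lit 0, nat_lit 0, [], [nat_lit 62, nat_lit 40, nat_lit 40,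 nat_lit 80, nat_lit 58, nat_lit 456, nat_lit 225, nat_lit 11]⟩,
 ⟨nat_lit 1322, nat_lit 1582, ⟨.ofNat (nat_lit 398733), .ofNat (nat_lit 508004), .ofNat (nat_lit 445345), .ofNat (nat_lit 554634), .ofNat (nat_lit 399116), .ofNat (nat_lit 506671), .ofNat (nat_lit 446203), .ofNat (nat_lit 553776)⟩, ⟨.ofNat (nat_lit 20000), .ofNat (nat_lit 149571), .ofNat (nat_lit 20000), .ofNat (nat_lit 196201), .ofNat (nat_lit 20000), .ofNat (nat_lit 150245), .ofNat (nat_lit 20000), .ofNat (nat_lit 197350)⟩⟩, [⟨nat_lit 19, nat_lit 100, nat_lit 63, nat_lit 72, nat_lit 42569075⟩, ⟨nat_lit 22, nat_lit 100, nat_lit 78, nat_lit 63, nat_lit 16590650⟩]⟩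
noncomputable def p102_l87 : Lf2 := ⟨nat_lit 0, nat_lit 10, [nat_lit 0, nat_lit 5, nat_lit 5, nat_lit 20], false, nat_lit 12, nat_lit 80, nat_lit 0, nat_lit 384, ⟨nat_lit 252, nat_lit 0, nat_lit 748, nat_lit 4, nat_lit 191, nat_lit 748, nat_lit 41, nat_lit 748, nat_lit 16017, nat_lit 246, nat_lit 7973, nat_lit 231, nat_lit 53423772, nat_lit 0, nat_lit 0, nat_lit 2911481, false, true⟩,
 nat_lit 0, nat_lit 2853, nat_lit 0, nat_lit 0, nat_lit 2786, nat_lit 4191, nat_lit 0, nat_lit 0, nat_lit 0, nat_lit 295, nat_lit 0, nat_lit 0, nat_lit 0, nat_lit 0, nat_lit 43, nat_lit 435400, nat_lit 0, nat_lit 0, [(nat_lit 27, [(nat_lit 5, nat_lit 521), (nat_lit 6, nat_lit 227)])],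
 ⟨p102_k16, nat_lit 0, nat_lit 0, nat_lit 330, nat_lit 0, nat_lit 952350, [nat_lit 835264800, nat_lit 4612800], [], [nat_lit 22948374763, nat_lit 23071288720, nat_lit 25019455958, nat_lit 25128323074, nat_lit 22932744871, nat_lit 23048503575, nat_lit 24920111167, nat_lit 25022926495], nat_lit 1271250, nat_lit 1271250, nat_lit 1100001, nat_lit 1785000, nat_lit 65850, nat_lit 490000, [nat_lit 230000, nat_lit 490000], [nat_lit 193, nat_lit 40, nat_lit 40, nat_lit 80, nat_lit 5, nat_lit 226, nat_lit 20, nat_lit 17]⟩, ⟨p102_k11, nat_lit 0, nat_lit 0, nat_lit 278, nat_lit 0, nat_lit 0, [nat_lit 2007936000, nat_lit 2991744000, nat_lit 3542616000], [], [nat_lit 8687000033, nat_lit 8929839149, nat_lit 9536656901, nat_lit 9640194017, nat_lit 8995005015, nat_lit 8747807869, nat_lit 8839235552, nat_lit 8839140605], nat_lit 0, nat_lit 0, nat_lit 0, nat_lit 0, nat_lit 0, nat_lit 0, [], [nat_lit 62, nat_lit 40, nat_lit 40, nat_lit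 80, nat_lit 58, nat_lit 456, nat_lit 225, nat_lit 11]⟩,
 ⟨nat_lit 1118, nat_lit 1323, ⟨.ofNat (nat_lit 399116), .ofNat (nat_lit 506671), .ofNat (nat_lit 446208), .ofNat (nat_lit 553776), .ofNat (nat_lit 399370), .ofNat (nat_lit 505624), .ofNat (nat_lit 446859), .ofNat (nat_lit 553126)⟩, ⟨.ofNat (nat_lit 30000), .ofNat (nat_lit 150245), .ofNat (nat_lit 30000), .ofNat (nat_lit 197350), .ofNat (nat_lit 30000), .ofNat (nat_lit 150610), .ofNat (nat_lit 30000), .ofNat (nat_lit 198112)⟩⟩, [⟨nat_lit 7, nat_lit 63, nat_lit 100, nat_lit 72, nat_lit 45407468⟩, ⟨nat_lit 22, nat_lit 100, nat_lit 77, nat_lit 64, nat_lit 13901498⟩]⟩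
noncomputable def p102_l88 : Lf2 := ⟨nat_lit 0, nat_lit 10, [nat_lit 0, nat_lit 5, nat_lit 5, nat_lit 20], false, nat_lit 16, nat_lit 80, nat_lit 0, nat_lit 384, ⟨nat_lit 184, nat_lit 0, nat_lit 816, nat_lit 4, nat_lit 190, nat_lit 816, nat_lit 43, nat_lit 816, nat_lit 17067, nat_lit 247, nat_lit 6467, nat_lit 231, nat_lit 53370462, nat_lit 0, nat_lit 0, nat_lit 2938423, false, true⟩,
 nat_lit 0, nat_lit 2878, nat_lit 0, nat_lit 0, nat_lit 2830, nat_lit 2260, nat_lit 0, nat_lit 0, nat_lit 0, nat_lit 423, nat_lit 0, nat_lit 0, nat_lit 0, nat_lit 0, nat_lit 29, nat_lit 326400, nat_lit 0, nat_lit 0, [(nat_lit 27, [(nat_lit 5, nat_lit 816)])],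
 ⟨p102_k17, nat_lit 0, nat_lit 0, nat_lit 339, nat_lit 0, nat_lit 987135, [nat_lit 772316801, nat_lit 742400], [], [nat_lit 23242950288, nat_lit 23541900063, nat_lit 25259808827, nat_lit 25524924031, nat_lit 23236814740, nat_lit 23519292735, nat_lit 25174183655, nat_lit 25425336735], nat_lit 1271250, nat_lit 1271250, nat_lit 1100001, nat_lit 1785000, nat_lit 88400, nat_lit 490000, [nat_lit 230000, nat_lit 490000], [nat_lit 193, nat_lit 40, nat_lit 40, nat_lit 80, nat_lit 5, nat_lit 226, nat_lit 20, nat_lit 17]⟩, ⟨p102_k18, nat_lit 0, nat_lit 0, nat_lit 253, nat_lit 0, nat_lit 0, [nat_lit 1466112000, nat_lit 1810928000, nat_lit 2586672000], [], [nat_lit 5412800167, nat_lit 5595113463, nat_lit 5976899447, nat_lit 6081118983, nat_lit 6021330679, nat_lit 5925956647, nat_lit 5962063921, nat_lit 5832021585], nat_lit 0, nat_lit 0, nat_lit 0, nat_lit 0, nat_lit 0, nat_lit 0, [], [nat_lit 92, nat_lit 40, nat_lit 40, nat_lit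 80, nat_lit 32, nat_lit 456, nat_lit 225, nat_lit 11]⟩,
 ⟨nat_lit 0, nat_lit 1119, ⟨.ofNat (nat_lit 399370), .ofNat (nat_lit 505620), .ofNat (nat_lit 445943), .ofNat (nat_lit 553124), .ofNat (nat_lit 399999), .ofNat (nat_lit 499995), .ofNat (nat_lit 449070), .ofNat (nat_lit 549997)⟩, ⟨.ofNat (nat_lit 40000), .ofNat (nat_lit 150608), .ofNat (nat_lit 40000), .ofNat (nat_lit 198112), .ofNat (nat_lit 40000), .ofNat (nat_lit 149997), .ofNat (nat_lit 40000), .ofNat (nat_lit 199999)⟩⟩, [⟨nat_lit 4, nat_lit 100, nat_lit 19, nat_lit 88, nat_lit 82269136⟩, ⟨nat_lit 19, nat_lit 100, nat_lit 63, nat_lit 72, nat_lit 8596417⟩, ⟨nat_lit 22, nat_lit 100, nat_lit 76, nat_lit 65, nat_lit 42195217⟩]⟩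
noncomputable def p102_l89 : Lf2 := ⟨nat_lit 0, nat_lit 10, [nat_lit 0, nat_lit 5, nat_lit 5, nat_lit 20], false, nat_lit 0, nat_lit 80, nat_lit 0, nat_lit 336, ⟨nat_lit 1000, nat_lit 0, nat_lit 0, nat_lit 0, nat_lit 0, nat_lit 0, nat_lit 0, nat_lit 0, nat_lit 0, nat_lit 0, nat_lit 0, nat_lit 0, nat_lit 0, nat_lit 0, nat_lit 0, nat_lit 0, false, false⟩,
 nat_lit 0, nat_lit 4521, nat_lit 0, nat_lit 0, nat_lit 4224, nat_lit 21808, nat_lit 0, nat_lit 0, nat_lit 0, nat_lit 1379, nat_lit 0, nat_lit 0, nat_lit 0, nat_lit 0, nat_lit 0, nat_lit 0, nat_lit 0, nat_lit 0, [],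
 ⟨p102_k13, nat_lit 0, nat_lit 0, nat_lit 429, nat_lit 0, nat_lit 1053245, [nat_lit 938000000, nat_lit 3282000000], [], [nat_lit 27443757200, nat_lit 29391321408, nat_lit 29735735837, nat_lit 31475528256, nat_lit 25416269568, nat_lit 26458684800, nat_lit 26878146020, nat_lit 28228731796], nat_lit 1271250, nat_lit 1271250, nat_lit 1271250, nat_lit 1271250, nat_lit 0, nat_lit 490000, [nat_lit 230000, nat_lit 780000], [nat_lit 66, nat_lit 40, nat_lit 40, nat_lit 80, nat_lit 67, nat_lit 226, nat_lit 20, nat_lit 11]⟩, ⟨p102_k11, nat_lit 0, nat_lit 0, nat_lit 288, nat_lit 0, nat_lit 0, [nat_lit 7968000000, nat_lit 11872000000, nat_lit 14058000000], [], [nat_lit 39774841005, nat_lit 40000509229, nat_lit 45259821012, nat_lit 44901121293, nat_lit 27047683021, nat_lit 27420378695, nat_lit 33011733615, nat_lit 33100334439], nat_lit 0, nat_lit 0, nat_lit 0, nat_lit 0, nat_lit 0, nat_lit 0, [], [nat_lit 62, nat_lit 40, nat_lit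 40, nat_lit 80, nat_lit 58, nat_lit 456, nat_lit 225, nat_lit 11]⟩,
 zbF0, [⟨nat_lit 13, nat_lit 31, nat_lit 98, nat_lit 100, nat_lit 597833568⟩, ⟨nat_lit 13, nat_lit 44, nat_lit 90, nat_lit 100, nat_lit 403036130⟩]⟩
noncomputable def p102_l90 : Lf2 := ⟨nat_lit 0, nat_lit 10, [nat_lit 0, nat_lit 5, nat_lit 5, nat_lit 20], false, nat_lit 80, nat_lit 164, nat_lit 0, nat_lit 384, ⟨nat_lit 252, nat_lit 25, nat_lit 723, nat_lit 4, nat_lit 195, nat_lit 748, nat_lit 92, nat_lit 722, nat_lit 79350, nat_lit 284, nat_lit 4425, nat_lit 220, nat_lit 50263372, nat_lit 12761148, nat_lit 3975480, nat_lit 3701921, false, true⟩,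
 nat_lit 0, nat_lit 3165, nat_lit 0, nat_lit 0, nat_lit 2957, nat_lit 3873, nat_lit 0, nat_lit 0, nat_lit 0, nat_lit 293, nat_lit 0, nat_lit 0, nat_lit 0, nat_lit 0, nat_lit 118, nat_lit 500200, nat_lit 0, nat_lit 0, [(nat_lit 27, [(nat_lit 1, nat_lit 25), (nat_lit 5, nat_lit 388), (nat_lit 6, nat_lit 335)])],
 ⟨p102_k13, nat_lit 0, nat_lit 0, nat_lit 333, nat_lit 0, nat_lit 930399, [nat_lit 1136454400, nat_lit 8447600], [], [nat_lit 20987013854, nat_lit 21600683909, nat_lit 24166144836, nat_lit 24680405417, nat_lit 22227492213, nat_lit 22781604330, nat_lit 25112196128, nat_lit 25579352024], nat_lit 1271250, nat_lit 1271250, nat_lit 1100001, nat_lit 2059000, nat_lit 490000, nat_lit 1133651, [nat_lit 230000, nat_lit 780000], [nat_lit 66, nat_lit 40, nat_lit 40, nat_lit 80, nat_lit 67, nat_lit 260, nat_lit 50, nat_lit 14]⟩, ⟨p102_k11, nat_lit 0, nat_lit 0, nat_lit 283, nat_lit 0, nat_lit 0, [nat_lit 2007936000, nat_lit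 2991744000, nat_lit 3542616000], [], [nat_lit 8536328467, nat_lit 8658742093, nat_lit 10053346361, nat_lit 10075804115, nat_lit 8996811396, nat_lit 8891810749, nat_lit 9158514997, nat_lit 9136926535], nat_lit 0, nat_lit 0, nat_lit 0, nat_lit 0, nat_lit 0, nat_lit 0, [], [nat_lit 62, nat_lit 40, nat_lit 40, nat_lit 80, nat_lit 58, nat_lit 456, nat_lit 225, nat_lit 11]⟩,
 ⟨nat_lit 1581, nat_lit 2237, ⟨.ofNat (nat_lit 397434), .ofNat (nat_lit 557078), .ofNat (nat_lit 420170), .ofNat (nat_lit 579852), .ofNat (nat_lit 398733), .ofNat (nat_lit 551713), .ofNat (nat_lit 422009), .ofNat (nat_lit 575028)⟩, ⟨.ofNat (nat_lit 146758), .ofNat (nat_lit 266490), .ofNat (nat_lit 192306), .ofNat (nat_lit 312039), .ofNat (nat_lit 149571), .ofNat (nat_lit 264306), .ofNat (nat_lit 196201), .ofNat (nat_lit 310936)⟩⟩, [⟨nat_lit 13, nat_lit 31, nat_lit 100, nat_lit 99, nat_lit 136263616⟩, ⟨nat_lit 4, nat_lit 100, nat_lit 41, nat_lit 77,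 nat_lit 370481014⟩, ⟨nat_lit 7, nat_lit 59, nat_lit 100, nat_lit 72, nat_lit 54194256⟩]⟩
noncomputable def p102_l91 : Lf2 := ⟨nat_lit 0, nat_lit 10, [nat_lit 0, nat_lit 5, nat_lit 5, nat_lit 20], false, nat_lit 80, nat_lit 164, nat_lit 0, nat_lit 372, ⟨nat_lit 372, nat_lit 43, nat_lit 585, nat_lit 4, nat_lit 209, nat_lit 628, nat_lit 92, nat_lit 585, nat_lit 79350, nat_lit 284, nat_lit 4634, nat_lit 204, nat_lit 48947676, nat_lit 14107445, nat_lit 3944879, nat_lit 3832572, false, true⟩,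
 nat_lit 0, nat_lit 3296, nat_lit 0, nat_lit 0, nat_lit 3079, nat_lit 4894, nat_lit 0, nat_lit 0, nat_lit 0, nat_lit 541, nat_lit 0, nat_lit 0, nat_lit 0, nat_lit 0, nat_lit 0, nat_lit 251200, nat_lit 0, nat_lit 0, [(nat_lit 27, [(nat_lit 1, nat_lit 43), (nat_lit 5, nat_lit 585)])],
 ⟨p102_k13, nat_lit 0, nat_lit 0, nat_lit 341, nat_lit 0, nat_lit 941957, [nat_lit 725720801, nat_lit 195425200], [], [nat_lit 21327881536, nat_lit 21902387644, nat_lit 25033427350, nat_lit 25541721511, nat_lit 22494992047, nat_lit 23059306011, nat_lit 25901270851, nat_lit 26363039532], nat_lit 1271250, nat_lit 1271250, nat_lit 1100001, nat_lit 2196000, nat_lit 490000, nat_lit 1133651, [nat_lit 230000, nat_lit 780000], [nat_lit 66, nat_lit 40, nat_lit 40, nat_lit 80, nat_lit 67, nat_lit 260, nat_lit 50, nat_lit 14]⟩, ⟨p102_k12, nat_lit 0, nat_lit 0, nat_lit 282, nat_lit 0, nat_lit 0, [nat_lit 2964096000, nat_lit 4416384000, nat_lit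 5229576000], [], [nat_lit 11055704474, nat_lit 11238983894, nat_lit 13508855006, nat_lit 13539635250, nat_lit 11890360792, nat_lit 11847734859, nat_lit 12527625648, nat_lit 12524762491], nat_lit 0, nat_lit 0, nat_lit 0, nat_lit 0, nat_lit 0, nat_lit 0, [], [nat_lit 62, nat_lit 40, nat_lit 40, nat_lit 80, nat_lit 58, nat_lit 456, nat_lit 225, nat_lit 11]⟩,
 ⟨nat_lit 1581, nat_lit 2237, ⟨.ofNat (nat_lit 420170), .ofNat (nat_lit 602658), .ofNat (nat_lit 442898), .ofNat (nat_lit 625433), .ofNat (nat_lit 422009), .ofNat (nat_lit 596882), .ofNat (nat_lit 445278), .ofNat (nat_lit 620197)⟩, ⟨.ofNat (nat_lit 146758), .ofNat (nat_lit 266490), .ofNat (nat_lit 192306), .ofNat (nat_lit 312039), .ofNat (nat_lit 149571), .ofNat (nat_lit 264306), .ofNat (nat_lit 196201), .ofNat (nat_lit 310936)⟩⟩, [⟨nat_lit 4, nat_lit 100, nat_lit 41, nat_lit 77, nat_lit 429113663⟩, ⟨nat_lit 19, nat_lit 100, nat_lit 52, nat_lit 80, nat_lit 74595105⟩,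 ⟨nat_lit 7, nat_lit 66, nat_lit 100, nat_lit 72, nat_lit 1093016⟩]⟩
noncomputable def p102_l92 : Lf2 := ⟨nat_lit 0, nat_lit 10, [nat_lit 0, nat_lit 5, nat_lit 5, nat_lit 20], false, nat_lit 80, nat_lit 136, nat_lit 0, nat_lit 384, ⟨nat_lit 285, nat_lit 0, nat_lit 715, nat_lit 4, nat_lit 196, nat_lit 715, nat_lit 84, nat_lit 715, nat_lit 66150, nat_lit 278, nat_lit 3437, nat_lit 217, nat_lit 50588316, nat_lit 0, nat_lit 0, nat_lit 3608783, false, true⟩,
 nat_lit 0, nat_lit 3125, nat_lit 0, nat_lit 0, nat_lit 3021, nat_lit 4456, nat_lit 0, nat_lit 0, nat_lit 0, nat_lit 337, nat_lit 0, nat_lit 0, nat_lit 0, nat_lit 0, nat_lit 97, nat_lit 458800, nat_lit 0, nat_lit 0, [(nat_lit 27, [(nat_lit 5, nat_lit 427), (nat_lit 6, nat_lit 288)])],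
 ⟨p102_k14, nat_lit 0, nat_lit 0, nat_lit 369, nat_lit 0, nat_lit 1008432, [nat_lit 1063745201, nat_lit 5278000], [], [nat_lit 21908973693, nat_lit 22509640310, nat_lit 24682415482, nat_lit 25193525135, nat_lit 22657966877, nat_lit 23220085425, nat_lit 25261794040, nat_lit 25741761114], nat_lit 1271250, nat_lit 1271250, nat_lit 1100001, nat_lit 1990500, nat_lit 490000, nat_lit 904401, [nat_lit 230000, nat_lit 780000], [nat_lit 66, nat_lit 40, nat_lit 40, nat_lit 80, nat_lit 67, nat_lit 249, nat_lit 40, nat_lit 13]⟩, ⟨p102_k11, nat_lit 0, nat_lit 0, nat_lit 281, nat_lit 0, nat_lit 0, [nat_lit 2270880000, nat_lit 3383520000, nat_lit 4006530000], [], [nat_lit 9664126127, nat_lit 9940540055, nat_lit 11196735340, nat_lit 11263689155, nat_lit 10148554745, nat_lit 9961559151, nat_lit 10264164236, nat_lit 10224257177], nat_lit 0, nat_lit 0, nat_lit 0, nat_lit 0, nat_lit 0, nat_lit 0, [], [nat_lit 62, nat_lit 40, nat_lit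 40, nat_lit 80, nat_lit 58, nat_lit 456, nat_lit 225, nat_lit 11]⟩,
 ⟨nat_lit 0, nat_lit 1582, ⟨.ofNat (nat_lit 398733), .ofNat (nat_lit 540781), .ofNat (nat_lit 444052), .ofNat (nat_lit 587413), .ofNat (nat_lit 399999), .ofNat (nat_lit 529994), .ofNat (nat_lit 448688), .ofNat (nat_lit 579996)⟩, ⟨.ofNat (nat_lit 149570), .ofNat (nat_lit 226057), .ofNat (nat_lit 196201), .ofNat (nat_lit 272689), .ofNat (nat_lit 149998), .ofNat (nat_lit 219995), .ofNat (nat_lit 199999), .ofNat (nat_lit 269997)⟩⟩, [⟨nat_lit 13, nat_lit 22, nat_lit 100, nat_lit 100, nat_lit 105153357⟩, ⟨nat_lit 4, nat_lit 100, nat_lit 26, nat_lit 84, nat_lit 526844328⟩, ⟨nat_lit 7, nat_lit 63, nat_lit 100, nat_lit 72, nat_lit 62688166⟩]⟩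
noncomputable def b_V_900_400_10_2 : St := ⟨true, nat_lit 1, nat_lit 0, nat_lit 1, nat_lit 80, nat_lit 380, nat_lit 400, nat_lit 160, nat_lit 200, nat_lit 48, nat_lit 320, nat_lit 40, nat_lit 80, nat_lit 0, nat_lit 200, nat_lit 0, nat_lit 384, nat_lit 0, nat_lit 40, nat_lit 0, nat_lit 0, nat_lit 0, nat_lit 0⟩
theorem d_V_900_400_10_2 (h : EB TB.env) : Dead b_V_900_400_10_2 := chkB_sound0 h (T :=
(.trZ (nat_lit 0) (nat_lit 100) (nat_lit 44) (nat_lit 81) (nat_lit 76) (.trX (nat_lit 13) (nat_lit 44) (nat_lit 90) (nat_lit 100) (nat_lit 288) (.trX (nat_lit 16) (nat_lit 44) (nat_lit 100) (nat_lit 82) (nat_lit 164) (.spl (nat_lit 2) (nat_lit 160)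
(.spl (nat_lit 0) (nat_lit 390)
(.leaf p102_l82)
(.trZ (nat_lit 0) (nat_lit 100) (nat_lit 32) (nat_lit 89) (nat_lit 100) (.trZ (nat_lit 3) (nat_lit 100) (nat_lit 52) (nat_lit 53) (nat_lit 8) (.trX (nat_lit 16) (nat_lit 33) (nat_lit 100) (nat_lit 84) (nat_lit 136) (.leaf p102_l83)))))
(.spl (nat_lit 4) (nat_lit 80)
(.spl (nat_lit 2) (nat_lit 240)
(.spl (nat_lit 0) (nat_lit 390)
(.spl (nat_lit 0) (nat_lit 385)
(.leaf p102_l84)
(.trZ (nat_lit 3) (nat_lit 100) (nat_lit 63) (nat_lit 42) (nat_lit 4) (.leaf p102_l85)))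
(.trZ (nat_lit 3) (nat_lit 100) (nat_lit 52) (nat_lit 53) (nat_lit 8) (.spl (nat_lit 0) (nat_lit 395)
(.spl (nat_lit 0) (nat_lit 393)
(.leaf p102_l86)
(.trZ (nat_lit 3) (nat_lit 100) (nat_lit 44) (nat_lit 62) (nat_lit 12) (.leaf p102_l87)))
(.trZ (nat_lit 3) (nat_lit 100) (nat_lit 37) (nat_lit 68) (nat_lit 16) (.leaf p102_l88)))))
(.trX (nat_lit 22) (nat_lit 100) (nat_lit 76) (nat_lit 82) (nat_lit 336) (.leaf p102_l89)))
(.spl (nat_lit 0) (nat_lit 390)
(.spl (nat_lit 1) (nat_lit 180)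
(.trX (nat_lit 13) (nat_lit 44) (nat_lit 94) (nat_lit 100) (nat_lit 272) (.leaf p102_l90))
(.trX (nat_lit 19) (nat_lit 100) (nat_lit 52) (nat_lit 80) (nat_lit 372) (.leaf p102_l91)))
(.trX (nat_lit 13) (nat_lit 31) (nat_lit 95) (nat_lit 100) (nat_lit 264) (.trX (nat_lit 16) (nat_lit 33) (nat_lit 100) (nat_lit 84) (nat_lit 136) (.leaf p102_l92)))))))))) (by decide +kernel)
noncomputable def p102_l93 : Lf2 := ⟨nat_lit 0, nat_lit 10, [nat_lit 0, nat_lit 5, nat_lit 5, nat_lit 20], false, nat_lit 0, nat_lit 80, nat_lit 0, nat_lit 384, ⟨nat_lit 0, nat_lit 162, nat_lit 838, nat_lit 4, nat_lit 134, nat_lit 1000, nat_lit 33, nat_lit 838, nat_lit 10417, nat_lit 240, nat_lit 170017, nat_lit 316, nat_lit 60211276, nat_lit 6788724, nat_lit 0, nat_lit 1639911, false, false⟩,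
 nat_lit 0, nat_lit 3053, nat_lit 0, nat_lit 0, nat_lit 2659, nat_lit 0, nat_lit 0, nat_lit 0, nat_lit 0, nat_lit 0, nat_lit 0, nat_lit 0, nat_lit 0, nat_lit 0, nat_lit 41, nat_lit 250000, nat_lit 0, nat_lit 0, [(nat_lit 24, [(nat_lit 0, nat_lit 162), (nat_lit 4, nat_lit 838)])],
 ⟨p102_k19, nat_lit 0, nat_lit 0, nat_lit 368, nat_lit 0, nat_lit 635433, [nat_lit 946976801, nat_lit 57236800], [], [nat_lit 19935086806, nat_lit 21717892639, nat_lit 21435928450, nat_lit 22603955621, nat_lit 19978376078, nat_lit 21212228271, nat_lit 21465938966, nat_lit 22553656646], nat_lit 1271250, nat_lit 1271250, nat_lit 279600, nat_lit 1100001, nat_lit 0, nat_lit 490000, [nat_lit 230000, nat_lit 1100000], [nat_lit 86, nat_lit 40, nat_lit 40, nat_lit 80, nat_lit 87, nat_lit 272, nat_lit 60, nat_lit 13]⟩, ⟨p102_k20, nat_lit 0, nat_lit 0, nat_lit 1435, nat_lit 0, nat_lit 2128459, [nat_lit 0, nat_lit 0], [], [nat_lit 0, nat_lit 0, nat_lit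 0, nat_lit 0, nat_lit 0, nat_lit 0, nat_lit 0, nat_lit 0], nat_lit 1100001, nat_lit 1442500, nat_lit 279600, nat_lit 1100001, nat_lit 0, nat_lit 2712000, [nat_lit 1695000, nat_lit 1271250], [nat_lit 121, nat_lit 40, nat_lit 40, nat_lit 80, nat_lit 28, nat_lit 452, nat_lit 200, nat_lit 11]⟩,
 ⟨nat_lit 2236, nat_lit 3163, ⟨.ofNat (nat_lit 223799), .ofNat (nat_lit 394735), .ofNat (nat_lit 267982), .ofNat (nat_lit 438942), .ofNat (nat_lit 237524), .ofNat (nat_lit 397434), .ofNat (nat_lit 282946), .ofNat (nat_lit 442880)⟩, ⟨.ofNat (nat_lit 0), .ofNat (nat_lit 139899), .ofNat (nat_lit 0), .ofNat (nat_lit 184209), .ofNat (nat_lit 0), .ofNat (nat_lit 146758), .ofNat (nat_lit 0), .ofNat (nat_lit 192306)⟩⟩, [⟨nat_lit 3, nat_lit 100, nat_lit 74, nat_lit 33, nat_lit 54562079⟩]⟩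
noncomputable def p102_l94 : Lf2 := ⟨nat_lit 0, nat_lit 10, [nat_lit 0, nat_lit 5, nat_lit 5, nat_lit 20], false, nat_lit 0, nat_lit 80, nat_lit 0, nat_lit 384, ⟨nat_lit 0, nat_lit 254, nat_lit 746, nat_lit 4, nat_lit 191, nat_lit 905, nat_lit 33, nat_lit 746, nat_lit 10417, nat_lit 240, nat_lit 2400, nat_lit 227, nat_lit 54551157, nat_lit 12448843, nat_lit 0, nat_lit 2400402, false, true⟩,
 nat_lit 0, nat_lit 3104, nat_lit 0, nat_lit 0, nat_lit 2703, nat_lit 0, nat_lit 0, nat_lit 0, nat_lit 0, nat_lit 0, nat_lit 0, nat_lit 0, nat_lit 0, nat_lit 0, nat_lit 25, nat_lit 250000, nat_lit 0, nat_lit 0, [(nat_lit 24, [(nat_lit 0, nat_lit 254), (nat_lit 4, nat_lit 746)])],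
 ⟨p102_k19, nat_lit 0, nat_lit 0, nat_lit 299, nat_lit 0, nat_lit 570251, [nat_lit 880805600, nat_lit 50225600], [], [nat_lit 20464791140, nat_lit 21085906939, nat_lit 22712971812, nat_lit 23270477741, nat_lit 20365358684, nat_lit 20946221251, nat_lit 22512412692, nat_lit 23027887684], nat_lit 1271250, nat_lit 1271250, nat_lit 1100001, nat_lit 1785000, nat_lit 0, nat_lit 490000, [nat_lit 230000, nat_lit 1100000], [nat_lit 86, nat_lit 40, nat_lit 40, nat_lit 80, nat_lit 87, nat_lit 226, nat_lit 20, nat_lit 10]⟩, ⟨p102_k20, nat_lit 0, nat_lit 0, nat_lit 1270, nat_lit 0, nat_lit 1910126, [nat_lit 0, nat_lit 0], [], [nat_lit 0, nat_lit 0, nat_lit 0, nat_lit 0, nat_lit 0, nat_lit 0, nat_lit 0, nat_lit 0], nat_lit 1100001, nat_lit 1442500, nat_lit 1271250, nat_lit 1271250, nat_lit 0, nat_lit 2712000, [nat_lit 1695000, nat_lit 1271250], [nat_lit 121, nat_lit 40, nat_lit 40, nat_lit 80, nat_lit 28, nat_lit 456, nat_lit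 225, nat_lit 11]⟩,
 ⟨nat_lit 2738, nat_lit 3163, ⟨.ofNat (nat_lit 394735), .ofNat (nat_lit 516642), .ofNat (nat_lit 439028), .ofNat (nat_lit 560952), .ofNat (nat_lit 396102), .ofNat (nat_lit 514225), .ofNat (nat_lit 440920), .ofNat (nat_lit 559060)⟩, ⟨.ofNat (nat_lit 0), .ofNat (nat_lit 139899), .ofNat (nat_lit 0), .ofNat (nat_lit 184209), .ofNat (nat_lit 0), .ofNat (nat_lit 143475), .ofNat (nat_lit 0), .ofNat (nat_lit 188310)⟩⟩, [⟨nat_lit 3, nat_lit 100, nat_lit 79, nat_lit 27, nat_lit 40699411⟩]⟩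
noncomputable def p102_l95 : Lf2 := ⟨nat_lit 0, nat_lit 10, [nat_lit 0, nat_lit 5, nat_lit 5, nat_lit 20], false, nat_lit 0, nat_lit 80, nat_lit 0, nat_lit 336, ⟨nat_lit 0, nat_lit 1000, nat_lit 0, nat_lit 6, nat_lit 240, nat_lit 1000, nat_lit 33, nat_lit 0, nat_lit 0, nat_lit 0, nat_lit 0, nat_lit 0, nat_lit 49318741, nat_lit 17681259, nat_lit 0, nat_lit 2885479, false, true⟩,
 nat_lit 0, nat_lit 3380, nat_lit 0, nat_lit 0, nat_lit 2943, nat_lit 0, nat_lit 116, nat_lit 0, nat_lit 0, nat_lit 0, nat_lit 0, nat_lit 0, nat_lit 0, nat_lit 0, nat_lit 0, nat_lit 384250, nat_lit 0, nat_lit 0, [(nat_lit 24, [(nat_lit 0, nat_lit 105), (nat_lit 1, nat_lit 895)])],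
 ⟨p102_k8, nat_lit 0, nat_lit 0, nat_lit 293, nat_lit 0, nat_lit 537988, [nat_lit 839096000, nat_lit 1036169334, nat_lit 1033276000], [], [nat_lit 24004069250, nat_lit 24266328479, nat_lit 26829614700, nat_lit 27164378351, nat_lit 23685379474, nat_lit 23931382775, nat_lit 26316137184, nat_lit 26540696037], nat_lit 1271250, nat_lit 1271250, nat_lit 1271250, nat_lit 1271250, nat_lit 0, nat_lit 490000, [nat_lit 230000, nat_lit 780000, nat_lit 1100000], [nat_lit 35, nat_lit 40, nat_lit 40, nat_lit 80, nat_lit 22, nat_lit 226, nat_lit 20, nat_lit 9]⟩, ⟨p102_k11, nat_lit 0, nat_lit 0, nat_lit 1182, nat_lit 0, nat_lit 1802058, [nat_lit 0, nat_lit 0, nat_lit 0], [], [nat_lit 0, nat_lit 0, nat_lit 0, nat_lit 0, nat_lit 0, nat_lit 0, nat_lit 0, nat_lit 0], nat_lit 1100001, nat_lit 1442500, nat_lit 1271250, nat_lit 1271250, nat_lit 0, nat_lit 2373000, [nat_lit 1695000, nat_lit 1271250, nat_lit 1271250], [nat_lit 62, nat_lit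 40, nat_lit 40, nat_lit 80, nat_lit 58, nat_lit 456, nat_lit 225, nat_lit 11]⟩,
 ⟨nat_lit 2958, nat_lit 3163, ⟨.ofNat (nat_lit 516642), .ofNat (nat_lit 638549), .ofNat (nat_lit 560952), .ofNat (nat_lit 682859), .ofNat (nat_lit 515465), .ofNat (nat_lit 635507), .ofNat (nat_lit 560020), .ofNat (nat_lit 680062)⟩, ⟨.ofNat (nat_lit 0), .ofNat (nat_lit 139899), .ofNat (nat_lit 0), .ofNat (nat_lit 184209), .ofNat (nat_lit 0), .ofNat (nat_lit 141719), .ofNat (nat_lit 0), .ofNat (nat_lit 186273)⟩⟩, [⟨nat_lit 13, nat_lit 60, nat_lit 80, nat_lit 100, nat_lit 240360701⟩]⟩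
noncomputable def p102_l96 : Lf2 := ⟨nat_lit 0, nat_lit 10, [nat_lit 0, nat_lit 5, nat_lit 5, nat_lit 20], false, nat_lit 0, nat_lit 80, nat_lit 0, nat_lit 336, ⟨nat_lit 0, nat_lit 882, nat_lit 118, nat_lit 6, nat_lit 238, nat_lit 1000, nat_lit 33, nat_lit 118, nat_lit 10417, nat_lit 240, nat_lit 76868, nat_lit 200, nat_lit 49536179, nat_lit 17463821, nat_lit 0, nat_lit 2868698, false, true⟩,
 nat_lit 0, nat_lit 3085, nat_lit 0, nat_lit 0, nat_lit 2735, nat_lit 0, nat_lit 233, nat_lit 0, nat_lit 0, nat_lit 0, nat_lit 0, nat_lit 0, nat_lit 0, nat_lit 0, nat_lit 0, nat_lit 267700, nat_lit 0, nat_lit 0, [(nat_lit 24, [(nat_lit 0, nat_lit 882), (nat_lit 5, nat_lit 118)])],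
 ⟨p102_k21, nat_lit 0, nat_lit 0, nat_lit 299, nat_lit 0, nat_lit 558536, [nat_lit 759140801, nat_lit 1114522667, nat_lit 1287030400], [], [nat_lit 24139788511, nat_lit 24381441811, nat_lit 26565010428, nat_lit 26787467126, nat_lit 23883925804, nat_lit 24111059836, nat_lit 26216210550, nat_lit 26436289694], nat_lit 1271250, nat_lit 1271250, nat_lit 1271250, nat_lit 1271250, nat_lit 0, nat_lit 490000, [nat_lit 230000, nat_lit 780000, nat_lit 1100000], [nat_lit 35, nat_lit 40, nat_lit 40, nat_lit 80, nat_lit 22, nat_lit 226, nat_lit 20, nat_lit 9]⟩, ⟨p102_k11, nat_lit 0, nat_lit 0, nat_lit 1228, nat_lit 0, nat_lit 1910126, [nat_lit 0, nat_lit 0, nat_lit 0], [], [nat_lit 0, nat_lit 0, nat_lit 0, nat_lit 0, nat_lit 0, nat_lit 0, nat_lit 0, nat_lit 0], nat_lit 1100001, nat_lit 1442500, nat_lit 1271250, nat_lit 1271250, nat_lit 0, nat_lit 2373000, [nat_lit 1695000, nat_lit 1271250, nat_lit 1271250], [nat_lit 62, nat_lit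 40, nat_lit 40, nat_lit 80, nat_lit 58, nat_lit 456, nat_lit 225, nat_lit 11]⟩,
 ⟨nat_lit 2738, nat_lit 2959, ⟨.ofNat (nat_lit 515465), .ofNat (nat_lit 629505), .ofNat (nat_lit 560020), .ofNat (nat_lit 674059), .ofNat (nat_lit 514225), .ofNat (nat_lit 626442), .ofNat (nat_lit 559060), .ofNat (nat_lit 671276)⟩, ⟨.ofNat (nat_lit 0), .ofNat (nat_lit 141719), .ofNat (nat_lit 0), .ofNat (nat_lit 186273), .ofNat (nat_lit 0), .ofNat (nat_lit 143475), .ofNat (nat_lit 0), .ofNat (nat_lit 188310)⟩⟩, [⟨nat_lit 13, nat_lit 55, nat_lit 89, nat_lit 100, nat_lit 266106587⟩]⟩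
noncomputable def p102_l97 : Lf2 := ⟨nat_lit 0, nat_lit 10, [nat_lit 0, nat_lit 5, nat_lit 5, nat_lit 20], false, nat_lit 0, nat_lit 80, nat_lit 0, nat_lit 384, ⟨nat_lit 0, nat_lit 1000, nat_lit 0, nat_lit 4, nat_lit 211, nat_lit 1000, nat_lit 33, nat_lit 0, nat_lit 0, nat_lit 0, nat_lit 0, nat_lit 0, nat_lit 52424829, nat_lit 14575171, nat_lit 0, nat_lit 2618881, false, true⟩,
 nat_lit 0, nat_lit 3021, nat_lit 0, nat_lit 0, nat_lit 2726, nat_lit 0, nat_lit 269, nat_lit 0, nat_lit 0, nat_lit 0, nat_lit 0, nat_lit 0, nat_lit 0, nat_lit 0, nat_lit 0, nat_lit 250000, nat_lit 0, nat_lit 0, [(nat_lit 24, [(nat_lit 0, nat_lit 1000)])],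
 ⟨p102_k9, nat_lit 0, nat_lit 0, nat_lit 311, nat_lit 0, nat_lit 578361, [nat_lit 763200001, nat_lit 1367200000, nat_lit 1705600000], [], [nat_lit 21881993015, nat_lit 22184086201, nat_lit 26430739366, nat_lit 26709566473, nat_lit 21777545353, nat_lit 22059984736, nat_lit 26125205092, nat_lit 26359497632], nat_lit 1271250, nat_lit 1271250, nat_lit 1100001, nat_lit 2367250, nat_lit 0, nat_lit 490000, [nat_lit 230000, nat_lit 780000, nat_lit 1100000], [nat_lit 35, nat_lit 40, nat_lit 40, nat_lit 80, nat_lit 22, nat_lit 226, nat_lit 20, nat_lit 9]⟩, ⟨p102_k11, nat_lit 0, nat_lit 0, nat_lit 1319, nat_lit 0, nat_lit 2018898, [nat_lit 0, nat_lit 0, nat_lit 0], [], [nat_lit 0, nat_lit 0, nat_lit 0, nat_lit 0, nat_lit 0, nat_lit 0, nat_lit 0, nat_lit 0], nat_lit 1100001, nat_lit 1442500, nat_lit 1271250, nat_lit 1271250, nat_lit 0, nat_lit 2712000, [nat_lit 1695000, nat_lit 1271250, nat_lit 1271250], [nat_lit 62, nat_lit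 40, nat_lit 40, nat_lit 80, nat_lit 58, nat_lit 456, nat_lit 225, nat_lit 11]⟩,
 ⟨nat_lit 2500, nat_lit 2739, ⟨.ofNat (nat_lit 396102), .ofNat (nat_lit 614629), .ofNat (nat_lit 440931), .ofNat (nat_lit 659464), .ofNat (nat_lit 396773), .ofNat (nat_lit 611611), .ofNat (nat_lit 441928), .ofNat (nat_lit 656773)⟩, ⟨.ofNat (nat_lit 0), .ofNat (nat_lit 143475), .ofNat (nat_lit 0), .ofNat (nat_lit 188310), .ofNat (nat_lit 0), .ofNat (nat_lit 145160), .ofNat (nat_lit 0), .ofNat (nat_lit 190321)⟩⟩, [⟨nat_lit 13, nat_lit 51, nat_lit 91, nat_lit 100, nat_lit 213111363⟩]⟩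
noncomputable def p102_l98 : Lf2 := ⟨nat_lit 0, nat_lit 10, [nat_lit 0, nat_lit 5, nat_lit 5, nat_lit 20], false, nat_lit 0, nat_lit 80, nat_lit 0, nat_lit 384, ⟨nat_lit 0, nat_lit 1000, nat_lit 0, nat_lit 4, nat_lit 208, nat_lit 1000, nat_lit 34, nat_lit 0, nat_lit 0, nat_lit 0, nat_lit 0, nat_lit 0, nat_lit 52718834, nat_lit 14281166, nat_lit 0, nat_lit 2590512, false, true⟩,
 nat_lit 0, nat_lit 2994, nat_lit 0, nat_lit 0, nat_lit 2749, nat_lit 0, nat_lit 264, nat_lit 0, nat_lit 0, nat_lit 0, nat_lit 0, nat_lit 0, nat_lit 0, nat_lit 0, nat_lit 0, nat_lit 250000, nat_lit 0, nat_lit 0, [(nat_lit 24, [(nat_lit 0, nat_lit 1000)])],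
 ⟨p102_k10, nat_lit 0, nat_lit 0, nat_lit 275, nat_lit 0, nat_lit 597517, [nat_lit 763200001, nat_lit 1367200000], [], [nat_lit 22158620606, nat_lit 22469407504, nat_lit 26429302982, nat_lit 26724831200, nat_lit 22109039359, nat_lit 22399181810, nat_lit 26165573597, nat_lit 26397804087], nat_lit 1271250, nat_lit 1271250, nat_lit 1100001, nat_lit 2298750, nat_lit 0, nat_lit 490000, [nat_lit 230000, nat_lit 780000], [nat_lit 66, nat_lit 40, nat_lit 40, nat_lit 80, nat_lit 67, nat_lit 226, nat_lit 20, nat_lit 12]⟩, ⟨p102_k11, nat_lit 0, nat_lit 0, nat_lit 1367, nat_lit 0, nat_lit 2128459, [nat_lit 0, nat_lit 0, nat_lit 0], [], [nat_lit 0, nat_lit 0, nat_lit 0, nat_lit 0, nat_lit 0, nat_lit 0, nat_lit 0, nat_lit 0], nat_lit 1100001, nat_lit 1442500, nat_lit 1271250, nat_lit 1271250, nat_lit 0, nat_lit 2712000, [nat_lit 1695000, nat_lit 1271250, nat_lit 1271250], [nat_lit 62, nat_lit 40, nat_lit 40, nat_lit 80, nat_lit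 58, nat_lit 456, nat_lit 225, nat_lit 11]⟩,
 ⟨nat_lit 2236, nat_lit 2500, ⟨.ofNat (nat_lit 396773), .ofNat (nat_lit 599999), .ofNat (nat_lit 441925), .ofNat (nat_lit 645160), .ofNat (nat_lit 397434), .ofNat (nat_lit 596989), .ofNat (nat_lit 442974), .ofNat (nat_lit 642537)⟩, ⟨.ofNat (nat_lit 0), .ofNat (nat_lit 145160), .ofNat (nat_lit 0), .ofNat (nat_lit 190321), .ofNat (nat_lit 0), .ofNat (nat_lit 146758), .ofNat (nat_lit 0), .ofNat (nat_lit 192306)⟩⟩, [⟨nat_lit 13, nat_lit 46, nat_lit 93, nat_lit 100, nat_lit 235740168⟩]⟩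
noncomputable def p102_l99 : Lf2 := ⟨nat_lit 0, nat_lit 10, [nat_lit 0, nat_lit 5, nat_lit 5, nat_lit 20], false, nat_lit 0, nat_lit 80, nat_lit 0, nat_lit 384, ⟨nat_lit 0, nat_lit 944, nat_lit 56, nat_lit 4, nat_lit 181, nat_lit 1000, nat_lit 34, nat_lit 56, nat_lit 11267, nat_lit 241, nat_lit 4634, nat_lit 204, nat_lit 55645360, nat_lit 11354640, nat_lit 0, nat_lit 2275240, false, true⟩,
 nat_lit 0, nat_lit 2746, nat_lit 0, nat_lit 0, nat_lit 2565, nat_lit 0, nat_lit 0, nat_lit 0, nat_lit 0, nat_lit 0, nat_lit 0, nat_lit 0, nat_lit 0, nat_lit 0, nat_lit 0, nat_lit 433600, nat_lit 0, nat_lit 0, [(nat_lit 27, [(nat_lit 1, nat_lit 944), (nat_lit 6, nat_lit 56)])],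
 ⟨p102_k13, nat_lit 0, nat_lit 0, nat_lit 309, nat_lit 0, nat_lit 646428, [nat_lit 688729601, nat_lit 46572800], [], [nat_lit 20936217066, nat_lit 21893922109, nat_lit 25834128628, nat_lit 26394486835, nat_lit 20637080237, nat_lit 21259242646, nat_lit 25649945220, nat_lit 26148773267], nat_lit 1271250, nat_lit 1271250, nat_lit 462650, nat_lit 2110950, nat_lit 0, nat_lit 490000, [nat_lit 230000, nat_lit 780000], [nat_lit 66, nat_lit 40, nat_lit 40, nat_lit 80, nat_lit 67, nat_lit 317, nat_lit 100, nat_lit 19]⟩, ⟨p102_k20, nat_lit 0, nat_lit 0, nat_lit 1511, nat_lit 0, nat_lit 2349266, [nat_lit 0, nat_lit 0], [], [nat_lit 0, nat_lit 0, nat_lit 0, nat_lit 0, nat_lit 0, nat_lit 0, nat_lit 0, nat_lit 0], nat_lit 1100001, nat_lit 1442500, nat_lit 462650, nat_lit 2110950, nat_lit 0, nat_lit 2712000, [nat_lit 1695000, nat_lit 1271250], [nat_lit 121, nat_lit 40, nat_lit 40, nat_lit 80, nat_lit 28, nat_lit 487, nat_lit 225,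 nat_lit 12]⟩,
 ⟨nat_lit 1581, nat_lit 2237, ⟨.ofNat (nat_lit 277529), .ofNat (nat_lit 579884), .ofNat (nat_lit 322986), .ofNat (nat_lit 625433), .ofNat (nat_lit 283825), .ofNat (nat_lit 573567), .ofNat (nat_lit 330363), .ofNat (nat_lit 620197)⟩, ⟨.ofNat (nat_lit 0), .ofNat (nat_lit 146758), .ofNat (nat_lit 0), .ofNat (nat_lit 192306), .ofNat (nat_lit 0), .ofNat (nat_lit 149571), .ofNat (nat_lit 0), .ofNat (nat_lit 196201)⟩⟩, [⟨nat_lit 13, nat_lit 31, nat_lit 100, nat_lit 99, nat_lit 188911600⟩]⟩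
noncomputable def p102_l100 : Lf2 := ⟨nat_lit 0, nat_lit 10, [nat_lit 0, nat_lit 5, nat_lit 5, nat_lit 20], false, nat_lit 8, nat_lit 80, nat_lit 0, nat_lit 384, ⟨nat_lit 0, nat_lit 927, nat_lit 73, nat_lit 4, nat_lit 180, nat_lit 1000, nat_lit 39, nat_lit 73, nat_lit 14017, nat_lit 244, nat_lit 3437, nat_lit 217, nat_lit 54551134, nat_lit 11362929, nat_lit 1085937, nat_lit 2762019, false, true⟩,
 nat_lit 0, nat_lit 2736, nat_lit 0, nat_lit 0, nat_lit 2645, nat_lit 0, nat_lit 0, nat_lit 0, nat_lit 0, nat_lit 0, nat_lit 0, nat_lit 0, nat_lit 0, nat_lit 0, nat_lit 4, nat_lit 443800, nat_lit 0, nat_lit 0, [(nat_lit 27, [(nat_lit 1, nat_lit 927), (nat_lit 6, nat_lit 73)])],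
 ⟨p102_k14, nat_lit 0, nat_lit 0, nat_lit 313, nat_lit 0, nat_lit 680454, [nat_lit 702036800, nat_lit 10232400], [], [nat_lit 21836083333, nat_lit 22780144209, nat_lit 25627354586, nat_lit 26170552206, nat_lit 21640913778, nat_lit 22289419030, nat_lit 25478743335, nat_lit 25991063960], nat_lit 1271250, nat_lit 1271250, nat_lit 631250, nat_lit 1943250, nat_lit 43600, nat_lit 490000, [nat_lit 230000, nat_lit 780000], [nat_lit 66, nat_lit 40, nat_lit 40, nat_lit 80, nat_lit 67, nat_lit 317, nat_lit 100, nat_lit 18]⟩, ⟨p102_k20, nat_lit 0, nat_lit 0, nat_lit 1606, nat_lit 0, nat_lit 2572224, [nat_lit 0, nat_lit 0], [], [nat_lit 0, nat_lit 0, nat_lit 0, nat_lit 0, nat_lit 0, nat_lit 0, nat_lit 0, nat_lit 0], nat_lit 1100001, nat_lit 1442500, nat_lit 631250, nat_lit 1943250, nat_lit 0, nat_lit 2712000, [nat_lit 1695000, nat_lit 1271250], [nat_lit 121, nat_lit 40, nat_lit 40, nat_lit 80, nat_lit 28, nat_lit 508, nat_lit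 225, nat_lit 12]⟩,
 ⟨nat_lit 0, nat_lit 1582, ⟨.ofNat (nat_lit 314816), .ofNat (nat_lit 540781), .ofNat (nat_lit 360133), .ofNat (nat_lit 587413), .ofNat (nat_lit 323036), .ofNat (nat_lit 529994), .ofNat (nat_lit 371722), .ofNat (nat_lit 579996)⟩, ⟨.ofNat (nat_lit 20000), .ofNat (nat_lit 149570), .ofNat (nat_lit 20000), .ofNat (nat_lit 196201), .ofNat (nat_lit 20000), .ofNat (nat_lit 149998), .ofNat (nat_lit 20000), .ofNat (nat_lit 199999)⟩⟩, [⟨nat_lit 13, nat_lit 22, nat_lit 100, nat_lit 100, nat_lit 283406746⟩, ⟨nat_lit 3, nat_lit 100, nat_lit 31, nat_lit 76, nat_lit 43221937⟩, ⟨nat_lit 3, nat_lit 100, nat_lit 52, nat_lit 53, nat_lit 95081082⟩]⟩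
noncomputable def p102_l101 : Lf2 := ⟨nat_lit 0, nat_lit 10, [nat_lit 0, nat_lit 5, nat_lit 5, nat_lit 20], false, nat_lit 80, nat_lit 200, nat_lit 0, nat_lit 384, ⟨nat_lit 0, nat_lit 0, nat_lit 1000, nat_lit 4, nat_lit 134, nat_lit 1000, nat_lit 102, nat_lit 1000, nat_lit 96267, nat_lit 291, nat_lit 170017, nat_lit 316, nat_lit 55173416, nat_lit 0, nat_lit 0, nat_lit 3106134, false, false⟩,
 nat_lit 0, nat_lit 3387, nat_lit 0, nat_lit 0, nat_lit 2949, nat_lit 0, nat_lit 0, nat_lit 0, nat_lit 0, nat_lit 0, nat_lit 0, nat_lit 0, nat_lit 0, nat_lit 0, nat_lit 33, nat_lit 250000, nat_lit 0, nat_lit 0, [(nat_lit 24, [(nat_lit 0, nat_lit 207), (nat_lit 4, nat_lit 793)])],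
 ⟨p102_k19, nat_lit 0, nat_lit 0, nat_lit 319, nat_lit 0, nat_lit 635433, [nat_lit 913914801, nat_lit 51024800], [], [nat_lit 18476283326, nat_lit 20119527769, nat_lit 19865314185, nat_lit 21045164738, nat_lit 20834939814, nat_lit 22103071308, nat_lit 22070446618, nat_lit 23219195867], nat_lit 1271250, nat_lit 1271250, nat_lit 279600, nat_lit 1100001, nat_lit 490000, nat_lit 1427500, [nat_lit 230000, nat_lit 1100000], [nat_lit 86, nat_lit 40, nat_lit 40, nat_lit 80, nat_lit 87, nat_lit 317, nat_lit 100, nat_lit 14]⟩, ⟨p102_k20, nat_lit 0, nat_lit 0, nat_lit 1435, nat_lit 0, nat_lit 2128459, [nat_lit 0, nat_lit 0], [], [nat_lit 0, nat_lit 0, nat_lit 0, nat_lit 0, nat_lit 0, nat_lit 0, nat_lit 0, nat_lit 0], nat_lit 1100001, nat_lit 1442500, nat_lit 279600, nat_lit 1100001, nat_lit 0, nat_lit 2712000, [nat_lit 1695000, nat_lit 1271250], [nat_lit 121, nat_lit 40, nat_lit 40, nat_lit 80, nat_lit 28, nat_lit 452, nat_lit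 200, nat_lit 11]⟩,
 ⟨nat_lit 2236, nat_lit 3163, ⟨.ofNat (nat_lit 223799), .ofNat (nat_lit 394735), .ofNat (nat_lit 267982), .ofNat (nat_lit 438942), .ofNat (nat_lit 237524), .ofNat (nat_lit 397434), .ofNat (nat_lit 282946), .ofNat (nat_lit 442880)⟩, ⟨.ofNat (nat_lit 139899), .ofNat (nat_lit 322759), .ofNat (nat_lit 184209), .ofNat (nat_lit 367069), .ofNat (nat_lit 146758), .ofNat (nat_lit 317804), .ofNat (nat_lit 192306), .ofNat (nat_lit 363353)⟩⟩, [⟨nat_lit 4, nat_lit 100, nat_lit 54, nat_lit 73, nat_lit 237764362⟩]⟩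
noncomputable def p102_l102 : Lf2 := ⟨nat_lit 0, nat_lit 10, [nat_lit 0, nat_lit 5, nat_lit 5, nat_lit 20], false, nat_lit 80, nat_lit 176, nat_lit 0, nat_lit 368, ⟨nat_lit 0, nat_lit 730, nat_lit 270, nat_lit 4, nat_lit 215, nat_lit 1000, nat_lit 90, nat_lit 270, nat_lit 77067, nat_lit 283, nat_lit 94468, nat_lit 200, nat_lit 48487663, nat_lit 14696340, nat_lit 3815997, nat_lit 3860031, false, true⟩,
 nat_lit 0, nat_lit 3321, nat_lit 0, nat_lit 0, nat_lit 2892, nat_lit 0, nat_lit 104, nat_lit 0, nat_lit 0, nat_lit 0, nat_lit 0, nat_lit 0, nat_lit 0, nat_lit 0, nat_lit 0, nat_lit 290500, nat_lit 0, nat_lit 0, [(nat_lit 24, [(nat_lit 0, nat_lit 730), (nat_lit 5, nat_lit 270)])],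
 ⟨p102_k8, nat_lit 0, nat_lit 0, nat_lit 271, nat_lit 0, nat_lit 603581, [nat_lit 753912000, nat_lit 789040000, nat_lit 747856000], [], [nat_lit 20487177976, nat_lit 21507562984, nat_lit 25098255888, nat_lit 26060494416, nat_lit 21768695056, nat_lit 22725037573, nat_lit 26156938362, nat_lit 27020069036], nat_lit 1271250, nat_lit 1271250, nat_lit 1100001, nat_lit 2470000, nat_lit 490000, nat_lit 1236400, [nat_lit 230000, nat_lit 780000, nat_lit 1100000], [nat_lit 35, nat_lit 40, nat_lit 40, nat_lit 80, nat_lit 22, nat_lit 260, nat_lit 50, nat_lit 11]⟩, ⟨p102_k11, nat_lit 0, nat_lit 0, nat_lit 1296, nat_lit 0, nat_lit 1967212, [nat_lit 0, nat_lit 0, nat_lit 0], [], [nat_lit 0, nat_lit 0, nat_lit 0, nat_lit 0, nat_lit 0, nat_lit 0, nat_lit 0, nat_lit 0], nat_lit 1100001, nat_lit 1442500, nat_lit 1271250, nat_lit 1271250, nat_lit 0, nat_lit 2599000, [nat_lit 1695000, nat_lit 1271250, nat_lit 1271250], [nat_lit 62,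 nat_lit 40, nat_lit 40, nat_lit 80, nat_lit 58, nat_lit 456, nat_lit 225, nat_lit 11]⟩,
 ⟨nat_lit 2236, nat_lit 3163, ⟨.ofNat (nat_lit 394735), .ofNat (nat_lit 638549), .ofNat (nat_lit 438942), .ofNat (nat_lit 682859), .ofNat (nat_lit 397434), .ofNat (nat_lit 625497), .ofNat (nat_lit 442880), .ofNat (nat_lit 671045)⟩, ⟨.ofNat (nat_lit 139899), .ofNat (nat_lit 286187), .ofNat (nat_lit 162054), .ofNat (nat_lit 308342), .ofNat (nat_lit 146758), .ofNat (nat_lit 283595), .ofNat (nat_lit 169532), .ofNat (nat_lit 306369)⟩⟩, [⟨nat_lit 13, nat_lit 53, nat_lit 90, nat_lit 100, nat_lit 217932625⟩, ⟨nat_lit 4, nat_lit 100, nat_lit 55, nat_lit 69, nat_lit 144184030⟩]⟩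
noncomputable def p102_l103 : Lf2 := ⟨nat_lit 0, nat_lit 10, [nat_lit 0, nat_lit 5, nat_lit 5, nat_lit 20], false, nat_lit 80, nat_lit 200, nat_lit 0, nat_lit 384, ⟨nat_lit 0, nat_lit 1000, nat_lit 0, nat_lit 4, nat_lit 215, nat_lit 1000, nat_lit 106, nat_lit 0, nat_lit 0, nat_lit 0, nat_lit 0, nat_lit 0, nat_lit 47513849, nat_lit 14632370, nat_lit 4853781, nat_lit 4071830, false, true⟩,
 nat_lit 0, nat_lit 3497, nat_lit 0, nat_lit 0, nat_lit 3045, nat_lit 0, nat_lit 130, nat_lit 0, nat_lit 0, nat_lit 0, nat_lit 0, nat_lit 0, nat_lit 0, nat_lit 0, nat_lit 0, nat_lit 347050, nat_lit 0, nat_lit 0, [(nat_lit 24, [(nat_lit 0, nat_lit 353), (nat_lit 1, nat_lit 647)])],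
 ⟨p102_k8, nat_lit 0, nat_lit 0, nat_lit 221, nat_lit 0, nat_lit 479126, [nat_lit 818065600, nat_lit 1127896267, nat_lit 1219573600], [], [nat_lit 20340775704, nat_lit 20922589309, nat_lit 25180447921, nat_lit 25647769472, nat_lit 22228683181, nat_lit 22753641114, nat_lit 26610179817, nat_lit 27046919255], nat_lit 1271250, nat_lit 1271250, nat_lit 1100001, nat_lit 2470000, nat_lit 490000, nat_lit 1427500, [nat_lit 230000, nat_lit 780000, nat_lit 1100000], [nat_lit 35, nat_lit 40, nat_lit 40, nat_lit 80, nat_lit 22, nat_lit 260, nat_lit 50, nat_lit 11]⟩, ⟨p102_k11, nat_lit 0, nat_lit 0, nat_lit 1131, nat_lit 0, nat_lit 1604891, [nat_lit 0, nat_lit 0, nat_lit 0], [], [nat_lit 0, nat_lit 0, nat_lit 0, nat_lit 0, nat_lit 0, nat_lit 0, nat_lit 0, nat_lit 0], nat_lit 1100001, nat_lit 1442500, nat_lit 1271250, nat_lit 1271250, nat_lit 0, nat_lit 2712000, [nat_lit 1695000, nat_lit 1271250, nat_lit 1271250], [nat_lit 62,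 nat_lit 40, nat_lit 40, nat_lit 80, nat_lit 58, nat_lit 483, nat_lit 250, nat_lit 11]⟩,
 ⟨nat_lit 2738, nat_lit 3163, ⟨.ofNat (nat_lit 394735), .ofNat (nat_lit 638549), .ofNat (nat_lit 439028), .ofNat (nat_lit 682859), .ofNat (nat_lit 396102), .ofNat (nat_lit 632348), .ofNat (nat_lit 440920), .ofNat (nat_lit 677182)⟩, ⟨.ofNat (nat_lit 162054), .ofNat (nat_lit 344914), .ofNat (nat_lit 184209), .ofNat (nat_lit 367069), .ofNat (nat_lit 165893), .ofNat (nat_lit 343077), .ofNat (nat_lit 188310), .ofNat (nat_lit 365494)⟩⟩, [⟨nat_lit 13, nat_lit 57, nat_lit 88, nat_lit 100, nat_lit 173700839⟩, ⟨nat_lit 4, nat_lit 100, nat_lit 57, nat_lit 76, nat_lit 120711495⟩]⟩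
noncomputable def p102_l104 : Lf2 := ⟨nat_lit 0, nat_lit 10, [nat_lit 0, nat_lit 5, nat_lit 5, nat_lit 20], false, nat_lit 80, nat_lit 184, nat_lit 0, nat_lit 384, ⟨nat_lit 0, nat_lit 1000, nat_lit 0, nat_lit 4, nat_lit 211, nat_lit 1000, nat_lit 102, nat_lit 0, nat_lit 0, nat_lit 0, nat_lit 0, nat_lit 0, nat_lit 48183317, nat_lit 14233825, nat_lit 4582858, nat_lit 3979806, false, true⟩,
 nat_lit 0, nat_lit 3170, nat_lit 0, nat_lit 0, nat_lit 2860, nat_lit 0, nat_lit 283, nat_lit 0, nat_lit 0, nat_lit 0, nat_lit 0, nat_lit 0, nat_lit 0, nat_lit 0, nat_lit 0, nat_lit 250000, nat_lit 0, nat_lit 0, [(nat_lit 24, [(nat_lit 0, nat_lit 1000)])],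
 ⟨p102_k9, nat_lit 0, nat_lit 0, nat_lit 245, nat_lit 0, nat_lit 521057, [nat_lit 763200001, nat_lit 1367200000, nat_lit 1705600000], [], [nat_lit 20339477045, nat_lit 20951155985, nat_lit 24913949640, nat_lit 25454413912, nat_lit 22010950620, nat_lit 22547994981, nat_lit 26126746181, nat_lit 26572899453], nat_lit 1271250, nat_lit 1271250, nat_lit 1100001, nat_lit 2367250, nat_lit 490000, nat_lit 1302500, [nat_lit 230000, nat_lit 780000, nat_lit 1100000], [nat_lit 35, nat_lit 40, nat_lit 40, nat_lit 80, nat_lit 22, nat_lit 260, nat_lit 50, nat_lit 11]⟩, ⟨p102_k11, nat_lit 0, nat_lit 0, nat_lit 1223, nat_lit 0, nat_lit 1818867, [nat_lit 0, nat_lit 0, nat_lit 0], [], [nat_lit 0, nat_lit 0, nat_lit 0, nat_lit 0, nat_lit 0, nat_lit 0, nat_lit 0, nat_lit 0], nat_lit 1100001, nat_lit 1442500, nat_lit 1271250, nat_lit 1271250, nat_lit 0, nat_lit 2712000, [nat_lit 1695000, nat_lit 1271250, nat_lit 1271250], [nat_lit 62,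 nat_lit 40, nat_lit 40, nat_lit 80, nat_lit 58, nat_lit 456, nat_lit 225, nat_lit 11]⟩,
 ⟨nat_lit 2236, nat_lit 2739, ⟨.ofNat (nat_lit 396102), .ofNat (nat_lit 614629), .ofNat (nat_lit 440903), .ofNat (nat_lit 659464), .ofNat (nat_lit 397434), .ofNat (nat_lit 608392), .ofNat (nat_lit 442949), .ofNat (nat_lit 653941)⟩, ⟨.ofNat (nat_lit 165893), .ofNat (nat_lit 319452), .ofNat (nat_lit 188310), .ofNat (nat_lit 341870), .ofNat (nat_lit 169532), .ofNat (nat_lit 317772), .ofNat (nat_lit 192306), .ofNat (nat_lit 340547)⟩⟩, [⟨nat_lit 13, nat_lit 49, nat_lit 92, nat_lit 100, nat_lit 209204333⟩, ⟨nat_lit 4, nat_lit 100, nat_lit 49, nat_lit 78, nat_lit 139087450⟩]⟩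
noncomputable def p102_l105 : Lf2 := ⟨nat_lit 0, nat_lit 10, [nat_lit 0, nat_lit 5, nat_lit 5, nat_lit 20], false, nat_lit 80, nat_lit 164, nat_lit 0, nat_lit 384, ⟨nat_lit 0, nat_lit 1000, nat_lit 0, nat_lit 4, nat_lit 180, nat_lit 1000, nat_lit 91, nat_lit 0, nat_lit 0, nat_lit 0, nat_lit 0, nat_lit 0, nat_lit 51751333, nat_lit 11285845, nat_lit 3962822, nat_lit 3532241, false, true⟩,
 nat_lit 0, nat_lit 3042, nat_lit 0, nat_lit 0, nat_lit 2842, nat_lit 0, nat_lit 54, nat_lit 0, nat_lit 0, nat_lit 0, nat_lit 0, nat_lit 0, nat_lit 0, nat_lit 0, nat_lit 0, nat_lit 400000, nat_lit 0, nat_lit 0, [(nat_lit 27, [(nat_lit 1, nat_lit 1000)])],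
 ⟨p102_k13, nat_lit 0, nat_lit 0, nat_lit 289, nat_lit 0, nat_lit 707778, [nat_lit 697600000, nat_lit 324400000], [], [nat_lit 19740073054, nat_lit 21448235100, nat_lit 24825675575, nat_lit 25865756548, nat_lit 21058178819, nat_lit 22335834828, nat_lit 25747502469, nat_lit 26692936151], nat_lit 1271250, nat_lit 1271250, nat_lit 462650, nat_lit 2110950, nat_lit 490000, nat_lit 1133651, [nat_lit 230000, nat_lit 780000], [nat_lit 66, nat_lit 40, nat_lit 40, nat_lit 80, nat_lit 67, nat_lit 345, nat_lit 125, nat_lit 20]⟩, ⟨p102_k20, nat_lit 0, nat_lit 0, nat_lit 1623, nat_lit 0, nat_lit 2572224, [nat_lit 0, nat_lit 0], [], [nat_lit 0, nat_lit 0, nat_lit 0, nat_lit 0, nat_lit 0, nat_lit 0, nat_lit 0, nat_lit 0], nat_lit 1100001, nat_lit 1442500, nat_lit 462650, nat_lit 2110950, nat_lit 0, nat_lit 2712000, [nat_lit 1695000, nat_lit 1271250], [nat_lit 121, nat_lit 40, nat_lit 40, nat_lit 80, nat_lit 28, nat_lit 515, nat_lit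 225, nat_lit 12]⟩,
 ⟨nat_lit 0, nat_lit 2237, ⟨.ofNat (nat_lit 273845), .ofNat (nat_lit 579878), .ofNat (nat_lit 317541), .ofNat (nat_lit 625429), .ofNat (nat_lit 291142), .ofNat (nat_lit 559993), .ofNat (nat_lit 339289), .ofNat (nat_lit 609995)⟩, ⟨.ofNat (nat_lit 146756), .ofNat (nat_lit 266484), .ofNat (nat_lit 192306), .ofNat (nat_lit 312035), .ofNat (nat_lit 149997), .ofNat (nat_lit 254993), .ofNat (nat_lit 199999), .ofNat (nat_lit 304995)⟩⟩, [⟨nat_lit 13, nat_lit 31, nat_lit 98, nat_lit 100, nat_lit 171535115⟩, ⟨nat_lit 13, nat_lit 44, nat_lit 90, nat_lit 100, nat_lit 8339173⟩, ⟨nat_lit 4, nat_lit 100, nat_lit 35, nat_lit 80, nat_lit 234121445⟩]⟩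
noncomputable def b_V_900_400_10_3 : St := ⟨true, nat_lit 1, nat_lit 1, nat_lit 1, nat_lit 80, nat_lit 360, nat_lit 400, nat_lit 160, nat_lit 200, nat_lit 48, nat_lit 320, nat_lit 40, nat_lit 80, nat_lit 0, nat_lit 200, nat_lit 0, nat_lit 384, nat_lit 0, nat_lit 40, nat_lit 0, nat_lit 0, nat_lit 0, nat_lit 0⟩
theorem d_V_900_400_10_3 (h : EB TB.env) : Dead b_V_900_400_10_3 := chkB_sound0 h (T :=
(.spl (nat_lit 4) (nat_lit 80)
(.spl (nat_lit 0) (nat_lit 380)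
(.spl (nat_lit 2) (nat_lit 160)
(.leaf p102_l93)
(.spl (nat_lit 0) (nat_lit 370)
(.spl (nat_lit 2) (nat_lit 240)
(.leaf p102_l94)
(.trX (nat_lit 22) (nat_lit 100) (nat_lit 76) (nat_lit 82) (nat_lit 336) (.spl (nat_lit 0) (nat_lit 365)
(.leaf p102_l95)
(.trX (nat_lit 13) (nat_lit 57) (nat_lit 83) (nat_lit 100) (nat_lit 316) (.leaf p102_l96)))))
(.trX (nat_lit 13) (nat_lit 53) (nat_lit 85) (nat_lit 100) (nat_lit 308) (.spl (nat_lit 0) (nat_lit 375)
(.leaf p102_l97)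
(.trX (nat_lit 13) (nat_lit 48) (nat_lit 88) (nat_lit 100) (nat_lit 300) (.leaf p102_l98))))))
(.trZ (nat_lit 0) (nat_lit 100) (nat_lit 44) (nat_lit 81) (nat_lit 76) (.trX (nat_lit 13) (nat_lit 44) (nat_lit 90) (nat_lit 100) (nat_lit 288) (.spl (nat_lit 0) (nat_lit 390)
(.leaf p102_l99)
(.trZ (nat_lit 0) (nat_lit 100) (nat_lit 32) (nat_lit 89) (nat_lit 100) (.trX (nat_lit 13) (nat_lit 31) (nat_lit 95) (nat_lit 100) (nat_lit 264) (.trZ (nat_lit 3) (nat_lit 100) (nat_lit 52) (nat_lit 53) (nat_lit 8) (.leaf p102_l100))))))))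
(.spl (nat_lit 0) (nat_lit 380)
(.spl (nat_lit 2) (nat_lit 160)
(.leaf p102_l101)
(.spl (nat_lit 3) (nat_lit 60)
(.trX (nat_lit 16) (nat_lit 61) (nat_lit 100) (nat_lit 72) (nat_lit 176) (.trX (nat_lit 19) (nat_lit 100) (nat_lit 55) (nat_lit 73) (nat_lit 368) (.leaf p102_l102)))
(.spl (nat_lit 0) (nat_lit 370)
(.leaf p102_l103)
(.trX (nat_lit 13) (nat_lit 53) (nat_lit 85) (nat_lit 100) (nat_lit 308) (.trX (nat_lit 16) (nat_lit 53) (nat_lit 100) (nat_lit 80) (nat_lit 184) (.leaf p102_l104))))))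
(.trZ (nat_lit 0) (nat_lit 100) (nat_lit 44) (nat_lit 81) (nat_lit 76) (.trX (nat_lit 13) (nat_lit 44) (nat_lit 90) (nat_lit 100) (nat_lit 288) (.trX (nat_lit 16) (nat_lit 44) (nat_lit 100) (nat_lit 82) (nat_lit 164) (.leaf p102_l105))))))) (by decide +kernel)
noncomputable def p102_l106 : Lf2 := ⟨nat_lit 0, nat_lit 20, [nat_lit 5, nat_lit 5, nat_lit 5, nat_lit 20], false, nat_lit 0, nat_lit 80, nat_lit 0, nat_lit 384, ⟨nat_lit 124, nat_lit 73, nat_lit 803, nat_lit 4, nat_lit 180, nat_lit 876, nat_lit 34, nat_lit 803, nat_lit 10417, nat_lit 240, nat_lit 94460, nat_lit 200, nat_lit 55716995, nat_lit 11283005, nat_lit 0, nat_lit 2266723, false, true⟩,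
 nat_lit 0, nat_lit 0, nat_lit 0, nat_lit 0, nat_lit 2316, nat_lit 1462, nat_lit 0, nat_lit 0, nat_lit 0, nat_lit 108, nat_lit 0, nat_lit 0, nat_lit 0, nat_lit 0, nat_lit 29, nat_lit 219000, nat_lit 0, nat_lit 0, [(nat_lit 25, [(nat_lit 0, nat_lit 73), (nat_lit 4, nat_lit 803)]), (nat_lit 28, [(nat_lit 0, nat_lit 73), (nat_lit 4, nat_lit 803)])],
 ⟨p102_k22, nat_lit 0, nat_lit 0, nat_lit 219, nat_lit 0, nat_lit 0, [nat_lit 900933601, nat_lit 564311467, nat_lit 41025333], [], [nat_lit 19516003618, nat_lit 22502069239, nat_lit 25558688278, nat_lit 27753530896, nat_lit 19080056882, nat_lit 21480215683, nat_lit 25160846934, nat_lit 27212492534], nat_lit 0, nat_lit 0, nat_lit 0, nat_lit 0, nat_lit 0, nat_lit 0, [], [nat_lit 20, nat_lit 40, nat_lit 40, nat_lit 80, nat_lit 16, nat_lit 317, nat_lit 100, nat_lit 12]⟩, ⟨p102_k23, nat_lit 0, nat_lit 0, nat_lit 511, nat_lit 0, nat_lit 0, [nat_lit 988032000, nat_lit 1472128000,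 nat_lit 2033600000], [], [nat_lit 6406049618, nat_lit 6369286215, nat_lit 5945297456, nat_lit 5842582696, nat_lit 5665635600, nat_lit 5574380356, nat_lit 4892595633, nat_lit 4761151207], nat_lit 0, nat_lit 0, nat_lit 0, nat_lit 0, nat_lit 0, nat_lit 0, [], [nat_lit 97, nat_lit 40, nat_lit 40, nat_lit 80, nat_lit 76, nat_lit 483, nat_lit 250, nat_lit 11]⟩,
 ⟨nat_lit 0, nat_lit 3163, ⟨.ofNat (nat_lit 216927), .ofNat (nat_lit 638543), .ofNat (nat_lit 258627), .ofNat (nat_lit 682855), .ofNat (nat_lit 252860), .ofNat (nat_lit 599993), .ofNat (nat_lit 300250), .ofNat (nat_lit 649995)⟩, ⟨.ofNat (nat_lit 0), .ofNat (nat_lit 139898), .ofNat (nat_lit 0), .ofNat (nat_lit 184209), .ofNat (nat_lit 0), .ofNat (nat_lit 149998), .ofNat (nat_lit 0), .ofNat (nat_lit 199999)⟩⟩, [⟨nat_lit 3, nat_lit 100, nat_lit 61, nat_lit 47, nat_lit 112805562⟩, ⟨nat_lit 10, nat_lit 100, nat_lit 78, nat_lit 60, nat_lit 23007698⟩]⟩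
noncomputable def p102_l107 : Lf2 := ⟨nat_lit 0, nat_lit 20, [nat_lit 5, nat_lit 5, nat_lit 5, nat_lit 20], true, nat_lit 80, nat_lit 200, nat_lit 0, nat_lit 384, ⟨nat_lit 0, nat_lit 527, nat_lit 473, nat_lit 4, nat_lit 180, nat_lit 1000, nat_lit 101, nat_lit 473, nat_lit 96267, nat_lit 291, nat_lit 94460, nat_lit 200, nat_lit 51138080, nat_lit 11275878, nat_lit 4586042, nat_lit 3663768, false, true⟩,
 nat_lit 0, nat_lit 0, nat_lit 0, nat_lit 704, nat_lit 2838, nat_lit 0, nat_lit 0, nat_lit 0, nat_lit 0, nat_lit 0, nat_lit 0, nat_lit 0, nat_lit 0, nat_lit 0, nat_lit 0, nat_lit 250000, nat_lit 0, nat_lit 0, [(nat_lit 25, [(nat_lit 0, nat_lit 527), (nat_lit 4, nat_lit 473)]), (nat_lit 28, [(nat_lit 0, nat_lit 527), (nat_lit 4, nat_lit 473)])],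
 ⟨p102_k22, nat_lit 0, nat_lit 0, nat_lit 142, nat_lit 0, nat_lit 0, [nat_lit 772140000, nat_lit 550194667, nat_lit 236406000], [], [nat_lit 18661695522, nat_lit 21872493096, nat_lit 24755224336, nat_lit 27236114408, nat_lit 20717253937, nat_lit 23390937873, nat_lit 25979608684, nat_lit 28153593720], nat_lit 0, nat_lit 0, nat_lit 0, nat_lit 0, nat_lit 0, nat_lit 0, [], [nat_lit 20, nat_lit 40, nat_lit 40, nat_lit 80, nat_lit 16, nat_lit 373, nat_lit 150, nat_lit 14]⟩, C1.Rw.none,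
 ⟨nat_lit 0, nat_lit 3163, ⟨.ofNat (nat_lit 216927), .ofNat (nat_lit 638543), .ofNat (nat_lit 258627), .ofNat (nat_lit 682855), .ofNat (nat_lit 252860), .ofNat (nat_lit 599993), .ofNat (nat_lit 300250), .ofNat (nat_lit 649995)⟩, ⟨.ofNat (nat_lit 139898), .ofNat (nat_lit 322753), .ofNat (nat_lit 184209), .ofNat (nat_lit 367065), .ofNat (nat_lit 149998), .ofNat (nat_lit 299993), .ofNat (nat_lit 199999), .ofNat (nat_lit 349995)⟩⟩, [⟨nat_lit 13, nat_lit 60, nat_lit 80, nat_lit 100, nat_lit 91004704⟩, ⟨nat_lit 16, nat_lit 60, nat_lit 100, nat_lit 80, nat_lit 97225541⟩]⟩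
noncomputable def p102_l108 : Lf2 := ⟨nat_lit 0, nat_lit 20, [nat_lit 5, nat_lit 5, nat_lit 5, nat_lit 20], true, nat_lit 0, nat_lit 80, nat_lit 0, nat_lit 384, ⟨nat_lit 0, nat_lit 100, nat_lit 900, nat_lit 4, nat_lit 135, nat_lit 1000, nat_lit 34, nat_lit 900, nat_lit 10417, nat_lit 240, nat_lit 173400, nat_lit 317, nat_lit 60115343, nat_lit 6884657, nat_lit 0, nat_lit 1655481, false, false⟩,
 nat_lit 0, nat_lit 0, nat_lit 0, nat_lit 1091, nat_lit 2163, nat_lit 0, nat_lit 0, nat_lit 0, nat_lit 0, nat_lit 0, nat_lit 0, nat_lit 0, nat_lit 0, nat_lit 0, nat_lit 74, nat_lit 250000, nat_lit 0, nat_lit 0, [(nat_lit 25, [(nat_lit 0, nat_lit 100), (nat_lit 4, nat_lit 900)]), (nat_lit 28, [(nat_lit 0, nat_lit 100), (nat_lit 4, nat_lit 900)])],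
 ⟨p102_k22, nat_lit 0, nat_lit 0, nat_lit 219, nat_lit 0, nat_lit 0, [nat_lit 1059600001, nat_lit 699200001, nat_lit 66479999], [], [nat_lit 18356085432, nat_lit 21963160032, nat_lit 19756874394, nat_lit 22558589286, nat_lit 18175915189, nat_lit 21040663794, nat_lit 19696454690, nat_lit 22324331162], nat_lit 0, nat_lit 0, nat_lit 0, nat_lit 0, nat_lit 0, nat_lit 0, [], [nat_lit 20, nat_lit 40, nat_lit 40, nat_lit 80, nat_lit 16, nat_lit 272, nat_lit 60, nat_lit 10]⟩, C1.Rw.none,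
 ⟨nat_lit 0, nat_lit 3163, ⟨.ofNat (nat_lit 216927), .ofNat (nat_lit 394735), .ofNat (nat_lit 258627), .ofNat (nat_lit 436481), .ofNat (nat_lit 252860), .ofNat (nat_lit 399999), .ofNat (nat_lit 300250), .ofNat (nat_lit 447434)⟩, ⟨.ofNat (nat_lit 0), .ofNat (nat_lit 139898), .ofNat (nat_lit 0), .ofNat (nat_lit 184209), .ofNat (nat_lit 0), .ofNat (nat_lit 149998), .ofNat (nat_lit 0), .ofNat (nat_lit 199999)⟩⟩, [⟨nat_lit 3, nat_lit 100, nat_lit 61, nat_lit 47, nat_lit 148500216⟩]⟩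
noncomputable def p102_l109 : Lf2 := ⟨nat_lit 0, nat_lit 20, [nat_lit 5, nat_lit 5, nat_lit 5, nat_lit 20], true, nat_lit 0, nat_lit 80, nat_lit 0, nat_lit 384, ⟨nat_lit 0, nat_lit 200, nat_lit 800, nat_lit 4, nat_lit 190, nat_lit 1000, nat_lit 34, nat_lit 800, nat_lit 10417, nat_lit 240, nat_lit 2400, nat_lit 227, nat_lit 54632956, nat_lit 12367044, nat_lit 0, nat_lit 2391358, false, true⟩,
 nat_lit 0, nat_lit 0, nat_lit 0, nat_lit 0, nat_lit 2319, nat_lit 0, nat_lit 0, nat_lit 0, nat_lit 0, nat_lit 0, nat_lit 0, nat_lit 0, nat_lit 0, nat_lit 0, nat_lit 54, nat_lit 250000, nat_lit 0, nat_lit 0, [(nat_lit 25, [(nat_lit 0, nat_lit 200), (nat_lit 4, nat_lit 800)]), (nat_lit 28, [(nat_lit 0, nat_lit 200), (nat_lit 4, nat_lit 800)])],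
 ⟨p102_k22, nat_lit 0, nat_lit 0, nat_lit 154, nat_lit 0, nat_lit 0, [nat_lit 981600001, nat_lit 632266667, nat_lit 52693333], [], [nat_lit 19555145612, nat_lit 22527367104, nat_lit 21780968313, nat_lit 24621597648, nat_lit 19241404252, nat_lit 21721744761, nat_lit 21430683025, nat_lit 23880485813], nat_lit 0, nat_lit 0, nat_lit 0, nat_lit 0, nat_lit 0, nat_lit 0, [], [nat_lit 20, nat_lit 40, nat_lit 40, nat_lit 80, nat_lit 16, nat_lit 317, nat_lit 100, nat_lit 12]⟩, C1.Rw.none,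
 ⟨nat_lit 0, nat_lit 3163, ⟨.ofNat (nat_lit 394735), .ofNat (nat_lit 516640), .ofNat (nat_lit 436481), .ofNat (nat_lit 560951), .ofNat (nat_lit 399999), .ofNat (nat_lit 499997), .ofNat (nat_lit 447434), .ofNat (nat_lit 549998)⟩, ⟨.ofNat (nat_lit 0), .ofNat (nat_lit 139898), .ofNat (nat_lit 0), .ofNat (nat_lit 184209), .ofNat (nat_lit 0), .ofNat (nat_lit 149998), .ofNat (nat_lit 0), .ofNat (nat_lit 199999)⟩⟩, [⟨nat_lit 3, nat_lit 100, nat_lit 61, nat_lit 47, nat_lit 160092599⟩]⟩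
noncomputable def p102_l110 : Lf2 := ⟨nat_lit 0, nat_lit 20, [nat_lit 5, nat_lit 5, nat_lit 5, nat_lit 20], true, nat_lit 0, nat_lit 80, nat_lit 0, nat_lit 336, ⟨nat_lit 0, nat_lit 574, nat_lit 426, nat_lit 6, nat_lit 235, nat_lit 1000, nat_lit 34, nat_lit 426, nat_lit 10417, nat_lit 240, nat_lit 94460, nat_lit 200, nat_lit 49813931, nat_lit 17186069, nat_lit 0, nat_lit 2846864, false, true⟩,
 nat_lit 0, nat_lit 0, nat_lit 0, nat_lit 2426, nat_lit 2327, nat_lit 0, nat_lit 37, nat_lit 0, nat_lit 0, nat_lit 0, nat_lit 0, nat_lit 0, nat_lit 0, nat_lit 0, nat_lit 5, nat_lit 313900, nat_lit 0, nat_lit 0, [(nat_lit 25, [(nat_lit 0, nat_lit 574), (nat_lit 5, nat_lit 426)]), (nat_lit 28, [(nat_lit 0, nat_lit 574), (nat_lit 5, nat_lit 426)])],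
 ⟨p102_k22, nat_lit 0, nat_lit 0, nat_lit 164, nat_lit 0, nat_lit 0, [nat_lit 778084801, nat_lit 541243201, nat_lit 20926399], [], [nat_lit 22758399253, nat_lit 24660011969, nat_lit 25356820300, nat_lit 27784306212, nat_lit 22325643037, nat_lit 24129408319, nat_lit 24808403715, nat_lit 26734969837], nat_lit 0, nat_lit 0, nat_lit 0, nat_lit 0, nat_lit 0, nat_lit 0, [], [nat_lit 20, nat_lit 40, nat_lit 40, nat_lit 80, nat_lit 16, nat_lit 226, nat_lit 20, nat_lit 8]⟩, C1.Rw.none,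
 ⟨nat_lit 0, nat_lit 3163, ⟨.ofNat (nat_lit 516640), .ofNat (nat_lit 638543), .ofNat (nat_lit 560951), .ofNat (nat_lit 682855), .ofNat (nat_lit 499997), .ofNat (nat_lit 599993), .ofNat (nat_lit 549998), .ofNat (nat_lit 649995)⟩, ⟨.ofNat (nat_lit 0), .ofNat (nat_lit 139898), .ofNat (nat_lit 0), .ofNat (nat_lit 184209), .ofNat (nat_lit 0), .ofNat (nat_lit 149998), .ofNat (nat_lit 0), .ofNat (nat_lit 199999)⟩⟩, [⟨nat_lit 13, nat_lit 60, nat_lit 80, nat_lit 100, nat_lit 272198729⟩, ⟨nat_lit 3, nat_lit 100, nat_lit 61, nat_lit 47, nat_lit 109246829⟩]⟩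
noncomputable def p102_l111 : Lf2 := ⟨nat_lit 0, nat_lit 20, [nat_lit 5, nat_lit 5, nat_lit 5, nat_lit 20], true, nat_lit 80, nat_lit 200, nat_lit 0, nat_lit 384, ⟨nat_lit 0, nat_lit 527, nat_lit 473, nat_lit 4, nat_lit 180, nat_lit 1000, nat_lit 101, nat_lit 473, nat_lit 96267, nat_lit 291, nat_lit 94460, nat_lit 200, nat_lit 51138080, nat_lit 11275878, nat_lit 4586042, nat_lit 3663768, false, true⟩,
 nat_lit 0, nat_lit 0, nat_lit 0, nat_lit 704, nat_lit 2838, nat_lit 0, nat_lit 0, nat_lit 0, nat_lit 0, nat_lit 0, nat_lit 0, nat_lit 0, nat_lit 0, nat_lit 0, nat_lit 0, nat_lit 250000, nat_lit 0, nat_lit 0, [(nat_lit 25, [(nat_lit 0, nat_lit 527), (nat_lit 4, nat_lit 473)]), (nat_lit 28, [(nat_lit 0, nat_lit 527), (nat_lit 4, nat_lit 473)])],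
 ⟨p102_k22, nat_lit 0, nat_lit 0, nat_lit 142, nat_lit 0, nat_lit 0, [nat_lit 772140000, nat_lit 550194667, nat_lit 236406000], [], [nat_lit 18661695522, nat_lit 21872493096, nat_lit 24755224336, nat_lit 27236114408, nat_lit 20717253937, nat_lit 23390937873, nat_lit 25979608684, nat_lit 28153593720], nat_lit 0, nat_lit 0, nat_lit 0, nat_lit 0, nat_lit 0, nat_lit 0, [], [nat_lit 20, nat_lit 40, nat_lit 40, nat_lit 80, nat_lit 16, nat_lit 373, nat_lit 150, nat_lit 14]⟩, C1.Rw.none,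
 ⟨nat_lit 0, nat_lit 3163, ⟨.ofNat (nat_lit 216927), .ofNat (nat_lit 638543), .ofNat (nat_lit 258627), .ofNat (nat_lit 682855), .ofNat (nat_lit 252860), .ofNat (nat_lit 599993), .ofNat (nat_lit 300250), .ofNat (nat_lit 649995)⟩, ⟨.ofNat (nat_lit 139898), .ofNat (nat_lit 322753), .ofNat (nat_lit 184209), .ofNat (nat_lit 367065), .ofNat (nat_lit 149998), .ofNat (nat_lit 299993), .ofNat (nat_lit 199999), .ofNat (nat_lit 349995)⟩⟩, [⟨nat_lit 13, nat_lit 60, nat_lit 80, nat_lit 100, nat_lit 91004704⟩, ⟨nat_lit 16, nat_lit 60, nat_lit 100, nat_lit 80, nat_lit 97225541⟩]⟩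
noncomputable def p102_l112 : Lf2 := ⟨nat_lit 0, nat_lit 20, [nat_lit 5, nat_lit 5, nat_lit 5, nat_lit 20], true, nat_lit 0, nat_lit 200, nat_lit 0, nat_lit 384, ⟨nat_lit 0, nat_lit 1000, nat_lit 0, nat_lit 4, nat_lit 180, nat_lit 1000, nat_lit 67, nat_lit 0, nat_lit 0, nat_lit 0, nat_lit 0, nat_lit 0, nat_lit 0, nat_lit 0, nat_lit 0, nat_lit 5000000, false, true⟩,
 nat_lit 0, nat_lit 0, nat_lit 0, nat_lit 554, nat_lit 3853, nat_lit 0, nat_lit 0, nat_lit 0, nat_lit 0, nat_lit 0, nat_lit 0, nat_lit 0, nat_lit 0, nat_lit 0, nat_lit 0, nat_lit 332800, nat_lit 0, nat_lit 0, [(nat_lit 25, [(nat_lit 0, nat_lit 448), (nat_lit 1, nat_lit 552)]), (nat_lit 28, [(nat_lit 0, nat_lit 448), (nat_lit 1, nat_lit 552)])],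
 ⟨p102_k22, nat_lit 0, nat_lit 0, nat_lit 219, nat_lit 0, nat_lit 0, [nat_lit 816486401, nat_lit 1166400000, nat_lit 1454054400], [], [nat_lit 23139455933, nat_lit 27915817288, nat_lit 29005333700, nat_lit 32053681868, nat_lit 22899034212, nat_lit 25386883076, nat_lit 26873393098, nat_lit 29357322820], nat_lit 0, nat_lit 0, nat_lit 0, nat_lit 0, nat_lit 0, nat_lit 0, [], [nat_lit 20, nat_lit 40, nat_lit 40, nat_lit 80, nat_lit 16, nat_lit 373, nat_lit 150, nat_lit 14]⟩, C1.Rw.none,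
 ⟨nat_lit 0, nat_lit 3163, ⟨.ofNat (nat_lit 216927), .ofNat (nat_lit 638543), .ofNat (nat_lit 258627), .ofNat (nat_lit 682855), .ofNat (nat_lit 252860), .ofNat (nat_lit 599993), .ofNat (nat_lit 300250), .ofNat (nat_lit 649995)⟩, ⟨.ofNat (nat_lit 0), .ofNat (nat_lit 322753), .ofNat (nat_lit 0), .ofNat (nat_lit 367065), .ofNat (nat_lit 0), .ofNat (nat_lit 299993), .ofNat (nat_lit 0), .ofNat (nat_lit 349995)⟩⟩, [⟨nat_lit 13, nat_lit 60, nat_lit 80, nat_lit 100, nat_lit 207090156⟩]⟩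
noncomputable def b_V_900_400_10_4 : St := ⟨true, nat_lit 0, nat_lit 2, nat_lit 0, nat_lit 80, nat_lit 360, nat_lit 400, nat_lit 160, nat_lit 200, nat_lit 48, nat_lit 320, nat_lit 40, nat_lit 80, nat_lit 0, nat_lit 200, nat_lit 0, nat_lit 384, nat_lit 40, nat_lit 80, nat_lit 0, nat_lit 0, nat_lit 0, nat_lit 0⟩
theorem d_V_900_400_10_4 (h : EB TB.env) : Dead b_V_900_400_10_4 := chkB_sound0 h (T :=
(.gv
(.st (nat_lit 1)
(.spl (nat_lit 4) (nat_lit 80)
(.leaf p102_l106)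
(.leaf p102_l107))
(.spl (nat_lit 4) (nat_lit 80)
(.spl (nat_lit 2) (nat_lit 160)
(.leaf p102_l108)
(.spl (nat_lit 2) (nat_lit 240)
(.leaf p102_l109)
(.trX (nat_lit 22) (nat_lit 100) (nat_lit 76) (nat_lit 82) (nat_lit 336) (.leaf p102_l110))))
(.leaf p102_l111)))
(.leaf p102_l112))) (by decide +kernel)
noncomputable def p102_l113 : Lf2 := ⟨nat_lit 0, nat_lit 20, [nat_lit 5, nat_lit 5, nat_lit 5, nat_lit 20], true, nat_lit 0, nat_lit 80, nat_lit 0, nat_lit 384, ⟨nat_lit 0, nat_lit 81, nat_lit 919, nat_lit 4, nat_lit 134, nat_lit 1000, nat_lit 33, nat_lit 919, nat_lit 10417, nat_lit 240, nat_lit 170017, nat_lit 316, nat_lit 60211276, nat_lit 6788724, nat_lit 0, nat_lit 1639911, false, false⟩,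
 nat_lit 0, nat_lit 3211, nat_lit 0, nat_lit 0, nat_lit 2796, nat_lit 0, nat_lit 0, nat_lit 0, nat_lit 0, nat_lit 0, nat_lit 0, nat_lit 0, nat_lit 0, nat_lit 0, nat_lit 77, nat_lit 250000, nat_lit 0, nat_lit 0, [(nat_lit 25, [(nat_lit 0, nat_lit 81), (nat_lit 4, nat_lit 919)])],
 ⟨p102_k24, nat_lit 0, nat_lit 0, nat_lit 418, nat_lit 0, nat_lit 614533, [nat_lit 1169634560, nat_lit 139437824], [], [nat_lit 20582728317, nat_lit 22148301868, nat_lit 21921495968, nat_lit 23054161800, nat_lit 20508281312, nat_lit 21698886757, nat_lit 21837591120, nat_lit 22930256000], nat_lit 1271250, nat_lit 1271250, nat_lit 279600, nat_lit 1100001, nat_lit 0, nat_lit 490000, [nat_lit 230000, nat_lit 1420000], [nat_lit 88, nat_lit 40, nat_lit 40, nat_lit 80, nat_lit 89, nat_lit 272, nat_lit 60, nat_lit 10]⟩, C1.Rw.none,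
 ⟨nat_lit 2236, nat_lit 3163, ⟨.ofNat (nat_lit 223799), .ofNat (nat_lit 394735), .ofNat (nat_lit 267982), .ofNat (nat_lit 438942), .ofNat (nat_lit 237524), .ofNat (nat_lit 397434), .ofNat (nat_lit 282946), .ofNat (nat_lit 442880)⟩, ⟨.ofNat (nat_lit 0), .ofNat (nat_lit 139899), .ofNat (nat_lit 0), .ofNat (nat_lit 184209), .ofNat (nat_lit 0), .ofNat (nat_lit 146758), .ofNat (nat_lit 0), .ofNat (nat_lit 192306)⟩⟩, [⟨nat_lit 3, nat_lit 100, nat_lit 74, nat_lit 33, nat_lit 70763460⟩]⟩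
noncomputable def p102_l114 : Lf2 := ⟨nat_lit 0, nat_lit 20, [nat_lit 5, nat_lit 5, nat_lit 5, nat_lit 20], true, nat_lit 0, nat_lit 80, nat_lit 0, nat_lit 384, ⟨nat_lit 0, nat_lit 256, nat_lit 744, nat_lit 4, nat_lit 191, nat_lit 1000, nat_lit 33, nat_lit 744, nat_lit 10417, nat_lit 240, nat_lit 2400, nat_lit 227, nat_lit 54559638, nat_lit 12440362, nat_lit 0, nat_lit 2399466, false, true⟩,
 nat_lit 0, nat_lit 3059, nat_lit 0, nat_lit 0, nat_lit 2664, nat_lit 0, nat_lit 0, nat_lit 0, nat_lit 0, nat_lit 0, nat_lit 0, nat_lit 0, nat_lit 0, nat_lit 0, nat_lit 43, nat_lit 250000, nat_lit 0, nat_lit 0, [(nat_lit 25, [(nat_lit 0, nat_lit 256), (nat_lit 4, nat_lit 744)])],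
 ⟨p102_k22, nat_lit 0, nat_lit 0, nat_lit 363, nat_lit 0, nat_lit 614533, [nat_lit 909216000, nat_lit 597184001, nat_lit 48972799], [], [nat_lit 20925436574, nat_lit 21959474447, nat_lit 22908288223, nat_lit 23955149280, nat_lit 20717034014, nat_lit 21765445215, nat_lit 22694234911, nat_lit 23743126832], nat_lit 1271250, nat_lit 1271250, nat_lit 1100001, nat_lit 1785000, nat_lit 0, nat_lit 490000, [nat_lit 230000, nat_lit 780000, nat_lit 1435000], [nat_lit 20, nat_lit 40, nat_lit 40, nat_lit 80, nat_lit 16, nat_lit 317, nat_lit 100, nat_lit 12]⟩, C1.Rw.none,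
 ⟨nat_lit 2236, nat_lit 3163, ⟨.ofNat (nat_lit 394735), .ofNat (nat_lit 516642), .ofNat (nat_lit 438942), .ofNat (nat_lit 560952), .ofNat (nat_lit 397434), .ofNat (nat_lit 511466), .ofNat (nat_lit 442880), .ofNat (nat_lit 557014)⟩, ⟨.ofNat (nat_lit 0), .ofNat (nat_lit 139899), .ofNat (nat_lit 0), .ofNat (nat_lit 184209), .ofNat (nat_lit 0), .ofNat (nat_lit 146758), .ofNat (nat_lit 0), .ofNat (nat_lit 192306)⟩⟩, [⟨nat_lit 3, nat_lit 100, nat_lit 74, nat_lit 33, nat_lit 57394434⟩]⟩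
noncomputable def p102_l115 : Lf2 := ⟨nat_lit 0, nat_lit 20, [nat_lit 5, nat_lit 5, nat_lit 5, nat_lit 20], false, nat_lit 0, nat_lit 80, nat_lit 0, nat_lit 336, ⟨nat_lit 327, nat_lit 0, nat_lit 673, nat_lit 6, nat_lit 238, nat_lit 673, nat_lit 33, nat_lit 673, nat_lit 10417, nat_lit 240, nat_lit 94468, nat_lit 200, nat_lit 49460226, nat_lit 0, nat_lit 0, nat_lit 2874591, false, true⟩,
 nat_lit 0, nat_lit 3378, nat_lit 0, nat_lit 0, nat_lit 2941, nat_lit 2953, nat_lit 0, nat_lit 0, nat_lit 0, nat_lit 289, nat_lit 0, nat_lit 0, nat_lit 0, nat_lit 0, nat_lit 0, nat_lit 236650, nat_lit 0, nat_lit 0, [(nat_lit 25, [(nat_lit 4, nat_lit 217), (nat_lit 5, nat_lit 456)])],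
 ⟨p102_k22, nat_lit 0, nat_lit 0, nat_lit 359, nat_lit 0, nat_lit 614533, [nat_lit 795940400, nat_lit 668800934, nat_lit 252185422], [], [nat_lit 24450365286, nat_lit 25305011116, nat_lit 26832455440, nat_lit 28163480648, nat_lit 24032853558, nat_lit 24884380300, nat_lit 26402584736, nat_lit 27195923790], nat_lit 1271250, nat_lit 1271250, nat_lit 1271250, nat_lit 1271250, nat_lit 0, nat_lit 490000, [nat_lit 230000, nat_lit 780000, nat_lit 1435000], [nat_lit 20, nat_lit 40, nat_lit 40, nat_lit 80, nat_lit 16, nat_lit 226, nat_lit 20, nat_lit 8]⟩, ⟨p102_k23, nat_lit 0, nat_lit 0, nat_lit 409, nat_lit 0, nat_lit 0, [nat_lit 2605536000, nat_lit 3882144000, nat_lit 5362800000], [], [nat_lit 12708909222, nat_lit 12728857786, nat_lit 14004117066, nat_lit 13975034510, nat_lit 11430696182, nat_lit 11337536944, nat_lit 12125392415, nat_lit 11959315209], nat_lit 0, nat_lit 0, nat_lit 0, nat_lit 0, nat_lit 0, nat_lit 0, [],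 [nat_lit 97, nat_lit 40, nat_lit 40, nat_lit 80, nat_lit 76, nat_lit 456, nat_lit 225, nat_lit 10]⟩,
 ⟨nat_lit 2236, nat_lit 3163, ⟨.ofNat (nat_lit 516642), .ofNat (nat_lit 638549), .ofNat (nat_lit 560952), .ofNat (nat_lit 682859), .ofNat (nat_lit 511466), .ofNat (nat_lit 625497), .ofNat (nat_lit 557014), .ofNat (nat_lit 671045)⟩, ⟨.ofNat (nat_lit 0), .ofNat (nat_lit 139899), .ofNat (nat_lit 0), .ofNat (nat_lit 184209), .ofNat (nat_lit 0), .ofNat (nat_lit 146758), .ofNat (nat_lit 0), .ofNat (nat_lit 192306)⟩⟩, [⟨nat_lit 13, nat_lit 44, nat_lit 99, nat_lit 100, nat_lit 85279341⟩, ⟨nat_lit 22, nat_lit 94, nat_lit 100, nat_lit 62, nat_lit 54607067⟩]⟩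
noncomputable def p102_l116 : Lf2 := ⟨nat_lit 0, nat_lit 20, [nat_lit 5, nat_lit 5, nat_lit 5, nat_lit 20], true, nat_lit 80, nat_lit 200, nat_lit 0, nat_lit 384, ⟨nat_lit 0, nat_lit 0, nat_lit 1000, nat_lit 4, nat_lit 134, nat_lit 1000, nat_lit 102, nat_lit 1000, nat_lit 96267, nat_lit 291, nat_lit 170017, nat_lit 316, nat_lit 55173416, nat_lit 0, nat_lit 0, nat_lit 3106134, false, false⟩,
 nat_lit 0, nat_lit 3451, nat_lit 0, nat_lit 0, nat_lit 3005, nat_lit 0, nat_lit 0, nat_lit 0, nat_lit 0, nat_lit 0, nat_lit 0, nat_lit 0, nat_lit 0, nat_lit 0, nat_lit 71, nat_lit 250000, nat_lit 0, nat_lit 0, [(nat_lit 25, [(nat_lit 0, nat_lit 115), (nat_lit 4, nat_lit 885)])],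
 ⟨p102_k24, nat_lit 0, nat_lit 0, nat_lit 362, nat_lit 0, nat_lit 614533, [nat_lit 1142022400, nat_lit 145288960], [], [nat_lit 18754344428, nat_lit 20226423459, nat_lit 19986285300, nat_lit 21149569210, nat_lit 20957159890, nat_lit 22259289618, nat_lit 22130469710, nat_lit 23323267335], nat_lit 1271250, nat_lit 1271250, nat_lit 279600, nat_lit 1100001, nat_lit 490000, nat_lit 1427500, [nat_lit 230000, nat_lit 1420000], [nat_lit 88, nat_lit 40, nat_lit 40, nat_lit 80, nat_lit 89, nat_lit 317, nat_lit 100, nat_lit 12]⟩, C1.Rw.none,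
 ⟨nat_lit 2236, nat_lit 3163, ⟨.ofNat (nat_lit 223799), .ofNat (nat_lit 394735), .ofNat (nat_lit 267982), .ofNat (nat_lit 438942), .ofNat (nat_lit 237524), .ofNat (nat_lit 397434), .ofNat (nat_lit 282946), .ofNat (nat_lit 442880)⟩, ⟨.ofNat (nat_lit 139899), .ofNat (nat_lit 322759), .ofNat (nat_lit 184209), .ofNat (nat_lit 367069), .ofNat (nat_lit 146758), .ofNat (nat_lit 317804), .ofNat (nat_lit 192306), .ofNat (nat_lit 363353)⟩⟩, [⟨nat_lit 4, nat_lit 100, nat_lit 54, nat_lit 73, nat_lit 237736316⟩]⟩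
noncomputable def p102_l117 : Lf2 := ⟨nat_lit 0, nat_lit 20, [nat_lit 5, nat_lit 5, nat_lit 5, nat_lit 20], false, nat_lit 80, nat_lit 200, nat_lit 0, nat_lit 160, ⟨nat_lit 379, nat_lit 0, nat_lit 621, nat_lit 4, nat_lit 215, nat_lit 621, nat_lit 102, nat_lit 621, nat_lit 96267, nat_lit 291, nat_lit 94468, nat_lit 200, nat_lit 47818235, nat_lit 0, nat_lit 0, nat_lit 4012223, false, true⟩,
 nat_lit 0, nat_lit 3500, nat_lit 0, nat_lit 0, nat_lit 3048, nat_lit 3207, nat_lit 36, nat_lit 0, nat_lit 0, nat_lit 392, nat_lit 0, nat_lit 0, nat_lit 0, nat_lit 0, nat_lit 0, nat_lit 248400, nat_lit 0, nat_lit 0, [(nat_lit 25, [(nat_lit 5, nat_lit 621)])],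
 ⟨p102_k22, nat_lit 0, nat_lit 0, nat_lit 315, nat_lit 0, nat_lit 614533, [nat_lit 806596400, nat_lit 800070001, nat_lit 473096800], [], [nat_lit 21287586121, nat_lit 22249828761, nat_lit 25402596741, nat_lit 26298838416, nat_lit 22800791465, nat_lit 23687806797, nat_lit 26601139765, nat_lit 27373834956], nat_lit 1271250, nat_lit 1271250, nat_lit 1100001, nat_lit 2470000, nat_lit 490000, nat_lit 1427500, [nat_lit 230000, nat_lit 780000, nat_lit 1435000], [nat_lit 20, nat_lit 40, nat_lit 40, nat_lit 80, nat_lit 16, nat_lit 373, nat_lit 150, nat_lit 13]⟩, ⟨p102_k23, nat_lit 0, nat_lit 0, nat_lit 433, nat_lit 0, nat_lit 0, [nat_lit 3019872000, nat_lit 4499488000, nat_lit 6215600000], [], [nat_lit 13784977456, nat_lit 13901731956, nat_lit 15391652092, nat_lit 15487048240, nat_lit 11280569556, nat_lit 11369122652, nat_lit 12957532012, nat_lit 13019633564], nat_lit 0, nat_lit 0, nat_lit 0, nat_lit 0, nat_lit 0, nat_lit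 0, [], [nat_lit 97, nat_lit 40, nat_lit 40, nat_lit 80, nat_lit 76, nat_lit 401, nat_lit 175, nat_lit 9]⟩,
 ⟨nat_lit 2236, nat_lit 3163, ⟨.ofNat (nat_lit 394735), .ofNat (nat_lit 638549), .ofNat (nat_lit 438942), .ofNat (nat_lit 682859), .ofNat (nat_lit 397434), .ofNat (nat_lit 625497), .ofNat (nat_lit 442880), .ofNat (nat_lit 671045)⟩, ⟨.ofNat (nat_lit 139899), .ofNat (nat_lit 322759), .ofNat (nat_lit 184209), .ofNat (nat_lit 367069), .ofNat (nat_lit 146758), .ofNat (nat_lit 317804), .ofNat (nat_lit 192306), .ofNat (nat_lit 363353)⟩⟩, [⟨nat_lit 13, nat_lit 44, nat_lit 99, nat_lit 100, nat_lit 16465702⟩, ⟨nat_lit 4, nat_lit 100, nat_lit 54, nat_lit 73, nat_lit 320174909⟩]⟩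
noncomputable def p102_l118 : Lf2 := ⟨nat_lit 0, nat_lit 20, [nat_lit 5, nat_lit 5, nat_lit 5, nat_lit 20], false, nat_lit 80, nat_lit 200, nat_lit 160, nat_lit 384, ⟨nat_lit 228, nat_lit 0, nat_lit 772, nat_lit 4, nat_lit 215, nat_lit 772, nat_lit 102, nat_lit 772, nat_lit 96267, nat_lit 291, nat_lit 94468, nat_lit 200, nat_lit 47763093, nat_lit 0, nat_lit 0, nat_lit 4015533, false, true⟩,
 nat_lit 0, nat_lit 3315, nat_lit 0, nat_lit 0, nat_lit 2887, nat_lit 3008, nat_lit 9, nat_lit 0, nat_lit 0, nat_lit 209, nat_lit 0, nat_lit 0, nat_lit 0, nat_lit 0, nat_lit 1, nat_lit 193000, nat_lit 0, nat_lit 0, [(nat_lit 25, [(nat_lit 4, nat_lit 772)])],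
 ⟨p102_k22, nat_lit 0, nat_lit 0, nat_lit 244, nat_lit 0, nat_lit 462287, [nat_lit 779880000, nat_lit 480934934, nat_lit 20037866], [], [nat_lit 20539181434, nat_lit 20800414334, nat_lit 24779807516, nat_lit 25097475913, nat_lit 22206716974, nat_lit 22432371334, nat_lit 26058015051, nat_lit 26296317168], nat_lit 1271250, nat_lit 1271250, nat_lit 1100001, nat_lit 2470000, nat_lit 490000, nat_lit 1427500, [nat_lit 230000, nat_lit 780000, nat_lit 1435000], [nat_lit 20, nat_lit 40, nat_lit 40, nat_lit 80, nat_lit 16, nat_lit 373, nat_lit 150, nat_lit 13]⟩, ⟨p102_k23, nat_lit 0, nat_lit 0, nat_lit 226, nat_lit 0, nat_lit 0, [nat_lit 1816704000, nat_lit 2706816000, nat_lit 3739200000], [], [nat_lit 6139567226, nat_lit 6209554874, nat_lit 7545695514, nat_lit 7435904042, nat_lit 8798124302, nat_lit 8590993604, nat_lit 8894688234, nat_lit 8645691264], nat_lit 0, nat_lit 0, nat_lit 0, nat_lit 0, nat_lit 0, nat_lit 0, [],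 [nat_lit 97, nat_lit 40, nat_lit 40, nat_lit 80, nat_lit 76, nat_lit 483, nat_lit 250, nat_lit 10]⟩,
 ⟨nat_lit 2958, nat_lit 3163, ⟨.ofNat (nat_lit 394735), .ofNat (nat_lit 638549), .ofNat (nat_lit 439042), .ofNat (nat_lit 682859), .ofNat (nat_lit 395423), .ofNat (nat_lit 635507), .ofNat (nat_lit 439975), .ofNat (nat_lit 680062)⟩, ⟨.ofNat (nat_lit 139899), .ofNat (nat_lit 322759), .ofNat (nat_lit 184209), .ofNat (nat_lit 367069), .ofNat (nat_lit 141719), .ofNat (nat_lit 321782), .ofNat (nat_lit 186273), .ofNat (nat_lit 366336)⟩⟩, [⟨nat_lit 13, nat_lit 59, nat_lit 87, nat_lit 100, nat_lit 34251117⟩, ⟨nat_lit 16, nat_lit 59, nat_lit 100, nat_lit 72, nat_lit 201221019⟩, ⟨nat_lit 7, nat_lit 63, nat_lit 100, nat_lit 72, nat_lit 113363605⟩]⟩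
noncomputable def p102_l119 : Lf2 := ⟨nat_lit 0, nat_lit 20, [nat_lit 5, nat_lit 5, nat_lit 5, nat_lit 20], false, nat_lit 80, nat_lit 192, nat_lit 160, nat_lit 384, ⟨nat_lit 236, nat_lit 0, nat_lit 764, nat_lit 4, nat_lit 214, nat_lit 764, nat_lit 99, nat_lit 764, nat_lit 93750, nat_lit 290, nat_lit 76868, nat_lit 200, nat_lit 48045390, nat_lit 0, nat_lit 0, nat_lit 3973574, false, true⟩,
 nat_lit 0, nat_lit 3294, nat_lit 0, nat_lit 0, nat_lit 2920, nat_lit 3137, nat_lit 20, nat_lit 0, nat_lit 0, nat_lit 223, nat_lit 0, nat_lit 0, nat_lit 0, nat_lit 0, nat_lit 0, nat_lit 191000, nat_lit 0, nat_lit 0, [(nat_lit 25, [(nat_lit 4, nat_lit 764)])],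
 ⟨p102_k25, nat_lit 0, nat_lit 0, nat_lit 255, nat_lit 0, nat_lit 500591, [nat_lit 777560000, nat_lit 498085867, nat_lit 63187733], [], [nat_lit 20427004200, nat_lit 20703744120, nat_lit 24966311905, nat_lit 25270657640, nat_lit 22089980824, nat_lit 22331115352, nat_lit 26138173666, nat_lit 26374185060], nat_lit 1271250, nat_lit 1271250, nat_lit 1100001, nat_lit 2435750, nat_lit 490000, nat_lit 1365000, [nat_lit 230000, nat_lit 780000, nat_lit 1435000], [nat_lit 20, nat_lit 40, nat_lit 40, nat_lit 80, nat_lit 16, nat_lit 373, nat_lit 150, nat_lit 13]⟩, ⟨p102_k23, nat_lit 0, nat_lit 0, nat_lit 226, nat_lit 0, nat_lit 0, [nat_lit 1880448000, nat_lit 2801792000, nat_lit 3870400000], [], [nat_lit 6283533954, nat_lit 6354837622, nat_lit 7679957829, nat_lit 7569713388, nat_lit 9045718474, nat_lit 8828294040, nat_lit 9116148437, nat_lit 8900203563], nat_lit 0, nat_lit 0, nat_lit 0, nat_lit 0, nat_lit 0, nat_lit 0, [],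 [nat_lit 97, nat_lit 40, nat_lit 40, nat_lit 80, nat_lit 76, nat_lit 456, nat_lit 225, nat_lit 9]⟩,
 ⟨nat_lit 2738, nat_lit 2959, ⟨.ofNat (nat_lit 395423), .ofNat (nat_lit 629505), .ofNat (nat_lit 439974), .ofNat (nat_lit 674059), .ofNat (nat_lit 396102), .ofNat (nat_lit 626442), .ofNat (nat_lit 440933), .ofNat (nat_lit 671276)⟩, ⟨.ofNat (nat_lit 141719), .ofNat (nat_lit 309778), .ofNat (nat_lit 186273), .ofNat (nat_lit 354332), .ofNat (nat_lit 143475), .ofNat (nat_lit 308847), .ofNat (nat_lit 188310), .ofNat (nat_lit 353682)⟩⟩, [⟨nat_lit 13, nat_lit 55, nat_lit 89, nat_lit 100, nat_lit 54759351⟩, ⟨nat_lit 4, nat_lit 100, nat_lit 56, nat_lit 73, nat_lit 213767569⟩, ⟨nat_lit 7, nat_lit 63, nat_lit 100, nat_lit 72, nat_lit 119917569⟩]⟩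
noncomputable def p102_l120 : Lf2 := ⟨nat_lit 0, nat_lit 20, [nat_lit 5, nat_lit 5, nat_lit 5, nat_lit 20], false, nat_lit 80, nat_lit 184, nat_lit 160, nat_lit 384, ⟨nat_lit 227, nat_lit 0, nat_lit 773, nat_lit 4, nat_lit 211, nat_lit 773, nat_lit 97, nat_lit 773, nat_lit 88817, nat_lit 288, nat_lit 47678, nat_lit 200, nat_lit 48435851, nat_lit 0, nat_lit 0, nat_lit 3921505, false, true⟩,
 nat_lit 0, nat_lit 3220, nat_lit 0, nat_lit 0, nat_lit 2905, nat_lit 3078, nat_lit 12, nat_lit 0, nat_lit 0, nat_lit 219, nat_lit 0, nat_lit 0, nat_lit 0, nat_lit 0, nat_lit 1, nat_lit 193250, nat_lit 0, nat_lit 0, [(nat_lit 25, [(nat_lit 4, nat_lit 773)])],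
 ⟨p102_k26, nat_lit 0, nat_lit 0, nat_lit 274, nat_lit 0, nat_lit 537785, [nat_lit 779670001, nat_lit 477291067, nat_lit 12144133], [], [nat_lit 20692414510, nat_lit 20968534353, nat_lit 24927052646, nat_lit 25193291303, nat_lit 22156167855, nat_lit 22419550194, nat_lit 25967787094, nat_lit 26184588079], nat_lit 1271250, nat_lit 1271250, nat_lit 1100001, nat_lit 2367250, nat_lit 490000, nat_lit 1302500, [nat_lit 230000, nat_lit 780000, nat_lit 1435000], [nat_lit 20, nat_lit 40, nat_lit 40, nat_lit 80, nat_lit 16, nat_lit 345, nat_lit 125, nat_lit 12]⟩, ⟨p102_k23, nat_lit 0, nat_lit 0, nat_lit 226, nat_lit 0, nat_lit 0, [nat_lit 1808736000, nat_lit 2694944000, nat_lit 3722800000], [], [nat_lit 5986404106, nat_lit 6052042610, nat_lit 7216297319, nat_lit 7115534393, nat_lit 8669991012, nat_lit 8453036355, nat_lit 8677272866, nat_lit 8475618106], nat_lit 0, nat_lit 0, nat_lit 0, nat_lit 0, nat_lit 0, nat_lit 0, [],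 [nat_lit 97, nat_lit 40, nat_lit 40, nat_lit 80, nat_lit 76, nat_lit 456, nat_lit 225, nat_lit 9]⟩,
 ⟨nat_lit 2500, nat_lit 2739, ⟨.ofNat (nat_lit 396102), .ofNat (nat_lit 614629), .ofNat (nat_lit 440931), .ofNat (nat_lit 659464), .ofNat (nat_lit 396773), .ofNat (nat_lit 611611), .ofNat (nat_lit 441928), .ofNat (nat_lit 656773)⟩, ⟨.ofNat (nat_lit 143475), .ofNat (nat_lit 297035), .ofNat (nat_lit 188310), .ofNat (nat_lit 341870), .ofNat (nat_lit 145160), .ofNat (nat_lit 296128), .ofNat (nat_lit 190321), .ofNat (nat_lit 341289)⟩⟩, [⟨nat_lit 13, nat_lit 51, nat_lit 91, nat_lit 100, nat_lit 61763810⟩, ⟨nat_lit 4, nat_lit 100, nat_lit 52, nat_lit 74, nat_lit 224950674⟩, ⟨nat_lit 7, nat_lit 63, nat_lit 100, nat_lit 72, nat_lit 117734465⟩]⟩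
noncomputable def p102_l121 : Lf2 := ⟨nat_lit 0, nat_lit 20, [nat_lit 5, nat_lit 5, nat_lit 5, nat_lit 20], false, nat_lit 80, nat_lit 176, nat_lit 160, nat_lit 384, ⟨nat_lit 223, nat_lit 7, nat_lit 770, nat_lit 4, nat_lit 208, nat_lit 777, nat_lit 95, nat_lit 770, nat_lit 84017, nat_lit 286, nat_lit 19070, nat_lit 200, nat_lit 48820192, nat_lit 14031039, nat_lit 4148769, nat_lit 3869373, false, true⟩,
 nat_lit 0, nat_lit 3192, nat_lit 0, nat_lit 0, nat_lit 2931, nat_lit 3071, nat_lit 0, nat_lit 0, nat_lit 0, nat_lit 219, nat_lit 0, nat_lit 0, nat_lit 0, nat_lit 0, nat_lit 2, nat_lit 194250, nat_lit 0, nat_lit 0, [(nat_lit 25, [(nat_lit 0, nat_lit 7), (nat_lit 4, nat_lit 770)])],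
 ⟨p102_k27, nat_lit 0, nat_lit 0, nat_lit 303, nat_lit 0, nat_lit 573541, [nat_lit 783082000, nat_lit 486830267, nat_lit 27604133], [], [nat_lit 21018691455, nat_lit 21295886098, nat_lit 24920022598, nat_lit 25186982374, nat_lit 22266595329, nat_lit 22533839372, nat_lit 25964759487, nat_lit 26207718324], nat_lit 1271250, nat_lit 1271250, nat_lit 1100001, nat_lit 2298750, nat_lit 490000, nat_lit 1236400, [nat_lit 230000, nat_lit 780000, nat_lit 1435000], [nat_lit 20, nat_lit 40, nat_lit 40, nat_lit 80, nat_lit 16, nat_lit 345, nat_lit 125, nat_lit 12]⟩, ⟨p102_k23, nat_lit 0, nat_lit 0, nat_lit 226, nat_lit 0, nat_lit 0, [nat_lit 1776864000, nat_lit 2647456000, nat_lit 3657200000], [], [nat_lit 5832620182, nat_lit 5894806866, nat_lit 6925486974, nat_lit 6833205660, nat_lit 8489752292, nat_lit 8270526635, nat_lit 8440111029, nat_lit 8235825996], nat_lit 0, nat_lit 0, nat_lit 0, nat_lit 0, nat_lit 0, nat_lit 0, [],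 [nat_lit 97, nat_lit 40, nat_lit 40, nat_lit 80, nat_lit 76, nat_lit 456, nat_lit 225, nat_lit 9]⟩,
 ⟨nat_lit 2236, nat_lit 2500, ⟨.ofNat (nat_lit 396773), .ofNat (nat_lit 599999), .ofNat (nat_lit 441925), .ofNat (nat_lit 645160), .ofNat (nat_lit 397434), .ofNat (nat_lit 596989), .ofNat (nat_lit 442974), .ofNat (nat_lit 642537)⟩, ⟨.ofNat (nat_lit 145160), .ofNat (nat_lit 284515), .ofNat (nat_lit 190321), .ofNat (nat_lit 329676), .ofNat (nat_lit 146758), .ofNat (nat_lit 283595), .ofNat (nat_lit 192306), .ofNat (nat_lit 329144)⟩⟩, [⟨nat_lit 13, nat_lit 46, nat_lit 93, nat_lit 100, nat_lit 76939736⟩, ⟨nat_lit 4, nat_lit 100, nat_lit 48, nat_lit 75, nat_lit 253658369⟩, ⟨nat_lit 19, nat_lit 100, nat_lit 63, nat_lit 72, nat_lit 117771757⟩]⟩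
noncomputable def p102_l122 : Lf2 := ⟨nat_lit 0, nat_lit 20, [nat_lit 5, nat_lit 5, nat_lit 5, nat_lit 20], true, nat_lit 0, nat_lit 164, nat_lit 0, nat_lit 384, ⟨nat_lit 0, nat_lit 0, nat_lit 1000, nat_lit 4, nat_lit 145, nat_lit 1000, nat_lit 57, nat_lit 1000, nat_lit 30817, nat_lit 258, nat_lit 198017, nat_lit 324, nat_lit 59177757, nat_lit 0, nat_lit 0, nat_lit 1801992, false, false⟩,
 nat_lit 0, nat_lit 2688, nat_lit 0, nat_lit 0, nat_lit 2511, nat_lit 0, nat_lit 0, nat_lit 0, nat_lit 0, nat_lit 0, nat_lit 0, nat_lit 0, nat_lit 0, nat_lit 0, nat_lit 203, nat_lit 400000, nat_lit 0, nat_lit 0, [(nat_lit 28, [(nat_lit 5, nat_lit 1000)])],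
 ⟨p102_k28, nat_lit 0, nat_lit 0, nat_lit 473, nat_lit 0, nat_lit 750281, [nat_lit 1405600001, nat_lit 416400000], [], [nat_lit 20786586501, nat_lit 22681960189, nat_lit 21797568399, nat_lit 23019657925, nat_lit 22004653402, nat_lit 23143487743, nat_lit 23240136394, nat_lit 24273770071], nat_lit 1271250, nat_lit 1271250, nat_lit 462650, nat_lit 1100001, nat_lit 0, nat_lit 1133651, [nat_lit 230000, nat_lit 1420000], [nat_lit 88, nat_lit 40, nat_lit 40, nat_lit 80, nat_lit 89, nat_lit 317, nat_lit 100, nat_lit 12]⟩, C1.Rw.none,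
 ⟨nat_lit 0, nat_lit 2237, ⟨.ofNat (nat_lit 273845), .ofNat (nat_lit 397434), .ofNat (nat_lit 317541), .ofNat (nat_lit 441142), .ofNat (nat_lit 291142), .ofNat (nat_lit 399999), .ofNat (nat_lit 339289), .ofNat (nat_lit 448157)⟩, ⟨.ofNat (nat_lit 0), .ofNat (nat_lit 266484), .ofNat (nat_lit 0), .ofNat (nat_lit 312035), .ofNat (nat_lit 0), .ofNat (nat_lit 254993), .ofNat (nat_lit 0), .ofNat (nat_lit 304995)⟩⟩, [⟨nat_lit 0, nat_lit 100, nat_lit 31, nat_lit 92, nat_lit 338326241⟩, ⟨nat_lit 4, nat_lit 100, nat_lit 35, nat_lit 80, nat_lit 76172559⟩]⟩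
noncomputable def p102_l123 : Lf2 := ⟨nat_lit 0, nat_lit 20, [nat_lit 5, nat_lit 5, nat_lit 5, nat_lit 20], true, nat_lit 0, nat_lit 80, nat_lit 0, nat_lit 384, ⟨nat_lit 0, nat_lit 712, nat_lit 288, nat_lit 4, nat_lit 191, nat_lit 1000, nat_lit 34, nat_lit 288, nat_lit 11267, nat_lit 241, nat_lit 4313, nat_lit 229, nat_lit 54584053, nat_lit 12415947, nat_lit 0, nat_lit 2396770, false, true⟩,
 nat_lit 0, nat_lit 2742, nat_lit 0, nat_lit 0, nat_lit 2562, nat_lit 0, nat_lit 0, nat_lit 0, nat_lit 0, nat_lit 0, nat_lit 0, nat_lit 0, nat_lit 0, nat_lit 0, nat_lit 53, nat_lit 400000, nat_lit 0, nat_lit 0, [(nat_lit 28, [(nat_lit 1, nat_lit 712), (nat_lit 5, nat_lit 288)])],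
 ⟨p102_k29, nat_lit 0, nat_lit 0, nat_lit 403, nat_lit 0, nat_lit 655093, [nat_lit 879648001, nat_lit 357382401, nat_lit 108899200], [], [nat_lit 21931369821, nat_lit 22488073243, nat_lit 23899936335, nat_lit 24478435265, nat_lit 21849085237, nat_lit 22370611623, nat_lit 23805099331, nat_lit 24346922599], nat_lit 1271250, nat_lit 1271250, nat_lit 1100001, nat_lit 1785000, nat_lit 0, nat_lit 490000, [nat_lit 230000, nat_lit 780000, nat_lit 1435000], [nat_lit 20, nat_lit 40, nat_lit 40, nat_lit 80, nat_lit 16, nat_lit 317, nat_lit 100, nat_lit 11]⟩, C1.Rw.none,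
 ⟨nat_lit 1581, nat_lit 2237, ⟨.ofNat (nat_lit 397434), .ofNat (nat_lit 511466), .ofNat (nat_lit 442898), .ofNat (nat_lit 557014), .ofNat (nat_lit 398733), .ofNat (nat_lit 508004), .ofNat (nat_lit 445278), .ofNat (nat_lit 554634)⟩, ⟨.ofNat (nat_lit 0), .ofNat (nat_lit 146758), .ofNat (nat_lit 0), .ofNat (nat_lit 192306), .ofNat (nat_lit 0), .ofNat (nat_lit 149571), .ofNat (nat_lit 0), .ofNat (nat_lit 196201)⟩⟩, []⟩
noncomputable def p102_l124 : Lf2 := ⟨nat_lit 0, nat_lit 20, [nat_lit 5, nat_lit 5, nat_lit 5, nat_lit 20], false, nat_lit 8, nat_lit 80, nat_lit 0, nat_lit 384, ⟨nat_lit 162, nat_lit 398, nat_lit 440, nat_lit 4, nat_lit 190, nat_lit 838, nat_lit 39, nat_lit 440, nat_lit 14017, nat_lit 244, nat_lit 4406, nat_lit 230, nat_lit 53544526, nat_lit 12368649, nat_lit 1086825, nat_lit 2877842, false, true⟩,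
 nat_lit 0, nat_lit 2844, nat_lit 0, nat_lit 0, nat_lit 2749, nat_lit 1502, nat_lit 0, nat_lit 0, nat_lit 0, nat_lit 148, nat_lit 0, nat_lit 0, nat_lit 0, nat_lit 0, nat_lit 1, nat_lit 275500, nat_lit 0, nat_lit 0, [(nat_lit 28, [(nat_lit 0, nat_lit 398), (nat_lit 5, nat_lit 440)])],
 ⟨p102_k30, nat_lit 0, nat_lit 0, nat_lit 363, nat_lit 0, nat_lit 717985, [nat_lit 728216800, nat_lit 181016001, nat_lit 21938799], [], [nat_lit 22884909703, nat_lit 23471353669, nat_lit 24947908242, nat_lit 25523690802, nat_lit 22769483345, nat_lit 23332457569, nat_lit 24786250539, nat_lit 25328444056], nat_lit 1271250, nat_lit 1271250, nat_lit 1100001, nat_lit 1785000, nat_lit 43600, nat_lit 490000, [nat_lit 230000, nat_lit 780000, nat_lit 1100000], [nat_lit 35, nat_lit 40, nat_lit 40, nat_lit 80, nat_lit 22, nat_lit 226, nat_lit 20, nat_lit 9]⟩, ⟨p102_k23, nat_lit 0, nat_lit 0, nat_lit 433, nat_lit 0, nat_lit 0, [nat_lit 1290816000,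 nat_lit 1923264000, nat_lit 2656800000], [], [nat_lit 6056492568, nat_lit 6097237424, nat_lit 6235528080, nat_lit 6243075992, nat_lit 6106985501, nat_lit 6041766703, nat_lit 6062990541, nat_lit 5978183706], nat_lit 0, nat_lit 0, nat_lit 0, nat_lit 0, nat_lit 0, nat_lit 0, [], [nat_lit 97, nat_lit 40, nat_lit 40, nat_lit 80, nat_lit 76, nat_lit 456, nat_lit 225, nat_lit 10]⟩,
 ⟨nat_lit 0, nat_lit 1582, ⟨.ofNat (nat_lit 398733), .ofNat (nat_lit 508001), .ofNat (nat_lit 444052), .ofNat (nat_lit 554633), .ofNat (nat_lit 399999), .ofNat (nat_lit 499996), .ofNat (nat_lit 448688), .ofNat (nat_lit 549998)⟩, ⟨.ofNat (nat_lit 20000), .ofNat (nat_lit 149570), .ofNat (nat_lit 20000), .ofNat (nat_lit 196201), .ofNat (nat_lit 20000), .ofNat (nat_lit 149998), .ofNat (nat_lit 20000), .ofNat (nat_lit 199999)⟩⟩, [⟨nat_lit 13, nat_lit 22, nat_lit 100, nat_lit 100, nat_lit 10011807⟩, ⟨nat_lit 22, nat_lit 100, nat_lit 78, nat_lit 63,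 nat_lit 46282851⟩]⟩
noncomputable def p102_l125 : Lf2 := ⟨nat_lit 0, nat_lit 20, [nat_lit 5, nat_lit 5, nat_lit 5, nat_lit 20], false, nat_lit 0, nat_lit 80, nat_lit 0, nat_lit 336, ⟨nat_lit 440, nat_lit 0, nat_lit 560, nat_lit 6, nat_lit 225, nat_lit 560, nat_lit 34, nat_lit 560, nat_lit 11267, nat_lit 241, nat_lit 4626, nat_lit 204, nat_lit 50930052, nat_lit 0, nat_lit 0, nat_lit 2754533, false, true⟩,
 nat_lit 0, nat_lit 3185, nat_lit 0, nat_lit 0, nat_lit 2976, nat_lit 7197, nat_lit 5, nat_lit 0, nat_lit 0, nat_lit 547, nat_lit 0, nat_lit 0, nat_lit 0, nat_lit 0, nat_lit 0, nat_lit 224000, nat_lit 0, nat_lit 0, [(nat_lit 28, [(nat_lit 5, nat_lit 560)])],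
 ⟨p102_k29, nat_lit 0, nat_lit 0, nat_lit 424, nat_lit 0, nat_lit 750281, [nat_lit 745136001, nat_lit 452656001, nat_lit 709584000], [], [nat_lit 25247404299, nat_lit 26271496843, nat_lit 26736343170, nat_lit 28164778944, nat_lit 24908294700, nat_lit 25867461483, nat_lit 26316904859, nat_lit 27202768927], nat_lit 1271250, nat_lit 1271250, nat_lit 1271250, nat_lit 1271250, nat_lit 0, nat_lit 490000, [nat_lit 230000, nat_lit 780000, nat_lit 1435000], [nat_lit 20, nat_lit 40, nat_lit 40, nat_lit 80, nat_lit 16, nat_lit 226, nat_lit 20, nat_lit 7]⟩, ⟨p102_k23, nat_lit 0, nat_lit 0, nat_lit 409, nat_lit 0, nat_lit 0, [nat_lit 3505920000, nat_lit 5223680000, nat_lit 7216000000], [], [nat_lit 18551925150, nat_lit 18440935866, nat_lit 20048389005, nat_lit 19778678049, nat_lit 13362156100, nat_lit 12846715970, nat_lit 14041683214, nat_lit 13708098566], nat_lit 0, nat_lit 0, nat_lit 0, nat_lit 0, nat_lit 0, nat_lit 0, [],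 [nat_lit 97, nat_lit 40, nat_lit 40, nat_lit 80, nat_lit 76, nat_lit 456, nat_lit 225, nat_lit 10]⟩,
 ⟨nat_lit 0, nat_lit 2237, ⟨.ofNat (nat_lit 511462), .ofNat (nat_lit 579878), .ofNat (nat_lit 557013), .ofNat (nat_lit 625429), .ofNat (nat_lit 499995), .ofNat (nat_lit 559993), .ofNat (nat_lit 549998), .ofNat (nat_lit 609995)⟩, ⟨.ofNat (nat_lit 0), .ofNat (nat_lit 146756), .ofNat (nat_lit 0), .ofNat (nat_lit 192306), .ofNat (nat_lit 0), .ofNat (nat_lit 149997), .ofNat (nat_lit 0), .ofNat (nat_lit 199999)⟩⟩, [⟨nat_lit 13, nat_lit 31, nat_lit 98, nat_lit 100, nat_lit 513083715⟩]⟩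
noncomputable def p102_l126 : Lf2 := ⟨nat_lit 0, nat_lit 20, [nat_lit 5, nat_lit 5, nat_lit 5, nat_lit 20], false, nat_lit 80, nat_lit 164, nat_lit 0, nat_lit 384, ⟨nat_lit 163, nat_lit 353, nat_lit 484, nat_lit 4, nat_lit 204, nat_lit 837, nat_lit 92, nat_lit 484, nat_lit 79350, nat_lit 284, nat_lit 4634, nat_lit 204, nat_lit 49391570, nat_lit 13652299, nat_lit 3956131, nat_lit 3790118, false, true⟩,
 nat_lit 0, nat_lit 3046, nat_lit 0, nat_lit 0, nat_lit 2846, nat_lit 1421, nat_lit 0, nat_lit 0, nat_lit 0, nat_lit 138, nat_lit 0, nat_lit 0, nat_lit 0, nat_lit 0, nat_lit 19, nat_lit 281850, nat_lit 0, nat_lit 0, [(nat_lit 28, [(nat_lit 0, nat_lit 353), (nat_lit 5, nat_lit 484)])],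
 ⟨p102_k29, nat_lit 0, nat_lit 0, nat_lit 332, nat_lit 0, nat_lit 655093, [nat_lit 792101201, nat_lit 288603201, nat_lit 186068800], [], [nat_lit 21249137695, nat_lit 21826444131, nat_lit 24674637615, nat_lit 25195993612, nat_lit 22296269113, nat_lit 22818917394, nat_lit 25575958999, nat_lit 26061960593], nat_lit 1271250, nat_lit 1271250, nat_lit 1100001, nat_lit 2196000, nat_lit 490000, nat_lit 1133651, [nat_lit 230000, nat_lit 780000, nat_lit 1435000], [nat_lit 20, nat_lit 40, nat_lit 40, nat_lit 80, nat_lit 16, nat_lit 345, nat_lit 125, nat_lit 12]⟩, ⟨p102_k23, nat_lit 0, nat_lit 0, nat_lit 433, nat_lit 0, nat_lit 0, [nat_lit 1298784000, nat_lit 1935136000, nat_lit 2673200000], [], [nat_lit 6224421532, nat_lit 6271721024, nat_lit 6687960380, nat_lit 6676166973, nat_lit 6232533386, nat_lit 6178557617, nat_lit 6337694802, nat_lit 6249027936], nat_lit 0, nat_lit 0, nat_lit 0, nat_lit 0, nat_lit 0, nat_lit 0, [],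 [nat_lit 97, nat_lit 40, nat_lit 40, nat_lit 80, nat_lit 76, nat_lit 456, nat_lit 225, nat_lit 10]⟩,
 ⟨nat_lit 1581, nat_lit 2237, ⟨.ofNat (nat_lit 397434), .ofNat (nat_lit 579884), .ofNat (nat_lit 442898), .ofNat (nat_lit 625433), .ofNat (nat_lit 398733), .ofNat (nat_lit 573567), .ofNat (nat_lit 445278), .ofNat (nat_lit 620197)⟩, ⟨.ofNat (nat_lit 146758), .ofNat (nat_lit 266490), .ofNat (nat_lit 192306), .ofNat (nat_lit 312039), .ofNat (nat_lit 149571), .ofNat (nat_lit 264306), .ofNat (nat_lit 196201), .ofNat (nat_lit 310936)⟩⟩, [⟨nat_lit 13, nat_lit 31, nat_lit 100, nat_lit 99, nat_lit 173854973⟩, ⟨nat_lit 4, nat_lit 100, nat_lit 41, nat_lit 77, nat_lit 286661031⟩, ⟨nat_lit 7, nat_lit 63, nat_lit 100, nat_lit 72, nat_lit 37697447⟩]⟩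
noncomputable def p102_l127 : Lf2 := ⟨nat_lit 0, nat_lit 20, [nat_lit 5, nat_lit 5, nat_lit 5, nat_lit 20], true, nat_lit 80, nat_lit 136, nat_lit 0, nat_lit 384, ⟨nat_lit 0, nat_lit 980, nat_lit 20, nat_lit 4, nat_lit 196, nat_lit 1000, nat_lit 84, nat_lit 20, nat_lit 66150, nat_lit 278, nat_lit 3437, nat_lit 217, nat_lit 50588316, nat_lit 12926761, nat_lit 3484923, nat_lit 3608783, false, true⟩,
 nat_lit 0, nat_lit 2892, nat_lit 0, nat_lit 0, nat_lit 2796, nat_lit 0, nat_lit 0, nat_lit 0, nat_lit 0, nat_lit 0, nat_lit 0, nat_lit 0, nat_lit 0, nat_lit 0, nat_lit 0, nat_lit 400000, nat_lit 0, nat_lit 0, [(nat_lit 28, [(nat_lit 1, nat_lit 980), (nat_lit 5, nat_lit 20)])],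
 ⟨p102_k30, nat_lit 0, nat_lit 0, nat_lit 320, nat_lit 0, nat_lit 717985, [nat_lit 695520000, nat_lit 282896000, nat_lit 134144000], [], [nat_lit 21678770452, nat_lit 22221848160, nat_lit 24298336650, nat_lit 24852950836, nat_lit 22339464500, nat_lit 22861311429, nat_lit 24906924366, nat_lit 25427771005], nat_lit 1271250, nat_lit 1271250, nat_lit 1100001, nat_lit 1990500, nat_lit 490000, nat_lit 904401, [nat_lit 230000, nat_lit 780000, nat_lit 1100000], [nat_lit 35, nat_lit 40, nat_lit 40, nat_lit 80, nat_lit 22, nat_lit 249, nat_lit 40, nat_lit 10]⟩, C1.Rw.none,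
 ⟨nat_lit 0, nat_lit 1582, ⟨.ofNat (nat_lit 398733), .ofNat (nat_lit 540781), .ofNat (nat_lit 444052), .ofNat (nat_lit 587413), .ofNat (nat_lit 399999), .ofNat (nat_lit 529994), .ofNat (nat_lit 448688), .ofNat (nat_lit 579996)⟩, ⟨.ofNat (nat_lit 149570), .ofNat (nat_lit 226057), .ofNat (nat_lit 196201), .ofNat (nat_lit 272689), .ofNat (nat_lit 149998), .ofNat (nat_lit 219995), .ofNat (nat_lit 199999), .ofNat (nat_lit 269997)⟩⟩, [⟨nat_lit 13, nat_lit 31, nat_lit 95, nat_lit 100, nat_lit 292278720⟩, ⟨nat_lit 16, nat_lit 33, nat_lit 100, nat_lit 84, nat_lit 327823898⟩]⟩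
noncomputable def p102_l128 : Lf2 := ⟨nat_lit 0, nat_lit 20, [nat_lit 5, nat_lit 5, nat_lit 5, nat_lit 20], false, nat_lit 0, nat_lit 200, nat_lit 0, nat_lit 384, ⟨nat_lit 0, nat_lit 0, nat_lit 1000, nat_lit 4, nat_lit 135, nat_lit 1000, nat_lit 67, nat_lit 1000, nat_lit 41667, nat_lit 265, nat_lit 173400, nat_lit 317, nat_lit 60115343, nat_lit 0, nat_lit 0, nat_lit 1655481, false, false⟩,
 nat_lit 0, nat_lit 3343, nat_lit 0, nat_lit 0, nat_lit 2911, nat_lit 0, nat_lit 0, nat_lit 0, nat_lit 0, nat_lit 0, nat_lit 0, nat_lit 0, nat_lit 0, nat_lit 0, nat_lit 62, nat_lit 250000, nat_lit 0, nat_lit 0, [(nat_lit 25, [(nat_lit 0, nat_lit 157), (nat_lit 4, nat_lit 843)]), (nat_lit 28, [(nat_lit 0, nat_lit 157), (nat_lit 4, nat_lit 843)])],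
 ⟨p102_k24, nat_lit 0, nat_lit 0, nat_lit 414, nat_lit 0, nat_lit 564813, [nat_lit 1104323520, nat_lit 119094208], [], [nat_lit 20434091033, nat_lit 24597827267, nat_lit 21733543312, nat_lit 24038215612, nat_lit 22480277378, nat_lit 24733838791, nat_lit 23526357084, nat_lit 25735908232], nat_lit 1271250, nat_lit 1271250, nat_lit 279600, nat_lit 1100001, nat_lit 0, nat_lit 1412500, [nat_lit 230000, nat_lit 1420000], [nat_lit 88, nat_lit 40, nat_lit 40, nat_lit 80, nat_lit 89, nat_lit 317, nat_lit 100, nat_lit 12]⟩, ⟨p102_k31, nat_lit 0, nat_lit 0, nat_lit 1430, nat_lit 0, nat_lit 1980060, [nat_lit 0, nat_lit 0], [], [nat_lit 0, nat_lit 0, nat_lit 0, nat_lit 0, nat_lit 0, nat_lit 0, nat_lit 0, nat_lit 0], nat_lit 1100001, nat_lit 1442500, nat_lit 279600, nat_lit 1100001, nat_lit 0, nat_lit 2712000, [nat_lit 1695000, nat_lit 1271250], [nat_lit 159, nat_lit 40, nat_lit 40, nat_lit 80, nat_lit 111, nat_lit 451, nat_lit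 200, nat_lit 10]⟩,
 ⟨nat_lit 0, nat_lit 3163, ⟨.ofNat (nat_lit 216927), .ofNat (nat_lit 394735), .ofNat (nat_lit 258627), .ofNat (nat_lit 436481), .ofNat (nat_lit 252860), .ofNat (nat_lit 399999), .ofNat (nat_lit 300250), .ofNat (nat_lit 447434)⟩, ⟨.ofNat (nat_lit 0), .ofNat (nat_lit 322753), .ofNat (nat_lit 0), .ofNat (nat_lit 367065), .ofNat (nat_lit 0), .ofNat (nat_lit 299993), .ofNat (nat_lit 0), .ofNat (nat_lit 349995)⟩⟩, [⟨nat_lit 0, nat_lit 100, nat_lit 44, nat_lit 86, nat_lit 117425460⟩, ⟨nat_lit 4, nat_lit 100, nat_lit 46, nat_lit 75, nat_lit 92798313⟩]⟩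
noncomputable def p102_l129 : Lf2 := ⟨nat_lit 0, nat_lit 20, [nat_lit 5, nat_lit 5, nat_lit 5, nat_lit 20], false, nat_lit 0, nat_lit 80, nat_lit 0, nat_lit 384, ⟨nat_lit 0, nat_lit 189, nat_lit 811, nat_lit 4, nat_lit 191, nat_lit 1000, nat_lit 33, nat_lit 811, nat_lit 10417, nat_lit 240, nat_lit 2400, nat_lit 227, nat_lit 54559638, nat_lit 12440362, nat_lit 0, nat_lit 2399466, false, true⟩,
 nat_lit 0, nat_lit 3124, nat_lit 0, nat_lit 0, nat_lit 2720, nat_lit 0, nat_lit 0, nat_lit 0, nat_lit 0, nat_lit 0, nat_lit 0, nat_lit 0, nat_lit 0, nat_lit 0, nat_lit 56, nat_lit 250000, nat_lit 0, nat_lit 0, [(nat_lit 25, [(nat_lit 0, nat_lit 189), (nat_lit 4, nat_lit 811)])],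
 ⟨p102_k24, nat_lit 0, nat_lit 0, nat_lit 305, nat_lit 0, nat_lit 422191, [nat_lit 1074160640, nat_lit 119200256], [], [nat_lit 20840945056, nat_lit 22049300576, nat_lit 22989847936, nat_lit 24081427920, nat_lit 20625177856, nat_lit 21757194896, nat_lit 22682765376, nat_lit 23688194256], nat_lit 1271250, nat_lit 1271250, nat_lit 1100001, nat_lit 1785000, nat_lit 0, nat_lit 490000, [nat_lit 230000, nat_lit 1420000], [nat_lit 88, nat_lit 40, nat_lit 40, nat_lit 80, nat_lit 89, nat_lit 317, nat_lit 100, nat_lit 12]⟩, ⟨p102_k31, nat_lit 0, nat_lit 0, nat_lit 1116, nat_lit 0, nat_lit 1480072, [nat_lit 0, nat_lit 0], [], [nat_lit 0, nat_lit 0, nat_lit 0, nat_lit 0, nat_lit 0, nat_lit 0, nat_lit 0, nat_lit 0], nat_lit 1100001, nat_lit 1442500, nat_lit 1271250, nat_lit 1271250, nat_lit 0, nat_lit 2712000, [nat_lit 1695000, nat_lit 1271250], [nat_lit 159, nat_lit 40, nat_lit 40, nat_lit 80, nat_lit 111, nat_lit 456, nat_lit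 225, nat_lit 10]⟩,
 ⟨nat_lit 2236, nat_lit 3163, ⟨.ofNat (nat_lit 394735), .ofNat (nat_lit 516642), .ofNat (nat_lit 438942), .ofNat (nat_lit 560952), .ofNat (nat_lit 397434), .ofNat (nat_lit 511466), .ofNat (nat_lit 442880), .ofNat (nat_lit 557014)⟩, ⟨.ofNat (nat_lit 0), .ofNat (nat_lit 139899), .ofNat (nat_lit 0), .ofNat (nat_lit 184209), .ofNat (nat_lit 0), .ofNat (nat_lit 146758), .ofNat (nat_lit 0), .ofNat (nat_lit 192306)⟩⟩, [⟨nat_lit 3, nat_lit 100, nat_lit 74, nat_lit 33, nat_lit 78852898⟩]⟩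
noncomputable def p102_l130 : Lf2 := ⟨nat_lit 0, nat_lit 20, [nat_lit 5, nat_lit 5, nat_lit 5, nat_lit 20], false, nat_lit 0, nat_lit 80, nat_lit 0, nat_lit 336, ⟨nat_lit 0, nat_lit 443, nat_lit 557, nat_lit 6, nat_lit 229, nat_lit 1000, nat_lit 33, nat_lit 557, nat_lit 10417, nat_lit 240, nat_lit 7758, nat_lit 201, nat_lit 50462217, nat_lit 16537783, nat_lit 0, nat_lit 2794141, false, true⟩,
 nat_lit 0, nat_lit 3240, nat_lit 0, nat_lit 0, nat_lit 2821, nat_lit 0, nat_lit 0, nat_lit 0, nat_lit 0, nat_lit 0, nat_lit 0, nat_lit 0, nat_lit 0, nat_lit 0, nat_lit 5, nat_lit 250000, nat_lit 0, nat_lit 0, [(nat_lit 25, [(nat_lit 0, nat_lit 443), (nat_lit 4, nat_lit 557)])],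
 ⟨p102_k24, nat_lit 0, nat_lit 0, nat_lit 304, nat_lit 0, nat_lit 422191, [nat_lit 843175681, nat_lit 39382272], [], [nat_lit 23893621056, nat_lit 24951418868, nat_lit 26101436225, nat_lit 27093594498, nat_lit 23592274488, nat_lit 24585394734, nat_lit 25683601796, nat_lit 26572700691], nat_lit 1271250, nat_lit 1271250, nat_lit 1271250, nat_lit 1271250, nat_lit 0, nat_lit 490000, [nat_lit 230000, nat_lit 1420000], [nat_lit 88, nat_lit 40, nat_lit 40, nat_lit 80, nat_lit 89, nat_lit 226, nat_lit 20, nat_lit 8]⟩, ⟨p102_k31, nat_lit 0, nat_lit 0, nat_lit 1086, nat_lit 0, nat_lit 1480072, [nat_lit 0, nat_lit 0], [], [nat_lit 0, nat_lit 0, nat_lit 0, nat_lit 0, nat_lit 0, nat_lit 0, nat_lit 0, nat_lit 0], nat_lit 1100001, nat_lit 1271250, nat_lit 1271250, nat_lit 1271250, nat_lit 0, nat_lit 2373000, [nat_lit 1695000, nat_lit 1271250], [nat_lit 159, nat_lit 40, nat_lit 40, nat_lit 80, nat_lit 111, nat_lit 456, nat_lit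 225, nat_lit 10]⟩,
 ⟨nat_lit 2236, nat_lit 3163, ⟨.ofNat (nat_lit 516642), .ofNat (nat_lit 614167), .ofNat (nat_lit 538797), .ofNat (nat_lit 636322), .ofNat (nat_lit 511466), .ofNat (nat_lit 602690), .ofNat (nat_lit 534240), .ofNat (nat_lit 625465)⟩, ⟨.ofNat (nat_lit 0), .ofNat (nat_lit 139899), .ofNat (nat_lit 0), .ofNat (nat_lit 184209), .ofNat (nat_lit 0), .ofNat (nat_lit 146758), .ofNat (nat_lit 0), .ofNat (nat_lit 192306)⟩⟩, [⟨nat_lit 13, nat_lit 53, nat_lit 93, nat_lit 100, nat_lit 348958079⟩, ⟨nat_lit 3, nat_lit 100, nat_lit 74, nat_lit 33, nat_lit 51353103⟩]⟩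
noncomputable def p102_l131 : Lf2 := ⟨nat_lit 0, nat_lit 20, [nat_lit 5, nat_lit 5, nat_lit 5, nat_lit 20], false, nat_lit 0, nat_lit 80, nat_lit 0, nat_lit 336, ⟨nat_lit 91, nat_lit 321, nat_lit 588, nat_lit 6, nat_lit 244, nat_lit 748, nat_lit 33, nat_lit 588, nat_lit 10417, nat_lit 240, nat_lit 94468, nat_lit 200, nat_lit 48879320, nat_lit 18120680, nat_lit 0, nat_lit 2918567, true, true⟩,
 nat_lit 2741, nat_lit 250, nat_lit 0, nat_lit 0, nat_lit 2604, nat_lit 1042, nat_lit 15, nat_lit 0, nat_lit 0, nat_lit 84, nat_lit 0, nat_lit 0, nat_lit 0, nat_lit 0, nat_lit 0, nat_lit 227250, nat_lit 0, nat_lit 0, [(nat_lit 25, [(nat_lit 0, nat_lit 321), (nat_lit 4, nat_lit 588)])],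
 ⟨p102_k22, nat_lit 0, nat_lit 0, nat_lit 262, nat_lit 0, nat_lit 349304, [nat_lit 758666001, nat_lit 525269201, nat_lit 158341199], [], [nat_lit 23713664327, nat_lit 24161608543, nat_lit 26190954775, nat_lit 26654145856, nat_lit 23312761863, nat_lit 23728337035, nat_lit 25739437632, nat_lit 26154517932], nat_lit 1271250, nat_lit 1271250, nat_lit 1271250, nat_lit 1271250, nat_lit 0, nat_lit 490000, [nat_lit 230000, nat_lit 780000, nat_lit 1435000], [nat_lit 20, nat_lit 40, nat_lit 40, nat_lit 80, nat_lit 16, nat_lit 226, nat_lit 20, nat_lit 8]⟩, ⟨p102_k32, nat_lit 0, nat_lit 0, nat_lit 881, nat_lit 0, nat_lit 1017677, [nat_lit 725088000, nat_lit 1080352000, nat_lit 1492400000], [], [nat_lit 3959004712, nat_lit 3917185144, nat_lit 4043143804, nat_lit 4006958412, nat_lit 4601853167, nat_lit 4138404494, nat_lit 3172088794, nat_lit 3133419043], nat_lit 1271250, nat_lit 1271250, nat_lit 1271250, nat_lit 1271250, nat_lit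 0, nat_lit 2373000, [nat_lit 1695000, nat_lit 1271250, nat_lit 1271250], [nat_lit 97, nat_lit 40, nat_lit 40, nat_lit 80, nat_lit 76, nat_lit 456, nat_lit 225, nat_lit 10]⟩,
 ⟨nat_lit 2738, nat_lit 3163, ⟨.ofNat (nat_lit 538797), .ofNat (nat_lit 660704), .ofNat (nat_lit 560952), .ofNat (nat_lit 682859), .ofNat (nat_lit 536642), .ofNat (nat_lit 654765), .ofNat (nat_lit 559060), .ofNat (nat_lit 677182)⟩, ⟨.ofNat (nat_lit 0), .ofNat (nat_lit 139899), .ofNat (nat_lit 0), .ofNat (nat_lit 184209), .ofNat (nat_lit 0), .ofNat (nat_lit 143475), .ofNat (nat_lit 0), .ofNat (nat_lit 188310)⟩⟩, [⟨nat_lit 13, nat_lit 53, nat_lit 90, nat_lit 100, nat_lit 125227825⟩, ⟨nat_lit 22, nat_lit 93, nat_lit 100, nat_lit 25, nat_lit 18370936⟩]⟩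
noncomputable def p102_l132 : Lf2 := ⟨nat_lit 0, nat_lit 20, [nat_lit 5, nat_lit 5, nat_lit 5, nat_lit 20], false, nat_lit 0, nat_lit 80, nat_lit 0, nat_lit 336, ⟨nat_lit 31, nat_lit 496, nat_lit 473, nat_lit 6, nat_lit 238, nat_lit 969, nat_lit 34, nat_lit 473, nat_lit 10417, nat_lit 240, nat_lit 47678, nat_lit 200, nat_lit 49435493, nat_lit 17564507, nat_lit 0, nat_lit 2876503, true, true⟩,
 nat_lit 943, nat_lit 1999, nat_lit 0, nat_lit 0, nat_lit 2654, nat_lit 358, nat_lit 3, nat_lit 0, nat_lit 0, nat_lit 29, nat_lit 0, nat_lit 0, nat_lit 0, nat_lit 0, nat_lit 0, nat_lit 242250, nat_lit 0, nat_lit 0, [(nat_lit 25, [(nat_lit 0, nat_lit 496), (nat_lit 4, nat_lit 473)])],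
 ⟨p102_k26, nat_lit 0, nat_lit 0, nat_lit 296, nat_lit 0, nat_lit 396233, [nat_lit 752366001, nat_lit 609503867, nat_lit 364498000], [], [nat_lit 24196359182, nat_lit 24699400550, nat_lit 26393757028, nat_lit 26860657525, nat_lit 23870120048, nat_lit 24343447682, nat_lit 25958261896, nat_lit 26379934847], nat_lit 1271250, nat_lit 1271250, nat_lit 1271250, nat_lit 1271250, nat_lit 0, nat_lit 490000, [nat_lit 230000, nat_lit 780000, nat_lit 1435000], [nat_lit 20, nat_lit 40, nat_lit 40, nat_lit 80, nat_lit 16, nat_lit 226, nat_lit 20, nat_lit 7]⟩, ⟨p102_k32, nat_lit 0, nat_lit 0, nat_lit 954, nat_lit 0, nat_lit 1204505, [nat_lit 247008000, nat_lit 368032000, nat_lit 508400000], [], [nat_lit 1336737500, nat_lit 1322284868, nat_lit 1361046837, nat_lit 1349090045, nat_lit 1568546778, nat_lit 1409319691, nat_lit 1063839079, nat_lit 1051121156], nat_lit 1271250, nat_lit 1271250, nat_lit 1271250, nat_lit 1271250, nat_lit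 0, nat_lit 2373000, [nat_lit 1695000, nat_lit 1271250, nat_lit 1271250], [nat_lit 97, nat_lit 40, nat_lit 40, nat_lit 80, nat_lit 76, nat_lit 456, nat_lit 225, nat_lit 10]⟩,
 ⟨nat_lit 2236, nat_lit 2739, ⟨.ofNat (nat_lit 536642), .ofNat (nat_lit 637047), .ofNat (nat_lit 559060), .ofNat (nat_lit 659464), .ofNat (nat_lit 534240), .ofNat (nat_lit 631166), .ofNat (nat_lit 557014), .ofNat (nat_lit 653941)⟩, ⟨.ofNat (nat_lit 0), .ofNat (nat_lit 143475), .ofNat (nat_lit 0), .ofNat (nat_lit 188310), .ofNat (nat_lit 0), .ofNat (nat_lit 146758), .ofNat (nat_lit 0), .ofNat (nat_lit 192306)⟩⟩, [⟨nat_lit 13, nat_lit 48, nat_lit 90, nat_lit 100, nat_lit 284860123⟩, ⟨nat_lit 3, nat_lit 100, nat_lit 68, nat_lit 40, nat_lit 14140252⟩, ⟨nat_lit 3, nat_lit 100, nat_lit 54, nat_lit 57, nat_lit 16370036⟩, ⟨nat_lit 22, nat_lit 94, nat_lit 100, nat_lit 22, nat_lit 7168554⟩]⟩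
noncomputable def p102_l133 : Lf2 := ⟨nat_lit 0, nat_lit 20, [nat_lit 5, nat_lit 5, nat_lit 5, nat_lit 20], false, nat_lit 0, nat_lit 80, nat_lit 0, nat_lit 384, ⟨nat_lit 0, nat_lit 788, nat_lit 212, nat_lit 4, nat_lit 203, nat_lit 1000, nat_lit 34, nat_lit 212, nat_lit 11267, nat_lit 241, nat_lit 4626, nat_lit 204, nat_lit 53267039, nat_lit 13732961, nat_lit 0, nat_lit 2536073, false, true⟩,
 nat_lit 0, nat_lit 2627, nat_lit 0, nat_lit 0, nat_lit 2454, nat_lit 0, nat_lit 0, nat_lit 0, nat_lit 0, nat_lit 0, nat_lit 0, nat_lit 0, nat_lit 0, nat_lit 0, nat_lit 37, nat_lit 400000, nat_lit 0, nat_lit 0, [(nat_lit 28, [(nat_lit 1, nat_lit 788), (nat_lit 5, nat_lit 212)])],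
 ⟨p102_k29, nat_lit 0, nat_lit 0, nat_lit 343, nat_lit 0, nat_lit 519337, [nat_lit 823552000, nat_lit 324617601, nat_lit 76300800], [], [nat_lit 22193167728, nat_lit 23317884344, nat_lit 25660716497, nat_lit 26779994377, nat_lit 22116851476, nat_lit 23171321040, nat_lit 25431201940, nat_lit 26438150469], nat_lit 1271250, nat_lit 1271250, nat_lit 1100001, nat_lit 2196000, nat_lit 0, nat_lit 490000, [nat_lit 230000, nat_lit 780000, nat_lit 1435000], [nat_lit 20, nat_lit 40, nat_lit 40, nat_lit 80, nat_lit 16, nat_lit 317, nat_lit 100, nat_lit 11]⟩, ⟨p102_k23, nat_lit 0, nat_lit 0, nat_lit 1353, nat_lit 0, nat_lit 1980060, [nat_lit 0, nat_lit 0, nat_lit 0], [], [nat_lit 0, nat_lit 0, nat_lit 0, nat_lit 0, nat_lit 0, nat_lit 0, nat_lit 0, nat_lit 0], nat_lit 1100001, nat_lit 1442500, nat_lit 1271250, nat_lit 1271250, nat_lit 0, nat_lit 2712000, [nat_lit 1695000, nat_lit 1271250, nat_lit 1271250], [nat_lit 97, nat_lit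 40, nat_lit 40, nat_lit 80, nat_lit 76, nat_lit 456, nat_lit 225, nat_lit 10]⟩,
 ⟨nat_lit 0, nat_lit 2237, ⟨.ofNat (nat_lit 397434), .ofNat (nat_lit 579878), .ofNat (nat_lit 441142), .ofNat (nat_lit 625429), .ofNat (nat_lit 399999), .ofNat (nat_lit 559993), .ofNat (nat_lit 448157), .ofNat (nat_lit 609995)⟩, ⟨.ofNat (nat_lit 0), .ofNat (nat_lit 146756), .ofNat (nat_lit 0), .ofNat (nat_lit 192306), .ofNat (nat_lit 0), .ofNat (nat_lit 149997), .ofNat (nat_lit 0), .ofNat (nat_lit 199999)⟩⟩, [⟨nat_lit 13, nat_lit 31, nat_lit 98, nat_lit 100, nat_lit 334532028⟩, ⟨nat_lit 3, nat_lit 100, nat_lit 44, nat_lit 64, nat_lit 37659182⟩]⟩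
noncomputable def p102_l134 : Lf2 := ⟨nat_lit 0, nat_lit 20, [nat_lit 5, nat_lit 5, nat_lit 5, nat_lit 20], false, nat_lit 80, nat_lit 200, nat_lit 0, nat_lit 384, ⟨nat_lit 0, nat_lit 449, nat_lit 551, nat_lit 4, nat_lit 215, nat_lit 1000, nat_lit 102, nat_lit 551, nat_lit 96267, nat_lit 291, nat_lit 94468, nat_lit 200, nat_lit 47818235, nat_lit 14617198, nat_lit 4564567, nat_lit 4012223, false, true⟩,
 nat_lit 0, nat_lit 3144, nat_lit 0, nat_lit 0, nat_lit 2738, nat_lit 0, nat_lit 6, nat_lit 0, nat_lit 0, nat_lit 0, nat_lit 0, nat_lit 0, nat_lit 0, nat_lit 0, nat_lit 4, nat_lit 250000, nat_lit 0, nat_lit 0, [(nat_lit 25, [(nat_lit 0, nat_lit 449), (nat_lit 4, nat_lit 551)])],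
 ⟨p102_k22, nat_lit 0, nat_lit 0, nat_lit 238, nat_lit 0, nat_lit 422191, [nat_lit 760164001, nat_lit 463202667, nat_lit 14364533], [], [nat_lit 20461981154, nat_lit 21509110444, nat_lit 24860209400, nat_lit 25820634896, nat_lit 22168018328, nat_lit 23074588978, nat_lit 26230791728, nat_lit 27052581677], nat_lit 1271250, nat_lit 1271250, nat_lit 1100001, nat_lit 2470000, nat_lit 490000, nat_lit 1427500, [nat_lit 230000, nat_lit 780000, nat_lit 1435000], [nat_lit 20, nat_lit 40, nat_lit 40, nat_lit 80, nat_lit 16, nat_lit 373, nat_lit 150, nat_lit 13]⟩, ⟨p102_k23, nat_lit 0, nat_lit 0, nat_lit 1130, nat_lit 0, nat_lit 1480072, [nat_lit 0, nat_lit 0, nat_lit 0], [], [nat_lit 0, nat_lit 0, nat_lit 0, nat_lit 0, nat_lit 0, nat_lit 0, nat_lit 0, nat_lit 0], nat_lit 1100001, nat_lit 1442500, nat_lit 1271250, nat_lit 1271250, nat_lit 0, nat_lit 2712000, [nat_lit 1695000, nat_lit 1271250, nat_lit 1271250], [nat_lit 97,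 nat_lit 40, nat_lit 40, nat_lit 80, nat_lit 76, nat_lit 483, nat_lit 250, nat_lit 10]⟩,
 ⟨nat_lit 2236, nat_lit 3163, ⟨.ofNat (nat_lit 394735), .ofNat (nat_lit 638549), .ofNat (nat_lit 438942), .ofNat (nat_lit 682859), .ofNat (nat_lit 397434), .ofNat (nat_lit 625497), .ofNat (nat_lit 442880), .ofNat (nat_lit 671045)⟩, ⟨.ofNat (nat_lit 139899), .ofNat (nat_lit 322759), .ofNat (nat_lit 184209), .ofNat (nat_lit 367069), .ofNat (nat_lit 146758), .ofNat (nat_lit 317804), .ofNat (nat_lit 192306), .ofNat (nat_lit 363353)⟩⟩, [⟨nat_lit 13, nat_lit 53, nat_lit 90, nat_lit 100, nat_lit 231303978⟩, ⟨nat_lit 16, nat_lit 54, nat_lit 100, nat_lit 73, nat_lit 132540588⟩]⟩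
noncomputable def p102_l135 : Lf2 := ⟨nat_lit 0, nat_lit 20, [nat_lit 5, nat_lit 5, nat_lit 5, nat_lit 20], false, nat_lit 80, nat_lit 164, nat_lit 0, nat_lit 384, ⟨nat_lit 0, nat_lit 568, nat_lit 432, nat_lit 4, nat_lit 203, nat_lit 1000, nat_lit 91, nat_lit 432, nat_lit 79350, nat_lit 284, nat_lit 4626, nat_lit 204, nat_lit 49527211, nat_lit 13549581, nat_lit 3923208, nat_lit 3772527, false, true⟩,
 nat_lit 0, nat_lit 2883, nat_lit 0, nat_lit 0, nat_lit 2693, nat_lit 0, nat_lit 0, nat_lit 0, nat_lit 0, nat_lit 0, nat_lit 0, nat_lit 0, nat_lit 0, nat_lit 0, nat_lit 39, nat_lit 314800, nat_lit 0, nat_lit 0, [(nat_lit 28, [(nat_lit 0, nat_lit 568), (nat_lit 5, nat_lit 432)])],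
 ⟨p102_k29, nat_lit 0, nat_lit 0, nat_lit 286, nat_lit 0, nat_lit 519337, [nat_lit 856384001, nat_lit 318672001, nat_lit 92272000], [], [nat_lit 20749417556, nat_lit 21908533438, nat_lit 24302614764, nat_lit 25626908329, nat_lit 21825525436, nat_lit 22875451151, nat_lit 25235261246, nat_lit 26237851824], nat_lit 1271250, nat_lit 1271250, nat_lit 1100001, nat_lit 2196000, nat_lit 490000, nat_lit 1133651, [nat_lit 230000, nat_lit 780000, nat_lit 1435000], [nat_lit 20, nat_lit 40, nat_lit 40, nat_lit 80, nat_lit 16, nat_lit 345, nat_lit 125, nat_lit 12]⟩, ⟨p102_k23, nat_lit 0, nat_lit 0, nat_lit 1353, nat_lit 0, nat_lit 1980060, [nat_lit 0, nat_lit 0, nat_lit 0], [], [nat_lit 0, nat_lit 0, nat_lit 0, nat_lit 0, nat_lit 0, nat_lit 0, nat_lit 0, nat_lit 0], nat_lit 1100001, nat_lit 1442500, nat_lit 1271250, nat_lit 1271250, nat_lit 0, nat_lit 2712000, [nat_lit 1695000, nat_lit 1271250, nat_lit 1271250], [nat_lit 97,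 nat_lit 40, nat_lit 40, nat_lit 80, nat_lit 76, nat_lit 456, nat_lit 225, nat_lit 10]⟩,
 ⟨nat_lit 0, nat_lit 2237, ⟨.ofNat (nat_lit 397434), .ofNat (nat_lit 579878), .ofNat (nat_lit 441142), .ofNat (nat_lit 625429), .ofNat (nat_lit 399999), .ofNat (nat_lit 559993), .ofNat (nat_lit 448157), .ofNat (nat_lit 609995)⟩, ⟨.ofNat (nat_lit 146756), .ofNat (nat_lit 266484), .ofNat (nat_lit 192306), .ofNat (nat_lit 312035), .ofNat (nat_lit 149997), .ofNat (nat_lit 254993), .ofNat (nat_lit 199999), .ofNat (nat_lit 304995)⟩⟩, [⟨nat_lit 13, nat_lit 31, nat_lit 98, nat_lit 100, nat_lit 78421327⟩, ⟨nat_lit 13, nat_lit 44, nat_lit 90, nat_lit 100, nat_lit 210642574⟩, ⟨nat_lit 4, nat_lit 100, nat_lit 35, nat_lit 80, nat_lit 194921376⟩]⟩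
noncomputable def p102_l136 : Lf2 := ⟨nat_lit 0, nat_lit 20, [nat_lit 5, nat_lit 5, nat_lit 5, nat_lit 20], true, nat_lit 0, nat_lit 200, nat_lit 0, nat_lit 384, ⟨nat_lit 0, nat_lit 1000, nat_lit 0, nat_lit 4, nat_lit 180, nat_lit 1000, nat_lit 67, nat_lit 0, nat_lit 0, nat_lit 0, nat_lit 0, nat_lit 0, nat_lit 0, nat_lit 0, nat_lit 0, nat_lit 5000000, false, true⟩,
 nat_lit 0, nat_lit 4121, nat_lit 0, nat_lit 0, nat_lit 3589, nat_lit 0, nat_lit 0, nat_lit 0, nat_lit 0, nat_lit 0, nat_lit 0, nat_lit 0, nat_lit 0, nat_lit 0, nat_lit 0, nat_lit 346900, nat_lit 0, nat_lit 0, [(nat_lit 25, [(nat_lit 0, nat_lit 354), (nat_lit 1, nat_lit 646)]), (nat_lit 28, [(nat_lit 0, nat_lit 354), (nat_lit 1, nat_lit 646)])],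
 ⟨p102_k24, nat_lit 0, nat_lit 0, nat_lit 514, nat_lit 0, nat_lit 822131, [nat_lit 917104960, nat_lit 1340991200], [], [nat_lit 27412053124, nat_lit 28882873940, nat_lit 30002945892, nat_lit 31315074284, nat_lit 27392406801, nat_lit 28597358401, nat_lit 31836410672, nat_lit 30668251282], nat_lit 1271250, nat_lit 1271250, nat_lit 279600, nat_lit 2323000, nat_lit 0, nat_lit 1412500, [nat_lit 230000, nat_lit 1420000], [nat_lit 88, nat_lit 40, nat_lit 40, nat_lit 80, nat_lit 89, nat_lit 373, nat_lit 150, nat_lit 14]⟩, C1.Rw.none,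
 ⟨nat_lit 0, nat_lit 3163, ⟨.ofNat (nat_lit 216927), .ofNat (nat_lit 638543), .ofNat (nat_lit 258627), .ofNat (nat_lit 682855), .ofNat (nat_lit 252860), .ofNat (nat_lit 599993), .ofNat (nat_lit 300250), .ofNat (nat_lit 649995)⟩, ⟨.ofNat (nat_lit 0), .ofNat (nat_lit 322753), .ofNat (nat_lit 0), .ofNat (nat_lit 367065), .ofNat (nat_lit 0), .ofNat (nat_lit 299993), .ofNat (nat_lit 0), .ofNat (nat_lit 349995)⟩⟩, [⟨nat_lit 13, nat_lit 44, nat_lit 94, nat_lit 100, nat_lit 231674034⟩, ⟨nat_lit 4, nat_lit 100, nat_lit 46, nat_lit 75, nat_lit 188450776⟩]⟩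
noncomputable def b_V_900_400_10_5 : St := ⟨true, nat_lit 1, nat_lit 2, nat_lit 0, nat_lit 80, nat_lit 360, nat_lit 400, nat_lit 160, nat_lit 200, nat_lit 48, nat_lit 320, nat_lit 40, nat_lit 80, nat_lit 0, nat_lit 200, nat_lit 0, nat_lit 384, nat_lit 40, nat_lit 80, nat_lit 0, nat_lit 0, nat_lit 0, nat_lit 0⟩
theorem d_V_900_400_10_5 (h : EB TB.env) : Dead b_V_900_400_10_5 := chkB_sound0 h (T :=
(.gv
(.st (nat_lit 1)
(.spl (nat_lit 0) (nat_lit 380)
(.spl (nat_lit 4) (nat_lit 80)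
(.spl (nat_lit 2) (nat_lit 160)
(.leaf p102_l113)
(.spl (nat_lit 2) (nat_lit 240)
(.leaf p102_l114)
(.trX (nat_lit 22) (nat_lit 100) (nat_lit 76) (nat_lit 82) (nat_lit 336) (.leaf p102_l115))))
(.spl (nat_lit 2) (nat_lit 160)
(.leaf p102_l116)
(.spl (nat_lit 5) (nat_lit 160)
(.leaf p102_l117)
(.spl (nat_lit 0) (nat_lit 370)
(.spl (nat_lit 0) (nat_lit 365)
(.leaf p102_l118)
(.trX (nat_lit 13) (nat_lit 57) (nat_lit 83) (nat_lit 100) (nat_lit 316) (.trX (nat_lit 16) (nat_lit 57) (nat_lit 100) (nat_lit 80) (nat_lit 192) (.leaf p102_l119))))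
(.trX (nat_lit 13) (nat_lit 53) (nat_lit 85) (nat_lit 100) (nat_lit 308) (.trX (nat_lit 16) (nat_lit 53) (nat_lit 100) (nat_lit 80) (nat_lit 184) (.spl (nat_lit 0) (nat_lit 375)
(.leaf p102_l120)
(.trX (nat_lit 13) (nat_lit 48) (nat_lit 88) (nat_lit 100) (nat_lit 300) (.trX (nat_lit 16) (nat_lit 49) (nat_lit 100) (nat_lit 81) (nat_lit 176) (.leaf p102_l121))))))))))
(.trZ (nat_lit 0) (nat_lit 100) (nat_lit 44) (nat_lit 81) (nat_lit 76) (.trX (nat_lit 13) (nat_lit 44) (nat_lit 90) (nat_lit 100) (nat_lit 288) (.trX (nat_lit 16) (nat_lit 44) (nat_lit 100) (nat_lit 82) (nat_lit 164) (.spl (nat_lit 2) (nat_lit 160)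
(.leaf p102_l122)
(.spl (nat_lit 4) (nat_lit 80)
(.spl (nat_lit 2) (nat_lit 240)
(.spl (nat_lit 0) (nat_lit 390)
(.leaf p102_l123)
(.trZ (nat_lit 3) (nat_lit 100) (nat_lit 52) (nat_lit 53) (nat_lit 8) (.leaf p102_l124)))
(.trX (nat_lit 22) (nat_lit 100) (nat_lit 76) (nat_lit 82) (nat_lit 336) (.leaf p102_l125)))
(.spl (nat_lit 0) (nat_lit 390)
(.leaf p102_l126)
(.trX (nat_lit 13) (nat_lit 31) (nat_lit 95) (nat_lit 100) (nat_lit 264) (.trX (nat_lit 16) (nat_lit 33) (nat_lit 100) (nat_lit 84) (nat_lit 136) (.leaf p102_l127))))))))))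
(.spl (nat_lit 2) (nat_lit 160)
(.leaf p102_l128)
(.spl (nat_lit 4) (nat_lit 80)
(.spl (nat_lit 0) (nat_lit 380)
(.spl (nat_lit 2) (nat_lit 240)
(.leaf p102_l129)
(.trX (nat_lit 22) (nat_lit 100) (nat_lit 76) (nat_lit 82) (nat_lit 336) (.spl (nat_lit 1) (nat_lit 180)
(.trX (nat_lit 13) (nat_lit 60) (nat_lit 86) (nat_lit 100) (nat_lit 304) (.leaf p102_l130))
(.spl (nat_lit 0) (nat_lit 370)
(.leaf p102_l131)
(.trX (nat_lit 13) (nat_lit 53) (nat_lit 85) (nat_lit 100) (nat_lit 308) (.leaf p102_l132))))))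
(.trX (nat_lit 13) (nat_lit 44) (nat_lit 90) (nat_lit 100) (nat_lit 288) (.leaf p102_l133)))
(.spl (nat_lit 0) (nat_lit 380)
(.leaf p102_l134)
(.trX (nat_lit 13) (nat_lit 44) (nat_lit 90) (nat_lit 100) (nat_lit 288) (.trX (nat_lit 16) (nat_lit 44) (nat_lit 100) (nat_lit 82) (nat_lit 164) (.leaf p102_l135)))))))
(.leaf p102_l136))) (by decide +kernel)
noncomputable def p102_l137 : Lf2 := ⟨nat_lit 0, nat_lit 20, [nat_lit 5, nat_lit 5, nat_lit 5, nat_lit 20], true, nat_lit 0, nat_lit 80, nat_lit 0, nat_lit 384, ⟨nat_lit 0, nat_lit 0, nat_lit 1000, nat_lit 4, nat_lit 135, nat_lit 1000, nat_lit 34, nat_lit 1000, nat_lit 10417, nat_lit 240, nat_lit 173400, nat_lit 317, nat_lit 60115343, nat_lit 0, nat_lit 0, nat_lit 1655481, false, false⟩,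
 nat_lit 0, nat_lit 0, nat_lit 0, nat_lit 2567, nat_lit 2286, nat_lit 0, nat_lit 0, nat_lit 0, nat_lit 0, nat_lit 0, nat_lit 0, nat_lit 0, nat_lit 0, nat_lit 0, nat_lit 93, nat_lit 250000, nat_lit 0, nat_lit 0, [(nat_lit 25, [(nat_lit 4, nat_lit 1000)]), (nat_lit 28, [(nat_lit 4, nat_lit 1000)])],
 ⟨p102_k22, nat_lit 0, nat_lit 0, nat_lit 219, nat_lit 0, nat_lit 0, [nat_lit 1133600001, nat_lit 754133334, nat_lit 60266666], [], [nat_lit 18695696304, nat_lit 22396400767, nat_lit 19575389742, nat_lit 22445552166, nat_lit 17838161621, nat_lit 20901001405, nat_lit 19432214654, nat_lit 22122961838], nat_lit 0, nat_lit 0, nat_lit 0, nat_lit 0, nat_lit 0, nat_lit 0, [], [nat_lit 20, nat_lit 40, nat_lit 40, nat_lit 80, nat_lit 16, nat_lit 272, nat_lit 60, nat_lit 10]⟩, C1.Rw.none,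
 ⟨nat_lit 0, nat_lit 3163, ⟨.ofNat (nat_lit 216927), .ofNat (nat_lit 394735), .ofNat (nat_lit 258627), .ofNat (nat_lit 436481), .ofNat (nat_lit 252860), .ofNat (nat_lit 399999), .ofNat (nat_lit 300250), .ofNat (nat_lit 447434)⟩, ⟨.ofNat (nat_lit 0), .ofNat (nat_lit 139898), .ofNat (nat_lit 0), .ofNat (nat_lit 184209), .ofNat (nat_lit 0), .ofNat (nat_lit 149998), .ofNat (nat_lit 0), .ofNat (nat_lit 199999)⟩⟩, [⟨nat_lit 0, nat_lit 100, nat_lit 44, nat_lit 86, nat_lit 55508352⟩, ⟨nat_lit 3, nat_lit 100, nat_lit 61, nat_lit 47, nat_lit 178636613⟩]⟩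
noncomputable def p102_l138 : Lf2 := ⟨nat_lit 0, nat_lit 20, [nat_lit 5, nat_lit 5, nat_lit 5, nat_lit 20], false, nat_lit 0, nat_lit 80, nat_lit 0, nat_lit 384, ⟨nat_lit 86, nat_lit 220, nat_lit 694, nat_lit 4, nat_lit 213, nat_lit 914, nat_lit 34, nat_lit 693, nat_lit 10417, nat_lit 240, nat_lit 94460, nat_lit 200, nat_lit 52252667, nat_lit 14747333, nat_lit 0, nat_lit 2635231, false, true⟩,
 nat_lit 0, nat_lit 0, nat_lit 0, nat_lit 3536, nat_lit 2217, nat_lit 1084, nat_lit 0, nat_lit 0, nat_lit 0, nat_lit 76, nat_lit 0, nat_lit 0, nat_lit 0, nat_lit 0, nat_lit 15, nat_lit 228500, nat_lit 0, nat_lit 0, [(nat_lit 25, [(nat_lit 0, nat_lit 220), (nat_lit 4, nat_lit 694)]), (nat_lit 28, [(nat_lit 0, nat_lit 220), (nat_lit 4, nat_lit 694)])],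
 ⟨p102_k22, nat_lit 0, nat_lit 0, nat_lit 164, nat_lit 0, nat_lit 0, [nat_lit 841170400, nat_lit 512252534, nat_lit 28797066], [], [nat_lit 21202108800, nat_lit 23298756472, nat_lit 25623840204, nat_lit 27478687184, nat_lit 20905377020, nat_lit 22886571188, nat_lit 25160498152, nat_lit 26936878072], nat_lit 0, nat_lit 0, nat_lit 0, nat_lit 0, nat_lit 0, nat_lit 0, [], [nat_lit 20, nat_lit 40, nat_lit 40, nat_lit 80, nat_lit 16, nat_lit 317, nat_lit 100, nat_lit 12]⟩, ⟨p102_k23, nat_lit 0, nat_lit 0, nat_lit 433, nat_lit 0, nat_lit 0, [nat_lit 685248000, nat_lit 1020992000, nat_lit 1410400000], [], [nat_lit 4100430432, nat_lit 4020013296, nat_lit 4109070304, nat_lit 4029703800, nat_lit 3335014333, nat_lit 3263413359, nat_lit 3382828946, nat_lit 3277008253], nat_lit 0, nat_lit 0, nat_lit 0, nat_lit 0, nat_lit 0, nat_lit 0, [], [nat_lit 97, nat_lit 40, nat_lit 40, nat_lit 80, nat_lit 76, nat_lit 483, nat_lit 250,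 nat_lit 10]⟩,
 ⟨nat_lit 0, nat_lit 3163, ⟨.ofNat (nat_lit 394735), .ofNat (nat_lit 638543), .ofNat (nat_lit 436481), .ofNat (nat_lit 682855), .ofNat (nat_lit 399999), .ofNat (nat_lit 599993), .ofNat (nat_lit 447434), .ofNat (nat_lit 649995)⟩, ⟨.ofNat (nat_lit 0), .ofNat (nat_lit 139898), .ofNat (nat_lit 0), .ofNat (nat_lit 184209), .ofNat (nat_lit 0), .ofNat (nat_lit 149998), .ofNat (nat_lit 0), .ofNat (nat_lit 199999)⟩⟩, [⟨nat_lit 13, nat_lit 44, nat_lit 94, nat_lit 100, nat_lit 205852856⟩, ⟨nat_lit 3, nat_lit 100, nat_lit 61, nat_lit 47, nat_lit 84360899⟩, ⟨nat_lit 22, nat_lit 100, nat_lit 92, nat_lit 61, nat_lit 12507121⟩]⟩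
noncomputable def p102_l139 : Lf2 := ⟨nat_lit 0, nat_lit 20, [nat_lit 5, nat_lit 5, nat_lit 5, nat_lit 20], true, nat_lit 80, nat_lit 200, nat_lit 0, nat_lit 384, ⟨nat_lit 0, nat_lit 516, nat_lit 484, nat_lit 4, nat_lit 182, nat_lit 1000, nat_lit 102, nat_lit 484, nat_lit 96267, nat_lit 291, nat_lit 94468, nat_lit 200, nat_lit 50931446, nat_lit 11415718, nat_lit 4652836, nat_lit 3694048, false, true⟩,
 nat_lit 0, nat_lit 0, nat_lit 0, nat_lit 3111, nat_lit 2698, nat_lit 0, nat_lit 0, nat_lit 0, nat_lit 0, nat_lit 0, nat_lit 0, nat_lit 0, nat_lit 0, nat_lit 0, nat_lit 0, nat_lit 250000, nat_lit 0, nat_lit 0, [(nat_lit 25, [(nat_lit 0, nat_lit 516), (nat_lit 4, nat_lit 484)])],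
 ⟨p102_k22, nat_lit 0, nat_lit 0, nat_lit 128, nat_lit 0, nat_lit 0, [nat_lit 746576000, nat_lit 531157334, nat_lit 193127466], [], [nat_lit 18643489752, nat_lit 20124196207, nat_lit 24714595722, nat_lit 25758931216, nat_lit 20770277125, nat_lit 21991365239, nat_lit 26044600538, nat_lit 26922040142], nat_lit 0, nat_lit 0, nat_lit 0, nat_lit 0, nat_lit 0, nat_lit 0, [], [nat_lit 20, nat_lit 40, nat_lit 40, nat_lit 80, nat_lit 16, nat_lit 373, nat_lit 150, nat_lit 14]⟩, C1.Rw.none,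
 ⟨nat_lit 2236, nat_lit 3163, ⟨.ofNat (nat_lit 223799), .ofNat (nat_lit 638549), .ofNat (nat_lit 267982), .ofNat (nat_lit 682859), .ofNat (nat_lit 237524), .ofNat (nat_lit 625497), .ofNat (nat_lit 282946), .ofNat (nat_lit 671045)⟩, ⟨.ofNat (nat_lit 139899), .ofNat (nat_lit 322759), .ofNat (nat_lit 184209), .ofNat (nat_lit 367069), .ofNat (nat_lit 146758), .ofNat (nat_lit 317804), .ofNat (nat_lit 192306), .ofNat (nat_lit 363353)⟩⟩, [⟨nat_lit 13, nat_lit 53, nat_lit 90, nat_lit 100, nat_lit 109087545⟩, ⟨nat_lit 16, nat_lit 60, nat_lit 100, nat_lit 80, nat_lit 106634390⟩]⟩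
noncomputable def p102_l140 : Lf2 := ⟨nat_lit 0, nat_lit 20, [nat_lit 5, nat_lit 5, nat_lit 5, nat_lit 20], true, nat_lit 80, nat_lit 164, nat_lit 0, nat_lit 384, ⟨nat_lit 0, nat_lit 470, nat_lit 530, nat_lit 4, nat_lit 180, nat_lit 1000, nat_lit 91, nat_lit 530, nat_lit 79350, nat_lit 284, nat_lit 4626, nat_lit 204, nat_lit 51751333, nat_lit 11285845, nat_lit 3962822, nat_lit 3532241, false, true⟩,
 nat_lit 0, nat_lit 0, nat_lit 0, nat_lit 3039, nat_lit 2565, nat_lit 0, nat_lit 0, nat_lit 0, nat_lit 0, nat_lit 0, nat_lit 0, nat_lit 0, nat_lit 0, nat_lit 0, nat_lit 25, nat_lit 250000, nat_lit 0, nat_lit 0, [(nat_lit 28, [(nat_lit 0, nat_lit 470), (nat_lit 4, nat_lit 530)])],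
 ⟨p102_k29, nat_lit 0, nat_lit 0, nat_lit 129, nat_lit 0, nat_lit 0, [nat_lit 871000001, nat_lit 249612000, nat_lit 62088000], [], [nat_lit 19422282945, nat_lit 20908542150, nat_lit 24124143328, nat_lit 25422935005, nat_lit 20524049607, nat_lit 21782538585, nat_lit 24861462651, nat_lit 25946955989], nat_lit 0, nat_lit 0, nat_lit 0, nat_lit 0, nat_lit 0, nat_lit 0, [], [nat_lit 20, nat_lit 40, nat_lit 40, nat_lit 80, nat_lit 16, nat_lit 345, nat_lit 125, nat_lit 13]⟩, C1.Rw.none,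
 ⟨nat_lit 0, nat_lit 2237, ⟨.ofNat (nat_lit 273845), .ofNat (nat_lit 579878), .ofNat (nat_lit 317541), .ofNat (nat_lit 625429), .ofNat (nat_lit 291142), .ofNat (nat_lit 559993), .ofNat (nat_lit 339289), .ofNat (nat_lit 609995)⟩, ⟨.ofNat (nat_lit 146756), .ofNat (nat_lit 266484), .ofNat (nat_lit 192306), .ofNat (nat_lit 312035), .ofNat (nat_lit 149997), .ofNat (nat_lit 254993), .ofNat (nat_lit 199999), .ofNat (nat_lit 304995)⟩⟩, [⟨nat_lit 13, nat_lit 31, nat_lit 98, nat_lit 100, nat_lit 60100319⟩, ⟨nat_lit 13, nat_lit 44, nat_lit 90, nat_lit 100, nat_lit 109499550⟩, ⟨nat_lit 16, nat_lit 35, nat_lit 100, nat_lit 80, nat_lit 176030876⟩]⟩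
noncomputable def p102_l141 : Lf2 := ⟨nat_lit 0, nat_lit 20, [nat_lit 5, nat_lit 5, nat_lit 5, nat_lit 20], true, nat_lit 0, nat_lit 80, nat_lit 0, nat_lit 384, ⟨nat_lit 0, nat_lit 0, nat_lit 1000, nat_lit 4, nat_lit 135, nat_lit 1000, nat_lit 34, nat_lit 1000, nat_lit 10417, nat_lit 240, nat_lit 173400, nat_lit 317, nat_lit 60115343, nat_lit 0, nat_lit 0, nat_lit 1655481, false, false⟩,
 nat_lit 0, nat_lit 0, nat_lit 0, nat_lit 2685, nat_lit 2477, nat_lit 0, nat_lit 0, nat_lit 0, nat_lit 0, nat_lit 0, nat_lit 0, nat_lit 0, nat_lit 0, nat_lit 0, nat_lit 90, nat_lit 250000, nat_lit 0, nat_lit 0, [(nat_lit 25, [(nat_lit 0, nat_lit 18), (nat_lit 4, nat_lit 982)]), (nat_lit 28, [(nat_lit 0, nat_lit 18), (nat_lit 4, nat_lit 982)])],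
 ⟨p102_k24, nat_lit 0, nat_lit 0, nat_lit 213, nat_lit 0, nat_lit 0, [nat_lit 1228644480, nat_lit 166052992], [], [nat_lit 19223059528, nat_lit 23069156705, nat_lit 19954473132, nat_lit 22930924000, nat_lit 18341024448, nat_lit 21345028309, nat_lit 19682791716, nat_lit 22471167404], nat_lit 0, nat_lit 0, nat_lit 0, nat_lit 0, nat_lit 0, nat_lit 0, [], [nat_lit 88, nat_lit 40, nat_lit 40, nat_lit 80, nat_lit 89, nat_lit 272, nat_lit 60, nat_lit 10]⟩, C1.Rw.none,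
 ⟨nat_lit 0, nat_lit 3163, ⟨.ofNat (nat_lit 216927), .ofNat (nat_lit 394735), .ofNat (nat_lit 258627), .ofNat (nat_lit 436481), .ofNat (nat_lit 252860), .ofNat (nat_lit 399999), .ofNat (nat_lit 300250), .ofNat (nat_lit 447434)⟩, ⟨.ofNat (nat_lit 0), .ofNat (nat_lit 139898), .ofNat (nat_lit 0), .ofNat (nat_lit 184209), .ofNat (nat_lit 0), .ofNat (nat_lit 149998), .ofNat (nat_lit 0), .ofNat (nat_lit 199999)⟩⟩, [⟨nat_lit 0, nat_lit 100, nat_lit 44, nat_lit 86, nat_lit 74403819⟩, ⟨nat_lit 3, nat_lit 100, nat_lit 61, nat_lit 47, nat_lit 186698700⟩]⟩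
noncomputable def p102_l142 : Lf2 := ⟨nat_lit 0, nat_lit 20, [nat_lit 5, nat_lit 5, nat_lit 5, nat_lit 20], true, nat_lit 0, nat_lit 80, nat_lit 0, nat_lit 384, ⟨nat_lit 0, nat_lit 287, nat_lit 713, nat_lit 4, nat_lit 190, nat_lit 1000, nat_lit 34, nat_lit 713, nat_lit 10417, nat_lit 240, nat_lit 2400, nat_lit 227, nat_lit 54632956, nat_lit 12367044, nat_lit 0, nat_lit 2391358, false, true⟩,
 nat_lit 0, nat_lit 0, nat_lit 0, nat_lit 2034, nat_lit 2237, nat_lit 0, nat_lit 0, nat_lit 0, nat_lit 0, nat_lit 0, nat_lit 0, nat_lit 0, nat_lit 0, nat_lit 0, nat_lit 36, nat_lit 250000, nat_lit 0, nat_lit 0, [(nat_lit 25, [(nat_lit 0, nat_lit 287), (nat_lit 4, nat_lit 713)]), (nat_lit 28, [(nat_lit 0, nat_lit 287), (nat_lit 4, nat_lit 713)])],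
 ⟨p102_k33, nat_lit 0, nat_lit 0, nat_lit 155, nat_lit 0, nat_lit 0, [nat_lit 911340001, nat_lit 789183601, nat_lit 52058400], [], [nat_lit 20372245149, nat_lit 22475905141, nat_lit 22283544525, nat_lit 24417432749, nat_lit 20061706569, nat_lit 22069079027, nat_lit 21913141029, nat_lit 23977054389], nat_lit 0, nat_lit 0, nat_lit 0, nat_lit 0, nat_lit 0, nat_lit 0, [], [nat_lit 131, nat_lit 40, nat_lit 40, nat_lit 80, nat_lit 64, nat_lit 317, nat_lit 100, nat_lit 12]⟩, C1.Rw.none,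
 ⟨nat_lit 0, nat_lit 3163, ⟨.ofNat (nat_lit 394735), .ofNat (nat_lit 516640), .ofNat (nat_lit 436481), .ofNat (nat_lit 560951), .ofNat (nat_lit 399999), .ofNat (nat_lit 499997), .ofNat (nat_lit 447434), .ofNat (nat_lit 549998)⟩, ⟨.ofNat (nat_lit 0), .ofNat (nat_lit 139898), .ofNat (nat_lit 0), .ofNat (nat_lit 184209), .ofNat (nat_lit 0), .ofNat (nat_lit 149998), .ofNat (nat_lit 0), .ofNat (nat_lit 199999)⟩⟩, [⟨nat_lit 3, nat_lit 100, nat_lit 61, nat_lit 47, nat_lit 169011345⟩]⟩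
noncomputable def p102_l143 : Lf2 := ⟨nat_lit 0, nat_lit 20, [nat_lit 5, nat_lit 5, nat_lit 5, nat_lit 20], true, nat_lit 0, nat_lit 80, nat_lit 0, nat_lit 336, ⟨nat_lit 0, nat_lit 500, nat_lit 500, nat_lit 6, nat_lit 235, nat_lit 1000, nat_lit 34, nat_lit 500, nat_lit 10417, nat_lit 240, nat_lit 94460, nat_lit 200, nat_lit 49813931, nat_lit 17186069, nat_lit 0, nat_lit 2846864, false, true⟩,
 nat_lit 0, nat_lit 0, nat_lit 0, nat_lit 3505, nat_lit 2251, nat_lit 0, nat_lit 0, nat_lit 0, nat_lit 0, nat_lit 0, nat_lit 0, nat_lit 0, nat_lit 0, nat_lit 0, nat_lit 14, nat_lit 299350, nat_lit 0, nat_lit 0, [(nat_lit 25, [(nat_lit 0, nat_lit 500), (nat_lit 4, nat_lit 171), (nat_lit 5, nat_lit 329)]), (nat_lit 28, [(nat_lit 0, nat_lit 500), (nat_lit 4, nat_lit 171), (nat_lit 5, nat_lit 329)])],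
 ⟨p102_k33, nat_lit 0, nat_lit 0, nat_lit 171, nat_lit 0, nat_lit 0, [nat_lit 772328001, nat_lit 778111601, nat_lit 48576400], [], [nat_lit 23089724053, nat_lit 24969425361, nat_lit 25639209664, nat_lit 27571676756, nat_lit 22709621245, nat_lit 24566596888, nat_lit 25266987280, nat_lit 27022300976], nat_lit 0, nat_lit 0, nat_lit 0, nat_lit 0, nat_lit 0, nat_lit 0, [], [nat_lit 131, nat_lit 40, nat_lit 40, nat_lit 80, nat_lit 64, nat_lit 226, nat_lit 20, nat_lit 8]⟩, C1.Rw.none,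
 ⟨nat_lit 0, nat_lit 3163, ⟨.ofNat (nat_lit 516640), .ofNat (nat_lit 638543), .ofNat (nat_lit 560951), .ofNat (nat_lit 682855), .ofNat (nat_lit 499997), .ofNat (nat_lit 599993), .ofNat (nat_lit 549998), .ofNat (nat_lit 649995)⟩, ⟨.ofNat (nat_lit 0), .ofNat (nat_lit 139898), .ofNat (nat_lit 0), .ofNat (nat_lit 184209), .ofNat (nat_lit 0), .ofNat (nat_lit 149998), .ofNat (nat_lit 0), .ofNat (nat_lit 199999)⟩⟩, [⟨nat_lit 13, nat_lit 60, nat_lit 80, nat_lit 100, nat_lit 287378799⟩, ⟨nat_lit 3, nat_lit 100, nat_lit 61, nat_lit 47, nat_lit 87814552⟩]⟩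
noncomputable def p102_l144 : Lf2 := ⟨nat_lit 0, nat_lit 20, [nat_lit 5, nat_lit 5, nat_lit 5, nat_lit 20], true, nat_lit 80, nat_lit 200, nat_lit 0, nat_lit 384, ⟨nat_lit 0, nat_lit 608, nat_lit 392, nat_lit 4, nat_lit 182, nat_lit 1000, nat_lit 102, nat_lit 392, nat_lit 96267, nat_lit 291, nat_lit 94468, nat_lit 200, nat_lit 50931446, nat_lit 11415718, nat_lit 4652836, nat_lit 3694048, false, true⟩,
 nat_lit 0, nat_lit 0, nat_lit 0, nat_lit 3111, nat_lit 2962, nat_lit 0, nat_lit 0, nat_lit 0, nat_lit 0, nat_lit 0, nat_lit 0, nat_lit 0, nat_lit 0, nat_lit 0, nat_lit 0, nat_lit 250000, nat_lit 0, nat_lit 0, [(nat_lit 25, [(nat_lit 0, nat_lit 608), (nat_lit 4, nat_lit 392)])],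
 ⟨p102_k24, nat_lit 0, nat_lit 0, nat_lit 119, nat_lit 0, nat_lit 0, [nat_lit 805646081, nat_lit 558624000], [], [nat_lit 19010025839, nat_lit 20616673996, nat_lit 25075095264, nat_lit 26166175504, nat_lit 21030040944, nat_lit 22393542936, nat_lit 26272265703, nat_lit 27194640998], nat_lit 0, nat_lit 0, nat_lit 0, nat_lit 0, nat_lit 0, nat_lit 0, [], [nat_lit 88, nat_lit 40, nat_lit 40, nat_lit 80, nat_lit 89, nat_lit 373, nat_lit 150, nat_lit 14]⟩, C1.Rw.none,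
 ⟨nat_lit 2236, nat_lit 3163, ⟨.ofNat (nat_lit 223799), .ofNat (nat_lit 638549), .ofNat (nat_lit 267982), .ofNat (nat_lit 682859), .ofNat (nat_lit 237524), .ofNat (nat_lit 625497), .ofNat (nat_lit 282946), .ofNat (nat_lit 671045)⟩, ⟨.ofNat (nat_lit 139899), .ofNat (nat_lit 322759), .ofNat (nat_lit 184209), .ofNat (nat_lit 367069), .ofNat (nat_lit 146758), .ofNat (nat_lit 317804), .ofNat (nat_lit 192306), .ofNat (nat_lit 363353)⟩⟩, [⟨nat_lit 13, nat_lit 53, nat_lit 90, nat_lit 100, nat_lit 99295009⟩, ⟨nat_lit 4, nat_lit 100, nat_lit 54, nat_lit 73, nat_lit 121347456⟩]⟩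
noncomputable def p102_l145 : Lf2 := ⟨nat_lit 0, nat_lit 20, [nat_lit 5, nat_lit 5, nat_lit 5, nat_lit 20], true, nat_lit 80, nat_lit 164, nat_lit 0, nat_lit 384, ⟨nat_lit 0, nat_lit 470, nat_lit 530, nat_lit 4, nat_lit 180, nat_lit 1000, nat_lit 91, nat_lit 530, nat_lit 79350, nat_lit 284, nat_lit 4626, nat_lit 204, nat_lit 51751333, nat_lit 11285845, nat_lit 3962822, nat_lit 3532241, false, true⟩,
 nat_lit 0, nat_lit 0, nat_lit 0, nat_lit 3039, nat_lit 2565, nat_lit 0, nat_lit 0, nat_lit 0, nat_lit 0, nat_lit 0, nat_lit 0, nat_lit 0, nat_lit 0, nat_lit 0, nat_lit 25, nat_lit 250000, nat_lit 0, nat_lit 0, [(nat_lit 28, [(nat_lit 0, nat_lit 470), (nat_lit 4, nat_lit 530)])],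
 ⟨p102_k34, nat_lit 0, nat_lit 0, nat_lit 124, nat_lit 0, nat_lit 0, [nat_lit 871000001, nat_lit 353224000, nat_lit 62088000], [], [nat_lit 19422282945, nat_lit 20908542150, nat_lit 24124143328, nat_lit 25422935005, nat_lit 20524049607, nat_lit 21782538585, nat_lit 24861462651, nat_lit 25946955989], nat_lit 0, nat_lit 0, nat_lit 0, nat_lit 0, nat_lit 0, nat_lit 0, [], [nat_lit 131, nat_lit 40, nat_lit 40, nat_lit 80, nat_lit 64, nat_lit 345, nat_lit 125, nat_lit 13]⟩, C1.Rw.none,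
 ⟨nat_lit 0, nat_lit 2237, ⟨.ofNat (nat_lit 273845), .ofNat (nat_lit 579878), .ofNat (nat_lit 317541), .ofNat (nat_lit 625429), .ofNat (nat_lit 291142), .ofNat (nat_lit 559993), .ofNat (nat_lit 339289), .ofNat (nat_lit 609995)⟩, ⟨.ofNat (nat_lit 146756), .ofNat (nat_lit 266484), .ofNat (nat_lit 192306), .ofNat (nat_lit 312035), .ofNat (nat_lit 149997), .ofNat (nat_lit 254993), .ofNat (nat_lit 199999), .ofNat (nat_lit 304995)⟩⟩, [⟨nat_lit 13, nat_lit 31, nat_lit 98, nat_lit 100, nat_lit 60216213⟩, ⟨nat_lit 13, nat_lit 44, nat_lit 90, nat_lit 100, nat_lit 109356026⟩, ⟨nat_lit 4, nat_lit 100, nat_lit 35, nat_lit 80, nat_lit 176054443⟩]⟩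
noncomputable def p102_l146 : Lf2 := ⟨nat_lit 0, nat_lit 20, [nat_lit 5, nat_lit 5, nat_lit 5, nat_lit 20], true, nat_lit 0, nat_lit 200, nat_lit 0, nat_lit 384, ⟨nat_lit 0, nat_lit 1000, nat_lit 0, nat_lit 4, nat_lit 180, nat_lit 1000, nat_lit 67, nat_lit 0, nat_lit 0, nat_lit 0, nat_lit 0, nat_lit 0, nat_lit 0, nat_lit 0, nat_lit 0, nat_lit 5000000, false, true⟩,
 nat_lit 0, nat_lit 0, nat_lit 0, nat_lit 3736, nat_lit 3693, nat_lit 0, nat_lit 0, nat_lit 0, nat_lit 0, nat_lit 0, nat_lit 0, nat_lit 0, nat_lit 0, nat_lit 0, nat_lit 0, nat_lit 328300, nat_lit 0, nat_lit 0, [(nat_lit 25, [(nat_lit 0, nat_lit 478), (nat_lit 1, nat_lit 522)]), (nat_lit 28, [(nat_lit 0, nat_lit 478), (nat_lit 1, nat_lit 522)])],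
 ⟨p102_k24, nat_lit 0, nat_lit 0, nat_lit 213, nat_lit 0, nat_lit 0, [nat_lit 891094721, nat_lit 1490138400], [], [nat_lit 23229726717, nat_lit 27352252104, nat_lit 28622789700, nat_lit 31606040908, nat_lit 23160897573, nat_lit 25598142532, nat_lit 27209870538, nat_lit 29167572420], nat_lit 0, nat_lit 0, nat_lit 0, nat_lit 0, nat_lit 0, nat_lit 0, [], [nat_lit 88, nat_lit 40, nat_lit 40, nat_lit 80, nat_lit 89, nat_lit 373, nat_lit 150, nat_lit 14]⟩, C1.Rw.none,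
 ⟨nat_lit 0, nat_lit 3163, ⟨.ofNat (nat_lit 216927), .ofNat (nat_lit 638543), .ofNat (nat_lit 258627), .ofNat (nat_lit 682855), .ofNat (nat_lit 252860), .ofNat (nat_lit 599993), .ofNat (nat_lit 300250), .ofNat (nat_lit 649995)⟩, ⟨.ofNat (nat_lit 0), .ofNat (nat_lit 322753), .ofNat (nat_lit 0), .ofNat (nat_lit 367065), .ofNat (nat_lit 0), .ofNat (nat_lit 299993), .ofNat (nat_lit 0), .ofNat (nat_lit 349995)⟩⟩, [⟨nat_lit 13, nat_lit 44, nat_lit 94, nat_lit 100, nat_lit 284442264⟩]⟩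
noncomputable def b_V_900_400_10_6 : St := ⟨true, nat_lit 0, nat_lit 2, nat_lit 0, nat_lit 80, nat_lit 360, nat_lit 400, nat_lit 160, nat_lit 200, nat_lit 48, nat_lit 320, nat_lit 40, nat_lit 80, nat_lit 0, nat_lit 200, nat_lit 0, nat_lit 384, nat_lit 80, nat_lit 120, nat_lit 0, nat_lit 0, nat_lit 0, nat_lit 0⟩
theorem d_V_900_400_10_6 (h : EB TB.env) : Dead b_V_900_400_10_6 := chkB_sound0 h (T :=
(.gv
(.st (nat_lit 1)
(.spl (nat_lit 4) (nat_lit 80)
(.spl (nat_lit 2) (nat_lit 160)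
(.leaf p102_l137)
(.leaf p102_l138))
(.spl (nat_lit 0) (nat_lit 380)
(.leaf p102_l139)
(.trZ (nat_lit 0) (nat_lit 100) (nat_lit 44) (nat_lit 81) (nat_lit 76) (.trX (nat_lit 13) (nat_lit 44) (nat_lit 90) (nat_lit 100) (nat_lit 288) (.trX (nat_lit 16) (nat_lit 44) (nat_lit 100) (nat_lit 82) (nat_lit 164) (.leaf p102_l140))))))
(.spl (nat_lit 4) (nat_lit 80)
(.spl (nat_lit 2) (nat_lit 160)
(.leaf p102_l141)
(.spl (nat_lit 2) (nat_lit 240)
(.leaf p102_l142)
(.trX (nat_lit 22) (nat_lit 100) (nat_lit 76) (nat_lit 82) (nat_lit 336) (.leaf p102_l143))))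
(.spl (nat_lit 0) (nat_lit 380)
(.leaf p102_l144)
(.trZ (nat_lit 0) (nat_lit 100) (nat_lit 44) (nat_lit 81) (nat_lit 76) (.trX (nat_lit 13) (nat_lit 44) (nat_lit 90) (nat_lit 100) (nat_lit 288) (.trX (nat_lit 16) (nat_lit 44) (nat_lit 100) (nat_lit 82) (nat_lit 164) (.leaf p102_l145)))))))
(.leaf p102_l146))) (by decide +kernel)

end B2
end Pool.Agent.Lib.MP_6947cd_al
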