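import Pool.Agent.Lib.MP_6947cd_al.ZB.Pre

/-!
Problem MP_6947cd_al (Chollet).  Case B, second entry in [2/5, 17/20]: certificates of the tree, part P120 (generated).
-/

set_option autoImplicit false
set_option linter.all false

namespace Pool.Agent.Lib.MP_6947cd_al
namespace B2

open Ent Fr B1 PkA

noncomputable def p120_k0 : C1.Kn := ⟨[nat_lit 20, nat_lit 80, nat_lit 100], [nat_lit 0, nat_lit 0, nat_lit 2559], [(nat_lit 0, nat_lit 0, nat_lit 0), (nat_lit 0, nat_lit 0, nat_lit 0), (nat_lit 1000, nat_lit 600, nat_lit 787)], (nat_lit 60, nat_lit 100, nat_lit 80)⟩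
noncomputable def p120_k1 : C1.Kn := ⟨[nat_lit 60, nat_lit 120, nat_lit 160], [nat_lit 0, nat_lit 0, nat_lit 3243], [(nat_lit 0, nat_lit 0, nat_lit 0), (nat_lit 0, nat_lit 0, nat_lit 0), (nat_lit 878, nat_lit 1000, nat_lit 945)], (nat_lit 100, nat_lit 95, nat_lit 87)⟩
noncomputable def p120_k2 : C1.Kn := ⟨[nat_lit 20, nat_lit 80, nat_lit 100], [nat_lit 0, nat_lit 2121, nat_lit 3610], [(nat_lit 0, nat_lit 0, nat_lit 0), (nat_lit 1000, nat_lit 558, nat_lit 551), (nat_lit 1000, nat_lit 436, nat_lit 895)], (nat_lit 44, nat_lit 100, nat_lit 82)⟩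
noncomputable def p120_k3 : C1.Kn := ⟨[nat_lit 20, nat_lit 60, nat_lit 100], [nat_lit 0, nat_lit 0, nat_lit 2559], [(nat_lit 0, nat_lit 0, nat_lit 0), (nat_lit 0, nat_lit 0, nat_lit 0), (nat_lit 1000, nat_lit 600, nat_lit 787)], (nat_lit 60, nat_lit 100, nat_lit 80)⟩
noncomputable def p120_k4 : C1.Kn := ⟨[nat_lit 60, nat_lit 100, nat_lit 140], [nat_lit 0, nat_lit 609, nat_lit 2558], [(nat_lit 0, nat_lit 0, nat_lit 0), (nat_lit 1000, nat_lit 905, nat_lit 238), (nat_lit 1000, nat_lit 904, nat_lit 760)], (nat_lit 94, nat_lit 100, nat_lit 87)⟩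
noncomputable def p120_k5 : C1.Kn := ⟨[nat_lit 20, nat_lit 60, nat_lit 100], [nat_lit 0, nat_lit 1415, nat_lit 3591], [(nat_lit 0, nat_lit 0, nat_lit 0), (nat_lit 1000, nat_lit 558, nat_lit 551), (nat_lit 1000, nat_lit 439, nat_lit 849)], (nat_lit 44, nat_lit 100, nat_lit 82)⟩
noncomputable def p120_k6 : C1.Kn := ⟨[nat_lit 60, nat_lit 100, nat_lit 140], [nat_lit 0, nat_lit 909, nat_lit 2819], [(nat_lit 0, nat_lit 0, nat_lit 0), (nat_lit 1000, nat_lit 858, nat_lit 354), (nat_lit 1000, nat_lit 858, nat_lit 746)], (nat_lit 89, nat_lit 100, nat_lit 85)⟩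
noncomputable def p120_k7 : C1.Kn := ⟨[nat_lit 60, nat_lit 100, nat_lit 160], [nat_lit 0, nat_lit 0, nat_lit 3069], [(nat_lit 0, nat_lit 0, nat_lit 0), (nat_lit 0, nat_lit 0, nat_lit 0), (nat_lit 1000, nat_lit 999, nat_lit 798)], (nat_lit 100, nat_lit 95, nat_lit 87)⟩
noncomputable def p120_k8 : C1.Kn := ⟨[nat_lit 60, nat_lit 100, nat_lit 160], [nat_lit 0, nat_lit 302, nat_lit 3303], [(nat_lit 0, nat_lit 0, nat_lit 0), (nat_lit 1000, nat_lit 953, nat_lit 118), (nat_lit 1000, nat_lit 952, nat_lit 781)], (nat_lit 100, nat_lit 100, nat_lit 89)⟩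
noncomputable def p120_k9 : C1.Kn := ⟨[nat_lit 20, nat_lit 60, nat_lit 100], [nat_lit 0, nat_lit 698, nat_lit 3028], [(nat_lit 0, nat_lit 0, nat_lit 0), (nat_lit 1000, nat_lit 782, nat_lit 272), (nat_lit 1000, nat_lit 527, nat_lit 841)], (nat_lit 53, nat_lit 100, nat_lit 80)⟩
noncomputable def p120_k10 : C1.Kn := ⟨[nat_lit 20, nat_lit 60, nat_lit 100], [nat_lit 0, nat_lit 0, nat_lit 2559], [(nat_lit 0, nat_lit 0, nat_lit 0), (nat_lit 0, nat_lit 0, nat_lit 0), (nat_lit 1000, nat_lit 600, nat_lit 787)], (nat_lit 61, nat_lit 100, nat_lit 72)⟩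
noncomputable def p120_k11 : C1.Kn := ⟨[nat_lit 60, nat_lit 100, nat_lit 140], [nat_lit 0, nat_lit 0, nat_lit 2047], [(nat_lit 0, nat_lit 0, nat_lit 0), (nat_lit 0, nat_lit 0, nat_lit 0), (nat_lit 1000, nat_lit 993, nat_lit 781)], (nat_lit 99, nat_lit 100, nat_lit 77)⟩
noncomputable def p120_k12 : C1.Kn := ⟨[nat_lit 20, nat_lit 60, nat_lit 80], [nat_lit 0, nat_lit 698, nat_lit 2008], [(nat_lit 0, nat_lit 0, nat_lit 0), (nat_lit 1000, nat_lit 782, nat_lit 272), (nat_lit 1000, nat_lit 540, nat_lit 733)], (nat_lit 54, nat_lit 100, nat_lit 73)⟩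
noncomputable def p120_k13 : C1.Kn := ⟨[nat_lit 60, nat_lit 100, nat_lit 140], [nat_lit 0, nat_lit 609, nat_lit 2558], [(nat_lit 0, nat_lit 0, nat_lit 0), (nat_lit 1000, nat_lit 905, nat_lit 238), (nat_lit 1000, nat_lit 904, nat_lit 760)], (nat_lit 90, nat_lit 100, nat_lit 74)⟩
noncomputable def p120_k14 : C1.Kn := ⟨[nat_lit 20, nat_lit 60, nat_lit 80], [nat_lit 0, nat_lit 2136, nat_lit 3185], [(nat_lit 0, nat_lit 0, nat_lit 0), (nat_lit 1000, nat_lit 343, nat_lit 808), (nat_lit 1000, nat_lit 338, nat_lit 820)], (nat_lit 33, nat_lit 100, nat_lit 84)⟩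
noncomputable def p120_k15 : C1.Kn := ⟨[nat_lit 20, nat_lit 60, nat_lit 80], [nat_lit 0, nat_lit 1415, nat_lit 2514], [(nat_lit 0, nat_lit 0, nat_lit 0), (nat_lit 1000, nat_lit 558, nat_lit 551), (nat_lit 1000, nat_lit 446, nat_lit 804)], (nat_lit 46, nat_lit 100, nat_lit 75)⟩
noncomputable def p120_k16 : C1.Kn := ⟨[nat_lit 20, nat_lit 60, nat_lit 80], [nat_lit 0, nat_lit 1776, nat_lit 2828], [(nat_lit 0, nat_lit 0, nat_lit 0), (nat_lit 1000, nat_lit 445, nat_lit 693), (nat_lit 1000, nat_lit 394, nat_lit 822)], (nat_lit 39, nat_lit 100, nat_lit 83)⟩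
noncomputable def p120_k17 : C1.Kn := ⟨[nat_lit 20, nat_lit 40, nat_lit 100], [nat_lit 0, nat_lit 170, nat_lit 2552], [(nat_lit 0, nat_lit 0, nat_lit 0), (nat_lit 1000, nat_lit 894, nat_lit 132), (nat_lit 1000, nat_lit 601, nat_lit 620)], (nat_lit 57, nat_lit 100, nat_lit 73)⟩
noncomputable def p120_k18 : C1.Kn := ⟨[nat_lit 60, nat_lit 80, nat_lit 140], [nat_lit 0, nat_lit 0, nat_lit 1595], [(nat_lit 0, nat_lit 0, nat_lit 0), (nat_lit 0, nat_lit 0, nat_lit 0), (nat_lit 1000, nat_lit 917, nat_lit 415)], (nat_lit 99, nat_lit 100, nat_lit 77)⟩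
noncomputable def p120_k19 : C1.Kn := ⟨[nat_lit 20, nat_lit 40, nat_lit 80], [nat_lit 0, nat_lit 350, nat_lit 1914], [(nat_lit 0, nat_lit 0, nat_lit 0), (nat_lit 1000, nat_lit 782, nat_lit 272), (nat_lit 1000, nat_lit 579, nat_lit 610)], (nat_lit 54, nat_lit 100, nat_lit 73)⟩
noncomputable def p120_k20 : C1.Kn := ⟨[nat_lit 60, nat_lit 80, nat_lit 140], [nat_lit 0, nat_lit 151, nat_lit 1731], [(nat_lit 0, nat_lit 0, nat_lit 0), (nat_lit 1000, nat_lit 953, nat_lit 118), (nat_lit 1000, nat_lit 894, nat_lit 411)], (nat_lit 94, nat_lit 100, nat_lit 75)⟩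
noncomputable def p120_k21 : C1.Kn := ⟨[nat_lit 20, nat_lit 40, nat_lit 100], [nat_lit 0, nat_lit 0, nat_lit 2396], [(nat_lit 0, nat_lit 0, nat_lit 0), (nat_lit 0, nat_lit 0, nat_lit 0), (nat_lit 1000, nat_lit 625, nat_lit 623)], (nat_lit 60, nat_lit 100, nat_lit 80)⟩
noncomputable def p120_k22 : C1.Kn := ⟨[nat_lit 60, nat_lit 80, nat_lit 160], [nat_lit 0, nat_lit 0, nat_lit 2127], [(nat_lit 0, nat_lit 0, nat_lit 0), (nat_lit 0, nat_lit 0, nat_lit 0), (nat_lit 1000, nat_lit 917, nat_lit 415)], (nat_lit 100, nat_lit 95, nat_lit 87)⟩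
noncomputable def p120_k23 : C1.Kn := ⟨[nat_lit 20, nat_lit 40, nat_lit 100], [nat_lit 0, nat_lit 350, nat_lit 2695], [(nat_lit 0, nat_lit 0, nat_lit 0), (nat_lit 1000, nat_lit 782, nat_lit 272), (nat_lit 1000, nat_lit 579, nat_lit 610)], (nat_lit 53, nat_lit 100, nat_lit 80)⟩
noncomputable def p120_k24 : C1.Kn := ⟨[nat_lit 60, nat_lit 100, nat_lit 140], [nat_lit 0, nat_lit 302, nat_lit 2304], [(nat_lit 0, nat_lit 0, nat_lit 0), (nat_lit 1000, nat_lit 953, nat_lit 118), (nat_lit 1000, nat_lit 952, nat_lit 781)], (nat_lit 94, nat_lit 100, nat_lit 75)⟩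
noncomputable def p120_k25 : C1.Kn := ⟨[nat_lit 20, nat_lit 40, nat_lit 100], [nat_lit 0, nat_lit 0, nat_lit 2396], [(nat_lit 0, nat_lit 0, nat_lit 0), (nat_lit 0, nat_lit 0, nat_lit 0), (nat_lit 1000, nat_lit 625, nat_lit 623)], (nat_lit 61, nat_lit 100, nat_lit 72)⟩
noncomputable def p120_k26 : C1.Kn := ⟨[nat_lit 60, nat_lit 80, nat_lit 140], [nat_lit 0, nat_lit 304, nat_lit 1867], [(nat_lit 0, nat_lit 0, nat_lit 0), (nat_lit 1000, nat_lit 905, nat_lit 238), (nat_lit 1000, nat_lit 871, nat_lit 407)], (nat_lit 90, nat_lit 100, nat_lit 74)⟩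
noncomputable def p120_k27 : C1.Kn := ⟨[nat_lit 60, nat_lit 80, nat_lit 140], [nat_lit 0, nat_lit 304, nat_lit 1867], [(nat_lit 0, nat_lit 0, nat_lit 0), (nat_lit 1000, nat_lit 905, nat_lit 238), (nat_lit 1000, nat_lit 871, nat_lit 407)], (nat_lit 94, nat_lit 100, nat_lit 87)⟩
noncomputable def p120_k28 : C1.Kn := ⟨[nat_lit 60, nat_lit 100, nat_lit 140], [nat_lit 0, nat_lit 909, nat_lit 2819], [(nat_lit 0, nat_lit 0, nat_lit 0), (nat_lit 1000, nat_lit 858, nat_lit 354), (nat_lit 1000, nat_lit 858, nat_lit 746)], (nat_lit 85, nat_lit 100, nat_lit 73)⟩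
noncomputable def p120_k29 : C1.Kn := ⟨[nat_lit 20, nat_lit 40, nat_lit 80], [nat_lit 0, nat_lit 1153, nat_lit 3001], [(nat_lit 0, nat_lit 0, nat_lit 0), (nat_lit 1000, nat_lit 394, nat_lit 710), (nat_lit 1000, nat_lit 386, nat_lit 722)], (nat_lit 33, nat_lit 100, nat_lit 84)⟩
noncomputable def p120_k30 : C1.Kn := ⟨[nat_lit 20, nat_lit 60], [nat_lit 0, nat_lit 2600], [(nat_lit 0, nat_lit 0, nat_lit 0), (nat_lit 1000, nat_lit 245, nat_lit 872)], (nat_lit 24, nat_lit 100, nat_lit 88)⟩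
noncomputable def p120_k31 : C1.Kn := ⟨[nat_lit 60, nat_lit 100, nat_lit 160], [nat_lit 0, nat_lit 151, nat_lit 3185], [(nat_lit 0, nat_lit 0, nat_lit 0), (nat_lit 1000, nat_lit 977, nat_lit 59), (nat_lit 1000, nat_lit 976, nat_lit 789)], (nat_lit 100, nat_lit 98, nat_lit 88)⟩
noncomputable def p120_k32 : C1.Kn := ⟨[nat_lit 60, nat_lit 100, nat_lit 160], [nat_lit 0, nat_lit 455, nat_lit 3416], [(nat_lit 0, nat_lit 0, nat_lit 0), (nat_lit 1000, nat_lit 929, nat_lit 178), (nat_lit 1000, nat_lit 928, nat_lit 770)], (nat_lit 97, nat_lit 100, nat_lit 88)⟩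
noncomputable def p120_k33 : C1.Kn := ⟨[nat_lit 60, nat_lit 80, nat_lit 140], [nat_lit 0, nat_lit 456, nat_lit 2015], [(nat_lit 0, nat_lit 0, nat_lit 0), (nat_lit 1000, nat_lit 859, nat_lit 351), (nat_lit 1000, nat_lit 848, nat_lit 406)], (nat_lit 89, nat_lit 100, nat_lit 85)⟩
noncomputable def p120_l0 : Lf2 := ⟨nat_lit 0, nat_lit 20, [nat_lit 5, nat_lit 5, nat_lit 5, nat_lit 20], false, nat_lit 0, nat_lit 80, nat_lit 0, nat_lit 300, ⟨nat_lit 64, nat_lit 169, nat_lit 767, nat_lit 7, nat_lit 226, nat_lit 936, nat_lit 34, nat_lit 767, nat_lit 10417, nat_lit 240, nat_lit 2809, nat_lit 206, nat_lit 50769982, nat_lit 16230018, nat_lit 0, nat_lit 2768234, false, false⟩,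
 nat_lit 0, nat_lit 0, nat_lit 961, nat_lit 0, nat_lit 2421, nat_lit 611, nat_lit 0, nat_lit 0, nat_lit 0, nat_lit 21, nat_lit 0, nat_lit 0, nat_lit 0, nat_lit 0, nat_lit 34, nat_lit 234000, nat_lit 0, nat_lit 0, [(nat_lit 25, [(nat_lit 0, nat_lit 169), (nat_lit 4, nat_lit 767)]), (nat_lit 28, [(nat_lit 0, nat_lit 169), (nat_lit 4, nat_lit 767)])],
 ⟨p120_k0, nat_lit 0, nat_lit 0, nat_lit 166, nat_lit 0, nat_lit 0, [nat_lit 921473601, nat_lit 344878801, nat_lit 11322000], [], [nat_lit 19601692058, nat_lit 22691408960, nat_lit 20650948286, nat_lit 23667925352, nat_lit 19188329827, nat_lit 21685449049, nat_lit 20368802181, nat_lit 22707656049], nat_lit 0, nat_lit 0, nat_lit 0, nat_lit 0, nat_lit 0, nat_lit 0, [], [nat_lit 55, nat_lit 40, nat_lit 40, nat_lit 80, nat_lit 3, nat_lit 289, nat_lit 75, nat_lit 10]⟩, ⟨p120_k1, nat_lit 0, nat_lit 0, nat_lit 977, nat_lit 0, nat_lit 1511242, [nat_lit 210048000, nat_lit 509952000,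 nat_lit 759808000], [], [nat_lit 2614463997, nat_lit 2614126905, nat_lit 2552125714, nat_lit 2550194660, nat_lit 2106075351, nat_lit 2141161414, nat_lit 2375457539, nat_lit 2107453693], nat_lit 1271250, nat_lit 1271250, nat_lit 1033601, nat_lit 1441000, nat_lit 0, nat_lit 2118750, [nat_lit 780000, nat_lit 1762500, nat_lit 1271250], [nat_lit 79, nat_lit 40, nat_lit 40, nat_lit 80, nat_lit 14, nat_lit 428, nat_lit 200, nat_lit 11]⟩,
 ⟨nat_lit 0, nat_lit 3163, ⟨.ofNat (nat_lit 507176), .ofNat (nat_lit 583399), .ofNat (nat_lit 528026), .ofNat (nat_lit 604249), .ofNat (nat_lit 531701), .ofNat (nat_lit 594780), .ofNat (nat_lit 555396), .ofNat (nat_lit 618475)⟩, ⟨.ofNat (nat_lit 0), .ofNat (nat_lit 139898), .ofNat (nat_lit 0), .ofNat (nat_lit 184209), .ofNat (nat_lit 0), .ofNat (nat_lit 149998), .ofNat (nat_lit 0), .ofNat (nat_lit 199999)⟩⟩, [⟨nat_lit 0, nat_lit 89, nat_lit 44, nat_lit 100, nat_lit 55995971⟩, ⟨nat_lit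 3, nat_lit 100, nat_lit 61, nat_lit 47, nat_lit 134957368⟩, ⟨nat_lit 7, nat_lit 100, nat_lit 94, nat_lit 75, nat_lit 5958988⟩]⟩
noncomputable def p120_l1 : Lf2 := ⟨nat_lit 0, nat_lit 20, [nat_lit 5, nat_lit 5, nat_lit 5, nat_lit 20], false, nat_lit 0, nat_lit 80, nat_lit 0, nat_lit 300, ⟨nat_lit 75, nat_lit 183, nat_lit 742, nat_lit 7, nat_lit 252, nat_lit 925, nat_lit 33, nat_lit 742, nat_lit 10417, nat_lit 240, nat_lit 71778, nat_lit 200, nat_lit 47948255, nat_lit 19051745, nat_lit 0, nat_lit 2985094, true, false⟩,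
 nat_lit 0, nat_lit 0, nat_lit 1149, nat_lit 0, nat_lit 2328, nat_lit 730, nat_lit 0, nat_lit 0, nat_lit 0, nat_lit 37, nat_lit 0, nat_lit 0, nat_lit 0, nat_lit 0, nat_lit 27, nat_lit 231250, nat_lit 0, nat_lit 0, [(nat_lit 25, [(nat_lit 0, nat_lit 183), (nat_lit 4, nat_lit 742)])],
 ⟨p120_k0, nat_lit 0, nat_lit 0, nat_lit 149, nat_lit 0, nat_lit 0, [nat_lit 892173200, nat_lit 334185201, nat_lit 16224000], [], [nat_lit 21000741313, nat_lit 22068524337, nat_lit 22107516065, nat_lit 23202358224, nat_lit 20627381793, nat_lit 21635900049, nat_lit 21693661953, nat_lit 22642958544], nat_lit 0, nat_lit 0, nat_lit 0, nat_lit 0, nat_lit 0, nat_lit 0, [], [nat_lit 55, nat_lit 40, nat_lit 40, nat_lit 80, nat_lit 3, nat_lit 226, nat_lit 20, nat_lit 8]⟩, ⟨p120_k1, nat_lit 0, nat_lit 0, nat_lit 812, nat_lit 0, nat_lit 1188424, [nat_lit 246150000, nat_lit 597600000, nat_lit 890400000], [], [nat_lit 2675697485, nat_lit 2716784020,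 nat_lit 2689697970, nat_lit 2751385990, nat_lit 2225265430, nat_lit 2203499143, nat_lit 2169753160, nat_lit 2181612720], nat_lit 1271250, nat_lit 1271250, nat_lit 1271250, nat_lit 1271250, nat_lit 0, nat_lit 2118750, [nat_lit 780000, nat_lit 1762500, nat_lit 1271250], [nat_lit 79, nat_lit 40, nat_lit 40, nat_lit 80, nat_lit 14, nat_lit 456, nat_lit 225, nat_lit 11]⟩,
 ⟨nat_lit 2236, nat_lit 3163, ⟨.ofNat (nat_lit 588366), .ofNat (nat_lit 649422), .ofNat (nat_lit 610457), .ofNat (nat_lit 671514), .ofNat (nat_lit 590843), .ofNat (nat_lit 647962), .ofNat (nat_lit 613554), .ofNat (nat_lit 670673)⟩, ⟨.ofNat (nat_lit 0), .ofNat (nat_lit 139899), .ofNat (nat_lit 0), .ofNat (nat_lit 184209), .ofNat (nat_lit 0), .ofNat (nat_lit 146758), .ofNat (nat_lit 0), .ofNat (nat_lit 192306)⟩⟩, [⟨nat_lit 3, nat_lit 100, nat_lit 54, nat_lit 57, nat_lit 102190011⟩, ⟨nat_lit 10, nat_lit 87, nat_lit 100, nat_lit 59, nat_lit 6821827⟩]⟩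
noncomputable def p120_l2 : Lf2 := ⟨nat_lit 0, nat_lit 20, [nat_lit 5, nat_lit 5, nat_lit 5, nat_lit 20], false, nat_lit 0, nat_lit 80, nat_lit 0, nat_lit 300, ⟨nat_lit 63, nat_lit 485, nat_lit 452, nat_lit 7, nat_lit 252, nat_lit 937, nat_lit 34, nat_lit 452, nat_lit 11267, nat_lit 241, nat_lit 73168, nat_lit 200, nat_lit 47920192, nat_lit 19079808, nat_lit 0, nat_lit 2987024, true, false⟩,
 nat_lit 0, nat_lit 0, nat_lit 973, nat_lit 0, nat_lit 2272, nat_lit 619, nat_lit 0, nat_lit 0, nat_lit 0, nat_lit 31, nat_lit 0, nat_lit 0, nat_lit 0, nat_lit 0, nat_lit 18, nat_lit 278050, nat_lit 0, nat_lit 0, [(nat_lit 28, [(nat_lit 0, nat_lit 485), (nat_lit 4, nat_lit 160), (nat_lit 5, nat_lit 292)])],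
 ⟨p120_k2, nat_lit 0, nat_lit 0, nat_lit 161, nat_lit 0, nat_lit 0, [nat_lit 805357200, nat_lit 194312080, nat_lit 93012800], [], [nat_lit 22331963344, nat_lit 23425699648, nat_lit 23373550176, nat_lit 24503919424, nat_lit 21938774032, nat_lit 22938250976, nat_lit 22944614896, nat_lit 23934338896], nat_lit 0, nat_lit 0, nat_lit 0, nat_lit 0, nat_lit 0, nat_lit 0, [], [nat_lit 55, nat_lit 40, nat_lit 40, nat_lit 80, nat_lit 3, nat_lit 226, nat_lit 20, nat_lit 8]⟩, ⟨p120_k1, nat_lit 0, nat_lit 0, nat_lit 956, nat_lit 0, nat_lit 1511242, [nat_lit 206766000, nat_lit 501984000, nat_lit 747936000], [], [nat_lit 2336678500, nat_lit 2342785256, nat_lit 2313831756, nat_lit 2317961548, nat_lit 1860358015, nat_lit 1853082723, nat_lit 1820701319, nat_lit 1825929165], nat_lit 1271250, nat_lit 1271250, nat_lit 1271250, nat_lit 1271250, nat_lit 0, nat_lit 2118750, [nat_lit 780000, nat_lit 1762500, nat_lit 1271250], [nat_lit 79,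 nat_lit 40, nat_lit 40, nat_lit 80, nat_lit 14, nat_lit 456, nat_lit 225, nat_lit 11]⟩,
 ⟨nat_lit 0, nat_lit 2237, ⟨.ofNat (nat_lit 587391), .ofNat (nat_lit 646249), .ofNat (nat_lit 609239), .ofNat (nat_lit 668096), .ofNat (nat_lit 596294), .ofNat (nat_lit 648136), .ofNat (nat_lit 620367), .ofNat (nat_lit 672209)⟩, ⟨.ofNat (nat_lit 0), .ofNat (nat_lit 146756), .ofNat (nat_lit 0), .ofNat (nat_lit 192306), .ofNat (nat_lit 0), .ofNat (nat_lit 149997), .ofNat (nat_lit 0), .ofNat (nat_lit 199999)⟩⟩, [⟨nat_lit 3, nat_lit 100, nat_lit 44, nat_lit 64, nat_lit 104630239⟩, ⟨nat_lit 10, nat_lit 87, nat_lit 100, nat_lit 59, nat_lit 5170310⟩]⟩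
noncomputable def p120_l3 : Lf2 := ⟨nat_lit 0, nat_lit 20, [nat_lit 5, nat_lit 5, nat_lit 5, nat_lit 20], false, nat_lit 0, nat_lit 80, nat_lit 0, nat_lit 280, ⟨nat_lit 110, nat_lit 199, nat_lit 691, nat_lit 7, nat_lit 252, nat_lit 890, nat_lit 33, nat_lit 691, nat_lit 10417, nat_lit 240, nat_lit 93870, nat_lit 200, nat_lit 47988295, nat_lit 19011705, nat_lit 0, nat_lit 2982331, true, false⟩,
 nat_lit 0, nat_lit 0, nat_lit 1099, nat_lit 0, nat_lit 2446, nat_lit 760, nat_lit 0, nat_lit 0, nat_lit 0, nat_lit 56, nat_lit 0, nat_lit 0, nat_lit 0, nat_lit 0, nat_lit 9, nat_lit 222500, nat_lit 0, nat_lit 0, [(nat_lit 25, [(nat_lit 0, nat_lit 199), (nat_lit 4, nat_lit 691)])],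
 ⟨p120_k3, nat_lit 0, nat_lit 0, nat_lit 142, nat_lit 0, nat_lit 0, [nat_lit 794264001, nat_lit 491361334, nat_lit 17141866], [], [nat_lit 20486089037, nat_lit 21767440731, nat_lit 22321038820, nat_lit 23477669336, nat_lit 20038721891, nat_lit 21160515305, nat_lit 21735624324, nat_lit 22828759576], nat_lit 0, nat_lit 0, nat_lit 0, nat_lit 0, nat_lit 0, nat_lit 0, [], [nat_lit 20, nat_lit 40, nat_lit 40, nat_lit 80, nat_lit 16, nat_lit 317, nat_lit 100, nat_lit 11]⟩, ⟨p120_k4, nat_lit 0, nat_lit 0, nat_lit 715, nat_lit 0, nat_lit 1116530, [nat_lit 361020000, nat_lit 687500000, nat_lit 1082620000], [], [nat_lit 3759956808, nat_lit 3794832784, nat_lit 3818003240, nat_lit 3848192480, nat_lit 3442963023, nat_lit 3458785842, nat_lit 3633014200, nat_lit 3465274220], nat_lit 1271250, nat_lit 1271250, nat_lit 1236400, nat_lit 1794000, nat_lit 0, nat_lit 1977500, [nat_lit 780000, nat_lit 1435000, nat_lit 1271250], [nat_lit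 8, nat_lit 40, nat_lit 40, nat_lit 80, nat_lit 1, nat_lit 373, nat_lit 150, nat_lit 10]⟩,
 ⟨nat_lit 2236, nat_lit 3163, ⟨.ofNat (nat_lit 573823), .ofNat (nat_lit 671514), .ofNat (nat_lit 584868), .ofNat (nat_lit 682560), .ofNat (nat_lit 579282), .ofNat (nat_lit 670673), .ofNat (nat_lit 590638), .ofNat (nat_lit 682029)⟩, ⟨.ofNat (nat_lit 0), .ofNat (nat_lit 139899), .ofNat (nat_lit 0), .ofNat (nat_lit 184209), .ofNat (nat_lit 0), .ofNat (nat_lit 146758), .ofNat (nat_lit 0), .ofNat (nat_lit 192306)⟩⟩, [⟨nat_lit 3, nat_lit 100, nat_lit 54, nat_lit 57, nat_lit 79007861⟩, ⟨nat_lit 10, nat_lit 92, nat_lit 100, nat_lit 44, nat_lit 28448348⟩]⟩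
noncomputable def p120_l4 : Lf2 := ⟨nat_lit 0, nat_lit 20, [nat_lit 5, nat_lit 5, nat_lit 5, nat_lit 20], false, nat_lit 0, nat_lit 80, nat_lit 0, nat_lit 280, ⟨nat_lit 141, nat_lit 859, nat_lit 0, nat_lit 7, nat_lit 263, nat_lit 859, nat_lit 34, nat_lit 0, nat_lit 0, nat_lit 0, nat_lit 0, nat_lit 0, nat_lit 46819778, nat_lit 20180222, nat_lit 0, nat_lit 3059376, true, false⟩,
 nat_lit 0, nat_lit 0, nat_lit 1528, nat_lit 0, nat_lit 2544, nat_lit 1057, nat_lit 67, nat_lit 0, nat_lit 0, nat_lit 124, nat_lit 0, nat_lit 0, nat_lit 0, nat_lit 0, nat_lit 0, nat_lit 343600, nat_lit 0, nat_lit 0, [(nat_lit 28, [(nat_lit 1, nat_lit 859)])],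
 ⟨p120_k5, nat_lit 0, nat_lit 0, nat_lit 152, nat_lit 0, nat_lit 0, [nat_lit 731496400, nat_lit 741765201, nat_lit 999792000], [], [nat_lit 23144344572, nat_lit 24428650087, nat_lit 23960796807, nat_lit 25184950848, nat_lit 22542933136, nat_lit 23634941220, nat_lit 23278620103, nat_lit 24363005463], nat_lit 0, nat_lit 0, nat_lit 0, nat_lit 0, nat_lit 0, nat_lit 0, [], [nat_lit 20, nat_lit 40, nat_lit 40, nat_lit 80, nat_lit 16, nat_lit 226, nat_lit 20, nat_lit 8]⟩, ⟨p120_k4, nat_lit 0, nat_lit 0, nat_lit 820, nat_lit 0, nat_lit 1394307, [nat_lit 462762000, nat_lit 881250000, nat_lit 1387722000], [], [nat_lit 3949220942, nat_lit 3974999807, nat_lit 3966110770, nat_lit 3989968719, nat_lit 3426437782, nat_lit 3439901889, nat_lit 3419350858, nat_lit 3444914624], nat_lit 1271250, nat_lit 1271250, nat_lit 1271250, nat_lit 1271250, nat_lit 0, nat_lit 1977500, [nat_lit 780000, nat_lit 1435000, nat_lit 1271250], [nat_lit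 8, nat_lit 40, nat_lit 40, nat_lit 80, nat_lit 1, nat_lit 373, nat_lit 150, nat_lit 10]⟩,
 ⟨nat_lit 0, nat_lit 2237, ⟨.ofNat (nat_lit 626896), .ofNat (nat_lit 668096), .ofNat (nat_lit 637820), .ofNat (nat_lit 679020), .ofNat (nat_lit 635920), .ofNat (nat_lit 672209), .ofNat (nat_lit 647957), .ofNat (nat_lit 684246)⟩, ⟨.ofNat (nat_lit 0), .ofNat (nat_lit 146756), .ofNat (nat_lit 0), .ofNat (nat_lit 192306), .ofNat (nat_lit 0), .ofNat (nat_lit 149997), .ofNat (nat_lit 0), .ofNat (nat_lit 199999)⟩⟩, [⟨nat_lit 0, nat_lit 88, nat_lit 32, nat_lit 100, nat_lit 214806680⟩, ⟨nat_lit 19, nat_lit 88, nat_lit 100, nat_lit 74, nat_lit 22850247⟩]⟩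
noncomputable def p120_l5 : Lf2 := ⟨nat_lit 0, nat_lit 20, [nat_lit 5, nat_lit 5, nat_lit 5, nat_lit 20], false, nat_lit 0, nat_lit 80, nat_lit 0, nat_lit 268, ⟨nat_lit 169, nat_lit 455, nat_lit 376, nat_lit 7, nat_lit 258, nat_lit 831, nat_lit 34, nat_lit 376, nat_lit 10417, nat_lit 240, nat_lit 118222, nat_lit 200, nat_lit 47294892, nat_lit 19705108, nat_lit 0, nat_lit 3028936, true, false⟩,
 nat_lit 0, nat_lit 0, nat_lit 1596, nat_lit 0, nat_lit 2836, nat_lit 1150, nat_lit 0, nat_lit 0, nat_lit 0, nat_lit 145, nat_lit 0, nat_lit 0, nat_lit 0, nat_lit 0, nat_lit 0, nat_lit 264150, nat_lit 0, nat_lit 0, [(nat_lit 25, [(nat_lit 0, nat_lit 455), (nat_lit 5, nat_lit 376)]), (nat_lit 28, [(nat_lit 0, nat_lit 455), (nat_lit 5, nat_lit 376)])],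
 ⟨p120_k3, nat_lit 0, nat_lit 0, nat_lit 152, nat_lit 0, nat_lit 0, [nat_lit 787276400, nat_lit 908747334, nat_lit 868477600], [], [nat_lit 21966235760, nat_lit 24672449895, nat_lit 23517314214, nat_lit 26079734448, nat_lit 21367958762, nat_lit 23658346627, nat_lit 22860801878, nat_lit 24959020790], nat_lit 0, nat_lit 0, nat_lit 0, nat_lit 0, nat_lit 0, nat_lit 0, [], [nat_lit 20, nat_lit 40, nat_lit 40, nat_lit 80, nat_lit 16, nat_lit 317, nat_lit 100, nat_lit 11]⟩, ⟨p120_k6, nat_lit 0, nat_lit 0, nat_lit 818, nat_lit 0, nat_lit 1373518, [nat_lit 554658000, nat_lit 1056250000, nat_lit 1663298000], [], [nat_lit 4478242090, nat_lit 4517235603, nat_lit 4537246133, nat_lit 4571574243, nat_lit 4103570769, nat_lit 4132085999, nat_lit 4129155221, nat_lit 4153994380], nat_lit 1271250, nat_lit 1271250, nat_lit 1271250, nat_lit 1271250, nat_lit 0, nat_lit 1892750, [nat_lit 780000, nat_lit 1435000, nat_lit 1271250], [nat_lit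 8, nat_lit 40, nat_lit 40, nat_lit 80, nat_lit 1, nat_lit 373, nat_lit 150, nat_lit 10]⟩,
 ⟨nat_lit 0, nat_lit 3163, ⟨.ofNat (nat_lit 589267), .ofNat (nat_lit 678193), .ofNat (nat_lit 599692), .ofNat (nat_lit 688618), .ofNat (nat_lit 609296), .ofNat (nat_lit 682888), .ofNat (nat_lit 621144), .ofNat (nat_lit 694736)⟩, ⟨.ofNat (nat_lit 0), .ofNat (nat_lit 139898), .ofNat (nat_lit 0), .ofNat (nat_lit 184209), .ofNat (nat_lit 0), .ofNat (nat_lit 149998), .ofNat (nat_lit 0), .ofNat (nat_lit 199999)⟩⟩, [⟨nat_lit 0, nat_lit 83, nat_lit 44, nat_lit 100, nat_lit 266423548⟩, ⟨nat_lit 3, nat_lit 100, nat_lit 61, nat_lit 47, nat_lit 29156460⟩, ⟨nat_lit 7, nat_lit 100, nat_lit 83, nat_lit 73, nat_lit 34716544⟩]⟩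
noncomputable def p120_l6 : Lf2 := ⟨nat_lit 0, nat_lit 20, [nat_lit 5, nat_lit 5, nat_lit 5, nat_lit 20], true, nat_lit 80, nat_lit 200, nat_lit 0, nat_lit 300, ⟨nat_lit 0, nat_lit 1000, nat_lit 0, nat_lit 7, nat_lit 238, nat_lit 1000, nat_lit 102, nat_lit 0, nat_lit 0, nat_lit 0, nat_lit 0, nat_lit 0, nat_lit 45609557, nat_lit 16918107, nat_lit 4472336, nat_lit 4189155, false, false⟩,
 nat_lit 0, nat_lit 0, nat_lit 0, nat_lit 2974, nat_lit 3684, nat_lit 0, nat_lit 0, nat_lit 0, nat_lit 0, nat_lit 0, nat_lit 0, nat_lit 0, nat_lit 0, nat_lit 0, nat_lit 0, nat_lit 250000, nat_lit 0, nat_lit 0, [(nat_lit 25, [(nat_lit 0, nat_lit 1000)])],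
 ⟨p120_k0, nat_lit 0, nat_lit 0, nat_lit 76, nat_lit 0, nat_lit 0, [nat_lit 764000001, nat_lit 1715600001, nat_lit 2118000000], [], [nat_lit 19452245032, nat_lit 21155191002, nat_lit 22011639089, nat_lit 23519976432, nat_lit 21330522573, nat_lit 22767066451, nat_lit 23482427385, nat_lit 24725245405], nat_lit 0, nat_lit 0, nat_lit 0, nat_lit 0, nat_lit 0, nat_lit 0, [], [nat_lit 55, nat_lit 40, nat_lit 40, nat_lit 80, nat_lit 3, nat_lit 345, nat_lit 125, nat_lit 12]⟩, C1.Rw.none,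
 ⟨nat_lit 2236, nat_lit 3163, ⟨.ofNat (nat_lit 515097), .ofNat (nat_lit 649422), .ofNat (nat_lit 537188), .ofNat (nat_lit 671514), .ofNat (nat_lit 522299), .ofNat (nat_lit 647962), .ofNat (nat_lit 545010), .ofNat (nat_lit 670673)⟩, ⟨.ofNat (nat_lit 139899), .ofNat (nat_lit 322759), .ofNat (nat_lit 184209), .ofNat (nat_lit 367069), .ofNat (nat_lit 146758), .ofNat (nat_lit 317804), .ofNat (nat_lit 192306), .ofNat (nat_lit 363353)⟩⟩, [⟨nat_lit 4, nat_lit 100, nat_lit 54, nat_lit 73, nat_lit 166149925⟩]⟩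
noncomputable def p120_l7 : Lf2 := ⟨nat_lit 0, nat_lit 20, [nat_lit 5, nat_lit 5, nat_lit 5, nat_lit 20], true, nat_lit 80, nat_lit 164, nat_lit 0, nat_lit 300, ⟨nat_lit 0, nat_lit 1000, nat_lit 0, nat_lit 7, nat_lit 250, nat_lit 1000, nat_lit 91, nat_lit 0, nat_lit 0, nat_lit 0, nat_lit 0, nat_lit 0, nat_lit 44986207, nat_lit 18240661, nat_lit 3773132, nat_lit 4138342, true, false⟩,
 nat_lit 0, nat_lit 0, nat_lit 0, nat_lit 0, nat_lit 4152, nat_lit 0, nat_lit 0, nat_lit 0, nat_lit 0, nat_lit 0, nat_lit 0, nat_lit 0, nat_lit 0, nat_lit 0, nat_lit 0, nat_lit 250000, nat_lit 0, nat_lit 0, [(nat_lit 28, [(nat_lit 0, nat_lit 1000)])],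
 ⟨p120_k2, nat_lit 0, nat_lit 0, nat_lit 105, nat_lit 0, nat_lit 0, [nat_lit 781600001, nat_lit 1560400000, nat_lit 1560400000], [], [nat_lit 22676814167, nat_lit 24462126426, nat_lit 24077574096, nat_lit 25909353952, nat_lit 23054361564, nat_lit 24553017773, nat_lit 24292338732, nat_lit 25885625887], nat_lit 0, nat_lit 0, nat_lit 0, nat_lit 0, nat_lit 0, nat_lit 0, [], [nat_lit 55, nat_lit 40, nat_lit 40, nat_lit 80, nat_lit 3, nat_lit 345, nat_lit 125, nat_lit 12]⟩, C1.Rw.none,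
 ⟨nat_lit 0, nat_lit 2237, ⟨.ofNat (nat_lit 575619), .ofNat (nat_lit 646249), .ofNat (nat_lit 597467), .ofNat (nat_lit 668096), .ofNat (nat_lit 585925), .ofNat (nat_lit 648136), .ofNat (nat_lit 609999), .ofNat (nat_lit 672209)⟩, ⟨.ofNat (nat_lit 146756), .ofNat (nat_lit 266484), .ofNat (nat_lit 192306), .ofNat (nat_lit 312035), .ofNat (nat_lit 149997), .ofNat (nat_lit 254993), .ofNat (nat_lit 199999), .ofNat (nat_lit 304995)⟩⟩, [⟨nat_lit 16, nat_lit 44, nat_lit 100, nat_lit 82, nat_lit 78279631⟩]⟩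
noncomputable def p120_l8 : Lf2 := ⟨nat_lit 0, nat_lit 20, [nat_lit 5, nat_lit 5, nat_lit 5, nat_lit 20], false, nat_lit 80, nat_lit 200, nat_lit 0, nat_lit 280, ⟨nat_lit 106, nat_lit 894, nat_lit 0, nat_lit 7, nat_lit 254, nat_lit 894, nat_lit 101, nat_lit 0, nat_lit 0, nat_lit 0, nat_lit 0, nat_lit 0, nat_lit 44188883, nat_lit 18475818, nat_lit 4335299, nat_lit 4274297, true, false⟩,
 nat_lit 0, nat_lit 0, nat_lit 1180, nat_lit 0, nat_lit 4926, nat_lit 816, nat_lit 0, nat_lit 0, nat_lit 0, nat_lit 57, nat_lit 0, nat_lit 0, nat_lit 0, nat_lit 0, nat_lit 0, nat_lit 223500, nat_lit 0, nat_lit 0, [(nat_lit 25, [(nat_lit 0, nat_lit 894)]), (nat_lit 28, [(nat_lit 0, nat_lit 894)])],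
 ⟨p120_k3, nat_lit 0, nat_lit 0, nat_lit 105, nat_lit 0, nat_lit 0, [nat_lit 798178401, nat_lit 1571599200, nat_lit 2555992000], [], [nat_lit 21412032373, nat_lit 25238020023, nat_lit 23349063184, nat_lit 27026062576, nat_lit 22667076756, nat_lit 25878390525, nat_lit 24245738148, nat_lit 27385317652], nat_lit 0, nat_lit 0, nat_lit 0, nat_lit 0, nat_lit 0, nat_lit 0, [], [nat_lit 20, nat_lit 40, nat_lit 40, nat_lit 80, nat_lit 16, nat_lit 345, nat_lit 125, nat_lit 12]⟩, ⟨p120_k4, nat_lit 0, nat_lit 0, nat_lit 866, nat_lit 0, nat_lit 1455935, [nat_lit 347892000, nat_lit 662500000, nat_lit 1043252000], [], [nat_lit 3424723613, nat_lit 3458160536, nat_lit 3416712564, nat_lit 3482043996, nat_lit 2973457470, nat_lit 2989788162, nat_lit 3385588555, nat_lit 3025389019], nat_lit 1271250, nat_lit 1271250, nat_lit 1236400, nat_lit 1794000, nat_lit 0, nat_lit 1977500, [nat_lit 780000, nat_lit 1435000, nat_lit 1271250], [nat_lit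 8, nat_lit 40, nat_lit 40, nat_lit 80, nat_lit 1, nat_lit 373, nat_lit 150, nat_lit 10]⟩,
 ⟨nat_lit 0, nat_lit 3163, ⟨.ofNat (nat_lit 566138), .ofNat (nat_lit 667768), .ofNat (nat_lit 586988), .ofNat (nat_lit 688618), .ofNat (nat_lit 586935), .ofNat (nat_lit 671040), .ofNat (nat_lit 610631), .ofNat (nat_lit 694736)⟩, ⟨.ofNat (nat_lit 139898), .ofNat (nat_lit 322753), .ofNat (nat_lit 184209), .ofNat (nat_lit 367065), .ofNat (nat_lit 149998), .ofNat (nat_lit 299993), .ofNat (nat_lit 199999), .ofNat (nat_lit 349995)⟩⟩, [⟨nat_lit 0, nat_lit 84, nat_lit 44, nat_lit 100, nat_lit 172054798⟩, ⟨nat_lit 4, nat_lit 100, nat_lit 46, nat_lit 75, nat_lit 156038539⟩, ⟨nat_lit 7, nat_lit 100, nat_lit 85, nat_lit 73, nat_lit 16556599⟩]⟩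
noncomputable def b_V_900_700_10_13 : St := ⟨true, nat_lit 0, nat_lit 1, nat_lit 1, nat_lit 80, nat_lit 360, nat_lit 400, nat_lit 280, nat_lit 320, nat_lit 152, nat_lit 240, nat_lit 40, nat_lit 80, nat_lit 0, nat_lit 200, nat_lit 0, nat_lit 300, nat_lit 80, nat_lit 120, nat_lit 0, nat_lit 0, nat_lit 0, nat_lit 0⟩
theorem d_V_900_700_10_13 (h : EB TB.env) : Dead b_V_900_700_10_13 := chkB_sound0 h (T :=
(.spl (nat_lit 4) (nat_lit 80)
(.spl (nat_lit 1) (nat_lit 300)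
(.spl (nat_lit 2) (nat_lit 200)
(.leaf p120_l0)
(.spl (nat_lit 0) (nat_lit 380)
(.leaf p120_l1)
(.leaf p120_l2)))
(.trZ (nat_lit 0) (nat_lit 87) (nat_lit 60) (nat_lit 100) (nat_lit 176) (.trX (nat_lit 19) (nat_lit 94) (nat_lit 100) (nat_lit 87) (nat_lit 280) (.spl (nat_lit 1) (nat_lit 310)
(.spl (nat_lit 0) (nat_lit 380)
(.leaf p120_l3)
(.trZ (nat_lit 0) (nat_lit 87) (nat_lit 44) (nat_lit 100) (nat_lit 212) (.leaf p120_l4)))
(.trZ (nat_lit 0) (nat_lit 84) (nat_lit 60) (nat_lit 100) (nat_lit 184) (.trX (nat_lit 19) (nat_lit 89) (nat_lit 100) (nat_lit 85) (nat_lit 268) (.leaf p120_l5)))))))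
(.spl (nat_lit 1) (nat_lit 300)
(.spl (nat_lit 0) (nat_lit 380)
(.leaf p120_l6)
(.trZ (nat_lit 0) (nat_lit 92) (nat_lit 44) (nat_lit 100) (nat_lit 192) (.trX (nat_lit 16) (nat_lit 44) (nat_lit 100) (nat_lit 82) (nat_lit 164) (.leaf p120_l7))))
(.trZ (nat_lit 0) (nat_lit 87) (nat_lit 60) (nat_lit 100) (nat_lit 176) (.trX (nat_lit 19) (nat_lit 94) (nat_lit 100) (nat_lit 87) (nat_lit 280) (.leaf p120_l8)))))) (by decide +kernel)
noncomputable def p120_l9 : Lf2 := ⟨nat_lit 0, nat_lit 20, [nat_lit 5, nat_lit 5, nat_lit 5, nat_lit 20], false, nat_lit 0, nat_lit 80, nat_lit 0, nat_lit 300, ⟨nat_lit 106, nat_lit 894, nat_lit 0, nat_lit 7, nat_lit 274, nat_lit 894, nat_lit 33, nat_lit 0, nat_lit 0, nat_lit 0, nat_lit 0, nat_lit 0, nat_lit 45651739, nat_lit 21348261, nat_lit 0, nat_lit 3129164, true, false⟩,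
 nat_lit 0, nat_lit 0, nat_lit 1373, nat_lit 0, nat_lit 2974, nat_lit 873, nat_lit 0, nat_lit 0, nat_lit 0, nat_lit 73, nat_lit 0, nat_lit 0, nat_lit 0, nat_lit 0, nat_lit 0, nat_lit 306600, nat_lit 0, nat_lit 0, [(nat_lit 25, [(nat_lit 0, nat_lit 340), (nat_lit 1, nat_lit 554)])],
 ⟨p120_k3, nat_lit 0, nat_lit 0, nat_lit 147, nat_lit 0, nat_lit 0, [nat_lit 827207201, nat_lit 1368465867, nat_lit 1889640800], [], [nat_lit 24883985389, nat_lit 26020045969, nat_lit 26258109717, nat_lit 27345078247, nat_lit 24135582165, nat_lit 25205708469, nat_lit 25445952301, nat_lit 26442676733], nat_lit 0, nat_lit 0, nat_lit 0, nat_lit 0, nat_lit 0, nat_lit 0, [], [nat_lit 20, nat_lit 40, nat_lit 40, nat_lit 80, nat_lit 16, nat_lit 226, nat_lit 20, nat_lit 8]⟩, ⟨p120_k7, nat_lit 0, nat_lit 0, nat_lit 740, nat_lit 0, nat_lit 1119789, [nat_lit 347892000, nat_lit 662500000, nat_lit 1258432000], [], [nat_lit 3567422602, nat_lit 3608281764,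 nat_lit 3674946602, nat_lit 3711098314, nat_lit 3022290734, nat_lit 3040749454, nat_lit 3063748123, nat_lit 3081729529], nat_lit 1271250, nat_lit 1271250, nat_lit 1271250, nat_lit 1271250, nat_lit 0, nat_lit 2118750, [nat_lit 780000, nat_lit 1435000, nat_lit 1271250], [nat_lit 23, nat_lit 40, nat_lit 40, nat_lit 80, nat_lit 12, nat_lit 456, nat_lit 225, nat_lit 11]⟩,
 ⟨nat_lit 2236, nat_lit 3163, ⟨.ofNat (nat_lit 649422), .ofNat (nat_lit 710480), .ofNat (nat_lit 660469), .ofNat (nat_lit 721526), .ofNat (nat_lit 647962), .ofNat (nat_lit 705082), .ofNat (nat_lit 659318), .ofNat (nat_lit 716437)⟩, ⟨.ofNat (nat_lit 0), .ofNat (nat_lit 139899), .ofNat (nat_lit 0), .ofNat (nat_lit 184209), .ofNat (nat_lit 0), .ofNat (nat_lit 146758), .ofNat (nat_lit 0), .ofNat (nat_lit 192306)⟩⟩, [⟨nat_lit 22, nat_lit 100, nat_lit 99, nat_lit 63, nat_lit 13643112⟩]⟩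
noncomputable def p120_l10 : Lf2 := ⟨nat_lit 0, nat_lit 20, [nat_lit 5, nat_lit 5, nat_lit 5, nat_lit 20], false, nat_lit 0, nat_lit 80, nat_lit 0, nat_lit 292, ⟨nat_lit 132, nat_lit 868, nat_lit 0, nat_lit 7, nat_lit 278, nat_lit 868, nat_lit 33, nat_lit 0, nat_lit 0, nat_lit 0, nat_lit 0, nat_lit 0, nat_lit 45142389, nat_lit 21857611, nat_lit 0, nat_lit 3157392, true, false⟩,
 nat_lit 0, nat_lit 0, nat_lit 1543, nat_lit 0, nat_lit 3099, nat_lit 1024, nat_lit 0, nat_lit 0, nat_lit 0, nat_lit 111, nat_lit 0, nat_lit 0, nat_lit 0, nat_lit 0, nat_lit 0, nat_lit 287050, nat_lit 0, nat_lit 0, [(nat_lit 25, [(nat_lit 0, nat_lit 401), (nat_lit 1, nat_lit 467)])],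
 ⟨p120_k3, nat_lit 0, nat_lit 0, nat_lit 142, nat_lit 0, nat_lit 0, [nat_lit 824701601, nat_lit 1450109067, nat_lit 2101716400], [], [nat_lit 25058583139, nat_lit 25663717429, nat_lit 26486014579, nat_lit 27046853938, nat_lit 24022831304, nat_lit 24580943624, nat_lit 25368601300, nat_lit 25887506816], nat_lit 0, nat_lit 0, nat_lit 0, nat_lit 0, nat_lit 0, nat_lit 0, [], [nat_lit 20, nat_lit 40, nat_lit 40, nat_lit 80, nat_lit 16, nat_lit 226, nat_lit 20, nat_lit 8]⟩, ⟨p120_k8, nat_lit 0, nat_lit 0, nat_lit 688, nat_lit 0, nat_lit 973976, [nat_lit 433224000, nat_lit 825000000, nat_lit 1567104000], [], [nat_lit 3986748206, nat_lit 4036542166, nat_lit 4114324182, nat_lit 4158539750, nat_lit 3558602359, nat_lit 3582341002, nat_lit 3612068237, nat_lit 3632839807], nat_lit 1271250, nat_lit 1271250, nat_lit 1271250, nat_lit 1271250, nat_lit 0, nat_lit 2062250, [nat_lit 780000, nat_lit 1435000, nat_lit 1271250], [nat_lit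 23, nat_lit 40, nat_lit 40, nat_lit 80, nat_lit 12, nat_lit 456, nat_lit 225, nat_lit 11]⟩,
 ⟨nat_lit 2738, nat_lit 3163, ⟨.ofNat (nat_lit 660614), .ofNat (nat_lit 721585), .ofNat (nat_lit 671685), .ofNat (nat_lit 732657), .ofNat (nat_lit 659903), .ofNat (nat_lit 718982), .ofNat (nat_lit 671105), .ofNat (nat_lit 730185)⟩, ⟨.ofNat (nat_lit 0), .ofNat (nat_lit 139899), .ofNat (nat_lit 0), .ofNat (nat_lit 184209), .ofNat (nat_lit 0), .ofNat (nat_lit 143475), .ofNat (nat_lit 0), .ofNat (nat_lit 188310)⟩⟩, [⟨nat_lit 22, nat_lit 100, nat_lit 99, nat_lit 63, nat_lit 22686709⟩]⟩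
noncomputable def p120_l11 : Lf2 := ⟨nat_lit 0, nat_lit 20, [nat_lit 5, nat_lit 5, nat_lit 5, nat_lit 20], false, nat_lit 0, nat_lit 80, nat_lit 0, nat_lit 292, ⟨nat_lit 133, nat_lit 867, nat_lit 0, nat_lit 7, nat_lit 278, nat_lit 867, nat_lit 34, nat_lit 0, nat_lit 0, nat_lit 0, nat_lit 0, nat_lit 0, nat_lit 45205744, nat_lit 21794256, nat_lit 0, nat_lit 3153953, true, false⟩,
 nat_lit 0, nat_lit 0, nat_lit 1556, nat_lit 0, nat_lit 2968, nat_lit 1033, nat_lit 191, nat_lit 0, nat_lit 0, nat_lit 111, nat_lit 0, nat_lit 0, nat_lit 0, nat_lit 0, nat_lit 0, nat_lit 216750, nat_lit 0, nat_lit 0, [(nat_lit 25, [(nat_lit 0, nat_lit 867)])],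
 ⟨p120_k9, nat_lit 0, nat_lit 0, nat_lit 147, nat_lit 0, nat_lit 0, [nat_lit 787142001, nat_lit 1623255600, nat_lit 2667556000], [], [nat_lit 24234443534, nat_lit 24887094004, nat_lit 25705783796, nat_lit 26310515492, nat_lit 23411239888, nat_lit 23945846152, nat_lit 24684385288, nat_lit 25182341400], nat_lit 0, nat_lit 0, nat_lit 0, nat_lit 0, nat_lit 0, nat_lit 0, [], [nat_lit 20, nat_lit 40, nat_lit 40, nat_lit 80, nat_lit 16, nat_lit 226, nat_lit 20, nat_lit 7]⟩, ⟨p120_k8, nat_lit 0, nat_lit 0, nat_lit 738, nat_lit 0, nat_lit 1116671, [nat_lit 436506000, nat_lit 831250000, nat_lit 1578976000], [], [nat_lit 4033499786, nat_lit 4083692370, nat_lit 4162051294, nat_lit 4206617642, nat_lit 3583388566, nat_lit 3607306012, nat_lit 3637211037, nat_lit 3658136020], nat_lit 1271250, nat_lit 1271250, nat_lit 1271250, nat_lit 1271250, nat_lit 0, nat_lit 2062250, [nat_lit 780000, nat_lit 1435000, nat_lit 1271250], [nat_lit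 23, nat_lit 40, nat_lit 40, nat_lit 80, nat_lit 12, nat_lit 456, nat_lit 225, nat_lit 11]⟩,
 ⟨nat_lit 2236, nat_lit 2739, ⟨.ofNat (nat_lit 659883), .ofNat (nat_lit 718979), .ofNat (nat_lit 671081), .ofNat (nat_lit 730177), .ofNat (nat_lit 659443), .ofNat (nat_lit 716494), .ofNat (nat_lit 670819), .ofNat (nat_lit 727870)⟩, ⟨.ofNat (nat_lit 0), .ofNat (nat_lit 143475), .ofNat (nat_lit 0), .ofNat (nat_lit 188310), .ofNat (nat_lit 0), .ofNat (nat_lit 146758), .ofNat (nat_lit 0), .ofNat (nat_lit 192306)⟩⟩, [⟨nat_lit 22, nat_lit 100, nat_lit 99, nat_lit 63, nat_lit 22875672⟩]⟩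
noncomputable def p120_l12 : Lf2 := ⟨nat_lit 0, nat_lit 15, [nat_lit 30, nat_lit 5, nat_lit 5, nat_lit 20], false, nat_lit 0, nat_lit 80, nat_lit 0, nat_lit 276, ⟨nat_lit 133, nat_lit 867, nat_lit 0, nat_lit 7, nat_lit 300, nat_lit 867, nat_lit 31, nat_lit 0, nat_lit 0, nat_lit 0, nat_lit 0, nat_lit 0, nat_lit 42867857, nat_lit 24132143, nat_lit 0, nat_lit 3267611, true, true⟩,
 nat_lit 0, nat_lit 0, nat_lit 1659, nat_lit 0, nat_lit 2991, nat_lit 1055, nat_lit 0, nat_lit 0, nat_lit 0, nat_lit 84, nat_lit 0, nat_lit 0, nat_lit 0, nat_lit 0, nat_lit 0, nat_lit 346800, nat_lit 0, nat_lit 0, [(nat_lit 25, [(nat_lit 1, nat_lit 867)])],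
 ⟨p120_k10, nat_lit 0, nat_lit 0, nat_lit 151, nat_lit 0, nat_lit 0, [nat_lit 857195601, nat_lit 1305355600, nat_lit 1624728400], [], [nat_lit 25967947734, nat_lit 26497160622, nat_lit 27608294280, nat_lit 28164588631, nat_lit 25144307090, nat_lit 25643819934, nat_lit 26608825622, nat_lit 27071061803], nat_lit 0, nat_lit 0, nat_lit 0, nat_lit 0, nat_lit 0, nat_lit 0, [], [nat_lit 20, nat_lit 40, nat_lit 40, nat_lit 80, nat_lit 16, nat_lit 226, nat_lit 20, nat_lit 7]⟩, ⟨p120_k11, nat_lit 0, nat_lit 0, nat_lit 573, nat_lit 0, nat_lit 854691, [nat_lit 436506000, nat_lit 831250000, nat_lit 1308986000], [], [nat_lit 4491908016, nat_lit 4558704068, nat_lit 4625500120, nat_lit 4683351456, nat_lit 3852569013, nat_lit 3901363996, nat_lit 3950158980, nat_lit 3991806805], nat_lit 1271250, nat_lit 1271250, nat_lit 1271250, nat_lit 1271250, nat_lit 0, nat_lit 1949250, [nat_lit 780000, nat_lit 1435000, nat_lit 1271250], [nat_lit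 8, nat_lit 40, nat_lit 40, nat_lit 80, nat_lit 1, nat_lit 289, nat_lit 75, nat_lit 8]⟩,
 ⟨nat_lit 2738, nat_lit 3163, ⟨.ofNat (nat_lit 710514), .ofNat (nat_lit 771478), .ofNat (nat_lit 732657), .ofNat (nat_lit 793629), .ofNat (nat_lit 707780), .ofNat (nat_lit 766852), .ofNat (nat_lit 730185), .ofNat (nat_lit 789265)⟩, ⟨.ofNat (nat_lit 0), .ofNat (nat_lit 139899), .ofNat (nat_lit 0), .ofNat (nat_lit 162054), .ofNat (nat_lit 0), .ofNat (nat_lit 143475), .ofNat (nat_lit 0), .ofNat (nat_lit 165893)⟩⟩, [⟨nat_lit 22, nat_lit 87, nat_lit 100, nat_lit 60, nat_lit 20473664⟩]⟩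
noncomputable def p120_l13 : Lf2 := ⟨nat_lit 0, nat_lit 15, [nat_lit 30, nat_lit 5, nat_lit 5, nat_lit 20], false, nat_lit 0, nat_lit 80, nat_lit 0, nat_lit 276, ⟨nat_lit 100, nat_lit 900, nat_lit 0, nat_lit 7, nat_lit 299, nat_lit 900, nat_lit 31, nat_lit 0, nat_lit 0, nat_lit 0, nat_lit 0, nat_lit 0, nat_lit 43013279, nat_lit 23986721, nat_lit 0, nat_lit 3261324, true, true⟩,
 nat_lit 0, nat_lit 0, nat_lit 1268, nat_lit 0, nat_lit 3040, nat_lit 806, nat_lit 0, nat_lit 0, nat_lit 0, nat_lit 58, nat_lit 0, nat_lit 0, nat_lit 0, nat_lit 0, nat_lit 0, nat_lit 225000, nat_lit 0, nat_lit 0, [(nat_lit 25, [(nat_lit 0, nat_lit 900)])],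
 ⟨p120_k12, nat_lit 0, nat_lit 0, nat_lit 139, nat_lit 0, nat_lit 0, [nat_lit 781400001, nat_lit 1560120000, nat_lit 2012840000], [], [nat_lit 26342034920, nat_lit 26931651920, nat_lit 27991856600, nat_lit 28533593520, nat_lit 25306555282, nat_lit 25838430882, nat_lit 26823873602, nat_lit 27315108162], nat_lit 0, nat_lit 0, nat_lit 0, nat_lit 0, nat_lit 0, nat_lit 0, [], [nat_lit 35, nat_lit 40, nat_lit 40, nat_lit 80, nat_lit 22, nat_lit 226, nat_lit 20, nat_lit 9]⟩, ⟨p120_k11, nat_lit 0, nat_lit 0, nat_lit 627, nat_lit 0, nat_lit 1003290, [nat_lit 328200000, nat_lit 625000000, nat_lit 984200000], [], [nat_lit 3485310492, nat_lit 3521557736, nat_lit 3557804980, nat_lit 3588647152, nat_lit 2970388490, nat_lit 2995487817, nat_lit 3020587144, nat_lit 3041318892], nat_lit 1271250, nat_lit 1271250, nat_lit 1271250, nat_lit 1271250, nat_lit 0, nat_lit 1949250, [nat_lit 780000, nat_lit 1435000, nat_lit 1271250], [nat_lit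 8, nat_lit 40, nat_lit 40, nat_lit 80, nat_lit 1, nat_lit 289, nat_lit 75, nat_lit 8]⟩,
 ⟨nat_lit 2236, nat_lit 2739, ⟨.ofNat (nat_lit 707780), .ofNat (nat_lit 766852), .ofNat (nat_lit 730177), .ofNat (nat_lit 789269), .ofNat (nat_lit 705116), .ofNat (nat_lit 762142), .ofNat (nat_lit 727870), .ofNat (nat_lit 784917)⟩, ⟨.ofNat (nat_lit 0), .ofNat (nat_lit 143475), .ofNat (nat_lit 0), .ofNat (nat_lit 165893), .ofNat (nat_lit 0), .ofNat (nat_lit 146758), .ofNat (nat_lit 0), .ofNat (nat_lit 169532)⟩⟩, [⟨nat_lit 22, nat_lit 91, nat_lit 100, nat_lit 22, nat_lit 30916410⟩, ⟨nat_lit 22, nat_lit 87, nat_lit 100, nat_lit 60, nat_lit 2452372⟩]⟩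
noncomputable def p120_l14 : Lf2 := ⟨nat_lit 0, nat_lit 20, [nat_lit 5, nat_lit 5, nat_lit 5, nat_lit 20], false, nat_lit 0, nat_lit 80, nat_lit 0, nat_lit 160, ⟨nat_lit 697, nat_lit 303, nat_lit 0, nat_lit 7, nat_lit 297, nat_lit 303, nat_lit 35, nat_lit 0, nat_lit 0, nat_lit 0, nat_lit 0, nat_lit 0, nat_lit 43172718, nat_lit 23827282, nat_lit 0, nat_lit 3254314, true, true⟩,
 nat_lit 0, nat_lit 0, nat_lit 8200, nat_lit 0, nat_lit 3703, nat_lit 5218, nat_lit 0, nat_lit 0, nat_lit 0, nat_lit 558, nat_lit 0, nat_lit 0, nat_lit 0, nat_lit 0, nat_lit 0, nat_lit 303000, nat_lit 0, nat_lit 0, [(nat_lit 25, [(nat_lit 2, nat_lit 303)])],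
 ⟨p120_k3, nat_lit 0, nat_lit 0, nat_lit 154, nat_lit 0, nat_lit 0, [nat_lit 1098711201, nat_lit 2172131201, nat_lit 3174913600], [], [nat_lit 28037029465, nat_lit 29252619311, nat_lit 29759891640, nat_lit 30982072806, nat_lit 26637079507, nat_lit 27732487211, nat_lit 28199179063, nat_lit 29207797009], nat_lit 0, nat_lit 0, nat_lit 0, nat_lit 0, nat_lit 0, nat_lit 0, [], [nat_lit 20, nat_lit 40, nat_lit 40, nat_lit 80, nat_lit 16, nat_lit 226, nat_lit 20, nat_lit 7]⟩, ⟨p120_k7, nat_lit 0, nat_lit 0, nat_lit 635, nat_lit 0, nat_lit 849457, [nat_lit 2287554000, nat_lit 4356250000, nat_lit 8274784000], [], [nat_lit 23694879662, nat_lit 23884021885, nat_lit 24451448554, nat_lit 24616825490, nat_lit 20461345686, nat_lit 20614480749, nat_lit 21159815708, nat_lit 21350306544], nat_lit 1271250, nat_lit 1271250, nat_lit 1271250, nat_lit 1271250, nat_lit 0, nat_lit 1100001, [nat_lit 780000, nat_lit 1435000, nat_lit 1271250],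 [nat_lit 23, nat_lit 40, nat_lit 40, nat_lit 80, nat_lit 12, nat_lit 428, nat_lit 200, nat_lit 10]⟩,
 ⟨nat_lit 2236, nat_lit 3163, ⟨.ofNat (nat_lit 710480), .ofNat (nat_lit 771478), .ofNat (nat_lit 721526), .ofNat (nat_lit 782556), .ofNat (nat_lit 705082), .ofNat (nat_lit 762142), .ofNat (nat_lit 716437), .ofNat (nat_lit 773529)⟩, ⟨.ofNat (nat_lit 0), .ofNat (nat_lit 162054), .ofNat (nat_lit 0), .ofNat (nat_lit 184209), .ofNat (nat_lit 0), .ofNat (nat_lit 169532), .ofNat (nat_lit 0), .ofNat (nat_lit 192306)⟩⟩, []⟩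
noncomputable def p120_l15 : Lf2 := ⟨nat_lit 0, nat_lit 20, [nat_lit 5, nat_lit 5, nat_lit 5, nat_lit 20], false, nat_lit 4, nat_lit 80, nat_lit 160, nat_lit 300, ⟨nat_lit 277, nat_lit 723, nat_lit 0, nat_lit 7, nat_lit 297, nat_lit 723, nat_lit 37, nat_lit 0, nat_lit 0, nat_lit 0, nat_lit 0, nat_lit 0, nat_lit 42474174, nat_lit 23577702, nat_lit 948124, nat_lit 3673074, true, true⟩,
 nat_lit 0, nat_lit 0, nat_lit 2811, nat_lit 0, nat_lit 3365, nat_lit 1788, nat_lit 0, nat_lit 0, nat_lit 0, nat_lit 221, nat_lit 0, nat_lit 0, nat_lit 0, nat_lit 0, nat_lit 0, nat_lit 297600, nat_lit 0, nat_lit 0, [(nat_lit 25, [(nat_lit 1, nat_lit 709), (nat_lit 2, nat_lit 14)])],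
 ⟨p120_k3, nat_lit 0, nat_lit 0, nat_lit 152, nat_lit 0, nat_lit 0, [nat_lit 879346801, nat_lit 1614293467, nat_lit 2325543600], [], [nat_lit 26744637446, nat_lit 28021249957, nat_lit 28535488154, nat_lit 29702805815, nat_lit 25459176989, nat_lit 26508830309, nat_lit 26982991687, nat_lit 27995500397], nat_lit 0, nat_lit 0, nat_lit 0, nat_lit 0, nat_lit 0, nat_lit 0, [], [nat_lit 20, nat_lit 40, nat_lit 40, nat_lit 80, nat_lit 16, nat_lit 226, nat_lit 20, nat_lit 7]⟩, ⟨p120_k7, nat_lit 0, nat_lit 0, nat_lit 511, nat_lit 0, nat_lit 849457, [nat_lit 909114000, nat_lit 1731250000, nat_lit 3288544000], [], [nat_lit 8529359898, nat_lit 8586326119, nat_lit 8818995847, nat_lit 8889069120, nat_lit 8975276867, nat_lit 9035343565, nat_lit 9264241841, nat_lit 9332913132], nat_lit 1271250, nat_lit 1271250, nat_lit 1271250, nat_lit 1271250, nat_lit 1100001, nat_lit 2298750, [nat_lit 780000, nat_lit 1435000, nat_lit 1271250],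 [nat_lit 23, nat_lit 40, nat_lit 40, nat_lit 80, nat_lit 12, nat_lit 483, nat_lit 250, nat_lit 11]⟩,
 ⟨nat_lit 2236, nat_lit 3163, ⟨.ofNat (nat_lit 710480), .ofNat (nat_lit 771478), .ofNat (nat_lit 721526), .ofNat (nat_lit 782556), .ofNat (nat_lit 705082), .ofNat (nat_lit 762142), .ofNat (nat_lit 716437), .ofNat (nat_lit 773529)⟩, ⟨.ofNat (nat_lit 10000), .ofNat (nat_lit 162054), .ofNat (nat_lit 10000), .ofNat (nat_lit 184209), .ofNat (nat_lit 10000), .ofNat (nat_lit 169532), .ofNat (nat_lit 10000), .ofNat (nat_lit 192306)⟩⟩, [⟨nat_lit 10, nat_lit 100, nat_lit 88, nat_lit 62, nat_lit 141100486⟩]⟩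
noncomputable def p120_l16 : Lf2 := ⟨nat_lit 0, nat_lit 20, [nat_lit 5, nat_lit 5, nat_lit 5, nat_lit 20], false, nat_lit 0, nat_lit 40, nat_lit 0, nat_lit 248, ⟨nat_lit 422, nat_lit 578, nat_lit 0, nat_lit 7, nat_lit 302, nat_lit 578, nat_lit 20, nat_lit 0, nat_lit 0, nat_lit 0, nat_lit 0, nat_lit 0, nat_lit 42710746, nat_lit 24289254, nat_lit 0, nat_lit 3274288, true, true⟩,
 nat_lit 0, nat_lit 0, nat_lit 4548, nat_lit 0, nat_lit 3467, nat_lit 3020, nat_lit 0, nat_lit 0, nat_lit 0, nat_lit 325, nat_lit 0, nat_lit 0, nat_lit 0, nat_lit 0, nat_lit 0, nat_lit 336800, nat_lit 0, nat_lit 0, [(nat_lit 25, [(nat_lit 1, nat_lit 402), (nat_lit 2, nat_lit 176)])],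
 ⟨p120_k3, nat_lit 0, nat_lit 0, nat_lit 154, nat_lit 0, nat_lit 0, [nat_lit 993884001, nat_lit 1720817334, nat_lit 2319221600], [], [nat_lit 26891990000, nat_lit 28189972998, nat_lit 28704855160, nat_lit 29890710734, nat_lit 26159442706, nat_lit 27255404390, nat_lit 27765494692, nat_lit 28922471164], nat_lit 0, nat_lit 0, nat_lit 0, nat_lit 0, nat_lit 0, nat_lit 0, [], [nat_lit 20, nat_lit 40, nat_lit 40, nat_lit 80, nat_lit 16, nat_lit 215, nat_lit 10, nat_lit 7]⟩, ⟨p120_k8, nat_lit 0, nat_lit 0, nat_lit 642, nat_lit 0, nat_lit 861626, [nat_lit 1385004000, nat_lit 2637500000, nat_lit 5009984000], [], [nat_lit 13933535210, nat_lit 14071661986, nat_lit 14468544566, nat_lit 14589173594, nat_lit 12077968206, nat_lit 12151813937, nat_lit 12451414080, nat_lit 12544132234], nat_lit 1271250, nat_lit 1271250, nat_lit 1271250, nat_lit 1271250, nat_lit 0, nat_lit 1751500, [nat_lit 780000, nat_lit 1435000, nat_lit 1271250],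 [nat_lit 23, nat_lit 40, nat_lit 40, nat_lit 80, nat_lit 12, nat_lit 456, nat_lit 225, nat_lit 11]⟩,
 ⟨nat_lit 2236, nat_lit 3163, ⟨.ofNat (nat_lit 721526), .ofNat (nat_lit 782556), .ofNat (nat_lit 732571), .ofNat (nat_lit 793619), .ofNat (nat_lit 716437), .ofNat (nat_lit 773529), .ofNat (nat_lit 727793), .ofNat (nat_lit 784902)⟩, ⟨.ofNat (nat_lit 0), .ofNat (nat_lit 100000), .ofNat (nat_lit 0), .ofNat (nat_lit 100000), .ofNat (nat_lit 0), .ofNat (nat_lit 100000), .ofNat (nat_lit 0), .ofNat (nat_lit 100000)⟩⟩, [⟨nat_lit 22, nat_lit 87, nat_lit 100, nat_lit 44, nat_lit 77509823⟩]⟩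
noncomputable def p120_l17 : Lf2 := ⟨nat_lit 0, nat_lit 20, [nat_lit 5, nat_lit 5, nat_lit 5, nat_lit 20], false, nat_lit 40, nat_lit 80, nat_lit 0, nat_lit 292, ⟨nat_lit 169, nat_lit 831, nat_lit 0, nat_lit 7, nat_lit 302, nat_lit 831, nat_lit 55, nat_lit 0, nat_lit 0, nat_lit 0, nat_lit 0, nat_lit 0, nat_lit 41488648, nat_lit 23820509, nat_lit 1690843, nat_lit 3922513, true, true⟩,
 nat_lit 0, nat_lit 0, nat_lit 1725, nat_lit 0, nat_lit 2940, nat_lit 1145, nat_lit 0, nat_lit 0, nat_lit 0, nat_lit 121, nat_lit 0, nat_lit 0, nat_lit 0, nat_lit 0, nat_lit 0, nat_lit 430200, nat_lit 0, nat_lit 0, [(nat_lit 25, [(nat_lit 1, nat_lit 668), (nat_lit 2, nat_lit 163)])],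
 ⟨p120_k3, nat_lit 0, nat_lit 0, nat_lit 132, nat_lit 0, nat_lit 0, [nat_lit 962197601, nat_lit 1161990934, nat_lit 1032099200], [], [nat_lit 24851249095, nat_lit 25896239615, nat_lit 26374342935, nat_lit 27340141442, nat_lit 24399173655, nat_lit 25414761575, nat_lit 25885242615, nat_lit 26824308495], nat_lit 0, nat_lit 0, nat_lit 0, nat_lit 0, nat_lit 0, nat_lit 0, [], [nat_lit 20, nat_lit 40, nat_lit 40, nat_lit 80, nat_lit 16, nat_lit 226, nat_lit 20, nat_lit 7]⟩, ⟨p120_k8, nat_lit 0, nat_lit 0, nat_lit 642, nat_lit 0, nat_lit 861626, [nat_lit 554658000, nat_lit 1056250000, nat_lit 2006368000], [], [nat_lit 5858258019, nat_lit 5900377998, nat_lit 6027377765, nat_lit 6069633908, nat_lit 5316628182, nat_lit 5342384118, nat_lit 5416064824, nat_lit 5438233660], nat_lit 1271250, nat_lit 1271250, nat_lit 1271250, nat_lit 1271250, nat_lit 0, nat_lit 2062250, [nat_lit 780000, nat_lit 1435000, nat_lit 1271250], [nat_lit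 23, nat_lit 40, nat_lit 40, nat_lit 80, nat_lit 12, nat_lit 483, nat_lit 250, nat_lit 12]⟩,
 ⟨nat_lit 2236, nat_lit 3163, ⟨.ofNat (nat_lit 721526), .ofNat (nat_lit 782556), .ofNat (nat_lit 732571), .ofNat (nat_lit 793619), .ofNat (nat_lit 716437), .ofNat (nat_lit 773529), .ofNat (nat_lit 727793), .ofNat (nat_lit 784902)⟩, ⟨.ofNat (nat_lit 100000), .ofNat (nat_lit 162054), .ofNat (nat_lit 100000), .ofNat (nat_lit 184209), .ofNat (nat_lit 100000), .ofNat (nat_lit 169532), .ofNat (nat_lit 100000), .ofNat (nat_lit 192306)⟩⟩, [⟨nat_lit 22, nat_lit 90, nat_lit 100, nat_lit 74, nat_lit 29181968⟩]⟩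
noncomputable def p120_l18 : Lf2 := ⟨nat_lit 0, nat_lit 15, [nat_lit 30, nat_lit 5, nat_lit 5, nat_lit 20], false, nat_lit 0, nat_lit 80, nat_lit 0, nat_lit 256, ⟨nat_lit 1000, nat_lit 0, nat_lit 0, nat_lit 0, nat_lit 0, nat_lit 0, nat_lit 0, nat_lit 0, nat_lit 0, nat_lit 0, nat_lit 0, nat_lit 0, nat_lit 0, nat_lit 0, nat_lit 0, nat_lit 0, false, false⟩,
 nat_lit 0, nat_lit 0, nat_lit 9895, nat_lit 0, nat_lit 4917, nat_lit 6850, nat_lit 0, nat_lit 0, nat_lit 0, nat_lit 833, nat_lit 0, nat_lit 0, nat_lit 0, nat_lit 0, nat_lit 0, nat_lit 0, nat_lit 0, nat_lit 0, [],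
 ⟨p120_k10, nat_lit 0, nat_lit 0, nat_lit 151, nat_lit 0, nat_lit 0, [nat_lit 938000000, nat_lit 3282000000, nat_lit 6250000000], [], [nat_lit 30106356376, nat_lit 30870947446, nat_lit 33860419560, nat_lit 34564940797, nat_lit 27655434052, nat_lit 28374365681, nat_lit 31005443196, nat_lit 31609049855], nat_lit 0, nat_lit 0, nat_lit 0, nat_lit 0, nat_lit 0, nat_lit 0, [], [nat_lit 20, nat_lit 40, nat_lit 40, nat_lit 80, nat_lit 16, nat_lit 226, nat_lit 20, nat_lit 8]⟩, ⟨p120_k13, nat_lit 0, nat_lit 0, nat_lit 592, nat_lit 0, nat_lit 896772, [nat_lit 3282000000, nat_lit 6250000000, nat_lit 9842000000], [], [nat_lit 28615062875, nat_lit 29284246275, nat_lit 30950497450, nat_lit 32214324600, nat_lit 26150211141, nat_lit 26559524020, nat_lit 27637645960, nat_lit 28065420940], nat_lit 1271250, nat_lit 1271250, nat_lit 1271250, nat_lit 1271250, nat_lit 0, nat_lit 1808000, [nat_lit 780000, nat_lit 1435000, nat_lit 1271250],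 [nat_lit 8, nat_lit 40, nat_lit 40, nat_lit 80, nat_lit 1, nat_lit 373, nat_lit 150, nat_lit 10]⟩,
 zbF0, [⟨nat_lit 7, nat_lit 100, nat_lit 84, nat_lit 67, nat_lit 204699055⟩, ⟨nat_lit 22, nat_lit 98, nat_lit 100, nat_lit 5, nat_lit 29645295⟩]⟩
noncomputable def p120_l19 : Lf2 := ⟨nat_lit 0, nat_lit 15, [nat_lit 30, nat_lit 5, nat_lit 5, nat_lit 20], false, nat_lit 0, nat_lit 80, nat_lit 0, nat_lit 256, ⟨nat_lit 405, nat_lit 595, nat_lit 0, nat_lit 7, nat_lit 296, nat_lit 595, nat_lit 31, nat_lit 0, nat_lit 0, nat_lit 0, nat_lit 0, nat_lit 0, nat_lit 43279986, nat_lit 23720014, nat_lit 0, nat_lit 3249528, true, false⟩,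
 nat_lit 0, nat_lit 0, nat_lit 3905, nat_lit 0, nat_lit 3563, nat_lit 2703, nat_lit 0, nat_lit 0, nat_lit 0, nat_lit 384, nat_lit 0, nat_lit 0, nat_lit 0, nat_lit 0, nat_lit 0, nat_lit 148750, nat_lit 0, nat_lit 0, [(nat_lit 25, [(nat_lit 0, nat_lit 595)])],
 ⟨p120_k12, nat_lit 0, nat_lit 0, nat_lit 139, nat_lit 0, nat_lit 0, [nat_lit 834470001, nat_lit 2143646001, nat_lit 2919422000], [], [nat_lit 26167543524, nat_lit 26854739087, nat_lit 29428273421, nat_lit 30009530922, nat_lit 24697446281, nat_lit 25344783177, nat_lit 27813133073, nat_lit 28362725229], nat_lit 0, nat_lit 0, nat_lit 0, nat_lit 0, nat_lit 0, nat_lit 0, [], [nat_lit 35, nat_lit 40, nat_lit 40, nat_lit 80, nat_lit 22, nat_lit 226, nat_lit 20, nat_lit 9]⟩, ⟨p120_k13, nat_lit 0, nat_lit 0, nat_lit 638, nat_lit 0, nat_lit 1021411, [nat_lit 1329210000, nat_lit 2531250000, nat_lit 3986010000], [], [nat_lit 12013897518, nat_lit 12231254376, nat_lit 12681485274,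 nat_lit 12902460648, nat_lit 10975986680, nat_lit 11116802396, nat_lit 11379005635, nat_lit 11490356804], nat_lit 1271250, nat_lit 1271250, nat_lit 1271250, nat_lit 1271250, nat_lit 0, nat_lit 1808000, [nat_lit 780000, nat_lit 1435000, nat_lit 1271250], [nat_lit 8, nat_lit 40, nat_lit 40, nat_lit 80, nat_lit 1, nat_lit 373, nat_lit 150, nat_lit 10]⟩,
 ⟨nat_lit 2236, nat_lit 2739, ⟨.ofNat (nat_lit 671081), .ofNat (nat_lit 789269), .ofNat (nat_lit 693478), .ofNat (nat_lit 811671), .ofNat (nat_lit 670819), .ofNat (nat_lit 784917), .ofNat (nat_lit 693574), .ofNat (nat_lit 807675)⟩, ⟨.ofNat (nat_lit 0), .ofNat (nat_lit 143475), .ofNat (nat_lit 0), .ofNat (nat_lit 165893), .ofNat (nat_lit 0), .ofNat (nat_lit 146758), .ofNat (nat_lit 0), .ofNat (nat_lit 169532)⟩⟩, [⟨nat_lit 7, nat_lit 100, nat_lit 84, nat_lit 67, nat_lit 51216160⟩, ⟨nat_lit 22, nat_lit 94, nat_lit 100, nat_lit 62, nat_lit 22202303⟩]⟩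
noncomputable def p120_l20 : Lf2 := ⟨nat_lit 0, nat_lit 20, [nat_lit 5, nat_lit 5, nat_lit 5, nat_lit 20], false, nat_lit 0, nat_lit 80, nat_lit 0, nat_lit 280, ⟨nat_lit 417, nat_lit 583, nat_lit 0, nat_lit 7, nat_lit 294, nat_lit 583, nat_lit 35, nat_lit 0, nat_lit 0, nat_lit 0, nat_lit 0, nat_lit 0, nat_lit 43467777, nat_lit 23532223, nat_lit 0, nat_lit 3241014, true, false⟩,
 nat_lit 0, nat_lit 0, nat_lit 4105, nat_lit 0, nat_lit 3692, nat_lit 2841, nat_lit 0, nat_lit 0, nat_lit 0, nat_lit 326, nat_lit 0, nat_lit 0, nat_lit 0, nat_lit 0, nat_lit 0, nat_lit 339400, nat_lit 0, nat_lit 0, [(nat_lit 25, [(nat_lit 1, nat_lit 406), (nat_lit 2, nat_lit 177)])],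
 ⟨p120_k3, nat_lit 0, nat_lit 0, nat_lit 154, nat_lit 0, nat_lit 0, [nat_lit 994041600, nat_lit 1708034934, nat_lit 2287733600], [], [nat_lit 25397030496, nat_lit 26850787576, nat_lit 28863420160, nat_lit 30111820976, nat_lit 23719076102, nat_lit 24898550934, nat_lit 26790387424, nat_lit 27950909544], nat_lit 0, nat_lit 0, nat_lit 0, nat_lit 0, nat_lit 0, nat_lit 0, [], [nat_lit 20, nat_lit 40, nat_lit 40, nat_lit 80, nat_lit 16, nat_lit 226, nat_lit 20, nat_lit 8]⟩, ⟨p120_k4, nat_lit 0, nat_lit 0, nat_lit 584, nat_lit 0, nat_lit 875110, [nat_lit 1368594000, nat_lit 2606250000, nat_lit 4104114000], [], [nat_lit 12344881508, nat_lit 12458974976, nat_lit 13144903472, nat_lit 13306238761, nat_lit 11308437042, nat_lit 11391754721, nat_lit 11911273152, nat_lit 11994301326], nat_lit 1271250, nat_lit 1271250, nat_lit 1271250, nat_lit 1271250, nat_lit 0, nat_lit 1977500, [nat_lit 780000, nat_lit 1435000, nat_lit 1271250],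 [nat_lit 8, nat_lit 40, nat_lit 40, nat_lit 80, nat_lit 1, nat_lit 373, nat_lit 150, nat_lit 10]⟩,
 ⟨nat_lit 2236, nat_lit 3163, ⟨.ofNat (nat_lit 671514), .ofNat (nat_lit 793619), .ofNat (nat_lit 682560), .ofNat (nat_lit 804673), .ofNat (nat_lit 670673), .ofNat (nat_lit 784902), .ofNat (nat_lit 682029), .ofNat (nat_lit 796267)⟩, ⟨.ofNat (nat_lit 0), .ofNat (nat_lit 162054), .ofNat (nat_lit 0), .ofNat (nat_lit 184209), .ofNat (nat_lit 0), .ofNat (nat_lit 169532), .ofNat (nat_lit 0), .ofNat (nat_lit 192306)⟩⟩, [⟨nat_lit 7, nat_lit 100, nat_lit 89, nat_lit 80, nat_lit 21113380⟩, ⟨nat_lit 22, nat_lit 94, nat_lit 100, nat_lit 62, nat_lit 60210226⟩]⟩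
noncomputable def p120_l21 : Lf2 := ⟨nat_lit 0, nat_lit 20, [nat_lit 5, nat_lit 5, nat_lit 5, nat_lit 20], false, nat_lit 0, nat_lit 80, nat_lit 0, nat_lit 268, ⟨nat_lit 1000, nat_lit 0, nat_lit 0, nat_lit 0, nat_lit 0, nat_lit 0, nat_lit 0, nat_lit 0, nat_lit 0, nat_lit 0, nat_lit 0, nat_lit 0, nat_lit 0, nat_lit 0, nat_lit 0, nat_lit 0, false, false⟩,
 nat_lit 0, nat_lit 0, nat_lit 8723, nat_lit 0, nat_lit 4838, nat_lit 6288, nat_lit 0, nat_lit 0, nat_lit 0, nat_lit 988, nat_lit 0, nat_lit 0, nat_lit 0, nat_lit 0, nat_lit 0, nat_lit 0, nat_lit 0, nat_lit 0, [],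
 ⟨p120_k3, nat_lit 0, nat_lit 0, nat_lit 154, nat_lit 0, nat_lit 0, [nat_lit 938000000, nat_lit 3282000000, nat_lit 6250000000], [], [nat_lit 30146873264, nat_lit 31662197224, nat_lit 33793689840, nat_lit 35190572476, nat_lit 27754724728, nat_lit 29179768340, nat_lit 31085344744, nat_lit 32282647196], nat_lit 0, nat_lit 0, nat_lit 0, nat_lit 0, nat_lit 0, nat_lit 0, [], [nat_lit 20, nat_lit 40, nat_lit 40, nat_lit 80, nat_lit 16, nat_lit 226, nat_lit 20, nat_lit 8]⟩, ⟨p120_k6, nat_lit 0, nat_lit 0, nat_lit 589, nat_lit 0, nat_lit 889454, [nat_lit 3282000000, nat_lit 6250000000, nat_lit 9842000000], [], [nat_lit 26418853736, nat_lit 26724077584, nat_lit 30233947344, nat_lit 31075804768, nat_lit 24682213236, nat_lit 24880048833, nat_lit 27612391725, nat_lit 28179921447], nat_lit 1271250, nat_lit 1271250, nat_lit 1271250, nat_lit 1271250, nat_lit 0, nat_lit 1892750, [nat_lit 780000, nat_lit 1435000, nat_lit 1271250],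 [nat_lit 8, nat_lit 40, nat_lit 40, nat_lit 80, nat_lit 1, nat_lit 373, nat_lit 150, nat_lit 10]⟩,
 zbF0, [⟨nat_lit 7, nat_lit 100, nat_lit 84, nat_lit 78, nat_lit 154618258⟩, ⟨nat_lit 22, nat_lit 94, nat_lit 100, nat_lit 62, nat_lit 29969315⟩]⟩
noncomputable def b_V_900_700_10_14 : St := ⟨true, nat_lit 0, nat_lit 1, nat_lit 1, nat_lit 80, nat_lit 360, nat_lit 380, nat_lit 280, nat_lit 320, nat_lit 240, nat_lit 320, nat_lit 40, nat_lit 80, nat_lit 0, nat_lit 80, nat_lit 0, nat_lit 300, nat_lit 80, nat_lit 120, nat_lit 0, nat_lit 0, nat_lit 0, nat_lit 0⟩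
theorem d_V_900_700_10_14 (h : EB TB.env) : Dead b_V_900_700_10_14 := chkB_sound0 h (T :=
(.spl (nat_lit 1) (nat_lit 300)
(.spl (nat_lit 2) (nat_lit 280)
(.spl (nat_lit 1) (nat_lit 290)
(.leaf p120_l9)
(.trX (nat_lit 19) (nat_lit 100) (nat_lit 100) (nat_lit 89) (nat_lit 292) (.spl (nat_lit 0) (nat_lit 370)
(.leaf p120_l10)
(.leaf p120_l11))))
(.spl (nat_lit 3) (nat_lit 60)
(.trX (nat_lit 19) (nat_lit 99) (nat_lit 100) (nat_lit 77) (nat_lit 276) (.spl (nat_lit 0) (nat_lit 370)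
(.leaf p120_l12)
(.leaf p120_l13)))
(.spl (nat_lit 1) (nat_lit 290)
(.spl (nat_lit 5) (nat_lit 160)
(.leaf p120_l14)
(.trZ (nat_lit 22) (nat_lit 94) (nat_lit 100) (nat_lit 21) (nat_lit 4) (.leaf p120_l15)))
(.trX (nat_lit 19) (nat_lit 100) (nat_lit 100) (nat_lit 89) (nat_lit 292) (.spl (nat_lit 4) (nat_lit 40)
(.trX (nat_lit 22) (nat_lit 94) (nat_lit 100) (nat_lit 62) (nat_lit 248) (.leaf p120_l16))
(.leaf p120_l17))))))
(.trX (nat_lit 19) (nat_lit 94) (nat_lit 100) (nat_lit 87) (nat_lit 280) (.spl (nat_lit 3) (nat_lit 60)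
(.trX (nat_lit 19) (nat_lit 90) (nat_lit 100) (nat_lit 74) (nat_lit 256) (.spl (nat_lit 0) (nat_lit 370)
(.leaf p120_l18)
(.leaf p120_l19)))
(.spl (nat_lit 1) (nat_lit 310)
(.leaf p120_l20)
(.trX (nat_lit 19) (nat_lit 89) (nat_lit 100) (nat_lit 85) (nat_lit 268) (.leaf p120_l21))))))) (by decide +kernel)
noncomputable def p120_l22 : Lf2 := ⟨nat_lit 0, nat_lit 20, [nat_lit 5, nat_lit 5, nat_lit 5, nat_lit 20], false, nat_lit 0, nat_lit 80, nat_lit 0, nat_lit 300, ⟨nat_lit 101, nat_lit 899, nat_lit 0, nat_lit 7, nat_lit 275, nat_lit 899, nat_lit 34, nat_lit 0, nat_lit 0, nat_lit 0, nat_lit 0, nat_lit 0, nat_lit 45501846, nat_lit 21498154, nat_lit 0, nat_lit 3137609, true, false⟩,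
 nat_lit 0, nat_lit 0, nat_lit 1316, nat_lit 0, nat_lit 2482, nat_lit 837, nat_lit 47, nat_lit 0, nat_lit 0, nat_lit 66, nat_lit 0, nat_lit 0, nat_lit 0, nat_lit 0, nat_lit 0, nat_lit 359600, nat_lit 0, nat_lit 0, [(nat_lit 28, [(nat_lit 1, nat_lit 899)])],
 ⟨p120_k5, nat_lit 0, nat_lit 0, nat_lit 151, nat_lit 0, nat_lit 0, [nat_lit 721880401, nat_lit 623477201, nat_lit 755312000], [], [nat_lit 23894838471, nat_lit 24500420561, nat_lit 25268680183, nat_lit 25830923008, nat_lit 23325071953, nat_lit 23857615152, nat_lit 24598686290, nat_lit 25099293864], nat_lit 0, nat_lit 0, nat_lit 0, nat_lit 0, nat_lit 0, nat_lit 0, [], [nat_lit 20, nat_lit 40, nat_lit 40, nat_lit 80, nat_lit 16, nat_lit 226, nat_lit 20, nat_lit 7]⟩, ⟨p120_k7, nat_lit 0, nat_lit 0, nat_lit 857, nat_lit 0, nat_lit 1346795, [nat_lit 331482000, nat_lit 631250000, nat_lit 1199072000], [], [nat_lit 3467478148, nat_lit 3541941928, nat_lit 3566412952,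 nat_lit 3635437680, nat_lit 2970176819, nat_lit 2993673196, nat_lit 2990414060, nat_lit 3010117175], nat_lit 1271250, nat_lit 1271250, nat_lit 1271250, nat_lit 1271250, nat_lit 0, nat_lit 2118750, [nat_lit 780000, nat_lit 1435000, nat_lit 1271250], [nat_lit 23, nat_lit 40, nat_lit 40, nat_lit 80, nat_lit 12, nat_lit 456, nat_lit 225, nat_lit 11]⟩,
 ⟨nat_lit 1581, nat_lit 2237, ⟨.ofNat (nat_lit 648016), .ofNat (nat_lit 705117), .ofNat (nat_lit 670745), .ofNat (nat_lit 727846), .ofNat (nat_lit 647799), .ofNat (nat_lit 702521), .ofNat (nat_lit 671069), .ofNat (nat_lit 725790)⟩, ⟨.ofNat (nat_lit 0), .ofNat (nat_lit 146758), .ofNat (nat_lit 0), .ofNat (nat_lit 192306), .ofNat (nat_lit 0), .ofNat (nat_lit 149571), .ofNat (nat_lit 0), .ofNat (nat_lit 196201)⟩⟩, [⟨nat_lit 22, nat_lit 100, nat_lit 99, nat_lit 63, nat_lit 12245370⟩]⟩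
noncomputable def p120_l23 : Lf2 := ⟨nat_lit 0, nat_lit 20, [nat_lit 5, nat_lit 5, nat_lit 5, nat_lit 20], false, nat_lit 8, nat_lit 80, nat_lit 0, nat_lit 300, ⟨nat_lit 82, nat_lit 918, nat_lit 0, nat_lit 7, nat_lit 274, nat_lit 918, nat_lit 39, nat_lit 0, nat_lit 0, nat_lit 0, nat_lit 0, nat_lit 0, nat_lit 44733692, nat_lit 21236699, nat_lit 1029609, nat_lit 3584105, true, false⟩,
 nat_lit 0, nat_lit 0, nat_lit 1083, nat_lit 0, nat_lit 2446, nat_lit 689, nat_lit 87, nat_lit 0, nat_lit 0, nat_lit 52, nat_lit 0, nat_lit 0, nat_lit 0, nat_lit 0, nat_lit 0, nat_lit 229500, nat_lit 0, nat_lit 0, [(nat_lit 28, [(nat_lit 0, nat_lit 918)])],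
 ⟨p120_k14, nat_lit 0, nat_lit 0, nat_lit 136, nat_lit 0, nat_lit 0, [nat_lit 794424801, nat_lit 1229352001, nat_lit 1647951200], [], [nat_lit 24466060769, nat_lit 25017290385, nat_lit 25740520519, nat_lit 26268925248, nat_lit 24045049738, nat_lit 24567680416, nat_lit 25271611830, nat_lit 25759463120], nat_lit 0, nat_lit 0, nat_lit 0, nat_lit 0, nat_lit 0, nat_lit 0, [], [nat_lit 35, nat_lit 40, nat_lit 40, nat_lit 80, nat_lit 22, nat_lit 226, nat_lit 20, nat_lit 9]⟩, ⟨p120_k7, nat_lit 0, nat_lit 0, nat_lit 932, nat_lit 0, nat_lit 1511242, [nat_lit 269124000, nat_lit 512500000, nat_lit 973504000], [], [nat_lit 2847288072, nat_lit 2900016136, nat_lit 2919669364, nat_lit 2975949940, nat_lit 2439883436, nat_lit 2451068023, nat_lit 2443087862, nat_lit 2451744955], nat_lit 1271250, nat_lit 1271250, nat_lit 1271250, nat_lit 1271250, nat_lit 0, nat_lit 2118750, [nat_lit 780000, nat_lit 1435000, nat_lit 1271250], [nat_lit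 23, nat_lit 40, nat_lit 40, nat_lit 80, nat_lit 12, nat_lit 456, nat_lit 225, nat_lit 11]⟩,
 ⟨nat_lit 0, nat_lit 1582, ⟨.ofNat (nat_lit 646579), .ofNat (nat_lit 702515), .ofNat (nat_lit 669237), .ofNat (nat_lit 725184), .ofNat (nat_lit 648683), .ofNat (nat_lit 699984), .ofNat (nat_lit 673026), .ofNat (nat_lit 724337)⟩, ⟨.ofNat (nat_lit 20000), .ofNat (nat_lit 149570), .ofNat (nat_lit 20000), .ofNat (nat_lit 196201), .ofNat (nat_lit 20000), .ofNat (nat_lit 149998), .ofNat (nat_lit 20000), .ofNat (nat_lit 199999)⟩⟩, [⟨nat_lit 3, nat_lit 100, nat_lit 31, nat_lit 76, nat_lit 193590970⟩, ⟨nat_lit 22, nat_lit 100, nat_lit 98, nat_lit 66, nat_lit 9161170⟩]⟩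
noncomputable def p120_l24 : Lf2 := ⟨nat_lit 0, nat_lit 20, [nat_lit 5, nat_lit 5, nat_lit 5, nat_lit 20], false, nat_lit 0, nat_lit 40, nat_lit 0, nat_lit 248, ⟨nat_lit 101, nat_lit 899, nat_lit 0, nat_lit 7, nat_lit 295, nat_lit 899, nat_lit 19, nat_lit 0, nat_lit 0, nat_lit 0, nat_lit 0, nat_lit 0, nat_lit 43396754, nat_lit 23603246, nat_lit 0, nat_lit 3244254, true, true⟩,
 nat_lit 0, nat_lit 0, nat_lit 1339, nat_lit 0, nat_lit 2385, nat_lit 852, nat_lit 38, nat_lit 0, nat_lit 0, nat_lit 68, nat_lit 0, nat_lit 0, nat_lit 0, nat_lit 0, nat_lit 0, nat_lit 359600, nat_lit 0, nat_lit 0, [(nat_lit 28, [(nat_lit 1, nat_lit 899)])],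
 ⟨p120_k5, nat_lit 0, nat_lit 0, nat_lit 158, nat_lit 0, nat_lit 0, [nat_lit 721880401, nat_lit 623477201, nat_lit 755312000], [], [nat_lit 25376058323, nat_lit 25897367808, nat_lit 26847377573, nat_lit 27333805170, nat_lit 25104472593, nat_lit 25611739933, nat_lit 26543338783, nat_lit 27013221513], nat_lit 0, nat_lit 0, nat_lit 0, nat_lit 0, nat_lit 0, nat_lit 0, [], [nat_lit 20, nat_lit 40, nat_lit 40, nat_lit 80, nat_lit 16, nat_lit 215, nat_lit 10, nat_lit 7]⟩, ⟨p120_k7, nat_lit 0, nat_lit 0, nat_lit 824, nat_lit 0, nat_lit 1282101, [nat_lit 331482000, nat_lit 631250000, nat_lit 1199072000], [], [nat_lit 3518182552, nat_lit 3552885836, nat_lit 3656995688, nat_lit 3686899084, nat_lit 2857952883, nat_lit 2870328714, nat_lit 2907456210, nat_lit 2931075369], nat_lit 1271250, nat_lit 1271250, nat_lit 1271250, nat_lit 1271250, nat_lit 0, nat_lit 1751500, [nat_lit 780000, nat_lit 1435000, nat_lit 1271250], [nat_lit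 23, nat_lit 40, nat_lit 40, nat_lit 80, nat_lit 12, nat_lit 456, nat_lit 225, nat_lit 11]⟩,
 ⟨nat_lit 1581, nat_lit 2237, ⟨.ofNat (nat_lit 705117), .ofNat (nat_lit 762142), .ofNat (nat_lit 716482), .ofNat (nat_lit 773529), .ofNat (nat_lit 702521), .ofNat (nat_lit 757166), .ofNat (nat_lit 714155), .ofNat (nat_lit 768823)⟩, ⟨.ofNat (nat_lit 0), .ofNat (nat_lit 89742), .ofNat (nat_lit 0), .ofNat (nat_lit 100000), .ofNat (nat_lit 0), .ofNat (nat_lit 94935), .ofNat (nat_lit 0), .ofNat (nat_lit 100000)⟩⟩, [⟨nat_lit 3, nat_lit 100, nat_lit 53, nat_lit 55, nat_lit 34164293⟩, ⟨nat_lit 22, nat_lit 87, nat_lit 100, nat_lit 44, nat_lit 4388803⟩]⟩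
noncomputable def p120_l25 : Lf2 := ⟨nat_lit 0, nat_lit 20, [nat_lit 5, nat_lit 5, nat_lit 5, nat_lit 20], false, nat_lit 0, nat_lit 40, nat_lit 0, nat_lit 248, ⟨nat_lit 120, nat_lit 880, nat_lit 0, nat_lit 7, nat_lit 300, nat_lit 880, nat_lit 19, nat_lit 0, nat_lit 0, nat_lit 0, nat_lit 0, nat_lit 0, nat_lit 42921058, nat_lit 24078942, nat_lit 0, nat_lit 3265323, true, true⟩,
 nat_lit 0, nat_lit 0, nat_lit 1407, nat_lit 0, nat_lit 2394, nat_lit 934, nat_lit 47, nat_lit 0, nat_lit 0, nat_lit 88, nat_lit 0, nat_lit 0, nat_lit 0, nat_lit 0, nat_lit 0, nat_lit 352000, nat_lit 0, nat_lit 0, [(nat_lit 28, [(nat_lit 1, nat_lit 880)])],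
 ⟨p120_k5, nat_lit 0, nat_lit 0, nat_lit 158, nat_lit 0, nat_lit 0, [nat_lit 726448000, nat_lit 679664001, nat_lit 871440000], [], [nat_lit 25399058103, nat_lit 25921109737, nat_lit 26871731403, nat_lit 27358069548, nat_lit 25124209891, nat_lit 25632190787, nat_lit 26564378327, nat_lit 27034883839], nat_lit 0, nat_lit 0, nat_lit 0, nat_lit 0, nat_lit 0, nat_lit 0, [], [nat_lit 20, nat_lit 40, nat_lit 40, nat_lit 80, nat_lit 16, nat_lit 215, nat_lit 10, nat_lit 7]⟩, ⟨p120_k8, nat_lit 0, nat_lit 0, nat_lit 816, nat_lit 0, nat_lit 1265359, [nat_lit 393840000, nat_lit 750000000, nat_lit 1424640000], [], [nat_lit 4004792712, nat_lit 4045028024, nat_lit 4160401922, nat_lit 4195305196, nat_lit 3373506452, nat_lit 3388670039, nat_lit 3431717143, nat_lit 3444437074], nat_lit 1271250, nat_lit 1271250, nat_lit 1271250, nat_lit 1271250, nat_lit 0, nat_lit 1751500, [nat_lit 780000, nat_lit 1435000, nat_lit 1271250], [nat_lit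 23, nat_lit 40, nat_lit 40, nat_lit 80, nat_lit 12, nat_lit 456, nat_lit 225, nat_lit 11]⟩,
 ⟨nat_lit 1581, nat_lit 2237, ⟨.ofNat (nat_lit 716482), .ofNat (nat_lit 773529), .ofNat (nat_lit 727846), .ofNat (nat_lit 784917), .ofNat (nat_lit 714155), .ofNat (nat_lit 768823), .ofNat (nat_lit 725790), .ofNat (nat_lit 780481)⟩, ⟨.ofNat (nat_lit 0), .ofNat (nat_lit 89742), .ofNat (nat_lit 0), .ofNat (nat_lit 100000), .ofNat (nat_lit 0), .ofNat (nat_lit 94935), .ofNat (nat_lit 0), .ofNat (nat_lit 100000)⟩⟩, [⟨nat_lit 3, nat_lit 100, nat_lit 53, nat_lit 55, nat_lit 16390534⟩, ⟨nat_lit 22, nat_lit 87, nat_lit 100, nat_lit 44, nat_lit 13322124⟩]⟩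
noncomputable def p120_l26 : Lf2 := ⟨nat_lit 0, nat_lit 20, [nat_lit 5, nat_lit 5, nat_lit 5, nat_lit 20], false, nat_lit 40, nat_lit 80, nat_lit 0, nat_lit 300, ⟨nat_lit 106, nat_lit 894, nat_lit 0, nat_lit 7, nat_lit 297, nat_lit 894, nat_lit 53, nat_lit 0, nat_lit 0, nat_lit 0, nat_lit 0, nat_lit 0, nat_lit 41974223, nat_lit 23411968, nat_lit 1613809, nat_lit 3881928, true, true⟩,
 nat_lit 0, nat_lit 0, nat_lit 1345, nat_lit 0, nat_lit 2434, nat_lit 855, nat_lit 54, nat_lit 0, nat_lit 0, nat_lit 66, nat_lit 0, nat_lit 0, nat_lit 0, nat_lit 0, nat_lit 0, nat_lit 357600, nat_lit 0, nat_lit 0, [(nat_lit 28, [(nat_lit 1, nat_lit 894)])],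
 ⟨p120_k5, nat_lit 0, nat_lit 0, nat_lit 136, nat_lit 0, nat_lit 0, [nat_lit 723082400, nat_lit 638263200, nat_lit 785872000], [], [nat_lit 24751679458, nat_lit 25274135094, nat_lit 26221303694, nat_lit 26704618832, nat_lit 24406286922, nat_lit 24914593468, nat_lit 25844113842, nat_lit 26314811916], nat_lit 0, nat_lit 0, nat_lit 0, nat_lit 0, nat_lit 0, nat_lit 0, [], [nat_lit 20, nat_lit 40, nat_lit 40, nat_lit 80, nat_lit 16, nat_lit 226, nat_lit 20, nat_lit 7]⟩, ⟨p120_k7, nat_lit 0, nat_lit 0, nat_lit 847, nat_lit 0, nat_lit 1346795, [nat_lit 347892000, nat_lit 662500000, nat_lit 1258432000], [], [nat_lit 3835567880, nat_lit 3892902048, nat_lit 3964747264, nat_lit 4026888642, nat_lit 3277716805, nat_lit 3298789603, nat_lit 3319862401, nat_lit 3343426515], nat_lit 1271250, nat_lit 1271250, nat_lit 1271250, nat_lit 1271250, nat_lit 0, nat_lit 2118750, [nat_lit 780000, nat_lit 1435000, nat_lit 1271250], [nat_lit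 23, nat_lit 40, nat_lit 40, nat_lit 80, nat_lit 12, nat_lit 483, nat_lit 250, nat_lit 12]⟩,
 ⟨nat_lit 1581, nat_lit 2237, ⟨.ofNat (nat_lit 705117), .ofNat (nat_lit 762142), .ofNat (nat_lit 727846), .ofNat (nat_lit 784917), .ofNat (nat_lit 702521), .ofNat (nat_lit 757166), .ofNat (nat_lit 725790), .ofNat (nat_lit 780481)⟩, ⟨.ofNat (nat_lit 89742), .ofNat (nat_lit 146758), .ofNat (nat_lit 100000), .ofNat (nat_lit 192306), .ofNat (nat_lit 94935), .ofNat (nat_lit 149571), .ofNat (nat_lit 100000), .ofNat (nat_lit 196201)⟩⟩, [⟨nat_lit 22, nat_lit 90, nat_lit 100, nat_lit 74, nat_lit 11554335⟩]⟩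
noncomputable def p120_l27 : Lf2 := ⟨nat_lit 0, nat_lit 20, [nat_lit 5, nat_lit 5, nat_lit 5, nat_lit 20], false, nat_lit 8, nat_lit 80, nat_lit 0, nat_lit 300, ⟨nat_lit 81, nat_lit 919, nat_lit 0, nat_lit 7, nat_lit 293, nat_lit 919, nat_lit 39, nat_lit 0, nat_lit 0, nat_lit 0, nat_lit 0, nat_lit 0, nat_lit 42816997, nat_lit 23177044, nat_lit 1005959, nat_lit 3675226, true, true⟩,
 nat_lit 0, nat_lit 0, nat_lit 1048, nat_lit 0, nat_lit 2406, nat_lit 666, nat_lit 76, nat_lit 0, nat_lit 0, nat_lit 49, nat_lit 0, nat_lit 0, nat_lit 0, nat_lit 0, nat_lit 0, nat_lit 229750, nat_lit 0, nat_lit 0, [(nat_lit 28, [(nat_lit 0, nat_lit 919)])],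
 ⟨p120_k14, nat_lit 0, nat_lit 0, nat_lit 145, nat_lit 0, nat_lit 0, [nat_lit 794268401, nat_lit 1227116001, nat_lit 1644639600], [], [nat_lit 25961023450, nat_lit 26471352904, nat_lit 27373627842, nat_lit 27857913834, nat_lit 25517183325, nat_lit 26002070015, nat_lit 26872333211, nat_lit 27322475695], nat_lit 0, nat_lit 0, nat_lit 0, nat_lit 0, nat_lit 0, nat_lit 0, [], [nat_lit 35, nat_lit 40, nat_lit 40, nat_lit 80, nat_lit 22, nat_lit 226, nat_lit 20, nat_lit 9]⟩, ⟨p120_k7, nat_lit 0, nat_lit 0, nat_lit 885, nat_lit 0, nat_lit 1450788, [nat_lit 265842000, nat_lit 506250000, nat_lit 961632000], [], [nat_lit 2939046822, nat_lit 2966658138, nat_lit 3049492086, nat_lit 3073335876, nat_lit 2513739078, nat_lit 2518192067, nat_lit 2531551032, nat_lit 2538151236], nat_lit 1271250, nat_lit 1271250, nat_lit 1271250, nat_lit 1271250, nat_lit 0, nat_lit 2118750, [nat_lit 780000, nat_lit 1435000, nat_lit 1271250], [nat_lit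 23, nat_lit 40, nat_lit 40, nat_lit 80, nat_lit 12, nat_lit 483, nat_lit 250, nat_lit 12]⟩,
 ⟨nat_lit 0, nat_lit 1582, ⟨.ofNat (nat_lit 702515), .ofNat (nat_lit 757165), .ofNat (nat_lit 713855), .ofNat (nat_lit 768823), .ofNat (nat_lit 699984), .ofNat (nat_lit 749998), .ofNat (nat_lit 712166), .ofNat (nat_lit 762499)⟩, ⟨.ofNat (nat_lit 20000), .ofNat (nat_lit 149570), .ofNat (nat_lit 20000), .ofNat (nat_lit 196201), .ofNat (nat_lit 20000), .ofNat (nat_lit 149998), .ofNat (nat_lit 20000), .ofNat (nat_lit 199999)⟩⟩, [⟨nat_lit 13, nat_lit 25, nat_lit 87, nat_lit 100, nat_lit 78654131⟩, ⟨nat_lit 3, nat_lit 100, nat_lit 31, nat_lit 76, nat_lit 206781852⟩, ⟨nat_lit 22, nat_lit 88, nat_lit 100, nat_lit 63, nat_lit 10295118⟩]⟩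
noncomputable def p120_l28 : Lf2 := ⟨nat_lit 0, nat_lit 20, [nat_lit 5, nat_lit 5, nat_lit 5, nat_lit 20], false, nat_lit 8, nat_lit 80, nat_lit 0, nat_lit 292, ⟨nat_lit 95, nat_lit 905, nat_lit 0, nat_lit 7, nat_lit 298, nat_lit 905, nat_lit 39, nat_lit 0, nat_lit 0, nat_lit 0, nat_lit 0, nat_lit 0, nat_lit 42340167, nat_lit 23660233, nat_lit 999600, nat_lit 3694792, true, true⟩,
 nat_lit 0, nat_lit 0, nat_lit 1105, nat_lit 0, nat_lit 2420, nat_lit 733, nat_lit 77, nat_lit 0, nat_lit 0, nat_lit 71, nat_lit 0, nat_lit 0, nat_lit 0, nat_lit 0, nat_lit 0, nat_lit 226250, nat_lit 0, nat_lit 0, [(nat_lit 28, [(nat_lit 0, nat_lit 905)])],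
 ⟨p120_k14, nat_lit 0, nat_lit 0, nat_lit 145, nat_lit 0, nat_lit 0, [nat_lit 796458001, nat_lit 1258420000, nat_lit 1691002000], [], [nat_lit 26011232040, nat_lit 26522680034, nat_lit 27425766080, nat_lit 27899404898, nat_lit 25558617917, nat_lit 26044542217, nat_lit 26915553937, nat_lit 27366603817], nat_lit 0, nat_lit 0, nat_lit 0, nat_lit 0, nat_lit 0, nat_lit 0, [], [nat_lit 35, nat_lit 40, nat_lit 40, nat_lit 80, nat_lit 22, nat_lit 226, nat_lit 20, nat_lit 9]⟩, ⟨p120_k8, nat_lit 0, nat_lit 0, nat_lit 871, nat_lit 0, nat_lit 1419729, [nat_lit 311790000, nat_lit 593750000, nat_lit 1127840000], [], [nat_lit 3216307096, nat_lit 3230360326, nat_lit 3270450127, nat_lit 3298518233, nat_lit 2812587279, nat_lit 2818686537, nat_lit 2835531138, nat_lit 2840177222], nat_lit 1271250, nat_lit 1271250, nat_lit 1271250, nat_lit 1271250, nat_lit 0, nat_lit 2062250, [nat_lit 780000, nat_lit 1435000, nat_lit 1271250], [nat_lit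 23, nat_lit 40, nat_lit 40, nat_lit 80, nat_lit 12, nat_lit 483, nat_lit 250, nat_lit 12]⟩,
 ⟨nat_lit 0, nat_lit 1582, ⟨.ofNat (nat_lit 713855), .ofNat (nat_lit 768823), .ofNat (nat_lit 725184), .ofNat (nat_lit 780481), .ofNat (nat_lit 712166), .ofNat (nat_lit 762499), .ofNat (nat_lit 724337), .ofNat (nat_lit 774999)⟩, ⟨.ofNat (nat_lit 20000), .ofNat (nat_lit 149570), .ofNat (nat_lit 20000), .ofNat (nat_lit 196201), .ofNat (nat_lit 20000), .ofNat (nat_lit 149998), .ofNat (nat_lit 20000), .ofNat (nat_lit 199999)⟩⟩, [⟨nat_lit 13, nat_lit 25, nat_lit 86, nat_lit 100, nat_lit 75191962⟩, ⟨nat_lit 3, nat_lit 100, nat_lit 31, nat_lit 76, nat_lit 181286288⟩, ⟨nat_lit 22, nat_lit 88, nat_lit 100, nat_lit 63, nat_lit 16085391⟩]⟩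
noncomputable def p120_l29 : Lf2 := ⟨nat_lit 0, nat_lit 15, [nat_lit 30, nat_lit 5, nat_lit 5, nat_lit 20], false, nat_lit 0, nat_lit 80, nat_lit 0, nat_lit 256, ⟨nat_lit 155, nat_lit 845, nat_lit 0, nat_lit 7, nat_lit 295, nat_lit 845, nat_lit 32, nat_lit 0, nat_lit 0, nat_lit 0, nat_lit 0, nat_lit 0, nat_lit 43362848, nat_lit 23637152, nat_lit 0, nat_lit 3245792, true, false⟩,
 nat_lit 0, nat_lit 0, nat_lit 1543, nat_lit 0, nat_lit 2683, nat_lit 1068, nat_lit 0, nat_lit 0, nat_lit 0, nat_lit 126, nat_lit 0, nat_lit 0, nat_lit 0, nat_lit 0, nat_lit 0, nat_lit 267950, nat_lit 0, nat_lit 0, [(nat_lit 28, [(nat_lit 0, nat_lit 467), (nat_lit 1, nat_lit 378)])],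
 ⟨p120_k15, nat_lit 0, nat_lit 0, nat_lit 146, nat_lit 0, nat_lit 0, [nat_lit 774090000, nat_lit 1119966400, nat_lit 1444111600], [], [nat_lit 24766667964, nat_lit 25342548862, nat_lit 27607248726, nat_lit 28137225686, nat_lit 24169241886, nat_lit 24711613005, nat_lit 26880761832, nat_lit 27348857794], nat_lit 0, nat_lit 0, nat_lit 0, nat_lit 0, nat_lit 0, nat_lit 0, [], [nat_lit 35, nat_lit 40, nat_lit 40, nat_lit 80, nat_lit 22, nat_lit 226, nat_lit 20, nat_lit 9]⟩, ⟨p120_k13, nat_lit 0, nat_lit 0, nat_lit 711, nat_lit 0, nat_lit 1151307, [nat_lit 508710000, nat_lit 968750000, nat_lit 1525510000], [], [nat_lit 4680536938, nat_lit 4753445506, nat_lit 4921906944, nat_lit 5005881788, nat_lit 4244353912, nat_lit 4290353850, nat_lit 4381639298, nat_lit 4430185870], nat_lit 1271250, nat_lit 1271250, nat_lit 1271250, nat_lit 1271250, nat_lit 0, nat_lit 1808000, [nat_lit 780000, nat_lit 1435000, nat_lit 1271250], [nat_lit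 8, nat_lit 40, nat_lit 40, nat_lit 80, nat_lit 1, nat_lit 373, nat_lit 150, nat_lit 10]⟩,
 ⟨nat_lit 1581, nat_lit 2237, ⟨.ofNat (nat_lit 670745), .ofNat (nat_lit 784917), .ofNat (nat_lit 693473), .ofNat (nat_lit 807675), .ofNat (nat_lit 671069), .ofNat (nat_lit 780481), .ofNat (nat_lit 694338), .ofNat (nat_lit 803781)⟩, ⟨.ofNat (nat_lit 0), .ofNat (nat_lit 146758), .ofNat (nat_lit 0), .ofNat (nat_lit 169532), .ofNat (nat_lit 0), .ofNat (nat_lit 149571), .ofNat (nat_lit 0), .ofNat (nat_lit 172886)⟩⟩, [⟨nat_lit 7, nat_lit 100, nat_lit 84, nat_lit 67, nat_lit 27163861⟩]⟩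
noncomputable def p120_l30 : Lf2 := ⟨nat_lit 0, nat_lit 20, [nat_lit 5, nat_lit 5, nat_lit 5, nat_lit 20], false, nat_lit 8, nat_lit 80, nat_lit 0, nat_lit 280, ⟨nat_lit 252, nat_lit 748, nat_lit 0, nat_lit 7, nat_lit 296, nat_lit 748, nat_lit 40, nat_lit 0, nat_lit 0, nat_lit 0, nat_lit 0, nat_lit 0, nat_lit 42554426, nat_lit 23380989, nat_lit 1064585, nat_lit 3704803, true, false⟩,
 nat_lit 0, nat_lit 0, nat_lit 2405, nat_lit 0, nat_lit 2231, nat_lit 1665, nat_lit 185, nat_lit 0, nat_lit 0, nat_lit 239, nat_lit 0, nat_lit 0, nat_lit 0, nat_lit 0, nat_lit 0, nat_lit 299200, nat_lit 0, nat_lit 0, [(nat_lit 28, [(nat_lit 1, nat_lit 748)])],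
 ⟨p120_k5, nat_lit 0, nat_lit 0, nat_lit 152, nat_lit 0, nat_lit 0, [nat_lit 758180800, nat_lit 1070014401, nat_lit 1678224000], [], [nat_lit 23513973633, nat_lit 23785272274, nat_lit 26256768963, nat_lit 26492529527, nat_lit 23172326047, nat_lit 23430026770, nat_lit 25811579149, nat_lit 26035203089], nat_lit 0, nat_lit 0, nat_lit 0, nat_lit 0, nat_lit 0, nat_lit 0, [], [nat_lit 20, nat_lit 40, nat_lit 40, nat_lit 80, nat_lit 16, nat_lit 226, nat_lit 20, nat_lit 7]⟩, ⟨p120_k4, nat_lit 0, nat_lit 0, nat_lit 632, nat_lit 0, nat_lit 1005805, [nat_lit 827064000, nat_lit 1575000000, nat_lit 2480184000], [], [nat_lit 7553157099, nat_lit 7688083497, nat_lit 7964986299, nat_lit 8079487161, nat_lit 7003367781, nat_lit 7085057685, nat_lit 7234092753, nat_lit 7297204569], nat_lit 1271250, nat_lit 1271250, nat_lit 1271250, nat_lit 1271250, nat_lit 0, nat_lit 1977500, [nat_lit 780000, nat_lit 1435000, nat_lit 1271250], [nat_lit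 8, nat_lit 40, nat_lit 40, nat_lit 80, nat_lit 1, nat_lit 373, nat_lit 150, nat_lit 10]⟩,
 ⟨nat_lit 1936, nat_lit 2237, ⟨.ofNat (nat_lit 670859), .ofNat (nat_lit 784917), .ofNat (nat_lit 693625), .ofNat (nat_lit 807688), .ofNat (nat_lit 670915), .ofNat (nat_lit 782720), .ofNat (nat_lit 693918), .ofNat (nat_lit 805728)⟩, ⟨.ofNat (nat_lit 20000), .ofNat (nat_lit 169532), .ofNat (nat_lit 20000), .ofNat (nat_lit 192306), .ofNat (nat_lit 20000), .ofNat (nat_lit 171255), .ofNat (nat_lit 20000), .ofNat (nat_lit 194266)⟩⟩, [⟨nat_lit 22, nat_lit 95, nat_lit 100, nat_lit 65, nat_lit 49074689⟩]⟩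
noncomputable def p120_l31 : Lf2 := ⟨nat_lit 0, nat_lit 20, [nat_lit 5, nat_lit 5, nat_lit 5, nat_lit 20], false, nat_lit 16, nat_lit 80, nat_lit 0, nat_lit 280, ⟨nat_lit 244, nat_lit 756, nat_lit 0, nat_lit 7, nat_lit 295, nat_lit 756, nat_lit 45, nat_lit 0, nat_lit 0, nat_lit 0, nat_lit 0, nat_lit 0, nat_lit 42460949, nat_lit 23298029, nat_lit 1241022, nat_lit 3760080, true, false⟩,
 nat_lit 0, nat_lit 0, nat_lit 2321, nat_lit 0, nat_lit 2337, nat_lit 1606, nat_lit 78, nat_lit 0, nat_lit 0, nat_lit 238, nat_lit 0, nat_lit 0, nat_lit 0, nat_lit 0, nat_lit 0, nat_lit 302400, nat_lit 0, nat_lit 0, [(nat_lit 28, [(nat_lit 1, nat_lit 756)])],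
 ⟨p120_k16, nat_lit 0, nat_lit 0, nat_lit 134, nat_lit 0, nat_lit 0, [nat_lit 756257600, nat_lit 1046356801, nat_lit 1293257600], [], [nat_lit 23996497012, nat_lit 24265664675, nat_lit 26688917812, nat_lit 26921794431, nat_lit 23694683426, nat_lit 23951459296, nat_lit 26292246008, nat_lit 26515081167], nat_lit 0, nat_lit 0, nat_lit 0, nat_lit 0, nat_lit 0, nat_lit 0, [], [nat_lit 35, nat_lit 40, nat_lit 40, nat_lit 80, nat_lit 22, nat_lit 226, nat_lit 20, nat_lit 9]⟩, ⟨p120_k4, nat_lit 0, nat_lit 0, nat_lit 656, nat_lit 0, nat_lit 1070145, [nat_lit 800808000, nat_lit 1525000000, nat_lit 2401448000], [], [nat_lit 7279273614, nat_lit 7409800866, nat_lit 7677961742, nat_lit 7784241362, nat_lit 6752965530, nat_lit 6832094194, nat_lit 6976790150, nat_lit 7055453464], nat_lit 1271250, nat_lit 1271250, nat_lit 1271250, nat_lit 1271250, nat_lit 0, nat_lit 1977500, [nat_lit 780000, nat_lit 1435000, nat_lit 1271250], [nat_lit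 8, nat_lit 40, nat_lit 40, nat_lit 80, nat_lit 1, nat_lit 373, nat_lit 150, nat_lit 10]⟩,
 ⟨nat_lit 1581, nat_lit 1937, ⟨.ofNat (nat_lit 670898), .ofNat (nat_lit 782720), .ofNat (nat_lit 693894), .ofNat (nat_lit 805728), .ofNat (nat_lit 671166), .ofNat (nat_lit 780481), .ofNat (nat_lit 694466), .ofNat (nat_lit 803793)⟩, ⟨.ofNat (nat_lit 40000), .ofNat (nat_lit 171255), .ofNat (nat_lit 40000), .ofNat (nat_lit 194266), .ofNat (nat_lit 40000), .ofNat (nat_lit 172886), .ofNat (nat_lit 40000), .ofNat (nat_lit 196201)⟩⟩, [⟨nat_lit 22, nat_lit 96, nat_lit 100, nat_lit 68, nat_lit 45463927⟩]⟩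
noncomputable def p120_l32 : Lf2 := ⟨nat_lit 0, nat_lit 20, [nat_lit 5, nat_lit 5, nat_lit 5, nat_lit 20], false, nat_lit 8, nat_lit 80, nat_lit 0, nat_lit 280, ⟨nat_lit 114, nat_lit 886, nat_lit 0, nat_lit 7, nat_lit 292, nat_lit 886, nat_lit 39, nat_lit 0, nat_lit 0, nat_lit 0, nat_lit 0, nat_lit 0, nat_lit 42936825, nat_lit 23055646, nat_lit 1007529, nat_lit 3670116, true, false⟩,
 nat_lit 0, nat_lit 0, nat_lit 1193, nat_lit 0, nat_lit 2374, nat_lit 825, nat_lit 99, nat_lit 0, nat_lit 0, nat_lit 80, nat_lit 0, nat_lit 0, nat_lit 0, nat_lit 0, nat_lit 0, nat_lit 221500, nat_lit 0, nat_lit 0, [(nat_lit 28, [(nat_lit 0, nat_lit 886)])],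
 ⟨p120_k14, nat_lit 0, nat_lit 0, nat_lit 145, nat_lit 0, nat_lit 0, [nat_lit 799429601, nat_lit 1300904001, nat_lit 1753922400], [], [nat_lit 24538924190, nat_lit 25083682828, nat_lit 27259530824, nat_lit 27767304169, nat_lit 24162520118, nat_lit 24679153700, nat_lit 26734014960, nat_lit 27183839180], nat_lit 0, nat_lit 0, nat_lit 0, nat_lit 0, nat_lit 0, nat_lit 0, [], [nat_lit 35, nat_lit 40, nat_lit 40, nat_lit 80, nat_lit 22, nat_lit 226, nat_lit 20, nat_lit 9]⟩, ⟨p120_k4, nat_lit 0, nat_lit 0, nat_lit 804, nat_lit 0, nat_lit 1394307, [nat_lit 374148000, nat_lit 712500000, nat_lit 1121988000], [], [nat_lit 3649250802, nat_lit 3666680196, nat_lit 3754560918, nat_lit 3769267599, nat_lit 3235920309, nat_lit 3246000122, nat_lit 3279773307, nat_lit 3286546952], nat_lit 1271250, nat_lit 1271250, nat_lit 1271250, nat_lit 1271250, nat_lit 0, nat_lit 1977500, [nat_lit 780000, nat_lit 1435000, nat_lit 1271250], [nat_lit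 8, nat_lit 40, nat_lit 40, nat_lit 80, nat_lit 1, nat_lit 373, nat_lit 150, nat_lit 10]⟩,
 ⟨nat_lit 0, nat_lit 1582, ⟨.ofNat (nat_lit 669237), .ofNat (nat_lit 780481), .ofNat (nat_lit 680566), .ofNat (nat_lit 792138), .ofNat (nat_lit 673026), .ofNat (nat_lit 774999), .ofNat (nat_lit 685198), .ofNat (nat_lit 787499)⟩, ⟨.ofNat (nat_lit 20000), .ofNat (nat_lit 149570), .ofNat (nat_lit 20000), .ofNat (nat_lit 196201), .ofNat (nat_lit 20000), .ofNat (nat_lit 149998), .ofNat (nat_lit 20000), .ofNat (nat_lit 199999)⟩⟩, [⟨nat_lit 3, nat_lit 100, nat_lit 31, nat_lit 76, nat_lit 159147319⟩, ⟨nat_lit 22, nat_lit 95, nat_lit 100, nat_lit 65, nat_lit 18488993⟩]⟩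
noncomputable def p120_l33 : Lf2 := ⟨nat_lit 0, nat_lit 20, [nat_lit 5, nat_lit 5, nat_lit 5, nat_lit 20], false, nat_lit 8, nat_lit 80, nat_lit 0, nat_lit 268, ⟨nat_lit 142, nat_lit 858, nat_lit 0, nat_lit 7, nat_lit 300, nat_lit 858, nat_lit 39, nat_lit 0, nat_lit 0, nat_lit 0, nat_lit 0, nat_lit 0, nat_lit 42138954, nat_lit 23864183, nat_lit 996863, nat_lit 3702684, true, false⟩,
 nat_lit 0, nat_lit 0, nat_lit 1283, nat_lit 0, nat_lit 2382, nat_lit 924, nat_lit 107, nat_lit 0, nat_lit 0, nat_lit 107, nat_lit 0, nat_lit 0, nat_lit 0, nat_lit 0, nat_lit 0, nat_lit 214500, nat_lit 0, nat_lit 0, [(nat_lit 28, [(nat_lit 0, nat_lit 858)])],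
 ⟨p120_k14, nat_lit 0, nat_lit 0, nat_lit 145, nat_lit 0, nat_lit 0, [nat_lit 803808800, nat_lit 1363512001, nat_lit 1846647200], [], [nat_lit 24941124922, nat_lit 25475482854, nat_lit 27282411355, nat_lit 27788836425, nat_lit 24545532946, nat_lit 25052575273, nat_lit 26752397302, nat_lit 27201917761], nat_lit 0, nat_lit 0, nat_lit 0, nat_lit 0, nat_lit 0, nat_lit 0, [], [nat_lit 35, nat_lit 40, nat_lit 40, nat_lit 80, nat_lit 22, nat_lit 226, nat_lit 20, nat_lit 9]⟩, ⟨p120_k6, nat_lit 0, nat_lit 0, nat_lit 791, nat_lit 0, nat_lit 1373518, [nat_lit 466044000, nat_lit 887500000, nat_lit 1397564000], [], [nat_lit 4297309356, nat_lit 4325186705, nat_lit 4448380713, nat_lit 4527733651, nat_lit 3934000693, nat_lit 3950855417, nat_lit 4013968657, nat_lit 4027852702], nat_lit 1271250, nat_lit 1271250, nat_lit 1271250, nat_lit 1271250, nat_lit 0, nat_lit 1892750, [nat_lit 780000, nat_lit 1435000, nat_lit 1271250], [nat_lit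 8, nat_lit 40, nat_lit 40, nat_lit 80, nat_lit 1, nat_lit 373, nat_lit 150, nat_lit 10]⟩,
 ⟨nat_lit 0, nat_lit 1582, ⟨.ofNat (nat_lit 697350), .ofNat (nat_lit 792138), .ofNat (nat_lit 708679), .ofNat (nat_lit 803773), .ofNat (nat_lit 700591), .ofNat (nat_lit 787499), .ofNat (nat_lit 712763), .ofNat (nat_lit 799976)⟩, ⟨.ofNat (nat_lit 20000), .ofNat (nat_lit 149570), .ofNat (nat_lit 20000), .ofNat (nat_lit 196201), .ofNat (nat_lit 20000), .ofNat (nat_lit 149998), .ofNat (nat_lit 20000), .ofNat (nat_lit 199999)⟩⟩, [⟨nat_lit 3, nat_lit 100, nat_lit 31, nat_lit 76, nat_lit 122668342⟩, ⟨nat_lit 22, nat_lit 93, nat_lit 100, nat_lit 64, nat_lit 25367764⟩]⟩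
noncomputable def b_V_900_700_10_15 : St := ⟨true, nat_lit 0, nat_lit 1, nat_lit 1, nat_lit 80, nat_lit 380, nat_lit 400, nat_lit 280, nat_lit 320, nat_lit 240, nat_lit 320, nat_lit 40, nat_lit 80, nat_lit 0, nat_lit 80, nat_lit 0, nat_lit 300, nat_lit 80, nat_lit 120, nat_lit 0, nat_lit 0, nat_lit 0, nat_lit 0⟩
theorem d_V_900_700_10_15 (h : EB TB.env) : Dead b_V_900_700_10_15 := chkB_sound0 h (T :=
(.spl (nat_lit 1) (nat_lit 300)
(.spl (nat_lit 2) (nat_lit 280)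
(.spl (nat_lit 0) (nat_lit 390)
(.leaf p120_l22)
(.trZ (nat_lit 3) (nat_lit 100) (nat_lit 52) (nat_lit 53) (nat_lit 8) (.leaf p120_l23)))
(.spl (nat_lit 0) (nat_lit 390)
(.spl (nat_lit 4) (nat_lit 40)
(.trX (nat_lit 22) (nat_lit 94) (nat_lit 100) (nat_lit 62) (nat_lit 248) (.spl (nat_lit 1) (nat_lit 290)
(.leaf p120_l24)
(.leaf p120_l25)))
(.leaf p120_l26))
(.trZ (nat_lit 3) (nat_lit 100) (nat_lit 52) (nat_lit 53) (nat_lit 8) (.spl (nat_lit 1) (nat_lit 290)
(.leaf p120_l27)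
(.trX (nat_lit 19) (nat_lit 100) (nat_lit 100) (nat_lit 89) (nat_lit 292) (.leaf p120_l28))))))
(.trX (nat_lit 19) (nat_lit 94) (nat_lit 100) (nat_lit 87) (nat_lit 280) (.spl (nat_lit 0) (nat_lit 390)
(.spl (nat_lit 3) (nat_lit 60)
(.trX (nat_lit 19) (nat_lit 90) (nat_lit 100) (nat_lit 74) (nat_lit 256) (.leaf p120_l29))
(.trZ (nat_lit 3) (nat_lit 100) (nat_lit 61) (nat_lit 47) (nat_lit 8) (.spl (nat_lit 0) (nat_lit 385)
(.leaf p120_l30)
(.trZ (nat_lit 3) (nat_lit 100) (nat_lit 53) (nat_lit 55) (nat_lit 16) (.leaf p120_l31)))))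
(.trZ (nat_lit 3) (nat_lit 100) (nat_lit 52) (nat_lit 53) (nat_lit 8) (.spl (nat_lit 1) (nat_lit 310)
(.leaf p120_l32)
(.trZ (nat_lit 0) (nat_lit 87) (nat_lit 32) (nat_lit 100) (nat_lit 252) (.trX (nat_lit 19) (nat_lit 89) (nat_lit 100) (nat_lit 85) (nat_lit 268) (.leaf p120_l33))))))))) (by decide +kernel)
noncomputable def p120_l34 : Lf2 := ⟨nat_lit 0, nat_lit 15, [nat_lit 30, nat_lit 5, nat_lit 5, nat_lit 20], false, nat_lit 0, nat_lit 80, nat_lit 0, nat_lit 260, ⟨nat_lit 1000, nat_lit 0, nat_lit 0, nat_lit 0, nat_lit 0, nat_lit 0, nat_lit 0, nat_lit 0, nat_lit 0, nat_lit 0, nat_lit 0, nat_lit 0, nat_lit 0, nat_lit 0, nat_lit 0, nat_lit 0, false, false⟩,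
 nat_lit 0, nat_lit 0, nat_lit 11733, nat_lit 0, nat_lit 4680, nat_lit 7466, nat_lit 444, nat_lit 0, nat_lit 0, nat_lit 611, nat_lit 0, nat_lit 0, nat_lit 0, nat_lit 0, nat_lit 0, nat_lit 0, nat_lit 0, nat_lit 0, [],
 ⟨p120_k10, nat_lit 0, nat_lit 0, nat_lit 176, nat_lit 0, nat_lit 0, [nat_lit 938000000, nat_lit 3282000000, nat_lit 6250000000], [], [nat_lit 30982608000, nat_lit 31405710260, nat_lit 35565640321, nat_lit 35913719285, nat_lit 27727755960, nat_lit 27990341960, nat_lit 31602622592, nat_lit 31937528305], nat_lit 0, nat_lit 0, nat_lit 0, nat_lit 0, nat_lit 0, nat_lit 0, [], [nat_lit 20, nat_lit 40, nat_lit 40, nat_lit 80, nat_lit 16, nat_lit 226, nat_lit 20, nat_lit 7]⟩, ⟨p120_k11, nat_lit 0, nat_lit 0, nat_lit 527, nat_lit 0, nat_lit 782687, [nat_lit 3282000000, nat_lit 6250000000, nat_lit 9842000000], [], [nat_lit 36461448206, nat_lit 36894645802, nat_lit 38508779762, nat_lit 38939481176, nat_lit 31610193002,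 nat_lit 31867350045, nat_lit 33180874540, nat_lit 33474132846], nat_lit 1271250, nat_lit 1271250, nat_lit 1271250, nat_lit 1271250, nat_lit 0, nat_lit 1836250, [nat_lit 780000, nat_lit 1435000, nat_lit 1271250], [nat_lit 8, nat_lit 40, nat_lit 40, nat_lit 80, nat_lit 1, nat_lit 289, nat_lit 75, nat_lit 8]⟩,
 zbF0, [⟨nat_lit 22, nat_lit 67, nat_lit 100, nat_lit 61, nat_lit 43140990⟩, ⟨nat_lit 22, nat_lit 83, nat_lit 100, nat_lit 83, nat_lit 69796116⟩]⟩
noncomputable def p120_l35 : Lf2 := ⟨nat_lit 0, nat_lit 15, [nat_lit 30, nat_lit 5, nat_lit 5, nat_lit 20], false, nat_lit 0, nat_lit 80, nat_lit 0, nat_lit 260, ⟨nat_lit 753, nat_lit 247, nat_lit 0, nat_lit 8, nat_lit 331, nat_lit 247, nat_lit 31, nat_lit 0, nat_lit 0, nat_lit 0, nat_lit 0, nat_lit 0, nat_lit 39795038, nat_lit 27204962, nat_lit 0, nat_lit 3376931, true, true⟩,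
 nat_lit 0, nat_lit 0, nat_lit 7918, nat_lit 0, nat_lit 3397, nat_lit 5038, nat_lit 544, nat_lit 0, nat_lit 0, nat_lit 774, nat_lit 0, nat_lit 0, nat_lit 0, nat_lit 0, nat_lit 0, nat_lit 61750, nat_lit 0, nat_lit 0, [(nat_lit 25, [(nat_lit 0, nat_lit 247)])],
 ⟨p120_k17, nat_lit 0, nat_lit 0, nat_lit 183, nat_lit 0, nat_lit 0, [nat_lit 895022000, nat_lit 1784703601, nat_lit 5229396000], [], [nat_lit 28272936029, nat_lit 28630788758, nat_lit 32147827149, nat_lit 32446870110, nat_lit 25915632584, nat_lit 26152670610, nat_lit 29538789422, nat_lit 29826765047], nat_lit 0, nat_lit 0, nat_lit 0, nat_lit 0, nat_lit 0, nat_lit 0, [], [nat_lit 131, nat_lit 40, nat_lit 40, nat_lit 80, nat_lit 64, nat_lit 226, nat_lit 20, nat_lit 7]⟩, ⟨p120_k18, nat_lit 0, nat_lit 0, nat_lit 572, nat_lit 0, nat_lit 854691, [nat_lit 2471346000, nat_lit 3530064000, nat_lit 7411026000], [], [nat_lit 25725126670, nat_lit 26053611562, nat_lit 27345227264,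 nat_lit 27843188072, nat_lit 22853335770, nat_lit 23047790065, nat_lit 23826480177, nat_lit 23979374743], nat_lit 1271250, nat_lit 1271250, nat_lit 1271250, nat_lit 1271250, nat_lit 0, nat_lit 1836250, [nat_lit 780000, nat_lit 1100000, nat_lit 2127500], [nat_lit 42, nat_lit 40, nat_lit 40, nat_lit 80, nat_lit 13, nat_lit 289, nat_lit 75, nat_lit 8]⟩,
 ⟨nat_lit 2738, nat_lit 2959, ⟨.ofNat (nat_lit 769170), .ofNat (nat_lit 865203), .ofNat (nat_lit 791446), .ofNat (nat_lit 887481), .ofNat (nat_lit 766852), .ofNat (nat_lit 861350), .ofNat (nat_lit 789269), .ofNat (nat_lit 883768)⟩, ⟨.ofNat (nat_lit 0), .ofNat (nat_lit 141719), .ofNat (nat_lit 0), .ofNat (nat_lit 163996), .ofNat (nat_lit 0), .ofNat (nat_lit 143475), .ofNat (nat_lit 0), .ofNat (nat_lit 165893)⟩⟩, [⟨nat_lit 19, nat_lit 92, nat_lit 100, nat_lit 68, nat_lit 9506513⟩, ⟨nat_lit 22, nat_lit 83, nat_lit 100, nat_lit 83, nat_lit 70496637⟩]⟩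
noncomputable def p120_l36 : Lf2 := ⟨nat_lit 0, nat_lit 15, [nat_lit 30, nat_lit 5, nat_lit 5, nat_lit 20], false, nat_lit 0, nat_lit 80, nat_lit 0, nat_lit 260, ⟨nat_lit 411, nat_lit 589, nat_lit 0, nat_lit 8, nat_lit 323, nat_lit 589, nat_lit 31, nat_lit 0, nat_lit 0, nat_lit 0, nat_lit 0, nat_lit 0, nat_lit 40540813, nat_lit 26459187, nat_lit 0, nat_lit 3354475, true, true⟩,
 nat_lit 0, nat_lit 0, nat_lit 4247, nat_lit 0, nat_lit 3233, nat_lit 2702, nat_lit 190, nat_lit 0, nat_lit 0, nat_lit 448, nat_lit 0, nat_lit 0, nat_lit 0, nat_lit 0, nat_lit 0, nat_lit 147250, nat_lit 0, nat_lit 0, [(nat_lit 25, [(nat_lit 0, nat_lit 589)])],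
 ⟨p120_k19, nat_lit 0, nat_lit 0, nat_lit 164, nat_lit 0, nat_lit 0, [nat_lit 835514000, nat_lit 1442293200, nat_lit 2937256400], [], [nat_lit 28333018773, nat_lit 28921024424, nat_lit 31227143350, nat_lit 31833709046, nat_lit 27180860194, nat_lit 27644599876, nat_lit 29236360749, nat_lit 29651107022], nat_lit 0, nat_lit 0, nat_lit 0, nat_lit 0, nat_lit 0, nat_lit 0, [], [nat_lit 152, nat_lit 40, nat_lit 40, nat_lit 80, nat_lit 33, nat_lit 226, nat_lit 20, nat_lit 8]⟩, ⟨p120_k18, nat_lit 0, nat_lit 0, nat_lit 597, nat_lit 0, nat_lit 934845, [nat_lit 1348902000, nat_lit 1926768000, nat_lit 4045062000], [], [nat_lit 14006794320, nat_lit 14069732217, nat_lit 14491175132, nat_lit 14559897043, nat_lit 12453356565, nat_lit 12506945202, nat_lit 12923287472, nat_lit 12983794271], nat_lit 1271250, nat_lit 1271250, nat_lit 1271250, nat_lit 1271250, nat_lit 0, nat_lit 1836250, [nat_lit 780000, nat_lit 1100000, nat_lit 2127500],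 [nat_lit 42, nat_lit 40, nat_lit 40, nat_lit 80, nat_lit 13, nat_lit 289, nat_lit 75, nat_lit 8]⟩,
 ⟨nat_lit 2236, nat_lit 2739, ⟨.ofNat (nat_lit 766852), .ofNat (nat_lit 843632), .ofNat (nat_lit 778061), .ofNat (nat_lit 854840), .ofNat (nat_lit 762142), .ofNat (nat_lit 836262), .ofNat (nat_lit 773529), .ofNat (nat_lit 847650)⟩, ⟨.ofNat (nat_lit 0), .ofNat (nat_lit 143475), .ofNat (nat_lit 0), .ofNat (nat_lit 165893), .ofNat (nat_lit 0), .ofNat (nat_lit 146758), .ofNat (nat_lit 0), .ofNat (nat_lit 169532)⟩⟩, [⟨nat_lit 10, nat_lit 100, nat_lit 58, nat_lit 64, nat_lit 107490793⟩]⟩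
noncomputable def p120_l37 : Lf2 := ⟨nat_lit 0, nat_lit 15, [nat_lit 30, nat_lit 5, nat_lit 5, nat_lit 20], false, nat_lit 0, nat_lit 80, nat_lit 0, nat_lit 260, ⟨nat_lit 739, nat_lit 261, nat_lit 0, nat_lit 8, nat_lit 330, nat_lit 261, nat_lit 31, nat_lit 0, nat_lit 0, nat_lit 0, nat_lit 0, nat_lit 0, nat_lit 39867183, nat_lit 27132817, nat_lit 0, nat_lit 3374871, true, true⟩,
 nat_lit 0, nat_lit 0, nat_lit 6952, nat_lit 0, nat_lit 3545, nat_lit 4616, nat_lit 364, nat_lit 0, nat_lit 0, nat_lit 816, nat_lit 0, nat_lit 0, nat_lit 0, nat_lit 0, nat_lit 0, nat_lit 65250, nat_lit 0, nat_lit 0, [(nat_lit 25, [(nat_lit 0, nat_lit 261)])],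
 ⟨p120_k19, nat_lit 0, nat_lit 0, nat_lit 166, nat_lit 0, nat_lit 0, [nat_lit 892586000, nat_lit 1770686800, nat_lit 3912203600], [], [nat_lit 28999695630, nat_lit 29730454760, nat_lit 32632690963, nat_lit 33249582235, nat_lit 26586586310, nat_lit 27068033240, nat_lit 29864481168, nat_lit 30458182305], nat_lit 0, nat_lit 0, nat_lit 0, nat_lit 0, nat_lit 0, nat_lit 0, [], [nat_lit 152, nat_lit 40, nat_lit 40, nat_lit 80, nat_lit 33, nat_lit 226, nat_lit 20, nat_lit 8]⟩, ⟨p120_k20, nat_lit 0, nat_lit 0, nat_lit 599, nat_lit 0, nat_lit 942902, [nat_lit 2425398000, nat_lit 3464432000, nat_lit 7273238000], [], [nat_lit 24302893823, nat_lit 24416582282, nat_lit 25806275404, nat_lit 26179341991, nat_lit 21880920921, nat_lit 21964994455, nat_lit 22820708941, nat_lit 22912886189], nat_lit 1271250, nat_lit 1271250, nat_lit 1271250, nat_lit 1271250, nat_lit 0, nat_lit 1836250, [nat_lit 780000, nat_lit 1100000, nat_lit 2127500],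 [nat_lit 42, nat_lit 40, nat_lit 40, nat_lit 80, nat_lit 13, nat_lit 289, nat_lit 75, nat_lit 8]⟩,
 ⟨nat_lit 2236, nat_lit 2739, ⟨.ofNat (nat_lit 778061), .ofNat (nat_lit 866653), .ofNat (nat_lit 789269), .ofNat (nat_lit 877861), .ofNat (nat_lit 773529), .ofNat (nat_lit 859053), .ofNat (nat_lit 784917), .ofNat (nat_lit 870440)⟩, ⟨.ofNat (nat_lit 0), .ofNat (nat_lit 143475), .ofNat (nat_lit 0), .ofNat (nat_lit 165893), .ofNat (nat_lit 0), .ofNat (nat_lit 146758), .ofNat (nat_lit 0), .ofNat (nat_lit 169532)⟩⟩, [⟨nat_lit 7, nat_lit 100, nat_lit 90, nat_lit 68, nat_lit 7240634⟩, ⟨nat_lit 22, nat_lit 83, nat_lit 100, nat_lit 83, nat_lit 85478635⟩]⟩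
noncomputable def p120_l38 : Lf2 := ⟨nat_lit 0, nat_lit 20, [nat_lit 5, nat_lit 5, nat_lit 5, nat_lit 20], false, nat_lit 0, nat_lit 80, nat_lit 0, nat_lit 160, ⟨nat_lit 1000, nat_lit 0, nat_lit 0, nat_lit 0, nat_lit 0, nat_lit 0, nat_lit 0, nat_lit 0, nat_lit 0, nat_lit 0, nat_lit 0, nat_lit 0, nat_lit 0, nat_lit 0, nat_lit 0, nat_lit 0, false, false⟩,
 nat_lit 0, nat_lit 0, nat_lit 9807, nat_lit 0, nat_lit 3650, nat_lit 6240, nat_lit 587, nat_lit 0, nat_lit 0, nat_lit 1230, nat_lit 0, nat_lit 0, nat_lit 0, nat_lit 0, nat_lit 0, nat_lit 0, nat_lit 0, nat_lit 0, [],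
 ⟨p120_k21, nat_lit 0, nat_lit 0, nat_lit 183, nat_lit 0, nat_lit 0, [nat_lit 938000000, nat_lit 2032000001, nat_lit 6250000000], [], [nat_lit 28935698800, nat_lit 29432214000, nat_lit 32581726201, nat_lit 33199151340, nat_lit 27303730800, nat_lit 27774724800, nat_lit 30146145542, nat_lit 30591216213], nat_lit 0, nat_lit 0, nat_lit 0, nat_lit 0, nat_lit 0, nat_lit 0, [], [nat_lit 131, nat_lit 40, nat_lit 40, nat_lit 80, nat_lit 64, nat_lit 226, nat_lit 20, nat_lit 7]⟩, ⟨p120_k22, nat_lit 0, nat_lit 0, nat_lit 562, nat_lit 0, nat_lit 771039, [nat_lit 3282000000, nat_lit 4688000000, nat_lit 11872000000], [], [nat_lit 34395436300, nat_lit 34789099900, nat_lit 36616738380, nat_lit 37080525991, nat_lit 30461115500, nat_lit 30788141750, nat_lit 32098548135, nat_lit 32398953814], nat_lit 1271250, nat_lit 1271250, nat_lit 1271250, nat_lit 1271250, nat_lit 0, nat_lit 1100001, [nat_lit 780000, nat_lit 1100000, nat_lit 2470000],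 [nat_lit 158, nat_lit 40, nat_lit 40, nat_lit 80, nat_lit 65, nat_lit 345, nat_lit 125, nat_lit 8]⟩,
 zbF0, []⟩
noncomputable def p120_l39 : Lf2 := ⟨nat_lit 0, nat_lit 20, [nat_lit 5, nat_lit 5, nat_lit 5, nat_lit 20], false, nat_lit 4, nat_lit 80, nat_lit 0, nat_lit 160, ⟨nat_lit 1000, nat_lit 0, nat_lit 0, nat_lit 0, nat_lit 0, nat_lit 0, nat_lit 0, nat_lit 0, nat_lit 0, nat_lit 0, nat_lit 0, nat_lit 0, nat_lit 0, nat_lit 0, nat_lit 0, nat_lit 0, false, false⟩,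
 nat_lit 0, nat_lit 0, nat_lit 10114, nat_lit 0, nat_lit 3138, nat_lit 6436, nat_lit 653, nat_lit 0, nat_lit 0, nat_lit 1213, nat_lit 0, nat_lit 0, nat_lit 0, nat_lit 0, nat_lit 0, nat_lit 0, nat_lit 0, nat_lit 0, [],
 ⟨p120_k23, nat_lit 0, nat_lit 0, nat_lit 182, nat_lit 0, nat_lit 0, [nat_lit 938000000, nat_lit 2032000001, nat_lit 6250000000], [], [nat_lit 27874847793, nat_lit 28562718686, nat_lit 31319110729, nat_lit 31903165542, nat_lit 26281476144, nat_lit 26717557796, nat_lit 29101384047, nat_lit 29664724002], nat_lit 0, nat_lit 0, nat_lit 0, nat_lit 0, nat_lit 0, nat_lit 0, [], [nat_lit 131, nat_lit 40, nat_lit 40, nat_lit 80, nat_lit 64, nat_lit 226, nat_lit 20, nat_lit 7]⟩, ⟨p120_k22, nat_lit 0, nat_lit 0, nat_lit 656, nat_lit 0, nat_lit 916990, [nat_lit 3282000000, nat_lit 4688000000, nat_lit 11872000000], [], [nat_lit 34635091650, nat_lit 34957037826, nat_lit 36581953370, nat_lit 37138709241, nat_lit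 30809744930, nat_lit 31031355530, nat_lit 32171950993, nat_lit 32452468561], nat_lit 1271250, nat_lit 1271250, nat_lit 1271250, nat_lit 1271250, nat_lit 0, nat_lit 1100001, [nat_lit 780000, nat_lit 1100000, nat_lit 2470000], [nat_lit 158, nat_lit 40, nat_lit 40, nat_lit 80, nat_lit 65, nat_lit 345, nat_lit 125, nat_lit 8]⟩,
 zbF0, []⟩
noncomputable def p120_l40 : Lf2 := ⟨nat_lit 0, nat_lit 20, [nat_lit 5, nat_lit 5, nat_lit 5, nat_lit 20], false, nat_lit 16, nat_lit 80, nat_lit 160, nat_lit 260, ⟨nat_lit 1000, nat_lit 0, nat_lit 0, nat_lit 0, nat_lit 0, nat_lit 0, nat_lit 0, nat_lit 0, nat_lit 0, nat_lit 0, nat_lit 0, nat_lit 0, nat_lit 0, nat_lit 0, nat_lit 0, nat_lit 0, false, false⟩,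
 nat_lit 0, nat_lit 0, nat_lit 12323, nat_lit 0, nat_lit 5127, nat_lit 7841, nat_lit 0, nat_lit 0, nat_lit 0, nat_lit 784, nat_lit 0, nat_lit 0, nat_lit 0, nat_lit 0, nat_lit 0, nat_lit 0, nat_lit 0, nat_lit 0, [],
 ⟨p120_k3, nat_lit 0, nat_lit 0, nat_lit 158, nat_lit 0, nat_lit 0, [nat_lit 938000000, nat_lit 3282000000, nat_lit 6250000000], [], [nat_lit 33375340317, nat_lit 34088618752, nat_lit 37001992394, nat_lit 37604218410, nat_lit 30793046676, nat_lit 31409826005, nat_lit 34213706640, nat_lit 34793518282], nat_lit 0, nat_lit 0, nat_lit 0, nat_lit 0, nat_lit 0, nat_lit 0, [], [nat_lit 20, nat_lit 40, nat_lit 40, nat_lit 80, nat_lit 16, nat_lit 226, nat_lit 20, nat_lit 7]⟩, ⟨p120_k7, nat_lit 0, nat_lit 0, nat_lit 415, nat_lit 0, nat_lit 699546, [nat_lit 3282000000, nat_lit 6250000000, nat_lit 11872000000], [], [nat_lit 28042473036, nat_lit 28304334369, nat_lit 30669535758, nat_lit 31027252002, nat_lit 28484897842,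 nat_lit 28688406304, nat_lit 31395334239, nat_lit 31905539686], nat_lit 1271250, nat_lit 1271250, nat_lit 1271250, nat_lit 1271250, nat_lit 1100001, nat_lit 1956250, [nat_lit 780000, nat_lit 1435000, nat_lit 1271250], [nat_lit 23, nat_lit 40, nat_lit 40, nat_lit 80, nat_lit 12, nat_lit 373, nat_lit 150, nat_lit 8]⟩,
 zbF0, [⟨nat_lit 22, nat_lit 83, nat_lit 100, nat_lit 83, nat_lit 332253197⟩]⟩
noncomputable def p120_l41 : Lf2 := ⟨nat_lit 0, nat_lit 20, [nat_lit 5, nat_lit 5, nat_lit 5, nat_lit 20], false, nat_lit 16, nat_lit 80, nat_lit 160, nat_lit 260, ⟨nat_lit 413, nat_lit 587, nat_lit 0, nat_lit 8, nat_lit 323, nat_lit 587, nat_lit 44, nat_lit 0, nat_lit 0, nat_lit 0, nat_lit 0, nat_lit 0, nat_lit 39764402, nat_lit 26080016, nat_lit 1155582, nat_lit 3839240, true, true⟩,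
 nat_lit 0, nat_lit 0, nat_lit 3976, nat_lit 0, nat_lit 3198, nat_lit 2530, nat_lit 299, nat_lit 0, nat_lit 0, nat_lit 307, nat_lit 0, nat_lit 0, nat_lit 0, nat_lit 0, nat_lit 0, nat_lit 146750, nat_lit 0, nat_lit 0, [(nat_lit 25, [(nat_lit 0, nat_lit 587)])],
 ⟨p120_k9, nat_lit 0, nat_lit 0, nat_lit 159, nat_lit 0, nat_lit 0, [nat_lit 835862000, nat_lit 2158951601, nat_lit 3824516000], [], [nat_lit 27680785006, nat_lit 28370223799, nat_lit 30650566547, nat_lit 31249679944, nat_lit 26231777129, nat_lit 26706245147, nat_lit 28746781776, nat_lit 29327443098], nat_lit 0, nat_lit 0, nat_lit 0, nat_lit 0, nat_lit 0, nat_lit 0, [], [nat_lit 20, nat_lit 40, nat_lit 40, nat_lit 80, nat_lit 16, nat_lit 226, nat_lit 20, nat_lit 7]⟩, ⟨p120_k7, nat_lit 0, nat_lit 0, nat_lit 508, nat_lit 0, nat_lit 849457, [nat_lit 1355466000, nat_lit 2581250000, nat_lit 4903136000], [], [nat_lit 13884892498, nat_lit 13959623009, nat_lit 14476247274,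 nat_lit 14562767058, nat_lit 14077109819, nat_lit 14142178685, nat_lit 14670050885, nat_lit 14744391243], nat_lit 1271250, nat_lit 1271250, nat_lit 1271250, nat_lit 1271250, nat_lit 1100001, nat_lit 1956250, [nat_lit 780000, nat_lit 1435000, nat_lit 1271250], [nat_lit 23, nat_lit 40, nat_lit 40, nat_lit 80, nat_lit 12, nat_lit 373, nat_lit 150, nat_lit 8]⟩,
 ⟨nat_lit 2236, nat_lit 2739, ⟨.ofNat (nat_lit 766852), .ofNat (nat_lit 843632), .ofNat (nat_lit 778061), .ofNat (nat_lit 854840), .ofNat (nat_lit 762142), .ofNat (nat_lit 836262), .ofNat (nat_lit 773529), .ofNat (nat_lit 847650)⟩, ⟨.ofNat (nat_lit 40000), .ofNat (nat_lit 165893), .ofNat (nat_lit 40000), .ofNat (nat_lit 188310), .ofNat (nat_lit 40000), .ofNat (nat_lit 169532), .ofNat (nat_lit 40000), .ofNat (nat_lit 192306)⟩⟩, [⟨nat_lit 22, nat_lit 68, nat_lit 100, nat_lit 76, nat_lit 185703946⟩]⟩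
noncomputable def p120_l42 : Lf2 := ⟨nat_lit 0, nat_lit 20, [nat_lit 5, nat_lit 5, nat_lit 5, nat_lit 20], false, nat_lit 16, nat_lit 80, nat_lit 160, nat_lit 260, ⟨nat_lit 493, nat_lit 507, nat_lit 0, nat_lit 8, nat_lit 332, nat_lit 507, nat_lit 43, nat_lit 0, nat_lit 0, nat_lit 0, nat_lit 0, nat_lit 0, nat_lit 38907496, nat_lit 26968626, nat_lit 1123878, nat_lit 3855182, true, true⟩,
 nat_lit 0, nat_lit 0, nat_lit 5217, nat_lit 0, nat_lit 3526, nat_lit 3464, nat_lit 219, nat_lit 0, nat_lit 0, nat_lit 362, nat_lit 0, nat_lit 0, nat_lit 0, nat_lit 0, nat_lit 0, nat_lit 282000, nat_lit 0, nat_lit 0, [(nat_lit 25, [(nat_lit 1, nat_lit 375), (nat_lit 2, nat_lit 132)])],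
 ⟨p120_k3, nat_lit 0, nat_lit 0, nat_lit 165, nat_lit 0, nat_lit 0, [nat_lit 973062801, nat_lit 1943542801, nat_lit 2909808400], [], [nat_lit 27707256594, nat_lit 29152169501, nat_lit 31675453727, nat_lit 32882323725, nat_lit 26063341622, nat_lit 27036197392, nat_lit 29487277815, nat_lit 30658054768], nat_lit 0, nat_lit 0, nat_lit 0, nat_lit 0, nat_lit 0, nat_lit 0, [], [nat_lit 20, nat_lit 40, nat_lit 40, nat_lit 80, nat_lit 16, nat_lit 226, nat_lit 20, nat_lit 7]⟩, ⟨p120_k8, nat_lit 0, nat_lit 0, nat_lit 511, nat_lit 0, nat_lit 861626, [nat_lit 1618026000, nat_lit 3081250000, nat_lit 5852896000], [], [nat_lit 14904840754, nat_lit 14999120262, nat_lit 15768806145, nat_lit 15844700406, nat_lit 15000899798, nat_lit 15072645518, nat_lit 15900410321, nat_lit 15981280282], nat_lit 1271250, nat_lit 1271250, nat_lit 1271250, nat_lit 1271250, nat_lit 1100001, nat_lit 1956250, [nat_lit 780000, nat_lit 1435000, nat_lit 1271250],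 [nat_lit 23, nat_lit 40, nat_lit 40, nat_lit 80, nat_lit 12, nat_lit 373, nat_lit 150, nat_lit 8]⟩,
 ⟨nat_lit 2236, nat_lit 3163, ⟨.ofNat (nat_lit 782556), .ofNat (nat_lit 880081), .ofNat (nat_lit 793619), .ofNat (nat_lit 891158), .ofNat (nat_lit 773529), .ofNat (nat_lit 864754), .ofNat (nat_lit 784902), .ofNat (nat_lit 876141)⟩, ⟨.ofNat (nat_lit 40000), .ofNat (nat_lit 162054), .ofNat (nat_lit 40000), .ofNat (nat_lit 184209), .ofNat (nat_lit 40000), .ofNat (nat_lit 169532), .ofNat (nat_lit 40000), .ofNat (nat_lit 192306)⟩⟩, [⟨nat_lit 22, nat_lit 65, nat_lit 100, nat_lit 79, nat_lit 160029261⟩, ⟨nat_lit 22, nat_lit 83, nat_lit 100, nat_lit 83, nat_lit 36189581⟩]⟩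
noncomputable def p120_l43 : Lf2 := ⟨nat_lit 0, nat_lit 15, [nat_lit 30, nat_lit 5, nat_lit 5, nat_lit 20], false, nat_lit 0, nat_lit 80, nat_lit 0, nat_lit 260, ⟨nat_lit 101, nat_lit 899, nat_lit 0, nat_lit 8, nat_lit 317, nat_lit 899, nat_lit 32, nat_lit 0, nat_lit 0, nat_lit 0, nat_lit 0, nat_lit 0, nat_lit 41120205, nat_lit 25879795, nat_lit 0, nat_lit 3335240, true, true⟩,
 nat_lit 0, nat_lit 0, nat_lit 1275, nat_lit 0, nat_lit 2650, nat_lit 811, nat_lit 0, nat_lit 0, nat_lit 0, nat_lit 58, nat_lit 0, nat_lit 0, nat_lit 0, nat_lit 0, nat_lit 0, nat_lit 253400, nat_lit 0, nat_lit 0, [(nat_lit 28, [(nat_lit 0, nat_lit 708), (nat_lit 1, nat_lit 191)])],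
 ⟨p120_k15, nat_lit 0, nat_lit 0, nat_lit 164, nat_lit 0, nat_lit 0, [nat_lit 781352401, nat_lit 1134086800, nat_lit 1485720800], [], [nat_lit 27883767403, nat_lit 28365345503, nat_lit 29474858503, nat_lit 30031256550, nat_lit 27272952003, nat_lit 27728254803, nat_lit 28784689803, nat_lit 29204421103], nat_lit 0, nat_lit 0, nat_lit 0, nat_lit 0, nat_lit 0, nat_lit 0, [], [nat_lit 35, nat_lit 40, nat_lit 40, nat_lit 80, nat_lit 22, nat_lit 226, nat_lit 20, nat_lit 8]⟩, ⟨p120_k11, nat_lit 0, nat_lit 0, nat_lit 657, nat_lit 0, nat_lit 1093678, [nat_lit 331482000, nat_lit 631250000, nat_lit 994042000], [], [nat_lit 3613377924, nat_lit 3628965213, nat_lit 3750759848, nat_lit 3784251812, nat_lit 3057589265, nat_lit 3068877169, nat_lit 3130162895, nat_lit 3140882992], nat_lit 1271250, nat_lit 1271250, nat_lit 1271250, nat_lit 1271250, nat_lit 0, nat_lit 1836250, [nat_lit 780000, nat_lit 1435000, nat_lit 1271250], [nat_lit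 8, nat_lit 40, nat_lit 40, nat_lit 80, nat_lit 1, nat_lit 289, nat_lit 75, nat_lit 8]⟩,
 ⟨nat_lit 1581, nat_lit 2237, ⟨.ofNat (nat_lit 762142), .ofNat (nat_lit 819158), .ofNat (nat_lit 773529), .ofNat (nat_lit 830545), .ofNat (nat_lit 757166), .ofNat (nat_lit 811802), .ofNat (nat_lit 768823), .ofNat (nat_lit 823459)⟩, ⟨.ofNat (nat_lit 0), .ofNat (nat_lit 146758), .ofNat (nat_lit 0), .ofNat (nat_lit 169532), .ofNat (nat_lit 0), .ofNat (nat_lit 149571), .ofNat (nat_lit 0), .ofNat (nat_lit 172886)⟩⟩, [⟨nat_lit 13, nat_lit 42, nat_lit 75, nat_lit 100, nat_lit 331515062⟩, ⟨nat_lit 22, nat_lit 72, nat_lit 100, nat_lit 61, nat_lit 10521471⟩]⟩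
noncomputable def p120_l44 : Lf2 := ⟨nat_lit 0, nat_lit 15, [nat_lit 30, nat_lit 5, nat_lit 5, nat_lit 20], false, nat_lit 0, nat_lit 80, nat_lit 0, nat_lit 260, ⟨nat_lit 130, nat_lit 870, nat_lit 0, nat_lit 8, nat_lit 324, nat_lit 870, nat_lit 32, nat_lit 0, nat_lit 0, nat_lit 0, nat_lit 0, nat_lit 0, nat_lit 40439366, nat_lit 26560634, nat_lit 0, nat_lit 3357681, true, true⟩,
 nat_lit 0, nat_lit 0, nat_lit 1416, nat_lit 0, nat_lit 2617, nat_lit 940, nat_lit 0, nat_lit 0, nat_lit 0, nat_lit 81, nat_lit 0, nat_lit 0, nat_lit 0, nat_lit 0, nat_lit 0, nat_lit 275850, nat_lit 0, nat_lit 0, [(nat_lit 28, [(nat_lit 0, nat_lit 481), (nat_lit 1, nat_lit 389)])],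
 ⟨p120_k15, nat_lit 0, nat_lit 0, nat_lit 166, nat_lit 0, nat_lit 0, [nat_lit 769256001, nat_lit 1056133201, nat_lit 1348354800], [], [nat_lit 27677390912, nat_lit 28156716630, nat_lit 29794836241, nat_lit 30357474376, nat_lit 27088690660, nat_lit 27541923964, nat_lit 28915278943, nat_lit 29326244735], nat_lit 0, nat_lit 0, nat_lit 0, nat_lit 0, nat_lit 0, nat_lit 0, [], [nat_lit 35, nat_lit 40, nat_lit 40, nat_lit 80, nat_lit 22, nat_lit 226, nat_lit 20, nat_lit 8]⟩, ⟨p120_k24, nat_lit 0, nat_lit 0, nat_lit 654, nat_lit 0, nat_lit 1088439, [nat_lit 426660000, nat_lit 812500000, nat_lit 1279460000], [], [nat_lit 4657518550, nat_lit 4677988430, nat_lit 4800147986, nat_lit 4817177680, nat_lit 4068973588, nat_lit 4084299215, nat_lit 4201400239, nat_lit 4217551292], nat_lit 1271250, nat_lit 1271250, nat_lit 1271250, nat_lit 1271250, nat_lit 0, nat_lit 1836250, [nat_lit 780000, nat_lit 1435000, nat_lit 1271250], [nat_lit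 8, nat_lit 40, nat_lit 40, nat_lit 80, nat_lit 1, nat_lit 289, nat_lit 75, nat_lit 8]⟩,
 ⟨nat_lit 1581, nat_lit 2237, ⟨.ofNat (nat_lit 773529), .ofNat (nat_lit 841948), .ofNat (nat_lit 784917), .ofNat (nat_lit 853335), .ofNat (nat_lit 768823), .ofNat (nat_lit 834386), .ofNat (nat_lit 780481), .ofNat (nat_lit 846044)⟩, ⟨.ofNat (nat_lit 0), .ofNat (nat_lit 146758), .ofNat (nat_lit 0), .ofNat (nat_lit 169532), .ofNat (nat_lit 0), .ofNat (nat_lit 149571), .ofNat (nat_lit 0), .ofNat (nat_lit 172886)⟩⟩, [⟨nat_lit 13, nat_lit 43, nat_lit 72, nat_lit 100, nat_lit 305785769⟩, ⟨nat_lit 22, nat_lit 70, nat_lit 100, nat_lit 61, nat_lit 25090558⟩]⟩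
noncomputable def p120_l45 : Lf2 := ⟨nat_lit 0, nat_lit 20, [nat_lit 5, nat_lit 5, nat_lit 5, nat_lit 20], false, nat_lit 8, nat_lit 40, nat_lit 0, nat_lit 200, ⟨nat_lit 138, nat_lit 862, nat_lit 0, nat_lit 8, nat_lit 317, nat_lit 862, nat_lit 24, nat_lit 0, nat_lit 0, nat_lit 0, nat_lit 0, nat_lit 0, nat_lit 40793389, nat_lit 25731633, nat_lit 474978, nat_lit 3576477, true, true⟩,
 nat_lit 0, nat_lit 0, nat_lit 1639, nat_lit 0, nat_lit 2207, nat_lit 1042, nat_lit 85, nat_lit 0, nat_lit 0, nat_lit 96, nat_lit 0, nat_lit 0, nat_lit 0, nat_lit 0, nat_lit 0, nat_lit 344800, nat_lit 0, nat_lit 0, [(nat_lit 28, [(nat_lit 1, nat_lit 862)])],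
 ⟨p120_k5, nat_lit 0, nat_lit 0, nat_lit 166, nat_lit 0, nat_lit 0, [nat_lit 730775200, nat_lit 732893600, nat_lit 981456000], [], [nat_lit 26613686194, nat_lit 27080782181, nat_lit 28167624344, nat_lit 28597917716, nat_lit 26422894531, nat_lit 26880460017, nat_lit 27948400641, nat_lit 28398414656], nat_lit 0, nat_lit 0, nat_lit 0, nat_lit 0, nat_lit 0, nat_lit 0, [], [nat_lit 20, nat_lit 40, nat_lit 40, nat_lit 80, nat_lit 16, nat_lit 215, nat_lit 10, nat_lit 7]⟩, ⟨p120_k7, nat_lit 0, nat_lit 0, nat_lit 688, nat_lit 0, nat_lit 1005538, [nat_lit 452916000, nat_lit 862500000, nat_lit 1638336000], [], [nat_lit 5115392136, nat_lit 5139266710, nat_lit 5252898432, nat_lit 5272911518, nat_lit 4447932892, nat_lit 4467640163, nat_lit 4583063712, nat_lit 4604339220], nat_lit 1271250, nat_lit 1271250, nat_lit 1271250, nat_lit 1271250, nat_lit 0, nat_lit 1412500, [nat_lit 780000, nat_lit 1435000, nat_lit 1271250], [nat_lit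 23, nat_lit 40, nat_lit 40, nat_lit 80, nat_lit 12, nat_lit 345, nat_lit 125, nat_lit 8]⟩,
 ⟨nat_lit 1581, nat_lit 2237, ⟨.ofNat (nat_lit 762142), .ofNat (nat_lit 819158), .ofNat (nat_lit 773529), .ofNat (nat_lit 830545), .ofNat (nat_lit 757166), .ofNat (nat_lit 811802), .ofNat (nat_lit 768823), .ofNat (nat_lit 823459)⟩, ⟨.ofNat (nat_lit 20000), .ofNat (nat_lit 100000), .ofNat (nat_lit 20000), .ofNat (nat_lit 100000), .ofNat (nat_lit 20000), .ofNat (nat_lit 100000), .ofNat (nat_lit 20000), .ofNat (nat_lit 100000)⟩⟩, [⟨nat_lit 13, nat_lit 42, nat_lit 75, nat_lit 100, nat_lit 330860226⟩, ⟨nat_lit 3, nat_lit 100, nat_lit 50, nat_lit 60, nat_lit 132221413⟩, ⟨nat_lit 22, nat_lit 74, nat_lit 100, nat_lit 49, nat_lit 12818447⟩]⟩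
noncomputable def p120_l46 : Lf2 := ⟨nat_lit 0, nat_lit 20, [nat_lit 5, nat_lit 5, nat_lit 5, nat_lit 20], false, nat_lit 40, nat_lit 80, nat_lit 0, nat_lit 260, ⟨nat_lit 127, nat_lit 873, nat_lit 0, nat_lit 8, nat_lit 317, nat_lit 873, nat_lit 57, nat_lit 0, nat_lit 0, nat_lit 0, nat_lit 0, nat_lit 0, nat_lit 39954250, nat_lit 25342097, nat_lit 1703653, nat_lit 3984584, true, true⟩,
 nat_lit 0, nat_lit 0, nat_lit 1575, nat_lit 0, nat_lit 2461, nat_lit 1002, nat_lit 38, nat_lit 0, nat_lit 0, nat_lit 83, nat_lit 0, nat_lit 0, nat_lit 0, nat_lit 0, nat_lit 0, nat_lit 349200, nat_lit 0, nat_lit 0, [(nat_lit 28, [(nat_lit 1, nat_lit 873)])],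
 ⟨p120_k5, nat_lit 0, nat_lit 0, nat_lit 145, nat_lit 0, nat_lit 0, [nat_lit 728130800, nat_lit 700364400, nat_lit 914224000], [], [nat_lit 26655182788, nat_lit 27130324566, nat_lit 28227356318, nat_lit 28666426371, nat_lit 26323156694, nat_lit 26785694974, nat_lit 27857974074, nat_lit 28284055626], nat_lit 0, nat_lit 0, nat_lit 0, nat_lit 0, nat_lit 0, nat_lit 0, [], [nat_lit 20, nat_lit 40, nat_lit 40, nat_lit 80, nat_lit 16, nat_lit 226, nat_lit 20, nat_lit 7]⟩, ⟨p120_k7, nat_lit 0, nat_lit 0, nat_lit 688, nat_lit 0, nat_lit 1005538, [nat_lit 416814000, nat_lit 793750000, nat_lit 1507744000], [], [nat_lit 4688526322, nat_lit 4725573632, nat_lit 4896263538, nat_lit 4927417954, nat_lit 3920944558, nat_lit 3932674819, nat_lit 4021642047, nat_lit 4037500807], nat_lit 1271250, nat_lit 1271250, nat_lit 1271250, nat_lit 1271250, nat_lit 0, nat_lit 1836250, [nat_lit 780000, nat_lit 1435000, nat_lit 1271250], [nat_lit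 23, nat_lit 40, nat_lit 40, nat_lit 80, nat_lit 12, nat_lit 373, nat_lit 150, nat_lit 9]⟩,
 ⟨nat_lit 1581, nat_lit 2237, ⟨.ofNat (nat_lit 762142), .ofNat (nat_lit 819158), .ofNat (nat_lit 773529), .ofNat (nat_lit 830545), .ofNat (nat_lit 757166), .ofNat (nat_lit 811802), .ofNat (nat_lit 768823), .ofNat (nat_lit 823459)⟩, ⟨.ofNat (nat_lit 100000), .ofNat (nat_lit 169532), .ofNat (nat_lit 100000), .ofNat (nat_lit 192306), .ofNat (nat_lit 100000), .ofNat (nat_lit 172886), .ofNat (nat_lit 100000), .ofNat (nat_lit 196201)⟩⟩, [⟨nat_lit 13, nat_lit 42, nat_lit 75, nat_lit 100, nat_lit 355573052⟩, ⟨nat_lit 22, nat_lit 71, nat_lit 100, nat_lit 71, nat_lit 9250282⟩]⟩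
noncomputable def p120_l47 : Lf2 := ⟨nat_lit 0, nat_lit 20, [nat_lit 5, nat_lit 5, nat_lit 5, nat_lit 20], false, nat_lit 8, nat_lit 80, nat_lit 0, nat_lit 260, ⟨nat_lit 325, nat_lit 675, nat_lit 0, nat_lit 8, nat_lit 325, nat_lit 675, nat_lit 40, nat_lit 0, nat_lit 0, nat_lit 0, nat_lit 0, nat_lit 0, nat_lit 39696563, nat_lit 26282684, nat_lit 1020753, nat_lit 3800284, true, true⟩,
 nat_lit 0, nat_lit 0, nat_lit 3399, nat_lit 0, nat_lit 2310, nat_lit 2257, nat_lit 168, nat_lit 0, nat_lit 0, nat_lit 236, nat_lit 0, nat_lit 0, nat_lit 0, nat_lit 0, nat_lit 0, nat_lit 270000, nat_lit 0, nat_lit 0, [(nat_lit 28, [(nat_lit 1, nat_lit 675)])],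
 ⟨p120_k5, nat_lit 0, nat_lit 0, nat_lit 168, nat_lit 0, nat_lit 0, [nat_lit 775730000, nat_lit 1285890000, nat_lit 2124400000], [], [nat_lit 26901220772, nat_lit 27138444444, nat_lit 28808939943, nat_lit 29023476737, nat_lit 26403665240, nat_lit 26629915140, nat_lit 28231954173, nat_lit 28437237931], nat_lit 0, nat_lit 0, nat_lit 0, nat_lit 0, nat_lit 0, nat_lit 0, [], [nat_lit 20, nat_lit 40, nat_lit 40, nat_lit 80, nat_lit 16, nat_lit 226, nat_lit 20, nat_lit 7]⟩, ⟨p120_k8, nat_lit 0, nat_lit 0, nat_lit 661, nat_lit 0, nat_lit 932255, [nat_lit 1066650000, nat_lit 2031250000, nat_lit 3858400000], [], [nat_lit 11732183775, nat_lit 11788842510, nat_lit 12114672731, nat_lit 12161098956, nat_lit 10464385729, nat_lit 10514571570, nat_lit 10805672691, nat_lit 10846708756], nat_lit 1271250, nat_lit 1271250, nat_lit 1271250, nat_lit 1271250, nat_lit 0, nat_lit 1836250, [nat_lit 780000, nat_lit 1435000, nat_lit 1271250],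 [nat_lit 23, nat_lit 40, nat_lit 40, nat_lit 80, nat_lit 12, nat_lit 373, nat_lit 150, nat_lit 9]⟩,
 ⟨nat_lit 1936, nat_lit 2237, ⟨.ofNat (nat_lit 773529), .ofNat (nat_lit 841948), .ofNat (nat_lit 784917), .ofNat (nat_lit 853335), .ofNat (nat_lit 771215), .ofNat (nat_lit 838282), .ofNat (nat_lit 782720), .ofNat (nat_lit 849787)⟩, ⟨.ofNat (nat_lit 20000), .ofNat (nat_lit 169532), .ofNat (nat_lit 20000), .ofNat (nat_lit 192306), .ofNat (nat_lit 20000), .ofNat (nat_lit 171255), .ofNat (nat_lit 20000), .ofNat (nat_lit 194266)⟩⟩, [⟨nat_lit 13, nat_lit 46, nat_lit 69, nat_lit 100, nat_lit 78795230⟩, ⟨nat_lit 10, nat_lit 100, nat_lit 55, nat_lit 67, nat_lit 82101716⟩]⟩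
noncomputable def p120_l48 : Lf2 := ⟨nat_lit 0, nat_lit 20, [nat_lit 5, nat_lit 5, nat_lit 5, nat_lit 20], false, nat_lit 16, nat_lit 80, nat_lit 0, nat_lit 260, ⟨nat_lit 178, nat_lit 822, nat_lit 0, nat_lit 8, nat_lit 321, nat_lit 822, nat_lit 45, nat_lit 0, nat_lit 0, nat_lit 0, nat_lit 0, nat_lit 0, nat_lit 39908503, nat_lit 25896068, nat_lit 1195429, nat_lit 3846402, true, true⟩,
 nat_lit 0, nat_lit 0, nat_lit 1873, nat_lit 0, nat_lit 2173, nat_lit 1243, nat_lit 64, nat_lit 0, nat_lit 0, nat_lit 131, nat_lit 0, nat_lit 0, nat_lit 0, nat_lit 0, nat_lit 0, nat_lit 328800, nat_lit 0, nat_lit 0, [(nat_lit 28, [(nat_lit 1, nat_lit 822)])],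
 ⟨p120_k16, nat_lit 0, nat_lit 0, nat_lit 149, nat_lit 0, nat_lit 0, [nat_lit 740391201, nat_lit 851181600, nat_lit 996891200], [], [nat_lit 26539909030, nat_lit 26782634057, nat_lit 28139174717, nat_lit 28365315182, nat_lit 26235730405, nat_lit 26453250816, nat_lit 27715560768, nat_lit 27930721994], nat_lit 0, nat_lit 0, nat_lit 0, nat_lit 0, nat_lit 0, nat_lit 0, [], [nat_lit 35, nat_lit 40, nat_lit 40, nat_lit 80, nat_lit 22, nat_lit 226, nat_lit 20, nat_lit 8]⟩, ⟨p120_k8, nat_lit 0, nat_lit 0, nat_lit 686, nat_lit 0, nat_lit 1004392, [nat_lit 584196000, nat_lit 1112500000, nat_lit 2113216000], [], [nat_lit 6373618710, nat_lit 6404635209, nat_lit 6543597866, nat_lit 6569939925, nat_lit 5688945031, nat_lit 5716405212, nat_lit 5840440279, nat_lit 5863720629], nat_lit 1271250, nat_lit 1271250, nat_lit 1271250, nat_lit 1271250, nat_lit 0, nat_lit 1836250, [nat_lit 780000, nat_lit 1435000, nat_lit 1271250], [nat_lit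 23, nat_lit 40, nat_lit 40, nat_lit 80, nat_lit 12, nat_lit 373, nat_lit 150, nat_lit 9]⟩,
 ⟨nat_lit 1581, nat_lit 1937, ⟨.ofNat (nat_lit 771215), .ofNat (nat_lit 827104), .ofNat (nat_lit 782720), .ofNat (nat_lit 838609), .ofNat (nat_lit 768823), .ofNat (nat_lit 823459), .ofNat (nat_lit 780481), .ofNat (nat_lit 835117)⟩, ⟨.ofNat (nat_lit 40000), .ofNat (nat_lit 171255), .ofNat (nat_lit 40000), .ofNat (nat_lit 194266), .ofNat (nat_lit 40000), .ofNat (nat_lit 172886), .ofNat (nat_lit 40000), .ofNat (nat_lit 196201)⟩⟩, [⟨nat_lit 13, nat_lit 35, nat_lit 79, nat_lit 100, nat_lit 352747327⟩, ⟨nat_lit 3, nat_lit 100, nat_lit 46, nat_lit 64, nat_lit 24546170⟩, ⟨nat_lit 22, nat_lit 76, nat_lit 100, nat_lit 43, nat_lit 51321638⟩]⟩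
noncomputable def p120_l49 : Lf2 := ⟨nat_lit 0, nat_lit 20, [nat_lit 5, nat_lit 5, nat_lit 5, nat_lit 20], false, nat_lit 8, nat_lit 40, nat_lit 0, nat_lit 200, ⟨nat_lit 84, nat_lit 916, nat_lit 0, nat_lit 8, nat_lit 310, nat_lit 916, nat_lit 24, nat_lit 0, nat_lit 0, nat_lit 0, nat_lit 0, nat_lit 0, nat_lit 41512337, nat_lit 25015247, nat_lit 472416, nat_lit 3549420, true, true⟩,
 nat_lit 0, nat_lit 0, nat_lit 1095, nat_lit 0, nat_lit 2382, nat_lit 696, nat_lit 78, nat_lit 0, nat_lit 0, nat_lit 57, nat_lit 0, nat_lit 0, nat_lit 0, nat_lit 0, nat_lit 0, nat_lit 229000, nat_lit 0, nat_lit 0, [(nat_lit 28, [(nat_lit 0, nat_lit 916)])],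
 ⟨p120_k14, nat_lit 0, nat_lit 0, nat_lit 157, nat_lit 0, nat_lit 0, [nat_lit 794737601, nat_lit 1233824001, nat_lit 1654574400], [], [nat_lit 27380717198, nat_lit 27857545302, nat_lit 28329342098, nat_lit 28899772377, nat_lit 27164713878, nat_lit 27625745337, nat_lit 28063570606, nat_lit 28532379436], nat_lit 0, nat_lit 0, nat_lit 0, nat_lit 0, nat_lit 0, nat_lit 0, [], [nat_lit 35, nat_lit 40, nat_lit 40, nat_lit 80, nat_lit 22, nat_lit 215, nat_lit 10, nat_lit 8]⟩, ⟨p120_k7, nat_lit 0, nat_lit 0, nat_lit 877, nat_lit 0, nat_lit 1450788, [nat_lit 275688000, nat_lit 525000000, nat_lit 997248000], [], [nat_lit 3040559598, nat_lit 3065329110, nat_lit 3124690619, nat_lit 3149715200, nat_lit 2598722520, nat_lit 2604956130, nat_lit 2625561025, nat_lit 2630824737], nat_lit 1271250, nat_lit 1271250, nat_lit 1271250, nat_lit 1271250, nat_lit 0, nat_lit 1412500, [nat_lit 780000, nat_lit 1435000, nat_lit 1271250], [nat_lit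 23, nat_lit 40, nat_lit 40, nat_lit 80, nat_lit 12, nat_lit 345, nat_lit 125, nat_lit 8]⟩,
 ⟨nat_lit 0, nat_lit 1582, ⟨.ofNat (nat_lit 757165), .ofNat (nat_lit 789945), .ofNat (nat_lit 768823), .ofNat (nat_lit 801603), .ofNat (nat_lit 749998), .ofNat (nat_lit 779997), .ofNat (nat_lit 762499), .ofNat (nat_lit 792497)⟩, ⟨.ofNat (nat_lit 20000), .ofNat (nat_lit 94935), .ofNat (nat_lit 20000), .ofNat (nat_lit 100000), .ofNat (nat_lit 20000), .ofNat (nat_lit 99999), .ofNat (nat_lit 20000), .ofNat (nat_lit 100000)⟩⟩, [⟨nat_lit 13, nat_lit 35, nat_lit 79, nat_lit 100, nat_lit 450720734⟩, ⟨nat_lit 3, nat_lit 100, nat_lit 52, nat_lit 53, nat_lit 168919267⟩]⟩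
noncomputable def p120_l50 : Lf2 := ⟨nat_lit 0, nat_lit 20, [nat_lit 5, nat_lit 5, nat_lit 5, nat_lit 20], false, nat_lit 8, nat_lit 40, nat_lit 0, nat_lit 200, ⟨nat_lit 103, nat_lit 897, nat_lit 0, nat_lit 8, nat_lit 317, nat_lit 897, nat_lit 24, nat_lit 0, nat_lit 0, nat_lit 0, nat_lit 0, nat_lit 0, nat_lit 40826153, nat_lit 25706153, nat_lit 467694, nat_lit 3572531, true, true⟩,
 nat_lit 0, nat_lit 0, nat_lit 1158, nat_lit 0, nat_lit 2365, nat_lit 769, nat_lit 85, nat_lit 0, nat_lit 0, nat_lit 72, nat_lit 0, nat_lit 0, nat_lit 0, nat_lit 0, nat_lit 0, nat_lit 224250, nat_lit 0, nat_lit 0, [(nat_lit 28, [(nat_lit 0, nat_lit 897)])],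
 ⟨p120_k14, nat_lit 0, nat_lit 0, nat_lit 161, nat_lit 0, nat_lit 0, [nat_lit 797709201, nat_lit 1276308001, nat_lit 1717494800], [], [nat_lit 27391792710, nat_lit 27865513644, nat_lit 28661790636, nat_lit 29221122465, nat_lit 27180602016, nat_lit 27640484708, nat_lit 28393256356, nat_lit 28855990885], nat_lit 0, nat_lit 0, nat_lit 0, nat_lit 0, nat_lit 0, nat_lit 0, [], [nat_lit 35, nat_lit 40, nat_lit 40, nat_lit 80, nat_lit 22, nat_lit 215, nat_lit 10, nat_lit 8]⟩, ⟨p120_k8, nat_lit 0, nat_lit 0, nat_lit 864, nat_lit 0, nat_lit 1419729, [nat_lit 338046000, nat_lit 643750000, nat_lit 1222816000], [], [nat_lit 3728682905, nat_lit 3741829290, nat_lit 3791702952, nat_lit 3822092630, nat_lit 3287996700, nat_lit 3296509612, nat_lit 3331485767, nat_lit 3338541338], nat_lit 1271250, nat_lit 1271250, nat_lit 1271250, nat_lit 1271250, nat_lit 0, nat_lit 1412500, [nat_lit 780000, nat_lit 1435000, nat_lit 1271250], [nat_lit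 23, nat_lit 40, nat_lit 40, nat_lit 80, nat_lit 12, nat_lit 345, nat_lit 125, nat_lit 8]⟩,
 ⟨nat_lit 0, nat_lit 1582, ⟨.ofNat (nat_lit 768823), .ofNat (nat_lit 812530), .ofNat (nat_lit 780481), .ofNat (nat_lit 824188), .ofNat (nat_lit 762499), .ofNat (nat_lit 802497), .ofNat (nat_lit 774999), .ofNat (nat_lit 814997)⟩, ⟨.ofNat (nat_lit 20000), .ofNat (nat_lit 94935), .ofNat (nat_lit 20000), .ofNat (nat_lit 100000), .ofNat (nat_lit 20000), .ofNat (nat_lit 99999), .ofNat (nat_lit 20000), .ofNat (nat_lit 100000)⟩⟩, [⟨nat_lit 13, nat_lit 36, nat_lit 77, nat_lit 100, nat_lit 409791613⟩, ⟨nat_lit 3, nat_lit 100, nat_lit 52, nat_lit 53, nat_lit 143085196⟩, ⟨nat_lit 22, nat_lit 76, nat_lit 100, nat_lit 49, nat_lit 12443461⟩]⟩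
noncomputable def p120_l51 : Lf2 := ⟨nat_lit 0, nat_lit 20, [nat_lit 5, nat_lit 5, nat_lit 5, nat_lit 20], false, nat_lit 40, nat_lit 80, nat_lit 0, nat_lit 260, ⟨nat_lit 87, nat_lit 913, nat_lit 0, nat_lit 8, nat_lit 315, nat_lit 913, nat_lit 55, nat_lit 0, nat_lit 0, nat_lit 0, nat_lit 0, nat_lit 0, nat_lit 40270338, nat_lit 25108605, nat_lit 1621057, nat_lit 3952024, true, true⟩,
 nat_lit 0, nat_lit 0, nat_lit 1116, nat_lit 0, nat_lit 2469, nat_lit 709, nat_lit 81, nat_lit 0, nat_lit 0, nat_lit 55, nat_lit 0, nat_lit 0, nat_lit 0, nat_lit 0, nat_lit 0, nat_lit 228250, nat_lit 0, nat_lit 0, [(nat_lit 28, [(nat_lit 0, nat_lit 913)])],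
 ⟨p120_k14, nat_lit 0, nat_lit 0, nat_lit 133, nat_lit 0, nat_lit 0, [nat_lit 795206801, nat_lit 1240532001, nat_lit 1664509200], [], [nat_lit 27025260416, nat_lit 27522523672, nat_lit 28313663957, nat_lit 28867258030, nat_lit 26724469620, nat_lit 27178695386, nat_lit 27938204737, nat_lit 28394863186], nat_lit 0, nat_lit 0, nat_lit 0, nat_lit 0, nat_lit 0, nat_lit 0, [], [nat_lit 35, nat_lit 40, nat_lit 40, nat_lit 80, nat_lit 22, nat_lit 226, nat_lit 20, nat_lit 8]⟩, ⟨p120_k7, nat_lit 0, nat_lit 0, nat_lit 898, nat_lit 0, nat_lit 1511242, [nat_lit 285534000, nat_lit 543750000, nat_lit 1032864000], [], [nat_lit 3233757726, nat_lit 3284876500, nat_lit 3349135144, nat_lit 3393617464, nat_lit 2753503421, nat_lit 2763069846, nat_lit 2784248280, nat_lit 2791387338], nat_lit 1271250, nat_lit 1271250, nat_lit 1271250, nat_lit 1271250, nat_lit 0, nat_lit 1836250, [nat_lit 780000, nat_lit 1435000, nat_lit 1271250], [nat_lit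 23, nat_lit 40, nat_lit 40, nat_lit 80, nat_lit 12, nat_lit 373, nat_lit 150, nat_lit 9]⟩,
 ⟨nat_lit 0, nat_lit 1582, ⟨.ofNat (nat_lit 757165), .ofNat (nat_lit 800872), .ofNat (nat_lit 780481), .ofNat (nat_lit 824188), .ofNat (nat_lit 749998), .ofNat (nat_lit 789996), .ofNat (nat_lit 774999), .ofNat (nat_lit 814997)⟩, ⟨.ofNat (nat_lit 94935), .ofNat (nat_lit 149570), .ofNat (nat_lit 100000), .ofNat (nat_lit 196201), .ofNat (nat_lit 99999), .ofNat (nat_lit 149998), .ofNat (nat_lit 100000), .ofNat (nat_lit 199999)⟩⟩, [⟨nat_lit 13, nat_lit 36, nat_lit 77, nat_lit 100, nat_lit 471415783⟩, ⟨nat_lit 22, nat_lit 73, nat_lit 100, nat_lit 71, nat_lit 5535962⟩]⟩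
noncomputable def b_V_900_700_10_16 : St := ⟨true, nat_lit 0, nat_lit 1, nat_lit 1, nat_lit 80, nat_lit 360, nat_lit 400, nat_lit 280, nat_lit 300, nat_lit 320, nat_lit 392, nat_lit 40, nat_lit 80, nat_lit 0, nat_lit 80, nat_lit 0, nat_lit 260, nat_lit 80, nat_lit 120, nat_lit 0, nat_lit 0, nat_lit 0, nat_lit 0⟩
theorem d_V_900_700_10_16 (h : EB TB.env) : Dead b_V_900_700_10_16 := chkB_sound0 h (T :=
(.trX (nat_lit 13) (nat_lit 69) (nat_lit 45) (nat_lit 100) (nat_lit 384) (.spl (nat_lit 0) (nat_lit 380)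
(.spl (nat_lit 3) (nat_lit 60)
(.spl (nat_lit 0) (nat_lit 370)
(.spl (nat_lit 0) (nat_lit 365)
(.leaf p120_l34)
(.leaf p120_l35))
(.trX (nat_lit 13) (nat_lit 61) (nat_lit 55) (nat_lit 100) (nat_lit 380) (.spl (nat_lit 1) (nat_lit 290)
(.trX (nat_lit 13) (nat_lit 59) (nat_lit 58) (nat_lit 100) (nat_lit 372) (.leaf p120_l36))
(.leaf p120_l37))))
(.spl (nat_lit 5) (nat_lit 160)
(.spl (nat_lit 0) (nat_lit 370)
(.leaf p120_l38)
(.trX (nat_lit 13) (nat_lit 61) (nat_lit 55) (nat_lit 100) (nat_lit 380) (.trZ (nat_lit 3) (nat_lit 100) (nat_lit 74) (nat_lit 33) (nat_lit 4) (.leaf p120_l39))))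
(.trZ (nat_lit 22) (nat_lit 82) (nat_lit 100) (nat_lit 44) (nat_lit 16) (.spl (nat_lit 1) (nat_lit 290)
(.trX (nat_lit 13) (nat_lit 67) (nat_lit 50) (nat_lit 100) (nat_lit 380) (.spl (nat_lit 0) (nat_lit 370)
(.leaf p120_l40)
(.trX (nat_lit 13) (nat_lit 59) (nat_lit 58) (nat_lit 100) (nat_lit 372) (.leaf p120_l41))))
(.leaf p120_l42)))))
(.trX (nat_lit 13) (nat_lit 50) (nat_lit 65) (nat_lit 100) (nat_lit 368) (.spl (nat_lit 0) (nat_lit 390)
(.spl (nat_lit 3) (nat_lit 60)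
(.spl (nat_lit 1) (nat_lit 290)
(.trX (nat_lit 13) (nat_lit 49) (nat_lit 68) (nat_lit 100) (nat_lit 360) (.leaf p120_l43))
(.leaf p120_l44))
(.trZ (nat_lit 3) (nat_lit 100) (nat_lit 61) (nat_lit 47) (nat_lit 8) (.spl (nat_lit 1) (nat_lit 290)
(.trX (nat_lit 13) (nat_lit 49) (nat_lit 68) (nat_lit 100) (nat_lit 360) (.spl (nat_lit 4) (nat_lit 40)
(.trX (nat_lit 22) (nat_lit 80) (nat_lit 100) (nat_lit 60) (nat_lit 200) (.leaf p120_l45))
(.leaf p120_l46)))
(.spl (nat_lit 0) (nat_lit 385)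
(.leaf p120_l47)
(.trX (nat_lit 13) (nat_lit 44) (nat_lit 71) (nat_lit 100) (nat_lit 360) (.trZ (nat_lit 3) (nat_lit 100) (nat_lit 53) (nat_lit 55) (nat_lit 16) (.leaf p120_l48)))))))
(.trX (nat_lit 13) (nat_lit 36) (nat_lit 77) (nat_lit 100) (nat_lit 352) (.trZ (nat_lit 3) (nat_lit 100) (nat_lit 52) (nat_lit 53) (nat_lit 8) (.spl (nat_lit 4) (nat_lit 40)
(.trX (nat_lit 22) (nat_lit 80) (nat_lit 100) (nat_lit 60) (nat_lit 200) (.spl (nat_lit 1) (nat_lit 290)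
(.trX (nat_lit 13) (nat_lit 35) (nat_lit 79) (nat_lit 100) (nat_lit 344) (.leaf p120_l49))
(.leaf p120_l50)))
(.leaf p120_l51))))))))) (by decide +kernel)
noncomputable def p120_l52 : Lf2 := ⟨nat_lit 0, nat_lit 15, [nat_lit 30, nat_lit 5, nat_lit 5, nat_lit 20], false, nat_lit 0, nat_lit 80, nat_lit 0, nat_lit 256, ⟨nat_lit 1000, nat_lit 0, nat_lit 0, nat_lit 0, nat_lit 0, nat_lit 0, nat_lit 0, nat_lit 0, nat_lit 0, nat_lit 0, nat_lit 0, nat_lit 0, nat_lit 0, nat_lit 0, nat_lit 0, nat_lit 0, false, false⟩,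
 nat_lit 0, nat_lit 0, nat_lit 8374, nat_lit 0, nat_lit 3970, nat_lit 5797, nat_lit 599, nat_lit 0, nat_lit 0, nat_lit 1064, nat_lit 0, nat_lit 0, nat_lit 0, nat_lit 0, nat_lit 0, nat_lit 0, nat_lit 0, nat_lit 0, [],
 ⟨p120_k25, nat_lit 0, nat_lit 0, nat_lit 187, nat_lit 0, nat_lit 0, [nat_lit 938000000, nat_lit 2032000001, nat_lit 6250000000], [], [nat_lit 29285069000, nat_lit 30059056580, nat_lit 34061423361, nat_lit 34686997827, nat_lit 26730997840, nat_lit 27218823840, nat_lit 30831617944, nat_lit 31434418083], nat_lit 0, nat_lit 0, nat_lit 0, nat_lit 0, nat_lit 0, nat_lit 0, [], [nat_lit 131, nat_lit 40, nat_lit 40, nat_lit 80, nat_lit 64, nat_lit 226, nat_lit 20, nat_lit 7]⟩, ⟨p120_k26, nat_lit 0, nat_lit 0, nat_lit 583, nat_lit 0, nat_lit 896772, [nat_lit 3282000000, nat_lit 4688000000, nat_lit 9842000000], [], [nat_lit 32967868348, nat_lit 33334741492, nat_lit 35531487750, nat_lit 36724664286, nat_lit 30275079448,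 nat_lit 30513340410, nat_lit 31820915380, nat_lit 32090113901], nat_lit 1271250, nat_lit 1271250, nat_lit 1271250, nat_lit 1271250, nat_lit 0, nat_lit 1808000, [nat_lit 780000, nat_lit 1100000, nat_lit 2127500], [nat_lit 42, nat_lit 40, nat_lit 40, nat_lit 80, nat_lit 13, nat_lit 289, nat_lit 75, nat_lit 8]⟩,
 zbF0, [⟨nat_lit 19, nat_lit 84, nat_lit 100, nat_lit 67, nat_lit 84744917⟩, ⟨nat_lit 22, nat_lit 65, nat_lit 100, nat_lit 62, nat_lit 78240285⟩]⟩
noncomputable def p120_l53 : Lf2 := ⟨nat_lit 0, nat_lit 15, [nat_lit 30, nat_lit 5, nat_lit 5, nat_lit 20], false, nat_lit 0, nat_lit 80, nat_lit 0, nat_lit 256, ⟨nat_lit 1000, nat_lit 0, nat_lit 0, nat_lit 0, nat_lit 0, nat_lit 0, nat_lit 0, nat_lit 0, nat_lit 0, nat_lit 0, nat_lit 0, nat_lit 0, nat_lit 0, nat_lit 0, nat_lit 0, nat_lit 0, false, false⟩,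
 nat_lit 0, nat_lit 0, nat_lit 8372, nat_lit 0, nat_lit 3669, nat_lit 5795, nat_lit 472, nat_lit 0, nat_lit 0, nat_lit 1157, nat_lit 0, nat_lit 0, nat_lit 0, nat_lit 0, nat_lit 0, nat_lit 0, nat_lit 0, nat_lit 0, [],
 ⟨p120_k19, nat_lit 0, nat_lit 0, nat_lit 168, nat_lit 0, nat_lit 0, [nat_lit 938000000, nat_lit 2032000001, nat_lit 4688000000], [], [nat_lit 29308779766, nat_lit 30052151432, nat_lit 33513957945, nat_lit 34125149595, nat_lit 26773379543, nat_lit 27261863969, nat_lit 30593536313, nat_lit 31182284884], nat_lit 0, nat_lit 0, nat_lit 0, nat_lit 0, nat_lit 0, nat_lit 0, [], [nat_lit 152, nat_lit 40, nat_lit 40, nat_lit 80, nat_lit 33, nat_lit 226, nat_lit 20, nat_lit 8]⟩, ⟨p120_k26, nat_lit 0, nat_lit 0, nat_lit 623, nat_lit 0, nat_lit 1021411, [nat_lit 3282000000, nat_lit 4688000000, nat_lit 9842000000], [], [nat_lit 32259824850, nat_lit 32581957530, nat_lit 35115427148, nat_lit 36335385264, nat_lit 29848932816,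 nat_lit 30108748268, nat_lit 31304786440, nat_lit 31804976359], nat_lit 1271250, nat_lit 1271250, nat_lit 1271250, nat_lit 1271250, nat_lit 0, nat_lit 1808000, [nat_lit 780000, nat_lit 1100000, nat_lit 2127500], [nat_lit 42, nat_lit 40, nat_lit 40, nat_lit 80, nat_lit 13, nat_lit 289, nat_lit 75, nat_lit 8]⟩,
 zbF0, [⟨nat_lit 19, nat_lit 84, nat_lit 100, nat_lit 67, nat_lit 92052696⟩, ⟨nat_lit 22, nat_lit 66, nat_lit 100, nat_lit 62, nat_lit 72301419⟩]⟩
noncomputable def p120_l54 : Lf2 := ⟨nat_lit 0, nat_lit 20, [nat_lit 5, nat_lit 5, nat_lit 5, nat_lit 20], false, nat_lit 0, nat_lit 80, nat_lit 0, nat_lit 260, ⟨nat_lit 1000, nat_lit 0, nat_lit 0, nat_lit 0, nat_lit 0, nat_lit 0, nat_lit 0, nat_lit 0, nat_lit 0, nat_lit 0, nat_lit 0, nat_lit 0, nat_lit 0, nat_lit 0, nat_lit 0, nat_lit 0, false, false⟩,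
 nat_lit 0, nat_lit 0, nat_lit 8362, nat_lit 0, nat_lit 4043, nat_lit 5789, nat_lit 602, nat_lit 0, nat_lit 0, nat_lit 1124, nat_lit 0, nat_lit 0, nat_lit 0, nat_lit 0, nat_lit 0, nat_lit 0, nat_lit 0, nat_lit 0, [],
 ⟨p120_k21, nat_lit 0, nat_lit 0, nat_lit 187, nat_lit 0, nat_lit 0, [nat_lit 938000000, nat_lit 2032000001, nat_lit 6250000000], [], [nat_lit 29459604700, nat_lit 30241017402, nat_lit 34277915664, nat_lit 34908842330, nat_lit 26596412196, nat_lit 27088866437, nat_lit 30970208094, nat_lit 31578138336], nat_lit 0, nat_lit 0, nat_lit 0, nat_lit 0, nat_lit 0, nat_lit 0, [], [nat_lit 131, nat_lit 40, nat_lit 40, nat_lit 80, nat_lit 64, nat_lit 226, nat_lit 20, nat_lit 7]⟩, ⟨p120_k27, nat_lit 0, nat_lit 0, nat_lit 557, nat_lit 0, nat_lit 820532, [nat_lit 3282000000, nat_lit 4688000000, nat_lit 9842000000], [], [nat_lit 32016857820, nat_lit 32409392456, nat_lit 35506089133, nat_lit 36702933208, nat_lit 29463007398,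 nat_lit 29718962818, nat_lit 31348280874, nat_lit 32202502013], nat_lit 1271250, nat_lit 1271250, nat_lit 1271250, nat_lit 1271250, nat_lit 0, nat_lit 1836250, [nat_lit 780000, nat_lit 1100000, nat_lit 2127500], [nat_lit 42, nat_lit 40, nat_lit 40, nat_lit 80, nat_lit 13, nat_lit 289, nat_lit 75, nat_lit 8]⟩,
 zbF0, [⟨nat_lit 22, nat_lit 83, nat_lit 100, nat_lit 83, nat_lit 122407524⟩]⟩
noncomputable def p120_l55 : Lf2 := ⟨nat_lit 0, nat_lit 20, [nat_lit 5, nat_lit 5, nat_lit 5, nat_lit 20], false, nat_lit 4, nat_lit 80, nat_lit 0, nat_lit 260, ⟨nat_lit 1000, nat_lit 0, nat_lit 0, nat_lit 0, nat_lit 0, nat_lit 0, nat_lit 0, nat_lit 0, nat_lit 0, nat_lit 0, nat_lit 0, nat_lit 0, nat_lit 0, nat_lit 0, nat_lit 0, nat_lit 0, false, false⟩,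
 nat_lit 0, nat_lit 0, nat_lit 8656, nat_lit 0, nat_lit 3297, nat_lit 5992, nat_lit 640, nat_lit 0, nat_lit 0, nat_lit 1017, nat_lit 0, nat_lit 0, nat_lit 0, nat_lit 0, nat_lit 0, nat_lit 0, nat_lit 0, nat_lit 0, [],
 ⟨p120_k23, nat_lit 0, nat_lit 0, nat_lit 186, nat_lit 0, nat_lit 0, [nat_lit 938000000, nat_lit 2032000001, nat_lit 6250000000], [], [nat_lit 28262853871, nat_lit 28966855537, nat_lit 32269506791, nat_lit 32851780236, nat_lit 26247152011, nat_lit 26690241602, nat_lit 29872789698, nat_lit 30434859880], nat_lit 0, nat_lit 0, nat_lit 0, nat_lit 0, nat_lit 0, nat_lit 0, [], [nat_lit 131, nat_lit 40, nat_lit 40, nat_lit 80, nat_lit 64, nat_lit 226, nat_lit 20, nat_lit 7]⟩, ⟨p120_k27, nat_lit 0, nat_lit 0, nat_lit 598, nat_lit 0, nat_lit 942659, [nat_lit 3282000000, nat_lit 4688000000, nat_lit 9842000000], [], [nat_lit 32766954978, nat_lit 33428056130, nat_lit 35798432561, nat_lit 36862498007, nat_lit 29895717970,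 nat_lit 30127718002, nat_lit 31567200527, nat_lit 32144904100], nat_lit 1271250, nat_lit 1271250, nat_lit 1271250, nat_lit 1271250, nat_lit 0, nat_lit 1836250, [nat_lit 780000, nat_lit 1100000, nat_lit 2127500], [nat_lit 42, nat_lit 40, nat_lit 40, nat_lit 80, nat_lit 13, nat_lit 289, nat_lit 75, nat_lit 8]⟩,
 zbF0, [⟨nat_lit 7, nat_lit 100, nat_lit 87, nat_lit 79, nat_lit 62280914⟩, ⟨nat_lit 22, nat_lit 83, nat_lit 100, nat_lit 83, nat_lit 54126984⟩]⟩
noncomputable def p120_l56 : Lf2 := ⟨nat_lit 0, nat_lit 15, [nat_lit 30, nat_lit 5, nat_lit 5, nat_lit 20], false, nat_lit 0, nat_lit 80, nat_lit 0, nat_lit 256, ⟨nat_lit 167, nat_lit 833, nat_lit 0, nat_lit 8, nat_lit 328, nat_lit 833, nat_lit 32, nat_lit 0, nat_lit 0, nat_lit 0, nat_lit 0, nat_lit 0, nat_lit 40034359, nat_lit 26965641, nat_lit 0, nat_lit 3370006, true, true⟩,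
 nat_lit 0, nat_lit 0, nat_lit 1639, nat_lit 0, nat_lit 2465, nat_lit 1134, nat_lit 0, nat_lit 0, nat_lit 0, nat_lit 107, nat_lit 0, nat_lit 0, nat_lit 0, nat_lit 0, nat_lit 0, nat_lit 330350, nat_lit 0, nat_lit 0, [(nat_lit 28, [(nat_lit 0, nat_lit 19), (nat_lit 1, nat_lit 814)])],
 ⟨p120_k15, nat_lit 0, nat_lit 0, nat_lit 170, nat_lit 0, nat_lit 0, [nat_lit 739342800, nat_lit 832355201, nat_lit 969894000], [], [nat_lit 27212935572, nat_lit 28170396540, nat_lit 29563284009, nat_lit 30651811548, nat_lit 26706918721, nat_lit 27594320881, nat_lit 28659219340, nat_lit 29458626043], nat_lit 0, nat_lit 0, nat_lit 0, nat_lit 0, nat_lit 0, nat_lit 0, [], [nat_lit 35, nat_lit 40, nat_lit 40, nat_lit 80, nat_lit 22, nat_lit 226, nat_lit 20, nat_lit 8]⟩, ⟨p120_k13, nat_lit 0, nat_lit 0, nat_lit 726, nat_lit 0, nat_lit 1224899, [nat_lit 548094000, nat_lit 1043750000, nat_lit 1643614000], [], [nat_lit 5896741171, nat_lit 5921066145,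 nat_lit 6074283569, nat_lit 6110564222, nat_lit 5271515005, nat_lit 5286931234, nat_lit 5400115383, nat_lit 5414548450], nat_lit 1271250, nat_lit 1271250, nat_lit 1271250, nat_lit 1271250, nat_lit 0, nat_lit 1808000, [nat_lit 780000, nat_lit 1435000, nat_lit 1271250], [nat_lit 8, nat_lit 40, nat_lit 40, nat_lit 80, nat_lit 1, nat_lit 299, nat_lit 75, nat_lit 8]⟩,
 ⟨nat_lit 0, nat_lit 2237, ⟨.ofNat (nat_lit 784917), .ofNat (nat_lit 859034), .ofNat (nat_lit 796304), .ofNat (nat_lit 870422), .ofNat (nat_lit 774999), .ofNat (nat_lit 839996), .ofNat (nat_lit 787499), .ofNat (nat_lit 852497)⟩, ⟨.ofNat (nat_lit 0), .ofNat (nat_lit 146756), .ofNat (nat_lit 0), .ofNat (nat_lit 169532), .ofNat (nat_lit 0), .ofNat (nat_lit 149997), .ofNat (nat_lit 0), .ofNat (nat_lit 174999)⟩⟩, [⟨nat_lit 13, nat_lit 37, nat_lit 76, nat_lit 100, nat_lit 332309823⟩, ⟨nat_lit 22, nat_lit 69, nat_lit 100, nat_lit 61, nat_lit 35436119⟩]⟩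
noncomputable def p120_l57 : Lf2 := ⟨nat_lit 0, nat_lit 15, [nat_lit 30, nat_lit 5, nat_lit 5, nat_lit 20], false, nat_lit 0, nat_lit 80, nat_lit 0, nat_lit 244, ⟨nat_lit 240, nat_lit 760, nat_lit 0, nat_lit 8, nat_lit 335, nat_lit 760, nat_lit 32, nat_lit 0, nat_lit 0, nat_lit 0, nat_lit 0, nat_lit 0, nat_lit 39360643, nat_lit 27639357, nat_lit 0, nat_lit 3388826, true, true⟩,
 nat_lit 0, nat_lit 0, nat_lit 1944, nat_lit 0, nat_lit 2576, nat_lit 1401, nat_lit 27, nat_lit 0, nat_lit 0, nat_lit 194, nat_lit 0, nat_lit 0, nat_lit 0, nat_lit 0, nat_lit 0, nat_lit 304000, nat_lit 0, nat_lit 0, [(nat_lit 28, [(nat_lit 1, nat_lit 760)])],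
 ⟨p120_k15, nat_lit 0, nat_lit 0, nat_lit 173, nat_lit 0, nat_lit 0, [nat_lit 755296000, nat_lit 1034528001, nat_lit 1275296000], [], [nat_lit 27327321170, nat_lit 28480947456, nat_lit 30324478408, nat_lit 31407095984, nat_lit 26746422386, nat_lit 27605635618, nat_lit 29000556162, nat_lit 29797469378], nat_lit 0, nat_lit 0, nat_lit 0, nat_lit 0, nat_lit 0, nat_lit 0, [], [nat_lit 35, nat_lit 40, nat_lit 40, nat_lit 80, nat_lit 22, nat_lit 226, nat_lit 20, nat_lit 8]⟩, ⟨p120_k28, nat_lit 0, nat_lit 0, nat_lit 720, nat_lit 0, nat_lit 1213769, [nat_lit 787680000, nat_lit 1500000000, nat_lit 2362080000], [], [nat_lit 8161825284, nat_lit 8207129208, nat_lit 8504985921, nat_lit 8562708408, nat_lit 7613130821, nat_lit 7643639939, nat_lit 7858094841, nat_lit 7886222703], nat_lit 1271250, nat_lit 1271250, nat_lit 1271250, nat_lit 1271250, nat_lit 0, nat_lit 1723250, [nat_lit 780000, nat_lit 1435000, nat_lit 1271250], [nat_lit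 8, nat_lit 40, nat_lit 40, nat_lit 80, nat_lit 1, nat_lit 298, nat_lit 75, nat_lit 8]⟩,
 ⟨nat_lit 0, nat_lit 2237, ⟨.ofNat (nat_lit 796304), .ofNat (nat_lit 881824), .ofNat (nat_lit 807594), .ofNat (nat_lit 893212), .ofNat (nat_lit 787499), .ofNat (nat_lit 862496), .ofNat (nat_lit 799902), .ofNat (nat_lit 874997)⟩, ⟨.ofNat (nat_lit 0), .ofNat (nat_lit 146756), .ofNat (nat_lit 0), .ofNat (nat_lit 169532), .ofNat (nat_lit 0), .ofNat (nat_lit 149997), .ofNat (nat_lit 0), .ofNat (nat_lit 174999)⟩⟩, [⟨nat_lit 13, nat_lit 38, nat_lit 73, nat_lit 100, nat_lit 231857776⟩, ⟨nat_lit 22, nat_lit 68, nat_lit 100, nat_lit 61, nat_lit 64217280⟩]⟩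
noncomputable def p120_l58 : Lf2 := ⟨nat_lit 0, nat_lit 20, [nat_lit 5, nat_lit 5, nat_lit 5, nat_lit 20], false, nat_lit 8, nat_lit 80, nat_lit 0, nat_lit 260, ⟨nat_lit 678, nat_lit 322, nat_lit 0, nat_lit 8, nat_lit 335, nat_lit 322, nat_lit 40, nat_lit 0, nat_lit 0, nat_lit 0, nat_lit 0, nat_lit 0, nat_lit 38728483, nat_lit 27267007, nat_lit 1004510, nat_lit 3823034, true, true⟩,
 nat_lit 0, nat_lit 0, nat_lit 6519, nat_lit 0, nat_lit 3070, nat_lit 4512, nat_lit 310, nat_lit 0, nat_lit 0, nat_lit 436, nat_lit 0, nat_lit 0, nat_lit 0, nat_lit 0, nat_lit 0, nat_lit 128800, nat_lit 0, nat_lit 0, [(nat_lit 28, [(nat_lit 1, nat_lit 322)])],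
 ⟨p120_k5, nat_lit 0, nat_lit 0, nat_lit 176, nat_lit 0, nat_lit 0, [nat_lit 860591201, nat_lit 2329781600, nat_lit 4281936000], [], [nat_lit 28281611609, nat_lit 28621361316, nat_lit 31587352633, nat_lit 31876194464, nat_lit 26417839983, nat_lit 26659270110, nat_lit 29532156030, nat_lit 29811289693], nat_lit 0, nat_lit 0, nat_lit 0, nat_lit 0, nat_lit 0, nat_lit 0, [], [nat_lit 20, nat_lit 40, nat_lit 40, nat_lit 80, nat_lit 16, nat_lit 226, nat_lit 20, nat_lit 7]⟩, ⟨p120_k4, nat_lit 0, nat_lit 0, nat_lit 624, nat_lit 0, nat_lit 1005805, [nat_lit 2225196000, nat_lit 4237500000, nat_lit 6672876000], [], [nat_lit 23630928464, nat_lit 23901434216, nat_lit 24860500540, nat_lit 25627362972, nat_lit 21130068083, nat_lit 21298690944, nat_lit 21972164243, nat_lit 22136775033], nat_lit 1271250, nat_lit 1271250, nat_lit 1271250, nat_lit 1271250, nat_lit 0, nat_lit 1836250, [nat_lit 780000, nat_lit 1435000, nat_lit 1271250],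 [nat_lit 8, nat_lit 40, nat_lit 40, nat_lit 80, nat_lit 1, nat_lit 289, nat_lit 75, nat_lit 8]⟩,
 ⟨nat_lit 1936, nat_lit 2237, ⟨.ofNat (nat_lit 784917), .ofNat (nat_lit 870440), .ofNat (nat_lit 807688), .ofNat (nat_lit 893214), .ofNat (nat_lit 782720), .ofNat (nat_lit 866554), .ofNat (nat_lit 805728), .ofNat (nat_lit 889565)⟩, ⟨.ofNat (nat_lit 20000), .ofNat (nat_lit 169532), .ofNat (nat_lit 20000), .ofNat (nat_lit 192306), .ofNat (nat_lit 20000), .ofNat (nat_lit 171255), .ofNat (nat_lit 20000), .ofNat (nat_lit 194266)⟩⟩, [⟨nat_lit 22, nat_lit 67, nat_lit 100, nat_lit 64, nat_lit 113108883⟩]⟩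
noncomputable def p120_l59 : Lf2 := ⟨nat_lit 0, nat_lit 20, [nat_lit 5, nat_lit 5, nat_lit 5, nat_lit 20], false, nat_lit 16, nat_lit 80, nat_lit 0, nat_lit 260, ⟨nat_lit 409, nat_lit 591, nat_lit 0, nat_lit 8, nat_lit 332, nat_lit 591, nat_lit 45, nat_lit 0, nat_lit 0, nat_lit 0, nat_lit 0, nat_lit 0, nat_lit 38939296, nat_lit 26884096, nat_lit 1176608, nat_lit 3870197, true, true⟩,
 nat_lit 0, nat_lit 0, nat_lit 3560, nat_lit 0, nat_lit 2612, nat_lit 2464, nat_lit 186, nat_lit 0, nat_lit 0, nat_lit 419, nat_lit 0, nat_lit 0, nat_lit 0, nat_lit 0, nat_lit 0, nat_lit 147750, nat_lit 0, nat_lit 0, [(nat_lit 28, [(nat_lit 0, nat_lit 591)])],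
 ⟨p120_k16, nat_lit 0, nat_lit 0, nat_lit 156, nat_lit 0, nat_lit 0, [nat_lit 845567601, nat_lit 1960524001, nat_lit 2730844400], [], [nat_lit 27375617609, nat_lit 27617828234, nat_lit 29918285492, nat_lit 30194286859, nat_lit 26823850535, nat_lit 27055597619, nat_lit 28827088709, nat_lit 29038277883], nat_lit 0, nat_lit 0, nat_lit 0, nat_lit 0, nat_lit 0, nat_lit 0, [], [nat_lit 35, nat_lit 40, nat_lit 40, nat_lit 80, nat_lit 22, nat_lit 226, nat_lit 20, nat_lit 8]⟩, ⟨p120_k4, nat_lit 0, nat_lit 0, nat_lit 647, nat_lit 0, nat_lit 1070145, [nat_lit 1342338000, nat_lit 2556250000, nat_lit 4025378000], [], [nat_lit 13737631709, nat_lit 13911711293, nat_lit 14316248449, nat_lit 14469028536, nat_lit 12719815089, nat_lit 12832094819, nat_lit 13117384315, nat_lit 13209728844], nat_lit 1271250, nat_lit 1271250, nat_lit 1271250, nat_lit 1271250, nat_lit 0, nat_lit 1836250, [nat_lit 780000, nat_lit 1435000, nat_lit 1271250],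 [nat_lit 8, nat_lit 40, nat_lit 40, nat_lit 80, nat_lit 1, nat_lit 289, nat_lit 75, nat_lit 8]⟩,
 ⟨nat_lit 1581, nat_lit 1937, ⟨.ofNat (nat_lit 782720), .ofNat (nat_lit 855376), .ofNat (nat_lit 805728), .ofNat (nat_lit 878387), .ofNat (nat_lit 780481), .ofNat (nat_lit 851507), .ofNat (nat_lit 803793), .ofNat (nat_lit 874823)⟩, ⟨.ofNat (nat_lit 40000), .ofNat (nat_lit 171255), .ofNat (nat_lit 40000), .ofNat (nat_lit 194266), .ofNat (nat_lit 40000), .ofNat (nat_lit 172886), .ofNat (nat_lit 40000), .ofNat (nat_lit 196201)⟩⟩, [⟨nat_lit 22, nat_lit 69, nat_lit 100, nat_lit 65, nat_lit 102177715⟩]⟩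
noncomputable def p120_l60 : Lf2 := ⟨nat_lit 0, nat_lit 20, [nat_lit 5, nat_lit 5, nat_lit 5, nat_lit 20], false, nat_lit 20, nat_lit 80, nat_lit 0, nat_lit 260, ⟨nat_lit 285, nat_lit 715, nat_lit 0, nat_lit 8, nat_lit 328, nat_lit 715, nat_lit 47, nat_lit 0, nat_lit 0, nat_lit 0, nat_lit 0, nat_lit 0, nat_lit 39193003, nat_lit 26530695, nat_lit 1276302, nat_lit 3892266, true, true⟩,
 nat_lit 0, nat_lit 0, nat_lit 2397, nat_lit 0, nat_lit 2663, nat_lit 1659, nat_lit 81, nat_lit 0, nat_lit 0, nat_lit 317, nat_lit 0, nat_lit 0, nat_lit 0, nat_lit 0, nat_lit 0, nat_lit 178750, nat_lit 0, nat_lit 0, [(nat_lit 28, [(nat_lit 0, nat_lit 715)])],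
 ⟨p120_k29, nat_lit 0, nat_lit 0, nat_lit 152, nat_lit 0, nat_lit 0, [nat_lit 826174001, nat_lit 1130242001, nat_lit 2320206000], [], [nat_lit 28052517146, nat_lit 28308562961, nat_lit 29870435121, nat_lit 30106695609, nat_lit 27506860466, nat_lit 27752300123, nat_lit 29258065889, nat_lit 29481629277], nat_lit 0, nat_lit 0, nat_lit 0, nat_lit 0, nat_lit 0, nat_lit 0, [], [nat_lit 152, nat_lit 40, nat_lit 40, nat_lit 80, nat_lit 33, nat_lit 226, nat_lit 20, nat_lit 8]⟩, ⟨p120_k27, nat_lit 0, nat_lit 0, nat_lit 685, nat_lit 0, nat_lit 1135755, [nat_lit 935370000, nat_lit 1336080000, nat_lit 2804970000], [], [nat_lit 9367185960, nat_lit 9452633610, nat_lit 9650282844, nat_lit 9756392532, nat_lit 8779117709, nat_lit 8857808988, nat_lit 9005157061, nat_lit 9072857594], nat_lit 1271250, nat_lit 1271250, nat_lit 1271250, nat_lit 1271250, nat_lit 0, nat_lit 1836250, [nat_lit 780000, nat_lit 1100000, nat_lit 2127500], [nat_lit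 42, nat_lit 40, nat_lit 40, nat_lit 80, nat_lit 13, nat_lit 290, nat_lit 75, nat_lit 8]⟩,
 ⟨nat_lit 1118, nat_lit 1582, ⟨.ofNat (nat_lit 780481), .ofNat (nat_lit 840580), .ofNat (nat_lit 803793), .ofNat (nat_lit 863895), .ofNat (nat_lit 778134), .ofNat (nat_lit 836574), .ofNat (nat_lit 801882), .ofNat (nat_lit 860325)⟩, ⟨.ofNat (nat_lit 50000), .ofNat (nat_lit 172886), .ofNat (nat_lit 50000), .ofNat (nat_lit 196201), .ofNat (nat_lit 50000), .ofNat (nat_lit 174361), .ofNat (nat_lit 50000), .ofNat (nat_lit 198112)⟩⟩, [⟨nat_lit 13, nat_lit 32, nat_lit 78, nat_lit 100, nat_lit 199629867⟩, ⟨nat_lit 22, nat_lit 71, nat_lit 100, nat_lit 66, nat_lit 75937197⟩]⟩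
noncomputable def p120_l61 : Lf2 := ⟨nat_lit 0, nat_lit 20, [nat_lit 5, nat_lit 5, nat_lit 5, nat_lit 20], false, nat_lit 28, nat_lit 80, nat_lit 0, nat_lit 260, ⟨nat_lit 177, nat_lit 823, nat_lit 0, nat_lit 8, nat_lit 325, nat_lit 823, nat_lit 51, nat_lit 0, nat_lit 0, nat_lit 0, nat_lit 0, nat_lit 0, nat_lit 39404476, nat_lit 26134526, nat_lit 1460998, nat_lit 3938032, true, true⟩,
 nat_lit 0, nat_lit 0, nat_lit 1554, nat_lit 0, nat_lit 2419, nat_lit 1075, nat_lit 51, nat_lit 0, nat_lit 0, nat_lit 207, nat_lit 0, nat_lit 0, nat_lit 0, nat_lit 0, nat_lit 0, nat_lit 205750, nat_lit 0, nat_lit 0, [(nat_lit 28, [(nat_lit 0, nat_lit 823)])],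
 ⟨p120_k30, nat_lit 0, nat_lit 0, nat_lit 128, nat_lit 0, nat_lit 0, [nat_lit 809282800, nat_lit 1441772000], [], [nat_lit 27486522748, nat_lit 27731194436, nat_lit 28893308730, nat_lit 29166185584, nat_lit 27104824393, nat_lit 27340860200, nat_lit 28470140927, nat_lit 28700197401], nat_lit 0, nat_lit 0, nat_lit 0, nat_lit 0, nat_lit 0, nat_lit 0, [], [nat_lit 66, nat_lit 40, nat_lit 40, nat_lit 80, nat_lit 67, nat_lit 226, nat_lit 20, nat_lit 10]⟩, ⟨p120_k4, nat_lit 0, nat_lit 0, nat_lit 717, nat_lit 0, nat_lit 1202728, [nat_lit 580914000, nat_lit 1106250000, nat_lit 1742034000], [], [nat_lit 5856231324, nat_lit 5912825630, nat_lit 5986689001, nat_lit 6036728594, nat_lit 5363179122, nat_lit 5397952286, nat_lit 5449871537, nat_lit 5479795676], nat_lit 1271250, nat_lit 1271250, nat_lit 1271250, nat_lit 1271250, nat_lit 0, nat_lit 1836250, [nat_lit 780000, nat_lit 1435000, nat_lit 1271250], [nat_lit 8, nat_lit 40,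 nat_lit 40, nat_lit 80, nat_lit 1, nat_lit 297, nat_lit 75, nat_lit 8]⟩,
 ⟨nat_lit 0, nat_lit 1119, ⟨.ofNat (nat_lit 778134), .ofNat (nat_lit 825946), .ofNat (nat_lit 801880), .ofNat (nat_lit 849699), .ofNat (nat_lit 774999), .ofNat (nat_lit 819996), .ofNat (nat_lit 799994), .ofNat (nat_lit 844998)⟩, ⟨.ofNat (nat_lit 70000), .ofNat (nat_lit 174361), .ofNat (nat_lit 70000), .ofNat (nat_lit 198112), .ofNat (nat_lit 70000), .ofNat (nat_lit 174999), .ofNat (nat_lit 70000), .ofNat (nat_lit 199999)⟩⟩, [⟨nat_lit 13, nat_lit 28, nat_lit 81, nat_lit 100, nat_lit 402244590⟩, ⟨nat_lit 3, nat_lit 100, nat_lit 31, nat_lit 76, nat_lit 79944675⟩, ⟨nat_lit 22, nat_lit 72, nat_lit 100, nat_lit 68, nat_lit 39735777⟩]⟩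
noncomputable def b_V_900_700_10_17 : St := ⟨true, nat_lit 0, nat_lit 1, nat_lit 1, nat_lit 80, nat_lit 360, nat_lit 400, nat_lit 300, nat_lit 320, nat_lit 320, nat_lit 392, nat_lit 40, nat_lit 80, nat_lit 0, nat_lit 80, nat_lit 0, nat_lit 260, nat_lit 80, nat_lit 120, nat_lit 0, nat_lit 0, nat_lit 0, nat_lit 0⟩
theorem d_V_900_700_10_17 (h : EB TB.env) : Dead b_V_900_700_10_17 := chkB_sound0 h (T :=
(.spl (nat_lit 0) (nat_lit 380)
(.spl (nat_lit 3) (nat_lit 60)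
(.trX (nat_lit 19) (nat_lit 90) (nat_lit 100) (nat_lit 74) (nat_lit 256) (.spl (nat_lit 0) (nat_lit 370)
(.leaf p120_l52)
(.trX (nat_lit 13) (nat_lit 66) (nat_lit 45) (nat_lit 100) (nat_lit 388) (.leaf p120_l53))))
(.spl (nat_lit 0) (nat_lit 370)
(.leaf p120_l54)
(.trX (nat_lit 13) (nat_lit 66) (nat_lit 45) (nat_lit 100) (nat_lit 388) (.trZ (nat_lit 3) (nat_lit 100) (nat_lit 74) (nat_lit 33) (nat_lit 4) (.leaf p120_l55)))))
(.trX (nat_lit 13) (nat_lit 54) (nat_lit 57) (nat_lit 100) (nat_lit 380) (.spl (nat_lit 3) (nat_lit 60)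
(.trX (nat_lit 19) (nat_lit 90) (nat_lit 100) (nat_lit 74) (nat_lit 256) (.spl (nat_lit 1) (nat_lit 310)
(.trX (nat_lit 13) (nat_lit 52) (nat_lit 61) (nat_lit 100) (nat_lit 372) (.leaf p120_l56))
(.trX (nat_lit 19) (nat_lit 85) (nat_lit 100) (nat_lit 73) (nat_lit 244) (.leaf p120_l57))))
(.trZ (nat_lit 3) (nat_lit 100) (nat_lit 61) (nat_lit 47) (nat_lit 8) (.spl (nat_lit 0) (nat_lit 390)
(.spl (nat_lit 0) (nat_lit 385)
(.leaf p120_l58)
(.trX (nat_lit 13) (nat_lit 47) (nat_lit 64) (nat_lit 100) (nat_lit 372) (.trZ (nat_lit 3) (nat_lit 100) (nat_lit 53) (nat_lit 55) (nat_lit 16) (.leaf p120_l59))))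
(.trX (nat_lit 13) (nat_lit 39) (nat_lit 72) (nat_lit 100) (nat_lit 364) (.trZ (nat_lit 3) (nat_lit 100) (nat_lit 44) (nat_lit 64) (nat_lit 20) (.spl (nat_lit 0) (nat_lit 395)
(.leaf p120_l60)
(.trX (nat_lit 13) (nat_lit 28) (nat_lit 81) (nat_lit 100) (nat_lit 356) (.trZ (nat_lit 3) (nat_lit 100) (nat_lit 31) (nat_lit 76) (nat_lit 28) (.leaf p120_l61)))))))))))) (by decide +kernel)
noncomputable def p120_l62 : Lf2 := ⟨nat_lit 0, nat_lit 20, [nat_lit 5, nat_lit 5, nat_lit 5, nat_lit 20], true, nat_lit 80, nat_lit 160, nat_lit 0, nat_lit 300, ⟨nat_lit 0, nat_lit 1000, nat_lit 0, nat_lit 7, nat_lit 276, nat_lit 1000, nat_lit 90, nat_lit 0, nat_lit 0, nat_lit 0, nat_lit 0, nat_lit 0, nat_lit 42627070, nat_lit 20796255, nat_lit 3576675, nat_lit 4254964, true, false⟩,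
 nat_lit 0, nat_lit 0, nat_lit 0, nat_lit 2175, nat_lit 4398, nat_lit 0, nat_lit 0, nat_lit 0, nat_lit 0, nat_lit 0, nat_lit 0, nat_lit 0, nat_lit 0, nat_lit 0, nat_lit 0, nat_lit 250000, nat_lit 0, nat_lit 0, [(nat_lit 25, [(nat_lit 0, nat_lit 1000)])],
 ⟨p120_k3, nat_lit 0, nat_lit 0, nat_lit 96, nat_lit 0, nat_lit 0, [nat_lit 764000001, nat_lit 1368800000, nat_lit 2118000000], [], [nat_lit 23073175632, nat_lit 24580304648, nat_lit 24712239184, nat_lit 26215104968, nat_lit 23295704024, nat_lit 24656394936, nat_lit 24776647040, nat_lit 26030524256], nat_lit 0, nat_lit 0, nat_lit 0, nat_lit 0, nat_lit 0, nat_lit 0, [], [nat_lit 20, nat_lit 40, nat_lit 40, nat_lit 80, nat_lit 16, nat_lit 249, nat_lit 40, nat_lit 8]⟩, C1.Rw.none,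
 ⟨nat_lit 2236, nat_lit 3163, ⟨.ofNat (nat_lit 649422), .ofNat (nat_lit 710480), .ofNat (nat_lit 671514), .ofNat (nat_lit 732571), .ofNat (nat_lit 647962), .ofNat (nat_lit 705082), .ofNat (nat_lit 670673), .ofNat (nat_lit 727793)⟩, ⟨.ofNat (nat_lit 139899), .ofNat (nat_lit 261806), .ofNat (nat_lit 184209), .ofNat (nat_lit 306116), .ofNat (nat_lit 146758), .ofNat (nat_lit 260789), .ofNat (nat_lit 192306), .ofNat (nat_lit 306337)⟩⟩, []⟩
noncomputable def p120_l63 : Lf2 := ⟨nat_lit 0, nat_lit 20, [nat_lit 5, nat_lit 5, nat_lit 5, nat_lit 20], false, nat_lit 80, nat_lit 160, nat_lit 0, nat_lit 300, ⟨nat_lit 80, nat_lit 920, nat_lit 0, nat_lit 7, nat_lit 297, nat_lit 920, nat_lit 90, nat_lit 0, nat_lit 0, nat_lit 0, nat_lit 0, nat_lit 0, nat_lit 40643815, nat_lit 22879941, nat_lit 3476244, nat_lit 4336525, true, true⟩,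
 nat_lit 0, nat_lit 0, nat_lit 1001, nat_lit 0, nat_lit 4270, nat_lit 636, nat_lit 0, nat_lit 0, nat_lit 0, nat_lit 52, nat_lit 0, nat_lit 0, nat_lit 0, nat_lit 0, nat_lit 0, nat_lit 230000, nat_lit 0, nat_lit 0, [(nat_lit 25, [(nat_lit 0, nat_lit 920)])],
 ⟨p120_k3, nat_lit 0, nat_lit 0, nat_lit 108, nat_lit 0, nat_lit 0, [nat_lit 777920001, nat_lit 1521856000, nat_lit 2448560000], [], [nat_lit 25066862160, nat_lit 26431154520, nat_lit 26940273440, nat_lit 28184091140, nat_lit 25176009600, nat_lit 26411481440, nat_lit 26873823200, nat_lit 28003378680], nat_lit 0, nat_lit 0, nat_lit 0, nat_lit 0, nat_lit 0, nat_lit 0, [], [nat_lit 20, nat_lit 40, nat_lit 40, nat_lit 80, nat_lit 16, nat_lit 249, nat_lit 40, nat_lit 8]⟩, ⟨p120_k7, nat_lit 0, nat_lit 0, nat_lit 732, nat_lit 0, nat_lit 1119789, [nat_lit 262560000, nat_lit 500000000, nat_lit 949760000], [], [nat_lit 2852896424, nat_lit 2874935048, nat_lit 2955914792,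 nat_lit 2979290188, nat_lit 2437114184, nat_lit 2444547287, nat_lit 2474836464, nat_lit 2485109489], nat_lit 1271250, nat_lit 1271250, nat_lit 1271250, nat_lit 1271250, nat_lit 0, nat_lit 2118750, [nat_lit 780000, nat_lit 1435000, nat_lit 1271250], [nat_lit 23, nat_lit 40, nat_lit 40, nat_lit 80, nat_lit 12, nat_lit 483, nat_lit 250, nat_lit 12]⟩,
 ⟨nat_lit 2236, nat_lit 3163, ⟨.ofNat (nat_lit 710480), .ofNat (nat_lit 771478), .ofNat (nat_lit 721526), .ofNat (nat_lit 782556), .ofNat (nat_lit 705082), .ofNat (nat_lit 762142), .ofNat (nat_lit 716437), .ofNat (nat_lit 773529)⟩, ⟨.ofNat (nat_lit 139899), .ofNat (nat_lit 261806), .ofNat (nat_lit 184209), .ofNat (nat_lit 306116), .ofNat (nat_lit 146758), .ofNat (nat_lit 260789), .ofNat (nat_lit 192306), .ofNat (nat_lit 306337)⟩⟩, [⟨nat_lit 4, nat_lit 100, nat_lit 54, nat_lit 73, nat_lit 16996363⟩, ⟨nat_lit 7, nat_lit 100, nat_lit 97, nat_lit 76, nat_lit 8348393⟩]⟩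
noncomputable def p120_l64 : Lf2 := ⟨nat_lit 0, nat_lit 20, [nat_lit 5, nat_lit 5, nat_lit 5, nat_lit 20], false, nat_lit 80, nat_lit 160, nat_lit 0, nat_lit 292, ⟨nat_lit 90, nat_lit 910, nat_lit 0, nat_lit 7, nat_lit 302, nat_lit 910, nat_lit 90, nat_lit 0, nat_lit 0, nat_lit 0, nat_lit 0, nat_lit 0, nat_lit 40234846, nat_lit 23310915, nat_lit 3454239, nat_lit 4350256, true, true⟩,
 nat_lit 0, nat_lit 0, nat_lit 997, nat_lit 0, nat_lit 4298, nat_lit 662, nat_lit 0, nat_lit 0, nat_lit 0, nat_lit 60, nat_lit 0, nat_lit 0, nat_lit 0, nat_lit 0, nat_lit 0, nat_lit 227500, nat_lit 0, nat_lit 0, [(nat_lit 25, [(nat_lit 0, nat_lit 910)])],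
 ⟨p120_k3, nat_lit 0, nat_lit 0, nat_lit 108, nat_lit 0, nat_lit 0, [nat_lit 779660001, nat_lit 1540988000, nat_lit 2489880000], [], [nat_lit 25102918384, nat_lit 26471849448, nat_lit 26981063456, nat_lit 28228916236, nat_lit 25202279040, nat_lit 26441777056, nat_lit 26904037280, nat_lit 28037090632], nat_lit 0, nat_lit 0, nat_lit 0, nat_lit 0, nat_lit 0, nat_lit 0, [], [nat_lit 20, nat_lit 40, nat_lit 40, nat_lit 80, nat_lit 16, nat_lit 249, nat_lit 40, nat_lit 8]⟩, ⟨p120_k8, nat_lit 0, nat_lit 0, nat_lit 730, nat_lit 0, nat_lit 1116671, [nat_lit 295380000, nat_lit 562500000, nat_lit 1068480000], [], [nat_lit 3152294616, nat_lit 3181981072, nat_lit 3267223786, nat_lit 3293093588, nat_lit 2735272677, nat_lit 2744479876, nat_lit 2772532702, nat_lit 2787092508], nat_lit 1271250, nat_lit 1271250, nat_lit 1271250, nat_lit 1271250, nat_lit 0, nat_lit 2062250, [nat_lit 780000, nat_lit 1435000, nat_lit 1271250], [nat_lit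 23, nat_lit 40, nat_lit 40, nat_lit 80, nat_lit 12, nat_lit 483, nat_lit 250, nat_lit 12]⟩,
 ⟨nat_lit 2236, nat_lit 3163, ⟨.ofNat (nat_lit 721526), .ofNat (nat_lit 782556), .ofNat (nat_lit 732571), .ofNat (nat_lit 793619), .ofNat (nat_lit 716437), .ofNat (nat_lit 773529), .ofNat (nat_lit 727793), .ofNat (nat_lit 784902)⟩, ⟨.ofNat (nat_lit 139899), .ofNat (nat_lit 261806), .ofNat (nat_lit 184209), .ofNat (nat_lit 306116), .ofNat (nat_lit 146758), .ofNat (nat_lit 260789), .ofNat (nat_lit 192306), .ofNat (nat_lit 306337)⟩⟩, [⟨nat_lit 16, nat_lit 54, nat_lit 100, nat_lit 73, nat_lit 20234220⟩, ⟨nat_lit 19, nat_lit 92, nat_lit 100, nat_lit 75, nat_lit 10609890⟩]⟩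
noncomputable def p120_l65 : Lf2 := ⟨nat_lit 0, nat_lit 20, [nat_lit 5, nat_lit 5, nat_lit 5, nat_lit 20], false, nat_lit 80, nat_lit 160, nat_lit 0, nat_lit 280, ⟨nat_lit 99, nat_lit 901, nat_lit 0, nat_lit 7, nat_lit 294, nat_lit 901, nat_lit 90, nat_lit 0, nat_lit 0, nat_lit 0, nat_lit 0, nat_lit 0, nat_lit 40904977, nat_lit 22604951, nat_lit 3490072, nat_lit 4327210, true, false⟩,
 nat_lit 0, nat_lit 0, nat_lit 1007, nat_lit 0, nat_lit 4326, nat_lit 697, nat_lit 0, nat_lit 0, nat_lit 0, nat_lit 74, nat_lit 0, nat_lit 0, nat_lit 0, nat_lit 0, nat_lit 0, nat_lit 225250, nat_lit 0, nat_lit 0, [(nat_lit 25, [(nat_lit 0, nat_lit 901)])],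
 ⟨p120_k3, nat_lit 0, nat_lit 0, nat_lit 108, nat_lit 0, nat_lit 0, [nat_lit 781226000, nat_lit 1558206800, nat_lit 2527068000], [], [nat_lit 23504348784, nat_lit 24998021576, nat_lit 27017721472, nat_lit 28270270992, nat_lit 23750305688, nat_lit 25099307832, nat_lit 26930119360, nat_lit 28066670584], nat_lit 0, nat_lit 0, nat_lit 0, nat_lit 0, nat_lit 0, nat_lit 0, [], [nat_lit 20, nat_lit 40, nat_lit 40, nat_lit 80, nat_lit 16, nat_lit 249, nat_lit 40, nat_lit 8]⟩, ⟨p120_k4, nat_lit 0, nat_lit 0, nat_lit 693, nat_lit 0, nat_lit 1116530, [nat_lit 324918000, nat_lit 618750000, nat_lit 974358000], [], [nat_lit 2988139242, nat_lit 3013329145, nat_lit 3159397044, nat_lit 3200465747, nat_lit 2708307239, nat_lit 2726863307, nat_lit 2812903409, nat_lit 2837097723], nat_lit 1271250, nat_lit 1271250, nat_lit 1271250, nat_lit 1271250, nat_lit 0, nat_lit 1977500, [nat_lit 780000, nat_lit 1435000, nat_lit 1271250], [nat_lit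 8, nat_lit 40, nat_lit 40, nat_lit 80, nat_lit 1, nat_lit 373, nat_lit 150, nat_lit 10]⟩,
 ⟨nat_lit 2236, nat_lit 3163, ⟨.ofNat (nat_lit 671514), .ofNat (nat_lit 793619), .ofNat (nat_lit 682560), .ofNat (nat_lit 804673), .ofNat (nat_lit 670673), .ofNat (nat_lit 784902), .ofNat (nat_lit 682029), .ofNat (nat_lit 796267)⟩, ⟨.ofNat (nat_lit 139899), .ofNat (nat_lit 261806), .ofNat (nat_lit 184209), .ofNat (nat_lit 306116), .ofNat (nat_lit 146758), .ofNat (nat_lit 260789), .ofNat (nat_lit 192306), .ofNat (nat_lit 306337)⟩⟩, [⟨nat_lit 4, nat_lit 100, nat_lit 54, nat_lit 73, nat_lit 20602938⟩, ⟨nat_lit 7, nat_lit 100, nat_lit 88, nat_lit 74, nat_lit 16705385⟩]⟩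
noncomputable def p120_l66 : Lf2 := ⟨nat_lit 0, nat_lit 20, [nat_lit 5, nat_lit 5, nat_lit 5, nat_lit 20], false, nat_lit 80, nat_lit 160, nat_lit 0, nat_lit 268, ⟨nat_lit 127, nat_lit 873, nat_lit 0, nat_lit 7, nat_lit 299, nat_lit 873, nat_lit 90, nat_lit 0, nat_lit 0, nat_lit 0, nat_lit 0, nat_lit 0, nat_lit 40494742, nat_lit 23036985, nat_lit 3468273, nat_lit 4341651, true, false⟩,
 nat_lit 0, nat_lit 0, nat_lit 1103, nat_lit 0, nat_lit 4407, nat_lit 795, nat_lit 0, nat_lit 0, nat_lit 0, nat_lit 109, nat_lit 0, nat_lit 0, nat_lit 0, nat_lit 0, nat_lit 0, nat_lit 218250, nat_lit 0, nat_lit 0, [(nat_lit 25, [(nat_lit 0, nat_lit 873)])],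
 ⟨p120_k3, nat_lit 0, nat_lit 0, nat_lit 108, nat_lit 0, nat_lit 0, [nat_lit 786098001, nat_lit 1611776400, nat_lit 2642764000], [], [nat_lit 23595176488, nat_lit 25103987532, nat_lit 27131884304, nat_lit 28395445074, nat_lit 23814776316, nat_lit 25176928324, nat_lit 27013687520, nat_lit 28160357588], nat_lit 0, nat_lit 0, nat_lit 0, nat_lit 0, nat_lit 0, nat_lit 0, [], [nat_lit 20, nat_lit 40, nat_lit 40, nat_lit 80, nat_lit 16, nat_lit 249, nat_lit 40, nat_lit 8]⟩, ⟨p120_k6, nat_lit 0, nat_lit 0, nat_lit 693, nat_lit 0, nat_lit 1118502, [nat_lit 416814000, nat_lit 793750000, nat_lit 1249934000], [], [nat_lit 3725452538, nat_lit 3754860083, nat_lit 3899573753, nat_lit 3939382816, nat_lit 3450749278, nat_lit 3469247530, nat_lit 3551933895, nat_lit 3576458099], nat_lit 1271250, nat_lit 1271250, nat_lit 1271250, nat_lit 1271250, nat_lit 0, nat_lit 1892750, [nat_lit 780000, nat_lit 1435000, nat_lit 1271250], [nat_lit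 8, nat_lit 40, nat_lit 40, nat_lit 80, nat_lit 1, nat_lit 373, nat_lit 150, nat_lit 10]⟩,
 ⟨nat_lit 2236, nat_lit 3163, ⟨.ofNat (nat_lit 682560), .ofNat (nat_lit 804673), .ofNat (nat_lit 693606), .ofNat (nat_lit 815720), .ofNat (nat_lit 682029), .ofNat (nat_lit 796267), .ofNat (nat_lit 693384), .ofNat (nat_lit 807623)⟩, ⟨.ofNat (nat_lit 139899), .ofNat (nat_lit 261806), .ofNat (nat_lit 184209), .ofNat (nat_lit 306116), .ofNat (nat_lit 146758), .ofNat (nat_lit 260789), .ofNat (nat_lit 192306), .ofNat (nat_lit 306337)⟩⟩, [⟨nat_lit 4, nat_lit 100, nat_lit 54, nat_lit 73, nat_lit 27976662⟩, ⟨nat_lit 7, nat_lit 100, nat_lit 83, nat_lit 73, nat_lit 25169910⟩]⟩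
noncomputable def p120_l67 : Lf2 := ⟨nat_lit 0, nat_lit 20, [nat_lit 5, nat_lit 5, nat_lit 5, nat_lit 20], false, nat_lit 160, nat_lit 200, nat_lit 0, nat_lit 300, ⟨nat_lit 134, nat_lit 866, nat_lit 0, nat_lit 7, nat_lit 292, nat_lit 866, nat_lit 125, nat_lit 0, nat_lit 0, nat_lit 0, nat_lit 0, nat_lit 0, nat_lit 39547920, nat_lit 21780591, nat_lit 5671489, nat_lit 4716721, true, false⟩,
 nat_lit 0, nat_lit 0, nat_lit 1674, nat_lit 0, nat_lit 3081, nat_lit 1065, nat_lit 0, nat_lit 0, nat_lit 0, nat_lit 81, nat_lit 0, nat_lit 0, nat_lit 0, nat_lit 0, nat_lit 0, nat_lit 216500, nat_lit 0, nat_lit 0, [(nat_lit 25, [(nat_lit 0, nat_lit 866)])],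
 ⟨p120_k3, nat_lit 0, nat_lit 0, nat_lit 59, nat_lit 0, nat_lit 0, [nat_lit 787316001, nat_lit 1625168800, nat_lit 2671688000], [], [nat_lit 22274329320, nat_lit 23556175482, nat_lit 25495079352, nat_lit 26584633328, nat_lit 23265910468, nat_lit 24471195256, nat_lit 26289665598, nat_lit 27317517899], nat_lit 0, nat_lit 0, nat_lit 0, nat_lit 0, nat_lit 0, nat_lit 0, [], [nat_lit 20, nat_lit 40, nat_lit 40, nat_lit 80, nat_lit 16, nat_lit 260, nat_lit 50, nat_lit 8]⟩, ⟨p120_k7, nat_lit 0, nat_lit 0, nat_lit 854, nat_lit 0, nat_lit 1339737, [nat_lit 439788000, nat_lit 837500000, nat_lit 1590848000], [], [nat_lit 4958372386, nat_lit 5012417658, nat_lit 5068344986, nat_lit 5224950550, nat_lit 4247469697, nat_lit 4283608758, nat_lit 4291520879, nat_lit 4343701234], nat_lit 1271250, nat_lit 1271250, nat_lit 1271250, nat_lit 1271250, nat_lit 0, nat_lit 2118750, [nat_lit 780000, nat_lit 1435000, nat_lit 1271250], [nat_lit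 23, nat_lit 40, nat_lit 40, nat_lit 80, nat_lit 12, nat_lit 483, nat_lit 250, nat_lit 12]⟩,
 ⟨nat_lit 2236, nat_lit 3163, ⟨.ofNat (nat_lit 649422), .ofNat (nat_lit 771478), .ofNat (nat_lit 693606), .ofNat (nat_lit 815720), .ofNat (nat_lit 647962), .ofNat (nat_lit 762142), .ofNat (nat_lit 693384), .ofNat (nat_lit 807623)⟩, ⟨.ofNat (nat_lit 261806), .ofNat (nat_lit 322759), .ofNat (nat_lit 306116), .ofNat (nat_lit 367069), .ofNat (nat_lit 260789), .ofNat (nat_lit 317804), .ofNat (nat_lit 306337), .ofNat (nat_lit 363353)⟩⟩, [⟨nat_lit 16, nat_lit 60, nat_lit 100, nat_lit 80, nat_lit 289936532⟩, ⟨nat_lit 19, nat_lit 90, nat_lit 100, nat_lit 74, nat_lit 14209381⟩]⟩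
noncomputable def p120_l68 : Lf2 := ⟨nat_lit 0, nat_lit 20, [nat_lit 5, nat_lit 5, nat_lit 5, nat_lit 20], true, nat_lit 80, nat_lit 164, nat_lit 0, nat_lit 300, ⟨nat_lit 0, nat_lit 1000, nat_lit 0, nat_lit 7, nat_lit 275, nat_lit 1000, nat_lit 91, nat_lit 0, nat_lit 0, nat_lit 0, nat_lit 0, nat_lit 0, nat_lit 42677633, nat_lit 20654016, nat_lit 3668351, nat_lit 4267334, true, false⟩,
 nat_lit 0, nat_lit 0, nat_lit 0, nat_lit 0, nat_lit 3978, nat_lit 0, nat_lit 0, nat_lit 0, nat_lit 0, nat_lit 0, nat_lit 0, nat_lit 0, nat_lit 0, nat_lit 0, nat_lit 0, nat_lit 250000, nat_lit 0, nat_lit 0, [(nat_lit 28, [(nat_lit 0, nat_lit 1000)])],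
 ⟨p120_k5, nat_lit 0, nat_lit 0, nat_lit 109, nat_lit 0, nat_lit 0, [nat_lit 781600001, nat_lit 1083600000, nat_lit 1719333334], [], [nat_lit 24232090062, nat_lit 25660724438, nat_lit 25708446462, nat_lit 27289610944, nat_lit 24533659656, nat_lit 25818216216, nat_lit 25866537653, nat_lit 27198369790], nat_lit 0, nat_lit 0, nat_lit 0, nat_lit 0, nat_lit 0, nat_lit 0, [], [nat_lit 20, nat_lit 40, nat_lit 40, nat_lit 80, nat_lit 16, nat_lit 260, nat_lit 50, nat_lit 8]⟩, C1.Rw.none,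
 ⟨nat_lit 0, nat_lit 2237, ⟨.ofNat (nat_lit 646249), .ofNat (nat_lit 705063), .ofNat (nat_lit 668096), .ofNat (nat_lit 726954), .ofNat (nat_lit 648136), .ofNat (nat_lit 699935), .ofNat (nat_lit 672209), .ofNat (nat_lit 724051)⟩, ⟨.ofNat (nat_lit 146756), .ofNat (nat_lit 266484), .ofNat (nat_lit 192306), .ofNat (nat_lit 312035), .ofNat (nat_lit 149997), .ofNat (nat_lit 254993), .ofNat (nat_lit 199999), .ofNat (nat_lit 304995)⟩⟩, [⟨nat_lit 16, nat_lit 44, nat_lit 100, nat_lit 82, nat_lit 73955312⟩]⟩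
noncomputable def p120_l69 : Lf2 := ⟨nat_lit 0, nat_lit 20, [nat_lit 5, nat_lit 5, nat_lit 5, nat_lit 20], false, nat_lit 80, nat_lit 164, nat_lit 0, nat_lit 300, ⟨nat_lit 99, nat_lit 901, nat_lit 0, nat_lit 7, nat_lit 297, nat_lit 901, nat_lit 92, nat_lit 0, nat_lit 0, nat_lit 0, nat_lit 0, nat_lit 0, nat_lit 40549097, nat_lit 22860435, nat_lit 3590468, nat_lit 4360918, true, true⟩,
 nat_lit 0, nat_lit 0, nat_lit 1255, nat_lit 0, nat_lit 2761, nat_lit 798, nat_lit 156, nat_lit 0, nat_lit 0, nat_lit 61, nat_lit 0, nat_lit 0, nat_lit 0, nat_lit 0, nat_lit 0, nat_lit 225250, nat_lit 0, nat_lit 0, [(nat_lit 28, [(nat_lit 0, nat_lit 901)])],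
 ⟨p120_k5, nat_lit 0, nat_lit 0, nat_lit 112, nat_lit 0, nat_lit 0, [nat_lit 797083600, nat_lit 1301241600, nat_lit 2160147334], [], [nat_lit 24425816270, nat_lit 24982965944, nat_lit 25956166336, nat_lit 26479297094, nat_lit 25062496373, nat_lit 25558749834, nat_lit 26442045140, nat_lit 26909983283], nat_lit 0, nat_lit 0, nat_lit 0, nat_lit 0, nat_lit 0, nat_lit 0, [], [nat_lit 20, nat_lit 40, nat_lit 40, nat_lit 80, nat_lit 16, nat_lit 260, nat_lit 50, nat_lit 8]⟩, ⟨p120_k7, nat_lit 0, nat_lit 0, nat_lit 847, nat_lit 0, nat_lit 1346795, [nat_lit 324918000, nat_lit 618750000, nat_lit 1175328000], [], [nat_lit 3597359274, nat_lit 3648468630, nat_lit 3715555662, nat_lit 3773584770, nat_lit 3064459215, nat_lit 3084149460, nat_lit 3103839705, nat_lit 3129110403], nat_lit 1271250, nat_lit 1271250, nat_lit 1271250, nat_lit 1271250, nat_lit 0, nat_lit 2118750, [nat_lit 780000, nat_lit 1435000, nat_lit 1271250], [nat_lit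 23, nat_lit 40, nat_lit 40, nat_lit 80, nat_lit 12, nat_lit 483, nat_lit 250, nat_lit 12]⟩,
 ⟨nat_lit 1581, nat_lit 2237, ⟨.ofNat (nat_lit 705117), .ofNat (nat_lit 762142), .ofNat (nat_lit 727846), .ofNat (nat_lit 784917), .ofNat (nat_lit 702521), .ofNat (nat_lit 757166), .ofNat (nat_lit 725790), .ofNat (nat_lit 780481)⟩, ⟨.ofNat (nat_lit 146758), .ofNat (nat_lit 266490), .ofNat (nat_lit 192306), .ofNat (nat_lit 312039), .ofNat (nat_lit 149571), .ofNat (nat_lit 264306), .ofNat (nat_lit 196201), .ofNat (nat_lit 310936)⟩⟩, [⟨nat_lit 4, nat_lit 100, nat_lit 41, nat_lit 77, nat_lit 179727501⟩, ⟨nat_lit 19, nat_lit 94, nat_lit 100, nat_lit 75, nat_lit 10184301⟩]⟩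
noncomputable def p120_l70 : Lf2 := ⟨nat_lit 0, nat_lit 20, [nat_lit 5, nat_lit 5, nat_lit 5, nat_lit 20], true, nat_lit 80, nat_lit 136, nat_lit 0, nat_lit 300, ⟨nat_lit 0, nat_lit 1000, nat_lit 0, nat_lit 7, nat_lit 296, nat_lit 1000, nat_lit 84, nat_lit 0, nat_lit 0, nat_lit 0, nat_lit 0, nat_lit 0, nat_lit 41003701, nat_lit 22831400, nat_lit 3164899, nat_lit 4263495, true, true⟩,
 nat_lit 0, nat_lit 0, nat_lit 0, nat_lit 0, nat_lit 2906, nat_lit 0, nat_lit 0, nat_lit 0, nat_lit 0, nat_lit 0, nat_lit 0, nat_lit 0, nat_lit 0, nat_lit 0, nat_lit 0, nat_lit 250000, nat_lit 0, nat_lit 0, [(nat_lit 28, [(nat_lit 0, nat_lit 1000)])],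
 ⟨p120_k14, nat_lit 0, nat_lit 0, nat_lit 102, nat_lit 0, nat_lit 0, [nat_lit 781600001, nat_lit 1046000001, nat_lit 1376400000], [], [nat_lit 25331089558, nat_lit 25865634362, nat_lit 26844888178, nat_lit 27398897408, nat_lit 25733872792, nat_lit 26235974526, nat_lit 27096188683, nat_lit 27616996554], nat_lit 0, nat_lit 0, nat_lit 0, nat_lit 0, nat_lit 0, nat_lit 0, [], [nat_lit 35, nat_lit 40, nat_lit 40, nat_lit 80, nat_lit 22, nat_lit 249, nat_lit 40, nat_lit 9]⟩, C1.Rw.none,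
 ⟨nat_lit 0, nat_lit 1582, ⟨.ofNat (nat_lit 702515), .ofNat (nat_lit 757165), .ofNat (nat_lit 725184), .ofNat (nat_lit 780481), .ofNat (nat_lit 699984), .ofNat (nat_lit 749998), .ofNat (nat_lit 724337), .ofNat (nat_lit 774999)⟩, ⟨.ofNat (nat_lit 149570), .ofNat (nat_lit 226057), .ofNat (nat_lit 196201), .ofNat (nat_lit 272689), .ofNat (nat_lit 149998), .ofNat (nat_lit 219995), .ofNat (nat_lit 199999), .ofNat (nat_lit 269997)⟩⟩, [⟨nat_lit 16, nat_lit 33, nat_lit 100, nat_lit 84, nat_lit 165710062⟩]⟩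
noncomputable def p120_l71 : Lf2 := ⟨nat_lit 0, nat_lit 20, [nat_lit 5, nat_lit 5, nat_lit 5, nat_lit 20], false, nat_lit 80, nat_lit 164, nat_lit 0, nat_lit 280, ⟨nat_lit 143, nat_lit 857, nat_lit 0, nat_lit 7, nat_lit 295, nat_lit 857, nat_lit 92, nat_lit 0, nat_lit 0, nat_lit 0, nat_lit 0, nat_lit 0, nat_lit 40729216, nat_lit 22670381, nat_lit 3600403, nat_lit 4354587, true, false⟩,
 nat_lit 0, nat_lit 0, nat_lit 1466, nat_lit 0, nat_lit 2662, nat_lit 1014, nat_lit 186, nat_lit 0, nat_lit 0, nat_lit 101, nat_lit 0, nat_lit 0, nat_lit 0, nat_lit 0, nat_lit 0, nat_lit 214250, nat_lit 0, nat_lit 0, [(nat_lit 28, [(nat_lit 0, nat_lit 857)])],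
 ⟨p120_k5, nat_lit 0, nat_lit 0, nat_lit 112, nat_lit 0, nat_lit 0, [nat_lit 803965201, nat_lit 1397971200, nat_lit 2356064667], [], [nat_lit 22986818414, nat_lit 23565539582, nat_lit 25813153222, nat_lit 26317030748, nat_lit 23793814839, nat_lit 24318965028, nat_lit 26381344271, nat_lit 26834503409], nat_lit 0, nat_lit 0, nat_lit 0, nat_lit 0, nat_lit 0, nat_lit 0, [], [nat_lit 20, nat_lit 40, nat_lit 40, nat_lit 80, nat_lit 16, nat_lit 260, nat_lit 50, nat_lit 8]⟩, ⟨p120_k4, nat_lit 0, nat_lit 0, nat_lit 774, nat_lit 0, nat_lit 1318078, [nat_lit 469326000, nat_lit 893750000, nat_lit 1407406000], [], [nat_lit 4518896811, nat_lit 4572629321, nat_lit 4699535050, nat_lit 4759093756, nat_lit 4065058610, nat_lit 4103260748, nat_lit 4164417233, nat_lit 4192574674], nat_lit 1271250, nat_lit 1271250, nat_lit 1271250, nat_lit 1271250, nat_lit 0, nat_lit 1977500, [nat_lit 780000, nat_lit 1435000, nat_lit 1271250], [nat_lit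 8, nat_lit 40, nat_lit 40, nat_lit 80, nat_lit 1, nat_lit 373, nat_lit 150, nat_lit 10]⟩,
 ⟨nat_lit 1581, nat_lit 2237, ⟨.ofNat (nat_lit 670745), .ofNat (nat_lit 784917), .ofNat (nat_lit 693473), .ofNat (nat_lit 807675), .ofNat (nat_lit 671069), .ofNat (nat_lit 780481), .ofNat (nat_lit 694338), .ofNat (nat_lit 803781)⟩, ⟨.ofNat (nat_lit 146758), .ofNat (nat_lit 266490), .ofNat (nat_lit 192306), .ofNat (nat_lit 312039), .ofNat (nat_lit 149571), .ofNat (nat_lit 264306), .ofNat (nat_lit 196201), .ofNat (nat_lit 310936)⟩⟩, [⟨nat_lit 4, nat_lit 100, nat_lit 41, nat_lit 77, nat_lit 213666285⟩, ⟨nat_lit 7, nat_lit 100, nat_lit 85, nat_lit 73, nat_lit 24032981⟩]⟩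
noncomputable def p120_l72 : Lf2 := ⟨nat_lit 0, nat_lit 20, [nat_lit 5, nat_lit 5, nat_lit 5, nat_lit 20], false, nat_lit 80, nat_lit 136, nat_lit 0, nat_lit 280, ⟨nat_lit 111, nat_lit 889, nat_lit 0, nat_lit 7, nat_lit 295, nat_lit 889, nat_lit 84, nat_lit 0, nat_lit 0, nat_lit 0, nat_lit 0, nat_lit 0, nat_lit 41114599, nat_lit 22715267, nat_lit 3170134, nat_lit 4259442, true, false⟩,
 nat_lit 0, nat_lit 0, nat_lit 1156, nat_lit 0, nat_lit 2796, nat_lit 799, nat_lit 63, nat_lit 0, nat_lit 0, nat_lit 76, nat_lit 0, nat_lit 0, nat_lit 0, nat_lit 0, nat_lit 0, nat_lit 222250, nat_lit 0, nat_lit 0, [(nat_lit 28, [(nat_lit 0, nat_lit 889)])],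
 ⟨p120_k14, nat_lit 0, nat_lit 0, nat_lit 102, nat_lit 0, nat_lit 0, [nat_lit 798960400, nat_lit 1294196001, nat_lit 1743987600], [], [nat_lit 23783747750, nat_lit 24349359022, nat_lit 26553813473, nat_lit 27163222736, nat_lit 24284257220, nat_lit 24814920622, nat_lit 26837877933, nat_lit 27349024863], nat_lit 0, nat_lit 0, nat_lit 0, nat_lit 0, nat_lit 0, nat_lit 0, [], [nat_lit 35, nat_lit 40, nat_lit 40, nat_lit 80, nat_lit 22, nat_lit 249, nat_lit 40, nat_lit 10]⟩, ⟨p120_k4, nat_lit 0, nat_lit 0, nat_lit 847, nat_lit 0, nat_lit 1455935, [nat_lit 364302000, nat_lit 693750000, nat_lit 1092462000], [], [nat_lit 3606044038, nat_lit 3639032252, nat_lit 3706023066, nat_lit 3734713720, nat_lit 3205210450, nat_lit 3224924340, nat_lit 3248409969, nat_lit 3261712444], nat_lit 1271250, nat_lit 1271250, nat_lit 1271250, nat_lit 1271250, nat_lit 0, nat_lit 1977500, [nat_lit 780000, nat_lit 1435000, nat_lit 1271250], [nat_lit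 8, nat_lit 40, nat_lit 40, nat_lit 80, nat_lit 1, nat_lit 373, nat_lit 150, nat_lit 10]⟩,
 ⟨nat_lit 0, nat_lit 1582, ⟨.ofNat (nat_lit 669237), .ofNat (nat_lit 780481), .ofNat (nat_lit 691895), .ofNat (nat_lit 803773), .ofNat (nat_lit 673026), .ofNat (nat_lit 774999), .ofNat (nat_lit 697369), .ofNat (nat_lit 799976)⟩, ⟨.ofNat (nat_lit 149570), .ofNat (nat_lit 226057), .ofNat (nat_lit 196201), .ofNat (nat_lit 272689), .ofNat (nat_lit 149998), .ofNat (nat_lit 219995), .ofNat (nat_lit 199999), .ofNat (nat_lit 269997)⟩⟩, [⟨nat_lit 16, nat_lit 33, nat_lit 100, nat_lit 84, nat_lit 202070468⟩, ⟨nat_lit 4, nat_lit 100, nat_lit 26, nat_lit 84, nat_lit 35506710⟩, ⟨nat_lit 19, nat_lit 85, nat_lit 100, nat_lit 73, nat_lit 17795726⟩]⟩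
noncomputable def b_V_900_700_10_18 : St := ⟨true, nat_lit 0, nat_lit 1, nat_lit 1, nat_lit 80, nat_lit 360, nat_lit 400, nat_lit 280, nat_lit 320, nat_lit 240, nat_lit 320, nat_lit 40, nat_lit 80, nat_lit 80, nat_lit 200, nat_lit 0, nat_lit 300, nat_lit 80, nat_lit 120, nat_lit 0, nat_lit 0, nat_lit 0, nat_lit 0⟩
theorem d_V_900_700_10_18 (h : EB TB.env) : Dead b_V_900_700_10_18 := chkB_sound0 h (T :=
(.spl (nat_lit 0) (nat_lit 380)
(.spl (nat_lit 4) (nat_lit 160)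
(.spl (nat_lit 1) (nat_lit 300)
(.spl (nat_lit 2) (nat_lit 280)
(.leaf p120_l62)
(.spl (nat_lit 1) (nat_lit 290)
(.leaf p120_l63)
(.trX (nat_lit 19) (nat_lit 100) (nat_lit 100) (nat_lit 89) (nat_lit 292) (.leaf p120_l64))))
(.trX (nat_lit 19) (nat_lit 94) (nat_lit 100) (nat_lit 87) (nat_lit 280) (.spl (nat_lit 1) (nat_lit 310)
(.leaf p120_l65)
(.trX (nat_lit 19) (nat_lit 89) (nat_lit 100) (nat_lit 85) (nat_lit 268) (.leaf p120_l66)))))
(.leaf p120_l67))
(.trX (nat_lit 16) (nat_lit 44) (nat_lit 100) (nat_lit 82) (nat_lit 164) (.spl (nat_lit 1) (nat_lit 300)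
(.spl (nat_lit 2) (nat_lit 280)
(.leaf p120_l68)
(.spl (nat_lit 0) (nat_lit 390)
(.leaf p120_l69)
(.trX (nat_lit 16) (nat_lit 33) (nat_lit 100) (nat_lit 84) (nat_lit 136) (.leaf p120_l70))))
(.trX (nat_lit 19) (nat_lit 94) (nat_lit 100) (nat_lit 87) (nat_lit 280) (.spl (nat_lit 0) (nat_lit 390)
(.leaf p120_l71)
(.trX (nat_lit 16) (nat_lit 33) (nat_lit 100) (nat_lit 84) (nat_lit 136) (.leaf p120_l72)))))))) (by decide +kernel)
noncomputable def p120_l73 : Lf2 := ⟨nat_lit 0, nat_lit 15, [nat_lit 30, nat_lit 5, nat_lit 5, nat_lit 20], false, nat_lit 80, nat_lit 176, nat_lit 0, nat_lit 276, ⟨nat_lit 958, nat_lit 42, nat_lit 0, nat_lit 8, nat_lit 328, nat_lit 42, nat_lit 90, nat_lit 0, nat_lit 0, nat_lit 0, nat_lit 0, nat_lit 0, nat_lit 37895642, nat_lit 25782438, nat_lit 3321920, nat_lit 4409372, true, true⟩,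
 nat_lit 0, nat_lit 0, nat_lit 9828, nat_lit 0, nat_lit 4085, nat_lit 6254, nat_lit 0, nat_lit 0, nat_lit 0, nat_lit 1073, nat_lit 0, nat_lit 0, nat_lit 0, nat_lit 0, nat_lit 0, nat_lit 10500, nat_lit 0, nat_lit 0, [(nat_lit 25, [(nat_lit 0, nat_lit 42)])],
 ⟨p120_k25, nat_lit 0, nat_lit 0, nat_lit 119, nat_lit 0, nat_lit 0, [nat_lit 930692000, nat_lit 1989949601, nat_lit 6076456000], [], [nat_lit 30571671120, nat_lit 31180249795, nat_lit 33712641200, nat_lit 34234189933, nat_lit 30864457661, nat_lit 31376179506, nat_lit 33626724905, nat_lit 34092171381], nat_lit 0, nat_lit 0, nat_lit 0, nat_lit 0, nat_lit 0, nat_lit 0, [], [nat_lit 131, nat_lit 40, nat_lit 40, nat_lit 80, nat_lit 64, nat_lit 260, nat_lit 50, nat_lit 8]⟩, ⟨p120_k18, nat_lit 0, nat_lit 0, nat_lit 531, nat_lit 0, nat_lit 782275, [nat_lit 3144156000, nat_lit 4491104000, nat_lit 9428636000], [], [nat_lit 31880985307, nat_lit 32061783765, nat_lit 33786761522,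 nat_lit 34068911761, nat_lit 28353545101, nat_lit 28501940655, nat_lit 29853366323, nat_lit 30023397518], nat_lit 1271250, nat_lit 1271250, nat_lit 1271250, nat_lit 1271250, nat_lit 0, nat_lit 1949250, [nat_lit 780000, nat_lit 1100000, nat_lit 2127500], [nat_lit 42, nat_lit 40, nat_lit 40, nat_lit 80, nat_lit 13, nat_lit 289, nat_lit 75, nat_lit 8]⟩,
 ⟨nat_lit 2738, nat_lit 3163, ⟨.ofNat (nat_lit 771478), .ofNat (nat_lit 862908), .ofNat (nat_lit 782555), .ofNat (nat_lit 873986), .ofNat (nat_lit 766852), .ofNat (nat_lit 855444), .ofNat (nat_lit 778060), .ofNat (nat_lit 866653)⟩, ⟨.ofNat (nat_lit 139899), .ofNat (nat_lit 286187), .ofNat (nat_lit 162054), .ofNat (nat_lit 308342), .ofNat (nat_lit 143475), .ofNat (nat_lit 285223), .ofNat (nat_lit 165893), .ofNat (nat_lit 307640)⟩⟩, [⟨nat_lit 4, nat_lit 100, nat_lit 58, nat_lit 68, nat_lit 439744762⟩, ⟨nat_lit 7, nat_lit 100, nat_lit 94, nat_lit 69, nat_lit 145331835⟩]⟩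
noncomputable def p120_l74 : Lf2 := ⟨nat_lit 0, nat_lit 15, [nat_lit 30, nat_lit 5, nat_lit 5, nat_lit 20], false, nat_lit 80, nat_lit 160, nat_lit 0, nat_lit 276, ⟨nat_lit 105, nat_lit 895, nat_lit 0, nat_lit 8, nat_lit 323, nat_lit 895, nat_lit 86, nat_lit 0, nat_lit 0, nat_lit 0, nat_lit 0, nat_lit 0, nat_lit 38458743, nat_lit 25418599, nat_lit 3122658, nat_lit 4353099, true, true⟩,
 nat_lit 0, nat_lit 0, nat_lit 1303, nat_lit 0, nat_lit 3268, nat_lit 829, nat_lit 0, nat_lit 0, nat_lit 0, nat_lit 58, nat_lit 0, nat_lit 0, nat_lit 0, nat_lit 0, nat_lit 0, nat_lit 223750, nat_lit 0, nat_lit 0, [(nat_lit 25, [(nat_lit 0, nat_lit 895)])],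
 ⟨p120_k12, nat_lit 0, nat_lit 0, nat_lit 109, nat_lit 0, nat_lit 0, [nat_lit 782270000, nat_lit 1569686001, nat_lit 2027702000], [], [nat_lit 26606125593, nat_lit 27135418209, nat_lit 28981020082, nat_lit 29494359126, nat_lit 26989370177, nat_lit 27472753393, nat_lit 29120756513, nat_lit 29551295011], nat_lit 0, nat_lit 0, nat_lit 0, nat_lit 0, nat_lit 0, nat_lit 0, [], [nat_lit 35, nat_lit 40, nat_lit 40, nat_lit 80, nat_lit 22, nat_lit 249, nat_lit 40, nat_lit 9]⟩, ⟨p120_k11, nat_lit 0, nat_lit 0, nat_lit 600, nat_lit 0, nat_lit 934845, [nat_lit 344610000, nat_lit 656250000, nat_lit 1033410000], [], [nat_lit 3843888340, nat_lit 3860148279, nat_lit 4010231333, nat_lit 4043083251, nat_lit 3284852374, nat_lit 3292480876, nat_lit 3377097142, nat_lit 3387274281], nat_lit 1271250, nat_lit 1271250, nat_lit 1271250, nat_lit 1271250, nat_lit 0, nat_lit 1949250, [nat_lit 780000, nat_lit 1435000, nat_lit 1271250], [nat_lit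 8, nat_lit 40, nat_lit 40, nat_lit 80, nat_lit 1, nat_lit 289, nat_lit 75, nat_lit 8]⟩,
 ⟨nat_lit 2236, nat_lit 2739, ⟨.ofNat (nat_lit 766852), .ofNat (nat_lit 843632), .ofNat (nat_lit 778061), .ofNat (nat_lit 854840), .ofNat (nat_lit 762142), .ofNat (nat_lit 836262), .ofNat (nat_lit 773529), .ofNat (nat_lit 847650)⟩, ⟨.ofNat (nat_lit 143475), .ofNat (nat_lit 261598), .ofNat (nat_lit 165893), .ofNat (nat_lit 284015), .ofNat (nat_lit 146758), .ofNat (nat_lit 260789), .ofNat (nat_lit 169532), .ofNat (nat_lit 283563)⟩⟩, [⟨nat_lit 13, nat_lit 53, nat_lit 65, nat_lit 100, nat_lit 296744050⟩, ⟨nat_lit 4, nat_lit 100, nat_lit 51, nat_lit 70, nat_lit 93446354⟩, ⟨nat_lit 7, nat_lit 100, nat_lit 94, nat_lit 69, nat_lit 9921037⟩]⟩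
noncomputable def p120_l75 : Lf2 := ⟨nat_lit 0, nat_lit 15, [nat_lit 30, nat_lit 5, nat_lit 5, nat_lit 20], false, nat_lit 80, nat_lit 176, nat_lit 0, nat_lit 268, ⟨nat_lit 1000, nat_lit 0, nat_lit 0, nat_lit 0, nat_lit 0, nat_lit 0, nat_lit 0, nat_lit 0, nat_lit 0, nat_lit 0, nat_lit 0, nat_lit 0, nat_lit 0, nat_lit 0, nat_lit 0, nat_lit 0, false, false⟩,
 nat_lit 0, nat_lit 0, nat_lit 9448, nat_lit 0, nat_lit 4633, nat_lit 6274, nat_lit 0, nat_lit 0, nat_lit 0, nat_lit 1022, nat_lit 0, nat_lit 0, nat_lit 0, nat_lit 0, nat_lit 0, nat_lit 0, nat_lit 0, nat_lit 0, [],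
 ⟨p120_k25, nat_lit 0, nat_lit 0, nat_lit 120, nat_lit 0, nat_lit 0, [nat_lit 938000000, nat_lit 2032000001, nat_lit 6250000000], [], [nat_lit 30734842576, nat_lit 31382907391, nat_lit 34292001193, nat_lit 34837844731, nat_lit 30780101168, nat_lit 31353086310, nat_lit 33927797638, nat_lit 34413197498], nat_lit 0, nat_lit 0, nat_lit 0, nat_lit 0, nat_lit 0, nat_lit 0, [], [nat_lit 131, nat_lit 40, nat_lit 40, nat_lit 80, nat_lit 64, nat_lit 260, nat_lit 50, nat_lit 8]⟩, ⟨p120_k20, nat_lit 0, nat_lit 0, nat_lit 546, nat_lit 0, nat_lit 803330, [nat_lit 3282000000, nat_lit 4688000000, nat_lit 9842000000], [], [nat_lit 33990320362, nat_lit 34217957506, nat_lit 36016373182, nat_lit 36279198615, nat_lit 30150970282, nat_lit 30267179956, nat_lit 31637916777, nat_lit 31821483987], nat_lit 1271250, nat_lit 1271250, nat_lit 1271250, nat_lit 1271250, nat_lit 0, nat_lit 1892750, [nat_lit 780000, nat_lit 1100000, nat_lit 2127500],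 [nat_lit 42, nat_lit 40, nat_lit 40, nat_lit 80, nat_lit 13, nat_lit 289, nat_lit 75, nat_lit 8]⟩,
 zbF0, [⟨nat_lit 4, nat_lit 100, nat_lit 58, nat_lit 68, nat_lit 426830728⟩, ⟨nat_lit 7, nat_lit 100, nat_lit 90, nat_lit 68, nat_lit 146479665⟩]⟩
noncomputable def p120_l76 : Lf2 := ⟨nat_lit 0, nat_lit 15, [nat_lit 30, nat_lit 5, nat_lit 5, nat_lit 20], false, nat_lit 80, nat_lit 160, nat_lit 0, nat_lit 268, ⟨nat_lit 115, nat_lit 885, nat_lit 0, nat_lit 8, nat_lit 330, nat_lit 885, nat_lit 86, nat_lit 0, nat_lit 0, nat_lit 0, nat_lit 0, nat_lit 0, nat_lit 37856175, nat_lit 26054398, nat_lit 3089427, nat_lit 4364713, true, true⟩,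
 nat_lit 0, nat_lit 0, nat_lit 1268, nat_lit 0, nat_lit 3255, nat_lit 842, nat_lit 0, nat_lit 0, nat_lit 0, nat_lit 67, nat_lit 0, nat_lit 0, nat_lit 0, nat_lit 0, nat_lit 0, nat_lit 221250, nat_lit 0, nat_lit 0, [(nat_lit 25, [(nat_lit 0, nat_lit 885)])],
 ⟨p120_k12, nat_lit 0, nat_lit 0, nat_lit 111, nat_lit 0, nat_lit 0, [nat_lit 784010001, nat_lit 1588818001, nat_lit 2057426000], [], [nat_lit 26666380721, nat_lit 27194778781, nat_lit 29417280693, nat_lit 29919276835, nat_lit 27054141661, nat_lit 27536751221, nat_lit 29528189311, nat_lit 29950045691], nat_lit 0, nat_lit 0, nat_lit 0, nat_lit 0, nat_lit 0, nat_lit 0, [], [nat_lit 35, nat_lit 40, nat_lit 40, nat_lit 80, nat_lit 22, nat_lit 249, nat_lit 40, nat_lit 9]⟩, ⟨p120_k24, nat_lit 0, nat_lit 0, nat_lit 602, nat_lit 0, nat_lit 942902, [nat_lit 377430000, nat_lit 718750000, nat_lit 1131830000], [], [nat_lit 4157273342, nat_lit 4175340314, nat_lit 4361744743,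 nat_lit 4395824480, nat_lit 3608329995, nat_lit 3617826092, nat_lit 3730747941, nat_lit 3741957076], nat_lit 1271250, nat_lit 1271250, nat_lit 1271250, nat_lit 1271250, nat_lit 0, nat_lit 1892750, [nat_lit 780000, nat_lit 1435000, nat_lit 1271250], [nat_lit 8, nat_lit 40, nat_lit 40, nat_lit 80, nat_lit 1, nat_lit 289, nat_lit 75, nat_lit 8]⟩,
 ⟨nat_lit 2236, nat_lit 2739, ⟨.ofNat (nat_lit 778061), .ofNat (nat_lit 866653), .ofNat (nat_lit 789269), .ofNat (nat_lit 877861), .ofNat (nat_lit 773529), .ofNat (nat_lit 859053), .ofNat (nat_lit 784917), .ofNat (nat_lit 870440)⟩, ⟨.ofNat (nat_lit 143475), .ofNat (nat_lit 261598), .ofNat (nat_lit 165893), .ofNat (nat_lit 284015), .ofNat (nat_lit 146758), .ofNat (nat_lit 260789), .ofNat (nat_lit 169532), .ofNat (nat_lit 283563)⟩⟩, [⟨nat_lit 13, nat_lit 55, nat_lit 61, nat_lit 100, nat_lit 284119899⟩, ⟨nat_lit 4, nat_lit 100, nat_lit 51, nat_lit 70, nat_lit 94452255⟩, ⟨nat_lit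 7, nat_lit 100, nat_lit 90, nat_lit 68, nat_lit 12179082⟩]⟩
noncomputable def p120_l77 : Lf2 := ⟨nat_lit 0, nat_lit 20, [nat_lit 5, nat_lit 5, nat_lit 5, nat_lit 20], false, nat_lit 80, nat_lit 160, nat_lit 0, nat_lit 160, ⟨nat_lit 1000, nat_lit 0, nat_lit 0, nat_lit 0, nat_lit 0, nat_lit 0, nat_lit 0, nat_lit 0, nat_lit 0, nat_lit 0, nat_lit 0, nat_lit 0, nat_lit 0, nat_lit 0, nat_lit 0, nat_lit 0, false, false⟩,
 nat_lit 0, nat_lit 0, nat_lit 11075, nat_lit 0, nat_lit 6460, nat_lit 7047, nat_lit 0, nat_lit 0, nat_lit 0, nat_lit 746, nat_lit 0, nat_lit 0, nat_lit 0, nat_lit 0, nat_lit 0, nat_lit 0, nat_lit 0, nat_lit 0, [],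
 ⟨p120_k3, nat_lit 0, nat_lit 0, nat_lit 119, nat_lit 0, nat_lit 0, [nat_lit 938000000, nat_lit 3282000000, nat_lit 6250000000], [], [nat_lit 30700261120, nat_lit 32259679720, nat_lit 33241008000, nat_lit 34632695200, nat_lit 29806621600, nat_lit 31209760640, nat_lit 32088939120, nat_lit 33344422080], nat_lit 0, nat_lit 0, nat_lit 0, nat_lit 0, nat_lit 0, nat_lit 0, [], [nat_lit 20, nat_lit 40, nat_lit 40, nat_lit 80, nat_lit 16, nat_lit 249, nat_lit 40, nat_lit 8]⟩, ⟨p120_k7, nat_lit 0, nat_lit 0, nat_lit 602, nat_lit 0, nat_lit 828508, [nat_lit 3282000000, nat_lit 6250000000, nat_lit 11872000000], [], [nat_lit 36919455180, nat_lit 37130332280, nat_lit 38175211654, nat_lit 38377349289, nat_lit 32465045374, nat_lit 32656274911, nat_lit 33527026574, nat_lit 33690560225], nat_lit 1271250, nat_lit 1271250, nat_lit 1271250, nat_lit 1271250, nat_lit 0, nat_lit 1100001, [nat_lit 780000, nat_lit 1435000, nat_lit 1271250],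 [nat_lit 23, nat_lit 40, nat_lit 40, nat_lit 80, nat_lit 12, nat_lit 345, nat_lit 125, nat_lit 8]⟩,
 zbF0, [⟨nat_lit 16, nat_lit 53, nat_lit 100, nat_lit 77, nat_lit 209425488⟩]⟩
noncomputable def p120_l78 : Lf2 := ⟨nat_lit 0, nat_lit 20, [nat_lit 5, nat_lit 5, nat_lit 5, nat_lit 20], false, nat_lit 80, nat_lit 160, nat_lit 160, nat_lit 300, ⟨nat_lit 1000, nat_lit 0, nat_lit 0, nat_lit 0, nat_lit 0, nat_lit 0, nat_lit 0, nat_lit 0, nat_lit 0, nat_lit 0, nat_lit 0, nat_lit 0, nat_lit 0, nat_lit 0, nat_lit 0, nat_lit 0, false, false⟩,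
 nat_lit 0, nat_lit 0, nat_lit 11550, nat_lit 0, nat_lit 6869, nat_lit 7350, nat_lit 0, nat_lit 0, nat_lit 0, nat_lit 717, nat_lit 0, nat_lit 0, nat_lit 0, nat_lit 0, nat_lit 0, nat_lit 0, nat_lit 0, nat_lit 0, [],
 ⟨p120_k3, nat_lit 0, nat_lit 0, nat_lit 115, nat_lit 0, nat_lit 0, [nat_lit 938000000, nat_lit 3282000000, nat_lit 6250000000], [], [nat_lit 30692519568, nat_lit 31501699363, nat_lit 33454648108, nat_lit 34354869177, nat_lit 29644395840, nat_lit 30371512318, nat_lit 32000174668, nat_lit 32649588240], nat_lit 0, nat_lit 0, nat_lit 0, nat_lit 0, nat_lit 0, nat_lit 0, [], [nat_lit 20, nat_lit 40, nat_lit 40, nat_lit 80, nat_lit 16, nat_lit 249, nat_lit 40, nat_lit 8]⟩, ⟨p120_k7, nat_lit 0, nat_lit 0, nat_lit 407, nat_lit 0, nat_lit 682079, [nat_lit 3282000000, nat_lit 6250000000, nat_lit 11872000000], [], [nat_lit 30553297750, nat_lit 30731273650, nat_lit 31587544750, nat_lit 31736262650, nat_lit 31241185775,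 nat_lit 31414949525, nat_lit 32253599225, nat_lit 32398600913], nat_lit 1271250, nat_lit 1271250, nat_lit 1271250, nat_lit 1271250, nat_lit 1100001, nat_lit 2298750, [nat_lit 780000, nat_lit 1435000, nat_lit 1271250], [nat_lit 23, nat_lit 40, nat_lit 40, nat_lit 80, nat_lit 12, nat_lit 373, nat_lit 150, nat_lit 8]⟩,
 zbF0, [⟨nat_lit 4, nat_lit 100, nat_lit 57, nat_lit 76, nat_lit 136920722⟩, ⟨nat_lit 7, nat_lit 100, nat_lit 99, nat_lit 83, nat_lit 296091586⟩]⟩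
noncomputable def p120_l79 : Lf2 := ⟨nat_lit 0, nat_lit 20, [nat_lit 5, nat_lit 5, nat_lit 5, nat_lit 20], false, nat_lit 80, nat_lit 160, nat_lit 160, nat_lit 300, ⟨nat_lit 139, nat_lit 861, nat_lit 0, nat_lit 8, nat_lit 319, nat_lit 861, nat_lit 95, nat_lit 0, nat_lit 0, nat_lit 0, nat_lit 0, nat_lit 0, nat_lit 38537334, nat_lit 24821377, nat_lit 3641289, nat_lit 4448649, true, true⟩,
 nat_lit 0, nat_lit 0, nat_lit 1614, nat_lit 0, nat_lit 2961, nat_lit 1027, nat_lit 196, nat_lit 0, nat_lit 0, nat_lit 100, nat_lit 0, nat_lit 0, nat_lit 0, nat_lit 0, nat_lit 0, nat_lit 215250, nat_lit 0, nat_lit 0, [(nat_lit 25, [(nat_lit 0, nat_lit 861)])],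
 ⟨p120_k9, nat_lit 0, nat_lit 0, nat_lit 119, nat_lit 0, nat_lit 0, [nat_lit 788186000, nat_lit 1634734800, nat_lit 2692348000], [], [nat_lit 26002700383, nat_lit 26473513294, nat_lit 27639092660, nat_lit 28219384974, nat_lit 26471194468, nat_lit 26902789564, nat_lit 27923843179, nat_lit 28321331258], nat_lit 0, nat_lit 0, nat_lit 0, nat_lit 0, nat_lit 0, nat_lit 0, [], [nat_lit 20, nat_lit 40, nat_lit 40, nat_lit 80, nat_lit 16, nat_lit 249, nat_lit 40, nat_lit 8]⟩, ⟨p120_k7, nat_lit 0, nat_lit 0, nat_lit 490, nat_lit 0, nat_lit 797340, [nat_lit 456198000, nat_lit 868750000, nat_lit 1650208000], [], [nat_lit 4224834504, nat_lit 4237197340, nat_lit 4368749452, nat_lit 4379070190, nat_lit 4323067377, nat_lit 4335136468, nat_lit 4463936264, nat_lit 4479120292], nat_lit 1271250, nat_lit 1271250, nat_lit 1271250, nat_lit 1271250, nat_lit 1100001, nat_lit 2298750, [nat_lit 780000, nat_lit 1435000, nat_lit 1271250], [nat_lit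 23, nat_lit 40, nat_lit 40, nat_lit 80, nat_lit 12, nat_lit 373, nat_lit 150, nat_lit 8]⟩,
 ⟨nat_lit 2236, nat_lit 2739, ⟨.ofNat (nat_lit 766852), .ofNat (nat_lit 825913), .ofNat (nat_lit 772456), .ofNat (nat_lit 831518), .ofNat (nat_lit 762142), .ofNat (nat_lit 819158), .ofNat (nat_lit 767836), .ofNat (nat_lit 824851)⟩, ⟨.ofNat (nat_lit 165893), .ofNat (nat_lit 284015), .ofNat (nat_lit 188310), .ofNat (nat_lit 306433), .ofNat (nat_lit 169532), .ofNat (nat_lit 283563), .ofNat (nat_lit 192306), .ofNat (nat_lit 306337)⟩⟩, [⟨nat_lit 13, nat_lit 48, nat_lit 71, nat_lit 100, nat_lit 268045521⟩, ⟨nat_lit 16, nat_lit 49, nat_lit 100, nat_lit 78, nat_lit 95906024⟩, ⟨nat_lit 7, nat_lit 99, nat_lit 100, nat_lit 83, nat_lit 41021416⟩]⟩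
noncomputable def p120_l80 : Lf2 := ⟨nat_lit 0, nat_lit 20, [nat_lit 5, nat_lit 5, nat_lit 5, nat_lit 20], false, nat_lit 80, nat_lit 160, nat_lit 160, nat_lit 296, ⟨nat_lit 213, nat_lit 787, nat_lit 0, nat_lit 8, nat_lit 321, nat_lit 787, nat_lit 95, nat_lit 0, nat_lit 0, nat_lit 0, nat_lit 0, nat_lit 0, nat_lit 38339570, nat_lit 25031731, nat_lit 3628699, nat_lit 4452983, true, true⟩,
 nat_lit 0, nat_lit 0, nat_lit 1960, nat_lit 0, nat_lit 3041, nat_lit 1274, nat_lit 215, nat_lit 0, nat_lit 0, nat_lit 159, nat_lit 0, nat_lit 0, nat_lit 0, nat_lit 0, nat_lit 0, nat_lit 196750, nat_lit 0, nat_lit 0, [(nat_lit 25, [(nat_lit 0, nat_lit 787)])],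
 ⟨p120_k9, nat_lit 0, nat_lit 0, nat_lit 119, nat_lit 0, nat_lit 0, [nat_lit 801062000, nat_lit 1776311600, nat_lit 2998116000], [], [nat_lit 26131666173, nat_lit 26613735072, nat_lit 27785317960, nat_lit 28363411694, nat_lit 26572919058, nat_lit 27008717034, nat_lit 28036907849, nat_lit 28437967048], nat_lit 0, nat_lit 0, nat_lit 0, nat_lit 0, nat_lit 0, nat_lit 0, [], [nat_lit 20, nat_lit 40, nat_lit 40, nat_lit 80, nat_lit 16, nat_lit 249, nat_lit 40, nat_lit 8]⟩, ⟨p120_k31, nat_lit 0, nat_lit 0, nat_lit 491, nat_lit 0, nat_lit 802963, [nat_lit 699066000, nat_lit 1331250000, nat_lit 2528736000], [], [nat_lit 7017624663, nat_lit 7041280734, nat_lit 7265816923, nat_lit 7289121242, nat_lit 7275739117, nat_lit 7294888917, nat_lit 7483070574, nat_lit 7499816979], nat_lit 1271250, nat_lit 1271250, nat_lit 1271250, nat_lit 1271250, nat_lit 1100001, nat_lit 2264500, [nat_lit 780000, nat_lit 1435000, nat_lit 1271250],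 [nat_lit 23, nat_lit 40, nat_lit 40, nat_lit 80, nat_lit 12, nat_lit 373, nat_lit 150, nat_lit 8]⟩,
 ⟨nat_lit 2236, nat_lit 2739, ⟨.ofNat (nat_lit 772456), .ofNat (nat_lit 831518), .ofNat (nat_lit 778061), .ofNat (nat_lit 837122), .ofNat (nat_lit 767836), .ofNat (nat_lit 824851), .ofNat (nat_lit 773529), .ofNat (nat_lit 830545)⟩, ⟨.ofNat (nat_lit 165893), .ofNat (nat_lit 284015), .ofNat (nat_lit 188310), .ofNat (nat_lit 306433), .ofNat (nat_lit 169532), .ofNat (nat_lit 283563), .ofNat (nat_lit 192306), .ofNat (nat_lit 306337)⟩⟩, [⟨nat_lit 13, nat_lit 48, nat_lit 70, nat_lit 100, nat_lit 233406032⟩, ⟨nat_lit 4, nat_lit 100, nat_lit 49, nat_lit 78, nat_lit 122537914⟩, ⟨nat_lit 19, nat_lit 98, nat_lit 100, nat_lit 83, nat_lit 66608325⟩]⟩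
noncomputable def p120_l81 : Lf2 := ⟨nat_lit 0, nat_lit 20, [nat_lit 5, nat_lit 5, nat_lit 5, nat_lit 20], false, nat_lit 80, nat_lit 160, nat_lit 0, nat_lit 160, ⟨nat_lit 1000, nat_lit 0, nat_lit 0, nat_lit 0, nat_lit 0, nat_lit 0, nat_lit 0, nat_lit 0, nat_lit 0, nat_lit 0, nat_lit 0, nat_lit 0, nat_lit 0, nat_lit 0, nat_lit 0, nat_lit 0, false, false⟩,
 nat_lit 0, nat_lit 0, nat_lit 10328, nat_lit 0, nat_lit 6475, nat_lit 6859, nat_lit 0, nat_lit 0, nat_lit 0, nat_lit 757, nat_lit 0, nat_lit 0, nat_lit 0, nat_lit 0, nat_lit 0, nat_lit 0, nat_lit 0, nat_lit 0, [],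
 ⟨p120_k3, nat_lit 0, nat_lit 0, nat_lit 119, nat_lit 0, nat_lit 0, [nat_lit 938000000, nat_lit 3282000000, nat_lit 6250000000], [], [nat_lit 30699977200, nat_lit 32261557450, nat_lit 33243885000, nat_lit 34637410000, nat_lit 29800672000, nat_lit 31205684900, nat_lit 32085683700, nat_lit 33342756300], nat_lit 0, nat_lit 0, nat_lit 0, nat_lit 0, nat_lit 0, nat_lit 0, [], [nat_lit 20, nat_lit 40, nat_lit 40, nat_lit 80, nat_lit 16, nat_lit 249, nat_lit 40, nat_lit 8]⟩, ⟨p120_k8, nat_lit 0, nat_lit 0, nat_lit 610, nat_lit 0, nat_lit 840545, [nat_lit 3282000000, nat_lit 6250000000, nat_lit 11872000000], [], [nat_lit 34879428785, nat_lit 35114150043, nat_lit 36116209758, nat_lit 36461548429, nat_lit 30584220892, nat_lit 30775512281, nat_lit 31612075735, nat_lit 31775933567], nat_lit 1271250, nat_lit 1271250, nat_lit 1271250, nat_lit 1271250, nat_lit 0, nat_lit 1100001, [nat_lit 780000, nat_lit 1435000, nat_lit 1271250],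 [nat_lit 23, nat_lit 40, nat_lit 40, nat_lit 80, nat_lit 12, nat_lit 345, nat_lit 125, nat_lit 8]⟩,
 zbF0, [⟨nat_lit 4, nat_lit 100, nat_lit 53, nat_lit 77, nat_lit 208424498⟩]⟩
noncomputable def p120_l82 : Lf2 := ⟨nat_lit 0, nat_lit 20, [nat_lit 5, nat_lit 5, nat_lit 5, nat_lit 20], false, nat_lit 80, nat_lit 160, nat_lit 160, nat_lit 292, ⟨nat_lit 1000, nat_lit 0, nat_lit 0, nat_lit 0, nat_lit 0, nat_lit 0, nat_lit 0, nat_lit 0, nat_lit 0, nat_lit 0, nat_lit 0, nat_lit 0, nat_lit 0, nat_lit 0, nat_lit 0, nat_lit 0, false, false⟩,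
 nat_lit 0, nat_lit 0, nat_lit 10205, nat_lit 0, nat_lit 6869, nat_lit 6777, nat_lit 0, nat_lit 0, nat_lit 0, nat_lit 740, nat_lit 0, nat_lit 0, nat_lit 0, nat_lit 0, nat_lit 0, nat_lit 0, nat_lit 0, nat_lit 0, [],
 ⟨p120_k3, nat_lit 0, nat_lit 0, nat_lit 115, nat_lit 0, nat_lit 0, [nat_lit 938000000, nat_lit 3282000000, nat_lit 6250000000], [], [nat_lit 30692519568, nat_lit 31501699363, nat_lit 33454648108, nat_lit 34354869177, nat_lit 29644395840, nat_lit 30371512318, nat_lit 32000174668, nat_lit 32649588240], nat_lit 0, nat_lit 0, nat_lit 0, nat_lit 0, nat_lit 0, nat_lit 0, [], [nat_lit 20, nat_lit 40, nat_lit 40, nat_lit 80, nat_lit 16, nat_lit 249, nat_lit 40, nat_lit 8]⟩, ⟨p120_k8, nat_lit 0, nat_lit 0, nat_lit 415, nat_lit 0, nat_lit 706611, [nat_lit 3282000000, nat_lit 6250000000, nat_lit 11872000000], [], [nat_lit 29796578093, nat_lit 30051615994, nat_lit 31122721747, nat_lit 31343367962, nat_lit 30871679388,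 nat_lit 31051929439, nat_lit 31863362752, nat_lit 32016470768], nat_lit 1271250, nat_lit 1271250, nat_lit 1271250, nat_lit 1271250, nat_lit 1100001, nat_lit 2230250, [nat_lit 780000, nat_lit 1435000, nat_lit 1271250], [nat_lit 23, nat_lit 40, nat_lit 40, nat_lit 80, nat_lit 12, nat_lit 373, nat_lit 150, nat_lit 8]⟩,
 zbF0, [⟨nat_lit 4, nat_lit 100, nat_lit 57, nat_lit 76, nat_lit 136920722⟩, ⟨nat_lit 7, nat_lit 100, nat_lit 94, nat_lit 81, nat_lit 319359296⟩]⟩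
noncomputable def p120_l83 : Lf2 := ⟨nat_lit 0, nat_lit 20, [nat_lit 5, nat_lit 5, nat_lit 5, nat_lit 20], false, nat_lit 80, nat_lit 160, nat_lit 160, nat_lit 292, ⟨nat_lit 818, nat_lit 182, nat_lit 0, nat_lit 8, nat_lit 324, nat_lit 182, nat_lit 95, nat_lit 0, nat_lit 0, nat_lit 0, nat_lit 0, nat_lit 0, nat_lit 38044309, nat_lit 25345970, nat_lit 3609721, nat_lit 4459008, true, true⟩,
 nat_lit 0, nat_lit 0, nat_lit 7548, nat_lit 0, nat_lit 4194, nat_lit 5012, nat_lit 288, nat_lit 0, nat_lit 0, nat_lit 617, nat_lit 0, nat_lit 0, nat_lit 0, nat_lit 0, nat_lit 0, nat_lit 45500, nat_lit 0, nat_lit 0, [(nat_lit 25, [(nat_lit 0, nat_lit 182)])],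
 ⟨p120_k9, nat_lit 0, nat_lit 0, nat_lit 119, nat_lit 0, nat_lit 0, [nat_lit 906332000, nat_lit 2933797601, nat_lit 5497976000], [], [nat_lit 27882360638, nat_lit 28498793308, nat_lit 29886193640, nat_lit 30443222080, nat_lit 27841885693, nat_lit 28349337033, nat_lit 29611171240, nat_lit 30118841912], nat_lit 0, nat_lit 0, nat_lit 0, nat_lit 0, nat_lit 0, nat_lit 0, [], [nat_lit 20, nat_lit 40, nat_lit 40, nat_lit 80, nat_lit 16, nat_lit 249, nat_lit 40, nat_lit 8]⟩, ⟨p120_k8, nat_lit 0, nat_lit 0, nat_lit 504, nat_lit 0, nat_lit 840545, [nat_lit 2684676000, nat_lit 5112500000, nat_lit 9711296000], [], [nat_lit 25922988705, nat_lit 26083526089, nat_lit 26783962415, nat_lit 26963231029, nat_lit 26721721754, nat_lit 26872953535, nat_lit 27544180994, nat_lit 27684567198], nat_lit 1271250, nat_lit 1271250, nat_lit 1271250, nat_lit 1271250, nat_lit 1100001, nat_lit 2230250, [nat_lit 780000, nat_lit 1435000, nat_lit 1271250],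 [nat_lit 23, nat_lit 40, nat_lit 40, nat_lit 80, nat_lit 12, nat_lit 373, nat_lit 150, nat_lit 8]⟩,
 ⟨nat_lit 2236, nat_lit 2739, ⟨.ofNat (nat_lit 778061), .ofNat (nat_lit 837122), .ofNat (nat_lit 789269), .ofNat (nat_lit 848331), .ofNat (nat_lit 773529), .ofNat (nat_lit 830545), .ofNat (nat_lit 784917), .ofNat (nat_lit 841932)⟩, ⟨.ofNat (nat_lit 165893), .ofNat (nat_lit 284015), .ofNat (nat_lit 188310), .ofNat (nat_lit 306433), .ofNat (nat_lit 169532), .ofNat (nat_lit 283563), .ofNat (nat_lit 192306), .ofNat (nat_lit 306337)⟩⟩, [⟨nat_lit 4, nat_lit 100, nat_lit 49, nat_lit 78, nat_lit 306518939⟩, ⟨nat_lit 7, nat_lit 100, nat_lit 94, nat_lit 81, nat_lit 269613939⟩]⟩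
noncomputable def p120_l84 : Lf2 := ⟨nat_lit 0, nat_lit 20, [nat_lit 5, nat_lit 5, nat_lit 5, nat_lit 20], false, nat_lit 80, nat_lit 160, nat_lit 8, nat_lit 288, ⟨nat_lit 101, nat_lit 899, nat_lit 0, nat_lit 9, nat_lit 337, nat_lit 899, nat_lit 94, nat_lit 0, nat_lit 0, nat_lit 0, nat_lit 0, nat_lit 0, nat_lit 36928723, nat_lit 26558705, nat_lit 3512572, nat_lit 4472530, true, true⟩,
 nat_lit 0, nat_lit 0, nat_lit 1208, nat_lit 0, nat_lit 3936, nat_lit 768, nat_lit 0, nat_lit 0, nat_lit 0, nat_lit 68, nat_lit 0, nat_lit 0, nat_lit 0, nat_lit 0, nat_lit 0, nat_lit 224750, nat_lit 0, nat_lit 0, [(nat_lit 25, [(nat_lit 0, nat_lit 899)])],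
 ⟨p120_k3, nat_lit 0, nat_lit 0, nat_lit 125, nat_lit 0, nat_lit 0, [nat_lit 781574001, nat_lit 1562033200, nat_lit 2535332000], [], [nat_lit 29042236800, nat_lit 30124683520, nat_lit 30124683520, nat_lit 31220448144, nat_lit 28922049792, nat_lit 29910049328, nat_lit 29910049328, nat_lit 30848536104], nat_lit 0, nat_lit 0, nat_lit 0, nat_lit 0, nat_lit 0, nat_lit 0, [], [nat_lit 20, nat_lit 40, nat_lit 40, nat_lit 80, nat_lit 16, nat_lit 249, nat_lit 40, nat_lit 7]⟩, ⟨p120_k7, nat_lit 0, nat_lit 0, nat_lit 572, nat_lit 0, nat_lit 797340, [nat_lit 331482000, nat_lit 631250000, nat_lit 1199072000], [], [nat_lit 3822723312, nat_lit 3835010721, nat_lit 3915708263, nat_lit 3926845817, nat_lit 3253043350, nat_lit 3260209528, nat_lit 3346532907, nat_lit 3359166469], nat_lit 1271250, nat_lit 1271250, nat_lit 1271250, nat_lit 1271250, nat_lit 43600, nat_lit 2042100, [nat_lit 780000, nat_lit 1435000, nat_lit 1271250], [nat_lit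 23, nat_lit 40, nat_lit 40, nat_lit 80, nat_lit 12, nat_lit 373, nat_lit 150, nat_lit 9]⟩,
 ⟨nat_lit 2236, nat_lit 3163, ⟨.ofNat (nat_lit 832432), .ofNat (nat_lit 862908), .ofNat (nat_lit 837970), .ofNat (nat_lit 868447), .ofNat (nat_lit 819158), .ofNat (nat_lit 847666), .ofNat (nat_lit 824851), .ofNat (nat_lit 853359)⟩, ⟨.ofNat (nat_lit 162054), .ofNat (nat_lit 283961), .ofNat (nat_lit 184209), .ofNat (nat_lit 306116), .ofNat (nat_lit 169532), .ofNat (nat_lit 283563), .ofNat (nat_lit 192306), .ofNat (nat_lit 306337)⟩⟩, [⟨nat_lit 13, nat_lit 58, nat_lit 61, nat_lit 100, nat_lit 377759331⟩, ⟨nat_lit 4, nat_lit 100, nat_lit 53, nat_lit 77, nat_lit 33626221⟩, ⟨nat_lit 22, nat_lit 61, nat_lit 92, nat_lit 100, nat_lit 12844295⟩]⟩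
noncomputable def p120_l85 : Lf2 := ⟨nat_lit 0, nat_lit 20, [nat_lit 5, nat_lit 5, nat_lit 5, nat_lit 20], false, nat_lit 80, nat_lit 160, nat_lit 8, nat_lit 288, ⟨nat_lit 101, nat_lit 899, nat_lit 0, nat_lit 9, nat_lit 340, nat_lit 899, nat_lit 94, nat_lit 0, nat_lit 0, nat_lit 0, nat_lit 0, nat_lit 0, nat_lit 36738265, nat_lit 26761935, nat_lit 3499800, nat_lit 4474844, true, true⟩,
 nat_lit 0, nat_lit 0, nat_lit 1141, nat_lit 0, nat_lit 3920, nat_lit 741, nat_lit 0, nat_lit 0, nat_lit 0, nat_lit 69, nat_lit 0, nat_lit 0, nat_lit 0, nat_lit 0, nat_lit 0, nat_lit 224750, nat_lit 0, nat_lit 0, [(nat_lit 25, [(nat_lit 0, nat_lit 899)])],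
 ⟨p120_k3, nat_lit 0, nat_lit 0, nat_lit 125, nat_lit 0, nat_lit 0, [nat_lit 781574001, nat_lit 1562033200, nat_lit 2535332000], [], [nat_lit 29039168000, nat_lit 30119654400, nat_lit 30119654400, nat_lit 31189255680, nat_lit 28925522240, nat_lit 29911826160, nat_lit 29911826160, nat_lit 30848767880], nat_lit 0, nat_lit 0, nat_lit 0, nat_lit 0, nat_lit 0, nat_lit 0, [], [nat_lit 20, nat_lit 40, nat_lit 40, nat_lit 80, nat_lit 16, nat_lit 249, nat_lit 40, nat_lit 7]⟩, ⟨p120_k31, nat_lit 0, nat_lit 0, nat_lit 573, nat_lit 0, nat_lit 802963, [nat_lit 331482000, nat_lit 631250000, nat_lit 1199072000], [], [nat_lit 3709229026, nat_lit 3731655230, nat_lit 3857773005, nat_lit 3878328823, nat_lit 3238569045, nat_lit 3252363890, nat_lit 3337060834, nat_lit 3349645148], nat_lit 1271250, nat_lit 1271250, nat_lit 1271250, nat_lit 1271250, nat_lit 43600, nat_lit 2042100, [nat_lit 780000, nat_lit 1435000, nat_lit 1271250], [nat_lit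 23, nat_lit 40, nat_lit 40, nat_lit 80, nat_lit 12, nat_lit 373, nat_lit 150, nat_lit 9]⟩,
 ⟨nat_lit 2236, nat_lit 3163, ⟨.ofNat (nat_lit 837970), .ofNat (nat_lit 868447), .ofNat (nat_lit 843509), .ofNat (nat_lit 873986), .ofNat (nat_lit 824851), .ofNat (nat_lit 853359), .ofNat (nat_lit 830545), .ofNat (nat_lit 859053)⟩, ⟨.ofNat (nat_lit 162054), .ofNat (nat_lit 283961), .ofNat (nat_lit 184209), .ofNat (nat_lit 306116), .ofNat (nat_lit 169532), .ofNat (nat_lit 283563), .ofNat (nat_lit 192306), .ofNat (nat_lit 306337)⟩⟩, [⟨nat_lit 13, nat_lit 59, nat_lit 59, nat_lit 100, nat_lit 345545905⟩, ⟨nat_lit 16, nat_lit 53, nat_lit 100, nat_lit 77, nat_lit 34304838⟩, ⟨nat_lit 22, nat_lit 61, nat_lit 92, nat_lit 100, nat_lit 14443351⟩]⟩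
noncomputable def p120_l86 : Lf2 := ⟨nat_lit 0, nat_lit 20, [nat_lit 5, nat_lit 5, nat_lit 5, nat_lit 20], false, nat_lit 80, nat_lit 160, nat_lit 8, nat_lit 160, ⟨nat_lit 1000, nat_lit 0, nat_lit 0, nat_lit 0, nat_lit 0, nat_lit 0, nat_lit 0, nat_lit 0, nat_lit 0, nat_lit 0, nat_lit 0, nat_lit 0, nat_lit 0, nat_lit 0, nat_lit 0, nat_lit 0, false, false⟩,
 nat_lit 0, nat_lit 0, nat_lit 10195, nat_lit 0, nat_lit 5015, nat_lit 6770, nat_lit 0, nat_lit 0, nat_lit 0, nat_lit 758, nat_lit 0, nat_lit 0, nat_lit 0, nat_lit 0, nat_lit 0, nat_lit 0, nat_lit 0, nat_lit 0, [],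
 ⟨p120_k3, nat_lit 0, nat_lit 0, nat_lit 126, nat_lit 0, nat_lit 0, [nat_lit 938000000, nat_lit 3282000000, nat_lit 6250000000], [], [nat_lit 32963857000, nat_lit 34178502800, nat_lit 34421431961, nat_lit 35555020922, nat_lit 32505635880, nat_lit 33505017390, nat_lit 33725361749, nat_lit 34756110009], nat_lit 0, nat_lit 0, nat_lit 0, nat_lit 0, nat_lit 0, nat_lit 0, [], [nat_lit 20, nat_lit 40, nat_lit 40, nat_lit 80, nat_lit 16, nat_lit 249, nat_lit 40, nat_lit 7]⟩, ⟨p120_k8, nat_lit 0, nat_lit 0, nat_lit 592, nat_lit 0, nat_lit 840545, [nat_lit 3282000000, nat_lit 6250000000, nat_lit 11872000000], [], [nat_lit 36039309590, nat_lit 36240091394, nat_lit 37120688666, nat_lit 37509444761, nat_lit 31941747050, nat_lit 32105921010, nat_lit 32783821146, nat_lit 32996329244], nat_lit 1271250, nat_lit 1271250, nat_lit 1271250, nat_lit 1271250, nat_lit 43600, nat_lit 1100001, [nat_lit 780000, nat_lit 1435000, nat_lit 1271250],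 [nat_lit 23, nat_lit 40, nat_lit 40, nat_lit 80, nat_lit 12, nat_lit 345, nat_lit 125, nat_lit 8]⟩,
 zbF0, [⟨nat_lit 13, nat_lit 49, nat_lit 68, nat_lit 100, nat_lit 189828507⟩, ⟨nat_lit 4, nat_lit 100, nat_lit 53, nat_lit 77, nat_lit 303592287⟩]⟩
noncomputable def p120_l87 : Lf2 := ⟨nat_lit 0, nat_lit 20, [nat_lit 5, nat_lit 5, nat_lit 5, nat_lit 20], false, nat_lit 80, nat_lit 160, nat_lit 160, nat_lit 288, ⟨nat_lit 1000, nat_lit 0, nat_lit 0, nat_lit 0, nat_lit 0, nat_lit 0, nat_lit 0, nat_lit 0, nat_lit 0, nat_lit 0, nat_lit 0, nat_lit 0, nat_lit 0, nat_lit 0, nat_lit 0, nat_lit 0, false, false⟩,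
 nat_lit 0, nat_lit 0, nat_lit 10103, nat_lit 0, nat_lit 6611, nat_lit 6709, nat_lit 0, nat_lit 0, nat_lit 0, nat_lit 743, nat_lit 0, nat_lit 0, nat_lit 0, nat_lit 0, nat_lit 0, nat_lit 0, nat_lit 0, nat_lit 0, [],
 ⟨p120_k3, nat_lit 0, nat_lit 0, nat_lit 123, nat_lit 0, nat_lit 0, [nat_lit 938000000, nat_lit 3282000000, nat_lit 6250000000], [], [nat_lit 33269969800, nat_lit 33975063660, nat_lit 35142250639, nat_lit 35953327844, nat_lit 32056167892, nat_lit 32691910560, nat_lit 33581950296, nat_lit 34172882258], nat_lit 0, nat_lit 0, nat_lit 0, nat_lit 0, nat_lit 0, nat_lit 0, [], [nat_lit 20, nat_lit 40, nat_lit 40, nat_lit 80, nat_lit 16, nat_lit 249, nat_lit 40, nat_lit 7]⟩, ⟨p120_k8, nat_lit 0, nat_lit 0, nat_lit 417, nat_lit 0, nat_lit 706611, [nat_lit 3282000000, nat_lit 6250000000, nat_lit 11872000000], [], [nat_lit 31273902074, nat_lit 31494392229, nat_lit 32173523727, nat_lit 32373224329, nat_lit 31979514792,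 nat_lit 32134973386, nat_lit 32811000580, nat_lit 33014313625], nat_lit 1271250, nat_lit 1271250, nat_lit 1271250, nat_lit 1271250, nat_lit 1100001, nat_lit 2196000, [nat_lit 780000, nat_lit 1435000, nat_lit 1271250], [nat_lit 23, nat_lit 40, nat_lit 40, nat_lit 80, nat_lit 12, nat_lit 373, nat_lit 150, nat_lit 8]⟩,
 zbF0, [⟨nat_lit 13, nat_lit 64, nat_lit 52, nat_lit 100, nat_lit 168348871⟩, ⟨nat_lit 4, nat_lit 100, nat_lit 57, nat_lit 76, nat_lit 126288941⟩, ⟨nat_lit 7, nat_lit 100, nat_lit 94, nat_lit 81, nat_lit 317460975⟩]⟩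
noncomputable def p120_l88 : Lf2 := ⟨nat_lit 0, nat_lit 20, [nat_lit 5, nat_lit 5, nat_lit 5, nat_lit 20], false, nat_lit 80, nat_lit 160, nat_lit 160, nat_lit 288, ⟨nat_lit 1000, nat_lit 0, nat_lit 0, nat_lit 0, nat_lit 0, nat_lit 0, nat_lit 0, nat_lit 0, nat_lit 0, nat_lit 0, nat_lit 0, nat_lit 0, nat_lit 0, nat_lit 0, nat_lit 0, nat_lit 0, false, false⟩,
 nat_lit 0, nat_lit 0, nat_lit 9238, nat_lit 0, nat_lit 4304, nat_lit 6135, nat_lit 326, nat_lit 0, nat_lit 0, nat_lit 751, nat_lit 0, nat_lit 0, nat_lit 0, nat_lit 0, nat_lit 0, nat_lit 0, nat_lit 0, nat_lit 0, [],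
 ⟨p120_k9, nat_lit 0, nat_lit 0, nat_lit 125, nat_lit 0, nat_lit 0, [nat_lit 938000000, nat_lit 3282000000, nat_lit 6250000000], [], [nat_lit 30306479240, nat_lit 30870246280, nat_lit 31404040288, nat_lit 31937874816, nat_lit 30032298036, nat_lit 30499341804, nat_lit 30986086724, nat_lit 31473098256], nat_lit 0, nat_lit 0, nat_lit 0, nat_lit 0, nat_lit 0, nat_lit 0, [], [nat_lit 20, nat_lit 40, nat_lit 40, nat_lit 80, nat_lit 16, nat_lit 249, nat_lit 40, nat_lit 7]⟩, ⟨p120_k8, nat_lit 0, nat_lit 0, nat_lit 503, nat_lit 0, nat_lit 840545, [nat_lit 3282000000, nat_lit 6250000000, nat_lit 11872000000], [], [nat_lit 32761551360, nat_lit 32980724185, nat_lit 33485529768, nat_lit 33688581930, nat_lit 33604657627, nat_lit 33763106532, nat_lit 34261297350, nat_lit 34467681065], nat_lit 1271250, nat_lit 1271250, nat_lit 1271250, nat_lit 1271250, nat_lit 1100001, nat_lit 2196000, [nat_lit 780000, nat_lit 1435000, nat_lit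 1271250], [nat_lit 23, nat_lit 40, nat_lit 40, nat_lit 80, nat_lit 12, nat_lit 373, nat_lit 150, nat_lit 8]⟩,
 zbF0, [⟨nat_lit 13, nat_lit 49, nat_lit 68, nat_lit 100, nat_lit 128389642⟩, ⟨nat_lit 4, nat_lit 100, nat_lit 49, nat_lit 78, nat_lit 373601533⟩, ⟨nat_lit 19, nat_lit 94, nat_lit 100, nat_lit 81, nat_lit 324744490⟩]⟩
noncomputable def p120_l89 : Lf2 := ⟨nat_lit 0, nat_lit 20, [nat_lit 5, nat_lit 5, nat_lit 5, nat_lit 20], false, nat_lit 160, nat_lit 200, nat_lit 16, nat_lit 160, ⟨nat_lit 1000, nat_lit 0, nat_lit 0, nat_lit 0, nat_lit 0, nat_lit 0, nat_lit 0, nat_lit 0, nat_lit 0, nat_lit 0, nat_lit 0, nat_lit 0, nat_lit 0, nat_lit 0, nat_lit 0, nat_lit 0, false, false⟩,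
 nat_lit 0, nat_lit 0, nat_lit 11546, nat_lit 0, nat_lit 6552, nat_lit 7347, nat_lit 0, nat_lit 0, nat_lit 0, nat_lit 729, nat_lit 0, nat_lit 0, nat_lit 0, nat_lit 0, nat_lit 0, nat_lit 0, nat_lit 0, nat_lit 0, [],
 ⟨p120_k3, nat_lit 0, nat_lit 0, nat_lit 99, nat_lit 0, nat_lit 0, [nat_lit 938000000, nat_lit 3282000000, nat_lit 6250000000], [], [nat_lit 29770130720, nat_lit 31184762768, nat_lit 33334205296, nat_lit 34525308728, nat_lit 30285184512, nat_lit 31604961736, nat_lit 33602254568, nat_lit 34779927268], nat_lit 0, nat_lit 0, nat_lit 0, nat_lit 0, nat_lit 0, nat_lit 0, [], [nat_lit 20, nat_lit 40, nat_lit 40, nat_lit 80, nat_lit 16, nat_lit 260, nat_lit 50, nat_lit 8]⟩, ⟨p120_k7, nat_lit 0, nat_lit 0, nat_lit 577, nat_lit 0, nat_lit 828508, [nat_lit 3282000000, nat_lit 6250000000, nat_lit 11872000000], [], [nat_lit 35618366143, nat_lit 35776873903, nat_lit 37500784714, nat_lit 37682943659, nat_lit 31462883599,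 nat_lit 31654014436, nat_lit 33158332513, nat_lit 33355731888], nat_lit 1271250, nat_lit 1271250, nat_lit 1271250, nat_lit 1271250, nat_lit 88400, nat_lit 1100001, [nat_lit 780000, nat_lit 1435000, nat_lit 1271250], [nat_lit 23, nat_lit 40, nat_lit 40, nat_lit 80, nat_lit 12, nat_lit 345, nat_lit 125, nat_lit 8]⟩,
 zbF0, [⟨nat_lit 13, nat_lit 48, nat_lit 71, nat_lit 100, nat_lit 57544060⟩, ⟨nat_lit 4, nat_lit 100, nat_lit 53, nat_lit 77, nat_lit 2563172359⟩]⟩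
noncomputable def p120_l90 : Lf2 := ⟨nat_lit 0, nat_lit 20, [nat_lit 5, nat_lit 5, nat_lit 5, nat_lit 20], false, nat_lit 160, nat_lit 200, nat_lit 160, nat_lit 300, ⟨nat_lit 1000, nat_lit 0, nat_lit 0, nat_lit 0, nat_lit 0, nat_lit 0, nat_lit 0, nat_lit 0, nat_lit 0, nat_lit 0, nat_lit 0, nat_lit 0, nat_lit 0, nat_lit 0, nat_lit 0, nat_lit 0, false, false⟩,
 nat_lit 0, nat_lit 0, nat_lit 11330, nat_lit 0, nat_lit 6653, nat_lit 7210, nat_lit 0, nat_lit 0, nat_lit 0, nat_lit 700, nat_lit 0, nat_lit 0, nat_lit 0, nat_lit 0, nat_lit 0, nat_lit 0, nat_lit 0, nat_lit 0, [],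
 ⟨p120_k3, nat_lit 0, nat_lit 0, nat_lit 92, nat_lit 0, nat_lit 0, [nat_lit 938000000, nat_lit 3282000000, nat_lit 6250000000], [], [nat_lit 29730070080, nat_lit 30443694766, nat_lit 33322989044, nat_lit 33923417343, nat_lit 30239492718, nat_lit 30905097274, nat_lit 33582350902, nat_lit 34219856837], nat_lit 0, nat_lit 0, nat_lit 0, nat_lit 0, nat_lit 0, nat_lit 0, [], [nat_lit 20, nat_lit 40, nat_lit 40, nat_lit 80, nat_lit 16, nat_lit 260, nat_lit 50, nat_lit 8]⟩, ⟨p120_k7, nat_lit 0, nat_lit 0, nat_lit 409, nat_lit 0, nat_lit 682079, [nat_lit 3282000000, nat_lit 6250000000, nat_lit 11872000000], [], [nat_lit 31287859800, nat_lit 31466175340, nat_lit 32923825100, nat_lit 33058586485, nat_lit 31828816440, nat_lit 32002972190, nat_lit 33431205740, nat_lit 33562552172], nat_lit 1271250, nat_lit 1271250, nat_lit 1271250, nat_lit 1271250, nat_lit 1100001, nat_lit 2298750, [nat_lit 780000, nat_lit 1435000, nat_lit 1271250],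 [nat_lit 23, nat_lit 40, nat_lit 40, nat_lit 80, nat_lit 12, nat_lit 373, nat_lit 150, nat_lit 8]⟩,
 zbF0, [⟨nat_lit 13, nat_lit 62, nat_lit 56, nat_lit 100, nat_lit 38372161⟩, ⟨nat_lit 4, nat_lit 100, nat_lit 57, nat_lit 76, nat_lit 1748443967⟩, ⟨nat_lit 7, nat_lit 100, nat_lit 99, nat_lit 83, nat_lit 289381411⟩]⟩
noncomputable def p120_l91 : Lf2 := ⟨nat_lit 0, nat_lit 20, [nat_lit 5, nat_lit 5, nat_lit 5, nat_lit 20], false, nat_lit 160, nat_lit 184, nat_lit 160, nat_lit 300, ⟨nat_lit 773, nat_lit 227, nat_lit 0, nat_lit 8, nat_lit 323, nat_lit 227, nat_lit 125, nat_lit 0, nat_lit 0, nat_lit 0, nat_lit 0, nat_lit 0, nat_lit 36971255, nat_lit 24632155, nat_lit 5396590, nat_lit 4781134, true, true⟩,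
 nat_lit 0, nat_lit 0, nat_lit 8838, nat_lit 0, nat_lit 3172, nat_lit 5624, nat_lit 430, nat_lit 0, nat_lit 0, nat_lit 549, nat_lit 0, nat_lit 0, nat_lit 0, nat_lit 0, nat_lit 0, nat_lit 56750, nat_lit 0, nat_lit 0, [(nat_lit 25, [(nat_lit 0, nat_lit 227)])],
 ⟨p120_k9, nat_lit 0, nat_lit 0, nat_lit 93, nat_lit 0, nat_lit 0, [nat_lit 898502000, nat_lit 2847703600, nat_lit 5312036000], [], [nat_lit 26600129384, nat_lit 27096323848, nat_lit 28780728388, nat_lit 29221880675, nat_lit 27005675642, nat_lit 27485314977, nat_lit 29113576868, nat_lit 29582303201], nat_lit 0, nat_lit 0, nat_lit 0, nat_lit 0, nat_lit 0, nat_lit 0, [], [nat_lit 20, nat_lit 40, nat_lit 40, nat_lit 80, nat_lit 16, nat_lit 260, nat_lit 50, nat_lit 8]⟩, ⟨p120_k7, nat_lit 0, nat_lit 0, nat_lit 500, nat_lit 0, nat_lit 828508, [nat_lit 2536986000, nat_lit 4831250000, nat_lit 9177056000], [], [nat_lit 23886142878, nat_lit 24023857865, nat_lit 24965697461,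 nat_lit 25074090905, nat_lit 24374237904, nat_lit 24508718423, nat_lit 25431416859, nat_lit 25561754754], nat_lit 1271250, nat_lit 1271250, nat_lit 1271250, nat_lit 1271250, nat_lit 1100001, nat_lit 2298750, [nat_lit 780000, nat_lit 1435000, nat_lit 1271250], [nat_lit 23, nat_lit 40, nat_lit 40, nat_lit 80, nat_lit 12, nat_lit 373, nat_lit 150, nat_lit 8]⟩,
 ⟨nat_lit 2236, nat_lit 2739, ⟨.ofNat (nat_lit 766852), .ofNat (nat_lit 843632), .ofNat (nat_lit 778061), .ofNat (nat_lit 854840), .ofNat (nat_lit 762142), .ofNat (nat_lit 836262), .ofNat (nat_lit 773529), .ofNat (nat_lit 847650)⟩, ⟨.ofNat (nat_lit 284015), .ofNat (nat_lit 319452), .ofNat (nat_lit 306433), .ofNat (nat_lit 341870), .ofNat (nat_lit 283563), .ofNat (nat_lit 317772), .ofNat (nat_lit 306337), .ofNat (nat_lit 340547)⟩⟩, [⟨nat_lit 16, nat_lit 49, nat_lit 100, nat_lit 78, nat_lit 1616969579⟩, ⟨nat_lit 7, nat_lit 100, nat_lit 99, nat_lit 83, nat_lit 227517755⟩]⟩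
noncomputable def p120_l92 : Lf2 := ⟨nat_lit 0, nat_lit 20, [nat_lit 5, nat_lit 5, nat_lit 5, nat_lit 20], false, nat_lit 160, nat_lit 200, nat_lit 16, nat_lit 292, ⟨nat_lit 1000, nat_lit 0, nat_lit 0, nat_lit 0, nat_lit 0, nat_lit 0, nat_lit 0, nat_lit 0, nat_lit 0, nat_lit 0, nat_lit 0, nat_lit 0, nat_lit 0, nat_lit 0, nat_lit 0, nat_lit 0, false, false⟩,
 nat_lit 0, nat_lit 0, nat_lit 10421, nat_lit 0, nat_lit 6513, nat_lit 6920, nat_lit 0, nat_lit 0, nat_lit 0, nat_lit 716, nat_lit 0, nat_lit 0, nat_lit 0, nat_lit 0, nat_lit 0, nat_lit 0, nat_lit 0, nat_lit 0, [],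
 ⟨p120_k3, nat_lit 0, nat_lit 0, nat_lit 101, nat_lit 0, nat_lit 0, [nat_lit 938000000, nat_lit 3282000000, nat_lit 6250000000], [], [nat_lit 29785599680, nat_lit 31195359692, nat_lit 33590756262, nat_lit 34763341154, nat_lit 30302827878, nat_lit 31618190809, nat_lit 33845446853, nat_lit 35002534807], nat_lit 0, nat_lit 0, nat_lit 0, nat_lit 0, nat_lit 0, nat_lit 0, [], [nat_lit 20, nat_lit 40, nat_lit 40, nat_lit 80, nat_lit 16, nat_lit 260, nat_lit 50, nat_lit 8]⟩, ⟨p120_k8, nat_lit 0, nat_lit 0, nat_lit 581, nat_lit 0, nat_lit 840545, [nat_lit 3282000000, nat_lit 6250000000, nat_lit 11872000000], [], [nat_lit 34597211084, nat_lit 34829090709, nat_lit 37197986856, nat_lit 37588242457, nat_lit 31449004898, nat_lit 31580336744, nat_lit 33132886818, nat_lit 33280190665], nat_lit 1271250, nat_lit 1271250, nat_lit 1271250, nat_lit 1271250, nat_lit 88400, nat_lit 2079050, [nat_lit 780000, nat_lit 1435000, nat_lit 1271250],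 [nat_lit 23, nat_lit 40, nat_lit 40, nat_lit 80, nat_lit 12, nat_lit 373, nat_lit 150, nat_lit 9]⟩,
 zbF0, [⟨nat_lit 13, nat_lit 49, nat_lit 68, nat_lit 100, nat_lit 48662778⟩, ⟨nat_lit 4, nat_lit 100, nat_lit 53, nat_lit 77, nat_lit 1998539267⟩, ⟨nat_lit 7, nat_lit 100, nat_lit 94, nat_lit 81, nat_lit 137152876⟩]⟩
noncomputable def p120_l93 : Lf2 := ⟨nat_lit 0, nat_lit 20, [nat_lit 5, nat_lit 5, nat_lit 5, nat_lit 20], false, nat_lit 80, nat_lit 200, nat_lit 0, nat_lit 300, ⟨nat_lit 1000, nat_lit 0, nat_lit 0, nat_lit 0, nat_lit 0, nat_lit 0, nat_lit 0, nat_lit 0, nat_lit 0, nat_lit 0, nat_lit 0, nat_lit 0, nat_lit 0, nat_lit 0, nat_lit 0, nat_lit 0, false, false⟩,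
 nat_lit 0, nat_lit 0, nat_lit 11222, nat_lit 0, nat_lit 5162, nat_lit 7141, nat_lit 0, nat_lit 0, nat_lit 0, nat_lit 691, nat_lit 0, nat_lit 0, nat_lit 0, nat_lit 0, nat_lit 0, nat_lit 0, nat_lit 0, nat_lit 0, [],
 ⟨p120_k3, nat_lit 0, nat_lit 0, nat_lit 126, nat_lit 0, nat_lit 0, [nat_lit 938000000, nat_lit 3282000000, nat_lit 6250000000], [], [nat_lit 30757647256, nat_lit 32097193484, nat_lit 34471239088, nat_lit 35620952598, nat_lit 31027124676, nat_lit 32077276616, nat_lit 34085836228, nat_lit 35066030889], nat_lit 0, nat_lit 0, nat_lit 0, nat_lit 0, nat_lit 0, nat_lit 0, [], [nat_lit 20, nat_lit 40, nat_lit 40, nat_lit 80, nat_lit 16, nat_lit 260, nat_lit 50, nat_lit 8]⟩, ⟨p120_k7, nat_lit 0, nat_lit 0, nat_lit 501, nat_lit 0, nat_lit 558879, [nat_lit 3282000000, nat_lit 6250000000, nat_lit 11872000000], [], [nat_lit 36929812498, nat_lit 37366582430, nat_lit 39304799982, nat_lit 39738584917, nat_lit 32124394299,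 nat_lit 32473092199, nat_lit 33841624338, nat_lit 34099616625], nat_lit 1271250, nat_lit 1271250, nat_lit 1271250, nat_lit 1271250, nat_lit 0, nat_lit 2118750, [nat_lit 780000, nat_lit 1435000, nat_lit 1271250], [nat_lit 23, nat_lit 40, nat_lit 40, nat_lit 80, nat_lit 12, nat_lit 373, nat_lit 150, nat_lit 9]⟩,
 zbF0, [⟨nat_lit 4, nat_lit 100, nat_lit 53, nat_lit 77, nat_lit 409329377⟩, ⟨nat_lit 7, nat_lit 100, nat_lit 97, nat_lit 82, nat_lit 108907025⟩]⟩
noncomputable def b_V_900_700_10_19 : St := ⟨true, nat_lit 0, nat_lit 1, nat_lit 1, nat_lit 80, nat_lit 360, nat_lit 380, nat_lit 280, nat_lit 300, nat_lit 320, nat_lit 384, nat_lit 40, nat_lit 80, nat_lit 80, nat_lit 200, nat_lit 0, nat_lit 300, nat_lit 80, nat_lit 120, nat_lit 0, nat_lit 0, nat_lit 0, nat_lit 0⟩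
theorem d_V_900_700_10_19 (h : EB TB.env) : Dead b_V_900_700_10_19 := chkB_sound0 h (T :=
(.spl (nat_lit 3) (nat_lit 60)
(.trX (nat_lit 16) (nat_lit 61) (nat_lit 100) (nat_lit 72) (nat_lit 176) (.trX (nat_lit 19) (nat_lit 99) (nat_lit 100) (nat_lit 77) (nat_lit 276) (.spl (nat_lit 1) (nat_lit 290)
(.trX (nat_lit 13) (nat_lit 67) (nat_lit 50) (nat_lit 100) (nat_lit 380) (.spl (nat_lit 0) (nat_lit 370)
(.leaf p120_l73)
(.trX (nat_lit 13) (nat_lit 59) (nat_lit 58) (nat_lit 100) (nat_lit 372) (.trX (nat_lit 16) (nat_lit 54) (nat_lit 100) (nat_lit 73) (nat_lit 160) (.leaf p120_l74)))))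
(.trX (nat_lit 19) (nat_lit 94) (nat_lit 100) (nat_lit 75) (nat_lit 268) (.spl (nat_lit 0) (nat_lit 370)
(.leaf p120_l75)
(.trX (nat_lit 13) (nat_lit 61) (nat_lit 55) (nat_lit 100) (nat_lit 380) (.trX (nat_lit 16) (nat_lit 54) (nat_lit 100) (nat_lit 73) (nat_lit 160) (.leaf p120_l76))))))))
(.spl (nat_lit 6) (nat_lit 100)
(.spl (nat_lit 4) (nat_lit 160)
(.spl (nat_lit 2) (nat_lit 360)
(.spl (nat_lit 1) (nat_lit 290)
(.spl (nat_lit 5) (nat_lit 160)
(.leaf p120_l77)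
(.spl (nat_lit 0) (nat_lit 370)
(.leaf p120_l78)
(.spl (nat_lit 1) (nat_lit 285)
(.leaf p120_l79)
(.trX (nat_lit 19) (nat_lit 100) (nat_lit 98) (nat_lit 88) (nat_lit 296) (.leaf p120_l80)))))
(.trX (nat_lit 19) (nat_lit 100) (nat_lit 100) (nat_lit 89) (nat_lit 292) (.spl (nat_lit 5) (nat_lit 160)
(.leaf p120_l81)
(.spl (nat_lit 0) (nat_lit 370)
(.leaf p120_l82)
(.leaf p120_l83)))))
(.trZ (nat_lit 9) (nat_lit 100) (nat_lit 75) (nat_lit 35) (nat_lit 8) (.trX (nat_lit 22) (nat_lit 61) (nat_lit 92) (nat_lit 100) (nat_lit 288) (.spl (nat_lit 1) (nat_lit 290)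
(.trX (nat_lit 13) (nat_lit 67) (nat_lit 50) (nat_lit 100) (nat_lit 380) (.spl (nat_lit 1) (nat_lit 285)
(.leaf p120_l84)
(.leaf p120_l85)))
(.spl (nat_lit 5) (nat_lit 160)
(.leaf p120_l86)
(.spl (nat_lit 0) (nat_lit 370)
(.leaf p120_l87)
(.trX (nat_lit 13) (nat_lit 61) (nat_lit 55) (nat_lit 100) (nat_lit 380) (.leaf p120_l88))))))))
(.trZ (nat_lit 9) (nat_lit 100) (nat_lit 82) (nat_lit 44) (nat_lit 16) (.spl (nat_lit 1) (nat_lit 290)
(.trX (nat_lit 13) (nat_lit 67) (nat_lit 50) (nat_lit 100) (nat_lit 380) (.spl (nat_lit 5) (nat_lit 160)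
(.leaf p120_l89)
(.spl (nat_lit 0) (nat_lit 370)
(.leaf p120_l90)
(.trX (nat_lit 13) (nat_lit 59) (nat_lit 58) (nat_lit 100) (nat_lit 372) (.trX (nat_lit 16) (nat_lit 53) (nat_lit 100) (nat_lit 80) (nat_lit 184) (.leaf p120_l91))))))
(.trX (nat_lit 19) (nat_lit 100) (nat_lit 100) (nat_lit 89) (nat_lit 292) (.leaf p120_l92)))))
(.leaf p120_l93)))) (by decide +kernel)
noncomputable def p120_l94 : Lf2 := ⟨nat_lit 0, nat_lit 15, [nat_lit 30, nat_lit 5, nat_lit 5, nat_lit 20], false, nat_lit 80, nat_lit 140, nat_lit 0, nat_lit 276, ⟨nat_lit 92, nat_lit 908, nat_lit 0, nat_lit 8, nat_lit 320, nat_lit 908, nat_lit 80, nat_lit 0, nat_lit 0, nat_lit 0, nat_lit 0, nat_lit 0, nat_lit 38931623, nat_lit 25226840, nat_lit 2841537, nat_lit 4280854, true, true⟩,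
 nat_lit 0, nat_lit 0, nat_lit 1149, nat_lit 0, nat_lit 2906, nat_lit 731, nat_lit 0, nat_lit 0, nat_lit 0, nat_lit 47, nat_lit 0, nat_lit 0, nat_lit 0, nat_lit 0, nat_lit 0, nat_lit 227000, nat_lit 0, nat_lit 0, [(nat_lit 28, [(nat_lit 0, nat_lit 908)])],
 ⟨p120_k15, nat_lit 0, nat_lit 0, nat_lit 114, nat_lit 0, nat_lit 0, [nat_lit 795988801, nat_lit 1251712000, nat_lit 1681067200], [], [nat_lit 26807190253, nat_lit 27794379137, nat_lit 28777200157, nat_lit 29767416695, nat_lit 27181366777, nat_lit 28106285441, nat_lit 29027110962, nat_lit 29878731406], nat_lit 0, nat_lit 0, nat_lit 0, nat_lit 0, nat_lit 0, nat_lit 0, [], [nat_lit 35, nat_lit 40, nat_lit 40, nat_lit 80, nat_lit 22, nat_lit 249, nat_lit 40, nat_lit 9]⟩, ⟨p120_k11, nat_lit 0, nat_lit 0, nat_lit 764, nat_lit 0, nat_lit 1319304, [nat_lit 301944000, nat_lit 575000000, nat_lit 905464000], [], [nat_lit 3472189110, nat_lit 3491168424, nat_lit 3549862438,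 nat_lit 3597330985, nat_lit 2966116416, nat_lit 2972629267, nat_lit 3013646061, nat_lit 3021034592], nat_lit 1271250, nat_lit 1271250, nat_lit 1271250, nat_lit 1271250, nat_lit 0, nat_lit 1949250, [nat_lit 780000, nat_lit 1435000, nat_lit 1271250], [nat_lit 8, nat_lit 40, nat_lit 40, nat_lit 80, nat_lit 1, nat_lit 309, nat_lit 75, nat_lit 8]⟩,
 ⟨nat_lit 0, nat_lit 2237, ⟨.ofNat (nat_lit 762141), .ofNat (nat_lit 830557), .ofNat (nat_lit 784917), .ofNat (nat_lit 853333), .ofNat (nat_lit 749998), .ofNat (nat_lit 809995), .ofNat (nat_lit 774999), .ofNat (nat_lit 834997)⟩, ⟨.ofNat (nat_lit 146756), .ofNat (nat_lit 232276), .ofNat (nat_lit 169532), .ofNat (nat_lit 255052), .ofNat (nat_lit 149997), .ofNat (nat_lit 224994), .ofNat (nat_lit 174999), .ofNat (nat_lit 249996)⟩⟩, [⟨nat_lit 13, nat_lit 50, nat_lit 65, nat_lit 100, nat_lit 312534519⟩, ⟨nat_lit 16, nat_lit 46, nat_lit 100, nat_lit 75, nat_lit 136722122⟩, ⟨nat_lit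 7, nat_lit 100, nat_lit 92, nat_lit 68, nat_lit 8450932⟩]⟩
noncomputable def p120_l95 : Lf2 := ⟨nat_lit 0, nat_lit 20, [nat_lit 5, nat_lit 5, nat_lit 5, nat_lit 20], false, nat_lit 80, nat_lit 164, nat_lit 0, nat_lit 300, ⟨nat_lit 118, nat_lit 882, nat_lit 0, nat_lit 8, nat_lit 313, nat_lit 882, nat_lit 96, nat_lit 0, nat_lit 0, nat_lit 0, nat_lit 0, nat_lit 0, nat_lit 38951152, nat_lit 24302551, nat_lit 3746297, nat_lit 4452820, true, true⟩,
 nat_lit 0, nat_lit 0, nat_lit 1434, nat_lit 0, nat_lit 2861, nat_lit 912, nat_lit 125, nat_lit 0, nat_lit 0, nat_lit 73, nat_lit 0, nat_lit 0, nat_lit 0, nat_lit 0, nat_lit 0, nat_lit 220500, nat_lit 0, nat_lit 0, [(nat_lit 28, [(nat_lit 0, nat_lit 882)])],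
 ⟨p120_k5, nat_lit 0, nat_lit 0, nat_lit 125, nat_lit 0, nat_lit 0, [nat_lit 800055201, nat_lit 1343011200, nat_lit 2244748000], [], [nat_lit 26401163327, nat_lit 27441930037, nat_lit 27924240364, nat_lit 28993272334, nat_lit 26846610974, nat_lit 27794995183, nat_lit 28239859191, nat_lit 29125145373], nat_lit 0, nat_lit 0, nat_lit 0, nat_lit 0, nat_lit 0, nat_lit 0, [], [nat_lit 20, nat_lit 40, nat_lit 40, nat_lit 80, nat_lit 16, nat_lit 260, nat_lit 50, nat_lit 8]⟩, ⟨p120_k7, nat_lit 0, nat_lit 0, nat_lit 734, nat_lit 0, nat_lit 1139747, [nat_lit 387276000, nat_lit 737500000, nat_lit 1400896000], [], [nat_lit 4448670238, nat_lit 4463921358, nat_lit 4619052493, nat_lit 4633765649, nat_lit 3809361229, nat_lit 3813861089, nat_lit 3867758860, nat_lit 3875378240], nat_lit 1271250, nat_lit 1271250, nat_lit 1271250, nat_lit 1271250, nat_lit 0, nat_lit 2118750, [nat_lit 780000, nat_lit 1435000, nat_lit 1271250], [nat_lit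 23, nat_lit 40, nat_lit 40, nat_lit 80, nat_lit 12, nat_lit 373, nat_lit 150, nat_lit 9]⟩,
 ⟨nat_lit 0, nat_lit 2237, ⟨.ofNat (nat_lit 762141), .ofNat (nat_lit 813453), .ofNat (nat_lit 767835), .ofNat (nat_lit 819147), .ofNat (nat_lit 749998), .ofNat (nat_lit 794996), .ofNat (nat_lit 756248), .ofNat (nat_lit 801246)⟩, ⟨.ofNat (nat_lit 169532), .ofNat (nat_lit 289260), .ofNat (nat_lit 192306), .ofNat (nat_lit 312035), .ofNat (nat_lit 174999), .ofNat (nat_lit 279994), .ofNat (nat_lit 199999), .ofNat (nat_lit 304995)⟩⟩, [⟨nat_lit 13, nat_lit 48, nat_lit 70, nat_lit 100, nat_lit 309987449⟩, ⟨nat_lit 16, nat_lit 34, nat_lit 100, nat_lit 82, nat_lit 108543262⟩, ⟨nat_lit 16, nat_lit 44, nat_lit 100, nat_lit 82, nat_lit 58491058⟩, ⟨nat_lit 19, nat_lit 100, nat_lit 99, nat_lit 83, nat_lit 10483225⟩]⟩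
noncomputable def p120_l96 : Lf2 := ⟨nat_lit 0, nat_lit 20, [nat_lit 5, nat_lit 5, nat_lit 5, nat_lit 20], false, nat_lit 80, nat_lit 164, nat_lit 0, nat_lit 296, ⟨nat_lit 133, nat_lit 867, nat_lit 0, nat_lit 8, nat_lit 318, nat_lit 867, nat_lit 97, nat_lit 0, nat_lit 0, nat_lit 0, nat_lit 0, nat_lit 0, nat_lit 38477428, nat_lit 24784184, nat_lit 3738388, nat_lit 4468116, true, true⟩,
 nat_lit 0, nat_lit 0, nat_lit 1518, nat_lit 0, nat_lit 2808, nat_lit 986, nat_lit 141, nat_lit 0, nat_lit 0, nat_lit 84, nat_lit 0, nat_lit 0, nat_lit 0, nat_lit 0, nat_lit 0, nat_lit 216750, nat_lit 0, nat_lit 0, [(nat_lit 28, [(nat_lit 0, nat_lit 867)])],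
 ⟨p120_k5, nat_lit 0, nat_lit 0, nat_lit 122, nat_lit 0, nat_lit 0, [nat_lit 802401200, nat_lit 1375987200, nat_lit 2311538000], [], [nat_lit 26281768681, nat_lit 26798333121, nat_lit 27964052185, nat_lit 28511961080, nat_lit 26800760210, nat_lit 27253374655, nat_lit 28289149895, nat_lit 28720208585], nat_lit 0, nat_lit 0, nat_lit 0, nat_lit 0, nat_lit 0, nat_lit 0, [], [nat_lit 20, nat_lit 40, nat_lit 40, nat_lit 80, nat_lit 16, nat_lit 260, nat_lit 50, nat_lit 8]⟩, ⟨p120_k31, nat_lit 0, nat_lit 0, nat_lit 676, nat_lit 0, nat_lit 974389, [nat_lit 436506000, nat_lit 831250000, nat_lit 1578976000], [], [nat_lit 4982857275, nat_lit 4990293777, nat_lit 5172009998, nat_lit 5188225564, nat_lit 4307332922, nat_lit 4312761412, nat_lit 4380988317, nat_lit 4387290638], nat_lit 1271250, nat_lit 1271250, nat_lit 1271250, nat_lit 1271250, nat_lit 0, nat_lit 2090500, [nat_lit 780000, nat_lit 1435000, nat_lit 1271250], [nat_lit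 23, nat_lit 40, nat_lit 40, nat_lit 80, nat_lit 12, nat_lit 373, nat_lit 150, nat_lit 9]⟩,
 ⟨nat_lit 1581, nat_lit 2237, ⟨.ofNat (nat_lit 767836), .ofNat (nat_lit 824851), .ofNat (nat_lit 773529), .ofNat (nat_lit 830545), .ofNat (nat_lit 762995), .ofNat (nat_lit 817630), .ofNat (nat_lit 768823), .ofNat (nat_lit 823459)⟩, ⟨.ofNat (nat_lit 169532), .ofNat (nat_lit 289265), .ofNat (nat_lit 192306), .ofNat (nat_lit 312039), .ofNat (nat_lit 172886), .ofNat (nat_lit 287621), .ofNat (nat_lit 196201), .ofNat (nat_lit 310936)⟩⟩, [⟨nat_lit 13, nat_lit 42, nat_lit 74, nat_lit 100, nat_lit 46469202⟩, ⟨nat_lit 13, nat_lit 49, nat_lit 68, nat_lit 100, nat_lit 236910777⟩, ⟨nat_lit 16, nat_lit 40, nat_lit 100, nat_lit 80, nat_lit 150467395⟩, ⟨nat_lit 7, nat_lit 100, nat_lit 98, nat_lit 83, nat_lit 12309611⟩]⟩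
noncomputable def p120_l97 : Lf2 := ⟨nat_lit 0, nat_lit 20, [nat_lit 5, nat_lit 5, nat_lit 5, nat_lit 20], true, nat_lit 80, nat_lit 136, nat_lit 0, nat_lit 296, ⟨nat_lit 0, nat_lit 1000, nat_lit 0, nat_lit 8, nat_lit 311, nat_lit 1000, nat_lit 89, nat_lit 0, nat_lit 0, nat_lit 0, nat_lit 0, nat_lit 0, nat_lit 39392907, nat_lit 24248555, nat_lit 3358538, nat_lit 4366142, true, true⟩,
 nat_lit 0, nat_lit 0, nat_lit 0, nat_lit 0, nat_lit 2906, nat_lit 0, nat_lit 0, nat_lit 0, nat_lit 0, nat_lit 0, nat_lit 0, nat_lit 0, nat_lit 0, nat_lit 0, nat_lit 0, nat_lit 250000, nat_lit 0, nat_lit 0, [(nat_lit 28, [(nat_lit 0, nat_lit 1000)])],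
 ⟨p120_k14, nat_lit 0, nat_lit 0, nat_lit 108, nat_lit 0, nat_lit 0, [nat_lit 781600001, nat_lit 1046000001, nat_lit 1376400000], [], [nat_lit 26844888178, nat_lit 27398897408, nat_lit 27904630156, nat_lit 28505124208, nat_lit 27096188683, nat_lit 27616996554, nat_lit 28085873688, nat_lit 28579755848], nat_lit 0, nat_lit 0, nat_lit 0, nat_lit 0, nat_lit 0, nat_lit 0, [], [nat_lit 35, nat_lit 40, nat_lit 40, nat_lit 80, nat_lit 22, nat_lit 249, nat_lit 40, nat_lit 9]⟩, C1.Rw.none,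
 ⟨nat_lit 0, nat_lit 1582, ⟨.ofNat (nat_lit 762994), .ofNat (nat_lit 795774), .ofNat (nat_lit 768823), .ofNat (nat_lit 801603), .ofNat (nat_lit 756248), .ofNat (nat_lit 786247), .ofNat (nat_lit 762499), .ofNat (nat_lit 792497)⟩, ⟨.ofNat (nat_lit 172886), .ofNat (nat_lit 249373), .ofNat (nat_lit 196201), .ofNat (nat_lit 272689), .ofNat (nat_lit 174999), .ofNat (nat_lit 244996), .ofNat (nat_lit 199999), .ofNat (nat_lit 269997)⟩⟩, [⟨nat_lit 13, nat_lit 35, nat_lit 79, nat_lit 100, nat_lit 594490715⟩, ⟨nat_lit 16, nat_lit 33, nat_lit 100, nat_lit 84, nat_lit 126083613⟩]⟩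
noncomputable def p120_l98 : Lf2 := ⟨nat_lit 0, nat_lit 20, [nat_lit 5, nat_lit 5, nat_lit 5, nat_lit 20], false, nat_lit 80, nat_lit 164, nat_lit 0, nat_lit 292, ⟨nat_lit 140, nat_lit 860, nat_lit 0, nat_lit 8, nat_lit 322, nat_lit 860, nat_lit 97, nat_lit 0, nat_lit 0, nat_lit 0, nat_lit 0, nat_lit 0, nat_lit 38179332, nat_lit 25101876, nat_lit 3718792, nat_lit 4474510, true, true⟩,
 nat_lit 0, nat_lit 0, nat_lit 1513, nat_lit 0, nat_lit 2805, nat_lit 1004, nat_lit 141, nat_lit 0, nat_lit 0, nat_lit 93, nat_lit 0, nat_lit 0, nat_lit 0, nat_lit 0, nat_lit 0, nat_lit 215000, nat_lit 0, nat_lit 0, [(nat_lit 28, [(nat_lit 0, nat_lit 860)])],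
 ⟨p120_k5, nat_lit 0, nat_lit 0, nat_lit 123, nat_lit 0, nat_lit 0, [nat_lit 803496001, nat_lit 1391376000, nat_lit 2342706667], [], [nat_lit 26312561802, nat_lit 26828910077, nat_lit 28174269162, nat_lit 28715857707, nat_lit 26837640335, nat_lit 27290078685, nat_lit 28484848782, nat_lit 28912720271], nat_lit 0, nat_lit 0, nat_lit 0, nat_lit 0, nat_lit 0, nat_lit 0, [], [nat_lit 20, nat_lit 40, nat_lit 40, nat_lit 80, nat_lit 16, nat_lit 260, nat_lit 50, nat_lit 8]⟩, ⟨p120_k8, nat_lit 0, nat_lit 0, nat_lit 675, nat_lit 0, nat_lit 973961, [nat_lit 459480000, nat_lit 875000000, nat_lit 1662080000], [], [nat_lit 5104669142, nat_lit 5124687104, nat_lit 5343762846, nat_lit 5360473952, nat_lit 4447913359, nat_lit 4453937423, nat_lit 4565111914, nat_lit 4572968189], nat_lit 1271250, nat_lit 1271250, nat_lit 1271250, nat_lit 1271250, nat_lit 0, nat_lit 2062250, [nat_lit 780000, nat_lit 1435000, nat_lit 1271250], [nat_lit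 23, nat_lit 40, nat_lit 40, nat_lit 80, nat_lit 12, nat_lit 373, nat_lit 150, nat_lit 9]⟩,
 ⟨nat_lit 1581, nat_lit 2237, ⟨.ofNat (nat_lit 773529), .ofNat (nat_lit 836247), .ofNat (nat_lit 779223), .ofNat (nat_lit 841940), .ofNat (nat_lit 768823), .ofNat (nat_lit 828923), .ofNat (nat_lit 774652), .ofNat (nat_lit 834752)⟩, ⟨.ofNat (nat_lit 169532), .ofNat (nat_lit 289265), .ofNat (nat_lit 192306), .ofNat (nat_lit 312039), .ofNat (nat_lit 172886), .ofNat (nat_lit 287621), .ofNat (nat_lit 196201), .ofNat (nat_lit 310936)⟩⟩, [⟨nat_lit 13, nat_lit 43, nat_lit 73, nat_lit 100, nat_lit 11236230⟩, ⟨nat_lit 13, nat_lit 50, nat_lit 66, nat_lit 100, nat_lit 267553039⟩, ⟨nat_lit 4, nat_lit 100, nat_lit 40, nat_lit 80, nat_lit 152623997⟩, ⟨nat_lit 19, nat_lit 96, nat_lit 100, nat_lit 82, nat_lit 14632620⟩]⟩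
noncomputable def p120_l99 : Lf2 := ⟨nat_lit 0, nat_lit 20, [nat_lit 5, nat_lit 5, nat_lit 5, nat_lit 20], false, nat_lit 80, nat_lit 136, nat_lit 0, nat_lit 292, ⟨nat_lit 103, nat_lit 897, nat_lit 0, nat_lit 8, nat_lit 315, nat_lit 897, nat_lit 89, nat_lit 0, nat_lit 0, nat_lit 0, nat_lit 0, nat_lit 0, nat_lit 39083063, nat_lit 24575733, nat_lit 3341204, nat_lit 4374222, true, true⟩,
 nat_lit 0, nat_lit 0, nat_lit 1121, nat_lit 0, nat_lit 2753, nat_lit 744, nat_lit 61, nat_lit 0, nat_lit 0, nat_lit 68, nat_lit 0, nat_lit 0, nat_lit 0, nat_lit 0, nat_lit 0, nat_lit 224250, nat_lit 0, nat_lit 0, [(nat_lit 28, [(nat_lit 0, nat_lit 897)])],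
 ⟨p120_k14, nat_lit 0, nat_lit 0, nat_lit 109, nat_lit 0, nat_lit 0, [nat_lit 797709201, nat_lit 1276308001, nat_lit 1717494800], [], [nat_lit 26534868164, nat_lit 27088595548, nat_lit 27825765958, nat_lit 28406958930, nat_lit 26886529788, nat_lit 27356609092, nat_lit 27967070631, nat_lit 28514632017], nat_lit 0, nat_lit 0, nat_lit 0, nat_lit 0, nat_lit 0, nat_lit 0, [], [nat_lit 35, nat_lit 40, nat_lit 40, nat_lit 80, nat_lit 22, nat_lit 249, nat_lit 40, nat_lit 9]⟩, ⟨p120_k8, nat_lit 0, nat_lit 0, nat_lit 727, nat_lit 0, nat_lit 1124355, [nat_lit 338046000, nat_lit 643750000, nat_lit 1222816000], [], [nat_lit 3761077736, nat_lit 3775826584, nat_lit 3871833645, nat_lit 3885027714, nat_lit 3250639331, nat_lit 3255041338, nat_lit 3300160690, nat_lit 3306390769], nat_lit 1271250, nat_lit 1271250, nat_lit 1271250, nat_lit 1271250, nat_lit 0, nat_lit 2062250, [nat_lit 780000, nat_lit 1435000, nat_lit 1271250], [nat_lit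 23, nat_lit 40, nat_lit 40, nat_lit 80, nat_lit 12, nat_lit 373, nat_lit 150, nat_lit 9]⟩,
 ⟨nat_lit 0, nat_lit 1582, ⟨.ofNat (nat_lit 768823), .ofNat (nat_lit 807066), .ofNat (nat_lit 774652), .ofNat (nat_lit 812895), .ofNat (nat_lit 762499), .ofNat (nat_lit 797496), .ofNat (nat_lit 768749), .ofNat (nat_lit 803747)⟩, ⟨.ofNat (nat_lit 172886), .ofNat (nat_lit 249373), .ofNat (nat_lit 196201), .ofNat (nat_lit 272689), .ofNat (nat_lit 174999), .ofNat (nat_lit 244996), .ofNat (nat_lit 199999), .ofNat (nat_lit 269997)⟩⟩, [⟨nat_lit 13, nat_lit 35, nat_lit 78, nat_lit 100, nat_lit 466374705⟩, ⟨nat_lit 16, nat_lit 33, nat_lit 100, nat_lit 84, nat_lit 166563117⟩, ⟨nat_lit 19, nat_lit 100, nat_lit 100, nat_lit 89, nat_lit 9354183⟩]⟩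
noncomputable def p120_l100 : Lf2 := ⟨nat_lit 0, nat_lit 20, [nat_lit 5, nat_lit 5, nat_lit 5, nat_lit 20], false, nat_lit 80, nat_lit 164, nat_lit 0, nat_lit 284, ⟨nat_lit 158, nat_lit 842, nat_lit 0, nat_lit 8, nat_lit 325, nat_lit 842, nat_lit 97, nat_lit 0, nat_lit 0, nat_lit 0, nat_lit 0, nat_lit 0, nat_lit 37882928, nat_lit 25417988, nat_lit 3699084, nat_lit 4480328, true, true⟩,
 nat_lit 0, nat_lit 0, nat_lit 1616, nat_lit 0, nat_lit 2648, nat_lit 1095, nat_lit 48, nat_lit 0, nat_lit 0, nat_lit 121, nat_lit 0, nat_lit 0, nat_lit 0, nat_lit 0, nat_lit 0, nat_lit 336800, nat_lit 0, nat_lit 0, [(nat_lit 28, [(nat_lit 1, nat_lit 842)])],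
 ⟨p120_k5, nat_lit 0, nat_lit 0, nat_lit 124, nat_lit 0, nat_lit 0, [nat_lit 735583200, nat_lit 792037600, nat_lit 1103696000], [], [nat_lit 26097531936, nat_lit 26602567576, nat_lit 28102513037, nat_lit 28620988477, nat_lit 26690748905, nat_lit 27133971638, nat_lit 28467674647, nat_lit 28883322401], nat_lit 0, nat_lit 0, nat_lit 0, nat_lit 0, nat_lit 0, nat_lit 0, [], [nat_lit 20, nat_lit 40, nat_lit 40, nat_lit 80, nat_lit 16, nat_lit 260, nat_lit 50, nat_lit 8]⟩, ⟨p120_k32, nat_lit 0, nat_lit 0, nat_lit 675, nat_lit 0, nat_lit 974354, [nat_lit 518556000, nat_lit 987500000, nat_lit 1875776000], [], [nat_lit 5363916235, nat_lit 5377691134, nat_lit 5767996803, nat_lit 5801309078, nat_lit 4835480001, nat_lit 4846742244, nat_lit 4989278749, nat_lit 4998411004], nat_lit 1271250, nat_lit 1271250, nat_lit 1271250, nat_lit 1271250, nat_lit 0, nat_lit 2005750, [nat_lit 780000, nat_lit 1435000, nat_lit 1271250], [nat_lit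 23, nat_lit 40, nat_lit 40, nat_lit 80, nat_lit 12, nat_lit 373, nat_lit 150, nat_lit 9]⟩,
 ⟨nat_lit 1581, nat_lit 2237, ⟨.ofNat (nat_lit 779223), .ofNat (nat_lit 847642), .ofNat (nat_lit 784917), .ofNat (nat_lit 853335), .ofNat (nat_lit 774652), .ofNat (nat_lit 840215), .ofNat (nat_lit 780481), .ofNat (nat_lit 846044)⟩, ⟨.ofNat (nat_lit 169532), .ofNat (nat_lit 289265), .ofNat (nat_lit 192306), .ofNat (nat_lit 312039), .ofNat (nat_lit 172886), .ofNat (nat_lit 287621), .ofNat (nat_lit 196201), .ofNat (nat_lit 310936)⟩⟩, [⟨nat_lit 13, nat_lit 44, nat_lit 71, nat_lit 100, nat_lit 21367960⟩, ⟨nat_lit 13, nat_lit 50, nat_lit 65, nat_lit 100, nat_lit 245246763⟩, ⟨nat_lit 4, nat_lit 100, nat_lit 40, nat_lit 80, nat_lit 172509920⟩, ⟨nat_lit 7, nat_lit 100, nat_lit 93, nat_lit 81, nat_lit 18059293⟩]⟩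
noncomputable def p120_l101 : Lf2 := ⟨nat_lit 0, nat_lit 20, [nat_lit 5, nat_lit 5, nat_lit 5, nat_lit 20], false, nat_lit 80, nat_lit 136, nat_lit 0, nat_lit 284, ⟨nat_lit 129, nat_lit 871, nat_lit 0, nat_lit 8, nat_lit 318, nat_lit 871, nat_lit 89, nat_lit 0, nat_lit 0, nat_lit 0, nat_lit 0, nat_lit 0, nat_lit 38774912, nat_lit 24901346, nat_lit 3323742, nat_lit 4381682, true, true⟩,
 nat_lit 0, nat_lit 0, nat_lit 1344, nat_lit 0, nat_lit 2756, nat_lit 911, nat_lit 67, nat_lit 0, nat_lit 0, nat_lit 103, nat_lit 0, nat_lit 0, nat_lit 0, nat_lit 0, nat_lit 0, nat_lit 217750, nat_lit 0, nat_lit 0, [(nat_lit 28, [(nat_lit 0, nat_lit 871)])],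
 ⟨p120_k14, nat_lit 0, nat_lit 0, nat_lit 110, nat_lit 0, nat_lit 0, [nat_lit 801775601, nat_lit 1334444001, nat_lit 1803596400], [], [nat_lit 26573758471, nat_lit 27104279233, nat_lit 28025492413, nat_lit 28601051312, nat_lit 26930807298, nat_lit 27388586555, nat_lit 28155098830, nat_lit 28697515029], nat_lit 0, nat_lit 0, nat_lit 0, nat_lit 0, nat_lit 0, nat_lit 0, [], [nat_lit 35, nat_lit 40, nat_lit 40, nat_lit 80, nat_lit 22, nat_lit 249, nat_lit 40, nat_lit 9]⟩, ⟨p120_k32, nat_lit 0, nat_lit 0, nat_lit 724, nat_lit 0, nat_lit 1118219, [nat_lit 423378000, nat_lit 806250000, nat_lit 1531488000], [], [nat_lit 4279146949, nat_lit 4312112458, nat_lit 4542286328, nat_lit 4571537914, nat_lit 3833251256, nat_lit 3842402391, nat_lit 3914557090, nat_lit 3936879713], nat_lit 1271250, nat_lit 1271250, nat_lit 1271250, nat_lit 1271250, nat_lit 0, nat_lit 2005750, [nat_lit 780000, nat_lit 1435000, nat_lit 1271250], [nat_lit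 23, nat_lit 40, nat_lit 40, nat_lit 80, nat_lit 12, nat_lit 373, nat_lit 150, nat_lit 9]⟩,
 ⟨nat_lit 0, nat_lit 1582, ⟨.ofNat (nat_lit 774652), .ofNat (nat_lit 818359), .ofNat (nat_lit 780481), .ofNat (nat_lit 824188), .ofNat (nat_lit 768749), .ofNat (nat_lit 808747), .ofNat (nat_lit 774999), .ofNat (nat_lit 814997)⟩, ⟨.ofNat (nat_lit 172886), .ofNat (nat_lit 249373), .ofNat (nat_lit 196201), .ofNat (nat_lit 272689), .ofNat (nat_lit 174999), .ofNat (nat_lit 244996), .ofNat (nat_lit 199999), .ofNat (nat_lit 269997)⟩⟩, [⟨nat_lit 13, nat_lit 36, nat_lit 77, nat_lit 100, nat_lit 428569705⟩, ⟨nat_lit 16, nat_lit 33, nat_lit 100, nat_lit 84, nat_lit 156664926⟩, ⟨nat_lit 19, nat_lit 97, nat_lit 100, nat_lit 88, nat_lit 13605656⟩]⟩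
noncomputable def b_V_900_700_10_20 : St := ⟨true, nat_lit 0, nat_lit 1, nat_lit 1, nat_lit 80, nat_lit 380, nat_lit 400, nat_lit 280, nat_lit 300, nat_lit 320, nat_lit 384, nat_lit 40, nat_lit 80, nat_lit 80, nat_lit 200, nat_lit 0, nat_lit 300, nat_lit 80, nat_lit 120, nat_lit 0, nat_lit 0, nat_lit 0, nat_lit 0⟩
theorem d_V_900_700_10_20 (h : EB TB.env) : Dead b_V_900_700_10_20 := chkB_sound0 h (T :=
(.trX (nat_lit 13) (nat_lit 50) (nat_lit 65) (nat_lit 100) (nat_lit 368) (.trX (nat_lit 16) (nat_lit 44) (nat_lit 100) (nat_lit 82) (nat_lit 164) (.spl (nat_lit 3) (nat_lit 60)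
(.trX (nat_lit 16) (nat_lit 46) (nat_lit 100) (nat_lit 75) (nat_lit 140) (.trX (nat_lit 19) (nat_lit 99) (nat_lit 100) (nat_lit 77) (nat_lit 276) (.leaf p120_l94)))
(.spl (nat_lit 1) (nat_lit 290)
(.trX (nat_lit 13) (nat_lit 49) (nat_lit 68) (nat_lit 100) (nat_lit 360) (.spl (nat_lit 1) (nat_lit 285)
(.trX (nat_lit 13) (nat_lit 48) (nat_lit 70) (nat_lit 100) (nat_lit 356) (.leaf p120_l95))
(.trX (nat_lit 19) (nat_lit 100) (nat_lit 98) (nat_lit 88) (nat_lit 296) (.spl (nat_lit 0) (nat_lit 390)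
(.leaf p120_l96)
(.trX (nat_lit 13) (nat_lit 35) (nat_lit 79) (nat_lit 100) (nat_lit 344) (.trX (nat_lit 16) (nat_lit 33) (nat_lit 100) (nat_lit 84) (nat_lit 136) (.leaf p120_l97)))))))
(.trX (nat_lit 19) (nat_lit 100) (nat_lit 100) (nat_lit 89) (nat_lit 292) (.spl (nat_lit 1) (nat_lit 295)
(.trX (nat_lit 13) (nat_lit 50) (nat_lit 66) (nat_lit 100) (nat_lit 364) (.spl (nat_lit 0) (nat_lit 390)
(.leaf p120_l98)
(.trX (nat_lit 13) (nat_lit 35) (nat_lit 78) (nat_lit 100) (nat_lit 348) (.trX (nat_lit 16) (nat_lit 33) (nat_lit 100) (nat_lit 84) (nat_lit 136) (.leaf p120_l99)))))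
(.trX (nat_lit 19) (nat_lit 97) (nat_lit 100) (nat_lit 88) (nat_lit 284) (.spl (nat_lit 0) (nat_lit 390)
(.leaf p120_l100)
(.trX (nat_lit 13) (nat_lit 36) (nat_lit 77) (nat_lit 100) (nat_lit 352) (.trX (nat_lit 16) (nat_lit 33) (nat_lit 100) (nat_lit 84) (nat_lit 136) (.leaf p120_l101)))))))))))) (by decide +kernel)
noncomputable def p120_l102 : Lf2 := ⟨nat_lit 0, nat_lit 15, [nat_lit 30, nat_lit 5, nat_lit 5, nat_lit 20], false, nat_lit 80, nat_lit 160, nat_lit 0, nat_lit 256, ⟨nat_lit 751, nat_lit 249, nat_lit 0, nat_lit 8, nat_lit 332, nat_lit 249, nat_lit 85, nat_lit 0, nat_lit 0, nat_lit 0, nat_lit 0, nat_lit 0, nat_lit 37693372, nat_lit 26246081, nat_lit 3060547, nat_lit 4363485, true, true⟩,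
 nat_lit 0, nat_lit 0, nat_lit 6463, nat_lit 0, nat_lit 3778, nat_lit 4474, nat_lit 0, nat_lit 0, nat_lit 0, nat_lit 842, nat_lit 0, nat_lit 0, nat_lit 0, nat_lit 0, nat_lit 0, nat_lit 62250, nat_lit 0, nat_lit 0, [(nat_lit 25, [(nat_lit 0, nat_lit 249)])],
 ⟨p120_k25, nat_lit 0, nat_lit 0, nat_lit 116, nat_lit 0, nat_lit 0, [nat_lit 894674000, nat_lit 1782701200, nat_lit 5221132000], [], [nat_lit 29722158016, nat_lit 30895073596, nat_lit 31697732400, nat_lit 32760820960, nat_lit 29898128368, nat_lit 30910106764, nat_lit 31642140216, nat_lit 32613395544], nat_lit 0, nat_lit 0, nat_lit 0, nat_lit 0, nat_lit 0, nat_lit 0, [], [nat_lit 131, nat_lit 40, nat_lit 40, nat_lit 80, nat_lit 64, nat_lit 249, nat_lit 40, nat_lit 8]⟩, ⟨p120_k26, nat_lit 0, nat_lit 0, nat_lit 623, nat_lit 0, nat_lit 1021411, [nat_lit 2464782000, nat_lit 3520688000, nat_lit 7391342000], [], [nat_lit 23913563686, nat_lit 24208687932, nat_lit 24975301132,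 nat_lit 25563275214, nat_lit 21901892852, nat_lit 22109701577, nat_lit 22442094995, nat_lit 22622549593], nat_lit 1271250, nat_lit 1271250, nat_lit 1271250, nat_lit 1271250, nat_lit 0, nat_lit 1808000, [nat_lit 780000, nat_lit 1100000, nat_lit 2127500], [nat_lit 42, nat_lit 40, nat_lit 40, nat_lit 80, nat_lit 13, nat_lit 289, nat_lit 75, nat_lit 8]⟩,
 ⟨nat_lit 2236, nat_lit 3163, ⟨.ofNat (nat_lit 793619), .ofNat (nat_lit 854586), .ofNat (nat_lit 815720), .ofNat (nat_lit 876741), .ofNat (nat_lit 784902), .ofNat (nat_lit 841932), .ofNat (nat_lit 807623), .ofNat (nat_lit 864706)⟩, ⟨.ofNat (nat_lit 139899), .ofNat (nat_lit 261806), .ofNat (nat_lit 162054), .ofNat (nat_lit 283961), .ofNat (nat_lit 146758), .ofNat (nat_lit 260789), .ofNat (nat_lit 169532), .ofNat (nat_lit 283563)⟩⟩, [⟨nat_lit 4, nat_lit 100, nat_lit 55, nat_lit 69, nat_lit 340993559⟩, ⟨nat_lit 7, nat_lit 100, nat_lit 84, nat_lit 67, nat_lit 124620251⟩]⟩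
noncomputable def p120_l103 : Lf2 := ⟨nat_lit 0, nat_lit 20, [nat_lit 5, nat_lit 5, nat_lit 5, nat_lit 20], false, nat_lit 80, nat_lit 160, nat_lit 0, nat_lit 280, ⟨nat_lit 1000, nat_lit 0, nat_lit 0, nat_lit 0, nat_lit 0, nat_lit 0, nat_lit 0, nat_lit 0, nat_lit 0, nat_lit 0, nat_lit 0, nat_lit 0, nat_lit 0, nat_lit 0, nat_lit 0, nat_lit 0, false, false⟩,
 nat_lit 0, nat_lit 0, nat_lit 8428, nat_lit 0, nat_lit 6536, nat_lit 5834, nat_lit 0, nat_lit 0, nat_lit 0, nat_lit 1143, nat_lit 0, nat_lit 0, nat_lit 0, nat_lit 0, nat_lit 0, nat_lit 0, nat_lit 0, nat_lit 0, [],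
 ⟨p120_k21, nat_lit 0, nat_lit 0, nat_lit 116, nat_lit 0, nat_lit 0, [nat_lit 938000000, nat_lit 2032000001, nat_lit 6250000000], [], [nat_lit 30698822592, nat_lit 32269193552, nat_lit 33255584800, nat_lit 34656583520, nat_lit 29776476960, nat_lit 31189110224, nat_lit 32072444992, nat_lit 33335982128], nat_lit 0, nat_lit 0, nat_lit 0, nat_lit 0, nat_lit 0, nat_lit 0, [], [nat_lit 131, nat_lit 40, nat_lit 40, nat_lit 80, nat_lit 64, nat_lit 249, nat_lit 40, nat_lit 8]⟩, ⟨p120_k27, nat_lit 0, nat_lit 0, nat_lit 576, nat_lit 0, nat_lit 875110, [nat_lit 3282000000, nat_lit 4688000000, nat_lit 9842000000], [], [nat_lit 31653287606, nat_lit 31836689990, nat_lit 33072349158, nat_lit 33377665806, nat_lit 29223275419, nat_lit 29372773753, nat_lit 30025820043, nat_lit 30330327775], nat_lit 1271250, nat_lit 1271250, nat_lit 1271250, nat_lit 1271250, nat_lit 0, nat_lit 1977500, [nat_lit 780000, nat_lit 1100000, nat_lit 2127500],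 [nat_lit 42, nat_lit 40, nat_lit 40, nat_lit 80, nat_lit 13, nat_lit 289, nat_lit 75, nat_lit 8]⟩,
 zbF0, [⟨nat_lit 4, nat_lit 100, nat_lit 53, nat_lit 77, nat_lit 204470577⟩, ⟨nat_lit 7, nat_lit 100, nat_lit 89, nat_lit 80, nat_lit 170403197⟩]⟩
noncomputable def p120_l104 : Lf2 := ⟨nat_lit 0, nat_lit 20, [nat_lit 5, nat_lit 5, nat_lit 5, nat_lit 20], false, nat_lit 80, nat_lit 160, nat_lit 0, nat_lit 268, ⟨nat_lit 1000, nat_lit 0, nat_lit 0, nat_lit 0, nat_lit 0, nat_lit 0, nat_lit 0, nat_lit 0, nat_lit 0, nat_lit 0, nat_lit 0, nat_lit 0, nat_lit 0, nat_lit 0, nat_lit 0, nat_lit 0, false, false⟩,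
 nat_lit 0, nat_lit 0, nat_lit 8058, nat_lit 0, nat_lit 6536, nat_lit 5809, nat_lit 0, nat_lit 0, nat_lit 0, nat_lit 1059, nat_lit 0, nat_lit 0, nat_lit 0, nat_lit 0, nat_lit 0, nat_lit 0, nat_lit 0, nat_lit 0, [],
 ⟨p120_k21, nat_lit 0, nat_lit 0, nat_lit 116, nat_lit 0, nat_lit 0, [nat_lit 938000000, nat_lit 2032000001, nat_lit 6250000000], [], [nat_lit 30698822592, nat_lit 32269193552, nat_lit 33255584800, nat_lit 34656583520, nat_lit 29776476960, nat_lit 31189110224, nat_lit 32072444992, nat_lit 33335982128], nat_lit 0, nat_lit 0, nat_lit 0, nat_lit 0, nat_lit 0, nat_lit 0, [], [nat_lit 131, nat_lit 40, nat_lit 40, nat_lit 80, nat_lit 64, nat_lit 249, nat_lit 40, nat_lit 8]⟩, ⟨p120_k33, nat_lit 0, nat_lit 0, nat_lit 580, nat_lit 0, nat_lit 889454, [nat_lit 3282000000, nat_lit 4688000000, nat_lit 9842000000], [], [nat_lit 31729877291, nat_lit 32078782010, nat_lit 33392351206, nat_lit 33780824875, nat_lit 29286560222,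 nat_lit 29430670724, nat_lit 30144236953, nat_lit 30363804262], nat_lit 1271250, nat_lit 1271250, nat_lit 1271250, nat_lit 1271250, nat_lit 0, nat_lit 1892750, [nat_lit 780000, nat_lit 1100000, nat_lit 2127500], [nat_lit 42, nat_lit 40, nat_lit 40, nat_lit 80, nat_lit 13, nat_lit 289, nat_lit 75, nat_lit 8]⟩,
 zbF0, [⟨nat_lit 16, nat_lit 53, nat_lit 100, nat_lit 77, nat_lit 204470577⟩, ⟨nat_lit 7, nat_lit 100, nat_lit 84, nat_lit 78, nat_lit 166397580⟩]⟩
noncomputable def p120_l105 : Lf2 := ⟨nat_lit 0, nat_lit 15, [nat_lit 30, nat_lit 5, nat_lit 5, nat_lit 20], false, nat_lit 80, nat_lit 140, nat_lit 0, nat_lit 256, ⟨nat_lit 150, nat_lit 850, nat_lit 0, nat_lit 8, nat_lit 325, nat_lit 850, nat_lit 80, nat_lit 0, nat_lit 0, nat_lit 0, nat_lit 0, nat_lit 0, nat_lit 38481019, nat_lit 25699369, nat_lit 2819612, nat_lit 4290772, true, true⟩,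
 nat_lit 0, nat_lit 0, nat_lit 1527, nat_lit 0, nat_lit 2752, nat_lit 1057, nat_lit 0, nat_lit 0, nat_lit 0, nat_lit 100, nat_lit 0, nat_lit 0, nat_lit 0, nat_lit 0, nat_lit 0, nat_lit 287200, nat_lit 0, nat_lit 0, [(nat_lit 28, [(nat_lit 0, nat_lit 352), (nat_lit 1, nat_lit 498)])],
 ⟨p120_k15, nat_lit 0, nat_lit 0, nat_lit 112, nat_lit 0, nat_lit 0, [nat_lit 763228000, nat_lit 1022242401, nat_lit 1286097600], [], [nat_lit 26340989985, nat_lit 27307586913, nat_lit 27933294720, nat_lit 28970007872, nat_lit 26754682293, nat_lit 27661106481, nat_lit 28250925917, nat_lit 29105819336], nat_lit 0, nat_lit 0, nat_lit 0, nat_lit 0, nat_lit 0, nat_lit 0, [], [nat_lit 35, nat_lit 40, nat_lit 40, nat_lit 80, nat_lit 22, nat_lit 249, nat_lit 40, nat_lit 9]⟩, ⟨p120_k13, nat_lit 0, nat_lit 0, nat_lit 726, nat_lit 0, nat_lit 1224899, [nat_lit 492300000, nat_lit 937500000, nat_lit 1476300000], [], [nat_lit 5036006760, nat_lit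 5057667274, nat_lit 5281949942, nat_lit 5381335999, nat_lit 4450258902, nat_lit 4466553621, nat_lit 4543369916, nat_lit 4562773050], nat_lit 1271250, nat_lit 1271250, nat_lit 1271250, nat_lit 1271250, nat_lit 0, nat_lit 1808000, [nat_lit 780000, nat_lit 1435000, nat_lit 1271250], [nat_lit 8, nat_lit 40, nat_lit 40, nat_lit 80, nat_lit 1, nat_lit 298, nat_lit 75, nat_lit 8]⟩,
 ⟨nat_lit 0, nat_lit 2237, ⟨.ofNat (nat_lit 784917), .ofNat (nat_lit 841930), .ofNat (nat_lit 796304), .ofNat (nat_lit 853318), .ofNat (nat_lit 774999), .ofNat (nat_lit 824997), .ofNat (nat_lit 787499), .ofNat (nat_lit 837498)⟩, ⟨.ofNat (nat_lit 146756), .ofNat (nat_lit 232276), .ofNat (nat_lit 169532), .ofNat (nat_lit 255052), .ofNat (nat_lit 149997), .ofNat (nat_lit 224994), .ofNat (nat_lit 174999), .ofNat (nat_lit 249996)⟩⟩, [⟨nat_lit 13, nat_lit 37, nat_lit 76, nat_lit 100, nat_lit 208475464⟩, ⟨nat_lit 4, nat_lit 100, nat_lit 36, nat_lit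 77, nat_lit 223322339⟩, ⟨nat_lit 7, nat_lit 100, nat_lit 86, nat_lit 67, nat_lit 16530124⟩]⟩
noncomputable def p120_l106 : Lf2 := ⟨nat_lit 0, nat_lit 20, [nat_lit 5, nat_lit 5, nat_lit 5, nat_lit 20], false, nat_lit 80, nat_lit 160, nat_lit 0, nat_lit 280, ⟨nat_lit 169, nat_lit 831, nat_lit 0, nat_lit 8, nat_lit 327, nat_lit 831, nat_lit 95, nat_lit 0, nat_lit 0, nat_lit 0, nat_lit 0, nat_lit 0, nat_lit 37817662, nat_lit 25552462, nat_lit 3629876, nat_lit 4469693, true, true⟩,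
 nat_lit 0, nat_lit 0, nat_lit 1656, nat_lit 0, nat_lit 2578, nat_lit 1146, nat_lit 65, nat_lit 0, nat_lit 0, nat_lit 118, nat_lit 0, nat_lit 0, nat_lit 0, nat_lit 0, nat_lit 0, nat_lit 332400, nat_lit 0, nat_lit 0, [(nat_lit 28, [(nat_lit 1, nat_lit 831)])],
 ⟨p120_k5, nat_lit 0, nat_lit 0, nat_lit 122, nat_lit 0, nat_lit 0, [nat_lit 738227600, nat_lit 824566801, nat_lit 1170928000], [], [nat_lit 26019917889, nat_lit 26500474347, nat_lit 27604717289, nat_lit 28079070030, nat_lit 26585873621, nat_lit 27027263277, nat_lit 28046826897, nat_lit 28453708795], nat_lit 0, nat_lit 0, nat_lit 0, nat_lit 0, nat_lit 0, nat_lit 0, [], [nat_lit 20, nat_lit 40, nat_lit 40, nat_lit 80, nat_lit 16, nat_lit 249, nat_lit 40, nat_lit 8]⟩, ⟨p120_k4, nat_lit 0, nat_lit 0, nat_lit 624, nat_lit 0, nat_lit 1005916, [nat_lit 554658000, nat_lit 1056250000, nat_lit 1663298000], [], [nat_lit 5659597052, nat_lit 5693326160, nat_lit 5871547288,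 nat_lit 5958401355, nat_lit 5099804504, nat_lit 5124357705, nat_lit 5232180845, nat_lit 5266051114], nat_lit 1271250, nat_lit 1271250, nat_lit 1271250, nat_lit 1271250, nat_lit 0, nat_lit 1977500, [nat_lit 780000, nat_lit 1435000, nat_lit 1271250], [nat_lit 8, nat_lit 40, nat_lit 40, nat_lit 80, nat_lit 1, nat_lit 289, nat_lit 75, nat_lit 8]⟩,
 ⟨nat_lit 1581, nat_lit 2237, ⟨.ofNat (nat_lit 784917), .ofNat (nat_lit 841932), .ofNat (nat_lit 796304), .ofNat (nat_lit 853319), .ofNat (nat_lit 780481), .ofNat (nat_lit 835117), .ofNat (nat_lit 792138), .ofNat (nat_lit 846774)⟩, ⟨.ofNat (nat_lit 169532), .ofNat (nat_lit 283563), .ofNat (nat_lit 192306), .ofNat (nat_lit 306337), .ofNat (nat_lit 172886), .ofNat (nat_lit 282158), .ofNat (nat_lit 196201), .ofNat (nat_lit 305473)⟩⟩, [⟨nat_lit 13, nat_lit 45, nat_lit 69, nat_lit 100, nat_lit 161713739⟩, ⟨nat_lit 16, nat_lit 40, nat_lit 100, nat_lit 80, nat_lit 201727947⟩, ⟨nat_lit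 7, nat_lit 100, nat_lit 89, nat_lit 80, nat_lit 24480519⟩]⟩
noncomputable def p120_l107 : Lf2 := ⟨nat_lit 0, nat_lit 20, [nat_lit 5, nat_lit 5, nat_lit 5, nat_lit 20], false, nat_lit 80, nat_lit 136, nat_lit 0, nat_lit 280, ⟨nat_lit 150, nat_lit 850, nat_lit 0, nat_lit 8, nat_lit 324, nat_lit 850, nat_lit 89, nat_lit 0, nat_lit 0, nat_lit 0, nat_lit 0, nat_lit 0, nat_lit 38269955, nat_lit 25435388, nat_lit 3294657, nat_lit 4392672, true, true⟩,
 nat_lit 0, nat_lit 0, nat_lit 1469, nat_lit 0, nat_lit 2752, nat_lit 1017, nat_lit 63, nat_lit 0, nat_lit 0, nat_lit 105, nat_lit 0, nat_lit 0, nat_lit 0, nat_lit 0, nat_lit 0, nat_lit 212500, nat_lit 0, nat_lit 0, [(nat_lit 28, [(nat_lit 0, nat_lit 850)])],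
 ⟨p120_k14, nat_lit 0, nat_lit 0, nat_lit 112, nat_lit 0, nat_lit 0, [nat_lit 805060001, nat_lit 1381400001, nat_lit 1873140000], [], [nat_lit 26764748575, nat_lit 27248047039, nat_lit 28406561520, nat_lit 28970007872, nat_lit 27122780784, nat_lit 27577998636, nat_lit 28589178687, nat_lit 29053574517], nat_lit 0, nat_lit 0, nat_lit 0, nat_lit 0, nat_lit 0, nat_lit 0, [], [nat_lit 35, nat_lit 40, nat_lit 40, nat_lit 80, nat_lit 22, nat_lit 249, nat_lit 40, nat_lit 9]⟩, ⟨p120_k4, nat_lit 0, nat_lit 0, nat_lit 688, nat_lit 0, nat_lit 1142070, [nat_lit 492300000, nat_lit 937500000, nat_lit 1476300000], [], [nat_lit 5019793968, nat_lit 5049730929, nat_lit 5209172952, nat_lit 5288149719, nat_lit 4524717450, nat_lit 4546511024, nat_lit 4642210182, nat_lit 4673869811], nat_lit 1271250, nat_lit 1271250, nat_lit 1271250, nat_lit 1271250, nat_lit 0, nat_lit 1977500, [nat_lit 780000, nat_lit 1435000, nat_lit 1271250], [nat_lit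 8, nat_lit 40, nat_lit 40, nat_lit 80, nat_lit 1, nat_lit 291, nat_lit 75, nat_lit 8]⟩,
 ⟨nat_lit 0, nat_lit 1582, ⟨.ofNat (nat_lit 780481), .ofNat (nat_lit 835115), .ofNat (nat_lit 792138), .ofNat (nat_lit 846773), .ofNat (nat_lit 774999), .ofNat (nat_lit 824997), .ofNat (nat_lit 787499), .ofNat (nat_lit 837498)⟩, ⟨.ofNat (nat_lit 172886), .ofNat (nat_lit 249373), .ofNat (nat_lit 196201), .ofNat (nat_lit 272689), .ofNat (nat_lit 174999), .ofNat (nat_lit 244996), .ofNat (nat_lit 199999), .ofNat (nat_lit 269997)⟩⟩, [⟨nat_lit 13, nat_lit 37, nat_lit 74, nat_lit 100, nat_lit 381553607⟩, ⟨nat_lit 16, nat_lit 33, nat_lit 100, nat_lit 84, nat_lit 184981298⟩, ⟨nat_lit 7, nat_lit 100, nat_lit 89, nat_lit 80, nat_lit 21718409⟩]⟩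
noncomputable def p120_l108 : Lf2 := ⟨nat_lit 0, nat_lit 20, [nat_lit 5, nat_lit 5, nat_lit 5, nat_lit 20], false, nat_lit 80, nat_lit 160, nat_lit 0, nat_lit 268, ⟨nat_lit 179, nat_lit 821, nat_lit 0, nat_lit 8, nat_lit 331, nat_lit 821, nat_lit 91, nat_lit 0, nat_lit 0, nat_lit 0, nat_lit 0, nat_lit 0, nat_lit 37582003, nat_lit 26065829, nat_lit 3352168, nat_lit 4424285, true, true⟩,
 nat_lit 0, nat_lit 0, nat_lit 1571, nat_lit 0, nat_lit 2566, nat_lit 1132, nat_lit 71, nat_lit 0, nat_lit 0, nat_lit 122, nat_lit 0, nat_lit 0, nat_lit 0, nat_lit 0, nat_lit 0, nat_lit 328400, nat_lit 0, nat_lit 0, [(nat_lit 28, [(nat_lit 1, nat_lit 821)])],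
 ⟨p120_k5, nat_lit 0, nat_lit 0, nat_lit 122, nat_lit 0, nat_lit 0, [nat_lit 740631600, nat_lit 854138801, nat_lit 1232048000], [], [nat_lit 26028189783, nat_lit 26507924709, nat_lit 27610813583, nat_lit 28056484410, nat_lit 26598484787, nat_lit 27039163419, nat_lit 28057595559, nat_lit 28463872165], nat_lit 0, nat_lit 0, nat_lit 0, nat_lit 0, nat_lit 0, nat_lit 0, [], [nat_lit 20, nat_lit 40, nat_lit 40, nat_lit 80, nat_lit 16, nat_lit 249, nat_lit 40, nat_lit 8]⟩, ⟨p120_k6, nat_lit 0, nat_lit 0, nat_lit 731, nat_lit 0, nat_lit 1243573, [nat_lit 587478000, nat_lit 1118750000, nat_lit 1761718000], [], [nat_lit 5907136056, nat_lit 5934244370, nat_lit 6163086452, nat_lit 6249480884, nat_lit 5383460223, nat_lit 5404050346, nat_lit 5491588536, nat_lit 5510022313], nat_lit 1271250, nat_lit 1271250, nat_lit 1271250, nat_lit 1271250, nat_lit 0, nat_lit 1892750, [nat_lit 780000, nat_lit 1435000, nat_lit 1271250], [nat_lit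 8, nat_lit 40, nat_lit 40, nat_lit 80, nat_lit 1, nat_lit 302, nat_lit 75, nat_lit 8]⟩,
 ⟨nat_lit 1581, nat_lit 2237, ⟨.ofNat (nat_lit 796304), .ofNat (nat_lit 853319), .ofNat (nat_lit 807675), .ofNat (nat_lit 864706), .ofNat (nat_lit 792138), .ofNat (nat_lit 846774), .ofNat (nat_lit 803781), .ofNat (nat_lit 858432)⟩, ⟨.ofNat (nat_lit 146758), .ofNat (nat_lit 260789), .ofNat (nat_lit 192306), .ofNat (nat_lit 306337), .ofNat (nat_lit 149571), .ofNat (nat_lit 258843), .ofNat (nat_lit 196201), .ofNat (nat_lit 305473)⟩⟩, [⟨nat_lit 16, nat_lit 41, nat_lit 100, nat_lit 77, nat_lit 213253008⟩, ⟨nat_lit 7, nat_lit 100, nat_lit 83, nat_lit 73, nat_lit 28280033⟩]⟩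
noncomputable def p120_l109 : Lf2 := ⟨nat_lit 0, nat_lit 20, [nat_lit 5, nat_lit 5, nat_lit 5, nat_lit 20], false, nat_lit 80, nat_lit 136, nat_lit 0, nat_lit 268, ⟨nat_lit 158, nat_lit 842, nat_lit 0, nat_lit 8, nat_lit 329, nat_lit 842, nat_lit 84, nat_lit 0, nat_lit 0, nat_lit 0, nat_lit 0, nat_lit 0, nat_lit 38013044, nat_lit 25973710, nat_lit 3013246, nat_lit 4344763, true, true⟩,
 nat_lit 0, nat_lit 0, nat_lit 1378, nat_lit 0, nat_lit 2687, nat_lit 993, nat_lit 71, nat_lit 0, nat_lit 0, nat_lit 116, nat_lit 0, nat_lit 0, nat_lit 0, nat_lit 0, nat_lit 0, nat_lit 210500, nat_lit 0, nat_lit 0, [(nat_lit 28, [(nat_lit 0, nat_lit 842)])],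
 ⟨p120_k14, nat_lit 0, nat_lit 0, nat_lit 112, nat_lit 0, nat_lit 0, [nat_lit 806311200, nat_lit 1399288001, nat_lit 1899632800], [], [nat_lit 26753626639, nat_lit 27232579398, nat_lit 28303564234, nat_lit 28842352032, nat_lit 27127638812, nat_lit 27578924099, nat_lit 28584789065, nat_lit 29030238642], nat_lit 0, nat_lit 0, nat_lit 0, nat_lit 0, nat_lit 0, nat_lit 0, [], [nat_lit 35, nat_lit 40, nat_lit 40, nat_lit 80, nat_lit 22, nat_lit 249, nat_lit 40, nat_lit 9]⟩, ⟨p120_k6, nat_lit 0, nat_lit 0, nat_lit 779, nat_lit 0, nat_lit 1373518, [nat_lit 518556000, nat_lit 987500000, nat_lit 1555036000], [], [nat_lit 5197247586, nat_lit 5222808192, nat_lit 5387912007, nat_lit 5501488668, nat_lit 4756771722, nat_lit 4771865422, nat_lit 4838737313, nat_lit 4858104827], nat_lit 1271250, nat_lit 1271250, nat_lit 1271250, nat_lit 1271250, nat_lit 0, nat_lit 1892750, [nat_lit 780000, nat_lit 1435000, nat_lit 1271250], [nat_lit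 8, nat_lit 40, nat_lit 40, nat_lit 80, nat_lit 1, nat_lit 314, nat_lit 75, nat_lit 8]⟩,
 ⟨nat_lit 0, nat_lit 1582, ⟨.ofNat (nat_lit 792138), .ofNat (nat_lit 846773), .ofNat (nat_lit 803773), .ofNat (nat_lit 858431), .ofNat (nat_lit 787499), .ofNat (nat_lit 837498), .ofNat (nat_lit 799976), .ofNat (nat_lit 849998)⟩, ⟨.ofNat (nat_lit 149570), .ofNat (nat_lit 226057), .ofNat (nat_lit 196201), .ofNat (nat_lit 272689), .ofNat (nat_lit 149998), .ofNat (nat_lit 219995), .ofNat (nat_lit 199999), .ofNat (nat_lit 269997)⟩⟩, [⟨nat_lit 13, nat_lit 39, nat_lit 72, nat_lit 100, nat_lit 151229188⟩, ⟨nat_lit 16, nat_lit 33, nat_lit 100, nat_lit 84, nat_lit 261354768⟩, ⟨nat_lit 19, nat_lit 83, nat_lit 100, nat_lit 73, nat_lit 25287195⟩]⟩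
noncomputable def p120_l110 : Lf2 := ⟨nat_lit 0, nat_lit 15, [nat_lit 30, nat_lit 5, nat_lit 5, nat_lit 20], false, nat_lit 80, nat_lit 160, nat_lit 8, nat_lit 256, ⟨nat_lit 1000, nat_lit 0, nat_lit 0, nat_lit 0, nat_lit 0, nat_lit 0, nat_lit 0, nat_lit 0, nat_lit 0, nat_lit 0, nat_lit 0, nat_lit 0, nat_lit 0, nat_lit 0, nat_lit 0, nat_lit 0, false, false⟩,
 nat_lit 0, nat_lit 0, nat_lit 8487, nat_lit 0, nat_lit 3996, nat_lit 5875, nat_lit 0, nat_lit 0, nat_lit 0, nat_lit 1044, nat_lit 0, nat_lit 0, nat_lit 0, nat_lit 0, nat_lit 0, nat_lit 0, nat_lit 0, nat_lit 0, [],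
 ⟨p120_k25, nat_lit 0, nat_lit 0, nat_lit 125, nat_lit 0, nat_lit 0, [nat_lit 938000000, nat_lit 2032000001, nat_lit 6250000000], [], [nat_lit 32768412800, nat_lit 33858210720, nat_lit 34512089472, nat_lit 35511242215, nat_lit 32673829937, nat_lit 33618224353, nat_lit 34214669066, nat_lit 35128903386], nat_lit 0, nat_lit 0, nat_lit 0, nat_lit 0, nat_lit 0, nat_lit 0, [], [nat_lit 131, nat_lit 40, nat_lit 40, nat_lit 80, nat_lit 64, nat_lit 249, nat_lit 40, nat_lit 7]⟩, ⟨p120_k26, nat_lit 0, nat_lit 0, nat_lit 618, nat_lit 0, nat_lit 1021411, [nat_lit 3282000000, nat_lit 4688000000, nat_lit 9842000000], [], [nat_lit 33971333651, nat_lit 34475271101, nat_lit 35383811160, nat_lit 36419690500, nat_lit 31259801050, nat_lit 31449058800, nat_lit 31855399110, nat_lit 32167102421], nat_lit 1271250, nat_lit 1271250, nat_lit 1271250, nat_lit 1271250, nat_lit 43600, nat_lit 1813700, [nat_lit 780000, nat_lit 1100000, nat_lit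 2127500], [nat_lit 42, nat_lit 40, nat_lit 40, nat_lit 80, nat_lit 13, nat_lit 289, nat_lit 75, nat_lit 7]⟩,
 zbF0, [⟨nat_lit 4, nat_lit 100, nat_lit 55, nat_lit 69, nat_lit 397850789⟩, ⟨nat_lit 7, nat_lit 100, nat_lit 84, nat_lit 67, nat_lit 152986133⟩]⟩
noncomputable def p120_l111 : Lf2 := ⟨nat_lit 0, nat_lit 20, [nat_lit 5, nat_lit 5, nat_lit 5, nat_lit 20], false, nat_lit 80, nat_lit 160, nat_lit 8, nat_lit 280, ⟨nat_lit 1000, nat_lit 0, nat_lit 0, nat_lit 0, nat_lit 0, nat_lit 0, nat_lit 0, nat_lit 0, nat_lit 0, nat_lit 0, nat_lit 0, nat_lit 0, nat_lit 0, nat_lit 0, nat_lit 0, nat_lit 0, false, false⟩,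
 nat_lit 0, nat_lit 0, nat_lit 8178, nat_lit 0, nat_lit 3996, nat_lit 5661, nat_lit 0, nat_lit 0, nat_lit 0, nat_lit 1091, nat_lit 0, nat_lit 0, nat_lit 0, nat_lit 0, nat_lit 0, nat_lit 0, nat_lit 0, nat_lit 0, [],
 ⟨p120_k21, nat_lit 0, nat_lit 0, nat_lit 125, nat_lit 0, nat_lit 0, [nat_lit 938000000, nat_lit 2032000001, nat_lit 6250000000], [], [nat_lit 32768412800, nat_lit 33858210720, nat_lit 34512089472, nat_lit 35511242215, nat_lit 32673829937, nat_lit 33618224353, nat_lit 34214669066, nat_lit 35128903386], nat_lit 0, nat_lit 0, nat_lit 0, nat_lit 0, nat_lit 0, nat_lit 0, [], [nat_lit 131, nat_lit 40, nat_lit 40, nat_lit 80, nat_lit 64, nat_lit 249, nat_lit 40, nat_lit 7]⟩, ⟨p120_k27, nat_lit 0, nat_lit 0, nat_lit 572, nat_lit 0, nat_lit 875110, [nat_lit 3282000000, nat_lit 4688000000, nat_lit 9842000000], [], [nat_lit 33899571095, nat_lit 34059787816, nat_lit 34949349736, nat_lit 35270400620, nat_lit 31461446149,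 nat_lit 31557582909, nat_lit 32136149403, nat_lit 32301162428], nat_lit 1271250, nat_lit 1271250, nat_lit 1271250, nat_lit 1271250, nat_lit 43600, nat_lit 1985000, [nat_lit 780000, nat_lit 1100000, nat_lit 2127500], [nat_lit 42, nat_lit 40, nat_lit 40, nat_lit 80, nat_lit 13, nat_lit 289, nat_lit 75, nat_lit 7]⟩,
 zbF0, [⟨nat_lit 16, nat_lit 53, nat_lit 100, nat_lit 77, nat_lit 369969062⟩, ⟨nat_lit 7, nat_lit 100, nat_lit 89, nat_lit 80, nat_lit 172832634⟩]⟩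
noncomputable def p120_l112 : Lf2 := ⟨nat_lit 0, nat_lit 20, [nat_lit 5, nat_lit 5, nat_lit 5, nat_lit 20], false, nat_lit 80, nat_lit 160, nat_lit 8, nat_lit 268, ⟨nat_lit 1000, nat_lit 0, nat_lit 0, nat_lit 0, nat_lit 0, nat_lit 0, nat_lit 0, nat_lit 0, nat_lit 0, nat_lit 0, nat_lit 0, nat_lit 0, nat_lit 0, nat_lit 0, nat_lit 0, nat_lit 0, false, false⟩,
 nat_lit 0, nat_lit 0, nat_lit 8013, nat_lit 0, nat_lit 3996, nat_lit 5776, nat_lit 0, nat_lit 0, nat_lit 0, nat_lit 951, nat_lit 0, nat_lit 0, nat_lit 0, nat_lit 0, nat_lit 0, nat_lit 0, nat_lit 0, nat_lit 0, [],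
 ⟨p120_k21, nat_lit 0, nat_lit 0, nat_lit 125, nat_lit 0, nat_lit 0, [nat_lit 938000000, nat_lit 2032000001, nat_lit 6250000000], [], [nat_lit 32768412800, nat_lit 33858210720, nat_lit 34512089472, nat_lit 35511242215, nat_lit 32673829937, nat_lit 33618224353, nat_lit 34214669066, nat_lit 35128903386], nat_lit 0, nat_lit 0, nat_lit 0, nat_lit 0, nat_lit 0, nat_lit 0, [], [nat_lit 131, nat_lit 40, nat_lit 40, nat_lit 80, nat_lit 64, nat_lit 249, nat_lit 40, nat_lit 7]⟩, ⟨p120_k33, nat_lit 0, nat_lit 0, nat_lit 575, nat_lit 0, nat_lit 889454, [nat_lit 3282000000, nat_lit 4688000000, nat_lit 9842000000], [], [nat_lit 34439593532, nat_lit 34742809549, nat_lit 35910209188, nat_lit 36178364106, nat_lit 31548972456, nat_lit 31674363622, nat_lit 32312947814, nat_lit 32538080092], nat_lit 1271250, nat_lit 1271250, nat_lit 1271250, nat_lit 1271250, nat_lit 43600, nat_lit 1899350, [nat_lit 780000, nat_lit 1100000, nat_lit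 2127500], [nat_lit 42, nat_lit 40, nat_lit 40, nat_lit 80, nat_lit 13, nat_lit 289, nat_lit 75, nat_lit 7]⟩,
 zbF0, [⟨nat_lit 4, nat_lit 100, nat_lit 53, nat_lit 77, nat_lit 348193198⟩, ⟨nat_lit 7, nat_lit 100, nat_lit 84, nat_lit 78, nat_lit 159931764⟩]⟩
noncomputable def p120_l113 : Lf2 := ⟨nat_lit 0, nat_lit 20, [nat_lit 5, nat_lit 5, nat_lit 5, nat_lit 20], false, nat_lit 80, nat_lit 160, nat_lit 8, nat_lit 280, ⟨nat_lit 145, nat_lit 855, nat_lit 0, nat_lit 9, nat_lit 339, nat_lit 855, nat_lit 90, nat_lit 0, nat_lit 0, nat_lit 0, nat_lit 0, nat_lit 0, nat_lit 36926220, nat_lit 26790413, nat_lit 3283367, nat_lit 4428192, true, true⟩,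
 nat_lit 0, nat_lit 0, nat_lit 1438, nat_lit 0, nat_lit 2547, nat_lit 995, nat_lit 49, nat_lit 0, nat_lit 0, nat_lit 90, nat_lit 0, nat_lit 0, nat_lit 0, nat_lit 0, nat_lit 0, nat_lit 342000, nat_lit 0, nat_lit 0, [(nat_lit 28, [(nat_lit 1, nat_lit 855)])],
 ⟨p120_k5, nat_lit 0, nat_lit 0, nat_lit 129, nat_lit 0, nat_lit 0, [nat_lit 732458000, nat_lit 753594000, nat_lit 1024240000], [], [nat_lit 27645413911, nat_lit 28567400992, nat_lit 28150071768, nat_lit 29157595214, nat_lit 28099593803, nat_lit 28910230257, nat_lit 28565585987, nat_lit 29355832753], nat_lit 0, nat_lit 0, nat_lit 0, nat_lit 0, nat_lit 0, nat_lit 0, [], [nat_lit 20, nat_lit 40, nat_lit 40, nat_lit 80, nat_lit 16, nat_lit 249, nat_lit 40, nat_lit 7]⟩, ⟨p120_k4, nat_lit 0, nat_lit 0, nat_lit 779, nat_lit 0, nat_lit 1394307, [nat_lit 475890000, nat_lit 906250000, nat_lit 1427090000], [], [nat_lit 5192571492, nat_lit 5210244600, nat_lit 5233943666,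 nat_lit 5277583216, nat_lit 4646824495, nat_lit 4658793858, nat_lit 4677778950, nat_lit 4688942276], nat_lit 1271250, nat_lit 1271250, nat_lit 1271250, nat_lit 1271250, nat_lit 43600, nat_lit 1985000, [nat_lit 780000, nat_lit 1435000, nat_lit 1271250], [nat_lit 8, nat_lit 40, nat_lit 40, nat_lit 80, nat_lit 1, nat_lit 315, nat_lit 75, nat_lit 8]⟩,
 ⟨nat_lit 0, nat_lit 2237, ⟨.ofNat (nat_lit 841930), .ofNat (nat_lit 859034), .ofNat (nat_lit 853318), .ofNat (nat_lit 870422), .ofNat (nat_lit 824997), .ofNat (nat_lit 839996), .ofNat (nat_lit 837498), .ofNat (nat_lit 852497)⟩, ⟨.ofNat (nat_lit 146756), .ofNat (nat_lit 260783), .ofNat (nat_lit 192306), .ofNat (nat_lit 306334), .ofNat (nat_lit 149997), .ofNat (nat_lit 249993), .ofNat (nat_lit 199999), .ofNat (nat_lit 299996)⟩⟩, [⟨nat_lit 13, nat_lit 52, nat_lit 61, nat_lit 100, nat_lit 317307542⟩, ⟨nat_lit 16, nat_lit 44, nat_lit 100, nat_lit 82, nat_lit 166553181⟩, ⟨nat_lit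 19, nat_lit 88, nat_lit 100, nat_lit 74, nat_lit 22468565⟩]⟩
noncomputable def p120_l114 : Lf2 := ⟨nat_lit 0, nat_lit 20, [nat_lit 5, nat_lit 5, nat_lit 5, nat_lit 20], false, nat_lit 80, nat_lit 160, nat_lit 8, nat_lit 268, ⟨nat_lit 185, nat_lit 815, nat_lit 0, nat_lit 9, nat_lit 346, nat_lit 815, nat_lit 90, nat_lit 0, nat_lit 0, nat_lit 0, nat_lit 0, nat_lit 0, nat_lit 36339292, nat_lit 27414349, nat_lit 3246359, nat_lit 4434442, true, true⟩,
 nat_lit 0, nat_lit 0, nat_lit 1586, nat_lit 0, nat_lit 2555, nat_lit 1143, nat_lit 69, nat_lit 0, nat_lit 0, nat_lit 134, nat_lit 0, nat_lit 0, nat_lit 0, nat_lit 0, nat_lit 0, nat_lit 326000, nat_lit 0, nat_lit 0, [(nat_lit 28, [(nat_lit 1, nat_lit 815)])],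
 ⟨p120_k5, nat_lit 0, nat_lit 0, nat_lit 131, nat_lit 0, nat_lit 0, [nat_lit 742074001, nat_lit 871882001, nat_lit 1268720000], [], [nat_lit 27679688717, nat_lit 28583112480, nat_lit 28528148595, nat_lit 29567847820, nat_lit 28130753697, nat_lit 28942197207, nat_lit 28908144297, nat_lit 29703867630], nat_lit 0, nat_lit 0, nat_lit 0, nat_lit 0, nat_lit 0, nat_lit 0, [], [nat_lit 20, nat_lit 40, nat_lit 40, nat_lit 80, nat_lit 16, nat_lit 249, nat_lit 40, nat_lit 7]⟩, ⟨p120_k6, nat_lit 0, nat_lit 0, nat_lit 770, nat_lit 0, nat_lit 1373518, [nat_lit 607170000, nat_lit 1156250000, nat_lit 1820770000], [], [nat_lit 6339819850, nat_lit 6365764373, nat_lit 6543050972, nat_lit 6663486386, nat_lit 5830481353, nat_lit 5845563440, nat_lit 5888760104, nat_lit 5928524116], nat_lit 1271250, nat_lit 1271250, nat_lit 1271250, nat_lit 1271250, nat_lit 43600, nat_lit 1899350, [nat_lit 780000, nat_lit 1435000, nat_lit 1271250], [nat_lit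 8, nat_lit 40, nat_lit 40, nat_lit 80, nat_lit 1, nat_lit 314, nat_lit 75, nat_lit 8]⟩,
 ⟨nat_lit 0, nat_lit 2237, ⟨.ofNat (nat_lit 853318), .ofNat (nat_lit 881824), .ofNat (nat_lit 864705), .ofNat (nat_lit 893212), .ofNat (nat_lit 837498), .ofNat (nat_lit 862496), .ofNat (nat_lit 849998), .ofNat (nat_lit 874997)⟩, ⟨.ofNat (nat_lit 146756), .ofNat (nat_lit 260783), .ofNat (nat_lit 192306), .ofNat (nat_lit 306334), .ofNat (nat_lit 149997), .ofNat (nat_lit 249993), .ofNat (nat_lit 199999), .ofNat (nat_lit 299996)⟩⟩, [⟨nat_lit 13, nat_lit 54, nat_lit 57, nat_lit 100, nat_lit 280513224⟩, ⟨nat_lit 16, nat_lit 35, nat_lit 100, nat_lit 80, nat_lit 238010516⟩, ⟨nat_lit 19, nat_lit 83, nat_lit 100, nat_lit 73, nat_lit 30225932⟩]⟩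
noncomputable def p120_l115 : Lf2 := ⟨nat_lit 0, nat_lit 20, [nat_lit 5, nat_lit 5, nat_lit 5, nat_lit 20], false, nat_lit 160, nat_lit 200, nat_lit 16, nat_lit 280, ⟨nat_lit 1000, nat_lit 0, nat_lit 0, nat_lit 0, nat_lit 0, nat_lit 0, nat_lit 0, nat_lit 0, nat_lit 0, nat_lit 0, nat_lit 0, nat_lit 0, nat_lit 0, nat_lit 0, nat_lit 0, nat_lit 0, false, false⟩,
 nat_lit 0, nat_lit 0, nat_lit 8746, nat_lit 0, nat_lit 6435, nat_lit 6054, nat_lit 0, nat_lit 0, nat_lit 0, nat_lit 947, nat_lit 0, nat_lit 0, nat_lit 0, nat_lit 0, nat_lit 0, nat_lit 0, nat_lit 0, nat_lit 0, [],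
 ⟨p120_k21, nat_lit 0, nat_lit 0, nat_lit 103, nat_lit 0, nat_lit 0, [nat_lit 938000000, nat_lit 2032000001, nat_lit 6250000000], [], [nat_lit 29816537600, nat_lit 31216553540, nat_lit 34098898517, nat_lit 35234886716, nat_lit 30338114610, nat_lit 31644648955, nat_lit 34327354628, nat_lit 35442215293], nat_lit 0, nat_lit 0, nat_lit 0, nat_lit 0, nat_lit 0, nat_lit 0, [], [nat_lit 131, nat_lit 40, nat_lit 40, nat_lit 80, nat_lit 64, nat_lit 260, nat_lit 50, nat_lit 8]⟩, ⟨p120_k27, nat_lit 0, nat_lit 0, nat_lit 701, nat_lit 0, nat_lit 1185407, [nat_lit 3282000000, nat_lit 4688000000, nat_lit 9842000000], [], [nat_lit 33734568360, nat_lit 34027609746, nat_lit 36061392641, nat_lit 36599236791, nat_lit 31510447048, nat_lit 31696528522, nat_lit 32675864256, nat_lit 33133515339], nat_lit 1271250, nat_lit 1271250, nat_lit 1271250, nat_lit 1271250, nat_lit 88400, nat_lit 1992500, [nat_lit 780000, nat_lit 1100000, nat_lit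 2127500], [nat_lit 42, nat_lit 40, nat_lit 40, nat_lit 80, nat_lit 13, nat_lit 300, nat_lit 75, nat_lit 8]⟩,
 zbF0, [⟨nat_lit 4, nat_lit 100, nat_lit 54, nat_lit 73, nat_lit 1792041096⟩, ⟨nat_lit 7, nat_lit 100, nat_lit 85, nat_lit 73, nat_lit 183639830⟩]⟩
noncomputable def p120_l116 : Lf2 := ⟨nat_lit 0, nat_lit 20, [nat_lit 5, nat_lit 5, nat_lit 5, nat_lit 20], false, nat_lit 160, nat_lit 164, nat_lit 16, nat_lit 280, ⟨nat_lit 1000, nat_lit 0, nat_lit 0, nat_lit 0, nat_lit 0, nat_lit 0, nat_lit 0, nat_lit 0, nat_lit 0, nat_lit 0, nat_lit 0, nat_lit 0, nat_lit 0, nat_lit 0, nat_lit 0, nat_lit 0, false, false⟩,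
 nat_lit 0, nat_lit 0, nat_lit 10368, nat_lit 0, nat_lit 2980, nat_lit 7177, nat_lit 465, nat_lit 0, nat_lit 0, nat_lit 552, nat_lit 0, nat_lit 0, nat_lit 0, nat_lit 0, nat_lit 0, nat_lit 0, nat_lit 0, nat_lit 0, [],
 ⟨p120_k5, nat_lit 0, nat_lit 0, nat_lit 105, nat_lit 0, nat_lit 0, [nat_lit 938000000, nat_lit 3282000000, nat_lit 6250000000], [], [nat_lit 26977069525, nat_lit 27926918605, nat_lit 29359620760, nat_lit 30373780680, nat_lit 27043423905, nat_lit 27988126310, nat_lit 29419262992, nat_lit 30427863448], nat_lit 0, nat_lit 0, nat_lit 0, nat_lit 0, nat_lit 0, nat_lit 0, [], [nat_lit 20, nat_lit 40, nat_lit 40, nat_lit 80, nat_lit 16, nat_lit 260, nat_lit 50, nat_lit 8]⟩, ⟨p120_k4, nat_lit 0, nat_lit 0, nat_lit 802, nat_lit 0, nat_lit 1455935, [nat_lit 3282000000, nat_lit 6250000000, nat_lit 9842000000], [], [nat_lit 35172670640, nat_lit 35364636828, nat_lit 36980562239, nat_lit 37856083402, nat_lit 31223034120,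 nat_lit 31299757220, nat_lit 32583510725, nat_lit 33485747401], nat_lit 1271250, nat_lit 1271250, nat_lit 1271250, nat_lit 1271250, nat_lit 88400, nat_lit 1992500, [nat_lit 780000, nat_lit 1435000, nat_lit 1271250], [nat_lit 8, nat_lit 40, nat_lit 40, nat_lit 80, nat_lit 1, nat_lit 323, nat_lit 75, nat_lit 8]⟩,
 zbF0, [⟨nat_lit 16, nat_lit 44, nat_lit 100, nat_lit 82, nat_lit 2954954561⟩, ⟨nat_lit 19, nat_lit 94, nat_lit 100, nat_lit 87, nat_lit 118426998⟩]⟩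
noncomputable def b_V_900_700_10_21 : St := ⟨true, nat_lit 0, nat_lit 1, nat_lit 1, nat_lit 80, nat_lit 360, nat_lit 400, nat_lit 300, nat_lit 320, nat_lit 320, nat_lit 392, nat_lit 40, nat_lit 80, nat_lit 80, nat_lit 200, nat_lit 0, nat_lit 300, nat_lit 80, nat_lit 120, nat_lit 0, nat_lit 0, nat_lit 0, nat_lit 0⟩
theorem d_V_900_700_10_21 (h : EB TB.env) : Dead b_V_900_700_10_21 := chkB_sound0 h (T :=
(.trX (nat_lit 19) (nat_lit 94) (nat_lit 100) (nat_lit 87) (nat_lit 280) (.spl (nat_lit 4) (nat_lit 160)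
(.spl (nat_lit 2) (nat_lit 360)
(.spl (nat_lit 0) (nat_lit 380)
(.spl (nat_lit 3) (nat_lit 60)
(.trX (nat_lit 19) (nat_lit 90) (nat_lit 100) (nat_lit 74) (nat_lit 256) (.leaf p120_l102))
(.spl (nat_lit 1) (nat_lit 310)
(.leaf p120_l103)
(.trX (nat_lit 19) (nat_lit 89) (nat_lit 100) (nat_lit 85) (nat_lit 268) (.leaf p120_l104))))
(.spl (nat_lit 1) (nat_lit 310)
(.spl (nat_lit 3) (nat_lit 60)
(.trX (nat_lit 16) (nat_lit 46) (nat_lit 100) (nat_lit 75) (nat_lit 140) (.trX (nat_lit 19) (nat_lit 90) (nat_lit 100) (nat_lit 74) (nat_lit 256) (.leaf p120_l105)))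
(.spl (nat_lit 0) (nat_lit 390)
(.leaf p120_l106)
(.trX (nat_lit 16) (nat_lit 33) (nat_lit 100) (nat_lit 84) (nat_lit 136) (.leaf p120_l107))))
(.trX (nat_lit 19) (nat_lit 89) (nat_lit 100) (nat_lit 85) (nat_lit 268) (.spl (nat_lit 0) (nat_lit 390)
(.leaf p120_l108)
(.trX (nat_lit 16) (nat_lit 33) (nat_lit 100) (nat_lit 84) (nat_lit 136) (.leaf p120_l109))))))
(.trZ (nat_lit 9) (nat_lit 100) (nat_lit 75) (nat_lit 35) (nat_lit 8) (.spl (nat_lit 0) (nat_lit 380)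
(.spl (nat_lit 3) (nat_lit 60)
(.trX (nat_lit 19) (nat_lit 90) (nat_lit 100) (nat_lit 74) (nat_lit 256) (.leaf p120_l110))
(.spl (nat_lit 1) (nat_lit 310)
(.leaf p120_l111)
(.trX (nat_lit 19) (nat_lit 89) (nat_lit 100) (nat_lit 85) (nat_lit 268) (.leaf p120_l112))))
(.trX (nat_lit 13) (nat_lit 54) (nat_lit 57) (nat_lit 100) (nat_lit 380) (.spl (nat_lit 1) (nat_lit 310)
(.trX (nat_lit 13) (nat_lit 52) (nat_lit 61) (nat_lit 100) (nat_lit 372) (.leaf p120_l113))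
(.trX (nat_lit 19) (nat_lit 89) (nat_lit 100) (nat_lit 85) (nat_lit 268) (.leaf p120_l114)))))))
(.trZ (nat_lit 9) (nat_lit 100) (nat_lit 82) (nat_lit 44) (nat_lit 16) (.spl (nat_lit 0) (nat_lit 380)
(.leaf p120_l115)
(.trX (nat_lit 13) (nat_lit 54) (nat_lit 57) (nat_lit 100) (nat_lit 380) (.trX (nat_lit 16) (nat_lit 44) (nat_lit 100) (nat_lit 82) (nat_lit 164) (.leaf p120_l116)))))))) (by decide +kernel)
noncomputable def p120_l117 : Lf2 := ⟨nat_lit 0, nat_lit 20, [nat_lit 5, nat_lit 5, nat_lit 5, nat_lit 20], false, nat_lit 0, nat_lit 200, nat_lit 0, nat_lit 300, ⟨nat_lit 1000, nat_lit 0, nat_lit 0, nat_lit 0, nat_lit 0, nat_lit 0, nat_lit 0, nat_lit 0, nat_lit 0, nat_lit 0, nat_lit 0, nat_lit 0, nat_lit 0, nat_lit 0, nat_lit 0, nat_lit 0, false, false⟩,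
 nat_lit 0, nat_lit 0, nat_lit 0, nat_lit 0, nat_lit 7066, nat_lit 11711, nat_lit 0, nat_lit 0, nat_lit 0, nat_lit 0, nat_lit 0, nat_lit 0, nat_lit 0, nat_lit 0, nat_lit 0, nat_lit 0, nat_lit 0, nat_lit 0, [],
 ⟨p120_k3, nat_lit 0, nat_lit 0, nat_lit 200, nat_lit 0, nat_lit 0, [nat_lit 938000000, nat_lit 3282000000, nat_lit 6250000000], [], [nat_lit 30656435951, nat_lit 34698618764, nat_lit 43243069568, nat_lit 46653335068, nat_lit 27106323844, nat_lit 30178073586, nat_lit 34955618497, nat_lit 37722653973], nat_lit 0, nat_lit 0, nat_lit 0, nat_lit 0, nat_lit 0, nat_lit 0, [], [nat_lit 20, nat_lit 40, nat_lit 40, nat_lit 80, nat_lit 16, nat_lit 373, nat_lit 150, nat_lit 14]⟩, ⟨p120_k7, nat_lit 0, nat_lit 0, nat_lit 239, nat_lit 0, nat_lit 0, [nat_lit 3282000000, nat_lit 6250000000, nat_lit 11872000000], [], [nat_lit 36170194068, nat_lit 40503493481, nat_lit 50938606821, nat_lit 52790895093, nat_lit 31370809319, nat_lit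 33794084751, nat_lit 38682935197, nat_lit 40143324224], nat_lit 0, nat_lit 0, nat_lit 0, nat_lit 0, nat_lit 0, nat_lit 0, [], [nat_lit 23, nat_lit 40, nat_lit 40, nat_lit 80, nat_lit 12, nat_lit 538, nat_lit 300, nat_lit 14]⟩,
 zbF0, [⟨nat_lit 0, nat_lit 87, nat_lit 44, nat_lit 100, nat_lit 24685882⟩, ⟨nat_lit 4, nat_lit 100, nat_lit 46, nat_lit 75, nat_lit 62534087⟩]⟩
noncomputable def p120_l118 : Lf2 := ⟨nat_lit 0, nat_lit 20, [nat_lit 5, nat_lit 5, nat_lit 5, nat_lit 20], true, nat_lit 0, nat_lit 200, nat_lit 0, nat_lit 300, ⟨nat_lit 0, nat_lit 1000, nat_lit 0, nat_lit 7, nat_lit 242, nat_lit 1000, nat_lit 67, nat_lit 0, nat_lit 0, nat_lit 0, nat_lit 0, nat_lit 0, nat_lit 0, nat_lit 0, nat_lit 0, nat_lit 5000000, false, false⟩,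
 nat_lit 0, nat_lit 0, nat_lit 0, nat_lit 0, nat_lit 4189, nat_lit 0, nat_lit 0, nat_lit 0, nat_lit 0, nat_lit 0, nat_lit 0, nat_lit 0, nat_lit 0, nat_lit 0, nat_lit 0, nat_lit 250000, nat_lit 0, nat_lit 0, [(nat_lit 25, [(nat_lit 0, nat_lit 1000)]), (nat_lit 28, [(nat_lit 0, nat_lit 1000)])],
 ⟨p120_k0, nat_lit 0, nat_lit 0, nat_lit 166, nat_lit 0, nat_lit 0, [nat_lit 781600001, nat_lit 1715600001, nat_lit 2118000000], [], [nat_lit 23088125371, nat_lit 27261645113, nat_lit 25495720632, nat_lit 29303688688, nat_lit 22581445483, nat_lit 25191164071, nat_lit 24308258395, nat_lit 26776614332], nat_lit 0, nat_lit 0, nat_lit 0, nat_lit 0, nat_lit 0, nat_lit 0, [], [nat_lit 55, nat_lit 40, nat_lit 40, nat_lit 80, nat_lit 3, nat_lit 345, nat_lit 125, nat_lit 13]⟩, C1.Rw.none,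
 ⟨nat_lit 0, nat_lit 3163, ⟨.ofNat (nat_lit 507176), .ofNat (nat_lit 646918), .ofNat (nat_lit 548877), .ofNat (nat_lit 688618), .ofNat (nat_lit 531701), .ofNat (nat_lit 647345), .ofNat (nat_lit 579091), .ofNat (nat_lit 694736)⟩, ⟨.ofNat (nat_lit 0), .ofNat (nat_lit 322753), .ofNat (nat_lit 0), .ofNat (nat_lit 367065), .ofNat (nat_lit 0), .ofNat (nat_lit 299993), .ofNat (nat_lit 0), .ofNat (nat_lit 349995)⟩⟩, []⟩
noncomputable def p120_l119 : Lf2 := ⟨nat_lit 0, nat_lit 20, [nat_lit 5, nat_lit 5, nat_lit 5, nat_lit 20], false, nat_lit 0, nat_lit 200, nat_lit 0, nat_lit 300, ⟨nat_lit 95, nat_lit 905, nat_lit 0, nat_lit 7, nat_lit 313, nat_lit 905, nat_lit 69, nat_lit 0, nat_lit 0, nat_lit 0, nat_lit 0, nat_lit 0, nat_lit 0, nat_lit 0, nat_lit 0, nat_lit 5000000, true, true⟩,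
 nat_lit 0, nat_lit 0, nat_lit 1124, nat_lit 0, nat_lit 3731, nat_lit 715, nat_lit 0, nat_lit 0, nat_lit 0, nat_lit 53, nat_lit 0, nat_lit 0, nat_lit 0, nat_lit 0, nat_lit 0, nat_lit 280700, nat_lit 0, nat_lit 0, [(nat_lit 25, [(nat_lit 0, nat_lit 542), (nat_lit 1, nat_lit 363)])],
 ⟨p120_k3, nat_lit 0, nat_lit 0, nat_lit 190, nat_lit 0, nat_lit 0, [nat_lit 809860401, nat_lit 1417454001, nat_lit 2073923600], [], [nat_lit 26483528992, nat_lit 27661925402, nat_lit 33352633488, nat_lit 34568736512, nat_lit 25996123338, nat_lit 26949772163, nat_lit 30900175527, nat_lit 31598674522], nat_lit 0, nat_lit 0, nat_lit 0, nat_lit 0, nat_lit 0, nat_lit 0, [], [nat_lit 20, nat_lit 40, nat_lit 40, nat_lit 80, nat_lit 16, nat_lit 260, nat_lit 50, nat_lit 9]⟩, ⟨p120_k7, nat_lit 0, nat_lit 0, nat_lit 854, nat_lit 0, nat_lit 1339737, [nat_lit 311790000, nat_lit 593750000, nat_lit 1127840000], [], [nat_lit 3804443710, nat_lit 3844177990,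 nat_lit 3994886974, nat_lit 4073862290, nat_lit 3327829400, nat_lit 3339989875, nat_lit 3400719921, nat_lit 3422012502], nat_lit 1271250, nat_lit 1271250, nat_lit 1271250, nat_lit 1271250, nat_lit 0, nat_lit 2118750, [nat_lit 780000, nat_lit 1435000, nat_lit 1271250], [nat_lit 23, nat_lit 40, nat_lit 40, nat_lit 80, nat_lit 12, nat_lit 538, nat_lit 300, nat_lit 13]⟩,
 ⟨nat_lit 2236, nat_lit 3163, ⟨.ofNat (nat_lit 649422), .ofNat (nat_lit 881194), .ofNat (nat_lit 693606), .ofNat (nat_lit 925504), .ofNat (nat_lit 647962), .ofNat (nat_lit 864770), .ofNat (nat_lit 693384), .ofNat (nat_lit 910319)⟩, ⟨.ofNat (nat_lit 0), .ofNat (nat_lit 322759), .ofNat (nat_lit 0), .ofNat (nat_lit 367069), .ofNat (nat_lit 0), .ofNat (nat_lit 317804), .ofNat (nat_lit 0), .ofNat (nat_lit 363353)⟩⟩, [⟨nat_lit 13, nat_lit 75, nat_lit 35, nat_lit 100, nat_lit 193886610⟩, ⟨nat_lit 10, nat_lit 100, nat_lit 28, nat_lit 89, nat_lit 25161720⟩]⟩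
noncomputable def p120_l120 : Lf2 := ⟨nat_lit 0, nat_lit 20, [nat_lit 5, nat_lit 5, nat_lit 5, nat_lit 20], true, nat_lit 0, nat_lit 164, nat_lit 0, nat_lit 300, ⟨nat_lit 0, nat_lit 1000, nat_lit 0, nat_lit 7, nat_lit 306, nat_lit 1000, nat_lit 57, nat_lit 0, nat_lit 0, nat_lit 0, nat_lit 0, nat_lit 0, nat_lit 0, nat_lit 0, nat_lit 0, nat_lit 5000000, true, true⟩,
 nat_lit 0, nat_lit 0, nat_lit 0, nat_lit 0, nat_lit 2984, nat_lit 0, nat_lit 0, nat_lit 0, nat_lit 0, nat_lit 0, nat_lit 0, nat_lit 0, nat_lit 0, nat_lit 0, nat_lit 0, nat_lit 250000, nat_lit 0, nat_lit 0, [(nat_lit 28, [(nat_lit 0, nat_lit 1000)])],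
 ⟨p120_k5, nat_lit 0, nat_lit 0, nat_lit 194, nat_lit 0, nat_lit 0, [nat_lit 781600001, nat_lit 1083600000, nat_lit 1719333334], [], [nat_lit 25794036391, nat_lit 27069868246, nat_lit 31559125926, nat_lit 32702367056, nat_lit 25757238216, nat_lit 26658048495, nat_lit 30099387997, nat_lit 30941509106], nat_lit 0, nat_lit 0, nat_lit 0, nat_lit 0, nat_lit 0, nat_lit 0, [], [nat_lit 20, nat_lit 40, nat_lit 40, nat_lit 80, nat_lit 16, nat_lit 260, nat_lit 50, nat_lit 9]⟩, C1.Rw.none,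
 ⟨nat_lit 0, nat_lit 2237, ⟨.ofNat (nat_lit 646249), .ofNat (nat_lit 847661), .ofNat (nat_lit 689944), .ofNat (nat_lit 893212), .ofNat (nat_lit 648136), .ofNat (nat_lit 824994), .ofNat (nat_lit 696283), .ofNat (nat_lit 874997)⟩, ⟨.ofNat (nat_lit 0), .ofNat (nat_lit 266484), .ofNat (nat_lit 0), .ofNat (nat_lit 312035), .ofNat (nat_lit 0), .ofNat (nat_lit 254993), .ofNat (nat_lit 0), .ofNat (nat_lit 304995)⟩⟩, [⟨nat_lit 13, nat_lit 54, nat_lit 57, nat_lit 100, nat_lit 381994106⟩]⟩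
noncomputable def b_V_900_700_10_22 : St := ⟨true, nat_lit 0, nat_lit 2, nat_lit 2, nat_lit 80, nat_lit 360, nat_lit 400, nat_lit 280, nat_lit 320, nat_lit 152, nat_lit 392, nat_lit 40, nat_lit 80, nat_lit 0, nat_lit 200, nat_lit 0, nat_lit 300, nat_lit 80, nat_lit 120, nat_lit 0, nat_lit 0, nat_lit 0, nat_lit 0⟩
theorem d_V_900_700_10_22 (h : EB TB.env) : Dead b_V_900_700_10_22 := chkB_sound0 h (T :=
(.st (nat_lit 1)
(.leaf p120_l117)
(.spl (nat_lit 2) (nat_lit 240)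
(.leaf p120_l118)
(.spl (nat_lit 0) (nat_lit 380)
(.leaf p120_l119)
(.trX (nat_lit 13) (nat_lit 54) (nat_lit 57) (nat_lit 100) (nat_lit 380) (.trX (nat_lit 16) (nat_lit 44) (nat_lit 100) (nat_lit 82) (nat_lit 164) (.leaf p120_l120))))))) (by decide +kernel)
noncomputable def p120_l121 : Lf2 := ⟨nat_lit 0, nat_lit 20, [nat_lit 5, nat_lit 5, nat_lit 5, nat_lit 20], false, nat_lit 0, nat_lit 200, nat_lit 0, nat_lit 300, ⟨nat_lit 1000, nat_lit 0, nat_lit 0, nat_lit 0, nat_lit 0, nat_lit 0, nat_lit 0, nat_lit 0, nat_lit 0, nat_lit 0, nat_lit 0, nat_lit 0, nat_lit 0, nat_lit 0, nat_lit 0, nat_lit 0, false, false⟩,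
 nat_lit 0, nat_lit 6647, nat_lit 0, nat_lit 0, nat_lit 5789, nat_lit 13808, nat_lit 295, nat_lit 0, nat_lit 0, nat_lit 292, nat_lit 0, nat_lit 0, nat_lit 0, nat_lit 0, nat_lit 0, nat_lit 0, nat_lit 0, nat_lit 0, [],
 ⟨p120_k3, nat_lit 0, nat_lit 0, nat_lit 445, nat_lit 0, nat_lit 798466, [nat_lit 938000000, nat_lit 3282000000, nat_lit 6250000000], [], [nat_lit 28058793303, nat_lit 29284821572, nat_lit 29485215490, nat_lit 30944740450, nat_lit 26528755875, nat_lit 27495180000, nat_lit 27585306929, nat_lit 28423618104], nat_lit 1271250, nat_lit 1271250, nat_lit 1033601, nat_lit 1780500, nat_lit 0, nat_lit 1412500, [nat_lit 230000, nat_lit 780000, nat_lit 1435000], [nat_lit 20, nat_lit 40, nat_lit 40, nat_lit 80, nat_lit 16, nat_lit 345, nat_lit 125, nat_lit 13]⟩, ⟨p120_k7, nat_lit 0, nat_lit 0, nat_lit 213, nat_lit 0, nat_lit 0, [nat_lit 3282000000, nat_lit 6250000000, nat_lit 11872000000], [], [nat_lit 34190655062,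 nat_lit 39066485283, nat_lit 36556490524, nat_lit 40484202204, nat_lit 27366866776, nat_lit 30035051257, nat_lit 27470060428, nat_lit 29642260000], nat_lit 0, nat_lit 0, nat_lit 0, nat_lit 0, nat_lit 0, nat_lit 0, [], [nat_lit 23, nat_lit 40, nat_lit 40, nat_lit 80, nat_lit 12, nat_lit 456, nat_lit 225, nat_lit 12]⟩,
 zbF0, [⟨nat_lit 0, nat_lit 87, nat_lit 53, nat_lit 100, nat_lit 908751960⟩, ⟨nat_lit 4, nat_lit 100, nat_lit 54, nat_lit 73, nat_lit 275879240⟩]⟩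
noncomputable def p120_l122 : Lf2 := ⟨nat_lit 0, nat_lit 20, [nat_lit 5, nat_lit 5, nat_lit 5, nat_lit 20], false, nat_lit 0, nat_lit 164, nat_lit 0, nat_lit 300, ⟨nat_lit 1000, nat_lit 0, nat_lit 0, nat_lit 0, nat_lit 0, nat_lit 0, nat_lit 0, nat_lit 0, nat_lit 0, nat_lit 0, nat_lit 0, nat_lit 0, nat_lit 0, nat_lit 0, nat_lit 0, nat_lit 0, false, false⟩,
 nat_lit 0, nat_lit 4160, nat_lit 0, nat_lit 0, nat_lit 3887, nat_lit 14054, nat_lit 532, nat_lit 0, nat_lit 0, nat_lit 295, nat_lit 0, nat_lit 0, nat_lit 0, nat_lit 0, nat_lit 0, nat_lit 0, nat_lit 0, nat_lit 0, [],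
 ⟨p120_k5, nat_lit 0, nat_lit 0, nat_lit 472, nat_lit 0, nat_lit 870873, [nat_lit 938000000, nat_lit 3282000000, nat_lit 6250000000], [], [nat_lit 25097064214, nat_lit 27140117434, nat_lit 26689871350, nat_lit 28547543504, nat_lit 23244536968, nat_lit 24289295051, nat_lit 24225683156, nat_lit 25617716664], nat_lit 1271250, nat_lit 1271250, nat_lit 1271250, nat_lit 1271250, nat_lit 0, nat_lit 1133651, [nat_lit 230000, nat_lit 780000, nat_lit 1435000], [nat_lit 20, nat_lit 40, nat_lit 40, nat_lit 80, nat_lit 16, nat_lit 345, nat_lit 125, nat_lit 12]⟩, ⟨p120_k7, nat_lit 0, nat_lit 0, nat_lit 207, nat_lit 0, nat_lit 0, [nat_lit 3282000000, nat_lit 6250000000, nat_lit 11872000000], [], [nat_lit 34686350376, nat_lit 39212947829, nat_lit 36625461337, nat_lit 40601625177, nat_lit 26762262795, nat_lit 29211463959, nat_lit 27267770239, nat_lit 29767504750], nat_lit 0, nat_lit 0, nat_lit 0, nat_lit 0, nat_lit 0, nat_lit 0,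 [], [nat_lit 23, nat_lit 40, nat_lit 40, nat_lit 80, nat_lit 12, nat_lit 456, nat_lit 225, nat_lit 11]⟩,
 zbF0, [⟨nat_lit 0, nat_lit 92, nat_lit 44, nat_lit 100, nat_lit 684580962⟩, ⟨nat_lit 16, nat_lit 44, nat_lit 100, nat_lit 82, nat_lit 200556509⟩]⟩
noncomputable def p120_l123 : Lf2 := ⟨nat_lit 0, nat_lit 20, [nat_lit 5, nat_lit 5, nat_lit 5, nat_lit 20], false, nat_lit 0, nat_lit 200, nat_lit 0, nat_lit 300, ⟨nat_lit 1000, nat_lit 0, nat_lit 0, nat_lit 0, nat_lit 0, nat_lit 0, nat_lit 0, nat_lit 0, nat_lit 0, nat_lit 0, nat_lit 0, nat_lit 0, nat_lit 0, nat_lit 0, nat_lit 0, nat_lit 0, false, false⟩,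
 nat_lit 0, nat_lit 5488, nat_lit 0, nat_lit 0, nat_lit 4779, nat_lit 7677, nat_lit 414, nat_lit 0, nat_lit 0, nat_lit 660, nat_lit 0, nat_lit 0, nat_lit 0, nat_lit 0, nat_lit 0, nat_lit 0, nat_lit 0, nat_lit 0, [],
 ⟨p120_k3, nat_lit 0, nat_lit 0, nat_lit 442, nat_lit 0, nat_lit 798466, [nat_lit 938000000, nat_lit 3282000000, nat_lit 6250000000], [], [nat_lit 32426200832, nat_lit 33289937614, nat_lit 37055741814, nat_lit 37835802827, nat_lit 31405642326, nat_lit 32097670640, nat_lit 35424404464, nat_lit 36054785141], nat_lit 1271250, nat_lit 1271250, nat_lit 1271250, nat_lit 1271250, nat_lit 0, nat_lit 1412500, [nat_lit 230000, nat_lit 780000, nat_lit 1435000], [nat_lit 20, nat_lit 40, nat_lit 40, nat_lit 80, nat_lit 16, nat_lit 260, nat_lit 50, nat_lit 9]⟩, ⟨p120_k7, nat_lit 0, nat_lit 0, nat_lit 239, nat_lit 0, nat_lit 0, [nat_lit 3282000000, nat_lit 6250000000, nat_lit 11872000000], [], [nat_lit 31234496056,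 nat_lit 33348823676, nat_lit 40260868440, nat_lit 41831467710, nat_lit 28644894314, nat_lit 29873355787, nat_lit 34077776297, nat_lit 35604647427], nat_lit 0, nat_lit 0, nat_lit 0, nat_lit 0, nat_lit 0, nat_lit 0, [], [nat_lit 23, nat_lit 40, nat_lit 40, nat_lit 80, nat_lit 12, nat_lit 538, nat_lit 300, nat_lit 13]⟩,
 zbF0, [⟨nat_lit 4, nat_lit 100, nat_lit 54, nat_lit 73, nat_lit 320710591⟩, ⟨nat_lit 7, nat_lit 100, nat_lit 90, nat_lit 74, nat_lit 158131190⟩]⟩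
noncomputable def p120_l124 : Lf2 := ⟨nat_lit 0, nat_lit 20, [nat_lit 5, nat_lit 5, nat_lit 5, nat_lit 20], false, nat_lit 0, nat_lit 164, nat_lit 0, nat_lit 300, ⟨nat_lit 1000, nat_lit 0, nat_lit 0, nat_lit 0, nat_lit 0, nat_lit 0, nat_lit 0, nat_lit 0, nat_lit 0, nat_lit 0, nat_lit 0, nat_lit 0, nat_lit 0, nat_lit 0, nat_lit 0, nat_lit 0, false, false⟩,
 nat_lit 0, nat_lit 3492, nat_lit 0, nat_lit 0, nat_lit 3263, nat_lit 10048, nat_lit 536, nat_lit 0, nat_lit 0, nat_lit 344, nat_lit 0, nat_lit 0, nat_lit 0, nat_lit 0, nat_lit 0, nat_lit 0, nat_lit 0, nat_lit 0, [],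
 ⟨p120_k5, nat_lit 0, nat_lit 0, nat_lit 467, nat_lit 0, nat_lit 870873, [nat_lit 938000000, nat_lit 3282000000, nat_lit 6250000000], [], [nat_lit 27534670500, nat_lit 28437562620, nat_lit 32398313629, nat_lit 33588103892, nat_lit 27889506541, nat_lit 28783498562, nat_lit 32193343164, nat_lit 32941092327], nat_lit 1271250, nat_lit 1271250, nat_lit 1271250, nat_lit 1271250, nat_lit 0, nat_lit 1133651, [nat_lit 230000, nat_lit 780000, nat_lit 1435000], [nat_lit 20, nat_lit 40, nat_lit 40, nat_lit 80, nat_lit 16, nat_lit 260, nat_lit 50, nat_lit 9]⟩, ⟨p120_k7, nat_lit 0, nat_lit 0, nat_lit 236, nat_lit 0, nat_lit 0, [nat_lit 3282000000, nat_lit 6250000000, nat_lit 11872000000], [], [nat_lit 34563824744, nat_lit 37750966824, nat_lit 44751334600, nat_lit 46603981976, nat_lit 29623497768, nat_lit 31421497616, nat_lit 35418333240, nat_lit 37236031000], nat_lit 0, nat_lit 0, nat_lit 0, nat_lit 0, nat_lit 0, nat_lit 0, [],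 [nat_lit 23, nat_lit 40, nat_lit 40, nat_lit 80, nat_lit 12, nat_lit 483, nat_lit 250, nat_lit 12]⟩,
 zbF0, [⟨nat_lit 4, nat_lit 100, nat_lit 35, nat_lit 80, nat_lit 555673600⟩, ⟨nat_lit 7, nat_lit 100, nat_lit 90, nat_lit 74, nat_lit 36836345⟩]⟩
noncomputable def p120_l125 : Lf2 := ⟨nat_lit 0, nat_lit 20, [nat_lit 5, nat_lit 5, nat_lit 5, nat_lit 20], false, nat_lit 0, nat_lit 200, nat_lit 0, nat_lit 160, ⟨nat_lit 698, nat_lit 0, nat_lit 302, nat_lit 7, nat_lit 242, nat_lit 302, nat_lit 67, nat_lit 302, nat_lit 41667, nat_lit 265, nat_lit 118222, nat_lit 200, nat_lit 49023188, nat_lit 0, nat_lit 0, nat_lit 2907855, false, false⟩,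
 nat_lit 8151, nat_lit 0, nat_lit 0, nat_lit 0, nat_lit 4512, nat_lit 5186, nat_lit 0, nat_lit 0, nat_lit 0, nat_lit 547, nat_lit 0, nat_lit 0, nat_lit 0, nat_lit 0, nat_lit 0, nat_lit 210800, nat_lit 0, nat_lit 0, [(nat_lit 25, [(nat_lit 5, nat_lit 152), (nat_lit 6, nat_lit 150)]), (nat_lit 28, [(nat_lit 5, nat_lit 152), (nat_lit 6, nat_lit 150)])],
 ⟨p120_k3, nat_lit 0, nat_lit 0, nat_lit 360, nat_lit 0, nat_lit 573986, [nat_lit 967036801, nat_lit 1868606667, nat_lit 2716215200], [], [nat_lit 25252249773, nat_lit 28256983885, nat_lit 27235807584, nat_lit 30112413504, nat_lit 24690264201, nat_lit 26732122980, nat_lit 25903840758, nat_lit 27975695376], nat_lit 1271250, nat_lit 1271250, nat_lit 1033601, nat_lit 1780500, nat_lit 0, nat_lit 1412500, [nat_lit 230000, nat_lit 780000, nat_lit 1435000], [nat_lit 20, nat_lit 40, nat_lit 40, nat_lit 80, nat_lit 16, nat_lit 345, nat_lit 125, nat_lit 13]⟩, ⟨p120_k7, nat_lit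 0, nat_lit 0, nat_lit 672, nat_lit 0, nat_lit 853753, [nat_lit 2290836000, nat_lit 4362500000, nat_lit 8286656000], [], [nat_lit 24128722188, nat_lit 24221161780, nat_lit 23569324346, nat_lit 24224671981, nat_lit 20189612209, nat_lit 20812826705, nat_lit 20300384477, nat_lit 20989677269], nat_lit 1271250, nat_lit 1271250, nat_lit 1033601, nat_lit 1780500, nat_lit 0, nat_lit 1100001, [nat_lit 780000, nat_lit 1435000, nat_lit 1271250], [nat_lit 23, nat_lit 40, nat_lit 40, nat_lit 80, nat_lit 12, nat_lit 428, nat_lit 200, nat_lit 11]⟩,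
 ⟨nat_lit 0, nat_lit 3163, ⟨.ofNat (nat_lit 507176), .ofNat (nat_lit 646918), .ofNat (nat_lit 548877), .ofNat (nat_lit 688618), .ofNat (nat_lit 531701), .ofNat (nat_lit 647345), .ofNat (nat_lit 579091), .ofNat (nat_lit 694736)⟩, ⟨.ofNat (nat_lit 0), .ofNat (nat_lit 322753), .ofNat (nat_lit 0), .ofNat (nat_lit 367065), .ofNat (nat_lit 0), .ofNat (nat_lit 299993), .ofNat (nat_lit 0), .ofNat (nat_lit 349995)⟩⟩, [⟨nat_lit 0, nat_lit 87, nat_lit 44, nat_lit 100, nat_lit 697848728⟩, ⟨nat_lit 4, nat_lit 100, nat_lit 46, nat_lit 75, nat_lit 174737698⟩]⟩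
noncomputable def p120_l126 : Lf2 := ⟨nat_lit 0, nat_lit 20, [nat_lit 5, nat_lit 5, nat_lit 5, nat_lit 20], false, nat_lit 0, nat_lit 200, nat_lit 160, nat_lit 300, ⟨nat_lit 558, nat_lit 0, nat_lit 442, nat_lit 7, nat_lit 242, nat_lit 442, nat_lit 69, nat_lit 442, nat_lit 43350, nat_lit 266, nat_lit 115962, nat_lit 200, nat_lit 48999795, nat_lit 0, nat_lit 0, nat_lit 2909605, false, false⟩,
 nat_lit 7066, nat_lit 0, nat_lit 0, nat_lit 0, nat_lit 3938, nat_lit 4496, nat_lit 39, nat_lit 0, nat_lit 0, nat_lit 466, nat_lit 0, nat_lit 0, nat_lit 0, nat_lit 0, nat_lit 0, nat_lit 258400, nat_lit 0, nat_lit 0, [(nat_lit 25, [(nat_lit 5, nat_lit 306), (nat_lit 6, nat_lit 136)])],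
 ⟨p120_k3, nat_lit 0, nat_lit 0, nat_lit 324, nat_lit 0, nat_lit 478680, [nat_lit 928738401, nat_lit 1328337334, nat_lit 1479813600], [], [nat_lit 22529528258, nat_lit 24410176528, nat_lit 24932684904, nat_lit 26803960900, nat_lit 22448792208, nat_lit 23332199956, nat_lit 23818501874, nat_lit 24919554960], nat_lit 1271250, nat_lit 1271250, nat_lit 1033601, nat_lit 1780500, nat_lit 0, nat_lit 1412500, [nat_lit 230000, nat_lit 780000, nat_lit 1435000], [nat_lit 20, nat_lit 40, nat_lit 40, nat_lit 80, nat_lit 16, nat_lit 345, nat_lit 125, nat_lit 13]⟩, ⟨p120_k7, nat_lit 0, nat_lit 0, nat_lit 488, nat_lit 0, nat_lit 711993, [nat_lit 1831356000, nat_lit 3487500000, nat_lit 6624576000], [], [nat_lit 13784309499, nat_lit 14438187646, nat_lit 13853762636, nat_lit 14595728390, nat_lit 14784252166, nat_lit 15424068676, nat_lit 14862605658, nat_lit 15603278682], nat_lit 1271250, nat_lit 1271250, nat_lit 1033601, nat_lit 1780500,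 nat_lit 1271250, nat_lit 1271250, [nat_lit 780000, nat_lit 1435000, nat_lit 1271250], [nat_lit 23, nat_lit 40, nat_lit 40, nat_lit 80, nat_lit 12, nat_lit 456, nat_lit 225, nat_lit 11]⟩,
 ⟨nat_lit 2236, nat_lit 3163, ⟨.ofNat (nat_lit 515097), .ofNat (nat_lit 649422), .ofNat (nat_lit 559279), .ofNat (nat_lit 693606), .ofNat (nat_lit 522299), .ofNat (nat_lit 647962), .ofNat (nat_lit 567721), .ofNat (nat_lit 693384)⟩, ⟨.ofNat (nat_lit 0), .ofNat (nat_lit 322759), .ofNat (nat_lit 0), .ofNat (nat_lit 367069), .ofNat (nat_lit 0), .ofNat (nat_lit 317804), .ofNat (nat_lit 0), .ofNat (nat_lit 363353)⟩⟩, [⟨nat_lit 0, nat_lit 82, nat_lit 44, nat_lit 100, nat_lit 487842617⟩, ⟨nat_lit 4, nat_lit 100, nat_lit 54, nat_lit 73, nat_lit 81409632⟩, ⟨nat_lit 7, nat_lit 100, nat_lit 90, nat_lit 74, nat_lit 237916737⟩]⟩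
noncomputable def p120_l127 : Lf2 := ⟨nat_lit 0, nat_lit 20, [nat_lit 5, nat_lit 5, nat_lit 5, nat_lit 20], false, nat_lit 0, nat_lit 164, nat_lit 160, nat_lit 300, ⟨nat_lit 496, nat_lit 417, nat_lit 87, nat_lit 7, nat_lit 255, nat_lit 504, nat_lit 57, nat_lit 87, nat_lit 30817, nat_lit 258, nat_lit 121316, nat_lit 200, nat_lit 47663219, nat_lit 19336781, nat_lit 0, nat_lit 3004505, true, false⟩,
 nat_lit 6286, nat_lit 0, nat_lit 0, nat_lit 0, nat_lit 3624, nat_lit 4000, nat_lit 81, nat_lit 0, nat_lit 0, nat_lit 414, nat_lit 0, nat_lit 0, nat_lit 0, nat_lit 0, nat_lit 0, nat_lit 201600, nat_lit 0, nat_lit 0, [(nat_lit 28, [(nat_lit 1, nat_lit 417), (nat_lit 5, nat_lit 87)])],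
 ⟨p120_k5, nat_lit 0, nat_lit 0, nat_lit 340, nat_lit 0, nat_lit 526718, [nat_lit 807790400, nat_lit 1609288800, nat_lit 2840552800], [], [nat_lit 25064487220, nat_lit 26636429386, nat_lit 26444275597, nat_lit 27889046208, nat_lit 23918901228, nat_lit 25016174042, nat_lit 24913523380, nat_lit 26141128738], nat_lit 1271250, nat_lit 1271250, nat_lit 1271250, nat_lit 1271250, nat_lit 0, nat_lit 1133651, [nat_lit 230000, nat_lit 780000, nat_lit 1435000], [nat_lit 20, nat_lit 40, nat_lit 40, nat_lit 80, nat_lit 16, nat_lit 345, nat_lit 125, nat_lit 12]⟩, ⟨p120_k7, nat_lit 0, nat_lit 0, nat_lit 528, nat_lit 0, nat_lit 853753, [nat_lit 1627872000, nat_lit 3100000000, nat_lit 5888512000], [], [nat_lit 12177933240, nat_lit 12720497430, nat_lit 12308429252, nat_lit 12966056034, nat_lit 13062099852, nat_lit 13621248400, nat_lit 13200565520, nat_lit 13865945714], nat_lit 1271250, nat_lit 1271250, nat_lit 1271250, nat_lit 1271250,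 nat_lit 1100001, nat_lit 2298750, [nat_lit 780000, nat_lit 1435000, nat_lit 1271250], [nat_lit 23, nat_lit 40, nat_lit 40, nat_lit 80, nat_lit 12, nat_lit 456, nat_lit 225, nat_lit 11]⟩,
 ⟨nat_lit 0, nat_lit 2237, ⟨.ofNat (nat_lit 575619), .ofNat (nat_lit 646249), .ofNat (nat_lit 619314), .ofNat (nat_lit 689944), .ofNat (nat_lit 585925), .ofNat (nat_lit 648136), .ofNat (nat_lit 634072), .ofNat (nat_lit 696283)⟩, ⟨.ofNat (nat_lit 0), .ofNat (nat_lit 266484), .ofNat (nat_lit 0), .ofNat (nat_lit 312035), .ofNat (nat_lit 0), .ofNat (nat_lit 254993), .ofNat (nat_lit 0), .ofNat (nat_lit 304995)⟩⟩, [⟨nat_lit 0, nat_lit 88, nat_lit 32, nat_lit 100, nat_lit 625096901⟩, ⟨nat_lit 4, nat_lit 100, nat_lit 35, nat_lit 80, nat_lit 160717123⟩, ⟨nat_lit 7, nat_lit 100, nat_lit 90, nat_lit 74, nat_lit 211665164⟩]⟩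
noncomputable def p120_l128 : Lf2 := ⟨nat_lit 0, nat_lit 20, [nat_lit 5, nat_lit 5, nat_lit 5, nat_lit 20], false, nat_lit 0, nat_lit 200, nat_lit 0, nat_lit 160, ⟨nat_lit 1000, nat_lit 0, nat_lit 0, nat_lit 0, nat_lit 0, nat_lit 0, nat_lit 0, nat_lit 0, nat_lit 0, nat_lit 0, nat_lit 0, nat_lit 0, nat_lit 0, nat_lit 0, nat_lit 0, nat_lit 0, false, false⟩,
 nat_lit 11025, nat_lit 0, nat_lit 0, nat_lit 0, nat_lit 6106, nat_lit 7015, nat_lit 257, nat_lit 0, nat_lit 0, nat_lit 735, nat_lit 0, nat_lit 0, nat_lit 0, nat_lit 0, nat_lit 0, nat_lit 0, nat_lit 0, nat_lit 0, [],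
 ⟨p120_k3, nat_lit 0, nat_lit 0, nat_lit 334, nat_lit 0, nat_lit 478680, [nat_lit 938000000, nat_lit 3282000000, nat_lit 6250000000], [], [nat_lit 29204312648, nat_lit 31653885300, nat_lit 40396047488, nat_lit 41960410062, nat_lit 26288131462, nat_lit 27251328334, nat_lit 33697889089, nat_lit 34974565547], nat_lit 1271250, nat_lit 1271250, nat_lit 1271250, nat_lit 1271250, nat_lit 0, nat_lit 1412500, [nat_lit 230000, nat_lit 780000, nat_lit 1435000], [nat_lit 20, nat_lit 40, nat_lit 40, nat_lit 80, nat_lit 16, nat_lit 260, nat_lit 50, nat_lit 9]⟩, ⟨p120_k7, nat_lit 0, nat_lit 0, nat_lit 556, nat_lit 0, nat_lit 711993, [nat_lit 3282000000, nat_lit 6250000000, nat_lit 11872000000], [], [nat_lit 35946281290, nat_lit 36795617970, nat_lit 39541098033, nat_lit 40349970006, nat_lit 31449445870, nat_lit 32137282525, nat_lit 34844203048, nat_lit 35667855340], nat_lit 1271250, nat_lit 1271250, nat_lit 1271250, nat_lit 1271250,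 nat_lit 0, nat_lit 1100001, [nat_lit 780000, nat_lit 1435000, nat_lit 1271250], [nat_lit 23, nat_lit 40, nat_lit 40, nat_lit 80, nat_lit 12, nat_lit 456, nat_lit 225, nat_lit 11]⟩,
 zbF0, []⟩
noncomputable def p120_l129 : Lf2 := ⟨nat_lit 0, nat_lit 20, [nat_lit 5, nat_lit 5, nat_lit 5, nat_lit 20], false, nat_lit 0, nat_lit 164, nat_lit 0, nat_lit 160, ⟨nat_lit 1000, nat_lit 0, nat_lit 0, nat_lit 0, nat_lit 0, nat_lit 0, nat_lit 0, nat_lit 0, nat_lit 0, nat_lit 0, nat_lit 0, nat_lit 0, nat_lit 0, nat_lit 0, nat_lit 0, nat_lit 0, false, false⟩,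
 nat_lit 11156, nat_lit 0, nat_lit 0, nat_lit 0, nat_lit 3473, nat_lit 7099, nat_lit 431, nat_lit 0, nat_lit 0, nat_lit 739, nat_lit 0, nat_lit 0, nat_lit 0, nat_lit 0, nat_lit 0, nat_lit 0, nat_lit 0, nat_lit 0, [],
 ⟨p120_k5, nat_lit 0, nat_lit 0, nat_lit 348, nat_lit 0, nat_lit 526718, [nat_lit 938000000, nat_lit 3282000000, nat_lit 6250000000], [], [nat_lit 26532794991, nat_lit 27518663909, nat_lit 33032237059, nat_lit 34254787532, nat_lit 26483422675, nat_lit 27322759678, nat_lit 30554045304, nat_lit 31235412472], nat_lit 1271250, nat_lit 1271250, nat_lit 1271250, nat_lit 1271250, nat_lit 0, nat_lit 1133651, [nat_lit 230000, nat_lit 780000, nat_lit 1435000], [nat_lit 20, nat_lit 40, nat_lit 40, nat_lit 80, nat_lit 16, nat_lit 260, nat_lit 50, nat_lit 9]⟩, ⟨p120_k7, nat_lit 0, nat_lit 0, nat_lit 647, nat_lit 0, nat_lit 853753, [nat_lit 3282000000, nat_lit 6250000000, nat_lit 11872000000], [], [nat_lit 35617265314,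 nat_lit 36467098602, nat_lit 38826268221, nat_lit 39614362763, nat_lit 31040241142, nat_lit 31775037865, nat_lit 34057452118, nat_lit 34924439230], nat_lit 1271250, nat_lit 1271250, nat_lit 1271250, nat_lit 1271250, nat_lit 0, nat_lit 1100001, [nat_lit 780000, nat_lit 1435000, nat_lit 1271250], [nat_lit 23, nat_lit 40, nat_lit 40, nat_lit 80, nat_lit 12, nat_lit 456, nat_lit 225, nat_lit 11]⟩,
 zbF0, [⟨nat_lit 0, nat_lit 88, nat_lit 32, nat_lit 100, nat_lit 125875138⟩, ⟨nat_lit 4, nat_lit 100, nat_lit 35, nat_lit 80, nat_lit 505333085⟩]⟩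
noncomputable def p120_l130 : Lf2 := ⟨nat_lit 0, nat_lit 20, [nat_lit 5, nat_lit 5, nat_lit 5, nat_lit 20], false, nat_lit 0, nat_lit 200, nat_lit 160, nat_lit 300, ⟨nat_lit 1000, nat_lit 0, nat_lit 0, nat_lit 0, nat_lit 0, nat_lit 0, nat_lit 0, nat_lit 0, nat_lit 0, nat_lit 0, nat_lit 0, nat_lit 0, nat_lit 0, nat_lit 0, nat_lit 0, nat_lit 0, false, false⟩,
 nat_lit 11144, nat_lit 0, nat_lit 0, nat_lit 0, nat_lit 6181, nat_lit 7091, nat_lit 241, nat_lit 0, nat_lit 0, nat_lit 751, nat_lit 0, nat_lit 0, nat_lit 0, nat_lit 0, nat_lit 0, nat_lit 0, nat_lit 0, nat_lit 0, [],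
 ⟨p120_k3, nat_lit 0, nat_lit 0, nat_lit 320, nat_lit 0, nat_lit 432485, [nat_lit 938000000, nat_lit 3282000000, nat_lit 6250000000], [], [nat_lit 29352085748, nat_lit 30586874899, nat_lit 40618471088, nat_lit 41406151210, nat_lit 26289969112, nat_lit 26774459248, nat_lit 33796149199, nat_lit 34438660916], nat_lit 1271250, nat_lit 1271250, nat_lit 1271250, nat_lit 1271250, nat_lit 0, nat_lit 1412500, [nat_lit 230000, nat_lit 780000, nat_lit 1435000], [nat_lit 20, nat_lit 40, nat_lit 40, nat_lit 80, nat_lit 16, nat_lit 260, nat_lit 50, nat_lit 9]⟩, ⟨p120_k7, nat_lit 0, nat_lit 0, nat_lit 398, nat_lit 0, nat_lit 643283, [nat_lit 3282000000, nat_lit 6250000000, nat_lit 11872000000], [], [nat_lit 29237541090, nat_lit 30166926418, nat_lit 33122369101, nat_lit 33895461054, nat_lit 30314353638, nat_lit 31223729247, nat_lit 34158227702, nat_lit 34945335428], nat_lit 1271250, nat_lit 1271250, nat_lit 1271250, nat_lit 1271250,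 nat_lit 1100001, nat_lit 2298750, [nat_lit 780000, nat_lit 1435000, nat_lit 1271250], [nat_lit 23, nat_lit 40, nat_lit 40, nat_lit 80, nat_lit 12, nat_lit 538, nat_lit 300, nat_lit 13]⟩,
 zbF0, [⟨nat_lit 19, nat_lit 90, nat_lit 100, nat_lit 74, nat_lit 386233786⟩]⟩
noncomputable def p120_l131 : Lf2 := ⟨nat_lit 0, nat_lit 20, [nat_lit 5, nat_lit 5, nat_lit 5, nat_lit 20], false, nat_lit 0, nat_lit 184, nat_lit 160, nat_lit 300, ⟨nat_lit 1000, nat_lit 0, nat_lit 0, nat_lit 0, nat_lit 0, nat_lit 0, nat_lit 0, nat_lit 0, nat_lit 0, nat_lit 0, nat_lit 0, nat_lit 0, nat_lit 0, nat_lit 0, nat_lit 0, nat_lit 0, false, false⟩,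
 nat_lit 9903, nat_lit 0, nat_lit 0, nat_lit 0, nat_lit 4734, nat_lit 6301, nat_lit 438, nat_lit 0, nat_lit 0, nat_lit 798, nat_lit 0, nat_lit 0, nat_lit 0, nat_lit 0, nat_lit 0, nat_lit 0, nat_lit 0, nat_lit 0, [],
 ⟨p120_k9, nat_lit 0, nat_lit 0, nat_lit 328, nat_lit 0, nat_lit 458299, [nat_lit 938000000, nat_lit 3282000000, nat_lit 6250000000], [], [nat_lit 27542851386, nat_lit 28584652700, nat_lit 36715565950, nat_lit 37406503416, nat_lit 24691879543, nat_lit 25181242160, nat_lit 32047838626, nat_lit 32631785812], nat_lit 1271250, nat_lit 1271250, nat_lit 1271250, nat_lit 1271250, nat_lit 0, nat_lit 1299500, [nat_lit 230000, nat_lit 780000, nat_lit 1435000], [nat_lit 20, nat_lit 40, nat_lit 40, nat_lit 80, nat_lit 16, nat_lit 260, nat_lit 50, nat_lit 9]⟩, ⟨p120_k7, nat_lit 0, nat_lit 0, nat_lit 420, nat_lit 0, nat_lit 711993, [nat_lit 3282000000, nat_lit 6250000000, nat_lit 11872000000], [], [nat_lit 30622092740,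 nat_lit 31539937748, nat_lit 34674659645, nat_lit 35764354357, nat_lit 32238221293, nat_lit 33137564692, nat_lit 36228058820, nat_lit 36998174114], nat_lit 1271250, nat_lit 1271250, nat_lit 1271250, nat_lit 1271250, nat_lit 1100001, nat_lit 2298750, [nat_lit 780000, nat_lit 1435000, nat_lit 1271250], [nat_lit 23, nat_lit 40, nat_lit 40, nat_lit 80, nat_lit 12, nat_lit 538, nat_lit 300, nat_lit 13]⟩,
 zbF0, [⟨nat_lit 4, nat_lit 100, nat_lit 50, nat_lit 74, nat_lit 60979319⟩, ⟨nat_lit 7, nat_lit 100, nat_lit 90, nat_lit 74, nat_lit 415680256⟩]⟩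
noncomputable def p120_l132 : Lf2 := ⟨nat_lit 0, nat_lit 20, [nat_lit 5, nat_lit 5, nat_lit 5, nat_lit 20], false, nat_lit 0, nat_lit 164, nat_lit 160, nat_lit 300, ⟨nat_lit 1000, nat_lit 0, nat_lit 0, nat_lit 0, nat_lit 0, nat_lit 0, nat_lit 0, nat_lit 0, nat_lit 0, nat_lit 0, nat_lit 0, nat_lit 0, nat_lit 0, nat_lit 0, nat_lit 0, nat_lit 0, false, false⟩,
 nat_lit 10392, nat_lit 0, nat_lit 0, nat_lit 0, nat_lit 3473, nat_lit 6612, nat_lit 431, nat_lit 0, nat_lit 0, nat_lit 828, nat_lit 0, nat_lit 0, nat_lit 0, nat_lit 0, nat_lit 0, nat_lit 0, nat_lit 0, nat_lit 0, [],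
 ⟨p120_k5, nat_lit 0, nat_lit 0, nat_lit 348, nat_lit 0, nat_lit 526718, [nat_lit 938000000, nat_lit 3282000000, nat_lit 6250000000], [], [nat_lit 26532794991, nat_lit 27518663909, nat_lit 33032237059, nat_lit 34254787532, nat_lit 26483422675, nat_lit 27322759678, nat_lit 30554045304, nat_lit 31235412472], nat_lit 1271250, nat_lit 1271250, nat_lit 1271250, nat_lit 1271250, nat_lit 0, nat_lit 1133651, [nat_lit 230000, nat_lit 780000, nat_lit 1435000], [nat_lit 20, nat_lit 40, nat_lit 40, nat_lit 80, nat_lit 16, nat_lit 260, nat_lit 50, nat_lit 9]⟩, ⟨p120_k7, nat_lit 0, nat_lit 0, nat_lit 517, nat_lit 0, nat_lit 853753, [nat_lit 3282000000, nat_lit 6250000000, nat_lit 11872000000], [], [nat_lit 29146695880, nat_lit 30313364276, nat_lit 33463466664, nat_lit 34598770360, nat_lit 31016942776, nat_lit 32209360072, nat_lit 35053348056, nat_lit 35849077372], nat_lit 1271250, nat_lit 1271250, nat_lit 1271250, nat_lit 1271250,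 nat_lit 1100001, nat_lit 2298750, [nat_lit 780000, nat_lit 1435000, nat_lit 1271250], [nat_lit 23, nat_lit 40, nat_lit 40, nat_lit 80, nat_lit 12, nat_lit 483, nat_lit 250, nat_lit 11]⟩,
 zbF0, [⟨nat_lit 16, nat_lit 35, nat_lit 100, nat_lit 80, nat_lit 505333085⟩, ⟨nat_lit 7, nat_lit 100, nat_lit 90, nat_lit 74, nat_lit 429987557⟩]⟩
noncomputable def p120_l133 : Lf2 := ⟨nat_lit 0, nat_lit 20, [nat_lit 5, nat_lit 5, nat_lit 5, nat_lit 20], false, nat_lit 0, nat_lit 200, nat_lit 0, nat_lit 300, ⟨nat_lit 645, nat_lit 355, nat_lit 0, nat_lit 7, nat_lit 242, nat_lit 355, nat_lit 67, nat_lit 0, nat_lit 0, nat_lit 0, nat_lit 0, nat_lit 0, nat_lit 0, nat_lit 0, nat_lit 0, nat_lit 5000000, false, false⟩,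
 nat_lit 0, nat_lit 5097, nat_lit 0, nat_lit 0, nat_lit 4439, nat_lit 8871, nat_lit 143, nat_lit 0, nat_lit 0, nat_lit 188, nat_lit 0, nat_lit 0, nat_lit 0, nat_lit 0, nat_lit 0, nat_lit 355000, nat_lit 0, nat_lit 0, [(nat_lit 25, [(nat_lit 2, nat_lit 355)]), (nat_lit 28, [(nat_lit 2, nat_lit 355)])],
 ⟨p120_k3, nat_lit 0, nat_lit 0, nat_lit 523, nat_lit 0, nat_lit 957443, [nat_lit 1126292001, nat_lit 1981658667, nat_lit 2647176000], [], [nat_lit 25475394231, nat_lit 27907888913, nat_lit 26654176882, nat_lit 29929636688, nat_lit 25108974037, nat_lit 26487424294, nat_lit 26035248093, nat_lit 27607785875], nat_lit 1271250, nat_lit 1271250, nat_lit 1033601, nat_lit 1780500, nat_lit 0, nat_lit 1412500, [nat_lit 230000, nat_lit 780000, nat_lit 1435000], [nat_lit 20, nat_lit 40, nat_lit 40, nat_lit 80, nat_lit 16, nat_lit 345, nat_lit 125, nat_lit 13]⟩, ⟨p120_k7, nat_lit 0, nat_lit 0, nat_lit 213, nat_lit 0, nat_lit 0,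 [nat_lit 2116890000, nat_lit 4031250000, nat_lit 7657440000], [], [nat_lit 22042469060, nat_lit 25178283041, nat_lit 23568227148, nat_lit 26094676068, nat_lit 17675068404, nat_lit 19391941051, nat_lit 17746250211, nat_lit 19101356865], nat_lit 0, nat_lit 0, nat_lit 0, nat_lit 0, nat_lit 0, nat_lit 0, [], [nat_lit 23, nat_lit 40, nat_lit 40, nat_lit 80, nat_lit 12, nat_lit 456, nat_lit 225, nat_lit 12]⟩,
 ⟨nat_lit 0, nat_lit 3163, ⟨.ofNat (nat_lit 507176), .ofNat (nat_lit 646918), .ofNat (nat_lit 548877), .ofNat (nat_lit 688618), .ofNat (nat_lit 531701), .ofNat (nat_lit 647345), .ofNat (nat_lit 579091), .ofNat (nat_lit 694736)⟩, ⟨.ofNat (nat_lit 0), .ofNat (nat_lit 322753), .ofNat (nat_lit 0), .ofNat (nat_lit 367065), .ofNat (nat_lit 0), .ofNat (nat_lit 299993), .ofNat (nat_lit 0), .ofNat (nat_lit 349995)⟩⟩, [⟨nat_lit 0, nat_lit 87, nat_lit 44, nat_lit 100, nat_lit 651131397⟩, ⟨nat_lit 4, nat_lit 100, nat_lit 46,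 nat_lit 75, nat_lit 310420052⟩]⟩
noncomputable def p120_l134 : Lf2 := ⟨nat_lit 0, nat_lit 20, [nat_lit 5, nat_lit 5, nat_lit 5, nat_lit 20], false, nat_lit 0, nat_lit 200, nat_lit 0, nat_lit 300, ⟨nat_lit 711, nat_lit 289, nat_lit 0, nat_lit 7, nat_lit 313, nat_lit 289, nat_lit 69, nat_lit 0, nat_lit 0, nat_lit 0, nat_lit 0, nat_lit 0, nat_lit 0, nat_lit 0, nat_lit 0, nat_lit 5000000, true, true⟩,
 nat_lit 0, nat_lit 4480, nat_lit 0, nat_lit 0, nat_lit 3901, nat_lit 5457, nat_lit 155, nat_lit 0, nat_lit 0, nat_lit 469, nat_lit 0, nat_lit 0, nat_lit 0, nat_lit 0, nat_lit 0, nat_lit 289000, nat_lit 0, nat_lit 0, [(nat_lit 25, [(nat_lit 2, nat_lit 289)])],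
 ⟨p120_k3, nat_lit 0, nat_lit 0, nat_lit 442, nat_lit 0, nat_lit 798466, [nat_lit 1091285600, nat_lit 2223412267, nat_lit 3316996800], [], [nat_lit 30297596490, nat_lit 31072159374, nat_lit 34437099907, nat_lit 35097824724, nat_lit 30092366112, nat_lit 30769045059, nat_lit 33653717413, nat_lit 34167261471], nat_lit 1271250, nat_lit 1271250, nat_lit 1271250, nat_lit 1271250, nat_lit 0, nat_lit 1412500, [nat_lit 230000, nat_lit 780000, nat_lit 1435000], [nat_lit 20, nat_lit 40, nat_lit 40, nat_lit 80, nat_lit 16, nat_lit 260, nat_lit 50, nat_lit 9]⟩, ⟨p120_k7, nat_lit 0, nat_lit 0, nat_lit 239, nat_lit 0, nat_lit 0, [nat_lit 2333502000, nat_lit 4443750000, nat_lit 8440992000], [], [nat_lit 22211318295, nat_lit 23714423307, nat_lit 28626519200, nat_lit 29741619620, nat_lit 20371564662, nat_lit 21244942917, nat_lit 24232368392, nat_lit 25313388803], nat_lit 0, nat_lit 0, nat_lit 0, nat_lit 0, nat_lit 0, nat_lit 0, [],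 [nat_lit 23, nat_lit 40, nat_lit 40, nat_lit 80, nat_lit 12, nat_lit 538, nat_lit 300, nat_lit 13]⟩,
 ⟨nat_lit 2236, nat_lit 3163, ⟨.ofNat (nat_lit 649422), .ofNat (nat_lit 881194), .ofNat (nat_lit 693606), .ofNat (nat_lit 925504), .ofNat (nat_lit 647962), .ofNat (nat_lit 864770), .ofNat (nat_lit 693384), .ofNat (nat_lit 910319)⟩, ⟨.ofNat (nat_lit 0), .ofNat (nat_lit 322759), .ofNat (nat_lit 0), .ofNat (nat_lit 367069), .ofNat (nat_lit 0), .ofNat (nat_lit 317804), .ofNat (nat_lit 0), .ofNat (nat_lit 363353)⟩⟩, [⟨nat_lit 4, nat_lit 100, nat_lit 54, nat_lit 73, nat_lit 308351031⟩, ⟨nat_lit 7, nat_lit 100, nat_lit 90, nat_lit 74, nat_lit 82014660⟩]⟩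
noncomputable def p120_l135 : Lf2 := ⟨nat_lit 0, nat_lit 20, [nat_lit 5, nat_lit 5, nat_lit 5, nat_lit 20], false, nat_lit 0, nat_lit 164, nat_lit 0, nat_lit 300, ⟨nat_lit 1000, nat_lit 0, nat_lit 0, nat_lit 0, nat_lit 0, nat_lit 0, nat_lit 0, nat_lit 0, nat_lit 0, nat_lit 0, nat_lit 0, nat_lit 0, nat_lit 0, nat_lit 0, nat_lit 0, nat_lit 0, false, false⟩,
 nat_lit 0, nat_lit 3492, nat_lit 0, nat_lit 0, nat_lit 3263, nat_lit 10048, nat_lit 536, nat_lit 0, nat_lit 0, nat_lit 344, nat_lit 0, nat_lit 0, nat_lit 0, nat_lit 0, nat_lit 0, nat_lit 0, nat_lit 0, nat_lit 0, [],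
 ⟨p120_k5, nat_lit 0, nat_lit 0, nat_lit 467, nat_lit 0, nat_lit 870873, [nat_lit 938000000, nat_lit 3282000000, nat_lit 6250000000], [], [nat_lit 27534670500, nat_lit 28437562620, nat_lit 32398313629, nat_lit 33588103892, nat_lit 27889506541, nat_lit 28783498562, nat_lit 32193343164, nat_lit 32941092327], nat_lit 1271250, nat_lit 1271250, nat_lit 1271250, nat_lit 1271250, nat_lit 0, nat_lit 1133651, [nat_lit 230000, nat_lit 780000, nat_lit 1435000], [nat_lit 20, nat_lit 40, nat_lit 40, nat_lit 80, nat_lit 16, nat_lit 260, nat_lit 50, nat_lit 9]⟩, ⟨p120_k7, nat_lit 0, nat_lit 0, nat_lit 236, nat_lit 0, nat_lit 0, [nat_lit 3282000000, nat_lit 6250000000, nat_lit 11872000000], [], [nat_lit 34563824744, nat_lit 37750966824, nat_lit 44751334600, nat_lit 46603981976, nat_lit 29623497768, nat_lit 31421497616, nat_lit 35418333240, nat_lit 37236031000], nat_lit 0, nat_lit 0, nat_lit 0, nat_lit 0, nat_lit 0, nat_lit 0, [],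 [nat_lit 23, nat_lit 40, nat_lit 40, nat_lit 80, nat_lit 12, nat_lit 483, nat_lit 250, nat_lit 12]⟩,
 zbF0, [⟨nat_lit 4, nat_lit 100, nat_lit 35, nat_lit 80, nat_lit 555673600⟩, ⟨nat_lit 19, nat_lit 90, nat_lit 100, nat_lit 74, nat_lit 36836345⟩]⟩
noncomputable def p120_l136 : Lf2 := ⟨nat_lit 0, nat_lit 20, [nat_lit 5, nat_lit 5, nat_lit 5, nat_lit 20], false, nat_lit 0, nat_lit 200, nat_lit 0, nat_lit 300, ⟨nat_lit 349, nat_lit 651, nat_lit 0, nat_lit 7, nat_lit 278, nat_lit 651, nat_lit 67, nat_lit 0, nat_lit 0, nat_lit 0, nat_lit 0, nat_lit 0, nat_lit 0, nat_lit 0, nat_lit 0, nat_lit 5000000, false, false⟩,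
 nat_lit 4017, nat_lit 0, nat_lit 0, nat_lit 0, nat_lit 3498, nat_lit 2556, nat_lit 0, nat_lit 0, nat_lit 0, nat_lit 224, nat_lit 0, nat_lit 0, nat_lit 0, nat_lit 0, nat_lit 0, nat_lit 321600, nat_lit 0, nat_lit 0, [(nat_lit 25, [(nat_lit 1, nat_lit 549), (nat_lit 2, nat_lit 102)]), (nat_lit 28, [(nat_lit 1, nat_lit 549), (nat_lit 2, nat_lit 102)])],
 ⟨p120_k3, nat_lit 0, nat_lit 0, nat_lit 349, nat_lit 0, nat_lit 526963, [nat_lit 940934001, nat_lit 1656734000, nat_lit 2286017200], [], [nat_lit 27477987704, nat_lit 29348206296, nat_lit 33151206210, nat_lit 34564606876, nat_lit 27961618010, nat_lit 29480593992, nat_lit 32986339795, nat_lit 33600893694], nat_lit 1271250, nat_lit 1271250, nat_lit 1033601, nat_lit 3002700, nat_lit 0, nat_lit 1412500, [nat_lit 230000, nat_lit 780000, nat_lit 1435000], [nat_lit 20, nat_lit 40, nat_lit 40, nat_lit 80, nat_lit 16, nat_lit 373, nat_lit 150, nat_lit 14]⟩, ⟨p120_k7, nat_lit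 0, nat_lit 0, nat_lit 648, nat_lit 0, nat_lit 783809, [nat_lit 1145418000, nat_lit 2181250000, nat_lit 4143328000], [], [nat_lit 12796399065, nat_lit 12979600104, nat_lit 14017548466, nat_lit 14168948518, nat_lit 13046354160, nat_lit 11878156597, nat_lit 11977683289, nat_lit 12037584313], nat_lit 1271250, nat_lit 1271250, nat_lit 1271250, nat_lit 1271250, nat_lit 0, nat_lit 2118750, [nat_lit 780000, nat_lit 1435000, nat_lit 1271250], [nat_lit 23, nat_lit 40, nat_lit 40, nat_lit 80, nat_lit 12, nat_lit 483, nat_lit 250, nat_lit 12]⟩,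
 ⟨nat_lit 0, nat_lit 3163, ⟨.ofNat (nat_lit 507176), .ofNat (nat_lit 869001), .ofNat (nat_lit 528026), .ofNat (nat_lit 891156), .ofNat (nat_lit 531701), .ofNat (nat_lit 829996), .ofNat (nat_lit 555396), .ofNat (nat_lit 854997)⟩, ⟨.ofNat (nat_lit 0), .ofNat (nat_lit 322753), .ofNat (nat_lit 0), .ofNat (nat_lit 367065), .ofNat (nat_lit 0), .ofNat (nat_lit 299993), .ofNat (nat_lit 0), .ofNat (nat_lit 349995)⟩⟩, [⟨nat_lit 13, nat_lit 49, nat_lit 68, nat_lit 100, nat_lit 45322470⟩, ⟨nat_lit 16, nat_lit 46, nat_lit 100, nat_lit 75, nat_lit 219573058⟩, ⟨nat_lit 7, nat_lit 100, nat_lit 94, nat_lit 75, nat_lit 39018698⟩]⟩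
noncomputable def p120_l137 : Lf2 := ⟨nat_lit 0, nat_lit 20, [nat_lit 5, nat_lit 5, nat_lit 5, nat_lit 20], false, nat_lit 0, nat_lit 200, nat_lit 0, nat_lit 280, ⟨nat_lit 499, nat_lit 501, nat_lit 0, nat_lit 7, nat_lit 297, nat_lit 501, nat_lit 67, nat_lit 0, nat_lit 0, nat_lit 0, nat_lit 0, nat_lit 0, nat_lit 0, nat_lit 0, nat_lit 0, nat_lit 5000000, true, false⟩,
 nat_lit 4553, nat_lit 0, nat_lit 0, nat_lit 0, nat_lit 3965, nat_lit 3151, nat_lit 0, nat_lit 0, nat_lit 0, nat_lit 348, nat_lit 0, nat_lit 0, nat_lit 0, nat_lit 0, nat_lit 0, nat_lit 267600, nat_lit 0, nat_lit 0, [(nat_lit 25, [(nat_lit 1, nat_lit 389), (nat_lit 2, nat_lit 112)]), (nat_lit 28, [(nat_lit 1, nat_lit 389), (nat_lit 2, nat_lit 112)])],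
 ⟨p120_k3, nat_lit 0, nat_lit 0, nat_lit 365, nat_lit 0, nat_lit 573986, [nat_lit 961150001, nat_lit 1984883334, nat_lit 3038097200], [], [nat_lit 28689510264, nat_lit 30600126932, nat_lit 34390631664, nat_lit 36547426628, nat_lit 28704087686, nat_lit 30246771080, nat_lit 34917435426, nat_lit 34330769976], nat_lit 1271250, nat_lit 1271250, nat_lit 1236400, nat_lit 3118301, nat_lit 0, nat_lit 1412500, [nat_lit 230000, nat_lit 780000, nat_lit 1435000], [nat_lit 20, nat_lit 40, nat_lit 40, nat_lit 80, nat_lit 16, nat_lit 373, nat_lit 150, nat_lit 14]⟩, ⟨p120_k4, nat_lit 0, nat_lit 0, nat_lit 552, nat_lit 0, nat_lit 765714, [nat_lit 1637718000, nat_lit 3118750000, nat_lit 4911158000], [], [nat_lit 16097368704, nat_lit 16376998000, nat_lit 18404586573, nat_lit 19027241524, nat_lit 14947735352, nat_lit 15115777759, nat_lit 16534638284, nat_lit 16685527722], nat_lit 1271250, nat_lit 1271250, nat_lit 1271250, nat_lit 1271250,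 nat_lit 0, nat_lit 1977500, [nat_lit 780000, nat_lit 1435000, nat_lit 1271250], [nat_lit 8, nat_lit 40, nat_lit 40, nat_lit 80, nat_lit 1, nat_lit 401, nat_lit 175, nat_lit 11]⟩,
 ⟨nat_lit 0, nat_lit 3163, ⟨.ofNat (nat_lit 566138), .ofNat (nat_lit 903347), .ofNat (nat_lit 586988), .ofNat (nat_lit 925502), .ofNat (nat_lit 586935), .ofNat (nat_lit 864997), .ofNat (nat_lit 610631), .ofNat (nat_lit 889997)⟩, ⟨.ofNat (nat_lit 0), .ofNat (nat_lit 322753), .ofNat (nat_lit 0), .ofNat (nat_lit 367065), .ofNat (nat_lit 0), .ofNat (nat_lit 299993), .ofNat (nat_lit 0), .ofNat (nat_lit 349995)⟩⟩, [⟨nat_lit 4, nat_lit 100, nat_lit 46, nat_lit 75, nat_lit 230103124⟩, ⟨nat_lit 7, nat_lit 100, nat_lit 85, nat_lit 73, nat_lit 73605043⟩]⟩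
noncomputable def b_V_900_700_10_23 : St := ⟨true, nat_lit 1, nat_lit 2, nat_lit 0, nat_lit 80, nat_lit 360, nat_lit 400, nat_lit 280, nat_lit 320, nat_lit 152, nat_lit 392, nat_lit 40, nat_lit 80, nat_lit 0, nat_lit 200, nat_lit 0, nat_lit 300, nat_lit 80, nat_lit 120, nat_lit 0, nat_lit 0, nat_lit 0, nat_lit 0⟩
theorem d_V_900_700_10_23 (h : EB TB.env) : Dead b_V_900_700_10_23 := chkB_sound0 h (T :=
(.gv
(.st (nat_lit 1)
(.spl (nat_lit 2) (nat_lit 240)
(.spl (nat_lit 0) (nat_lit 380)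
(.leaf p120_l121)
(.trZ (nat_lit 0) (nat_lit 92) (nat_lit 44) (nat_lit 100) (nat_lit 192) (.trX (nat_lit 16) (nat_lit 44) (nat_lit 100) (nat_lit 82) (nat_lit 164) (.leaf p120_l122))))
(.spl (nat_lit 0) (nat_lit 380)
(.leaf p120_l123)
(.trX (nat_lit 13) (nat_lit 54) (nat_lit 57) (nat_lit 100) (nat_lit 380) (.trX (nat_lit 16) (nat_lit 44) (nat_lit 100) (nat_lit 82) (nat_lit 164) (.leaf p120_l124)))))
(.spl (nat_lit 2) (nat_lit 240)
(.spl (nat_lit 5) (nat_lit 160)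
(.leaf p120_l125)
(.spl (nat_lit 0) (nat_lit 380)
(.leaf p120_l126)
(.trZ (nat_lit 0) (nat_lit 92) (nat_lit 44) (nat_lit 100) (nat_lit 192) (.trX (nat_lit 16) (nat_lit 44) (nat_lit 100) (nat_lit 82) (nat_lit 164) (.leaf p120_l127)))))
(.spl (nat_lit 5) (nat_lit 160)
(.spl (nat_lit 0) (nat_lit 380)
(.leaf p120_l128)
(.trX (nat_lit 13) (nat_lit 54) (nat_lit 57) (nat_lit 100) (nat_lit 380) (.trX (nat_lit 16) (nat_lit 44) (nat_lit 100) (nat_lit 82) (nat_lit 164) (.leaf p120_l129))))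
(.spl (nat_lit 0) (nat_lit 380)
(.spl (nat_lit 0) (nat_lit 370)
(.leaf p120_l130)
(.trX (nat_lit 13) (nat_lit 66) (nat_lit 45) (nat_lit 100) (nat_lit 388) (.trX (nat_lit 16) (nat_lit 53) (nat_lit 100) (nat_lit 80) (nat_lit 184) (.leaf p120_l131))))
(.trX (nat_lit 13) (nat_lit 54) (nat_lit 57) (nat_lit 100) (nat_lit 380) (.trX (nat_lit 16) (nat_lit 44) (nat_lit 100) (nat_lit 82) (nat_lit 164) (.leaf p120_l132)))))))
(.st (nat_lit 1)
(.spl (nat_lit 2) (nat_lit 240)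
(.leaf p120_l133)
(.spl (nat_lit 0) (nat_lit 380)
(.leaf p120_l134)
(.trX (nat_lit 13) (nat_lit 54) (nat_lit 57) (nat_lit 100) (nat_lit 380) (.trX (nat_lit 16) (nat_lit 44) (nat_lit 100) (nat_lit 82) (nat_lit 164) (.leaf p120_l135)))))
(.spl (nat_lit 1) (nat_lit 300)
(.trX (nat_lit 13) (nat_lit 69) (nat_lit 45) (nat_lit 100) (nat_lit 384) (.leaf p120_l136))
(.trZ (nat_lit 0) (nat_lit 87) (nat_lit 60) (nat_lit 100) (nat_lit 176) (.trX (nat_lit 19) (nat_lit 94) (nat_lit 100) (nat_lit 87) (nat_lit 280) (.leaf p120_l137))))))) (by decide +kernel)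

end B2
end Pool.Agent.Lib.MP_6947cd_al
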