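import Pool.Agent.Lib.MP_6947cd_al.ZB.P000
import Pool.Agent.Lib.MP_6947cd_al.ZB.P001
import Pool.Agent.Lib.MP_6947cd_al.ZB.P002
import Pool.Agent.Lib.MP_6947cd_al.ZB.P003
import Pool.Agent.Lib.MP_6947cd_al.ZB.P004

/-!
Problem MP_6947cd_al (Chollet).  Case B, second entry in [2/5, 17/20]: certificates of the tree, part T00 (generated).
-/

set_option autoImplicit false
set_option linter.all false

namespace Pool.Agent.Lib.MP_6947cd_al
namespace B2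

open Ent Fr B1 PkA

noncomputable def t00_k0 : C1.Kn := ⟨[nat_lit 60, nat_lit 110, nat_lit 130], [nat_lit 0, nat_lit 0, nat_lit 129], [(nat_lit 0, nat_lit 0, nat_lit 0), (nat_lit 0, nat_lit 0, nat_lit 0), (nat_lit 990, nat_lit 1000, nat_lit 100)], (nat_lit 100, nat_lit 97, nat_lit 20)⟩
noncomputable def t00_k1 : C1.Kn := ⟨[nat_lit 60, nat_lit 110, nat_lit 130], [nat_lit 0, nat_lit 0, nat_lit 0], [(nat_lit 0, nat_lit 0, nat_lit 0), (nat_lit 0, nat_lit 0, nat_lit 0), (nat_lit 0, nat_lit 0, nat_lit 0)], (nat_lit 100, nat_lit 96, nat_lit 20)⟩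
noncomputable def t00_k2 : C1.Kn := ⟨[nat_lit 110, nat_lit 130], [nat_lit 0, nat_lit 129], [(nat_lit 0, nat_lit 0, nat_lit 0), (nat_lit 990, nat_lit 1000, nat_lit 100)], (nat_lit 100, nat_lit 97, nat_lit 20)⟩
noncomputable def t00_k3 : C1.Kn := ⟨[nat_lit 110, nat_lit 130], [nat_lit 0, nat_lit 0], [(nat_lit 0, nat_lit 0, nat_lit 0), (nat_lit 0, nat_lit 0, nat_lit 0)], (nat_lit 100, nat_lit 96, nat_lit 20)⟩
noncomputable def t00_k4 : C1.Kn := ⟨[nat_lit 120, nat_lit 140], [nat_lit 0, nat_lit 399], [(nat_lit 0, nat_lit 0, nat_lit 0), (nat_lit 942, nat_lit 1000, nat_lit 293)], (nat_lit 100, nat_lit 97, nat_lit 20)⟩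
noncomputable def t00_k5 : C1.Kn := ⟨[nat_lit 120, nat_lit 140], [nat_lit 0, nat_lit 266], [(nat_lit 0, nat_lit 0, nat_lit 0), (nat_lit 960, nat_lit 1000, nat_lit 200)], (nat_lit 100, nat_lit 96, nat_lit 20)⟩
noncomputable def t00_k6 : C1.Kn := ⟨[nat_lit 120, nat_lit 140], [nat_lit 0, nat_lit 399], [(nat_lit 0, nat_lit 0, nat_lit 0), (nat_lit 942, nat_lit 1000, nat_lit 293)], (nat_lit 100, nat_lit 95, nat_lit 28)⟩
noncomputable def t00_k7 : C1.Kn := ⟨[nat_lit 120, nat_lit 140], [nat_lit 0, nat_lit 266], [(nat_lit 0, nat_lit 0, nat_lit 0), (nat_lit 960, nat_lit 1000, nat_lit 200)], (nat_lit 100, nat_lit 93, nat_lit 28)⟩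
noncomputable def t00_k8 : C1.Kn := ⟨[nat_lit 110, nat_lit 130, nat_lit 140], [nat_lit 0, nat_lit 129, nat_lit 413], [(nat_lit 0, nat_lit 0, nat_lit 0), (nat_lit 990, nat_lit 1000, nat_lit 100), (nat_lit 922, nat_lit 1000, nat_lit 344)], (nat_lit 100, nat_lit 95, nat_lit 28)⟩
noncomputable def t00_k9 : C1.Kn := ⟨[nat_lit 100, nat_lit 120, nat_lit 140], [nat_lit 0, nat_lit 0, nat_lit 533], [(nat_lit 0, nat_lit 0, nat_lit 0), (nat_lit 0, nat_lit 0, nat_lit 0), (nat_lit 924, nat_lit 1000, nat_lit 383)], (nat_lit 100, nat_lit 94, nat_lit 34)⟩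
noncomputable def t00_k10 : C1.Kn := ⟨[nat_lit 100, nat_lit 120, nat_lit 140], [nat_lit 0, nat_lit 128, nat_lit 655], [(nat_lit 0, nat_lit 0, nat_lit 0), (nat_lit 1000, nat_lit 1000, nat_lit 100), (nat_lit 941, nat_lit 1000, nat_lit 388)], (nat_lit 100, nat_lit 92, nat_lit 44)⟩
noncomputable def t00_k11 : C1.Kn := ⟨[nat_lit 100, nat_lit 120, nat_lit 140], [nat_lit 0, nat_lit 166, nat_lit 692], [(nat_lit 0, nat_lit 0, nat_lit 0), (nat_lit 1000, nat_lit 1000, nat_lit 130), (nat_lit 947, nat_lit 1000, nat_lit 388)], (nat_lit 100, nat_lit 95, nat_lit 39)⟩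
noncomputable def t00_k12 : C1.Kn := ⟨[nat_lit 100, nat_lit 120, nat_lit 140], [nat_lit 0, nat_lit 192, nat_lit 716], [(nat_lit 0, nat_lit 0, nat_lit 0), (nat_lit 1000, nat_lit 1000, nat_lit 150), (nat_lit 951, nat_lit 1000, nat_lit 389)], (nat_lit 100, nat_lit 93, nat_lit 44)⟩
noncomputable def t00_k13 : C1.Kn := ⟨[nat_lit 100, nat_lit 120, nat_lit 140], [nat_lit 0, nat_lit 192, nat_lit 716], [(nat_lit 0, nat_lit 0, nat_lit 0), (nat_lit 1000, nat_lit 1000, nat_lit 150), (nat_lit 951, nat_lit 1000, nat_lit 389)], (nat_lit 100, nat_lit 95, nat_lit 39)⟩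
noncomputable def t00_k14 : C1.Kn := ⟨[nat_lit 100, nat_lit 120, nat_lit 140], [nat_lit 0, nat_lit 230, nat_lit 754], [(nat_lit 0, nat_lit 0, nat_lit 0), (nat_lit 1000, nat_lit 1000, nat_lit 180), (nat_lit 956, nat_lit 1000, nat_lit 391)], (nat_lit 100, nat_lit 94, nat_lit 44)⟩
noncomputable def t00_k15 : C1.Kn := ⟨[nat_lit 100, nat_lit 120, nat_lit 140], [nat_lit 0, nat_lit 230, nat_lit 754], [(nat_lit 0, nat_lit 0, nat_lit 0), (nat_lit 1000, nat_lit 1000, nat_lit 180), (nat_lit 956, nat_lit 1000, nat_lit 391)], (nat_lit 100, nat_lit 96, nat_lit 39)⟩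
noncomputable def t00_k16 : C1.Kn := ⟨[nat_lit 50, nat_lit 100, nat_lit 120, nat_lit 140], [nat_lit 0, nat_lit 0, nat_lit 192, nat_lit 716], [(nat_lit 0, nat_lit 0, nat_lit 0), (nat_lit 0, nat_lit 0, nat_lit 0), (nat_lit 1000, nat_lit 1000, nat_lit 150), (nat_lit 951, nat_lit 1000, nat_lit 389)], (nat_lit 100, nat_lit 95, nat_lit 39)⟩
noncomputable def t00_k17 : C1.Kn := ⟨[nat_lit 100, nat_lit 120, nat_lit 160], [nat_lit 0, nat_lit 0, nat_lit 1063], [(nat_lit 0, nat_lit 0, nat_lit 0), (nat_lit 0, nat_lit 0, nat_lit 0), (nat_lit 924, nat_lit 1000, nat_lit 383)], (nat_lit 100, nat_lit 90, nat_lit 44)⟩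
noncomputable def t00_k18 : C1.Kn := ⟨[nat_lit 100, nat_lit 120, nat_lit 140], [nat_lit 0, nat_lit 0, nat_lit 533], [(nat_lit 0, nat_lit 0, nat_lit 0), (nat_lit 0, nat_lit 0, nat_lit 0), (nat_lit 924, nat_lit 1000, nat_lit 383)], (nat_lit 100, nat_lit 96, nat_lit 28)⟩
noncomputable def t00_k19 : C1.Kn := ⟨[nat_lit 100, nat_lit 120, nat_lit 140], [nat_lit 0, nat_lit 242, nat_lit 767], [(nat_lit 0, nat_lit 0, nat_lit 0), (nat_lit 1000, nat_lit 1000, nat_lit 189), (nat_lit 958, nat_lit 1000, nat_lit 393)], (nat_lit 100, nat_lit 96, nat_lit 39)⟩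
noncomputable def t00_k20 : C1.Kn := ⟨[nat_lit 100, nat_lit 120], [nat_lit 0, nat_lit 383], [(nat_lit 0, nat_lit 0, nat_lit 0), (nat_lit 1000, nat_lit 1000, nat_lit 299)], (nat_lit 100, nat_lit 100, nat_lit 28)⟩
noncomputable def t00_k21 : C1.Kn := ⟨[nat_lit 100, nat_lit 120, nat_lit 140], [nat_lit 0, nat_lit 383, nat_lit 902], [(nat_lit 0, nat_lit 0, nat_lit 0), (nat_lit 1000, nat_lit 1000, nat_lit 299), (nat_lit 979, nat_lit 1000, nat_lit 397)], (nat_lit 100, nat_lit 98, nat_lit 40)⟩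
noncomputable def t00_k22 : C1.Kn := ⟨[nat_lit 100, nat_lit 120, nat_lit 140], [nat_lit 0, nat_lit 448, nat_lit 962], [(nat_lit 0, nat_lit 0, nat_lit 0), (nat_lit 1000, nat_lit 1000, nat_lit 350), (nat_lit 990, nat_lit 1000, nat_lit 398)], (nat_lit 100, nat_lit 99, nat_lit 40)⟩
noncomputable def t00_k23 : C1.Kn := ⟨[nat_lit 100, nat_lit 140], [nat_lit 0, nat_lit 508], [(nat_lit 0, nat_lit 0, nat_lit 0), (nat_lit 1000, nat_lit 1000, nat_lit 198)], (nat_lit 100, nat_lit 96, nat_lit 39)⟩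
noncomputable def t00_k24 : C1.Kn := ⟨[nat_lit 120, nat_lit 160], [nat_lit 0, nat_lit 533], [(nat_lit 0, nat_lit 0, nat_lit 0), (nat_lit 960, nat_lit 1000, nat_lit 200)], (nat_lit 100, nat_lit 88, nat_lit 39)⟩
noncomputable def t00_k25 : C1.Kn := ⟨[nat_lit 100, nat_lit 120, nat_lit 140], [nat_lit 0, nat_lit 254, nat_lit 778], [(nat_lit 0, nat_lit 0, nat_lit 0), (nat_lit 1000, nat_lit 1000, nat_lit 198), (nat_lit 960, nat_lit 1000, nat_lit 392)], (nat_lit 100, nat_lit 94, nat_lit 44)⟩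
noncomputable def t00_k26 : C1.Kn := ⟨[nat_lit 120, nat_lit 140, nat_lit 160], [nat_lit 0, nat_lit 266, nat_lit 862], [(nat_lit 0, nat_lit 0, nat_lit 0), (nat_lit 960, nat_lit 1000, nat_lit 200), (nat_lit 874, nat_lit 1000, nat_lit 406)], (nat_lit 100, nat_lit 86, nat_lit 44)⟩
noncomputable def t00_k27 : C1.Kn := ⟨[nat_lit 100, nat_lit 140], [nat_lit 0, nat_lit 508], [(nat_lit 0, nat_lit 0, nat_lit 0), (nat_lit 1000, nat_lit 1000, nat_lit 198)], (nat_lit 100, nat_lit 94, nat_lit 44)⟩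
noncomputable def t00_k28 : C1.Kn := ⟨[nat_lit 120, nat_lit 160], [nat_lit 0, nat_lit 533], [(nat_lit 0, nat_lit 0, nat_lit 0), (nat_lit 960, nat_lit 1000, nat_lit 200)], (nat_lit 100, nat_lit 86, nat_lit 44)⟩
noncomputable def t00_k29 : C1.Kn := ⟨[nat_lit 100, nat_lit 120], [nat_lit 0, nat_lit 422], [(nat_lit 0, nat_lit 0, nat_lit 0), (nat_lit 1000, nat_lit 1000, nat_lit 329)], (nat_lit 99, nat_lit 100, nat_lit 28)⟩
noncomputable def t00_k30 : C1.Kn := ⟨[nat_lit 100, nat_lit 120], [nat_lit 0, nat_lit 448], [(nat_lit 0, nat_lit 0, nat_lit 0), (nat_lit 1000, nat_lit 1000, nat_lit 350)], (nat_lit 99, nat_lit 100, nat_lit 28)⟩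
noncomputable def t00_k31 : C1.Kn := ⟨[nat_lit 100, nat_lit 140], [nat_lit 0, nat_lit 766], [(nat_lit 0, nat_lit 0, nat_lit 0), (nat_lit 1000, nat_lit 1000, nat_lit 299)], (nat_lit 100, nat_lit 97, nat_lit 44)⟩
noncomputable def t00_k32 : C1.Kn := ⟨[nat_lit 100, nat_lit 120, nat_lit 140], [nat_lit 0, nat_lit 383, nat_lit 902], [(nat_lit 0, nat_lit 0, nat_lit 0), (nat_lit 1000, nat_lit 1000, nat_lit 299), (nat_lit 979, nat_lit 1000, nat_lit 397)], (nat_lit 100, nat_lit 97, nat_lit 44)⟩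
noncomputable def t00_k33 : C1.Kn := ⟨[nat_lit 100, nat_lit 140, nat_lit 160], [nat_lit 0, nat_lit 0, nat_lit 1280], [(nat_lit 0, nat_lit 0, nat_lit 0), (nat_lit 0, nat_lit 0, nat_lit 0), (nat_lit 800, nat_lit 1000, nat_lit 600)], (nat_lit 100, nat_lit 90, nat_lit 44)⟩
theorem t_NL_400_400_0 (h : EB TB.env) : RC.Tail ⟨false, 20, 160, 180, 160, 180, 0, 0, []⟩ := RC.tail_chk h (b := ⟨nat_lit 20, nat_lit 0, nat_lit 5, nat_lit 5, nat_lit 20, nat_lit 203, nat_lit 0, nat_lit 34, nat_lit 0⟩) (by decide +kernel)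
theorem done_NL_400_400_0 (h : EB TB.env) : RC.Done ⟨false, 20, 160, 180, 160, 180, 0, 0, []⟩ := RC.done0 (t_NL_400_400_0 h)
theorem t_NL_450_400_0 (h : EB TB.env) : RC.Tail ⟨false, 20, 180, 200, 160, 180, 0, 0, []⟩ := RC.tail_chk h (b := ⟨nat_lit 20, nat_lit 0, nat_lit 5, nat_lit 5, nat_lit 20, nat_lit 203, nat_lit 0, nat_lit 34, nat_lit 0⟩) (by decide +kernel)
theorem done_NL_450_400_0 (h : EB TB.env) : RC.Done ⟨false, 20, 180, 200, 160, 180, 0, 0, []⟩ := RC.done0 (t_NL_450_400_0 h)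
theorem t_NL_450_450_0 (h : EB TB.env) : RC.Tail ⟨false, 20, 180, 200, 180, 200, 0, 0, [8]⟩ := RC.tail_chk h (b := ⟨nat_lit 20, nat_lit 4, nat_lit 5, nat_lit 5, nat_lit 20, nat_lit 203, nat_lit 0, nat_lit 33, nat_lit 0⟩) (by decide +kernel)
noncomputable def t00_l0 : Lf2 := ⟨nat_lit 1, nat_lit 2, [nat_lit 10, nat_lit 5, nat_lit 5, nat_lit 20], false, nat_lit 0, nat_lit 0, nat_lit 0, nat_lit 0, zbN0,
 nat_lit 0, nat_lit 0, nat_lit 0, nat_lit 0, nat_lit 0, nat_lit 0, nat_lit 0, nat_lit 0, nat_lit 0, nat_lit 0, nat_lit 0, nat_lit 0, nat_lit 0, nat_lit 0, nat_lit 0, nat_lit 0, nat_lit 0, nat_lit 0, [],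
 C1.Rw.none, C1.Rw.none,
 zbF0, []⟩
noncomputable def t00_l1 : Lf2 := ⟨nat_lit 0, nat_lit 1, [nat_lit 19, nat_lit 5, nat_lit 5, nat_lit 20], false, nat_lit 0, nat_lit 0, nat_lit 0, nat_lit 0, ⟨nat_lit 1000, nat_lit 0, nat_lit 0, nat_lit 0, nat_lit 0, nat_lit 0, nat_lit 0, nat_lit 0, nat_lit 0, nat_lit 0, nat_lit 0, nat_lit 0, nat_lit 0, nat_lit 0, nat_lit 0, nat_lit 0, false, false⟩,
 nat_lit 0, nat_lit 0, nat_lit 137343, nat_lit 152779, nat_lit 4359, nat_lit 52228, nat_lit 0, nat_lit 0, nat_lit 0, nat_lit 0, nat_lit 0, nat_lit 0, nat_lit 0, nat_lit 0, nat_lit 0, nat_lit 0, nat_lit 0, nat_lit 0, [],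
 ⟨t00_k0, nat_lit 0, nat_lit 0, nat_lit 0, nat_lit 0, nat_lit 0, [nat_lit 3282000000, nat_lit 7089500001, nat_lit 8885500000], [], [nat_lit 6754051819, nat_lit 7337531652, nat_lit 6287817166, nat_lit 6914814792], nat_lit 0, nat_lit 0, nat_lit 0, nat_lit 0, nat_lit 0, nat_lit 0, [], [nat_lit 115, nat_lit 40, nat_lit 20, nat_lit 40]⟩, ⟨t00_k1, nat_lit 0, nat_lit 0, nat_lit 0, nat_lit 0, nat_lit 24839, [nat_lit 3282000000, nat_lit 7089500000, nat_lit 8885500000], [], [nat_lit 44081656296, nat_lit 31069415692, nat_lit 45032992784, nat_lit 32113665792], nat_lit 1271250, nat_lit 1271250, nat_lit 230001, nat_lit 356250, nat_lit 0, nat_lit 0, [nat_lit 780000, nat_lit 1598750, nat_lit 1271250], [nat_lit 115, nat_lit 40, nat_lit 20, nat_lit 40]⟩,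
 zbF0, []⟩
noncomputable def t00_l2 : Lf2 := ⟨nat_lit 0, nat_lit 1, [nat_lit 19, nat_lit 5, nat_lit 5, nat_lit 20], false, nat_lit 0, nat_lit 0, nat_lit 0, nat_lit 0, ⟨nat_lit 1000, nat_lit 0, nat_lit 0, nat_lit 0, nat_lit 0, nat_lit 0, nat_lit 0, nat_lit 0, nat_lit 0, nat_lit 0, nat_lit 0, nat_lit 0, nat_lit 0, nat_lit 0, nat_lit 0, nat_lit 0, false, false⟩,
 nat_lit 0, nat_lit 0, nat_lit 1568, nat_lit 30177, nat_lit 14932, nat_lit 596, nat_lit 0, nat_lit 0, nat_lit 0, nat_lit 0, nat_lit 0, nat_lit 0, nat_lit 0, nat_lit 0, nat_lit 0, nat_lit 0, nat_lit 0, nat_lit 0, [],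
 ⟨t00_k2, nat_lit 0, nat_lit 0, nat_lit 0, nat_lit 0, nat_lit 0, [nat_lit 7089500001, nat_lit 8885500000], [], [nat_lit 8612766749, nat_lit 9601098993, nat_lit 7105354397, nat_lit 8085935217], nat_lit 0, nat_lit 0, nat_lit 0, nat_lit 0, nat_lit 0, nat_lit 0, [], [nat_lit 162, nat_lit 40, nat_lit 20, nat_lit 40]⟩, ⟨t00_k3, nat_lit 0, nat_lit 0, nat_lit 0, nat_lit 0, nat_lit 24839, [nat_lit 7089500000, nat_lit 8885500000], [], [nat_lit 44577581688, nat_lit 44429553276, nat_lit 45135557488, nat_lit 44988128544], nat_lit 1271250, nat_lit 1271250, nat_lit 356250, nat_lit 490000, nat_lit 0, nat_lit 0, [nat_lit 1553750, nat_lit 1271250], [nat_lit 162, nat_lit 40, nat_lit 20, nat_lit 40]⟩,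
 zbF0, []⟩
noncomputable def t00_l3 : Lf2 := ⟨nat_lit 0, nat_lit 1, [nat_lit 19, nat_lit 5, nat_lit 5, nat_lit 20], false, nat_lit 0, nat_lit 0, nat_lit 0, nat_lit 0, ⟨nat_lit 1000, nat_lit 0, nat_lit 0, nat_lit 0, nat_lit 0, nat_lit 0, nat_lit 0, nat_lit 0, nat_lit 0, nat_lit 0, nat_lit 0, nat_lit 0, nat_lit 0, nat_lit 0, nat_lit 0, nat_lit 0, false, false⟩,
 nat_lit 0, nat_lit 0, nat_lit 9925, nat_lit 12265, nat_lit 22730, nat_lit 3774, nat_lit 0, nat_lit 0, nat_lit 0, nat_lit 4268, nat_lit 0, nat_lit 0, nat_lit 0, nat_lit 0, nat_lit 0, nat_lit 0, nat_lit 0, nat_lit 0, [],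
 ⟨t00_k4, nat_lit 0, nat_lit 0, nat_lit 0, nat_lit 0, nat_lit 0, [nat_lit 7968000001, nat_lit 9842000000], [], [nat_lit 6745118661, nat_lit 7936120561, nat_lit 5567100301, nat_lit 6591912361], nat_lit 0, nat_lit 0, nat_lit 0, nat_lit 0, nat_lit 0, nat_lit 0, [], [nat_lit 77, nat_lit 40, nat_lit 20, nat_lit 80]⟩, ⟨t00_k5, nat_lit 0, nat_lit 0, nat_lit 0, nat_lit 0, nat_lit 57761, [nat_lit 7968000000, nat_lit 9842000000], [], [nat_lit 39691890424, nat_lit 39944868212, nat_lit 40521815412, nat_lit 40747989762], nat_lit 1271250, nat_lit 1271250, nat_lit 490000, nat_lit 1100001, nat_lit 0, nat_lit 0, [nat_lit 1695000, nat_lit 1271250], [nat_lit 77, nat_lit 40, nat_lit 20, nat_lit 80]⟩,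
 zbF0, []⟩
noncomputable def t00_l4 : Lf2 := ⟨nat_lit 3, nat_lit 1, [nat_lit 19, nat_lit 5, nat_lit 5, nat_lit 20], false, nat_lit 0, nat_lit 0, nat_lit 0, nat_lit 0, zbN0,
 nat_lit 0, nat_lit 0, nat_lit 0, nat_lit 0, nat_lit 0, nat_lit 0, nat_lit 0, nat_lit 0, nat_lit 0, nat_lit 0, nat_lit 0, nat_lit 0, nat_lit 0, nat_lit 0, nat_lit 0, nat_lit 0, nat_lit 0, nat_lit 0, [],
 C1.Rw.none, ⟨t00_k5, nat_lit 0, nat_lit 0, nat_lit 315, nat_lit 0, nat_lit 57761, [], [], [], nat_lit 1271250, nat_lit 1271250, nat_lit 0, nat_lit 1100001, nat_lit 0, nat_lit 0, [nat_lit 1695000, nat_lit 1271250], [nat_lit 77, nat_lit 40, nat_lit 20, nat_lit 80, nat_lit 17, nat_lit 317, nat_lit 100, nat_lit 10]⟩,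
 zbF0, []⟩
noncomputable def t00_l5 : Lf2 := ⟨nat_lit 1, nat_lit 2, [nat_lit 10, nat_lit 5, nat_lit 5, nat_lit 20], false, nat_lit 0, nat_lit 0, nat_lit 0, nat_lit 0, zbN0,
 nat_lit 0, nat_lit 0, nat_lit 0, nat_lit 0, nat_lit 0, nat_lit 0, nat_lit 0, nat_lit 0, nat_lit 0, nat_lit 0, nat_lit 0, nat_lit 0, nat_lit 0, nat_lit 0, nat_lit 0, nat_lit 0, nat_lit 0, nat_lit 0, [],
 C1.Rw.none, C1.Rw.none,
 zbF0, []⟩
noncomputable def t00_l6 : Lf2 := ⟨nat_lit 2, nat_lit 2, [nat_lit 10, nat_lit 5, nat_lit 5, nat_lit 20], true, nat_lit 0, nat_lit 0, nat_lit 0, nat_lit 0, zbN0,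
 nat_lit 0, nat_lit 0, nat_lit 0, nat_lit 0, nat_lit 0, nat_lit 0, nat_lit 0, nat_lit 0, nat_lit 0, nat_lit 0, nat_lit 0, nat_lit 0, nat_lit 0, nat_lit 0, nat_lit 0, nat_lit 0, nat_lit 0, nat_lit 0, [],
 ⟨t00_k6, nat_lit 0, nat_lit 0, nat_lit 289, nat_lit 0, nat_lit 0, [], [], [], nat_lit 0, nat_lit 0, nat_lit 0, nat_lit 0, nat_lit 0, nat_lit 0, [], [nat_lit 77, nat_lit 40, nat_lit 20, nat_lit 80, nat_lit 17, nat_lit 317, nat_lit 100, nat_lit 10]⟩, C1.Rw.none,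
 zbF0, []⟩
noncomputable def t00_l7 : Lf2 := ⟨nat_lit 0, nat_lit 2, [nat_lit 10, nat_lit 5, nat_lit 5, nat_lit 20], false, nat_lit 0, nat_lit 0, nat_lit 0, nat_lit 0, ⟨nat_lit 1000, nat_lit 0, nat_lit 0, nat_lit 0, nat_lit 0, nat_lit 0, nat_lit 0, nat_lit 0, nat_lit 0, nat_lit 0, nat_lit 0, nat_lit 0, nat_lit 0, nat_lit 0, nat_lit 0, nat_lit 0, false, false⟩,
 nat_lit 0, nat_lit 0, nat_lit 0, nat_lit 16710, nat_lit 17848, nat_lit 0, nat_lit 0, nat_lit 0, nat_lit 0, nat_lit 2182, nat_lit 0, nat_lit 0, nat_lit 0, nat_lit 0, nat_lit 0, nat_lit 0, nat_lit 0, nat_lit 0, [],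
 ⟨t00_k6, nat_lit 0, nat_lit 0, nat_lit 61, nat_lit 0, nat_lit 0, [nat_lit 7968000001, nat_lit 9842000000], [], [nat_lit 9130911481, nat_lit 10002809537, nat_lit 17346298528, nat_lit 18314263488], nat_lit 0, nat_lit 0, nat_lit 0, nat_lit 0, nat_lit 0, nat_lit 0, [], [nat_lit 77, nat_lit 40, nat_lit 20, nat_lit 80, nat_lit 17, nat_lit 345, nat_lit 125, nat_lit 10]⟩, ⟨t00_k7, nat_lit 0, nat_lit 0, nat_lit 231, nat_lit 0, nat_lit 144782, [nat_lit 7968000000, nat_lit 9842000000], [], [nat_lit 37061016000, nat_lit 37430340500, nat_lit 39801012000, nat_lit 39801012000], nat_lit 1271250, nat_lit 1271250, nat_lit 1100001, nat_lit 1785000, nat_lit 0, nat_lit 0, [nat_lit 1695000, nat_lit 1271250], [nat_lit 77, nat_lit 40, nat_lit 20, nat_lit 80, nat_lit 17, nat_lit 345, nat_lit 125, nat_lit 10]⟩,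
 zbF0, []⟩
noncomputable def t00_l8 : Lf2 := ⟨nat_lit 0, nat_lit 2, [nat_lit 10, nat_lit 5, nat_lit 5, nat_lit 20], false, nat_lit 0, nat_lit 0, nat_lit 0, nat_lit 0, ⟨nat_lit 1000, nat_lit 0, nat_lit 0, nat_lit 0, nat_lit 0, nat_lit 0, nat_lit 0, nat_lit 0, nat_lit 0, nat_lit 0, nat_lit 0, nat_lit 0, nat_lit 0, nat_lit 0, nat_lit 0, nat_lit 0, false, false⟩,
 nat_lit 0, nat_lit 0, nat_lit 23776, nat_lit 0, nat_lit 8789, nat_lit 9041, nat_lit 2476, nat_lit 0, nat_lit 0, nat_lit 3185, nat_lit 0, nat_lit 0, nat_lit 0, nat_lit 0, nat_lit 0, nat_lit 0, nat_lit 0, nat_lit 0, [],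
 ⟨t00_k6, nat_lit 0, nat_lit 0, nat_lit 230, nat_lit 0, nat_lit 0, [nat_lit 7968000001, nat_lit 9842000000], [], [nat_lit 28295570854, nat_lit 28511570129, nat_lit 39437538249, nat_lit 39424990157], nat_lit 0, nat_lit 0, nat_lit 0, nat_lit 0, nat_lit 0, nat_lit 0, [], [nat_lit 77, nat_lit 40, nat_lit 20, nat_lit 80, nat_lit 17, nat_lit 373, nat_lit 150, nat_lit 11]⟩, ⟨t00_k7, nat_lit 0, nat_lit 0, nat_lit 305, nat_lit 0, nat_lit 144782, [nat_lit 7968000000, nat_lit 9842000000], [], [nat_lit 32144027324, nat_lit 32345509094, nat_lit 40168894250, nat_lit 40049902844], nat_lit 1271250, nat_lit 1271250, nat_lit 1271250, nat_lit 1271250, nat_lit 0, nat_lit 0, [nat_lit 1695000, nat_lit 1271250], [nat_lit 77, nat_lit 40, nat_lit 20, nat_lit 80, nat_lit 17, nat_lit 373, nat_lit 150, nat_lit 11]⟩,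
 zbF0, []⟩
noncomputable def t00_l9 : Lf2 := ⟨nat_lit 1, nat_lit 2, [nat_lit 10, nat_lit 5, nat_lit 5, nat_lit 20], false, nat_lit 0, nat_lit 0, nat_lit 0, nat_lit 0, zbN0,
 nat_lit 0, nat_lit 0, nat_lit 0, nat_lit 0, nat_lit 0, nat_lit 0, nat_lit 0, nat_lit 0, nat_lit 0, nat_lit 0, nat_lit 0, nat_lit 0, nat_lit 0, nat_lit 0, nat_lit 0, nat_lit 0, nat_lit 0, nat_lit 0, [],
 C1.Rw.none, C1.Rw.none,
 zbF0, []⟩
noncomputable def t00_l10 : Lf2 := ⟨nat_lit 2, nat_lit 2, [nat_lit 10, nat_lit 5, nat_lit 5, nat_lit 20], true, nat_lit 0, nat_lit 0, nat_lit 0, nat_lit 0, zbN0,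
 nat_lit 0, nat_lit 0, nat_lit 0, nat_lit 0, nat_lit 0, nat_lit 0, nat_lit 0, nat_lit 0, nat_lit 0, nat_lit 0, nat_lit 0, nat_lit 0, nat_lit 0, nat_lit 0, nat_lit 0, nat_lit 0, nat_lit 0, nat_lit 0, [],
 ⟨t00_k6, nat_lit 0, nat_lit 0, nat_lit 289, nat_lit 0, nat_lit 0, [], [], [], nat_lit 0, nat_lit 0, nat_lit 0, nat_lit 0, nat_lit 0, nat_lit 0, [], [nat_lit 77, nat_lit 40, nat_lit 20, nat_lit 80, nat_lit 17, nat_lit 317, nat_lit 100, nat_lit 10]⟩, C1.Rw.none,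
 zbF0, []⟩
noncomputable def t00_l11 : Lf2 := ⟨nat_lit 0, nat_lit 2, [nat_lit 10, nat_lit 5, nat_lit 5, nat_lit 20], false, nat_lit 0, nat_lit 0, nat_lit 0, nat_lit 0, ⟨nat_lit 1000, nat_lit 0, nat_lit 0, nat_lit 0, nat_lit 0, nat_lit 0, nat_lit 0, nat_lit 0, nat_lit 0, nat_lit 0, nat_lit 0, nat_lit 0, nat_lit 0, nat_lit 0, nat_lit 0, nat_lit 0, false, false⟩,
 nat_lit 0, nat_lit 0, nat_lit 0, nat_lit 16710, nat_lit 17848, nat_lit 0, nat_lit 0, nat_lit 0, nat_lit 0, nat_lit 2182, nat_lit 0, nat_lit 0, nat_lit 0, nat_lit 0, nat_lit 0, nat_lit 0, nat_lit 0, nat_lit 0, [],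
 ⟨t00_k6, nat_lit 0, nat_lit 0, nat_lit 61, nat_lit 0, nat_lit 0, [nat_lit 7968000001, nat_lit 9842000000], [], [nat_lit 9130911481, nat_lit 10002809537, nat_lit 17346298528, nat_lit 18314263488], nat_lit 0, nat_lit 0, nat_lit 0, nat_lit 0, nat_lit 0, nat_lit 0, [], [nat_lit 77, nat_lit 40, nat_lit 20, nat_lit 80, nat_lit 17, nat_lit 345, nat_lit 125, nat_lit 10]⟩, ⟨t00_k7, nat_lit 0, nat_lit 0, nat_lit 231, nat_lit 0, nat_lit 144782, [nat_lit 7968000000, nat_lit 9842000000], [], [nat_lit 37061016000, nat_lit 37430340500, nat_lit 39801012000, nat_lit 39801012000], nat_lit 1271250, nat_lit 1271250, nat_lit 1100001, nat_lit 1785000, nat_lit 0, nat_lit 0, [nat_lit 1695000, nat_lit 1271250], [nat_lit 77, nat_lit 40, nat_lit 20, nat_lit 80, nat_lit 17, nat_lit 345, nat_lit 125, nat_lit 10]⟩,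
 zbF0, []⟩
noncomputable def t00_l12 : Lf2 := ⟨nat_lit 0, nat_lit 2, [nat_lit 10, nat_lit 5, nat_lit 5, nat_lit 20], false, nat_lit 0, nat_lit 0, nat_lit 0, nat_lit 0, ⟨nat_lit 1000, nat_lit 0, nat_lit 0, nat_lit 0, nat_lit 0, nat_lit 0, nat_lit 0, nat_lit 0, nat_lit 0, nat_lit 0, nat_lit 0, nat_lit 0, nat_lit 0, nat_lit 0, nat_lit 0, nat_lit 0, false, false⟩,
 nat_lit 0, nat_lit 0, nat_lit 23776, nat_lit 0, nat_lit 8789, nat_lit 9041, nat_lit 2476, nat_lit 0, nat_lit 0, nat_lit 3185, nat_lit 0, nat_lit 0, nat_lit 0, nat_lit 0, nat_lit 0, nat_lit 0, nat_lit 0, nat_lit 0, [],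
 ⟨t00_k6, nat_lit 0, nat_lit 0, nat_lit 230, nat_lit 0, nat_lit 0, [nat_lit 7968000001, nat_lit 9842000000], [], [nat_lit 28295570854, nat_lit 28511570129, nat_lit 39437538249, nat_lit 39424990157], nat_lit 0, nat_lit 0, nat_lit 0, nat_lit 0, nat_lit 0, nat_lit 0, [], [nat_lit 77, nat_lit 40, nat_lit 20, nat_lit 80, nat_lit 17, nat_lit 373, nat_lit 150, nat_lit 11]⟩, ⟨t00_k7, nat_lit 0, nat_lit 0, nat_lit 305, nat_lit 0, nat_lit 144782, [nat_lit 7968000000, nat_lit 9842000000], [], [nat_lit 32144027324, nat_lit 32345509094, nat_lit 40168894250, nat_lit 40049902844], nat_lit 1271250, nat_lit 1271250, nat_lit 1271250, nat_lit 1271250, nat_lit 0, nat_lit 0, [nat_lit 1695000, nat_lit 1271250], [nat_lit 77, nat_lit 40, nat_lit 20, nat_lit 80, nat_lit 17, nat_lit 373, nat_lit 150, nat_lit 11]⟩,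
 zbF0, []⟩
noncomputable def t00_l13 : Lf2 := ⟨nat_lit 1, nat_lit 2, [nat_lit 10, nat_lit 5, nat_lit 5, nat_lit 20], false, nat_lit 0, nat_lit 0, nat_lit 0, nat_lit 0, zbN0,
 nat_lit 0, nat_lit 0, nat_lit 0, nat_lit 0, nat_lit 0, nat_lit 0, nat_lit 0, nat_lit 0, nat_lit 0, nat_lit 0, nat_lit 0, nat_lit 0, nat_lit 0, nat_lit 0, nat_lit 0, nat_lit 0, nat_lit 0, nat_lit 0, [],
 C1.Rw.none, C1.Rw.none,
 zbF0, []⟩
noncomputable def t00_l14 : Lf2 := ⟨nat_lit 3, nat_lit 2, [nat_lit 10, nat_lit 5, nat_lit 5, nat_lit 20], false, nat_lit 0, nat_lit 0, nat_lit 0, nat_lit 0, zbN0,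
 nat_lit 0, nat_lit 0, nat_lit 0, nat_lit 0, nat_lit 0, nat_lit 0, nat_lit 0, nat_lit 0, nat_lit 0, nat_lit 0, nat_lit 0, nat_lit 0, nat_lit 0, nat_lit 0, nat_lit 0, nat_lit 0, nat_lit 0, nat_lit 0, [],
 C1.Rw.none, ⟨t00_k7, nat_lit 0, nat_lit 0, nat_lit 319, nat_lit 0, nat_lit 66043, [], [], [], nat_lit 1271250, nat_lit 1271250, nat_lit 0, nat_lit 1100001, nat_lit 0, nat_lit 0, [nat_lit 1695000, nat_lit 1271250], [nat_lit 77, nat_lit 40, nat_lit 20, nat_lit 80, nat_lit 17, nat_lit 317, nat_lit 100, nat_lit 10]⟩,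
 zbF0, []⟩
noncomputable def t00_l15 : Lf2 := ⟨nat_lit 0, nat_lit 2, [nat_lit 10, nat_lit 5, nat_lit 5, nat_lit 20], false, nat_lit 0, nat_lit 0, nat_lit 0, nat_lit 0, ⟨nat_lit 1000, nat_lit 0, nat_lit 0, nat_lit 0, nat_lit 0, nat_lit 0, nat_lit 0, nat_lit 0, nat_lit 0, nat_lit 0, nat_lit 0, nat_lit 0, nat_lit 0, nat_lit 0, nat_lit 0, nat_lit 0, false, false⟩,
 nat_lit 0, nat_lit 19160, nat_lit 0, nat_lit 14762, nat_lit 7745, nat_lit 0, nat_lit 0, nat_lit 0, nat_lit 0, nat_lit 2626, nat_lit 0, nat_lit 0, nat_lit 0, nat_lit 16124844069800, nat_lit 0, nat_lit 0, nat_lit 0, nat_lit 0, [],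
 ⟨t00_k8, nat_lit 0, nat_lit 0, nat_lit 0, nat_lit 0, nat_lit 61990, [nat_lit 7089500001, nat_lit 8885500000, nat_lit 9842000000], [], [nat_lit 31697172747, nat_lit 29680459942, nat_lit 39821066772, nat_lit 37863270182], nat_lit 1271250, nat_lit 1271250, nat_lit 1100001, nat_lit 1785000, nat_lit 0, nat_lit 0, [nat_lit 1553750, nat_lit 1271250, nat_lit 1271250], [nat_lit 221, nat_lit 40, nat_lit 20, nat_lit 40]⟩, ⟨t00_k7, nat_lit 0, nat_lit 0, nat_lit 224, nat_lit 0, nat_lit 66043, [nat_lit 7968000000, nat_lit 9842000000], [], [nat_lit 37061016000, nat_lit 37061265500, nat_lit 39801012000, nat_lit 39801012000], nat_lit 1271250, nat_lit 1271250, nat_lit 1100001, nat_lit 1785000, nat_lit 0, nat_lit 0, [nat_lit 1695000, nat_lit 1271250], [nat_lit 77, nat_lit 40, nat_lit 20, nat_lit 80, nat_lit 17, nat_lit 345, nat_lit 125, nat_lit 10]⟩,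
 zbF0, []⟩
noncomputable def t00_l16 : Lf2 := ⟨nat_lit 2, nat_lit 2, [nat_lit 10, nat_lit 5, nat_lit 5, nat_lit 20], true, nat_lit 0, nat_lit 0, nat_lit 0, nat_lit 0, zbN0,
 nat_lit 0, nat_lit 0, nat_lit 0, nat_lit 0, nat_lit 0, nat_lit 0, nat_lit 0, nat_lit 0, nat_lit 0, nat_lit 0, nat_lit 0, nat_lit 0, nat_lit 0, nat_lit 0, nat_lit 0, nat_lit 0, nat_lit 0, nat_lit 0, [],
 ⟨t00_k6, nat_lit 0, nat_lit 0, nat_lit 225, nat_lit 0, nat_lit 132659, [], [], [], nat_lit 1271250, nat_lit 1271250, nat_lit 1100001, nat_lit 1785000, nat_lit 0, nat_lit 0, [nat_lit 1695000, nat_lit 1271250], [nat_lit 77, nat_lit 40, nat_lit 20, nat_lit 80, nat_lit 17, nat_lit 345, nat_lit 125, nat_lit 10]⟩, C1.Rw.none,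
 zbF0, []⟩
noncomputable def t00_l17 : Lf2 := ⟨nat_lit 0, nat_lit 2, [nat_lit 10, nat_lit 5, nat_lit 5, nat_lit 20], false, nat_lit 0, nat_lit 0, nat_lit 0, nat_lit 0, ⟨nat_lit 1000, nat_lit 0, nat_lit 0, nat_lit 0, nat_lit 0, nat_lit 0, nat_lit 0, nat_lit 0, nat_lit 0, nat_lit 0, nat_lit 0, nat_lit 0, nat_lit 0, nat_lit 0, nat_lit 0, nat_lit 0, false, false⟩,
 nat_lit 23112, nat_lit 0, nat_lit 0, nat_lit 6023, nat_lit 8789, nat_lit 8789, nat_lit 2476, nat_lit 0, nat_lit 0, nat_lit 3715, nat_lit 0, nat_lit 0, nat_lit 0, nat_lit 0, nat_lit 0, nat_lit 0, nat_lit 0, nat_lit 0, [],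
 ⟨t00_k6, nat_lit 0, nat_lit 0, nat_lit 252, nat_lit 0, nat_lit 61990, [nat_lit 7968000001, nat_lit 9842000000], [], [nat_lit 28295570854, nat_lit 28511570129, nat_lit 39437538249, nat_lit 39424990157], nat_lit 1271250, nat_lit 1271250, nat_lit 1271250, nat_lit 1271250, nat_lit 0, nat_lit 0, [nat_lit 1695000, nat_lit 1271250], [nat_lit 77, nat_lit 40, nat_lit 20, nat_lit 80, nat_lit 17, nat_lit 373, nat_lit 150, nat_lit 11]⟩, ⟨t00_k7, nat_lit 0, nat_lit 0, nat_lit 255, nat_lit 0, nat_lit 66043, [nat_lit 7968000000, nat_lit 9842000000], [], [nat_lit 28078740328, nat_lit 28510738878, nat_lit 39449255090, nat_lit 39424528500], nat_lit 1271250, nat_lit 1271250, nat_lit 1271250, nat_lit 1271250, nat_lit 0, nat_lit 0, [nat_lit 1695000, nat_lit 1271250], [nat_lit 77, nat_lit 40, nat_lit 20, nat_lit 80, nat_lit 17, nat_lit 373, nat_lit 150, nat_lit 11]⟩,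
 zbF0, []⟩
noncomputable def t00_l18 : Lf2 := ⟨nat_lit 1, nat_lit 2, [nat_lit 10, nat_lit 5, nat_lit 5, nat_lit 20], false, nat_lit 0, nat_lit 0, nat_lit 0, nat_lit 0, zbN0,
 nat_lit 0, nat_lit 0, nat_lit 0, nat_lit 0, nat_lit 0, nat_lit 0, nat_lit 0, nat_lit 0, nat_lit 0, nat_lit 0, nat_lit 0, nat_lit 0, nat_lit 0, nat_lit 0, nat_lit 0, nat_lit 0, nat_lit 0, nat_lit 0, [],
 C1.Rw.none, C1.Rw.none,
 zbF0, []⟩
noncomputable def t00_l19 : Lf2 := ⟨nat_lit 3, nat_lit 2, [nat_lit 10, nat_lit 5, nat_lit 5, nat_lit 20], false, nat_lit 0, nat_lit 0, nat_lit 0, nat_lit 0, zbN0,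
 nat_lit 0, nat_lit 0, nat_lit 0, nat_lit 0, nat_lit 0, nat_lit 0, nat_lit 0, nat_lit 0, nat_lit 0, nat_lit 0, nat_lit 0, nat_lit 0, nat_lit 0, nat_lit 0, nat_lit 0, nat_lit 0, nat_lit 0, nat_lit 0, [],
 C1.Rw.none, ⟨t00_k7, nat_lit 0, nat_lit 0, nat_lit 319, nat_lit 0, nat_lit 66043, [], [], [], nat_lit 1271250, nat_lit 1271250, nat_lit 0, nat_lit 1100001, nat_lit 0, nat_lit 0, [nat_lit 1695000, nat_lit 1271250], [nat_lit 77, nat_lit 40, nat_lit 20, nat_lit 80, nat_lit 17, nat_lit 317, nat_lit 100, nat_lit 10]⟩,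
 zbF0, []⟩
noncomputable def t00_l20 : Lf2 := ⟨nat_lit 0, nat_lit 2, [nat_lit 10, nat_lit 5, nat_lit 5, nat_lit 20], false, nat_lit 0, nat_lit 0, nat_lit 0, nat_lit 0, ⟨nat_lit 1000, nat_lit 0, nat_lit 0, nat_lit 0, nat_lit 0, nat_lit 0, nat_lit 0, nat_lit 0, nat_lit 0, nat_lit 0, nat_lit 0, nat_lit 0, nat_lit 0, nat_lit 0, nat_lit 0, nat_lit 0, false, false⟩,
 nat_lit 0, nat_lit 19160, nat_lit 0, nat_lit 14762, nat_lit 7745, nat_lit 0, nat_lit 0, nat_lit 0, nat_lit 0, nat_lit 2626, nat_lit 0, nat_lit 0, nat_lit 0, nat_lit 16124844069800, nat_lit 0, nat_lit 0, nat_lit 0, nat_lit 0, [],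
 ⟨t00_k8, nat_lit 0, nat_lit 0, nat_lit 0, nat_lit 0, nat_lit 61990, [nat_lit 7089500001, nat_lit 8885500000, nat_lit 9842000000], [], [nat_lit 31697172747, nat_lit 29680459942, nat_lit 39821066772, nat_lit 37863270182], nat_lit 1271250, nat_lit 1271250, nat_lit 1100001, nat_lit 1785000, nat_lit 0, nat_lit 0, [nat_lit 1553750, nat_lit 1271250, nat_lit 1271250], [nat_lit 221, nat_lit 40, nat_lit 20, nat_lit 40]⟩, ⟨t00_k7, nat_lit 0, nat_lit 0, nat_lit 224, nat_lit 0, nat_lit 66043, [nat_lit 7968000000, nat_lit 9842000000], [], [nat_lit 37061016000, nat_lit 37061265500, nat_lit 39801012000, nat_lit 39801012000], nat_lit 1271250, nat_lit 1271250, nat_lit 1100001, nat_lit 1785000, nat_lit 0, nat_lit 0, [nat_lit 1695000, nat_lit 1271250], [nat_lit 77, nat_lit 40, nat_lit 20, nat_lit 80, nat_lit 17, nat_lit 345, nat_lit 125, nat_lit 10]⟩,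
 zbF0, []⟩
noncomputable def t00_l21 : Lf2 := ⟨nat_lit 2, nat_lit 2, [nat_lit 10, nat_lit 5, nat_lit 5, nat_lit 20], true, nat_lit 0, nat_lit 0, nat_lit 0, nat_lit 0, zbN0,
 nat_lit 0, nat_lit 0, nat_lit 0, nat_lit 0, nat_lit 0, nat_lit 0, nat_lit 0, nat_lit 0, nat_lit 0, nat_lit 0, nat_lit 0, nat_lit 0, nat_lit 0, nat_lit 0, nat_lit 0, nat_lit 0, nat_lit 0, nat_lit 0, [],
 ⟨t00_k6, nat_lit 0, nat_lit 0, nat_lit 225, nat_lit 0, nat_lit 132659, [], [], [], nat_lit 1271250, nat_lit 1271250, nat_lit 1100001, nat_lit 1785000, nat_lit 0, nat_lit 0, [nat_lit 1695000, nat_lit 1271250], [nat_lit 77, nat_lit 40, nat_lit 20, nat_lit 80, nat_lit 17, nat_lit 345, nat_lit 125, nat_lit 10]⟩, C1.Rw.none,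
 zbF0, []⟩
noncomputable def t00_l22 : Lf2 := ⟨nat_lit 0, nat_lit 2, [nat_lit 10, nat_lit 5, nat_lit 5, nat_lit 20], false, nat_lit 0, nat_lit 0, nat_lit 0, nat_lit 0, ⟨nat_lit 1000, nat_lit 0, nat_lit 0, nat_lit 0, nat_lit 0, nat_lit 0, nat_lit 0, nat_lit 0, nat_lit 0, nat_lit 0, nat_lit 0, nat_lit 0, nat_lit 0, nat_lit 0, nat_lit 0, nat_lit 0, false, false⟩,
 nat_lit 23112, nat_lit 0, nat_lit 0, nat_lit 6023, nat_lit 8789, nat_lit 8789, nat_lit 2476, nat_lit 0, nat_lit 0, nat_lit 3715, nat_lit 0, nat_lit 0, nat_lit 0, nat_lit 0, nat_lit 0, nat_lit 0, nat_lit 0, nat_lit 0, [],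
 ⟨t00_k6, nat_lit 0, nat_lit 0, nat_lit 252, nat_lit 0, nat_lit 61990, [nat_lit 7968000001, nat_lit 9842000000], [], [nat_lit 28295570854, nat_lit 28511570129, nat_lit 39437538249, nat_lit 39424990157], nat_lit 1271250, nat_lit 1271250, nat_lit 1271250, nat_lit 1271250, nat_lit 0, nat_lit 0, [nat_lit 1695000, nat_lit 1271250], [nat_lit 77, nat_lit 40, nat_lit 20, nat_lit 80, nat_lit 17, nat_lit 373, nat_lit 150, nat_lit 11]⟩, ⟨t00_k7, nat_lit 0, nat_lit 0, nat_lit 255, nat_lit 0, nat_lit 66043, [nat_lit 7968000000, nat_lit 9842000000], [], [nat_lit 28078740328, nat_lit 28510738878, nat_lit 39449255090, nat_lit 39424528500], nat_lit 1271250, nat_lit 1271250, nat_lit 1271250, nat_lit 1271250, nat_lit 0, nat_lit 0, [nat_lit 1695000, nat_lit 1271250], [nat_lit 77, nat_lit 40, nat_lit 20, nat_lit 80, nat_lit 17, nat_lit 373, nat_lit 150, nat_lit 11]⟩,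
 zbF0, []⟩
theorem r_NL_450_450_0 (h : EB TB.env) : Dead (RC.box ⟨false, 20, 180, 200, 180, 200, 0, 0, [8]⟩ 0 8) := chkB_sound h (refs := [b_NL_450_450_0_0, b_NL_450_450_0_1, b_NL_450_450_0_2, b_NL_450_450_0_3, b_NL_450_450_0_4, b_NL_450_450_0_5, b_NL_450_450_0_6, b_NL_450_450_0_7, b_NL_450_450_0_8, b_NL_450_450_0_9, b_NL_450_450_0_10, b_NL_450_450_0_11, b_NL_450_450_0_12]) (refs_cons (d_NL_450_450_0_0 h) (refs_cons (d_NL_450_450_0_1 h) (refs_cons (d_NL_450_450_0_2 h) (refs_cons (d_NL_450_450_0_3 h) (refs_cons (d_NL_450_450_0_4 h) (refs_cons (d_NL_450_450_0_5 h) (refs_cons (d_NL_450_450_0_6 h) (refs_cons (d_NL_450_450_0_7 h) (refs_cons (d_NL_450_450_0_8 h) (refs_cons (d_NL_450_450_0_9 h) (refs_cons (d_NL_450_450_0_10 h) (refs_cons (d_NL_450_450_0_11 h) (refs_cons (d_NL_450_450_0_12 h) (refs_nil)))))))))))))) (T :=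
(.st (nat_lit 0)
(.gv
(.st (nat_lit 1)
(.ref (nat_lit 0))
(.spl (nat_lit 0) (nat_lit 190)
(.ord (.leaf t00_l0))
(.spl (nat_lit 2) (nat_lit 240)
(.spl (nat_lit 2) (nat_lit 160)
(.spl (nat_lit 7) (nat_lit 600)
(.spl (nat_lit 1) (nat_lit 190)
(.spl (nat_lit 6) (nat_lit 4)
(.spl (nat_lit 8) (nat_lit 800)
(.spl (nat_lit 2) (nat_lit 80)
(.spl (nat_lit 2) (nat_lit 40)
(.spl (nat_lit 8) (nat_lit 400)
(.ref (nat_lit 1))
(.ref (nat_lit 2)))
(.spl (nat_lit 2) (nat_lit 60)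
(.leaf t00_l1)
(.leaf t00_l2)))
(.leaf t00_l3))
(.leaf t00_l4))
(.leaf t00_l5))
(.ref (nat_lit 3)))
(.leaf t00_l6))
(.leaf t00_l7))
(.leaf t00_l8))))
(.st (nat_lit 1)
(.ref (nat_lit 4))
(.spl (nat_lit 0) (nat_lit 190)
(.ord (.leaf t00_l9))
(.spl (nat_lit 2) (nat_lit 240)
(.spl (nat_lit 2) (nat_lit 160)
(.spl (nat_lit 7) (nat_lit 600)
(.spl (nat_lit 1) (nat_lit 190)
(.ref (nat_lit 5))
(.ref (nat_lit 6)))
(.leaf t00_l10))
(.leaf t00_l11))
(.leaf t00_l12)))))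
(.gv
(.st (nat_lit 1)
(.ref (nat_lit 7))
(.spl (nat_lit 0) (nat_lit 190)
(.ord (.leaf t00_l13))
(.spl (nat_lit 2) (nat_lit 240)
(.spl (nat_lit 2) (nat_lit 160)
(.spl (nat_lit 8) (nat_lit 800)
(.spl (nat_lit 8) (nat_lit 400)
(.ref (nat_lit 8))
(.ref (nat_lit 9)))
(.leaf t00_l14))
(.spl (nat_lit 7) (nat_lit 600)
(.leaf t00_l15)
(.leaf t00_l16)))
(.leaf t00_l17))))
(.st (nat_lit 1)
(.ref (nat_lit 10))
(.spl (nat_lit 0) (nat_lit 190)
(.ord (.leaf t00_l18))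
(.spl (nat_lit 2) (nat_lit 240)
(.spl (nat_lit 2) (nat_lit 160)
(.spl (nat_lit 8) (nat_lit 800)
(.spl (nat_lit 8) (nat_lit 400)
(.ref (nat_lit 11))
(.ref (nat_lit 12)))
(.leaf t00_l19))
(.spl (nat_lit 7) (nat_lit 600)
(.leaf t00_l20)
(.leaf t00_l21)))
(.leaf t00_l22))))))) (by decide +kernel)
theorem done_NL_450_450_0 (h : EB TB.env) : RC.Done ⟨false, 20, 180, 200, 180, 200, 0, 0, [8]⟩ := RC.done1 (r_NL_450_450_0 h) (t_NL_450_450_0 h)
theorem t_NL_500_400_0 (h : EB TB.env) : RC.Tail ⟨false, 20, 200, 220, 160, 180, 0, 0, [8]⟩ := RC.tail_chk h (b := ⟨nat_lit 20, nat_lit 4, nat_lit 5, nat_lit 5, nat_lit 20, nat_lit 203, nat_lit 0, nat_lit 33, nat_lit 0⟩) (by decide +kernel)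
theorem r_NL_500_400_0 (h : EB TB.env) : Dead (RC.box ⟨false, 20, 200, 220, 160, 180, 0, 0, [8]⟩ 0 8) := chkB_sound h (refs := [b_NL_500_400_0_0]) (refs_cons (d_NL_500_400_0_0 h) (refs_nil)) (T :=
(.ref (nat_lit 0))) (by decide +kernel)
theorem done_NL_500_400_0 (h : EB TB.env) : RC.Done ⟨false, 20, 200, 220, 160, 180, 0, 0, [8]⟩ := RC.done1 (r_NL_500_400_0 h) (t_NL_500_400_0 h)
theorem t_NL_500_450_0 (h : EB TB.env) : RC.Tail ⟨false, 20, 200, 220, 180, 200, 0, 0, [16]⟩ := RC.tail_chk h (b := ⟨nat_lit 20, nat_lit 8, nat_lit 5, nat_lit 5, nat_lit 20, nat_lit 203, nat_lit 0, nat_lit 33, nat_lit 0⟩) (by decide +kernel)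
theorem r_NL_500_450_0 (h : EB TB.env) : Dead (RC.box ⟨false, 20, 200, 220, 180, 200, 0, 0, [16]⟩ 0 16) := chkB_sound h (refs := [b_NL_500_450_0_0, b_NL_500_450_0_1, b_NL_500_450_0_2, b_NL_500_450_0_3]) (refs_cons (d_NL_500_450_0_0 h) (refs_cons (d_NL_500_450_0_1 h) (refs_cons (d_NL_500_450_0_2 h) (refs_cons (d_NL_500_450_0_3 h) (refs_nil))))) (T :=
(.st (nat_lit 0)
(.ref (nat_lit 0))
(.gv
(.st (nat_lit 1)
(.ref (nat_lit 1))
(.ref (nat_lit 2)))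
(.ref (nat_lit 3))))) (by decide +kernel)
theorem done_NL_500_450_0 (h : EB TB.env) : RC.Done ⟨false, 20, 200, 220, 180, 200, 0, 0, [16]⟩ := RC.done1 (r_NL_500_450_0 h) (t_NL_500_450_0 h)
theorem t_NL_500_500_0 (h : EB TB.env) : RC.Tail ⟨false, 20, 200, 220, 200, 220, 0, 0, [20]⟩ := RC.tail_chk h (b := ⟨nat_lit 20, nat_lit 10, nat_lit 5, nat_lit 5, nat_lit 20, nat_lit 203, nat_lit 0, nat_lit 32, nat_lit 0⟩) (by decide +kernel)
noncomputable def t00_l23 : Lf2 := ⟨nat_lit 0, nat_lit 3, [nat_lit 45, nat_lit 5, nat_lit 5, nat_lit 20], true, nat_lit 0, nat_lit 0, nat_lit 0, nat_lit 0, ⟨nat_lit 0, nat_lit 0, nat_lit 1000, nat_lit 5, nat_lit 42, nat_lit 0, nat_lit 0, nat_lit 0, nat_lit 0, nat_lit 215, nat_lit 16017, nat_lit 246, nat_lit 66283611, nat_lit 0, nat_lit 0, nat_lit 295612, false, false⟩,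
 nat_lit 0, nat_lit 12295, nat_lit 0, nat_lit 0, nat_lit 5269, nat_lit 0, nat_lit 808, nat_lit 0, nat_lit 0, nat_lit 0, nat_lit 0, nat_lit 0, nat_lit 0, nat_lit 26305221720955, nat_lit 90, nat_lit 1000000, nat_lit 0, nat_lit 0, [(nat_lit 0, [(nat_lit 6, nat_lit 1000)])],
 ⟨t00_k9, nat_lit 0, nat_lit 0, nat_lit 306, nat_lit 0, nat_lit 34035, [nat_lit 2618000001, nat_lit 1352800000, nat_lit 26400000], [], [nat_lit 13344096325, nat_lit 13744604330, nat_lit 12139308578, nat_lit 12022057717], nat_lit 1271250, nat_lit 1271250, nat_lit 0, nat_lit 230001, nat_lit 0, nat_lit 0, [nat_lit 1412500, nat_lit 1271250, nat_lit 1271250], [nat_lit 25, nat_lit 40, nat_lit 20, nat_lit 80, nat_lit 17, nat_lit 289, nat_lit 75, nat_lit 9]⟩, C1.Rw.none,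
 ⟨nat_lit 6892, nat_lit 7072, ⟨.ofNat (nat_lit 48814), .ofNat (nat_lit 139051), .ofNat (nat_lit 59588), .ofNat (nat_lit 149825), .ofNat (nat_lit 59146), .ofNat (nat_lit 147316), .ofNat (nat_lit 69890), .ofNat (nat_lit 158060)⟩, ⟨.ofNat (nat_lit 0), .ofNat (nat_lit 0), .ofNat (nat_lit 0), .ofNat (nat_lit 0), .ofNat (nat_lit 0), .ofNat (nat_lit 0), .ofNat (nat_lit 0), .ofNat (nat_lit 0)⟩⟩, [⟨nat_lit 0, nat_lit 100, nat_lit 100, nat_lit 10, nat_lit 321612307⟩]⟩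
noncomputable def t00_l24 : Lf2 := ⟨nat_lit 1, nat_lit 5, [nat_lit 4, nat_lit 5, nat_lit 5, nat_lit 20], false, nat_lit 0, nat_lit 0, nat_lit 0, nat_lit 0, zbN0,
 nat_lit 0, nat_lit 0, nat_lit 0, nat_lit 0, nat_lit 0, nat_lit 0, nat_lit 0, nat_lit 0, nat_lit 0, nat_lit 0, nat_lit 0, nat_lit 0, nat_lit 0, nat_lit 0, nat_lit 0, nat_lit 0, nat_lit 0, nat_lit 0, [],
 C1.Rw.none, C1.Rw.none,
 zbF0, []⟩
noncomputable def t00_l25 : Lf2 := ⟨nat_lit 0, nat_lit 5, [nat_lit 4, nat_lit 5, nat_lit 5, nat_lit 20], true, nat_lit 0, nat_lit 0, nat_lit 0, nat_lit 0, ⟨nat_lit 0, nat_lit 0, nat_lit 1000, nat_lit 5, nat_lit 45, nat_lit 0, nat_lit 0, nat_lit 0, nat_lit 0, nat_lit 215, nat_lit 18150, nat_lit 248, nat_lit 66176045, nat_lit 0, nat_lit 0, nat_lit 331419, false, false⟩,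
 nat_lit 0, nat_lit 11813, nat_lit 0, nat_lit 339, nat_lit 5354, nat_lit 0, nat_lit 1035, nat_lit 0, nat_lit 0, nat_lit 0, nat_lit 0, nat_lit 0, nat_lit 0, nat_lit 25676534234907, nat_lit 90, nat_lit 1000000, nat_lit 0, nat_lit 0, [(nat_lit 0, [(nat_lit 6, nat_lit 1000)])],
 ⟨t00_k10, nat_lit 0, nat_lit 0, nat_lit 319, nat_lit 0, nat_lit 61297, [nat_lit 2618000001, nat_lit 1352800000, nat_lit 26400000], [], [nat_lit 13099546266, nat_lit 13233634338, nat_lit 11366510588, nat_lit 11498532892], nat_lit 1271250, nat_lit 1271250, nat_lit 0, nat_lit 230001, nat_lit 0, nat_lit 0, [nat_lit 1412500, nat_lit 1271250, nat_lit 1271250], [nat_lit 25, nat_lit 40, nat_lit 20, nat_lit 80, nat_lit 17, nat_lit 289, nat_lit 75, nat_lit 9]⟩, C1.Rw.none,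
 ⟨nat_lit 6837, nat_lit 6893, ⟨.ofNat (nat_lit 59146), .ofNat (nat_lit 147316), .ofNat (nat_lit 73113), .ofNat (nat_lit 161284), .ofNat (nat_lit 62194), .ofNat (nat_lit 149755), .ofNat (nat_lit 76151), .ofNat (nat_lit 163712)⟩, ⟨.ofNat (nat_lit 0), .ofNat (nat_lit 0), .ofNat (nat_lit 0), .ofNat (nat_lit 0), .ofNat (nat_lit 0), .ofNat (nat_lit 0), .ofNat (nat_lit 0), .ofNat (nat_lit 0)⟩⟩, [⟨nat_lit 0, nat_lit 100, nat_lit 100, nat_lit 13, nat_lit 323811273⟩]⟩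
noncomputable def t00_l26 : Lf2 := ⟨nat_lit 0, nat_lit 4, [nat_lit 38, nat_lit 5, nat_lit 5, nat_lit 20], true, nat_lit 0, nat_lit 0, nat_lit 0, nat_lit 0, ⟨nat_lit 0, nat_lit 0, nat_lit 1000, nat_lit 5, nat_lit 46, nat_lit 0, nat_lit 0, nat_lit 0, nat_lit 0, nat_lit 215, nat_lit 19267, nat_lit 249, nat_lit 66126483, nat_lit 0, nat_lit 0, nat_lit 347546, false, false⟩,
 nat_lit 0, nat_lit 11487, nat_lit 0, nat_lit 0, nat_lit 5292, nat_lit 0, nat_lit 970, nat_lit 0, nat_lit 0, nat_lit 0, nat_lit 0, nat_lit 0, nat_lit 0, nat_lit 24702746293681, nat_lit 90, nat_lit 1000000, nat_lit 0, nat_lit 0, [(nat_lit 0, [(nat_lit 6, nat_lit 1000)])],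
 ⟨t00_k11, nat_lit 0, nat_lit 0, nat_lit 325, nat_lit 0, nat_lit 72613, [nat_lit 2618000001, nat_lit 1352800000, nat_lit 26400000], [], [nat_lit 13233349630, nat_lit 13322739728, nat_lit 11524998723, nat_lit 11612640984], nat_lit 1271250, nat_lit 1271250, nat_lit 0, nat_lit 230001, nat_lit 0, nat_lit 0, [nat_lit 1412500, nat_lit 1271250, nat_lit 1271250], [nat_lit 25, nat_lit 40, nat_lit 20, nat_lit 80, nat_lit 17, nat_lit 289, nat_lit 75, nat_lit 9]⟩, C1.Rw.none,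
 ⟨nat_lit 6800, nat_lit 6838, ⟨.ofNat (nat_lit 62194), .ofNat (nat_lit 149755), .ofNat (nat_lit 78299), .ofNat (nat_lit 165859), .ofNat (nat_lit 64214), .ofNat (nat_lit 151371), .ofNat (nat_lit 80311), .ofNat (nat_lit 167468)⟩, ⟨.ofNat (nat_lit 0), .ofNat (nat_lit 0), .ofNat (nat_lit 0), .ofNat (nat_lit 0), .ofNat (nat_lit 0), .ofNat (nat_lit 0), .ofNat (nat_lit 0), .ofNat (nat_lit 0)⟩⟩, [⟨nat_lit 0, nat_lit 100, nat_lit 100, nat_lit 15, nat_lit 320466997⟩]⟩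
noncomputable def t00_l27 : Lf2 := ⟨nat_lit 1, nat_lit 5, [nat_lit 4, nat_lit 5, nat_lit 5, nat_lit 20], false, nat_lit 0, nat_lit 0, nat_lit 0, nat_lit 0, zbN0,
 nat_lit 0, nat_lit 0, nat_lit 0, nat_lit 0, nat_lit 0, nat_lit 0, nat_lit 0, nat_lit 0, nat_lit 0, nat_lit 0, nat_lit 0, nat_lit 0, nat_lit 0, nat_lit 0, nat_lit 0, nat_lit 0, nat_lit 0, nat_lit 0, [],
 C1.Rw.none, C1.Rw.none,
 zbF0, []⟩
noncomputable def t00_l28 : Lf2 := ⟨nat_lit 0, nat_lit 5, [nat_lit 4, nat_lit 5, nat_lit 5, nat_lit 20], true, nat_lit 0, nat_lit 0, nat_lit 0, nat_lit 0, ⟨nat_lit 0, nat_lit 0, nat_lit 1000, nat_lit 5, nat_lit 37, nat_lit 0, nat_lit 0, nat_lit 0, nat_lit 0, nat_lit 215, nat_lit 13067, nat_lit 243, nat_lit 66416334, nat_lit 0, nat_lit 0, nat_lit 249687, false, false⟩,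
 nat_lit 0, nat_lit 11169, nat_lit 0, nat_lit 43, nat_lit 5201, nat_lit 0, nat_lit 898, nat_lit 0, nat_lit 0, nat_lit 0, nat_lit 0, nat_lit 0, nat_lit 0, nat_lit 0, nat_lit 90, nat_lit 1000000, nat_lit 0, nat_lit 0, [(nat_lit 0, [(nat_lit 6, nat_lit 1000)])],
 ⟨t00_k12, nat_lit 0, nat_lit 0, nat_lit 328, nat_lit 0, nat_lit 77723, [nat_lit 2618000001, nat_lit 1352800000, nat_lit 26400000], [], [nat_lit 13416680398, nat_lit 13637822678, nat_lit 12338035279, nat_lit 12558404182], nat_lit 1271250, nat_lit 1271250, nat_lit 0, nat_lit 111251, nat_lit 0, nat_lit 0, [nat_lit 1412500, nat_lit 1271250, nat_lit 1271250], [nat_lit 25, nat_lit 40, nat_lit 20, nat_lit 80, nat_lit 17, nat_lit 272, nat_lit 60, nat_lit 9]⟩, C1.Rw.none,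
 ⟨nat_lit 6708, nat_lit 6801, ⟨.ofNat (nat_lit 64214), .ofNat (nat_lit 107793), .ofNat (nat_lit 74945), .ofNat (nat_lit 118524), .ofNat (nat_lit 69221), .ofNat (nat_lit 112299), .ofNat (nat_lit 79940), .ofNat (nat_lit 123018)⟩, ⟨.ofNat (nat_lit 0), .ofNat (nat_lit 0), .ofNat (nat_lit 0), .ofNat (nat_lit 0), .ofNat (nat_lit 0), .ofNat (nat_lit 0), .ofNat (nat_lit 0), .ofNat (nat_lit 0)⟩⟩, [⟨nat_lit 0, nat_lit 100, nat_lit 100, nat_lit 15, nat_lit 371462727⟩]⟩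
noncomputable def t00_l29 : Lf2 := ⟨nat_lit 0, nat_lit 4, [nat_lit 38, nat_lit 5, nat_lit 5, nat_lit 20], true, nat_lit 0, nat_lit 0, nat_lit 0, nat_lit 0, ⟨nat_lit 0, nat_lit 0, nat_lit 1000, nat_lit 5, nat_lit 41, nat_lit 0, nat_lit 0, nat_lit 0, nat_lit 0, nat_lit 215, nat_lit 16017, nat_lit 246, nat_lit 66312943, nat_lit 0, nat_lit 0, nat_lit 285637, false, false⟩,
 nat_lit 0, nat_lit 11169, nat_lit 0, nat_lit 0, nat_lit 5201, nat_lit 0, nat_lit 898, nat_lit 0, nat_lit 0, nat_lit 0, nat_lit 0, nat_lit 0, nat_lit 0, nat_lit 0, nat_lit 90, nat_lit 1000000, nat_lit 0, nat_lit 0, [(nat_lit 0, [(nat_lit 6, nat_lit 1000)])],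
 ⟨t00_k13, nat_lit 0, nat_lit 0, nat_lit 334, nat_lit 0, nat_lit 93156, [nat_lit 2618000001, nat_lit 1352800000, nat_lit 26400000], [], [nat_lit 13416680398, nat_lit 13637822678, nat_lit 12338035279, nat_lit 12558404182], nat_lit 1271250, nat_lit 1271250, nat_lit 0, nat_lit 111251, nat_lit 0, nat_lit 0, [nat_lit 1412500, nat_lit 1271250, nat_lit 1271250], [nat_lit 25, nat_lit 40, nat_lit 20, nat_lit 80, nat_lit 17, nat_lit 272, nat_lit 60, nat_lit 9]⟩, C1.Rw.none,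
 ⟨nat_lit 6708, nat_lit 6801, ⟨.ofNat (nat_lit 74945), .ofNat (nat_lit 118524), .ofNat (nat_lit 80311), .ofNat (nat_lit 123889), .ofNat (nat_lit 79940), .ofNat (nat_lit 123018), .ofNat (nat_lit 85300), .ofNat (nat_lit 128378)⟩, ⟨.ofNat (nat_lit 0), .ofNat (nat_lit 0), .ofNat (nat_lit 0), .ofNat (nat_lit 0), .ofNat (nat_lit 0), .ofNat (nat_lit 0), .ofNat (nat_lit 0), .ofNat (nat_lit 0)⟩⟩, [⟨nat_lit 0, nat_lit 100, nat_lit 100, nat_lit 17, nat_lit 374435109⟩]⟩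
noncomputable def t00_l30 : Lf2 := ⟨nat_lit 0, nat_lit 5, [nat_lit 4, nat_lit 5, nat_lit 5, nat_lit 20], true, nat_lit 0, nat_lit 0, nat_lit 0, nat_lit 0, ⟨nat_lit 0, nat_lit 0, nat_lit 1000, nat_lit 5, nat_lit 41, nat_lit 0, nat_lit 0, nat_lit 0, nat_lit 0, nat_lit 215, nat_lit 16017, nat_lit 246, nat_lit 66312943, nat_lit 0, nat_lit 0, nat_lit 285637, false, false⟩,
 nat_lit 0, nat_lit 9789, nat_lit 0, nat_lit 728, nat_lit 4558, nat_lit 0, nat_lit 594, nat_lit 0, nat_lit 0, nat_lit 0, nat_lit 0, nat_lit 0, nat_lit 0, nat_lit 0, nat_lit 90, nat_lit 1000000, nat_lit 0, nat_lit 0, [(nat_lit 0, [(nat_lit 6, nat_lit 1000)])],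
 ⟨t00_k12, nat_lit 0, nat_lit 0, nat_lit 300, nat_lit 0, nat_lit 15101, [nat_lit 2618000001, nat_lit 1352800000, nat_lit 26400000], [], [nat_lit 13475794742, nat_lit 13717453025, nat_lit 12327501162, nat_lit 12580559669], nat_lit 1271250, nat_lit 1271250, nat_lit 0, nat_lit 111251, nat_lit 0, nat_lit 0, [nat_lit 1412500, nat_lit 1271250, nat_lit 1271250], [nat_lit 25, nat_lit 40, nat_lit 20, nat_lit 80, nat_lit 17, nat_lit 272, nat_lit 60, nat_lit 9]⟩, C1.Rw.none,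
 ⟨nat_lit 6708, nat_lit 6801, ⟨.ofNat (nat_lit 74945), .ofNat (nat_lit 118524), .ofNat (nat_lit 80311), .ofNat (nat_lit 123889), .ofNat (nat_lit 79940), .ofNat (nat_lit 123018), .ofNat (nat_lit 85300), .ofNat (nat_lit 128378)⟩, ⟨.ofNat (nat_lit 0), .ofNat (nat_lit 0), .ofNat (nat_lit 0), .ofNat (nat_lit 0), .ofNat (nat_lit 0), .ofNat (nat_lit 0), .ofNat (nat_lit 0), .ofNat (nat_lit 0)⟩⟩, [⟨nat_lit 0, nat_lit 100, nat_lit 100, nat_lit 17, nat_lit 388843843⟩]⟩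
noncomputable def t00_l31 : Lf2 := ⟨nat_lit 0, nat_lit 5, [nat_lit 4, nat_lit 5, nat_lit 5, nat_lit 20], true, nat_lit 0, nat_lit 0, nat_lit 0, nat_lit 0, ⟨nat_lit 0, nat_lit 0, nat_lit 1000, nat_lit 5, nat_lit 38, nat_lit 0, nat_lit 0, nat_lit 0, nat_lit 0, nat_lit 215, nat_lit 14017, nat_lit 244, nat_lit 66392941, nat_lit 0, nat_lit 0, nat_lit 257939, false, false⟩,
 nat_lit 0, nat_lit 2818, nat_lit 0, nat_lit 0, nat_lit 1333, nat_lit 0, nat_lit 0, nat_lit 0, nat_lit 236, nat_lit 0, nat_lit 0, nat_lit 0, nat_lit 0, nat_lit 14573860359784, nat_lit 54, nat_lit 400000, nat_lit 0, nat_lit 0, [(nat_lit 0, [(nat_lit 5, nat_lit 1000)])],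
 ⟨t00_k14, nat_lit 0, nat_lit 0, nat_lit 0, nat_lit 0, nat_lit 117210, [nat_lit 2480000000, nat_lit 712400000, nat_lit 13600000], [], [nat_lit 7375040295, nat_lit 7457063226, nat_lit 7312893858, nat_lit 7394780463], nat_lit 1271250, nat_lit 1271250, nat_lit 0, nat_lit 43600, nat_lit 0, nat_lit 0, [nat_lit 1412500, nat_lit 1271250, nat_lit 1271250], [nat_lit 25, nat_lit 40, nat_lit 20, nat_lit 80]⟩, C1.Rw.none,
 ⟨nat_lit 6708, nat_lit 6746, ⟨.ofNat (nat_lit 83311), .ofNat (nat_lit 100622), .ofNat (nat_lit 88673), .ofNat (nat_lit 105984), .ofNat (nat_lit 85300), .ofNat (nat_lit 102531), .ofNat (nat_lit 90659), .ofNat (nat_lit 107890)⟩, ⟨.ofNat (nat_lit 0), .ofNat (nat_lit 0), .ofNat (nat_lit 0), .ofNat (nat_lit 0), .ofNat (nat_lit 0), .ofNat (nat_lit 0), .ofNat (nat_lit 0), .ofNat (nat_lit 0)⟩⟩, [⟨nat_lit 0, nat_lit 100, nat_lit 100, nat_lit 20, nat_lit 143656264⟩]⟩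
noncomputable def t00_l32 : Lf2 := ⟨nat_lit 0, nat_lit 5, [nat_lit 4, nat_lit 5, nat_lit 5, nat_lit 20], true, nat_lit 0, nat_lit 0, nat_lit 0, nat_lit 0, ⟨nat_lit 0, nat_lit 0, nat_lit 1000, nat_lit 5, nat_lit 38, nat_lit 0, nat_lit 0, nat_lit 0, nat_lit 0, nat_lit 215, nat_lit 14017, nat_lit 244, nat_lit 66392941, nat_lit 0, nat_lit 0, nat_lit 257939, false, false⟩,
 nat_lit 0, nat_lit 6072, nat_lit 0, nat_lit 0, nat_lit 2873, nat_lit 0, nat_lit 0, nat_lit 0, nat_lit 97, nat_lit 0, nat_lit 0, nat_lit 0, nat_lit 0, nat_lit 18616830117052, nat_lit 90, nat_lit 1000000, nat_lit 0, nat_lit 0, [(nat_lit 0, [(nat_lit 6, nat_lit 1000)])],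
 ⟨t00_k14, nat_lit 0, nat_lit 0, nat_lit 0, nat_lit 0, nat_lit 117210, [nat_lit 2618000001, nat_lit 1352800000, nat_lit 26400000], [], [nat_lit 10674001573, nat_lit 10757079108, nat_lit 10418849246, nat_lit 10507978329], nat_lit 1271250, nat_lit 1271250, nat_lit 0, nat_lit 43600, nat_lit 0, nat_lit 0, [nat_lit 1412500, nat_lit 1271250, nat_lit 1271250], [nat_lit 25, nat_lit 40, nat_lit 20, nat_lit 80]⟩, C1.Rw.none,
 ⟨nat_lit 6708, nat_lit 6746, ⟨.ofNat (nat_lit 83311), .ofNat (nat_lit 100622), .ofNat (nat_lit 88673), .ofNat (nat_lit 105984), .ofNat (nat_lit 85300), .ofNat (nat_lit 102531), .ofNat (nat_lit 90659), .ofNat (nat_lit 107890)⟩, ⟨.ofNat (nat_lit 0), .ofNat (nat_lit 0), .ofNat (nat_lit 0), .ofNat (nat_lit 0), .ofNat (nat_lit 0), .ofNat (nat_lit 0), .ofNat (nat_lit 0), .ofNat (nat_lit 0)⟩⟩, [⟨nat_lit 0, nat_lit 100, nat_lit 100, nat_lit 20, nat_lit 260420469⟩]⟩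
noncomputable def t00_l33 : Lf2 := ⟨nat_lit 0, nat_lit 5, [nat_lit 4, nat_lit 5, nat_lit 5, nat_lit 20], true, nat_lit 0, nat_lit 0, nat_lit 0, nat_lit 0, ⟨nat_lit 0, nat_lit 0, nat_lit 1000, nat_lit 5, nat_lit 38, nat_lit 0, nat_lit 0, nat_lit 0, nat_lit 0, nat_lit 215, nat_lit 14017, nat_lit 244, nat_lit 66392941, nat_lit 0, nat_lit 0, nat_lit 257939, false, false⟩,
 nat_lit 0, nat_lit 100000, nat_lit 0, nat_lit 0, nat_lit 47322, nat_lit 0, nat_lit 17671, nat_lit 2035, nat_lit 0, nat_lit 0, nat_lit 0, nat_lit 0, nat_lit 0, nat_lit 130809168059166, nat_lit 0, nat_lit 818200, nat_lit 0, nat_lit 0, [(nat_lit 0, [(nat_lit 5, nat_lit 303), (nat_lit 6, nat_lit 697)])],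
 ⟨t00_k14, nat_lit 0, nat_lit 0, nat_lit 0, nat_lit 0, nat_lit 117210, [nat_lit 41694346000, nat_lit 48100550800, nat_lit 54787945600], [], [nat_lit 72369728749, nat_lit 72804894710, nat_lit 67621770369, nat_lit 67906014298], nat_lit 1271250, nat_lit 1271250, nat_lit 0, nat_lit 43600, nat_lit 0, nat_lit 0, [nat_lit 1412500, nat_lit 1271250, nat_lit 1271250], [nat_lit 25, nat_lit 40, nat_lit 20, nat_lit 80]⟩, C1.Rw.none,
 ⟨nat_lit 6708, nat_lit 6746, ⟨.ofNat (nat_lit 83311), .ofNat (nat_lit 100622), .ofNat (nat_lit 88673), .ofNat (nat_lit 105984), .ofNat (nat_lit 85300), .ofNat (nat_lit 102531), .ofNat (nat_lit 90659), .ofNat (nat_lit 107890)⟩, ⟨.ofNat (nat_lit 0), .ofNat (nat_lit 0), .ofNat (nat_lit 0), .ofNat (nat_lit 0), .ofNat (nat_lit 0), .ofNat (nat_lit 0), .ofNat (nat_lit 0), .ofNat (nat_lit 0)⟩⟩, [⟨nat_lit 0, nat_lit 100, nat_lit 100, nat_lit 20, nat_lit 3161173848⟩]⟩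
noncomputable def t00_l34 : Lf2 := ⟨nat_lit 0, nat_lit 5, [nat_lit 4, nat_lit 5, nat_lit 5, nat_lit 20], true, nat_lit 0, nat_lit 0, nat_lit 0, nat_lit 0, ⟨nat_lit 0, nat_lit 0, nat_lit 1000, nat_lit 5, nat_lit 38, nat_lit 0, nat_lit 0, nat_lit 0, nat_lit 0, nat_lit 215, nat_lit 14017, nat_lit 244, nat_lit 66392941, nat_lit 0, nat_lit 0, nat_lit 257939, false, false⟩,
 nat_lit 0, nat_lit 100000, nat_lit 0, nat_lit 100000, nat_lit 47322, nat_lit 0, nat_lit 34288, nat_lit 1842, nat_lit 0, nat_lit 0, nat_lit 0, nat_lit 0, nat_lit 0, nat_lit 0, nat_lit 0, nat_lit 1000000, nat_lit 0, nat_lit 0, [(nat_lit 0, [(nat_lit 6, nat_lit 1000)])],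
 ⟨t00_k14, nat_lit 0, nat_lit 0, nat_lit 345, nat_lit 0, nat_lit 117210, [nat_lit 37658000001, nat_lit 43400800001, nat_lit 49082400000], [], [nat_lit 48467798679, nat_lit 48981087618, nat_lit 42844171022, nat_lit 43355615297], nat_lit 1271250, nat_lit 1271250, nat_lit 0, nat_lit 43600, nat_lit 0, nat_lit 0, [nat_lit 1412500, nat_lit 1271250, nat_lit 1271250], [nat_lit 25, nat_lit 40, nat_lit 20, nat_lit 80, nat_lit 17, nat_lit 272, nat_lit 60, nat_lit 8]⟩, C1.Rw.none,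
 ⟨nat_lit 6708, nat_lit 6746, ⟨.ofNat (nat_lit 83311), .ofNat (nat_lit 100622), .ofNat (nat_lit 88673), .ofNat (nat_lit 105984), .ofNat (nat_lit 85300), .ofNat (nat_lit 102531), .ofNat (nat_lit 90659), .ofNat (nat_lit 107890)⟩, ⟨.ofNat (nat_lit 0), .ofNat (nat_lit 0), .ofNat (nat_lit 0), .ofNat (nat_lit 0), .ofNat (nat_lit 0), .ofNat (nat_lit 0), .ofNat (nat_lit 0), .ofNat (nat_lit 0)⟩⟩, [⟨nat_lit 0, nat_lit 100, nat_lit 100, nat_lit 18, nat_lit 4402535861⟩]⟩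
noncomputable def t00_l35 : Lf2 := ⟨nat_lit 0, nat_lit 4, [nat_lit 38, nat_lit 5, nat_lit 5, nat_lit 20], false, nat_lit 0, nat_lit 0, nat_lit 0, nat_lit 0, ⟨nat_lit 21, nat_lit 0, nat_lit 979, nat_lit 5, nat_lit 47, nat_lit 0, nat_lit 0, nat_lit 0, nat_lit 0, nat_lit 215, nat_lit 20417, nat_lit 250, nat_lit 66092014, nat_lit 0, nat_lit 0, nat_lit 358634, false, false⟩,
 nat_lit 0, nat_lit 11540, nat_lit 0, nat_lit 0, nat_lit 5461, nat_lit 91, nat_lit 1009, nat_lit 0, nat_lit 0, nat_lit 66, nat_lit 0, nat_lit 0, nat_lit 0, nat_lit 28151044422974, nat_lit 80, nat_lit 979000, nat_lit 0, nat_lit 0, [(nat_lit 0, [(nat_lit 6, nat_lit 979)])],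
 ⟨t00_k15, nat_lit 0, nat_lit 0, nat_lit 330, nat_lit 0, nat_lit 112102, [nat_lit 2532072000, nat_lit 1297079200, nat_lit 5447600], [], [nat_lit 12948329456, nat_lit 13039062755, nat_lit 12261036357, nat_lit 12350775430], nat_lit 1271250, nat_lit 1271250, nat_lit 43600, nat_lit 111251, nat_lit 0, nat_lit 0, [nat_lit 1412500, nat_lit 1271250, nat_lit 1271250], [nat_lit 25, nat_lit 40, nat_lit 20, nat_lit 80, nat_lit 17, nat_lit 272, nat_lit 60, nat_lit 8]⟩, ⟨t00_k16, nat_lit 0, nat_lit 0, nat_lit 0, nat_lit 0, nat_lit 0, [nat_lit 55387500, nat_lit 131250000, nat_lit 167328000, nat_lit 206682000], [], [nat_lit 405532469, nat_lit 412048882, nat_lit 391449014, nat_lit 397961922], nat_lit 0, nat_lit 0, nat_lit 0, nat_lit 0, nat_lit 0, nat_lit 0, [], [nat_lit 130, nat_lit 40, nat_lit 20, nat_lit 40]⟩,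
 ⟨nat_lit 6708, nat_lit 6746, ⟨.ofNat (nat_lit 100622), .ofNat (nat_lit 126589), .ofNat (nat_lit 105984), .ofNat (nat_lit 131950), .ofNat (nat_lit 102531), .ofNat (nat_lit 128378), .ofNat (nat_lit 107890), .ofNat (nat_lit 133737)⟩, ⟨.ofNat (nat_lit 0), .ofNat (nat_lit 0), .ofNat (nat_lit 0), .ofNat (nat_lit 0), .ofNat (nat_lit 0), .ofNat (nat_lit 0), .ofNat (nat_lit 0), .ofNat (nat_lit 0)⟩⟩, []⟩
noncomputable def t00_l36 : Lf2 := ⟨nat_lit 0, nat_lit 5, [nat_lit 4, nat_lit 5, nat_lit 5, nat_lit 20], true, nat_lit 0, nat_lit 0, nat_lit 0, nat_lit 0, ⟨nat_lit 0, nat_lit 0, nat_lit 1000, nat_lit 5, nat_lit 47, nat_lit 0, nat_lit 0, nat_lit 0, nat_lit 0, nat_lit 215, nat_lit 20417, nat_lit 250, nat_lit 66092014, nat_lit 0, nat_lit 0, nat_lit 358634, false, false⟩,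
 nat_lit 0, nat_lit 9884, nat_lit 0, nat_lit 435, nat_lit 4677, nat_lit 0, nat_lit 609, nat_lit 0, nat_lit 0, nat_lit 0, nat_lit 0, nat_lit 0, nat_lit 0, nat_lit 26430462271957, nat_lit 90, nat_lit 1000000, nat_lit 0, nat_lit 0, [(nat_lit 0, [(nat_lit 6, nat_lit 1000)])],
 ⟨t00_k14, nat_lit 0, nat_lit 0, nat_lit 296, nat_lit 0, nat_lit 34913, [nat_lit 2618000001, nat_lit 1352800000, nat_lit 26400000], [], [nat_lit 13011461153, nat_lit 13107226032, nat_lit 12300883228, nat_lit 12403451393], nat_lit 1271250, nat_lit 1271250, nat_lit 43600, nat_lit 111251, nat_lit 0, nat_lit 0, [nat_lit 1412500, nat_lit 1271250, nat_lit 1271250], [nat_lit 25, nat_lit 40, nat_lit 20, nat_lit 80, nat_lit 17, nat_lit 272, nat_lit 60, nat_lit 8]⟩, C1.Rw.none,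
 ⟨nat_lit 6708, nat_lit 6746, ⟨.ofNat (nat_lit 100622), .ofNat (nat_lit 126589), .ofNat (nat_lit 105984), .ofNat (nat_lit 131950), .ofNat (nat_lit 102531), .ofNat (nat_lit 128378), .ofNat (nat_lit 107890), .ofNat (nat_lit 133737)⟩, ⟨.ofNat (nat_lit 0), .ofNat (nat_lit 0), .ofNat (nat_lit 0), .ofNat (nat_lit 0), .ofNat (nat_lit 0), .ofNat (nat_lit 0), .ofNat (nat_lit 0), .ofNat (nat_lit 0)⟩⟩, []⟩
noncomputable def t00_l37 : Lf2 := ⟨nat_lit 0, nat_lit 5, [nat_lit 4, nat_lit 5, nat_lit 5, nat_lit 20], true, nat_lit 0, nat_lit 0, nat_lit 0, nat_lit 0, ⟨nat_lit 0, nat_lit 0, nat_lit 1000, nat_lit 5, nat_lit 57, nat_lit 0, nat_lit 0, nat_lit 0, nat_lit 0, nat_lit 215, nat_lit 30817, nat_lit 258, nat_lit 65667750, nat_lit 0, nat_lit 0, nat_lit 487889, false, false⟩,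
 nat_lit 0, nat_lit 12106, nat_lit 0, nat_lit 0, nat_lit 5637, nat_lit 0, nat_lit 1093, nat_lit 0, nat_lit 0, nat_lit 0, nat_lit 0, nat_lit 0, nat_lit 0, nat_lit 27740414938109, nat_lit 90, nat_lit 1000000, nat_lit 0, nat_lit 0, [(nat_lit 0, [(nat_lit 6, nat_lit 1000)])],
 ⟨t00_k12, nat_lit 0, nat_lit 0, nat_lit 314, nat_lit 0, nat_lit 119238, [nat_lit 2618000001, nat_lit 1352800000, nat_lit 26400000], [], [nat_lit 11487193651, nat_lit 11714234662, nat_lit 10818547042, nat_lit 11042836148], nat_lit 1271250, nat_lit 1271250, nat_lit 111251, nat_lit 230001, nat_lit 0, nat_lit 0, [nat_lit 1412500, nat_lit 1271250, nat_lit 1271250], [nat_lit 25, nat_lit 40, nat_lit 20, nat_lit 80, nat_lit 17, nat_lit 289, nat_lit 75, nat_lit 9]⟩, C1.Rw.none,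
 ⟨nat_lit 6708, nat_lit 6801, ⟨.ofNat (nat_lit 107793), .ofNat (nat_lit 151371), .ofNat (nat_lit 129255), .ofNat (nat_lit 172833), .ofNat (nat_lit 112299), .ofNat (nat_lit 155377), .ofNat (nat_lit 133737), .ofNat (nat_lit 176815)⟩, ⟨.ofNat (nat_lit 0), .ofNat (nat_lit 0), .ofNat (nat_lit 0), .ofNat (nat_lit 0), .ofNat (nat_lit 0), .ofNat (nat_lit 0), .ofNat (nat_lit 0), .ofNat (nat_lit 0)⟩⟩, []⟩
noncomputable def t00_l38 : Lf2 := ⟨nat_lit 3, nat_lit 5, [nat_lit 4, nat_lit 5, nat_lit 5, nat_lit 20], false, nat_lit 0, nat_lit 0, nat_lit 0, nat_lit 0, zbN0,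
 nat_lit 0, nat_lit 0, nat_lit 0, nat_lit 0, nat_lit 0, nat_lit 0, nat_lit 0, nat_lit 0, nat_lit 0, nat_lit 0, nat_lit 0, nat_lit 0, nat_lit 0, nat_lit 0, nat_lit 0, nat_lit 0, nat_lit 0, nat_lit 0, [],
 C1.Rw.none, ⟨t00_k17, nat_lit 0, nat_lit 0, nat_lit 376, nat_lit 0, nat_lit 0, [], [], [], nat_lit 0, nat_lit 0, nat_lit 0, nat_lit 0, nat_lit 0, nat_lit 0, [], [nat_lit 53, nat_lit 40, nat_lit 20, nat_lit 80, nat_lit 14, nat_lit 289, nat_lit 75, nat_lit 8]⟩,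
 zbF0, []⟩
noncomputable def t00_l39 : Lf2 := ⟨nat_lit 0, nat_lit 3, [nat_lit 45, nat_lit 5, nat_lit 5, nat_lit 20], false, nat_lit 0, nat_lit 0, nat_lit 0, nat_lit 0, ⟨nat_lit 1000, nat_lit 0, nat_lit 0, nat_lit 0, nat_lit 0, nat_lit 0, nat_lit 0, nat_lit 0, nat_lit 0, nat_lit 0, nat_lit 0, nat_lit 0, nat_lit 0, nat_lit 0, nat_lit 0, nat_lit 0, false, false⟩,
 nat_lit 0, nat_lit 54642, nat_lit 0, nat_lit 0, nat_lit 23417, nat_lit 17960, nat_lit 5067, nat_lit 0, nat_lit 0, nat_lit 6397, nat_lit 0, nat_lit 0, nat_lit 0, nat_lit 71850306170926, nat_lit 0, nat_lit 0, nat_lit 0, nat_lit 0, [],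
 ⟨t00_k9, nat_lit 0, nat_lit 0, nat_lit 298, nat_lit 0, nat_lit 141937, [nat_lit 6250000000, nat_lit 7968000001, nat_lit 9842000000], [], [nat_lit 26523875232, nat_lit 20639545706, nat_lit 28239873188, nat_lit 22405691557], nat_lit 1271250, nat_lit 1271250, nat_lit 230001, nat_lit 490000, nat_lit 0, nat_lit 0, [nat_lit 1412500, nat_lit 1271250, nat_lit 1271250], [nat_lit 25, nat_lit 40, nat_lit 20, nat_lit 80, nat_lit 17, nat_lit 289, nat_lit 75, nat_lit 9]⟩, ⟨t00_k9, nat_lit 0, nat_lit 0, nat_lit 174, nat_lit 0, nat_lit 0, [nat_lit 6250000000, nat_lit 7968000000, nat_lit 9842000000], [], [nat_lit 15778457515, nat_lit 17079927960, nat_lit 10542105120, nat_lit 12061541280], nat_lit 0, nat_lit 0, nat_lit 0, nat_lit 0, nat_lit 0, nat_lit 0, [], [nat_lit 25, nat_lit 40, nat_lit 20, nat_lit 80, nat_lit 17, nat_lit 289, nat_lit 75, nat_lit 9]⟩,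
 zbF0, []⟩
noncomputable def t00_l40 : Lf2 := ⟨nat_lit 1, nat_lit 5, [nat_lit 4, nat_lit 5, nat_lit 5, nat_lit 20], false, nat_lit 0, nat_lit 0, nat_lit 0, nat_lit 0, zbN0,
 nat_lit 0, nat_lit 0, nat_lit 0, nat_lit 0, nat_lit 0, nat_lit 0, nat_lit 0, nat_lit 0, nat_lit 0, nat_lit 0, nat_lit 0, nat_lit 0, nat_lit 0, nat_lit 0, nat_lit 0, nat_lit 0, nat_lit 0, nat_lit 0, [],
 C1.Rw.none, C1.Rw.none,
 zbF0, []⟩
noncomputable def t00_l41 : Lf2 := ⟨nat_lit 0, nat_lit 5, [nat_lit 4, nat_lit 5, nat_lit 5, nat_lit 20], false, nat_lit 0, nat_lit 0, nat_lit 0, nat_lit 0, ⟨nat_lit 950, nat_lit 0, nat_lit 50, nat_lit 5, nat_lit 82, nat_lit 0, nat_lit 0, nat_lit 0, nat_lit 0, nat_lit 215, nat_lit 64067, nat_lit 277, nat_lit 64281171, nat_lit 0, nat_lit 0, nat_lit 848894, false, false⟩,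
 nat_lit 0, nat_lit 31220, nat_lit 0, nat_lit 0, nat_lit 14150, nat_lit 11240, nat_lit 1155, nat_lit 0, nat_lit 0, nat_lit 4891, nat_lit 0, nat_lit 0, nat_lit 0, nat_lit 31605842649717, nat_lit 0, nat_lit 50000, nat_lit 0, nat_lit 0, [(nat_lit 0, [(nat_lit 6, nat_lit 50)])],
 ⟨t00_k10, nat_lit 0, nat_lit 0, nat_lit 341, nat_lit 0, nat_lit 226055, [nat_lit 5978400000, nat_lit 7529240000, nat_lit 9225220000], [], [nat_lit 27380149100, nat_lit 24910921675, nat_lit 28880119150, nat_lit 25354745700], nat_lit 1271250, nat_lit 1271250, nat_lit 230001, nat_lit 490000, nat_lit 0, nat_lit 0, [nat_lit 1412500, nat_lit 1271250, nat_lit 1271250], [nat_lit 25, nat_lit 40, nat_lit 20, nat_lit 80, nat_lit 17, nat_lit 289, nat_lit 75, nat_lit 9]⟩, ⟨t00_k17, nat_lit 0, nat_lit 0, nat_lit 327, nat_lit 0, nat_lit 0, [nat_lit 5937500000, nat_lit 7569600000, nat_lit 11278400000], [], [nat_lit 16737963975,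 nat_lit 18226062460, nat_lit 14361211320, nat_lit 15957735580], nat_lit 0, nat_lit 0, nat_lit 0, nat_lit 0, nat_lit 0, nat_lit 0, [], [nat_lit 53, nat_lit 40, nat_lit 20, nat_lit 80, nat_lit 14, nat_lit 289, nat_lit 75, nat_lit 8]⟩,
 ⟨nat_lit 6708, nat_lit 6893, ⟨.ofNat (nat_lit 147316), .ofNat (nat_lit 235487), .ofNat (nat_lit 168805), .ofNat (nat_lit 256975), .ofNat (nat_lit 155377), .ofNat (nat_lit 241532), .ofNat (nat_lit 176815), .ofNat (nat_lit 262970)⟩, ⟨.ofNat (nat_lit 0), .ofNat (nat_lit 0), .ofNat (nat_lit 0), .ofNat (nat_lit 0), .ofNat (nat_lit 0), .ofNat (nat_lit 0), .ofNat (nat_lit 0), .ofNat (nat_lit 0)⟩⟩, []⟩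
noncomputable def t00_l42 : Lf2 := ⟨nat_lit 0, nat_lit 2, [nat_lit 10, nat_lit 5, nat_lit 5, nat_lit 20], false, nat_lit 0, nat_lit 0, nat_lit 0, nat_lit 0, ⟨nat_lit 1000, nat_lit 0, nat_lit 0, nat_lit 0, nat_lit 0, nat_lit 0, nat_lit 0, nat_lit 0, nat_lit 0, nat_lit 0, nat_lit 0, nat_lit 0, nat_lit 0, nat_lit 0, nat_lit 0, nat_lit 0, false, false⟩,
 nat_lit 0, nat_lit 22697, nat_lit 0, nat_lit 0, nat_lit 9727, nat_lit 11407, nat_lit 2134, nat_lit 0, nat_lit 0, nat_lit 0, nat_lit 0, nat_lit 0, nat_lit 0, nat_lit 3994871953051, nat_lit 0, nat_lit 0, nat_lit 0, nat_lit 0, [],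
 ⟨t00_k18, nat_lit 0, nat_lit 0, nat_lit 464, nat_lit 0, nat_lit 496142, [nat_lit 6250000000, nat_lit 7968000001, nat_lit 9842000000], [], [nat_lit 35597372028, nat_lit 30751665286, nat_lit 42521406304, nat_lit 37810056038], nat_lit 1271250, nat_lit 1271250, nat_lit 490000, nat_lit 1100001, nat_lit 0, nat_lit 0, [nat_lit 1412500, nat_lit 1271250, nat_lit 1271250], [nat_lit 25, nat_lit 40, nat_lit 20, nat_lit 80, nat_lit 17, nat_lit 317, nat_lit 100, nat_lit 10]⟩, ⟨t00_k18, nat_lit 0, nat_lit 0, nat_lit 50, nat_lit 0, nat_lit 0, [nat_lit 6250000000, nat_lit 7968000000, nat_lit 9842000000], [], [nat_lit 7427233868, nat_lit 9915713186, nat_lit 8414683020, nat_lit 10599806572], nat_lit 0, nat_lit 0, nat_lit 0, nat_lit 0, nat_lit 0, nat_lit 0, [], [nat_lit 25, nat_lit 40, nat_lit 20, nat_lit 80, nat_lit 17, nat_lit 317, nat_lit 100, nat_lit 10]⟩,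
 zbF0, []⟩
noncomputable def t00_l43 : Lf2 := ⟨nat_lit 0, nat_lit 5, [nat_lit 4, nat_lit 5, nat_lit 5, nat_lit 20], false, nat_lit 0, nat_lit 0, nat_lit 0, nat_lit 0, ⟨nat_lit 1000, nat_lit 0, nat_lit 0, nat_lit 0, nat_lit 0, nat_lit 0, nat_lit 0, nat_lit 0, nat_lit 0, nat_lit 0, nat_lit 0, nat_lit 0, nat_lit 0, nat_lit 0, nat_lit 0, nat_lit 0, false, false⟩,
 nat_lit 0, nat_lit 27982, nat_lit 0, nat_lit 0, nat_lit 11992, nat_lit 20422, nat_lit 1694, nat_lit 0, nat_lit 0, nat_lit 7107, nat_lit 0, nat_lit 0, nat_lit 0, nat_lit 37048799305003, nat_lit 0, nat_lit 0, nat_lit 0, nat_lit 0, [],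
 ⟨t00_k17, nat_lit 0, nat_lit 0, nat_lit 408, nat_lit 0, nat_lit 277447, [nat_lit 6250000000, nat_lit 7968000001, nat_lit 11872000000], [], [nat_lit 34380079488, nat_lit 28405447015, nat_lit 42348251584, nat_lit 36539830448], nat_lit 1271250, nat_lit 1271250, nat_lit 490000, nat_lit 1100001, nat_lit 0, nat_lit 0, [nat_lit 1412500, nat_lit 1271250, nat_lit 1271250], [nat_lit 53, nat_lit 40, nat_lit 20, nat_lit 80, nat_lit 14, nat_lit 317, nat_lit 100, nat_lit 9]⟩, ⟨t00_k17, nat_lit 0, nat_lit 0, nat_lit 208, nat_lit 0, nat_lit 0, [nat_lit 6250000000, nat_lit 7968000000, nat_lit 11872000000], [], [nat_lit 10369935031, nat_lit 12557209467, nat_lit 8204438104, nat_lit 11109735136], nat_lit 0, nat_lit 0, nat_lit 0, nat_lit 0, nat_lit 0, nat_lit 0, [], [nat_lit 53, nat_lit 40, nat_lit 20, nat_lit 80, nat_lit 14, nat_lit 317, nat_lit 100, nat_lit 9]⟩,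
 zbF0, []⟩
noncomputable def t00_l44 : Lf2 := ⟨nat_lit 0, nat_lit 5, [nat_lit 4, nat_lit 5, nat_lit 5, nat_lit 20], false, nat_lit 0, nat_lit 0, nat_lit 0, nat_lit 0, ⟨nat_lit 1000, nat_lit 0, nat_lit 0, nat_lit 0, nat_lit 0, nat_lit 0, nat_lit 0, nat_lit 0, nat_lit 0, nat_lit 0, nat_lit 0, nat_lit 0, nat_lit 0, nat_lit 0, nat_lit 0, nat_lit 0, false, false⟩,
 nat_lit 0, nat_lit 25798, nat_lit 0, nat_lit 0, nat_lit 11056, nat_lit 18161, nat_lit 780, nat_lit 0, nat_lit 0, nat_lit 5890, nat_lit 0, nat_lit 0, nat_lit 0, nat_lit 78742619686436, nat_lit 0, nat_lit 0, nat_lit 0, nat_lit 0, [],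
 ⟨t00_k17, nat_lit 0, nat_lit 0, nat_lit 517, nat_lit 0, nat_lit 510915, [nat_lit 6250000000, nat_lit 7968000001, nat_lit 11872000000], [], [nat_lit 37656132384, nat_lit 31900215070, nat_lit 34145830752, nat_lit 32777152478], nat_lit 1271250, nat_lit 1271250, nat_lit 1100001, nat_lit 1785000, nat_lit 0, nat_lit 0, [nat_lit 1412500, nat_lit 1271250, nat_lit 1271250], [nat_lit 53, nat_lit 40, nat_lit 20, nat_lit 80, nat_lit 14, nat_lit 345, nat_lit 125, nat_lit 9]⟩, ⟨t00_k17, nat_lit 0, nat_lit 0, nat_lit 184, nat_lit 0, nat_lit 0, [nat_lit 6250000000, nat_lit 7968000000, nat_lit 11872000000], [], [nat_lit 10609019250, nat_lit 12441265168, nat_lit 18442611016, nat_lit 21577367580], nat_lit 0, nat_lit 0, nat_lit 0, nat_lit 0, nat_lit 0, nat_lit 0, [], [nat_lit 53, nat_lit 40, nat_lit 20, nat_lit 80, nat_lit 14, nat_lit 345, nat_lit 125, nat_lit 9]⟩,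
 zbF0, []⟩
noncomputable def t00_l45 : Lf2 := ⟨nat_lit 0, nat_lit 5, [nat_lit 4, nat_lit 5, nat_lit 5, nat_lit 20], false, nat_lit 0, nat_lit 0, nat_lit 0, nat_lit 0, ⟨nat_lit 1000, nat_lit 0, nat_lit 0, nat_lit 0, nat_lit 0, nat_lit 0, nat_lit 0, nat_lit 0, nat_lit 0, nat_lit 0, nat_lit 0, nat_lit 0, nat_lit 0, nat_lit 0, nat_lit 0, nat_lit 0, false, false⟩,
 nat_lit 0, nat_lit 18900, nat_lit 0, nat_lit 0, nat_lit 8100, nat_lit 7331, nat_lit 1787, nat_lit 0, nat_lit 0, nat_lit 2711, nat_lit 0, nat_lit 0, nat_lit 0, nat_lit 0, nat_lit 0, nat_lit 0, nat_lit 0, nat_lit 0, [],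
 ⟨t00_k17, nat_lit 0, nat_lit 0, nat_lit 504, nat_lit 0, nat_lit 510915, [nat_lit 6250000000, nat_lit 7968000001, nat_lit 11872000000], [], [nat_lit 36093089377, nat_lit 36314894377, nat_lit 41701819603, nat_lit 41779924803], nat_lit 1271250, nat_lit 1271250, nat_lit 1271250, nat_lit 1271250, nat_lit 0, nat_lit 0, [nat_lit 1412500, nat_lit 1271250, nat_lit 1271250], [nat_lit 53, nat_lit 40, nat_lit 20, nat_lit 80, nat_lit 14, nat_lit 401, nat_lit 175, nat_lit 10]⟩, ⟨t00_k17, nat_lit 0, nat_lit 0, nat_lit 255, nat_lit 0, nat_lit 0, [nat_lit 6250000000, nat_lit 7968000000, nat_lit 11872000000], [], [nat_lit 25823635743, nat_lit 26473880615, nat_lit 37523221812, nat_lit 37910484656], nat_lit 0, nat_lit 0, nat_lit 0, nat_lit 0, nat_lit 0, nat_lit 0, [], [nat_lit 53, nat_lit 40, nat_lit 20, nat_lit 80, nat_lit 14, nat_lit 401, nat_lit 175, nat_lit 10]⟩,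
 zbF0, []⟩
noncomputable def t00_l46 : Lf2 := ⟨nat_lit 0, nat_lit 3, [nat_lit 45, nat_lit 5, nat_lit 5, nat_lit 20], true, nat_lit 0, nat_lit 0, nat_lit 0, nat_lit 0, ⟨nat_lit 0, nat_lit 0, nat_lit 1000, nat_lit 5, nat_lit 59, nat_lit 0, nat_lit 0, nat_lit 0, nat_lit 0, nat_lit 215, nat_lit 33750, nat_lit 260, nat_lit 65553173, nat_lit 0, nat_lit 0, nat_lit 520859, false, false⟩,
 nat_lit 0, nat_lit 12295, nat_lit 0, nat_lit 0, nat_lit 5269, nat_lit 0, nat_lit 808, nat_lit 0, nat_lit 0, nat_lit 0, nat_lit 0, nat_lit 0, nat_lit 0, nat_lit 26421018734768, nat_lit 90, nat_lit 1000000, nat_lit 0, nat_lit 0, [(nat_lit 0, [(nat_lit 6, nat_lit 1000)])],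
 ⟨t00_k9, nat_lit 0, nat_lit 0, nat_lit 306, nat_lit 0, nat_lit 34035, [nat_lit 2618000001, nat_lit 1352800000, nat_lit 26400000], [], [nat_lit 13344096325, nat_lit 13744604330, nat_lit 12911702606, nat_lit 11497139445], nat_lit 1271250, nat_lit 1271250, nat_lit 0, nat_lit 490000, nat_lit 0, nat_lit 0, [nat_lit 1412500, nat_lit 1271250, nat_lit 1271250], [nat_lit 25, nat_lit 40, nat_lit 20, nat_lit 80, nat_lit 17, nat_lit 289, nat_lit 75, nat_lit 9]⟩, C1.Rw.none,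
 ⟨nat_lit 6892, nat_lit 7072, ⟨.ofNat (nat_lit 48814), .ofNat (nat_lit 229288), .ofNat (nat_lit 59588), .ofNat (nat_lit 240062), .ofNat (nat_lit 59146), .ofNat (nat_lit 235487), .ofNat (nat_lit 69890), .ofNat (nat_lit 246231)⟩, ⟨.ofNat (nat_lit 0), .ofNat (nat_lit 0), .ofNat (nat_lit 0), .ofNat (nat_lit 0), .ofNat (nat_lit 0), .ofNat (nat_lit 0), .ofNat (nat_lit 0), .ofNat (nat_lit 0)⟩⟩, [⟨nat_lit 0, nat_lit 100, nat_lit 100, nat_lit 10, nat_lit 226963494⟩]⟩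
noncomputable def t00_l47 : Lf2 := ⟨nat_lit 1, nat_lit 5, [nat_lit 4, nat_lit 5, nat_lit 5, nat_lit 20], false, nat_lit 0, nat_lit 0, nat_lit 0, nat_lit 0, zbN0,
 nat_lit 0, nat_lit 0, nat_lit 0, nat_lit 0, nat_lit 0, nat_lit 0, nat_lit 0, nat_lit 0, nat_lit 0, nat_lit 0, nat_lit 0, nat_lit 0, nat_lit 0, nat_lit 0, nat_lit 0, nat_lit 0, nat_lit 0, nat_lit 0, [],
 C1.Rw.none, C1.Rw.none,
 zbF0, []⟩
noncomputable def t00_l48 : Lf2 := ⟨nat_lit 0, nat_lit 5, [nat_lit 4, nat_lit 5, nat_lit 5, nat_lit 20], true, nat_lit 0, nat_lit 0, nat_lit 0, nat_lit 0, ⟨nat_lit 0, nat_lit 0, nat_lit 1000, nat_lit 5, nat_lit 45, nat_lit 0, nat_lit 0, nat_lit 0, nat_lit 0, nat_lit 215, nat_lit 18150, nat_lit 248, nat_lit 66176045, nat_lit 0, nat_lit 0, nat_lit 331419, false, false⟩,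
 nat_lit 0, nat_lit 11813, nat_lit 0, nat_lit 339, nat_lit 5354, nat_lit 0, nat_lit 1035, nat_lit 0, nat_lit 0, nat_lit 0, nat_lit 0, nat_lit 0, nat_lit 0, nat_lit 25676534234907, nat_lit 90, nat_lit 1000000, nat_lit 0, nat_lit 0, [(nat_lit 0, [(nat_lit 6, nat_lit 1000)])],
 ⟨t00_k10, nat_lit 0, nat_lit 0, nat_lit 319, nat_lit 0, nat_lit 61297, [nat_lit 2618000001, nat_lit 1352800000, nat_lit 26400000], [], [nat_lit 13099546266, nat_lit 13233634338, nat_lit 11366510588, nat_lit 11498532892], nat_lit 1271250, nat_lit 1271250, nat_lit 0, nat_lit 230001, nat_lit 0, nat_lit 0, [nat_lit 1412500, nat_lit 1271250, nat_lit 1271250], [nat_lit 25, nat_lit 40, nat_lit 20, nat_lit 80, nat_lit 17, nat_lit 289, nat_lit 75, nat_lit 9]⟩, C1.Rw.none,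
 ⟨nat_lit 6837, nat_lit 6893, ⟨.ofNat (nat_lit 59146), .ofNat (nat_lit 147316), .ofNat (nat_lit 73113), .ofNat (nat_lit 161284), .ofNat (nat_lit 62194), .ofNat (nat_lit 149755), .ofNat (nat_lit 76151), .ofNat (nat_lit 163712)⟩, ⟨.ofNat (nat_lit 0), .ofNat (nat_lit 0), .ofNat (nat_lit 0), .ofNat (nat_lit 0), .ofNat (nat_lit 0), .ofNat (nat_lit 0), .ofNat (nat_lit 0), .ofNat (nat_lit 0)⟩⟩, [⟨nat_lit 0, nat_lit 100, nat_lit 100, nat_lit 13, nat_lit 323811273⟩]⟩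
noncomputable def t00_l49 : Lf2 := ⟨nat_lit 0, nat_lit 4, [nat_lit 38, nat_lit 5, nat_lit 5, nat_lit 20], true, nat_lit 0, nat_lit 0, nat_lit 0, nat_lit 0, ⟨nat_lit 0, nat_lit 0, nat_lit 1000, nat_lit 5, nat_lit 46, nat_lit 0, nat_lit 0, nat_lit 0, nat_lit 0, nat_lit 215, nat_lit 19267, nat_lit 249, nat_lit 66126483, nat_lit 0, nat_lit 0, nat_lit 347546, false, false⟩,
 nat_lit 0, nat_lit 11487, nat_lit 0, nat_lit 0, nat_lit 5292, nat_lit 0, nat_lit 970, nat_lit 0, nat_lit 0, nat_lit 0, nat_lit 0, nat_lit 0, nat_lit 0, nat_lit 24702746293681, nat_lit 90, nat_lit 1000000, nat_lit 0, nat_lit 0, [(nat_lit 0, [(nat_lit 6, nat_lit 1000)])],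
 ⟨t00_k11, nat_lit 0, nat_lit 0, nat_lit 325, nat_lit 0, nat_lit 72613, [nat_lit 2618000001, nat_lit 1352800000, nat_lit 26400000], [], [nat_lit 13233349630, nat_lit 13322739728, nat_lit 11524998723, nat_lit 11612640984], nat_lit 1271250, nat_lit 1271250, nat_lit 0, nat_lit 230001, nat_lit 0, nat_lit 0, [nat_lit 1412500, nat_lit 1271250, nat_lit 1271250], [nat_lit 25, nat_lit 40, nat_lit 20, nat_lit 80, nat_lit 17, nat_lit 289, nat_lit 75, nat_lit 9]⟩, C1.Rw.none,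
 ⟨nat_lit 6800, nat_lit 6838, ⟨.ofNat (nat_lit 62194), .ofNat (nat_lit 149755), .ofNat (nat_lit 78299), .ofNat (nat_lit 165859), .ofNat (nat_lit 64214), .ofNat (nat_lit 151371), .ofNat (nat_lit 80311), .ofNat (nat_lit 167468)⟩, ⟨.ofNat (nat_lit 0), .ofNat (nat_lit 0), .ofNat (nat_lit 0), .ofNat (nat_lit 0), .ofNat (nat_lit 0), .ofNat (nat_lit 0), .ofNat (nat_lit 0), .ofNat (nat_lit 0)⟩⟩, [⟨nat_lit 0, nat_lit 100, nat_lit 100, nat_lit 15, nat_lit 320466997⟩]⟩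
noncomputable def t00_l50 : Lf2 := ⟨nat_lit 1, nat_lit 5, [nat_lit 4, nat_lit 5, nat_lit 5, nat_lit 20], false, nat_lit 0, nat_lit 0, nat_lit 0, nat_lit 0, zbN0,
 nat_lit 0, nat_lit 0, nat_lit 0, nat_lit 0, nat_lit 0, nat_lit 0, nat_lit 0, nat_lit 0, nat_lit 0, nat_lit 0, nat_lit 0, nat_lit 0, nat_lit 0, nat_lit 0, nat_lit 0, nat_lit 0, nat_lit 0, nat_lit 0, [],
 C1.Rw.none, C1.Rw.none,
 zbF0, []⟩
noncomputable def t00_l51 : Lf2 := ⟨nat_lit 0, nat_lit 5, [nat_lit 4, nat_lit 5, nat_lit 5, nat_lit 20], true, nat_lit 0, nat_lit 0, nat_lit 0, nat_lit 0, ⟨nat_lit 0, nat_lit 0, nat_lit 1000, nat_lit 5, nat_lit 37, nat_lit 0, nat_lit 0, nat_lit 0, nat_lit 0, nat_lit 215, nat_lit 13067, nat_lit 243, nat_lit 66416334, nat_lit 0, nat_lit 0, nat_lit 249687, false, false⟩,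
 nat_lit 0, nat_lit 11169, nat_lit 0, nat_lit 43, nat_lit 5201, nat_lit 0, nat_lit 898, nat_lit 0, nat_lit 0, nat_lit 0, nat_lit 0, nat_lit 0, nat_lit 0, nat_lit 0, nat_lit 90, nat_lit 1000000, nat_lit 0, nat_lit 0, [(nat_lit 0, [(nat_lit 6, nat_lit 1000)])],
 ⟨t00_k12, nat_lit 0, nat_lit 0, nat_lit 328, nat_lit 0, nat_lit 77723, [nat_lit 2618000001, nat_lit 1352800000, nat_lit 26400000], [], [nat_lit 13416680398, nat_lit 13637822678, nat_lit 12338035279, nat_lit 12558404182], nat_lit 1271250, nat_lit 1271250, nat_lit 0, nat_lit 111251, nat_lit 0, nat_lit 0, [nat_lit 1412500, nat_lit 1271250, nat_lit 1271250], [nat_lit 25, nat_lit 40, nat_lit 20, nat_lit 80, nat_lit 17, nat_lit 272, nat_lit 60, nat_lit 9]⟩, C1.Rw.none,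
 ⟨nat_lit 6708, nat_lit 6801, ⟨.ofNat (nat_lit 64214), .ofNat (nat_lit 107793), .ofNat (nat_lit 74945), .ofNat (nat_lit 118524), .ofNat (nat_lit 69221), .ofNat (nat_lit 112299), .ofNat (nat_lit 79940), .ofNat (nat_lit 123018)⟩, ⟨.ofNat (nat_lit 0), .ofNat (nat_lit 0), .ofNat (nat_lit 0), .ofNat (nat_lit 0), .ofNat (nat_lit 0), .ofNat (nat_lit 0), .ofNat (nat_lit 0), .ofNat (nat_lit 0)⟩⟩, [⟨nat_lit 0, nat_lit 100, nat_lit 100, nat_lit 15, nat_lit 371462727⟩]⟩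
noncomputable def t00_l52 : Lf2 := ⟨nat_lit 0, nat_lit 4, [nat_lit 38, nat_lit 5, nat_lit 5, nat_lit 20], true, nat_lit 0, nat_lit 0, nat_lit 0, nat_lit 0, ⟨nat_lit 0, nat_lit 0, nat_lit 1000, nat_lit 5, nat_lit 41, nat_lit 0, nat_lit 0, nat_lit 0, nat_lit 0, nat_lit 215, nat_lit 16017, nat_lit 246, nat_lit 66312943, nat_lit 0, nat_lit 0, nat_lit 285637, false, false⟩,
 nat_lit 0, nat_lit 11169, nat_lit 0, nat_lit 0, nat_lit 5201, nat_lit 0, nat_lit 898, nat_lit 0, nat_lit 0, nat_lit 0, nat_lit 0, nat_lit 0, nat_lit 0, nat_lit 0, nat_lit 90, nat_lit 1000000, nat_lit 0, nat_lit 0, [(nat_lit 0, [(nat_lit 6, nat_lit 1000)])],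
 ⟨t00_k13, nat_lit 0, nat_lit 0, nat_lit 334, nat_lit 0, nat_lit 93156, [nat_lit 2618000001, nat_lit 1352800000, nat_lit 26400000], [], [nat_lit 13416680398, nat_lit 13637822678, nat_lit 12338035279, nat_lit 12558404182], nat_lit 1271250, nat_lit 1271250, nat_lit 0, nat_lit 111251, nat_lit 0, nat_lit 0, [nat_lit 1412500, nat_lit 1271250, nat_lit 1271250], [nat_lit 25, nat_lit 40, nat_lit 20, nat_lit 80, nat_lit 17, nat_lit 272, nat_lit 60, nat_lit 9]⟩, C1.Rw.none,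
 ⟨nat_lit 6708, nat_lit 6801, ⟨.ofNat (nat_lit 74945), .ofNat (nat_lit 118524), .ofNat (nat_lit 80311), .ofNat (nat_lit 123889), .ofNat (nat_lit 79940), .ofNat (nat_lit 123018), .ofNat (nat_lit 85300), .ofNat (nat_lit 128378)⟩, ⟨.ofNat (nat_lit 0), .ofNat (nat_lit 0), .ofNat (nat_lit 0), .ofNat (nat_lit 0), .ofNat (nat_lit 0), .ofNat (nat_lit 0), .ofNat (nat_lit 0), .ofNat (nat_lit 0)⟩⟩, [⟨nat_lit 0, nat_lit 100, nat_lit 100, nat_lit 17, nat_lit 374435109⟩]⟩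
noncomputable def t00_l53 : Lf2 := ⟨nat_lit 0, nat_lit 5, [nat_lit 4, nat_lit 5, nat_lit 5, nat_lit 20], true, nat_lit 0, nat_lit 0, nat_lit 0, nat_lit 0, ⟨nat_lit 0, nat_lit 0, nat_lit 1000, nat_lit 5, nat_lit 41, nat_lit 0, nat_lit 0, nat_lit 0, nat_lit 0, nat_lit 215, nat_lit 16017, nat_lit 246, nat_lit 66312943, nat_lit 0, nat_lit 0, nat_lit 285637, false, false⟩,
 nat_lit 0, nat_lit 9789, nat_lit 0, nat_lit 728, nat_lit 4558, nat_lit 0, nat_lit 594, nat_lit 0, nat_lit 0, nat_lit 0, nat_lit 0, nat_lit 0, nat_lit 0, nat_lit 0, nat_lit 90, nat_lit 1000000, nat_lit 0, nat_lit 0, [(nat_lit 0, [(nat_lit 6, nat_lit 1000)])],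
 ⟨t00_k12, nat_lit 0, nat_lit 0, nat_lit 300, nat_lit 0, nat_lit 15101, [nat_lit 2618000001, nat_lit 1352800000, nat_lit 26400000], [], [nat_lit 13475794742, nat_lit 13717453025, nat_lit 12327501162, nat_lit 12580559669], nat_lit 1271250, nat_lit 1271250, nat_lit 0, nat_lit 111251, nat_lit 0, nat_lit 0, [nat_lit 1412500, nat_lit 1271250, nat_lit 1271250], [nat_lit 25, nat_lit 40, nat_lit 20, nat_lit 80, nat_lit 17, nat_lit 272, nat_lit 60, nat_lit 9]⟩, C1.Rw.none,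
 ⟨nat_lit 6708, nat_lit 6801, ⟨.ofNat (nat_lit 74945), .ofNat (nat_lit 118524), .ofNat (nat_lit 80311), .ofNat (nat_lit 123889), .ofNat (nat_lit 79940), .ofNat (nat_lit 123018), .ofNat (nat_lit 85300), .ofNat (nat_lit 128378)⟩, ⟨.ofNat (nat_lit 0), .ofNat (nat_lit 0), .ofNat (nat_lit 0), .ofNat (nat_lit 0), .ofNat (nat_lit 0), .ofNat (nat_lit 0), .ofNat (nat_lit 0), .ofNat (nat_lit 0)⟩⟩, [⟨nat_lit 0, nat_lit 100, nat_lit 100, nat_lit 17, nat_lit 388843843⟩]⟩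
noncomputable def t00_l54 : Lf2 := ⟨nat_lit 0, nat_lit 4, [nat_lit 38, nat_lit 5, nat_lit 5, nat_lit 20], true, nat_lit 0, nat_lit 0, nat_lit 0, nat_lit 0, ⟨nat_lit 0, nat_lit 0, nat_lit 1000, nat_lit 5, nat_lit 46, nat_lit 0, nat_lit 0, nat_lit 0, nat_lit 0, nat_lit 215, nat_lit 20417, nat_lit 250, nat_lit 66107196, nat_lit 0, nat_lit 0, nat_lit 353762, false, false⟩,
 nat_lit 0, nat_lit 11312, nat_lit 0, nat_lit 0, nat_lit 5352, nat_lit 0, nat_lit 940, nat_lit 0, nat_lit 0, nat_lit 0, nat_lit 0, nat_lit 0, nat_lit 0, nat_lit 29227716179692, nat_lit 90, nat_lit 1000000, nat_lit 0, nat_lit 0, [(nat_lit 0, [(nat_lit 6, nat_lit 1000)])],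
 ⟨t00_k15, nat_lit 0, nat_lit 0, nat_lit 327, nat_lit 0, nat_lit 103874, [nat_lit 2618000001, nat_lit 1352800000, nat_lit 26400000], [], [nat_lit 12751262638, nat_lit 12795890958, nat_lit 12080666500, nat_lit 12125202431], nat_lit 1271250, nat_lit 1271250, nat_lit 43600, nat_lit 111251, nat_lit 0, nat_lit 0, [nat_lit 1412500, nat_lit 1271250, nat_lit 1271250], [nat_lit 25, nat_lit 40, nat_lit 20, nat_lit 80, nat_lit 17, nat_lit 272, nat_lit 60, nat_lit 8]⟩, C1.Rw.none,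
 ⟨nat_lit 6726, nat_lit 6746, ⟨.ofNat (nat_lit 100622), .ofNat (nat_lit 126589), .ofNat (nat_lit 104912), .ofNat (nat_lit 130878), .ofNat (nat_lit 101578), .ofNat (nat_lit 127484), .ofNat (nat_lit 105866), .ofNat (nat_lit 131773)⟩, ⟨.ofNat (nat_lit 0), .ofNat (nat_lit 0), .ofNat (nat_lit 0), .ofNat (nat_lit 0), .ofNat (nat_lit 0), .ofNat (nat_lit 0), .ofNat (nat_lit 0), .ofNat (nat_lit 0)⟩⟩, []⟩
noncomputable def t00_l55 : Lf2 := ⟨nat_lit 0, nat_lit 4, [nat_lit 38, nat_lit 5, nat_lit 5, nat_lit 20], true, nat_lit 0, nat_lit 0, nat_lit 0, nat_lit 0, ⟨nat_lit 0, nat_lit 0, nat_lit 1000, nat_lit 5, nat_lit 47, nat_lit 0, nat_lit 0, nat_lit 0, nat_lit 0, nat_lit 215, nat_lit 20417, nat_lit 250, nat_lit 66084932, nat_lit 0, nat_lit 0, nat_lit 360900, false, false⟩,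
 nat_lit 0, nat_lit 11204, nat_lit 0, nat_lit 0, nat_lit 5330, nat_lit 0, nat_lit 917, nat_lit 0, nat_lit 0, nat_lit 0, nat_lit 0, nat_lit 0, nat_lit 0, nat_lit 28943866649765, nat_lit 90, nat_lit 1000000, nat_lit 0, nat_lit 0, [(nat_lit 0, [(nat_lit 6, nat_lit 1000)])],
 ⟨t00_k19, nat_lit 0, nat_lit 0, nat_lit 330, nat_lit 0, nat_lit 111476, [nat_lit 2618000001, nat_lit 1352800000, nat_lit 26400000], [], [nat_lit 12811424113, nat_lit 12856124681, nat_lit 12144105554, nat_lit 12188574152], nat_lit 1271250, nat_lit 1271250, nat_lit 43600, nat_lit 111251, nat_lit 0, nat_lit 0, [nat_lit 1412500, nat_lit 1271250, nat_lit 1271250], [nat_lit 25, nat_lit 40, nat_lit 20, nat_lit 80, nat_lit 17, nat_lit 272, nat_lit 60, nat_lit 8]⟩, C1.Rw.none,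
 ⟨nat_lit 6708, nat_lit 6727, ⟨.ofNat (nat_lit 101578), .ofNat (nat_lit 127484), .ofNat (nat_lit 106938), .ofNat (nat_lit 132845), .ofNat (nat_lit 102531), .ofNat (nat_lit 128378), .ofNat (nat_lit 107890), .ofNat (nat_lit 133737)⟩, ⟨.ofNat (nat_lit 0), .ofNat (nat_lit 0), .ofNat (nat_lit 0), .ofNat (nat_lit 0), .ofNat (nat_lit 0), .ofNat (nat_lit 0), .ofNat (nat_lit 0), .ofNat (nat_lit 0)⟩⟩, []⟩
noncomputable def t00_l56 : Lf2 := ⟨nat_lit 0, nat_lit 5, [nat_lit 4, nat_lit 5, nat_lit 5, nat_lit 20], true, nat_lit 0, nat_lit 0, nat_lit 0, nat_lit 0, ⟨nat_lit 0, nat_lit 0, nat_lit 1000, nat_lit 5, nat_lit 47, nat_lit 0, nat_lit 0, nat_lit 0, nat_lit 0, nat_lit 215, nat_lit 20417, nat_lit 250, nat_lit 66092014, nat_lit 0, nat_lit 0, nat_lit 358634, false, false⟩,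
 nat_lit 0, nat_lit 9884, nat_lit 0, nat_lit 435, nat_lit 4677, nat_lit 0, nat_lit 609, nat_lit 0, nat_lit 0, nat_lit 0, nat_lit 0, nat_lit 0, nat_lit 0, nat_lit 26430462271957, nat_lit 90, nat_lit 1000000, nat_lit 0, nat_lit 0, [(nat_lit 0, [(nat_lit 6, nat_lit 1000)])],
 ⟨t00_k14, nat_lit 0, nat_lit 0, nat_lit 296, nat_lit 0, nat_lit 34913, [nat_lit 2618000001, nat_lit 1352800000, nat_lit 26400000], [], [nat_lit 13011461153, nat_lit 13107226032, nat_lit 12300883228, nat_lit 12403451393], nat_lit 1271250, nat_lit 1271250, nat_lit 43600, nat_lit 111251, nat_lit 0, nat_lit 0, [nat_lit 1412500, nat_lit 1271250, nat_lit 1271250], [nat_lit 25, nat_lit 40, nat_lit 20, nat_lit 80, nat_lit 17, nat_lit 272, nat_lit 60, nat_lit 8]⟩, C1.Rw.none,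
 ⟨nat_lit 6708, nat_lit 6746, ⟨.ofNat (nat_lit 100622), .ofNat (nat_lit 126589), .ofNat (nat_lit 105984), .ofNat (nat_lit 131950), .ofNat (nat_lit 102531), .ofNat (nat_lit 128378), .ofNat (nat_lit 107890), .ofNat (nat_lit 133737)⟩, ⟨.ofNat (nat_lit 0), .ofNat (nat_lit 0), .ofNat (nat_lit 0), .ofNat (nat_lit 0), .ofNat (nat_lit 0), .ofNat (nat_lit 0), .ofNat (nat_lit 0), .ofNat (nat_lit 0)⟩⟩, []⟩
noncomputable def t00_l57 : Lf2 := ⟨nat_lit 0, nat_lit 5, [nat_lit 4, nat_lit 5, nat_lit 5, nat_lit 20], true, nat_lit 0, nat_lit 0, nat_lit 0, nat_lit 0, ⟨nat_lit 0, nat_lit 0, nat_lit 1000, nat_lit 5, nat_lit 57, nat_lit 0, nat_lit 0, nat_lit 0, nat_lit 0, nat_lit 215, nat_lit 30817, nat_lit 258, nat_lit 65667750, nat_lit 0, nat_lit 0, nat_lit 487889, false, false⟩,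
 nat_lit 0, nat_lit 12106, nat_lit 0, nat_lit 0, nat_lit 5637, nat_lit 0, nat_lit 1093, nat_lit 0, nat_lit 0, nat_lit 0, nat_lit 0, nat_lit 0, nat_lit 0, nat_lit 27740414938109, nat_lit 90, nat_lit 1000000, nat_lit 0, nat_lit 0, [(nat_lit 0, [(nat_lit 6, nat_lit 1000)])],
 ⟨t00_k12, nat_lit 0, nat_lit 0, nat_lit 314, nat_lit 0, nat_lit 119238, [nat_lit 2618000001, nat_lit 1352800000, nat_lit 26400000], [], [nat_lit 11487193651, nat_lit 11714234662, nat_lit 10818547042, nat_lit 11042836148], nat_lit 1271250, nat_lit 1271250, nat_lit 111251, nat_lit 230001, nat_lit 0, nat_lit 0, [nat_lit 1412500, nat_lit 1271250, nat_lit 1271250], [nat_lit 25, nat_lit 40, nat_lit 20, nat_lit 80, nat_lit 17, nat_lit 289, nat_lit 75, nat_lit 9]⟩, C1.Rw.none,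
 ⟨nat_lit 6708, nat_lit 6801, ⟨.ofNat (nat_lit 107793), .ofNat (nat_lit 151371), .ofNat (nat_lit 129255), .ofNat (nat_lit 172833), .ofNat (nat_lit 112299), .ofNat (nat_lit 155377), .ofNat (nat_lit 133737), .ofNat (nat_lit 176815)⟩, ⟨.ofNat (nat_lit 0), .ofNat (nat_lit 0), .ofNat (nat_lit 0), .ofNat (nat_lit 0), .ofNat (nat_lit 0), .ofNat (nat_lit 0), .ofNat (nat_lit 0), .ofNat (nat_lit 0)⟩⟩, []⟩
noncomputable def t00_l58 : Lf2 := ⟨nat_lit 0, nat_lit 5, [nat_lit 4, nat_lit 5, nat_lit 5, nat_lit 20], true, nat_lit 0, nat_lit 0, nat_lit 0, nat_lit 0, ⟨nat_lit 0, nat_lit 0, nat_lit 1000, nat_lit 5, nat_lit 82, nat_lit 0, nat_lit 0, nat_lit 0, nat_lit 0, nat_lit 215, nat_lit 64067, nat_lit 277, nat_lit 64281171, nat_lit 0, nat_lit 0, nat_lit 848894, false, false⟩,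
 nat_lit 0, nat_lit 13115, nat_lit 0, nat_lit 0, nat_lit 5944, nat_lit 0, nat_lit 1314, nat_lit 0, nat_lit 0, nat_lit 0, nat_lit 0, nat_lit 0, nat_lit 0, nat_lit 0, nat_lit 90, nat_lit 1000000, nat_lit 0, nat_lit 0, [(nat_lit 0, [(nat_lit 6, nat_lit 1000)])],
 ⟨t00_k10, nat_lit 0, nat_lit 0, nat_lit 291, nat_lit 0, nat_lit 122757, [nat_lit 2618000001, nat_lit 1352800000, nat_lit 26400000], [], [nat_lit 9893018754, nat_lit 10404832138, nat_lit 10656256170, nat_lit 9601317809], nat_lit 1271250, nat_lit 1271250, nat_lit 230001, nat_lit 490000, nat_lit 0, nat_lit 0, [nat_lit 1412500, nat_lit 1271250, nat_lit 1271250], [nat_lit 25, nat_lit 40, nat_lit 20, nat_lit 80, nat_lit 17, nat_lit 289, nat_lit 75, nat_lit 9]⟩, C1.Rw.none,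
 ⟨nat_lit 6708, nat_lit 6893, ⟨.ofNat (nat_lit 147316), .ofNat (nat_lit 235487), .ofNat (nat_lit 168805), .ofNat (nat_lit 256975), .ofNat (nat_lit 155377), .ofNat (nat_lit 241532), .ofNat (nat_lit 176815), .ofNat (nat_lit 262970)⟩, ⟨.ofNat (nat_lit 0), .ofNat (nat_lit 0), .ofNat (nat_lit 0), .ofNat (nat_lit 0), .ofNat (nat_lit 0), .ofNat (nat_lit 0), .ofNat (nat_lit 0), .ofNat (nat_lit 0)⟩⟩, []⟩
noncomputable def t00_l59 : Lf2 := ⟨nat_lit 0, nat_lit 5, [nat_lit 4, nat_lit 5, nat_lit 5, nat_lit 20], false, nat_lit 0, nat_lit 0, nat_lit 0, nat_lit 0, ⟨nat_lit 0, nat_lit 0, nat_lit 1000, nat_lit 5, nat_lit 63, nat_lit 0, nat_lit 0, nat_lit 0, nat_lit 0, nat_lit 215, nat_lit 36817, nat_lit 262, nat_lit 65368951, nat_lit 0, nat_lit 0, nat_lit 572437, false, false⟩,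
 nat_lit 100000, nat_lit 0, nat_lit 100000, nat_lit 100000, nat_lit 880, nat_lit 85714, nat_lit 0, nat_lit 0, nat_lit 0, nat_lit 18259, nat_lit 4126, nat_lit 0, nat_lit 0, nat_lit 0, nat_lit 131, nat_lit 1000000, nat_lit 0, nat_lit 0, [(nat_lit 0, [(nat_lit 6, nat_lit 1000)])],
 ⟨t00_k17, nat_lit 0, nat_lit 0, nat_lit 519, nat_lit 0, nat_lit 240069, [nat_lit 3438000000, nat_lit 2336800001, nat_lit 273866667], [], [nat_lit 24319172320, nat_lit 24880290960, nat_lit 25104188320, nat_lit 25642722400], nat_lit 1271250, nat_lit 1271250, nat_lit 0, nat_lit 490000, nat_lit 0, nat_lit 0, [nat_lit 1412500, nat_lit 1271250, nat_lit 1271250], [nat_lit 53, nat_lit 40, nat_lit 20, nat_lit 80, nat_lit 14, nat_lit 289, nat_lit 75, nat_lit 8]⟩, ⟨t00_k17, nat_lit 0, nat_lit 0, nat_lit 519, nat_lit 0, nat_lit 240069, [nat_lit 82520000000, nat_lit 99024000000, nat_lit 132032000000], [], [nat_lit 198257992912,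 nat_lit 192675137344, nat_lit 138338632752, nat_lit 139392400668], nat_lit 1271250, nat_lit 1271250, nat_lit 0, nat_lit 490000, nat_lit 0, nat_lit 0, [nat_lit 1412500, nat_lit 1271250, nat_lit 1271250], [nat_lit 53, nat_lit 40, nat_lit 20, nat_lit 80, nat_lit 14, nat_lit 289, nat_lit 75, nat_lit 8]⟩,
 ⟨nat_lit 6708, nat_lit 7072, ⟨.ofNat (nat_lit 48814), .ofNat (nat_lit 229288), .ofNat (nat_lit 70362), .ofNat (nat_lit 250836), .ofNat (nat_lit 69221), .ofNat (nat_lit 241532), .ofNat (nat_lit 90659), .ofNat (nat_lit 262970)⟩, ⟨.ofNat (nat_lit 0), .ofNat (nat_lit 0), .ofNat (nat_lit 0), .ofNat (nat_lit 0), .ofNat (nat_lit 0), .ofNat (nat_lit 0), .ofNat (nat_lit 0), .ofNat (nat_lit 0)⟩⟩, []⟩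
noncomputable def t00_l60 : Lf2 := ⟨nat_lit 0, nat_lit 5, [nat_lit 4, nat_lit 5, nat_lit 5, nat_lit 20], false, nat_lit 0, nat_lit 0, nat_lit 0, nat_lit 0, ⟨nat_lit 911, nat_lit 0, nat_lit 89, nat_lit 5, nat_lit 113, nat_lit 0, nat_lit 0, nat_lit 0, nat_lit 0, nat_lit 215, nat_lit 120417, nat_lit 300, nat_lit 62052425, nat_lit 0, nat_lit 0, nat_lit 1317353, false, false⟩,
 nat_lit 100000, nat_lit 0, nat_lit 0, nat_lit 0, nat_lit 42857, nat_lit 42857, nat_lit 8205, nat_lit 0, nat_lit 0, nat_lit 8051, nat_lit 0, nat_lit 0, nat_lit 0, nat_lit 0, nat_lit 0, nat_lit 89000, nat_lit 0, nat_lit 0, [(nat_lit 0, [(nat_lit 6, nat_lit 89)])],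
 ⟨t00_k17, nat_lit 0, nat_lit 0, nat_lit 354, nat_lit 0, nat_lit 148009, [nat_lit 5766552000, nat_lit 7187007200, nat_lit 10443300800], [], [nat_lit 16341773348, nat_lit 14502771185, nat_lit 24505807144, nat_lit 13979656517], nat_lit 1271250, nat_lit 1271250, nat_lit 490000, nat_lit 780000, nat_lit 0, nat_lit 0, [nat_lit 1412500, nat_lit 1271250, nat_lit 1271250], [nat_lit 53, nat_lit 40, nat_lit 20, nat_lit 80, nat_lit 14, nat_lit 317, nat_lit 100, nat_lit 9]⟩, ⟨t00_k17, nat_lit 0, nat_lit 0, nat_lit 354, nat_lit 0, nat_lit 148009, [nat_lit 5693750000, nat_lit 7258848000, nat_lit 10815392000], [], [nat_lit 14158691280, nat_lit 13954682574, nat_lit 22219485076, nat_lit 11693334449], nat_lit 1271250, nat_lit 1271250, nat_lit 490000, nat_lit 780000, nat_lit 0, nat_lit 0, [nat_lit 1412500, nat_lit 1271250, nat_lit 1271250], [nat_lit 53, nat_lit 40, nat_lit 20, nat_lit 80, nat_lit 14,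 nat_lit 317, nat_lit 100, nat_lit 9]⟩,
 ⟨nat_lit 6892, nat_lit 7072, ⟨.ofNat (nat_lit 229288), .ofNat (nat_lit 319525), .ofNat (nat_lit 240062), .ofNat (nat_lit 330299), .ofNat (nat_lit 235487), .ofNat (nat_lit 323657), .ofNat (nat_lit 246231), .ofNat (nat_lit 334402)⟩, ⟨.ofNat (nat_lit 0), .ofNat (nat_lit 0), .ofNat (nat_lit 0), .ofNat (nat_lit 0), .ofNat (nat_lit 0), .ofNat (nat_lit 0), .ofNat (nat_lit 0), .ofNat (nat_lit 0)⟩⟩, []⟩
noncomputable def t00_l61 : Lf2 := ⟨nat_lit 0, nat_lit 5, [nat_lit 4, nat_lit 5, nat_lit 5, nat_lit 20], false, nat_lit 0, nat_lit 0, nat_lit 0, nat_lit 0, ⟨nat_lit 1000, nat_lit 0, nat_lit 0, nat_lit 0, nat_lit 0, nat_lit 0, nat_lit 0, nat_lit 0, nat_lit 0, nat_lit 0, nat_lit 0, nat_lit 0, nat_lit 0, nat_lit 0, nat_lit 0, nat_lit 0, false, false⟩,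
 nat_lit 73379, nat_lit 0, nat_lit 0, nat_lit 0, nat_lit 33258, nat_lit 31448, nat_lit 3264, nat_lit 0, nat_lit 0, nat_lit 7458, nat_lit 0, nat_lit 0, nat_lit 0, nat_lit 0, nat_lit 0, nat_lit 0, nat_lit 0, nat_lit 0, [],
 ⟨t00_k10, nat_lit 0, nat_lit 0, nat_lit 305, nat_lit 0, nat_lit 226055, [nat_lit 6250000000, nat_lit 7968000001, nat_lit 9842000000], [], [nat_lit 14664967618, nat_lit 16315904068, nat_lit 21377723298, nat_lit 13209192660], nat_lit 1271250, nat_lit 1271250, nat_lit 490000, nat_lit 780000, nat_lit 0, nat_lit 0, [nat_lit 1412500, nat_lit 1271250, nat_lit 1271250], [nat_lit 25, nat_lit 40, nat_lit 20, nat_lit 80, nat_lit 17, nat_lit 317, nat_lit 100, nat_lit 10]⟩, ⟨t00_k17, nat_lit 0, nat_lit 0, nat_lit 393, nat_lit 0, nat_lit 240069, [nat_lit 6250000000, nat_lit 7968000000, nat_lit 11872000000], [], [nat_lit 23923724672, nat_lit 15785671808, nat_lit 30223208416, nat_lit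 14775258960], nat_lit 1271250, nat_lit 1271250, nat_lit 490000, nat_lit 780000, nat_lit 0, nat_lit 0, [nat_lit 1412500, nat_lit 1271250, nat_lit 1271250], [nat_lit 53, nat_lit 40, nat_lit 20, nat_lit 80, nat_lit 14, nat_lit 317, nat_lit 100, nat_lit 9]⟩,
 zbF0, []⟩
theorem r_NL_500_500_0 (h : EB TB.env) : Dead (RC.box ⟨false, 20, 200, 220, 200, 220, 0, 0, [20]⟩ 0 20) := chkB_sound h (refs := [b_NL_500_500_0_0, b_NL_500_500_0_1, b_NL_500_500_0_2, b_NL_500_500_0_3, b_NL_500_500_0_4, b_NL_500_500_0_5, b_NL_500_500_0_6, b_NL_500_500_0_7, b_NL_500_500_0_8, b_NL_500_500_0_9, b_NL_500_500_0_10, b_NL_500_500_0_11]) (refs_cons (d_NL_500_500_0_0 h) (refs_cons (d_NL_500_500_0_1 h) (refs_cons (d_NL_500_500_0_2 h) (refs_cons (d_NL_500_500_0_3 h) (refs_cons (d_NL_500_500_0_4 h) (refs_cons (d_NL_500_500_0_5 h) (refs_cons (d_NL_500_500_0_6 h) (refs_cons (d_NL_500_500_0_7 h) (refs_cons (d_NL_500_500_0_8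 h) (refs_cons (d_NL_500_500_0_9 h) (refs_cons (d_NL_500_500_0_10 h) (refs_cons (d_NL_500_500_0_11 h) (refs_nil))))))))))))) (T :=
(.st (nat_lit 0)
(.ref (nat_lit 0))
(.gv
(.st (nat_lit 1)
(.spl (nat_lit 2) (nat_lit 240)
(.spl (nat_lit 2) (nat_lit 160)
(.spl (nat_lit 2) (nat_lit 80)
(.spl (nat_lit 2) (nat_lit 40)
(.spl (nat_lit 8) (nat_lit 800)
(.spl (nat_lit 6) (nat_lit 8)
(.ref (nat_lit 1))
(.spl (nat_lit 0) (nat_lit 210)
(.ord (.spl (nat_lit 6) (nat_lit 12)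
(.leaf t00_l23)
(.leaf t00_l24)))
(.spl (nat_lit 0) (nat_lit 215)
(.ord (.spl (nat_lit 0) (nat_lit 213)
(.ord (.leaf t00_l25))
(.spl (nat_lit 6) (nat_lit 16)
(.leaf t00_l26)
(.leaf t00_l27))))
(.spl (nat_lit 2) (nat_lit 20)
(.spl (nat_lit 1) (nat_lit 210)
(.leaf t00_l28)
(.spl (nat_lit 1) (nat_lit 215)
(.spl (nat_lit 6) (nat_lit 16)
(.leaf t00_l29)
(.leaf t00_l30))
(.spl (nat_lit 0) (nat_lit 218)
(.ref (nat_lit 2))
(.spl (nat_lit 2) (nat_lit 8)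
(.spl (nat_lit 7) (nat_lit 600)
(.spl (nat_lit 7) (nat_lit 300)
(.leaf t00_l31)
(.spl (nat_lit 7) (nat_lit 460)
(.spl (nat_lit 7) (nat_lit 380)
(.leaf t00_l32)
(.spl (nat_lit 1) (nat_lit 218)
(.ref (nat_lit 3))
(.spl (nat_lit 6) (nat_lit 16)
(.ref (nat_lit 4))
(.ref (nat_lit 5)))))
(.leaf t00_l33)))
(.leaf t00_l34))
(.spl (nat_lit 6) (nat_lit 16)
(.leaf t00_l35)
(.leaf t00_l36))))))
(.leaf t00_l37)))))
(.leaf t00_l38))
(.spl (nat_lit 0) (nat_lit 210)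
(.ord (.spl (nat_lit 6) (nat_lit 12)
(.leaf t00_l39)
(.leaf t00_l40)))
(.leaf t00_l41)))
(.spl (nat_lit 6) (nat_lit 8)
(.leaf t00_l42)
(.leaf t00_l43)))
(.leaf t00_l44))
(.leaf t00_l45))
(.spl (nat_lit 2) (nat_lit 120)
(.spl (nat_lit 2) (nat_lit 80)
(.spl (nat_lit 8) (nat_lit 800)
(.spl (nat_lit 6) (nat_lit 8)
(.ref (nat_lit 6))
(.spl (nat_lit 0) (nat_lit 210)
(.ord (.spl (nat_lit 6) (nat_lit 12)
(.leaf t00_l46)
(.leaf t00_l47)))
(.spl (nat_lit 2) (nat_lit 40)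
(.spl (nat_lit 0) (nat_lit 215)
(.ord (.spl (nat_lit 0) (nat_lit 213)
(.ord (.leaf t00_l48))
(.spl (nat_lit 6) (nat_lit 16)
(.leaf t00_l49)
(.leaf t00_l50))))
(.spl (nat_lit 2) (nat_lit 20)
(.spl (nat_lit 1) (nat_lit 210)
(.leaf t00_l51)
(.spl (nat_lit 1) (nat_lit 215)
(.spl (nat_lit 6) (nat_lit 16)
(.leaf t00_l52)
(.leaf t00_l53))
(.spl (nat_lit 0) (nat_lit 218)
(.ref (nat_lit 7))
(.spl (nat_lit 2) (nat_lit 8)
(.spl (nat_lit 1) (nat_lit 218)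
(.ref (nat_lit 8))
(.ref (nat_lit 9)))
(.spl (nat_lit 6) (nat_lit 16)
(.spl (nat_lit 0) (nat_lit 219)
(.ord (.leaf t00_l54))
(.leaf t00_l55))
(.leaf t00_l56))))))
(.leaf t00_l57)))
(.leaf t00_l58))))
(.leaf t00_l59))
(.spl (nat_lit 0) (nat_lit 210)
(.ord (.leaf t00_l60))
(.leaf t00_l61)))
(.ref (nat_lit 10))))
(.ref (nat_lit 11))))) (by decide +kernel)
theorem done_NL_500_500_0 (h : EB TB.env) : RC.Done ⟨false, 20, 200, 220, 200, 220, 0, 0, [20]⟩ := RC.done1 (r_NL_500_500_0 h) (t_NL_500_500_0 h)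
theorem t_NL_550_400_0 (h : EB TB.env) : RC.Tail ⟨false, 20, 220, 240, 160, 180, 0, 0, [20]⟩ := RC.tail_chk h (b := ⟨nat_lit 20, nat_lit 10, nat_lit 5, nat_lit 5, nat_lit 20, nat_lit 203, nat_lit 0, nat_lit 33, nat_lit 0⟩) (by decide +kernel)
theorem r_NL_550_400_0 (h : EB TB.env) : Dead (RC.box ⟨false, 20, 220, 240, 160, 180, 0, 0, [20]⟩ 0 20) := chkB_sound h (refs := [b_NL_550_400_0_0]) (refs_cons (d_NL_550_400_0_0 h) (refs_nil)) (T :=
(.ref (nat_lit 0))) (by decide +kernel)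
theorem done_NL_550_400_0 (h : EB TB.env) : RC.Done ⟨false, 20, 220, 240, 160, 180, 0, 0, [20]⟩ := RC.done1 (r_NL_550_400_0 h) (t_NL_550_400_0 h)
theorem t_NL_550_450_0 (h : EB TB.env) : RC.Tail ⟨false, 20, 220, 240, 180, 200, 0, 0, [24]⟩ := RC.tail_chk h (b := ⟨nat_lit 20, nat_lit 12, nat_lit 5, nat_lit 5, nat_lit 20, nat_lit 203, nat_lit 0, nat_lit 32, nat_lit 0⟩) (by decide +kernel)
noncomputable def t00_l62 : Lf2 := ⟨nat_lit 0, nat_lit 2, [nat_lit 10, nat_lit 5, nat_lit 5, nat_lit 20], true, nat_lit 0, nat_lit 0, nat_lit 0, nat_lit 0, ⟨nat_lit 0, nat_lit 0, nat_lit 1000, nat_lit 4, nat_lit 35, nat_lit 0, nat_lit 0, nat_lit 0, nat_lit 0, nat_lit 215, nat_lit 12150, nat_lit 242, nat_lit 66477712, nat_lit 0, nat_lit 0, nat_lit 227676, false, false⟩,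
 nat_lit 0, nat_lit 11229, nat_lit 0, nat_lit 0, nat_lit 5655, nat_lit 0, nat_lit 0, nat_lit 0, nat_lit 0, nat_lit 0, nat_lit 0, nat_lit 0, nat_lit 0, nat_lit 0, nat_lit 53, nat_lit 1000000, nat_lit 0, nat_lit 0, [(nat_lit 3, [(nat_lit 6, nat_lit 1000)])],
 ⟨t00_k20, nat_lit 0, nat_lit 0, nat_lit 290, nat_lit 0, nat_lit 186976, [nat_lit 2101142858, nat_lit 11600000], [], [nat_lit 16284040329, nat_lit 16275510040, nat_lit 16365885884, nat_lit 14925885374], nat_lit 1271250, nat_lit 1271250, nat_lit 0, nat_lit 111251, nat_lit 0, nat_lit 0, [nat_lit 1412500, nat_lit 1271250], [nat_lit 26, nat_lit 40, nat_lit 20, nat_lit 80, nat_lit 2, nat_lit 289, nat_lit 75, nat_lit 10]⟩, C1.Rw.none,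
 ⟨nat_lit 6324, nat_lit 6520, ⟨.ofNat (nat_lit 57661), .ofNat (nat_lit 99755), .ofNat (nat_lit 68360), .ofNat (nat_lit 110454), .ofNat (nat_lit 67309), .ofNat (nat_lit 108442), .ofNat (nat_lit 77993), .ofNat (nat_lit 119125)⟩, ⟨.ofNat (nat_lit 0), .ofNat (nat_lit 0), .ofNat (nat_lit 0), .ofNat (nat_lit 0), .ofNat (nat_lit 0), .ofNat (nat_lit 0), .ofNat (nat_lit 0), .ofNat (nat_lit 0)⟩⟩, [⟨nat_lit 0, nat_lit 100, nat_lit 99, nat_lit 10, nat_lit 75787351⟩]⟩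
noncomputable def t00_l63 : Lf2 := ⟨nat_lit 0, nat_lit 2, [nat_lit 10, nat_lit 5, nat_lit 5, nat_lit 20], false, nat_lit 0, nat_lit 0, nat_lit 0, nat_lit 0, ⟨nat_lit 222, nat_lit 0, nat_lit 778, nat_lit 4, nat_lit 54, nat_lit 0, nat_lit 0, nat_lit 0, nat_lit 0, nat_lit 215, nat_lit 28017, nat_lit 256, nat_lit 65790354, nat_lit 0, nat_lit 0, nat_lit 451772, false, false⟩,
 nat_lit 0, nat_lit 15689, nat_lit 0, nat_lit 0, nat_lit 7901, nat_lit 3904, nat_lit 0, nat_lit 0, nat_lit 0, nat_lit 2652, nat_lit 0, nat_lit 0, nat_lit 0, nat_lit 0, nat_lit 0, nat_lit 778000, nat_lit 0, nat_lit 0, [(nat_lit 3, [(nat_lit 6, nat_lit 778)])],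
 ⟨t00_k20, nat_lit 0, nat_lit 0, nat_lit 281, nat_lit 0, nat_lit 211799, [nat_lit 2197509143, nat_lit 788304800], [], [nat_lit 16928665231, nat_lit 16588603300, nat_lit 17161483779, nat_lit 15164253197], nat_lit 1271250, nat_lit 1271250, nat_lit 111251, nat_lit 230001, nat_lit 0, nat_lit 0, [nat_lit 1412500, nat_lit 1271250], [nat_lit 26, nat_lit 40, nat_lit 20, nat_lit 80, nat_lit 2, nat_lit 289, nat_lit 75, nat_lit 10]⟩, ⟨t00_k7, nat_lit 0, nat_lit 0, nat_lit 201, nat_lit 0, nat_lit 0, [nat_lit 1768896000, nat_lit 2184924000], [], [nat_lit 4319439848, nat_lit 4599869600, nat_lit 3583660592, nat_lit 3858270744], nat_lit 0, nat_lit 0, nat_lit 0, nat_lit 0, nat_lit 0, nat_lit 0, [], [nat_lit 77, nat_lit 40, nat_lit 20, nat_lit 80, nat_lit 17, nat_lit 272, nat_lit 60, nat_lit 9]⟩,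
 ⟨nat_lit 6324, nat_lit 6520, ⟨.ofNat (nat_lit 99755), .ofNat (nat_lit 141849), .ofNat (nat_lit 121153), .ofNat (nat_lit 163247), .ofNat (nat_lit 108442), .ofNat (nat_lit 149574), .ofNat (nat_lit 129809), .ofNat (nat_lit 170942)⟩, ⟨.ofNat (nat_lit 0), .ofNat (nat_lit 0), .ofNat (nat_lit 0), .ofNat (nat_lit 0), .ofNat (nat_lit 0), .ofNat (nat_lit 0), .ofNat (nat_lit 0), .ofNat (nat_lit 0)⟩⟩, []⟩
noncomputable def t00_l64 : Lf2 := ⟨nat_lit 0, nat_lit 4, [nat_lit 38, nat_lit 5, nat_lit 5, nat_lit 20], true, nat_lit 0, nat_lit 0, nat_lit 0, nat_lit 0, ⟨nat_lit 0, nat_lit 0, nat_lit 1000, nat_lit 4, nat_lit 45, nat_lit 0, nat_lit 0, nat_lit 0, nat_lit 0, nat_lit 215, nat_lit 19267, nat_lit 249, nat_lit 66160660, nat_lit 0, nat_lit 0, nat_lit 336449, false, false⟩,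
 nat_lit 0, nat_lit 9796, nat_lit 0, nat_lit 0, nat_lit 4933, nat_lit 0, nat_lit 550, nat_lit 0, nat_lit 0, nat_lit 0, nat_lit 0, nat_lit 0, nat_lit 0, nat_lit 0, nat_lit 115, nat_lit 1000000, nat_lit 0, nat_lit 0, [(nat_lit 3, [(nat_lit 6, nat_lit 1000)])],
 ⟨t00_k21, nat_lit 0, nat_lit 0, nat_lit 341, nat_lit 0, nat_lit 102182, [nat_lit 3341142858, nat_lit 1499600000, nat_lit 23600000], [], [nat_lit 14324078054, nat_lit 14541125294, nat_lit 12759281097, nat_lit 12972992956], nat_lit 1271250, nat_lit 1271250, nat_lit 0, nat_lit 230001, nat_lit 0, nat_lit 0, [nat_lit 1412500, nat_lit 1271250, nat_lit 1271250], [nat_lit 25, nat_lit 40, nat_lit 20, nat_lit 80, nat_lit 17, nat_lit 289, nat_lit 75, nat_lit 9]⟩, C1.Rw.none,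
 ⟨nat_lit 6422, nat_lit 6520, ⟨.ofNat (nat_lit 57661), .ofNat (nat_lit 141849), .ofNat (nat_lit 79059), .ofNat (nat_lit 163247), .ofNat (nat_lit 62513), .ofNat (nat_lit 145733), .ofNat (nat_lit 83894), .ofNat (nat_lit 167115)⟩, ⟨.ofNat (nat_lit 0), .ofNat (nat_lit 0), .ofNat (nat_lit 0), .ofNat (nat_lit 0), .ofNat (nat_lit 0), .ofNat (nat_lit 0), .ofNat (nat_lit 0), .ofNat (nat_lit 0)⟩⟩, [⟨nat_lit 0, nat_lit 100, nat_lit 98, nat_lit 18, nat_lit 298346902⟩]⟩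
noncomputable def t00_l65 : Lf2 := ⟨nat_lit 0, nat_lit 4, [nat_lit 38, nat_lit 5, nat_lit 5, nat_lit 20], true, nat_lit 0, nat_lit 0, nat_lit 0, nat_lit 0, ⟨nat_lit 0, nat_lit 0, nat_lit 1000, nat_lit 4, nat_lit 47, nat_lit 0, nat_lit 0, nat_lit 0, nat_lit 0, nat_lit 215, nat_lit 20417, nat_lit 250, nat_lit 66095686, nat_lit 0, nat_lit 0, nat_lit 357458, false, false⟩,
 nat_lit 0, nat_lit 10521, nat_lit 0, nat_lit 0, nat_lit 5433, nat_lit 0, nat_lit 179, nat_lit 0, nat_lit 0, nat_lit 0, nat_lit 0, nat_lit 0, nat_lit 0, nat_lit 0, nat_lit 115, nat_lit 1000000, nat_lit 0, nat_lit 0, [(nat_lit 3, [(nat_lit 6, nat_lit 1000)])],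
 ⟨t00_k22, nat_lit 0, nat_lit 0, nat_lit 351, nat_lit 0, nat_lit 123387, [nat_lit 3341142858, nat_lit 1499600000, nat_lit 23600000], [], [nat_lit 15860190239, nat_lit 15878532822, nat_lit 16274938821, nat_lit 15588256518], nat_lit 1271250, nat_lit 1271250, nat_lit 0, nat_lit 230001, nat_lit 0, nat_lit 0, [nat_lit 1412500, nat_lit 1271250, nat_lit 1271250], [nat_lit 25, nat_lit 40, nat_lit 20, nat_lit 80, nat_lit 17, nat_lit 289, nat_lit 75, nat_lit 9]⟩, C1.Rw.none,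
 ⟨nat_lit 6324, nat_lit 6423, ⟨.ofNat (nat_lit 62513), .ofNat (nat_lit 145733), .ofNat (nat_lit 83894), .ofNat (nat_lit 167115), .ofNat (nat_lit 67309), .ofNat (nat_lit 149574), .ofNat (nat_lit 88677), .ofNat (nat_lit 170942)⟩, ⟨.ofNat (nat_lit 0), .ofNat (nat_lit 0), .ofNat (nat_lit 0), .ofNat (nat_lit 0), .ofNat (nat_lit 0), .ofNat (nat_lit 0), .ofNat (nat_lit 0), .ofNat (nat_lit 0)⟩⟩, [⟨nat_lit 0, nat_lit 100, nat_lit 98, nat_lit 20, nat_lit 46658020⟩]⟩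
noncomputable def t00_l66 : Lf2 := ⟨nat_lit 0, nat_lit 4, [nat_lit 38, nat_lit 5, nat_lit 5, nat_lit 20], false, nat_lit 0, nat_lit 0, nat_lit 0, nat_lit 0, ⟨nat_lit 135, nat_lit 0, nat_lit 865, nat_lit 4, nat_lit 78, nat_lit 0, nat_lit 0, nat_lit 0, nat_lit 0, nat_lit 215, nat_lit 56067, nat_lit 273, nat_lit 64556248, nat_lit 0, nat_lit 0, nat_lit 782840, false, false⟩,
 nat_lit 0, nat_lit 18978, nat_lit 0, nat_lit 0, nat_lit 9076, nat_lit 2617, nat_lit 976, nat_lit 0, nat_lit 0, nat_lit 1959, nat_lit 0, nat_lit 0, nat_lit 0, nat_lit 0, nat_lit 52, nat_lit 865000, nat_lit 0, nat_lit 0, [(nat_lit 3, [(nat_lit 6, nat_lit 865)])],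
 ⟨t00_k23, nat_lit 0, nat_lit 0, nat_lit 334, nat_lit 0, nat_lit 232408, [nat_lit 2784338572, nat_lit 19784000], [], [nat_lit 16539757748, nat_lit 15192657520, nat_lit 17907814844, nat_lit 13385371108], nat_lit 1271250, nat_lit 1271250, nat_lit 230001, nat_lit 490000, nat_lit 0, nat_lit 0, [nat_lit 1412500, nat_lit 1271250], [nat_lit 51, nat_lit 40, nat_lit 20, nat_lit 80, nat_lit 1, nat_lit 317, nat_lit 100, nat_lit 10]⟩, ⟨t00_k24, nat_lit 0, nat_lit 0, nat_lit 328, nat_lit 0, nat_lit 0, [nat_lit 1075680000, nat_lit 1602720000], [], [nat_lit 1973528101, nat_lit 2123600340, nat_lit 1342669058, nat_lit 1512685872], nat_lit 0, nat_lit 0, nat_lit 0, nat_lit 0, nat_lit 0, nat_lit 0, [], [nat_lit 143, nat_lit 40, nat_lit 20, nat_lit 80, nat_lit 14, nat_lit 289, nat_lit 75, nat_lit 8]⟩,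
 ⟨nat_lit 6324, nat_lit 6709, ⟨.ofNat (nat_lit 133938), .ofNat (nat_lit 220094), .ofNat (nat_lit 155377), .ofNat (nat_lit 241532), .ofNat (nat_lit 149574), .ofNat (nat_lit 231838), .ofNat (nat_lit 170942), .ofNat (nat_lit 253206)⟩, ⟨.ofNat (nat_lit 0), .ofNat (nat_lit 0), .ofNat (nat_lit 0), .ofNat (nat_lit 0), .ofNat (nat_lit 0), .ofNat (nat_lit 0), .ofNat (nat_lit 0), .ofNat (nat_lit 0)⟩⟩, []⟩
noncomputable def t00_l67 : Lf2 := ⟨nat_lit 0, nat_lit 5, [nat_lit 4, nat_lit 5, nat_lit 5, nat_lit 20], true, nat_lit 0, nat_lit 0, nat_lit 0, nat_lit 0, ⟨nat_lit 0, nat_lit 0, nat_lit 1000, nat_lit 4, nat_lit 61, nat_lit 0, nat_lit 0, nat_lit 0, nat_lit 0, nat_lit 215, nat_lit 35267, nat_lit 261, nat_lit 65478074, nat_lit 0, nat_lit 0, nat_lit 542090, false, false⟩,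
 nat_lit 0, nat_lit 9975, nat_lit 0, nat_lit 0, nat_lit 4770, nat_lit 0, nat_lit 57, nat_lit 0, nat_lit 0, nat_lit 0, nat_lit 0, nat_lit 0, nat_lit 0, nat_lit 0, nat_lit 115, nat_lit 1000000, nat_lit 0, nat_lit 0, [(nat_lit 3, [(nat_lit 6, nat_lit 1000)])],
 ⟨t00_k25, nat_lit 0, nat_lit 0, nat_lit 323, nat_lit 0, nat_lit 58833, [nat_lit 3341142858, nat_lit 1499600000, nat_lit 23600000], [], [nat_lit 14829128326, nat_lit 15591488886, nat_lit 12846376266, nat_lit 13660452846], nat_lit 1271250, nat_lit 1271250, nat_lit 0, nat_lit 490000, nat_lit 0, nat_lit 0, [nat_lit 1412500, nat_lit 1271250, nat_lit 1271250], [nat_lit 25, nat_lit 40, nat_lit 20, nat_lit 80, nat_lit 17, nat_lit 317, nat_lit 100, nat_lit 10]⟩, C1.Rw.none,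
 ⟨nat_lit 6324, nat_lit 6709, ⟨.ofNat (nat_lit 47783), .ofNat (nat_lit 220094), .ofNat (nat_lit 69221), .ofNat (nat_lit 241532), .ofNat (nat_lit 67309), .ofNat (nat_lit 231838), .ofNat (nat_lit 88677), .ofNat (nat_lit 253206)⟩, ⟨.ofNat (nat_lit 0), .ofNat (nat_lit 0), .ofNat (nat_lit 0), .ofNat (nat_lit 0), .ofNat (nat_lit 0), .ofNat (nat_lit 0), .ofNat (nat_lit 0), .ofNat (nat_lit 0)⟩⟩, [⟨nat_lit 0, nat_lit 100, nat_lit 98, nat_lit 20, nat_lit 222936127⟩]⟩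
noncomputable def t00_l68 : Lf2 := ⟨nat_lit 0, nat_lit 5, [nat_lit 4, nat_lit 5, nat_lit 5, nat_lit 20], false, nat_lit 0, nat_lit 0, nat_lit 0, nat_lit 0, ⟨nat_lit 1000, nat_lit 0, nat_lit 0, nat_lit 0, nat_lit 0, nat_lit 0, nat_lit 0, nat_lit 0, nat_lit 0, nat_lit 0, nat_lit 0, nat_lit 0, nat_lit 0, nat_lit 0, nat_lit 0, nat_lit 0, false, false⟩,
 nat_lit 0, nat_lit 29590, nat_lit 0, nat_lit 0, nat_lit 14151, nat_lit 30393, nat_lit 1052, nat_lit 0, nat_lit 0, nat_lit 9609, nat_lit 0, nat_lit 0, nat_lit 0, nat_lit 0, nat_lit 0, nat_lit 0, nat_lit 0, nat_lit 0, [],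
 ⟨t00_k25, nat_lit 0, nat_lit 0, nat_lit 451, nat_lit 0, nat_lit 467358, [nat_lit 6250000000, nat_lit 7968000001, nat_lit 9842000000], [], [nat_lit 26168509978, nat_lit 23405473105, nat_lit 29741142270, nat_lit 22789859748], nat_lit 1271250, nat_lit 1271250, nat_lit 490000, nat_lit 780000, nat_lit 0, nat_lit 0, [nat_lit 1412500, nat_lit 1271250, nat_lit 1271250], [nat_lit 25, nat_lit 40, nat_lit 20, nat_lit 80, nat_lit 17, nat_lit 317, nat_lit 100, nat_lit 9]⟩, ⟨t00_k26, nat_lit 0, nat_lit 0, nat_lit 216, nat_lit 0, nat_lit 0, [nat_lit 7968000000, nat_lit 9842000000, nat_lit 11872000000], [], [nat_lit 9885648378, nat_lit 11307846566, nat_lit 5003647030, nat_lit 7110134482], nat_lit 0, nat_lit 0, nat_lit 0, nat_lit 0, nat_lit 0, nat_lit 0, [], [nat_lit 106, nat_lit 40, nat_lit 20, nat_lit 80, nat_lit 41, nat_lit 317, nat_lit 100, nat_lit 9]⟩,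
 zbF0, []⟩
noncomputable def t00_l69 : Lf2 := ⟨nat_lit 0, nat_lit 5, [nat_lit 4, nat_lit 5, nat_lit 5, nat_lit 20], false, nat_lit 0, nat_lit 0, nat_lit 0, nat_lit 0, ⟨nat_lit 1000, nat_lit 0, nat_lit 0, nat_lit 0, nat_lit 0, nat_lit 0, nat_lit 0, nat_lit 0, nat_lit 0, nat_lit 0, nat_lit 0, nat_lit 0, nat_lit 0, nat_lit 0, nat_lit 0, nat_lit 0, false, false⟩,
 nat_lit 0, nat_lit 14535, nat_lit 0, nat_lit 18339, nat_lit 6951, nat_lit 28029, nat_lit 0, nat_lit 0, nat_lit 0, nat_lit 8543, nat_lit 0, nat_lit 0, nat_lit 0, nat_lit 0, nat_lit 0, nat_lit 0, nat_lit 0, nat_lit 0, [],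
 ⟨t00_k25, nat_lit 0, nat_lit 0, nat_lit 429, nat_lit 0, nat_lit 467358, [nat_lit 6250000000, nat_lit 7968000001, nat_lit 9842000000], [], [nat_lit 39416966002, nat_lit 35857010517, nat_lit 37872826043, nat_lit 37645263785], nat_lit 1271250, nat_lit 1271250, nat_lit 780000, nat_lit 1762500, nat_lit 0, nat_lit 0, [nat_lit 1412500, nat_lit 1271250, nat_lit 1271250], [nat_lit 25, nat_lit 40, nat_lit 20, nat_lit 80, nat_lit 17, nat_lit 345, nat_lit 125, nat_lit 10]⟩, ⟨t00_k26, nat_lit 0, nat_lit 0, nat_lit 186, nat_lit 0, nat_lit 0, [nat_lit 7968000000, nat_lit 9842000000, nat_lit 11872000000], [], [nat_lit 7458002212, nat_lit 8745341846, nat_lit 19832400714, nat_lit 22489043624], nat_lit 0, nat_lit 0, nat_lit 0, nat_lit 0, nat_lit 0, nat_lit 0, [], [nat_lit 106, nat_lit 40, nat_lit 20, nat_lit 80, nat_lit 41, nat_lit 345, nat_lit 125, nat_lit 9]⟩,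
 zbF0, []⟩
noncomputable def t00_l70 : Lf2 := ⟨nat_lit 0, nat_lit 5, [nat_lit 4, nat_lit 5, nat_lit 5, nat_lit 20], false, nat_lit 0, nat_lit 0, nat_lit 0, nat_lit 0, ⟨nat_lit 1000, nat_lit 0, nat_lit 0, nat_lit 0, nat_lit 0, nat_lit 0, nat_lit 0, nat_lit 0, nat_lit 0, nat_lit 0, nat_lit 0, nat_lit 0, nat_lit 0, nat_lit 0, nat_lit 0, nat_lit 0, false, false⟩,
 nat_lit 0, nat_lit 16025, nat_lit 0, nat_lit 0, nat_lit 7664, nat_lit 8373, nat_lit 3332, nat_lit 0, nat_lit 0, nat_lit 2290, nat_lit 0, nat_lit 0, nat_lit 0, nat_lit 0, nat_lit 0, nat_lit 0, nat_lit 0, nat_lit 0, [],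
 ⟨t00_k27, nat_lit 0, nat_lit 0, nat_lit 428, nat_lit 0, nat_lit 467358, [nat_lit 6250000000, nat_lit 9842000000], [], [nat_lit 30193115072, nat_lit 30481239120, nat_lit 37322554528, nat_lit 38004365888], nat_lit 1271250, nat_lit 1271250, nat_lit 1271250, nat_lit 1271250, nat_lit 0, nat_lit 0, [nat_lit 1412500, nat_lit 1271250], [nat_lit 51, nat_lit 40, nat_lit 20, nat_lit 80, nat_lit 1, nat_lit 401, nat_lit 175, nat_lit 11]⟩, ⟨t00_k28, nat_lit 0, nat_lit 0, nat_lit 260, nat_lit 0, nat_lit 0, [nat_lit 7968000000, nat_lit 11872000000], [], [nat_lit 32775542342, nat_lit 33088824346, nat_lit 42545059326, nat_lit 42469945246], nat_lit 0, nat_lit 0, nat_lit 0, nat_lit 0, nat_lit 0, nat_lit 0, [], [nat_lit 143, nat_lit 40, nat_lit 20, nat_lit 80, nat_lit 14, nat_lit 373, nat_lit 150, nat_lit 10]⟩,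
 zbF0, []⟩
noncomputable def t00_l71 : Lf2 := ⟨nat_lit 0, nat_lit 2, [nat_lit 10, nat_lit 5, nat_lit 5, nat_lit 20], true, nat_lit 0, nat_lit 0, nat_lit 0, nat_lit 0, ⟨nat_lit 0, nat_lit 0, nat_lit 1000, nat_lit 4, nat_lit 44, nat_lit 0, nat_lit 0, nat_lit 0, nat_lit 0, nat_lit 215, nat_lit 18150, nat_lit 248, nat_lit 66206974, nat_lit 0, nat_lit 0, nat_lit 321239, false, false⟩,
 nat_lit 0, nat_lit 11229, nat_lit 0, nat_lit 0, nat_lit 5655, nat_lit 0, nat_lit 0, nat_lit 0, nat_lit 0, nat_lit 0, nat_lit 0, nat_lit 0, nat_lit 0, nat_lit 0, nat_lit 53, nat_lit 1000000, nat_lit 0, nat_lit 0, [(nat_lit 3, [(nat_lit 6, nat_lit 1000)])],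
 ⟨t00_k20, nat_lit 0, nat_lit 0, nat_lit 290, nat_lit 0, nat_lit 186976, [nat_lit 2101142858, nat_lit 11600000], [], [nat_lit 16284040329, nat_lit 16275510040, nat_lit 16667548824, nat_lit 15238066614], nat_lit 1271250, nat_lit 1271250, nat_lit 0, nat_lit 230001, nat_lit 0, nat_lit 0, [nat_lit 1412500, nat_lit 1271250], [nat_lit 26, nat_lit 40, nat_lit 20, nat_lit 80, nat_lit 2, nat_lit 289, nat_lit 75, nat_lit 10]⟩, C1.Rw.none,
 ⟨nat_lit 6324, nat_lit 6520, ⟨.ofNat (nat_lit 57661), .ofNat (nat_lit 141849), .ofNat (nat_lit 68360), .ofNat (nat_lit 152548), .ofNat (nat_lit 67309), .ofNat (nat_lit 149574), .ofNat (nat_lit 77993), .ofNat (nat_lit 160258)⟩, ⟨.ofNat (nat_lit 0), .ofNat (nat_lit 0), .ofNat (nat_lit 0), .ofNat (nat_lit 0), .ofNat (nat_lit 0), .ofNat (nat_lit 0), .ofNat (nat_lit 0), .ofNat (nat_lit 0)⟩⟩, [⟨nat_lit 0, nat_lit 100, nat_lit 99, nat_lit 10, nat_lit 50527583⟩]⟩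
noncomputable def t00_l72 : Lf2 := ⟨nat_lit 0, nat_lit 2, [nat_lit 10, nat_lit 5, nat_lit 5, nat_lit 20], true, nat_lit 0, nat_lit 0, nat_lit 0, nat_lit 0, ⟨nat_lit 0, nat_lit 0, nat_lit 1000, nat_lit 4, nat_lit 55, nat_lit 0, nat_lit 0, nat_lit 0, nat_lit 0, nat_lit 215, nat_lit 28017, nat_lit 256, nat_lit 65746338, nat_lit 0, nat_lit 0, nat_lit 464842, false, false⟩,
 nat_lit 0, nat_lit 10772, nat_lit 0, nat_lit 0, nat_lit 5425, nat_lit 0, nat_lit 45, nat_lit 0, nat_lit 0, nat_lit 0, nat_lit 0, nat_lit 0, nat_lit 0, nat_lit 0, nat_lit 53, nat_lit 1000000, nat_lit 0, nat_lit 0, [(nat_lit 3, [(nat_lit 6, nat_lit 1000)])],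
 ⟨t00_k20, nat_lit 0, nat_lit 0, nat_lit 278, nat_lit 0, nat_lit 179204, [nat_lit 2101142858, nat_lit 11600000], [], [nat_lit 12532540908, nat_lit 12705904529, nat_lit 11745849391, nat_lit 11936748909], nat_lit 1271250, nat_lit 1271250, nat_lit 111251, nat_lit 230001, nat_lit 0, nat_lit 0, [nat_lit 1412500, nat_lit 1271250], [nat_lit 26, nat_lit 40, nat_lit 20, nat_lit 80, nat_lit 2, nat_lit 289, nat_lit 75, nat_lit 10]⟩, C1.Rw.none,
 ⟨nat_lit 6461, nat_lit 6520, ⟨.ofNat (nat_lit 110454), .ofNat (nat_lit 152548), .ofNat (nat_lit 121153), .ofNat (nat_lit 163247), .ofNat (nat_lit 113076), .ofNat (nat_lit 154879), .ofNat (nat_lit 123770), .ofNat (nat_lit 165573)⟩, ⟨.ofNat (nat_lit 0), .ofNat (nat_lit 0), .ofNat (nat_lit 0), .ofNat (nat_lit 0), .ofNat (nat_lit 0), .ofNat (nat_lit 0), .ofNat (nat_lit 0), .ofNat (nat_lit 0)⟩⟩, []⟩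
noncomputable def t00_l73 : Lf2 := ⟨nat_lit 0, nat_lit 2, [nat_lit 10, nat_lit 5, nat_lit 5, nat_lit 20], true, nat_lit 0, nat_lit 0, nat_lit 0, nat_lit 0, ⟨nat_lit 0, nat_lit 0, nat_lit 1000, nat_lit 4, nat_lit 56, nat_lit 0, nat_lit 0, nat_lit 0, nat_lit 0, nat_lit 215, nat_lit 29400, nat_lit 257, nat_lit 65709435, nat_lit 0, nat_lit 0, nat_lit 475710, false, false⟩,
 nat_lit 0, nat_lit 13089, nat_lit 0, nat_lit 0, nat_lit 6692, nat_lit 0, nat_lit 0, nat_lit 0, nat_lit 0, nat_lit 0, nat_lit 0, nat_lit 0, nat_lit 0, nat_lit 0, nat_lit 53, nat_lit 1000000, nat_lit 0, nat_lit 0, [(nat_lit 3, [(nat_lit 6, nat_lit 1000)])],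
 ⟨t00_k29, nat_lit 0, nat_lit 0, nat_lit 277, nat_lit 0, nat_lit 185406, [nat_lit 2101142858, nat_lit 11600000], [], [nat_lit 14512790679, nat_lit 14481960520, nat_lit 14786401631, nat_lit 14448078202], nat_lit 1271250, nat_lit 1271250, nat_lit 111251, nat_lit 230001, nat_lit 0, nat_lit 0, [nat_lit 1412500, nat_lit 1271250], [nat_lit 26, nat_lit 40, nat_lit 20, nat_lit 80, nat_lit 2, nat_lit 289, nat_lit 75, nat_lit 10]⟩, C1.Rw.none,
 ⟨nat_lit 6422, nat_lit 6462, ⟨.ofNat (nat_lit 113076), .ofNat (nat_lit 154879), .ofNat (nat_lit 123770), .ofNat (nat_lit 165573), .ofNat (nat_lit 114814), .ofNat (nat_lit 156424), .ofNat (nat_lit 125505), .ofNat (nat_lit 167115)⟩, ⟨.ofNat (nat_lit 0), .ofNat (nat_lit 0), .ofNat (nat_lit 0), .ofNat (nat_lit 0), .ofNat (nat_lit 0), .ofNat (nat_lit 0), .ofNat (nat_lit 0), .ofNat (nat_lit 0)⟩⟩, []⟩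
noncomputable def t00_l74 : Lf2 := ⟨nat_lit 0, nat_lit 2, [nat_lit 10, nat_lit 5, nat_lit 5, nat_lit 20], true, nat_lit 0, nat_lit 0, nat_lit 0, nat_lit 0, ⟨nat_lit 0, nat_lit 0, nat_lit 1000, nat_lit 4, nat_lit 57, nat_lit 0, nat_lit 0, nat_lit 0, nat_lit 0, nat_lit 215, nat_lit 30817, nat_lit 258, nat_lit 65657391, nat_lit 0, nat_lit 0, nat_lit 490899, false, false⟩,
 nat_lit 0, nat_lit 12315, nat_lit 0, nat_lit 0, nat_lit 6360, nat_lit 0, nat_lit 0, nat_lit 0, nat_lit 0, nat_lit 0, nat_lit 0, nat_lit 0, nat_lit 0, nat_lit 0, nat_lit 53, nat_lit 1000000, nat_lit 0, nat_lit 0, [(nat_lit 3, [(nat_lit 6, nat_lit 1000)])],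
 ⟨t00_k30, nat_lit 0, nat_lit 0, nat_lit 278, nat_lit 0, nat_lit 206393, [nat_lit 2101142858, nat_lit 11600000], [], [nat_lit 14643855734, nat_lit 14583300000, nat_lit 14929823814, nat_lit 14125977054], nat_lit 1271250, nat_lit 1271250, nat_lit 111251, nat_lit 230001, nat_lit 0, nat_lit 0, [nat_lit 1412500, nat_lit 1271250], [nat_lit 26, nat_lit 40, nat_lit 20, nat_lit 80, nat_lit 2, nat_lit 289, nat_lit 75, nat_lit 10]⟩, C1.Rw.none,
 ⟨nat_lit 6324, nat_lit 6423, ⟨.ofNat (nat_lit 114814), .ofNat (nat_lit 156424), .ofNat (nat_lit 125505), .ofNat (nat_lit 167115), .ofNat (nat_lit 119125), .ofNat (nat_lit 160258), .ofNat (nat_lit 129809), .ofNat (nat_lit 170942)⟩, ⟨.ofNat (nat_lit 0), .ofNat (nat_lit 0), .ofNat (nat_lit 0), .ofNat (nat_lit 0), .ofNat (nat_lit 0), .ofNat (nat_lit 0), .ofNat (nat_lit 0), .ofNat (nat_lit 0)⟩⟩, []⟩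
noncomputable def t00_l75 : Lf2 := ⟨nat_lit 0, nat_lit 4, [nat_lit 38, nat_lit 5, nat_lit 5, nat_lit 20], true, nat_lit 0, nat_lit 0, nat_lit 0, nat_lit 0, ⟨nat_lit 0, nat_lit 0, nat_lit 1000, nat_lit 4, nat_lit 45, nat_lit 0, nat_lit 0, nat_lit 0, nat_lit 0, nat_lit 215, nat_lit 19267, nat_lit 249, nat_lit 66160660, nat_lit 0, nat_lit 0, nat_lit 336449, false, false⟩,
 nat_lit 0, nat_lit 9796, nat_lit 0, nat_lit 0, nat_lit 4933, nat_lit 0, nat_lit 550, nat_lit 0, nat_lit 0, nat_lit 0, nat_lit 0, nat_lit 0, nat_lit 0, nat_lit 0, nat_lit 115, nat_lit 1000000, nat_lit 0, nat_lit 0, [(nat_lit 3, [(nat_lit 6, nat_lit 1000)])],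
 ⟨t00_k21, nat_lit 0, nat_lit 0, nat_lit 341, nat_lit 0, nat_lit 102182, [nat_lit 3341142858, nat_lit 1499600000, nat_lit 23600000], [], [nat_lit 14324078054, nat_lit 14541125294, nat_lit 12759281097, nat_lit 12972992956], nat_lit 1271250, nat_lit 1271250, nat_lit 0, nat_lit 230001, nat_lit 0, nat_lit 0, [nat_lit 1412500, nat_lit 1271250, nat_lit 1271250], [nat_lit 25, nat_lit 40, nat_lit 20, nat_lit 80, nat_lit 17, nat_lit 289, nat_lit 75, nat_lit 9]⟩, C1.Rw.none,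
 ⟨nat_lit 6422, nat_lit 6520, ⟨.ofNat (nat_lit 57661), .ofNat (nat_lit 141849), .ofNat (nat_lit 79059), .ofNat (nat_lit 163247), .ofNat (nat_lit 62513), .ofNat (nat_lit 145733), .ofNat (nat_lit 83894), .ofNat (nat_lit 167115)⟩, ⟨.ofNat (nat_lit 0), .ofNat (nat_lit 0), .ofNat (nat_lit 0), .ofNat (nat_lit 0), .ofNat (nat_lit 0), .ofNat (nat_lit 0), .ofNat (nat_lit 0), .ofNat (nat_lit 0)⟩⟩, [⟨nat_lit 0, nat_lit 100, nat_lit 98, nat_lit 18, nat_lit 298346902⟩]⟩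
noncomputable def t00_l76 : Lf2 := ⟨nat_lit 0, nat_lit 4, [nat_lit 38, nat_lit 5, nat_lit 5, nat_lit 20], true, nat_lit 0, nat_lit 0, nat_lit 0, nat_lit 0, ⟨nat_lit 0, nat_lit 0, nat_lit 1000, nat_lit 4, nat_lit 47, nat_lit 0, nat_lit 0, nat_lit 0, nat_lit 0, nat_lit 215, nat_lit 20417, nat_lit 250, nat_lit 66095686, nat_lit 0, nat_lit 0, nat_lit 357458, false, false⟩,
 nat_lit 0, nat_lit 10521, nat_lit 0, nat_lit 0, nat_lit 5433, nat_lit 0, nat_lit 179, nat_lit 0, nat_lit 0, nat_lit 0, nat_lit 0, nat_lit 0, nat_lit 0, nat_lit 0, nat_lit 115, nat_lit 1000000, nat_lit 0, nat_lit 0, [(nat_lit 3, [(nat_lit 6, nat_lit 1000)])],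
 ⟨t00_k22, nat_lit 0, nat_lit 0, nat_lit 351, nat_lit 0, nat_lit 123387, [nat_lit 3341142858, nat_lit 1499600000, nat_lit 23600000], [], [nat_lit 15860190239, nat_lit 15878532822, nat_lit 16274938821, nat_lit 15588256518], nat_lit 1271250, nat_lit 1271250, nat_lit 0, nat_lit 230001, nat_lit 0, nat_lit 0, [nat_lit 1412500, nat_lit 1271250, nat_lit 1271250], [nat_lit 25, nat_lit 40, nat_lit 20, nat_lit 80, nat_lit 17, nat_lit 289, nat_lit 75, nat_lit 9]⟩, C1.Rw.none,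
 ⟨nat_lit 6324, nat_lit 6423, ⟨.ofNat (nat_lit 62513), .ofNat (nat_lit 145733), .ofNat (nat_lit 83894), .ofNat (nat_lit 167115), .ofNat (nat_lit 67309), .ofNat (nat_lit 149574), .ofNat (nat_lit 88677), .ofNat (nat_lit 170942)⟩, ⟨.ofNat (nat_lit 0), .ofNat (nat_lit 0), .ofNat (nat_lit 0), .ofNat (nat_lit 0), .ofNat (nat_lit 0), .ofNat (nat_lit 0), .ofNat (nat_lit 0), .ofNat (nat_lit 0)⟩⟩, [⟨nat_lit 0, nat_lit 100, nat_lit 98, nat_lit 20, nat_lit 46658020⟩]⟩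
noncomputable def t00_l77 : Lf2 := ⟨nat_lit 0, nat_lit 4, [nat_lit 38, nat_lit 5, nat_lit 5, nat_lit 20], true, nat_lit 0, nat_lit 0, nat_lit 0, nat_lit 0, ⟨nat_lit 0, nat_lit 0, nat_lit 1000, nat_lit 4, nat_lit 79, nat_lit 0, nat_lit 0, nat_lit 0, nat_lit 0, nat_lit 215, nat_lit 58017, nat_lit 274, nat_lit 64472030, nat_lit 0, nat_lit 0, nat_lit 803307, false, false⟩,
 nat_lit 0, nat_lit 11400, nat_lit 0, nat_lit 0, nat_lit 5741, nat_lit 0, nat_lit 565, nat_lit 0, nat_lit 0, nat_lit 0, nat_lit 0, nat_lit 0, nat_lit 0, nat_lit 0, nat_lit 115, nat_lit 1000000, nat_lit 0, nat_lit 0, [(nat_lit 3, [(nat_lit 6, nat_lit 1000)])],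
 ⟨t00_k21, nat_lit 0, nat_lit 0, nat_lit 341, nat_lit 0, nat_lit 220067, [nat_lit 3341142858, nat_lit 1499600000, nat_lit 23600000], [], [nat_lit 11384999901, nat_lit 12032864604, nat_lit 10693009023, nat_lit 11324420204], nat_lit 1271250, nat_lit 1271250, nat_lit 230001, nat_lit 490000, nat_lit 0, nat_lit 0, [nat_lit 1412500, nat_lit 1271250, nat_lit 1271250], [nat_lit 25, nat_lit 40, nat_lit 20, nat_lit 80, nat_lit 17, nat_lit 317, nat_lit 100, nat_lit 10]⟩, C1.Rw.none,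
 ⟨nat_lit 6324, nat_lit 6520, ⟨.ofNat (nat_lit 141849), .ofNat (nat_lit 226037), .ofNat (nat_lit 163247), .ofNat (nat_lit 247435), .ofNat (nat_lit 149574), .ofNat (nat_lit 231838), .ofNat (nat_lit 170942), .ofNat (nat_lit 253206)⟩, ⟨.ofNat (nat_lit 0), .ofNat (nat_lit 0), .ofNat (nat_lit 0), .ofNat (nat_lit 0), .ofNat (nat_lit 0), .ofNat (nat_lit 0), .ofNat (nat_lit 0), .ofNat (nat_lit 0)⟩⟩, []⟩
noncomputable def t00_l78 : Lf2 := ⟨nat_lit 0, nat_lit 5, [nat_lit 4, nat_lit 5, nat_lit 5, nat_lit 20], true, nat_lit 0, nat_lit 0, nat_lit 0, nat_lit 0, ⟨nat_lit 0, nat_lit 0, nat_lit 1000, nat_lit 4, nat_lit 61, nat_lit 0, nat_lit 0, nat_lit 0, nat_lit 0, nat_lit 215, nat_lit 35267, nat_lit 261, nat_lit 65478074, nat_lit 0, nat_lit 0, nat_lit 542090, false, false⟩,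
 nat_lit 0, nat_lit 9975, nat_lit 0, nat_lit 0, nat_lit 4770, nat_lit 0, nat_lit 57, nat_lit 0, nat_lit 0, nat_lit 0, nat_lit 0, nat_lit 0, nat_lit 0, nat_lit 0, nat_lit 115, nat_lit 1000000, nat_lit 0, nat_lit 0, [(nat_lit 3, [(nat_lit 6, nat_lit 1000)])],
 ⟨t00_k25, nat_lit 0, nat_lit 0, nat_lit 323, nat_lit 0, nat_lit 58833, [nat_lit 3341142858, nat_lit 1499600000, nat_lit 23600000], [], [nat_lit 14829128326, nat_lit 15591488886, nat_lit 12846376266, nat_lit 13660452846], nat_lit 1271250, nat_lit 1271250, nat_lit 0, nat_lit 490000, nat_lit 0, nat_lit 0, [nat_lit 1412500, nat_lit 1271250, nat_lit 1271250], [nat_lit 25, nat_lit 40, nat_lit 20, nat_lit 80, nat_lit 17, nat_lit 317, nat_lit 100, nat_lit 10]⟩, C1.Rw.none,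
 ⟨nat_lit 6324, nat_lit 6709, ⟨.ofNat (nat_lit 47783), .ofNat (nat_lit 220094), .ofNat (nat_lit 69221), .ofNat (nat_lit 241532), .ofNat (nat_lit 67309), .ofNat (nat_lit 231838), .ofNat (nat_lit 88677), .ofNat (nat_lit 253206)⟩, ⟨.ofNat (nat_lit 0), .ofNat (nat_lit 0), .ofNat (nat_lit 0), .ofNat (nat_lit 0), .ofNat (nat_lit 0), .ofNat (nat_lit 0), .ofNat (nat_lit 0), .ofNat (nat_lit 0)⟩⟩, [⟨nat_lit 0, nat_lit 100, nat_lit 98, nat_lit 20, nat_lit 222936127⟩]⟩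
noncomputable def t00_l79 : Lf2 := ⟨nat_lit 0, nat_lit 5, [nat_lit 4, nat_lit 5, nat_lit 5, nat_lit 20], false, nat_lit 0, nat_lit 0, nat_lit 0, nat_lit 0, ⟨nat_lit 0, nat_lit 0, nat_lit 1000, nat_lit 4, nat_lit 111, nat_lit 0, nat_lit 0, nat_lit 0, nat_lit 0, nat_lit 215, nat_lit 114817, nat_lit 298, nat_lit 62245961, nat_lit 0, nat_lit 0, nat_lit 1280516, false, false⟩,
 nat_lit 0, nat_lit 13685, nat_lit 0, nat_lit 0, nat_lit 6545, nat_lit 0, nat_lit 1691, nat_lit 0, nat_lit 0, nat_lit 0, nat_lit 0, nat_lit 0, nat_lit 0, nat_lit 0, nat_lit 115, nat_lit 1000000, nat_lit 0, nat_lit 0, [(nat_lit 3, [(nat_lit 6, nat_lit 1000)])],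
 ⟨t00_k27, nat_lit 0, nat_lit 0, nat_lit 288, nat_lit 0, nat_lit 188826, [nat_lit 3341142858, nat_lit 23600000], [], [nat_lit 8873676586, nat_lit 9548375931, nat_lit 10374065306, nat_lit 9662496101], nat_lit 1271250, nat_lit 1271250, nat_lit 490000, nat_lit 780000, nat_lit 0, nat_lit 0, [nat_lit 1412500, nat_lit 1271250], [nat_lit 51, nat_lit 40, nat_lit 20, nat_lit 80, nat_lit 1, nat_lit 317, nat_lit 100, nat_lit 9]⟩, ⟨t00_k28, nat_lit 0, nat_lit 0, nat_lit 397, nat_lit 0, nat_lit 242484, [nat_lit 0, nat_lit 0], [], [nat_lit 0, nat_lit 0, nat_lit 0, nat_lit 0], nat_lit 1271250, nat_lit 1271250, nat_lit 490000, nat_lit 780000, nat_lit 0, nat_lit 0, [nat_lit 1695000, nat_lit 1271250], [nat_lit 143, nat_lit 40, nat_lit 20, nat_lit 80, nat_lit 14, nat_lit 317, nat_lit 100, nat_lit 9]⟩,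
 ⟨nat_lit 6519, nat_lit 6709, ⟨.ofNat (nat_lit 220094), .ofNat (nat_lit 306249), .ofNat (nat_lit 241532), .ofNat (nat_lit 327688), .ofNat (nat_lit 226037), .ofNat (nat_lit 310225), .ofNat (nat_lit 247435), .ofNat (nat_lit 331623)⟩, ⟨.ofNat (nat_lit 0), .ofNat (nat_lit 0), .ofNat (nat_lit 0), .ofNat (nat_lit 0), .ofNat (nat_lit 0), .ofNat (nat_lit 0), .ofNat (nat_lit 0), .ofNat (nat_lit 0)⟩⟩, []⟩
noncomputable def t00_l80 : Lf2 := ⟨nat_lit 0, nat_lit 5, [nat_lit 4, nat_lit 5, nat_lit 5, nat_lit 20], false, nat_lit 0, nat_lit 0, nat_lit 0, nat_lit 0, ⟨nat_lit 0, nat_lit 0, nat_lit 1000, nat_lit 4, nat_lit 112, nat_lit 0, nat_lit 0, nat_lit 0, nat_lit 0, nat_lit 215, nat_lit 117600, nat_lit 299, nat_lit 62088947, nat_lit 0, nat_lit 0, nat_lit 1310449, false, false⟩,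
 nat_lit 0, nat_lit 12586, nat_lit 0, nat_lit 0, nat_lit 6338, nat_lit 0, nat_lit 1514, nat_lit 0, nat_lit 0, nat_lit 0, nat_lit 0, nat_lit 0, nat_lit 0, nat_lit 0, nat_lit 115, nat_lit 1000000, nat_lit 0, nat_lit 0, [(nat_lit 3, [(nat_lit 6, nat_lit 1000)])],
 ⟨t00_k31, nat_lit 0, nat_lit 0, nat_lit 305, nat_lit 0, nat_lit 228334, [nat_lit 3341142858, nat_lit 23600000], [], [nat_lit 9843076242, nat_lit 10506630500, nat_lit 9983190230, nat_lit 10611399284], nat_lit 1271250, nat_lit 1271250, nat_lit 490000, nat_lit 780000, nat_lit 0, nat_lit 0, [nat_lit 1412500, nat_lit 1271250], [nat_lit 51, nat_lit 40, nat_lit 20, nat_lit 80, nat_lit 1, nat_lit 317, nat_lit 100, nat_lit 9]⟩, ⟨t00_k28, nat_lit 0, nat_lit 0, nat_lit 426, nat_lit 0, nat_lit 310056, [nat_lit 0, nat_lit 0], [], [nat_lit 0, nat_lit 0, nat_lit 0, nat_lit 0], nat_lit 1271250, nat_lit 1271250, nat_lit 490000, nat_lit 780000,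 nat_lit 0, nat_lit 0, [nat_lit 1695000, nat_lit 1271250], [nat_lit 143, nat_lit 40, nat_lit 20, nat_lit 80, nat_lit 14, nat_lit 317, nat_lit 100, nat_lit 9]⟩,
 ⟨nat_lit 6324, nat_lit 6520, ⟨.ofNat (nat_lit 226037), .ofNat (nat_lit 310225), .ofNat (nat_lit 247435), .ofNat (nat_lit 331623), .ofNat (nat_lit 231838), .ofNat (nat_lit 314102), .ofNat (nat_lit 253206), .ofNat (nat_lit 335470)⟩, ⟨.ofNat (nat_lit 0), .ofNat (nat_lit 0), .ofNat (nat_lit 0), .ofNat (nat_lit 0), .ofNat (nat_lit 0), .ofNat (nat_lit 0), .ofNat (nat_lit 0), .ofNat (nat_lit 0)⟩⟩, []⟩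
noncomputable def t00_l81 : Lf2 := ⟨nat_lit 0, nat_lit 5, [nat_lit 4, nat_lit 5, nat_lit 5, nat_lit 20], false, nat_lit 0, nat_lit 0, nat_lit 0, nat_lit 0, ⟨nat_lit 1000, nat_lit 0, nat_lit 0, nat_lit 0, nat_lit 0, nat_lit 0, nat_lit 0, nat_lit 0, nat_lit 0, nat_lit 0, nat_lit 0, nat_lit 0, nat_lit 0, nat_lit 0, nat_lit 0, nat_lit 0, false, false⟩,
 nat_lit 23663, nat_lit 0, nat_lit 0, nat_lit 3407, nat_lit 9024, nat_lit 8998, nat_lit 1334, nat_lit 0, nat_lit 0, nat_lit 4012, nat_lit 0, nat_lit 0, nat_lit 0, nat_lit 0, nat_lit 0, nat_lit 0, nat_lit 0, nat_lit 0, [],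
 ⟨t00_k27, nat_lit 0, nat_lit 0, nat_lit 326, nat_lit 0, nat_lit 241445, [nat_lit 6250000000, nat_lit 9842000000], [], [nat_lit 31965360480, nat_lit 32387240336, nat_lit 41254671904, nat_lit 41409523008], nat_lit 1271250, nat_lit 1271250, nat_lit 1271250, nat_lit 1271250, nat_lit 0, nat_lit 0, [nat_lit 1412500, nat_lit 1271250], [nat_lit 51, nat_lit 40, nat_lit 20, nat_lit 80, nat_lit 1, nat_lit 401, nat_lit 175, nat_lit 11]⟩, ⟨t00_k28, nat_lit 0, nat_lit 0, nat_lit 408, nat_lit 0, nat_lit 310056, [nat_lit 7968000000, nat_lit 11872000000], [], [nat_lit 32469951840, nat_lit 32441846648, nat_lit 40364173232, nat_lit 40321467452], nat_lit 1271250, nat_lit 1271250, nat_lit 1271250, nat_lit 1271250, nat_lit 0, nat_lit 0, [nat_lit 1695000, nat_lit 1271250], [nat_lit 143, nat_lit 40, nat_lit 20, nat_lit 80, nat_lit 14, nat_lit 373, nat_lit 150, nat_lit 10]⟩,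
 zbF0, []⟩
theorem r_NL_550_450_0 (h : EB TB.env) : Dead (RC.box ⟨false, 20, 220, 240, 180, 200, 0, 0, [24]⟩ 0 24) := chkB_sound h (refs := [b_NL_550_450_0_0, b_NL_550_450_0_1, b_NL_550_450_0_2, b_NL_550_450_0_3, b_NL_550_450_0_4, b_NL_550_450_0_5, b_NL_550_450_0_6, b_NL_550_450_0_7, b_NL_550_450_0_8]) (refs_cons (d_NL_550_450_0_0 h) (refs_cons (d_NL_550_450_0_1 h) (refs_cons (d_NL_550_450_0_2 h) (refs_cons (d_NL_550_450_0_3 h) (refs_cons (d_NL_550_450_0_4 h) (refs_cons (d_NL_550_450_0_5 h) (refs_cons (d_NL_550_450_0_6 h) (refs_cons (d_NL_550_450_0_7 h) (refs_cons (d_NL_550_450_0_8 h) (refs_nil)))))))))) (T :=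
(.st (nat_lit 0)
(.ref (nat_lit 0))
(.gv
(.st (nat_lit 1)
(.spl (nat_lit 2) (nat_lit 240)
(.spl (nat_lit 2) (nat_lit 120)
(.spl (nat_lit 2) (nat_lit 80)
(.spl (nat_lit 6) (nat_lit 16)
(.spl (nat_lit 2) (nat_lit 40)
(.spl (nat_lit 0) (nat_lit 230)
(.ref (nat_lit 1))
(.spl (nat_lit 6) (nat_lit 8)
(.spl (nat_lit 2) (nat_lit 20)
(.spl (nat_lit 1) (nat_lit 190)
(.leaf t00_l62)
(.spl (nat_lit 0) (nat_lit 235)
(.ref (nat_lit 2))
(.ref (nat_lit 3))))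
(.leaf t00_l63))
(.spl (nat_lit 0) (nat_lit 235)
(.leaf t00_l64)
(.leaf t00_l65))))
(.leaf t00_l66))
(.leaf t00_l67))
(.leaf t00_l68))
(.leaf t00_l69))
(.leaf t00_l70))
(.spl (nat_lit 2) (nat_lit 240)
(.spl (nat_lit 2) (nat_lit 120)
(.spl (nat_lit 2) (nat_lit 80)
(.spl (nat_lit 6) (nat_lit 16)
(.spl (nat_lit 0) (nat_lit 230)
(.ref (nat_lit 4))
(.spl (nat_lit 2) (nat_lit 40)
(.spl (nat_lit 6) (nat_lit 8)
(.spl (nat_lit 1) (nat_lit 190)
(.leaf t00_l71)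
(.spl (nat_lit 2) (nat_lit 20)
(.spl (nat_lit 0) (nat_lit 235)
(.ref (nat_lit 5))
(.ref (nat_lit 6)))
(.spl (nat_lit 0) (nat_lit 235)
(.spl (nat_lit 0) (nat_lit 233)
(.leaf t00_l72)
(.leaf t00_l73))
(.leaf t00_l74))))
(.spl (nat_lit 0) (nat_lit 235)
(.leaf t00_l75)
(.leaf t00_l76)))
(.leaf t00_l77)))
(.leaf t00_l78))
(.spl (nat_lit 0) (nat_lit 230)
(.leaf t00_l79)
(.leaf t00_l80)))
(.ref (nat_lit 7)))
(.leaf t00_l81)))
(.ref (nat_lit 8))))) (by decide +kernel)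
theorem done_NL_550_450_0 (h : EB TB.env) : RC.Done ⟨false, 20, 220, 240, 180, 200, 0, 0, [24]⟩ := RC.done1 (r_NL_550_450_0 h) (t_NL_550_450_0 h)
theorem t_NL_550_500_0 (h : EB TB.env) : RC.Tail ⟨false, 20, 220, 240, 200, 220, 0, 0, [36]⟩ := RC.tail_chk h (b := ⟨nat_lit 20, nat_lit 18, nat_lit 5, nat_lit 5, nat_lit 20, nat_lit 203, nat_lit 0, nat_lit 32, nat_lit 0⟩) (by decide +kernel)
noncomputable def t00_l82 : Lf2 := ⟨nat_lit 0, nat_lit 5, [nat_lit 4, nat_lit 5, nat_lit 5, nat_lit 20], false, nat_lit 0, nat_lit 0, nat_lit 0, nat_lit 0, ⟨nat_lit 705, nat_lit 0, nat_lit 295, nat_lit 5, nat_lit 85, nat_lit 0, nat_lit 0, nat_lit 0, nat_lit 0, nat_lit 215, nat_lit 68267, nat_lit 279, nat_lit 64102464, nat_lit 0, nat_lit 0, nat_lit 890632, false, false⟩,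
 nat_lit 0, nat_lit 23411, nat_lit 0, nat_lit 0, nat_lit 11196, nat_lit 8341, nat_lit 653, nat_lit 0, nat_lit 0, nat_lit 3629, nat_lit 0, nat_lit 0, nat_lit 0, nat_lit 0, nat_lit 0, nat_lit 295000, nat_lit 0, nat_lit 0, [(nat_lit 3, [(nat_lit 6, nat_lit 295)])],
 ⟨t00_k25, nat_lit 0, nat_lit 0, nat_lit 357, nat_lit 0, nat_lit 257658, [nat_lit 4713387143, nat_lit 5245622000, nat_lit 5995672000], [], [nat_lit 23174543301, nat_lit 22511062468, nat_lit 24619229917, nat_lit 21829824889], nat_lit 1271250, nat_lit 1271250, nat_lit 230001, nat_lit 490000, nat_lit 0, nat_lit 0, [nat_lit 1412500, nat_lit 1271250, nat_lit 1271250], [nat_lit 25, nat_lit 40, nat_lit 20, nat_lit 80, nat_lit 17, nat_lit 317, nat_lit 100, nat_lit 10]⟩, ⟨t00_k17, nat_lit 0, nat_lit 0, nat_lit 327, nat_lit 0, nat_lit 0, [nat_lit 4406250000, nat_lit 5617440000, nat_lit 8369760000], [], [nat_lit 12423266765, nat_lit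 13526261783, nat_lit 10657890988, nat_lit 11842656422], nat_lit 0, nat_lit 0, nat_lit 0, nat_lit 0, nat_lit 0, nat_lit 0, [], [nat_lit 53, nat_lit 40, nat_lit 20, nat_lit 80, nat_lit 14, nat_lit 289, nat_lit 75, nat_lit 8]⟩,
 ⟨nat_lit 6519, nat_lit 6709, ⟨.ofNat (nat_lit 155377), .ofNat (nat_lit 241532), .ofNat (nat_lit 176815), .ofNat (nat_lit 262970), .ofNat (nat_lit 163247), .ofNat (nat_lit 247435), .ofNat (nat_lit 184645), .ofNat (nat_lit 268833)⟩, ⟨.ofNat (nat_lit 0), .ofNat (nat_lit 0), .ofNat (nat_lit 0), .ofNat (nat_lit 0), .ofNat (nat_lit 0), .ofNat (nat_lit 0), .ofNat (nat_lit 0), .ofNat (nat_lit 0)⟩⟩, []⟩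
noncomputable def t00_l83 : Lf2 := ⟨nat_lit 0, nat_lit 5, [nat_lit 4, nat_lit 5, nat_lit 5, nat_lit 20], false, nat_lit 0, nat_lit 0, nat_lit 0, nat_lit 0, ⟨nat_lit 455, nat_lit 0, nat_lit 545, nat_lit 5, nat_lit 88, nat_lit 0, nat_lit 0, nat_lit 0, nat_lit 0, nat_lit 215, nat_lit 72600, nat_lit 281, nat_lit 63923011, nat_lit 0, nat_lit 0, nat_lit 931678, false, false⟩,
 nat_lit 0, nat_lit 16860, nat_lit 0, nat_lit 0, nat_lit 8491, nat_lit 5381, nat_lit 380, nat_lit 0, nat_lit 0, nat_lit 2341, nat_lit 0, nat_lit 0, nat_lit 0, nat_lit 0, nat_lit 0, nat_lit 545000, nat_lit 0, nat_lit 0, [(nat_lit 3, [(nat_lit 6, nat_lit 545)])],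
 ⟨t00_k32, nat_lit 0, nat_lit 0, nat_lit 373, nat_lit 0, nat_lit 289314, [nat_lit 3411172858, nat_lit 2938522000, nat_lit 2736072000], [], [nat_lit 20020931424, nat_lit 19607148508, nat_lit 21398741859, nat_lit 19283268646], nat_lit 1271250, nat_lit 1271250, nat_lit 230001, nat_lit 490000, nat_lit 0, nat_lit 0, [nat_lit 1412500, nat_lit 1271250, nat_lit 1271250], [nat_lit 25, nat_lit 40, nat_lit 20, nat_lit 80, nat_lit 17, nat_lit 317, nat_lit 100, nat_lit 10]⟩, ⟨t00_k17, nat_lit 0, nat_lit 0, nat_lit 327, nat_lit 0, nat_lit 0, [nat_lit 2843750000, nat_lit 3625440000, nat_lit 5401760000], [], [nat_lit 8020072365, nat_lit 8731762803, nat_lit 6881508708, nat_lit 7645947202], nat_lit 0, nat_lit 0, nat_lit 0, nat_lit 0, nat_lit 0, nat_lit 0, [], [nat_lit 53, nat_lit 40, nat_lit 20, nat_lit 80, nat_lit 14, nat_lit 289, nat_lit 75, nat_lit 8]⟩,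
 ⟨nat_lit 6324, nat_lit 6520, ⟨.ofNat (nat_lit 163247), .ofNat (nat_lit 247435), .ofNat (nat_lit 184645), .ofNat (nat_lit 268833), .ofNat (nat_lit 170942), .ofNat (nat_lit 253206), .ofNat (nat_lit 192309), .ofNat (nat_lit 274574)⟩, ⟨.ofNat (nat_lit 0), .ofNat (nat_lit 0), .ofNat (nat_lit 0), .ofNat (nat_lit 0), .ofNat (nat_lit 0), .ofNat (nat_lit 0), .ofNat (nat_lit 0), .ofNat (nat_lit 0)⟩⟩, []⟩
noncomputable def t00_l84 : Lf2 := ⟨nat_lit 0, nat_lit 5, [nat_lit 4, nat_lit 5, nat_lit 5, nat_lit 20], false, nat_lit 0, nat_lit 0, nat_lit 0, nat_lit 0, ⟨nat_lit 1000, nat_lit 0, nat_lit 0, nat_lit 0, nat_lit 0, nat_lit 0, nat_lit 0, nat_lit 0, nat_lit 0, nat_lit 0, nat_lit 0, nat_lit 0, nat_lit 0, nat_lit 0, nat_lit 0, nat_lit 0, false, false⟩,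
 nat_lit 0, nat_lit 25713, nat_lit 0, nat_lit 0, nat_lit 12297, nat_lit 20422, nat_lit 1892, nat_lit 0, nat_lit 0, nat_lit 7107, nat_lit 0, nat_lit 0, nat_lit 0, nat_lit 0, nat_lit 0, nat_lit 0, nat_lit 0, nat_lit 0, [],
 ⟨t00_k25, nat_lit 0, nat_lit 0, nat_lit 528, nat_lit 0, nat_lit 638074, [nat_lit 6250000000, nat_lit 7968000001, nat_lit 9842000000], [], [nat_lit 28088738566, nat_lit 22240251038, nat_lit 36368784618, nat_lit 30412634292], nat_lit 1271250, nat_lit 1271250, nat_lit 490000, nat_lit 1100001, nat_lit 0, nat_lit 0, [nat_lit 1412500, nat_lit 1271250, nat_lit 1271250], [nat_lit 25, nat_lit 40, nat_lit 20, nat_lit 80, nat_lit 17, nat_lit 317, nat_lit 100, nat_lit 9]⟩, ⟨t00_k17, nat_lit 0, nat_lit 0, nat_lit 208, nat_lit 0, nat_lit 0, [nat_lit 6250000000, nat_lit 7968000000, nat_lit 11872000000], [], [nat_lit 10369935031, nat_lit 12557209467, nat_lit 8204438104, nat_lit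 11109735136], nat_lit 0, nat_lit 0, nat_lit 0, nat_lit 0, nat_lit 0, nat_lit 0, [], [nat_lit 53, nat_lit 40, nat_lit 20, nat_lit 80, nat_lit 14, nat_lit 317, nat_lit 100, nat_lit 9]⟩,
 zbF0, []⟩
noncomputable def t00_l85 : Lf2 := ⟨nat_lit 0, nat_lit 5, [nat_lit 4, nat_lit 5, nat_lit 5, nat_lit 20], false, nat_lit 0, nat_lit 0, nat_lit 0, nat_lit 0, ⟨nat_lit 1000, nat_lit 0, nat_lit 0, nat_lit 0, nat_lit 0, nat_lit 0, nat_lit 0, nat_lit 0, nat_lit 0, nat_lit 0, nat_lit 0, nat_lit 0, nat_lit 0, nat_lit 0, nat_lit 0, nat_lit 0, false, false⟩,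
 nat_lit 0, nat_lit 19082, nat_lit 0, nat_lit 0, nat_lit 9126, nat_lit 29208, nat_lit 2729, nat_lit 0, nat_lit 0, nat_lit 3649, nat_lit 0, nat_lit 0, nat_lit 0, nat_lit 0, nat_lit 0, nat_lit 0, nat_lit 0, nat_lit 0, [],
 ⟨t00_k27, nat_lit 0, nat_lit 0, nat_lit 482, nat_lit 0, nat_lit 638074, [nat_lit 6250000000, nat_lit 9842000000], [], [nat_lit 32003429836, nat_lit 27252224568, nat_lit 29524928128, nat_lit 27917783320], nat_lit 1271250, nat_lit 1271250, nat_lit 1100001, nat_lit 1785000, nat_lit 0, nat_lit 0, [nat_lit 1412500, nat_lit 1271250], [nat_lit 51, nat_lit 40, nat_lit 20, nat_lit 80, nat_lit 1, nat_lit 345, nat_lit 125, nat_lit 10]⟩, ⟨t00_k33, nat_lit 0, nat_lit 0, nat_lit 190, nat_lit 0, nat_lit 0, [nat_lit 6250000000, nat_lit 9842000000, nat_lit 11872000000], [], [nat_lit 16098072000, nat_lit 18531770320, nat_lit 23916624736, nat_lit 27573458240], nat_lit 0, nat_lit 0,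 nat_lit 0, nat_lit 0, nat_lit 0, nat_lit 0, [], [nat_lit 46, nat_lit 40, nat_lit 20, nat_lit 80, nat_lit 41, nat_lit 345, nat_lit 125, nat_lit 9]⟩,
 zbF0, []⟩
noncomputable def t00_l86 : Lf2 := ⟨nat_lit 0, nat_lit 5, [nat_lit 4, nat_lit 5, nat_lit 5, nat_lit 20], false, nat_lit 0, nat_lit 0, nat_lit 0, nat_lit 0, ⟨nat_lit 1000, nat_lit 0, nat_lit 0, nat_lit 0, nat_lit 0, nat_lit 0, nat_lit 0, nat_lit 0, nat_lit 0, nat_lit 0, nat_lit 0, nat_lit 0, nat_lit 0, nat_lit 0, nat_lit 0, nat_lit 0, false, false⟩,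
 nat_lit 0, nat_lit 15687, nat_lit 0, nat_lit 0, nat_lit 7502, nat_lit 7082, nat_lit 3664, nat_lit 0, nat_lit 0, nat_lit 2561, nat_lit 0, nat_lit 0, nat_lit 0, nat_lit 0, nat_lit 0, nat_lit 0, nat_lit 0, nat_lit 0, [],
 ⟨t00_k27, nat_lit 0, nat_lit 0, nat_lit 485, nat_lit 0, nat_lit 638074, [nat_lit 6250000000, nat_lit 9842000000], [], [nat_lit 30043622720, nat_lit 30450463160, nat_lit 37384666136, nat_lit 37602060440], nat_lit 1271250, nat_lit 1271250, nat_lit 1271250, nat_lit 1271250, nat_lit 0, nat_lit 0, [nat_lit 1412500, nat_lit 1271250], [nat_lit 51, nat_lit 40, nat_lit 20, nat_lit 80, nat_lit 1, nat_lit 401, nat_lit 175, nat_lit 11]⟩, ⟨t00_k33, nat_lit 0, nat_lit 0, nat_lit 271, nat_lit 0, nat_lit 0, [nat_lit 6250000000, nat_lit 9842000000, nat_lit 11872000000], [], [nat_lit 30225392248, nat_lit 30994990656, nat_lit 40794523248, nat_lit 41115727288], nat_lit 0, nat_lit 0,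 nat_lit 0, nat_lit 0, nat_lit 0, nat_lit 0, [], [nat_lit 46, nat_lit 40, nat_lit 20, nat_lit 80, nat_lit 41, nat_lit 401, nat_lit 175, nat_lit 10]⟩,
 zbF0, [⟨nat_lit 13, nat_lit 99, nat_lit 10, nat_lit 100, nat_lit 25437089⟩]⟩
noncomputable def t00_l87 : Lf2 := ⟨nat_lit 1, nat_lit 5, [nat_lit 4, nat_lit 5, nat_lit 5, nat_lit 20], false, nat_lit 0, nat_lit 0, nat_lit 0, nat_lit 0, zbN0,
 nat_lit 0, nat_lit 0, nat_lit 0, nat_lit 0, nat_lit 0, nat_lit 0, nat_lit 0, nat_lit 0, nat_lit 0, nat_lit 0, nat_lit 0, nat_lit 0, nat_lit 0, nat_lit 0, nat_lit 0, nat_lit 0, nat_lit 0, nat_lit 0, [],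
 C1.Rw.none, C1.Rw.none,
 zbF0, []⟩
theorem r_NL_550_500_0 (h : EB TB.env) : Dead (RC.box ⟨false, 20, 220, 240, 200, 220, 0, 0, [36]⟩ 0 36) := chkB_sound h (refs := [b_NL_550_500_0_0, b_NL_550_500_0_1, b_NL_550_500_0_2, b_NL_550_500_0_3, b_NL_550_500_0_4, b_NL_550_500_0_5, b_NL_550_500_0_6, b_NL_550_500_0_7]) (refs_cons (d_NL_550_500_0_0 h) (refs_cons (d_NL_550_500_0_1 h) (refs_cons (d_NL_550_500_0_2 h) (refs_cons (d_NL_550_500_0_3 h) (refs_cons (d_NL_550_500_0_4 h) (refs_cons (d_NL_550_500_0_5 h) (refs_cons (d_NL_550_500_0_6 h) (refs_cons (d_NL_550_500_0_7 h) (refs_nil))))))))) (T :=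
(.spl (nat_lit 6) (nat_lit 28)
(.st (nat_lit 0)
(.ref (nat_lit 0))
(.gv
(.st (nat_lit 1)
(.spl (nat_lit 2) (nat_lit 240)
(.spl (nat_lit 2) (nat_lit 160)
(.spl (nat_lit 2) (nat_lit 80)
(.spl (nat_lit 6) (nat_lit 20)
(.spl (nat_lit 2) (nat_lit 40)
(.spl (nat_lit 6) (nat_lit 8)
(.spl (nat_lit 2) (nat_lit 20)
(.ref (nat_lit 1))
(.ref (nat_lit 2)))
(.ref (nat_lit 3)))
(.spl (nat_lit 0) (nat_lit 230)
(.leaf t00_l82)
(.leaf t00_l83)))
(.ref (nat_lit 4)))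
(.leaf t00_l84))
(.leaf t00_l85))
(.leaf t00_l86))
(.spl (nat_lit 2) (nat_lit 120)
(.ref (nat_lit 5))
(.ref (nat_lit 6))))
(.ref (nat_lit 7))))
(.leaf t00_l87))) (by decide +kernel)
theorem done_NL_550_500_0 (h : EB TB.env) : RC.Done ⟨false, 20, 220, 240, 200, 220, 0, 0, [36]⟩ := RC.done1 (r_NL_550_500_0 h) (t_NL_550_500_0 h)

end B2
end Pool.Agent.Lib.MP_6947cd_al
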